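import Mathlib

/-! Parts: FX.Deg -/

section

/-!
# The degree of a Galois extension over a subfield, through the automorphisms which fix the subfield
-/

set_option autoImplicit false

namespace Pool.Agent.FX

/-- the automorphisms of `F` which fix all elements of `F'` -/
def Fix {k Ω : Type*} [Field k] [Field Ω] [Algebra k Ω] (F' F : IntermediateField k Ω) : Type _ :=
  {σ : F ≃ₐ[k] F // ∀ (y : Ω) (hy : y ∈ F), y ∈ F' → ((σ ⟨y, hy⟩ : F) : Ω) = y}

theorem card_fix {k Ω : Type*} [Field k] [Field Ω] [Algebra k Ω] {F' F : IntermediateField k Ω}
    (hF : F' ≤ F) [FiniteDimensional k F] [IsGalois k F] :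
    Nat.card (Fix F' F) * Module.finrank k F' = Module.finrank k F := by
  have e1 : Module.finrank k F' = Module.finrank k (IntermediateField.restrict hF) :=
    (IntermediateField.restrictAlgEquiv hF).toLinearEquiv.finrank_eq
  have e2 : Module.finrank k (IntermediateField.restrict hF) *
      Module.finrank (IntermediateField.restrict hF) F = Module.finrank k F :=
    Module.finrank_mul_finrank _ _ _
  have e3 : Nat.card (IntermediateField.restrict hF).fixingSubgroup =
      Module.finrank (IntermediateField.restrict hF) F :=
    IsGalois.card_fixingSubgroup_eq_finrank _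
  have e4 : Nat.card (Fix F' F) = Nat.card (IntermediateField.restrict hF).fixingSubgroup := by
    refine Nat.card_congr ⟨fun σ => ⟨σ.1, ?_⟩, fun σ => ⟨σ.1, ?_⟩, fun σ => rfl, fun σ => rfl⟩
    · rw [IntermediateField.mem_fixingSubgroup_iff]
      intro x hx
      exact Subtype.ext (σ.2 x.1 x.2 ((IntermediateField.mem_restrict hF _).1 hx))
    · intro y hy hy'
      have h4 : (⟨y, hy⟩ : F) ∈ IntermediateField.restrict hF :=
        (IntermediateField.mem_restrict hF _).2 hy'
      exact congrArg Subtype.val ((IntermediateField.mem_fixingSubgroup_iff _ _).1 σ.2 _ h4)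
  rw [e4, e3, e1, mul_comm, e2]

theorem fix_ext {k Ω : Type*} [Field k] [Field Ω] [Algebra k Ω] {F' F : IntermediateField k Ω}
    {σ τ : Fix F' F} (h : ∀ x : F, ((σ.1 x : F) : Ω) = ((τ.1 x : F) : Ω)) : σ = τ :=
  Subtype.ext (AlgEquiv.ext fun x => Subtype.ext (h x))

/-- An extension of fields of characteristic zero is finite if the large field is finite over `ℚ`. -/
theorem fd (K L : Type*) [Field K] [Field L] [Algebra ℚ K] [Algebra ℚ L] [Algebra K L]
    [FiniteDimensional ℚ L] : FiniteDimensional K L :=
  Module.Finite.of_restrictScalars_finite ℚ K L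

/-- The multiplicativity of the degree for an intermediate field. -/
theorem card_fix_mul {K L : Type*} [Field K] [Field L] [Algebra K L] [FiniteDimensional K L]
    [IsGalois K L] (E : IntermediateField K L) :
    Nat.card E.fixingSubgroup * Module.finrank K E = Module.finrank K L := by
  rw [IsGalois.card_fixingSubgroup_eq_finrank, mul_comm]
  exact Module.finrank_mul_finrank _ _ _

/-- The multiplicativity of the degree for two intermediate fields. -/
theorem ext_mul {K Ω : Type*} [Field K] [Field Ω] [Algebra K Ω] {F E : IntermediateField K Ω}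
    (h : F ≤ E) : Module.finrank K F * Module.finrank F (IntermediateField.extendScalars h) =
      Module.finrank K E :=
  Module.finrank_mul_finrank K F (IntermediateField.extendScalars h)

/-- The multiplicativity of the degree. -/
theorem mul_deg {K L : Type*} [Field K] [Field L] [Algebra K L] (E : IntermediateField K L) :
    Module.finrank K E * Module.finrank E L = Module.finrank K L :=
  Module.finrank_mul_finrank _ _ _

/-- A tower of fields. -/
theorem tower (K D F : Type*) [Field K] [Field D] [Field F] [Algebra K D] [Algebra D F]
    [Algebra K F] (h : ∀ x : K, algebraMap K F x = algebraMap D F (algebraMap K D x)) :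
    IsScalarTower K D F :=
  IsScalarTower.of_algebraMap_eq h

/-- The value of the inclusion of two intermediate fields. -/
theorem incl_coe {k Ω : Type*} [Field k] [Field Ω] [Algebra k Ω] {F K : IntermediateField k Ω}
    (h : F ≤ K) (y : F) :
    ((@algebraMap F K _ _ (IntermediateField.inclusion h).toRingHom.toAlgebra y : K) : Ω) = y := rfl

/-- The values of the inclusion of two intermediate fields are in the small field. -/
theorem incl_mem {k Ω : Type*} [Field k] [Field Ω] [Algebra k Ω] {F K : IntermediateField k Ω}
    (h : F ≤ K) (y : F) :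
    ((@algebraMap F K _ _ (IntermediateField.inclusion h).toRingHom.toAlgebra y : K) : Ω) ∈ F := y.2

/-- The values of the inclusion of two intermediate fields are in the small field. -/
theorem incl_mem' {k Ω : Type*} [Field k] [Field Ω] [Algebra k Ω] {F K : IntermediateField k Ω}
    (h : F ≤ K) (y : F) : (((IntermediateField.inclusion h : F →+* K) y : K) : Ω) ∈ F := y.2

/-- The value of the inclusion of two intermediate fields. -/
theorem incl_coe' {k Ω : Type*} [Field k] [Field Ω] [Algebra k Ω] {F K : IntermediateField k Ω}
    (h : F ≤ K) (y : F) : (((IntermediateField.inclusion h : F →+* K) y : K) : Ω) = y := rfl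

/-- From an identity in a large field to an identity of values. -/
theorem coe_comm {k Ω : Type*} [Field k] [Field Ω] [Algebra k Ω] {E F : IntermediateField k Ω}
    (h : E ≤ F) (τ : F → F) (x y : E)
    (e : @algebraMap E F _ _ (IntermediateField.inclusion h).toRingHom.toAlgebra y =
      τ (@algebraMap E F _ _ (IntermediateField.inclusion h).toRingHom.toAlgebra x)) :
    (y : Ω) = (τ ⟨(x : Ω), h x.2⟩ : F) := congrArg Subtype.val e

/-- The degree of the fixed field of the kernel of a surjective homomorphism. -/
theorem finrank_fixed_ker {k F A : Type*} [Field k] [Field F] [Algebra k F] [FiniteDimensional k F]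
    [IsGalois k F] [Group A] (Ψ : (F ≃ₐ[k] F) →* A) (hsur : Function.Surjective Ψ) :
    Module.finrank k (IntermediateField.fixedField Ψ.ker) = Nat.card A := by
  have h2 := IntermediateField.finrank_fixedField_eq_card Ψ.ker
  have h3 := Module.finrank_mul_finrank k (IntermediateField.fixedField Ψ.ker) F
  have h4 := IsGalois.card_aut_eq_finrank k F
  have h5 := Subgroup.card_mul_index Ψ.ker
  have h6 : Ψ.ker.index = Nat.card A := by
    rw [Subgroup.index_ker, MonoidHom.range_eq_top.2 hsur]
    exact Subgroup.card_top
  rw [h2, ← h4, ← h5, h6, mul_comm] at h3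
  exact Nat.eq_of_mul_eq_mul_left Nat.card_pos h3

/-- The degree of a lift. -/
theorem finrank_lift {k Ω : Type*} [Field k] [Field Ω] [Algebra k Ω] {F : IntermediateField k Ω}
    (L : IntermediateField k F) :
    Module.finrank k (IntermediateField.lift L) = Module.finrank k L :=
  (IntermediateField.liftAlgEquiv L).toLinearEquiv.finrank_eq.symm

/-- The fixed field of the kernel of a character is cyclic. -/
theorem cyc_fixed {k L A : Type*} [Field k] [Field L] [Algebra k L] [FiniteDimensional k L]
    [IsGalois k L] [Group A] (χ : (L ≃ₐ[k] L) →* A) [IsCyclic χ.range] {n : ℕ}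
    (hn : Nat.card χ.range = n) :
    IsGalois k (IntermediateField.fixedField χ.ker) ∧
      IsCyclic (IntermediateField.fixedField χ.ker ≃ₐ[k] IntermediateField.fixedField χ.ker) ∧
      Module.finrank k (IntermediateField.fixedField χ.ker) = n := by
  have hg : IsGalois k (IntermediateField.fixedField χ.ker) := inferInstance
  let eq3 : χ.range ≃* (IntermediateField.fixedField χ.ker ≃ₐ[k] IntermediateField.fixedField χ.ker) :=
    (QuotientGroup.quotientKerEquivRange χ).symm.trans (IsGalois.normalAutEquivQuotient χ.ker)
  refine ⟨hg, isCyclic_of_surjective eq3.toMonoidHom eq3.surjective, ?_⟩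
  rw [← IsGalois.card_aut_eq_finrank, ← hn]
  exact (Nat.card_congr eq3.toEquiv).symm

/-- Cyclic extensions and isomorphisms. -/
theorem cyc_of_equiv {k L M : Type*} [Field k] [Field L] [Field M] [Algebra k L] [Algebra k M]
    (e : L ≃ₐ[k] M) {n : ℕ}
    (h : IsGalois k L ∧ IsCyclic (L ≃ₐ[k] L) ∧ Module.finrank k L = n) :
    IsGalois k M ∧ IsCyclic (M ≃ₐ[k] M) ∧ Module.finrank k M = n := by
  obtain ⟨h1, h2, h3⟩ := h
  refine ⟨IsGalois.of_algEquiv e, isCyclic_of_surjective (AlgEquiv.autCongr e).toMonoidHom
    (AlgEquiv.autCongr e).surjective, ?_⟩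
  rw [← h3]
  exact e.toLinearEquiv.finrank_eq.symm

/-- The multiplicativity of the degree for fields. -/
theorem fmul (F K A : Type*) [Field F] [Field K] [Field A] [Algebra F K] [Algebra K A]
    [Algebra F A] [IsScalarTower F K A] :
    Module.finrank F K * Module.finrank K A = Module.finrank F A :=
  Module.finrank_mul_finrank F K A

/-- The upper part of a finite extension of fields is finite. -/
theorem fright (F K A : Type*) [Field F] [Field K] [Field A] [Algebra F K] [Algebra K A]
    [Algebra F A] [IsScalarTower F K A] [FiniteDimensional F A] : FiniteDimensional K A :=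
  FiniteDimensional.right F K A

/-- A tower of finite extensions of fields is finite. -/
theorem ftrans (F K A : Type*) [Field F] [Field K] [Field A] [Algebra F K] [Algebra K A]
    [Algebra F A] [IsScalarTower F K A] [FiniteDimensional F K] [FiniteDimensional K A] :
    FiniteDimensional F A :=
  FiniteDimensional.trans F K A

/-- The degree and isomorphisms. -/
theorem fre {k L M : Type*} [Field k] [Field L] [Field M] [Algebra k L] [Algebra k M]
    (e : L ≃ₐ[k] M) : Module.finrank k L = Module.finrank k M :=
  e.toLinearEquiv.finrank_eq

/-- The norm of an element different from zero. -/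
theorem norm_ne {K L : Type*} [Field K] [Field L] [Algebra K L] [FiniteDimensional K L] {x : L}
    (h : x ≠ 0) : Algebra.norm K x ≠ 0 := Algebra.norm_ne_zero_iff.2 h

/-- A field between `k` and a finite extension of `k` is finite over `k`. -/
theorem fd_of_le {k D : IntermediateField ℚ ℂ} (h : k ≤ D) {R : IntermediateField k ℂ}
    [FiniteDimensional k R] (hD : ∀ y ∈ D, y ∈ R) :
    letI : Algebra k D := (IntermediateField.inclusion h).toRingHom.toAlgebra
    FiniteDimensional k D := by
  letI : Algebra k D := (IntermediateField.inclusion h).toRingHom.toAlgebra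
  let φ : D →ₗ[k] R :=
    { toFun := fun y => ⟨y, hD y y.2⟩
      map_add' := fun x y => rfl
      map_smul' := fun c x => by
        apply Subtype.ext
        show ((c • x : D) : ℂ) = ((c • (⟨x, hD x x.2⟩ : R) : R) : ℂ)
        rw [Algebra.smul_def, Algebra.smul_def]
        rfl }
  exact FiniteDimensional.of_injective φ fun x y hxy =>
    Subtype.ext (congrArg (fun z : R => (z : ℂ)) hxy)

/-- The degree of a subfield does not depend on the large field. -/
theorem finrank_of_val {F L Ω : Type*} [Field F] [Field L] [Field Ω] [Algebra F L] [Algebra F Ω]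
    (ι : L →+* Ω) (hι : ∀ x : F, ι (algebraMap F L x) = algebraMap F Ω x)
    (S : IntermediateField F L) (D : IntermediateField F Ω)
    (h1 : ∀ x : L, x ∈ S ↔ ι x ∈ D) (h2 : ∀ y ∈ D, ∃ x, ι x = y) :
    Module.finrank F S = Module.finrank F D := by
  let ι' : L →ₐ[F] Ω := { ι with commutes' := hι }
  have h3 : S.map ι' = D := by
    apply SetLike.ext
    intro y
    constructor
    · rintro ⟨x, hx, rfl⟩
      exact (h1 x).1 hx
    · intro hy
      obtain ⟨x, rfl⟩ := h2 y hy
      exact ⟨x, (h1 x).2 hy, rfl⟩
  rw [← h3]
  exact (S.equivMap ι').toLinearEquiv.finrank_eq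

/-- An intermediate field which is finite over `ℚ` is finite over its subfields. -/
theorem fin_ext {A C : IntermediateField ℚ ℂ} [FiniteDimensional ℚ C] (h : A ≤ C) :
    FiniteDimensional A (IntermediateField.extendScalars h) := by
  have h1 : FiniteDimensional ℚ (IntermediateField.extendScalars h) := by
    let f : C →+ IntermediateField.extendScalars h :=
      { toFun := fun x => ⟨x.1, x.2⟩
        map_zero' := rfl
        map_add' := fun _ _ => rfl }
    exact Module.Finite.of_surjective f.toRatLinearMap (fun x => ⟨⟨x.1, x.2⟩, rfl⟩)
  exact Module.Finite.of_restrictScalars_finite ℚ A _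

end Pool.Agent.FX


end
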