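import Mathlib
import Mathlib.NumberTheory.RamificationInertia.Valuation
import Mathlib.RingTheory.ClassGroup.Basic
import Mathlib.RingTheory.DedekindDomain.Different
import Mathlib.RingTheory.DedekindDomain.Factorization
import Pool.Agent.MVF.C001

/-! Parts: HB.Defs, HB.StHB, HB.H_FIQ, HB.H_JT1, HB.H_PSI, HB.H_SEX, HB.H_ORD, HB.H_VGP, HB.H_NBL, HB.H_HSU, HB.H_INV, HB.H_SUR, HB.H_RMF, HB.H_WAP, HB.H_LAT -/

namespace Pool.Agent.HB.INV
end Pool.Agent.HB.INV
namespace Pool.Agent.HB.LAT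
end Pool.Agent.HB.LAT
namespace Pool.Agent.HB.NBL
end Pool.Agent.HB.NBL
namespace Pool.Agent.HB.ORDx
end Pool.Agent.HB.ORDx
namespace Pool.Agent.HB.PSIx
end Pool.Agent.HB.PSIx
namespace Pool.Agent.HB.SURx
end Pool.Agent.HB.SURx
namespace Pool.Agent.HB.VGPx
end Pool.Agent.HB.VGPx

section

/-!
# HB: Herbrand quotients and the first inequality for cyclic extensions: definitions (helper3)

`K / k` number fields, Galois, cyclic of prime power degree, `k` totally complex. `ord w x` the order of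
`x ∈ Fˣ` at the prime `w`. `EU T` the group of `T`-units. `nu = N_(K/k)`, `iu` the inclusion `kˣ → Kˣ`.

Cyclic groups are given by an endomorphism `s` of an abelian group `G` (multiplicative) with `s^n = id`; all
modules are subquotients `U / V`, `V ≤ U ≤ G`.
-/

set_option autoImplicit false

open NumberField IsDedekindDomain

namespace Pool.Agent.HB

noncomputable section

/-! ## Tate cohomology of cyclic groups -/

section
variable {G : Type} [CommGroup G]

/-- `x ↦ s x / x` -/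
def DD (s : G →* G) : G →* G where
  toFun x := s x / x
  map_one' := by simp
  map_mul' x y := by rw [map_mul]; exact mul_div_mul_comm _ _ _ _

/-- `x ↦ ∏_(i < n) s^i x` -/
def NN (n : ℕ) (s : G →* G) : G →* G where
  toFun x := ∏ i ∈ Finset.range n, (⇑s)^[i] x
  map_one' := by simp [iterate_map_one]
  map_mul' x y := by simp [iterate_map_mul, Finset.prod_mul_distrib]

/-- the order of `Ĥ⁰(U / V)` (`0` if infinite) -/
def t0 (n : ℕ) (s : G →* G) (U V : Subgroup G) : ℕ :=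
  (U.map (NN n s) ⊔ V).relIndex (U ⊓ V.comap (DD s))

/-- the order of `Ĥ⁻¹(U / V)` (`0` if infinite) -/
def t1 (n : ℕ) (s : G →* G) (U V : Subgroup G) : ℕ :=
  (U.map (DD s) ⊔ V).relIndex (U ⊓ V.comap (NN n s))

/-- `U` is stable under `s` -/
def Stb (s : G →* G) (U : Subgroup G) : Prop := ∀ x ∈ U, s x ∈ U

/-- the elements fixed by `s^i` -/
def fixS (s : G →* G) (i : ℕ) : Subgroup G where
  carrier := {x | (⇑s)^[i] x = x}
  one_mem' := by simp [iterate_map_one]
  mul_mem' := by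
    intro a b ha hb
    simp only [Set.mem_ofPred_eq] at *
    rw [iterate_map_mul, ha, hb]
  inv_mem' := by
    intro a ha
    simp only [Set.mem_ofPred_eq] at *
    rw [iterate_map_inv, ha]

/-- the rank of a finitely generated subgroup -/
def rk (U : Subgroup G) : ℕ := Module.finrank ℤ (Additive U)

end

/-! ## Orders at primes, units -/

section
variable {F : Type} [Field F] [NumberField F]

/-- the order of `x` at `w` -/
def ord (w : HeightOneSpectrum (𝓞 F)) (x : Fˣ) : ℤ := -WithZero.log (w.valuation F (x : F))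

lemma val_ne (w : HeightOneSpectrum (𝓞 F)) (x : Fˣ) : w.valuation F (x : F) ≠ 0 := by
  rw [Ne, Valuation.zero_iff]; exact x.ne_zero

lemma ord_mul (w : HeightOneSpectrum (𝓞 F)) (x y : Fˣ) : ord w (x * y) = ord w x + ord w y := by
  unfold ord
  rw [Units.val_mul, map_mul, WithZero.log_mul (val_ne w x) (val_ne w y)]
  ring

@[simp] lemma ord_one (w : HeightOneSpectrum (𝓞 F)) : ord w (1 : Fˣ) = 0 := by
  have := ord_mul w (1 : Fˣ) 1
  rw [one_mul] at this
  omega

@[simp] lemma ord_inv (w : HeightOneSpectrum (𝓞 F)) (x : Fˣ) : ord w x⁻¹ = -ord w x := by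
  have := ord_mul w x x⁻¹
  rw [mul_inv_cancel, ord_one] at this
  omega

lemma ord_val (w : HeightOneSpectrum (𝓞 F)) (x : Fˣ) :
    w.valuation F (x : F) = WithZero.exp (-ord w x) := by
  unfold ord
  rw [neg_neg, WithZero.exp_log (val_ne w x)]

/-- the `T`-units -/
def EU (T : Set (HeightOneSpectrum (𝓞 F))) : Subgroup Fˣ where
  carrier := {x | ∀ w ∉ T, ord w x = 0}
  one_mem' := by intro w _; exact ord_one w
  mul_mem' := by
    intro a b ha hb w hw
    rw [ord_mul, ha w hw, hb w hw, add_zero]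
  inv_mem' := by
    intro a ha w hw
    rw [ord_inv, ha w hw, neg_zero]

/-- the primes in `T` generate the class group: every other prime is principal up to `T` -/
def GenT (T : Set (HeightOneSpectrum (𝓞 F))) : Prop :=
  ∀ w ∉ T, ∃ x : Fˣ, ord w x = 1 ∧ ∀ w' ∉ T, w' ≠ w → ord w' x = 0

/-- `F` is totally complex -/
def TC (F : Type) [Field F] [NumberField F] : Prop := ∀ v : InfinitePlace F, v.IsComplex

end

section
variable (k K : Type) [Field k] [NumberField k] [Field K] [NumberField K] [Algebra k K]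

/-- `w` lies above `v` -/
def Lies (v : HeightOneSpectrum (𝓞 k)) (w : HeightOneSpectrum (𝓞 K)) : Prop :=
  w.asIdeal.under (𝓞 k) = v.asIdeal

/-- the primes above the primes in `S` -/
def abv (S : Set (HeightOneSpectrum (𝓞 k))) : Set (HeightOneSpectrum (𝓞 K)) :=
  {w | ∃ v ∈ S, Lies k K v w}

/-- the number of primes above `v` -/
def gpr (v : HeightOneSpectrum (𝓞 k)) : ℕ := Nat.card {w : HeightOneSpectrum (𝓞 K) // Lies k K v w}

/-- the inclusion `kˣ → Kˣ` -/
def iu : kˣ →* Kˣ := Units.map (algebraMap k K : k →* K)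

/-- the norm `Kˣ → kˣ` -/
def nu : Kˣ →* kˣ := Units.map (Algebra.norm k)

/-- `v` is unramified in `K` -/
def Unr (v : HeightOneSpectrum (𝓞 k)) : Prop :=
  ∀ w : HeightOneSpectrum (𝓞 K), Lies k K v w → ∀ x : kˣ, ord w (iu k K x) = ord v x

/-- some prime above `v` has the same norm -/
def Deg1 (v : HeightOneSpectrum (𝓞 k)) : Prop :=
  ∃ w : HeightOneSpectrum (𝓞 K), Lies k K v w ∧ Ideal.absNorm w.asIdeal = Ideal.absNorm v.asIdeal

variable {k K}

/-- the automorphism `σ` on `Kˣ` -/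
def su (σ : K ≃ₐ[k] K) : Kˣ →* Kˣ := Units.map ((σ : K →+* K) : K →* K)

/-- `K / k` is cyclic of degree `n` with generator `σ` -/
structure Cyc (n : ℕ) (σ : K ≃ₐ[k] K) : Prop where
  gal : IsGalois k K
  gen : ∀ τ : K ≃ₐ[k] K, τ ∈ Subgroup.zpowers σ
  deg : Module.finrank k K = n

/-- a subgroup of `kˣ` which is a substitute for the local norm group at `v` -/
structure LocN (n : ℕ) (K : Type) [Field K] [NumberField K] [Algebra k K]
    (v : HeightOneSpectrum (𝓞 k)) (W : Subgroup kˣ) : Prop where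
  nrm : ∀ z : Kˣ, nu k K z ∈ W
  opn : ∃ M : ℕ, ∀ x : kˣ, v.valuation k ((x : k) - 1) ≤ WithZero.exp (-(M : ℤ)) → x ∈ W
  fin : W.index ≠ 0
  big : n ≤ W.index * gpr k K v

end

end

end Pool.Agent.HB


end

section

/-!
# HB: statements (helper3)

Herbrand quotients and the first inequality of class field theory for cyclic extensions of prime power
degree. Every `def Sh_X : Prop` is the statement of a module; it is proved as
`theorem th_X (h : Sh_Y) .. : Sh_X` in `Pool/Agent/HB/H_X.lean`, namespace `Pool.Agent.HB`, where the `Sh_Y`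
are the statements named after USES (or fewer).

PLAN. `K / k` cyclic of degree `n = l^m`, `k` totally complex. `S` a finite set of primes of `k` which
generates both class groups (`GenT`) and contains the ramified primes, `E = EU (abv S)` the `S`-units of `K`.
(HSU) `[E_k : N E] = (1/n) ∏_(v ∈ S) n_v`, `n_v = n / g_v`. (LOC) subgroups `W_v ∋ N z` of `kˣ`, open at `v`, of
index `≥ n_v`. So `W' = ⋂ W_v`, `[kˣ : W' E_k] ≥ ∏ n_v / [E_k : N E] = n` (NON), and the ideals prime to `S`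
map onto `A = kˣ / W' E_k` (PSI), norms of ideals to `1`. (JT1) is the result for ray classes, (FIQ) for the
class group if `K / k` is unramified.
-/

set_option autoImplicit false

open NumberField IsDedekindDomain
open scoped nonZeroDivisors

namespace Pool.Agent.HB

/-! ## 1. Abstract Herbrand quotients

`s^n = id` on `G`. -/

/-- (HQ) the Herbrand quotient is multiplicative.

PROOF. The exact hexagon for `0 → W/V → U/V → U/W → 0`. All groups are commutative. Write `D = DD s`, `N = NN n s`: `D (N x) = 1 = N (D x)` (`s^n = id`), `D`, `N` commute with `s`.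
`H0(X/Y) = (X ⊓ Y.comap D) / (X.map N ⊔ Y)`, `H1(X/Y) = (X ⊓ Y.comap N) / (X.map D ⊔ Y)`. Six maps: inclusion `i0 : H0(W/V) → H0(U/V)`, projection `p0 : H0(U/V) → H0(U/W)`, `δ0 : H0(U/W) → H1(W/V)`, `x ↦ D x` (`x ∈ U`, `D x ∈ W`: `N D x = 1 ∈ V`), and `i1, p1`,
`δ1 : H1(U/W) → H0(W/V)`, `x ↦ N x`. Exactness at each of the six places is direct. For an exact hexagon of finite groups the alternating product of the orders is `1` (`|X| = |ker| |im|`). One way in Lean: `Subgroup.relIndex` and `Subgroup.card_eq_card_quotient_mul_card_subgroup`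
for the six quotient groups, or the abstract lemma: six finite commutative groups `X_i` (`i : ZMod 6` or a list) with homomorphisms `f_i : X_i → X_(i+1)`, `ker f_(i+1) = range f_i` (cyclically): `|X_0||X_2||X_4| = |X_1||X_3||X_5|`. Finiteness of `H(U/V)`: it is between the finite
groups. -/
def Sh_HQ : Prop := ∀ (G : Type) [CommGroup G] (n : ℕ) (s : G →* G), (∀ x, (⇑s)^[n] x = x) →
  ∀ U W V : Subgroup G, V ≤ W → W ≤ U → Stb s U → Stb s W → Stb s V →
  t0 n s U W ≠ 0 → t1 n s U W ≠ 0 → t0 n s W V ≠ 0 → t1 n s W V ≠ 0 →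
  t0 n s U V ≠ 0 ∧ t1 n s U V ≠ 0 ∧
    t0 n s U V * (t1 n s U W * t1 n s W V) = t1 n s U V * (t0 n s U W * t0 n s W V)

/-- (FIN) finite groups have Herbrand quotient `1`.

PROOF. `V ≤ U`, `Q = U / V` finite, `D, N : Q → Q`: `|Q| = |ker D| |im D| = |ker N| |im N|`, so `|ker D|/|im N| = |ker N|/|im D|`. -/
def Sh_FIN : Prop := ∀ (G : Type) [CommGroup G] (n : ℕ) (s : G →* G), (∀ x, (⇑s)^[n] x = x) →
  ∀ U V : Subgroup G, V ≤ U → Stb s U → Stb s V → V.relIndex U ≠ 0 →
  t0 n s U V = t1 n s U V ∧ t0 n s U V ≠ 0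

/-- (LTZ) lattices over `ℤ[ζ]`.

PROOF. `Y = U / V` is a finitely generated torsion-free abelian group (so free), `n = l^m`, `q = l^(m-1)`, and `Φ(s) = 1 + s^q + .. + s^((l-1)q) = 0` on `Y`. Use `Y` as a module over `ℤ[X]`, additively. `N = Φ(s) (1 + s + .. + s^(q-1)) = 0` on `Y`. `s - 1` is
injective on `Y`: if `s y = y` then `0 = Φ(s) y = l y`. So `H0 = ker(s - 1)/.. = 0`: `t0 = 1` (the group `U ⊓ V.comap D` is `V`), `H1 = Y/(s-1)Y`. `φ = φ(l^m) = (l-1) q`. In `ℤ[X]/(Φ_(l^m))` (`Φ_(l^m)(X) = Σ X^(q i)`, `Polynomial.cyclotomic_prime_pow_eq_geom_sum`)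
`l = unit * (X - 1)^φ`: Mathlib: `IsPrimitiveRoot.associated_norm_zeta_sub_one..` or directly: `(X-1)^φ = Φ + l g(X)` in `ℤ[X]` (modulo `l`: `Φ = (X^l^m - 1)/(X^q - 1) = (X-1)^φ`), so `(s-1)^φ = l g(s)` on `Y` and `l = Φ(1) = Φ(1) - Φ(s) = (s - 1) h(s)` on `Y`. Hence
`(s-1)^φ Y ⊆ l Y ⊆ (s-1) Y`; `|Y/(s-1)Y|` divides `|Y/lY| = l^(rank)`: a power `l^a`; `(s-1)` is injective so `|Y/(s-1)^i Y| = l^(a i)`. It remains `(s-1)^φ Y = l Y`: `g(s)` is bijective on `Y`: injective on `Y/lY`?: `l^(a φ) = |Y/(s-1)^φ Y| = |Y/lY| |lY/l g(s) Y| = l^(rank) |Y/g(s)Y|`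
and from `l = (s-1) h(s)` iterate: with `ζ^j` in place of `ζ`: `l = ∏_(0<j<l^m, l∤j) (1 - X^j)` modulo `Φ`, and `1 - X^j = (1 - X) u_j(X)`, `1 - X = (1 - X^j) u'_j(X)` modulo `X^(l^m) - 1` (`j j' ≡ 1` modulo `l^m`), so `(s-1)^φ Y = l Y` directly: `(1 - s^j) Y = (1 - s) Y`. (This second way needs only the formula
`∏_(0<j<l^m, l∤j) (1 - X^j) ≡ l` modulo `Φ_(l^m)`: `cyclotomic` at `1` in the field `ℚ(ζ)`, `Φ` is the minimal polynomial of `ζ`.) Determinants are a third way: `|Y/(s-1)Y| = |det(s-1)|`, the characteristic polynomial of `s` is `Φ_(l^m)^a` (all its roots in `ℂ` are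
roots of `Φ_(l^m)`, which is irreducible over `ℚ`), so `|det(1 - s)| = Φ_(l^m)(1)^a = l^a`, `a φ = rank`. Choose what is easiest. `rk U = rk V + rank Y`. -/
def Sh_LTZ : Prop := ∀ (G : Type) [CommGroup G] (l m : ℕ) (s : G →* G), l.Prime → 1 ≤ m →
  (∀ x, (⇑s)^[l ^ m] x = x) →
  ∀ U V : Subgroup G, V ≤ U → Stb s U → Stb s V → Module.Finite ℤ (Additive U) →
  (∀ x ∈ U, ∀ j : ℕ, j ≠ 0 → x ^ j ∈ V → x ∈ V) →
  (∀ x ∈ U, ∏ i ∈ Finset.range l, (⇑s)^[i * l ^ (m - 1)] x ∈ V) →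
  t0 (l ^ m) s U V = 1 ∧ ∃ a : ℕ, t1 (l ^ m) s U V = l ^ a ∧
    rk U = rk V + (l ^ m).totient * a

/-- (LTF) the Herbrand quotient of a lattice from the ranks of the fixed subgroups.

USES HQ, LTZ. PROOF. Induction on `m`, for all `G`, `s`, `U` (only `s^(l^m) = id` on `U` is used: restrict to `G = U`, or state the induction with `G = U`). `m = 0`: `N = id`, `D = 1`: `t0 = t1 = 1`. Step: `q = l^m`, `n = l^(m+1)`, `U' = U ⊓ fixS s q`: stable, `x^j ∈ U'` implies `x ∈ U'`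
(`s^q(x)/x` is a torsion element of `U`), `U/U'` is killed by `Φ`: `y = ∏_(i<l) s^(iq) x` is fixed by `s^q`. (LTZ) (`m + 1`, `V = U'`): `t0(U/U') = 1`, `t1(U/U') = l^(a m)`, `rk U = rk U' + φ(l^(m+1)) a_m`. `U'` with `n`: `NN n = (NN q)^l` on `U'`. For `U' ⊓ ker D = U ⊓ fixS s 1 =: U''`:
`t0_n(U'/1) = [U'' : N_q(U')^l] = [U'' : N_q U'] [N_q U' : (N_q U')^l] = t0_q(U'/1) l^(rk U'')` (`N_q U' ≤ U''` has finite index, induction: `t0_q ≠ 0`; it is free of rank `rk U''`: `[L : L^l] = l^rank`), `t1_n(U'/1) = [ker N_q^l : D U'] = t1_q(U'/1)` (no torsion). Induction for `U'` and `q` (the group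
`G' = U'`, on which `s^q = id`; `t0`, `t1` only depend on `s` on `U`), `U' ⊓ fixS s (l^j) = U ⊓ fixS s (l^j)` for `j ≤ m`. (HQ). -/
def Sh_LTF : Prop := ∀ (G : Type) [CommGroup G] (l m : ℕ) (s : G →* G), l.Prime →
  (∀ x, (⇑s)^[l ^ m] x = x) →
  ∀ U : Subgroup G, Stb s U → Module.Finite ℤ (Additive U) →
  (∀ x ∈ U, ∀ j : ℕ, j ≠ 0 → x ^ j = 1 → x = 1) →
  t0 (l ^ m) s U ⊥ ≠ 0 ∧ t1 (l ^ m) s U ⊥ ≠ 0 ∧ ∃ a : ℕ → ℕ,
    (∀ j < m, rk (U ⊓ fixS s (l ^ (j + 1))) =
      rk (U ⊓ fixS s (l ^ j)) + (l ^ (j + 1)).totient * a j) ∧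
    t0 (l ^ m) s U ⊥ * l ^ (∑ j ∈ Finset.range m, a j) =
      t1 (l ^ m) s U ⊥ * l ^ (m * rk (U ⊓ fixS s 1))

/-- (LAT) the same with torsion.

USES HQ, FIN, LTF. PROOF. The torsion subgroup of `U` is finite, of exponent `w`, say; `U₁ = {x^w : x ∈ U}` is torsion-free (`y = x^w` of finite order: `x` is torsion, `y = 1`), stable, `U/U₁` is finite. (HQ) for `1 ≤ U₁ ≤ U` with (FIN) for `U/U₁`: `t0(U) t1(U₁) = t1(U) t0(U₁)`. Ranks: `(U ⊓ fixS)^w ≤ U₁ ⊓ fixS ≤ U ⊓ fixS`: the same rank.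
(LTF) for `U₁`; cancel. -/
def Sh_LAT : Prop := ∀ (G : Type) [CommGroup G] (l m : ℕ) (s : G →* G), l.Prime →
  (∀ x, (⇑s)^[l ^ m] x = x) →
  ∀ U : Subgroup G, Stb s U → Module.Finite ℤ (Additive U) →
  t0 (l ^ m) s U ⊥ ≠ 0 ∧ t1 (l ^ m) s U ⊥ ≠ 0 ∧ ∃ a : ℕ → ℕ,
    (∀ j < m, rk (U ⊓ fixS s (l ^ (j + 1))) =
      rk (U ⊓ fixS s (l ^ j)) + (l ^ (j + 1)).totient * a j) ∧
    t0 (l ^ m) s U ⊥ * l ^ (∑ j ∈ Finset.range m, a j) =
      t1 (l ^ m) s U ⊥ * l ^ (m * rk (U ⊓ fixS s 1))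

/-! ## 2. Orders at primes -/

/-- (ORD) elementary facts on orders.

PROOF. (1) finite support: `HeightOneSpectrum.Support.finite` or the factorisation of the fractional ideal. (2) `x ∈ Fˣ` is an integer iff all orders are `≥ 0` (`mem_integers_of_valuation_le_one`, `valuation_le_one`). (3) for `x ∈ 𝓞 F`, `x ≠ 0`: `0 < ord w x` iff `x ∈ w` (`valuation_lt_one_iff_mem`).
(4) approximation: a finite set `T` and integers `c w`: CRT (`Ideal.exists_forall_sub_mem_ideal` or `IsDedekindDomain.exists_forall_sub_mem_ideal`): for `w ∈ T` choose `π_w ∈ 𝓞 F` with `ord w π_w = 1`; an element `y ≡ π_w^(c w + N)` modulo `w^(c w + N + 1)` for `w ∈ T` (all `c w + N ≥ 0`), and `z ∈ 𝓞 F` with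
`z ≡ π_w^N` modulo `w^(N+1)`; `x = y/z`. (5) `1 + small`: `v(x - 1) ≤ exp(-M)`, `M ≥ 1`, implies `ord x = 0` (ultrametric). -/
def Sh_ORD : Prop := ∀ (F : Type) [Field F] [NumberField F],
  (∀ x : Fˣ, {w : HeightOneSpectrum (𝓞 F) | ord w x ≠ 0}.Finite) ∧
  (∀ x : Fˣ, (∀ w : HeightOneSpectrum (𝓞 F), 0 ≤ ord w x) ↔ ∃ y : 𝓞 F, (y : F) = x) ∧
  (∀ (x : Fˣ) (y : 𝓞 F), (y : F) = x → ∀ w : HeightOneSpectrum (𝓞 F),
    0 ≤ ord w x ∧ (0 < ord w x ↔ y ∈ w.asIdeal)) ∧
  (∀ (T : Finset (HeightOneSpectrum (𝓞 F))) (c : HeightOneSpectrum (𝓞 F) → ℤ),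
    ∃ x : Fˣ, ∀ w ∈ T, ord w x = c w) ∧
  ∀ (w : HeightOneSpectrum (𝓞 F)) (x : Fˣ) (M : ℕ), 1 ≤ M →
    w.valuation F ((x : F) - 1) ≤ WithZero.exp (-(M : ℤ)) → ord w x = 0

/-- (WAP) weak approximation with multiplicative congruences.

USES ORD. PROOF. `y_v = a_v / b` with `a_v, b ∈ 𝓞 k` nonzero, a common denominator `b` (for `v ∈ T`). CRT: `a ∈ 𝓞 k`, `a ≡ a_v` modulo `v^(M + ord_v a_v)` (and `+ 1`, so that `a ≠ 0`; if `T = ∅` take `1`). `x = a / b`: `x/y_v - 1 = (a - a_v)/a_v` has valuation `≤ exp(-M)`. -/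
def Sh_WAP : Prop := ∀ (k : Type) [Field k] [NumberField k]
  (T : Finset (HeightOneSpectrum (𝓞 k))) (y : HeightOneSpectrum (𝓞 k) → kˣ) (M : ℕ),
  ∃ x : kˣ, ∀ v ∈ T, v.valuation k (((x * (y v)⁻¹ : kˣ) : k) - 1) ≤ WithZero.exp (-(M : ℤ))

/-- (ORG) orders and Galois conjugation; primes above `v` are conjugate.

PROOF. `σ` acts on the primes of `K` (`w' = σ(w)`, the image of the ideal under `RingOfIntegers.mapRingEquiv σ`), `ord (σ w) (σ x) = ord w x`, `σ w` lies above the same `v`. (1) A permutation `π` of the primes of `K` with this property. (2) transitivity (`IsGalois`, `σ` a generator: every `τ` is `σ^i` with `i ≥ 0`,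
finite group; Mathlib: `Ideal.exists_map_eq_of_isGalois`/`IsInvariant`). (3) `gpr` is finite, positive, and divides `n` (orbit of a cyclic group of order `n`: `π^n = id`). (4) if `n = l^m` then `gpr = l^c`. -/
def Sh_ORG : Prop := ∀ (k K : Type) [Field k] [NumberField k] [Field K] [NumberField K]
  [Algebra k K] (n : ℕ) (σ : K ≃ₐ[k] K), Cyc n σ →
  ∃ π : Equiv.Perm (HeightOneSpectrum (𝓞 K)), (∀ w x, ord (π w) (su σ x) = ord w x) ∧
    (∀ v w, Lies k K v w → Lies k K v (π w)) ∧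
    (∀ v w w', Lies k K v w → Lies k K v w' → ∃ i : ℕ, (⇑π)^[i] w = w') ∧
    (∀ w, (⇑π)^[n] w = w) ∧
    (∀ v, ∃ w, Lies k K v w) ∧ (∀ w, ∃ v, Lies k K v w) ∧
    (∀ v, Finite {w : HeightOneSpectrum (𝓞 K) // Lies k K v w}) ∧
    ∀ v, gpr k K v ∣ n ∧ gpr k K v ≠ 0

/-- (ORN) orders, the inclusion and the norm.

USES ORG. PROOF. (1) `v, w`: `ord w (iu x) = e(w|v) ord v x` (`Mathlib/NumberTheory/RamificationInertia/Valuation.lean`, or `v 𝓞 K = ∏ w^e`), `e ≥ 1`. (2) `iu (nu z) = ∏_(i<n) σ^i z` (`Algebra.norm_eq_prod_automorphisms`, all automorphisms are `σ^i`, `i < n`). (3) `ord w (iu (nu z)) = Σ_i ord w (σ^i z) = Σ_i ord (π^(-i) w) z`,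
the orbit of `w` has `g` elements, each taken `n/g` times: `= (n/g) Σ_(w' | v) ord w' z`. (4) `ord v (nu z) = Σ_(w | v) f(w|v) ord w z` with `f` the residue degree; we need: if `ord w z = 0` for all `w` above `v` then `ord v (nu z) = 0` (from (3)); if `ord w z = 1` for one `w` above `v` of the same norm
(`f = 1`) and `0` for the others above `v` then `ord v (nu z) = 1` (`e f g = n`, all `f` are equal, so `e = n/g`: (3) gives `e ord v (nu z) = n/g`); if `v` is unramified (`Unr`) then `ord v (nu z) = (n/g) Σ_(w|v) ord w z`. (5) `Unr`, at some `w`: `e = 1`. (6) an element of `K` fixed by `σ` is in `k`. -/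
def Sh_ORN : Prop := ∀ (k K : Type) [Field k] [NumberField k] [Field K] [NumberField K]
  [Algebra k K] (n : ℕ) (σ : K ≃ₐ[k] K), Cyc n σ →
  (∀ x : K, (∀ i : ℕ, (⇑σ)^[i] x = x) → ∃ y : k, algebraMap k K y = x) ∧
  (∀ x : Kˣ, su σ x = x ↔ ∃ y : kˣ, iu k K y = x) ∧
  (∀ z : Kˣ, iu k K (nu k K z) = NN n (su σ) z) ∧
  (∀ x : Kˣ, (⇑(su σ))^[n] x = x) ∧
  (∀ v w, Lies k K v w → ∃ e : ℕ, 1 ≤ e ∧ ∀ x : kˣ, ord w (iu k K x) = e * ord v x) ∧
  (∀ v (z : Kˣ), (∀ w, Lies k K v w → ord w z = 0) → ord v (nu k K z) = 0) ∧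
  (∀ v w (z : Kˣ), Lies k K v w → Ideal.absNorm w.asIdeal = Ideal.absNorm v.asIdeal →
    ord w z = 1 → (∀ w', Lies k K v w' → w' ≠ w → ord w' z = 0) → ord v (nu k K z) = 1) ∧
  ∀ v, Unr k K v → ∀ z : Kˣ, ((n / gpr k K v : ℕ) : ℤ) ∣ ord v (nu k K z)

/-- (RMF) almost all primes are unramified.

PROOF. Only finitely many primes `v` have a prime `w` above with `e(w|v) ≠ 1` (different or discriminant: `Mathlib/NumberTheory/RamificationInertia/Unramified.lean`, `Mathlib/RingTheory/DedekindDomain/Different.lean`; or: `K = k(α)`, `α` an integer with minimal polynomial `f`, the primes not dividing the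
discriminant of `f`; look also at `Pool/Agent/RI` (the finite set of ramified primes), `Pool/Agent/MU3/StD.lean` and its proofs). For the others `ord w (iu x) = ord v x` (ORN (1) with `e = 1`: `ord w (iu π) = 1` for a uniformizer). -/
def Sh_RMF : Prop := ∀ (k K : Type) [Field k] [NumberField k] [Field K] [NumberField K]
  [Algebra k K], ∃ S : Finset (HeightOneSpectrum (𝓞 k)), ∀ v ∉ S, Unr k K v

/-! ## 3. `S`-units -/

/-- (SUR) the rank of the `T`-units.

USES ORD. PROOF. `1 → (𝓞 F)ˣ → EU T → ℤ^T`, `x ↦ (ord w x)_(w ∈ T)`; the kernel are the units (`ord w x = 0` for all `w`: (ORD)), finitely generated of rank `r = #places - 1` (`NumberField.Units.rank`, `NumberField.Units.finrank_eq_rank`, `Units.basisModTorsion`); the image has finite index in `ℤ^T`: `w^h = (x)`, `h` the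
class number, `ord w x = h`, other orders `0`. So `EU T` is finitely generated and the ranks add (`Submodule.finrank_quotient_add_finrank`, rank of a subgroup of finite index). -/
def Sh_SUR : Prop := ∀ (F : Type) [Field F] [NumberField F]
  (T : Finset (HeightOneSpectrum (𝓞 F))),
  Module.Finite ℤ (Additive (EU (T : Set (HeightOneSpectrum (𝓞 F))))) ∧
  rk (EU (T : Set (HeightOneSpectrum (𝓞 F)))) + 1 = Fintype.card (InfinitePlace F) + T.card

/-- (GJ) the number of primes of an intermediate field above `v`.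

USES ORG. PROOF. `K / k` cyclic of degree `l^m`, `F` the fixed field of `σ^(l^j)` (`j ≤ m`), `F / k` cyclic of degree `l^j` with generator `σ|F`. `X` = the primes of `K` above `v`, `|X| = g = l^c`, `π` acts on `X` as one cycle. The primes of `F` above `v` correspond to the orbits of `π^(l^j)` on `X` (two primes of `K` lie above the same
prime of `F` iff they are conjugate under `Gal(K/F) = ⟨σ^(l^j)⟩`): a cycle of length `l^c` falls into `l^(min(j,c))` orbits. -/
def Sh_GJ : Prop := ∀ (k K : Type) [Field k] [NumberField k] [Field K] [NumberField K]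
  [Algebra k K] (l m : ℕ) (σ : K ≃ₐ[k] K), l.Prime → Cyc (l ^ m) σ → ∀ j ≤ m,
  ∀ F : IntermediateField k K, (∀ x : K, x ∈ F ↔ (⇑σ)^[l ^ j] x = x) →
    Module.finrank k F = l ^ j ∧
    ∀ v : HeightOneSpectrum (𝓞 k), gpr k F v = min (l ^ j) (gpr k K v)

/-- (PLC) the number of infinite places.

PROOF. `k` is totally complex, so `F ⊇ k` is totally complex, the number of places is half the degree over `ℚ` (`NumberField.InfinitePlace.card_add_two_mul_card_eq_rank`), `[F : ℚ] = [F : k] [k : ℚ]`. -/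
def Sh_PLC : Prop := ∀ (k F : Type) [Field k] [NumberField k] [Field F] [NumberField F]
  [Algebra k F], TC k → TC F ∧
    Fintype.card (InfinitePlace F) = Module.finrank k F * Fintype.card (InfinitePlace k)

/-- (INV) the rank of the fixed `S`-units.

USES SUR, GJ, PLC, ORN. PROOF. `F` = the fixed field of `σ^(l^j)` (`IntermediateField.fixedField`). `EU (abv k K S) ⊓ fixS (su σ) (l^j)` is the image of `EU (abv k F S)` under `Fˣ → Kˣ` (an `x ∈ Fˣ` has order `0` at a prime of `F` iff it has order `0` at the primes of `K` above: (ORN) for `K / F`; `Lies` is transitive). Isomorphic groups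
have the same rank. (SUR) for `F`, `abv k F S` has `Σ_(v ∈ S) gpr k F v` elements; (GJ); (PLC). Finiteness of `EU (abv k K S)`: (SUR) for `K`. -/
def Sh_INV : Prop := ∀ (k K : Type) [Field k] [NumberField k] [Field K] [NumberField K]
  [Algebra k K] (l m : ℕ) (σ : K ≃ₐ[k] K), l.Prime → Cyc (l ^ m) σ → TC k →
  ∀ S : Finset (HeightOneSpectrum (𝓞 k)),
  Module.Finite ℤ (Additive (EU (abv k K (S : Set (HeightOneSpectrum (𝓞 k)))))) ∧
  ∀ j ≤ m, rk (EU (abv k K (S : Set (HeightOneSpectrum (𝓞 k)))) ⊓ fixS (su σ) (l ^ j)) + 1 =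
    l ^ j * Fintype.card (InfinitePlace k) + ∑ v ∈ S, min (l ^ j) (gpr k K v)

/-- (HSU) the Herbrand quotient of the `S`-units.

USES LAT, INV, ORN, ORG. PROOF. `U = EU (abv S)` is stable (ORG). (LAT), (INV): `gpr k K v = l^(c v)`, `c v ≤ m` (ORG: divides `l^m`; `Nat.dvd_prime_pow`). `rk_(j+1) - rk_j = φ(l^(j+1)) (s + #{v ∈ S : c v > j})`, `s = card (InfinitePlace k)`, so `a j = s + #{v ∈ S : j < c v}` and `Σ_(j<m) a j = m s + Σ_v c v`; `rk_0 = s - 1 + |S|`. So
`t0 l^(m s + Σ c v) = t1 l^(m (s - 1 + |S|))`, `t0 l^m l^(Σ c v) = t1 l^(m |S|)` (`s ≥ 1`), and `∏_(v ∈ S) (l^m / l^(c v)) l^(Σ c v) = l^(m |S|)`. -/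
def Sh_HSU : Prop := ∀ (k K : Type) [Field k] [NumberField k] [Field K] [NumberField K]
  [Algebra k K] (l m : ℕ) (σ : K ≃ₐ[k] K), l.Prime → Cyc (l ^ m) σ → TC k →
  ∀ S : Finset (HeightOneSpectrum (𝓞 k)),
  t0 (l ^ m) (su σ) (EU (abv k K (S : Set (HeightOneSpectrum (𝓞 k))))) ⊥ ≠ 0 ∧
  t0 (l ^ m) (su σ) (EU (abv k K (S : Set (HeightOneSpectrum (𝓞 k))))) ⊥ * l ^ m =
    t1 (l ^ m) (su σ) (EU (abv k K (S : Set (HeightOneSpectrum (𝓞 k))))) ⊥ *
      ∏ v ∈ S, (l ^ m / gpr k K v)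

/-- (T1E) `Ĥ⁻¹` of the `S`-units is trivial.

USES ORG, ORN, ORD. PROOF. `u ∈ E = EU (abv S)`, `NN n (su σ) u = 1`, so `Algebra.norm k u = 1` (ORN). Hilbert 90 (`groupCohomology.exists_div_of_norm_eq_one`): `u = σ y / y` (replace `y` by `y⁻¹`). For `w` not above `S`: `ord w (σ y) = ord w y`, so the order of `y` is constant on the orbits of `π` (ORG): `ord w y = c v` for all
`w | v`, `v ∉ S`, `c` of finite support (ORD). `GenT S` gives `x_v ∈ kˣ`; `x = ∏ x_v^(c v)`, `ord w (iu x) = ord v x = c v` for `w | v ∉ S` (`Unr`). So `y' = y / iu x ∈ E` and `σ y' / y' = u`: `u ∈ E.map (DD (su σ))`. -/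
def Sh_T1E : Prop := ∀ (k K : Type) [Field k] [NumberField k] [Field K] [NumberField K]
  [Algebra k K] (n : ℕ) (σ : K ≃ₐ[k] K), Cyc n σ →
  ∀ S : Finset (HeightOneSpectrum (𝓞 k)), (∀ v ∉ S, Unr k K v) →
  GenT (S : Set (HeightOneSpectrum (𝓞 k))) →
  t1 n (su σ) (EU (abv k K (S : Set (HeightOneSpectrum (𝓞 k))))) ⊥ = 1

/-- (SUN) the index of the norms of `S`-units.

USES HSU, T1E, ORN. PROOF. `t0 = [E ⊓ ker D : N E]`; `E ⊓ ker D = iu (E_k)`, `E_k = EU S` (ORN: fixed elements are in `k`; orders: `ord w (iu x) = e ord v x`; every `v` has a `w` above it), `NN z = iu (nu z)`: `iu` is injective, so `t0 = (E.map nu).relIndex E_k`. -/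
def Sh_SUN : Prop := ∀ (k K : Type) [Field k] [NumberField k] [Field K] [NumberField K]
  [Algebra k K] (l m : ℕ) (σ : K ≃ₐ[k] K), l.Prime → Cyc (l ^ m) σ → TC k →
  ∀ S : Finset (HeightOneSpectrum (𝓞 k)), (∀ v ∉ S, Unr k K v) →
  GenT (S : Set (HeightOneSpectrum (𝓞 k))) →
  ((EU (abv k K (S : Set (HeightOneSpectrum (𝓞 k))))).map (nu k K)).relIndex
      (EU (S : Set (HeightOneSpectrum (𝓞 k)))) * l ^ m = ∏ v ∈ S, (l ^ m / gpr k K v)

/-! ## 4. The local part

`v` a prime of `k`, `R = {x ∈ k : v(x) ≤ 1}`, `B = {x ∈ K : w(x) ≤ 1 for all w | v}`, `π ∈ k` of order 1 at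
`v`, `θ` a normal basis, `Λ = Σ_i R σ^i θ ⊆ B`. `Lam v σ θ x`: `x ∈ Λ`. -/

/-- `x` is integral at all primes above `v` -/
def IntV (k K : Type) [Field k] [NumberField k] [Field K] [NumberField K] [Algebra k K]
    (v : HeightOneSpectrum (𝓞 k)) (x : K) : Prop :=
  ∀ w : HeightOneSpectrum (𝓞 K), Lies k K v w → w.valuation K x ≤ 1

/-- `x ∈ Λ = Σ_(i < n) R σ^i θ` -/
def Lam {k K : Type} [Field k] [NumberField k] [Field K] [NumberField K] [Algebra k K]
    (n : ℕ) (v : HeightOneSpectrum (𝓞 k)) (σ : K ≃ₐ[k] K) (θ x : K) : Prop :=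
  ∃ c : ℕ → k, (∀ i, v.valuation k (c i) ≤ 1) ∧
    x = ∑ i ∈ Finset.range n, algebraMap k K (c i) * (⇑σ)^[i] θ

/-- (NBL) a normal basis and its lattice.

USES ORN. PROOF. `IsGalois.normalBasis`: `θ₀` whose conjugates `σ^i θ₀`, `i < n`, are a basis of `K / k`. `π ∈ k` with `v.valuation k π = exp(-1)` (`valuation_exists_uniformizer`). `θ = π^a θ₀` is integral above `v` for large `a` (finitely many `w | v`, `w(π) < 1`). The coordinates of an `x ∈ K`:
`x = Σ c_i σ^i θ`; applying `Tr(σ^j θ ·)`: `Tr(σ^j θ x) = Σ_i c_i Tr(σ^j θ σ^i θ)`, a linear system with matrix `T` over `R` and determinant `d ≠ 0` (`Algebra.discr_not_zero_of_basis`, the discriminant of the basis); for `x` integral above `v` the left sides are in `R` (the trace of an element of `B` is in `R`: it is in `k` and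
integral above `v`, and `v(y) ≤ 1` iff `w(y) ≤ 1` for `y ∈ k`). Cramer: `d c_i ∈ R`. `c` = the order of `d` at `v`. -/
def Sh_NBL : Prop := ∀ (k K : Type) [Field k] [NumberField k] [Field K] [NumberField K]
  [Algebra k K] (n : ℕ) (σ : K ≃ₐ[k] K), Cyc n σ → ∀ v : HeightOneSpectrum (𝓞 k),
  ∃ (π : kˣ) (θ : K) (c : ℕ), ord v π = 1 ∧ IntV k K v θ ∧
    (∀ a : ℕ → k, ∑ i ∈ Finset.range n, algebraMap k K (a i) * (⇑σ)^[i] θ = 0 →
      ∀ i < n, a i = 0) ∧
    (∀ x : K, ∃ a : ℕ → k, x = ∑ i ∈ Finset.range n, algebraMap k K (a i) * (⇑σ)^[i] θ) ∧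
    ∀ x : K, IntV k K v x → Lam n v σ θ (algebraMap k K (π : k) ^ c * x)

/-- the data of (NBL) -/
structure NB {k K : Type} [Field k] [NumberField k] [Field K] [NumberField K] [Algebra k K]
    (n : ℕ) (σ : K ≃ₐ[k] K) (v : HeightOneSpectrum (𝓞 k)) (π : kˣ) (θ : K) (c : ℕ) : Prop where
  pi : ord v π = 1
  int : IntV k K v θ
  indep : ∀ a : ℕ → k, ∑ i ∈ Finset.range n, algebraMap k K (a i) * (⇑σ)^[i] θ = 0 →
    ∀ i < n, a i = 0
  span : ∀ x : K, ∃ a : ℕ → k, x = ∑ i ∈ Finset.range n, algebraMap k K (a i) * (⇑σ)^[i] θ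
  lam : ∀ x : K, IntV k K v x → Lam n v σ θ (algebraMap k K (π : k) ^ c * x)

/-- `V_M = {x ∈ Kˣ : x = 1 + π^M a, a ∈ Λ}` as a set -/
def InVM {k K : Type} [Field k] [NumberField k] [Field K] [NumberField K] [Algebra k K]
    (n : ℕ) (σ : K ≃ₐ[k] K) (v : HeightOneSpectrum (𝓞 k)) (π : kˣ) (θ : K) (M : ℕ) (x : Kˣ) :
    Prop :=
  ∃ a : K, Lam n v σ θ a ∧ (x : K) = 1 + algebraMap k K (π : k) ^ M * a

/-- (VGP) `V_M` is a group, stable under `σ`, for large `M`, and of finite index in the units at `v`.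

USES ORG, ORD. PROOF. `π' = algebraMap π`. `Λ ⊆ B` (`B` is a ring, stable under `σ`; `R ⊆ B`), `R Λ ⊆ Λ`, `σ Λ ⊆ Λ` (`σ^n = id`), `π'^c B ⊆ Λ`. `M ≥ c + 1`. `(1 + π'^M a)(1 + π'^M b) = 1 + π'^M (a + b + π'^M a b)`, `π'^M a b ∈ Λ`. `x = 1 + π'^M a ∈ Kˣ`: `π'^M a` has valuation `< 1` at the `w | v`, so `ord w x = 0`, `x⁻¹ ∈ B`,
`x⁻¹ = 1 - π'^M a x⁻¹ = 1 - π'^M (a - π'^M a² x⁻¹)`, in `V_M`. Finite index in `U = {x : ord w x = 0 for all w | v}`: `x, y ∈ U` with `x ≡ y` modulo `π'^(M + c) B` have `x/y = 1 + (x - y)/y ∈ 1 + π'^(M+c) B ⊆ V_M`; `B / π'^(M+c) B` is finite: every class of `B` contains an element of `𝓞 K` (an `x ∈ B` is `y/s`, `y ∈ 𝓞 K`, `s ∈ 𝓞 K`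
a unit at all `w | v`; `s` is invertible modulo a power of the product of the `w | v`), and `𝓞 K / (π₀)` is finite, where `π₀ ∈ 𝓞 K` is nonzero and divisible by `∏_(w|v) w^N`, `N` large. -/
def Sh_VGP : Prop := ∀ (k K : Type) [Field k] [NumberField k] [Field K] [NumberField K]
  [Algebra k K] (n : ℕ) (σ : K ≃ₐ[k] K), Cyc n σ →
  ∀ (v : HeightOneSpectrum (𝓞 k)) (π : kˣ) (θ : K) (c : ℕ), NB n σ v π θ c →
  ∀ M : ℕ, c + 1 ≤ M → ∃ V U : Subgroup Kˣ, (∀ x, x ∈ V ↔ InVM n σ v π θ M x) ∧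
    (∀ x, x ∈ U ↔ ∀ w, Lies k K v w → ord w x = 0) ∧ V ≤ U ∧ Stb (su σ) V ∧ Stb (su σ) U ∧
    V.relIndex U ≠ 0

/-- (VST) one step of the approximation.

USES VGP. PROOF. `u = σ α/α = 1 + π'^M a`, `a ∈ Λ`. `∏_(i<n) σ^i u = 1`: expand modulo `π'^(M+1) Λ` (`π'^(2M) B ⊆ π'^(M+1) Λ` as `M ≥ c + 1`): `Tr a = Σ σ^i a ∈ π' Λ`. `a = Σ c_i σ^i θ` (`c_i ∈ R`): `Tr a = (Σ c_i) Σ σ^i θ`, so `Σ c_i ∈ π R` (NB.indep). Choose `b = Σ b_i σ^i θ`, `b_i ∈ R`, with
`σ b - b ≡ a` modulo `π' Λ`: `b_(i-1) - b_i ≡ c_i` (indices modulo `n`): `b_(n-1) = 0`, `b_0 = -c_0`, `b_i = b_(i-1) - c_i = -(c_0 + .. + c_i)`, and `b_(n-1) = -Σ c_i ≡ 0`. Let `x = 1 + π'^M b` (nonzero: `ord = 0` at `w | v`), `x ∈ V_M`, `α' = α / x`: `σ α'/α' = u x / σ x`, and `u x/σ x - 1 = (u x - σ x)/σ x`,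
`u x - σ x = π'^M (a + b - σ b) + π'^(2M) a b ∈ π'^(M+1) Λ`, and `1/σ x = 1 - π'^M (..)`, `(..) ∈ B`: the quotient is in `π'^(M+1) Λ + π'^(2M+1) B ⊆ π'^(M+1) Λ`. -/
def Sh_VST : Prop := ∀ (k K : Type) [Field k] [NumberField k] [Field K] [NumberField K]
  [Algebra k K] (n : ℕ) (σ : K ≃ₐ[k] K), Cyc n σ →
  ∀ (v : HeightOneSpectrum (𝓞 k)) (π : kˣ) (θ : K) (c : ℕ), NB n σ v π θ c →
  ∀ M : ℕ, c + 1 ≤ M → ∀ α : Kˣ, InVM n σ v π θ M (su σ α / α) →
    ∃ x : Kˣ, InVM n σ v π θ M x ∧ InVM n σ v π θ (M + 1) (su σ (α / x) / (α / x))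

/-- (STR) an element which is invariant modulo `V_M` is in `kˣ V_M`.

USES VST, VGP, ORG. PROOF. Iterate (VST) (`V_(M+1) ≤ V_M`): for every `N ≥ M` there is `x ∈ V_M` with `β = α/x`, `σ β/β ∈ V_N`. `σ β - β = β (σβ/β - 1) ∈ π'^N β Λ`. `β/α ∈ V_M` has order `0` at `w | v`, so with `d` such that `π'^d α`, `π'^d α⁻¹ ∈ B` also `π'^d β, π'^d β⁻¹ ∈ B`: `σ β - β ∈ π'^(N-d) B ⊆ π'^(N-d-c) Λ`. `β = Σ c_i σ^i θ` (NB.span):
`σ β - β = Σ (c_(i-1) - c_i) σ^i θ`, so `c_(i-1) - c_i ∈ π^(N-d-c) R` (indep), `β ≡ y' := c_0 Σ σ^i θ` modulo `π'^(N-d-c) Λ`; `y' ∈ K` is fixed by `σ`: `y' = algebraMap y` (ORN). `y'/β - 1 = (y' - β)/β ∈ π'^(N-d-c) β⁻¹ Λ ⊆ π'^(N-2d-c) B ⊆ π'^(N-2d-2c) Λ ⊆ π'^M Λ` for `N = M + 2d + 2c`; it has valuation `< 1`, so `y' ≠ 0`. So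
`y'/β ∈ V_M`, `α/y' = x β/y' ∈ V_M`. -/
def Sh_STR : Prop := ∀ (k K : Type) [Field k] [NumberField k] [Field K] [NumberField K]
  [Algebra k K] (n : ℕ) (σ : K ≃ₐ[k] K), Cyc n σ →
  ∀ (v : HeightOneSpectrum (𝓞 k)) (π : kˣ) (θ : K) (c : ℕ), NB n σ v π θ c →
  ∀ M : ℕ, c + 1 ≤ M → ∀ α : Kˣ, InVM n σ v π θ M (su σ α / α) →
    ∃ y : kˣ, InVM n σ v π θ M (α / iu k K y)

/-- (KMU) the Herbrand quotient of `Kˣ / U`, `U` the units at `v`.

USES ORG, ORD, ORN. PROOF. `X` = the `g = gpr` primes above `v`, `ν : Kˣ → ℤ^X`, surjective (ORD (4)), kernel `U`. `x` with `D x ∈ U`: `ord w (σ x) = ord w x`: the orders are constant on `X` (ORG). `NN x`: `ord w = (n/g) Σ_(w' ∈ X) ord w' x`. So `H0 ≅ ℤ / (n/g)`: `t0 * g = n`. `H1`: `NN x ∈ U` iff `Σ_X ord w x = 0` iff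
`ν(x) = π f - f` for some `f : X → ℤ` (a cycle: `f` the partial sums), iff `x ∈ D(Kˣ) U`. So `t1 = 1`. -/
def Sh_KMU : Prop := ∀ (k K : Type) [Field k] [NumberField k] [Field K] [NumberField K]
  [Algebra k K] (n : ℕ) (σ : K ≃ₐ[k] K), Cyc n σ →
  ∀ (v : HeightOneSpectrum (𝓞 k)) (U : Subgroup Kˣ),
  (∀ x, x ∈ U ↔ ∀ w, Lies k K v w → ord w x = 0) →
  t0 n (su σ) ⊤ U * gpr k K v = n ∧ t1 n (su σ) ⊤ U = 1

/-- (LOC) the local first inequality.

USES HQ, FIN, NBL, VGP, STR, KMU, ORN. PROOF. `M = c + 1`, `V`, `U` from (VGP). (HQ) for `V ≤ U ≤ ⊤`, with (FIN) for `U / V` and (KMU): `t0(⊤, V) = t1(⊤, V) t0(⊤, U)`, not `0`, so `t0(⊤, V) g ≥ n`. `W = {x ∈ kˣ : ∃ z, iu x / NN z ∈ V} = (V ⊔ range NN).comap iu`. By (STR) the map `kˣ → (⊤ ⊓ V.comap D)/(⊤.map N ⊔ V)`, `x ↦ iu x`, is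
surjective, with kernel `W`, so `W.index = t0(⊤, V)`. `nu z ∈ W` (ORN: `iu (nu z) = NN z`). Open: `x ∈ kˣ`, `v(x - 1) ≤ exp(-(M + c))`: `x - 1 = π^(M + c) y`, `y ∈ R ⊆ B`, `π'^c y ∈ Λ`, so `iu x ∈ V`. -/
def Sh_LOC : Prop := ∀ (k K : Type) [Field k] [NumberField k] [Field K] [NumberField K]
  [Algebra k K] (n : ℕ) (σ : K ≃ₐ[k] K), Cyc n σ → ∀ v : HeightOneSpectrum (𝓞 k),
  ∃ W : Subgroup kˣ, LocN n K v W

/-- (LOU) the unramified case: all units at `v` are allowed.

USES ORN, ORG, ORD. PROOF. `W = {x ∈ kˣ : n/g ∣ ord v x}`, of index `n/g` (`ord v` is onto `ℤ`). `ord v (nu z) ∈ (n/g) ℤ` (ORN). Open with `M = 1`. `n = (n/g) g`. -/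
def Sh_LOU : Prop := ∀ (k K : Type) [Field k] [NumberField k] [Field K] [NumberField K]
  [Algebra k K] (n : ℕ) (σ : K ≃ₐ[k] K), Cyc n σ → ∀ v : HeightOneSpectrum (𝓞 k),
  Unr k K v → ∃ W : Subgroup kˣ, LocN n K v W ∧ ∀ x : kˣ, ord v x = 0 → x ∈ W

/-! ## 5. The global part -/

/-- (IXW) the index of the intersection.

USES WAP. PROOF. `kˣ → ∏_(v ∈ S) kˣ / W v` has the kernel `⋂ W v` and is surjective: (WAP) with `M` the maximum of the numbers `opn`: `x ≡ y_v` modulo `W v`. `Subgroup.index_iInf..` or a direct count; induction on `S` is also possible (`[kˣ : A ∩ B] = [kˣ : A][kˣ : B]` if `A B = kˣ`). -/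
def Sh_IXW : Prop := ∀ (k K : Type) [Field k] [NumberField k] [Field K] [NumberField K]
  [Algebra k K] (n : ℕ) (S : Finset (HeightOneSpectrum (𝓞 k)))
  (W : HeightOneSpectrum (𝓞 k) → Subgroup kˣ), (∀ v ∈ S, LocN n K v (W v)) →
  (⨅ v ∈ S, W v).index = ∏ v ∈ S, (W v).index

/-- (NON) the first inequality.

USES IXW, SUN, ORG. PROOF. `W' = ⨅ W v`, `E_k = EU S`, `E = EU (abv S)`. `[kˣ : W'] = ∏ [kˣ : W v]` is not `0`. `[kˣ : W'] = [kˣ : W' E_k] [W' E_k : W']`, `[W' E_k : W'] = [E_k : E_k ⊓ W'] ≤ [E_k : N E]` (`N E ≤ W' ⊓ E_k`; `[E_k : N E] ≠ 0` by (SUN)). `[kˣ : W v] ≥ n/g_v` (`n = l^m ≤ index * g_v`, `g_v ∣ n`). So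
`[kˣ : W' E_k] [E_k : N E] ≥ ∏ (n/g_v) = [E_k : N E] n` (SUN). -/
def Sh_NON : Prop := ∀ (k K : Type) [Field k] [NumberField k] [Field K] [NumberField K]
  [Algebra k K] (l m : ℕ) (σ : K ≃ₐ[k] K), l.Prime → Cyc (l ^ m) σ → TC k →
  ∀ S : Finset (HeightOneSpectrum (𝓞 k)), (∀ v ∉ S, Unr k K v) →
  GenT (S : Set (HeightOneSpectrum (𝓞 k))) →
  ∀ W : HeightOneSpectrum (𝓞 k) → Subgroup kˣ, (∀ v ∈ S, LocN (l ^ m) K v (W v)) →
  ((⨅ v ∈ S, W v) ⊔ EU (S : Set (HeightOneSpectrum (𝓞 k)))).index ≠ 0 ∧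
  l ^ m ≤ ((⨅ v ∈ S, W v) ⊔ EU (S : Set (HeightOneSpectrum (𝓞 k)))).index

/-- (SEX) a finite set of primes which generates both class groups.

USES ORD, ORG. PROOF. The class group of `F` is finite; choose for every class a nonzero ideal in it and let `T` contain the prime factors of these ideals. Then `GenT T'` for all finite `T' ⊇ T`: for `w ∉ T'` the class of `w⁻¹` contains an ideal `J` with all prime factors in `T`, `w J = (x)`: `ord w x = 1`, `ord w' x = 0` for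
`w' ∉ T'`, `w' ≠ w`. (The order of `x ∈ 𝓞 F` at `w` is the multiplicity of `w` in `(x)`.) `S` = `S₀`, the set for `k`, and the primes of `k` below the set for `K`. -/
def Sh_SEX : Prop := ∀ (k K : Type) [Field k] [NumberField k] [Field K] [NumberField K]
  [Algebra k K] (S₀ : Finset (HeightOneSpectrum (𝓞 k))),
  ∃ S : Finset (HeightOneSpectrum (𝓞 k)), S₀ ⊆ S ∧ GenT (S : Set (HeightOneSpectrum (𝓞 k))) ∧
    GenT (abv k K (S : Set (HeightOneSpectrum (𝓞 k))))

/-- (PSI) the map from the ideals prime to `S` onto `kˣ / Wt`, for every subgroup `Wt` which contains the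
`S`-units and the norms.

USES ORD, ORN, ORG. PROOF. For a nonzero ideal `a` prime to `S` (not contained in a `v ∈ S`) let `a_v` be the multiplicity of `v` in `a` (`(Associates.mk v.asIdeal).count ..`, `emultiplicity`, or `FractionalIdeal.count`); `GenT S` gives `x_v ∈ kˣ`, `x_a = ∏_(v ∉ S) x_v^(a_v)`: `ord v x_a = a_v` for all `v ∉ S`. `ψ a` = the class of `x_a`
(it is the class of every `x` with `ord v x = a_v` for all `v ∉ S`, as two of them differ by an `S`-unit). (1) multiplicative. (2) `x ∈ 𝓞 k`, prime to `S`: `ψ (x) = [x]`. (3) surjective: `x ∈ kˣ`; let `h`, `w`: choose `N` with `N + ord v x ≥ 0` for all `v ∉ S` in the support; we need `y ∈ Wt` with `ord v (x y) ≥ 0` for all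
`v ∉ S`: `v^h = (t_v)`, `Wt` contains the norms, so the `n`-th powers `nu (iu t) = t^n`; `y = ∏ t_v^(n N)` over the `v ∉ S` with `ord v x < 0`. Then `a = ∏_(v ∉ S) v^(ord v (x y))`, `ψ a = [x y] = [x]`. (4) `v ∉ S`, `w | v` with the same norm: `GenT (abv S)`: `z ∈ Kˣ` with `ord w z = 1`, `ord w' z = 0` for the other `w' ∉ abv S`; by (ORN)
`ord v (nu z) = 1`, `ord v' (nu z) = 0` for `v' ∉ S`, `v' ≠ v`. So `ψ v = [nu z] = 1`. -/
def Sh_PSI : Prop := ∀ (k K : Type) [Field k] [NumberField k] [Field K] [NumberField K]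
  [Algebra k K] (n : ℕ) (σ : K ≃ₐ[k] K), n ≠ 0 → Cyc n σ →
  ∀ S : Finset (HeightOneSpectrum (𝓞 k)), GenT (S : Set (HeightOneSpectrum (𝓞 k))) →
  GenT (abv k K (S : Set (HeightOneSpectrum (𝓞 k)))) →
  ∀ Wt : Subgroup kˣ, EU (S : Set (HeightOneSpectrum (𝓞 k))) ≤ Wt → (∀ z : Kˣ, nu k K z ∈ Wt) →
  ∃ ψ : Ideal (𝓞 k) → kˣ ⧸ Wt,
    (∀ a b : Ideal (𝓞 k), a ≠ ⊥ → b ≠ ⊥ → (∀ v ∈ S, ¬ a ≤ v.asIdeal) →
      (∀ v ∈ S, ¬ b ≤ v.asIdeal) → ψ (a * b) = ψ a * ψ b) ∧
    (∀ (x : kˣ) (y : 𝓞 k), (y : k) = x → (∀ v ∈ S, y ∉ v.asIdeal) →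
      ψ (Ideal.span {y}) = QuotientGroup.mk x) ∧
    (∀ g : kˣ ⧸ Wt, ∃ a : Ideal (𝓞 k), a ≠ ⊥ ∧ (∀ v ∈ S, ¬ a ≤ v.asIdeal) ∧ ψ a = g) ∧
    ∀ v ∉ S, Deg1 k K v → ψ v.asIdeal = 1

/-- (JT1) the first inequality for cyclic extensions of prime power degree.

USES RMF, SEX, LOC, NON, PSI, ORD. PROOF. `S₀` from (RMF), `S` from (SEX), `W v` from (LOC), `Wt = (⨅ W v) ⊔ EU S`, of index `≥ l^m`, finite (NON). `A = kˣ ⧸ Wt`. `M v` from `opn`; `f = ∏_(v ∈ S) v^(M v + 1)`. Coprime to `f` means prime to `S`. `x, y ∈ 𝓞 k` nonzero, `x - y ∈ f`, `x` prime to `f`: then `y` is prime to `f`,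
`v(x/y - 1) = v(x - y) ≤ exp(-M v)`, so `x/y ∈ W v` for all `v ∈ S`. (`1 ≤ M v + 1` makes the support of `f` the set `S`.) -/
def Sh_JT1 : Prop := ∀ (k K : Type) [Field k] [NumberField k] [Field K] [NumberField K]
  [Algebra k K] (l m : ℕ) (σ : K ≃ₐ[k] K), l.Prime → Cyc (l ^ m) σ → TC k →
  ∃ (f : Ideal (𝓞 k)) (A : Type) (_ : CommGroup A) (_ : Finite A) (ψ : Ideal (𝓞 k) → A),
    f ≠ ⊥ ∧ l ^ m ≤ Nat.card A ∧
    (∀ a b : Ideal (𝓞 k), a ≠ ⊥ → b ≠ ⊥ → IsCoprime a f → IsCoprime b f →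
      ψ (a * b) = ψ a * ψ b) ∧
    (∀ x y : 𝓞 k, x ≠ 0 → y ≠ 0 → IsCoprime (Ideal.span {x}) f → x - y ∈ f →
      ψ (Ideal.span {x}) = ψ (Ideal.span {y})) ∧
    (∀ g : A, ∃ a : Ideal (𝓞 k), a ≠ ⊥ ∧ IsCoprime a f ∧ ψ a = g) ∧
    ∀ v : HeightOneSpectrum (𝓞 k), IsCoprime v.asIdeal f → Deg1 k K v → ψ v.asIdeal = 1

/-- (FIQ) the first inequality for unramified cyclic extensions of prime power degree.

USES SEX, LOU, NON, PSI, ORD. PROOF. `S` from (SEX) (`S₀ = ∅`), `W v` from (LOU), `Wt` as in (JT1): `x ∈ kˣ` with `ord v x = 0` for all `v ∈ S` is in `⨅ W v ≤ Wt`. Every class of `ClassGroup (𝓞 k)` contains an ideal `a` prime to `S` (Mathlib or (ORD (4)): multiply by an element with given orders at `S`). `Ψ [a] = ψ a` is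
well defined: `a, a'` prime to `S`, `x a = y a'`: choose `b` prime to `S` in the inverse class: `a b = (z)`, `a' b = (z')`, `z, z' ∈ 𝓞 k` prime to `S`, `ψ a ψ b = [z]`, `ψ a' ψ b = [z']`, `z/z'` has order `0` at `S`, so `[z] = [z']`. `Ψ` is a homomorphism of `ClassGroup (𝓞 k)` onto `kˣ ⧸ Wt`; `U` = its kernel, of index
`|kˣ ⧸ Wt| ≥ l^m`; for `v ∉ S` with `Deg1`: `Ψ [v] = ψ v = 1`. -/
def Sh_FIQ : Prop := ∀ (k K : Type) [Field k] [NumberField k] [Field K] [NumberField K]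
  [Algebra k K] (l m : ℕ) (σ : K ≃ₐ[k] K), l.Prime → Cyc (l ^ m) σ → TC k →
  (∀ v : HeightOneSpectrum (𝓞 k), Unr k K v) →
  ∃ (U : Subgroup (ClassGroup (𝓞 k))) (S : Finset (HeightOneSpectrum (𝓞 k))),
    l ^ m ≤ U.index ∧ ∀ v ∉ S, Deg1 k K v →
      ClassGroup.mk0 ⟨v.asIdeal, mem_nonZeroDivisors_of_ne_zero v.ne_bot⟩ ∈ U

end Pool.Agent.HB


end

section

/-!
# HB: module FIQ (helper7)

The first inequality for unramified cyclic extensions of degree a power of a prime.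
-/

set_option autoImplicit false

open NumberField IsDedekindDomain
open scoped nonZeroDivisors

namespace Pool.Agent.HB

section
variable {R : Type} [CommRing R] [IsDedekindDomain R]

/-- every ideal class contains an integral ideal prime to a finite set of primes -/
theorem fiq_cls (S : Finset (HeightOneSpectrum R)) (c : ClassGroup R) :
    ∃ (a : Ideal R) (ha : a ≠ ⊥), (∀ v ∈ S, ¬ a ≤ v.asIdeal) ∧
      ClassGroup.mk0 ⟨a, mem_nonZeroDivisors_of_ne_zero ha⟩ = c := by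
  classical
  obtain ⟨b, hb⟩ := ClassGroup.mk0_surjective c⁻¹
  have hb0 : (b : Ideal R) ≠ ⊥ := nonZeroDivisors.coe_ne_zero b
  rcases S.eq_empty_or_nonempty with rfl | hne
  · obtain ⟨a, ha⟩ := ClassGroup.mk0_surjective c
    exact ⟨a, nonZeroDivisors.coe_ne_zero a, by simp, ha⟩
  set P : Ideal R := ∏ v ∈ S, v.asIdeal with hP
  have hP0 : P ≠ 0 := Finset.prod_ne_zero_iff.mpr (fun v _ => v.ne_bot)
  have hPv : ∀ v ∈ S, P ≤ v.asIdeal := fun v hv =>
    Ideal.le_of_dvd (Finset.dvd_prod_of_mem (fun v : HeightOneSpectrum R => v.asIdeal) hv)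
  obtain ⟨x, hx⟩ := IsDedekindDomain.exists_sup_span_eq
    (I := (b : Ideal R) * P) (J := (b : Ideal R)) Ideal.mul_le_left (mul_ne_zero hb0 hP0)
  have hxb : (b : Ideal R) ∣ Ideal.span {x} := by
    rw [Ideal.dvd_iff_le]
    exact le_trans le_sup_right hx.le
  obtain ⟨a, ha⟩ := hxb
  have hcop : P ⊔ a = ⊤ := by
    have h1 : (b : Ideal R) * (P ⊔ a) = (b : Ideal R) * ⊤ := by
      rw [Ideal.mul_sup, ← ha, hx, Ideal.mul_top]
    exact mul_left_cancel₀ (show (b : Ideal R) ≠ 0 from hb0) h1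
  have hpr : ∀ v ∈ S, ¬ a ≤ v.asIdeal := by
    intro v hv hle
    exact v.isPrime.ne_top (top_le_iff.mp (hcop ▸ sup_le (hPv v hv) hle))
  have ha0 : a ≠ ⊥ := by
    rintro rfl
    obtain ⟨v, hv⟩ := hne
    exact hpr v hv bot_le
  refine ⟨a, ha0, hpr, ?_⟩
  have hx0 : x ≠ 0 := by
    rintro rfl
    rw [Ideal.span_singleton_eq_bot.mpr rfl] at ha
    exact mul_ne_zero (show (b : Ideal R) ≠ 0 from hb0) ha0 ha.symm
  have h1 : ClassGroup.mk0 (b * ⟨a, mem_nonZeroDivisors_of_ne_zero ha0⟩) = 1 := by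
    rw [ClassGroup.mk0_eq_one_iff]
    exact ⟨⟨x, by simpa using ha.symm⟩⟩
  rw [map_mul, hb] at h1
  exact (inv_mul_eq_one.mp h1).symm

end

theorem th_FIQ (hSEX : Sh_SEX) (hLOU : Sh_LOU) (hNON : Sh_NON) (hPSI : Sh_PSI)
    (hORD : Sh_ORD) : Sh_FIQ := by
  intro k K _ _ _ _ _ l m σ hl hσ hTC hU
  classical
  obtain ⟨S, -, hG, hGK⟩ := hSEX k K ∅
  choose W hW hWu using fun v => hLOU k K (l ^ m) σ hσ v (hU v)
  obtain ⟨hi, hle⟩ := hNON k K l m σ hl hσ hTC S (fun v _ => hU v) hG W (fun v _ => hW v)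
  set Wt : Subgroup kˣ := (⨅ v ∈ S, W v) ⊔ EU (S : Set (HeightOneSpectrum (𝓞 k))) with hWt
  obtain ⟨-, -, hord, -, -⟩ := hORD k
  have hin : ∀ x : kˣ, (∀ v ∈ S, ord v x = 0) → x ∈ Wt := by
    intro x hx
    refine Subgroup.mem_sup_left ?_
    simp only [Subgroup.mem_iInf]
    exact fun v hv => hWu v x (hx v hv)
  have hn : ∀ z : Kˣ, nu k K z ∈ Wt := by
    intro z
    refine Subgroup.mem_sup_left ?_
    simp only [Subgroup.mem_iInf]
    exact fun v _ => (hW v).nrm z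
  obtain ⟨ψ, h1, h2, h3, h4⟩ := hPSI k K (l ^ m) σ (pow_ne_zero _ hl.ne_zero) hσ S hG hGK Wt
    le_sup_right hn
  -- the value at a principal ideal
  have hprod : ∀ a b : Ideal (𝓞 k), (∀ v ∈ S, ¬ a ≤ v.asIdeal) → (∀ v ∈ S, ¬ b ≤ v.asIdeal) →
      ∀ v ∈ S, ¬ a * b ≤ v.asIdeal := by
    intro a b ha hb v hv h
    rcases (Ideal.IsPrime.mul_le v.isPrime).mp h with h' | h'
    · exact ha v hv h'
    · exact hb v hv h'
  have hgen : ∀ (a : Ideal (𝓞 k)) (ha : a ≠ ⊥),
      ClassGroup.mk0 ⟨a, mem_nonZeroDivisors_of_ne_zero ha⟩ = 1 → (∀ v ∈ S, ¬ a ≤ v.asIdeal) →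
      ψ a = 1 := by
    intro a ha hcl hS
    rw [ClassGroup.mk0_eq_one_iff] at hcl
    obtain ⟨y, hy⟩ := hcl.principal
    have hy' : a = Ideal.span {y} := hy
    subst hy'
    have hy0 : y ≠ 0 := by
      rintro rfl
      exact ha (by simp)
    have hyk : (y : k) ≠ 0 := by
      intro h
      exact hy0 (RingOfIntegers.coe_eq_zero_iff.mp h)
    have hyv : ∀ v ∈ S, y ∉ v.asIdeal := by
      intro v hv h
      exact hS v hv ((Ideal.span_singleton_le_iff_mem _).mpr h)
    rw [h2 (Units.mk0 (y : k) hyk) y rfl hyv]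
    rw [QuotientGroup.eq_one_iff]
    refine hin _ ?_
    intro v hv
    obtain ⟨g1, g2⟩ := hord (Units.mk0 (y : k) hyk) y rfl v
    by_contra hne
    exact hyv v hv (g2.mp (lt_of_le_of_ne g1 (Ne.symm hne)))
  have hwd : ∀ (a b : Ideal (𝓞 k)) (ha : a ≠ ⊥) (hb : b ≠ ⊥),
      ClassGroup.mk0 ⟨a, mem_nonZeroDivisors_of_ne_zero ha⟩ =
        ClassGroup.mk0 ⟨b, mem_nonZeroDivisors_of_ne_zero hb⟩ →
      (∀ v ∈ S, ¬ a ≤ v.asIdeal) → (∀ v ∈ S, ¬ b ≤ v.asIdeal) → ψ a = ψ b := by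
    intro a b ha hb hab hSa hSb
    obtain ⟨c, hc, hSc, hcc⟩ := fiq_cls S
      (ClassGroup.mk0 (R := 𝓞 k) ⟨a, mem_nonZeroDivisors_of_ne_zero ha⟩)⁻¹
    have hac : a * c ≠ ⊥ := mul_ne_zero (show a ≠ 0 from ha) hc
    have hbc : b * c ≠ ⊥ := mul_ne_zero (show b ≠ 0 from hb) hc
    have e1 : ψ (a * c) = 1 := by
      refine hgen _ hac ?_ (hprod a c hSa hSc)
      have : (⟨a * c, mem_nonZeroDivisors_of_ne_zero hac⟩ : (Ideal (𝓞 k))⁰) =
        ⟨a, mem_nonZeroDivisors_of_ne_zero ha⟩ * ⟨c, mem_nonZeroDivisors_of_ne_zero hc⟩ := rfl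
      rw [this, map_mul, hcc, mul_inv_cancel]
    have e2 : ψ (b * c) = 1 := by
      refine hgen _ hbc ?_ (hprod b c hSb hSc)
      have : (⟨b * c, mem_nonZeroDivisors_of_ne_zero hbc⟩ : (Ideal (𝓞 k))⁰) =
        ⟨b, mem_nonZeroDivisors_of_ne_zero hb⟩ * ⟨c, mem_nonZeroDivisors_of_ne_zero hc⟩ := rfl
      rw [this, map_mul, hcc, ← hab, mul_inv_cancel]
    rw [h1 a c ha hc hSa hSc] at e1
    rw [h1 b c hb hc hSb hSc] at e2
    exact (mul_eq_one_iff_eq_inv.mp e1).trans (mul_eq_one_iff_eq_inv.mp e2).symm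
  choose rep rep0 repS repc using fiq_cls (R := 𝓞 k) S
  have hval : ∀ (a : Ideal (𝓞 k)) (ha : a ≠ ⊥), (∀ v ∈ S, ¬ a ≤ v.asIdeal) →
      ψ (rep (ClassGroup.mk0 ⟨a, mem_nonZeroDivisors_of_ne_zero ha⟩)) = ψ a := by
    intro a ha hSa
    exact hwd _ _ (rep0 _) ha (repc _) (repS _) hSa
  let Ψ : ClassGroup (𝓞 k) →* kˣ ⧸ Wt := MonoidHom.mk' (fun c => ψ (rep c)) (by
    intro c d
    rw [← h1 _ _ (rep0 c) (rep0 d) (repS c) (repS d)]
    have hcd : rep c * rep d ≠ ⊥ := mul_ne_zero (show rep c ≠ 0 from rep0 c) (rep0 d)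
    refine hwd _ _ (rep0 _) hcd ?_ (repS _) (hprod _ _ (repS c) (repS d))
    have : (⟨rep c * rep d, mem_nonZeroDivisors_of_ne_zero hcd⟩ : (Ideal (𝓞 k))⁰) =
        ⟨rep c, mem_nonZeroDivisors_of_ne_zero (rep0 c)⟩ *
          ⟨rep d, mem_nonZeroDivisors_of_ne_zero (rep0 d)⟩ := rfl
    rw [this, map_mul, repc, repc, repc])
  have hsur : Function.Surjective Ψ := by
    intro g
    obtain ⟨a, ha, hSa, hag⟩ := h3 g
    exact ⟨ClassGroup.mk0 ⟨a, mem_nonZeroDivisors_of_ne_zero ha⟩, (hval a ha hSa).trans hag⟩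
  refine ⟨Ψ.ker, S, ?_, ?_⟩
  · rw [Subgroup.index_ker, MonoidHom.range_eq_top.mpr hsur]
    have : Nat.card (⊤ : Subgroup (kˣ ⧸ Wt)) = Nat.card (kˣ ⧸ Wt) :=
      Nat.card_congr (Subgroup.topEquiv.toEquiv)
    rw [this]
    exact hle
  · intro v hv hd
    rw [MonoidHom.mem_ker]
    have hSv : ∀ v' ∈ S, ¬ v.asIdeal ≤ v'.asIdeal := by
      intro v' hv' hle'
      have := v.isMaximal.eq_of_le v'.isPrime.ne_top hle'
      exact hv (HeightOneSpectrum.ext this ▸ hv')
    exact (hval v.asIdeal v.ne_bot hSv).trans (h4 v hv hd)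

end Pool.Agent.HB


end

section

/-!
# HB: (JT1) the first inequality for cyclic extensions of prime power degree (helper35)
-/

set_option autoImplicit false

open NumberField IsDedekindDomain
open scoped nonZeroDivisors

namespace Pool.Agent.HB

private theorem jt1_le_prod_HBH_JT1 {R : Type} [CommRing R] [IsDedekindDomain R]
    (S : Finset (HeightOneSpectrum R)) (M : HeightOneSpectrum R → ℕ) (v : HeightOneSpectrum R)
    (hv : v ∈ S) : (∏ w ∈ S, w.asIdeal ^ (M w + 1)) ≤ v.asIdeal ^ (M v + 1) :=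
  Ideal.le_of_dvd (Finset.dvd_prod_of_mem (fun w : HeightOneSpectrum R => w.asIdeal ^ (M w + 1)) hv)

private theorem jt1_prime_HBH_JT1 {R : Type} [CommRing R] [IsDedekindDomain R]
    (S : Finset (HeightOneSpectrum R)) (M : HeightOneSpectrum R → ℕ) (a : Ideal R)
    (h : IsCoprime a (∏ w ∈ S, w.asIdeal ^ (M w + 1))) : ∀ v ∈ S, ¬ a ≤ v.asIdeal := by
  intro v hv hle
  rw [Ideal.isCoprime_iff_sup_eq] at h
  have h2 : (∏ w ∈ S, w.asIdeal ^ (M w + 1)) ≤ v.asIdeal :=
    (jt1_le_prod_HBH_JT1 S M v hv).trans (Ideal.pow_le_self (Nat.succ_ne_zero _))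
  have h3 := sup_le hle h2
  rw [h] at h3
  exact v.isPrime.ne_top (top_le_iff.1 h3)

private theorem jt1_coprime_HBH_JT1 {R : Type} [CommRing R] [IsDedekindDomain R]
    (S : Finset (HeightOneSpectrum R)) (M : HeightOneSpectrum R → ℕ) (a : Ideal R)
    (h : ∀ v ∈ S, ¬ a ≤ v.asIdeal) : IsCoprime a (∏ w ∈ S, w.asIdeal ^ (M w + 1)) := by
  refine IsCoprime.prod_right fun v hv => IsCoprime.pow_right ?_
  rw [Ideal.isCoprime_iff_sup_eq]
  exact v.isMaximal.out.2 _ (right_lt_sup.2 (h v hv))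

private theorem jt1_cong_HBH_JT1 {k : Type} [Field k] [NumberField k] (v : HeightOneSpectrum (𝓞 k))
    (M : ℕ) (x y : 𝓞 k) (x' y' : kˣ) (hx : (x : k) = x') (hy : (y : k) = y')
    (hxy : x - y ∈ v.asIdeal ^ (M + 1)) (hyv : y ∉ v.asIdeal) :
    v.valuation k (((y'⁻¹ * x' : kˣ) : k) - 1) ≤ WithZero.exp (-(M : ℤ)) := by
  have h1 : ((y'⁻¹ * x' : kˣ) : k) - 1 = ((x - y : 𝓞 k) : k) * (y' : k)⁻¹ := by
    have e : ((x - y : 𝓞 k) : k) = (x : k) - (y : k) := map_sub (algebraMap (𝓞 k) k) x y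
    rw [Units.val_mul, Units.val_inv_eq_inv_val, e, hx, hy, sub_mul,
      mul_inv_cancel₀ y'.ne_zero, mul_comm]
  have h2 : v.valuation k (y' : k) = 1 := by
    rw [← hy]
    refine le_antisymm (v.valuation_le_one y) (not_lt.1 fun hlt => hyv ?_)
    exact (v.valuation_lt_one_iff_mem y).1 hlt
  have h3 : v.valuation k ((x - y : 𝓞 k) : k) ≤ WithZero.exp (-((M + 1 : ℕ) : ℤ)) := by
    have h4 := (v.intValuation_le_pow_iff_mem (x - y) (M + 1)).2 hxy
    have h5 : v.valuation k ((x - y : 𝓞 k) : k) = v.intValuation (x - y) :=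
      v.valuation_of_algebraMap (x - y)
    rw [h5]; exact h4
  rw [h1, map_mul, map_inv₀, h2, inv_one, mul_one]
  refine h3.trans ?_
  rw [WithZero.exp_le_exp]
  push_cast
  omega

theorem th_JT1 (hRMF : Sh_RMF) (hSEX : Sh_SEX) (hLOC : Sh_LOC) (hNON : Sh_NON) (hPSI : Sh_PSI) :
    Sh_JT1 := by
  intro k K _ _ _ _ _ l m σ hl hcyc htc
  obtain ⟨S₀, hS₀⟩ := hRMF k K
  obtain ⟨S, hSS, hG1, hG2⟩ := hSEX k K S₀
  choose W hW using fun v => hLOC k K (l ^ m) σ hcyc v
  have hU : ∀ v ∉ S, Unr k K v := fun v hv => hS₀ v fun h => hv (hSS h)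
  obtain ⟨hidx, hbig⟩ := hNON k K l m σ hl hcyc htc S hU hG1 W fun v _ => hW v
  obtain ⟨ψ, hm, hx, hs, hd⟩ := hPSI k K (l ^ m) σ (pow_ne_zero _ hl.ne_zero) hcyc S hG1 hG2
    ((⨅ v ∈ S, W v) ⊔ EU (S : Set (HeightOneSpectrum (𝓞 k)))) le_sup_right fun z =>
      (le_sup_left : (⨅ v ∈ S, W v) ≤ _) (by
        rw [Subgroup.mem_iInf]
        intro v
        rw [Subgroup.mem_iInf]
        intro _
        exact (hW v).nrm z)
  choose M hM using fun v => (hW v).opn
  have hfin : ((⨅ v ∈ S, W v) ⊔ EU (S : Set (HeightOneSpectrum (𝓞 k)))).FiniteIndex := ⟨hidx⟩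
  refine ⟨∏ v ∈ S, v.asIdeal ^ (M v + 1),
    kˣ ⧸ ((⨅ v ∈ S, W v) ⊔ EU (S : Set (HeightOneSpectrum (𝓞 k)))),
    inferInstance, inferInstance, ψ, ?_, hbig, ?_, ?_, ?_, ?_⟩
  · rw [← Ideal.zero_eq_bot, Finset.prod_ne_zero_iff]
    intro v _
    exact pow_ne_zero _ v.ne_bot
  · intro a b ha hb hca hcb
    exact hm a b ha hb (jt1_prime_HBH_JT1 S M a hca) (jt1_prime_HBH_JT1 S M b hcb)
  · intro x y hx0 hy0 hcx hxy
    have hxk : (x : k) ≠ 0 := by simpa using hx0
    have hyk : (y : k) ≠ 0 := by simpa using hy0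
    have hxv : ∀ v ∈ S, x ∉ v.asIdeal := fun v hv hmem =>
      jt1_prime_HBH_JT1 S M _ hcx v hv ((Ideal.span_singleton_le_iff_mem _).2 hmem)
    have hyv : ∀ v ∈ S, y ∉ v.asIdeal := by
      intro v hv hmem
      have h2 : x - y ∈ v.asIdeal :=
        ((jt1_le_prod_HBH_JT1 S M v hv).trans (Ideal.pow_le_self (Nat.succ_ne_zero _))) hxy
      have h3 := v.asIdeal.add_mem h2 hmem
      rw [sub_add_cancel] at h3
      exact hxv v hv h3
    rw [hx (Units.mk0 (x : k) hxk) x rfl hxv, hx (Units.mk0 (y : k) hyk) y rfl hyv]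
    symm
    rw [QuotientGroup.eq]
    refine (le_sup_left : (⨅ v ∈ S, W v) ≤ _) ?_
    rw [Subgroup.mem_iInf]
    intro v
    rw [Subgroup.mem_iInf]
    intro hv
    exact hM v _ (jt1_cong_HBH_JT1 v (M v) x y _ _ rfl rfl (jt1_le_prod_HBH_JT1 S M v hv hxy) (hyv v hv))
  · intro g
    obtain ⟨a, ha, hp, hg⟩ := hs g
    exact ⟨a, ha, jt1_coprime_HBH_JT1 S M a hp, hg⟩
  · intro v hcop hdeg
    exact hd v (fun hv => jt1_prime_HBH_JT1 S M _ hcop v hv le_rfl) hdeg

end Pool.Agent.HB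


end

section

/-!
# (PSI): the map from the ideals prime to `S` onto `kˣ / Wt` (helper76)
-/

set_option autoImplicit false

open NumberField IsDedekindDomain

namespace Pool.Agent.HB

namespace PSIx

section
variable {F : Type} [Field F] [NumberField F]

/-- the multiplicity of `v` in the ideal `a` -/
noncomputable def cnt (v : HeightOneSpectrum (𝓞 F)) (a : Ideal (𝓞 F)) : ℕ :=
  open scoped Classical in
  (Associates.mk v.asIdeal).count (Associates.mk a).factors

lemma cnt_mul (v : HeightOneSpectrum (𝓞 F)) (a b : Ideal (𝓞 F)) (ha : a ≠ ⊥) (hb : b ≠ ⊥) :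
    cnt v (a * b) = cnt v a + cnt v b := by
  classical
  unfold cnt
  rw [← Associates.mk_mul_mk]
  exact Associates.count_mul (Associates.mk_ne_zero.2 ha) (Associates.mk_ne_zero.2 hb)
    v.associates_irreducible

lemma cnt_zero_iff (v : HeightOneSpectrum (𝓞 F)) (a : Ideal (𝓞 F)) (ha : a ≠ ⊥) :
    cnt v a = 0 ↔ ¬ a ≤ v.asIdeal := by
  classical
  have h := Associates.count_ne_zero_iff_dvd (a := a) (p := v.asIdeal) ha v.irreducible
  rw [Ideal.dvd_iff_le] at h
  unfold cnt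
  rw [← h, not_not]

lemma cnt_self (v : HeightOneSpectrum (𝓞 F)) : cnt v v.asIdeal = 1 := by
  classical
  exact Associates.count_self v.associates_irreducible

lemma cnt_other (v w : HeightOneSpectrum (𝓞 F)) (h : v ≠ w) : cnt v w.asIdeal = 0 := by
  classical
  refine Associates.count_eq_zero_of_ne v.associates_irreducible w.associates_irreducible ?_
  intro h1
  apply h
  apply HeightOneSpectrum.ext
  exact associated_iff_eq.1 (Associates.mk_eq_mk_iff_associated.1 h1)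

lemma cnt_top (v : HeightOneSpectrum (𝓞 F)) : cnt v (⊤ : Ideal (𝓞 F)) = 0 := by
  rw [cnt_zero_iff v ⊤ (by simp)]
  intro h
  exact v.isPrime.ne_top (top_le_iff.1 h)

lemma cnt_span (v : HeightOneSpectrum (𝓞 F)) (x : Fˣ) (y : 𝓞 F) (h : (y : F) = x) :
    ord v x = cnt v (Ideal.span {y}) := by
  classical
  have hy : y ≠ 0 := by
    rintro rfl
    exact x.ne_zero (by rw [← h]; simp)
  unfold ord cnt
  have e : v.valuation F (x : F) = v.intValuation y := by
    rw [← h]; exact v.valuation_of_algebraMap y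
  rw [e, v.intValuation_if_neg hy, WithZero.log_exp, neg_neg]

lemma cnt_fin (a : Ideal (𝓞 F)) (ha : a ≠ ⊥) :
    {v : HeightOneSpectrum (𝓞 F) | cnt v a ≠ 0}.Finite := by
  classical
  have h := Associates.finite_factors (I := a) ha
  rw [Filter.eventually_cofinite] at h
  refine h.subset ?_
  intro v hv
  have hv' : cnt v a ≠ 0 := hv
  show ¬ (((Associates.mk v.asIdeal).count (Associates.mk a).factors : ℕ) : ℤ) = 0
  exact_mod_cast hv'

/-- `ord` as a homomorphism -/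
noncomputable def ordH (w : HeightOneSpectrum (𝓞 F)) : Fˣ →* Multiplicative ℤ where
  toFun x := Multiplicative.ofAdd (ord w x)
  map_one' := by rw [ord_one]; rfl
  map_mul' x y := by rw [ord_mul]; rfl

lemma ord_zpow (w : HeightOneSpectrum (𝓞 F)) (x : Fˣ) (n : ℤ) : ord w (x ^ n) = n * ord w x := by
  have h := map_zpow (ordH w) x n
  have h2 := congrArg Multiplicative.toAdd h
  rw [toAdd_zpow] at h2
  simpa [ordH] using h2

lemma ord_pow (w : HeightOneSpectrum (𝓞 F)) (x : Fˣ) (n : ℕ) : ord w (x ^ n) = n * ord w x := by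
  have := ord_zpow w x n
  rwa [zpow_natCast] at this

/-- elements with prescribed orders outside `S` -/
lemma ex_ord (S : Finset (HeightOneSpectrum (𝓞 F)))
    (hS : GenT (S : Set (HeightOneSpectrum (𝓞 F)))) (c : HeightOneSpectrum (𝓞 F) → ℤ)
    (T : Finset (HeightOneSpectrum (𝓞 F))) :
    ∃ x : Fˣ, ∀ v ∉ S, (v ∈ T → ord v x = c v) ∧ (v ∉ T → ord v x = 0) := by
  classical
  induction T using Finset.induction_on with
  | empty => exact ⟨1, fun v _ => ⟨fun h => absurd h (Finset.notMem_empty _), fun _ => ord_one v⟩⟩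
  | insert w T hw ih =>
    obtain ⟨x, hx⟩ := ih
    by_cases hwS : w ∈ S
    · refine ⟨x, fun v hv => ⟨fun h => ?_, fun h => ?_⟩⟩
      · rcases Finset.mem_insert.1 h with rfl | h
        · exact absurd hwS hv
        · exact (hx v hv).1 h
      · exact (hx v hv).2 fun h' => h (Finset.mem_insert_of_mem h')
    · obtain ⟨y, hy1, hy2⟩ := hS w (by simpa using hwS)
      refine ⟨x * y ^ (c w), fun v hv => ⟨fun h => ?_, fun h => ?_⟩⟩
      · rcases Finset.mem_insert.1 h with rfl | h1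
        · rw [ord_mul, ord_zpow, hy1, (hx v hv).2 hw]
          ring
        · have hne : v ≠ w := fun h2 => hw (h2 ▸ h1)
          rw [ord_mul, ord_zpow, hy2 v (by simpa using hv) hne, (hx v hv).1 h1]
          ring
      · have hne : v ≠ w := by rintro rfl; exact h (Finset.mem_insert_self _ _)
        rw [ord_mul, ord_zpow, hy2 v (by simpa using hv) hne,
          (hx v hv).2 fun h' => h (Finset.mem_insert_of_mem h')]
        ring

/-- ideals with prescribed multiplicities -/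
lemma ex_ideal (e : HeightOneSpectrum (𝓞 F) → ℕ) (T : Finset (HeightOneSpectrum (𝓞 F))) :
    ∃ a : Ideal (𝓞 F), a ≠ ⊥ ∧ ∀ v, (v ∈ T → cnt v a = e v) ∧ (v ∉ T → cnt v a = 0) := by
  classical
  induction T using Finset.induction_on with
  | empty =>
    exact ⟨⊤, by simp, fun v => ⟨fun h => absurd h (Finset.notMem_empty _), fun _ => cnt_top v⟩⟩
  | insert w T hw ih =>
    obtain ⟨a, ha, hx⟩ := ih
    have hpow : ∀ n : ℕ, w.asIdeal ^ n ≠ ⊥ ∧ cnt w (w.asIdeal ^ n) = n ∧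
        ∀ v, v ≠ w → cnt v (w.asIdeal ^ n) = 0 := by
      intro n
      induction n with
      | zero =>
        refine ⟨by simp, ?_, fun v _ => ?_⟩
        · rw [pow_zero, Ideal.one_eq_top, cnt_top]
        · rw [pow_zero, Ideal.one_eq_top, cnt_top]
      | succ n ihn =>
        obtain ⟨i1, i2, i3⟩ := ihn
        refine ⟨?_, ?_, fun v hv => ?_⟩
        · rw [pow_succ]
          exact mul_ne_zero i1 w.ne_bot
        · rw [pow_succ, cnt_mul w _ _ i1 w.ne_bot, i2, cnt_self]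
        · rw [pow_succ, cnt_mul v _ _ i1 w.ne_bot, i3 v hv, cnt_other v w hv]
    obtain ⟨p1, p2, p3⟩ := hpow (e w)
    refine ⟨a * w.asIdeal ^ (e w), mul_ne_zero ha p1, fun v => ⟨fun h => ?_, fun h => ?_⟩⟩
    · rcases Finset.mem_insert.1 h with rfl | h1
      · rw [cnt_mul v _ _ ha p1, (hx v).2 hw, p2, zero_add]
      · have hne : v ≠ w := fun h2 => hw (h2 ▸ h1)
        rw [cnt_mul v _ _ ha p1, (hx v).1 h1, p3 v hne, add_zero]
    · have hne : v ≠ w := by rintro rfl; exact h (Finset.mem_insert_self _ _)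
      rw [cnt_mul v _ _ ha p1, p3 v hne, (hx v).2 fun h' => h (Finset.mem_insert_of_mem h')]

open Classical in
/-- the map `ψ` -/
noncomputable def psi (S : Finset (HeightOneSpectrum (𝓞 F))) (Wt : Subgroup Fˣ)
    (a : Ideal (𝓞 F)) : Fˣ ⧸ Wt :=
  if h : ∃ x : Fˣ, ∀ v ∉ S, ord v x = cnt v a then QuotientGroup.mk h.choose else 1

lemma psi_eq (S : Finset (HeightOneSpectrum (𝓞 F))) (Wt : Subgroup Fˣ)
    (hW : EU (S : Set (HeightOneSpectrum (𝓞 F))) ≤ Wt) (a : Ideal (𝓞 F)) (x : Fˣ)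
    (hx : ∀ v ∉ S, ord v x = cnt v a) : psi S Wt a = QuotientGroup.mk x := by
  have h : ∃ x : Fˣ, ∀ v ∉ S, ord v x = cnt v a := ⟨x, hx⟩
  unfold psi
  rw [dif_pos h, QuotientGroup.eq]
  apply hW
  intro v hv
  have hv' : v ∉ S := by simpa using hv
  rw [ord_mul, ord_inv, hx v hv', h.choose_spec v hv']
  ring

lemma psi_ex (S : Finset (HeightOneSpectrum (𝓞 F)))
    (hS : GenT (S : Set (HeightOneSpectrum (𝓞 F)))) (a : Ideal (𝓞 F)) (ha : a ≠ ⊥) :
    ∃ x : Fˣ, ∀ v ∉ S, ord v x = cnt v a := by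
  obtain ⟨x, hx⟩ := ex_ord S hS (fun v => (cnt v a : ℤ)) (cnt_fin a ha).toFinset
  refine ⟨x, fun v hv => ?_⟩
  by_cases h : v ∈ (cnt_fin a ha).toFinset
  · exact (hx v hv).1 h
  · rw [(hx v hv).2 h]
    have h' : cnt v a = 0 := by
      by_contra hc
      exact h ((cnt_fin a ha).mem_toFinset.2 hc)
    rw [h']
    rfl

end

end PSIx

open _root_.Pool.Agent.HB.PSIx in
theorem th_PSI (hORD : Sh_ORD) (hORN : Sh_ORN) : Sh_PSI := by
  intro k K _ _ _ _ _ n σ hn hσ S hS hT Wt hE hN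
  classical
  obtain ⟨-, -, -, -, -, n6, n7, -⟩ := hORN k K n σ hσ
  refine ⟨psi S Wt, ?_, ?_, ?_, ?_⟩
  · intro a b ha hb _ _
    obtain ⟨x, hx⟩ := psi_ex S hS a ha
    obtain ⟨y, hy⟩ := psi_ex S hS b hb
    rw [psi_eq S Wt hE a x hx, psi_eq S Wt hE b y hy, psi_eq S Wt hE (a * b) (x * y)]
    · rfl
    · intro v hv
      rw [ord_mul, hx v hv, hy v hv, cnt_mul v a b ha hb]
      push_cast
      ring
  · intro x y hxy _
    exact psi_eq S Wt hE _ x fun v _ => cnt_span v x y hxy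
  · intro g
    obtain ⟨x, rfl⟩ := QuotientGroup.mk_surjective g
    have hfin : {w : HeightOneSpectrum (𝓞 k) | ord w x ≠ 0}.Finite := (hORD k).1 x
    -- make all orders outside `S` nonnegative with `n`-th powers
    obtain ⟨t, ht⟩ := ex_ord S hS (fun v => ((-ord v x).toNat : ℤ)) hfin.toFinset
    have htn : t ^ n ∈ Wt := by
      have h := hN (iu k K t)
      have e : nu k K (iu k K t) = t ^ n := by
        apply Units.ext
        show Algebra.norm k (algebraMap k K (t : k)) = _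
        rw [Algebra.norm_algebraMap, hσ.deg]
        simp
      rwa [e] at h
    have hy : ∀ v ∉ S, 0 ≤ ord v (x * t ^ n) := by
      intro v hv
      rw [ord_mul, ord_pow]
      by_cases h : v ∈ hfin.toFinset
      · rw [(ht v hv).1 h]
        have h1 : (1 : ℤ) ≤ n := by
          have := Nat.pos_of_ne_zero hn
          exact_mod_cast this
        have h2 : (0 : ℤ) ≤ ((-ord v x).toNat : ℤ) := Int.natCast_nonneg _
        have h3 : -ord v x ≤ ((-ord v x).toNat : ℤ) := Int.self_le_toNat _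
        nlinarith
      · rw [(ht v hv).2 h]
        have h' : ord v x = 0 := by
          by_contra hc
          exact h (hfin.mem_toFinset.2 hc)
        rw [h']
        simp
    have hfin2 : {w : HeightOneSpectrum (𝓞 k) | ord w (x * t ^ n) ≠ 0}.Finite :=
      (hORD k).1 (x * t ^ n)
    obtain ⟨a, ha, hc⟩ := ex_ideal (fun v => (ord v (x * t ^ n)).toNat) (hfin2.toFinset \ S)
    refine ⟨a, ha, fun v hv => ?_, ?_⟩
    · rw [← cnt_zero_iff v a ha]
      exact (hc v).2 fun h => (Finset.mem_sdiff.1 h).2 hv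
    · rw [psi_eq S Wt hE a (x * t ^ n)]
      · rw [QuotientGroup.eq]
        have e : (x * t ^ n)⁻¹ * x = (t ^ n)⁻¹ := by
          rw [mul_inv, mul_assoc, mul_comm _ x, ← mul_assoc, inv_mul_cancel, one_mul]
        rw [e]
        exact Wt.inv_mem htn
      · intro v hv
        by_cases h : v ∈ hfin2.toFinset
        · rw [(hc v).1 (Finset.mem_sdiff.2 ⟨h, hv⟩), Int.toNat_of_nonneg (hy v hv)]
        · rw [(hc v).2 fun h' => h (Finset.mem_sdiff.1 h').1]
          by_contra hcc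
          exact h (hfin2.mem_toFinset.2 (by simpa using hcc))
  · intro v hv hD
    obtain ⟨w, hw, hwn⟩ := hD
    have huniq : ∀ v' : HeightOneSpectrum (𝓞 k), ∀ w' : HeightOneSpectrum (𝓞 K),
        Lies k K v w' → Lies k K v' w' → v' = v := by
      intro v' w' h1 h2
      apply HeightOneSpectrum.ext
      unfold Lies at h1 h2
      rw [← h1, ← h2]
    have habv : ∀ v' ∉ S, ∀ w' : HeightOneSpectrum (𝓞 K), Lies k K v' w' →
        w' ∉ abv k K (S : Set (HeightOneSpectrum (𝓞 k))) := by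
      rintro v' hv' w' h1 ⟨v'', h2, h3⟩
      have e : v'' = v' := by
        apply HeightOneSpectrum.ext
        unfold Lies at h1 h3
        rw [← h1, ← h3]
      rw [e] at h2
      exact hv' (by simpa using h2)
    obtain ⟨z, hz1, hz2⟩ := hT w (habv v hv w hw)
    rw [psi_eq S Wt hE v.asIdeal (nu k K z)]
    · rw [QuotientGroup.eq_one_iff]
      exact hN z
    · intro v' hv'
      by_cases hvv : v' = v
      · subst hvv
        rw [n7 v' w z hw hwn hz1 fun w' h1 h2 => hz2 w' (habv v' hv' w' h1) h2, cnt_self]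
        rfl
      · rw [n6 v' z fun w' h1 => hz2 w' (habv v' hv' w' h1) ?_, cnt_other v' v hvv]
        · rfl
        · rintro rfl
          exact hvv (huniq v' w' hw h1)

end Pool.Agent.HB


end

section

/-!
# (SEX): a finite set of primes which generates both class groups (helper15)
-/

set_option autoImplicit false

open NumberField IsDedekindDomain
open scoped nonZeroDivisors

namespace Pool.Agent.HB

namespace SEXx

variable {F : Type} [Field F] [NumberField F]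

lemma ord_of_dvd (w : HeightOneSpectrum (𝓞 F)) (y : 𝓞 F) (x : Fˣ) (hx : (y : F) = x) (n : ℕ) :
    w.asIdeal ^ n ∣ Ideal.span {y} ↔ (n : ℤ) ≤ ord w x := by
  rw [← w.intValuation_le_pow_iff_dvd]
  have e : w.intValuation y = w.valuation F (x : F) := by
    rw [← hx]
    exact (w.valuation_of_algebraMap y).symm
  rw [e, ord_val, WithZero.exp_le_exp]
  omega

lemma ord_eq_one (w : HeightOneSpectrum (𝓞 F)) (y : 𝓞 F) (x : Fˣ) (hx : (y : F) = x)
    (J : Ideal (𝓞 F)) (hJ : ¬ w.asIdeal ∣ J) (h : Ideal.span {y} = w.asIdeal * J) :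
    ord w x = 1 := by
  have h1 := (ord_of_dvd w y x hx 1).1 (by rw [pow_one, h]; exact dvd_mul_right _ _)
  have h2 : ¬ ((2 : ℕ) : ℤ) ≤ ord w x := by
    rw [← ord_of_dvd w y x hx 2, h, pow_two]
    intro h3
    exact hJ ((mul_dvd_mul_iff_left w.ne_bot).1 h3)
  push_cast at h1 h2
  omega

lemma ord_eq_zero (w w' : HeightOneSpectrum (𝓞 F)) (y : 𝓞 F) (x : Fˣ) (hx : (y : F) = x)
    (J : Ideal (𝓞 F)) (hJ : ¬ w'.asIdeal ∣ J) (h : Ideal.span {y} = w.asIdeal * J)
    (hw : w' ≠ w) : ord w' x = 0 := by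
  have h0 := (ord_of_dvd w' y x hx 0).1 (by rw [pow_zero]; exact one_dvd _)
  have h1 : ¬ ((1 : ℕ) : ℤ) ≤ ord w' x := by
    rw [← ord_of_dvd w' y x hx 1, h, pow_one]
    intro h3
    have hp : Prime w'.asIdeal := w'.prime
    rcases hp.dvd_or_dvd h3 with h4 | h4
    · apply hw
      apply HeightOneSpectrum.ext
      have hle : w.asIdeal ≤ w'.asIdeal := Ideal.le_of_dvd h4
      have hmax : w.asIdeal.IsMaximal := w.isMaximal
      exact (hmax.eq_of_le w'.isPrime.ne_top hle).symm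
    · exact hJ h4
  push_cast at h0 h1
  omega

lemma exists_T (F : Type) [Field F] [NumberField F] :
    ∃ T : Finset (HeightOneSpectrum (𝓞 F)), ∀ T' : Set (HeightOneSpectrum (𝓞 F)),
      (T : Set (HeightOneSpectrum (𝓞 F))) ⊆ T' → GenT T' := by
  classical
  choose J hJ using (ClassGroup.mk0_surjective (R := 𝓞 F))
  have hfin : ∀ c : ClassGroup (𝓞 F),
      {w : HeightOneSpectrum (𝓞 F) | w.asIdeal ∣ (J c : Ideal (𝓞 F))}.Finite := by
    intro c
    exact Ideal.finite_factors (mem_nonZeroDivisors_iff_ne_zero.1 (J c).2)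
  refine ⟨Finset.univ.biUnion fun c => (hfin c).toFinset, ?_⟩
  intro T' hT' w hw
  have hw0 : w.asIdeal ∈ (Ideal (𝓞 F))⁰ := mem_nonZeroDivisors_iff_ne_zero.2 w.ne_bot
  set c := (ClassGroup.mk0 ⟨w.asIdeal, hw0⟩)⁻¹ with hc
  have hmem : w.asIdeal * (J c : Ideal (𝓞 F)) ∈ (Ideal (𝓞 F))⁰ := mul_mem hw0 (J c).2
  have hprin : (w.asIdeal * (J c : Ideal (𝓞 F))).IsPrincipal := by
    have h0 : (⟨w.asIdeal * (J c : Ideal (𝓞 F)), hmem⟩ : (Ideal (𝓞 F))⁰) =
        ⟨w.asIdeal, hw0⟩ * J c := Subtype.ext rfl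
    have h1 : ClassGroup.mk0 (⟨w.asIdeal * (J c : Ideal (𝓞 F)), hmem⟩ : (Ideal (𝓞 F))⁰) = 1 := by
      rw [h0, map_mul, hJ c, hc, mul_inv_cancel]
    exact (ClassGroup.mk0_eq_one_iff hmem).1 h1
  obtain ⟨y, hy⟩ := hprin
  have hy' : Ideal.span {y} = w.asIdeal * (J c : Ideal (𝓞 F)) := hy.symm
  have hy0 : y ≠ 0 := by
    rintro rfl
    have h0 : w.asIdeal * (J c : Ideal (𝓞 F)) = 0 := by
      rw [← hy', Ideal.span_singleton_eq_bot.2 rfl]; rfl
    rcases mul_eq_zero.1 h0 with h | h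
    · exact w.ne_bot h
    · exact (mem_nonZeroDivisors_iff_ne_zero.1 (J c).2) h
  have hy1 : (y : F) ≠ 0 := by exact_mod_cast hy0
  have hJT : ∀ w' ∉ T', ¬ w'.asIdeal ∣ (J c : Ideal (𝓞 F)) := by
    intro w' hw' hd
    apply hw'
    apply hT'
    rw [Finset.mem_coe, Finset.mem_biUnion]
    exact ⟨c, Finset.mem_univ _, (hfin c).mem_toFinset.2 hd⟩
  refine ⟨Units.mk0 (y : F) hy1, ord_eq_one w y _ rfl _ (hJT w hw) hy', ?_⟩
  intro w' hw' hne
  exact ord_eq_zero w w' y _ rfl _ (hJT w' hw') hy' hne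

end SEXx

theorem th_SEX : Sh_SEX := by
  classical
  intro k K _ _ _ _ _ S₀
  obtain ⟨T, hT⟩ := SEXx.exists_T k
  obtain ⟨T', hT'⟩ := SEXx.exists_T K
  refine ⟨S₀ ∪ T ∪ T'.image (fun w => HeightOneSpectrum.under (𝓞 k) w), ?_, ?_, ?_⟩
  · intro v hv
    simp [hv]
  · apply hT
    intro v hv
    simp only [Finset.coe_union, Set.mem_union]
    exact Or.inl (Or.inr hv)
  · apply hT'
    intro w hw
    refine ⟨HeightOneSpectrum.under (𝓞 k) w, ?_, rfl⟩
    rw [Finset.mem_coe, Finset.mem_union, Finset.mem_image]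
    exact Or.inr ⟨w, hw, rfl⟩

end Pool.Agent.HB


end

section

/-!
# (ORD): elementary facts on orders at primes (helper41)
-/

set_option autoImplicit false

open NumberField IsDedekindDomain

namespace Pool.Agent.HB

namespace ORDx

variable {F : Type} [Field F] [NumberField F]

lemma ord_nonneg_iff (w : HeightOneSpectrum (𝓞 F)) (x : Fˣ) :
    0 ≤ ord w x ↔ w.valuation F (x : F) ≤ 1 := by
  rw [ord_val, ← WithZero.exp_zero, WithZero.exp_le_exp]
  omega

lemma ord_pos_iff (w : HeightOneSpectrum (𝓞 F)) (x : Fˣ) :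
    0 < ord w x ↔ w.valuation F (x : F) < 1 := by
  rw [ord_val, ← WithZero.exp_zero, WithZero.exp_lt_exp]
  omega

lemma ord_zero_iff (w : HeightOneSpectrum (𝓞 F)) (x : Fˣ) :
    ord w x = 0 ↔ w.valuation F (x : F) = 1 := by
  rw [ord_val, ← WithZero.exp_zero, WithZero.exp_inj]
  omega

lemma fin_supp (x : Fˣ) : {w : HeightOneSpectrum (𝓞 F) | ord w x ≠ 0}.Finite := by
  have h1 := HeightOneSpectrum.Support.finite (𝓞 F) (x : F)
  have h2 := HeightOneSpectrum.Support.finite (𝓞 F) ((x⁻¹ : Fˣ) : F)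
  refine (h1.union h2).subset ?_
  intro w hw
  have hw' : ord w x ≠ 0 := hw
  rcases lt_or_gt_of_ne hw' with h | h
  · left
    change 1 < w.valuation F (x : F)
    rw [ord_val, ← WithZero.exp_zero, WithZero.exp_lt_exp]
    omega
  · right
    change 1 < w.valuation F ((x⁻¹ : Fˣ) : F)
    rw [ord_val, ord_inv, ← WithZero.exp_zero, WithZero.exp_lt_exp]
    omega

lemma int_iff (x : Fˣ) :
    (∀ w : HeightOneSpectrum (𝓞 F), 0 ≤ ord w x) ↔ ∃ y : 𝓞 F, (y : F) = x := by
  constructor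
  · intro h
    have := HeightOneSpectrum.mem_integers_of_valuation_le_one (R := 𝓞 F) F (x : F)
      (fun v => (ord_nonneg_iff v x).1 (h v))
    obtain ⟨y, hy⟩ := this
    exact ⟨y, hy⟩
  · rintro ⟨y, hy⟩ w
    rw [ord_nonneg_iff, ← hy]
    exact w.valuation_le_one y

lemma crt_int (T : Finset (HeightOneSpectrum (𝓞 F))) (a : HeightOneSpectrum (𝓞 F) → ℕ) :
    ∃ y : 𝓞 F, y ≠ 0 ∧ ∀ w ∈ T, w.intValuation y = WithZero.exp (-(a w : ℤ)) := by
  classical
  rcases T.eq_empty_or_nonempty with rfl | hT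
  · exact ⟨1, one_ne_zero, by simp⟩
  choose p hp using fun w : HeightOneSpectrum (𝓞 F) => w.intValuation_exists_uniformizer
  obtain ⟨y, hy⟩ := IsDedekindDomain.exists_forall_sub_mem_ideal (s := T)
    (fun w : HeightOneSpectrum (𝓞 F) => w.asIdeal) (fun w => a w + 1)
    (fun w _ => w.prime)
    (fun i _ j _ hij h => hij (HeightOneSpectrum.ext h))
    (fun w => p w ^ a w)
  have key : ∀ w ∈ T, w.intValuation y = WithZero.exp (-(a w : ℤ)) := by
    intro w hw
    have h1 := hy w hw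
    have h2 : w.intValuation (y - p w ^ a w) ≤ WithZero.exp (-((a w + 1 : ℕ) : ℤ)) :=
      (w.intValuation_le_pow_iff_mem _ _).2 h1
    have h3 : w.intValuation (p w ^ a w) = WithZero.exp (-(a w : ℤ)) := by
      rw [map_pow, hp w, ← WithZero.exp_nsmul]
      congr 1
      simp
    have h4 : w.intValuation (y - p w ^ a w) < w.intValuation (p w ^ a w) := by
      rw [h3]
      refine lt_of_le_of_lt h2 ?_
      rw [WithZero.exp_lt_exp]
      push_cast
      omega
    have h5 := Valuation.map_add_eq_of_lt_left w.intValuation h4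
    rw [add_sub_cancel] at h5
    rw [h5, h3]
  refine ⟨y, ?_, key⟩
  rintro rfl
  obtain ⟨w, hw⟩ := hT
  have := key w hw
  rw [map_zero] at this
  exact WithZero.exp_ne_zero this.symm

lemma crt (T : Finset (HeightOneSpectrum (𝓞 F))) (c : HeightOneSpectrum (𝓞 F) → ℤ) :
    ∃ x : Fˣ, ∀ w ∈ T, ord w x = c w := by
  obtain ⟨y, hy0, hy⟩ := crt_int T (fun w => (c w).toNat)
  obtain ⟨z, hz0, hz⟩ := crt_int T (fun w => (-c w).toNat)
  have hy1 : (y : F) ≠ 0 := by exact_mod_cast hy0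
  have hz1 : (z : F) ≠ 0 := by exact_mod_cast hz0
  refine ⟨Units.mk0 (y : F) hy1 * (Units.mk0 (z : F) hz1)⁻¹, ?_⟩
  intro w hw
  have e1 : ord w (Units.mk0 (y : F) hy1) = ((c w).toNat : ℤ) := by
    unfold ord
    rw [Units.val_mk0]
    have : w.valuation F (y : F) = w.intValuation y := w.valuation_of_algebraMap y
    rw [this, hy w hw, WithZero.log_exp]
    ring
  have e2 : ord w (Units.mk0 (z : F) hz1) = ((-c w).toNat : ℤ) := by
    unfold ord
    rw [Units.val_mk0]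
    have : w.valuation F (z : F) = w.intValuation z := w.valuation_of_algebraMap z
    rw [this, hz w hw, WithZero.log_exp]
    ring
  rw [ord_mul, ord_inv, e1, e2]
  omega

lemma near_one (w : HeightOneSpectrum (𝓞 F)) (x : Fˣ) (M : ℕ) (hM : 1 ≤ M)
    (h : w.valuation F ((x : F) - 1) ≤ WithZero.exp (-(M : ℤ))) : ord w x = 0 := by
  rw [ord_zero_iff]
  have h1 : w.valuation F ((x : F) - 1) < w.valuation F (1 : F) := by
    rw [map_one, ← WithZero.exp_zero]
    refine lt_of_le_of_lt h ?_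
    rw [WithZero.exp_lt_exp]
    omega
  have h5 := Valuation.map_add_eq_of_lt_left (w.valuation F) h1
  rw [add_sub_cancel, map_one] at h5
  exact h5

end ORDx

open _root_.Pool.Agent.HB.ORDx in
theorem th_ORD : Sh_ORD := by
  intro F _ _
  refine ⟨fin_supp, int_iff, ?_, crt, near_one⟩
  intro x y hxy w
  refine ⟨?_, ?_⟩
  · rw [ord_nonneg_iff, ← hxy]
    exact w.valuation_le_one y
  · rw [ord_pos_iff, ← hxy]
    exact w.valuation_lt_one_iff_mem y

end Pool.Agent.HB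


end

section

/-!
# (VGP): the groups `V_M` (helper1)
-/

set_option autoImplicit false

open NumberField IsDedekindDomain

namespace Pool.Agent.HB

namespace VGPx

variable {k K : Type} [Field k] [NumberField k] [Field K] [NumberField K] [Algebra k K]

lemma iv_add {v : HeightOneSpectrum (𝓞 k)} {x y : K} (hx : IntV k K v x) (hy : IntV k K v y) :
    IntV k K v (x + y) := fun w hw =>
  (Valuation.map_add _ _ _).trans (max_le (hx w hw) (hy w hw))

lemma iv_neg {v : HeightOneSpectrum (𝓞 k)} {x : K} (hx : IntV k K v x) : IntV k K v (-x) :=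
  fun w hw => by rw [Valuation.map_neg]; exact hx w hw

lemma iv_mul {v : HeightOneSpectrum (𝓞 k)} {x y : K} (hx : IntV k K v x) (hy : IntV k K v y) :
    IntV k K v (x * y) := fun w hw => by
  rw [map_mul]; exact mul_le_one' (hx w hw) (hy w hw)

lemma iv_zero (v : HeightOneSpectrum (𝓞 k)) : IntV k K v (0 : K) := fun w _ => by
  rw [map_zero]; exact zero_le

lemma iv_pow {v : HeightOneSpectrum (𝓞 k)} {x : K} (hx : IntV k K v x) (n : ℕ) :
    IntV k K v (x ^ n) := fun w hw => by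
  rw [map_pow]; exact pow_le_one' (hx w hw) n

lemma iv_sum {v : HeightOneSpectrum (𝓞 k)} {ι : Type} (s : Finset ι) (f : ι → K)
    (h : ∀ i ∈ s, IntV k K v (f i)) : IntV k K v (∑ i ∈ s, f i) := fun w hw =>
  Valuation.map_sum_le _ fun i hi => h i hi w hw

/-- elements of `k` integral at `v` -/
lemma iv_alg (v : HeightOneSpectrum (𝓞 k))
    (hN : ∀ w, Lies k K v w → ∃ e : ℕ, 1 ≤ e ∧ ∀ x : kˣ, ord w (iu k K x) = e * ord v x) {c : k}
    (hc : v.valuation k c ≤ 1) : IntV k K v (algebraMap k K c) := by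
  intro w hw
  rcases eq_or_ne c 0 with rfl | h0
  · rw [map_zero, map_zero]; exact zero_le
  · obtain ⟨e, he, h⟩ := hN w hw
    have h1 := h (Units.mk0 c h0)
    have h2 : 0 ≤ ord v (Units.mk0 c h0) := (ORDx.ord_nonneg_iff _ _).2 hc
    have h3 : 0 ≤ ord w (iu k K (Units.mk0 c h0)) := by
      rw [h1]; positivity
    exact (ORDx.ord_nonneg_iff _ _).1 h3

section lam
variable {n : ℕ} {σ : K ≃ₐ[k] K} {v : HeightOneSpectrum (𝓞 k)} {θ : K}

lemma lam_add {x y : K} (hx : Lam n v σ θ x) (hy : Lam n v σ θ y) : Lam n v σ θ (x + y) := by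
  obtain ⟨c, hc, rfl⟩ := hx
  obtain ⟨d, hd, rfl⟩ := hy
  refine ⟨fun i => c i + d i, fun i => (Valuation.map_add _ _ _).trans (max_le (hc i) (hd i)), ?_⟩
  rw [← Finset.sum_add_distrib]
  exact Finset.sum_congr rfl fun i _ => by rw [map_add, add_mul]

lemma lam_neg {x : K} (hx : Lam n v σ θ x) : Lam n v σ θ (-x) := by
  obtain ⟨c, hc, rfl⟩ := hx
  refine ⟨fun i => - c i, fun i => by rw [Valuation.map_neg]; exact hc i, ?_⟩
  rw [← Finset.sum_neg_distrib]
  exact Finset.sum_congr rfl fun i _ => by rw [map_neg, neg_mul]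

lemma lam_zero : Lam n v σ θ (0 : K) :=
  ⟨fun _ => 0, fun _ => by rw [map_zero]; exact zero_le, by simp⟩

lemma lam_sig (hn : 1 ≤ n) (hs : ∀ x : K, (⇑σ)^[n] x = x) {x : K} (hx : Lam n v σ θ x) :
    Lam n v σ θ (σ x) := by
  obtain ⟨m, rfl⟩ : ∃ m, n = m + 1 := ⟨n - 1, by omega⟩
  obtain ⟨c, hc, rfl⟩ := hx
  refine ⟨fun i => if i = 0 then c m else c (i - 1), fun i => by
    dsimp only
    split
    · exact hc _
    · exact hc _, ?_⟩
  rw [map_sum, Finset.sum_range_succ, Finset.sum_range_succ']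
  have e1 : σ (algebraMap k K (c m) * (⇑σ)^[m] θ) = algebraMap k K (c m) * (⇑σ)^[0] θ := by
    rw [map_mul, AlgEquiv.commutes, ← Function.iterate_succ_apply' (⇑σ), hs]
    rfl
  rw [e1]
  congr 1
  refine Finset.sum_congr rfl fun i _ => ?_
  rw [map_mul, AlgEquiv.commutes, ← Function.iterate_succ_apply' (⇑σ)]
  simp

end lam

end VGPx

open _root_.Pool.Agent.HB.VGPx in
theorem th_VGP (hORG : Sh_ORG) (hORN : Sh_ORN) : Sh_VGP := by
  classical
  intro k K _ _ _ _ _ n σ hC v π θ c hNB M hM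
  obtain ⟨P, hP1, hP2, -, hP4, -, -, hfin, -⟩ := hORG k K n σ hC
  obtain ⟨-, -, -, hsn, hram, -⟩ := hORN k K n σ hC
  have hr := hram v
  have hn : 1 ≤ n := by
    rw [← hC.deg]
    exact Module.finrank_pos
  -- `σ^n = id`
  have hs : ∀ x : K, (⇑σ)^[n] x = x := by
    intro x
    rcases eq_or_ne x 0 with rfl | h0
    · exact Function.iterate_fixed (map_zero σ) n
    · have h1 := congrArg (fun u : Kˣ => (u : K)) (hsn (Units.mk0 x h0))
      have h2 : ∀ (i : ℕ) (u : Kˣ), (((⇑(su σ))^[i] u : Kˣ) : K) = (⇑σ)^[i] (u : K) := by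
        intro i
        induction i with
        | zero => intro u; rfl
        | succ i ih =>
          intro u
          rw [Function.iterate_succ_apply, Function.iterate_succ_apply, ih]
          rfl
      simp only [h2] at h1
      exact h1
  -- the prime `π`
  obtain ⟨p, hp⟩ : ∃ p : K, p = algebraMap k K (π : k) := ⟨_, rfl⟩
  have hp0 : p ≠ 0 := by
    rw [hp]
    exact (map_ne_zero _).2 π.ne_zero
  have hpv : ∀ w, Lies k K v w → w.valuation K p < 1 := by
    intro w hw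
    obtain ⟨e, he, h⟩ := hr w hw
    have h1 := h π
    rw [hNB.pi, mul_one] at h1
    have h2 : 0 < ord w (iu k K π) := by
      rw [h1]; exact_mod_cast he
    rw [hp]
    exact (ORDx.ord_pos_iff _ _).1 h2
  have hpi : IntV k K v p := fun w hw => (hpv w hw).le
  -- `σ` preserves integrality
  have hord : ∀ (x : Kˣ) (w : HeightOneSpectrum (𝓞 K)), Lies k K v w →
      ∃ w', Lies k K v w' ∧ ord w (su σ x) = ord w' x := by
    intro x w hw
    have hit : ∀ i : ℕ, Lies k K v ((⇑P)^[i] w) := by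
      intro i
      induction i with
      | zero => exact hw
      | succ i ih =>
        rw [Function.iterate_succ_apply']
        exact hP2 v _ ih
    refine ⟨(⇑P)^[n - 1] w, hit _, ?_⟩
    have h := hP1 ((⇑P)^[n - 1] w) x
    have e : (n - 1).succ = n := by omega
    rw [← Function.iterate_succ_apply' (⇑P), e, hP4] at h
    exact h
  have hsig : ∀ x : K, IntV k K v x → IntV k K v (σ x) := by
    intro x hx w hw
    rcases eq_or_ne x 0 with rfl | h0
    · rw [map_zero, map_zero]; exact zero_le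
    · obtain ⟨w', hw', h⟩ := hord (Units.mk0 x h0) w hw
      have h1 := (ORDx.ord_nonneg_iff w' (Units.mk0 x h0)).2 (hx w' hw')
      rw [← h] at h1
      exact (ORDx.ord_nonneg_iff w (su σ (Units.mk0 x h0))).1 h1
  have hit : ∀ i : ℕ, IntV k K v ((⇑σ)^[i] θ) := by
    intro i
    induction i with
    | zero => exact hNB.int
    | succ i ih =>
      rw [Function.iterate_succ_apply']
      exact hsig _ ih
  have hLI : ∀ x : K, Lam n v σ θ x → IntV k K v x := by
    rintro x ⟨a, ha, rfl⟩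
    exact iv_sum _ _ fun i _ => iv_mul (iv_alg v hr (ha i)) (hit i)
  have hIL : ∀ (j : ℕ) (x : K), c ≤ j → IntV k K v x → Lam n v σ θ (p ^ j * x) := by
    intro j x hj hx
    have h := hNB.lam (p ^ (j - c) * x) (iv_mul (iv_pow hpi _) hx)
    rw [← hp, ← mul_assoc, ← pow_add, Nat.add_sub_cancel' hj] at h
    exact h
  -- elements of `V_M` are units at `v`
  have hunit : ∀ (x : Kˣ) (a : K), IntV k K v a → (x : K) = 1 + p ^ M * a →
      ∀ w, Lies k K v w → ord w x = 0 := by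
    intro x a ha hx w hw
    rw [ORDx.ord_zero_iff]
    have h1 : w.valuation K ((x : K) - 1) < w.valuation K (1 : K) := by
      have e1 : (x : K) - 1 = p ^ M * a := by rw [hx]; ring
      rw [e1, map_mul, map_pow, map_one]
      refine lt_of_le_of_lt (mul_le_of_le_one_right' (ha w hw)) ?_
      exact pow_lt_one' (hpv w hw) (by omega)
    have h5 := Valuation.map_add_eq_of_lt_left (w.valuation K) h1
    rw [add_sub_cancel, map_one] at h5
    exact h5
  have hivinv : ∀ x : Kˣ, (∀ w, Lies k K v w → ord w x = 0) → IntV k K v ((x⁻¹ : Kˣ) : K) := by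
    intro x hx w hw
    rw [← ORDx.ord_nonneg_iff, ord_inv, hx w hw, neg_zero]
  have hInV : ∀ x : Kˣ, InVM n σ v π θ M x ↔ ∃ a : K, Lam n v σ θ a ∧ (x : K) = 1 + p ^ M * a := by
    intro x
    rw [hp]
    rfl
  let V : Subgroup Kˣ :=
    { carrier := {x | InVM n σ v π θ M x}
      one_mem' := by
        change InVM n σ v π θ M 1
        rw [hInV]
        exact ⟨0, lam_zero, by simp⟩
      mul_mem' := by
        intro x y hx hy
        change InVM n σ v π θ M (x * y)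
        obtain ⟨a, ha, hxa⟩ := (hInV x).1 hx
        obtain ⟨b, hb, hyb⟩ := (hInV y).1 hy
        rw [hInV]
        refine ⟨a + b + p ^ M * (a * b), lam_add (lam_add ha hb)
          (hIL M _ (by omega) (iv_mul (hLI a ha) (hLI b hb))), ?_⟩
        rw [Units.val_mul, hxa, hyb]
        ring
      inv_mem' := by
        intro x hx
        change InVM n σ v π θ M x⁻¹
        obtain ⟨a, ha, hxa⟩ := (hInV x).1 hx
        rw [hInV]
        have h1 := hivinv x (hunit x a (hLI a ha) hxa)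
        refine ⟨-a + p ^ M * (a * a * ((x⁻¹ : Kˣ) : K)), lam_add (lam_neg ha)
          (hIL M _ (by omega) (iv_mul (iv_mul (hLI a ha) (hLI a ha)) h1)), ?_⟩
        have h2 : (x : K) * ((x⁻¹ : Kˣ) : K) = 1 := by
          rw [← Units.val_mul, mul_inv_cancel, Units.val_one]
        have h3 : ((x⁻¹ : Kˣ) : K) = 1 - p ^ M * a * ((x⁻¹ : Kˣ) : K) := by
          rw [hxa] at h2
          linear_combination h2
        have h4 : ((x⁻¹ : Kˣ) : K) = 1 - p ^ M * a * (1 - p ^ M * a * ((x⁻¹ : Kˣ) : K)) := by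
          rw [← h3, ← h3]
        linear_combination h4 }
  let U : Subgroup Kˣ :=
    { carrier := {x | ∀ w, Lies k K v w → ord w x = 0}
      one_mem' := fun w _ => ord_one w
      mul_mem' := by
        intro x y hx hy w hw
        rw [ord_mul, hx w hw, hy w hw, add_zero]
      inv_mem' := by
        intro x hx w hw
        rw [ord_inv, hx w hw, neg_zero] }
  have hVm : ∀ x, x ∈ V ↔ InVM n σ v π θ M x := fun x => Iff.rfl
  have hUm : ∀ x, x ∈ U ↔ ∀ w, Lies k K v w → ord w x = 0 := fun x => Iff.rfl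
  refine ⟨V, U, hVm, hUm, ?_, ?_, ?_, ?_⟩
  · intro x hx
    obtain ⟨a, ha, hxa⟩ := (hInV x).1 hx
    exact hunit x a (hLI a ha) hxa
  · intro x hx
    obtain ⟨a, ha, hxa⟩ := (hInV x).1 hx
    refine (hInV _).2 ⟨σ a, lam_sig hn hs ha, ?_⟩
    change σ (x : K) = _
    rw [hxa, map_add, map_one, map_mul, map_pow, hp, AlgEquiv.commutes]
  · intro x hx w hw
    obtain ⟨w', hw', h⟩ := hord x w hw
    rw [h]
    exact hx w' hw'
  · -- finite index
    have hTf : (Set.range (Subtype.val : {w : HeightOneSpectrum (𝓞 K) // Lies k K v w} →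
        HeightOneSpectrum (𝓞 K))).Finite := by
      have := hfin v
      exact Set.finite_range _
    obtain ⟨T, hT⟩ : ∃ T : Finset (HeightOneSpectrum (𝓞 K)), ∀ w, w ∈ T ↔ Lies k K v w :=
      ⟨hTf.toFinset, fun w => by
        rw [Set.Finite.mem_toFinset, Set.mem_range]
        exact ⟨fun ⟨y, hy⟩ => hy ▸ y.2, fun h => ⟨⟨w, h⟩, rfl⟩⟩⟩
    -- the modulus
    obtain ⟨y0, hy0, hy0v⟩ := ORDx.crt_int T (fun w => (ord w (iu k K π ^ (M + c))).toNat)
    have hp' : ∀ w, w.valuation K (p ^ (M + c)) =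
        WithZero.exp (-ord w (iu k K π ^ (M + c))) := by
      intro w
      rw [← ord_val, Units.val_pow_eq_pow_val, hp]
      rfl
    have hmod : ∀ a ∈ Ideal.span {y0}, ∀ w, Lies k K v w →
        w.valuation K (a : K) ≤ w.valuation K (p ^ (M + c)) := by
      intro a ha w hw
      obtain ⟨b, rfl⟩ := Ideal.mem_span_singleton.1 ha
      have h1 : w.valuation K ((y0 * b : 𝓞 K) : K) = w.intValuation (y0 * b) :=
        w.valuation_of_algebraMap (y0 * b)
      rw [h1, map_mul, hy0v w ((hT w).2 hw), hp']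
      refine (mul_le_of_le_one_right' (w.intValuation_le_one b)).trans ?_
      rw [WithZero.exp_le_exp]
      have := Int.self_le_toNat (ord w (iu k K π ^ (M + c)))
      omega
    have hI : Ideal.span {y0} ≠ ⊥ := by
      rw [Ne, Ideal.span_singleton_eq_bot]
      exact hy0
    have hF : Finite (𝓞 K ⧸ Ideal.span {y0}) := Ideal.finiteQuotientOfFreeOfNeBot _ hI
    -- fractions
    have hfrac : ∀ x : Kˣ, (∀ w, Lies k K v w → ord w x = 0) → ∃ (a b : 𝓞 K) (ua ub : Kˣ),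
        (ua : K) = a ∧ (ub : K) = b ∧ x * ub = ua ∧ (∀ w, Lies k K v w → ord w ua = 0) ∧
        ∀ w, Lies k K v w → ord w ub = 0 := by
      intro x hx
      have hfs := ORDx.fin_supp x
      obtain ⟨b, hb0, hb⟩ := ORDx.crt_int (T ∪ hfs.toFinset) (fun w => (-ord w x).toNat)
      have hb1 : (b : K) ≠ 0 := by exact_mod_cast hb0
      have hob : ∀ w ∈ T ∪ hfs.toFinset, ord w (Units.mk0 (b : K) hb1) = (-ord w x).toNat := by
        intro w hw
        unfold ord
        rw [Units.val_mk0]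
        have : w.valuation K (b : K) = w.intValuation b := w.valuation_of_algebraMap b
        rw [this, hb w hw, WithZero.log_exp]
        unfold ord
        ring
      have hub : ∀ w, Lies k K v w → ord w (Units.mk0 (b : K) hb1) = 0 := by
        intro w hw
        rw [hob w (Finset.mem_union_left _ ((hT w).2 hw)), hx w hw]
        rfl
      have hint : ∀ w : HeightOneSpectrum (𝓞 K), 0 ≤ ord w (x * Units.mk0 (b : K) hb1) := by
        intro w
        rw [ord_mul]
        by_cases hw : ord w x = 0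
        · rw [hw, zero_add]
          exact (ORDx.int_iff (Units.mk0 (b : K) hb1)).2 ⟨b, rfl⟩ w
        · rw [hob w (Finset.mem_union_right _ (by
            rw [Set.Finite.mem_toFinset]; exact hw))]
          have := Int.self_le_toNat (-ord w x)
          omega
      obtain ⟨a, ha⟩ := (ORDx.int_iff _).1 hint
      refine ⟨a, b, x * Units.mk0 (b : K) hb1, Units.mk0 (b : K) hb1, ha.symm, rfl, rfl, ?_, hub⟩
      intro w hw
      rw [ord_mul, hx w hw, hub w hw, add_zero]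
    -- congruent elements
    have hcong : ∀ (ua ub : Kˣ) (a b : 𝓞 K), (ua : K) = a → (ub : K) = b →
        (∀ w, Lies k K v w → ord w ub = 0) → a - b ∈ Ideal.span {y0} → ua / ub ∈ V := by
      intro ua ub a b hua hub hu hab
      rw [hVm, hInV]
      have h1 : IntV k K v (((a - b : 𝓞 K) : K) / p ^ (M + c)) := by
        intro w hw
        rw [map_div₀]
        have h0 : w.valuation K (p ^ (M + c)) ≠ 0 := by
          rw [Ne, Valuation.zero_iff]
          exact pow_ne_zero _ hp0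
        exact div_le_one_of_le₀ (hmod _ hab w hw) zero_le
      refine ⟨p ^ c * (((a - b : 𝓞 K) : K) / p ^ (M + c) * ((ub⁻¹ : Kˣ) : K)),
        hIL c _ le_rfl (iv_mul h1 (hivinv ub hu)), ?_⟩
      have h2 : (ub : K) ≠ 0 := ub.ne_zero
      have h3 : ((a - b : 𝓞 K) : K) = (a : K) - b := by push_cast; rfl
      rw [h3, Units.val_div_eq_div_val, Units.val_inv_eq_inv_val, hua, hub] at *
      field_simp
      ring
    -- the injection
    choose fa fb ua ub h1 h2 h3 h4 h5 using hfrac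
    have key : Finite (U ⧸ V.subgroupOf U) := by
      let g : U → (𝓞 K ⧸ Ideal.span {y0}) × (𝓞 K ⧸ Ideal.span {y0}) := fun x =>
        (Ideal.Quotient.mk _ (fa x.1 x.2), Ideal.Quotient.mk _ (fb x.1 x.2))
      refine Finite.of_injective (fun q : U ⧸ V.subgroupOf U => g (Quotient.out q)) ?_
      intro q q' hqq
      obtain ⟨x, hx⟩ : ∃ x : U, x = Quotient.out q := ⟨_, rfl⟩
      obtain ⟨y, hy⟩ : ∃ y : U, y = Quotient.out q' := ⟨_, rfl⟩
      simp only [← hx, ← hy, g, Prod.mk.injEq] at hqq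
      obtain ⟨e1, e2⟩ := hqq
      rw [Ideal.Quotient.eq] at e1 e2
      have c1 := hcong (ua x.1 x.2) (ua y.1 y.2) _ _ (h1 x.1 x.2) (h1 y.1 y.2) (h4 y.1 y.2) e1
      have c2 := hcong (ub x.1 x.2) (ub y.1 y.2) _ _ (h2 x.1 x.2) (h2 y.1 y.2) (h5 y.1 y.2) e2
      have c3 : (x.1)⁻¹ * y.1 ∈ V := by
        have e3 := h3 x.1 x.2
        have e4 := h3 y.1 y.2
        have e5 : (x.1)⁻¹ * y.1 = (ua x.1 x.2 / ua y.1 y.2)⁻¹ * (ub x.1 x.2 / ub y.1 y.2) := by
          rw [← e3, ← e4]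
          apply Units.ext
          have n1 := x.1.ne_zero
          have n2 := y.1.ne_zero
          have n3 := (ub x.1 x.2).ne_zero
          have n4 := (ub y.1 y.2).ne_zero
          push_cast
          field_simp
        rw [e5]
        exact V.mul_mem (V.inv_mem c1) c2
      rw [← Quotient.out_eq' q, ← Quotient.out_eq' q']
      refine QuotientGroup.eq.2 ?_
      rw [Subgroup.mem_subgroupOf]
      have e6 : (((Quotient.out q)⁻¹ * Quotient.out q' : U) : Kˣ) = (x.1)⁻¹ * y.1 := by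
        rw [hx, hy]
        rfl
      exact e6 ▸ c3
    have : (V.subgroupOf U).FiniteIndex := Subgroup.finiteIndex_of_finite_quotient
    exact this.index_ne_zero

end Pool.Agent.HB


end

section

/-!
# HB, module NBL: a normal basis and its lattice (helper81)

`x` integral above `v` is `a / s` with `a` an integer of `K` and `s ∉ v` an integer of `k`; the integers of `K`
are a finitely generated module over the integers of `k`, so one exponent is enough.
-/

set_option autoImplicit false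

open NumberField IsDedekindDomain

namespace Pool.Agent.HB

noncomputable section

namespace NBL

section
variable {k K : Type} [Field k] [NumberField k] [Field K] [NumberField K] [Algebra k K]

lemma am (x : 𝓞 k) : algebraMap k K (x : k) = ((algebraMap (𝓞 k) (𝓞 K) x : 𝓞 K) : K) := rfl

/-- a prime above another prime does not contain a power of `v` -/
lemma sep (v : HeightOneSpectrum (𝓞 k)) (w : HeightOneSpectrum (𝓞 K)) (h : ¬ Lies k K v w)
    (e : ℕ) : ∃ t ∈ v.asIdeal ^ e, algebraMap (𝓞 k) (𝓞 K) t ∉ w.asIdeal := by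
  by_contra hc
  push Not at hc
  have hp : (w.asIdeal.under (𝓞 k)).IsPrime := inferInstance
  have h1 : v.asIdeal ^ e ≤ w.asIdeal.under (𝓞 k) := fun t ht => hc t ht
  have h2 : v.asIdeal ≤ w.asIdeal.under (𝓞 k) := Ideal.IsPrime.le_of_pow_le h1
  exact h (v.isMaximal.eq_of_le hp.ne_top h2).symm

omit [NumberField k] in
/-- a denominator -/
lemma den (y : K) : ∃ d : ℤ, d ≠ 0 ∧ ∃ b : 𝓞 K, (b : K) = (d : K) * y := by
  have h1 : IsAlgebraic ℤ y :=
    (IsFractionRing.isAlgebraic_iff ℤ ℚ K).2 (Algebra.IsAlgebraic.isAlgebraic y)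
  obtain ⟨d, hd0, hd⟩ := h1.exists_integral_multiple
  refine ⟨d, hd0, ⟨d • y, hd⟩, ?_⟩
  show d • y = _
  rw [zsmul_eq_mul]

/-- an element which is integral above `v` is a fraction with denominator prime to `v` -/
lemma frac (v : HeightOneSpectrum (𝓞 k)) (y : K) (hy : IntV k K v y) :
    ∃ s : 𝓞 k, s ∉ v.asIdeal ∧ ∃ a : 𝓞 K, algebraMap k K (s : k) * y = (a : K) := by
  obtain ⟨d', hd0', b, hb'⟩ := den y
  obtain ⟨d, hd⟩ : ∃ d : 𝓞 k, d = (d' : 𝓞 k) := ⟨_, rfl⟩
  have hd0 : d ≠ 0 := by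
    rw [hd]
    exact_mod_cast hd0'
  have hb : (b : K) = algebraMap k K (d : k) * y := by
    rw [hb', hd]
    simp
  have hdI0 : Ideal.span {d} ≠ (0 : Ideal (𝓞 k)) := by
    rwa [Ne, Ideal.zero_eq_bot, Ideal.span_singleton_eq_bot]
  obtain ⟨𝔟, hb1, hb2⟩ := (FiniteMultiplicity.of_prime_left v.prime
    hdI0).exists_eq_pow_mul_and_not_dvd
  set e := multiplicity v.asIdeal (Ideal.span {d}) with he
  rw [Ideal.dvd_iff_le] at hb2
  obtain ⟨s, hs, hsv⟩ := SetLike.not_le_iff_exists.1 hb2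
  refine ⟨s, hsv, ?_⟩
  have hint : ∀ w : HeightOneSpectrum (𝓞 K),
      w.valuation K (algebraMap k K (s : k) * y) ≤ 1 := by
    intro w
    by_cases hw : Lies k K v w
    · rw [map_mul, am]
      exact mul_le_one' (w.valuation_le_one _) (hy w hw)
    · obtain ⟨t, ht, htw⟩ := sep v w hw e
      have h1 : t * s ∈ Ideal.span {d} := by
        rw [hb1]
        exact Ideal.mul_mem_mul ht hs
      obtain ⟨r, hr⟩ := Ideal.mem_span_singleton'.1 h1
      have h2 : w.valuation K (algebraMap k K (t : k)) = 1 := by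
        rw [am]
        refine le_antisymm (w.valuation_le_one _) ?_
        rw [← not_lt, w.valuation_lt_one_iff_mem]
        exact htw
      have h3 : algebraMap k K (t : k) * (algebraMap k K (s : k) * y) =
          (((algebraMap (𝓞 k) (𝓞 K) r) * b : 𝓞 K) : K) := by
        have h4 : (r : k) * (d : k) = (t : k) * (s : k) := by
          exact_mod_cast congrArg (fun z : 𝓞 k => (z : k)) hr
        have h5 : (((algebraMap (𝓞 k) (𝓞 K) r) * b : 𝓞 K) : K) =
          ((algebraMap (𝓞 k) (𝓞 K) r : 𝓞 K) : K) * (b : K) := rfl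
        rw [h5, hb, ← am, ← mul_assoc, ← map_mul, ← h4, map_mul, mul_assoc]
      have h5 : w.valuation K (algebraMap k K (t : k) * (algebraMap k K (s : k) * y)) ≤ 1 := by
        rw [h3]
        exact w.valuation_le_one _
      rw [map_mul, h2, one_mul] at h5
      exact h5
  obtain ⟨a, ha⟩ := HeightOneSpectrum.mem_integers_of_valuation_le_one K _ hint
  exact ⟨a, ha.symm⟩

/-- powers of a uniformizer make an element integral -/
lemma bnd (v : HeightOneSpectrum (𝓞 k)) (π : kˣ) (hπ : ord v π = 1) (z : k) :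
    ∃ c : ℕ, ∀ c' ≥ c, v.valuation k ((π : k) ^ c' * z) ≤ 1 := by
  by_cases hz : z = 0
  · exact ⟨0, fun c' _ => by rw [hz, mul_zero, map_zero]; exact zero_le_one⟩
  · refine ⟨(-ord v (Units.mk0 z hz)).toNat, fun c' hc' => ?_⟩
    have h1 : v.valuation k (π : k) = WithZero.exp (-1 : ℤ) := by rw [ord_val, hπ]
    have h2 : v.valuation k z = WithZero.exp (-ord v (Units.mk0 z hz)) := by
      rw [← ord_val]; rfl
    rw [map_mul, map_pow, h1, h2, ← WithZero.exp_nsmul, ← WithZero.exp_add, ← WithZero.exp_zero,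
      WithZero.exp_le_exp, nsmul_eq_mul]
    omega

/-- powers of an automorphism -/
lemma pow_app (σ : K ≃ₐ[k] K) (i : ℕ) (x : K) : (σ ^ i) x = (⇑σ)^[i] x := by
  induction i with
  | zero => rfl
  | succ i ih =>
    rw [pow_succ', AlgEquiv.mul_apply, ih, Function.iterate_succ_apply']

/-- the normal basis, indexed by exponents -/
lemma basis (n : ℕ) (σ : K ≃ₐ[k] K) (h : Cyc n σ) : ∃ (θ : 𝓞 K) (b : Module.Basis (Fin n) k K),
    ∀ i : Fin n, b i = (⇑σ)^[(i : ℕ)] (θ : K) := by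
  classical
  have := h.gal
  have hfin : Module.Finite k K := Module.Finite.of_restrictScalars_finite ℚ k K
  have hn : 0 < n := by
    rw [← h.deg]
    exact Module.finrank_pos
  set θ₀ : K := IsGalois.normalBasis k K 1 with hθ₀
  obtain ⟨d, hd0, θ, hθ⟩ := den θ₀
  have hcard : orderOf σ = n := by
    rw [orderOf_eq_card_of_forall_mem_zpowers h.gen, IsGalois.card_aut_eq_finrank, h.deg]
  have hinj : Function.Injective (fun i : Fin n => σ ^ (i : ℕ)) := by
    intro i j hij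
    have h1 : σ ^ (i : ℕ) = σ ^ (j : ℕ) := hij
    have h2 := (pow_inj_mod (x := σ)).1 h1
    rw [hcard, Nat.mod_eq_of_lt i.2, Nat.mod_eq_of_lt j.2] at h2
    exact Fin.ext h2
  have hli0 := (IsGalois.normalBasis k K).linearIndependent.comp _ hinj
  have hli : LinearIndependent k (fun i : Fin n => (⇑σ)^[(i : ℕ)] (θ : K)) := by
    have hdk : (d : k) ≠ 0 := by exact_mod_cast hd0
    have h1 := hli0.units_smul (fun _ => Units.mk0 (d : k) hdk)
    convert h1 using 1
    ext i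
    show (⇑σ)^[(i : ℕ)] (θ : K) = (d : k) • (IsGalois.normalBasis k K (σ ^ (i : ℕ)))
    rw [IsGalois.normalBasis_apply, ← hθ₀, ← pow_app, hθ, map_mul, map_intCast,
      Algebra.smul_def, map_intCast]
  have hne : Nonempty (Fin n) := ⟨⟨0, hn⟩⟩
  refine ⟨θ, basisOfLinearIndependentOfCardEqFinrank hli (by
    rw [Fintype.card_fin, h.deg]), fun i => ?_⟩
  rw [coe_basisOfLinearIndependentOfCardEqFinrank]

/-- one exponent for all integers -/
lemma unif (v : HeightOneSpectrum (𝓞 k)) (π : kˣ) (hπ : ord v π = 1) (n : ℕ)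
    (b : Module.Basis (Fin n) k K) :
    ∃ c : ℕ, ∀ (a : 𝓞 K) (i : Fin n), v.valuation k ((π : k) ^ c * b.repr (a : K) i) ≤ 1 := by
  classical
  obtain ⟨S, hS⟩ := (inferInstance : Module.Finite (𝓞 k) (𝓞 K)).fg_top
  choose C hC using bnd v π hπ
  refine ⟨S.sup fun β => Finset.univ.sup fun i => C (b.repr (β : K) i), ?_⟩
  set c := S.sup fun β => Finset.univ.sup fun i => C (b.repr (β : K) i) with hc
  intro a
  have ha : a ∈ Submodule.span (𝓞 k) (S : Set (𝓞 K)) := by
    rw [hS]; exact Submodule.mem_top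
  induction ha using Submodule.span_induction with
  | mem x hx =>
    intro i
    refine hC _ _ ?_
    refine le_trans ?_ (Finset.le_sup (f := fun β : 𝓞 K => Finset.univ.sup fun i : Fin n =>
      C (b.repr (β : K) i)) hx)
    exact Finset.le_sup (f := fun i : Fin n => C (b.repr (x : K) i)) (Finset.mem_univ i)
  | zero =>
    intro i
    simp
  | add x y _ _ hx hy =>
    intro i
    have e : (π : k) ^ c * b.repr ((x + y : 𝓞 K) : K) i =
        (π : k) ^ c * b.repr (x : K) i + (π : k) ^ c * b.repr (y : K) i := by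
      have h1 : ((x + y : 𝓞 K) : K) = (x : K) + (y : K) := rfl
      rw [h1, map_add, Finsupp.add_apply, mul_add]
    rw [e]
    exact (v.valuation k).map_add_le (hx i) (hy i)
  | smul r x _ hx =>
    intro i
    have e : (π : k) ^ c * b.repr ((r • x : 𝓞 K) : K) i =
        (r : k) * ((π : k) ^ c * b.repr (x : K) i) := by
      have h1 : ((r • x : 𝓞 K) : K) = (r : k) • (x : K) := by
        have h2 : ((algebraMap (𝓞 k) (𝓞 K) r * x : 𝓞 K) : K) =
          ((algebraMap (𝓞 k) (𝓞 K) r : 𝓞 K) : K) * (x : K) := rfl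
        rw [Algebra.smul_def, h2, ← am, Algebra.smul_def]
      rw [h1, map_smul, Finsupp.smul_apply, smul_eq_mul]
      ring
    rw [e, map_mul]
    exact mul_le_one' (v.valuation_le_one r) (hx i)

/-- a sum over the exponents -/
lemma sum_eq (n : ℕ) (σ : K ≃ₐ[k] K) (θ : K) (a : ℕ → k) :
    ∑ i ∈ Finset.range n, algebraMap k K (a i) * (⇑σ)^[i] θ =
      ∑ i : Fin n, a (i : ℕ) • (⇑σ)^[(i : ℕ)] θ := by
  rw [Finset.sum_range]
  exact Finset.sum_congr rfl fun i _ => (Algebra.smul_def _ _).symm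

end

end NBL

open _root_.Pool.Agent.HB.NBL in
theorem th_NBL : Sh_NBL := by
  intro k K _ _ _ _ _ n σ hcyc v
  classical
  obtain ⟨π₀, hπ₀⟩ := v.valuation_exists_uniformizer k
  have hπne : π₀ ≠ 0 := by
    rintro rfl
    rw [map_zero] at hπ₀
    exact WithZero.exp_ne_zero hπ₀.symm
  obtain ⟨π, hπe⟩ : ∃ π : kˣ, (π : k) = π₀ := ⟨Units.mk0 π₀ hπne, rfl⟩
  have hπ : ord v π = 1 := by
    unfold ord
    rw [hπe, hπ₀, WithZero.log_exp]
    ring
  obtain ⟨θ, b, hb⟩ := basis n σ hcyc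
  obtain ⟨c, hc⟩ := unif v π hπ n b
  have hsum : ∀ x : K, x = ∑ i ∈ Finset.range n,
      algebraMap k K ((fun j : ℕ => if h : j < n then b.repr x ⟨j, h⟩ else 0) i) *
        (⇑σ)^[i] (θ : K) := by
    intro x
    rw [sum_eq]
    conv_lhs => rw [← b.sum_repr x]
    refine Finset.sum_congr rfl fun i _ => ?_
    rw [hb i]
    simp
  refine ⟨π, (θ : K), c, hπ, fun w _ => w.valuation_le_one θ, ?_, fun x => ⟨_, hsum x⟩, ?_⟩
  · intro a ha i hi
    rw [sum_eq] at ha
    have h1 := Fintype.linearIndependent_iff.1 b.linearIndependent (fun i : Fin n => a (i : ℕ)) (by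
      rw [← ha]
      exact Finset.sum_congr rfl fun i _ => by rw [hb i]) ⟨i, hi⟩
    exact h1
  · intro x hx
    obtain ⟨s, hs, a, ha⟩ := frac v x hx
    have hsv : v.valuation k (s : k) = 1 := by
      refine le_antisymm (v.valuation_le_one _) ?_
      rw [← not_lt, v.valuation_lt_one_iff_mem]
      exact hs
    have hs0 : (s : k) ≠ 0 := by
      intro h
      rw [h, map_zero] at hsv
      exact zero_ne_one hsv
    refine ⟨fun j => (s : k)⁻¹ * ((π : k) ^ c *
      (if h : j < n then b.repr (a : K) ⟨j, h⟩ else 0)), ?_, ?_⟩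
    · intro i
      rw [map_mul, map_inv₀, hsv, inv_one, one_mul]
      by_cases h : i < n
      · rw [dif_pos h]
        exact hc a _
      · rw [dif_neg h, mul_zero, map_zero]
        exact zero_le_one
    · have hsK : algebraMap k K (s : k) ≠ 0 := by
        rwa [Ne, map_eq_zero]
      have h2 := hsum (a : K)
      have h3 : x = (algebraMap k K (s : k))⁻¹ * (a : K) := by
        rw [← ha, ← mul_assoc, inv_mul_cancel₀ hsK, one_mul]
      rw [h3]
      conv_lhs => rw [h2]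
      rw [Finset.mul_sum, Finset.mul_sum]
      refine Finset.sum_congr rfl fun i _ => ?_
      simp only [map_mul, map_inv₀, map_pow]
      ring

end

end Pool.Agent.HB


end

section

/-! HB, module HSU (helper11): the Herbrand quotient of the `S`-units. -/

set_option autoImplicit false

open NumberField IsDedekindDomain
open scoped nonZeroDivisors

namespace Pool.Agent.HB

private lemma hsu_min_HBH_HSU (l j c : ℕ) (hl : l.Prime) :
    min (l ^ (j + 1)) (l ^ c) =
      min (l ^ j) (l ^ c) + (l ^ (j + 1)).totient * (if j < c then 1 else 0) := by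
  have h1 : (l ^ (j + 1)).totient = l ^ j * (l - 1) := Nat.totient_prime_pow_succ hl j
  have hl1 : 1 ≤ l := hl.one_lt.le
  rw [h1]
  by_cases h : j < c
  · rw [if_pos h, mul_one, min_eq_left (Nat.pow_le_pow_right hl1 h),
      min_eq_left (Nat.pow_le_pow_right hl1 h.le)]
    obtain ⟨l', rfl⟩ : ∃ l', l = l' + 1 := ⟨l - 1, by omega⟩
    rw [Nat.add_sub_cancel, pow_succ]
    ring
  · rw [if_neg h, mul_zero, add_zero]
    have h2 : c ≤ j := not_lt.1 h
    rw [min_eq_right (Nat.pow_le_pow_right hl1 (by omega)),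
      min_eq_right (Nat.pow_le_pow_right hl1 h2)]

private lemma hsu_cnt_HBH_HSU (m c : ℕ) (h : c ≤ m) :
    ∑ j ∈ Finset.range m, (if j < c then 1 else 0) = c := by
  rw [← Finset.sum_filter, Finset.sum_const, smul_eq_mul, mul_one]
  have : Finset.filter (fun j => j < c) (Finset.range m) = Finset.range c := by
    ext j
    simp only [Finset.mem_filter, Finset.mem_range]
    omega
  rw [this, Finset.card_range]

theorem th_HSU (h1 : Sh_LAT) (h2 : Sh_INV) (h3 : Sh_ORN) (h4 : Sh_ORG) : Sh_HSU := by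
  intro k K _ _ _ _ _ l m σ hl hc htc S
  obtain ⟨π, hπ1, hπ2, -, -, -, -, -, hg⟩ := h4 k K (l ^ m) σ hc
  obtain ⟨-, -, -, hsn, -⟩ := h3 k K (l ^ m) σ hc
  obtain ⟨hfin, hrk⟩ := h2 k K l m σ hl hc htc S
  set U := EU (abv k K (S : Set (HeightOneSpectrum (𝓞 k)))) with hU
  have hst : Stb (su σ) U := by
    intro x hx w hw
    have e : ord w (su σ x) = ord (π.symm w) x := by
      rw [← hπ1 (π.symm w) x, Equiv.apply_symm_apply]
    rw [e]
    apply hx
    rintro ⟨v, hv, hl⟩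
    exact hw ⟨v, hv, by simpa using hπ2 v _ hl⟩
  obtain ⟨ht0, ht1, a, ha, hm⟩ := h1 Kˣ l m (su σ) hl hsn U hst hfin
  refine ⟨ht0, ?_⟩
  choose c hcm hce using fun v => (Nat.dvd_prime_pow hl).1 (hg v).1
  have hlpos : 0 < l := hl.pos
  set B := Fintype.card (InfinitePlace k) with hB
  have hBpos : 1 ≤ B := Fintype.card_pos
  -- the rank of the fixed units at level 0
  have hr0 : rk (U ⊓ fixS (su σ) 1) + 1 = B + S.card := by
    have := hrk 0 (Nat.zero_le m)
    rw [pow_zero] at this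
    rw [this, one_mul]
    congr 1
    rw [Finset.card_eq_sum_ones]
    refine Finset.sum_congr rfl fun v _ => ?_
    rw [hce v]
    exact min_eq_left (Nat.one_le_pow _ _ hlpos)
  -- the numbers a j
  have haj : ∀ j < m, a j = B + ∑ v ∈ S, (if j < c v then 1 else 0) := by
    intro j hj
    have e1 := hrk j hj.le
    have e2 := hrk (j + 1) hj
    have e3 := ha j hj
    have e4 : ∑ v ∈ S, min (l ^ (j + 1)) (gpr k K v) = ∑ v ∈ S, min (l ^ j) (gpr k K v) +
        (l ^ (j + 1)).totient * ∑ v ∈ S, (if j < c v then 1 else 0) := by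
      rw [Finset.mul_sum, ← Finset.sum_add_distrib]
      refine Finset.sum_congr rfl fun v _ => ?_
      rw [hce v]
      exact hsu_min_HBH_HSU l j (c v) hl
    have e5 : l ^ (j + 1) * B = l ^ j * B + (l ^ (j + 1)).totient * B := by
      rw [Nat.totient_prime_pow_succ hl j]
      obtain ⟨l', rfl⟩ : ∃ l', l = l' + 1 := ⟨l - 1, by omega⟩
      rw [Nat.add_sub_cancel, pow_succ]
      ring
    have hpos : 0 < (l ^ (j + 1)).totient := Nat.totient_pos.2 (pow_pos hlpos _)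
    have e6 : (l ^ (j + 1)).totient * a j =
        (l ^ (j + 1)).totient * (B + ∑ v ∈ S, (if j < c v then 1 else 0)) := by
      rw [mul_add]
      omega
    exact Nat.eq_of_mul_eq_mul_left hpos e6
  have hsum : ∑ j ∈ Finset.range m, a j = m * B + ∑ v ∈ S, c v := by
    rw [Finset.sum_congr rfl fun j hj => haj j (Finset.mem_range.1 hj), Finset.sum_add_distrib,
      Finset.sum_const, Finset.card_range, smul_eq_mul, Finset.sum_comm]
    congr 1
    exact Finset.sum_congr rfl fun v _ => hsu_cnt_HBH_HSU m (c v) (hcm v)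
  have hprod : (∏ v ∈ S, (l ^ m / gpr k K v)) * l ^ (∑ v ∈ S, c v) = l ^ (m * S.card) := by
    rw [← Finset.prod_pow_eq_pow_sum, ← Finset.prod_mul_distrib, pow_mul, ← Finset.prod_const]
    refine Finset.prod_congr rfl fun v _ => ?_
    rw [hce v]
    exact Nat.div_mul_cancel (pow_dvd_pow l (hcm v))
  have hkey : t0 (l ^ m) (su σ) U ⊥ * l ^ m * (l ^ (∑ v ∈ S, c v) * l ^ (m * B)) =
      (t1 (l ^ m) (su σ) U ⊥ * ∏ v ∈ S, (l ^ m / gpr k K v)) *
        (l ^ (∑ v ∈ S, c v) * l ^ (m * B)) := by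
    have e7 : t0 (l ^ m) (su σ) U ⊥ * l ^ m * (l ^ (∑ v ∈ S, c v) * l ^ (m * B)) =
        (t0 (l ^ m) (su σ) U ⊥ * l ^ (∑ j ∈ Finset.range m, a j)) * l ^ m := by
      rw [hsum, pow_add]
      ring
    have e8 : (t1 (l ^ m) (su σ) U ⊥ * ∏ v ∈ S, (l ^ m / gpr k K v)) *
        (l ^ (∑ v ∈ S, c v) * l ^ (m * B)) =
        t1 (l ^ m) (su σ) U ⊥ * (((∏ v ∈ S, (l ^ m / gpr k K v)) * l ^ (∑ v ∈ S, c v)) *
          l ^ (m * B)) := by ring
    rw [e7, e8, hm, hprod, ← pow_add, mul_assoc, ← pow_add]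
    congr 2
    have : m * rk (U ⊓ fixS (su σ) 1) + m = m * (rk (U ⊓ fixS (su σ) 1) + 1) := by ring
    rw [this, hr0]
    ring
  exact Nat.eq_of_mul_eq_mul_right (Nat.mul_pos (pow_pos hlpos _) (pow_pos hlpos _)) hkey

end Pool.Agent.HB


end

section

/-!
# HB, module INV: the rank of the fixed `S`-units
-/

set_option autoImplicit false

open NumberField IsDedekindDomain

namespace Pool.Agent.HB

namespace INV

lemma rk_map {G H : Type} [CommGroup G] [CommGroup H] (f : G →* H) (hf : Function.Injective f)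
    (U : Subgroup G) : rk (U.map f) = rk U := by
  unfold rk
  exact ((MulEquiv.toAdditive (U.equivMapOfInjective f hf)).toIntLinearEquiv.finrank_eq).symm

lemma lies_trans {k F K : Type} [Field k] [NumberField k] [Field F] [NumberField F] [Field K]
    [NumberField K] [Algebra k F] [Algebra F K] [Algebra k K] [IsScalarTower k F K]
    {v : HeightOneSpectrum (𝓞 k)} {u : HeightOneSpectrum (𝓞 F)} {w : HeightOneSpectrum (𝓞 K)}
    (hu : Lies F K u w) : Lies k F v u ↔ Lies k K v w := by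
  unfold Lies at *
  have h : (w.asIdeal.under (𝓞 F)).under (𝓞 k) = w.asIdeal.under (𝓞 k) := Ideal.under_under _
  rw [← hu, h]

lemma iu_inj (F K : Type) [Field F] [NumberField F] [Field K] [NumberField K] [Algebra F K] :
    Function.Injective (iu F K) := by
  intro x y h
  apply Units.ext
  apply (algebraMap F K).injective
  exact congrArg (fun z : Kˣ => (z : K)) h

lemma su_iter {k K : Type} [Field k] [NumberField k] [Field K] [NumberField K] [Algebra k K]
    (σ : K ≃ₐ[k] K) (i : ℕ) (x : Kˣ) : (((⇑(su σ))^[i] x : Kˣ) : K) = (⇑σ)^[i] (x : K) := by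
  induction i generalizing x with
  | zero => rfl
  | succ i ih =>
    rw [Function.iterate_succ_apply, Function.iterate_succ_apply, ih]
    rfl

lemma exists_fix {k K : Type} [Field k] [NumberField k] [Field K] [NumberField K] [Algebra k K]
    (σ : K ≃ₐ[k] K) (N : ℕ) : ∃ F : IntermediateField k K, ∀ x : K, x ∈ F ↔ (⇑σ)^[N] x = x := by
  refine ⟨IntermediateField.fixedField (Subgroup.zpowers (σ ^ N)), fun x => ?_⟩
  have hco : (σ ^ N) x = (⇑σ)^[N] x := by
    rw [AlgEquiv.coe_pow]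
  rw [IntermediateField.mem_fixedField_iff]
  constructor
  · intro h
    rw [← hco]
    exact h _ (Subgroup.mem_zpowers _)
  · intro h f hf
    obtain ⟨i, rfl⟩ := Subgroup.mem_zpowers_iff.1 hf
    have h1 : (σ ^ N) ∈ MulAction.stabilizer (K ≃ₐ[k] K) x := by
      rw [MulAction.mem_stabilizer_iff]
      show (σ ^ N) x = x
      rw [hco, h]
    have h2 := Subgroup.zpow_mem _ h1 i
    rw [MulAction.mem_stabilizer_iff] at h2
    exact h2

/-- `K` over the fixed field of `σ^N` is cyclic -/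
lemma cyc_top {k K : Type} [Field k] [NumberField k] [Field K] [NumberField K] [Algebra k K]
    {n : ℕ} {σ : K ≃ₐ[k] K} (hC : Cyc n σ) (N : ℕ) (F : IntermediateField k K)
    (hF : ∀ x : K, x ∈ F ↔ (⇑σ)^[N] x = x) :
    ∃ τ : K ≃ₐ[F] K, Cyc (Module.finrank F K) τ := by
  have := hC.gal
  have := Pool.Agent.FX.fd k K
  have hco : ∀ x : K, (σ ^ N) x = (⇑σ)^[N] x := by
    intro x
    rw [AlgEquiv.coe_pow]
  have hFf : F = IntermediateField.fixedField (Subgroup.zpowers (σ ^ N)) := by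
    ext x
    rw [hF, IntermediateField.mem_fixedField_iff]
    constructor
    · intro h f hf
      obtain ⟨i, rfl⟩ := Subgroup.mem_zpowers_iff.1 hf
      have h1 : (σ ^ N) ∈ MulAction.stabilizer (K ≃ₐ[k] K) x := by
        rw [MulAction.mem_stabilizer_iff]
        show (σ ^ N) x = x
        rw [hco, h]
      have h2 := Subgroup.zpow_mem _ h1 i
      rw [MulAction.mem_stabilizer_iff] at h2
      exact h2
    · intro h
      rw [← hco]
      exact h _ (Subgroup.mem_zpowers _)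
  have hfix : F.fixingSubgroup = Subgroup.zpowers (σ ^ N) := by
    rw [hFf]
    exact IntermediateField.fixingSubgroup_fixedField _
  have hmem : σ ^ N ∈ F.fixingSubgroup := by
    rw [hfix]
    exact Subgroup.mem_zpowers _
  refine ⟨IntermediateField.fixingSubgroupEquiv F ⟨σ ^ N, hmem⟩, ?_, ?_, rfl⟩
  · infer_instance
  · intro τ
    have h1 : (((IntermediateField.fixingSubgroupEquiv F).symm τ : F.fixingSubgroup) :
        K ≃ₐ[k] K) ∈ Subgroup.zpowers (σ ^ N) := by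
      rw [← hfix]
      exact Subtype.property _
    obtain ⟨i, hi⟩ := Subgroup.mem_zpowers_iff.1 h1
    refine Subgroup.mem_zpowers_iff.2 ⟨i, ?_⟩
    rw [← map_zpow]
    apply (IntermediateField.fixingSubgroupEquiv F).symm.injective
    rw [MulEquiv.symm_apply_apply]
    apply Subtype.ext
    rw [← hi]
    rfl

end INV

open _root_.Pool.Agent.HB.INV in
/-- (INV) the rank of the fixed `S`-units -/
theorem th_INV (hSUR : Sh_SUR) (hGJ : Sh_GJ) (hPLC : Sh_PLC) (hORN : Sh_ORN) (hORG : Sh_ORG) :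
    Sh_INV := by
  classical
  intro k K _ _ _ _ _ l m σ hl hC hTC S
  obtain ⟨-, -, -, -, -, -, -, o7, o8⟩ := hORG k K (l ^ m) σ hC
  refine ⟨?_, ?_⟩
  · have hfin : (abv k K (S : Set (HeightOneSpectrum (𝓞 k)))).Finite := by
      have : abv k K (S : Set (HeightOneSpectrum (𝓞 k))) =
          ⋃ v ∈ S, {w : HeightOneSpectrum (𝓞 K) | Lies k K v w} := by
        ext w
        simp [abv]
      rw [this]
      refine Set.Finite.biUnion S.finite_toSet ?_
      intro v _
      exact Set.finite_coe_iff.1 (o7 v)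
    have h := (hSUR K hfin.toFinset).1
    rw [Set.Finite.coe_toFinset] at h
    exact h
  · intro j hj
    obtain ⟨F, hF⟩ := exists_fix σ (l ^ j)
    obtain ⟨τ, hτ⟩ := cyc_top hC _ F hF
    obtain ⟨g1, g2⟩ := hGJ k K l m σ hl hC j hj F hF
    obtain ⟨-, p2⟩ := hPLC k F hTC
    obtain ⟨-, -, -, -, r5, -⟩ := hORN F K _ τ hτ
    obtain ⟨-, -, -, -, -, q5, q6, -, -⟩ := hORG F K _ τ hτ
    have hfv : ∀ v : HeightOneSpectrum (𝓞 k),
        {u : HeightOneSpectrum (𝓞 F) | Lies k F v u}.Finite := by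
      intro v
      refine Set.finite_coe_iff.1 (Nat.finite_of_card_ne_zero ?_)
      have h1 : Nat.card {u : HeightOneSpectrum (𝓞 F) // Lies k F v u} = gpr k F v := rfl
      have h2 : min (l ^ j) (gpr k K v) ≠ 0 := by
        have h3 := (o8 v).2
        have h4 : l ^ j ≠ 0 := pow_ne_zero _ hl.ne_zero
        omega
      rw [← g2 v, ← h1] at h2
      exact h2
    have hcard : ∀ v : HeightOneSpectrum (𝓞 k), (hfv v).toFinset.card = gpr k F v := by
      intro v
      unfold gpr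
      rw [← Set.ncard_eq_toFinset_card _ (hfv v)]
      rfl
    set T : Finset (HeightOneSpectrum (𝓞 F)) := S.biUnion (fun v => (hfv v).toFinset) with hT
    have hTc : T.card = ∑ v ∈ S, min (l ^ j) (gpr k K v) := by
      rw [hT, Finset.card_biUnion]
      · refine Finset.sum_congr rfl fun v _ => ?_
        rw [hcard, g2]
      · intro v _ v' _ hne
        refine Finset.disjoint_left.2 ?_
        intro u h1 h2
        rw [Set.Finite.mem_toFinset] at h1 h2
        refine hne (HeightOneSpectrum.ext ?_)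
        have h1' : u.asIdeal.under (𝓞 k) = v.asIdeal := h1
        have h2' : u.asIdeal.under (𝓞 k) = v'.asIdeal := h2
        rw [← h1', ← h2']
    have hTa : (T : Set (HeightOneSpectrum (𝓞 F))) =
        abv k F (S : Set (HeightOneSpectrum (𝓞 k))) := by
      ext u
      simp [hT, abv]
    have hrk := (hSUR F T).2
    rw [hTa, hTc, p2, g1] at hrk
    rw [← hrk]
    congr 1
    rw [← rk_map (iu F K) (iu_inj F K)]
    congr 1
    ext x
    constructor
    · rintro ⟨hx1, hx2⟩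
      have hx3 : (⇑σ)^[l ^ j] (x : K) = x := by
        rw [← su_iter]
        exact congrArg (fun z : Kˣ => (z : K)) hx2
      have hx4 : (x : K) ∈ F := (hF _).2 hx3
      have hy0 : (⟨(x : K), hx4⟩ : F) ≠ 0 := by
        intro h
        exact x.ne_zero (congrArg Subtype.val h)
      refine ⟨Units.mk0 _ hy0, ?_, ?_⟩
      · intro u hu
        obtain ⟨w, hw⟩ := q5 u
        obtain ⟨e, he, hew⟩ := r5 u w hw
        have h1 := hew (Units.mk0 _ hy0)
        have h2 : iu F K (Units.mk0 _ hy0) = x := by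
          apply Units.ext
          rfl
        have h3 : w ∉ abv k K (S : Set (HeightOneSpectrum (𝓞 k))) := by
          rintro ⟨v, hv, hvw⟩
          exact hu ⟨v, hv, (lies_trans hw).2 hvw⟩
        rw [h2, hx1 w h3] at h1
        have h4 : (e : ℤ) ≠ 0 := by
          exact_mod_cast (by omega : e ≠ 0)
        exact (mul_eq_zero.1 h1.symm).resolve_left h4
      · apply Units.ext
        rfl
    · rintro ⟨y, hy, rfl⟩
      refine ⟨?_, ?_⟩
      · intro w hw
        obtain ⟨u, hu⟩ := q6 w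
        obtain ⟨e, he, hew⟩ := r5 u w hu
        have h3 : u ∉ abv k F (S : Set (HeightOneSpectrum (𝓞 k))) := by
          rintro ⟨v, hv, hvw⟩
          exact hw ⟨v, hv, (lies_trans hu).1 hvw⟩
        rw [hew, hy u h3, mul_zero]
      · show (⇑(su σ))^[l ^ j] (iu F K y) = iu F K y
        apply Units.ext
        rw [su_iter]
        exact (hF _).1 (y : F).2

end Pool.Agent.HB


end

section

/-!
# HB, module SUR: the rank of the `T`-units
-/

set_option autoImplicit false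

open NumberField IsDedekindDomain
open scoped nonZeroDivisors

namespace Pool.Agent.HB

noncomputable section

namespace SURx

/-- the rank of an extension of a nonzero subgroup of `ℤ` -/
lemma rank_step {M : Type} [AddCommGroup M] (f : M →ₗ[ℤ] ℤ)
    (hfin : Module.Finite ℤ (LinearMap.ker f)) (x : M) (hx : f x ≠ 0) :
    Module.Finite ℤ M ∧
      Module.finrank ℤ M = Module.finrank ℤ (LinearMap.ker f) + 1 := by
  have h1 : Module.Finite ℤ (M ⧸ LinearMap.ker f) :=
    Module.Finite.equiv f.quotKerEquivRange.symm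
  have h2 : Module.Finite ℤ M := Module.Finite.of_submodule_quotient (LinearMap.ker f)
  refine ⟨h2, ?_⟩
  rw [← (LinearMap.ker f).finrank_quotient_add_finrank, f.quotKerEquivRange.finrank_eq, add_comm]
  congr 1
  obtain ⟨a, ha⟩ : ∃ a : ℤ, LinearMap.range f = Submodule.span ℤ {a} :=
    (IsPrincipalIdealRing.principal (LinearMap.range f : Ideal ℤ)).principal
  have ha0 : a ≠ 0 := by
    rintro rfl
    have h3 : f x ∈ LinearMap.range f := ⟨x, rfl⟩
    rw [ha, Submodule.span_zero_singleton, Submodule.mem_bot] at h3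
    exact hx h3
  rw [ha, ← (LinearEquiv.toSpanNonzeroSingleton ℤ ℤ a ha0).finrank_eq, Module.finrank_self]

variable {F : Type} [Field F] [NumberField F]

/-- an element with prescribed divisor a power of `w` -/
lemma exists_pow (hO : Sh_ORD) (w : HeightOneSpectrum (𝓞 F)) :
    ∃ x : Fˣ, ord w x ≠ 0 ∧ ∀ w' ≠ w, ord w' x = 0 := by
  obtain ⟨-, -, h3, -⟩ := hO F
  have hw0 : w.asIdeal ∈ (Ideal (𝓞 F))⁰ := mem_nonZeroDivisors_of_ne_zero w.ne_bot
  set h : ℕ := Fintype.card (ClassGroup (𝓞 F)) with hh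
  have hpos : h ≠ 0 := Fintype.card_ne_zero
  have h4 : ClassGroup.mk0 ((⟨w.asIdeal, hw0⟩ : (Ideal (𝓞 F))⁰) ^ h) = 1 := by
    rw [map_pow, hh, pow_card_eq_one]
  have h5 : (w.asIdeal ^ h).IsPrincipal := by
    have h6 := (ClassGroup.mk0_eq_one_iff
      (((⟨w.asIdeal, hw0⟩ : (Ideal (𝓞 F))⁰) ^ h).2)).1 h4
    simpa using h6
  obtain ⟨a, ha⟩ := h5.principal
  have ha' : w.asIdeal ^ h = Ideal.span {a} := ha
  have ha0 : a ≠ 0 := by
    rintro rfl
    rw [Ideal.span_singleton_zero] at ha'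
    exact pow_ne_zero h w.ne_bot ha'
  have haF : (a : F) ≠ 0 := by
    intro h0
    exact ha0 (by exact_mod_cast h0)
  have key : ∀ w' : HeightOneSpectrum (𝓞 F), 0 ≤ ord w' (Units.mk0 (a : F) haF) ∧
      (0 < ord w' (Units.mk0 (a : F) haF) ↔ a ∈ w'.asIdeal) := fun w' =>
    h3 (Units.mk0 (a : F) haF) a rfl w'
  refine ⟨Units.mk0 (a : F) haF, ?_, ?_⟩
  · have h6 : a ∈ w.asIdeal := by
      have h7 : a ∈ w.asIdeal ^ h := by
        rw [ha']
        exact Ideal.mem_span_singleton_self a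
      exact Ideal.pow_le_self hpos h7
    exact ((key w).2.2 h6).ne'
  · intro w' hw'
    by_contra hne
    have h6 : 0 < ord w' (Units.mk0 (a : F) haF) := lt_of_le_of_ne (key w').1 (Ne.symm hne)
    have h7 := (key w').2.1 h6
    have h8 : w.asIdeal ^ h ≤ w'.asIdeal := by
      rw [ha', Ideal.span_singleton_le_iff_mem]
      exact h7
    have h9 : w.asIdeal ≤ w'.asIdeal := w'.isPrime.le_of_pow_le h8
    have h10 : w.asIdeal = w'.asIdeal := w.isMaximal.eq_of_le w'.isPrime.ne_top h9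
    exact hw' (HeightOneSpectrum.ext h10.symm)

/-- the units of the ring of integers are the `∅`-units -/
lemma base (hO : Sh_ORD) :
    Nonempty ((𝓞 F)ˣ ≃* EU ((∅ : Finset (HeightOneSpectrum (𝓞 F))) :
      Set (HeightOneSpectrum (𝓞 F)))) := by
  obtain ⟨-, h2, h3, -⟩ := hO F
  have hmem : ∀ u : (𝓞 F)ˣ, Units.map (algebraMap (𝓞 F) F : 𝓞 F →* F) u ∈
      EU ((∅ : Finset (HeightOneSpectrum (𝓞 F))) : Set (HeightOneSpectrum (𝓞 F))) := by
    intro u w _
    have h4 := (h3 (Units.map (algebraMap (𝓞 F) F : 𝓞 F →* F) u) (u : 𝓞 F) rfl w).1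
    have h5 := (h3 (Units.map (algebraMap (𝓞 F) F : 𝓞 F →* F) u⁻¹) ((u⁻¹ : (𝓞 F)ˣ) : 𝓞 F)
      rfl w).1
    rw [map_inv, ord_inv] at h5
    omega
  let f : (𝓞 F)ˣ →* EU ((∅ : Finset (HeightOneSpectrum (𝓞 F))) :
      Set (HeightOneSpectrum (𝓞 F))) :=
    (Units.map (algebraMap (𝓞 F) F : 𝓞 F →* F)).codRestrict _ hmem
  refine ⟨MulEquiv.ofBijective f ⟨?_, ?_⟩⟩
  · intro u v huv
    have h4 := congrArg (fun t : EU ((∅ : Finset (HeightOneSpectrum (𝓞 F))) :
      Set (HeightOneSpectrum (𝓞 F))) => ((t : Fˣ) : F)) huv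
    exact Units.ext (FaithfulSMul.algebraMap_injective (𝓞 F) F h4)
  · rintro ⟨x, hx⟩
    have h0 : ∀ w : HeightOneSpectrum (𝓞 F), ord w x = 0 := fun w => hx w (by simp)
    obtain ⟨y, hy⟩ := (h2 x).1 fun w => (h0 w).ge
    obtain ⟨z, hz⟩ := (h2 x⁻¹).1 fun w => by rw [ord_inv, h0 w, neg_zero]
    have hyz : y * z = 1 := by
      have h6 : algebraMap (𝓞 F) F (y * z) = algebraMap (𝓞 F) F 1 := by
        rw [map_mul, map_one]
        exact (congrArg₂ (· * ·) hy hz).trans x.mul_inv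
      exact FaithfulSMul.algebraMap_injective (𝓞 F) F h6
    refine ⟨⟨y, z, hyz, by rw [mul_comm, hyz]⟩, ?_⟩
    apply Subtype.ext
    apply Units.ext
    exact hy

/-- `ord w` as a linear map on the `T`-units -/
def ordL (U : Subgroup Fˣ) (w : HeightOneSpectrum (𝓞 F)) : Additive U →ₗ[ℤ] ℤ :=
  AddMonoidHom.toIntLinearMap
    { toFun := fun x => ord w ((Additive.toMul x : U) : Fˣ)
      map_zero' := ord_one w
      map_add' := fun _ _ => ord_mul w _ _ }

/-- the kernel of `ord w` on the `T ∪ {w}`-units -/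
lemma ker_equiv (T : Set (HeightOneSpectrum (𝓞 F))) (w : HeightOneSpectrum (𝓞 F)) (hw : w ∉ T) :
    Nonempty (Additive (EU T) ≃ₗ[ℤ] LinearMap.ker (ordL (EU (insert w T)) w)) := by
  have hle : EU T ≤ EU (insert w T) := fun x hx w' hw' =>
    hx w' fun h => hw' (Set.mem_insert_of_mem _ h)
  let g : Additive (EU T) →ₗ[ℤ] Additive (EU (insert w T)) :=
    AddMonoidHom.toIntLinearMap (MonoidHom.toAdditive (Subgroup.inclusion hle))
  have hg : ∀ x, g x ∈ LinearMap.ker (ordL (EU (insert w T)) w) := by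
    intro x
    rw [LinearMap.mem_ker]
    exact (Additive.toMul x : EU T).2 w hw
  refine ⟨LinearEquiv.ofBijective (g.codRestrict _ hg) ⟨?_, ?_⟩⟩
  · intro x y hxy
    have h1 : g x = g y := congrArg Subtype.val hxy
    exact Subgroup.inclusion_injective hle h1
  · rintro ⟨y, hy⟩
    rw [LinearMap.mem_ker] at hy
    have hy' : ((Additive.toMul y : EU (insert w T)) : Fˣ) ∈ EU T := by
      intro w' hw'
      by_cases h : w' = w
      · rw [h]
        exact hy
      · exact (Additive.toMul y : EU (insert w T)).2 w' (by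
          rintro (h1 | h1)
          · exact h h1
          · exact hw' h1)
    refine ⟨Additive.ofMul ⟨_, hy'⟩, ?_⟩
    apply Subtype.ext
    rfl

end SURx

open _root_.Pool.Agent.HB.SURx in
theorem th_SUR (hO : Sh_ORD) : Sh_SUR := by
  classical
  intro F _ _ T
  induction T using Finset.induction_on with
  | empty =>
    obtain ⟨e⟩ := base (F := F) hO
    have e' : Additive (𝓞 F)ˣ ≃ₗ[ℤ] Additive (EU ((∅ : Finset (HeightOneSpectrum (𝓞 F))) :
      Set (HeightOneSpectrum (𝓞 F)))) := (MulEquiv.toAdditive e).toIntLinearEquiv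
    refine ⟨Module.Finite.equiv e', ?_⟩
    unfold rk
    rw [← e'.finrank_eq, NumberField.Units.finrank_eq, NumberField.Units.rank,
      Finset.card_empty, add_zero]
    have : 0 < Fintype.card (InfinitePlace F) := Fintype.card_pos
    omega
  | insert w T hw ih =>
    obtain ⟨ih1, ih2⟩ := ih
    obtain ⟨e⟩ := ker_equiv (T : Set (HeightOneSpectrum (𝓞 F))) w (by simpa using hw)
    obtain ⟨x, hx1, hx2⟩ := exists_pow hO w
    have hxm : x ∈ EU (insert w (T : Set (HeightOneSpectrum (𝓞 F)))) := fun w' hw' =>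
      hx2 w' fun h => hw' (h ▸ Set.mem_insert _ _)
    have hfin : Module.Finite ℤ
        (LinearMap.ker (ordL (EU (insert w (T : Set (HeightOneSpectrum (𝓞 F))))) w)) :=
      Module.Finite.equiv e
    obtain ⟨k1, k2⟩ := rank_step _ hfin (Additive.ofMul ⟨x, hxm⟩) hx1
    rw [Finset.coe_insert]
    refine ⟨k1, ?_⟩
    unfold rk at ih2 ⊢
    rw [k2, ← e.finrank_eq, Finset.card_insert_of_notMem hw]
    omega

end

end Pool.Agent.HB


end

section

/-!
# HB: module RMF (helper7)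

Almost all primes are unramified.
-/

set_option autoImplicit false

open NumberField IsDedekindDomain
open scoped nonZeroDivisors

namespace Pool.Agent.HB

theorem rmf_dvd (k K : Type) [Field k] [NumberField k] [Field K] [NumberField K] [Algebra k K]
    (p : Ideal (𝓞 k)) [p.IsMaximal] (P : Ideal (𝓞 K)) (hp : p ≠ ⊥)
    (hP : P ^ 2 ∣ p.map (algebraMap (𝓞 k) (𝓞 K))) : P ∣ differentIdeal (𝓞 k) (𝓞 K) := by
  simpa using pow_sub_one_dvd_differentIdeal_aux (𝓞 k) k K P (e := 2) (by norm_num) hp hP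

theorem rmf_ram (k K : Type) [Field k] [NumberField k] [Field K] [NumberField K] [Algebra k K]
    (v : HeightOneSpectrum (𝓞 k)) (w : HeightOneSpectrum (𝓞 K)) (h : Lies k K v w)
    (hw : ¬ w.asIdeal ∣ differentIdeal (𝓞 k) (𝓞 K)) (x : kˣ) :
    ord w (iu k K x) = ord v x := by
  have hl : w.asIdeal.LiesOver v.asIdeal := ⟨h.symm⟩
  have h1 := HeightOneSpectrum.valuation_liesOver (K := k) K v w (x : k)
  have h0 : v.asIdeal.ramificationIdx' w.asIdeal ≠ 0 :=
    Ideal.IsDedekindDomain.ramificationIdx'_ne_zero_of_liesOver w.asIdeal v.ne_bot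
  have h2 : ¬ 2 ≤ v.asIdeal.ramificationIdx' w.asIdeal := by
    intro h2
    refine hw (rmf_dvd k K v.asIdeal w.asIdeal v.ne_bot ?_)
    exact Ideal.dvd_iff_le.mpr (Ideal.map_le_iff_le_comap.mpr
      (Ideal.map_le_iff_le_comap.mp (Ideal.le_pow_of_le_ramificationIdx' h2)))
  have h3 : v.asIdeal.ramificationIdx' w.asIdeal = 1 := by omega
  rw [h3, pow_one] at h1
  unfold ord
  rw [h1]
  rfl

theorem th_RMF : Sh_RMF := by
  intro k K _ _ _ _ _
  have hne : differentIdeal (𝓞 k) (𝓞 K) ≠ 0 := differentIdeal_ne_bot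
  have hfin := Ideal.finite_factors hne
  have hf2 : {v : HeightOneSpectrum (𝓞 k) | ∃ w : HeightOneSpectrum (𝓞 K),
      w.asIdeal ∣ differentIdeal (𝓞 k) (𝓞 K) ∧ Lies k K v w}.Finite := by
    classical
    have hf3 := hfin.image (fun w : HeightOneSpectrum (𝓞 K) => w.asIdeal.under (𝓞 k))
    refine Set.Finite.of_finite_image (f := fun v : HeightOneSpectrum (𝓞 k) => v.asIdeal)
      (hf3.subset ?_) ?_
    · rintro _ ⟨v, ⟨w, hw, hv⟩, rfl⟩
      exact ⟨w, hw, hv⟩
    · intro a _ b _ hab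
      exact HeightOneSpectrum.ext hab
  refine ⟨hf2.toFinset, ?_⟩
  intro v hv w hw x
  refine rmf_ram k K v w hw ?_ x
  intro hd
  exact hv (hf2.mem_toFinset.mpr ⟨w, hd, hw⟩)

end Pool.Agent.HB


end

section

/-!
# HB, module WAP: weak approximation with multiplicative congruences
-/

set_option autoImplicit false

open NumberField IsDedekindDomain
open scoped nonZeroDivisors

namespace Pool.Agent.HB

/-- WAP. -/
theorem th_WAP : Sh_WAP := by
  classical
  intro k _ _ T y M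
  rcases T.eq_empty_or_nonempty with rfl | ⟨v₀, hv₀⟩
  · exact ⟨1, fun v hv => absurd hv (Finset.notMem_empty v)⟩
  obtain ⟨b, hb⟩ := IsLocalization.exist_integer_multiples_of_finset (nonZeroDivisors (𝓞 k))
    (T.image fun v => (y v : k))
  have hb0 : algebraMap (𝓞 k) k (b : 𝓞 k) ≠ 0 := by
    rw [Ne, FaithfulSMul.algebraMap_eq_zero_iff]
    exact nonZeroDivisors.coe_ne_zero b
  have hex : ∀ v ∈ T, ∃ a : 𝓞 k, algebraMap (𝓞 k) k a = algebraMap (𝓞 k) k (b : 𝓞 k) * y v := by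
    intro v hv
    obtain ⟨a, ha⟩ := hb (y v : k) (Finset.mem_image_of_mem _ hv)
    exact ⟨a, by rw [ha, Algebra.smul_def]⟩
  choose! a ha using hex
  have ha0 : ∀ v ∈ T, algebraMap (𝓞 k) k (a v) ≠ 0 := by
    intro v hv
    rw [ha v hv]
    exact mul_ne_zero hb0 (y v).ne_zero
  have hex2 : ∀ v ∈ T, ∃ e : ℕ, WithZero.exp (-(e : ℤ)) ≤
      WithZero.exp (-((M + 1 : ℕ) : ℤ)) * v.valuation k (algebraMap (𝓞 k) k (a v)) := by
    intro v hv
    have h1 := ord_val v (Units.mk0 _ (ha0 v hv))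
    rw [Units.val_mk0] at h1
    refine ⟨(((M + 1 : ℕ) : ℤ) + ord v (Units.mk0 _ (ha0 v hv))).toNat, ?_⟩
    rw [h1, ← WithZero.exp_add, WithZero.exp_le_exp]
    have h2 := Int.self_le_toNat (((M + 1 : ℕ) : ℤ) + ord v (Units.mk0 _ (ha0 v hv)))
    omega
  choose! e he using hex2
  obtain ⟨c, hc⟩ := IsDedekindDomain.exists_forall_sub_mem_ideal (s := T)
    (fun v : HeightOneSpectrum (𝓞 k) => v.asIdeal) e (fun v _ => v.prime)
    (fun v _ w _ h h' => h (HeightOneSpectrum.ext h')) (fun v => a v.1)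
  have key : ∀ v ∈ T, v.valuation k (algebraMap (𝓞 k) k c / algebraMap (𝓞 k) k (a v) - 1) ≤
      WithZero.exp (-((M + 1 : ℕ) : ℤ)) := by
    intro v hv
    have h1 : v.valuation k (algebraMap (𝓞 k) k (c - a v)) ≤ WithZero.exp (-(e v : ℤ)) := by
      rw [HeightOneSpectrum.valuation_of_algebraMap, HeightOneSpectrum.intValuation_le_pow_iff_mem]
      exact hc v hv
    have h2 : algebraMap (𝓞 k) k c / algebraMap (𝓞 k) k (a v) - 1 =
        algebraMap (𝓞 k) k (c - a v) / algebraMap (𝓞 k) k (a v) := by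
      rw [map_sub, sub_div, div_self (ha0 v hv)]
    have h3 : v.valuation k (algebraMap (𝓞 k) k (a v)) ≠ 0 :=
      (Valuation.ne_zero_iff _).2 (ha0 v hv)
    rw [h2, map_div₀, div_le_iff₀ (zero_lt_iff.2 h3)]
    exact h1.trans (he v hv)
  have hc0 : algebraMap (𝓞 k) k c ≠ 0 := by
    intro h0
    have h1 := key v₀ hv₀
    rw [h0, zero_div, zero_sub, Valuation.map_neg, map_one, ← WithZero.exp_zero,
      WithZero.exp_le_exp] at h1
    omega
  refine ⟨Units.mk0 (algebraMap (𝓞 k) k c / algebraMap (𝓞 k) k (b : 𝓞 k))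
    (div_ne_zero hc0 hb0), fun v hv => ?_⟩
  have h1 : ((Units.mk0 (algebraMap (𝓞 k) k c / algebraMap (𝓞 k) k (b : 𝓞 k))
      (div_ne_zero hc0 hb0) * (y v)⁻¹ : kˣ) : k) =
      algebraMap (𝓞 k) k c / algebraMap (𝓞 k) k (a v) := by
    rw [Units.val_mul, Units.val_mk0, Units.val_inv_eq_inv_val, ha v hv, ← div_eq_mul_inv,
      div_div]
  rw [h1]
  refine (key v hv).trans ?_
  rw [WithZero.exp_le_exp]
  omega

end Pool.Agent.HB


end

section

/-!
# HB, module LAT: the Herbrand quotient of a finitely generated group with torsion (helper29)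

`U₁ = U^w` with `w` the order of the torsion subgroup of `U`.
-/

set_option autoImplicit false

namespace Pool.Agent.HB

noncomputable section

namespace LAT

variable {G : Type} [CommGroup G]

/-- the inclusion as a linear map -/
def inc {A B : Subgroup G} (h : A ≤ B) : Additive A →ₗ[ℤ] Additive B :=
  (MonoidHom.toAdditive (Subgroup.inclusion h)).toIntLinearMap

lemma inc_inj {A B : Subgroup G} (h : A ≤ B) : Function.Injective (inc h) :=
  fun _ _ hxy => Subgroup.inclusion_injective h hxy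

lemma fin_mono {A B : Subgroup G} (h : A ≤ B) (hf : Module.Finite ℤ (Additive B)) :
    Module.Finite ℤ (Additive A) := by
  have : IsNoetherian ℤ (Additive B) := isNoetherian_of_isNoetherianRing_of_finite ℤ (Additive B)
  exact Module.Finite.of_injective (inc h) (inc_inj h)

lemma tors_quot {A B : Subgroup G} (h : A ≤ B) (w : ℕ) (hw : w ≠ 0) (hp : ∀ x ∈ B, x ^ w ∈ A) :
    Module.IsTorsion ℤ (Additive B ⧸ LinearMap.range (inc h)) := by
  intro x
  obtain ⟨y, rfl⟩ := Submodule.Quotient.mk_surjective _ x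
  refine ⟨⟨(w : ℤ), mem_nonZeroDivisors_of_ne_zero (by exact_mod_cast hw)⟩, ?_⟩
  show (w : ℤ) • Submodule.Quotient.mk y = (0 : Additive B ⧸ LinearMap.range (inc h))
  rw [← Submodule.Quotient.mk_smul, Submodule.Quotient.mk_eq_zero]
  refine ⟨Additive.ofMul ⟨((Additive.toMul y : B) : G) ^ w, hp _ (Additive.toMul y).2⟩, ?_⟩
  rw [natCast_zsmul]
  rfl

lemma rk_eq {A B : Subgroup G} (h : A ≤ B) (hf : Module.Finite ℤ (Additive B)) (w : ℕ)
    (hw : w ≠ 0) (hp : ∀ x ∈ B, x ^ w ∈ A) : rk A = rk B := by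
  have h1 := Submodule.finrank_quotient_add_finrank (LinearMap.range (inc h))
  have h2 : Module.finrank ℤ (Additive B ⧸ LinearMap.range (inc h)) = 0 :=
    Module.finrank_eq_zero_iff_isTorsion.2 (tors_quot h w hw hp)
  have h3 : Module.finrank ℤ (LinearMap.range (inc h)) = Module.finrank ℤ (Additive A) :=
    (LinearEquiv.ofInjective (inc h) (inc_inj h)).symm.finrank_eq
  rw [h2, h3, zero_add] at h1
  exact h1

lemma ix_ne {A B : Subgroup G} (h : A ≤ B) (hf : Module.Finite ℤ (Additive B)) (w : ℕ)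
    (hw : w ≠ 0) (hp : ∀ x ∈ B, x ^ w ∈ A) : A.relIndex B ≠ 0 := by
  have h1 : Finite (Additive B ⧸ LinearMap.range (inc h)) :=
    Module.finite_of_fg_torsion _ (tors_quot h w hw hp)
  have h2 : Finite (B ⧸ A.subgroupOf B) := by
    let f : (B ⧸ A.subgroupOf B) → (Additive B ⧸ LinearMap.range (inc h)) :=
      Quotient.lift (fun x => Submodule.Quotient.mk (Additive.ofMul x)) (by
        intro x y hxy
        rw [Submodule.Quotient.eq]
        have h3 : x⁻¹ * y ∈ A.subgroupOf B := QuotientGroup.leftRel_apply.1 hxy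
        have h4 : x / y ∈ A.subgroupOf B := by
          have e : x / y = (x⁻¹ * y)⁻¹ := by
            rw [mul_inv_rev, inv_inv, div_eq_mul_inv, mul_comm]
          rw [e]
          exact inv_mem h3
        exact ⟨Additive.ofMul ⟨((x / y : B) : G), h4⟩, rfl⟩)
    refine Finite.of_injective f ?_
    intro a b hab
    obtain ⟨x, rfl⟩ := QuotientGroup.mk_surjective a
    obtain ⟨y, rfl⟩ := QuotientGroup.mk_surjective b
    have h5 : (Submodule.Quotient.mk (Additive.ofMul x) :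
      Additive B ⧸ LinearMap.range (inc h)) = Submodule.Quotient.mk (Additive.ofMul y) := hab
    rw [Submodule.Quotient.eq] at h5
    obtain ⟨z, hz⟩ := h5
    rw [QuotientGroup.eq]
    have h6 : x / y ∈ A.subgroupOf B := by
      have h7 : (Additive.toMul (inc h z) : B) = x / y := congrArg Additive.toMul hz
      rw [← h7]
      exact (Additive.toMul z).2
    have e : x⁻¹ * y = (x / y)⁻¹ := by rw [inv_div, div_eq_mul_inv, mul_comm]
    rw [e]
    exact inv_mem h6
  unfold Subgroup.relIndex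
  exact Subgroup.index_ne_zero_of_finite

/-- the exponent of the torsion subgroup -/
lemma expo (U : Subgroup G) (hf : Module.Finite ℤ (Additive U)) :
    ∃ w : ℕ, w ≠ 0 ∧ ∀ x ∈ U, ∀ j : ℕ, j ≠ 0 → x ^ j = 1 → x ^ w = 1 := by
  have : IsNoetherian ℤ (Additive U) := isNoetherian_of_isNoetherianRing_of_finite ℤ (Additive U)
  have h1 : Finite (Submodule.torsion ℤ (Additive U)) :=
    Module.finite_of_fg_torsion _ (Submodule.torsion_isTorsion)
  refine ⟨Nat.card (Submodule.torsion ℤ (Additive U)), Nat.card_pos.ne', ?_⟩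
  intro x hx j hj hxj
  have h2 : Additive.ofMul (⟨x, hx⟩ : U) ∈ Submodule.torsion ℤ (Additive U) := by
    refine ⟨⟨(j : ℤ), mem_nonZeroDivisors_of_ne_zero (by exact_mod_cast hj)⟩, ?_⟩
    show (j : ℤ) • Additive.ofMul (⟨x, hx⟩ : U) = 0
    rw [natCast_zsmul, ← ofMul_pow]
    have h3 : (⟨x, hx⟩ : U) ^ j = 1 := Subtype.ext hxj
    rw [h3]
    rfl
  have h4 := card_nsmul_eq_zero' (x := (⟨Additive.ofMul (⟨x, hx⟩ : U), h2⟩ :
    Submodule.torsion ℤ (Additive U)))
  have h5 := congrArg Subtype.val h4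
  have h6 := congrArg (fun y : Additive U => ((Additive.toMul y : U) : G)) h5
  exact h6

end LAT

open _root_.Pool.Agent.HB.LAT in
/-- (LAT) the Herbrand quotient from the ranks of the fixed subgroups -/
theorem th_LAT (h1 : Sh_HQ) (h2 : Sh_FIN) (h3 : Sh_LTF) : Sh_LAT := by
  intro G _ l m s hl hs U hU hf
  obtain ⟨w, hw, hexp⟩ := expo U hf
  set U₁ : Subgroup G := U.map (powMonoidHom w) with hU₁
  have hle : U₁ ≤ U := by
    rintro _ ⟨x, hx, rfl⟩
    exact pow_mem hx w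
  have hst : Stb s U₁ := by
    rintro _ ⟨x, hx, rfl⟩
    refine ⟨s x, hU x hx, ?_⟩
    show (s x) ^ w = s (x ^ w)
    rw [map_pow]
  have hf₁ : Module.Finite ℤ (Additive U₁) := fin_mono hle hf
  have htf : ∀ x ∈ U₁, ∀ j : ℕ, j ≠ 0 → x ^ j = 1 → x = 1 := by
    rintro _ ⟨x, hx, rfl⟩ j hj hxj
    have h4 : x ^ (w * j) = 1 := by
      rw [pow_mul]
      exact hxj
    exact hexp x hx (w * j) (mul_ne_zero hw hj) h4
  have hrk : ∀ i : ℕ, rk (U₁ ⊓ fixS s i) = rk (U ⊓ fixS s i) := by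
    intro i
    refine rk_eq (inf_le_inf_right _ hle) (fin_mono inf_le_left hf) w hw ?_
    rintro x ⟨hxU, hxF⟩
    exact ⟨⟨x, hxU, rfl⟩, pow_mem hxF w⟩
  have hix : U₁.relIndex U ≠ 0 := ix_ne hle hf w hw fun x hx => ⟨x, hx, rfl⟩
  obtain ⟨hF1, hF2⟩ := h2 G (l ^ m) s hs U U₁ hle hU hst hix
  obtain ⟨hA, hB, a, ha, hab⟩ := h3 G l m s hl hs U₁ hst hf₁ htf
  have hbot : Stb s (⊥ : Subgroup G) := by
    intro x hx
    rw [Subgroup.mem_bot] at hx ⊢
    rw [hx, map_one]
  obtain ⟨hC, hD, hQ⟩ := h1 G (l ^ m) s hs U U₁ ⊥ bot_le hle hU hst hbot hF2 (hF1 ▸ hF2) hA hB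
  refine ⟨hC, hD, a, ?_, ?_⟩
  · intro j hj
    rw [← hrk, ← hrk]
    exact ha j hj
  · rw [← hrk 1]
    rw [hF1] at hQ hF2
    have e1 : t0 (l ^ m) s U ⊥ * t1 (l ^ m) s U₁ ⊥ = t1 (l ^ m) s U ⊥ * t0 (l ^ m) s U₁ ⊥ := by
      apply Nat.eq_of_mul_eq_mul_left (Nat.pos_of_ne_zero hF2)
      calc t1 (l ^ m) s U U₁ * (t0 (l ^ m) s U ⊥ * t1 (l ^ m) s U₁ ⊥)
          = t0 (l ^ m) s U ⊥ * (t1 (l ^ m) s U U₁ * t1 (l ^ m) s U₁ ⊥) := by ring
        _ = t1 (l ^ m) s U ⊥ * (t1 (l ^ m) s U U₁ * t0 (l ^ m) s U₁ ⊥) := hQ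
        _ = t1 (l ^ m) s U U₁ * (t1 (l ^ m) s U ⊥ * t0 (l ^ m) s U₁ ⊥) := by ring
    apply Nat.eq_of_mul_eq_mul_left (Nat.pos_of_ne_zero hB)
    calc t1 (l ^ m) s U₁ ⊥ * (t0 (l ^ m) s U ⊥ * l ^ (∑ j ∈ Finset.range m, a j))
        = (t0 (l ^ m) s U ⊥ * t1 (l ^ m) s U₁ ⊥) * l ^ (∑ j ∈ Finset.range m, a j) := by ring
      _ = t1 (l ^ m) s U ⊥ * (t0 (l ^ m) s U₁ ⊥ * l ^ (∑ j ∈ Finset.range m, a j)) := by
          rw [e1]; ring
      _ = t1 (l ^ m) s U ⊥ * (t1 (l ^ m) s U₁ ⊥ * l ^ (m * rk (U₁ ⊓ fixS s 1))) := by rw [hab]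
      _ = t1 (l ^ m) s U₁ ⊥ * (t1 (l ^ m) s U ⊥ * l ^ (m * rk (U₁ ⊓ fixS s 1))) := by ring

end

end Pool.Agent.HB


end
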