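import Mathlib
import Pool.Agent.MVF.C003
import Pool.Agent.MVF.C004

/-! Parts: MU3.ADefs, MUX.DefsX -/

namespace Pool.Agent.MU3A
end Pool.Agent.MU3A

section

/-!
# MU3, block A: definitions (the curve with complex multiplication by `O`)

Explicit curve `y² = x³ + a₂ x² + a₄ x + a₆` over `k = ℚ(w)`:
* `(A, B) = (-2, 0)`: `a₂ = 4`, `a₄ = 2`, `a₆ = 0`;
* `(A, B) = (-3, 1)`: `a₂ = δ`, `a₄ = -3`, `a₆ = -δ/4`, `δ = 2 w - 1 = √-11`.
`IsCM A B L Om`: the lattice `L` is `Om * emb O` and has the invariants of this curve;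
`xx z = ℘ z - a₂/3`, `yy z = ℘' z / 2`.
-/

set_option autoImplicit false

namespace Pool.Agent.MU3A

open _root_.MU3 _root_.Pool.Agent.MU3B Polynomial

noncomputable section

/-- `k = ℚ(w)` inside the complex numbers -/
abbrev kk (A B : ℤ) : IntermediateField ℚ ℂ := IntermediateField.adjoin ℚ {wC A B}

lemma wC_mem (A B : ℤ) : wC A B ∈ kk A B :=
  IntermediateField.subset_adjoin ℚ _ (Set.mem_singleton _)

lemma emb_mem {A B : ℤ} (x : OO A B) : emb x ∈ kk A B :=
  add_mem (intCast_mem _ _) (mul_mem (intCast_mem _ _) (wC_mem A B))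

/-- an element of `O` as an element of `k` -/
def ek {A B : ℤ} (x : OO A B) : kk A B := ⟨emb x, emb_mem x⟩

/-- the coefficient `a₂` -/
def a2 (A B : ℤ) : OO A B := if B = 0 then 4 else ⟨-1, 2⟩

/-- the coefficient `a₄` -/
def a4 (A B : ℤ) : OO A B := if B = 0 then 2 else -3

/-- four times the coefficient `a₆` -/
def a6 (A B : ℤ) : OO A B := if B = 0 then 0 else ⟨1, -2⟩

/-- the curve, over `k` -/
def EE (A B : ℤ) : WeierstrassCurve (kk A B) :=
  ⟨0, ek (a2 A B), 0, ek (a4 A B), ek (a6 A B) / 4⟩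

/-- the cubic polynomial `x³ + a₂ x² + a₄ x + a₆`, over `k` -/
def cub (A B : ℤ) : (kk A B)[X] :=
  X ^ 3 + C (ek (a2 A B)) * X ^ 2 + C (ek (a4 A B)) * X + C (ek (a6 A B) / 4)

/-- `x = ℘ - a₂/3` -/
def xx (A B : ℤ) (L : PeriodPair) (z : ℂ) : ℂ := L.weierstrassP z - emb (a2 A B) / 3

/-- `y = ℘'/2` -/
def yy (L : PeriodPair) (z : ℂ) : ℂ := L.derivWeierstrassP z / 2

/-- `L = Om * emb O` -/
structure IsLat (A B : ℤ) (L : PeriodPair) (Om : ℂ) : Prop where
  Om_ne : Om ≠ 0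
  mem : ∀ z : ℂ, z ∈ L.lattice ↔ ∃ x : OO A B, z = Om * emb x

/-- the normal form: `L = Om * emb O` and `g₂`, `g₃` are those of the explicit curve -/
structure IsCM (A B : ℤ) (L : PeriodPair) (Om : ℂ) : Prop extends IsLat A B L Om where
  g2 : L.g₂ = -4 * (emb (a4 A B) - emb (a2 A B) ^ 2 / 3)
  g3 : L.g₃ = -4 * (emb (a6 A B) / 4 + 2 * (emb (a2 A B) / 3) ^ 3 -
    emb (a4 A B) * (emb (a2 A B) / 3))

/-- the field `F_m = k(E[m])` -/
def TF {A B : ℤ} (L : PeriodPair) (m : OO A B) : IntermediateField (kk A B) ℂ :=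
  IntermediateField.adjoin (kk A B) {c | ∃ z : ℂ, emb m * z ∈ L.lattice ∧ z ∉ L.lattice ∧
    (c = xx A B L z ∨ c = yy L z)}

/-- the field `k(x(E[m]))` -/
def XF {A B : ℤ} (L : PeriodPair) (m : OO A B) : IntermediateField (kk A B) ℂ :=
  IntermediateField.adjoin (kk A B) {c | ∃ z : ℂ, emb m * z ∈ L.lattice ∧ z ∉ L.lattice ∧
    c = xx A B L z}

/-- the embedding `σ` of `F` acts on `E[m]` as multiplication by `a` (meaningful for
`TF L m ≤ F`) -/
def Act {A B : ℤ} (L : PeriodPair) {F : IntermediateField (kk A B) ℂ} (σ : F →ₐ[kk A B] ℂ)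
    (m a : OO A B) : Prop :=
  IsCoprime a m ∧ ∀ z : ℂ, emb m * z ∈ L.lattice → z ∉ L.lattice →
    emb a * z ∉ L.lattice ∧
    (∀ hx : xx A B L z ∈ F, σ ⟨xx A B L z, hx⟩ = xx A B L (emb a * z)) ∧
    ∀ hy : yy L z ∈ F, σ ⟨yy L z, hy⟩ = yy L (emb a * z)

/-- an automorphism of `F / k` as an embedding into `ℂ` -/
def em {A B : ℤ} {F : IntermediateField (kk A B) ℂ} (σ : F ≃ₐ[kk A B] F) : F →ₐ[kk A B] ℂ :=
  F.val.comp σ.toAlgHom

/-- `σ` is a Frobenius automorphism of `F / k` for the valuation ring `V` and the prime number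
`q` (the residue field of `k` has `q` elements) -/
def IsFrV {A B : ℤ} {F : IntermediateField (kk A B) ℂ} (V : ValuationSubring ℂ) (q : ℕ)
    (σ : F ≃ₐ[kk A B] F) : Prop :=
  ∀ x : F, (x : ℂ) ∈ V → (σ x : ℂ) - (x : ℂ) ^ q ∈ V.nonunits

/-- `lam` has norm `3` and multiplication by `lam` is given by
`x ↦ (x³ + n₂ x² + n₁ x + n₀)/(lam x + d₀)²`, `y ↦ y (x³ + m₂ x² + m₁ x + m₀)/(lam x + d₀)³` -/
structure Iso3 {A B : ℤ} (L : PeriodPair) (lam d0 n2 n1 n0 m2 m1 m0 : OO A B) : Prop where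
  ker : ∀ z, z ∉ L.lattice → (emb lam * z ∈ L.lattice ↔ emb lam * xx A B L z + emb d0 = 0)
  x : ∀ z, emb lam * z ∉ L.lattice → xx A B L (emb lam * z) * (emb lam * xx A B L z + emb d0) ^ 2 =
    xx A B L z ^ 3 + emb n2 * xx A B L z ^ 2 + emb n1 * xx A B L z + emb n0
  y : ∀ z, emb lam * z ∉ L.lattice → yy L (emb lam * z) * (emb lam * xx A B L z + emb d0) ^ 3 =
    yy L z * (xx A B L z ^ 3 + emb m2 * xx A B L z ^ 2 + emb m1 * xx A B L z + emb m0)

/-- `z` is zero or in the kernel of reduction at `V` -/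
def InE1 (A B : ℤ) (V : ValuationSubring ℂ) (L : PeriodPair) (z : ℂ) : Prop :=
  z ∈ L.lattice ∨ xx A B L z ∉ V

/-! ### Elementary facts -/

section
variable {A B : ℤ}

lemma emb_mul (h : Case A B) (x y : OO A B) : emb (x * y) = emb x * emb y := by
  simpa only [embHom_apply] using map_mul (embHom h) x y

lemma emb_add (h : Case A B) (x y : OO A B) : emb (x + y) = emb x + emb y := by
  simpa only [embHom_apply] using map_add (embHom h) x y

lemma emb_neg (h : Case A B) (x : OO A B) : emb (-x) = -emb x := by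
  simpa only [embHom_apply] using map_neg (embHom h) x

lemma emb_sub (h : Case A B) (x y : OO A B) : emb (x - y) = emb x - emb y := by
  simpa only [embHom_apply] using map_sub (embHom h) x y

lemma emb_one (h : Case A B) : emb (1 : OO A B) = 1 := by
  simpa only [embHom_apply] using map_one (embHom h)

lemma emb_zero (h : Case A B) : emb (0 : OO A B) = 0 := by
  simpa only [embHom_apply] using map_zero (embHom h)

lemma emb_natCast (h : Case A B) (n : ℕ) : emb (n : OO A B) = n := by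
  simpa only [embHom_apply] using map_natCast (embHom h) n

lemma emb_intCast (h : Case A B) (n : ℤ) : emb (n : OO A B) = n := by
  simpa only [embHom_apply] using map_intCast (embHom h) n

lemma emb_w : emb (⟨0, 1⟩ : OO A B) = wC A B := by simp [emb]

lemma absD_pos (h : Case A B) : 0 < absD A B := by
  rcases h with ⟨rfl, rfl⟩ | ⟨rfl, rfl⟩ <;> norm_num [absD]

lemma wC_im_pos (h : Case A B) : 0 < (wC A B).im := by
  have h1 : (0 : ℝ) < Real.sqrt (absD A B) := Real.sqrt_pos.2 (by exact_mod_cast absD_pos h)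
  have h2 : (wC A B).im = Real.sqrt (absD A B) / 2 := by
    simp [wC, Complex.add_im, Complex.mul_im]
  rw [h2]; positivity

lemma emb_inj (h : Case A B) {x y : OO A B} (hxy : emb x = emb y) : x = y := by
  have h1 := congrArg Complex.im hxy
  have h2 := congrArg Complex.re hxy
  simp only [emb, Complex.add_im, Complex.mul_im, Complex.intCast_im, Complex.intCast_re,
    zero_mul, add_zero, zero_add, Complex.add_re, Complex.mul_re, sub_zero] at h1 h2
  have h3 : (x.im : ℝ) = y.im := mul_right_cancel₀ (wC_im_pos h).ne' h1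
  rw [h3] at h2
  have h4 : (x.re : ℝ) = y.re := add_right_cancel h2
  exact QuadraticAlgebra.ext (by exact_mod_cast h4) (by exact_mod_cast h3)

lemma emb_ne_zero (h : Case A B) {x : OO A B} (hx : x ≠ 0) : emb x ≠ 0 := fun h0 =>
  hx (emb_inj h (h0.trans (emb_zero h).symm))

lemma wC_ne_zero (h : Case A B) : wC A B ≠ 0 := fun h0 => by
  have := wC_im_pos h
  rw [h0] at this
  simp at this

end

namespace IsLat

variable {A B : ℤ} {L : PeriodPair} {Om : ℂ}

lemma emb_mul_mem (hL : IsLat A B L Om) (h : Case A B) (x : OO A B) {z : ℂ}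
    (hz : z ∈ L.lattice) : emb x * z ∈ L.lattice := by
  obtain ⟨y, rfl⟩ := (hL.mem z).1 hz
  exact (hL.mem _).2 ⟨x * y, by rw [emb_mul h]; ring⟩

lemma mul_mem_w (hL : IsLat A B L Om) (h : Case A B) {z : ℂ}
    (hz : z ∈ L.lattice) : wC A B * z ∈ L.lattice := by
  have := hL.emb_mul_mem h ⟨0, 1⟩ hz
  rwa [emb_w] at this

/-- torsion points -/
lemma torsion_iff (hL : IsLat A B L Om) (h : Case A B) {m : OO A B} (hm : m ≠ 0) (z : ℂ) :
    emb m * z ∈ L.lattice ↔ ∃ x : OO A B, z = emb x * (Om / emb m) := by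
  have h0 := emb_ne_zero h hm
  rw [hL.mem]
  constructor
  · rintro ⟨x, hx⟩
    exact ⟨x, by field_simp; linear_combination hx⟩
  · rintro ⟨x, rfl⟩
    exact ⟨x, by field_simp⟩

lemma mul_div_mem_iff (hL : IsLat A B L Om) (h : Case A B) {m : OO A B} (hm : m ≠ 0)
    (x : OO A B) : emb x * (Om / emb m) ∈ L.lattice ↔ m ∣ x := by
  have h0 := emb_ne_zero h hm
  have h1 := hL.Om_ne
  rw [hL.mem]
  constructor
  · rintro ⟨y, hy⟩
    refine ⟨y, emb_inj h ?_⟩
    rw [emb_mul h]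
    field_simp at hy
    linear_combination hy
  · rintro ⟨y, rfl⟩
    exact ⟨y, by rw [emb_mul h]; field_simp⟩

/-- a point killed by two coprime elements is zero -/
lemma mem_of_coprime (hL : IsLat A B L Om) (h : Case A B) {a b : OO A B} (hab : IsCoprime a b)
    {z : ℂ} (ha : emb a * z ∈ L.lattice) (hb : emb b * z ∈ L.lattice) : z ∈ L.lattice := by
  obtain ⟨u, v, huv⟩ := hab
  have h1 := add_mem (hL.emb_mul_mem h u ha) (hL.emb_mul_mem h v hb)
  have h2 : emb u * (emb a * z) + emb v * (emb b * z) = z := by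
    have := congrArg emb huv
    rw [emb_add h, emb_mul h, emb_mul h, emb_one h] at this
    linear_combination z * this
  rwa [h2] at h1

end IsLat

end

end Pool.Agent.MU3A


end

section

/-!
# MUX: common definitions (helper3). See `PAPER_X.md`.

`k` any imaginary quadratic field in which `3` splits (`CaseX`; `CaseP p`: `p = 2` or `3` splits; `CQ`: no
condition), `O = ℤ[w]` its ring of integers,
`w ^ 2 = A + B w`. `OO A B`, `emb`, `wC`, `nm`, `absD`, `IsEps`, `IsSym`, `hecke`, `sgnPart`, `sumMod` are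
those of `Pool/Agent/MU3/Base.lean` (their definitions do not need `Case A B`); `kk A B`, `ek`, `yy` those of
`ADefs.lean`; `IsHalf`, `ThetaH`, `ee` (block B) are for arbitrary lattices.
-/

set_option autoImplicit false

namespace Pool.Agent.MUX

open _root_.MU3 _root_.Pool.Agent.MU3A _root_.Pool.Agent.MU3B Polynomial OnePoint

noncomputable section

/-! ## The ring and its ideals -/

/-- `O = ℤ[w]`, `w² = A + B w`, is the ring of integers of an imaginary quadratic field. -/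
structure CQ (A B : ℤ) : Prop where
  hB : B = 0 ∨ B = 1
  neg : B ^ 2 + 4 * A < 0
  fund1 : B = 1 → Squarefree (1 + 4 * A)
  fund0 : B = 0 → Squarefree A ∧ ¬ (4 : ℤ) ∣ A - 1

/-- the prime `p` is `3` or `2` and splits in `k` -/
structure CaseP (p : ℕ) (A B : ℤ) : Prop extends CQ A B where
  split : (p = 3 ∧ (3 : ℤ) ∣ B ^ 2 + 4 * A - 1) ∨ (p = 2 ∧ (8 : ℤ) ∣ B ^ 2 + 4 * A - 1)

/-- the case `p = 3` -/
structure CaseX (A B : ℤ) : Prop extends CQ A B where
  three : (3 : ℤ) ∣ B ^ 2 + 4 * A - 1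

lemma CaseX.caseP {A B : ℤ} (h : CaseX A B) : CaseP 3 A B :=
  { h.toCQ with split := Or.inl ⟨rfl, h.three⟩ }

/-- the norm of an ideal -/
def nI {A B : ℤ} (b : Ideal (OO A B)) : ℕ := Nat.card (OO A B ⧸ b)

/-- the conjugate ideal -/
def cjI {A B : ℤ} (b : Ideal (OO A B)) : Ideal (OO A B) := b.comap (starRingEnd (OO A B))

/-- the principal ideal -/
abbrev sp {A B : ℤ} (x : OO A B) : Ideal (OO A B) := Ideal.span {x}

/-- `x ≡ y` modulo the ideal `m` -/
def cong {A B : ℤ} (m : Ideal (OO A B)) (x y : OO A B) : Prop := x - y ∈ m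

/-- a prime ideal of norm `l`, `l` a prime number -/
structure IsPN {A B : ℤ} (l : ℕ) (P : Ideal (OO A B)) : Prop where
  prime : P.IsPrime
  mem : ((l : ℕ) : OO A B) ∈ P
  norm : nI P = l

/-- the ideal `(l, ppi)`, of norm `l` for `l = 2, 3` in the cases `CaseP l A B`; its conjugate is `(l, 1 - w)` -/
def PPl (l : ℕ) (A B : ℤ) : Ideal (OO A B) := Ideal.span {((l : ℕ) : OO A B), ppi A B}

/-! ## Lattices with complex multiplication by `O` -/

/-- the lattice of `L` is `om * emb b` -/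
structure IsLI {A B : ℤ} (b : Ideal (OO A B)) (L : PeriodPair) (om : ℂ) : Prop where
  b_ne : b ≠ ⊥
  om_ne : om ≠ 0
  mem : ∀ z : ℂ, z ∈ L.lattice ↔ ∃ x ∈ b, z = om * emb x

/-- normalised: `c₄ = -c₆`, i.e. `g₂ = -18 g₃` -/
structure IsNL {A B : ℤ} (b : Ideal (OO A B)) (L : PeriodPair) (om : ℂ) : Prop
    extends IsLI b L om where
  nrm : L.g₂ = -18 * L.g₃

/-- `κ = 1 / (j - 1728)` of a normalised lattice -/
def kap (L : PeriodPair) : ℂ := (12 * L.g₂ - 1) / 1728

/-- `x = ℘ - 1/12`; `yy L = ℘'/2`. For a normalised lattice `y² = x³ + x²/4 - 36 κ x - κ`, and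
`Y² + x Y = x³ - 36 κ x - κ` for `Y = (℘' - x)/2` (good reduction at 2 and at 3 if `κ` is a unit). -/
def xn (L : PeriodPair) (z : ℂ) : ℂ := L.weierstrassP z - 1 / 12

/-- the curve `y² = x³ + x²/4 - 36 κ x - κ` -/
def WN (k : ℂ) : WeierstrassCurve.Affine ℂ := ⟨0, 1 / 4, 0, -36 * k, -k⟩

/-- `ξ` is the homomorphism `ℂ → E(ℂ)` given by `(xn, yy)` -/
structure IsXn (L : PeriodPair) (ξ : ℂ →+ (WN (kap L)).Point) : Prop where
  some : ∀ z ∉ L.lattice, ∃ h, ξ z = WeierstrassCurve.Affine.Point.some (xn L z) (yy L z) h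
  zero : ∀ z ∈ L.lattice, ξ z = 0

/-- the local parameter `-x/y` -/
def tn (L : PeriodPair) (z : ℂ) : ℂ := -(xn L z / yy L z)

/-- `z` is zero or in the kernel of reduction at `V` -/
def InEn (V : ValuationSubring ℂ) (L : PeriodPair) (z : ℂ) : Prop :=
  z ∈ L.lattice ∨ xn L z ∉ V

/-- `z ∈ E[m]`, `m` an ideal -/
def Tor {A B : ℤ} (m : Ideal (OO A B)) (L : PeriodPair) (z : ℂ) : Prop :=
  ∀ x ∈ m, emb x * z ∈ L.lattice

/-! ## Conjugation by automorphisms of `ℂ` -/

/-- the automorphism `σ` of `ℂ` is trivial on `k` -/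
def FixK (A B : ℤ) (σ : ℂ ≃+* ℂ) : Prop := σ (wC A B) = wC A B

/-- `σ` maps the point `z` of `ℂ / L` to the point `z'` of `ℂ / L'` (for `kap L' = σ (kap L)`) -/
def PM (σ : ℂ ≃+* ℂ) (L L' : PeriodPair) (z z' : ℂ) : Prop :=
  (z ∈ L.lattice ∧ z' ∈ L'.lattice) ∨
    (z ∉ L.lattice ∧ z' ∉ L'.lattice ∧ σ (xn L z) = xn L' z' ∧ σ (yy L z) = yy L' z')

/-- `L' = μ a⁻¹ L` -/
def IsQ {A B : ℤ} (a : Ideal (OO A B)) (L L' : PeriodPair) (mu : ℂ) : Prop :=
  mu ≠ 0 ∧ ∀ z : ℂ, mu * z ∈ L'.lattice ↔ ∀ x ∈ a, emb x * z ∈ L.lattice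

/-- `σ` acts on the points of level `m` of `ℂ / L` as the ideal `a`, with multiplier `μ`:
`L' = L^σ = μ a⁻¹ L` and `σ` maps `z` to `μ z` for `z ∈ E[m]` -/
structure ActI {A B : ℤ} (σ : ℂ ≃+* ℂ) (m a : Ideal (OO A B)) (L L' : PeriodPair) (mu : ℂ) :
    Prop where
  kap : kap L' = σ (kap L)
  cop : IsCoprime a m
  isq : IsQ a L L' mu
  act : ∀ z, Tor m L z → PM σ L L' z (mu * z)

/-- the ray class field `F_m = k(κ(L), x(z; L))`, `L` all normalised lattices with complex multiplication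
by `O`, `z ∈ E[m]` -/
def RF {A B : ℤ} (m : Ideal (OO A B)) : IntermediateField (kk A B) ℂ :=
  IntermediateField.adjoin (kk A B) {c | ∃ (b : Ideal (OO A B)) (L : PeriodPair) (om : ℂ),
    IsNL b L om ∧ (c = kap L ∨ ∃ z, Tor m L z ∧ z ∉ L.lattice ∧ c = xn L z)}

/-! ## Representatives of the classes, points of level `m` -/

/-- representatives `b i` of the ideal classes, of norm prime to `n`, with normalised lattices
`L i = om i * emb (b i)`; `b i0 = O` -/
structure Reps (A B : ℤ) (n : ℕ) (ι : Type) where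
  b : ι → Ideal (OO A B)
  L : ι → PeriodPair
  om : ι → ℂ
  i0 : ι
  nl : ∀ i, IsNL (b i) (L i) (om i)
  cop : ∀ i, (nI (b i)).Coprime n
  b0 : b i0 = ⊤
  surj : ∀ c : Ideal (OO A B), c ≠ ⊥ → ∃ (i : ι) (x y : OO A B), x ≠ 0 ∧ y ≠ 0 ∧
    sp x * c = sp y * b i
  inj : ∀ (i j : ι) (x y : OO A B), x ≠ 0 → y ≠ 0 → sp x * b i = sp y * b j → i = j

/-- the point `(i, x)` of level `m`: `om_i N(b_i) x / m` on `ℂ / L_i`; it corresponds to the ideal
`x * cjI (b i)` -/
def pt {A B : ℤ} {n : ℕ} {ι : Type} (R : Reps A B n ι) (m : ℕ) (i : ι) (x : OO A B) : ℂ :=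
  R.om i * nI (R.b i) * emb x / m

/-- `σ` maps the base point `(i0, 1)` of level `m` to the point `± (i, x)` -/
def Hits {A B : ℤ} {n : ℕ} {ι : Type} (R : Reps A B n ι) (m : ℕ) (σ : ℂ ≃+* ℂ) (i : ι)
    (x : OO A B) : Prop :=
  kap (R.L i) = σ (kap (R.L R.i0)) ∧
    σ (xn (R.L R.i0) (pt R m R.i0 1)) = xn (R.L i) (pt R m i x) ∧ pt R m i x ∉ (R.L i).lattice

/-! ## Theta series of ideals -/

/-- an odd character `e` of `(O/g)^*` with complex values, extended by 0; `g` an ideal -/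
structure IsEI {A B : ℤ} (g : Ideal (OO A B)) (e : OO A B → ℂ) : Prop where
  one : e 1 = 1
  mul : ∀ x y, e (x * y) = e x * e y
  per : ∀ x y, x - y ∈ g → e x = e y
  supp : ∀ x, e x ≠ 0 ↔ IsCoprime (sp x) g
  neg : e (-1) = -1

/-- `θ_b(z) = 1/2 Σ_(x ∈ b) e(x) conj(x) q^(N x / N b)` -/
def thetaI {A B : ℤ} (b : Ideal (OO A B)) (e : OO A B → ℂ) (z : ℂ) : ℂ :=
  (1 / 2) * ∑' x : b, e x * (starRingEnd ℂ) (emb (x : OO A B)) *
    Complex.exp (2 * Real.pi * Complex.I * ((nm (x : OO A B) : ℂ) / nI b) * z)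

/-- its primitive `1/2 Σ e(x) conj(x) / (N x / N b) q^(N x / N b)` -/
def thetaIntI {A B : ℤ} (b : Ideal (OO A B)) (e : OO A B → ℂ) (z : ℂ) : ℂ :=
  (1 / 2) * ∑' x : b, e x * (starRingEnd ℂ) (emb (x : OO A B)) / ((nm (x : OO A B) : ℂ) / nI b) *
    Complex.exp (2 * Real.pi * Complex.I * ((nm (x : OO A B) : ℂ) / nI b) * z)

/-- `∫_r^(i ∞) 2 π i θ_b(z) dz` -/
def IvI {A B : ℤ} (b : Ideal (OO A B)) (e : OO A B → ℂ) (r : ℚ) : ℂ :=
  -(2 * Real.pi) * ∫ t in Set.Ioi (0 : ℝ), thetaI b e ((r : ℂ) + t * Complex.I)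

/-- the same for all cusps, 0 at infinity -/
def IcI {A B : ℤ} (b : Ideal (OO A B)) (e : OO A B → ℂ) (x : OnePoint ℚ) : ℂ :=
  x.elim 0 (fun r : ℚ => IvI b e r)

/-- the modular symbol of `θ_b` -/
def PhiI {A B : ℤ} (b : Ideal (OO A B)) (e : OO A B → ℂ) (x y : OnePoint ℚ) : ℂ :=
  IcI b e x - IcI b e y

/-- the quadratic character of `k`, right at all integers `d` prime to `D` (helper87's `chiQ`); it is `0` if
`d` is not prime to `D`, except for `B = 0` and `d` even -/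
def chiX (A B : ℤ) (d : ℤ) : ℤ :=
  if B = 1 then jacobiSym d (absD A B).toNat else jacobiSym A d.natAbs * d.sign

/-- the nebentypus -/
def nuX {A B : ℤ} (e : OO A B → ℂ) (d : ℤ) : ℂ := (chiX A B d : ℂ) * e (d : OO A B)

end

end Pool.Agent.MUX


end
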