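import Mathlib
import Pool.Agent.MVF.C005

/-! Parts: MU3.StFH, MUX.TDefs, MU3.StA, MU3.F_F7, MU3.F_F3, MU3.F_ITG, MU3.A_LAT0, MU3.A_N8 -/

namespace Pool.Agent.MU3A.N8
end Pool.Agent.MU3A.N8
namespace Pool.Agent.MU3F
end Pool.Agent.MU3F
namespace Pool.Agent.MU3F.F3
end Pool.Agent.MU3F.F3

section

/-!
# MU3, block FH (helper27): Hecke operator, values, Fourier transform, finiteness, twist

Every statement is a `def Sf_X : Prop`. A module proves `theorem tf_X (h : Sf_Y) ... : Sf_X`, where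
the hypotheses are the statements named under USES in the doc string. Notation of PAPER.md, section 5.
`OO A B`, `emb`, `nm`, `theta`, `Iv`, `Phi`, `hecke`, `sgnPart`, `sumMod` : Base.lean.
`IsLat A B L Om` : the lattice `L` is `Om * emb O` (ADefs.lean). `ee L` : BDefs.lean.
-/

set_option autoImplicit false

namespace Pool.Agent.MU3F

open _root_.MU3 _root_.Pool.Agent.MU3A _root_.Pool.Agent.MU3B _root_.Pool.Agent.MuSym OnePoint
open scoped ComplexConjugate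

noncomputable section

/-- `exp(2 π i r)` for rational `r` -/
def ex (r : ℚ) : ℂ := Complex.exp (2 * Real.pi * Complex.I * (r : ℂ))

/-- the Gauss sum of `chi_D` -/
def tauD (A B : ℤ) : ℂ :=
  ∑ a ∈ Finset.range (absD A B).toNat, (chiD A B a : ℂ) * ex (a / (absD A B : ℚ))

/-- (ALG) algebra of `O`.

PROOF. `embHom h` is a ring homomorphism with `embHom h x = emb x`; `emb x = 0` gives `im x = 0` (imaginary part
of `wC`, positive) and then `re x = 0`. `nm x = |emb x|²`: expand (`wC = (B + i sqrt |D|)/2`,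
`|emb x|² = (re + B im/2)² + |D| im²/4`). `x * star x = nm x` in `QuadraticAlgebra` (check the definition of
`star`; compare real and imaginary parts). Finite quotient: `nm m ≠ 0` is in the ideal `(m)`, so every class has a
representative with coordinates in `[0, |nm m|)`; or `Ideal.finiteQuotientOfFreeOfNeBot`. -/
def Sf_ALG : Prop :=
  ∀ A B : ℤ, Case A B →
    (∀ x y : OO A B, emb (x * y) = emb x * emb y ∧ emb (x + y) = emb x + emb y ∧
      nm (x * y) = nm x * nm y) ∧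
    (∀ x : OO A B, (emb x = 0 ↔ x = 0) ∧ ((nm x : ℤ) : ℝ) = ‖emb x‖ ^ 2 ∧
      x * star x = ((nm x : ℤ) : OO A B) ∧ emb (star x) = conj (emb x)) ∧
    (∀ n : ℤ, emb (n : OO A B) = n) ∧
    (∀ m : OO A B, m ≠ 0 → Finite (OO A B ⧸ Ideal.span {m})) ∧
    ppi A B * star (ppi A B) = 3 ∧ ¬ IsUnit (star (ppi A B))

/-- (SM) rules for `sumMod`.

USES ALG. PROOF. The quotient is finite, so all finsums are finite sums (`finsum_eq_sum_of_fintype`).
Fourth: `m` divides `Quotient.out (mk x) - x` (`Quotient.out_eq`, `Ideal.Quotient.eq`,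
`Ideal.mem_span_singleton`). -/
def Sf_SM : Prop :=
  ∀ (A B : ℤ), Case A B → ∀ m : OO A B, m ≠ 0 →
    (∀ (c : ℂ) (F : OO A B → ℂ), sumMod m (fun x => c * F x) = c * sumMod m F) ∧
    (∀ F G : OO A B → ℂ, sumMod m (fun x => F x + G x) = sumMod m F + sumMod m G) ∧
    (∀ (s : Finset ℕ) (F : ℕ → OO A B → ℂ),
      sumMod m (fun x => ∑ b ∈ s, F b x) = ∑ b ∈ s, sumMod m (F b)) ∧
    (∀ F : OO A B → ℂ, (∀ x y, m ∣ x - y → F x = F y) → ∀ x : OO A B,
      F (Quotient.out (Ideal.Quotient.mk (Ideal.span {m}) x)) = F x) ∧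
    ∀ F G : OO A B → ℂ, (∀ x, F x = G x) → sumMod m F = sumMod m G

/-- (BDD) a character is bounded. USES ALG. PROOF. `e` is periodic modulo `g ≠ 0` and `O/g` is finite, so `e`
takes only finitely many values. -/
def Sf_BDD : Prop :=
  ∀ (A B : ℤ), Case A B → ∀ (g : OO A B) (e : OO A B → ℂ), g ≠ 0 → IsEps g e →
    (Set.range e).Finite ∧ ∃ C : ℝ, 0 < C ∧ ∀ x, ‖e x‖ ≤ C

/-- (TSM) summability of the theta series in the upper half plane.

USES ALG (and, if you like, `MU3B.St_SUM`, `MU3A.Sa_LAT0` as further hypotheses). PROOF. The norm of the term is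
`‖e x‖ ‖emb x‖ exp(-2 π ‖emb x‖² im z)`, `‖emb x‖² = (re + B im/2)² + |D| im²/4 ≥ c (re² + im²)`. Compare with
`Σ 1/(1 + re²)(1 + im²)` or use `St_SUM` (`k = 1`, `R = 0`) for the lattice `emb O`
(`Sa_LAT0` with `Om = 1`, bijection `x ↦ emb x`). -/
def Sf_TSM : Prop :=
  ∀ (A B : ℤ), Case A B → ∀ (e : OO A B → ℂ) (C : ℝ), (∀ x, ‖e x‖ ≤ C) → ∀ z : ℂ, 0 < z.im →
    Summable (fun x : OO A B => e x * conj (emb x) *
      Complex.exp (2 * Real.pi * Complex.I * (nm x : ℂ) * z))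

/-- (DCM) a sum over `O` is a sum over the classes modulo `m`.

USES ALG. PROOF. `(q, w) ↦ Quotient.out q + m w` is a bijection from `(O/m) × O` onto `O` (`m ≠ 0` and `O` is
a domain: `emb` is injective and multiplicative). `Summable.tsum_prod'` or `tsum_prod`, and a `tsum` over a
finite type is a finite sum (`tsum_fintype`, `finsum_eq_sum_of_fintype`). -/
def Sf_DCM : Prop :=
  ∀ (A B : ℤ), Case A B → ∀ m : OO A B, m ≠ 0 → ∀ G : OO A B → ℂ, Summable G →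
    ∑' x, G x = sumMod m (fun x => ∑' w : OO A B, G (x + m * w))

/-- (THD) theta on a vertical line as a combination of lattice sums.

USES ALG, BDD, TSM, DCM. PROOF. `r = b/M`, `z = r + i t`. `exp(2 π i nm x z) = ex(b nm x/M) exp(-2 π nm x t)`. By DCM
with `m = g'` : `theta = 1/2 sumMod g' (x ↦ Σ_w e(x + g' w) conj(emb(x + g' w)) ..)`. `e(x + g' w) = e x` (`g ∣ g'`);
`nm(x + g' w) = nm x + M * integer` (`M ∣ g'`: `nm(x + y) = nm x + (x star y + star x y) + nm y`, and for `y = M v` this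
is `nm x` + `M (x star v + star x v)` + `M² nm v`; the middle number is an integer as it is fixed by `star`; or compute
with coordinates), so the factor `ex(b nm x/M)` is the same for all `w`. `emb(x + g' w) = (emb g'/Om) (z_x + Om emb w)`,
`z_x = Om emb x/emb g'`, and `nm(x + g' w) = ‖emb g'/Om‖² ‖z_x + Om emb w‖²`. Reindex `w ↦ Om emb w`, a bijection from
`O` onto `L.lattice`. -/
def Sf_THD : Prop :=
  ∀ (A B : ℤ), Case A B → ∀ (L : PeriodPair) (Om : ℂ), IsLat A B L Om →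
    ∀ (g g' : OO A B) (e : OO A B → ℂ), IsEps g e → g' ≠ 0 → g ∣ g' →
    ∀ (M : ℕ), 0 < M → (M : OO A B) ∣ g' → ∀ (b : ℤ) (t : ℝ), 0 < t →
      theta e (((b / M : ℚ) : ℂ) + t * Complex.I) = (1 / 2) * sumMod g' (fun x =>
        e x * ex (b * nm x / M) * (conj (emb g' / Om) * ∑' w : L.lattice,
          conj (Om * emb x / emb g' + w) *
            (Real.exp (-((2 * Real.pi * ‖emb g' / Om‖ ^ 2) * t *
              ‖Om * emb x / emb g' + w‖ ^ 2)) : ℝ)))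

/-- (F4) the values of the symbol at all rational numbers, and integrability.

USES ALG, SM, THD, `MU3B.St_INT`. PROOF. Integrate THD over `t` in `(0, oo)` with `St_INT`, `c = 2 π ‖emb g'/Om‖²`,
`z = Om emb x/emb g'`: a finite linear combination of integrable functions, and
`Int theta = 1/2 sumMod g' (e ex conj(emb g'/Om) ee L z/c)`, `conj(v)/‖v‖² = 1/v` for `v = emb g'/Om`. So
`Iv = -2 π/(4 π) (Om/emb g') sumMod ..`. -/
def Sf_F4 : Prop :=
  ∀ (A B : ℤ), Case A B → ∀ (L : PeriodPair) (Om : ℂ), IsLat A B L Om →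
    ∀ (g g' : OO A B) (e : OO A B → ℂ), IsEps g e → g' ≠ 0 → g ∣ g' →
    ∀ (M : ℕ), 0 < M → (M : OO A B) ∣ g' → ∀ b : ℤ,
      MeasureTheory.IntegrableOn
        (fun t : ℝ => theta e (((b / M : ℚ) : ℂ) + t * Complex.I)) (Set.Ioi 0) ∧
      Iv e (b / M : ℚ) = -(Om / (2 * emb g')) *
        sumMod g' (fun x => e x * ex (b * nm x / M) * ee L (Om * emb x / emb g'))

/-- (ITG) integrability on all vertical lines over rational numbers.

USES ALG, F4, `MU3A.Sa_LAT0`. PROOF. `r = b/M` with `b = r.num`, `M = r.den`, `g' = g M`, `Om = 1`. -/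
def Sf_ITG : Prop :=
  ∀ (A B : ℤ), Case A B → ∀ (g : OO A B) (e : OO A B → ℂ), g ≠ 0 → IsEps g e → ∀ r : ℚ,
    MeasureTheory.IntegrableOn (fun t : ℝ => theta e ((r : ℂ) + t * Complex.I)) (Set.Ioi 0)

open Classical in
/-- (F5) the sums `S_n(c)` are Fourier transforms of the values of the symbol.

USES ALG, SM, F4. PROOF. `m = f 3^(n+1)`, `g = f pibar` divides `m`, `M = 3^(n+1)` divides `m`. F4:
`Phi(oo, b/M) = -Iv(b/M) = (Om/(2 emb m)) sumMod m (e x ex(b nm x/M) ee L (Om emb x/emb m))`, `emb m = f M`. Multiply by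
`ex(-b c/M)`, sum over `b` and use `Σ_b ex(b (nm x - c)/M) = M` if `M ∣ nm x - c` and `0` otherwise: the sum is
`(Om/(2 f)) sumMod m ([M ∣ nm x - c] e x ee L ..)`. If `M ∣ nm x - c` then `3` does not divide `nm x`, so `x` is
coprime to `3` (`nm x = x star x`); if moreover `e x ≠ 0` then `x` is coprime to `f pibar`, so to `f`, and so to
`m`. So the condition `IsCoprime x m` may be added. -/
def Sf_F5 : Prop :=
  ∀ (A B : ℤ), Case A B → ∀ (L : PeriodPair) (Om : ℂ), IsLat A B L Om →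
    ∀ (f n : ℕ) (e : OO A B → ℂ), f ≠ 0 → IsEps ((f : OO A B) * star (ppi A B)) e →
    ∀ c : ℤ, ¬ (3 : ℤ) ∣ c →
      sumMod ((f * 3 ^ (n + 1) : ℕ) : OO A B) (fun x =>
        if IsCoprime x ((f * 3 ^ (n + 1) : ℕ) : OO A B) ∧ (3 : ℤ) ^ (n + 1) ∣ nm x - c then
          e x * ee L (emb x * (Om / emb ((f * 3 ^ (n + 1) : ℕ) : OO A B))) else 0) =
      (2 * f / Om) * ∑ b ∈ Finset.range (3 ^ (n + 1)),
        ex (-(b * c) / 3 ^ (n + 1)) * Phi e ∞ (((b / 3 ^ (n + 1) : ℚ) : ℚ) : OnePoint ℚ)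

/-- (PRD) theta has period 1. PROOF. Term by term: `exp(2 π i nm x) = 1` (no summability needed). -/
def Sf_PRD : Prop :=
  ∀ (A B : ℤ), Case A B → ∀ (e : OO A B → ℂ) (z : ℂ), theta e (z + 1) = theta e z

/-- (U3) the operator `U_3` on theta.

USES ALG, BDD, TSM. PROOF. `Σ_j exp(2 π i n (z + j)/3) = 3 exp(2 π i n z/3)` if `3 ∣ n` and `0` otherwise, so the left
side is `3/2 Σ_(3 ∣ nm x) e x conj(emb x) exp(2 π i (nm x/3) z)` (three summable families, `Summable.tsum_finsetSum` or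
`tsum_add`). If `3 ∣ nm x = x star x` and `e x ≠ 0` then `ppi ∣ x`: `x` is coprime to `g`, so to `star ppi`; `ppi`
divides `3`, so `ppi ∣ x star x`; `star (x)` is coprime to `ppi` (apply `star` to a Bezout relation), so `ppi ∣ x`
(`IsCoprime.dvd_of_dvd_mul_right`). The map `y ↦ ppi y` is injective with image `{x : ppi ∣ x}`,
`nm (ppi y) = 3 nm y`, `e (ppi y) = e ppi e y`; use `Function.Injective.tsum_eq` (the support is in the range). -/
def Sf_U3 : Prop :=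
  ∀ (A B : ℤ), Case A B → ∀ (g : OO A B) (e : OO A B → ℂ), g ≠ 0 → IsEps g e →
    star (ppi A B) ∣ g → ∀ z : ℂ, 0 < z.im →
    ∑ j ∈ Finset.range 3, theta e ((z + j) / 3) = 3 * (e (ppi A B) * conj (emb (ppi A B))) * theta e z

/-- (F3) the symbol is an eigensymbol of `U_3`.

USES ALG, U3, ITG. PROOF. `nuE e 3 = 0`: `e 3 = 0` because `star ppi` divides `3` and `g` and is not a unit. For a
rational number `r`: `Σ_j Iv((r + j)/3) = -2 π Int_0^oo Σ_j theta((r + j)/3 + i t) dt` (ITG), and with `t = t'/3`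
(`MeasureTheory.integral_comp_mul_left_Ioi`) and U3 this is `-2 π Int_0^oo (1/3) 3 a theta(r + i t') dt' = a Iv r`,
`a = e ppi conj(emb ppi)`. At infinity everything is 0. `Phi x y = Ic x - Ic y`. Unfold `mob 1 j 0 3` (on rational
`r` it is `(r + j)/3`, `∞ ↦ ∞`). -/
def Sf_F3 : Prop :=
  ∀ (A B : ℤ), Case A B → ∀ (g : OO A B) (e : OO A B → ℂ), g ≠ 0 → IsEps g e →
    star (ppi A B) ∣ g → nuE e 3 = 0 ∧ ∀ x y : OnePoint ℚ,
    hecke 3 (nuE e) (Phi e) x y = e (ppi A B) * conj (emb (ppi A B)) * Phi e x y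

/-- (FG) the values of a symbol with finitely many `nu d` lie in a finitely generated group.

PROOF. (1) For `h = (a b; c d)` of determinant 1 let `v(h) = P(a/c, b/d) = P(h oo, h 0)` (`mob a b c d ∞`,
`mob a b c d 0`). (2) Manin's trick: every `P x y` is a sum of finitely many `± v(h)`. By additivity (`P x x = 0`,
`P x y = - P y x`) it is enough to treat `P ∞ r`, `r` rational, by strong induction on the denominator `q` of
`r = p/q`. `q = 1`: `r = p = h 0` with `h = (1 p; 0 1)`, `h ∞ = ∞`. `q > 1`: choose integers `p', q'` with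
`p' q - p q' = 1` and `0 < q' < q` (Bezout); `h = (p' p; q' q)`, `h ∞ = p'/q'`, `h 0 = p/q`, so
`P ∞ (p/q) = P ∞ (p'/q') + v(h)`. (3) Finitely many values: if `h`, `h'` have the same bottom row modulo `N` then
`k = h' h⁻¹` has bottom left entry divisible by `N`, so `v(h') = nu(d_k) v(h)` (`mob` of a product of matrices of
determinant one is the composition, check on `∞` and `0` only). So all `v(h)` lie in the finite set of the
`nu(d) v(h_i)`, `h_i` one representative for each bottom row modulo `N`. (See also Pool/Agent/MuSym/Trick.lean.) -/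
def Sf_FG : Prop :=
  ∀ (N : ℕ) (nu : ℤ → ℂ) (P : OnePoint ℚ → OnePoint ℚ → ℂ), N ≠ 0 → IsSym N nu P →
    (Set.range nu).Finite → ∃ S : Finset ℂ, ∀ x y, P x y ∈ AddSubgroup.closure (S : Set ℂ)

/-- (F7) the values `Phi(x,y)` lie in a finitely generated group. USES BDD, FG. PROOF. `nuE e` has finitely many
values: `chiD` has values in `{0, 1, -1}` and `e` has finitely many values. -/
def Sf_F7 : Prop :=
  ∀ (A B : ℤ), Case A B → ∀ (g : OO A B) (e : OO A B → ℂ), g ≠ 0 → IsEps g e →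
    ∀ N : ℕ, N ≠ 0 → IsSym N (nuE e) (Phi e) →
    ∃ S : Finset ℂ, ∀ x y, Phi e x y ∈ AddSubgroup.closure (S : Set ℂ)

/-- (GSS) Gauss sums.

PROOF. `|D| = 8` (`A = -2`, `B = 0`): `ζ = exp(2 π i/8)`, `ζ⁴ = -1`, `tau = ζ + ζ³ - ζ⁵ - ζ⁷ = 2 ζ + 2 ζ³`,
`tau² = 4 (ζ² + 2 ζ⁴ + ζ⁶) = -8`. If `x = re + im w`, `w² = -2`, is coprime to `8` then `re` is odd (otherwise `w`
divides `x` and `8`), so `nm x = re² + 2 im²` is `1` or `3` modulo `8`, and `Σ chi(a) ζ^(a n) = tau` for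
`n = 1` and `n = 3` (`ζ³ + ζ⁹ - ζ¹⁵ - ζ²¹`). `|D| = 11` (`A = -3`, `B = 1`): `chiD` is the quadratic character of
`ZMod 11` (`decide` on the 11 classes), `gaussSum_sq` gives `tau² = chi(-1) 11 = -11` (or compute the product with
`ζ¹¹ = 1`, `1 + ζ + .. + ζ¹⁰ = 0`). If `x` is coprime to `11` then `nm x = re² + re im + 3 im²` is not divisible
by `11` (otherwise `δ = 2 w - 1`, `δ² = -11`, divides `x`: `4 nm x = (2 re + im)² + 11 im²`, so `11 ∣ 2 re + im`, and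
`2 x = (2 re + im) + im δ`, so `δ ∣ 2 x`, `δ ∣ x`), and it is a nonzero square modulo `11`. So multiplication of
the summation variable by `nm x` (a permutation of the nonzero classes) gives `Σ chi(a) ζ^(a nm x) = chi(nm x) tau = tau`. -/
def Sf_GSS : Prop :=
  ∀ (A B : ℤ), Case A B → tauD A B ^ 2 = -((absD A B : ℤ) : ℂ) ∧
    (∀ a : ℤ, chiD A B (-a) = -chiD A B a) ∧ (∀ a : ℤ, chiD A B (a + absD A B) = chiD A B a) ∧
    ∀ x : OO A B, IsCoprime x ((absD A B : ℤ) : OO A B) →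
      ∑ a ∈ Finset.range (absD A B).toNat,
        (chiD A B a : ℂ) * ex (a * nm x / (absD A B : ℚ)) = tauD A B

/-- (TWD) the twist of theta by `chi_D` is theta.

USES ALG, BDD, TSM, GSS. PROOF. The left side is
`1/2 Σ_x e x conj(emb x) exp(2 π i nm x z) Σ_a chi(a) ex(a nm x/|D|)` (finitely many summable families). If `e x ≠ 0` then
`x` is coprime to `g`, so to `|D|`, and the inner sum is `tauD` by GSS. -/
def Sf_TWD : Prop :=
  ∀ (A B : ℤ), Case A B → ∀ (g : OO A B) (e : OO A B → ℂ), g ≠ 0 → IsEps g e →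
    ((absD A B : ℤ) : OO A B) ∣ g → ∀ z : ℂ, 0 < z.im →
    ∑ a ∈ Finset.range (absD A B).toNat,
      (chiD A B a : ℂ) * theta e (z + (a / (absD A B : ℚ) : ℚ)) = tauD A B * theta e z

/-- (F8) the twist of the two parts of the symbol.

USES PRD, ITG, GSS, TWD. PROOF. For rational `r`: `Σ_a chi(a) Iv(r + a/|D|) = tau Iv r` (ITG, TWD), so
`Σ_a chi(a) Phi(x + a/|D|, y + a/|D|) = tau Phi(x, y)` (at infinity everything is 0) for all cusps `x, y`. For the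
second part: `-(r + a/|D|) = (-r) + (|D| - a)/|D| - 1`, `Iv (r - 1) = Iv r` (PRD), `chi(a) = -chi(|D| - a)` (GSS),
`chi(0) = 0`; so `Σ_a chi(a) Iv(-(r + a/|D|)) = -Σ_a' chi(a') Iv(-r + a'/|D|) = -tau Iv(-r)`
(`Finset.sum_range_reflect` or `Finset.sum_bij`). Unfold `mob |D| a 0 |D|` (on `r` it is `r + a/|D|`) and `sgnPart`. -/
def Sf_F8 : Prop :=
  ∀ (A B : ℤ), Case A B → ∀ (g : OO A B) (e : OO A B → ℂ), g ≠ 0 → IsEps g e →
    ((absD A B : ℤ) : OO A B) ∣ g → ∀ (s : ℂ) (x y : OnePoint ℚ),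
    ∑ a ∈ Finset.range (absD A B).toNat, (chiD A B a : ℂ) * sgnPart s (Phi e)
      (mob (absD A B) a 0 (absD A B) x) (mob (absD A B) a 0 (absD A B) y) =
    tauD A B * sgnPart (-s) (Phi e) x y

end

end Pool.Agent.MU3F


end

section

/-!
# MUX, theta series of ideals: common definitions of the blocks XT (helper40) and XF (helper87)

`O = OO A B = ℤ[w]`, `w² = A + B w`, is the ring of integers of an imaginary quadratic field (`CQ A B`); no
prime `p` occurs. Ideals `b : Ideal (OO A B)`, `b ≠ ⊥`, of norm `nI b`. For `x ∈ b` the number `nm x / nI b` is a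
natural number (`qb b x`), the norm of the ideal `x b⁻¹`. The definitions `nI`, `cjI`, `sp`, `IsLI`, `thetaI`, ..
are literally those of `DefsX.lean` (so equal by `rfl`).
-/

set_option autoImplicit false

namespace Pool.Agent.MUXF

open _root_.MU3 _root_.Pool.Agent.MU3A _root_.Pool.Agent.MU3B _root_.Pool.Agent.MU3F OnePoint

noncomputable section

/-- `O = ℤ[w]`, `w² = A + B w`, is the ring of integers of an imaginary quadratic field. -/
structure CQ (A B : ℤ) : Prop where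
  hB : B = 0 ∨ B = 1
  neg : B ^ 2 + 4 * A < 0
  fund1 : B = 1 → Squarefree (1 + 4 * A)
  fund0 : B = 0 → Squarefree A ∧ ¬ (4 : ℤ) ∣ A - 1

/-- the norm of an ideal -/
def nI {A B : ℤ} (b : Ideal (OO A B)) : ℕ := Nat.card (OO A B ⧸ b)

/-- the conjugate ideal -/
def cjI {A B : ℤ} (b : Ideal (OO A B)) : Ideal (OO A B) := b.comap (starRingEnd (OO A B))

/-- the principal ideal -/
abbrev sp {A B : ℤ} (x : OO A B) : Ideal (OO A B) := Ideal.span {x}

/-- the lattice of `L` is `om * emb b` -/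
structure IsLI {A B : ℤ} (b : Ideal (OO A B)) (L : PeriodPair) (om : ℂ) : Prop where
  b_ne : b ≠ ⊥
  om_ne : om ≠ 0
  mem : ∀ z : ℂ, z ∈ L.lattice ↔ ∃ x ∈ b, z = om * emb x

/-- an odd character `e` of `(O/g)^*` with complex values, extended by 0; `g` an ideal -/
structure IsEI {A B : ℤ} (g : Ideal (OO A B)) (e : OO A B → ℂ) : Prop where
  one : e 1 = 1
  mul : ∀ x y, e (x * y) = e x * e y
  per : ∀ x y, x - y ∈ g → e x = e y
  supp : ∀ x, e x ≠ 0 ↔ IsCoprime (sp x) g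
  neg : e (-1) = -1

/-- `θ_b(z) = 1/2 Σ_(x ∈ b) e(x) conj(x) q^(N x / N b)` -/
def thetaI {A B : ℤ} (b : Ideal (OO A B)) (e : OO A B → ℂ) (z : ℂ) : ℂ :=
  (1 / 2) * ∑' x : b, e x * (starRingEnd ℂ) (emb (x : OO A B)) *
    Complex.exp (2 * Real.pi * Complex.I * ((nm (x : OO A B) : ℂ) / nI b) * z)

/-- its primitive `1/2 Σ e(x) conj(x) / (N x / N b) q^(N x / N b)` -/
def thetaIntI {A B : ℤ} (b : Ideal (OO A B)) (e : OO A B → ℂ) (z : ℂ) : ℂ :=
  (1 / 2) * ∑' x : b, e x * (starRingEnd ℂ) (emb (x : OO A B)) / ((nm (x : OO A B) : ℂ) / nI b) *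
    Complex.exp (2 * Real.pi * Complex.I * ((nm (x : OO A B) : ℂ) / nI b) * z)

/-- `∫_r^(i ∞) 2 π i θ_b(z) dz` -/
def IvI {A B : ℤ} (b : Ideal (OO A B)) (e : OO A B → ℂ) (r : ℚ) : ℂ :=
  -(2 * Real.pi) * ∫ t in Set.Ioi (0 : ℝ), thetaI b e ((r : ℂ) + t * Complex.I)

/-- the same for all cusps, 0 at infinity -/
def IcI {A B : ℤ} (b : Ideal (OO A B)) (e : OO A B → ℂ) (x : OnePoint ℚ) : ℂ :=
  x.elim 0 (fun r : ℚ => IvI b e r)

/-- the modular symbol of `θ_b` -/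
def PhiI {A B : ℤ} (b : Ideal (OO A B)) (e : OO A B → ℂ) (x y : OnePoint ℚ) : ℂ :=
  IcI b e x - IcI b e y

/-- the quadratic character of `k`, right at all integers `d` prime to `D` (also negative, also even if `D`
is odd); it is `0` if `d` is not prime to `D`, except for `B = 0` and `d` even -/
def chiQ (A B : ℤ) (d : ℤ) : ℤ :=
  if B = 1 then jacobiSym d (absD A B).toNat else jacobiSym A d.natAbs * d.sign

/-- the nebentypus -/
def nuQ {A B : ℤ} (e : OO A B → ℂ) (d : ℤ) : ℂ := (chiQ A B d : ℂ) * e (d : OO A B)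

/-- `nm x / nI b`, exact division for `x ∈ b` -/
def qb {A B : ℤ} (b : Ideal (OO A B)) (x : OO A B) : ℤ := nm x / (nI b : ℤ)

/-- the sum over `b / m b` of a function which is periodic modulo `m b` -/
def sumB {A B : ℤ} (b : Ideal (OO A B)) (m : ℕ) (F : OO A B → ℂ) : ℂ :=
  ∑ᶠ q : b ⧸ (nsmulAddMonoidHom (α := b) m).range, F (Quotient.out q : b)

end

end Pool.Agent.MUXF


end

section

/-!
# MU3, block A: statements, part 1 (with complete proofs in words)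

Every statement is a `def Sa_X : Prop`; the module proves `theorem ta_X (h : ...) ... : Sa_X`, where the
hypotheses are the statements named under `Uses` (`St_...` are those of block B, `StB.lean`).
Elementary lemmas (`emb_mul`, `IsLat.emb_mul_mem`, `IsLat.torsion_iff`, `IsLat.mul_div_mem_iff`,
`IsLat.mem_of_coprime`) are proved in `ADefs.lean`. Notation in the proofs: `℘`, `℘'`, `w = wC A B`
(`w² = -2` resp. `w² = w - 3`), `x = xx A B L`, `y = yy L`, `L` the lattice.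
A statement of the form for all `z` with `z ∉ L`, `c z ∉ L` which has been proved outside a countable
closed set follows everywhere by continuity (`℘`, `℘'` are continuous outside `L`; the complement of a
countable set is dense).
-/

set_option autoImplicit false

namespace Pool.Agent.MU3A

open _root_.MU3 _root_.Pool.Agent.MU3B Polynomial

noncomputable section

/-! ## General lattices -/

/-- (PFG) product formula for `℘(a z) - ℘(a w)`.

Uses St_DIS, St_ID, St_NEQ, St_LAT (and Mathlib). PROOF. Put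
`U = {z : a z ∉ L, a z - a w ∉ L, a z + a w ∉ L}`: open, complement countable, so path connected
(`Set.Countable.isPathConnected_compl_of_one_lt_rank`) and dense. On `U`
`G(z) = (℘(az) - ℘(aw)) ∏_(q ∈ R) (℘ z - ℘ q) / ((℘ z - ℘ w) ∏_(q ∈ R) (℘ z - ℘(w + q)))`
is holomorphic and all factors are nonzero by (NEQ) (`℘ z = ℘ q` gives `z ± q ∈ L`, `a z ∈ L`, etc.;
`w`, `w + q ∉ L` as `a w ∉ L`). By (ID) the logarithmic derivative of `℘ z - ℘ Q` is
`e(z + Q) + e(z - Q) - 2 e(z)`. By (DIS) at `z + w`: `a e(az + aw) = e(z + w) + Σ e(z + w + q)`; (DIS) for the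
representatives `-R` (also `IsReps`) at `z - w`: `a e(az - aw) = e(z - w) + Σ e(z - w - q)`; for `R` and `-R` at `z`:
`2 a e(az) = 2 e(z) + Σ e(z + q) + Σ e(z - q)`. So the logarithmic derivative of `G`, which is
`a (e(az + aw) + e(az - aw) - 2 e(az)) + Σ_q (e(z+q) + e(z-q) - 2 e(z)) - (e(z+w) + e(z-w) - 2 e(z))
 - Σ_q (e(z+w+q) + e(z-w-q) - 2 e(z))`, is `0`, and `G` is constant on `U`. For `z → 0` in `U` (`U` is dense):
`z² ℘(z) → 1`, `z² ℘(az) → a⁻²` (`℘ = 1/z² + ℘[L - 0]`), so `G = a⁻²`. Then by continuity for all `z` with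
`a z ∉ L`. -/
def Sa_PFG : Prop :=
  ∀ (L : PeriodPair) (a : ℂ) (R : Finset ℂ) (w : ℂ), a ≠ 0 →
    (∀ u ∈ L.lattice, a * u ∈ L.lattice) → IsReps L a R → a * w ∉ L.lattice →
    ∀ z, a * z ∉ L.lattice →
      a ^ 2 * (L.weierstrassP (a * z) - L.weierstrassP (a * w)) *
        ∏ q ∈ R, (L.weierstrassP z - L.weierstrassP q) =
      (L.weierstrassP z - L.weierstrassP w) *
        ∏ q ∈ R, (L.weierstrassP z - L.weierstrassP (w + q))

/-- (SCP) homogeneity of `℘`, `℘'`, `g₂`, `g₃`.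

PROOF. `℘(z) = Σ_l (1/(z - l)² - 1/l²)`, `℘'(z) = - Σ_l 2/(z - l)³` (`derivWeierstrassP` is defined so),
`G n = Σ_l (l^n)⁻¹`: reindex the sums over `L'` by the bijection `l ↦ a l` of `L` with `L'`
(`Equiv.tsum_eq`), `tsum_mul_left`. `g₂ = 60 G 4`, `g₃ = 140 G 6`. -/
def Sa_SCP : Prop :=
  ∀ (L L' : PeriodPair) (a : ℂ), a ≠ 0 → (∀ u : ℂ, u ∈ L.lattice ↔ a * u ∈ L'.lattice) →
    (∀ z, L'.weierstrassP (a * z) = L.weierstrassP z / a ^ 2) ∧
    (∀ z, L'.derivWeierstrassP (a * z) = L.derivWeierstrassP z / a ^ 3) ∧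
    L'.g₂ = L.g₂ / a ^ 4 ∧ L'.g₃ = L.g₃ / a ^ 6

/-- (TW2) translation by a point `v` of order two; the three roots.

Uses St_ADD, St_ZER, St_NEQ, St_DSC. PROOF. Put `e = ℘ v`, `℘' v = 0` (ZER), so `4e³ - g₂ e - g₃ = 0`
(`derivWeierstrassP_sq`) and `4X³ - g₂X - g₃ = 4 (X - e)(X² + e X + e² - g₂/4)`. (ADD) with `Q = v`
(`z - v ∉ L` as `z - v = z + v - 2v`): `℘(z+v) + ℘ z + e = (℘' z)²/(4 (℘ z - e)²)
 = (℘² + e ℘ + e² - g₂/4)/(℘ - e)`, hence `(℘(z+v) - e)(℘ z - e) = 3e² - g₂/4`. -/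
def Sa_TW2 : Prop :=
  ∀ (L : PeriodPair) (v : ℂ), v ∉ L.lattice → 2 * v ∈ L.lattice →
    4 * L.weierstrassP v ^ 3 - L.g₂ * L.weierstrassP v - L.g₃ = 0 ∧
    ∀ z, z ∉ L.lattice → z + v ∉ L.lattice →
      (L.weierstrassP (z + v) - L.weierstrassP v) * (L.weierstrassP z - L.weierstrassP v) =
        3 * L.weierstrassP v ^ 2 - L.g₂ / 4

/-- (ROO) the three values `℘(v₁), ℘(v₂), ℘(v₁ + v₂)` at the points of order two.

Uses Sa_TW2, St_NEQ. PROOF. `v₁, v₂, v₁ + v₂ ∉ L`, `2 v_i ∈ L`. The three values are different (NEQ: `v - v'` and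
`v + v'` are congruent, to the third point, not in `L`) and are roots of `4X³ - g₂X - g₃`
(TW2): so it is `4 (X - e₁)(X - e₂)(X - e₃)`, compare coefficients. -/
def Sa_ROO : Prop :=
  ∀ (L : PeriodPair) (v v' : ℂ), v ∉ L.lattice → v' ∉ L.lattice → v + v' ∉ L.lattice →
    2 * v ∈ L.lattice → 2 * v' ∈ L.lattice →
    L.weierstrassP v ≠ L.weierstrassP v' ∧ L.weierstrassP v ≠ L.weierstrassP (v + v') ∧
    L.weierstrassP v' ≠ L.weierstrassP (v + v') ∧
    L.weierstrassP v + L.weierstrassP v' + L.weierstrassP (v + v') = 0 ∧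
    L.weierstrassP v * L.weierstrassP v' + L.weierstrassP v * L.weierstrassP (v + v') +
      L.weierstrassP v' * L.weierstrassP (v + v') = -(L.g₂ / 4) ∧
    L.weierstrassP v * L.weierstrassP v' * L.weierstrassP (v + v') = L.g₃ / 4

/-! ## Lattices with complex multiplication -/

/-- (LAT0) lattices exist.

PROOF. `ω₁ = Om`, `ω₂ = Om * wC A B`; linearly independent over `ℝ` because `(wC A B).im > 0`
(`LinearIndependent.pair_iff`: `s Om + t Om w = 0` gives `s + t w = 0`, imaginary part `t = 0`, `s = 0`).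
`z ∈ lattice ↔ ∃ m n : ℤ, m ω₁ + n ω₂ = z` is `PeriodPair.mem_lattice`, and
`emb ⟨m, n⟩ = m + n w`. -/
def Sa_LAT0 : Prop :=
  ∀ A B : ℤ, Case A B → ∀ Om : ℂ, Om ≠ 0 → ∃ L : PeriodPair, IsLat A B L Om

/-- (R8) the case `w² = -2`: `℘(wz)`, and the invariants in terms of `e = ℘(Om w / 2)`.

Uses St_CMX, St_DUP, St_DSC, St_ZER, Sa_TW2, Sa_ROO. PROOF. `v = Om w/2`: `w v = -Om ∈ L`, `v ∉ L`, `2 v ∈ L`, and `{v}` is
`IsReps L w {v}` (`w z ∈ L`: `z = emb x Om/w`, `x = a + b w`; `z = b Om - a Om w/2`, so `z ∈ L` if `a` is even and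
`z - v ∈ L` if `a` is odd). (CMX): `w² ℘(wz) = ℘ z + ℘(z + v) - ℘ v` for `w z ∉ L`, and (TW2):
(1) `-2 ℘(wz) = ℘ z + c/(℘ z - e)`, `c = 3e² - g₂/4`, `℘ z ≠ e` (NEQ). Let `c' = 8 c = 9 e²` be shown: take `z` with
`2 z ∉ L` and `w z ∉ L` (e.g. `z = Om/3`). With `Y = ℘ z - e` (`≠ 0`), (1) for `z` and for `w z`
(`w (w z) = -2 z`; `2 z ∉ L`): `℘(wz) = -(Y + e + c/Y)/2`, `℘(wz) - e = -(Y² + 3eY + c)/(2Y)`, so
`4 ℘(2z) = Y + e + c/Y + 4 c Y/(Y² + 3eY + c)`. On the other hand (DUP)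
`℘(2z) = -2℘ z + (6℘² - g₂/2)²/(4 ℘'²)`, `℘'² = 4 Y (Y² + 3eY + c)`, `g₂ = 4 (3e² - c)`, `g₃ = 4 e (c - 2e²)` (from
`4e³ - g₂e - g₃ = 0`): `℘(2z) = (Y⁴ + 4eY³ + (12e² - 2c)Y² + 4ecY + c²)/(4Y(Y² + 3eY + c))`. The first expression
is `(Y⁴ + 4eY³ + (3e² + 6c)Y² + 4ecY + c²)/(4Y(Y² + 3eY + c))`. So `(9e² - 8c) Y² = 0`, `c = 9e²/8`. Then
`g₂ = 15e²/2`, `g₃ = -7e³/2`. If `e = 0` then `g₂ = g₃ = 0` against (DSC). -/
def Sa_R8 : Prop :=
  ∀ (L : PeriodPair) (Om : ℂ), IsLat (-2) 0 L Om →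
    L.weierstrassP (Om * wC (-2) 0 / 2) ≠ 0 ∧
    L.g₂ = 15 / 2 * L.weierstrassP (Om * wC (-2) 0 / 2) ^ 2 ∧
    L.g₃ = -7 / 2 * L.weierstrassP (Om * wC (-2) 0 / 2) ^ 3 ∧
    ∀ z, wC (-2) 0 * z ∉ L.lattice →
      L.weierstrassP z ≠ L.weierstrassP (Om * wC (-2) 0 / 2) ∧
      -2 * L.weierstrassP (wC (-2) 0 * z) * (L.weierstrassP z - L.weierstrassP (Om * wC (-2) 0 / 2)) =
        L.weierstrassP z * (L.weierstrassP z - L.weierstrassP (Om * wC (-2) 0 / 2)) +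
          9 / 8 * L.weierstrassP (Om * wC (-2) 0 / 2) ^ 2

/-- (R11) the case `w² = w - 3`: `℘(wz)` and the invariants in terms of `x₀ = ℘(Om/w)`.

Uses St_CMX, St_ADD, St_NEQ, St_DSC, St_DUP, Sa_ROO. PROOF. Write `w = wC (-3) 1`, `w² = w - 3`,
`1/w = (1 - w)/3`. `u = Om/w`, `u ∉ L`, `w u ∈ L`, `3 u = (1 - w) w u ∈ L`, `2 u ∉ L`, and `{u, -u}` is `IsReps L w {u, -u}`:
if `w z ∈ L`, `z = emb x u` with `x = a + b w`, then `z ≡ a u`, `a mod 3 ∈ {0, 1, -1}` (`3 u ∈ L`, `w u ∈ L`), and `u ≡ -u` is false.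
(CMX): `w² ℘(wz) = ℘ z + ℘(z+u) + ℘(z-u) - 2x₀`. (ADD) for `Q = u, -u`, added, with `f(X) = 4X³ - g₂X - g₃`,
`℘'² = f(℘)`: `℘(z+u) + ℘(z-u) = (f(℘) + f(x₀))/(2(℘ - x₀)²) - 2℘ - 2x₀`; expanding `f` at `x₀`:
(1) `w² ℘(wz) = ℘ + A₁/(℘ - x₀) + B₁/(℘ - x₀)²`, `A₁ = f'(x₀)/2 = 6x₀² - g₂/2`, `B₁ = f(x₀)`, `℘ z ≠ x₀`.
(2) `3u ∈ L`: `℘(2u) = ℘(u)`, (DUP): `3x₀ = (6x₀² - g₂/2)²/(4 f(x₀))`, i.e. `A₁² = 12 x₀ B₁`.
(3) points of order two: `v = Om/2`, `v' = Om w/2`, `v'' = v + v'`, `e, e', e''` their `℘`; `w v = v'`,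
`w v' ≡ v''`, `w v'' ≡ v` modulo `L`. (1) gives `w² e' = e + A₁/(e-x₀) + B₁/(e-x₀)²` and cyclically. Multiply by
`e`, `e'`, `e''` resp. and add. `Σ e² = g₂/2`, `Σ e e' = -g₂/4`; with `s = Σ 1/(e_i - x₀) = -f'(x₀)/f(x₀) = -2A₁/B₁` and
`t = Σ 1/(e_i - x₀)²`: `Σ e_i/(e_i - x₀) = 3 + x₀ s`, `Σ e_i/(e_i - x₀)² = s + x₀ t`. Adding the three
equations without factor: `0 = A₁ s + B₁ t`. So `-w² g₂/4 = g₂/2 + 3A₁ + B₁ s = g₂/2 + A₁`
(to avoid fractions: everything is a polynomial identity after multiplying by powers of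
`(e-x₀)(e'-x₀)(e''-x₀) = -B₁/4 ≠ 0`). Hence `A₁ = -g₂ (2 + w²)/4 = g₂ (1 - w)/4`, with `A₁ = 6x₀² - g₂/2`:
`24 x₀² = g₂ (3 - w) = -w² g₂`.
(4) `x₀ ≠ 0`: otherwise `g₂ = 0`, `A₁ = 0`, `B₁ = -g₃ ≠ 0` (DSC), `4 e³ = g₃`, so (1) at `v`: `w² e' = e - g₃/e² = -3e`,
cyclically `e' = c e`, `e'' = c e'`, `e = c e''` with `c = -3/w²`, so `c³ = 1` (`e ≠ 0`): `-27 = w⁶`. But
`w⁶ = (w²)³ = (w-3)³ = w³ - 9w² + 27w - 27`, `w³ = -2w - 3`, `w⁶ = 16 w - 3 ≠ -27` (imaginary part).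
(5) `B₁ = A₁²/(12x₀)`, `g₂ = -24x₀²/w²`, `A₁ = 6x₀²(w² + 2)/w² = 6x₀²(w - 1)/w²`,
`B₁ = 3x₀³(w-1)²/w⁴`, `g₃ = 4x₀³ - g₂x₀ - B₁ = x₀³ (4w⁴ + 24w² - 3(w-1)²)/w⁴ = 7 x₀³ (w - 6)/w⁴`. -/
def Sa_R11 : Prop :=
  ∀ (L : PeriodPair) (Om : ℂ), IsLat (-3) 1 L Om →
    L.weierstrassP (Om / wC (-3) 1) ≠ 0 ∧
    wC (-3) 1 ^ 2 * L.g₂ = -24 * L.weierstrassP (Om / wC (-3) 1) ^ 2 ∧
    wC (-3) 1 ^ 4 * L.g₃ = 7 * L.weierstrassP (Om / wC (-3) 1) ^ 3 * (wC (-3) 1 - 6) ∧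
    ∀ z, wC (-3) 1 * z ∉ L.lattice →
      L.weierstrassP z ≠ L.weierstrassP (Om / wC (-3) 1) ∧
      wC (-3) 1 ^ 2 * L.weierstrassP (wC (-3) 1 * z) *
          (L.weierstrassP z - L.weierstrassP (Om / wC (-3) 1)) ^ 2 =
        L.weierstrassP z * (L.weierstrassP z - L.weierstrassP (Om / wC (-3) 1)) ^ 2 +
          (6 * L.weierstrassP (Om / wC (-3) 1) ^ 2 - L.g₂ / 2) *
            (L.weierstrassP z - L.weierstrassP (Om / wC (-3) 1)) +
          (4 * L.weierstrassP (Om / wC (-3) 1) ^ 3 - L.g₂ * L.weierstrassP (Om / wC (-3) 1) - L.g₃)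

/-- (EX) the normal form exists.

Uses Sa_LAT0, Sa_SCP, Sa_R8, Sa_R11. PROOF. Let `L₀ = emb O` (`Om = 1`). Case `(-2, 0)`: `e₀ = ℘₀(w/2) ≠ 0`;
choose `Om` with `Om² = 3 e₀/4`; `L = Om L₀` has `℘(Om w/2) = e₀/Om² = 4/3`, so (R8) `g₂ = 40/3`, `g₃ = -224/27`, which
are the required values (`a₂ = 4`, `a₄ = 2`, `a₆ = 0`: `-4 (2 - 16/3) = 40/3`,
`-4 (2 (4/3)³ - 8/3) = -224/27`). Case `(-3, 1)`: `x₀ = ℘₀(1/w) ≠ 0`; `Om² = 3 x₀/w`; then `℘(Om/w) = w/3`, so (R11)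
`g₂ = -24/9 = -8/3`, `g₃ = 7 (w - 6)/(27 w) = 7 (2w - 1)/27`; required, with `δ = 2w - 1`, `δ² = -11`:
`-4 (-3 - δ²/3) = -8/3`, `-4 (-δ/4 + 2 δ³/27 + δ) = -4 δ (3/4 - 22/27) = 7δ/27`. -/
def Sa_EX : Prop := ∀ A B : ℤ, Case A B → ∃ (L : PeriodPair) (Om : ℂ), IsCM A B L Om

/-- (EQN) basic facts on `x` and `y`: the equation of the curve, non-singularity, parity and
periodicity, injectivity and surjectivity, derivatives.

Uses St_NEQ, St_ZER, St_DSC, St_P2. PROOF. `℘'² = 4℘³ - g₂℘ - g₃` (`derivWeierstrassP_sq`) with the values of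
`g₂`, `g₃` from `IsCM` gives the equation (`ring`). If `y z = y z'`, `x z = x z'` then `z' ≡ ± z` (NEQ); if
`z' ≡ -z` then `y z = -y z`, `y z = 0`, `2 z ∈ L` (ZER), `z' ≡ -z ≡ z`. Surjectivity: (DSC). Non-singular: if `y = 0` and
`3x² + 2a₂x + a₄ = 0` then the cubic `4X³ - g₂X - g₃` would have a double root: `g₂³ = 27 g₃²`, against (DSC)
(for a double root `r`, `g₂ = 12 r²`, `g₃ = -8 r³`). Derivatives: Mathlib and (P2):
`℘'' = 6℘² - g₂/2 = 2 (3x² + 2a₂x + a₄)`. -/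
def Sa_EQN : Prop :=
  ∀ (A B : ℤ) (L : PeriodPair) (Om : ℂ), Case A B → IsCM A B L Om →
    (∀ z, z ∉ L.lattice → yy L z ^ 2 = xx A B L z ^ 3 + emb (a2 A B) * xx A B L z ^ 2 +
      emb (a4 A B) * xx A B L z + emb (a6 A B) / 4) ∧
    (∀ z, z ∉ L.lattice → (yy L z ≠ 0 ∨
      3 * xx A B L z ^ 2 + 2 * emb (a2 A B) * xx A B L z + emb (a4 A B) ≠ 0)) ∧
    (∀ z, xx A B L (-z) = xx A B L z ∧ yy L (-z) = -yy L z) ∧
    (∀ z, ∀ u ∈ L.lattice, xx A B L (z + u) = xx A B L z ∧ yy L (z + u) = yy L z) ∧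
    (∀ z z', z ∉ L.lattice → z' ∉ L.lattice → xx A B L z = xx A B L z' →
      z - z' ∈ L.lattice ∨ z + z' ∈ L.lattice) ∧
    (∀ z z', z ∉ L.lattice → z' ∉ L.lattice → xx A B L z = xx A B L z' → yy L z = yy L z' →
      z - z' ∈ L.lattice) ∧
    (∀ z, z ∉ L.lattice → (yy L z = 0 ↔ 2 * z ∈ L.lattice)) ∧
    (∀ X Y : ℂ, Y ^ 2 = X ^ 3 + emb (a2 A B) * X ^ 2 + emb (a4 A B) * X + emb (a6 A B) / 4 →
      ∃ z, z ∉ L.lattice ∧ xx A B L z = X ∧ yy L z = Y) ∧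
    (∀ z, z ∉ L.lattice → HasDerivAt (xx A B L) (2 * yy L z) z ∧
      HasDerivAt (yy L) (3 * xx A B L z ^ 2 + 2 * emb (a2 A B) * xx A B L z + emb (a4 A B)) z)

/-- (LAW) addition and duplication in the coordinates `x`, `y`.

Uses St_ADD, St_DUP, Sa_EQN. PROOF. (ADD), (DUP) with `℘ = x + a₂/3`, `℘' = 2y`, `g₂` of `IsCM`
(`6℘² - g₂/2 = 2 (3x² + 2a₂x + a₄)`): slope `M`, `x₃ = M² - a₂ - x₁ - x₂`, `y₃ = -y₁ - M (x₃ - x₁)`. -/
def Sa_LAW : Prop :=
  ∀ (A B : ℤ) (L : PeriodPair) (Om : ℂ), Case A B → IsCM A B L Om →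
    (∀ z z', z ∉ L.lattice → z' ∉ L.lattice → z + z' ∉ L.lattice → z - z' ∉ L.lattice →
      xx A B L (z + z') = ((yy L z - yy L z') / (xx A B L z - xx A B L z')) ^ 2 -
        emb (a2 A B) - xx A B L z - xx A B L z' ∧
      yy L (z + z') = -yy L z - (yy L z - yy L z') / (xx A B L z - xx A B L z') *
        (xx A B L (z + z') - xx A B L z)) ∧
    (∀ z, 2 * z ∉ L.lattice →
      xx A B L (2 * z) = ((3 * xx A B L z ^ 2 + 2 * emb (a2 A B) * xx A B L z + emb (a4 A B)) /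
        (2 * yy L z)) ^ 2 - emb (a2 A B) - 2 * xx A B L z ∧
      yy L (2 * z) = -yy L z - (3 * xx A B L z ^ 2 + 2 * emb (a2 A B) * xx A B L z + emb (a4 A B)) /
        (2 * yy L z) * (xx A B L (2 * z) - xx A B L z))

/-- (XI) the group isomorphism `ℂ / L ≅ E(ℂ)`, in Mathlib's affine points.

Uses Sa_EQN, Sa_LAW. PROOF. Define `ξ z = 0` for `z ∈ L` and `ξ z = some (x z) (y z) _` otherwise (the point is
on the curve and non-singular: EQN; `WeierstrassCurve.Affine.nonsingular_iff'`/`equation_iff`, `a₁ = a₃ = 0`).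
Additive: cases `z ∈ L` or `z' ∈ L` (periodicity); `z + z' ∈ L`: `x z' = x z`, `y z' = -y z`:
`Point.add_of_Y_eq`; `z - z' ∈ L`, `z + z' ∉ L`: then `2 z ∉ L`, `y z ≠ 0`, `Point.add_self_of_Y_ne` or `add_some`
with the tangent slope `(3x² + 2a₂x + a₄)/(2y)` (`slope_of_Y_ne`) and (LAW), second part; otherwise
`x z ≠ x z'`, `add_of_X_ne`/`slope_of_X_ne` and (LAW), first part (`addX`, `addY`, `negY`). -/
def Sa_XI : Prop :=
  ∀ (A B : ℤ) (L : PeriodPair) (Om : ℂ), Case A B → IsCM A B L Om →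
    ∃ ξ : ℂ →+ (WeierstrassCurve.Affine.baseChange (EE A B) ℂ).Point,
      (∀ z, ξ z = 0 ↔ z ∈ L.lattice) ∧ Function.Surjective ξ ∧
      ∀ z, z ∉ L.lattice → ∃ h, ξ z = .some (xx A B L z) (yy L z) h

/-! ## The explicit complex multiplication -/

/-- (N8) `w² = -2`: multiplication by `w` is `x ↦ -(x² + 4x + 2)/(2x)`, `y ↦ -y (x² - 2)/(2 w x²)`.

Uses Sa_R8, Sa_EQN, St_DSC. PROOF. `g₂ = 40/3 = 15e²/2`, `g₃ = -224/27 = -7e³/2`, so `e² = 16/9`, `e³ = 64/27`, `e = 4/3`: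
`e = a₂/3`, `x = ℘ - e`, `x(Om w/2) = 0`. (R8): `-2 (x(wz) + e) x = (x + e) x + 9e²/8 = x² + e x + 2`, so
`-2 x(wz) x = x² + 3e x + 2 = x² + 4x + 2`. `x z = 0` iff `z ≡ ± Om w/2` (EQN) iff `w z ∈ L` (for `z ∉ L`): the
class of `Om w/2` is the only nonzero class of `w⁻¹L/L`, see the proof of (R8). Derivative of
`x(wz)·2x = -(x² + 4x + 2)` (valid near `z`): `2 w y(wz) 2x + x(wz) 4y = -(2x + 4) 2y`; multiply by `x`:
`4 w x² y(wz) = -(4x² + 8x) y + 2 y (x² + 4x + 2) = -2 y (x² - 2)`. -/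
def Sa_N8 : Prop :=
  ∀ (L : PeriodPair) (Om : ℂ), IsCM (-2) 0 L Om →
    (∀ z, z ∉ L.lattice → (wC (-2) 0 * z ∈ L.lattice ↔ xx (-2) 0 L z = 0)) ∧
    ∀ z, wC (-2) 0 * z ∉ L.lattice →
      xx (-2) 0 L (wC (-2) 0 * z) * (2 * xx (-2) 0 L z) =
        -(xx (-2) 0 L z ^ 2 + 4 * xx (-2) 0 L z + 2) ∧
      yy L (wC (-2) 0 * z) * (2 * wC (-2) 0 * xx (-2) 0 L z ^ 2) =
        -yy L z * (xx (-2) 0 L z ^ 2 - 2)

/-- (N8P) `w² = -2`: multiplication by `1 + w` and by `1 - w`.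

Uses Sa_N8, Sa_EQN, Sa_LAW. PROOF (for `s = ± w`, `λ = 1 + s`; `x(sz) = x(wz)`, `y(sz) = ± y(wz)`, so
`x(sz) 2x = -(x²+4x+2)`, `y(sz) 2 s x² = -y(x²-2)`; `s² = -2`). Generic `z` (`z, w z, (1 ± w) z ∉ L`): (LAW) for `z`, `s z`:
`x - x(sz) = (3x² + 4x + 2)/(2x)`, `y - y(sz) = y ((1 + 2s) x² - 2)/(2 s x²)`,
`3x² + 4x + 2 = ((1+s)x + s)((1-s)x - s)`, `(1+2s)x² - 2 = (x - (s-2)/3)((1+2s)x - (s+2))`,
`(1-s)x - s = (1-s)(x - (s-2)/3)`; then `((y - y(sz))/(x - x(sz)))² - 4 - x - x(sz)` equals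
`(x³ + (4-2s)x² + (2-4s)x)/((1+s)x + s)²` (`field_simp; ring` with `y² = x(x²+4x+2)`, `s² = -2`).
For the other `z` with `λ z ∉ L`: continuity (both sides of the formula with the denominator
multiplied out are continuous at `z`, as `z, λ z ∉ L`). Kernel: let `r = -s/(1+s) = -(s+2)/3`. The
numerator `r (r² + (4-2s)r + 2-4s) = -r (16 + 32s)/9` is not `0`. By surjectivity of `x` (EQN) there is
`u ∉ L` with `x u = r`; if `λ u ∉ L` the formula gives `0 = ` numerator, so `λ u ∈ L`. The `z ∉ L` with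
`λ z ∈ L` are the `z ≡ ± Om/λ` (`torsion_iff`, `O/λ` has the classes `0, 1, -1`), hence `≡ ± u`. So
`λ x z + s = 0` iff `x z = x u` iff `z ≡ ± u` iff `λ z ∈ L` (for `z ∉ L`). The formula for `y`:
differentiate `x(λz) D(x)² = N(x)`: `λ y(λz) D² + 2 x(λz) D D' y = N' y`, times `D`:
`λ y(λz) D³ = y (N' D - 2 N D')` and `N' D - 2 N D' = λ M` (`ring`). -/
def Sa_N8P : Prop :=
  ∀ (L : PeriodPair) (Om : ℂ), IsCM (-2) 0 L Om →
    Iso3 L (⟨1, 1⟩ : OO (-2) 0) ⟨0, 1⟩ ⟨4, -2⟩ ⟨2, -4⟩ 0 ⟨2, 1⟩ ⟨6, 4⟩ ⟨4, -2⟩ ∧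
    Iso3 L (⟨1, -1⟩ : OO (-2) 0) ⟨0, -1⟩ ⟨4, 2⟩ ⟨2, 4⟩ 0 ⟨2, -1⟩ ⟨6, -4⟩ ⟨4, 2⟩

/-- (N11) `w² = w - 3`: multiplication by `w`.

Uses Sa_R11, Sa_EQN. PROOF. Write `w = wC (-3) 1`. From `IsCM`: `g₂ = -8/3`, `g₃ = 7 (2w-1)/27`. With `x₀ = ℘(Om/w)`:
`24x₀² = -w²g₂ = 8w²/3`, `x₀² = w²/9`, and `x₀³ = w⁴g₃/(7(w-6)) = w⁴(2w-1)/(27(w-6)) = w³/27` (`w(2w-1) = w-6`). So
`x₀ = w/3` (`x₀³ = x₀ x₀²`, `w ≠ 0`). `x = ℘ - (2w-1)/3`, so `x(Om/w) = (1-w)/3 = 1/w`. (R11) with `℘ - x₀ = x - 1/w`,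
`A₁ = 6x₀² - g₂/2 = (2w² + 4)/3 = (2w - 2)/3`, `B₁ = 3x₀³(w-1)²/w⁴ = (w-1)²/(9w)`:
`w²(x(wz) + δ/3)(x - 1/w)² = (x + δ/3)(x - 1/w)² + A₁(x - 1/w) + B₁`; multiply out, use `w² = w - 3`:
`x(wz)(w x - 1)² = x³ + 3w x² + (w-6) x - w`. Kernel: `w z ∈ L`, `z ∉ L` iff `z ≡ ± Om/w` iff `x z = 1/w` (EQN; see the
proof of (R11) for the classes). `y`: differentiate as in (N8P). -/
def Sa_N11 : Prop :=
  ∀ (L : PeriodPair) (Om : ℂ), IsCM (-3) 1 L Om →
    Iso3 L (⟨0, 1⟩ : OO (-3) 1) (-1) ⟨0, 3⟩ ⟨-6, 1⟩ ⟨0, -1⟩ ⟨-1, 1⟩ ⟨0, -1⟩ 1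

/-- (N11C) `w² = w - 3`: multiplication by `1 - w`.

Uses Sa_N11, Sa_EQN, Sa_LAW. PROOF. (LAW) for `z` and `-w z`, generic `z` (`z, w z, (1 ± w) z ∉ L`), with
`x(-wz) = N(x)/(w x - 1)²`, `y(-wz) = -y M(x)/(w x - 1)³` (N11) and `y² = x³ + δx² - 3x - δ/4`: `field_simp`, `ring`
(with `w² = w - 3`) shows `x((1-w)z) = (x³ + (3w-3)x² - (w+5)x + (1-w))/((1-w)x + 1)²`. The rest as in (N8P):
continuity, kernel (the numerator does not vanish at `x = -1/(1-w) = -w/3`; the nonzero classes killed by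
`1 - w` are `± Om/(1-w)`), derivative. -/
def Sa_N11C : Prop :=
  ∀ (L : PeriodPair) (Om : ℂ), IsCM (-3) 1 L Om →
    Iso3 L (⟨1, -1⟩ : OO (-3) 1) 1 ⟨-3, 3⟩ ⟨-5, -1⟩ ⟨1, -1⟩ ⟨0, 1⟩ ⟨-1, 1⟩ (-1)

/-- (OMU) multiplication by `w` is given by rational functions over `k`, in both cases.

Uses Sa_N8, Sa_N11. PROOF. `(-2,0)`: `D = 2X`, `N = -(X² + 4X + 2)`, `E = 2wX²`, `M = -(X² - 2)`.
`(-3,1)`: `D = (wX - 1)²`, `N = X³ + 3wX² + (w-6)X - w`, `E = (wX - 1)³`, `M = X³ + (w-1)X² - wX + 1`. -/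
def Sa_OMU : Prop :=
  ∀ (A B : ℤ), Case A B → ∃ D N E M : (kk A B)[X],
    ∀ (L : PeriodPair) (Om : ℂ), IsCM A B L Om → ∀ z, z ∉ L.lattice →
      (wC A B * z ∈ L.lattice → aeval (xx A B L z) D = 0) ∧
      (wC A B * z ∉ L.lattice → aeval (xx A B L z) D ≠ 0 ∧ aeval (xx A B L z) E ≠ 0 ∧
        xx A B L (wC A B * z) * aeval (xx A B L z) D = aeval (xx A B L z) N ∧
        yy L (wC A B * z) * aeval (xx A B L z) E = yy L z * aeval (xx A B L z) M)

end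

end Pool.Agent.MU3A


end

section

/-!
# MU3, block FH: module F7, the values of the symbol lie in a finitely generated group
-/

set_option autoImplicit false

namespace Pool.Agent.MU3F

open _root_.MU3 _root_.Pool.Agent.MU3A _root_.Pool.Agent.MU3B _root_.Pool.Agent.MuSym OnePoint
open scoped ComplexConjugate

noncomputable section

/-- the values of `chiD` -/
lemma chiD_mem (A B d : ℤ) : chiD A B d ∈ ({-1, 0, 1} : Set ℤ) := by
  unfold chiD
  split_ifs <;> simp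

/-- F7. -/
theorem tf_F7 (hBDD : Sf_BDD) (hFG : Sf_FG) : Sf_F7 := by
  intro A B hc g e hg he N hN hs
  refine hFG N (nuE e) (Phi e) hN hs ?_
  have h1 : (Set.range e).Finite := (hBDD A B hc g e hg he).1
  have h2 : ({-1, 0, 1} : Set ℤ).Finite := Set.toFinite _
  refine (h2.image2 (fun (c : ℤ) (z : ℂ) => (c : ℂ) * z) h1).subset ?_
  rintro _ ⟨d, rfl⟩
  exact ⟨chiD A B d, chiD_mem A B d, e (d : OO A B), ⟨_, rfl⟩, rfl⟩

end

end Pool.Agent.MU3F


end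

section

/-!
# MU3, block FH: module F3 (the symbol is an eigensymbol of `U_3`)
-/

set_option autoImplicit false

namespace Pool.Agent.MU3F

open _root_.MU3 _root_.Pool.Agent.MU3A _root_.Pool.Agent.MU3B _root_.Pool.Agent.MuSym OnePoint
open scoped ComplexConjugate

noncomputable section

namespace F3

/-- the relation for the integrals along the vertical lines -/
lemma main (hU3 : Sf_U3) (hITG : Sf_ITG) (A B : ℤ) (hC : Case A B) (g : OO A B)
    (e : OO A B → ℂ) (hg : g ≠ 0) (he : IsEps g e) (hd : star (ppi A B) ∣ g) (r : ℚ) :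
    ∑ j ∈ Finset.range 3, Iv e ((r + j) / 3) = e (ppi A B) * conj (emb (ppi A B)) * Iv e r := by
  have h1 : ∀ j ∈ Finset.range 3, MeasureTheory.IntegrableOn
      (fun t : ℝ => theta e ((((r + (j : ℚ)) / 3 : ℚ) : ℂ) + t * Complex.I)) (Set.Ioi 0) :=
    fun j _ => hITG A B hC g e hg he _
  unfold Iv
  rw [← Finset.mul_sum, ← MeasureTheory.integral_finsetSum _ h1]
  have h2 : ∫ t in Set.Ioi (0 : ℝ), ∑ j ∈ Finset.range 3,
      theta e ((((r + (j : ℚ)) / 3 : ℚ) : ℂ) + t * Complex.I) =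
      ∫ t in Set.Ioi (0 : ℝ), 3 * (e (ppi A B) * conj (emb (ppi A B))) *
        (fun s : ℝ => theta e ((r : ℂ) + s * Complex.I)) (3 * t) := by
    refine MeasureTheory.setIntegral_congr_fun measurableSet_Ioi fun t ht => ?_
    have ht0 : (0 : ℝ) < t := ht
    have hz : 0 < ((r : ℂ) + ((3 * t : ℝ) : ℂ) * Complex.I).im := by
      simp only [Complex.add_im, Complex.ratCast_im, Complex.mul_im, Complex.ofReal_re,
        Complex.I_im, mul_one, Complex.ofReal_im, Complex.I_re, mul_zero, add_zero, zero_add]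
      linarith
    have h3 := hU3 A B hC g e hg he hd _ hz
    show ∑ j ∈ Finset.range 3, theta e ((((r + (j : ℚ)) / 3 : ℚ) : ℂ) + t * Complex.I) =
      3 * (e (ppi A B) * conj (emb (ppi A B))) * theta e ((r : ℂ) + ((3 * t : ℝ) : ℂ) * Complex.I)
    rw [← h3]
    refine Finset.sum_congr rfl fun j _ => ?_
    congr 1
    push_cast
    ring
  rw [h2, MeasureTheory.integral_const_mul]
  have h4 := MeasureTheory.integral_comp_mul_left_Ioi
    (fun s : ℝ => theta e ((r : ℂ) + s * Complex.I)) 0 (b := 3) (by norm_num)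
  rw [h4, mul_zero, Complex.real_smul]
  push_cast
  ring

lemma mob3 (j : ℤ) (r : ℚ) : mob 1 j 0 3 (r : OnePoint ℚ) = (((r + j) / 3 : ℚ) : OnePoint ℚ) := by
  show (if ((0 : ℤ) : ℚ) * r + ((3 : ℤ) : ℚ) = 0 then ∞ else
    (((((1 : ℤ) : ℚ) * r + (j : ℚ)) / (((0 : ℤ) : ℚ) * r + ((3 : ℤ) : ℚ)) : ℚ) : OnePoint ℚ)) = _
  rw [if_neg (by norm_num)]
  norm_num

lemma mob3_inf (j : ℤ) : mob 1 j 0 3 (∞ : OnePoint ℚ) = ∞ := by
  show (if (0 : ℤ) = 0 then (∞ : OnePoint ℚ) else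
    ((((1 : ℤ) : ℚ) / ((0 : ℤ) : ℚ) : ℚ) : OnePoint ℚ)) = _
  rw [if_pos rfl]

lemma ic (hU3 : Sf_U3) (hITG : Sf_ITG) (A B : ℤ) (hC : Case A B) (g : OO A B)
    (e : OO A B → ℂ) (hg : g ≠ 0) (he : IsEps g e) (hd : star (ppi A B) ∣ g)
    (x : OnePoint ℚ) :
    ∑ j ∈ Finset.range 3, Ic e (mob 1 j 0 3 x) = e (ppi A B) * conj (emb (ppi A B)) * Ic e x := by
  induction x using OnePoint.rec with
  | infty =>
    have h1 : Ic e (∞ : OnePoint ℚ) = 0 := rfl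
    rw [h1, mul_zero]
    refine Finset.sum_eq_zero fun j _ => ?_
    rw [mob3_inf]
    exact h1
  | coe r =>
    have h1 : ∀ q : ℚ, Ic e (q : OnePoint ℚ) = Iv e q := fun q => rfl
    rw [h1, ← main hU3 hITG A B hC g e hg he hd r]
    refine Finset.sum_congr rfl fun j _ => ?_
    rw [mob3, h1]
    push_cast
    rfl

end F3

open _root_.Pool.Agent.MU3F.F3 in
theorem tf_F3 (hALG : Sf_ALG) (hU3 : Sf_U3) (hITG : Sf_ITG) : Sf_F3 := by
  intro A B hC g e hg he hd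
  obtain ⟨-, -, -, -, hpp, hnu⟩ := hALG A B hC
  have h3 : nuE e 3 = 0 := by
    unfold nuE
    have h : e (((3 : ℤ)) : OO A B) = 0 := by
      by_contra hc
      have hcop := (he.supp _).1 hc
      apply hnu
      refine hcop.isUnit_of_dvd' ?_ hd
      refine ⟨ppi A B, ?_⟩
      rw [mul_comm, hpp]
      norm_num
    rw [h, mul_zero]
  refine ⟨h3, fun x y => ?_⟩
  unfold hecke
  have h3' : nuE e ((3 : ℕ) : ℤ) = 0 := by
    rw [← h3]
    norm_num
  rw [h3', zero_mul, add_zero]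
  unfold Phi
  rw [Finset.sum_sub_distrib, mul_sub]
  congr 1
  · exact ic hU3 hITG A B hC g e hg he hd x
  · exact ic hU3 hITG A B hC g e hg he hd y

end

end Pool.Agent.MU3F


end

section

/-!
# MU3, block FH, module ITG: integrability of theta on the vertical lines over rational numbers
-/

set_option autoImplicit false

namespace Pool.Agent.MU3F

open _root_.MU3 _root_.Pool.Agent.MU3A _root_.Pool.Agent.MU3B _root_.Pool.Agent.MuSym OnePoint
open scoped ComplexConjugate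

noncomputable section

theorem tf_ITG (hF4 : Sf_F4) (hLAT0 : Pool.Agent.MU3A.Sa_LAT0) : Sf_ITG := by
  intro A B h g e hg he r
  obtain ⟨L, hL⟩ := hLAT0 A B h 1 one_ne_zero
  have hM : 0 < r.den := r.pos
  have hMC : ((r.den : ℕ) : ℂ) ≠ 0 := by exact_mod_cast hM.ne'
  have hg' : g * ((r.den : ℕ) : OO A B) ≠ 0 := by
    intro h0
    have h1 := congrArg emb h0
    rw [emb_mul h, emb_zero h, emb_natCast h] at h1
    exact mul_ne_zero (emb_ne_zero h hg) hMC h1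
  have h2 := (hF4 A B h L 1 hL g (g * ((r.den : ℕ) : OO A B)) e he hg' (Dvd.intro _ rfl) r.den hM
    (Dvd.intro_left _ rfl) r.num).1
  rw [Rat.num_div_den] at h2
  exact h2

end

end Pool.Agent.MU3F


end

section

/-!
# MU3, block A: the lattices `Om * emb O` (LAT0)
-/

set_option autoImplicit false

namespace Pool.Agent.MU3A

open _root_.MU3 _root_.Pool.Agent.MU3B

theorem ta_LAT0 : Sa_LAT0 := by
  intro A B h Om hOm
  have hind : LinearIndependent ℝ ![Om, Om * wC A B] := by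
    rw [LinearIndependent.pair_iff]
    intro s t hst
    rw [Complex.real_smul, Complex.real_smul] at hst
    have h1 : Om * ((s : ℂ) + t * wC A B) = 0 := by
      rw [← hst]
      ring
    have h2 : (s : ℂ) + t * wC A B = 0 := (mul_eq_zero.1 h1).resolve_left hOm
    have h3 := congrArg Complex.im h2
    simp only [Complex.add_im, Complex.ofReal_im, Complex.mul_im, Complex.ofReal_re, zero_mul,
      add_zero, zero_add, Complex.zero_im] at h3
    have h4 : t = 0 := (mul_eq_zero.1 h3).resolve_right (wC_im_pos h).ne'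
    rw [h4] at h2
    simp only [Complex.ofReal_zero, zero_mul, add_zero] at h2
    exact ⟨by exact_mod_cast h2, h4⟩
  refine ⟨⟨Om, Om * wC A B, hind⟩, hOm, fun z => ?_⟩
  rw [PeriodPair.mem_lattice]
  constructor
  · rintro ⟨m, n, hz⟩
    refine ⟨⟨m, n⟩, ?_⟩
    rw [← hz]
    simp only [emb]
    ring
  · rintro ⟨x, hz⟩
    refine ⟨x.re, x.im, ?_⟩
    rw [hz]
    simp only [emb]
    ring

end Pool.Agent.MU3A


end

section

/-!
# MU3, block A, module N8: multiplication by `w = √-2`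
-/

set_option autoImplicit false

namespace Pool.Agent.MU3A

open _root_.MU3 _root_.Pool.Agent.MU3B Polynomial

namespace N8

lemma cs : Case (-2) 0 := Or.inl ⟨rfl, rfl⟩

lemma ww : wC (-2) 0 * wC (-2) 0 = -2 := by
  have h := wC_sq cs
  rw [h]
  push_cast
  ring

lemma ea2 : (emb (a2 (-2) 0) : ℂ) = 4 := by
  have h : a2 (-2) 0 = ((4 : ℕ) : OO (-2) 0) := rfl
  rw [h, emb_natCast cs]
  norm_num

lemma ea4 : (emb (a4 (-2) 0) : ℂ) = 2 := by
  have h : a4 (-2) 0 = ((2 : ℕ) : OO (-2) 0) := rfl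
  rw [h, emb_natCast cs]
  norm_num

lemma ea6 : (emb (a6 (-2) 0) : ℂ) = 0 := by
  have h : a6 (-2) 0 = 0 := rfl
  rw [h, emb_zero cs]

/-- The value `e = 4/3`. -/
lemma val {L : PeriodPair} {Om : ℂ} (h1 : Sa_R8) (hL : IsCM (-2) 0 L Om) :
    L.weierstrassP (Om * wC (-2) 0 / 2) = 4 / 3 := by
  obtain ⟨h0, hg2, hg3, -⟩ := h1 L Om hL.toIsLat
  have k2 := hL.g2
  have k3 := hL.g3
  rw [ea2, ea4] at k2
  rw [ea2, ea4, ea6] at k3
  rw [k2] at hg2
  rw [k3] at hg3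
  set e := L.weierstrassP (Om * wC (-2) 0 / 2) with he
  have e2 : e ^ 2 = 16 / 9 := by linear_combination (-2 / 15) * hg2
  have e3 : e ^ 3 = 64 / 27 := by linear_combination (2 / 7) * hg3
  linear_combination (9 / 16) * e3 - (9 / 16) * e * e2

end N8

open _root_.Pool.Agent.MU3A.N8 in
theorem ta_N8 (h1 : Sa_R8) (h2 : Sa_EQN) : Sa_N8 := by
  intro L Om hL
  have hv := val h1 hL
  obtain ⟨-, -, -, hR⟩ := h1 L Om hL.toIsLat
  rw [hv] at hR
  obtain ⟨-, -, hpar, hper, -, -, -, -, hder⟩ := h2 (-2) 0 L Om cs hL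
  have hw0 : wC (-2) 0 ≠ 0 := wC_ne_zero cs
  have hx : ∀ z, xx (-2) 0 L z = L.weierstrassP z - 4 / 3 := by
    intro z
    rw [xx, ea2]
  have hLz : ∀ z, wC (-2) 0 * z ∉ L.lattice → z ∉ L.lattice := fun z hz hz' =>
    hz (hL.toIsLat.mul_mem_w cs hz')
  have hX : ∀ z, wC (-2) 0 * z ∉ L.lattice →
      xx (-2) 0 L (wC (-2) 0 * z) * (2 * xx (-2) 0 L z) =
        -(xx (-2) 0 L z ^ 2 + 4 * xx (-2) 0 L z + 2) := by
    intro z hz
    have h3 := (hR z hz).2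
    rw [hx, hx]
    linear_combination -h3
  refine ⟨fun z hz => ⟨fun hwz => ?_, fun h0 => ?_⟩, fun z hz => ⟨hX z hz, ?_⟩⟩
  · have hm : (⟨0, 1⟩ : OO (-2) 0) ≠ 0 := by
      intro h
      have := congrArg QuadraticAlgebra.im h
      simp at this
    have hwz' : emb (⟨0, 1⟩ : OO (-2) 0) * z ∈ L.lattice := by rwa [emb_w]
    obtain ⟨y, hy⟩ := (hL.toIsLat.torsion_iff cs hm z).1 hwz'
    rw [emb_w] at hy
    have hOw : Om / wC (-2) 0 = -(Om * wC (-2) 0 / 2) := by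
      rw [div_eq_iff hw0]
      linear_combination (Om / 2) * ww
    have hval0 : xx (-2) 0 L (Om * wC (-2) 0 / 2) = 0 := by rw [hx, hv, sub_self]
    rcases Int.even_or_odd' y.re with ⟨c, hc | hc⟩
    · exfalso
      apply hz
      rw [hL.toIsLat.mem]
      refine ⟨⟨y.im, -c⟩, ?_⟩
      rw [hy, hOw, emb, emb, hc]
      push_cast
      linear_combination (-(y.im : ℂ) * Om / 2) * ww
    · have hu : (Om * emb (⟨y.im, -c⟩ : OO (-2) 0)) ∈ L.lattice :=
        (hL.toIsLat.mem _).2 ⟨_, rfl⟩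
      have hz2 : z = -(Om * wC (-2) 0 / 2) + Om * emb (⟨y.im, -c⟩ : OO (-2) 0) := by
        rw [hy, hOw, emb, emb, hc]
        push_cast
        linear_combination (-(y.im : ℂ) * Om / 2) * ww
      rw [hz2, (hper _ _ hu).1, (hpar _).1, hval0]
  · by_contra hwz
    apply (hR z hwz).1
    rw [hx] at h0
    linear_combination h0
  · have hzL := hLz z hz
    obtain ⟨d1, -⟩ := hder z hzL
    obtain ⟨d2, -⟩ := hder _ hz
    have d3 : HasDerivAt (fun u => wC (-2) 0 * u) (wC (-2) 0) z := by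
      simpa using (hasDerivAt_id z).const_mul (wC (-2) 0)
    have d4 : HasDerivAt (fun u => xx (-2) 0 L (wC (-2) 0 * u))
        (2 * yy L (wC (-2) 0 * z) * wC (-2) 0) z := HasDerivAt.comp z d2 d3
    have d5 := d4.mul (d1.const_mul 2)
    have d6 : HasDerivAt (fun u => -(xx (-2) 0 L u ^ 2 + 4 * xx (-2) 0 L u + 2))
        (-(2 * xx (-2) 0 L z * (2 * yy L z) + 4 * (2 * yy L z))) z := by
      refine (((d1.fun_pow 2).fun_add (d1.const_mul 4)).add_const (2 : ℂ)).fun_neg.congr_deriv ?_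
      push_cast
      ring
    have hopen : IsOpen {u : ℂ | wC (-2) 0 * u ∉ L.lattice} :=
      L.isClosed_lattice.isOpen_compl.preimage (continuous_const.mul continuous_id)
    have hev : (fun u => xx (-2) 0 L (wC (-2) 0 * u) * (2 * xx (-2) 0 L u)) =ᶠ[nhds z]
        (fun u => -(xx (-2) 0 L u ^ 2 + 4 * xx (-2) 0 L u + 2)) := by
      filter_upwards [hopen.mem_nhds hz] with u hu
      exact hX u hu
    have d7 := (d6.congr_of_eventuallyEq hev).unique d5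
    have h4 := hX z hz
    linear_combination (-(xx (-2) 0 L z) / 2) * d7 - yy L z * h4

end Pool.Agent.MU3A


end
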