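import Mathlib.FieldTheory.IsAlgClosed.Classification
import Mathlib.RingTheory.Algebraic.Cardinality
import Pool.Agent.MVF.C003

/-! Parts: MUX.StU, MUX.U_SCX, MUX.U_IDC, MUX.U_DER, MUX.U_BAC, MUX.U_AUT -/

namespace Pool.Agent.MUXU.BAC
end Pool.Agent.MUXU.BAC

section

/-!
# MUX, block U: the analytic base of complex multiplication, for arbitrary lattices (helper34)

Statements with complete proofs in words. Every statement is a `def Su_X : Prop`; the module
`MUXU_X` proves `theorem tu_X (h : Su_Y) ... : Su_X` in `Pool/Agent/MUX/U_X.lean`, namespace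
`Pool.Agent.MUXU`, with hypotheses `Su_Y` exactly the statements named under `Uses`. The statements
of block B of MU3 (addition theorem, `℘` takes every value, ...) are unconditional in
`Pool/Agent/MU3/BAll.lean` (`Pool.Agent.MU3B.b_ADD`, ...), `SCP` is `Pool.Agent.MU3A.ta_SCP`.
`L : PeriodPair` is a lattice of Mathlib, `℘ = L.weierstrassP`, `℘' = L.derivWeierstrassP`
(`Mathlib/Analysis/SpecialFunctions/Elliptic/Weierstrass.lean`).
-/

set_option autoImplicit false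

open Filter Topology Polynomial UpperHalfPlane
open scoped Real

namespace Pool.Agent.MUXU

open _root_.Pool.Agent.MU3B

noncomputable section

/-- `μ L ⊆ M` -/
def Isg (L M : PeriodPair) (μ : ℂ) : Prop := ∀ w ∈ L.lattice, μ * w ∈ M.lattice

/-- `L'` is the conjugate of `L` by the automorphism `σ` of `ℂ` -/
def IsCj (σ : ℂ ≃+* ℂ) (L L' : PeriodPair) : Prop := L'.g₂ = σ L.g₂ ∧ L'.g₃ = σ L.g₃

/-- representatives of the nonzero classes of `{z : μ z ∈ M} / L` -/
structure IsRpM (L M : PeriodPair) (μ : ℂ) (R : Finset ℂ) : Prop where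
  mem : ∀ q ∈ R, μ * q ∈ M.lattice
  ne : ∀ q ∈ R, q ∉ L.lattice
  inj : ∀ q ∈ R, ∀ q' ∈ R, q - q' ∈ L.lattice → q = q'
  surj : ∀ z : ℂ, μ * z ∈ M.lattice → z ∉ L.lattice → ∃ q ∈ R, z - q ∈ L.lattice

/-- the curve `y² = x³ - (g₂/4) x - g₃/4`, on which the point of `z` is `(℘ z, ℘' z/2)` -/
def EL (L : PeriodPair) : WeierstrassCurve.Affine ℂ := ⟨0, 0, 0, -L.g₂ / 4, -L.g₃ / 4⟩

/-- the differential equation of the isogeny `x ↦ A/B` with multiplier `μ` from the curve with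
invariants `a, b` to the curve with invariants `c, d`, as an identity of polynomials -/
def OdeP (a b c d μ : ℂ) (A B : ℂ[X]) : Prop :=
  (derivative A * B - A * derivative B) ^ 2 * (4 * X ^ 3 - C a * X - C b) =
    C (μ ^ 2) * (4 * A ^ 3 * B - C c * A * B ^ 3 - C d * B ^ 4)

/-- the rational function `A/B` gives multiplication by `μ` from `ℂ/L` to `ℂ/M` -/
structure IsoP (L M : PeriodPair) (μ : ℂ) (A B : ℂ[X]) : Prop where
  cop : IsCoprime A B
  ker : ∀ z, z ∉ L.lattice → (μ * z ∈ M.lattice ↔ B.eval (L.weierstrassP z) = 0)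
  P : ∀ z, z ∉ L.lattice → μ * z ∉ M.lattice →
    M.weierstrassP (μ * z) * B.eval (L.weierstrassP z) = A.eval (L.weierstrassP z)

/-- `Φ` is the isomorphism `ℂ/L → ℂ/L'` (a homomorphism modulo `L'`) given by applying `σ` to the
coordinates -/
structure IsPhi (σ : ℂ ≃+* ℂ) (L L' : PeriodPair) (Φ : ℂ → ℂ) : Prop where
  mem : ∀ z, Φ z ∈ L'.lattice ↔ z ∈ L.lattice
  add : ∀ z w, Φ (z + w) - Φ z - Φ w ∈ L'.lattice
  surj : ∀ u, ∃ z, Φ z - u ∈ L'.lattice
  P : ∀ z, z ∉ L.lattice → L'.weierstrassP (Φ z) = σ (L.weierstrassP z)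
  P' : ∀ z, z ∉ L.lattice → L'.derivWeierstrassP (Φ z) = σ (L.derivWeierstrassP z)

/-! ## Lattices -/

/-- (BAS) a group commensurable with a lattice is a lattice.

PROOF. `n M ⊆ L` and `n L ⊆ M`. The group `M` is isomorphic (by multiplication by `n`) to a subgroup of
`L.lattice`, a free abelian group of rank two, which contains `n² L`; so `M` is free of rank two
(`Submodule.nonempty_basis_of_pid`/`Module.Free`, rank between that of `n² L` and that of `L`; for example by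
`Submodule.basisOfPid`, `Submodule.finrank_of_finite_quotient..`). Let `b₁, b₂` be a basis of `M`. `n ω₁, n ω₂` are
integer combinations of `b₁, b₂`, so the real span of `b₁, b₂` is `ℂ` and `b₁, b₂` are linearly independent over
`ℝ` (`linearIndependent_of_top_le_span_of_card_eq_finrank`, `finrank ℝ ℂ = 2`). `L' = ⟨b₁, b₂, _⟩`. -/
def Su_BAS : Prop :=
  ∀ (L : PeriodPair) (M : AddSubgroup ℂ) (n : ℕ), n ≠ 0 →
    (∀ w ∈ L.lattice, (n : ℂ) * w ∈ M) → (∀ w ∈ M, (n : ℂ) * w ∈ L.lattice) →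
    ∃ L' : PeriodPair, ∀ z, z ∈ L'.lattice ↔ z ∈ M

/-- (BAC) sublattices given by a complex multiplier: if `μ M ⊆ L` and `ν L ⊆ M`, `μ, ν ≠ 0`, then the group `M` is
the lattice of a `PeriodPair`; and `{z : μ z ∈ M}/L` is finite with representatives for `Isg L M μ`.

PROOF. First part: `ν L ⊆ M`, `μ ν L ⊆ L`. Let `ρ = μ ν`; `ρ ω₁ = p ω₁ + q ω₂`, `ρ ω₂ = r ω₁ + s ω₂` with integers; the
determinant `n = p s - q r` is not `0` (`ρ ≠ 0`, and `ρ ω₁, ρ ω₂` are linearly independent over `ℝ`), and `n L ⊆ ρ L`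
(Cramer). So `|n| (L) ⊆ μ ν L ⊆ μ M ⊆ L`: apply (BAS) to `μ M` (`n μ M ⊆ n L ⊆ L` trivially since `μ M ⊆ L`) and divide the basis by `μ`.
Second part: let `μ L ⊆ M`; `M' = {z : μ z ∈ M} ⊇ L`. With `ω₁, ω₂` a basis of `M` and the basis `μ η₁, μ η₂` of `μ L ⊆ M`
the integer matrix of `μ L` in `M` has determinant `n ≠ 0`, so `n M' ⊆ L`; `M'/L` is a quotient of
`M'/n M' ≅ (ℤ/n)²`, finite. Choose representatives. -/
def Su_BAC : Prop :=
  (∀ (L : PeriodPair) (M : AddSubgroup ℂ) (μ ν : ℂ), μ ≠ 0 → ν ≠ 0 →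
    (∀ w ∈ M, μ * w ∈ L.lattice) → (∀ w ∈ L.lattice, ν * w ∈ M) →
    ∃ L' : PeriodPair, ∀ z, z ∈ L'.lattice ↔ z ∈ M) ∧
  ∀ (L M : PeriodPair) (μ : ℂ), μ ≠ 0 → Isg L M μ →
    (∃ R : Finset ℂ, IsRpM L M μ R) ∧
    ∃ n : ℕ, n ≠ 0 ∧ ∀ z, μ * z ∈ M.lattice → (n : ℂ) * z ∈ L.lattice

/-! ## Uniformisation -/

/-- the lattice `ℤ + ℤ τ` -/
def LT (τ : ℍ) : PeriodPair where
  ω₁ := 1
  ω₂ := τ
  indep := by
    rw [LinearIndependent.pair_iff]
    intro s t hst
    have h1 := congrArg Complex.im hst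
    have h2 := congrArg Complex.re hst
    simp at h1 h2
    rcases h1 with h1 | h1
    · subst h1
      simp at h2
      exact ⟨h2, rfl⟩
    · exact absurd h1 τ.im_ne_zero

/-- (LIM) `g₂(τ) → 4 π⁴/3`, `g₃(τ) → 8 π⁶/27` as `Im τ → ∞`.

PROOF. `G k (τ) = Σ_(m,n) (m τ + n)^(-k)` (reindex by `L.latticeEquivProd`; `k = 4, 6`; the term `(0,0)` is `0` in Lean). Either by
Mathlib's `q`-expansion of Eisenstein series (`Mathlib/NumberTheory/ModularForms/EisensteinSeries`), or directly: by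
dominated convergence (`tendsto_tsum_of_dominated_convergence`; for `Im τ ≥ 1`, `|Re τ| ≤ 1/2` the bound
`|m τ + n| ≥ c max(|m|, |n|)`, Mathlib `EisensteinSeries.summand_bound`; the functions have period `1` in `Re τ`) the terms with
`m ≠ 0` tend to `0` and `G k → 2 ζ(k)`. `ζ(4) = π⁴/90` (`riemannZeta_four`), `ζ(6) = π⁶/945`
(`riemannZeta_two_mul_nat`, Bernoulli number `B₆ = 1/42`, or `hasSum_zeta_nat`). `g₂ = 60 G 4`, `g₃ = 140 G 6`. -/
def Su_LIM : Prop :=
  Tendsto (fun τ : ℍ => (LT τ).g₂) atImInfty (𝓝 (4 * (π : ℂ) ^ 4 / 3)) ∧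
  Tendsto (fun τ : ℍ => (LT τ).g₃) atImInfty (𝓝 (8 * (π : ℂ) ^ 6 / 27))

/-- (GHO) `g₂(τ)`, `g₃(τ)` are holomorphic on the upper half plane.

PROOF. As in (LIM) they are constant multiples of `Σ_(m,n) (m τ + n)^(-k)`, `k = 4, 6`; Mathlib:
`EisensteinSeries.eisensteinSeries_tendstoLocallyUniformly`/`..._SIF_MDifferentiable`, or
`differentiableOn_tsum_of_summable_norm` with the bounds of `EisensteinSeries.summand_bound` on compact sets
(`hasSumLocallyUniformlyOn`). `ofComplex : ℂ → ℍ` is Mathlib's extension (`UpperHalfPlane.ofComplex`). -/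
def Su_GHO : Prop :=
  DifferentiableOn ℂ (fun z : ℂ => (LT (ofComplex z)).g₂) {z | 0 < z.im} ∧
  DifferentiableOn ℂ (fun z : ℂ => (LT (ofComplex z)).g₃) {z | 0 < z.im}

/-- (GSL) every `τ` is equivalent to a point of the fundamental domain, with the same `j`.

Uses nothing. PROOF. Mathlib `ModularGroup.exists_smul_mem_fd`: there is `γ = (a, b; c, d)` in `SL₂(ℤ)` with `γ τ` in `𝒟`:
`|Re γτ| ≤ 1/2`, `|γτ| ≥ 1`. `(c τ + d) (ℤ + ℤ γτ) = ℤ (c τ + d) + ℤ (a τ + b) = ℤ + ℤ τ`; so by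
`Pool.Agent.MU3A.ta_SCP`: `g₂(τ) = g₂(γτ)/(cτ + d)⁴`, `g₃(τ) = g₃(γτ)/(cτ + d)⁶`. Take `u = (c τ + d)⁻¹ ≠ 0`. -/
def Su_GSL : Prop :=
  ∀ τ : ℍ, ∃ (τ' : ℍ) (u : ℂ), u ≠ 0 ∧ |τ'.re| ≤ 1 / 2 ∧ 1 ≤ ‖(τ' : ℂ)‖ ∧
    (LT τ).g₂ = u ^ 4 * (LT τ').g₂ ∧ (LT τ).g₃ = u ^ 6 * (LT τ').g₃

/-- (JSU) `j` takes every value.

Uses Su_LIM, Su_GHO, Su_GSL. PROOF. `Δ = g₂³ - 27 g₃² ≠ 0` (`b_DSC`), `f = g₂³/Δ` on `U = {Im z > 0}` (via `ofComplex`) is holomorphic
(GHO). By (LIM) `g₂³ → (4π⁴/3)³ = 64 π¹²/27 ≠ 0` and `Δ → 64 π¹²/27 - 27 · 64 π¹²/729 = 0`, so `|f| → ∞` along `atImInfty`; so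
`f` is not constant. `U` is open and connected (convex): the image of `f` is open
(`AnalyticOnNhd.is_constant_or_isOpen`). The image is closed: let `f(τ_n) → t`; by (GSL) (`f` has weight zero:
`g₂³`, `g₃²` both get the factor `u^12`) we may take `|Re τ_n| ≤ 1/2`, `|τ_n| ≥ 1`, so `Im τ_n ≥ √3/2`. `Im τ_n` is bounded: otherwise
`|f(τ_n)|` is unbounded. So a subsequence converges to some `τ` with `Im τ ≥ √3/2` (compactness) and
`f(τ) = t`. The image is nonempty, open and closed in the connected space `ℂ`: all of `ℂ` (`IsClopen.eq_univ`). -/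
def Su_JSU : Prop :=
  ∀ t : ℂ, ∃ τ : ℍ, (LT τ).g₂ ^ 3 = t * ((LT τ).g₂ ^ 3 - 27 * (LT τ).g₃ ^ 2)

/-- (UNI) uniformisation: all pairs of invariants occur.

Uses Su_JSU. PROOF. (JSU) with `t = a³/(a³ - 27 b²)`: `g₂³ (a³ - 27 b²) = a³ (g₂³ - 27 g₃²)`, so `g₂³ b² = a³ g₃²`, `L = LT τ`. There is
`s ≠ 0` with `s² g₂ = a`, `s³ g₃ = b`: if `g₂ = 0`: `g₃ ≠ 0` (`b_DSC`), `a³ g₃² = 0`, `a = 0`, `b ≠ 0`: `s` a cube root of `b/g₃`. If `g₃ = 0`: `g₂ ≠ 0`,
`b = 0`, `a ≠ 0`: `s` a square root of `a/g₂`. Otherwise `a, b ≠ 0` (if `a = 0` then `g₂³ b² = 0`, `b = 0`, excluded; the same for `b`), `s = (b/g₃)(g₂/a)`: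
`s² = b² g₂²/(g₃² a²) = a/g₂`, `s³ = b/g₃`. Let `u² = s⁻¹` (square root), `L' = u L` (periods `u ω₁, u ω₂`; linear
independence: multiplication by `u` is injective and real linear): `g₂(L') = g₂/u⁴ = s² g₂ = a`, `g₃(L') = g₃/u⁶ = s³ g₃ = b`
(`ta_SCP`). -/
def Su_UNI : Prop :=
  ∀ a b : ℂ, a ^ 3 ≠ 27 * b ^ 2 → ∃ L : PeriodPair, L.g₂ = a ∧ L.g₃ = b

/-! ## Isogenies -/

/-- (SCX) scaling: `u L` is a lattice.

PROOF. `L' = ⟨u ω₁, u ω₂, _⟩`; `u w = m (u ω₁) + n (u ω₂)`. Linear independence over `ℝ` as in (UNI). -/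
def Su_SCX : Prop :=
  ∀ (L : PeriodPair) (u : ℂ), u ≠ 0 → ∃ L' : PeriodPair, ∀ w : ℂ, w ∈ L.lattice ↔ u * w ∈ L'.lattice

/-- (LOC) a local solution of the differential equation is `℘_M(μ z + c)`.

PROOF. `U` open connected, `f` holomorphic on `U`, `f'² = μ² (4 f³ - c₂ f - c₃)` on `U` (`c₂, c₃` the invariants of `M`), `z₀ ∈ U`,
`f'(z₀) ≠ 0`. The point `(f(z₀), f'(z₀)/μ)` is on the curve of `M`: `b_DSC` gives `u₀ ∉ M` with `℘_M(u₀) = f(z₀)`,
`℘_M'(u₀) = f'(z₀)/μ ≠ 0`. `℘_M` is analytic at `u₀` with nonzero derivative, so it has an analytic local inverse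
(`HasStrictDerivAt.localInverse`, or `AnalyticAt` version): `h(z) = ℘_M⁻¹(f(z))` near `z₀`, `h(z₀) = u₀`, `℘_M(h) = f`,
`℘_M'(h) h' = f'`, and `℘_M'(h)² = 4f³ - c₂ f - c₃ = f'²/μ²`. So `h'² = μ²` near `z₀` (`f' ≠ 0` near `z₀`), `h'` is continuous and
`h'(z₀) = μ`: `h' = μ` near `z₀` (`h'² = μ²` and `h' ≠ -μ` near `z₀`), `h(z) = u₀ + μ (z - z₀)`. So `f(z) = ℘_M(μ z + c)` near `z₀`,
`c = u₀ - μ z₀`. By the identity theorem it holds on the set of `z ∈ U` with `μ z + c ∉ M`: this set is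
open and preconnected (`U` minus a countable closed set: HYPOTHESIS `hU` provides it for `U`: take `U` = the complement of
a countable closed set, then `U ∖ {μ z + c ∈ M}` is again such a complement, path connected by
`Set.Countable.isPathConnected_compl_of_one_lt_rank`; both functions are analytic there,
`AnalyticOnNhd.eqOn_of_preconnected_of_eventuallyEq`). -/
def Su_LOC : Prop :=
  ∀ (M : PeriodPair) (μ : ℂ) (N : Set ℂ) (f : ℂ → ℂ) (z₀ : ℂ), μ ≠ 0 → N.Countable → IsClosed N →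
    DifferentiableOn ℂ f Nᶜ →
    (∀ z ∉ N, deriv f z ^ 2 = μ ^ 2 * (4 * f z ^ 3 - M.g₂ * f z - M.g₃)) →
    z₀ ∉ N → deriv f z₀ ≠ 0 →
    ∃ c : ℂ, ∀ z ∉ N, μ * z + c ∉ M.lattice → f z = M.weierstrassP (μ * z + c)

/-- (ODE) a rational solution of the differential equation with a pole at infinity is an isogeny.

Uses Su_LOC. PROOF. `B ≠ 0` (otherwise `A` is a unit, of degree `0`). `P(X) = 4X³ - c₂X - c₃`. Let
`N = L.lattice ∪ {z : z ∉ L, B(℘ z) = 0}`: countable and closed (`L` is closed and discrete, countable; `B` has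
finitely many roots and `℘(z) = x` has at most two classes of solutions (`b_NEQ`): a finite union of translates of
`L`). `f(z) = A(℘ z)/B(℘ z)` is holomorphic on the complement of `N`, `f' = ((A'B - AB')/B²)(℘) ℘'`, so
`f'² = (A'B - AB')²/B⁴ (℘) (4℘³ - g₂℘ - g₃) = μ² (4A³B - c₂AB³ - c₃B⁴)/B⁴ = μ² P(f)` (`derivWeierstrassP_sq`, `OdeP`
evaluated at `℘ z`). There is `z₀ ∉ N` with `f'(z₀) ≠ 0`: otherwise `P(f) = 0` on the complement of `N`, so `f` takes at most
three values, but `|f(z)| → ∞` for `z → 0` (`deg A > deg B`, `|℘(z)| → ∞`: `b_...`/Mathlib). (LOC): `c` with `f(z) = ℘_M(μ z + c)` for `z ∉ N`,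
`μ z + c ∉ M`. (1) `c ∈ M`: otherwise, `z → 0` outside the countable set: `f(z) → ∞` but `℘_M(μ z + c) → ℘_M(c)`. So
`f(z) = ℘_M(μ z)` (`weierstrassP` is periodic) for `z ∉ N`, `μ z ∉ M`. (2) Let `w ∈ L`. `|f(z)| → ∞` for `z → w` (periodicity). If
`μ w ∉ M` then `℘_M(μ z) → ℘_M(μ w)`, a contradiction. So `μ L ⊆ M`. (3) `z₁ ∉ L`, `B(℘ z₁) = 0`: `A(℘ z₁) ≠ 0` (coprime), so `|f| → ∞` at `z₁` and
`μ z₁ ∈ M` as in (2). (4) `z₁ ∉ L`, `B(℘ z₁) ≠ 0`: `f` is bounded near `z₁`, so `μ z₁ ∉ M` (otherwise `|℘_M(μ z)| → ∞` for `z → z₁`), and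
`f(z₁) = ℘_M(μ z₁)` directly. -/
def Su_ODE : Prop :=
  ∀ (L M : PeriodPair) (μ : ℂ) (A B : ℂ[X]), μ ≠ 0 → IsCoprime A B → B.natDegree < A.natDegree →
    OdeP L.g₂ L.g₃ M.g₂ M.g₃ μ A B → Isg L M μ ∧ IsoP L M μ A B

/-- (DET) the invariants determine the lattice.

Uses Su_ODE. PROOF. `A = X`, `B = 1`, `μ = 1`: `OdeP` holds (`4X³ - g₂X - g₃` on both sides), so `L ⊆ M`; by symmetry
`M ⊆ L`. -/
def Su_DET : Prop :=
  ∀ L M : PeriodPair, L.g₂ = M.g₂ → L.g₃ = M.g₃ → L.lattice = M.lattice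

/-- (ISO) every isogeny is given by polynomials.

PROOF. Let `R` be the representatives. (0) `μ² ℘_M(μ z) = ℘(z) + Σ_(q ∈ R) (℘(z + q) - ℘(q))` for `μ z ∉ M`: proof of `b_CMX`: the difference
is periodic, holomorphic outside `{z : μ z ∈ M}`, tends to `0` at `0` and is bounded at the points `-q`; `b_LIO`.
(1) `℘(z + q) + ℘(z - q) = -2℘(z) - 2℘(q) + (℘'(z)² + ℘'(q)²)/(2 (℘(z) - ℘(q))²)` (`b_ADD` for `q` and `-q`, `z ± q ∉ L`), and `℘(z + q) = -℘(z) - ℘(q) + ℘'(z)²/(4 (℘(z) - ℘(q))²)` if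
`2 q ∈ L` (`℘'(q) = 0`). `℘'² = 4℘³ - g₂℘ - g₃`. In the second case `4X³ - g₂X - g₃` has the simple root `℘(q)`: only a simple pole. Since `-R` represents the same
classes as `R`, `2 Σ_(q ∈ R) ℘(z + q) = Σ_(q ∈ R) (℘(z + q) + ℘(z - q))`, so with `B = C(μ²) ∏_(q ∈ R) (X - ℘(q))` (the factor of `q` with `2q ∉ L` occurs twice:
for the representatives of `q` and `-q`) there is a polynomial `A` with `℘_M(μ z) B(℘ z) = A(℘ z)` for `μ z ∉ M`: sum over the pairs `{q, -q}` with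
`2q ∉ L` (common denominator `(X - ℘(q))²`) and over the `q` with `2 q ∈ L` (denominator `X - ℘(q)`). (2) `A` and `B` are coprime and `ker`: let `z ∉ L`. If `B(℘ z) = 0` then
`℘ z = ℘ q`, `z ≡ ± q` (`b_NEQ`), `μ z ∈ M`. Conversely `μ z ∈ M` gives `z ≡ q ∈ R`, `B(℘ z) = 0`. In this case `A(℘ z) ≠ 0`: as `t → 0`,
`℘_M(μ(z + t)) ~ 1/(μ² t²)`, and `B(℘(z + t))` vanishes at `t = 0` to order exactly two: if `2 z ∉ L` the factor
`X - ℘(q)` occurs twice and `℘'(z) ≠ 0`; if `2 z ∈ L` it occurs once and `℘ - ℘(z)` has a double zero (`℘''(z) ≠ 0`: `b_P2`, `b_DSC`);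
so the product has a nonzero limit. Since every root of `B` is some `℘(z)`, `A` and `B` have no common root: coprime. (3) Degree: `z → 0`: `℘_M(μ z)/℘(z) → 1/μ²`, so
`A(X)/(X B(X)) → 1/μ²` as `X → ∞`: `deg A = deg B + 1`, leading coefficient `1`. (4) `OdeP`: `F(X) = A/B`; `℘_M(μ z) = F(℘ z)` on a nonempty open set gives
`μ ℘_M'(μ z) = F'(℘ z) ℘'(z)`; square and use both differential equations: the polynomials of `OdeP` agree at infinitely many numbers `℘ z`. -/
def Su_ISO : Prop :=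
  ∀ (L M : PeriodPair) (μ : ℂ) (R : Finset ℂ), μ ≠ 0 → Isg L M μ → IsRpM L M μ R →
    ∃ A : ℂ[X], A.Monic ∧ A.natDegree = R.card + 1 ∧
      OdeP L.g₂ L.g₃ M.g₂ M.g₃ μ A (C (μ ^ 2) * ∏ q ∈ R, (X - C (L.weierstrassP q))) ∧
      IsoP L M μ A (C (μ ^ 2) * ∏ q ∈ R, (X - C (L.weierstrassP q)))

/-- (DER) the second coordinate of an isogeny.

PROOF. Differentiate `℘_M(μ z) B(℘ z) = A(℘ z)` (it holds on an open set: `L` and `{μ z ∈ M}` are closed):
`μ ℘_M'(μ z) B + ℘_M(μ z) B'(℘ z) ℘'(z) = A'(℘ z) ℘'(z)`; multiply by `B(℘ z)`. -/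
def Su_DER : Prop :=
  ∀ (L M : PeriodPair) (μ : ℂ) (A B : ℂ[X]), IsoP L M μ A B → ∀ z, z ∉ L.lattice →
    μ * z ∉ M.lattice →
    μ * M.derivWeierstrassP (μ * z) * B.eval (L.weierstrassP z) ^ 2 =
      (derivative A * B - A * derivative B).eval (L.weierstrassP z) * L.derivWeierstrassP z

/-- (PFI) the product formula of an isogeny.

Uses Su_ISO. PROOF. `A, B` as in (ISO), `c = ℘_M(μ w)`. `A - c B` is monic of degree `|R| + 1` and vanishes at `℘(w)` and at
`℘(w + q)`, `q ∈ R` (`w + q ∉ L` since `μ w ∉ M`; `μ q ∈ M`, periodicity). If `2 μ w ∉ M` these `|R| + 1` numbers are distinct: `℘(w + q) = ℘(w + q')` gives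
(`b_NEQ`) `q - q' ∈ L`, so `q = q'` (`IsRpM.inj`; or `q ∈ L` if one of them is the point `w` itself, impossible), or `2 w + q + q' ∈ L`, `2 μ w ∈ M`. So `A - c B = (X - ℘(w)) ∏_(q ∈ R) (X - ℘(w + q))`;
evaluate at `℘ z`, `A(℘ z) = ℘_M(μ z) B(℘ z)`. If `2 μ w ∈ M` take the limit `w' → w`, `2 μ w' ∉ M` (a countable closed set is excluded; both sides of the claim are continuous in `w` where `μ w ∉ M`). -/
def Su_PFI : Prop :=
  ∀ (L M : PeriodPair) (μ : ℂ) (R : Finset ℂ), μ ≠ 0 → Isg L M μ → IsRpM L M μ R →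
    ∀ w, μ * w ∉ M.lattice → ∀ z, μ * z ∉ M.lattice →
      μ ^ 2 * (M.weierstrassP (μ * z) - M.weierstrassP (μ * w)) *
        ∏ q ∈ R, (L.weierstrassP z - L.weierstrassP q) =
      (L.weierstrassP z - L.weierstrassP w) *
        ∏ q ∈ R, (L.weierstrassP z - L.weierstrassP (w + q))

/-! ## The group isomorphism `ℂ/L ≅ E(ℂ)` and conjugation -/

/-- (XIL) the group isomorphism.

PROOF. As in `Pool/Agent/MU3/A_EQN.lean`, `A_LAW.lean`, `A_XI.lean` (there with `x = ℘ - a₂/3`; here the shift is `0`): `b_ADD`, `b_DUP`, `b_NEQ`, `b_ZER`,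
`b_DSC`. The point `(℘ z, ℘' z/2)` is on the curve (`derivWeierstrassP_sq`) and nonsingular (`b_DSC`: no double root). -/
def Su_XIL : Prop :=
  ∀ L : PeriodPair, ∃ ξ : ℂ →+ (EL L).Point, (∀ z, ξ z = 0 ↔ z ∈ L.lattice) ∧
    Function.Surjective ξ ∧
    ∀ z, z ∉ L.lattice → ∃ h, ξ z = .some (L.weierstrassP z) (L.derivWeierstrassP z / 2) h

/-- (EQP) the two coordinates determine the class.

PROOF. `b_NEQ`: `z - w ∈ L` or `z + w ∈ L`. In the second case `℘'(z) = ℘'(-w) = -℘'(w) = -℘'(z)`, so `℘'(z) = 0`, `2 z ∈ L`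
(`b_ZER`) and `z - w = 2 z - (z + w) ∈ L`. -/
def Su_EQP : Prop :=
  ∀ (L : PeriodPair) (z w : ℂ), z ∉ L.lattice → w ∉ L.lattice →
    L.weierstrassP z = L.weierstrassP w → L.derivWeierstrassP z = L.derivWeierstrassP w →
    z - w ∈ L.lattice

/-- (PHI) conjugation of points.

Uses Su_XIL. PROOF. `σ` maps the curve `EL L` to `EL L'` (`IsCj`): `WeierstrassCurve.Affine.Point.map` for the ring homomorphism
`σ` (as an algebra homomorphism; or directly: the map `0 ↦ 0`, `(x, y) ↦ (σ x, σ y)` is additive, by the formulas of the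
group law) is a homomorphism `s : E(ℂ) → E'(ℂ)`, bijective with inverse given by `σ⁻¹`. For every `z` choose
(surjectivity of `ξ'`) `Φ z` with `ξ'(Φ z) = s(ξ z)`. `mem`: `s(ξ z) = 0` iff `ξ z = 0`. `add`: `ξ'(Φ(z + w) - Φ z - Φ w) = 0`. `surj`: given `u`, `s⁻¹(ξ' u) = ξ z`, and
`ξ'(Φ z - u) = 0`. `P`, `P'`: compare coordinates (`σ(y/2) = σ(y)/2`). -/
def Su_PHI : Prop :=
  ∀ (σ : ℂ ≃+* ℂ) (L L' : PeriodPair), IsCj σ L L' → ∃ Φ : ℂ → ℂ, IsPhi σ L L' Φ

/-- (CJE) the conjugate lattice exists.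

Uses Su_UNI. PROOF. `g₂³ ≠ 27 g₃²` (`b_DSC`), apply `σ`, (UNI). -/
def Su_CJE : Prop := ∀ (σ : ℂ ≃+* ℂ) (L : PeriodPair), ∃ L' : PeriodPair, IsCj σ L L'

/-- (FUN) conjugation is functorial.

Uses Su_BAC, Su_ODE, Su_ISO, Su_DER, Su_EQP. PROOF. (BAC) representatives `R`, (ISO) `A, B` for `L, M, μ`. Apply `σ` to the coefficients of `OdeP` (`Polynomial.map`;
`Polynomial.derivative_map`): `OdeP` for `A^σ, B^σ`, `σ μ` and the invariants of `L', M'`. `A^σ, B^σ` are coprime, the degrees are the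
same (`deg A = |R| + 1 > |R| = deg B`). (ODE): `σ μ L' ⊆ M'` and `IsoP L' M' (σ μ) A^σ B^σ`. Let `z ∈ L`: `Φ z ∈ L'`, so `σ μ Φ z ∈ M'`, and
`μ z ∈ M`, `Ψ(μ z) ∈ M'`. Let `z ∉ L`, `μ z ∈ M`: `B(℘ z) = 0`, so `B^σ(℘_(L')(Φ z)) = σ(B(℘ z)) = 0`, `σ μ Φ z ∈ M'` and `Ψ(μ z) ∈ M'`. Let `μ z ∉ M`: `B(℘ z) ≠ 0`, so
`σ μ Φ z ∉ M'` and `℘_(M')(σμ Φ z) = A^σ/B^σ (σ ℘ z) = σ(℘_M(μ z)) = ℘_(M')(Ψ(μ z))`; (DER) for both isogenies gives the same for `℘'` (`σ μ ≠ 0`). (EQP) for `M'`. -/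
def Su_FUN : Prop :=
  ∀ (σ : ℂ ≃+* ℂ) (L M L' M' : PeriodPair) (μ : ℂ) (Φ Ψ : ℂ → ℂ), μ ≠ 0 → Isg L M μ →
    IsCj σ L L' → IsCj σ M M' → IsPhi σ L L' Φ → IsPhi σ M M' Ψ →
    Isg L' M' (σ μ) ∧ ∀ z, Ψ (μ * z) - σ μ * Φ z ∈ M'.lattice

/-- (CMC) conjugation and complex multiplication.

Uses Su_FUN. PROOF. `a = 0`: clear (`Φ 0 ∈ L'`). `a ≠ 0`: (FUN) with `M = L`, `Ψ = Φ`, `μ = a`, `σ a = a`. -/
def Su_CMC : Prop :=
  ∀ (σ : ℂ ≃+* ℂ) (L L' : PeriodPair) (Φ : ℂ → ℂ) (a : ℂ), Isg L L a → σ a = a →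
    IsCj σ L L' → IsPhi σ L L' Φ → Isg L' L' a ∧ ∀ z, Φ (a * z) - a * Φ z ∈ L'.lattice

/-- (IDC) conjugation commutes with the action of ideals. `I` is any set of multipliers of `L` which are fixed by `σ`
(an ideal of the order); `M = {z : I z ⊆ L}`, that is `I⁻¹ L`.

Uses Su_FUN, Su_CMC. PROOF. `L ⊆ M`, (FUN) with `μ = 1`: `Ψ z ≡ Φ z` modulo `M'`, `L' ⊆ M'`. Let `u` be given, `Φ z - u ∈ L'` (`surj`). Then: `u ∈ M'` iff `Φ z ∈ M'` iff `Ψ z ∈ M'` iff `z ∈ M` iff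
`a z ∈ L` for all `a ∈ I` iff `Φ(a z) ∈ L'` for all `a ∈ I` iff (CMC) `a Φ z ∈ L'` for all `a ∈ I` iff `a u ∈ L'` for all `a ∈ I` (`a L' ⊆ L'`). -/
def Su_IDC : Prop :=
  ∀ (σ : ℂ ≃+* ℂ) (L M L' M' : PeriodPair) (I : Set ℂ) (Φ Ψ : ℂ → ℂ),
    (∀ a ∈ I, Isg L L a ∧ σ a = a) → (∀ z, z ∈ M.lattice ↔ ∀ a ∈ I, a * z ∈ L.lattice) →
    IsCj σ L L' → IsCj σ M M' → IsPhi σ L L' Φ → IsPhi σ M M' Ψ →
    (∀ z, z ∈ M'.lattice ↔ ∀ a ∈ I, a * z ∈ L'.lattice) ∧ ∀ z, Ψ z - Φ z ∈ M'.lattice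

/-- (TSN) torsion under conjugation: `Φ` respects integers and any set of fixed multipliers.

Uses Su_CMC. PROOF. `Φ(a z) ≡ a Φ(z)` modulo `L'` (CMC) and `Φ(w) ∈ L'` iff `w ∈ L`; for integers `n` take `a = n` (`σ n = n`, `n L ⊆ L`). -/
def Su_TSN : Prop :=
  ∀ (σ : ℂ ≃+* ℂ) (L L' : PeriodPair) (Φ : ℂ → ℂ), IsCj σ L L' → IsPhi σ L L' Φ →
    (∀ (n : ℤ) (z : ℂ), (n : ℂ) * Φ z ∈ L'.lattice ↔ (n : ℂ) * z ∈ L.lattice) ∧
    ∀ (a z : ℂ), Isg L L a → σ a = a → (a * Φ z ∈ L'.lattice ↔ a * z ∈ L.lattice)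

/-! ## Automorphisms of `ℂ` -/

/-- (AUE) embeddings of algebraic fields extend to automorphisms of `ℂ`.

PROOF. Two algebra structures of `ℂ` over `F`: the inclusion and `τ`. Both have transcendence bases
(`exists_isTranscendenceBasis'`), of cardinality continuum (`F` is countable: algebraic over `ℚ`;
`IsAlgClosed.cardinal_eq_cardinal_transcendence_basis_of_aleph0_lt`), so of the same cardinality;
`IsAlgClosed.equivOfTranscendenceBasis` gives an isomorphism `ℂ ≃ₐ[F] ℂ` of the two algebras. (Use a type synonym or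
`letI : Algebra F ℂ := τ.toAlgebra` for the second structure.) -/
def Su_AUE : Prop :=
  ∀ (F : IntermediateField ℚ ℂ), Algebra.IsAlgebraic ℚ F → ∀ τ : F →+* ℂ,
    ∃ σ : ℂ ≃+* ℂ, ∀ x : F, σ x = τ x

/-- (AUT) a number with a finite orbit under the automorphisms fixing `F` is algebraic.

PROOF. Let `x` be transcendental over `F` (equivalently over `ℚ`, `F` is algebraic). `{x}` is algebraically independent over `F`,
extend it to a transcendence basis `S ∋ x` of `ℂ` over `F` (`exists_isTranscendenceBasis_superset` or similar); `S` is infinite, because `ℂ` is uncountable and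
`F` countable (`IsAlgClosed.cardinal_le_max_transcendence_basis`). For `y ∈ S` the transposition `(x y)` of `S` gives
an automorphism of `ℂ` over `F` with `x ↦ y` (`IsAlgClosed.equivOfTranscendenceBasis`, or `IsAlgClosed.lift`: the family `S → ℂ` composed
with the transposition is again a transcendence basis). So the orbit of `x` contains `S`: infinite. -/
def Su_AUT : Prop :=
  ∀ (F : IntermediateField ℚ ℂ), Algebra.IsAlgebraic ℚ F → ∀ x : ℂ,
    {y : ℂ | ∃ σ : ℂ ≃+* ℂ, (∀ a ∈ F, σ a = a) ∧ y = σ x}.Finite → IsAlgebraic ℚ x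

/-- (AUF) the fixed field of the automorphisms over `F` is `F`.

Uses Su_AUE, Su_AUT. PROOF. `x` fixed by all: its orbit is `{x}`, so `x` is algebraic over `ℚ` (AUT). If `x ∉ F` the minimal polynomial
of `x` over `F` has degree `≥ 2` and (separable, characteristic `0`) another root `y` in `ℂ`; `F(x) → ℂ`, `x ↦ y` over `F`
(`IntermediateField.adjoin.powerBasis`, `PowerBasis.lift` or `IsAlgClosed` lifting) extends to an automorphism `σ` of `ℂ` (AUE, `F(x)` algebraic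
over `ℚ`), fixing `F`, with `σ x = y ≠ x`: contradiction. -/
def Su_AUF : Prop :=
  ∀ (F : IntermediateField ℚ ℂ), Algebra.IsAlgebraic ℚ F → ∀ x : ℂ,
    (∀ σ : ℂ ≃+* ℂ, (∀ a ∈ F, σ a = a) → σ x = x) → x ∈ F

end

end Pool.Agent.MUXU


end

section

set_option autoImplicit false

open Filter Topology Polynomial UpperHalfPlane
open scoped Real

namespace Pool.Agent.MUXU

open _root_.Pool.Agent.MU3B

noncomputable section

theorem tu_SCX : Su_SCX := by
  intro L u hu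
  have hind : LinearIndependent ℝ ![u * L.ω₁, u * L.ω₂] := by
    have h := L.indep
    rw [LinearIndependent.pair_iff] at h ⊢
    intro s t hst
    apply h s t
    have h1 : u * (s • L.ω₁ + t • L.ω₂) = 0 := by
      rw [← hst, mul_add, mul_smul_comm, mul_smul_comm]
    exact (mul_eq_zero.1 h1).resolve_left hu
  refine ⟨⟨u * L.ω₁, u * L.ω₂, hind⟩, fun w => ?_⟩
  rw [PeriodPair.mem_lattice, PeriodPair.mem_lattice]
  constructor
  · rintro ⟨m, n, h⟩
    exact ⟨m, n, by rw [← h]; ring⟩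
  · rintro ⟨m, n, h⟩
    refine ⟨m, n, mul_left_cancel₀ hu ?_⟩
    rw [← h]; ring

end

end Pool.Agent.MUXU


end

section

/-!
# MUX, block U, module IDC (helper72): conjugation commutes with the action of ideals
-/

set_option autoImplicit false

namespace Pool.Agent.MUXU

theorem tu_IDC (h1 : Su_FUN) (h2 : Su_CMC) : Su_IDC := by
  intro σ L M L' M' I Φ Ψ hI hM hL hMM hΦ hΨ
  have hLM : Isg L M 1 := by
    intro w hw
    rw [one_mul, hM]
    exact fun a ha => (hI a ha).1 w hw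
  obtain ⟨h3, h4⟩ := h1 σ L M L' M' 1 Φ Ψ one_ne_zero hLM hL hMM hΦ hΨ
  have h5 : ∀ w ∈ L'.lattice, w ∈ M'.lattice := by
    intro w hw
    have := h3 w hw
    rwa [map_one, one_mul] at this
  have h6 : ∀ z, Ψ z - Φ z ∈ M'.lattice := by
    intro z
    have := h4 z
    rwa [map_one, one_mul, one_mul] at this
  refine ⟨fun u => ?_, h6⟩
  obtain ⟨z, hz⟩ := hΦ.surj u
  have e1 : u ∈ M'.lattice ↔ Φ z ∈ M'.lattice := by
    constructor
    · intro h
      have := add_mem (h5 _ hz) h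
      rwa [sub_add_cancel] at this
    · intro h
      have := sub_mem h (h5 _ hz)
      rwa [sub_sub_cancel] at this
  have e2 : Φ z ∈ M'.lattice ↔ Ψ z ∈ M'.lattice := by
    constructor
    · intro h
      have := add_mem (h6 z) h
      rwa [sub_add_cancel] at this
    · intro h
      have := sub_mem h (h6 z)
      rwa [sub_sub_cancel] at this
  rw [e1, e2, hΨ.mem, hM]
  refine forall_congr' fun a => forall_congr' fun ha => ?_
  obtain ⟨h7, h8⟩ := h2 σ L L' Φ a (hI a ha).1 (hI a ha).2 hL hΦ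
  rw [← hΦ.mem]
  have h9 : a * (Φ z - u) ∈ L'.lattice := h7 _ hz
  have h10 := h8 z
  constructor
  · intro h
    have := sub_mem (sub_mem h h10) h9
    rwa [show Φ (a * z) - (Φ (a * z) - a * Φ z) - a * (Φ z - u) = a * u by ring] at this
  · intro h
    have := add_mem (add_mem h h10) h9
    rwa [show a * u + (Φ (a * z) - a * Φ z) + a * (Φ z - u) = Φ (a * z) by ring] at this

end Pool.Agent.MUXU


end

section

/-!
# MUX, module U_DER: the second coordinate of an isogeny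
-/

set_option autoImplicit false

open Filter Topology Polynomial

namespace Pool.Agent.MUXU

open _root_.Pool.Agent.MU3B

/-- `℘` has derivative `℘'` off the lattice. -/
lemma der_hasDerivAt (L : PeriodPair) {z : ℂ} (hz : z ∉ L.lattice) :
    HasDerivAt L.weierstrassP (L.derivWeierstrassP z) z := by
  have h1 : DifferentiableAt ℂ L.weierstrassP z :=
    (L.analyticOnNhd_weierstrassP z hz).differentiableAt
  have h2 := h1.hasDerivAt
  rwa [L.deriv_weierstrassP] at h2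

theorem tu_DER : Su_DER := by
  intro L M μ A B h z hz hμz
  -- the identity holds near `z`
  have hev : ∀ᶠ t in 𝓝 z, M.weierstrassP (μ * t) * B.eval (L.weierstrassP t) =
      A.eval (L.weierstrassP t) := by
    have e1 : ∀ᶠ t in 𝓝 z, t ∉ L.lattice :=
      (L.isClosed_lattice.isOpen_compl).mem_nhds hz
    have e2 : ∀ᶠ t in 𝓝 z, μ * t ∉ M.lattice := by
      have hc : ContinuousAt (fun t : ℂ => μ * t) z := by fun_prop
      exact hc.eventually_mem ((M.isClosed_lattice.isOpen_compl).mem_nhds hμz)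
    filter_upwards [e1, e2] with t h1 h2
    exact h.P t h1 h2
  have hL := der_hasDerivAt L hz
  have hM := der_hasDerivAt M hμz
  have hM' : HasDerivAt (fun t : ℂ => M.weierstrassP (μ * t))
      (M.derivWeierstrassP (μ * z) * μ) z := by
    have h1 : HasDerivAt (fun t : ℂ => μ * t) μ z := by
      simpa using (hasDerivAt_id z).const_mul μ
    exact HasDerivAt.comp z hM h1
  have hB : HasDerivAt (fun t : ℂ => B.eval (L.weierstrassP t))
      ((derivative B).eval (L.weierstrassP z) * L.derivWeierstrassP z) z :=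
    HasDerivAt.comp z (B.hasDerivAt (L.weierstrassP z)) hL
  have hA : HasDerivAt (fun t : ℂ => A.eval (L.weierstrassP t))
      ((derivative A).eval (L.weierstrassP z) * L.derivWeierstrassP z) z :=
    HasDerivAt.comp z (A.hasDerivAt (L.weierstrassP z)) hL
  have hprod := hM'.mul hB
  have hA' := hA.congr_of_eventuallyEq hev
  have heq := hprod.unique hA'
  have hP := h.P z hz hμz
  simp only [eval_sub, eval_mul]
  linear_combination (B.eval (L.weierstrassP z)) * heq -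
    (derivative B).eval (L.weierstrassP z) * L.derivWeierstrassP z * hP

end Pool.Agent.MUXU


end

section

/-!
# MUX, block U: module BAC (helper30)
-/

set_option autoImplicit false

namespace Pool.Agent.MUXU

open _root_.Pool.Agent.MU3B

noncomputable section

namespace BAC

theorem indep2 (L : PeriodPair) {s t : ℝ} (h : (s : ℂ) * L.ω₁ + (t : ℂ) * L.ω₂ = 0) :
    s = 0 ∧ t = 0 := by
  have := (LinearIndependent.pair_iff.1 L.indep) s t (by simpa using h)
  exact this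

theorem indepZ (L : PeriodPair) {s t : ℤ} (h : (s : ℂ) * L.ω₁ + (t : ℂ) * L.ω₂ = 0) :
    s = 0 ∧ t = 0 := by
  have h1 := indep2 L (s := (s : ℝ)) (t := (t : ℝ)) (by push_cast; exact h)
  exact ⟨by exact_mod_cast h1.1, by exact_mod_cast h1.2⟩

/-- the lattice `u L` -/
def scale (L : PeriodPair) (u : ℂ) (hu : u ≠ 0) : PeriodPair where
  ω₁ := u * L.ω₁
  ω₂ := u * L.ω₂
  indep := by
    rw [LinearIndependent.pair_iff]
    intro s t hst
    apply indep2 L
    have h : u * ((s : ℂ) * L.ω₁ + (t : ℂ) * L.ω₂) = 0 := by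
      have : s • (u * L.ω₁) + t • (u * L.ω₂) = 0 := hst
      rw [Complex.real_smul, Complex.real_smul] at this
      rw [← this]
      ring
    exact (mul_eq_zero.1 h).resolve_left hu

theorem mem_scale (L : PeriodPair) {u : ℂ} (hu : u ≠ 0) (z : ℂ) :
    z ∈ (scale L u hu).lattice ↔ u⁻¹ * z ∈ L.lattice := by
  rw [PeriodPair.mem_lattice, PeriodPair.mem_lattice]
  constructor
  · rintro ⟨m, n, h⟩
    refine ⟨m, n, ?_⟩
    rw [← h]
    simp only [scale]
    field_simp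
  · rintro ⟨m, n, h⟩
    refine ⟨m, n, ?_⟩
    have h2 : z = u * (u⁻¹ * z) := by field_simp
    rw [h2, ← h]
    simp only [scale]
    ring

/-- a multiple of `M` is contained in `ρ L` -/
theorem key {L M : PeriodPair} {ρ : ℂ} (hρ : ρ ≠ 0) (h : Isg L M ρ) :
    ∃ n : ℕ, n ≠ 0 ∧ ∀ w ∈ M.lattice, ∃ w' ∈ L.lattice, (n : ℂ) * w = ρ * w' := by
  obtain ⟨a, b, h1⟩ := PeriodPair.mem_lattice.1 (h _ L.ω₁_mem_lattice)
  obtain ⟨c, d, h2⟩ := PeriodPair.mem_lattice.1 (h _ L.ω₂_mem_lattice)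
  set D : ℤ := a * d - b * c with hD
  have e1 : (D : ℂ) * M.ω₁ = ρ * ((d : ℂ) * L.ω₁ + ((-b : ℤ) : ℂ) * L.ω₂) := by
    rw [hD]; push_cast
    linear_combination (d : ℂ) * h1 - (b : ℂ) * h2
  have e2 : (D : ℂ) * M.ω₂ = ρ * (((-c : ℤ) : ℂ) * L.ω₁ + (a : ℂ) * L.ω₂) := by
    rw [hD]; push_cast
    linear_combination (a : ℂ) * h2 - (c : ℂ) * h1
  have hD0 : D ≠ 0 := by
    intro h0
    rw [h0] at e1 e2
    simp only [Int.cast_zero, zero_mul] at e1 e2
    have e3 := indepZ L ((mul_eq_zero.1 e1.symm).resolve_left hρ)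
    have e4 := indepZ L ((mul_eq_zero.1 e2.symm).resolve_left hρ)
    have hb : b = 0 := by have := e3.2; omega
    rw [e4.2, hb] at h1
    simp only [Int.cast_zero, zero_mul, add_zero] at h1
    have h3 := (mul_eq_zero.1 h1.symm).resolve_left hρ
    have h4 := indepZ L (s := 1) (t := 0) (by simp [h3])
    exact one_ne_zero h4.1
  refine ⟨D.natAbs, Int.natAbs_ne_zero.2 hD0, ?_⟩
  have main : ∀ w ∈ M.lattice, ∃ w' ∈ L.lattice, (D : ℂ) * w = ρ * w' := by
    intro w hw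
    obtain ⟨m, n, rfl⟩ := PeriodPair.mem_lattice.1 hw
    refine ⟨((m * d - n * c : ℤ) : ℂ) * L.ω₁ + ((n * a - m * b : ℤ) : ℂ) * L.ω₂,
      PeriodPair.mem_lattice.2 ⟨_, _, rfl⟩, ?_⟩
    have e5 : (D : ℂ) * ((m : ℂ) * M.ω₁ + (n : ℂ) * M.ω₂) =
        (m : ℂ) * ((D : ℂ) * M.ω₁) + (n : ℂ) * ((D : ℂ) * M.ω₂) := by ring
    rw [e5, e1, e2]
    push_cast
    ring
  intro w hw
  obtain ⟨w', hw', hw2⟩ := main w hw
  rcases Int.natAbs_eq D with h5 | h5
  · refine ⟨w', hw', ?_⟩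
    rw [← hw2]
    have : ((D.natAbs : ℕ) : ℂ) = (D : ℂ) := by
      have h6 : ((D.natAbs : ℤ) : ℂ) = (D : ℂ) := by rw [← h5]
      rw [Int.cast_natCast] at h6
      exact h6
    rw [this]
  · refine ⟨-w', neg_mem hw', ?_⟩
    have : ((D.natAbs : ℕ) : ℂ) = -(D : ℂ) := by
      have h6 : ((-(D.natAbs : ℤ) : ℤ) : ℂ) = (D : ℂ) := by rw [← h5]
      push_cast at h6
      rw [← h6]
      simp
    rw [this]
    linear_combination -hw2

theorem zmem {L : PeriodPair} {w : ℂ} (hw : w ∈ L.lattice) (n : ℤ) : (n : ℂ) * w ∈ L.lattice := by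
  have := L.lattice.smul_mem n hw
  simpa [zsmul_eq_mul] using this

end BAC

open _root_.Pool.Agent.MUXU.BAC in
theorem tu_BAC (h1 : Su_BAS) : Su_BAC := by
  refine ⟨?_, ?_⟩
  · intro L M μ ν hμ hν hM hL
    have hI : Isg L L (μ * ν) := fun w hw => by
      rw [mul_assoc]
      exact hM _ (hL w hw)
    obtain ⟨n, hn, hn'⟩ := key (mul_ne_zero hμ hν) hI
    obtain ⟨L'', hL''⟩ := h1 L (M.map (AddMonoidHom.mulLeft μ)) n hn (by
      intro w hw
      obtain ⟨w', hw', e⟩ := hn' w hw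
      rw [AddSubgroup.mem_map]
      refine ⟨ν * w', hL w' hw', ?_⟩
      rw [e]
      simp [mul_assoc]) (by
      intro w hw
      rw [AddSubgroup.mem_map] at hw
      obtain ⟨x, hx, rfl⟩ := hw
      have := zmem (hM x hx) (n : ℤ)
      simpa using this)
    refine ⟨scale L'' μ⁻¹ (inv_ne_zero hμ), fun z => ?_⟩
    rw [mem_scale, inv_inv, hL'', AddSubgroup.mem_map]
    constructor
    · rintro ⟨x, hx, h⟩
      have : x = z := mul_left_cancel₀ hμ (by simpa using h)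
      rwa [← this]
    · intro hz
      exact ⟨z, hz, by simp⟩
  · intro L M μ hμ hI
    obtain ⟨n, hn, hn'⟩ := key hμ hI
    have hN : ∀ z, μ * z ∈ M.lattice → (n : ℂ) * z ∈ L.lattice := by
      intro z hz
      obtain ⟨w', hw', e⟩ := hn' _ hz
      have : (n : ℂ) * z = w' := by
        apply mul_left_cancel₀ hμ
        rw [← e]; ring
      rwa [this]
    refine ⟨?_, n, hn, hN⟩
    classical
    set S : Finset ℂ := ((Finset.range n) ×ˢ (Finset.range n)).image
      (fun p => ((p.1 : ℂ) * M.ω₁ + (p.2 : ℂ) * M.ω₂) / μ) with hS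
    have hScov : ∀ z, μ * z ∈ M.lattice → ∃ s ∈ S, z - s ∈ L.lattice := by
      intro z hz
      obtain ⟨m, k, h⟩ := PeriodPair.mem_lattice.1 hz
      have hn0 : (0 : ℤ) < n := by omega
      have hm0 := Int.emod_nonneg m hn0.ne'
      have hm1 := Int.emod_lt_of_pos m hn0
      have hk0 := Int.emod_nonneg k hn0.ne'
      have hk1 := Int.emod_lt_of_pos k hn0
      refine ⟨(((m % n).toNat : ℂ) * M.ω₁ + ((k % n).toNat : ℂ) * M.ω₂) / μ, ?_, ?_⟩
      · rw [hS, Finset.mem_image]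
        refine ⟨((m % n).toNat, (k % n).toNat), ?_, rfl⟩
        rw [Finset.mem_product, Finset.mem_range, Finset.mem_range]
        constructor
        · show (m % n).toNat < n
          omega
        · show (k % n).toNat < n
          omega
      · have c1 : (((m % n).toNat : ℕ) : ℂ) = (m : ℂ) - n * ((m / n : ℤ) : ℂ) := by
          have h3 : (((m % n).toNat : ℕ) : ℤ) = m - n * (m / n) := by
            rw [Int.toNat_of_nonneg hm0, Int.emod_def]
          exact_mod_cast congrArg (fun x : ℤ => (x : ℂ)) h3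
        have c2 : (((k % n).toNat : ℕ) : ℂ) = (k : ℂ) - n * ((k / n : ℤ) : ℂ) := by
          have h3 : (((k % n).toNat : ℕ) : ℤ) = k - n * (k / n) := by
            rw [Int.toNat_of_nonneg hk0, Int.emod_def]
          exact_mod_cast congrArg (fun x : ℤ => (x : ℂ)) h3
        have e3 : z - (((m % n).toNat : ℂ) * M.ω₁ + ((k % n).toNat : ℂ) * M.ω₂) / μ =
            (n : ℂ) * ((((m / n : ℤ) : ℂ) * M.ω₁ + ((k / n : ℤ) : ℂ) * M.ω₂) / μ) := by
          rw [c1, c2]
          have h4 : z = ((m : ℂ) * M.ω₁ + (k : ℂ) * M.ω₂) / μ := by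
            rw [h]; field_simp
          rw [h4]
          field_simp
          ring
        rw [e3]
        apply hN
        rw [mul_div_cancel₀ _ hμ]
        exact PeriodPair.mem_lattice.2 ⟨_, _, rfl⟩
    let G : AddSubgroup ℂ := L.lattice.toAddSubgroup
    let π : ℂ → ℂ ⧸ G := fun z => QuotientAddGroup.mk z
    have hπ : ∀ x y : ℂ, π x = π y ↔ x - y ∈ L.lattice := by
      intro x y
      have h5 : π x = π y ↔ -x + y ∈ G := QuotientAddGroup.eq
      rw [h5]
      have h6 : -x + y = -(x - y) := by ring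
      rw [h6]
      exact neg_mem_iff
    have hπ0 : ∀ x : ℂ, π x = 0 ↔ x ∈ L.lattice := by
      intro x
      have : (0 : ℂ ⧸ G) = π 0 := rfl
      rw [this, hπ, sub_zero]
    have hout : ∀ c : ℂ ⧸ G, π (Quotient.out c) = c := fun c => Quotient.out_eq c
    have hSM : ∀ s ∈ S, μ * s ∈ M.lattice := by
      intro s hs
      rw [hS, Finset.mem_image] at hs
      obtain ⟨p, -, rfl⟩ := hs
      rw [mul_div_cancel₀ _ hμ]
      exact PeriodPair.mem_lattice.2 ⟨p.1, p.2, by push_cast; rfl⟩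
    refine ⟨((S.image π).erase 0).image Quotient.out, ?_, ?_, ?_, ?_⟩
    · intro q hq
      rw [Finset.mem_image] at hq
      obtain ⟨c, hc, rfl⟩ := hq
      rw [Finset.mem_erase, Finset.mem_image] at hc
      obtain ⟨-, s, hs, hsc⟩ := hc
      have h7 : Quotient.out c - s ∈ L.lattice := by
        rw [← hπ, hout, hsc]
      have h8 := hI _ h7
      have h9 : μ * Quotient.out c = μ * s + μ * (Quotient.out c - s) := by ring
      rw [h9]
      exact add_mem (hSM s hs) h8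
    · intro q hq
      rw [Finset.mem_image] at hq
      obtain ⟨c, hc, rfl⟩ := hq
      rw [Finset.mem_erase] at hc
      rw [← hπ0, hout]
      exact hc.1
    · intro q hq q' hq' h
      rw [Finset.mem_image] at hq hq'
      obtain ⟨c, hc, rfl⟩ := hq
      obtain ⟨c', hc', rfl⟩ := hq'
      rw [← hπ, hout, hout] at h
      rw [h]
    · intro z hz hzL
      obtain ⟨s, hs, hzs⟩ := hScov z hz
      have h10 : π z = π s := (hπ _ _).2 hzs
      refine ⟨Quotient.out (π z), ?_, ?_⟩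
      · rw [Finset.mem_image]
        refine ⟨π z, ?_, rfl⟩
        rw [Finset.mem_erase]
        refine ⟨?_, ?_⟩
        · rw [Ne, hπ0]
          exact hzL
        · rw [h10]
          exact Finset.mem_image_of_mem _ hs
      · rw [← hπ, hout]

end

end Pool.Agent.MUXU


end

section

/-!
# MUX, block U, module AUT: a number with a finite orbit under the automorphisms is algebraic
-/

set_option autoImplicit false

open Filter Topology Polynomial UpperHalfPlane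
open scoped Real

namespace Pool.Agent.MUXU

open _root_.Pool.Agent.MU3B

noncomputable section

namespace Aut

/-- two transcendence bases indexed by the same set are exchanged by an automorphism -/
lemma exists_equiv {R K ι : Type*} [Field R] [Field K] [Algebra R K] [IsAlgClosed K]
    (v w : ι → K) (hv : IsTranscendenceBasis R v) (hw : IsTranscendenceBasis R w) :
    ∃ σ : K ≃+* K, (∀ r : R, σ (algebraMap R K r) = algebraMap R K r) ∧ ∀ i, σ (v i) = w i := by
  let _ := IsAlgClosed.isAlgClosure_of_transcendence_basis v hv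
  let _ := IsAlgClosed.isAlgClosure_of_transcendence_basis w hw
  let e : Algebra.adjoin R (Set.range v) ≃ₐ[R] Algebra.adjoin R (Set.range w) :=
    hv.1.aevalEquiv.symm.trans hw.1.aevalEquiv
  refine ⟨IsAlgClosure.equivOfEquiv K K e.toRingEquiv, fun r => ?_, fun i => ?_⟩
  · have h1 : algebraMap R K r = algebraMap (Algebra.adjoin R (Set.range v)) K
        (algebraMap R (Algebra.adjoin R (Set.range v)) r) := rfl
    rw [h1, IsAlgClosure.equivOfEquiv_algebraMap]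
    have h2 : e.toRingEquiv (algebraMap R (Algebra.adjoin R (Set.range v)) r) =
        algebraMap R (Algebra.adjoin R (Set.range w)) r := e.commutes r
    rw [h2]
    rfl
  · have h1 : v i = algebraMap (Algebra.adjoin R (Set.range v)) K
        (hv.1.aevalEquiv (MvPolynomial.X i)) := by
      rw [AlgebraicIndependent.algebraMap_aevalEquiv]
      simp
    have h2 : w i = algebraMap (Algebra.adjoin R (Set.range w)) K
        (hw.1.aevalEquiv (MvPolynomial.X i)) := by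
      rw [AlgebraicIndependent.algebraMap_aevalEquiv]
      simp
    rw [h1, IsAlgClosure.equivOfEquiv_algebraMap, h2]
    congr 1
    change e (hv.1.aevalEquiv (MvPolynomial.X i)) = _
    simp [e]

end Aut

open Cardinal in
/-- AUT. -/
theorem tu_AUT : Su_AUT := by
  intro F hF x hfin
  by_contra hx
  have hxF : Transcendental F x := by
    intro h
    exact hx (h.restrictScalars ℚ)
  have hind : AlgebraicIndepOn F id ({x} : Set ℂ) := by
    have h1 : AlgebraicIndependent F (fun i : ({x} : Set ℂ) => (id (i : ℂ) : ℂ)) := by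
      rw [algebraicIndependent_singleton_iff (⟨x, rfl⟩ : ({x} : Set ℂ))]
      exact hxF
    exact h1
  obtain ⟨t, hxt, ht⟩ := exists_isTranscendenceBasis_superset hind
  have hx' : x ∈ t := hxt rfl
  have hFc : #F ≤ ℵ₀ := by
    have h1 := Algebra.IsAlgebraic.cardinalMk_le_max ℚ F
    simpa using h1
  have hinf : t.Infinite := by
    have h1 := IsAlgClosed.cardinal_eq_cardinal_transcendence_basis_of_aleph0_lt
      (Subtype.val : t → ℂ) ht hFc (by rw [Cardinal.mk_complex]; exact Cardinal.aleph0_lt_continuum)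
    rw [Cardinal.lift_id, Cardinal.lift_id, Cardinal.mk_complex] at h1
    rw [← Set.infinite_coe_iff, Cardinal.infinite_iff, ← h1]
    exact Cardinal.aleph0_le_continuum
  refine hinf (hfin.subset ?_)
  intro y hy
  classical
  obtain ⟨σ, h1, h2⟩ := Aut.exists_equiv (Subtype.val : t → ℂ)
    ((Subtype.val : t → ℂ) ∘ (Equiv.swap (⟨x, hx'⟩ : t) ⟨y, hy⟩)) ht (ht.comp_equiv _)
  refine ⟨σ, fun a ha => h1 ⟨a, ha⟩, ?_⟩
  have h3 := h2 ⟨x, hx'⟩
  simp only [Function.comp_apply, Equiv.swap_apply_left] at h3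
  exact h3.symm

end

end Pool.Agent.MUXU


end
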