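import Mathlib
import Pool.Agent.MVF.C006
import Pool.Agent.MVF.C007

/-! Parts: MU3.A_SCP, MU3.A_PFG, MUX.U_AUF, MU3.A_N11C -/

namespace Pool.Agent.MU3A.PFG18
end Pool.Agent.MU3A.PFG18
namespace Pool.Agent.MU3A.P_N11C
end Pool.Agent.MU3A.P_N11C

section

/-!
# MU3, block A, SCP: homogeneity of `℘`, `℘'`, `g₂`, `g₃`
-/

set_option autoImplicit false

namespace Pool.Agent.MU3A

open _root_.MU3 _root_.Pool.Agent.MU3B

namespace P_SCP

/-- the bijection `l ↦ a l` of `L` with `L'` -/
noncomputable def eqv (L L' : PeriodPair) (a : ℂ) (ha : a ≠ 0)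
    (h : ∀ u : ℂ, u ∈ L.lattice ↔ a * u ∈ L'.lattice) : L.lattice ≃ L'.lattice where
  toFun l := ⟨a * l, (h l).1 l.2⟩
  invFun l := ⟨a⁻¹ * l, (h _).2 (by rw [mul_inv_cancel_left₀ ha]; exact l.2)⟩
  left_inv l := Subtype.ext (inv_mul_cancel_left₀ ha _)
  right_inv l := Subtype.ext (mul_inv_cancel_left₀ ha _)

theorem eqv_val (L L' : PeriodPair) (a : ℂ) (ha : a ≠ 0)
    (h : ∀ u : ℂ, u ∈ L.lattice ↔ a * u ∈ L'.lattice) (l : L.lattice) :
    ((eqv L L' a ha h l : L'.lattice) : ℂ) = a * l := rfl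

theorem G_eq (L L' : PeriodPair) (a : ℂ) (ha : a ≠ 0)
    (h : ∀ u : ℂ, u ∈ L.lattice ↔ a * u ∈ L'.lattice) (n : ℕ) : L'.G n = L.G n / a ^ n := by
  unfold PeriodPair.G
  rw [← (eqv L L' a ha h).tsum_eq, div_eq_mul_inv, ← tsum_mul_right]
  refine tsum_congr fun l => ?_
  rw [eqv_val, mul_pow, mul_inv, mul_comm]

end P_SCP

/-- homogeneity of `℘`, `℘'`, `g₂`, `g₃` -/
theorem ta_SCP : Sa_SCP := by
  intro L L' a ha h
  refine ⟨fun z => ?_, fun z => ?_, ?_, ?_⟩
  · unfold PeriodPair.weierstrassP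
    rw [← (P_SCP.eqv L L' a ha h).tsum_eq, div_eq_mul_inv, ← tsum_mul_right]
    refine tsum_congr fun l => ?_
    rw [P_SCP.eqv_val, ← mul_sub, mul_pow, mul_pow, sub_mul, one_div, one_div, one_div, one_div,
      mul_inv, mul_inv]
    ring
  · unfold PeriodPair.derivWeierstrassP
    rw [← (P_SCP.eqv L L' a ha h).tsum_eq, neg_div, div_eq_mul_inv, ← tsum_mul_right]
    congr 1
    refine tsum_congr fun l => ?_
    rw [P_SCP.eqv_val, ← mul_sub, mul_pow, div_eq_mul_inv, div_eq_mul_inv, mul_inv]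
    ring
  · unfold PeriodPair.g₂
    rw [P_SCP.G_eq L L' a ha h, mul_div_assoc]
  · unfold PeriodPair.g₃
    rw [P_SCP.G_eq L L' a ha h, mul_div_assoc]

end Pool.Agent.MU3A


end

section

/-!
# MU3, block A: module PFG (helper18)
-/

set_option autoImplicit false

namespace Pool.Agent.MU3A

open _root_.Pool.Agent.MU3B Filter Topology

namespace PFG18

/-- Product rule with logarithmic derivatives. -/
theorem prod_rule (R : Finset ℂ) (f : ℂ → ℂ → ℂ) (l : ℂ → ℂ) (z : ℂ)
    (h : ∀ q ∈ R, HasDerivAt (f q) (l q * f q z) z) :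
    HasDerivAt (fun x => ∏ q ∈ R, f q x) ((∑ q ∈ R, l q) * ∏ q ∈ R, f q z) z := by
  classical
  induction R using Finset.induction_on with
  | empty => simpa using hasDerivAt_const z (1 : ℂ)
  | insert q s hq ih =>
    have h1 := h q (Finset.mem_insert_self q s)
    have h2 := ih (fun p hp => h p (Finset.mem_insert_of_mem hp))
    have h3 := h1.mul h2
    have e : (fun x => ∏ p ∈ insert q s, f p x) = f q * fun x => ∏ p ∈ s, f p x := by
      funext x
      rw [Finset.prod_insert hq]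
      rfl
    have e2 : (∑ p ∈ insert q s, l p) * ∏ p ∈ insert q s, f p z =
        l q * f q z * ∏ p ∈ s, f p z + f q z * ((∑ p ∈ s, l p) * ∏ p ∈ s, f p z) := by
      rw [Finset.sum_insert hq, Finset.prod_insert hq]
      ring
    rw [e, e2]
    exact h3

/-- The negatives of a system of representatives. -/
theorem reps_neg {L : PeriodPair} {a : ℂ} {R : Finset ℂ} (hR : IsReps L a R) :
    IsReps L a (R.image fun q => -q) := by
  refine ⟨?_, ?_, ?_, ?_⟩
  · intro q hq'
    obtain ⟨q, hq, rfl⟩ := Finset.mem_image.1 hq'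
    rw [mul_neg]
    exact L.lattice.neg_mem (hR.mem q hq)
  · intro q hq'
    obtain ⟨q, hq, rfl⟩ := Finset.mem_image.1 hq'
    intro h
    have := L.lattice.neg_mem h
    rw [neg_neg] at this
    exact hR.ne q hq this
  · intro q hq1 q' hq1' h
    obtain ⟨q, hq, rfl⟩ := Finset.mem_image.1 hq1
    obtain ⟨q', hq', rfl⟩ := Finset.mem_image.1 hq1'
    have h1 := L.lattice.neg_mem h
    have e : -(-q - -q') = q - q' := by ring
    rw [e] at h1
    rw [hR.inj q hq q' hq' h1]
  · intro z hz hz'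
    obtain ⟨q, hq, h⟩ := hR.surj (-z) (by rw [mul_neg]; exact L.lattice.neg_mem hz)
      (fun h => hz' (by
        have := L.lattice.neg_mem h
        rwa [neg_neg] at this))
    refine ⟨-q, Finset.mem_image_of_mem _ hq, ?_⟩
    have h1 := L.lattice.neg_mem h
    have e : -(-z - q) = z - -q := by ring
    rwa [e] at h1

theorem sum_neg (R : Finset ℂ) (f : ℂ → ℂ) :
    ∑ q ∈ R.image (fun q => -q), f q = ∑ q ∈ R, f (-q) :=
  Finset.sum_image fun _ _ _ _ h => neg_injective h

/-- the logarithmic derivative of `℘ - ℘(Q)` -/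
noncomputable def lg (L : PeriodPair) (Q z : ℂ) : ℂ := ee L (z + Q) + ee L (z - Q) - 2 * ee L z

theorem hasD (L : PeriodPair) {z : ℂ} (hz : z ∉ L.lattice) :
    HasDerivAt L.weierstrassP (L.derivWeierstrassP z) z := by
  have h := (L.analyticOnNhd_weierstrassP z hz).differentiableAt.hasDerivAt
  rwa [L.deriv_weierstrassP] at h

theorem hasL (hID : St_ID) (L : PeriodPair) {Q z : ℂ} (hQ : Q ∉ L.lattice) (hz : z ∉ L.lattice)
    (h1 : z + Q ∉ L.lattice) (h2 : z - Q ∉ L.lattice) :
    HasDerivAt (fun x => L.weierstrassP x - L.weierstrassP Q)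
      (lg L Q z * (L.weierstrassP z - L.weierstrassP Q)) z := by
  have h3 := (hasD L hz).sub_const (L.weierstrassP Q)
  rw [← hID L Q z hQ hz h1 h2] at h3
  exact h3

theorem ex0 (L : PeriodPair) (z : ℂ) :
    L.weierstrassP z = L.weierstrassPExcept 0 z + 1 / z ^ 2 := by
  have h := L.weierstrassPExcept_add 0 z
  rw [← h]
  simp

/-- The double pole at `0`. -/
theorem _root_.Pool.Agent.MU3A.PFG18.lim (L : PeriodPair) (a : ℂ) (ha : a ≠ 0) (c : ℂ) :
    Tendsto (fun s => s ^ 2 * (L.weierstrassP (a * s) - c)) (𝓝[≠] 0) (𝓝 (1 / a ^ 2)) := by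
  have hE : ContinuousAt (L.weierstrassPExcept 0) 0 :=
    (L.analyticAt_weierstrassPExcept 0).continuousAt
  have h1 : ContinuousAt (fun s : ℂ => L.weierstrassPExcept 0 (a * s)) 0 :=
    ContinuousAt.comp_of_eq hE (by fun_prop) (by simp)
  have h2 : ContinuousAt (fun s : ℂ => s ^ 2 * (L.weierstrassPExcept 0 (a * s) - c) + 1 / a ^ 2)
      0 := ((continuousAt_id.pow 2).mul (h1.sub continuousAt_const)).add continuousAt_const
  have h3 : Tendsto (fun s : ℂ => s ^ 2 * (L.weierstrassPExcept 0 (a * s) - c) + 1 / a ^ 2)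
      (𝓝[≠] 0) (𝓝 (1 / a ^ 2)) := by
    have h4 := h2.tendsto.mono_left (nhdsWithin_le_nhds (s := {(0 : ℂ)}ᶜ))
    simpa using h4
  refine h3.congr' ?_
  filter_upwards [self_mem_nhdsWithin] with s hs
  have hs' : s ≠ 0 := hs
  rw [ex0]
  field_simp
  ring

theorem lim1 (L : PeriodPair) (c : ℂ) :
    Tendsto (fun s => s ^ 2 * (L.weierstrassP s - c)) (𝓝[≠] 0) (𝓝 1) := by
  have h := _root_.Pool.Agent.MU3A.PFG18.lim L 1 one_ne_zero c
  simpa using h

end PFG18

open _root_.Pool.Agent.MU3A.PFG18 in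
theorem ta_PFG (hDIS : St_DIS) (hID : St_ID) (hNEQ : St_NEQ) : Sa_PFG := by
  classical
  intro L a R w ha haL hR haw
  -- the domain
  obtain ⟨U, hU⟩ : ∃ U : Set ℂ, U = {z | a * z ∉ L.lattice ∧ a * z - a * w ∉ L.lattice ∧
    a * z + a * w ∉ L.lattice} := ⟨_, rfl⟩
  have hmem : ∀ z, z ∈ U ↔ a * z ∉ L.lattice ∧ a * z - a * w ∉ L.lattice ∧
    a * z + a * w ∉ L.lattice := fun z => by rw [hU]; rfl
  have hUc : Uᶜ.Countable := by
    have hc : Countable L.lattice := L.latticeEquivProd.toEquiv.injective.countable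
    have hc2 : (L.lattice : Set ℂ).Countable := hc
    have h1 : ((fun z : ℂ => a * z) ⁻¹' (L.lattice : Set ℂ)).Countable :=
      hc2.preimage_of_injOn fun x _ y _ hxy => mul_left_cancel₀ ha hxy
    have h2 : ((fun z : ℂ => a * z - a * w) ⁻¹' (L.lattice : Set ℂ)).Countable :=
      hc2.preimage_of_injOn fun x _ y _ hxy => mul_left_cancel₀ ha (sub_left_injective hxy)
    have h3 : ((fun z : ℂ => a * z + a * w) ⁻¹' (L.lattice : Set ℂ)).Countable :=
      hc2.preimage_of_injOn fun x _ y _ hxy => mul_left_cancel₀ ha (add_left_injective _ hxy)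
    refine ((h1.union h2).union h3).mono fun z hz => ?_
    by_contra h
    apply hz
    rw [hmem]
    exact ⟨fun h' => h (Or.inl (Or.inl h')), fun h' => h (Or.inl (Or.inr h')),
      fun h' => h (Or.inr h')⟩
  have hUopen : IsOpen U := by
    have e : U = ((fun z : ℂ => a * z) ⁻¹' (L.lattice : Set ℂ)ᶜ) ∩
        (((fun z : ℂ => a * z - a * w) ⁻¹' (L.lattice : Set ℂ)ᶜ) ∩
          ((fun z : ℂ => a * z + a * w) ⁻¹' (L.lattice : Set ℂ)ᶜ)) := by
      rw [hU]
      rfl
    rw [e]
    have ho := L.isClosed_lattice.isOpen_compl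
    exact (ho.preimage (by fun_prop)).inter
      ((ho.preimage (by fun_prop)).inter (ho.preimage (by fun_prop)))
  have hUconn : IsConnected U := by
    have h := hUc.isPathConnected_compl_of_one_lt_rank
      (by simp only [Complex.rank_real_complex, Nat.one_lt_ofNat])
    rw [compl_compl] at h
    exact h.isConnected
  have hUdense : Dense U := by
    have h := hUc.dense_compl ℝ
    rwa [compl_compl] at h
  -- points of `U`
  have hsubq : ∀ x, ∀ q ∈ R, a * x ∉ L.lattice → x + q ∉ L.lattice ∧ x - q ∉ L.lattice := by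
    intro x q hq hx
    refine ⟨fun h => hx ?_, fun h => hx ?_⟩
    · have h1 := L.lattice.sub_mem (haL _ h) (hR.mem q hq)
      have e : a * (x + q) - a * q = a * x := by ring
      rwa [e] at h1
    · have h1 := L.lattice.add_mem (haL _ h) (hR.mem q hq)
      have e : a * (x - q) + a * q = a * x := by ring
      rwa [e] at h1
  have hsub0 : ∀ x, a * x ∉ L.lattice → x ∉ L.lattice := fun x hx h => hx (haL x h)
  have hwL : w ∉ L.lattice := hsub0 w haw
  have hwq : ∀ q ∈ R, w + q ∉ L.lattice := fun q hq => (hsubq w q hq haw).1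
  have hplus : ∀ z ∈ U, z + w ∉ L.lattice ∧ ∀ q ∈ R, z + (w + q) ∉ L.lattice := by
    intro z hz
    have h1 : a * (z + w) ∉ L.lattice := by
      rw [mul_add]
      exact ((hmem z).1 hz).2.2
    refine ⟨hsub0 _ h1, fun q hq => ?_⟩
    rw [← add_assoc]
    exact (hsubq _ q hq h1).1
  have hminus : ∀ z ∈ U, z - w ∉ L.lattice ∧ ∀ q ∈ R, z - (w + q) ∉ L.lattice := by
    intro z hz
    have h1 : a * (z - w) ∉ L.lattice := by
      rw [mul_sub]
      exact ((hmem z).1 hz).2.1
    refine ⟨hsub0 _ h1, fun q hq => ?_⟩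
    rw [← sub_sub]
    exact (hsubq _ q hq h1).2
  obtain ⟨Nf, hN⟩ : ∃ N : ℂ → ℂ, N = fun z => (L.weierstrassP (a * z) - L.weierstrassP (a * w)) *
      ∏ q ∈ R, (L.weierstrassP z - L.weierstrassP q) := ⟨_, rfl⟩
  obtain ⟨Df, hD⟩ : ∃ D : ℂ → ℂ, D = fun z => (L.weierstrassP z - L.weierstrassP w) *
      ∏ q ∈ R, (L.weierstrassP z - L.weierstrassP (w + q)) := ⟨_, rfl⟩
  have hNd : ∀ z ∈ U, HasDerivAt Nf ((a * lg L (a * w) (a * z) + ∑ q ∈ R, lg L q z) * Nf z) z := by
    intro z hz
    obtain ⟨u1, u2, u3⟩ := (hmem z).1 hz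
    have g1 : HasDerivAt (fun x => L.weierstrassP (a * x) - L.weierstrassP (a * w))
        (a * lg L (a * w) (a * z) * (L.weierstrassP (a * z) - L.weierstrassP (a * w))) z := by
      have h3 := hasL hID L haw u1 u3 u2
      have h4 : HasDerivAt (fun x : ℂ => a * x) a z := by
        simpa using (hasDerivAt_id z).const_mul a
      have h5 := HasDerivAt.comp z h3 h4
      have e : lg L (a * w) (a * z) * (L.weierstrassP (a * z) - L.weierstrassP (a * w)) * a =
          a * lg L (a * w) (a * z) * (L.weierstrassP (a * z) - L.weierstrassP (a * w)) := by ring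
      rw [e] at h5
      exact h5
    have g2 := prod_rule R (fun q x => L.weierstrassP x - L.weierstrassP q) (fun q => lg L q z) z
      (fun q hq => hasL hID L (hR.ne q hq) (hsub0 z u1) (hsubq z q hq u1).1 (hsubq z q hq u1).2)
    have g3 := g1.mul g2
    rw [hN]
    have e : (a * lg L (a * w) (a * z) + ∑ q ∈ R, lg L q z) *
        ((L.weierstrassP (a * z) - L.weierstrassP (a * w)) *
          ∏ q ∈ R, (L.weierstrassP z - L.weierstrassP q)) =
        a * lg L (a * w) (a * z) * (L.weierstrassP (a * z) - L.weierstrassP (a * w)) *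
          ∏ q ∈ R, (L.weierstrassP z - L.weierstrassP q) +
        (L.weierstrassP (a * z) - L.weierstrassP (a * w)) * ((∑ q ∈ R, lg L q z) *
          ∏ q ∈ R, (L.weierstrassP z - L.weierstrassP q)) := by ring
    simp only
    rw [e]
    exact g3
  have hDd : ∀ z ∈ U, HasDerivAt Df ((lg L w z + ∑ q ∈ R, lg L (w + q) z) * Df z) z := by
    intro z hz
    obtain ⟨u1, u2, u3⟩ := (hmem z).1 hz
    have g1 := hasL hID L hwL (hsub0 z u1) (hplus z hz).1 (hminus z hz).1
    have g2 := prod_rule R (fun q x => L.weierstrassP x - L.weierstrassP (w + q))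
      (fun q => lg L (w + q) z) z
      (fun q hq => hasL hID L (hwq q hq) (hsub0 z u1) ((hplus z hz).2 q hq) ((hminus z hz).2 q hq))
    have g3 := g1.mul g2
    rw [hD]
    have e : (lg L w z + ∑ q ∈ R, lg L (w + q) z) *
        ((L.weierstrassP z - L.weierstrassP w) *
          ∏ q ∈ R, (L.weierstrassP z - L.weierstrassP (w + q))) =
        lg L w z * (L.weierstrassP z - L.weierstrassP w) *
          ∏ q ∈ R, (L.weierstrassP z - L.weierstrassP (w + q)) +
        (L.weierstrassP z - L.weierstrassP w) * ((∑ q ∈ R, lg L (w + q) z) *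
          ∏ q ∈ R, (L.weierstrassP z - L.weierstrassP (w + q))) := by ring
    simp only
    rw [e]
    exact g3
  have hsum : ∀ z, a * lg L (a * w) (a * z) + ∑ q ∈ R, lg L q z =
      lg L w z + ∑ q ∈ R, lg L (w + q) z := by
    intro z
    have h1 := hDIS L a R ha haL hR (z + w)
    have h2 := hDIS L a _ ha haL (reps_neg hR) (z - w)
    have h3 := hDIS L a R ha haL hR z
    have h4 := hDIS L a _ ha haL (reps_neg hR) z
    rw [sum_neg R fun q => ee L (z - w + q)] at h2
    rw [sum_neg R fun q => ee L (z + q)] at h4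
    have e1 : ∑ q ∈ R, lg L q z = ∑ q ∈ R, ee L (z + q) + ∑ q ∈ R, ee L (z + -q) -
        ∑ q ∈ R, 2 * ee L z := by
      rw [← Finset.sum_add_distrib, ← Finset.sum_sub_distrib]
      refine Finset.sum_congr rfl fun q _ => ?_
      rw [lg, sub_eq_add_neg z q]
    have e2 : ∑ q ∈ R, lg L (w + q) z = ∑ q ∈ R, ee L (z + w + q) + ∑ q ∈ R, ee L (z - w + -q) -
        ∑ q ∈ R, 2 * ee L z := by
      rw [← Finset.sum_add_distrib, ← Finset.sum_sub_distrib]
      refine Finset.sum_congr rfl fun q _ => ?_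
      have e3 : z + (w + q) = z + w + q := by ring
      have e4 : z - (w + q) = z - w + -q := by ring
      rw [lg, e3, e4]
    rw [e1, e2, lg, lg]
    rw [mul_add] at h1
    rw [mul_sub] at h2
    linear_combination h3 + h4 - h1 - h2
  have hDne : ∀ z ∈ U, Df z ≠ 0 := by
    intro z hz
    obtain ⟨u1, u2, u3⟩ := (hmem z).1 hz
    rw [hD]
    refine mul_ne_zero (fun h => ?_) (Finset.prod_ne_zero_iff.2 fun q hq h => ?_)
    · rcases hNEQ L w z hwL (hsub0 z u1) (sub_eq_zero.1 h) with h1 | h1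
      · exact (hminus z hz).1 h1
      · exact (hplus z hz).1 h1
    · rcases hNEQ L (w + q) z (hwq q hq) (hsub0 z u1) (sub_eq_zero.1 h) with h1 | h1
      · exact (hminus z hz).2 q hq h1
      · exact (hplus z hz).2 q hq h1
  have hQ : ∀ z ∈ U, HasDerivAt (fun x => Nf x / Df x) 0 z := by
    intro z hz
    have h3 := (hNd z hz).div (hDd z hz) (hDne z hz)
    rw [hsum z] at h3
    have e : ((lg L w z + ∑ q ∈ R, lg L (w + q) z) * Nf z * Df z -
        Nf z * ((lg L w z + ∑ q ∈ R, lg L (w + q) z) * Df z)) / Df z ^ 2 = 0 := by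
      rw [div_eq_zero_iff]
      left
      ring
    rw [e] at h3
    exact h3
  obtain ⟨C, hC⟩ := hUopen.exists_is_const_of_deriv_eq_zero hUconn.isPreconnected
    (fun z hz => (hQ z hz).differentiableAt.differentiableWithinAt) (fun z hz => (hQ z hz).deriv)
  have hND : ∀ z ∈ U, Nf z = C * Df z := fun z hz => (div_eq_iff (hDne z hz)).1 (hC z hz)
  -- the constant
  have hCa : 1 / a ^ 2 = C := by
    have hne : (𝓝[U] (0 : ℂ)).NeBot := mem_closure_iff_nhdsWithin_neBot.1 (hUdense 0)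
    have hle : 𝓝[U] (0 : ℂ) ≤ 𝓝[≠] 0 := by
      refine nhdsWithin_mono _ fun z hz hz0 => ?_
      have hz0' : z = 0 := hz0
      apply ((hmem z).1 hz).1
      rw [hz0', mul_zero]
      exact L.lattice.zero_mem
    have t1 : Tendsto (fun z => (z ^ 2 * (L.weierstrassP (a * z) - L.weierstrassP (a * w))) *
        ∏ q ∈ R, (z ^ 2 * (L.weierstrassP z - L.weierstrassP q))) (𝓝[U] 0)
        (𝓝 (1 / a ^ 2 * ∏ _q ∈ R, (1 : ℂ))) :=
      (((_root_.Pool.Agent.MU3A.PFG18.lim L a ha _).mul (tendsto_finsetProd R fun q _ => lim1 L _))).mono_left hle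
    have t2 : Tendsto (fun z => (z ^ 2 * (L.weierstrassP z - L.weierstrassP w)) *
        ∏ q ∈ R, (z ^ 2 * (L.weierstrassP z - L.weierstrassP (w + q)))) (𝓝[U] 0)
        (𝓝 (1 * ∏ _q ∈ R, (1 : ℂ))) :=
      (((lim1 L _).mul (tendsto_finsetProd R fun q _ => lim1 L _))).mono_left hle
    rw [Finset.prod_const_one, mul_one] at t1 t2
    have t3 := t2.const_mul C
    rw [mul_one] at t3
    refine tendsto_nhds_unique t1 (t3.congr' ?_)
    filter_upwards [self_mem_nhdsWithin] with z hz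
    have h1 := hND z hz
    rw [hN, hD] at h1
    simp only at h1
    rw [Finset.prod_mul_distrib, Finset.prod_mul_distrib, Finset.prod_const]
    linear_combination (-(z ^ 2 * (z ^ 2) ^ R.card)) * h1
  -- all points
  intro z hz
  have hzL := hsub0 z hz
  have hne : (𝓝[U] z).NeBot := mem_closure_iff_nhdsWithin_neBot.1 (hUdense z)
  have c0 : ContinuousAt L.weierstrassP z := (L.analyticOnNhd_weierstrassP z hzL).continuousAt
  have c1 : ContinuousAt (fun x => L.weierstrassP (a * x)) z :=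
    ContinuousAt.comp_of_eq (L.analyticOnNhd_weierstrassP (a * z) hz).continuousAt
      (by fun_prop) rfl
  have c2 : ContinuousAt Nf z := by
    rw [hN]
    exact (c1.sub continuousAt_const).mul
      (tendsto_finsetProd R fun q _ => c0.sub continuousAt_const)
  have c3 : ContinuousAt Df z := by
    rw [hD]
    exact (c0.sub continuousAt_const).mul
      (tendsto_finsetProd R fun q _ => c0.sub continuousAt_const)
  have t1 : Tendsto Nf (𝓝[U] z) (𝓝 (Nf z)) := c2.tendsto.mono_left nhdsWithin_le_nhds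
  have t2 : Tendsto (fun x => C * Df x) (𝓝[U] z) (𝓝 (C * Df z)) :=
    (c3.tendsto.mono_left nhdsWithin_le_nhds).const_mul C
  have h1 : Nf z = C * Df z := by
    refine tendsto_nhds_unique t1 (t2.congr' ?_)
    filter_upwards [self_mem_nhdsWithin] with x hx
    exact (hND x hx).symm
  rw [← hCa, hN, hD] at h1
  simp only at h1
  have ha2 : a ^ 2 ≠ 0 := pow_ne_zero 2 ha
  have h2 : a ^ 2 * (1 / a ^ 2) = 1 := mul_one_div_cancel ha2
  linear_combination (a ^ 2) * h1 + ((L.weierstrassP z - L.weierstrassP w) *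
    ∏ q ∈ R, (L.weierstrassP z - L.weierstrassP (w + q))) * h2

end Pool.Agent.MU3A


end

section

/-!
# MUX, block U: the fixed field of the automorphisms of the complex numbers over `F` is `F`
-/

set_option autoImplicit false

open IntermediateField

namespace Pool.Agent.MUXU

theorem tu_AUF (h1 : Su_AUE) (h2 : Su_AUT) : Su_AUF := by
  intro F hF x hx
  have hxQ : IsAlgebraic ℚ x := by
    apply h2 F hF x
    refine (Set.finite_singleton x).subset ?_
    rintro y ⟨σ, hσ, rfl⟩
    exact hx σ hσ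
  have hxF : IsIntegral F x := (hxQ.tower_top F).isIntegral
  have : FiniteDimensional F F⟮x⟯ := adjoin.finiteDimensional hxF
  -- the field `F(x)` is algebraic over the rational numbers
  have hE : Algebra.IsAlgebraic ℚ (F⟮x⟯.restrictScalars ℚ) := by
    have : Algebra.IsAlgebraic ℚ F := hF
    have : Algebra.IsAlgebraic F F⟮x⟯ := Algebra.IsAlgebraic.of_finite F F⟮x⟯
    exact (Algebra.IsAlgebraic.trans ℚ F F⟮x⟯ : Algebra.IsAlgebraic ℚ F⟮x⟯)
  -- every embedding over `F` is the inclusion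
  have hsub : ∀ φ : F⟮x⟯ →ₐ[F] ℂ, φ = F⟮x⟯.val := by
    intro φ
    obtain ⟨σ, hσ⟩ := h1 (F⟮x⟯.restrictScalars ℚ) hE (φ : F⟮x⟯ →+* ℂ)
    have hfix : ∀ a ∈ F, σ a = a := by
      intro a ha
      have h3 := hσ (algebraMap F F⟮x⟯ ⟨a, ha⟩)
      have h4 : (φ : F⟮x⟯ →+* ℂ) (algebraMap F F⟮x⟯ ⟨a, ha⟩) = algebraMap F ℂ ⟨a, ha⟩ :=
        φ.commutes _
      exact h3.trans h4
    have hσx := hx σ hfix
    have h5 := hσ (AdjoinSimple.gen F x)
    have h6 : σ x = φ (AdjoinSimple.gen F x) := h5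
    apply IntermediateField.adjoin_algHom_ext F
    intro y hy
    have hy' : y = x := hy
    subst hy'
    show φ (AdjoinSimple.gen F y) = _
    rw [← h6, hσx]
    rfl
  have hcard : Module.finrank F F⟮x⟯ = 1 := by
    rw [← AlgHom.card F F⟮x⟯ ℂ, Fintype.card_eq_one_iff]
    exact ⟨F⟮x⟯.val, hsub⟩
  have h3 := finrank_adjoin_simple_eq_one_iff.1 hcard
  rw [IntermediateField.mem_bot] at h3
  obtain ⟨a, ha⟩ := h3
  rw [← ha]
  exact a.2

end Pool.Agent.MUXU


end

section

/-!
# MU3, block A, N11C: multiplication by `1 - w`, `w² = w - 3`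

From (N11) by complex conjugation: the lattice `i * conj L` is again in normal form (complex
conjugation changes the sign of `δ = 2 w - 1`, the factor `i` changes it back), and multiplication
by `w` on it is multiplication by `1 - w` on `L`.
-/

set_option autoImplicit false

namespace Pool.Agent.MU3A

open _root_.MU3 _root_.Pool.Agent.MU3B
open scoped ComplexConjugate

noncomputable section

namespace P_N11C

/-- `u ↦ i * conj u`, an involution -/
def tau (u : ℂ) : ℂ := Complex.I * conj u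

theorem tau_tau (u : ℂ) : tau (tau u) = u := by
  unfold tau
  rw [map_mul, Complex.conj_I, Complex.conj_conj]
  linear_combination (-u) * Complex.I_mul_I

theorem tau_sub (u v : ℂ) : tau u - tau v = tau (u - v) := by
  unfold tau
  rw [map_sub]
  ring

theorem tau_sq (u : ℂ) : tau u ^ 2 = -conj (u ^ 2) := by
  unfold tau
  rw [mul_pow, Complex.I_sq, map_pow]
  ring

theorem tau_cube (u : ℂ) : tau u ^ 3 = -Complex.I * conj (u ^ 3) := by
  unfold tau
  rw [mul_pow, Complex.I_pow_three, map_pow]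

theorem tau_mul (u v : ℂ) : tau (u * v) = conj u * tau v := by
  unfold tau
  rw [map_mul]
  ring

theorem tau_ne {u : ℂ} (h : u ≠ 0) : tau u ≠ 0 := by
  intro h0
  apply h
  rw [← tau_tau u, h0]
  simp [tau]

/-- `i * conj L` -/
def cj (L : PeriodPair) : PeriodPair where
  ω₁ := tau L.ω₁
  ω₂ := tau L.ω₂
  indep := by
    rw [LinearIndependent.pair_iff]
    intro s t h
    refine LinearIndependent.pair_iff.1 L.indep s t ?_
    have h1 := congrArg tau h
    have h2 : tau (s • tau L.ω₁ + t • tau L.ω₂) = s • L.ω₁ + t • L.ω₂ := by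
      simp only [tau, Complex.real_smul, map_add, map_mul, Complex.conj_ofReal, Complex.conj_I,
        Complex.conj_conj]
      linear_combination (-(s : ℂ) * L.ω₁ - t * L.ω₂) * Complex.I_mul_I
    rw [h2] at h1
    rw [h1]
    simp [tau]

theorem mem_cj (L : PeriodPair) (u : ℂ) : tau u ∈ (cj L).lattice ↔ u ∈ L.lattice := by
  rw [PeriodPair.mem_lattice, PeriodPair.mem_lattice]
  have h2 : ∀ m n : ℤ, tau (m * tau L.ω₁ + n * tau L.ω₂) = m * L.ω₁ + n * L.ω₂ := by
    intro m n
    simp only [tau, map_add, map_mul, map_intCast, Complex.conj_I, Complex.conj_conj]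
    linear_combination (-(m : ℂ) * L.ω₁ - n * L.ω₂) * Complex.I_mul_I
  constructor
  · rintro ⟨m, n, h⟩
    refine ⟨m, n, ?_⟩
    have h1 := congrArg tau h
    rw [tau_tau] at h1
    rw [← h1]
    exact (h2 m n).symm
  · rintro ⟨m, n, h⟩
    refine ⟨m, n, ?_⟩
    rw [← h, ← h2, tau_tau]
    rfl

theorem mem_cj' (L : PeriodPair) (u : ℂ) : u ∈ (cj L).lattice ↔ tau u ∈ L.lattice := by
  rw [← mem_cj L (tau u), tau_tau]

/-- the bijection of `L` with `i * conj L` -/
def eqv (L : PeriodPair) : L.lattice ≃ (cj L).lattice where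
  toFun l := ⟨tau l, (mem_cj L l).2 l.2⟩
  invFun l := ⟨tau l, (mem_cj' L l).1 l.2⟩
  left_inv _ := Subtype.ext (tau_tau _)
  right_inv _ := Subtype.ext (tau_tau _)

theorem eqv_val (L : PeriodPair) (l : L.lattice) :
    ((eqv L l : (cj L).lattice) : ℂ) = tau l := rfl

theorem wp_eq (L : PeriodPair) (z : ℂ) :
    (cj L).weierstrassP (tau z) = -conj (L.weierstrassP z) := by
  unfold PeriodPair.weierstrassP
  rw [← (eqv L).tsum_eq, Complex.conj_tsum, ← tsum_neg]
  refine tsum_congr fun l => ?_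
  rw [eqv_val, tau_sub, tau_sq, tau_sq, map_sub, map_div₀, map_div₀, map_one]
  rw [div_neg, div_neg]
  ring

theorem dwp_eq (L : PeriodPair) (z : ℂ) :
    (cj L).derivWeierstrassP (tau z) = Complex.I * conj (L.derivWeierstrassP z) := by
  unfold PeriodPair.derivWeierstrassP
  rw [← (eqv L).tsum_eq, map_neg, Complex.conj_tsum, mul_neg, ← tsum_mul_left]
  congr 1
  refine tsum_congr fun l => ?_
  rw [eqv_val, tau_sub, tau_cube, map_div₀, map_ofNat, neg_mul, div_neg, div_mul_eq_div_div,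
    div_eq_mul_inv (2 : ℂ) Complex.I, Complex.inv_I]
  ring

theorem g2_eq (L : PeriodPair) : (cj L).g₂ = conj L.g₂ := by
  unfold PeriodPair.g₂ PeriodPair.G
  rw [← (eqv L).tsum_eq, map_mul, map_ofNat, Complex.conj_tsum]
  congr 1
  refine tsum_congr fun l => ?_
  rw [eqv_val, show 4 = 2 * 2 from rfl, pow_mul, tau_sq, map_inv₀, pow_mul, neg_sq, ← map_pow]

theorem g3_eq (L : PeriodPair) : (cj L).g₃ = -conj L.g₃ := by
  unfold PeriodPair.g₃ PeriodPair.G
  rw [← (eqv L).tsum_eq, map_mul, map_ofNat, Complex.conj_tsum, ← mul_neg, ← tsum_neg]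
  congr 1
  refine tsum_congr fun l => ?_
  rw [eqv_val, show 6 = 2 * 3 from rfl, pow_mul, tau_sq, map_inv₀, pow_mul, Odd.neg_pow
    (by decide), inv_neg, ← map_pow]

theorem conj_w : conj (wC (-3) 1) = 1 - wC (-3) 1 := by
  have h : (absD (-3) 1 : ℝ) = 11 := by norm_num [absD]
  simp only [wC, map_div₀, map_add, map_mul, Complex.conj_I, Complex.conj_ofReal, map_ofNat]
  push_cast
  rw [map_one]
  ring

theorem conj_emb (x : OO (-3) 1) : conj (emb x) = emb (⟨x.re + x.im, -x.im⟩ : OO (-3) 1) := by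
  simp only [emb, map_add, map_mul, map_intCast, conj_w]
  push_cast
  ring

theorem a2_eq : emb (a2 (-3) 1) = 2 * wC (-3) 1 - 1 := by
  simp only [a2, emb]
  norm_num
  ring

theorem a4_eq : emb (a4 (-3) 1) = -3 := by
  have h : (a4 (-3) 1) = ((-3 : ℤ) : OO (-3) 1) := by
    simp [a4]
  rw [h, emb_intCast (Or.inr ⟨rfl, rfl⟩)]
  norm_num

theorem a6_eq : emb (a6 (-3) 1) = 1 - 2 * wC (-3) 1 := by
  simp only [a6, emb]
  norm_num
  ring

theorem cm (L : PeriodPair) (Om : ℂ) (h : IsCM (-3) 1 L Om) : IsCM (-3) 1 (cj L) (tau Om) where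
  Om_ne := tau_ne h.Om_ne
  mem z := by
    rw [mem_cj', h.mem]
    constructor
    · rintro ⟨x, hx⟩
      refine ⟨⟨x.re + x.im, -x.im⟩, ?_⟩
      rw [← tau_tau z, hx, mul_comm, tau_mul, ← conj_emb, mul_comm]
    · rintro ⟨x, hx⟩
      refine ⟨⟨x.re + x.im, -x.im⟩, ?_⟩
      rw [hx, mul_comm, tau_mul, ← conj_emb, tau_tau, mul_comm]
  g2 := by
    rw [g2_eq, h.g2, a2_eq, a4_eq]
    simp only [map_mul, map_sub, map_neg, map_div₀, map_pow, map_ofNat, conj_w, map_one]
    ring
  g3 := by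
    rw [g3_eq, h.g3, a2_eq, a4_eq, a6_eq]
    simp only [map_mul, map_sub, map_neg, map_div₀, map_pow, map_ofNat, conj_w, map_one, map_add]
    ring

theorem xx_eq (L : PeriodPair) (z : ℂ) :
    xx (-3) 1 (cj L) (tau z) = -conj (xx (-3) 1 L z) := by
  unfold xx
  rw [wp_eq, a2_eq]
  simp only [map_mul, map_sub, map_div₀, map_ofNat, conj_w, map_one]
  ring

theorem yy_eq (L : PeriodPair) (z : ℂ) : yy (cj L) (tau z) = Complex.I * conj (yy L z) := by
  unfold yy
  rw [dwp_eq, map_div₀, map_ofNat]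
  ring

end P_N11C

open _root_.Pool.Agent.MU3A.P_N11C in
/-- multiplication by `1 - w` -/
theorem ta_N11C (h1 : Sa_N11) : Sa_N11C := by
  intro L Om hL
  have h := h1 (cj L) (tau Om) (cm L Om hL)
  have e1 : emb (⟨0, 1⟩ : OO (-3) 1) = wC (-3) 1 := emb_w
  have e2 : emb (⟨1, -1⟩ : OO (-3) 1) = 1 - wC (-3) 1 := by
    simp [emb]
    ring
  have hc : Case (-3) 1 := Or.inr ⟨rfl, rfl⟩
  have e3 : emb (-1 : OO (-3) 1) = -1 := by rw [emb_neg hc, emb_one hc]
  have e4 : emb (1 : OO (-3) 1) = 1 := emb_one hc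
  have e5 : emb (⟨0, 3⟩ : OO (-3) 1) = 3 * wC (-3) 1 := by simp [emb]
  have e6 : emb (⟨-6, 1⟩ : OO (-3) 1) = wC (-3) 1 - 6 := by simp [emb]; ring
  have e7 : emb (⟨0, -1⟩ : OO (-3) 1) = -wC (-3) 1 := by simp [emb]
  have e8 : emb (⟨-1, 1⟩ : OO (-3) 1) = wC (-3) 1 - 1 := by simp [emb]; ring
  have e9 : emb (⟨-3, 3⟩ : OO (-3) 1) = 3 * wC (-3) 1 - 3 := by simp [emb]; ring
  have e10 : emb (⟨-5, -1⟩ : OO (-3) 1) = -5 - wC (-3) 1 := by simp [emb]; ring
  have hw : ∀ z, wC (-3) 1 * tau z = tau ((1 - wC (-3) 1) * z) := by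
    intro z
    rw [tau_mul, map_sub, map_one, conj_w]
    ring
  refine ⟨fun z hz => ?_, fun z hz => ?_, fun z hz => ?_⟩
  · have h2 := h.ker (tau z) (fun h0 => hz ((mem_cj L z).1 h0))
    rw [e1, e3, hw, mem_cj, xx_eq] at h2
    rw [e2, e4, h2]
    constructor
    · intro h3
      have h4 := congrArg conj h3
      simp only [map_add, map_mul, map_neg, Complex.conj_conj, conj_w, map_one, map_zero] at h4
      linear_combination -h4
    · intro h3
      have h4 := congrArg conj h3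
      simp only [map_add, map_mul, map_sub, conj_w, map_one, map_zero] at h4
      linear_combination -h4
  · rw [e2] at hz
    have h2 := h.x (tau z) (by rw [e1, hw, mem_cj]; exact hz)
    rw [e1, e3, e5, e6, e7, hw, xx_eq, xx_eq] at h2
    rw [e2, e4, e9, e10]
    have h4 := congrArg conj h2
    simp only [map_add, map_mul, map_sub, map_neg, map_pow, Complex.conj_conj, conj_w, map_one,
      map_ofNat] at h4
    linear_combination -h4
  · rw [e2] at hz
    have h2 := h.y (tau z) (by rw [e1, hw, mem_cj]; exact hz)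
    rw [e1, e3, e7, e8, e4, hw, xx_eq, yy_eq, yy_eq] at h2
    rw [e1, e2, e4, e8, e3]
    have h4 := congrArg conj h2
    simp only [map_add, map_mul, map_sub, map_neg, map_pow, Complex.conj_conj, conj_w, map_one,
      Complex.conj_I, mul_assoc] at h4
    have h5 := mul_left_cancel₀ (neg_ne_zero.2 Complex.I_ne_zero) h4
    linear_combination -h5

end

end Pool.Agent.MU3A


end
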