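import Mathlib
import Pool.Agent.MVF.C003

/-! Parts: MU3.B_TDI, MU3.B_SUR, MU3.B_POL, MU3.B_POI, MU3.B_LIO, MU3.B_DIC, MU3.B_ADD -/

namespace Pool.Agent.MU3B.ADDaux
end Pool.Agent.MU3B.ADDaux
namespace Pool.Agent.MU3B.DIC
end Pool.Agent.MU3B.DIC
namespace Pool.Agent.MU3B.LIO
end Pool.Agent.MU3B.LIO
namespace Pool.Agent.MU3B.POL21
end Pool.Agent.MU3B.POL21
namespace Pool.Agent.MU3B.PoiAux
end Pool.Agent.MU3B.PoiAux
namespace Pool.Agent.MU3B.TDI39
end Pool.Agent.MU3B.TDI39

section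

/-!
# MU3, block B: (TDI), the distribution relation of `Θ_a` (helper39)
-/

set_option autoImplicit false

namespace Pool.Agent.MU3B

open Complex Real Filter Topology
open scoped ComplexConjugate

namespace TDI39

theorem closed_mul (L : PeriodPair) (c : ℂ) : IsClosed {z : ℂ | c * z ∈ L.lattice} :=
  L.isClosed_lattice.preimage (by fun_prop : Continuous fun z : ℂ => c * z)

theorem countable_mul (L : PeriodPair) {c : ℂ} (hc : c ≠ 0) :
    {z : ℂ | c * z ∈ L.lattice}.Countable := by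
  have h1 : (L.lattice : Set ℂ).Countable := by
    have : Countable L.lattice := L.latticeEquivProd.toEquiv.injective.countable
    exact Set.countable_coe_iff.1 this
  exact h1.preimage_of_injOn (f := fun z => c * z) fun x _ y _ h => mul_left_cancel₀ hc h

/-- `z² ℘(z) → 1`. -/
theorem lim_P (L : PeriodPair) :
    Tendsto (fun z => z ^ 2 * L.weierstrassP z) (𝓝[≠] 0) (𝓝 1) := by
  have h1 : ContinuousAt (L.weierstrassPExcept 0) 0 :=
    (L.analyticAt_weierstrassPExcept 0).continuousAt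
  have h2 : Tendsto (fun z : ℂ => z ^ 2 * L.weierstrassPExcept 0 z + 1) (𝓝[≠] 0) (𝓝 1) := by
    have h3 : ContinuousAt (fun z : ℂ => z ^ 2 * L.weierstrassPExcept 0 z + 1) 0 := by fun_prop
    have h4 := h3.tendsto
    simp only [ne_eq, OfNat.ofNat_ne_zero, not_false_eq_true, zero_pow, zero_mul, zero_add] at h4
    exact h4.mono_left nhdsWithin_le_nhds
  refine h2.congr' ?_
  filter_upwards [self_mem_nhdsWithin] with z (hz : z ≠ 0)
  have h5 := L.ite_eq_one_sub_sq_mul_weierstrassP 0 (zero_mem _) z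
  rw [if_neg hz] at h5
  simp only [sub_zero, ne_eq, OfNat.ofNat_ne_zero, not_false_eq_true, zero_pow, div_zero] at h5
  exact h5.symm

/-- `z^(2 |H|) Θ(z) → 1`. -/
theorem lim_Th (L : PeriodPair) (H : Finset ℂ) :
    Tendsto (fun z => z ^ (2 * H.card) * ThetaH L H z) (𝓝[≠] 0) (𝓝 1) := by
  have h1 : ∀ q ∈ H, Tendsto (fun z => z ^ 2 * (L.weierstrassP z - L.weierstrassP q))
      (𝓝[≠] 0) (𝓝 1) := by
    intro q _
    have h3 : Tendsto (fun z : ℂ => z ^ 2 * L.weierstrassP q) (𝓝[≠] 0) (𝓝 0) := by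
      have h4 : ContinuousAt (fun z : ℂ => z ^ 2 * L.weierstrassP q) 0 := by fun_prop
      have h5 := h4.tendsto
      simp only [ne_eq, OfNat.ofNat_ne_zero, not_false_eq_true, zero_pow, zero_mul] at h5
      exact h5.mono_left nhdsWithin_le_nhds
    have h6 := (lim_P L).sub h3
    simpa only [mul_sub, sub_zero] using h6
  have h4 := tendsto_finsetProd H h1
  simp only [Finset.prod_const_one] at h4
  refine h4.congr fun z => ?_
  unfold ThetaH
  rw [Finset.prod_mul_distrib, Finset.prod_const, ← pow_mul]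

/-- Multiplication by `a` permutes the classes. -/
theorem reps_mul (L : PeriodPair) (a b : ℂ) (R : Finset ℂ)
    (haL : ∀ w ∈ L.lattice, a * w ∈ L.lattice) (hR : IsReps L b R)
    (hab : ∀ z, a * z ∈ L.lattice → b * z ∈ L.lattice → z ∈ L.lattice) :
    IsReps L b (R.image fun r => a * r) := by
  have hnot : ∀ r ∈ R, a * r ∉ L.lattice := fun r hr h =>
    hR.ne r hr (hab r h (hR.mem r hr))
  have hinj : ∀ r ∈ R, ∀ r' ∈ R, a * r - a * r' ∈ L.lattice → r = r' := by
    intro r hr r' hr' h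
    refine hR.inj r hr r' hr' (hab _ ?_ ?_)
    · rw [mul_sub]; exact h
    · rw [mul_sub]; exact sub_mem (hR.mem r hr) (hR.mem r' hr')
  refine ⟨?_, ?_, ?_, ?_⟩
  · intro q hq
    obtain ⟨r, hr, rfl⟩ := Finset.mem_image.1 hq
    rw [mul_left_comm]
    exact haL _ (hR.mem r hr)
  · intro q hq
    obtain ⟨r, hr, rfl⟩ := Finset.mem_image.1 hq
    exact hnot r hr
  · intro q hq q' hq' h
    obtain ⟨r, hr, rfl⟩ := Finset.mem_image.1 hq
    obtain ⟨r', hr', rfl⟩ := Finset.mem_image.1 hq'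
    show a * r = a * r'
    rw [hinj r hr r' hr' h]
  · have hex : ∀ r ∈ R, ∃ q ∈ R, a * r - q ∈ L.lattice := by
      intro r hr
      refine hR.surj (a * r) ?_ (hnot r hr)
      rw [mul_left_comm]
      exact haL _ (hR.mem r hr)
    choose! s hs1 hs2 using hex
    have hsinj : Set.InjOn s R := by
      intro r hr r' hr' h
      refine hinj r hr r' hr' ?_
      have h1 := sub_mem (hs2 r hr) (hs2 r' hr')
      rw [h] at h1
      have h2 : a * r - a * r' = a * r - s r' - (a * r' - s r') := by ring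
      rw [h2]
      exact h1
    have hsurj := Finset.surjOn_of_injOn_of_card_le s (fun r hr => hs1 r hr) hsinj le_rfl
    intro z hz hzn
    obtain ⟨q, hq, hzq⟩ := hR.surj z hz hzn
    obtain ⟨r, hr, rfl⟩ := hsurj hq
    refine ⟨a * r, Finset.mem_image_of_mem _ hr, ?_⟩
    have h2 : z - a * r = z - s r - (a * r - s r) := by ring
    rw [h2]
    exact sub_mem hzq (hs2 r hr)

end TDI39

open _root_.Pool.Agent.MU3B.TDI39 in
theorem t_TDI (hTDL : St_TDL) (hTNZ : St_TNZ) (hDIS : St_DIS) : St_TDI := by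
  intro L a b H R ha hb haL hbL hH hR hab
  have hnot : ∀ r ∈ R, a * r ∉ L.lattice := fun r hr h =>
    hR.ne r hr (hab r h (hR.mem r hr))
  have hne : ∏ r ∈ R, ThetaH L H r ≠ 0 := by
    rw [Finset.prod_ne_zero_iff]
    intro r hr h0
    exact hnot r hr ((hTNZ L a H haL hH r (hR.ne r hr)).1 h0)
  refine ⟨hne, ?_⟩
  set U : Set ℂ := {z : ℂ | a * b * z ∈ L.lattice}ᶜ with hU
  have hUo : IsOpen U := (closed_mul L (a * b)).isOpen_compl
  have hUc : IsPreconnected U :=
    ((countable_mul L (mul_ne_zero ha hb)).isPathConnected_compl_of_one_lt_rank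
      (rank_real_complex ▸ Nat.one_lt_ofNat)).isConnected.isPreconnected
  have hUd : Dense U := (countable_mul L (mul_ne_zero ha hb)).dense_compl ℝ
  -- membership facts
  have u1 : ∀ z ∈ U, a * z ∉ L.lattice := by
    intro z hz h
    refine hz ?_
    have h2 := hbL _ h
    show a * b * z ∈ L.lattice
    rw [mul_comm a b, mul_assoc]
    exact h2
  have u2 : ∀ z ∈ U, ∀ r ∈ R, a * (z + r) ∉ L.lattice := by
    intro z hz r hr h
    refine hz ?_
    have h2 := hbL _ h
    have h3 := haL _ (hR.mem r hr)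
    have h4 : a * b * z = b * (a * (z + r)) - a * (b * r) := by ring
    show a * b * z ∈ L.lattice
    rw [h4]
    exact sub_mem h2 h3
  have u3 : ∀ z ∈ U, a * (b * z) ∉ L.lattice := by
    intro z hz h
    refine hz ?_
    show a * b * z ∈ L.lattice
    rw [mul_assoc]
    exact h
  have u4 : ∀ z ∈ U, b * z ∉ L.lattice := fun z hz h => u3 z hz (haL _ h)
  set lam : ℂ → ℂ := fun z => a * ee L (a * z) - (‖a‖ ^ 2 : ℝ) * ee L z with hlam
  have hder : ∀ z, a * z ∉ L.lattice →
      HasDerivAt (ThetaH L H) (lam z * ThetaH L H z) z := fun z hz =>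
    (hTDL L a H ha haL hH z hz).2
  -- the two functions
  set F1 : ℂ → ℂ := fun z => ThetaH L H z * ∏ r ∈ R, ThetaH L H (z + r) with hF1
  set F2 : ℂ → ℂ := fun z => ThetaH L H (b * z) with hF2
  have d1 : ∀ z ∈ U, HasDerivAt F1 ((lam z + ∑ r ∈ R, lam (z + r)) * F1 z) z := by
    intro z hz
    have e1 := hder z (u1 z hz)
    have e2 : ∀ S : Finset ℂ, S ⊆ R → HasDerivAt (fun x => ∏ r ∈ S, ThetaH L H (x + r))
        ((∑ r ∈ S, lam (z + r)) * ∏ r ∈ S, ThetaH L H (z + r)) z := by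
      intro S
      induction S using Finset.induction_on with
      | empty => intro _; simpa using hasDerivAt_const z (1 : ℂ)
      | insert r S hr ih =>
        intro hS
        have e3 := ih fun x hx => hS (Finset.mem_insert_of_mem hx)
        have e4 : HasDerivAt (fun x => ThetaH L H (x + r)) (lam (z + r) * ThetaH L H (z + r)) z :=
          (hder (z + r) (u2 z hz r (hS (Finset.mem_insert_self r S)))).comp_add_const z r
        have e5 := e4.mul e3
        simp only [Finset.prod_insert hr, Finset.sum_insert hr]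
        refine e5.congr_deriv ?_
        ring
    have e6 := e1.mul (e2 R (Finset.Subset.refl R))
    refine e6.congr_deriv ?_
    simp only [hF1]
    ring
  have d2 : ∀ z ∈ U, HasDerivAt F2 ((b * lam (b * z)) * F2 z) z := by
    intro z hz
    have e1 := hder (b * z) (u3 z hz)
    have e2 : HasDerivAt (fun x : ℂ => b * x) b z := by
      simpa using (hasDerivAt_id z).const_mul b
    have e3 := HasDerivAt.comp z e1 e2
    refine e3.congr_deriv ?_
    simp only [hF2]
    ring
  have hsum : ∀ z, lam z + ∑ r ∈ R, lam (z + r) = b * lam (b * z) := by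
    intro z
    have e1 := hDIS L b R hb hbL hR z
    have e2 := hDIS L b _ hb hbL (reps_mul L a b R haL hR hab) (a * z)
    rw [Finset.sum_image (fun x _ y _ h => mul_left_cancel₀ ha h)] at e2
    have e3 : ∑ r ∈ R, lam (z + r) =
        a * ∑ r ∈ R, ee L (a * z + a * r) - (‖a‖ ^ 2 : ℝ) * ∑ r ∈ R, ee L (z + r) := by
      rw [Finset.mul_sum, Finset.mul_sum, ← Finset.sum_sub_distrib]
      refine Finset.sum_congr rfl fun r _ => ?_
      simp only [hlam, mul_add]
    have e4 : a * (b * z) = b * (a * z) := by ring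
    rw [e3]
    simp only [hlam]
    rw [e4]
    linear_combination a * e2 - ((‖a‖ ^ 2 : ℝ) : ℂ) * e1
  have hF2ne : ∀ z ∈ U, F2 z ≠ 0 := by
    intro z hz h0
    exact u3 z hz ((hTNZ L a H haL hH (b * z) (u4 z hz)).1 h0)
  have dG : ∀ z ∈ U, HasDerivAt (fun x => F1 x / F2 x) 0 z := by
    intro z hz
    refine ((d1 z hz).div (d2 z hz) (hF2ne z hz)).congr_deriv ?_
    rw [hsum z]
    have := hF2ne z hz
    field_simp
    ring
  obtain ⟨C, hC⟩ : ∃ C, ∀ z ∈ U, F1 z / F2 z = C := by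
    refine hUo.exists_is_const_of_deriv_eq_zero hUc ?_ ?_
    · exact fun z hz => (dG z hz).differentiableAt.differentiableWithinAt
    · exact fun z hz => (dG z hz).deriv
  have hC2 : ∀ z ∈ U, F1 z = C * F2 z := by
    intro z hz
    rw [← hC z hz, div_mul_cancel₀ _ (hF2ne z hz)]
  -- the constant
  have h0U : ∀ z ∈ U, z ≠ 0 := by
    rintro z hz rfl
    refine hz ?_
    show a * b * 0 ∈ L.lattice
    rw [mul_zero]
    exact zero_mem _
  have hle : 𝓝[U] (0 : ℂ) ≤ 𝓝[≠] 0 := nhdsWithin_mono 0 fun z hz => h0U z hz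
  have : (𝓝[U] (0 : ℂ)).NeBot := mem_closure_iff_nhdsWithin_neBot.1 (hUd 0)
  have l1 := (lim_Th L H).mono_left hle
  have l2 : Tendsto (fun z => ∏ r ∈ R, ThetaH L H (z + r)) (𝓝[U] 0)
      (𝓝 (∏ r ∈ R, ThetaH L H r)) := by
    refine tendsto_finsetProd R fun r hr => ?_
    have e1 : ContinuousAt (ThetaH L H) (0 + r) := by
      rw [zero_add]
      exact (hder r (hnot r hr)).continuousAt
    have e2 : ContinuousAt (fun z : ℂ => ThetaH L H (z + r)) 0 :=
      ContinuousAt.comp (f := fun z : ℂ => z + r) e1 (by fun_prop)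
    have e3 := e2.tendsto
    simp only [zero_add] at e3
    exact e3.mono_left nhdsWithin_le_nhds
  have l3 : Tendsto (fun z : ℂ => b * z) (𝓝[≠] 0) (𝓝[≠] 0) := by
    refine tendsto_nhdsWithin_iff.2 ⟨?_, ?_⟩
    · have e1 : ContinuousAt (fun z : ℂ => b * z) 0 := by fun_prop
      have e2 := e1.tendsto
      rw [mul_zero] at e2
      exact e2.mono_left nhdsWithin_le_nhds
    · filter_upwards [self_mem_nhdsWithin] with z hz
      exact mul_ne_zero hb hz
  have l4 : Tendsto (fun z : ℂ => (b * z) ^ (2 * H.card) * F2 z) (𝓝[U] 0) (𝓝 1) :=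
    ((lim_Th L H).comp l3).mono_left hle
  have l5 : Tendsto (fun z : ℂ => b ^ (2 * H.card) * (z ^ (2 * H.card) * F1 z)) (𝓝[U] 0)
      (𝓝 (b ^ (2 * H.card) * (1 * ∏ r ∈ R, ThetaH L H r))) := by
    refine ((l1.mul l2).const_mul _).congr fun z => ?_
    simp only [hF1]
    ring
  have l6 : Tendsto (fun z : ℂ => b ^ (2 * H.card) * (z ^ (2 * H.card) * F1 z)) (𝓝[U] 0)
      (𝓝 (C * 1)) := by
    refine (l4.const_mul C).congr' ?_
    filter_upwards [self_mem_nhdsWithin] with z hz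
    rw [hC2 z hz, mul_pow]
    ring
  have l7 : b ^ (2 * H.card) * (1 * ∏ r ∈ R, ThetaH L H r) = C * 1 :=
    tendsto_nhds_unique l5 l6
  intro z hz
  have h8 := hC2 z hz
  rw [mul_one] at l7
  rw [one_mul] at l7
  rw [← l7] at h8
  exact h8

end Pool.Agent.MU3B


end

section

/-!
# MU3, block B: module SUR (helper21)
-/

set_option autoImplicit false

namespace Pool.Agent.MU3B

open Complex Real Filter Topology
open scoped ComplexConjugate

theorem t_SUR (hLIO : St_LIO) : St_SUR := by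
  intro L x
  by_contra hcon
  have hne : ∀ z, z ∉ L.lattice → L.weierstrassP z ≠ x := fun z hz h => hcon ⟨z, hz, h⟩
  have hwp : ∀ z, L.weierstrassP z = L.weierstrassPExcept 0 z + 1 / z ^ 2 := by
    intro z
    have h := L.weierstrassPExcept_add 0 z
    simpa using h.symm
  set f : ℂ → ℂ := fun z => (L.weierstrassP z - x)⁻¹ with hf
  have hE : ContinuousAt (L.weierstrassPExcept 0) 0 :=
    (L.analyticAt_weierstrassPExcept 0).continuousAt
  have hEt : Tendsto (L.weierstrassPExcept 0) (𝓝[≠] 0) (𝓝 (L.weierstrassPExcept 0 0)) :=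
    hE.tendsto.mono_left nhdsWithin_le_nhds
  have tid : Tendsto (fun z : ℂ => z) (𝓝[≠] 0) (𝓝 0) := tendsto_id.mono_left nhdsWithin_le_nhds
  have tf : Tendsto f (𝓝[≠] 0) (𝓝 0) := by
    have t1 : Tendsto (fun z : ℂ => z ^ 2 / (1 + z ^ 2 * (L.weierstrassPExcept 0 z - x))) (𝓝[≠] 0)
        (𝓝 (0 ^ 2 / (1 + 0 ^ 2 * (L.weierstrassPExcept 0 0 - x)))) := by
      apply Tendsto.div (tid.pow 2)
      · exact tendsto_const_nhds.add ((tid.pow 2).mul (hEt.sub_const x))
      · norm_num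
    have e : (0 : ℂ) ^ 2 / (1 + 0 ^ 2 * (L.weierstrassPExcept 0 0 - x)) = 0 := by norm_num
    rw [e] at t1
    apply t1.congr'
    filter_upwards [self_mem_nhdsWithin] with z hz
    have hz0 : z ≠ 0 := hz
    show z ^ 2 / (1 + z ^ 2 * (L.weierstrassPExcept 0 z - x)) = (L.weierstrassP z - x)⁻¹
    have e2 : L.weierstrassP z - x = (1 + z ^ 2 * (L.weierstrassPExcept 0 z - x)) / z ^ 2 := by
      rw [hwp z]
      field_simp
      ring
    rw [e2, inv_div]
  obtain ⟨c, hc⟩ := hLIO L f {0} (by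
    intro z v hv
    show (L.weierstrassP (z + v) - x)⁻¹ = (L.weierstrassP z - x)⁻¹
    rw [L.weierstrassP_add_coe z ⟨v, hv⟩]) (by
    intro z hz
    have hz' : z ∉ L.lattice := by
      have := hz 0 (by simp)
      rwa [sub_zero] at this
    have d : DifferentiableAt ℂ L.weierstrassP z :=
      L.differentiableOn_weierstrassP.differentiableAt
        (L.isClosed_lattice.isOpen_compl.mem_nhds hz')
    exact (d.sub_const x).inv (sub_ne_zero.2 (hne z hz'))) (by
    intro p hp
    rw [Finset.mem_singleton] at hp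
    rw [hp]
    have := (tid.sub_const 0).mul tf
    rw [sub_zero, mul_zero] at this
    exact this)
  have hc' : ∀ z, z ∉ L.lattice → f z = c := by
    intro z hz
    apply hc z
    intro p hp
    rw [Finset.mem_singleton] at hp
    rw [hp, sub_zero]
    exact hz
  have hev : ∀ᶠ z in 𝓝[≠] (0 : ℂ), z ∉ L.lattice := by
    have h1 := L.compl_lattice_sdiff_singleton_mem_nhds 0
    filter_upwards [mem_nhdsWithin_of_mem_nhds h1, self_mem_nhdsWithin] with z hz hz0 hL
    exact hz ⟨hL, hz0⟩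
  have c0 : c = 0 := by
    have t2 : Tendsto f (𝓝[≠] 0) (𝓝 c) := by
      apply tendsto_const_nhds.congr'
      filter_upwards [hev] with z hz
      exact (hc' z hz).symm
    exact tendsto_nhds_unique t2 tf
  have h1 := hc' (L.ω₁ / 2) L.ω₁_div_two_notMem_lattice
  rw [c0] at h1
  have h2 : L.weierstrassP (L.ω₁ / 2) - x = 0 := inv_eq_zero.1 h1
  exact hne _ L.ω₁_div_two_notMem_lattice (sub_eq_zero.1 h2)

end Pool.Agent.MU3B


end

section

/-!
# MU3, block B: module POL (helper21)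
-/

set_option autoImplicit false

namespace Pool.Agent.MU3B

open Complex Real Filter Topology
open scoped ComplexConjugate

namespace POL21

/-- a sum over the lattice, the zero term is separated -/
theorem split (L : PeriodPair) (f : L.lattice → ℂ) (v : L.lattice → ℝ) (hv : Summable v)
    (hf : ∀ w : L.lattice, w ≠ 0 → ‖f w‖ ≤ v w) (hv0 : ∀ w, 0 ≤ v w) :
    ‖(∑' w, f w) - f 0‖ ≤ ∑' w, v w := by
  classical
  set g : L.lattice → ℂ := fun w => if w = 0 then 0 else f w with hg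
  have hgv : ∀ w, ‖g w‖ ≤ v w := by
    intro w
    by_cases h : w = 0
    · rw [hg]
      simp only [h, if_true, norm_zero]
      exact hv0 0
    · rw [hg]
      simp only [h, if_false]
      exact hf w h
  have hgs : Summable g := Summable.of_norm_bounded hv hgv
  have h0 : HasSum (fun w : L.lattice => if w = 0 then f 0 else 0) (f 0) := hasSum_ite_eq 0 (f 0)
  have h1 := hgs.hasSum.add h0
  have e : (fun w => g w + (if w = 0 then f 0 else 0)) = f := by
    funext w
    by_cases h : w = 0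
    · rw [hg]; simp [h]
    · rw [hg]; simp [h]
  rw [e] at h1
  rw [h1.tsum_eq, add_sub_cancel_right]
  exact tsum_of_norm_bounded hv.hasSum hgv

theorem key (hSUM : St_SUM) (hLAT : St_LAT) (L : PeriodPair) :
    ∃ (δ M : ℝ), 0 < δ ∧ (∀ z ∈ Metric.ball (0 : ℂ) δ, z ≠ 0 → z ∉ L.lattice) ∧
      ∀ z ∈ Metric.ball (0 : ℂ) δ, z ≠ 0 → ‖zet L z - 1 / z‖ ≤ M := by
  obtain ⟨hA, hpr, _, _, _, _, _, _, δ₀, hδ₀, hmin⟩ := hLAT L
  set c : ℝ := π / area L with hc
  have hc0 : 0 < c := div_pos Real.pi_pos hA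
  set δ : ℝ := δ₀ / 2 with hδ
  have hδ0 : 0 < δ := by rw [hδ]; linarith
  obtain ⟨u, hus, hu⟩ := hSUM L c hc0 0 δ
  have hex : ∀ x : ℝ, Real.exp (-(π * x ^ 2 / area L)) = Real.exp (-(c * x ^ 2)) := by
    intro x
    rw [hc, div_mul_eq_mul_div]
  have hvs : Summable (fun w => u w / δ) := hus.div_const δ
  refine ⟨δ, 2 * (c * δ) + 2 * ∑' w, u w / δ, hδ0, ?_, ?_⟩
  · intro z hz hz0 hL
    have h1 := hmin z hL hz0
    rw [mem_ball_zero_iff] at hz
    linarith
  · intro z hz hz0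
    rw [mem_ball_zero_iff] at hz
    have hzn : 0 < ‖z‖ := norm_pos_iff.2 hz0
    have hu1 : ∀ w : L.lattice, Real.exp (-(c * ‖z + w‖ ^ 2)) ≤ u w := by
      intro w
      have := (hu w z hz.le).1
      rwa [pow_zero, one_mul] at this
    have hu2 : ∀ w : L.lattice, Real.exp (-(c * ‖(w : ℂ)‖ ^ 2)) ≤ u w := by
      intro w
      have := (hu w z hz.le).2
      rwa [pow_zero, one_mul] at this
    have hu0 : ∀ w : L.lattice, 0 ≤ u w / δ := by
      intro w
      exact div_nonneg ((Real.exp_pos _).le.trans (hu1 w)) hδ0.le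
    have hw : ∀ w : L.lattice, w ≠ 0 → δ₀ ≤ ‖(w : ℂ)‖ := by
      intro w hw0
      exact hmin w w.2 (fun h => hw0 (Subtype.ext h))
    -- first sum
    have s1 := split L (fun w => (Real.exp (-(π * ‖z + w‖ ^ 2 / area L)) : ℝ) / (z + w))
      (fun w => u w / δ) hvs (by
        intro w hw0
        show ‖((Real.exp (-(π * ‖z + w‖ ^ 2 / area L)) : ℝ) : ℂ) / (z + w)‖ ≤ u w / δ
        rw [norm_div, Complex.norm_real, Real.norm_eq_abs, abs_of_pos (Real.exp_pos _), hex]
        have h1 : δ ≤ ‖z + w‖ := by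
          have h2 := hw w hw0
          have h3 : ‖(w : ℂ)‖ ≤ ‖z + w‖ + ‖z‖ := by
            have := norm_sub_le (z + w) z
            rwa [add_sub_cancel_left] at this
          linarith
        exact div_le_div₀ ((Real.exp_pos _).le.trans (hu1 w)) (hu1 w) hδ0 h1) hu0
    -- second sum
    have s2 : ‖∑' w : L.lattice, pr L w z * (Real.exp (-(π * ‖(w : ℂ)‖ ^ 2 / area L)) : ℝ) / w‖ ≤
        ∑' w, u w / δ := by
      apply tsum_of_norm_bounded hvs.hasSum
      intro w
      by_cases hw0 : w = 0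
      · rw [hw0]
        simp only [ZeroMemClass.coe_zero, div_zero, norm_zero]
        exact hu0 0
      · rw [norm_div, norm_mul, hpr, one_mul, Complex.norm_real, Real.norm_eq_abs,
          abs_of_pos (Real.exp_pos _), hex]
        have h1 : δ ≤ ‖(w : ℂ)‖ := by
          have := hw w hw0
          linarith
        exact div_le_div₀ ((Real.exp_pos _).le.trans (hu2 w)) (hu2 w) hδ0 h1
    have s3 : ‖((π / area L : ℝ) : ℂ) * conj z‖ ≤ c * δ := by
      rw [norm_mul, Complex.norm_real, Real.norm_eq_abs, ← hc, abs_of_pos hc0]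
      have : ‖conj z‖ = ‖z‖ := Complex.norm_conj z
      rw [this]
      exact mul_le_mul_of_nonneg_left hz.le hc0.le
    have s4 : ‖((Real.exp (-(π * ‖z + ((0 : L.lattice) : ℂ)‖ ^ 2 / area L)) : ℝ) : ℂ) /
        (z + ((0 : L.lattice) : ℂ)) - 1 / z‖ ≤ c * δ := by
      rw [hex, ZeroMemClass.coe_zero, add_zero, ← sub_div, norm_div]
      have h1 : ‖((Real.exp (-(c * ‖z‖ ^ 2)) : ℝ) : ℂ) - 1‖ ≤ c * ‖z‖ ^ 2 := by
        have e : ((Real.exp (-(c * ‖z‖ ^ 2)) : ℝ) : ℂ) - 1 =
            (((Real.exp (-(c * ‖z‖ ^ 2)) - 1 : ℝ)) : ℂ) := by push_cast; ring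
        rw [e, Complex.norm_real, Real.norm_eq_abs, abs_sub_comm]
        have h2 : Real.exp (-(c * ‖z‖ ^ 2)) ≤ 1 := by
          apply Real.exp_le_one_iff.2
          have : 0 ≤ c * ‖z‖ ^ 2 := by positivity
          linarith
        rw [abs_of_nonneg (by linarith)]
        have h3 := Real.add_one_le_exp (-(c * ‖z‖ ^ 2))
        linarith
      rw [div_le_iff₀ hzn]
      have h4 : c * ‖z‖ ^ 2 ≤ c * δ * ‖z‖ := by
        have : c * ‖z‖ ^ 2 = c * ‖z‖ * ‖z‖ := by ring
        rw [this]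
        apply mul_le_mul_of_nonneg_right _ hzn.le
        exact mul_le_mul_of_nonneg_left hz.le hc0.le
      exact h1.trans h4
    have e : zet L z - 1 / z =
        ((∑' w : L.lattice, ((Real.exp (-(π * ‖z + w‖ ^ 2 / area L)) : ℝ) : ℂ) / (z + w)) -
          ((Real.exp (-(π * ‖z + ((0 : L.lattice) : ℂ)‖ ^ 2 / area L)) : ℝ) : ℂ) /
            (z + ((0 : L.lattice) : ℂ))) +
        (((Real.exp (-(π * ‖z + ((0 : L.lattice) : ℂ)‖ ^ 2 / area L)) : ℝ) : ℂ) /
          (z + ((0 : L.lattice) : ℂ)) - 1 / z) -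
        (∑' w : L.lattice, pr L w z * (Real.exp (-(π * ‖(w : ℂ)‖ ^ 2 / area L)) : ℝ) / w) +
        ((π / area L : ℝ) : ℂ) * conj z := by
      unfold zet ee
      ring
    rw [e]
    refine (norm_add_le _ _).trans ?_
    have n1 := norm_sub_le
      (((∑' w : L.lattice, ((Real.exp (-(π * ‖z + w‖ ^ 2 / area L)) : ℝ) : ℂ) / (z + w)) -
          ((Real.exp (-(π * ‖z + ((0 : L.lattice) : ℂ)‖ ^ 2 / area L)) : ℝ) : ℂ) /
            (z + ((0 : L.lattice) : ℂ))) +
        (((Real.exp (-(π * ‖z + ((0 : L.lattice) : ℂ)‖ ^ 2 / area L)) : ℝ) : ℂ) /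
          (z + ((0 : L.lattice) : ℂ)) - 1 / z))
      (∑' w : L.lattice, pr L w z * (Real.exp (-(π * ‖(w : ℂ)‖ ^ 2 / area L)) : ℝ) / w)
    have n2 := norm_add_le
      ((∑' w : L.lattice, ((Real.exp (-(π * ‖z + w‖ ^ 2 / area L)) : ℝ) : ℂ) / (z + w)) -
          ((Real.exp (-(π * ‖z + ((0 : L.lattice) : ℂ)‖ ^ 2 / area L)) : ℝ) : ℂ) /
            (z + ((0 : L.lattice) : ℂ)))
      (((Real.exp (-(π * ‖z + ((0 : L.lattice) : ℂ)‖ ^ 2 / area L)) : ℝ) : ℂ) /
          (z + ((0 : L.lattice) : ℂ)) - 1 / z)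
    linarith

end POL21

open _root_.Pool.Agent.MU3B.POL21 in
theorem t_POL (hSUM : St_SUM) (hLAT : St_LAT) (hHOL : St_HOL) (hPER : St_PER) : St_POL := by
  intro L
  obtain ⟨δ, M, hδ, hnot, hM⟩ := key hSUM hLAT L
  set f : ℂ → ℂ := fun z => zet L z - 1 / z with hf
  set h : ℂ → ℂ := Function.update f 0 (limUnder (𝓝[≠] 0) f) with hh
  have hhf : ∀ z, z ≠ 0 → h z = f z := fun z hz => Function.update_of_ne hz _ _
  have hd : DifferentiableOn ℂ f (Metric.ball 0 δ \ {0}) := by
    intro z hz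
    have hz0 : z ≠ 0 := hz.2
    have h1 := hHOL L z (hnot z hz.1 hz0)
    have h2 : DifferentiableAt ℂ (fun z : ℂ => 1 / z) z :=
      (differentiableAt_const (1 : ℂ)).div differentiableAt_id hz0
    exact (h1.sub h2).differentiableWithinAt
  have hb : BddAbove (norm ∘ f '' (Metric.ball 0 δ \ {0})) := by
    refine ⟨M, ?_⟩
    rintro _ ⟨z, hz, rfl⟩
    exact hM z hz.1 hz.2
  have hD : DifferentiableOn ℂ h (Metric.ball 0 δ) :=
    Complex.differentiableOn_update_limUnder_of_bddAbove (Metric.ball_mem_nhds 0 hδ) hd hb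
  have hodd : ∀ z, z ≠ 0 → h (-z) = -h z := by
    intro z hz
    have hz' : -z ≠ 0 := neg_ne_zero.2 hz
    rw [hhf z hz, hhf (-z) hz']
    show zet L (-z) - 1 / (-z) = -(zet L z - 1 / z)
    unfold zet
    rw [(hPER L).2 z, map_neg]
    field_simp
    ring
  have hcont : ContinuousAt h 0 :=
    (hD.differentiableAt (Metric.ball_mem_nhds 0 hδ)).continuousAt
  have h0 : h 0 = 0 := by
    have c1 : Tendsto (fun z => h (-z)) (𝓝 0) (𝓝 (h 0)) := by
      have : Tendsto (fun z : ℂ => -z) (𝓝 0) (𝓝 0) := by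
        have := (continuous_neg (G := ℂ)).tendsto 0
        rwa [neg_zero] at this
      exact hcont.tendsto.comp this
    have c2 : Tendsto (fun z => h (-z) + h z) (𝓝[≠] 0) (𝓝 (h 0 + h 0)) :=
      (c1.add hcont.tendsto).mono_left nhdsWithin_le_nhds
    have c3 : Tendsto (fun z => h (-z) + h z) (𝓝[≠] 0) (𝓝 0) := by
      apply tendsto_const_nhds.congr'
      filter_upwards [self_mem_nhdsWithin] with z hz
      rw [hodd z hz]
      ring
    have := tendsto_nhds_unique c2 c3
    have h2 : (2 : ℂ) * h 0 = 0 := by linear_combination this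
    simpa using h2
  refine ⟨h, δ, hδ, hD, ?_, ?_⟩
  · intro z _
    by_cases hz : z = 0
    · rw [hz, neg_zero, h0, neg_zero]
    · exact hodd z hz
  · intro z hz hz0
    refine ⟨hnot z hz hz0, ?_⟩
    rw [hhf z hz0]
    show zet L z = 1 / z + (zet L z - 1 / z)
    ring

end Pool.Agent.MU3B


end

section

/-!
# MU3, block B: Poisson summation on the torus (POI)
-/

set_option autoImplicit false

namespace Pool.Agent.MU3B

open Complex Real Filter Topology
open scoped ComplexConjugate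

noncomputable section

namespace PoiAux

/-- one dimensional Gaussian sums -/
theorem gsum {c : ℝ} (hc : 0 < c) (x : ℝ) :
    Summable (fun k : ℤ => Real.exp (-(c * ((k : ℝ) + x) ^ 2))) := by
  have hpi := Real.pi_pos
  have h := summable_pow_mul_jacobiTheta₂_term_bound (c * |x| / π) (T := c / π)
    (div_pos hc hpi) 0
  refine Summable.of_nonneg_of_le (fun _ => (Real.exp_pos _).le) (fun k => ?_) h
  rw [pow_zero, one_mul]
  apply Real.exp_le_exp.2
  have h1 : -π * (c / π * (k : ℝ) ^ 2 - 2 * (c * |x| / π) * ((|k| : ℤ) : ℝ)) =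
      -(c * (k : ℝ) ^ 2) + 2 * c * (|x| * |(k : ℝ)|) := by
    push_cast
    field_simp
    ring
  rw [h1]
  have h2 : -((k : ℝ) * x) ≤ |x| * |(k : ℝ)| := by
    have h3 := neg_abs_le ((k : ℝ) * x)
    rw [abs_mul] at h3
    linarith [mul_comm |(k : ℝ)| |x|]
  nlinarith [sq_nonneg x, mul_le_mul_of_nonneg_left h2 hc.le, mul_nonneg hc.le (sq_nonneg x)]

/-- two dimensional Gaussian sums -/
theorem gsum2 {c d : ℝ} (hc : 0 < c) (hd : 0 < d) (x y : ℝ) :
    Summable (fun p : ℤ × ℤ => Real.exp (-(c * ((p.1 : ℝ) + x) ^ 2)) *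
      Real.exp (-(d * ((p.2 : ℝ) + y) ^ 2))) :=
  (gsum hc x).mul_of_nonneg (gsum hd y) (fun _ => (Real.exp_pos _).le)
    (fun _ => (Real.exp_pos _).le)

/-- exponential of a complex number given by real and imaginary part -/
def E (a b : ℝ) : ℂ := Complex.exp ((a : ℂ) + (b : ℂ) * I)

theorem norm_E (a b : ℝ) : ‖E a b‖ = Real.exp a := by
  unfold E
  rw [Complex.norm_exp]
  simp

theorem E_zero (a : ℝ) : E a 0 = ((Real.exp a : ℝ) : ℂ) := by
  unfold E
  simp

/-- coercivity of the quadratic form -/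
theorem coer {α : ℝ} (hα : 0 < α) (r u v : ℝ) :
    u ^ 2 + v ^ 2 ≤ (2 / α + (2 * r ^ 2 + 1) * α) * (α * (u + v * r) ^ 2 + v ^ 2 / α) := by
  have h1 : (2 / α + (2 * r ^ 2 + 1) * α) * (α * (u + v * r) ^ 2 + v ^ 2 / α) =
      2 * (u + v * r) ^ 2 + (2 * r ^ 2 + 1) * v ^ 2 +
        ((2 * r ^ 2 + 1) * α ^ 2 * (u + v * r) ^ 2 + 2 * v ^ 2 / α ^ 2) := by
    field_simp
    ring
  have h2 : 0 ≤ (2 * r ^ 2 + 1) * α ^ 2 * (u + v * r) ^ 2 + 2 * v ^ 2 / α ^ 2 := by positivity
  have h3 : u ^ 2 ≤ 2 * (u + v * r) ^ 2 + 2 * r ^ 2 * v ^ 2 := by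
    nlinarith [sq_nonneg (u + 2 * v * r)]
  rw [h1]
  nlinarith

/-- the quadratic form is summable -/
theorem qsum {α t : ℝ} (hα : 0 < α) (ht : 0 < t) (r x y : ℝ) :
    Summable (fun p : ℤ × ℤ => Real.exp (-(π * t *
      (α * (((p.2 : ℝ) + y) + ((p.1 : ℝ) + x) * r) ^ 2 + ((p.1 : ℝ) + x) ^ 2 / α)))) := by
  have hK : 0 < 2 / α + (2 * r ^ 2 + 1) * α := by positivity
  set K := 2 / α + (2 * r ^ 2 + 1) * α with hKdef
  have hc : 0 < π * t / K := div_pos (mul_pos Real.pi_pos ht) hK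
  refine Summable.of_nonneg_of_le (fun _ => (Real.exp_pos _).le) (fun p => ?_)
    (gsum2 hc hc x y)
  rw [← Real.exp_add]
  apply Real.exp_le_exp.2
  have h1 := coer hα r ((p.2 : ℝ) + y) ((p.1 : ℝ) + x)
  rw [← hKdef] at h1
  have h2 : π * t / K * (((p.2 : ℝ) + y) ^ 2 + ((p.1 : ℝ) + x) ^ 2) ≤ π * t / K *
      (K * (α * (((p.2 : ℝ) + y) + ((p.1 : ℝ) + x) * r) ^ 2 + ((p.1 : ℝ) + x) ^ 2 / α)) :=
    mul_le_mul_of_nonneg_left h1 hc.le
  have h3 : π * t / K * (K * (α * (((p.2 : ℝ) + y) + ((p.1 : ℝ) + x) * r) ^ 2 +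
      ((p.1 : ℝ) + x) ^ 2 / α)) = π * t * (α * (((p.2 : ℝ) + y) + ((p.1 : ℝ) + x) * r) ^ 2 +
      ((p.1 : ℝ) + x) ^ 2 / α) := by
    rw [← mul_assoc, div_mul_cancel₀ _ hK.ne']
  linarith

/-- first Poisson summation -/
theorem step1 {α t : ℝ} (hα : 0 < α) (ht : 0 < t) (r x y : ℝ) (n : ℤ) :
    ∑' m : ℤ, E (-(π * t * (α * ((m : ℝ) + n * r) ^ 2 + (n : ℝ) ^ 2 / α)))
      (2 * π * (m * y - n * x)) =
    1 / ((t * α : ℝ) : ℂ) ^ (1 / 2 : ℂ) * ∑' k : ℤ,
      E (-(π * t / α * (n : ℝ) ^ 2 + π / (t * α) * ((k : ℝ) - y) ^ 2))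
        (2 * π * (n * r * (k - y) - n * x)) := by
  have hαc : (α : ℂ) ≠ 0 := by exact_mod_cast hα.ne'
  have htc : (t : ℂ) ≠ 0 := by exact_mod_cast ht.ne'
  have ha : 0 < (((t * α : ℝ) : ℂ)).re := by
    rw [Complex.ofReal_re]
    exact mul_pos ht hα
  have hp := Complex.tsum_exp_neg_quadratic ha (I * y - (t * α : ℝ) * n * r)
  have hl : ∀ m : ℤ, E (-(π * t * (α * ((m : ℝ) + n * r) ^ 2 + (n : ℝ) ^ 2 / α)))
      (2 * π * (m * y - n * x)) = Complex.exp (-π * (t * α) * n ^ 2 * r ^ 2 - π * t * n ^ 2 / α -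
        2 * π * I * n * x) * Complex.exp (-π * ((t * α : ℝ) : ℂ) * (m : ℂ) ^ 2 +
        2 * π * (I * y - (t * α : ℝ) * n * r) * m) := by
    intro m
    unfold E
    rw [← Complex.exp_add]
    congr 1
    push_cast
    ring
  have hr : ∀ k : ℤ, E (-(π * t / α * (n : ℝ) ^ 2 + π / (t * α) * ((k : ℝ) - y) ^ 2))
        (2 * π * (n * r * (k - y) - n * x)) =
      Complex.exp (-π * (t * α) * n ^ 2 * r ^ 2 - π * t * n ^ 2 / α -
        2 * π * I * n * x) * Complex.exp (-π / ((t * α : ℝ) : ℂ) *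
        ((k : ℂ) + I * (I * y - (t * α : ℝ) * n * r)) ^ 2) := by
    intro k
    unfold E
    rw [← Complex.exp_add]
    congr 1
    push_cast
    have h1 : I * (I * (y : ℂ) - t * α * n * r) = -y - I * (t * α * n * r) := by
      linear_combination (y : ℂ) * Complex.I_sq
    rw [h1]
    field_simp
    linear_combination ((r : ℂ) ^ 2 * n ^ 2 * t ^ 2 * α ^ 2) * Complex.I_sq
  simp only [hl, hr]
  rw [tsum_mul_left, tsum_mul_left, hp]
  ring

/-- second Poisson summation -/
theorem step2 {α t : ℝ} (hα : 0 < α) (ht : 0 < t) (r x y : ℝ) (k : ℤ) :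
    ∑' n : ℤ, E (-(π * t / α * (n : ℝ) ^ 2 + π / (t * α) * ((k : ℝ) - y) ^ 2))
        (2 * π * (n * r * (k - y) - n * x)) =
    1 / ((t / α : ℝ) : ℂ) ^ (1 / 2 : ℂ) * ∑' l : ℤ,
      E (-(π / t * (α * ((l : ℝ) + x - r * (k - y)) ^ 2 + ((k : ℝ) - y) ^ 2 / α))) 0 := by
  have hαc : (α : ℂ) ≠ 0 := by exact_mod_cast hα.ne'
  have htc : (t : ℂ) ≠ 0 := by exact_mod_cast ht.ne'
  have ha : 0 < (((t / α : ℝ) : ℂ)).re := by
    rw [Complex.ofReal_re]
    exact div_pos ht hα
  have hp := Complex.tsum_exp_neg_quadratic ha (I * (r * (k - y) - x))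
  have hl : ∀ n : ℤ, E (-(π * t / α * (n : ℝ) ^ 2 + π / (t * α) * ((k : ℝ) - y) ^ 2))
        (2 * π * (n * r * (k - y) - n * x)) =
      Complex.exp (-π / (t * α) * ((k : ℂ) - y) ^ 2) *
        Complex.exp (-π * ((t / α : ℝ) : ℂ) * (n : ℂ) ^ 2 +
          2 * π * (I * (r * (k - y) - x)) * n) := by
    intro n
    unfold E
    rw [← Complex.exp_add]
    congr 1
    push_cast
    ring
  have hr : ∀ l : ℤ, E (-(π / t * (α * ((l : ℝ) + x - r * (k - y)) ^ 2 +
      ((k : ℝ) - y) ^ 2 / α))) 0 = Complex.exp (-π / (t * α) * ((k : ℂ) - y) ^ 2) *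
        Complex.exp (-π / ((t / α : ℝ) : ℂ) * ((l : ℂ) + I * (I * (r * (k - y) - x))) ^ 2) := by
    intro l
    unfold E
    rw [← Complex.exp_add]
    congr 1
    push_cast
    have h1 : I * (I * ((r : ℂ) * (k - y) - x)) = -(r * (k - y) - x) := by
      linear_combination ((r : ℂ) * (k - y) - x) * Complex.I_sq
    rw [h1]
    field_simp
    ring
  simp only [hl, hr]
  rw [tsum_mul_left, tsum_mul_left, hp]
  ring

theorem cpow_half {a : ℝ} (ha : 0 < a) : ((a : ℝ) : ℂ) ^ (1 / 2 : ℂ) = ((√a : ℝ) : ℂ) := by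
  rw [Real.sqrt_eq_rpow, Complex.ofReal_cpow ha.le]
  push_cast
  rfl

/-- Poisson summation for the two dimensional Gaussian -/
theorem poi2 {α t : ℝ} (hα : 0 < α) (ht : 0 < t) (r x y : ℝ) :
    ∑' p : ℤ × ℤ, E (-(π * t * (α * ((p.2 : ℝ) + p.1 * r) ^ 2 + (p.1 : ℝ) ^ 2 / α)))
      (2 * π * (p.2 * y - p.1 * x)) =
    (1 / t : ℂ) * ∑' p : ℤ × ℤ, E (-(π / t * (α * ((p.2 : ℝ) + x - r * (p.1 - y)) ^ 2 +
      ((p.1 : ℝ) - y) ^ 2 / α))) 0 := by
  have hs1 : Summable (fun p : ℤ × ℤ => E (-(π * t * (α * ((p.2 : ℝ) + p.1 * r) ^ 2 +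
      (p.1 : ℝ) ^ 2 / α))) (2 * π * (p.2 * y - p.1 * x))) := by
    refine Summable.of_norm_bounded (qsum hα ht r 0 0) (fun p => ?_)
    rw [norm_E]
    simp only [add_zero]
    exact le_rfl
  have hs2 : Summable (fun p : ℤ × ℤ =>
      E (-(π * t / α * (p.1 : ℝ) ^ 2 + π / (t * α) * ((p.2 : ℝ) - y) ^ 2))
        (2 * π * (p.1 * r * (p.2 - y) - p.1 * x))) := by
    have hpi := Real.pi_pos
    refine Summable.of_norm_bounded (gsum2 (c := π * t / α) (d := π / (t * α)) (by positivity)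
      (by positivity) 0 (-y)) (fun p => ?_)
    rw [norm_E, ← Real.exp_add]
    apply Real.exp_le_exp.2
    simp only [add_zero]
    apply le_of_eq
    ring
  have hs3 : Summable (fun p : ℤ × ℤ => E (-(π / t * (α * ((p.2 : ℝ) + x - r * (p.1 - y)) ^ 2 +
      ((p.1 : ℝ) - y) ^ 2 / α))) 0) := by
    refine Summable.of_norm_bounded (qsum hα (t := 1 / t) (by positivity) (-r) (-y) x)
      (fun p => ?_)
    rw [norm_E]
    apply Real.exp_le_exp.2
    apply le_of_eq
    ring
  rw [hs1.tsum_prod]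
  simp only [step1 hα ht r x y]
  rw [tsum_mul_left]
  have hcomm := Summable.tsum_comm (f := fun n k : ℤ =>
    E (-(π * t / α * (n : ℝ) ^ 2 + π / (t * α) * ((k : ℝ) - y) ^ 2))
        (2 * π * (n * r * (k - y) - n * x))) hs2
  rw [← hcomm]
  simp only [step2 hα ht r x y]
  rw [tsum_mul_left, ← hs3.tsum_prod, ← mul_assoc]
  congr 1
  rw [cpow_half (mul_pos ht hα), cpow_half (div_pos ht hα)]
  have h1 : √(t * α) * √(t / α) = t := by
    rw [← Real.sqrt_mul (mul_pos ht hα).le]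
    have : t * α * (t / α) = t ^ 2 := by
      field_simp
    rw [this, Real.sqrt_sq ht.le]
  have h2 : ((√(t * α) : ℝ) : ℂ) * ((√(t / α) : ℝ) : ℂ) = (t : ℂ) := by
    rw [← Complex.ofReal_mul, h1]
  rw [one_div, one_div, one_div, ← mul_inv, h2]

/-- norm in the coordinates of the lattice -/
theorem norm_form {a b c d A : ℝ} (hN : 0 < a ^ 2 + b ^ 2) (hA : 0 < A)
    (hD : A ^ 2 = (a * d - b * c) ^ 2) (u v : ℝ) :
    (u * a + v * c) ^ 2 + (u * b + v * d) ^ 2 =
      A * ((a ^ 2 + b ^ 2) / A * (u + v * ((a * c + b * d) / (a ^ 2 + b ^ 2))) ^ 2 +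
        v ^ 2 / ((a ^ 2 + b ^ 2) / A)) := by
  have h1 : A * ((a ^ 2 + b ^ 2) / A * (u + v * ((a * c + b * d) / (a ^ 2 + b ^ 2))) ^ 2 +
        v ^ 2 / ((a ^ 2 + b ^ 2) / A)) =
      ((u * (a ^ 2 + b ^ 2) + v * (a * c + b * d)) ^ 2 + v ^ 2 * A ^ 2) / (a ^ 2 + b ^ 2) := by
    field_simp
  rw [h1, hD, eq_div_iff hN.ne']
  ring

end PoiAux

open _root_.Pool.Agent.MU3B.PoiAux

theorem t_POI (hLAT : St_LAT) : St_POI := by
  intro L t ht z
  obtain ⟨hA, -⟩ := hLAT L
  -- real coordinates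
  obtain ⟨x, y, hz⟩ : ∃ x y : ℝ, z = x * L.ω₁ + y * L.ω₂ := by
    refine ⟨L.basis.repr z 0, L.basis.repr z 1, ?_⟩
    have h := L.basis.sum_repr z
    rw [Fin.sum_univ_two] at h
    simp only [PeriodPair.basis_zero, PeriodPair.basis_one, Complex.real_smul] at h
    exact h.symm
  set a := L.ω₁.re with hadef
  set b := L.ω₁.im with hbdef
  set c := L.ω₂.re with hcdef
  set d := L.ω₂.im with hddef
  have hDim : (conj L.ω₁ * L.ω₂).im = a * d - b * c := by
    rw [Complex.mul_im]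
    simp only [Complex.conj_re, Complex.conj_im]
    ring
  have hAabs : area L = |a * d - b * c| := by
    unfold area
    rw [hDim]
  set A := area L with hAdef
  have hA2 : A ^ 2 = (a * d - b * c) ^ 2 := by
    rw [hAabs, sq_abs]
  have hN : 0 < a ^ 2 + b ^ 2 := by
    rcases eq_or_lt_of_le (by positivity : 0 ≤ a ^ 2 + b ^ 2) with h | h
    · exfalso
      have ha0 : a = 0 := by nlinarith [sq_nonneg a, sq_nonneg b]
      have hb0 : b = 0 := by nlinarith [sq_nonneg a, sq_nonneg b]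
      rw [ha0, hb0] at hAabs
      simp only [zero_mul, sub_self, abs_zero] at hAabs
      linarith
    · exact h
  set α : ℝ := (a ^ 2 + b ^ 2) / A with hα
  set r : ℝ := (a * c + b * d) / (a ^ 2 + b ^ 2) with hr
  have hα0 : 0 < α := div_pos hN hA
  have hnorm : ∀ u v : ℝ, ‖(u : ℂ) * L.ω₁ + v * L.ω₂‖ ^ 2 =
      A * (α * (u + v * r) ^ 2 + v ^ 2 / α) := by
    intro u v
    rw [← norm_form hN hA hA2 u v, Complex.sq_norm, Complex.normSq_apply]
    simp only [Complex.add_re, Complex.add_im, Complex.mul_re, Complex.mul_im, Complex.ofReal_re,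
      Complex.ofReal_im]
    ring
  -- the pairing
  have hpair : ∀ u v : ℝ, conj ((u : ℂ) * L.ω₁ + v * L.ω₂) * z -
      ((u : ℂ) * L.ω₁ + v * L.ω₂) * conj z =
      ((2 * (a * d - b * c) * (u * y - v * x) : ℝ) : ℂ) * I := by
    intro u v
    rw [hz]
    apply Complex.ext
    · simp only [Complex.sub_re, Complex.add_re, Complex.add_im, Complex.mul_re, Complex.mul_im,
        Complex.ofReal_re, Complex.ofReal_im, Complex.conj_re, Complex.conj_im, Complex.I_re,
        Complex.I_im]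
      ring
    · simp only [Complex.sub_im, Complex.add_re, Complex.add_im, Complex.mul_re, Complex.mul_im,
        Complex.ofReal_re, Complex.ofReal_im, Complex.conj_re, Complex.conj_im, Complex.I_re,
        Complex.I_im]
      ring
  -- the theta series
  have hTh : Th L t z = ∑' p : ℤ × ℤ,
      E (-(π * t * (α * ((p.2 : ℝ) + p.1 * r) ^ 2 + (p.1 : ℝ) ^ 2 / α)))
        (2 * π * (p.2 * y - p.1 * x)) := by
    unfold Th
    rcases lt_or_ge 0 (a * d - b * c) with hD | hD
    · have hAD : A = a * d - b * c := by rw [hAabs, abs_of_pos hD]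
      rw [← ((Equiv.prodComm ℤ ℤ).trans L.latticeEquivProd.symm.toEquiv).tsum_eq]
      apply tsum_congr
      rintro ⟨n, m⟩
      have hw : ((((Equiv.prodComm ℤ ℤ).trans L.latticeEquivProd.symm.toEquiv) (n, m) :
          L.lattice) : ℂ) = ((m : ℝ) : ℂ) * L.ω₁ + ((n : ℝ) : ℂ) * L.ω₂ := by
        refine (L.latticeEquiv_symm_apply (m, n)).trans ?_
        push_cast
        rfl
      unfold pr
      rw [hw, hpair, hnorm, Complex.ofReal_exp, ← Complex.exp_add, ← hAdef]
      unfold E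
      congr 1
      have hA0 : (A : ℂ) ≠ 0 := by exact_mod_cast hA.ne'
      rw [← hAD]
      push_cast
      field_simp
      ring
    · have hAD : a * d - b * c = -A := by rw [hAabs, abs_of_nonpos hD]; ring
      rw [← (((Equiv.neg (ℤ × ℤ)).trans (Equiv.prodComm ℤ ℤ)).trans
        L.latticeEquivProd.symm.toEquiv).tsum_eq]
      apply tsum_congr
      rintro ⟨n, m⟩
      have hw : (((((Equiv.neg (ℤ × ℤ)).trans (Equiv.prodComm ℤ ℤ)).trans
          L.latticeEquivProd.symm.toEquiv) (n, m) : L.lattice) : ℂ)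
          = ((-(m : ℝ) : ℝ) : ℂ) * L.ω₁ + ((-(n : ℝ) : ℝ) : ℂ) * L.ω₂ := by
        refine (L.latticeEquiv_symm_apply (-m, -n)).trans ?_
        push_cast
        rfl
      unfold pr
      rw [hw, hpair, hnorm, Complex.ofReal_exp, ← Complex.exp_add, ← hAdef]
      unfold E
      congr 1
      have hA0 : (A : ℂ) ≠ 0 := by exact_mod_cast hA.ne'
      rw [hAD]
      push_cast
      field_simp
      ring
  -- the Gaussian sum
  have hGs : ((Gs L t z : ℝ) : ℂ) = ∑' p : ℤ × ℤ,
      E (-(π / t * (α * ((p.2 : ℝ) + x - r * (p.1 - y)) ^ 2 + ((p.1 : ℝ) - y) ^ 2 / α))) 0 := by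
    unfold Gs
    rw [Complex.ofReal_tsum, ← (((Equiv.prodComm ℤ ℤ).trans
      ((Equiv.refl ℤ).prodCongr (Equiv.neg ℤ))).trans L.latticeEquivProd.symm.toEquiv).tsum_eq]
    apply tsum_congr
    rintro ⟨k, l⟩
    have hw : (((((Equiv.prodComm ℤ ℤ).trans
        ((Equiv.refl ℤ).prodCongr (Equiv.neg ℤ))).trans L.latticeEquivProd.symm.toEquiv) (k, l) :
          L.lattice) : ℂ) = ((l : ℝ) : ℂ) * L.ω₁ + ((-(k : ℝ) : ℝ) : ℂ) * L.ω₂ := by
      refine (L.latticeEquiv_symm_apply (l, -k)).trans ?_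
      push_cast
      rfl
    have hzw : z + (((l : ℝ) : ℂ) * L.ω₁ + ((-(k : ℝ) : ℝ) : ℂ) * L.ω₂) =
        ((x + l : ℝ) : ℂ) * L.ω₁ + ((y - k : ℝ) : ℂ) * L.ω₂ := by
      rw [hz]
      push_cast
      ring
    rw [hw, hzw, hnorm, E_zero, ← hAdef]
    congr 2
    field_simp
    ring
  rw [hTh, hGs, poi2 hα0 ht r x y, ← mul_assoc]
  have htc : (t : ℂ) ≠ 0 := by exact_mod_cast ht.ne'
  rw [mul_one_div_cancel htc, one_mul]

end

end Pool.Agent.MU3B


end

section

/-!
# MU3, block B: Liouville for doubly periodic functions with removable singularities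
-/

set_option autoImplicit false

namespace Pool.Agent.MU3B

open Complex Real Filter Topology
open scoped ComplexConjugate

namespace LIO

/-- Points of `P + L` are isolated. -/
theorem isolated (L : PeriodPair) (P : Finset ℂ) (z₀ : ℂ) :
    ∀ᶠ z in 𝓝 z₀, ∀ p ∈ P, z - p ∈ L.lattice → z = z₀ := by
  rw [Filter.eventually_all_finset]
  intro p _
  have h1 := L.compl_lattice_sdiff_singleton_mem_nhds (z₀ - p)
  have h2 : Tendsto (fun z : ℂ => z - p) (𝓝 z₀) (𝓝 (z₀ - p)) :=
    (continuous_id.sub continuous_const).tendsto z₀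
  filter_upwards [h2 h1] with z hz hm
  by_contra hne
  apply hz
  refine ⟨hm, fun h => hne ?_⟩
  have h3 : z - p = z₀ - p := h
  exact sub_left_injective h3

/-- Every point is congruent to a point of a compact set. -/
theorem exists_compact (L : PeriodPair) :
    ∃ K : Set ℂ, IsCompact K ∧ ∀ z : ℂ, ∃ v ∈ L.lattice, z + v ∈ K := by
  have hcont : Continuous fun x : ℝ × ℝ => (x.1 : ℂ) * L.ω₁ + (x.2 : ℂ) * L.ω₂ := by fun_prop
  refine ⟨(fun x : ℝ × ℝ => (x.1 : ℂ) * L.ω₁ + (x.2 : ℂ) * L.ω₂) '' (Set.Icc 0 1 ×ˢ Set.Icc 0 1),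
    (isCompact_Icc.prod isCompact_Icc).image hcont, fun z => ?_⟩
  set x : ℝ := L.basis.repr z 0 with hx
  set y : ℝ := L.basis.repr z 1 with hy
  have hz : z = (x : ℂ) * L.ω₁ + (y : ℂ) * L.ω₂ := by
    have h := L.basis.sum_repr z
    rw [Fin.sum_univ_two, L.basis_zero, L.basis_one] at h
    rw [← h]
    simp only [Complex.real_smul, hx, hy]
  refine ⟨-((⌊x⌋ : ℤ) • L.ω₁ + (⌊y⌋ : ℤ) • L.ω₂), ?_, ?_⟩
  · exact neg_mem (add_mem (L.lattice.smul_mem _ L.ω₁_mem_lattice)
      (L.lattice.smul_mem _ L.ω₂_mem_lattice))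
  · refine ⟨(Int.fract x, Int.fract y), ⟨⟨Int.fract_nonneg _, (Int.fract_lt_one _).le⟩,
      ⟨Int.fract_nonneg _, (Int.fract_lt_one _).le⟩⟩, ?_⟩
    show ((Int.fract x : ℝ) : ℂ) * L.ω₁ + ((Int.fract y : ℝ) : ℂ) * L.ω₂ = _
    rw [zsmul_eq_mul, zsmul_eq_mul, ← Int.self_sub_floor x, ← Int.self_sub_floor y]
    push_cast
    linear_combination (-1 : ℂ) * hz

end LIO

open _root_.Pool.Agent.MU3B.LIO in
open Classical in
theorem t_LIO : St_LIO := by
  intro L f P hper hdiff hlim
  set g : ℂ → ℂ := fun z => if (∀ p ∈ P, z - p ∉ L.lattice) then f z else limUnder (𝓝[≠] z) f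
    with hg
  have hgf : ∀ z, (∀ p ∈ P, z - p ∉ L.lattice) → g z = f z := fun z hz => if_pos hz
  -- periodicity
  have hgper : ∀ z, ∀ v ∈ L.lattice, g (z + v) = g z := by
    intro z v hv
    have e1 : (∀ p ∈ P, z + v - p ∉ L.lattice) ↔ (∀ p ∈ P, z - p ∉ L.lattice) := by
      refine forall₂_congr fun p _ => not_congr ?_
      have e : z + v - p = (z - p) + v := by ring
      rw [e]
      exact L.lattice.add_mem_iff_left hv
    by_cases h : ∀ p ∈ P, z - p ∉ L.lattice
    · rw [hgf z h, hgf (z + v) (e1.2 h), hper z v hv]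
    · have h' : ¬ ∀ p ∈ P, z + v - p ∉ L.lattice := fun h2 => h (e1.1 h2)
      rw [hg]
      simp only [if_neg h, if_neg h']
      have e2 : map (fun w : ℂ => w + v) (𝓝[≠] z) = 𝓝[≠] (z + v) := by
        have := (Homeomorph.addRight v).isOpenEmbedding.map_nhdsWithin_eq {z}ᶜ z
        rw [Homeomorph.coe_addRight] at this
        rw [this]
        congr 1
        ext w
        simp only [Set.mem_image, Set.mem_compl_iff, Set.mem_singleton_iff]
        constructor
        · rintro ⟨u, hu, rfl⟩ h3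
          exact hu (add_right_cancel h3)
        · intro hw
          exact ⟨w - v, fun h3 => hw (by rw [← h3]; ring), by ring⟩
      show lim (map f (𝓝[≠] (z + v))) = lim (map f (𝓝[≠] z))
      rw [← e2, map_map]
      congr 2
      funext w
      exact hper w v hv
  -- differentiability
  have hgd : Differentiable ℂ g := by
    intro z₀
    have hiso := isolated L P z₀
    by_cases h : ∀ p ∈ P, z₀ - p ∉ L.lattice
    · have hev : g =ᶠ[𝓝 z₀] f := by
        filter_upwards [hiso] with z hz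
        apply hgf
        intro p hp hm
        have := hz p hp hm
        rw [this] at hm
        exact h p hp hm
      exact (hdiff z₀ h).congr_of_eventuallyEq hev
    · push Not at h
      obtain ⟨p, hp, hm⟩ := h
      obtain ⟨s, hs, hs'⟩ := Filter.Eventually.exists_mem hiso
      have hnot : ¬ ∀ p ∈ P, z₀ - p ∉ L.lattice := fun h2 => h2 p hp hm
      have hoff : ∀ z ∈ s, z ≠ z₀ → ∀ p ∈ P, z - p ∉ L.lattice := fun z hz hne p hp h2 =>
        hne (hs' z hz p hp h2)
      have hd : DifferentiableOn ℂ f (s \ {z₀}) := fun z hz =>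
        (hdiff z (hoff z hz.1 hz.2)).differentiableWithinAt
      have ht : Tendsto (fun z => (z - z₀) * f z) (𝓝[≠] z₀) (𝓝 0) := by
        have h1 : Tendsto (fun z : ℂ => z - (z₀ - p)) (𝓝[≠] z₀) (𝓝[≠] p) := by
          rw [tendsto_nhdsWithin_iff]
          constructor
          · have h2 : Tendsto (fun z : ℂ => z - (z₀ - p)) (𝓝 z₀) (𝓝 (z₀ - (z₀ - p))) :=
              (continuous_id.sub continuous_const).tendsto z₀
            rw [sub_sub_cancel] at h2
            exact h2.mono_left nhdsWithin_le_nhds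
          · filter_upwards [self_mem_nhdsWithin] with z hz h2
            apply hz
            have h3 : z - (z₀ - p) = p := h2
            have h4 : z = z₀ := by linear_combination h3
            exact h4
        have h2 := (hlim p hp).comp h1
        refine h2.congr fun z => ?_
        have e : f (z - (z₀ - p)) = f z := by
          rw [← hper (z - (z₀ - p)) (z₀ - p) hm, sub_add_cancel]
        show (z - (z₀ - p) - p) * f (z - (z₀ - p)) = (z - z₀) * f z
        rw [e]
        ring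
      have ho : (fun z => f z - f z₀) =o[𝓝[≠] z₀] fun z => (z - z₀)⁻¹ := by
        rw [Asymptotics.isLittleO_iff_tendsto']
        · have h1 : Tendsto (fun z : ℂ => (z - z₀) * f z₀) (𝓝[≠] z₀) (𝓝 0) := by
            have h2 : Tendsto (fun z : ℂ => (z - z₀) * f z₀) (𝓝 z₀) (𝓝 ((z₀ - z₀) * f z₀)) :=
              ((continuous_id.sub continuous_const).mul continuous_const).tendsto z₀
            rw [sub_self, zero_mul] at h2
            exact h2.mono_left nhdsWithin_le_nhds
          have h2 := ht.sub h1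
          rw [sub_zero] at h2
          refine h2.congr fun z => ?_
          rw [div_inv_eq_mul]
          ring
        · filter_upwards [self_mem_nhdsWithin] with z hz h2
          exact absurd (sub_eq_zero.1 (inv_eq_zero.1 h2)) hz
      have hup := Complex.differentiableOn_update_limUnder_of_isLittleO hs hd ho
      have hupd := (hup z₀ (mem_of_mem_nhds hs)).differentiableAt hs
      refine hupd.congr_of_eventuallyEq ?_
      filter_upwards [hs] with z hz
      by_cases hzz : z = z₀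
      · rw [hzz, Function.update_self]
        exact if_neg hnot
      · rw [Function.update_of_ne hzz]
        exact hgf z (hoff z hz hzz)
  -- boundedness
  obtain ⟨K, hK, hKz⟩ := exists_compact L
  obtain ⟨C, hC⟩ := hK.exists_bound_of_continuousOn hgd.continuous.continuousOn
  have hb : Bornology.IsBounded (Set.range g) := by
    rw [isBounded_iff_forall_norm_le]
    refine ⟨C, ?_⟩
    rintro _ ⟨z, rfl⟩
    obtain ⟨v, hv, hz⟩ := hKz z
    rw [← hgper z v hv]
    exact hC _ hz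
  exact ⟨g 0, fun z hz => by rw [← hgf z hz]; exact hgd.apply_eq_apply_of_bounded hb z 0⟩

end Pool.Agent.MU3B


end

section

/-!
# MU3, block B: the constant of the distribution relation of the derivative (module MU3B_DIC)
-/

set_option autoImplicit false

namespace Pool.Agent.MU3B

open Complex Real Filter Topology
open scoped ComplexConjugate

namespace DIC

/-- `z³ ℘'(z) → -2` at `0`. -/
lemma lim_zero (L : PeriodPair) :
    Tendsto (fun z : ℂ => z ^ 3 * L.derivWeierstrassP z) (𝓝[≠] 0) (𝓝 (-2)) := by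
  have h1 : ContinuousAt (L.derivWeierstrassPExcept 0) 0 :=
    (L.analyticAt_derivWeierstrassPExcept 0).continuousAt
  have h2 : Tendsto (fun z : ℂ => z ^ 3 * L.derivWeierstrassPExcept 0 z - 2) (𝓝[≠] 0)
      (𝓝 (-2)) := by
    have h3 : Tendsto (fun z : ℂ => z ^ 3 * L.derivWeierstrassPExcept 0 z - 2) (𝓝 0)
        (𝓝 ((0 : ℂ) ^ 3 * L.derivWeierstrassPExcept 0 0 - 2)) :=
      ((tendsto_id.pow 3).mul h1.tendsto).sub_const 2
    have h4 : (0 : ℂ) ^ 3 * L.derivWeierstrassPExcept 0 0 - 2 = -2 := by ring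
    rw [h4] at h3
    exact h3.mono_left nhdsWithin_le_nhds
  refine h2.congr' ?_
  filter_upwards [self_mem_nhdsWithin] with z hz
  have hz0 : z ≠ 0 := hz
  have h5 := L.derivWeierstrassPExcept_def (0 : L.lattice) z
  simp only [ZeroMemClass.coe_zero, sub_zero] at h5
  rw [h5]
  field_simp
  ring

end DIC

open _root_.Pool.Agent.MU3B.DIC in
theorem t_DIC (hDIY : St_DIY) : St_DIC := by
  intro L a R ha haL hR hR2 z hz
  obtain ⟨C, hC0, hC⟩ := hDIY L a R ha haL hR hR2
  rw [hC z hz]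
  have hCval : C = a ^ 3 * ∏ q ∈ R, L.derivWeierstrassP q := by
    have hev : ∀ᶠ w : ℂ in 𝓝[≠] 0, a * w ∉ L.lattice := by
      have h1 : ∀ᶠ u : ℂ in 𝓝 (0 : ℂ), u ∈ ((L.lattice : Set ℂ) \ {0})ᶜ :=
        L.compl_lattice_sdiff_singleton_mem_nhds 0
      have h2 : Tendsto (fun w : ℂ => a * w) (𝓝[≠] 0) (𝓝 0) := by
        have : Tendsto (fun w : ℂ => a * w) (𝓝 0) (𝓝 (a * 0)) :=
          (continuous_const.mul continuous_id).tendsto 0
        rw [mul_zero] at this
        exact this.mono_left nhdsWithin_le_nhds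
      filter_upwards [h2.eventually h1, self_mem_nhdsWithin] with w hw hw0 hmem
      exact hw ⟨hmem, mul_ne_zero ha hw0⟩
    have hl : Tendsto (fun w : ℂ => w ^ 3 * L.derivWeierstrassP w *
        ∏ q ∈ R, L.derivWeierstrassP (w + q)) (𝓝[≠] 0)
        (𝓝 (-2 * ∏ q ∈ R, L.derivWeierstrassP q)) := by
      refine (lim_zero L).mul ?_
      refine tendsto_finset_prod _ fun q hq => ?_
      have h3 : ContinuousAt L.derivWeierstrassP q :=
        (L.analyticOnNhd_derivWeierstrassP q (hR.ne q hq)).continuousAt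
      have h4 : Tendsto (fun w : ℂ => w + q) (𝓝[≠] 0) (𝓝 q) := by
        have : Tendsto (fun w : ℂ => w + q) (𝓝 0) (𝓝 (0 + q)) :=
          (continuous_id.add continuous_const).tendsto 0
        rw [zero_add] at this
        exact this.mono_left nhdsWithin_le_nhds
      exact h3.tendsto.comp h4
    have hr : Tendsto (fun w : ℂ => C / a ^ 3 * ((a * w) ^ 3 * L.derivWeierstrassP (a * w)))
        (𝓝[≠] 0) (𝓝 (C / a ^ 3 * (-2))) := by
      refine Tendsto.const_mul _ ((lim_zero L).comp ?_)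
      refine tendsto_nhdsWithin_iff.2 ⟨?_, ?_⟩
      · have : Tendsto (fun w : ℂ => a * w) (𝓝 0) (𝓝 (a * 0)) :=
          (continuous_const.mul continuous_id).tendsto 0
        rw [mul_zero] at this
        exact this.mono_left nhdsWithin_le_nhds
      · filter_upwards [self_mem_nhdsWithin] with w hw
        exact mul_ne_zero ha hw
    have he : (fun w : ℂ => w ^ 3 * L.derivWeierstrassP w *
        ∏ q ∈ R, L.derivWeierstrassP (w + q)) =ᶠ[𝓝[≠] 0]
        (fun w : ℂ => C / a ^ 3 * ((a * w) ^ 3 * L.derivWeierstrassP (a * w))) := by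
      filter_upwards [hev] with w hw
      have h5 := hC w hw
      rw [mul_assoc, h5]
      field_simp
    have h6 := tendsto_nhds_unique (hl.congr' he) hr
    have ha3 : a ^ 3 ≠ 0 := pow_ne_zero 3 ha
    rw [div_mul_eq_mul_div, eq_div_iff ha3] at h6
    linear_combination (1 / 2 : ℂ) * h6
  rw [hCval]

end Pool.Agent.MU3B


end

section

/-!
# MU3, block B: (ADD), the addition theorem
-/

set_option autoImplicit false

namespace Pool.Agent.MU3B

open Complex Filter Topology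
open scoped ComplexConjugate

namespace ADDaux

variable (L : PeriodPair)

theorem nhds_notMem {z : ℂ} (hz : z ∉ L.lattice) : ∀ᶠ x in 𝓝 z, x ∉ L.lattice :=
  L.isClosed_lattice.isOpen_compl.mem_nhds hz

theorem _root_.Pool.Agent.MU3B.ADDaux.nhds_add {z Q : ℂ} (hz : z + Q ∉ L.lattice) : ∀ᶠ x in 𝓝 z, x + Q ∉ L.lattice :=
  (continuous_id.add continuous_const).continuousAt.eventually (nhds_notMem L hz)

theorem nhds_sub {z Q : ℂ} (hz : z - Q ∉ L.lattice) : ∀ᶠ x in 𝓝 z, x - Q ∉ L.lattice :=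
  (continuous_id.sub continuous_const).continuousAt.eventually (nhds_notMem L hz)

theorem hasDerivAt_P {z : ℂ} (hz : z ∉ L.lattice) :
    HasDerivAt L.weierstrassP (L.derivWeierstrassP z) z := by
  have h := (L.differentiableOn_weierstrassP z hz).differentiableAt
    (L.isClosed_lattice.isOpen_compl.mem_nhds hz)
  have := h.hasDerivAt
  rwa [L.deriv_weierstrassP] at this

theorem hasDerivAt_P_add {z Q : ℂ} (hz : z + Q ∉ L.lattice) :
    HasDerivAt (fun x => L.weierstrassP (x + Q)) (L.derivWeierstrassP (z + Q)) z :=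
  (hasDerivAt_P L hz).comp_add_const z Q

/-- `M` by the zeta function -/
theorem M_eq (hZAD : St_ZAD) (hNEQ : St_NEQ) {Q z : ℂ} (hQ : Q ∉ L.lattice) (hz : z ∉ L.lattice)
    (h1 : z + Q ∉ L.lattice) (h2 : z - Q ∉ L.lattice) :
    (L.derivWeierstrassP z - L.derivWeierstrassP Q) /
        (2 * (L.weierstrassP z - L.weierstrassP Q)) = zet L (z + Q) - zet L z - zet L Q := by
  have hD : L.weierstrassP z - L.weierstrassP Q ≠ 0 := by
    intro h
    rcases hNEQ L Q z hQ hz (sub_eq_zero.1 h) with h3 | h3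
    · exact h2 h3
    · exact h1 h3
  have h := hZAD L Q z hQ hz h1 h2
  have e1 : zet L (z + Q) - zet L z - zet L Q = ee L (z + Q) - ee L z - ee L Q := by
    unfold zet
    rw [map_add]
    ring
  rw [e1, div_eq_iff (mul_ne_zero two_ne_zero hD), ← h]
  ring

theorem key (hZAD : St_ZAD) (hZP : St_ZP) (hP2 : St_P2) (hNEQ : St_NEQ) {Q z : ℂ}
    (hQ : Q ∉ L.lattice) (hz : z ∉ L.lattice) (h1 : z + Q ∉ L.lattice) (h2 : z - Q ∉ L.lattice) :
    HasDerivAt (fun x => zet L (x + Q) - zet L x - zet L Q)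
      (L.weierstrassP z - L.weierstrassP (z + Q)) z ∧
    L.weierstrassP z - L.weierstrassP (z + Q) =
      ((6 * L.weierstrassP z ^ 2 - L.g₂ / 2) * (2 * (L.weierstrassP z - L.weierstrassP Q)) -
        (L.derivWeierstrassP z - L.derivWeierstrassP Q) * (2 * L.derivWeierstrassP z)) /
        (2 * (L.weierstrassP z - L.weierstrassP Q)) ^ 2 := by
  obtain ⟨c, hc⟩ := hZP L
  have hN : HasDerivAt (fun x => zet L (x + Q) - zet L x - zet L Q)
      (L.weierstrassP z - L.weierstrassP (z + Q)) z := by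
    have a1 : HasDerivAt (fun x => zet L (x + Q)) (c - L.weierstrassP (z + Q)) z :=
      (hc (z + Q) h1).comp_add_const z Q
    have a2 := hc z hz
    have := (a1.sub a2).sub_const (zet L Q)
    have e : c - L.weierstrassP (z + Q) - (c - L.weierstrassP z) =
        L.weierstrassP z - L.weierstrassP (z + Q) := by ring
    rw [e] at this
    exact this
  refine ⟨hN, ?_⟩
  have hD : L.weierstrassP z - L.weierstrassP Q ≠ 0 := by
    intro h
    rcases hNEQ L Q z hQ hz (sub_eq_zero.1 h) with h3 | h3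
    · exact h2 h3
    · exact h1 h3
  have hM : HasDerivAt (fun x => (L.derivWeierstrassP x - L.derivWeierstrassP Q) /
      (2 * (L.weierstrassP x - L.weierstrassP Q)))
      (((6 * L.weierstrassP z ^ 2 - L.g₂ / 2) * (2 * (L.weierstrassP z - L.weierstrassP Q)) -
        (L.derivWeierstrassP z - L.derivWeierstrassP Q) * (2 * L.derivWeierstrassP z)) /
        (2 * (L.weierstrassP z - L.weierstrassP Q)) ^ 2) z := by
    have b1 := (hP2 L z hz).sub_const (L.derivWeierstrassP Q)
    have b2 := ((hasDerivAt_P L hz).sub_const (L.weierstrassP Q)).const_mul 2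
    exact b1.div b2 (mul_ne_zero two_ne_zero hD)
  have hev : (fun x => (L.derivWeierstrassP x - L.derivWeierstrassP Q) /
      (2 * (L.weierstrassP x - L.weierstrassP Q))) =ᶠ[𝓝 z]
      fun x => zet L (x + Q) - zet L x - zet L Q := by
    filter_upwards [nhds_notMem L hz, _root_.Pool.Agent.MU3B.ADDaux.nhds_add L h1, nhds_sub L h2] with x x1 x2 x3
    exact M_eq L hZAD hNEQ hQ x1 x2 x3
  exact (hN.congr_of_eventuallyEq hev).unique hM

theorem first (hZAD : St_ZAD) (hZP : St_ZP) (hP2 : St_P2) (hNEQ : St_NEQ) {Q z : ℂ}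
    (hQ : Q ∉ L.lattice) (hz : z ∉ L.lattice) (h1 : z + Q ∉ L.lattice) (h2 : z - Q ∉ L.lattice) :
    L.weierstrassP (z + Q) + L.weierstrassP z + L.weierstrassP Q =
      ((L.derivWeierstrassP z - L.derivWeierstrassP Q) /
        (2 * (L.weierstrassP z - L.weierstrassP Q))) ^ 2 := by
  have hD : L.weierstrassP z - L.weierstrassP Q ≠ 0 := by
    intro h
    rcases hNEQ L Q z hQ hz (sub_eq_zero.1 h) with h3 | h3
    · exact h2 h3
    · exact h1 h3
  have hD' : L.weierstrassP Q - L.weierstrassP z ≠ 0 := by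
    intro h
    exact hD (by rw [← neg_sub, h, neg_zero])
  have k1 := (key L hZAD hZP hP2 hNEQ hQ hz h1 h2).2
  have k2 := (key L hZAD hZP hP2 hNEQ hz hQ (by rwa [add_comm]) (fun h => h2 (by
    have := L.lattice.neg_mem h
    rwa [neg_sub] at this))).2
  rw [add_comm Q z] at k2
  rw [eq_div_iff (pow_ne_zero 2 (mul_ne_zero two_ne_zero hD))] at k1
  rw [eq_div_iff (pow_ne_zero 2 (mul_ne_zero two_ne_zero hD'))] at k2
  rw [div_pow, eq_div_iff (pow_ne_zero 2 (mul_ne_zero two_ne_zero hD))]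
  have h4 : (2 : ℂ) ≠ 0 := two_ne_zero
  linear_combination (-1 / 2) * k1 + (-1 / 2) * k2

end ADDaux

open _root_.Pool.Agent.MU3B.ADDaux in
theorem t_ADD (hZAD : St_ZAD) (hZP : St_ZP) (hP2 : St_P2) (hNEQ : St_NEQ) : St_ADD := by
  intro L Q z hQ hz h1 h2
  refine ⟨first L hZAD hZP hP2 hNEQ hQ hz h1 h2, ?_⟩
  have hN := (key L hZAD hZP hP2 hNEQ hQ hz h1 h2).1
  have hR : HasDerivAt (fun x => (zet L (x + Q) - zet L x - zet L Q) ^ 2 - L.weierstrassP x -
      L.weierstrassP Q)
      (2 * (zet L (z + Q) - zet L z - zet L Q) * (L.weierstrassP z - L.weierstrassP (z + Q)) -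
        L.derivWeierstrassP z) z := by
    have a := ((hN.pow 2).sub (hasDerivAt_P L hz)).sub_const (L.weierstrassP Q)
    simpa using a
  have hev : (fun x => L.weierstrassP (x + Q)) =ᶠ[𝓝 z]
      fun x => (zet L (x + Q) - zet L x - zet L Q) ^ 2 - L.weierstrassP x -
        L.weierstrassP Q := by
    filter_upwards [nhds_notMem L hz, _root_.Pool.Agent.MU3B.ADDaux.nhds_add L h1, nhds_sub L h2] with x x1 x2 x3
    have f := first L hZAD hZP hP2 hNEQ hQ x1 x2 x3
    rw [M_eq L hZAD hNEQ hQ x1 x2 x3] at f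
    rw [← f]
    ring
  have hu := (hR.congr_of_eventuallyEq hev).unique (hasDerivAt_P_add L h1)
  rw [M_eq L hZAD hNEQ hQ hz h1 h2]
  rw [← hu]
  ring

end Pool.Agent.MU3B


end
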