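import Mathlib
import Pool.Agent.MVF.C003

/-! Parts: MU3.B_ZP, MU3.B_TIN, MU3.B_TDL, MU3.B_SUM, MU3.B_INT, MU3.B_HOL, MU3.B_DUP, MU3.B_DIS -/

namespace Pool.Agent.MU3B.DIS
end Pool.Agent.MU3B.DIS
namespace Pool.Agent.MU3B.DUP
end Pool.Agent.MU3B.DUP
namespace Pool.Agent.MU3B.HOL
end Pool.Agent.MU3B.HOL
namespace Pool.Agent.MU3B.INT45
end Pool.Agent.MU3B.INT45
namespace Pool.Agent.MU3B.TIN45
end Pool.Agent.MU3B.TIN45

section

/-!
# MU3, block B: the derivative of the zeta function of Weierstrass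
-/

set_option autoImplicit false

namespace Pool.Agent.MU3B

open Complex Real Filter Topology
open scoped ComplexConjugate

theorem t_ZP (hPER : St_PER) (hHOL : St_HOL) (hPOL : St_POL) (hLIO : St_LIO) : St_ZP := by
  intro L
  obtain ⟨h, δ, hδ, hd, -, hz⟩ := hPOL L
  have hop : IsOpen ((L.lattice : Set ℂ)ᶜ) := L.isClosed_lattice.isOpen_compl
  have hhol : DifferentiableOn ℂ (zet L) ((L.lattice : Set ℂ)ᶜ) := fun z hz =>
    (hHOL L z hz).differentiableWithinAt
  have hder : DifferentiableOn ℂ (deriv (zet L)) ((L.lattice : Set ℂ)ᶜ) := hhol.deriv hop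
  have k1 : ∀ z, ∀ v ∈ L.lattice, (fun z => deriv (zet L) z + L.weierstrassP z) (z + v) =
      (fun z => deriv (zet L) z + L.weierstrassP z) z := by
    intro z v hv
    have h1 : (fun z => zet L (z + v)) = fun z => zet L z + ((π / area L : ℝ) : ℂ) * conj v := by
      funext z
      unfold zet
      rw [(hPER L).1 z v hv, map_add]
      ring
    have h2 : deriv (zet L) (z + v) = deriv (zet L) z := by
      rw [← deriv_comp_add_const, h1, deriv_add_const]
    have h3 : L.weierstrassP (z + v) = L.weierstrassP z := L.weierstrassP_add_coe z ⟨v, hv⟩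
    simp only [h2, h3]
  have k2 : ∀ z, (∀ p ∈ ({0} : Finset ℂ), z - p ∉ L.lattice) →
      DifferentiableAt ℂ (fun z => deriv (zet L) z + L.weierstrassP z) z := by
    intro z hz
    have hz' : z ∈ ((L.lattice : Set ℂ)ᶜ) := by simpa using hz
    have h1 : DifferentiableAt ℂ (deriv (zet L)) z := hder.differentiableAt (hop.mem_nhds hz')
    have h2 : DifferentiableAt ℂ L.weierstrassP z :=
      L.differentiableOn_weierstrassP.differentiableAt (hop.mem_nhds hz')
    exact h1.add h2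
  have k3 : ∀ p ∈ ({0} : Finset ℂ),
      Tendsto (fun z => (z - p) * (fun z => deriv (zet L) z + L.weierstrassP z) z) (𝓝[≠] p)
        (𝓝 0) := by
    intro p hp
    rw [Finset.mem_singleton] at hp
    subst hp
    have hball : Metric.ball (0 : ℂ) δ ∈ 𝓝 (0 : ℂ) := Metric.ball_mem_nhds 0 hδ
    -- the regular part
    have c1 : ContinuousAt (deriv h) 0 :=
      ((hd.deriv Metric.isOpen_ball).differentiableAt hball).continuousAt
    have c2 : ContinuousAt (L.weierstrassPExcept 0) 0 :=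
      (L.analyticAt_weierstrassPExcept 0).continuousAt
    have c3 : Tendsto (fun z : ℂ => z * (deriv h z + L.weierstrassPExcept 0 z)) (𝓝[≠] 0) (𝓝 0) := by
      have c4 : ContinuousAt (fun z : ℂ => z * (deriv h z + L.weierstrassPExcept 0 z)) 0 :=
        continuousAt_id.mul (c1.add c2)
      have c5 := c4.tendsto
      simp only [zero_mul] at c5
      exact c5.mono_left nhdsWithin_le_nhds
    refine c3.congr' ?_
    have hev : ∀ᶠ z in 𝓝[≠] (0 : ℂ), z ∈ Metric.ball (0 : ℂ) δ ∧ z ≠ 0 := by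
      have a1 : ∀ᶠ z in 𝓝[≠] (0 : ℂ), z ∈ Metric.ball (0 : ℂ) δ := nhdsWithin_le_nhds hball
      have a2 : ∀ᶠ z in 𝓝[≠] (0 : ℂ), z ≠ 0 := self_mem_nhdsWithin
      exact a1.and a2
    filter_upwards [hev] with z hzz
    obtain ⟨hz1, hz2⟩ := hzz
    have e1 : zet L =ᶠ[𝓝 z] fun x => 1 / x + h x := by
      have : Metric.ball (0 : ℂ) δ \ {0} ∈ 𝓝 z :=
        (Metric.isOpen_ball.sdiff isClosed_singleton).mem_nhds ⟨hz1, hz2⟩
      filter_upwards [this] with x hx
      exact (hz x hx.1 hx.2).2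
    have e2 : HasDerivAt (fun x : ℂ => 1 / x + h x) (-(z ^ 2)⁻¹ + deriv h z) z := by
      have a1 : HasDerivAt (fun x : ℂ => 1 / x) (-(z ^ 2)⁻¹) z := by
        simpa [one_div] using hasDerivAt_inv hz2
      exact a1.add (hd.differentiableAt (Metric.isOpen_ball.mem_nhds hz1)).hasDerivAt
    have e3 : deriv (zet L) z = -(z ^ 2)⁻¹ + deriv h z := by
      rw [e1.deriv_eq, e2.deriv]
    have e4 : L.weierstrassP z = L.weierstrassPExcept 0 z + (z ^ 2)⁻¹ := by
      have := L.weierstrassPExcept_add 0 z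
      simp at this
      rw [← this]
    rw [e3, e4]
    ring
  obtain ⟨c, hc⟩ := hLIO L (fun z => deriv (zet L) z + L.weierstrassP z) {0} k1 k2 k3
  refine ⟨c, fun z hz => ?_⟩
  have h1 := (hHOL L z hz).hasDerivAt
  have h2 : deriv (zet L) z = c - L.weierstrassP z := by
    have h3 := hc z (by simpa using hz)
    rw [← h3]
    ring
  rwa [h2] at h1

end Pool.Agent.MU3B


end

section

/-!
# MU3, block B: module TIN (helper45)
-/

set_option autoImplicit false

namespace Pool.Agent.MU3B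

open Complex Real Filter Topology
open scoped ComplexConjugate

namespace TIN45

/-- the value of the Weierstrass function depends only on the class modulo sign -/
theorem wp_eq (L : PeriodPair) {p q : ℂ} (h : p - q ∈ L.lattice ∨ p + q ∈ L.lattice) :
    L.weierstrassP p = L.weierstrassP q := by
  rcases h with h | h
  · have h1 := L.weierstrassP_add_coe q ⟨p - q, h⟩
    rw [← h1]
    congr 1
    simp
  · have h1 := L.weierstrassP_add_coe (-q) ⟨p + q, h⟩
    rw [L.weierstrassP_neg] at h1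
    rw [← h1]
    congr 1
    simp

/-- two points of a half system in the same class modulo sign are equal -/
theorem half_eq {L : PeriodPair} {a : ℂ} {H : Finset ℂ} (hH : IsHalf L a H) {q q' x : ℂ}
    (hq : q ∈ H) (hq' : q' ∈ H) (h1 : q - x ∈ L.lattice ∨ q + x ∈ L.lattice)
    (h2 : q' - x ∈ L.lattice ∨ q' + x ∈ L.lattice) : q = q' := by
  rcases h1 with h1 | h1 <;> rcases h2 with h2 | h2
  · refine hH.inj q hq q' hq' ?_
    have := sub_mem h1 h2
    convert this using 1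
    ring
  · exfalso
    refine hH.neg q hq q' hq' ?_
    have := add_mem h1 h2
    convert this using 1
    ring
  · exfalso
    refine hH.neg q hq q' hq' ?_
    have := add_mem h1 h2
    convert this using 1
    ring
  · refine hH.inj q hq q' hq' ?_
    have := sub_mem h1 h2
    convert this using 1
    ring

theorem rel_symm {L : PeriodPair} {p q : ℂ} (h : p - q ∈ L.lattice ∨ p + q ∈ L.lattice) :
    q - p ∈ L.lattice ∨ q + p ∈ L.lattice := by
  rcases h with h | h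
  · left
    have := neg_mem h
    convert this using 1
    ring
  · right
    rwa [add_comm]

theorem not_mem {L : PeriodPair} {a : ℂ} {H : Finset ℂ} (hH : IsHalf L a H) {q : ℂ}
    (hq : q ∈ H) : q ∉ L.lattice := by
  intro h
  refine hH.ne q hq ?_
  have := add_mem h h
  convert this using 1
  ring

end TIN45

open _root_.Pool.Agent.MU3B.TIN45 in
/-- (TIN) -/
theorem t_TIN : St_TIN := by
  intro L a H H' hH hH'
  refine ⟨?_, ?_, ?_⟩
  · intro z
    have hex : ∀ q ∈ H, ∃ q' ∈ H', q - q' ∈ L.lattice ∨ q + q' ∈ L.lattice := fun q hq =>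
      hH'.surj q (hH.mem q hq) (not_mem hH hq)
    choose! f hf hf' using hex
    unfold ThetaH
    refine Finset.prod_bij (fun q _ => f q) (fun q hq => hf q hq) ?_ ?_ ?_
    · intro q hq q' hq' h
      refine half_eq hH hq hq' (hf' q hq) ?_
      have h1 : f q = f q' := h
      rw [h1]
      exact hf' q' hq'
    · intro q' hq'
      obtain ⟨q, hq, hqq⟩ := hH.surj q' (hH'.mem q' hq') (not_mem hH' hq')
      refine ⟨q, hq, ?_⟩
      exact half_eq hH' (hf q hq) hq' (rel_symm (hf' q hq)) hqq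
    · intro q hq
      rw [wp_eq L (hf' q hq)]
  · intro z
    unfold ThetaH
    refine Finset.prod_congr rfl fun q _ => ?_
    rw [L.weierstrassP_neg]
  · intro z v hv
    unfold ThetaH
    refine Finset.prod_congr rfl fun q _ => ?_
    rw [L.weierstrassP_add_coe z ⟨v, hv⟩]

end Pool.Agent.MU3B


end

section

/-!
# MU3, block B: (TDL), the logarithmic derivative of `Θ_a`
-/

set_option autoImplicit false

namespace Pool.Agent.MU3B

open Complex Filter Topology
open scoped ComplexConjugate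

theorem t_TDL (hID : St_ID) (hDIS : St_DIS) (hHRE : St_HRE) (hNEQ : St_NEQ) : St_TDL := by
  intro L a H ha haL hH z haz
  have hz : z ∉ L.lattice := fun h => haz (haL z h)
  have hq : ∀ q ∈ H, q ∉ L.lattice := fun q hq h => hH.ne q hq (by
    rw [two_mul]; exact L.lattice.add_mem h h)
  have hadd : ∀ q ∈ H, z + q ∉ L.lattice := by
    intro q hq h
    apply haz
    have := L.lattice.sub_mem (haL _ h) (hH.mem q hq)
    have e : a * (z + q) - a * q = a * z := by ring
    rwa [e] at this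
  have hsub : ∀ q ∈ H, z - q ∉ L.lattice := by
    intro q hq h
    apply haz
    have := L.lattice.add_mem (haL _ h) (hH.mem q hq)
    have e : a * (z - q) + a * q = a * z := by ring
    rwa [e] at this
  have hne : ∀ q ∈ H, L.weierstrassP z - L.weierstrassP q ≠ 0 := by
    intro q hqH h
    rcases hNEQ L q z (hq q hqH) hz (sub_eq_zero.1 h) with h1 | h1
    · exact hsub q hqH h1
    · exact hadd q hqH h1
  obtain ⟨hR, hdis, hcard⟩ := hHRE L a H ha haL hH
  have h1 : (∑ q ∈ H, L.derivWeierstrassP z / (L.weierstrassP z - L.weierstrassP q)) =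
      a * ee L (a * z) - (‖a‖ ^ 2 : ℝ) * ee L z := by
    have h2 : ∀ q ∈ H, L.derivWeierstrassP z / (L.weierstrassP z - L.weierstrassP q) =
        ee L (z + q) + ee L (z - q) - 2 * ee L z := by
      intro q hqH
      rw [div_eq_iff (hne q hqH)]
      exact (hID L q z (hq q hqH) hz (hadd q hqH) (hsub q hqH)).symm
    rw [Finset.sum_congr rfl h2, Finset.sum_sub_distrib, Finset.sum_add_distrib, Finset.sum_const]
    have h3 := hDIS L a _ ha haL hR z
    rw [Finset.sum_union hdis, Finset.sum_image (fun x _ y _ h => neg_injective h)] at h3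
    have h4 : ∑ q ∈ H, ee L (z + -q) = ∑ q ∈ H, ee L (z - q) :=
      Finset.sum_congr rfl fun q _ => by rw [sub_eq_add_neg]
    rw [h4] at h3
    have h5 : ((‖a‖ ^ 2 : ℝ) : ℂ) = 2 * (H.card : ℂ) + 1 := by
      rw [← hcard]; push_cast; ring
    rw [← h3, h5, nsmul_eq_mul]
    ring
  refine ⟨h1, ?_⟩
  rw [← h1]
  have hP : HasDerivAt L.weierstrassP (L.derivWeierstrassP z) z := by
    have h := (L.differentiableOn_weierstrassP z hz).differentiableAt
      (L.isClosed_lattice.isOpen_compl.mem_nhds hz)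
    have := h.hasDerivAt
    rwa [L.deriv_weierstrassP] at this
  have hprod := HasDerivAt.fun_finset_prod (u := H)
    (f := fun q x => L.weierstrassP x - L.weierstrassP q)
    (f' := fun _ => L.derivWeierstrassP z) (x := z)
    (fun q _ => hP.sub_const (L.weierstrassP q))
  have e : (∑ q ∈ H, L.derivWeierstrassP z / (L.weierstrassP z - L.weierstrassP q)) *
      ThetaH L H z = ∑ q ∈ H, (∏ j ∈ H.erase q, (L.weierstrassP z - L.weierstrassP j)) •
        L.derivWeierstrassP z := by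
    rw [Finset.sum_mul]
    apply Finset.sum_congr rfl
    intro q hqH
    unfold ThetaH
    rw [← Finset.mul_prod_erase H _ hqH, smul_eq_mul]
    have := hne q hqH
    field_simp
  rw [e]
  exact hprod

end Pool.Agent.MU3B


end

section

/-!
# (SUM) Gaussian domination
-/

set_option autoImplicit false

namespace Pool.Agent.MU3B

open Complex Real Filter Topology

theorem sum_gauss_bound {c : ℝ} (hc : 0 < c) (m : ℕ) {x : ℝ} (hx : 0 ≤ x) :
    (1 + x) ^ m * Real.exp (-(c * x ^ 2)) ≤ Real.exp ((m : ℝ) ^ 2 / (4 * c)) := by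
  have h1 : (1 + x) ^ m ≤ Real.exp (m * x) := by
    have h2 : 1 + x ≤ Real.exp x := by
      have := Real.add_one_le_exp x
      linarith
    calc (1 + x) ^ m ≤ (Real.exp x) ^ m := pow_le_pow_left₀ (by linarith) h2 m
      _ = Real.exp (m * x) := (Real.exp_nat_mul x m).symm
  calc (1 + x) ^ m * Real.exp (-(c * x ^ 2)) ≤ Real.exp (m * x) * Real.exp (-(c * x ^ 2)) :=
        mul_le_mul_of_nonneg_right h1 (Real.exp_pos _).le
    _ = Real.exp (m * x + -(c * x ^ 2)) := (Real.exp_add _ _).symm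
    _ ≤ Real.exp ((m : ℝ) ^ 2 / (4 * c)) := by
        refine Real.exp_le_exp.2 ?_
        rw [le_div_iff₀ (by linarith)]
        nlinarith [sq_nonneg ((m : ℝ) - 2 * c * x)]

theorem t_SUM : St_SUM := by
  intro L c hc k R
  set K : ℝ := (1 + |R|) ^ 3 * Real.exp (((k + 3 : ℕ) : ℝ) ^ 2 / (4 * c)) with hK
  have hK0 : 0 ≤ K := by positivity
  have main : ∀ (w : L.lattice) (z : ℂ), ‖z‖ ≤ |R| →
      (1 + ‖z + w‖) ^ k * Real.exp (-(c * ‖z + w‖ ^ 2)) ≤
        K * ((‖w‖ ^ 3)⁻¹ + if w = 0 then 1 else 0) := by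
    intro w z hz
    have hR : 0 ≤ |R| := abs_nonneg R
    have hx : 0 ≤ ‖z + (w : ℂ)‖ := norm_nonneg _
    have hw : ‖w‖ = ‖(w : ℂ)‖ := rfl
    have e1 : ‖(w : ℂ)‖ ≤ ‖z + (w : ℂ)‖ + |R| := by
      have h2 : (w : ℂ) = (z + w) - z := by ring
      calc ‖(w : ℂ)‖ = ‖(z + w) - z‖ := by rw [← h2]
        _ ≤ ‖z + (w : ℂ)‖ + ‖z‖ := norm_sub_le _ _
        _ ≤ _ := by linarith
    have e2 : 1 + ‖(w : ℂ)‖ ≤ (1 + |R|) * (1 + ‖z + (w : ℂ)‖) := by
      nlinarith [mul_nonneg hR hx]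
    have e3 : (1 + ‖(w : ℂ)‖) ^ 3 ≤ (1 + |R|) ^ 3 * (1 + ‖z + (w : ℂ)‖) ^ 3 := by
      rw [← mul_pow]
      exact pow_le_pow_left₀ (by positivity) e2 3
    have e4 := sum_gauss_bound hc (k + 3) hx
    have e5 : (1 + ‖(w : ℂ)‖) ^ 3 * ((1 + ‖z + (w : ℂ)‖) ^ k *
        Real.exp (-(c * ‖z + (w : ℂ)‖ ^ 2))) ≤ K := by
      calc (1 + ‖(w : ℂ)‖) ^ 3 * ((1 + ‖z + (w : ℂ)‖) ^ k *
            Real.exp (-(c * ‖z + (w : ℂ)‖ ^ 2)))
          ≤ ((1 + |R|) ^ 3 * (1 + ‖z + (w : ℂ)‖) ^ 3) * ((1 + ‖z + (w : ℂ)‖) ^ k *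
            Real.exp (-(c * ‖z + (w : ℂ)‖ ^ 2))) :=
            mul_le_mul_of_nonneg_right e3 (by positivity)
        _ = (1 + |R|) ^ 3 * ((1 + ‖z + (w : ℂ)‖) ^ (k + 3) *
            Real.exp (-(c * ‖z + (w : ℂ)‖ ^ 2))) := by ring
        _ ≤ K := mul_le_mul_of_nonneg_left e4 (by positivity)
    have e6 : (1 + ‖z + (w : ℂ)‖) ^ k * Real.exp (-(c * ‖z + (w : ℂ)‖ ^ 2)) ≤
        K * ((1 + ‖(w : ℂ)‖) ^ 3)⁻¹ := by
      rw [← div_eq_mul_inv, le_div_iff₀ (by positivity)]
      linarith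
    refine e6.trans (mul_le_mul_of_nonneg_left ?_ hK0)
    by_cases h0 : w = 0
    · subst h0
      simp
    · rw [if_neg h0, add_zero, hw]
      have hpos : 0 < ‖(w : ℂ)‖ := by
        rw [← hw]
        exact norm_pos_iff.2 h0
      exact inv_anti₀ (by positivity) (pow_le_pow_left₀ hpos.le (by linarith) 3)
  refine ⟨fun w => K * ((‖w‖ ^ 3)⁻¹ + if w = 0 then 1 else 0), ?_, ?_⟩
  · refine Summable.mul_left _ (Summable.add ?_ (hasSum_ite_eq (0 : L.lattice) (1 : ℝ)).summable)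
    have h3 := ZLattice.summable_norm_pow_inv L.lattice 3 (by simp)
    simpa using h3
  · intro w z hz
    refine ⟨main w z (hz.trans (le_abs_self R)), ?_⟩
    have := main w 0 (by simp)
    simpa using this

end Pool.Agent.MU3B


end

section

/-!
# MU3, block B: module INT (helper45)
-/

set_option autoImplicit false

namespace Pool.Agent.MU3B

open Complex Real Filter Topology MeasureTheory
open scoped ComplexConjugate

namespace INT45

theorem integrable_tsum {ι : Type} [Countable ι] {μ : Measure ℝ} {F : ι → ℝ → ℂ}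
    (hF : ∀ i, Integrable (F i) μ) (hs : Summable fun i => ∫ a, ‖F i a‖ ∂μ) :
    Integrable (fun a => ∑' i, F i a) μ := by
  have hf'' : ∀ i, AEMeasurable (fun a => ‖F i a‖ₑ) μ := fun i => (hF i).1.enorm
  have h1 : ∑' i, ∫⁻ a, ‖F i a‖ₑ ∂μ ≠ ⊤ := by
    have (i : ι) : ∫⁻ a, ‖F i a‖ₑ ∂μ = ‖∫ a, ‖F i a‖ ∂μ‖ₑ := by
      dsimp [enorm]
      rw [lintegral_coe_eq_integral _ (hF i).norm, ENNReal.coe_nnreal_eq, coe_nnnorm,
        Real.norm_of_nonneg (integral_nonneg (fun a => norm_nonneg (F i a)))]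
      simp only [coe_nnnorm]
    rw [funext this]
    exact ENNReal.tsum_coe_ne_top_iff_summable.2 <| NNReal.summable_coe.1 hs.abs
  have h2 : ∀ᵐ a ∂μ, Summable fun i => F i a := by
    rw [← lintegral_tsum hf''] at h1
    refine (ae_lt_top' (AEMeasurable.tsum hf'') h1).mono ?_
    intro x hx
    have h3 : Summable fun n => ((‖F n x‖₊ : NNReal) : ℝ) := by
      rw [← ENNReal.tsum_coe_ne_top_iff_summable_coe]
      exact hx.ne
    exact Summable.of_norm h3
  refine ⟨?_, ?_⟩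
  · refine aestronglyMeasurable_of_tendsto_ae (u := (atTop : Filter (Finset ι)))
      (f := fun s a => ∑ i ∈ s, F i a) ?_ ?_
    · intro s
      exact (Finset.aestronglyMeasurable_fun_sum s fun i _ => (hF i).1)
    · filter_upwards [h2] with a ha
      exact ha.hasSum
  · have h3 : ∫⁻ a, ‖∑' i, F i a‖ₑ ∂μ ≤ ∑' i, ∫⁻ a, ‖F i a‖ₑ ∂μ := by
      rw [← lintegral_tsum hf'']
      exact lintegral_mono fun a => enorm_tsum_le_tsum_enorm
    exact lt_of_le_of_lt h3 (lt_top_iff_ne_top.2 h1)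

theorem absl {ι : Type} [Countable ι] (S : Set ℝ) (a : ι → ℂ) (φ : ι → ℝ → ℝ) (I : ι → ℝ)
    (hφ : ∀ i, a i ≠ 0 → IntegrableOn (φ i) S) (hpos : ∀ i t, 0 ≤ φ i t)
    (hI : ∀ i, a i ≠ 0 → ∫ t in S, φ i t = I i) (hs : Summable fun i => ‖a i‖ * I i) :
    IntegrableOn (fun t => ∑' i, a i * (φ i t : ℂ)) S ∧
      ∫ t in S, ∑' i, a i * (φ i t : ℂ) = ∑' i, a i * (I i : ℂ) := by
  have h1 : ∀ i, Integrable (fun t => a i * (φ i t : ℂ)) (volume.restrict S) := by
    intro i
    by_cases h : a i = 0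
    · simp only [h, zero_mul]
      exact integrable_zero _ _ _
    · exact ((hφ i h).ofReal).const_mul (a i)
  have h2 : ∀ i, ∫ t in S, ‖a i * (φ i t : ℂ)‖ = ‖a i‖ * I i := by
    intro i
    by_cases h : a i = 0
    · simp [h]
    · rw [← hI i h, ← integral_const_mul]
      refine integral_congr_ae (Eventually.of_forall fun t => ?_)
      simp only [norm_mul, Complex.norm_real, Real.norm_of_nonneg (hpos i t)]
  have h3 : Summable fun i => ∫ t in S, ‖a i * (φ i t : ℂ)‖ := by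
    simp only [h2]
    exact hs
  refine ⟨integrable_tsum h1 h3, ?_⟩
  rw [← integral_tsum_of_summable_integral_norm h1 h3]
  refine tsum_congr fun i => ?_
  by_cases h : a i = 0
  · simp [h]
  · have e : ∫ t in S, ((φ i t : ℝ) : ℂ) = ((∫ t in S, φ i t : ℝ) : ℂ) := integral_ofReal
    rw [integral_const_mul, e, hI i h]

/-- integral over `(1, oo)` -/
theorem int1 {κ : ℝ} (hκ : 0 < κ) : IntegrableOn (fun t : ℝ => Real.exp (-(κ * t))) (Set.Ioi 1) ∧
    ∫ t in Set.Ioi (1 : ℝ), Real.exp (-(κ * t)) = Real.exp (-κ) / κ := by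
  have h1 := integrableOn_exp_mul_Ioi (a := -κ) (by linarith) 1
  have h2 := integral_exp_mul_Ioi (a := -κ) (by linarith) 1
  simp only [neg_mul, mul_one] at h1 h2
  refine ⟨h1, ?_⟩
  rw [h2, neg_div_neg_eq]

/-- integral over `(0, 1)` -/
theorem int0 {κ : ℝ} (hκ : 0 < κ) :
    IntegrableOn (fun t : ℝ => (t ^ 2)⁻¹ * Real.exp (-(κ * t⁻¹))) (Set.Ioc 0 1) ∧
    ∫ t in Set.Ioc (0 : ℝ) 1, (t ^ 2)⁻¹ * Real.exp (-(κ * t⁻¹)) = Real.exp (-κ) / κ := by
  have hbd : ∀ t : ℝ, 0 < t → (t ^ 2)⁻¹ * Real.exp (-(κ * t⁻¹)) ≤ 2 / κ ^ 2 := by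
    intro t ht
    have h1 : (κ * t⁻¹) ^ 2 / 2 ≤ Real.exp (κ * t⁻¹) := by
      have := Real.quadratic_le_exp_of_nonneg (x := κ * t⁻¹) (by positivity)
      have h0 : 0 ≤ κ * t⁻¹ := by positivity
      linarith
    rw [Real.exp_neg, ← div_eq_mul_inv, div_le_div_iff₀ (Real.exp_pos _) (by positivity)]
    have h2 : (t ^ 2)⁻¹ * κ ^ 2 = 2 * ((κ * t⁻¹) ^ 2 / 2) := by
      field_simp
    rw [h2]
    linarith
  have hmeas : Measurable (fun t : ℝ => (t ^ 2)⁻¹ * Real.exp (-(κ * t⁻¹))) := by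
    fun_prop
  have hint : IntegrableOn (fun t : ℝ => (t ^ 2)⁻¹ * Real.exp (-(κ * t⁻¹))) (Set.Ioc 0 1) := by
    refine Measure.integrableOn_of_bounded (M := 2 / κ ^ 2) (by simp)
      hmeas.aestronglyMeasurable ?_
    refine (ae_restrict_iff' measurableSet_Ioc).2 (Eventually.of_forall fun t ht => ?_)
    rw [Real.norm_of_nonneg (by have := ht.1; positivity)]
    exact hbd t ht.1
  refine ⟨hint, ?_⟩
  rw [← intervalIntegral.integral_of_le zero_le_one]
  have h1 := intervalIntegral.integral_eq_sub_of_hasDerivAt_of_tendsto (a := 0) (b := 1)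
    (f := fun t : ℝ => Real.exp (-(κ * t⁻¹)) / κ)
    (f' := fun t : ℝ => (t ^ 2)⁻¹ * Real.exp (-(κ * t⁻¹))) (fa := 0) (fb := Real.exp (-κ) / κ)
    zero_lt_one ?_ ?_ ?_ ?_
  · rw [h1, sub_zero]
  · intro t ht
    have ht0 : t ≠ 0 := ht.1.ne'
    have h2 : HasDerivAt (fun t : ℝ => -(κ * t⁻¹)) (-(κ * (-(t ^ 2)⁻¹))) t :=
      ((hasDerivAt_inv ht0).const_mul κ).neg
    have h3 := h2.exp.div_const κ
    have e : (t ^ 2)⁻¹ * Real.exp (-(κ * t⁻¹)) =
        Real.exp (-(κ * t⁻¹)) * -(κ * -(t ^ 2)⁻¹) / κ := by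
      rw [eq_div_iff hκ.ne']
      ring
    show HasDerivAt _ ((t ^ 2)⁻¹ * Real.exp (-(κ * t⁻¹))) t
    rw [e]
    exact h3
  · rw [intervalIntegrable_iff_integrableOn_Ioc_of_le zero_le_one]
    exact hint
  · have h2 : Tendsto (fun t : ℝ => κ * t⁻¹) (𝓝[>] 0) atTop :=
      tendsto_inv_nhdsGT_zero.const_mul_atTop hκ
    have h3 : Tendsto (fun t : ℝ => Real.exp (-(κ * t⁻¹))) (𝓝[>] 0) (𝓝 0) :=
      Real.tendsto_exp_neg_atTop_nhds_zero.comp h2
    simpa using h3.div_const κ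
  · have h2 : ContinuousAt (fun t : ℝ => Real.exp (-(κ * t⁻¹)) / κ) 1 := by
      have : ContinuousAt (fun t : ℝ => t⁻¹) 1 := continuousAt_inv₀ one_ne_zero
      fun_prop
    have h3 := h2.tendsto
    simp only [inv_one, mul_one] at h3
    exact h3.mono_left nhdsWithin_le_nhds

/-- the points `z + w` are `0` or bounded away from `0` -/
theorem sep (hLAT : St_LAT) (L : PeriodPair) (z : ℂ) : ∃ δ : ℝ, 0 < δ ∧
    ∀ w : L.lattice, z + w ≠ 0 → δ ≤ ‖z + w‖ := by
  obtain ⟨_, _, _, _, _, _, _, _, δ, hδ, hmin⟩ := hLAT L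
  by_cases h : ∃ w₀ : L.lattice, z + w₀ ≠ 0 ∧ ‖z + w₀‖ < δ / 2
  · obtain ⟨w₀, h0, h1⟩ := h
    refine ⟨‖z + w₀‖, norm_pos_iff.2 h0, fun w hw => ?_⟩
    by_cases hww : w = w₀
    · rw [hww]
    · have h2 := hmin ((w : ℂ) - w₀) (sub_mem w.2 w₀.2) (fun h => hww (Subtype.ext (sub_eq_zero.1 h)))
      have h3 : ‖(w : ℂ) - w₀‖ ≤ ‖z + w‖ + ‖z + w₀‖ := by
        have : (w : ℂ) - w₀ = (z + w) - (z + w₀) := by ring
        rw [this]
        exact norm_sub_le _ _
      linarith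
  · push Not at h
    exact ⟨δ / 2, by linarith, fun w hw => h w hw⟩

theorem key (hSUM : St_SUM) (hLAT : St_LAT) (hPOD : St_POD) (L : PeriodPair) (z : ℂ) :
    IntegrableOn (fun t : ℝ => ∑' w : L.lattice,
      conj (z + w) * (Real.exp (-(π / area L * t * ‖z + w‖ ^ 2)) : ℝ)) (Set.Ioi 0) ∧
    (∫ t in Set.Ioi (0 : ℝ), ∑' w : L.lattice,
      conj (z + w) * (Real.exp (-(π / area L * t * ‖z + w‖ ^ 2)) : ℝ)) =
        ee L z / (π / area L : ℝ) := by
  obtain ⟨hA, hpr, _, _, _, _, _, _, δ₀, hδ₀, hmin⟩ := hLAT L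
  obtain ⟨δ, hδ, hsep⟩ := sep hLAT L z
  set κ : ℝ := π / area L with hκ
  have hκ0 : 0 < κ := div_pos Real.pi_pos hA
  obtain ⟨u, hus, hu⟩ := hSUM L κ hκ0 0 ‖z‖
  have hu1 : ∀ w : L.lattice, Real.exp (-(κ * ‖z + w‖ ^ 2)) ≤ u w := by
    intro w
    have := (hu w z le_rfl).1
    rwa [pow_zero, one_mul] at this
  have hu2 : ∀ w : L.lattice, Real.exp (-(κ * ‖(w : ℂ)‖ ^ 2)) ≤ u w := by
    intro w
    have := (hu w z le_rfl).2
    rwa [pow_zero, one_mul] at this
  -- the part over (1, oo)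
  have P1 := absl (Set.Ioi (1 : ℝ)) (fun w : L.lattice => conj (z + w))
    (fun w t => Real.exp (-(κ * ‖z + w‖ ^ 2 * t)))
    (fun w => Real.exp (-(κ * ‖z + w‖ ^ 2)) / (κ * ‖z + w‖ ^ 2)) (by
      intro w hw
      have h0 : 0 < ‖z + w‖ := by
        rw [← RCLike.norm_conj]
        exact norm_pos_iff.2 hw
      exact (int1 (κ := κ * ‖z + w‖ ^ 2) (by positivity)).1) (by
      intro w t
      exact (Real.exp_pos _).le) (by
      intro w hw
      have h0 : 0 < ‖z + w‖ := by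
        rw [← RCLike.norm_conj]
        exact norm_pos_iff.2 hw
      exact (int1 (κ := κ * ‖z + w‖ ^ 2) (by positivity)).2) (by
      refine Summable.of_nonneg_of_le (fun w => by positivity) (fun w => ?_)
        (hus.mul_left (1 / (κ * δ)))
      rw [RCLike.norm_conj]
      by_cases h : z + (w : ℂ) = 0
      · rw [h, norm_zero, zero_mul]
        have := (Real.exp_pos _).le.trans (hu1 w)
        positivity
      · have h0 : 0 < ‖z + w‖ := norm_pos_iff.2 h
        have h1 := hsep w h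
        calc ‖z + w‖ * (Real.exp (-(κ * ‖z + w‖ ^ 2)) / (κ * ‖z + w‖ ^ 2))
            = (1 / (κ * ‖z + w‖)) * Real.exp (-(κ * ‖z + w‖ ^ 2)) := by
              field_simp
          _ ≤ (1 / (κ * δ)) * u w := by
              refine mul_le_mul ?_ (hu1 w) (Real.exp_pos _).le (by positivity)
              refine one_div_le_one_div_of_le (by positivity) ?_
              exact mul_le_mul_of_nonneg_left h1 hκ0.le)
  -- the part over (0, 1)
  have P0 := absl (Set.Ioc (0 : ℝ) 1) (fun w : L.lattice => -(conj (w : ℂ) * pr L w z))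
    (fun w t => (t ^ 2)⁻¹ * Real.exp (-(κ * ‖(w : ℂ)‖ ^ 2 * t⁻¹)))
    (fun w => Real.exp (-(κ * ‖(w : ℂ)‖ ^ 2)) / (κ * ‖(w : ℂ)‖ ^ 2)) (by
      intro w hw
      have h0 : 0 < ‖(w : ℂ)‖ := by
        rw [norm_pos_iff]
        rintro h
        exact hw (by rw [h]; simp)
      exact (int0 (κ := κ * ‖(w : ℂ)‖ ^ 2) (by positivity)).1) (by
      intro w t
      exact mul_nonneg (by positivity) (Real.exp_pos _).le) (by
      intro w hw
      have h0 : 0 < ‖(w : ℂ)‖ := by
        rw [norm_pos_iff]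
        rintro h
        exact hw (by rw [h]; simp)
      exact (int0 (κ := κ * ‖(w : ℂ)‖ ^ 2) (by positivity)).2) (by
      refine Summable.of_nonneg_of_le (fun w => by positivity) (fun w => ?_)
        (hus.mul_left (1 / (κ * δ₀)))
      rw [norm_neg, norm_mul, RCLike.norm_conj, hpr, mul_one]
      by_cases h : (w : ℂ) = 0
      · rw [h, norm_zero, zero_mul]
        have := (Real.exp_pos _).le.trans (hu1 w)
        positivity
      · have h0 : 0 < ‖(w : ℂ)‖ := norm_pos_iff.2 h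
        have h1 := hmin w w.2 h
        calc ‖(w : ℂ)‖ * (Real.exp (-(κ * ‖(w : ℂ)‖ ^ 2)) / (κ * ‖(w : ℂ)‖ ^ 2))
            = (1 / (κ * ‖(w : ℂ)‖)) * Real.exp (-(κ * ‖(w : ℂ)‖ ^ 2)) := by
              field_simp
          _ ≤ (1 / (κ * δ₀)) * u w := by
              refine mul_le_mul ?_ (hu2 w) (Real.exp_pos _).le (by positivity)
              refine one_div_le_one_div_of_le (by positivity) ?_
              exact mul_le_mul_of_nonneg_left h1 hκ0.le)
  -- the integrand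
  have e1 : ∀ t ∈ Set.Ioi (1 : ℝ), (∑' w : L.lattice, conj (z + w) *
      ((Real.exp (-(κ * ‖z + w‖ ^ 2 * t)) : ℝ) : ℂ)) = ∑' w : L.lattice,
      conj (z + w) * ((Real.exp (-(κ * t * ‖z + w‖ ^ 2)) : ℝ) : ℂ) := by
    intro t _
    refine tsum_congr fun w => ?_
    rw [mul_right_comm κ t]
  have e0 : ∀ t ∈ Set.Ioc (0 : ℝ) 1, (∑' w : L.lattice, -(conj (w : ℂ) * pr L w z) *
      (((t ^ 2)⁻¹ * Real.exp (-(κ * ‖(w : ℂ)‖ ^ 2 * t⁻¹)) : ℝ) : ℂ)) = ∑' w : L.lattice,
      conj (z + w) * ((Real.exp (-(κ * t * ‖z + w‖ ^ 2)) : ℝ) : ℂ) := by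
    intro t ht
    have ht0 : 0 < t := ht.1
    have h1 := hPOD L t⁻¹ (inv_pos.2 ht0) z
    have h2 : (∑' w : L.lattice, conj (z + w) *
        ((Real.exp (-(κ * t * ‖z + w‖ ^ 2)) : ℝ) : ℂ)) = ∑' w : L.lattice, conj (z + w) *
        (Real.exp (-(π * ‖z + w‖ ^ 2 / (area L * t⁻¹))) : ℝ) := by
      refine tsum_congr fun w => ?_
      congr 3
      rw [hκ]
      field_simp
    rw [h2, h1, ← tsum_mul_left]
    refine tsum_congr fun w => ?_
    have h3 : Real.exp (-(π * t⁻¹ * ‖(w : ℂ)‖ ^ 2 / area L)) =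
        Real.exp (-(κ * ‖(w : ℂ)‖ ^ 2 * t⁻¹)) := by
      congr 1
      rw [hκ]
      ring
    rw [h3]
    push_cast
    ring
  have i1 : IntegrableOn (fun t : ℝ => ∑' w : L.lattice,
      conj (z + w) * ((Real.exp (-(κ * t * ‖z + w‖ ^ 2)) : ℝ) : ℂ)) (Set.Ioi 1) :=
    P1.1.congr_fun e1 measurableSet_Ioi
  have i0 : IntegrableOn (fun t : ℝ => ∑' w : L.lattice,
      conj (z + w) * ((Real.exp (-(κ * t * ‖z + w‖ ^ 2)) : ℝ) : ℂ)) (Set.Ioc 0 1) :=
    P0.1.congr_fun e0 measurableSet_Ioc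
  have j1 := P1.2
  rw [setIntegral_congr_fun measurableSet_Ioi e1] at j1
  have j0 := P0.2
  rw [setIntegral_congr_fun measurableSet_Ioc e0] at j0
  have hun : Set.Ioi (0 : ℝ) = Set.Ioc 0 1 ∪ Set.Ioi 1 := (Set.Ioc_union_Ioi_eq_Ioi zero_le_one).symm
  refine ⟨?_, ?_⟩
  · rw [hun]
    exact i0.union i1
  · rw [hun, setIntegral_union (Set.Ioc_disjoint_Ioi le_rfl) measurableSet_Ioi i0 i1, j0, j1]
    unfold ee
    rw [sub_div, ← tsum_div_const, ← tsum_div_const, sub_eq_neg_add, ← tsum_neg]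
    congr 1
    · refine tsum_congr fun w => ?_
      by_cases h : (w : ℂ) = 0
      · rw [h]
        simp
      · have hex : Real.exp (-(π * ‖(w : ℂ)‖ ^ 2 / area L)) = Real.exp (-(κ * ‖(w : ℂ)‖ ^ 2)) := by
          congr 1
          rw [hκ]
          ring
        rw [hex]
        have hn : ((‖(w : ℂ)‖ : ℝ) : ℂ) ^ 2 = (w : ℂ) * conj (w : ℂ) := by
          rw [Complex.mul_conj, Complex.normSq_eq_norm_sq]
          push_cast
          ring
        have hc0 : conj (w : ℂ) ≠ 0 := by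
          rwa [Ne, map_eq_zero]
        have hκc : (κ : ℂ) ≠ 0 := by exact_mod_cast hκ0.ne'
        rw [Complex.ofReal_div, Complex.ofReal_mul, Complex.ofReal_pow, hn]
        field_simp
    · refine tsum_congr fun w => ?_
      by_cases h : z + (w : ℂ) = 0
      · rw [h]
        simp
      · have hex : Real.exp (-(π * ‖z + w‖ ^ 2 / area L)) = Real.exp (-(κ * ‖z + w‖ ^ 2)) := by
          congr 1
          rw [hκ]
          ring
        rw [hex]
        have hn : ((‖z + (w : ℂ)‖ : ℝ) : ℂ) ^ 2 = (z + (w : ℂ)) * conj (z + (w : ℂ)) := by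
          rw [Complex.mul_conj, Complex.normSq_eq_norm_sq]
          push_cast
          ring
        have hc0 : conj (z + (w : ℂ)) ≠ 0 := by
          rwa [Ne, map_eq_zero]
        have hκc : (κ : ℂ) ≠ 0 := by exact_mod_cast hκ0.ne'
        rw [Complex.ofReal_div, Complex.ofReal_mul, Complex.ofReal_pow, hn]
        field_simp

end INT45

open _root_.Pool.Agent.MU3B.INT45 in
/-- (INT) -/
theorem t_INT (hSUM : St_SUM) (hLAT : St_LAT) (hPOD : St_POD) (_ : St_PER) : St_INT := by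
  intro L c hc z
  obtain ⟨hA, _⟩ := hLAT L
  have hκ0 : 0 < π / area L := div_pos Real.pi_pos hA
  obtain ⟨h1, h2⟩ := key hSUM hLAT hPOD L z
  set H : ℝ → ℂ := fun s => ∑' w : L.lattice,
    conj (z + w) * (Real.exp (-(s * ‖z + w‖ ^ 2)) : ℝ) with hH
  have h3 : IntegrableOn (fun t => H (π / area L * t)) (Set.Ioi 0) := h1
  have h4 : ∫ t in Set.Ioi (0 : ℝ), H (π / area L * t) = ee L z / (π / area L : ℝ) := h2
  rw [integrableOn_Ioi_comp_mul_left_iff H 0 hκ0, mul_zero] at h3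
  rw [integral_comp_mul_left_Ioi H 0 hκ0, mul_zero] at h4
  have h5 : ∫ t in Set.Ioi (0 : ℝ), H t = ee L z := by
    have h6 : ((π / area L : ℝ) : ℂ) ≠ 0 := by exact_mod_cast hκ0.ne'
    have h7 : ∫ t in Set.Ioi (0 : ℝ), H t =
        (π / area L : ℝ) * ((π / area L)⁻¹ • ∫ t in Set.Ioi (0 : ℝ), H t) := by
      rw [Complex.real_smul, Complex.ofReal_inv, mul_inv_cancel_left₀ h6]
    rw [h7, h4, mul_div_cancel₀ _ h6]
  refine ⟨?_, ?_⟩
  · show IntegrableOn (fun t => H (c * t)) (Set.Ioi 0)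
    rw [integrableOn_Ioi_comp_mul_left_iff H 0 hc, mul_zero]
    exact h3
  · show ∫ t in Set.Ioi (0 : ℝ), H (c * t) = ee L z / c
    rw [integral_comp_mul_left_Ioi H 0 hc, mul_zero, h5, Complex.real_smul, Complex.ofReal_inv,
      div_eq_inv_mul]

end Pool.Agent.MU3B


end

section

/-!
# MU3, block B, module HOL: `e(z) + (π/A) conj z` is holomorphic outside the lattice
-/

set_option autoImplicit false

namespace Pool.Agent.MU3B

open Complex Real Filter Topology
open scoped ComplexConjugate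

namespace HOL

theorem gauss_fd (c : ℝ) (w z : ℂ) (h0 : z + w ≠ 0) : ∃ D : ℂ →L[ℝ] ℂ,
    HasFDerivAt (fun x : ℂ => ((Real.exp (-(c * ‖x + w‖ ^ 2)) : ℝ) : ℂ) / (x + w)) D z ∧
    ∀ h, D h = ((Real.exp (-(c * ‖z + w‖ ^ 2)) : ℝ) : ℂ) *
      (-(2 * c) * (((h * conj (z + w)).re : ℝ) : ℂ) / (z + w) - h / (z + w) ^ 2) := by
  have e1 : HasFDerivAt (fun x : ℂ => ‖x + w‖ ^ 2) ((2 : ℕ) • innerSL ℝ (z + w)) z := by
    have h1 := (hasStrictFDerivAt_norm_sq (F := ℂ) (z + w)).hasFDerivAt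
    have h2 : HasFDerivAt (fun x : ℂ => x + w) (ContinuousLinearMap.id ℝ ℂ) z :=
      (hasFDerivAt_id z).add_const w
    exact h1.comp z h2
  have e2 := ((e1.const_mul c).neg).exp
  have e3 := Complex.ofRealCLM.hasFDerivAt.comp z e2
  have e4 : HasFDerivAt (fun x : ℂ => (x + w)⁻¹)
      ((ContinuousLinearMap.toSpanSingleton ℂ (-((z + w) ^ 2)⁻¹)).restrictScalars ℝ) z := by
    have h1 : HasDerivAt (fun x : ℂ => (x + w)⁻¹) (-((z + w) ^ 2)⁻¹) z := by
      have := (hasDerivAt_inv h0).comp z ((hasDerivAt_id z).add_const w)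
      rw [mul_one] at this
      exact this
    exact h1.hasFDerivAt.restrictScalars ℝ
  refine ⟨_, (e3.mul e4), fun h => ?_⟩
  simp
  ring

theorem pr_fd (L : PeriodPair) (w z E : ℂ) : ∃ D : ℂ →L[ℝ] ℂ,
    HasFDerivAt (fun x : ℂ => pr L w x * E / w) D z ∧
    ∀ h, D h = ((π / area L : ℝ) : ℂ) * (conj w * h - w * conj h) * pr L w z * E / w := by
  have e1 : HasFDerivAt (fun x : ℂ => conj w * x - w * conj x)
      (conj w • ContinuousLinearMap.id ℝ ℂ - w • (Complex.conjCLE : ℂ →L[ℝ] ℂ)) z :=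
    ((hasFDerivAt_id z).const_mul (conj w)).sub
      ((Complex.conjCLE.hasFDerivAt).const_mul w)
  have e2 := (e1.const_mul ((π / area L : ℝ) : ℂ)).cexp
  have e3 := (e2.mul_const E).mul_const w⁻¹
  refine ⟨_, e3, fun h => ?_⟩
  unfold pr
  simp
  ring

end HOL

open _root_.Pool.Agent.MU3B.HOL in
theorem t_HOL (hSUM : St_SUM) (hLAT : St_LAT) (hPOI : St_POI) : St_HOL := by
  intro L z₀ hz₀
  obtain ⟨hA, hn, -⟩ := hLAT L
  obtain ⟨c, hc⟩ : ∃ c : ℝ, c = π / area L := ⟨_, rfl⟩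
  have hc0 : 0 < c := by rw [hc]; positivity
  obtain ⟨ρ, hρ, hball⟩ := Metric.isOpen_iff.1 L.isClosed_lattice.isOpen_compl z₀ hz₀
  have hlow : ∀ x ∈ Metric.ball z₀ (ρ / 2), ∀ w : L.lattice, ρ / 2 ≤ ‖x + w‖ := by
    intro x hx w
    have h1 : ρ ≤ dist (-(w : ℂ)) z₀ := by
      by_contra h
      exact hball (Metric.mem_ball.2 (not_le.1 h)) (neg_mem w.2)
    have h2 : dist x z₀ < ρ / 2 := hx
    have h3 : ‖x + w‖ = dist x (-(w : ℂ)) := by rw [dist_eq_norm, sub_neg_eq_add]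
    have h4 := dist_triangle (-(w : ℂ)) x z₀
    rw [h3, dist_comm]
    linarith
  have hne : ∀ x ∈ Metric.ball z₀ (ρ / 2), ∀ w : L.lattice, x + (w : ℂ) ≠ 0 := by
    intro x hx w h
    have := hlow x hx w
    rw [h, norm_zero] at this
    linarith
  have hR : ∀ x ∈ Metric.ball z₀ (ρ / 2), ‖x‖ ≤ ‖z₀‖ + ρ := by
    intro x hx
    have h2 : ‖x - z₀‖ < ρ / 2 := mem_ball_iff_norm.1 hx
    have h3 : ‖x‖ ≤ ‖x - z₀‖ + ‖z₀‖ := by
      have := norm_add_le (x - z₀) z₀
      rwa [sub_add_cancel] at this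
    linarith
  obtain ⟨u, hu, hb⟩ := hSUM L c hc0 0 (‖z₀‖ + ρ)
  simp only [pow_zero, one_mul] at hb
  have hz0 : z₀ ∈ Metric.ball z₀ (ρ / 2) := Metric.mem_ball_self (by positivity)
  -- first family
  choose! D hD hDf using fun (w : L.lattice) (z : ℂ) (h0 : z + (w : ℂ) ≠ 0) =>
    gauss_fd c w z h0
  choose P hP hPf using fun (w : L.lattice) (z : ℂ) =>
    pr_fd L w z ((Real.exp (-(c * ‖(w : ℂ)‖ ^ 2)) : ℝ) : ℂ)
  have hDn : ∀ (w : L.lattice), ∀ x ∈ Metric.ball z₀ (ρ / 2),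
      ‖D w x‖ ≤ (2 * c + (2 / ρ) ^ 2) * u w := by
    intro w x hx
    have h1 := (hb w x (hR x hx)).1
    have h2 := hlow x hx w
    have h3 : 0 < ‖x + w‖ := by linarith
    have hE := Real.exp_pos (-(c * ‖x + (w : ℂ)‖ ^ 2))
    refine ContinuousLinearMap.opNorm_le_bound _
      (mul_nonneg (by positivity) (hE.le.trans h1)) fun h => ?_
    rw [hDf w x (hne x hx w), norm_mul, Complex.norm_real, Real.norm_eq_abs, abs_of_pos hE]
    have h4 : ‖-(2 * (c : ℂ)) * (((h * conj (x + w)).re : ℝ) : ℂ) / (x + w) - h / (x + w) ^ 2‖ ≤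
        (2 * c + (2 / ρ) ^ 2) * ‖h‖ := by
      refine (norm_sub_le _ _).trans ?_
      have h5 : ‖-(2 * (c : ℂ)) * (((h * conj (x + w)).re : ℝ) : ℂ) / (x + w)‖ ≤
          2 * c * ‖h‖ := by
        rw [norm_div, norm_mul, norm_neg, Complex.norm_real, Real.norm_eq_abs, div_le_iff₀ h3]
        have h6 : |(h * conj (x + w)).re| ≤ ‖h‖ * ‖x + w‖ := by
          refine (Complex.abs_re_le_norm _).trans ?_
          rw [norm_mul, Complex.norm_conj]
        have h7 : ‖(2 * (c : ℂ))‖ = 2 * c := by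
          rw [norm_mul, Complex.norm_real, Real.norm_eq_abs, abs_of_pos hc0, Complex.norm_two]
        rw [h7, mul_assoc (2 * c)]
        exact mul_le_mul_of_nonneg_left h6 (by positivity)
      have h8 : ‖h / (x + w) ^ 2‖ ≤ (2 / ρ) ^ 2 * ‖h‖ := by
        rw [norm_div, norm_pow, div_eq_mul_inv, mul_comm, ← inv_pow]
        refine mul_le_mul_of_nonneg_right ?_ (norm_nonneg _)
        refine pow_le_pow_left₀ (by positivity) ?_ 2
        rw [← inv_div]
        exact inv_anti₀ (by positivity) h2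
      linarith
    calc Real.exp (-(c * ‖x + (w : ℂ)‖ ^ 2)) *
          ‖-(2 * (c : ℂ)) * (((h * conj (x + w)).re : ℝ) : ℂ) / (x + w) - h / (x + w) ^ 2‖
        ≤ u w * ((2 * c + (2 / ρ) ^ 2) * ‖h‖) :=
          mul_le_mul h1 h4 (norm_nonneg _) (hE.le.trans h1)
      _ = _ := by ring
  have hPn : ∀ (w : L.lattice), ∀ x ∈ Metric.ball z₀ (ρ / 2), ‖P w x‖ ≤ 2 * c * u w := by
    intro w x hx
    have h1 := (hb w x (hR x hx)).2
    have hE := Real.exp_pos (-(c * ‖(w : ℂ)‖ ^ 2))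
    refine ContinuousLinearMap.opNorm_le_bound _
      (mul_nonneg (by positivity) (hE.le.trans h1)) fun h => ?_
    rw [hPf, ← hc]
    by_cases hw : (w : ℂ) = 0
    · rw [hw, div_zero, norm_zero]
      exact mul_nonneg (mul_nonneg (by positivity) (hE.le.trans h1)) (norm_nonneg _)
    have hw' : 0 < ‖(w : ℂ)‖ := norm_pos_iff.2 hw
    rw [norm_div, norm_mul, norm_mul, norm_mul, hn, mul_one, Complex.norm_real,
      Complex.norm_real, Real.norm_eq_abs, Real.norm_eq_abs, abs_of_pos hE, abs_of_pos hc0,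
      div_le_iff₀ hw']
    have h2 : ‖conj (w : ℂ) * h - w * conj h‖ ≤ 2 * ‖h‖ * ‖(w : ℂ)‖ := by
      refine (norm_sub_le _ _).trans ?_
      rw [norm_mul, norm_mul, Complex.norm_conj, Complex.norm_conj]
      linarith
    calc c * ‖conj (w : ℂ) * h - w * conj h‖ * Real.exp (-(c * ‖(w : ℂ)‖ ^ 2))
        ≤ c * (2 * ‖h‖ * ‖(w : ℂ)‖) * u w :=
          mul_le_mul (mul_le_mul_of_nonneg_left h2 hc0.le) h1 hE.le (by positivity)
      _ = _ := by ring
  have hs1 : Summable (fun w : L.lattice =>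
      ((Real.exp (-(c * ‖z₀ + (w : ℂ)‖ ^ 2)) : ℝ) : ℂ) / (z₀ + w)) := by
    refine Summable.of_norm_bounded (hu.mul_left (2 / ρ)) fun w => ?_
    have h1 := (hb w z₀ (hR z₀ hz0)).1
    have h2 := hlow z₀ hz0 w
    rw [norm_div, Complex.norm_real, Real.norm_eq_abs, abs_of_pos (Real.exp_pos _),
      div_eq_mul_inv, mul_comm]
    refine mul_le_mul ?_ h1 (Real.exp_pos _).le (by positivity)
    rw [← inv_div]
    exact inv_anti₀ (by positivity) h2
  obtain ⟨-, -, -, -, -, -, -, -, δ, hδ, hδL⟩ := hLAT L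
  have hs2 : Summable (fun w : L.lattice =>
      pr L w z₀ * ((Real.exp (-(c * ‖(w : ℂ)‖ ^ 2)) : ℝ) : ℂ) / (w : ℂ)) := by
    refine Summable.of_norm_bounded (hu.mul_left (1 / δ)) fun w => ?_
    have h1 := (hb w z₀ (hR z₀ hz0)).2
    have hE := Real.exp_pos (-(c * ‖(w : ℂ)‖ ^ 2))
    by_cases hw : (w : ℂ) = 0
    · rw [hw, div_zero, norm_zero]
      rw [hw] at h1 hE
      exact mul_nonneg (by positivity) (hE.le.trans h1)
    have h2 := hδL w w.2 hw
    rw [norm_div, norm_mul, hn, one_mul, Complex.norm_real, Real.norm_eq_abs, abs_of_pos hE,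
      div_eq_mul_inv, mul_comm]
    refine mul_le_mul ?_ h1 hE.le (by positivity)
    rw [one_div]
    exact inv_anti₀ hδ h2
  have hS : IsPreconnected (Metric.ball z₀ (ρ / 2)) := (convex_ball z₀ _).isPreconnected
  have F1 := hasFDerivAt_tsum_of_isPreconnected (hu.mul_left (2 * c + (2 / ρ) ^ 2))
    Metric.isOpen_ball hS (fun w x hx => hD w x (hne x hx w)) hDn hz0 hs1 hz0
  have F2 := hasFDerivAt_tsum_of_isPreconnected (hu.mul_left (2 * c))
    Metric.isOpen_ball hS (fun w x _ => hP w x) hPn hz0 hs2 hz0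
  have F3 : HasFDerivAt (fun x : ℂ => (c : ℂ) * conj x) ((c : ℂ) • (Complex.conjCLE : ℂ →L[ℝ] ℂ))
      z₀ := (Complex.conjCLE.hasFDerivAt).const_mul (c : ℂ)
  have F := (F1.sub F2).add F3
  have hzet : zet L = fun x : ℂ => ((∑' w : L.lattice,
      ((Real.exp (-(c * ‖x + (w : ℂ)‖ ^ 2)) : ℝ) : ℂ) / (x + w)) -
      ∑' w : L.lattice, pr L w x * ((Real.exp (-(c * ‖(w : ℂ)‖ ^ 2)) : ℝ) : ℂ) / (w : ℂ)) +
      (c : ℂ) * conj x := by
    funext x
    have e1 : ∀ y : ℝ, π * y / area L = c * y := fun y => by rw [hc]; ring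
    unfold zet ee
    simp only [e1, ← hc]
  have sD : Summable (fun w : L.lattice => D w z₀) :=
    Summable.of_norm_bounded (hu.mul_left _) fun w => hDn w z₀ hz0
  have sP : Summable (fun w : L.lattice => P w z₀) :=
    Summable.of_norm_bounded (hu.mul_left _) fun w => hPn w z₀ hz0
  have tD : ∀ h : ℂ, (∑' w : L.lattice, D w z₀) h = ∑' w : L.lattice, D w z₀ h := fun h =>
    (ContinuousLinearMap.apply ℝ ℂ h).map_tsum sD
  have tP : ∀ h : ℂ, (∑' w : L.lattice, P w z₀) h = ∑' w : L.lattice, P w z₀ h := fun h =>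
    (ContinuousLinearMap.apply ℝ ℂ h).map_tsum sP
  have sDh : ∀ h : ℂ, Summable (fun w : L.lattice => D w z₀ h) := fun h =>
    (ContinuousLinearMap.apply ℝ ℂ h).summable sD
  have sPh : ∀ h : ℂ, Summable (fun w : L.lattice => P w z₀ h) := fun h =>
    (ContinuousLinearMap.apply ℝ ℂ h).summable sP
  have kD : (∑' w : L.lattice, D w z₀ I) - I * (∑' w : L.lattice, D w z₀ 1) =
      2 * c * I * ((Gs L 1 z₀ : ℝ) : ℂ) := by
    have e1 : ((Gs L 1 z₀ : ℝ) : ℂ) =
        ∑' w : L.lattice, ((Real.exp (-(c * ‖z₀ + (w : ℂ)‖ ^ 2)) : ℝ) : ℂ) := by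
      have e2 : ∀ y : ℝ, π * y / (area L * 1) = c * y := fun y => by rw [hc]; ring
      unfold Gs
      simp only [e2]
      exact Complex.ofReal_tsum _
    rw [e1, ← tsum_mul_left, ← tsum_mul_left, ← (sDh I).tsum_sub ((sDh 1).mul_left I)]
    refine tsum_congr fun w => ?_
    have hx := hne z₀ hz0 w
    rw [hDf w z₀ hx, hDf w z₀ hx]
    have e3 : ∀ y : ℂ, (((I * conj y).re : ℝ) : ℂ) = I * (((1 * conj y).re : ℝ) : ℂ) -
        I * y := by
      intro y
      apply Complex.ext <;> simp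
    rw [e3]
    generalize (((1 * conj (z₀ + (w : ℂ))).re : ℝ) : ℂ) = r at *
    generalize ((Real.exp (-(c * ‖z₀ + (w : ℂ)‖ ^ 2)) : ℝ) : ℂ) = E at *
    generalize z₀ + (w : ℂ) = y at *
    field_simp
    ring
  have kP : (∑' w : L.lattice, P w z₀ I) - I * (∑' w : L.lattice, P w z₀ 1) =
      2 * c * I * (Th L 1 z₀ - 1) := by
    have e2 : ∀ y : ℝ, π * 1 * y / area L = c * y := fun y => by rw [hc]; ring
    have hsT : Summable (fun w : L.lattice =>
        pr L w z₀ * ((Real.exp (-(c * ‖(w : ℂ)‖ ^ 2)) : ℝ) : ℂ)) := by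
      refine Summable.of_norm_bounded hu fun w => ?_
      rw [norm_mul, hn, one_mul, Complex.norm_real, Real.norm_eq_abs,
        abs_of_pos (Real.exp_pos _)]
      exact (hb w z₀ (hR z₀ hz0)).2
    have e1 : Th L 1 z₀ - 1 = ∑' w : L.lattice, (if w = 0 then 0 else
        pr L w z₀ * ((Real.exp (-(c * ‖(w : ℂ)‖ ^ 2)) : ℝ) : ℂ)) := by
      unfold Th
      simp only [e2]
      rw [hsT.tsum_eq_add_tsum_ite 0]
      have e3 : pr L ((0 : L.lattice) : ℂ) z₀ *
          ((Real.exp (-(c * ‖((0 : L.lattice) : ℂ)‖ ^ 2)) : ℝ) : ℂ) = 1 := by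
        unfold pr
        simp
      rw [e3, add_sub_cancel_left]
    rw [e1, ← tsum_mul_left, ← tsum_mul_left, ← (sPh I).tsum_sub ((sPh 1).mul_left I)]
    refine tsum_congr fun w => ?_
    rw [hPf, hPf, ← hc]
    by_cases hw : w = 0
    · rw [if_pos hw, hw]
      simp
    · have hw' : (w : ℂ) ≠ 0 := fun h => hw (Subtype.ext h)
      rw [if_neg hw, Complex.conj_I, map_one]
      field_simp
      ring_nf
  have hfin : ((∑' w : L.lattice, D w z₀) - (∑' w : L.lattice, P w z₀) +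
      (c : ℂ) • (Complex.conjCLE : ℂ →L[ℝ] ℂ)) I =
      I • ((∑' w : L.lattice, D w z₀) - (∑' w : L.lattice, P w z₀) +
      (c : ℂ) • (Complex.conjCLE : ℂ →L[ℝ] ℂ)) 1 := by
    have e1 : ∀ h : ℂ, ((∑' w : L.lattice, D w z₀) - (∑' w : L.lattice, P w z₀) +
      (c : ℂ) • (Complex.conjCLE : ℂ →L[ℝ] ℂ)) h = (∑' w : L.lattice, D w z₀ h) -
        (∑' w : L.lattice, P w z₀ h) + c * conj h := by
      intro h
      rw [← tD, ← tP]
      rfl
    rw [e1, e1, smul_eq_mul, Complex.conj_I, map_one]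
    have e2 := hPOI L 1 one_pos z₀
    rw [Complex.ofReal_one, one_mul] at e2
    rw [e2] at kD
    linear_combination kD - kP
  rw [hzet]
  exact (F.complexOfReal_hasFDerivAt hfin).differentiableAt

end Pool.Agent.MU3B


end

section

/-!
# MU3, block B: duplication formula
-/

set_option autoImplicit false

namespace Pool.Agent.MU3B

open Complex Real Filter Topology
open scoped ComplexConjugate

namespace DUP

theorem hasDerivAt_P (L : PeriodPair) {z : ℂ} (hz : z ∉ L.lattice) :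
    HasDerivAt L.weierstrassP (L.derivWeierstrassP z) z := by
  have h := (L.differentiableOn_weierstrassP.differentiableAt
    (L.isClosed_lattice.isOpen_compl.mem_nhds hz)).hasDerivAt
  rwa [L.deriv_weierstrassP] at h

theorem contAt_P' (L : PeriodPair) {z : ℂ} (hz : z ∉ L.lattice) :
    ContinuousAt L.derivWeierstrassP z :=
  (L.differentiableOn_derivWeierstrassP.differentiableAt
    (L.isClosed_lattice.isOpen_compl.mem_nhds hz)).continuousAt

end DUP

open _root_.Pool.Agent.MU3B.DUP in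
theorem t_DUP (hADD : St_ADD) (hP2 : St_P2) (hZER : St_ZER) : St_DUP := by
  intro L z hz2
  have hz : z ∉ L.lattice := by
    intro h
    apply hz2
    rw [two_mul]
    exact L.lattice.add_mem h h
  have hP'0 : L.derivWeierstrassP z ≠ 0 := fun h => hz2 ((hZER L z hz).1 h)
  have hd := hasDerivAt_P L hz
  have hd2 := hP2 L z hz
  -- the slope
  have hs1 := hd.tendsto_slope
  have hs2 := hd2.tendsto_slope
  have hM : Tendsto (fun Q : ℂ => (L.derivWeierstrassP z - L.derivWeierstrassP Q) /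
      (2 * (L.weierstrassP z - L.weierstrassP Q))) (𝓝[≠] z)
      (𝓝 ((6 * L.weierstrassP z ^ 2 - L.g₂ / 2) / (2 * L.derivWeierstrassP z))) := by
    have h := hs2.div (hs1.const_mul 2) (mul_ne_zero two_ne_zero hP'0)
    refine h.congr' ?_
    filter_upwards [self_mem_nhdsWithin] with Q hQ
    have hne : Q - z ≠ 0 := sub_ne_zero.2 hQ
    show slope L.derivWeierstrassP z Q / (2 * slope L.weierstrassP z Q) = _
    rw [slope_def_field, slope_def_field, ← mul_div_assoc, div_div_div_cancel_right₀ hne]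
    rw [← neg_sub (L.derivWeierstrassP Q), ← neg_sub (L.weierstrassP Q), mul_neg, neg_div_neg_eq]
  have hid : Tendsto (fun Q : ℂ => Q) (𝓝[≠] z) (𝓝 z) := nhdsWithin_le_nhds
  have hadd : Tendsto (fun Q : ℂ => z + Q) (𝓝[≠] z) (𝓝 (2 * z)) := by
    rw [two_mul]
    exact tendsto_const_nhds.add hid
  have hPQ : Tendsto (fun Q : ℂ => L.weierstrassP Q) (𝓝[≠] z) (𝓝 (L.weierstrassP z)) :=
    hd.continuousAt.tendsto.comp hid
  have hPa : Tendsto (fun Q : ℂ => L.weierstrassP (z + Q)) (𝓝[≠] z) (𝓝 (L.weierstrassP (2 * z))) :=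
    (hasDerivAt_P L hz2).continuousAt.tendsto.comp hadd
  have hP'a : Tendsto (fun Q : ℂ => L.derivWeierstrassP (z + Q)) (𝓝[≠] z)
      (𝓝 (L.derivWeierstrassP (2 * z))) := (contAt_P' L hz2).tendsto.comp hadd
  -- the conditions of the addition theorem hold near `z`
  have c1 : ∀ᶠ Q in 𝓝[≠] z, Q ∉ L.lattice :=
    hid (L.isClosed_lattice.isOpen_compl.mem_nhds hz)
  have c2 : ∀ᶠ Q in 𝓝[≠] z, z + Q ∉ L.lattice :=
    hadd (L.isClosed_lattice.isOpen_compl.mem_nhds hz2)
  have c3 : ∀ᶠ Q in 𝓝[≠] z, z - Q ∉ L.lattice := by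
    have h1 := L.compl_lattice_sdiff_singleton_mem_nhds 0
    have h2 : Tendsto (fun Q : ℂ => z - Q) (𝓝[≠] z) (𝓝 0) := by
      have := (tendsto_const_nhds (x := z)).sub hid
      rwa [sub_self] at this
    filter_upwards [h2 h1, self_mem_nhdsWithin] with Q hQ hne hm
    apply hQ
    refine ⟨hm, fun h3 => hne ?_⟩
    have h4 : z - Q = 0 := h3
    exact (sub_eq_zero.1 h4).symm
  constructor
  · have t1 : Tendsto (fun Q : ℂ => L.weierstrassP (z + Q) + L.weierstrassP z + L.weierstrassP Q)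
        (𝓝[≠] z) (𝓝 (L.weierstrassP (2 * z) + L.weierstrassP z + L.weierstrassP z)) :=
      (hPa.add tendsto_const_nhds).add hPQ
    have t2 := hM.pow 2
    have t3 := t2.congr' (f₂ := fun Q : ℂ =>
      L.weierstrassP (z + Q) + L.weierstrassP z + L.weierstrassP Q) (by
      filter_upwards [c1, c2, c3] with Q h1 h2 h3
      exact (hADD L Q z h1 hz h2 h3).1.symm)
    have := tendsto_nhds_unique t1 t3
    rw [← this]
    ring
  · have t1 : Tendsto (fun Q : ℂ => L.derivWeierstrassP (z + Q) + L.derivWeierstrassP z)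
        (𝓝[≠] z) (𝓝 (L.derivWeierstrassP (2 * z) + L.derivWeierstrassP z)) :=
      hP'a.add tendsto_const_nhds
    have t2 := ((hM.const_mul (-2)).mul (hPa.sub (tendsto_const_nhds (x := L.weierstrassP z))))
    have t3 := t2.congr' (f₂ := fun Q : ℂ =>
      L.derivWeierstrassP (z + Q) + L.derivWeierstrassP z) (by
      filter_upwards [c1, c2, c3] with Q h1 h2 h3
      exact (hADD L Q z h1 hz h2 h3).2.symm)
    exact tendsto_nhds_unique t1 t3

end Pool.Agent.MU3B


end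

section

/-!
# MU3, block B, module DIS: distribution relation of `e`
-/

set_option autoImplicit false

namespace Pool.Agent.MU3B

open Complex Real Filter Topology
open scoped ComplexConjugate

namespace DIS

/-- decomposition of a sum over `L` by the classes of `a⁻¹ L / L` -/
theorem sum_reps {L : PeriodPair} {a : ℂ} {R : Finset ℂ} (ha : a ≠ 0)
    (haL : ∀ w ∈ L.lattice, a * w ∈ L.lattice) (hR : IsReps L a R) (F : ℂ → ℂ)
    (hF : Summable (fun u : L.lattice => F u)) :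
    (∑' w : L.lattice, F (a * w)) + ∑ q ∈ R, ∑' w : L.lattice, F (a * (q + w)) =
      ∑' u : L.lattice, F u := by
  classical
  have h0 : (0 : ℂ) ∉ R := fun h => hR.ne 0 h (zero_mem _)
  have hmem : ∀ q ∈ insert (0 : ℂ) R, a * q ∈ L.lattice := by
    intro q hq
    rcases Finset.mem_insert.1 hq with rfl | h
    · rw [mul_zero]; exact zero_mem _
    · exact hR.mem q h
  have hinj : ∀ q ∈ insert (0 : ℂ) R, ∀ q' ∈ insert (0 : ℂ) R, q - q' ∈ L.lattice → q = q' := by
    intro q hq q' hq' h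
    rcases Finset.mem_insert.1 hq with rfl | h1
    · rcases Finset.mem_insert.1 hq' with rfl | h2
      · rfl
      · rw [zero_sub] at h
        exact absurd (neg_mem_iff.1 h) (hR.ne q' h2)
    · rcases Finset.mem_insert.1 hq' with rfl | h2
      · rw [sub_zero] at h
        exact absurd h (hR.ne q h1)
      · exact hR.inj q h1 q' h2 h
  let f : (insert (0 : ℂ) R : Finset ℂ) × L.lattice → L.lattice := fun x =>
    ⟨a * ((x.1 : ℂ) + x.2), by
      rw [mul_add]; exact add_mem (hmem _ x.1.2) (haL _ x.2.2)⟩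
  have hf : Function.Bijective f := by
    constructor
    · rintro ⟨⟨q, hq⟩, ⟨w, hw⟩⟩ ⟨⟨q', hq'⟩, ⟨w', hw'⟩⟩ h
      have h1 : a * (q + w) = a * (q' + w') := congrArg Subtype.val h
      have h2 : q + w = q' + w' := mul_left_cancel₀ ha h1
      have h3 : q - q' = w' - w := by linear_combination h2
      have h4 : q = q' := hinj q hq q' hq' (by rw [h3]; exact sub_mem hw' hw)
      subst h4
      have h5 : w = w' := add_left_cancel h2
      subst h5
      rfl
    · rintro ⟨u, hu⟩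
      have e1 : a * (u / a) = u := mul_div_cancel₀ _ ha
      by_cases h : u / a ∈ L.lattice
      · refine ⟨(⟨0, Finset.mem_insert_self _ _⟩, ⟨u / a, h⟩), Subtype.ext ?_⟩
        change a * (0 + u / a) = u
        rw [zero_add, e1]
      · obtain ⟨q, hq, h1⟩ := hR.surj (u / a) (by rw [e1]; exact hu) h
        refine ⟨(⟨q, Finset.mem_insert_of_mem hq⟩, ⟨u / a - q, h1⟩), Subtype.ext ?_⟩
        change a * (q + (u / a - q)) = u
        rw [add_sub_cancel, e1]
  have h1 : ∑' u : L.lattice, F u =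
      ∑' x : (insert (0 : ℂ) R : Finset ℂ) × L.lattice, F (a * ((x.1 : ℂ) + x.2)) :=
    ((Equiv.ofBijective f hf).tsum_eq (fun u : L.lattice => F u)).symm
  have h2 : Summable (fun x : (insert (0 : ℂ) R : Finset ℂ) × L.lattice =>
      F (a * ((x.1 : ℂ) + x.2))) := (Equiv.ofBijective f hf).summable_iff.2 hF
  have h3 : ∑' x : (insert (0 : ℂ) R : Finset ℂ) × L.lattice, F (a * ((x.1 : ℂ) + x.2)) =
      ∑ q ∈ insert (0 : ℂ) R, ∑' w : L.lattice, F (a * (q + w)) := by
    rw [h2.tsum_prod, ← Finset.sum_coe_sort (insert (0 : ℂ) R)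
      (fun q => ∑' w : L.lattice, F (a * (q + w)))]
    exact tsum_fintype (fun q : (insert (0 : ℂ) R : Finset ℂ) =>
      ∑' w : L.lattice, F (a * ((q : ℂ) + w)))
  rw [h1, h3, Finset.sum_insert h0]
  simp only [zero_add]

end DIS

open _root_.Pool.Agent.MU3B.DIS in
theorem t_DIS (hSUM : St_SUM) (hINT : St_INT) : St_DIS := by
  intro L a R ha haL hR z
  have hna : 0 < ‖a‖ := norm_pos_iff.2 ha
  have hc : 0 < 1 / ‖a‖ ^ 2 := by positivity
  have hca : conj a ≠ 0 := (map_ne_zero _).2 ha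
  have key : ∀ t : ℝ, 0 < t →
      (∑' w : L.lattice, conj (z + w) * ((Real.exp (-(1 * t * ‖z + w‖ ^ 2)) : ℝ) : ℂ)) +
        ∑ q ∈ R, (∑' w : L.lattice,
          conj (z + q + w) * ((Real.exp (-(1 * t * ‖z + q + w‖ ^ 2)) : ℝ) : ℂ)) =
      (conj a)⁻¹ * ∑' w : L.lattice,
        conj (a * z + w) * ((Real.exp (-(1 / ‖a‖ ^ 2 * t * ‖a * z + w‖ ^ 2)) : ℝ) : ℂ) := by
    intro t ht
    obtain ⟨u, hu, hb⟩ := hSUM L (1 / ‖a‖ ^ 2 * t) (by positivity) 1 ‖a * z‖
    have hs : Summable (fun w : L.lattice => conj (a * z + w) *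
        ((Real.exp (-(1 / ‖a‖ ^ 2 * t * ‖a * z + w‖ ^ 2)) : ℝ) : ℂ)) := by
      refine Summable.of_norm_bounded hu fun w => ?_
      have h1 := (hb w (a * z) le_rfl).1
      rw [pow_one] at h1
      rw [norm_mul, Complex.norm_conj, Complex.norm_real, Real.norm_eq_abs,
        abs_of_pos (Real.exp_pos _)]
      refine le_trans (mul_le_mul_of_nonneg_right ?_ (Real.exp_pos _).le) h1
      linarith
    have h2 := sum_reps ha haL hR (fun u : ℂ => conj (a * z + u) *
        ((Real.exp (-(1 / ‖a‖ ^ 2 * t * ‖a * z + u‖ ^ 2)) : ℝ) : ℂ)) hs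
    have h3 : ∀ x : ℂ, conj (a * z + a * x) *
        ((Real.exp (-(1 / ‖a‖ ^ 2 * t * ‖a * z + a * x‖ ^ 2)) : ℝ) : ℂ) =
        conj a * (conj (z + x) * ((Real.exp (-(1 * t * ‖z + x‖ ^ 2)) : ℝ) : ℂ)) := by
      intro x
      rw [← mul_add, map_mul, norm_mul]
      have h4 : 1 / ‖a‖ ^ 2 * t * (‖a‖ * ‖z + x‖) ^ 2 = 1 * t * ‖z + x‖ ^ 2 := by
        field_simp
      rw [h4]
      ring
    simp only [h3] at h2
    rw [← h2, tsum_mul_left, mul_add, inv_mul_cancel_left₀ hca, Finset.mul_sum]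
    congr 1
    refine Finset.sum_congr rfl fun q _ => ?_
    rw [tsum_mul_left, inv_mul_cancel_left₀ hca]
    simp only [add_assoc]
  have hI0 := hINT L 1 one_pos z
  have hIq := fun q => hINT L 1 one_pos (z + q)
  have hIa := hINT L (1 / ‖a‖ ^ 2) hc (a * z)
  have h1 : ee L z / ((1 : ℝ) : ℂ) + ∑ q ∈ R, ee L (z + q) / ((1 : ℝ) : ℂ) =
      (conj a)⁻¹ * (ee L (a * z) / ((1 / ‖a‖ ^ 2 : ℝ) : ℂ)) := by
    rw [← hI0.2, ← hIa.2, Finset.sum_congr rfl (fun q _ => (hIq q).2.symm),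
      ← MeasureTheory.integral_finset_sum _ (fun q _ => (hIq q).1),
      ← MeasureTheory.integral_add hI0.1 (MeasureTheory.integrable_finset_sum _
        (fun q _ => (hIq q).1)), ← MeasureTheory.integral_const_mul]
    exact MeasureTheory.setIntegral_congr_fun measurableSet_Ioi fun t ht => key t ht
  simp only [Complex.ofReal_one, div_one] at h1
  rw [h1]
  have h2 : a * conj a = ((‖a‖ ^ 2 : ℝ) : ℂ) := by
    rw [Complex.mul_conj']
    push_cast
    rfl
  have h3 : ((1 / ‖a‖ ^ 2 : ℝ) : ℂ) = (a * conj a)⁻¹ := by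
    rw [h2, one_div, Complex.ofReal_inv]
  rw [h3]
  field_simp

end Pool.Agent.MU3B


end
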