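import Mathlib
import Pool.Agent.MVF.C003
import Pool.Agent.MVF.C011

/-! Parts: MU3.B_NUM, MU3.B_REP, RI.BCH, RI.INF -/

namespace Pool.Agent.MU3B.NUM
end Pool.Agent.MU3B.NUM

section

/-!
# MU3, block B, module NUM: `a⁻¹ L / L` has `|a|²` elements
-/

set_option autoImplicit false

namespace Pool.Agent.MU3B

open Complex Real Filter Topology
open scoped ComplexConjugate

namespace NUM

/-- multiplication by `a` on the lattice -/
noncomputable def mulL (L : PeriodPair) (a : ℂ) (haL : ∀ w ∈ L.lattice, a * w ∈ L.lattice) :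
    L.lattice →ₗ[ℤ] L.lattice where
  toFun w := ⟨a * w, haL w w.2⟩
  map_add' x y := Subtype.ext (by simp [mul_add])
  map_smul' n x := Subtype.ext (by simp [mul_left_comm])

theorem mulL_coe (L : PeriodPair) (a : ℂ) (haL : ∀ w ∈ L.lattice, a * w ∈ L.lattice)
    (w : L.lattice) : (mulL L a haL w : ℂ) = a * w := rfl

theorem mulL_inj (L : PeriodPair) (a : ℂ) (ha : a ≠ 0)
    (haL : ∀ w ∈ L.lattice, a * w ∈ L.lattice) : Function.Injective (mulL L a haL) := by
  intro x y h
  have h1 : a * (x : ℂ) = a * y := congrArg Subtype.val h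
  exact Subtype.ext (mul_left_cancel₀ ha h1)

theorem mem_range (L : PeriodPair) (a : ℂ) (haL : ∀ w ∈ L.lattice, a * w ∈ L.lattice)
    (z : ℂ) (ha : a ≠ 0) (hz : a * z ∈ L.lattice) :
    (⟨a * z, hz⟩ : L.lattice) ∈ LinearMap.range (mulL L a haL) ↔ z ∈ L.lattice := by
  constructor
  · rintro ⟨w, hw⟩
    have h1 : a * (w : ℂ) = a * z := congrArg Subtype.val hw
    rw [← mul_left_cancel₀ ha h1]
    exact w.2
  · intro h
    exact ⟨⟨z, h⟩, rfl⟩

theorem card_quot (hLAT : St_LAT) (L : PeriodPair) (a : ℂ) (ha : a ≠ 0)
    (haL : ∀ w ∈ L.lattice, a * w ∈ L.lattice) :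
    (Nat.card (L.lattice ⧸ LinearMap.range (mulL L a haL)) : ℝ) = ‖a‖ ^ 2 := by
  obtain ⟨hA, -⟩ := hLAT L
  have hIm : (conj L.ω₁ * L.ω₂).im ≠ 0 := by
    intro h
    rw [area, h, abs_zero] at hA
    exact lt_irrefl _ hA
  have : Module.Free ℤ L.lattice := Module.Free.of_basis L.latticeBasis
  have : Module.Finite ℤ L.lattice := Module.Finite.of_basis L.latticeBasis
  have h1 := Submodule.natAbs_det_equiv (LinearMap.range (mulL L a haL))
    (LinearEquiv.ofInjective (mulL L a haL) (mulL_inj L a ha haL))
  have h2 : (LinearMap.range (mulL L a haL)).subtype ∘ₗ AddMonoidHom.toIntLinearMap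
      ((LinearEquiv.ofInjective (mulL L a haL) (mulL_inj L a ha haL) :
        L.lattice →+ LinearMap.range (mulL L a haL))) = mulL L a haL := by
    ext x
    rfl
  rw [h2] at h1
  obtain ⟨p, q, h3⟩ := PeriodPair.mem_lattice.1 (haL _ L.ω₁_mem_lattice)
  obtain ⟨r, s, h4⟩ := PeriodPair.mem_lattice.1 (haL _ L.ω₂_mem_lattice)
  have h5 : LinearMap.det (mulL L a haL) = p * s - r * q := by
    rw [← LinearMap.det_toMatrix L.latticeBasis, Matrix.det_fin_two]
    have e0 : mulL L a haL (L.latticeBasis 0) = p • L.latticeBasis 0 + q • L.latticeBasis 1 := by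
      apply Subtype.ext
      rw [mulL_coe]
      simp [← h3]
    have e1 : mulL L a haL (L.latticeBasis 1) = r • L.latticeBasis 0 + s • L.latticeBasis 1 := by
      apply Subtype.ext
      rw [mulL_coe]
      simp [← h4]
    simp only [LinearMap.toMatrix_apply, e0, e1, map_add, map_smul, Module.Basis.repr_self]
    simp
  have h6 : ‖a‖ ^ 2 = ((p * s - r * q : ℤ) : ℝ) := by
    have e1 : conj (a * L.ω₁) * (a * L.ω₂) = ((‖a‖ ^ 2 : ℝ) : ℂ) * (conj L.ω₁ * L.ω₂) := by
      have e2 : conj a * a = ((‖a‖ ^ 2 : ℝ) : ℂ) := by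
        rw [Complex.conj_mul']
        push_cast
        rfl
      rw [map_mul, ← e2]
      ring
    have e3 : (conj (a * L.ω₁) * (a * L.ω₂)).im = ‖a‖ ^ 2 * (conj L.ω₁ * L.ω₂).im := by
      rw [e1, Complex.im_ofReal_mul]
    rw [← h3, ← h4] at e3
    have e4 : (conj ((p : ℂ) * L.ω₁ + q * L.ω₂) * (r * L.ω₁ + s * L.ω₂)).im =
        ((p * s - r * q : ℤ) : ℝ) * (conj L.ω₁ * L.ω₂).im := by
      simp
      ring
    rw [e4] at e3
    exact (mul_right_cancel₀ hIm e3).symm
  have h7 : (Nat.card (L.lattice ⧸ LinearMap.range (mulL L a haL)) : ℤ) = p * s - r * q := by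
    rw [← h1, h5, Int.natCast_natAbs]
    refine abs_of_nonneg ?_
    have : (0 : ℝ) ≤ ((p * s - r * q : ℤ) : ℝ) := by rw [← h6]; positivity
    exact_mod_cast this
  rw [h6]
  exact_mod_cast h7

end NUM

open _root_.Pool.Agent.MU3B.NUM in
theorem t_NUM (hLAT : St_LAT) : St_NUM := by
  classical
  intro L a R ha haL hR
  rw [← card_quot hLAT L a ha haL]
  have h0 : (0 : ℂ) ∉ R := fun h => hR.ne 0 h (zero_mem _)
  have hmem : ∀ q ∈ insert (0 : ℂ) R, a * q ∈ L.lattice := by
    intro q hq
    rcases Finset.mem_insert.1 hq with rfl | h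
    · rw [mul_zero]; exact zero_mem _
    · exact hR.mem q h
  have hinj : ∀ q ∈ insert (0 : ℂ) R, ∀ q' ∈ insert (0 : ℂ) R, q - q' ∈ L.lattice → q = q' := by
    intro q hq q' hq' h
    rcases Finset.mem_insert.1 hq with rfl | h1
    · rcases Finset.mem_insert.1 hq' with rfl | h2
      · rfl
      · rw [zero_sub] at h
        exact absurd (neg_mem_iff.1 h) (hR.ne q' h2)
    · rcases Finset.mem_insert.1 hq' with rfl | h2
      · rw [sub_zero] at h
        exact absurd h (hR.ne q h1)
      · exact hR.inj q h1 q' h2 h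
  let f : (insert (0 : ℂ) R : Finset ℂ) → L.lattice ⧸ LinearMap.range (mulL L a haL) := fun x =>
    Submodule.Quotient.mk ⟨a * (x : ℂ), hmem _ x.2⟩
  have hf : Function.Bijective f := by
    constructor
    · rintro ⟨q, hq⟩ ⟨q', hq'⟩ h
      have h1 := (Submodule.Quotient.eq _).1 h
      have h2 : a * (q - q') ∈ L.lattice := by
        rw [mul_sub]; exact sub_mem (hmem q hq) (hmem q' hq')
      have h3 : (⟨a * (q - q'), h2⟩ : L.lattice) ∈ LinearMap.range (mulL L a haL) := by
        have e1 : (⟨a * (q - q'), h2⟩ : L.lattice) =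
            ⟨a * q, hmem q hq⟩ - ⟨a * q', hmem q' hq'⟩ :=
          Subtype.ext (mul_sub _ _ _)
        rw [e1]
        exact h1
      exact Subtype.ext (hinj q hq q' hq' ((mem_range L a haL _ ha h2).1 h3))
    · intro c
      obtain ⟨⟨u, hu⟩, rfl⟩ := Submodule.Quotient.mk_surjective _ c
      have e1 : a * (u / a) = u := mul_div_cancel₀ _ ha
      have key : ∀ (q : ℂ) (hq : q ∈ insert (0 : ℂ) R), u / a - q ∈ L.lattice →
          ∃ x, f x = Submodule.Quotient.mk ⟨u, hu⟩ := by
        intro q hq h
        refine ⟨⟨q, hq⟩, ?_⟩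
        symm
        rw [Submodule.Quotient.eq]
        have h2 : a * (u / a - q) ∈ L.lattice := haL _ h
        have h3 := (mem_range L a haL _ ha h2).2 h
        have e2 : (⟨a * (u / a - q), h2⟩ : L.lattice) =
            ⟨u, hu⟩ - ⟨a * q, hmem q hq⟩ :=
          Subtype.ext (by change a * (u / a - q) = u - a * q; rw [mul_sub, e1])
        rw [e2] at h3
        exact h3
      by_cases h : u / a ∈ L.lattice
      · exact key 0 (Finset.mem_insert_self _ _) (by rw [sub_zero]; exact h)
      · obtain ⟨q, hq, h1⟩ := hR.surj (u / a) (by rw [e1]; exact hu) h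
        exact key q (Finset.mem_insert_of_mem hq) h1
  rw [← Nat.card_congr (Equiv.ofBijective f hf), Nat.card_eq_fintype_card, Fintype.card_coe,
    Finset.card_insert_of_notMem h0]
  push_cast
  rfl

end Pool.Agent.MU3B


end

section

/-!
# MU3, block B, module REP: representatives exist
-/

set_option autoImplicit false

namespace Pool.Agent.MU3B

open Complex Real Filter Topology
open scoped ComplexConjugate

open _root_.Pool.Agent.MU3B.NUM in
theorem t_REP (hLAT : St_LAT) : St_REP := by
  classical
  intro L a ha haL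
  have hcard := card_quot hLAT L a ha haL
  have hpos : 0 < ‖a‖ ^ 2 := by
    have := norm_pos_iff.2 ha
    positivity
  rw [← hcard] at hpos
  have hne : Nat.card (L.lattice ⧸ LinearMap.range (mulL L a haL)) ≠ 0 := by
    intro h
    rw [h] at hpos
    simp at hpos
  have hfin : Finite (L.lattice ⧸ LinearMap.range (mulL L a haL)) :=
    Nat.finite_of_card_ne_zero hne
  have := Fintype.ofFinite (L.lattice ⧸ LinearMap.range (mulL L a haL))
  have key : ∀ (u v : L.lattice) (z : ℂ), a * z = (u : ℂ) - v →
      ((Submodule.Quotient.mk u : L.lattice ⧸ LinearMap.range (mulL L a haL)) =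
        Submodule.Quotient.mk v ↔ z ∈ L.lattice) := by
    intro u v z h
    rw [Submodule.Quotient.eq]
    have h2 : a * z ∈ L.lattice := by rw [h]; exact sub_mem u.2 v.2
    rw [← mem_range L a haL z ha h2]
    have e : (⟨a * z, h2⟩ : L.lattice) = u - v := Subtype.ext h
    rw [e]
  have hout : ∀ c : L.lattice ⧸ LinearMap.range (mulL L a haL),
      (Submodule.Quotient.mk (Quotient.out c) :
        L.lattice ⧸ LinearMap.range (mulL L a haL)) = c := fun c => Quotient.out_eq c
  refine ⟨(Finset.univ.filter (fun c : L.lattice ⧸ LinearMap.range (mulL L a haL) =>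
    c ≠ 0)).image (fun c => ((Quotient.out c : L.lattice) : ℂ) / a), ?_, ?_, ?_, ?_⟩
  · intro q hq
    obtain ⟨c, -, rfl⟩ := Finset.mem_image.1 hq
    rw [mul_div_cancel₀ _ ha]
    exact (Quotient.out c : L.lattice).2
  · intro q hq h
    obtain ⟨c, hc, rfl⟩ := Finset.mem_image.1 hq
    apply (Finset.mem_filter.1 hc).2
    rw [← hout c, ← Submodule.Quotient.mk_zero]
    refine (key _ 0 _ ?_).2 h
    rw [mul_div_cancel₀ _ ha]
    simp
  · intro q hq q' hq' h
    obtain ⟨c, hc, rfl⟩ := Finset.mem_image.1 hq
    obtain ⟨c', hc', rfl⟩ := Finset.mem_image.1 hq'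
    have h1 : c = c' := by
      rw [← hout c, ← hout c']
      refine (key _ _ _ ?_).2 h
      rw [mul_sub, mul_div_cancel₀ _ ha, mul_div_cancel₀ _ ha]
    rw [h1]
  · intro z hz hz'
    refine ⟨_, Finset.mem_image.2 ⟨Submodule.Quotient.mk ⟨a * z, hz⟩,
      Finset.mem_filter.2 ⟨Finset.mem_univ _, ?_⟩, rfl⟩, ?_⟩
    · intro h
      apply hz'
      rw [← Submodule.Quotient.mk_zero] at h
      exact (key _ _ z (by simp)).1 h
    · refine (key ⟨a * z, hz⟩ _ _ ?_).1 (hout _).symm
      rw [mul_sub, mul_div_cancel₀ _ ha]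

end Pool.Agent.MU3B


end

section

/-!
# Module BCH: base change of Galois extensions of subfields of `ℂ`
-/

open NumberField

namespace Pool.Agent.RI

namespace BCH

open Polynomial IntermediateField

/-- Base change of a finite Galois extension, with the divisibility of degrees. -/
theorem bc (A C A' C' : Type) [Field A] [Field C] [Field A'] [Field C'] [Algebra A C]
    [Algebra A A'] [Algebra A C'] [Algebra C C'] [Algebra A' C'] [IsScalarTower A C C']
    [IsScalarTower A A' C'] [FiniteDimensional A C] [IsGalois A C]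
    (h : IntermediateField.adjoin A' (Set.range (algebraMap C C')) = ⊤) :
    IsGalois A' C' ∧ Module.finrank A' C' ∣ Module.finrank A C := by
  obtain ⟨T, hT₁, hT₂⟩ := IsGalois.is_separable_splitting_field A C
  have hs : (T.map (algebraMap A A')).IsSplittingField A' C' := by
    rw [isSplittingField_iff_intermediateField] at hT₂ ⊢
    constructor
    · rw [Polynomial.map_map, ← IsScalarTower.algebraMap_eq]
      exact Polynomial.Splits.of_algHom hT₂.1 (IsScalarTower.toAlgHom A C C')
    · have h' : (T.map (algebraMap A A')).rootSet C' = T.rootSet C' := by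
        simp [Set.ext_iff, Polynomial.mem_rootSet']
      have h2 : (IsScalarTower.toAlgHom A C C') '' T.rootSet C = T.rootSet C' :=
        hT₂.1.image_rootSet (IsScalarTower.toAlgHom A C C')
      rw [h', eq_top_iff, ← h, adjoin_le_iff]
      rintro _ ⟨c, rfl⟩
      -- the elements of `C` whose image is in the field form an intermediate field
      have h3 : c ∈ adjoin A (T.rootSet C) := by rw [hT₂.2]; exact mem_top
      have h4 : adjoin A (T.rootSet C) ≤
          ((adjoin A' (T.rootSet C')).restrictScalars A).comap (IsScalarTower.toAlgHom A C C') := by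
        rw [adjoin_le_iff]
        intro x hx
        show IsScalarTower.toAlgHom A C C' x ∈ adjoin A' (T.rootSet C')
        apply subset_adjoin
        rw [← h2]
        exact ⟨x, hx, rfl⟩
      exact h4 h3
  have hg : IsGalois A' C' := IsGalois.of_separable_splitting_field
    (p := T.map (algebraMap A A')) hT₁.map
  have hf : FiniteDimensional A' C' :=
    Polynomial.IsSplittingField.finiteDimensional C' (T.map (algebraMap A A'))
  refine ⟨hg, ?_⟩
  let φ : (C' ≃ₐ[A'] C') →* (C ≃ₐ[A] C) :=
    (AlgEquiv.restrictNormalHom C : (C' ≃ₐ[A] C') →* (C ≃ₐ[A] C)).comp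
      (AlgEquiv.restrictScalarsHom A)
  have hφ : Function.Injective φ := by
    rw [injective_iff_map_eq_one]
    intro σ hσ
    have h1 : ∀ c : C, σ (algebraMap C C' c) = algebraMap C C' c := by
      intro c
      have h2 := AlgEquiv.restrictNormal_commutes (σ.restrictScalars A) C c
      have h3 : (σ.restrictScalars A).restrictNormal C = 1 := hσ
      rw [h3] at h2
      exact h2.symm
    have h2 : adjoin A' (Set.range (algebraMap C C')) ≤ fixedField (Subgroup.zpowers σ) := by
      rw [adjoin_le_iff]
      rintro _ ⟨c, rfl⟩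
      intro τ
      obtain ⟨τ, j, rfl⟩ := τ
      have h5 : σ ∈ MulAction.stabilizer (C' ≃ₐ[A'] C') (algebraMap C C' c) := h1 c
      exact zpow_mem h5 j
    rw [h] at h2
    ext x
    exact h2 (mem_top : x ∈ (⊤ : IntermediateField A' C')) ⟨σ, Subgroup.mem_zpowers σ⟩
  rw [← IsGalois.card_aut_eq_finrank A' C', ← IsGalois.card_aut_eq_finrank A C]
  exact Subgroup.card_dvd_of_injective φ hφ

theorem fin_ext {A C : IntermediateField ℚ ℂ} [FiniteDimensional ℚ C] (h : A ≤ C) :
    FiniteDimensional A (IntermediateField.extendScalars h) := by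
  have h1 : FiniteDimensional ℚ (IntermediateField.extendScalars h) := by
    let f : C →+ IntermediateField.extendScalars h :=
      { toFun := fun x => ⟨x.1, x.2⟩
        map_zero' := rfl
        map_add' := fun _ _ => rfl }
    exact Module.Finite.of_surjective f.toRatLinearMap (fun x => ⟨⟨x.1, x.2⟩, rfl⟩)
  exact Module.Finite.of_restrictScalars_finite ℚ A _

end BCH

open IntermediateField in
theorem BCH_thm : BCH := by
  constructor
  · intro A C E A' C' _ _ h h' hA hC hg
    have hAA' : A ≤ A' := by rw [hA]; exact le_sup_left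
    have hCC' : C ≤ C' := by rw [hC]; exact le_sup_left
    have hEA' : E ≤ A' := by rw [hA]; exact le_sup_right
    let : Algebra A A' := (IntermediateField.inclusion hAA').toRingHom.toAlgebra
    let i1 : extendScalars h →+* extendScalars h' :=
      { toFun := fun x => ⟨x.1, hCC' x.2⟩
        map_zero' := rfl
        map_one' := rfl
        map_add' := fun _ _ => rfl
        map_mul' := fun _ _ => rfl }
    let : Algebra (extendScalars h) (extendScalars h') := i1.toAlgebra
    let : Algebra A (extendScalars h') := (i1.comp (algebraMap A (extendScalars h))).toAlgebra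
    have : IsScalarTower A (extendScalars h) (extendScalars h') :=
      IsScalarTower.of_algebraMap_eq (fun _ => rfl)
    have : IsScalarTower A A' (extendScalars h') :=
      IsScalarTower.of_algebraMap_eq (fun _ => rfl)
    have := BCH.fin_ext h
    apply BCH.bc A (extendScalars h) A' (extendScalars h')
    -- generation
    have key : C' ≤ ((adjoin A' (Set.range (algebraMap (extendScalars h)
        (extendScalars h')))).map (extendScalars h').val).restrictScalars ℚ := by
      refine hC.le.trans ?_
      rw [sup_le_iff]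
      constructor
      · intro c hc
        refine ⟨⟨c, hCC' hc⟩, subset_adjoin _ _ ⟨⟨c, hc⟩, rfl⟩, rfl⟩
      · intro c hc
        refine ⟨algebraMap A' (extendScalars h') ⟨c, hEA' hc⟩,
          IntermediateField.algebraMap_mem _ _, rfl⟩
    rw [eq_top_iff]
    intro x _
    obtain ⟨y, hy, hyx⟩ := key x.2
    have : y = x := Subtype.ext hyx
    rwa [← this]
  · intro A C E _ _ h h' h'' hC hE
    have := hC.to_normal
    have := hE.to_normal
    have h1 : extendScalars h'' = extendScalars h ⊔ extendScalars h' :=
      (extendScalars_sup h h').symm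
    rw [h1]
    have := BCH.fin_ext h
    have := BCH.fin_ext h'
    refine { to_isSeparable := inferInstance, to_normal := inferInstance }

end Pool.Agent.RI


end

section

/-!
# Relative Iwasawa theorem: unramified at the infinite places
-/

open NumberField NumberField.InfinitePlace

namespace Pool.Agent.RI

theorem INF_thm : INF := by
  intro K L _ _ _ _ _ _ S hS h
  have hur : IsUnramifiedAtInfinitePlaces K L := by
    refine ⟨fun w => ?_⟩
    rw [← mk_embedding w]
    refine isUnramified_mk_iff_isUnmixed.mpr ?_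
    intro hreal
    have hK : ∀ x : K, (starRingEnd ℂ) (w.embedding (algebraMap K L x)) =
        w.embedding (algebraMap K L x) := by
      intro x
      have h1 := RingHom.congr_fun (ComplexEmbedding.isReal_iff.mp hreal) x
      simpa using h1
    have hsS := h w.embedding hK
    have hall : ∀ x : L, (starRingEnd ℂ) (w.embedding x) = w.embedding x := by
      intro x
      have hx : x ∈ IntermediateField.adjoin K S := by rw [hS]; trivial
      induction hx using IntermediateField.adjoin_induction with
      | mem s hs => exact hsS s hs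
      | algebraMap x => exact hK x
      | add x y _ _ hx hy => rw [map_add, map_add, hx, hy]
      | inv x _ hx => rw [map_inv₀, map_inv₀, hx]
      | mul x y _ _ hx hy => rw [map_mul, map_mul, hx, hy]
    refine ComplexEmbedding.isReal_iff.mpr ?_
    ext x
    rw [ComplexEmbedding.conjugate_coe_eq]
    exact hall x
  rw [mul_comm]
  exact IsUnramifiedAtInfinitePlaces.card_infinitePlace K L

end Pool.Agent.RI


end
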