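import Mathlib
import Pool.Agent.MVF.C005

/-! Parts: MU3.ADefs2, MU3.StA2, MU3.StG, MU3.B_SD, MU3.StG2, MU3.A_S5 -/

section

/-!
# MU3, block A: further definitions and elementary lemmas on the Galois action
-/

set_option autoImplicit false

namespace Pool.Agent.MU3A

open _root_.MU3 _root_.Pool.Agent.MU3B Polynomial NumberField

noncomputable section

/-- `σ` is an arithmetic Frobenius at the prime `w` of `F`, residue field of `k` with `q`
elements -/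
def IsFrQ {A B : ℤ} {F : IntermediateField (kk A B) ℂ} (w : Ideal (𝓞 F)) (q : ℕ)
    (σ : F ≃ₐ[kk A B] F) : Prop := ∀ x : 𝓞 F, ∃ y ∈ w, (y : F) = σ x - (x : F) ^ q

/-- `w` lies above `lam` -/
def Abv {A B : ℤ} {F : IntermediateField (kk A B) ℂ} (w : Ideal (𝓞 F)) (lam : OO A B) : Prop :=
  ∃ y ∈ w, ((y : F) : ℂ) = emb lam

/-- the modulus `m₀` such that `-1` is not in the Galois group of `F_{m₀} / k` -/
def mz (A B : ℤ) : OO A B := if B = 0 then ⟨0, 4⟩ else 4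

/-- the conjugate `1 - w` (norm 3) of `ppi` -/
def ppc (A B : ℤ) : OO A B := ⟨1, -1⟩

end

end Pool.Agent.MU3A


end

section

/-!
# MU3, block A: statements, part 2 (Galois theory of the torsion fields), with proofs in words

As in `StA.lean`: `def Sa_X : Prop`; the module proves `theorem ta_X (h : ...) ... : Sa_X`.
`k = kk A B`, `F_m = TF L m`, `E[m] = {z : emb m * z ∈ L}` modulo `L`, `u_m = Om / emb m`.
-/

set_option autoImplicit false

namespace Pool.Agent.MU3A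

open _root_.MU3 _root_.Pool.Agent.MU3B Polynomial NumberField

noncomputable section

/-! ## The ring `O` -/

/-- (PID) `O` is a principal ideal domain; units; primes.

PROOF. Domain: `emb` is an injective ring homomorphism to `ℂ`. `nm x = |emb x|²` (`w` and its conjugate
`B - w` are the roots of `X² - BX - A`), so `nm (x y) = nm x * nm y`, `nm x ≥ 0`, `nm x = 0` iff `x = 0`.
Euclidean: for `x, y ≠ 0` write `x * conj y / nm y = s + t w` with rational `s, t`, choose the integers `b`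
nearest to `t`, then `a` nearest to `s + B (t - b)/2`; for `r = x - (a + b w) y`:
`nm r/nm y = ((s-a) + B (t-b)/2)² + |D|/4 (t-b)² ≤ 1/4 + 11/16 < 1`. So every ideal is generated by an element
of minimal positive norm. Unit iff `nm = 1` (`x * conj x = nm x`): `(a + B b/2)² + |D| b²/4 = 1` gives `b = 0`, `a = ±1`.
Primes: let `p` be prime in `O`. `p ∣ nm p`, so `p` divides a prime number `q` (factor `nm p > 1` in `ℕ`), `q = p r`,
`q² = nm p * nm r`: `nm p = q` or `nm p = q²`, `nm r = 1`, `r = ± 1`. Conversely `nm x` prime number implies `x`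
prime (irreducible by multiplicativity, PID). -/
def Sa_PID : Prop :=
  ∀ A B : ℤ, Case A B → IsDomain (OO A B) ∧ IsPrincipalIdealRing (OO A B) ∧
    (∀ x : OO A B, 0 ≤ nm x) ∧ (∀ x y : OO A B, nm (x * y) = nm x * nm y) ∧
    (∀ x : OO A B, nm x = 0 ↔ x = 0) ∧
    (∀ x : OO A B, ((nm x : ℤ) : ℂ) = emb x * (starRingEnd ℂ) (emb x)) ∧
    (∀ x : OO A B, IsUnit x ↔ x = 1 ∨ x = -1) ∧
    (∀ x : OO A B, IsUnit x ↔ nm x = 1) ∧
    (∀ p : OO A B, Prime p → (∃ q : ℕ, q.Prime ∧ nm p = q) ∨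
      ∃ q : ℕ, q.Prime ∧ (p = q ∨ p = -(q : OO A B))) ∧
    (∀ p : OO A B, (nm p).natAbs.Prime → Prime p)

/-- (REP) classes prime to `m` are represented, up to sign, by products of primes of degree one
outside a given finite set.

Uses Sa_PID. PROOF. Replace `n` by `n' = n * nm m * 22` (as a natural number; `m ∣ n'`, all ramified primes
divide `n'`). (i) Let `t` be the product of the primes of `O` (up to units) which divide `n'` but not `c`; `c₁ = c + m t` is prime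
to `n'`: for a prime `π ∣ n'`, if `π ∣ c` then `π ∤ m`, `π ∤ t`; if `π ∤ c` then `π ∣ t`. So `c₁ = a₀ + b₀ w` and no
prime number divides `a₀, b₀, n'`. Adding `n' w` if necessary, `b₀ ≠ 0`. (ii) let `s` be the product of the prime
numbers which divide `b₀` but not `a₀`; `a = a₀ + n' s` is prime to `b₀`: for a prime `r ∣ b₀`, if `r ∣ a₀` then `r ∤ n'`,
`r ∤ s`; otherwise `r ∣ s`. So `c₂ = a + b₀ w ≡ c` mod `m`, `c₂` is prime to `n'`, and no prime number divides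
`c₂`. (iii) factor `c₂ = ± ∏ π_i` (PID). No `π_i` is `±` a prime number, so `nm π_i = q_i` is prime (PID), and `q_i ∤ n'`:
otherwise `π_i ∣ q_i ∣ n'` and `π_i ∣ c₂`. -/
def Sa_REP : Prop :=
  ∀ A B : ℤ, Case A B → ∀ m : OO A B, m ≠ 0 → ∀ n : ℕ, n ≠ 0 → ∀ c : OO A B, IsCoprime c m →
    ∃ l : List (OO A B), (∀ p ∈ l, ∃ q : ℕ, q.Prime ∧ nm p = q ∧ ¬ q ∣ n ∧ ¬ (q : ℤ) ∣ nm m ∧
      IsCoprime p m) ∧ (m ∣ c - l.prod ∨ m ∣ c + l.prod)

/-! ## Galois action -/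

/-- (ALG) coordinates of torsion points are algebraic over `k`.

Uses Sa_EQN, Sa_LAW. PROOF. `m ∣ nm m =: n`, so `n z ∈ L`, `n ≥ 1` a natural number; strong induction on `n`. `y² = cub(x)`, so
only `x` is needed. `f = cub`. Duplication (LAW) reads `x(2z) 4 f(x z) = G(x z)` with
`G = (3X² + 2a₂X + a₄)² - 4 f (2X + a₂)`, monic of degree `4` over `k`. (a) `n` even: if `2z ∈ L`: `y z = 0`, `f(x z) = 0`. Otherwise
`(n/2)(2z) ∈ L`, `x(2z)` is algebraic, `x z` is a root of the monic polynomial `G - 4 x(2z) f`, so algebraic over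
`k(x(2z))`, hence over `k`. (b) `n` odd, `n ≥ 3`: `2^j ≡ 1` mod `n` for some `j ≥ 1`, so `x(2^j z) = x z`, and no
`2^i z` is in `L`. Define polynomials over `k`: `G_0 = X`, `H_0 = 1`,
`G_(i+1) = ` homogenisation `H_i⁴ G(G_i/H_i)`, `H_(i+1) = 4 H_i⁴ f(G_i/H_i) = 4 H_i (G_i³ + a₂G_i²H_i + a₄G_iH_i² + a₆H_i³)`; by
induction `G_i` is monic of degree `4^i`, `H_i` has degree `4^i - 1` and leading coefficient `4^i`, and
`H_i(x z) ≠ 0`, `x(2^i z) H_i(x z) = G_i(x z)` (as `y(2^i z) ≠ 0`). So `x z` is a root of `G_j - X H_j`, whose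
coefficient at `X^(4^j)` is `1 - 4^j ≠ 0`. (ALTERNATIVE for all `n`: if `x z` were transcendental, take
`z'` not a torsion point with `x z'` transcendental over `k` (countability), extend `x z ↦ x z'` to an embedding
`k(x z, y z) → ℂ`; by the group law over `k` (`Point.map` and XI) `n z' ∈ L` or ... contradiction.) -/
def Sa_ALG : Prop :=
  ∀ (A B : ℤ) (L : PeriodPair) (Om : ℂ), Case A B → IsCM A B L Om →
    ∀ m : OO A B, m ≠ 0 → ∀ z, emb m * z ∈ L.lattice → z ∉ L.lattice →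
      IsAlgebraic (kk A B) (xx A B L z) ∧ IsAlgebraic (kk A B) (yy L z)

/-- (GAL) every embedding over `k` acts on `E[m]` as multiplication by some `a` prime to `m`.

Uses Sa_EQN, Sa_XI, Sa_OMU (and Sa_PID for `IsDomain`). PROOF. Let `ξ` be as in (XI), `T = {z : emb m z ∈ L}` (additive group). For
`z ∈ T` let `p z` be the point of `E(F)` with coordinates `x z, y z ∈ F` (or `0` for `z ∈ L`); `Point.map F.val (p z) = ξ z`
and `Point.map F.val` is an injective homomorphism, so `p` is additive. Let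
`s z = Point.map σ (p z) ∈ E(ℂ)` (`WeierstrassCurve.Affine.Point.map`), additive in `z ∈ T`, `s z = 0` iff `z ∈ L`. By
surjectivity of `ξ` choose `t z` with `ξ (t z) = s z`: for `z ∈ T∖L`: `t z ∉ L`, `x(t z) = σ(x z)`, `y(t z) = σ(y z)`; `t` is additive
modulo `L`. (OMU): `t (w z) ≡ w t(z)` mod `L`: if `w z ∈ L` then `D(x z) = 0`, so `D(x(t z)) = σ(D(x z)) = 0` (`D` over `k`) and `w t(z) ∈ L`;
otherwise `w t(z) ∉ L` in the same way as `D(x(tz)) = σ(D(xz)) ≠ 0`, and applying `σ` to `x(wz) D(x z) = N(x z)`,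
`y(wz) E(x z) = y z M(x z)` shows that `t(wz)` and `w t(z)` have the same `x`, `y` (EQN). So `t (emb b z) ≡ emb b t(z)` for all
`b : O`. With `u = Om/emb m`: `emb m t(u) ≡ t(emb m u) ≡ 0`, so `t(u) ≡ emb a u` for some `a` (`torsion_iff`); every
`z ∈ T` is `emb b u`, so `t z ≡ emb b t(u) ≡ emb a z`. Coprime: let `a = a' d`, `m = m' d` (`d` a common divisor); `z = emb m' u` is in `T` and
`emb a z = emb (a' m) u ∈ L`, so `t z ∈ L`, `z ∈ L`, `m ∣ m'`, so `d` is a unit; in a principal ideal domain this gives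
`IsCoprime a m` (or: `O a + O m = O d`). -/
def Sa_GAL : Prop :=
  ∀ (A B : ℤ) (L : PeriodPair) (Om : ℂ), Case A B → IsCM A B L Om →
    ∀ m : OO A B, m ≠ 0 → ∀ F : IntermediateField (kk A B) ℂ, TF L m ≤ F →
      ∀ σ : F →ₐ[kk A B] ℂ, ∃ a : OO A B, Act L σ m a

/-- (ACT) formal properties of `Act`.

Uses Sa_EQN, Sa_XI, Sa_GAL. PROOF. (1) `z = Om/emb m`; if `m` is a unit nothing is to be shown; otherwise `z ∉ L` (`m ∤ 1`), `x(az) = σ(x z) = x(bz)`,
`y(az) = y(bz)`, so `(a - b) z ∈ L` (EQN), `m ∣ a - b` (`mul_div_mem_iff`). (2) `emb b z - emb a z ∈ L` for `z ∈ E[m]`;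
periodicity. (3) `E[m'] ⊆ E[m]`. (4) `σ (τ (x z)) = σ (x(bz)) = x(a b z)` (`x(bz)` is in `F`, `emb m (emb b z) ∈ L`). (5) both
agree on the generators of `TF L m` (`IntermediateField.adjoin` induction,
or `IntermediateField.algHom_ext_of_eq_adjoin`). (6) by (GAL) every `σ` has some `a`; with (4), (1) and (5) and commutativity of `O`.
(7) trivial. (8) restriction: the conditions only involve elements of `F`. -/
def Sa_ACT : Prop :=
  ∀ (A B : ℤ) (L : PeriodPair) (Om : ℂ), Case A B → IsCM A B L Om →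
    ∀ m : OO A B, m ≠ 0 →
    (∀ (F : IntermediateField (kk A B) ℂ) (σ : F →ₐ[kk A B] ℂ) (a b : OO A B), TF L m ≤ F →
      Act L σ m a → Act L σ m b → m ∣ a - b) ∧
    (∀ (F : IntermediateField (kk A B) ℂ) (σ : F →ₐ[kk A B] ℂ) (a b : OO A B), m ∣ a - b →
      Act L σ m a → Act L σ m b) ∧
    (∀ (F : IntermediateField (kk A B) ℂ) (σ : F →ₐ[kk A B] ℂ) (a m' : OO A B), m' ∣ m →
      Act L σ m a → Act L σ m' a) ∧
    (∀ (F : IntermediateField (kk A B) ℂ) (σ τ : F ≃ₐ[kk A B] F) (a b : OO A B), TF L m ≤ F →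
      Act L (em σ) m a → Act L (em τ) m b → Act L (em (σ * τ)) m (a * b)) ∧
    (∀ (σ τ : TF L m →ₐ[kk A B] ℂ) (a : OO A B), Act L σ m a → Act L τ m a → σ = τ) ∧
    (∀ σ τ : TF L m ≃ₐ[kk A B] TF L m, σ * τ = τ * σ) ∧
    (∀ (F : IntermediateField (kk A B) ℂ), TF L m ≤ F → Act L (em (1 : F ≃ₐ[kk A B] F)) m 1) ∧
    (∀ (F F' : IntermediateField (kk A B) ℂ) (hF : F ≤ F') (σ : F' →ₐ[kk A B] ℂ) (a : OO A B),
      Act L σ m a → Act L (σ.comp (IntermediateField.inclusion hF)) m a)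

/-- (NRM) `F_m / k` is a finite Galois extension (abelian by (ACT)).

Uses Sa_ALG, Sa_GAL, Sa_EQN. PROOF. The set of generators is finite: `z ∈ E[m]` is `emb x Om/emb m` and `x z`, `y z` depend only on `x` mod `m`
(periodicity), `O/m` is finite (`m ∣ nm m`, and `x mod nm m` has finitely many classes). Algebraic generators:
`IntermediateField.finiteDimensional_adjoin`. Normal: `IntermediateField.normal_iff_forall_fieldRange_le`
(`ℂ` is algebraically closed; or `normal_iff_forall_map_le`): an embedding maps the generators to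
generators (GAL). Separable: characteristic `0`. -/
def Sa_NRM : Prop :=
  ∀ (A B : ℤ) (L : PeriodPair) (Om : ℂ), Case A B → IsCM A B L Om →
    ∀ m : OO A B, m ≠ 0 → FiniteDimensional (kk A B) (TF L m) ∧ IsGalois (kk A B) (TF L m)

/-- (FROB) the Frobenius at a prime of degree one acts on `E[m]` as `± lam` (helper59).

PROOF: block of helper59 (`PFG` and the valuation lemmas). -/
def Sa_FROB : Prop :=
  ∀ (A B : ℤ) (L : PeriodPair) (Om : ℂ), Case A B → IsCM A B L Om →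
    ∃ n : ℕ, n ≠ 0 ∧ ∀ (lam : OO A B) (q : ℕ), q.Prime → nm lam = q → ¬ q ∣ n →
      ∀ m : OO A B, m ≠ 0 → ¬ (q : ℤ) ∣ nm m →
      ∀ (F : IntermediateField (kk A B) ℂ) [FiniteDimensional (kk A B) F] [IsGalois (kk A B) F],
        TF L m ≤ F → ∀ w : Ideal (𝓞 F), w.IsPrime → Abv w lam → ∀ σ : F ≃ₐ[kk A B] F,
          IsFrQ w q σ → Act L (em σ) m lam ∨ Act L (em σ) m (-lam)

/-- (INT) the ring of integers of `k` is `O`; `k` is a number field of degree two.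

Uses Sa_PID. PROOF. `w` is a root of the monic integral polynomial `X² - BX - A`, so `kk A B` is finite over `ℚ`, and every element of
`k` is `s + t w` with rational `s, t` (the set of these is a subfield), i.e. `emb x/emb n`, `n` a positive integer. `emb` is an
injection of `O` into `k` and `k` is the field of fractions of its image; `O` is a PID, so integrally closed
(`IsIntegrallyClosed` of a UFD; or directly: `x/n` in lowest terms and integral gives `n ∣ x^j`). Conversely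
`emb x` is integral over `ℤ` (`w` is). -/
def Sa_INT : Prop :=
  ∀ A B : ℤ, Case A B → FiniteDimensional ℚ (kk A B) ∧ Module.finrank ℚ (kk A B) = 2 ∧
    (∀ x : kk A B, ∃ s t : ℚ, (x : ℂ) = s + t * wC A B) ∧
    ∀ x : ℂ, x ∈ kk A B → (IsIntegral ℤ x ↔ ∃ y : OO A B, x = emb y)

/-- (FEX) existence of Frobenius automorphisms at degree one primes.

Uses Sa_INT, Sa_PID. PROOF. `emb lam` is not a unit of `𝓞 F`: otherwise its inverse is in `k` and integral, so it is `emb y` (INT),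
`lam y = 1`, `nm lam = 1`. Let `w` be a maximal ideal of `𝓞 F` containing it. `Gal(F/k)` acts on `𝓞 F` with invariants
`𝓞 k` (`Algebra.IsInvariant`; Mathlib: `RingTheory/Frobenius.lean`, `IsArithFrobAt.exists_of_isInvariant`,
`𝓞 F ⧸ w` is finite), so there is `σ` with `σ x - x^N ∈ w`, `N = ` number of elements of `𝓞 k ⧸ (w ∩ 𝓞 k)`. `w ∩ 𝓞 k` is the
image of a proper ideal of `O` containing `lam`, so it is `(lam)` (`lam` prime, PID, maximal), and `O/lam` has `q` elements: it is a ring in which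
`q = 0`, and `ℤ → O/lam` is onto (`lam = a + b w`, `q ∤ b`: otherwise `q ∣ a²`, `q² ∣ nm lam`; so `w ≡ -a/b`
modulo `lam`). -/
def Sa_FEX : Prop :=
  ∀ (A B : ℤ), Case A B → ∀ (F : IntermediateField (kk A B) ℂ) [FiniteDimensional (kk A B) F]
    [IsGalois (kk A B) F] (lam : OO A B) (q : ℕ), q.Prime → nm lam = q →
    ∃ w : Ideal (𝓞 F), w.IsPrime ∧ w ≠ ⊥ ∧ Abv w lam ∧ ∃ σ : F ≃ₐ[kk A B] F, IsFrQ w q σ

/-- (S5) the Galois group of `F_m / k` is everything up to sign.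

Uses Sa_FROB, Sa_FEX, Sa_REP, Sa_ACT. PROOF. `n` from (FROB). (REP) for `c`: a list `l` of degree one primes outside `n`, prime to `m`,
`c ≡ ± ∏ l`. For each `p ∈ l` (FEX), (FROB) give `σ_p` with `Act (em σ_p) m (± p)`. The product of the `σ_p` acts as
`± ∏ l ≡ ± c` (ACT, induction on the list). -/
def Sa_S5 : Prop :=
  ∀ (A B : ℤ) (L : PeriodPair) (Om : ℂ), Case A B → IsCM A B L Om →
    ∀ m : OO A B, m ≠ 0 →
      ∀ (F : IntermediateField (kk A B) ℂ) [FiniteDimensional (kk A B) F] [IsGalois (kk A B) F],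
        TF L m ≤ F → ∀ c : OO A B, IsCoprime c m →
          ∃ σ : F ≃ₐ[kk A B] F, Act L (em σ) m c ∨ Act L (em σ) m (-c)

/-- (DENSF) a subgroup which contains almost all Frobenius elements of degree one primes is everything
(helper87; general number fields; here for subfields of `ℂ`). `F / k` finite abelian.

PROOF: block of helper87/helper51. -/
def Sa_DENSF : Prop :=
  ∀ (A B : ℤ), Case A B → ∀ (F : IntermediateField (kk A B) ℂ) [FiniteDimensional (kk A B) F]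
    [IsGalois (kk A B) F], (∀ σ τ : F ≃ₐ[kk A B] F, σ * τ = τ * σ) →
    ∀ (H : Subgroup (F ≃ₐ[kk A B] F)) (n : ℕ), n ≠ 0 →
      (∀ (lam : OO A B) (q : ℕ), q.Prime → nm lam = q → ¬ q ∣ n → ∀ w : Ideal (𝓞 F), w.IsPrime →
        Abv w lam → ∀ σ : F ≃ₐ[kk A B] F, IsFrQ w q σ → σ ∈ H) → H = ⊤

/-- (CYC) roots of unity (Weil pairing without Weil pairing): `ζ_M ∈ F_M`, and
`σ ζ_M = ζ_M^(N a)` if `σ` acts as `a` on `E[M]`.

Uses Sa_FROB, Sa_DENSF, Sa_ACT, Sa_NRM, Sa_GAL, Sa_PID. PROOF. Let `ζ` be a primitive `M`-th root of unity, `F₁ = F_M(ζ)`: finite Galois over `k` (compositum of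
`F_M` and `k(ζ)`), abelian (an automorphism is determined by its actions on `F_M` and on `ζ`). `H` = the set of
`σ ∈ Gal(F₁/k)` such that, with `Act (em σ) M a`, `σ ζ = ζ^(N a)`: a subgroup (ACT; `N a` mod `M` depends only on `a` mod `M`:
`nm (a + M b) ≡ nm a`). Let `n` be `M` times the `n` of (FROB). For a degree one prime `lam`, `q = nm lam ∤ n`, `w` above `lam`, `σ` Frobenius:
`Act (em σ) M (± lam)`, `N(± lam) = q`; `σ ζ = ζ^i` for some `i` and `ζ^i - ζ^q ∈ w`; since `∏_(j=1)^(M-1) (1 - ζ^j) = M ∉ w`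
(`w ∩ ℤ = q ℤ`), `ζ^i = ζ^q`. So `σ ∈ H`, `H = ⊤` (DENSF). An automorphism of `F₁/F_M` acts as `a = 1` on `E[M]`, so it fixes `ζ`: `ζ ∈ F_M`,
`F₁ = F_M`. For general `F ⊇ F_M` and `σ : F → ℂ` with `Act σ M a`: the restriction of `σ` to `F_M` is an
automorphism of `F_M` (normal), so `σ ζ = ζ^(N a)`. -/
def Sa_CYC : Prop :=
  ∀ (A B : ℤ) (L : PeriodPair) (Om : ℂ), Case A B → IsCM A B L Om →
    ∀ (M : ℕ), M ≠ 0 → ∀ ζ : ℂ, ζ ^ M = 1 → ζ ∈ TF L (M : OO A B) ∧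
      ∀ (F : IntermediateField (kk A B) ℂ) (hF : TF L (M : OO A B) ≤ F) (hζ : ζ ∈ F)
        (σ : F →ₐ[kk A B] ℂ) (a : OO A B), Act L σ (M : OO A B) a →
          σ ⟨ζ, hζ⟩ = ζ ^ (nm a).toNat

/-! ## The sign -/

/-- (M8) `w² = -2`: `y(Om/w⁵)` is in the field generated by the `x`-coordinates of `E[4w]`.

Uses Sa_N8, Sa_EQN. PROOF. `4 w = w⁵`, `4 = w⁴`. `z_j = Om/w^j`, `x_j = x(z_j)`, `y_j = y(z_j)` for `1 ≤ j ≤ 5`; `z_j ∉ L`, `w⁵ z_j ∈ L`, `w z_j = z_(j-1)`.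
(N8): `x₁ = 0`; `x_(j-1) 2 x_j = -(x_j² + 4x_j + 2)`, so `x_j² + (4 + 2x_(j-1)) x_j + 2 = 0` (`j ≥ 2`) and, by the equation,
`y_j² = x_j (x_j² + 4x_j + 2) = -2 x_j² x_(j-1)`. `r := x₂ + 2`: `r² = 2`. `i := w/r`: `i² = -1`. `x₃² + 2r x₃ + 2 = (x₃ + r)² = 0`:
`x₃ = -r`. `x₄² + (4 - 2r)x₄ + 2 = 0`: with `t := (x₄ + 2 - r)/2`, `t² = 1 - r`, `x₄ = 2t - 2 + r = -(1-t)² = (i (1-t))²`. So
`y₅² = -2 x₅² x₄ = (w x₅ i (1-t))²` and `y₅ = ± w x₅ i (1-t)` is in the field. -/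
def Sa_M8 : Prop :=
  ∀ (L : PeriodPair) (Om : ℂ), IsCM (-2) 0 L Om →
    yy L (Om / wC (-2) 0 ^ 5) ∈ XF L (⟨0, 4⟩ : OO (-2) 0)

/-- (M11) `w² = w - 3`: `y(Om/4)` is in the field generated by the `x`-coordinates of `E[4]`.

Uses Sa_EQN, Sa_LAW. PROOF. `δ = 2w - 1`, `f = X³ + δX² - 3X - δ/4 = (X-e₁)(X-e₂)(X-e₃)`, `e_i = x(T_i)`, `T₁ = Om/2`, `T₂ = Om w/2`,
`T₃ = Om (1+w)/2` (the three points of order two: `y = 0`, different `x`: EQN). `P_i = T_i/2`, `p_i = x(P_i)`, `r_i = p_i - e_i`. (LAW) for `z = P_i`: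
`x(2z) - e₁ = ((x-e₁)² - (e₁-e₂)(e₁-e₃))²/(4y²)` (`ring`, with `a₂ = -(e₁+e₂+e₃)` etc.), so `r₁² = (e₁-e₂)(e₁-e₃)`, and
cyclically `r₂² = (e₂-e₁)(e₂-e₃)`, `r₃² = (e₃-e₁)(e₃-e₂)`. `d := (e₁-e₂)(e₂-e₃)(e₃-e₁)`: `d² = ` discriminant of `f` `= 1/16`,
`d = ± 1/4`. `(r₁r₂r₃)² = -d²`: `i := r₁r₂r₃/d`, `i² = -1`. So the field (which contains all `e_i`, `p_i`) contains `i`,
and `√d`, `√(-d)` (they are `± 1/2`, `± i/2`). `e₁ - e₃ = d/r₂²` is the square of `β = √d/r₂`, and `α := r₁/β`: `α² = e₁ - e₂`.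
`y(P₁)² = f(e₁ + r₁) = r₁ (r₁ + e₁ - e₂)(r₁ + e₁ - e₃) = r₁² (2r₁ + (e₁-e₂) + (e₁-e₃)) = (r₁ (α + β))²`, so
`y(P₁) = ± r₁ (α + β)` is in the field. -/
def Sa_M11 : Prop :=
  ∀ (L : PeriodPair) (Om : ℂ), IsCM (-3) 1 L Om →
    yy L (Om / 4) ∈ XF L (4 : OO (-3) 1)

/-- (NEG) `-1` is not in the Galois group of `F_m / k` if `mz ∣ m`; index two.

Uses Sa_M8, Sa_M11, Sa_EQN, Sa_ACT, Sa_S5. PROOF. (1) If `Act σ m a` with `m ∣ a + 1` then `Act σ mz (-1)` (ACT), so `σ(x z) = x(-z) = x z` for all `z ∈ E[mz]`, `σ` is the identity on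
`XF L mz`, so (M8, M11) it fixes `y(z₀)`, `z₀ = Om/w⁵` resp. `Om/4`; but `σ(y z₀) = y(-z₀) = -y z₀`: `y z₀ = 0`, `2 z₀ ∈ L` (EQN), which is false
(`mul_div_mem_iff`). (2) For `c` prime to `m` not both `c` and `-c` are `a`'s of automorphisms of `F` (the quotient would be
`-1`), with (S5) exactly one. (3) if `c^j ≡ 1` mod `m`, `j` odd, then `c` itself occurs: otherwise `-c` does and `(-c)^j ≡ -1`. -/
def Sa_NEG : Prop :=
  ∀ (A B : ℤ) (L : PeriodPair) (Om : ℂ), Case A B → IsCM A B L Om →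
    ∀ m : OO A B, m ≠ 0 → mz A B ∣ m →
    (∀ (F : IntermediateField (kk A B) ℂ), TF L m ≤ F → ∀ (σ : F →ₐ[kk A B] ℂ) (a : OO A B),
      m ∣ a + 1 → ¬ Act L σ m a) ∧
    (∀ (F : IntermediateField (kk A B) ℂ) [FiniteDimensional (kk A B) F] [IsGalois (kk A B) F],
      TF L m ≤ F → ∀ c : OO A B, IsCoprime c m →
        ((∃ σ : F ≃ₐ[kk A B] F, Act L (em σ) m c) ↔
          ¬ ∃ σ : F ≃ₐ[kk A B] F, Act L (em σ) m (-c))) ∧
    ∀ (F : IntermediateField (kk A B) ℂ) [FiniteDimensional (kk A B) F] [IsGalois (kk A B) F],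
      TF L m ≤ F → ∀ (c : OO A B) (j : ℕ), Odd j → m ∣ c ^ j - 1 →
        ∃ σ : F ≃ₐ[kk A B] F, Act L (em σ) m c

/-! ## At the prime 3 -/

/-- (V3) elementary facts on a valuation ring `V` of `ℂ` with `ppi` in its maximal ideal.

PROOF. `w ∈ V`: otherwise `1/w` is in the maximal ideal and `1 = A/w² + B/w` (`w² = A + B w`) as well. So `emb O ⊆ V`. `3 = emb ppi * (1 - w)` in both cases,
so `3` is in the maximal ideal, `2 = 3 - 1` and `8 = 9 - 1`, `11 = 12 - 1` are units, `1 - w` is a unit: `(1 + w) + (1 - w) = 2`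
resp. `w + (1 - w) = 1`. If `p ∤ x` (`p = ppi`) then `emb x` is a unit: `p` is prime, `nm p = 3`, `u x + v p = 1`. -/
def Sa_V3 : Prop :=
  ∀ (A B : ℤ), Case A B → ∀ V : ValuationSubring ℂ, emb (ppi A B) ∈ V.nonunits →
    (∀ x : OO A B, emb x ∈ V) ∧ (3 : ℂ) ∈ V.nonunits ∧
    (∀ x : OO A B, ¬ ppi A B ∣ x → emb x ∉ V.nonunits) ∧
    (∀ x : OO A B, ppi A B ∣ x → emb x ∈ V.nonunits)

/-- (T3) reduction of torsion points at a place above `ppi`: `E[ppi^n]` is in the kernel of reduction,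
and torsion of order prime to `ppi` is not.

Uses Sa_V3, Sa_N8P, Sa_N11, Sa_N11C, Sa_EQN, and for (4) the lemma no torsion of order prime to the residue characteristic in the kernel of
reduction (`VRed.eq_zero_of_nsmul` of helper59, with XI), here as (3). PROOF. Let `D = ppi X + d₀`, `N` be the polynomials of `Iso3` for
`ppi`: `d₀` is a unit of `V` (`w` resp. `-1`; `w ≡ -1` modulo `1 + w`). (1) if `x z ∈ V` then `D(x z)` is a unit, so `ppi z ∉ L` and `x(ppi z) = N/D² ∈ V`. By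
induction `ppi^n z ∉ L`; this is the contrapositive of the first claim. (2) for `c = 1 - w` (unit of `V`), `D = c X + d₀'`: if `x z ∉ V` then with `s = 1/x z` in the maximal
ideal `D/x = c + d₀' s` is a unit, `N/x³ = 1 + n₂ s + ..` is a unit, `D ≠ 0`, so `c z ∉ L` and `x(cz) = x z (unit) ∉ V`. (4) `m` prime to `ppi`: `m = (1-w)^j m'`,
`3 ∤ nm m'` (PID); if `x z ∉ V` then by (2) `z' = (1-w)^j z` has `z' ∉ L`, `x z' ∉ V`, and `nm m' z' ∈ L`: contradiction to (3). -/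
def Sa_T3 : Prop :=
  ∀ (A B : ℤ) (L : PeriodPair) (Om : ℂ), Case A B → IsCM A B L Om →
    ∀ V : ValuationSubring ℂ, emb (ppi A B) ∈ V.nonunits →
    (∀ z, z ∉ L.lattice → xx A B L z ∈ V →
      emb (ppi A B) * z ∉ L.lattice ∧ xx A B L (emb (ppi A B) * z) ∈ V) ∧
    (∀ (n : ℕ) (z : ℂ), z ∉ L.lattice → emb (ppi A B ^ n) * z ∈ L.lattice → xx A B L z ∉ V) ∧
    (∀ z, z ∉ L.lattice → xx A B L z ∉ V →
      emb (ppc A B) * z ∉ L.lattice ∧ xx A B L (emb (ppc A B) * z) ∉ V) ∧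
    ((∀ (n : ℕ) (z : ℂ), z ∉ L.lattice → (n : ℂ) * z ∈ L.lattice → ¬ 3 ∣ n → xx A B L z ∈ V) →
      ∀ (m : OO A B) (z : ℂ), m ≠ 0 → IsCoprime m (ppi A B) → z ∉ L.lattice →
        emb m * z ∈ L.lattice → xx A B L z ∈ V)

/-- (FR3) multiplication by `- ppi` is the Frobenius modulo `ppi`.

Uses Sa_V3, Sa_N8P, Sa_N11, Sa_EQN. PROOF. Let `p = ppi`, `x = x z ∈ V`, `y = y z ∈ V` (`y² = cub(x)`, the coefficients are in `V`: `4` is a unit).
`x(p z) = N(x)/D(x)²`, `y(p z) = y M(x)/D(x)³` (`Iso3`), `D(x) ≡ -1` modulo `p` (so it is a unit and `p z ∉ L`), `N ≡ X³` (`n₂, n₁, n₀` are divisible by `p`: 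
`4 - 2w`, `2 - 4w` are divisible by `1 + w`; `3w, w - 6, -w` by `w`), so `x(p z) ≡ x³`; and `M ≡ cub` modulo `p`
(`(-2,0)`: modulo `1 + w`: `w ≡ -1`, `3 ≡ 0`, `M ≡ X³ + X² + 2X`, `cub = X³ + 4X² + 2X`; `(-3,1)`: modulo `w`, `δ ≡ -1`,
`M ≡ X³ - X² + 1`, `cub ≡ X³ - X² + 1/4`, `1/4 ≡ 1`), so `y(p z) ≡ -y cub(x) = -y³`. `x(-pz) = x(pz)`, `y(-pz) = -y(pz)`. -/
def Sa_FR3 : Prop :=
  ∀ (A B : ℤ) (L : PeriodPair) (Om : ℂ), Case A B → IsCM A B L Om →
    ∀ V : ValuationSubring ℂ, emb (ppi A B) ∈ V.nonunits →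
    ∀ z, z ∉ L.lattice → xx A B L z ∈ V →
      yy L z ∈ V ∧
      xx A B L (emb (-ppi A B) * z) - xx A B L z ^ 3 ∈ V.nonunits ∧
      yy L (emb (-ppi A B) * z) - yy L z ^ 3 ∈ V.nonunits

end

end Pool.Agent.MU3A


end

section

/-!
# MU3, block G (helper36): Theorem G, the arithmetic part. Statements with proofs in words.

A module proves `theorem t_X : St_X`. Setting of section 6 of PAPER.md. `H` is a number field, `Γ` a
finite group of automorphisms of `H` (the Galois group over `k`), everything about the curve is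
abstracted away.
-/

set_option autoImplicit false

namespace Pool.Agent.MU3G

open _root_.MU3 _root_.Pool.Agent.MuSym OnePoint NumberField

noncomputable section

/-- (G1) choice of the coefficient `c`.

PROOF. For `s` in `Γ` let `P_s = {x : s x ∈ P} = comap s P`, a prime ideal, nonzero (it contains the
same rational prime; or: norm), hence maximal (Dedekind domain of dimension one). Let `D = {s : P_s = P}`.
(i) Residue field `F = (𝓞 H) / P`. For `s` in `D` the map `s` induces a ring automorphism `s̄` of `F`. For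
`s ≠ s'` in `D` the maps `s̄`, `s̄'` are different: otherwise `s x - s' x ∈ P` for all `x`, apply `s'⁻¹`
(which preserves `P`): `s'⁻¹ s x - x ∈ P` for all `x`, so `s'⁻¹ s = 1` by `hun`. By Dedekind's theorem
(`linearIndependent_monoidHom` for the monoid homs `F →* F`) the function `Σ_(s in D) t̄_s s̄` is not zero,
because `t̄_1 ≠ 0`. Choose `c0` in `𝓞 H` with `Σ_(s in D) t_s s(c0) ∉ P`. (ii) Chinese remainder theorem for
the finitely many distinct primes among the `P_s` (`IsDedekindDomain.exists_forall_sub_mem_ideal` or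
`Ideal.exists_forall_sub_mem_ideal` with pairwise coprime powers): there is `c` with `c - c0 ∈ P` and
`c ∈ P_s ^ M` for all `s` not in `D` (here `P_s ≠ P`). (iii) For `s` not in `D`: `s(c) ∈ P ^ M`
(`P_s ^ M = comap s (P ^ M)` for the ring automorphism `s`). For `s` in `D`: `s(c) - s(c0) ∈ P`. So
`Σ_s t_s s(c) - Σ_(s in D) t_s s(c0) ∈ P` (`M ≥ 1`), hence `Σ_s t_s s(c) ∉ P`. -/
def St_G1 : Prop :=
  ∀ (H : Type) [Field H] [NumberField H] (Γ : Subgroup (𝓞 H ≃+* 𝓞 H)) [Finite Γ]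
    (P : Ideal (𝓞 H)) (_ : P.IsPrime) (_ : P ≠ ⊥)
    (_ : ∀ s ∈ Γ, (∀ x : 𝓞 H, s x - x ∈ P) → s = 1)
    (t : Γ → 𝓞 H) (_ : ∀ s : Γ, (∀ x : 𝓞 H, s.1 x ∈ P ↔ x ∈ P) → t s ∉ P) (M : ℕ) (_ : 1 ≤ M),
    ∃ c : 𝓞 H, (∑ᶠ s : Γ, t s * s.1 c) ∉ P ∧
      ∀ s : Γ, ¬ (∀ x : 𝓞 H, s.1 x ∈ P ↔ x ∈ P) → s.1 c ∈ P ^ M

/-- The coefficients `b_n = Σ_s s(c a_n) s(ε(α_s))⁻¹`. -/
def bb {A B : ℤ} {H : Type} [Field H] (Γ : Subgroup (H ≃+* H)) (eH : OO A B → H)
    (al : Γ → OO A B) (c : H) (aa : ℕ → H) (n : ℕ) : H :=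
  ∑ᶠ s : Γ, s.1 (c * aa n) * (s.1 (eH (al s)))⁻¹

/-- (G3) the Frobenius relation of the coefficients.

PROOF. `s0` is the Frobenius. In `s0(b_n) = Σ_s (s0 s)(c a_n) ((s0 s)(ε(α_s)))⁻¹` substitute `s' = s0 s`
(a permutation of `Γ`). `α_(s0 s) ≡ α_(s0) α_s mod g`, so `ε(α_(s')) = ε(α_(s0)) ε(α_s)` and
`(ε(α_s))⁻¹ = ε(α_(s0)) ε(α_(s'))⁻¹`. So `s0(b_n) = Σ_(s') s'(c a_n) s'(ε(α_(s')))⁻¹ s'(ε(α_(s0)))`. Since
`α_(s0) ≡ κ π` and `ε(κ π) = κ ε(π)` (`κ = 1` or `-1`, `ε(-1) = -1`), `s'(ε(α_(s0))) = κ s'(ε(π))`. On the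
other hand `a_(3n) = ε(π) π̄ a_n` and `s'` fixes the image of `O`, so
`b_(3n) = π̄ Σ_(s') s'(c a_n) s'(ε(π)) s'(ε(α_(s')))⁻¹ = π̄ κ s0(b_n)` (`κ² = 1`). -/
def St_G3 : Prop :=
  ∀ (A B : ℤ) (_ : Case A B) (H : Type) [Field H] (j : OO A B →+* H)
    (Γ : Subgroup (H ≃+* H)) [Finite Γ] (_ : ∀ s ∈ Γ, ∀ x, s (j x) = j x)
    (g : OO A B) (eH : OO A B → H) (_ : eH 1 = 1) (_ : ∀ x y, eH (x * y) = eH x * eH y)
    (_ : ∀ x y, g ∣ x - y → eH x = eH y) (_ : eH (-1) = -1)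
    (al : Γ → OO A B) (_ : ∀ s s' : Γ, g ∣ al (s * s') - al s * al s')
    (_ : ∀ s, eH (al s) ≠ 0) (c : H) (aa : ℕ → H)
    (_ : ∀ n, aa (3 * n) = eH (ppi A B) * j (star (ppi A B)) * aa n)
    (s0 : Γ) (kap : ℤ) (_ : kap = 1 ∨ kap = -1) (_ : g ∣ al s0 - kap * ppi A B) (n : ℕ),
    bb Γ eH al c aa (3 * n) = kap * j (star (ppi A B)) * s0.1 (bb Γ eH al c aa n)

/-- The coefficients `a_n = 1/2 Σ_(N x = n) ε(x) x̄` in a field `H`. -/
def aH {A B : ℤ} {H : Type} [Field H] (j : OO A B →+* H) (eH : OO A B → H) (n : ℕ) : H :=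
  (2 : H)⁻¹ * ∑ᶠ x : {x : OO A B // nm x = (n : ℤ)}, eH x.1 * j (star x.1)

/-- (G2) first properties of the coefficients `a_n`.

PROOF. The set `{x : N x = n}` is finite (`nm` is positive definite: `4 nm x = (2 re + B im)² + |D| im²`).
`a_0 = 0`: only `x = 0`, `j 0 = 0`. `a_1`: `N x = 1` only for `x = 1, -1` (`x = re + im w`,
`|D| im² ≤ 4`, so `im = 0`), `ε(-1) (-1) = 1`, sum `2`. Integrality: the involution `x ↦ -x` has no fixed
point on `{N x = n}`, `n ≥ 1`, and the summand is the same at `x` and `-x`, so `a_n` is the sum of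
`ε(x) x̄` over representatives (take `re > 0` or `re = 0, im > 0`), which are integral over `ℤ` (`ε(x)` is
integral by hypothesis, `j` of an element of `O` is integral). `a_(3n) = ε(π) π̄ a_n`: let `N x = 3 n` and
`ε(x) ≠ 0`. `π π̄ = 3` divides `N x = x x̄`; `π` is prime in `O` (norm 3: `O/π` has 3 elements; or a direct
congruence argument), so `π ∣ x` or `π ∣ x̄`, i.e. `π̄ ∣ x`; but `π̄ ∣ g` and `x` is prime to `g` if
`ε(x) ≠ 0`, so `π ∣ x`. So `x = π y`, `N y = n`, and `y ↦ π y` is a bijection from `{N y = n}` onto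
`{N x = 3 n, π ∣ x}`; the other `x` contribute `0`. `ε(π y) = ε(π) ε(y)`, `star (π y) = star π * star y`. -/
def St_G2 : Prop :=
  ∀ (A B : ℤ) (_ : Case A B) (H : Type) [Field H] [CharZero H] (j : OO A B →+* H)
    (g : OO A B) (_ : star (ppi A B) ∣ g) (eH : OO A B → H) (_ : eH 1 = 1)
    (_ : ∀ x y, eH (x * y) = eH x * eH y)
    (_ : ∀ x, eH x ≠ 0 → IsCoprime x g) (_ : ∀ x, IsIntegral ℤ (eH x)) (_ : eH (-1) = -1),
    aH j eH 0 = 0 ∧ aH j eH 1 = 1 ∧ (∀ n, IsIntegral ℤ (aH j eH n)) ∧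
      ∀ n, aH j eH (3 * n) = eH (ppi A B) * j (star (ppi A B)) * aH j eH n

/-- (G4) the Honda type of `H(q) = d Σ b_n q^n / n`.

PROOF. For `n` not divisible by 3 the coefficient of `q^n` on the left is `d b_n / n`, in `W` because
`n` is a unit of `W` (`hW`). For `n = 3 m`, `m ≥ 1`, it is
`d b_(3m)/(3m) - ϖ⁻¹ d s(b_m)/m`, and `b_(3m)/3 = κ π̄ s(b_m)/(π π̄) = κ s(b_m)/π = s(b_m)/ϖ` as
`ϖ = κ π`, `κ² = 1`; so it is 0. `n = 0`: `x / 0 = 0`. The series `H^s(q³)` has coefficient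
`s(coefficient of H at m)` at `3m` and `0` elsewhere; `s` fixes `d` and the rational numbers. -/
def St_G4 : Prop :=
  ∀ (H : Type) [Field H] [CharZero H] (W : Subring H) (_ : ∀ n : ℕ, ¬ 3 ∣ n → ((n : H))⁻¹ ∈ W)
    (s : H ≃+* H) (p pb : H) (_ : p * pb = 3) (kap : ℤ) (_ : kap = 1 ∨ kap = -1)
    (b : ℕ → H) (_ : ∀ n, b n ∈ W) (_ : ∀ n, b (3 * n) = kap * pb * s (b n))
    (d : H) (_ : d ∈ W) (_ : s d = d) (n : ℕ),
    (d * b n / n - (if 3 ∣ n then (kap * p)⁻¹ * s (d * b (n / 3) / (n / 3 : ℕ)) else 0)) ∈ W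

/-- (G0) `O` is a principal ideal domain and `π` is a prime of norm 3.

PROOF. Domain: `embHom` is an injective ring homomorphism to `ℂ` (`emb x = 0` iff `x = 0` as the imaginary
part of `wC` is not zero). Euclidean: for `x`, `y ≠ 0` in `O` write `emb x / emb y = r + t wC` with rational
`r, t` (multiply by the conjugate of `y`), choose an integer `n` with `|t - n| ≤ 1/2` and then an integer
`m` with `|r + B (t - n)/2 - m| ≤ 1/2`: for `q = m + n w` the norm of `emb x/emb y - emb q` is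
`(r + B(t-n)/2 - m)² + (|D|/4)(t - n)² ≤ 1/4 + 11/16 < 1`. So every ideal is generated by an element of
minimal positive norm (or build an `EuclideanDomain`). `π`: `nm (ppi) = 3`; if `π = x y` then one of
`nm x`, `nm y` is 1, and elements of norm 1 are units (`x * star x = nm x`): irreducible, so prime. Units:
`nm x = 1` gives `4 = (2 re + B im)² + |D| im²`, `im = 0`, `re = ± 1`. `π` and `π̄` are coprime:
`π + π̄ = 2 (1 - B) + B = 2 - B` (2 or 1) and `π π̄ = 3`, so `1` is in the ideal `(π, π̄)`. -/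
def St_G0 : Prop :=
  ∀ (A B : ℤ) (_ : Case A B), IsDomain (OO A B) ∧ IsPrincipalIdealRing (OO A B) ∧
    Prime (ppi A B) ∧ Prime (star (ppi A B)) ∧ IsCoprime (ppi A B) (star (ppi A B)) ∧
    (∀ x : OO A B, IsUnit x ↔ x = 1 ∨ x = -1) ∧ (∀ x : OO A B, emb x = 0 ↔ x = 0) ∧
    (∀ x : OO A B, (nm x : ℂ) = emb x * (starRingEnd ℂ) (emb x)) ∧
    (∀ x : OO A B, emb (star x) = (starRingEnd ℂ) (emb x)) ∧
    ∀ x y : OO A B, nm (x * y) = nm x * nm y

/-- (G5a) a homomorphism to `k` with values in `π V` on a finitely generated group.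

Uses G0. PROOF. Let `h` be an element of the group. `ρ(h) = emb y / emb z`, `z ≠ 0`; dividing by `emb π` and
cancelling the gcd (PID) we get `ρ(h)/emb π = emb y0 / emb z0` with `y0`, `z0` coprime, `z0 ≠ 0`. The set
`{x ∈ O : emb x ∈ V.nonunits}` is a proper ideal of `O` (`O` is contained in `V`: `wC` is integral over `ℤ`
and `V` is integrally closed) containing `π`, so it is `(π)` (maximal, as `π` is a prime of a PID). If
`π ∣ z0`, then `π ∤ y0`, so `emb y0` is a unit of `V` and `emb z0` is a nonunit, so the quotient is not in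
`V`: contradiction. So `d_h := z0` has `π ∤ d_h` and `emb d_h * ρ(h) = emb (π y0)`. If `ρ(h) = 0` take
`d_h = 1`. Finitely generated: let `h_1, .., h_r` generate and `d = ∏ d_(h_i)`; `π ∤ d` as `π` is prime. The
set of `h` with `emb d * ρ(h) ∈ emb (π O)` is a subgroup (`ρ` is a homomorphism) containing the
generators, so it is everything. -/
def St_G5a : Prop :=
  ∀ (A B : ℤ) (_ : Case A B) (V : ValuationSubring ℂ) (_ : emb (ppi A B) ∈ V.nonunits)
    (G : Type) [Group G] [Group.FG G] (rho : G → ℂ) (_ : ∀ x y, rho (x * y) = rho x + rho y)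
    (_ : ∀ x, ∃ y z : OO A B, z ≠ 0 ∧ rho x * emb z = emb y)
    (_ : ∀ x, rho x / emb (ppi A B) ∈ V),
    ∃ d : OO A B, ¬ ppi A B ∣ d ∧ ∀ x, ∃ y : OO A B, emb d * rho x = emb (ppi A B * y)

/-- The data of Theorem G: `H` is the field `H'` of PAPER.md, `io` its embedding into `ℂ`, `j` the
embedding of `O`, `Γ` the Galois group over `k`, `al s` the action of `s` on `E[g]`, `eH` the character
`ε` with values in `H`, `s0` the Frobenius automorphism at `V`. -/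
structure IsGD {A B : ℤ} (V : ValuationSubring ℂ) (g : OO A B) {H : Type} [Field H]
    (io : H →+* ℂ) (j : OO A B →+* H) (Γ : Subgroup (H ≃+* H)) (al : Γ → OO A B)
    (eH : OO A B → H) (s0 : Γ) (kap : ℤ) : Prop where
  pV : emb (ppi A B) ∈ V.nonunits
  pg : star (ppi A B) ∣ g
  io_j : ∀ x, io (j x) = emb x
  fix : ∀ s ∈ Γ, ∀ x, s (j x) = j x
  gal : ∀ y : H, (∀ s ∈ Γ, s y = y) → ∃ x z : OO A B, z ≠ 0 ∧ y * j z = j x
  al_mul : ∀ s s' : Γ, g ∣ al (s * s') - al s * al s'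
  al_cop : ∀ s, IsCoprime (al s) g
  unr : ∀ y : H, io y ∈ V.nonunits → io y / emb (ppi A B) ∈ V
  frob : ∀ x : H, io x ∈ V → io (s0.1 x) - io x ^ 3 ∈ V.nonunits
  al_s0 : g ∣ al s0 - kap * ppi A B
  kap1 : kap = 1 ∨ kap = -1
  inert : ∀ s ∈ Γ, (∀ x : H, io x ∈ V → io (s x) - io x ∈ V.nonunits) → s = 1
  eps : IsEps g (fun x => io (eH x))

/-- (G6a) the valuation ring `V` on a number field `H`. `P = {x ∈ 𝓞 H : io x ∈ V.nonunits}`.

Uses G0. PROOF. `𝓞 H` maps into `V` (`V` is integrally closed: `ValuationSubring` is a valuation ring,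
`IsIntegrallyClosed`; or: if `x` is integral and not in `V`, then `x⁻¹ ∈ V.nonunits` and the integral equation
divided by `x^n` says `1 ∈ V.nonunits`). `P` is the preimage of the maximal ideal: prime; `3 = π π̄ ∈ P`, so
`P ≠ ⊥`. (ii) Let `io y ∈ V`. Fractional ideal `(y) = I J⁻¹` with coprime integral ideals `I`, `J`. If
`J ⊄ P`, choose `z ∈ J`, `z ∉ P`, then `z y ∈ I ⊆ 𝓞 H`: done. If `J ⊆ P`, then `I ⊄ P`; choose `w ∈ I`, `w ∉ P`:
`w y⁻¹ ∈ J ⊆ P` (`(w/y) = (w) I⁻¹ J` is contained in `J`), so `io w = io (w/y) io y ∈ V.nonunits`: contradiction. (Or: the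
localization of `𝓞 H` at `P` is a discrete valuation ring contained in the proper subring `V ∩ H`, and a
DVR is a maximal proper subring of its fraction field.) (iii) `y = x/n` with `x ∈ 𝓞 H`, `n = 3^i n'` a
positive integer, `3 ∤ n'`: `1/n' ∈ V` (`n'` is a unit: `3 ∈ V.nonunits`, Bezout), and
`emb(π)^i/3^i = 1/emb(π̄)^i ∈ V` (`π̄` is a unit of `V`, as `u π + v π̄ = 1`). Take `m = i`. (iv) If `s` preserves `P`
and `io y ∈ V`, write `y = x/z` as in (ii): `s y = s x/s z`, `s z ∉ P`, so `io (s z)` is a unit of `V`. If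
moreover `io y` is a nonunit then `x ∈ P`, `s x ∈ P`. (v) induction on `M` (`Submodule.span_induction` for
products, or `Ideal.pow_induction_on_left'`): the set of `x` with `io x/emb(π)^M ∈ V` is an ideal. -/
def St_G6a : Prop :=
  ∀ (A B : ℤ) (_ : Case A B) (V : ValuationSubring ℂ) (_ : emb (ppi A B) ∈ V.nonunits)
    (H : Type) [Field H] [NumberField H] (io : H →+* ℂ),
    ∃ P : Ideal (𝓞 H), P.IsPrime ∧ P ≠ ⊥ ∧ (∀ x : 𝓞 H, io x ∈ V) ∧
      (∀ x : 𝓞 H, x ∈ P ↔ io x ∈ V.nonunits) ∧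
      (∀ y : H, io y ∈ V → ∃ x z : 𝓞 H, z ∉ P ∧ y * z = x) ∧
      (∀ y : H, ∃ m : ℕ, io y * emb (ppi A B) ^ m ∈ V) ∧
      (∀ s : H ≃+* H, (∀ x : H, IsIntegral ℤ x → (io (s x) ∈ V.nonunits ↔ io x ∈ V.nonunits)) →
        ∀ y : H, (io y ∈ V → io (s y) ∈ V) ∧ (io y ∈ V.nonunits → io (s y) ∈ V.nonunits)) ∧
      ((∀ y : H, io y ∈ V.nonunits → io y / emb (ppi A B) ∈ V) →
        ∀ (M : ℕ) (x : 𝓞 H), x ∈ P ^ M → io x / emb (ppi A B) ^ M ∈ V)

/-- (G6b) the choice of `c`, in terms of `V`.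

Uses G0, G1, G6a. PROOF. Restriction to the ring of integers is an injective homomorphism from `Γ` to
`𝓞 H ≃+* 𝓞 H` (`RingOfIntegers.mapRingEquiv`), let `Γ'` be the image. Hypothesis of G1: if `s x - x ∈ P` for
all `x ∈ 𝓞 H`, then for `io y ∈ V`, `y = x/z` as in G6a, `s y - y = ((s x - x) z - x (s z - z))/(z (s z))` has
`io` in `V.nonunits` (`s z ∉ P`, since `s z - z ∈ P`), so `s = 1` by `inert`. `t_s := (s(eH(al s)))⁻¹`: there is
`y` with `al s * y ≡ 1 mod g`, so `eH(al s) eH(y) = 1` (`eps.per`, `eps.mul`, injectivity of `io`); the values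
`eH(x)`, `x` prime to `g`, are roots of unity (`x^r ≡ 1 mod g` for some `r ≥ 1`, as `O/g` is finite), so `t_s` is
integral, a unit, not in `P`. Let `c` be given by G1 for `M`. First conclusion: clear. Second: let `y` be as
stated. For `s` preserving `P`: `y/j(π)` has `io` in `V` (`unr`), so has `s(y/j π)` (G6a (iv)), and
`io(s(c y)) = io(s c) emb(π) io(s(y/j π)) ∈ emb(π) V`. For the other `s`: `s c ∈ P^M`, so `io(s c)/emb(π)^M ∈ V`
(G6a (v)) and `emb(π)^(M-1) io(s y) ∈ V`; the product divided by `emb(π)` is in `V`. Sum over `s`. -/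
def St_G6b : Prop :=
  ∀ (A B : ℤ) (_ : Case A B) (V : ValuationSubring ℂ) (g : OO A B) (_ : g ≠ 0) (H : Type) [Field H]
    [NumberField H] (io : H →+* ℂ) (j : OO A B →+* H) (Γ : Subgroup (H ≃+* H)) [Finite Γ]
    (al : Γ → OO A B) (eH : OO A B → H) (s0 : Γ) (kap : ℤ)
    (_ : IsGD V g io j Γ al eH s0 kap) (M : ℕ) (_ : 1 ≤ M),
    (∀ s : Γ, IsIntegral ℤ (s.1 (eH (al s)))⁻¹) ∧ ∃ c : H, IsIntegral ℤ c ∧
      io (∑ᶠ s : Γ, s.1 c * (s.1 (eH (al s)))⁻¹) ∉ V.nonunits ∧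
      ∀ y : H, io y ∈ V.nonunits →
        (∀ s : Γ, io (s.1 y) * emb (ppi A B) ^ (M - 1) ∈ V) →
        io (∑ᶠ s : Γ, s.1 (c * y)) / emb (ppi A B) ∈ V

/-- The function `Z = (d/ϖ) Σ_s s(c) (s(ε(al s)))⁻¹ thetaInt(s ε)`, `ϖ = κ π`. -/
def ZZ {A B : ℤ} {H : Type} [Field H] (io : H →+* ℂ) (Γ : Subgroup (H ≃+* H)) (al : Γ → OO A B)
    (eH : OO A B → H) (kap : ℤ) (c : H) (d : OO A B) (z : ℂ) : ℂ :=
  emb d / (kap * emb (ppi A B)) * ∑ᶠ s : Γ, io (s.1 c * (s.1 (eH (al s)))⁻¹) *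
    thetaInt (fun x => io (s.1 (eH x))) z

/-- (G6c) the function `Z` is periodic modulo `L` under `Γ₁(N')`, if all closed cycles are nonunits.

Uses G0, G1, G5a, G6a, G6b. PROOF. `N' = |D| (3f)² * N''`-multiple, so for `h = (a b; c d)` with `N' ∣ c`,
`N' ∣ d - 1` (then also `a ≡ 1`) `chiD d = 1` and `ε(d) = 1`: hypothesis `hnu`. Put
`y_h = PhiH ∞ (h ∞)`; `Phi e = Om * io PhiH` (`hPhi` for `s = 1`: `al 1 * al 1 ≡ al 1` and `al 1` is prime to `g`, so
`al 1 ≡ 1`, `eH(al 1) = 1`). So `io (PhiH (h x) (h y)) = io (PhiH x y)` for `h` in `Γ₁(N')` (`hsym`), also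
additivity, and `io` is injective. `h ↦ y_h` is a homomorphism to `H`: `y_(h h') = PhiH ∞ (h ∞) + PhiH (h ∞)
(h h' ∞) = y_h + y_(h')` (`mob` is an action: `mob_mob` in Pool/Agent/MuSym). Group: `CongruenceSubgroup.Gamma1 N'`,
of finite index in `SL(2,ℤ)` which is finitely generated (`SpecialLinearGroup.SL2Z_generators`), so finitely
generated (`Subgroup.fg_of_index_ne_zero`), so the `y_h` lie in a finitely generated group, and by
G6a (iii) there is `M ≥ 1` with `io(s(y_h)) emb(π)^(M-1) ∈ V` for all `h`, `s` (bound it on the generators; `V`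
is a ring). Take `c` from G6b. `hyp` says `io y_h ∈ V.nonunits`, so `ρ(h) := io(Σ_s s(c y_h))` has
`ρ(h)/emb(π) ∈ V`. `Σ_s s(c y_h)` is fixed by `Γ`, so `gal` gives the form `emb y/emb z`. G5a gives `d`.
`Z(h τ) - Z(τ) = emb d/(κ emb π) Σ_s io(s c (s eH(al s))⁻¹) Phi e_s ∞ (h ∞)` by `hFT` (with `nu = 1`: the values
`nuE e_s d = 1` follow from `hnu` as `e_s = io s eH` and `eH(d) = 1`) `= emb d/(κ emb π) Om Σ_s io(s c s(y_h))` by `hPhi`
`= κ Om emb d ρ(h)/emb π ∈ Om emb(O)`. `b_1`: with `a_1 = 1` it is the sum in G6b. -/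
def St_G6c : Prop :=
  ∀ (A B : ℤ) (_ : Case A B) (V : ValuationSubring ℂ) (g : OO A B) (_ : g ≠ 0) (H : Type) [Field H]
    [NumberField H] (io : H →+* ℂ) (j : OO A B →+* H) (Γ : Subgroup (H ≃+* H)) [Finite Γ]
    (al : Γ → OO A B) (eH : OO A B → H) (s0 : Γ) (kap : ℤ)
    (_ : IsGD V g io j Γ al eH s0 kap) (Om : ℂ) (_ : Om ≠ 0) (N' : ℕ) (_ : N' ≠ 0)
    (_ : ∀ d : ℤ, (N' : ℤ) ∣ d - 1 → chiD A B d = 1 ∧ g ∣ (d : OO A B) - 1)
    (PhiH : OnePoint ℚ → OnePoint ℚ → H)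
    (_ : ∀ (s : Γ) (x y : OnePoint ℚ), Phi (fun z => io (s.1 (eH z))) x y =
      Om * io (s.1 (eH (al s)) * s.1 (PhiH x y)))
    (_ : IsSym N' (nuE fun x => io (eH x)) (Phi fun x => io (eH x)))
    (_ : ∀ (s : Γ) (a b c d : ℤ), a * d - b * c = 1 → (N' : ℤ) ∣ c → ∀ τ : ℂ, 0 < τ.im →
      thetaInt (fun z => io (s.1 (eH z))) ((a * τ + b) / (c * τ + d)) =
        nuE (fun z => io (s.1 (eH z))) d * thetaInt (fun z => io (s.1 (eH z))) τ +
          Phi (fun z => io (s.1 (eH z))) ∞ (mob a b c d ∞))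
    (_ : ∀ a b c d : ℤ, a * d - b * c = 1 → (N' : ℤ) ∣ c → (N' : ℤ) ∣ d - 1 →
      Phi (fun x => io (eH x)) ∞ (mob a b c d ∞) / Om ∈ V.nonunits),
    ∃ (c : H) (d : OO A B), IsIntegral ℤ c ∧ ¬ ppi A B ∣ d ∧
      io (∑ᶠ s : Γ, s.1 c * (s.1 (eH (al s)))⁻¹) ∉ V.nonunits ∧
      ∀ a b c' d' : ℤ, a * d' - b * c' = 1 → (N' : ℤ) ∣ c' → (N' : ℤ) ∣ d' - 1 → ∀ τ : ℂ,
        0 < τ.im → ∃ x : OO A B, ZZ io Γ al eH kap c d ((a * τ + b) / (c' * τ + d')) -
          ZZ io Γ al eH kap c d τ = Om * emb x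

/-- (G7) the `q`-expansions of `thetaInt` and of `Z`.

Uses G0. PROOF. `thetaInt e τ = 1/2 Σ_x e(x) conj(emb x)/N(x) exp(2 π i N(x) τ)`, absolutely summable for
`Im τ > 0`: `|e(x)| ≤ 1` (values are 0 or roots of unity) and `N(x) = |emb x|² ≥ c (re² + im²)`. Group the terms by
`n = N(x)` (`HasSum.sigma`, or `Summable` and `tsum_fiberwise`); the fibre sum is
`io(a_n)/n` with `a_n = aH j eH n` (`io` of a finite sum; `io(j(star x)) = conj(emb x)`). For `s` in `Γ`: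
`aH j (s eH) n = s(aH j eH n)` as `s` fixes `j`. `Z`: finite sum over `s`, coefficient of `q^n`:
`emb d/(κ emb π) Σ_s io(s c (s eH(al s))⁻¹ s(a_n))/n = emb d/(κ emb π) io(bb n)/n`. -/
def St_G7 : Prop :=
  ∀ (A B : ℤ) (_ : Case A B) (V : ValuationSubring ℂ) (g : OO A B) (_ : g ≠ 0) (H : Type) [Field H]
    [NumberField H] (io : H →+* ℂ) (j : OO A B →+* H) (Γ : Subgroup (H ≃+* H)) [Finite Γ]
    (al : Γ → OO A B) (eH : OO A B → H) (s0 : Γ) (kap : ℤ)
    (_ : IsGD V g io j Γ al eH s0 kap) (c : H) (d : OO A B) (τ : ℂ) (_ : 0 < τ.im),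
    HasSum (fun n : ℕ => io (aH j eH n) / n * Complex.exp (2 * Real.pi * Complex.I * n * τ))
      (thetaInt (fun x => io (eH x)) τ) ∧
    HasSum (fun n : ℕ => io (j d * (kap * j (ppi A B))⁻¹ * (bb Γ eH al c (aH j eH) n / n)) *
      Complex.exp (2 * Real.pi * Complex.I * n * τ)) (ZZ io Γ al eH kap c d τ)

end

end Pool.Agent.MU3G


end

section

/-!
# MU3, block B: (SD), sum and difference
-/

set_option autoImplicit false

namespace Pool.Agent.MU3B

theorem t_SD (hADD : St_ADD) (hNEQ : St_NEQ) : St_SD := by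
  intro L Q z hQ hz h1 h2
  have hne : L.weierstrassP z ≠ L.weierstrassP Q := by
    intro h
    rcases hNEQ L Q z hQ hz h with h | h
    · exact h2 h
    · exact h1 h
  have hQ' : -Q ∉ L.lattice := fun h => hQ (by simpa using neg_mem h)
  have h1' : z + -Q ∉ L.lattice := by rwa [← sub_eq_add_neg]
  have h2' : z - -Q ∉ L.lattice := by rwa [sub_neg_eq_add]
  have a1 := (hADD L Q z hQ hz h1 h2).1
  have a2 := (hADD L (-Q) z hQ' hz h1' h2').1
  rw [L.weierstrassP_neg, L.derivWeierstrassP_neg, ← sub_eq_add_neg] at a2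
  have e1 := L.derivWeierstrassP_sq z hz
  have e2 := L.derivWeierstrassP_sq Q hQ
  have hD : L.weierstrassP z - L.weierstrassP Q ≠ 0 := sub_ne_zero.2 hne
  generalize L.weierstrassP (z + Q) = s at *
  generalize L.weierstrassP (z - Q) = t at *
  generalize L.weierstrassP z = p at *
  generalize L.weierstrassP Q = q at *
  generalize L.derivWeierstrassP z = p' at *
  generalize L.derivWeierstrassP Q = q' at *
  have b1 : s = ((p' - q') / (2 * (p - q))) ^ 2 - p - q := by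
    rw [← a1]
    ring
  have b2 : t = ((p' - -q') / (2 * (p - q))) ^ 2 - p - q := by
    rw [← a2]
    ring
  refine ⟨hne, ?_, ?_⟩
  · rw [b1, b2, eq_div_iff (pow_ne_zero 2 hD)]
    have c1 : (((p' - q') / (2 * (p - q))) ^ 2 - p - q +
        (((p' - -q') / (2 * (p - q))) ^ 2 - p - q)) * (p - q) ^ 2 =
        (p' ^ 2 + q' ^ 2) / 2 - 2 * (p + q) * (p - q) ^ 2 := by
      field_simp
      ring
    rw [c1, e1, e2]
    ring
  · rw [b1, b2, eq_div_iff (pow_ne_zero 2 hD)]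
    field_simp
    ring

end Pool.Agent.MU3B


end

section

/-!
# MU3, block G (helper36): Theorem G, final statement

`St_GFIN` is the input of block H (helper1).
-/

set_option autoImplicit false

namespace Pool.Agent.MU3G

open _root_.MU3 _root_.Pool.Agent.MU3A _root_.Pool.Agent.MuSym OnePoint NumberField

noncomputable section

/-- (GTH) Theorem G for an abstract field `H` with the data `IsGD`, `κ = -1`.

Uses G0-G7 (all proved: `G_G0.lean` ..., `t_G6c`, `t_G7`, `t_G4`, `t_G3`, `t_G2`), `St_WQ` (`StQ.lean`), `main_A2` (`A2Main.lean`), `Sa_EQN` (the equation of the curve) or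
`IsCM` and `derivWeierstrassP_sq`. PROOF. Suppose `Phi e ∞ (h ∞)/Om ∈ V.nonunits` for all `h` in `Γ₁(N')`. G6c (`kap = -1`) gives `c`, `d`; let `Z = ZZ io Γ al eH (-1) c d`,
`b_n = bb Γ eH al c (aH j eH) n`, `h n = j d * (b_n / n)`: `h 0 = 0` (`x / 0 = 0`), `io (h 1) ∉ V.nonunits` (`b_1 = Σ s(c a_1)(..)⁻¹` with `a_1 = 1` (G2) is the sum of G6c;
`io (j d)` is a unit of `V` as `¬ π ∣ d`). G7: `Z τ = Σ z_n q^n`, `z_n = io(h n)/emb(-π)`. G3, G4 with `W = V.comap io` (`b_n ∈ W`: `c`, `a_n` and the inverses in G6b are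
integral, integral elements are in `V` (G6a)): `h n - (if 3 ∣ n then (j (-π))⁻¹ * s0 (h (n/3)) else 0) ∈ W`. `K` = the subfield generated by `io(H)` and `exp(2πi/N')`: a
number field. `St_WQ` for `K`, `V`, `N'`, `L`, `c0 = -emb a2/3`, `a2, a4, a6` of the curve (`xx = ℘ - emb a2/3`, `yy = ℘'/2`): expansions of `Z(γ τ)`: hypothesis `hex` and finite sums; periods
under `Γ₁(N')`: G6c, `Om * emb x ∈ L.lattice` (for `γ ∈ Gamma1 N'`: `γ = (a b; c' d')`, `N' ∣ c'`, `N' ∣ d' - 1`). It gives `S`, `P := A`, `Q := B`, `A ≠ 0`; `main_A2` gives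
`A = 0`: contradiction. -/
def St_GTH : Prop :=
  ∀ (A B : ℤ) (_ : Case A B) (L : PeriodPair) (Om : ℂ) (_ : IsCM A B L Om)
    (V : ValuationSubring ℂ) (g : OO A B) (_ : g ≠ 0) (H : Type) [Field H]
    [NumberField H] (io : H →+* ℂ) (j : OO A B →+* H) (Γ : Subgroup (H ≃+* H)) [Finite Γ]
    (al : Γ → OO A B) (eH : OO A B → H) (s0 : Γ)
    (_ : IsGD V g io j Γ al eH s0 (-1)) (N' : ℕ) (_ : N' ≠ 0)
    (_ : ∀ d : ℤ, (N' : ℤ) ∣ d - 1 → chiD A B d = 1 ∧ g ∣ (d : OO A B) - 1)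
    (PhiH : OnePoint ℚ → OnePoint ℚ → H)
    (_ : ∀ (s : Γ) (x y : OnePoint ℚ), Phi (fun z => io (s.1 (eH z))) x y =
      Om * io (s.1 (eH (al s)) * s.1 (PhiH x y)))
    (_ : IsSym N' (nuE fun x => io (eH x)) (Phi fun x => io (eH x)))
    (_ : ∀ (s : Γ) (a b c d : ℤ), a * d - b * c = 1 → (N' : ℤ) ∣ c → ∀ τ : ℂ, 0 < τ.im →
      thetaInt (fun z => io (s.1 (eH z))) ((a * τ + b) / (c * τ + d)) =
        nuE (fun z => io (s.1 (eH z))) d * thetaInt (fun z => io (s.1 (eH z))) τ +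
          Phi (fun z => io (s.1 (eH z))) ∞ (mob a b c d ∞))
    (_ : ∀ (s : Γ) (a b c d : ℤ), a * d - b * c = 1 → ∃ (C : ℂ) (w : ℕ → ℂ), ∀ τ : ℂ,
      0 < τ.im → HasSum (fun n : ℕ => w n *
        Complex.exp (2 * Real.pi * Complex.I * τ / N') ^ (n + 1))
        (thetaInt (fun z => io (s.1 (eH z))) ((a * τ + b) / (c * τ + d)) - C)),
    ∃ a b c d : ℤ, a * d - b * c = 1 ∧ (N' : ℤ) ∣ c ∧ (N' : ℤ) ∣ d - 1 ∧
      Phi (fun x => io (eH x)) ∞ (mob a b c d ∞) / Om ∉ V.nonunits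

/-- (GFIN) THEOREM G. For every multiple `N'` of `N = |D| (3f)²` there is `h = (a b; c d)` in `Γ₁(N')` such that
`Phi ∞ (h ∞) / Om` is not in the maximal ideal of `V`.

PROOF: section 6 of PAPER.md; glue of helper36 from G0-G7, `St_WQ` (helper58), A2 (helper77), FT
(helper40), F6 and HP (helper41). -/
def St_GFIN : Prop :=
  ∀ (A B : ℤ) (_ : Case A B) (L : PeriodPair) (Om : ℂ) (_ : IsCM A B L Om)
    (V : ValuationSubring ℂ) (_ : emb (ppi A B) ∈ V.nonunits) (f : ℕ) (_ : f ≠ 0) (_ : ¬ 3 ∣ f)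
    (_ : 2 * absD A B ∣ (f : ℤ)) (e : OO A B → ℂ)
    (_ : IsEps ((f : OO A B) * star (ppi A B)) e) (r : ℕ) (_ : ¬ 3 ∣ r)
    (_ : ∀ x, e x ≠ 0 → e x ^ r = 1) (N' : ℕ) (_ : N' ≠ 0)
    (_ : absD A B * (3 * f) ^ 2 ∣ (N' : ℤ)),
    ∃ a b c d : ℤ, a * d - b * c = 1 ∧ (N' : ℤ) ∣ c ∧ (N' : ℤ) ∣ d - 1 ∧
      Phi e ∞ (mob a b c d ∞) / Om ∉ V.nonunits

end

end Pool.Agent.MU3G


end

section

/-!
# MU3, block A: module S5 (the Galois group of `F_m / k` is everything up to sign)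
-/

set_option autoImplicit false

namespace Pool.Agent.MU3A

open _root_.MU3 _root_.Pool.Agent.MU3B Polynomial NumberField

noncomputable section

theorem ta_S5 (hF : Sa_FROB) (hX : Sa_FEX) (hR : Sa_REP) (hA : Sa_ACT) : Sa_S5 := by
  intro A B L Om h hL m hm F _ _ hTF c hc
  obtain ⟨n, hn, hfr⟩ := hF A B L Om h hL
  obtain ⟨l, hl, hlc⟩ := hR A B h m hm n hn c hc
  obtain ⟨-, act2, -, act4, -, -, act7, -⟩ := hA A B L Om h hL m hm
  have key : ∀ l : List (OO A B), (∀ p ∈ l, ∃ q : ℕ, q.Prime ∧ nm p = q ∧ ¬ q ∣ n ∧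
      ¬ (q : ℤ) ∣ nm m ∧ IsCoprime p m) →
      ∃ σ : F ≃ₐ[kk A B] F, Act L (em σ) m l.prod ∨ Act L (em σ) m (-l.prod) := by
    intro l
    induction l with
    | nil =>
      intro _
      exact ⟨1, Or.inl (by simpa using act7 F hTF)⟩
    | cons p l ih =>
      intro hl
      obtain ⟨τ, hτ⟩ := ih fun p' hp' => hl p' (List.mem_cons_of_mem _ hp')
      obtain ⟨q, hq, hpq, hqn, hqm, -⟩ := hl p List.mem_cons_self
      obtain ⟨w, hw, -, hab, σ, hσ⟩ := hX A B h F p q hq hpq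
      have h1 := hfr p q hq hpq hqn m hm hqm F hTF w hw hab σ hσ
      refine ⟨σ * τ, ?_⟩
      rw [List.prod_cons]
      rcases h1 with h1 | h1 <;> rcases hτ with hτ | hτ
      · exact Or.inl (act4 F σ τ p l.prod hTF h1 hτ)
      · have := act4 F σ τ p (-l.prod) hTF h1 hτ
        rw [mul_neg] at this
        exact Or.inr this
      · have := act4 F σ τ (-p) l.prod hTF h1 hτ
        rw [neg_mul] at this
        exact Or.inr this
      · have := act4 F σ τ (-p) (-l.prod) hTF h1 hτ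
        rw [neg_mul, mul_neg, neg_neg] at this
        exact Or.inl this
  obtain ⟨σ, hσ⟩ := key l hl
  refine ⟨σ, ?_⟩
  rcases hlc with hlc | hlc <;> rcases hσ with hσ | hσ
  · left; exact act2 F _ _ _ (by rw [← neg_sub, dvd_neg]; exact hlc) hσ
  · right
    refine act2 F _ _ _ ?_ hσ
    have e : -l.prod - -c = c - l.prod := by ring
    rw [e]; exact hlc
  · right
    refine act2 F _ _ _ ?_ hσ
    have e : l.prod - -c = c + l.prod := by ring
    rw [e]; exact hlc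
  · left
    refine act2 F _ _ _ ?_ hσ
    have e : -l.prod - c = -(c + l.prod) := by ring
    rw [e, dvd_neg]; exact hlc

end

end Pool.Agent.MU3A


end
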