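import Mathlib
import Pool.Agent.MVF.C007
import Pool.Agent.MVF.C009
import Pool.Agent.MVF.C010
import Pool.Agent.MVF.C012
import Pool.Agent.MVF.C013

/-! Parts: MU3.B_ZER, MU3.B_ZAD, MU3.B_TRA, MU3.B_TNZ, MU3.B_SCL, MU3.B_POD, MU3.B_PER, MU3.B_P2, MU3.B_NEQ, MU3.B_LAT, MU3.B_ID, MU3.B_HRE, MU3.B_HAL, MU3.B_DSC, MU3.B_DIY, MU3.B_DD, MU3.B_CMX, MU3.BAll, MUX.U_LOC, MUX.U_EQP -/

namespace Pool.Agent.MU3B.CMX18
end Pool.Agent.MU3B.CMX18
namespace Pool.Agent.MU3B.DIY50
end Pool.Agent.MU3B.DIY50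
namespace Pool.Agent.MU3B.DSCaux
end Pool.Agent.MU3B.DSCaux
namespace Pool.Agent.MU3B.ID21
end Pool.Agent.MU3B.ID21
namespace Pool.Agent.MU3B.NEQ18
end Pool.Agent.MU3B.NEQ18
namespace Pool.Agent.MU3B.POD
end Pool.Agent.MU3B.POD

section

/-!
# MU3, block B: (ZER), zeros of the derivative of the Weierstrass function
-/

set_option autoImplicit false

namespace Pool.Agent.MU3B

open Complex Real Filter Topology
open scoped ComplexConjugate

theorem t_ZER (_hPER : St_PER) (hHOL : St_HOL) (hPOL : St_POL) (hID : St_ID) (hNEQ : St_NEQ) :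
    St_ZER := by
  intro L Q hQ
  constructor
  · intro h0
    by_contra h2Q
    obtain ⟨h, δ, hδ, hd, -, hz⟩ := hPOL L
    have hopen : IsOpen ((L.lattice : Set ℂ)ᶜ) := L.isClosed_lattice.isOpen_compl
    have han : AnalyticAt ℂ L.weierstrassP Q := L.analyticOnNhd_weierstrassP Q hQ
    set D : ℂ → ℂ := fun z => L.weierstrassP z - L.weierstrassP Q with hD
    have hDan : AnalyticAt ℂ D Q := han.sub analyticAt_const
    -- nearby points
    have n1 : ∀ᶠ z in 𝓝 Q, z ∉ L.lattice := hopen.mem_nhds hQ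
    have n2 : ∀ᶠ z in 𝓝 Q, z + Q ∉ L.lattice := by
      have hc : ContinuousAt (fun z : ℂ => z + Q) Q := by fun_prop
      have h1 : (L.lattice : Set ℂ)ᶜ ∈ 𝓝 ((fun z : ℂ => z + Q) Q) := by
        apply hopen.mem_nhds
        show Q + Q ∉ L.lattice
        rwa [← two_mul]
      exact hc.preimage_mem_nhds h1
    have n3 : ∀ᶠ z in 𝓝 Q, z - Q ∈ Metric.ball (0 : ℂ) δ := by
      have hc : ContinuousAt (fun z : ℂ => z - Q) Q := by fun_prop
      have h1 : Metric.ball (0 : ℂ) δ ∈ 𝓝 ((fun z : ℂ => z - Q) Q) := by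
        show Metric.ball (0 : ℂ) δ ∈ 𝓝 (Q - Q)
        rw [sub_self]
        exact Metric.ball_mem_nhds 0 hδ
      exact hc.preimage_mem_nhds h1
    -- the regular part of the logarithmic derivative
    set k : ℂ → ℂ := fun z => h (z - Q) + zet L (z + Q) - 2 * zet L z with hk
    have hkc : ContinuousAt k Q := by
      have c1 : ContinuousAt (fun z => h (z - Q)) Q := by
        have c11 : ContinuousAt h ((fun z : ℂ => z - Q) Q) := by
          show ContinuousAt h (Q - Q)
          rw [sub_self]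
          exact (hd.differentiableAt (Metric.ball_mem_nhds 0 hδ)).continuousAt
        have c12 : ContinuousAt (fun z : ℂ => z - Q) Q := by fun_prop
        exact ContinuousAt.comp (f := fun z : ℂ => z - Q) (g := h) c11 c12
      have c2 : ContinuousAt (fun z => zet L (z + Q)) Q := by
        have c21 : ContinuousAt (zet L) ((fun z : ℂ => z + Q) Q) :=
          (hHOL L (Q + Q) (by rwa [← two_mul])).continuousAt
        have c22 : ContinuousAt (fun z : ℂ => z + Q) Q := by fun_prop
        exact ContinuousAt.comp (f := fun z : ℂ => z + Q) (g := zet L) c21 c22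
      have c3 : ContinuousAt (zet L) Q := (hHOL L Q hQ).continuousAt
      exact (c1.add c2).sub (continuousAt_const.mul c3)
    have hlog : ∀ᶠ z in 𝓝 Q, z ≠ Q → (z - Q) * L.derivWeierstrassP z =
        (1 + (z - Q) * k z) * D z := by
      filter_upwards [n1, n2, n3] with z z1 z2 z3 z4
      have z5 : z - Q ≠ 0 := sub_ne_zero.2 z4
      obtain ⟨z6, z7⟩ := hz (z - Q) z3 z5
      have e1 := hID L Q z hQ z1 z2 z6
      have e2 : ee L (z + Q) + ee L (z - Q) - 2 * ee L z = 1 / (z - Q) + k z := by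
        have e3 : zet L (z + Q) + zet L (z - Q) - 2 * zet L z =
            ee L (z + Q) + ee L (z - Q) - 2 * ee L z := by
          unfold zet
          rw [map_add, map_sub]
          ring
        rw [← e3, z7]
        simp only [hk]
        ring
      rw [e2] at e1
      rw [← e1]
      simp only [hD]
      field_simp
    have hne : ∀ᶠ z in 𝓝 Q, z ≠ Q → D z ≠ 0 := by
      filter_upwards [n1, n2, n3] with z z1 z2 z3 z4 z5
      obtain ⟨z6, z7⟩ := hz (z - Q) z3 (sub_ne_zero.2 z4)
      rcases hNEQ L Q z hQ z1 (sub_eq_zero.1 z5) with z8 | z8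
      · exact z6 z8
      · exact z2 z8
    -- the order
    have hnz : ¬ ∀ᶠ z in 𝓝 Q, D z = 0 := by
      intro hall
      have h1 : ∀ᶠ z in 𝓝[≠] Q, False := by
        have h2 : ∀ᶠ z in 𝓝[≠] Q, D z = 0 ∧ (z ≠ Q → D z ≠ 0) :=
          (hall.and hne).filter_mono nhdsWithin_le_nhds
        filter_upwards [h2, self_mem_nhdsWithin] with z z1 z2
        exact z1.2 z2 z1.1
      exact (h1.exists).elim fun _ hf => hf
    obtain ⟨n, g, hg, hg0, hgD⟩ := (hDan.exists_eventuallyEq_pow_smul_nonzero_iff).2 hnz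
    have hderiv : ∀ᶠ z in 𝓝 Q, L.derivWeierstrassP z = deriv D z := by
      filter_upwards [n1] with z z1
      simp only [hD, deriv_sub_const]
      rw [L.deriv_weierstrassP]
    have hgan : ∀ᶠ z in 𝓝 Q, AnalyticAt ℂ g z := hg.eventually_analyticAt
    have hder2 : ∀ᶠ z in 𝓝 Q, deriv D z =
        (n : ℂ) * (z - Q) ^ (n - 1) * g z + (z - Q) ^ n * deriv g z := by
      filter_upwards [hgD.eventually_nhds, hgan] with z z1 z2
      have e1 : deriv D z = deriv (fun z => (z - Q) ^ n * g z) z := by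
        apply Filter.EventuallyEq.deriv_eq
        filter_upwards [z1] with y hy
        rw [hy, smul_eq_mul]
      rw [e1]
      have e2 : HasDerivAt (fun z : ℂ => (z - Q) ^ n) ((n : ℂ) * (z - Q) ^ (n - 1)) z := by
        have h7 := ((hasDerivAt_id' z).sub_const Q).fun_pow n
        rwa [mul_one] at h7
      exact (e2.mul z2.differentiableAt.hasDerivAt).deriv
    have hkey : ∀ᶠ z in 𝓝[≠] Q, (n : ℂ) * g z + (z - Q) * deriv g z = (1 + (z - Q) * k z) * g z := by
      have hall := (((hlog.and hderiv).and hder2).and hgD).filter_mono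
        (nhdsWithin_le_nhds (s := {Q}ᶜ))
      filter_upwards [hall, self_mem_nhdsWithin] with z z1 z2
      obtain ⟨⟨⟨z3, z4⟩, z5⟩, z6⟩ := z1
      have z7 : z - Q ≠ 0 := sub_ne_zero.2 z2
      have z8 := z3 z2
      rw [z4, z5, z6, smul_eq_mul] at z8
      have z9 : (z - Q) * ((n : ℂ) * (z - Q) ^ (n - 1) * g z) = (z - Q) ^ n * (n * g z) := by
        rcases Nat.eq_zero_or_pos n with hn | hn
        · rw [hn]; simp
        · obtain ⟨m, rfl⟩ := Nat.exists_eq_succ_of_ne_zero hn.ne'
          rw [Nat.succ_eq_add_one, Nat.add_sub_cancel, pow_succ]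
          ring
      apply mul_left_cancel₀ (pow_ne_zero n z7)
      linear_combination z8 - z9
    have hlim1 : Tendsto (fun z => (n : ℂ) * g z + (z - Q) * deriv g z) (𝓝[≠] Q)
        (𝓝 ((n : ℂ) * g Q + (Q - Q) * deriv g Q)) := by
      apply Tendsto.mono_left _ nhdsWithin_le_nhds
      have c1 : ContinuousAt g Q := hg.continuousAt
      have c2 : ContinuousAt (deriv g) Q := hg.deriv.continuousAt
      have c3 : ContinuousAt (fun z => (n : ℂ) * g z + (z - Q) * deriv g z) Q := by fun_prop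
      exact c3.tendsto
    have hlim2 : Tendsto (fun z => (1 + (z - Q) * k z) * g z) (𝓝[≠] Q)
        (𝓝 ((1 + (Q - Q) * k Q) * g Q)) := by
      apply Tendsto.mono_left _ nhdsWithin_le_nhds
      have c1 : ContinuousAt g Q := hg.continuousAt
      have c3 : ContinuousAt (fun z => (1 + (z - Q) * k z) * g z) Q := by fun_prop
      exact c3.tendsto
    have heq := tendsto_nhds_unique (hlim1.congr' hkey) hlim2
    rw [sub_self, zero_mul, zero_mul, add_zero, add_zero, one_mul] at heq
    have hn1 : n = 1 := by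
      have : (n : ℂ) = 1 := by
        apply mul_right_cancel₀ hg0
        rw [heq, one_mul]
      exact_mod_cast this
    have hfin := hder2.self_of_nhds
    rw [← hderiv.self_of_nhds, h0, hn1] at hfin
    simp at hfin
    exact hg0 hfin.symm
  · intro h2
    have h3 : L.derivWeierstrassP (-Q + ((⟨2 * Q, h2⟩ : L.lattice) : ℂ)) =
        L.derivWeierstrassP (-Q) := L.derivWeierstrassP_add_coe _ _
    have e1 : -Q + ((⟨2 * Q, h2⟩ : L.lattice) : ℂ) = Q := by
      show -Q + 2 * Q = Q
      ring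
    rw [e1, L.derivWeierstrassP_neg] at h3
    have h4 : (2 : ℂ) * L.derivWeierstrassP Q = 0 := by linear_combination h3
    simpa using h4

end Pool.Agent.MU3B


end

section

/-!
# MU3, block B: (ZAD)
-/

set_option autoImplicit false

namespace Pool.Agent.MU3B

theorem t_ZAD (hPER : St_PER) (hID : St_ID) : St_ZAD := by
  intro L Q z hQ hz hzQ hzQ'
  have hodd := (hPER L).2 (z - Q)
  have h1 := hID L Q z hQ hz hzQ hzQ'
  have h2 := hID L z Q hz hQ (by rwa [add_comm]) (fun h => hzQ' (by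
    have := L.lattice.neg_mem h
    rwa [neg_sub] at this))
  rw [neg_sub] at hodd
  rw [hodd, add_comm Q z] at h2
  linear_combination h1 - h2

end Pool.Agent.MU3B


end

section

/-!
# MU3, block B: module TRA (helper50)
-/

set_option autoImplicit false

namespace Pool.Agent.MU3B

theorem t_TRA (hTDL : St_TDL) (hPER : St_PER) : St_TRA := by
  intro L b H hb hH z hz hbz
  have hb' : (b : ℂ) ≠ 0 := Int.cast_ne_zero.2 hb
  have hbL : ∀ w ∈ L.lattice, (b : ℂ) * w ∈ L.lattice := by
    intro w hw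
    have := L.lattice.smul_mem b hw
    rwa [zsmul_eq_mul] at this
  have hbz' : (b : ℂ) * z ∉ L.lattice := by
    intro h
    apply hz
    have h1 := L.lattice.sub_mem h hbz
    have e : z = (b : ℂ) * z - (b - 1) * z := by ring
    rwa [e]
  have h1 := (hTDL L b H hb' hbL hH z hbz').1
  have h2 : ee L ((b : ℂ) * z) = ee L z := by
    have h3 := (hPER L).1 z _ hbz
    rw [← h3]
    congr 1
    ring
  have h4 : ((‖(b : ℂ)‖ ^ 2 : ℝ) : ℂ) = (b : ℂ) ^ 2 := by
    rw [Complex.norm_intCast, sq_abs]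
    push_cast
    rfl
  rw [h1, h2, h4]
  ring

end Pool.Agent.MU3B


end

section

/-!
# MU3, block B: zeros of the functions `Θ_a` (TNZ)
-/

set_option autoImplicit false

namespace Pool.Agent.MU3B

open Complex Real Filter Topology
open scoped ComplexConjugate

namespace TnzAux

/-- congruent points have the same value -/
theorem wp_eq (L : PeriodPair) {z q : ℂ} (h : z - q ∈ L.lattice ∨ z + q ∈ L.lattice) :
    L.weierstrassP z = L.weierstrassP q := by
  rcases h with h | h
  · have h1 := L.weierstrassP_add_coe q ⟨z - q, h⟩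
    rw [← h1]
    congr 1
    ring
  · have h1 := L.weierstrassP_add_coe (-q) ⟨z + q, h⟩
    rw [L.weierstrassP_neg] at h1
    rw [← h1]
    congr 1
    ring

end TnzAux

theorem t_TNZ (hNEQ : St_NEQ) : St_TNZ := by
  intro L a H ha hH z hz
  unfold ThetaH
  rw [Finset.prod_eq_zero_iff]
  constructor
  · rintro ⟨q, hq, h0⟩
    have hq0 : q ∉ L.lattice := by
      intro h
      apply hH.ne q hq
      rw [two_mul]
      exact L.lattice.add_mem h h
    have haq := hH.mem q hq
    rcases hNEQ L q z hq0 hz (sub_eq_zero.1 h0) with h | h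
    · have h1 := L.lattice.add_mem (ha _ h) haq
      have h2 : a * (z - q) + a * q = a * z := by ring
      rwa [h2] at h1
    · have h1 := L.lattice.sub_mem (ha _ h) haq
      have h2 : a * (z + q) - a * q = a * z := by ring
      rwa [h2] at h1
  · intro h
    obtain ⟨q, hq, h1⟩ := hH.surj z h hz
    exact ⟨q, hq, sub_eq_zero.2 (TnzAux.wp_eq L h1)⟩

end Pool.Agent.MU3B


end

section

/-!
# MU3, block B: homogeneity of `e`
-/

set_option autoImplicit false

namespace Pool.Agent.MU3B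

open Complex Real Filter Topology
open scoped ComplexConjugate

theorem t_SCL (hINT : St_INT) : St_SCL := by
  intro L L' a ha hL z
  have hna : 0 < ‖a‖ ^ 2 := by positivity
  have h1 := (hINT L' 1 one_pos (a * z)).2
  have h2 := (hINT L (‖a‖ ^ 2) hna z).2
  let E : L.lattice ≃ L'.lattice :=
    { toFun := fun w => ⟨a * w, (hL w).1 w.2⟩
      invFun := fun w => ⟨(w : ℂ) / a, (hL _).2 (by
        rw [mul_div_cancel₀ _ ha]
        exact w.2)⟩
      left_inv := fun w => by
        apply Subtype.ext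
        exact mul_div_cancel_left₀ _ ha
      right_inv := fun w => by
        apply Subtype.ext
        exact mul_div_cancel₀ _ ha }
  have hE : ∀ w : L.lattice, ((E w : L'.lattice) : ℂ) = a * w := fun _ => rfl
  have key : ∀ t : ℝ, (∑' w : L'.lattice,
      conj (a * z + w) * (Real.exp (-(1 * t * ‖a * z + w‖ ^ 2)) : ℝ)) =
      conj a * ∑' w : L.lattice,
        conj (z + w) * (Real.exp (-(‖a‖ ^ 2 * t * ‖z + w‖ ^ 2)) : ℝ) := by
    intro t
    rw [← tsum_mul_left, ← E.tsum_eq]
    apply tsum_congr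
    intro w
    rw [hE, ← mul_add, map_mul, norm_mul]
    have e1 : 1 * t * (‖a‖ * ‖z + (w : ℂ)‖) ^ 2 = ‖a‖ ^ 2 * t * ‖z + (w : ℂ)‖ ^ 2 := by ring
    rw [e1, mul_assoc]
  have h3 : (∫ t in Set.Ioi (0 : ℝ), ∑' w : L'.lattice,
      conj (a * z + w) * ((Real.exp (-(1 * t * ‖a * z + w‖ ^ 2)) : ℝ) : ℂ)) =
      conj a * (ee L z / ((‖a‖ ^ 2 : ℝ) : ℂ)) := by
    rw [← h2, ← MeasureTheory.integral_const_mul]
    congr 1
    funext t
    exact key t
  rw [h3] at h1
  have h4 : conj a * (ee L z / ((‖a‖ ^ 2 : ℝ) : ℂ)) = ee L z / a := by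
    have hca : conj a ≠ 0 := by
      rwa [Ne, map_eq_zero]
    have h5 : ((‖a‖ ^ 2 : ℝ) : ℂ) = a * conj a := by
      rw [Complex.mul_conj, Complex.normSq_eq_norm_sq]
    rw [h5]
    field_simp
  rw [h4] at h1
  rw [h1]
  simp

end Pool.Agent.MU3B


end

section

/-!
# MU3B_POD
-/

set_option autoImplicit false

namespace Pool.Agent.MU3B

open Complex Real Filter Topology
open scoped ComplexConjugate

namespace POD

/-- one Gaussian term along a line -/
lemma der_term (c : ℝ) (a h : ℂ) (s : ℝ) :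
    HasDerivAt (fun s : ℝ => Real.exp (-(c * ‖a + s * h‖ ^ 2)))
      (-(2 * c) * (conj (a + s * h) * h).re * Real.exp (-(c * ‖a + s * h‖ ^ 2))) s := by
  have e : ∀ s : ℝ, ‖a + s * h‖ ^ 2 = (a.re + s * h.re) ^ 2 + (a.im + s * h.im) ^ 2 := by
    intro s
    rw [Complex.sq_norm, Complex.normSq_apply]
    simp
    ring
  have h1 : HasDerivAt (fun s : ℝ => -(c * ((a.re + s * h.re) ^ 2 + (a.im + s * h.im) ^ 2)))
      (-(c * (2 * (a.re + s * h.re) * h.re + 2 * (a.im + s * h.im) * h.im))) s := by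
    have h2 : HasDerivAt (fun s : ℝ => a.re + s * h.re) h.re s := by
      simpa using ((hasDerivAt_id s).mul_const h.re).const_add a.re
    have h3 : HasDerivAt (fun s : ℝ => a.im + s * h.im) h.im s := by
      simpa using ((hasDerivAt_id s).mul_const h.im).const_add a.im
    have h4 := (((h2.pow 2).add (h3.pow 2)).const_mul c).neg
    refine h4.congr_deriv ?_
    simp
  have h5 := h1.exp
  have h6 : (fun s : ℝ => Real.exp (-(c * ‖a + s * h‖ ^ 2))) =
      fun s : ℝ => Real.exp (-(c * ((a.re + s * h.re) ^ 2 + (a.im + s * h.im) ^ 2))) := by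
    funext s
    rw [e]
  rw [h6]
  refine h5.congr_deriv ?_
  rw [e]
  simp
  ring

lemma derF (hSUM : St_SUM) (L : PeriodPair) (c : ℝ) (hc : 0 < c) (z h : ℂ) (hh : ‖h‖ ≤ 1) :
    HasDerivAt (fun s : ℝ => ∑' w : L.lattice, Real.exp (-(c * ‖z + s * h + w‖ ^ 2)))
      (∑' w : L.lattice, -(2 * c) * (conj (z + w) * h).re * Real.exp (-(c * ‖z + w‖ ^ 2))) 0 := by
  obtain ⟨u, hu, hb⟩ := hSUM L c hc 1 (‖z‖ + 1)
  have hz' : ∀ s : ℝ, s ∈ Set.Ioo (-1 : ℝ) 1 → ‖z + s * h‖ ≤ ‖z‖ + 1 := by
    intro s hs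
    refine (norm_add_le _ _).trans ?_
    have h1 : ‖(s : ℂ) * h‖ ≤ 1 := by
      rw [norm_mul, Complex.norm_real, Real.norm_eq_abs]
      have h2 : |s| ≤ 1 := (abs_lt.2 ⟨hs.1, hs.2⟩).le
      calc |s| * ‖h‖ ≤ 1 * 1 := mul_le_mul h2 hh (norm_nonneg _) zero_le_one
        _ = 1 := one_mul 1
    linarith
  have key := hasDerivAt_tsum_of_isPreconnected (u := fun w : L.lattice => 2 * c * u w)
    (g := fun (w : L.lattice) (s : ℝ) => Real.exp (-(c * ‖z + s * h + w‖ ^ 2)))
    (g' := fun (w : L.lattice) (s : ℝ) => -(2 * c) * (conj (z + s * h + w) * h).re *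
      Real.exp (-(c * ‖z + s * h + w‖ ^ 2))) (t := Set.Ioo (-1 : ℝ) 1) (y₀ := 0) (y := 0)
    (hu.mul_left _) isOpen_Ioo isPreconnected_Ioo ?_ ?_ (by simp) ?_ (by simp)
  · refine key.congr_deriv ?_
    refine tsum_congr fun w => ?_
    simp
  · intro w s _
    have h1 := der_term c (z + w) h s
    have e1 : ∀ s : ℝ, z + s * h + w = z + w + s * h := fun s => by ring
    simp only [e1]
    exact h1
  · intro w s hs
    have h1 := (hb w (z + s * h) (hz' s hs)).1
    rw [norm_mul, norm_mul, Real.norm_eq_abs, Real.norm_eq_abs, Real.norm_eq_abs, abs_neg,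
      abs_of_pos (by positivity : (0 : ℝ) < 2 * c), abs_of_pos (Real.exp_pos _), mul_assoc]
    refine mul_le_mul_of_nonneg_left (le_trans ?_ h1) (by positivity)
    refine mul_le_mul_of_nonneg_right ?_ (Real.exp_pos _).le
    rw [pow_one]
    refine (Complex.abs_re_le_norm _).trans ?_
    rw [norm_mul, Complex.norm_conj]
    calc ‖z + s * h + w‖ * ‖h‖ ≤ ‖z + s * h + w‖ * 1 :=
          mul_le_mul_of_nonneg_left hh (norm_nonneg _)
      _ ≤ 1 + ‖z + s * h + w‖ := by linarith
  · have h1 : ∀ w : L.lattice, Real.exp (-(c * ‖z + ((0 : ℝ) : ℂ) * h + w‖ ^ 2)) ≤ u w := by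
      intro w
      have h2 := (hb w (z + ((0 : ℝ) : ℂ) * h) (hz' 0 (by simp))).1
      refine le_trans ?_ h2
      have h3 : (1 : ℝ) ≤ (1 + ‖z + ((0 : ℝ) : ℂ) * h + w‖) ^ 1 := by
        rw [pow_one]
        linarith [norm_nonneg (z + ((0 : ℝ) : ℂ) * h + w)]
      calc Real.exp (-(c * ‖z + ((0 : ℝ) : ℂ) * h + w‖ ^ 2))
          = 1 * Real.exp (-(c * ‖z + ((0 : ℝ) : ℂ) * h + w‖ ^ 2)) := (one_mul _).symm
        _ ≤ _ := mul_le_mul_of_nonneg_right h3 (Real.exp_pos _).le
    exact Summable.of_nonneg_of_le (fun w => (Real.exp_pos _).le) h1 hu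

lemma pr_der (L : PeriodPair) (w z h : ℂ) (s : ℝ) :
    HasDerivAt (fun s : ℝ => pr L w (z + s * h))
      (((π / area L : ℝ) : ℂ) * (conj w * h - w * conj h) * pr L w (z + s * h)) s := by
  unfold pr
  have h1 : HasDerivAt (fun s : ℝ => ((π / area L : ℝ) : ℂ) *
      (conj w * (z + s * h) - w * conj (z + s * h)))
      (((π / area L : ℝ) : ℂ) * (conj w * h - w * conj h)) s := by
    have e1 : (fun s : ℝ => ((π / area L : ℝ) : ℂ) *
        (conj w * (z + s * h) - w * conj (z + s * h))) = fun s : ℝ => ((π / area L : ℝ) : ℂ) *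
        (conj w * z - w * conj z) + (s : ℂ) *
          (((π / area L : ℝ) : ℂ) * (conj w * h - w * conj h)) := by
      funext s
      rw [map_add, map_mul, Complex.conj_ofReal]
      ring
    rw [e1]
    have h2 : HasDerivAt (fun s : ℝ => (s : ℂ)) 1 s := Complex.ofRealCLM.hasDerivAt
    simpa using (h2.mul_const (((π / area L : ℝ) : ℂ) * (conj w * h - w * conj h))).const_add
      (((π / area L : ℝ) : ℂ) * (conj w * z - w * conj z))
  exact (h1.cexp).congr_deriv (by ring)

lemma derG (hSUM : St_SUM) (hLAT : St_LAT) (L : PeriodPair) (c : ℝ) (hc : 0 < c) (z h : ℂ)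
    (hh : ‖h‖ ≤ 1) :
    HasDerivAt (fun s : ℝ => ∑' w : L.lattice, pr L w (z + s * h) *
        (Real.exp (-(c * ‖(w : ℂ)‖ ^ 2)) : ℝ))
      (∑' w : L.lattice, ((π / area L : ℝ) : ℂ) * (conj (w : ℂ) * h - w * conj h) * pr L w z *
        (Real.exp (-(c * ‖(w : ℂ)‖ ^ 2)) : ℝ)) 0 := by
  obtain ⟨u, hu, hb⟩ := hSUM L c hc 1 0
  obtain ⟨hA, hn, -⟩ := hLAT L
  have key := hasDerivAt_tsum_of_isPreconnected
    (u := fun w : L.lattice => (π / area L) * 2 * u w)
    (g := fun (w : L.lattice) (s : ℝ) => pr L w (z + s * h) *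
      (Real.exp (-(c * ‖(w : ℂ)‖ ^ 2)) : ℝ))
    (g' := fun (w : L.lattice) (s : ℝ) => ((π / area L : ℝ) : ℂ) *
      (conj (w : ℂ) * h - w * conj h) * pr L w (z + s * h) *
      (Real.exp (-(c * ‖(w : ℂ)‖ ^ 2)) : ℝ)) (t := Set.univ) (y₀ := 0) (y := 0)
    (hu.mul_left _) isOpen_univ isPreconnected_univ ?_ ?_ (Set.mem_univ _) ?_ (Set.mem_univ _)
  · refine key.congr_deriv ?_
    refine tsum_congr fun w => ?_
    simp
  · intro w s _
    exact (pr_der L w z h s).mul_const _
  · intro w s _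
    have h1 := (hb w 0 (by simp)).2
    rw [pow_one] at h1
    rw [norm_mul, norm_mul, norm_mul, hn, mul_one, Complex.norm_real, Complex.norm_real,
      Real.norm_eq_abs, Real.norm_eq_abs, abs_of_pos (div_pos Real.pi_pos hA),
      abs_of_pos (Real.exp_pos _)]
    have h2 : ‖conj (w : ℂ) * h - w * conj h‖ ≤ 2 * (1 + ‖(w : ℂ)‖) := by
      refine (norm_sub_le _ _).trans ?_
      rw [norm_mul, norm_mul, Complex.norm_conj, Complex.norm_conj]
      have h3 : ‖(w : ℂ)‖ * ‖h‖ ≤ ‖(w : ℂ)‖ * 1 := mul_le_mul_of_nonneg_left hh (norm_nonneg _)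
      linarith
    have hp : 0 < π / area L := div_pos Real.pi_pos hA
    calc π / area L * ‖conj (w : ℂ) * h - w * conj h‖ * Real.exp (-(c * ‖(w : ℂ)‖ ^ 2))
        ≤ π / area L * (2 * (1 + ‖(w : ℂ)‖)) * Real.exp (-(c * ‖(w : ℂ)‖ ^ 2)) :=
          mul_le_mul_of_nonneg_right (mul_le_mul_of_nonneg_left h2 hp.le) (Real.exp_pos _).le
      _ = π / area L * 2 * ((1 + ‖(w : ℂ)‖) * Real.exp (-(c * ‖(w : ℂ)‖ ^ 2))) := by ring
      _ ≤ π / area L * 2 * u w := mul_le_mul_of_nonneg_left h1 (by positivity)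
  · refine Summable.of_norm_bounded hu fun w => ?_
    have h1 := (hb w 0 (by simp)).2
    rw [pow_one] at h1
    rw [norm_mul, hn, one_mul, Complex.norm_real, Real.norm_eq_abs, abs_of_pos (Real.exp_pos _)]
    refine le_trans ?_ h1
    calc Real.exp (-(c * ‖(w : ℂ)‖ ^ 2)) = 1 * Real.exp (-(c * ‖(w : ℂ)‖ ^ 2)) := (one_mul _).symm
      _ ≤ (1 + ‖(w : ℂ)‖) * Real.exp (-(c * ‖(w : ℂ)‖ ^ 2)) :=
        mul_le_mul_of_nonneg_right (by linarith [norm_nonneg (w : ℂ)]) (Real.exp_pos _).le

end POD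

open _root_.Pool.Agent.MU3B.POD in
theorem t_POD (hSUM : St_SUM) (hLAT : St_LAT) (hPOI : St_POI) : St_POD := by
  intro L t ht z
  obtain ⟨hA, hn, -⟩ := hLAT L
  set A := area L with hAdef
  obtain ⟨c, hc⟩ : ∃ c : ℝ, c = π / (A * t) := ⟨_, rfl⟩
  obtain ⟨c', hc'⟩ : ∃ c' : ℝ, c' = π * t / A := ⟨_, rfl⟩
  have hc0 : 0 < c := by rw [hc]; positivity
  have hc0' : 0 < c' := by rw [hc']; positivity
  have e1 : ∀ x : ℝ, π * x / (A * t) = c * x := fun x => by rw [hc]; ring
  have e2 : ∀ x : ℝ, π * t * x / A = c' * x := fun x => by rw [hc']; ring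
  obtain ⟨u, hu, hb⟩ := hSUM L c hc0 1 ‖z‖
  obtain ⟨u', hu', hb'⟩ := hSUM L c' hc0' 1 0
  have hP : ∀ x : ℂ, ((∑' w : L.lattice, Real.exp (-(c * ‖x + w‖ ^ 2)) : ℝ) : ℂ) =
      t * ∑' w : L.lattice, pr L w x * (Real.exp (-(c' * ‖(w : ℂ)‖ ^ 2)) : ℝ) := by
    intro x
    have h1 := hPOI L t ht x
    unfold Gs Th at h1
    simp only [← hAdef, e1, e2] at h1
    exact h1
  simp only [e1, e2]
  -- the summands
  have hsG : ∀ h : ℂ, ‖h‖ ≤ 1 → Summable (fun w : L.lattice =>
      ((conj (z + w) * h).re * Real.exp (-(c * ‖z + w‖ ^ 2)) : ℝ)) := by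
    intro h hh
    refine Summable.of_norm_bounded hu fun w => ?_
    have h1 := (hb w z le_rfl).1
    rw [pow_one] at h1
    rw [norm_mul, Real.norm_eq_abs, Real.norm_eq_abs, abs_of_pos (Real.exp_pos _)]
    refine le_trans (mul_le_mul_of_nonneg_right ?_ (Real.exp_pos _).le) h1
    refine (Complex.abs_re_le_norm _).trans ?_
    rw [norm_mul, Complex.norm_conj]
    have h3 : ‖z + w‖ * ‖h‖ ≤ ‖z + w‖ * 1 := mul_le_mul_of_nonneg_left hh (norm_nonneg _)
    linarith
  have hsT : ∀ h : ℂ, ‖h‖ ≤ 1 → Summable (fun w : L.lattice =>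
      (conj (w : ℂ) * h - w * conj h) * pr L w z *
        ((Real.exp (-(c' * ‖(w : ℂ)‖ ^ 2)) : ℝ) : ℂ)) := by
    intro h hh
    refine Summable.of_norm_bounded (hu'.mul_left 2) fun w => ?_
    have h1 := (hb' w 0 (by simp)).2
    rw [pow_one] at h1
    rw [norm_mul, norm_mul, hn, mul_one, Complex.norm_real, Real.norm_eq_abs,
      abs_of_pos (Real.exp_pos _)]
    have h2 : ‖conj (w : ℂ) * h - w * conj h‖ ≤ 2 * (1 + ‖(w : ℂ)‖) := by
      refine (norm_sub_le _ _).trans ?_
      rw [norm_mul, norm_mul, Complex.norm_conj, Complex.norm_conj]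
      have h3 : ‖(w : ℂ)‖ * ‖h‖ ≤ ‖(w : ℂ)‖ * 1 := mul_le_mul_of_nonneg_left hh (norm_nonneg _)
      linarith
    calc ‖conj (w : ℂ) * h - w * conj h‖ * Real.exp (-(c' * ‖(w : ℂ)‖ ^ 2))
        ≤ 2 * (1 + ‖(w : ℂ)‖) * Real.exp (-(c' * ‖(w : ℂ)‖ ^ 2)) :=
          mul_le_mul_of_nonneg_right h2 (Real.exp_pos _).le
      _ = 2 * ((1 + ‖(w : ℂ)‖) * Real.exp (-(c' * ‖(w : ℂ)‖ ^ 2))) := by ring
      _ ≤ 2 * u' w := mul_le_mul_of_nonneg_left h1 (by norm_num)
  -- comparison of derivatives
  have hD : ∀ h : ℂ, ‖h‖ ≤ 1 →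
      -(2 * c : ℂ) * ((∑' w : L.lattice,
        ((conj (z + w) * h).re * Real.exp (-(c * ‖z + w‖ ^ 2)) : ℝ) : ℝ) : ℂ) =
      t * (((π / A : ℝ) : ℂ) * ∑' w : L.lattice, (conj (w : ℂ) * h - w * conj h) * pr L w z *
        ((Real.exp (-(c' * ‖(w : ℂ)‖ ^ 2)) : ℝ) : ℂ)) := by
    intro h hh
    have h1 := (derF hSUM L c hc0 z h hh).ofReal_comp
    have h2 := (derG hSUM hLAT L c' hc0' z h hh).const_mul (t : ℂ)
    have h3 : (fun s : ℝ => ((∑' w : L.lattice,
        Real.exp (-(c * ‖z + s * h + w‖ ^ 2)) : ℝ) : ℂ)) =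
        fun s : ℝ => (t : ℂ) * ∑' w : L.lattice, pr L w (z + s * h) *
          (Real.exp (-(c' * ‖(w : ℂ)‖ ^ 2)) : ℝ) := by
      funext s
      exact hP _
    rw [h3] at h1
    have h4 := h1.unique h2
    have h5 : (∑' w : L.lattice, -(2 * c) * (conj (z + w) * h).re *
        Real.exp (-(c * ‖z + w‖ ^ 2))) = -(2 * c) * ∑' w : L.lattice,
        ((conj (z + w) * h).re * Real.exp (-(c * ‖z + w‖ ^ 2)) : ℝ) := by
      rw [← tsum_mul_left]
      exact tsum_congr fun w => by ring
    have h6 : (∑' w : L.lattice, ((π / area L : ℝ) : ℂ) * (conj (w : ℂ) * h - w * conj h) *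
        pr L w z * (Real.exp (-(c' * ‖(w : ℂ)‖ ^ 2)) : ℝ)) = ((π / A : ℝ) : ℂ) *
        ∑' w : L.lattice, (conj (w : ℂ) * h - w * conj h) * pr L w z *
          ((Real.exp (-(c' * ‖(w : ℂ)‖ ^ 2)) : ℝ) : ℂ) := by
      rw [← tsum_mul_left]
      exact tsum_congr fun w => by rw [hAdef]; ring
    rw [h5, h6] at h4
    rw [← h4]
    push_cast
    ring
  have d1 := hD 1 (by simp)
  have d2 := hD I (by simp)
  -- combine
  have s1 : (∑' w : L.lattice, conj (z + w) * ((Real.exp (-(c * ‖z + w‖ ^ 2)) : ℝ) : ℂ)) =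
      ((∑' w : L.lattice, ((conj (z + w) * 1).re * Real.exp (-(c * ‖z + w‖ ^ 2)) : ℝ) : ℝ) : ℂ) -
      I * ((∑' w : L.lattice,
        ((conj (z + w) * I).re * Real.exp (-(c * ‖z + w‖ ^ 2)) : ℝ) : ℝ) : ℂ) := by
    rw [Complex.ofReal_tsum, Complex.ofReal_tsum, ← tsum_mul_left, ← Summable.tsum_sub]
    · refine tsum_congr fun w => ?_
      have e3 : ∀ a : ℂ, a = ((a * 1).re : ℂ) - I * ((a * I).re : ℂ) := by
        intro a
        apply Complex.ext <;> simp
      calc conj (z + w) * ((Real.exp (-(c * ‖z + w‖ ^ 2)) : ℝ) : ℂ)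
          = (((conj (z + w) * 1).re : ℂ) - I * ((conj (z + w) * I).re : ℂ)) *
            ((Real.exp (-(c * ‖z + w‖ ^ 2)) : ℝ) : ℂ) := by rw [← e3]
        _ = _ := by push_cast; ring
    · exact Complex.summable_ofReal.2 (hsG 1 (by simp))
    · exact (Complex.summable_ofReal.2 (hsG I (by simp))).mul_left I
  have s2 : (2 : ℂ) * (∑' w : L.lattice, conj (w : ℂ) * pr L w z *
      ((Real.exp (-(c' * ‖(w : ℂ)‖ ^ 2)) : ℝ) : ℂ)) =
      (∑' w : L.lattice, (conj (w : ℂ) * 1 - w * conj (1 : ℂ)) * pr L w z *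
        ((Real.exp (-(c' * ‖(w : ℂ)‖ ^ 2)) : ℝ) : ℂ)) -
      I * ∑' w : L.lattice, (conj (w : ℂ) * I - w * conj I) * pr L w z *
        ((Real.exp (-(c' * ‖(w : ℂ)‖ ^ 2)) : ℝ) : ℂ) := by
    rw [← tsum_mul_left, ← tsum_mul_left, ← Summable.tsum_sub (hsT 1 (by simp))
      ((hsT I (by simp)).mul_left I)]
    refine tsum_congr fun w => ?_
    rw [map_one, Complex.conj_I]
    linear_combination ((conj (w : ℂ) + w) * pr L w z *
      ((Real.exp (-(c' * ‖(w : ℂ)‖ ^ 2)) : ℝ) : ℂ)) * I_sq
  set X1 := ((∑' w : L.lattice,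
    ((conj (z + w) * 1).re * Real.exp (-(c * ‖z + w‖ ^ 2)) : ℝ) : ℝ) : ℂ)
  set X2 := ((∑' w : L.lattice,
    ((conj (z + w) * I).re * Real.exp (-(c * ‖z + w‖ ^ 2)) : ℝ) : ℝ) : ℂ)
  set Y1 := ∑' w : L.lattice, (conj (w : ℂ) * 1 - w * conj (1 : ℂ)) * pr L w z *
        ((Real.exp (-(c' * ‖(w : ℂ)‖ ^ 2)) : ℝ) : ℂ)
  set Y2 := ∑' w : L.lattice, (conj (w : ℂ) * I - w * conj I) * pr L w z *
        ((Real.exp (-(c' * ‖(w : ℂ)‖ ^ 2)) : ℝ) : ℂ)
  set Y := ∑' w : L.lattice, conj (w : ℂ) * pr L w z *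
        ((Real.exp (-(c' * ‖(w : ℂ)‖ ^ 2)) : ℝ) : ℂ)
  rw [s1]
  have hcC : (c : ℂ) ≠ 0 := by exact_mod_cast hc0.ne'
  have hAC : (A : ℂ) ≠ 0 := by exact_mod_cast hA.ne'
  have htC : (t : ℂ) ≠ 0 := by exact_mod_cast ht.ne'
  have hpC : (π : ℂ) ≠ 0 := by exact_mod_cast Real.pi_ne_zero
  have hcv : (c : ℂ) = π / (A * t) := by rw [hc]; push_cast; rfl
  have hfin : -(2 * c : ℂ) * (X1 - I * X2) = t * (((π / A : ℝ) : ℂ) * (2 * Y)) := by
    rw [s2]
    linear_combination d1 - I * d2
  rw [hcv] at hfin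
  push_cast at hfin
  field_simp at hfin
  linear_combination (-1 : ℂ) * hfin

end Pool.Agent.MU3B


end

section

/-!
# MU3, block B, module PER: the function `e` is periodic and odd
-/

set_option autoImplicit false

namespace Pool.Agent.MU3B

open Complex Real Filter Topology
open scoped ComplexConjugate

noncomputable section

theorem t_PER (hLAT : St_LAT) : St_PER := by
  intro L
  obtain ⟨-, -, hadd, -, hneg1, hneg2, hone, -, -⟩ := hLAT L
  refine ⟨?_, ?_⟩
  · intro z v hv
    unfold ee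
    have h1 : (∑' w : L.lattice, ((Real.exp (-(π * ‖z + v + w‖ ^ 2 / area L)) : ℝ) : ℂ) / (z + v + w)) =
        ∑' w : L.lattice, ((Real.exp (-(π * ‖z + w‖ ^ 2 / area L)) : ℝ) : ℂ) / (z + w) := by
      rw [← (Equiv.addRight (⟨v, hv⟩ : L.lattice)).tsum_eq
        (fun w : L.lattice => ((Real.exp (-(π * ‖z + w‖ ^ 2 / area L)) : ℝ) : ℂ) / (z + w))]
      refine tsum_congr fun w => ?_
      have h2 : z + (((Equiv.addRight (⟨v, hv⟩ : L.lattice)) w : L.lattice) : ℂ) = z + v + w := by
        simp only [Equiv.coe_addRight, Submodule.coe_add]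
        ring
      simp only [h2]
    have h3 : (∑' w : L.lattice, pr L w (z + v) *
        ((Real.exp (-(π * ‖(w : ℂ)‖ ^ 2 / area L)) : ℝ) : ℂ) / w) =
        ∑' w : L.lattice, pr L w z * ((Real.exp (-(π * ‖(w : ℂ)‖ ^ 2 / area L)) : ℝ) : ℂ) / w := by
      refine tsum_congr fun w => ?_
      rw [hadd, hone w w.2 v hv, mul_one]
    rw [h1, h3]
  · intro z
    unfold ee
    have h1 : (∑' w : L.lattice, ((Real.exp (-(π * ‖-z + w‖ ^ 2 / area L)) : ℝ) : ℂ) / (-z + w)) =
        -∑' w : L.lattice, ((Real.exp (-(π * ‖z + w‖ ^ 2 / area L)) : ℝ) : ℂ) / (z + w) := by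
      rw [← (Equiv.neg L.lattice).tsum_eq
        (fun w : L.lattice => ((Real.exp (-(π * ‖-z + w‖ ^ 2 / area L)) : ℝ) : ℂ) / (-z + w)),
        ← tsum_neg]
      refine tsum_congr fun w => ?_
      have h2 : -z + (((Equiv.neg L.lattice) w : L.lattice) : ℂ) = -(z + w) := by
        simp only [Equiv.neg_apply, Submodule.coe_neg]
        ring
      simp only [h2, norm_neg, div_neg]
    have h3 : (∑' w : L.lattice, pr L w (-z) *
        ((Real.exp (-(π * ‖(w : ℂ)‖ ^ 2 / area L)) : ℝ) : ℂ) / w) =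
        -∑' w : L.lattice, pr L w z * ((Real.exp (-(π * ‖(w : ℂ)‖ ^ 2 / area L)) : ℝ) : ℂ) / w := by
      rw [← (Equiv.neg L.lattice).tsum_eq
        (fun w : L.lattice => pr L w (-z) *
          ((Real.exp (-(π * ‖(w : ℂ)‖ ^ 2 / area L)) : ℝ) : ℂ) / w), ← tsum_neg]
      refine tsum_congr fun w => ?_
      have h4 : pr L (-(w : ℂ)) (-z) = pr L w z := by
        rw [hneg1, hneg2, Complex.conj_conj]
      simp only [Equiv.neg_apply, Submodule.coe_neg, norm_neg, div_neg, h4]
    rw [h1, h3]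
    ring

end

end Pool.Agent.MU3B


end

section

/-!
# MU3, block B: `℘'' = 6 ℘² - g₂/2` outside the lattice
-/

set_option autoImplicit false

namespace Pool.Agent.MU3B

open Complex Real Filter Topology
open scoped ComplexConjugate

theorem p2_isPreconnected (L : PeriodPair) : IsPreconnected ((L.lattice : Set ℂ)ᶜ) := by
  have hc : (L.lattice : Set ℂ).Countable := by
    have h1 : Countable L.lattice := L.latticeEquivProd.toEquiv.countable_iff.mpr inferInstance
    exact Set.countable_coe_iff.mp h1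
  have hr : 1 < Module.rank ℝ ℂ := by
    rw [Complex.rank_real_complex]
    exact Nat.one_lt_ofNat
  exact (Set.Countable.isPathConnected_compl_of_one_lt_rank hr hc).isConnected.isPreconnected

theorem p2_deriv_ne (L : PeriodPair) : ¬ ∀ z ∈ (L.lattice : Set ℂ)ᶜ, L.derivWeierstrassP z = 0 := by
  intro h
  have hopen : IsOpen ((L.lattice : Set ℂ)ᶜ) := L.isClosed_lattice.isOpen_compl
  have hc : ∀ x ∈ (L.lattice : Set ℂ)ᶜ, ∀ y ∈ (L.lattice : Set ℂ)ᶜ,
      L.weierstrassP x = L.weierstrassP y := by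
    intro x hx y hy
    refine hopen.is_const_of_deriv_eq_zero (p2_isPreconnected L) L.differentiableOn_weierstrassP
      ?_ hx hy
    intro z hz
    rw [L.deriv_weierstrassP]
    exact h z hz
  have ho := L.order_weierstrassP 0 L.lattice.zero_mem
  have hev : ∀ᶠ z in 𝓝[≠] (0 : ℂ), z ∈ (L.lattice : Set ℂ)ᶜ := by
    have h1 := L.compl_lattice_sdiff_singleton_mem_nhds 0
    rw [eventually_nhdsWithin_iff]
    filter_upwards [h1] with z hz hz0 hzL
    exact hz ⟨hzL, hz0⟩
  have hcongr : L.weierstrassP =ᶠ[𝓝[≠] (0 : ℂ)]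
      fun _ => L.weierstrassP (L.ω₁ / 2) := by
    filter_upwards [hev] with z hz
    exact hc z hz _ L.ω₁_div_two_notMem_lattice
  rw [meromorphicOrderAt_congr hcongr, meromorphicOrderAt_const] at ho
  split_ifs at ho with h0
  · exact absurd ho (by decide)
  · exact absurd ho (by decide)

theorem t_P2 : St_P2 := by
  intro L z hz
  have hopen : IsOpen ((L.lattice : Set ℂ)ᶜ) := L.isClosed_lattice.isOpen_compl
  have hP := L.analyticOnNhd_weierstrassP
  have hD := L.analyticOnNhd_derivWeierstrassP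
  have hDD : AnalyticOnNhd ℂ (deriv L.derivWeierstrassP) (L.lattice : Set ℂ)ᶜ := hD.deriv
  have hdP : ∀ w ∈ (L.lattice : Set ℂ)ᶜ, HasDerivAt L.weierstrassP (L.derivWeierstrassP w) w := by
    intro w hw
    have h1 := (hP w hw).differentiableAt.hasDerivAt
    rwa [L.deriv_weierstrassP] at h1
  have hdD : ∀ w ∈ (L.lattice : Set ℂ)ᶜ,
      HasDerivAt L.derivWeierstrassP (deriv L.derivWeierstrassP w) w := fun w hw =>
    (hD w hw).differentiableAt.hasDerivAt
  have hg : AnalyticOnNhd ℂ (fun w => 2 * deriv L.derivWeierstrassP w - 12 * L.weierstrassP w ^ 2 +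
      L.g₂) (L.lattice : Set ℂ)ᶜ := by
    refine AnalyticOnNhd.add (AnalyticOnNhd.sub (analyticOnNhd_const.mul hDD)
      (analyticOnNhd_const.mul (hP.pow 2))) analyticOnNhd_const
  have hprod : ∀ w ∈ (L.lattice : Set ℂ)ᶜ,
      ((L.derivWeierstrassP * (fun w => 2 * deriv L.derivWeierstrassP w -
        12 * L.weierstrassP w ^ 2 + L.g₂) : ℂ → ℂ)) w = 0 := by
    intro w hw
    have e1 : HasDerivAt (fun u => L.derivWeierstrassP u ^ 2)
        (2 * L.derivWeierstrassP w * deriv L.derivWeierstrassP w) w := by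
      have := (hdD w hw).pow 2
      simpa [mul_assoc] using! this
    have e2 : HasDerivAt (fun u => 4 * L.weierstrassP u ^ 3 - L.g₂ * L.weierstrassP u - L.g₃)
        (4 * (3 * L.weierstrassP w ^ 2 * L.derivWeierstrassP w) -
          L.g₂ * L.derivWeierstrassP w) w := by
      have a1 := ((hdP w hw).pow 3).const_mul (4 : ℂ)
      have a2 := (hdP w hw).const_mul L.g₂
      have a3 := (a1.sub a2).sub_const L.g₃
      simpa using! a3
    have hee : (fun u => L.derivWeierstrassP u ^ 2) =ᶠ[𝓝 w]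
        (fun u => 4 * L.weierstrassP u ^ 3 - L.g₂ * L.weierstrassP u - L.g₃) := by
      filter_upwards [hopen.mem_nhds hw] with u hu
      exact L.derivWeierstrassP_sq u hu
    have e3 := (e2.congr_of_eventuallyEq hee).unique e1
    simp only [Pi.mul_apply]
    linear_combination -e3
  rcases AnalyticOnNhd.eq_zero_or_eq_zero_of_mul_eq_zero hD hg hprod (p2_isPreconnected L)
    with h | h
  · exact absurd h (p2_deriv_ne L)
  · have h1 := h z hz
    have h2 := hdD z hz
    have h3 : deriv L.derivWeierstrassP z = 6 * L.weierstrassP z ^ 2 - L.g₂ / 2 := by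
      linear_combination h1 / 2
    rwa [h3] at h2

end Pool.Agent.MU3B


end

section

/-!
# MU3, block B: module NEQ (helper18)
-/

set_option autoImplicit false

namespace Pool.Agent.MU3B

open Complex Real Filter Topology
open scoped ComplexConjugate

namespace NEQ18

/-- `zet L` is analytic outside the lattice. -/
theorem zet_an (hHOL : St_HOL) (L : PeriodPair) :
    AnalyticOnNhd ℂ (zet L) ((L.lattice : Set ℂ)ᶜ) := by
  refine DifferentiableOn.analyticOnNhd ?_ L.isClosed_lattice.isOpen_compl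
  intro z hz
  exact (hHOL L z hz).differentiableWithinAt

/-- A solution of `D' = b D` with a zero vanishes near it. -/
theorem ode {D b : ℂ → ℂ} {z₀ : ℂ} (hD : AnalyticAt ℂ D z₀) (hb : AnalyticAt ℂ b z₀)
    (h0 : D z₀ = 0) (hd : deriv D =ᶠ[𝓝 z₀] b * D) : ∀ᶠ z in 𝓝 z₀, D z = 0 := by
  rw [← analyticOrderAt_eq_top]
  have h1 := hD.analyticOrderAt_deriv_add_one
  have h2 : (fun z => D z - D z₀) = D := by
    funext z
    rw [h0, sub_zero]
  rw [h2, analyticOrderAt_congr hd, analyticOrderAt_mul hb hD] at h1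
  by_contra hne
  obtain ⟨n, hn⟩ := ENat.ne_top_iff_exists.1 hne
  rw [← hn] at h1
  cases hc : analyticOrderAt b z₀ with
  | top =>
    rw [hc] at h1
    simp at h1
  | coe m =>
    rw [hc] at h1
    have h3 : m + n + 1 = n := by exact_mod_cast h1
    omega

/-- The complement of the lattice is preconnected. -/
theorem conn (L : PeriodPair) : IsPreconnected ((L.lattice : Set ℂ)ᶜ) := by
  have hc : (L.lattice : Set ℂ).Countable := by
    have : Countable L.lattice := L.latticeEquivProd.toEquiv.injective.countable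
    exact Set.countable_coe_iff.1 this
  exact (hc.isPathConnected_compl_of_one_lt_rank
    (rank_real_complex ▸ Nat.one_lt_ofNat)).isConnected.isPreconnected

/-- `℘` is not constant. -/
theorem not_const (L : PeriodPair) (c : ℂ) (h : ∀ z, z ∉ L.lattice → L.weierstrassP z = c) :
    False := by
  have h0 := L.order_weierstrassP 0 (zero_mem _)
  have h1 : L.weierstrassP =ᶠ[𝓝[≠] 0] fun _ => c := by
    have h2 : ∀ᶠ z in 𝓝[≠] (0 : ℂ), z ∈ ((L.lattice : Set ℂ) \ {0})ᶜ :=
      nhdsWithin_le_nhds (L.compl_lattice_sdiff_singleton_mem_nhds 0)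
    filter_upwards [h2, self_mem_nhdsWithin] with z hz hz0
    refine h z fun hL => hz ⟨hL, hz0⟩
  rw [meromorphicOrderAt_congr h1] at h0
  have h3 : (0 : WithTop ℤ) ≤ meromorphicOrderAt (fun _ : ℂ => c) (0 : ℂ) :=
    AnalyticAt.meromorphicOrderAt_nonneg analyticAt_const
  rw [h0] at h3
  exact absurd h3 (by decide)

end NEQ18

open _root_.Pool.Agent.MU3B.NEQ18 in
theorem t_NEQ (hHOL : St_HOL) (hID : St_ID) : St_NEQ := by
  intro L Q z₀ hQ hz heq
  by_contra hcon
  have h1 : z₀ - Q ∉ L.lattice := fun h => hcon (Or.inl h)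
  have h2 : z₀ + Q ∉ L.lattice := fun h => hcon (Or.inr h)
  have hopen : IsOpen ((L.lattice : Set ℂ)ᶜ) := L.isClosed_lattice.isOpen_compl
  have hzet := zet_an hHOL L
  have a1 : AnalyticAt ℂ (fun z => zet L (z + Q)) z₀ :=
    AnalyticAt.comp_of_eq (hzet (z₀ + Q) h2) (by fun_prop) rfl
  have a2 : AnalyticAt ℂ (fun z => zet L (z - Q)) z₀ :=
    AnalyticAt.comp_of_eq (hzet (z₀ - Q) h1) (by fun_prop) rfl
  have a3 : AnalyticAt ℂ (zet L) z₀ := hzet z₀ hz
  have hb : AnalyticAt ℂ (fun z => zet L (z + Q) + zet L (z - Q) - 2 * zet L z) z₀ :=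
    (a1.add a2).sub (analyticAt_const.mul a3)
  have hP : AnalyticOnNhd ℂ (fun z => L.weierstrassP z - L.weierstrassP Q)
      ((L.lattice : Set ℂ)ᶜ) := L.analyticOnNhd_weierstrassP.sub analyticOnNhd_const
  have e1 : ∀ᶠ z in 𝓝 z₀, z ∉ L.lattice := hopen.mem_nhds hz
  have e2 : ∀ᶠ z in 𝓝 z₀, z + Q ∉ L.lattice :=
    (by fun_prop : Continuous fun z : ℂ => z + Q).continuousAt.eventually (hopen.mem_nhds h2)
  have e3 : ∀ᶠ z in 𝓝 z₀, z - Q ∉ L.lattice :=
    (by fun_prop : Continuous fun z : ℂ => z - Q).continuousAt.eventually (hopen.mem_nhds h1)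
  have hd : deriv (fun z => L.weierstrassP z - L.weierstrassP Q) =ᶠ[𝓝 z₀]
      (fun z => zet L (z + Q) + zet L (z - Q) - 2 * zet L z) *
        fun z => L.weierstrassP z - L.weierstrassP Q := by
    filter_upwards [e1, e2, e3] with z g1 g2 g3
    rw [deriv_sub_const, L.deriv_weierstrassP, ← hID L Q z hQ g1 g2 g3]
    simp only [Pi.mul_apply, zet, map_add, map_sub]
    ring
  have h3 := ode (hP z₀ hz) hb (by simp only [heq, sub_self]) hd
  have h4 := hP.eqOn_zero_of_preconnected_of_eventuallyEq_zero (conn L) hz h3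
  refine not_const L (L.weierstrassP Q) fun z hz => ?_
  have h5 := h4 hz
  simpa [sub_eq_zero] using h5

end Pool.Agent.MU3B


end

section

/-!
# MU3B_LAT
-/

set_option autoImplicit false

namespace Pool.Agent.MU3B

open Complex Real Filter Topology
open scoped ComplexConjugate

namespace LAT

lemma area_pos (L : PeriodPair) : 0 < area L := by
  unfold area
  rw [abs_pos]
  intro h
  have h1 := L.indep
  rw [LinearIndependent.pair_iff] at h1
  have him : (conj L.ω₁ * L.ω₂).im = L.ω₁.re * L.ω₂.im - L.ω₁.im * L.ω₂.re := by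
    simp [Complex.mul_im]; ring
  rw [him] at h
  -- `|ω₁|² ω₂ = (re) ω₁`
  obtain ⟨a, ha⟩ : ∃ a : ℝ, a = -(L.ω₁.re * L.ω₂.re + L.ω₁.im * L.ω₂.im) := ⟨_, rfl⟩
  obtain ⟨b, hb⟩ : ∃ b : ℝ, b = L.ω₁.re ^ 2 + L.ω₁.im ^ 2 := ⟨_, rfl⟩
  have key : a • L.ω₁ + b • L.ω₂ = 0 := by
    apply Complex.ext
    · simp only [Complex.add_re, Complex.real_smul, Complex.mul_re, Complex.ofReal_re,
        Complex.ofReal_im, Complex.zero_re]
      rw [ha, hb]
      linear_combination (-L.ω₁.im) * h
    · simp only [Complex.add_im, Complex.real_smul, Complex.mul_im, Complex.ofReal_re,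
        Complex.ofReal_im, Complex.zero_im]
      rw [ha, hb]
      linear_combination (L.ω₁.re) * h
  obtain ⟨-, h2⟩ := h1 _ _ key
  rw [hb] at h2
  have h3 : L.ω₁.re = 0 := by nlinarith [sq_nonneg L.ω₁.re, sq_nonneg L.ω₁.im]
  have h4 : L.ω₁.im = 0 := by nlinarith [sq_nonneg L.ω₁.re, sq_nonneg L.ω₁.im]
  have h5 : L.ω₁ = 0 := Complex.ext h3 h4
  have h6 := h1 1 0 (by rw [h5]; simp)
  exact one_ne_zero h6.1

/-- the exponent is `i` times a real number -/
lemma expo (w z : ℂ) : conj w * z - w * conj z = ((2 * (conj w * z).im : ℝ) : ℂ) * I := by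
  apply Complex.ext
  · simp [mul_comm]
  · simp
    ring

lemma pr_eq (L : PeriodPair) (w z : ℂ) :
    pr L w z = Complex.exp (((π / area L * (2 * (conj w * z).im) : ℝ) : ℂ) * I) := by
  unfold pr
  rw [expo]
  congr 1
  push_cast
  ring

lemma pr_norm (L : PeriodPair) (w z : ℂ) : ‖pr L w z‖ = 1 := by
  rw [pr_eq, Complex.norm_exp_ofReal_mul_I]

lemma pr_add_right (L : PeriodPair) (w z z' : ℂ) :
    pr L w (z + z') = pr L w z * pr L w z' := by
  unfold pr
  rw [← Complex.exp_add]
  congr 1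
  rw [map_add]
  ring

lemma pr_add_left (L : PeriodPair) (w w' z : ℂ) :
    pr L (w + w') z = pr L w z * pr L w' z := by
  unfold pr
  rw [← Complex.exp_add]
  congr 1
  rw [map_add]
  ring

lemma pr_neg_left (L : PeriodPair) (w z : ℂ) : pr L (-w) z = conj (pr L w z) := by
  unfold pr
  rw [← Complex.exp_conj]
  congr 1
  simp only [map_mul, map_sub, map_neg, Complex.conj_ofReal, Complex.conj_conj]
  ring

lemma pr_neg_right (L : PeriodPair) (w z : ℂ) : pr L w (-z) = conj (pr L w z) := by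
  unfold pr
  rw [← Complex.exp_conj]
  congr 1
  simp only [map_mul, map_sub, map_neg, Complex.conj_ofReal, Complex.conj_conj]
  ring

lemma im_comb (L : PeriodPair) (x y x' y' : ℝ) :
    (conj ((x : ℂ) * L.ω₁ + y * L.ω₂) * (x' * L.ω₁ + y' * L.ω₂)).im =
      (x * y' - y * x') * (conj L.ω₁ * L.ω₂).im := by
  simp [Complex.mul_im, Complex.mul_re]
  ring

lemma sgn_area (L : PeriodPair) : ∃ ε : ℝ, (ε = 1 ∨ ε = -1) ∧
    (conj L.ω₁ * L.ω₂).im = ε * area L := by
  unfold area
  rcases abs_choice (conj L.ω₁ * L.ω₂).im with h | h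
  · exact ⟨1, Or.inl rfl, by rw [h, one_mul]⟩
  · exact ⟨-1, Or.inr rfl, by rw [h]; ring⟩

lemma pr_comb (L : PeriodPair) (x y x' y' : ℝ) : ∃ ε : ℝ, (ε = 1 ∨ ε = -1) ∧
    pr L ((x : ℂ) * L.ω₁ + y * L.ω₂) (x' * L.ω₁ + y' * L.ω₂) =
      Complex.exp (((ε * (x * y' - y * x') : ℝ) : ℂ) * (2 * π * I)) := by
  obtain ⟨ε, hε, h⟩ := sgn_area L
  refine ⟨ε, hε, ?_⟩
  rw [pr_eq, im_comb, h]
  congr 1
  have hA := (area_pos L).ne'
  have hA' : ((area L : ℝ) : ℂ) ≠ 0 := by exact_mod_cast hA
  push_cast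
  field_simp

lemma pr_one (L : PeriodPair) (w z : ℂ) (hw : w ∈ L.lattice) (hz : z ∈ L.lattice) :
    pr L w z = 1 := by
  obtain ⟨m, n, rfl⟩ := PeriodPair.mem_lattice.1 hw
  obtain ⟨m', n', rfl⟩ := PeriodPair.mem_lattice.1 hz
  obtain ⟨ε, hε, h⟩ := pr_comb L m n m' n'
  have h1 : pr L ((m : ℂ) * L.ω₁ + n * L.ω₂) (m' * L.ω₁ + n' * L.ω₂) =
      pr L (((m : ℝ) : ℂ) * L.ω₁ + ((n : ℝ) : ℂ) * L.ω₂)
        (((m' : ℝ) : ℂ) * L.ω₁ + ((n' : ℝ) : ℂ) * L.ω₂) := by push_cast; rfl
  rw [h1, h]
  have h2 : ∃ j : ℤ, ε * ((m : ℝ) * n' - n * m') = j := by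
    rcases hε with rfl | rfl
    · exact ⟨m * n' - n * m', by push_cast; ring⟩
    · exact ⟨-(m * n' - n * m'), by push_cast; ring⟩
  obtain ⟨j, hj⟩ := h2
  rw [hj]
  exact_mod_cast Complex.exp_int_mul_two_pi_mul_I j

lemma int_of_exp {x : ℝ} (h : Complex.exp ((x : ℂ) * (2 * π * I)) = 1) : ∃ n : ℤ, x = n := by
  obtain ⟨n, hn⟩ := Complex.exp_eq_one_iff.1 h
  refine ⟨n, ?_⟩
  have h2 : (2 * π * I : ℂ) ≠ 0 := Complex.two_pi_I_ne_zero
  have := mul_right_cancel₀ h2 hn
  exact_mod_cast this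

lemma dual (L : PeriodPair) (u : ℂ) (h : ∀ v ∈ L.lattice, pr L u v = 1) : u ∈ L.lattice := by
  have hb := L.basis.sum_repr u
  rw [Fin.sum_univ_two] at hb
  simp only [PeriodPair.basis_zero, PeriodPair.basis_one, Complex.real_smul] at hb
  set x : ℝ := L.basis.repr u 0 with hx
  set y : ℝ := L.basis.repr u 1 with hy
  have h1 := h L.ω₂ L.ω₂_mem_lattice
  have h2 := h L.ω₁ L.ω₁_mem_lattice
  rw [← hb] at h1 h2
  obtain ⟨ε, hε, e1⟩ := pr_comb L x y 0 1
  obtain ⟨ε', hε', e2⟩ := pr_comb L x y 1 0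
  simp only [Complex.ofReal_zero, Complex.ofReal_one, zero_mul, one_mul, zero_add, add_zero,
    mul_one, mul_zero, sub_zero, zero_sub] at e1 e2
  rw [e1] at h1
  rw [e2] at h2
  obtain ⟨m, hm⟩ := int_of_exp h1
  obtain ⟨n, hn⟩ := int_of_exp h2
  have hxi : ∃ m' : ℤ, x = m' := by
    rcases hε with rfl | rfl
    · exact ⟨m, by linarith⟩
    · exact ⟨-m, by push_cast; linarith⟩
  have hyi : ∃ n' : ℤ, y = n' := by
    rcases hε' with rfl | rfl
    · exact ⟨-n, by push_cast; linarith⟩
    · exact ⟨n, by linarith⟩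
  obtain ⟨m', hm'⟩ := hxi
  obtain ⟨n', hn'⟩ := hyi
  rw [PeriodPair.mem_lattice]
  refine ⟨m', n', ?_⟩
  rw [← hb, hm', hn']
  push_cast
  rfl

lemma disc (L : PeriodPair) : ∃ δ : ℝ, 0 < δ ∧ ∀ w ∈ L.lattice, w ≠ 0 → δ ≤ ‖w‖ := by
  have h := L.compl_lattice_sdiff_singleton_mem_nhds 0
  rw [Metric.mem_nhds_iff] at h
  obtain ⟨δ, hδ, hsub⟩ := h
  refine ⟨δ, hδ, fun w hw hw0 => ?_⟩
  by_contra hlt
  have h1 : w ∈ Metric.ball (0 : ℂ) δ := by
    rw [mem_ball_zero_iff]
    exact not_le.1 hlt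
  exact hsub h1 ⟨hw, hw0⟩

end LAT

theorem t_LAT : St_LAT := by
  intro L
  exact ⟨LAT.area_pos L, LAT.pr_norm L, LAT.pr_add_right L, LAT.pr_add_left L,
    LAT.pr_neg_left L, LAT.pr_neg_right L, fun w hw z hz => LAT.pr_one L w z hw hz,
    LAT.dual L, LAT.disc L⟩

end Pool.Agent.MU3B


end

section

/-!
# MU3, block B: module ID (helper21)
-/

set_option autoImplicit false

namespace Pool.Agent.MU3B

open Complex Real Filter Topology
open scoped ComplexConjugate

namespace ID21

theorem wp (L : PeriodPair) (z : ℂ) :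
    L.weierstrassP z = L.weierstrassPExcept 0 z + 1 / z ^ 2 := by
  have h := L.weierstrassPExcept_add 0 z
  simpa using h.symm

theorem wp' (L : PeriodPair) (z : ℂ) :
    L.derivWeierstrassP z = L.derivWeierstrassPExcept 0 z - 2 / z ^ 3 := by
  have h := L.derivWeierstrassPExcept_sub 0 z
  simpa using h.symm

theorem tshift (x a : ℂ) : Tendsto (fun z : ℂ => z + a) (𝓝[≠] x) (𝓝[≠] (x + a)) := by
  rw [tendsto_nhdsWithin_iff]
  refine ⟨?_, ?_⟩
  · exact (tendsto_id.add_const a).mono_left nhdsWithin_le_nhds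
  · filter_upwards [self_mem_nhdsWithin] with z hz
    intro h
    exact hz (add_right_cancel h)

theorem lemA (hPER : St_PER) (hHOL : St_HOL) (hPOL : St_POL) (L : PeriodPair) (z₀ : ℂ) :
    ∃ l : ℂ, Tendsto (fun z => (z - z₀) * zet L z) (𝓝[≠] z₀) (𝓝 l) := by
  by_cases hz : z₀ ∈ L.lattice
  · obtain ⟨h, δ, hδ, hD, _, hz1⟩ := hPOL L
    refine ⟨1, ?_⟩
    have hcont : ContinuousAt h 0 :=
      (hD.differentiableAt (Metric.ball_mem_nhds 0 hδ)).continuousAt
    have t1 : Tendsto (fun s : ℂ => s * zet L s) (𝓝[≠] 0) (𝓝 1) := by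
      have t2 : Tendsto (fun s : ℂ => 1 + s * h s) (𝓝[≠] 0) (𝓝 (1 + 0 * h 0)) :=
        (tendsto_const_nhds.add (tendsto_id.mul hcont.tendsto)).mono_left nhdsWithin_le_nhds
      rw [zero_mul, add_zero] at t2
      apply t2.congr'
      have hb : Metric.ball (0 : ℂ) δ ∈ 𝓝[≠] (0 : ℂ) :=
        mem_nhdsWithin_of_mem_nhds (Metric.ball_mem_nhds 0 hδ)
      filter_upwards [hb, self_mem_nhdsWithin] with s hs hs0
      rw [(hz1 s hs hs0).2]
      have : s ≠ 0 := hs0
      field_simp
    have t3 := tshift z₀ (-z₀)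
    rw [add_neg_cancel] at t3
    have t4 := t1.comp t3
    have t5 : Tendsto (fun z : ℂ => (z - z₀) * (((π / area L : ℝ) : ℂ) * conj z₀)) (𝓝[≠] z₀)
        (𝓝 ((z₀ - z₀) * (((π / area L : ℝ) : ℂ) * conj z₀))) :=
      ((tendsto_id.sub_const z₀).mul_const _).mono_left nhdsWithin_le_nhds
    rw [sub_self, zero_mul] at t5
    have t6 := t4.add t5
    rw [add_zero] at t6
    apply t6.congr
    intro z
    show (z + -z₀) * zet L (z + -z₀) + (z - z₀) * (((π / area L : ℝ) : ℂ) * conj z₀) =
      (z - z₀) * zet L z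
    have e : ee L (z + -z₀) = ee L z := by
      have := (hPER L).1 (z + -z₀) z₀ hz
      rw [neg_add_cancel_right] at this
      exact this.symm
    unfold zet
    rw [e, map_add, map_neg]
    ring
  · refine ⟨0, ?_⟩
    have h1 := (hHOL L z₀ hz).continuousAt.tendsto
    have h2 : Tendsto (fun z : ℂ => (z - z₀) * zet L z) (𝓝 z₀) (𝓝 ((z₀ - z₀) * zet L z₀)) :=
      (tendsto_id.sub_const z₀).mul h1
    rw [sub_self, zero_mul] at h2
    exact h2.mono_left nhdsWithin_le_nhds

theorem wpdiff (L : PeriodPair) (z : ℂ) (hz : z ∉ L.lattice) :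
    DifferentiableAt ℂ L.weierstrassP z :=
  L.differentiableOn_weierstrassP.differentiableAt
    (L.isClosed_lattice.isOpen_compl.mem_nhds hz)

theorem wp'diff (L : PeriodPair) (z : ℂ) (hz : z ∉ L.lattice) :
    DifferentiableAt ℂ L.derivWeierstrassP z :=
  L.differentiableOn_derivWeierstrassP.differentiableAt
    (L.isClosed_lattice.isOpen_compl.mem_nhds hz)

/-- the function with `ζ` instead of `e` -/
noncomputable def FF (L : PeriodPair) (Q z : ℂ) : ℂ :=
  (zet L (z + Q) + zet L (z - Q) - 2 * zet L z) * (L.weierstrassP z - L.weierstrassP Q) -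
    L.derivWeierstrassP z

theorem FF_eq (L : PeriodPair) (Q z : ℂ) :
    (ee L (z + Q) + ee L (z - Q) - 2 * ee L z) * (L.weierstrassP z - L.weierstrassP Q) -
      L.derivWeierstrassP z = FF L Q z := by
  unfold FF zet
  rw [map_add, map_sub]
  ring

theorem FF_neg (hPER : St_PER) (L : PeriodPair) (Q z : ℂ) : FF L Q (-z) = -FF L Q z := by
  rw [← FF_eq, ← FF_eq, L.weierstrassP_neg, L.derivWeierstrassP_neg]
  have e1 : ee L (-z + Q) = -ee L (z - Q) := by
    rw [← (hPER L).2]
    congr 1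
    ring
  have e2 : ee L (-z - Q) = -ee L (z + Q) := by
    rw [← (hPER L).2]
    congr 1
    ring
  rw [e1, e2, (hPER L).2]
  ring

theorem lim_Q (hPER : St_PER) (hHOL : St_HOL) (hPOL : St_POL) (L : PeriodPair) (Q : ℂ)
    (hQ : Q ∉ L.lattice) : Tendsto (fun z => (z - Q) * FF L Q z) (𝓝[≠] Q) (𝓝 0) := by
  obtain ⟨l1, h1⟩ := lemA hPER hHOL hPOL L (Q + Q)
  obtain ⟨l2, h2⟩ := lemA hPER hHOL hPOL L 0
  obtain ⟨l3, h3⟩ := lemA hPER hHOL hPOL L Q
  have t1 := h1.comp (tshift Q Q)
  have s2 := tshift Q (-Q)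
  rw [add_neg_cancel] at s2
  have t2 := h2.comp s2
  have hw : Tendsto (fun z => L.weierstrassP z - L.weierstrassP Q) (𝓝[≠] Q) (𝓝 0) := by
    have := ((wpdiff L Q hQ).continuousAt.tendsto.sub_const (L.weierstrassP Q)).mono_left
      (nhdsWithin_le_nhds (s := {Q}ᶜ))
    rwa [sub_self] at this
  have hw' : Tendsto (fun z => (z - Q) * L.derivWeierstrassP z) (𝓝[≠] Q) (𝓝 0) := by
    have : Tendsto (fun z : ℂ => (z - Q) * L.derivWeierstrassP z) (𝓝 Q)
        (𝓝 ((Q - Q) * L.derivWeierstrassP Q)) :=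
      (tendsto_id.sub_const Q).mul (wp'diff L Q hQ).continuousAt.tendsto
    rw [sub_self, zero_mul] at this
    exact this.mono_left nhdsWithin_le_nhds
  have t := (((t1.add t2).sub (h3.const_mul 2)).mul hw).sub hw'
  rw [mul_zero, sub_zero] at t
  apply t.congr
  intro z
  show ((z + Q - (Q + Q)) * zet L (z + Q) + (z + -Q - 0) * zet L (z + -Q) -
    2 * ((z - Q) * zet L z)) * (L.weierstrassP z - L.weierstrassP Q) -
    (z - Q) * L.derivWeierstrassP z = (z - Q) * FF L Q z
  unfold FF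
  rw [← sub_eq_add_neg]
  ring

theorem lim_0 (hPER : St_PER) (hPOL : St_POL) (hZP : St_ZP) (L : PeriodPair)
    (Q : ℂ) (hQ : Q ∉ L.lattice) : Tendsto (fun z => (z - 0) * FF L Q z) (𝓝[≠] 0) (𝓝 0) := by
  obtain ⟨h, δ, hδ, hD, hodd, hz1⟩ := hPOL L
  obtain ⟨c, hc⟩ := hZP L
  have hball : Metric.ball (0 : ℂ) δ ∈ 𝓝 (0 : ℂ) := Metric.ball_mem_nhds 0 hδ
  have hb : Metric.ball (0 : ℂ) δ ∈ 𝓝[≠] (0 : ℂ) := mem_nhdsWithin_of_mem_nhds hball
  have h0 : h 0 = 0 := by
    have := hodd 0 (Metric.mem_ball_self hδ)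
    rw [neg_zero] at this
    have h2 : (2 : ℂ) * h 0 = 0 := by linear_combination this
    simpa using h2
  have hE : DifferentiableAt ℂ (L.weierstrassPExcept 0) 0 :=
    (L.analyticAt_weierstrassPExcept 0).differentiableAt
  have hE' : DifferentiableAt ℂ (L.derivWeierstrassPExcept 0) 0 :=
    (L.analyticAt_derivWeierstrassPExcept 0).differentiableAt
  have hEt : Tendsto (L.weierstrassPExcept 0) (𝓝[≠] 0) (𝓝 0) := by
    have := hE.continuousAt.tendsto.mono_left (nhdsWithin_le_nhds (s := {(0 : ℂ)}ᶜ))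
    rwa [L.weierstrassPExcept_zero] at this
  -- derivative of h at 0
  have hDd : DifferentiableAt ℂ (deriv h) 0 :=
    (hD.deriv Metric.isOpen_ball).differentiableAt hball
  have hd1 : ∀ z ∈ Metric.ball (0 : ℂ) δ, z ≠ 0 → deriv h z = c - L.weierstrassPExcept 0 z := by
    intro z hz hz0
    have g1 := hc z (hz1 z hz hz0).1
    have g2 : HasDerivAt (fun y : ℂ => zet L y - y⁻¹) (c - L.weierstrassP z - -(z ^ 2)⁻¹) z :=
      g1.sub (hasDerivAt_inv hz0)
    have g3 : h =ᶠ[𝓝 z] fun y => zet L y - y⁻¹ := by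
      have o1 : Metric.ball (0 : ℂ) δ ∈ 𝓝 z := Metric.isOpen_ball.mem_nhds hz
      have o2 : {(0 : ℂ)}ᶜ ∈ 𝓝 z := isOpen_compl_singleton.mem_nhds hz0
      filter_upwards [o1, o2] with y hy hy0
      rw [(hz1 y hy hy0).2, one_div]
      ring
    rw [g3.deriv_eq, g2.deriv, wp]
    field_simp
    ring
  have hd0 : deriv h 0 = c := by
    have t1 : Tendsto (deriv h) (𝓝[≠] 0) (𝓝 (deriv h 0)) :=
      hDd.continuousAt.tendsto.mono_left nhdsWithin_le_nhds
    have t2 : Tendsto (deriv h) (𝓝[≠] 0) (𝓝 (c - 0)) := by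
      apply (hEt.const_sub c).congr'
      filter_upwards [hb, self_mem_nhdsWithin] with z hz hz0
      exact (hd1 z hz hz0).symm
    rw [sub_zero] at t2
    exact tendsto_nhds_unique t1 t2
  have hhd : HasDerivAt h c 0 := by
    have := (hD.differentiableAt hball).hasDerivAt
    rwa [hd0] at this
  -- the function k
  have hQ' : -Q ∉ L.lattice := fun h => hQ (by simpa using L.lattice.neg_mem h)
  set k : ℂ → ℂ := fun z => zet L (z + Q) + zet L (z - Q) - 2 * h z with hk
  have hkd : HasDerivAt k (-(2 * L.weierstrassP Q)) 0 := by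
    have a1 : HasDerivAt (fun z => zet L (z + Q)) (c - L.weierstrassP Q) 0 := by
      apply HasDerivAt.comp_add_const
      rw [zero_add]
      exact hc Q hQ
    have a2 : HasDerivAt (fun z => zet L (z - Q)) (c - L.weierstrassP Q) 0 := by
      apply HasDerivAt.comp_sub_const
      rw [zero_sub]
      have := hc (-Q) hQ'
      rwa [L.weierstrassP_neg] at this
    have a3 := (a1.add a2).sub (hhd.const_mul 2)
    have e : c - L.weierstrassP Q + (c - L.weierstrassP Q) - 2 * c = -(2 * L.weierstrassP Q) := by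
      ring
    rw [e] at a3
    exact a3
  have hk0 : k 0 = 0 := by
    rw [hk]
    show zet L (0 + Q) + zet L (0 - Q) - 2 * h 0 = 0
    rw [h0, zero_add, zero_sub]
    unfold zet
    rw [(hPER L).2, map_neg]
    ring
  have tk : Tendsto (fun z => z⁻¹ * k z) (𝓝[≠] 0) (𝓝 (-(2 * L.weierstrassP Q))) := by
    have := hkd.tendsto_slope_zero
    apply this.congr
    intro t
    rw [hk0, zero_add, sub_zero, smul_eq_mul]
  have tid : Tendsto (fun z : ℂ => z) (𝓝[≠] 0) (𝓝 0) := tendsto_id.mono_left nhdsWithin_le_nhds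
  have tkc : Tendsto k (𝓝[≠] 0) (𝓝 0) := by
    have := hkd.continuousAt.tendsto.mono_left (nhdsWithin_le_nhds (s := {(0 : ℂ)}ᶜ))
    rwa [hk0] at this
  have tE' : Tendsto (L.derivWeierstrassPExcept 0) (𝓝[≠] 0) (𝓝 (L.derivWeierstrassPExcept 0 0)) :=
    hE'.continuousAt.tendsto.mono_left nhdsWithin_le_nhds
  have tEQ := hEt.sub_const (L.weierstrassP Q)
  have t := ((tk.add ((tid.mul tkc).mul tEQ)).sub (tEQ.const_mul 2)).sub (tid.mul tE')
  have ev : -(2 * L.weierstrassP Q) + 0 * 0 * (0 - L.weierstrassP Q) -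
      2 * (0 - L.weierstrassP Q) - 0 * L.derivWeierstrassPExcept 0 0 = 0 := by ring
  rw [ev] at t
  apply t.congr'
  filter_upwards [hb, self_mem_nhdsWithin] with z hz hz0
  have hzn : z ≠ 0 := hz0
  show z⁻¹ * k z + z * k z * (L.weierstrassPExcept 0 z - L.weierstrassP Q) -
    2 * (L.weierstrassPExcept 0 z - L.weierstrassP Q) - z * L.derivWeierstrassPExcept 0 z =
    (z - 0) * FF L Q z
  unfold FF
  have ek : zet L (z + Q) + zet L (z - Q) = k z + 2 * h z := by rw [hk]; ring
  rw [ek, (hz1 z hz hz0).2, wp L z, wp' L z]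
  field_simp
  ring

end ID21

open _root_.Pool.Agent.MU3B.ID21 in
theorem t_ID (hPER : St_PER) (hHOL : St_HOL) (hPOL : St_POL) (hLIO : St_LIO) (hZP : St_ZP) :
    St_ID := by
  classical
  intro L Q z hQ hz hzQ1 hzQ2
  have hQ' : -Q ∉ L.lattice := fun h => hQ (by simpa using L.lattice.neg_mem h)
  obtain ⟨c, hc⟩ := hLIO L (FF L Q) {0, Q, -Q} (by
    intro y v hv
    rw [← FF_eq, ← FF_eq]
    have e1 : ee L (y + v + Q) = ee L (y + Q) := by
      rw [← (hPER L).1 (y + Q) v hv]
      congr 1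
      ring
    have e2 : ee L (y + v - Q) = ee L (y - Q) := by
      rw [← (hPER L).1 (y - Q) v hv]
      congr 1
      ring
    rw [e1, e2, (hPER L).1 y v hv, L.weierstrassP_add_coe y ⟨v, hv⟩,
      L.derivWeierstrassP_add_coe y ⟨v, hv⟩]) (by
    intro y hy
    have y0 : y ∉ L.lattice := by
      have := hy 0 (by simp)
      rwa [sub_zero] at this
    have y1 : y - Q ∉ L.lattice := hy Q (by simp)
    have y2 : y + Q ∉ L.lattice := by
      have := hy (-Q) (by simp)
      rwa [sub_neg_eq_add] at this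
    have d1 : DifferentiableAt ℂ (fun y => zet L (y + Q)) y :=
      (hHOL L (y + Q) y2).comp y (differentiableAt_id.add_const Q)
    have d2 : DifferentiableAt ℂ (fun y => zet L (y - Q)) y :=
      (hHOL L (y - Q) y1).comp y (differentiableAt_id.sub_const Q)
    exact (((d1.add d2).sub ((hHOL L y y0).const_mul 2)).mul
      ((wpdiff L y y0).sub_const _)).sub (wp'diff L y y0)) (by
    intro p hp
    simp only [Finset.mem_insert, Finset.mem_singleton] at hp
    rcases hp with rfl | rfl | rfl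
    · exact lim_0 hPER hPOL hZP L Q hQ
    · exact lim_Q hPER hHOL hPOL L p hQ
    · have h1 := lim_Q hPER hHOL hPOL L Q hQ
      have t : Tendsto (fun y : ℂ => -y) (𝓝[≠] (-Q)) (𝓝[≠] Q) := by
        rw [tendsto_nhdsWithin_iff]
        refine ⟨?_, ?_⟩
        · have := (continuous_neg (G := ℂ)).tendsto (-Q)
          rw [neg_neg] at this
          exact this.mono_left nhdsWithin_le_nhds
        · filter_upwards [self_mem_nhdsWithin] with y hy h
          apply hy
          have h' : -y = Q := h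
          rw [Set.mem_singleton_iff, ← h', neg_neg]
      apply (h1.comp t).congr
      intro y
      show (-y - Q) * FF L Q (-y) = (y - -Q) * FF L Q y
      rw [FF_neg hPER]
      ring)
  have good : ∀ p ∈ ({0, Q, -Q} : Finset ℂ), z - p ∉ L.lattice := by
    intro p hp
    simp only [Finset.mem_insert, Finset.mem_singleton] at hp
    rcases hp with rfl | rfl | rfl
    · rwa [sub_zero]
    · exact hzQ2
    · rwa [sub_neg_eq_add]
  have good' : ∀ p ∈ ({0, Q, -Q} : Finset ℂ), -z - p ∉ L.lattice := by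
    intro p hp h
    have h' := L.lattice.neg_mem h
    simp only [Finset.mem_insert, Finset.mem_singleton] at hp
    rcases hp with rfl | rfl | rfl
    · apply hz
      have e : -(-z - 0) = z := by ring
      rwa [e] at h'
    · apply hzQ1
      have e : -(-z - p) = z + p := by ring
      rwa [e] at h'
    · apply hzQ2
      have e : -(-z - -Q) = z - Q := by ring
      rwa [e] at h'
  have v1 := hc z good
  have v2 := hc (-z) good'
  rw [FF_neg hPER, v1] at v2
  have c0 : c = 0 := by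
    have h2 : (2 : ℂ) * c = 0 := by linear_combination -v2
    simpa using h2
  rw [c0, ← FF_eq] at v1
  exact sub_eq_zero.1 v1

end Pool.Agent.MU3B


end

section

/-!
# MU3, block B, HRE: a half system together with its negative is a system of representatives
(helper70)
-/

set_option autoImplicit false

namespace Pool.Agent.MU3B

open Complex Real Filter Topology
open scoped ComplexConjugate

theorem t_HRE (hNUM : St_NUM) : St_HRE := by
  classical
  intro L a H ha haL hH
  have hmem : ∀ q, q ∈ H ∪ H.image (fun q => -q) ↔ q ∈ H ∨ ∃ p ∈ H, -p = q := by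
    intro q
    rw [Finset.mem_union, Finset.mem_image]
  have hnL : ∀ q ∈ H, q ∉ L.lattice := by
    intro q hq h
    apply hH.ne q hq
    rw [two_mul]
    exact add_mem h h
  have hR : IsReps L a (H ∪ H.image (fun q => -q)) := by
    refine ⟨fun q hq => ?_, fun q hq => ?_, fun q hq q' hq' h => ?_, fun z hz hzL => ?_⟩
    · rcases (hmem q).1 hq with h | ⟨p, hp, rfl⟩
      · exact hH.mem q h
      · rw [mul_neg]
        exact neg_mem (hH.mem p hp)
    · rcases (hmem q).1 hq with h | ⟨p, hp, rfl⟩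
      · exact hnL q h
      · intro h
        exact hnL p hp (by simpa using neg_mem h)
    · rcases (hmem q).1 hq with h1 | ⟨p, hp, rfl⟩ <;>
        rcases (hmem q').1 hq' with h2 | ⟨p', hp', rfl⟩
      · exact hH.inj q h1 q' h2 h
      · exact (hH.neg q h1 p' hp' (by simpa using h)).elim
      · refine (hH.neg p hp q' h2 ?_).elim
        have := neg_mem h
        rwa [neg_sub, sub_neg_eq_add, add_comm] at this
      · have h3 : p - p' ∈ L.lattice := by
          have := neg_mem h
          have e : -(-p - -p') = p - p' := by ring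
          rwa [e] at this
        rw [hH.inj p hp p' hp' h3]
    · obtain ⟨q, hq, h | h⟩ := hH.surj z hz hzL
      · exact ⟨q, (hmem q).2 (Or.inl hq), h⟩
      · exact ⟨-q, (hmem (-q)).2 (Or.inr ⟨q, hq, rfl⟩), by simpa using h⟩
  have hD : Disjoint H (H.image (fun q => -q)) := by
    rw [Finset.disjoint_left]
    intro q hq h
    obtain ⟨p, hp, h'⟩ := Finset.mem_image.1 h
    apply hH.neg q hq p hp
    rw [← h', neg_add_cancel]
    exact zero_mem _
  refine ⟨hR, hD, ?_⟩
  have h1 := hNUM L a _ ha haL hR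
  rw [Finset.card_union_of_disjoint hD, Finset.card_image_of_injective _ neg_injective] at h1
  rw [← h1]
  push_cast
  ring

end Pool.Agent.MU3B


end

section

/-!
# MU3, block B: module HAL (helper50)
-/

set_option autoImplicit false

namespace Pool.Agent.MU3B

theorem t_HAL (hREP : St_REP) : St_HAL := by
  classical
  intro L a ha haL h2
  obtain ⟨R, hR⟩ := hREP L a ha haL
  have hne : ∀ q ∈ R, 2 * q ∉ L.lattice := fun q hq h => hR.ne q hq (h2 q (hR.mem q hq) h)
  set S : Finset (Finset ℂ) :=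
    R.powerset.filter (fun H => ∀ q ∈ H, ∀ q' ∈ H, q + q' ∉ L.lattice) with hS
  have hS0 : S.Nonempty := ⟨∅, by simp [hS]⟩
  obtain ⟨H, hH, hmax⟩ := S.exists_max_image Finset.card hS0
  rw [hS, Finset.mem_filter, Finset.mem_powerset] at hH
  obtain ⟨hHR, hneg⟩ := hH
  refine ⟨H, fun q hq => hR.mem q (hHR hq), fun q hq => hne q (hHR hq),
    fun q hq q' hq' h => hR.inj q (hHR hq) q' (hHR hq') h, hneg, ?_⟩
  intro z hz hzL
  obtain ⟨r, hr, hzr⟩ := hR.surj z hz hzL
  by_cases hrH : r ∈ H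
  · exact ⟨r, hrH, Or.inl hzr⟩
  · by_cases hex : ∃ q ∈ H, q + r ∈ L.lattice
    · obtain ⟨q, hq, h⟩ := hex
      refine ⟨q, hq, Or.inr ?_⟩
      have h1 := L.lattice.add_mem hzr h
      have e : z + q = z - r + (q + r) := by ring
      rwa [e]
    · exfalso
      push Not at hex
      have hin : insert r H ∈ S := by
        rw [hS, Finset.mem_filter, Finset.mem_powerset]
        refine ⟨Finset.insert_subset hr hHR, ?_⟩
        intro q hq q' hq'
        rcases Finset.mem_insert.1 hq with h3 | h3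
        · rcases Finset.mem_insert.1 hq' with h4 | h4
          · rw [h3, h4, ← two_mul]
            exact hne _ hr
          · rw [h3, add_comm]
            exact hex q' h4
        · rcases Finset.mem_insert.1 hq' with h4 | h4
          · rw [h4]
            exact hex q h3
          · exact hneg q h3 q' h4
      have h1 := hmax _ hin
      rw [Finset.card_insert_of_notMem hrH] at h1
      omega

end Pool.Agent.MU3B


end

section

/-!
# MU3, block B: (DSC), the discriminant
-/

set_option autoImplicit false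

namespace Pool.Agent.MU3B

open Complex Filter Topology
open scoped ComplexConjugate

namespace DSCaux

variable (L : PeriodPair)

theorem nhds_notMem {z : ℂ} (hz : z ∉ L.lattice) : ∀ᶠ x in 𝓝 z, x ∉ L.lattice :=
  L.isClosed_lattice.isOpen_compl.mem_nhds hz

theorem hasDerivAt_P {z : ℂ} (hz : z ∉ L.lattice) :
    HasDerivAt L.weierstrassP (L.derivWeierstrassP z) z := by
  have h := (L.differentiableOn_weierstrassP z hz).differentiableAt
    (L.isClosed_lattice.isOpen_compl.mem_nhds hz)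
  have := h.hasDerivAt
  rwa [L.deriv_weierstrassP] at this

theorem no_triple (hPER : St_PER) (hHOL : St_HOL) (hPOL : St_POL) (hID : St_ID) (hZER : St_ZER)
    (hP2 : St_P2) {z : ℂ} (hz : z ∉ L.lattice) (h1 : L.derivWeierstrassP z = 0)
    (h2 : 6 * L.weierstrassP z ^ 2 - L.g₂ / 2 = 0) : False := by
  have h2z : 2 * z ∈ L.lattice := (hZER L z hz).1 h1
  obtain ⟨h, δ, hδ, hh, -, hpol⟩ := hPOL L
  have hball : ∀ᶠ s in 𝓝[≠] (0 : ℂ), s ∈ Metric.ball (0 : ℂ) δ ∧ s ≠ 0 := by
    filter_upwards [mem_nhdsWithin_of_mem_nhds (Metric.ball_mem_nhds (0 : ℂ) hδ),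
      self_mem_nhdsWithin] with s h3 h4
    exact ⟨h3, h4⟩
  have hDan : AnalyticAt ℂ (fun x => L.weierstrassP x - L.weierstrassP z) z :=
    (L.analyticOnNhd_weierstrassP z hz).sub analyticAt_const
  by_cases hzero : ∀ᶠ x in 𝓝 z, L.weierstrassP x - L.weierstrassP z = 0
  · -- locally constant
    have h3 : ∀ᶠ x in 𝓝 z, 2 * x ∈ L.lattice := by
      filter_upwards [eventually_eventually_nhds.2 hzero, nhds_notMem L hz] with x hx hxL
      have h4 : L.weierstrassP =ᶠ[𝓝 x] fun _ => L.weierstrassP z := by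
        filter_upwards [hx] with y hy
        exact sub_eq_zero.1 hy
      have h5 : HasDerivAt L.weierstrassP 0 x := (hasDerivAt_const x _).congr_of_eventuallyEq h4
      exact (hZER L x hxL).1 ((hasDerivAt_P L hxL).unique h5)
    have ht : Tendsto (fun s : ℂ => z + s / 2) (𝓝[≠] 0) (𝓝 z) := by
      have : ContinuousAt (fun s : ℂ => z + s / 2) 0 := by fun_prop
      have h6 : Tendsto (fun s : ℂ => z + s / 2) (𝓝 0) (𝓝 (z + 0 / 2)) := this
      rw [zero_div, add_zero] at h6
      exact h6.mono_left nhdsWithin_le_nhds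
    obtain ⟨s, hs1, hs2, hs3⟩ := ((ht.eventually h3).and hball).exists
    have h7 : s ∈ L.lattice := by
      have := L.lattice.sub_mem hs1 h2z
      have e : 2 * (z + s / 2) - 2 * z = s := by ring
      rwa [e] at this
    exact (hpol s hs2 hs3).1 h7
  · obtain ⟨n, g, hg, hg0, hev⟩ := hDan.exists_eventuallyEq_pow_smul_nonzero_iff.2 hzero
    have hn : n ≠ 0 := by
      rintro rfl
      have := hev.self_of_nhds
      simp only [sub_self, pow_zero, one_smul] at this
      exact hg0 this.symm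
    -- `s = x - z`
    have hts : Tendsto (fun x : ℂ => x - z) (𝓝[≠] z) (𝓝[≠] 0) := by
      apply tendsto_nhdsWithin_of_tendsto_nhds_of_eventually_within
      · have : ContinuousAt (fun x : ℂ => x - z) z := by fun_prop
        have h6 : Tendsto (fun x : ℂ => x - z) (𝓝 z) (𝓝 (z - z)) := this
        rw [sub_self] at h6
        exact h6.mono_left nhdsWithin_le_nhds
      · filter_upwards [self_mem_nhdsWithin] with x hx
        exact sub_ne_zero.2 hx
    have hder : ∀ᶠ x in 𝓝 z, L.derivWeierstrassP x =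
        n * (x - z) ^ (n - 1) * g x + (x - z) ^ n * deriv g x := by
      filter_upwards [eventually_eventually_nhds.2 hev, nhds_notMem L hz,
        hg.eventually_analyticAt] with x hx hxL hgx
      have a1 : HasDerivAt (fun y => (y - z) ^ n) (n * (x - z) ^ (n - 1)) x := by
        have h8 : HasDerivAt (fun y : ℂ => y - z) 1 x := (hasDerivAt_id x).sub_const z
        have := h8.fun_pow n
        simpa using this
      have a2 := a1.mul hgx.differentiableAt.hasDerivAt
      have a3 : HasDerivAt (fun y => L.weierstrassP y - L.weierstrassP z)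
          (L.derivWeierstrassP x) x := (hasDerivAt_P L hxL).sub_const _
      exact a3.unique (a2.congr_of_eventuallyEq (by
        filter_upwards [hx] with y hy
        simpa using hy))
    have hev' := hev.filter_mono (nhdsWithin_le_nhds (s := {z}ᶜ))
    have hder' := hder.filter_mono (nhdsWithin_le_nhds (s := {z}ᶜ))
    have hball' := hts.eventually hball
    -- the equation
    have heq : ∀ᶠ x in 𝓝[≠] z, 2 * ((x - z) * ee L (x - z) - (x - z) * ee L x) * g x =
        n * g x + (x - z) * deriv g x := by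
      filter_upwards [hev', hder', hball', self_mem_nhdsWithin,
        (nhds_notMem L hz).filter_mono nhdsWithin_le_nhds] with x e1 e2 e3 e4 e5
      have hs := sub_ne_zero.2 (show x ≠ z from e4)
      obtain ⟨p1, p2⟩ := hpol (x - z) e3.1 e3.2
      have p3 : x + z ∉ L.lattice := by
        intro hx
        apply p1
        have := L.lattice.sub_mem hx h2z
        have e : x + z - 2 * z = x - z := by ring
        rwa [e] at this
      have hid := hID L z x hz e5 p3 p1
      have hper := (hPER L).1 (x - z) (2 * z) h2z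
      have e : x - z + 2 * z = x + z := by ring
      rw [e] at hper
      rw [hper, e1, e2, smul_eq_mul] at hid
      have hpow : (x - z) ^ n = (x - z) * (x - z) ^ (n - 1) := by
        rw [← pow_succ']
        congr 1
        omega
      have hp1 : (x - z) ^ (n - 1) ≠ 0 := pow_ne_zero _ hs
      apply mul_left_cancel₀ hp1
      rw [hpow] at hid
      linear_combination hid
    -- limits
    have hconj : Tendsto (fun s : ℂ => (starRingEnd ℂ) s) (𝓝 0) (𝓝 0) := by
      have : Tendsto (fun s : ℂ => (starRingEnd ℂ) s) (𝓝 0) (𝓝 ((starRingEnd ℂ) 0)) :=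
        Complex.continuous_conj.continuousAt
      rwa [map_zero] at this
    have hsee : Tendsto (fun s : ℂ => s * ee L s) (𝓝[≠] 0) (𝓝 1) := by
      have hcont : ContinuousAt h 0 :=
        ((hh 0 (Metric.mem_ball_self hδ)).differentiableAt
          (Metric.ball_mem_nhds 0 hδ)).continuousAt
      have t1 : Tendsto (fun s : ℂ => 1 + s * h s -
          s * (((Real.pi / area L : ℝ) : ℂ) * (starRingEnd ℂ) s)) (𝓝 0) (𝓝 (1 + 0 * h 0 -
          0 * (((Real.pi / area L : ℝ) : ℂ) * 0))) :=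
        (tendsto_const_nhds.add (tendsto_id.mul hcont)).sub
          (tendsto_id.mul (tendsto_const_nhds.mul hconj))
      have e0 : (1 : ℂ) + 0 * h 0 - 0 * (((Real.pi / area L : ℝ) : ℂ) * 0) = 1 := by ring
      rw [e0] at t1
      refine (t1.mono_left nhdsWithin_le_nhds).congr' ?_
      filter_upwards [hball] with s hs
      have p2 := (hpol s hs.1 hs.2).2
      unfold zet at p2
      have hs0 := hs.2
      have e1 : ee L s = 1 / s + h s - ((Real.pi / area L : ℝ) : ℂ) * (starRingEnd ℂ) s := by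
        rw [← p2]; ring
      rw [e1]
      field_simp
    have heec : ContinuousAt (ee L) z := by
      have hc := (hHOL L z hz).continuousAt
      have : ee L = fun x => zet L x - ((Real.pi / area L : ℝ) : ℂ) * (starRingEnd ℂ) x := by
        ext x
        unfold zet
        ring
      rw [this]
      exact hc.sub (continuousAt_const.mul Complex.continuous_conj.continuousAt)
    have t0 : Tendsto (fun x : ℂ => x - z) (𝓝[≠] z) (𝓝 0) := hts.mono_right nhdsWithin_le_nhds
    have tg : Tendsto g (𝓝[≠] z) (𝓝 (g z)) := hg.continuousAt.tendsto.mono_left nhdsWithin_le_nhds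
    have tg' : Tendsto (deriv g) (𝓝[≠] z) (𝓝 (deriv g z)) :=
      hg.deriv.continuousAt.tendsto.mono_left nhdsWithin_le_nhds
    have te : Tendsto (ee L) (𝓝[≠] z) (𝓝 (ee L z)) :=
      heec.tendsto.mono_left nhdsWithin_le_nhds
    have tl : Tendsto (fun x => 2 * ((x - z) * ee L (x - z) - (x - z) * ee L x) * g x)
        (𝓝[≠] z) (𝓝 (2 * (1 - 0 * ee L z) * g z)) :=
      (((hsee.comp hts).sub (t0.mul te)).const_mul 2).mul tg
    have tr : Tendsto (fun x => n * g x + (x - z) * deriv g x)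
        (𝓝[≠] z) (𝓝 (n * g z + 0 * deriv g z)) :=
      (tg.const_mul (n : ℂ)).add (t0.mul tg')
    have hlim := tendsto_nhds_unique (tl.congr' heq) tr
    have hn2 : (n : ℂ) = 2 := by
      apply mul_right_cancel₀ hg0
      linear_combination -hlim
    have hn2' : n = 2 := by exact_mod_cast hn2
    subst hn2'
    -- second derivative
    have hsl := (hasDerivAt_iff_tendsto_slope.1 (hP2 L z hz))
    rw [h2] at hsl
    have ts : Tendsto (fun x => 2 * g x + (x - z) * deriv g x) (𝓝[≠] z)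
        (𝓝 (2 * g z + 0 * deriv g z)) := (tg.const_mul 2).add (t0.mul tg')
    have hs2 : Tendsto (slope L.derivWeierstrassP z) (𝓝[≠] z) (𝓝 (2 * g z + 0 * deriv g z)) := by
      refine ts.congr' ?_
      filter_upwards [hder', self_mem_nhdsWithin] with x e1 e2
      have hs := sub_ne_zero.2 (show x ≠ z from e2)
      rw [slope_def_field, e1, h1]
      field_simp
      push_cast
      ring
    have h9 := tendsto_nhds_unique hsl hs2
    apply hg0
    have h10 : 2 * g z = 0 := by linear_combination -h9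
    simpa using h10

end DSCaux

open _root_.Pool.Agent.MU3B.DSCaux in
theorem t_DSC (hSUR : St_SUR) (hPER : St_PER) (hHOL : St_HOL) (hPOL : St_POL) (hID : St_ID)
    (hZER : St_ZER) (hP2 : St_P2) : St_DSC := by
  intro L
  constructor
  · intro hdisc
    have hroot : ∃ x : ℂ, 12 * x ^ 2 = L.g₂ ∧ 4 * x ^ 3 - L.g₂ * x - L.g₃ = 0 := by
      by_cases h0 : L.g₂ = 0
      · refine ⟨0, by rw [h0]; ring, ?_⟩
        rw [h0] at hdisc
        have h3 : L.g₃ ^ 2 = 0 := by
          have : (27 : ℂ) * L.g₃ ^ 2 = 0 := by rw [← hdisc]; ring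
          simpa using this
        have h4 : L.g₃ = 0 := by simpa using h3
        rw [h4]
        ring
      · have e1 : 12 * (-3 * L.g₃ / (2 * L.g₂)) ^ 2 = L.g₂ := by
          rw [div_pow, mul_div_assoc', div_eq_iff (pow_ne_zero 2 (mul_ne_zero two_ne_zero h0))]
          linear_combination (-4) * hdisc
        refine ⟨-3 * L.g₃ / (2 * L.g₂), e1, ?_⟩
        have e2 : -3 * L.g₃ / (2 * L.g₂) * (2 * L.g₂) = -3 * L.g₃ :=
          div_mul_cancel₀ _ (mul_ne_zero two_ne_zero h0)
        set x : ℂ := -3 * L.g₃ / (2 * L.g₂) with hx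
        linear_combination (x / 3) * e1 - (1 / 3) * e2
    obtain ⟨x, hx1, hx2⟩ := hroot
    obtain ⟨z, hz, hzx⟩ := hSUR L x
    have hsq := L.derivWeierstrassP_sq z hz
    rw [hzx, hx2] at hsq
    have h1 : L.derivWeierstrassP z = 0 := by simpa using hsq
    have h2 : 6 * L.weierstrassP z ^ 2 - L.g₂ / 2 = 0 := by
      rw [hzx]
      linear_combination (1 / 2) * hx1
    exact no_triple L hPER hHOL hPOL hID hZER hP2 hz h1 h2
  · intro x y hxy
    obtain ⟨z, hz, hzx⟩ := hSUR L x
    have hsq := L.derivWeierstrassP_sq z hz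
    rw [hzx, ← hxy] at hsq
    rcases sq_eq_sq_iff_eq_or_eq_neg.1 hsq with h | h
    · exact ⟨z, hz, hzx, h⟩
    · refine ⟨-z, fun hm => hz (by simpa using L.lattice.neg_mem hm), ?_, ?_⟩
      · rw [L.weierstrassP_neg, hzx]
      · rw [L.derivWeierstrassP_neg, h, neg_neg]

end Pool.Agent.MU3B


end

section

/-!
# MU3, block B: module DIY (helper50)
-/

set_option autoImplicit false

namespace Pool.Agent.MU3B

open Complex Real Filter Topology
open scoped ComplexConjugate

namespace DIY50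

/-- Product rule with logarithmic derivatives. -/
theorem hasDerivAt_prod (R : Finset ℂ) (f : ℂ → ℂ → ℂ) (l : ℂ → ℂ) (z : ℂ)
    (h : ∀ q ∈ R, HasDerivAt (f q) (l q * f q z) z) :
    HasDerivAt (fun x => ∏ q ∈ R, f q x) ((∑ q ∈ R, l q) * ∏ q ∈ R, f q z) z := by
  classical
  induction R using Finset.induction_on with
  | empty => simpa using hasDerivAt_const z (1 : ℂ)
  | insert q s hq ih =>
    have h1 := h q (Finset.mem_insert_self q s)
    have h2 := ih (fun p hp => h p (Finset.mem_insert_of_mem hp))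
    have h3 := h1.mul h2
    have e : (fun x => ∏ p ∈ insert q s, f p x) = f q * fun x => ∏ p ∈ s, f p x := by
      funext x
      rw [Finset.prod_insert hq]
      rfl
    have e2 : (∑ p ∈ insert q s, l p) * ∏ p ∈ insert q s, f p z =
        l q * f q z * ∏ p ∈ s, f p z + f q z * ((∑ p ∈ s, l p) * ∏ p ∈ s, f p z) := by
      rw [Finset.sum_insert hq, Finset.prod_insert hq]
      ring
    rw [e, e2]
    exact h3

/-- The doubling map on representatives. -/
theorem exists_double {L : PeriodPair} {a : ℂ} {R : Finset ℂ}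
    (hR : IsReps L a R) (h2 : ∀ q ∈ R, 2 * q ∉ L.lattice) :
    ∃ σ : ℂ → ℂ, (∀ q ∈ R, σ q ∈ R ∧ 2 * q - σ q ∈ L.lattice) ∧ Set.InjOn σ R ∧
      R.image σ = R := by
  classical
  have hex : ∀ q ∈ R, ∃ q' ∈ R, 2 * q - q' ∈ L.lattice := by
    intro q hq
    apply hR.surj (2 * q) _ (h2 q hq)
    have h := L.lattice.add_mem (hR.mem q hq) (hR.mem q hq)
    have e : a * (2 * q) = a * q + a * q := by ring
    rwa [e]
  choose! σ hσ1 hσ2 using hex
  have hinj : Set.InjOn σ R := by
    intro q1 hq1 q2 hq2 he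
    have hq1' : q1 ∈ R := hq1
    have hq2' : q2 ∈ R := hq2
    have h1 := hσ2 q1 hq1'
    have h3 := hσ2 q2 hq2'
    have h4 : 2 * (q1 - q2) ∈ L.lattice := by
      have := L.lattice.sub_mem h1 h3
      rw [he] at this
      have e : 2 * (q1 - q2) = 2 * q1 - σ q2 - (2 * q2 - σ q2) := by ring
      rwa [e]
    by_contra hne
    have h5 : q1 - q2 ∉ L.lattice := fun h => hne (hR.inj q1 hq1' q2 hq2' h)
    have h6 : a * (q1 - q2) ∈ L.lattice := by
      rw [mul_sub]
      exact L.lattice.sub_mem (hR.mem q1 hq1') (hR.mem q2 hq2')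
    obtain ⟨q3, hq3, h7⟩ := hR.surj (q1 - q2) h6 h5
    apply h2 q3 hq3
    have h8 := L.lattice.sub_mem h4 (L.lattice.add_mem h7 h7)
    have e : 2 * q3 = 2 * (q1 - q2) - (q1 - q2 - q3 + (q1 - q2 - q3)) := by ring
    rwa [e]
  refine ⟨σ, fun q hq => ⟨hσ1 q hq, hσ2 q hq⟩, hinj, ?_⟩
  apply Finset.eq_of_subset_of_card_le
  · intro x hx
    obtain ⟨q, hq, rfl⟩ := Finset.mem_image.1 hx
    exact hσ1 q hq
  · rw [Finset.card_image_of_injOn hinj]

/-- The sum over the doubled classes. -/
theorem sum_double {L : PeriodPair} {a : ℂ} {R : Finset ℂ}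
    (hR : IsReps L a R) (h2 : ∀ q ∈ R, 2 * q ∉ L.lattice) (f : ℂ → ℂ)
    (hf : ∀ z, ∀ v ∈ L.lattice, f (z + v) = f z) (w : ℂ) :
    ∑ q ∈ R, f (w + 2 * q) = ∑ q ∈ R, f (w + q) := by
  classical
  obtain ⟨σ, h1, hinj, him⟩ := exists_double hR h2
  have h3 : ∑ q ∈ R, f (w + q) = ∑ q ∈ R.image σ, f (w + q) := by rw [him]
  rw [h3, Finset.sum_image hinj]
  apply Finset.sum_congr rfl
  intro q hq
  have := hf (w + σ q) (2 * q - σ q) (h1 q hq).2
  rw [← this]
  congr 1
  ring

/-- If `2 a z` is in the lattice but `a z` is not, some `2 (z + q)` is in the lattice. -/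
theorem exists_half {L : PeriodPair} {a : ℂ} {R : Finset ℂ}
    (hR : IsReps L a R) (h2 : ∀ q ∈ R, 2 * q ∉ L.lattice) {z : ℂ}
    (hz : 2 * (a * z) ∈ L.lattice) :
    2 * z ∈ L.lattice ∨ ∃ q ∈ R, 2 * (z + q) ∈ L.lattice := by
  classical
  by_cases hu : 2 * z ∈ L.lattice
  · exact Or.inl hu
  · right
    obtain ⟨σ, h1, hinj, him⟩ := exists_double hR h2
    have h3 : a * (2 * z) ∈ L.lattice := by
      have e : a * (2 * z) = 2 * (a * z) := by ring
      rwa [e]
    obtain ⟨q', hq', h4⟩ := hR.surj (2 * z) h3 hu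
    rw [← him] at hq'
    obtain ⟨q'', hq'', rfl⟩ := Finset.mem_image.1 hq'
    have h5 := (h1 q'' hq'').2
    have h6 : a * (-q'') ∈ L.lattice := by
      rw [mul_neg]
      exact L.lattice.neg_mem (hR.mem q'' hq'')
    have h7 : -q'' ∉ L.lattice := fun h => hR.ne q'' hq'' (by
      have := L.lattice.neg_mem h
      rwa [neg_neg] at this)
    obtain ⟨q, hq, h8⟩ := hR.surj (-q'') h6 h7
    refine ⟨q, hq, ?_⟩
    have h9 := L.lattice.sub_mem (L.lattice.sub_mem h4 h5) (L.lattice.add_mem h8 h8)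
    have e : 2 * (z + q) = 2 * z - σ q'' - (2 * q'' - σ q'') - (-q'' - q + (-q'' - q)) := by ring
    rwa [e]

end DIY50

open _root_.Pool.Agent.MU3B.DIY50 in
theorem t_DIY (hDIS : St_DIS) (hDD : St_DD) (hZER : St_ZER) (hP2 : St_P2) (hPER : St_PER) :
    St_DIY := by
  classical
  intro L a R ha haL hR h2
  -- the domain
  set U : Set ℂ := {z | 2 * (a * z) ∉ L.lattice} with hU
  have hUc : Uᶜ.Countable := by
    have hc : Countable L.lattice := L.latticeEquivProd.toEquiv.injective.countable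
    have hc2 : (L.lattice : Set ℂ).Countable := hc
    have e : Uᶜ = (fun z : ℂ => 2 * (a * z)) ⁻¹' (L.lattice : Set ℂ) := by
      ext z
      simp [hU]
    rw [e]
    apply hc2.preimage_of_injOn
    intro x _ y _ hxy
    have h3 : 2 * (a * x) = 2 * (a * y) := hxy
    have h4 := mul_left_cancel₀ (two_ne_zero) h3
    exact mul_left_cancel₀ ha h4
  have hUopen : IsOpen U := by
    have e : U = (fun z : ℂ => 2 * (a * z)) ⁻¹' (L.lattice : Set ℂ)ᶜ := by
      ext z
      simp [hU]
    rw [e]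
    exact L.isClosed_lattice.isOpen_compl.preimage (by fun_prop)
  have hUconn : IsConnected U := by
    have h := hUc.isPathConnected_compl_of_one_lt_rank
      (by simp only [Complex.rank_real_complex, Nat.one_lt_ofNat])
    rw [compl_compl] at h
    exact h.isConnected
  -- logarithmic derivative
  set l : ℂ → ℂ := fun z => 2 * ee L (2 * z) - 4 * ee L z with hl
  have hsub : ∀ z, 2 * z ∉ L.lattice → z ∉ L.lattice := by
    intro z hz h
    apply hz
    rw [two_mul]
    exact L.lattice.add_mem h h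
  have hder : ∀ z, 2 * z ∉ L.lattice →
      HasDerivAt L.derivWeierstrassP (l z * L.derivWeierstrassP z) z := by
    intro z hz
    have h3 := hP2 L z (hsub z hz)
    rw [← hDD L z hz] at h3
    exact h3
  have hmemU : ∀ z ∈ U, ∀ q ∈ R, 2 * (z + q) ∉ L.lattice := by
    intro z hz q hq h
    apply hz
    have h3 := haL _ h
    have h4 := hR.mem q hq
    have h5 := L.lattice.sub_mem h3 (L.lattice.add_mem h4 h4)
    have e : 2 * (a * z) = a * (2 * (z + q)) - (a * q + a * q) := by ring
    rwa [e]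
  have hmemU0 : ∀ z ∈ U, 2 * z ∉ L.lattice := by
    intro z hz h
    apply hz
    have h3 := haL _ h
    have e : 2 * (a * z) = a * (2 * z) := by ring
    rwa [e]
  set N : ℂ → ℂ := fun z => L.derivWeierstrassP z * ∏ q ∈ R, L.derivWeierstrassP (z + q) with hN
  set D : ℂ → ℂ := fun z => L.derivWeierstrassP (a * z) with hD
  have hNd : ∀ z ∈ U, HasDerivAt N ((l z + ∑ q ∈ R, l (z + q)) * N z) z := by
    intro z hz
    have h3 := hder z (hmemU0 z hz)
    have h4 : ∀ q ∈ R, HasDerivAt (fun x => L.derivWeierstrassP (x + q))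
        (l (z + q) * L.derivWeierstrassP (z + q)) z := by
      intro q hq
      exact (hder (z + q) (hmemU z hz q hq)).comp_add_const z q
    have h5 := hasDerivAt_prod R (fun q x => L.derivWeierstrassP (x + q)) (fun q => l (z + q)) z h4
    have h6 := h3.mul h5
    have e : (l z + ∑ q ∈ R, l (z + q)) * N z =
        l z * L.derivWeierstrassP z * ∏ q ∈ R, L.derivWeierstrassP (z + q) +
        L.derivWeierstrassP z *
          ((∑ q ∈ R, l (z + q)) * ∏ q ∈ R, L.derivWeierstrassP (z + q)) := by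
      simp only [hN]
      ring
    rw [e]
    exact h6
  have hDd : ∀ z ∈ U, HasDerivAt D (a * l (a * z) * D z) z := by
    intro z hz
    have h3 : HasDerivAt L.derivWeierstrassP (l (a * z) * L.derivWeierstrassP (a * z)) (a * z) :=
      hder (a * z) hz
    have h4 : HasDerivAt (fun x : ℂ => a * x) a z := by
      simpa using (hasDerivAt_id z).const_mul a
    have h5 := h3.comp z h4
    have e : a * l (a * z) * D z = l (a * z) * L.derivWeierstrassP (a * z) * a := by
      simp only [hD]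
      ring
    rw [e]
    exact h5
  have hsum : ∀ z, l z + ∑ q ∈ R, l (z + q) = a * l (a * z) := by
    intro z
    have h3 := hDIS L a R ha haL hR z
    have h4 := hDIS L a R ha haL hR (2 * z)
    have h5 := sum_double hR h2 (ee L) (hPER L).1 (2 * z)
    rw [← h5] at h4
    have e1 : ∑ q ∈ R, l (z + q) = 2 * ∑ q ∈ R, ee L (2 * z + 2 * q) -
        4 * ∑ q ∈ R, ee L (z + q) := by
      rw [hl, Finset.mul_sum, Finset.mul_sum, ← Finset.sum_sub_distrib]
      apply Finset.sum_congr rfl
      intro q _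
      simp only
      rw [mul_add]
    have e2 : a * (2 * z) = 2 * (a * z) := by ring
    rw [e2] at h4
    rw [e1]
    simp only [hl]
    linear_combination 2 * h4 - 4 * h3
  have hDne : ∀ z ∈ U, D z ≠ 0 := by
    intro z hz h
    have h3 : a * z ∉ L.lattice := hsub _ hz
    exact hz ((hZER L (a * z) h3).1 h)
  have hNne : ∀ z ∈ U, N z ≠ 0 := by
    intro z hz
    refine mul_ne_zero ?_ (Finset.prod_ne_zero_iff.2 fun q hq => ?_)
    · intro h
      exact hmemU0 z hz ((hZER L z (hsub z (hmemU0 z hz))).1 h)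
    · intro h
      exact hmemU z hz q hq ((hZER L (z + q) (hsub _ (hmemU z hz q hq))).1 h)
  have hQ : ∀ z ∈ U, HasDerivAt (fun x => N x / D x) 0 z := by
    intro z hz
    have h3 := (hNd z hz).div (hDd z hz) (hDne z hz)
    rw [hsum z] at h3
    have e : (a * l (a * z) * N z * D z - N z * (a * l (a * z) * D z)) / D z ^ 2 = 0 := by
      rw [div_eq_zero_iff]
      left
      ring
    rw [e] at h3
    exact h3
  obtain ⟨C, hC⟩ := hUopen.exists_is_const_of_deriv_eq_zero hUconn.isPreconnected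
    (fun z hz => (hQ z hz).differentiableAt.differentiableWithinAt) (fun z hz => (hQ z hz).deriv)
  refine ⟨C, ?_, ?_⟩
  · obtain ⟨z, hz⟩ := hUconn.nonempty
    rw [← hC z hz]
    exact div_ne_zero (hNne z hz) (hDne z hz)
  · intro z haz
    by_cases hz : z ∈ U
    · have h3 := hC z hz
      have h4 : N z / D z = C := h3
      rw [div_eq_iff (hDne z hz)] at h4
      exact h4
    · have hz' : 2 * (a * z) ∈ L.lattice := by
        by_contra h
        exact hz h
      have h3 : L.derivWeierstrassP (a * z) = 0 := (hZER L (a * z) haz).2 hz'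
      rw [h3, mul_zero, mul_eq_zero]
      rcases exists_half hR h2 hz' with h4 | ⟨q, hq, h4⟩
      · left
        exact (hZER L z (fun h => haz (haL z h))).2 h4
      · right
        apply Finset.prod_eq_zero hq
        refine (hZER L (z + q) (fun h => haz ?_)).2 h4
        have h5 := L.lattice.sub_mem (haL _ h) (hR.mem q hq)
        have e : a * z = a * (z + q) - a * q := by ring
        rwa [e]

end Pool.Agent.MU3B


end

section

/-!
# MU3, block B: logarithmic derivative of the derivative of the Weierstrass function (DD)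
-/

set_option autoImplicit false

namespace Pool.Agent.MU3B

open Complex Real Filter Topology
open scoped ComplexConjugate

theorem t_DD (hHOL : St_HOL) (hZAD : St_ZAD) (hP2 : St_P2) : St_DD := by
  intro L z h2z
  have hz : z ∉ L.lattice := by
    intro h
    apply h2z
    have h1 := L.lattice.add_mem h h
    rwa [← two_mul] at h1
  -- continuity of `e` outside the lattice
  have hcont : ∀ u : ℂ, u ∉ L.lattice → ContinuousAt (ee L) u := by
    intro u hu
    have h1 : ee L = fun v => zet L v - ((π / area L : ℝ) : ℂ) * conj v := by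
      funext v
      unfold zet
      ring
    rw [h1]
    exact (hHOL L u hu).continuousAt.sub
      (continuousAt_const.mul Complex.continuous_conj.continuousAt)
  have hz2 : z + z ∉ L.lattice := by
    rwa [← two_mul]
  -- the derivatives
  have hd1 : HasDerivAt L.weierstrassP (L.derivWeierstrassP z) z := by
    have h1 : DifferentiableAt ℂ L.weierstrassP z :=
      (L.differentiableOn_weierstrassP).differentiableAt
        (L.isClosed_lattice.isOpen_compl.mem_nhds hz)
    have h2 := h1.hasDerivAt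
    rwa [L.deriv_weierstrassP] at h2
  have hd2 := hP2 L z hz
  have hs1 := hasDerivAt_iff_tendsto_slope.1 hd1
  have hs2 := hasDerivAt_iff_tendsto_slope.1 hd2
  have he1 : Tendsto (fun Q => ee L (z + Q)) (𝓝[≠] z) (𝓝 (ee L (z + z))) := by
    have h1 : ContinuousAt (fun Q => ee L (z + Q)) z := by
      apply ContinuousAt.comp (g := ee L)
      · exact hcont _ hz2
      · exact continuousAt_const.add continuousAt_id
    exact h1.tendsto.mono_left nhdsWithin_le_nhds
  have he2 : Tendsto (fun Q => ee L Q) (𝓝[≠] z) (𝓝 (ee L z)) :=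
    (hcont z hz).tendsto.mono_left nhdsWithin_le_nhds
  have hleft : Tendsto (fun Q => 2 * (ee L (z + Q) - ee L z - ee L Q) *
      slope L.weierstrassP z Q) (𝓝[≠] z)
      (𝓝 (2 * (ee L (z + z) - ee L z - ee L z) * L.derivWeierstrassP z)) :=
    (((he1.sub_const _).sub he2).const_mul 2).mul hs1
  have hev : ∀ᶠ Q in 𝓝[≠] z, 2 * (ee L (z + Q) - ee L z - ee L Q) *
      slope L.weierstrassP z Q = slope L.derivWeierstrassP z Q := by
    have h1 : ∀ᶠ Q in 𝓝[≠] z, Q ∉ L.lattice :=
      nhdsWithin_le_nhds (L.isClosed_lattice.isOpen_compl.mem_nhds hz)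
    have h2 : ∀ᶠ Q in 𝓝[≠] z, z + Q ∉ L.lattice := by
      apply nhdsWithin_le_nhds
      have h3 : ContinuousAt (fun Q : ℂ => z + Q) z := continuousAt_const.add continuousAt_id
      exact h3.preimage_mem_nhds (L.isClosed_lattice.isOpen_compl.mem_nhds hz2)
    have h3 : ∀ᶠ Q in 𝓝[≠] z, z - Q ∉ L.lattice := by
      have h4 : ContinuousAt (fun Q : ℂ => z - Q) z := continuousAt_const.sub continuousAt_id
      have h5 := L.compl_lattice_sdiff_singleton_mem_nhds (0 : ℂ)
      have h6 : (fun Q : ℂ => z - Q) ⁻¹' (((L.lattice : Set ℂ) \ {0})ᶜ) ∈ 𝓝 z := by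
        apply h4.preimage_mem_nhds
        simpa using h5
      filter_upwards [nhdsWithin_le_nhds h6, self_mem_nhdsWithin] with Q hQ hne hmem
      apply hQ
      refine ⟨hmem, ?_⟩
      intro h7
      apply hne
      have h8 : z - Q = 0 := h7
      exact (sub_eq_zero.1 h8).symm
    filter_upwards [h1, h2, h3, self_mem_nhdsWithin] with Q hQ1 hQ2 hQ3 hne
    have h4 := hZAD L Q z hQ1 hz hQ2 hQ3
    have h5 : Q - z ≠ 0 := sub_ne_zero.2 hne
    rw [slope_def_field, slope_def_field, ← mul_div_assoc]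
    congr 1
    linear_combination -h4
  have hfin := tendsto_nhds_unique (hleft.congr' hev) hs2
  rw [← two_mul] at hfin
  rw [← hfin]
  ring

end Pool.Agent.MU3B


end

section

/-!
# MU3, block B: module CMX (helper18)
-/

set_option autoImplicit false

namespace Pool.Agent.MU3B

open Complex Real Filter Topology
open scoped ComplexConjugate

namespace CMX18

theorem ex0 (L : PeriodPair) (z : ℂ) :
    L.weierstrassP z = L.weierstrassPExcept 0 z + 1 / z ^ 2 := by
  have h := L.weierstrassPExcept_add 0 z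
  rw [← h]
  simp

/-- The difference of the two double poles at `0`. -/
theorem lim0 (L : PeriodPair) (a : ℂ) (ha : a ≠ 0) :
    Tendsto (fun s => a ^ 2 * L.weierstrassP (a * s) - L.weierstrassP s) (𝓝 0) (𝓝 0) := by
  have hE : ContinuousAt (L.weierstrassPExcept 0) 0 :=
    (L.analyticAt_weierstrassPExcept 0).continuousAt
  have e : (fun s => a ^ 2 * L.weierstrassP (a * s) - L.weierstrassP s) =
      fun s => a ^ 2 * L.weierstrassPExcept 0 (a * s) - L.weierstrassPExcept 0 s := by
    funext s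
    rw [ex0, ex0]
    by_cases hs : s = 0
    · simp [hs]
    · field_simp
      ring
  rw [e]
  have h1 : ContinuousAt (fun s : ℂ => L.weierstrassPExcept 0 (a * s)) 0 :=
    ContinuousAt.comp_of_eq hE (by fun_prop) (by simp)
  have h2 : ContinuousAt (fun s : ℂ => a ^ 2 * L.weierstrassPExcept 0 (a * s) -
      L.weierstrassPExcept 0 s) 0 := (continuousAt_const.mul h1).sub hE
  have h3 := h2.tendsto
  simpa using h3

theorem cont (L : PeriodPair) {z : ℂ} (hz : z ∉ L.lattice) : ContinuousAt L.weierstrassP z :=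
  (L.analyticOnNhd_weierstrassP z hz).continuousAt

theorem cont_add (L : PeriodPair) {z q : ℂ} (hz : z + q ∉ L.lattice) :
    ContinuousAt (fun x => L.weierstrassP (x + q)) z :=
  ContinuousAt.comp_of_eq (cont L hz) (by fun_prop) rfl

theorem per (L : PeriodPair) (x v : ℂ) (hv : v ∈ L.lattice) :
    L.weierstrassP (x + v) = L.weierstrassP x := L.weierstrassP_add_coe x ⟨v, hv⟩

end CMX18

open _root_.Pool.Agent.MU3B.CMX18 in
theorem t_CMX (hLIO : St_LIO) : St_CMX := by
  intro L a R ha hL hR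
  classical
  obtain ⟨f, hf⟩ : ∃ f : ℂ → ℂ, f = fun z => a ^ 2 * L.weierstrassP (a * z) - L.weierstrassP z -
      ∑ q ∈ R, (L.weierstrassP (z + q) - L.weierstrassP q) := ⟨_, rfl⟩
  obtain ⟨P, hP⟩ : ∃ P : Finset ℂ, P = insert 0 (R.image fun q => -q) := ⟨_, rfl⟩
  -- points outside `P + L`
  have out : ∀ z, (∀ p ∈ P, z - p ∉ L.lattice) →
      z ∉ L.lattice ∧ (∀ q ∈ R, z + q ∉ L.lattice) ∧ a * z ∉ L.lattice := by
    intro z hz
    have h0 : z ∉ L.lattice := by
      have := hz 0 (by rw [hP]; exact Finset.mem_insert_self _ _)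
      rwa [sub_zero] at this
    have h1 : ∀ q ∈ R, z + q ∉ L.lattice := by
      intro q hq
      have := hz (-q) (by
        rw [hP]; exact Finset.mem_insert_of_mem (Finset.mem_image_of_mem _ hq))
      rwa [sub_neg_eq_add] at this
    refine ⟨h0, h1, fun h => ?_⟩
    obtain ⟨q, hq, h2⟩ := hR.surj (-z) (by
      rw [mul_neg]; exact L.lattice.neg_mem h) (fun h3 => h0 (by
      have := L.lattice.neg_mem h3
      rwa [neg_neg] at this))
    refine h1 q hq ?_
    have h4 := L.lattice.neg_mem h2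
    have e : -(-z - q) = z + q := by ring
    rwa [e] at h4
  have fper : ∀ z, ∀ v ∈ L.lattice, f (z + v) = f z := by
    intro z v hv
    rw [hf]
    simp only
    rw [mul_add, per L _ _ (hL v hv), per L _ _ hv]
    congr 1
    refine Finset.sum_congr rfl fun q _ => ?_
    rw [add_right_comm, per L _ _ hv]
  have fdiff : ∀ z, (∀ p ∈ P, z - p ∉ L.lattice) → DifferentiableAt ℂ f z := by
    intro z hz
    obtain ⟨h0, h1, h2⟩ := out z hz
    have d1 : DifferentiableAt ℂ (fun z => L.weierstrassP (a * z)) z :=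
      DifferentiableAt.comp z (L.analyticOnNhd_weierstrassP (a * z) h2).differentiableAt
        (by fun_prop : DifferentiableAt ℂ (fun z : ℂ => a * z) z)
    have d2 : DifferentiableAt ℂ L.weierstrassP z :=
      (L.analyticOnNhd_weierstrassP z h0).differentiableAt
    have d3 : ∀ q ∈ R, DifferentiableAt ℂ (fun z => L.weierstrassP (z + q) - L.weierstrassP q) z := by
      intro q hq
      exact (DifferentiableAt.comp z
        (L.analyticOnNhd_weierstrassP (z + q) (h1 q hq)).differentiableAt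
        (by fun_prop : DifferentiableAt ℂ (fun z : ℂ => z + q) z)).sub_const _
    rw [hf]
    exact (((d1.const_mul (a ^ 2)).sub d2).sub (DifferentiableAt.fun_sum d3))
  -- the limit at `0`
  have l0 : Tendsto f (𝓝 0) (𝓝 0) := by
    have s1 : ∀ q ∈ R, Tendsto (fun z => L.weierstrassP (z + q) - L.weierstrassP q) (𝓝 0)
        (𝓝 0) := by
      intro q hq
      have h1 : ContinuousAt (fun x => L.weierstrassP (x + q)) 0 :=
        cont_add L (by rw [zero_add]; exact hR.ne q hq)
      have h2 : Tendsto (fun z => L.weierstrassP (z + q) - L.weierstrassP q) (𝓝 0)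
          (𝓝 (L.weierstrassP (0 + q) - L.weierstrassP q)) :=
        (h1.sub (continuousAt_const (y := L.weierstrassP q))).tendsto
      rwa [zero_add, sub_self] at h2
    have s2 := (lim0 L a ha).sub (tendsto_finsetSum R s1)
    rw [Finset.sum_const_zero, sub_zero] at s2
    rw [hf]
    exact s2
  have lp : ∀ p ∈ P, Tendsto (fun z => (z - p) * f z) (𝓝[≠] p) (𝓝 0) := by
    intro p hp
    -- it suffices that `f` has a limit
    suffices h : ∃ l, Tendsto f (𝓝 p) (𝓝 l) by
      obtain ⟨l, hl⟩ := h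
      have h1 : Tendsto (fun z : ℂ => z - p) (𝓝 p) (𝓝 0) := by
        have := (by fun_prop : Continuous fun z : ℂ => z - p).tendsto p
        rwa [sub_self] at this
      have h2 := h1.mul hl
      rw [zero_mul] at h2
      exact h2.mono_left nhdsWithin_le_nhds
    rw [hP, Finset.mem_insert] at hp
    rcases hp with hp | hp
    · rw [hp]
      exact ⟨0, l0⟩
    · obtain ⟨q₀, hq₀, rfl⟩ := Finset.mem_image.1 hp
      have e : f = fun z => (a ^ 2 * L.weierstrassP (a * (z + q₀)) - L.weierstrassP (z + q₀)) -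
          (L.weierstrassP z + ∑ q ∈ R.erase q₀, (L.weierstrassP (z + q) - L.weierstrassP q)) +
          L.weierstrassP q₀ := by
        rw [hf]
        funext z
        rw [mul_add, per L _ _ (hR.mem q₀ hq₀), ← Finset.add_sum_erase R _ hq₀]
        ring
      rw [e]
      have g1 : Tendsto (fun z : ℂ => a ^ 2 * L.weierstrassP (a * (z + q₀)) -
          L.weierstrassP (z + q₀)) (𝓝 (-q₀)) (𝓝 0) := by
        have h1 : Tendsto (fun z : ℂ => z + q₀) (𝓝 (-q₀)) (𝓝 0) := by
          have := (by fun_prop : Continuous fun z : ℂ => z + q₀).tendsto (-q₀)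
          rwa [neg_add_cancel] at this
        exact (lim0 L a ha).comp h1
      have g2 : ContinuousAt L.weierstrassP (-q₀) := cont L fun h => hR.ne q₀ hq₀ (by
        have := L.lattice.neg_mem h
        rwa [neg_neg] at this)
      have g3 : ∀ q ∈ R.erase q₀, Tendsto (fun z => L.weierstrassP (z + q) - L.weierstrassP q)
          (𝓝 (-q₀)) (𝓝 (L.weierstrassP (-q₀ + q) - L.weierstrassP q)) := by
        intro q hq
        rw [Finset.mem_erase] at hq
        refine ((cont_add L fun h => hq.1 (hR.inj q hq.2 q₀ hq₀ ?_)).sub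
          continuousAt_const).tendsto
        rwa [neg_add_eq_sub] at h
      exact ⟨_, (g1.sub (g2.tendsto.add (tendsto_finsetSum _ g3))).add_const _⟩
  obtain ⟨c, hc⟩ := hLIO L f P fper fdiff lp
  -- `c = 0`
  have hc0 : c = 0 := by
    have hev : ∀ᶠ z in 𝓝[≠] (0 : ℂ), f z = c := by
      have h1 : ∀ᶠ z in 𝓝[≠] (0 : ℂ), z ∉ L.lattice := by
        have h2 : ∀ᶠ z in 𝓝[≠] (0 : ℂ), z ∈ ((L.lattice : Set ℂ) \ {0})ᶜ :=
          nhdsWithin_le_nhds (L.compl_lattice_sdiff_singleton_mem_nhds 0)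
        filter_upwards [h2, self_mem_nhdsWithin] with z hz hz0
        exact fun hL => hz ⟨hL, hz0⟩
      have h2 : ∀ᶠ z in 𝓝 (0 : ℂ), ∀ q ∈ R, z + q ∉ L.lattice := by
        rw [Filter.eventually_all_finset]
        intro q hq
        exact (by fun_prop : Continuous fun z : ℂ => z + q).continuousAt.eventually
          (L.isClosed_lattice.isOpen_compl.mem_nhds (by
            show (0 : ℂ) + q ∉ L.lattice
            rw [zero_add]
            exact hR.ne q hq))
      filter_upwards [h1, nhdsWithin_le_nhds h2] with z z1 z2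
      refine hc z fun p hp => ?_
      rw [hP, Finset.mem_insert] at hp
      rcases hp with hp | hp
      · rwa [hp, sub_zero]
      · obtain ⟨q, hq, rfl⟩ := Finset.mem_image.1 hp
        rw [sub_neg_eq_add]
        exact z2 q hq
    have h3 : Tendsto f (𝓝[≠] 0) (𝓝 0) := l0.mono_left nhdsWithin_le_nhds
    have h4 : Tendsto f (𝓝[≠] 0) (𝓝 c) := (tendsto_congr' hev).2 tendsto_const_nhds
    exact tendsto_nhds_unique h4 h3
  intro z hz
  have h5 := hc z (by
    intro p hp h
    rw [hP, Finset.mem_insert] at hp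
    rcases hp with hp | hp
    · rw [hp, sub_zero] at h
      exact hz (hL z h)
    · obtain ⟨q, hq, rfl⟩ := Finset.mem_image.1 hp
      rw [sub_neg_eq_add] at h
      have h6 := L.lattice.sub_mem (hL _ h) (hR.mem q hq)
      have e : a * (z + q) - a * q = a * z := by ring
      rw [e] at h6
      exact hz h6)
  rw [hf, hc0] at h5
  linear_combination h5

end Pool.Agent.MU3B


end

section

/-!
# MU3, block B: all 35 statements, without hypotheses
-/

set_option autoImplicit false

namespace Pool.Agent.MU3B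

theorem b_LAT : St_LAT := t_LAT
theorem b_LIO : St_LIO := t_LIO
theorem b_CMX : St_CMX := t_CMX b_LIO
theorem b_NUM : St_NUM := t_NUM b_LAT
theorem b_HRE : St_HRE := t_HRE b_NUM
theorem b_P2 : St_P2 := t_P2
theorem b_PER : St_PER := t_PER b_LAT
theorem b_POI : St_POI := t_POI b_LAT
theorem b_REP : St_REP := t_REP b_LAT
theorem b_HAL : St_HAL := t_HAL b_REP
theorem b_SUM : St_SUM := t_SUM
theorem b_HOL : St_HOL := t_HOL b_SUM b_LAT b_POI
theorem b_POD : St_POD := t_POD b_SUM b_LAT b_POI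
theorem b_INT : St_INT := t_INT b_SUM b_LAT b_POD b_PER
theorem b_DIS : St_DIS := t_DIS b_SUM b_INT
theorem b_POL : St_POL := t_POL b_SUM b_LAT b_HOL b_PER
theorem b_SCL : St_SCL := t_SCL b_INT
theorem b_SUR : St_SUR := t_SUR b_LIO
theorem b_TIN : St_TIN := t_TIN
theorem b_ZP : St_ZP := t_ZP b_PER b_HOL b_POL b_LIO
theorem b_ID : St_ID := t_ID b_PER b_HOL b_POL b_LIO b_ZP
theorem b_NEQ : St_NEQ := t_NEQ b_HOL b_ID
theorem b_TDL : St_TDL := t_TDL b_ID b_DIS b_HRE b_NEQ
theorem b_TNZ : St_TNZ := t_TNZ b_NEQ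
theorem b_TDI : St_TDI := t_TDI b_TDL b_TNZ b_DIS
theorem b_TRA : St_TRA := t_TRA b_TDL b_PER
theorem b_ZAD : St_ZAD := t_ZAD b_PER b_ID
theorem b_ADD : St_ADD := t_ADD b_ZAD b_ZP b_P2 b_NEQ
theorem b_DD : St_DD := t_DD b_HOL b_ZAD b_P2
theorem b_SD : St_SD := t_SD b_ADD b_NEQ
theorem b_ZER : St_ZER := t_ZER b_PER b_HOL b_POL b_ID b_NEQ
theorem b_DIY : St_DIY := t_DIY b_DIS b_DD b_ZER b_P2 b_PER
theorem b_DIC : St_DIC := t_DIC b_DIY
theorem b_DSC : St_DSC := t_DSC b_SUR b_PER b_HOL b_POL b_ID b_ZER b_P2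
theorem b_DUP : St_DUP := t_DUP b_ADD b_P2 b_ZER

end Pool.Agent.MU3B


end

section

/-!
# MUX, block U, module LOC (helper65)

A local solution of the differential equation of the Weierstrass function is a translate of it.
-/

set_option autoImplicit false

open Filter Topology Polynomial UpperHalfPlane
open scoped Real

namespace Pool.Agent.MUXU

open _root_.Pool.Agent.MU3B

noncomputable section

/-- a linear differential equation of order one: if `w' = a w` near `x` and `w x = 0` then `w = 0`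
near `x` -/
theorem loc_linear {w a : ℂ → ℂ} {x : ℂ} (hw : AnalyticAt ℂ w x) (ha : AnalyticAt ℂ a x)
    (h0 : w x = 0) (h : ∀ᶠ z in 𝓝 x, deriv w z = a z * w z) : ∀ᶠ z in 𝓝 x, w z = 0 := by
  have h1 := hw.analyticOrderAt_deriv_add_one
  have h2 : (fun z => w z - w x) = w := by
    funext z
    rw [h0, sub_zero]
  rw [h2] at h1
  have h3 : analyticOrderAt (deriv w) x = analyticOrderAt (a * w) x :=
    analyticOrderAt_congr (by
      filter_upwards [h] with z hz
      simpa using hz)
  rw [h3, analyticOrderAt_mul ha hw] at h1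
  rw [← analyticOrderAt_eq_top]
  by_contra hne
  have h4 : analyticOrderAt a x ≠ ⊤ := by
    intro h5
    rw [h5] at h1
    simp at h1
    exact hne h1.symm
  obtain ⟨n, hn⟩ := ENat.ne_top_iff_exists.1 hne
  obtain ⟨m, hm⟩ := ENat.ne_top_iff_exists.1 h4
  rw [← hn, ← hm] at h1
  have h6 : (m : ℕ) + n + 1 = n := by exact_mod_cast h1
  omega

theorem tu_LOC : Su_LOC := by
  intro M μ N f z₀ hμ hNc hN hf hode hz₀ hd
  have hfan : AnalyticOnNhd ℂ f Nᶜ := hf.analyticOnNhd hN.isOpen_compl
  -- the starting point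
  obtain ⟨u₀, hu₀, hP, hP'⟩ := (b_DSC M).2 (f z₀) (deriv f z₀ / μ) (by
    rw [div_pow, hode z₀ hz₀]
    field_simp)
  have hc : μ * z₀ + (u₀ - μ * z₀) = u₀ := by ring
  refine ⟨u₀ - μ * z₀, ?_⟩
  set c : ℂ := u₀ - μ * z₀ with hcdef
  -- the translate
  set k : ℂ → ℂ := fun z => M.weierstrassP (μ * z + c) with hk
  set S : Set ℂ := N ∪ (fun z => μ * z + c) ⁻¹' (M.lattice : Set ℂ) with hS
  have hcont : Continuous (fun z : ℂ => μ * z + c) := by fun_prop
  have hSclosed : IsClosed S := hN.union (M.isClosed_lattice.preimage hcont)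
  have hinj : Function.Injective (fun z : ℂ => μ * z + c) := by
    intro z z' hzz
    simp only [add_left_inj] at hzz
    exact mul_left_cancel₀ hμ hzz
  have hScount : S.Countable := by
    refine hNc.union ?_
    have h1 : (M.lattice : Set ℂ).Countable := by
      have : Countable M.lattice := by
        exact (M.latticeEquivProd).toEquiv.countable_iff.2 inferInstance
      exact Set.to_countable _
    exact h1.preimage hinj
  have hkan : ∀ z, μ * z + c ∉ M.lattice → AnalyticAt ℂ k z := by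
    intro z hz
    have h1 : AnalyticAt ℂ M.weierstrassP (μ * z + c) := M.analyticOnNhd_weierstrassP _ hz
    have h2 : AnalyticAt ℂ (fun z : ℂ => μ * z + c) z := by fun_prop
    exact AnalyticAt.comp (f := fun z : ℂ => μ * z + c) h1 h2
  have hkd : ∀ z, μ * z + c ∉ M.lattice →
      deriv k z = μ * M.derivWeierstrassP (μ * z + c) := by
    intro z hz
    have h1 : HasDerivAt M.weierstrassP (M.derivWeierstrassP (μ * z + c)) (μ * z + c) := by
      rw [← M.deriv_weierstrassP]
      exact (M.analyticOnNhd_weierstrassP _ hz).differentiableAt.hasDerivAt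
    have h2 : HasDerivAt (fun z : ℂ => μ * z + c) μ z := by
      simpa using ((hasDerivAt_id z).const_mul μ).add_const c
    have h3 := h1.comp z h2
    rw [mul_comm]
    exact h3.deriv
  have hkode : ∀ z, μ * z + c ∉ M.lattice →
      deriv k z ^ 2 = μ ^ 2 * (4 * k z ^ 3 - M.g₂ * k z - M.g₃) := by
    intro z hz
    rw [hkd z hz, mul_pow, M.derivWeierstrassP_sq _ hz]
  have hz₀S : z₀ ∈ Sᶜ := by
    rintro (h | h)
    · exact hz₀ h
    · have h' : μ * z₀ + c ∈ M.lattice := h
      rw [hc] at h'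
      exact hu₀ h'
  have hz₀k : μ * z₀ + c ∉ M.lattice := by
    rw [hc]
    exact hu₀
  -- near `z₀`
  have hk0 : k z₀ = f z₀ := by
    show M.weierstrassP (μ * z₀ + c) = f z₀
    rw [hc, hP]
  have hk1 : deriv k z₀ = deriv f z₀ := by
    rw [hkd z₀ hz₀k, hc, hP']
    field_simp
  have hfa : AnalyticAt ℂ f z₀ := hfan z₀ hz₀
  have hka : AnalyticAt ℂ k z₀ := hkan z₀ hz₀k
  have hsum : AnalyticAt ℂ (fun z => deriv f z + deriv k z) z₀ := hfa.deriv.add hka.deriv
  have hsum0 : deriv f z₀ + deriv k z₀ ≠ 0 := by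
    rw [hk1, ← two_mul]
    exact mul_ne_zero two_ne_zero hd
  have hne : ∀ᶠ z in 𝓝 z₀, deriv f z + deriv k z ≠ 0 := hsum.continuousAt.eventually_ne hsum0
  set a : ℂ → ℂ := fun z => μ ^ 2 * (4 * (f z ^ 2 + f z * k z + k z ^ 2) - M.g₂) /
    (deriv f z + deriv k z) with ha
  have haan : AnalyticAt ℂ a z₀ := by
    refine AnalyticAt.div ?_ hsum hsum0
    exact analyticAt_const.mul ((analyticAt_const.mul (((hfa.pow 2).add (hfa.mul hka)).add
      (hka.pow 2))).sub analyticAt_const)
  have hloc : ∀ᶠ z in 𝓝 z₀, (fun z => f z - k z) z = 0 := by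
    refine loc_linear (hfa.sub hka) haan (by simp [hk0]) ?_
    have hS' : ∀ᶠ z in 𝓝 z₀, z ∈ Sᶜ := hSclosed.isOpen_compl.mem_nhds hz₀S
    filter_upwards [hS', hne] with z hz hzne
    have hzN : z ∉ N := fun h => hz (Or.inl h)
    have hzM : μ * z + c ∉ M.lattice := fun h => hz (Or.inr h)
    have hdf : DifferentiableAt ℂ f z := (hfan z hzN).differentiableAt
    have hdk : DifferentiableAt ℂ k z := (hkan z hzM).differentiableAt
    have e1 := hode z hzN
    have e2 := hkode z hzM
    have e3 : deriv (fun z => f z - k z) z = deriv f z - deriv k z := deriv_fun_sub hdf hdk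
    rw [e3]
    show deriv f z - deriv k z = a z * (f z - k z)
    rw [ha]
    simp only
    rw [div_mul_eq_mul_div, eq_div_iff hzne]
    linear_combination e1 - e2
  have hev : f =ᶠ[𝓝 z₀] k := by
    filter_upwards [hloc] with z hz
    exact sub_eq_zero.1 hz
  have hconn : IsPreconnected Sᶜ :=
    (hScount.isPathConnected_compl_of_one_lt_rank (by
      rw [Complex.rank_real_complex]
      norm_num)).isConnected.isPreconnected
  have hEq := AnalyticOnNhd.eqOn_of_preconnected_of_eventuallyEq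
    (f := f) (g := k) (U := Sᶜ)
    (fun z hz => hfan z (fun h => hz (Or.inl h)))
    (fun z hz => hkan z (fun h => hz (Or.inr h))) hconn hz₀S hev
  intro z hzN hzM
  exact hEq (x := z) (by
    rintro (h | h)
    · exact hzN h
    · exact hzM h)

end

end Pool.Agent.MUXU


end

section

/-!
# MUX, module U_EQP: the two coordinates determine the class
-/

set_option autoImplicit false

namespace Pool.Agent.MUXU

open _root_.Pool.Agent.MU3B

theorem tu_EQP : Su_EQP := by
  intro L z w hz hw hP hP'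
  rcases b_NEQ L w z hw hz hP with h | h
  · exact h
  · have h1 : L.derivWeierstrassP z = L.derivWeierstrassP (-w) := by
      have h2 := L.derivWeierstrassP_add_coe (-w) ⟨z + w, h⟩
      have h3 : -w + ((⟨z + w, h⟩ : L.lattice) : ℂ) = z := by
        show -w + (z + w) = z
        ring
      rw [h3] at h2
      exact h2
    rw [L.derivWeierstrassP_neg, ← hP'] at h1
    have h4 : L.derivWeierstrassP z = 0 := by
      have h5 : 2 * L.derivWeierstrassP z = 0 := by linear_combination h1
      simpa using h5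
    have h6 : 2 * z ∈ L.lattice := (b_ZER L z hz).1 h4
    have h7 : z - w = 2 * z - (z + w) := by ring
    rw [h7]
    exact L.lattice.sub_mem h6 h

end Pool.Agent.MUXU


end
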