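import Mathlib

/-! Parts: MU3.VCore, MU3.VPts, MU3.VRed, MU3.VCong, MUX.VX, MUX.StVG -/

namespace Pool.Agent.MU3.Val
end Pool.Agent.MU3.Val

section

/-!
# Points near infinity on `y² = x³ + a2 x² + a4 x + a6` over a field with a valuation: the chord

`z = -x/y`, `w = -1/y`. If two points have `v z ≤ r < 1`, `v w ≤ r³`, the third point of the line
has `v (z₁ + z₂ + z₃) ≤ r³`, `v w₃ ≤ r³`.
-/

set_option autoImplicit false

namespace Pool.Agent.MU3.Val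

variable {F : Type*} [Field F] {Γ₀ : Type*} [LinearOrderedCommGroupWithZero Γ₀]
  {v : Valuation F Γ₀} {a2 a4 a6 : F}

theorem v_nat (v : Valuation F Γ₀) (n : ℕ) : v (n : F) ≤ 1 := by
  induction n with
  | zero => simp
  | succ n ih =>
    push_cast
    exact (v.map_add _ _).trans (max_le ih (by simp))

theorem v_two (v : Valuation F Γ₀) : v (2 : F) ≤ 1 := by
  have := v_nat v 2
  simpa using this

theorem v_three (v : Valuation F Γ₀) : v (3 : F) ≤ 1 := by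
  have := v_nat v 3
  simpa using this

theorem v_add_le {x y : F} {r : Γ₀} (hx : v x ≤ r) (hy : v y ≤ r) : v (x + y) ≤ r :=
  (v.map_add _ _).trans (max_le hx hy)

theorem v_sub_le {x y : F} {r : Γ₀} (hx : v x ≤ r) (hy : v y ≤ r) : v (x - y) ≤ r :=
  (v.map_sub _ _).trans (max_le hx hy)

theorem v_mul_le {x y : F} {r s : Γ₀} (hx : v x ≤ r) (hy : v y ≤ s) : v (x * y) ≤ r * s := by
  rw [map_mul]; exact mul_le_mul' hx hy

theorem v_mul_le_right {x y : F} {s : Γ₀} (hx : v x ≤ 1) (hy : v y ≤ s) : v (x * y) ≤ s := by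
  rw [map_mul]; exact mul_le_of_le_one_of_le hx hy

theorem v_pow_le {x : F} {r : Γ₀} (n : ℕ) (hx : v x ≤ r) : v (x ^ n) ≤ r ^ n := by
  rw [map_pow]; exact pow_le_pow_left' hx n

/-- for a point of the curve with non-integral `x` -/
theorem v_y {x y : F} (h2 : v a2 ≤ 1) (h4 : v a4 ≤ 1) (h6 : v a6 ≤ 1)
    (h : y ^ 2 = x ^ 3 + a2 * x ^ 2 + a4 * x + a6) (hx : 1 < v x) :
    v y ^ 2 = v x ^ 3 := by
  have e1 : v (a2 * x ^ 2 + a4 * x + a6) < v (x ^ 3) := by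
    have b1 : v x ^ 2 < v x ^ 3 := pow_lt_pow_right₀ hx (by norm_num)
    have b2 : v x ≤ v x ^ 2 := by
      calc v x = v x ^ 1 := (pow_one _).symm
        _ ≤ v x ^ 2 := pow_le_pow_right₀ hx.le (by norm_num)
    have b3 : (1 : Γ₀) ≤ v x ^ 2 := one_le_pow₀ hx.le
    rw [map_pow]
    refine lt_of_le_of_lt ?_ b1
    refine v_add_le (v_add_le (v_mul_le_right h2 (by rw [map_pow])) ?_) (h6.trans b3)
    exact v_mul_le_right h4 b2
  have e2 : v (y ^ 2) = v (x ^ 3) := by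
    rw [h, show x ^ 3 + a2 * x ^ 2 + a4 * x + a6 = x ^ 3 + (a2 * x ^ 2 + a4 * x + a6) by ring]
    exact v.map_add_eq_of_lt_left e1
  simpa using e2

/-- the valuations of `z` and `w` -/
theorem v_zw {x y : F} (h2 : v a2 ≤ 1) (h4 : v a4 ≤ 1) (h6 : v a6 ≤ 1)
    (h : y ^ 2 = x ^ 3 + a2 * x ^ 2 + a4 * x + a6) (hx : 1 < v x) :
    y ≠ 0 ∧ v (x / y) < 1 ∧ v (x / y) ≠ 0 ∧ v (1 / y) = v (x / y) ^ 3 ∧
      v x * v (x / y) ^ 2 = 1 := by
  have hx0 : v x ≠ 0 := (zero_lt_one.trans hx).ne'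
  have e := v_y h2 h4 h6 h hx
  have hy0 : v y ≠ 0 := by
    intro h0
    rw [h0] at e
    have : v x ^ 3 = 0 := by rw [← e]; simp
    exact hx0 (pow_eq_zero_iff (by norm_num) |>.1 this)
  have hy : y ≠ 0 := fun h0 => hy0 (by rw [h0, map_zero])
  have hz : v (x / y) = v x / v y := map_div₀ v x y
  have hlt : v x < v y := by
    by_contra hc
    push Not at hc
    have h1 : v y ^ 2 ≤ v x ^ 2 := pow_le_pow_left' hc 2
    rw [e] at h1
    have h3 : v x ^ 2 < v x ^ 3 := pow_lt_pow_right₀ hx (by norm_num)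
    exact absurd h1 (not_le.2 h3)
  refine ⟨hy, ?_, ?_, ?_, ?_⟩
  · rw [hz]
    exact (div_lt_one₀ (zero_lt_iff.2 hy0)).2 hlt
  · rw [hz]; exact div_ne_zero hx0 hy0
  · rw [hz, map_div₀, map_one, div_pow, ← e]
    field_simp
  · rw [hz, div_pow, e]
    field_simp

/-- Bounds for the line `w = -(l/n) z - 1/n` through two points near infinity. -/
theorem chord0 {z1 w1 z2 w2 l n : F} {r : Γ₀} (hr : r < 1)
    (h2 : v a2 ≤ 1) (h4 : v a4 ≤ 1) (h6 : v a6 ≤ 1)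
    (hz1 : v z1 ≤ r) (hz2 : v z2 ≤ r) (hw1 : v w1 ≤ r ^ 3) (hw2 : v w2 ≤ r ^ 3)
    (e1 : n * w1 + l * z1 = -1)
    (hAB : l * (1 - (a2 * z2 ^ 2 + a4 * z1 * (w1 + w2) + a6 * (w1 ^ 2 + w1 * w2 + w2 ^ 2))) =
      -(n * (z1 ^ 2 + z1 * z2 + z2 ^ 2 + a2 * (z1 + z2) * w1 + a4 * w2 ^ 2))) :
    v l ≤ v n * r ^ 2 ∧ 1 ≤ v n * r ^ 3 ∧
      v (n ^ 3 - a2 * n ^ 2 * l + a4 * n * l ^ 2 - a6 * l ^ 3) = v n ^ 3 := by
  have r21 : r ^ 2 ≤ r := by
    calc r ^ 2 ≤ r ^ 1 := pow_le_pow_right_of_le_one' hr.le (by norm_num)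
      _ = r := pow_one r
  have r31 : r ^ 3 ≤ r := by
    calc r ^ 3 ≤ r ^ 1 := pow_le_pow_right_of_le_one' hr.le (by norm_num)
      _ = r := pow_one r
  have r62 : r ^ 6 ≤ r ^ 2 := pow_le_pow_right_of_le_one' hr.le (by norm_num)
  have r42 : r ^ 4 ≤ r ^ 2 := pow_le_pow_right_of_le_one' hr.le (by norm_num)
  have r2lt : r ^ 2 < 1 := lt_of_le_of_lt r21 hr
  have m2 : ∀ {x y : F}, v x ≤ r ^ 3 → v y ≤ r ^ 3 → v (x * y) ≤ r ^ 2 := by
    intro x y hx hy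
    refine (v_mul_le hx hy).trans ?_
    rw [← pow_add]; exact r62
  have hw1' : v w1 ≤ r := hw1.trans r31
  have hw2' : v w2 ≤ r := hw2.trans r31
  have hA : v (1 - (a2 * z2 ^ 2 + a4 * z1 * (w1 + w2) +
      a6 * (w1 ^ 2 + w1 * w2 + w2 ^ 2))) = 1 := by
    apply v.map_one_sub_of_lt
    refine lt_of_le_of_lt ?_ r2lt
    refine v_add_le (v_add_le (v_mul_le_right h2 (v_pow_le 2 hz2)) ?_) ?_
    · rw [mul_assoc]
      refine v_mul_le_right h4 ((v_mul_le hz1 (v_add_le hw1 hw2)).trans ?_)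
      rw [← pow_succ']; exact r42
    · refine v_mul_le_right h6 (v_add_le (v_add_le ?_ (m2 hw1 hw2)) ?_)
      · rw [pow_two]; exact m2 hw1 hw1
      · rw [pow_two]; exact m2 hw2 hw2
  have hB : v (z1 ^ 2 + z1 * z2 + z2 ^ 2 + a2 * (z1 + z2) * w1 + a4 * w2 ^ 2) ≤ r ^ 2 := by
    refine v_add_le (v_add_le (v_add_le (v_add_le (v_pow_le 2 hz1) ?_) (v_pow_le 2 hz2)) ?_) ?_
    · rw [pow_two]; exact v_mul_le hz1 hz2
    · rw [mul_assoc]
      refine v_mul_le_right h2 ?_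
      rw [pow_two]
      exact v_mul_le (v_add_le hz1 hz2) hw1'
    · exact v_mul_le_right h4 (v_pow_le 2 hw2')
  have hl : v l ≤ v n * r ^ 2 := by
    have := congrArg v hAB
    rw [map_mul, hA, mul_one, Valuation.map_neg, map_mul] at this
    rw [this]
    exact mul_le_mul_right hB _
  have hn : 1 ≤ v n * r ^ 3 := by
    have := congrArg v e1
    rw [Valuation.map_neg, map_one] at this
    rw [← this]
    refine v_add_le ?_ ?_
    · exact v_mul_le le_rfl hw1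
    · refine (v_mul_le hl hz1).trans ?_
      rw [mul_assoc, ← pow_succ]
  have hn0 : v n ≠ 0 := by
    intro h0
    rw [h0, zero_mul] at hn
    exact absurd hn (not_le.2 zero_lt_one)
  have hnn : (0 : Γ₀) < v n := zero_lt_iff.2 hn0
  have hl1 : v l ≤ v n * 1 := hl.trans (mul_le_mul_right r2lt.le _)
  rw [mul_one] at hl1
  refine ⟨hl, hn, ?_⟩
  have e : n ^ 3 - a2 * n ^ 2 * l + a4 * n * l ^ 2 - a6 * l ^ 3 =
      n ^ 3 + (-(a2 * (n ^ 2 * l)) + a4 * (n * l ^ 2) - a6 * l ^ 3) := by ring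
  have k1 : v (n ^ 2 * l) ≤ v n ^ 3 * r ^ 2 := by
    refine (v_mul_le (v_pow_le 2 le_rfl) hl).trans (le_of_eq ?_)
    rw [← mul_assoc, ← pow_succ]
  have k2 : v (n * l ^ 2) ≤ v n ^ 3 * r ^ 2 := by
    have : v (l ^ 2) ≤ v n * (v n * r ^ 2) := by
      rw [pow_two]; exact v_mul_le hl1 hl
    refine (v_mul_le le_rfl this).trans (le_of_eq ?_)
    rw [← mul_assoc, ← mul_assoc, pow_three' (v n)]
  have k3 : v (l ^ 3) ≤ v n ^ 3 * r ^ 2 := by
    have : v (l ^ 3) ≤ v n ^ 2 * (v n * r ^ 2) := by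
      rw [pow_succ]; exact v_mul_le (v_pow_le 2 hl1) hl
    refine this.trans (le_of_eq ?_)
    rw [← mul_assoc, ← pow_succ]
  rw [e, v.map_add_eq_of_lt_left, map_pow]
  rw [map_pow]
  refine lt_of_le_of_lt (b := v n ^ 3 * r ^ 2) ?_ ?_
  · refine v_sub_le (v_add_le ?_ (v_mul_le_right h4 k2)) (v_mul_le_right h6 k3)
    rw [Valuation.map_neg]; exact v_mul_le_right h2 k1
  · exact mul_lt_of_lt_one_right (pow_pos hnn 3) r2lt

/-- The chord. -/
theorem chord {z1 w1 z2 w2 z3 w3 l n : F} {r : Γ₀} (hr : r < 1)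
    (h2 : v a2 ≤ 1) (h4 : v a4 ≤ 1) (h6 : v a6 ≤ 1)
    (hz1 : v z1 ≤ r) (hz2 : v z2 ≤ r) (hw1 : v w1 ≤ r ^ 3) (hw2 : v w2 ≤ r ^ 3)
    (e1 : n * w1 + l * z1 = -1) (e3 : n * w3 + l * z3 = -1)
    (hAB : l * (1 - (a2 * z2 ^ 2 + a4 * z1 * (w1 + w2) + a6 * (w1 ^ 2 + w1 * w2 + w2 ^ 2))) =
      -(n * (z1 ^ 2 + z1 * z2 + z2 ^ 2 + a2 * (z1 + z2) * w1 + a4 * w2 ^ 2)))
    (hs : (z1 + z2 + z3) * (n ^ 3 - a2 * n ^ 2 * l + a4 * n * l ^ 2 - a6 * l ^ 3) =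
      a2 * n ^ 2 - 2 * a4 * n * l + 3 * a6 * l ^ 2) :
    v (z1 + z2 + z3) ≤ r ^ 3 ∧ v w3 ≤ r ^ 3 ∧ v z3 ≤ r := by
  obtain ⟨hl, hn, hD⟩ := chord0 hr h2 h4 h6 hz1 hz2 hw1 hw2 e1 hAB
  have r31 : r ^ 3 ≤ r := by
    calc r ^ 3 ≤ r ^ 1 := pow_le_pow_right_of_le_one' hr.le (by norm_num)
      _ = r := pow_one r
  have r2le : r ^ 2 ≤ 1 := pow_le_one' hr.le 2
  have hn0 : v n ≠ 0 := by
    intro h0
    rw [h0, zero_mul] at hn
    exact absurd hn (not_le.2 zero_lt_one)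
  have hnn : (0 : Γ₀) < v n := zero_lt_iff.2 hn0
  have hl1 : v l ≤ v n * 1 := hl.trans (mul_le_mul_right r2le _)
  rw [mul_one] at hl1
  have hN : v (a2 * n ^ 2 - 2 * a4 * n * l + 3 * a6 * l ^ 2) ≤ v n ^ 2 := by
    refine v_add_le (v_sub_le (v_mul_le_right h2 (v_pow_le 2 le_rfl)) ?_) ?_
    · rw [mul_assoc, mul_assoc]
      refine v_mul_le_right (v_two v) (v_mul_le_right h4 ?_)
      rw [pow_two]; exact v_mul_le le_rfl hl1
    · rw [mul_assoc]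
      exact v_mul_le_right (v_three v) (v_mul_le_right h6 (v_pow_le 2 hl1))
  have hS : v (z1 + z2 + z3) ≤ r ^ 3 := by
    have := congrArg v hs
    rw [map_mul, hD] at this
    rw [← this] at hN
    have h5 : v (z1 + z2 + z3) * v n ≤ 1 := by
      have h6' : v (z1 + z2 + z3) * v n * v n ^ 2 ≤ 1 * v n ^ 2 := by
        rw [one_mul, mul_assoc, ← pow_succ']; exact hN
      exact le_of_mul_le_mul_right h6' (pow_pos hnn 2)
    have h7 : v (z1 + z2 + z3) * v n ≤ r ^ 3 * v n := h5.trans (by rw [mul_comm]; exact hn)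
    exact le_of_mul_le_mul_right h7 hnn
  have hz3 : v z3 ≤ r := by
    have e : z3 = (z1 + z2 + z3) - (z1 + z2) := by ring
    rw [e]
    exact v_sub_le (hS.trans r31) (v_add_le hz1 hz2)
  refine ⟨hS, ?_, hz3⟩
  have h8 : n * w3 = -1 - l * z3 := by linear_combination e3
  have h9 : v n * v w3 ≤ v n * r ^ 3 := by
    rw [← map_mul, h8]
    refine v_sub_le ?_ ?_
    · rw [Valuation.map_neg, map_one]; exact hn
    · refine (v_mul_le hl hz3).trans ?_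
      rw [mul_assoc, ← pow_succ]
  exact le_of_mul_le_mul_left h9 hnn

end Pool.Agent.MU3.Val


end

section

/-!
# The points near infinity of a Weierstrass curve `y² = x³ + a₂ x² + a₄ x + a₆`

`v` is a valuation of the field `F`, the coefficients are integral. `InE v P`: `P = 0` or `x(P)` is
not integral. `zc P = -x/y`. `InE` is closed under addition and `zc` is additive up to third order.
-/

set_option autoImplicit false

namespace Pool.Agent.MU3.Val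

open WeierstrassCurve

variable {F : Type*} [Field F] {Γ₀ : Type*} [LinearOrderedCommGroupWithZero Γ₀]
  (v : Valuation F Γ₀) (W : Affine F)

/-- `W : y² = x³ + a₂ x² + a₄ x + a₆` with integral coefficients. -/
structure IntW : Prop where
  a1 : W.a₁ = 0
  a3 : W.a₃ = 0
  a2 : v W.a₂ ≤ 1
  a4 : v W.a₄ ≤ 1
  a6 : v W.a₆ ≤ 1

variable {W}

/-- The point is `0` or its `x` is not integral. -/
def InE : W.Point → Prop
  | .zero => True
  | .some x _ _ => 1 < v x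

/-- The local parameter `-x/y`. -/
def zc : W.Point → F
  | .zero => 0
  | .some x y _ => -(x / y)

variable {v}

theorem eqn (hW : IntW v W) {x y : F} (h : W.Nonsingular x y) :
    y ^ 2 = x ^ 3 + W.a₂ * x ^ 2 + W.a₄ * x + W.a₆ := by
  have := (W.equation_iff x y).1 h.1
  rw [hW.a1, hW.a3] at this
  linear_combination this

theorem inE_zero : InE v (0 : W.Point) := trivial

theorem zc_zero : zc (0 : W.Point) = 0 := rfl

theorem zc_neg (hW : IntW v W) (P : W.Point) : zc (-P) = -zc P := by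
  cases P with
  | zero => show (0 : F) = -0; ring
  | some x y h =>
    rw [Affine.Point.neg_some]
    show -(x / W.negY x y) = -(-(x / y))
    rw [Affine.negY, hW.a1, hW.a3]
    ring

theorem inE_neg {P : W.Point} (h : InE v P) : InE v (-P) := by
  cases P with
  | zero => exact h
  | some x y h' => rw [Affine.Point.neg_some]; exact h

theorem inE_neg_iff {P : W.Point} : InE v (-P) ↔ InE v P :=
  ⟨fun h => by have := inE_neg h; rwa [neg_neg] at this, inE_neg⟩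

/-- the valuations of the parameter -/
theorem inE_some (hW : IntW v W) {x y : F} {h : W.Nonsingular x y}
    (hx : InE v (Affine.Point.some x y h)) :
    y ≠ 0 ∧ v (-(x / y)) < 1 ∧ v (-(x / y)) ≠ 0 ∧ v (-(1 / y)) = v (-(x / y)) ^ 3 ∧
      v x * v (-(x / y)) ^ 2 = 1 := by
  rw [Valuation.map_neg, Valuation.map_neg]
  exact v_zw hW.a2 hW.a4 hW.a6 (eqn hW h) hx

theorem zc_lt_one (hW : IntW v W) {P : W.Point} (h : InE v P) : v (zc P) < 1 := by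
  cases P with
  | zero => rw [show zc (Affine.Point.zero : W.Point) = 0 from rfl, map_zero]; exact zero_lt_one
  | some x y h' => exact (inE_some hW h).2.1

theorem zc_eq_zero (hW : IntW v W) {P : W.Point} (h : InE v P) (h0 : v (zc P) = 0) : P = 0 := by
  cases P with
  | zero => rfl
  | some x y h' => exact absurd h0 (inE_some hW h).2.2.1

variable [DecidableEq F]

/-- data of the sum of two points: `l`, `n` are the coefficients of the line `y = l x + n`, the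
third point on it is `(x₃, y₃) = -(P + Q)` -/
theorem add_data (hW : IntW v W) {x₁ y₁ x₂ y₂ : F} (h₁ : W.Nonsingular x₁ y₁)
    (h₂ : W.Nonsingular x₂ y₂) (hy₁ : y₁ ≠ 0) (hy₂ : y₂ ≠ 0)
    (hne : Affine.Point.some x₁ y₁ h₁ + Affine.Point.some x₂ y₂ h₂ ≠ 0)
    (h20 : (2 : F) ≠ 0) :
    ∃ (x₃ y₃ l n : F) (h₃ : W.Nonsingular x₃ y₃),
      Affine.Point.some x₁ y₁ h₁ + Affine.Point.some x₂ y₂ h₂ = -Affine.Point.some x₃ y₃ h₃ ∧
      y₁ = l * x₁ + n ∧ y₂ = l * x₂ + n ∧ y₃ = l * x₃ + n ∧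
      x₁ + x₂ + x₃ = l ^ 2 - W.a₂ ∧
      x₁ * x₂ + x₁ * x₃ + x₂ * x₃ = W.a₄ - 2 * l * n ∧ x₁ * x₂ * x₃ = n ^ 2 - W.a₆ ∧
      l * (1 - (W.a₂ * (x₂ / y₂) ^ 2 + W.a₄ * (x₁ / y₁) * (1 / y₁ + 1 / y₂) +
        W.a₆ * ((1 / y₁) ^ 2 + (1 / y₁) * (1 / y₂) + (1 / y₂) ^ 2))) =
      -(n * ((x₁ / y₁) ^ 2 + (x₁ / y₁) * (x₂ / y₂) + (x₂ / y₂) ^ 2 +
        W.a₂ * (x₁ / y₁ + x₂ / y₂) * (1 / y₁) + W.a₄ * (1 / y₂) ^ 2)) := by
  have e₁ := eqn hW h₁
  have e₂ := eqn hW h₂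
  have hxy : ¬(x₁ = x₂ ∧ y₁ = W.negY x₂ y₂) := by
    rintro ⟨ha, hb⟩
    exact hne (Affine.Point.add_of_Y_eq ha hb)
  have hadd := Affine.Point.add_some hxy (h₁ := h₁) (h₂ := h₂)
  set l := W.slope x₁ x₂ y₁ y₂ with hl
  have h₃ := Affine.nonsingular_add h₁ h₂ hxy
  rw [← hl] at h₃
  have hx₃ : W.addX x₁ x₂ l = l ^ 2 - W.a₂ - x₁ - x₂ := by
    rw [Affine.addX, hW.a1]; ring
  have hns : W.Nonsingular (W.addX x₁ x₂ l) (W.negAddY x₁ x₂ y₁ l) := by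
    have := (W.nonsingular_neg (W.addX x₁ x₂ l) (W.negAddY x₁ x₂ y₁ l)).1 h₃
    exact this
  have hy : y₂ = l * x₂ + (y₁ - l * x₁) := by
    by_cases hx : x₁ = x₂
    · have hy : y₁ = y₂ := Affine.Y_eq_of_Y_ne h₁.1 h₂.1 hx (fun h => hxy ⟨hx, h⟩)
      rw [hx, hy]; ring
    · rw [hl, Affine.slope_of_X_ne hx]
      have : x₁ - x₂ ≠ 0 := sub_ne_zero.2 hx
      field_simp
      ring
  have hK : l * (y₁ + y₂) = x₁ ^ 2 + x₁ * x₂ + x₂ ^ 2 + W.a₂ * (x₁ + x₂) + W.a₄ := by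
    by_cases hx : x₁ = x₂
    · have hyy : y₁ = y₂ := Affine.Y_eq_of_Y_ne h₁.1 h₂.1 hx (fun h => hxy ⟨hx, h⟩)
      have hne' : y₁ ≠ W.negY x₂ y₂ := fun h => hxy ⟨hx, h⟩
      rw [hl, Affine.slope_of_Y_ne hx hne', Affine.negY, hW.a1, hW.a3, ← hx, ← hyy]
      have h2y : (2 : F) * y₁ ≠ 0 := mul_ne_zero h20 hy₁
      rw [show y₁ - (-y₁ - 0 * x₁ - 0) = 2 * y₁ by ring]
      rw [div_mul_eq_mul_div, div_eq_iff h2y]
      ring
    · have hx' : x₁ - x₂ ≠ 0 := sub_ne_zero.2 hx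
      apply mul_left_cancel₀ hx'
      have : y₁ - y₂ = l * (x₁ - x₂) := by rw [hy]; ring
      linear_combination (-(y₁ + y₂)) * this + e₁ - e₂
  refine ⟨W.addX x₁ x₂ l, W.negAddY x₁ x₂ y₁ l, l, y₁ - l * x₁, hns, ?_, by ring, hy, ?_, ?_, ?_,
    ?_, ?_⟩
  · rw [hadd, Affine.Point.neg_some]
    rfl
  · rw [Affine.negAddY]; ring
  · rw [hx₃]; ring
  · rw [hx₃]
    rw [hy] at hK
    linear_combination hK
  · rw [hx₃]
    rw [hy] at hK
    linear_combination x₁ * hK - e₁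
  · have hT : l * (y₁ ^ 2 * y₂ ^ 2 - W.a₂ * x₂ ^ 2 * y₁ ^ 2 - W.a₄ * x₁ * y₂ * (y₁ + y₂) -
        W.a₆ * (y₁ ^ 2 + y₁ * y₂ + y₂ ^ 2)) + (y₁ - l * x₁) * (x₁ ^ 2 * y₂ ^ 2 +
        x₁ * x₂ * y₁ * y₂ + x₂ ^ 2 * y₁ ^ 2 + W.a₂ * (x₁ * y₂ + x₂ * y₁) * y₂ +
        W.a₄ * y₁ ^ 2) = 0 := by
      rw [hy] at hK ⊢
      linear_combination (-(y₁ ^ 3)) * hK + l * (y₁ ^ 2 + y₁ * (l * x₂ + (y₁ - l * x₁)) +
        (l * x₂ + (y₁ - l * x₁)) ^ 2) * e₁
    have hq : l * (1 - (W.a₂ * (x₂ / y₂) ^ 2 + W.a₄ * (x₁ / y₁) * (1 / y₁ + 1 / y₂) +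
        W.a₆ * ((1 / y₁) ^ 2 + (1 / y₁) * (1 / y₂) + (1 / y₂) ^ 2))) +
      (y₁ - l * x₁) * ((x₁ / y₁) ^ 2 + (x₁ / y₁) * (x₂ / y₂) + (x₂ / y₂) ^ 2 +
        W.a₂ * (x₁ / y₁ + x₂ / y₂) * (1 / y₁) + W.a₄ * (1 / y₂) ^ 2) =
      (l * (y₁ ^ 2 * y₂ ^ 2 - W.a₂ * x₂ ^ 2 * y₁ ^ 2 - W.a₄ * x₁ * y₂ * (y₁ + y₂) -
        W.a₆ * (y₁ ^ 2 + y₁ * y₂ + y₂ ^ 2)) + (y₁ - l * x₁) * (x₁ ^ 2 * y₂ ^ 2 +
        x₁ * x₂ * y₁ * y₂ + x₂ ^ 2 * y₁ ^ 2 + W.a₂ * (x₁ * y₂ + x₂ * y₁) * y₂ +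
        W.a₄ * y₁ ^ 2)) / (y₁ ^ 2 * y₂ ^ 2) := by
      field_simp
      ring
    rw [hT, zero_div] at hq
    linear_combination hq

/-- `InE` is closed under addition, `zc` is additive up to third order. -/
theorem add_inE (hW : IntW v W) (h20 : (2 : F) ≠ 0) {P Q : W.Point} (hP : InE v P)
    (hQ : InE v Q) :
    InE v (P + Q) ∧ v (zc (P + Q) - zc P - zc Q) ≤ (max (v (zc P)) (v (zc Q))) ^ 3 := by
  by_cases hPQ : P + Q = 0
  · have hQ' : Q = -P := (neg_eq_of_add_eq_zero_right hPQ).symm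
    rw [hPQ, hQ', zc_neg hW, zc_zero]
    refine ⟨trivial, ?_⟩
    have : (0 : F) - zc P - -zc P = 0 := by ring
    rw [this, map_zero]
    exact zero_le
  cases P with
  | zero =>
    have e : (Affine.Point.zero : W.Point) + Q = Q := zero_add Q
    rw [e]
    refine ⟨hQ, ?_⟩
    have : zc Q - zc (Affine.Point.zero : W.Point) - zc Q = 0 := by
      rw [show zc (Affine.Point.zero : W.Point) = 0 from rfl]; ring
    rw [this, map_zero]
    exact zero_le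
  | some x₁ y₁ h₁ =>
    cases Q with
    | zero =>
      have e : Affine.Point.some x₁ y₁ h₁ + (Affine.Point.zero : W.Point) =
        Affine.Point.some x₁ y₁ h₁ := add_zero _
      rw [e]
      refine ⟨hP, ?_⟩
      have : zc (Affine.Point.some x₁ y₁ h₁) - zc (Affine.Point.some x₁ y₁ h₁) -
          zc (Affine.Point.zero : W.Point) = 0 := by
        rw [show zc (Affine.Point.zero : W.Point) = 0 from rfl]; ring
      rw [this, map_zero]
      exact zero_le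
    | some x₂ y₂ h₂ =>
      obtain ⟨hy₁, hz₁, hz₁0, hw₁, -⟩ := inE_some hW hP
      obtain ⟨hy₂, hz₂, hz₂0, hw₂, -⟩ := inE_some hW hQ
      obtain ⟨x₃, y₃, l, n, h₃, hadd, en₁, en₂, en₃, c2, c1, c0, hAB⟩ :=
        add_data hW h₁ h₂ hy₁ hy₂ hPQ h20
      set r := max (v (-(x₁ / y₁))) (v (-(x₂ / y₂))) with hr
      have hr1 : r < 1 := max_lt hz₁ hz₂
      have hz₁r : v (-(x₁ / y₁)) ≤ r := le_max_left _ _
      have hz₂r : v (-(x₂ / y₂)) ≤ r := le_max_right _ _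
      have hw₁r : v (-(1 / y₁)) ≤ r ^ 3 := by rw [hw₁]; exact pow_le_pow_left' hz₁r 3
      have hw₂r : v (-(1 / y₂)) ≤ r ^ 3 := by rw [hw₂]; exact pow_le_pow_left' hz₂r 3
      have e1 : n * -(1 / y₁) + l * -(x₁ / y₁) = -1 := by
        field_simp
        linear_combination en₁
      have hAB' : l * (1 - (W.a₂ * (-(x₂ / y₂)) ^ 2 + W.a₄ * -(x₁ / y₁) * (-(1 / y₁) + -(1 / y₂)) +
          W.a₆ * ((-(1 / y₁)) ^ 2 + -(1 / y₁) * -(1 / y₂) + (-(1 / y₂)) ^ 2))) =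
        -(n * ((-(x₁ / y₁)) ^ 2 + -(x₁ / y₁) * -(x₂ / y₂) + (-(x₂ / y₂)) ^ 2 +
          W.a₂ * (-(x₁ / y₁) + -(x₂ / y₂)) * -(1 / y₁) + W.a₄ * (-(1 / y₂)) ^ 2)) := by
        linear_combination hAB
      obtain ⟨-, hn, hD⟩ := chord0 hr1 hW.a2 hW.a4 hW.a6 hz₁r hz₂r hw₁r hw₂r e1 hAB'
      have hn0 : v n ≠ 0 := by
        intro h0
        rw [h0, zero_mul] at hn
        exact absurd hn (not_le.2 zero_lt_one)
      have hDe : y₁ * y₂ * y₃ = n ^ 3 - W.a₂ * n ^ 2 * l + W.a₄ * n * l ^ 2 - W.a₆ * l ^ 3 := by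
        rw [en₁, en₂, en₃]
        linear_combination l ^ 3 * c0 + l ^ 2 * n * c1 + l * n ^ 2 * c2
      have hy₃ : y₃ ≠ 0 := by
        intro h0
        rw [← hDe, h0, mul_zero, map_zero] at hD
        exact pow_ne_zero 3 hn0 hD.symm
      have e3 : n * -(1 / y₃) + l * -(x₃ / y₃) = -1 := by
        field_simp
        linear_combination en₃
      have hs : (-(x₁ / y₁) + -(x₂ / y₂) + -(x₃ / y₃)) *
          (n ^ 3 - W.a₂ * n ^ 2 * l + W.a₄ * n * l ^ 2 - W.a₆ * l ^ 3) =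
          W.a₂ * n ^ 2 - 2 * W.a₄ * n * l + 3 * W.a₆ * l ^ 2 := by
        rw [← hDe]
        have : (-(x₁ / y₁) + -(x₂ / y₂) + -(x₃ / y₃)) * (y₁ * y₂ * y₃) =
            -(x₁ * y₂ * y₃ + y₁ * x₂ * y₃ + y₁ * y₂ * x₃) := by
          field_simp
          ring
        rw [this, en₁, en₂, en₃]
        linear_combination (-3 * l ^ 2) * c0 - 2 * l * n * c1 - n ^ 2 * c2
      obtain ⟨hS, hw₃, hz₃⟩ := chord hr1 hW.a2 hW.a4 hW.a6 hz₁r hz₂r hw₁r hw₂r e1 e3 hAB' hs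
      have hE₃ : InE v (Affine.Point.some x₃ y₃ h₃) := by
        show 1 < v x₃
        by_contra hc
        push Not at hc
        have hy3v : v y₃ ≤ 1 := by
          by_contra hc2
          push Not at hc2
          have e := eqn hW h₃
          have h5 : v (y₃ ^ 2) ≤ 1 := by
            rw [e]
            refine v_add_le (v_add_le (v_add_le ?_ ?_) ?_) hW.a6
            · rw [map_pow]; exact pow_le_one' hc 3
            · exact v_mul_le_right hW.a2 (by rw [map_pow]; exact pow_le_one' hc 2)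
            · exact v_mul_le_right hW.a4 hc
          rw [map_pow] at h5
          exact absurd h5 (not_le.2 (one_lt_pow₀ hc2 (by norm_num)))
        have h6 : v (-(1 / y₃)) * v y₃ = 1 := by
          rw [← map_mul]
          have : -(1 / y₃) * y₃ = -1 := by field_simp
          rw [this, Valuation.map_neg, map_one]
        have h7 : v (-(1 / y₃)) * v y₃ ≤ r ^ 3 * 1 := mul_le_mul' hw₃ hy3v
        rw [h6, mul_one] at h7
        have h8 : r ^ 3 < 1 := pow_lt_one₀ zero_le hr1 (by norm_num)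
        exact absurd h7 (not_le.2 h8)
      rw [hadd]
      refine ⟨inE_neg hE₃, ?_⟩
      rw [zc_neg hW]
      show v (- -(x₃ / y₃) - -(x₁ / y₁) - -(x₂ / y₂)) ≤ r ^ 3
      have : - -(x₃ / y₃) - -(x₁ / y₁) - -(x₂ / y₂) =
          -(-(x₁ / y₁) + -(x₂ / y₂) + -(x₃ / y₃)) := by ring
      rw [this, Valuation.map_neg]
      exact hS

end Pool.Agent.MU3.Val


end

section

/-!
# Torsion and reduction for `y² = x³ + a₂ x² + a₄ x + a₆` over a field with a valuation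

`v(2) = 1`, integral coefficients, where needed `v(Δ) = 1`. `InE v P`: `P = 0` or `x(P)` is not
integral (the kernel of reduction).
-/

set_option autoImplicit false

namespace Pool.Agent.MU3.Val

open WeierstrassCurve

variable {F : Type*} [Field F] {Γ₀ : Type*} [LinearOrderedCommGroupWithZero Γ₀]
  {v : Valuation F Γ₀} {W : Affine F}

theorem two_ne (h2 : v 2 = 1) : (2 : F) ≠ 0 := by
  intro h
  rw [h, map_zero] at h2
  exact zero_ne_one h2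

section

variable [DecidableEq F]

theorem sub_inE (hW : IntW v W) (h20 : (2 : F) ≠ 0) {P Q : W.Point} (hP : InE v P)
    (hQ : InE v Q) : InE v (P - Q) := by
  rw [sub_eq_add_neg]
  exact (add_inE hW h20 hP (inE_neg hQ)).1

/-- the kernel of reduction -/
def E1 (hW : IntW v W) (h20 : (2 : F) ≠ 0) : AddSubgroup W.Point where
  carrier := {P | InE v P}
  add_mem' := fun {P Q} (hP : InE v P) (hQ : InE v Q) => (add_inE hW h20 hP hQ).1
  zero_mem' := (inE_zero : InE v (0 : W.Point))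
  neg_mem' := fun {P} (h : InE v P) => inE_neg h

theorem mem_E1 (hW : IntW v W) (h20 : (2 : F) ≠ 0) {P : W.Point} : P ∈ E1 hW h20 ↔ InE v P :=
  Iff.rfl

/-- the filtration -/
theorem v_zc_add (hW : IntW v W) (h20 : (2 : F) ≠ 0) {P Q : W.Point} (hP : InE v P)
    (hQ : InE v Q) : v (zc (P + Q)) ≤ max (v (zc P)) (v (zc Q)) := by
  have h := (add_inE hW h20 hP hQ).2
  set r := max (v (zc P)) (v (zc Q)) with hr
  have hr1 : r < 1 := max_lt (zc_lt_one hW hP) (zc_lt_one hW hQ)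
  have r31 : r ^ 3 ≤ r := by
    calc r ^ 3 ≤ r ^ 1 := pow_le_pow_right_of_le_one' hr1.le (by norm_num)
      _ = r := pow_one r
  have e : zc (P + Q) = (zc (P + Q) - zc P - zc Q) + zc P + zc Q := by ring
  rw [e]
  exact v_add_le (v_add_le (h.trans r31) (le_max_left _ _)) (le_max_right _ _)

/-- `zc (n P) = n zc P` up to third order -/
theorem zc_nsmul (hW : IntW v W) (h20 : (2 : F) ≠ 0) {P : W.Point} (hP : InE v P) (n : ℕ) :
    InE v (n • P) ∧ v (zc (n • P) - n * zc P) ≤ v (zc P) ^ 3 ∧ v (zc (n • P)) ≤ v (zc P) := by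
  induction n with
  | zero =>
    rw [zero_smul]
    refine ⟨inE_zero, ?_, ?_⟩
    · rw [zc_zero]; simp
    · rw [zc_zero]; simp
  | succ n ih =>
    obtain ⟨h1, h2, h3⟩ := ih
    rw [succ_nsmul]
    obtain ⟨h4, h5⟩ := add_inE hW h20 h1 hP
    refine ⟨h4, ?_, ?_⟩
    · have e : zc (n • P + P) - ((n + 1 : ℕ) : F) * zc P =
          (zc (n • P + P) - zc (n • P) - zc P) + (zc (n • P) - n * zc P) := by push_cast; ring
      rw [e]
      refine v_add_le (h5.trans ?_) h2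
      exact pow_le_pow_left' (max_le h3 le_rfl) 3
    · exact (v_zc_add hW h20 h1 hP).trans (max_le h3 le_rfl)

/-- no torsion prime to the residue characteristic in the kernel of reduction -/
theorem v_zc_nsmul (hW : IntW v W) (h20 : (2 : F) ≠ 0) {P : W.Point} (hP : InE v P) {n : ℕ}
    (hn : v (n : F) = 1) : v (zc (n • P)) = v (zc P) := by
  by_cases h0 : v (zc P) = 0
  · have : P = 0 := zc_eq_zero hW hP h0
    rw [this, smul_zero]
  obtain ⟨h1, h2, h3⟩ := zc_nsmul hW h20 hP n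
  have hr1 := zc_lt_one hW hP
  have h4 : v (zc P) ^ 3 < v (zc P) := by
    have hpos : (0 : Γ₀) < v (zc P) := zero_lt_iff.2 h0
    calc v (zc P) ^ 3 = v (zc P) * v (zc P) ^ 2 := pow_succ' _ _
      _ < v (zc P) := mul_lt_of_lt_one_right hpos (pow_lt_one₀ zero_le hr1 (by norm_num))
  have e : zc (n • P) = n * zc P + (zc (n • P) - n * zc P) := by ring
  have h5 : v (n * zc P) = v (zc P) := by rw [map_mul, hn, one_mul]
  rw [e, v.map_add_eq_of_lt_left, h5]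
  rw [h5]
  exact lt_of_le_of_lt h2 h4

theorem eq_zero_of_nsmul (hW : IntW v W) (h20 : (2 : F) ≠ 0) {P : W.Point} (hP : InE v P) {n : ℕ}
    (hn : v (n : F) = 1) (h : n • P = 0) : P = 0 := by
  have h1 := v_zc_nsmul hW h20 hP hn
  rw [h, zc_zero, map_zero] at h1
  exact zc_eq_zero hW hP h1.symm

end

/-! ### Reduction -/

theorem int_y (hW : IntW v W) {x y : F} (h : W.Nonsingular x y) (hx : v x ≤ 1) : v y ≤ 1 := by
  by_contra hc
  push Not at hc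
  have e := eqn hW h
  have h5 : v (y ^ 2) ≤ 1 := by
    rw [e]
    refine v_add_le (v_add_le (v_add_le ?_ ?_) ?_) hW.a6
    · rw [map_pow]; exact pow_le_one' hx 3
    · exact v_mul_le_right hW.a2 (by rw [map_pow]; exact pow_le_one' hx 2)
    · exact v_mul_le_right hW.a4 hx
  rw [map_pow] at h5
  exact absurd h5 (not_le.2 (one_lt_pow₀ hc (by norm_num)))

theorem disc_identity (hW : IntW v W) (x : F) :
    W.Δ = 16 * (((18 * W.a₄ - 6 * W.a₂ ^ 2) * x - 27 * W.a₆ + 15 * W.a₂ * W.a₄ - 4 * W.a₂ ^ 3) *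
      (x ^ 3 + W.a₂ * x ^ 2 + W.a₄ * x + W.a₆) -
      ((6 * W.a₄ - 2 * W.a₂ ^ 2) * x ^ 2 + (7 * W.a₂ * W.a₄ - 2 * W.a₂ ^ 3 - 9 * W.a₆) * x +
        4 * W.a₄ ^ 2 - W.a₂ ^ 2 * W.a₄ - 3 * W.a₂ * W.a₆) *
      (3 * x ^ 2 + 2 * W.a₂ * x + W.a₄)) := by
  rw [WeierstrassCurve.Δ, WeierstrassCurve.b₂, WeierstrassCurve.b₄, WeierstrassCurve.b₆,
    WeierstrassCurve.b₈, hW.a1, hW.a3]
  ring

/-- `f` and `f'` have no common zero modulo `v` if `Δ` is a unit -/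
theorem no_common (hW : IntW v W) (hD : v W.Δ = 1) {x : F} (hx : v x ≤ 1)
    (hf : v (x ^ 3 + W.a₂ * x ^ 2 + W.a₄ * x + W.a₆) < 1)
    (hf' : v (3 * x ^ 2 + 2 * W.a₂ * x + W.a₄) < 1) : False := by
  have hN : ∀ n : ℕ, v (n : F) ≤ 1 := v_nat v
  have i18 : v (18 : F) ≤ 1 := by have := hN 18; simpa using this
  have i6 : v (6 : F) ≤ 1 := by have := hN 6; simpa using this
  have i27 : v (27 : F) ≤ 1 := by have := hN 27; simpa using this
  have i15 : v (15 : F) ≤ 1 := by have := hN 15; simpa using this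
  have i4 : v (4 : F) ≤ 1 := by have := hN 4; simpa using this
  have i7 : v (7 : F) ≤ 1 := by have := hN 7; simpa using this
  have i9 : v (9 : F) ≤ 1 := by have := hN 9; simpa using this
  have i16 : v (16 : F) ≤ 1 := by have := hN 16; simpa using this
  have i2 := v_two v
  have i3 := v_three v
  have m : ∀ {a b : F}, v a ≤ 1 → v b ≤ 1 → v (a * b) ≤ 1 := fun ha hb => v_mul_le_right ha hb
  have p : ∀ {a : F} (k : ℕ), v a ≤ 1 → v (a ^ k) ≤ 1 := by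
    intro a k ha
    rw [map_pow]; exact pow_le_one' ha k
  have hU : v ((18 * W.a₄ - 6 * W.a₂ ^ 2) * x - 27 * W.a₆ + 15 * W.a₂ * W.a₄ - 4 * W.a₂ ^ 3) ≤ 1 :=
    v_sub_le (v_add_le (v_sub_le (m (v_sub_le (m i18 hW.a4) (m i6 (p 2 hW.a2))) hx)
      (m i27 hW.a6)) (m (m i15 hW.a2) hW.a4)) (m i4 (p 3 hW.a2))
  have hV : v ((6 * W.a₄ - 2 * W.a₂ ^ 2) * x ^ 2 + (7 * W.a₂ * W.a₄ - 2 * W.a₂ ^ 3 - 9 * W.a₆) * x +
        4 * W.a₄ ^ 2 - W.a₂ ^ 2 * W.a₄ - 3 * W.a₂ * W.a₆) ≤ 1 :=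
    v_sub_le (v_sub_le (v_add_le (v_add_le (m (v_sub_le (m i6 hW.a4) (m i2 (p 2 hW.a2))) (p 2 hx))
      (m (v_sub_le (v_sub_le (m (m i7 hW.a2) hW.a4) (m i2 (p 3 hW.a2))) (m i9 hW.a6)) hx))
      (m i4 (p 2 hW.a4))) (m (p 2 hW.a2) hW.a4)) (m (m i3 hW.a2) hW.a6)
  have h1 : v W.Δ < 1 := by
    rw [disc_identity hW x, map_mul]
    refine lt_of_le_of_lt (mul_le_of_le_one_left' i16) ?_
    refine lt_of_le_of_lt (v.map_sub _ _) (max_lt ?_ ?_)
    · rw [map_mul]; exact lt_of_le_of_lt (mul_le_of_le_one_left' hU) hf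
    · rw [map_mul]; exact lt_of_le_of_lt (mul_le_of_le_one_left' hV) hf'
  rw [hD] at h1
  exact lt_irrefl _ h1

variable [DecidableEq F]

/-- the slope of the line through `P`, `Q` is integral if `P + Q` is not near infinity -/
theorem slope_int (hW : IntW v W) {x₁ y₁ x₂ y₂ : F} (h₁ : W.Nonsingular x₁ y₁)
    (h₂ : W.Nonsingular x₂ y₂) (hx₁ : v x₁ ≤ 1) (hx₂ : v x₂ ≤ 1) (hx : x₁ ≠ x₂)
    (hE : ¬ InE v (Affine.Point.some x₁ y₁ h₁ + Affine.Point.some x₂ y₂ h₂)) :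
    v (y₁ - y₂) ≤ v (x₁ - x₂) := by
  rw [Affine.Point.add_of_X_ne hx] at hE
  have hE' : ¬ 1 < v (W.addX x₁ x₂ (W.slope x₁ x₂ y₁ y₂)) := hE
  rw [Affine.slope_of_X_ne hx] at hE'
  push Not at hE'
  rw [Affine.addX, hW.a1] at hE'
  have hd : x₁ - x₂ ≠ 0 := sub_ne_zero.2 hx
  have hd0 : v (x₁ - x₂) ≠ 0 := (Valuation.ne_zero_iff v).2 hd
  have h3 : v (((y₁ - y₂) / (x₁ - x₂)) ^ 2) ≤ 1 := by
    have e : ((y₁ - y₂) / (x₁ - x₂)) ^ 2 = (((y₁ - y₂) / (x₁ - x₂)) ^ 2 +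
      0 * ((y₁ - y₂) / (x₁ - x₂)) - W.a₂ - x₁ - x₂) + W.a₂ + x₁ + x₂ := by ring
    rw [e]
    exact v_add_le (v_add_le (v_add_le hE' hW.a2) hx₁) hx₂
  rw [map_pow] at h3
  have h4 : v ((y₁ - y₂) / (x₁ - x₂)) ≤ 1 := by
    by_contra hc
    push Not at hc
    exact absurd h3 (not_le.2 (one_lt_pow₀ hc (by norm_num)))
  rw [map_div₀] at h4
  exact (div_le_one₀ (zero_lt_iff.2 hd0)).1 h4

/-- REDUCTION IS INJECTIVE: `x(P) ≢ x(Q)` unless `P + Q` or `P - Q` is in the kernel. -/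
theorem v_x_sub (hW : IntW v W) (h2 : v 2 = 1) (hD : v W.Δ = 1) {x₁ y₁ x₂ y₂ : F}
    (h₁ : W.Nonsingular x₁ y₁) (h₂ : W.Nonsingular x₂ y₂)
    (hE₁ : ¬ InE v (Affine.Point.some x₁ y₁ h₁)) (hE₂ : ¬ InE v (Affine.Point.some x₂ y₂ h₂))
    (hp : ¬ InE v (Affine.Point.some x₁ y₁ h₁ + Affine.Point.some x₂ y₂ h₂))
    (hm : ¬ InE v (Affine.Point.some x₁ y₁ h₁ - Affine.Point.some x₂ y₂ h₂)) :
    v (x₁ - x₂) = 1 := by
  have hx₁ : v x₁ ≤ 1 := not_lt.1 hE₁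
  have hx₂ : v x₂ ≤ 1 := not_lt.1 hE₂
  have hx : x₁ ≠ x₂ := by
    intro hx
    rcases Affine.Y_eq_of_X_eq h₁.1 h₂.1 hx with hy | hy
    · apply hm
      have : Affine.Point.some x₁ y₁ h₁ = Affine.Point.some x₂ y₂ h₂ := by
        subst hx; subst hy; rfl
      rw [this, sub_self]
      exact inE_zero
    · apply hp
      rw [Affine.Point.add_of_Y_eq hx hy]
      exact inE_zero
  refine le_antisymm (v_sub_le hx₁ hx₂) ?_
  by_contra hc
  push Not at hc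
  have s1 := slope_int hW h₁ h₂ hx₁ hx₂ hx hp
  have s2 : v (y₁ + y₂) ≤ v (x₁ - x₂) := by
    rw [sub_eq_add_neg, Affine.Point.neg_some] at hm
    have s := slope_int hW h₁ ((W.nonsingular_neg x₂ y₂).2 h₂) hx₁ hx₂ hx hm
    rw [Affine.negY, hW.a1, hW.a3] at s
    have e : y₁ - (-y₂ - 0 * x₂ - 0) = y₁ + y₂ := by ring
    rwa [e] at s
  have hd : x₁ - x₂ ≠ 0 := sub_ne_zero.2 hx
  have hd0 : (0 : Γ₀) < v (x₁ - x₂) := zero_lt_iff.2 ((Valuation.ne_zero_iff v).2 hd)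
  have hy₁ : v y₁ < 1 := by
    have e : v (2 * y₁) ≤ v (x₁ - x₂) := by
      rw [show 2 * y₁ = (y₁ - y₂) + (y₁ + y₂) by ring]
      exact v_add_le s1 s2
    rw [map_mul, h2, one_mul] at e
    exact lt_of_le_of_lt e hc
  have e₁ := eqn hW h₁
  have e₂ := eqn hW h₂
  have hg : v (x₁ ^ 2 + x₁ * x₂ + x₂ ^ 2 + W.a₂ * (x₁ + x₂) + W.a₄) ≤ v (x₁ - x₂) := by
    have e : (y₁ - y₂) * (y₁ + y₂) =
        (x₁ - x₂) * (x₁ ^ 2 + x₁ * x₂ + x₂ ^ 2 + W.a₂ * (x₁ + x₂) + W.a₄) := by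
      linear_combination e₁ - e₂
    have h3 : v ((y₁ - y₂) * (y₁ + y₂)) ≤ v (x₁ - x₂) * v (x₁ - x₂) := v_mul_le s1 s2
    rw [e, map_mul] at h3
    exact le_of_mul_le_mul_left h3 hd0
  apply no_common hW hD hx₁
  · rw [← e₁, map_pow]
    exact pow_lt_one₀ zero_le hy₁ (by norm_num)
  · rw [show 3 * x₁ ^ 2 + 2 * W.a₂ * x₁ + W.a₄ = (x₁ - x₂) * (2 * x₁ + x₂ + W.a₂) +
      (x₁ ^ 2 + x₁ * x₂ + x₂ ^ 2 + W.a₂ * (x₁ + x₂) + W.a₄) by ring]
    refine lt_of_le_of_lt (v_add_le (r := v (x₁ - x₂)) ?_ hg) hc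
    rw [map_mul]
    refine mul_le_of_le_one_right' ?_
    exact v_add_le (v_add_le (v_mul_le_right (v_two v) hx₁) hx₂) hW.a2

/-- `y` is a unit unless `2 P` is in the kernel -/
theorem v_y_unit (hW : IntW v W) (h2 : v 2 = 1) (hD : v W.Δ = 1) {x y : F}
    (h : W.Nonsingular x y) (hE : ¬ InE v (Affine.Point.some x y h))
    (h2P : ¬ InE v (Affine.Point.some x y h + Affine.Point.some x y h)) : v y = 1 := by
  have hx : v x ≤ 1 := not_lt.1 hE
  refine le_antisymm (int_y hW h hx) ?_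
  by_contra hc
  push Not at hc
  have h20 : (2 : F) ≠ 0 := two_ne h2
  by_cases hy : y = W.negY x y
  · apply h2P
    rw [Affine.Point.add_self_of_Y_eq hy]
    exact inE_zero
  rw [Affine.Point.add_self_of_Y_ne hy] at h2P
  have h2P' : ¬ 1 < v (W.addX x x (W.slope x x y y)) := h2P
  rw [Affine.slope_of_Y_ne rfl hy] at h2P'
  push Not at h2P'
  rw [Affine.addX, Affine.negY, hW.a1, hW.a3] at h2P'
  have hy0 : y ≠ 0 := by
    intro h0
    apply hy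
    rw [h0, Affine.negY, hW.a1, hW.a3]; ring
  have e0 : y - (-y - 0 * x - 0) = 2 * y := by ring
  rw [e0] at h2P'
  set l := (3 * x ^ 2 + 2 * W.a₂ * x + W.a₄ - 0 * y) / (2 * y) with hl
  have h3 : v (l ^ 2) ≤ 1 := by
    have e : l ^ 2 = (l ^ 2 + 0 * l - W.a₂ - x - x) + W.a₂ + x + x := by ring
    rw [e]
    exact v_add_le (v_add_le (v_add_le h2P' hW.a2) hx) hx
  rw [map_pow] at h3
  have h4 : v l ≤ 1 := by
    by_contra hc
    push Not at hc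
    exact absurd h3 (not_le.2 (one_lt_pow₀ hc (by norm_num)))
  have h5 : 3 * x ^ 2 + 2 * W.a₂ * x + W.a₄ = l * (2 * y) := by
    rw [hl]
    field_simp
    ring
  apply no_common hW hD hx
  · rw [← eqn hW h, map_pow]
    exact pow_lt_one₀ zero_le hc (by norm_num)
  · rw [h5, map_mul, map_mul, h2, one_mul]
    exact lt_of_le_of_lt (mul_le_of_le_one_left' h4) hc

end Pool.Agent.MU3.Val


end

section

/-!
# Translation by a point near infinity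

`P = (x₁, y₁)` integral, `Q` in the kernel of reduction, `t = zc Q = -x(Q)/y(Q)`. Then
`x(P + Q) = x(P) + 2 y(P) t` modulo `t²` and `y(P + Q) = y(P)` modulo `t`.
-/

set_option autoImplicit false

namespace Pool.Agent.MU3.Val

open WeierstrassCurve

variable {F : Type*} [Field F] {Γ₀ : Type*} [LinearOrderedCommGroupWithZero Γ₀]
  {v : Valuation F Γ₀} {W : Affine F} [DecidableEq F]

theorem add_near (hW : IntW v W) {x₁ y₁ x₂ y₂ : F} (h₁ : W.Nonsingular x₁ y₁)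
    (h₂ : W.Nonsingular x₂ y₂) (hP : ¬ InE v (Affine.Point.some x₁ y₁ h₁))
    (hQ : InE v (Affine.Point.some x₂ y₂ h₂)) :
    ∃ (x₃ y₃ : F) (h₃ : W.Nonsingular x₃ y₃),
      Affine.Point.some x₁ y₁ h₁ + Affine.Point.some x₂ y₂ h₂ = Affine.Point.some x₃ y₃ h₃ ∧
      ¬ InE v (Affine.Point.some x₃ y₃ h₃) ∧
      v (x₃ - x₁ - 2 * y₁ * (-(x₂ / y₂))) ≤ v (-(x₂ / y₂)) ^ 2 ∧
      v (x₃ - x₁) ≤ v (-(x₂ / y₂)) ∧ v (y₃ - y₁) ≤ v (-(x₂ / y₂)) := by
  have hx₁ : v x₁ ≤ 1 := not_lt.1 hP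
  have hx₂ : 1 < v x₂ := hQ
  have hy₁ : v y₁ ≤ 1 := int_y hW h₁ hx₁
  obtain ⟨hy₂, hz, hz0, hw, hxz⟩ := inE_some hW hQ
  have e₁ := eqn hW h₁
  have e₂ := eqn hW h₂
  have hx : x₁ ≠ x₂ := by
    intro h
    rw [h] at hx₁
    exact absurd hx₁ (not_le.2 hx₂)
  have hadd := Affine.Point.add_of_X_ne hx (h₁ := h₁) (h₂ := h₂)
  have hsl := Affine.slope_of_X_ne (W := W) (y₁ := y₁) (y₂ := y₂) hx
  set l := W.slope x₁ x₂ y₁ y₂ with hl
  have h₃ := Affine.nonsingular_add h₁ h₂ (fun h => hx h.1)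
  rw [← hl] at h₃
  set z := -(x₂ / y₂) with hzd
  set w := 1 / y₂ with hwd
  have hw' : v w = v z ^ 3 := by
    have := hw
    rw [Valuation.map_neg] at this
    exact this
  have hzw : z = -(x₂ * w) := by rw [hzd, hwd]; ring
  have hyw : y₂ * w = 1 := by rw [hwd]; field_simp
  set D := x₂ - x₁ with hDd
  have hD : v D = v x₂ := by
    rw [hDd, sub_eq_add_neg]
    apply v.map_add_eq_of_lt_left
    rw [Valuation.map_neg]
    exact lt_of_le_of_lt hx₁ hx₂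
  have hx20 : (0 : Γ₀) < v x₂ := zero_lt_one.trans hx₂
  have hD0 : D ≠ 0 := sub_ne_zero.2 (Ne.symm hx)
  have hlD : l * D = y₂ - y₁ := by
    rw [hsl, hDd]
    have : x₁ - x₂ ≠ 0 := sub_ne_zero.2 hx
    field_simp
    ring
  have hx₃ : W.addX x₁ x₂ l = l ^ 2 - W.a₂ - x₁ - x₂ := by
    rw [Affine.addX, hW.a1]; ring
  have hy₃ : W.addY x₁ x₂ y₁ l = -(l * (W.addX x₁ x₂ l - x₁) + y₁) := by
    rw [Affine.addY, Affine.negAddY, Affine.negY, hW.a1, hW.a3]; ring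
  have hzle : v z ≤ 1 := hz.le
  have hz2 : v z ^ 2 ≤ 1 := pow_le_one' hzle 2
  have i2 := v_two v
  have m : ∀ {a b : F} {r : Γ₀}, v a ≤ 1 → v b ≤ r → v (a * b) ≤ r :=
    fun ha hb => v_mul_le_right ha hb
  -- the numerator
  set N := W.a₄ * x₂ + W.a₆ - 2 * (y₁ * ((W.a₂ * x₂ ^ 2 + W.a₄ * x₂ + W.a₆) * w)) + y₁ ^ 2 +
    2 * (x₁ * ((W.a₂ + 2 * x₁ + 2 * (y₁ * z)) * x₂)) -
    x₁ ^ 2 * (x₂ + W.a₂ + 2 * x₁ + 2 * (y₁ * z)) with hN
  have key : (W.addX x₁ x₂ l - x₁ - 2 * y₁ * z) * D ^ 2 = N := by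
    have e3 : (W.addX x₁ x₂ l - x₁ - 2 * y₁ * z) * D ^ 2 =
        (l * D) ^ 2 - D ^ 2 * (W.a₂ + 2 * x₁ + x₂ + 2 * y₁ * z) := by
      rw [hx₃]; ring
    rw [e3, hlD, hN, hzw, hDd]
    linear_combination (1 - 2 * y₁ * w) * e₂ + (2 * y₁ * y₂) * hyw
  have hX1 : (1 : Γ₀) ≤ v x₂ := hx₂.le
  have hNv : v N ≤ v x₂ := by
    have t1 : v ((W.a₂ * x₂ ^ 2 + W.a₄ * x₂ + W.a₆) * w) ≤ v x₂ := by
      have b1 : v (W.a₂ * x₂ ^ 2 + W.a₄ * x₂ + W.a₆) ≤ v x₂ ^ 2 := by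
        have b2 : v x₂ ≤ v x₂ ^ 2 := by
          calc v x₂ = v x₂ ^ 1 := (pow_one _).symm
            _ ≤ v x₂ ^ 2 := pow_le_pow_right₀ hX1 (by norm_num)
        refine v_add_le (v_add_le (m hW.a2 (by rw [map_pow])) (m hW.a4 b2)) ?_
        exact hW.a6.trans (one_le_pow₀ hX1)
      rw [map_mul, hw']
      refine (mul_le_mul' b1 le_rfl).trans ?_
      calc v x₂ ^ 2 * v z ^ 3 = v x₂ * (v x₂ * v z ^ 2) * v z := by
            rw [pow_succ (v z) 2, pow_two (v x₂)]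
            simp only [mul_assoc]
        _ = v x₂ * v z := by rw [hxz, mul_one]
        _ ≤ v x₂ := mul_le_of_le_one_right' hzle
    have t2 : v (W.a₂ + 2 * x₁ + 2 * (y₁ * z)) ≤ 1 :=
      v_add_le (v_add_le hW.a2 (m i2 hx₁)) (m i2 (m hy₁ hzle))
    have t3 : v (x₂ + W.a₂ + 2 * x₁ + 2 * (y₁ * z)) ≤ v x₂ :=
      v_add_le (v_add_le (v_add_le le_rfl (hW.a2.trans hX1)) ((m i2 hx₁).trans hX1))
        ((m i2 (m hy₁ hzle)).trans hX1)
    rw [hN]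
    refine v_sub_le (v_add_le (v_add_le (v_sub_le (v_add_le (m hW.a4 le_rfl) (hW.a6.trans hX1))
      (m i2 (m hy₁ t1))) ?_) (m i2 (m hx₁ (m t2 le_rfl)))) (m ?_ t3)
    · rw [map_pow]; exact (pow_le_one' hy₁ 2).trans hX1
    · rw [map_pow]; exact pow_le_one' hx₁ 2
  have c1 : v (W.addX x₁ x₂ l - x₁ - 2 * y₁ * z) ≤ v z ^ 2 := by
    have h4 : v (W.addX x₁ x₂ l - x₁ - 2 * y₁ * z) * v x₂ ^ 2 ≤ v x₂ := by
      rw [← hD, ← map_pow, ← map_mul, key, hD]; exact hNv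
    have h5 : v (W.addX x₁ x₂ l - x₁ - 2 * y₁ * z) * v x₂ ≤ v z ^ 2 * v x₂ := by
      have : v (W.addX x₁ x₂ l - x₁ - 2 * y₁ * z) * v x₂ * v x₂ ≤ v z ^ 2 * v x₂ * v x₂ := by
        rw [mul_assoc, ← pow_two, mul_comm (v z ^ 2), hxz, one_mul]; exact h4
      exact le_of_mul_le_mul_right this hx20
    exact le_of_mul_le_mul_right h5 hx20
  have hz21 : v z ^ 2 ≤ v z := by
    rw [pow_two]; exact mul_le_of_le_one_right' hzle
  have c2 : v (W.addX x₁ x₂ l - x₁) ≤ v z := by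
    have e : W.addX x₁ x₂ l - x₁ = (W.addX x₁ x₂ l - x₁ - 2 * y₁ * z) + 2 * (y₁ * z) := by ring
    rw [e]
    exact v_add_le (c1.trans hz21) (m i2 (m hy₁ le_rfl))
  have c3 : v (l * z + 1) ≤ v z ^ 2 := by
    have e : (l * z + 1) * D = -x₁ - y₁ * z := by
      have e5 : (l * z + 1) * D = (l * D) * z + D := by ring
      rw [e5, hlD, hDd, hzw]
      linear_combination (-x₂) * hyw
    have h4 : v (l * z + 1) * v x₂ ≤ 1 := by
      rw [← hD, ← map_mul, e]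
      exact v_sub_le (by rw [Valuation.map_neg]; exact hx₁) (m hy₁ hzle)
    have h5 : v (l * z + 1) * v x₂ ≤ v z ^ 2 * v x₂ := by
      rw [mul_comm (v z ^ 2), hxz]; exact h4
    exact le_of_mul_le_mul_right h5 hx20
  have c4 : v l * v z = 1 := by
    have hz2lt : v z ^ 2 < 1 := pow_lt_one₀ zero_le hz (by norm_num)
    have e : l * z = -1 + (l * z + 1) := by ring
    rw [← map_mul, e, v.map_add_eq_of_lt_left, Valuation.map_neg, map_one]
    rw [Valuation.map_neg, map_one]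
    exact lt_of_le_of_lt c3 hz2lt
  have hzpos : (0 : Γ₀) < v z := zero_lt_iff.2 hz0
  have c5 : v (W.addY x₁ x₂ y₁ l - y₁) ≤ v z := by
    have e : W.addY x₁ x₂ y₁ l - y₁ = -(l * (W.addX x₁ x₂ l - x₁ - 2 * y₁ * z)) -
        2 * (y₁ * (l * z + 1)) := by
      rw [hy₃]; ring
    rw [e]
    refine v_sub_le ?_ (m i2 (m hy₁ (c3.trans hz21)))
    rw [Valuation.map_neg, map_mul]
    calc v l * v (W.addX x₁ x₂ l - x₁ - 2 * y₁ * z) ≤ v l * v z ^ 2 := mul_le_mul' le_rfl c1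
      _ = (v l * v z) * v z := by rw [pow_two, mul_assoc]
      _ = v z := by rw [c4, one_mul]
  refine ⟨W.addX x₁ x₂ l, W.addY x₁ x₂ y₁ l, h₃, hadd, ?_, c1, c2, c5⟩
  show ¬ 1 < v (W.addX x₁ x₂ l)
  rw [not_lt, show W.addX x₁ x₂ l = (W.addX x₁ x₂ l - x₁) + x₁ by ring]
  exact v_add_le (c2.trans hzle) hx₁

end Pool.Agent.MU3.Val


end

section

/-!
# MUX, block V: the valuation lemmas for the points `ξ(z)`, `z ∈ ℂ`, of any elliptic curve with good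
reduction (helper59)

`V` is a valuation ring of `ℂ`, `L` a lattice, `W : y² = x³ + a₂x² + a₄x + a₆` a curve with coefficients in
`V` and discriminant a unit of `V`, `2` a unit of `V`, `ξ : ℂ → W(ℂ)` a homomorphism with kernel `L`,
`ξ(z) = (X z, Y z)`. All this is `GR V W L X Y ξ`. `InK V L X z`: `z` is zero or in the kernel of reduction.
-/

set_option autoImplicit false

open WeierstrassCurve

namespace Pool.Agent.MUXV

open _root_.Pool.Agent.MU3.Val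

noncomputable section

/-- good reduction at `V`, with uniformisation -/
structure GR (V : ValuationSubring ℂ) (W : WeierstrassCurve.Affine ℂ) (L : PeriodPair)
    (X Y : ℂ → ℂ) (ξ : ℂ →+ W.Point) : Prop where
  int : IntW V.valuation W
  two : V.valuation 2 = 1
  disc : V.valuation W.Δ = 1
  some : ∀ z ∉ L.lattice, ∃ h, ξ z = Affine.Point.some (X z) (Y z) h
  zero : ∀ z ∈ L.lattice, ξ z = 0

/-- `z` is zero or in the kernel of reduction -/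
def InK (V : ValuationSubring ℂ) (L : PeriodPair) (X : ℂ → ℂ) (z : ℂ) : Prop :=
  z ∈ L.lattice ∨ X z ∉ V

/-- the local parameter `-x/y` -/
def tX (X Y : ℂ → ℂ) (z : ℂ) : ℂ := -(X z / Y z)

section
variable {V : ValuationSubring ℂ} {W : WeierstrassCurve.Affine ℂ} {L : PeriodPair}
  {X Y : ℂ → ℂ} {ξ : ℂ →+ W.Point}

lemma inE_iff (G : GR V W L X Y ξ) (z : ℂ) : InE V.valuation (ξ z) ↔ InK V L X z := by
  by_cases hz : z ∈ L.lattice
  · rw [G.zero z hz]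
    exact ⟨fun _ => Or.inl hz, fun _ => inE_zero⟩
  · obtain ⟨h1, e⟩ := G.some z hz
    rw [e]
    show 1 < V.valuation (X z) ↔ _
    unfold InK
    rw [← not_le, ValuationSubring.valuation_le_one_iff]
    tauto

lemma zc_xi (G : GR V W L X Y ξ) {z : ℂ} (hz : z ∉ L.lattice) : zc (ξ z) = tX X Y z := by
  obtain ⟨h1, e⟩ := G.some z hz
  rw [e]; rfl

lemma int_X {z : ℂ} (h : ¬ InK V L X z) : z ∉ L.lattice ∧ V.valuation (X z) ≤ 1 := by
  unfold InK at h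
  push Not at h
  exact ⟨h.1, (ValuationSubring.valuation_le_one_iff _ _).2 h.2⟩

lemma int_Y (G : GR V W L X Y ξ) {z : ℂ}
    (hz : ¬ InK V L X z) : V.valuation (Y z) ≤ 1 := by
  obtain ⟨h1, h3⟩ := int_X hz
  obtain ⟨h4, e⟩ := G.some z h1
  exact int_y G.int h4 h3

lemma inK_add (G : GR V W L X Y ξ) {z w : ℂ}
    (hz : InK V L X z) (hw : InK V L X w) : InK V L X (z + w) := by
  rw [← inE_iff G] at hz hw ⊢
  rw [map_add]
  exact (add_inE G.int (two_ne G.two) hz hw).1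

lemma inK_neg (G : GR V W L X Y ξ) {z : ℂ}
    (hz : InK V L X z) : InK V L X (-z) := by
  rw [← inE_iff G] at hz ⊢
  rw [map_neg]
  exact inE_neg hz

lemma inK_sub (G : GR V W L X Y ξ) {z w : ℂ}
    (hz : InK V L X z) (hw : InK V L X w) : InK V L X (z - w) := by
  rw [sub_eq_add_neg]
  exact inK_add G hz (inK_neg G hw)

lemma inK_zero : InK V L X 0 := Or.inl (zero_mem _)

lemma inK_of_mem {z : ℂ} (hz : z ∈ L.lattice) : InK V L X z := Or.inl hz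

lemma inK_nat (G : GR V W L X Y ξ) {z : ℂ}
    (hz : InK V L X z) (n : ℕ) : InK V L X (n * z) := by
  induction n with
  | zero => simpa using inK_zero
  | succ n ih =>
    have : ((n + 1 : ℕ) : ℂ) * z = n * z + z := by push_cast; ring
    rw [this]
    exact inK_add G ih hz

lemma inK_int (G : GR V W L X Y ξ) {z : ℂ}
    (hz : InK V L X z) (n : ℤ) : InK V L X (n * z) := by
  obtain ⟨m, rfl | rfl⟩ := n.eq_nat_or_neg
  · simpa using inK_nat G hz m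
  · have : ((-(m : ℤ) : ℤ) : ℂ) * z = -(m * z) := by push_cast; ring
    rw [this]
    exact inK_neg G (inK_nat G hz m)

/-- congruence modulo the kernel of reduction -/
lemma inK_congr (G : GR V W L X Y ξ) {z w : ℂ}
    (hzw : InK V L X (z - w)) : InK V L X z ↔ InK V L X w := by
  constructor
  · intro hz
    have := inK_sub G hz hzw
    rwa [sub_sub_cancel] at this
  · intro hw
    have := inK_add G hzw hw
    rwa [sub_add_cancel] at this

lemma v_tX_lt (G : GR V W L X Y ξ) {z : ℂ}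
    (hz : InK V L X z) (hL : z ∉ L.lattice) :
    V.valuation (tX X Y z) < 1 ∧ V.valuation (tX X Y z) ≠ 0 ∧
      V.valuation (X z) * V.valuation (tX X Y z) ^ 2 = 1 := by
  obtain ⟨h1, e⟩ := G.some z hL
  have h3 := (inE_iff G z).2 hz
  rw [e] at h3
  obtain ⟨-, h4, h5, -, h6⟩ := inE_some G.int h3
  exact ⟨h4, h5, h6⟩

/-- additivity of the parameter to third order -/
lemma v_tX_add (G : GR V W L X Y ξ) {z w : ℂ}
    (hz : InK V L X z) (hw : InK V L X w) (hzL : z ∉ L.lattice) (hwL : w ∉ L.lattice)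
    (hzw : z + w ∉ L.lattice) :
    V.valuation (tX X Y (z + w) - tX X Y z - tX X Y w) ≤
      (max (V.valuation (tX X Y z)) (V.valuation (tX X Y w))) ^ 3 := by
  rw [← inE_iff G] at hz hw
  have h3 := (add_inE G.int (two_ne G.two) hz hw).2
  rwa [← map_add, zc_xi G hzL, zc_xi G hwL, zc_xi G hzw] at h3

/-- the parameter of a multiple -/
lemma v_tX_nat (G : GR V W L X Y ξ) {z : ℂ}
    (hz : InK V L X z) {n : ℕ} (hn : V.valuation (n : ℂ) = 1) (hzL : z ∉ L.lattice)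
    (hnL : n * z ∉ L.lattice) :
    V.valuation (tX X Y (n * z)) = V.valuation (tX X Y z) := by
  rw [← inE_iff G] at hz
  have h3 := v_zc_nsmul G.int (two_ne G.two) hz hn
  rw [← map_nsmul, nsmul_eq_mul] at h3
  rwa [zc_xi G hzL, zc_xi G hnL] at h3

/-- no torsion prime to the residue characteristic in the kernel of reduction -/
lemma mem_of_nat_mul (G : GR V W L X Y ξ) {z : ℂ}
    (hz : InK V L X z) {n : ℕ} (hn : V.valuation (n : ℂ) = 1)
    (hnL : n * z ∈ L.lattice) : z ∈ L.lattice := by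
  rw [← inE_iff G] at hz
  by_contra hzL
  have h3 := eq_zero_of_nsmul G.int (two_ne G.two) hz hn (by
    rw [← map_nsmul, nsmul_eq_mul]; exact G.zero _ hnL)
  obtain ⟨h4, e⟩ := G.some z hzL
  rw [e] at h3
  exact absurd h3 (by simp)

/-- the difference of the `x`-coordinates is a unit -/
lemma v_X_sub (G : GR V W L X Y ξ) {z w : ℂ}
    (hz : ¬ InK V L X z) (hw : ¬ InK V L X w) (hp : ¬ InK V L X (z + w))
    (hm : ¬ InK V L X (z - w)) : V.valuation (X z - X w) = 1 := by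
  obtain ⟨h3, e3⟩ := G.some z (int_X hz).1
  obtain ⟨h4, e4⟩ := G.some w (int_X hw).1
  rw [← inE_iff G] at hz hw hp hm
  rw [map_add] at hp
  rw [map_sub] at hm
  rw [e3] at hz hp hm
  rw [e4] at hw hp hm
  exact v_x_sub G.int G.two G.disc h3 h4 hz hw hp hm

/-- addition of a point in the kernel of reduction -/
lemma near (G : GR V W L X Y ξ) {z w : ℂ}
    (hz : ¬ InK V L X z) (hw : InK V L X w) (hwL : w ∉ L.lattice) :
    ¬ InK V L X (z + w) ∧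
    V.valuation (X (z + w) - X z - 2 * Y z * tX X Y w) ≤
      V.valuation (tX X Y w) ^ 2 ∧
    V.valuation (X (z + w) - X z) ≤ V.valuation (tX X Y w) ∧
    V.valuation (Y (z + w) - Y z) ≤ V.valuation (tX X Y w) := by
  have hzw : ¬ InK V L X (z + w) := by
    rw [inK_congr G (w := z) (by rwa [add_sub_cancel_left])]
    exact hz
  refine ⟨hzw, ?_⟩
  obtain ⟨h3, e3⟩ := G.some z (int_X hz).1
  obtain ⟨h4, e4⟩ := G.some w hwL
  obtain ⟨h5, e5⟩ := G.some (z + w) (int_X hzw).1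
  rw [← inE_iff G] at hz hw
  rw [e3] at hz
  rw [e4] at hw
  obtain ⟨x₃, y₃, h₃, e, -, i1, i2, i3⟩ := add_near G.int h3 h4 hz hw
  rw [← e3, ← e4, ← map_add, e5] at e
  obtain ⟨rfl, rfl⟩ : X (z + w) = x₃ ∧ Y (z + w) = y₃ := by
    simpa using e
  exact ⟨i1, i2, i3⟩

/-- `x` modulo the maximal ideal depends only on the reduction -/
lemma near_lt (G : GR V W L X Y ξ) {z w : ℂ}
    (hz : ¬ InK V L X z) (hw : InK V L X w) :
    V.valuation (X (z + w) - X z) < 1 ∧ V.valuation (Y (z + w) - Y z) < 1 := by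
  by_cases hwL : w ∈ L.lattice
  · have h3 := G.zero w hwL
    obtain ⟨h4, e4⟩ := G.some z (int_X hz).1
    have hzw : z + w ∉ L.lattice := fun h5 => (int_X hz).1 (by
      have := sub_mem h5 hwL; rwa [add_sub_cancel_right] at this)
    obtain ⟨h5, e5⟩ := G.some (z + w) hzw
    rw [map_add, h3, add_zero, e4] at e5
    obtain ⟨e6, e7⟩ : X z = X (z + w) ∧ Y z = Y (z + w) := by simpa using e5
    rw [← e6, ← e7, sub_self, sub_self, map_zero]
    exact ⟨zero_lt_one, zero_lt_one⟩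
  · obtain ⟨-, -, h3, h4⟩ := near G hz hw hwL
    have h5 := (v_tX_lt G hw hwL).1
    exact ⟨h3.trans_lt h5, h4.trans_lt h5⟩

end

end

end Pool.Agent.MUXV


end

section

/-!
# MUX, block VG: reduction of elliptic curves in general Weierstrass form (all residue
characteristics) (helper77)

`W : y² + a₁xy + a₃y = x³ + a₂x² + a₄x + a₆` over a field `F` with a valuation `v`, coefficients
integral. This is the version of `MU3/VCore`, `VPts`, `VRed`, `VCong` (case `a₁ = a₃ = 0`, `v 2 = 1`)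
without restriction; the proofs are those of the four files with the changes given in the docstrings.
`InE v P` (`P = 0` or `x(P)` not integral) and `zc P = -x/y` are the definitions of `MU3/VPts.lean`;
`Pool.Agent.MU3.Val.v_nat`, `v_two`, `v_three`, `v_add_le`, `v_sub_le`, `v_mul_le`, `v_mul_le_right`,
`v_pow_le`, `inE_zero`, `zc_zero`, `inE_neg`, `inE_neg_iff` can be used.
-/

set_option autoImplicit false

namespace Pool.Agent.MUXG

open WeierstrassCurve _root_.Pool.Agent.MU3.Val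

/-- `W` has integral coefficients. -/
structure IntG {F : Type} [Field F] {Γ₀ : Type} [LinearOrderedCommGroupWithZero Γ₀]
    (v : Valuation F Γ₀) (W : Affine F) : Prop where
  a1 : v W.a₁ ≤ 1
  a2 : v W.a₂ ≤ 1
  a3 : v W.a₃ ≤ 1
  a4 : v W.a₄ ≤ 1
  a6 : v W.a₆ ≤ 1

/-- Valuations of a point.
(1) `v x ≤ 1`: if `v y > 1` then `v(y²) > v(a₁xy + a₃y)`, so `v(y² + a₁xy + a₃y) = v(y)² > 1`, but the right
side is integral.
(2) `v x > 1`: the right side has valuation `v(x)³`. If `v y ≤ v x`, the left side has valuation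
`≤ v(x)² < v(x)³`, contradiction. So `v y > v x > 1`, hence `v(a₁xy + a₃y) < v(y)²` and
`v(y)² = v(x)³`. The rest as in `v_zw` (`MU3/VCore.lean`). -/
def S_VAL : Prop :=
  ∀ (F : Type) [Field F] (Γ₀ : Type) [LinearOrderedCommGroupWithZero Γ₀] (v : Valuation F Γ₀)
    (W : Affine F), IntG v W → ∀ (x y : F), W.Nonsingular x y →
    (v x ≤ 1 → v y ≤ 1) ∧
    (1 < v x → y ≠ 0 ∧ v (-(x / y)) < 1 ∧ v (-(x / y)) ≠ 0 ∧ v (-(1 / y)) = v (-(x / y)) ^ 3 ∧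
      v x * v (-(x / y)) ^ 2 = 1)

/-- Negation: with `z = -x/y`, `w = -1/y` one has `zc(-P) = -(x/(-y - a₁x - a₃)) = -z/(1 - a₁z - a₃w)` and
`v(a₁z + a₃w) ≤ v z < 1` by `S_VAL`, so `v(zc(-P)) = v(zc P)` and
`zc(-P) + zc P = -z(a₁z + a₃w)/(1 - a₁z - a₃w)` has valuation at most `v(z)²`. For `P = 0` both are `0`. -/
def S_NEG : Prop :=
  ∀ (F : Type) [Field F] (Γ₀ : Type) [LinearOrderedCommGroupWithZero Γ₀] (v : Valuation F Γ₀)
    (W : Affine F), IntG v W → ∀ (P : W.Point), InE v P →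
    v (zc P) < 1 ∧ (v (zc P) = 0 → P = 0) ∧ v (zc (-P)) = v (zc P) ∧
      v (zc (-P) + zc P) ≤ v (zc P) ^ 2

/-- THE CHORD: the kernel of reduction is closed under addition, `zc` is additive up to second order.
Proof: as `MU3/VCore.lean`, `MU3/VPts.lean` (`chord0`, `chord`, `add_data`, `add_inE`), with the changes:
the line through `P = (x₁,y₁)`, `Q = (x₂,y₂)` (`P + Q ≠ 0`) is `y = lx + n`, third point
`(x₃,y₃) = -(P+Q)`, with `x₁+x₂+x₃ = l² + a₁l - a₂`, `x₁x₂+x₁x₃+x₂x₃ = a₄ - 2ln - a₁n - a₃l`,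
`x₁x₂x₃ = n² + a₃n - a₆` (no hypothesis on `2` is needed: in the tangent case the denominator of the slope
`(3x₁² + 2a₂x₁ + a₄ - a₁y₁)/(y₁ - negY)` is nonzero). In the coordinates `z = -x/y`, `w = -1/y` the curve
is `w = z³ + a₁zw + a₂z²w + a₃w² + a₄zw² + a₆w³`, the line is `nw + lz = -1`, and subtracting the
equations of the two points gives
`l(1 - (a₁z₂ + a₂z₂² + a₃(w₁+w₂) + a₄z₁(w₁+w₂) + a₆(w₁²+w₁w₂+w₂²))) =
   -(n(z₁²+z₁z₂+z₂² + a₁w₁ + a₂(z₁+z₂)w₁ + a₄w₂²))`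
(prove it from the equations, separately for `x₁ ≠ x₂` and for the tangent, as in `add_data`: use
`l(y₁+y₂+a₁x₂+a₃) = x₁²+x₁x₂+x₂²+a₂(x₁+x₂)+a₄-a₁y₁`). With `r = max(v z₁, v z₂) < 1`, `v w_i ≤ r³`: the
bracket on the left has valuation `1`, the one on the right `≤ r²`, so `v l ≤ v n · r²`,
`1 = v(nw₁+lz₁) ≤ v n · r³`, and `v(n³ - a₂ln² + a₄l²n - a₆l³) = v(n)³`. Moreover
`y₁y₂y₃ = n³ - a₂ln² + a₄l²n - a₆l³` (in particular `y₃ ≠ 0`) and
`(z₁+z₂+z₃)·y₁y₂y₃ = a₁ln² - a₃l²n + a₂n² - 2a₄ln + 3a₆l²`, whence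
`v(z₁+z₂+z₃)·v(n)³ ≤ max(v(n)³r², v(n)²) ≤ v(n)³ r²` (because `1 ≤ v n · r³`), so
`v(z₁+z₂+z₃) ≤ r²`, `v z₃ ≤ r`, `v w₃ ≤ r³` (from `n w₃ = -1 - l z₃`) and `(x₃,y₃)` is in the kernel
(`v y₃ > 1`). Finally `zc(P+Q) = zc(-(x₃,y₃))` and `S_NEG`: `v(zc(P+Q) + z₃) ≤ v(z₃)² ≤ r²`.
If `P + Q = 0` then `Q = -P` and the claim is `S_NEG`; if `P` or `Q` is `0` it is trivial. -/
def S_ADD : Prop :=
  ∀ (F : Type) [Field F] [DecidableEq F] (Γ₀ : Type) [LinearOrderedCommGroupWithZero Γ₀]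
    (v : Valuation F Γ₀) (W : Affine F), IntG v W → ∀ (P Q : W.Point), InE v P → InE v Q →
    InE v (P + Q) ∧ v (zc (P + Q) - zc P - zc Q) ≤ (max (v (zc P)) (v (zc Q))) ^ 2

/-- A singular point of the reduction makes `Δ` a non-unit. Proof: `Δ` does not change under the
translation `x = X + x₀, y = Y + y₀` (`WeierstrassCurve.variableChange_Δ` with `u = 1, r = x₀, s = 0,
t = y₀`; or directly by `ring`), after which `a₁' = a₁`, `a₂' = a₂ + 3x₀`, `a₃' = a₃ + a₁x₀ + 2y₀`,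
`a₄' = a₄ + 2a₂x₀ - a₁y₀ + 3x₀²`, `a₆' = 0` (equation of the curve). So
`b₂' = a₁²+4a₂'`, `b₄' = a₁a₃' + 2a₄'`, `b₆' = a₃'²`, `b₈' = -a₁a₃'a₄' + a₂'a₃'² - a₄'²` have `b₂'`
integral and the others of valuation `< 1`, and
`Δ = -b₂'²b₈' - 8b₄'³ - 27b₆'² + 9b₂'b₄'b₆'`. -/
def S_SING : Prop :=
  ∀ (F : Type) [Field F] (Γ₀ : Type) [LinearOrderedCommGroupWithZero Γ₀] (v : Valuation F Γ₀)
    (W : Affine F), IntG v W → ∀ (x y : F), v x ≤ 1 → v y ≤ 1 → W.Equation x y →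
    v (2 * y + W.a₁ * x + W.a₃) < 1 → v (3 * x ^ 2 + 2 * W.a₂ * x + W.a₄ - W.a₁ * y) < 1 →
    v W.Δ < 1

/-- REDUCTION IS INJECTIVE: `x(P) - x(Q)` is a unit if `P`, `Q`, `P + Q`, `P - Q` are not in the kernel.
Proof. `x₁ ≠ x₂` (otherwise `Q = ±P`). Let `l = (y₁-y₂)/(x₁-x₂)`;
`x(P+Q) = l² + a₁l - a₂ - x₁ - x₂` is integral, so `l² + a₁l` is, so `v l ≤ 1` (if `v l > 1` then
`v(l² + a₁l) = v(l)² > 1`): `v(y₁-y₂) ≤ v(x₁-x₂)`. The same for `P` and `-Q = (x₂, -y₂-a₁x₂-a₃)`: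
`v(y₁+y₂+a₁x₂+a₃) ≤ v(x₁-x₂)`. Suppose `v(x₁-x₂) < 1`. Then
`2y₁+a₁x₁+a₃ = (y₁-y₂) + (y₁+y₂+a₁x₂+a₃) + a₁(x₁-x₂)` has valuation `< 1`. The difference of the two
equations divided by `x₁-x₂` gives
`l(y₁+y₂+a₁x₂+a₃) = x₁²+x₁x₂+x₂²+a₂(x₁+x₂)+a₄-a₁y₁`, which has valuation `< 1`, so
`3x₁²+2a₂x₁+a₄-a₁y₁` (difference `(x₁-x₂)(2x₁+x₂+a₂)`) has valuation `< 1`. By `S_SING` `v Δ < 1`,
contradiction. -/
def S_XSUB : Prop :=
  ∀ (F : Type) [Field F] [DecidableEq F] (Γ₀ : Type) [LinearOrderedCommGroupWithZero Γ₀]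
    (v : Valuation F Γ₀) (W : Affine F), IntG v W → v W.Δ = 1 →
    ∀ (x₁ y₁ x₂ y₂ : F) (h₁ : W.Nonsingular x₁ y₁) (h₂ : W.Nonsingular x₂ y₂),
    ¬ InE v (Affine.Point.some x₁ y₁ h₁) → ¬ InE v (Affine.Point.some x₂ y₂ h₂) →
    ¬ InE v (Affine.Point.some x₁ y₁ h₁ + Affine.Point.some x₂ y₂ h₂) →
    ¬ InE v (Affine.Point.some x₁ y₁ h₁ - Affine.Point.some x₂ y₂ h₂) →
    v (x₁ - x₂) = 1

/-- TRANSLATION BY A POINT NEAR INFINITY (`MU3/VCong.lean`, `add_near`). `P = (x₁,y₁)` integral,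
`Q = (x₂,y₂)` in the kernel, `z = -x₂/y₂`, `w = 1/y₂` (so `v w = v(z)³`, `v x₂ · v(z)² = 1`),
`B = 2y₁+a₁x₁+a₃`, `D = x₂-x₁` (`v D = v x₂`), `lD = y₂-y₁`,
`x₃ = l²+a₁l-a₂-x₁-x₂`. One has
`(x₃ - x₁ - Bz)D² = -B(y₂ + zx₂²) + Bz(2x₁x₂ - x₁²) + a₄x₂ + a₆ + y₁² - a₁y₁x₂ + a₁x₁y₁ + 3x₁²x₂ - 2x₁³ +
2a₂x₁x₂ - a₂x₁²` and `y₂ + zx₂² = (y₂²-x₂³)w = (a₂x₂²+a₄x₂+a₆)w - a₁x₂ - a₃` (equation of `Q`), so the
right side has valuation `≤ v x₂` and `v(x₃ - x₁ - Bz) ≤ 1/v x₂ = v(z)²`.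
`(lz+1)D = -x₁ - y₁z` gives `v(lz+1) ≤ v(z)²`, `v l · v z = 1`, and
`y₃ = -(l(x₃-x₁)+y₁) - a₁x₃ - a₃` gives
`y₃ - y₁ = -l(x₃-x₁-Bz) - B(lz+1) - a₁(x₃-x₁)`, of valuation `≤ v z`. -/
def S_NEAR : Prop :=
  ∀ (F : Type) [Field F] [DecidableEq F] (Γ₀ : Type) [LinearOrderedCommGroupWithZero Γ₀]
    (v : Valuation F Γ₀) (W : Affine F), IntG v W →
    ∀ (x₁ y₁ x₂ y₂ : F) (h₁ : W.Nonsingular x₁ y₁) (h₂ : W.Nonsingular x₂ y₂),
    ¬ InE v (Affine.Point.some x₁ y₁ h₁) → InE v (Affine.Point.some x₂ y₂ h₂) →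
    ∃ (x₃ y₃ : F) (h₃ : W.Nonsingular x₃ y₃),
      Affine.Point.some x₁ y₁ h₁ + Affine.Point.some x₂ y₂ h₂ = Affine.Point.some x₃ y₃ h₃ ∧
      ¬ InE v (Affine.Point.some x₃ y₃ h₃) ∧
      v (x₃ - x₁ - (2 * y₁ + W.a₁ * x₁ + W.a₃) * (-(x₂ / y₂))) ≤ v (-(x₂ / y₂)) ^ 2 ∧
      v (x₃ - x₁) ≤ v (-(x₂ / y₂)) ∧ v (y₃ - y₁) ≤ v (-(x₂ / y₂))

end Pool.Agent.MUXG


end
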