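import Mathlib
import Pool.Agent.MVF.C006
import Pool.Agent.MVF.C007
import Pool.Agent.MVF.C015

/-! Parts: MUX.StVX, MUX.StQX, MUX.R_NGR, MUX.Q_YUN, MUX.Q_TRC, MUX.Q_DGL, MUX.Q_AEL, MUX.R_TRA, MUX.R_R4, MUX.R_R2, MUX.R_INJ, MUX.R_HRE -/

namespace Pool.Agent.MUXV.R2
end Pool.Agent.MUXV.R2
namespace Pool.Agent.MUXV.R491
end Pool.Agent.MUXV.R491
namespace Pool.Agent.MUXV.TRA
end Pool.Agent.MUXV.TRA

section

/-!
# MUX, block R: isogenies of prime degree modulo a place `V` (helper59)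

`L`, `M` lattices, `μ L ⊆ M` (`Isg L M μ`, helper34); the isogeny `ℂ / L → ℂ / M`, `z ↦ μ z`, has the kernel `{z : μ z ∈ M}` modulo `L`.
(Multiplication by `l` on `ℂ / L` is the case `M = L`, `μ = l`.) No complex multiplication is used.
Every `def Sx_X : Prop` is the statement of a module, which proves `theorem tx_X (h : Sx_..) .. : Sx_X` in
`Pool/Agent/MUX/R_X.lean`, namespace `Pool.Agent.MUXV`. `GR`, `InK`, `tX` and the lemmas on them: `VX.lean`. `IsRpM`, `Isg`, `Su_BAC` (representatives exist),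
`Su_PFI` (product formula): helper34's `StU.lean`. These statements are the analogues of those of `Pool/Agent/MU3/StB2.lean`
(HAL, HRE) and `StV.lean` (POL, R2, R4, R5, TRA, INJ); the proofs in `B_HAL.lean`, `B_HRE.lean`, `V_POL.lean`, `V_R2.lean`, `V_R4.lean`,
`V_R5.lean`, `V_TRA.lean`, `V_INJ.lean` of `Pool/Agent/MU3/` can be copied and adapted. The theorems `Pool.Agent.MU3B.b_X : St_X` of
`Pool/Agent/MU3/BAll.lean` may be used.
-/

set_option autoImplicit false

open WeierstrassCurve Polynomial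

namespace Pool.Agent.MUXV

open _root_.Pool.Agent.MU3B _root_.Pool.Agent.MUXU

noncomputable section

/-- `H`: a half system for the kernel -/
structure HalfI (L M : PeriodPair) (mu : ℂ) (H : Finset ℂ) : Prop where
  mem : ∀ q ∈ H, mu * q ∈ M.lattice
  ne : ∀ q ∈ H, 2 * q ∉ L.lattice
  inj : ∀ q ∈ H, ∀ q' ∈ H, q - q' ∈ L.lattice → q = q'
  neg : ∀ q ∈ H, ∀ q' ∈ H, q + q' ∉ L.lattice
  surj : ∀ z : ℂ, mu * z ∈ M.lattice → z ∉ L.lattice →
    ∃ q ∈ H, z - q ∈ L.lattice ∨ z + q ∈ L.lattice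

/-- the polynomial `μ ∏_(q ∈ H) (T - (℘_L(q) - c))` -/
def QI (L : PeriodPair) (c mu : ℂ) (H : Finset ℂ) : ℂ[X] :=
  C mu * ∏ q ∈ H, (X - C (L.weierstrassP q - c))

/-- the polynomial `∏_(q ∈ H) (T - (℘_L(w + q) - c))` -/
def CI (L : PeriodPair) (c w : ℂ) (H : Finset ℂ) : ℂ[X] :=
  ∏ q ∈ H, (X - C (L.weierstrassP (w + q) - c))

/-- (HAL) half systems exist if the kernel has no point of order 2.

Uses Su_BAC (second part: representatives `R`). PROOF. `B_HAL.lean` (choose a maximal subset `H` of `R` with `q + q' ∉ L` for all `q, q' ∈ H`). -/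
def Sx_HAL : Prop :=
  ∀ (L M : PeriodPair) (mu : ℂ), mu ≠ 0 → Isg L M mu →
    (∀ z, mu * z ∈ M.lattice → 2 * z ∈ L.lattice → z ∈ L.lattice) → ∃ H : Finset ℂ, HalfI L M mu H

/-- (HRE) `H ∪ -H` is a system of representatives.

PROOF. `B_HRE.lean`. -/
def Sx_HRE : Prop :=
  ∀ (L M : PeriodPair) (mu : ℂ) (H : Finset ℂ), HalfI L M mu H →
    IsRpM L M mu (H ∪ H.image (fun q => -q)) ∧ Disjoint H (H.image (fun q => -q))

/-- (POL) the identity of polynomials behind the isogeny, at points of order two.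

Uses Su_PFI, HRE, St_SUR (`Pool.Agent.MU3B.b_SUR`). PROOF. `V_POL.lean` (`Sv_POL` of `StV.lean`; `Sa_PFG` is replaced by `Su_PFI`). -/
def Sx_POL : Prop :=
  ∀ (L M : PeriodPair) (c mu : ℂ) (H : Finset ℂ), mu ≠ 0 →
    Isg L M mu → HalfI L M mu H →
    (∀ w₁ w₂ : ℂ, 2 * w₁ ∈ L.lattice → w₁ ∉ L.lattice → 2 * w₂ ∈ L.lattice → w₂ ∉ L.lattice →
      C (M.weierstrassP (mu * w₂) - M.weierstrassP (mu * w₁)) * QI L c mu H ^ 2 =
        (X - C (L.weierstrassP w₁ - c)) * CI L c w₁ H ^ 2 -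
          (X - C (L.weierstrassP w₂ - c)) * CI L c w₂ H ^ 2) ∧
    ∀ w : ℂ, 2 * w ∈ L.lattice → w ∉ L.lattice → ∀ z, mu * z ∉ M.lattice →
      (M.weierstrassP (mu * z) - M.weierstrassP (mu * w)) *
          (QI L c mu H).eval (L.weierstrassP z - c) ^ 2 =
        (L.weierstrassP z - L.weierstrassP w) * (CI L c w H).eval (L.weierstrassP z - c) ^ 2

/-- an isogeny of prime degree `q ≠ 2` between two lattices with good reduction at `V`;
coordinates `℘_L - c`, `℘_M - c'` -/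
structure IsoV (V : ValuationSubring ℂ) (L M : PeriodPair) (c c' mu : ℂ) (q : ℕ)
    (H : Finset ℂ) : Prop where
  redL : ∃ (W : WeierstrassCurve.Affine ℂ) (ξ : ℂ →+ W.Point),
    GR V W L (fun z => L.weierstrassP z - c) (fun z => L.derivWeierstrassP z / 2) ξ
  redM : ∃ (W : WeierstrassCurve.Affine ℂ) (ξ : ℂ →+ W.Point),
    GR V W M (fun z => M.weierstrassP z - c') (fun z => M.derivWeierstrassP z / 2) ξ
  mu_ne : mu ≠ 0
  sub : Isg L M mu
  prime : q.Prime
  half : HalfI L M mu H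
  card : 2 * H.card + 1 = q
  cyc : ∀ u u₁ : ℂ, mu * u ∈ M.lattice → mu * u₁ ∈ M.lattice → u₁ ∉ L.lattice →
    ∃ n : ℤ, u - n * u₁ ∈ L.lattice
  ord : ∀ u : ℂ, mu * u ∈ M.lattice → q * u ∈ L.lattice

/-- (R2) the kernel is in the kernel of reduction if `μ` is not a unit.

Uses POL, `VX.lean`. PROOF. `V_R2.lean`. Suppose `μ u₀ ∈ M` and `u₀` is not in `K₁ = {InK V L _}`. Then no nonzero point `u` of the kernel is in `K₁`
(`u₀ ≡ n u` by `cyc`). Let `w₁, w₂` be incongruent points of order two (`L.ω₁/2`, `L.ω₂/2`; every lattice has them); for `p ∈ H` the points `w_i + p`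
are not in `K₁` (otherwise `2 p ∈ K₁`, `2 p ∉ L`). All coordinates `℘_L - c` at `p`, `w_i`, `w_i + p` are in `V`, and those of `M` at `μ w_i` (of order two
in `ℂ/M`: `μ w_i ∉ M` since the kernel has no point of order two, `HalfI`); `e₁ - e₂` is a unit (`v_X_sub`). (POL) modulo the maximal ideal: the left side is `0`
(factor `μ²`), so `(X - e₁) C₁² = (X - e₂) C₂²` over the residue field, `e₁ ≠ e₂`: the multiplicity of the root `e₁` is odd on the left and
even on the right. -/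
def Sx_R2 : Prop :=
  ∀ (V : ValuationSubring ℂ) (L M : PeriodPair) (c c' mu : ℂ) (q : ℕ) (H : Finset ℂ),
    IsoV V L M c c' mu q H → V.valuation mu < 1 → ∀ u, mu * u ∈ M.lattice →
      InK V L (fun z => L.weierstrassP z - c) u

/-- (R4) consequences of `kernel ⊆ K₁` in residue characteristic `q`.

Uses POL, `VX.lean`. PROOF. `V_R4.lean`. (3): for `w` of order two `w ∉ K₁`, `x(w + p) ≡ x(w)` (`near_lt`), so
`(X - x(w)) C_w² ≡ (X - x(w))^(2|H|+1) = (X - x(w))^q` coefficientwise. (2): (POL), `(X - e₁)^q - (X - e₂)^q ≡ (e₂ - e₁)^q` in characteristic `q`. (1): (2) at `x = 0` for two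
incongruent points of order two; `e₂ - e₁` and `℘_M(μ w₂) - ℘_M(μ w₁)` are units (`v_X_sub` for `L` and for `M`). -/
def Sx_R4 : Prop :=
  ∀ (V : ValuationSubring ℂ) (L M : PeriodPair) (c c' mu : ℂ) (q : ℕ) (H : Finset ℂ),
    IsoV V L M c c' mu q H → V.valuation (q : ℂ) < 1 →
    (∀ u, mu * u ∈ M.lattice → InK V L (fun z => L.weierstrassP z - c) u) →
    (V.valuation mu * ∏ p ∈ H, V.valuation (L.weierstrassP p - c) = 1) ∧
    (∀ w₁ w₂ : ℂ, 2 * w₁ ∈ L.lattice → w₁ ∉ L.lattice → 2 * w₂ ∈ L.lattice → w₂ ∉ L.lattice →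
      ∀ x ∈ V, V.valuation ((M.weierstrassP (mu * w₂) - M.weierstrassP (mu * w₁)) *
        (QI L c mu H).eval x ^ 2 - (L.weierstrassP w₂ - L.weierstrassP w₁) ^ q) < 1) ∧
    ∀ w : ℂ, 2 * w ∈ L.lattice → w ∉ L.lattice → ∀ x ∈ V,
      V.valuation ((x - (L.weierstrassP w - c)) * (CI L c w H).eval x ^ 2 -
        (x - (L.weierstrassP w - c)) ^ q) < 1

/-- (R5) the isogeny is the Frobenius modulo `V`, up to a scalar `κ`.

Uses POL, R2, R4; `Pool.Agent.MU3A.a_ROO`-type result `Sa_ROO` (`Pool/Agent/MU3/StA.lean`, proof in `A_ROO.lean`; unconditional in `AVAll.lean`). PROOF. `V_R5.lean`. `v q < 1` is assumed; the kernel is in `K₁` (R2). `q ≠ 2, 3` (`v 2 = v 3 = 1`). Let `≡` be equality in the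
residue field. `w₁ = L.ω₁/2`, `w₂ = L.ω₂/2`, `w₃ = w₁ + w₂`, `e_i = ℘_L(w_i)`, `e_i' = ℘_M(μ w_i)` (three points of order two of `ℂ/M`, pairwise incongruent). They are in `V`
(`c, c' ∈ V`), the differences are units. `κ := QI(0)²`. By (R4)(2) for all `x ∈ V`: `QI(x)² (e_j' - e_i') ≡ (e_j - e_i)^q = e_j^q - e_i^q`, so `QI(x)² ≡ κ`, a unit. Sum over `i`
(`Σ e_i = 0 = Σ e_i'`, ROO): `3 κ e_j' ≡ 3 e_j^q`: (a) `e_j^q ≡ κ e_j'`. With `Σ e_i e_j = -g₂/4`, `∏ e_i = g₃/4` for `L` and for `M` (ROO): the second and third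
statement. For `z ∉ K₁`: `μ z ∉ M`; (POL)(second part) for `w₁`, `x₀ = ℘_L(z) - c ∈ V`: `(℘_M(μz) - e₁') QI(x₀)² = (x₀ - (e₁ - c)) C(x₀)² ≡ (x₀ - (e₁ - c))^q = (℘_L(z) - e₁)^q ≡ ℘_L(z)^q - e₁^q`
(R4)(3), so `℘_M(μ z) ∈ V` and `κ ℘_M(μ z) ≡ ℘_L(z)^q` by (a). -/
def Sx_R5 : Prop :=
  ∀ (V : ValuationSubring ℂ) (L M : PeriodPair) (c c' mu : ℂ) (q : ℕ) (H : Finset ℂ),
    IsoV V L M c c' mu q H → V.valuation 3 = 1 → c ∈ V → c' ∈ V → V.valuation (q : ℂ) < 1 →
    V.valuation mu < 1 →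
    ∃ κ : ℂ, V.valuation κ = 1 ∧
      V.valuation ((L.g₂ / 4) ^ q - κ ^ 2 * (M.g₂ / 4)) < 1 ∧
      V.valuation ((L.g₃ / 4) ^ q - κ ^ 3 * (M.g₃ / 4)) < 1 ∧
      ∀ z, ¬ InK V L (fun z => L.weierstrassP z - c) z →
        ¬ InK V M (fun z => M.weierstrassP z - c') (mu * z) ∧
        V.valuation (κ * M.weierstrassP (mu * z) - L.weierstrassP z ^ q) < 1

/-- (TRA) the coordinate of a point of the kernel, when `μ` is not a unit.

Uses R2, R4. PROOF. `V_TRA.lean`. For `u, p` nonzero in the kernel, `p ≡ n u` (`cyc`), `q ∤ n`, `v n = 1`, so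
`v(tX p) = v(tX u)` (`v_tX_nat`) and `v(x p) = v(x u)` (`v_tX_lt`). (R4)(1). -/
def Sx_TRA : Prop :=
  ∀ (V : ValuationSubring ℂ) (L M : PeriodPair) (c c' mu : ℂ) (q : ℕ) (H : Finset ℂ),
    IsoV V L M c c' mu q H → V.valuation (q : ℂ) < 1 → V.valuation mu < 1 →
    ∀ u, mu * u ∈ M.lattice → u ∉ L.lattice →
      V.valuation mu * V.valuation (L.weierstrassP u - c) ^ ((q - 1) / 2) = 1

/-- (INJ) the kernel meets `K₁` trivially if `μ` is a unit.

Uses R4. PROOF. `V_INJ.lean`. If `v q = 1`: `q u ∈ L` (`ord`) and `mem_of_nat_mul`. If `v q < 1` and a nonzero `u` of the kernel is in `K₁`, then all points of the kernel are in `K₁` (`cyc`)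
and (R4)(1) says `∏ v(x p) = 1`, but `v(x p) > 1` for `p ∈ H`, `H` not empty (`q ≥ 3`). -/
def Sx_INJ : Prop :=
  ∀ (V : ValuationSubring ℂ) (L M : PeriodPair) (c c' mu : ℂ) (q : ℕ) (H : Finset ℂ),
    IsoV V L M c c' mu q H → V.valuation mu = 1 →
    ∀ u, mu * u ∈ M.lattice → InK V L (fun z => L.weierstrassP z - c) u → u ∈ L.lattice

/-- (MIN) multipliers are integral, for every kernel of odd order (composite degrees allowed).

Uses POL, Su_BAC, `VX.lean`. PROOF. Let `K₁ = {InK V L _}`, `n ≠ 0` with `n z ∈ L` for all `z` of the kernel (BAC); the kernel has no point of order two (`HalfI`: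
`z` in the kernel, `2 z ∈ L`, `z ∉ L` would be `≡ ± q`, `q ∈ H`), so we may take `n` odd (write `n = 2^a m`). Let `w₁, w₂` be incongruent points of order two of
`ℂ / L`. For `p ∈ H`: `w_i + p ∉ K₁`: otherwise `2 p ∈ K₁`, so `p = (n + 1)/2 * (2 p) - n p ∈ K₁`, `w_i ∈ K₁`, but `2 w_i ∈ L` and `v 2 = 1` (`mem_of_nat_mul`). So
the right side of (POL) has coefficients in `V`. The coefficient of `X^(2|H|)` on the left is `(e₂' - e₁') μ²`, `e₂' - e₁' = ℘_M(μ w₂) - ℘_M(μ w₁)` a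
unit (`v_X_sub` for `M`; `μ w₁`, `μ w₂`, `μ (w₁ ± w₂)` are of order two in `ℂ / M`, not in its kernel of reduction). So `v(μ)² ≤ 1`. -/
def Sx_MIN : Prop :=
  ∀ (V : ValuationSubring ℂ) (L M : PeriodPair) (c c' mu : ℂ) (H : Finset ℂ),
    (∃ (W : WeierstrassCurve.Affine ℂ) (ξ : ℂ →+ W.Point),
      GR V W L (fun z => L.weierstrassP z - c) (fun z => L.derivWeierstrassP z / 2) ξ) →
    (∃ (W : WeierstrassCurve.Affine ℂ) (ξ : ℂ →+ W.Point),
      GR V W M (fun z => M.weierstrassP z - c') (fun z => M.derivWeierstrassP z / 2) ξ) →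
    mu ≠ 0 → Isg L M mu → HalfI L M mu H → V.valuation mu ≤ 1

/-- (MUN) the multiplier of an isogeny of odd degree prime to the residue characteristic is a unit.

Uses MIN, HAL. PROOF. `v(μ) ≤ 1` by (HAL), (MIN) (the kernel is killed by the odd `n`, no point of order two). `n / μ` maps `M` into `L`
(`z = u/μ`, `u ∈ M`: `μ z ∈ M`, so `n z ∈ L`), and its kernel `{z : (n/μ) z ∈ L}` is killed by `n` modulo `M` (`n z = μ ((n/μ) z) ∈ μ L ⊆ M`). So `v(n/μ) ≤ 1`,
and `v(n) = 1`. -/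
def Sx_MUN : Prop :=
  ∀ (V : ValuationSubring ℂ) (L M : PeriodPair) (c c' mu : ℂ) (n : ℕ),
    (∃ (W : WeierstrassCurve.Affine ℂ) (ξ : ℂ →+ W.Point),
      GR V W L (fun z => L.weierstrassP z - c) (fun z => L.derivWeierstrassP z / 2) ξ) →
    (∃ (W : WeierstrassCurve.Affine ℂ) (ξ : ℂ →+ W.Point),
      GR V W M (fun z => M.weierstrassP z - c') (fun z => M.derivWeierstrassP z / 2) ξ) →
    mu ≠ 0 → Isg L M mu → Odd n → V.valuation (n : ℂ) = 1 →
    (∀ z, mu * z ∈ M.lattice → (n : ℂ) * z ∈ L.lattice) → V.valuation mu = 1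

/-- (MLT) when the multiplier is not a unit.

Uses MUN. PROOF. `a / μ` is the multiplier of an isogeny from `M` to `L` whose kernel is killed by the odd number `n`, so `v(a/μ) = 1` and
`v(μ) = v(a)`. (Application: `M = μ q⁻¹ L`, `q` a prime ideal of degree one below `V`, `a ∈ q`, `a = q c` with `c` of norm `n` prime to `2 q`.) -/
def Sx_MLT : Prop :=
  ∀ (V : ValuationSubring ℂ) (L M : PeriodPair) (c c' mu a : ℂ) (n : ℕ),
    (∃ (W : WeierstrassCurve.Affine ℂ) (ξ : ℂ →+ W.Point),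
      GR V W L (fun z => L.weierstrassP z - c) (fun z => L.derivWeierstrassP z / 2) ξ) →
    (∃ (W : WeierstrassCurve.Affine ℂ) (ξ : ℂ →+ W.Point),
      GR V W M (fun z => M.weierstrassP z - c') (fun z => M.derivWeierstrassP z / 2) ξ) →
    mu ≠ 0 → a ≠ 0 → Isg M L (a / mu) → Odd n → V.valuation (n : ℂ) = 1 →
    (∀ z, a / mu * z ∈ L.lattice → (n : ℂ) * z ∈ M.lattice) → V.valuation mu = V.valuation a

/-! ### Normalised lattices (`g₂ = -18 g₃`, `x = ℘ - 1/12`, `κ = (12 g₂ - 1)/1728`) -/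

/-- the curve `y² = x³ - (g₂/4) x - g₃/4` in the coordinate `x - c` -/
def WS (L : PeriodPair) (c : ℂ) : WeierstrassCurve.Affine ℂ :=
  ⟨0, 3 * c, 0, 3 * c ^ 2 - L.g₂ / 4, c ^ 3 - L.g₂ / 4 * c - L.g₃ / 4⟩

/-- `κ = (12 g₂ - 1)/1728` -/
def kp (L : PeriodPair) : ℂ := (12 * L.g₂ - 1) / 1728

/-- (XIC) the group isomorphism in the coordinate `℘ - c`.

PROOF. As `U_XIL.lean` (`Su_XIL`, the case `c = 0`), or `A_EQN.lean`, `A_LAW.lean`, `A_XI.lean` of `Pool/Agent/MU3/` (there `c = a₂/3`). -/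
def Sx_XIC : Prop :=
  ∀ (L : PeriodPair) (c : ℂ), ∃ ξ : ℂ →+ (WS L c).Point, (∀ z, ξ z = 0 ↔ z ∈ L.lattice) ∧
    Function.Surjective ξ ∧
    ∀ z, z ∉ L.lattice → ∃ h, ξ z = .some (L.weierstrassP z - c) (L.derivWeierstrassP z / 2) h

/-- (NGR) a normalised lattice has good reduction where `2`, `κ` and `12 g₂ = 1 + 1728 κ` are units.

Uses XIC. PROOF. `W = WS L (1/12)`: `a₂ = 1/4`, `a₄ = -36κ`, `a₆ = -κ`, `Δ = κ (1 + 1728 κ)²` up to sign (`b₂ = 1`, `b₄ = -72κ`, `b₆ = -4κ`,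
`b₈ = -κ - (36κ)²`; `ring`). -/
def Sx_NGR : Prop :=
  ∀ (V : ValuationSubring ℂ) (L : PeriodPair), L.g₂ = -18 * L.g₃ →
    V.valuation 2 = 1 → V.valuation (kp L) = 1 → V.valuation (12 * L.g₂) = 1 →
    ∃ (W : WeierstrassCurve.Affine ℂ) (ξ : ℂ →+ W.Point),
      GR V W L (fun z => L.weierstrassP z - 1 / 12) (fun z => L.derivWeierstrassP z / 2) ξ

/-- (FRN) normalised lattices: the Frobenius congruence.

Uses R5. PROOF. `q ≠ 2, 3`. (R5) with `c = c' = 1/12` (`12` is a unit). `g₂ = -18 g₃` for `L` and `M`, `12 g₂` is a unit for both, so all four numbers `g₂`, `g₃` are units.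
`(g₂(L)/4)^q = (-18)^q (g₃(L)/4)^q ≡ -18 κ³ g₃(M)/4 = κ³ g₂(M)/4` (`κ` of (R5)), and it is `≡ κ² g₂(M)/4`: `κ ≡ 1`. (Fermat: `n^q ≡ n` modulo `q` for integers,
`(1/12)^q ≡ 1/12`, `(1/4)^q ≡ 1/4`.) So `℘_M(μ z) ≡ ℘_L(z)^q`, and `g₂(L)^q ≡ g₂(M)`, `kp = (12 g₂ - 1)/1728`. -/
def Sx_FRN : Prop :=
  ∀ (V : ValuationSubring ℂ) (L M : PeriodPair) (mu : ℂ) (q : ℕ) (H : Finset ℂ),
    IsoV V L M (1 / 12) (1 / 12) mu q H → V.valuation 3 = 1 → V.valuation (q : ℂ) < 1 →
    V.valuation mu < 1 → L.g₂ = -18 * L.g₃ → M.g₂ = -18 * M.g₃ →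
    V.valuation (12 * L.g₂) = 1 → V.valuation (12 * M.g₂) = 1 →
    V.valuation (kp M - kp L ^ q) < 1 ∧
    ∀ z, ¬ InK V L (fun z => L.weierstrassP z - 1 / 12) z →
      ¬ InK V M (fun z => M.weierstrassP z - 1 / 12) (mu * z) ∧
      V.valuation ((M.weierstrassP (mu * z) - 1 / 12) - (L.weierstrassP z - 1 / 12) ^ q) < 1

end

end Pool.Agent.MUXV


end

section

/-!
# MUX, block R, part 2: the isogenies `ℂ/L → ℂ/M`, `M = μ 𝔮⁻¹ L`, for a prime ideal `𝔮` of degree one (helper59)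

`O = OO A B` the ring of integers of an imaginary quadratic field (`CQ A B`), `L` a lattice with `O L ⊆ L` (`CMO A B L`), `𝔮` an ideal with `q`
elements in `O/𝔮`, `q` a prime number; `IsQr 𝔮 L M μ`: `M = μ 𝔮⁻¹ L`. Every `def Sq_X : Prop` is the statement of a module, which proves
`theorem tq_X (h : ..) .. : Sq_X` in `Pool/Agent/MUX/Q_X.lean`, namespace `Pool.Agent.MUXV`.
-/

set_option autoImplicit false

open WeierstrassCurve Polynomial

namespace Pool.Agent.MUXV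

open _root_.MU3 _root_.Pool.Agent.MU3A _root_.Pool.Agent.MU3B _root_.Pool.Agent.MUXU
open _root_.Pool.Agent.MUXF (CQ)

noncomputable section

/-- `O L ⊆ L` -/
def CMO (A B : ℤ) (L : PeriodPair) : Prop :=
  ∀ (x : OO A B) (z : ℂ), z ∈ L.lattice → emb x * z ∈ L.lattice

/-- `M = μ 𝔮⁻¹ L` -/
def IsQr {A B : ℤ} (Q : Ideal (OO A B)) (L M : PeriodPair) (mu : ℂ) : Prop :=
  mu ≠ 0 ∧ ∀ z : ℂ, mu * z ∈ M.lattice ↔ ∀ x ∈ Q, emb x * z ∈ L.lattice

/-- `V` lies above `𝔮` -/
def Ovr {A B : ℤ} (Q : Ideal (OO A B)) (V : ValuationSubring ℂ) : Prop :=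
  ∀ x ∈ Q, V.valuation (emb x) < 1

/-- (EMB) elementary facts on `O`.

PROOF. As the lemmas of `ADefs.lean`, `XDefs.lean` (with `wC_sq`: `wC² = A + B wC`); `B ∈ {0, 1}`, `B² + 4A < 0`. -/
def Sq_EMB : Prop :=
  ∀ A B : ℤ, CQ A B → (∀ x y : OO A B, emb (x * y) = emb x * emb y) ∧
    (∀ x y : OO A B, emb (x + y) = emb x + emb y) ∧ (∀ x y : OO A B, emb (x - y) = emb x - emb y) ∧
    (∀ n : ℤ, emb (n : OO A B) = n) ∧ (∀ n : ℕ, emb (n : OO A B) = n) ∧
    (∀ x y : OO A B, emb x = emb y → x = y) ∧ wC A B ^ 2 = A + B * wC A B ∧ 0 < (wC A B).im ∧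
    (∀ x : OO A B, x * star x = ((nm x : ℤ) : OO A B)) ∧
    (∀ x y : OO A B, nm (x * y) = nm x * nm y) ∧ (∀ x : OO A B, 0 ≤ nm x) ∧
    (∀ x : OO A B, nm x = 0 ↔ x = 0) ∧ IsDomain (OO A B)

/-- (DGI) an ideal of prime norm `q`.

PROOF. `O/𝔮` has `q` elements, `q` prime, so it is generated by `1` as a group and `q = 0` in it: `w ≡ r` for an integer `r`. `x = a + b w ∈ 𝔮` iff
`a + b r ≡ 0` modulo `q` (an integer `n ∈ 𝔮` is divisible by `q`: otherwise `1 ∈ 𝔮`). `w² = A + B w` gives `r² - B r - A ≡ 0`. -/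
def Sq_DGI : Prop :=
  ∀ (A B : ℤ) (Q : Ideal (OO A B)) (q : ℕ), q.Prime → Nat.card (OO A B ⧸ Q) = q →
    ∃ r : ℤ, (q : ℤ) ∣ r ^ 2 - B * r - A ∧ ∀ x : OO A B, x ∈ Q ↔ (q : ℤ) ∣ x.re + x.im * r

/-- (DGL) the ideal generated by an element of prime norm.

PROOF. `lam = a + b w`, `q = nm lam = a² + B a b - A b²`; `q ∤ b` (otherwise `q ∣ a`, `q² ∣ q`). `O/lam` is generated by `1` as a group (`V_DEG1.lean` of MU3: for every `x` there is
an integer `n` with `lam ∣ x - n`), and `lam ∣ n` iff `q ∣ n`: so `ℤ/q ≅ O/lam` (`WK3.card_quot`). -/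
def Sq_DGL : Prop :=
  ∀ (A B : ℤ), CQ A B → ∀ (lam : OO A B) (q : ℕ), q.Prime → nm lam = q →
    Nat.card (OO A B ⧸ Ideal.span {lam}) = q ∧ (Ideal.span {lam} : Ideal (OO A B)).IsMaximal ∧
    (∀ x : OO A B, ∃ n : ℤ, lam ∣ x - n) ∧ lam ∣ (q : OO A B) ∧
      ∀ n : ℤ, lam ∣ (n : OO A B) → (q : ℤ) ∣ n

/-- (TRC) a multiplier `(x + y w)/n` of a lattice: its trace is an integer.

PROOF. `α L ⊆ L`, `α = (a + b w)/n` with integers, `b ≠ 0`, `n ≠ 0`. `α ω₁ = p ω₁ + s ω₂`, `α ω₂ = t ω₁ + u ω₂` with integers: `α` is a root of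
`X² - (p + u) X + (p u - s t)` (determinant of `(p - α, s; t, u - α)`, which kills `(ω₁, ω₂) ≠ 0`), and of `X² - ((2a + b B)/n) X + nm(a + b w)/n²`. Both have real coefficients
and `α` is not real, so (imaginary part of the difference, a real multiple of `α`) `p + u = (2 a + b B)/n`. -/
def Sq_TRC : Prop :=
  ∀ (A B : ℤ), CQ A B → ∀ (L : PeriodPair) (a b n : ℤ), n ≠ 0 → b ≠ 0 →
    (∀ z ∈ L.lattice, (a + b * wC A B) / n * z ∈ L.lattice) → n ∣ 2 * a + b * B

/-- (CYQ) the kernel of the isogeny is cyclic of order `q`.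

Uses DGI, TRC, EMB. PROOF. `q ∤ disc = B² + 4A`, `q` odd. (DGI): `r`; `𝔮 = {a + b w : q ∣ a + b r}` is generated by `q` and `w - r`, so the kernel `C = {z : μ z ∈ M}` is
`{z : q z ∈ L, (w - r) z ∈ L}` (`w - r ∈ 𝔮`; if `a + b r = q c` then `a + b w = q c + b (w - r)`). Let `r' = B - r`. `(w - r)(w - r') = -(r² - B r - A) ∈ q ℤ`. (i) `C ≠ L`: otherwise for every `z` with
`q z ∈ L` the point `(w - r') z` is in `C` (`(w - r)(w - r') z ∈ ℤ q z`), so in `L`; so `(w - r')/q` maps `L` into `L` and (TRC) gives `q ∣ 2 r' - B`, up to sign; but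
`(2 r' - B)² ≡ B² + 4A` modulo `q`, a contradiction. (ii) Let `u, u₁ ∈ C`, `u₁ ∉ L`, and suppose `u - n u₁ ∉ L` for all integers `n`. Then `u₁`, `u` generate `{z : q z ∈ L}` modulo `L`
(a group of order `q²`, isomorphic to `(ℤ/q)²`; the classes `i u + j u₁`, `0 ≤ i, j < q`, are `q²` different ones), so `C` contains all `z` with `q z ∈ L`, and `(w - r)/q` maps `L` into `L`: contradiction as in (i).
(iii) `u₁ ∈ C ∖ L`: `H = {j u₁ : 1 ≤ j ≤ (q-1)/2}` is a half system (`q u₁ ∈ L`, `j u₁ ∈ L` iff `q ∣ j`). -/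
def Sq_CYQ : Prop :=
  ∀ (A B : ℤ), CQ A B → ∀ (Q : Ideal (OO A B)) (q : ℕ), q.Prime → q ≠ 2 →
    ¬ (q : ℤ) ∣ B ^ 2 + 4 * A → Nat.card (OO A B ⧸ Q) = q → ∀ (L M : PeriodPair) (mu : ℂ),
    CMO A B L → IsQr Q L M mu → Isg L M mu ∧
    (∀ u u₁ : ℂ, mu * u ∈ M.lattice → mu * u₁ ∈ M.lattice → u₁ ∉ L.lattice →
      ∃ n : ℤ, u - n * u₁ ∈ L.lattice) ∧ (∀ u : ℂ, mu * u ∈ M.lattice → q * u ∈ L.lattice) ∧
    ∃ H : Finset ℂ, HalfI L M mu H ∧ 2 * H.card + 1 = q

/-- (AEL) an element `a` of `𝔮` with `a 𝔮⁻¹` of odd norm `c` prime to `q`.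

Uses DGI, EMB. PROOF. (DGI): `r`. `g(x) = x² - 2 B x - 4 A = nm(x - 2 w)`. For `x ≡ 2 r` modulo `q`, `x - 2 w ∈ 𝔮` and `q ∣ g(x)` (`g(2r) = 4 (r² - B r - A)`); for odd `x` `g(x)` is odd. Let `x₀` be odd, `≡ 2 r` modulo `q`,
`g(x₀ + 2 q) ≡ g(x₀) + 2 q (2 x₀ - 2 B)` modulo `q²`, and `2 x₀ - 2 B ≡ 2 (2 r - B)` is prime to `q` (`(2r - B)² ≡ B² + 4A`): so one of `g(x₀)`, `g(x₀ + 2q)` is not divisible by `q²`. `a = x - 2 w`, `c = nm a/q > 0`. Let `emb a * z ∈ L`, `y ∈ 𝔮`: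
`y * star a ∈ q O` (`y = y₁ + y₂ w`, `y₁ + y₂ r ≡ 0`, `star a = (x - 2B) + 2 w`, `≡ 2 (w - (B - r))`, `y ≡ y₂ (w - r)`, and `(w - r)(w - (B - r)) ∈ q ℤ`): `y * star a = q t`, so `y c = y a (star a)/q = a t` and
`emb y * (c z) = emb t * (emb a * z) ∈ L`. -/
def Sq_AEL : Prop :=
  ∀ (A B : ℤ), CQ A B → ∀ (Q : Ideal (OO A B)) (q : ℕ), q.Prime → q ≠ 2 →
    ¬ (q : ℤ) ∣ B ^ 2 + 4 * A → Nat.card (OO A B ⧸ Q) = q →
    ∃ (a : OO A B) (c : ℕ), a ∈ Q ∧ a ≠ 0 ∧ Odd c ∧ ¬ q ∣ c ∧ ∀ (L : PeriodPair), CMO A B L → ∀ z : ℂ,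
      emb a * z ∈ L.lattice → ∀ y ∈ Q, emb y * (c * z) ∈ L.lattice

/-- (VQI) `𝔮` below `V`: the integers at `V`.

Uses DGI, EMB. PROOF. `q ∈ 𝔮`. An integer prime to `q`: `x s + y q = 1`. `v(emb x) ≤ 1`: `emb x` is integral over `ℤ` (a root of `X² - (2 x.re + B x.im) X + nm x`). If `x ∉ 𝔮`: there is `y` with
`x y - 1 ∈ 𝔮` (`O/𝔮` is a field). -/
def Sq_VQI : Prop :=
  ∀ (A B : ℤ), CQ A B → ∀ V : ValuationSubring ℂ, (∀ x : OO A B, V.valuation (emb x) ≤ 1) ∧
    ∀ (Q : Ideal (OO A B)) (q : ℕ), q.Prime → Nat.card (OO A B ⧸ Q) = q → Ovr Q V →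
      V.valuation (q : ℂ) < 1 ∧ (∀ s : ℤ, ¬ (q : ℤ) ∣ s → V.valuation (s : ℂ) = 1) ∧
      ∀ x : OO A B, x ∉ Q → V.valuation (emb x) = 1

/-- (ISQ) the multiplier at `V` above `𝔮` and at `V` above a different prime; the isogeny as `IsoV`.

Uses CYQ, AEL, VQI, MLT, MUN, EMB. PROOF. `IsoV`: (CYQ). (1) `V` above `𝔮`: (AEL) gives `a`, `c`; `Isg M L (a/μ)`: `z ∈ M`, `z = μ z'`, `𝔮 z' ⊆ L`, so `(a/μ) z = a z' ∈ L`; and `(a/μ) z ∈ L` gives `𝔮 c z' ⊆ L` (AEL),
`c z = μ (c z') ∈ M`. (MLT): `v μ = v(emb a) < 1`. (2) `v q = 1`: (MUN) with `n = q` (`q z ∈ L` on the kernel). -/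
def Sq_ISQ : Prop :=
  ∀ (A B : ℤ), CQ A B → ∀ (Q : Ideal (OO A B)) (q : ℕ), q.Prime → q ≠ 2 →
    ¬ (q : ℤ) ∣ B ^ 2 + 4 * A → Nat.card (OO A B ⧸ Q) = q → ∀ (L M : PeriodPair) (c c' mu : ℂ),
    CMO A B L → IsQr Q L M mu → ∀ V : ValuationSubring ℂ,
    (∃ (W : WeierstrassCurve.Affine ℂ) (ξ : ℂ →+ W.Point),
      GR V W L (fun z => L.weierstrassP z - c) (fun z => L.derivWeierstrassP z / 2) ξ) →
    (∃ (W : WeierstrassCurve.Affine ℂ) (ξ : ℂ →+ W.Point),
      GR V W M (fun z => M.weierstrassP z - c') (fun z => M.derivWeierstrassP z / 2) ξ) →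
    (∃ H : Finset ℂ, IsoV V L M c c' mu q H) ∧ (Ovr Q V → V.valuation mu < 1) ∧
    (V.valuation (q : ℂ) = 1 → V.valuation mu = 1)

/-- (FRX) the Frobenius congruence for a prime ideal of degree one (PAPER_X, section 2, (FROB)).

Uses NGR, FRN, ISQ, VQI. PROOF. Good reduction: (NGR). `v 2 = v 3 = 1`. (ISQ): `IsoV`, `v μ < 1`. (FRN). -/
def Sq_FRX : Prop :=
  ∀ (A B : ℤ), CQ A B → ∀ (Q : Ideal (OO A B)) (q : ℕ), q.Prime → q ≠ 2 → q ≠ 3 →
    ¬ (q : ℤ) ∣ B ^ 2 + 4 * A → Nat.card (OO A B ⧸ Q) = q → ∀ (L M : PeriodPair) (mu : ℂ),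
    CMO A B L → IsQr Q L M mu → L.g₂ = -18 * L.g₃ → M.g₂ = -18 * M.g₃ →
    ∀ V : ValuationSubring ℂ, Ovr Q V → V.valuation (kp L) = 1 → V.valuation (12 * L.g₂) = 1 →
    V.valuation (kp M) = 1 → V.valuation (12 * M.g₂) = 1 →
    V.valuation (kp M - kp L ^ q) < 1 ∧
    ∀ z, ¬ InK V L (fun z => L.weierstrassP z - 1 / 12) z →
      ¬ InK V M (fun z => M.weierstrassP z - 1 / 12) (mu * z) ∧
      V.valuation ((M.weierstrassP (mu * z) - 1 / 12) - (L.weierstrassP z - 1 / 12) ^ q) < 1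

/-- (ALU) a nonzero algebraic number is a unit outside finitely many primes.

PROOF. There are natural numbers `n₁, n₂ ≠ 0` with `n₁ α` and `n₂ α⁻¹` integral over `ℤ` (`IsAlgebraic.exists_integral_multiple` or similar, `ℚ` and `ℤ`). `n = n₁ n₂`. If `v n = 1` then `v n₁ = v n₂ = 1` (both are `≤ 1`), so `v α ≤ 1`, `v α⁻¹ ≤ 1`
(a valuation ring contains the integral elements). -/
def Sq_ALU : Prop :=
  ∀ x : ℂ, IsAlgebraic ℚ x → x ≠ 0 → ∃ n : ℕ, n ≠ 0 ∧ ∀ V : ValuationSubring ℂ,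
    V.valuation (n : ℂ) = 1 → V.valuation x = 1

/-- (THU) `Θ_a` is a unit, and depends only on the reduction.

PROOF. `W_THU.lean` of MU3, with `GR` in place of `IsXi`. -/
def Sq_THU : Prop :=
  ∀ (V : ValuationSubring ℂ) (L : PeriodPair) (c : ℂ) (W : WeierstrassCurve.Affine ℂ)
    (ξ : ℂ →+ W.Point),
    GR V W L (fun z => L.weierstrassP z - c) (fun z => L.derivWeierstrassP z / 2) ξ →
    ∀ (a : ℤ) (H : Finset ℂ), V.valuation (a : ℂ) = 1 → IsHalf L a H →
    (∀ z, ¬ InK V L (fun z => L.weierstrassP z - c) (a * z) →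
      V.valuation (ThetaH L H z) = 1) ∧
    ∀ z r, ¬ InK V L (fun z => L.weierstrassP z - c) z →
      InK V L (fun z => L.weierstrassP z - c) r → V.valuation (ThetaH L H z) ≤ 1 ∧
      V.valuation (ThetaH L H (z + r) - ThetaH L H z) < 1

/-- (YUN) the second coordinate is a unit unless `2 z` is in the kernel of reduction; differences of first
coordinates.

Uses `VX.lean`, `VRed.v_y_unit`. PROOF. First: `v_y_unit` for the point `ξ z`. Second: (near) `v(X(z+w) - X z - 2 Y z t(w)) ≤ v(t w)² < v(t w)`, `v(2 Y z) = 1`. -/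
def Sq_YUN : Prop :=
  ∀ (V : ValuationSubring ℂ) (W : WeierstrassCurve.Affine ℂ) (L : PeriodPair) (X Y : ℂ → ℂ)
    (ξ : ℂ →+ W.Point), GR V W L X Y ξ → ∀ z, ¬ InK V L X z → ¬ InK V L X (2 * z) →
      V.valuation (Y z) = 1 ∧ ∀ w, InK V L X w → w ∉ L.lattice →
        V.valuation (X (z + w) - X z) = V.valuation (tX X Y w)

/-- (TOR) torsion of order prime to the residue characteristic meets the kernel of reduction trivially.

Uses EMB, `VX.lean`. PROOF. `star m * m = nm m` is a natural number `n`, `n z ∈ L`: `mem_of_nat_mul`. -/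
def Sq_TOR : Prop :=
  ∀ (A B : ℤ), CQ A B → ∀ (V : ValuationSubring ℂ) (W : WeierstrassCurve.Affine ℂ)
    (L : PeriodPair) (X Y : ℂ → ℂ) (ξ : ℂ →+ W.Point), GR V W L X Y ξ → CMO A B L →
    ∀ m : OO A B, V.valuation ((nm m : ℤ) : ℂ) = 1 → ∀ z, emb m * z ∈ L.lattice →
      InK V L X z → z ∈ L.lattice

end

end Pool.Agent.MUXV


end

section

/-!
# MUX, block R, module NGR: a normalised lattice has good reduction where `2`, `κ`, `12 g₂` are units
-/

set_option autoImplicit false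

open WeierstrassCurve Polynomial

namespace Pool.Agent.MUXV

open _root_.Pool.Agent.MU3B _root_.Pool.Agent.MUXU _root_.Pool.Agent.MU3.Val

noncomputable section

theorem tx_NGR (h : Sx_XIC) : Sx_NGR := by
  intro V L hg h2 hk h12
  obtain ⟨ξ, h0, -, h1⟩ := h L (1 / 12)
  have hk' : 12 * L.g₂ = 1 + 1728 * kp L := by
    unfold kp; ring
  have hg2 : L.g₂ = (1 + 1728 * kp L) / 12 := by linear_combination hk' / 12
  have hg3 : L.g₃ = -(1 + 1728 * kp L) / 216 := by
    linear_combination (1 / 18 : ℂ) * hg - (1 / 18 : ℂ) * hg2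
  have ha4 : (WS L (1 / 12)).a₄ = -((36 : ℕ) : ℂ) * kp L := by
    show 3 * (1 / 12 : ℂ) ^ 2 - L.g₂ / 4 = _
    rw [hg2]; push_cast; ring
  have ha6 : (WS L (1 / 12)).a₆ = -kp L := by
    show (1 / 12 : ℂ) ^ 3 - L.g₂ / 4 * (1 / 12) - L.g₃ / 4 = _
    rw [hg2, hg3]; ring
  have ha2 : (WS L (1 / 12)).a₂ = 1 / 2 * (1 / 2) := by
    show 3 * (1 / 12 : ℂ) = _
    ring
  have hn : ∀ n : ℕ, V.valuation (n : ℂ) ≤ 1 := fun n =>
    (ValuationSubring.valuation_le_one_iff _ _).2 (natCast_mem V n)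
  refine ⟨WS L (1 / 12), ξ, ⟨rfl, rfl, ?_, ?_, ?_⟩, h2, ?_, fun z hz => h1 z hz, fun z hz => (h0 z).2 hz⟩
  · rw [ha2, map_mul, map_div₀, h2, map_one]; simp
  · rw [ha4, map_mul, Valuation.map_neg, hk, mul_one]; exact hn 36
  · rw [ha6, Valuation.map_neg, hk]
  · have : (WS L (1 / 12)).Δ = kp L * (12 * L.g₂) ^ 2 := by
      unfold WeierstrassCurve.Δ WeierstrassCurve.b₂ WeierstrassCurve.b₄ WeierstrassCurve.b₆ WeierstrassCurve.b₈
      rw [ha4, ha6, ha2, hk']
      show _ = _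
      have e1 : (WS L (1 / 12)).a₁ = 0 := rfl
      have e3 : (WS L (1 / 12)).a₃ = 0 := rfl
      rw [e1, e3]
      push_cast
      ring
    rw [this, map_mul, map_pow, hk, h12]; simp

end

end Pool.Agent.MUXV


end

section

/-!
# MUX, block R, module YUN: the second coordinate is a unit (helper79)
-/

set_option autoImplicit false

open WeierstrassCurve Polynomial

namespace Pool.Agent.MUXV

open _root_.MU3 _root_.Pool.Agent.MU3A _root_.Pool.Agent.MU3B _root_.Pool.Agent.MUXU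
open _root_.Pool.Agent.MUXF (CQ)
open _root_.Pool.Agent.MU3.Val

noncomputable section

theorem tq_YUN : Sq_YUN := by
  intro V W L X Y ξ hG z hz h2z
  have hY : V.valuation (Y z) = 1 := by
    obtain ⟨h3, e3⟩ := hG.some z (int_X hz).1
    have hE := hz
    rw [← inE_iff hG, e3] at hE
    have h2E := h2z
    rw [← inE_iff hG, two_mul, map_add, e3] at h2E
    exact v_y_unit hG.int hG.two hG.disc h3 hE h2E
  refine ⟨hY, fun w hw hwL => ?_⟩
  obtain ⟨-, h4, -, -⟩ := near hG hz hw hwL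
  obtain ⟨h5, h6, -⟩ := v_tX_lt hG hw hwL
  have h7 : V.valuation (2 * Y z * tX X Y w) = V.valuation (tX X Y w) := by
    rw [map_mul, map_mul, hG.two, hY, one_mul, one_mul]
  have h8 : V.valuation (X (z + w) - X z - 2 * Y z * tX X Y w) <
      V.valuation (2 * Y z * tX X Y w) := by
    rw [h7]
    refine lt_of_le_of_lt h4 ?_
    rw [pow_two]
    exact mul_lt_of_lt_one_right (zero_lt_iff.2 h6) h5
  have e : X (z + w) - X z = 2 * Y z * tX X Y w + (X (z + w) - X z - 2 * Y z * tX X Y w) := by ring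
  rw [e, V.valuation.map_add_eq_of_lt_left h8, h7]

end

end Pool.Agent.MUXV


end

section

/-!
# MUX, block R part 2: (TRC), the trace of a multiplier
-/

set_option autoImplicit false

open WeierstrassCurve Polynomial

namespace Pool.Agent.MUXV

open _root_.MU3 _root_.Pool.Agent.MU3A _root_.Pool.Agent.MU3B _root_.Pool.Agent.MUXU
open _root_.Pool.Agent.MUXF (CQ)

theorem tq_TRC (h : Sq_EMB) : Sq_TRC := by
  intro A B hAB L a b n hn hb hL
  obtain ⟨-, -, -, -, -, -, hw, hwim, -⟩ := h A B hAB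
  set w : ℂ := wC A B with hwdef
  set α : ℂ := (a + b * w) / n with hα
  have hnC : (n : ℂ) ≠ 0 := by exact_mod_cast hn
  have h1 := hL L.ω₁ (PeriodPair.mem_lattice.2 ⟨1, 0, by simp⟩)
  have h2 := hL L.ω₂ (PeriodPair.mem_lattice.2 ⟨0, 1, by simp⟩)
  obtain ⟨p, s, h1⟩ := PeriodPair.mem_lattice.1 h1
  obtain ⟨t, u, h2⟩ := PeriodPair.mem_lattice.1 h2
  have hω : L.ω₁ ≠ 0 := by
    have := L.indep.ne_zero 0
    simpa using this
  -- the characteristic polynomial
  have hchar : α ^ 2 - (p + u) * α + (p * u - s * t) = 0 := by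
    have h3 : (α ^ 2 - (p + u) * α + (p * u - s * t)) * L.ω₁ = 0 := by
      linear_combination (u - α) * h1 - s * h2
    exact (mul_eq_zero.1 h3).resolve_right hω
  have hnα : (n : ℂ) * α = a + b * w := by
    rw [hα]
    field_simp
  have hnorm : (n : ℂ) ^ 2 * α ^ 2 - (2 * a + b * B) * (n * α) + (a ^ 2 + a * b * B - A * b ^ 2) = 0 := by
    have h3 : (n : ℂ) ^ 2 * α ^ 2 = (n * α) ^ 2 := by ring
    rw [h3, hnα]
    linear_combination (b : ℂ) ^ 2 * hw
  -- the difference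
  have hdiff : (((2 * a + b * B - n * (p + u) : ℤ) : ℝ) : ℂ) * (n * α) =
      (((a ^ 2 + a * b * B - A * b ^ 2 - n ^ 2 * (p * u - s * t) : ℤ) : ℝ) : ℂ) := by
    push_cast
    linear_combination (n : ℂ) ^ 2 * hchar - hnorm
  have him := congrArg Complex.im hdiff
  rw [Complex.im_ofReal_mul, Complex.ofReal_im, hnα] at him
  have him2 : ((a : ℂ) + b * w).im = b * w.im := by
    simp
  rw [him2] at him
  have hne : (b : ℝ) * w.im ≠ 0 := mul_ne_zero (by exact_mod_cast hb) hwim.ne'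
  have hz := (mul_eq_zero.1 him).resolve_right hne
  have hz' : 2 * a + b * B - n * (p + u) = 0 := by exact_mod_cast hz
  exact ⟨p + u, by linarith⟩

end Pool.Agent.MUXV


end

section

/-!
# MUX, block R, module DGL: the ideal generated by an element of prime norm   (helper50)
-/

set_option autoImplicit false

open WeierstrassCurve Polynomial

namespace Pool.Agent.MUXV

open _root_.MU3 _root_.Pool.Agent.MU3A _root_.Pool.Agent.MU3B _root_.Pool.Agent.MUXU
open _root_.Pool.Agent.MUXF (CQ)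

noncomputable section

namespace DGL

theorem nm_eq {A B : ℤ} (x : OO A B) : nm x = QuadraticAlgebra.norm x := by
  rw [QuadraticAlgebra.norm_def]
  unfold nm
  ring

theorem mul_conj {A B : ℤ} (lam : OO A B) :
    lam * (⟨lam.re + B * lam.im, -lam.im⟩ : OO A B) = ((nm lam : ℤ) : OO A B) := by
  ext
  · rw [QuadraticAlgebra.re_intCast, QuadraticAlgebra.re_mul, Int.cast_id]
    unfold nm
    ring
  · rw [QuadraticAlgebra.im_intCast, QuadraticAlgebra.im_mul]
    ring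

/-- residue classes modulo an element of prime norm -/
theorem deg1 {A B : ℤ} (lam : OO A B) (q : ℕ) (hq : q.Prime) (hn : nm lam = q) :
    (∀ x : OO A B, ∃ n : ℤ, lam ∣ x - n) ∧ lam ∣ (q : OO A B) ∧
      ∀ n : ℤ, lam ∣ (n : OO A B) → (q : ℤ) ∣ n := by
  have hqi : Prime (q : ℤ) := Nat.prime_iff_prime_int.1 hq
  have hdvd : lam ∣ (q : OO A B) := by
    have h0 := mul_conj lam
    rw [hn, Int.cast_natCast] at h0
    exact ⟨_, h0.symm⟩
  have hnm : lam.re ^ 2 + B * lam.re * lam.im - A * lam.im ^ 2 = q := hn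
  have him : ¬ (q : ℤ) ∣ lam.im := by
    rintro ⟨b, hb⟩
    have h1 : (q : ℤ) ∣ lam.re ^ 2 := by
      refine ⟨1 - B * lam.re * b + A * q * b ^ 2, ?_⟩
      rw [hb] at hnm
      linear_combination hnm
    obtain ⟨a, ha⟩ := hqi.dvd_of_dvd_pow h1
    rw [hb, ha] at hnm
    have h2 : (q : ℤ) ∣ 1 := by
      refine ⟨a ^ 2 + B * a * b - A * b ^ 2, ?_⟩
      have h3 : (q : ℤ) ≠ 0 := hqi.ne_zero
      apply mul_left_cancel₀ h3
      linear_combination -hnm
    exact hqi.not_isUnit (isUnit_of_dvd_one h2)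
  refine ⟨?_, hdvd, ?_⟩
  · intro x
    have hcop : IsCoprime lam.im (q : ℤ) := ((Prime.coprime_iff_not_dvd hqi).2 him).symm
    obtain ⟨b', c, hbc⟩ := hcop
    refine ⟨x.re - x.im * lam.re * b', ?_⟩
    obtain ⟨y, hy⟩ := hdvd
    have h1 : x - ((x.re - x.im * lam.re * b' : ℤ) : OO A B) =
        lam * ((x.im : OO A B) * ((b' : OO A B) + y * (c : OO A B) * ⟨0, 1⟩)) := by
      have h2 : lam * ((x.im : OO A B) * ((b' : OO A B) + y * (c : OO A B) * ⟨0, 1⟩)) =
          (x.im : OO A B) * ((b' : OO A B) * lam + (q : OO A B) * (c : OO A B) * ⟨0, 1⟩) := by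
        rw [hy]
        ring
      rw [h2]
      ext
      · simp
        ring
      · simp
        linear_combination (-x.im) * hbc
    exact ⟨_, h1⟩
  · intro n hdn
    have h1 : QuadraticAlgebra.norm lam ∣ QuadraticAlgebra.norm (n : OO A B) :=
      _root_.map_dvd QuadraticAlgebra.norm hdn
    rw [QuadraticAlgebra.norm_intCast, ← nm_eq, hn] at h1
    exact hqi.dvd_of_dvd_pow h1

/-- the residue ring -/
theorem equiv {A B : ℤ} (lam : OO A B) (q : ℕ) (hq : q.Prime) (hn : nm lam = q) :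
    Nonempty (ZMod q ≃+* (OO A B ⧸ Ideal.span {lam})) := by
  obtain ⟨h1, h2, h3⟩ := deg1 lam q hq hn
  have : NeZero q := ⟨hq.ne_zero⟩
  let f : ℤ →+* (OO A B ⧸ Ideal.span {lam}) := Int.castRingHom _
  have hf : ∀ n : ℤ, f n = Ideal.Quotient.mk (Ideal.span {lam}) (n : OO A B) := fun n => by
    simp only [f, eq_intCast, map_intCast]
  have hsurj : Function.Surjective f := by
    intro x
    obtain ⟨y, rfl⟩ := Ideal.Quotient.mk_surjective x
    obtain ⟨n, hn⟩ := h1 y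
    refine ⟨n, ?_⟩
    rw [hf, Ideal.Quotient.eq, Ideal.mem_span_singleton]
    have := dvd_neg.2 hn
    rwa [neg_sub] at this
  have hker : RingHom.ker f = Ideal.span {(q : ℤ)} := by
    ext n
    rw [RingHom.mem_ker, hf, Ideal.mem_span_singleton, Ideal.Quotient.eq_zero_iff_mem,
      Ideal.mem_span_singleton]
    constructor
    · exact h3 n
    · rintro ⟨c, rfl⟩
      push_cast
      exact dvd_mul_of_dvd_left h2 _
  exact ⟨(Int.quotientSpanNatEquivZMod q).symm.trans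
    ((Ideal.quotEquivOfEq hker.symm).trans (RingHom.quotientKerEquivOfSurjective hsurj))⟩

end DGL

theorem tq_DGL : Sq_DGL := by
  intro A B _ lam q hq hn
  obtain ⟨e⟩ := DGL.equiv lam q hq hn
  have : Fact q.Prime := ⟨hq⟩
  refine ⟨?_, ?_, DGL.deg1 lam q hq hn⟩
  · rw [← Nat.card_congr e.toEquiv, Nat.card_zmod]
  · apply Ideal.Quotient.maximal_of_isField
    exact e.symm.toMulEquiv.isField (Field.toIsField (ZMod q))

end

end Pool.Agent.MUXV


end

section

/-!
# MUX, block R part 2, module AEL (helper85)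
-/

set_option autoImplicit false

namespace Pool.Agent.MUXV

open _root_.MU3 _root_.Pool.Agent.MU3A _root_.Pool.Agent.MU3B _root_.Pool.Agent.MUXU
open _root_.Pool.Agent.MUXF (CQ)

namespace AEL

/-- the statement for a given `x = 2 r + q s` such that `q²` does not divide `nm (x - 2 w)` -/
theorem main (hEMB : Sq_EMB) (A B : ℤ) (hC : CQ A B) (Q : Ideal (OO A B)) (q : ℕ) (hq : q.Prime)
    (r k s : ℤ) (hk : r ^ 2 - B * r - A = q * k)
    (hmem : ∀ x : OO A B, x ∈ Q ↔ (q : ℤ) ∣ x.re + x.im * r) (x : ℤ) (hx : x = 2 * r + q * s)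
    (hodd : Odd x) (hn : ¬ ((q : ℤ) ^ 2 ∣ x ^ 2 - 2 * B * x - 4 * A)) :
    ∃ (a : OO A B) (c : ℕ), a ∈ Q ∧ a ≠ 0 ∧ Odd c ∧ ¬ q ∣ c ∧ ∀ (L : PeriodPair), CMO A B L →
      ∀ z : ℂ, emb a * z ∈ L.lattice → ∀ y ∈ Q, emb y * (c * z) ∈ L.lattice := by
  obtain ⟨h1, -, -, -, h5, -, -, -, -, -, h11, h12, -⟩ := hEMB A B hC
  have hq0 : (q : ℤ) ≠ 0 := by exact_mod_cast hq.ne_zero
  have hqpos : (0 : ℤ) < q := by exact_mod_cast hq.pos
  set a : OO A B := ⟨x, -2⟩ with ha
  have ha0 : a ≠ 0 := by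
    intro h
    have h2 : a.im = 0 := by rw [h]; rfl
    rw [ha] at h2
    norm_num at h2
  have hnm : nm a = x ^ 2 - 2 * B * x - 4 * A := by
    rw [ha]
    unfold nm
    ring
  have hpos : 0 < nm a := lt_of_le_of_ne (h11 a) (fun h => ha0 ((h12 a).mp h.symm))
  have hg : x ^ 2 - 2 * B * x - 4 * A = q * (4 * k + s * (4 * r - 2 * B + q * s)) := by
    rw [hx]
    linear_combination 4 * hk
  set c' : ℤ := 4 * k + s * (4 * r - 2 * B + q * s) with hc'
  have hc'pos : 0 < c' := by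
    rw [hnm, hg] at hpos
    exact pos_of_mul_pos_right hpos hqpos.le
  obtain ⟨c, hc⟩ : ∃ c : ℕ, (c : ℤ) = c' := ⟨c'.toNat, Int.toNat_of_nonneg hc'pos.le⟩
  refine ⟨a, c, ?_, ha0, ?_, ?_, ?_⟩
  · rw [hmem, ha]
    exact ⟨s, by rw [hx]; ring⟩
  · have h2 : Odd ((q : ℤ) * c) := by
      rw [hc, ← hg]
      obtain ⟨u, hu⟩ := hodd
      refine ⟨2 * u ^ 2 + 2 * u - B * x - 2 * A, ?_⟩
      rw [hu]
      ring
    have h3 := Int.Odd.of_mul_right h2
    exact_mod_cast h3
  · intro hd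
    apply hn
    rw [hg, ← hc, pow_two]
    exact mul_dvd_mul_left _ (by exact_mod_cast hd)
  · intro L hL z hz y hy
    obtain ⟨m, hm⟩ := (hmem y).mp hy
    set t : OO A B := ⟨m * (2 * r + q * s - 2 * B) - y.im * r * s - 2 * y.im * k, 2 * m + s * y.im⟩ with ht
    have e1 : (q : ℤ) * t.re = y.re * (x - 2 * B) + 2 * A * y.im := by
      rw [ht]
      simp only
      have : y.re = q * m - y.im * r := by linarith
      rw [this, hx]
      linear_combination (2 * y.im) * hk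
    have e2 : (q : ℤ) * t.im = 2 * y.re + x * y.im := by
      rw [ht]
      simp only
      have : y.re = q * m - y.im * r := by linarith
      rw [this, hx]
      ring
    have hgc : (q : ℤ) * c = x ^ 2 - 2 * B * x - 4 * A := by
      rw [hc, hg]
    have key : y * (c : OO A B) = t * a := by
      apply QuadraticAlgebra.ext
      · have : (q : ℤ) * (y * (c : OO A B)).re = q * (t * a).re := by
          simp only [QuadraticAlgebra.re_mul, QuadraticAlgebra.re_natCast, QuadraticAlgebra.im_natCast]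
          rw [ha]
          simp only
          linear_combination y.re * hgc - x * e1 + 2 * A * e2
        exact mul_left_cancel₀ hq0 this
      · have : (q : ℤ) * (y * (c : OO A B)).im = q * (t * a).im := by
          simp only [QuadraticAlgebra.im_mul, QuadraticAlgebra.re_natCast, QuadraticAlgebra.im_natCast]
          rw [ha]
          simp only
          linear_combination y.im * hgc + 2 * e1 - (x - 2 * B) * e2
        exact mul_left_cancel₀ hq0 this
    have e3 : emb y * (c * z) = emb t * (emb a * z) := by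
      have e4 : emb y * (c : ℂ) = emb t * emb a := by
        rw [← h5 c, ← h1, ← h1, key]
      linear_combination z * e4
    rw [e3]
    exact hL t _ hz

end AEL

theorem tq_AEL (hDGI : Sq_DGI) (hEMB : Sq_EMB) : Sq_AEL := by
  intro A B hC Q q hq hq2 hdisc hcard
  obtain ⟨r, ⟨k, hk⟩, hmem⟩ := hDGI A B Q q hq hcard
  have hqodd : Odd q := hq.odd_of_ne_two hq2
  have hqoddZ : Odd (q : ℤ) := by exact_mod_cast hqodd
  have hqp : Prime (q : ℤ) := Nat.prime_iff_prime_int.mp hq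
  have hq0 : (q : ℤ) ≠ 0 := hqp.ne_zero
  have hr : ¬ (q : ℤ) ∣ 2 * r - B := by
    intro h
    apply hdisc
    have e : B ^ 2 + 4 * A = (2 * r - B) * (2 * r - B) - q * (4 * k) := by
      linear_combination -4 * hk
    rw [e]
    exact dvd_sub (Dvd.dvd.mul_right h _) (Dvd.intro _ rfl)
  by_cases h0 : (q : ℤ) ^ 2 ∣ (2 * r + q * 1) ^ 2 - 2 * B * (2 * r + q * 1) - 4 * A
  · refine AEL.main hEMB A B hC Q q hq r k 3 hk hmem (2 * r + q * 3) rfl ?_ ?_
    · exact Even.add_odd (even_two_mul r) (hqoddZ.mul (by decide))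
    · intro h3
      have h4 := dvd_sub h3 h0
      have e : ((2 * r + q * 3) ^ 2 - 2 * B * (2 * r + q * 3) - 4 * A) -
          ((2 * r + q * 1) ^ 2 - 2 * B * (2 * r + q * 1) - 4 * A) =
          (q : ℤ) * (4 * (2 * r - B)) + (q : ℤ) ^ 2 * 8 := by
        ring
      rw [e] at h4
      have h5 : (q : ℤ) ^ 2 ∣ (q : ℤ) * (4 * (2 * r - B)) := (dvd_add_left (Dvd.intro _ rfl)).mp h4
      rw [pow_two] at h5
      have h6 : (q : ℤ) ∣ 4 * (2 * r - B) := (mul_dvd_mul_iff_left hq0).mp h5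
      rcases hqp.dvd_or_dvd h6 with h7 | h7
      · have h8 : (q : ℤ) ∣ 2 := by
          have : (4 : ℤ) = 2 * 2 := by norm_num
          rw [this] at h7
          rcases hqp.dvd_or_dvd h7 with h | h <;> exact h
        have h9 : q ∣ 2 := by exact_mod_cast h8
        exact hq2 ((Nat.prime_dvd_prime_iff_eq hq Nat.prime_two).mp h9)
      · exact hr h7
  · refine AEL.main hEMB A B hC Q q hq r k 1 hk hmem (2 * r + q * 1) rfl ?_ h0
    exact Even.add_odd (even_two_mul r) (hqoddZ.mul odd_one)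

end Pool.Agent.MUXV


end

section

/-!
# MUX, block R, TRA: the coordinate of a point of the kernel, when `μ` is not a unit
-/

set_option autoImplicit false

open WeierstrassCurve

namespace Pool.Agent.MUXV

open _root_.Pool.Agent.MU3B _root_.Pool.Agent.MUXU

noncomputable section

namespace TRA

theorem int_mem (V : ValuationSubring ℂ) (n : ℤ) : (n : ℂ) ∈ V := intCast_mem V n

/-- a natural number prime to `q` is a unit -/
theorem v_nat_one {V : ValuationSubring ℂ} {q : ℕ} (hq : q.Prime) (hv : V.valuation (q : ℂ) < 1)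
    {m : ℕ} (hm : ¬ q ∣ m) : V.valuation (m : ℂ) = 1 := by
  have hle : V.valuation (m : ℂ) ≤ 1 := by
    have := (ValuationSubring.valuation_le_one_iff V ((m : ℤ) : ℂ)).2 (int_mem V m)
    simpa using this
  refine le_antisymm hle ?_
  by_contra hc
  push Not at hc
  have h1 : IsCoprime (m : ℤ) (q : ℤ) :=
    Nat.isCoprime_iff_coprime.2 ((Nat.Prime.coprime_iff_not_dvd hq).2 hm).symm
  obtain ⟨a, b, hab⟩ := h1
  have h2 : (a : ℂ) * m + b * q = 1 := by exact_mod_cast hab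
  have h3 : V.valuation ((a : ℂ) * m + b * q) < 1 := by
    have ha : V.valuation (a : ℂ) ≤ 1 :=
      (ValuationSubring.valuation_le_one_iff _ _).2 (int_mem V a)
    have hb : V.valuation (b : ℂ) ≤ 1 :=
      (ValuationSubring.valuation_le_one_iff _ _).2 (int_mem V b)
    refine V.valuation.map_add_lt ?_ ?_
    · rw [map_mul]
      exact mul_lt_of_le_one_of_lt ha hc
    · rw [map_mul]
      exact mul_lt_of_le_one_of_lt hb hv
  rw [h2, map_one] at h3
  exact lt_irrefl _ h3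

section
variable {V : ValuationSubring ℂ} {W : WeierstrassCurve.Affine ℂ} {L : PeriodPair}
  {X Y : ℂ → ℂ} {ξ : ℂ →+ W.Point}

theorem tX_congr (G : GR V W L X Y ξ) {z w : ℂ}
    (hz : z ∉ L.lattice) (hw : w ∉ L.lattice) (hzw : z - w ∈ L.lattice) :
    tX X Y z = tX X Y w := by
  rw [← zc_xi G hz, ← zc_xi G hw]
  have h1 := G.zero _ hzw
  rw [map_sub, sub_eq_zero] at h1
  rw [h1]

end

end TRA

open _root_.Pool.Agent.MUXV.TRA in
/-- the coordinate of a point of the kernel, when `μ` is not a unit -/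
theorem tx_TRA (hR2 : Sx_R2) (hR4 : Sx_R4) : Sx_TRA := by
  intro V L M c c' mu q H I hv hmu u hu huL
  obtain ⟨W, ξ, G⟩ := I.redL
  have hq := I.prime
  have hin : ∀ u, mu * u ∈ M.lattice → InK V L (fun z => L.weierstrassP z - c) u :=
    fun u hu => hR2 V L M c c' mu q H I hmu u hu
  have h4 := (hR4 V L M c c' mu q H I hv hin).1
  have hu3 := v_tX_lt G (hin u hu) huL
  have hp : ∀ p ∈ H, V.valuation (L.weierstrassP p - c) = V.valuation (L.weierstrassP u - c) := by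
    intro p hp
    have hpL : p ∉ L.lattice := fun h0 => I.half.ne p hp (by
      rw [two_mul]
      exact add_mem h0 h0)
    have hpl := I.half.mem p hp
    obtain ⟨m, hm⟩ := I.cyc p u hpl hu huL
    have hqu := I.ord u hu
    have hq0 : (0 : ℤ) < q := by exact_mod_cast hq.pos
    obtain ⟨n, hn⟩ : ∃ n : ℕ, (n : ℤ) = m % q :=
      ⟨(m % q).toNat, Int.toNat_of_nonneg (Int.emod_nonneg _ hq0.ne')⟩
    have hmn : p - n * u ∈ L.lattice := by
      have e1 : (m : ℂ) = n + (q : ℂ) * (m / q : ℤ) := by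
        have e2 : m = n + q * (m / q) := by
          rw [hn]
          exact (Int.emod_add_mul_ediv m q).symm
        exact_mod_cast congrArg (Int.cast : ℤ → ℂ) e2
      have e3 : p - n * u = (p - m * u) + ((m / q : ℤ) : ℤ) • ((q : ℂ) * u) := by
        rw [e1, zsmul_eq_mul]
        ring
      rw [e3]
      exact add_mem hm (L.lattice.smul_mem _ hqu)
    have hnL : (n : ℂ) * u ∉ L.lattice := fun h0 => hpL (by
      have := add_mem hmn h0
      rwa [sub_add_cancel] at this)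
    have hqn : ¬ q ∣ n := by
      rintro ⟨k, rfl⟩
      apply hnL
      have e4 : ((q * k : ℕ) : ℂ) * u = (k : ℤ) • ((q : ℂ) * u) := by
        rw [zsmul_eq_mul]
        push_cast
        ring
      rw [e4]
      exact L.lattice.smul_mem _ hqu
    have h5 := v_tX_nat G (hin u hu) (v_nat_one hq hv hqn) huL hnL
    rw [← tX_congr G hpL hnL hmn] at h5
    have h6 := v_tX_lt G (hin p hpl) hpL
    have h7 := h6.2.2
    rw [h5] at h7
    have h8 : V.valuation (tX (fun z => L.weierstrassP z - c)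
        (fun z => L.derivWeierstrassP z / 2) u) ^ 2 ≠ 0 := pow_ne_zero 2 hu3.2.1
    exact mul_right_cancel₀ h8 (h7.trans hu3.2.2.symm)
  rw [Finset.prod_congr rfl hp, Finset.prod_const] at h4
  have h8 : (q - 1) / 2 = H.card := by
    have := I.card
    omega
  rw [h8]
  exact h4

end

end Pool.Agent.MUXV


end

section

/-!
# MUX, block R: module R4 (helper91; after helper18's V_R4)
-/

set_option autoImplicit false

open WeierstrassCurve Polynomial

namespace Pool.Agent.MUXV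

open _root_.Pool.Agent.MU3B _root_.Pool.Agent.MUXU

namespace R491

variable {V : ValuationSubring ℂ}

lemma mulc {a b c d : ℂ} (ha : V.valuation a ≤ 1) (hd : V.valuation d ≤ 1)
    (h1 : V.valuation (a - b) < 1) (h2 : V.valuation (c - d) < 1) :
    V.valuation (a * c - b * d) < 1 := by
  have e : a * c - b * d = a * (c - d) + (a - b) * d := by ring
  rw [e]
  refine V.valuation.map_add_lt ?_ ?_
  · rw [map_mul]
    exact lt_of_le_of_lt (mul_le_of_le_one_left' ha) h2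
  · rw [map_mul]
    exact lt_of_le_of_lt (mul_le_of_le_one_right' hd) h1

lemma prodc (S : Finset ℂ) (f : ℂ → ℂ) (y : ℂ) (hy : V.valuation y ≤ 1)
    (hf : ∀ p ∈ S, V.valuation (f p) ≤ 1) (h : ∀ p ∈ S, V.valuation (f p - y) < 1) :
    V.valuation (∏ p ∈ S, f p) ≤ 1 ∧ V.valuation (∏ p ∈ S, f p - y ^ S.card) < 1 := by
  classical
  induction S using Finset.induction_on with
  | empty => simp
  | insert a S ha ih =>
    obtain ⟨i1, i2⟩ := ih (fun p hp => hf p (Finset.mem_insert_of_mem hp))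
      (fun p hp => h p (Finset.mem_insert_of_mem hp))
    have ha1 := hf a (Finset.mem_insert_self a S)
    rw [Finset.prod_insert ha, Finset.card_insert_of_notMem ha, pow_succ']
    refine ⟨?_, mulc ha1 ?_ (h a (Finset.mem_insert_self a S)) i2⟩
    · rw [map_mul]
      exact mul_le_one' ha1 i1
    · rw [map_pow]
      exact pow_le_one' hy _

lemma frob {q : ℕ} (hq : q.Prime) (hv : V.valuation (q : ℂ) < 1) {a b : ℂ}
    (ha : V.valuation a ≤ 1) (hb : V.valuation b ≤ 1) :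
    V.valuation (a ^ q - b ^ q - (a - b) ^ q) < 1 := by
  obtain ⟨a', rfl⟩ : ∃ a' : V, (a' : ℂ) = a :=
    ⟨⟨a, (ValuationSubring.valuation_le_one_iff _ _).1 ha⟩, rfl⟩
  obtain ⟨b', rfl⟩ : ∃ b' : V, (b' : ℂ) = b :=
    ⟨⟨b, (ValuationSubring.valuation_le_one_iff _ _).1 hb⟩, rfl⟩
  obtain ⟨r, hr⟩ := exists_add_pow_prime_eq hq (a' - b') b'
  have h1 := congrArg (Subtype.val : V → ℂ) hr
  push_cast at h1
  have e : (a' : ℂ) ^ q - (b' : ℂ) ^ q - ((a' : ℂ) - b') ^ q =
      (q : ℂ) * (((a' - b') * b' * r : V) : ℂ) := by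
    push_cast
    have e2 : (a' : ℂ) - b' + b' = a' := by ring
    rw [e2] at h1
    linear_combination h1
  rw [e, map_mul]
  exact lt_of_le_of_lt (mul_le_of_le_one_right'
    ((ValuationSubring.valuation_le_one_iff _ _).2 ((a' - b') * b' * r : V).2)) hv

lemma eqone {a b : ℂ} (hb : V.valuation b = 1) (h : V.valuation (a - b) < 1) :
    V.valuation a = 1 := by
  have e : a = (a - b) + b := by ring
  rw [e, V.valuation.map_add_eq_of_lt_right (by rwa [hb]), hb]

/-- points of order two are not in the kernel of reduction -/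
lemma ord2 {W : WeierstrassCurve.Affine ℂ} {L : PeriodPair} {X Y : ℂ → ℂ} {ξ : ℂ →+ W.Point}
    (G : GR V W L X Y ξ) {w : ℂ} (hw : 2 * w ∈ L.lattice) (hwL : w ∉ L.lattice) :
    ¬ InK V L X w := by
  intro h
  exact hwL (mem_of_nat_mul G h (n := 2) (by simpa using G.two) (by simpa using hw))

lemma half_aux (L : PeriodPair) :
    (2 * (L.ω₁ / 2) ∈ L.lattice ∧ L.ω₁ / 2 ∉ L.lattice) ∧
    (2 * (L.ω₂ / 2) ∈ L.lattice ∧ L.ω₂ / 2 ∉ L.lattice) ∧
    (2 * (L.ω₂ / 2 + L.ω₁ / 2) ∈ L.lattice ∧ L.ω₂ / 2 + L.ω₁ / 2 ∉ L.lattice) ∧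
    (2 * (L.ω₂ / 2 - L.ω₁ / 2) ∈ L.lattice ∧ L.ω₂ / 2 - L.ω₁ / 2 ∉ L.lattice) := by
  have h1 := L.ω₁_mem_lattice
  have h2 := L.ω₂_mem_lattice
  refine ⟨⟨?_, L.ω₁_div_two_notMem_lattice⟩, ⟨?_, L.ω₂_div_two_notMem_lattice⟩, ⟨?_, ?_⟩, ⟨?_, ?_⟩⟩
  · rwa [mul_div_cancel₀ _ (two_ne_zero)]
  · rwa [mul_div_cancel₀ _ (two_ne_zero)]
  · have e : 2 * (L.ω₂ / 2 + L.ω₁ / 2) = L.ω₂ + L.ω₁ := by ring
    rw [e]
    exact add_mem h2 h1
  · have e : L.ω₂ / 2 + L.ω₁ / 2 = ((1 / 2 : ℚ) : ℂ) * L.ω₁ + ((1 / 2 : ℚ) : ℂ) * L.ω₂ := by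
      push_cast
      ring
    rw [e, PeriodPair.mul_ω₁_add_mul_ω₂_mem_lattice]
    norm_num
  · have e : 2 * (L.ω₂ / 2 - L.ω₁ / 2) = L.ω₂ - L.ω₁ := by ring
    rw [e]
    exact sub_mem h2 h1
  · have e : L.ω₂ / 2 - L.ω₁ / 2 = ((-1 / 2 : ℚ) : ℂ) * L.ω₁ + ((1 / 2 : ℚ) : ℂ) * L.ω₂ := by
      push_cast
      ring
    rw [e, PeriodPair.mul_ω₁_add_mul_ω₂_mem_lattice]
    norm_num

end R491

open _root_.Pool.Agent.MUXV.R491 in
theorem tx_R4 (hPOL : Sx_POL) : Sx_R4 := by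
  intro V L M c c' l q H hI hv hE
  obtain ⟨W, ξ, G⟩ := hI.redL
  obtain ⟨W', ξ', G'⟩ := hI.redM
  have hH := hI.half
  have hq := hI.prime
  have hcard := hI.card
  obtain ⟨hP1, -⟩ := hPOL L M c l H hI.mu_ne hI.sub hH
  -- points of order two
  have noL : ∀ w : ℂ, 2 * w ∈ L.lattice → w ∉ L.lattice → l * w ∉ M.lattice := by
    intro w hw hwL h
    obtain ⟨p, hp, h1⟩ := hH.surj w h hwL
    apply hH.ne p hp
    rcases h1 with h1 | h1
    · have h3 := L.lattice.sub_mem hw (L.lattice.add_mem h1 h1)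
      have e : 2 * w - (w - p + (w - p)) = 2 * p := by ring
      rwa [e] at h3
    · have h3 := L.lattice.sub_mem (L.lattice.add_mem h1 h1) hw
      have e : w + p + (w + p) - 2 * w = 2 * p := by ring
      rwa [e] at h3
  have ordl : ∀ w : ℂ, 2 * w ∈ L.lattice → 2 * (l * w) ∈ M.lattice := by
    intro w hw
    have h1 := hI.sub _ hw
    have e : l * (2 * w) = 2 * (l * w) := by ring
    rwa [e] at h1
  -- the third part
  have third : ∀ w : ℂ, 2 * w ∈ L.lattice → w ∉ L.lattice → ∀ x ∈ V,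
      V.valuation ((x - (L.weierstrassP w - c)) * (CI L c w H).eval x ^ 2 -
        (x - (L.weierstrassP w - c)) ^ q) < 1 := by
    intro w hw hwL x hx
    have hnE := ord2 G hw hwL
    have hx1 : V.valuation x ≤ 1 := (ValuationSubring.valuation_le_one_iff _ _).2 hx
    have hxw := (int_X hnE).2
    have hy : V.valuation (x - (L.weierstrassP w - c)) ≤ 1 := V.valuation.map_sub_le hx1 hxw
    have hCe : (CI L c w H).eval x = ∏ p ∈ H, (x - (L.weierstrassP (w + p) - c)) := by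
      rw [CI, eval_prod]
      simp
    obtain ⟨i1, i2⟩ := prodc (V := V) H (fun p => x - (L.weierstrassP (w + p) - c))
      (x - (L.weierstrassP w - c)) hy
      (fun p hp => by
        have h3 := (near G hnE (hE p (hH.mem p hp)) (fun h => hH.ne p hp (by
          rw [two_mul]
          exact L.lattice.add_mem h h))).1
        exact V.valuation.map_sub_le hx1 (int_X h3).2)
      (fun p hp => by
        have h3 := (near_lt G hnE (hE p (hH.mem p hp))).1
        have e : x - (L.weierstrassP (w + p) - c) - (x - (L.weierstrassP w - c)) =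
            -((L.weierstrassP (w + p) - c) - (L.weierstrassP w - c)) := by ring
        rw [e, Valuation.map_neg]
        exact h3)
    rw [← hCe] at i1 i2
    have hyc : V.valuation ((x - (L.weierstrassP w - c)) ^ H.card) ≤ 1 := by
      rw [map_pow]
      exact pow_le_one' hy _
    have h4 := mulc i1 hyc i2 i2
    have h5 := mulc (a := x - (L.weierstrassP w - c)) (b := x - (L.weierstrassP w - c)) hy
      (d := (x - (L.weierstrassP w - c)) ^ H.card * (x - (L.weierstrassP w - c)) ^ H.card) (by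
        rw [map_mul]
        exact mul_le_one' hyc hyc) (by rw [sub_self, map_zero]; exact zero_lt_one) h4
    have e1 : (x - (L.weierstrassP w - c)) * ((x - (L.weierstrassP w - c)) ^ H.card *
        (x - (L.weierstrassP w - c)) ^ H.card) = (x - (L.weierstrassP w - c)) ^ q := by
      rw [← hcard]
      ring
    rw [e1, ← pow_two] at h5
    exact h5
  -- the second part
  have second : ∀ w₁ w₂ : ℂ, 2 * w₁ ∈ L.lattice → w₁ ∉ L.lattice → 2 * w₂ ∈ L.lattice →
      w₂ ∉ L.lattice → ∀ x ∈ V,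
      V.valuation ((M.weierstrassP (l * w₂) - M.weierstrassP (l * w₁)) *
        (QI L c l H).eval x ^ 2 - (L.weierstrassP w₂ - L.weierstrassP w₁) ^ q) < 1 := by
    intro w₁ w₂ a1 a2 b1 b2 x hx
    have h3 := congrArg (fun f : ℂ[X] => f.eval x) (hP1 w₁ w₂ a1 a2 b1 b2)
    simp only [eval_mul, eval_sub, eval_C, eval_X, eval_pow] at h3
    have t1 := third w₁ a1 a2 x hx
    have t2 := third w₂ b1 b2 x hx
    have hx1 : V.valuation x ≤ 1 := (ValuationSubring.valuation_le_one_iff _ _).2 hx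
    have t3 := frob (V := V) hq hv (a := x - (L.weierstrassP w₁ - c))
      (b := x - (L.weierstrassP w₂ - c))
      (V.valuation.map_sub_le hx1 (int_X (ord2 G a1 a2)).2)
      (V.valuation.map_sub_le hx1 (int_X (ord2 G b1 b2)).2)
    have e2 : x - (L.weierstrassP w₁ - c) - (x - (L.weierstrassP w₂ - c)) =
        L.weierstrassP w₂ - L.weierstrassP w₁ := by ring
    rw [e2] at t3
    rw [h3]
    have e : (x - (L.weierstrassP w₁ - c)) * eval x (CI L c w₁ H) ^ 2 -
        (x - (L.weierstrassP w₂ - c)) * eval x (CI L c w₂ H) ^ 2 -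
          (L.weierstrassP w₂ - L.weierstrassP w₁) ^ q =
        ((x - (L.weierstrassP w₁ - c)) * eval x (CI L c w₁ H) ^ 2 -
          (x - (L.weierstrassP w₁ - c)) ^ q) +
        (-((x - (L.weierstrassP w₂ - c)) * eval x (CI L c w₂ H) ^ 2 -
          (x - (L.weierstrassP w₂ - c)) ^ q) +
        ((x - (L.weierstrassP w₁ - c)) ^ q - (x - (L.weierstrassP w₂ - c)) ^ q -
          (L.weierstrassP w₂ - L.weierstrassP w₁) ^ q)) := by
      ring
    rw [e]
    exact V.valuation.map_add_lt t1 (V.valuation.map_add_lt (by rwa [Valuation.map_neg]) t3)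
  refine ⟨?_, second, third⟩
  -- the first part
  obtain ⟨⟨a1, a2⟩, ⟨b1, b2⟩, ⟨c1, c2⟩, d1, d2⟩ := half_aux L
  generalize L.ω₁ / 2 = w₁ at a1 a2 c1 c2 d1 d2
  generalize L.ω₂ / 2 = w₂ at b1 b2 c1 c2 d1 d2
  have u1 : V.valuation (L.weierstrassP w₂ - L.weierstrassP w₁) = 1 := by
    have h := v_X_sub G (ord2 G b1 b2) (ord2 G a1 a2) (ord2 G c1 c2) (ord2 G d1 d2)
    have e : L.weierstrassP w₂ - c - (L.weierstrassP w₁ - c) =
        L.weierstrassP w₂ - L.weierstrassP w₁ := by ring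
    simp only [e] at h
    exact h
  have u2 : V.valuation (M.weierstrassP (l * w₂) - M.weierstrassP (l * w₁)) = 1 := by
    have h := v_X_sub G' (z := l * w₂) (w := l * w₁) (ord2 G' (ordl _ b1) (noL _ b1 b2))
      (ord2 G' (ordl _ a1) (noL _ a1 a2))
      (by
        rw [← mul_add]
        exact ord2 G' (ordl _ c1) (noL _ c1 c2))
      (by
        rw [← mul_sub]
        exact ord2 G' (ordl _ d1) (noL _ d1 d2))
    have e : M.weierstrassP (l * w₂) - c' - (M.weierstrassP (l * w₁) - c') =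
        M.weierstrassP (l * w₂) - M.weierstrassP (l * w₁) := by ring
    simp only [e] at h
    exact h
  have h3 := second w₁ w₂ a1 a2 b1 b2 0 (zero_mem V)
  have h4 := eqone (by rw [map_pow, u1, one_pow]) h3
  rw [map_mul, u2, one_mul, map_pow] at h4
  have h5 : V.valuation ((QI L c l H).eval 0) = 1 := (pow_eq_one_iff.1 h4).resolve_right two_ne_zero
  have h6 : (QI L c l H).eval 0 = l * ∏ p ∈ H, (-(L.weierstrassP p - c)) := by
    rw [QI, eval_mul, eval_C, eval_prod]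
    simp
  rw [h6, map_mul, map_prod] at h5
  simp only [Valuation.map_neg] at h5
  exact h5

end Pool.Agent.MUXV


end

section

/-!
# MUX, block R, module R2: the kernel of an isogeny is in the kernel of reduction if the multiplier is
not a unit (helper79; adapted from `Pool/Agent/MU3/V_R2.lean`)
-/

set_option autoImplicit false

open WeierstrassCurve Polynomial

namespace Pool.Agent.MUXV

open _root_.Pool.Agent.MU3B _root_.Pool.Agent.MUXU

noncomputable section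

namespace R2

/-- the element of `V` given by a complex number of `V` -/
def rV (V : ValuationSubring ℂ) (x : ℂ) : V := by
  classical
  exact if h : x ∈ V then ⟨x, h⟩ else 0

lemma rV_coe (V : ValuationSubring ℂ) {x : ℂ} (h : x ∈ V) : ((rV V x : V) : ℂ) = x := by
  unfold rV; rw [dif_pos h]

lemma lin (V : ValuationSubring ℂ) (s : Finset ℂ) (f : ℂ → ℂ) (hf : ∀ p ∈ s, f p ∈ V) :
    (∏ p ∈ s, (X - C (f p)) : ℂ[X]) =
      Polynomial.map V.subtype (∏ p ∈ s, (X - C (rV V (f p)))) := by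
  rw [Polynomial.map_prod]
  apply Finset.prod_congr rfl
  intro p hp
  rw [Polynomial.map_sub, Polynomial.map_X, Polynomial.map_C]
  simp [rV_coe V (hf p hp)]

lemma mult {κ : Type*} [Field κ] {a b : κ} (hab : a ≠ b) {P Q : κ[X]} (hP : P ≠ 0)
    (hQ : Q ≠ 0) (h : (X - C a) * P ^ 2 = (X - C b) * Q ^ 2) : False := by
  classical
  have h1 : rootMultiplicity a ((X - C a) * P ^ 2) = 1 + 2 * rootMultiplicity a P := by
    rw [rootMultiplicity_mul (mul_ne_zero (X_sub_C_ne_zero a) (pow_ne_zero 2 hP)), pow_two,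
      rootMultiplicity_mul (mul_ne_zero hP hP), rootMultiplicity_X_sub_C_self]
    ring
  have h2 : rootMultiplicity a ((X - C b) * Q ^ 2) = 2 * rootMultiplicity a Q := by
    rw [rootMultiplicity_mul (mul_ne_zero (X_sub_C_ne_zero b) (pow_ne_zero 2 hQ)), pow_two,
      rootMultiplicity_mul (mul_ne_zero hQ hQ), rootMultiplicity_X_sub_C, if_neg hab]
    ring
  rw [h, h2] at h1
  omega

/-- the reduction argument -/
lemma red (V : ValuationSubring ℂ) (H : Finset ℂ) (c l e₁ e₂ : ℂ) (f f₁ f₂ : ℂ → ℂ)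
    (hc : c ∈ V) (hl : V.valuation l < 1) (he₁ : e₁ ∈ V) (he₂ : e₂ ∈ V)
    (he : V.valuation (e₁ - e₂) = 1)
    (hf : ∀ p ∈ H, f p ∈ V) (hf₁ : ∀ p ∈ H, f₁ p ∈ V) (hf₂ : ∀ p ∈ H, f₂ p ∈ V)
    (h : C c * (C l * ∏ p ∈ H, (X - C (f p))) ^ 2 =
      (X - C e₁) * (∏ p ∈ H, (X - C (f₁ p))) ^ 2 - (X - C e₂) * (∏ p ∈ H, (X - C (f₂ p))) ^ 2) :
    False := by
  have hlV : l ∈ V := (ValuationSubring.valuation_le_one_iff _ _).1 hl.le
  have hinj : Function.Injective V.subtype := Subtype.coe_injective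
  have hC : ∀ {x : ℂ}, x ∈ V → (C x : ℂ[X]) = Polynomial.map V.subtype (C (rV V x)) := by
    intro x hx
    rw [Polynomial.map_C]
    simp [rV_coe V hx]
  have hX : (X : ℂ[X]) = Polynomial.map V.subtype X := by rw [Polynomial.map_X]
  rw [hC hc, hC hlV, hC he₁, hC he₂, lin V H f hf, lin V H f₁ hf₁, lin V H f₂ hf₂,
    hX, ← Polynomial.map_mul, ← Polynomial.map_pow, ← Polynomial.map_mul, ← Polynomial.map_sub,
    ← Polynomial.map_pow, ← Polynomial.map_mul, ← Polynomial.map_sub, ← Polynomial.map_pow,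
    ← Polynomial.map_mul, ← Polynomial.map_sub] at h
  have h' := Polynomial.map_injective _ hinj h
  have h2 := congrArg (Polynomial.map (IsLocalRing.residue V)) h'
  have hl0 : IsLocalRing.residue V (rV V l) = 0 := by
    rw [IsLocalRing.residue_eq_zero_iff, ValuationSubring.valuation_lt_one_iff, rV_coe V hlV]
    exact hl
  simp only [Polynomial.map_mul, Polynomial.map_pow, Polynomial.map_sub, Polynomial.map_X,
    Polynomial.map_C, hl0, C_0, zero_mul, Polynomial.map_prod] at h2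
  rw [zero_pow two_ne_zero, mul_zero, eq_comm, sub_eq_zero] at h2
  refine mult (a := IsLocalRing.residue V (rV V e₁)) (b := IsLocalRing.residue V (rV V e₂))
    ?_ ?_ ?_ h2
  · intro hh
    rw [← sub_eq_zero, ← map_sub, IsLocalRing.residue_eq_zero_iff,
      ValuationSubring.valuation_lt_one_iff] at hh
    have e : ((rV V e₁ - rV V e₂ : V) : ℂ) = e₁ - e₂ := by
      push_cast
      rw [rV_coe V he₁, rV_coe V he₂]
    rw [e, he] at hh
    exact lt_irrefl _ hh
  · exact Finset.prod_ne_zero_iff.2 fun p _ => X_sub_C_ne_zero _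
  · exact Finset.prod_ne_zero_iff.2 fun p _ => X_sub_C_ne_zero _

/-- the points of order two -/
lemma half (L : PeriodPair) :
    ∃ w₁ w₂ : ℂ, 2 * w₁ ∈ L.lattice ∧ w₁ ∉ L.lattice ∧ 2 * w₂ ∈ L.lattice ∧ w₂ ∉ L.lattice ∧
      w₁ + w₂ ∉ L.lattice ∧ w₁ - w₂ ∉ L.lattice := by
  have e : ((1 / 2 : ℚ) : ℂ) = 1 / 2 := by push_cast; ring
  have e' : ((-1 / 2 : ℚ) : ℂ) = -1 / 2 := by push_cast; ring
  refine ⟨L.ω₁ / 2, L.ω₂ / 2, ?_, L.ω₁_div_two_notMem_lattice, ?_, L.ω₂_div_two_notMem_lattice, ?_, ?_⟩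
  · rw [mul_div_cancel₀ _ two_ne_zero]
    exact L.ω₁_mem_lattice
  · rw [mul_div_cancel₀ _ two_ne_zero]
    exact L.ω₂_mem_lattice
  · have h := (L.mul_ω₁_add_mul_ω₂_mem_lattice (α := 1 / 2) (β := 1 / 2)).not.mpr (by norm_num)
    rw [e] at h
    have e2 : L.ω₁ / 2 + L.ω₂ / 2 = 1 / 2 * L.ω₁ + 1 / 2 * L.ω₂ := by ring
    rwa [e2]
  · have h := (L.mul_ω₁_add_mul_ω₂_mem_lattice (α := 1 / 2) (β := -1 / 2)).not.mpr (by norm_num)
    rw [e, e'] at h
    have e2 : L.ω₁ / 2 - L.ω₂ / 2 = 1 / 2 * L.ω₁ + -1 / 2 * L.ω₂ := by ring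
    rwa [e2]

end R2

open _root_.Pool.Agent.MUXV.R2 in
theorem tx_R2 (hPOL : Sx_POL) : Sx_R2 := by
  intro V L M c c' mu q H I hmu u₀ hu₀
  by_contra hE
  obtain ⟨WL, ξL, gL⟩ := I.redL
  obtain ⟨WM, ξM, gM⟩ := I.redM
  have h2 : V.valuation ((2 : ℕ) : ℂ) = 1 := by simpa using gL.two
  have hH := I.half
  -- no nonzero point of the kernel is in the kernel of reduction
  have hno : ∀ u, mu * u ∈ M.lattice → u ∉ L.lattice → ¬ InK V L (fun z => L.weierstrassP z - c) u := by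
    intro u hu huL hu1
    obtain ⟨m, hm⟩ := I.cyc u₀ u hu₀ hu huL
    apply hE
    rw [inK_congr gL (w := m * u) (inK_of_mem hm)]
    exact inK_int gL hu1 m
  have htwo : ∀ w : ℂ, 2 * w ∈ L.lattice → w ∉ L.lattice →
      ¬ InK V L (fun z => L.weierstrassP z - c) w := by
    intro w hw hwL hw1
    exact hwL (mem_of_nat_mul gL hw1 (n := 2) h2 (by simpa using hw))
  have htwoM : ∀ w : ℂ, 2 * w ∈ M.lattice → w ∉ M.lattice →
      ¬ InK V M (fun z => M.weierstrassP z - c') w := by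
    intro w hw hwL hw1
    exact hwL (mem_of_nat_mul gM hw1 (n := 2) h2 (by simpa using hw))
  have hadd : ∀ w : ℂ, 2 * w ∈ L.lattice → w ∉ L.lattice → ∀ p ∈ H,
      ¬ InK V L (fun z => L.weierstrassP z - c) (w + p) := by
    intro w hw hwL p hp hwp
    have h3 := inK_nat gL hwp 2
    have h4 := inK_sub gL h3 (inK_of_mem hw)
    have e : ((2 : ℕ) : ℂ) * (w + p) - 2 * w = 2 * p := by push_cast; ring
    rw [e] at h4
    refine hno (2 * p) ?_ (hH.ne p hp) h4
    have := hH.mem p hp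
    have h5 := add_mem this this
    have e' : mu * p + mu * p = mu * (2 * p) := by ring
    rwa [e'] at h5
  have hlw : ∀ w : ℂ, 2 * w ∈ L.lattice → w ∉ L.lattice →
      ¬ InK V M (fun z => M.weierstrassP z - c') (mu * w) := by
    intro w hw hwL
    apply htwoM
    · have := I.sub _ hw
      rwa [mul_left_comm] at this
    · intro hlw
      obtain ⟨p, hp, hp' | hp'⟩ := hH.surj w hlw hwL
      · apply hH.ne p hp
        have h5 := add_mem hp' hp'
        have h6 := sub_mem hw h5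
        have e : 2 * w - (w - p + (w - p)) = 2 * p := by ring
        rwa [e] at h6
      · apply hH.ne p hp
        have h5 := add_mem hp' hp'
        have h6 := sub_mem h5 hw
        have e : (w + p + (w + p)) - 2 * w = 2 * p := by ring
        rwa [e] at h6
  have hmem : ∀ z : ℂ, ¬ InK V L (fun z => L.weierstrassP z - c) z → L.weierstrassP z - c ∈ V :=
    fun z hz => (ValuationSubring.valuation_le_one_iff _ _).1 (int_X hz).2
  have hmemM : ∀ z : ℂ, ¬ InK V M (fun z => M.weierstrassP z - c') z → M.weierstrassP z - c' ∈ V :=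
    fun z hz => (ValuationSubring.valuation_le_one_iff _ _).1 (int_X hz).2
  obtain ⟨w₁, w₂, a1, a2, a3, a4, a5, a6⟩ := half L
  have hsum : ¬ InK V L (fun z => L.weierstrassP z - c) (w₁ + w₂) := by
    apply htwo _ _ a5
    rw [mul_add]; exact add_mem a1 a3
  have hdiff : ¬ InK V L (fun z => L.weierstrassP z - c) (w₁ - w₂) := by
    apply htwo _ _ a6
    rw [mul_sub]; exact sub_mem a1 a3
  have hpol := (hPOL L M c mu H I.mu_ne I.sub hH).1 w₁ w₂ a1 a2 a3 a4
  unfold QI CI at hpol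
  refine red V H _ _ _ _ (fun p => L.weierstrassP p - c) (fun p => L.weierstrassP (w₁ + p) - c)
    (fun p => L.weierstrassP (w₂ + p) - c) ?_ hmu (hmem _ (htwo _ a1 a2)) (hmem _ (htwo _ a3 a4))
    ?_ ?_ ?_ ?_ hpol
  · have h7 := sub_mem (hmemM _ (hlw _ a3 a4)) (hmemM _ (hlw _ a1 a2))
    rwa [sub_sub_sub_cancel_right] at h7
  · exact v_X_sub gL (htwo _ a1 a2) (htwo _ a3 a4) hsum hdiff
  · intro p hp
    apply hmem
    apply hno p (hH.mem p hp)
    intro hpL
    apply hH.ne p hp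
    have := add_mem hpL hpL
    rwa [← two_mul] at this
  · intro p hp
    exact hmem _ (hadd _ a1 a2 p hp)
  · intro p hp
    exact hmem _ (hadd _ a3 a4 p hp)

end

end Pool.Agent.MUXV


end

section

/-!
# MUX, block R, module INJ: the kernel meets the kernel of reduction trivially where `mu` is a unit
-/

set_option autoImplicit false

open WeierstrassCurve Polynomial

namespace Pool.Agent.MUXV

open _root_.Pool.Agent.MU3B _root_.Pool.Agent.MUXU

noncomputable section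

theorem tx_INJ (hR4 : Sx_R4) : Sx_INJ := by
  intro V L M c c' mu q H hI hmu u hu hE
  by_contra huL
  obtain ⟨W, ξ, G⟩ := hI.redL
  have hqle : V.valuation (q : ℂ) ≤ 1 :=
    (ValuationSubring.valuation_le_one_iff _ _).2 (natCast_mem V q)
  rcases eq_or_lt_of_le hqle with hq1 | hq1
  · exact huL (mem_of_nat_mul G hE hq1 (hI.ord u hu))
  · have hall : ∀ u', mu * u' ∈ M.lattice → InK V L (fun z => L.weierstrassP z - c) u' := by
      intro u' hu'
      obtain ⟨m, hm⟩ := hI.cyc u' u hu' hu huL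
      exact (inK_congr G (inK_of_mem hm)).2 (inK_int G hE m)
    obtain ⟨r1, -, -⟩ := hR4 V L M c c' mu q H hI hq1 hall
    rw [hmu, one_mul] at r1
    have hne : H.Nonempty := by
      rw [← Finset.card_pos]
      rcases Nat.eq_zero_or_pos H.card with h0 | h0
      · have hc := hI.card
        rw [h0] at hc
        exact absurd hc.symm hI.prime.ne_one
      · exact h0
    have hgt : ∀ p ∈ H, 1 < V.valuation (L.weierstrassP p - c) := by
      intro p hp
      have hpL : p ∉ L.lattice := by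
        intro hpL
        apply hI.half.ne p hp
        rw [two_mul]
        exact add_mem hpL hpL
      rcases hall p (hI.half.mem p hp) with h3 | h3
      · exact absurd h3 hpL
      · rw [← not_le, ValuationSubring.valuation_le_one_iff]
        exact h3
    have hprod : 1 < ∏ p ∈ H, V.valuation (L.weierstrassP p - c) := by
      refine Finset.prod_induction_nonempty (fun p => V.valuation (L.weierstrassP p - c))
        (fun a => 1 < a) (fun a b ha hb => ?_) hne hgt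
      exact lt_trans ha (lt_mul_of_one_lt_right (lt_trans zero_lt_one ha) hb)
    rw [r1] at hprod
    exact lt_irrefl _ hprod

end

end Pool.Agent.MUXV


end

section

/-!
# MUX, block R, HRE: a half system together with its negative is a system of representatives
(helper73)
-/

set_option autoImplicit false

namespace Pool.Agent.MUXV

open Complex Real Filter Topology
open _root_.Pool.Agent.MUXU

theorem tx_HRE : Sx_HRE := by
  classical
  intro L M mu H hH
  have hmem : ∀ q, q ∈ H ∪ H.image (fun q => -q) ↔ q ∈ H ∨ ∃ p ∈ H, -p = q := by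
    intro q
    rw [Finset.mem_union, Finset.mem_image]
  have hnL : ∀ q ∈ H, q ∉ L.lattice := by
    intro q hq h
    apply hH.ne q hq
    rw [two_mul]
    exact add_mem h h
  refine ⟨⟨fun q hq => ?_, fun q hq => ?_, fun q hq q' hq' h => ?_, fun z hz hzL => ?_⟩, ?_⟩
  · rcases (hmem q).1 hq with h | ⟨p, hp, rfl⟩
    · exact hH.mem q h
    · rw [mul_neg]
      exact neg_mem (hH.mem p hp)
  · rcases (hmem q).1 hq with h | ⟨p, hp, rfl⟩
    · exact hnL q h
    · intro h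
      exact hnL p hp (by simpa using neg_mem h)
  · rcases (hmem q).1 hq with h1 | ⟨p, hp, rfl⟩ <;>
      rcases (hmem q').1 hq' with h2 | ⟨p', hp', rfl⟩
    · exact hH.inj q h1 q' h2 h
    · exact (hH.neg q h1 p' hp' (by simpa using h)).elim
    · refine (hH.neg p hp q' h2 ?_).elim
      have := neg_mem h
      rwa [neg_sub, sub_neg_eq_add, add_comm] at this
    · have h3 : p - p' ∈ L.lattice := by
        have := neg_mem h
        have e : -(-p - -p') = p - p' := by ring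
        rwa [e] at this
      rw [hH.inj p hp p' hp' h3]
  · obtain ⟨q, hq, h | h⟩ := hH.surj z hz hzL
    · exact ⟨q, (hmem q).2 (Or.inl hq), h⟩
    · exact ⟨-q, (hmem (-q)).2 (Or.inr ⟨q, hq, rfl⟩), by simpa using h⟩
  · rw [Finset.disjoint_left]
    intro q hq h
    obtain ⟨p, hp, h'⟩ := Finset.mem_image.1 h
    apply hH.neg q hq p hp
    rw [← h', neg_add_cancel]
    exact zero_mem _

end Pool.Agent.MUXV


end
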