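import Mathlib
import Pool.Agent.MVF.C005
import Pool.Agent.MVF.C015

/-! Parts: MU3.VZ, MU3.StV, MU3.V_EXT, MU3.StDF, MU3.V_FRK, MU3.V_DEG1 -/

namespace Pool.Agent.MU3V.DEG1
end Pool.Agent.MU3V.DEG1

section

/-!
# MU3, block V: the valuation lemmas for the points `ξ(z)`, `z ∈ ℂ` (helper59)

`V` is a valuation ring of `ℂ` in which `2` is a unit, `v = V.valuation`; `InE1 A B V L z` says that `z` is
zero or in the kernel of reduction. `IsXi A B L ξ`: `ξ : ℂ → E(ℂ)` is the homomorphism with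
`ξ(z) = (xx z, yy z)`.
-/

set_option autoImplicit false

open WeierstrassCurve

namespace Pool.Agent.MU3V

open _root_.MU3 _root_.Pool.Agent.MU3A _root_.Pool.Agent.MU3B _root_.Pool.Agent.MU3.Val

noncomputable section

/-- the curve over `ℂ` -/
abbrev WC (A B : ℤ) : WeierstrassCurve.Affine ℂ := (EE A B).map (algebraMap (kk A B) ℂ)

/-- `ξ` is the homomorphism `ℂ → E(ℂ)` given by `(xx, yy)` -/
structure IsXi (A B : ℤ) (L : PeriodPair) (ξ : ℂ →+ (WC A B).Point) : Prop where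
  some : ∀ z ∉ L.lattice, ∃ h, ξ z = Affine.Point.some (xx A B L z) (yy L z) h
  zero : ∀ z ∈ L.lattice, ξ z = 0

/-- the local parameter `-x/y` -/
def tz (A B : ℤ) (L : PeriodPair) (z : ℂ) : ℂ := -(xx A B L z / yy L z)

variable {A B : ℤ}

/-- the elements of `O` are integral -/
lemma emb_mem_V (h : Case A B) (V : ValuationSubring ℂ) (x : OO A B) : emb x ∈ V := by
  have hw : wC A B ∈ V := by
    rw [← ValuationSubring.valuation_le_one_iff]
    by_contra hc
    push Not at hc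
    have e := congrArg V.valuation (wC_sq h)
    have h1 : V.valuation ((A : ℂ) + B * wC A B) ≤ V.valuation (wC A B) := by
      refine v_add_le ?_ ?_
      · exact le_trans ((ValuationSubring.valuation_le_one_iff _ _).2 (intCast_mem V A)) hc.le
      · rw [map_mul]
        exact mul_le_of_le_one_left' ((ValuationSubring.valuation_le_one_iff _ _).2
          (intCast_mem V B))
    rw [← e, map_mul] at h1
    have h2 : V.valuation (wC A B) < V.valuation (wC A B) * V.valuation (wC A B) := by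
      conv_lhs => rw [← one_mul (V.valuation (wC A B))]
      exact mul_lt_mul_of_pos_right hc (lt_trans zero_lt_one hc)
    exact absurd h1 (not_le.2 h2)
  exact add_mem (intCast_mem V _) (mul_mem (intCast_mem V _) hw)

lemma v_emb_le (h : Case A B) (V : ValuationSubring ℂ) (x : OO A B) : V.valuation (emb x) ≤ 1 :=
  (ValuationSubring.valuation_le_one_iff _ _).2 (emb_mem_V h V x)

lemma intW (h : Case A B) {V : ValuationSubring ℂ} (h2 : V.valuation 2 = 1) :
    IntW V.valuation (WC A B) where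
  a1 := by simp [WC, EE]
  a3 := by simp [WC, EE]
  a2 := by
    have : (WC A B).a₂ = emb (a2 A B) := by simp [WC, EE, ek]
    rw [this]; exact v_emb_le h V _
  a4 := by
    have : (WC A B).a₄ = emb (a4 A B) := by simp [WC, EE, ek]
    rw [this]; exact v_emb_le h V _
  a6 := by
    have : (WC A B).a₆ = emb (a6 A B) / 4 := by simp [WC, EE, ek]; rfl
    rw [this, map_div₀]
    have h4 : V.valuation (4 : ℂ) = 1 := by
      rw [show (4 : ℂ) = 2 * 2 by norm_num, map_mul, h2, one_mul]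
    rw [h4, div_one]; exact v_emb_le h V _

lemma disc_eq (h : Case A B) : (WC A B).Δ = 512 ∨ (WC A B).Δ = 1 := by
  have e1 : (WC A B).a₁ = 0 := by simp [WC, EE]
  have e2 : (WC A B).a₂ = emb (a2 A B) := by simp [WC, EE, ek]
  have e3 : (WC A B).a₃ = 0 := by simp [WC, EE]
  have e4 : (WC A B).a₄ = emb (a4 A B) := by simp [WC, EE, ek]
  have e6 : (WC A B).a₆ = emb (a6 A B) / 4 := by simp [WC, EE, ek]; rfl
  rw [WeierstrassCurve.Δ, WeierstrassCurve.b₂, WeierstrassCurve.b₄, WeierstrassCurve.b₆,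
    WeierstrassCurve.b₈, e1, e2, e3, e4, e6]
  rcases h with ⟨rfl, rfl⟩ | ⟨rfl, rfl⟩
  · left
    have h1 : emb (a2 (-2) 0) = 4 := by
      have : a2 (-2) 0 = ((4 : ℕ) : OO (-2) 0) := by simp [a2]
      rw [this, emb_natCast (Or.inl ⟨rfl, rfl⟩)]; norm_num
    have h2 : emb (a4 (-2) 0) = 2 := by
      have : a4 (-2) 0 = ((2 : ℕ) : OO (-2) 0) := by simp [a4]
      rw [this, emb_natCast (Or.inl ⟨rfl, rfl⟩)]; norm_num
    have h3 : emb (a6 (-2) 0) = 0 := by
      have : a6 (-2) 0 = 0 := by simp [a6]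
      rw [this, emb_zero (Or.inl ⟨rfl, rfl⟩)]
    rw [h1, h2, h3]; norm_num
  · right
    have hw := wC_sq (A := -3) (B := 1) (Or.inr ⟨rfl, rfl⟩)
    have h1 : emb (a2 (-3) 1) = 2 * wC (-3) 1 - 1 := by simp [a2, emb]; ring
    have h2 : emb (a4 (-3) 1) = -3 := by
      have : a4 (-3) 1 = ((-3 : ℤ) : OO (-3) 1) := by simp [a4]
      rw [this, emb_intCast (Or.inr ⟨rfl, rfl⟩)]; norm_num
    have h3 : emb (a6 (-3) 1) = 1 - 2 * wC (-3) 1 := by simp [a6, emb]; ring
    push_cast at hw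
    rw [h1, h2, h3]
    have e : (2 * wC (-3) 1 - 1) ^ 2 = -11 := by linear_combination 4 * hw
    linear_combination (16 * (2 * wC (-3) 1 - 1) ^ 2 + 157) * e

lemma v_disc (h : Case A B) {V : ValuationSubring ℂ} (h2 : V.valuation 2 = 1) :
    V.valuation (WC A B).Δ = 1 := by
  rcases disc_eq h with e | e
  · rw [e, show (512 : ℂ) = 2 ^ 9 by norm_num, map_pow, h2, one_pow]
  · rw [e, map_one]

section
variable {L : PeriodPair} {ξ : ℂ →+ (WC A B).Point} {V : ValuationSubring ℂ}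

lemma inE_iff (hξ : IsXi A B L ξ) (z : ℂ) : InE V.valuation (ξ z) ↔ InE1 A B V L z := by
  by_cases hz : z ∈ L.lattice
  · rw [hξ.zero z hz]
    exact ⟨fun _ => Or.inl hz, fun _ => inE_zero⟩
  · obtain ⟨h1, e⟩ := hξ.some z hz
    rw [e]
    show 1 < V.valuation (xx A B L z) ↔ _
    unfold InE1
    rw [← not_le, ValuationSubring.valuation_le_one_iff]
    tauto

lemma zc_xi (hξ : IsXi A B L ξ) {z : ℂ} (hz : z ∉ L.lattice) : zc (ξ z) = tz A B L z := by
  obtain ⟨h1, e⟩ := hξ.some z hz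
  rw [e]; rfl

lemma int_x {z : ℂ} (h : ¬ InE1 A B V L z) : z ∉ L.lattice ∧ V.valuation (xx A B L z) ≤ 1 := by
  unfold InE1 at h
  push Not at h
  exact ⟨h.1, (ValuationSubring.valuation_le_one_iff _ _).2 h.2⟩

lemma int_yy (h : Case A B) (h2 : V.valuation 2 = 1) (hξ : IsXi A B L ξ) {z : ℂ}
    (hz : ¬ InE1 A B V L z) : V.valuation (yy L z) ≤ 1 := by
  obtain ⟨h1, h3⟩ := int_x hz
  obtain ⟨h4, e⟩ := hξ.some z h1
  exact int_y (intW h h2) h4 h3

lemma inE1_add (h : Case A B) (h2 : V.valuation 2 = 1) (hξ : IsXi A B L ξ) {z w : ℂ}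
    (hz : InE1 A B V L z) (hw : InE1 A B V L w) : InE1 A B V L (z + w) := by
  rw [← inE_iff hξ] at hz hw ⊢
  rw [map_add]
  exact (add_inE (intW h h2) (two_ne h2) hz hw).1

lemma inE1_neg (hξ : IsXi A B L ξ) {z : ℂ}
    (hz : InE1 A B V L z) : InE1 A B V L (-z) := by
  rw [← inE_iff hξ] at hz ⊢
  rw [map_neg]
  exact inE_neg hz

lemma inE1_sub (h : Case A B) (h2 : V.valuation 2 = 1) (hξ : IsXi A B L ξ) {z w : ℂ}
    (hz : InE1 A B V L z) (hw : InE1 A B V L w) : InE1 A B V L (z - w) := by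
  rw [sub_eq_add_neg]
  exact inE1_add h h2 hξ hz (inE1_neg hξ hw)

lemma inE1_zero : InE1 A B V L 0 := Or.inl (zero_mem _)

lemma inE1_of_mem {z : ℂ} (hz : z ∈ L.lattice) : InE1 A B V L z := Or.inl hz

lemma inE1_nat (h : Case A B) (h2 : V.valuation 2 = 1) (hξ : IsXi A B L ξ) {z : ℂ}
    (hz : InE1 A B V L z) (n : ℕ) : InE1 A B V L (n * z) := by
  induction n with
  | zero => simpa using inE1_zero
  | succ n ih =>
    have : ((n + 1 : ℕ) : ℂ) * z = n * z + z := by push_cast; ring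
    rw [this]
    exact inE1_add h h2 hξ ih hz

lemma inE1_int (h : Case A B) (h2 : V.valuation 2 = 1) (hξ : IsXi A B L ξ) {z : ℂ}
    (hz : InE1 A B V L z) (n : ℤ) : InE1 A B V L (n * z) := by
  obtain ⟨m, rfl | rfl⟩ := n.eq_nat_or_neg
  · simpa using inE1_nat h h2 hξ hz m
  · have : ((-(m : ℤ) : ℤ) : ℂ) * z = -(m * z) := by push_cast; ring
    rw [this]
    exact inE1_neg hξ (inE1_nat h h2 hξ hz m)

/-- congruence modulo the kernel of reduction -/
lemma inE1_congr (h : Case A B) (h2 : V.valuation 2 = 1) (hξ : IsXi A B L ξ) {z w : ℂ}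
    (hzw : InE1 A B V L (z - w)) : InE1 A B V L z ↔ InE1 A B V L w := by
  constructor
  · intro hz
    have := inE1_sub h h2 hξ hz hzw
    rwa [sub_sub_cancel] at this
  · intro hw
    have := inE1_add h h2 hξ hzw hw
    rwa [sub_add_cancel] at this

lemma v_tz_lt (h : Case A B) (h2 : V.valuation 2 = 1) (hξ : IsXi A B L ξ) {z : ℂ}
    (hz : InE1 A B V L z) (hL : z ∉ L.lattice) :
    V.valuation (tz A B L z) < 1 ∧ V.valuation (tz A B L z) ≠ 0 ∧
      V.valuation (xx A B L z) * V.valuation (tz A B L z) ^ 2 = 1 := by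
  obtain ⟨h1, e⟩ := hξ.some z hL
  have h3 := (inE_iff hξ z).2 hz
  rw [e] at h3
  obtain ⟨-, h4, h5, -, h6⟩ := inE_some (intW h h2) h3
  exact ⟨h4, h5, h6⟩

/-- additivity of the parameter to third order -/
lemma v_tz_add (h : Case A B) (h2 : V.valuation 2 = 1) (hξ : IsXi A B L ξ) {z w : ℂ}
    (hz : InE1 A B V L z) (hw : InE1 A B V L w) (hzL : z ∉ L.lattice) (hwL : w ∉ L.lattice)
    (hzw : z + w ∉ L.lattice) :
    V.valuation (tz A B L (z + w) - tz A B L z - tz A B L w) ≤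
      (max (V.valuation (tz A B L z)) (V.valuation (tz A B L w))) ^ 3 := by
  rw [← inE_iff hξ] at hz hw
  have h3 := (add_inE (intW h h2) (two_ne h2) hz hw).2
  rwa [← map_add, zc_xi hξ hzL, zc_xi hξ hwL, zc_xi hξ hzw] at h3

/-- the parameter of a multiple -/
lemma v_tz_nat (h : Case A B) (h2 : V.valuation 2 = 1) (hξ : IsXi A B L ξ) {z : ℂ}
    (hz : InE1 A B V L z) {n : ℕ} (hn : V.valuation (n : ℂ) = 1) (hzL : z ∉ L.lattice)
    (hnL : n * z ∉ L.lattice) :
    V.valuation (tz A B L (n * z)) = V.valuation (tz A B L z) := by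
  rw [← inE_iff hξ] at hz
  have h3 := v_zc_nsmul (intW h h2) (two_ne h2) hz hn
  rw [← map_nsmul, nsmul_eq_mul] at h3
  rwa [zc_xi hξ hzL, zc_xi hξ hnL] at h3

/-- no torsion prime to the residue characteristic in the kernel of reduction -/
lemma mem_of_nat_mul (h : Case A B) (h2 : V.valuation 2 = 1) (hξ : IsXi A B L ξ) {z : ℂ}
    (hz : InE1 A B V L z) {n : ℕ} (hn : V.valuation (n : ℂ) = 1)
    (hnL : n * z ∈ L.lattice) : z ∈ L.lattice := by
  rw [← inE_iff hξ] at hz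
  by_contra hzL
  have h3 := eq_zero_of_nsmul (intW h h2) (two_ne h2) hz hn (by
    rw [← map_nsmul, nsmul_eq_mul]; exact hξ.zero _ hnL)
  obtain ⟨h4, e⟩ := hξ.some z hzL
  rw [e] at h3
  exact absurd h3 (by simp)

/-- the difference of the `x`-coordinates is a unit -/
lemma v_xx_sub (h : Case A B) (h2 : V.valuation 2 = 1) (hξ : IsXi A B L ξ) {z w : ℂ}
    (hz : ¬ InE1 A B V L z) (hw : ¬ InE1 A B V L w) (hp : ¬ InE1 A B V L (z + w))
    (hm : ¬ InE1 A B V L (z - w)) : V.valuation (xx A B L z - xx A B L w) = 1 := by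
  obtain ⟨h3, e3⟩ := hξ.some z (int_x hz).1
  obtain ⟨h4, e4⟩ := hξ.some w (int_x hw).1
  rw [← inE_iff hξ] at hz hw hp hm
  rw [map_add] at hp
  rw [map_sub] at hm
  rw [e3] at hz hp hm
  rw [e4] at hw hp hm
  exact v_x_sub (intW h h2) h2 (v_disc h h2) h3 h4 hz hw hp hm

/-- addition of a point in the kernel of reduction -/
lemma near (h : Case A B) (h2 : V.valuation 2 = 1) (hξ : IsXi A B L ξ) {z w : ℂ}
    (hz : ¬ InE1 A B V L z) (hw : InE1 A B V L w) (hwL : w ∉ L.lattice) :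
    ¬ InE1 A B V L (z + w) ∧
    V.valuation (xx A B L (z + w) - xx A B L z - 2 * yy L z * tz A B L w) ≤
      V.valuation (tz A B L w) ^ 2 ∧
    V.valuation (xx A B L (z + w) - xx A B L z) ≤ V.valuation (tz A B L w) ∧
    V.valuation (yy L (z + w) - yy L z) ≤ V.valuation (tz A B L w) := by
  have hzw : ¬ InE1 A B V L (z + w) := by
    rw [inE1_congr h h2 hξ (w := z) (by rwa [add_sub_cancel_left])]
    exact hz
  refine ⟨hzw, ?_⟩
  obtain ⟨h3, e3⟩ := hξ.some z (int_x hz).1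
  obtain ⟨h4, e4⟩ := hξ.some w hwL
  obtain ⟨h5, e5⟩ := hξ.some (z + w) (int_x hzw).1
  rw [← inE_iff hξ] at hz hw
  rw [e3] at hz
  rw [e4] at hw
  obtain ⟨x₃, y₃, h₃, e, -, i1, i2, i3⟩ := add_near (intW h h2) h3 h4 hz hw
  rw [← e3, ← e4, ← map_add, e5] at e
  obtain ⟨rfl, rfl⟩ : xx A B L (z + w) = x₃ ∧ yy L (z + w) = y₃ := by
    simpa using e
  exact ⟨i1, i2, i3⟩

/-- `x` modulo the maximal ideal depends only on the reduction -/
lemma near_lt (h : Case A B) (h2 : V.valuation 2 = 1) (hξ : IsXi A B L ξ) {z w : ℂ}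
    (hz : ¬ InE1 A B V L z) (hw : InE1 A B V L w) :
    V.valuation (xx A B L (z + w) - xx A B L z) < 1 ∧ V.valuation (yy L (z + w) - yy L z) < 1 := by
  by_cases hwL : w ∈ L.lattice
  · have h3 := hξ.zero w hwL
    obtain ⟨h4, e4⟩ := hξ.some z (int_x hz).1
    have hzw : z + w ∉ L.lattice := fun h5 => (int_x hz).1 (by
      have := sub_mem h5 hwL; rwa [add_sub_cancel_right] at this)
    obtain ⟨h5, e5⟩ := hξ.some (z + w) hzw
    rw [map_add, h3, add_zero, e4] at e5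
    obtain ⟨e6, e7⟩ : xx A B L z = xx A B L (z + w) ∧ yy L z = yy L (z + w) := by simpa using e5
    rw [← e6, ← e7, sub_self, sub_self, map_zero]
    exact ⟨zero_lt_one, zero_lt_one⟩
  · obtain ⟨-, -, h3, h4⟩ := near h h2 hξ hz hw hwL
    have h5 := (v_tz_lt h h2 hξ hw hwL).1
    exact ⟨h3.trans_lt h5, h4.trans_lt h5⟩

end

end

end Pool.Agent.MU3V


end

section

/-!
# MU3, block V: reduction modulo a prime of degree one, statements (helper59)

`V` is a valuation ring of `ℂ`, `v = V.valuation`; `v x ≤ 1` iff `x ∈ V`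
(`ValuationSubring.valuation_le_one_iff`), `v x < 1` iff `x ∈ V.nonunits`. `l = emb lam`, `nm lam = q` a prime
number. `E[lam]` = the `u` with `l u ∈ L`. Every statement is a `def Sv_X : Prop`; the module proves
`theorem tv_X (h : ...) ... : Sv_X`. `IsXi`, `tz`, `near`, `near_lt`, `inE1_add`, ...: `VZ.lean`.
`IsHalf`, `ThetaH`: `StB2.lean`.
-/

set_option autoImplicit false

open WeierstrassCurve Polynomial NumberField IsDedekindDomain

namespace Pool.Agent.MU3V

open _root_.MU3 _root_.Pool.Agent.MU3A _root_.Pool.Agent.MU3B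

noncomputable section

/-- the polynomial `l ∏_(q ∈ H) (X - x(q))` -/
def Qp (A B : ℤ) (L : PeriodPair) (l : ℂ) (H : Finset ℂ) : ℂ[X] :=
  C l * ∏ q ∈ H, (X - C (xx A B L q))

/-- the polynomial `∏_(q ∈ H) (X - x(w + q))` -/
def Cp (A B : ℤ) (L : PeriodPair) (w : ℂ) (H : Finset ℂ) : ℂ[X] :=
  ∏ q ∈ H, (X - C (xx A B L (w + q)))

/-- (POL) the identity of polynomials behind multiplication by `l`, at points of order two.

Uses Sa_PFG, St_HRE, St_SUR (and periodicity, parity of `℘` from Mathlib: `weierstrassP_neg`,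
`weierstrassP_add_coe` or similar). PROOF. `R = H ∪ -H` is `IsReps L l R` (HRE), disjoint union. Let `2 w ∈ L`,
`w ∉ L`. Then `l w ∉ L`: otherwise by `IsHalf.surj` `w ≡ ± q`, `q ∈ H`, `2 q ∈ L` against `IsHalf.ne`. (PFG) for `w`:
for `l z ∉ L`: `l² (℘(lz) - ℘(lw)) ∏_(q ∈ R) (℘ z - ℘ q) = (℘ z - ℘ w) ∏_(q ∈ R) (℘ z - ℘(w + q))`. As
`℘(-q) = ℘(q)` and `℘(w - q) = ℘(q - w) = ℘(q - w + 2w) = ℘(w + q)`, the products over `R` are the squares
of the products over `H`. With `xx = ℘ - a₂/3` (differences are the same):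
(1) `(xx(lz) - xx(lw)) Qp(xx z)² = (xx z - xx w) Cp_w(xx z)²`: this is the second part. First part: subtract (1)
for `w₁`, `w₂`: the two polynomials agree at `xx z` for all `z` with `l z ∉ L`. Every complex number is `xx z` for
some `z ∉ L` (SUR), and if `l z ∈ L` then `z ≡ ± q`, `q ∈ H`, `xx z = xx q`: so they agree at all numbers
except finitely many, hence are equal (`Polynomial.eq_of_infinite_eval_eq`). -/
def Sv_POL : Prop :=
  ∀ (A B : ℤ) (L : PeriodPair) (l : ℂ) (H : Finset ℂ), l ≠ 0 →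
    (∀ u ∈ L.lattice, l * u ∈ L.lattice) → IsHalf L l H →
    (∀ w₁ w₂ : ℂ, 2 * w₁ ∈ L.lattice → w₁ ∉ L.lattice → 2 * w₂ ∈ L.lattice → w₂ ∉ L.lattice →
      C (xx A B L (l * w₂) - xx A B L (l * w₁)) * Qp A B L l H ^ 2 =
        (X - C (xx A B L w₁)) * Cp A B L w₁ H ^ 2 - (X - C (xx A B L w₂)) * Cp A B L w₂ H ^ 2) ∧
    ∀ w : ℂ, 2 * w ∈ L.lattice → w ∉ L.lattice → ∀ z, l * z ∉ L.lattice →
      (xx A B L (l * z) - xx A B L (l * w)) * (Qp A B L l H).eval (xx A B L z) ^ 2 =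
        (xx A B L z - xx A B L w) * (Cp A B L w H).eval (xx A B L z) ^ 2

/-- (DEG1) `O / lam` has the classes of the integers, if `nm lam` is a prime number `q`.

PROOF. `lam = a + b w`, `q = a² + B a b - A b²`. `q ∣ lam * conj lam`, i.e. `lam * ⟨a + B b, -b⟩ = q`. If `q ∣ b` then
`q ∣ a²`, `q ∣ a`, `q² ∣ nm lam = q`, absurd. Let `b b' ≡ 1` mod `q`: `w ≡ b b' w ≡ -a b'` modulo `lam`. So
`x = x.re + x.im w ≡ x.re - x.im a b'`. Third part: `lam ∣ n` gives `q = nm lam ∣ nm n = n²`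
(multiplicativity of `nm`). -/
def Sv_DEG1 : Prop :=
  ∀ A B : ℤ, Case A B → ∀ (lam : OO A B) (q : ℕ), q.Prime → nm lam = q →
    (∀ x : OO A B, ∃ n : ℤ, lam ∣ x - n) ∧ lam ∣ (q : OO A B) ∧
      ∀ n : ℤ, lam ∣ (n : OO A B) → (q : ℤ) ∣ n

/-- (CYCL) `E[lam]` is cyclic of order `q`; half systems exist.

Uses Sv_DEG1, St_HAL. PROOF. `u = emb x (Om / l)`, `u₁ = emb x₁ (Om / l)` (`IsLat.torsion_iff`), `lam` does not divide `x₁`
(`IsLat.mul_div_mem_iff`). By DEG1 `x ≡ n`, `x₁ ≡ n₁` modulo `lam` with integers, `q` does not divide `n₁`, so there is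
`m` with `n ≡ m n₁` modulo `q`; `lam ∣ q` gives `lam ∣ x - m x₁`. Order `q`: `lam ∣ q x`. Half systems: `q` odd, so `lam` and
`2` are coprime (`conj lam * lam = q`, `IsCoprime lam 2`), `IsLat.mem_of_coprime`, and (HAL). -/
def Sv_CYCL : Prop :=
  ∀ (A B : ℤ) (L : PeriodPair) (Om : ℂ), Case A B → IsCM A B L Om → ∀ (lam : OO A B) (q : ℕ),
    q.Prime → nm lam = q →
    (∀ u u₁ : ℂ, emb lam * u ∈ L.lattice → emb lam * u₁ ∈ L.lattice → u₁ ∉ L.lattice →
      ∃ m : ℤ, u - m * u₁ ∈ L.lattice) ∧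
    (∀ u : ℂ, emb lam * u ∈ L.lattice → q * u ∈ L.lattice) ∧
    (q ≠ 2 → ∃ H : Finset ℂ, IsHalf L (emb lam) H)

/-- (R2) `E[lam]` is in the kernel of reduction at a place where `lam` is not a unit.

Uses Sv_POL, Sv_CYCL, `VZ.lean`. PROOF. `v l < 1`, `v q ≤ v l < 1` (`lam ∣ q`), so `q ≠ 2` as `v 2 = 1`. Take `H` (CYCL).
Suppose `u₀ ∈ E[lam]` is not in `E₁` (`¬ InE1`). Then no `u ∈ E[lam]`, `u ∉ L`, is in `E₁`: otherwise
`u₀ ≡ m u` modulo `L` (CYCL) would be in `E₁` (`inE1_int`, `inE1_congr`). Let `w₁ = Om/2`, `w₂ = Om w/2` (`w = wC A B`):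
`2 w_i ∈ L`, `w_i ∉ L`, `w₁ - w₂ ∉ L`. For `q ∈ H`: `w_i + q` is not in `E₁` (otherwise `2 (w_i + q)`, so `2 q` is in `E₁`,
`2 q ∈ E[lam]`, `2 q ∉ L`, a contradiction). So all `x(q)`, `x(w_i + q)`, `x(w_i)` are in `V` (`w_i` is not in `E₁`:
`mem_of_nat_mul` with `n = 2`), and `e₁ - e₂` is a unit, `e_i = x(w_i)` (`v_xx_sub`: `w₁ ± w₂ ∉ E₁` by
`mem_of_nat_mul`). Let `κ` be the residue field of `V`; the polynomials `Qp`, `Cp` come from polynomials over
`V`. Reduce (POL) to `κ[X]`: the left side becomes `0` because `Qp` has the factor `l` in the maximal ideal and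
`x(l w₂) - x(l w₁) ∈ V` (`l w_i ∉ E₁`, as `2 l w_i ∈ L`, `l w_i ∉ L`). So `(X - ē₁) C̄₁² = (X - ē₂) C̄₂²` in `κ[X]`, both sides
nonzero, `ē₁ ≠ ē₂`: the multiplicity of `ē₁` as a root (`Polynomial.rootMultiplicity_mul`,
`rootMultiplicity_pow` or `count` in `roots`) is odd on the left and even on the right. Contradiction. -/
def Sv_R2 : Prop :=
  ∀ (A B : ℤ) (L : PeriodPair) (Om : ℂ) (ξ : ℂ →+ (WC A B).Point), Case A B → IsCM A B L Om →
    IsXi A B L ξ → ∀ V : ValuationSubring ℂ, V.valuation 2 = 1 → ∀ (lam : OO A B) (q : ℕ),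
    q.Prime → nm lam = q → V.valuation (emb lam) < 1 →
    ∀ u, emb lam * u ∈ L.lattice → InE1 A B V L u

/-- (R4) consequences of `E[lam] ⊂ E₁` in residue characteristic `q`.

Uses Sv_POL, `VZ.lean`. PROOF. Let `w` be of order two; `w ∉ E₁` (`mem_of_nat_mul`, `n = 2`). For `p ∈ H`, `x(w + p) - x(w)` is in
the maximal ideal `𝔪` of `V` (`near_lt`), so `Cp_w ≡ (X - x(w))^|H|` coefficientwise modulo `𝔪`, and
`(X - x(w)) Cp_w² ≡ (X - x(w))^(2|H|+1) = (X - x(w))^q` (`hq : 2 |H| + 1 = q`): this is (3), evaluated at `x ∈ V`.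
Let `w₁`, `w₂` be of order two, incongruent. `(e₂' - e₁') Qp² = (X - e₁) C₁² - (X - e₂) C₂²` (POL), `e_i = x(w_i)`,
`e_i' = x(l w_i)`; the right side is `≡ (X - e₁)^q - (X - e₂)^q ≡ e₂^q - e₁^q ≡ (e₂ - e₁)^q` modulo `𝔪` (the residue
field has characteristic `q`: `(a - b)^q = a^q - b^q`): this is (2), and it holds as a congruence of
polynomials over `V`. (1): (2) at `x = 0` for `w₁ = Om/2`, `w₂ = Om w/2` (`w = wC A B`): `Qp(0) = ± l ∏ x(p)`; `e₂ - e₁` and
`e₂' - e₁'` are units (`v_xx_sub`; `l w_i ∉ L` since `E[lam]` has no point of order two by `IsHalf`, and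
`l (w₁ ± w₂) ∉ L` too). So `v(l ∏ x(p))² = 1`. (The reduction can be done in the polynomial ring over the
residue field of `V`, or by hand: `a ≡ b` for products of congruent integral factors.) -/
def Sv_R4 : Prop :=
  ∀ (A B : ℤ) (L : PeriodPair) (Om : ℂ) (ξ : ℂ →+ (WC A B).Point), Case A B → IsCM A B L Om →
    IsXi A B L ξ → ∀ V : ValuationSubring ℂ, V.valuation 2 = 1 → ∀ (lam : OO A B) (q : ℕ),
    q.Prime → V.valuation (q : ℂ) < 1 → lam ≠ 0 → ∀ H : Finset ℂ, IsHalf L (emb lam) H →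
    2 * H.card + 1 = q →
    (∀ u, emb lam * u ∈ L.lattice → InE1 A B V L u) →
    (V.valuation (emb lam) * ∏ p ∈ H, V.valuation (xx A B L p) = 1) ∧
    (∀ w₁ w₂ : ℂ, 2 * w₁ ∈ L.lattice → w₁ ∉ L.lattice → 2 * w₂ ∈ L.lattice → w₂ ∉ L.lattice →
      ∀ x ∈ V, V.valuation ((xx A B L (emb lam * w₂) - xx A B L (emb lam * w₁)) *
        (Qp A B L (emb lam) H).eval x ^ 2 - (xx A B L w₂ - xx A B L w₁) ^ q) < 1) ∧
    ∀ w : ℂ, 2 * w ∈ L.lattice → w ∉ L.lattice → ∀ x ∈ V,
      V.valuation ((x - xx A B L w) * (Cp A B L w H).eval x ^ 2 - (x - xx A B L w) ^ q) < 1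

/-- (CARD) a half system for `lam` has `(q - 1)/2` elements.

Uses St_HRE. PROOF. `2 |H| + 1 = |emb lam|² = nm lam = q` (`|emb x|² = nm x`: real and imaginary part of `wC`). -/
def Sv_CARD : Prop :=
  ∀ (A B : ℤ) (L : PeriodPair) (Om : ℂ), Case A B → IsCM A B L Om → ∀ (lam : OO A B) (q : ℕ),
    nm lam = q → lam ≠ 0 → ∀ H : Finset ℂ, IsHalf L (emb lam) H → 2 * H.card + 1 = q

/-- (FRK) elements of `k` and the Frobenius of the prime field.

Uses Sv_DEG1. PROOF. `x ≡ m` modulo `lam` with an integer `m` (DEG1), so `emb x - m` is in the maximal ideal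
(`emb x - m = l emb y`, `emb y ∈ V`), and `q` too (`lam ∣ q`). `m^q ≡ m`, `n^q ≡ n` modulo `q` (Fermat). In the
residue field of `V`: `(x/n)^q = x^q/n^q = m/n`. -/
def Sv_FRK : Prop :=
  ∀ (A B : ℤ), Case A B → ∀ V : ValuationSubring ℂ, ∀ (lam x : OO A B) (q n : ℕ), q.Prime →
    nm lam = q → V.valuation (emb lam) < 1 → V.valuation (n : ℂ) = 1 →
    V.valuation ((emb x / n) ^ q - emb x / n) < 1

/-- (R5) multiplication by `lam` is the Frobenius modulo a place where `lam` is not a unit (up to sign: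
only the `x`-coordinate).

Uses Sv_POL, Sv_CYCL, Sv_R2, Sv_R4, Sv_CARD, Sv_FRK, Sa_ROO. PROOF. `E[lam] ⊂ E₁` (R2), `v q < 1`. Take `H` (CYCL), (CARD), (R4).
Work in the residue field `κ` of `V` (characteristic `q`), write `≡` for equality in `κ`. Let `w₁ = Om/2`,
`w₂ = Om w/2`, `w₃ = w₁ + w₂`, `e_i = ℘(w_i)`, `e_i' = ℘(l w_i)` (`l w_i` of order two, pairwise incongruent:
`l (w_i ± w_j) ∉ L` because `E[lam]` has no point of order two; `e_i, e_i' ∈ V` because `xx(w_i) ∈ V` and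
`a₂/3 ∈ V`). All `e_i - e_j`, `e_i' - e_j'`, `i ≠ j`, are units (`v_xx_sub`). Fix `x₀ ∈ V`, `c = Qp(x₀)²`. By (R4)(2)
`c (e_j' - e_i') ≡ (e_j - e_i)^q = e_j^q - e_i^q` for all `i, j`. `Σ e_i = 0 = Σ e_i'` (ROO, for `w₁, w₂` and for
`l w₁, l w₂`): sum over `i`: `3 c e_j' ≡ 3 e_j^q`, and `3` is a unit: (a) `e_j^q ≡ c e_j'`. Therefore, with
`Σ_(i<j) e_i e_j = -g₂/4 = Σ e_i' e_j'`, `∏ e_i = g₃/4 = ∏ e_i'` (ROO): `(g₂/4)^q ≡ c² g₂/4`, `(g₃/4)^q ≡ c³ g₃/4`
(`q` odd). By (FRK) `(g₂/4)^q ≡ g₂/4`, `(g₃/4)^q ≡ g₃/4` (`IsCM.g2`, `IsCM.g3`: `g₂/4 = emb(x)/3`,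
`g₃/4 = emb(y)/108` with `x, y ∈ O`). `g₂ = 40/3`, `g₃ = -224/27` in the first case, `g₂ = -8/3`, `g₃ = 7 (2w - 1)/27`,
`(2w-1)² = -11`, in the second: units. So `c² = 1 = c³`, `c ≡ 1` for every `x₀ ∈ V`. Now let `z ∉ E₁`, `x₀ = xx z`; then
`l z ∉ L` (otherwise `z ∈ E₁`). (POL)(second part): `(xx(lz) - xx(lw₁)) Qp(x₀)² = (x₀ - xx w₁) Cp(x₀)²`, which is
`≡ (x₀ - xx w₁)^q` (R4)(3). `Qp(x₀)²` is a unit, so `xx(lz) ∈ V`, and `xx(lz) - xx(lw₁) ≡ (x₀ - xx w₁)^q`, i.e.
`℘(lz) - e₁' ≡ ℘(z)^q - e₁^q`, so `℘(lz) ≡ ℘(z)^q` by (a). `xx = ℘ - a₂/3`, `(a₂/3)^q ≡ a₂/3` (FRK). -/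
def Sv_R5 : Prop :=
  ∀ (A B : ℤ) (L : PeriodPair) (Om : ℂ) (ξ : ℂ →+ (WC A B).Point), Case A B → IsCM A B L Om →
    IsXi A B L ξ → ∀ V : ValuationSubring ℂ, V.valuation 2 = 1 → V.valuation 3 = 1 →
    V.valuation 5 = 1 → V.valuation 7 = 1 → V.valuation 11 = 1 → ∀ (lam : OO A B) (q : ℕ),
    q.Prime → nm lam = q → V.valuation (emb lam) < 1 →
    ∀ z, ¬ InE1 A B V L z → ¬ InE1 A B V L (emb lam * z) ∧
      V.valuation (xx A B L (emb lam * z) - xx A B L z ^ q) < 1

/-- (TRA) total ramification: the parameter of a point of order `lam`.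

Uses Sv_CYCL, Sv_R2, Sv_R4, Sv_CARD, `VZ.lean`. PROOF. `v q < 1`, `q ≠ 2`. For `u, p ∈ E[lam]`, not in `L`: `p ≡ m u` (CYCL), `q` does not
divide `m` (otherwise `p ∈ L`), we may take `m ∈ ℕ` (replace by `m` mod `q`), `v m = 1` (`a m + b q = 1` and
`v q < 1`), so `v(tz p) = v(tz(m u)) = v(tz u)` (`v_tz_nat`; `tz` is periodic: `zc_xi`). `v(xx p) v(tz p)² = 1` (`v_tz_lt`). So
(R4)(1) gives `v(l) = ∏_(p ∈ H) v(tz p)² = v(tz u)^(2|H|) = v(tz u)^(q-1)`. -/
def Sv_TRA : Prop :=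
  ∀ (A B : ℤ) (L : PeriodPair) (Om : ℂ) (ξ : ℂ →+ (WC A B).Point), Case A B → IsCM A B L Om →
    IsXi A B L ξ → ∀ V : ValuationSubring ℂ, V.valuation 2 = 1 → ∀ (lam : OO A B) (q : ℕ),
    q.Prime → nm lam = q → V.valuation (emb lam) < 1 →
    ∀ u, emb lam * u ∈ L.lattice → u ∉ L.lattice →
      V.valuation (tz A B L u) ^ (q - 1) = V.valuation (emb lam)

/-- (INJ) `E[lam]` meets `E₁` trivially at the places where `lam` is a unit.

Uses Sv_CYCL, Sv_R4, Sv_CARD, `VZ.lean`. PROOF. If `v q = 1`: `q u ∈ L` (CYCL) and `mem_of_nat_mul`. Let `v q < 1` (so `q ≠ 2`),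
`u ∈ E[lam] ∩ E₁`, `u ∉ L`. All points of `E[lam]` are multiples of `u` (CYCL), so in `E₁`. (R4)(1):
`v(l) ∏ v(xx p) = 1`, but `v(l) = 1` and `v(xx p) > 1` for `p ∈ H` (`InE1`, `p ∉ L`), `H` not empty (`q ≥ 3`). -/
def Sv_INJ : Prop :=
  ∀ (A B : ℤ) (L : PeriodPair) (Om : ℂ) (ξ : ℂ →+ (WC A B).Point), Case A B → IsCM A B L Om →
    IsXi A B L ξ → ∀ V : ValuationSubring ℂ, V.valuation 2 = 1 → ∀ (lam : OO A B) (q : ℕ),
    q.Prime → nm lam = q → V.valuation (emb lam) = 1 →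
    ∀ u, emb lam * u ∈ L.lattice → InE1 A B V L u → u ∈ L.lattice

/-- (EXT) a prime of a number field in `ℂ` extends to a valuation ring of `ℂ`.

PROOF. `O_w = (w.valuation M).valuationSubring`, a local ring with fraction field `M`; its image in `ℂ` is a
local subring, dominated by a valuation ring `V` (`IsLocalRing.exists_factor_valuationRing` applied to
`O_w → M → ℂ`: `f(O_w) ⊂ V` and the map `O_w → V` is local). If `w x ≤ 1` then `φ x ∈ V`; if `w x < 1` then `φ x` is a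
nonunit (local). If `w x > 1`, then `w(x⁻¹) < 1`, so `φ(x)⁻¹` is a nonunit of `V`, `φ x ∉ V`. -/
def Sv_EXT : Prop :=
  ∀ (M : Type) [Field M] [NumberField M] (φ : M →+* ℂ) (w : HeightOneSpectrum (𝓞 M)),
    ∃ V : ValuationSubring ℂ, ∀ x : M, (φ x ∈ V ↔ w.valuation M x ≤ 1) ∧
      (V.valuation (φ x) < 1 ↔ w.valuation M x < 1) ∧ (V.valuation (φ x) = 1 ↔ w.valuation M x = 1)

end

end Pool.Agent.MU3V


end

section

/-!
# MU3, block V: a prime of a number field in `ℂ` extends to a valuation ring of `ℂ`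
-/

set_option autoImplicit false

open WeierstrassCurve Polynomial NumberField IsDedekindDomain

namespace Pool.Agent.MU3V

open _root_.MU3 _root_.Pool.Agent.MU3A _root_.Pool.Agent.MU3B

theorem tv_EXT : Sv_EXT := by
  intro M _ _ φ w
  let O : ValuationSubring M := (w.valuation M).valuationSubring
  obtain ⟨V, hV, hloc⟩ := IsLocalRing.exists_factor_valuationRing (φ.comp O.subtype)
  have hO : ∀ x : M, x ∈ O ↔ w.valuation M x ≤ 1 := fun x => Valuation.mem_valuationSubring_iff _ x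
  have h1 : ∀ x : M, w.valuation M x ≤ 1 → φ x ∈ V := fun x hx => hV ⟨x, (hO x).mpr hx⟩
  have h2 : ∀ x : M, w.valuation M x < 1 → V.valuation (φ x) < 1 := by
    intro x hx
    have hm := h1 x hx.le
    refine lt_of_le_of_ne ((V.valuation_le_one_iff _).mpr hm) fun he => ?_
    have hu : IsUnit (⟨φ x, hm⟩ : V) := (V.valuation_eq_one_iff ⟨φ x, hm⟩).mpr he
    have hu2 : IsUnit (⟨x, (hO x).mpr hx.le⟩ : O) := by
      refine hloc.map_nonunit _ ?_
      exact hu
    obtain ⟨y, hy⟩ := hu2.exists_right_inv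
    have hy1 : x * (y : M) = 1 := congrArg Subtype.val hy
    have hy2 : w.valuation M x * w.valuation M (y : M) = 1 := by
      rw [← map_mul, hy1, map_one]
    have hy3 : w.valuation M (y : M) ≤ 1 := (hO _).mp y.2
    have hy4 : w.valuation M x * w.valuation M (y : M) ≤ w.valuation M x :=
      mul_le_of_le_one_right' hy3
    rw [hy2] at hy4
    exact absurd hx (not_lt.mpr hy4)
  have h3 : ∀ x : M, 1 < w.valuation M x → 1 < V.valuation (φ x) := by
    intro x hx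
    have hx0 : x ≠ 0 := by
      rintro rfl
      rw [map_zero] at hx
      exact absurd hx (not_lt.mpr zero_le_one)
    have hi : w.valuation M x⁻¹ < 1 := by
      rw [map_inv₀]
      exact inv_lt_one_of_one_lt₀ hx
    have hi2 := h2 x⁻¹ hi
    rw [map_inv₀, map_inv₀] at hi2
    by_contra hc
    rw [not_lt] at hc
    have hv0 : V.valuation (φ x) ≠ 0 := by
      rw [Ne, map_eq_zero, map_eq_zero]
      exact hx0
    have hc2 : 1 ≤ (V.valuation (φ x))⁻¹ := (one_le_inv₀ (zero_lt_iff.mpr hv0)).mpr hc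
    exact absurd hi2 (not_lt.mpr hc2)
  have h4 : ∀ x : M, w.valuation M x = 1 → V.valuation (φ x) = 1 := by
    intro x hx
    have ha := (V.valuation_le_one_iff _).mpr (h1 x hx.le)
    have hb : w.valuation M x⁻¹ = 1 := by rw [map_inv₀, hx, inv_one]
    have hc := (V.valuation_le_one_iff _).mpr (h1 x⁻¹ hb.le)
    rw [map_inv₀, map_inv₀] at hc
    have hx0 : x ≠ 0 := by
      rintro rfl
      rw [map_zero] at hx
      exact zero_ne_one hx
    have hv0 : V.valuation (φ x) ≠ 0 := by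
      rw [Ne, map_eq_zero, map_eq_zero]
      exact hx0
    have hd : 1 ≤ V.valuation (φ x) := (inv_le_one₀ (zero_lt_iff.mpr hv0)).mp hc
    exact le_antisymm ha hd
  refine ⟨V, fun x => ?_⟩
  rcases lt_trichotomy (w.valuation M x) 1 with hx | hx | hx
  · have hv := h2 x hx
    exact ⟨⟨fun _ => hx.le, fun _ => h1 x hx.le⟩, ⟨fun _ => hx, fun _ => hv⟩,
      ⟨fun h => absurd h hv.ne, fun h => absurd h hx.ne⟩⟩
  · have hv := h4 x hx
    exact ⟨⟨fun _ => hx.le, fun _ => h1 x hx.le⟩,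
      ⟨fun h => absurd hv h.ne, fun h => absurd hx h.ne⟩, ⟨fun _ => hx, fun _ => hv⟩⟩
  · have hv := h3 x hx
    refine ⟨⟨fun h => absurd ((V.valuation_le_one_iff _).mpr h) (not_le.mpr hv),
      fun h => absurd h (not_le.mpr hx)⟩,
      ⟨fun h => absurd h (not_lt.mpr hv.le), fun h => absurd h (not_lt.mpr hx.le)⟩,
      ⟨fun h => absurd h hv.ne', fun h => absurd h hx.ne'⟩⟩

end Pool.Agent.MU3V


end

section

/-!
# MU3: Frobenius elements generate the Galois group (statement)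
-/

open NumberField IsDedekindDomain Ideal
open scoped nonZeroDivisors

namespace Pool.Agent.MU3

/-- DENSF: a subgroup of `Gal(F / k)` which contains the Frobenius elements of almost all primes of
prime norm of `k` is everything. (`y = σ x` in `𝓞 F` is written without the action on `𝓞 F`.)

Proof (from Stmt_NSP). Let `M = IntermediateField.fixedField H`, `m = [M : k]`. For a prime `v ∉ T` of `k` of prime norm
`q`, unramified in `M`: let `u` be a prime of `M` above `v`, `w` a prime of `F` above `u` (lying over). There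
is `σ` with `σ x ≡ x ^ q` modulo `w` for all `x ∈ 𝓞 F` (Mathlib: `IsArithFrobAt`,
`IsArithFrobAt.exists_of_isInvariant`, `Nat.card (𝓞 k ⧸ v) = q`; compare `Pool/Agent/RI/FROBOF.lean`), so `σ ∈ H` by
hypothesis, so `x = σ x ≡ x ^ q` modulo `u` for `x ∈ 𝓞 M`; the finite field `𝓞 M ⧸ u` has at most `q` elements (roots
of `X ^ q - X`), and it contains `𝓞 k ⧸ v`, so `absNorm u = q`. All primes of `M` above `v` have residue
degree `1` and ramification index `1`, so their number is `m` (`Ideal.sum_ramification_inertia`), i.e.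
`m ≤ spl k M v`. The primes of `k` which ramify in `M` are finitely many (different ideal, or P_BAD of
`StP.lean`). NSP with `S = T ∪ {ramified}` gives `m ≤ 1`, so `M = ⊥` and `H = ⊤`
(`IntermediateField.fixingSubgroup_fixedField`). -/
def Stmt_DENSF : Prop := ∀ (k F : Type) [Field k] [NumberField k] [Field F] [NumberField F]
    [Algebra k F] [IsGalois k F] (H : Subgroup (F ≃ₐ[k] F)) (T : Set (HeightOneSpectrum (𝓞 k))),
    T.Finite →
    (∀ v : HeightOneSpectrum (𝓞 k), v ∉ T → (absNorm v.asIdeal).Prime →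
      ∀ w : Ideal (𝓞 F), w.IsPrime → w.comap (algebraMap (𝓞 k) (𝓞 F)) = v.asIdeal →
      ∀ σ : F ≃ₐ[k] F,
        (∀ x y : 𝓞 F, (y : F) = σ (x : F) → y - x ^ absNorm v.asIdeal ∈ w) → σ ∈ H) →
    H = ⊤

end Pool.Agent.MU3


end

section

set_option autoImplicit false

namespace Pool.Agent.MU3V

open _root_.MU3 _root_.Pool.Agent.MU3A _root_.Pool.Agent.MU3B

lemma FRK_int {κ : Type*} [Field κ] {q : ℕ} (hq : q.Prime) (h0 : (q : κ) = 0) (m : ℤ) :
    (m : κ) ^ q = (m : κ) := by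
  haveI : Fact q.Prime := ⟨hq⟩
  haveI : CharP κ q := by
    have hr := CharP.exists κ
    obtain ⟨p, hp⟩ := hr
    have hd : p ∣ q := (CharP.cast_eq_zero_iff κ p q).1 h0
    rcases (Nat.dvd_prime hq).1 hd with h | h
    · exfalso
      subst h
      exact CharP.char_ne_one κ 1 rfl
    · subst h
      exact hp
  have h1 : ((m : ZMod q)) ^ q = (m : ZMod q) := ZMod.pow_card _
  have h2 := congrArg (ZMod.castHom (dvd_refl q) κ) h1
  rw [map_pow, map_intCast] at h2
  exact h2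

theorem tv_FRK (hDEG : Sv_DEG1) : Sv_FRK := by
  intro A B hc V lam x q n hq hlam hvl hvn
  obtain ⟨h1, h2, -⟩ := hDEG A B hc lam q hq hlam
  obtain ⟨m, hm⟩ := h1 x
  -- elements of `V`
  have hlV := emb_mem_V hc V lam
  have hxV := emb_mem_V hc V x
  have htV : emb x / n ∈ V := by
    rw [← ValuationSubring.valuation_le_one_iff, map_div₀, hvn, div_one]
    exact v_emb_le hc V x
  have hn0 : (n : ℂ) ≠ 0 := by
    intro h
    rw [h, map_zero] at hvn
    exact zero_ne_one hvn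
  set φ := IsLocalRing.residue V with hφ
  have hker : ∀ y : V, V.valuation (y : ℂ) < 1 ↔ φ y = 0 := by
    intro y
    rw [hφ, IsLocalRing.residue_eq_zero_iff, ← ValuationSubring.valuation_lt_one_iff]
  have hφl : φ ⟨emb lam, hlV⟩ = 0 := (hker _).1 hvl
  have hdvd : ∀ z : OO A B, lam ∣ z → φ ⟨emb z, emb_mem_V hc V z⟩ = 0 := by
    rintro z ⟨w, rfl⟩
    have : (⟨emb (lam * w), emb_mem_V hc V (lam * w)⟩ : V) =
        ⟨emb lam, hlV⟩ * ⟨emb w, emb_mem_V hc V w⟩ := by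
      apply Subtype.ext
      exact emb_mul hc lam w
    rw [this, map_mul, hφl, zero_mul]
  have hq0 : ((q : ℕ) : IsLocalRing.ResidueField V) = 0 := by
    have := hdvd _ h2
    have e : (⟨emb (q : OO A B), emb_mem_V hc V _⟩ : V) = (q : V) := by
      apply Subtype.ext
      simp [emb_natCast hc]
    rw [e, map_natCast] at this
    exact this
  have hx : φ ⟨emb x, hxV⟩ = (m : IsLocalRing.ResidueField V) := by
    have h3 := hdvd _ hm
    have e : (⟨emb (x - (m : OO A B)), emb_mem_V hc V _⟩ : V) = ⟨emb x, hxV⟩ - (m : V) := by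
      apply Subtype.ext
      simp [emb_sub hc, emb_intCast hc]
    rw [e, map_sub, map_intCast, sub_eq_zero] at h3
    exact h3
  have ht : φ ⟨emb x / n, htV⟩ * (n : IsLocalRing.ResidueField V) = m := by
    rw [← hx, ← map_natCast φ n, ← map_mul]
    congr 1
    apply Subtype.ext
    simp
    field_simp
  have hnk : (n : IsLocalRing.ResidueField V) ≠ 0 := by
    intro h
    rw [← map_natCast φ n, ← hker] at h
    have : V.valuation (n : ℂ) < 1 := by simpa using h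
    rw [hvn] at this
    exact lt_irrefl _ this
  have ht' : φ ⟨emb x / n, htV⟩ ^ q = φ ⟨emb x / n, htV⟩ := by
    have e1 : φ ⟨emb x / n, htV⟩ = m / n := by rw [eq_div_iff hnk]; exact ht
    rw [e1, div_pow]
    have e2 := FRK_int hq hq0 m
    have e3 := FRK_int hq hq0 (n : ℤ)
    rw [Int.cast_natCast] at e3
    rw [e2, e3]
  have hfin : φ (⟨emb x / n, htV⟩ ^ q - ⟨emb x / n, htV⟩) = 0 := by
    rw [map_sub, map_pow, ht', sub_self]
  rw [← hker] at hfin
  simpa using hfin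

end Pool.Agent.MU3V


end

section

/-!
# MU3, block V, module DEG1: residue classes modulo an element of prime norm
-/

set_option autoImplicit false

open WeierstrassCurve Polynomial NumberField IsDedekindDomain

namespace Pool.Agent.MU3V

open _root_.MU3 _root_.Pool.Agent.MU3A _root_.Pool.Agent.MU3B

namespace DEG1

theorem nm_eq {A B : ℤ} (x : OO A B) : nm x = QuadraticAlgebra.norm x := by
  rw [QuadraticAlgebra.norm_def]
  unfold nm
  ring

theorem mul_conj {A B : ℤ} (lam : OO A B) :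
    lam * (⟨lam.re + B * lam.im, -lam.im⟩ : OO A B) = ((nm lam : ℤ) : OO A B) := by
  ext
  · rw [QuadraticAlgebra.re_intCast, QuadraticAlgebra.re_mul, Int.cast_id]
    unfold nm
    ring
  · rw [QuadraticAlgebra.im_intCast, QuadraticAlgebra.im_mul]
    ring

end DEG1

open _root_.Pool.Agent.MU3V.DEG1 in
theorem tv_DEG1 : Sv_DEG1 := by
  intro A B _ lam q hq hn
  have hqi : Prime (q : ℤ) := Nat.prime_iff_prime_int.1 hq
  have hdvd : lam ∣ (q : OO A B) := by
    have h0 := mul_conj lam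
    rw [hn, Int.cast_natCast] at h0
    exact ⟨_, h0.symm⟩
  have hnm : lam.re ^ 2 + B * lam.re * lam.im - A * lam.im ^ 2 = q := hn
  have him : ¬ (q : ℤ) ∣ lam.im := by
    rintro ⟨b, hb⟩
    have h1 : (q : ℤ) ∣ lam.re ^ 2 := by
      refine ⟨1 - B * lam.re * b + A * q * b ^ 2, ?_⟩
      rw [hb] at hnm
      linear_combination hnm
    obtain ⟨a, ha⟩ := hqi.dvd_of_dvd_pow h1
    rw [hb, ha] at hnm
    have h2 : (q : ℤ) ∣ 1 := by
      refine ⟨a ^ 2 + B * a * b - A * b ^ 2, ?_⟩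
      have h3 : (q : ℤ) ≠ 0 := hqi.ne_zero
      apply mul_left_cancel₀ h3
      linear_combination -hnm
    exact hqi.not_isUnit (isUnit_of_dvd_one h2)
  refine ⟨?_, hdvd, ?_⟩
  · intro x
    have hcop : IsCoprime lam.im (q : ℤ) := ((Prime.coprime_iff_not_dvd hqi).2 him).symm
    obtain ⟨b', c, hbc⟩ := hcop
    refine ⟨x.re - x.im * lam.re * b', ?_⟩
    obtain ⟨y, hy⟩ := hdvd
    have h1 : x - ((x.re - x.im * lam.re * b' : ℤ) : OO A B) =
        lam * ((x.im : OO A B) * ((b' : OO A B) + y * (c : OO A B) * ⟨0, 1⟩)) := by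
      have h2 : lam * ((x.im : OO A B) * ((b' : OO A B) + y * (c : OO A B) * ⟨0, 1⟩)) =
          (x.im : OO A B) * ((b' : OO A B) * lam + (q : OO A B) * (c : OO A B) * ⟨0, 1⟩) := by
        rw [hy]
        ring
      rw [h2]
      ext
      · simp
        ring
      · simp
        linear_combination (-x.im) * hbc
    exact ⟨_, h1⟩
  · intro n hdn
    have h1 : QuadraticAlgebra.norm lam ∣ QuadraticAlgebra.norm (n : OO A B) :=
      _root_.map_dvd QuadraticAlgebra.norm hdn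
    rw [QuadraticAlgebra.norm_intCast, ← nm_eq, hn] at h1
    exact hqi.dvd_of_dvd_pow h1

end Pool.Agent.MU3V


end
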