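import Mathlib
import Pool.Agent.MVF.C005
import Pool.Agent.MVF.C011

/-! Parts: MU3.CDefs, MU3.KDefs, MUX.KDefsP -/

namespace Pool.Agent.MU3
end Pool.Agent.MU3

section

/-!
# MU3: the elements `c_n` (helper59)

`A`, `B`, `L`, `Om` as in `ADefs.lean` (`IsCM A B L Om`), `m : OO A B` the level, `TF L m = k(E[m])`,
`D : IntermediateField ℚ ℂ` a field with `k ≤ D ≤ TF L m` (`D = K_n`, `m = f 3^(n+1)`), `H` a half system for
the integer `a = 1 + 6 f`. Galois group of `D / k`: `D ≃ₐ[kk A B] D` for the algebra structure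
`algC h` of `Pool/Agent/RI/Stmts.lean`, `h : kk A B ≤ D`.

* `Ext1 h τ σ` : the automorphism `σ` of `TF L m` extends `τ`.
* `XX L m h τ` : the set of the classes `x` of `O / m` such that some automorphism of `TF L m / k` acts on
  `E[m]` as multiplication by `x` and extends `τ`.
* `cc L Om m H h τ` : the complex number `∏ Θ_a(x u)`, `x ∈ XX L m h τ`, `u = Om / m`. It is `τ(c)`,
  `c = cc L Om m H h 1 = N_(TF L m / D) Θ_a(u)`.
-/

set_option autoImplicit false

namespace Pool.Agent.MU3C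

open _root_.MU3 _root_.Pool.Agent.MU3A _root_.Pool.Agent.MU3B _root_.Pool.Agent.RI

noncomputable section

variable {A B : ℤ}

/-- the automorphism `σ` of `F / k` and the automorphism `τ` of `D / k` agree on `F ∩ D` -/
def Ext1 {D : IntermediateField ℚ ℂ} (h : kk A B ≤ D) {F : IntermediateField (kk A B) ℂ}
    (τ : letI := algC h; D ≃ₐ[kk A B] D) (σ : F ≃ₐ[kk A B] F) : Prop :=
  letI := algC h
  ∀ (y : D) (hy : (y : ℂ) ∈ F), (σ ⟨y, hy⟩ : ℂ) = (τ y : ℂ)

/-- the classes `x` of `O / m` such that some automorphism of `TF L m / k` acts on `E[m]` as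
multiplication by `x` and extends `τ` -/
def XX (L : PeriodPair) (m : OO A B) {D : IntermediateField ℚ ℂ} (h : kk A B ≤ D)
    (τ : letI := algC h; D ≃ₐ[kk A B] D) : Set (OO A B ⧸ Ideal.span {m}) :=
  {x | ∃ σ : TF L m ≃ₐ[kk A B] TF L m, Act L (_root_.Pool.Agent.MU3A.em σ) m (Quotient.out x) ∧ Ext1 h τ σ}

/-- `∏ Θ_a(x u)`, `x ∈ XX L m h τ`, `u = Om / m` -/
def cc (L : PeriodPair) (Om : ℂ) (m : OO A B) (H : Finset ℂ) {D : IntermediateField ℚ ℂ}
    (h : kk A B ≤ D) (τ : letI := algC h; D ≃ₐ[kk A B] D) : ℂ :=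
  ∏ᶠ x ∈ XX L m h τ, ThetaH L H (emb (Quotient.out x) * (Om / emb m))

/-- the level `f 3^(n+1)` as an element of `O` -/
def lev (A B : ℤ) (f n : ℕ) : OO A B := ((f * 3 ^ (n + 1) : ℕ) : OO A B)

end

end Pool.Agent.MU3C


end

section

/-!
# MU3, block K: the interface of the Kolyvagin step

`k ⊆ L` number fields, `L / k` Galois with abelian group `G = Gal(L / k)`, `S` a finite set of prime
numbers. `J L`, `prin`, the action of `G` on `J L` are from `Pool/Agent/RI/Defs.lean`.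

* `SU S L x` : `x` is a unit outside `S`.
* `SJ S L` : the fractional ideals composed of primes above `S`.
* `KolIn k L S c` : the input (I2) for `c` in `Lˣ`, a unit outside `S` (from the CM curve).
* `KRel k L S u` : the relations in the class group for the unit `u` of `L`.
* `S_KIN` : the statement of section 1: `KolIn` for `c` gives `KRel` for `u = c^(g^3 - 1)`.
-/

open NumberField IsDedekindDomain
open scoped nonZeroDivisors Pointwise

namespace Pool.Agent.MU3

open _root_.Pool.Agent.RI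

/-- `v` is a prime of `L` above a prime number of `S`. -/
def Above (S : Finset ℕ) {L : Type} [Field L] [NumberField L] (v : HeightOneSpectrum (𝓞 L)) :
    Prop := ∃ p ∈ S, (p : 𝓞 L) ∈ v.asIdeal

/-- `x` is a unit outside `S`. -/
def SU (S : Finset ℕ) (L : Type) [Field L] [NumberField L] (x : L) : Prop :=
  ∀ v : HeightOneSpectrum (𝓞 L), ¬ Above S v → v.valuation L x = 1

/-- The prime `v` as an element of the group of fractional ideals. -/
noncomputable def vJ {L : Type} [Field L] [NumberField L] (v : HeightOneSpectrum (𝓞 L)) : J L :=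
  Units.mk0 (v.asIdeal : FractionalIdeal (𝓞 L)⁰ L)
    (FractionalIdeal.coeIdeal_ne_zero.2 v.ne_bot)

/-- The group generated by the primes above `S`. -/
def SJ (S : Finset ℕ) (L : Type) [Field L] [NumberField L] : Subgroup (J L) :=
  Subgroup.closure {x | ∃ v : HeightOneSpectrum (𝓞 L), Above S v ∧ x = vJ v}

/-- `lam` is a prime of `L` of degree one, of residue characteristic `q ∉ S`, `q ≡ 1` modulo `3`,
with trivial decomposition group over `k`. -/
structure GoodPr (k L : Type) [Field k] [Field L] [NumberField L] [Algebra k L] (S : Finset ℕ)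
    (lam : HeightOneSpectrum (𝓞 L)) (q : ℕ) : Prop where
  prime : q.Prime
  notin : q ∉ S
  three : 3 ∣ q - 1
  card : Nat.card (𝓞 L ⧸ lam.asIdeal) = q
  free : ∀ h : L ≃ₐ[k] L, h • lam.asIdeal = lam.asIdeal → h = 1

/-- Input (I2): for every good prime `lam` of `L` there are a cyclic cubic extension `F / L`,
abelian over `k`, unramified outside `S` and `lam ∩ k`, totally ramified at the primes above
`lam ∩ k`, and `z` in `F`, a unit outside `S`, whose norm to `L` is in `k` and which is congruent to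
`c ^ ((q - 1) / 3)` modulo all primes of `F` above `lam ∩ k`. -/
def KolIn (k L : Type) [Field k] [NumberField k] [Field L] [NumberField L] [Algebra k L]
    (S : Finset ℕ) (c : L) : Prop :=
  ∀ (lam : HeightOneSpectrum (𝓞 L)) (q : ℕ), GoodPr k L S lam q →
    ∃ (F : Type) (_ : Field F) (_ : NumberField F) (_ : Algebra k F) (_ : Algebra L F)
      (_ : IsScalarTower k L F), IsGalois k F ∧ (∀ σ τ : F ≃ₐ[k] F, σ * τ = τ * σ) ∧
      Module.finrank L F = 3 ∧
      (∀ w : HeightOneSpectrum (𝓞 F), ¬ Above S w →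
        w.asIdeal.under (𝓞 k) ≠ lam.asIdeal.under (𝓞 k) → w.asIdeal.ramificationIdx (𝓞 L) = 1) ∧
      (∀ w : HeightOneSpectrum (𝓞 F), w.asIdeal.under (𝓞 k) = lam.asIdeal.under (𝓞 k) →
        w.asIdeal.ramificationIdx (𝓞 L) = 3) ∧
      ∃ z : F, SU S F z ∧ (∃ y : k, Algebra.norm L z = algebraMap k L y) ∧
        ∀ w : HeightOneSpectrum (𝓞 F), w.asIdeal.under (𝓞 k) = lam.asIdeal.under (𝓞 k) →
          w.valuation F (z - algebraMap L F c ^ ((q - 1) / 3)) < 1

/-- The relations in the class group of `L` for the unit `u`: for every good prime `lam`, every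
integer `a` of order `3` modulo `q`, and exponents `b h` with `u ^ ((q-1)/3) ≡ a ^ (b h)` modulo `h lam`,
the ideal `∏ (h lam) ^ (b h)` is a principal ideal times a cube times primes above `S`. -/
def KRel (k L : Type) [Field k] [NumberField k] [Field L] [NumberField L] [Algebra k L]
    [FiniteDimensional k L] (S : Finset ℕ) (u : (𝓞 L)ˣ) : Prop :=
  ∀ (lam : HeightOneSpectrum (𝓞 L)) (q : ℕ), GoodPr k L S lam q →
    ∀ a : ℤ, (q : ℤ) ∣ a ^ 3 - 1 → ¬ (q : ℤ) ∣ a - 1 → ∀ b : (L ≃ₐ[k] L) → ℕ,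
      (∀ h : L ≃ₐ[k] L, (u : 𝓞 L) ^ ((q - 1) / 3) - (a : 𝓞 L) ^ b h ∈ h • lam.asIdeal) →
      ∃ (κ : Lˣ) (I s : J L), s ∈ SJ S L ∧
        ∏ h : L ≃ₐ[k] L, (h • vJ lam) ^ b h = prin κ * I ^ 3 * s

/-- KIN (section 1, helper80): the relations for `u = c ^ (g ^ 3 - 1)`, where `g` fixes all primes of
`L` above `S`.
Proof. `Pool/Agent/MU3/PAPER_K.md`, section 1. For a good prime `lam` take `F`, `z` from `KolIn`,
an extension `g'` of `g` to `F`. `g'` commutes with `Gal(F / L)`, which is transitive on the primes of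
`F` above a prime `v` of `L`; if `v` is above `S` then `g' w = τ w`, so `g' ^ 3 w = τ ^ 3 w = w`. So
`z' = g' ^ 3 z / z` is a unit of `𝓞 F`, `N z' = 1` (`N z ∈ k`), `z' ≡ u ^ ((q-1)/3)` modulo all `w` above
`lam ∩ k`. Lemmas 1 and 2. -/
def S_KIN : Prop := ∀ (k L : Type) [Field k] [NumberField k] [Field L] [NumberField L]
    [Algebra k L] [IsGalois k L], (∀ σ τ : L ≃ₐ[k] L, σ * τ = τ * σ) →
    ∀ (S : Finset ℕ), 3 ∈ S → ∀ (c : L), c ≠ 0 → SU S L c → KolIn k L S c →
    ∀ g : L ≃ₐ[k] L, (∀ v : HeightOneSpectrum (𝓞 L), Above S v → g • v.asIdeal = v.asIdeal) →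
    ∀ u : (𝓞 L)ˣ, ((u : 𝓞 L) : L) = (g ^ 3) c / c → KRel k L S u

end Pool.Agent.MU3


end

section

/-!
# MUX: the interface of the Kolyvagin step for a prime number `p` (helper59)

The version of `Pool/Agent/MU3/KDefs.lean` for a prime number `p` in place of `3` (there is one more factor
`2`: the residue characteristic `q` of a good prime satisfies `2 p ∣ q - 1`; for `p = 3` and odd `q` it is `3 ∣ q - 1`, for
`p = 2` it is `q ≡ 1` modulo `4`). `Above`, `SU`, `SJ`, `vJ` are those of `KDefs.lean`.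
-/

set_option autoImplicit false

open NumberField IsDedekindDomain
open scoped nonZeroDivisors Pointwise

namespace Pool.Agent.MUXK

open _root_.Pool.Agent.MU3 _root_.Pool.Agent.RI

/-- `lam` is a prime of `L` of degree one, of residue characteristic `q ∉ S`, `q ≡ 1` modulo `2 p`,
with trivial decomposition group over `k`. -/
structure GoodPrP (p : ℕ) (k L : Type) [Field k] [Field L] [NumberField L] [Algebra k L]
    (S : Finset ℕ) (lam : HeightOneSpectrum (𝓞 L)) (q : ℕ) : Prop where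
  prime : q.Prime
  notin : q ∉ S
  dvd : 2 * p ∣ q - 1
  card : Nat.card (𝓞 L ⧸ lam.asIdeal) = q
  free : ∀ h : L ≃ₐ[k] L, h • lam.asIdeal = lam.asIdeal → h = 1

/-- The body of `KolInP`. -/
def KolBodyP (p : ℕ) (k L : Type) [Field k] [NumberField k] [Field L] [NumberField L] [Algebra k L]
    (Gs : Set (L ≃ₐ[k] L)) (S : Finset ℕ) (c : L) (lam : HeightOneSpectrum (𝓞 L)) (q : ℕ) : Prop :=
    ∃ (F : Type) (_ : Field F) (_ : NumberField F) (_ : Algebra k F) (_ : Algebra L F)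
      (_ : IsScalarTower k L F), IsGalois k F ∧ (∀ σ τ : F ≃ₐ[k] F, σ * τ = τ * σ) ∧
      Module.finrank L F = p ∧
      (∀ w : HeightOneSpectrum (𝓞 F), ¬ Above S w →
        w.asIdeal.under (𝓞 k) ≠ lam.asIdeal.under (𝓞 k) → w.asIdeal.ramificationIdx (𝓞 L) = 1) ∧
      (∀ w : HeightOneSpectrum (𝓞 F), w.asIdeal.under (𝓞 k) = lam.asIdeal.under (𝓞 k) →
        w.asIdeal.ramificationIdx (𝓞 L) = p) ∧
      ∃ z : F, SU S F z ∧ (∀ g ∈ Gs, g (Algebra.norm L z) = Algebra.norm L z) ∧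
        ∀ w : HeightOneSpectrum (𝓞 F), w.asIdeal.under (𝓞 k) = lam.asIdeal.under (𝓞 k) →
          w.valuation F (z - algebraMap L F c ^ ((q - 1) / p)) < 1

/-- Input (I2): for every good prime `lam` of `L` there are a cyclic extension `F / L` of degree `p`,
abelian over `k`, unramified outside `S` and `lam ∩ k`, totally ramified at the primes above
`lam ∩ k`, and `z` in `F`, a unit outside `S`, whose norm to `L` is fixed by `Gs` and which is congruent to
`c ^ ((q - 1) / p)` modulo all primes of `F` above `lam ∩ k`. -/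
def KolInP (p : ℕ) (k L : Type) [Field k] [NumberField k] [Field L] [NumberField L] [Algebra k L]
    (Gs : Set (L ≃ₐ[k] L)) (S : Finset ℕ) (c : L) : Prop :=
  ∀ (lam : HeightOneSpectrum (𝓞 L)) (q : ℕ), GoodPrP p k L S lam q → KolBodyP p k L Gs S c lam q

/-- The relations in the class group of `L` for the unit `u`: for every good prime `lam`, every
integer `a` of order `p` modulo `q`, and exponents `b h` with `u ^ ((q-1)/p) ≡ a ^ (b h)` modulo `h lam`,
the ideal `∏ (h lam) ^ (b h)` is a principal ideal times a `p`-th power times primes above `S`. -/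
def KRelP (p : ℕ) (k L : Type) [Field k] [NumberField k] [Field L] [NumberField L] [Algebra k L]
    [FiniteDimensional k L] (S : Finset ℕ) (u : (𝓞 L)ˣ) : Prop :=
  ∀ (lam : HeightOneSpectrum (𝓞 L)) (q : ℕ), GoodPrP p k L S lam q →
    ∀ a : ℤ, (q : ℤ) ∣ a ^ p - 1 → ¬ (q : ℤ) ∣ a - 1 → ∀ b : (L ≃ₐ[k] L) → ℕ,
      (∀ h : L ≃ₐ[k] L, (u : 𝓞 L) ^ ((q - 1) / p) - (a : 𝓞 L) ^ b h ∈ h • lam.asIdeal) →
      ∃ (κ : Lˣ) (I s : J L), s ∈ SJ S L ∧
        ∏ h : L ≃ₐ[k] L, (h • vJ lam) ^ b h = prin κ * I ^ p * s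

/-- I2ABSP: `M / k` abelian, `χ` a character of order `p` of `Gal(M / L)`, non trivial on a group `A`
of automorphisms which are inert at the primes above `lam ∩ k`. -/
def S_I2ABSP : Prop := ∀ (p : ℕ), p.Prime →
    ∀ (k L M : Type) [Field k] [NumberField k] [Field L] [NumberField L]
    [Field M] [NumberField M] [Algebra k L] [Algebra L M] [Algebra k M] [IsScalarTower k L M]
    [IsGalois k M], (∀ σ τ : M ≃ₐ[k] M, σ * τ = τ * σ) →
    ∀ (Gs : Set (L ≃ₐ[k] L)) (S : Finset ℕ) (c : L) (lam : HeightOneSpectrum (𝓞 L)) (q : ℕ),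
    ∀ (A : Subgroup (M ≃ₐ[L] M)) (χ : (M ≃ₐ[L] M) →* Multiplicative (ZMod p)),
    (∃ σ ∈ A, χ σ ≠ 1) →
    (∀ w : HeightOneSpectrum (𝓞 M), ¬ Above S w →
      w.asIdeal.under (𝓞 k) ≠ lam.asIdeal.under (𝓞 k) → ∀ σ : M ≃ₐ[L] M,
      (∀ x : 𝓞 M, σ • x - x ∈ w.asIdeal) → σ = 1) →
    (∀ w : HeightOneSpectrum (𝓞 M), w.asIdeal.under (𝓞 k) = lam.asIdeal.under (𝓞 k) →
      ∀ σ ∈ A, ∀ x : 𝓞 M, σ • x - x ∈ w.asIdeal) →
    ∀ θ θ₀ : M, SU S M θ →
    (∀ w : HeightOneSpectrum (𝓞 M), w.asIdeal.under (𝓞 k) = lam.asIdeal.under (𝓞 k) →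
      ∀ σ : M ≃ₐ[L] M, w.valuation M (σ θ₀) ≤ 1 ∧ w.valuation M (σ θ - σ θ₀) < 1) →
    (∀ y : L, algebraMap L M y = ∏ᶠ σ : M ≃ₐ[L] M, σ θ → ∀ g ∈ Gs, g y = y) →
    ∏ᶠ σ : χ.ker, (σ : M ≃ₐ[L] M) θ₀ = algebraMap L M c ^ ((q - 1) / p) →
    KolBodyP p k L Gs S c lam q

/-- For `p = 3` the good primes and `KolIn` are those of `KDefs.lean` (if `2 ∈ S`). -/
theorem goodPr_three {k L : Type} [Field k] [Field L] [NumberField L] [Algebra k L]
    {S : Finset ℕ} (h2 : 2 ∈ S) {lam : HeightOneSpectrum (𝓞 L)} {q : ℕ} :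
    GoodPrP 3 k L S lam q ↔ GoodPr k L S lam q := by
  constructor
  · intro h
    exact ⟨h.prime, h.notin, (dvd_mul_left 3 2).trans h.dvd, h.card, h.free⟩
  · intro h
    refine ⟨h.prime, h.notin, ?_, h.card, h.free⟩
    have h3 := h.three
    have hq2 : q ≠ 2 := fun e => h.notin (e ▸ h2)
    obtain ⟨t, ht⟩ := h.prime.odd_of_ne_two hq2
    omega

theorem kolIn_three {k L : Type} [Field k] [NumberField k] [Field L] [NumberField L] [Algebra k L]
    [FiniteDimensional k L] [IsGalois k L] {S : Finset ℕ} (h2 : 2 ∈ S) {c : L} :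
    KolInP 3 k L Set.univ S c ↔ KolIn k L S c := by
  unfold KolInP KolIn
  have key : ∀ y : L, (∀ g ∈ (Set.univ : Set (L ≃ₐ[k] L)), g y = y) ↔
      ∃ x : k, y = algebraMap k L x := by
    intro y
    constructor
    · intro h
      have h1 := (IsGalois.mem_bot_iff_fixed (F := k) y).2 (fun g => h g trivial)
      obtain ⟨x, hx⟩ := IntermediateField.mem_bot.1 h1
      exact ⟨x, hx.symm⟩
    · rintro ⟨x, rfl⟩ g -
      exact g.commutes x
  constructor
  · intro h lam q hg
    obtain ⟨F, i1, i2, i3, i4, i5, j1, j2, j3, j4, j5, z, k1, k2, k3⟩ :=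
      h lam q ((goodPr_three h2).2 hg)
    exact ⟨F, i1, i2, i3, i4, i5, j1, j2, j3, j4, j5, z, k1, (key _).1 k2, k3⟩
  · intro h lam q hg
    obtain ⟨F, i1, i2, i3, i4, i5, j1, j2, j3, j4, j5, z, k1, k2, k3⟩ :=
      h lam q ((goodPr_three h2).1 hg)
    exact ⟨F, i1, i2, i3, i4, i5, j1, j2, j3, j4, j5, z, k1, (key _).2 k2, k3⟩

/-- more constants -/
theorem KolInP.mono {p : ℕ} {k L : Type} [Field k] [NumberField k] [Field L] [NumberField L]
    [Algebra k L] {Gs Gs' : Set (L ≃ₐ[k] L)} (hG : Gs' ⊆ Gs) {S : Finset ℕ} {c : L}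
    (h : KolInP p k L Gs S c) : KolInP p k L Gs' S c := by
  intro lam q hg
  obtain ⟨F, i1, i2, i3, i4, i5, j1, j2, j3, j4, j5, z, k1, k2, k3⟩ := h lam q hg
  exact ⟨F, i1, i2, i3, i4, i5, j1, j2, j3, j4, j5, z, k1, fun g hg => k2 g (hG hg), k3⟩

end Pool.Agent.MUXK


end
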