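import Mathlib
import Pool.Agent.MVF.C005
import Pool.Agent.MVF.C011

/-! Parts: MUX.DefsX2, NS.DefsN, NS.DefsR, ME.DefsE -/

namespace Pool.Agent.NS
end Pool.Agent.NS
namespace Pool.Agent.NSRD
end Pool.Agent.NSRD

section

/-!
# MUX: common definitions, part 2 (helper3): levels, elliptic units, logarithmic derivatives

`p` = 3 or 2 (`CaseP p A B`), `P` a prime ideal of norm `p`, `V` a valuation ring of `ℂ` with `V ∩ O = P`. Levels
`m = lvX p f n = f q0 p^n`, `q0 = p` for `p` odd, `4` for `p = 2`; `a = aX p f = 1 + 2 q0 f`; the generator of the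
Galois group of the layers corresponds to `1 + q0` (4 or 5). `R : Reps A B (p * f) ι`. See `PAPER_X.md`, sections 4, 6, 7.

* `ExtC h τ σ` : the automorphism `σ` of `ℂ` extends the automorphism `τ` of `D / k`.
* `XX R m h τ` : the pairs `(i, x)`, `x` a class of `O / m` prime to `m`, such that some `σ ∈ Aut(ℂ / k)` extending `τ`
  maps the base point `om_(i0) / m` of `L_(i0)` to `±` the point `pt R m i x` of `L_i`. Stable under `x ↦ -x`.
* `cX R m H h τ = ∏ Θ_a(pt R m i x; L_i)`, `(i, x) ∈ XX R m h τ`; `cX .. 1 = N_(RF m / D)(Θ_a(om/m))²`.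
* `muX R i = om_i N(b_i) / om_(i0)`, the multiplier of `L_(i0) → L_i`.
* `TTX R P m a h τ = Σ w_P(x) mu_i (Θ_a'/Θ_a)(pt R m i x; L_i)`, `(i, x) ∈ XX R m h τ`.
* `SnX R m M e i c = mu_i Σ_(x mod m, N x N b_i ≡ c mod M) e(x) ee(pt R m i x; L_i)`,
  `STX R m M a e kk c = Σ_i kk_i (a SnX i (a² c) - a² SnX i c)`.
* `HfX p V x` : `v(x)^(p-1) ≤ v(p)`.
-/

set_option autoImplicit false

namespace Pool.Agent.MUX

open _root_.MU3 _root_.Pool.Agent.MU3A _root_.Pool.Agent.MU3B _root_.Pool.Agent.RI OnePoint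

noncomputable section

/-! ## Levels -/

/-- `q0 = p`, but `4` for `p = 2` -/
def q0 (p : ℕ) : ℕ := if p = 2 then 4 else p

/-- the level `f q0 p^n` -/
def lvX (p f n : ℕ) : ℕ := f * q0 p * p ^ n

/-- the auxiliary number `a = 1 + 2 q0 f` -/
def aX (p f : ℕ) : ℕ := 1 + 2 * q0 p * f

/-- the level as an ideal -/
abbrev idl {A B : ℤ} (m : ℕ) : Ideal (OO A B) := Ideal.span {((m : ℕ) : OO A B)}

/-- `V ∩ O = P` -/
def OverI {A B : ℤ} (V : ValuationSubring ℂ) (P : Ideal (OO A B)) : Prop :=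
  ∀ x : OO A B, emb x ∈ V.nonunits ↔ x ∈ P

/-- the standing hypotheses for `p`: `P` a prime ideal of norm `p`, `V` above `P`, the level `f` -/
structure SetP (p : ℕ) (A B : ℤ) (P : Ideal (OO A B)) (V : ValuationSubring ℂ) (f : ℕ) : Prop where
  case : CaseP p A B
  hP : IsPN p P
  hV : OverI V P
  f0 : f ≠ 0
  fp : ¬ p ∣ f
  fD : absD A B ∣ (f : ℤ)
  f2 : p ≠ 2 → 2 * absD A B ∣ (f : ℤ)

/-! ## The pairs `(i, x)` -/

section
variable {A B : ℤ} {n : ℕ} {ι : Type}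

/-- the automorphism `σ` of `ℂ` extends the automorphism `τ` of `D / k` -/
def ExtC {D : IntermediateField ℚ ℂ} (h : kk A B ≤ D)
    (τ : letI := algC h; D ≃ₐ[kk A B] D) (σ : ℂ ≃+* ℂ) : Prop :=
  letI := algC h
  ∀ y : D, σ (y : ℂ) = (τ y : ℂ)

/-- the pairs `(i, x)` of level `m`, `x` prime to `m`, which are hit by an extension of `τ` -/
def XX (R : Reps A B n ι) (m : ℕ) {D : IntermediateField ℚ ℂ} (h : kk A B ≤ D)
    (τ : letI := algC h; D ≃ₐ[kk A B] D) : Set (ι × (OO A B ⧸ idl (A := A) (B := B) m)) :=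
  {q | IsCoprime (Quotient.out q.2 : OO A B) ((m : ℕ) : OO A B) ∧
    ∃ σ : ℂ ≃+* ℂ, FixK A B σ ∧ ExtC h τ σ ∧ Hits R m σ q.1 (Quotient.out q.2)}

/-- `∏ Θ_a(pt R m i x; L_i)`, `(i, x) ∈ XX R m h τ`; `H i` a half system for `a` on `L_i` -/
def cX (R : Reps A B n ι) (m : ℕ) (H : ι → Finset ℂ) {D : IntermediateField ℚ ℂ}
    (h : kk A B ≤ D) (τ : letI := algC h; D ≃ₐ[kk A B] D) : ℂ :=
  ∏ᶠ q ∈ XX R m h τ, ThetaH (R.L q.1) (H q.1) (pt R m q.1 (Quotient.out q.2))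

/-- the multiplier `mu_i` of `L_(i0) → L_i = mu_i (cjI b_i)⁻¹ L_(i0)` -/
def muX (R : Reps A B n ι) (i : ι) : ℂ := R.om i * nI (R.b i) / R.om R.i0

/-- the residue of `x` modulo `P` (norm 2 or 3) as `0, 1, -1` -/
def wP (P : Ideal (OO A B)) (x : OO A B) : ℤ :=
  open Classical in if x ∈ P then 0 else if x - 1 ∈ P then 1 else -1

/-- `Θ_a'/Θ_a = a e(a z) - a² e(z)` -/
def dlX (L : PeriodPair) (a : ℕ) (z : ℂ) : ℂ := a * ee L (a * z) - (a : ℂ) ^ 2 * ee L z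

/-- `T(τ)` -/
def TTX (R : Reps A B n ι) (P : Ideal (OO A B)) (m a : ℕ) {D : IntermediateField ℚ ℂ}
    (h : kk A B ≤ D) (τ : letI := algC h; D ≃ₐ[kk A B] D) : ℂ :=
  ∑ᶠ q ∈ XX R m h τ, (wP P (Quotient.out q.2) : ℂ) * muX R q.1 *
    dlX (R.L q.1) a (pt R m q.1 (Quotient.out q.2))

/-- `mu_i Σ e(x) ee(pt R m i x; L_i)`, over the `x` modulo `m` with `N x N b_i ≡ c` modulo `M` -/
def SnX (R : Reps A B n ι) (m M : ℕ) (e : OO A B → ℂ) (i : ι) (c : ℤ) : ℂ :=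
  muX R i * sumMod ((m : ℕ) : OO A B) fun x =>
    if (M : ℤ) ∣ nm x * nI (R.b i) - c then e x * ee (R.L i) (pt R m i x) else 0

/-- `Σ_i kk_i (a SnX i (a² c) - a² SnX i c)` -/
def STX [Fintype ι] (R : Reps A B n ι) (m M a : ℕ) (e : OO A B → ℂ) (kk : ι → ℂ) (c : ℤ) : ℂ :=
  ∑ i, kk i * ((a : ℂ) * SnX R m M e i ((a : ℤ) ^ 2 * c) - (a : ℂ) ^ 2 * SnX R m M e i c)

end

/-- `v(x)^(p-1) ≤ v(p)` -/
def HfX (p : ℕ) (V : ValuationSubring ℂ) (x : ℂ) : Prop := x ^ (p - 1) / p ∈ V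

/-- the combination `Σ_i kk_i Phi_i` of symbols -/
def PhiK {A B : ℤ} {n : ℕ} {ι : Type} [Fintype ι] (R : Reps A B n ι) (e : OO A B → ℂ)
    (kk : ι → ℂ) (x y : OnePoint ℚ) : ℂ :=
  ∑ i, kk i * PhiI (R.b i) e x y

/-! ## Facts on the automorphisms of `ℂ` (contract with block XC, helper51) -/

/-- the main theorem of complex multiplication, `PAPER_X.md` section 1 -/
structure TorX (A B : ℤ) : Prop where
  fin : ∀ m : Ideal (OO A B), m ≠ ⊥ → FiniteDimensional (kk A B) (RF m)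
  gal : ∀ m : Ideal (OO A B), m ≠ ⊥ → IsGalois (kk A B) (RF m)
  comm : ∀ m : Ideal (OO A B), m ≠ ⊥ → ∀ σ τ : RF m ≃ₐ[kk A B] RF m, σ * τ = τ * σ
  mono : ∀ m m' : Ideal (OO A B), m' ≤ m → RF m ≤ RF m'
  /-- automorphisms of subfields of `RF m` extend to `ℂ` -/
  ext : ∀ (m : Ideal (OO A B)), m ≠ ⊥ → ∀ (D : IntermediateField ℚ ℂ) (h : kk A B ≤ D),
    (∀ y ∈ D, y ∈ RF m) → letI := algC h
    ∀ τ : D ≃ₐ[kk A B] D, ∃ σ : ℂ ≃+* ℂ, FixK A B σ ∧ ExtC h τ σ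
  /-- existence of the ideal, and independence of the lattice: one ideal for all lattices -/
  act : ∀ m : Ideal (OO A B), m ≠ ⊥ → ∀ σ : ℂ ≃+* ℂ, FixK A B σ → ∃ a : Ideal (OO A B),
    IsCoprime a m ∧ ∀ (b : Ideal (OO A B)) (L : PeriodPair) (om : ℂ), IsNL b L om →
      ∃ (b' : Ideal (OO A B)) (L' : PeriodPair) (om' mu : ℂ), IsNL b' L' om' ∧ ActI σ m a L L' mu
  /-- every nonzero ideal prime to `m` is the ideal of an automorphism (`a ≠ ⊥` matters for `m = ⊤`) -/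
  surj : ∀ m : Ideal (OO A B), m ≠ ⊥ → ∀ a : Ideal (OO A B), a ≠ ⊥ → IsCoprime a m →
    ∃ σ : ℂ ≃+* ℂ, FixK A B σ ∧ ∀ (b : Ideal (OO A B)) (L : PeriodPair) (om : ℂ), IsNL b L om →
      ∃ (b' : Ideal (OO A B)) (L' : PeriodPair) (om' mu : ℂ), IsNL b' L' om' ∧ ActI σ m a L L' mu
  /-- composition -/
  comp : ∀ (m a b : Ideal (OO A B)) (σ τ : ℂ ≃+* ℂ) (L L' L'' : PeriodPair) (mu nu : ℂ),
    ActI σ m a L L' mu → ActI τ m b L' L'' nu → ActI (σ.trans τ) m (a * b) L L'' (nu * mu)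
  /-- change of the ideal in its class -/
  chg : ∀ (m a a' : Ideal (OO A B)) (σ : ℂ ≃+* ℂ) (L L' : PeriodPair) (mu : ℂ) (x y : OO A B),
    m ≠ ⊥ → IsCoprime a' m → IsCoprime (sp x) m → x ≠ 0 → y ≠ 0 → x - y ∈ m →
    sp x * a = sp y * a' → (∃ (b : Ideal (OO A B)) (om : ℂ), IsNL b L om) → ActI σ m a L L' mu →
    ActI σ m a' L L' (mu * emb x / emb y)
  /-- uniqueness of the class -/
  uniq : ∀ (m a a' : Ideal (OO A B)) (σ : ℂ ≃+* ℂ) (L L' : PeriodPair) (mu mu' : ℂ),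
    m ≠ ⊥ → (∃ (b : Ideal (OO A B)) (om : ℂ), IsNL b L om) → ActI σ m a L L' mu → ActI σ m a' L L' mu' →
    ∃ x y : OO A B, IsCoprime (sp x) m ∧ x ≠ 0 ∧ y ≠ 0 ∧ x - y ∈ m ∧ sp x * a = sp y * a' ∧
      mu' = mu * emb x / emb y
  /-- the automorphisms which are trivial on `RF m` (`L'` must be normalised: this matters for `m = ⊤`) -/
  triv : ∀ (m a : Ideal (OO A B)) (σ : ℂ ≃+* ℂ) (b : Ideal (OO A B)) (L L' : PeriodPair)
    (om mu : ℂ), m ≠ ⊥ → FixK A B σ → IsNL b L om → ActI σ m a L L' mu →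
    L'.g₂ = -18 * L'.g₃ →
    ((∀ y ∈ RF m, σ y = y) ↔ ∃ c : OO A B, c - 1 ∈ m ∧ a = sp c)
  /-- roots of unity -/
  zeta : ∀ (M : ℕ) (m a : Ideal (OO A B)) (σ : ℂ ≃+* ℂ) (b : Ideal (OO A B))
    (L L' : PeriodPair) (om mu : ℂ), m ≠ ⊥ → FixK A B σ → M ≠ 0 → m ≤ idl M →
    IsNL b L om → ActI σ m a L L' mu → ∀ z : ℂ, z ^ M = 1 → z ∈ RF m ∧ σ z = z ^ nI a

end

end Pool.Agent.MUX


end

section

/-!
# MUX-NS: common definitions (helper6). See `Pool/Agent/MUX/PAPER_NS.md`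

`3` inert in `k` (`CaseI A B`, `D ≠ -4`), `V` a valuation ring of `ℂ` with `V ∩ O = 3 O` (`OverI V (idl 3)`),
`v = V.valuation` (multiplicative; `v x ≤ v 3` is the additive `v(x) ≥ 1`). Levels `m = lvX 3 f n = f 3^(n+1)`, `a = aX 3 f =
1 + 6 f`. `R : Reps A B (3 * f) ι`. Everything which does not see `3` is as in `DefsX.lean`, `DefsX2.lean` (namespace `MUX`):
`RF m`, `Reps`, `pt`, `XX`, `muX`, `dlX`, `SnX`, `STX`, `PhiI`, `PhiK`, `IsEI`, `TorX`.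

* `GoodN V L u e lam` : the lattice `u L` has the Legendre equation `y² = x (x - 1) (x - lam)`, `x(u z) = (℘(z; L) - e)/u²`,
  `y(u z) = ℘'(z; L)/(2 u³)`, and `lam ≡ -1` modulo `3` (supersingular good reduction). `u² = e₂ - e₁`.
* `IsTei V w` : the Teichmueller character `w` of `(O/3)^*` (values in the 8th roots of unity), `w x ≡ emb x` modulo `3`.
* `TTN R w m a h τ = Σ w(x) mu_i (Θ_a'/Θ_a)(pt R m i x; L_i)`, `(i, x) ∈ XX R m h τ`.
-/

set_option autoImplicit false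

namespace Pool.Agent.NS

open _root_.MU3 _root_.Pool.Agent.MU3A _root_.Pool.Agent.MU3B _root_.Pool.Agent.RI _root_.Pool.Agent.MUX OnePoint

noncomputable section

/-- `3` is inert in `k`, and `D ≠ -4` -/
structure CaseI (A B : ℤ) : Prop extends CQ A B where
  three : (3 : ℤ) ∣ B ^ 2 + 4 * A + 1
  exc : ¬ (B = 0 ∧ A = -1)

/-- the standing hypotheses -/
structure SetN (A B : ℤ) (V : ValuationSubring ℂ) (f : ℕ) : Prop where
  case : CaseI A B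
  hV : OverI V (idl (A := A) (B := B) 3)
  f0 : f ≠ 0
  fp : ¬ 3 ∣ f
  fD : 2 * absD A B ∣ (f : ℤ)

/-- the lattice `u L` is in Legendre form, with supersingular good reduction at `V` -/
structure GoodN (V : ValuationSubring ℂ) (L : PeriodPair) (u e lam : ℂ) : Prop where
  u0 : u ≠ 0
  eq : ∀ z ∉ L.lattice, (L.derivWeierstrassP z / (2 * u ^ 3)) ^ 2 =
    ((L.weierstrassP z - e) / u ^ 2) * ((L.weierstrassP z - e) / u ^ 2 - 1) *
      ((L.weierstrassP z - e) / u ^ 2 - lam)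
  lam1 : V.valuation (1 + lam) ≤ V.valuation (3 : ℂ)

/-- the coordinates on `u L`, as functions on `L` -/
def xu (L : PeriodPair) (u e z : ℂ) : ℂ := (L.weierstrassP z - e) / u ^ 2

def yu (L : PeriodPair) (u z : ℂ) : ℂ := L.derivWeierstrassP z / (2 * u ^ 3)

/-- Teichmueller character of `(O/3)^*`, extended by `0` -/
structure IsTei {A B : ℤ} (V : ValuationSubring ℂ) (w : OO A B → ℂ) : Prop where
  one : w 1 = 1
  mul : ∀ x y, w (x * y) = w x * w y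
  per : ∀ x y, x - y ∈ idl (A := A) (B := B) 3 → w x = w y
  zero : ∀ x ∈ idl (A := A) (B := B) 3, w x = 0
  pow : ∀ x ∉ idl (A := A) (B := B) 3, w x ^ 8 = 1
  cong : ∀ x, V.valuation (w x - emb x) ≤ V.valuation (3 : ℂ)

section
variable {A B : ℤ} {n : ℕ} {ι : Type}

/-- `T(τ)` with the weights `w` -/
def TTN (R : Reps A B n ι) (w : OO A B → ℂ) (m a : ℕ) {D : IntermediateField ℚ ℂ}
    (h : kk A B ≤ D) (τ : letI := algC h; D ≃ₐ[kk A B] D) : ℂ :=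
  ∑ᶠ q ∈ XX R m h τ, w (Quotient.out q.2) * muX R q.1 *
    dlX (R.L q.1) a (pt R m q.1 (Quotient.out q.2))

end

/-- the automorphism `σ` of `ℂ / k` is in the inertia group of `F` at `V` -/
structure InI (A B : ℤ) (V : ValuationSubring ℂ) (F : Set ℂ) (σ : ℂ ≃+* ℂ) : Prop where
  fix : FixK A B σ
  stab : ∀ y ∈ F, σ y ∈ F
  iner : ∀ y ∈ F, y ∈ V → σ y - y ∈ V.nonunits

/-! ## Final statements of the blocks -/

/-- (RFIN, helper58) the reduction of the normalised lattices: good models, with `u², e, lam` in `RF (2)`, and uniqueness in the form: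
an automorphism in the inertia group of `RF (idl f)` is trivial on it (`f` prime to `3`). -/
def Sn_RFIN : Prop :=
  ∀ (A B : ℤ) (V : ValuationSubring ℂ), CaseI A B → OverI V (idl (A := A) (B := B) 3) →
    TorX A B →
    (∀ (b : Ideal (OO A B)) (L : PeriodPair) (om : ℂ), IsNL b L om →
      ∃ u e lam : ℂ, GoodN V L u e lam ∧ u ^ 2 ∈ RF (idl (A := A) (B := B) 2) ∧
        e ∈ RF (idl (A := A) (B := B) 2) ∧ lam ∈ RF (idl (A := A) (B := B) 2)) ∧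
    ∀ f : ℕ, f ≠ 0 → ¬ 3 ∣ f → ∀ σ : ℂ ≃+* ℂ, FixK A B σ →
      (∀ y ∈ RF (idl (A := A) (B := B) f), y ∈ V → σ y - y ∈ V.nonunits) →
      ∀ y ∈ RF (idl (A := A) (B := B) f), σ y = y

/-- (EFIN, helper86) cubes have a logarithmic derivative divisible by `3`. `C` is a conjugate family, a product of `Θ_a` over `XX`. -/
def Sn_EFIN : Prop :=
  ∀ (A B : ℤ) (V : ValuationSubring ℂ) (f : ℕ), SetN A B V f → TorX A B →
    ∀ (ι : Type) [Fintype ι] (R : Reps A B (3 * f) ι) (u e lam : ℂ),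
    GoodN V (R.L R.i0) u e lam → ∀ w : OO A B → ℂ, IsTei V w →
    ∀ n : ℕ, 1 ≤ n →
    ∀ (H : ι → Finset ℂ), (∀ i, IsHalf (R.L i) (aX 3 f : ℂ) (H i)) →
    ∀ (D : IntermediateField ℚ ℂ) (h : kk A B ≤ D),
      (∀ y ∈ D, y ∈ RF (idl (A := A) (B := B) (lvX 3 f n))) →
    letI := algC h
    (∀ τ : D ≃ₐ[kk A B] D, ∃ y : D, (y : ℂ) = cX R (lvX 3 f n) H h 1 ∧
      ((τ y : D) : ℂ) = cX R (lvX 3 f n) H h τ) →
    ∀ g : (D ≃ₐ[kk A B] D) → ℤ,
      (∃ y ∈ D, y ^ 3 = ∏ᶠ τ : D ≃ₐ[kk A B] D, cX R (lvX 3 f n) H h τ ^ g τ) →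
      ∀ τ' : D ≃ₐ[kk A B] D,
        V.valuation ((∑ᶠ τ : D ≃ₐ[kk A B] D, (g τ : ℂ) *
          TTN R w (lvX 3 f n) (aX 3 f) h (τ * τ')) / u) ≤ V.valuation (3 : ℂ)

/-- (HFIN) the character sums: for `(e, s)` with type `4 ≤ i ≤ 7`. -/
def Sn_HFIN : Prop :=
  ∀ (A B : ℤ) (V : ValuationSubring ℂ) (f : ℕ), SetN A B V f → TorX A B →
    ∀ (ι : Type) [Fintype ι] (R : Reps A B (3 * f) ι) (u el lam : ℂ),
    GoodN V (R.L R.i0) u el lam → ∀ w : OO A B → ℂ, IsTei V w →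
    ∀ e : OO A B → ℂ, IsEI (idl (A := A) (B := B) (3 * f)) e → ∀ r : ℕ, ¬ 3 ∣ r →
    (∀ x, e x ≠ 0 → e x ^ r = 1) → ∀ i : ℕ, 4 ≤ i → i ≤ 7 →
    (∀ x, x - 1 ∈ idl (A := A) (B := B) f → x ∉ idl (A := A) (B := B) 3 → e x = w x ^ i) →
    ∀ s : ℤ, s = 1 ∨ s = -1 → ∀ kk : ι → ℂ, (∀ i, kk i ^ r = 1) →
    ∀ n₀ : ℕ, ∃ n, n₀ ≤ n ∧
      V.valuation (3 : ℂ) < V.valuation ((∑ j ∈ Finset.range 2, (-1) ^ (1 - j) *
        (STX R (lvX 3 f n) (3 ^ (n + 1)) (aX 3 f) e kk (4 ^ j) +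
          s * STX R (lvX 3 f n) (3 ^ (n + 1)) (aX 3 f) e kk (-(4 ^ j)))) / u)

end

end Pool.Agent.NS


end

section

/-!
# MUX-NS, ramified case: common definitions (helper87). See `Pool/Agent/MUX/PAPER_NSR.md`

`3 = P²` in `k`, `D ≠ -3` (`CaseR A B`), `V` a valuation ring of `ℂ` with `V ∩ O = P`, `v = V.valuation` (multiplicative; `v(emb x)² = v 3` for
`x ∈ P`, `x ∉ P²`). `δ = dD A B = 2 w - B = √D`, `v_P(δ) = 1`. Levels `m = lvX 3 f n = f 3^(n+1)`, `a = aX 3 f = 1 + 6 f`, `R : Reps A B (3 * f) ι`, all points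
`pt R m i x` on the lattices `R.L i`, as in `DefsN.lean`. The fields `K B_n` are in `RF (lvR P f n)`, `lvR P f n = f P^(2n+1)` (`m = (lvR P f n) P`).
The sign character of `(O/P)^*` is `wP P` (`DefsX2.lean`). Every odd character `e` of `(O/3f)^*` of order prime to `3` is `1` on
`1 + f P`, so it is `wP P ^ i` on `{x ≡ 1 mod f}`, `i ∈ {0, 1}` (TYPE).

* `GoodR V L u e lam` : `u L` is in Legendre form, with supersingular good reduction, `v(1 + lam)² ≤ v 3`.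
* `IsB f n b` : `b c̄ ≡ c` modulo `m`, `c = 1 + 3 f δ`. So `N b ≡ 1` modulo `m`, `b ≡ 1` modulo `3 f P`; `b` has order `3^n` modulo `m`, and `b^(3^(n-1))`
  generates the kernel of `(O/m)^* → (O/lvR)^*`. All `b^j` act trivially on `K B_n`, `K ≤ RF (3 f)`.
* `TTE R m a h τ = Σ emb(x) mu_i (Θ_a'/Θ_a)(pt R m i x; L_i)`, `(i, x) ∈ XX R m h τ`: the weights are `emb x`, not signs.
-/

set_option autoImplicit false

namespace Pool.Agent.NSRD

open _root_.MU3 _root_.Pool.Agent.MU3A _root_.Pool.Agent.MU3B _root_.Pool.Agent.RI _root_.Pool.Agent.MUX _root_.Pool.Agent.NS OnePoint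

noncomputable section

/-- `3` is ramified in `k`, and `D ≠ -3` -/
structure CaseR (A B : ℤ) : Prop extends CQ A B where
  three : (3 : ℤ) ∣ B ^ 2 + 4 * A
  exc : ¬ (B = 1 ∧ A = -1)

/-- the standing hypotheses -/
structure SetR (A B : ℤ) (P : Ideal (OO A B)) (V : ValuationSubring ℂ) (f : ℕ) : Prop where
  case : CaseR A B
  hP : IsPN 3 P
  hV : OverI V P
  f0 : f ≠ 0
  fp : ¬ 3 ∣ f
  fD : 2 * absD A B ∣ 3 * (f : ℤ)

/-- the lattice `u L` is in Legendre form, with supersingular good reduction at `V` -/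
structure GoodR (V : ValuationSubring ℂ) (L : PeriodPair) (u e lam : ℂ) : Prop where
  u0 : u ≠ 0
  eq : ∀ z ∉ L.lattice, (L.derivWeierstrassP z / (2 * u ^ 3)) ^ 2 =
    ((L.weierstrassP z - e) / u ^ 2) * ((L.weierstrassP z - e) / u ^ 2 - 1) *
      ((L.weierstrassP z - e) / u ^ 2 - lam)
  lam1 : V.valuation (1 + lam) ^ 2 ≤ V.valuation (3 : ℂ)

/-- `√D = 2 w - B` -/
def dD (A B : ℤ) : OO A B := ⟨-B, 2⟩

/-- the level of `K B_n` -/
def lvR {A B : ℤ} (P : Ideal (OO A B)) (f n : ℕ) : Ideal (OO A B) :=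
  idl (A := A) (B := B) f * P ^ (2 * n + 1)

/-- the generator of the small group, an element of norm `≡ 1` modulo `m` -/
def IsB {A B : ℤ} (f n : ℕ) (b : OO A B) : Prop :=
  b * (1 - ((3 * f : ℕ) : OO A B) * dD A B) - (1 + ((3 * f : ℕ) : OO A B) * dD A B) ∈
    idl (A := A) (B := B) (lvX 3 f n)

section
variable {A B : ℤ} {n : ℕ} {ι : Type}

/-- `T(τ)` with the weights `emb x` -/
def TTE (R : Reps A B n ι) (m a : ℕ) {D : IntermediateField ℚ ℂ}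
    (h : kk A B ≤ D) (τ : letI := algC h; D ≃ₐ[kk A B] D) : ℂ :=
  ∑ᶠ q ∈ XX R m h τ, emb (Quotient.out q.2 : OO A B) * muX R q.1 *
    dlX (R.L q.1) a (pt R m q.1 (Quotient.out q.2))

end

/-! ## Final statements of the blocks -/

/-- (RFIN) reduction of the normalised lattices (helper58's `StRN.lean` covers it: `Sr_ALR`, `Sr_UNR`, ..). -/
def Sq_RFIN : Prop :=
  ∀ (A B : ℤ) (P : Ideal (OO A B)) (V : ValuationSubring ℂ), CaseR A B → IsPN 3 P →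
    OverI V P → TorX A B →
    (∀ (b : Ideal (OO A B)) (L : PeriodPair) (om : ℂ), IsNL b L om →
      ∃ u e lam : ℂ, GoodR V L u e lam ∧ u ^ 2 ∈ RF (idl (A := A) (B := B) 2) ∧
        e ∈ RF (idl (A := A) (B := B) 2) ∧ lam ∈ RF (idl (A := A) (B := B) 2)) ∧
    ∀ f : ℕ, f ≠ 0 → ¬ 3 ∣ f → ∀ σ : ℂ ≃+* ℂ, FixK A B σ →
      (∀ y ∈ RF (idl (A := A) (B := B) f), y ∈ V → σ y - y ∈ V.nonunits) →
      ∀ y ∈ RF (idl (A := A) (B := B) f), σ y = y

/-- (ECUB) cubes: additive valuation at least `3/2`. -/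
def Sq_ECUB : Prop :=
  ∀ (A B : ℤ) (P : Ideal (OO A B)) (V : ValuationSubring ℂ) (f : ℕ), SetR A B P V f →
    TorX A B → ∀ (ι : Type) [Fintype ι] (R : Reps A B (3 * f) ι) (u e lam : ℂ),
    GoodR V (R.L R.i0) u e lam → ∀ n : ℕ, 1 ≤ n →
    ∀ (H : ι → Finset ℂ), (∀ i, IsHalf (R.L i) (aX 3 f : ℂ) (H i)) →
    ∀ (D : IntermediateField ℚ ℂ) (h : kk A B ≤ D), (∀ y ∈ D, y ∈ RF (lvR P f n)) →
    letI := algC h
    (∀ τ : D ≃ₐ[kk A B] D, ∃ y : D, (y : ℂ) = cX R (lvX 3 f n) H h 1 ∧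
      ((τ y : D) : ℂ) = cX R (lvX 3 f n) H h τ) →
    ∀ g : (D ≃ₐ[kk A B] D) → ℤ,
      (∃ y ∈ D, y ^ 3 = ∏ᶠ τ : D ≃ₐ[kk A B] D, cX R (lvX 3 f n) H h τ ^ g τ) →
      ∀ τ' : D ≃ₐ[kk A B] D,
        V.valuation ((∑ᶠ τ : D ≃ₐ[kk A B] D, (g τ : ℂ) *
          TTE R (lvX 3 f n) (aX 3 f) h (τ * τ')) / u) ^ 2 ≤ V.valuation (3 : ℂ) ^ 3

/-- (EINN) the sums over the kernel of `(O/m)^* → (O/lvR)^*`: additive valuation at least `1/2`; and integrality. -/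
def Sq_EINN : Prop :=
  ∀ (A B : ℤ) (P : Ideal (OO A B)) (V : ValuationSubring ℂ) (f : ℕ), SetR A B P V f →
    TorX A B → ∀ (ι : Type) [Fintype ι] (R : Reps A B (3 * f) ι) (u e lam : ℂ),
    GoodR V (R.L R.i0) u e lam → ∀ n : ℕ, 1 ≤ n → ∀ b : OO A B, IsB f n b →
    ∀ (i : ι) (x : OO A B), IsCoprime x ((lvX 3 f n : ℕ) : OO A B) →
      V.valuation (muX R i * dlX (R.L i) (aX 3 f) (pt R (lvX 3 f n) i x) / u) ≤ 1 ∧
      V.valuation (muX R i * (∑ l ∈ Finset.range 3, dlX (R.L i) (aX 3 f)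
        (pt R (lvX 3 f n) i (x * b ^ (3 ^ (n - 1) * l)))) / u) ^ 2 ≤ V.valuation (3 : ℂ)

/-- (EPAR) the sums over `b^l`, `l < 3^n`: additive valuation at least `3/4 - (5/6)/3^n`. -/
def Sq_EPAR : Prop :=
  ∀ (A B : ℤ) (P : Ideal (OO A B)) (V : ValuationSubring ℂ) (f : ℕ), SetR A B P V f →
    TorX A B → ∀ (ι : Type) [Fintype ι] (R : Reps A B (3 * f) ι) (u e lam : ℂ),
    GoodR V (R.L R.i0) u e lam → ∀ n : ℕ, 1 ≤ n → ∀ b : OO A B, IsB f n b →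
    ∀ (i : ι) (x : OO A B), IsCoprime x ((lvX 3 f n : ℕ) : OO A B) →
      V.valuation (muX R i * (∑ l ∈ Finset.range (3 ^ n), dlX (R.L i) (aX 3 f)
        (pt R (lvX 3 f n) i (x * b ^ l))) / u) ^ (12 * 3 ^ n) * V.valuation (3 : ℂ) ^ 10 ≤
        V.valuation (3 : ℂ) ^ (9 * 3 ^ n)

/-- (EFIN) THE RESULT of block ER (helper86), with the signs `wP P` as weights: additive valuation at least `5/4 - (5/6)/3^n`. The field condition: `D` is in
`RF (3 f)(ζ)`, `ζ` of order `3^(n+1)` (so `b` acts trivially on `D`, and every set `XX R m h τ` is a union of cosets of `<b>`).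

PROOF from ECUB, EINN, EPAR: `TTE - TTX = Σ (emb x - w x) mu_i dl(pt x)`; on a coset `x b^l` (`l < 3^n`): `w` is constant, `emb (x b^l) - emb x` is divisible by `3` and
depends modulo `9` (times a unit) only on `l` modulo `3^(n-1)`, `v(emb x - w x) ≥ 1/2`. -/
def Sq_EFIN : Prop :=
  ∀ (A B : ℤ) (P : Ideal (OO A B)) (V : ValuationSubring ℂ) (f : ℕ), SetR A B P V f →
    TorX A B → ∀ (ι : Type) [Fintype ι] (R : Reps A B (3 * f) ι) (u e lam : ℂ),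
    GoodR V (R.L R.i0) u e lam → ∀ n : ℕ, 1 ≤ n →
    ∀ (H : ι → Finset ℂ), (∀ i, IsHalf (R.L i) (aX 3 f : ℂ) (H i)) →
    ∀ (D : IntermediateField ℚ ℂ) (h : kk A B ≤ D), (∀ y ∈ D, y ∈ RF (lvR P f n)) →
    (∀ σ : ℂ ≃+* ℂ, FixK A B σ → (∀ y ∈ RF (idl (A := A) (B := B) (3 * f)), σ y = y) →
      (∀ z : ℂ, z ^ 3 ^ (n + 1) = 1 → σ z = z) → ∀ y ∈ D, σ y = y) →
    letI := algC h
    (∀ τ : D ≃ₐ[kk A B] D, ∃ y : D, (y : ℂ) = cX R (lvX 3 f n) H h 1 ∧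
      ((τ y : D) : ℂ) = cX R (lvX 3 f n) H h τ) →
    ∀ g : (D ≃ₐ[kk A B] D) → ℤ,
      (∃ y ∈ D, y ^ 3 = ∏ᶠ τ : D ≃ₐ[kk A B] D, cX R (lvX 3 f n) H h τ ^ g τ) →
      ∀ τ' : D ≃ₐ[kk A B] D,
        V.valuation ((∑ᶠ τ : D ≃ₐ[kk A B] D, (g τ : ℂ) *
          TTX R P (lvX 3 f n) (aX 3 f) h (τ * τ')) / u) ^ (12 * 3 ^ n) *
          V.valuation (3 : ℂ) ^ 10 ≤ V.valuation (3 : ℂ) ^ (15 * 3 ^ n)

/-- (TYF) TYPE, ramified case. `F` a large Galois extension of `k`, `KI` its inertia field at `V`; on `KI` the additive valuation has values in `(1/2) ℤ`. For `σ` in the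
inertia group, acting as `d_i c` on the points of `L_i` (`c ≡ 1` modulo `f..`): `e(c) = w(c)^i`, `w = wP P`, and `tau = t(R)`, `R` a point of order `P` of `u L_0` (`t = -x/y`; `v(t(R))^4 = v 3`),
`σ tau = w(c) tau`: so `tau^i P_i/(u om_0)` is fixed, for every family of weights. `pi = tau^(-i)`. -/
def Sq_TYF : Prop :=
  ∀ (A B : ℤ) (P : Ideal (OO A B)) (V : ValuationSubring ℂ) (f : ℕ), SetR A B P V f →
    TorX A B → ∀ (ι : Type) [Fintype ι] (R : Reps A B (3 * f) ι) (u el lam : ℂ),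
    GoodR V (R.L R.i0) u el lam →
    ∀ e : OO A B → ℂ, IsEI (idl (A := A) (B := B) (3 * f)) e → ∀ r : ℕ, ¬ 3 ∣ r →
    (∀ x, e x ≠ 0 → e x ^ r = 1) → ∀ i : ℕ, i ≤ 1 →
    (∀ x, x - 1 ∈ idl (A := A) (B := B) f → x ∉ P → e x = ((wP P x : ℤ) : ℂ) ^ i) →
    ∀ kk kk' : ι → ℂ, (∀ j, kk j = 0 ∨ kk j ^ r = 1) → (∀ j, kk' j = 0 ∨ kk' j ^ r = 1) →
    ∃ (pi : ℂ) (KI : Subfield ℂ),
      (∀ x y : OnePoint ℚ, ∃ w ∈ KI, PhiK R e kk x y / (u * R.om R.i0) = pi * w) ∧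
      (∀ x y : OnePoint ℚ, ∃ w ∈ KI, PhiK R e kk' x y / (u * R.om R.i0) = pi * w) ∧
      (∀ w ∈ KI, V.valuation w < 1 → V.valuation w ^ 2 ≤ V.valuation (3 : ℂ)) ∧
      V.valuation pi ^ 4 * V.valuation (3 : ℂ) ^ i = 1

/-- (HFIN) the character sums: additive valuation at most `5/4 - 1/3^n` (both types). -/
def Sq_HFIN : Prop :=
  ∀ (A B : ℤ) (P : Ideal (OO A B)) (V : ValuationSubring ℂ) (f : ℕ), SetR A B P V f →
    TorX A B → ∀ (ι : Type) [Fintype ι] (R : Reps A B (3 * f) ι) (u el lam : ℂ),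
    GoodR V (R.L R.i0) u el lam →
    ∀ e : OO A B → ℂ, IsEI (idl (A := A) (B := B) (3 * f)) e → ∀ r : ℕ, ¬ 3 ∣ r →
    (∀ x, e x ≠ 0 → e x ^ r = 1) → ∀ kk : ι → ℂ, (∀ i, kk i ^ r = 1) →
    ∀ n₀ : ℕ, ∃ n, n₀ ≤ n ∧ 1 ≤ n ∧
      V.valuation (3 : ℂ) ^ (15 * 3 ^ n) ≤ V.valuation ((∑ j ∈ Finset.range 2, (-1) ^ (1 - j) *
        (STX R (lvX 3 f n) (3 ^ (n + 1)) (aX 3 f) e kk (4 ^ j) +
          STX R (lvX 3 f n) (3 ^ (n + 1)) (aX 3 f) e kk (-(4 ^ j)))) / u) ^ (12 * 3 ^ n) *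
        V.valuation (3 : ℂ) ^ 12

end

end Pool.Agent.NSRD


end

section

/-!
# ME: the exceptional fields `ℚ(i)` and `ℚ(√-3)` for `p = 3`: common definitions (helper21, frame: helper58)

`(A, B) = (-1, 0)`: `w = i`, `D = -4`, `3` inert; `(A, B) = (-1, 1)`: `w = exp(2 π i/6)`, `D = -3`, `3 = P²` (`CaseE`). This file is the twin of
`MUX/DefsX.lean`, `MUX/DefsX2.lean`, `NS/DefsN.lean`, `NS/DefsR.lean`: the same definitions with another normalisation of the lattices, the names have the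
suffix `E`. A lattice `L` with complex multiplication by `O` is normalised (`IsNE b L om`) if `(g₂, g₃) = (4, 0)` (`D = -4`, `y² = x³ - x`) resp. `(0, -4)` (`D = -3`,
`y² = x³ + 1`), `x = ℘`, `y = ℘'/2`. There is exactly one normalised lattice `L = Om O`. `kapE L = g₂ + g₃` is a constant.

All points of order 2 are rational over `k`. So an automorphism `σ` of `ℂ / k` acts on `E[m]` as multiplication by some `μ ≡ 1` modulo `2` (for `2 ∣ m`), and a unit `≡ 1` modulo `2` is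
`± 1`: for even `m` the field `RFE m = k(x(E[m]))` is the ray class field modulo `m`, its group is `{μ mod m, μ ≡ 1 mod 2}/± 1 = (O/m)^*/O^*`. All levels are even. `TorXE` is `TorX` with `triv` only
for `m ≤ (2)` and `m = ⊤`. The pairs `(i, x)` of `XXE` have `x ≡ 1` modulo `2`, and every such `x` prime to `m` occurs once. For a function `e` with `e (ζ x) = ζ e x` for all units `ζ`
the sum of `e x * ee (x Om/m)` over the `x ≡ 1` modulo `2` is `1/r` times the sum over all `x` modulo `m`, `r = rE A B = |O^*|/2`.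
-/

set_option autoImplicit false

namespace Pool.Agent.ME

open _root_.MU3 _root_.Pool.Agent.MU3A _root_.Pool.Agent.MU3B _root_.Pool.Agent.RI _root_.Pool.Agent.MUX _root_.Pool.Agent.NS
  _root_.Pool.Agent.NSRD Polynomial OnePoint

noncomputable section

/-- the exceptional fields -/
structure CaseE (A B : ℤ) : Prop extends CQ A B where
  hA : A = -1

/-- half the number of units -/
def rE (_ B : ℤ) : ℕ := if B = 0 then 2 else 3

/-- the invariants of the normalised lattices -/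
def g2E (_ B : ℤ) : ℂ := if B = 0 then 4 else 0

/-- the invariants of the normalised lattices -/
def g3E (_ B : ℤ) : ℂ := if B = 0 then 0 else -4

/-- the lattice `L` has the normalised invariants -/
structure NrmE (A B : ℤ) (L : PeriodPair) : Prop where
  g2 : L.g₂ = g2E A B
  g3 : L.g₃ = g3E A B

/-- normalised lattices with complex multiplication by `O` -/
structure IsNE {A B : ℤ} (b : Ideal (OO A B)) (L : PeriodPair) (om : ℂ) : Prop
    extends IsLI b L om where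
  nrm : NrmE A B L

/-- a constant, for normalised lattices -/
def kapE (L : PeriodPair) : ℂ := L.g₂ + L.g₃

/-- `x = ℘` -/
def xnE (L : PeriodPair) (z : ℂ) : ℂ := L.weierstrassP z

/-- the local parameter `-x/y` -/
def tnE (L : PeriodPair) (z : ℂ) : ℂ := -(xnE L z / yy L z)

/-- `z` is zero or in the kernel of reduction at `V` (if the normalised equation has good reduction at `V`) -/
def InEnE (V : ValuationSubring ℂ) (L : PeriodPair) (z : ℂ) : Prop :=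
  z ∈ L.lattice ∨ xnE L z ∉ V

/-- `σ` maps the point `z` of `ℂ / L` to the point `z'` of `ℂ / L'` (for `kapE L' = σ (kapE L)`) -/
def PME (σ : ℂ ≃+* ℂ) (L L' : PeriodPair) (z z' : ℂ) : Prop :=
  (z ∈ L.lattice ∧ z' ∈ L'.lattice) ∨
    (z ∉ L.lattice ∧ z' ∉ L'.lattice ∧ σ (xnE L z) = xnE L' z' ∧ σ (yy L z) = yy L' z')

/-- `σ` acts on the points of level `m` of `ℂ / L` as the ideal `a`, with multiplier `μ`:
`L' = L^σ = μ a⁻¹ L` and `σ` maps `z` to `μ z` for `z ∈ E[m]` -/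
structure ActE {A B : ℤ} (σ : ℂ ≃+* ℂ) (m a : Ideal (OO A B)) (L L' : PeriodPair) (mu : ℂ) :
    Prop where
  kapE : kapE L' = σ (kapE L)
  cop : IsCoprime a m
  isq : IsQ a L L' mu
  act : ∀ z, Tor m L z → PME σ L L' z (mu * z)

/-- the field `k(x(E[m]))`; for `m` divisible by `2` it is the ray class field modulo `m` -/
def RFE {A B : ℤ} (m : Ideal (OO A B)) : IntermediateField (kk A B) ℂ :=
  IntermediateField.adjoin (kk A B) {c | ∃ (b : Ideal (OO A B)) (L : PeriodPair) (om : ℂ),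
    IsNE b L om ∧ (c = kapE L ∨ ∃ z, Tor m L z ∧ z ∉ L.lattice ∧ c = xnE L z)}

/-- representatives `b i` of the ideal classes (`ι` has one element), of norm prime to `n`, with
normalised lattices `L i = om i * emb (b i)`; `b i0 = O` -/
structure RepsE (A B : ℤ) (n : ℕ) (ι : Type) where
  b : ι → Ideal (OO A B)
  L : ι → PeriodPair
  om : ι → ℂ
  i0 : ι
  nl : ∀ i, IsNE (b i) (L i) (om i)
  cop : ∀ i, (nI (b i)).Coprime n
  b0 : b i0 = ⊤
  surj : ∀ c : Ideal (OO A B), c ≠ ⊥ → ∃ (i : ι) (x y : OO A B), x ≠ 0 ∧ y ≠ 0 ∧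
    sp x * c = sp y * b i
  inj : ∀ (i j : ι) (x y : OO A B), x ≠ 0 → y ≠ 0 → sp x * b i = sp y * b j → i = j

/-- the point `(i, x)` of level `m`: `om_i N(b_i) x / m` on `ℂ / L_i` -/
def ptE {A B : ℤ} {n : ℕ} {ι : Type} (R : RepsE A B n ι) (m : ℕ) (i : ι) (x : OO A B) : ℂ :=
  R.om i * nI (R.b i) * emb x / m

/-- `σ` maps the base point `(i0, 1)` of level `m` to the point `± (i, x)` -/
def HitsE {A B : ℤ} {n : ℕ} {ι : Type} (R : RepsE A B n ι) (m : ℕ) (σ : ℂ ≃+* ℂ) (i : ι)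
    (x : OO A B) : Prop :=
  kapE (R.L i) = σ (kapE (R.L R.i0)) ∧
    σ (xnE (R.L R.i0) (ptE R m R.i0 1)) = xnE (R.L i) (ptE R m i x) ∧ ptE R m i x ∉ (R.L i).lattice

section
variable {A B : ℤ} {n : ℕ} {ι : Type}

/-- the pairs `(i, x)` of level `m`, `x` prime to `m`, which are hit by an extension of `τ` -/
def XXE (R : RepsE A B n ι) (m : ℕ) {D : IntermediateField ℚ ℂ} (h : kk A B ≤ D)
    (τ : letI := algC h; D ≃ₐ[kk A B] D) : Set (ι × (OO A B ⧸ idl (A := A) (B := B) m)) :=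
  {q | IsCoprime (Quotient.out q.2 : OO A B) ((m : ℕ) : OO A B) ∧
    ∃ σ : ℂ ≃+* ℂ, FixK A B σ ∧ ExtC h τ σ ∧ HitsE R m σ q.1 (Quotient.out q.2)}

/-- `∏ Θ_a(ptE R m i x; L_i)`, `(i, x) ∈ XXE R m h τ`; `H i` a half system for `a` on `L_i` -/
def cXE (R : RepsE A B n ι) (m : ℕ) (H : ι → Finset ℂ) {D : IntermediateField ℚ ℂ}
    (h : kk A B ≤ D) (τ : letI := algC h; D ≃ₐ[kk A B] D) : ℂ :=
  ∏ᶠ q ∈ XXE R m h τ, ThetaH (R.L q.1) (H q.1) (ptE R m q.1 (Quotient.out q.2))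

/-- the multiplier `mu_i` of `L_(i0) → L_i = mu_i (cjI b_i)⁻¹ L_(i0)` -/
def muXE (R : RepsE A B n ι) (i : ι) : ℂ := R.om i * nI (R.b i) / R.om R.i0

/-- `T(τ)` with the weights `w` -/
def TTNE (R : RepsE A B n ι) (w : OO A B → ℂ) (m a : ℕ) {D : IntermediateField ℚ ℂ}
    (h : kk A B ≤ D) (τ : letI := algC h; D ≃ₐ[kk A B] D) : ℂ :=
  ∑ᶠ q ∈ XXE R m h τ, w (Quotient.out q.2) * muXE R q.1 *
    dlX (R.L q.1) a (ptE R m q.1 (Quotient.out q.2))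

/-- `T(τ)` with the weights `emb x` -/
def TTEE (R : RepsE A B n ι) (m a : ℕ) {D : IntermediateField ℚ ℂ}
    (h : kk A B ≤ D) (τ : letI := algC h; D ≃ₐ[kk A B] D) : ℂ :=
  ∑ᶠ q ∈ XXE R m h τ, emb (Quotient.out q.2 : OO A B) * muXE R q.1 *
    dlX (R.L q.1) a (ptE R m q.1 (Quotient.out q.2))

/-- `mu_i Σ e(x) ee(ptE R m i x; L_i)`, over the `x` modulo `m` with `N x N b_i ≡ c` modulo `M` -/
def SnXE (R : RepsE A B n ι) (m M : ℕ) (e : OO A B → ℂ) (i : ι) (c : ℤ) : ℂ :=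
  muXE R i * sumMod ((m : ℕ) : OO A B) fun x =>
    if (M : ℤ) ∣ nm x * nI (R.b i) - c then e x * ee (R.L i) (ptE R m i x) else 0

/-- `Σ_i kk_i (a SnXE i (a² c) - a² SnXE i c)` -/
def STXE [Fintype ι] (R : RepsE A B n ι) (m M a : ℕ) (e : OO A B → ℂ) (kk : ι → ℂ) (c : ℤ) : ℂ :=
  ∑ i, kk i * ((a : ℂ) * SnXE R m M e i ((a : ℤ) ^ 2 * c) - (a : ℂ) ^ 2 * SnXE R m M e i c)

end

/-- the combination `Σ_i kk_i Phi_i` of symbols -/
def PhiKE {A B : ℤ} {n : ℕ} {ι : Type} [Fintype ι] (R : RepsE A B n ι) (e : OO A B → ℂ)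
    (kk : ι → ℂ) (x y : OnePoint ℚ) : ℂ :=
  ∑ i, kk i * PhiI (R.b i) e x y

/-- the main theorem of complex multiplication; `TorX` with `triv` only for `m ≤ (2)` and `m = ⊤` -/
structure TorXE (A B : ℤ) : Prop where
  fin : ∀ m : Ideal (OO A B), m ≠ ⊥ → FiniteDimensional (kk A B) (RFE m)
  gal : ∀ m : Ideal (OO A B), m ≠ ⊥ → IsGalois (kk A B) (RFE m)
  comm : ∀ m : Ideal (OO A B), m ≠ ⊥ → ∀ σ τ : RFE m ≃ₐ[kk A B] RFE m, σ * τ = τ * σ
  mono : ∀ m m' : Ideal (OO A B), m' ≤ m → RFE m ≤ RFE m'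
  /-- automorphisms of subfields of `RFE m` extend to `ℂ` -/
  ext : ∀ (m : Ideal (OO A B)), m ≠ ⊥ → ∀ (D : IntermediateField ℚ ℂ) (h : kk A B ≤ D),
    (∀ y ∈ D, y ∈ RFE m) → letI := algC h
    ∀ τ : D ≃ₐ[kk A B] D, ∃ σ : ℂ ≃+* ℂ, FixK A B σ ∧ ExtC h τ σ
  /-- existence of the ideal, and independence of the lattice: one ideal for all lattices -/
  act : ∀ m : Ideal (OO A B), m ≠ ⊥ → ∀ σ : ℂ ≃+* ℂ, FixK A B σ → ∃ a : Ideal (OO A B),
    IsCoprime a m ∧ ∀ (b : Ideal (OO A B)) (L : PeriodPair) (om : ℂ), IsNE b L om →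
      ∃ (b' : Ideal (OO A B)) (L' : PeriodPair) (om' mu : ℂ), IsNE b' L' om' ∧ ActE σ m a L L' mu
  /-- every nonzero ideal prime to `m` is the ideal of an automorphism -/
  surj : ∀ m : Ideal (OO A B), m ≠ ⊥ → ∀ a : Ideal (OO A B), a ≠ ⊥ → IsCoprime a m →
    ∃ σ : ℂ ≃+* ℂ, FixK A B σ ∧ ∀ (b : Ideal (OO A B)) (L : PeriodPair) (om : ℂ), IsNE b L om →
      ∃ (b' : Ideal (OO A B)) (L' : PeriodPair) (om' mu : ℂ), IsNE b' L' om' ∧ ActE σ m a L L' mu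
  /-- composition -/
  comp : ∀ (m a b : Ideal (OO A B)) (σ τ : ℂ ≃+* ℂ) (L L' L'' : PeriodPair) (mu nu : ℂ),
    ActE σ m a L L' mu → ActE τ m b L' L'' nu → ActE (σ.trans τ) m (a * b) L L'' (nu * mu)
  /-- change of the ideal in its class -/
  chg : ∀ (m a a' : Ideal (OO A B)) (σ : ℂ ≃+* ℂ) (L L' : PeriodPair) (mu : ℂ) (x y : OO A B),
    m ≠ ⊥ → IsCoprime a' m → IsCoprime (sp x) m → x ≠ 0 → y ≠ 0 → x - y ∈ m →
    sp x * a = sp y * a' → (∃ (b : Ideal (OO A B)) (om : ℂ), IsNE b L om) → ActE σ m a L L' mu →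
    ActE σ m a' L L' (mu * emb x / emb y)
  /-- uniqueness of the class -/
  uniq : ∀ (m a a' : Ideal (OO A B)) (σ : ℂ ≃+* ℂ) (L L' : PeriodPair) (mu mu' : ℂ),
    m ≠ ⊥ → (∃ (b : Ideal (OO A B)) (om : ℂ), IsNE b L om) → ActE σ m a L L' mu →
    ActE σ m a' L L' mu' →
    ∃ x y : OO A B, IsCoprime (sp x) m ∧ x ≠ 0 ∧ y ≠ 0 ∧ x - y ∈ m ∧ sp x * a = sp y * a' ∧
      mu' = mu * emb x / emb y
  /-- the automorphisms which are trivial on `RFE m`, for even `m` and for `m = ⊤` -/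
  triv : ∀ (m a : Ideal (OO A B)) (σ : ℂ ≃+* ℂ) (b : Ideal (OO A B)) (L L' : PeriodPair)
    (om mu : ℂ), m ≠ ⊥ → (m ≤ idl 2 ∨ m = ⊤) → FixK A B σ → IsNE b L om → ActE σ m a L L' mu →
    NrmE A B L' →
    ((∀ y ∈ RFE m, σ y = y) ↔ ∃ c : OO A B, c - 1 ∈ m ∧ a = sp c)
  /-- the points of order two are rational: `μ ≡ ± 1`, in fact `1`, modulo `2` for a suitable generator of `a` -/
  two : ∀ (m a : Ideal (OO A B)) (σ : ℂ ≃+* ℂ) (b : Ideal (OO A B)) (L L' : PeriodPair)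
    (om mu : ℂ), m ≠ ⊥ → m ≤ idl 2 → FixK A B σ → IsNE b L om → ActE σ m a L L' mu →
    NrmE A B L' → ∃ c : OO A B, mu = emb c ∧ a = sp c ∧ c - 1 ∈ idl (A := A) (B := B) 2
  /-- roots of unity -/
  zeta : ∀ (M : ℕ) (m a : Ideal (OO A B)) (σ : ℂ ≃+* ℂ) (b : Ideal (OO A B))
    (L L' : PeriodPair) (om mu : ℂ), m ≠ ⊥ → FixK A B σ → M ≠ 0 → m ≤ idl M →
    IsNE b L om → ActE σ m a L L' mu → ∀ z : ℂ, z ^ M = 1 → z ∈ RFE m ∧ σ z = z ^ nI a

/-! ## The standing hypotheses at `3` -/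

/-- `D = -4`: `3` is inert -/
structure SetE4 (A B : ℤ) (V : ValuationSubring ℂ) (f : ℕ) : Prop where
  case : CaseE A B
  hB : B = 0
  hV : OverI V (idl (A := A) (B := B) 3)
  f0 : f ≠ 0
  fp : ¬ 3 ∣ f
  fD : 2 * absD A B ∣ (f : ℤ)

/-- `D = -3`: `3` is ramified -/
structure SetE3 (A B : ℤ) (P : Ideal (OO A B)) (V : ValuationSubring ℂ) (f : ℕ) : Prop where
  case : CaseE A B
  hB : B = 1
  hP : IsPN 3 P
  hV : OverI V P
  f0 : f ≠ 0
  fp : ¬ 3 ∣ f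
  fD : 2 * absD A B ∣ 3 * (f : ℤ)

/-- `D = -3`: the character `w` of `(O/3)^*` with values in the sixth roots of unity, `w x ≡ emb x` modulo `3`, extended by `0` -/
structure IsTei6 {A B : ℤ} (P : Ideal (OO A B)) (V : ValuationSubring ℂ) (w : OO A B → ℂ) :
    Prop where
  one : w 1 = 1
  mul : ∀ x y, w (x * y) = w x * w y
  per : ∀ x y, x - y ∈ idl (A := A) (B := B) 3 → w x = w y
  zero : ∀ x ∈ P, w x = 0
  pow : ∀ x ∉ P, w x ^ 6 = 1
  cong : ∀ x ∉ P, V.valuation (w x - emb x) ≤ V.valuation (3 : ℂ)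
  unit : ∀ z : OO A B, IsUnit z → w z = emb z

/-- the characters used: `e (ζ x) = ζ e x` for all units `ζ` -/
structure IsEIE {A B : ℤ} (g : Ideal (OO A B)) (e : OO A B → ℂ) : Prop extends IsEI g e where
  unit : ∀ z : OO A B, IsUnit z → e z = emb z

end

end Pool.Agent.ME


end
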