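import Mathlib
import Pool.Agent.MVF.C011

/-! Parts: RID.Defs, MU3.NStmts -/

namespace Pool.Agent.RID
end Pool.Agent.RID

section

/-!
# Decomposition fields and the growth of class groups: definitions

Definitions used in the main statement: `fromSub`, `eOf`, `OnlyAbove`, `DecRam`, `DecP` (and
`classNo`, `IsLayer`, `UnramInf`, `Ramifies` of `Pool/Agent/RI/Defs.lean`).
-/

open NumberField Finset
open scoped nonZeroDivisors Pointwise

namespace Pool.Agent.RID

open _root_.Pool.Agent.RI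

/-! ### Definitions for the main statement -/

/-- The subgroup of the class group of `L` generated by the classes of the ideals `I 𝓞_L`, `I` an
ideal of (the ring of integers of) a field `E ∈ S` that is contained in `L`. -/
noncomputable def fromSub (L : IntermediateField ℚ ℂ) [FiniteDimensional ℚ L]
    (S : Set (IntermediateField ℚ ℂ)) : Subgroup (ClassGroup (𝓞 L)) :=
  Subgroup.closure {c | ∃ E ∈ S, ∃ (h : E ≤ L) (I : Ideal (𝓞 E)) (I' : (Ideal (𝓞 L))⁰),
    (I' : Ideal (𝓞 L)) =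
      I.map (RingOfIntegers.mapRingHom (IntermediateField.inclusion h : E →+* L)) ∧
    c = ClassGroup.mk0 I'}

/-- `e(M)`: the exponent of `p` in the index, in the class group of `K M`, of the subgroup generated
by the classes of the ideals of the fields `E M`, `E ∈ S`. -/
noncomputable def eOf (p : ℕ) (K M : IntermediateField ℚ ℂ) [FiniteDimensional ℚ K]
    [FiniteDimensional ℚ M] (S : Set (IntermediateField ℚ ℂ)) : ℕ :=
  padicValNat p (fromSub (K ⊔ M) {D | ∃ E ∈ S, D = E ⊔ M}).index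

/-- `P` is the only prime of `K` above the prime `P ∩ E` of `E`. -/
def OnlyAbove {E K : IntermediateField ℚ ℂ} (h : E ≤ K) (P : Ideal (𝓞 K)) : Prop :=
  ∀ Q : Ideal (𝓞 K), Q.IsPrime →
    Q.comap (RingOfIntegers.mapRingHom (IntermediateField.inclusion h : E →+* K)) =
      P.comap (RingOfIntegers.mapRingHom (IntermediateField.inclusion h : E →+* K)) → Q = P

/-- Every prime `P` of `K` such that `P ∩ F` ramifies in `M` is the only prime of `K` above `P ∩ E`
for some `E ∈ S`. -/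
def DecRam {F K M : IntermediateField ℚ ℂ} (hK : F ≤ K) (hM : F ≤ M)
    (S : Set (IntermediateField ℚ ℂ)) : Prop :=
  ∀ P : Ideal (𝓞 K), P.IsPrime →
    Ramifies hM
      (P.comap (RingOfIntegers.mapRingHom (IntermediateField.inclusion hK : F →+* K))) →
    ∃ E ∈ S, ∃ h : E ≤ K, OnlyAbove h P

/-- Every prime `P` of `K` above `p` is the only prime of `K` above `P ∩ E` for some `E ∈ S`. -/
def DecP (p : ℕ) (K : IntermediateField ℚ ℂ) (S : Set (IntermediateField ℚ ℂ)) : Prop :=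
  ∀ P : Ideal (𝓞 K), P.IsPrime → (p : 𝓞 K) ∈ P → ∃ E ∈ S, ∃ h : E ≤ K, OnlyAbove h P

/-! ### Operators -/

section ops

variable {G X : Type} [Group G] [Finite G] [CommGroup X] [MulDistribMulAction G X]

open Classical in
/-- `x ↦ ∏_{σ ∈ N} σ x`. -/
noncomputable def nuS (N : Subgroup G) : X →* X :=
  letI := Fintype.ofFinite N
  { toFun := fun x => ∏ σ : N, (σ : G) • x
    map_one' := by simp
    map_mul' := fun x y => by simp [smul_mul', Finset.prod_mul_distrib] }

lemma nuS_apply (N : Subgroup G) [h : Fintype N] (x : X) :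
    nuS N x = ∏ σ : N, (σ : G) • x := by
  have e : h = Fintype.ofFinite N := Subsingleton.elim _ _
  subst e
  rfl

end ops

section ops2

variable {G X : Type} [Group G] [CommGroup X] [MulDistribMulAction G X]

/-- `x ↦ ∏_{i < q} g^i x`. -/
def ng (g : G) (q : ℕ) : X →* X where
  toFun x := ∏ i ∈ range q, g ^ i • x
  map_one' := by simp
  map_mul' x y := by simp [smul_mul', Finset.prod_mul_distrib]

lemma ng_apply (g : G) (q : ℕ) (x : X) : ng g q x = ∏ i ∈ range q, g ^ i • x := rfl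

/-- `x ↦ x / g x`. -/
def dg (g : G) : X →* X where
  toFun x := x / g • x
  map_one' := by simp
  map_mul' x y := by simp [smul_mul', mul_div_mul_comm]

lemma dg_apply (g : G) (x : X) : dg g x = x / g • x := rfl

lemma mem_dg_ker (g : G) (x : X) : x ∈ (dg g : X →* X).ker ↔ g • x = x := by
  rw [MonoidHom.mem_ker, dg_apply, div_eq_one]
  exact eq_comm

end ops2

section proj

variable {κ X : Type} [CommGroup X]

/-- The operators `ν i`, `i ∈ l`, commute and satisfy `ν i ∘ ν i = (ν i) ^ (k i)`. -/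
def QP (l : List κ) (k : κ → ℕ) (ν : κ → X →* X) : Prop :=
  (∀ i ∈ l, ∀ x, ν i (ν i x) = ν i x ^ k i) ∧ ∀ i ∈ l, ∀ j ∈ l, ∀ x, ν i (ν j x) = ν j (ν i x)

/-- The elements `x` with `ν i x ∈ P` for `i ∈ l`. -/
def partM (l : List κ) (ν : κ → X →* X) (P : Subgroup X) : Subgroup X where
  carrier := {x | ∀ i ∈ l, ν i x ∈ P}
  mul_mem' ha hb i hi := by rw [map_mul]; exact mul_mem (ha i hi) (hb i hi)
  one_mem' i _ := by rw [map_one]; exact one_mem _
  inv_mem' ha i hi := by rw [map_inv]; exact inv_mem (ha i hi)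

/-- The elements `x` with `ν i x = 1` for `i ∈ l`. -/
def part (l : List κ) (ν : κ → X →* X) : Subgroup X := partM l ν ⊥

lemma mem_partM {l : List κ} {ν : κ → X →* X} {P : Subgroup X} {x : X} :
    x ∈ partM l ν P ↔ ∀ i ∈ l, ν i x ∈ P := Iff.rfl

lemma mem_part {l : List κ} {ν : κ → X →* X} {x : X} :
    x ∈ part l ν ↔ ∀ i ∈ l, ν i x = 1 := by
  unfold part
  simp only [mem_partM, Subgroup.mem_bot]

/-- `x ↦ x ^ k / ν x`. -/
def fac (k : ℕ) (ν : X →* X) : X →* X where
  toFun x := x ^ k / ν x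
  map_one' := by simp
  map_mul' x y := by rw [map_mul, mul_pow, mul_div_mul_comm]

lemma fac_apply (k : ℕ) (ν : X →* X) (x : X) : fac k ν x = x ^ k / ν x := rfl

/-- The product of the operators `k i - ν i`, `i ∈ l`. -/
def pr (l : List κ) (k : κ → ℕ) (ν : κ → X →* X) : X →* X :=
  l.foldr (fun i f => (fac (k i) (ν i)).comp f) (MonoidHom.id X)

@[simp] lemma pr_nil (k : κ → ℕ) (ν : κ → X →* X) (x : X) : pr [] k ν x = x := rfl

@[simp] lemma pr_cons (i : κ) (l : List κ) (k : κ → ℕ) (ν : κ → X →* X) (x : X) :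
    pr (i :: l) k ν x = pr l k ν x ^ k i / ν i (pr l k ν x) := rfl

/-- The product of the `k i`, `i ∈ l`. -/
def wt (l : List κ) (k : κ → ℕ) : ℕ := (l.map k).prod

@[simp] lemma wt_nil (k : κ → ℕ) : wt [] k = 1 := rfl

@[simp] lemma wt_cons (i : κ) (l : List κ) (k : κ → ℕ) : wt (i :: l) k = k i * wt l k := rfl

lemma wt_coprime {p : ℕ} (l : List κ) (k : κ → ℕ) (h : ∀ i ∈ l, (k i).Coprime p) :
    (wt l k).Coprime p := by
  induction l with
  | nil => simp
  | cons i l ih =>
    rw [wt_cons]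
    exact Nat.Coprime.mul_left (h i (by simp)) (ih fun j hj => h j (by simp [hj]))

lemma pr_map {Y : Type} [CommGroup Y] (l : List κ) (k : κ → ℕ) (ν : κ → X →* X)
    (ν' : κ → Y →* Y) (f : X →* Y) (h : ∀ i ∈ l, ∀ x, f (ν i x) = ν' i (f x)) (x : X) :
    f (pr l k ν x) = pr l k ν' (f x) := by
  induction l with
  | nil => rfl
  | cons i l ih =>
    have ih' := ih fun j hj => h j (by simp [hj])
    rw [pr_cons, pr_cons, map_div, map_pow, h i (by simp), ih']

lemma pr_part (l : List κ) (k : κ → ℕ) (ν : κ → X →* X) {x : X} (hx : x ∈ part l ν) :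
    pr l k ν x = x ^ wt l k := by
  rw [mem_part] at hx
  induction l with
  | nil => simp
  | cons i l ih =>
    have ih' := ih fun j hj => hx j (by simp [hj])
    rw [pr_cons, ih', map_pow, hx i (by simp), one_pow, div_one, wt_cons, ← pow_mul, mul_comm]

lemma pr_mem_stable (l : List κ) (k : κ → ℕ) (ν : κ → X →* X) (P : Subgroup X)
    (hP : ∀ i ∈ l, ∀ x ∈ P, ν i x ∈ P) {x : X} (hx : x ∈ P) : pr l k ν x ∈ P := by
  induction l with
  | nil => exact hx
  | cons i l ih =>
    have ih' := ih fun j hj => hP j (by simp [hj])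
    rw [pr_cons]
    exact div_mem (pow_mem ih' _) (hP i (by simp) _ ih')

/-- `pr x ≡ x ^ wt` modulo `P` if all `ν i x` are in the stable subgroup `P`. -/
lemma pr_partM (l : List κ) (k : κ → ℕ) (ν : κ → X →* X) (P : Subgroup X)
    (hP : ∀ i ∈ l, ∀ x ∈ P, ν i x ∈ P) {x : X} (hx : x ∈ partM l ν P) :
    pr l k ν x / x ^ wt l k ∈ P := by
  rw [mem_partM] at hx
  induction l with
  | nil => simp
  | cons i l ih =>
    have ih' := ih (fun j hj => hP j (by simp [hj])) fun j hj => hx j (by simp [hj])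
    have h1 : ν i (pr l k ν x) ∈ P := by
      have e : pr l k ν x = (pr l k ν x / x ^ wt l k) * x ^ wt l k := by
        rw [div_mul_cancel]
      rw [e, map_mul, map_pow]
      exact mul_mem (hP i (by simp) _ ih') (pow_mem (hx i (by simp)) _)
    have h2 : pr (i :: l) k ν x / x ^ wt (i :: l) k =
        (pr l k ν x / x ^ wt l k) ^ k i / ν i (pr l k ν x) := by
      rw [pr_cons, wt_cons, div_pow, ← pow_mul, mul_comm (wt l k), div_right_comm]
    rw [h2]
    exact div_mem (pow_mem ih' _) h1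

lemma comm_pr (l : List κ) (k : κ → ℕ) (ν : κ → X →* X) (f : X →* X)
    (h : ∀ i ∈ l, ∀ x, f (ν i x) = ν i (f x)) (x : X) :
    f (pr l k ν x) = pr l k ν (f x) := pr_map l k ν ν f h x

lemma pr_mem (l : List κ) (k : κ → ℕ) (ν : κ → X →* X) (h : QP l k ν) (x : X) :
    pr l k ν x ∈ part l ν := by
  rw [mem_part]
  induction l with
  | nil => intro i hi; simp at hi
  | cons i l ih =>
    have ih' := ih ⟨fun j hj => h.1 j (by simp [hj]),
      fun j hj j' hj' => h.2 j (by simp [hj]) j' (by simp [hj'])⟩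
    intro j hj
    rw [pr_cons, map_div, map_pow]
    rcases List.mem_cons.1 hj with rfl | hj
    · rw [h.1 j (by simp), div_self']
    · rw [ih' j hj, one_pow, h.2 j (by simp [hj]) i (by simp), ih' j hj, map_one, div_one]

end proj

/-! ### Fields -/

/-- The fractional ideals `b` of `L` such that all norms `∏_{σ ∈ N i} σ b`, `i ∈ l`, are
principal. -/
noncomputable def XsJ {F L κ : Type} [Field F] [Field L] [NumberField L] [Algebra F L]
    [FiniteDimensional F L] (l : List κ) (N : κ → Subgroup (L ≃ₐ[F] L)) : Subgroup (J L) :=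
  partM l (fun i => nuS (N i)) (prin : Lˣ →* J L).range

/-- The units of `L` fixed by `H` with trivial norms for the `N i`, `i ∈ l`. -/
noncomputable def WU {F L κ : Type} [Field F] [Field L] [NumberField L] [Algebra F L]
    [FiniteDimensional F L] (l : List κ) (N : κ → Subgroup (L ≃ₐ[F] L))
    (H : Subgroup (L ≃ₐ[F] L)) : Subgroup Lˣ where
  carrier := {u | prin u = 1 ∧ (∀ σ ∈ H, σ • u = u) ∧ u ∈ part l (fun i => nuS (N i))}
  mul_mem' := by
    rintro a b ⟨ha, ha', ha''⟩ ⟨hb, hb', hb''⟩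
    exact ⟨by rw [map_mul, ha, hb, one_mul], fun σ hσ => by rw [smul_mul', ha' σ hσ, hb' σ hσ],
      mul_mem ha'' hb''⟩
  one_mem' := ⟨map_one _, fun σ _ => smul_one _, one_mem _⟩
  inv_mem' := by
    rintro a ⟨ha, ha', ha''⟩
    exact ⟨by rw [map_inv, ha, inv_one], fun σ hσ => by rw [smul_inv', ha' σ hσ], inv_mem ha''⟩

/-- `g` is an automorphism of `L / F` of order `q` with fixed field `K`. -/
structure CycExt (F K L : Type) [Field F] [Field K] [Field L] [Algebra F L] [Algebra K L]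
    (g : L ≃ₐ[F] L) (q : ℕ) : Prop where
  ord : orderOf g = q
  fix : ∀ x : L, g x = x ↔ ∃ y : K, algebraMap K L y = x

/-- The subgroup `N` of `Gal(L / F)` corresponds bijectively to the subgroup `N'` of
`Gal(K / F)`. -/
def Match {F K L : Type} [Field F] [Field K] [Field L] [Algebra F K] [Algebra F L] [Algebra K L]
    (N' : Subgroup (K ≃ₐ[F] K)) (N : Subgroup (L ≃ₐ[F] L)) : Prop :=
  ∃ e : N' ≃ N, ∀ (σ : N') (x : K),
    algebraMap K L ((σ : K ≃ₐ[F] K) x) = ((e σ : N) : L ≃ₐ[F] L) (algebraMap K L x)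

/-- The situation of one step: `L / K` cyclic of degree `p ^ a` generated by `g`. -/
structure Sys (p : ℕ) (F K L : Type) {κ : Type} [Field F] [NumberField F] [Field K]
    [NumberField K] [Field L] [NumberField L] [Algebra F K] [Algebra F L] [Algebra K L]
    [IsScalarTower F K L] (l : List κ) (N' : κ → Subgroup (K ≃ₐ[F] K))
    (N : κ → Subgroup (L ≃ₐ[F] L)) (g : L ≃ₐ[F] L) (a : ℕ) : Prop where
  galK : IsGalois F K
  galL : IsGalois F L
  ne : l ≠ []
  cyc : CycExt F K L g (p ^ a)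
  nrm : ∀ i ∈ l, (N i).Normal
  nrm' : ∀ i ∈ l, (N' i).Normal
  cop : ∀ i ∈ l, (Nat.card (N i)).Coprime p
  com : ∀ i ∈ l, ∀ σ ∈ N i, σ * g = g * σ
  mat : ∀ i ∈ l, Match (N' i) (N i)
  inf : Nat.card (InfinitePlace L) = p ^ a * Nat.card (InfinitePlace K)
  ram : ∀ w : IsDedekindDomain.HeightOneSpectrum (𝓞 L), w.asIdeal.ramificationIdx (𝓞 K) ≠ 1 →
    ∃ i ∈ l, ∀ σ ∈ N i, σ • w.asIdeal = w.asIdeal

/-! ### Subfields of `ℂ` -/

/-- The automorphisms of `L / F` that fix the elements of `L ∩ D`. -/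
noncomputable def NC {F L : IntermediateField ℚ ℂ} (h : F ≤ L) (D : IntermediateField ℚ ℂ) :
    letI := algC h
    Subgroup (L ≃ₐ[F] L) :=
  letI := algC h
  { carrier := {σ | ∀ x : L, (x : ℂ) ∈ D → σ x = x}
    mul_mem' := fun {a b} ha hb x hx => by
      rw [AlgEquiv.mul_apply, hb x hx, ha x hx]
    one_mem' := fun x _ => rfl
    inv_mem' := fun {a} ha x hx => by
      have h1 := congrArg (a⁻¹ : L ≃ₐ[F] L) (ha x hx)
      rw [← AlgEquiv.mul_apply, inv_mul_cancel, AlgEquiv.one_apply] at h1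
      exact h1.symm }

/-- The situation of the theorems, for subfields of `ℂ`. -/
structure CD (p : ℕ) (F K M : IntermediateField ℚ ℂ) (l : List (IntermediateField ℚ ℂ)) :
    Prop where
  hK : F ≤ K
  hM : F ≤ M
  gK : IsGalois F (IntermediateField.extendScalars hK)
  copK : ¬ p ∣ Module.finrank F (IntermediateField.extendScalars hK)
  gM : IsGalois F (IntermediateField.extendScalars hM)
  degM : ∃ a : ℕ, Module.finrank F (IntermediateField.extendScalars hM) = p ^ a
  ne : l ≠ []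
  mem : ∀ E ∈ l, ∃ h : F ≤ E, E ≤ K ∧ IsGalois F (IntermediateField.extendScalars h)
  inf : UnramInf hM
  ram : DecRam hK hM {E | E ∈ l}

end Pool.Agent.RID


end

section

/-!
# MU3, section 4: from nilpotency to `v_p h(K_n) = O(n^2)` (helper3)

`J L`, `prin`, `ext`, the action of the Galois group on `J L`: `Pool/Agent/RI/Defs.lean`. `ng g q x =
∏_{i < q} g^i x`, `dg g x = x / g x`, `CycExt F K L g q` (`g` is an automorphism of `L / F` of order `q` with
fixed field `K`): `Pool/Agent/RID/Defs.lean`. Facts on `L / K` cyclic: `S_CYC` (proved: `t_CYC` in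
`Pool/Agent/RID/P_CYC.lean`). Class number: `CL.classNumber_eq` in `Pool/Agent/RI/CL.lean`.

Every `def N_X : Prop` is the statement of a module, proved as `theorem n_X : ... → N_X`.
-/

open NumberField Finset IsDedekindDomain
open scoped nonZeroDivisors Pointwise

namespace MU3

open _root_.Pool.Agent.RI _root_.Pool.Agent.RID

/-- the subgroup of the principal fractional ideals -/
noncomputable abbrev PI (L : Type) [Field L] [NumberField L] : Subgroup (J L) :=
  (prin : Lˣ →* J L).range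

/-- the exponent of `p` in the number of the ideal classes of `L` that are killed by `p`, i.e. the
`p`-rank of the class group -/
noncomputable def rkp (p : ℕ) (L : Type) [Field L] [NumberField L] : ℕ :=
  padicValNat p (Nat.card {c : J L ⧸ PI L // c ^ p = 1})

/-! ## Ambiguous classes -/

/-- AMBA: ambiguous classes, abstract form.
Proof. `P = dv.range`, `U = P.comap (dg g)` (the `b` with `b / g b ∈ P`), `B₀ = dv.ker ⊓ (dg g).ker`,
`N₀ = dv.ker.map (ng g q)`. For `b ∈ U` choose `x` with `dg g b = dv x`; `dv (ng g q x) = ng g q (dg g b) = 1`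
(telescoping, `g ^ q = 1`) and `g • ng g q x = ng g q x`, so `ng g q x ∈ B₀`; modulo `N₀` it depends only on `b`
(`x` is unique up to `dv.ker`). Homomorphism `U → B₀ / N₀`; its kernel is `P ⊔ (dg g).ker`: if `ng g q x = ng g q u`, `u ∈ dv.ker`, then
`x / u = y / g y` (Hilbert 90), `dg g b = dv (x / u) = dg g (dv y)`, so `b / dv y` is fixed by `g`. So
`[U : kernel]` divides `[B₀ : N₀]`. Without quotient maps: as in `Pool/Agent/RID/P_ABS1.lean` (which is
this proof with additional operators; lemmas `rel_dvd_right`, `map_dvd`, `ng_dg`, `smul_ng`, `ng_comm`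
there) with the subgroup `Γ = {(b, x) | dg g b = dv x}` of `I × A`, `Γ₀ = {.. | ng g q x ∈ N₀}`. -/
def N_AMBA : Prop := ∀ (q : ℕ) (A I G : Type) [CommGroup A] [CommGroup I] [Group G]
    [MulDistribMulAction G A] [MulDistribMulAction G I] (dv : A →* I) (g : G), g ^ q = 1 →
    (∀ x, dv (g • x) = g • dv x) → (∀ x : A, ng g q x = 1 → ∃ y, x = y / g • y) →
    (dv.range ⊔ (dg g : I →* I).ker).relIndex (dv.range.comap (dg g)) ∣
      (dv.ker.map (ng g q)).relIndex (dv.ker ⊓ (dg g).ker)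

/-- AMBI: ideals fixed by `g` modulo ideals of `K`.
Proof. By `S_CYC` a `b` with `g b = b` is fixed by `Gal(L / K)`, `L / K` is Galois of degree `q`. For `v ∈ S` choose
`w_v` above `v` (`INVI.exists_above`) and let `e_v = w_v.asIdeal.ramificationIdx (𝓞 K)`; it is `≥ 1` and divides `q`
(or is `≤ q`). Homomorphism `(dg g).ker → ∏_{v ∈ S} ZMod e_v` (or `ℤ ⧸ e_v`), `b ↦ count_{w_v} b`. If `b` is
in the kernel: `c = ∏_{v ∈ S} v ^ (count_{w_v} b / e_v) ∈ J K` (the prime `v` as a fractional ideal, see `exists_count` in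
`Pool/Agent/RI/INVI.lean`), `b' = b / ext K L c` is fixed by `Gal(L / K)` and `count_w b' = 0` at all `w` above `S`:
`COUNTEXT` for `w_v`, and all `w` above `v` are conjugate to `w_v` (`COUNTACT`, transitivity as in `INVI.lean`). By `INVI`
(`INVI_thm COUNTACT_thm COUNTEXT_thm`) `b' = ext K L c'`. So the kernel is contained in `(ext K L).range`, and the
index is at most `∏ e_v ≤ q ^ S.card`. -/
def N_AMBI : Prop := ∀ (F K L : Type) [Field F] [NumberField F] [Field K] [NumberField K]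
    [Field L] [NumberField L] [Algebra F K] [Algebra F L] [Algebra K L] [IsScalarTower F K L]
    (g : L ≃ₐ[F] L) (q : ℕ), CycExt F K L g q → ∀ S : Finset (HeightOneSpectrum (𝓞 K)),
    (∀ w : HeightOneSpectrum (𝓞 L), w.asIdeal.ramificationIdx (𝓞 K) ≠ 1 →
      ∃ v ∈ S, w.asIdeal.under (𝓞 K) = v.asIdeal) →
    (ext K L).range.relIndex (dg g : J L →* J L).ker ≠ 0 ∧
    (ext K L).range.relIndex (dg g : J L →* J L).ker ≤ q ^ S.card

/-- AMBU: the units of `K` modulo norms.
Proof. `E_K = (prin : Kˣ →* J K).ker`, `ι = Units.map (algebraMap K L)`. By `S_CYC` an element of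
`prin.ker ⊓ (dg g).ker` is `ι e`, `e ∈ E_K` (`RKF.prin_map_eq_one_iff`), and `ng g q (ι e) = (ι e) ^ q = ι (e ^ q)`. So the
index divides (or is at most) `[E_K : E_K ^ q]`. `E_K ≅ (𝓞 K)ˣ` (`RKU.prin_eq_one_iff`) is generated by `rank K + 1`
elements: a generator of the cyclic group `NumberField.Units.torsion K` and `NumberField.Units.fundSystem K`
(`NumberField.Units.exist_unique_eq_mul_prod`). So `E_K / E_K ^ q` has at most `q ^ (rank K + 1)` elements:
`(ℤ / q) ^ (rank K + 1)` maps onto it (`q ≥ 1` as `g` has order `q`). -/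
def N_AMBU : Prop := ∀ (F K L : Type) [Field F] [NumberField F] [Field K] [NumberField K]
    [Field L] [NumberField L] [Algebra F K] [Algebra F L] [Algebra K L] [IsScalarTower F K L]
    (g : L ≃ₐ[F] L) (q : ℕ), CycExt F K L g q →
    ((prin : Lˣ →* J L).ker.map (ng g q)).relIndex ((prin : Lˣ →* J L).ker ⊓ (dg g).ker) ≠ 0 ∧
    ((prin : Lˣ →* J L).ker.map (ng g q)).relIndex ((prin : Lˣ →* J L).ker ⊓ (dg g).ker) ≤
      q ^ (NumberField.Units.rank K + 1)

/-- AMB: the ambiguous class number formula (upper bound).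
Proof (from AMBA, AMBI, AMBU, S_CYC). `A = Lˣ`, `I = J L`, `dv = prin`, `q = p ^ a`; `P = PI L`,
`U = P.comap (dg g)`, `U₀ = P ⊔ (dg g).ker`, `U₁ = P ⊔ (ext K L).range`: `P ≤ U₁ ≤ U₀ ≤ U`. All indices are
finite (`P` has finite index). `v_p(m) ≤ s` if `0 < m ≤ p ^ s`. `[U : U₀]` divides the index of AMBU, so `v_p ≤ a (rank K + 1)`. `[U₀ : U₁]`
divides `[(dg g).ker : (ext K L).range]`, so it is `≤ (p ^ a) ^ S.card`. `[U₁ : P]` divides `[J K : PI K] = h(K)`
(`(PI K).map ext ≤ P` by `ext_prin`). -/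
def N_AMB : Prop := ∀ (p a : ℕ) [Fact p.Prime] (F K L : Type) [Field F] [NumberField F]
    [Field K] [NumberField K] [Field L] [NumberField L] [Algebra F K] [Algebra F L] [Algebra K L]
    [IsScalarTower F K L] (g : L ≃ₐ[F] L), CycExt F K L g (p ^ a) →
    ∀ S : Finset (HeightOneSpectrum (𝓞 K)),
    (∀ w : HeightOneSpectrum (𝓞 L), w.asIdeal.ramificationIdx (𝓞 K) ≠ 1 →
      ∃ v ∈ S, w.asIdeal.under (𝓞 K) = v.asIdeal) →
    padicValNat p ((PI L).relIndex ((PI L).comap (dg g))) ≤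
      padicValNat p (NumberField.classNumber K) + a * (S.card + NumberField.Units.rank K + 1)

/-! ## Finite modules -/

/-- NIL: nilpotency and few invariants bound the rank.
Proof. `T = γ - 1`. `|A[p]| = |A / p A|` (`A` finite), `T ^ l A ≤ p A`, so `|A / p A|` divides `|A / T ^ l A| = |ker T ^ l|`, and
`|ker T ^ (i+1)|` divides `|ker T ^ i| |ker T|` (`T ^ i` maps `ker T ^ (i+1)` to `ker T` with kernel `ker T ^ i`), so
`|ker T ^ l|` divides `|ker T| ^ l`. -/
def N_NIL : Prop := ∀ (p l : ℕ) [Fact p.Prime] (A : Type) [AddCommGroup A] [Finite A]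
    (γ : AddMonoid.End A), (∀ x : A, ∃ y : A, ((γ - 1) ^ l) x = p • y) →
    padicValNat p (Nat.card {x : A // p • x = 0}) ≤
      l * padicValNat p (Nat.card (AddMonoidHom.ker (γ - 1 : AddMonoid.End A)))

/-- NILR: NIL for the class group.
Proof. `A = Additive (J L ⧸ PI L)`, `γ` induced by `g` (`ALGR.ga` in `Pool/Agent/RID/P_ALGR.lean` with `X = ⊤`, or
directly by `QuotientGroup.map`; `smul_prin`). `(γ - 1) x` is the class of `(dg g b)⁻¹`, `(γ - 1) ^ l x` the class of
`((dg g)^[l] b) ^ (±1)`; `ker (γ - 1)` is `(PI L).comap (dg g) / PI L`. -/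
def N_NILR : Prop := ∀ (p l : ℕ) [Fact p.Prime] (F L : Type) [Field F] [Field L] [NumberField L]
    [Algebra F L] (g : L ≃ₐ[F] L),
    (∀ b : J L, ∃ (y : J L) (x : Lˣ), (dg g)^[l] b = y ^ p * prin x) →
    rkp p L ≤ l * padicValNat p ((PI L).relIndex ((PI L).comap (dg g)))

/-- STEP: one step of the tower.
Proof (from `S_ALG2`, proved in `Pool/Agent/RID/P_ALG2.lean`, and `S_CYC`). `A = Additive (J L ⧸ PI L)`, `γ` induced by `g`; `h = g ^ (p ^ m)`.
The range of `∑_{j < p} γ ^ (p ^ m j)` consists of the classes of `ng h p b = ∏_{τ ∈ Gal(L/M)} τ b = nm M L b ∈ ext (J M)`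
(`S_CYC` for `h`, `CL.nm_mem`), so it is contained in the image of `Cl(M) → Cl(L)` (`ext_prin`), whose order divides `h(M)`. -/
def N_STEP : Prop := ∀ (p m : ℕ) [Fact p.Prime] (F M L : Type) [Field F] [NumberField F]
    [Field M] [NumberField M] [Field L] [NumberField L] [Algebra F M] [Algebra F L] [Algebra M L]
    [IsScalarTower F M L] (g : L ≃ₐ[F] L), g ^ (p ^ (m + 1)) = 1 →
    CycExt F M L (g ^ (p ^ m)) p → rkp p L < p ^ m * (p - 1) →
    padicValNat p (NumberField.classNumber L) ≤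
      padicValNat p (NumberField.classNumber M) + rkp p L

/-- NUM: summation.
Proof. `2 ^ m ≤ p ^ m * (p - 1)` outgrows `l (c₀ + (m + 1) c₁)`: there is `m₁` such that the hypothesis applies to all `m ≥ m₁`.
So `v n ≤ v m₁ + ∑_{m₁ ≤ m < n} l (c₀ + (m + 1) c₁)` for `n ≥ m₁`; take `C` larger than
`l (c₀ + c₁) + max_{n ≤ m₁} v n`. -/
def N_NUM : Prop := ∀ (p l c₀ c₁ : ℕ) [Fact p.Prime] (v r : ℕ → ℕ),
    (∀ n, r n ≤ l * (c₀ + n * c₁)) →
    (∀ m, r (m + 1) < p ^ m * (p - 1) → v (m + 1) ≤ v m + r (m + 1)) →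
    ∃ C : ℕ, ∀ n, v n ≤ C * (n + 1) ^ 2

/-! ## Subfields of `ℂ` -/

/-- GAL: Galois theory of `K B_n` over `K`, `[K : ℚ]` prime to `p`.
Proof. `Gal(B n / ℚ)` is cyclic (`S_LAYC`, proved: `Pool/Agent/RID/P_LAYC.lean`; `LAY_thm`); `K B_n / K` is Galois (`BCH_thm`), its group
embeds by restriction into `Gal(B n / ℚ)`, and `[K B_n : K] = p ^ n` because `[K : ℚ]` and `[B n : ℚ] = p ^ n` are
relatively prime. Take `g` = a generator, as an automorphism over `k`. (i) order `p ^ n`, fixed field `K`. (ii) for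
`m ≤ n` (`B m ≤ B n`): `g ^ (p ^ m)` has order `p ^ (n - m)` and fixed field `K B_m`: `[K B_m : K] = p ^ m`, the cyclic group of order `p ^ n` has
only one subgroup of index `p ^ m`. Compare `S_GCC`, `S_GCP` (`Pool/Agent/RID/P_GCC.lean`, `P_GCP.lean`). -/
def N_GAL : Prop := ∀ (p : ℕ) [Fact p.Prime] (k K : IntermediateField ℚ ℂ)
    [FiniteDimensional ℚ K] (B : ℕ → IntermediateField ℚ ℂ) (_hk : k ≤ K),
    ¬ p ∣ Module.finrank ℚ K → (∀ n, IsLayer p n (B n)) → Monotone B →
    ∀ (n : ℕ) (h : k ≤ K ⊔ B n), letI := algC h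
    ∃ g : ↥(K ⊔ B n) ≃ₐ[k] ↥(K ⊔ B n), orderOf g = p ^ n ∧
      (∀ x : ↥(K ⊔ B n), g x = x ↔ (x : ℂ) ∈ K) ∧
      ∀ m ≤ n, orderOf (g ^ (p ^ m)) = p ^ (n - m) ∧
        ∀ x : ↥(K ⊔ B n), (g ^ (p ^ m)) x = x ↔ (x : ℂ) ∈ K ⊔ B m

/-- RAMP: the primes of `K` that ramify in `K B_n` contain `p`.
Proof. `K B_n ≤ K(ζ)`, `ζ` a root of unity of order `p ^ m` (`IsLayer`); `RAM_thm`. See `MAINC.ram_aux` in
`Pool/Agent/RI/MAINC.lean`. -/
def N_RAMP : Prop := ∀ (p n : ℕ) [Fact p.Prime] (K B : IntermediateField ℚ ℂ)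
    [FiniteDimensional ℚ K] [FiniteDimensional ℚ ↥(K ⊔ B)], IsLayer p n B →
    letI := algC (le_sup_left : K ≤ K ⊔ B)
    ∀ w : HeightOneSpectrum (𝓞 ↥(K ⊔ B)), w.asIdeal.ramificationIdx (𝓞 K) ≠ 1 →
      (p : 𝓞 K) ∈ w.asIdeal.under (𝓞 K)

/-- FIN: the result of section 4. The hypothesis is the result of section 3: `(γ - 1) ^ l A_n ≤ p A_n` for
every generator `g` of `Gal(K B_n / K)`.
Proof (from AMB, NILR, STEP, NUM, GAL, RAMP). `S` = the finite set of the primes of `K` that contain `p`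
(finitely many primes divide `p ≠ 0`: `Ideal.finite_factors`), `c₀ = v_p h(K)`,
`c₁ = S.card + rank K + 1`. `v n = padicValNat p (classNo (K ⊔ B n))`, `r n = rkp p (K ⊔ B n)`. GAL gives `g` for `n`; AMB with
`F = k`, `L = K ⊔ B n` (`towerC`; `k`, `K` number fields), NILR: `r n ≤ l (c₀ + n c₁)`. STEP with `M = K ⊔ B m`, `L = K ⊔ B (m + 1)`. NUM.
`classNo E = NumberField.classNumber E` (`Nat.card_eq_fintype_card`). -/
def N_FIN : Prop := ∀ (p l : ℕ) [Fact p.Prime] (k K : IntermediateField ℚ ℂ)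
    [FiniteDimensional ℚ K] (B : ℕ → IntermediateField ℚ ℂ) (_hk : k ≤ K)
    [∀ n, FiniteDimensional ℚ ↥(K ⊔ B n)],
    ¬ p ∣ Module.finrank ℚ K → (∀ n, IsLayer p n (B n)) → Monotone B →
    (∀ (n : ℕ) (h : k ≤ K ⊔ B n), letI := algC h
      ∀ g : ↥(K ⊔ B n) ≃ₐ[k] ↥(K ⊔ B n), (∀ x : ↥(K ⊔ B n), g x = x ↔ (x : ℂ) ∈ K) →
      ∀ b : J ↥(K ⊔ B n), ∃ (y : J ↥(K ⊔ B n)) (x : (↥(K ⊔ B n))ˣ),
        (dg g)^[l] b = y ^ p * prin x) →
    ∃ C : ℕ, ∀ n, padicValNat p (classNo (K ⊔ B n)) ≤ C * (n + 1) ^ 2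

end MU3


end
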