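import Mathlib
import Pool.Agent.MVF.C013
import Pool.Agent.MVF.C016
import Pool.Agent.MVF.C017
import Pool.Agent.MVF.C018
import Pool.Agent.MVF.C019
import Pool.Agent.MVF.C020

/-! Parts: MU3.StV2, MU3.WK1, MU3.WK2, MUX.StWX, MU3.W_SUC, MU3.W_XXM, MU3.W_TORV, MU3.W_THG, MU3.W_FIB, MU3.W_INV, MU3.W_DIF -/

namespace Pool.Agent.MU3V.Fib
end Pool.Agent.MU3V.Fib
namespace Pool.Agent.MU3V.SUC
end Pool.Agent.MU3V.SUC

section

/-!
# MU3, block V: the elements `c_n`, the norm relation and the primes of degree one (helper59)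

Statements `def Sw_X : Prop` with complete proofs in the doc strings; the module proves
`theorem tw_X (h : ...) ... : Sw_X` in `Pool/Agent/MU3/W_X.lean`. `k = kk A B`, `F_m = TF L m`, `D` a field with
`k ≤ D ≤ F_m` (`D : IntermediateField ℚ ℂ`, structure of `k`-algebra `algC h`), `u = Om / emb m`,
`E[m] = {z : emb m * z ∈ L}`, `E₁ = {z : InE1 A B V L z}`. `XX`, `cc`, `Ext1`: `CDefs.lean`. `Act`, `em`, `TF`: `ADefs.lean`.
`cls m x` is the class of `x` modulo `m`.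
-/

set_option autoImplicit false

open WeierstrassCurve Polynomial NumberField IsDedekindDomain

namespace Pool.Agent.MU3V

open _root_.MU3 _root_.Pool.Agent.MU3A _root_.Pool.Agent.MU3B _root_.Pool.Agent.MU3C _root_.Pool.Agent.RI

noncomputable section

/-- the class of `x` modulo `m` -/
def cls {A B : ℤ} (m x : OO A B) : OO A B ⧸ Ideal.span {m} := Ideal.Quotient.mk (Ideal.span {m}) x

/-- `D ≤ F_m` -/
def Sub {A B : ℤ} (D : IntermediateField ℚ ℂ) (F : IntermediateField (kk A B) ℂ) : Prop :=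
  ∀ x ∈ D, x ∈ F

/-! ### Local statements -/

/-- (DIF) points with congruent coordinates differ by an element of `E₁`.

Uses `VZ.lean`, `VRed.v_y_unit`. PROOF. If `z - z'` is not in `E₁` then `z + z'` is (`v_xx_sub`). `z = -z' + (z + z')`, so by
`near_lt` `yy z ≡ yy(-z') = -yy z'` modulo the maximal ideal (`yy` is odd: `ξ(-z) = -ξ(z)`, `a₁ = a₃ = 0`), so
`2 yy z' ≡ 0`, `v(yy z') < 1`. By `v_y_unit` (for the point `ξ z'`) `z' + z'` is in `E₁`, so
`z - z' = (z + z') - (z' + z')` is in `E₁`. -/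
def Sw_DIF : Prop :=
  ∀ (A B : ℤ) (L : PeriodPair) (Om : ℂ) (ξ : ℂ →+ (WC A B).Point), Case A B → IsCM A B L Om →
    IsXi A B L ξ → ∀ V : ValuationSubring ℂ, V.valuation 2 = 1 → ∀ z z' : ℂ,
    ¬ InE1 A B V L z → ¬ InE1 A B V L z' → V.valuation (xx A B L z - xx A B L z') < 1 →
    V.valuation (yy L z - yy L z') < 1 → InE1 A B V L (z - z')

/-- (THU) `Θ_a` is a unit, and depends only on the reduction.

Uses `VZ.lean`. PROOF. `p ∈ H`: `a p ∈ L`, `p ∉ L` (`2 p ∉ L`), so `p ∉ E₁` (`mem_of_nat_mul` with `n = |a|`,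
`v a = 1`). (1) If `z` or `z ± p` is in `E₁` then so is `a` times it (`inE1_int`), which is congruent to `a z` modulo `L`: excluded. So
`v(xx z - xx p) = 1` (`v_xx_sub`), and `℘ z - ℘ p = xx z - xx p`. (2) `xx z - xx p`, `xx(z + r) - xx p` are in `V` and congruent
(`near_lt`; `z + r ∉ E₁` by `inE1_congr`); products of congruent elements of `V` are congruent (`Finset.induction`). -/
def Sw_THU : Prop :=
  ∀ (A B : ℤ) (L : PeriodPair) (Om : ℂ) (ξ : ℂ →+ (WC A B).Point), Case A B → IsCM A B L Om →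
    IsXi A B L ξ → ∀ V : ValuationSubring ℂ, V.valuation 2 = 1 → ∀ (a : ℤ) (H : Finset ℂ),
    V.valuation (a : ℂ) = 1 → IsHalf L a H →
    (∀ z, ¬ InE1 A B V L (a * z) → V.valuation (ThetaH L H z) = 1) ∧
    ∀ z r, ¬ InE1 A B V L z → InE1 A B V L r → V.valuation (ThetaH L H z) ≤ 1 ∧
      V.valuation (ThetaH L H (z + r) - ThetaH L H z) < 1

/-- (TORV) torsion of order prime to the residue characteristic is not in `E₁`.

Uses `VZ.lean`, Sa_PID. PROOF. `m ∣ nm m` (`m * conj m = nm m`), so `nm m * z ∈ L` for `z ∈ E[m]`; `nm m ≥ 0`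
(`nm m = n` natural), `v n = 1`: `mem_of_nat_mul`. -/
def Sw_TORV : Prop :=
  ∀ (A B : ℤ) (L : PeriodPair) (Om : ℂ) (ξ : ℂ →+ (WC A B).Point), Case A B → IsCM A B L Om →
    IsXi A B L ξ → ∀ V : ValuationSubring ℂ, V.valuation 2 = 1 → ∀ m : OO A B,
    V.valuation ((nm m : ℤ) : ℂ) = 1 → ∀ z, emb m * z ∈ L.lattice → InE1 A B V L z → z ∈ L.lattice

/-- (INV) an automorphism of `F` which is trivial modulo `V` acts trivially on `E[m]` if `E[m]` meets `E₁`
trivially.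

Uses Sw_DIF, Sa_GAL, Sa_ACT. PROOF. (GAL): `Act (em σ) m a`. Let `z = Om/emb m`. If `m` is a unit nothing is to be shown (`Act` is
vacuous; `IsCoprime 1 m` is trivial). Otherwise `z ∉ L`, `emb a z ∉ L` (`Act`), both are in `E[m]`, so not in `E₁`. `xx z`, `yy z` are in `V`
(`int_x`, `int_yy`) and in `F` (generators of `TF L m`), so `xx(a z) = σ(xx z) ≡ xx z`, `yy(a z) ≡ yy z`, and (DIF)
`a z - z ∈ E₁`, so it is in `L`: `m ∣ a - 1` (`mul_div_mem_iff`). (ACT)(2). -/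
def Sw_INV : Prop :=
  ∀ (A B : ℤ) (L : PeriodPair) (Om : ℂ) (ξ : ℂ →+ (WC A B).Point), Case A B → IsCM A B L Om →
    IsXi A B L ξ → ∀ V : ValuationSubring ℂ, V.valuation 2 = 1 → ∀ m : OO A B, m ≠ 0 →
    (∀ z, emb m * z ∈ L.lattice → InE1 A B V L z → z ∈ L.lattice) →
    ∀ F : IntermediateField (kk A B) ℂ, TF L m ≤ F → ∀ σ : F ≃ₐ[kk A B] F,
      (∀ x : F, (x : ℂ) ∈ V → ((σ x : F) : ℂ) - (x : ℂ) ∈ V.nonunits) → Act L (_root_.Pool.Agent.MU3A.em σ) m 1

/-! ### Galois action on `Θ_a` -/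

/-- (XXM) membership in `XX`.

Uses Sa_ACT. PROOF. `Quotient.out (cls m x)` is congruent to `x` modulo `m`: (ACT)(2). -/
def Sw_XXM : Prop :=
  ∀ (A B : ℤ) (L : PeriodPair) (Om : ℂ), Case A B → IsCM A B L Om → ∀ m : OO A B, m ≠ 0 →
    ∀ (D : IntermediateField ℚ ℂ) (h : kk A B ≤ D) (τ : letI := algC h; D ≃ₐ[kk A B] D)
      (x : OO A B), cls m x ∈ XX L m h τ ↔
        ∃ σ : TF L m ≃ₐ[kk A B] TF L m, Act L (_root_.Pool.Agent.MU3A.em σ) m x ∧ Ext1 h τ σ

/-- (FIB) `XX` at a higher level is the full inverse image.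

Uses Sw_XXM, Sa_ACT, Sa_S5, Sa_NEG, Sa_NRM. PROOF. `F_m ≤ F_N` (`E[m] ⊆ E[N]`), both finite Galois over `k` (NRM). `→`: `σ` on `F_N` acts by `x`, extends `τ`;
its restriction to `F_m` (normal) is an automorphism `σ'`, `Act (em σ') m x` (ACT)(3), (8), and it still extends `τ` because
`D ≤ F_m`. Coprime: part of `Act`. `←`: `τ' ∈ Gal(F_m/k)` acts by `x` mod `m` and extends `τ`. (S5) for `F_N`: `σ` acts on `E[N]` by `x` or by
`-x`. If `-x`: the restriction `σ'` of `σ` to `F_m` acts by `-x`, `τ'` by `x`, against (NEG)(2) for `F_m` (`mz ∣ m`). So `σ` acts by `x`,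
`σ' = τ'` (ACT)(5), and `σ` extends `τ`. -/
def Sw_FIB : Prop :=
  ∀ (A B : ℤ) (L : PeriodPair) (Om : ℂ), Case A B → IsCM A B L Om → ∀ m N : OO A B, m ≠ 0 → N ≠ 0 →
    mz A B ∣ m → m ∣ N → ∀ (D : IntermediateField ℚ ℂ) (h : kk A B ≤ D), Sub D (TF L m) →
    ∀ (τ : letI := algC h; D ≃ₐ[kk A B] D) (x : OO A B),
      cls N x ∈ XX L N h τ ↔ IsCoprime x N ∧ cls m x ∈ XX L m h τ

/-- (XXG) `XX` and the group structure.

Uses Sw_XXM, Sa_ACT, Sa_NRM. PROOF. `F = F_m` is finite Galois over `k` with commutative group, so `D / k` is normal: for `σ ∈ Gal(F/k)`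
and `y ∈ D`, `σ y ∈ D` (the subfield `D` of `F`, as `IntermediateField (kk A B) F`, corresponds to a normal subgroup). (1) Hence
every `σ` extends some `τ`. (2) every `τ` extends to `F` (`F/k` normal: `AlgEquiv.liftNormal`, or
`AlgHom` lifting to an embedding of `F` in `ℂ`, with image `F`). (3) `Act`, (ACT)(1), (4): if `σ` acts by `b` and extends `τ'` then
`cls x ∈ XX τ → cls (b x) ∈ XX (τ' τ)`; conversely with `σ⁻¹`. (4) If `x` is in two sets `XX τ`, `XX τ'` then the automorphisms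
agree (ACT)(5), (1), so `τ = τ'` (`D ≤ F`). -/
def Sw_XXG : Prop :=
  ∀ (A B : ℤ) (L : PeriodPair) (Om : ℂ), Case A B → IsCM A B L Om → ∀ m : OO A B, m ≠ 0 →
    ∀ (D : IntermediateField ℚ ℂ) (h : kk A B ≤ D), Sub D (TF L m) → letI := algC h
    (∀ σ : TF L m ≃ₐ[kk A B] TF L m, ∃ τ : D ≃ₐ[kk A B] D, Ext1 h τ σ) ∧
    (∀ τ : D ≃ₐ[kk A B] D, ∃ (σ : TF L m ≃ₐ[kk A B] TF L m) (b : OO A B),
      Act L (_root_.Pool.Agent.MU3A.em σ) m b ∧ Ext1 h τ σ) ∧
    (∀ (σ : TF L m ≃ₐ[kk A B] TF L m) (b x : OO A B) (τ τ' : D ≃ₐ[kk A B] D),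
      Act L (_root_.Pool.Agent.MU3A.em σ) m b → Ext1 h τ' σ → (cls m x ∈ XX L m h τ ↔ cls m (b * x) ∈ XX L m h (τ' * τ))) ∧
    ∀ (x : OO A B) (τ τ' : D ≃ₐ[kk A B] D), cls m x ∈ XX L m h τ → cls m x ∈ XX L m h τ' → τ = τ'

/-- (THG) Galois action on the values of `Θ_a` at torsion points.

Uses Sa_NRM, Sa_GAL, Sa_ACT, St_TIN, Sa_EQN. PROOF. `N = m * a` (`a` as an element of `O`), `F' = TF L N`, finite Galois over `k`, contains `TF L m`; `H ⊆ E[N]`,
`z ∈ E[N]`. (i) Let `σ' : F' → ℂ` with `Act σ' N b'`. `ThetaH L H z = ∏_(p ∈ H) (xx z - xx p)` is in `F'` and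
`σ'(ThetaH L H z) = ∏ (xx(b'z) - xx(b'p))` (`Act`; `p ∉ L`). The set `H' = {b' p : p ∈ H}` is a half system for `a`: `a b' p ∈ L`; `b'` is
prime to `a`, so if `y ∈ E[a]` and `b' y ∈ L` then `y ∈ L` (`mem_of_coprime`): this gives injectivity of `p ↦ b' p`, `ne`, `inj`, `neg`; `surj`: for
`z₀ ∈ E[a]∖L` let `c b' ≡ 1` modulo `a`; `c z₀ ∈ E[a]∖L`, so `c z₀ ∓ p ∈ L` for some `p ∈ H`, and `z₀ ∓ b' p ∈ L`. By (TIN)
`σ'(ThetaH L H z) = ThetaH L H' (b' z) = ThetaH L H (b' z)`. (ii) `σ : TF L m → ℂ` with `Act σ m b` extends to `σ' : F' → ℂ` (`F'` algebraic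
over `TF L m`, `ℂ` algebraically closed; `IntermediateField` lifting, `IsAlgClosed.lift`), (GAL) `Act σ' N b'`, and `m ∣ b' - b` (ACT)(3), (1), (8), so
`b' z ≡ b z` modulo `L` and `ThetaH L H (b' z) = ThetaH L H (b z)` (TIN). (iii) membership in `TF L m`: for `σ' ∈ Gal(F'/TF L m)` we have
`b' ≡ 1` modulo `m`, so `σ'(ThetaH L H z) = ThetaH L H z`; fixed by the Galois group, so in `TF L m`. -/
def Sw_THG : Prop :=
  ∀ (A B : ℤ) (L : PeriodPair) (Om : ℂ), Case A B → IsCM A B L Om → ∀ m : OO A B, m ≠ 0 →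
    ∀ (a : ℤ) (H : Finset ℂ), a ≠ 0 → IsHalf L a H → ∀ z, emb m * z ∈ L.lattice → z ∉ L.lattice →
    ∃ hz : ThetaH L H z ∈ TF L m, ∀ (σ : TF L m →ₐ[kk A B] ℂ) (b : OO A B), Act L σ m b →
      σ ⟨ThetaH L H z, hz⟩ = ThetaH L H (emb b * z)

/-- (MEMC) `cc .. τ` is in `D`, it is `τ(cc .. 1)`, and it is not `0`.

Uses Sw_THG, Sw_XXG, Sw_XXM, Sa_NRM, Sa_ACT, St_TNZ, St_TIN. PROOF. `m` is not a unit, so `x u ∉ L` for `x` prime to `m`
(`u = Om/emb m`, `mul_div_mem_iff`). `XX τ` is finite (`O/m` is finite; or: it is the image of the finite group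
`Gal(F_m/k)`). `σ ∈ Gal(F_m/k)` acting by `b` and extending `τ'`: `σ(cc τ) = ∏_(x ∈ XX τ) Θ(b x u)` (THG) `= cc (τ' τ)` by (XXG)(3)
(`x ↦ b x` is a bijection of `XX τ` with `XX (τ' τ)`, and `Θ(b x u)` only depends on the class of `b x`: (TIN)). Therefore `cc τ` is fixed by the
automorphisms of `F_m / k` which are trivial on `D`, so in `D` (Galois theory, `D ≤ F_m`). `τ(cc 1)`: extend `τ` to `σ` (XXG)(2):
`τ(cc 1) = σ(cc 1) = cc τ`. Nonzero: `Θ(x u) = 0` iff `a x u ∈ L` (TNZ) iff `m ∣ a x`, impossible as `a` and `x` are prime to `m`. -/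
def Sw_MEMC : Prop :=
  ∀ (A B : ℤ) (L : PeriodPair) (Om : ℂ), Case A B → IsCM A B L Om → ∀ m : OO A B, m ≠ 0 →
    ¬ IsUnit m → ∀ (a : ℤ) (H : Finset ℂ), a ≠ 0 → IsCoprime (a : OO A B) m → IsHalf L a H →
    ∀ (D : IntermediateField ℚ ℂ) (h : kk A B ≤ D), Sub D (TF L m) → letI := algC h
    (∀ τ : D ≃ₐ[kk A B] D, cc L Om m H h τ ∈ D ∧ cc L Om m H h τ ≠ 0) ∧
    ∀ (τ : D ≃ₐ[kk A B] D) (h1 : cc L Om m H h 1 ∈ D),
      ((τ ⟨cc L Om m H h 1, h1⟩ : D) : ℂ) = cc L Om m H h τ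

/-- (SUC) `c = cc .. 1` is a unit outside `S`.

Uses Sv_EXT, Sw_THU, Sw_TORV, Sa_XI. PROOF. `w` a prime of `D` not above `S`; extend it to `V` (EXT, `φ` the inclusion). `V.valuation p = 1` for
`p ∈ S` (`p ∉ w`). `v a = 1`: let `p` be the prime number in `w`; if `v a < 1` then `p ∣ a` (otherwise `x p + y a = 1`), so `p ∈ S`,
contradiction; in the same way `v (nm m) = 1`. Every factor of `c` is `Θ(x u)`, `x` prime to `m`; `a x u ∉ L` (`m ∤ a x`) is in
`E[m]`, so not in `E₁` (TORV), and `v(Θ(x u)) = 1` (THU)(1). -/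
def Sw_SUC : Prop :=
  ∀ (A B : ℤ) (L : PeriodPair) (Om : ℂ), Case A B → IsCM A B L Om → ∀ m : OO A B, m ≠ 0 →
    ¬ IsUnit m → ∀ (a : ℤ) (H : Finset ℂ), a ≠ 0 → IsCoprime (a : OO A B) m → IsHalf L a H →
    ∀ S : Finset ℕ, 2 ∈ S → (∀ p : ℕ, p.Prime → (p : ℤ) ∣ a → p ∈ S) →
    (∀ p : ℕ, p.Prime → (p : ℤ) ∣ nm m → p ∈ S) →
    ∀ (D : IntermediateField ℚ ℂ) [FiniteDimensional ℚ D] (h : kk A B ≤ D) (c : D),
      (c : ℂ) = cc L Om m H h (letI := algC h; (1 : D ≃ₐ[kk A B] D)) → Pool.Agent.MU3.SU S D c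

/-- (DISI) distribution relation over `E[b]`, with constant in `k`.

Uses St_TDI, Sw_THG, Sa_NRM, Sa_ACT, Sa_PID. PROOF. `R = {emb (out t) Om/emb b : t ∈ O/b, t ≠ 0}` (finite: `O/b` is finite) is
`IsReps L (emb b) R` (`torsion_iff`, `mul_div_mem_iff`). If `a z ∈ L` and `b z ∈ L` then `z ∈ L` (`mem_of_coprime`). (TDI):
`Θ(z) ∏_(r ∈ R) Θ(z + r) = C Θ(b z)`, `C = b^(2|H|) ∏_(r ∈ R) Θ(r) ≠ 0`. The term `t = 0` of the product over `O/b` is `Θ(z)` (`b ∣ out 0`, periodicity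
(TIN)). `C ∈ k`: the automorphisms `σ` of `TF L b / k` (finite Galois, NRM) act on `E[b]` by some `c` prime to `b` (GAL) and
`σ(∏_(r ∈ R) Θ(r)) = ∏ Θ(c r)` (THG) is the same product (multiplication by `c` permutes the nonzero classes). -/
def Sw_DISI : Prop :=
  ∀ (A B : ℤ) (L : PeriodPair) (Om : ℂ), Case A B → IsCM A B L Om → ∀ b : OO A B, b ≠ 0 →
    ∀ (a : ℤ) (H : Finset ℂ), a ≠ 0 → IsCoprime (a : OO A B) b → IsHalf L a H →
    ∃ C ∈ kk A B, C ≠ 0 ∧ ∀ z, emb b * a * z ∉ L.lattice →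
      ∏ᶠ t : OO A B ⧸ Ideal.span {b}, ThetaH L H (z + emb (Quotient.out t) * (Om / emb b)) =
        C * ThetaH L H (emb b * z)

/-- (I1) the norm relation.

Uses Sw_FIB, Sw_XXM, Sw_XXG, Sw_DISI, Sa_ACT, Sa_NRM, St_TIN. PROOF. `m' = 3 m`, `F' = TF L m'`. (i) `XX L m' h 1` (for `D`) is the disjoint union of the three sets
`XX L m' h' (σ^j)`, `j = 0, 1, 2` (for `D'`): an automorphism `s` of `F'/k` trivial on `D` restricts to an automorphism of `D'/k` (XXG)(1) trivial on `D`, which is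
a power of `σ` (Galois correspondence: the fixed field of the group generated by `σ` is `D`); the converse is clear; disjoint (XXG)(4). So the product
on the left is `∏_(x ∈ XX L m' h 1) Θ(x Om/m')`. (ii) By (FIB) `XX L m' h 1` is the inverse image of `XX L m h 1` in `O/m'` (`3 ∣ m`: a number
prime to `m` is prime to `m'`). The fibre over `y` consists of the classes of `y + m t`, `t ∈ O/3`, and `(y + m t) Om/m' = y Om/m' + t Om/3`. (iii) (DISI) with `b = 3`,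
`z = y Om/m'` (`3 a z = a y Om/m ∉ L`): the product over the fibre is `C₃ Θ(y Om/m)`. So `C = C₃^(|XX L m h 1|)`. -/
def Sw_I1 : Prop :=
  ∀ (A B : ℤ) (L : PeriodPair) (Om : ℂ), Case A B → IsCM A B L Om → ∀ m : OO A B, m ≠ 0 →
    mz A B ∣ m → 3 ∣ m → ∀ (a : ℤ) (H : Finset ℂ), a ≠ 0 → IsCoprime (a : OO A B) m → IsHalf L a H →
    ∀ (D D' : IntermediateField ℚ ℂ) (h : kk A B ≤ D) (h' : kk A B ≤ D'), D ≤ D' →
    Sub D (TF L m) → Sub D' (TF L (3 * m)) → letI := algC h; letI := algC h'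
    ∀ σ : D' ≃ₐ[kk A B] D', (∀ x : D', σ x = x ↔ (x : ℂ) ∈ D) → orderOf σ = 3 →
      ∃ C ∈ kk A B, C ≠ 0 ∧
        cc L Om (3 * m) H h' 1 * cc L Om (3 * m) H h' σ * cc L Om (3 * m) H h' (σ * σ) =
          C * cc L Om m H h 1

/-! ### Primes -/

/-- (LOC) congruences modulo a prime `w` and modulo a valuation ring `V` extending it.

PROOF. `x : F` with `x ∈ V`, i.e. `w.valuation F x ≤ 1`: there are `s, t : 𝓞 F`, `t ∉ w`, `x = s/t` (Mathlib:
`IsDedekindDomain.HeightOneSpectrum.valuation` and the localization at `w`; for instance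
`exists_integer_and_notMem...` or `IsLocalization.AtPrime`; or: the fractional ideal argument / approximation). Then
`σ x = σ s/σ t`, `σ t ≡ t^q` resp. `t` is not in `w`, so it is a unit of `V`, and `σ x - x^q = (σ s t^q - s^q σ t)/(σ t t^q)` is in the maximal
ideal. Same with `1` in place of `q`. -/
def Sw_LOC : Prop :=
  ∀ (A B : ℤ) (F : IntermediateField (kk A B) ℂ) [NumberField F] (w : HeightOneSpectrum (𝓞 F))
    (V : ValuationSubring ℂ), (∀ x : F, ((x : ℂ) ∈ V ↔ w.valuation F x ≤ 1) ∧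
      (V.valuation (x : ℂ) < 1 ↔ w.valuation F x < 1)) →
    ∀ (σ : F ≃ₐ[kk A B] F) (q : ℕ), 0 < q →
      (∀ x : 𝓞 F, ∃ y ∈ w.asIdeal, (y : F) = σ x - (x : F) ^ q) →
      ∀ x : F, (x : ℂ) ∈ V → V.valuation (((σ x : F) : ℂ) - (x : ℂ) ^ q) < 1

/-- (HTOT) total ramification of `F_(m lam) / F_m` at the primes above `lam`.

Uses Sv_EXT, Sv_TRA, Sw_INV, Sw_TORV, Sw_LOC, Sa_XI, Sa_ACT, Sa_GAL, Sa_NRM, Sa_INT, Sa_PID, Sv_DEG1. PROOF. `F = TF L (m lam)`, finite Galois over `k`, commutative group. `w` is not zero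
(`emb lam ∈ w`). `V` extends `w` (EXT). `v 2 = 1`, `v (nm m) = 1` (not in `w`). (a) `u = Om/emb lam`: `v(tz u)^(q-1) = v(emb lam)` (TRA), `tz u ∈ F`, so
`w.valuation F (tz u)^(q-1) = w.valuation F (emb lam)`: (the two valuations are equivalent on `F`; `v x = 1 ↔ w x = 1` for `x = (tz u)^(q-1)/emb lam`). Hence
`q - 1` divides the exponent of `w` in `emb lam 𝓞 F`, which is positive. (b) `w ∩ 𝓞 k` is the maximal ideal generated by `emb lam` (INT, PID: `lam` is prime; it contains `emb lam`), so that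
exponent is the ramification index `e` of `w` over `𝓞 k` (`Ideal.ramificationIdx_spec`, or
`IsDedekindDomain.ramificationIdx_eq_factors_count`; the exponent of `w` in `(w ∩ 𝓞 k) 𝓞 F`). (c) the inertia group `I` of `w` in `Gal(F/k)` has `e`
elements (`Ideal.card_inertia_eq_ramificationIdxIn`), so `q - 1 ≤ |I|`. Every `σ ∈ I` acts trivially on `E[m]` (LOC with `q = 1`, INV, TORV). (d) `A = {σ : Act L (em σ) m 1}` is a subgroup
with at most `q - 1` elements: `σ ∈ A` acts on `E[m lam]` by some `a`, and its class modulo `lam`, in `(O/lam)ˣ`, which has `q - 1` elements (DEG1), determines `σ`: if `a ≡ a'` modulo `lam`,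
then modulo `m lam` (`a ≡ 1 ≡ a'` modulo `m`, and `m`, `lam` are coprime because `q ∤ nm m`), (ACT)(2), (5). So `I = A` and every `σ ∈ A` is in the inertia group. -/
def Sw_HTOT : Prop :=
  ∀ (A B : ℤ) (L : PeriodPair) (Om : ℂ), Case A B → IsCM A B L Om → ∀ m : OO A B, m ≠ 0 →
    ∀ (lam : OO A B) (q : ℕ), q.Prime → nm lam = q →
    ∀ w : Ideal (𝓞 (TF L (m * lam))), w.IsPrime → Abv w lam →
      (2 : 𝓞 (TF L (m * lam))) ∉ w → ((nm m : ℤ) : 𝓞 (TF L (m * lam))) ∉ w →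
    ∀ σ : TF L (m * lam) ≃ₐ[kk A B] TF L (m * lam), Act L (_root_.Pool.Agent.MU3A.em σ) m 1 →
      ∀ x : 𝓞 (TF L (m * lam)), ∃ y ∈ w, (y : TF L (m * lam)) = σ x - x

/-- (FROB) = `Sa_FROB` of `StA2.lean`.

Uses Sv_R5, Sv_EXT, Sw_LOC, Sw_TORV, Sa_GAL, Sa_ACT, Sa_XI, Sa_PID. PROOF. `n = 2310 = 2·3·5·7·11`. `w ≠ ⊥`. `V` extends `w` (EXT). `v q < 1` (`lam ∣ q`, `q = lam * conj lam`), so `v s = 1` for every integer `s` not
divisible by `q` (`x s + y q = 1`); in particular for `2, 3, 5, 7, 11, nm m`. (GAL): `Act (em σ) m a`. If `m` is a unit: (ACT)(2) (or vacuous). Otherwise `u = Om/emb m ∉ L`,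
`lam` is prime to `m` (`q ∤ nm m`), so `lam u ∉ L`, `a u ∉ L`; all these points are in `E[m]`, so not in `E₁` (TORV). `xx u ∈ F ∩ V`, so by (LOC)
`xx(a u) = σ(xx u) ≡ (xx u)^q ≡ xx(lam u)` (R5). By `v_xx_sub` one of `a u + lam u`, `a u - lam u` is in `E₁`, so in `L` (TORV): `m ∣ a ± lam` (`mul_div_mem_iff`). (ACT)(2). -/
def Sw_FROB : Prop := Sa_FROB

/-- (PRL) the primes of degree one of `k`.

Uses Sa_INT, Sa_PID. PROOF. The ring isomorphism `𝓞 k ≅ O` (INT) carries `P` to a nonzero prime ideal, generated by a prime `lam` (PID). `𝓞 k ⧸ P` has `q` elements, a prime number; so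
`q ∈ P`, `lam ∣ q`, `nm lam ∣ q²`, so `nm lam = q` or `lam = ± q` (PID); in the second case `𝓞 k ⧸ P` has `q²` elements. -/
def Sw_PRL : Prop :=
  ∀ A B : ℤ, Case A B → ∀ P : Ideal (𝓞 (kk A B)), P.IsPrime → ∀ q : ℕ, q.Prime →
    Nat.card (𝓞 (kk A B) ⧸ P) = q →
    ∃ lam : OO A B, nm lam = q ∧ ∀ (x : 𝓞 (kk A B)) (y : OO A B), ((x : kk A B) : ℂ) = emb y →
      (x ∈ P ↔ lam ∣ y)

/-- (FRD) a good prime of `D` gives an element of `XX .. 1`.

Uses Sw_PRL, Sw_XXM, Sw_XXG, Sa_FROB, Sa_NRM, Sa_INT, Sa_PID. PROOF. `v = lam₀`, `P = v ∩ 𝓞 k`; `𝓞 k ⧸ P` embeds in `𝓞 D ⧸ v`, a field with `q` elements (`q` prime), so it has `q` elements; (PRL) gives `lam`. Let `F = F_m`, `w` a prime of `𝓞 F`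
above `v` (`D ≤ F`; lying over), `σ ∈ Gal(F/k)` an arithmetic Frobenius at `w` (Mathlib `RingTheory/Frobenius.lean`,
`IsArithFrobAt.exists_of_isInvariant`, or (FEX) of `StA2.lean` and conjugation: all primes of `F` above `P` are conjugate and the group is commutative): `σ x - x^q ∈ w`. (FROB) (`q ∤ n`, `q ∤ nm m`): `σ` acts by `± lam`. `σ` extends some
`τ` of `D` (XXG)(1). `τ` maps `v` into itself: for `x ∈ v`, `τ x ≡ x^q ≡ 0` modulo `w`, `w ∩ 𝓞 D = v`. So `τ • v = v` (both maximal) and `τ = 1` (`GoodPr.free`). -/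
def Sw_FRD : Prop :=
  ∀ (A B : ℤ) (L : PeriodPair) (Om : ℂ), Case A B → IsCM A B L Om → ∃ n : ℕ, n ≠ 0 ∧
    ∀ m : OO A B, m ≠ 0 → ∀ (D : IntermediateField ℚ ℂ) [FiniteDimensional ℚ D]
      (h : kk A B ≤ D), Sub D (TF L m) → letI := algC h
    ∀ (S : Finset ℕ) (v : HeightOneSpectrum (𝓞 D)) (q : ℕ), Pool.Agent.MU3.GoodPr (kk A B) D S v q →
      ¬ q ∣ n → ¬ (q : ℤ) ∣ nm m →
      ∃ lam : OO A B, nm lam = q ∧ (cls m lam ∈ XX L m h 1 ∨ cls m (-lam) ∈ XX L m h 1) ∧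
        ∀ (x : 𝓞 (kk A B)) (y : OO A B), ((x : kk A B) : ℂ) = emb y →
          (x ∈ v.asIdeal.under (𝓞 (kk A B)) ↔ lam ∣ y)

end

end Pool.Agent.MU3V


end

section

/-!
# MU3, block V: the homomorphism `Gal(F_N / k) → (O/N)ˣ` (helper59)
-/

set_option autoImplicit false

open WeierstrassCurve Polynomial NumberField IsDedekindDomain

namespace Pool.Agent.MU3V

open _root_.MU3 _root_.Pool.Agent.MU3A _root_.Pool.Agent.MU3B _root_.Pool.Agent.MU3C _root_.Pool.Agent.RI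

noncomputable section

variable {A B : ℤ}

lemma cls_eq_iff {m x y : OO A B} : cls m x = cls m y ↔ m ∣ x - y := by
  unfold cls
  rw [Ideal.Quotient.eq, Ideal.mem_span_singleton]

lemma cls_mul (m x y : OO A B) : cls m (x * y) = cls m x * cls m y := by
  unfold cls; exact map_mul _ _ _

lemma cls_one (m : OO A B) : cls m 1 = 1 := by
  unfold cls; exact map_one _

lemma cls_out {m : OO A B} (x : OO A B ⧸ Ideal.span {m}) : cls m (Quotient.out x) = x := by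
  unfold cls; exact Quotient.out_eq x

lemma act_iff (hACT : Sa_ACT) (h : Case A B) {L : PeriodPair} {Om : ℂ} (hL : IsCM A B L Om)
    {m : OO A B} (hm : m ≠ 0) {F : IntermediateField (kk A B) ℂ} (hF : TF L m ≤ F)
    {σ : F →ₐ[kk A B] ℂ} {a : OO A B} (ha : Act L σ m a) (x : OO A B) :
    Act L σ m x ↔ cls m a = cls m x := by
  obtain ⟨h1, h2, -⟩ := hACT A B L Om h hL m hm
  rw [cls_eq_iff]
  exact ⟨fun hx => h1 F σ a x hF ha hx, fun hd => h2 F σ a x hd ha⟩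

/-- the homomorphism `Gal(F_N / k) → (O/N)ˣ` -/
theorem rho_exists (hACT : Sa_ACT) (hGAL : Sa_GAL) (h : Case A B) {L : PeriodPair} {Om : ℂ}
    (hL : IsCM A B L Om) {N : OO A B} (hN : N ≠ 0) :
    ∃ ρ : (TF L N ≃ₐ[kk A B] TF L N) →* (OO A B ⧸ Ideal.span {N})ˣ, Function.Injective ρ ∧
      ∀ (σ : TF L N ≃ₐ[kk A B] TF L N) (x : OO A B), Act L (_root_.Pool.Agent.MU3A.em σ) N x ↔
        ((ρ σ : (OO A B ⧸ Ideal.span {N})ˣ) : OO A B ⧸ Ideal.span {N}) = cls N x := by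
  have hb : ∀ σ : TF L N ≃ₐ[kk A B] TF L N, ∃ a, Act L (_root_.Pool.Agent.MU3A.em σ) N a := fun σ =>
    hGAL A B L Om h hL N hN (TF L N) le_rfl (_root_.Pool.Agent.MU3A.em σ)
  choose b hb using hb
  obtain ⟨-, -, -, h4, h5, -, h7, -⟩ := hACT A B L Om h hL N hN
  have key : ∀ (σ : TF L N ≃ₐ[kk A B] TF L N) (x : OO A B),
      Act L (_root_.Pool.Agent.MU3A.em σ) N x ↔ cls N (b σ) = cls N x := fun σ x => act_iff hACT h hL hN le_rfl (hb σ) x
  let f : (TF L N ≃ₐ[kk A B] TF L N) →* (OO A B ⧸ Ideal.span {N}) :=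
    { toFun := fun σ => cls N (b σ)
      map_one' := by
        rw [← cls_one N]
        exact (key 1 1).1 (h7 _ le_rfl)
      map_mul' := fun σ τ => by
        rw [← cls_mul]
        exact (key (σ * τ) _).1 (h4 _ σ τ _ _ le_rfl (hb σ) (hb τ)) }
  refine ⟨MonoidHom.toHomUnits f, ?_, ?_⟩
  · intro σ τ e
    have e1 : cls N (b σ) = cls N (b τ) := congrArg Units.val e
    have e2 : Act L (_root_.Pool.Agent.MU3A.em τ) N (b σ) := (key τ _).2 e1.symm
    have e3 := h5 (_root_.Pool.Agent.MU3A.em σ) (_root_.Pool.Agent.MU3A.em τ) (b σ) (hb σ) e2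
    apply AlgEquiv.ext
    intro x
    have := congrArg (fun g : TF L N →ₐ[kk A B] ℂ => g x) e3
    exact Subtype.ext this
  · intro σ x
    rw [key σ x]
    rfl

end

end Pool.Agent.MU3V


end

section

/-!
# MU3, block V: `Gal(F_(m lam) / D) ≃ XX(m) × (O/lam)ˣ` (helper59)
-/

set_option autoImplicit false

open WeierstrassCurve Polynomial NumberField IsDedekindDomain

namespace Pool.Agent.MU3V

open _root_.MU3 _root_.Pool.Agent.MU3A _root_.Pool.Agent.MU3B _root_.Pool.Agent.MU3C _root_.Pool.Agent.RI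

noncomputable section

variable {A B : ℤ}

/-- the automorphisms of `F / k` trivial on `D` -/
def GD {D : IntermediateField ℚ ℂ} (h : kk A B ≤ D) (F : IntermediateField (kk A B) ℂ) :
    Subgroup (F ≃ₐ[kk A B] F) where
  carrier := {σ | ∀ (y : ℂ) (_ : y ∈ D) (hy : y ∈ F), σ ⟨y, hy⟩ = ⟨y, hy⟩}
  mul_mem' := fun {σ τ} hσ hτ y hD hy => by
    rw [AlgEquiv.mul_apply, hτ y hD hy, hσ y hD hy]
  one_mem' := fun y _ hy => rfl
  inv_mem' := fun {σ} hσ y hD hy => by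
    have h1 := congrArg (σ⁻¹ : F ≃ₐ[kk A B] F) (hσ y hD hy)
    rw [← AlgEquiv.mul_apply, inv_mul_cancel, AlgEquiv.one_apply] at h1
    exact h1.symm

lemma mem_GD {D : IntermediateField ℚ ℂ} (h : kk A B ≤ D) {F : IntermediateField (kk A B) ℂ}
    (σ : F ≃ₐ[kk A B] F) :
    σ ∈ GD h F ↔ Ext1 h (letI := algC h; (1 : D ≃ₐ[kk A B] D)) σ := by
  constructor
  · intro hσ y hy
    exact congrArg Subtype.val (hσ y y.2 hy)
  · intro hσ y hD hy
    exact Subtype.ext (hσ ⟨y, hD⟩ hy)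

/-- reduction `O/N → O/m` -/
def rd {m N : OO A B} (hmN : m ∣ N) :
    (OO A B ⧸ Ideal.span {N}) →+* (OO A B ⧸ Ideal.span {m}) :=
  Ideal.Quotient.factor (Ideal.span_singleton_le_span_singleton.2 hmN)

lemma rd_cls {m N : OO A B} (hmN : m ∣ N) (x : OO A B) : rd hmN (cls N x) = cls m x := rfl

lemma isUnit_cls {m x : OO A B} (hx : IsCoprime x m) : IsUnit (cls m x) := by
  obtain ⟨u, v, e⟩ := hx
  refine IsUnit.of_mul_eq_one (cls m u) ?_
  rw [← cls_mul, ← cls_one m, cls_eq_iff]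
  exact ⟨-v, by linear_combination e⟩

lemma coprime_of_isUnit {m x : OO A B} (hx : IsUnit (cls m x)) : IsCoprime x m := by
  obtain ⟨y, hy⟩ := hx.exists_right_inv
  rw [← cls_out y, ← cls_mul, ← cls_one m, cls_eq_iff] at hy
  obtain ⟨c, hc⟩ := hy
  exact ⟨Quotient.out y, -c, by linear_combination hc⟩

section
variable (hACT : Sa_ACT) (hXXM : Sw_XXM) (hFIB : Sw_FIB)
  (h : Case A B) {L : PeriodPair} {Om : ℂ} (hL : IsCM A B L Om) {m lam : OO A B} (hm : m ≠ 0)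
  (hlam : lam ≠ 0) (hmz : mz A B ∣ m) (hcop : IsCoprime m lam)
  {D : IntermediateField ℚ ℂ} (hk : kk A B ≤ D) (hD : Sub D (TF L m))
  {ρ : (TF L (m * lam) ≃ₐ[kk A B] TF L (m * lam)) →* (OO A B ⧸ Ideal.span {m * lam})ˣ}
  (hρi : Function.Injective ρ)
  (hρ : ∀ (σ : TF L (m * lam) ≃ₐ[kk A B] TF L (m * lam)) (x : OO A B), Act L (_root_.Pool.Agent.MU3A.em σ) (m * lam) x ↔
        ((ρ σ : (OO A B ⧸ Ideal.span {m * lam})ˣ) : OO A B ⧸ Ideal.span {m * lam}) =
          cls (m * lam) x)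

include hXXM hFIB h hL hm hlam hmz hD hρ in
/-- the image of `Gal(F_N / D)` -/
lemma mem_iff_XX [IsDomain (OO A B)] (x : OO A B) :
    (∃ σ ∈ GD hk (TF L (m * lam)), ((ρ σ : (OO A B ⧸ Ideal.span {m * lam})ˣ) :
      OO A B ⧸ Ideal.span {m * lam}) = cls (m * lam) x) ↔
    IsCoprime x (m * lam) ∧ cls m x ∈ XX L m hk (letI := algC hk; (1 : D ≃ₐ[kk A B] D)) := by
  have hN : m * lam ≠ 0 := mul_ne_zero hm hlam
  rw [← hFIB A B L Om h hL m (m * lam) hm hN hmz (dvd_mul_right _ _) D hk hD,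
    hXXM A B L Om h hL (m * lam) hN D hk]
  constructor
  · rintro ⟨σ, h1, h2⟩
    exact ⟨σ, (hρ σ x).2 h2, (mem_GD hk σ).1 h1⟩
  · rintro ⟨σ, h1, h2⟩
    exact ⟨σ, (mem_GD hk σ).2 h2, (hρ σ x).1 h1⟩

include hcop in
lemma dvd_mul_of {x : OO A B} (h1 : m ∣ x) (h2 : lam ∣ x) : m * lam ∣ x := hcop.mul_dvd h1 h2

/-- the map `Gal(F_N / D) → XX(m) × (O/lam)ˣ` -/
def EE2 (hmem : ∀ σ ∈ GD hk (TF L (m * lam)), rd (dvd_mul_right m lam)
      ((ρ σ : (OO A B ⧸ Ideal.span {m * lam})ˣ) : OO A B ⧸ Ideal.span {m * lam}) ∈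
        XX L m hk (letI := algC hk; (1 : D ≃ₐ[kk A B] D)))
    (σ : GD hk (TF L (m * lam))) :
    XX L m hk (letI := algC hk; (1 : D ≃ₐ[kk A B] D)) × (OO A B ⧸ Ideal.span {lam})ˣ :=
  (⟨rd (dvd_mul_right m lam) ((ρ σ.1 : (OO A B ⧸ Ideal.span {m * lam})ˣ) :
      OO A B ⧸ Ideal.span {m * lam}), hmem σ.1 σ.2⟩,
    Units.map (rd (dvd_mul_left lam m) : (OO A B ⧸ Ideal.span {m * lam}) →*
      (OO A B ⧸ Ideal.span {lam})) (ρ σ.1))

include hXXM hFIB h hL hm hlam hmz hD hρ in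
lemma EE2_mem [IsDomain (OO A B)] : ∀ σ ∈ GD hk (TF L (m * lam)), rd (dvd_mul_right m lam)
      ((ρ σ : (OO A B ⧸ Ideal.span {m * lam})ˣ) : OO A B ⧸ Ideal.span {m * lam}) ∈
        XX L m hk (letI := algC hk; (1 : D ≃ₐ[kk A B] D)) := by
  intro σ hσ
  obtain ⟨x, hx⟩ : ∃ x, ((ρ σ : (OO A B ⧸ Ideal.span {m * lam})ˣ) :
      OO A B ⧸ Ideal.span {m * lam}) = cls (m * lam) x := ⟨_, (cls_out _).symm⟩
  rw [hx, rd_cls]
  exact ((mem_iff_XX hXXM hFIB h hL hm hlam hmz hk hD hρ x).1 ⟨σ, hσ, hx⟩).2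

include hXXM hFIB h hL hm hlam hmz hD hρ hcop hρi in
lemma EE2_bij [IsDomain (OO A B)] (hmem : ∀ σ ∈ GD hk (TF L (m * lam)), rd (dvd_mul_right m lam)
      ((ρ σ : (OO A B ⧸ Ideal.span {m * lam})ˣ) : OO A B ⧸ Ideal.span {m * lam}) ∈
        XX L m hk (letI := algC hk; (1 : D ≃ₐ[kk A B] D))) :
    Function.Bijective (EE2 (L := L) hk (ρ := ρ) hmem) := by
  constructor
  · rintro ⟨σ, hσ⟩ ⟨τ, hτ⟩ e
    obtain ⟨x, hx⟩ : ∃ x, ((ρ σ : (OO A B ⧸ Ideal.span {m * lam})ˣ) :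
      OO A B ⧸ Ideal.span {m * lam}) = cls (m * lam) x := ⟨_, (cls_out _).symm⟩
    obtain ⟨y, hy⟩ : ∃ x, ((ρ τ : (OO A B ⧸ Ideal.span {m * lam})ˣ) :
      OO A B ⧸ Ideal.span {m * lam}) = cls (m * lam) x := ⟨_, (cls_out _).symm⟩
    have e1 := congrArg (fun p => (p.1 : OO A B ⧸ Ideal.span {m})) e
    have e2 := congrArg (fun p => ((p.2 : (OO A B ⧸ Ideal.span {lam})ˣ) :
      OO A B ⧸ Ideal.span {lam})) e
    simp only [EE2, Units.coe_map] at e1 e2
    rw [hx, hy] at e1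
    change rd (dvd_mul_left lam m) _ = rd (dvd_mul_left lam m) _ at e2
    rw [hx, hy] at e2
    rw [rd_cls, rd_cls, cls_eq_iff] at e1 e2
    have e3 : ρ σ = ρ τ := by
      apply Units.ext
      rw [hx, hy, cls_eq_iff]
      exact dvd_mul_of hcop e1 e2
    have := hρi e3
    exact Subtype.ext this
  · rintro ⟨⟨y, hy⟩, r⟩
    obtain ⟨y0, rfl⟩ : ∃ y0, y = cls m y0 := ⟨_, (cls_out _).symm⟩
    obtain ⟨r0, hr⟩ : ∃ r0, (r : OO A B ⧸ Ideal.span {lam}) = cls lam r0 :=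
      ⟨_, (cls_out _).symm⟩
    obtain ⟨u, v, e⟩ := id hcop
    set x := r0 * (u * m) + y0 * (v * lam) with hx
    have h1 : m ∣ x - y0 := ⟨u * (r0 - y0), by rw [hx]; linear_combination y0 * e⟩
    have h2 : lam ∣ x - r0 := ⟨v * (y0 - r0), by rw [hx]; linear_combination r0 * e⟩
    have hy0 : IsCoprime y0 m := by
      obtain ⟨σ, hσ, -⟩ := (hXXM A B L Om h hL m hm D hk _ _).1 hy
      exact hσ.1
    have c1 : IsCoprime x m := by
      apply coprime_of_isUnit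
      rw [(cls_eq_iff).2 h1]
      exact isUnit_cls hy0
    have c2 : IsCoprime x lam := by
      apply coprime_of_isUnit
      rw [(cls_eq_iff).2 h2, ← hr]
      exact r.isUnit
    obtain ⟨σ, hσ, hσx⟩ := (mem_iff_XX hXXM hFIB h hL hm hlam hmz hk hD hρ x).2
      ⟨c1.mul_right c2, by rwa [(cls_eq_iff).2 h1]⟩
    refine ⟨⟨σ, hσ⟩, Prod.ext (Subtype.ext ?_) (Units.ext ?_)⟩
    · show rd (dvd_mul_right m lam) _ = _
      rw [hσx, rd_cls]
      exact (cls_eq_iff).2 h1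
    · show rd (dvd_mul_left lam m) _ = _
      rw [hσx, rd_cls, hr]
      exact (cls_eq_iff).2 h2

end

end

end Pool.Agent.MU3V


end

section

/-!
# MUX, block W: the elements `c`, the norm relation, the inputs of block K (helper59)

`k = kk A B`, any imaginary quadratic field (`CQ A B`), `TorX A B` = the main theorem of complex multiplication (contract with block XC). `L`, `Om`:
`IsNL ⊤ L Om`, the normalised lattice `L = Om O` (`L = R.L R.i0`). `m : OO A B`, `F_m = RF (sp m)` the ray class field, `H = RF ⊤` the Hilbert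
class field. `D` a field, `k ≤ D ≤ F_m` (`Sub D (RF (sp m))`), Galois group `D ≃ₐ[kk A B] D` for `algC h`. `Ext1 h τ σ`: `σ ∈ Gal(F_m/k)` extends `τ ∈ Gal(D/k)`.
`GD h F` = the automorphisms of `F/k` trivial on `D`. `θ ∈ F_m` with `θ = Θ_a(Om/m)`: `cW h θ = N_(F_m/D)(θ)`, `cWt h θ τ = τ(cW h θ)`.
Every `def Sy_X : Prop` is the statement of a module, which proves `theorem ty_X (h : ..) .. : Sy_X` in `Pool/Agent/MUX/W_X.lean`, namespace
`Pool.Agent.MUXW`. `cls m x` (MU3, `StV2.lean`) is the class of `x` in `O/m`.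
-/

set_option autoImplicit false

open WeierstrassCurve Polynomial NumberField IsDedekindDomain

namespace Pool.Agent.MUXW

open _root_.MU3 _root_.Pool.Agent.MU3A _root_.Pool.Agent.MU3B _root_.Pool.Agent.MU3C _root_.Pool.Agent.RI _root_.Pool.Agent.RID
open _root_.Pool.Agent.MUX _root_.Pool.Agent.MUXU
open _root_.Pool.Agent.MU3V (cls Sub GD)
open _root_.Pool.Agent.MUXV (GR InK tX CMO Ovr)

noncomputable section

/-! ### Definitions -/

/-- `σ` is trivial on `H` and acts on the points of level `m` of all normalised lattices as multiplication by `a` -/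
structure ActH {A B : ℤ} {F : IntermediateField (kk A B) ℂ} (σ : F ≃ₐ[kk A B] F)
    (m a : OO A B) : Prop where
  cop : IsCoprime a m
  kap : ∀ (b : Ideal (OO A B)) (L : PeriodPair) (om : ℂ), IsNL b L om → ∀ h : kap L ∈ F,
    ((σ ⟨kap L, h⟩ : F) : ℂ) = kap L
  pt : ∀ (b : Ideal (OO A B)) (L : PeriodPair) (om : ℂ), IsNL b L om → ∀ z : ℂ,
    emb m * z ∈ L.lattice → z ∉ L.lattice → emb a * z ∉ L.lattice ∧
      ∀ h : xn L z ∈ F, ((σ ⟨xn L z, h⟩ : F) : ℂ) = xn L (emb a * z)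

/-- `σ` is trivial on `H` -/
def TrH {A B : ℤ} {F : IntermediateField (kk A B) ℂ} (σ : F ≃ₐ[kk A B] F) : Prop :=
  ∀ x : F, (x : ℂ) ∈ (RF (⊤ : Ideal (OO A B)) : IntermediateField (kk A B) ℂ) → σ x = x

/-- `D` contains `H` -/
def HasH (A B : ℤ) (D : IntermediateField ℚ ℂ) : Prop :=
  ∀ x : ℂ, x ∈ (RF (⊤ : Ideal (OO A B)) : IntermediateField (kk A B) ℂ) → x ∈ D

/-- `∏ σ(θ)` over the `σ ∈ Gal(F/k)` which extend `τ` -/
def cWt {A B : ℤ} {F : IntermediateField (kk A B) ℂ} {D : IntermediateField ℚ ℂ}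
    (h : kk A B ≤ D) (θ : F) (τ : letI := algC h; D ≃ₐ[kk A B] D) : ℂ :=
  ∏ᶠ σ : {σ : F ≃ₐ[kk A B] F // Ext1 h τ σ}, ((σ.1 θ : F) : ℂ)

/-- `cW h θ = ∏ σ(θ)` over the `σ ∈ Gal(F/k)` trivial on `D`: the norm of `θ` to `D` -/
def cW {A B : ℤ} {F : IntermediateField (kk A B) ℂ} {D : IntermediateField ℚ ℂ}
    (h : kk A B ≤ D) (θ : F) : ℂ :=
  ∏ᶠ σ : GD h F, (((σ : F ≃ₐ[kk A B] F) θ : F) : ℂ)

/-- good reduction of the normalised lattice `L` at `V` -/
def GRn (V : ValuationSubring ℂ) (L : PeriodPair) : Prop :=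
  ∃ (W : WeierstrassCurve.Affine ℂ) (ξ : ℂ →+ W.Point),
    GR V W L (fun z => L.weierstrassP z - 1 / 12) (fun z => L.derivWeierstrassP z / 2) ξ

/-- `V` extends the prime `w` of `F` -/
def Exw {F : Type} [Field F] [NumberField F] (φ : F →+* ℂ) (w : HeightOneSpectrum (𝓞 F))
    (V : ValuationSubring ℂ) : Prop :=
  ∀ x : F, (φ x ∈ V ↔ w.valuation F x ≤ 1) ∧ (V.valuation (φ x) < 1 ↔ w.valuation F x < 1) ∧
    (V.valuation (φ x) = 1 ↔ w.valuation F x = 1)

/-! ### From `TorX` to `ActH` -/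

/-- (ACM) elementary properties of `ActH`.

Uses Sq_EMB, St_NEQ. PROOF. As `W_XXM.lean`, `A_ACT.lean` of MU3 (for `xx` only). (1) `z = Om/m`: `xn L (a z) = σ(xn L z) = xn L (a' z)`, both arguments not in `L`, so (`b_NEQ`) `(a ∓ a') z ∈ L`, `m ∣ a ∓ a'`
(`emb x * (Om/emb m) ∈ L` iff `m ∣ x`); if `m` is a unit: trivial. (2) `xn` is even and periodic, `emb a' * z ≡ ± emb a * z`. (3) `E[m'] ⊆ E[m]`. (4) `(σ τ)(xn L z) = σ(xn L (b z)) = xn L (a b z)`
(`b z ∈ E[m]`, `xn L (b z) ∈ RF (sp m) ≤ F`). (5) `RF (sp m)` is generated over `k` by the `kap L`, `xn L z`. (7) `RF ⊤` is generated by the `kap L` (a point of level `⊤` is in `L`), and `RF ⊤ ≤ RF (sp m) ≤ F`.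
(8) from the definitions (`RF (sp m') ≤ RF (sp m)`). -/
def Sy_ACM : Prop :=
  ∀ A B : ℤ, CQ A B → ∀ (L : PeriodPair) (Om : ℂ), IsNL (⊤ : Ideal (OO A B)) L Om →
    ∀ m : OO A B, m ≠ 0 →
    (∀ (F : IntermediateField (kk A B) ℂ) (σ : F ≃ₐ[kk A B] F) (a a' : OO A B), RF (sp m) ≤ F →
      ActH σ m a → ActH σ m a' → m ∣ a - a' ∨ m ∣ a + a') ∧
    (∀ (F : IntermediateField (kk A B) ℂ) (σ : F ≃ₐ[kk A B] F) (a a' : OO A B),
      m ∣ a - a' ∨ m ∣ a + a' → ActH σ m a → ActH σ m a') ∧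
    (∀ (F : IntermediateField (kk A B) ℂ) (σ : F ≃ₐ[kk A B] F) (m' a : OO A B), m' ∣ m →
      ActH σ m a → ActH σ m' a) ∧
    (∀ (F : IntermediateField (kk A B) ℂ) (σ τ : F ≃ₐ[kk A B] F) (a b : OO A B),
      RF (sp m) ≤ F → ActH σ m a → ActH τ m b → ActH (σ * τ) m (a * b)) ∧
    (∀ (σ τ : (RF (sp m) : IntermediateField (kk A B) ℂ) ≃ₐ[kk A B] RF (sp m)) (a : OO A B),
      ActH σ m a → ActH τ m a → σ = τ) ∧
    (∀ F : IntermediateField (kk A B) ℂ, ActH (1 : F ≃ₐ[kk A B] F) m 1) ∧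
    (∀ (F : IntermediateField (kk A B) ℂ) (σ : F ≃ₐ[kk A B] F) (a : OO A B), RF (sp m) ≤ F →
      ActH σ m a → TrH σ) ∧
    ∀ (m' : OO A B) (σ : (RF (sp m) : IntermediateField (kk A B) ℂ) ≃ₐ[kk A B] RF (sp m))
      (σ' : (RF (sp m') : IntermediateField (kk A B) ℂ) ≃ₐ[kk A B] RF (sp m')) (a : OO A B),
      m' ∣ m → (∀ (x : (RF (sp m') : IntermediateField (kk A B) ℂ))
        (hx : (x : ℂ) ∈ (RF (sp m) : IntermediateField (kk A B) ℂ)),
        ((σ ⟨x, hx⟩ : (RF (sp m) : IntermediateField (kk A B) ℂ)) : ℂ) = (σ' x : ℂ)) →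
      ActH σ m a → ActH σ' m' a

/-- (KER) the automorphisms of `F_m / H`.

Uses Su_DET, Sq_EMB. PROOF. `T : TorX A B`. First part: extend `σ` to `s ∈ Aut(ℂ)`, `FixK` (`T.ext` for the field `D = RF (sp m)` restricted to `ℚ`). `T.act (sp m) s`: an ideal `a`. `s` is trivial on `RF ⊤`; `ActI s ⊤ a L L' mu` (from level
`m`: `Tor ⊤ L z` means `z ∈ L`), so by `T.triv` for `⊤` `a = sp c`, `c` prime to `m`. For every normalised `L` there is `L'`, `mu` with `ActI s (sp m) (sp c) L L' mu`: `kap L' = s (kap L) = kap L`, so `g₂`, `g₃ = -g₂/18` agree and `L'` has the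
same lattice (DET). `mu z ∈ L` iff `c z ∈ L`: `u = mu/emb c` satisfies `u L = L`, so (homogeneity `Pool.Agent.MU3A.ta_SCP`) `g₂ = g₂/u⁴`, `g₃ = g₃/u⁶`, and `g₂ = -18 g₃ ≠ 0` (`b_DSC`): `u² = 1`, `mu = ± emb c`. So `σ(xn L z) = xn L (mu z) = xn L (c z)`.
Second part: `T.surj (sp m) (sp a)` gives `s`; `RF (sp m)` is normal over `k` (`T.gal`): `s` maps it onto itself, the restriction is `σ`. For every normalised `L` there are `L'`, `mu`, `IsQ (sp a) L L' mu`: `L' = (mu/a) L` is normalised as `L` is, so `(mu/a)² = 1`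
(`g₂' = g₂/u⁴`, `g₃' = g₃/u⁶`, both normalised: `u² = 1`), so `kap L' = kap L` and `mu = ± a`. -/
def Sy_KER : Prop :=
  ∀ A B : ℤ, CQ A B → TorX A B → ∀ m : OO A B, m ≠ 0 →
    (∀ σ : (RF (sp m) : IntermediateField (kk A B) ℂ) ≃ₐ[kk A B] RF (sp m), TrH σ →
      ∃ a : OO A B, ActH σ m a) ∧
    ∀ a : OO A B, IsCoprime a m →
      ∃ σ : (RF (sp m) : IntermediateField (kk A B) ℂ) ≃ₐ[kk A B] RF (sp m), ActH σ m a

/-- (THC) conjugation of the values of `Θ_a`.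

Uses Su_PHI, St_TIN, St_NEQ. PROOF. `Φ` from (PHI). `H'' = {Φ p : p ∈ H}` is a half system for `a` on `L'` (`Φ` is a bijective homomorphism `ℂ/L → ℂ/L'`: `Φ(n z) ≡ n Φ(z)` for integers, `Φ z ∈ L'` iff `z ∈ L`; for `surj` use
`IsPhi.surj`). `σ(ThetaH L H z) = ∏ (℘'(Φ z) - ℘'(Φ p)) = ThetaH L' H'' (Φ z)` (`p ∉ L`, `p ↦ Φ p` injective on `H`). `℘_(L')(Φ z) = σ(℘_L z) = ℘_(L')(z')`, so `Φ z ≡ ± z'` (NEQ) and by (TIN) this is `ThetaH L' H' z'`. -/
def Sy_THC : Prop :=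
  ∀ (σ : ℂ ≃+* ℂ) (L L' : PeriodPair), IsCj σ L L' → ∀ (a : ℤ) (H H' : Finset ℂ), a ≠ 0 →
    IsHalf L a H → IsHalf L' a H' → ∀ z z' : ℂ, z ∉ L.lattice → z' ∉ L'.lattice →
    L'.weierstrassP z' = σ (L.weierstrassP z) → σ (ThetaH L H z) = ThetaH L' H' z'

/-- (THG) the values of `Θ_a` at points of level `m` are in `F_m`; Galois action.

Uses THC, Su_AUE, Su_AUF, ACM. PROOF. `F = RF (sp m)` as a field over `ℚ` is algebraic (`T.fin`, `kk A B` is finite over `ℚ`). (i) If `s ∈ Aut(ℂ)` is trivial on `F` then `s(kap L) = kap L`, so `s g₂ = g₂`, `s g₃ = g₃` (`g₂ = (1 + 1728 kap)/12`, `g₃ = -g₂/18`), `IsCj s L L`,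
and `s(xn L z) = xn L z`: (THC) with `L' = L`, `z' = z` gives `s(Θ) = Θ`; (AUF): `Θ ∈ F`. (ii) `σ` extends to `s ∈ Aut(ℂ)` (AUE), `IsCj s L L'` from `s(kap L) = kap L'`, both normalised; (THC). (iii) is (ii) with `L' = L`, `z' = emb b * z`, `H' = H`. -/
def Sy_THG : Prop :=
  ∀ A B : ℤ, CQ A B → TorX A B → ∀ (b₀ : Ideal (OO A B)) (L : PeriodPair) (om : ℂ), IsNL b₀ L om →
    ∀ m : OO A B, m ≠ 0 → ∀ (a : ℤ) (H : Finset ℂ), a ≠ 0 → IsHalf L a H →
    ∀ z : ℂ, emb m * z ∈ L.lattice → z ∉ L.lattice →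
    ∃ (hk : kap L ∈ (RF (sp m) : IntermediateField (kk A B) ℂ))
      (hx : xn L z ∈ (RF (sp m) : IntermediateField (kk A B) ℂ))
      (hz : ThetaH L H z ∈ (RF (sp m) : IntermediateField (kk A B) ℂ)),
      (∀ (σ : (RF (sp m) : IntermediateField (kk A B) ℂ) ≃ₐ[kk A B] RF (sp m))
        (b' : Ideal (OO A B)) (L' : PeriodPair) (om' : ℂ) (H' : Finset ℂ) (z' : ℂ),
        IsNL b' L' om' → IsHalf L' a H' → z' ∉ L'.lattice →
        ((σ ⟨kap L, hk⟩ : (RF (sp m) : IntermediateField (kk A B) ℂ)) : ℂ) = kap L' →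
        ((σ ⟨xn L z, hx⟩ : (RF (sp m) : IntermediateField (kk A B) ℂ)) : ℂ) = xn L' z' →
        ((σ ⟨ThetaH L H z, hz⟩ : (RF (sp m) : IntermediateField (kk A B) ℂ)) : ℂ) =
          ThetaH L' H' z') ∧
      ∀ (σ : (RF (sp m) : IntermediateField (kk A B) ℂ) ≃ₐ[kk A B] RF (sp m)) (b : OO A B),
        ActH σ m b →
        ((σ ⟨ThetaH L H z, hz⟩ : (RF (sp m) : IntermediateField (kk A B) ℂ)) : ℂ) =
          ThetaH L H (emb b * z)

/-! ### Reduction -/

/-- (GRB) good reduction outside finitely many primes.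

Uses Sx_NGR, Sq_ALU. PROOF. `kap L ∈ RF ⊤`, algebraic (`T.fin ⊤`; `kk A B` is finite over `ℚ`). `12 g₂ = 1 + 1728 kap L`. `b_DSC`: `0 ≠ g₂³ - 27 g₃² = g₂³ - g₂²/12 = 144 kap g₂²`, so `kap L ≠ 0`, `g₂ ≠ 0`. (ALU) for `kap L` and `12 g₂`: `n₁`, `n₂`; `n = 6 n₁ n₂`. (NGR); `kp L = kap L`
by definition. -/
def Sy_GRB : Prop :=
  ∀ A B : ℤ, CQ A B → TorX A B → ∀ (b : Ideal (OO A B)) (L : PeriodPair) (om : ℂ), IsNL b L om →
    ∃ n : ℕ, n ≠ 0 ∧ ∀ V : ValuationSubring ℂ, V.valuation (n : ℂ) = 1 →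
      V.valuation 2 = 1 ∧ V.valuation 3 = 1 ∧ V.valuation (kap L) = 1 ∧
      V.valuation (12 * L.g₂) = 1 ∧ GRn V L

/-- (INV) an automorphism of `F ≥ F_m` which is trivial modulo `V` acts on `E[m]` as `± 1`, if `E[m]` meets the
kernel of reduction trivially.

Uses Sq_EMB, `VX.lean`. PROOF. If `m` is a unit: clear. `z = Om/m`: `z, a z ∉ L`, both in `E[m]`, so not in the kernel of reduction, `xn L z ∈ V ∩ F`, `xn L (a z) = σ(xn L z) ≡ xn L z`; so (`v_X_sub`) `a z + z` or `a z - z` is in the kernel of reduction, hence in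
`L`: `m ∣ a ± 1`. -/
def Sy_INV : Prop :=
  ∀ A B : ℤ, CQ A B → ∀ (L : PeriodPair) (Om : ℂ), IsNL (⊤ : Ideal (OO A B)) L Om →
    ∀ m : OO A B, m ≠ 0 → ∀ V : ValuationSubring ℂ, GRn V L →
    (∀ z, emb m * z ∈ L.lattice → InK V L (fun z => L.weierstrassP z - 1 / 12) z →
      z ∈ L.lattice) →
    ∀ (F : IntermediateField (kk A B) ℂ), RF (sp m) ≤ F → ∀ σ : F ≃ₐ[kk A B] F,
      (∀ x : F, (x : ℂ) ∈ V → V.valuation (((σ x : F) : ℂ) - (x : ℂ)) < 1) →
      ∀ a : OO A B, ActH σ m a → m ∣ a - 1 ∨ m ∣ a + 1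

/-- (FRH) Frobenius automorphisms which are trivial on `H`.

Uses Sq_FRX, Sq_VQI, Sq_ALU, Sq_TOR, Sq_EMB, GRB, KER, ACM, Su_DET, Sq_CYQ. PROOF. `R : Reps`, `ι` finite: every normalised lattice `L'` has `kap L' = kap (R.L i)` for some `i` (`L' = om b`, `x b = y b_i`, so `L'` is homothetic to `R.L i`, both are normalised: `u² = 1` as in KER).
`n₀` = the product of the numbers of GRB for the `R.L i`, of ALU for the nonzero differences `kap (R.L i) - kap (R.L j)`, and of `|B² + 4A|`. Let `L = Om O`, `z = Om/m` or any point of level `m`. `T.surj (sp m) Q` (`Q` is prime to `m`: `q ∤ nm m`) gives a normalised `M` and `mu` with `IsQ Q L M mu`.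
(FRX): `kap M ≡ (kap L)^q ≡ σ(kap L) = kap L`, so `kap M = kap L` (the difference is `0` or a unit at `V`), `M` has the lattice `L` (DET). `mu z ∈ L` iff `x z ∈ L` for all `x ∈ Q`; `z = Om/mu`: `x/mu ∈ emb O` for `x ∈ Q`, `z = Om`: `mu = emb lam`; so `Q ⊆ (lam)`,
and `(lam) ≠ O` since `Q⁻¹ L ≠ L` (CYQ); `Q` is maximal, so `Q = (lam)`, `nm lam = q` (`nm lam > 0`, `lam ∣ q`, `nm lam ∣ q²`, and `nm lam = q²` would make `q/lam` a unit). (KER): `ActH σ m a`. For `z = Om/m` (`m` not a unit; otherwise trivial): `xn L (a z) = σ(xn L z) ≡ (xn L z)^q ≡ xn L (lam z)`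
(FRX; `z` is not in the kernel of reduction: TOR, `q ∤ nm m`), so `a ≡ ± lam` modulo `m` (`v_X_sub`, TOR), (ACM)(2). -/
def Sy_FRH : Prop :=
  ∀ A B : ℤ, CQ A B → TorX A B → ∀ (n : ℕ) (ι : Type) [Finite ι] (_ : Reps A B n ι), ∃ n₀ : ℕ,
    n₀ ≠ 0 ∧ ∀ m : OO A B, m ≠ 0 → ∀ (Q : Ideal (OO A B)) (q : ℕ), q.Prime → ¬ q ∣ n₀ →
    ¬ (q : ℤ) ∣ nm m → Nat.card (OO A B ⧸ Q) = q → ∀ V : ValuationSubring ℂ, Ovr Q V →
    ∀ σ : (RF (sp m) : IntermediateField (kk A B) ℂ) ≃ₐ[kk A B] RF (sp m),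
      (∀ x : (RF (sp m) : IntermediateField (kk A B) ℂ), (x : ℂ) ∈ V →
        V.valuation (((σ x : (RF (sp m) : IntermediateField (kk A B) ℂ)) : ℂ) - (x : ℂ) ^ q) < 1) →
      TrH σ → ∃ lam : OO A B, Q = Ideal.span {lam} ∧ nm lam = q ∧ ActH σ m lam

/-! ### The elements `cW` -/

/-- (MEM) `cW h θ` is the norm of `θ` to `D`, and `cWt h θ τ = τ(cW h θ)`.

PROOF. `F` is finite abelian over `k`, `D ≤ F`. As `W_XXG.lean`, `W_MEMC.lean` of MU3: every `τ` extends to `F`, `σ ∘ (extensions of 1) = extensions of τ`. `cW` is fixed by the automorphisms of `F/k` trivial on `D`, so in `D`. -/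
def Sy_MEM : Prop :=
  ∀ (A B : ℤ) (F : IntermediateField (kk A B) ℂ), FiniteDimensional (kk A B) F →
    IsGalois (kk A B) F → (∀ σ τ : F ≃ₐ[kk A B] F, σ * τ = τ * σ) →
    ∀ (D : IntermediateField ℚ ℂ) (h : kk A B ≤ D), _root_.Pool.Agent.MU3V.Sub D F → ∀ θ : F, θ ≠ 0 → letI := algC h
    cW h θ = cWt h θ 1 ∧ (∀ τ : D ≃ₐ[kk A B] D, cWt h θ τ ∈ D ∧ cWt h θ τ ≠ 0) ∧
    (∀ (τ : D ≃ₐ[kk A B] D) (h1 : cW h θ ∈ D), ((τ ⟨cW h θ, h1⟩ : D) : ℂ) = cWt h θ τ) ∧
    (∀ τ : D ≃ₐ[kk A B] D, ∃ σ : F ≃ₐ[kk A B] F, Ext1 h τ σ) ∧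
    ∀ σ : F ≃ₐ[kk A B] F, ∃ τ : D ≃ₐ[kk A B] D, Ext1 h τ σ

/-- (TOW) the norm in two steps.

Uses MEM. PROOF. Every `σ ∈ GD h₀ F` (trivial on `D₀`) extends exactly one `g : D ≃ₐ[k] D`, and `g ∈ NC h D₀`; so `∏_(σ ∈ GD h₀ F) σ θ = ∏_(g ∈ NC h D₀) cWt h θ g`, and `cWt h θ g = g(cW h θ)` (MEM). -/
def Sy_TOW : Prop :=
  ∀ (A B : ℤ) (F : IntermediateField (kk A B) ℂ), FiniteDimensional (kk A B) F →
    IsGalois (kk A B) F → (∀ σ τ : F ≃ₐ[kk A B] F, σ * τ = τ * σ) →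
    ∀ (D₀ D : IntermediateField ℚ ℂ) (h₀ : kk A B ≤ D₀) (h : kk A B ≤ D), D₀ ≤ D → _root_.Pool.Agent.MU3V.Sub D F →
    ∀ θ : F, θ ≠ 0 → letI := algC h
    ∀ h1 : cW h θ ∈ D, cW h₀ θ = ∏ᶠ g : NC h D₀, (((g : D ≃ₐ[kk A B] D) ⟨cW h θ, h1⟩ : D) : ℂ)

/-- (HIT) every automorphism of `F_m / k` hits exactly two pairs `± (i, x)`.

Uses Sq_EMB, ACM, Su_DET. PROOF. `T : TorX A B`, `R : Reps A B n ι`, `L = R.L R.i0 = om O` (`R.b0`), `m` a natural number with `nI (R.b i)` prime to `m` for all `i`, `¬ m ∣ 2` in `O`, `m ≠ 0`. Extend `σ` to `s ∈ Aut(ℂ)` (`T.ext`), `T.act`: the ideal `a`, `ActI s (idl m) a L L' mu`, `L'` normalised. `R.surj` for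
`a⁻¹`-class of `L'`: `L' = mu a⁻¹ L` is homothetic to `R.L i` for one `i` (`a * c = (N)`, `c = cjI a`; `a⁻¹ = c/N`; `x c = y b_i`), so `L'` has the same lattice as `R.L i` (both normalised). So `kap (R.L i) = s(kap L)`, and `mu om/m` is a point of `R.L i` of exact level `m` (`ActI.act`; `z ↦ mu z` is an isomorphism
of the points of level `m`), so `± pt R m i x` with `x` prime to `m` (the points of level `m` of `R.L i = om_i b_i` are `om_i b_i/m`, and `b_i/m b_i ≅ O/m` by `x ↦ N(b_i) x`, because `N(b_i) ∈ b_i` is prime to `m`). Uniqueness: `kap (R.L i) = kap (R.L j)` gives `i = j` (DET, `R.inj`); `xn` equal gives `± x` (`b_NEQ`).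
`x ≢ -x` since `m ∤ 2`. -/
def Sy_HIT : Prop :=
  ∀ A B : ℤ, CQ A B → TorX A B → ∀ (n : ℕ) (ι : Type) (R : Reps A B n ι) (m : ℕ), m ≠ 0 →
    (∀ i, (nI (R.b i)).Coprime m) → ¬ ((m : ℕ) : OO A B) ∣ 2 →
    ∀ s : ℂ ≃+* ℂ, FixK A B s → ∃ (i : ι) (x : OO A B), IsCoprime x ((m : ℕ) : OO A B) ∧
      Hits R m s i x ∧ ¬ ((m : ℕ) : OO A B) ∣ 2 * x ∧
      ∀ (j : ι) (y : OO A B), Hits R m s j y ↔
        j = i ∧ (((m : ℕ) : OO A B) ∣ y - x ∨ ((m : ℕ) : OO A B) ∣ y + x)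

/-- (CXW) the product over `XX` is the square of `cWt`.

Uses HIT, THG, MEM. PROOF. `L = R.L R.i0`, `θ = Θ_a(pt R m i0 1)` in `F = RF (idl m)`. `XX R m h τ` is the disjoint union, over the automorphisms `σ` of `F/k` which extend `τ`, of the sets `{(i, x), (i, -x)}` hit by the extensions `s` of `σ` to `ℂ` (HIT; `Hits R m s` depends only on the restriction of `s` to `F`, and it determines this
restriction: if `s`, `s'` hit the same `(i, x)`, then `s⁻¹ s'` hits `(i0, 1)`: trivial on `kap L`, so its ideal is principal `(c)` (DET as in KER) and `c ≡ ± 1` modulo `m`: trivial on `RF (idl m)` by `T.triv`; both have a restriction to `F` as `F/k` is normal). By (THG) `Θ_a(pt R m i x; L_i) = σ(θ)`, also for `-x`. -/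
def Sy_CXW : Prop :=
  ∀ A B : ℤ, CQ A B → TorX A B → ∀ (n : ℕ) (ι : Type) (R : Reps A B n ι) (m : ℕ), m ≠ 0 →
    (∀ i, (nI (R.b i)).Coprime m) → ¬ ((m : ℕ) : OO A B) ∣ 2 →
    ∀ (a : ℕ) (H : ι → Finset ℂ), a ≠ 0 → a.Coprime m → (∀ i, IsHalf (R.L i) a (H i)) →
    ∀ θ : (RF (idl m) : IntermediateField (kk A B) ℂ),
    (θ : ℂ) = ThetaH (R.L R.i0) (H R.i0) (Pool.Agent.MUX.pt R m R.i0 1) →
    ∀ (D : IntermediateField ℚ ℂ) (h : kk A B ≤ D),
    _root_.Pool.Agent.MU3V.Sub D (RF (idl m) : IntermediateField (kk A B) ℂ) → letI := algC h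
    ∀ τ : D ≃ₐ[kk A B] D, cX R m H h τ = cWt h θ τ ^ 2

/-- (SUC) `cW h θ` is a unit outside `S`.

Uses Sv_EXT, Sq_THU, Sq_TOR, Sq_EMB, GRB, THG, MEM. PROOF. As `W_SUC.lean` of MU3. `n₀` from GRB for `L`. `w` a prime of `D` not above `S`; extend it to `V` (EXT). `v n₀ = v a = v (nm m) = 1`: good reduction. Every factor of `cW` is `σ(Θ(u))`, `u = Om/m`; `V' = V.comap`-conjugate: let `s ∈ Aut(ℂ)` extend `σ`
(`T.ext`, or AUE); `v(s x)` for `x ∈ ℂ` is the valuation of `s⁻¹ V`, again with `v n₀ = v a = v(nm m) = 1`, so `v(s(Θ(u))) = 1` by (THU)(1) for `s⁻¹ V`: `a u ∉ L`, in `E[m]`, not in the kernel of reduction (TOR). -/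
def Sy_SUC : Prop :=
  ∀ A B : ℤ, CQ A B → TorX A B → ∀ (L : PeriodPair) (Om : ℂ), IsNL (⊤ : Ideal (OO A B)) L Om →
    ∃ n₀ : ℕ, n₀ ≠ 0 ∧ ∀ m : OO A B, m ≠ 0 → ¬ IsUnit m → ∀ (a : ℤ) (H : Finset ℂ), a ≠ 0 →
    IsCoprime (a : OO A B) m → IsHalf L a H →
    ∀ S : Finset ℕ, (∀ p : ℕ, p.Prime → p ∣ n₀ → p ∈ S) → (∀ p : ℕ, p.Prime → (p : ℤ) ∣ a → p ∈ S) →
    (∀ p : ℕ, p.Prime → (p : ℤ) ∣ nm m → p ∈ S) →
    ∀ θ : (RF (sp m) : IntermediateField (kk A B) ℂ), (θ : ℂ) = ThetaH L H (Om / emb m) →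
    ∀ (D : IntermediateField ℚ ℂ) [FiniteDimensional ℚ D] (h : kk A B ≤ D),
      _root_.Pool.Agent.MU3V.Sub D (RF (sp m) : IntermediateField (kk A B) ℂ) →
      ∀ c : D, (c : ℂ) = cW h θ → Pool.Agent.MU3.SU S D c

/-- (DIS) distribution relation over `E[b]`, with constant in `H`.

Uses St_TDI, St_TIN, THG, KER, ACM, Sq_EMB. PROOF. As `W_DISI.lean` of MU3. `C = b^(2|H|) ∏_(r ∈ R) Θ(r) ≠ 0`, `R` = representatives of `E[b] - 0`. The product `∏ Θ(r)` is in `RF (sp b)` (THG) and fixed by all automorphisms of `RF (sp b)/k` which are trivial on `RF ⊤`: they act as some `c` prime to `b` (KER), `σ(Θ(r)) = Θ(c r)`, and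
`r ↦ c r` permutes the classes. So it is in `RF ⊤` (Galois theory, `RF ⊤ ≤ RF (sp b)`). -/
def Sy_DIS : Prop :=
  ∀ A B : ℤ, CQ A B → TorX A B → ∀ (L : PeriodPair) (Om : ℂ), IsNL (⊤ : Ideal (OO A B)) L Om →
    ∀ b : OO A B, b ≠ 0 → ∀ (a : ℤ) (H : Finset ℂ), a ≠ 0 → IsCoprime (a : OO A B) b →
    IsHalf L a H → ∃ C ∈ (RF (⊤ : Ideal (OO A B)) : IntermediateField (kk A B) ℂ), C ≠ 0 ∧
      ∀ z, emb b * a * z ∉ L.lattice →
      ∏ᶠ t : OO A B ⧸ Ideal.span {b}, ThetaH L H (z + emb (Quotient.out t) * (Om / emb b)) =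
        C * ThetaH L H (emb b * z)

/-- (NRM) the norm from `F_(b m)` to `F_m`, for `b ∣ m`.

Uses DIS, KER, ACM, THG, St_TIN, Sq_EMB. PROOF. `b ∣ m`, so a number prime to `m` is prime to `b m`. The automorphisms of `F_(b m)/k` which are trivial on `F_m` are trivial on `H`, so they act as some `c` prime to `b m` (KER) and `c ≡ ± 1` modulo `m` (ACM)(8),(1) (compare with `1`), by (ACM)(2) `c ≡ 1` modulo `m`; conversely every `c = 1 + m t`
occurs (KER), acts trivially on `F_m` (ACM)(8), (5). As `m ∤ 2`, `c ↦ t` modulo `b` is a bijection of this group with `O/b`. `σ(Θ(Om/(b m))) = Θ(Om/(b m) + t Om/b)` (THG). (DIS) for `z = Om/(b m)` (`b a z = a Om/m ∉ L`: `m` is not a unit, `a` prime to `m`). -/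
def Sy_NRM : Prop :=
  ∀ A B : ℤ, CQ A B → TorX A B → ∀ (L : PeriodPair) (Om : ℂ), IsNL (⊤ : Ideal (OO A B)) L Om →
    ∀ m b : OO A B, m ≠ 0 → b ∣ m → ¬ m ∣ 2 → ∀ (a : ℤ) (H : Finset ℂ), a ≠ 0 →
    IsCoprime (a : OO A B) m → IsHalf L a H →
    ∀ (θ : (RF (sp m) : IntermediateField (kk A B) ℂ))
      (θ' : (RF (sp (b * m)) : IntermediateField (kk A B) ℂ)),
    (θ : ℂ) = ThetaH L H (Om / emb m) → (θ' : ℂ) = ThetaH L H (Om / emb (b * m)) →
    ∃ C ∈ (RF (⊤ : Ideal (OO A B)) : IntermediateField (kk A B) ℂ), C ≠ 0 ∧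
      ∏ᶠ σ : {σ : (RF (sp (b * m)) : IntermediateField (kk A B) ℂ) ≃ₐ[kk A B] RF (sp (b * m)) //
        ∀ x : (RF (sp (b * m)) : IntermediateField (kk A B) ℂ),
          (x : ℂ) ∈ (RF (sp m) : IntermediateField (kk A B) ℂ) → σ x = x},
        ((σ.1 θ' : (RF (sp (b * m)) : IntermediateField (kk A B) ℂ)) : ℂ) = C * θ

/-- (I1) the norm relation.

Uses NRM, MEM. PROOF. `m' = b m`, `F = RF (sp m)`, `F' = RF (sp m')`, `D ≤ D' ≤ F'`, `D ≤ F`, `D` contains `H`. `∏_(i<p) σ^i(cW h' θ')` is the product of the `s θ'` over all `s ∈ Gal(F'/k)` whose restriction to `D'` is in `⟨σ⟩`, that is trivial on `D` (Galois correspondence: `σ` has the fixed field `D`, order `p`). On the other hand every `s ∈ GD h F'`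
restricts to an element of `GD h F` (restriction is surjective), and the fibres are the cosets of the group in (NRM): `∏_(s ∈ GD h F') s θ' = ∏_(σ ∈ GD h F) σ~(C θ) = C^(|GD h F|) ∏ σ θ`, since `C ∈ H ≤ D` is fixed (`σ~` an extension of `σ`; use an extension for every `σ`). -/
def Sy_I1 : Prop :=
  ∀ A B : ℤ, CQ A B → TorX A B → ∀ (L : PeriodPair) (Om : ℂ), IsNL (⊤ : Ideal (OO A B)) L Om →
    ∀ m b : OO A B, m ≠ 0 → b ∣ m → ¬ m ∣ 2 → ∀ (a : ℤ) (H : Finset ℂ), a ≠ 0 →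
    IsCoprime (a : OO A B) m → IsHalf L a H →
    ∀ (θ : (RF (sp m) : IntermediateField (kk A B) ℂ))
      (θ' : (RF (sp (b * m)) : IntermediateField (kk A B) ℂ)),
    (θ : ℂ) = ThetaH L H (Om / emb m) → (θ' : ℂ) = ThetaH L H (Om / emb (b * m)) →
    ∀ (D D' : IntermediateField ℚ ℂ) (h : kk A B ≤ D) (h' : kk A B ≤ D'), D ≤ D' → HasH A B D →
    _root_.Pool.Agent.MU3V.Sub D (RF (sp m) : IntermediateField (kk A B) ℂ) →
    _root_.Pool.Agent.MU3V.Sub D' (RF (sp (b * m)) : IntermediateField (kk A B) ℂ) → letI := algC h; letI := algC h'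
    ∀ (p : ℕ) (σ : D' ≃ₐ[kk A B] D'), (∀ x : D', σ x = x ↔ (x : ℂ) ∈ D) → orderOf σ = p → p ≠ 0 →
    ∀ c' : D', (c' : ℂ) = cW h' θ' →
      ∃ C ∈ (RF (⊤ : Ideal (OO A B)) : IntermediateField (kk A B) ℂ), C ≠ 0 ∧
        ∏ i ∈ Finset.range p, (((σ ^ i) c' : D') : ℂ) = C * cW h θ

/-! ### Good primes -/

/-- (PRQ) the primes of degree one of `k`.

Uses Sq_EMB. PROOF. `𝓞 k = emb O` (the ring of integers of `ℚ(w)`: an element of `k` integral over `ℤ` is `x + y w` with rational `x, y`; trace `2x + B y` and norm `x² + B x y - A y²` are integers, and `B² + 4A` is a fundamental discriminant (`CQ`): `x, y ∈ ℤ`). So `P` corresponds to the ideal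
`Q = {y : emb y ∈ P}` with `O/Q ≅ 𝓞 k/P`. -/
def Sy_PRQ : Prop :=
  ∀ A B : ℤ, CQ A B → (∀ x : 𝓞 (kk A B), ∃ y : OO A B, ((x : kk A B) : ℂ) = emb y) ∧
    (∀ y : OO A B, ∃ x : 𝓞 (kk A B), ((x : kk A B) : ℂ) = emb y) ∧
    ∀ P : Ideal (𝓞 (kk A B)), ∃ Q : Ideal (OO A B), Nat.card (OO A B ⧸ Q) = Nat.card (𝓞 (kk A B) ⧸ P) ∧
      ∀ (x : 𝓞 (kk A B)) (y : OO A B), ((x : kk A B) : ℂ) = emb y → (x ∈ P ↔ y ∈ Q)

/-- (FRD) a good prime `v` of `D` (trivial decomposition group over `k`, degree one, `D` contains `H`) lies over a principal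
prime `(lam)`, and `lam` is the action on `E[m]` of an automorphism of `F_m/k` trivial on `D`.

Uses FRH, PRQ, Sw_LOC, Sv_EXT, Sa_FEX or Mathlib. PROOF. As `W_FRD.lean` of MU3. `P = v ∩ 𝓞 k`, `#𝓞 k/P = q` (it embeds in `𝓞 D/v`, `q` prime); (PRQ) gives `Q`. `F = RF (sp m)`, `w` a prime of `𝓞 F` above `v`, `σ` an arithmetic Frobenius at `w` (`IsArithFrobAt.exists_of_isInvariant`): `σ x - x^q ∈ w` for `x ∈ 𝓞 F`. `V` extends `w` (EXT); (LOC) gives the congruence on `F ∩ V`;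
`Ovr Q V`. `σ` extends some `τ` of `D` which maps `v` into itself, so `τ = 1` (`GoodPrP.free`), so `σ` is trivial on `D`, hence on `H`. (FRH). -/
def Sy_FRD : Prop :=
  ∀ A B : ℤ, CQ A B → TorX A B → ∀ (n : ℕ) (ι : Type) [Finite ι] (_ : Reps A B n ι), ∃ n₀ : ℕ,
    n₀ ≠ 0 ∧ ∀ (p : ℕ) (m : OO A B), m ≠ 0 → ∀ (D : IntermediateField ℚ ℂ)
      [FiniteDimensional ℚ D] (h : kk A B ≤ D), HasH A B D →
      _root_.Pool.Agent.MU3V.Sub D (RF (sp m) : IntermediateField (kk A B) ℂ) → letI := algC h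
    ∀ (S : Finset ℕ) (v : HeightOneSpectrum (𝓞 D)) (q : ℕ),
      Pool.Agent.MUXK.GoodPrP p (kk A B) D S v q → ¬ q ∣ n₀ → ¬ (q : ℤ) ∣ nm m →
      ∃ lam : OO A B, nm lam = q ∧
        (∃ σ ∈ GD h (RF (sp m) : IntermediateField (kk A B) ℂ), ActH σ m lam) ∧
        ∀ (x : 𝓞 (kk A B)) (y : OO A B), ((x : kk A B) : ℂ) = emb y →
          (x ∈ v.asIdeal.under (𝓞 (kk A B)) ↔ lam ∣ y)

/-- (URA) a good prime is unramified over `k`, and so are its conjugates.

PROOF. `v'` with `v' ∩ 𝓞 k = v ∩ 𝓞 k` is `h v` for some `h ∈ Gal(D/k)` (transitivity), its stabilizer is trivial (conjugate of that of `v`, `GoodPrP.free`) and has `e f` elements, so `e = 1`. (In K1 of MU3 the same is used: `Ideal.card_stabilizer..`, `ncard_primesOver_mul_..`; see `P_STAB.lean`, `K1Main.lean`.) -/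
def Sy_URA : Prop :=
  ∀ (p : ℕ) (k L : Type) [Field k] [NumberField k] [Field L] [NumberField L] [Algebra k L]
    [IsGalois k L] (S : Finset ℕ) (v : HeightOneSpectrum (𝓞 L)) (q : ℕ),
    Pool.Agent.MUXK.GoodPrP p k L S v q → ∀ v' : HeightOneSpectrum (𝓞 L),
    v'.asIdeal.under (𝓞 k) = v.asIdeal.under (𝓞 k) → v'.asIdeal.ramificationIdx (𝓞 k) = 1

/-- (KOL) the input (I2), for every prime `p`. (helper59) -/
def Sy_KOL : Prop :=
  ∀ A B : ℤ, CQ A B → TorX A B → ∀ (n : ℕ) (ι : Type) [Finite ι] (R : Reps A B n ι), ∃ n₀ : ℕ,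
    n₀ ≠ 0 ∧ ∀ p : ℕ, p.Prime → ∀ m : OO A B, m ≠ 0 → ¬ m ∣ 2 → ∀ (a : ℤ) (H : Finset ℂ),
    a ≠ 0 → IsCoprime (a : OO A B) m → IsHalf (R.L R.i0) a H →
    ∀ S : Finset ℕ, (∀ p : ℕ, p.Prime → p ∣ n₀ → p ∈ S) → (∀ p : ℕ, p.Prime → (p : ℤ) ∣ a → p ∈ S) →
    (∀ p : ℕ, p.Prime → (p : ℤ) ∣ nm m → p ∈ S) →
    ∀ θ : (RF (sp m) : IntermediateField (kk A B) ℂ),
    (θ : ℂ) = ThetaH (R.L R.i0) H (R.om R.i0 / emb m) →
    ∀ (D : IntermediateField ℚ ℂ) [FiniteDimensional ℚ D] [FiniteDimensional ℚ (kk A B)]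
      (h : kk A B ≤ D), HasH A B D → _root_.Pool.Agent.MU3V.Sub D (RF (sp m) : IntermediateField (kk A B) ℂ) →
      letI := algC h
      ∀ c : D, (c : ℂ) = cW h θ →
        Pool.Agent.MUXK.KolInP p (kk A B) D
          {g | ∀ x : D, (x : ℂ) ∈ (RF (⊤ : Ideal (OO A B)) : IntermediateField (kk A B) ℂ) →
            g x = x} S c

end

end Pool.Agent.MUXW


end

section

/-!
# MU3, block V: module SUC, the element `cc .. 1` is a unit outside `S`
-/

set_option autoImplicit false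

open WeierstrassCurve Polynomial NumberField IsDedekindDomain

namespace Pool.Agent.MU3V

open _root_.MU3 _root_.Pool.Agent.MU3A _root_.Pool.Agent.MU3B _root_.Pool.Agent.MU3C

noncomputable section

namespace SUC

/-- a positive integer all of whose prime divisors are units of `V` is a unit of `V` -/
lemma v_nat {V : ValuationSubring ℂ} : ∀ n : ℕ, n ≠ 0 →
    (∀ p : ℕ, p.Prime → p ∣ n → V.valuation (p : ℂ) = 1) → V.valuation (n : ℂ) = 1 := by
  intro n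
  induction n using Nat.strong_induction_on with
  | _ n ih =>
    intro hn hp
    by_cases h1 : n = 1
    · rw [h1, Nat.cast_one, map_one]
    have hq := Nat.minFac_prime h1
    obtain ⟨k, hk⟩ := Nat.minFac_dvd n
    have hk0 : k ≠ 0 := by
      rintro rfl
      exact hn (by rw [hk, mul_zero])
    have hkn : k < n := by
      have h2 : 2 ≤ n.minFac := hq.two_le
      have h3 : 2 * k ≤ n.minFac * k := Nat.mul_le_mul_right k h2
      rw [← hk] at h3
      omega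
    have hkd : k ∣ n := ⟨n.minFac, by rw [mul_comm]; exact hk⟩
    have h3 := ih k hkn hk0 (fun p hp1 hp2 => hp p hp1 (hp2.trans hkd))
    have h4 := hp _ hq (Nat.minFac_dvd n)
    rw [hk, Nat.cast_mul, map_mul, h3, mul_one]
    exact h4

lemma v_int {V : ValuationSubring ℂ} {n : ℤ} (hn : n ≠ 0)
    (hp : ∀ p : ℕ, p.Prime → (p : ℤ) ∣ n → V.valuation (p : ℂ) = 1) :
    V.valuation (n : ℂ) = 1 := by
  have h1 := v_nat (V := V) n.natAbs (Int.natAbs_ne_zero.2 hn)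
    (fun p hp1 hp2 => hp p hp1 (Int.natCast_dvd.2 hp2))
  obtain ⟨m, hm | hm⟩ := n.eq_nat_or_neg
  · rw [hm] at h1 ⊢
    simpa using h1
  · rw [hm] at h1 ⊢
    have h2 : (((-(m : ℤ) : ℤ)) : ℂ) = -(m : ℂ) := by push_cast; rfl
    rw [h2, Valuation.map_neg]
    simpa using h1

end SUC

open _root_.Pool.Agent.MU3V.SUC in
/-- `c = cc .. 1` is a unit outside `S` -/
theorem tw_SUC (hEXT : Sv_EXT) (hTHU : Sw_THU) (hTORV : Sw_TORV) (hXI : Sa_XI)
    (hPID : Sa_PID) : Sw_SUC := by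
  intro A B L Om h hL m hm hmu a H ha ham hH S h2S haS hmS D _ hk c hc v hv
  obtain ⟨-, -, -, hnmul, hnm0, -, hunit, hunit', -⟩ := hPID A B h
  obtain ⟨ξ, hξ0, -, hξs⟩ := hXI A B L Om h hL
  have hξ : IsXi A B L ξ := ⟨hξs, fun z hz => (hξ0 z).2 hz⟩
  obtain ⟨V, hV⟩ := hEXT D (algebraMap D ℂ) v
  have hS : ∀ p ∈ S, V.valuation (p : ℂ) = 1 := by
    intro p hp
    have h1 : v.valuation D (p : D) = 1 := by
      have h3 : ¬ (v.valuation D (p : D) < 1) := by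
        intro h4
        apply hv
        refine ⟨p, hp, ?_⟩
        rw [← HeightOneSpectrum.valuation_lt_one_iff_mem (K := D) v (p : 𝓞 D)]
        simpa using h4
      refine le_antisymm ?_ (not_lt.1 h3)
      have h5 := HeightOneSpectrum.valuation_le_one (K := D) v (p : 𝓞 D)
      simpa using h5
    have h2 := ((hV (p : D)).2.2).2 h1
    simpa using h2
  have v2 : V.valuation (2 : ℂ) = 1 := by simpa using hS 2 h2S
  have va : V.valuation (a : ℂ) = 1 := v_int ha (fun p hp1 hp2 => hS p (haS p hp1 hp2))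
  have hm' : nm m ≠ 0 := fun h0 => hm ((hnm0 m).1 h0)
  have vm : V.valuation ((nm m : ℤ) : ℂ) = 1 := v_int hm' (fun p hp1 hp2 => hS p (hmS p hp1 hp2))
  have hmz : emb m * (Om / emb m) ∈ L.lattice := by
    rw [mul_div_cancel₀ _ (emb_ne_zero h hm), hL.mem]
    exact ⟨1, by rw [emb_one h, mul_one]⟩
  have key : ∀ x : OO A B, IsCoprime x m →
      V.valuation (ThetaH L H (emb x * (Om / emb m))) = 1 := by
    intro x hx
    refine (hTHU A B L Om ξ h hL hξ V v2 a H va hH).1 _ ?_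
    intro hE
    have h1 : (a : ℂ) * (emb x * (Om / emb m)) = emb ((a : OO A B) * x) * (Om / emb m) := by
      rw [emb_mul h, emb_intCast h]; ring
    rw [h1] at hE
    have h3 := hTORV A B L Om ξ h hL hξ V v2 m vm _ (by
      rw [mul_left_comm]
      exact hL.toIsLat.emb_mul_mem h _ hmz) hE
    rw [hL.toIsLat.mul_div_mem_iff h hm] at h3
    exact hmu ((ham.mul_left hx).isUnit_of_dvd' h3 dvd_rfl)
  rw [← (hV c).2.2]
  change V.valuation (c : ℂ) = 1
  rw [hc]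
  refine finprod_mem_induction (fun y => V.valuation y = 1) (map_one _) ?_ ?_
  · intro y z hy hz
    rw [map_mul, hy, hz, one_mul]
  · rintro x ⟨σ, hσ, -⟩
    exact key _ hσ.1

end

end Pool.Agent.MU3V


end

section

/-!
# MU3, block V: membership in `XX` (XXM)
-/

set_option autoImplicit false

namespace Pool.Agent.MU3V

open _root_.MU3 _root_.Pool.Agent.MU3A _root_.Pool.Agent.MU3B _root_.Pool.Agent.MU3C

/-- the chosen representative of the class of `x` is congruent to `x` -/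
theorem out_cls {A B : ℤ} (m x : OO A B) : m ∣ Quotient.out (cls m x) - x := by
  rw [← Ideal.mem_span_singleton, ← Ideal.Quotient.mk_eq_mk_iff_sub_mem]
  exact Quotient.out_eq (cls m x)

theorem tw_XXM (h : Sa_ACT) : Sw_XXM := by
  intro A B L Om hc hL m hm D hD τ x
  obtain ⟨-, h2, -⟩ := h A B L Om hc hL m hm
  constructor
  · rintro ⟨σ, h3, h4⟩
    exact ⟨σ, h2 _ _ _ _ (out_cls m x) h3, h4⟩
  · rintro ⟨σ, h3, h4⟩
    refine ⟨σ, h2 _ _ _ _ ?_ h3, h4⟩
    rw [← dvd_neg, neg_sub]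
    exact out_cls m x

end Pool.Agent.MU3V


end

section

/-!
# MU3, block V: module TORV, torsion of order prime to the residue characteristic is not in `E₁`
-/

set_option autoImplicit false

open WeierstrassCurve Polynomial NumberField IsDedekindDomain

namespace Pool.Agent.MU3V

open _root_.MU3 _root_.Pool.Agent.MU3A _root_.Pool.Agent.MU3B _root_.Pool.Agent.MU3C

theorem tw_TORV (h : Sa_PID) : Sw_TORV := by
  intro A B L Om ξ hc hL hξ V h2 m hm z hz hE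
  obtain ⟨-, -, hnn, -⟩ := h A B hc
  obtain ⟨n, hn⟩ := Int.eq_ofNat_of_zero_le (hnn m)
  have h1 : emb (star m) * (emb m * z) = (n : ℂ) * z := by
    rw [← mul_assoc, ← emb_mul hc, ← emb_natCast hc n]
    congr 2
    have h3 := QuadraticAlgebra.algebraMap_norm_eq_mul_star m
    have h4 : QuadraticAlgebra.norm m = (n : ℤ) := by
      rw [← hn, QuadraticAlgebra.norm_def]
      unfold nm
      ring
    rw [h4] at h3
    rw [mul_comm, ← h3]
    simp
  refine mem_of_nat_mul hc h2 hξ hE (n := n) ?_ ?_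
  · have h5 : (((nm m : ℤ) : ℂ)) = (n : ℂ) := by rw [hn]; simp
    rwa [h5] at hm
  · rw [← h1]
    exact hL.toIsLat.emb_mul_mem hc (star m) hz

end Pool.Agent.MU3V


end

section

/-!
# MU3V, THG: Galois action on the values of `Θ_a` at torsion points
-/

set_option autoImplicit false

open WeierstrassCurve Polynomial NumberField IsDedekindDomain

namespace Pool.Agent.MU3V

open _root_.MU3 _root_.Pool.Agent.MU3A _root_.Pool.Agent.MU3B _root_.Pool.Agent.MU3C _root_.Pool.Agent.RI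

noncomputable section

namespace W_THG

variable {A B : ℤ}

/-- integers act on the lattice -/
theorem lat_int (L : PeriodPair) (a : ℤ) {z : ℂ} (hz : z ∈ L.lattice) :
    (a : ℂ) * z ∈ L.lattice := by
  have h := zsmul_mem hz a
  rwa [zsmul_eq_mul] at h

/-- the image of a half system under multiplication by an element prime to `a` -/
theorem isHalf_mul {L : PeriodPair} {Om : ℂ} (h : Case A B) (hL : IsLat A B L Om) (a : ℤ)
    (H : Finset ℂ) (hH : IsHalf L a H) (b : OO A B) (hb : IsCoprime b (a : OO A B)) :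
    IsHalf L a (H.image (fun p => emb b * p)) := by
  have hea : emb ((a : ℤ) : OO A B) = (a : ℂ) := emb_intCast h a
  have hker : ∀ y : ℂ, emb b * y ∈ L.lattice → (a : ℂ) * y ∈ L.lattice → y ∈ L.lattice := by
    intro y h1 h2
    rw [← hea] at h2
    exact hL.mem_of_coprime h hb h1 h2
  constructor
  · intro q hq
    obtain ⟨p, hp, rfl⟩ := Finset.mem_image.1 hq
    have h1 := hL.emb_mul_mem h b (hH.mem p hp)
    have e : (a : ℂ) * (emb b * p) = emb b * ((a : ℂ) * p) := by ring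
    rw [e]
    exact h1
  · intro q hq hcon
    obtain ⟨p, hp, rfl⟩ := Finset.mem_image.1 hq
    refine hH.ne p hp (hker _ ?_ ?_)
    · have e : emb b * (2 * p) = 2 * (emb b * p) := by ring
      rw [e]
      exact hcon
    · have e : (a : ℂ) * (2 * p) = (a : ℂ) * p + (a : ℂ) * p := by ring
      rw [e]
      exact add_mem (hH.mem p hp) (hH.mem p hp)
  · intro q hq q' hq' hqq
    obtain ⟨p, hp, rfl⟩ := Finset.mem_image.1 hq
    obtain ⟨p', hp', rfl⟩ := Finset.mem_image.1 hq'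
    have h1 : p - p' ∈ L.lattice := by
      refine hker _ ?_ ?_
      · rw [mul_sub]
        exact hqq
      · rw [mul_sub]
        exact sub_mem (hH.mem p hp) (hH.mem p' hp')
    rw [hH.inj p hp p' hp' h1]
  · intro q hq q' hq' hqq
    obtain ⟨p, hp, rfl⟩ := Finset.mem_image.1 hq
    obtain ⟨p', hp', rfl⟩ := Finset.mem_image.1 hq'
    refine hH.neg p hp p' hp' (hker _ ?_ ?_)
    · rw [mul_add]
      exact hqq
    · rw [mul_add]
      exact add_mem (hH.mem p hp) (hH.mem p' hp')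
  · intro y hy hy0
    obtain ⟨c, d, hcd⟩ := hb
    have hcd' : emb c * emb b + emb d * (a : ℂ) = 1 := by
      have h1 := congrArg emb hcd
      rw [emb_add h, emb_mul h, emb_mul h, emb_one h, hea] at h1
      exact h1
    have h2 : (a : ℂ) * (emb c * y) ∈ L.lattice := by
      have e : (a : ℂ) * (emb c * y) = emb c * ((a : ℂ) * y) := by ring
      rw [e]
      exact hL.emb_mul_mem h c hy
    have h4 : emb d * ((a : ℂ) * y) ∈ L.lattice := hL.emb_mul_mem h d hy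
    have h3 : emb c * y ∉ L.lattice := by
      intro hcon
      apply hy0
      have h5 := add_mem (hL.emb_mul_mem h b hcon) h4
      have e : emb b * (emb c * y) + emb d * ((a : ℂ) * y) = y := by
        linear_combination y * hcd'
      rwa [e] at h5
    obtain ⟨q, hq, hq'⟩ := hH.surj (emb c * y) h2 h3
    refine ⟨emb b * q, Finset.mem_image_of_mem _ hq, ?_⟩
    rcases hq' with h5 | h5
    · left
      have h6 := add_mem (hL.emb_mul_mem h b h5) h4
      have e : emb b * (emb c * y - q) + emb d * ((a : ℂ) * y) = y - emb b * q := by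
        linear_combination y * hcd'
      rwa [e] at h6
    · right
      have h6 := add_mem (hL.emb_mul_mem h b h5) h4
      have e : emb b * (emb c * y + q) + emb d * ((a : ℂ) * y) = y + emb b * q := by
        linear_combination y * hcd'
      rwa [e] at h6

/-- the action at the level `m a` -/
theorem theta_act {L : PeriodPair} {Om : ℂ} (h : Case A B) (hL : IsLat A B L Om) (hTIN : St_TIN)
    (m : OO A B) (a : ℤ) (H : Finset ℂ) (hH : IsHalf L a H) (z : ℂ)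
    (hz : emb m * z ∈ L.lattice) (hz0 : z ∉ L.lattice) (F : IntermediateField (kk A B) ℂ)
    (hF : TF L (m * (a : OO A B)) ≤ F) :
    ∃ hm : ThetaH L H z ∈ F, ∀ (σ : F →ₐ[kk A B] ℂ) (b : OO A B),
      Act L σ (m * (a : OO A B)) b → σ ⟨ThetaH L H z, hm⟩ = ThetaH L H (emb b * z) := by
  classical
  have hx : ∀ y, emb (m * (a : OO A B)) * y ∈ L.lattice → y ∉ L.lattice → xx A B L y ∈ F :=
    fun y h1 h2 => hF (IntermediateField.subset_adjoin _ _ ⟨y, h1, h2, Or.inl rfl⟩)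
  have hea : emb (m * (a : OO A B)) = emb m * (a : ℂ) := by
    rw [emb_mul h, emb_intCast h]
  have hzN : emb (m * (a : OO A B)) * z ∈ L.lattice := by
    rw [hea]
    have e : emb m * (a : ℂ) * z = (a : ℂ) * (emb m * z) := by ring
    rw [e]
    exact lat_int L a hz
  have hpN : ∀ p ∈ H, emb (m * (a : OO A B)) * p ∈ L.lattice := by
    intro p hp
    rw [hea, mul_assoc]
    exact hL.emb_mul_mem h m (hH.mem p hp)
  have hp0 : ∀ p ∈ H, p ∉ L.lattice := by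
    intro p hp hcon
    apply hH.ne p hp
    rw [two_mul]
    exact add_mem hcon hcon
  let f : ℂ → F := fun p => if hp : xx A B L p ∈ F then ⟨xx A B L p, hp⟩ else 0
  have hf : ∀ y (hy : xx A B L y ∈ F), f y = ⟨xx A B L y, hy⟩ := fun y hy => dif_pos hy
  have hprod : ((∏ p ∈ H, (f z - f p) : F) : ℂ) = ThetaH L H z := by
    have e : ((∏ p ∈ H, (f z - f p) : F) : ℂ) = ∏ p ∈ H, ((f z - f p : F) : ℂ) :=
      map_prod F.val _ _
    rw [e]
    unfold ThetaH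
    refine Finset.prod_congr rfl fun p hp => ?_
    rw [hf z (hx z hzN hz0), hf p (hx p (hpN p hp) (hp0 p hp))]
    show xx A B L z - xx A B L p = _
    unfold xx
    ring
  have hm : ThetaH L H z ∈ F := by
    rw [← hprod]
    exact (∏ p ∈ H, (f z - f p) : F).2
  refine ⟨hm, fun σ b hσ => ?_⟩
  have e1 : (⟨ThetaH L H z, hm⟩ : F) = ∏ p ∈ H, (f z - f p) := Subtype.ext hprod.symm
  rw [e1, map_prod]
  have e2 : ∀ p ∈ H, σ (f z - f p) =
      L.weierstrassP (emb b * z) - L.weierstrassP (emb b * p) := by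
    intro p hp
    rw [map_sub, hf z (hx z hzN hz0), hf p (hx p (hpN p hp) (hp0 p hp)),
      (hσ.2 z hzN hz0).2.1 _, (hσ.2 p (hpN p hp) (hp0 p hp)).2.1 _]
    unfold xx
    ring
  rw [Finset.prod_congr rfl e2]
  have hb : IsCoprime b (a : OO A B) := hσ.1.of_isCoprime_of_dvd_right (dvd_mul_left _ _)
  have hH' := isHalf_mul h hL a H hH b hb
  rw [(hTIN L a H _ hH hH').1]
  unfold ThetaH
  rw [Finset.prod_image]
  intro p hp p' hp' hpp
  have hpp' : emb b * p = emb b * p' := hpp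
  apply hH.inj p hp p' hp'
  have hea' : emb ((a : ℤ) : OO A B) = (a : ℂ) := emb_intCast h a
  refine hL.mem_of_coprime h hb ?_ ?_
  · rw [mul_sub, hpp', sub_self]
    exact zero_mem _
  · rw [hea', mul_sub]
    exact sub_mem (hH.mem p hp) (hH.mem p' hp')

/-- extension of embeddings -/
theorem ext_hom {k : Type} [Field k] [Algebra k ℂ] (F F' : IntermediateField k ℂ) (hle : F ≤ F')
    [FiniteDimensional k F'] (σ : F →ₐ[k] ℂ) :
    ∃ σ' : F' →ₐ[k] ℂ, σ'.comp (IntermediateField.inclusion hle) = σ := by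
  obtain ⟨S, hS⟩ : ∃ S : Set ℂ, F' = IntermediateField.adjoin k S :=
    ⟨F', (IntermediateField.adjoin_self k F').symm⟩
  subst hS
  refine IntermediateField.exists_algHom_adjoin_of_splits (K := ℂ) ?_ σ hle
  intro s hs
  refine ⟨?_, IsAlgClosed.splits _⟩
  have h5 : _root_.IsIntegral k (⟨s, IntermediateField.subset_adjoin _ _ hs⟩ :
    IntermediateField.adjoin k S) := Algebra.IsIntegral.isIntegral _
  exact h5.map (IntermediateField.adjoin k S).val

/-- elements fixed by the Galois group -/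
theorem mem_of_fixed {k : Type} [Field k] [Algebra k ℂ] (F F' : IntermediateField k ℂ)
    (hle : F ≤ F') [FiniteDimensional k F'] [IsGalois k F'] (x : F')
    (hx : ∀ σ : F' ≃ₐ[k] F', (∀ y : F, ((σ (IntermediateField.inclusion hle y) : F') : ℂ) = y) →
      σ x = x) : (x : ℂ) ∈ F := by
  have hEmem : ∀ y : F', y ∈ F.comap F'.val ↔ (y : ℂ) ∈ F := fun y => Iff.rfl
  have hx0 : x ∈ F.comap F'.val := by
    rw [← IsGalois.fixedField_fixingSubgroup (F.comap F'.val),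
      IntermediateField.mem_fixedField_iff]
    intro σ hσ
    rw [IntermediateField.mem_fixingSubgroup_iff] at hσ
    refine hx σ fun y => ?_
    rw [hσ (IntermediateField.inclusion hle y) ((hEmem _).2 y.2)]
    rfl
  exact (hEmem _).1 hx0

end W_THG

theorem tw_THG (h1 : Sa_NRM) (h2 : Sa_GAL) (h3 : Sa_ACT) (h4 : St_TIN) : Sw_THG := by
  intro A B L Om h hL m hm a H ha hH z hz hz0
  obtain ⟨N, hN⟩ : ∃ N : OO A B, N = m * (a : OO A B) := ⟨_, rfl⟩
  have hea : emb N = emb m * (a : ℂ) := by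
    rw [hN, emb_mul h, emb_intCast h]
  have hN0 : N ≠ 0 := by
    intro h0
    have h5 : emb N = 0 := by rw [h0, emb_zero h]
    rw [hea] at h5
    rcases mul_eq_zero.1 h5 with h6 | h6
    · exact emb_ne_zero h hm h6
    · exact ha (by exact_mod_cast h6)
  have hmN : m ∣ N := by
    rw [hN]
    exact dvd_mul_right _ _
  have hle : TF L m ≤ TF L N := by
    apply IntermediateField.adjoin.mono
    rintro c ⟨y, hy, hy0, hc⟩
    refine ⟨y, ?_, hy0, hc⟩
    rw [hea]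
    have e : emb m * (a : ℂ) * y = (a : ℂ) * (emb m * y) := by ring
    rw [e]
    exact W_THG.lat_int L a hy
  obtain ⟨hfd, hgal⟩ := h1 A B L Om h hL N hN0
  obtain ⟨hmem, hact⟩ := W_THG.theta_act h hL.toIsLat h4 m a H hH z hz hz0 (TF L N)
    (by rw [← hN])
  rw [← hN] at hact
  obtain ⟨c1, -, -, -, -, -, c7, c8⟩ := h3 A B L Om h hL m hm
  obtain ⟨-, -, d3, -, -, -, -, -⟩ := h3 A B L Om h hL N hN0
  -- congruent elements give the same value
  have hcong : ∀ b b' : OO A B, m ∣ b' - b →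
      ThetaH L H (emb b' * z) = ThetaH L H (emb b * z) := by
    rintro b b' ⟨t, ht⟩
    have e : emb b' * z = emb b * z + emb t * (emb m * z) := by
      have h5 := congrArg emb ht
      rw [emb_sub h, emb_mul h] at h5
      linear_combination z * h5
    rw [e]
    exact (h4 L a H H hH hH).2.2 _ _ (hL.toIsLat.emb_mul_mem h t hz)
  -- membership
  have hz' : ThetaH L H z ∈ TF L m := by
    refine W_THG.mem_of_fixed (TF L m) (TF L N) hle ⟨ThetaH L H z, hmem⟩ fun σ hσ => ?_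
    obtain ⟨b, hb⟩ := h2 A B L Om h hL N hN0 (TF L N) le_rfl (_root_.Pool.Agent.MU3A.em σ)
    have hv := hact (_root_.Pool.Agent.MU3A.em σ) b hb
    have hb' : Act L ((_root_.Pool.Agent.MU3A.em σ).comp (IntermediateField.inclusion hle)) m b :=
      c8 _ _ hle _ _ (d3 _ _ _ _ hmN hb)
    have heq : (_root_.Pool.Agent.MU3A.em σ).comp (IntermediateField.inclusion hle) =
        _root_.Pool.Agent.MU3A.em (1 : TF L m ≃ₐ[kk A B] TF L m) := AlgHom.ext fun y => hσ y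
    rw [heq] at hb'
    have h5 := c1 _ _ _ _ le_rfl hb' (c7 _ le_rfl)
    apply Subtype.ext
    have h6 : _root_.Pool.Agent.MU3A.em σ ⟨ThetaH L H z, hmem⟩ = ThetaH L H z := by
      rw [hv, hcong 1 b h5, emb_one h, one_mul]
    exact h6
  refine ⟨hz', fun σ b hσ => ?_⟩
  -- extend the embedding
  obtain ⟨σ', hσ'⟩ := W_THG.ext_hom (TF L m) (TF L N) hle σ
  obtain ⟨b', hb'⟩ := h2 A B L Om h hL N hN0 (TF L N) le_rfl σ'
  have hb2 : Act L (σ'.comp (IntermediateField.inclusion hle)) m b' :=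
    c8 _ _ hle _ _ (d3 _ _ _ _ hmN hb')
  rw [hσ'] at hb2
  have h5 := c1 _ _ _ _ le_rfl hb2 hσ
  have h6 := hact σ' b' hb'
  have h7 := DFunLike.congr_fun hσ' (⟨ThetaH L H z, hz'⟩ : TF L m)
  rw [AlgHom.comp_apply] at h7
  rw [← hcong b b' h5, ← h6, ← h7]
  rfl

end

end Pool.Agent.MU3V


end

section

/-!
# MU3, block V: module FIB, `XX` at a higher level is the full inverse image
-/

set_option autoImplicit false

open WeierstrassCurve Polynomial NumberField IsDedekindDomain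

namespace Pool.Agent.MU3V

open _root_.MU3 _root_.Pool.Agent.MU3A _root_.Pool.Agent.MU3B _root_.Pool.Agent.MU3C _root_.Pool.Agent.RI

namespace Fib

/-- restriction of an automorphism to a normal subfield -/
lemma restr {K E : Type*} [Field K] [Field E] [Algebra K E] {F F' : IntermediateField K E}
    (hF : F ≤ F') [Normal K F] (σ : F' ≃ₐ[K] F') :
    ∃ σ' : F ≃ₐ[K] F, ∀ y : F, ((σ' y : F) : E) = ((σ (IntermediateField.inclusion hF y) : F') : E) := by
  let a1 : Algebra F F' := (IntermediateField.inclusion hF).toRingHom.toAlgebra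
  have t1 : IsScalarTower K F F' := IsScalarTower.of_algebraMap_eq fun _ => rfl
  refine ⟨σ.restrictNormal F, fun y => ?_⟩
  have e := AlgEquiv.restrictNormal_commutes σ F y
  exact congrArg (Subtype.val : F' → E) e

variable {A B : ℤ} {L : PeriodPair} {Om : ℂ}

lemma TF_mono (hc : Case A B) (hL : IsCM A B L Om) {m N : OO A B} (h : m ∣ N) :
    TF L m ≤ TF L N := by
  apply IntermediateField.adjoin.mono
  rintro c ⟨z, hz, hz', h1⟩
  refine ⟨z, ?_, hz', h1⟩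
  obtain ⟨t, rfl⟩ := h
  rw [emb_mul hc, mul_comm (emb m), mul_assoc]
  exact hL.toIsLat.emb_mul_mem hc t hz

end Fib

open _root_.Pool.Agent.MU3V.Fib in
theorem tw_FIB (hXXM : Sw_XXM) (hACT : Sa_ACT) (hS5 : Sa_S5) (hNEG : Sa_NEG) (hNRM : Sa_NRM) :
    Sw_FIB := by
  intro A B L Om hc hL m N hm hN hmz hmN D h hD τ x
  rw [hXXM A B L Om hc hL N hN D h τ x, hXXM A B L Om hc hL m hm D h τ x]
  have hF : TF L m ≤ TF L N := TF_mono hc hL hmN
  obtain ⟨fm, gm⟩ := hNRM A B L Om hc hL m hm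
  obtain ⟨fN, gN⟩ := hNRM A B L Om hc hL N hN
  obtain ⟨-, -, a3, -, -, -, -, a8⟩ := hACT A B L Om hc hL N hN
  obtain ⟨-, -, -, -, a5, -, -, -⟩ := hACT A B L Om hc hL m hm
  have hres : ∀ (σ : TF L N ≃ₐ[kk A B] TF L N) (σ' : TF L m ≃ₐ[kk A B] TF L m),
      (∀ y, ((σ' y : TF L m) : ℂ) = ((σ (IntermediateField.inclusion hF y) : TF L N) : ℂ)) →
      ∀ b, Act L (_root_.Pool.Agent.MU3A.em σ) N b → Act L (_root_.Pool.Agent.MU3A.em σ') m b := by
    intro σ σ' h1 b hb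
    have h2 : _root_.Pool.Agent.MU3A.em σ' = (_root_.Pool.Agent.MU3A.em σ).comp (IntermediateField.inclusion hF) := AlgHom.ext h1
    rw [h2]
    exact a3 _ _ _ _ hmN (a8 _ _ hF _ _ hb)
  constructor
  · rintro ⟨σ, hσ, hext⟩
    obtain ⟨σ', hσ'⟩ := restr hF σ
    refine ⟨hσ.1, σ', hres σ σ' hσ' x hσ, ?_⟩
    intro y hy
    rw [hσ']
    exact hext y (hF hy)
  · rintro ⟨hcop, τ', hτ', hext⟩
    obtain ⟨σ, hσ⟩ := hS5 A B L Om hc hL N hN (TF L N) le_rfl x hcop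
    obtain ⟨σ', hσ'⟩ := restr hF σ
    rcases hσ with hσ | hσ
    · have h1 := hres σ σ' hσ' x hσ
      have h2 : _root_.Pool.Agent.MU3A.em σ' = _root_.Pool.Agent.MU3A.em τ' := a5 _ _ _ h1 hτ'
      refine ⟨σ, hσ, ?_⟩
      intro y hy
      have hy' : (y : ℂ) ∈ TF L m := hD _ y.2
      have h3 : (_root_.Pool.Agent.MU3A.em σ') ⟨y, hy'⟩ = (_root_.Pool.Agent.MU3A.em τ') ⟨y, hy'⟩ := by rw [h2]
      have h4 := hext y hy'
      have h5 := hσ' ⟨y, hy'⟩
      exact (h5.symm.trans h3).trans h4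
    · exfalso
      have h1 := hres σ σ' hσ' (-x) hσ
      obtain ⟨-, n2, -⟩ := hNEG A B L Om hc hL m hm hmz
      exact (n2 (TF L m) le_rfl x hτ'.1).1 ⟨τ', hτ'⟩ ⟨σ', h1⟩

end Pool.Agent.MU3V


end

section

/-!
# MU3, block V, INV: automorphisms which are trivial modulo `V`
-/

set_option autoImplicit false

namespace Pool.Agent.MU3V

open _root_.MU3 _root_.Pool.Agent.MU3A _root_.Pool.Agent.MU3B _root_.Pool.Agent.MU3C

noncomputable section

/-- an automorphism which is trivial modulo `V` acts trivially on `E[m]` -/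
theorem tw_INV (hD : Sw_DIF) (hG : Sa_GAL) (hA : Sa_ACT) : Sw_INV := by
  intro A B L Om ξ h hL hξ V h2 m hm hE F hF σ hσ
  obtain ⟨a, ha⟩ := hG A B L Om h hL m hm F hF (_root_.Pool.Agent.MU3A.em σ)
  refine (hA A B L Om h hL m hm).2.1 F (_root_.Pool.Agent.MU3A.em σ) a 1 ?_ ha
  by_cases hu : IsUnit m
  · exact hu.dvd
  have hm0 := emb_ne_zero h hm
  have hz : Om / emb m ∉ L.lattice := by
    intro h0
    apply hu
    rw [isUnit_iff_dvd_one, ← hL.toIsLat.mul_div_mem_iff h hm 1, emb_one h, one_mul]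
    exact h0
  have hmz : emb m * (Om / emb m) ∈ L.lattice := by
    rw [mul_div_cancel₀ _ hm0, hL.mem]
    exact ⟨1, by rw [emb_one h, mul_one]⟩
  have hmaz : emb m * (emb a * (Om / emb m)) ∈ L.lattice := by
    rw [mul_left_comm]
    exact hL.toIsLat.emb_mul_mem h a hmz
  obtain ⟨haz, hx, hy⟩ := ha.2 _ hmz hz
  have hz1 : ¬ InE1 A B V L (Om / emb m) := fun h0 => hz (hE _ hmz h0)
  have hz2 : ¬ InE1 A B V L (emb a * (Om / emb m)) := fun h0 => haz (hE _ hmaz h0)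
  have hxF : xx A B L (Om / emb m) ∈ F :=
    hF (IntermediateField.subset_adjoin _ _ ⟨_, hmz, hz, Or.inl rfl⟩)
  have hyF : yy L (Om / emb m) ∈ F :=
    hF (IntermediateField.subset_adjoin _ _ ⟨_, hmz, hz, Or.inr rfl⟩)
  have hx1 : V.valuation (xx A B L (emb a * (Om / emb m)) - xx A B L (Om / emb m)) < 1 := by
    have h3 := hσ ⟨_, hxF⟩ ((ValuationSubring.valuation_le_one_iff _ _).1 (int_x hz1).2)
    rw [ValuationSubring.mem_nonunits_iff] at h3
    have h4 := hx hxF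
    change ((σ ⟨_, hxF⟩ : F) : ℂ) = _ at h4
    rwa [h4] at h3
  have hy1 : V.valuation (yy L (emb a * (Om / emb m)) - yy L (Om / emb m)) < 1 := by
    have h3 := hσ ⟨_, hyF⟩ ((ValuationSubring.valuation_le_one_iff _ _).1 (int_yy h h2 hξ hz1))
    rw [ValuationSubring.mem_nonunits_iff] at h3
    have h4 := hy hyF
    change ((σ ⟨_, hyF⟩ : F) : ℂ) = _ at h4
    rwa [h4] at h3
  have h5 := hD A B L Om ξ h hL hξ V h2 _ _ hz2 hz1 hx1 hy1
  have h6 := hE _ (by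
    rw [mul_sub]
    exact sub_mem hmaz hmz) h5
  rw [← hL.toIsLat.mul_div_mem_iff h hm, emb_sub h, emb_one h, sub_mul, one_mul]
  exact h6

end

end Pool.Agent.MU3V


end

section

/-!
# MU3, block V: module DIF, points with congruent coordinates differ by an element of `E₁`
-/

set_option autoImplicit false

open WeierstrassCurve

namespace Pool.Agent.MU3V

open _root_.MU3 _root_.Pool.Agent.MU3A _root_.Pool.Agent.MU3B _root_.Pool.Agent.MU3C
open _root_.Pool.Agent.MU3.Val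

noncomputable section

/-- DIF. -/
theorem tw_DIF : Sw_DIF := by
  intro A B L Om ξ h _ hξ V h2 z z' hz hz' hx hy
  by_contra hm
  -- `z + z'` is in the kernel of reduction
  have hp : InE1 A B V L (z + z') := by
    by_contra hp
    have := v_xx_sub h h2 hξ hz hz' hp hm
    rw [this] at hx
    exact lt_irrefl _ hx
  have hnz' : ¬ InE1 A B V L (-z') := by
    intro h1
    apply hz'
    have := inE1_neg hξ h1
    rwa [neg_neg] at this
  have h1 := (near_lt h h2 hξ hnz' hp).2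
  have e1 : -z' + (z + z') = z := by ring
  have e2 : yy L (-z') = -yy L z' := by
    unfold yy
    rw [L.derivWeierstrassP_neg]
    ring
  rw [e1, e2, sub_neg_eq_add] at h1
  have h3 : V.valuation (yy L z') < 1 := by
    have e3 : 2 * yy L z' = (yy L z + yy L z') - (yy L z - yy L z') := by ring
    have h4 : V.valuation (2 * yy L z') < 1 := by
      rw [e3]
      exact lt_of_le_of_lt (V.valuation.map_sub _ _) (max_lt h1 hy)
    rwa [map_mul, h2, one_mul] at h4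
  have h5 : InE1 A B V L (z' + z') := by
    by_contra h6
    obtain ⟨h7, e7⟩ := hξ.some z' (int_x hz').1
    have h8 : V.valuation (yy L z') = 1 := by
      apply v_y_unit (intW h h2) h2 (v_disc h h2) h7
      · rw [← e7, inE_iff hξ]
        exact hz'
      · rw [← e7, ← map_add, inE_iff hξ]
        exact h6
    rw [h8] at h3
    exact lt_irrefl _ h3
  apply hm
  have e4 : z - z' = (z + z') - (z' + z') := by ring
  rw [e4]
  exact inE1_sub h h2 hξ hp h5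

end

end Pool.Agent.MU3V


end
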