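import Mathlib

/-! Parts: Lib_helper28.FROB.Euler, MU3.StD, MU3.StD2, Lib_helper28.FROB.Count, Lib_helper28.FROB.Log, Lib_helper28.FROB.Zeta, MU3.MTHD, MU3.MLBD, MU3.MZCL, Lib_helper28.FROB.Local, Lib_helper28.FROB.Fiber -/

namespace Pool.Agent.Lib_helper28.FROB
end Pool.Agent.Lib_helper28.FROB

section

/-!
# The two inequalities of the Euler product of the Dedekind zeta function
-/

open NumberField IsDedekindDomain Ideal
open scoped ENNReal

namespace Pool.Agent.Lib_helper28.FROB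

variable {K : Type*} [Field K] [NumberField K]

/-- `N(I)^(-s)` -/
noncomputable def F (s : ℝ) (I : Ideal (𝓞 K)) : ℝ≥0∞ := ENNReal.ofReal ((absNorm I : ℝ) ^ (-s))

/-- the sum over all nonzero ideals -/
noncomputable def Z (K : Type*) [Field K] [NumberField K] (s : ℝ) : ℝ≥0∞ :=
  ∑' I : {I : Ideal (𝓞 K) // I ≠ ⊥}, F s I.1

/-- `N(v)^(-s)` -/
noncomputable def x (s : ℝ) (v : HeightOneSpectrum (𝓞 K)) : ℝ := (absNorm v.asIdeal : ℝ) ^ (-s)

theorem F_one (s : ℝ) : F s (1 : Ideal (𝓞 K)) = 1 := by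
  simp [F]

theorem F_mul (s : ℝ) (I J : Ideal (𝓞 K)) : F s (I * J) = F s I * F s J := by
  unfold F
  rw [map_mul, Nat.cast_mul, Real.mul_rpow (Nat.cast_nonneg _) (Nat.cast_nonneg _),
    ENNReal.ofReal_mul (Real.rpow_nonneg (Nat.cast_nonneg _) _)]

theorem F_pow (s : ℝ) (I : Ideal (𝓞 K)) (k : ℕ) : F s (I ^ k) = F s I ^ k := by
  induction k with
  | zero => rw [pow_zero, pow_zero, F_one]
  | succ k ih => rw [pow_succ, pow_succ, F_mul, ih]

theorem F_prod (s : ℝ) (t : Finset (HeightOneSpectrum (𝓞 K))) :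
    F s (∏ v ∈ t, v.asIdeal) = ∏ v ∈ t, F s v.asIdeal := by
  classical
  induction t using Finset.induction_on with
  | empty => rw [Finset.prod_empty, Finset.prod_empty, F_one]
  | insert v t hv ih => rw [Finset.prod_insert hv, Finset.prod_insert hv, F_mul, ih]

theorem dvd_asIdeal {v w : HeightOneSpectrum (𝓞 K)} (h : v.asIdeal ∣ w.asIdeal) : v = w := by
  apply HeightOneSpectrum.ext
  have h1 : w.asIdeal ≤ v.asIdeal := Ideal.dvd_iff_le.mp h
  exact (w.isMaximal.eq_of_le v.isPrime.ne_top h1).symm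

theorem dvd_prod {v : HeightOneSpectrum (𝓞 K)} {t : Finset (HeightOneSpectrum (𝓞 K))} :
    v.asIdeal ∣ ∏ w ∈ t, w.asIdeal ↔ v ∈ t := by
  constructor
  · intro h
    obtain ⟨w, hw, h'⟩ := (Prime.dvd_finsetProd_iff v.prime _).mp h
    rwa [dvd_asIdeal h']
  · intro h
    exact Finset.dvd_prod_of_mem _ h

omit [NumberField K] in
theorem prod_ne_bot (t : Finset (HeightOneSpectrum (𝓞 K))) : ∏ w ∈ t, w.asIdeal ≠ ⊥ := by
  rw [← Ideal.zero_eq_bot, Finset.prod_ne_zero_iff]
  intro w _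
  exact w.ne_bot

theorem euler_lower (s : ℝ) (t : Finset (HeightOneSpectrum (𝓞 K))) :
    ∏ v ∈ t, (1 + F s v.asIdeal) ≤ Z K s := by
  classical
  rw [Finset.prod_one_add]
  let φ : Finset (HeightOneSpectrum (𝓞 K)) → {I : Ideal (𝓞 K) // I ≠ ⊥} :=
    fun u => ⟨∏ v ∈ u, v.asIdeal, prod_ne_bot u⟩
  have hφ : Function.Injective φ := by
    intro u u' h
    have h' : ∏ v ∈ u, v.asIdeal = ∏ v ∈ u', v.asIdeal := congrArg Subtype.val h
    ext v
    rw [← dvd_prod, h', dvd_prod]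
  have h1 : ∀ u ∈ t.powerset, ∏ v ∈ u, F s v.asIdeal = F s (φ u).1 := fun u _ => (F_prod s u).symm
  rw [Finset.sum_congr rfl h1, ← Finset.sum_image (f := fun I : {I : Ideal (𝓞 K) // I ≠ ⊥} =>
    F s I.1) (s := t.powerset) (g := φ) (fun a _ b _ h => hφ h)]
  exact ENNReal.sum_le_tsum _

/-- the nonzero ideals all of whose prime divisors are in `t` -/
abbrev AS (t : Finset (HeightOneSpectrum (𝓞 K))) : Type _ :=
  {I : Ideal (𝓞 K) // I ≠ ⊥ ∧ ∀ v : HeightOneSpectrum (𝓞 K), v.asIdeal ∣ I → v ∈ t}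

theorem AS_insert {t : Finset (HeightOneSpectrum (𝓞 K))} {v : HeightOneSpectrum (𝓞 K)}
    [DecidableEq (HeightOneSpectrum (𝓞 K))] (I : AS (insert v t)) :
    ∃ (J : AS t) (k : ℕ), I.1 = J.1 * v.asIdeal ^ k := by
  have hfin : FiniteMultiplicity v.asIdeal I.1 :=
    FiniteMultiplicity.of_not_isUnit v.prime.not_isUnit I.2.1
  obtain ⟨c, hc, hnd⟩ := hfin.exists_eq_pow_mul_and_not_dvd
  refine ⟨⟨c, ?_, ?_⟩, multiplicity v.asIdeal I.1, ?_⟩
  · rintro rfl
    rw [Ideal.mul_bot] at hc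
    exact I.2.1 hc
  · intro w hw
    have h1 : w.asIdeal ∣ I.1 := hc ▸ hw.mul_left _
    rcases Finset.mem_insert.mp (I.2.2 w h1) with h2 | h2
    · subst h2
      exact absurd hw hnd
    · exact h2
  · rw [mul_comm]
    exact hc

theorem euler_upper_aux (s : ℝ) (t : Finset (HeightOneSpectrum (𝓞 K))) :
    ∑' I : AS t, F s I.1 ≤ ∏ v ∈ t, (1 - F s v.asIdeal)⁻¹ := by
  classical
  induction t using Finset.induction_on with
  | empty =>
    have h1 : ∀ I : AS (∅ : Finset (HeightOneSpectrum (𝓞 K))), I.1 = 1 := by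
      intro I
      by_contra h
      obtain ⟨P, hP, hle⟩ := Ideal.exists_le_maximal I.1 (by rwa [← Ideal.one_eq_top])
      have hPb : P ≠ ⊥ := by
        rintro rfl
        exact I.2.1 (le_bot_iff.mp hle)
      exact absurd (I.2.2 ⟨P, hP.isPrime, hPb⟩ (Ideal.dvd_iff_le.mpr hle)) (Finset.notMem_empty _)
    have : Subsingleton (AS (∅ : Finset (HeightOneSpectrum (𝓞 K)))) :=
      ⟨fun a b => Subtype.ext ((h1 a).trans (h1 b).symm)⟩
    let e : AS (∅ : Finset (HeightOneSpectrum (𝓞 K))) :=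
      ⟨1, one_ne_zero, fun v hv => absurd (isUnit_of_dvd_one hv) v.prime.not_isUnit⟩
    rw [tsum_eq_single e (fun b hb => absurd (Subsingleton.elim b e) hb), Finset.prod_empty]
    exact (F_one s).le
  | insert v t hv ih =>
    rw [Finset.prod_insert hv]
    let φ : AS t × ℕ → AS (insert v t) := fun p => ⟨p.1.1 * v.asIdeal ^ p.2, by
      refine ⟨?_, ?_⟩
      · exact mul_ne_zero (M₀ := Ideal (𝓞 K)) p.1.2.1 (pow_ne_zero _ v.ne_bot)
      · intro w hw
        rcases w.prime.dvd_or_dvd hw with h | h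
        · exact Finset.mem_insert_of_mem (p.1.2.2 w h)
        · rw [dvd_asIdeal (w.prime.dvd_of_dvd_pow h)]
          exact Finset.mem_insert_self _ _⟩
    have hφ : Function.Surjective φ := by
      intro I
      obtain ⟨J, k, h⟩ := AS_insert I
      exact ⟨(J, k), Subtype.ext h.symm⟩
    refine (ENNReal.tsum_le_tsum_comp_of_surjective hφ _).trans ?_
    have h2 : ∀ p : AS t × ℕ, F s (φ p).1 = F s p.1.1 * F s v.asIdeal ^ p.2 := by
      intro p
      show F s (p.1.1 * v.asIdeal ^ p.2) = _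
      rw [F_mul, F_pow]
    rw [tsum_congr h2, ENNReal.tsum_prod']
    simp_rw [ENNReal.tsum_mul_left, ENNReal.tsum_mul_right, ENNReal.tsum_geometric]
    rw [mul_comm]
    gcongr

theorem euler_upper (s : ℝ) (B : ℝ≥0∞)
    (hB : ∀ t : Finset (HeightOneSpectrum (𝓞 K)), ∏ v ∈ t, (1 - F s v.asIdeal)⁻¹ ≤ B) :
    Z K s ≤ B := by
  classical
  unfold Z
  rw [ENNReal.tsum_eq_iSup_sum]
  refine iSup_le fun T => ?_
  let t : Finset (HeightOneSpectrum (𝓞 K)) :=
    T.biUnion fun I => (Ideal.finite_factors I.2).toFinset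
  let ψ : {I // I ∈ T} → AS t := fun I => ⟨I.1.1, I.1.2, fun v hv =>
    Finset.mem_biUnion.mpr ⟨I.1, I.2, (Set.Finite.mem_toFinset _).mpr hv⟩⟩
  have hψ : Function.Injective ψ := by
    intro a b h
    have h' : (ψ a).1 = (ψ b).1 := congrArg Subtype.val h
    exact Subtype.ext (Subtype.ext h')
  have h1 : ∑ I ∈ T, F s I.1 = ∑ I ∈ T.attach, F s (ψ I).1 :=
    (Finset.sum_attach T fun I => F s I.1).symm
  rw [h1, ← Finset.sum_image (f := fun I : AS t => F s I.1) (s := T.attach) (g := ψ)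
    (fun a _ b _ h => hψ h)]
  exact ((ENNReal.sum_le_tsum _).trans (euler_upper_aux s t)).trans (hB t)

end Pool.Agent.Lib_helper28.FROB


end

section

/-!
# MU3, block D: prime ideals in ideal classes with a splitting condition

Main statements: `Stmt_DENS` (the degree one primes of `L` which do not split completely in `M`,
`[M : L] ≥ 3`, generate the class group of `L`) and `Stmt_THD` (the same with the condition that a
given element is not a cube).

Every `def Stmt_X : Prop` is the statement of a module, the doc string contains the proof; the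
module proves `theorem m_X : Stmt_Y → ... → Stmt_X`. Tools: `Pool/Agent/Lib_helper28/FROB`
(`x s v = N(v)^(-s)`, `summable_x`, `x_pos`, `x_le`, `Z K s`, `isBigO_sum`, `tendsto_Z`, `norm_eq`,
`pr`, `dg`, `card_fiber_le`, `tsum_pr_le`).

Notation: `d = [K : ℚ]`, `r = rank K`, `s` is real. All sums are absolutely convergent for `s > 1`.
-/

open NumberField IsDedekindDomain Ideal Filter Topology
open NumberField.Units NumberField.mixedEmbedding NumberField.Units.dirichletUnitTheorem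
open scoped nonZeroDivisors

namespace Pool.Agent.MU3

open _root_.Pool.Agent.Lib_helper28.FROB

/-! ### The cut-off function -/

/-- The tent function. -/
noncomputable def tent (y : ℝ) : ℝ := max 0 (1 - |y|)

open scoped Classical in
/-- The coordinates of the logarithmic vector of `a`, projected to the norm one part, in the basis
of the unit lattice. -/
noncomputable def lc (K : Type) [Field K] [NumberField K] (a : 𝓞 K) : Fin (Units.rank K) → ℝ :=
  fun i => ((basisUnitLattice K).ofZLatticeBasis ℝ (unitLattice K)).repr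
    (logMap (mixedEmbedding K (a : K))) i

/-- The cut-off function: the sum of `rho` over an orbit of the unit group is the number of roots
of unity. -/
noncomputable def rho (K : Type) [Field K] [NumberField K] (a : 𝓞 K) : ℝ :=
  ∏ i, tent (lc K a i)

/-- `|N a|` as a real number. -/
noncomputable def an (K : Type) [Field K] [NumberField K] (a : 𝓞 K) : ℝ :=
  (absNorm (span {a}) : ℝ)

/-- `f_s(a) = rho(a) |N a|^(-s)`; it is `0` for `a = 0` and `s ≠ 0`. -/
noncomputable def fs (K : Type) [Field K] [NumberField K] (s : ℝ) (a : 𝓞 K) : ℝ :=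
  rho K a * an K a ^ (-s)

open scoped Classical in
/-- The sup norm of `a` in the mixed space. -/
noncomputable def nr (K : Type) [Field K] [NumberField K] (a : 𝓞 K) : ℝ :=
  ‖mixedEmbedding K (a : K)‖

/-- `1 + ‖a‖`. -/
noncomputable def sz (K : Type) [Field K] [NumberField K] (a : 𝓞 K) : ℝ := 1 + nr K a

/-- PU: partition of unity.
Proof. `tent` is `≥ 0`, vanishes for `|y| ≥ 1`, and for every real `y` the sum of `tent (y + n)` over
`n : ℤ` is `1` (only `n = -⌊y⌋`, `n = -⌊y⌋ - 1` contribute: `1 - t` and `t`, `t = y - ⌊y⌋`). Every unit is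
uniquely `ζ * ∏ i, fundSystem K i ^ e i` (`NumberField.Units.exist_unique_eq_mul_prod`), an equivalence of
`(𝓞 K)ˣ` with `torsion K × (Fin (rank K) → ℤ)`. By `logMap_unit_smul`
(`u • mixedEmbedding K a = mixedEmbedding K (u * a)`, norm of `a` not `0`) `logMap` of `u a` is
`logEmbedding u + logMap a`, `logEmbedding` kills torsion and `logEmbedding (fundSystem K i)` is
`basisUnitLattice K i`, whose `repr` is the `i`-th unit vector: `lc (u a) i = lc a i + e i`.
So the sum is `#torsion * ∑_e ∏_i tent (lc a i + e i) = #torsion * ∏_i ∑_(n : ℤ) tent (lc a i + n)`; only the `e` in a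
finite box contribute (`Finset.prod_univ_sum` over `Fintype.piFinset`, `tsum_eq_sum`,
`summable_of_finite_support`). -/
def Stmt_PU : Prop := ∀ (K : Type) [Field K] [NumberField K] (a : 𝓞 K), a ≠ 0 →
    Summable (fun u : (𝓞 K)ˣ => rho K (u * a)) ∧
    ∑' u : (𝓞 K)ˣ, rho K (u * a) = torsionOrder K

/-- CONE: on the support of `rho` all absolute values are comparable.
Proof. `a ≠ 0`, `rho a ≠ 0` gives `|lc a i| < 1` for all `i`, so `logMap a = ∑ lc a i • b_i` is bounded by a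
constant `C₀` independent of `a`, so `|log |a|_w - (1/d) log |N a|| ≤ C₀` for `w ≠ w₀`, and for `w₀` by
`∑_w mult w * log |a|_w = log |N a|` (`mixedEmbedding.norm`), `∑_w mult w = d`. So with `n = |N a|^(1/d)`:
`e^(-C) n ≤ |a|_w ≤ e^C n` for all `w`; `‖a‖` is the maximum of the `|a|_w`
(`mixedEmbedding.norm_eq_sup'_normAtPlace`), and `w a = |a|_w = normAtPlace w (mixedEmbedding K a)`. -/
def Stmt_CONE : Prop := ∀ (K : Type) [Field K] [NumberField K], ∃ c : ℝ, 0 < c ∧
    ∀ a : 𝓞 K, a ≠ 0 → rho K a ≠ 0 → ∀ w : InfinitePlace K,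
      c * nr K a ≤ w (a : K)

/-- LLIP: Lipschitz estimate of the coordinates: if `a`, `b ≠ 0` and `|b|_w / |a|_w` is in
`[e^(-t), e^t]` for all `w` then `lc` changes by at most `C t`, `rho` by at most `C t`.
Proof. `lc b i - lc a i` is the `i`-th coordinate of `logMap b - logMap a`, whose components are at most
`2 * d * t` in absolute value (`logMap_apply`, `log |N b| - log |N a| = ∑ mult w * (log |b|_w - log |a|_w)`); the
coordinates are linear, hence bounded by a constant times the norm. `rho` is a product of numbers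
in `[0, 1]` and `|tent y - tent y'| ≤ |y - y'|`, so `|rho b - rho a| ≤ ∑_i |lc b i - lc a i|`
(induction over the product). -/
def Stmt_LLIP : Prop := ∀ (K : Type) [Field K] [NumberField K], ∃ C : ℝ, 0 ≤ C ∧
    ∀ (a b : 𝓞 K) (t : ℝ), a ≠ 0 → b ≠ 0 → 0 ≤ t →
      (∀ w : InfinitePlace K, |Real.log (w (b : K)) - Real.log (w (a : K))| ≤ t) →
      |rho K b - rho K a| ≤ C * t

/-- LIP: the Lipschitz estimate.
Proof (from CONE, LLIP). Let `R = ‖r‖`, `c` from CONE (`c ≤ 1`). For `‖a‖ ≤ 4 (R + 1) / c` (and for `a = 0` or `a + r = 0`) use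
`0 ≤ f_s ≤ 1` (`0 ≤ rho ≤ 1`, `|N a| ≥ 1` for `a ≠ 0`): the difference is at most `1 ≤ C sz(a)^(-(d+1))`, `C` large.
Otherwise `a`, `a + r ≠ 0`, `‖a + r‖ ≥ ‖a‖ / 2`, `‖a + r‖ ≤ 2 ‖a‖`. If `rho a = rho (a + r) = 0` nothing is to be
shown. If `rho a ≠ 0`: `|a|_w ≥ c ‖a‖` for all `w`, `|r|_w ≤ R`; if only `rho (a + r) ≠ 0`:
`|a + r|_w ≥ c ‖a + r‖ ≥ c ‖a‖ / 2`, `|a|_w ≥ c ‖a‖ / 2 - R ≥ c ‖a‖ / 4`. So in both cases `|a|_w ≥ c ‖a‖ / 4` and
`|a + r|_w ≥ c ‖a‖ / 4` (and `|a + r|_w` and `|a|_w` differ by at most `R`), so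
`|log |a + r|_w - log |a|_w| ≤ t := 4 R / (c ‖a‖)` (mean value, or `log (1 + y) ≤ y`). LLIP:
`|rho (a + r) - rho a| ≤ C t`. `|N|^(-s) = exp (-s ∑ mult w * log |·|_w)`: both values are at most
`(c ‖a‖ / 4)^(-d s) ≤ C' ‖a‖^(-d)` (`s ∈ [1,2]`, `‖a‖ ≥ 1`) and their ratio is in `[e^(-2dt), e^(2dt)]`, `t ≤ 1`, so the
difference is at most `C'' t ‖a‖^(-d)`. Together `|f_s (a + r) - f_s a| ≤ C ‖a‖^(-d-1)`, `sz a ≤ 2 ‖a‖`. -/
def Stmt_LIP : Prop := ∀ (K : Type) [Field K] [NumberField K] (r : 𝓞 K), ∃ C : ℝ, 0 ≤ C ∧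
    ∀ (s : ℝ) (a : 𝓞 K), 1 ≤ s → s ≤ 2 →
      |fs K s (a + r) - fs K s a| ≤ C * sz K a ^ (-((Module.finrank ℚ K : ℝ) + 1))

/-- SZS: convergence.
Proof. `ZLattice.summable_norm_rpow` for the lattice `mixedEmbedding.integerLattice K` (image of `𝓞 K`, of
rank `d`) and `r = -(d + 1)`; the map `𝓞 K → lattice` is a bijection; `sz a ≥ ‖a‖` and the term of
`a = 0` is harmless. The same for `(1 + ‖a‖)^(-t)` with every `t > d`. -/
def Stmt_SZS : Prop := ∀ (K : Type) [Field K] [NumberField K] (t : ℝ),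
    (Module.finrank ℚ K : ℝ) < t → Summable (fun a : 𝓞 K => sz K a ^ (-t))

/-- FSUM: `∑ f_s` converges for `s > 1`.
Proof (from CONE, SZS). For `a ≠ 0` with `rho a ≠ 0`: `|N a| = ∏ |a|_w^(mult w) ≥ (c ‖a‖)^d`, `‖a‖ ≥ 1` (as
`|N a| ≥ 1` and all `|a|_w ≤ ‖a‖`), so `f_s a ≤ |N a|^(-s) ≤ c^(-ds) ‖a‖^(-ds) ≤ C sz(a)^(-ds)`, `d s > d`. -/
def Stmt_FSUM : Prop := ∀ (K : Type) [Field K] [NumberField K] (s : ℝ), 1 < s →
    Summable (fs K s)

/-- CMP: comparison of the sum over an ideal with the sum over all integers.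
Proof (from LIP, SZS, FSUM). `𝓞 K` is the disjoint union of the `b + r`, `r` in a set of `N b` representatives,
so `∑_{𝓞 K} f_s = ∑_r ∑_{a ∈ b} f_s (a + r)` and the difference to `N b ∑_{a ∈ b} f_s a` is at most
`∑_r ∑_{a ∈ b} |f_s (a + r) - f_s a| ≤ ∑_r C_r ∑_{a : 𝓞 K} sz(a)^(-(d+1))`. -/
def Stmt_CMP : Prop := ∀ (K : Type) [Field K] [NumberField K] (b : Ideal (𝓞 K)), b ≠ ⊥ →
    ∃ C : ℝ, ∀ s : ℝ, 1 < s → s ≤ 2 →
      |(absNorm b : ℝ) * ∑' a : b, fs K s (a : 𝓞 K) - ∑' a : 𝓞 K, fs K s a| ≤ C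

/-- CLS: the partial zeta function of a class as a sum over the elements of an ideal.
Proof (from PU, FSUM). Let `[b] = c⁻¹`. For `I` in the class `c` the ideal `I b` is principal, choose a generator
`g I`. `(I, u) ↦ u * g I` is a bijection from `{I // [I] = c} × (𝓞 K)ˣ` onto the nonzero elements of `b` (if `0 ≠ a ∈ b` then
`(a) = I b` for a unique `I`, `Ideal.dvd_iff_le`, `[I] = c`, `a = u * g I`; `u` is unique as `g I ≠ 0`). The terms with `a = 0` vanish.
`∑_{a ∈ b} f_s a = ∑_I ∑_u rho (u g I) |N (I b)|^(-s) = ∑_I w N(b)^(-s) N(I)^(-s)` (PU; `absNorm` is multiplicative;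
all terms are nonnegative: `Summable.tsum_prod`, or in `ℝ≥0∞`). -/
def Stmt_CLS : Prop := ∀ (K : Type) [Field K] [NumberField K] (c : ClassGroup (𝓞 K))
    (b : (Ideal (𝓞 K))⁰), ClassGroup.mk0 b = c⁻¹ → ∀ s : ℝ, 1 < s →
    (torsionOrder K : ℝ) * (absNorm (b : Ideal (𝓞 K)) : ℝ) ^ (-s) *
      ∑' I : {I : (Ideal (𝓞 K))⁰ // ClassGroup.mk0 I = c},
        (absNorm (I.1 : Ideal (𝓞 K)) : ℝ) ^ (-s) =
    ∑' a : (b : Ideal (𝓞 K)), fs K s (a : 𝓞 K)

/-- `N(I)^(-s)`. -/
noncomputable def iN (K : Type) [Field K] [NumberField K] (s : ℝ) (I : (Ideal (𝓞 K))⁰) : ℝ :=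
  (absNorm (I : Ideal (𝓞 K)) : ℝ) ^ (-s)

/-- ISUM: convergence of the Dedekind zeta function over the ideals.
Proof. `Z K s` of `Pool/Agent/Lib_helper28/FROB` is finite (`Z_le`), the second part is `tendsto_Z`:
`(s - 1) Z(s)` tends to the residue, so it is bounded near `1`. -/
def Stmt_ISUM : Prop := ∀ (K : Type) [Field K] [NumberField K],
    (∀ s : ℝ, 1 < s → Summable (iN K s)) ∧
    ∃ C : ℝ, ∀ᶠ s : ℝ in 𝓝[>] 1, (s - 1) * ∑' I, iN K s I ≤ C

/-- ZCL: all partial zeta functions agree up to `O(1)`.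
Proof (from CLS, CMP, ISUM). Let `w = torsionOrder K`, `S(s) = ∑_{𝓞 K} f_s`; `CLS` for `c = 1`, `b = 1` (`⊤`) gives
`w ζ(s,1) = S(s)`. For `c` take an integral `b` in `c⁻¹` (`ClassGroup.mk0_surjective`): by CLS, CMP
`|w N(b)^(1-s) ζ(s,c) - S(s)| ≤ C`. `N(b)^(1-s)` is in `(0, 1]` and `1 - N(b)^(1-s) ≤ (s - 1) log N(b)`, and
`(s - 1) ζ(s,c) ≤ (s - 1) ∑_I N(I)^(-s)` is bounded near `1` (ISUM). So `|w ζ(s,c) - S(s)| ≤ C'`. -/
def Stmt_ZCL : Prop := ∀ (K : Type) [Field K] [NumberField K] (c : ClassGroup (𝓞 K)),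
    ∃ C : ℝ, ∀ᶠ s : ℝ in 𝓝[>] 1,
      |∑' I : {I : (Ideal (𝓞 K))⁰ // ClassGroup.mk0 I = c}, iN K s I.1 -
        ∑' I : {I : (Ideal (𝓞 K))⁰ // ClassGroup.mk0 I = 1}, iN K s I.1| ≤ C

/-- The Dirichlet series of a character of the class group. -/
noncomputable def Lf (K : Type) [Field K] [NumberField K] (η : ClassGroup (𝓞 K) →* ℂˣ) (s : ℝ) :
    ℂ := ∑' I : (Ideal (𝓞 K))⁰, (η (ClassGroup.mk0 I) : ℂ) * (iN K s I : ℂ)

/-- LBD: `L(s, η)` is bounded near `1` if `η ≠ 1`.
Proof (from ZCL, ISUM). `L(s, η) = ∑_c η(c) ζ(s,c)` (fiberwise summation, the class group is finite) and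
`∑_c η(c) = 0` (`sum_hom_units_eq_zero` or multiply by `η(c₀) ≠ 1`), so `|L(s, η)| = |∑_c η(c) (ζ(s,c) - ζ(s,1))|`
is at most `∑_c C_c` (`|η(c)| = 1`: `η(c)` is a root of unity). -/
def Stmt_LBD : Prop := ∀ (K : Type) [Field K] [NumberField K] (η : ClassGroup (𝓞 K) →* ℂˣ),
    η ≠ 1 → ∃ C : ℝ, ∀ᶠ s : ℝ in 𝓝[>] 1, ‖Lf K η s‖ ≤ C

/-! ### Euler product -/

/-- The class of a prime. -/
noncomputable def cl (K : Type) [Field K] [NumberField K] (v : HeightOneSpectrum (𝓞 K)) :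
    ClassGroup (𝓞 K) :=
  ClassGroup.mk0 ⟨v.asIdeal, mem_nonZeroDivisors_iff_ne_zero.mpr v.ne_bot⟩

/-- EP: lower bound from the Euler product.
Proof (from ISUM). `g(I) = η(I) N(I)^(-s)` is completely multiplicative on `(Ideal (𝓞 K))⁰`, `|g(I)| = N(I)^(-s)` is
summable. For a finite set `t` of primes: `L ∏_{v ∈ t} (1 - g(v)) = L_t := ∑_{I : no v ∈ t divides I} g(I)`, by
induction: `∑_{I : no v ∈ t divides I} g(I)` minus `g(v)` times itself (`v ∉ t`) cancels the `I` divisible by `v`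
(`I ↦ v I` is a bijection from the `I` not divisible by the primes of `t` onto those which in addition are
divisible by `v`). As `t` grows `L_t → g(1) = 1` (only finitely many `I` carry all but `ε` of `∑ N(I)^(-s)`; their prime factors
are in `t` for large `t`). For `v ∈ A`: `0 < 1 - g(v) = 1 - x_v ≤ exp (-x_v)`; for all `v`: `|1 - g(v)| ≤ 1 + x_v ≤ exp (x_v)`,
`x_v = x s v = N(v)^(-s)`. Hence `|L_t| ≤ |L| exp (∑_{v ∈ t, v ∉ A} x_v - ∑_{v ∈ t ∩ A} x_v)`; take the limit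
(`summable_x`). -/
def Stmt_EP : Prop := ∀ (K : Type) [Field K] [NumberField K] (η : ClassGroup (𝓞 K) →* ℂˣ)
    (A : Set (HeightOneSpectrum (𝓞 K))), (∀ v ∈ A, η (cl K v) = 1) → ∀ s : ℝ, 1 < s →
    Real.exp (∑' v, Set.indicator A (x s) v - ∑' v, Set.indicator Aᶜ (x s) v) ≤ ‖Lf K η s‖

/-! ### Splitting and generation of the class group -/

/-- The number of primes of `M` above the prime `v` of `L` with the same norm. -/
noncomputable def spl (L M : Type) [Field L] [NumberField L] [Field M] [NumberField M]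
    [Algebra L M] (v : HeightOneSpectrum (𝓞 L)) : ℕ :=
  Nat.card {w : HeightOneSpectrum (𝓞 M) //
    w.asIdeal.under (𝓞 L) = v.asIdeal ∧ absNorm w.asIdeal = absNorm v.asIdeal}

/-- SPLS: primes with `m` primes of the same norm above have density at most `1 / m`.
Proof. For `v ∈ B` the `m` (at least) primes `w` above `v` of the same norm: `m ∑_{v ∈ B} x s v ≤ ∑_w x s w` (the
sets of the `w` above different `v` are disjoint; `Fin m` embeds into the set of the `w`, which is finite, being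
nonempty of nonzero `Nat.card` for `m ≥ 1`; injection `B × Fin m → HeightOneSpectrum (𝓞 M)`,
`Summable.tsum_le_tsum_of_inj`). Then `isBigO_sum` for `M`. -/
def Stmt_SPLS : Prop := ∀ (L M : Type) [Field L] [NumberField L] [Field M] [NumberField M]
    [Algebra L M] (m : ℕ) (B : Set (HeightOneSpectrum (𝓞 L))), (∀ v ∈ B, m ≤ spl L M v) →
    ∃ C : ℝ, ∀ᶠ s : ℝ in 𝓝[>] 1,
      (m : ℝ) * ∑' v, Set.indicator B (x s) v ≤ Real.log (1 / (s - 1)) + C

/-- DEG2: the primes of degree at least two (norm not a prime number) contribute `O(1)`.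
Proof. `norm_eq`: `N(v) = pr(v)^(dg v)`, `dg v ≥ 2` if `N(v)` is not prime, so `x s v ≤ pr(v)^(-2 s) ≤ pr(v)^(-2)`, summable
by `summable_pr` (compare `sum_tb` in `Lib_helper28/FROB/Sum.lean`). -/
def Stmt_DEG2 : Prop := ∀ (L : Type) [Field L] [NumberField L]
    (B : Set (HeightOneSpectrum (𝓞 L))),
    (∀ v ∈ B, ¬ (absNorm v.asIdeal).Prime) → ∃ C : ℝ, ∀ s : ℝ, 1 < s →
      ∑' v, Set.indicator B (x s) v ≤ C

/-- DENS: the degree one primes which do not split completely generate the class group.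
Proof (from LBD, EP, SPLS, DEG2). If `H ≠ ⊤` there is a character `η ≠ 1` of the finite abelian group
`ClassGroup (𝓞 L)` trivial on `H` (Mathlib: `CommGroup.exists_apply_ne_one_of_hasEnoughRootsOfUnity` on the quotient by `H`; `ℂ` has
enough roots of unity). Let `A = {v | η (cl v) = 1}`. `Aᶜ` is contained in `B₁ ∪ B₂ ∪ S`, `B₁` = the `v` with
`m ≤ spl L M v`, `B₂` = the `v` with `N(v)` not prime. So near `1`, with `Λ = log (1 / (s - 1))`:
`∑_{Aᶜ} x ≤ Λ / m + C` (SPLS, DEG2, `S` finite, `x ≤ 1`), `∑_A x + ∑_{Aᶜ} x = ∑_v x ≥ Λ - C` (`isBigO_sum`), so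
`∑_A x - ∑_{Aᶜ} x ≥ (1 - 2 / m) Λ - C' ≥ Λ / 3 - C'`, and `|L(s, η)| ≥ exp (Λ / 3 - C')` (EP), unbounded as `s → 1`
(`Λ → ∞`), which contradicts LBD. -/
def Stmt_DENS : Prop := ∀ (L M : Type) [Field L] [NumberField L] [Field M] [NumberField M]
    [Algebra L M] (m : ℕ), 3 ≤ m → ∀ (S : Set (HeightOneSpectrum (𝓞 L))), S.Finite →
    ∀ H : Subgroup (ClassGroup (𝓞 L)),
    (∀ v : HeightOneSpectrum (𝓞 L), v ∉ S → (absNorm v.asIdeal).Prime → spl L M v < m →
      cl L v ∈ H) → H = ⊤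

/-! ### Kummer extensions -/

/-- KUM: a non-cube gives a cubic extension in which the primes modulo which it is a cube split.
Proof. `X ^ 3 - t` has no root in `L` (a root would be integral over `𝓞 L`, or: hypothesis), so it is irreducible
(`X_pow_sub_C_irreducible_of_prime`), `M = AdjoinRoot (X ^ 3 - C (t : L))` (`Type`), a number field of degree 3 over
`L`, Galois over `L` as `ζ ∈ L` (`isGalois_of_isSplittingField_X_pow_sub_C`), `y ∈ 𝓞 M` the root.
Let `v` be a prime with `3 ∉ v`, `t ∉ v` and `t - a ^ 3 ∈ v`. `t - a ^ 3 = (y - a)(y - ζ a)(y - ζ² a)`. The norm of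
`y - ζ^i a` over `L` is `t - a ^ 3` (conjugates `ζ^j y`), so `y - ζ^i a` is in some prime `w_i` above `v` (otherwise it is a
unit modulo every prime above `v`, or: the norm of an element prime to `v` is prime to `v`; alternatively: `w` a prime above
`v`, it contains some `y - ζ^i a`, and the conjugates `σ^j w` contain the `ζ^j y - ζ^i a`, i.e. `y - ζ^(i-j) a`). If `w_0 = w_1` then
`(1 - ζ) a ∈ w_0 ∩ 𝓞 L = v`, but `a ∉ v` (`t ∉ v`) and `1 - ζ ∉ v` (`3 ∉ v`, `(1 - ζ)(1 - ζ²) = 3`). So there are at least two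
primes above `v`; `g e f = 3` (`Ideal.ncard_primesOver_mul_ramificationIdxIn_mul_inertiaDegIn`), so `g = 3`,
`e = f = 1`, and all three primes have the norm of `v` (`Ideal.absNorm_eq_pow_inertiaDeg`-type lemma in the relative
form, or `#(𝓞 M ⧸ w) = #(𝓞 L ⧸ v)^f`). -/
def Stmt_KUM : Prop := ∀ (L : Type) [Field L] [NumberField L] (ζ t : 𝓞 L),
    IsPrimitiveRoot ζ 3 → (∀ y : L, y ^ 3 ≠ (t : L)) →
    ∃ (M : Type) (_ : Field M) (_ : NumberField M) (_ : Algebra L M),
      ∀ v : HeightOneSpectrum (𝓞 L), (3 : 𝓞 L) ∉ v.asIdeal → t ∉ v.asIdeal →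
        (∃ a : 𝓞 L, t - a ^ 3 ∈ v.asIdeal) → 3 ≤ spl L M v

/-- THD: the classes of the degree one primes modulo which `t` is not a cube generate the class
group.
Proof (from DENS, KUM). `M` from KUM, `m = 3`, `S` enlarged by the finitely many primes containing `3` or `t` (`t ≠ 0`
as `0 = 0 ^ 3`; finiteness: `Ideal.finite_factors` or `HeightOneSpectrum` version). -/
def Stmt_THD : Prop := ∀ (L : Type) [Field L] [NumberField L] (ζ t : 𝓞 L),
    IsPrimitiveRoot ζ 3 → (∀ y : L, y ^ 3 ≠ (t : L)) →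
    ∀ S : Set (HeightOneSpectrum (𝓞 L)), S.Finite →
    ∀ H : Subgroup (ClassGroup (𝓞 L)),
    (∀ v : HeightOneSpectrum (𝓞 L), v ∉ S → (absNorm v.asIdeal).Prime → (3 : 𝓞 L) ∉ v.asIdeal →
      t ∉ v.asIdeal → (∀ a : 𝓞 L, t - a ^ 3 ∉ v.asIdeal) → cl L v ∈ H) → H = ⊤

end Pool.Agent.MU3


end

section

/-!
# MU3, block D: complement
-/

open NumberField IsDedekindDomain Ideal Filter Topology
open scoped nonZeroDivisors

namespace Pool.Agent.MU3

open _root_.Pool.Agent.Lib_helper28.FROB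

/-- NSP: not all degree one primes split.
Proof (from SPLS, DEG2). `∑_v x s v ≤ ∑_{v ∈ B} x s v + O(1)` with `B` = the `v ∉ S` of prime norm, and
`m ∑_B x s v ≤ Λ + C`, `∑_v x s v ≥ Λ - C` (`isBigO_sum`), so `(m - 1) Λ ≤ C'` near `s = 1`, `Λ → ∞`. -/
def Stmt_NSP : Prop := ∀ (L M : Type) [Field L] [NumberField L] [Field M] [NumberField M]
    [Algebra L M] (m : ℕ) (S : Set (HeightOneSpectrum (𝓞 L))), S.Finite →
    (∀ v : HeightOneSpectrum (𝓞 L), v ∉ S → (absNorm v.asIdeal).Prime → m ≤ spl L M v) → m ≤ 1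

end Pool.Agent.MU3


end

section

/-!
# Prime ideals of a number field and the rational primes below them
-/

open NumberField IsDedekindDomain Ideal
open scoped ENNReal

namespace Pool.Agent.Lib_helper28.FROB

section

variable {K : Type*} [Field K]

/-- the rational prime below -/
noncomputable def pr (v : HeightOneSpectrum (𝓞 K)) : ℕ := absNorm (v.asIdeal.under ℤ)

/-- the residue degree over the rational prime below -/
noncomputable def dg (v : HeightOneSpectrum (𝓞 K)) : ℕ := v.asIdeal.inertiaDeg ℤ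

theorem pr_prime (v : HeightOneSpectrum (𝓞 K)) : (pr v).Prime := by
  have : NeZero v.asIdeal := ⟨v.ne_bot⟩
  exact Nat.absNorm_under_prime v.asIdeal

theorem under_eq (v : HeightOneSpectrum (𝓞 K)) : v.asIdeal.under ℤ = span {(pr v : ℤ)} :=
  (Int.ideal_span_absNorm_eq_self _).symm

/-- primes above `p` -/
noncomputable def toOver (p : ℕ) (v : {v : HeightOneSpectrum (𝓞 K) // pr v = p}) :
    (span {(p : ℤ)}).primesOver (𝓞 K) :=
  ⟨v.1.asIdeal, v.1.isPrime, ⟨by rw [under_eq, v.2]⟩⟩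

theorem toOver_inj (p : ℕ) : Function.Injective (toOver (K := K) p) := by
  intro v w h
  apply Subtype.ext
  apply HeightOneSpectrum.ext
  exact congrArg Subtype.val h

end

variable {K : Type*} [Field K] [NumberField K]

theorem norm_eq (v : HeightOneSpectrum (𝓞 K)) : absNorm v.asIdeal = pr v ^ dg v := by
  have : v.asIdeal.LiesOver (span {(pr v : ℤ)}) := Int.liesOver_span_absNorm _
  have h := Ideal.natAbs_pow_inertiaDeg (pr v : ℤ) v.asIdeal
  rw [← h, Int.natAbs_natCast]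
  rfl

theorem dg_pos (v : HeightOneSpectrum (𝓞 K)) : 0 < dg v := Ideal.inertiaDeg_pos _ _

theorem finite_over (p : ℕ) [Fact p.Prime] : Finite ((span {(p : ℤ)}).primesOver (𝓞 K)) :=
  (Algebra.QuasiFinite.finite_primesOver (span {(p : ℤ)})).to_subtype

theorem fiber_finite (p : ℕ) : Finite {v : HeightOneSpectrum (𝓞 K) // pr v = p} := by
  by_cases hp : p.Prime
  · have := Fact.mk hp
    have := finite_over (K := K) p
    exact Finite.of_injective _ (toOver_inj p)
  · have : IsEmpty {v : HeightOneSpectrum (𝓞 K) // pr v = p} := ⟨fun v => hp (v.2 ▸ pr_prime v.1)⟩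
    infer_instance

theorem card_fiber_le (p : ℕ) :
    Nat.card {v : HeightOneSpectrum (𝓞 K) // pr v = p} ≤ Module.finrank ℚ K := by
  by_cases hp : p.Prime
  · have := Fact.mk hp
    have := finite_over (K := K) p
    refine (Nat.card_le_card_of_injective _ (toOver_inj p)).trans ?_
    have := Fintype.ofFinite ((span {(p : ℤ)}).primesOver (𝓞 K))
    rw [← RingOfIntegers.rank K, ← Ideal.sum_ramification_inertia_eq_finrank
      (span {(p : ℤ)}) (𝓞 K), Nat.card_eq_fintype_card, ← Finset.card_univ,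
      Finset.card_eq_sum_ones]
    refine Finset.sum_le_sum fun q _ => ?_
    exact Nat.one_le_iff_ne_zero.mpr (Nat.mul_ne_zero (Ideal.ramificationIdx_pos _ _).ne'
      (Ideal.inertiaDeg_pos _ _).ne')
  · have : IsEmpty {v : HeightOneSpectrum (𝓞 K) // pr v = p} := ⟨fun v => hp (v.2 ▸ pr_prime v.1)⟩
    simp

/-- Sums over the prime ideals of functions of the rational prime below. -/
theorem tsum_pr_le (f : ℕ → ℝ≥0∞) :
    ∑' v : HeightOneSpectrum (𝓞 K), f (pr v) ≤ Module.finrank ℚ K * ∑' p : Nat.Primes, f p := by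
  let g : HeightOneSpectrum (𝓞 K) → Nat.Primes := fun v => ⟨pr v, pr_prime v⟩
  rw [← ENNReal.tsum_fiberwise (fun v : HeightOneSpectrum (𝓞 K) => f (pr v)) g,
    ← ENNReal.tsum_mul_left]
  refine ENNReal.tsum_le_tsum fun p => ?_
  have h1 : ∀ v : ↑(g ⁻¹' {p}), f (pr v.1) = f p := by
    intro v
    have : g v.1 = p := v.2
    exact congrArg (fun q : Nat.Primes => f (q : ℕ)) this
  have hfin := fiber_finite (K := K) p
  let e : ↑(g ⁻¹' {p}) ≃ {v : HeightOneSpectrum (𝓞 K) // pr v = (p : ℕ)} :=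
    Equiv.subtypeEquivRight fun v => Subtype.ext_iff
  have : Finite ↑(g ⁻¹' {p}) := Finite.of_equiv _ e.symm
  have := Fintype.ofFinite ↑(g ⁻¹' {p})
  rw [tsum_congr h1, tsum_fintype, Finset.sum_const, Finset.card_univ, nsmul_eq_mul,
    ← Nat.card_eq_fintype_card, Nat.card_congr e]
  gcongr
  exact card_fiber_le _

end Pool.Agent.Lib_helper28.FROB


end

section

/-!
# The logarithm of the Dedekind zeta function and the sum over the prime ideals
-/

open NumberField IsDedekindDomain Ideal Filter Topology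
open scoped ENNReal

namespace Pool.Agent.Lib_helper28.FROB

theorem inv_one_sub_le {x : ℝ} (h0 : 0 ≤ x) (h1 : x ≤ 1 / 2) :
    (1 - x)⁻¹ ≤ Real.exp (x + x ^ 2) := by
  have hpos : 0 < 1 - x := by linarith
  rw [inv_le_iff_one_le_mul₀ hpos]
  have h2 := Real.quadratic_le_exp_of_nonneg (x := x + x ^ 2) (by positivity)
  have h3 : 1 ≤ (1 + (x + x ^ 2) + (x + x ^ 2) ^ 2 / 2) * (1 - x) := by
    have h4 : (1 + (x + x ^ 2) + (x + x ^ 2) ^ 2 / 2) * (1 - x) =
        1 + x ^ 2 / 2 * (1 - x - x ^ 2 - x ^ 3) := by ring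
    rw [h4]
    have h5 : x ^ 2 ≤ 1 / 4 := by nlinarith
    have h6 : x ^ 3 ≤ 1 / 8 := by nlinarith
    nlinarith [sq_nonneg x]
  calc (1 : ℝ) ≤ (1 + (x + x ^ 2) + (x + x ^ 2) ^ 2 / 2) * (1 - x) := h3
    _ ≤ Real.exp (x + x ^ 2) * (1 - x) := by gcongr

theorem exp_sub_le {x : ℝ} (h0 : 0 ≤ x) (h1 : x ≤ 1) : Real.exp (x - x ^ 2) ≤ 1 + x := by
  have h2 : 0 < 1 - (x - x ^ 2) := by nlinarith
  have h3 : 1 - (x - x ^ 2) ≤ Real.exp (-(x - x ^ 2)) := Real.one_sub_le_exp_neg _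
  have h4 : Real.exp (x - x ^ 2) * Real.exp (-(x - x ^ 2)) = 1 := by
    rw [← Real.exp_add]; simp
  have h5 : 1 ≤ (1 + x) * (1 - (x - x ^ 2)) := by
    have : (1 + x) * (1 - (x - x ^ 2)) = 1 + x ^ 3 := by ring
    rw [this]
    have : 0 ≤ x ^ 3 := by positivity
    linarith
  have h6 : Real.exp (x - x ^ 2) * (1 - (x - x ^ 2)) ≤ (1 + x) * (1 - (x - x ^ 2)) := by
    refine le_trans ?_ h5
    exact (mul_le_mul_of_nonneg_left h3 (Real.exp_pos _).le).trans h4.le
  exact le_of_mul_le_mul_right h6 h2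

variable {K : Type*} [Field K] [NumberField K]

theorem norm_ge (v : HeightOneSpectrum (𝓞 K)) : 2 ≤ absNorm v.asIdeal := by
  rw [norm_eq]
  exact (pr_prime v).two_le.trans (Nat.le_self_pow (dg_pos v).ne' _)

theorem norm_ge' (v : HeightOneSpectrum (𝓞 K)) : (2 : ℝ) ≤ absNorm v.asIdeal := by
  exact_mod_cast norm_ge v

theorem x_pos (s : ℝ) (v : HeightOneSpectrum (𝓞 K)) : 0 < x s v :=
  Real.rpow_pos_of_pos (by linarith [norm_ge' v]) _

theorem x_anti {s t : ℝ} (h : s ≤ t) (v : HeightOneSpectrum (𝓞 K)) : x t v ≤ x s v :=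
  Real.rpow_le_rpow_of_exponent_le (by linarith [norm_ge' v]) (by linarith)

theorem x_le {s : ℝ} (h : 1 ≤ s) (v : HeightOneSpectrum (𝓞 K)) : x s v ≤ 1 / 2 := by
  refine (x_anti h v).trans ?_
  unfold x
  rw [Real.rpow_neg_one, one_div]
  exact inv_anti₀ (by norm_num) (norm_ge' v)

theorem F_eq (s : ℝ) (v : HeightOneSpectrum (𝓞 K)) : F s v.asIdeal = ENNReal.ofReal (x s v) := rfl

/-- `p ^ (-s)` for the rational prime below -/
theorem x_le_pr {s : ℝ} (h : 0 ≤ s) (v : HeightOneSpectrum (𝓞 K)) :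
    x s v ≤ ((pr v : ℝ)) ^ (-s) := by
  unfold x
  rw [norm_eq]
  have h1 : (1 : ℝ) ≤ pr v := by exact_mod_cast (pr_prime v).one_le
  refine Real.rpow_le_rpow_of_nonpos (by linarith) ?_ (by linarith)
  exact_mod_cast Nat.le_self_pow (dg_pos v).ne' _

theorem summable_pr {s : ℝ} (h : 1 < s) :
    Summable fun v : HeightOneSpectrum (𝓞 K) => ((pr v : ℝ)) ^ (-s) := by
  have h1 : Summable fun p : Nat.Primes => ((p : ℝ)) ^ (-s) :=
    Nat.Primes.summable_rpow.mpr (by linarith)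
  have h2 : ∑' v : HeightOneSpectrum (𝓞 K), ENNReal.ofReal (((pr v : ℝ)) ^ (-s)) ≠ ∞ := by
    refine ne_top_of_le_ne_top ?_ (tsum_pr_le fun n => ENNReal.ofReal ((n : ℝ) ^ (-s)))
    refine ENNReal.mul_ne_top (ENNReal.natCast_ne_top _) ?_
    exact h1.tsum_ofReal_ne_top
  refine (ENNReal.summable_toReal h2).congr fun v => ?_
  rw [ENNReal.toReal_ofReal (by positivity)]

theorem summable_x {s : ℝ} (h : 1 < s) : Summable (x (K := K) s) :=
  Summable.of_nonneg_of_le (fun v => (x_pos s v).le) (x_le_pr (by linarith)) (summable_pr h)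

theorem x_sq (s : ℝ) (v : HeightOneSpectrum (𝓞 K)) : x s v ^ 2 = x (2 * s) v := by
  unfold x
  rw [← Real.rpow_natCast, ← Real.rpow_mul (Nat.cast_nonneg _)]
  congr 1
  push_cast
  ring

theorem x_sq_le {s : ℝ} (h : 1 ≤ s) (v : HeightOneSpectrum (𝓞 K)) : x s v ^ 2 ≤ x 2 v := by
  rw [x_sq]
  exact x_anti (by linarith) v

theorem sum_sq_le {s : ℝ} (h : 1 ≤ s) (t : Finset (HeightOneSpectrum (𝓞 K))) :
    ∑ v ∈ t, x s v ^ 2 ≤ ∑' v : HeightOneSpectrum (𝓞 K), x 2 v :=
  (Finset.sum_le_sum fun v _ => x_sq_le h v).trans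
    ((summable_x (by norm_num)).sum_le_tsum _ fun v _ => (x_pos 2 v).le)

theorem Z_le {s : ℝ} (h : 1 < s) : Z K s ≤ ENNReal.ofReal (Real.exp
    (∑' v : HeightOneSpectrum (𝓞 K), x s v + ∑' v : HeightOneSpectrum (𝓞 K), x 2 v)) := by
  refine euler_upper s _ fun t => ?_
  have h1 : ∀ v ∈ t, (1 - F s v.asIdeal)⁻¹ ≤ ENNReal.ofReal (Real.exp (x s v + x s v ^ 2)) := by
    intro v _
    have h2 := x_le h.le v
    have h3 := x_pos s v
    rw [F_eq, ← ENNReal.ofReal_one, ← ENNReal.ofReal_sub _ h3.le,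
      ← ENNReal.ofReal_inv_of_pos (by linarith)]
    exact ENNReal.ofReal_le_ofReal (inv_one_sub_le h3.le h2)
  refine (Finset.prod_le_prod' h1).trans ?_
  rw [← ENNReal.ofReal_prod_of_nonneg (fun v _ => (Real.exp_pos _).le), ← Real.exp_sum]
  refine ENNReal.ofReal_le_ofReal (Real.exp_le_exp.mpr ?_)
  rw [Finset.sum_add_distrib]
  exact add_le_add ((summable_x h).sum_le_tsum _ fun v _ => (x_pos s v).le) (sum_sq_le h.le t)

theorem le_Z {s : ℝ} (h : 1 < s) : ENNReal.ofReal (Real.exp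
    (∑' v : HeightOneSpectrum (𝓞 K), x s v - ∑' v : HeightOneSpectrum (𝓞 K), x 2 v)) ≤ Z K s := by
  have hc : Tendsto (fun t : Finset (HeightOneSpectrum (𝓞 K)) => ENNReal.ofReal (Real.exp
      (∑ v ∈ t, x s v - ∑' v : HeightOneSpectrum (𝓞 K), x 2 v))) atTop (𝓝 (ENNReal.ofReal (Real.exp
      (∑' v : HeightOneSpectrum (𝓞 K), x s v - ∑' v : HeightOneSpectrum (𝓞 K), x 2 v)))) := by
    refine ENNReal.tendsto_ofReal ?_
    exact (Real.continuous_exp.tendsto _).comp ((summable_x h).hasSum.sub_const _)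
  refine le_of_tendsto' hc fun t => ?_
  refine le_trans ?_ (euler_lower s t)
  have h1 : ∀ v ∈ t, ENNReal.ofReal (Real.exp (x s v - x s v ^ 2)) ≤ 1 + F s v.asIdeal := by
    intro v _
    have h2 := x_le h.le v
    have h3 := x_pos s v
    rw [F_eq, ← ENNReal.ofReal_one, ← ENNReal.ofReal_add (by norm_num) h3.le]
    exact ENNReal.ofReal_le_ofReal (exp_sub_le h3.le (by linarith))
  refine le_trans ?_ (Finset.prod_le_prod' h1)
  rw [← ENNReal.ofReal_prod_of_nonneg (fun v _ => (Real.exp_pos _).le), ← Real.exp_sum]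
  refine ENNReal.ofReal_le_ofReal (Real.exp_le_exp.mpr ?_)
  rw [Finset.sum_sub_distrib]
  exact sub_le_sub_left (sum_sq_le h.le t) _

end Pool.Agent.Lib_helper28.FROB


end

section

/-!
# The sum over the prime ideals near `s = 1`
-/

open NumberField IsDedekindDomain Ideal Filter Topology Asymptotics
open scoped ENNReal

namespace Pool.Agent.Lib_helper28.FROB

variable (K : Type*) [Field K] [NumberField K]

/-- The terms of the Dedekind zeta function. -/
noncomputable def cf (s : ℝ) (n : ℕ) : ℝ :=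
  if n = 0 then 0 else (Nat.card {I : Ideal (𝓞 K) // absNorm I = n} : ℝ) * (n : ℝ) ^ (-s)

theorem cf_nonneg (s : ℝ) (n : ℕ) : 0 ≤ cf K s n := by
  unfold cf
  split_ifs
  · exact le_rfl
  · positivity

theorem Z_eq (s : ℝ) : Z K s = ∑' n : ℕ, ENNReal.ofReal (cf K s n) := by
  let g : {I : Ideal (𝓞 K) // I ≠ ⊥} → ℕ := fun I => absNorm I.1
  unfold Z
  rw [← ENNReal.tsum_fiberwise (fun I : {I : Ideal (𝓞 K) // I ≠ ⊥} => F s I.1) g]
  refine tsum_congr fun n => ?_
  have h1 : ∀ I : ↑(g ⁻¹' {n}), F s I.1.1 = ENNReal.ofReal ((n : ℝ) ^ (-s)) := by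
    intro I
    have : absNorm I.1.1 = n := I.2
    unfold F
    rw [this]
  rw [tsum_congr h1]
  unfold cf
  by_cases hn : n = 0
  · subst hn
    have : IsEmpty ↑(g ⁻¹' {0}) := ⟨fun I => I.1.2 (absNorm_eq_zero_iff.mp I.2)⟩
    simp
  · let e : ↑(g ⁻¹' {n}) ≃ {I : Ideal (𝓞 K) // absNorm I = n} :=
      { toFun := fun I => ⟨I.1.1, I.2⟩
        invFun := fun I => ⟨⟨I.1, by
          rintro h
          apply hn
          rw [← I.2, h, absNorm_bot]⟩, I.2⟩
        left_inv := fun I => rfl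
        right_inv := fun I => rfl }
    have hfin : Finite {I : Ideal (𝓞 K) // absNorm I = n} :=
      (finite_setOfPred_absNorm_eq (S := 𝓞 K) n).to_subtype
    have : Finite ↑(g ⁻¹' {n}) := Finite.of_equiv _ e.symm
    have := Fintype.ofFinite ↑(g ⁻¹' {n})
    rw [if_neg hn, tsum_fintype, Finset.sum_const, Finset.card_univ, nsmul_eq_mul,
      ← Nat.card_eq_fintype_card, Nat.card_congr e, ENNReal.ofReal_mul (Nat.cast_nonneg _),
      ENNReal.ofReal_natCast]

theorem zeta_eq (s : ℝ) : dedekindZeta K (s : ℂ) = (((Z K s).toReal : ℝ) : ℂ) := by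
  rw [Z_eq, ENNReal.tsum_toReal_eq (fun n => ENNReal.ofReal_ne_top), Complex.ofReal_tsum]
  unfold dedekindZeta LSeries
  refine tsum_congr fun n => ?_
  rw [ENNReal.toReal_ofReal (cf_nonneg K s n)]
  unfold LSeries.term cf
  split_ifs with hn
  · simp
  · rw [Complex.ofReal_mul, Complex.ofReal_natCast, div_eq_mul_inv, ← Complex.cpow_neg,
      Complex.ofReal_cpow (Nat.cast_nonneg _)]
    simp

theorem tendsto_Z : Tendsto (fun s : ℝ => (s - 1) * (Z K s).toReal) (𝓝[>] 1)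
    (𝓝 (dedekindZeta_residue K)) := by
  have h := tendsto_sub_one_mul_dedekindZeta_nhdsGT K
  have h2 := (Complex.continuous_re.tendsto _).comp h
  refine (h2.congr fun s => ?_)
  simp only [Function.comp_apply]
  rw [zeta_eq, ← Complex.ofReal_one, ← Complex.ofReal_sub, ← Complex.ofReal_mul,
    Complex.ofReal_re]

/-- the sum over the prime ideals -/
theorem isBigO_sum : (fun s : ℝ => ∑' v : HeightOneSpectrum (𝓞 K), x s v - Real.log (1 / (s - 1)))
    =O[𝓝[>] 1] (fun _ => (1 : ℝ)) := by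
  have hρ := dedekindZeta_residue_pos K
  set ρ := dedekindZeta_residue K
  have h1 : ∀ᶠ s : ℝ in 𝓝[>] 1, ρ / 2 < (s - 1) * (Z K s).toReal :=
    (tendsto_Z K).eventually (lt_mem_nhds (by linarith))
  have h2 : ∀ᶠ s : ℝ in 𝓝[>] 1, (s - 1) * (Z K s).toReal < 2 * ρ :=
    (tendsto_Z K).eventually (gt_mem_nhds (by linarith))
  set c := ∑' v : HeightOneSpectrum (𝓞 K), x 2 v
  refine IsBigO.of_bound (c + |Real.log (ρ / 2)| + |Real.log (2 * ρ)|) ?_
  filter_upwards [h1, h2, self_mem_nhdsWithin] with s hs1 hs2 hs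
  have hs0 : 0 < s - 1 := sub_pos.mpr hs
  have hc : 0 ≤ c := tsum_nonneg fun v => (x_pos 2 v).le
  have hZtop : Z K s ≠ ∞ := ne_top_of_le_ne_top ENNReal.ofReal_ne_top (Z_le hs)
  have hZpos : 0 < (Z K s).toReal := by
    by_contra hneg
    have : (s - 1) * (Z K s).toReal ≤ 0 := mul_nonpos_of_nonneg_of_nonpos hs0.le (not_lt.mp hneg)
    linarith
  set X := ∑' v : HeightOneSpectrum (𝓞 K), x s v
  have hup : (Z K s).toReal ≤ Real.exp (X + c) := by
    have := ENNReal.toReal_mono ENNReal.ofReal_ne_top (Z_le (K := K) hs)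
    rwa [ENNReal.toReal_ofReal (Real.exp_pos _).le] at this
  have hlo : Real.exp (X - c) ≤ (Z K s).toReal := by
    have := ENNReal.toReal_mono hZtop (le_Z (K := K) hs)
    rwa [ENNReal.toReal_ofReal (Real.exp_pos _).le] at this
  have hup' : Real.log (Z K s).toReal ≤ X + c := by
    rw [← Real.log_exp (X + c)]
    exact Real.log_le_log hZpos hup
  have hlo' : X - c ≤ Real.log (Z K s).toReal := by
    rw [← Real.log_exp (X - c)]
    exact Real.log_le_log (Real.exp_pos _) hlo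
  have hlog : Real.log ((s - 1) * (Z K s).toReal) =
      Real.log (Z K s).toReal - Real.log (1 / (s - 1)) := by
    rw [Real.log_mul hs0.ne' hZpos.ne', one_div, Real.log_inv]
    ring
  have ha : Real.log (ρ / 2) ≤ Real.log ((s - 1) * (Z K s).toReal) :=
    Real.log_le_log (by linarith) hs1.le
  have hb : Real.log ((s - 1) * (Z K s).toReal) ≤ Real.log (2 * ρ) :=
    Real.log_le_log (by linarith) hs2.le
  rw [norm_one, mul_one, Real.norm_eq_abs, abs_le]
  have ha' := neg_abs_le (Real.log (ρ / 2))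
  have hb' := le_abs_self (Real.log (2 * ρ))
  have ha'' := abs_nonneg (Real.log (ρ / 2))
  have hb'' := abs_nonneg (Real.log (2 * ρ))
  constructor <;> linarith

end Pool.Agent.Lib_helper28.FROB


end

section

/-!
# MU3, block D, module THD
-/

open NumberField IsDedekindDomain Ideal Filter Topology
open scoped nonZeroDivisors

namespace Pool.Agent.MU3

open _root_.Pool.Agent.Lib_helper28.FROB

namespace THD

lemma finite_mem {L : Type} [Field L] [NumberField L] {a : 𝓞 L} (ha : a ≠ 0) :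
    {v : HeightOneSpectrum (𝓞 L) | a ∈ v.asIdeal}.Finite := by
  have h : (span {a} : Ideal (𝓞 L)) ≠ 0 := by
    rw [Ideal.zero_eq_bot, Ne, Ideal.span_singleton_eq_bot]
    exact ha
  refine (Ideal.finite_factors h).subset fun v hv => ?_
  show v.asIdeal ∣ span {a}
  rw [Ideal.dvd_span_singleton]
  exact hv

end THD

theorem m_THD : Stmt_DENS → Stmt_KUM → Stmt_THD := by
  intro hD hK L _ _ ζ t hζ ht S hS H hH
  obtain ⟨M, _, _, _, hM⟩ := hK L ζ t hζ ht
  have ht0 : t ≠ 0 := by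
    rintro rfl
    exact ht 0 (by simp)
  have h30 : (3 : 𝓞 L) ≠ 0 := by norm_num
  let S' : Set (HeightOneSpectrum (𝓞 L)) := S ∪ ({v | (3 : 𝓞 L) ∈ v.asIdeal} ∪ {v | t ∈ v.asIdeal})
  have hS' : S'.Finite := hS.union ((THD.finite_mem h30).union (THD.finite_mem ht0))
  refine hD L M 3 le_rfl S' hS' H ?_
  intro v hv hp hspl
  have h1 : v ∉ S := fun h => hv (Or.inl h)
  have h2 : (3 : 𝓞 L) ∉ v.asIdeal := fun h => hv (Or.inr (Or.inl h))
  have h3 : t ∉ v.asIdeal := fun h => hv (Or.inr (Or.inr h))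
  refine hH v h1 hp h2 h3 ?_
  intro a ha
  have := hM v h2 h3 ⟨a, ha⟩
  omega

end Pool.Agent.MU3


end

section

/-!
# MU3, block D, module LBD
-/

open NumberField IsDedekindDomain Ideal Filter Topology
open NumberField.Units
open scoped nonZeroDivisors

namespace Pool.Agent.MU3

open _root_.Pool.Agent.Lib_helper28.FROB

namespace LBD

lemma iN_nonneg (K : Type) [Field K] [NumberField K] (s : ℝ) (I : (Ideal (𝓞 K))⁰) :
    0 ≤ iN K s I := by
  unfold iN
  positivity

lemma norm_eta {G : Type} [CommGroup G] [Finite G] (η : G →* ℂˣ) (c : G) :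
    ‖(η c : ℂ)‖ = 1 := by
  have h : (η c : ℂ) ^ Nat.card G = 1 := by
    rw [← Units.val_pow_eq_pow_val, ← map_pow, pow_card_eq_one', map_one, Units.val_one]
  exact Complex.norm_eq_one_of_pow_eq_one h Nat.card_pos.ne'

lemma sum_eta {G : Type} [CommGroup G] [Fintype G] (η : G →* ℂˣ) (h : η ≠ 1) :
    ∑ c : G, (η c : ℂ) = 0 := by
  have h' : (Units.coeHom ℂ).comp η ≠ 1 := by
    intro h'
    apply h
    ext c
    have := DFunLike.congr_fun h' c
    simpa using this
  exact sum_hom_units_eq_zero ((Units.coeHom ℂ).comp η) h'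

end LBD

theorem m_LBD : Stmt_ZCL → Stmt_ISUM → Stmt_LBD := by
  classical
  intro hZ hI K _ _ η hη
  choose C hC using hZ K
  have hfin := Fintype.ofFinite (ClassGroup (𝓞 K))
  refine ⟨∑ c, C c, ?_⟩
  have hall : ∀ᶠ s : ℝ in 𝓝[>] 1, ∀ c : ClassGroup (𝓞 K),
      |∑' I : {I : (Ideal (𝓞 K))⁰ // ClassGroup.mk0 I = c}, iN K s I.1 -
        ∑' I : {I : (Ideal (𝓞 K))⁰ // ClassGroup.mk0 I = 1}, iN K s I.1| ≤ C c :=
    Filter.eventually_all.mpr hC
  filter_upwards [hall, self_mem_nhdsWithin] with s hs hs1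
  have hs' : (1 : ℝ) < s := hs1
  have hsum := (hI K).1 s hs'
  have hsum' : Summable fun I : (Ideal (𝓞 K))⁰ =>
      (η (ClassGroup.mk0 I) : ℂ) * (iN K s I : ℂ) := by
    refine Summable.of_norm_bounded hsum fun I => ?_
    rw [norm_mul, LBD.norm_eta, one_mul, Complex.norm_real, Real.norm_eq_abs,
      abs_of_nonneg (LBD.iN_nonneg K s I)]
  have h1 : Lf K η s = ∑ c : ClassGroup (𝓞 K), (η c : ℂ) *
      ((∑' I : {I : (Ideal (𝓞 K))⁰ // ClassGroup.mk0 I = c}, iN K s I.1 : ℝ) : ℂ) := by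
    unfold Lf
    rw [← (HasSum.tsum_fiberwise hsum'.hasSum
      (fun I : (Ideal (𝓞 K))⁰ => ClassGroup.mk0 I)).tsum_eq, tsum_fintype]
    refine Finset.sum_congr rfl fun c _ => ?_
    rw [Complex.ofReal_tsum, ← tsum_mul_left]
    have h2 : ∀ I : {I : (Ideal (𝓞 K))⁰ // ClassGroup.mk0 I = c},
        (η (ClassGroup.mk0 I.1) : ℂ) * (iN K s I.1 : ℂ) = (η c : ℂ) * (iN K s I.1 : ℂ) := by
      intro I
      rw [I.2]
    exact tsum_congr h2
  have h3 : Lf K η s = ∑ c : ClassGroup (𝓞 K), (η c : ℂ) *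
      ((∑' I : {I : (Ideal (𝓞 K))⁰ // ClassGroup.mk0 I = c}, iN K s I.1 -
        ∑' I : {I : (Ideal (𝓞 K))⁰ // ClassGroup.mk0 I = 1}, iN K s I.1 : ℝ) : ℂ) := by
    rw [h1]
    simp_rw [Complex.ofReal_sub, mul_sub]
    rw [Finset.sum_sub_distrib, ← Finset.sum_mul, LBD.sum_eta η hη, zero_mul, sub_zero]
  rw [h3]
  refine norm_sum_le_of_le _ fun c _ => ?_
  rw [norm_mul, LBD.norm_eta, one_mul, Complex.norm_real, Real.norm_eq_abs]
  exact hs c

end Pool.Agent.MU3


end

section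

/-!
# MU3, block D, module ZCL
-/

open NumberField IsDedekindDomain Ideal Filter Topology
open NumberField.Units
open scoped nonZeroDivisors

namespace Pool.Agent.MU3

open _root_.Pool.Agent.Lib_helper28.FROB

namespace ZCL

lemma iN_nonneg (K : Type) [Field K] [NumberField K] (s : ℝ) (I : (Ideal (𝓞 K))⁰) :
    0 ≤ iN K s I := by
  unfold iN
  positivity

/-- The partial zeta function of a class. -/
noncomputable def T (K : Type) [Field K] [NumberField K] (c : ClassGroup (𝓞 K)) (s : ℝ) : ℝ :=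
  ∑' I : {I : (Ideal (𝓞 K))⁰ // ClassGroup.mk0 I = c}, iN K s I.1

lemma T_nonneg (K : Type) [Field K] [NumberField K] (c : ClassGroup (𝓞 K)) (s : ℝ) :
    0 ≤ T K c s := tsum_nonneg fun I => iN_nonneg K s I.1

lemma key (hCLS : Stmt_CLS) (hCMP : Stmt_CMP) (hI : Stmt_ISUM) (K : Type) [Field K]
    [NumberField K] (c : ClassGroup (𝓞 K)) : ∃ C : ℝ, ∀ᶠ s : ℝ in 𝓝[>] 1,
      |(torsionOrder K : ℝ) * T K c s - ∑' a : 𝓞 K, fs K s a| ≤ C := by
  obtain ⟨b, hb⟩ := ClassGroup.mk0_surjective (c⁻¹)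
  have hb0 : (b : Ideal (𝓞 K)) ≠ ⊥ := nonZeroDivisors.coe_ne_zero b
  obtain ⟨C₁, h1⟩ := hCMP K b hb0
  obtain ⟨hs1, C₂, h2⟩ := hI K
  set n : ℝ := (absNorm (b : Ideal (𝓞 K)) : ℝ) with hn
  have hn1 : 1 ≤ n := by
    have : absNorm (b : Ideal (𝓞 K)) ≠ 0 := absNorm_eq_zero_iff.not.mpr hb0
    rw [hn]
    exact Nat.one_le_cast.mpr (Nat.one_le_iff_ne_zero.mpr this)
  have hn0 : 0 < n := by linarith
  have hw : (0 : ℝ) ≤ torsionOrder K := Nat.cast_nonneg _
  refine ⟨C₁ + torsionOrder K * (Real.log n * C₂), ?_⟩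
  have hlt2 : ∀ᶠ s : ℝ in 𝓝[>] 1, s ≤ 2 := by
    filter_upwards [Ioo_mem_nhdsGT (show (1 : ℝ) < 2 by norm_num)] with s hs
    exact hs.2.le
  filter_upwards [h2, hlt2, self_mem_nhdsWithin] with s hs2 hle hs
  have hs' : (1 : ℝ) < s := hs
  have h3 := h1 s hs' hle
  have h4 := hCLS K c b hb s hs'
  have hT : ∑' I : {I : (Ideal (𝓞 K))⁰ // ClassGroup.mk0 I = c},
        (absNorm (I.1 : Ideal (𝓞 K)) : ℝ) ^ (-s) = T K c s := rfl
  rw [hT] at h4
  rw [← h4] at h3
  have h5 : n * ((torsionOrder K : ℝ) * n ^ (-s) * T K c s) =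
      (torsionOrder K : ℝ) * T K c s * n ^ (1 - s) := by
    rw [sub_eq_add_neg, Real.rpow_add hn0, Real.rpow_one]
    ring
  rw [← hn, h5] at h3
  have h6 : 1 - n ^ (1 - s) ≤ (s - 1) * Real.log n := by
    rw [Real.rpow_def_of_pos hn0]
    have := Real.add_one_le_exp (Real.log n * (1 - s))
    linarith
  have h6' : 0 ≤ 1 - n ^ (1 - s) := by
    have := Real.rpow_le_one_of_one_le_of_nonpos hn1 (show 1 - s ≤ 0 by linarith)
    linarith
  have hTn := T_nonneg K c s
  have h7 : (s - 1) * T K c s ≤ C₂ := by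
    refine le_trans (mul_le_mul_of_nonneg_left ?_ (by linarith)) hs2
    exact Summable.tsum_subtype_le (iN K s) {I | ClassGroup.mk0 I = c}
      (fun I => iN_nonneg K s I) (hs1 s hs')
  have hlog : 0 ≤ Real.log n := Real.log_nonneg hn1
  have h8 : |(torsionOrder K : ℝ) * T K c s * (1 - n ^ (1 - s))| ≤
      torsionOrder K * (Real.log n * C₂) := by
    rw [abs_of_nonneg (by positivity)]
    calc (torsionOrder K : ℝ) * T K c s * (1 - n ^ (1 - s))
        ≤ (torsionOrder K : ℝ) * T K c s * ((s - 1) * Real.log n) :=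
          mul_le_mul_of_nonneg_left h6 (by positivity)
      _ = torsionOrder K * (Real.log n * ((s - 1) * T K c s)) := by ring
      _ ≤ torsionOrder K * (Real.log n * C₂) := by gcongr
  have h9 : (torsionOrder K : ℝ) * T K c s - ∑' a : 𝓞 K, fs K s a =
      ((torsionOrder K : ℝ) * T K c s * n ^ (1 - s) - ∑' a : 𝓞 K, fs K s a) +
        (torsionOrder K : ℝ) * T K c s * (1 - n ^ (1 - s)) := by ring
  rw [h9]
  exact (abs_add_le _ _).trans (add_le_add h3 h8)

end ZCL

theorem m_ZCL : Stmt_CLS → Stmt_CMP → Stmt_ISUM → Stmt_ZCL := by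
  intro hCLS hCMP hI K _ _ c
  obtain ⟨C₁, h1⟩ := ZCL.key hCLS hCMP hI K c
  obtain ⟨C₂, h2⟩ := ZCL.key hCLS hCMP hI K 1
  have hw : (0 : ℝ) < torsionOrder K := by
    exact_mod_cast Nat.pos_of_ne_zero (torsionOrder_ne_zero K)
  refine ⟨(C₁ + C₂) / torsionOrder K, ?_⟩
  filter_upwards [h1, h2] with s hs1 hs2
  show |ZCL.T K c s - ZCL.T K 1 s| ≤ _
  rw [le_div_iff₀ hw, ← abs_of_pos hw, ← abs_mul]
  have h3 : (ZCL.T K c s - ZCL.T K 1 s) * (torsionOrder K : ℝ) =
      ((torsionOrder K : ℝ) * ZCL.T K c s - ∑' a : 𝓞 K, fs K s a) -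
        ((torsionOrder K : ℝ) * ZCL.T K 1 s - ∑' a : 𝓞 K, fs K s a) := by ring
  rw [h3]
  exact (abs_sub _ _).trans (add_le_add hs1 hs2)

end Pool.Agent.MU3


end

section

/-!
# Frobenius: decomposition groups and primes of degree one of fixed fields

`M` is a finite Galois extension of the rational numbers with group `G`, and `H` is a subgroup of
`G` with fixed field `F`.  For a prime `w` of `M`, unramified over the rational numbers, the prime
of `F` below `w` has degree one iff the decomposition group of `w` is contained in `H`.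
-/

open NumberField IsDedekindDomain Ideal MulAction
open scoped Pointwise

namespace Pool.Agent.Lib_helper28.FROB

variable {M : Type*} [Field M] [NumberField M] [IsGalois ℚ M]

/-- The fixed field of a subgroup. -/
abbrev Fix (H : Subgroup Gal(M/ℚ)) : IntermediateField ℚ M := FixedPoints.intermediateField H

instance galH (H : Subgroup Gal(M/ℚ)) : IsGaloisGroup H (Fix H) M :=
  IsGaloisGroup.subgroup Gal(M/ℚ) ℚ M H

instance galHO (H : Subgroup Gal(M/ℚ)) : IsGaloisGroup H (𝓞 (Fix H)) (𝓞 M) :=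
  IsGaloisGroup.of_isFractionRing H _ _ (Fix H) M

/-- The stabilizer of a prime in the subgroup `H` and in `G`. -/
theorem card_stab_sub (H : Subgroup Gal(M/ℚ)) (P : Ideal (𝓞 M)) :
    Nat.card (stabilizer H P) = Nat.card ((stabilizer Gal(M/ℚ) P ⊓ H : Subgroup Gal(M/ℚ))) := by
  have h : stabilizer H P = (stabilizer Gal(M/ℚ) P).subgroupOf H := by
    ext g
    simp only [mem_stabilizer_iff, Subgroup.mem_subgroupOf]
    rfl
  rw [h, ← Subgroup.inf_subgroupOf_right]
  exact Nat.card_congr (Subgroup.subgroupOfEquivOfLe inf_le_right).toEquiv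


theorem perfect_under {R : Type*} [CommRing R] [IsDomain R] [Ring.HasFiniteQuotients R]
    (p : Ideal R) [p.IsMaximal] (hp : p ≠ ⊥) : PerfectField p.ResidueField := by
  have : Finite (R ⧸ p) := Ring.HasFiniteQuotients.finiteQuotient hp
  infer_instance

theorem card_stab (G : Type*) [Group G] [Finite G] (R S : Type*) [CommRing R] [CommRing S]
    [Algebra R S] [MulSemiringAction G S] [IsGaloisGroup G R S] [IsDomain R] [IsDomain S]
    [Module.Finite R S] [Module.Flat R S] [Ring.HasFiniteQuotients R] (P : Ideal S)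
    [P.IsPrime] (p : Ideal R) [p.IsMaximal] [P.LiesOver p] (hp : p ≠ ⊥)
    (h : P.ramificationIdx R = 1) :
    Nat.card (stabilizer G P) = P.inertiaDeg R := by
  have := perfect_under p hp
  rw [Ideal.card_stabilizer_eq p P, ramificationIdxIn_eq_ramificationIdx p P G, h, one_mul,
    inertiaDegIn_eq_inertiaDeg p P G]

end Pool.Agent.Lib_helper28.FROB


end

section

/-!
# Frobenius: the primes above a prime of degree one of a fixed field
-/

open NumberField IsDedekindDomain Ideal MulAction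
open scoped Pointwise

namespace Pool.Agent.Lib_helper28.FROB

variable {M : Type*} [Field M] [NumberField M] [IsGalois ℚ M]

/-- the decomposition group -/
abbrev Dec (w : HeightOneSpectrum (𝓞 M)) : Subgroup Gal(M/ℚ) := stabilizer Gal(M/ℚ) w.asIdeal

/-- The prime of the fixed field of `H` below `w`. -/
noncomputable abbrev dn (H : Subgroup Gal(M/ℚ)) (w : HeightOneSpectrum (𝓞 M)) :
    HeightOneSpectrum (𝓞 (Fix H)) :=
  w.under (𝓞 (Fix H))

set_option linter.unusedSectionVars false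

instance liesOver_dn (H : Subgroup Gal(M/ℚ)) (w : HeightOneSpectrum (𝓞 M)) :
    w.asIdeal.LiesOver (dn H w).asIdeal := ⟨rfl⟩

theorem pr_dn (H : Subgroup Gal(M/ℚ)) (w : HeightOneSpectrum (𝓞 M)) : pr (dn H w) = pr w := by
  unfold pr
  rw [HeightOneSpectrum.under_asIdeal, Ideal.under_under]

theorem under_ne_bot (w : HeightOneSpectrum (𝓞 M)) : w.asIdeal.under ℤ ≠ ⊥ := by
  rw [under_eq]
  intro h
  rw [Ideal.span_singleton_eq_bot] at h
  exact (pr_prime w).ne_zero (by exact_mod_cast h)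

theorem card_dec (w : HeightOneSpectrum (𝓞 M)) (h : w.asIdeal.ramificationIdx ℤ = 1) :
    Nat.card (Dec w) = w.asIdeal.inertiaDeg ℤ := by
  have : w.asIdeal.IsMaximal := w.isMaximal
  have : (w.asIdeal.under ℤ).IsMaximal := Ideal.IsMaximal.under ℤ w.asIdeal
  exact card_stab Gal(M/ℚ) ℤ (𝓞 M) w.asIdeal (w.asIdeal.under ℤ) (under_ne_bot w) h

theorem ram_dn (H : Subgroup Gal(M/ℚ)) (w : HeightOneSpectrum (𝓞 M))
    (h : w.asIdeal.ramificationIdx ℤ = 1) : w.asIdeal.ramificationIdx (𝓞 (Fix H)) = 1 := by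
  rw [Ideal.ramificationIdx_tower (R := ℤ) (dn H w).asIdeal w.asIdeal] at h
  exact Nat.eq_one_of_mul_eq_one_left h

theorem card_dec_inf (H : Subgroup Gal(M/ℚ)) (w : HeightOneSpectrum (𝓞 M))
    (h : w.asIdeal.ramificationIdx ℤ = 1) :
    Nat.card ((Dec w ⊓ H : Subgroup Gal(M/ℚ))) = w.asIdeal.inertiaDeg (𝓞 (Fix H)) := by
  rw [← card_stab_sub]
  have : (dn H w).asIdeal.IsMaximal := (dn H w).isMaximal
  exact card_stab H (𝓞 (Fix H)) (𝓞 M) w.asIdeal (dn H w).asIdeal (dn H w).ne_bot (ram_dn H w h)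

theorem dg_dn (H : Subgroup Gal(M/ℚ)) (w : HeightOneSpectrum (𝓞 M)) :
    w.asIdeal.inertiaDeg ℤ = dg (dn H w) * w.asIdeal.inertiaDeg (𝓞 (Fix H)) :=
  Ideal.inertiaDeg_tower (R := ℤ) (dn H w).asIdeal w.asIdeal

/-- The prime of the fixed field of `H` below `w` has degree one iff the decomposition group of `w`
is contained in `H`. -/
theorem deg_one_iff (H : Subgroup Gal(M/ℚ)) (w : HeightOneSpectrum (𝓞 M))
    (h : w.asIdeal.ramificationIdx ℤ = 1) : dg (dn H w) = 1 ↔ Dec w ≤ H := by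
  have h1 := card_dec w h
  have h2 := card_dec_inf H w h
  have h3 := dg_dn H w
  constructor
  · intro hd
    rw [hd, one_mul] at h3
    have h4 : Dec w ⊓ H = Dec w := by
      refine Subgroup.eq_of_le_of_card_ge inf_le_left ?_
      rw [h1, h2, h3]
    exact inf_eq_left.mp h4
  · intro hle
    rw [inf_eq_left.mpr hle, h1, h3] at h2
    have h5 : 0 < w.asIdeal.inertiaDeg (𝓞 (Fix H)) := Ideal.inertiaDeg_pos _ _
    exact Nat.eq_of_mul_eq_mul_right h5 (by rw [h2, one_mul])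

/-- the primes above `v` -/
noncomputable def fiberEquiv (H : Subgroup Gal(M/ℚ)) (v : HeightOneSpectrum (𝓞 (Fix H))) :
    {w : HeightOneSpectrum (𝓞 M) // dn H w = v} ≃ v.asIdeal.primesOver (𝓞 M) where
  toFun w := ⟨w.1.asIdeal, w.1.isPrime, ⟨(congrArg HeightOneSpectrum.asIdeal w.2).symm⟩⟩
  invFun P := ⟨⟨P.1, P.2.1, by
    intro h0
    have := P.2.2.over
    rw [h0, Ideal.under_bot] at this
    exact v.ne_bot this⟩, by
      apply HeightOneSpectrum.ext
      exact P.2.2.over.symm⟩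
  left_inv w := rfl
  right_inv P := rfl

theorem fiber_sum (H : Subgroup Gal(M/ℚ)) (v : HeightOneSpectrum (𝓞 (Fix H))) (hv : dg v = 1)
    (hu : ∀ w : HeightOneSpectrum (𝓞 M), dn H w = v → w.asIdeal.ramificationIdx ℤ = 1) :
    ∑' w : {w : HeightOneSpectrum (𝓞 M) // dn H w = v}, (Nat.card (Dec w.1) : ℝ) =
      Nat.card H := by
  have hm : v.asIdeal.IsMaximal := v.isMaximal
  have hperf := perfect_under v.asIdeal v.ne_bot
  have h1 : ∀ w : {w : HeightOneSpectrum (𝓞 M) // dn H w = v}, (Nat.card (Dec w.1) : ℝ) =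
      ((v.asIdeal.ramificationIdxIn (𝓞 M) * v.asIdeal.inertiaDegIn (𝓞 M) : ℕ) : ℝ) := by
    rintro ⟨w, rfl⟩
    have hle := (deg_one_iff H w (hu w rfl)).mp hv
    have h2 : Nat.card (Dec w) = Nat.card (stabilizer H w.asIdeal) := by
      rw [card_stab_sub, inf_eq_left.mpr hle]
    rw [h2]
    exact congrArg Nat.cast (Ideal.card_stabilizer_eq (G := H) (dn H w).asIdeal w.asIdeal)
  rw [tsum_congr h1, tsum_const, nsmul_eq_mul, Nat.card_congr (fiberEquiv H v),
    Nat.card_coe_set_eq, ← Nat.cast_mul,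
    ncard_primesOver_mul_ramificationIdxIn_mul_inertiaDegIn v.asIdeal (𝓞 M) H]

end Pool.Agent.Lib_helper28.FROB


end
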