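import Mathlib
import Pool.Agent.MVF.C006
import Pool.Agent.MVF.C013
import Pool.Agent.MVF.C023
import Pool.Agent.MVF.C024

/-! Parts: MU3.StI, MU3.StFH2, MUX.StXE2, MU3.StI2, MUX.StIX, MUX.I_ARF, MU3.ZDefs, MUX.I_FOU, MU3.I_ICHI -/

namespace Pool.Agent.MU3I
end Pool.Agent.MU3I
namespace Pool.Agent.MUXI.IFou64
end Pool.Agent.MUXI.IFou64
namespace Pool.Agent.MUXI.I_ARF
end Pool.Agent.MUXI.I_ARF

section

/-!
# MU3, block I (helper36): from (E) and (H) to the input (I3)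

Section 4 (E4)-(E6) and section 7 of PAPER.md. A module proves `theorem t_X : St_X`.

`m = lev A B f n = f 3^(n+1)`, `u = Om / m`, `a = 1 + 6 f`. `wq p x` is the residue `1, -1, 0` of `x` modulo a
prime `p` of norm 3, `dlT` the logarithmic derivative of `Θ_a`, `FF` the function
`x ↦ w_p(x) (Θ_a'/Θ_a)(x u)`, `TT τ` its sum over the `x` with `σ_x = τ`, `Sn c`, `ST c` as in (E6).
-/

set_option autoImplicit false

namespace Pool.Agent.MU3I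

open _root_.MU3 _root_.Pool.Agent.MU3 _root_.Pool.Agent.MU3A _root_.Pool.Agent.MU3B _root_.Pool.Agent.MU3C _root_.Pool.Agent.RI
  _root_.Pool.Agent.RID

noncomputable section

open Classical in
/-- the residue of `x` modulo a prime `p` of norm `3`, as an integer `1`, `-1` or `0` -/
def wq {A B : ℤ} (p x : OO A B) : ℤ := if p ∣ x - 1 then 1 else if p ∣ x + 1 then -1 else 0

/-- the residue of an integer modulo `3`, as `1`, `-1` or `0` -/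
def w3 (c : ℤ) : ℤ := if c % 3 = 1 then 1 else if c % 3 = 2 then -1 else 0

/-- the logarithmic derivative of `Θ_a`, `a = 1 + 6 f` (`St_TDL`) -/
def dlT (L : PeriodPair) (f : ℕ) (z : ℂ) : ℂ :=
  (1 + 6 * (f : ℂ)) * ee L ((1 + 6 * (f : ℂ)) * z) - (1 + 6 * (f : ℂ)) ^ 2 * ee L z

/-- `w_p(x) (Θ_a'/Θ_a)(x u)` -/
def FF {A B : ℤ} (L : PeriodPair) (Om : ℂ) (f n : ℕ) (x : OO A B) : ℂ :=
  (wq (ppi A B) x : ℂ) * dlT L f (emb x * (Om / emb (lev A B f n)))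

/-- `S_n(c) = Σ ε(x) e(x u)`, over the `x` modulo `m` with `N x ≡ c` modulo `3^(n+1)` -/
def Sn {A B : ℤ} (L : PeriodPair) (Om : ℂ) (f : ℕ) (e : OO A B → ℂ) (n : ℕ) (c : ℤ) : ℂ :=
  sumMod (lev A B f n) fun x =>
    if (3 : ℤ) ^ (n + 1) ∣ nm x - c then e x * ee L (emb x * (Om / emb (lev A B f n))) else 0

/-- `S^T(c) = a S_n(a² c) - a² S_n(c)` -/
def ST {A B : ℤ} (L : PeriodPair) (Om : ℂ) (f : ℕ) (e : OO A B → ℂ) (n : ℕ) (c : ℤ) : ℂ :=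
  (1 + 6 * (f : ℂ)) * Sn L Om f e n ((1 + 6 * (f : ℤ)) ^ 2 * c) -
    (1 + 6 * (f : ℂ)) ^ 2 * Sn L Om f e n c

/-- `T(τ) = Σ w_p(x) (Θ_a'/Θ_a)(x u)`, over the classes `x` with `σ_x = τ` on `D` -/
def TT {A B : ℤ} (L : PeriodPair) (Om : ℂ) (f n : ℕ) {D : IntermediateField ℚ ℂ}
    (h : kk A B ≤ D) (τ : letI := algC h; D ≃ₐ[kk A B] D) : ℂ :=
  ∑ᶠ x ∈ XX L (lev A B f n) h τ, FF L Om f n (Quotient.out x)

/-- `v(x) ≥ 1/2` (for `v(3) = 1`) -/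
def Hf (V : ValuationSubring ℂ) (x : ℂ) : Prop := x ^ 2 / 3 ∈ V

/-- the image of `Gal(TF L m / k)` in `(O/m)^*` contains exactly one of `x`, `-x` -/
def Cpl {A B : ℤ} (L : PeriodPair) (m : OO A B) : Prop :=
  ∀ x : OO A B, IsCoprime x m →
    ((∃ σ : TF L m ≃ₐ[kk A B] TF L m, Act L (_root_.Pool.Agent.MU3A.em σ) m x) ↔
      ¬ ∃ σ : TF L m ≃ₐ[kk A B] TF L m, Act L (_root_.Pool.Agent.MU3A.em σ) m (-x))

/-! ## The two inputs -/

/-- (EFIN) final statement of block E (helper66): if `c_n^g` is a cube, `g ∈ ℤ[Gal(D/k)]`, then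
`v(Σ_τ g_τ T(τ τ')) ≥ 1/2` (`n ≥ 1`). -/
def St_EFIN : Prop :=
  ∀ (A B : ℤ) (_ : Case A B) (L : PeriodPair) (Om : ℂ) (_ : IsCM A B L Om)
    (V : ValuationSubring ℂ) (_ : emb (ppi A B) ∈ V.nonunits) (f : ℕ) (_ : f ≠ 0) (_ : ¬ 3 ∣ f)
    (_ : 2 * absD A B ∣ (f : ℤ)) (_ : mz A B ∣ (f : OO A B)) (n : ℕ) (_ : 1 ≤ n)
    (_ : Cpl L (lev A B f n)) (Hs : Finset ℂ) (_ : IsHalf L (1 + 6 * (f : ℂ)) Hs) (D : IntermediateField ℚ ℂ) [FiniteDimensional ℚ D]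
    (h : kk A B ≤ D) (_ : ∀ x ∈ D, x ∈ TF L (lev A B f n)),
    letI := algC h
    ∀ (_ : IsGalois (kk A B) D) (g : (D ≃ₐ[kk A B] D) → ℤ) (y : ℂ) (_ : y ∈ D)
      (_ : y ^ 3 = ∏ᶠ τ : D ≃ₐ[kk A B] D, cc L Om (lev A B f n) Hs h τ ^ g τ)
      (τ' : D ≃ₐ[kk A B] D),
      Hf V (∑ᶠ τ : D ≃ₐ[kk A B] D, (g τ : ℂ) * TT L Om f n h (τ * τ'))

/-- (HFIN) final statement of block H (helper27): for every `N ≥ 1` and all large `n` the sum
`Σ_j (-1)^(N-j) binom(N, j) (S^T(4^j) + s S^T(-4^j))` has `v < 1/2`. -/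
def St_HFIN : Prop :=
  ∀ (A B : ℤ) (_ : Case A B) (L : PeriodPair) (Om : ℂ) (_ : IsCM A B L Om)
    (V : ValuationSubring ℂ) (_ : emb (ppi A B) ∈ V.nonunits) (f : ℕ) (_ : f ≠ 0) (_ : ¬ 3 ∣ f)
    (_ : 2 * absD A B ∣ (f : ℤ)) (_ : ∀ n, Cpl L (lev A B f n)) (e : OO A B → ℂ)
    (_ : IsEps ((f : OO A B) * star (ppi A B)) e) (r : ℕ) (_ : ¬ 3 ∣ r)
    (_ : ∀ x, e x ≠ 0 → e x ^ r = 1) (s : ℤ) (_ : s = 1 ∨ s = -1) (N : ℕ) (_ : 1 ≤ N),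
    ∃ n₀ : ℕ, ∀ n, n₀ ≤ n → ¬ Hf V (∑ j ∈ Finset.range (N + 1),
      ((-1 : ℂ) ^ (N - j) * (N.choose j : ℂ)) *
        (ST L Om f e n (4 ^ j) + s * ST L Om f e n (-4 ^ j)))

/-! ## Elementary modules -/

/-- (IRES) the residue field of `V`.

PROOF. `F` = residue field. `3 ∈ V.nonunits` means `3 = 0` in `F` and `F` is a field, so `CharP F 3`. Algebraically
closed (`IsAlgClosed.of_exists_root`): a monic irreducible polynomial `p` over `F` lifts to a monic polynomial `P` over `V` of the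
same degree (`Polynomial.lifts_and_degree_eq_and_monic`, `Polynomial.lifts`; the residue map is surjective); `P` has a root `z` in `ℂ`;
`z` is integral over `V`, so `z ∈ V` (valuation rings are integrally closed); its residue is a root of `p`. -/
def St_IRES : Prop :=
  ∀ (V : ValuationSubring ℂ) (_ : (3 : ℂ) ∈ V.nonunits),
    CharP (IsLocalRing.ResidueField V) 3 ∧ IsAlgClosed (IsLocalRing.ResidueField V)

/-- (IVEX) existence of `V`.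

PROOF. Chevalley: Mathlib has the existence of a valuation ring dominating a local subring
(`LocalSubring.exists_le_valuationSubring` or similar). Take the subring `R` = image of `O` (`embHom`), the prime ideal generated by
`emb π` (`π` has norm 3, so `1 = x π` is impossible: `nm` is multiplicative; a maximal ideal of `R` containing `emb π`), and the localization of
`R` at it as a local subring of `ℂ`. Second part: `3 = π π̄`, `V.nonunits` is stable under multiplication by elements of `V`, and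
`emb x ∈ V` for all `x` in `O` (integral over `ℤ`). -/
def St_IVEX : Prop :=
  ∀ (A B : ℤ) (_ : Case A B), ∃ V : ValuationSubring ℂ, emb (ppi A B) ∈ V.nonunits ∧
    (3 : ℂ) ∈ V.nonunits

/-- (ICHI) characters with values in the residue field.

PROOF. Let `F` be the residue field, `e = Fintype.card Δ`, `3 ∤ e`. By IRES `F` is algebraically closed of
characteristic 3, so the groups of `e`-th roots of unity of `ℂ` and of `F` are cyclic of order `e`. The `e`-th roots of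
unity `z` of `ℂ` are units of `V`, and reduction is injective on them (for a primitive `e`-th root `z`,
`∏_(0<i<e) (1 - z^i) = e` is a unit of `V`, so `1 - z^i` is a unit for `0 < i < e`), so bijective onto those of `F`. `χ δ` is
an `e`-th root of unity; let `X δ` be the unique `e`-th root of unity of `ℂ` reducing to it: a homomorphism.
`θ`: regard `F` as a vector space over `ZMod 3`. Let `t = Σ_δ (χ δ)⁻¹ ⊗ χ δ` in `F ⊗ F` over `ZMod 3`. The multiplication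
`F ⊗ F → F` maps `t` to `e ≠ 0`, so `t ≠ 0`. If `Σ_δ θ((χ δ)⁻¹) χ δ = 0` in `F` for all linear `θ : F → ZMod 3`, then
`(θ ⊗ id) t = 0` for all `θ`, so `t = 0` (`F` is free over `ZMod 3`; take a basis `b_i` of `F`,
`(χ δ)⁻¹ = Σ_i θ_i((χ δ)⁻¹) b_i`, `t = Σ_i b_i ⊗ Σ_δ θ_i((χ δ)⁻¹) χ δ`; directly:
`e = Σ_δ (χ δ)⁻¹ χ δ = Σ_i b_i Σ_δ θ_i((χ δ)⁻¹) χ δ = 0`, no tensor product needed). The residue of the sum in the
conclusion is `Σ_δ θ((χ δ)⁻¹) χ δ ≠ 0`. -/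
def St_ICHI : Prop :=
  ∀ (V : ValuationSubring ℂ) (_ : (3 : ℂ) ∈ V.nonunits) (Δ : Type) [Group Δ] [Fintype Δ]
    (_ : ∀ σ τ : Δ, σ * τ = τ * σ)
    (_ : ¬ 3 ∣ Fintype.card Δ) (χ : Δ →* (IsLocalRing.ResidueField V)ˣ),
    ∃ (X : Δ →* ℂˣ) (θ : IsLocalRing.ResidueField V →+ ZMod 3),
      (∑ δ : Δ, ((θ ((χ δ)⁻¹ : (IsLocalRing.ResidueField V)ˣ)).val : ℂ) * (X δ : ℂ)) ∉ V.nonunits

/-- (IHF) the set `v ≥ 1/2` is stable under sums and under multiplication by `V`, and under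
division by units.

PROOF. `(x + y)²/3 = x²/3 + y²/3 + 2 (xy/3)` and `(xy/3)² = (x²/3)(y²/3) ∈ V`, so `xy/3 ∈ V` (if `t² ∈ V` then `t ∈ V`: otherwise
`t⁻¹ ∈ V`, `t = t² t⁻¹ ∈ V`). `(v x)²/3 = v² x²/3`. If `v ∉ V.nonunits`, then `v ≠ 0` and `v⁻¹ ∈ V`. -/
def St_IHF : Prop :=
  ∀ (V : ValuationSubring ℂ), Hf V 0 ∧ (∀ x y, Hf V x → Hf V y → Hf V (x + y)) ∧
    (∀ v x, v ∈ V → Hf V x → Hf V (v * x)) ∧ (∀ v x, v ∉ V.nonunits → Hf V (v * x) → Hf V x)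

/-- (IFOU) Fourier transform on `Δ`.

Uses IHF. PROOF. `X δ` is a root of unity, so it and its inverse are in `V`. Multiply the hypothesis for `δ' ∈ Δ` by
`(X δ')⁻¹` and add: `Σ_δ' (X δ')⁻¹ Σ_δ Σ_j b_δ c_j T(δ γ^j δ') = Σ_j c_j Σ_δ b_δ X(δ) Σ_δ'' (X δ'')⁻¹ T(γ^j δ'')` with
`δ'' = δ δ'`, `(X δ')⁻¹ = X δ (X δ'')⁻¹` (`G` is commutative). So `(Σ_δ b_δ X δ) Σ_j c_j Σ_δ'' (X δ'')⁻¹ T(γ^j δ'')`
has `Hf V`, and the first factor is not in `V.nonunits`. -/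
def St_IFOU : Prop :=
  ∀ (V : ValuationSubring ℂ) (G : Type) [Group G] [Finite G] (_ : ∀ σ τ : G, σ * τ = τ * σ)
    (γ : G) (Δ : Subgroup G) [Fintype Δ] (T : G → ℂ) (b : Δ → ℤ) (N : ℕ) (c : ℕ → ℤ)
    (X : Δ →* ℂˣ) (_ : (∑ δ : Δ, (b δ : ℂ) * (X δ : ℂ)) ∉ V.nonunits)
    (_ : ∀ τ' : G, Hf V (∑ δ : Δ, ∑ j ∈ Finset.range (N + 1),
      (b δ : ℂ) * (c j : ℂ) * T ((δ : G) * γ ^ j * τ'))),
    Hf V (∑ j ∈ Finset.range (N + 1), (c j : ℂ) *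
      ∑ δ : Δ, (((X δ)⁻¹ : ℂˣ) : ℂ) * T (γ ^ j * (δ : G)))

/-- (ITG) powers of `T = γ - 1`.

PROOF. Induction on `N`: `T^(N+1) c = T (T^N c) = γ(T^N c)/T^N c`, and
`binom(N+1, j) = binom(N, j-1) + binom(N, j)`: the exponent of `γ^j c` in `T^N c` is `(-1)^(N-j) binom(N, j)`
(`(X - 1)^N`); integer powers of nonzero elements. -/
def St_ITG : Prop :=
  ∀ (k L : Type) [Field k] [Field L] [Algebra k L] (γ : L ≃ₐ[k] L) (x : L) (_ : x ≠ 0) (N : ℕ),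
    (Tg γ)^[N] x = ∏ j ∈ Finset.range (N + 1),
      ((γ ^ j) x) ^ ((-1 : ℤ) ^ (N - j) * (N.choose j : ℤ))

/-- (IFIN) finitely many characters.

PROOF. `e` is determined by its values at representatives of the finite ring `O/g` (`g ≠ 0`; `per`), which are in the
finite set of `0` and the `r`-th roots of unity (`0 < r`). -/
def St_IFIN : Prop :=
  ∀ (A B : ℤ) (_ : Case A B) (g : OO A B) (_ : g ≠ 0) (r : ℕ) (_ : 0 < r),
    {e : OO A B → ℂ | IsEps g e ∧ ∀ x, e x ≠ 0 → e x ^ r = 1}.Finite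

/-! ## The characters -/

/-- The action on the torsion points, in abstract form: `X τ` is the set of the `x` in `O` such that
`σ_x = τ` on `D`, `Δ` the subgroup of the automorphisms trivial on the layer, `γ` fixes `K` and acts
on the layer as `4`. -/
structure IsMod {A B : ℤ} (f n : ℕ) {G : Type} [Group G] (γ : G) (Δ : Subgroup G)
    (X : G → Set (OO A B)) : Prop where
  comm : ∀ σ τ : G, σ * τ = τ * σ
  ord : γ ^ 3 ^ n = 1
  gen : ∀ h : G, ∃ δ ∈ Δ, ∃ i : ℕ, h = δ * γ ^ i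
  one : (1 : OO A B) ∈ X 1
  cop : ∀ τ, ∀ x ∈ X τ, IsCoprime x (lev A B f n)
  ex : ∀ x, IsCoprime x (lev A B f n) → (∃ τ, x ∈ X τ) ∨ ∃ τ, -x ∈ X τ
  uniq : ∀ x τ τ', x ∈ X τ → x ∈ X τ' → τ = τ'
  mul : ∀ x y τ τ', x ∈ X τ → y ∈ X τ' → x * y ∈ X (τ * τ')
  per : ∀ x y τ, lev A B f n ∣ x - y → x ∈ X τ → y ∈ X τ
  neg : ∀ x τ, x ∈ X τ → ¬ ((3 * f : ℕ) : OO A B) ∣ x + 1
  triv : ∀ x τ, x ∈ X τ → ((3 * f : ℕ) : OO A B) ∣ x - 1 → ∃ i : ℕ, τ = γ ^ i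
  nrm : ∀ x τ, x ∈ X τ → ∀ i : ℕ, (τ * (γ ^ i)⁻¹ ∈ Δ ↔
    (3 : ℤ) ^ (n + 1) ∣ nm x - 4 ^ i ∨ (3 : ℤ) ^ (n + 1) ∣ nm x + 4 ^ i)

/-- (IE0) the even character `e0` of `(O/3f)^*` attached to a character of `Δ`.

PROOF. Write `m = lev A B f n = f 3^(n+1)`. (1) `Δ ∩ ⟨γ⟩ = 1`: if `γ^i ∈ Δ`, then `nrm` for `x = 1`, `τ = 1` (and `(γ^i)⁻¹ ∈ Δ`) gives
`3^(n+1) ∣ 1 - 4^i` or `3^(n+1) ∣ 1 + 4^i`; the second is impossible modulo 3, so `3^n ∣ i` (order of `4` modulo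
`3^(n+1)`: `v_3(4^i - 1) = 1 + v_3(i)`, LTE `padicValInt.pow_sub_pow` or `Int.emultiplicity_pow_sub_pow`), `γ^i = 1`. So every
`τ` is `δ γ^i` with a unique `δ =: δ(τ) ∈ Δ`, and `τ ↦ δ(τ)` is a homomorphism which is trivial on `⟨γ⟩`.
(2) For `x` prime to `m` exactly one of `x`, `-x` is in `⋃ X τ`: not both, since `x ∈ X τ`, `-x ∈ X τ'` and
an inverse `y ∈ X (τ⁻¹)` of `x` modulo `m` (`x^k ≡ 1` modulo `m` for some `k ≥ 1`, `O/m` finite; `y = x^(k-1) ∈ X(τ^(k-1))`,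
`τ^k = 1` by `uniq`, `one`, `per`) give `-1 ∈ ⋃ X τ`, against `neg`. Define `e0(x) = (χ(δ(τ)))⁻¹` if `x ∈ X τ` or `-x ∈ X τ`, and
`e0(x) = 0` if `x` is not prime to `m` (equivalently, not prime to `3f`: the two numbers have the same prime divisors:
`IsCoprime.pow_right_iff` etc.). Multiplicative by `mul`. (3) Periodic modulo `3f`: let `x ≡ y` modulo `3f`, both prime to `m`,
`± x ∈ X τ`, `± y ∈ X τ'`. With an inverse `z ∈ X(τ'⁻¹)` of `± y` modulo `m`: `(± x) z ≡ ± 1` modulo `3f` is in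
`X (τ τ'⁻¹)`; by `neg` it is `≡ 1`, so `τ τ'⁻¹ = γ^i` by `triv` and `δ(τ) = δ(τ')`. -/
def St_IE0 : Prop :=
  ∀ (A B : ℤ) (_ : Case A B) (f n : ℕ) (_ : f ≠ 0) (_ : ¬ 3 ∣ f) (G : Type) [Group G] [Finite G]
    (γ : G) (Δ : Subgroup G) (X : G → Set (OO A B)) (_ : IsMod f n γ Δ X) (χ : Δ →* ℂˣ) (r : ℕ)
    (_ : ∀ δ, χ δ ^ r = 1),
    ∃ e0 : OO A B → ℂ, e0 1 = 1 ∧ e0 (-1) = 1 ∧ (∀ x y, e0 (x * y) = e0 x * e0 y) ∧
      (∀ x y, ((3 * f : ℕ) : OO A B) ∣ x - y → e0 x = e0 y) ∧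
      (∀ x, e0 x ≠ 0 ↔ IsCoprime x ((3 * f : ℕ) : OO A B)) ∧ (∀ x, e0 x ≠ 0 → e0 x ^ r = 1) ∧
      ∀ (x : OO A B) (δ : Δ) (i : ℕ), x ∈ X ((δ : G) * γ ^ i) → e0 x = (((χ δ)⁻¹ : ℂˣ) : ℂ)

/-- (IEPS) the character `ε` and the sign `s`.

Uses G0 (`Pool/Agent/MU3/G_G0.lean`). PROOF. `g = f π̄`. `π`, `π̄`, `f` are pairwise coprime (`3 ∤ f`, `π π̄ = 3`). Let `y ∈ O` with `y ≡ 1` modulo
`g` and `y ≡ -1` modulo `π` (CRT). `y² ≡ 1` modulo `3 f`, so `e0(y) = 1` or `-1`. Let `w = wq π̄`, `s = -1` in the first case, `w = wq π`, `s = 1` in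
the second. `φ(x) = e0(x) w(x)` satisfies: if `x ≡ x'` modulo `g`, both prime to `3 f`, then `φ(x) = φ(x')`:
`x ≡ ± x'` modulo `π` (`O/π` has three elements), so `x ≡ x'` or `x ≡ y x'` modulo `3f`, and `φ(y) = 1`: in the first case
`e0(y) = 1`, `w(y) = wq π̄ y = 1` (`π̄ ∣ g`), in the second `e0(y) = -1`, `wq π y = -1`. Define `ε(x) = φ(x')` for `x` prime to `g`, where `x'` is prime
to `3f`, `x' ≡ x` modulo `g` (CRT), `0` if `x` is not prime to `g`. `ε(-1) = e0(-1) w(-1) = -1`. Powers: `e0(x')^r = 1`,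
`w(x')² = 1`. Last formula, `x` prime to `3 f`: case `s = 1`: `ε(x) = e0(x) wq π x`. Case `s = -1`: `wq π x * wq π̄ x = w3(N x)`: `x ≡ a`
modulo `π`, `x ≡ b` modulo `π̄` with `a, b = ± 1`; then `x̄ ≡ b` modulo `π`, `N x = x x̄ ≡ a b` modulo `π`, and an
integer divisible by `π` is divisible by `3`. -/
def St_IEPS : Prop :=
  ∀ (A B : ℤ) (_ : Case A B) (f : ℕ) (_ : f ≠ 0) (_ : ¬ 3 ∣ f) (e0 : OO A B → ℂ) (r : ℕ)
    (_ : e0 1 = 1) (_ : e0 (-1) = 1) (_ : ∀ x y, e0 (x * y) = e0 x * e0 y)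
    (_ : ∀ x y, ((3 * f : ℕ) : OO A B) ∣ x - y → e0 x = e0 y)
    (_ : ∀ x, e0 x ≠ 0 ↔ IsCoprime x ((3 * f : ℕ) : OO A B)) (_ : ∀ x, e0 x ≠ 0 → e0 x ^ r = 1),
    ∃ (e : OO A B → ℂ) (s : ℤ), IsEps ((f : OO A B) * star (ppi A B)) e ∧ (s = 1 ∨ s = -1) ∧
      (∀ x, e x ≠ 0 → e x ^ (2 * r) = 1) ∧
      ∀ x, IsCoprime x ((3 * f : ℕ) : OO A B) →
        e0 x * (wq (ppi A B) x : ℂ) = e x * (if s = 1 then 1 else (w3 (nm x) : ℂ))

/-- (ITH) the sums `T̂_i`.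

Uses St_PER (`ee` is odd and periodic, `StB.lean`), `IsLat.emb_mul_mem`. PROOF. Write `m = lev A B f n`, `u = Om / emb m`, `a = 1 + 6 f`.
Everything is periodic modulo `m`: `emb (m y) u = Om emb y ∈ L`, `ee` is periodic, `wq π` is periodic modulo `3`, `π ∣ 3 ∣ m`. `FF` is even:
`wq π (-x) = - wq π x`, `ee (-z) = - ee z`. The left side is `Σ_δ (χ δ)⁻¹ Σ_(x ∈ X(γ^i δ)) FF x = Σ e0(x) FF(x)` over the classes
`x` in `⋃_δ X(γ^i δ)`, which are the `x ∈ ⋃ X τ` with `N x ≡ ± 4^i` modulo `3^(n+1)` (`nrm`, `gen`; `X` disjoint by `uniq`; `cop`).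
Exactly one of `x`, `-x` is in `⋃ X τ` for `x` prime to `m` (`ex`, and not both as in (IE0), (2)), and
`e0(x) FF(x)` and the condition on `N x` are invariant under `x ↦ -x`, so twice the left side is the sum over all classes
`x` prime to `m` with `N x ≡ 4^i` or `N x ≡ -4^i` (not both: `2 · 4^i` is prime to 3); `e0 FF` is zero if `x` is not prime to `m`. By `hs`,
`e0(x) wq π x = ε(x)` resp. `ε(x) w3(N x)`, and `w3(4^i) = 1`, `w3(-4^i) = -1`: the sum over `N x ≡ c` is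
`Σ ε(x) dlT(x u)` for `c = 4^i`, and `s Σ ε(x) dlT(x u)` for `c = -4^i` (if `x` is prime to `g = f π̄` and `N x ≡ c` is prime to 3, then
`x` is prime to `3 f`). Finally `Σ_(N x ≡ c) ε(x) dlT(x u) = a Σ ε(x) ee(a x u) - a² Sn c` and `x ↦ a x` is a bijection of
the classes (`a` is prime to `m`, as `a ≡ 1` modulo `3 f`; in fact modulo `6 f`) with `ε(a x) = ε(x)` (`g ∣ a - 1 = 6 f`),
`N(a x) = a² N x`: the first sum is `Sn (a² c)` (`a² y ≡ a² c` iff `y ≡ c` modulo `3^(n+1)`). So it is `ST c`. -/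
def St_ITH : Prop :=
  ∀ (A B : ℤ) (_ : Case A B) (L : PeriodPair) (Om : ℂ) (_ : IsCM A B L Om) (f n : ℕ)
    (_ : f ≠ 0) (_ : ¬ 3 ∣ f) (G : Type) [Group G] [Finite G]
    (γ : G) (Δ : Subgroup G) [Fintype Δ] (X : G → Set (OO A B)) (_ : IsMod f n γ Δ X)
    (χ : Δ →* ℂˣ) (e0 : OO A B → ℂ) (_ : e0 1 = 1) (_ : e0 (-1) = 1)
    (_ : ∀ x y, e0 (x * y) = e0 x * e0 y)
    (_ : ∀ x y, ((3 * f : ℕ) : OO A B) ∣ x - y → e0 x = e0 y)
    (_ : ∀ x, e0 x ≠ 0 ↔ IsCoprime x ((3 * f : ℕ) : OO A B))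
    (_ : ∀ (x : OO A B) (δ : Δ) (i : ℕ), x ∈ X ((δ : G) * γ ^ i) → e0 x = (((χ δ)⁻¹ : ℂˣ) : ℂ))
    (e : OO A B → ℂ) (s : ℤ) (_ : IsEps ((f : OO A B) * star (ppi A B)) e) (_ : s = 1 ∨ s = -1)
    (_ : ∀ x, IsCoprime x ((3 * f : ℕ) : OO A B) →
      e0 x * (wq (ppi A B) x : ℂ) = e x * (if s = 1 then 1 else (w3 (nm x) : ℂ))) (i : ℕ),
    2 * ∑ δ : Δ, (((χ δ)⁻¹ : ℂˣ) : ℂ) * sumMod (lev A B f n) (fun x =>
        open Classical in if x ∈ X (γ ^ i * (δ : G)) then FF L Om f n x else 0) =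
      ST L Om f e n (4 ^ i) + s * ST L Om f e n (-4 ^ i)

end

end Pool.Agent.MU3I


end

section

/-!
# MU3, block FH (helper27): statement F5 for the sums `Sn` of block I
-/

set_option autoImplicit false

namespace Pool.Agent.MU3F

open _root_.MU3 _root_.Pool.Agent.MU3 _root_.Pool.Agent.MU3A _root_.Pool.Agent.MU3B _root_.Pool.Agent.MU3C _root_.Pool.Agent.MuSym OnePoint

noncomputable section

/-- (F5S) the sums `Sn` of block I (no condition of coprimality, it is automatic) are Fourier transforms of the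
values of the symbol. -/
def Sf_F5S : Prop :=
  ∀ (A B : ℤ), Case A B → ∀ (L : PeriodPair) (Om : ℂ), IsLat A B L Om →
    ∀ (f n : ℕ) (e : OO A B → ℂ), f ≠ 0 → IsEps ((f : OO A B) * star (ppi A B)) e →
    ∀ c : ℤ, ¬ (3 : ℤ) ∣ c →
      MU3I.Sn L Om f e n c =
      (2 * f / Om) * ∑ b ∈ Finset.range (3 ^ (n + 1)),
        ex (-(b * c) / 3 ^ (n + 1)) * Phi e ∞ (((b / 3 ^ (n + 1) : ℚ) : ℚ) : OnePoint ℚ)

end

end Pool.Agent.MU3F


end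

section

/-!
# MUX, block E, part 2 (helper66): the final forms for families of points `(i, x)`, `p = 2` and `p = 3` at once

`C τ` is any conjugate family (`τ (C 1) = C τ`) with `C τ = ∏ Θ_a(pt R m i x; L_i)` over a set `S τ` of pairs
`(i, x)`. For helper3's `cX`: `S τ = XX R m h τ`; for helper59's root `cW`: `S τ` a half of it (`HalfS`).
-/

set_option autoImplicit false

namespace Pool.Agent.MUXE

open _root_.MU3 _root_.Pool.Agent.MU3A _root_.Pool.Agent.MU3B _root_.Pool.Agent.MUX _root_.Pool.Agent.MUXU _root_.Pool.Agent.RI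

noncomputable section

section
variable {A B : ℤ} {n : ℕ} {ι : Type}

/-- `S` is a half of `XX R m h τ` for `(i, x) ↦ (i, -x)` -/
structure HalfS (R : Reps A B n ι) (m : ℕ) {D : IntermediateField ℚ ℂ} (h : kk A B ≤ D)
    (τ : letI := algC h; D ≃ₐ[kk A B] D)
    (S : Finset (ι × (OO A B ⧸ idl (A := A) (B := B) m))) : Prop where
  sub : ∀ q ∈ S, q ∈ XX R m h τ
  cov : ∀ q ∈ XX R m h τ, q ∈ S ∨ (q.1, -q.2) ∈ S
  dis : ∀ q ∈ S, (q.1, -q.2) ∉ S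

/-- `T(τ)` with weights `c` and signs `w` -/
def TTw (R : Reps A B n ι) (c : ι → ℂ) (w : OO A B → ℤ) (m a : ℕ) {D : IntermediateField ℚ ℂ}
    (h : kk A B ≤ D) (τ : letI := algC h; D ≃ₐ[kk A B] D) : ℂ :=
  ∑ᶠ q ∈ XX R m h τ, (w (Quotient.out q.2) : ℂ) * c q.1 *
    dlX (R.L q.1) a (pt R m q.1 (Quotient.out q.2))

/-- odd sign functions on the elements prime to `m`, congruent to `wP P` modulo `p` (`p = 3`: `wP P`;
`p = 2`: any odd sign function) -/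
structure OddW (p : ℕ) (P : Ideal (OO A B)) (m : ℕ) (w : OO A B → ℤ) : Prop where
  per : ∀ x y : OO A B, x - y ∈ idl (A := A) (B := B) m → w x = w y
  pm : ∀ x, IsCoprime x ((m : ℕ) : OO A B) → w x = 1 ∨ w x = -1
  neg : ∀ x, w (-x) = -w x
  cong : ∀ x, IsCoprime x ((m : ℕ) : OO A B) → (p : ℤ) ∣ w x - wP P x

end

/-- (MAIN0) Lemma E for arbitrary families of pairs. -/
def Sxe_MAIN0 : Prop :=
  ∀ (p : ℕ) (A B : ℤ) (P : Ideal (OO A B)) (V : ValuationSubring ℂ) (f : ℕ),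
    SetP p A B P V f → RingE A B → RedE p P V → TorX A B →
    ∀ (ι : Type) [Fintype ι] (R : Reps A B (p * f) ι) (n : ℕ), 1 ≤ n →
    ∀ (H : ι → Finset ℂ), (∀ i, IsHalf (R.L i) (aX p f : ℂ) (H i)) →
    ∀ c : ι → ℂ, WtE V P R c →
    ∀ (D : IntermediateField ℚ ℂ) (h : kk A B ≤ D),
      (∀ y ∈ D, y ∈ RF (idl (A := A) (B := B) (lvX p f n))) →
    letI := algC h
    ∀ (C : (D ≃ₐ[kk A B] D) → ℂ)
      (S : (D ≃ₐ[kk A B] D) → Finset (ι × (OO A B ⧸ idl (A := A) (B := B) (lvX p f n)))),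
    (∀ τ : D ≃ₐ[kk A B] D, ∃ y : D, (y : ℂ) = C 1 ∧ ((τ y : D) : ℂ) = C τ) →
    (∀ τ, ∀ q ∈ S τ, IsCoprime (Quotient.out q.2 : OO A B) ((lvX p f n : ℕ) : OO A B)) →
    (∀ τ, C τ = ∏ q ∈ S τ, ThetaH (R.L q.1) (H q.1) (pt R (lvX p f n) q.1 (Quotient.out q.2))) →
    ∀ g : (D ≃ₐ[kk A B] D) → ℤ,
      (∃ w ∈ D, w ^ p = ∏ᶠ τ : D ≃ₐ[kk A B] D, C τ ^ g τ) →
      ∀ τ' : D ≃ₐ[kk A B] D,
        HfX p V (∑ᶠ τ : D ≃ₐ[kk A B] D, (g τ : ℂ) * ∑ q ∈ S (τ * τ'),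
          (wP P (Quotient.out q.2) : ℂ) * c q.1 *
            dlX (R.L q.1) (aX p f) (pt R (lvX p f n) q.1 (Quotient.out q.2)))

/-- (BDL) the logarithmic derivatives are integral, odd and periodic on the points `(i, x)`. -/
def Sxe_BDL : Prop :=
  ∀ (p : ℕ) (A B : ℤ) (P : Ideal (OO A B)) (V : ValuationSubring ℂ) (f : ℕ),
    SetP p A B P V f → RingE A B → RedE p P V →
    ∀ (ι : Type) (R : Reps A B (p * f) ι) (n : ℕ),
    ∀ (H : ι → Finset ℂ), (∀ i, IsHalf (R.L i) (aX p f : ℂ) (H i)) →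
    ∀ (i : ι) (x : OO A B), IsCoprime x ((lvX p f n : ℕ) : OO A B) →
      V.valuation (dlX (R.L i) (aX p f) (pt R (lvX p f n) i x)) ≤ 1 ∧
      ∀ y : OO A B, x + y ∈ idl (A := A) (B := B) (lvX p f n) →
        dlX (R.L i) (aX p f) (pt R (lvX p f n) i y) = -dlX (R.L i) (aX p f) (pt R (lvX p f n) i x)

/-- (EW) the final form for a root `C` of `cX` (helper59's `cW`): signs `c`, units `muX R i`, any odd sign function `w`. -/
def Sxe_EW : Prop :=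
  ∀ (p : ℕ) (A B : ℤ) (P : Ideal (OO A B)) (V : ValuationSubring ℂ) (f : ℕ),
    SetP p A B P V f → RingE A B → RedE p P V → TorX A B →
    ∀ (ι : Type) [Fintype ι] (R : Reps A B (p * f) ι),
    (∀ i, V.valuation (muX R i) = 1) ∧
    ∃ c : ι → ℤ, (∀ i, c i = 1 ∨ c i = -1) ∧
    ∀ n : ℕ, 1 ≤ n →
    ∀ (H : ι → Finset ℂ), (∀ i, IsHalf (R.L i) (aX p f : ℂ) (H i)) →
    ∀ (w : OO A B → ℤ), OddW p P (lvX p f n) w →
    ∀ (D : IntermediateField ℚ ℂ) (h : kk A B ≤ D),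
      (∀ y ∈ D, y ∈ RF (idl (A := A) (B := B) (lvX p f n))) →
    letI := algC h
    ∀ (C : (D ≃ₐ[kk A B] D) → ℂ),
    (∀ τ : D ≃ₐ[kk A B] D, ∃ y : D, (y : ℂ) = C 1 ∧ ((τ y : D) : ℂ) = C τ) →
    (∀ τ : D ≃ₐ[kk A B] D, ∃ S, HalfS R (lvX p f n) h τ S ∧
      C τ = ∏ q ∈ S, ThetaH (R.L q.1) (H q.1) (pt R (lvX p f n) q.1 (Quotient.out q.2))) →
    ∀ g : (D ≃ₐ[kk A B] D) → ℤ,
      (∃ y ∈ D, y ^ p = ∏ᶠ τ : D ≃ₐ[kk A B] D, C τ ^ g τ) →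
      ∀ τ' : D ≃ₐ[kk A B] D,
        HfX p V (1 / 2 * ∑ᶠ τ : D ≃ₐ[kk A B] D, (g τ : ℂ) *
          TTw R (fun i => (c i : ℂ)) w (lvX p f n) (aX p f) h (τ * τ'))

end

end Pool.Agent.MUXE


end

section

/-!
# MU3, block I (helper36), part 2: the fields

`TorA` collects the facts on the fields `TF L m = k(E[m])` (block A, helper34). `IMOD` shows that the concrete
action is an `IsMod`, `I3F` is the input (I3) for one generator `γ`.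
-/

set_option autoImplicit false

namespace Pool.Agent.MU3I

open _root_.MU3 _root_.Pool.Agent.MU3 _root_.Pool.Agent.MU3A _root_.Pool.Agent.MU3B _root_.Pool.Agent.MU3C _root_.Pool.Agent.RI
  _root_.Pool.Agent.RID

noncomputable section

set_option maxHeartbeats 2000000 in
/-- The facts on the fields `TF L m` used here (from block A). -/
structure TorA (A B : ℤ) (L : PeriodPair) (Om : ℂ) : Prop where
  fin : ∀ m : OO A B, m ≠ 0 → FiniteDimensional (kk A B) (TF L m)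
  gal : ∀ m : OO A B, m ≠ 0 → IsGalois (kk A B) (TF L m)
  act : ∀ m : OO A B, m ≠ 0 → ∀ σ : TF L m ≃ₐ[kk A B] TF L m, ∃ x, Act L (_root_.Pool.Agent.MU3A.em σ) m x
  per : ∀ m : OO A B, m ≠ 0 → ∀ (σ : TF L m ≃ₐ[kk A B] TF L m) (x y : OO A B),
    Act L (_root_.Pool.Agent.MU3A.em σ) m x → (Act L (_root_.Pool.Agent.MU3A.em σ) m y ↔ m ∣ x - y)
  inj : ∀ m : OO A B, m ≠ 0 → ∀ (σ τ : TF L m ≃ₐ[kk A B] TF L m) (x : OO A B),
    Act L (_root_.Pool.Agent.MU3A.em σ) m x → Act L (_root_.Pool.Agent.MU3A.em τ) m x → σ = τ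
  mul : ∀ m : OO A B, m ≠ 0 → ∀ (σ τ : TF L m ≃ₐ[kk A B] TF L m) (x y : OO A B),
    Act L (_root_.Pool.Agent.MU3A.em σ) m x → Act L (_root_.Pool.Agent.MU3A.em τ) m y → Act L (_root_.Pool.Agent.MU3A.em (σ * τ)) m (x * y)
  tower : ∀ m m' : OO A B, m' ≠ 0 → m ∣ m' → TF L m ≤ TF L m'
  res : ∀ m m' : OO A B, m' ≠ 0 → m ∣ m' → ∀ (σ : TF L m' ≃ₐ[kk A B] TF L m')
    (τ : TF L m ≃ₐ[kk A B] TF L m) (x : OO A B), Act L (_root_.Pool.Agent.MU3A.em σ) m' x →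
    (∀ (y : ℂ) (hy : y ∈ TF L m) (hy' : y ∈ TF L m'),
      ((σ ⟨y, hy'⟩ : TF L m') : ℂ) = ((τ ⟨y, hy⟩ : TF L m) : ℂ)) → Act L (_root_.Pool.Agent.MU3A.em τ) m x
  zeta : ∀ m : OO A B, m ≠ 0 → ∀ M : ℕ, (M : OO A B) ∣ m → ∀ z : ℂ, z ^ M = 1 →
    z ∈ TF L m ∧ ∀ (σ : TF L m ≃ₐ[kk A B] TF L m) (x : OO A B) (hz : z ∈ TF L m),
      Act L (_root_.Pool.Agent.MU3A.em σ) m x → ((σ ⟨z, hz⟩ : TF L m) : ℂ) = z ^ (nm x).toNat

/-- (ITOR) `TorA` from block A.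

Uses Sa_GAL, Sa_ACT, Sa_NRM, Sa_CYC (`StA2.lean`). PROOF. `fin`, `gal`: NRM. `act`: GAL with `F = TF L m`, `σ = em σ`. `per`: ACT (1), (2). `inj`:
ACT (5) gives `em σ = em τ`, so `σ = τ`. `mul`: ACT (4). `tower`: `m = m₁ d`.. `E[m] ⊆ E[m']`: the generators of `TF L m` are
generators of `TF L m'` (`IntermediateField.adjoin.mono`; `emb m z ∈ L` implies `emb m' z ∈ L`, `IsLat.emb_mul_mem`). `res`: by ACT (3) and (8):
`Act L (em σ) m x`, then `Act L ((em σ).comp (inclusion _)) m x`, and `(em σ).comp (inclusion _) = em τ` by the hypothesis. `zeta`: CYC for `M` (`M ≠ 0` as `m ≠ 0`):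
`z ∈ TF L M ≤ TF L m`, and `Act L (em σ) M x` by ACT (3). -/
def St_ITOR : Prop :=
  ∀ (A B : ℤ) (L : PeriodPair) (Om : ℂ), Case A B → IsCM A B L Om → TorA A B L Om

/-- the standard root of unity of order `M` -/
def zt (M : ℕ) : ℂ := Complex.exp (2 * Real.pi * Complex.I / M)

/-- (ILAY) the layer is the real subfield of `ℚ(ζ)`, `ζ` of order `3^(n+1)`.

PROOF. `B ≤ ℚ(μ_(3^j))` for some `j`, we may take `j ≥ n + 1`. `Gal(ℚ(μ_(3^j))/ℚ) ≅ (ℤ/3^j)^*` is cyclic (odd prime), so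
`ℚ(μ_(3^j))` has at most one subfield of degree `3^n` (Galois correspondence; subgroups of a cyclic group are
determined by their order; compare `Pool/Agent/RID/P_LAYC.lean`). `ℚ(ζ + ζ⁻¹)`, `ζ = zt (3^(n+1))`, has degree
`φ(3^(n+1))/2 = 3^n`: it is the fixed field of `ζ ↦ ζ⁻¹` in `ℚ(ζ)` (`ζ` is a root of `X² - (ζ + ζ⁻¹) X + 1`, so `[ℚ(ζ) : ℚ(ζ+ζ⁻¹)] ≤ 2`,
and it is `≠ 1` since `ℚ(ζ+ζ⁻¹)` is real and `ζ` is not). -/
def St_ILAY : Prop :=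
  ∀ (n : ℕ) (B : IntermediateField ℚ ℂ) (_ : IsLayer 3 n B),
    B = IntermediateField.adjoin ℚ {zt (3 ^ (n + 1)) + (zt (3 ^ (n + 1)))⁻¹}

/-- (IGAM) the automorphism `γ` of `K_n / k`: trivial on `K`, acting on the layer as `4`.

Uses TorA, ILAY. PROOF. `m = lev A B f n = f 3^(n+1)`. CRT in `ℤ`: choose `x ∈ ℤ` with `x ≡ 1` modulo `f` and `x ≡ -2` modulo
`3^(n+1)` (`3 ∤ f`); then `x ≡ 1` modulo `3 f` and `x` is prime to `m`. By `Cpl` one of `x`, `-x` is `a_σ` for some `σ` of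
`TF L m`. If it were `-x`: restrict `σ` to `TF L (3f)` (`tower`, `res`; it is Galois): the restriction acts as `-x`, i.e. `-1`
modulo `3f`; but the identity acts as `1`, so by `Cpl` for `lev A B f 0 = 3 f` no automorphism acts as `-1`. So `a_σ = x`, and `σ` is
trivial on `TF L (3f)` (`inj`), so on `K`. `D = K ⊔ B n` is contained in `TF L m` and `D/k` is Galois, so `σ` restricts to `γ` of
`D`. `σ ζ = ζ^(x²) = ζ^4` for `ζ = zt (3^(n+1))` (`zeta`; `nm x = x²`; `x² ≡ 4` modulo `3^(n+1)`). Fixed field: let `y ∈ D` be fixed by `γ`. `Gal(D/K)` embeds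
into `Gal(B n/ℚ)` by restriction, which is cyclic of order `3^n`, generated by the restriction of `γ`, `ζ + ζ⁻¹ ↦ ζ^4 + ζ^(-4)`
(ILAY; the powers `γ^i` map `ζ + ζ⁻¹` to `ζ^(4^i) + ζ^(-4^i)`, different for `0 ≤ i < 3^n` because `4^i ≡ ± 4^j` modulo `3^(n+1)`
only for `i ≡ j` modulo `3^n`; and `Gal(B n/ℚ)` has order `3^n`). So every element of `Gal(D/K)` is a power of `γ`, and `y` is fixed by `Gal(D/K)`:
`y ∈ K`. Order: `γ^(3^n)` is trivial on `K` and on `B n`. -/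
def St_IGAM : Prop :=
  ∀ (A B : ℤ) (_ : Case A B) (L : PeriodPair) (Om : ℂ) (_ : IsCM A B L Om) (_ : TorA A B L Om)
    (f : ℕ) (_ : f ≠ 0) (_ : ¬ 3 ∣ f) (_ : ∀ n, Cpl L (lev A B f n))
    (K : IntermediateField ℚ ℂ) [FiniteDimensional ℚ K] (_ : kk A B ≤ K)
    (_ : ∀ x ∈ K, x ∈ TF L (lev A B f 0)) (n : ℕ) (Bn : IntermediateField ℚ ℂ)
    (_ : IsLayer 3 n Bn) (h : kk A B ≤ K ⊔ Bn),
    letI := algC h
    ∀ _ : IsGalois (kk A B) ↥(K ⊔ Bn),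
    (∀ x ∈ K ⊔ Bn, x ∈ TF L (lev A B f n)) ∧ ∃ γ : ↥(K ⊔ Bn) ≃ₐ[kk A B] ↥(K ⊔ Bn),
      (∀ x : ↥(K ⊔ Bn), γ x = x ↔ (x : ℂ) ∈ K) ∧ γ ^ 3 ^ n = 1 ∧
      (∀ hz : zt (3 ^ (n + 1)) + (zt (3 ^ (n + 1)))⁻¹ ∈ K ⊔ Bn,
        ((γ ⟨_, hz⟩ : ↥(K ⊔ Bn)) : ℂ) = zt (3 ^ (n + 1)) ^ 4 + (zt (3 ^ (n + 1)) ^ 4)⁻¹) ∧
      (∀ σ : ↥(K ⊔ Bn) ≃ₐ[kk A B] ↥(K ⊔ Bn),
        (∀ x : ↥(K ⊔ Bn), (x : ℂ) ∈ K → σ x = x) → ∃ i : ℕ, σ = γ ^ i)

/-- (IMOD) the concrete action is an `IsMod`.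

Uses TorA, ILAY. PROOF. `D = K ⊔ Bn`, `m = lev A B f n`, `X τ` = the `x` with class in `XX L m h τ`. By `per` of TorA, `x ∈ X τ` iff some `σ`
of `TF L m` has `Act L (em σ) m x` and extends `τ` (`Act` depends only on `x` modulo `m`). `comm`: `Gal(TF L m/k)` is abelian (`act`, `mul`,
`per`, `inj`: `x y = y x`) and every `τ` extends to `TF L m` (`D ⊆ TF L m`, `TF L m / k` normal; lift of automorphisms). `ord`, `gen`: hypotheses `ho`,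
`hg`: for `τ` in the group, let `i` be such that `τ γ^(-i)` is trivial on `Bn`: the restriction of `τ` to `Bn` maps `ζ + ζ⁻¹` to
`ζ^c + ζ^(-c)` with `c` prime to 3, and `c ≡ ± 4^i` modulo `3^(n+1)` for some `i` (the powers of `4` are the `c ≡ 1` modulo 3). `one`: the identity
(`emb 1 z = z`). `cop`: part of `Act`. `ex`: `Cpl`, restriction to `D` (`D/k` normal). `uniq`: `σ` is determined by `x` (`inj`), `τ` by
`σ`. `mul`: TorA. `neg`: if `x ∈ X τ` and `x ≡ -1` modulo `3f = lev A B f 0`, restrict `σ` to `TF L (3f)`: it acts as `-1`, and the identity as `1`, against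
`Cpl` for `n = 0`. `triv`: `σ` restricted to `TF L (3f)` acts as `1`, so it is the identity (`inj`) and `τ` is trivial on `K`: `hk`. `nrm`:
`τ γ^(-i) ∈ NC h Bn` iff `τ` and `γ^i` agree on `Bn`, iff they agree at `ζ + ζ⁻¹` (ILAY), iff `ζ^(N x) + ζ^(-N x) = ζ^(4^i) + ζ^(-4^i)`
(`zeta`), iff `N x ≡ ± 4^i` modulo `3^(n+1)` (`a + a⁻¹ = b + b⁻¹` iff `a = b` or `a b = 1`; `ζ` is primitive). `γ^i` maps
`ζ + ζ⁻¹` to `ζ^(4^i) + ζ^(-4^i)` by induction: `ζ^j + ζ^(-j)` is an integral polynomial in `ζ + ζ⁻¹`. -/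
def St_IMOD : Prop :=
  ∀ (A B : ℤ) (_ : Case A B) (L : PeriodPair) (Om : ℂ) (_ : IsCM A B L Om) (_ : TorA A B L Om)
    (f : ℕ) (_ : f ≠ 0) (_ : ¬ 3 ∣ f) (_ : ∀ n, Cpl L (lev A B f n))
    (K : IntermediateField ℚ ℂ) [FiniteDimensional ℚ K] (_ : kk A B ≤ K)
    (_ : ∀ x ∈ K, x ∈ TF L (lev A B f 0)) (n : ℕ) (Bn : IntermediateField ℚ ℂ)
    (_ : IsLayer 3 n Bn) (h : kk A B ≤ K ⊔ Bn),
    letI := algC h
    ∀ (_ : IsGalois (kk A B) ↥(K ⊔ Bn)) (_ : ∀ x ∈ K ⊔ Bn, x ∈ TF L (lev A B f n))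
      (γ : ↥(K ⊔ Bn) ≃ₐ[kk A B] ↥(K ⊔ Bn)) (_ : ∀ x : ↥(K ⊔ Bn), γ x = x ↔ (x : ℂ) ∈ K)
      (_ : γ ^ 3 ^ n = 1)
      (_ : ∀ hz : zt (3 ^ (n + 1)) + (zt (3 ^ (n + 1)))⁻¹ ∈ K ⊔ Bn,
        ((γ ⟨_, hz⟩ : ↥(K ⊔ Bn)) : ℂ) = zt (3 ^ (n + 1)) ^ 4 + (zt (3 ^ (n + 1)) ^ 4)⁻¹)
      (_ : ∀ σ : ↥(K ⊔ Bn) ≃ₐ[kk A B] ↥(K ⊔ Bn),
        (∀ x : ↥(K ⊔ Bn), (x : ℂ) ∈ K → σ x = x) → ∃ i : ℕ, σ = γ ^ i),
      IsMod (A := A) (B := B) f n γ (NC h Bn)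
        (fun τ => {x | Ideal.Quotient.mk (Ideal.span {lev A B f n}) x ∈ XX L (lev A B f n) h τ})

/-- (ICC) the conjugates of `c = cc L Om m Hs h 1`.

Uses TorA and the theorems of helper59 on `cc`. `c ∈ D` and `τ c = cc L Om m Hs h τ`, `c ≠ 0`. This is the statement of helper59
in the form needed here. -/
def St_ICC : Prop :=
  ∀ (A B : ℤ) (_ : Case A B) (L : PeriodPair) (Om : ℂ) (_ : IsCM A B L Om) (_ : TorA A B L Om)
    (f : ℕ) (_ : f ≠ 0) (_ : ¬ 3 ∣ f) (_ : 2 * absD A B ∣ (f : ℤ)) (n : ℕ)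
    (_ : Cpl L (lev A B f n)) (Hs : Finset ℂ)
    (_ : IsHalf L (1 + 6 * (f : ℂ)) Hs) (D : IntermediateField ℚ ℂ) [FiniteDimensional ℚ D]
    (h : kk A B ≤ D) (_ : ∀ x ∈ D, x ∈ TF L (lev A B f n)),
    letI := algC h
    ∀ (_ : IsGalois (kk A B) D), ∃ hc : cc L Om (lev A B f n) Hs h 1 ∈ D,
      cc L Om (lev A B f n) Hs h 1 ≠ 0 ∧ ∀ τ : D ≃ₐ[kk A B] D,
        ((τ ⟨_, hc⟩ : D) : ℂ) = cc L Om (lev A B f n) Hs h τ

/-- (I3F) the input (I3) for one generator `γ`.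

Uses St_EFIN (follows from Se_MAIN of helper66, `StE.lean`), St_HFIN, ICHI, IRES, IHF, IFOU, ITG, IFIN, IE0, IEPS, ITH, ILAY, IGAM, IMOD, ICC, TorA. PROOF. Fix `N`. `3 ∈ V.nonunits`. Let `R = 2 * finrank ℚ K` (prime to 3), and let `E` be the
finite set (IFIN) of the `ε` with `IsEps (f π̄) ε` and `ε^R = 1` on the support. For each `ε ∈ E` and `s = ± 1` HFIN gives `n₀`; take the
maximum, also with 1. Let `n ≥ n₀`, `D = K ⊔ B n` (`⊆ TF L m`, IGAM), `γ` from IGAM, `χ : NC _ (B n) → F^*`. The order of `NC _ (B n)` divides `finrank ℚ K`: restriction to `K` is injective on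
it, into `Gal(K/k)` (`IsGalois`, `comm`). ICHI gives `X`, `θ`; put `b δ = θ((χ δ)⁻¹).val`. IMOD, IE0 (`r = finrank ℚ K`), IEPS, ITH for
`X`: with `T τ = TT τ` (`= sumMod ..` as in ITH: `finsum_mem` over the classes; `Quotient.out` of the class of `x`, `mk (out q) = q`) for all `i`:
(1) `2 Σ_δ (X δ)⁻¹ T(γ^i δ) = ST(4^i) + s ST(-4^i)`. Suppose `y^3 = ∏_δ (δ T^N c)^(b δ)`, `y ∈ D`. By ITG and ICC
`∏_δ (δ T^N c)^(b δ) = ∏_δ ∏_j (δ γ^j c)^(b δ c_j) = ∏_τ cc(τ)^(g τ)`, `c_j = (-1)^(N-j) binom(N,j)`, `g τ = Σ_(δ, j : δ γ^j = τ) b_δ c_j`. EFIN: for all `τ'`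
`Σ_τ g_τ T(τ τ') = Σ_(δ,j) b_δ c_j T(δ γ^j τ')` has `Hf V`. IFOU: `Σ_j c_j Σ_δ (X δ)⁻¹ T(γ^j δ)` has `Hf V`, so has twice it (IHF), which is the sum in HFIN by (1):
contradiction. For `N = 0`: from `N = 1`, `T` of a cube is a cube. -/
def St_I3F : Prop :=
  ∀ (A B : ℤ) (_ : Case A B) (L : PeriodPair) (Om : ℂ) (_ : IsCM A B L Om) (_ : TorA A B L Om)
    (V : ValuationSubring ℂ) (_ : emb (ppi A B) ∈ V.nonunits)
    (f : ℕ) (_ : f ≠ 0) (_ : ¬ 3 ∣ f) (_ : 2 * absD A B ∣ (f : ℤ)) (_ : mz A B ∣ (f : OO A B))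
    (_ : ∀ n, Cpl L (lev A B f n))
    (Hs : Finset ℂ) (_ : IsHalf L (1 + 6 * (f : ℂ)) Hs)
    (K : IntermediateField ℚ ℂ) [FiniteDimensional ℚ K]
    (_ : ∀ x ∈ K, x ∈ TF L (lev A B f 0)) (Bn : ℕ → IntermediateField ℚ ℂ)
    [∀ n, FiniteDimensional ℚ ↥(K ⊔ Bn n)] (_ : Bas (kk A B) K Bn)
    (hk : ∀ n, kk A B ≤ K ⊔ Bn n) (N : ℕ), ∃ n₀ : ℕ, ∀ n, n₀ ≤ n →
    letI := algC (hk n)
    ∃ hc : cc L Om (lev A B f n) Hs (hk n) 1 ∈ K ⊔ Bn n,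
    ∃ γ : ↥(K ⊔ Bn n) ≃ₐ[kk A B] ↥(K ⊔ Bn n),
      (∀ x : ↥(K ⊔ Bn n), γ x = x ↔ (x : ℂ) ∈ K) ∧
      ∀ [Fintype (NC (hk n) (Bn n))]
        (χ : NC (hk n) (Bn n) →* (IsLocalRing.ResidueField V)ˣ),
        ∃ θ : IsLocalRing.ResidueField V →+ ZMod 3,
        ∀ y : ↥(K ⊔ Bn n), y ^ 3 ≠ ∏ δ : NC (hk n) (Bn n),
          ((δ : ↥(K ⊔ Bn n) ≃ₐ[kk A B] ↥(K ⊔ Bn n)) ((Tg γ)^[N] ⟨_, hc⟩)) ^
            (θ ((χ δ)⁻¹ : (IsLocalRing.ResidueField V)ˣ)).val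

/-- (I3F1) the same for `N ≥ 1`. -/
def St_I3F1 : Prop :=
  ∀ (A B : ℤ) (_ : Case A B) (L : PeriodPair) (Om : ℂ) (_ : IsCM A B L Om) (_ : TorA A B L Om)
    (V : ValuationSubring ℂ) (_ : emb (ppi A B) ∈ V.nonunits)
    (f : ℕ) (_ : f ≠ 0) (_ : ¬ 3 ∣ f) (_ : 2 * absD A B ∣ (f : ℤ)) (_ : mz A B ∣ (f : OO A B))
    (_ : ∀ n, Cpl L (lev A B f n))
    (Hs : Finset ℂ) (_ : IsHalf L (1 + 6 * (f : ℂ)) Hs)
    (K : IntermediateField ℚ ℂ) [FiniteDimensional ℚ K]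
    (_ : ∀ x ∈ K, x ∈ TF L (lev A B f 0)) (Bn : ℕ → IntermediateField ℚ ℂ)
    [∀ n, FiniteDimensional ℚ ↥(K ⊔ Bn n)] (_ : Bas (kk A B) K Bn)
    (hk : ∀ n, kk A B ≤ K ⊔ Bn n) (N : ℕ) (_ : 1 ≤ N), ∃ n₀ : ℕ, ∀ n, n₀ ≤ n →
    letI := algC (hk n)
    ∃ hc : cc L Om (lev A B f n) Hs (hk n) 1 ∈ K ⊔ Bn n,
    ∃ γ : ↥(K ⊔ Bn n) ≃ₐ[kk A B] ↥(K ⊔ Bn n),
      (∀ x : ↥(K ⊔ Bn n), γ x = x ↔ (x : ℂ) ∈ K) ∧
      ∀ [Fintype (NC (hk n) (Bn n))]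
        (χ : NC (hk n) (Bn n) →* (IsLocalRing.ResidueField V)ˣ),
        ∃ θ : IsLocalRing.ResidueField V →+ ZMod 3,
        ∀ y : ↥(K ⊔ Bn n), y ^ 3 ≠ ∏ δ : NC (hk n) (Bn n),
          ((δ : ↥(K ⊔ Bn n) ≃ₐ[kk A B] ↥(K ⊔ Bn n)) ((Tg γ)^[N] ⟨_, hc⟩)) ^
            (θ ((χ δ)⁻¹ : (IsLocalRing.ResidueField V)ˣ)).val

/-- (IK3F) a field of degree prime to 3 is contained in `TF L (3f)`.

Uses TorA. PROOF. `K ⊆ TF L M` for some `M ≠ 0` in `O` (`K/ℚ` is finitely generated, the fields `TF L m` are directed: `tower`), and we may take `M = M' 3^j`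
with an integer `M'` prime to 3 (`M ∣ nm M ∈ ℤ`). Let `f = 2 |D| d M'` (`3 ∤ d`, so `3 ∤ f`), `m = lev A B f j`: `K ⊆ TF L m`. `F₀ = TF L (lev A B f 0) ⊆ F₁ = TF L m`, `Gal(F₁/F₀)` is a
3-group: an element acts as `x ≡ 1` modulo `3 f` (`res`, `inj`, `per`) and `x^(3^j) ≡ 1` modulo `3^(j+1) f`
(`x = 1 + 3 f t`, `x^(3^i) ≡ 1` modulo `3^(i+1) f` by induction), so it has 3-power order (`inj`, `mul`). `K F₀` is between `F₀` and `F₁`, and its degree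
over `F₀` divides `[K : k]` (`K/k` Galois: `K ⊆ F₁` with `Gal(F₁/k)` abelian, so `K/k` is Galois; restriction `Gal(K F₀/F₀) → Gal(K/k)` is
injective), prime to 3, and divides `[F₁ : F₀]`, a power of 3: so `K F₀ = F₀`. -/
def St_IK3F : Prop :=
  ∀ (A B : ℤ) (_ : Case A B) (L : PeriodPair) (Om : ℂ) (_ : IsCM A B L Om) (_ : TorA A B L Om)
    (d : ℕ) (_ : d ≠ 0) (_ : ¬ 3 ∣ d)
    (K : IntermediateField ℚ ℂ) [FiniteDimensional ℚ K] (_ : kk A B ≤ K)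
    (_ : ¬ 3 ∣ Module.finrank ℚ K) (_ : ∀ x ∈ K, ∃ m : OO A B, m ≠ 0 ∧ x ∈ TF L m),
    ∃ f : ℕ, f ≠ 0 ∧ ¬ 3 ∣ f ∧ d ∣ f ∧ 2 * absD A B ∣ (f : ℤ) ∧
      ∀ x ∈ K, x ∈ TF L (lev A B f 0)

end

end Pool.Agent.MU3I


end

section

/-!
# MUX, block IX (helper36): from blocks E and H to the input (I3) of block K, `p = 2` and `p = 3` at once

`PAPER_X.md`, section 6. Every statement is a `def Si_X : Prop`; a module proves `theorem ti_X (h : Si_Y) ... : Si_X`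
in the file `Pool/Agent/MUX/I_X.lean`, namespace `Pool.Agent.MUXI`; the hypotheses are the statements named under USES
(fewer is fine). `Sx_..` in USES is `Pool.Agent.MUXF.Sx_..` (`StXF.lean`; theorems `Pool.Agent.MUXF.xf_..` in `XFAll.lean`), `Sy_..` is
`Pool.Agent.MUXY.Sy_..` (`StYX.lean`), `S_..X` is `Pool.Agent.MUXK.S_..X` (`StKX.lean`). The structures `CQ`, `IsLI` exist twice (`MUX`,
`MUXF`): conversions `Pool.Agent.MUXY.cqF`, `liF`; `nI`, `cjI` are equal by `rfl`.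

`v = V.valuation`: `v x ≤ 1 ↔ x ∈ V`, `v x < 1 ↔ x ∈ V.nonunits`. Levels `m = lvX p f n = f q0 p^n`, `M = q0 p^n`, `q0 = q0 p` (3 or 4);
`a = aX p f = 1 + 2 q0 f`; `g0 = 1 + q0` (4 or 5).

* `IA σ m a` : the automorphism `σ` of `ℂ / k` acts as the ideal `a` on level `m`; `RE m a a'` : equal ray classes.
* `AR h m τ a` : the automorphism `τ` of `D / k`, `D ≤ RF m`, is the Artin symbol of `a`.
* `XM ..` : abstract form of the sets `XX R m h τ`.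
-/

set_option autoImplicit false

namespace Pool.Agent.MUXI

open _root_.MU3 _root_.Pool.Agent.MU3 _root_.Pool.Agent.MU3A _root_.Pool.Agent.MU3B _root_.Pool.Agent.RI _root_.Pool.Agent.RID
  _root_.Pool.Agent.MUX _root_.Pool.Agent.MUXE _root_.Pool.Agent.MUXK
open _root_.Pool.Agent.MU3I (w3 zt)

noncomputable section

/-! ## Definitions -/

/-- the automorphism `σ` of `ℂ`, trivial on `k`, acts as the ideal `a` on level `m` -/
structure IA {A B : ℤ} (σ : ℂ ≃+* ℂ) (m a : Ideal (OO A B)) : Prop where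
  fix : FixK A B σ
  cop : IsCoprime a m
  act : ∀ (b : Ideal (OO A B)) (L : PeriodPair) (om : ℂ), IsNL b L om →
    ∃ (b' : Ideal (OO A B)) (L' : PeriodPair) (om' mu : ℂ), IsNL b' L' om' ∧ ActI σ m a L L' mu

/-- `a` and `a'` are in the same ray class modulo `m` -/
def RE {A B : ℤ} (m a a' : Ideal (OO A B)) : Prop :=
  ∃ x y : OO A B, x ≠ 0 ∧ y ≠ 0 ∧ IsCoprime (sp x) m ∧ x - y ∈ m ∧ sp x * a = sp y * a'

/-- the automorphism `τ` of `D / k` is the Artin symbol of `a` (level `m`) -/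
def AR {A B : ℤ} {D : IntermediateField ℚ ℂ} (h : kk A B ≤ D) (m : Ideal (OO A B))
    (τ : letI := algC h; D ≃ₐ[kk A B] D) (a : Ideal (OO A B)) : Prop :=
  ∃ σ : ℂ ≃+* ℂ, IA σ m a ∧ ExtC h τ σ

/-- the sets `X τ` of pairs `(i, x)` of level `lvX p f n`, abstractly: `Δ` is the group of the automorphisms
trivial on the layer, `γ` acts on the layer as `1 + q0` -/
structure XM {A B : ℤ} {n₀ : ℕ} {ι : Type} (R : Reps A B n₀ ι) (p f n : ℕ) {G : Type} [Group G]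
    (γ : G) (Δ : Subgroup G)
    (X : G → Set (ι × (OO A B ⧸ idl (A := A) (B := B) (lvX p f n)))) : Prop where
  comm : ∀ σ τ : G, σ * τ = τ * σ
  cop : ∀ τ, ∀ q ∈ X τ, IsCoprime (Quotient.out q.2 : OO A B) ((lvX p f n : ℕ) : OO A B)
  ex : ∀ q : ι × (OO A B ⧸ idl (A := A) (B := B) (lvX p f n)),
    IsCoprime (Quotient.out q.2 : OO A B) ((lvX p f n : ℕ) : OO A B) → ∃ τ, q ∈ X τ
  uniq : ∀ q τ τ', q ∈ X τ → q ∈ X τ' → τ = τ'
  nrm : ∀ q τ, q ∈ X τ → ∀ j : ℕ, (τ * (γ ^ j)⁻¹ ∈ Δ ↔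
    ((q0 p * p ^ n : ℕ) : ℤ) ∣ nm (Quotient.out q.2) * nI (R.b q.1) - (1 + (q0 p : ℤ)) ^ j ∨
    ((q0 p * p ^ n : ℕ) : ℤ) ∣ nm (Quotient.out q.2) * nI (R.b q.1) + (1 + (q0 p : ℤ)) ^ j)

/-- the weights `kk_i = kp_i c_i / mu_i`, times `w3 (N b_i)` if `s = -1` -/
def kkX {A B : ℤ} {n₀ : ℕ} {ι : Type} (R : Reps A B n₀ ι) (kp : ι → ℂ) (c : ι → ℤ) (s : ℤ)
    (i : ι) : ℂ :=
  kp i * c i / muX R i * (if s = 1 then 1 else (w3 (nI (R.b i)) : ℂ))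

/-- the input from block E for one field `D`: `C τ` are the conjugates of `C 1 ∈ D`, and `y^p = ∏ C^g`
implies the estimate -/
structure EInp (p : ℕ) {A B : ℤ} (P : Ideal (OO A B)) (V : ValuationSubring ℂ) (f : ℕ) {ι : Type}
    (R : Reps A B (p * f) ι) (c : ι → ℤ) (n : ℕ) {D : IntermediateField ℚ ℂ} (h : kk A B ≤ D)
    (C : (letI := algC h; D ≃ₐ[kk A B] D) → ℂ) : Prop where
  ne : C (letI := algC h; 1) ≠ 0
  conj : letI := algC h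
    ∀ τ : D ≃ₐ[kk A B] D, ∃ y : D, (y : ℂ) = C 1 ∧ ((τ y : D) : ℂ) = C τ
  ew : letI := algC h
    ∀ (w : OO A B → ℤ), OddW p P (lvX p f n) w → ∀ g : (D ≃ₐ[kk A B] D) → ℤ,
      (∃ y ∈ D, y ^ p = ∏ᶠ τ : D ≃ₐ[kk A B] D, C τ ^ g τ) → ∀ τ' : D ≃ₐ[kk A B] D,
        HfX p V (1 / 2 * ∑ᶠ τ : D ≃ₐ[kk A B] D, (g τ : ℂ) *
          TTw R (fun i => (c i : ℂ)) w (lvX p f n) (aX p f) h (τ * τ'))

/-! ## Valuations and characters -/

/-- (HFX) the set `v(x)^(p-1) ≤ v(p)`.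

PROOF. `HfX p V x` means `x^(p-1)/p ∈ V`, i.e. `v(x)^(p-1) ≤ v(p)` (`v(p) ≠ 0` as `p ≠ 0` in `ℂ`). Sum: `v(x+y) ≤ max` and `t ↦ t^(p-1)` is monotone. For `v ∉ V.nonunits`: `1 ≤ v(v)`, so `v(x)^(p-1) ≤ v(v x)^(p-1)`. `(1/2) * 2 = 1` with `2 ∈ V`; `p = 3`: `1/2 ∈ V`
(`v(2) = v(3 - 1) = 1` since `v(3) < 1`). -/
def Si_HFX : Prop :=
  ∀ (p : ℕ) (_ : p.Prime) (V : ValuationSubring ℂ), HfX p V 0 ∧
    (∀ x y, HfX p V x → HfX p V y → HfX p V (x + y)) ∧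
    (∀ v x, v ∈ V → HfX p V x → HfX p V (v * x)) ∧
    (∀ v x, v ∉ V.nonunits → HfX p V (v * x) → HfX p V x) ∧
    (p = 3 → (p : ℂ) ∈ V.nonunits → (1 / 2 : ℂ) ∈ V ∧ (2 : ℂ) ∈ V)

/-- (CHI) characters with values in the residue field.

PROOF. Model `Pool/Agent/MU3/I_ICHI.lean` (`St_ICHI`, there `p = 3`), with IRES replaced by the first hypothesis (`Sj_RES`, module MUXJ_RES). -/
def Si_CHI : Prop :=
  ∀ (p : ℕ) [Fact p.Prime] (V : ValuationSubring ℂ) (_ : (p : ℂ) ∈ V.nonunits)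
    (_ : CharP (IsLocalRing.ResidueField V) p) (_ : IsAlgClosed (IsLocalRing.ResidueField V))
    (Δ : Type) [Group Δ] [Fintype Δ] (_ : ∀ σ τ : Δ, σ * τ = τ * σ)
    (_ : ¬ p ∣ Fintype.card Δ) (χ : Δ →* (IsLocalRing.ResidueField V)ˣ),
    ∃ (X : Δ →* ℂˣ) (θ : IsLocalRing.ResidueField V →+ ZMod p),
      (∑ δ : Δ, ((θ ((χ δ)⁻¹ : (IsLocalRing.ResidueField V)ˣ)).val : ℂ) * (X δ : ℂ)) ∉ V.nonunits

/-- (FOU) Fourier transform on `Δ`.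

USES HFX. Model `Pool/Agent/MU3/I_IFOU.lean` (`St_IFOU`, there `Hf`), the same proof. -/
def Si_FOU : Prop :=
  ∀ (p : ℕ) (_ : p.Prime) (V : ValuationSubring ℂ) (G : Type) [Group G] [Finite G]
    (_ : ∀ σ τ : G, σ * τ = τ * σ)
    (γ : G) (Δ : Subgroup G) [Fintype Δ] (T : G → ℂ) (b : Δ → ℤ) (N : ℕ) (c : ℕ → ℤ)
    (X : Δ →* ℂˣ) (_ : (∑ δ : Δ, (b δ : ℂ) * (X δ : ℂ)) ∉ V.nonunits)
    (_ : ∀ τ' : G, HfX p V (∑ δ : Δ, ∑ j ∈ Finset.range (N + 1),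
      (b δ : ℂ) * (c j : ℂ) * T ((δ : G) * γ ^ j * τ'))),
    HfX p V (∑ j ∈ Finset.range (N + 1), (c j : ℂ) *
      ∑ δ : Δ, (((X δ)⁻¹ : ℂˣ) : ℂ) * T (γ ^ j * (δ : G)))

/-- (PQF) the ideals `P`, `P̄ = cjI P`, `(f)`.

USES Sx_ALG, Sx_IDL, Sx_NIM. PROOF. `O/P` has `p` elements, `P` is prime, so maximal; the integers `0, .., p-1` represent its classes (`1 ∉ P`, so `c ∈ P` iff `p ∣ c`): (1)-(3). `P * cjI P = sp (nI P) = idl p` (IDL). `P̄ ≠ P`: otherwise `x² ∈ (p)`-type argument: `P² = (p)`, so `x * x ∈ idl p` for `x ∈ P`; take `x = c - w ∈ P` (`c` an integer, `c ≡ w`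
modulo `P`); `x² = c² - 2 c w + A + B w ∈ (p)` gives `p ∣ B - 2 c`, `p ∣ c² + A`, so `B² + 4 A ≡ 0` modulo `p`, against `CaseP.split`. Both are maximal (`cjI` is given by the automorphism `starRingEnd`): coprime. `p ∤ f`: `u p + v f = 1`, so `(f)` is coprime to `P`, `P̄`. (8) `x ∈ P` or `x ∈ P̄`: not prime to `p ∣ lvX p f n`; conversely
`sp x` is coprime to the maximal ideals `P`, `P̄` and to `(f)`, hence to `(f) P^k P̄^k`, `lvX p f n ∈` this, `(lvX p f n) = (f) (P P̄)^(n+1 or n+2)`. (9) CRT for `(f) P̄` and `P` (coprime): `x' ≡ x` modulo `(f) P̄`, `x' ≡ 1` modulo `P`. (10) `p = 2`: `2 ∉ P²` (`(2) = P P̄`, `P̄` not contained in `P`), so `P² ∩ ℤ = 4ℤ`, `nI (P^2) = 4` (NIM), so `0, 1, 2, 3` represent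
the classes modulo `P²`, and `2 ∈ P`. -/
def Si_PQF : Prop :=
  ∀ (p : ℕ) (A B : ℤ) (P : Ideal (OO A B)) (V : ValuationSubring ℂ) (f : ℕ), SetP p A B P V f →
    (∀ x : OO A B, x ∈ P ∨ x - 1 ∈ P ∨ x + 1 ∈ P) ∧ (1 : OO A B) ∉ P ∧
    (∀ c : ℤ, (c : OO A B) ∈ P ↔ (p : ℤ) ∣ c) ∧
    P * cjI P = idl p ∧ IsCoprime P (cjI P) ∧ IsCoprime (idl (A := A) (B := B) f) P ∧
    IsCoprime (idl (A := A) (B := B) f) (cjI P) ∧
    (∀ (n : ℕ) (x : OO A B), IsCoprime x ((lvX p f n : ℕ) : OO A B) ↔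
      x ∉ P ∧ IsCoprime (sp x) (idl f * cjI P)) ∧
    (∀ x : OO A B, IsCoprime (sp x) (idl f * cjI P) → ∃ x' : OO A B, x' - x ∈ idl f * cjI P ∧
      IsCoprime x' ((lvX p f 0 : ℕ) : OO A B)) ∧
    (p = 2 → (∀ x : OO A B, x ∉ P → x - 1 ∈ P ^ 2 ∨ x + 1 ∈ P ^ 2) ∧
      ∀ c : ℤ, (c : OO A B) ∈ P ^ 2 ↔ (4 : ℤ) ∣ c)

/-- (EPS3) the sign function, the odd character and the sign `s` for `p = 3`.

USES PQF, Sx_ALG. Model `Pool/Agent/MU3/I_IEPS.lean` (`St_IEPS`). PROOF. `w = wP P` (`OddW`: `P` is a prime ideal of norm 3, so `O/P` has the classes `0, 1, -1`; `3 ∈ P`, so `lvX 3 f n ∈ P`). `P̄ = cjI P ≠ P` (`3 O = P P̄`, `3 ∉ P²` because `B² + 4A` is prime to 3), `P`, `P̄`, `(f)` are pairwise coprime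
(`3 ∤ f`). `g = (f) P̄`. `y ∈ O` with `y ≡ 1` modulo `g` and `y ≡ -1` modulo `P` (CRT). `y² ≡ 1` modulo `3 f`, so `e0(y) = 1` or `-1`. Let `w' = wP P̄`, `s = -1` in the first case, `w' = wP P`, `s = 1` in the second. `φ(x) = e0(x) w'(x)`: if `x ≡ x'` modulo `g`, both prime to `3 f`, then `φ(x) = φ(x')`:
`x ≡ ± x'` modulo `P`, so `x ≡ x'` or `x ≡ y x'` modulo `3f`, and `φ(y) = 1`. `e(x) = φ(x')` for `x` prime to `g`, `x'` prime to `3f`, `x' ≡ x` modulo `g`; `e(x) = 0` if `x` is not prime to `g`. `e(-1) = -1`. Last formula, `x` prime to `3 f`: `s = 1`: clear. `s = -1`: `wP P x * wP P̄ x = w3(N x)`: `x ≡ a`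
modulo `P`, `x ≡ b` modulo `P̄` with `a, b = ± 1`; `x̄ ≡ b` modulo `P` (`cjI`), `N x = x x̄ ≡ a b` modulo `P`, and `P ∩ ℤ = 3ℤ`. -/
def Si_EPS3 : Prop :=
  ∀ (A B : ℤ) (P : Ideal (OO A B)) (V : ValuationSubring ℂ) (f : ℕ) (_ : SetP 3 A B P V f)
    (e0 : OO A B → ℂ)
    (_ : e0 1 = 1) (_ : e0 (-1) = 1) (_ : ∀ x y, e0 (x * y) = e0 x * e0 y)
    (_ : ∀ x y, x - y ∈ idl (A := A) (B := B) (lvX 3 f 0) → e0 x = e0 y)
    (_ : ∀ x, e0 x ≠ 0 ↔ IsCoprime x ((lvX 3 f 0 : ℕ) : OO A B)),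
    (∀ n, OddW 3 P (lvX 3 f n) (wP P)) ∧
    ∃ (e : OO A B → ℂ) (s : ℤ), IsEI (idl f * cjI P) e ∧ (s = 1 ∨ s = -1) ∧
      ∀ x, IsCoprime x ((lvX 3 f 0 : ℕ) : OO A B) →
        e0 x * (wP P x : ℂ) = e x * (if s = 1 then 1 else (w3 (nm x) : ℂ))

/-- (EPS2) the sign function and the odd character for `p = 2` (`s = 1`); `e0` has odd order `r`.

PROOF. Glue from `Pool/Agent/MUX/Kap2.lean` (helper77): `kap_exists`, `eps_two`. `w = κ`. `OddW`: `per`: `lvX 2 f n ∈ idl |D|` (`|D| ∣ f`, `SetP.fD`); `pm`: `x` prime to `lvX 2 f n` is prime to `|D|` (`unit`); `neg`: `κ (-x) = κ (-1) κ x`; `cong`: `w x` and `wP P x` are odd (`x ∉ P`, as `2 ∈ P` and `2 ∣ lvX 2 f n`; `wP` is `± 1`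
off `P`). The hypotheses of `eps_two`: `lvX 2 f 0 = f * 4`; prime to `2 f` iff prime to `4 f`. -/
def Si_EPS2 : Prop :=
  ∀ (A B : ℤ) (P : Ideal (OO A B)) (V : ValuationSubring ℂ) (f : ℕ) (_ : SetP 2 A B P V f)
    (e0 : OO A B → ℂ) (r : ℕ) (_ : ¬ 2 ∣ r)
    (_ : e0 1 = 1) (_ : e0 (-1) = 1) (_ : ∀ x y, e0 (x * y) = e0 x * e0 y)
    (_ : ∀ x y, x - y ∈ idl (A := A) (B := B) (lvX 2 f 0) → e0 x = e0 y)
    (_ : ∀ x, e0 x ≠ 0 ↔ IsCoprime x ((lvX 2 f 0 : ℕ) : OO A B))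
    (_ : ∀ x, e0 x ≠ 0 → e0 x ^ r = 1),
    ∃ (w : OO A B → ℤ) (e : OO A B → ℂ), (∀ n, OddW 2 P (lvX 2 f n) w) ∧
      IsEI (idl f * cjI P) e ∧
      ∀ x, IsCoprime x ((lvX 2 f 0 : ℕ) : OO A B) → e0 x * (w x : ℂ) = e x

/-! ## The action of automorphisms of `ℂ` through ideals -/

/-- (IAF) facts on `IA`, first part.

USES Su_DET. PROOF. (1), (2): `act`, `surj` of `TorX`. (3) `comp`, `FixK`; the product of two ideals prime to `m` is prime to `m`. (4) For the given normalised lattice `L`: `ActI σ m a L L₁ mu`, `ActI σ m a' L L₂ mu'`; `kap L₁ = σ (kap L) = kap L₂`, so `g₂` is the same (`kap L = (12 g₂ - 1)/1728`) and `g₃ = -g₂/18`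
too: `L₁.lattice = L₂.lattice` (DET), so `℘`, `℘'` are the same functions (`Pool.Agent.MU3A.ta_SCP` with factor 1, or by definition) and `ActI σ m a' L L₁ mu'` (all of `kap`, `IsQ`, `PM` depend only on the lattice). `uniq`. (5) `chg` for every `L`. (6) `triv`. (7) `Tor m' L z` implies `Tor m L z`; `IsCoprime a m'` from `m ≤ m'`.
(8) `zeta`. -/
def Si_IAF : Prop :=
  ∀ (A B : ℤ), CQ A B → TorX A B →
    (∃ (b : Ideal (OO A B)) (L : PeriodPair) (om : ℂ), IsNL b L om) →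
    ∀ m : Ideal (OO A B), m ≠ ⊥ →
    (∀ σ : ℂ ≃+* ℂ, FixK A B σ → ∃ a, IA σ m a) ∧
    (∀ a, a ≠ ⊥ → IsCoprime a m → ∃ σ, IA σ m a) ∧
    (∀ σ τ a b, IA σ m a → IA τ m b → IA (σ.trans τ) m (a * b)) ∧
    (∀ σ a a', IA σ m a → IA σ m a' → RE m a a') ∧
    (∀ σ a a', IA σ m a → IsCoprime a' m → RE m a a' → IA σ m a') ∧
    (∀ σ a, IA σ m a → ((∀ y ∈ RF m, σ y = y) ↔ ∃ c : OO A B, c - 1 ∈ m ∧ a = sp c)) ∧
    (∀ σ a m', m ≤ m' → IA σ m a → IA σ m' a) ∧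
    (∀ (M : ℕ) σ a z, M ≠ 0 → m ≤ idl M → IA σ m a → z ^ M = 1 → z ∈ RF m ∧ σ z = z ^ nI a)

/-- (IAG) facts on `IA`, second part.

USES IAF, Sx_ALG. PROOF. (1) `RingEquiv.refl`: it has some ideal `a` (IAF 1), is trivial on `RF m`, so `a = sp c`, `c - 1 ∈ m` (IAF 6); `RE m (sp c) ⊤` with `x = 1`, `y = c` if `c ≠ 0`.. (`sp 1 * sp c = sp c * ⊤`); `c = 0` only if `1 ∈ m`: then take `x = y = 1` and note that `a = ⊥`; to avoid this case use that `IsQ a L L' mu` is impossible for `a = ⊥`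
(`mu z ∈ L'` for all `z`; a lattice is not `ℂ`). So `a ≠ ⊥` always. (IAF 5). (2) `σ.symm` has some ideal `b` (IAF 1), `σ.trans σ.symm = refl` has the ideal `a b` (IAF 3), so `a b = sp c` (IAF 6). (3) `→`: `b` for `σ'` as in (2): `a' b = sp c'`, `σ.trans σ'.symm` has the ideal `a b` (IAF 3), `RE m (a b) (a' b)` (multiply), so by (IAF 5) it has
the ideal `sp c'` (prime to `m` as `c' - 1 ∈ m`), so it is trivial on `RF m` (IAF 6): `σ'.symm (σ y) = y`. `←`: `σ.trans σ'.symm` is trivial on `RF m`: `a b = sp c`, `a' b = sp c'`: `sp c' * a = a a' b = sp c * a'`, `c' - c ∈ m`, `c, c' ≠ 0` (as in (1); `a b ≠ ⊥`). -/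
def Si_IAG : Prop :=
  ∀ (A B : ℤ), CQ A B → TorX A B →
    (∃ (b : Ideal (OO A B)) (L : PeriodPair) (om : ℂ), IsNL b L om) →
    ∀ m : Ideal (OO A B), m ≠ ⊥ →
    IA (RingEquiv.refl ℂ) m ⊤ ∧
    (∀ σ a, IA σ m a → a ≠ ⊥ ∧ ∃ b c, IA σ.symm m b ∧ c - 1 ∈ m ∧ a * b = sp c) ∧
    (∀ σ σ' a a', IA σ m a → IA σ' m a' → (RE m a a' ↔ ∀ y ∈ RF m, σ y = σ' y))

/-- (RPR) every ray class contains an ideal `x cjI (b i)`.

USES Sx_ALG, Sx_IDL, Sx_NIM. PROOF. (1) `sp x` is prime to `idl m`, and `cjI (b i)` contains `nI (b i)` (NIM), which is prime to `m`. (2) `R.surj (cjI a)`: `sp u * cjI a = sp v * b i`, conjugate: `sp ū * a = sp v̄ * cjI (b i)`. Multiply by `b i`: `sp ū * (a b_i) = sp (v̄ N)`, `N = nI (b i)` (IDL), so `v̄ N ∈ sp ū`, `v̄ N = ū y`, `a b_i = sp y`, and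
`sp N * a = a b_i cjI b_i = sp y * cjI (b i)`. `y` is prime to `m`: `a` and `b_i` are (ideals prime to `idl m`; `nI (b i) ∈ b i`). Let `N' N ≡ 1` modulo `m` (integers, `N' > 0`), `x = N' y`: `sp (N' N) * a = sp x * cjI (b i)`, so `RE (idl m) a (sp x * cjI (b i))` with the elements `N' N` and `1`. -/
def Si_RPR : Prop :=
  ∀ (A B : ℤ), CQ A B → ∀ (n₀ : ℕ) (ι : Type) (R : Reps A B n₀ ι) (m : ℕ), m ≠ 0 →
    (∀ i, (nI (R.b i)).Coprime m) →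
    (∀ i, ∀ x : OO A B, IsCoprime x (m : OO A B) →
      IsCoprime (sp x * cjI (R.b i)) (idl (A := A) (B := B) m)) ∧
    ∀ a : Ideal (OO A B), a ≠ ⊥ → IsCoprime a (idl (A := A) (B := B) m) →
      ∃ (i : ι) (x : OO A B), IsCoprime x (m : OO A B) ∧ RE (idl m) a (sp x * cjI (R.b i))

/-- (HIT) `σ` hits the pair `(i, x)` iff it acts as the ideal `x cjI (b i)`.

USES IAF, IAG, RPR, Sy_MUU, Sy_MUI, Sy_UNJ, Sx_ALG, Sx_IDL, Sx_NIM, Su_DET. PROOF. `L₀ = R.L R.i0` (lattice `om_0 emb O`, `R.b0`), `z₀ = pt R m R.i0 1 = om_0/m ∉ L₀` (`m ≥ 2`; `nI ⊤ = 1`), `Tor (idl m) L₀ z₀`. (`←`) `ActI σ (idl m) a L₀ L' mu`, `a = sp x * cjI (b i)`, `L'` normalised. MUI: `IsQ (cjI b_i) L₀ L_i mu_i`, so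
`IsQ a L₀ L_i (emb x mu_i)` (`emb x mu_i z ∈ L_i` iff `emb y (emb x z) ∈ L₀` for `y ∈ cjI b_i`; the elements of `sp x * cjI b_i` are the `x y`). So `s L' = L_i`, `s = emb x mu_i/mu`; both normalised, so `s² = 1` as in `Sy_MUU` (`Pool.Agent.MU3A.ta_SCP`), `L'.lattice = L_i.lattice` and `emb x mu_i = ± mu`. `kap L_i = kap L' = σ(kap L₀)`. `act` at `z₀`: `z₀ ∉ L₀`, so
`mu z₀ ∉ L'`, `σ (xn L₀ z₀) = xn L' (mu z₀) = xn L_i (emb x mu_i z₀)` (`xn` is even), and `emb x mu_i z₀ = om_i N(b_i) emb x/m = pt R m i x`. (`→`) `σ` has an ideal `a` (IAF 1), so by RPR, IAF 5 the ideal `sp x' * cjI (b j)`, `x'` prime to `m`. By (`←`) `σ` hits `(j, x')`. `kap L_i = kap L_j`: `i = j` (UNJ). `xn L_i (pt i x) = xn L_i (pt i x')`, so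
`pt i x ∓ pt i x' ∈ L_i` (`b_NEQ` of MU3), `N(b_i) (x ∓ x')/m ∈ b_i`, so `m ∣ N(b_i) (x ∓ x')`, `m ∣ x ∓ x'` (`N(b_i)` prime to `m`). `RE (idl m) (sp x' * c) (sp x * c)`, `c = cjI (b i)`, with the elements `x` and `± x'` (congruent modulo `m`, prime to `m`, not `0` as `m ≥ 2`; `sp (-x') = sp x'`). IAF 5. -/
def Si_HIT : Prop :=
  ∀ (A B : ℤ), CQ A B → TorX A B → ∀ (n₀ : ℕ) (ι : Type) (R : Reps A B n₀ ι) (m : ℕ), 2 ≤ m →
    (∀ i, (nI (R.b i)).Coprime m) → ∀ (σ : ℂ ≃+* ℂ), FixK A B σ → ∀ (i : ι) (x : OO A B),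
    IsCoprime x (m : OO A B) → (Hits R m σ i x ↔ IA σ (idl m) (sp x * cjI (R.b i)))

/-- (ARF) the Artin symbol for a field `D`, `k ≤ D ≤ RF m`.

USES IAF, IAG. PROOF. `D / k` is normal, so every `σ` with `FixK` maps `D` to itself and has a restriction `τ ∈ Gal(D/k)`, `ExtC h τ σ` (`kk A B` is generated by `wC A B`, so `σ` is trivial on `kk A B`; Mathlib: `AlgEquiv.restrictNormal`, or `AlgHom.restrictNormal` of the embedding `D → ℂ`, its values are in `D`). (1) `refl`. (2) IAF 2. (3) `ext` of `TorX` and IAF 1.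
(4) IAG 3: `σ`, `σ'` agree on `RF m ⊇ D`. (5) IAF 3: `σ.trans σ'` extends `τ' * τ`; `Gal(D/k)` is commutative: it is a quotient of `Gal(RF m/k)`; or directly: both `σ.trans σ'` and `σ'.trans σ` have the ideal `a a' = a' a`, so they agree on `D` by (4). (6) IAF 7: the same `σ`. (7) IAF 8: `z ≠ 0`, `σ (z + z⁻¹) = z^N + (z^N)⁻¹`. -/
def Si_ARF : Prop :=
  ∀ (A B : ℤ), CQ A B → TorX A B →
    (∃ (b : Ideal (OO A B)) (L : PeriodPair) (om : ℂ), IsNL b L om) →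
    ∀ m : Ideal (OO A B), m ≠ ⊥ → ∀ (D : IntermediateField ℚ ℂ) (h : kk A B ≤ D),
    (∀ y ∈ D, y ∈ RF m) → letI := algC h
    ∀ _ : IsGalois (kk A B) D,
    AR h m 1 ⊤ ∧
    (∀ a, a ≠ ⊥ → IsCoprime a m → ∃ τ, AR h m τ a) ∧
    (∀ τ : D ≃ₐ[kk A B] D, ∃ a, IsCoprime a m ∧ AR h m τ a) ∧
    (∀ (τ τ' : D ≃ₐ[kk A B] D) a a', AR h m τ a → AR h m τ' a' → RE m a a' → τ = τ') ∧
    (∀ (τ τ' : D ≃ₐ[kk A B] D) a a', AR h m τ a → AR h m τ' a' → AR h m (τ * τ') (a * a')) ∧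
    (∀ (K : IntermediateField ℚ ℂ) (hK : kk A B ≤ K) (m' : Ideal (OO A B)), m ≤ m' → K ≤ D →
      letI := algC hK
      ∀ (τ : D ≃ₐ[kk A B] D) (τK : K ≃ₐ[kk A B] K) a,
      (∀ (x : K) (x' : D), (x' : ℂ) = x → ((τ x' : D) : ℂ) = (τK x : K)) →
      AR h m τ a → AR hK m' τK a) ∧
    ∀ (M : ℕ) (τ : D ≃ₐ[kk A B] D) a (z : ℂ) (y : D), M ≠ 0 → m ≤ idl M → AR h m τ a →
      z ^ M = 1 → (y : ℂ) = z + z⁻¹ → ((τ y : D) : ℂ) = z ^ nI a + (z ^ nI a)⁻¹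

/-- (XXF) the sets `XX R m h τ` and the Artin symbol.

USES HIT, ARF, RPR, Sx_ALG. PROOF. Let `x' = Quotient.out (mk x)`: `x' - x ∈ idl m`, `x'` is prime to `m`. `AR h (idl m) τ (sp x * c) ↔ AR h (idl m) τ (sp x' * c)`, `c = cjI (b i)`: `RE (idl m) (sp x * c) (sp x' * c)` (elements `x'`, `x`, not `0`) and IAF 5 for the same `σ`. (1) then is HIT for `x'`. (2) `ex`: RPR (1), ARF 2; `uniq`: ARF 4
(`RE m a a` with `x = y = 1`). -/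
def Si_XXF : Prop :=
  ∀ (A B : ℤ), CQ A B → TorX A B → ∀ (n₀ : ℕ) (ι : Type) (R : Reps A B n₀ ι) (m : ℕ), 2 ≤ m →
    (∀ i, (nI (R.b i)).Coprime m) → ∀ (D : IntermediateField ℚ ℂ) (h : kk A B ≤ D),
    (∀ y ∈ D, y ∈ RF (idl (A := A) (B := B) m)) → letI := algC h
    ∀ _ : IsGalois (kk A B) D,
    (∀ (τ : D ≃ₐ[kk A B] D) (i : ι) (x : OO A B), IsCoprime x (m : OO A B) →
      ((i, Ideal.Quotient.mk (idl (A := A) (B := B) m) x) ∈ XX R m h τ ↔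
        AR h (idl m) τ (sp x * cjI (R.b i)))) ∧
    ∀ q : ι × (OO A B ⧸ idl (A := A) (B := B) m),
      IsCoprime (Quotient.out q.2 : OO A B) (m : OO A B) →
      (∃ τ, q ∈ XX R m h τ) ∧ ∀ τ τ', q ∈ XX R m h τ → q ∈ XX R m h τ' → τ = τ'

/-- (E0) the characters `e0` and `kp` attached to a character of `Gal(K/k)`, `K ≤ RF (f q0)`.

USES ARF, Sx_ALG, Sx_NIM. PROOF. `m₀ = idl (lvX p f 0)`, `lvX p f 0 = f q0 ≥ 3`. For `a` prime to `m₀` let `τ(a) ∈ Gal(K/k)` be the automorphism with `AR hK m₀ τ(a) a` (ARF 2, 4), `ψ(a) = (X τ(a))⁻¹`, and `ψ(a) = 0` if `a` is not prime to `m₀`. `ψ(a a') = ψ(a) ψ(a')` (ARF 5; if `a a'` is prime to `m₀` then so are `a`, `a'`). `ψ(⊤) = 1` (ARF 1). `e0 x = ψ(sp x)`, `kp i = ψ(cjI (b i))`: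
`cjI (b i) ∋ nI (b i)`, prime to `p f`, hence to `f q0` (same prime divisors). `e0(-1)`: `sp (-1) = ⊤`. Periodic: `x - y ∈ m₀`, both prime to `m₀` (otherwise both values are `0`): `RE m₀ (sp x) (sp y)` with the elements `y`, `x` (not `0` because `m₀ ≠ ⊤`), ARF 4. -/
def Si_E0 : Prop :=
  ∀ (p : ℕ) (A B : ℤ) (P : Ideal (OO A B)) (V : ValuationSubring ℂ) (f : ℕ),
    SetP p A B P V f → TorX A B → ∀ (ι : Type) (R : Reps A B (p * f) ι)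
    (K : IntermediateField ℚ ℂ) (hK : kk A B ≤ K),
    (∀ y ∈ K, y ∈ RF (idl (A := A) (B := B) (lvX p f 0))) → letI := algC hK
    ∀ (_ : IsGalois (kk A B) K) (X : (K ≃ₐ[kk A B] K) →* ℂˣ) (r : ℕ) (_ : ∀ τ, X τ ^ r = 1),
    ∃ (e0 : OO A B → ℂ) (kp : ι → ℂ), e0 1 = 1 ∧ e0 (-1) = 1 ∧ (∀ x y, e0 (x * y) = e0 x * e0 y) ∧
      (∀ x y, x - y ∈ idl (A := A) (B := B) (lvX p f 0) → e0 x = e0 y) ∧
      (∀ x, e0 x ≠ 0 ↔ IsCoprime x ((lvX p f 0 : ℕ) : OO A B)) ∧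
      (∀ x, e0 x ≠ 0 → e0 x ^ r = 1) ∧ (∀ i, kp i ^ r = 1) ∧
      ∀ (τ : K ≃ₐ[kk A B] K) (i : ι) (x : OO A B), IsCoprime x ((lvX p f 0 : ℕ) : OO A B) →
        AR hK (idl (lvX p f 0)) τ (sp x * cjI (R.b i)) → (((X τ)⁻¹ : ℂˣ) : ℂ) = kp i * e0 x

/-! ## The fields -/

/-- (LAY) the layer is the real subfield of `ℚ(ζ)`, `ζ` of order `q0 p^n`.

PROOF. `p = 3`: `Pool.Agent.MU3I.t_ILAY` (`I_ILAY.lean`). `p = 2`: `q0 p^n = 2^(n+2)`; as there: `B ≤ ℚ(μ_(2^j))`, `j ≥ n + 2`; `B` is real, so it is contained in the real subfield `R = ℚ(ζ' + ζ'⁻¹)`, `ζ' = zt (2^j)`, which is cyclic over `ℚ` (`Pool/Agent/RID/P_LAYC.lean`: `R` is a layer: degree `2^(j-2)` (`Ilay.deg`), real, contained in `ℚ(μ_(2^j))`). `ℚ(ζ + ζ⁻¹) ≤ R` has degree `2^n` too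
(`Ilay.deg`): equal by `Ilay.uniq`. (The module MUXJ_LAY of block J needs the same facts.) -/
def Si_LAY : Prop :=
  ∀ (p n : ℕ) (_ : p = 2 ∨ p = 3) (B : IntermediateField ℚ ℂ) (_ : IsLayer p n B),
    B = IntermediateField.adjoin ℚ {zt (q0 p * p ^ n) + (zt (q0 p * p ^ n))⁻¹}

/-- (SUB) `K B_n ≤ RF (lvX p f n)`.

USES LAY, IAF. PROOF. `ζ = zt (q0 p^n)`, `ζ^M = 1`, `M = q0 p^n`, `idl (lvX p f n) ≤ idl M`: `ζ ∈ RF (idl (lvX p f n))` (IAF 8 for `σ = refl` and its ideal, IAF 1). So `B_n ≤` it (LAY; as fields over `ℚ`: the elements of `RF m` form a subfield which contains `ℚ`), `K ≤` it by `mono`, and `K ⊔ B_n ≤` it (`IntermediateField.restrictScalars ℚ (RF m)`). -/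
def Si_SUB : Prop :=
  ∀ (p : ℕ) (A B : ℤ) (P : Ideal (OO A B)) (V : ValuationSubring ℂ) (f : ℕ),
    SetP p A B P V f → TorX A B →
    (∃ (b : Ideal (OO A B)) (L : PeriodPair) (om : ℂ), IsNL b L om) →
    ∀ (K : IntermediateField ℚ ℂ), (∀ y ∈ K, y ∈ RF (idl (A := A) (B := B) (lvX p f 0))) →
    ∀ (n : ℕ) (Bn : IntermediateField ℚ ℂ), IsLayer p n Bn →
    ∀ y ∈ K ⊔ Bn, y ∈ RF (idl (A := A) (B := B) (lvX p f n))

/-- (GAM) an automorphism `γ` of `K_n / k` with fixed field `K`, acting on the layer as `1 + q0`.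

USES LAY, S_GENX. PROOF. `ζ = zt M`, `M = q0 p^n`, `t = ζ + ζ⁻¹ ∈ B_n` (LAY). `g` from GENX, of order `p^n` with fixed field `K`. The restriction of `g` to `B_n = ℚ(t)` maps `t` to `ζ^c + ζ^(-c)`, `c` prime to `p` (`B_n / ℚ` is normal, the conjugates of `t`: `g` extends to an embedding of `K_n(ζ)`, which maps `ζ` to `ζ^c`; or: `g(t)` is a root of the minimal polynomial of `t`). The powers `g^i`, `i < p^n`,
have different values at `t` (an element trivial on `K` and at `t` is trivial on `K ⊔ B_n`), all of the form `ζ^c + ζ^(-c)` with `c` prime to `p`, and there are `φ(M)/2 = p^n` such numbers (`c` and `-c` modulo `M` give the same). So one of the `g^i =: γ` has `γ t = ζ^(g0) + ζ^(-g0)`, `g0 = 1 + q0`. `γ` has order `p^n`: the powers `γ^j`, `γ^j t = ζ^(g0^j) + ζ^(-g0^j)` (`t ↦ ζ^j + ζ^(-j)` is an integral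
polynomial in `t`), and `g0^j ≡ ± 1` modulo `M` only if `p^n ∣ j` (`v_p(g0^j - 1) = v_p(q0) + v_p(j)`: LTE, `g0 ≡ 1` modulo `q0`; `g0^j ≡ -1` is impossible modulo `q0`). So `⟨γ⟩ = ⟨g⟩` and the fixed field of `γ` is `K`. Model: `Pool/Agent/MU3/I_IGAM.lean` (part with the fixed field). -/
def Si_GAM : Prop :=
  ∀ (p : ℕ) [Fact p.Prime] (_ : p = 2 ∨ p = 3) (k K : IntermediateField ℚ ℂ)
    (Bn : ℕ → IntermediateField ℚ ℂ)
    [FiniteDimensional ℚ K] [∀ n, FiniteDimensional ℚ ↥(K ⊔ Bn n)] (_ : BasX p k K Bn) (n : ℕ)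
    (h : k ≤ K ⊔ Bn n),
    letI := algC h
    ∃ γ : ↥(K ⊔ Bn n) ≃ₐ[k] ↥(K ⊔ Bn n),
      (∀ x : ↥(K ⊔ Bn n), γ x = x ↔ (x : ℂ) ∈ K) ∧
      ∀ x : ↥(K ⊔ Bn n), (x : ℂ) = zt (q0 p * p ^ n) + (zt (q0 p * p ^ n))⁻¹ →
        ((γ x : ↥(K ⊔ Bn n)) : ℂ) =
          zt (q0 p * p ^ n) ^ (1 + q0 p) + (zt (q0 p * p ^ n) ^ (1 + q0 p))⁻¹

/-- (XMX) the sets `XX` satisfy `XM`.

USES XXF, ARF, LAY, Sx_ALG, Sx_NIM. PROOF. `D = K ⊔ Bn`, `m = lvX p f n`, `M = q0 p^n`, `Δ = NC h Bn`. `comm`: ARF 3, 5, 4 (`a a' = a' a`). `cop`: definition of `XX`. `ex`, `uniq`: XXF. `nrm`: `ζ = zt M`, `t = ζ + ζ⁻¹ ∈ Bn = ℚ(t)` (LAY). `τ * (γ^j)⁻¹ ∈ NC h Bn` iff `τ` and `γ^j` agree on `Bn` iff `τ t = γ^j t`. `q = (i, x)`, `x = out`: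
`AR h (idl m) τ (sp x * cjI (b i))` (XXF 1), so `τ t = ζ^N + ζ^(-N)`, `N = nI (sp x * cjI (b i)) = (nm x) (nI (b i))` (ARF 7, NIM; `nm x ≥ 0`). `γ^j t = ζ^(g0^j) + ζ^(-g0^j)` by induction (`γ t` given; `ζ^i + ζ^(-i)` is an integral polynomial in `t`; or use that `γ` extends to an automorphism of `ℂ`). `u + u⁻¹ = v + v⁻¹` iff `u = v` or
`u v = 1`; `ζ` is a primitive `M`-th root of unity: `ζ^N = ζ^(g0^j)` iff `M ∣ N - g0^j`. (`nI (b i)` is prime to `p f`, so to `m`.) -/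
def Si_XMX : Prop :=
  ∀ (p : ℕ) (A B : ℤ) (P : Ideal (OO A B)) (V : ValuationSubring ℂ) (f : ℕ),
    SetP p A B P V f → TorX A B → ∀ (ι : Type) (R : Reps A B (p * f) ι)
    (K Bn : IntermediateField ℚ ℂ) (n : ℕ) (h : kk A B ≤ K ⊔ Bn), IsLayer p n Bn →
    (∀ y ∈ K ⊔ Bn, y ∈ RF (idl (A := A) (B := B) (lvX p f n))) → letI := algC h
    ∀ (_ : IsGalois (kk A B) ↥(K ⊔ Bn)) (γ : ↥(K ⊔ Bn) ≃ₐ[kk A B] ↥(K ⊔ Bn)),
    (∀ x : ↥(K ⊔ Bn), (x : ℂ) = zt (q0 p * p ^ n) + (zt (q0 p * p ^ n))⁻¹ →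
        ((γ x : ↥(K ⊔ Bn)) : ℂ) =
          zt (q0 p * p ^ n) ^ (1 + q0 p) + (zt (q0 p * p ^ n) ^ (1 + q0 p))⁻¹) →
    XM R p f n γ (NC h Bn) (fun τ => XX R (lvX p f n) h τ)

/-- (BIJ) restriction from `NC (B n)` to `Gal(K/k)` is a bijective homomorphism.

USES S_GALX, S_GENX. PROOF. `r` is a homomorphism: `(r (δ δ') x : ℂ) = δ (δ' x)`. Injective: `δ` trivial on `B n` (`NC`) and on `K` is trivial on `K ⊔ B n`. Orders: `|Gal(K/k)| = [K : k]` (Galois) and `|Gal(K_n/k)| = [K_n : k] = [K : k] p^n` (`deg`). The quotient `Gal(K_n/k) / NC (B n)` embeds into `Gal(B n/ℚ)` (restriction), so its order is at most `p^n` and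
`|NC (B n)| ≥ [K : k]`. -/
def Si_BIJ : Prop :=
  ∀ (p : ℕ) [Fact p.Prime] (k K : IntermediateField ℚ ℂ) (Bn : ℕ → IntermediateField ℚ ℂ)
    [FiniteDimensional ℚ K] [∀ n, FiniteDimensional ℚ ↥(K ⊔ Bn n)] (_ : BasX p k K Bn) (n : ℕ)
    (h : k ≤ K ⊔ Bn n) (hK : k ≤ K),
    letI := algC h
    letI := algC hK
    ∀ r : NC h (Bn n) → (↥K ≃ₐ[k] ↥K),
      (∀ (δ : NC h (Bn n)) (x : ↥K) (x' : ↥(K ⊔ Bn n)), (x' : ℂ) = x →
      (((δ : ↥(K ⊔ Bn n) ≃ₐ[k] ↥(K ⊔ Bn n)) x' : ↥(K ⊔ Bn n)) : ℂ) = (r δ x : ↥K)) →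
      Function.Bijective r ∧ ∀ δ δ' : NC h (Bn n), r (δ * δ') = r δ * r δ'

/-! ## The sums -/

/-- (PTP) periodicity of the points `pt R m i x`.

USES Sx_ALG, `b_PER` (block B of MU3: `ee` is odd and periodic). PROOF. `x - y = m z`: `pt R m i x - pt R m i y = om_i nI(b_i) emb z`, and `nI (b i) ∈ b i` (`Nat.card (O/b) • 1 = 0`, or Sx_NIM), so it is in `R.L i` (`R.nl i`, `IsLI.mem`). -/
def Si_PTP : Prop :=
  ∀ (A B : ℤ), CQ A B → ∀ (n₀ : ℕ) (ι : Type) (R : Reps A B n₀ ι) (m : ℕ), m ≠ 0 → ∀ i : ι,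
    (∀ x y : OO A B, x - y ∈ idl (A := A) (B := B) m →
      pt R m i x - pt R m i y ∈ (R.L i).lattice ∧
      ee (R.L i) (pt R m i x) = ee (R.L i) (pt R m i y) ∧
      ∀ a : ℕ, dlX (R.L i) a (pt R m i x) = dlX (R.L i) a (pt R m i y)) ∧
    ∀ (a : ℕ) (x : OO A B), (a : ℂ) * pt R m i x = pt R m i (a * x)

/-- (TSH) the sums of the logarithmic derivatives.

USES PTP, PQF, Sx_ALG. PROOF. `a = aX p f`, `m = lvX p f n`, `M = q0 p^n`. `dlX (R.L i) a z = a ee(a z) - a² ee(z)`, `a pt(x) = pt(a x)`. `a - 1 = 2 q0 f`, so `a` is prime to `m` (`m = f q0 p^n`, `a ≡ 1` modulo `p` and modulo `f`), `e(a x) = e(x)` (`a - 1 ∈ idl f * cjI P`: `q0 ∈ P̄`; `e(a) = e(1) = 1`), and `x ↦ a x` is a bijection of `O/m`; `M ∣ N(a x) N b_i - a² t`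
iff `M ∣ N x N b_i - t` (`N(a x) = a² N x`, `a` prime to `M`). So `Σ_(M ∣ N x N b_i - t) e(x) ee(pt(a x)) = Σ_(M ∣ N x N b_i - a² t) e(x) ee(pt x)` (all terms are periodic modulo `m`: `N(x + m z) ≡ N x` modulo `m`, `M ∣ m`; `Quotient.out`). Model: the last part of `Pool/Agent/MU3/I_ITH.lean`. -/
def Si_TSH : Prop :=
  ∀ (p : ℕ) (A B : ℤ) (P : Ideal (OO A B)) (V : ValuationSubring ℂ) (f : ℕ),
    SetP p A B P V f → ∀ (ι : Type) (R : Reps A B (p * f) ι) (n : ℕ) (e : OO A B → ℂ),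
    IsEI (idl f * cjI P) e → ∀ (i : ι) (t : ℤ),
    muX R i * sumMod ((lvX p f n : ℕ) : OO A B) (fun x =>
      if ((q0 p * p ^ n : ℕ) : ℤ) ∣ nm x * nI (R.b i) - t then
        e x * dlX (R.L i) (aX p f) (pt R (lvX p f n) i x) else 0) =
      (aX p f : ℂ) * SnX R (lvX p f n) (q0 p * p ^ n) e i ((aX p f : ℤ) ^ 2 * t) -
        (aX p f : ℂ) ^ 2 * SnX R (lvX p f n) (q0 p * p ^ n) e i t

/-- (TH) the sums `That_j`.

USES TSH, PTP, PQF, Sx_ALG, Sx_NIM. Model: `Pool/Agent/MU3/I_ITH.lean` (there with a factor 2; here none, because `X τ` contains `(i, x)` and `(i, -x)`). PROOF. `m = lvX p f n`, `M = q0 p^n`, `a = aX p f = 1 + 2 q0 f`. `F(i, x) = kp_i e0(x) w(x) c_i dlX (R.L i) a (pt R m i x)` depends only on `x` modulo `m`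
(`pt R m i (m y) = om_i N(b_i) y ∈ R.L i`; `dlX` periodic: `a` is an integer; `e0` periodic modulo `lvX p f 0 ∣ m`; `w`: OddW). The left side is `Σ F(q)` over the `q = (i, x)` in `⋃_(δ ∈ Δ) X(γ^j δ)` (disjoint by `uniq`; `hχ`: `(χ δ)⁻¹ = kp_i e0(x)`, `γ^j δ = δ γ^j`), these are by `nrm`, `ex`, `cop` the `q` with `x` prime to `m` and
`M ∣ N x N b_i - g0^j` or `M ∣ N x N b_i + g0^j` (not both: `2 g0^j` is not divisible by `q0`). For `x` prime to `m`: `e0(x) w(x) = e(x)` (`s = 1`) or `e(x) w3(N x)` (`s = -1`, only `p = 3`), and in the second case `w3(N x) = w3(N b_i) w3(N x N b_i) = ± w3(N b_i)`. So the left side is `Σ_i kp_i c_i [w3(N b_i)] (D_i(g0^j) + s D_i(-g0^j))`,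
`D_i(t) = Σ_(x mod m, M ∣ N x N b_i - t) e(x) dlX (R.L i) a (pt R m i x)` (a class with `e(x) ≠ 0` and `M ∣ N x N b_i - t`, `t` prime to `p`, is prime to `f`, and `N x` is prime to `p`, so it is prime to `m`). TSH: `mu_i D_i(t) = a SnX i (a² t) - a² SnX i t`. Divide by `mu_i = muX R i ≠ 0` (`om_i, om_(i0) ≠ 0`, `nI (b i) ≠ 0`). -/
def Si_TH : Prop :=
  ∀ (p : ℕ) (A B : ℤ) (P : Ideal (OO A B)) (V : ValuationSubring ℂ) (f : ℕ),
    SetP p A B P V f → ∀ (ι : Type) [Fintype ι] (R : Reps A B (p * f) ι) (n : ℕ) (G : Type)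
    [Group G] [Finite G] (γ : G) (Δ : Subgroup G) [Fintype Δ]
    (X : G → Set (ι × (OO A B ⧸ idl (A := A) (B := B) (lvX p f n)))), XM R p f n γ Δ X →
    ∀ (χ : Δ →* ℂˣ) (e0 : OO A B → ℂ) (kp : ι → ℂ) (c : ι → ℤ) (w : OO A B → ℤ) (e : OO A B → ℂ)
    (s : ℤ),
    (∀ x y, x - y ∈ idl (A := A) (B := B) (lvX p f 0) → e0 x = e0 y) →
    OddW p P (lvX p f n) w → IsEI (idl f * cjI P) e → s = 1 ∨ s = -1 → (p = 2 → s = 1) →
    (∀ x, IsCoprime x ((lvX p f 0 : ℕ) : OO A B) →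
        e0 x * (w x : ℂ) = e x * (if s = 1 then 1 else (w3 (nm x) : ℂ))) →
    (∀ (δ : Δ) (j : ℕ), ∀ q ∈ X (γ ^ j * (δ : G)),
      (((χ δ)⁻¹ : ℂˣ) : ℂ) = kp q.1 * e0 (Quotient.out q.2)) →
    ∀ j : ℕ,
    ∑ δ : Δ, (((χ δ)⁻¹ : ℂˣ) : ℂ) * ∑ᶠ q ∈ X (γ ^ j * (δ : G)), (w (Quotient.out q.2) : ℂ) *
        (c q.1 : ℂ) * dlX (R.L q.1) (aX p f) (pt R (lvX p f n) q.1 (Quotient.out q.2)) =
      STX R (lvX p f n) (q0 p * p ^ n) (aX p f) e (kkX R kp c s) ((1 + (q0 p : ℤ)) ^ j) +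
        s * STX R (lvX p f n) (q0 p * p ^ n) (aX p f) e (kkX R kp c s) (-(1 + (q0 p : ℤ)) ^ j)

/-! ## The result -/

/-- (GEN) the statement for one generator gives it for all generators.

PROOF. `Pool/Agent/MU3/I3G.lean` (`I3G.rel`, `i3_all`) with `3` replaced by `p` and with one `θ` given in advance. Uses S_GALX. -/
def Si_GEN : Prop :=
  ∀ (p : ℕ) [Fact p.Prime] (k K : IntermediateField ℚ ℂ) (Bn : ℕ → IntermediateField ℚ ℂ)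
    [FiniteDimensional ℚ K] [∀ n, FiniteDimensional ℚ ↥(K ⊔ Bn n)] (_ : BasX p k K Bn) (n : ℕ)
    (h : k ≤ K ⊔ Bn n) (c : ℂ) (hc : c ∈ K ⊔ Bn n) (_ : c ≠ 0) (N : ℕ),
    letI := algC h
    ∀ γ₀ : ↥(K ⊔ Bn n) ≃ₐ[k] ↥(K ⊔ Bn n), (∀ x : ↥(K ⊔ Bn n), γ₀ x = x ↔ (x : ℂ) ∈ K) →
    ∀ [Fintype (NC h (Bn n))] (b : NC h (Bn n) → ℕ),
    (∀ y : ↥(K ⊔ Bn n), y ^ p ≠ ∏ δ : NC h (Bn n),
        ((δ : ↥(K ⊔ Bn n) ≃ₐ[k] ↥(K ⊔ Bn n)) ((Tg γ₀)^[N] ⟨c, hc⟩)) ^ b δ) →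
    ∀ γ : ↥(K ⊔ Bn n) ≃ₐ[k] ↥(K ⊔ Bn n), (∀ x : ↥(K ⊔ Bn n), γ x = x ↔ (x : ℂ) ∈ K) →
    ∀ y : ↥(K ⊔ Bn n), y ^ p ≠ ∏ δ : NC h (Bn n),
        ((δ : ↥(K ⊔ Bn n) ≃ₐ[k] ↥(K ⊔ Bn n)) ((Tg γ)^[N] ⟨c, hc⟩)) ^ b δ

/-- (I3) THE RESULT of block IX: the field `i3` of `InpX` (`StKX.lean`), `F` = the residue field of `V`.

USES HFX, CHI, FOU, EPS3, EPS2, E0, ARF, SUB, GAM, XMX, BIJ, TH, GEN, XXF, Sy_ALM, `Pool.Agent.MUXHY.Sy_HFX`, `St_ITG` (MU3), S_GALX, `Sj_RES`. Module of helper36 (model `I_I3F.lean` of MU3). PROOF. `N ≥ 1` first. CHI for `Gal(K/k)`: `X`, `θ`; E0, EPS: `e0`, `kp`, `w`, `e`, `s`; `kk = kkX R kp c s`: algebraic (ALM), valuation 1. `Sy_HFX`: `h`, `r`, `n₀'`; choose `n ≥ n₀, n₀', 1`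
in the class. GAM: `γ`. If `y^p = ∏_δ (δ T^N c)^(b_δ)`, `b_δ = θ(χ(r δ)⁻¹).val`, then by `EInp`, FOU, TH the quantity of HFX is small: contradiction. GEN. `N = 0` follows from `N = 1`. -/
def Si_I3 : Prop :=
  ∀ (p : ℕ) [Fact p.Prime] (A B : ℤ) (P : Ideal (OO A B)) (V : ValuationSubring ℂ) (f : ℕ),
    SetP p A B P V f → TorX A B → ∀ (ι : Type) [Fintype ι] (R : Reps A B (p * f) ι)
    (_ : ∀ i, V.valuation (muX R i) = 1) (c : ι → ℤ) (_ : ∀ i, c i = 1 ∨ c i = -1)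
    (K : IntermediateField ℚ ℂ) (Bn : ℕ → IntermediateField ℚ ℂ)
    [FiniteDimensional ℚ K] [∀ n, FiniteDimensional ℚ ↥(K ⊔ Bn n)]
    (hB : BasX p (kk A B) K Bn)
    (_ : ¬ p ∣ Module.finrank (kk A B) (IntermediateField.extendScalars hB.hk))
    (_ : ∀ y ∈ K, y ∈ RF (idl (A := A) (B := B) (lvX p f 0)))
    (hk : ∀ n, kk A B ≤ K ⊔ Bn n) (hkK : kk A B ≤ K)
    (C : ∀ n, (letI := algC (hk n); ↥(K ⊔ Bn n) ≃ₐ[kk A B] ↥(K ⊔ Bn n)) → ℂ)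
    (_ : ∀ n, 1 ≤ n → EInp p P V f R c n (hk n) (C n)) (c₀ : ℕ → ℂ)
    (mem : ∀ n, c₀ n ∈ K ⊔ Bn n) (_ : ∀ n, 1 ≤ n → c₀ n = C n (letI := algC (hk n); 1)),
    letI := algC hkK
    ∀ (χ : (↥K ≃ₐ[kk A B] ↥K) →* (IsLocalRing.ResidueField V)ˣ) (N n₀ : ℕ), ∃ n, n₀ ≤ n ∧
    (letI := algC (hk n)
    ∀ γ : ↥(K ⊔ Bn n) ≃ₐ[kk A B] ↥(K ⊔ Bn n), (∀ x : ↥(K ⊔ Bn n), γ x = x ↔ (x : ℂ) ∈ K) →
    ∀ [Fintype (NC (hk n) (Bn n))] (r : NC (hk n) (Bn n) → (↥K ≃ₐ[kk A B] ↥K)),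
    (∀ (δ : NC (hk n) (Bn n)) (x : ↥K) (x' : ↥(K ⊔ Bn n)), (x' : ℂ) = x →
      (((δ : ↥(K ⊔ Bn n) ≃ₐ[kk A B] ↥(K ⊔ Bn n)) x' : ↥(K ⊔ Bn n)) : ℂ) = (r δ x : ↥K)) →
    ∃ θ : IsLocalRing.ResidueField V →+ ZMod p, ∀ y : ↥(K ⊔ Bn n),
      y ^ p ≠ ∏ δ : NC (hk n) (Bn n),
      ((δ : ↥(K ⊔ Bn n) ≃ₐ[kk A B] ↥(K ⊔ Bn n)) ((Tg γ)^[N] ⟨c₀ n, mem n⟩)) ^
        (θ ((χ (r δ))⁻¹ : (IsLocalRing.ResidueField V)ˣ)).val)

end

end Pool.Agent.MUXI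


end

section

/-!
# MUX, block IX, module ARF: the Artin symbol for a field `D`, `k ≤ D ≤ RF m`
-/

set_option autoImplicit false

namespace Pool.Agent.MUXI

open _root_.MU3 _root_.Pool.Agent.MU3 _root_.Pool.Agent.MU3A _root_.Pool.Agent.MU3B _root_.Pool.Agent.RI _root_.Pool.Agent.RID
  _root_.Pool.Agent.MUX _root_.Pool.Agent.MUXE _root_.Pool.Agent.MUXK
open _root_.Pool.Agent.MU3I (w3 zt)

namespace I_ARF

/-- automorphisms of `ℂ` with `FixK` are trivial on `k` -/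
lemma fix {A B : ℤ} {σ : ℂ ≃+* ℂ} (hσ : FixK A B σ) : ∀ y ∈ kk A B, σ y = y := by
  intro y hy
  induction hy using IntermediateField.adjoin_induction with
  | mem x hx => rw [Set.mem_singleton_iff] at hx; rw [hx]; exact hσ
  | algebraMap x => simp
  | add x y _ _ hx hy => rw [map_add, hx, hy]
  | inv x _ hx => rw [map_inv₀, hx]
  | mul x y _ _ hx hy => rw [map_mul, hx, hy]

/-- every automorphism of `ℂ` over `k` has a restriction to `D`, if `D / k` is normal -/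
lemma restr {A B : ℤ} {σ : ℂ ≃+* ℂ} (hσ : FixK A B σ) (D : IntermediateField ℚ ℂ)
    (h : kk A B ≤ D) (hG : letI := algC h; IsGalois (kk A B) D) :
    letI := algC h
    ∃ τ : D ≃ₐ[kk A B] D, ExtC h τ σ := by
  let aD : Algebra (kk A B) D := algC h
  have hG' : IsGalois (kk A B) D := hG
  have tD : IsScalarTower (kk A B) D ℂ := IsScalarTower.of_algebraMap_eq (fun _ => rfl)
  let s : ℂ ≃ₐ[kk A B] ℂ := AlgEquiv.ofRingEquiv (f := σ) (fun r => fix hσ _ r.2)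
  refine ⟨s.restrictNormal D, ?_⟩
  intro y
  exact (AlgEquiv.restrictNormal_commutes s D y).symm

end I_ARF

open _root_.Pool.Agent.MUXI.I_ARF in
theorem ti_ARF (h1 : Si_IAF) (h2 : Si_IAG) : Si_ARF := by
  intro A B hQ hT hN m hm D h hD
  let aD : Algebra (kk A B) D := algC h
  intro hG
  obtain ⟨i1, i2, i3, -, -, -, i7, i8⟩ := h1 A B hQ hT hN m hm
  obtain ⟨g1, -, g3⟩ := h2 A B hQ hT hN m hm
  refine ⟨⟨RingEquiv.refl ℂ, g1, fun y => rfl⟩, ?_, ?_, ?_, ?_, ?_, ?_⟩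
  · intro a ha hc
    obtain ⟨σ, hσ⟩ := i2 a ha hc
    obtain ⟨τ, hτ⟩ := restr hσ.fix D h hG
    exact ⟨τ, σ, hσ, hτ⟩
  · intro τ
    obtain ⟨σ, hσ, hE⟩ := hT.ext m hm D h hD τ
    obtain ⟨a, ha⟩ := i1 σ hσ
    exact ⟨a, ha.cop, σ, ha, hE⟩
  · rintro τ τ' a a' ⟨σ, hσ, hE⟩ ⟨σ', hσ', hE'⟩ hR
    have h3 := (g3 σ σ' a a' hσ hσ').1 hR
    ext y
    have e1 : σ (y : ℂ) = ((τ y : D) : ℂ) := hE y
    have e2 : σ' (y : ℂ) = ((τ' y : D) : ℂ) := hE' y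
    have e3 := h3 y (hD y y.2)
    show ((τ y : D) : ℂ) = ((τ' y : D) : ℂ)
    rw [← e1, ← e2, e3]
  · rintro τ τ' a a' ⟨σ, hσ, hE⟩ ⟨σ', hσ', hE'⟩
    refine ⟨σ'.trans σ, ?_, ?_⟩
    · have h3 := i3 σ' σ a' a hσ' hσ
      rwa [mul_comm a' a] at h3
    · intro y
      have e1 : σ' (y : ℂ) = ((τ' y : D) : ℂ) := hE' y
      have e2 : σ ((τ' y : D) : ℂ) = ((τ (τ' y) : D) : ℂ) := hE (τ' y)
      show σ (σ' (y : ℂ)) = ((τ (τ' y) : D) : ℂ)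
      rw [e1, e2]
  · intro K hK m' hmm hKD
    let aK : Algebra (kk A B) K := algC hK
    rintro τ τK a hres ⟨σ, hσ, hE⟩
    refine ⟨σ, i7 σ a m' hmm hσ, ?_⟩
    intro x
    have e1 : σ (x : ℂ) = ((τ ⟨(x : ℂ), hKD x.2⟩ : D) : ℂ) := hE ⟨(x : ℂ), hKD x.2⟩
    show σ (x : ℂ) = ((τK x : K) : ℂ)
    rw [e1]
    exact hres x ⟨(x : ℂ), hKD x.2⟩ rfl
  · rintro M τ a z y hM hle ⟨σ, hσ, hE⟩ hz hy
    have h3 := (i8 M σ a z hM hle hσ hz).2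
    have e1 : σ (y : ℂ) = ((τ y : D) : ℂ) := hE y
    rw [← e1, hy, map_add, map_inv₀, h3]

end Pool.Agent.MUXI


end

section

/-!
# MU3: definitions for the main theorem

`torsionField s a b c` is the subfield of `ℂ` generated by `s` and by the coordinates of all points
of finite order of the elliptic curve `y² = x³ + a x² + b x + c`.
-/

set_option autoImplicit false

namespace Pool.Agent.MU3Z

/-- The curve `y² = x³ + a x² + b x + c` over the complex numbers. -/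
def curve (a b c : ℂ) : WeierstrassCurve ℂ := ⟨0, a, 0, b, c⟩

/-- The subfield of `ℂ` generated by `s` and the coordinates `x`, `y` of the points of finite order
of the curve `y² = x³ + a x² + b x + c`. -/
noncomputable def torsionField (s a b c : ℂ) : IntermediateField ℚ ℂ :=
  IntermediateField.adjoin ℚ ({s} ∪ {t : ℂ | ∃ (x y : ℂ)
    (h : (curve a b c).toAffine.Nonsingular x y),
    IsOfFinAddOrder (WeierstrassCurve.Affine.Point.some x y h) ∧ (t = x ∨ t = y)})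

/-- The complex number `√-m`. -/
noncomputable def rt (m : ℕ) : ℂ := Complex.I * (Real.sqrt m : ℝ)

end Pool.Agent.MU3Z


end

section

/-!
# MUX, block IX: `Si_FOU` (model `Pool/Agent/MU3/I_IFOU.lean`)
-/

set_option autoImplicit false

namespace Pool.Agent.MUXI

open _root_.MU3 _root_.Pool.Agent.MU3 _root_.Pool.Agent.MU3A _root_.Pool.Agent.MU3B _root_.Pool.Agent.RI _root_.Pool.Agent.RID
  _root_.Pool.Agent.MUX _root_.Pool.Agent.MUXE _root_.Pool.Agent.MUXK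
open _root_.Pool.Agent.MU3I (w3 zt)

namespace IFou64

lemma ifou_mem (V : ValuationSubring ℂ) (x : ℂ) (n : ℕ) (hn : n ≠ 0) (hx : x ^ n = 1) :
    x ∈ V := by
  rw [← ValuationSubring.valuation_le_one_iff]
  have h : V.valuation x ^ n = 1 := by rw [← map_pow, hx, map_one]
  exact ((pow_eq_one_iff_of_nonneg zero_le hn).1 h).le

lemma ifou_sum {p : ℕ} (hp : p.Prime) (V : ValuationSubring ℂ) (hIHF : Si_HFX) {ι : Type}
    (s : Finset ι) (f : ι → ℂ) (hf : ∀ i ∈ s, HfX p V (f i)) : HfX p V (∑ i ∈ s, f i) := by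
  classical
  induction s using Finset.induction_on with
  | empty => simpa using (hIHF p hp V).1
  | insert a s ha ih =>
    rw [Finset.sum_insert ha]
    exact (hIHF p hp V).2.1 _ _ (hf a (Finset.mem_insert_self a s))
      (ih fun i hi => hf i (Finset.mem_insert_of_mem hi))

end IFou64

open _root_.Pool.Agent.MUXI.IFou64 in
theorem ti_FOU (h1 : Si_HFX) : Si_FOU := by
  intro p hp V G _ _ hcomm γ Δ _ T b N c X hb hT
  obtain ⟨-, -, hmul, hdiv, -⟩ := h1 p hp V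
  refine hdiv _ _ hb ?_
  have hinv : ∀ δ : Δ, (((X δ)⁻¹ : ℂˣ) : ℂ) ∈ V := by
    intro δ
    refine ifou_mem V _ (Fintype.card Δ) Fintype.card_ne_zero ?_
    rw [← Units.val_pow_eq_pow_val, ← map_inv, ← map_pow, pow_card_eq_one, map_one, Units.val_one]
  have key : (∑ δ : Δ, (b δ : ℂ) * (X δ : ℂ)) * (∑ j ∈ Finset.range (N + 1), (c j : ℂ) *
      ∑ δ : Δ, (((X δ)⁻¹ : ℂˣ) : ℂ) * T (γ ^ j * (δ : G))) =
      ∑ δ' : Δ, (((X δ')⁻¹ : ℂˣ) : ℂ) * ∑ δ : Δ, ∑ j ∈ Finset.range (N + 1),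
      (b δ : ℂ) * (c j : ℂ) * T ((δ : G) * γ ^ j * (δ' : G)) := by
    rw [Finset.sum_mul]
    simp only [Finset.mul_sum]
    conv_rhs => rw [Finset.sum_comm]
    refine Finset.sum_congr rfl fun δ _ => ?_
    conv_rhs => rw [Finset.sum_comm]
    refine Finset.sum_congr rfl fun j _ => ?_
    rw [← Equiv.sum_comp (Equiv.mulLeft δ)]
    refine Finset.sum_congr rfl fun δ' _ => ?_
    have h1 : γ ^ j * ((Equiv.mulLeft δ δ' : Δ) : G) = (δ : G) * γ ^ j * (δ' : G) := by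
      simp only [Equiv.coe_mulLeft, Subgroup.coe_mul]
      rw [← mul_assoc, hcomm (γ ^ j) (δ : G)]
    rw [h1]
    have h2 : (((X (Equiv.mulLeft δ δ'))⁻¹ : ℂˣ) : ℂ) =
        (((X δ)⁻¹ : ℂˣ) : ℂ) * (((X δ')⁻¹ : ℂˣ) : ℂ) := by
      simp only [Equiv.coe_mulLeft, map_mul, mul_inv, Units.val_mul]
    rw [h2]
    have h3 : (X δ : ℂ) * (((X δ)⁻¹ : ℂˣ) : ℂ) = 1 := Units.mul_inv (X δ)
    linear_combination ((b δ : ℂ) * (c j : ℂ) * (((X δ')⁻¹ : ℂˣ) : ℂ) *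
      T ((δ : G) * γ ^ j * (δ' : G))) * h3
  rw [key]
  exact ifou_sum hp V h1 _ _ fun δ' _ => hmul _ _ (hinv δ') (hT δ')

end Pool.Agent.MUXI


end

section

/-!
# MU3, block I, module ICHI (helper18)

Characters with values in the residue field: the reduction of the `e`-th roots of unity is bijective when `3` does not
divide `e`, and one coordinate form of the residue field over `ZMod 3` separates `Σ (χ δ)⁻¹ ⊗ χ δ` from zero.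
-/

set_option autoImplicit false

namespace Pool.Agent.MU3I

noncomputable section

/-- a complex root of unity is a unit of `V` -/
theorem ichi_mem_unitGroup (V : ValuationSubring ℂ) {n : ℕ} (hn : n ≠ 0) {z : ℂˣ}
    (hz : z ^ n = 1) : z ∈ V.unitGroup := by
  rw [ValuationSubring.mem_unitGroup_iff]
  have h : (V.valuation (z : ℂ)) ^ n = 1 := by
    rw [← map_pow, ← Units.val_pow_eq_pow_val, hz]
    simp
  rcases lt_trichotomy (V.valuation (z : ℂ)) 1 with h1 | h1 | h1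
  · have := pow_lt_one₀ (zero_le : 0 ≤ V.valuation (z : ℂ)) h1 hn
    exact absurd h this.ne
  · exact h1
  · have := one_lt_pow₀ h1 hn
    exact absurd h this.ne'

/-- reduction of the `n`-th roots of unity -/
def ichiRed (V : ValuationSubring ℂ) (n : ℕ) (hn : n ≠ 0) :
    rootsOfUnity n ℂ →* rootsOfUnity n (IsLocalRing.ResidueField V) :=
  (V.unitGroupToResidueFieldUnits.comp
    (Subgroup.inclusion (show rootsOfUnity n ℂ ≤ V.unitGroup from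
      fun z hz => ichi_mem_unitGroup V hn hz))).codRestrict _ (fun z => by
        rw [mem_rootsOfUnity, ← map_pow]
        have : z ^ n = 1 := Subtype.ext z.2
        rw [this, map_one])

theorem ichiRed_coe (V : ValuationSubring ℂ) (n : ℕ) (hn : n ≠ 0) (z : rootsOfUnity n ℂ)
    (hz : ((z : ℂˣ) : ℂ) ∈ V) :
    (((ichiRed V n hn z : (IsLocalRing.ResidueField V)ˣ)) : IsLocalRing.ResidueField V) =
      IsLocalRing.residue V ⟨((z : ℂˣ) : ℂ), hz⟩ := by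
  rfl

theorem ichi_mem (V : ValuationSubring ℂ) {n : ℕ} (hn : n ≠ 0) (z : rootsOfUnity n ℂ) :
    ((z : ℂˣ) : ℂ) ∈ V := by
  have h := ichi_mem_unitGroup V hn z.2
  rw [ValuationSubring.mem_unitGroup_iff] at h
  exact (V.valuation_le_one_iff _).1 h.le

theorem ichi_char (V : ValuationSubring ℂ) (h3 : (3 : ℂ) ∈ V.nonunits) :
    CharP (IsLocalRing.ResidueField V) 3 := by
  rw [CharP.charP_iff_prime_eq_zero Nat.prime_three]
  have h : ((3 : V) : ℂ) ∈ V.nonunits := h3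
  rw [ValuationSubring.coe_mem_nonunits_iff] at h
  have h4 : IsLocalRing.residue V (3 : V) = 0 := (IsLocalRing.residue_eq_zero_iff _).2 h
  rw [map_ofNat] at h4
  exact_mod_cast h4

theorem ichi_ne (V : ValuationSubring ℂ) (h3 : (3 : ℂ) ∈ V.nonunits) (n : ℕ) (hn : ¬ 3 ∣ n) :
    (n : IsLocalRing.ResidueField V) ≠ 0 := by
  haveI := ichi_char V h3
  intro h
  exact hn ((CharP.cast_eq_zero_iff _ 3 n).1 h)

theorem ichiRed_inj (V : ValuationSubring ℂ) (h3 : (3 : ℂ) ∈ V.nonunits) (n : ℕ) (hn : n ≠ 0)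
    (h3n : ¬ 3 ∣ n) : Function.Injective (ichiRed V n hn) := by
  rw [injective_iff_map_eq_one]
  intro z hz
  by_contra hne
  have hzV := ichi_mem V hn z
  have h1 : IsLocalRing.residue V ⟨((z : ℂˣ) : ℂ), hzV⟩ = 1 := by
    rw [← ichiRed_coe V n hn z hzV, hz]
    rfl
  have hzn : ((z : ℂˣ) : ℂ) ^ n = 1 := by
    have := z.2
    rw [mem_rootsOfUnity] at this
    rw [← Units.val_pow_eq_pow_val, this]
    rfl
  have hz1 : ((z : ℂˣ) : ℂ) ≠ 1 := by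
    intro h
    apply hne
    apply Subtype.ext
    apply Units.ext
    exact h
  have hg : ∑ i ∈ Finset.range n, ((z : ℂˣ) : ℂ) ^ i = 0 := by
    have := mul_neg_geom_sum ((z : ℂˣ) : ℂ) n
    rw [hzn, sub_self] at this
    rcases mul_eq_zero.1 this with h | h
    · exact absurd (sub_eq_zero.1 h).symm hz1
    · exact h
  have hgV : ∑ i ∈ Finset.range n, (⟨((z : ℂˣ) : ℂ), hzV⟩ : V) ^ i = 0 := by
    apply Subtype.ext
    simp only [AddSubmonoidClass.coe_finsetSum, SubmonoidClass.coe_pow]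
    exact hg
  have := congrArg (IsLocalRing.residue V) hgV
  rw [map_sum, map_zero] at this
  simp only [map_pow, h1, one_pow, Finset.sum_const, Finset.card_range, nsmul_eq_mul,
    mul_one] at this
  exact ichi_ne V h3 n h3n this

theorem ichiRed_bij (V : ValuationSubring ℂ) (h3 : (3 : ℂ) ∈ V.nonunits) (n : ℕ) (hn : n ≠ 0)
    (h3n : ¬ 3 ∣ n) : Function.Bijective (ichiRed V n hn) := by
  haveI : NeZero n := ⟨hn⟩
  refine (ichiRed_inj V h3 n hn h3n).bijective_of_nat_card_le ?_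
  rw [Complex.card_rootsOfUnity n]
  exact card_rootsOfUnity _ n

/-- some linear form separates -/
theorem ichi_theta (V : ValuationSubring ℂ) (h3 : (3 : ℂ) ∈ V.nonunits) (Δ : Type) [Group Δ]
    [Fintype Δ] (h3n : ¬ 3 ∣ Fintype.card Δ) (χ : Δ →* (IsLocalRing.ResidueField V)ˣ) :
    ∃ θ : IsLocalRing.ResidueField V →+ ZMod 3,
      (∑ δ : Δ, ((θ ((χ δ)⁻¹ : (IsLocalRing.ResidueField V)ˣ)).val : IsLocalRing.ResidueField V) *
        ((χ δ : (IsLocalRing.ResidueField V)ˣ) : IsLocalRing.ResidueField V)) ≠ 0 := by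
  classical
  haveI := ichi_char V h3
  letI : Algebra (ZMod 3) (IsLocalRing.ResidueField V) := ZMod.algebra _ 3
  haveI : Fact (Nat.Prime 3) := ⟨Nat.prime_three⟩
  by_contra hcon
  push Not at hcon
  set b := Module.Basis.ofVectorSpace (ZMod 3) (IsLocalRing.ResidueField V) with hb
  have hval : ∀ (a : ZMod 3) (x : IsLocalRing.ResidueField V),
      ((a.val : ℕ) : IsLocalRing.ResidueField V) * x = a • x := by
    intro a x
    rw [Algebra.smul_def]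
    congr 1
  apply ichi_ne V h3 _ h3n
  set S : Finset _ := Finset.univ.biUnion fun δ : Δ =>
    (b.repr (((χ δ)⁻¹ : (IsLocalRing.ResidueField V)ˣ) : IsLocalRing.ResidueField V)).support
    with hS
  have hrep : ∀ δ : Δ, (((χ δ)⁻¹ : (IsLocalRing.ResidueField V)ˣ) : IsLocalRing.ResidueField V) =
      ∑ i ∈ S, (b.coord i (((χ δ)⁻¹ : (IsLocalRing.ResidueField V)ˣ) :
        IsLocalRing.ResidueField V)) • b i := by
    intro δ
    conv_lhs => rw [← b.linearCombination_repr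
      (((χ δ)⁻¹ : (IsLocalRing.ResidueField V)ˣ) : IsLocalRing.ResidueField V)]
    rw [Finsupp.linearCombination_apply, Finsupp.sum]
    refine Finset.sum_subset ?_ ?_
    · intro i hi
      rw [hS, Finset.mem_biUnion]
      exact ⟨δ, Finset.mem_univ _, hi⟩
    · intro i _ hi
      rw [Finsupp.notMem_support_iff] at hi
      rw [hi, zero_smul]
  calc ((Fintype.card Δ : ℕ) : IsLocalRing.ResidueField V)
      = ∑ δ : Δ, (((χ δ)⁻¹ : (IsLocalRing.ResidueField V)ˣ) : IsLocalRing.ResidueField V) *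
          ((χ δ : (IsLocalRing.ResidueField V)ˣ) : IsLocalRing.ResidueField V) := by
        simp
    _ = ∑ δ : Δ, (∑ i ∈ S, (b.coord i (((χ δ)⁻¹ : (IsLocalRing.ResidueField V)ˣ) :
          IsLocalRing.ResidueField V)) • b i) *
          ((χ δ : (IsLocalRing.ResidueField V)ˣ) : IsLocalRing.ResidueField V) := by
        refine Finset.sum_congr rfl fun δ _ => ?_
        rw [← hrep δ]
    _ = ∑ i ∈ S, b i * ∑ δ : Δ, (b.coord i (((χ δ)⁻¹ : (IsLocalRing.ResidueField V)ˣ) :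
          IsLocalRing.ResidueField V)) •
          ((χ δ : (IsLocalRing.ResidueField V)ˣ) : IsLocalRing.ResidueField V) := by
        simp_rw [Finset.sum_mul, Finset.mul_sum]
        rw [Finset.sum_comm]
        refine Finset.sum_congr rfl fun i _ => Finset.sum_congr rfl fun δ _ => ?_
        rw [smul_mul_assoc, mul_smul_comm]
    _ = 0 := by
        refine Finset.sum_eq_zero fun i _ => ?_
        have := hcon (b.coord i).toAddMonoidHom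
        simp_rw [hval] at this
        rw [show (∑ δ : Δ, (b.coord i (((χ δ)⁻¹ : (IsLocalRing.ResidueField V)ˣ) :
          IsLocalRing.ResidueField V)) •
          ((χ δ : (IsLocalRing.ResidueField V)ˣ) : IsLocalRing.ResidueField V)) = 0 from this,
          mul_zero]

theorem t_ICHI : St_ICHI := by
  intro V h3 Δ _ _ hcomm h3n χ
  obtain ⟨θ, hθ⟩ := ichi_theta V h3 Δ h3n χ
  have hn : Fintype.card Δ ≠ 0 := Fintype.card_ne_zero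
  set n := Fintype.card Δ with hndef
  -- the character in the roots of unity of the residue field
  have hχ : ∀ δ, χ δ ∈ rootsOfUnity n (IsLocalRing.ResidueField V) := by
    intro δ
    rw [mem_rootsOfUnity, ← map_pow, hndef, pow_card_eq_one, map_one]
  let χ' : Δ →* rootsOfUnity n (IsLocalRing.ResidueField V) := χ.codRestrict _ hχ
  let E : rootsOfUnity n ℂ ≃* rootsOfUnity n (IsLocalRing.ResidueField V) :=
    MulEquiv.ofBijective (ichiRed V n hn) (ichiRed_bij V h3 n hn h3n)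
  refine ⟨(rootsOfUnity n ℂ).subtype.comp (E.symm.toMonoidHom.comp χ'), θ, ?_⟩
  intro hmem
  apply hθ
  have hV : ∀ δ : Δ, (((E.symm (χ' δ) : rootsOfUnity n ℂ) : ℂˣ) : ℂ) ∈ V := fun δ =>
    ichi_mem V hn _
  have hres : ∀ δ : Δ, IsLocalRing.residue V ⟨_, hV δ⟩ =
      ((χ δ : (IsLocalRing.ResidueField V)ˣ) : IsLocalRing.ResidueField V) := by
    intro δ
    rw [← ichiRed_coe V n hn]
    have : ichiRed V n hn (E.symm (χ' δ)) = χ' δ := E.apply_symm_apply (χ' δ)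
    rw [this]
    rfl
  have hsum : ((∑ δ : Δ, (((θ ((χ δ)⁻¹ : (IsLocalRing.ResidueField V)ˣ)).val : ℕ) : V) *
      (⟨_, hV δ⟩ : V) : V) : ℂ) ∈ V.nonunits := by
    rw [AddSubmonoidClass.coe_finsetSum]
    have he : ∀ δ : Δ, (((((θ ((χ δ)⁻¹ : (IsLocalRing.ResidueField V)ˣ)).val : ℕ) : V) *
      (⟨_, hV δ⟩ : V) : V) : ℂ) = ((θ ((χ δ)⁻¹ : (IsLocalRing.ResidueField V)ˣ)).val : ℂ) *
        ((((rootsOfUnity n ℂ).subtype.comp (E.symm.toMonoidHom.comp χ')) δ : ℂˣ) : ℂ) := by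
      intro δ
      rfl
    simp_rw [he]
    exact hmem
  rw [ValuationSubring.coe_mem_nonunits_iff] at hsum
  have h4 := (IsLocalRing.residue_eq_zero_iff _).2 hsum
  rw [map_sum] at h4
  simp only [map_mul, map_natCast, hres] at h4
  exact h4

end

end Pool.Agent.MU3I


end
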