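import Mathlib
import Pool.Agent.MVF.C006
import Pool.Agent.MVF.C007
import Pool.Agent.MVF.C019

/-! Parts: MUX.StXF, MUX.F_LAT1, MUX.F_ALG, MUX.StYX, MUX.Y_MUC, MUX.F_DISX, MUX.F_BDD, MUX.Y_SUM, MUX.Y_RA1, MUX.Y_QBF, MUX.Y_EIC, MUX.Y_COP, MUX.Y_CON, MUX.Y_BIJ, ME.X.StYX -/

namespace Pool.Agent.MUXF.AlgX
end Pool.Agent.MUXF.AlgX
namespace Pool.Agent.MUXF.DISX
end Pool.Agent.MUXF.DISX

section

/-!
# MUX, block XF (helper87): theta series of ideals: values, Hecke operator, Fourier transform, projector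

Every statement is a `def Sx_X : Prop`. A module proves `theorem tx_X (h : Sx_Y) ... : Sx_X` in the file
`Pool/Agent/MUX/F_X.lean`, namespace `Pool.Agent.MUXF`, where the hypotheses are the statements named under
USES in the doc string (fewer is fine; unneeded ones are dropped). MODEL = a proved file of MU3 (`O` of class
number one, sums over `O`); usually the proof is that one with `O` replaced by the ideal `b` and `nm x` by
`nm x / nI b`. Definitions: `TDefs.lean`.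
-/

set_option autoImplicit false

namespace Pool.Agent.MUXF

open _root_.MU3 _root_.Pool.Agent.MU3A _root_.Pool.Agent.MU3B _root_.Pool.Agent.MU3F _root_.Pool.Agent.MuSym OnePoint
open scoped ComplexConjugate

noncomputable section

/-! ## Algebra -/

/-- (ALG) algebra of `O`. MODEL: `MU3/F_ALG.lean` (there with `Case`, which is only used for `D < 0`); see also
the lemmas of `MUX/XDefs.lean`.

`emb x = re + im * wC`, `wC = (B + i sqrt |D|)/2`. The quotient by an ideal `b ≠ ⊥`: `b` contains `nm x ≠ 0` for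
`0 ≠ x ∈ b`, so it is a quotient of `O/(n)`, `n ≠ 0` an integer. -/
def Sx_ALG : Prop :=
  ∀ A B : ℤ, CQ A B →
    (∀ x y : OO A B, emb (x * y) = emb x * emb y ∧ emb (x + y) = emb x + emb y ∧
      nm (x * y) = nm x * nm y) ∧
    (∀ x : OO A B, (emb x = 0 ↔ x = 0) ∧ (nm x = 0 ↔ x = 0) ∧ 0 ≤ nm x ∧
      ((nm x : ℤ) : ℝ) = ‖emb x‖ ^ 2 ∧
      x * star x = ((nm x : ℤ) : OO A B) ∧ emb (star x) = conj (emb x) ∧ nm (star x) = nm x) ∧
    (∀ n : ℤ, emb (n : OO A B) = n ∧ nm (n : OO A B) = n ^ 2) ∧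
    (∀ b : Ideal (OO A B), b ≠ ⊥ → Finite (OO A B ⧸ b)) ∧
    IsDomain (OO A B)

/-- (IDL) `b * conj b = (N b)`.

USES ALG. PROOF. `nI b ≠ 0` by finiteness. Hermite form: let `d > 0` be the generator of `{im x : x ∈ b}` and
`c + d w ∈ b`, and `a > 0` the generator of `b ∩ ℤ`; then `b = ℤ a + ℤ (c + d w)` and `nI b = a d` (the classes
of `i + j w`, `0 ≤ i < a`, `0 ≤ j < d`, are all classes, once each). `w a ∈ b` gives `d ∣ a`, and
`w (c + d w) = d A + (c + d B) w ∈ b` gives `d ∣ c`. So `b = d b'`, `b' = ℤ a' + ℤ (c' + w)`, `nI b = a' d²`, and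
`nm (c' + w) ∈ b' ∩ ℤ = a' ℤ`. `b' conj b'` is generated by `a'²`, `a' (c' + w)`, `a' (c' + conj w)`, `nm (c' + w)`,
all in `(a')`. Conversely the ideal `J` generated by `a'`, `c' + w`, `c' + conj w`, `nm (c' + w)/a'` is `(1)`: it
contains `a'`, `2 c' + B` and `n = nm (c' + w)/a'`; if a prime number `l` divides these three integers then
`D = B² + 4 A = (2 c' + B)² - 4 a' n` is divisible by `l²`, so `l = 2` (`D` is fundamental), `B = 0`,
`A = c'² - a' n`, with `a'`, `n` even: `A ≡ c'²` modulo `4`, against `A` squarefree, `A` not `1` modulo `4`. -/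
def Sx_IDL : Prop :=
  ∀ A B : ℤ, CQ A B → ∀ b : Ideal (OO A B), b ≠ ⊥ →
    nI b ≠ 0 ∧ b * cjI b = sp ((nI b : ℕ) : OO A B)

/-- (NIM) norms of ideals.

USES ALG, IDL. PROOF. `b c * conj (b c) = (nI b nI c)`, and `(m) = (n)` for natural numbers `m`, `n` gives
`m = n` (`emb` of a quotient is a unit of absolute value 1; or compare the norms `m² = n²`). For `sp a`:
`sp a * cjI (sp a) = sp (a * star a)`. `cjI` is an involution (`starRingEnd`). `nI b = (nI b : O)` times `1`: in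
`b * cjI b ≤ b`. Last statement: cancel `b` with `cjI b` and `nI b ≠ 0`. -/
def Sx_NIM : Prop :=
  ∀ A B : ℤ, CQ A B →
    (∀ b c : Ideal (OO A B), b ≠ ⊥ → c ≠ ⊥ → nI (b * c) = nI b * nI c ∧ b * c ≠ ⊥) ∧
    (∀ a : OO A B, nI (sp a) = (nm a).natAbs ∨ a = 0) ∧
    (∀ b : Ideal (OO A B), b ≠ ⊥ → nI (cjI b) = nI b ∧ cjI (cjI b) = b ∧ cjI b ≠ ⊥ ∧
      ((nI b : ℕ) : OO A B) ∈ b) ∧
    (∀ b c c' : Ideal (OO A B), b ≠ ⊥ → (b * c ≤ b * c' ↔ c ≤ c'))

/-- (QB) the form `nm x / nI b` on `b`.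

USES ALG, IDL. PROOF. For `x, y ∈ b` the number `x * star y` lies in `b * cjI b = (nI b)`. `y = x`: `nm x` is a
multiple of `nI b`. `nm (x + m y) = nm x + m (x star y + star x y) + m² nm y`. Every `x` in `O`:
`qb (nI b x) = nI b² nm x / nI b`. -/
def Sx_QB : Prop :=
  ∀ A B : ℤ, CQ A B → ∀ b : Ideal (OO A B), b ≠ ⊥ →
    (∀ x ∈ b, nm x = nI b * qb b x ∧ 0 ≤ qb b x) ∧
    (∀ x ∈ b, ∀ y ∈ b, ∀ m : ℤ, ∃ k : ℤ, qb b (x + m * y) = qb b x + m * k) ∧
    (∀ x : OO A B, qb b ((nI b : ℕ) * x) = nI b * nm x)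

/-- (LCN) a prime ideal of prime norm `l` and the form `qb`.

USES ALG, IDL, NIM, QB. PROOF. First: `P * cjI P = (l)`, so `l ∈ P`, `l ∈ cjI P`. `x ∈ b P`: `qb b x = l qb (b P) x`
(`nI (b P) = l nI b`). Let `x ∈ b` with `l ∣ qb b x`. `(x) cjI b ≤ b cjI b = (nI b)`, so `(x) cjI b = (nI b) c` with an
ideal `c` (`c = {y : nI b * y ∈ (x) cjI b}`); multiply by the conjugate: `(nm x) (nI b) = (nI b)² c cjI c`, so
`c cjI c = (qb b x) ≤ (l) ≤ P`, so `c ≤ P` or `cjI c ≤ P`, i.e. `c ≤ P` or `c ≤ cjI P`. In the first case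
`(x) cjI b ≤ (nI b) P = b cjI b P`, so `x ∈ b P` (cancel). Same for `cjI P`. -/
def Sx_LCN : Prop :=
  ∀ A B : ℤ, CQ A B → ∀ (b P : Ideal (OO A B)) (l : ℕ), b ≠ ⊥ → P.IsPrime → nI P = l →
    l.Prime →
    ((l : ℕ) : OO A B) ∈ P ∧ ((l : ℕ) : OO A B) ∈ cjI P ∧ nI (b * P) = nI b * l ∧
    (∀ x ∈ b * P, qb b x = l * qb (b * P) x) ∧
    ∀ x ∈ b, (l : ℤ) ∣ qb b x → x ∈ b * P ∨ x ∈ b * cjI P

/-- (BDD) a character is bounded. USES ALG. MODEL: `MU3/F_BDD.lean`. -/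
def Sx_BDD : Prop :=
  ∀ (A B : ℤ), CQ A B → ∀ (g : Ideal (OO A B)) (e : OO A B → ℂ), g ≠ ⊥ → IsEI g e →
    (Set.range e).Finite ∧ ∃ C : ℝ, 0 < C ∧ ∀ x, ‖e x‖ ≤ C

/-- (SMB) rules for `sumB`, `b ≠ ⊥`, `m ≠ 0`. MODEL: `MU3/F_SM.lean`.

USES ALG. The quotient `b / m b` is finite: `b` is finitely generated as an additive group (subgroup of `O`,
which is `ℤ²`), or `m b` contains `m n O` for an integer `n ≠ 0` in `b`, so `b / m b` is a quotient of the image of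
`b` in `O / (m n)`. -/
def Sx_SMB : Prop :=
  ∀ (A B : ℤ), CQ A B → ∀ (b : Ideal (OO A B)) (m : ℕ), b ≠ ⊥ → m ≠ 0 →
    Finite (b ⧸ (nsmulAddMonoidHom (α := b) m).range) ∧
    (∀ (c : ℂ) (F : OO A B → ℂ), sumB b m (fun x => c * F x) = c * sumB b m F) ∧
    (∀ F G : OO A B → ℂ, sumB b m (fun x => F x + G x) = sumB b m F + sumB b m G) ∧
    (∀ (s : Finset ℕ) (F : ℕ → OO A B → ℂ),
      sumB b m (fun x => ∑ j ∈ s, F j x) = ∑ j ∈ s, sumB b m (F j)) ∧
    (∀ F : OO A B → ℂ, (∀ x ∈ b, ∀ y ∈ b, F (x + m * y) = F x) → ∀ x : b,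
      F (Quotient.out (QuotientAddGroup.mk x : b ⧸ (nsmulAddMonoidHom (α := b) m).range) : b) =
        F x) ∧
    ∀ F G : OO A B → ℂ, (∀ x ∈ b, F x = G x) → sumB b m F = sumB b m G

/-- (TSM) summability. MODEL: `MU3/F_TSM.lean`.

USES ALG, QB. `(nm x / nI b) z = nm x (z / nI b)`: it is the summability over `O` (model, at `z / nI b`),
restricted to the subset `b` (`Summable.subtype` or `Summable.comp_injective`). -/
def Sx_TSM : Prop :=
  ∀ (A B : ℤ), CQ A B → ∀ b : Ideal (OO A B), b ≠ ⊥ → ∀ (e : OO A B → ℂ) (C : ℝ),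
    (∀ x, ‖e x‖ ≤ C) → ∀ z : ℂ, 0 < z.im →
      Summable (fun x : b => e x * conj (emb (x : OO A B)) *
        Complex.exp (2 * Real.pi * Complex.I * ((nm (x : OO A B) : ℂ) / nI b) * z))

/-- (DCM) a sum over `b` is a sum over the classes modulo `m b`. MODEL: `MU3/F_DCM.lean`.

USES ALG, SMB. `(q, w) ↦ Quotient.out q + m w` is a bijection from `(b / m b) × b` onto `b`. -/
def Sx_DCM : Prop :=
  ∀ (A B : ℤ), CQ A B → ∀ (b : Ideal (OO A B)) (m : ℕ), b ≠ ⊥ → m ≠ 0 → ∀ G : OO A B → ℂ,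
    Summable (fun x : b => G x) →
    ∑' x : b, G x = sumB b m (fun x => ∑' w : b, G (x + m * w))

/-- (CNV) if `N b` is prime to `m` then `x ↦ N b x` is a bijection from `O/m` onto `b / m b`.

USES ALG, IDL, NIM, SMB. PROOF. `nI b x ∈ b`. Injective: `nI b x ∈ m b ⊆ (m)`, `nI b` invertible modulo `m`.
Surjective: `u nI b + v m = 1`: for `y ∈ b`, `y = nI b (u y) + m (v y)`, `v y ∈ b`. Then reindex the finsum
(`finsum_eq_of_bijective` or `Finset.sum_bij`), using that `F` is periodic. -/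
def Sx_CNV : Prop :=
  ∀ (A B : ℤ), CQ A B → ∀ (b : Ideal (OO A B)) (m : ℕ), b ≠ ⊥ → m ≠ 0 → (nI b).Coprime m →
    ∀ F : OO A B → ℂ, (∀ x ∈ b, ∀ y ∈ b, F (x + m * y) = F x) →
    sumB b m F = sumMod (m : OO A B) (fun x => F ((nI b : ℕ) * x))

/-! ## Values of the symbol -/

/-- (THD) theta on a vertical line as a combination of lattice sums. MODEL: `MU3/F_THD.lean`.

USES ALG, QB, BDD, TSM, DCM, SMB. PROOF. `r = β/M`, `z = r + i t`, `nm x / nI b = qb b x` (an integer). DCM with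
`m`: `e (x + m w) = e x` (`m w ∈ g`), `ex (β qb (x + m w)/M) = ex (β qb x/M)` (QB and `M ∣ m`),
`emb (x + m w) = (m/Om) (z_x + Om emb w)`, `z_x = Om emb x/m`, and
`nm (x + m w)/nI b = (‖m/Om‖²/nI b) ‖z_x + Om emb w‖²`; `w ↦ Om emb w` is a bijection from `b` onto `L.lattice`. -/
def Sx_THD : Prop :=
  ∀ (A B : ℤ), CQ A B → ∀ (b : Ideal (OO A B)) (L : PeriodPair) (Om : ℂ), IsLI b L Om →
    ∀ (g : Ideal (OO A B)) (e : OO A B → ℂ), IsEI g e →
    ∀ (m M : ℕ), m ≠ 0 → (m : OO A B) ∈ g → M ≠ 0 → M ∣ m → ∀ (β : ℤ) (t : ℝ), 0 < t →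
      thetaI b e (((β / M : ℚ) : ℂ) + t * Complex.I) = (1 / 2) * sumB b m (fun x =>
        e x * ex (β * qb b x / M) * (conj (m / Om) * ∑' w : L.lattice,
          conj (Om * emb x / m + w) *
            (Real.exp (-((2 * Real.pi * ‖m / Om‖ ^ 2 / nI b) * t *
              ‖Om * emb x / m + w‖ ^ 2)) : ℝ)))

/-- (F4) the values of the symbol at all rational numbers, and integrability. MODEL: `MU3/F_F4.lean`.

USES ALG, SMB, IDL, THD, `MU3B.St_INT`. PROOF. Integrate THD over `t` in `(0, oo)` with `St_INT`,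
`c = 2 π ‖m/Om‖²/nI b`, `z = Om emb x/m`. -/
def Sx_F4 : Prop :=
  ∀ (A B : ℤ), CQ A B → ∀ (b : Ideal (OO A B)) (L : PeriodPair) (Om : ℂ), IsLI b L Om →
    ∀ (g : Ideal (OO A B)) (e : OO A B → ℂ), IsEI g e →
    ∀ (m M : ℕ), m ≠ 0 → (m : OO A B) ∈ g → M ≠ 0 → M ∣ m → ∀ β : ℤ,
      MeasureTheory.IntegrableOn
        (fun t : ℝ => thetaI b e (((β / M : ℚ) : ℂ) + t * Complex.I)) (Set.Ioi 0) ∧
      IvI b e (β / M : ℚ) = -(Om * nI b / (2 * m)) *
        sumB b m (fun x => e x * ex (β * qb b x / M) * ee L (Om * emb x / m))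

/-- (LAT1) every ideal gives a lattice. MODEL: `MU3A.Sa_LAT0` and its proof (file `MU3/A_*.lean`).

USES ALG, IDL. PROOF. `b` has a `ℤ`-basis `u, v` (Hermite form of IDL: `u = a`, `v = c + d w`, `a, d > 0`; or
`b` is a submodule of finite index of `O = ℤ²`); `Om emb u`, `Om emb v` are linearly independent over `ℝ` (if
`r emb u + s emb v = 0` with real `r, s` not both 0 then all of `emb b` lies on a line, but `b` contains
`n` and `n w` for an integer `n ≠ 0`). -/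
def Sx_LAT1 : Prop :=
  ∀ (A B : ℤ), CQ A B → ∀ (b : Ideal (OO A B)) (Om : ℂ), b ≠ ⊥ → Om ≠ 0 →
    ∃ L : PeriodPair, IsLI b L Om

/-- (ITG) integrability on all vertical lines over rational numbers. MODEL: `MU3/F_ITG.lean`.

USES ALG, F4, LAT1. PROOF. `r = β/M` with `β = r.num`, `M = r.den`; `m = n M` with a natural number `n ≠ 0` in
`g`; `Om = 1`. -/
def Sx_ITG : Prop :=
  ∀ (A B : ℤ), CQ A B → ∀ (b g : Ideal (OO A B)) (e : OO A B → ℂ), b ≠ ⊥ → g ≠ ⊥ → IsEI g e →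
    ∀ r : ℚ, MeasureTheory.IntegrableOn
      (fun t : ℝ => thetaI b e ((r : ℂ) + t * Complex.I)) (Set.Ioi 0)

open Classical in
/-- (F5) sums of `ee` over points of level `m` are Fourier transforms of the values of the symbol.
MODEL: `MU3/F_F5.lean`, `MU3/F_F5S.lean`.

USES ALG, IDL, NIM, QB, SMB, CNV, F4. PROOF. F4 and CNV (the function `x ↦ e x ex (β qb b x/M) ee L (Om emb x/m)` is
periodic: `ee L` is periodic, `MU3B.St_PER`; take it as a further hypothesis) and `qb b (nI b x) = nI b nm x`: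
`PhiI oo (β/M) = -IvI (β/M) = (Om nI b/(2 m)) sumMod m (e (nI b) e x ex (β nI b nm x/M) ee L (Om nI b emb x/m))`.
Multiply by `ex (-β c/M)` and sum over `β` modulo `M`: `Σ_β ex (β (nI b nm x - c)/M) = M` or `0`. `e (nI b) ≠ 0`:
`nI b` is prime to `m ∈ g`. -/
def Sx_F5 : Prop :=
  ∀ (A B : ℤ), CQ A B → ∀ (b : Ideal (OO A B)) (L : PeriodPair) (Om : ℂ), IsLI b L Om →
    ∀ (g : Ideal (OO A B)) (e : OO A B → ℂ), IsEI g e →
    ∀ (m M : ℕ), m ≠ 0 → (m : OO A B) ∈ g → M ≠ 0 → M ∣ m → (nI b).Coprime m →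
      e ((nI b : ℕ) : OO A B) ≠ 0 ∧ ∀ c : ℤ,
      sumMod (m : OO A B) (fun x =>
        if (M : ℤ) ∣ nI b * nm x - c then e x * ee L (Om * nI b * emb x / m) else 0) =
      (2 * m / (Om * nI b * M * e ((nI b : ℕ) : OO A B))) * ∑ β ∈ Finset.range M,
        ex (-(β * c) / M) * PhiI b e ∞ (((β / M : ℚ) : ℚ) : OnePoint ℚ)

/-- (PRD) `thetaI` has period 1. MODEL: `MU3/F_PRD.lean`. USES QB. Term by term. -/
def Sx_PRD : Prop :=
  ∀ (A B : ℤ), CQ A B → ∀ b : Ideal (OO A B), b ≠ ⊥ → ∀ (e : OO A B → ℂ) (z : ℂ),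
    thetaI b e (z + 1) = thetaI b e z

/-! ## The Hecke operator -/

/-- (UL) the operator `U_l` on theta. MODEL: `MU3/F_U3.lean`.

USES ALG, QB, LCN, BDD, TSM. PROOF. `Σ_j exp (2 π i n (z + j)/l) = l exp (2 π i n z/l)` if `l ∣ n`, else `0`, so the
left side is `l/2 Σ_(x ∈ b, l ∣ qb b x) e x conj (emb x) exp (2 π i (qb b x/l) z)`. If `e x ≠ 0` then `x ∉ cjI P`
(`(x) + g = 1`, `g ≤ cjI P ≠ ⊤`), so by LCN `l ∣ qb b x` iff `x ∈ b P` (`b cjI P ≤ cjI P`), and then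
`qb b x/l = qb (b P) x`. (`Function.Injective.tsum_eq` for the inclusion `b P → b`.) -/
def Sx_UL : Prop :=
  ∀ (A B : ℤ), CQ A B → ∀ (b g P : Ideal (OO A B)) (e : OO A B → ℂ) (l : ℕ), b ≠ ⊥ → g ≠ ⊥ →
    IsEI g e → P.IsPrime → nI P = l → l.Prime → g ≤ cjI P → ∀ z : ℂ, 0 < z.im →
    ∑ j ∈ Finset.range l, thetaI b e ((z + j) / l) = l * thetaI (b * P) e z

/-- (HU) the Hecke operator on the symbol. MODEL: `MU3/F_F3.lean`.

USES ALG, LCN, UL, ITG. PROOF. `e l = 0`: `l ∈ cjI P` and `g ≤ cjI P`. -/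
def Sx_HU : Prop :=
  ∀ (A B : ℤ), CQ A B → ∀ (b g P : Ideal (OO A B)) (e : OO A B → ℂ) (l : ℕ), b ≠ ⊥ → g ≠ ⊥ →
    IsEI g e → P.IsPrime → nI P = l → l.Prime → g ≤ cjI P →
    nuQ e l = 0 ∧ ∀ x y : OnePoint ℚ, hecke l (nuQ e) (PhiI b e) x y = PhiI (b * P) e x y

/-- (PRI) multiplication of the ideal by a number.

USES ALG, NIM. PROOF. `y ↦ a y` is a bijection from `b` onto `sp a * b`, `nI (sp a * b) = nm a nI b`,
`nm (a y) = nm a nm y`. No summability is needed (`Equiv.tsum_eq`, `tsum_mul_left`, `integral_const_mul`). -/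
def Sx_PRI : Prop :=
  ∀ (A B : ℤ), CQ A B → ∀ (b g : Ideal (OO A B)) (e : OO A B → ℂ) (a : OO A B), b ≠ ⊥ →
    IsEI g e → a ≠ 0 →
    (∀ z : ℂ, thetaI (sp a * b) e z = e a * conj (emb a) * thetaI b e z) ∧
    ∀ x y : OnePoint ℚ, PhiI (sp a * b) e x y = e a * conj (emb a) * PhiI b e x y

/-- (UH) if `P ^ h = (a)` then the symbol is an eigensymbol of `U_l ^ h`.

USES ALG, NIM, HU, PRI. PROOF. By HU `U_l ^ h PhiI b = PhiI (b P ^ h)` (induction), and `b P ^ h = (a) b`. -/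
def Sx_UH : Prop :=
  ∀ (A B : ℤ), CQ A B → ∀ (b g P : Ideal (OO A B)) (e : OO A B → ℂ) (l : ℕ), b ≠ ⊥ → g ≠ ⊥ →
    IsEI g e → P.IsPrime → nI P = l → l.Prime → g ≤ cjI P →
    (∀ n : ℕ, (hecke l (nuQ e))^[n] (PhiI b e) = PhiI (b * P ^ n) e) ∧
    ∀ (h : ℕ) (a : OO A B), a ≠ 0 → P ^ h = sp a → ∀ x y : OnePoint ℚ,
      (hecke l (nuQ e))^[h] (PhiI b e) x y = e a * conj (emb a) * PhiI b e x y

/-! ## The character and the projector -/

/-- (CHI) the character `chiQ` at integers prime to `D`.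

PROOF. `B = 1`: `absD = |D|` is odd and `3` modulo `4` (`D = 1 + 4 A`); `jacobiSym` is periodic modulo `|D|` and
multiplicative, `jacobiSym (-1) |D| = -1` (`ZMod.χ₄`, `jacobiSym.at_neg_one`). `B = 0`: `|D| = -4 A`, `n` is odd.
`jacobiSym A |n| ≠ 0` as `n` is prime to `A`. Periodicity modulo `4 |A|`: for `n, n' > 0` it is
`jacobiSym.mod_right`; and (`n < 0 < n'`) `chi (-n) = - chi n` for `n` modulo `4 |A|`: for odd positive `n`, `m` with
`n + m` divisible by `4 A`: `jacobiSym A n = - jacobiSym A m` (`A < 0`). Write `A = -2^k a'` with `a'` odd and use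
`jacobiSym.quadratic_reciprocity`, `jacobiSym.at_neg_one`, `jacobiSym.at_two` (`k ≤ 1`, `a'` and `k` with `A` not
`1` modulo `4`). (A lot of small cases: it may be easier to prove first
`jacobiSym A n = (function of n modulo 8) * jacobiSym n a'` for odd `n > 0`.) -/
def Sx_CHI : Prop :=
  ∀ A B : ℤ, CQ A B → ∀ n : ℤ, IsCoprime n (absD A B) →
    (chiQ A B n = 1 ∨ chiQ A B n = -1) ∧ chiQ A B (-n) = -chiQ A B n ∧
    ∀ n' : ℤ, absD A B ∣ n - n' → chiQ A B n' = chiQ A B n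

/-- (REC) `chi (N c) = 1` for the norm `N c = qb b x` of an integral ideal `c = x b⁻¹` prime to `D`.

USES ALG, IDL, QB, CHI. PROOF. `n = qb b x > 0` is prime to `D` (`x` is prime to `D`, so `nm x = nI b n` is). `4 nI b n =
4 nm x = (2 re + B im)² + |D| im²`. Let `n` be odd and `q` a prime divisor of `n`. The ideal
`c = x b⁻¹` (see LCN: `c cjI c = (n)`) and its Hermite form give `n = a' d²` with `D` a square modulo `4 a'`:
`chiQ (a' d²) = chiQ a'`, and for every prime `q ∣ a'` (`q` is prime to `D`): `D` is a square modulo `q` (modulo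
`8` if `q = 2`), so `jacobiSym D q = 1`. So `jacobiSym D a'' = 1` for the odd part `a''` of `a'`. `B = 0`: `n` is odd,
`chiQ n = jacobiSym A n = jacobiSym (4 A) n`. `B = 1`: `jacobiSym a'' |D| = jacobiSym D a''` by reciprocity
(`D = - |D|` is `1` modulo `4`), and `jacobiSym 2 |D| = 1` if `D` is `1` modulo `8`. -/
def Sx_REC : Prop :=
  ∀ A B : ℤ, CQ A B → ∀ b : Ideal (OO A B), b ≠ ⊥ → ∀ x ∈ b,
    IsCoprime x ((absD A B : ℤ) : OO A B) →
    IsCoprime (qb b x) (absD A B) ∧ chiQ A B (qb b x) = 1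

/-- (PHX) a function `φ` modulo `|D|` which is 1 on the exponents of theta and 0 on their negatives.

USES ALG, CHI, REC. PROOF. `φ n = (1 + chiQ n)/2` for `n` prime to `D`, `0` otherwise. `e x ≠ 0` gives
`(x) + g = 1`, `g ≤ (D)`, so `x` is prime to `D`. -/
def Sx_PHX : Prop :=
  ∀ A B : ℤ, CQ A B → ∃ φ : ℤ → ℂ, (∀ n, φ n = 0 ∨ φ n = 1) ∧
    (∀ n, φ (n + absD A B) = φ n) ∧
    ∀ (b g : Ideal (OO A B)) (e : OO A B → ℂ), b ≠ ⊥ → IsEI g e →
      g ≤ sp ((absD A B : ℤ) : OO A B) → ∀ x ∈ b, e x ≠ 0 →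
      φ (qb b x) = 1 ∧ φ (-qb b x) = 0

/-- (PRJ) the projector: from the part `s` of the symbol back to the symbol. MODEL: `MU3/F_TWD.lean` and
`MU3/F_F8.lean`.

USES ALG, QB, BDD, TSM, ITG, PRD. PROOF. `c_a = (1/q) Σ_n φ n ex (-(a n)/q)`, so `Σ_a c_a ex (a k/q) = φ k` for integers
`k` (finite Fourier inversion). So `Σ_a c_a thetaI (z + a/q) = thetaI z` (coefficients `φ (qb b x) = 1`) and
`Σ_a c_a thetaI (z - a/q) = 0` (coefficients `φ (- qb b x) = 0`). Integrate over vertical lines: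
`Σ_a c_a IvI (r + a/q) = IvI r`, `Σ_a c_a IvI (-(r + a/q)) = 0`; at infinity everything is 0 (so for cusps `x`:
`Σ_a c_a IcI (mob q a 0 q x) = IcI x`, and `Σ_a c_a IcI (mob (-1) 0 0 1 (mob q a 0 q x)) = 0`). -/
def Sx_PRJ : Prop :=
  ∀ (A B : ℤ), CQ A B → ∀ (b g : Ideal (OO A B)) (e : OO A B → ℂ), b ≠ ⊥ → g ≠ ⊥ → IsEI g e →
    ∀ (q : ℕ) (φ : ℤ → ℂ), q ≠ 0 → (∀ n, φ (n + q) = φ n) →
    (∀ x ∈ b, e x ≠ 0 → φ (qb b x) = 1 ∧ φ (-qb b x) = 0) →
    ∀ (s : ℂ) (x y : OnePoint ℚ),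
    ∑ a ∈ Finset.range q, ((1 / q) * ∑ n ∈ Finset.range q, φ n * ex (-(a * n) / q)) *
      sgnPart s (PhiI b e) (mob q a 0 q x) (mob q a 0 q y) = PhiI b e x y

/-- (F7) the values `PhiI (x,y)` lie in a finitely generated group. MODEL: `MU3/F_F7.lean`.

USES BDD, `MU3F.Sf_FG`. `nuQ e` has finitely many values: `chiQ` has values in `{0, 1, -1}`. -/
def Sx_F7 : Prop :=
  ∀ (A B : ℤ), CQ A B → ∀ (b g : Ideal (OO A B)) (e : OO A B → ℂ), b ≠ ⊥ → g ≠ ⊥ → IsEI g e →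
    ∀ N : ℕ, N ≠ 0 → IsSym N (nuQ e) (PhiI b e) →
    ∃ S : Finset ℂ, ∀ x y, PhiI b e x y ∈ AddSubgroup.closure (S : Set ℂ)

/-! ## Lattices of finite index -/

/-- (DISX) distribution relation of `e = ee` for lattices `L ⊆ L'`, `R` representatives of `L'/L`.
MODEL: `MU3/B_DIS.lean`.

USES `MU3B.St_INT` (and `MU3B.St_SUM`). PROOF. `Σ_(q ∈ R) Σ_(w ∈ L) F (q + w) = Σ_(v ∈ L') F v` for
`F v = conj (z + v) exp (- t |z + v|²)`; integrate over `t` with INT for `L` and `L'`, `c = 1`. -/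
def Sx_DISX : Prop :=
  ∀ (L L' : PeriodPair) (R : Finset ℂ), (∀ w ∈ L.lattice, w ∈ L'.lattice) →
    (∀ q ∈ R, q ∈ L'.lattice) → (∀ q ∈ R, ∀ q' ∈ R, q - q' ∈ L.lattice → q = q') →
    (∀ v ∈ L'.lattice, ∃ q ∈ R, v - q ∈ L.lattice) →
    ∀ z, ∑ q ∈ R, ee L (z + q) = ee L' z

end

end Pool.Agent.MUXF


end

section

/-!
# MUX, block XF: module LAT1, every ideal gives a lattice
-/

set_option autoImplicit false

namespace Pool.Agent.MUXF

open _root_.MU3 _root_.Pool.Agent.MU3A _root_.Pool.Agent.MU3B _root_.Pool.Agent.MU3F _root_.Pool.Agent.MuSym OnePoint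

theorem lat1_wC_im {A B : ℤ} (h : CQ A B) : 0 < (wC A B).im := by
  have h0 : 0 < absD A B := by
    have := h.neg
    unfold absD
    linarith
  have h1 : (0 : ℝ) < Real.sqrt (absD A B) := Real.sqrt_pos.2 (by exact_mod_cast h0)
  have h2 : (wC A B).im = Real.sqrt (absD A B) / 2 := by
    simp [wC]
  rw [h2]
  positivity

/-- a ℤ-basis of an ideal in Hermite form. -/
theorem lat1_basis {A B : ℤ} (b : Ideal (OO A B)) (hb : b ≠ ⊥) (h1 : Sx_ALG) (hc : CQ A B) :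
    ∃ (a : ℤ) (v : OO A B), a ≠ 0 ∧ v.im ≠ 0 ∧ ((a : ℤ) : OO A B) ∈ b ∧ v ∈ b ∧
      ∀ x ∈ b, ∃ m n : ℤ, x = m * (a : OO A B) + n * v := by
  obtain ⟨-, hnm, -, -, -⟩ := h1 A B hc
  obtain ⟨x0, hx0, hx00⟩ := Submodule.exists_mem_ne_zero_of_ne_bot hb
  have hn0 : nm x0 ≠ 0 := fun h => hx00 ((hnm x0).2.1.1 h)
  have hnb : ((nm x0 : ℤ) : OO A B) ∈ b := by
    rw [← (hnm x0).2.2.2.2.1]
    exact b.mul_mem_right _ hx0
  -- the subgroup of integers in `b`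
  let K : Ideal ℤ := b.comap (Int.castRingHom (OO A B))
  obtain ⟨a, ha⟩ := (IsPrincipalIdealRing.principal K).principal
  have hmemK : ∀ m : ℤ, ((m : ℤ) : OO A B) ∈ b ↔ a ∣ m := by
    intro m
    have h2 : ((m : ℤ) : OO A B) ∈ b ↔ m ∈ K := by
      simp only [K, Ideal.mem_comap]
      rfl
    rw [h2, ha]
    exact Ideal.mem_span_singleton
  have ha0 : a ≠ 0 := by
    rintro rfl
    exact hn0 (zero_dvd_iff.1 ((hmemK _).1 hnb))
  -- the ideal of the imaginary parts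
  let J : Ideal ℤ :=
    { carrier := {k | ∃ x ∈ b, x.im = k}
      add_mem' := by
        rintro k l ⟨x, hx, rfl⟩ ⟨y, hy, rfl⟩
        exact ⟨x + y, b.add_mem hx hy, by simp⟩
      zero_mem' := ⟨0, b.zero_mem, by simp⟩
      smul_mem' := by
        rintro c k ⟨x, hx, rfl⟩
        exact ⟨(c : OO A B) * x, b.mul_mem_left _ hx, by simp⟩ }
  obtain ⟨d, hd⟩ := (IsPrincipalIdealRing.principal J).principal
  have hmemJ : ∀ k : ℤ, (∃ x ∈ b, x.im = k) ↔ d ∣ k := by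
    intro k
    have h2 : (∃ x ∈ b, x.im = k) ↔ k ∈ J := Iff.rfl
    rw [h2, hd]
    exact Ideal.mem_span_singleton
  obtain ⟨v, hv, hvd⟩ := (hmemJ d).2 dvd_rfl
  have hd0 : d ≠ 0 := by
    rintro rfl
    have h3 : (⟨0, 1⟩ : OO A B) * ((nm x0 : ℤ) : OO A B) ∈ b := b.mul_mem_left _ hnb
    have h4 := (hmemJ _).1 ⟨_, h3, rfl⟩
    rw [zero_dvd_iff] at h4
    apply hn0
    simpa using h4
  refine ⟨a, v, ha0, by rwa [hvd], (hmemK a).2 dvd_rfl, hv, fun x hx => ?_⟩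
  obtain ⟨n, hn⟩ := (hmemJ _).1 ⟨x, hx, rfl⟩
  have h5 : x - (n : OO A B) * v ∈ b := b.sub_mem hx (b.mul_mem_left _ hv)
  have h6 : x - (n : OO A B) * v = (((x - (n : OO A B) * v).re : ℤ) : OO A B) := by
    ext
    · simp
    · simp [hvd, hn, mul_comm]
  rw [h6, hmemK] at h5
  obtain ⟨m, hm⟩ := h5
  refine ⟨m, n, ?_⟩
  have h7 : x = (x - (n : OO A B) * v) + n * v := by ring
  rw [h6, hm] at h7
  rw [h7]
  push_cast
  ring

theorem tx_LAT1 (h1 : Sx_ALG) : Sx_LAT1 := by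
  intro A B hc b Om hb hOm
  obtain ⟨a, v, ha, hv, hab, hvb, hbas⟩ := lat1_basis b hb h1 hc
  have him := lat1_wC_im hc
  have hind : LinearIndependent ℝ ![Om * emb ((a : ℤ) : OO A B), Om * emb v] := by
    rw [LinearIndependent.pair_iff]
    intro s t hst
    rw [Complex.real_smul, Complex.real_smul] at hst
    have h1 : Om * ((s : ℂ) * emb ((a : ℤ) : OO A B) + t * emb v) = 0 := by
      rw [← hst]
      ring
    have h2 : (s : ℂ) * emb ((a : ℤ) : OO A B) + t * emb v = 0 := (mul_eq_zero.1 h1).resolve_left hOm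
    have h3 := congrArg Complex.im h2
    have hea : emb ((a : ℤ) : OO A B) = (a : ℂ) := by simp [emb]
    rw [hea] at h3 h2
    unfold emb at h3
    simp only [Complex.add_im, Complex.mul_im, Complex.ofReal_im, Complex.ofReal_re,
      Complex.intCast_im, Complex.intCast_re, Complex.add_re, Complex.mul_re, zero_mul, mul_zero,
      add_zero, zero_add, Complex.zero_im] at h3
    have h4 : t = 0 := by
      have h5 : t * ((v.im : ℝ) * (wC A B).im) = 0 := by linarith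
      have h6 : (v.im : ℝ) * (wC A B).im ≠ 0 := mul_ne_zero (by exact_mod_cast hv) him.ne'
      exact (mul_eq_zero.1 h5).resolve_right h6
    refine ⟨?_, h4⟩
    rw [h4] at h2
    simp only [Complex.ofReal_zero, zero_mul, add_zero] at h2
    have h5 : (s : ℂ) = 0 := (mul_eq_zero.1 h2).resolve_right (by exact_mod_cast ha)
    exact_mod_cast h5
  refine ⟨⟨Om * emb ((a : ℤ) : OO A B), Om * emb v, hind⟩, hb, hOm, fun z => ?_⟩
  rw [PeriodPair.mem_lattice]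
  have hlin : ∀ m n : ℤ, emb ((m : OO A B) * ((a : ℤ) : OO A B) + (n : OO A B) * v) =
      m * emb ((a : ℤ) : OO A B) + n * emb v := by
    intro m n
    obtain ⟨hmul, -, hint, -, -⟩ := h1 A B hc
    rw [(hmul _ ((n : OO A B) * v)).2.1, (hmul (m : OO A B) _).1, (hmul (n : OO A B) v).1,
      (hint m).1, (hint n).1]
  constructor
  · rintro ⟨m, n, hz⟩
    refine ⟨(m : OO A B) * ((a : ℤ) : OO A B) + (n : OO A B) * v,
      b.add_mem (b.mul_mem_left _ hab) (b.mul_mem_left _ hvb), ?_⟩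
    rw [← hz, hlin]
    ring
  · rintro ⟨x, hx, hz⟩
    obtain ⟨m, n, hmn⟩ := hbas x hx
    refine ⟨m, n, ?_⟩
    rw [hz, hmn, hlin]
    ring

end Pool.Agent.MUXF


end

section

/-!
# MUX, block XF, module ALG: algebra of `O`
-/

set_option autoImplicit false

namespace Pool.Agent.MUXF

open _root_.MU3 _root_.Pool.Agent.MU3A _root_.Pool.Agent.MU3B _root_.Pool.Agent.MU3F
open scoped ComplexConjugate

namespace AlgX

variable {A B : ℤ}

theorem absD_pos (h : CQ A B) : 0 < absD A B := by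
  have := h.neg
  unfold absD
  omega

theorem wC_sq (h : CQ A B) : wC A B * wC A B = A + B * wC A B := by
  have h1 : (0 : ℝ) ≤ (absD A B : ℝ) := by exact_mod_cast (absD_pos h).le
  have h2 : ((Real.sqrt (absD A B) : ℝ) : ℂ) ^ 2 = (absD A B : ℂ) := by
    rw [← Complex.ofReal_pow, Real.sq_sqrt h1]
    norm_num
  have h3 : Complex.I ^ 2 = -1 := Complex.I_sq
  have h4 : (absD A B : ℂ) = -((B : ℂ) ^ 2 + 4 * A) := by simp [absD]
  unfold wC
  linear_combination (Complex.I ^ 2 / 4) * h2 + ((absD A B : ℂ) / 4) * h3 - (1 / 4) * h4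

/-- the embedding as a ring homomorphism -/
noncomputable def eHom (h : CQ A B) : OO A B →+* ℂ :=
  (QuadraticAlgebra.lift (R := ℤ) (a := A) (b := B) (A := ℂ)
    ⟨wC A B, by simpa [zsmul_eq_mul] using wC_sq h⟩).toRingHom

theorem eHom_apply (h : CQ A B) (x : OO A B) : eHom h x = emb x := by
  simp [eHom, emb, QuadraticAlgebra.lift, zsmul_eq_mul]

theorem _root_.Pool.Agent.MUXF.AlgX.emb_mul (h : CQ A B) (x y : OO A B) : emb (x * y) = emb x * emb y := by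
  simpa only [eHom_apply] using map_mul (eHom h) x y

theorem _root_.Pool.Agent.MUXF.AlgX.emb_add (h : CQ A B) (x y : OO A B) : emb (x + y) = emb x + emb y := by
  simpa only [eHom_apply] using map_add (eHom h) x y

theorem emb_zero (h : CQ A B) : emb (0 : OO A B) = 0 := by
  simpa only [eHom_apply] using map_zero (eHom h)

theorem _root_.Pool.Agent.MUXF.AlgX.emb_intCast (h : CQ A B) (n : ℤ) : emb (n : OO A B) = n := by
  simpa only [eHom_apply] using map_intCast (eHom h) n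

theorem wC_im (A B : ℤ) : (wC A B).im = Real.sqrt (absD A B) / 2 := by
  simp [wC, Complex.add_im, Complex.mul_im]

theorem wC_im_pos (h : CQ A B) : 0 < (wC A B).im := by
  have h1 : (0 : ℝ) < Real.sqrt (absD A B) := Real.sqrt_pos.2 (by exact_mod_cast absD_pos h)
  rw [wC_im]; positivity

theorem emb_inj (h : CQ A B) {x y : OO A B} (hxy : emb x = emb y) : x = y := by
  have h1 := congrArg Complex.im hxy
  have h2 := congrArg Complex.re hxy
  simp only [emb, Complex.add_im, Complex.mul_im, Complex.intCast_im, Complex.intCast_re,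
    zero_mul, add_zero, zero_add, Complex.add_re, Complex.mul_re, sub_zero] at h1 h2
  have h3 : (x.im : ℝ) = y.im := mul_right_cancel₀ (wC_im_pos h).ne' h1
  rw [h3] at h2
  have h4 : (x.re : ℝ) = y.re := add_right_cancel h2
  exact QuadraticAlgebra.ext (by exact_mod_cast h4) (by exact_mod_cast h3)

theorem eHom_injective (h : CQ A B) : Function.Injective (eHom h) := fun x y hxy =>
  emb_inj h (by simpa only [eHom_apply] using hxy)

theorem emb_eq_zero (h : CQ A B) (x : OO A B) : emb x = 0 ↔ x = 0 :=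
  ⟨fun h0 => emb_inj h (h0.trans (emb_zero h).symm), fun h0 => by rw [h0, emb_zero h]⟩

theorem isDomain (h : CQ A B) : IsDomain (OO A B) := (eHom_injective h).isDomain (eHom h)

theorem nm_eq (x : OO A B) : nm x = QuadraticAlgebra.norm x := by
  rw [QuadraticAlgebra.norm_def]
  unfold nm
  ring

theorem nm_mul (x y : OO A B) : nm (x * y) = nm x * nm y := by
  rw [nm_eq, nm_eq, nm_eq, map_mul]

theorem nm_star (x : OO A B) : nm (star x) = nm x := by
  rw [nm_eq, nm_eq, QuadraticAlgebra.norm_star]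

theorem nm_intCast (n : ℤ) : nm (n : OO A B) = n ^ 2 := by
  unfold nm
  simp

theorem mul_star' (x : OO A B) : x * star x = ((nm x : ℤ) : OO A B) := by
  ext
  · simp only [nm, QuadraticAlgebra.re_mul, QuadraticAlgebra.re_star, QuadraticAlgebra.im_star,
      QuadraticAlgebra.re_intCast, Int.cast_id]
    ring
  · simp only [QuadraticAlgebra.im_mul, QuadraticAlgebra.re_star, QuadraticAlgebra.im_star,
      QuadraticAlgebra.im_intCast]
    ring

theorem conj_w (A B : ℤ) : conj (wC A B) = B - wC A B := by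
  unfold wC
  simp only [map_div₀, map_add, map_mul, Complex.conj_I, Complex.conj_ofReal, map_intCast,
    map_ofNat]
  ring

theorem emb_star (x : OO A B) : emb (star x) = conj (emb x) := by
  unfold emb
  simp only [map_add, map_mul, conj_w, map_intCast, QuadraticAlgebra.re_star,
    QuadraticAlgebra.im_star]
  push_cast
  ring

theorem norm_sq (h : CQ A B) (x : OO A B) : ((nm x : ℤ) : ℝ) = ‖emb x‖ ^ 2 := by
  have h1 : emb x * conj (emb x) = ((nm x : ℤ) : ℂ) := by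
    rw [← emb_star, ← _root_.Pool.Agent.MUXF.AlgX.emb_mul h, mul_star', _root_.Pool.Agent.MUXF.AlgX.emb_intCast h]
  rw [Complex.mul_conj, Complex.normSq_eq_norm_sq] at h1
  exact_mod_cast h1.symm

theorem nm_nonneg (h : CQ A B) (x : OO A B) : 0 ≤ nm x := by
  have h1 := norm_sq h x
  have h2 : (0 : ℝ) ≤ ((nm x : ℤ) : ℝ) := by rw [h1]; positivity
  exact_mod_cast h2

theorem nm_eq_zero (h : CQ A B) (x : OO A B) : nm x = 0 ↔ x = 0 := by
  have h1 := norm_sq h x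
  constructor
  · intro h0
    rw [h0] at h1
    have h2 : ‖emb x‖ = 0 := by
      have h3 : ‖emb x‖ ^ 2 = 0 := by rw [← h1]; norm_num
      exact pow_eq_zero_iff (two_ne_zero) |>.1 h3
    exact (emb_eq_zero h x).1 (norm_eq_zero.1 h2)
  · intro h0
    rw [h0]
    simp [nm]

theorem fin_quot (h : CQ A B) (b : Ideal (OO A B)) (hb : b ≠ ⊥) : Finite (OO A B ⧸ b) := by
  have := isDomain h
  exact Ideal.finiteQuotientOfFreeOfNeBot _ hb

end AlgX

open _root_.Pool.Agent.MUXF.AlgX in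
/-- algebra of `O` -/
theorem tx_ALG : Sx_ALG := by
  intro A B h
  exact ⟨fun x y => ⟨_root_.Pool.Agent.MUXF.AlgX.emb_mul h x y, _root_.Pool.Agent.MUXF.AlgX.emb_add h x y, nm_mul x y⟩,
    fun x => ⟨emb_eq_zero h x, nm_eq_zero h x, nm_nonneg h x, norm_sq h x, mul_star' x, emb_star x,
      nm_star x⟩,
    fun n => ⟨_root_.Pool.Agent.MUXF.AlgX.emb_intCast h n, nm_intCast n⟩, fun b hb => fin_quot h b hb, isDomain h⟩

end Pool.Agent.MUXF


end

section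

/-!
# MUX, section 9 of `PAPER_X.md`: rationality of the modular symbols of theta series of ideals (helper41)

Every statement is a `def Sy_X : Prop`. A module proves `theorem ty_X (h : ..) .. : Sy_X` in the file
`Pool/Agent/MUX/Y_X.lean`, namespace `Pool.Agent.MUXY`, where the hypotheses are the statements named under USES
(`Sy_..` of this file, `Sx_..` of `StXF.lean`, `Su_..` of `StU.lean`; fewer is fine). The statements of block B of
MU3 are theorems in `Pool/Agent/MU3/BAll.lean` (`Pool.Agent.MU3B.b_TRA`, `b_HAL`, `b_NEQ`, `b_PER`, `b_ZER`, `b_DSC`, ..),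
scaling of a lattice is `Pool.Agent.MU3A.ta_SCP` (`A_SCP.lean`).

The definitions of `TDefs.lean` (namespace `MUXF`: `CQ`, `IsLI`, `IsEI`, `nI`, `cjI`, `sp`, `PhiI`, ..) are the same as those
of `DefsX.lean` (namespace `MUX`); `nI`, `cjI`, `sp`, `PhiI` are equal by `rfl`, the structures are converted by `cqF`, `liF`,
`eiF`. The first part uses those of `MUXF`, the second part (from `SAM` on) those of `MUX`.

`b`, `c` ideals, `L = om * emb b`, `L' = om' * emb c`, `L' = L^σ = mu a⁻¹ L`. Facts on `emb`: `Sx_ALG` (`emb` is multiplicative and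
additive, `emb x = 0` only for `x = 0`, so `emb` is injective).
-/

set_option autoImplicit false

namespace Pool.Agent.MUXY

open _root_.MU3 _root_.Pool.Agent.MU3A _root_.Pool.Agent.MU3B _root_.Pool.Agent.MUXU OnePoint
open _root_.Pool.Agent.MU3F (ex)
open _root_.Pool.Agent.MUXF (Sx_ALG Sx_IDL Sx_NIM Sx_QB Sx_SMB Sx_F4 qb sumB)

noncomputable section

/-! ## Bridges between the two copies of the definitions -/

theorem cqF {A B : ℤ} (h : MUX.CQ A B) : MUXF.CQ A B := ⟨h.hB, h.neg, h.fund1, h.fund0⟩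

theorem liF {A B : ℤ} {b : Ideal (OO A B)} {L : PeriodPair} {om : ℂ} (h : MUX.IsLI b L om) :
    MUXF.IsLI b L om := ⟨h.b_ne, h.om_ne, h.mem⟩

theorem eiF {A B : ℤ} {g : Ideal (OO A B)} {e : OO A B → ℂ} (h : MUX.IsEI g e) :
    MUXF.IsEI g e := ⟨h.one, h.mul, h.per, h.supp, h.neg⟩

theorem phiF {A B : ℤ} (b : Ideal (OO A B)) (e : OO A B → ℂ) (x y : OnePoint ℚ) :
    MUX.PhiI b e x y = MUXF.PhiI b e x y := rfl

/-- `L' = L^σ = μ a⁻¹ L`, `a` prime to `m`, and `σ` maps the point `z` of level `m` of `ℂ / L` to the point `μ z` of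
`ℂ / L'` -/
structure ActN {A B : ℤ} (σ : ℂ ≃+* ℂ) (m : ℕ) (a : Ideal (OO A B)) (L L' : PeriodPair)
    (mu : ℂ) : Prop where
  cj : IsCj σ L L'
  cop : IsCoprime a (MUXF.sp ((m : ℕ) : OO A B))
  ne : mu ≠ 0
  isq : ∀ z : ℂ, mu * z ∈ L'.lattice ↔ ∀ x ∈ a, emb x * z ∈ L.lattice
  act : ∀ z, (m : ℂ) * z ∈ L.lattice → z ∉ L.lattice → mu * z ∉ L'.lattice ∧
    L'.weierstrassP (mu * z) = σ (L.weierstrassP z) ∧
    L'.derivWeierstrassP (mu * z) = σ (L.derivWeierstrassP z)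

/-- the cusp `x` is `∞` or a rational number with denominator dividing `m` -/
def Dn (m : ℕ) (x : OnePoint ℚ) : Prop := ∀ r : ℚ, x = (r : OnePoint ℚ) → r.den ∣ m

/-- the map `f` on `b`, with values in `c`, is multiplication by `mu om / om'` -/
structure IsF {A B : ℤ} (b c : Ideal (OO A B)) (om om' mu : ℂ) (f : OO A B → OO A B) : Prop where
  mem : ∀ x ∈ b, f x ∈ c
  eq : ∀ x ∈ b, om' * emb (f x) = mu * om * emb x
  add : ∀ x ∈ b, ∀ y ∈ b, f (x + y) = f x + f y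
  sub : ∀ x ∈ b, ∀ y ∈ b, f (x - y) = f x - f y
  smul : ∀ x ∈ b, ∀ r : OO A B, f (r * x) = r * f x
  nb : ∀ x ∈ b, ((MUXF.nI b : ℕ) : OO A B) * f x = f ((MUXF.nI b : ℕ) : OO A B) * x

/-! ## The function `ee` and conjugation -/

/-- (EE) conjugation of the values of `ee` at torsion points: `σ (e(z; L)) = e(z'; L^σ)`, `z'` the conjugate point of `z`.

USES Su_PHI, Su_TSN, Su_EQP (and `b_HAL`, `b_TRA` of `BAll.lean`). MODEL: `MU3/G_F6E.lean`. PROOF. `b := 1 + 2 n`, an odd integer (`b ≠ 0`), `(b - 1) z = 2 n z ∈ L`.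
`H` a half system for `b` on `L` (HAL with `a = b`: `b w ∈ L`; if `b z ∈ L` and `2 z ∈ L` then `z = b z - n (2 z) ∈ L`). `Φ` from (PHI). `H' := H.image Φ` is a half system for `b`
on `L'` and `Φ` is injective on `H`: (mem, ne) by (TSN) with the integers `b`, `2`. (inj) `Φ q - Φ q' ∈ L'` gives `Φ (q - q') ∈ L'` (`add` for `q - q'` and `q'`), `q - q' ∈ L` (`mem`),
`q = q'`. (neg) in the same way. (surj) let `b u ∈ L'`, `u ∉ L'`; `Φ u₀ - u ∈ L'` (`surj`); `b Φ u₀ ∈ L'`, so `b u₀ ∈ L`, `u₀ ∉ L`, so `u₀ - q` or `u₀ + q` is in `L` for some `q ∈ H`,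
and `u - Φ q` resp. `u + Φ q` is in `L'` (`add`, `mem`). By (EQP) `z' - Φ z ∈ L'`, so `n z' ∈ L'` (TSN for `n z ∈ L`), `(b - 1) z' ∈ L'`. (TRA) for `L', H', z'` and for `L, H, z`
(`Finset.sum_image`): `(b - b²) e(z'; L') = Σ_(q ∈ H) ℘'(z')/(℘(z') - ℘(Φ q)) = Σ_(q ∈ H) σ(℘' z)/(σ(℘ z) - σ(℘ q)) = σ((b - b²) e(z; L)) = (b - b²) σ(e(z; L))`, and `b - b² = -2 n b ≠ 0`. -/
def Sy_EE : Prop :=
  ∀ (σ : ℂ ≃+* ℂ) (L L' : PeriodPair), IsCj σ L L' → ∀ (n : ℤ) (z z' : ℂ), n ≠ 0 →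
    (n : ℂ) * z ∈ L.lattice → z ∉ L.lattice → z' ∉ L'.lattice →
    L'.weierstrassP z' = σ (L.weierstrassP z) →
    L'.derivWeierstrassP z' = σ (L.derivWeierstrassP z) → ee L' z' = σ (ee L z)

/-! ## The map `x ↦ (mu om / om') x` from `b` to `c` -/

/-- (MAP) the map `f`.

USES ALG, NIM. PROOF. For `x ∈ b`, `y ∈ a`: `emb y (om emb x) = om emb (y x) ∈ L`, so by `isq` `mu om emb x ∈ L'`, i.e. `mu om emb x = om' emb y'` with `y' ∈ c`: `f x := y'` (choose; `f x := 0`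
for `x ∉ b`). `add`, `sub`, `smul`: apply `emb` (injective) and multiply by `om' ≠ 0`. `nb`: `N b ∈ b` (NIM) and
`om' emb (N b f x) = N b mu om emb x = (om' emb (f (N b))) emb x`. -/
def Sy_MAP : Prop :=
  ∀ A B : ℤ, MUXF.CQ A B → ∀ (σ : ℂ ≃+* ℂ) (m : ℕ) (a b c : Ideal (OO A B)) (L L' : PeriodPair)
    (om om' mu : ℂ), MUXF.IsLI b L om → MUXF.IsLI c L' om' → ActN σ m a L L' mu →
    ∃ f : OO A B → OO A B, IsF b c om om' mu f

/-- (IDF) the image of `f` is the ideal `a c`.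

USES ALG, IDL, NIM. PROOF. (0) `a ≠ ⊥`: otherwise by `isq` `mu z ∈ L'` for all `z`, so every complex number is `om' emb y`, `y ∈ c`; but `om'/2` is not (`2 y = 1` in `O` is impossible: real parts
of the coordinates). (1) `f(b) := {f x : x ∈ b}`. `a c ⊆ f(b)`: let `α ∈ a`, `y ∈ c`; `z := om' emb y/mu`, `mu z ∈ L'`, so by `isq` `emb α z ∈ L`: `emb α om' emb y/mu = om emb x`, `x ∈ b`, so
`om' emb (α y) = mu om emb x = om' emb (f x)`, `α y = f x`. `f(b)` is closed under addition (induction over `Submodule.mul_induction_on`). (2) `f(b) ⊆ a c`: let `β = f x`. Let `α' ∈ cjI a` and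
`y := α' β/N(a)`: precisely, `z := om emb (α' x)/N(a)`; for `α ∈ a`: `α α' ∈ a cjI a = (N a)` (IDL), `α α' = N(a) r`, `emb α z = om emb (r x) ∈ L`; so `mu z ∈ L'` by `isq`,
`mu z = om' emb y`, `y ∈ c`, and `N(a) y = α' β` (`om' emb (N(a) y) = N(a) mu z = mu om emb x emb α' = om' emb (β α')`). `N(a) ∈ a cjI a`, so it is a finite sum of products `α α'` with `α ∈ a`,
`α' ∈ cjI a`: for every element `s` of `a cjI a` there is `t ∈ a c` with `N(a) t = s β` (induction: `t = α y` for `s = α α'`); for `s = N(a)`: `t = β` (`O` is a domain). (3) `sp u * b = sp (N b) * (a * c)`,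
`u = f (N b)`: `u x = N b f x` (`nb`) and (1), (2): both sides consist of the elements `u x`, `x ∈ b`. (4) Norms (NIM, `Ideal.span_singleton`): `nm u N(b) = N(b)² N(a) N(c)`, `nm u ≥ 0`. -/
def Sy_IDF : Prop :=
  ∀ A B : ℤ, MUXF.CQ A B → ∀ (σ : ℂ ≃+* ℂ) (m : ℕ) (a b c : Ideal (OO A B)) (L L' : PeriodPair)
    (om om' mu : ℂ) (f : OO A B → OO A B), MUXF.IsLI b L om → MUXF.IsLI c L' om' →
    ActN σ m a L L' mu → IsF b c om om' mu f →
    a ≠ ⊥ ∧ (∀ y : OO A B, y ∈ a * c ↔ ∃ x ∈ b, f x = y) ∧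
    MUXF.sp (f ((MUXF.nI b : ℕ) : OO A B)) * b =
      MUXF.sp ((MUXF.nI b : ℕ) : OO A B) * (a * c) ∧
    nm (f ((MUXF.nI b : ℕ) : OO A B)) = MUXF.nI b * MUXF.nI a * MUXF.nI c

/-- (QBF) `N(f x)/N(c) = N(a) N(x)/N(b)`.

USES ALG, IDL, NIM, QB, IDF. PROOF. `N b f x = u x`, `u = f (N b)`: `N(b)² nm (f x) = nm u nm x = N(b) N(a) N(c) nm x` (IDF), `nm x = N(b) qb b x`, `nm (f x) = N(c) qb c (f x)` (QB): cancel
`N(b)²`, `N(c)` (`≠ 0`, IDL). -/
def Sy_QBF : Prop :=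
  ∀ A B : ℤ, MUXF.CQ A B → ∀ (σ : ℂ ≃+* ℂ) (m : ℕ) (a b c : Ideal (OO A B)) (L L' : PeriodPair)
    (om om' mu : ℂ) (f : OO A B → OO A B), MUXF.IsLI b L om → MUXF.IsLI c L' om' →
    ActN σ m a L L' mu → IsF b c om om' mu f →
    ∀ x ∈ b, qb c (f x) = MUXF.nI a * qb b x

/-- (BIJ) `f` induces a bijection from `b / m b` onto `c / m c`.

USES ALG, IDF. PROOF. `1 = α + m β` with `α ∈ a`, `β ∈ O` (`cop`). (i) Let `f x - f y = m t`, `t ∈ c`, so `f (x - y) = m t`. `α t ∈ a c`, so `α t = f s`, `s ∈ b` (IDF), and `f (α (x - y)) = α m t = f (m s)`,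
so `α (x - y) = m s` (`f` is injective on `b`: `om' emb (f x) = mu om emb x`), and `x - y = m (s + β (x - y))`. (ii) `y = α y + m (β y)`, `α y ∈ a c`, `α y = f x`. -/
def Sy_BIJ : Prop :=
  ∀ A B : ℤ, MUXF.CQ A B → ∀ (σ : ℂ ≃+* ℂ) (m : ℕ) (a b c : Ideal (OO A B)) (L L' : PeriodPair)
    (om om' mu : ℂ) (f : OO A B → OO A B), MUXF.IsLI b L om → MUXF.IsLI c L' om' →
    ActN σ m a L L' mu → IsF b c om om' mu f →
    (∀ x ∈ b, ∀ y ∈ b, (∃ t ∈ c, f x - f y = m * t) → ∃ s ∈ b, x - y = m * s) ∧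
    ∀ y ∈ c, ∃ x ∈ b, ∃ t ∈ c, y = f x + m * t

/-- (SUM) change of variables in `sumB`.

USES SMB. MODEL for the reindexing: `MU3/F_SM.lean`. PROOF. `φ : b →+ c`, `x ↦ f x` (`AddMonoidHom.mk'`), maps `m b` into `m c` (`f (m s) = m f s` by additivity, `map_nsmul`), so
(`QuotientAddGroup.map`) it induces `ψ : b/m b → c/m c`, which is injective and surjective by the last hypotheses (`nsmulAddMonoidHom m s = m • s`). For `q = mk x`, `x = Quotient.out q`: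
`ψ q = mk (f x)`, and `F (Quotient.out (ψ q)) = F (f x)` (SMB, fifth statement). `finsum_eq_of_bijective`. -/
def Sy_SUM : Prop :=
  ∀ A B : ℤ, MUXF.CQ A B → ∀ (b c : Ideal (OO A B)) (m : ℕ) (f : OO A B → OO A B), b ≠ ⊥ →
    c ≠ ⊥ → m ≠ 0 → (∀ x ∈ b, f x ∈ c) → (∀ x ∈ b, ∀ y ∈ b, f (x + y) = f x + f y) →
    (∀ x ∈ b, ∀ y ∈ b, (∃ t ∈ c, f x - f y = m * t) → ∃ s ∈ b, x - y = m * s) →
    (∀ y ∈ c, ∃ x ∈ b, ∃ t ∈ c, y = f x + m * t) →
    ∀ F : OO A B → ℂ, (∀ x ∈ c, ∀ y ∈ c, F (x + m * y) = F x) →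
      sumB c m F = sumB b m (fun x => F (f x))

/-- (UV) the number `u = f (N b)` is prime to the conductor.

USES ALG, IDL, NIM. PROOF. `b cjI b = sp (N b)`, `c cjI c = sp (N c)` (IDL), so `b`, `cjI b`, `c` are prime to `g` (`IsCoprime` of a product: `IsCoprime.of_mul_left_left`, ..); `a` is prime to `sp m ≤ g`
(`Ideal.isCoprime_iff_sup_eq`). `sp u * b = b * cjI b * a * c`, so `sp u = cjI b * a * c` (cancel `b`: NIM, last statement, both directions), a product of ideals prime to `g`. -/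
def Sy_UV : Prop :=
  ∀ A B : ℤ, MUXF.CQ A B → ∀ (m : ℕ) (a b c g : Ideal (OO A B)) (u : OO A B), b ≠ ⊥ → c ≠ ⊥ →
    ((m : ℕ) : OO A B) ∈ g → IsCoprime a (MUXF.sp ((m : ℕ) : OO A B)) →
    IsCoprime (MUXF.sp ((MUXF.nI b : ℕ) : OO A B)) g →
    IsCoprime (MUXF.sp ((MUXF.nI c : ℕ) : OO A B)) g →
    MUXF.sp u * b = MUXF.sp ((MUXF.nI b : ℕ) : OO A B) * (a * c) → IsCoprime (MUXF.sp u) g

/-! ## Conjugation of the symbol -/

/-- (TER) conjugation of a term of F4.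

USES ALG, IDL, NIM, QB, EE, QBF. PROOF. `e' x = σ (e x)`, `u = f (N b)`. `e' u e' x = e' (u x) = e' (N b f x) = e' (N b) e' (f x)` (`nb`, multiplicativity of `e`). If `e x = 0`: both sides are `0` (`e' (N b) e' (f x) = e' u e' x = 0`).
Let `e x ≠ 0`: `x` is prime to `g`. `z := om emb x/m`: `m z ∈ L`; `z ∉ L`: otherwise `om emb x/m = om emb s`, `s ∈ b`, `x = m s ∈ g`, so `sp x ≤ g`, and `sp x`, `g` coprime gives `g = ⊤`. So by `act` and (EE) (with `n = m`)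
`σ (ee L z) = ee L' (mu z)`, and `mu z = om' emb (f x)/m`. `ζ := ex (β qb b x/M)`, `ζ^m = 1` (`M ∣ m`; `ex` is `exp (2 π i .)`), so `σ ζ = ζ ^ N(a) = ex (β N(a) qb b x/M) = ex (β qb c (f x)/M)` (QBF). -/
def Sy_TER : Prop :=
  ∀ A B : ℤ, MUXF.CQ A B → ∀ (σ : ℂ ≃+* ℂ) (m : ℕ) (a b c : Ideal (OO A B)) (L L' : PeriodPair)
    (om om' mu : ℂ) (f : OO A B → OO A B), MUXF.IsLI b L om → MUXF.IsLI c L' om' →
    ActN σ m a L L' mu → IsF b c om om' mu f → (∀ z : ℂ, z ^ m = 1 → σ z = z ^ MUXF.nI a) →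
    ∀ (g : Ideal (OO A B)) (e : OO A B → ℂ), MUXF.IsEI g e → g ≠ ⊤ → m ≠ 0 →
    ((m : ℕ) : OO A B) ∈ g → ∀ M : ℕ, M ≠ 0 → M ∣ m → ∀ (β : ℤ), ∀ x ∈ b,
      σ (e (f ((MUXF.nI b : ℕ) : OO A B))) *
          σ (e x * ex (β * qb b x / M) * ee L (om * emb x / m)) =
        σ (e ((MUXF.nI b : ℕ) : OO A B)) *
          (σ (e (f x)) * ex (β * qb c (f x) / M) * ee L' (om' * emb (f x) / m))

/-- (PR4) the terms of F4 are periodic.

USES ALG, QB. PROOF. `e (x + m y) = e x` (`m y ∈ g`); `qb b (x + m y) = qb b x + m k` (QB) and `M ∣ m`, `ex (r + j) = ex r` for integers `j`; `om emb (x + m y)/m = om emb x/m + om emb y` and `b_PER`. -/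
def Sy_PR4 : Prop :=
  ∀ A B : ℤ, MUXF.CQ A B → ∀ (b : Ideal (OO A B)) (L : PeriodPair) (om : ℂ), MUXF.IsLI b L om →
    ∀ (g : Ideal (OO A B)) (e : OO A B → ℂ), MUXF.IsEI g e → ∀ (m M : ℕ), m ≠ 0 →
    ((m : ℕ) : OO A B) ∈ g → M ≠ 0 → M ∣ m → ∀ β : ℤ, ∀ x ∈ b, ∀ y ∈ b,
      e (x + m * y) * ex (β * qb b (x + m * y) / M) *
          ee L (om * emb (x + (m : OO A B) * y) / m) =
        e x * ex (β * qb b x / M) * ee L (om * emb x / m)

/-- (EIC) the conjugate of a character is a character. PROOF. Direct (`σ` is injective, `σ 1 = 1`, `σ (-1) = -1`). -/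
def Sy_EIC : Prop :=
  ∀ (A B : ℤ) (σ : ℂ ≃+* ℂ) (g : Ideal (OO A B)) (e : OO A B → ℂ), MUXF.IsEI g e →
    MUXF.IsEI g (fun x => σ (e x))

/-- (RA1) conjugation of the values `PhiI b e ∞ (β / M)`.

USES ALG, IDL, SMB, F4, BIJ, SUM, TER, PR4, EIC. MODEL: `MU3/G_F6C.lean` (`star`). PROOF. `PhiI b e ∞ r = -IvI b e r`. F4 for `b, L, om, e`: `PhiI b e ∞ (β/M)/om = N(b)/(2m) sumB b m T`, `T` the terms. `σ` of it is
`N(b)/(2m) sumB b m (σ ∘ T)`: write `sumB` as a finite sum (`finsum_eq_sum_of_fintype`, the quotient is finite by SMB; `map_sum`). Multiply by `σ (e u)`: by (TER) and the rules SMB (second and last)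
`σ (e u) σ(PhiI b e ∞ (β/M)/om) = N(b)/(2m) σ (e (N b)) sumB b m (T' ∘ f)`, `T'` the terms for `c, L', om', σ ∘ e`; `sumB b m (T' ∘ f) = sumB c m T'` by (SUM), (BIJ), (PR4), and F4 for `c, L', om', σ ∘ e` (EIC):
`PhiI c (σ ∘ e) ∞ (β/M)/om' = N(c)/(2m) sumB c m T'`. -/
def Sy_RA1 : Prop :=
  ∀ A B : ℤ, MUXF.CQ A B → ∀ (σ : ℂ ≃+* ℂ) (m : ℕ) (a b c : Ideal (OO A B)) (L L' : PeriodPair)
    (om om' mu : ℂ) (f : OO A B → OO A B), MUXF.IsLI b L om → MUXF.IsLI c L' om' →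
    ActN σ m a L L' mu → IsF b c om om' mu f → (∀ z : ℂ, z ^ m = 1 → σ z = z ^ MUXF.nI a) →
    ∀ (g : Ideal (OO A B)) (e : OO A B → ℂ), MUXF.IsEI g e → g ≠ ⊤ → m ≠ 0 →
    ((m : ℕ) : OO A B) ∈ g → ∀ M : ℕ, M ≠ 0 → M ∣ m → ∀ β : ℤ,
      MUXF.nI c * σ (e (f ((MUXF.nI b : ℕ) : OO A B))) *
          σ (MUXF.PhiI b e ∞ (((β / M : ℚ) : ℚ) : OnePoint ℚ) / om) =
        MUXF.nI b * σ (e ((MUXF.nI b : ℕ) : OO A B)) *
          (MUXF.PhiI c (fun x => σ (e x)) ∞ (((β / M : ℚ) : ℚ) : OnePoint ℚ) / om')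

/-- (RAT) conjugation of the symbol at all cusps with denominators dividing `m`: one constant `C ≠ 0`.

USES ALG, IDL, NIM, MAP, IDF, UV, RA1. PROOF. `f` (MAP), `u = f (N b)`, `C := N(b) σ(e (N b))/(N(c) σ(e u))`; `e u ≠ 0`, `e (N b) ≠ 0` by `supp`, (UV), (IDF) and the hypothesis. `PhiI b e x y = PhiI b e ∞ y - PhiI b e ∞ x`
(unfold `PhiI`, `IcI`), `PhiI .. ∞ ∞ = 0`, and (RA1) with `M = r.den`, `β = r.num` for `x = r` (`Rat.num_div_den`). The last statement: the value of `C`, with `ζ₁ = e (N b)`, `ζ₂ = e u`. -/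
def Sy_RAT : Prop :=
  ∀ A B : ℤ, MUXF.CQ A B → ∀ (σ : ℂ ≃+* ℂ) (m : ℕ) (a b c : Ideal (OO A B)) (L L' : PeriodPair)
    (om om' mu : ℂ), MUXF.IsLI b L om → MUXF.IsLI c L' om' → ActN σ m a L L' mu →
    (∀ z : ℂ, z ^ m = 1 → σ z = z ^ MUXF.nI a) →
    ∀ (g : Ideal (OO A B)) (e : OO A B → ℂ), MUXF.IsEI g e → g ≠ ⊤ → m ≠ 0 →
    ((m : ℕ) : OO A B) ∈ g → IsCoprime (MUXF.sp ((MUXF.nI b : ℕ) : OO A B)) g →
    IsCoprime (MUXF.sp ((MUXF.nI c : ℕ) : OO A B)) g →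
    ∃ C : ℂ, C ≠ 0 ∧ (∃ x₁ x₂ : OO A B, e x₁ ≠ 0 ∧ e x₂ ≠ 0 ∧
      C = MUXF.nI b * σ (e x₁) / (MUXF.nI c * σ (e x₂))) ∧
    ∀ x y : OnePoint ℚ, Dn m x → Dn m y →
      σ (MUXF.PhiI b e x y / om) = C * (MUXF.PhiI c (fun x => σ (e x)) x y / om')

/-! ## Second part: the lattices `R.L i` -/

/-- (SAM) normalised lattices of the same class are equal.

USES Sx_ALG (by `cqF`). PROOF. `s := om emb y/(emb x om')`: `z ∈ L ↔ z = om emb t, t ∈ b`. `sp x * b = sp y * b'`: for `t ∈ b` there is `t' ∈ b'` with `x t = y t'` and conversely. So `z ∈ L'` iff `s z ∈ L`: for `z = om' emb t'`, `s z = om emb y emb t'/emb x = om emb t`.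
By `Pool.Agent.MU3A.ta_SCP` (with `a = s`, from `L'` to `L`): `g₂(L) = g₂(L')/s⁴`, `g₃(L) = g₃(L')/s⁶`. `g₂ = -18 g₃` for both: `g₂(L') (s² - 1) = 0`; `g₂(L') ≠ 0` (otherwise `g₃(L') = 0`, against `b_DSC`: `g₂³ ≠ 27 g₃²`). So `s = ±1` and the lattices are equal. -/
def Sy_SAM : Prop :=
  ∀ A B : ℤ, MUX.CQ A B → ∀ (b b' : Ideal (OO A B)) (L L' : PeriodPair) (om om' : ℂ)
    (x y : OO A B), MUX.IsNL b L om → MUX.IsNL b' L' om' → x ≠ 0 → y ≠ 0 →
    MUX.sp x * b = MUX.sp y * b' → ∀ z : ℂ, z ∈ L.lattice ↔ z ∈ L'.lattice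

/-- (BRI) from `ActI` to `ActN`, and change of the target by an equal lattice.

USES Sx_ALG (by `cqF`). PROOF. `L'` and `L''` have the same lattice, so (`ta_SCP` with `a = 1`) the same `℘`, `℘'`, `g₂`, `g₃`. `cj`: `kap L' = σ (kap L)` gives `g₂(L') = σ (g₂ L)` (`σ` fixes rational numbers), and
`g₃ = -g₂/18` for both. `isq` of `ActI` is an `IsQ`. `act`: `m z ∈ L` gives `Tor (sp m) L z` (`emb (m t) z = emb t (m z)`, `om emb (t s)`, an element of `sp m` is `m t`); `PM` with `z ∉ L`: second case; `xn = ℘ - 1/12`, `yy = ℘'/2`. -/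
def Sy_BRI : Prop :=
  ∀ A B : ℤ, MUX.CQ A B → ∀ (σ : ℂ ≃+* ℂ) (m : ℕ) (a b b' : Ideal (OO A B))
    (L L' L'' : PeriodPair) (om om' mu : ℂ), MUX.IsNL b L om → MUX.IsNL b' L' om' →
    MUX.ActI σ (MUX.idl m) a L L' mu → (∀ z : ℂ, z ∈ L'.lattice ↔ z ∈ L''.lattice) →
    ActN σ m a L L'' mu

/-- (EXI) existence of the action for the lattices `R.L i`.

USES SAM, BRI. PROOF. `σ` fixes `wC`. `TorX.act` for `idl m` (`≠ ⊥`: `m ≠ 0`) gives `a`, and for `L = R.L i` `b', L', om', mu` with `IsNL b' L' om'` and `ActI`. `TorX.zeta` with `M = m`, `m = idl m` gives the action on roots of unity.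
`R.surj b'`: `j, x, y` with `sp x * b' = sp y * R.b j`: (SAM) `L'.lattice = (R.L j).lattice`, (BRI). -/
def Sy_EXI : Prop :=
  ∀ A B : ℤ, MUX.CQ A B → MUX.TorX A B → ∀ (n : ℕ) (ι : Type) (R : MUX.Reps A B n ι)
    (σ : ℂ ≃+* ℂ), MUX.FixK A B σ → ∀ (m : ℕ), m ≠ 0 → ∀ i : ι, ∃ (j : ι) (a : Ideal (OO A B))
    (mu : ℂ), ActN σ m a (R.L i) (R.L j) mu ∧ ∀ z : ℂ, z ^ m = 1 → σ z = z ^ MUX.nI a

/-- (UNJ) the lattice `R.L j` is determined by its invariants.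

USES Sx_ALG, Sx_IDL (by `cqF`), Su_DET. PROOF. (DET) `R.L j` and `R.L j'` have the same lattice, `om_j emb b_j = om_(j') emb b_(j')`. Take `0 ≠ t ∈ b_j`; `om_j emb t = om_(j') emb t'`, `t' ∈ b_(j')`, `t' ≠ 0`.
`sp t' * b_j = sp t * b_(j')`: for `s ∈ b_j`, `om_j emb s = om_(j') emb s'`, `s' ∈ b_(j')`, so `t' s = t s'` (multiply); and conversely. `R.inj`. -/
def Sy_UNJ : Prop :=
  ∀ A B : ℤ, MUX.CQ A B → ∀ (n : ℕ) (ι : Type) (R : MUX.Reps A B n ι) (j j' : ι),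
    (R.L j).g₂ = (R.L j').g₂ → (R.L j).g₃ = (R.L j').g₃ → j = j'

/-- (FIN) conjugation of `PhiI (R.b i) e / om_i` at finitely many pairs of cusps, with the value of the constant.

USES ALG, IDL, NIM (by `cqF`), RAT, EXI. PROOF. `m` = the product of all denominators of the cusps in `S` and of the norm `N(g) ∈ g` (NIM; `N(g) ≠ 0` by IDL): `m ≠ 0`, `m ∈ g`, `Dn m x` for all cusps in `S`. (EXI), then (RAT) with
`b = R.b i`, `c = R.b j` (`liF`, `eiF`, `phiF`). -/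
def Sy_FIN : Prop :=
  ∀ A B : ℤ, MUX.CQ A B → MUX.TorX A B → ∀ (n : ℕ) (ι : Type) (R : MUX.Reps A B n ι)
    (g : Ideal (OO A B)) (e : OO A B → ℂ), g ≠ ⊥ → g ≠ ⊤ → MUX.IsEI g e →
    (∀ i, IsCoprime (MUX.sp ((MUX.nI (R.b i) : ℕ) : OO A B)) g) →
    ∀ (σ : ℂ ≃+* ℂ), MUX.FixK A B σ → ∀ (i : ι) (S : Finset (OnePoint ℚ × OnePoint ℚ)),
    ∃ (j : ι) (C : ℂ), IsCj σ (R.L i) (R.L j) ∧ C ≠ 0 ∧
      (∃ x₁ x₂ : OO A B, e x₁ ≠ 0 ∧ e x₂ ≠ 0 ∧
        C = MUX.nI (R.b i) * σ (e x₁) / (MUX.nI (R.b j) * σ (e x₂))) ∧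
      ∀ q ∈ S, σ (MUX.PhiI (R.b i) e q.1 q.2 / R.om i) =
        C * (MUX.PhiI (R.b j) (fun x => σ (e x)) q.1 q.2 / R.om j)

/-- (CON) conjugation of the symbols, for all pairs of cusps at once. THE RESULT FOR THEOREM G.

USES FIN, UNJ. PROOF. `j₀` from (FIN) for `S = ∅`; every `j` of (FIN) is `j₀` (UNJ: `g₂`, `g₃` of `R.L j` are `σ` of those of `R.L i`). Write `P(q) = PhiI (R.b i) e q.1 q.2/om_i`, `P'(q) = PhiI (R.b j₀) (σ ∘ e) q.1 q.2/om_(j₀)`. If `P'(q) = 0` for all `q`: `P(q) = 0` for all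
`q` (FIN for `{q}`), `C = 1`. Otherwise choose `q₀` with `P'(q₀) ≠ 0` and `C = σ(P(q₀))/P'(q₀)`; for `q` apply (FIN) to `{q₀, q}`: its constant is `C` (from `q₀`; `C ≠ 0`). `σ(PhiI .../Om) = σ(P(q)) σ(om_i/Om)` with `Om = R.om R.i0`, and
`P'(q) = (PhiI (R.b j₀) (σ ∘ e) q.1 q.2/Om) (Om/om_(j₀))`: the constant is multiplied by `σ(om_i/Om) Om/om_(j₀) ≠ 0`. -/
def Sy_CON : Prop :=
  ∀ A B : ℤ, MUX.CQ A B → MUX.TorX A B → ∀ (n : ℕ) (ι : Type) (R : MUX.Reps A B n ι)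
    (g : Ideal (OO A B)) (e : OO A B → ℂ), g ≠ ⊥ → g ≠ ⊤ → MUX.IsEI g e →
    (∀ i, IsCoprime (MUX.sp ((MUX.nI (R.b i) : ℕ) : OO A B)) g) →
    ∀ (σ : ℂ ≃+* ℂ), MUX.FixK A B σ → ∀ i : ι, MUX.IsEI g (fun x => σ (e x)) ∧
    ∃ (j : ι) (C : ℂ), MUX.kap (R.L j) = σ (MUX.kap (R.L i)) ∧ C ≠ 0 ∧
      ∀ x y : OnePoint ℚ, σ (MUX.PhiI (R.b i) e x y / R.om R.i0) =
        C * (MUX.PhiI (R.b j) (fun x => σ (e x)) x y / R.om R.i0)

/-! ## Algebraicity -/

/-- (MUC) conjugation of multipliers.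

USES ALG (by `cqF`), Su_PHI, Su_FUN, Su_TSN, Su_CMC. PROOF. `L = om emb b`, `M = om'' emb b''`, `mu z ∈ M ↔ ∀ x ∈ a, emb x z ∈ L`; `mu L ⊆ M` (`O L ⊆ L`). `Φ : L → L'`, `Ψ : M → M'` (PHI). (FUN): `Ψ (mu z) - σ mu Φ z ∈ M'`. Let `u ∈ ℂ`, `Φ z - u ∈ L'` (`surj`).
`σ mu u ∈ M'` iff `σ mu Φ z ∈ M'` (`σ mu L' ⊆ M'`, FUN) iff `Ψ (mu z) ∈ M'` iff `mu z ∈ M` iff `emb x z ∈ L` for all `x ∈ a` iff (TSN, `emb x` is a multiplier of `L` fixed by `σ`) `emb x Φ z ∈ L'` for all `x ∈ a` iff `emb x u ∈ L'` for all `x ∈ a`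
(`emb x L' ⊆ L'`: CMC). -/
def Sy_MUC : Prop :=
  ∀ A B : ℤ, MUX.CQ A B → ∀ (σ : ℂ ≃+* ℂ), MUX.FixK A B σ →
    ∀ (a b : Ideal (OO A B)) (L M L' M' : PeriodPair) (om mu : ℂ), MUX.IsLI b L om →
    IsCj σ L L' → IsCj σ M M' → MUX.IsQ a L M mu → MUX.IsQ a L' M' (σ mu)

/-- (MUU) the multiplier is unique up to sign.

PROOF. `s = mu'/mu`: `z ∈ L'` iff (with `z = mu t`) `∀ x ∈ a, emb x t ∈ L` iff `mu' t = s z ∈ L'`. `ta_SCP` (`a = s`, from `L'` to `L'`): `g₂ = g₂/s⁴`, `g₃ = g₃/s⁶`, and `g₂ = -18 g₃`, both not `0` (`b_DSC`): `s⁴ = 1 = s⁶`, `s² = 1`. -/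
def Sy_MUU : Prop :=
  ∀ (A B : ℤ) (a : Ideal (OO A B)) (L L' : PeriodPair) (mu mu' : ℂ), L'.g₂ = -18 * L'.g₃ →
    MUX.IsQ a L L' mu → MUX.IsQ a L L' mu' → mu' = mu ∨ mu' = -mu

/-- (MUI) the multiplier of `L_(i0) → L_i`, `b_i = R.b i`: `L_i = mu_i (cjI b_i)⁻¹ L_(i0)`, `mu_i = om_i N(b_i)/om_(i0) = MUX.muX R i`.

USES ALG, IDL, NIM (by `cqF`). PROOF. `L_(i0) = Om emb O`. `z = Om t`: `mu_i z = om_i N(b_i) t`. If `mu_i z ∈ L_i`, then `N(b_i) t = emb s`, `s ∈ b_i`; for `x ∈ cjI b_i`: `emb (x s) = N(b_i) emb r` (`b_i cjI b_i = (N b_i)`), so `emb x t = emb r`. Conversely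
let `emb x t ∈ emb O` for all `x ∈ cjI b_i`. `N(b_i) = Σ s_k x_k`, `s_k ∈ b_i`, `x_k ∈ cjI b_i`, so `N(b_i) t = Σ emb s_k (emb x_k t) ∈ emb b_i` (induction over `Submodule.mul_induction_on`: for `r ∈ b_i cjI b_i`, `emb r t ∈ emb b_i`). -/
def Sy_MUI : Prop :=
  ∀ A B : ℤ, MUX.CQ A B → ∀ (n : ℕ) (ι : Type) (R : MUX.Reps A B n ι) (i : ι),
    MUX.IsQ (MUX.cjI (R.b i)) (R.L R.i0) (R.L i) (MUX.muX R i)

/-- (ALM) the multipliers are algebraic.

USES ALG, IDL (by `cqF`), EXI (with `m = 1`: `IsCj`), MUC, MUU, MUI, Su_AUT (with `F = kk A B`, `emb`.. : `kk A B = ℚ(wC)` is algebraic over `ℚ`: `wC² = A + B wC`). PROOF. For `σ` fixing `k`: `IsCj σ (R.L R.i0) (R.L l)`, `IsCj σ (R.L i) (R.L j)` for some `l, j` (EXI), so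
by (MUI), (MUC) `σ (mu_i)` is a multiplier `IsQ (cjI b_i) (R.L l) (R.L j)`; for every pair `(l, j)` it has at most two values (MUU): `ι` is finite, so the orbit of `mu_i` is finite and `mu_i` is algebraic (AUT). -/
def Sy_ALM : Prop :=
  ∀ A B : ℤ, MUX.CQ A B → MUX.TorX A B → ∀ (n : ℕ) (ι : Type) (_ : Finite ι)
    (R : MUX.Reps A B n ι) (i : ι),
    IsAlgebraic ℚ (MUX.muX R i) ∧ IsAlgebraic ℚ (R.om i / R.om R.i0)

/-- (FEC) finitely many conjugates of a character.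

PROOF. Every value of `e` is `0` or a root of unity of order dividing `r`; `{z : z = 0 ∨ z^r = 1}` is a finite set `Z` (`r ≠ 0`; roots of a polynomial), stable under `σ`. `σ ∘ e = (σ|Z) ∘ e`; the functions `Z → Z` are finite in number. -/
def Sy_FEC : Prop :=
  ∀ (A B : ℤ) (e : OO A B → ℂ) (r : ℕ), r ≠ 0 → (∀ x, e x ≠ 0 → e x ^ r = 1) →
    {e' : OO A B → ℂ | ∃ σ : ℂ ≃+* ℂ, e' = fun x => σ (e x)}.Finite ∧
    {z : ℂ | ∃ (σ : ℂ ≃+* ℂ) (x : OO A B), z = σ (e x)}.Finite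

/-- (ALP) the values of the symbols are algebraic. THE SECOND RESULT.

USES FIN, FEC, ALM, Su_AUT. PROOF. `P = PhiI (R.b i) e x y/om_i`. By (FIN) for `S = {(x, y)}` every conjugate `σ P`, `σ` fixing `k`, is `(N(b_i) z₁/(N(b_j) z₂)) (PhiI (R.b j) e' x y/om_j)`, `j ∈ ι` (finite), `e'`, `z₁`, `z₂` in the finite sets of (FEC): the orbit is finite, `P` is algebraic
(AUT with `F = kk A B`; `σ` fixes `kk A B` iff it fixes `wC`). Multiply by `om_i/Om` (ALM). -/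
def Sy_ALP : Prop :=
  ∀ A B : ℤ, MUX.CQ A B → MUX.TorX A B → ∀ (n : ℕ) (ι : Type) (_ : Finite ι)
    (R : MUX.Reps A B n ι) (g : Ideal (OO A B)) (e : OO A B → ℂ), g ≠ ⊥ → g ≠ ⊤ →
    MUX.IsEI g e → (∀ i, IsCoprime (MUX.sp ((MUX.nI (R.b i) : ℕ) : OO A B)) g) →
    ∀ r : ℕ, r ≠ 0 → (∀ x, e x ≠ 0 → e x ^ r = 1) → ∀ (i : ι) (x y : OnePoint ℚ),
    IsAlgebraic ℚ (MUX.PhiI (R.b i) e x y / R.om i) ∧
      IsAlgebraic ℚ (MUX.PhiI (R.b i) e x y / R.om R.i0)

/-- (COP) the norms of the `b_i` are prime to the conductor, from `R : Reps A B n ι`.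

PROOF. `nI (R.b i)` is prime to `n`, so to `n^t`: `u nI + v n^t = 1` in `ℤ`, and `n^t ∈ g`. -/
def Sy_COP : Prop :=
  ∀ (A B : ℤ) (n : ℕ) (ι : Type) (R : MUX.Reps A B n ι) (g : Ideal (OO A B)) (t : ℕ),
    ((n : ℕ) : OO A B) ^ t ∈ g → ∀ i, IsCoprime (MUX.sp ((MUX.nI (R.b i) : ℕ) : OO A B)) g

end

end Pool.Agent.MUXY


end

section

/-!
# MUX, block Y: MUC, conjugation of multipliers (helper95)
-/

set_option autoImplicit false

namespace Pool.Agent.MUXY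

open _root_.MU3 _root_.Pool.Agent.MU3A _root_.Pool.Agent.MU3B _root_.Pool.Agent.MUXU OnePoint
open _root_.Pool.Agent.MUXF (Sx_ALG)

noncomputable section

/-- an automorphism fixing `wC` fixes the image of the order -/
theorem muc_fix {A B : ℤ} {σ : ℂ ≃+* ℂ} (h : MUX.FixK A B σ) (x : OO A B) :
    σ (emb x) = emb x := by
  unfold MUX.FixK at h
  unfold emb
  rw [map_add, map_mul, h, map_intCast, map_intCast]

theorem ty_MUC (h1 : Sx_ALG) (h2 : Su_PHI) (h3 : Su_FUN) (h4 : Su_TSN) (h5 : Su_CMC) :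
    Sy_MUC := by
  intro A B hq σ hσ a b L M L' M' om mu hL hLL hMM hQ
  obtain ⟨hmul, -⟩ := h1 A B (cqF hq)
  obtain ⟨hmu, hQ⟩ := hQ
  -- elements of the order are multipliers of `L`
  have hO : ∀ x : OO A B, Isg L L (emb x) := by
    intro x w hw
    obtain ⟨y, hy, rfl⟩ := (hL.mem w).1 hw
    refine (hL.mem _).2 ⟨x * y, b.mul_mem_left x hy, ?_⟩
    rw [(hmul x y).1]
    ring
  have hg : Isg L M mu := by
    intro w hw
    exact (hQ w).2 fun x _ => hO x w hw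
  obtain ⟨Φ, hΦ⟩ := h2 σ L L' hLL
  obtain ⟨Ψ, hΨ⟩ := h2 σ M M' hMM
  obtain ⟨hg', hF⟩ := h3 σ L M L' M' mu Φ Ψ hmu hg hLL hMM hΦ hΨ
  refine ⟨?_, fun u => ?_⟩
  · simpa using hmu
  · obtain ⟨z, hz⟩ := hΦ.surj u
    have e1 : σ mu * u ∈ M'.lattice ↔ σ mu * Φ z ∈ M'.lattice := by
      have h := hg' _ hz
      rw [mul_sub] at h
      constructor
      · intro hu
        have := M'.lattice.add_mem h hu
        simpa using this
      · intro hu
        have := M'.lattice.sub_mem hu h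
        simpa using this
    have e2 : σ mu * Φ z ∈ M'.lattice ↔ Ψ (mu * z) ∈ M'.lattice := by
      have h := hF z
      constructor
      · intro hu
        have := M'.lattice.add_mem h hu
        simpa using this
      · intro hu
        have := M'.lattice.sub_mem hu h
        simpa using this
    rw [e1, e2, hΨ.mem, hQ]
    have e3 : ∀ x : OO A B, emb x * z ∈ L.lattice ↔ emb x * u ∈ L'.lattice := by
      intro x
      rw [← (h4 σ L L' Φ hLL hΦ).2 (emb x) z (hO x) (muc_fix hσ x)]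
      have h := (h5 σ L L' Φ (emb x) (hO x) (muc_fix hσ x) hLL hΦ).1 _ hz
      rw [mul_sub] at h
      constructor
      · intro hu
        have := L'.lattice.sub_mem hu h
        simpa using this
      · intro hu
        have := L'.lattice.add_mem h hu
        simpa using this
    exact forall₂_congr fun x _ => e3 x

end

end Pool.Agent.MUXY


end

section

/-!
# MUX, block XF: distribution relation for a lattice of finite index (DISX) (helper65)
-/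

set_option autoImplicit false

namespace Pool.Agent.MUXF

open _root_.MU3 _root_.Pool.Agent.MU3A _root_.Pool.Agent.MU3B _root_.Pool.Agent.MU3F _root_.Pool.Agent.MuSym OnePoint
open scoped ComplexConjugate

noncomputable section

namespace DISX

/-- decomposition of a sum over `L'` by the classes of `L' / L` -/
theorem sum_reps {L L' : PeriodPair} {R : Finset ℂ} (hLL : ∀ w ∈ L.lattice, w ∈ L'.lattice)
    (hmem : ∀ q ∈ R, q ∈ L'.lattice)
    (hinj : ∀ q ∈ R, ∀ q' ∈ R, q - q' ∈ L.lattice → q = q')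
    (hsurj : ∀ v ∈ L'.lattice, ∃ q ∈ R, v - q ∈ L.lattice) (F : ℂ → ℂ)
    (hF : Summable (fun u : L'.lattice => F u)) :
    ∑ q ∈ R, ∑' w : L.lattice, F (q + w) = ∑' u : L'.lattice, F u := by
  classical
  let f : R × L.lattice → L'.lattice := fun x =>
    ⟨(x.1 : ℂ) + x.2, add_mem (hmem _ x.1.2) (hLL _ x.2.2)⟩
  have hf : Function.Bijective f := by
    constructor
    · rintro ⟨⟨q, hq⟩, ⟨w, hw⟩⟩ ⟨⟨q', hq'⟩, ⟨w', hw'⟩⟩ h
      have h2 : q + w = q' + w' := congrArg Subtype.val h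
      have h3 : q - q' = w' - w := by linear_combination h2
      have h4 : q = q' := hinj q hq q' hq' (by rw [h3]; exact sub_mem hw' hw)
      subst h4
      have h5 : w = w' := add_left_cancel h2
      subst h5
      rfl
    · rintro ⟨u, hu⟩
      obtain ⟨q, hq, h1⟩ := hsurj u hu
      refine ⟨(⟨q, hq⟩, ⟨u - q, h1⟩), Subtype.ext ?_⟩
      change q + (u - q) = u
      rw [add_sub_cancel]
  have h1 : ∑' u : L'.lattice, F u =
      ∑' x : R × L.lattice, F ((x.1 : ℂ) + x.2) :=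
    ((Equiv.ofBijective f hf).tsum_eq (fun u : L'.lattice => F u)).symm
  have h2 : Summable (fun x : R × L.lattice =>
      F ((x.1 : ℂ) + x.2)) := (Equiv.ofBijective f hf).summable_iff.2 hF
  have h3 : ∑' x : R × L.lattice, F ((x.1 : ℂ) + x.2) =
      ∑ q ∈ R, ∑' w : L.lattice, F (q + w) := by
    rw [h2.tsum_prod, ← Finset.sum_coe_sort R
      (fun q => ∑' w : L.lattice, F (q + w))]
    exact tsum_fintype (fun q : R => ∑' w : L.lattice, F ((q : ℂ) + w))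
  rw [h1, h3]

end DISX

open _root_.Pool.Agent.MUXF.DISX in
/-- (DISX) -/
theorem tx_DISX (hSUM : St_SUM) (hINT : St_INT) : Sx_DISX := by
  intro L L' R hLL hmem hinj hsurj z
  have key : ∀ t : ℝ, 0 < t →
      ∑ q ∈ R, (∑' w : L.lattice,
          conj (z + q + w) * ((Real.exp (-(1 * t * ‖z + q + w‖ ^ 2)) : ℝ) : ℂ)) =
      ∑' w : L'.lattice,
        conj (z + w) * ((Real.exp (-(1 * t * ‖z + w‖ ^ 2)) : ℝ) : ℂ) := by
    intro t ht
    obtain ⟨u, hu, hb⟩ := hSUM L' (1 * t) (by positivity) 1 ‖z‖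
    have hs : Summable (fun w : L'.lattice => conj (z + w) *
        ((Real.exp (-(1 * t * ‖z + w‖ ^ 2)) : ℝ) : ℂ)) := by
      refine Summable.of_norm_bounded hu fun w => ?_
      have h1 := (hb w z le_rfl).1
      rw [pow_one] at h1
      rw [norm_mul, Complex.norm_conj, Complex.norm_real, Real.norm_eq_abs,
        abs_of_pos (Real.exp_pos _)]
      refine le_trans (mul_le_mul_of_nonneg_right ?_ (Real.exp_pos _).le) h1
      linarith
    have h2 := sum_reps hLL hmem hinj hsurj (fun u : ℂ => conj (z + u) *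
        ((Real.exp (-(1 * t * ‖z + u‖ ^ 2)) : ℝ) : ℂ)) hs
    rw [← h2]
    simp only [add_assoc]
  have hIq := fun q => hINT L 1 one_pos (z + q)
  have hI' := hINT L' 1 one_pos z
  have h1 : ∑ q ∈ R, ee L (z + q) / ((1 : ℝ) : ℂ) = ee L' z / ((1 : ℝ) : ℂ) := by
    rw [← hI'.2, Finset.sum_congr rfl (fun q _ => (hIq q).2.symm),
      ← MeasureTheory.integral_finset_sum _ (fun q _ => (hIq q).1)]
    exact MeasureTheory.setIntegral_congr_fun measurableSet_Ioi fun t ht => key t ht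
  simpa only [Complex.ofReal_one, div_one] using h1

end

end Pool.Agent.MUXF


end

section

/-!
# MUX, block XF: module BDD, a character has finitely many values
-/

set_option autoImplicit false

namespace Pool.Agent.MUXF

open _root_.MU3 _root_.Pool.Agent.MU3A _root_.Pool.Agent.MU3B _root_.Pool.Agent.MU3F _root_.Pool.Agent.MuSym OnePoint

theorem tx_BDD (h1 : Sx_ALG) : Sx_BDD := by
  intro A B hc g e hg he
  have hfin : Finite (OO A B ⧸ g) := (h1 A B hc).2.2.2.1 g hg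
  have h1 : Set.range e ⊆ Set.range (fun q : OO A B ⧸ g => e (Quotient.out q)) := by
    rintro _ ⟨x, rfl⟩
    refine ⟨Ideal.Quotient.mk g x, ?_⟩
    refine he.per _ _ ?_
    rw [← Ideal.Quotient.eq]
    exact Quotient.out_eq _
  have h2 : (Set.range e).Finite := (Set.finite_range _).subset h1
  refine ⟨h2, ?_⟩
  obtain ⟨C, hC⟩ := (h2.image (fun c : ℂ => ‖c‖)).bddAbove
  refine ⟨max C 1, lt_of_lt_of_le one_pos (le_max_right _ _), fun x => ?_⟩
  exact (hC ⟨e x, ⟨x, rfl⟩, rfl⟩).trans (le_max_left _ _)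

end Pool.Agent.MUXF


end

section

/-!
# MUX, section 9, module SUM: change of variables in `sumB`
-/

set_option autoImplicit false

namespace Pool.Agent.MUXY

open _root_.MU3 _root_.Pool.Agent.MU3A _root_.Pool.Agent.MU3B _root_.Pool.Agent.MUXU OnePoint
open _root_.Pool.Agent.MU3F (ex)
open _root_.Pool.Agent.MUXF (Sx_ALG Sx_IDL Sx_NIM Sx_QB Sx_SMB Sx_F4 qb sumB)

theorem ty_SUM (h1 : Sx_SMB) : Sy_SUM := by
  intro A B hcq b c m f hb hc hm hf hadd hinj hsurj F hF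
  let φ : b →+ c := AddMonoidHom.mk' (fun x => (⟨f x, hf x x.2⟩ : c))
    (fun x y => Subtype.ext (hadd x x.2 y y.2))
  have hφ : ∀ x : b, ((φ x : c) : OO A B) = f x := fun _ => rfl
  have hle : (nsmulAddMonoidHom (α := b) m).range ≤
      ((nsmulAddMonoidHom (α := c) m).range).comap φ := by
    rintro x ⟨s, rfl⟩
    exact ⟨φ s, (map_nsmul φ m s).symm⟩
  let ψ : (b ⧸ (nsmulAddMonoidHom (α := b) m).range) →+
      (c ⧸ (nsmulAddMonoidHom (α := c) m).range) :=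
    QuotientAddGroup.map _ _ φ hle
  have hψ : ∀ x : b, ψ (QuotientAddGroup.mk x) = QuotientAddGroup.mk (φ x) := fun _ => rfl
  have hbij : Function.Bijective ψ := by
    constructor
    · intro q q' hqq
      induction q using QuotientAddGroup.induction_on with
      | H x =>
        induction q' using QuotientAddGroup.induction_on with
        | H y =>
          rw [hψ, hψ] at hqq
          obtain ⟨t, ht⟩ := (QuotientAddGroup.eq).1 hqq
          have ht' : ((m • t : c) : OO A B) = -f x + f y := congrArg Subtype.val ht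
          have ht2 : f x - f y = (m : OO A B) * ((-t : c) : OO A B) := by
            have e1 : ((m • t : c) : OO A B) = (m : OO A B) * (t : OO A B) := by
              rw [Submodule.coe_smul_of_tower, nsmul_eq_mul]
            have e2 : ((-t : c) : OO A B) = -(t : OO A B) := rfl
            rw [e1] at ht'
            rw [e2, mul_neg, ht']
            ring
          obtain ⟨s, hs, hxy⟩ := hinj x x.2 y y.2 ⟨_, (-t).2, ht2⟩
          apply (QuotientAddGroup.eq).2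
          refine ⟨⟨-s, neg_mem hs⟩, Subtype.ext ?_⟩
          have e1 : ((m • (⟨-s, neg_mem hs⟩ : b) : b) : OO A B) = (m : OO A B) * (-s) := by
            rw [Submodule.coe_smul_of_tower, nsmul_eq_mul]
          show ((m • (⟨-s, neg_mem hs⟩ : b) : b) : OO A B) = -(x : OO A B) + (y : OO A B)
          rw [e1, mul_neg, ← hxy]
          ring
    · intro q
      induction q using QuotientAddGroup.induction_on with
      | H y =>
        obtain ⟨x, hx, t, ht, hy⟩ := hsurj y y.2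
        refine ⟨QuotientAddGroup.mk (⟨x, hx⟩ : b), ?_⟩
        rw [hψ]
        apply (QuotientAddGroup.eq).2
        refine ⟨⟨t, ht⟩, Subtype.ext ?_⟩
        have e1 : ((m • (⟨t, ht⟩ : c) : c) : OO A B) = (m : OO A B) * t := by
          rw [Submodule.coe_smul_of_tower, nsmul_eq_mul]
        show ((m • (⟨t, ht⟩ : c) : c) : OO A B) = -(f x) + (y : OO A B)
        rw [e1, hy]
        ring
  have h5 := (h1 A B hcq c m hc hm).2.2.2.2.1 F hF
  unfold MUXF.sumB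
  refine (finsum_eq_of_bijective ψ hbij (fun q => ?_)).symm
  have hq : QuotientAddGroup.mk (Quotient.out q : b) = q := Quotient.out_eq q
  have e1 : ψ q = QuotientAddGroup.mk (φ (Quotient.out q : b)) := by
    conv_lhs => rw [← hq]
    exact hψ _
  rw [e1, h5 (φ (Quotient.out q : b))]
  rfl

end Pool.Agent.MUXY


end

section

/-!
# MUX, section 9: module RA1, conjugation of the values `PhiI b e ∞ (β / M)`
-/

set_option autoImplicit false

namespace Pool.Agent.MUXY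

open _root_.MU3 _root_.Pool.Agent.MU3A _root_.Pool.Agent.MU3B _root_.Pool.Agent.MUXU OnePoint
open _root_.Pool.Agent.MU3F (ex)
open _root_.Pool.Agent.MUXF (Sx_ALG Sx_IDL Sx_NIM Sx_QB Sx_SMB Sx_F4 qb sumB)

noncomputable section

private lemma ra1_phi_MUXY_RA1 (h4 : Sx_F4) {A B : ℤ} (hc : MUXF.CQ A B) {b : Ideal (OO A B)}
    {L : PeriodPair} {om : ℂ} (hL : MUXF.IsLI b L om) {g : Ideal (OO A B)} {e : OO A B → ℂ}
    (he : MUXF.IsEI g e) {m M : ℕ} (hm : m ≠ 0) (hmg : ((m : ℕ) : OO A B) ∈ g) (hM : M ≠ 0)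
    (hMm : M ∣ m) (β : ℤ) :
    MUXF.PhiI b e ∞ (((β / M : ℚ) : ℚ) : OnePoint ℚ) / om = (MUXF.nI b : ℂ) / (2 * m) *
      sumB b m (fun x => e x * ex (β * qb b x / M) * ee L (om * emb x / m)) := by
  have h1 := (h4 A B hc b L om hL g e he m M hm hmg hM hMm β).2
  have h2 : MUXF.PhiI b e ∞ (((β / M : ℚ) : ℚ) : OnePoint ℚ) = 0 - MUXF.IvI b e (β / M : ℚ) := rfl
  have hom := hL.om_ne
  have hm' : (m : ℂ) ≠ 0 := by exact_mod_cast hm
  rw [h2, h1]
  field_simp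
  ring

private lemma ra1_map_MUXY_RA1 {A B : ℤ} (b : Ideal (OO A B)) (m : ℕ)
    (hfin : Finite (b ⧸ (nsmulAddMonoidHom (α := b) m).range)) (σ : ℂ ≃+* ℂ) (F : OO A B → ℂ) :
    σ (sumB b m F) = sumB b m (fun x => σ (F x)) := by
  have := Fintype.ofFinite (b ⧸ (nsmulAddMonoidHom (α := b) m).range)
  unfold sumB
  rw [finsum_eq_sum_of_fintype, finsum_eq_sum_of_fintype, map_sum]

theorem ty_RA1 (hSMB : Sx_SMB) (h4 : Sx_F4) (hBIJ : Sy_BIJ) (hSUM : Sy_SUM) (hTER : Sy_TER)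
    (hPR4 : Sy_PR4) (hEIC : Sy_EIC) : Sy_RA1 := by
  intro A B hc σ m a b c L L' om om' mu f hL hL' hact hf hζ g e he hg hm hmg M hM hMm β
  have he' : MUXF.IsEI g (fun x => σ (e x)) := hEIC A B σ g e he
  have e1 := ra1_phi_MUXY_RA1 h4 hc hL he hm hmg hM hMm β
  have e2 := ra1_phi_MUXY_RA1 h4 hc hL' he' hm hmg hM hMm β
  obtain ⟨hfin, hmul, -, -, -, hcon⟩ := hSMB A B hc b m hL.b_ne hm
  obtain ⟨hb1, hb2⟩ := hBIJ A B hc σ m a b c L L' om om' mu f hL hL' hact hf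
  have hs := hSUM A B hc b c m f hL.b_ne hL'.b_ne hm hf.mem hf.add hb1 hb2
    (fun y => σ (e y) * ex (β * qb c y / M) * ee L' (om' * emb y / m))
    (hPR4 A B hc c L' om' hL' g (fun x => σ (e x)) he' m M hm hmg hM hMm β)
  have ht := hTER A B hc σ m a b c L L' om om' mu f hL hL' hact hf hζ g e he hg hm hmg M hM hMm β
  have e3 : σ (e (f ((MUXF.nI b : ℕ) : OO A B))) *
      σ (sumB b m (fun x => e x * ex (β * qb b x / M) * ee L (om * emb x / m))) =
      σ (e ((MUXF.nI b : ℕ) : OO A B)) *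
        sumB c m (fun y => σ (e y) * ex (β * qb c y / M) * ee L' (om' * emb y / m)) := by
    rw [ra1_map_MUXY_RA1 b m hfin, ← hmul, hs, ← hmul]
    exact hcon _ _ ht
  have hm' : (m : ℂ) ≠ 0 := by exact_mod_cast hm
  rw [e1, e2, map_mul]
  have e4 : σ ((MUXF.nI b : ℂ) / (2 * m)) = (MUXF.nI b : ℂ) / (2 * m) := by
    rw [map_div₀, map_mul, map_natCast, map_natCast, map_ofNat]
  rw [e4]
  linear_combination ((MUXF.nI c : ℂ) * ((MUXF.nI b : ℂ) / (2 * m))) * e3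

end

end Pool.Agent.MUXY


end

section

/-!
# MUX, section 9: the form `qb` and the map `f`
-/

set_option autoImplicit false

namespace Pool.Agent.MUXY

open _root_.MU3 _root_.Pool.Agent.MU3A _root_.Pool.Agent.MU3B _root_.Pool.Agent.MUXU OnePoint
open _root_.Pool.Agent.MU3F (ex)
open _root_.Pool.Agent.MUXF (Sx_ALG Sx_IDL Sx_NIM Sx_QB Sx_SMB Sx_F4 qb sumB)

theorem ty_QBF (h1 : Sx_ALG) (h2 : Sx_IDL) (h4 : Sx_QB) (h5 : Sy_IDF) : Sy_QBF := by
  intro A B hc σ m a b c L L' om om' mu f hb hcL hA hf x hx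
  obtain ⟨hmul, -, hint, -, -⟩ := h1 A B hc
  obtain ⟨-, -, -, hnm⟩ := h5 A B hc σ m a b c L L' om om' mu f hb hcL hA hf
  have hfx : f x ∈ c := hf.mem x hx
  have hb0 : ((MUXF.nI b : ℕ) : ℤ) ≠ 0 := by exact_mod_cast (h2 A B hc b hb.b_ne).1
  have hc0 : ((MUXF.nI c : ℕ) : ℤ) ≠ 0 := by exact_mod_cast (h2 A B hc c hcL.b_ne).1
  have hqb : nm x = MUXF.nI b * qb b x := ((h4 A B hc b hb.b_ne).1 x hx).1
  have hqc : nm (f x) = MUXF.nI c * qb c (f x) := ((h4 A B hc c hcL.b_ne).1 (f x) hfx).1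
  have hnb := hf.nb x hx
  have h6 : nm (((MUXF.nI b : ℕ) : OO A B)) = (MUXF.nI b : ℤ) ^ 2 := by
    have h7 := (hint ((MUXF.nI b : ℕ) : ℤ)).2
    rw [← h7]
    congr 1
  have h8 : nm (((MUXF.nI b : ℕ) : OO A B)) * nm (f x) =
      nm (f ((MUXF.nI b : ℕ) : OO A B)) * nm x := by
    rw [← (hmul _ _).2.2, ← (hmul _ _).2.2, hnb]
  rw [h6, hnm, hqb, hqc] at h8
  have h9 : ((MUXF.nI b : ℕ) : ℤ) ^ 2 * ((MUXF.nI c : ℕ) : ℤ) ≠ 0 :=
    mul_ne_zero (pow_ne_zero _ hb0) hc0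
  have h10 : ((MUXF.nI b : ℕ) : ℤ) ^ 2 * ((MUXF.nI c : ℕ) : ℤ) * qb c (f x) =
      ((MUXF.nI b : ℕ) : ℤ) ^ 2 * ((MUXF.nI c : ℕ) : ℤ) * (MUXF.nI a * qb b x) := by
    linear_combination h8
  exact mul_left_cancel₀ h9 h10

end Pool.Agent.MUXY


end

section

/-!
# MUX, section 9, module EIC (helper95): the conjugate of a character is a character
-/

set_option autoImplicit false

namespace Pool.Agent.MUXY

open _root_.MU3

theorem ty_EIC : Sy_EIC := by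
  intro A B σ g e h
  refine ⟨?_, ?_, ?_, ?_, ?_⟩
  · rw [h.one, map_one]
  · intro x y
    rw [h.mul, map_mul]
  · intro x y hxy
    rw [h.per x y hxy]
  · intro x
    rw [← h.supp x]
    exact not_congr (map_eq_zero σ)
  · rw [h.neg, map_neg, map_one]

end Pool.Agent.MUXY


end

section

/-!
# MUX, section 9, module COP (helper9): the norms of the `b_i` are prime to the conductor
-/

set_option autoImplicit false

namespace Pool.Agent.MUXY

open _root_.MU3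

theorem ty_COP : Sy_COP := by
  intro A B n ι R g t ht i
  have h1 : ((MUX.nI (R.b i)).Coprime (n ^ t)) := Nat.Coprime.pow_right t (R.cop i)
  obtain ⟨u, v, huv⟩ := Nat.isCoprime_iff_coprime.2 h1
  rw [Ideal.isCoprime_iff_exists]
  refine ⟨(u : OO A B) * ((MUX.nI (R.b i) : ℕ) : OO A B), ?_, (v : OO A B) * ((n : ℕ) : OO A B) ^ t,
    Ideal.mul_mem_left _ _ ht, ?_⟩
  · exact Ideal.mul_mem_left _ _ (Ideal.mem_span_singleton_self _)
  · have h2 := congrArg (fun z : ℤ => (z : OO A B)) huv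
    push_cast at h2
    exact h2

end Pool.Agent.MUXY


end

section

/-!
# MUX, section 9: module CON, conjugation of the symbols for all pairs of cusps at once
-/

set_option autoImplicit false

namespace Pool.Agent.MUXY

open _root_.MU3 _root_.Pool.Agent.MU3A _root_.Pool.Agent.MU3B _root_.Pool.Agent.MUXU OnePoint
open _root_.Pool.Agent.MU3F (ex)
open _root_.Pool.Agent.MUXF (Sx_ALG Sx_IDL Sx_NIM Sx_QB Sx_SMB Sx_F4 qb sumB)

theorem ty_CON (h1 : Sy_FIN) (h2 : Sy_UNJ) (h3 : Sy_EIC) : Sy_CON := by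
  intro A B hc hT n ι R g e hg0 hg1 he hcop σ hσ i
  refine ⟨?_, ?_⟩
  · have h4 := h3 A B σ g e (eiF he)
    exact ⟨h4.one, h4.mul, h4.per, h4.supp, h4.neg⟩
  have hom : ∀ k, R.om k ≠ 0 := fun k => (R.nl k).om_ne
  obtain ⟨j, -, hj, -, -, -⟩ := h1 A B hc hT n ι R g e hg0 hg1 he hcop σ hσ i ∅
  -- the statement of FIN with the index `j`
  have key : ∀ S : Finset (OnePoint ℚ × OnePoint ℚ), ∃ C : ℂ, C ≠ 0 ∧
      ∀ q ∈ S, σ (MUX.PhiI (R.b i) e q.1 q.2 / R.om i) =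
        C * (MUX.PhiI (R.b j) (fun x => σ (e x)) q.1 q.2 / R.om j) := by
    intro S
    obtain ⟨j', C, hj', hC, -, hS⟩ := h1 A B hc hT n ι R g e hg0 hg1 he hcop σ hσ i S
    have h4 : j' = j := h2 A B hc n ι R j' j (by rw [hj'.1, hj.1]) (by rw [hj'.2, hj.2])
    subst h4
    exact ⟨C, hC, hS⟩
  have main : ∃ C : ℂ, C ≠ 0 ∧ ∀ q : OnePoint ℚ × OnePoint ℚ,
      σ (MUX.PhiI (R.b i) e q.1 q.2 / R.om i) =
        C * (MUX.PhiI (R.b j) (fun x => σ (e x)) q.1 q.2 / R.om j) := by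
    by_cases h : ∃ q : OnePoint ℚ × OnePoint ℚ,
        MUX.PhiI (R.b j) (fun x => σ (e x)) q.1 q.2 / R.om j ≠ 0
    · obtain ⟨q0, hq0⟩ := h
      obtain ⟨C, hC, hS⟩ := key {q0}
      refine ⟨C, hC, fun q => ?_⟩
      classical
      obtain ⟨C', hC', hS'⟩ := key {q0, q}
      have h5 := hS q0 (by simp)
      have h6 := hS' q0 (by simp)
      have h7 := hS' q (by simp)
      have h8 : C = C' := mul_right_cancel₀ hq0 (h5.symm.trans h6)
      rw [h8]
      exact h7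
    · push Not at h
      refine ⟨1, one_ne_zero, fun q => ?_⟩
      obtain ⟨C, hC, hS⟩ := key {q}
      rw [hS q (by simp), h q, mul_zero, mul_zero]
  obtain ⟨C, hC, hall⟩ := main
  refine ⟨j, C * σ (R.om i / R.om R.i0) * (R.om R.i0 / R.om j), ?_, ?_, fun x y => ?_⟩
  · unfold MUX.kap
    rw [hj.1, map_div₀, map_sub, map_mul, map_one, map_ofNat, map_ofNat]
  · refine mul_ne_zero (mul_ne_zero hC ?_) (div_ne_zero (hom _) (hom _))
    rw [Ne, map_eq_zero]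
    exact div_ne_zero (hom _) (hom _)
  · have h5 : MUX.PhiI (R.b i) e x y / R.om R.i0 =
        MUX.PhiI (R.b i) e x y / R.om i * (R.om i / R.om R.i0) := by
      have := hom i
      field_simp
    rw [h5, map_mul, hall (x, y)]
    have h6 := hom R.i0
    have h7 := hom j
    field_simp

end Pool.Agent.MUXY


end

section

/-!
# MUX, section 9: module BIJ (`f` induces a bijection from `b / m b` onto `c / m c`)
-/

set_option autoImplicit false

namespace Pool.Agent.MUXY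

open _root_.MU3 _root_.Pool.Agent.MU3A _root_.Pool.Agent.MU3B _root_.Pool.Agent.MUXU OnePoint
open _root_.Pool.Agent.MU3F (ex)
open _root_.Pool.Agent.MUXF (Sx_ALG Sx_IDL Sx_NIM Sx_QB Sx_SMB Sx_F4 qb sumB)

noncomputable section

theorem ty_BIJ (h1 : Sx_ALG) (h2 : Sy_IDF) : Sy_BIJ := by
  intro A B hC σ m a b c L L' om om' mu f hb hc hact hf
  obtain ⟨a1, a2, a3, -, -⟩ := h1 A B hC
  obtain ⟨-, hac, -, -⟩ := h2 A B hC σ m a b c L L' om om' mu f hb hc hact hf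
  have hadd : ∀ x y : OO A B, emb (x + y) = emb x + emb y := fun x y => (a1 x y).2.1
  have hsub : ∀ x y : OO A B, emb (x - y) = emb x - emb y := by
    intro x y
    have h := hadd (x - y) y
    rw [sub_add_cancel] at h
    rw [h]
    ring
  have hinjE : ∀ u v : OO A B, emb u = emb v → u = v := by
    intro u v h
    have e2 : emb (u - v) = 0 := by rw [hsub, h, sub_self]
    exact sub_eq_zero.1 ((a2 (u - v)).1.1 e2)
  have hinj : ∀ x ∈ b, ∀ y ∈ b, f x = f y → x = y := by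
    intro x hx y hy h
    apply hinjE
    have e1 := hf.eq x hx
    rw [h, hf.eq y hy] at e1
    exact (mul_left_cancel₀ (mul_ne_zero hact.ne hb.om_ne) e1).symm
  obtain ⟨α, hα, j, hj, hαj⟩ := Ideal.isCoprime_iff_exists.1 hact.cop
  obtain ⟨β, hβ⟩ := Ideal.mem_span_singleton'.1 hj
  have hone : α + (m : OO A B) * β = 1 := by
    rw [mul_comm, hβ]
    exact hαj
  refine ⟨?_, ?_⟩
  · rintro x hx y hy ⟨t, ht, e⟩
    obtain ⟨s, hs, hfs⟩ := (hac (α * t)).1 (Ideal.mul_mem_mul hα ht)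
    have hxy : x - y ∈ b := b.sub_mem hx hy
    refine ⟨s + β * (x - y), b.add_mem hs (b.mul_mem_left β hxy), ?_⟩
    have e1 : α * (x - y) = (m : OO A B) * s := by
      apply hinj _ (b.mul_mem_left α hxy) _ (b.mul_mem_left _ hs)
      rw [hf.smul _ hxy, hf.smul _ hs, hf.sub x hx y hy, e, hfs]
      ring
    calc x - y = (α + (m : OO A B) * β) * (x - y) := by rw [hone, one_mul]
      _ = α * (x - y) + (m : OO A B) * (β * (x - y)) := by ring
      _ = (m : OO A B) * (s + β * (x - y)) := by rw [e1]; ring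
  · intro y hy
    obtain ⟨x, hx, hfx⟩ := (hac (α * y)).1 (Ideal.mul_mem_mul hα hy)
    refine ⟨x, hx, β * y, c.mul_mem_left β hy, ?_⟩
    rw [hfx]
    calc y = (α + (m : OO A B) * β) * y := by rw [hone, one_mul]
      _ = α * y + (m : OO A B) * (β * y) := by ring

end

end Pool.Agent.MUXY


end

section

/-!
# MUX, section 9 of `PAPER_X.md`: rationality of the modular symbols of theta series of ideals (helper41)

Every statement is a `def Sy_X : Prop`. A module proves `theorem ty_X (h : ..) .. : Sy_X` in the file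
`Pool/Agent/MUX/Y_X.lean`, namespace `Pool.Agent.MUXY`, where the hypotheses are the statements named under USES
(`Sy_..` of this file, `Sx_..` of `StXF.lean`, `Su_..` of `StU.lean`; fewer is fine). The statements of block B of
MU3 are theorems in `Pool/Agent/MU3/BAll.lean` (`Pool.Agent.MU3B.b_TRA`, `b_HAL`, `b_NEQ`, `b_PER`, `b_ZER`, `b_DSC`, ..),
scaling of a lattice is `Pool.Agent.MU3A.ta_SCP` (`A_SCP.lean`).

The definitions of `TDefs.lean` (namespace `MUXF`: `CQ`, `IsLI`, `IsEI`, `nI`, `cjI`, `sp`, `PhiI`, ..) are the same as those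
of `DefsX.lean` (namespace `MUX`); `nI`, `cjI`, `sp`, `PhiI` are equal by `rfl`, the structures are converted by `cqF`, `liF`,
`eiF`. The first part uses those of `MUXF`, the second part (from `SAM` on) those of `MUX`.

`b`, `c` ideals, `L = om * emb b`, `L' = om' * emb c`, `L' = L^σ = mu a⁻¹ L`. Facts on `emb`: `Sx_ALG` (`emb` is multiplicative and
additive, `emb x = 0` only for `x = 0`, so `emb` is injective).
-/

set_option autoImplicit false

namespace Pool.Agent.MUXY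

open _root_.Pool.Agent.ME

open _root_.MU3 _root_.Pool.Agent.MU3A _root_.Pool.Agent.MU3B _root_.Pool.Agent.MUXU OnePoint
open _root_.Pool.Agent.MU3F (ex)
open _root_.Pool.Agent.MUXF (Sx_ALG Sx_IDL Sx_NIM Sx_QB Sx_SMB Sx_F4 qb sumB)

noncomputable section

/-! ## Bridges between the two copies of the definitions -/

/-! ## The function `ee` and conjugation -/

/-! ## The map `x ↦ (mu om / om') x` from `b` to `c` -/

/-! ## Conjugation of the symbol -/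

/-! ## Second part: the lattices `R.L i` -/

/-- (SAM) normalised lattices of the same class are equal.

USES Sx_ALG (by `cqF`). PROOF. `s := om emb y/(emb x om')`: `z ∈ L ↔ z = om emb t, t ∈ b`. `sp x * b = sp y * b'`: for `t ∈ b` there is `t' ∈ b'` with `x t = y t'` and conversely. So `z ∈ L'` iff `s z ∈ L`: for `z = om' emb t'`, `s z = om emb y emb t'/emb x = om emb t`.
By `Pool.Agent.MU3A.ta_SCP` (with `a = s`, from `L'` to `L`): `g₂(L) = g₂(L')/s⁴`, `g₃(L) = g₃(L')/s⁶`. `g₂ = -18 g₃` for both: `g₂(L') (s² - 1) = 0`; `g₂(L') ≠ 0` (otherwise `g₃(L') = 0`, against `b_DSC`: `g₂³ ≠ 27 g₃²`). So `s = ±1` and the lattices are equal. -/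
def Sy_SAM_E : Prop :=
  ∀ A B : ℤ, ME.CaseE A B → ∀ (b b' : Ideal (OO A B)) (L L' : PeriodPair) (om om' : ℂ)
    (x y : OO A B), ME.IsNE b L om → ME.IsNE b' L' om' → x ≠ 0 → y ≠ 0 →
    MUX.sp x * b = MUX.sp y * b' → ∀ z : ℂ, z ∈ L.lattice ↔ z ∈ L'.lattice

/-- (BRI) from `ActE` to `ActN`, and change of the target by an equal lattice.

USES Sx_ALG (by `cqF`). PROOF. `L'` and `L''` have the same lattice, so (`ta_SCP` with `a = 1`) the same `℘`, `℘'`, `g₂`, `g₃`. `cj`: `kapE L' = σ (kapE L)` gives `g₂(L') = σ (g₂ L)` (`σ` fixes rational numbers), and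
`g₃ = -g₂/18` for both. `isq` of `ActE` is an `IsQ`. `act`: `m z ∈ L` gives `Tor (sp m) L z` (`emb (m t) z = emb t (m z)`, `om emb (t s)`, an element of `sp m` is `m t`); `PME` with `z ∉ L`: second case; `xnE = ℘ - 1/12`, `yy = ℘'/2`. -/
def Sy_BRI_E : Prop :=
  ∀ A B : ℤ, ME.CaseE A B → ∀ (σ : ℂ ≃+* ℂ) (m : ℕ) (a b b' : Ideal (OO A B))
    (L L' L'' : PeriodPair) (om om' mu : ℂ), ME.IsNE b L om → ME.IsNE b' L' om' →
    ME.ActE σ (MUX.idl m) a L L' mu → (∀ z : ℂ, z ∈ L'.lattice ↔ z ∈ L''.lattice) →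
    ActN σ m a L L'' mu

/-- (EXI) existence of the action for the lattices `R.L i`.

USES SAM, BRI. PROOF. `σ` fixes `wC`. `TorXE.act` for `idl m` (`≠ ⊥`: `m ≠ 0`) gives `a`, and for `L = R.L i` `b', L', om', mu` with `IsNE b' L' om'` and `ActE`. `TorXE.zeta` with `M = m`, `m = idl m` gives the action on roots of unity.
`R.surj b'`: `j, x, y` with `sp x * b' = sp y * R.b j`: (SAM) `L'.lattice = (R.L j).lattice`, (BRI). -/
def Sy_EXI_E : Prop :=
  ∀ A B : ℤ, ME.CaseE A B → ME.TorXE A B → ∀ (n : ℕ) (ι : Type) (R : ME.RepsE A B n ι)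
    (σ : ℂ ≃+* ℂ), MUX.FixK A B σ → ∀ (m : ℕ), m ≠ 0 → ∀ i : ι, ∃ (j : ι) (a : Ideal (OO A B))
    (mu : ℂ), ActN σ m a (R.L i) (R.L j) mu ∧ ∀ z : ℂ, z ^ m = 1 → σ z = z ^ MUX.nI a

/-- (UNJ) the lattice `R.L j` is determined by its invariants.

USES Sx_ALG, Sx_IDL (by `cqF`), Su_DET. PROOF. (DET) `R.L j` and `R.L j'` have the same lattice, `om_j emb b_j = om_(j') emb b_(j')`. Take `0 ≠ t ∈ b_j`; `om_j emb t = om_(j') emb t'`, `t' ∈ b_(j')`, `t' ≠ 0`.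
`sp t' * b_j = sp t * b_(j')`: for `s ∈ b_j`, `om_j emb s = om_(j') emb s'`, `s' ∈ b_(j')`, so `t' s = t s'` (multiply); and conversely. `R.inj`. -/
def Sy_UNJ_E : Prop :=
  ∀ A B : ℤ, ME.CaseE A B → ∀ (n : ℕ) (ι : Type) (R : ME.RepsE A B n ι) (j j' : ι),
    (R.L j).g₂ = (R.L j').g₂ → (R.L j).g₃ = (R.L j').g₃ → j = j'

/-- (FIN) conjugation of `PhiI (R.b i) e / om_i` at finitely many pairs of cusps, with the value of the constant.

USES ALG, IDL, NIM (by `cqF`), RAT, EXI. PROOF. `m` = the product of all denominators of the cusps in `S` and of the norm `N(g) ∈ g` (NIM; `N(g) ≠ 0` by IDL): `m ≠ 0`, `m ∈ g`, `Dn m x` for all cusps in `S`. (EXI), then (RAT) with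
`b = R.b i`, `c = R.b j` (`liF`, `eiF`, `phiF`). -/
def Sy_FIN_E : Prop :=
  ∀ A B : ℤ, ME.CaseE A B → ME.TorXE A B → ∀ (n : ℕ) (ι : Type) (R : ME.RepsE A B n ι)
    (g : Ideal (OO A B)) (e : OO A B → ℂ), g ≠ ⊥ → g ≠ ⊤ → MUX.IsEI g e →
    (∀ i, IsCoprime (MUX.sp ((MUX.nI (R.b i) : ℕ) : OO A B)) g) →
    ∀ (σ : ℂ ≃+* ℂ), MUX.FixK A B σ → ∀ (i : ι) (S : Finset (OnePoint ℚ × OnePoint ℚ)),
    ∃ (j : ι) (C : ℂ), IsCj σ (R.L i) (R.L j) ∧ C ≠ 0 ∧
      (∃ x₁ x₂ : OO A B, e x₁ ≠ 0 ∧ e x₂ ≠ 0 ∧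
        C = MUX.nI (R.b i) * σ (e x₁) / (MUX.nI (R.b j) * σ (e x₂))) ∧
      ∀ q ∈ S, σ (MUX.PhiI (R.b i) e q.1 q.2 / R.om i) =
        C * (MUX.PhiI (R.b j) (fun x => σ (e x)) q.1 q.2 / R.om j)

/-- (CON) conjugation of the symbols, for all pairs of cusps at once. THE RESULT FOR THEOREM G.

USES FIN, UNJ. PROOF. `j₀` from (FIN) for `S = ∅`; every `j` of (FIN) is `j₀` (UNJ: `g₂`, `g₃` of `R.L j` are `σ` of those of `R.L i`). Write `P(q) = PhiI (R.b i) e q.1 q.2/om_i`, `P'(q) = PhiI (R.b j₀) (σ ∘ e) q.1 q.2/om_(j₀)`. If `P'(q) = 0` for all `q`: `P(q) = 0` for all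
`q` (FIN for `{q}`), `C = 1`. Otherwise choose `q₀` with `P'(q₀) ≠ 0` and `C = σ(P(q₀))/P'(q₀)`; for `q` apply (FIN) to `{q₀, q}`: its constant is `C` (from `q₀`; `C ≠ 0`). `σ(PhiI .../Om) = σ(P(q)) σ(om_i/Om)` with `Om = R.om R.i0`, and
`P'(q) = (PhiI (R.b j₀) (σ ∘ e) q.1 q.2/Om) (Om/om_(j₀))`: the constant is multiplied by `σ(om_i/Om) Om/om_(j₀) ≠ 0`. -/
def Sy_CON_E : Prop :=
  ∀ A B : ℤ, ME.CaseE A B → ME.TorXE A B → ∀ (n : ℕ) (ι : Type) (R : ME.RepsE A B n ι)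
    (g : Ideal (OO A B)) (e : OO A B → ℂ), g ≠ ⊥ → g ≠ ⊤ → MUX.IsEI g e →
    (∀ i, IsCoprime (MUX.sp ((MUX.nI (R.b i) : ℕ) : OO A B)) g) →
    ∀ (σ : ℂ ≃+* ℂ), MUX.FixK A B σ → ∀ i : ι, MUX.IsEI g (fun x => σ (e x)) ∧
    ∃ (j : ι) (C : ℂ), ME.kapE (R.L j) = σ (ME.kapE (R.L i)) ∧ C ≠ 0 ∧
      ∀ x y : OnePoint ℚ, σ (MUX.PhiI (R.b i) e x y / R.om R.i0) =
        C * (MUX.PhiI (R.b j) (fun x => σ (e x)) x y / R.om R.i0)

/-! ## Algebraicity -/

/-- (MUI) the multiplier of `L_(i0) → L_i`, `b_i = R.b i`: `L_i = mu_i (cjI b_i)⁻¹ L_(i0)`, `mu_i = om_i N(b_i)/om_(i0) = ME.muXE R i`.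

USES ALG, IDL, NIM (by `cqF`). PROOF. `L_(i0) = Om emb O`. `z = Om t`: `mu_i z = om_i N(b_i) t`. If `mu_i z ∈ L_i`, then `N(b_i) t = emb s`, `s ∈ b_i`; for `x ∈ cjI b_i`: `emb (x s) = N(b_i) emb r` (`b_i cjI b_i = (N b_i)`), so `emb x t = emb r`. Conversely
let `emb x t ∈ emb O` for all `x ∈ cjI b_i`. `N(b_i) = Σ s_k x_k`, `s_k ∈ b_i`, `x_k ∈ cjI b_i`, so `N(b_i) t = Σ emb s_k (emb x_k t) ∈ emb b_i` (induction over `Submodule.mul_induction_on`: for `r ∈ b_i cjI b_i`, `emb r t ∈ emb b_i`). -/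
def Sy_MUI_E : Prop :=
  ∀ A B : ℤ, MUX.CQ A B → ∀ (n : ℕ) (ι : Type) (R : ME.RepsE A B n ι) (i : ι),
    MUX.IsQ (MUX.cjI (R.b i)) (R.L R.i0) (R.L i) (ME.muXE R i)

/-- (ALM) the multipliers are algebraic.

USES ALG, IDL (by `cqF`), EXI (with `m = 1`: `IsCj`), MUC, MUU, MUI, Su_AUT (with `F = kk A B`, `emb`.. : `kk A B = ℚ(wC)` is algebraic over `ℚ`: `wC² = A + B wC`). PROOF. For `σ` fixing `k`: `IsCj σ (R.L R.i0) (R.L l)`, `IsCj σ (R.L i) (R.L j)` for some `l, j` (EXI), so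
by (MUI), (MUC) `σ (mu_i)` is a multiplier `IsQ (cjI b_i) (R.L l) (R.L j)`; for every pair `(l, j)` it has at most two values (MUU): `ι` is finite, so the orbit of `mu_i` is finite and `mu_i` is algebraic (AUT). -/
def Sy_ALM_E : Prop :=
  ∀ A B : ℤ, ME.CaseE A B → ME.TorXE A B → ∀ (n : ℕ) (ι : Type) (_ : Finite ι)
    (R : ME.RepsE A B n ι) (i : ι),
    IsAlgebraic ℚ (ME.muXE R i) ∧ IsAlgebraic ℚ (R.om i / R.om R.i0)

/-- (ALP) the values of the symbols are algebraic. THE SECOND RESULT.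

USES FIN, FEC, ALM, Su_AUT. PROOF. `P = PhiI (R.b i) e x y/om_i`. By (FIN) for `S = {(x, y)}` every conjugate `σ P`, `σ` fixing `k`, is `(N(b_i) z₁/(N(b_j) z₂)) (PhiI (R.b j) e' x y/om_j)`, `j ∈ ι` (finite), `e'`, `z₁`, `z₂` in the finite sets of (FEC): the orbit is finite, `P` is algebraic
(AUT with `F = kk A B`; `σ` fixes `kk A B` iff it fixes `wC`). Multiply by `om_i/Om` (ALM). -/
def Sy_ALP_E : Prop :=
  ∀ A B : ℤ, ME.CaseE A B → ME.TorXE A B → ∀ (n : ℕ) (ι : Type) (_ : Finite ι)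
    (R : ME.RepsE A B n ι) (g : Ideal (OO A B)) (e : OO A B → ℂ), g ≠ ⊥ → g ≠ ⊤ →
    MUX.IsEI g e → (∀ i, IsCoprime (MUX.sp ((MUX.nI (R.b i) : ℕ) : OO A B)) g) →
    ∀ r : ℕ, r ≠ 0 → (∀ x, e x ≠ 0 → e x ^ r = 1) → ∀ (i : ι) (x y : OnePoint ℚ),
    IsAlgebraic ℚ (MUX.PhiI (R.b i) e x y / R.om i) ∧
      IsAlgebraic ℚ (MUX.PhiI (R.b i) e x y / R.om R.i0)

/-- (COP) the norms of the `b_i` are prime to the conductor, from `R : RepsE A B n ι`.

PROOF. `nI (R.b i)` is prime to `n`, so to `n^t`: `u nI + v n^t = 1` in `ℤ`, and `n^t ∈ g`. -/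
def Sy_COP_E : Prop :=
  ∀ (A B : ℤ) (n : ℕ) (ι : Type) (R : ME.RepsE A B n ι) (g : Ideal (OO A B)) (t : ℕ),
    ((n : ℕ) : OO A B) ^ t ∈ g → ∀ i, IsCoprime (MUX.sp ((MUX.nI (R.b i) : ℕ) : OO A B)) g

end

end Pool.Agent.MUXY


end
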