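import Mathlib.FieldTheory.Galois.Abelian
import Pool.Agent.MVF.C002
import Pool.Agent.MVF.C008
import Pool.Agent.MVF.C014
import Pool.Agent.MVF.C021
import Pool.Agent.MVF.C025
import Pool.Agent.MVF.C026

/-! Parts: MUX.I_RPR, MUX.I_IAF, MU3.WK7, MU3.W_XXG, MUX.XK1, MU3.A_FEX, MU3.W_FRD, MUX.W_GRB, MUX.W_MEM, MU3.W_PRL, MU3.A_REP, MU3.A_NRM, HB.H_ORN -/

namespace Pool.Agent.HB.ORN
end Pool.Agent.HB.ORN
namespace Pool.Agent.MU3A.FEX
end Pool.Agent.MU3A.FEX
namespace Pool.Agent.MU3A.P_NRM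
end Pool.Agent.MU3A.P_NRM
namespace Pool.Agent.MU3V.PRL
end Pool.Agent.MU3V.PRL
namespace Pool.Agent.MU3V.W_FRD
end Pool.Agent.MU3V.W_FRD
namespace Pool.Agent.MU3V.XXG
end Pool.Agent.MU3V.XXG
namespace Pool.Agent.MUXI.Iaf
end Pool.Agent.MUXI.Iaf
namespace Pool.Agent.MUXI.RPR
end Pool.Agent.MUXI.RPR
namespace Pool.Agent.MUXW.Mem
end Pool.Agent.MUXW.Mem

section

/-!
# MUX, block IX: module RPR (every ray class contains an ideal `x cjI (b i)`)
-/

set_option autoImplicit false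

namespace Pool.Agent.MUXI

open _root_.MU3 _root_.Pool.Agent.MU3 _root_.Pool.Agent.MU3A _root_.Pool.Agent.MU3B _root_.Pool.Agent.RI _root_.Pool.Agent.RID
  _root_.Pool.Agent.MUX _root_.Pool.Agent.MUXE _root_.Pool.Agent.MUXK
open _root_.Pool.Agent.MU3I (w3 zt)

noncomputable section

namespace RPR

variable {A B : ℤ}

lemma cop_of_mem {b : Ideal (OO A B)} {N m : ℕ} (hN : ((N : ℕ) : OO A B) ∈ b)
    (h : N.Coprime m) : IsCoprime b (idl (A := A) (B := B) m) := by
  rw [Ideal.isCoprime_iff_exists]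
  have h1 : IsCoprime (N : ℤ) (m : ℤ) := Nat.isCoprime_iff_coprime.2 h
  obtain ⟨s, t, hst⟩ := h1
  refine ⟨(s : OO A B) * ((N : ℕ) : OO A B), b.mul_mem_left _ hN,
    (t : OO A B) * ((m : ℕ) : OO A B), ?_, ?_⟩
  · exact Ideal.mul_mem_left _ _ (Ideal.mem_span_singleton_self _)
  · have := congrArg (Int.cast : ℤ → OO A B) hst
    push_cast at this
    exact this

end RPR

open _root_.Pool.Agent.MUXI.RPR in
theorem ti_RPR (h1 : Pool.Agent.MUXF.Sx_ALG) (h2 : Pool.Agent.MUXF.Sx_IDL)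
    (h3 : Pool.Agent.MUXF.Sx_NIM) : Si_RPR := by
  intro A B hC n₀ ι R m hm hcop
  have hF := Pool.Agent.MUXY.cqF hC
  obtain ⟨-, e2, e3, -, hdom⟩ := h1 A B hF
  obtain ⟨n1, -, n3, n4⟩ := h3 A B hF
  have hI := h2 A B hF
  have cj : ∀ i, IsCoprime (cjI (R.b i)) (idl (A := A) (B := B) m) := by
    intro i
    obtain ⟨c1, c2, c3, c4⟩ := n3 (R.b i) (R.nl i).b_ne
    obtain ⟨d1, d2, d3, d4⟩ := n3 (cjI (R.b i)) c3
    refine cop_of_mem (N := nI (R.b i)) ?_ (hcop i)
    have c1' : nI (cjI (R.b i)) = nI (R.b i) := c1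
    have d4' : ((nI (cjI (R.b i)) : ℕ) : OO A B) ∈ cjI (R.b i) := d4
    rw [c1'] at d4'
    exact d4'
  refine ⟨fun i x hx => ?_, fun a ha hac => ?_⟩
  · refine IsCoprime.mul_left ?_ (cj i)
    exact (Ideal.isCoprime_span_singleton_iff _ _).2 hx
  · obtain ⟨c1, c2, c3, c4⟩ := n3 a ha
    obtain ⟨i, u, v, hu, hv, huv⟩ := R.surj (cjI a) c3
    have hb := (R.nl i).b_ne
    obtain ⟨hNa, ha2⟩ := hI a ha
    obtain ⟨hNb, hb2⟩ := hI (R.b i) hb
    have hspv : sp v ≠ (⊥ : Ideal (OO A B)) := by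
      rw [Ne, Ideal.span_singleton_eq_bot]
      exact hv
    have k1 : sp v * (a * R.b i) = sp (u * ((nI a : ℕ) : OO A B)) := by
      have q1 : a * (sp u * cjI a) = a * (sp v * R.b i) := by rw [huv]
      have q2 : a * cjI a = sp ((nI a : ℕ) : OO A B) := ha2
      calc sp v * (a * R.b i) = a * (sp v * R.b i) := mul_left_comm _ _ _
        _ = a * (sp u * cjI a) := q1.symm
        _ = sp u * (a * cjI a) := mul_left_comm _ _ _
        _ = sp u * sp ((nI a : ℕ) : OO A B) := by rw [q2]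
        _ = sp (u * ((nI a : ℕ) : OO A B)) := Ideal.span_singleton_mul_span_singleton _ _
    have q3 : u * ((nI a : ℕ) : OO A B) ∈ sp v * (a * R.b i) := by
      rw [k1]
      exact Ideal.mem_span_singleton_self _
    have q3' : u * ((nI a : ℕ) : OO A B) ∈ sp v :=
      (Ideal.mul_le_left : sp v * (a * R.b i) ≤ sp v) q3
    have q3'' : v ∣ u * ((nI a : ℕ) : OO A B) := Ideal.mem_span_singleton.1 q3'
    obtain ⟨y, hy⟩ := q3''
    have k2 : a * R.b i = sp y := by
      have q4 : sp v * (a * R.b i) = sp v * sp y := by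
        rw [k1, hy]
        exact (Ideal.span_singleton_mul_span_singleton _ _).symm
      exact le_antisymm ((n4 (sp v) _ _ hspv).1 q4.le) ((n4 (sp v) _ _ hspv).1 q4.ge)
    have hycop : IsCoprime y (m : OO A B) := by
      have q5 : IsCoprime (a * R.b i) (idl (A := A) (B := B) m) := by
        refine IsCoprime.mul_left hac (cop_of_mem (N := nI (R.b i)) ?_ (hcop i))
        exact (n3 (R.b i) hb).2.2.2
      rw [k2] at q5
      exact (Ideal.isCoprime_span_singleton_iff _ _).1 q5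
    -- the inverse of the norm modulo `m`
    obtain ⟨s, t, hs, hst⟩ : ∃ s t : ℤ, 0 < s ∧ s * (nI (R.b i) : ℤ) + t * (m : ℤ) = 1 := by
      obtain ⟨s, t, hst⟩ : IsCoprime ((nI (R.b i) : ℕ) : ℤ) (m : ℤ) :=
        Nat.isCoprime_iff_coprime.2 (hcop i)
      refine ⟨s + m * (|s| + 1), t - nI (R.b i) * (|s| + 1), ?_, ?_⟩
      · have q6 : (1 : ℤ) ≤ m := by
          have := Nat.pos_of_ne_zero hm
          exact_mod_cast this
        have q7 : 0 ≤ |s| + 1 := by positivity
        have q8 : |s| + 1 ≤ m * (|s| + 1) := by nlinarith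
        have q9 := neg_abs_le s
        linarith
      · linear_combination hst
    have hstO : (s : OO A B) * ((nI (R.b i) : ℕ) : OO A B) + (t : OO A B) * ((m : ℕ) : OO A B)
        = 1 := by
      have := congrArg (Int.cast : ℤ → OO A B) hst
      push_cast at this
      exact this
    have hne : ∀ n : ℤ, n ≠ 0 → (n : OO A B) ≠ 0 := by
      intro n hn h0
      apply hn
      have q10 := (e3 n).1
      rw [h0, (e2 0).1.2 rfl] at q10
      exact_mod_cast q10.symm
    have k3 : sp ((nI (R.b i) : ℕ) : OO A B) * a = sp y * cjI (R.b i) := by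
      have q11 : R.b i * cjI (R.b i) = sp ((nI (R.b i) : ℕ) : OO A B) := hb2
      rw [← k2, ← q11]
      calc R.b i * cjI (R.b i) * a = a * (R.b i * cjI (R.b i)) := mul_comm _ _
        _ = a * R.b i * cjI (R.b i) := (mul_assoc _ _ _).symm
    refine ⟨i, (s : OO A B) * y, ?_, (s : OO A B) * ((nI (R.b i) : ℕ) : OO A B), 1, ?_,
      ?_, ?_, ?_, ?_⟩
    · refine IsCoprime.mul_left ⟨((nI (R.b i) : ℕ) : OO A B), (t : OO A B), ?_⟩ hycop
      rw [← hstO]
      ring
    · refine mul_ne_zero (hne s hs.ne') ?_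
      have := hne ((nI (R.b i) : ℕ) : ℤ) (by exact_mod_cast hNb)
      simpa using this
    · exact one_ne_zero
    · refine (Ideal.isCoprime_span_singleton_iff _ _).2 ⟨1, (t : OO A B), ?_⟩
      rw [one_mul]
      exact hstO
    · rw [Ideal.mem_span_singleton]
      refine ⟨-(t : OO A B), ?_⟩
      linear_combination hstO
    · have q12 : sp ((s : OO A B) * ((nI (R.b i) : ℕ) : OO A B)) =
          sp (s : OO A B) * sp ((nI (R.b i) : ℕ) : OO A B) :=
        (Ideal.span_singleton_mul_span_singleton _ _).symm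
      have q13 : sp ((s : OO A B) * y) = sp (s : OO A B) * sp y :=
        (Ideal.span_singleton_mul_span_singleton _ _).symm
      have q14 : sp (1 : OO A B) = 1 := Ideal.span_singleton_one.trans Ideal.one_eq_top.symm
      rw [q12, q13, q14, mul_assoc, k3, one_mul, mul_assoc]

end

end Pool.Agent.MUXI


end

section

/-!
# MUX, block IX, module IAF: facts on the action through ideals, first part (helper72)
-/

set_option autoImplicit false

namespace Pool.Agent.MUXI

open _root_.MU3 _root_.Pool.Agent.MU3 _root_.Pool.Agent.MU3A _root_.Pool.Agent.MU3B _root_.Pool.Agent.RI _root_.Pool.Agent.RID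
  _root_.Pool.Agent.MUX _root_.Pool.Agent.MUXE _root_.Pool.Agent.MUXK
open _root_.Pool.Agent.MU3I (w3 zt)

noncomputable section

namespace Iaf

variable {A B : ℤ}

/-- `ActI` depends only on the lattice of the target -/
lemma act_congr {σ : ℂ ≃+* ℂ} {m a : Ideal (OO A B)} {L L₁ L₂ : PeriodPair} {mu : ℂ}
    (hl : L₂.lattice = L₁.lattice) (hk : kap L₁ = kap L₂) (h : ActI σ m a L L₂ mu) :
    ActI σ m a L L₁ mu := by
  obtain ⟨h1, h2, -, -⟩ := ta_SCP L₂ L₁ 1 one_ne_zero (fun u => by rw [one_mul, hl])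
  have hx : ∀ z, xn L₁ z = xn L₂ z := by
    intro z
    unfold xn
    have := h1 z
    rw [one_mul, one_pow, div_one] at this
    rw [this]
  have hy : ∀ z, yy L₁ z = yy L₂ z := by
    intro z
    unfold yy
    have := h2 z
    rw [one_mul, one_pow, div_one] at this
    rw [this]
  refine ⟨?_, h.cop, ?_, ?_⟩
  · rw [hk]
    exact h.kap
  · refine ⟨h.isq.1, fun z => ?_⟩
    rw [← hl]
    exact h.isq.2 z
  · intro z hz
    rcases h.act z hz with ⟨i1, i2⟩ | ⟨i1, i2, i3, i4⟩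
    · left
      exact ⟨i1, by rw [← hl]; exact i2⟩
    · right
      refine ⟨i1, by rw [← hl]; exact i2, ?_, ?_⟩
      · rw [hx]
        exact i3
      · rw [hy]
        exact i4

/-- two normalised lattices with the same `kap` are equal -/
lemma lat_eq (hDET : Pool.Agent.MUXU.Su_DET) {b₁ b₂ : Ideal (OO A B)} {L₁ L₂ : PeriodPair}
    {om₁ om₂ : ℂ} (h1 : IsNL b₁ L₁ om₁) (h2 : IsNL b₂ L₂ om₂) (hk : kap L₁ = kap L₂) :
    L₂.lattice = L₁.lattice := by
  have e2 : L₂.g₂ = L₁.g₂ := by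
    unfold kap at hk
    linear_combination (-144 : ℂ) * hk
  have e3 : L₂.g₃ = L₁.g₃ := by
    have i1 := h1.nrm
    have i2 := h2.nrm
    linear_combination (-(1 / 18) : ℂ) * i1 + (1 / 18 : ℂ) * i2 - (1 / 18 : ℂ) * e2
  exact hDET L₂ L₁ e2 e3

lemma cop_mono {a m m' : Ideal (OO A B)} (h : m ≤ m') (hc : IsCoprime a m) : IsCoprime a m' := by
  rw [Ideal.isCoprime_iff_sup_eq] at hc ⊢
  rw [eq_top_iff, ← hc]
  exact sup_le_sup_left h a

end Iaf

open _root_.Pool.Agent.MUXI.Iaf in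
theorem ti_IAF (hDET : Pool.Agent.MUXU.Su_DET) : Si_IAF := by
  intro A B _ hT hex m hm
  refine ⟨?_, ?_, ?_, ?_, ?_, ?_, ?_, ?_⟩
  · intro σ hσ
    obtain ⟨a, hc, ha⟩ := hT.act m hm σ hσ
    exact ⟨a, hσ, hc, ha⟩
  · intro a ha0 ha
    obtain ⟨σ, hσ, h⟩ := hT.surj m hm a ha0 ha
    exact ⟨σ, hσ, ha, h⟩
  · intro σ τ a b h1 h2
    refine ⟨?_, h1.cop.mul_left h2.cop, ?_⟩
    · have i1 := h1.fix
      have i2 := h2.fix
      unfold FixK at *
      rw [RingEquiv.trans_apply, i1, i2]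
    · intro b₀ L om hL
      obtain ⟨b', L', om', mu, hL', hact⟩ := h1.act b₀ L om hL
      obtain ⟨b'', L'', om'', nu, hL'', hact'⟩ := h2.act b' L' om' hL'
      exact ⟨b'', L'', om'', nu * mu, hL'', hT.comp m a b σ τ L L' L'' mu nu hact hact'⟩
  · intro σ a a' h1 h2
    obtain ⟨b, L, om, hL⟩ := hex
    obtain ⟨b₁, L₁, om₁, mu, hL₁, ha1⟩ := h1.act b L om hL
    obtain ⟨b₂, L₂, om₂, mu', hL₂, ha2⟩ := h2.act b L om hL
    have hk : kap L₁ = kap L₂ := by rw [ha1.kap, ha2.kap]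
    have ha3 := act_congr (lat_eq hDET hL₁ hL₂ hk) hk ha2
    obtain ⟨x, y, e1, e2, e3, e4, e5, -⟩ :=
      hT.uniq m a a' σ L L₁ mu mu' hm ⟨b, om, hL⟩ ha1 ha3
    exact ⟨x, y, e2, e3, e1, e4, e5⟩
  · intro σ a a' h1 hc hre
    obtain ⟨x, y, hx, hy, hxm, hxy, he⟩ := hre
    refine ⟨h1.fix, hc, ?_⟩
    intro b L om hL
    obtain ⟨b', L', om', mu, hL', hact⟩ := h1.act b L om hL
    exact ⟨b', L', om', mu * emb x / emb y, hL',
      hT.chg m a a' σ L L' mu x y hm hc hxm hx hy hxy he ⟨b, om, hL⟩ hact⟩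
  · intro σ a h1
    obtain ⟨b, L, om, hL⟩ := hex
    obtain ⟨b', L', om', mu, hL', hact⟩ := h1.act b L om hL
    exact hT.triv m a σ b L L' om mu hm h1.fix hL hact hL'.nrm
  · intro σ a m' hmm h1
    refine ⟨h1.fix, cop_mono hmm h1.cop, ?_⟩
    intro b L om hL
    obtain ⟨b', L', om', mu, hL', hact⟩ := h1.act b L om hL
    refine ⟨b', L', om', mu, hL', hact.kap, cop_mono hmm h1.cop, hact.isq, ?_⟩
    intro z hz
    exact hact.act z (fun x hx => hz x (hmm hx))
  · intro M σ a z hM hle h1 hz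
    obtain ⟨b, L, om, hL⟩ := hex
    obtain ⟨b', L', om', mu, hL', hact⟩ := h1.act b L om hL
    exact hT.zeta M m a σ b L L' om mu hm h1.fix hM hle hL hact z hz

end

end Pool.Agent.MUXI


end

section

/-!
# MU3, block V: the Galois group of `M / D` for `D ≤ M` (helper59)
-/

set_option autoImplicit false

open WeierstrassCurve Polynomial NumberField IsDedekindDomain

namespace Pool.Agent.MU3V

open _root_.MU3 _root_.Pool.Agent.MU3A _root_.Pool.Agent.MU3B _root_.Pool.Agent.MU3C _root_.Pool.Agent.RI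

noncomputable section

variable {A B : ℤ}

/-- the `D`-algebra structure of `F` -/
@[reducible] def algDF {D : IntermediateField ℚ ℂ} {F : IntermediateField (kk A B) ℂ}
    (hs : Sub D F) : Algebra D F :=
  RingHom.toAlgebra
    { toFun := fun y => ⟨y, hs y y.2⟩
      map_one' := rfl
      map_mul' := fun _ _ => rfl
      map_zero' := rfl
      map_add' := fun _ _ => rfl }

lemma towDF {D : IntermediateField ℚ ℂ} (h : kk A B ≤ D) {F : IntermediateField (kk A B) ℂ}
    (hs : Sub D F) : letI := algC h; letI := algDF hs; IsScalarTower (kk A B) D F := by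
  letI := algC h; letI := algDF hs
  exact IsScalarTower.of_algebraMap_eq fun x => rfl

/-- restriction of scalars as a homomorphism -/
def rsHom {D : IntermediateField ℚ ℂ} (h : kk A B ≤ D) {F : IntermediateField (kk A B) ℂ}
    (hs : Sub D F) : letI := algDF hs; (F ≃ₐ[D] F) →* (F ≃ₐ[kk A B] F) :=
  letI := algC h
  letI := algDF hs
  haveI := towDF h hs
  { toFun := fun σ => AlgEquiv.restrictScalars (kk A B) σ
    map_one' := rfl
    map_mul' := fun _ _ => rfl }

lemma rsHom_apply {D : IntermediateField ℚ ℂ} (h : kk A B ≤ D) {F : IntermediateField (kk A B) ℂ}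
    (hs : Sub D F) : letI := algDF hs; ∀ (σ : F ≃ₐ[D] F) (x : F), rsHom h hs σ x = σ x :=
  fun _ _ => rfl

lemma rsHom_mem {D : IntermediateField ℚ ℂ} (h : kk A B ≤ D) {F : IntermediateField (kk A B) ℂ}
    (hs : Sub D F) : letI := algDF hs; ∀ (σ : F ≃ₐ[D] F), rsHom h hs σ ∈ GD h F := by
  letI := algDF hs
  intro σ y hD hy
  exact σ.commutes ⟨y, hD⟩

lemma rsHom_surj {D : IntermediateField ℚ ℂ} (h : kk A B ≤ D) {F : IntermediateField (kk A B) ℂ}
    (hs : Sub D F) : letI := algDF hs; ∀ τ ∈ GD h F, ∃ σ : F ≃ₐ[D] F, rsHom h hs σ = τ := by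
  letI := algDF hs
  intro τ hτ
  exact ⟨{ τ.toRingEquiv with commutes' := fun y => hτ y y.2 _ }, rfl⟩

lemma rsHom_inj {D : IntermediateField ℚ ℂ} (h : kk A B ≤ D) {F : IntermediateField (kk A B) ℂ}
    (hs : Sub D F) : letI := algDF hs; Function.Injective (rsHom h hs) := by
  letI := algDF hs
  intro σ τ e
  apply AlgEquiv.ext
  intro x
  rw [← rsHom_apply h hs σ x, ← rsHom_apply h hs τ x, e]

/-- the unit of `O/lam` attached to an automorphism -/
def bHom {D : IntermediateField ℚ ℂ} (h : kk A B ≤ D) {L : PeriodPair} {m lam : OO A B}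
    (hs : Sub D (TF L (m * lam)))
    (ρ : (TF L (m * lam) ≃ₐ[kk A B] TF L (m * lam)) →* (OO A B ⧸ Ideal.span {m * lam})ˣ) :
    letI := algDF hs
    (TF L (m * lam) ≃ₐ[D] TF L (m * lam)) →* (OO A B ⧸ Ideal.span {lam})ˣ :=
  letI := algDF hs
  ((Units.map (rd (dvd_mul_left lam m) : (OO A B ⧸ Ideal.span {m * lam}) →*
      (OO A B ⧸ Ideal.span {lam}))).comp ρ).comp (rsHom h hs)

/-- the unit of `O/m` attached to an automorphism -/
def aHom {D : IntermediateField ℚ ℂ} (h : kk A B ≤ D) {L : PeriodPair} {m lam : OO A B}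
    (hs : Sub D (TF L (m * lam)))
    (ρ : (TF L (m * lam) ≃ₐ[kk A B] TF L (m * lam)) →* (OO A B ⧸ Ideal.span {m * lam})ˣ) :
    letI := algDF hs
    (TF L (m * lam) ≃ₐ[D] TF L (m * lam)) →* (OO A B ⧸ Ideal.span {m})ˣ :=
  letI := algDF hs
  ((Units.map (rd (dvd_mul_right m lam) : (OO A B ⧸ Ideal.span {m * lam}) →*
      (OO A B ⧸ Ideal.span {m}))).comp ρ).comp (rsHom h hs)

section
variable (h : Case A B) {L : PeriodPair} {Om : ℂ} (hL : IsCM A B L Om) {m lam : OO A B}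
  (hm : m ≠ 0) (hlam : lam ≠ 0) (hmz : mz A B ∣ m) (hcop : IsCoprime m lam)
  {D : IntermediateField ℚ ℂ} (hk : kk A B ≤ D) (hD : Sub D (TF L m))
  (hs : Sub D (TF L (m * lam)))
  {ρ : (TF L (m * lam) ≃ₐ[kk A B] TF L (m * lam)) →* (OO A B ⧸ Ideal.span {m * lam})ˣ}
  (hρi : Function.Injective ρ)
  (hρ : ∀ (σ : TF L (m * lam) ≃ₐ[kk A B] TF L (m * lam)) (x : OO A B), Act L (_root_.Pool.Agent.MU3A.em σ) (m * lam) x ↔
        ((ρ σ : (OO A B ⧸ Ideal.span {m * lam})ˣ) : OO A B ⧸ Ideal.span {m * lam}) =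
          cls (m * lam) x)

include h hL hm hlam hmz hcop hD hρi hρ in
/-- the bijection `Gal(M / D) → XX(m) × (O/lam)ˣ` -/
theorem bij [IsDomain (OO A B)] (hXXM : Sw_XXM) (hFIB : Sw_FIB) : letI := algDF hs
    ∃ α : (TF L (m * lam) ≃ₐ[D] TF L (m * lam)) →
      XX L m hk (letI := algC hk; (1 : D ≃ₐ[kk A B] D)),
      (∀ σ, ((α σ : XX L m hk _) : OO A B ⧸ Ideal.span {m}) =
        ((aHom hk hs ρ σ : (OO A B ⧸ Ideal.span {m})ˣ) : OO A B ⧸ Ideal.span {m})) ∧
      Function.Bijective (fun σ => (α σ, bHom hk hs ρ σ)) := by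
  letI := algDF hs
  have hmem := EE2_mem hXXM hFIB h hL hm hlam hmz hk hD hρ
  have hbij := EE2_bij hXXM hFIB h hL hm hlam hmz hcop hk hD hρi hρ hmem
  let γ : (TF L (m * lam) ≃ₐ[D] TF L (m * lam)) → GD hk (TF L (m * lam)) :=
    fun σ => ⟨rsHom hk hs σ, rsHom_mem hk hs σ⟩
  have hγ : Function.Bijective γ := by
    constructor
    · intro σ τ e
      exact rsHom_inj hk hs (congrArg Subtype.val e)
    · rintro ⟨τ, hτ⟩
      obtain ⟨σ, hσ⟩ := rsHom_surj hk hs τ hτ
      exact ⟨σ, Subtype.ext hσ⟩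
  refine ⟨fun σ => (EE2 hk (ρ := ρ) hmem (γ σ)).1, fun σ => rfl, ?_⟩
  exact hbij.comp hγ

end

end

end Pool.Agent.MU3V


end

section

/-!
# MU3, block V, module XXG: `XX` and the group structure
-/

set_option autoImplicit false

open WeierstrassCurve Polynomial NumberField IsDedekindDomain

namespace Pool.Agent.MU3V

open _root_.MU3 _root_.Pool.Agent.MU3A _root_.Pool.Agent.MU3B _root_.Pool.Agent.MU3C _root_.Pool.Agent.RI

noncomputable section

namespace XXG

/-- abstract form: a subfield of a finite abelian extension -/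
theorem abs_ext {k D F : Type} [Field k] [Field D] [Field F] [Algebra k D] [Algebra k F]
    [FiniteDimensional k F] [IsGalois k F] (hc : ∀ σ τ : F ≃ₐ[k] F, σ * τ = τ * σ)
    (f : D →ₐ[k] F) :
    (∀ σ : F ≃ₐ[k] F, ∃ τ : D ≃ₐ[k] D, ∀ y, f (τ y) = σ (f y)) ∧
    ∀ τ : D ≃ₐ[k] D, ∃ σ : F ≃ₐ[k] F, ∀ y, f (τ y) = σ (f y) := by
  let _ : Algebra D F := f.toRingHom.toAlgebra
  have _ := Pool.Agent.FX.tower k D F (fun x => (f.commutes x).symm)
  have _ : IsAbelianGalois k F := { toIsGalois := inferInstance, is_comm := ⟨hc⟩ }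
  have _ : IsAbelianGalois k D := IsAbelianGalois.of_algHom f
  have hcomm : ∀ (σ : F ≃ₐ[k] F) (y : D), f (σ.restrictNormal D y) = σ (f y) := fun σ y =>
    AlgEquiv.restrictNormal_commutes σ D y
  refine ⟨fun σ => ⟨σ.restrictNormal D, hcomm σ⟩, fun τ => ?_⟩
  obtain ⟨σ, hσ⟩ := AlgEquiv.restrictNormalHom_surjective (F := k) (K₁ := D) F τ
  refine ⟨σ, fun y => ?_⟩
  rw [← hcomm σ y, ← hσ]
  rfl

/-- the inclusion as a map of algebras -/
def incl {A B : ℤ} {D : IntermediateField ℚ ℂ} (h : kk A B ≤ D)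
    {F : IntermediateField (kk A B) ℂ} (hs : Sub D F) :
    letI := algC h
    D →ₐ[kk A B] F :=
  letI := algC h
  { toFun := fun y => ⟨y, hs y y.2⟩
    map_one' := rfl
    map_mul' := fun _ _ => rfl
    map_zero' := rfl
    map_add' := fun _ _ => rfl
    commutes' := fun _ => rfl }

end XXG

open _root_.Pool.Agent.MU3V.XXG in
theorem tw_XXG (h1 : Sw_XXM) (h2 : Sa_ACT) (h3 : Sa_NRM) (h4 : Sa_GAL) : Sw_XXG := by
  intro A B L Om hcase hCM m hm D h hs
  let _ := algC h
  obtain ⟨a1, a2, a3, a4, a5, a6, a7, a8⟩ := h2 A B L Om hcase hCM m hm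
  obtain ⟨n1, n2⟩ := h3 A B L Om hcase hCM m hm
  have hXX := h1 A B L Om hcase hCM m hm D h
  obtain ⟨e1, e2⟩ := abs_ext a6 (incl h hs)
  have hext : ∀ (τ : D ≃ₐ[kk A B] D) (σ : TF L m ≃ₐ[kk A B] TF L m),
      Ext1 h τ σ ↔ ∀ y : D, incl h hs (τ y) = σ (incl h hs y) := by
    intro τ σ
    constructor
    · intro hE y
      exact Subtype.ext (hE y (hs y y.2)).symm
    · intro hE y hy
      exact (congrArg Subtype.val (hE y)).symm
  refine ⟨?_, ?_, ?_, ?_⟩
  · intro σ
    obtain ⟨τ, hτ⟩ := e1 σ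
    exact ⟨τ, (hext τ σ).2 hτ⟩
  · intro τ
    obtain ⟨σ, hσ⟩ := e2 τ
    obtain ⟨b, hb⟩ := h4 A B L Om hcase hCM m hm (TF L m) le_rfl (_root_.Pool.Agent.MU3A.em σ)
    exact ⟨σ, b, hb, (hext τ σ).2 hσ⟩
  · intro σ b x τ τ' hb hE
    rw [hXX τ x, hXX (τ' * τ) (b * x)]
    constructor
    · rintro ⟨σ', hx, hE'⟩
      refine ⟨σ * σ', a4 _ σ σ' b x le_rfl hb hx, ?_⟩
      rw [hext] at hE hE' ⊢
      intro y
      rw [AlgEquiv.mul_apply, AlgEquiv.mul_apply, hE, hE']
    · rintro ⟨σ', hx, hE'⟩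
      -- the inverse of `σ` as a power
      have hpow : ∀ n : ℕ, Act L (_root_.Pool.Agent.MU3A.em (σ ^ n)) m (b ^ n) := by
        intro n
        induction n with
        | zero =>
          rw [pow_zero, pow_zero]
          exact a7 _ le_rfl
        | succ n ih =>
          rw [pow_succ, pow_succ]
          exact a4 _ _ _ _ _ le_rfl ih hb
      obtain ⟨n, hn, hn1⟩ : ∃ n : ℕ, 0 < n ∧ σ ^ n = 1 :=
        ⟨orderOf σ, orderOf_pos σ, pow_orderOf_eq_one σ⟩
      obtain ⟨j, rfl⟩ : ∃ j, n = j + 1 := ⟨n - 1, by omega⟩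
      have hinv : σ ^ j * σ = 1 := by rw [← pow_succ]; exact hn1
      have hd : m ∣ b ^ (j + 1) - 1 := by
        have k1 := hpow (j + 1)
        rw [hn1] at k1
        exact a1 _ _ _ _ le_rfl k1 (a7 _ le_rfl)
      have k2 := a4 _ (σ ^ j) σ' (b ^ j) (b * x) le_rfl (hpow j) hx
      have k3 : m ∣ b ^ j * (b * x) - x := by
        obtain ⟨y, hy⟩ := hd
        refine ⟨y * x, ?_⟩
        linear_combination x * hy
      refine ⟨σ ^ j * σ', a2 _ _ _ _ k3 k2, ?_⟩
      rw [hext] at hE hE' ⊢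
      intro y
      rw [AlgEquiv.mul_apply, ← hE' y, AlgEquiv.mul_apply, hE, ← AlgEquiv.mul_apply, hinv]
      rfl
  · intro x τ τ' hx hx'
    rw [hXX τ x] at hx
    rw [hXX τ' x] at hx'
    obtain ⟨σ, k1, k2⟩ := hx
    obtain ⟨σ', k3, k4⟩ := hx'
    have k5 : _root_.Pool.Agent.MU3A.em σ = _root_.Pool.Agent.MU3A.em σ' := a5 _ _ x k1 k3
    have k6 : σ = σ' := by
      apply AlgEquiv.ext
      intro z
      exact Subtype.ext (DFunLike.congr_fun k5 z)
    subst k6
    rw [hext] at k2 k4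
    apply AlgEquiv.ext
    intro y
    have k7 : incl h hs (τ y) = incl h hs (τ' y) := (k2 y).trans (k4 y).symm
    exact Subtype.ext (congrArg (fun z : TF L m => (z : ℂ)) k7)

end

end Pool.Agent.MU3V


end

section

/-!
# MUX, block W, for (KOL): restriction of automorphisms, the group `Gal(F_(m lam) / D)` (helper59)
-/

set_option autoImplicit false

open WeierstrassCurve Polynomial NumberField IsDedekindDomain

namespace Pool.Agent.MUXW

open _root_.MU3 _root_.Pool.Agent.MU3A _root_.Pool.Agent.MU3B _root_.Pool.Agent.MU3C _root_.Pool.Agent.RI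
open _root_.Pool.Agent.MUX _root_.Pool.Agent.MUXU
open _root_.Pool.Agent.MU3V (cls Sub GD algDF towDF rsHom rsHom_apply rsHom_mem rsHom_surj rsHom_inj
  mem_GD rd rd_cls cls_eq_iff cls_mul cls_one cls_out isUnit_cls coprime_of_isUnit)
open _root_.Pool.Agent.MUXV (GR InK tX CMO Ovr)

noncomputable section

/-! ### Restriction to a subfield -/

/-- automorphisms of an abelian extension `M` restrict to `F ≤ M`, and those of `F` extend to `M` -/
theorem res_exists {k : IntermediateField ℚ ℂ} {F M : IntermediateField k ℂ} (hle : F ≤ M)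
    (hfd : FiniteDimensional k M) (hg : IsGalois k M)
    (hc : ∀ σ τ : M ≃ₐ[k] M, σ * τ = τ * σ) :
    (∀ σ : M ≃ₐ[k] M, ∃ s : F ≃ₐ[k] F, ∀ (x : F) (hx : (x : ℂ) ∈ M),
      ((σ ⟨x, hx⟩ : M) : ℂ) = (s x : ℂ)) ∧
    ∀ s : F ≃ₐ[k] F, ∃ σ : M ≃ₐ[k] M, ∀ (x : F) (hx : (x : ℂ) ∈ M),
      ((σ ⟨x, hx⟩ : M) : ℂ) = (s x : ℂ) := by
  obtain ⟨h1, h2⟩ := Pool.Agent.MU3V.XXG.abs_ext hc (IntermediateField.inclusion hle)
  constructor
  · intro σ
    obtain ⟨s, hs⟩ := h1 σ
    exact ⟨s, fun x hx => (congrArg Subtype.val (hs x)).symm⟩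
  · intro s
    obtain ⟨σ, hσ⟩ := h2 s
    exact ⟨σ, fun x hx => (congrArg Subtype.val (hσ x)).symm⟩

lemma res_unique {k : IntermediateField ℚ ℂ} {F M : IntermediateField k ℂ} (hle : F ≤ M)
    {σ : M ≃ₐ[k] M} {s t : F ≃ₐ[k] F}
    (hs : ∀ (x : F) (hx : (x : ℂ) ∈ M), ((σ ⟨x, hx⟩ : M) : ℂ) = (s x : ℂ))
    (ht : ∀ (x : F) (hx : (x : ℂ) ∈ M), ((σ ⟨x, hx⟩ : M) : ℂ) = (t x : ℂ)) : s = t := by
  apply AlgEquiv.ext
  intro x
  exact Subtype.ext ((hs x (hle x.2)).symm.trans (ht x (hle x.2)))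

variable {A B : ℤ}

lemma sp_le {m N : OO A B} (h : m ∣ N) : (sp N : Ideal (OO A B)) ≤ sp m :=
  Ideal.span_singleton_le_span_singleton.2 h

lemma RF_mono {I J : Ideal (OO A B)} (h : J ≤ I) :
    (RF I : IntermediateField (kk A B) ℂ) ≤ RF J := by
  unfold RF
  apply IntermediateField.adjoin.mono
  rintro c ⟨b, L, om, hL, hc⟩
  refine ⟨b, L, om, hL, ?_⟩
  rcases hc with hc | ⟨z, hz, hzL, hc⟩
  · exact Or.inl hc
  · exact Or.inr ⟨z, fun x hx => hz x (h hx), hzL, hc⟩

lemma RF_dvd {m N : OO A B} (h : m ∣ N) :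
    (RF (sp m) : IntermediateField (kk A B) ℂ) ≤ RF (sp N) := RF_mono (sp_le h)

/-- a group element trivial on `D`, seen in `Gal(F/k)`, is trivial on `H` if `H ≤ D` -/
lemma trH_of_GD {D : IntermediateField ℚ ℂ} (hk : kk A B ≤ D) (hH : HasH A B D)
    {F : IntermediateField (kk A B) ℂ} {σ : F ≃ₐ[kk A B] F} (hσ : σ ∈ GD hk F) : TrH σ := by
  intro x hx
  exact hσ x (hH x hx) x.2

section
variable (hCQ : CQ A B) {L : PeriodPair} {Om : ℂ} (hL : IsNL (⊤ : Ideal (OO A B)) L Om)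
  {m lam : OO A B} (hm : m ≠ 0) (hlam : lam ≠ 0) (hm2 : ¬ m ∣ 2) (hcop : IsCoprime m lam)
  {D : IntermediateField ℚ ℂ} (hk : kk A B ≤ D) (hH : HasH A B D)
  (hD : _root_.Pool.Agent.MU3V.Sub D (RF (sp m) : IntermediateField (kk A B) ℂ))
  (hs : _root_.Pool.Agent.MU3V.Sub D (RF (sp (m * lam)) : IntermediateField (kk A B) ℂ))

include hCQ hL hm hlam hm2 hcop hH hD in
/-- the group `Gal(F_(m lam) / D)` is in bijection with `Gal(F_m/D) × (O/lam)ˣ` -/
theorem bijX [IsDomain (OO A B)] (hACM : Sy_ACM) (hKER : Sy_KER) (T : TorX A B)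
    {xs : GD hk (RF (sp m) : IntermediateField (kk A B) ℂ) → OO A B}
    (hxs : ∀ s : GD hk (RF (sp m) : IntermediateField (kk A B) ℂ),
      ActH (s : (RF (sp m) : IntermediateField (kk A B) ℂ) ≃ₐ[kk A B] RF (sp m)) m (xs s)) :
    letI := algDF hs
    ∃ (res : ((RF (sp (m * lam)) : IntermediateField (kk A B) ℂ) ≃ₐ[D] RF (sp (m * lam))) →
        GD hk (RF (sp m) : IntermediateField (kk A B) ℂ))
      (b : ((RF (sp (m * lam)) : IntermediateField (kk A B) ℂ) ≃ₐ[D] RF (sp (m * lam))) → OO A B)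
      (bu : ((RF (sp (m * lam)) : IntermediateField (kk A B) ℂ) ≃ₐ[D] RF (sp (m * lam))) →
        (OO A B ⧸ Ideal.span {lam})ˣ),
      (∀ σ (x : (RF (sp m) : IntermediateField (kk A B) ℂ))
        (hx : (x : ℂ) ∈ (RF (sp (m * lam)) : IntermediateField (kk A B) ℂ)),
        ((rsHom hk hs σ ⟨x, hx⟩ : (RF (sp (m * lam)) : IntermediateField (kk A B) ℂ)) : ℂ) =
          ((res σ).1 x : ℂ)) ∧
      (∀ σ, ActH (rsHom hk hs σ) (m * lam) (b σ)) ∧ (∀ σ, m ∣ b σ - xs (res σ)) ∧
      (∀ σ, ((bu σ : (OO A B ⧸ Ideal.span {lam})ˣ) : OO A B ⧸ Ideal.span {lam}) =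
        cls lam (b σ)) ∧
      Function.Bijective (fun σ => (res σ, bu σ)) ∧
      (∀ (p : ℕ) (ψ : (OO A B ⧸ Ideal.span {lam})ˣ →* Multiplicative (ZMod p)), ψ (-1) = 1 →
        ∃ χ : ((RF (sp (m * lam)) : IntermediateField (kk A B) ℂ) ≃ₐ[D] RF (sp (m * lam))) →*
          Multiplicative (ZMod p), ∀ σ, χ σ = ψ (bu σ)) := by
  letI := algDF hs
  have hN : m * lam ≠ 0 := mul_ne_zero hm hlam
  obtain ⟨c1, c2, c3, c4, c5, c6, c7, c8⟩ := hACM A B hCQ L Om hL (m * lam) hN
  obtain ⟨d1, d2, d3, d4, d5, d6, d7, d8⟩ := hACM A B hCQ L Om hL m hm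
  obtain ⟨k1, k2⟩ := hKER A B hCQ T (m * lam) hN
  have hbotN : (sp (m * lam) : Ideal (OO A B)) ≠ ⊥ := by
    rw [Ne, Ideal.span_singleton_eq_bot]; exact hN
  have hle : (RF (sp m) : IntermediateField (kk A B) ℂ) ≤ RF (sp (m * lam)) :=
    RF_dvd (dvd_mul_right m lam)
  obtain ⟨r1, r2⟩ := res_exists hle (T.fin _ hbotN) (T.gal _ hbotN) (T.comm _ hbotN)
  -- restriction
  have hres : ∀ σ : (RF (sp (m * lam)) : IntermediateField (kk A B) ℂ) ≃ₐ[D] RF (sp (m * lam)),
      ∃ s : GD hk (RF (sp m) : IntermediateField (kk A B) ℂ),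
        ∀ (x : (RF (sp m) : IntermediateField (kk A B) ℂ))
        (hx : (x : ℂ) ∈ (RF (sp (m * lam)) : IntermediateField (kk A B) ℂ)),
        ((rsHom hk hs σ ⟨x, hx⟩ : (RF (sp (m * lam)) : IntermediateField (kk A B) ℂ)) : ℂ) =
          (s.1 x : ℂ) := by
    intro σ
    obtain ⟨s, hs'⟩ := r1 (rsHom hk hs σ)
    refine ⟨⟨s, ?_⟩, hs'⟩
    intro y hyD hyF
    apply Subtype.ext
    rw [← hs' ⟨y, hyF⟩ (hle hyF)]
    exact congrArg Subtype.val (rsHom_mem hk hs σ y hyD (hle hyF))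
  choose res hres using hres
  have hact : ∀ σ : (RF (sp (m * lam)) : IntermediateField (kk A B) ℂ) ≃ₐ[D] RF (sp (m * lam)),
      ∃ b : OO A B, ActH (rsHom hk hs σ) (m * lam) b ∧ m ∣ b - xs (res σ) := by
    intro σ
    obtain ⟨a, ha⟩ := k1 (rsHom hk hs σ) (trH_of_GD hk hH (rsHom_mem hk hs σ))
    have h1 : ActH (res σ).1 m a := c8 m _ _ a (dvd_mul_right m lam) (hres σ) ha
    rcases d1 _ _ _ _ le_rfl h1 (hxs (res σ)) with h2 | h2
    · exact ⟨a, ha, h2⟩
    · refine ⟨-a, c2 _ _ a (-a) (Or.inr (by rw [add_neg_cancel]; exact dvd_zero _)) ha, ?_⟩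
      have : -a - xs (res σ) = -(a + xs (res σ)) := by ring
      rw [this]
      exact (dvd_neg.2 h2)
  choose b hb hbm using hact
  have hbu : ∀ σ : (RF (sp (m * lam)) : IntermediateField (kk A B) ℂ) ≃ₐ[D] RF (sp (m * lam)),
      IsUnit (cls lam (b σ)) := fun σ => isUnit_cls ((hb σ).cop.of_mul_right_right)
  refine ⟨res, b, fun σ => (hbu σ).unit, hres, hb, hbm, fun σ => rfl, ⟨?_, ?_⟩, ?_⟩
  · -- injective
    intro σ τ e
    have e1 : res σ = res τ := congrArg Prod.fst e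
    have e2 : (hbu σ).unit = (hbu τ).unit := congrArg Prod.snd e
    have e3 : cls lam (b σ) = cls lam (b τ) := congrArg Units.val e2
    rw [cls_eq_iff] at e3
    have e4 : m ∣ b σ - b τ := by
      have h1 := hbm σ
      have h2 := hbm τ
      rw [e1] at h1
      have := dvd_sub h1 h2
      rwa [sub_sub_sub_cancel_right] at this
    have e5 : m * lam ∣ b τ - b σ := by
      have := hcop.mul_dvd e4 e3
      rw [← neg_sub]
      exact dvd_neg.2 this
    have e6 := c2 _ _ (b τ) (b σ) (Or.inl e5) (hb τ)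
    exact rsHom_inj hk hs (c5 _ _ _ (hb σ) e6)
  · -- surjective
    rintro ⟨s, r⟩
    obtain ⟨r0, hr⟩ : ∃ r0, (r : OO A B ⧸ Ideal.span {lam}) = cls lam r0 :=
      ⟨_, (cls_out _).symm⟩
    obtain ⟨u, v, e⟩ := id hcop
    set y := r0 * (u * m) + xs s * (v * lam) with hy
    have h1 : m ∣ y - xs s := ⟨u * (r0 - xs s), by rw [hy]; linear_combination xs s * e⟩
    have h2 : lam ∣ y - r0 := ⟨v * (xs s - r0), by rw [hy]; linear_combination r0 * e⟩
    have y1 : IsCoprime y m := by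
      apply coprime_of_isUnit
      rw [(cls_eq_iff).2 h1]
      exact isUnit_cls (hxs s).cop
    have y2 : IsCoprime y lam := by
      apply coprime_of_isUnit
      rw [(cls_eq_iff).2 h2, ← hr]
      exact r.isUnit
    obtain ⟨σ₀, hσ₀⟩ := k2 y (y1.mul_right y2)
    obtain ⟨s₀, hs₀⟩ := r1 σ₀
    have a1 : ActH s₀ m y := c8 m _ _ y (dvd_mul_right m lam) hs₀ hσ₀
    have h1' : m ∣ xs s - y := by rw [← neg_sub]; exact dvd_neg.2 h1
    have a2 : ActH s.1 m y := d2 _ _ (xs s) y (Or.inl h1') (hxs s)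
    have a3 : s₀ = s.1 := d5 _ _ _ a1 a2
    have hmem : σ₀ ∈ GD hk (RF (sp (m * lam)) : IntermediateField (kk A B) ℂ) := by
      intro z hzD hzN
      apply Subtype.ext
      have := hs₀ ⟨z, hD z hzD⟩ hzN
      rw [this, a3]
      exact congrArg Subtype.val (s.2 z hzD (hD z hzD))
    obtain ⟨σ, hσ⟩ := rsHom_surj hk hs σ₀ hmem
    have hrs : res σ = s := by
      apply Subtype.ext
      rw [← a3]
      refine res_unique hle (hres σ) ?_
      rw [hσ]
      exact hs₀
    have hNy : m * lam ∣ b σ - y := by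
      have hb' := hb σ
      rw [hσ] at hb'
      rcases c1 _ _ _ _ le_rfl hb' hσ₀ with h3 | h3
      · exact h3
      · exfalso
        have h4 : m ∣ b σ + y := (dvd_mul_right m lam).trans h3
        have h5 := hbm σ
        rw [hrs] at h5
        have h6 : m ∣ 2 * xs s := by
          have h7 := dvd_sub (dvd_sub h4 h5) h1
          have e7 : b σ + y - (b σ - xs s) - (y - xs s) = 2 * xs s := by ring
          rwa [e7] at h7
        exact hm2 ((hxs s).cop.symm.dvd_of_dvd_mul_right h6)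
    refine ⟨σ, Prod.ext hrs (Units.ext ?_)⟩
    show cls lam (b σ) = r
    rw [hr, cls_eq_iff]
    have h8 := dvd_add ((dvd_mul_left lam m).trans hNy) h2
    have e8 : b σ - y + (y - r0) = b σ - r0 := by ring
    rwa [e8] at h8
  · -- the character
    intro p ψ hψ
    have hmul : ∀ σ τ : (RF (sp (m * lam)) : IntermediateField (kk A B) ℂ) ≃ₐ[D]
        RF (sp (m * lam)), (hbu (σ * τ)).unit = (hbu σ).unit * (hbu τ).unit ∨
        (hbu (σ * τ)).unit = -1 * ((hbu σ).unit * (hbu τ).unit) := by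
      intro σ τ
      have e1 := c4 _ _ _ _ _ le_rfl (hb σ) (hb τ)
      rw [← map_mul] at e1
      rcases c1 _ _ _ _ le_rfl (hb (σ * τ)) e1 with h1 | h1
      · left
        apply Units.ext
        show cls lam (b (σ * τ)) = cls lam (b σ) * cls lam (b τ)
        rw [← cls_mul, cls_eq_iff]
        exact (dvd_mul_left lam m).trans h1
      · right
        apply Units.ext
        show cls lam (b (σ * τ)) = -1 * (cls lam (b σ) * cls lam (b τ))
        have e2 : (-1 : OO A B ⧸ Ideal.span {lam}) = cls lam (-1) := by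
          unfold cls; rw [map_neg, map_one]
        rw [e2, ← cls_mul, ← cls_mul, cls_eq_iff]
        have : b (σ * τ) - -1 * (b σ * b τ) = b (σ * τ) + b σ * b τ := by ring
        rw [this]
        exact (dvd_mul_left lam m).trans h1
    have key : ∀ σ τ : (RF (sp (m * lam)) : IntermediateField (kk A B) ℂ) ≃ₐ[D]
        RF (sp (m * lam)), ψ (hbu (σ * τ)).unit = ψ (hbu σ).unit * ψ (hbu τ).unit := by
      intro σ τ
      rcases hmul σ τ with h1 | h1
      · rw [h1, map_mul]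
      · rw [h1, map_mul, hψ, one_mul, map_mul]
    have hone : ψ (hbu 1).unit = 1 := by
      have := key 1 1
      rw [mul_one] at this
      exact left_eq_mul.1 this
    exact ⟨{ toFun := fun σ => ψ (hbu σ).unit, map_one' := hone, map_mul' := key }, fun σ => rfl⟩

end

end

end Pool.Agent.MUXW


end

section

/-!
# MU3, block A: existence of Frobenius automorphisms at degree one primes
-/

set_option autoImplicit false

namespace Pool.Agent.MU3A

open _root_.MU3 _root_.Pool.Agent.MU3B NumberField Ideal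

namespace FEX

lemma nm_mul' {A B : ℤ} (x y : OO A B) : nm (x * y) = nm x * nm y := by
  simp only [nm, QuadraticAlgebra.re_mul, QuadraticAlgebra.im_mul]
  ring

lemma mul_cj {A B : ℤ} (x : OO A B) :
    x * (⟨x.re + B * x.im, -x.im⟩ : OO A B) = ((nm x : ℤ) : OO A B) := by
  apply QuadraticAlgebra.ext
  · simp only [nm, QuadraticAlgebra.re_mul, QuadraticAlgebra.re_intCast]
    simp
    ring
  · simp only [nm, QuadraticAlgebra.im_mul, QuadraticAlgebra.im_intCast]
    ring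

/-- existence of the Frobenius automorphism -/
lemma exists_frob (k F : Type) [Field k] [NumberField k] [Field F] [NumberField F] [Algebra k F]
    [IsGalois k F] (w : Ideal (𝓞 F)) (hw : w.IsPrime) (hb : w ≠ ⊥) (q : ℕ)
    (hq : Nat.card (𝓞 k ⧸ w.under (𝓞 k)) = q) :
    ∃ σ : F ≃ₐ[k] F, ∀ x : 𝓞 F, ∃ y ∈ w, (y : F) = σ x - (x : F) ^ q := by
  have hwfin : Finite (𝓞 F ⧸ w) := Ideal.finiteQuotientOfFreeOfNeBot w hb
  obtain ⟨σ, hσ⟩ := IsArithFrobAt.exists_of_isInvariant (𝓞 k) Gal(F/k) w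
  refine ⟨σ, fun x => ⟨_, hσ x, ?_⟩⟩
  rw [hq]
  change algebraMap (𝓞 F) F (_ - _) = _
  rw [map_sub, map_pow]
  rfl

lemma card_quot {S : Type} [CommRing S] (P : Ideal S) (hP : P ≠ ⊤) (q : ℕ) (hq : q.Prime)
    (h0 : (q : S) ∈ P) (hs : ∀ x : S, ∃ n : ℤ, x - n ∈ P) : Nat.card (S ⧸ P) = q := by
  have hn : Nontrivial (S ⧸ P) := Ideal.Quotient.nontrivial_iff.mpr hP
  have h1 : ((q : ℕ) : S ⧸ P) = 0 := by
    have := Ideal.Quotient.eq_zero_iff_mem.mpr h0
    simpa using this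
  have hc : CharP (S ⧸ P) q := (CharP.charP_iff_prime_eq_zero hq).mpr h1
  have hb : Function.Bijective (ZMod.castHom (dvd_refl q) (S ⧸ P)) := by
    refine ⟨ZMod.castHom_injective _, fun z => ?_⟩
    obtain ⟨x, rfl⟩ := Ideal.Quotient.mk_surjective z
    obtain ⟨n, hn⟩ := hs x
    refine ⟨(n : ZMod q), ?_⟩
    rw [map_intCast]
    have h2 := Ideal.Quotient.eq.mpr hn
    rw [h2]
    simp
  have := Nat.card_congr (Equiv.ofBijective _ hb)
  rw [← this, Nat.card_zmod]

/-- existence of a prime ideal with Frobenius automorphism, in terms of a surjective ring homomorphism -/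
lemma exists_all (k F : Type) [Field k] [NumberField k] [Field F] [NumberField F] [Algebra k F]
    [IsGalois k F] {A B : ℤ} (φ : OO A B →+* 𝓞 k) (hφ : Function.Bijective φ)
    (lam : OO A B) (q : ℕ) (hq : q.Prime) (hlam : nm lam = q) :
    ∃ w : Ideal (𝓞 F), w.IsPrime ∧ w ≠ ⊥ ∧ algebraMap (𝓞 k) (𝓞 F) (φ lam) ∈ w ∧
      ∃ σ : F ≃ₐ[k] F, ∀ x : 𝓞 F, ∃ y ∈ w, (y : F) = σ x - (x : F) ^ q := by
  have hnu : ¬ IsUnit (φ lam) := by
    intro hu
    obtain ⟨t, ht⟩ := hu.exists_right_inv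
    obtain ⟨z, rfl⟩ := hφ.2 t
    rw [← map_mul, ← map_one φ] at ht
    have h1 := hφ.1 ht
    have h2 := congrArg nm h1
    rw [nm_mul', hlam] at h2
    have h3 : nm (1 : OO A B) = 1 := by
      have h4 : (1 : OO A B) = ⟨1, 0⟩ := rfl
      rw [h4]
      simp [nm]
    rw [h3] at h2
    have h4 : (q : ℤ) ∣ 1 := ⟨_, h2.symm⟩
    exact (Nat.prime_iff_prime_int.mp hq).not_isUnit (isUnit_of_dvd_one h4)
  have hl0 : φ lam ≠ 0 := by
    intro h0
    rw [← map_zero φ] at h0
    have h1 := hφ.1 h0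
    rw [h1] at hlam
    simp only [nm, QuadraticAlgebra.re_zero, QuadraticAlgebra.im_zero] at hlam
    have : (q : ℤ) = 0 := by rw [← hlam]; ring
    exact hq.ne_zero (by exact_mod_cast this)
  obtain ⟨p, hp, hmem⟩ := exists_max_ideal_of_mem_nonunits hnu
  have hpb : p ≠ ⊥ := by
    rintro rfl
    exact hl0 (by simpa using hmem)
  have hpp : p.IsPrime := hp.isPrime
  obtain ⟨⟨w, hw, hwp⟩⟩ := (inferInstance : Nonempty (primesOver p (𝓞 F)))
  have hwb : w ≠ ⊥ := ne_bot_of_liesOver_of_ne_bot hpb w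
  refine ⟨w, hw, hwb, ?_, ?_⟩
  · have h1 : φ lam ∈ w.under (𝓞 k) := by rw [← hwp.over]; exact hmem
    exact h1
  · apply exists_frob k F w hw hwb q
    rw [← hwp.over]
    have hqp : (q : 𝓞 k) ∈ p := by
      have h1 := congrArg φ (mul_cj lam)
      rw [map_mul, map_intCast, hlam] at h1
      have h2 : (q : 𝓞 k) = φ lam * φ ⟨lam.re + B * lam.im, -lam.im⟩ := by
        rw [h1]; push_cast; rfl
      rw [h2]
      exact p.mul_mem_right _ hmem
    refine card_quot p hp.ne_top q hq hqp ?_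
    intro x
    obtain ⟨z, rfl⟩ := hφ.2 x
    have hqq : Prime (q : ℤ) := Nat.prime_iff_prime_int.mp hq
    have hd : ¬ (q : ℤ) ∣ lam.im := by
      rintro ⟨d, hd⟩
      have h1 := hlam
      simp only [nm] at h1
      have h2 : (q : ℤ) ∣ lam.re ^ 2 := by
        refine ⟨1 - B * lam.re * d + A * q * d ^ 2, ?_⟩
        rw [hd] at h1
        linear_combination h1
      obtain ⟨c, hc⟩ := hqq.dvd_of_dvd_pow h2
      have h3 : (q : ℤ) * (q * (c ^ 2 + B * c * d - A * d ^ 2)) = q * 1 := by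
        rw [hd, hc] at h1
        linear_combination h1
      have h4 := mul_left_cancel₀ hqq.ne_zero h3
      exact hqq.not_isUnit (isUnit_of_dvd_one ⟨_, h4.symm⟩)
    obtain ⟨s, t, hst⟩ := ((Prime.coprime_iff_not_dvd hqq).mpr hd)
    -- `s q + t d = 1`
    refine ⟨z.re - z.im * t * lam.re, ?_⟩
    have hz : z - ((z.re - z.im * t * lam.re : ℤ) : OO A B) =
        (z.im : OO A B) * ((t : OO A B) * lam + (s : OO A B) * ((q : ℤ) : OO A B) * ⟨0, 1⟩) := by
      apply QuadraticAlgebra.ext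
      · simp [QuadraticAlgebra.re_mul, QuadraticAlgebra.im_mul]
        ring
      · simp [QuadraticAlgebra.re_mul, QuadraticAlgebra.im_mul]
        linear_combination (-z.im) * hst
    have hz2 := congrArg φ hz
    rw [map_sub, map_intCast] at hz2
    rw [hz2, map_mul, map_add, map_mul, map_mul, map_mul, map_intCast φ (q : ℤ)]
    apply p.mul_mem_left
    apply p.add_mem
    · exact p.mul_mem_left _ hmem
    · apply p.mul_mem_right
      apply p.mul_mem_left
      simpa using hqp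

end FEX

open _root_.Pool.Agent.MU3A.FEX in
theorem ta_FEX (h1 : Sa_INT) : Sa_FEX := by
  intro A B hAB F _ _ lam q hq hlam
  obtain ⟨hfd, -, -, hint⟩ := h1 A B hAB
  have hk : NumberField (kk A B) := ⟨⟩
  have hFQ : FiniteDimensional ℚ F := FiniteDimensional.trans ℚ (kk A B) F
  have hF : NumberField F := ⟨⟩
  have hI : ∀ x : OO A B, IsIntegral ℤ (ek x) := by
    intro x
    have h2 : IsIntegral ℤ (emb x) := (hint (emb x) (emb_mem x)).mpr ⟨x, rfl⟩
    have h3 : algebraMap (kk A B) ℂ (ek x) = emb x := rfl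
    rw [← h3] at h2
    exact (isIntegral_algebraMap_iff (FaithfulSMul.algebraMap_injective (kk A B) ℂ)).mp h2
  let φ : OO A B →+* 𝓞 (kk A B) :=
    { toFun := fun x => ⟨ek x, hI x⟩
      map_one' := by
        apply RingOfIntegers.ext
        apply Subtype.ext
        exact emb_one hAB
      map_mul' := fun x y => by
        apply RingOfIntegers.ext
        apply Subtype.ext
        exact emb_mul hAB x y
      map_zero' := by
        apply RingOfIntegers.ext
        apply Subtype.ext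
        exact emb_zero hAB
      map_add' := fun x y => by
        apply RingOfIntegers.ext
        apply Subtype.ext
        exact emb_add hAB x y }
  have hφv : ∀ x : OO A B, (((φ x : kk A B)) : ℂ) = emb x := fun x => rfl
  have hφ : Function.Bijective φ := by
    constructor
    · intro x y hxy
      apply emb_inj hAB
      rw [← hφv x, ← hφv y, hxy]
    · intro y
      have h2 : IsIntegral ℤ ((y : kk A B) : ℂ) :=
        (RingOfIntegers.isIntegral_coe y).map (Algebra.ofId (kk A B) ℂ |>.restrictScalars ℤ)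
      obtain ⟨x, hx⟩ := (hint _ (y : kk A B).2).mp h2
      refine ⟨x, ?_⟩
      apply RingOfIntegers.ext
      apply Subtype.ext
      rw [hφv, hx]
  obtain ⟨w, hw, hwb, hmem, σ, hσ⟩ := exists_all (kk A B) F φ hφ lam q hq hlam
  exact ⟨w, hw, hwb, ⟨_, hmem, rfl⟩, σ, hσ⟩

end Pool.Agent.MU3A


end

section

/-!
# MU3, block V: a good prime of `D` gives an element of `XX .. 1`
-/

set_option autoImplicit false

open NumberField IsDedekindDomain
open scoped Pointwise

namespace Pool.Agent.MU3V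

open _root_.MU3 _root_.Pool.Agent.MU3A _root_.Pool.Agent.MU3B _root_.Pool.Agent.MU3C _root_.Pool.Agent.RI

namespace W_FRD

lemma card_sub {R T : Type} [CommRing R] [CommRing T] (f : R →+* T) (hf : Function.Injective f)
    [Nontrivial R] (q : ℕ) (hq : q.Prime) (hc : Nat.card T = q) : Nat.card R = q := by
  have h1 : Nat.card R ∣ Nat.card T := by
    have h2 := AddSubgroup.card_addSubgroup_dvd_card f.toAddMonoidHom.range
    have h3 : Nat.card f.toAddMonoidHom.range = Nat.card R :=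
      (Nat.card_congr (Equiv.ofInjective f hf)).symm
    rwa [h3] at h2
  rw [hc] at h1
  rcases (Nat.dvd_prime hq).mp h1 with h2 | h2
  · exfalso
    have hfin : Finite T := Nat.finite_of_card_ne_zero (by rw [hc]; exact hq.ne_zero)
    have hfR : Finite R := Finite.of_injective f hf
    have h3 := Finite.one_lt_card (α := R)
    omega
  · exact h2

lemma abs_frob (k D F : Type) [Field k] [NumberField k] [Field D] [NumberField D] [Field F]
    [NumberField F] [Algebra k D] [Algebra D F] [Algebra k F] [IsScalarTower k D F]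
    [IsGalois k F] (v : HeightOneSpectrum (𝓞 D)) (q : ℕ) (hq : q.Prime)
    (hc : Nat.card (𝓞 D ⧸ v.asIdeal) = q) :
    Nat.card (𝓞 k ⧸ v.asIdeal.under (𝓞 k)) = q ∧ ∃ w : Ideal (𝓞 F), w.IsPrime ∧ w ≠ ⊥ ∧
      w.LiesOver v.asIdeal ∧ w.under (𝓞 k) = v.asIdeal.under (𝓞 k) ∧
      ∃ σ : F ≃ₐ[k] F, ∀ x : 𝓞 F, ∃ y ∈ w, (y : F) = σ x - (x : F) ^ q := by
  have hvp : v.asIdeal.IsPrime := v.isPrime
  have hup : (v.asIdeal.under (𝓞 k)).IsPrime := inferInstance
  have hcard : Nat.card (𝓞 k ⧸ v.asIdeal.under (𝓞 k)) = q :=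
    card_sub (algebraMap (𝓞 k ⧸ v.asIdeal.under (𝓞 k)) (𝓞 D ⧸ v.asIdeal))
      Ideal.algebraMap_quotient_injective q hq hc
  refine ⟨hcard, ?_⟩
  obtain ⟨⟨w, hw, hwv⟩⟩ := (inferInstance : Nonempty (Ideal.primesOver v.asIdeal (𝓞 F)))
  have hwb : w ≠ ⊥ := Ideal.ne_bot_of_liesOver_of_ne_bot v.ne_bot w
  have hunder : w.under (𝓞 k) = v.asIdeal.under (𝓞 k) := by
    rw [hwv.over, Ideal.under_under]
  refine ⟨w, hw, hwb, hwv, hunder, ?_⟩
  exact FEX.exists_frob k F w hw hwb q (by rw [hunder]; exact hcard)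

lemma abs_free (k D F : Type) [Field k] [NumberField k] [Field D] [NumberField D] [Field F]
    [NumberField F] [Algebra k D] [Algebra D F] [Algebra k F] [IsScalarTower k D F]
    (v : HeightOneSpectrum (𝓞 D)) (w : Ideal (𝓞 F)) (hwv : w.LiesOver v.asIdeal) (q : ℕ)
    (hq : 0 < q) (σ : F ≃ₐ[k] F) (hσ : ∀ x : 𝓞 F, ∃ y ∈ w, (y : F) = σ x - (x : F) ^ q)
    (τ : D ≃ₐ[k] D) (hτ : ∀ y : D, σ (algebraMap D F y) = algebraMap D F (τ y)) :
    τ • v.asIdeal = v.asIdeal := by
  have hvp : v.asIdeal.IsPrime := v.isPrime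
  have hmax : v.asIdeal.IsMaximal := v.isMaximal
  have h1 : ∀ x ∈ v.asIdeal, τ • x ∈ v.asIdeal := by
    intro x hx
    have hX : algebraMap (𝓞 D) (𝓞 F) x ∈ w := by
      have : x ∈ w.under (𝓞 D) := by rw [← hwv.over]; exact hx
      exact this
    obtain ⟨y, hy, hyx⟩ := hσ (algebraMap (𝓞 D) (𝓞 F) x)
    have h2 : algebraMap (𝓞 D) (𝓞 F) (τ • x) = y + algebraMap (𝓞 D) (𝓞 F) x ^ q := by
      apply RingOfIntegers.coe_injective
      have h3 : algebraMap (𝓞 F) F (y + algebraMap (𝓞 D) (𝓞 F) x ^ q) =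
          σ (algebraMap (𝓞 F) F (algebraMap (𝓞 D) (𝓞 F) x)) := by
        rw [map_add, map_pow]
        change (y : F) + _ = _
        rw [hyx]
        exact sub_add_cancel _ _
      rw [h3]
      have h4 : algebraMap (𝓞 F) F (algebraMap (𝓞 D) (𝓞 F) x) = algebraMap D F (x : D) := rfl
      rw [h4, hτ]
      rfl
    have h5 : algebraMap (𝓞 D) (𝓞 F) (τ • x) ∈ w := by
      rw [h2]
      exact w.add_mem hy (Ideal.pow_mem_of_mem w hX q hq)
    have h6 : τ • x ∈ w.under (𝓞 D) := h5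
    rwa [← hwv.over] at h6
  have h2 : v.asIdeal ≤ τ⁻¹ • v.asIdeal := by
    intro x hx
    rw [Ideal.mem_inv_pointwise_smul_iff]
    exact h1 x hx
  have h3 : τ⁻¹ • v.asIdeal ≠ ⊤ := by
    intro h
    have h4 : (1 : 𝓞 D) ∈ τ⁻¹ • v.asIdeal := by rw [h]; trivial
    rw [Ideal.mem_inv_pointwise_smul_iff, smul_one] at h4
    exact hmax.ne_top ((Ideal.eq_top_iff_one _).mpr h4)
  have h4 := hmax.eq_of_le h3 h2
  rw [eq_inv_smul_iff] at h4
  exact h4

end W_FRD

open _root_.Pool.Agent.MU3V.W_FRD in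
theorem tw_FRD (h1 : Sw_PRL) (h2 : Sw_XXM) (h3 : Sw_XXG) (h4 : Sa_FROB) (h5 : Sa_NRM)
    (h6 : Sa_INT) : Sw_FRD := by
  intro A B L Om hAB hCM
  obtain ⟨n, hn, hF⟩ := h4 A B L Om hAB hCM
  refine ⟨n, hn, ?_⟩
  intro m hm D _ h hsub
  letI := algC h
  intro S v q hgood hqn hqm
  obtain ⟨hfd, -, -, hint⟩ := h6 A B hAB
  have hk : NumberField (kk A B) := ⟨⟩
  obtain ⟨hTfd, hTgal⟩ := h5 A B L Om hAB hCM m hm
  have hTQ : FiniteDimensional ℚ (TF L m) := FiniteDimensional.trans ℚ (kk A B) (TF L m)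
  have hTN : NumberField (TF L m) := ⟨⟩
  let ι : D →+* TF L m :=
    { toFun := fun x => ⟨x, hsub x x.2⟩
      map_one' := rfl
      map_mul' := fun _ _ => rfl
      map_zero' := rfl
      map_add' := fun _ _ => rfl }
  letI : Algebra D (TF L m) := ι.toAlgebra
  haveI := Pool.Agent.FX.tower (kk A B) D (TF L m) fun x => rfl
  obtain ⟨hcard, w, hw, hwb, hwv, hwk, σ, hσ⟩ :=
    abs_frob (kk A B) D (TF L m) v q hgood.prime hgood.card
  have hvp : v.asIdeal.IsPrime := v.isPrime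
  have hup : (v.asIdeal.under (𝓞 (kk A B))).IsPrime := inferInstance
  obtain ⟨lam, hlam, hP⟩ := h1 A B hAB _ hup q hgood.prime hcard
  refine ⟨lam, hlam, ?_, hP⟩
  -- `lam` is in `w`
  have hI : IsIntegral ℤ (ek lam) := by
    have h7 : IsIntegral ℤ (emb lam) := (hint (emb lam) (emb_mem lam)).mpr ⟨lam, rfl⟩
    have h8 : algebraMap (kk A B) ℂ (ek lam) = emb lam := rfl
    rw [← h8] at h7
    exact (isIntegral_algebraMap_iff (FaithfulSMul.algebraMap_injective (kk A B) ℂ)).mp h7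
  have habv : Abv w lam := by
    have h7 : (⟨ek lam, hI⟩ : 𝓞 (kk A B)) ∈ v.asIdeal.under (𝓞 (kk A B)) :=
      (hP ⟨ek lam, hI⟩ lam rfl).mpr dvd_rfl
    rw [← hwk] at h7
    exact ⟨algebraMap (𝓞 (kk A B)) (𝓞 (TF L m)) ⟨ek lam, hI⟩, h7, rfl⟩
  have hact := hF lam q hgood.prime hlam hqn m hm hqm (TF L m) le_rfl w hw habv σ hσ
  obtain ⟨g1, -, -, -⟩ := h3 A B L Om hAB hCM m hm D h hsub
  obtain ⟨τ, hτ⟩ := g1 σ
  have hτ1 : τ = 1 := by
    apply hgood.free
    refine abs_free (kk A B) D (TF L m) v w hwv q hgood.prime.pos σ hσ τ ?_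
    intro y
    apply Subtype.ext
    exact hτ y (hsub y y.2)
  subst hτ1
  rcases hact with hact | hact
  · left
    exact (h2 A B L Om hAB hCM m hm D h 1 lam).mpr ⟨σ, hact, hτ⟩
  · right
    exact (h2 A B L Om hAB hCM m hm D h 1 (-lam)).mpr ⟨σ, hact, hτ⟩

end Pool.Agent.MU3V


end

section

/-!
# MUX, block W, module GRB: good reduction outside finitely many primes   (helper50)
-/

set_option autoImplicit false

open WeierstrassCurve Polynomial NumberField IsDedekindDomain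

namespace Pool.Agent.MUXW

open _root_.MU3 _root_.Pool.Agent.MU3A _root_.Pool.Agent.MU3B _root_.Pool.Agent.MU3C _root_.Pool.Agent.RI _root_.Pool.Agent.RID
open _root_.Pool.Agent.MUX _root_.Pool.Agent.MUXU
open _root_.Pool.Agent.MU3V (cls Sub GD algDF)
open _root_.Pool.Agent.MUXV (GR InK tX CMO Ovr)

noncomputable section

namespace GRB

lemma wC_sq' {A B : ℤ} (h : CQ A B) : wC A B * wC A B = A + B * wC A B := by
  have h0 : (0 : ℤ) ≤ absD A B := by
    have := h.neg
    unfold absD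
    omega
  have h1 : (0 : ℝ) ≤ (absD A B : ℝ) := by exact_mod_cast h0
  have h2 : ((Real.sqrt (absD A B) : ℝ) : ℂ) ^ 2 = (absD A B : ℂ) := by
    rw [← Complex.ofReal_pow, Real.sq_sqrt h1]
    norm_num
  have h3 : Complex.I ^ 2 = -1 := Complex.I_sq
  have h4 : (absD A B : ℂ) = -((B : ℂ) ^ 2 + 4 * A) := by simp [absD]
  unfold wC
  linear_combination (Complex.I ^ 2 / 4) * h2 + ((absD A B : ℂ) / 4) * h3 - (1 / 4) * h4

lemma isIntegral_wC {A B : ℤ} (h : CQ A B) : _root_.IsIntegral ℚ (wC A B) := by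
  refine ⟨X ^ 2 - C (B : ℚ) * X - C (A : ℚ), ?_, ?_⟩
  · monicity!
  · simp only [eval₂_sub, eval₂_pow, eval₂_X, eval₂_mul, eval₂_C]
    simp only [eq_ratCast, Rat.cast_intCast]
    rw [sq, wC_sq' h]
    ring

lemma isAlgebraic_kk {A B : ℤ} (h : CQ A B) : Algebra.IsAlgebraic ℚ (kk A B) := by
  refine IntermediateField.isAlgebraic_adjoin ?_
  intro x hx
  rw [Set.mem_singleton_iff] at hx
  rw [hx]
  exact isIntegral_wC h

/-- the elements of `F_m` are algebraic -/
lemma alg_RF {A B : ℤ} (h : CQ A B) (T : TorX A B) (m : Ideal (OO A B)) (hm : m ≠ ⊥) {x : ℂ}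
    (hx : x ∈ (RF m : IntermediateField (kk A B) ℂ)) : IsAlgebraic ℚ x := by
  have hfd := T.fin m hm
  have halg := isAlgebraic_kk h
  have h1 : IsAlgebraic (kk A B) (⟨x, hx⟩ : (RF m : IntermediateField (kk A B) ℂ)) :=
    Algebra.IsAlgebraic.isAlgebraic _
  have h2 : IsAlgebraic (kk A B) x := by
    have := h1.algHom (RF m : IntermediateField (kk A B) ℂ).val
    exact this
  exact h2.restrictScalars ℚ

lemma val_le (V : ValuationSubring ℂ) (n : ℕ) : V.valuation (n : ℂ) ≤ 1 :=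
  (V.valuation_le_one_iff _).2 (natCast_mem V.toSubring n)

lemma val_mul (V : ValuationSubring ℂ) (a b : ℕ) (h : V.valuation ((a * b : ℕ) : ℂ) = 1) :
    V.valuation (a : ℂ) = 1 ∧ V.valuation (b : ℂ) = 1 := by
  rw [Nat.cast_mul, map_mul] at h
  have ha := val_le V a
  have hb := val_le V b
  constructor
  · refine le_antisymm ha ?_
    rw [← h]
    calc V.valuation (a : ℂ) * V.valuation (b : ℂ) ≤ V.valuation (a : ℂ) * 1 := by gcongr
      _ = _ := mul_one _
  · refine le_antisymm hb ?_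
    rw [← h]
    calc V.valuation (a : ℂ) * V.valuation (b : ℂ) ≤ 1 * V.valuation (b : ℂ) := by gcongr
      _ = _ := one_mul _

end GRB

theorem ty_GRB (h1 : Pool.Agent.MUXV.Sx_NGR) (h2 : Pool.Agent.MUXV.Sq_ALU) : Sy_GRB := by
  intro A B hc T b L om hL
  have hn := hL.nrm
  have hd := (b_DSC L).1
  have hg : L.g₂ = (1 + 1728 * kap L) / 12 := by
    unfold kap
    ring
  have hg3 : L.g₃ = -(1 + 1728 * kap L) / 216 := by
    have : L.g₃ = -L.g₂ / 18 := by
      rw [hn]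
      ring
    rw [this, hg]
    ring
  have hk0 : kap L ≠ 0 := by
    intro h0
    apply hd
    rw [hg, hg3, h0]
    norm_num
  have hg0 : 12 * L.g₂ ≠ 0 := by
    refine mul_ne_zero (by norm_num) ?_
    intro h0
    have h3 : L.g₃ = 0 := by
      have : L.g₃ = -L.g₂ / 18 := by
        rw [hn]
        ring
      rw [this, h0]
      norm_num
    apply hd
    rw [h0, h3]
    norm_num
  have hmem : kap L ∈ (RF (⊤ : Ideal (OO A B)) : IntermediateField (kk A B) ℂ) :=
    IntermediateField.subset_adjoin _ _ ⟨b, L, om, hL, Or.inl rfl⟩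
  have htop : (⊤ : Ideal (OO A B)) ≠ ⊥ := by
    intro h
    have h1 : (1 : OO A B) ∈ (⊤ : Ideal (OO A B)) := Submodule.mem_top
    rw [h, Ideal.mem_bot] at h1
    have h2 := congrArg QuadraticAlgebra.re h1
    exact one_ne_zero h2
  have halg : IsAlgebraic ℚ (kap L) := GRB.alg_RF hc T ⊤ htop hmem
  have halg2 : IsAlgebraic ℚ (12 * L.g₂) := by
    have e : 12 * L.g₂ = 1 + 1728 * kap L := by
      rw [hg]
      ring
    rw [e]
    have a1 : IsAlgebraic ℚ (1 : ℂ) := isAlgebraic_one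
    have a2 : IsAlgebraic ℚ (1728 : ℂ) := by
      have := isAlgebraic_natCast (R := ℚ) (A := ℂ) 1728
      exact_mod_cast this
    exact a1.add (a2.mul halg)
  obtain ⟨n₁, hn₁, H₁⟩ := h2 (kap L) halg hk0
  obtain ⟨n₂, hn₂, H₂⟩ := h2 (12 * L.g₂) halg2 hg0
  refine ⟨(2 * 3) * (n₁ * n₂), mul_ne_zero (by norm_num) (mul_ne_zero hn₁ hn₂), ?_⟩
  intro V hV
  obtain ⟨h6, h12⟩ := GRB.val_mul V _ _ hV
  obtain ⟨v2, v3⟩ := GRB.val_mul V _ _ h6
  obtain ⟨w1, w2⟩ := GRB.val_mul V _ _ h12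
  have v2' : V.valuation 2 = 1 := by simpa using v2
  have v3' : V.valuation 3 = 1 := by simpa using v3
  refine ⟨v2', v3', H₁ V w1, H₂ V w2, ?_⟩
  exact h1 V L hn v2' (H₁ V w1) (H₂ V w2)

end

end Pool.Agent.MUXW


end

section

/-!
# MUX, block W, module MEM (helper7): the elements `cW` are norms
-/

set_option autoImplicit false

open WeierstrassCurve Polynomial NumberField IsDedekindDomain

namespace Pool.Agent.MUXW

open _root_.MU3 _root_.Pool.Agent.MU3A _root_.Pool.Agent.MU3B _root_.Pool.Agent.MU3C _root_.Pool.Agent.RI _root_.Pool.Agent.RID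
open _root_.Pool.Agent.MUX _root_.Pool.Agent.MUXU
open _root_.Pool.Agent.MU3V (cls Sub GD algDF)
open _root_.Pool.Agent.MU3V.XXG (abs_ext incl)

noncomputable section

namespace Mem

variable {A B : ℤ} {F : IntermediateField (kk A B) ℂ} {D : IntermediateField ℚ ℂ}

theorem ext1_one (h : kk A B ≤ D) (σ : F ≃ₐ[kk A B] F) :
    letI := algC h
    σ ∈ GD h F ↔ Ext1 h (1 : D ≃ₐ[kk A B] D) σ := by
  constructor
  · intro hσ y hy
    exact congrArg Subtype.val (hσ (y : ℂ) y.2 hy)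
  · intro hσ y hD hy
    exact Subtype.ext (hσ ⟨y, hD⟩ hy)

theorem ext1_iff (h : kk A B ≤ D) (hs : _root_.Pool.Agent.MU3V.Sub D F) :
    letI := algC h
    ∀ (τ : D ≃ₐ[kk A B] D) (σ : F ≃ₐ[kk A B] F),
      Ext1 h τ σ ↔ ∀ y : D, incl h hs (τ y) = σ (incl h hs y) := by
  intro τ σ
  constructor
  · intro hE y
    exact Subtype.ext (hE y (hs y y.2)).symm
  · intro hE y hy
    exact (congrArg Subtype.val (hE y)).symm

theorem ext1_mul (h : kk A B ≤ D) (hs : _root_.Pool.Agent.MU3V.Sub D F) :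
    letI := algC h
    ∀ (τ τ' : D ≃ₐ[kk A B] D) (σ σ' : F ≃ₐ[kk A B] F), Ext1 h τ σ → Ext1 h τ' σ' →
      Ext1 h (τ * τ') (σ * σ') := by
  intro τ τ' σ σ' h1 h2
  let _ := algC h
  rw [ext1_iff h hs] at h1 h2 ⊢
  intro y
  rw [AlgEquiv.mul_apply, AlgEquiv.mul_apply, h1, h2]

theorem ext1_inv (h : kk A B ≤ D) (hs : _root_.Pool.Agent.MU3V.Sub D F) :
    letI := algC h
    ∀ (τ : D ≃ₐ[kk A B] D) (σ : F ≃ₐ[kk A B] F), Ext1 h τ σ → Ext1 h τ⁻¹ σ⁻¹ := by
  intro τ σ h1
  let _ := algC h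
  rw [ext1_iff h hs] at h1 ⊢
  intro y
  have h2 := h1 ((τ⁻¹ : D ≃ₐ[kk A B] D) y)
  rw [← AlgEquiv.mul_apply, mul_inv_cancel, AlgEquiv.one_apply] at h2
  rw [h2, ← AlgEquiv.mul_apply, inv_mul_cancel, AlgEquiv.one_apply]

/-- the product in `F` -/
def PP (h : kk A B ≤ D) (θ : F) (τ : letI := algC h; D ≃ₐ[kk A B] D) : F :=
  ∏ᶠ σ : {σ : F ≃ₐ[kk A B] F // Ext1 h τ σ}, (σ.1 θ : F)

theorem coe_PP [FiniteDimensional (kk A B) F] (h : kk A B ≤ D) (θ : F)
    (τ : letI := algC h; D ≃ₐ[kk A B] D) : ((PP h θ τ : F) : ℂ) = cWt h θ τ :=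
  map_finprod (F.val : F →ₐ[kk A B] ℂ) (Set.toFinite _)

theorem act_PP [FiniteDimensional (kk A B) F] (h : kk A B ≤ D) (hs : _root_.Pool.Agent.MU3V.Sub D F) (θ : F) :
    letI := algC h
    ∀ (τ τ' : D ≃ₐ[kk A B] D) (s : F ≃ₐ[kk A B] F), Ext1 h τ' s →
      s (PP h θ τ) = PP h θ (τ' * τ) := by
  intro τ τ' s hs'
  let _ := algC h
  have h1 : s (PP h θ τ) = ∏ᶠ σ : {σ : F ≃ₐ[kk A B] F // Ext1 h τ σ}, s (σ.1 θ : F) :=
    map_finprod s (Set.toFinite _)
  rw [h1]
  let e : {σ : F ≃ₐ[kk A B] F // Ext1 h τ σ} ≃ {σ : F ≃ₐ[kk A B] F // Ext1 h (τ' * τ) σ} :=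
    { toFun := fun σ => ⟨s * σ.1, ext1_mul h hs _ _ _ _ hs' σ.2⟩
      invFun := fun σ => ⟨s⁻¹ * σ.1, by
        have h2 := ext1_mul h hs _ _ _ _ (ext1_inv h hs _ _ hs') σ.2
        rwa [inv_mul_cancel_left] at h2⟩
      left_inv := fun σ => Subtype.ext (inv_mul_cancel_left _ _)
      right_inv := fun σ => Subtype.ext (mul_inv_cancel_left _ _) }
  exact finprod_comp_equiv (f := fun σ : {σ : F ≃ₐ[kk A B] F // Ext1 h (τ' * τ) σ} =>
    (σ.1 θ : F)) e

theorem mem_D [FiniteDimensional (kk A B) F] [IsGalois (kk A B) F] (h : kk A B ≤ D)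
    (x : F) (hx : ∀ σ ∈ GD h F, σ x = x) : (x : ℂ) ∈ D := by
  let E : IntermediateField (kk A B) F :=
    (IntermediateField.extendScalars h).comap F.val
  have hE : ∀ y : F, y ∈ E ↔ (y : ℂ) ∈ D := fun y => Iff.rfl
  rw [← hE, ← IsGalois.fixedField_fixingSubgroup E, IntermediateField.mem_fixedField_iff]
  intro σ hσ
  rw [IntermediateField.mem_fixingSubgroup_iff] at hσ
  exact hx σ fun y hD hy => hσ ⟨y, hy⟩ ((hE _).2 hD)

end Mem

open _root_.Pool.Agent.MUXW.Mem in
theorem ty_MEM : Sy_MEM := by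
  intro A B F _ _ hc D h hs θ hθ
  let _ := algC h
  obtain ⟨e1, e2⟩ := abs_ext hc (incl h hs)
  have a1 : cW h θ = cWt h θ 1 :=
    finprod_comp_equiv (f := fun σ : {σ : F ≃ₐ[kk A B] F // Ext1 h (1 : D ≃ₐ[kk A B] D) σ} =>
      ((σ.1 θ : F) : ℂ)) (Equiv.subtypeEquivRight (ext1_one h))
  have a4 : ∀ τ : D ≃ₐ[kk A B] D, ∃ σ : F ≃ₐ[kk A B] F, Ext1 h τ σ := by
    intro τ
    obtain ⟨σ, hσ⟩ := e2 τ
    exact ⟨σ, (ext1_iff h hs τ σ).2 hσ⟩
  refine ⟨a1, fun τ => ⟨?_, ?_⟩, ?_, a4, ?_⟩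
  · rw [← coe_PP]
    refine mem_D h _ fun σ hσ => ?_
    have h1 := act_PP h hs θ τ 1 σ ((ext1_one h σ).1 hσ)
    rwa [one_mul] at h1
  · refine finprod_induction (fun z : ℂ => z ≠ 0) one_ne_zero (fun _ _ => mul_ne_zero) ?_
    intro σ h0
    apply hθ
    have h1 : (σ.1 θ : F) = 0 := Subtype.ext h0
    exact (map_eq_zero σ.1).1 h1
  · intro τ h1
    obtain ⟨s, hs'⟩ := a4 τ
    have h2 := act_PP h hs θ 1 τ s hs'
    rw [mul_one] at h2
    have hy : cW h θ ∈ F := hs _ h1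
    have h3 := hs' ⟨cW h θ, h1⟩ hy
    rw [← h3, ← coe_PP, ← h2]
    have e : (⟨cW h θ, hy⟩ : F) = PP h θ 1 := Subtype.ext (a1.trans (coe_PP h θ 1).symm)
    rw [e]
  · intro σ
    obtain ⟨τ, hτ⟩ := e1 σ
    exact ⟨τ, (ext1_iff h hs τ σ).2 hτ⟩

end

end Pool.Agent.MUXW


end

section

/-!
# MU3, block V, PRL: the primes of degree one of `k`
-/

set_option autoImplicit false

open NumberField

namespace Pool.Agent.MU3V

open _root_.MU3 _root_.Pool.Agent.MU3A _root_.Pool.Agent.MU3B _root_.Pool.Agent.MU3C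

noncomputable section

namespace PRL

variable {A B : ℤ}

theorem isIntegral_ek (hI : Sa_INT) (h : Case A B) (y : OO A B) : IsIntegral ℤ (ek y) := by
  have h1 : IsIntegral ℤ (emb y) := ((hI A B h).2.2.2 (emb y) (emb_mem y)).2 ⟨y, rfl⟩
  have h2 : algebraMap (kk A B) ℂ (ek y) = emb y := rfl
  rw [← h2] at h1
  exact (isIntegral_algebraMap_iff (algebraMap (kk A B) ℂ).injective).1 h1

theorem ext' {x y : 𝓞 (kk A B)} (h : ((x : kk A B) : ℂ) = ((y : kk A B) : ℂ)) : x = y :=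
  RingOfIntegers.ext (Subtype.ext h)

/-- the ring homomorphism `O → 𝓞 k` -/
def phi (hI : Sa_INT) (h : Case A B) : OO A B →+* 𝓞 (kk A B) where
  toFun y := ⟨ek y, isIntegral_ek hI h y⟩
  map_one' := ext' (emb_one h)
  map_zero' := ext' (emb_zero h)
  map_add' x y := ext' (emb_add h x y)
  map_mul' x y := ext' (emb_mul h x y)

theorem phi_val (hI : Sa_INT) (h : Case A B) (y : OO A B) :
    ((phi hI h y : kk A B) : ℂ) = emb y := rfl

theorem phi_surj (hI : Sa_INT) (h : Case A B) (x : 𝓞 (kk A B)) : ∃ y, phi hI h y = x := by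
  have h1 : IsIntegral ℤ ((x : kk A B) : ℂ) := by
    have h2 := x.isIntegral_coe
    exact (isIntegral_algebraMap_iff (algebraMap (kk A B) ℂ).injective).2 h2
  obtain ⟨y, hy⟩ := ((hI A B h).2.2.2 _ (x : kk A B).2).1 h1
  exact ⟨y, ext' hy.symm⟩

end PRL

open _root_.Pool.Agent.MU3V.PRL in
/-- the primes of degree one of `k` -/
theorem tw_PRL (hI : Sa_INT) (hP : Sa_PID) : Sw_PRL := by
  intro A B h P hPp q hq hc
  obtain ⟨hdom, hpir, hnn, hmul, h0, -, -, hu, -, -⟩ := hP A B h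
  have : Fact q.Prime := ⟨hq⟩
  have hfin : Finite (𝓞 (kk A B) ⧸ P) := Nat.finite_of_card_ne_zero (by rw [hc]; exact hq.ne_zero)
  have hne : Nontrivial (𝓞 (kk A B) ⧸ P) := Ideal.Quotient.nontrivial_iff.2 hPp.ne_top
  set ψ : OO A B →+* 𝓞 (kk A B) ⧸ P := (Ideal.Quotient.mk P).comp (phi hI h) with hψ
  obtain ⟨lam, hlam⟩ := (hpir.principal (RingHom.ker ψ)).principal
  have hk : ∀ y : OO A B, ψ y = 0 ↔ lam ∣ y := by
    intro y
    rw [← RingHom.mem_ker, hlam, Ideal.submodule_span_eq, Ideal.mem_span_singleton]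
  have hxy : ∀ (x : 𝓞 (kk A B)) (y : OO A B), ((x : kk A B) : ℂ) = emb y → (x ∈ P ↔ lam ∣ y) := by
    intro x y hx
    have h1 : x = phi hI h y := ext' hx
    rw [← hk, h1, hψ, RingHom.comp_apply, Ideal.Quotient.eq_zero_iff_mem]
  refine ⟨lam, ?_, hxy⟩
  have hq1 : lam ∣ (q : OO A B) := by
    rw [← hk, map_natCast]
    have h1 := card_nsmul_eq_zero' (x := (1 : 𝓞 (kk A B) ⧸ P))
    rwa [hc, nsmul_eq_mul, mul_one] at h1
  obtain ⟨n, hn⟩ : ∃ n : ℤ, lam ∣ (⟨0, 1⟩ : OO A B) - n := by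
    have h1 : ψ ⟨0, 1⟩ ∈ AddSubgroup.zmultiples (1 : 𝓞 (kk A B) ⧸ P) :=
      mem_zmultiples_of_prime_card hc one_ne_zero
    obtain ⟨n, hn⟩ := AddSubgroup.mem_zmultiples_iff.1 h1
    refine ⟨n, (hk _).1 ?_⟩
    rw [map_sub, map_intCast, ← hn, zsmul_eq_mul, mul_one, sub_self]
  have hnq : nm (q : OO A B) = (q : ℤ) ^ 2 := by
    simp [nm]
  obtain ⟨r, hr⟩ := hq1
  have h1 : nm lam * nm r = (q : ℤ) ^ 2 := by rw [← hmul, ← hr, hnq]
  have h2 : (nm lam).natAbs ∣ q ^ 2 := by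
    have h3 : nm lam ∣ ((q ^ 2 : ℕ) : ℤ) := ⟨nm r, by rw [h1]; push_cast; rfl⟩
    exact Int.natAbs_dvd_natAbs.2 h3 |>.trans (by rw [Int.natAbs_natCast])
  obtain ⟨i, hi, hi'⟩ := (Nat.dvd_prime_pow hq).1 h2
  have h3 : nm lam = (q : ℤ) ^ i := by
    rw [← Int.natAbs_of_nonneg (hnn lam), hi']
    push_cast
    rfl
  interval_cases i
  · exfalso
    rw [pow_zero, ← hu] at h3
    have h4 : ψ 1 = 0 := (hk 1).2 h3.dvd
    rw [map_one] at h4
    exact one_ne_zero h4
  · rw [h3, pow_one]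
  · exfalso
    have hq0 : (q : ℤ) ^ 2 ≠ 0 := pow_ne_zero _ (by exact_mod_cast hq.ne_zero)
    have h4 : nm r = 1 := by
      rw [h3] at h1
      exact mul_left_cancel₀ hq0 (by rw [h1, mul_one])
    have h5 : IsUnit r := (hu r).2 h4
    have h6 : (q : OO A B) ∣ lam := by
      rw [hr]
      obtain ⟨s, hs⟩ := h5
      exact ⟨(s⁻¹ : (OO A B)ˣ), by rw [← hs, mul_assoc, Units.mul_inv, mul_one]⟩
    obtain ⟨s, hs⟩ := h6.trans hn
    have h7 := congrArg QuadraticAlgebra.im hs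
    simp at h7
    have h8 : (q : ℤ) ∣ 1 := ⟨s.im, h7⟩
    have h9 := Int.eq_one_of_dvd_one (by positivity) h8
    exact hq.one_lt.ne' (by exact_mod_cast h9)

end

end Pool.Agent.MU3V


end

section

/-!
# MU3A, REP: classes prime to `m` are represented by products of primes of degree one
-/

set_option autoImplicit false

namespace Pool.Agent.MU3A

open _root_.MU3 _root_.Pool.Agent.MU3B Polynomial NumberField

noncomputable section

namespace A_REP

/-- if no prime divides `N`, `c` and `m`, then some `c + m t` is prime to `N` -/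
theorem exists_coprime {R : Type} [CommRing R] [IsDomain R] [IsPrincipalIdealRing R] (c m : R)
    (N : R) : N ≠ 0 → (∀ p, Prime p → p ∣ N → p ∣ c → p ∣ m → False) →
    ∃ t, IsCoprime (c + m * t) N := by
  induction N using UniqueFactorizationMonoid.induction_on_prime with
  | h₁ => exact fun h => absurd rfl h
  | h₂ x hx =>
    intro _ _
    exact ⟨0, (isCoprime_one_right (x := c + m * 0)).of_isCoprime_of_dvd_right hx.dvd⟩
  | h₃ a p ha hp ih =>
    intro _ h
    obtain ⟨t, ht⟩ := ih ha (fun q hq hqa => h q hq (hqa.mul_left p))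
    by_cases hpc : p ∣ c + m * t
    · have hpm : ¬ p ∣ m := by
        intro hpm
        exact h p hp (dvd_mul_right p a) ((dvd_add_left (hpm.mul_right t)).1 hpc) hpm
      have hpa : ¬ p ∣ a := fun hpa => hp.not_isUnit (ht.isUnit_of_dvd' hpc hpa)
      refine ⟨t + a, ?_⟩
      have e : c + m * (t + a) = (c + m * t) + m * a := by ring
      rw [e]
      apply IsCoprime.mul_right
      · refine (((hp.irreducible.coprime_iff_not_dvd).2 ?_)).symm
        intro hd
        rcases hp.dvd_or_dvd ((dvd_add_right hpc).1 hd) with h' | h'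
        · exact hpm h'
        · exact hpa h'
      · exact ht.add_mul_right_left m
    · exact ⟨t, IsCoprime.mul_right ((hp.irreducible.coprime_iff_not_dvd).2 hpc).symm ht⟩

/-- an element divides its norm -/
theorem dvd_nm {A B : ℤ} (x : OO A B) : x ∣ ((nm x : ℤ) : OO A B) := by
  refine ⟨⟨x.re + B * x.im, -x.im⟩, ?_⟩
  apply QuadraticAlgebra.ext
  · simp [nm, pow_two]
    ring
  · simp
    ring

end A_REP

theorem ta_REP (h1 : Sa_PID) : Sa_REP := by
  intro A B hAB m hm n hn c hc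
  obtain ⟨hdom, hpir, -, -, hnm0, -, hunit, hunit', hprime, -⟩ := h1 A B hAB
  -- the modulus
  have hnmm : nm m ≠ 0 := fun h => hm ((hnm0 m).1 h)
  set N : ℤ := (n : ℤ) * nm m with hNdef
  have hN0 : N ≠ 0 := mul_ne_zero (by exact_mod_cast hn) hnmm
  have hcast_dvd : ∀ a b : ℤ, a ∣ b → ((a : ℤ) : OO A B) ∣ ((b : ℤ) : OO A B) := by
    rintro a b ⟨d, rfl⟩
    exact ⟨(d : OO A B), by push_cast; ring⟩
  have hmN : m ∣ ((N : ℤ) : OO A B) :=
    (A_REP.dvd_nm m).trans (hcast_dvd _ _ (dvd_mul_left _ _))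
  have hN0' : ((N : ℤ) : OO A B) ≠ 0 := by
    intro h
    have h2 := congrArg QuadraticAlgebra.re h
    simp at h2
    exact hN0 h2
  -- the first step
  obtain ⟨t, ht⟩ := A_REP.exists_coprime c m ((N : ℤ) : OO A B) hN0'
    (fun p hp _ hpc hpm => hp.not_isUnit (hc.isUnit_of_dvd' hpc hpm))
  -- make the second coordinate nonzero
  obtain ⟨c₁, hc₁, hc₁m, hc₁b⟩ : ∃ c₁ : OO A B, IsCoprime c₁ ((N : ℤ) : OO A B) ∧ m ∣ c₁ - c ∧
      c₁.im ≠ 0 := by
    by_cases hb : (c + m * t).im = 0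
    · refine ⟨(c + m * t) + ((N : ℤ) : OO A B) * ⟨0, 1⟩, ?_, ?_, ?_⟩
      · exact ht.add_mul_left_left _
      · have e : c + m * t + ((N : ℤ) : OO A B) * ⟨0, 1⟩ - c =
            m * t + ((N : ℤ) : OO A B) * ⟨0, 1⟩ := by ring
        rw [e]
        exact dvd_add (dvd_mul_right _ _) (hmN.mul_right _)
      · have e : ((c + m * t) + ((N : ℤ) : OO A B) * ⟨0, 1⟩).im = N := by
          rw [QuadraticAlgebra.im_add, hb]
          simp
        rw [e]
        exact hN0
    · exact ⟨c + m * t, ht, ⟨t, by ring⟩, hb⟩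
  -- the second step
  obtain ⟨s, hs⟩ := A_REP.exists_coprime c₁.re N c₁.im hc₁b (by
    intro p hp hpb hpa hpN
    have hdc : ((p : ℤ) : OO A B) ∣ c₁ := by
      obtain ⟨u, hu⟩ := hpa
      obtain ⟨v, hv⟩ := hpb
      refine ⟨⟨u, v⟩, ?_⟩
      apply QuadraticAlgebra.ext
      · simp [hu]
      · simp [hv]
    have hu : IsUnit ((p : ℤ) : OO A B) := hc₁.isUnit_of_dvd' hdc (hcast_dvd _ _ hpN)
    have h2 : p = 1 ∨ p = -1 := by
      rcases (hunit _).1 hu with h | h
      · left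
        have h3 : ((p : ℤ) : OO A B).re = (1 : OO A B).re := congrArg QuadraticAlgebra.re h
        rw [QuadraticAlgebra.re_one] at h3
        simpa using h3
      · right
        have h3 : ((p : ℤ) : OO A B).re = (-1 : OO A B).re := congrArg QuadraticAlgebra.re h
        rw [QuadraticAlgebra.re_neg, QuadraticAlgebra.re_one] at h3
        simpa using h3
    apply hp.not_isUnit
    rcases h2 with rfl | rfl
    · exact isUnit_one
    · exact isUnit_one.neg)
  set c₂ : OO A B := c₁ + ((N : ℤ) : OO A B) * ((s : ℤ) : OO A B) with hc₂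
  have hre : c₂.re = c₁.re + N * s := by simp [hc₂]
  have him : c₂.im = c₁.im := by simp [hc₂]
  have hcop : IsCoprime c₂ ((N : ℤ) : OO A B) := hc₁.add_mul_left_left _
  have hcm : m ∣ c₂ - c := by
    have e : c₂ - c = (c₁ - c) + ((N : ℤ) : OO A B) * ((s : ℤ) : OO A B) := by
      rw [hc₂]
      ring
    rw [e]
    exact dvd_add hc₁m (hmN.mul_right _)
  have hc₂0 : c₂ ≠ 0 := by
    intro h
    apply hc₁b
    rw [← him, h]
    rfl
  have hcop2 : IsCoprime c₂.re c₂.im := by rw [hre, him]; exact hs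
  -- the factorisation
  obtain ⟨f, hf, u, hu⟩ := UniqueFactorizationMonoid.exists_prime_factors c₂ hc₂0
  refine ⟨f.toList, ?_, ?_⟩
  · intro p hp
    rw [Multiset.mem_toList] at hp
    have hpp := hf p hp
    have hpc : p ∣ c₂ := by
      rw [← hu]
      exact (Multiset.dvd_prod hp).mul_right _
    rcases hprime p hpp with ⟨q, hq, hqp⟩ | ⟨q, hq, hqp⟩
    · have hqN : ¬ (q : ℤ) ∣ N := by
        intro hqN
        apply hpp.not_isUnit
        apply hcop.isUnit_of_dvd' hpc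
        have h2 := A_REP.dvd_nm p
        rw [hqp] at h2
        exact h2.trans (hcast_dvd _ _ hqN)
      refine ⟨q, hq, hqp, ?_, ?_, ?_⟩
      · intro h
        exact hqN ((Int.natCast_dvd_natCast.2 h).mul_right _)
      · intro h
        exact hqN (h.mul_left _)
      · exact (hcop.of_isCoprime_of_dvd_left hpc).of_isCoprime_of_dvd_right hmN
    · exfalso
      have hqc : (q : OO A B) ∣ c₂ := by
        rcases hqp with h | h
        · rwa [h] at hpc
        · rw [h] at hpc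
          exact (neg_dvd).1 hpc
      obtain ⟨v, hv⟩ := hqc
      have e1 : (q : ℤ) ∣ c₂.re := ⟨v.re, by rw [hv]; simp⟩
      have e2 : (q : ℤ) ∣ c₂.im := ⟨v.im, by rw [hv]; simp⟩
      have h3 := hcop2.isUnit_of_dvd' e1 e2
      exact (Nat.prime_iff_prime_int.1 hq).not_isUnit h3
  · rw [Multiset.prod_toList]
    rcases (hunit (u : OO A B)).1 u.isUnit with h | h
    · left
      rw [h, mul_one] at hu
      rw [hu, ← dvd_neg, neg_sub]
      exact hcm
    · right
      rw [h, mul_neg, mul_one] at hu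
      have e : c + f.prod = -(c₂ - c) := by
        rw [← hu]
        ring
      rw [e, dvd_neg]
      exact hcm

end

end Pool.Agent.MU3A


end

section

/-!
# MU3, block A, NRM: the torsion field `F_m / k` is a finite Galois extension
-/

set_option autoImplicit false

namespace Pool.Agent.MU3A

open _root_.MU3 Polynomial

namespace P_NRM

variable {A B : ℤ}

/-- `m` divides its norm -/
theorem dvd_nm (m : OO A B) : m ∣ ((nm m : ℤ) : OO A B) := by
  refine ⟨⟨m.re + B * m.im, -m.im⟩, ?_⟩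
  ext
  · simp only [QuadraticAlgebra.re_mul, QuadraticAlgebra.re_intCast, nm, Int.cast_id]
    ring
  · simp only [QuadraticAlgebra.im_mul, QuadraticAlgebra.im_intCast]
    ring

/-- the generators of the torsion field -/
def gens (A B : ℤ) (L : PeriodPair) (m : OO A B) : Set ℂ :=
  {c | ∃ z : ℂ, emb m * z ∈ L.lattice ∧ z ∉ L.lattice ∧ (c = xx A B L z ∨ c = yy L z)}

theorem mem_TF {L : PeriodPair} {m : OO A B} {c : ℂ} (hc : c ∈ gens A B L m) : c ∈ TF L m :=
  IntermediateField.subset_adjoin _ _ hc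

theorem gens_finite (hE : Sa_EQN) (hP : Sa_PID) (hc : Case A B) {L : PeriodPair} {Om : ℂ}
    (hL : IsCM A B L Om) {m : OO A B} (hm : m ≠ 0) : (gens A B L m).Finite := by
  obtain ⟨-, -, -, hper, -⟩ := hE A B L Om hc hL
  have hN : nm m ≠ 0 := fun h => hm (((hP A B hc).2.2.2.2.1 m).1 h)
  set N := nm m with hNd
  have hfin : ((Set.Ico (0 : ℤ) |N|) ×ˢ (Set.Ico (0 : ℤ) |N|)).Finite :=
    (Set.finite_Ico _ _).prod (Set.finite_Ico _ _)
  refine ((hfin.image (fun p : ℤ × ℤ => xx A B L (emb (⟨p.1, p.2⟩ : OO A B) * (Om / emb m)))).union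
    (hfin.image (fun p : ℤ × ℤ => yy L (emb (⟨p.1, p.2⟩ : OO A B) * (Om / emb m))))).subset ?_
  rintro c ⟨z, hz1, hz2, hz3⟩
  obtain ⟨x, rfl⟩ := (hL.toIsLat.torsion_iff hc hm z).1 hz1
  have hmem : ((x.re % N, x.im % N) : ℤ × ℤ) ∈ (Set.Ico (0 : ℤ) |N|) ×ˢ (Set.Ico (0 : ℤ) |N|) :=
    ⟨⟨Int.emod_nonneg _ hN, Int.emod_lt_abs _ hN⟩, ⟨Int.emod_nonneg _ hN, Int.emod_lt_abs _ hN⟩⟩
  have hdiv : m ∣ x - ⟨x.re % N, x.im % N⟩ := by
    refine (dvd_nm m).trans ⟨⟨x.re / N, x.im / N⟩, ?_⟩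
    have e1 := Int.mul_ediv_add_emod x.re N
    have e2 := Int.mul_ediv_add_emod x.im N
    ext
    · simp only [QuadraticAlgebra.re_mul, QuadraticAlgebra.re_intCast, QuadraticAlgebra.im_intCast,
        QuadraticAlgebra.re_sub, ← hNd]
      linear_combination -e1
    · simp only [QuadraticAlgebra.im_mul, QuadraticAlgebra.re_intCast, QuadraticAlgebra.im_intCast,
        QuadraticAlgebra.im_sub, ← hNd]
      linear_combination -e2
  have hlat := (hL.toIsLat.mul_div_mem_iff hc hm _).2 hdiv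
  have hdec : emb x * (Om / emb m) = emb (⟨x.re % N, x.im % N⟩ : OO A B) * (Om / emb m) +
      emb (x - ⟨x.re % N, x.im % N⟩) * (Om / emb m) := by
    rw [emb_sub hc]; ring
  have hp := hper (emb (⟨x.re % N, x.im % N⟩ : OO A B) * (Om / emb m)) _ hlat
  rw [← hdec] at hp
  rcases hz3 with h | h
  · exact Or.inl ⟨(x.re % N, x.im % N), hmem, by rw [h, hp.1]⟩
  · exact Or.inr ⟨(x.re % N, x.im % N), hmem, by rw [h, hp.2]⟩

/-- a finite extension inside an algebraically closed field which contains the images of all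
embeddings is normal -/
theorem normal_of {k K : Type*} [Field k] [Field K] [Algebra k K] [IsAlgClosed K]
    (F : IntermediateField k K) [Algebra.IsAlgebraic k F]
    (h : ∀ σ : F →ₐ[k] K, ∀ x : F, σ x ∈ F) : Normal k F := by
  rw [normal_iff]
  intro x
  refine ⟨Algebra.IsIntegral.isIntegral x, ?_⟩
  apply IntermediateField.splits_of_splits (IsAlgClosed.splits _)
  intro r hr
  rw [← Algebra.IsAlgebraic.range_eval_eq_rootSet_minpoly (F := k) K x] at hr
  obtain ⟨σ, rfl⟩ := hr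
  exact h σ x

end P_NRM

open _root_.Pool.Agent.MU3A.P_NRM in
/-- (NRM) `F_m / k` is a finite Galois extension -/
theorem ta_NRM (h1 : Sa_ALG) (h2 : Sa_GAL) (h3 : Sa_EQN) (h4 : Sa_PID) : Sa_NRM := by
  intro A B L Om hc hL m hm
  have hfin := gens_finite h3 h4 hc hL hm
  have : Finite (gens A B L m) := hfin
  have hint : ∀ x ∈ gens A B L m, IsIntegral (kk A B) x := by
    rintro x ⟨z, hz1, hz2, hz3⟩
    have := h1 A B L Om hc hL m hm z hz1 hz2
    rcases hz3 with h | h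
    · rw [h]; exact this.1.isIntegral
    · rw [h]; exact this.2.isIntegral
  have hfd : FiniteDimensional (kk A B) (TF L m) :=
    IntermediateField.finiteDimensional_adjoin (S := gens A B L m) hint
  refine ⟨hfd, ?_⟩
  have halg : Algebra.IsAlgebraic (kk A B) (TF L m) := inferInstance
  have hnor : Normal (kk A B) (TF L m) := by
    apply normal_of
    intro σ x
    obtain ⟨a, ha1, ha2⟩ := h2 A B L Om hc hL m hm (TF L m) le_rfl σ
    have hgen : ∀ c (hc' : c ∈ gens A B L m), σ ⟨c, mem_TF hc'⟩ ∈ TF L m := by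
      intro c hc'
      obtain ⟨z, hz1, hz2, hz3⟩ := id hc'
      obtain ⟨hz4, hz5, hz6⟩ := ha2 z hz1 hz2
      have hz7 : emb m * (emb a * z) ∈ L.lattice := by
        have := hL.toIsLat.emb_mul_mem hc a hz1
        rwa [mul_left_comm] at this
      rcases hz3 with h | h
      · subst h
        rw [hz5]
        exact mem_TF ⟨emb a * z, hz7, hz4, Or.inl rfl⟩
      · subst h
        rw [hz6]
        exact mem_TF ⟨emb a * z, hz7, hz4, Or.inr rfl⟩
    have hall : ∀ x (hx : x ∈ TF L m), σ ⟨x, hx⟩ ∈ TF L m := by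
      intro x hx
      have hx' : x ∈ IntermediateField.adjoin (kk A B) (gens A B L m) := hx
      induction hx' using IntermediateField.adjoin_induction with
      | mem c hc' => exact hgen c hc'
      | algebraMap c =>
        have h := σ.commutes c
        have e : (algebraMap (kk A B) (TF L m) c) = ⟨algebraMap (kk A B) ℂ c, hx⟩ := rfl
        rw [← e, h]
        exact IntermediateField.algebraMap_mem _ c
      | add x y hu hv ihx ihy =>
        have hu' : x ∈ TF L m := hu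
        have hv' : y ∈ TF L m := hv
        have e : σ (⟨x + y, hx⟩ : TF L m)
            = σ (⟨x, hu'⟩ : TF L m) + σ (⟨y, hv'⟩ : TF L m) := by
          rw [← map_add]; rfl
        rw [e]
        exact add_mem (ihx hu') (ihy hv')
      | inv x hu ih =>
        have hu' : x ∈ TF L m := hu
        have e : σ (⟨x⁻¹, hx⟩ : TF L m) = (σ (⟨x, hu'⟩ : TF L m))⁻¹ := by
          rw [← map_inv₀]; rfl
        rw [e]
        exact inv_mem (ih hu')
      | mul x y hu hv ihx ihy =>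
        have hu' : x ∈ TF L m := hu
        have hv' : y ∈ TF L m := hv
        have e : σ (⟨x * y, hx⟩ : TF L m)
            = σ (⟨x, hu'⟩ : TF L m) * σ (⟨y, hv'⟩ : TF L m) := by
          rw [← map_mul]; rfl
        rw [e]
        exact mul_mem (ihx hu') (ihy hv')
    exact hall x.1 x.2
  have hchar : CharZero (kk A B) := inferInstance
  have hsep : Algebra.IsSeparable (kk A B) (TF L m) := inferInstance
  exact ⟨⟩

end Pool.Agent.MU3A


end

section

/-!
# HB, module ORN: orders, the inclusion and the norm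
-/

set_option autoImplicit false

open NumberField IsDedekindDomain
open scoped nonZeroDivisors

namespace Pool.Agent.HB

namespace ORN

/-- every automorphism is a power `σ^i`, `i < n` -/
lemma card_eq {k K : Type} [Field k] [NumberField k] [Field K] [NumberField K] [Algebra k K]
    {n : ℕ} {σ : K ≃ₐ[k] K} (h : Cyc n σ) : orderOf σ = n := by
  have h1 := h.gal
  rw [orderOf_eq_card_of_forall_mem_zpowers h.gen, ← h.deg, IsGalois.card_aut_eq_finrank]

lemma pow_apply' {k K : Type} [Field k] [Field K] [Algebra k K] (σ : K ≃ₐ[k] K) (i : ℕ) (x : K) :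
    (σ ^ i) x = (⇑σ)^[i] x := by
  induction i with
  | zero => rfl
  | succ i ih => rw [pow_succ', AlgEquiv.mul_apply, ih, Function.iterate_succ_apply']

lemma exists_pow {k K : Type} [Field k] [NumberField k] [Field K] [NumberField K] [Algebra k K]
    {n : ℕ} {σ : K ≃ₐ[k] K} (h : Cyc n σ) (τ : K ≃ₐ[k] K) : ∃ i < n, τ = σ ^ i := by
  classical
  have h1 := h.gen τ
  rw [mem_zpowers_iff_mem_range_orderOf, Finset.mem_image] at h1
  obtain ⟨i, hi, rfl⟩ := h1
  rw [Finset.mem_range, card_eq h] at hi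
  exact ⟨i, hi, rfl⟩

lemma su_iter {k K : Type} [Field k] [NumberField k] [Field K] [NumberField K] [Algebra k K]
    (σ : K ≃ₐ[k] K) (i : ℕ) (x : Kˣ) : (((⇑(su σ))^[i] x : Kˣ) : K) = (⇑σ)^[i] (x : K) := by
  induction i with
  | zero => rfl
  | succ i ih =>
    rw [Function.iterate_succ_apply', Function.iterate_succ_apply', ← ih]
    rfl

lemma prod_aut {k K : Type} [Field k] [NumberField k] [Field K] [NumberField K] [Algebra k K]
    {n : ℕ} {σ : K ≃ₐ[k] K} (h : Cyc n σ) (x : K) :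
    algebraMap k K (Algebra.norm k x) = ∏ i ∈ Finset.range n, (⇑σ)^[i] x := by
  classical
  have h1 := h.gal
  rw [Algebra.norm_eq_prod_automorphisms]
  symm
  refine Finset.prod_bij (fun i _ => σ ^ i) (fun i _ => Finset.mem_univ _) ?_ ?_ ?_
  · intro i hi j hj hij
    rw [Finset.mem_range] at hi hj
    rw [← card_eq h] at hi hj
    exact pow_injOn_Iio_orderOf hi hj hij
  · intro τ _
    obtain ⟨i, hi, rfl⟩ := exists_pow h τ
    exact ⟨i, Finset.mem_range.2 hi, rfl⟩
  · intro i _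
    rw [pow_apply']

lemma ord_prod {F : Type} [Field F] [NumberField F] (w : HeightOneSpectrum (𝓞 F)) {ι : Type}
    (s : Finset ι) (f : ι → Fˣ) : ord w (∏ i ∈ s, f i) = ∑ i ∈ s, ord w (f i) := by
  classical
  induction s using Finset.induction_on with
  | empty => simp
  | insert a s ha ih => rw [Finset.prod_insert ha, Finset.sum_insert ha, ord_mul, ih]

/-- the sum over the orbit, averaged -/
lemma average {X : Type} [Fintype X] (π : Equiv.Perm X) (n : ℕ) (hn : ∀ x, (⇑π)^[n] x = x)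
    (htr : ∀ x y : X, ∃ i : ℕ, (⇑π)^[i] x = y) (φ : X → ℤ) (x : X) :
    (Fintype.card X : ℤ) * ∑ i ∈ Finset.range n, φ ((⇑π)^[i] x) = n * ∑ y, φ y := by
  have hshift : ∀ y, ∑ i ∈ Finset.range n, φ ((⇑π)^[i] (π y)) =
      ∑ i ∈ Finset.range n, φ ((⇑π)^[i] y) := by
    intro y
    have h1 : ∑ i ∈ Finset.range (n + 1), φ ((⇑π)^[i] y) =
        ∑ i ∈ Finset.range n, φ ((⇑π)^[i] (π y)) + φ y := by
      rw [Finset.sum_range_succ']
      simp only [Function.iterate_succ_apply, Function.iterate_zero_apply]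
    have h2 : ∑ i ∈ Finset.range (n + 1), φ ((⇑π)^[i] y) =
        ∑ i ∈ Finset.range n, φ ((⇑π)^[i] y) + φ y := by
      rw [Finset.sum_range_succ, hn]
    linarith
  have hiter : ∀ (j : ℕ) (y : X), ∑ i ∈ Finset.range n, φ ((⇑π)^[i] ((⇑π)^[j] y)) =
      ∑ i ∈ Finset.range n, φ ((⇑π)^[i] y) := by
    intro j y
    induction j with
    | zero => rfl
    | succ j ih => rw [Function.iterate_succ_apply', hshift, ih]
  have hconst : ∀ y : X, ∑ i ∈ Finset.range n, φ ((⇑π)^[i] y) =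
      ∑ i ∈ Finset.range n, φ ((⇑π)^[i] x) := by
    intro y
    obtain ⟨j, rfl⟩ := htr x y
    exact hiter j x
  have hsum : ∑ y : X, ∑ i ∈ Finset.range n, φ ((⇑π)^[i] y) =
      (Fintype.card X : ℤ) * ∑ i ∈ Finset.range n, φ ((⇑π)^[i] x) := by
    rw [Finset.sum_congr rfl fun y _ => hconst y, Finset.sum_const, Finset.card_univ, nsmul_eq_mul]
  rw [← hsum, Finset.sum_comm]
  have : ∀ i ∈ Finset.range n, ∑ y : X, φ ((⇑π)^[i] y) = ∑ y, φ y := by
    intro i _
    have := Equiv.sum_comp (π ^ i) φ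
    rw [← this]
    refine Finset.sum_congr rfl fun y _ => ?_
    rw [Equiv.Perm.iterate_eq_pow]
  rw [Finset.sum_congr rfl this, Finset.sum_const, Finset.card_range, nsmul_eq_mul]

lemma lies_unique {k K : Type} [Field k] [NumberField k] [Field K] [NumberField K] [Algebra k K]
    {v v' : HeightOneSpectrum (𝓞 k)} {w : HeightOneSpectrum (𝓞 K)} (h : Lies k K v w)
    (h' : Lies k K v' w) : v = v' := by
  apply HeightOneSpectrum.ext
  exact h.symm.trans h'

lemma ord_iter {k K : Type} [Field k] [NumberField k] [Field K] [NumberField K] [Algebra k K]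
    {σ : K ≃ₐ[k] K} (π : Equiv.Perm (HeightOneSpectrum (𝓞 K)))
    (hπ : ∀ w x, ord (π w) (su σ x) = ord w x) (i : ℕ) (w : HeightOneSpectrum (𝓞 K)) (z : Kˣ) :
    ord w ((⇑(su σ))^[i] z) = ord ((⇑π.symm)^[i] w) z := by
  induction i generalizing w with
  | zero => rfl
  | succ i ih =>
    rw [Function.iterate_succ_apply', Function.iterate_succ_apply]
    have h1 := hπ (π.symm w) ((⇑(su σ))^[i] z)
    rw [Equiv.apply_symm_apply] at h1
    rw [h1, ih]

/-- the order of the norm -/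
lemma ord_norm {k K : Type} [Field k] [NumberField k] [Field K] [NumberField K] [Algebra k K]
    {n : ℕ} {σ : K ≃ₐ[k] K} (hc : Cyc n σ) (π : Equiv.Perm (HeightOneSpectrum (𝓞 K)))
    (hπ : ∀ w x, ord (π w) (su σ x) = ord w x)
    (hl : ∀ v w, Lies k K v w → Lies k K v (π w))
    (htr : ∀ v w w', Lies k K v w → Lies k K v w' → ∃ i : ℕ, (⇑π)^[i] w = w')
    (hn : ∀ w, (⇑π)^[n] w = w) (hbelow : ∀ w, ∃ v, Lies k K v w)
    (v : HeightOneSpectrum (𝓞 k)) [Fintype {w : HeightOneSpectrum (𝓞 K) // Lies k K v w}]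
    (w : HeightOneSpectrum (𝓞 K)) (hw : Lies k K v w) (z : Kˣ) :
    (gpr k K v : ℤ) * ord w (iu k K (nu k K z)) =
      n * ∑ w' : {w : HeightOneSpectrum (𝓞 K) // Lies k K v w}, ord w'.1 z := by
  have hiff : ∀ w, Lies k K v (π w) ↔ Lies k K v w := by
    intro w
    constructor
    · intro h
      obtain ⟨v', hv'⟩ := hbelow w
      rwa [lies_unique h (hl v' w hv')]
    · exact hl v w
  set ρ : Equiv.Perm {w : HeightOneSpectrum (𝓞 K) // Lies k K v w} := π.subtypePerm hiff with hρ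
  have hval : ∀ (i : ℕ) (x : {w : HeightOneSpectrum (𝓞 K) // Lies k K v w}),
      ((⇑ρ)^[i] x).1 = (⇑π)^[i] x.1 := by
    intro i x
    induction i with
    | zero => rfl
    | succ i ih =>
      rw [Function.iterate_succ_apply', Function.iterate_succ_apply', ← ih]
      rfl
  have hvals : ∀ (i : ℕ) (x : {w : HeightOneSpectrum (𝓞 K) // Lies k K v w}),
      ((⇑ρ.symm)^[i] x).1 = (⇑π.symm)^[i] x.1 := by
    intro i x
    induction i with
    | zero => rfl
    | succ i ih =>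
      rw [Function.iterate_succ_apply', Function.iterate_succ_apply', ← ih]
      apply π.injective
      rw [Equiv.apply_symm_apply]
      have : ∀ y, π (ρ.symm y).1 = y.1 := fun y => by
        have h2 : (ρ (ρ.symm y)).1 = y.1 := by rw [Equiv.apply_symm_apply]
        exact h2
      exact this _
  have hρn : ∀ x, (⇑ρ)^[n] x = x := fun x => Subtype.ext (by rw [hval, hn])
  have hinv : ∀ (i : ℕ) (x : {w : HeightOneSpectrum (𝓞 K) // Lies k K v w}),
      (⇑ρ.symm)^[i] ((⇑ρ)^[i] x) = x := by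
    intro i x
    exact (Function.LeftInverse.iterate ρ.symm_apply_apply i) x
  have h1 := average ρ.symm n (fun x => by
      have := hinv n x
      rwa [hρn] at this) (fun x y => by
      obtain ⟨i, hi⟩ := htr v y.1 x.1 y.2 x.2
      refine ⟨i, ?_⟩
      have h2 : (⇑ρ)^[i] y = x := Subtype.ext (by rw [hval, hi])
      rw [← h2, hinv]) (fun x => ord x.1 z) ⟨w, hw⟩
  rw [Fintype.card_eq_nat_card] at h1
  rw [gpr, ← h1]
  congr 1
  have h3 : iu k K (nu k K z) = ∏ i ∈ Finset.range n, (⇑(su σ))^[i] z := by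
    apply Units.ext
    rw [Units.coe_prod]
    rw [Finset.prod_congr rfl fun i _ => su_iter σ i z]
    exact prod_aut hc (z : K)
  rw [h3, ord_prod]
  refine Finset.sum_congr rfl fun i _ => ?_
  rw [hvals, ord_iter π hπ]

end ORN

open _root_.Pool.Agent.HB.ORN in
theorem th_ORN (h : Sh_ORG) : Sh_ORN := by
  intro k K _ _ _ _ _ n σ hc
  obtain ⟨π, hπ, hl, htr, hn, hex, hbelow, hfin, hg⟩ := h k K n σ hc
  have hgal := hc.gal
  have hP1 : ∀ x : K, (∀ i : ℕ, (⇑σ)^[i] x = x) → ∃ y : k, algebraMap k K y = x := by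
    intro x hx
    have h1 : x ∈ (⊥ : IntermediateField k K) := by
      rw [IsGalois.mem_bot_iff_fixed]
      intro τ
      obtain ⟨i, -, rfl⟩ := exists_pow hc τ
      rw [pow_apply']
      exact hx i
    rw [IntermediateField.mem_bot] at h1
    exact h1
  have hP3 : ∀ z : Kˣ, iu k K (nu k K z) = NN n (su σ) z := by
    intro z
    apply Units.ext
    have h1 : NN n (su σ) z = ∏ i ∈ Finset.range n, (⇑(su σ))^[i] z := rfl
    rw [h1, Units.coe_prod]
    rw [Finset.prod_congr rfl fun i _ => su_iter σ i z]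
    exact prod_aut hc (z : K)
  have hP5 : ∀ (v : HeightOneSpectrum (𝓞 k)) (w : HeightOneSpectrum (𝓞 K)), Lies k K v w →
      1 ≤ v.asIdeal.ramificationIdx' w.asIdeal ∧
      ∀ x : kˣ, ord w (iu k K x) = (v.asIdeal.ramificationIdx' w.asIdeal : ℕ) * ord v x := by
    intro v w hvw
    have hlies : w.asIdeal.LiesOver v.asIdeal := ⟨hvw.symm⟩
    refine ⟨Nat.one_le_iff_ne_zero.2
      (Ideal.IsDedekindDomain.ramificationIdx'_ne_zero_of_liesOver w.asIdeal v.ne_bot), ?_⟩
    intro x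
    have h1 := HeightOneSpectrum.valuation_liesOver K v w (x : k)
    unfold ord
    have h2 : ((iu k K x : Kˣ) : K) = algebraMap k K (x : k) := rfl
    rw [h2, ← h1, WithZero.log_pow, nsmul_eq_mul]
    ring
  have hgne : ∀ v, (gpr k K v : ℤ) ≠ 0 := fun v => by exact_mod_cast (hg v).2
  refine ⟨hP1, ?_, hP3, ?_, ?_, ?_, ?_, ?_⟩
  · intro x
    constructor
    · intro hx
      obtain ⟨y, hy⟩ := hP1 (x : K) (fun i => by
        rw [← su_iter]
        congr 1
        exact Function.iterate_fixed hx i)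
      have hy0 : y ≠ 0 := by
        rintro rfl
        rw [map_zero] at hy
        exact x.ne_zero hy.symm
      exact ⟨Units.mk0 y hy0, Units.ext hy⟩
    · rintro ⟨y, rfl⟩
      apply Units.ext
      exact σ.commutes (y : k)
  · intro x
    apply Units.ext
    rw [su_iter, ← pow_apply', ← card_eq hc, pow_orderOf_eq_one]
    rfl
  · intro v w hvw
    exact ⟨_, hP5 v w hvw⟩
  · intro v z hz
    obtain ⟨w, hw⟩ := hex v
    have := hfin v
    have := Fintype.ofFinite {w : HeightOneSpectrum (𝓞 K) // Lies k K v w}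
    have h1 := ord_norm hc π hπ hl htr hn hbelow v w hw z
    rw [Finset.sum_eq_zero (fun w' _ => hz w'.1 w'.2), mul_zero] at h1
    have h2 := (mul_eq_zero.1 h1).resolve_left (hgne v)
    obtain ⟨he, h3⟩ := hP5 v w hw
    rw [h3] at h2
    refine (mul_eq_zero.1 h2).resolve_left ?_
    exact_mod_cast (by omega : v.asIdeal.ramificationIdx' w.asIdeal ≠ 0)
  · intro v w z hw hN h1 h0
    classical
    have := hfin v
    have := Fintype.ofFinite {w : HeightOneSpectrum (𝓞 K) // Lies k K v w}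
    have h2 := ord_norm hc π hπ hl htr hn hbelow v w hw z
    rw [Finset.sum_eq_single (⟨w, hw⟩ : {w : HeightOneSpectrum (𝓞 K) // Lies k K v w})
      (fun w' _ hne => h0 w'.1 w'.2 fun he => hne (Subtype.ext he))
      (fun hne => absurd (Finset.mem_univ _) hne)] at h2
    simp only [h1] at h2
    obtain ⟨he, h3⟩ := hP5 v w hw
    rw [h3] at h2
    -- `g e f = n`, `f = 1`
    have hlies : w.asIdeal.LiesOver v.asIdeal := ⟨hw.symm⟩
    have hwp : w.asIdeal.IsPrime := w.isPrime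
    have hvp : v.asIdeal.IsPrime := v.isPrime
    have hvm : v.asIdeal.IsMaximal := v.isPrime.isMaximal v.ne_bot
    have hwm : w.asIdeal.IsMaximal := w.isPrime.isMaximal w.ne_bot
    have hfund := Ideal.ncard_primesOver_mul_ramificationIdxIn_mul_inertiaDegIn v.asIdeal (𝓞 K)
      (K ≃ₐ[k] K)
    rw [Ideal.ramificationIdxIn_eq_ramificationIdx v.asIdeal w.asIdeal (K ≃ₐ[k] K),
      Ideal.inertiaDegIn_eq_inertiaDeg v.asIdeal w.asIdeal (K ≃ₐ[k] K),
      ← Ideal.ramificationIdx'_eq_ramificationIdx v.asIdeal w.asIdeal v.ne_bot,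
      ← Ideal.inertiaDeg'_eq_inertiaDeg v.asIdeal w.asIdeal, IsGalois.card_aut_eq_finrank, hc.deg]
      at hfund
    have hf : Ideal.inertiaDeg' v.asIdeal w.asIdeal = 1 := by
      have h4 := Ideal.absNorm_eq_pow_inertiaDeg'_of_liesOver w.asIdeal v.asIdeal hvp v.ne_bot
      rw [hN] at h4
      have h5 : 1 < Ideal.absNorm v.asIdeal := by
        have h6 : Ideal.absNorm v.asIdeal ≠ 0 := by
          rw [Ne, Ideal.absNorm_eq_zero_iff]
          exact v.ne_bot
        have h7 : Ideal.absNorm v.asIdeal ≠ 1 := by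
          rw [Ne, Ideal.absNorm_eq_one_iff]
          exact v.isPrime.ne_top
        omega
      have h6 : Ideal.absNorm v.asIdeal ^ 1 =
          Ideal.absNorm v.asIdeal ^ Ideal.inertiaDeg' v.asIdeal w.asIdeal := by
        rw [pow_one]; exact h4
      exact (Nat.pow_right_injective h5 h6).symm
    have hg' : (v.asIdeal.primesOver (𝓞 K)).ncard = gpr k K v := by
      rw [gpr, ← Nat.card_coe_set_eq]
      refine Nat.card_congr ⟨fun P => ⟨⟨P.1, P.2.1, ?_⟩, ?_⟩, fun w => ⟨w.1.asIdeal, w.1.isPrime,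
        ⟨w.2.symm⟩⟩, fun P => rfl, fun w => rfl⟩
      · have := P.2.2
        exact Ideal.ne_bot_of_liesOver_of_ne_bot v.ne_bot P.1
      · exact P.2.2.over.symm
    rw [hg', hf, mul_one] at hfund
    rw [← hfund] at h2
    push_cast at h2
    have h8 : ((gpr k K v : ℤ) * (v.asIdeal.ramificationIdx' w.asIdeal : ℕ)) *
        (ord v (nu k K z) - 1) = 0 := by linarith
    have h9 := (mul_eq_zero.1 h8).resolve_left (mul_ne_zero (hgne v) (by
      exact_mod_cast (by omega : v.asIdeal.ramificationIdx' w.asIdeal ≠ 0)))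
    linarith
  · intro v hv z
    obtain ⟨w, hw⟩ := hex v
    have := hfin v
    have := Fintype.ofFinite {w : HeightOneSpectrum (𝓞 K) // Lies k K v w}
    have h1 := ord_norm hc π hπ hl htr hn hbelow v w hw z
    rw [hv w hw] at h1
    obtain ⟨c, hc'⟩ := (hg v).1
    have hgpos : 0 < gpr k K v := Nat.pos_of_ne_zero (hg v).2
    rw [hc', Nat.mul_div_cancel_left c hgpos]
    rw [hc'] at h1
    push_cast at h1
    rw [mul_assoc] at h1
    have h2 := mul_left_cancel₀ (hgne v) h1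
    exact ⟨_, h2⟩

end Pool.Agent.HB


end
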