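import Mathlib
import Pool.Agent.MVF.C027

/-! Parts: HB.H_NON, HB.H_IXW, HB.H_LOU, HB.H_LOC, HB.H_KMU, HB.H_STR, HB.H_VST, HB.H_SUN, HB.H_T1E, HB.H_PLC, HB.H_GJ, HB.H_ORG, HB.H_LTF, HB.H_LTZ, HB.H_FIN, HB.H_HQ, HB.HBAll -/

namespace Pool.Agent.HB.FIN
end Pool.Agent.HB.FIN
namespace Pool.Agent.HB.GJ
end Pool.Agent.HB.GJ
namespace Pool.Agent.HB.HQ
end Pool.Agent.HB.HQ
namespace Pool.Agent.HB.KMU
end Pool.Agent.HB.KMU
namespace Pool.Agent.HB.LOC
end Pool.Agent.HB.LOC
namespace Pool.Agent.HB.LOU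
end Pool.Agent.HB.LOU
namespace Pool.Agent.HB.Ltz
end Pool.Agent.HB.Ltz
namespace Pool.Agent.HB.STR
end Pool.Agent.HB.STR
namespace Pool.Agent.HB.SUN
end Pool.Agent.HB.SUN
namespace Pool.Agent.HB.VSTx
end Pool.Agent.HB.VSTx

section

/-!
# HB, module NON (helper54): the first inequality
-/

set_option autoImplicit false

open NumberField IsDedekindDomain

namespace Pool.Agent.HB

noncomputable section

theorem th_NON (hIXW : Sh_IXW) (hSUN : Sh_SUN) (hORG : Sh_ORG) : Sh_NON := by
  intro k K _ _ _ _ _ l m σ hl hC hTC S hU hG W hW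
  obtain ⟨n, hn⟩ : ∃ n, n = l ^ m := ⟨_, rfl⟩
  have hn0 : n ≠ 0 := by rw [hn]; exact pow_ne_zero _ hl.ne_zero
  have hsun := hSUN k K l m σ hl hC hTC S hU hG
  obtain ⟨π, -, -, -, -, -, -, -, hgp⟩ := hORG k K (l ^ m) σ hC
  rw [← hn] at hsun hgp hW ⊢
  have hix := hIXW k K n S W hW
  obtain ⟨W', hW'⟩ : ∃ W', W' = ⨅ v ∈ S, W v := ⟨_, rfl⟩
  obtain ⟨Ek, hEk⟩ : ∃ Ek, Ek = EU (S : Set (HeightOneSpectrum (𝓞 k))) := ⟨_, rfl⟩
  obtain ⟨N, hN⟩ : ∃ N, N = (EU (abv k K (S : Set (HeightOneSpectrum (𝓞 k))))).map (nu k K) :=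
    ⟨_, rfl⟩
  rw [← hW'] at hix ⊢
  rw [← hEk] at hsun ⊢
  rw [← hN] at hsun
  have hWi : W'.index ≠ 0 := by
    rw [hix, Finset.prod_ne_zero_iff]
    exact fun v hv => (hW v hv).fin
  have hprod : ∏ v ∈ S, (n / gpr k K v) ≤ W'.index := by
    rw [hix]
    refine Finset.prod_le_prod' fun v hv => ?_
    refine Nat.div_le_of_le_mul ?_
    rw [mul_comm]
    exact (hW v hv).big
  have hprod0 : ∏ v ∈ S, (n / gpr k K v) ≠ 0 := by
    rw [Finset.prod_ne_zero_iff]
    intro v _
    have h1 := hgp v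
    have h2 : gpr k K v ≤ n := Nat.le_of_dvd (Nat.pos_of_ne_zero hn0) h1.1
    exact (Nat.div_pos h2 (Nat.pos_of_ne_zero h1.2)).ne'
  have hNW : N ≤ W' := by
    rw [hN, hW']
    rintro x ⟨z, -, rfl⟩
    simp only [Subgroup.mem_iInf]
    exact fun v hv => (hW v hv).nrm z
  have hdvd : W'.relIndex Ek ∣ N.relIndex Ek := Subgroup.relIndex_dvd_of_le_left Ek hNW
  have hb0 : N.relIndex Ek ≠ 0 := by
    intro h
    rw [h, zero_mul] at hsun
    exact hprod0 hsun.symm
  have hab : W'.relIndex Ek ≤ N.relIndex Ek := Nat.le_of_dvd (Nat.pos_of_ne_zero hb0) hdvd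
  have hmul : W'.relIndex Ek * (W' ⊔ Ek).index = W'.index := by
    have h1 := Subgroup.relIndex_mul_index (le_sup_left : W' ≤ W' ⊔ Ek)
    rw [sup_comm W' Ek, Subgroup.relIndex_sup_right] at h1
    rw [sup_comm W' Ek]
    exact h1
  refine ⟨fun h => hWi ?_, ?_⟩
  · rw [← hmul, h, mul_zero]
  · refine Nat.le_of_mul_le_mul_left ?_ (Nat.pos_of_ne_zero hb0)
    calc N.relIndex Ek * n = ∏ v ∈ S, (n / gpr k K v) := hsun
      _ ≤ W'.index := hprod
      _ = W'.relIndex Ek * (W' ⊔ Ek).index := hmul.symm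
      _ ≤ N.relIndex Ek * (W' ⊔ Ek).index := Nat.mul_le_mul_right _ hab

end

end Pool.Agent.HB


end

section

/-!
# HB: (IXW) the index of the intersection (helper75)
-/

set_option autoImplicit false

open NumberField IsDedekindDomain
open scoped nonZeroDivisors

namespace Pool.Agent.HB

/-- two subgroups whose join is everything -/
private theorem ixw_inf_HBH_IXW {G : Type} [CommGroup G] (A B : Subgroup G) (h : A ⊔ B = ⊤) :
    (B ⊓ A).index = B.index * A.index := by
  rw [← Subgroup.relIndex_mul_index (H := B ⊓ A) (K := A) inf_le_right,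
    Subgroup.inf_relIndex_right]
  congr 1
  rw [← Subgroup.relIndex_sup_right, h, Subgroup.relIndex_top_right]

theorem th_IXW (h : Sh_WAP) : Sh_IXW := by
  classical
  intro k K _ _ _ _ _ n S W hW
  choose! M hM using fun v (hv : v ∈ S) => (hW v hv).opn
  have key : ∀ T : Finset (HeightOneSpectrum (𝓞 k)), T ⊆ S →
      (⨅ v ∈ T, W v).index = ∏ v ∈ T, (W v).index := by
    intro T
    induction T using Finset.induction_on with
    | empty =>
      intro _
      simp
    | insert v T hv ih =>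
      intro hT
      have hT' : T ⊆ S := fun w hw => hT (Finset.mem_insert_of_mem hw)
      have hvS : v ∈ S := hT (Finset.mem_insert_self _ _)
      rw [Finset.prod_insert hv, ← ih hT', Finset.iInf_insert]
      apply ixw_inf_HBH_IXW
      rw [eq_top_iff]
      intro y _
      obtain ⟨x, hx⟩ := h k (insert v T) (fun w => if w = v then y else 1) (S.sup M)
      have hle : ∀ w ∈ S, (WithZero.exp (-((S.sup M : ℕ) : ℤ)) : WithZero (Multiplicative ℤ)) ≤
          WithZero.exp (-(M w : ℤ)) := by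
        intro w hw
        rw [WithZero.exp_le_exp]
        have := Finset.le_sup (f := M) hw
        have h2 : (M w : ℤ) ≤ ((S.sup M : ℕ) : ℤ) := by exact_mod_cast this
        omega
      have h1 : x ∈ ⨅ w ∈ T, W w := by
        simp only [Subgroup.mem_iInf]
        intro w hw
        have hwv : w ≠ v := fun e => hv (e ▸ hw)
        have h3 := hx w (Finset.mem_insert_of_mem hw)
        simp only [hwv, if_false, inv_one, mul_one] at h3
        exact hM w (hT' hw) x (h3.trans (hle w (hT' hw)))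
      have h2 : x * y⁻¹ ∈ W v := by
        have h3 := hx v (Finset.mem_insert_self _ _)
        simp only [if_true] at h3
        exact hM v hvS (x * y⁻¹) (h3.trans (hle v hvS))
      have e : y = x * (x * y⁻¹)⁻¹ := by
        rw [mul_inv_rev, inv_inv]
        rw [mul_comm y, ← mul_assoc, mul_inv_cancel, one_mul]
      rw [e]
      exact mul_mem (Subgroup.mem_sup_left h1) (Subgroup.mem_sup_right (inv_mem h2))
  exact key S (Finset.Subset.refl S)

end Pool.Agent.HB


end

section

/-!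
# Module HB_LOU: the unramified case of the local first inequality
-/

set_option autoImplicit false

open NumberField IsDedekindDomain

namespace Pool.Agent.HB

noncomputable section

namespace LOU

/-- the order as a homomorphism -/
def ordHom {F : Type} [Field F] [NumberField F] (v : HeightOneSpectrum (𝓞 F)) :
    Fˣ →* Multiplicative ℤ where
  toFun x := Multiplicative.ofAdd (ord v x)
  map_one' := by simp
  map_mul' x y := by rw [ord_mul, ofAdd_add]

/-- the multiples of `d`, multiplicatively -/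
def mulS (d : ℕ) : Subgroup (Multiplicative ℤ) := AddSubgroup.toSubgroup (AddSubgroup.zmultiples (d : ℤ))

theorem mem_mulS (d : ℕ) (a : ℤ) : Multiplicative.ofAdd a ∈ mulS d ↔ (d : ℤ) ∣ a := by
  have h : Multiplicative.ofAdd a ∈ mulS d ↔ a ∈ AddSubgroup.zmultiples (d : ℤ) := Iff.rfl
  rw [h, Int.mem_zmultiples_iff]

theorem index_mulS (d : ℕ) : (mulS d).index = d := by
  have h : (mulS d).index = (AddSubgroup.zmultiples (d : ℤ)).index := rfl
  rw [h, Int.index_zmultiples, Int.natAbs_natCast]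

end LOU

open _root_.Pool.Agent.HB.LOU in
theorem th_LOU (hORN : Sh_ORN) (hORG : Sh_ORG) (hORD : Sh_ORD) : Sh_LOU := by
  intro k K _ _ _ _ _ n σ hσ v hv
  obtain ⟨-, -, -, -, -, -, -, hN⟩ := hORN k K n σ hσ
  obtain ⟨π, -, -, -, -, -, -, -, hG⟩ := hORG k K n σ hσ
  obtain ⟨-, -, -, hap, hone⟩ := hORD k
  obtain ⟨hg1, hg0⟩ := hG v
  have hn0 : n ≠ 0 := by
    have h1 := hσ.deg
    have := hσ.gal
    have : FiniteDimensional ℚ K := inferInstance
    have h2 : FiniteDimensional k K := FiniteDimensional.right ℚ k K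
    rw [← h1]
    exact (Module.finrank_pos (R := k) (M := K)).ne'
  set d : ℕ := n / gpr k K v with hd
  have hdg : d * gpr k K v = n := Nat.div_mul_cancel hg1
  have hd0 : d ≠ 0 := by
    intro h
    rw [h, zero_mul] at hdg
    exact hn0 hdg.symm
  have hsurj : Function.Surjective (ordHom (F := k) v) := by
    intro a
    obtain ⟨x, hx⟩ := hap {v} (fun _ => Multiplicative.toAdd a)
    refine ⟨x, ?_⟩
    have := hx v (Finset.mem_singleton_self v)
    show Multiplicative.ofAdd (ord v x) = a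
    rw [this]
    rfl
  have hidx : ((mulS d).comap (ordHom (F := k) v)).index = d := by
    rw [Subgroup.index_comap_of_surjective _ hsurj, index_mulS]
  have hmem : ∀ x : kˣ, x ∈ (mulS d).comap (ordHom (F := k) v) ↔ (d : ℤ) ∣ ord v x := by
    intro x
    rw [Subgroup.mem_comap]
    exact mem_mulS d (ord v x)
  have hzero : ∀ x : kˣ, ord v x = 0 → x ∈ (mulS d).comap (ordHom (F := k) v) := by
    intro x hx
    rw [hmem, hx]
    exact dvd_zero _
  refine ⟨(mulS d).comap (ordHom (F := k) v), ⟨?_, ?_, ?_, ?_⟩, hzero⟩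
  · intro z
    rw [hmem]
    exact hN v hv z
  · exact ⟨1, fun x hx => hzero x (hone v x 1 le_rfl hx)⟩
  · rw [hidx]
    exact hd0
  · rw [hidx, hdg]

end

end Pool.Agent.HB


end

section

/-!
# HB, module LOC: the local first inequality
-/

set_option autoImplicit false

open NumberField IsDedekindDomain

namespace Pool.Agent.HB

namespace LOC

variable {G : Type} [CommGroup G]

/-- the index does not change if a subgroup of `A` is added to `B` -/
lemma relIndex_sup_le (A B V : Subgroup G) (hVA : V ≤ A) :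
    A.relIndex (B ⊔ V) = A.relIndex B := by
  rw [← Subgroup.relIndex_sup_right (H := B ⊔ V) (K := A),
    ← Subgroup.relIndex_sup_right (H := B) (K := A), sup_assoc, sup_eq_right.2 hVA]

variable {k K : Type} [Field k] [NumberField k] [Field K] [NumberField K] [Algebra k K]

/-- the degree is not zero -/
lemma n_ne {n : ℕ} {σ : K ≃ₐ[k] K} (hC : Cyc n σ) : n ≠ 0 := by
  have := Pool.Agent.FX.fd k K
  rw [← hC.deg]
  exact Module.finrank_pos.ne'

/-- an element of `k` which is integral at `v` is integral above `v` -/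
lemma intV {v : HeightOneSpectrum (𝓞 k)}
    (h : ∀ w, Lies k K v w → ∃ e : ℕ, 1 ≤ e ∧ ∀ x : kˣ, ord w (iu k K x) = e * ord v x)
    {y : k} (hy : v.valuation k y ≤ 1) : IntV k K v (algebraMap k K y) := by
  intro w hw
  obtain ⟨e, he, h1⟩ := h w hw
  by_cases hy0 : y = 0
  · rw [hy0, map_zero, map_zero]
    exact zero_le_one
  have h2 := h1 (Units.mk0 y hy0)
  have h3 := ord_val v (Units.mk0 y hy0)
  rw [Units.val_mk0] at h3
  rw [h3, ← WithZero.exp_zero, WithZero.exp_le_exp] at hy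
  have h4 := ord_val w (iu k K (Units.mk0 y hy0))
  have h5 : ((iu k K (Units.mk0 y hy0) : Kˣ) : K) = algebraMap k K y := rfl
  rw [h5] at h4
  rw [h4, ← WithZero.exp_zero, WithZero.exp_le_exp, h2]
  have h6 : 0 ≤ ord v (Units.mk0 y hy0) := by omega
  have h7 : 0 ≤ (e : ℤ) * ord v (Units.mk0 y hy0) := mul_nonneg (Int.natCast_nonneg e) h6
  omega

end LOC

open _root_.Pool.Agent.HB.LOC in
/-- (LOC) the local first inequality. -/
theorem th_LOC (hHQ : Sh_HQ) (hFIN : Sh_FIN) (hNBL : Sh_NBL) (hVGP : Sh_VGP) (hSTR : Sh_STR)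
    (hKMU : Sh_KMU) (hORN : Sh_ORN) : Sh_LOC := by
  intro k K _ _ _ _ _ n σ hC v
  obtain ⟨π, θ, c, hpi, hint, hind, hspan, hlam⟩ := hNBL k K n σ hC v
  have hNB : NB n σ v π θ c := ⟨hpi, hint, hind, hspan, hlam⟩
  obtain ⟨V, U, hV, hU, hVU, sV, sU, hfin⟩ := hVGP k K n σ hC v π θ c hNB (c + 1) le_rfl
  obtain ⟨-, hfix, hnrm, hper, hord, -⟩ := hORN k K n σ hC
  obtain ⟨hk0, hk1⟩ := hKMU k K n σ hC v U hU
  have hn := n_ne hC
  have ht0U : t0 n (su σ) ⊤ U ≠ 0 := by
    intro h
    rw [h, zero_mul] at hk0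
    exact hn hk0.symm
  obtain ⟨hf, hf0⟩ := hFIN Kˣ n (su σ) hper U V hVU sU sV hfin
  obtain ⟨hT0, hT1, hT⟩ := hHQ Kˣ n (su σ) hper ⊤ U V hVU le_top
    (fun x _ => Subgroup.mem_top _) sU sV ht0U (by rw [hk1]; exact one_ne_zero) hf0
    (by rw [← hf]; exact hf0)
  have hT2 : t0 n (su σ) ⊤ V = t1 n (su σ) ⊤ V * t0 n (su σ) ⊤ U := by
    rw [hk1, one_mul, ← hf] at hT
    apply Nat.eq_of_mul_eq_mul_right (Nat.pos_of_ne_zero hf0)
    rw [hT]
    ring
  set A : Subgroup Kˣ := (⊤ : Subgroup Kˣ).map (NN n (su σ)) ⊔ V with hA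
  have hB : (⊤ : Subgroup Kˣ) ⊓ V.comap (DD (su σ)) = (iu k K).range ⊔ V := by
    rw [top_inf_eq]
    apply le_antisymm
    · intro α hα
      have h1 : InVM n σ v π θ (c + 1) (su σ α / α) := (hV _).1 hα
      obtain ⟨y, hy⟩ := hSTR k K n σ hC v π θ c hNB (c + 1) le_rfl α h1
      rw [← mul_div_cancel (iu k K y) α]
      exact Subgroup.mul_mem_sup ⟨y, rfl⟩ ((hV _).2 hy)
    · refine sup_le ?_ ?_
      · rintro _ ⟨y, rfl⟩
        show su σ (iu k K y) / iu k K y ∈ V
        rw [(hfix (iu k K y)).2 ⟨y, rfl⟩, div_self']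
        exact one_mem _
      · intro x hx
        exact V.div_mem (sV x hx) hx
  have hidx : (A.comap (iu k K)).index = t0 n (su σ) ⊤ V := by
    rw [Subgroup.index_comap]
    unfold t0
    rw [hB, ← hA, relIndex_sup_le A _ V le_sup_right]
  refine ⟨A.comap (iu k K), ?_, ?_, ?_, ?_⟩
  · intro z
    show iu k K (nu k K z) ∈ A
    rw [hnrm z]
    exact Subgroup.mem_sup_left ⟨z, Subgroup.mem_top z, rfl⟩
  · refine ⟨c + 1 + c, fun x hx => ?_⟩
    show iu k K x ∈ A
    apply Subgroup.mem_sup_right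
    rw [hV]
    have hpi0 : (π : k) ≠ 0 := π.ne_zero
    have hvpi : v.valuation k (π : k) = WithZero.exp (-1) := by
      rw [ord_val, hpi]
    set y : k := ((x : k) - 1) / (π : k) ^ (c + 1 + c) with hy
    have hy1 : v.valuation k y ≤ 1 := by
      rw [hy, map_div₀, map_pow, hvpi, ← WithZero.exp_nsmul]
      refine (div_le_one₀ (WithZero.exp_pos)).2 ?_
      refine hx.trans (le_of_eq ?_)
      congr 1
      simp
    refine ⟨algebraMap k K (π : k) ^ c * algebraMap k K y, hlam _ (intV (hord v) hy1), ?_⟩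
    have h1 : ((iu k K x : Kˣ) : K) = algebraMap k K (x : k) := rfl
    have h2 : (x : k) = 1 + (π : k) ^ (c + 1) * ((π : k) ^ c * y) := by
      rw [hy, ← mul_assoc, ← pow_add, mul_div_cancel₀ _ (pow_ne_zero _ hpi0)]
      ring
    rw [h1]
    conv_lhs => rw [h2]
    simp only [map_add, map_mul, map_pow, map_one]
  · rw [hidx]
    exact hT0
  · rw [hidx, hT2]
    calc n = t0 n (su σ) ⊤ U * gpr k K v := hk0.symm
      _ ≤ t1 n (su σ) ⊤ V * t0 n (su σ) ⊤ U * gpr k K v := by
        apply Nat.mul_le_mul_right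
        exact Nat.le_mul_of_pos_left _ (Nat.pos_of_ne_zero hT1)

end Pool.Agent.HB


end

section

/-!
# HB, module KMU: the Herbrand quotient of `Kˣ / U`, `U` the units at `v`
-/

set_option autoImplicit false

open NumberField IsDedekindDomain Function

namespace Pool.Agent.HB

noncomputable section

namespace KMU

/-- sums of a periodic function over several periods -/
lemma sum_periods (a : ℕ → ℤ) (P : ℕ) (ha : ∀ i, a (i + P) = a i) (q : ℕ) :
    ∑ i ∈ Finset.range (P * q), a i = q * ∑ i ∈ Finset.range P, a i := by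
  have hm : ∀ m j, a (P * m + j) = a j := by
    intro m
    induction m with
    | zero => intro j; rw [mul_zero, zero_add]
    | succ m ih =>
      intro j
      have h1 : P * (m + 1) + j = (P * m + j) + P := by ring
      rw [h1, ha, ih]
  induction q with
  | zero => simp
  | succ q ih =>
    rw [mul_add, mul_one, Finset.sum_range_add, ih]
    simp only [hm]
    push_cast
    ring

lemma sum_shift (a : ℕ → ℤ) (P : ℕ) (ha : a P = a 0) :
    ∑ i ∈ Finset.range P, a (i + 1) = ∑ i ∈ Finset.range P, a i := by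
  have h1 := Finset.sum_range_succ a P
  have h2 := Finset.sum_range_succ' a P
  rw [h2, ha] at h1
  linarith

variable {F : Type} [Field F] [NumberField F]

lemma ord_div (w : HeightOneSpectrum (𝓞 F)) (x y : Fˣ) : ord w (x / y) = ord w x - ord w y := by
  rw [div_eq_mul_inv, ord_mul, ord_inv, sub_eq_add_neg]

lemma ord_prod (w : HeightOneSpectrum (𝓞 F)) (n : ℕ) (x : ℕ → Fˣ) :
    ord w (∏ i ∈ Finset.range n, x i) = ∑ i ∈ Finset.range n, ord w (x i) := by
  induction n with
  | zero => simp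
  | succ n ih => rw [Finset.prod_range_succ, ord_mul, ih, Finset.sum_range_succ]

section
variable {π : Equiv.Perm (HeightOneSpectrum (𝓞 F))} {s : Fˣ →* Fˣ} {n : ℕ}

lemma ord_iter (h1 : ∀ w x, ord (π w) (s x) = ord w x) (i : ℕ) (w : HeightOneSpectrum (𝓞 F))
    (x : Fˣ) : ord ((⇑π)^[i] w) ((⇑s)^[i] x) = ord w x := by
  induction i with
  | zero => rfl
  | succ i ih => rw [iterate_succ_apply', iterate_succ_apply', h1, ih]

/-- the order of the norm -/
lemma ord_NN (h1 : ∀ w x, ord (π w) (s x) = ord w x) (hn : ∀ w, (⇑π)^[n] w = w)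
    (w : HeightOneSpectrum (𝓞 F)) (x : Fˣ) :
    ord w (NN n s x) = ∑ i ∈ Finset.range n, ord ((⇑π)^[i] w) x := by
  change ord w (∏ i ∈ Finset.range n, (⇑s)^[i] x) = _
  rw [ord_prod, ← sum_shift (fun i => ord ((⇑π)^[i] w) x) n (by simp only [hn, iterate_zero, id]),
    ← Finset.sum_range_reflect]
  refine Finset.sum_congr rfl fun i hi => ?_
  have hi' := Finset.mem_range.1 hi
  have h3 : (⇑π)^[n - 1 - i] ((⇑π)^[i + 1] w) = w := by
    rw [← iterate_add_apply]
    have : n - 1 - i + (i + 1) = n := by omega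
    rw [this, hn]
  have h4 := ord_iter h1 (n - 1 - i) ((⇑π)^[i + 1] w) x
  rw [h3] at h4
  exact h4

lemma ord_NN_shift (h1 : ∀ w x, ord (π w) (s x) = ord w x) (hn : ∀ w, (⇑π)^[n] w = w)
    (w : HeightOneSpectrum (𝓞 F)) (x : Fˣ) (j : ℕ) :
    ord ((⇑π)^[j] w) (NN n s x) = ord w (NN n s x) := by
  induction j with
  | zero => rfl
  | succ j ih =>
    rw [← ih, iterate_succ_apply', ord_NN h1 hn, ord_NN h1 hn,
      ← sum_shift (fun i => ord ((⇑π)^[i] ((⇑π)^[j] w)) x) n
        (by simp only [hn, iterate_zero, id])]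
    rfl

end

end KMU

open _root_.Pool.Agent.HB.KMU

/-- KMU. -/
theorem th_KMU (hORG : Sh_ORG) (hORD : Sh_ORD) : Sh_KMU := by
  intro k K _ _ _ _ _ n σ hC v U hU
  classical
  obtain ⟨π, h1, h2, h3, hn, h5, -, h7, h8⟩ := hORG k K n σ hC
  obtain ⟨-, -, -, hA, -⟩ := hORD K
  obtain ⟨w₀, hw₀⟩ := h5 v
  have hfin := Pool.Agent.FX.fd k K
  have hn0 : 0 < n := by
    rw [← hC.deg]
    exact Module.finrank_pos
  set s := su σ with hs
  have hper : IsPeriodicPt (⇑π) n w₀ := hn w₀
  set P := minimalPeriod (⇑π) w₀ with hP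
  have hP0 : 0 < P := hper.minimalPeriod_pos hn0
  obtain ⟨q, hq⟩ : P ∣ n := hper.minimalPeriod_dvd
  have hq0 : q ≠ 0 := by
    rintro rfl
    omega
  have hPw : (⇑π)^[P] w₀ = w₀ := iterate_minimalPeriod
  have hX : ∀ j, Lies k K v ((⇑π)^[j] w₀) := by
    intro j
    induction j with
    | zero => exact hw₀
    | succ j ih => rw [iterate_succ_apply']; exact h2 _ _ ih
  have hXs : ∀ w, Lies k K v w → ∃ i, i < P ∧ (⇑π)^[i] w₀ = w := by
    intro w hw
    obtain ⟨i, hi⟩ := h3 v w₀ w hw₀ hw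
    refine ⟨i % P, Nat.mod_lt _ hP0, ?_⟩
    rw [iterate_mod_minimalPeriod_eq]
    exact hi
  have hinj : ∀ i j, i < P → j < P → (⇑π)^[i] w₀ = (⇑π)^[j] w₀ → i = j := by
    intro i j hi hj h
    exact (iterate_eq_iterate_iff_of_lt_minimalPeriod hi hj).1 h
  -- the number of primes
  have hg : gpr k K v = P := by
    have hb : Bijective (fun i : Fin P =>
        (⟨(⇑π)^[(i : ℕ)] w₀, hX i⟩ : {w : HeightOneSpectrum (𝓞 K) // Lies k K v w})) := by
      constructor
      · intro i j h
        exact Fin.ext (hinj i j i.2 j.2 (congrArg Subtype.val h))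
      · rintro ⟨w, hw⟩
        obtain ⟨i, hi, h⟩ := hXs w hw
        exact ⟨⟨i, hi⟩, Subtype.ext h⟩
    unfold gpr
    rw [← Nat.card_eq_of_bijective _ hb, Nat.card_eq_fintype_card, Fintype.card_fin]
  -- the order of the norm
  have hNq : ∀ x : Kˣ, ord w₀ (NN n s x) =
      q * ∑ i ∈ Finset.range P, ord ((⇑π)^[i] w₀) x := by
    intro x
    rw [ord_NN h1 hn, hq]
    refine sum_periods (fun i => ord ((⇑π)^[i] w₀) x) P (fun i => ?_) q
    simp only [iterate_add_apply, hPw]
  have hNc : ∀ (x : Kˣ) w, Lies k K v w → ord w (NN n s x) = ord w₀ (NN n s x) := by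
    intro x w hw
    obtain ⟨i, -, rfl⟩ := hXs w hw
    exact ord_NN_shift h1 hn w₀ x i
  -- constant orders
  have hcon : ∀ x : Kˣ, DD s x ∈ U → ∀ w, Lies k K v w → ord w x = ord w₀ x := by
    intro x hx w hw
    obtain ⟨i, -, rfl⟩ := hXs w hw
    clear hw
    induction i with
    | zero => rfl
    | succ i ih =>
      rw [← ih]
      have h := (hU _).1 hx ((⇑π)^[i + 1] w₀) (hX _)
      change ord _ (s x / x) = 0 at h
      rw [ord_div, iterate_succ_apply', h1] at h
      rw [iterate_succ_apply']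
      linarith
  have hDU : ∀ x : Kˣ, (∀ w, Lies k K v w → ord w x = ord w₀ x) → DD s x ∈ U := by
    intro x hx
    rw [hU]
    intro w hw
    obtain ⟨i, hi⟩ := h3 v w₀ w hw₀ hw
    have hwi : w = π ((⇑π)^[i + (n - 1)] w₀) := by
      rw [← iterate_succ_apply' (⇑π)]
      have h9 : (i + (n - 1)).succ = i + n := by omega
      rw [h9, iterate_add_apply, hn, hi]
    change ord w (s x / x) = 0
    rw [ord_div, hx w hw, hwi, h1, hx _ (hX _), sub_self]
  have hT : Set.Finite {w | Lies k K v w} := Set.finite_coe_iff.1 (h7 v)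
  have happ : ∀ c : HeightOneSpectrum (𝓞 K) → ℤ, ∃ x : Kˣ, ∀ w, Lies k K v w → ord w x = c w := by
    intro c
    obtain ⟨x, hx⟩ := hA hT.toFinset c
    exact ⟨x, fun w hw => hx w (hT.mem_toFinset.2 hw)⟩
  have hUD : ∀ x ∈ U, DD s x ∈ U := fun x hx => hDU x fun w hw => by
    rw [(hU x).1 hx w hw, (hU x).1 hx w₀ hw₀]
  refine ⟨?_, ?_⟩
  · -- `t0`
    have hqn : t0 n s ⊤ U = q := by
      unfold t0 Subgroup.relIndex
      set A : Subgroup Kˣ := ⊤ ⊓ U.comap (DD s) with hAdef
      set H : Subgroup Kˣ := (⊤ : Subgroup Kˣ).map (NN n s) ⊔ U with hH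
      have hAm : ∀ x, x ∈ A ↔ DD s x ∈ U := by
        intro x
        rw [hAdef, Subgroup.mem_inf]
        exact ⟨fun h => h.2, fun h => ⟨Subgroup.mem_top x, h⟩⟩
      have : NeZero q := ⟨hq0⟩
      let f : A →* Multiplicative (ZMod q) :=
        { toFun := fun x => Multiplicative.ofAdd ((ord w₀ (x : Kˣ) : ℤ) : ZMod q)
          map_one' := by
            rw [Subgroup.coe_one, ord_one, Int.cast_zero]
            rfl
          map_mul' := fun x y => by
            rw [Subgroup.coe_mul, ord_mul, Int.cast_add, ofAdd_add] }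
      have hf : ∀ x : A, f x = 1 ↔ (q : ℤ) ∣ ord w₀ (x : Kˣ) := by
        intro x
        rw [← ZMod.intCast_zmod_eq_zero_iff_dvd]
        exact ofAdd_eq_one
      have hker : f.ker = H.subgroupOf A := by
        ext x
        rw [MonoidHom.mem_ker, hf, Subgroup.mem_subgroupOf, hH]
        constructor
        · rintro ⟨c, hc⟩
          obtain ⟨z, hz⟩ := happ fun w => if w = w₀ then c else 0
          have hz0 : ord w₀ (NN n s z) = ord w₀ (x : Kˣ) := by
            rw [hNq, hc]
            congr 1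
            rw [Finset.sum_eq_single_of_mem 0 (Finset.mem_range.2 hP0)]
            · change ord w₀ z = c
              rw [hz w₀ hw₀, if_pos rfl]
            · intro i hi hi0
              rw [hz _ (hX i), if_neg]
              intro h
              exact hi0 (hinj i 0 (Finset.mem_range.1 hi) hP0 h)
          refine Subgroup.mem_sup.2 ⟨NN n s z, Subgroup.mem_map_of_mem _ (Subgroup.mem_top z),
            (x : Kˣ) / NN n s z, ?_, by rw [mul_div_cancel]⟩
          rw [hU]
          intro w hw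
          rw [ord_div, hNc z w hw, hcon _ ((hAm _).1 x.2) w hw, hz0, sub_self]
        · intro hx
          obtain ⟨y, hy, u, hu, hyu⟩ := Subgroup.mem_sup.1 hx
          obtain ⟨z, -, rfl⟩ := hy
          rw [← hyu, ord_mul, (hU u).1 hu w₀ hw₀, add_zero, hNq]
          exact dvd_mul_right _ _
      have hsurj : Surjective f := by
        intro c
        obtain ⟨c', hc'⟩ := ZMod.intCast_surjective (Multiplicative.toAdd c)
        obtain ⟨x, hx⟩ := happ fun _ => c'
        refine ⟨⟨x, (hAm x).2 (hDU x fun w hw => by rw [hx w hw, hx w₀ hw₀])⟩, ?_⟩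
        change Multiplicative.ofAdd ((ord w₀ x : ℤ) : ZMod q) = c
        rw [hx w₀ hw₀, hc']
        rfl
      rw [← hker, Subgroup.index_ker, MonoidHom.range_eq_top.2 hsurj]
      rw [Nat.card_congr (Subgroup.topEquiv (G := Multiplicative (ZMod q))).toEquiv]
      exact Nat.card_zmod q
    rw [hqn, hg, hq, mul_comm]
  · -- `t1`
    unfold t1
    rw [Subgroup.relIndex_eq_one]
    intro x hx
    have hx2 : NN n s x ∈ U := hx.2
    have hsum : ∑ i ∈ Finset.range P, ord ((⇑π)^[i] w₀) x = 0 := by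
      have h := hNq x
      rw [(hU _).1 hx2 w₀ hw₀] at h
      have hq0' : (q : ℤ) ≠ 0 := by exact_mod_cast hq0
      exact (mul_eq_zero.1 h.symm).resolve_left hq0'
    let F : ℕ → ℤ := fun i => -∑ j ∈ Finset.range i, ord ((⇑π)^[j + 1] w₀) x
    have hF0 : F 0 = 0 := by simp [F]
    have hFP : F P = 0 := by
      have h := sum_shift (fun i => ord ((⇑π)^[i] w₀) x) P (by simp only [hPw, iterate_zero, id])
      change -∑ j ∈ Finset.range P, ord ((⇑π)^[j + 1] w₀) x = 0
      rw [h, hsum, neg_zero]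
    have hFs : ∀ i, F i - F (i + 1) = ord ((⇑π)^[i + 1] w₀) x := by
      intro i
      simp only [F]
      rw [Finset.sum_range_succ]
      ring
    obtain ⟨y, hy⟩ := happ fun w => if h : ∃ i, i < P ∧ (⇑π)^[i] w₀ = w then F h.choose else 0
    have hy' : ∀ i, i < P → ord ((⇑π)^[i] w₀) y = F i := by
      intro i hi
      have hex : ∃ i', i' < P ∧ (⇑π)^[i'] w₀ = (⇑π)^[i] w₀ := ⟨i, hi, rfl⟩
      rw [hy _ (hX i), dif_pos hex]
      rw [hinj _ _ hex.choose_spec.1 hi hex.choose_spec.2]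
    have hy'' : ∀ i, i ≤ P → ord ((⇑π)^[i] w₀) y = F i := by
      intro i hi
      rcases hi.lt_or_eq with h | rfl
      · exact hy' i h
      · rw [hPw, hFP]
        have := hy' 0 hP0
        rw [hF0] at this
        exact this
    refine Subgroup.mem_sup.2 ⟨DD s y, Subgroup.mem_map_of_mem _ (Subgroup.mem_top y),
      x / DD s y, ?_, by rw [mul_div_cancel]⟩
    rw [hU]
    intro w hw
    obtain ⟨i, hi, hiw⟩ : ∃ i, i < P ∧ (⇑π)^[i + 1] w₀ = w := by
      obtain ⟨i, hi, rfl⟩ := hXs w hw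
      rcases Nat.eq_zero_or_pos i with rfl | h0
      · refine ⟨P - 1, by omega, ?_⟩
        rw [Nat.sub_add_cancel hP0, hPw]
        rfl
      · exact ⟨i - 1, by omega, by rw [Nat.sub_add_cancel h0]⟩
    subst hiw
    rw [ord_div]
    change _ - ord _ (s y / y) = 0
    rw [ord_div, hy'' (i + 1) hi, iterate_succ_apply', h1, hy' i hi, hFs, iterate_succ_apply',
      sub_self]

end

end Pool.Agent.HB


end

section

/-!
# HB, module STR (helper83): an element which is invariant modulo `V_M` is in `kˣ V_M`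
-/

set_option autoImplicit false

open NumberField IsDedekindDomain
open scoped nonZeroDivisors

namespace Pool.Agent.HB

namespace STR

section
variable {k K : Type} [Field k] [NumberField k] [Field K] [NumberField K] [Algebra k K]

omit [NumberField k] [NumberField K] in
lemma coe_iter (σ : K ≃ₐ[k] K) (u : Kˣ) (i : ℕ) :
    (((⇑(su σ))^[i] u : Kˣ) : K) = (⇑σ)^[i] (u : K) := by
  induction i with
  | zero => rfl
  | succ i ih =>
    rw [Function.iterate_succ_apply', Function.iterate_succ_apply', ← ih]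
    rfl

lemma val_le (w : HeightOneSpectrum (𝓞 K)) (x : Kˣ) :
    w.valuation K (x : K) ≤ 1 ↔ 0 ≤ ord w x := by
  rw [ord_val, ← WithZero.exp_zero, WithZero.exp_le_exp]
  omega

lemma ord_pow (w : HeightOneSpectrum (𝓞 K)) (x : Kˣ) (d : ℕ) :
    ord w (x ^ d) = d * ord w x := by
  induction d with
  | zero => simp
  | succ d ih =>
    rw [pow_succ, ord_mul, ih]
    push_cast
    ring

variable {v : HeightOneSpectrum (𝓞 k)}

lemma int_add {x y : K} (hx : IntV k K v x) (hy : IntV k K v y) : IntV k K v (x + y) :=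
  fun w hw => (w.valuation K).map_add_le (hx w hw) (hy w hw)

lemma int_mul {x y : K} (hx : IntV k K v x) (hy : IntV k K v y) : IntV k K v (x * y) := by
  intro w hw
  rw [map_mul]
  exact mul_le_one' (hx w hw) (hy w hw)

lemma int_sum {ι : Type} (s : Finset ι) (f : ι → K) (h : ∀ i ∈ s, IntV k K v (f i)) :
    IntV k K v (∑ i ∈ s, f i) := by
  classical
  induction s using Finset.induction_on with
  | empty =>
    intro w _
    rw [Finset.sum_empty, map_zero]
    exact zero_le_one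
  | insert a s ha ih =>
    rw [Finset.sum_insert ha]
    exact int_add (h a (Finset.mem_insert_self a s))
      (ih fun i hi => h i (Finset.mem_insert_of_mem hi))

lemma int_alg
    (h5 : ∀ (v : HeightOneSpectrum (𝓞 k)) w, Lies k K v w → ∃ e : ℕ, 1 ≤ e ∧
      ∀ x : kˣ, ord w (iu k K x) = e * ord v x)
    {c : k} (hc : v.valuation k c ≤ 1) : IntV k K v (algebraMap k K c) := by
  intro w hw
  by_cases h0 : c = 0
  · rw [h0, map_zero, map_zero]
    exact zero_le_one
  obtain ⟨e, he, h⟩ := h5 v w hw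
  have h1 : 0 ≤ ord v (Units.mk0 c h0) := by
    rw [← val_le]
    exact hc
  have h2 : 0 ≤ ord w (iu k K (Units.mk0 c h0)) := by
    rw [h]
    positivity
  rw [← val_le] at h2
  exact h2

lemma int_sig (σ : K ≃ₐ[k] K) (τ : Equiv.Perm (HeightOneSpectrum (𝓞 K)))
    (g1 : ∀ w x, ord (τ w) (su σ x) = ord w x)
    (g2 : ∀ v w, Lies k K v w → Lies k K v (τ w)) (g6 : ∀ w, ∃ v, Lies k K v w)
    {x : K} (hx : IntV k K v x) : IntV k K v (σ x) := by
  intro w hw
  by_cases h0 : x = 0
  · rw [h0, map_zero, map_zero]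
    exact zero_le_one
  obtain ⟨v', hv'⟩ := g6 (τ.symm w)
  have h1 := g2 v' _ hv'
  rw [Equiv.apply_symm_apply] at h1
  have h2 : v = v' := HeightOneSpectrum.ext (hw.symm.trans h1)
  rw [← h2] at hv'
  have h3 := hx _ hv'
  have h4 : 0 ≤ ord (τ.symm w) (Units.mk0 x h0) := by
    rw [← val_le]
    exact h3
  rw [← g1, Equiv.apply_symm_apply, ← val_le] at h4
  exact h4

lemma int_iter (σ : K ≃ₐ[k] K) (τ : Equiv.Perm (HeightOneSpectrum (𝓞 K)))
    (g1 : ∀ w x, ord (τ w) (su σ x) = ord w x)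
    (g2 : ∀ v w, Lies k K v w → Lies k K v (τ w)) (g6 : ∀ w, ∃ v, Lies k K v w)
    {x : K} (hx : IntV k K v x) (i : ℕ) : IntV k K v ((⇑σ)^[i] x) := by
  induction i with
  | zero => exact hx
  | succ i ih =>
    rw [Function.iterate_succ_apply']
    exact int_sig σ τ g1 g2 g6 ih

lemma lam_smul {n : ℕ} {σ : K ≃ₐ[k] K} {θ a : K} (ha : Lam n v σ θ a) {c : k}
    (hc : v.valuation k c ≤ 1) : Lam n v σ θ (algebraMap k K c * a) := by
  obtain ⟨f, hf, h⟩ := ha
  refine ⟨fun i => c * f i, fun i => ?_, ?_⟩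
  · rw [map_mul]
    exact mul_le_one' hc (hf i)
  · rw [h, Finset.mul_sum]
    apply Finset.sum_congr rfl
    intro i _
    rw [map_mul]
    ring

lemma lam_zero {n : ℕ} {σ : K ≃ₐ[k] K} {θ : K} : Lam n v σ θ 0 := by
  refine ⟨fun _ => 0, fun i => ?_, ?_⟩
  · rw [map_zero]
    exact zero_le_one
  · simp

lemma lam_neg {n : ℕ} {σ : K ≃ₐ[k] K} {θ a : K} (ha : Lam n v σ θ a) :
    Lam n v σ θ (-a) := by
  have h := lam_smul ha (c := -1) (by rw [Valuation.map_neg, map_one])
  rwa [map_neg, map_one, neg_one_mul] at h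

/-- shift of the coordinates -/
def sh (m : ℕ) (c : ℕ → k) : ℕ → k := fun i => if i = 0 then c m else c (i - 1)

omit [NumberField k] [NumberField K] in
lemma shift (σ : K ≃ₐ[k] K) (θ : K) (m : ℕ) (hθ : (⇑σ)^[m + 1] θ = θ) (c : ℕ → k) :
    σ (∑ i ∈ Finset.range (m + 1), algebraMap k K (c i) * (⇑σ)^[i] θ) =
      ∑ i ∈ Finset.range (m + 1), algebraMap k K (sh m c i) * (⇑σ)^[i] θ := by
  rw [map_sum, Finset.sum_range_succ, Finset.sum_range_succ' _ m]
  congr 1
  · apply Finset.sum_congr rfl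
    intro i _
    rw [map_mul, AlgEquiv.commutes, ← Function.iterate_succ_apply' (⇑σ) i θ]
    simp [sh]
  · rw [map_mul, AlgEquiv.commutes, ← Function.iterate_succ_apply' (⇑σ) m θ, hθ]
    simp [sh]

end

end STR

open _root_.Pool.Agent.HB.STR in
theorem th_STR (hVST : Sh_VST) (hVGP : Sh_VGP) (hORG : Sh_ORG) (hORN : Sh_ORN) : Sh_STR := by
  intro k K _ _ _ _ _ n σ hC v π θ c hB M hM α hα
  obtain ⟨τ, g1, g2, -, -, g5, g6, g7, -⟩ := hORG k K n σ hC
  obtain ⟨o1, o2, -, o4, o5, -, -, -⟩ := hORN k K n σ hC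
  have hn : n ≠ 0 := by
    rw [← hC.deg]
    have := hC.gal
    exact (Module.finrank_pos (R := k) (M := K)).ne'
  obtain ⟨m, rfl⟩ := Nat.exists_eq_succ_of_ne_zero hn
  rw [Nat.succ_eq_add_one] at *
  obtain ⟨V, U, hV, hU, hVU, -, -, -⟩ := hVGP k K (m + 1) σ hC v π θ c hB M hM
  set p : K := algebraMap k K (π : k) with hp
  have hπ1 : v.valuation k (π : k) ≤ 1 := by
    have : (0 : ℤ) ≤ ord v π := by rw [hB.pi]; norm_num
    rwa [← val_le] at this
  have hπj : ∀ j : ℕ, v.valuation k ((π : k) ^ j) ≤ 1 := by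
    intro j
    rw [map_pow]
    exact pow_le_one' hπ1 j
  have hpow : ∀ j : ℕ, algebraMap k K ((π : k) ^ j) = p ^ j := fun j => map_pow _ _ _
  have p0 : p ≠ 0 := by
    rw [hp]
    exact (map_ne_zero _).2 π.ne_zero
  have iterθ : ∀ x : K, (⇑σ)^[m + 1] x = x := by
    intro x
    by_cases hx : x = 0
    · rw [hx]
      have : ∀ i : ℕ, (⇑σ)^[i] (0 : K) = 0 := by
        intro i
        induction i with
        | zero => rfl
        | succ i ih => rw [Function.iterate_succ_apply', ih, map_zero]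
      exact this _
    · have h := congrArg (fun u : Kˣ => (u : K)) (o4 (Units.mk0 x hx))
      have h' : (((⇑(su σ))^[m + 1] (Units.mk0 x hx) : Kˣ) : K) = x := h
      rw [coe_iter] at h'
      exact h'
  -- elements of `Λ` are integral
  have lam_int : ∀ a : K, Lam (m + 1) v σ θ a → IntV k K v a := by
    rintro a ⟨f, hf, rfl⟩
    apply int_sum
    intro i _
    exact int_mul (int_alg o5 (hf i)) (int_iter σ τ g1 g2 g6 hB.int i)
  -- iteration of VST
  have iter : ∀ j : ℕ, ∃ x : Kˣ, InVM (m + 1) σ v π θ M x ∧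
      InVM (m + 1) σ v π θ (M + j) (su σ (α / x) / (α / x)) := by
    intro j
    induction j with
    | zero =>
      refine ⟨1, ⟨0, lam_zero, by simp⟩, ?_⟩
      rw [div_one]
      exact hα
    | succ j ih =>
      obtain ⟨x, hx1, hx2⟩ := ih
      obtain ⟨x', hx3, hx4⟩ := hVST k K (m + 1) σ hC v π θ c hB (M + j) (by omega) (α / x) hx2
      refine ⟨x * x', ?_, ?_⟩
      · rw [← hV] at hx1 ⊢
        apply V.mul_mem hx1
        rw [hV]
        obtain ⟨a, ha, hxa⟩ := hx3
        refine ⟨algebraMap k K ((π : k) ^ j) * a, lam_smul ha (hπj j), ?_⟩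
        rw [hxa, hpow, pow_add]
        ring
      · rw [← div_div, ← add_assoc]
        exact hx4
  -- the bound `d`
  have := g7 v
  obtain ⟨d, hd⟩ : ∃ d : ℕ, ∀ w, Lies k K v w → |ord w α| ≤ d := by
    have h1 : (Set.range fun w : {w : HeightOneSpectrum (𝓞 K) // Lies k K v w} =>
      (ord w.1 α).natAbs).Finite := Set.finite_range _
    obtain ⟨d, hd⟩ := h1.bddAbove
    refine ⟨d, fun w hw => ?_⟩
    have h2 := hd (Set.mem_range_self (⟨w, hw⟩ : {w : HeightOneSpectrum (𝓞 K) // Lies k K v w}))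
    have h3 : (ord w α).natAbs ≤ d := h2
    rw [Int.abs_eq_natAbs]
    exact_mod_cast h3
  obtain ⟨x, hx1, hx2⟩ := iter (2 * d + 2 * c)
  have hxU : ∀ w, Lies k K v w → ord w x = 0 := by
    rw [← hU]
    exact hVU ((hV x).2 hx1)
  set β : Kˣ := α / x with hβ
  have hord : ∀ w, Lies k K v w → |ord w β| ≤ d := by
    intro w hw
    rw [hβ, div_eq_mul_inv, ord_mul, ord_inv, hxU w hw, neg_zero, add_zero]
    exact hd w hw
  have hpi : ∀ w, Lies k K v w → 1 ≤ ord w (iu k K π) := by
    intro w hw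
    obtain ⟨e, he, h⟩ := o5 v w hw
    rw [h, hB.pi, mul_one]
    exact_mod_cast he
  have hbig : ∀ w, Lies k K v w → (d : ℤ) ≤ ord w ((iu k K π) ^ d) := by
    intro w hw
    rw [ord_pow]
    have := hpi w hw
    nlinarith [Int.natCast_nonneg d]
  have hpi' : ((iu k K π : Kˣ) : K) = p := rfl
  have int1 : IntV k K v (p ^ d * β) := by
    intro w hw
    have h1 : 0 ≤ ord w ((iu k K π) ^ d * β) := by
      rw [ord_mul]
      have h2 := hbig w hw
      have h3 := (abs_le.1 (hord w hw)).1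
      omega
    rw [← val_le, Units.val_mul, Units.val_pow_eq_pow_val, hpi'] at h1
    exact h1
  have int2 : IntV k K v (p ^ d * (β : K)⁻¹) := by
    intro w hw
    have h1 : 0 ≤ ord w ((iu k K π) ^ d * β⁻¹) := by
      rw [ord_mul, ord_inv]
      have h2 := hbig w hw
      have h3 := (abs_le.1 (hord w hw)).2
      omega
    rw [← val_le, Units.val_mul, Units.val_pow_eq_pow_val, hpi', Units.val_inv_eq_inv_val] at h1
    exact h1
  -- `σ β - β`
  obtain ⟨a, ha, hxa⟩ := hx2
  have β0 : (β : K) ≠ 0 := β.ne_zero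
  have e1 : σ (β : K) - β = p ^ (M + (2 * d + 2 * c)) * (β * a) := by
    have h1 : ((su σ β / β : Kˣ) : K) = σ (β : K) / β := by
      rw [Units.val_div_eq_div_val]
      rfl
    rw [h1] at hxa
    have h2 : σ (β : K) = (1 + p ^ (M + (2 * d + 2 * c)) * a) * β := by
      rw [← hxa, div_mul_cancel₀ _ β0]
    rw [h2]
    ring
  obtain ⟨ε, hε, hεe⟩ := hB.lam (p ^ d * β * a) (int_mul int1 (lam_int a ha))
  set N : ℕ := M + d + c with hN
  have e2 : σ (β : K) - β = ∑ i ∈ Finset.range (m + 1),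
      algebraMap k K ((π : k) ^ N * ε i) * (⇑σ)^[i] θ := by
    have h1 : ∑ i ∈ Finset.range (m + 1), algebraMap k K ((π : k) ^ N * ε i) * (⇑σ)^[i] θ =
        p ^ N * ∑ i ∈ Finset.range (m + 1), algebraMap k K (ε i) * (⇑σ)^[i] θ := by
      rw [Finset.mul_sum]
      apply Finset.sum_congr rfl
      intro i _
      rw [map_mul, hpow]
      ring
    rw [h1, ← hεe, e1, hN]
    ring
  obtain ⟨b, hb⟩ := hB.span (β : K)
  have e3 := shift σ θ m (iterθ θ) b
  rw [← hb] at e3
  have e4 : ∑ i ∈ Finset.range (m + 1),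
      algebraMap k K (sh m b i - b i - (π : k) ^ N * ε i) * (⇑σ)^[i] θ = 0 := by
    have h1 : ∑ i ∈ Finset.range (m + 1),
        algebraMap k K (sh m b i - b i - (π : k) ^ N * ε i) * (⇑σ)^[i] θ =
        ∑ i ∈ Finset.range (m + 1), algebraMap k K (sh m b i) * (⇑σ)^[i] θ -
        ∑ i ∈ Finset.range (m + 1), algebraMap k K (b i) * (⇑σ)^[i] θ -
        ∑ i ∈ Finset.range (m + 1), algebraMap k K ((π : k) ^ N * ε i) * (⇑σ)^[i] θ := by
      rw [← Finset.sum_sub_distrib, ← Finset.sum_sub_distrib]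
      apply Finset.sum_congr rfl
      intro i _
      rw [map_sub, map_sub]
      ring
    rw [h1, ← e3, ← hb, ← e2]
    ring
  have e5 := hB.indep _ e4
  -- the coordinates of `β` are congruent
  have e6 : ∀ i, i ≤ m → b i = b 0 + (π : k) ^ N * -(∑ j ∈ Finset.range i, ε (j + 1)) := by
    intro i
    induction i with
    | zero => intro _; simp
    | succ i ih =>
      intro hi
      have h1 := ih (by omega)
      have h2 := e5 (i + 1) (by omega)
      have h3 : sh m b (i + 1) = b i := by simp [sh]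
      rw [h3] at h2
      rw [Finset.sum_range_succ]
      linear_combination h1 - h2
  set y' : K := algebraMap k K (b 0) * ∑ i ∈ Finset.range (m + 1), (⇑σ)^[i] θ with hy'
  have hfix : σ y' = y' := by
    have h1 := shift σ θ m (iterθ θ) (fun _ => b 0)
    have h2 : ∑ i ∈ Finset.range (m + 1), algebraMap k K (b 0) * (⇑σ)^[i] θ = y' := by
      rw [hy', Finset.mul_sum]
    have h3 : ∑ i ∈ Finset.range (m + 1), algebraMap k K (sh m (fun _ => b 0) i) * (⇑σ)^[i] θ =
        y' := by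
      rw [← h2]
      apply Finset.sum_congr rfl
      intro i _
      have : sh m (fun _ => b 0) i = b 0 := by simp [sh]
      rw [this]
    rw [h2, h3] at h1
    exact h1
  obtain ⟨y, hy⟩ := o1 y' (by
    intro i
    induction i with
    | zero => rfl
    | succ i ih => rw [Function.iterate_succ_apply', ih, hfix])
  -- `β - y'`
  have hlam : Lam (m + 1) v σ θ (∑ i ∈ Finset.range (m + 1),
      algebraMap k K (-(∑ j ∈ Finset.range i, ε (j + 1))) * (⇑σ)^[i] θ) := by
    refine ⟨_, fun i => ?_, rfl⟩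
    rw [Valuation.map_neg]
    exact Valuation.map_sum_le _ fun j _ => hε _
  set lam : K := ∑ i ∈ Finset.range (m + 1),
      algebraMap k K (-(∑ j ∈ Finset.range i, ε (j + 1))) * (⇑σ)^[i] θ with hlamdef
  have e7 : (β : K) - y' = p ^ N * lam := by
    have h1 : y' = ∑ i ∈ Finset.range (m + 1), algebraMap k K (b 0) * (⇑σ)^[i] θ := by
      rw [hy', Finset.mul_sum]
    rw [h1, hlamdef, Finset.mul_sum]
    nth_rewrite 1 [hb]
    rw [← Finset.sum_sub_distrib]
    apply Finset.sum_congr rfl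
    intro i hi
    rw [e6 i (by have := Finset.mem_range.1 hi; omega), map_add, map_mul, hpow]
    ring
  -- `y' / β` is in `V_M`
  obtain ⟨μ, hμ, hμe⟩ : ∃ μ : K, Lam (m + 1) v σ θ μ ∧
      p ^ c * (p ^ d * (β : K)⁻¹ * lam) = μ :=
    ⟨_, hB.lam _ (int_mul int2 (lam_int _ hlam)), rfl⟩
  have e8 : y' / β = 1 + p ^ M * -μ := by
    have h1 : y' = β - p ^ N * lam := by linear_combination -e7
    rw [h1, sub_div, div_self β0, ← hμe, hN]
    field_simp
    ring
  have hy0 : y' ≠ 0 := by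
    intro h0
    rw [h0, zero_div] at e8
    obtain ⟨w, hw⟩ := g5 v
    have h1 : p ^ M * μ = 1 := by linear_combination e8
    have h2 : w.valuation K (p ^ M * μ) < 1 := by
      rw [map_mul, map_pow]
      have h3 : w.valuation K p < 1 := by
        rw [← hpi', ord_val, ← WithZero.exp_zero, WithZero.exp_lt_exp]
        have := hpi w hw
        omega
      have h4 : w.valuation K p ^ M < 1 := pow_lt_one' h3 (by omega)
      exact mul_lt_one_of_lt_of_le h4 (lam_int _ hμ w hw)
    rw [h1, map_one] at h2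
    exact lt_irrefl _ h2
  have hyk : y ≠ 0 := by
    intro h0
    apply hy0
    rw [← hy, h0, map_zero]
  refine ⟨Units.mk0 y hyk, ?_⟩
  have hyV : iu k K (Units.mk0 y hyk) / β ∈ V := by
    rw [hV]
    refine ⟨-μ, lam_neg hμ, ?_⟩
    rw [Units.val_div_eq_div_val]
    have h1 : ((iu k K (Units.mk0 y hyk) : Kˣ) : K) = y' := hy
    rw [h1]
    exact e8
  rw [← hV]
  have h1 : α / iu k K (Units.mk0 y hyk) = x / (iu k K (Units.mk0 y hyk) / β) := by
    rw [hβ, div_div_eq_mul_div, mul_div_cancel]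
  rw [h1]
  exact V.div_mem ((hV x).2 hx1) hyV

end Pool.Agent.HB


end

section

/-!
# (VST): one step of the approximation (helper96)
-/

set_option autoImplicit false

open NumberField IsDedekindDomain

namespace Pool.Agent.HB

namespace VSTx

variable {k K : Type} [Field k] [NumberField k] [Field K] [NumberField K] [Algebra k K]

open _root_.Pool.Agent.HB.VGPx

/-- `∏ (1 + t a_i) = 1 + t ∑ a_i + t² e` -/
lemma expand {v : HeightOneSpectrum (𝓞 k)} (t : K) (ht : IntV k K v t) (a : ℕ → K)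
    (ha : ∀ i, IntV k K v (a i)) : ∀ N : ℕ, ∃ e : K, IntV k K v e ∧
      ∏ i ∈ Finset.range N, (1 + t * a i) = 1 + t * ∑ i ∈ Finset.range N, a i + t ^ 2 * e := by
  intro N
  induction N with
  | zero => exact ⟨0, iv_zero v, by simp⟩
  | succ N ih =>
    obtain ⟨e, he, h⟩ := ih
    refine ⟨e + (∑ i ∈ Finset.range N, a i) * a N + t * (e * a N),
      iv_add (iv_add he (iv_mul (iv_sum _ _ fun i _ => ha i) (ha N)))
        (iv_mul ht (iv_mul he (ha N))), ?_⟩
    rw [Finset.prod_range_succ, h, Finset.sum_range_succ]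
    ring

omit [NumberField k] [NumberField K] in
lemma coe_iter (σ : K ≃ₐ[k] K) (u : Kˣ) (i : ℕ) :
    (((⇑(su σ))^[i] u : Kˣ) : K) = (⇑σ)^[i] (u : K) := by
  induction i with
  | zero => rfl
  | succ i ih =>
    rw [Function.iterate_succ_apply', Function.iterate_succ_apply', ← ih]
    rfl

omit [NumberField k] [NumberField K] in
/-- the sum of the conjugates of `∑ c_j σ^j θ` -/
lemma tr_eq (σ : K ≃ₐ[k] K) (θ : K) (n : ℕ) (hs : ∀ x : K, (⇑σ)^[n] x = x) (c : ℕ → k) :
    ∑ i ∈ Finset.range n, (⇑σ)^[i] (∑ j ∈ Finset.range n, algebraMap k K (c j) * (⇑σ)^[j] θ) =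
      algebraMap k K (∑ j ∈ Finset.range n, c j) * ∑ i ∈ Finset.range n, (⇑σ)^[i] θ := by
  have h1 : ∀ i j : ℕ, (⇑σ)^[i] (algebraMap k K (c j) * (⇑σ)^[j] θ) =
      algebraMap k K (c j) * (⇑σ)^[j] ((⇑σ)^[i] θ) := by
    intro i j
    induction i with
    | zero => rfl
    | succ i ih =>
      rw [Function.iterate_succ_apply', ih, map_mul, AlgEquiv.commutes,
        ← Function.iterate_succ_apply' (⇑σ), Function.iterate_succ_apply (⇑σ) j,
        ← Function.iterate_succ_apply' (⇑σ) i]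
  have h2 : ∀ (i : ℕ) (f : ℕ → K) (s : Finset ℕ), (⇑σ)^[i] (∑ j ∈ s, f j) =
      ∑ j ∈ s, (⇑σ)^[i] (f j) := by
    intro i f s
    induction i with
    | zero => rfl
    | succ i ih =>
      rw [Function.iterate_succ_apply', ih, map_sum]
      exact Finset.sum_congr rfl fun j _ => by rw [Function.iterate_succ_apply']
  -- the sum of the conjugates is invariant
  set T : K := ∑ i ∈ Finset.range n, (⇑σ)^[i] θ with hT
  have h3 : σ T = T := by
    rw [hT, map_sum]
    have e1 := Finset.sum_range_succ (fun i => (⇑σ)^[i] θ) n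
    have e2 := Finset.sum_range_succ' (fun i => (⇑σ)^[i] θ) n
    rw [e1] at e2
    simp only [hs] at e2
    have e3 : (⇑σ)^[0] θ = θ := rfl
    rw [e3] at e2
    have e4 := add_right_cancel e2
    rw [e4]
    exact Finset.sum_congr rfl fun i _ => by rw [Function.iterate_succ_apply']
  have h4 : ∀ j : ℕ, (⇑σ)^[j] T = T := by
    intro j
    induction j with
    | zero => rfl
    | succ j ih => rw [Function.iterate_succ_apply', ih, h3]
  have h5 : ∀ i, (⇑σ)^[i] (∑ j ∈ Finset.range n, algebraMap k K (c j) * (⇑σ)^[j] θ) =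
      ∑ j ∈ Finset.range n, algebraMap k K (c j) * (⇑σ)^[j] ((⇑σ)^[i] θ) := by
    intro i
    rw [h2]
    exact Finset.sum_congr rfl fun j _ => h1 i j
  simp_rw [h5]
  rw [Finset.sum_comm, map_sum, Finset.sum_mul]
  refine Finset.sum_congr rfl fun j _ => ?_
  rw [← Finset.mul_sum, ← h2 j, h4]

end VSTx

open _root_.Pool.Agent.HB.VGPx _root_.Pool.Agent.HB.VSTx in
theorem th_VST (hORG : Sh_ORG) (hORN : Sh_ORN) : Sh_VST := by
  classical
  intro k K _ _ _ _ _ n σ hC v π θ c hNB M hM α hα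
  obtain ⟨P, hP1, hP2, -, hP4, hex, -, -, -⟩ := hORG k K n σ hC
  obtain ⟨-, -, -, hsn, hram, -⟩ := hORN k K n σ hC
  have hr := hram v
  have hn : 1 ≤ n := by
    rw [← hC.deg]
    exact Module.finrank_pos
  -- `σ^n = id`
  have hs : ∀ x : K, (⇑σ)^[n] x = x := by
    intro x
    rcases eq_or_ne x 0 with rfl | h0
    · exact Function.iterate_fixed (map_zero σ) n
    · have h1 := congrArg (fun u : Kˣ => (u : K)) (hsn (Units.mk0 x h0))
      simp only [coe_iter] at h1
      exact h1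
  -- the prime `π`
  obtain ⟨p, hp⟩ : ∃ p : K, p = algebraMap k K (π : k) := ⟨_, rfl⟩
  have hpv : ∀ w, Lies k K v w → w.valuation K p < 1 := by
    intro w hw
    obtain ⟨e, he, h⟩ := hr w hw
    have h1 := h π
    rw [hNB.pi, mul_one] at h1
    have h2 : 0 < ord w (iu k K π) := by
      rw [h1]; exact_mod_cast he
    rw [hp]
    exact (ORDx.ord_pos_iff _ _).1 h2
  have hpi : IntV k K v p := fun w hw => (hpv w hw).le
  have hord : ∀ (x : Kˣ) (w : HeightOneSpectrum (𝓞 K)), Lies k K v w →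
      ∃ w', Lies k K v w' ∧ ord w (su σ x) = ord w' x := by
    intro x w hw
    have hit : ∀ i : ℕ, Lies k K v ((⇑P)^[i] w) := by
      intro i
      induction i with
      | zero => exact hw
      | succ i ih =>
        rw [Function.iterate_succ_apply']
        exact hP2 v _ ih
    refine ⟨(⇑P)^[n - 1] w, hit _, ?_⟩
    have h := hP1 ((⇑P)^[n - 1] w) x
    have e : (n - 1).succ = n := by omega
    rw [← Function.iterate_succ_apply' (⇑P), e, hP4] at h
    exact h
  have hsig : ∀ x : K, IntV k K v x → IntV k K v (σ x) := by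
    intro x hx w hw
    rcases eq_or_ne x 0 with rfl | h0
    · rw [map_zero, map_zero]; exact zero_le
    · obtain ⟨w', hw', h⟩ := hord (Units.mk0 x h0) w hw
      have h1 := (ORDx.ord_nonneg_iff w' (Units.mk0 x h0)).2 (hx w' hw')
      rw [← h] at h1
      exact (ORDx.ord_nonneg_iff w (su σ (Units.mk0 x h0))).1 h1
  have hiti : ∀ (x : K), IntV k K v x → ∀ i : ℕ, IntV k K v ((⇑σ)^[i] x) := by
    intro x hx i
    induction i with
    | zero => exact hx
    | succ i ih =>
      rw [Function.iterate_succ_apply']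
      exact hsig _ ih
  have hLI : ∀ x : K, Lam n v σ θ x → IntV k K v x := by
    rintro x ⟨a, ha, rfl⟩
    exact iv_sum _ _ fun i _ => iv_mul (iv_alg v hr (ha i)) (hiti θ hNB.int i)
  have hIL : ∀ (j : ℕ) (x : K), c ≤ j → IntV k K v x → Lam n v σ θ (p ^ j * x) := by
    intro j x hj hx
    have h := hNB.lam (p ^ (j - c) * x) (iv_mul (iv_pow hpi _) hx)
    rw [← hp, ← mul_assoc, ← pow_add, Nat.add_sub_cancel' hj] at h
    exact h
  have hsp : ∀ i : ℕ, (⇑σ)^[i] p = p := by
    intro i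
    induction i with
    | zero => rfl
    | succ i ih => rw [Function.iterate_succ_apply', ih, hp, AlgEquiv.commutes]
  -- `u = σ α / α = 1 + p^M a`
  obtain ⟨a, ⟨cc, hcc, hacc⟩, hua⟩ := hα
  rw [← hp] at hua
  have haI : IntV k K v a := hLI a ⟨cc, hcc, hacc⟩
  have hprod : ∏ i ∈ Finset.range n, (1 + p ^ M * (⇑σ)^[i] a) = 1 := by
    have h1 : ∀ i : ℕ, (1 + p ^ M * (⇑σ)^[i] a) = (⇑σ)^[i] (1 + p ^ M * a) := by
      intro i
      induction i with
      | zero => rfl
      | succ i ih =>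
        rw [Function.iterate_succ_apply', Function.iterate_succ_apply', ← ih, map_add, map_one,
          map_mul, map_pow, hp, AlgEquiv.commutes]
    have h2 : ∀ N : ℕ, ∏ i ∈ Finset.range N, (⇑σ)^[i] (1 + p ^ M * a) =
        (⇑σ)^[N] (α : K) / α := by
      intro N
      have hα0 : (α : K) ≠ 0 := α.ne_zero
      induction N with
      | zero =>
        rw [Finset.prod_range_zero, Function.iterate_zero, id, div_self hα0]
      | succ N ih =>
        rw [Finset.prod_range_succ, ih, ← hua]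
        have e1 : ((su σ α / α : Kˣ) : K) = σ (α : K) / α := by
          rw [Units.val_div_eq_div_val]
          rfl
        have e2 : ∀ (i : ℕ) (x y : K), (⇑σ)^[i] (x / y) = (⇑σ)^[i] x / (⇑σ)^[i] y := by
          intro i x y
          induction i with
          | zero => rfl
          | succ i ih => simp only [Function.iterate_succ_apply', ih, map_div₀]
        rw [e1, e2, ← Function.iterate_succ_apply (⇑σ) N]
        have e3 : (⇑σ)^[N] (α : K) ≠ 0 := by
          rw [← coe_iter]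
          exact Units.ne_zero _
        field_simp
    rw [Finset.prod_congr rfl fun i _ => h1 i, h2, hs, div_self α.ne_zero]
  obtain ⟨e, he, hexp⟩ := expand (p ^ M) (iv_pow hpi M) (fun i => (⇑σ)^[i] a)
    (fun i => hiti a haI i) n
  have hp0 : p ≠ 0 := by
    rw [hp]
    exact (map_ne_zero _).2 π.ne_zero
  obtain ⟨M', rfl⟩ : ∃ M', M = M' + 1 := ⟨M - 1, by omega⟩
  -- the sum of the conjugates of `a`
  have htr : ∑ i ∈ Finset.range n, (⇑σ)^[i] a = p * (p ^ M' * -e) := by
    rw [hprod] at hexp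
    have h1 : p ^ (M' + 1) * (∑ i ∈ Finset.range n, (⇑σ)^[i] a - p * (p ^ M' * -e)) = 0 := by
      linear_combination -hexp
    rcases mul_eq_zero.1 h1 with h | h
    · exact absurd h (pow_ne_zero _ hp0)
    · exact sub_eq_zero.1 h
  obtain ⟨dd, hdd, hde⟩ := hIL M' (-e) (by omega) (iv_neg he)
  obtain ⟨s, hs'⟩ : ∃ s : k, s = ∑ j ∈ Finset.range n, cc j := ⟨_, rfl⟩
  have hsd : ∀ i < n, s - (π : k) * dd i = 0 := by
    refine hNB.indep (fun i => s - (π : k) * dd i) ?_
    have h1 := tr_eq σ θ n hs cc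
    rw [← hacc, htr, hde, ← hs'] at h1
    have h2 : ∑ i ∈ Finset.range n, algebraMap k K (s - (π : k) * dd i) * (⇑σ)^[i] θ =
        algebraMap k K s * ∑ i ∈ Finset.range n, (⇑σ)^[i] θ -
          p * ∑ i ∈ Finset.range n, algebraMap k K (dd i) * (⇑σ)^[i] θ := by
      rw [Finset.mul_sum, Finset.mul_sum, ← Finset.sum_sub_distrib]
      exact Finset.sum_congr rfl fun i _ => by
        rw [map_sub, map_mul, ← hp]
        ring
    rw [h2, ← h1]
    ring
  have hs0 : s = (π : k) * dd 0 := sub_eq_zero.1 (hsd 0 (by omega))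
  -- the element `b`
  obtain ⟨m, rfl⟩ : ∃ m, n = m + 1 := ⟨n - 1, by omega⟩
  let bb : ℕ → k := fun i => -∑ j ∈ Finset.range (i + 1), cc j
  have hbb : ∀ i, v.valuation k (bb i) ≤ 1 := by
    intro i
    rw [Valuation.map_neg]
    exact Valuation.map_sum_le _ fun j _ => hcc j
  obtain ⟨b, hb⟩ : ∃ b : K, b = ∑ i ∈ Finset.range (m + 1), algebraMap k K (bb i) * (⇑σ)^[i] θ :=
    ⟨_, rfl⟩
  have hbL : Lam (m + 1) v σ θ b := ⟨bb, hbb, hb⟩
  have hbI := hLI b hbL
  have hsb : σ b = ∑ i ∈ Finset.range m, algebraMap k K (bb i) * (⇑σ)^[i + 1] θ +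
      algebraMap k K (bb m) * θ := by
    rw [hb, map_sum, Finset.sum_range_succ]
    congr 1
    · refine Finset.sum_congr rfl fun i _ => ?_
      rw [map_mul, AlgEquiv.commutes, ← Function.iterate_succ_apply' (⇑σ)]
    · rw [map_mul, AlgEquiv.commutes, ← Function.iterate_succ_apply' (⇑σ), hs]
  have hab : a + b - σ b = p * (algebraMap k K (dd 0) * θ) := by
    have h1 : algebraMap k K s = p * algebraMap k K (dd 0) := by
      rw [hs0, map_mul, ← hp]
    have h2 : algebraMap k K (bb m) = -(p * algebraMap k K (dd 0)) := by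
      rw [← h1, ← map_neg, hs']
    rw [hsb, hacc, hb, Finset.sum_range_succ' _ m, Finset.sum_range_succ' _ m]
    have h3 : ∑ i ∈ Finset.range m, algebraMap k K (cc (i + 1)) * (⇑σ)^[i + 1] θ +
        ∑ i ∈ Finset.range m, algebraMap k K (bb (i + 1)) * (⇑σ)^[i + 1] θ =
        ∑ i ∈ Finset.range m, algebraMap k K (bb i) * (⇑σ)^[i + 1] θ := by
      rw [← Finset.sum_add_distrib]
      refine Finset.sum_congr rfl fun i _ => ?_
      have : bb i = cc (i + 1) + bb (i + 1) := by
        simp only [bb]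
        rw [Finset.sum_range_succ _ (i + 1)]
        ring
      rw [this, map_add]
      ring
    have h4 : algebraMap k K (bb 0) = - algebraMap k K (cc 0) := by
      rw [← map_neg]
      simp only [bb]
      rw [zero_add, Finset.sum_range_one]
    have h5 : (⇑σ)^[0] θ = θ := rfl
    rw [h5]
    linear_combination h3 + θ * h4 - θ * h2
  -- the unit `x`
  have hsmall : ∀ y : K, IntV k K v y → ∀ w, Lies k K v w →
      w.valuation K (1 + p ^ (M' + 1) * y) = 1 := by
    intro y hy w hw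
    have h1 : w.valuation K (p ^ (M' + 1) * y) < w.valuation K (1 : K) := by
      rw [map_mul, map_pow, map_one]
      refine lt_of_le_of_lt (mul_le_of_le_one_right' (hy w hw)) ?_
      exact pow_lt_one' (hpv w hw) (by omega)
    have h5 := Valuation.map_add_eq_of_lt_left (w.valuation K) h1
    rw [map_one] at h5
    exact h5
  have hx0 : 1 + p ^ (M' + 1) * b ≠ 0 := by
    intro h0
    obtain ⟨w, hw⟩ := hex v
    have h1 := hsmall b hbI w hw
    rw [h0, map_zero] at h1
    exact zero_ne_one h1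
  obtain ⟨x, hx⟩ : ∃ x : Kˣ, (x : K) = 1 + p ^ (M' + 1) * b := ⟨Units.mk0 _ hx0, rfl⟩
  refine ⟨x, ⟨b, hbL, by rw [← hp]; exact hx⟩, ?_⟩
  have hsx : σ (x : K) = 1 + p ^ (M' + 1) * σ b := by
    rw [hx, map_add, map_one, map_mul, map_pow, hp, AlgEquiv.commutes]
  have hsx0 : σ (x : K) ≠ 0 := by
    rw [Ne, map_eq_zero_iff σ σ.injective]
    exact x.ne_zero
  obtain ⟨z, hz⟩ : ∃ z : K, z = (σ (x : K))⁻¹ := ⟨_, rfl⟩
  have hzI : IntV k K v z := by
    intro w hw
    rw [hz, map_inv₀, hsx, hsmall _ (hsig b hbI) w hw, inv_one]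
  have hz1 : z * σ (x : K) = 1 := by
    rw [hz]
    exact inv_mul_cancel₀ hsx0
  obtain ⟨g, hg⟩ : ∃ g : K, g = algebraMap k K (dd 0) * θ + p ^ M' * (a * b) := ⟨_, rfl⟩
  have hdθ : Lam (m + 1) v σ θ (algebraMap k K (dd 0) * θ) := by
    refine ⟨fun i => if i = 0 then dd 0 else 0, fun i => ?_, ?_⟩
    · dsimp only
      split
      · exact hdd 0
      · rw [map_zero]; exact zero_le
    · rw [Finset.sum_eq_single 0]
      · simp
      · intro i _ hi
        simp [hi]
      · intro h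
        exact absurd (Finset.mem_range.2 (by omega)) h
  have hgL : Lam (m + 1) v σ θ g := by
    rw [hg]
    exact lam_add hdθ (hIL M' _ (by omega) (iv_mul haI hbI))
  refine ⟨g + p ^ (M' + 1) * -(σ b * z * g), lam_add hgL (hIL _ _ (by omega)
    (iv_neg (iv_mul (iv_mul (hsig b hbI) hzI) (hLI g hgL)))), ?_⟩
  rw [← hp]
  have e1 : ((su σ (α / x) / (α / x) : Kˣ) : K) = ((su σ α / α : Kˣ) : K) * x * z := by
    rw [map_div, hz]
    have h1 : ((su σ x : Kˣ) : K) = σ (x : K) := rfl
    have h2 := α.ne_zero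
    have h3 := x.ne_zero
    have h4 := (su σ x).ne_zero
    push_cast
    rw [h1]
    rw [h1] at h4
    field_simp
  rw [e1, hua]
  have e2 : z = 1 - p ^ (M' + 1) * σ b * z := by
    rw [hsx] at hz1
    linear_combination hz1
  have e3 : (1 + p ^ (M' + 1) * a) * (x : K) = σ (x : K) + p ^ (M' + 1 + 1) * g := by
    rw [hsx, hx, hg]
    linear_combination p ^ (M' + 1) * hab
  rw [e3]
  have e4 : (σ (x : K) + p ^ (M' + 1 + 1) * g) * z = 1 + p ^ (M' + 1 + 1) * (g * z) := by
    linear_combination hz1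
  rw [e4]
  linear_combination p ^ (M' + 1 + 1) * g * e2

end Pool.Agent.HB


end

section

/-!
# HB, module SUN: the index of the norms of `S`-units
-/

set_option autoImplicit false

open NumberField IsDedekindDomain
open scoped nonZeroDivisors

namespace Pool.Agent.HB

namespace SUN

variable {k K : Type} [Field k] [NumberField k] [Field K] [NumberField K] [Algebra k K]

/-- every prime of `K` lies above a prime of `k` -/
lemma exists_below (w : HeightOneSpectrum (𝓞 K)) : ∃ v : HeightOneSpectrum (𝓞 k), Lies k K v w :=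
  ⟨w.under (𝓞 k), rfl⟩

lemma iu_inj : Function.Injective (iu k K) :=
  Units.map_injective (algebraMap k K).injective

lemma nu_iu (x : kˣ) : nu k K (iu k K x) = x ^ Module.finrank k K := by
  apply Units.ext
  rw [Units.val_pow_eq_pow_val]
  exact Algebra.norm_algebraMap _

lemma ord_pow (v : HeightOneSpectrum (𝓞 k)) (x : kˣ) (n : ℕ) : ord v (x ^ n) = n * ord v x := by
  induction n with
  | zero => simp
  | succ n ih =>
    rw [pow_succ, ord_mul, ih]
    push_cast
    ring

end SUN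

open _root_.Pool.Agent.HB.SUN in
/-- SUN. -/
theorem th_SUN (h1 : Sh_HSU) (h2 : Sh_T1E) (h3 : Sh_ORN) : Sh_SUN := by
  intro k K _ _ _ _ _ l m σ hl hc htc S hun hgen
  obtain ⟨-, h5⟩ := h1 k K l m σ hl hc htc S
  rw [h2 k K (l ^ m) σ hc S hun hgen, one_mul] at h5
  obtain ⟨-, o2, o3, -, o5, o6, -, -⟩ := h3 k K (l ^ m) σ hc
  have hn0 : l ^ m ≠ 0 := pow_ne_zero _ hl.ne_zero
  -- the fixed `S`-units
  have hmem : ∀ x : kˣ, iu k K x ∈ EU (abv k K (S : Set (HeightOneSpectrum (𝓞 k)))) ↔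
      x ∈ EU (S : Set (HeightOneSpectrum (𝓞 k))) := by
    intro x
    constructor
    · intro hx v hv
      have h6 : ord v (nu k K (iu k K x)) = 0 := by
        apply o6 v (iu k K x)
        intro w hw
        apply hx w
        rintro ⟨v', hv', hw'⟩
        apply hv
        have h7 : v = v' := HeightOneSpectrum.ext (hw.symm.trans hw')
        rw [h7]
        exact hv'
      rw [nu_iu, hc.deg, ord_pow] at h6
      rcases mul_eq_zero.1 h6 with h7 | h7
      · exact absurd (by exact_mod_cast h7) hn0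
      · exact h7
    · intro hx w hw
      obtain ⟨v, hv⟩ := exists_below (k := k) w
      obtain ⟨e, -, he⟩ := o5 v w hv
      rw [he, hx v fun h => hw ⟨v, h, hv⟩, mul_zero]
  have e1 : EU (abv k K (S : Set (HeightOneSpectrum (𝓞 k)))) ⊓
      (⊥ : Subgroup Kˣ).comap (DD (su σ)) = (EU (S : Set (HeightOneSpectrum (𝓞 k)))).map (iu k K) := by
    ext z
    rw [Subgroup.mem_inf, Subgroup.mem_comap, Subgroup.mem_bot, Subgroup.mem_map]
    constructor
    · rintro ⟨hz1, hz2⟩
      have h6 : su σ z = z := div_eq_one.1 hz2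
      obtain ⟨x, rfl⟩ := (o2 z).1 h6
      exact ⟨x, (hmem x).1 hz1, rfl⟩
    · rintro ⟨x, hx, rfl⟩
      exact ⟨(hmem x).2 hx, div_eq_one.2 ((o2 _).2 ⟨x, rfl⟩)⟩
  have e2 : (EU (abv k K (S : Set (HeightOneSpectrum (𝓞 k))))).map (NN (l ^ m) (su σ)) ⊔ ⊥ =
      ((EU (abv k K (S : Set (HeightOneSpectrum (𝓞 k))))).map (nu k K)).map (iu k K) := by
    rw [sup_bot_eq, Subgroup.map_map]
    congr 1
    ext1 z
    exact (o3 z).symm
  unfold t0 at h5
  rw [e1, e2, Subgroup.relIndex_map_map_of_injective _ _ iu_inj] at h5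
  exact h5

end Pool.Agent.HB


end

section

/-!
# HB, T1E (helper2): `Ĥ⁻¹` of the `S`-units is trivial
-/

set_option autoImplicit false

open NumberField IsDedekindDomain

namespace Pool.Agent.HB

noncomputable section

private def t1eOrd_HBH_T1E {F : Type} [Field F] [NumberField F] (w : HeightOneSpectrum (𝓞 F)) :
    Fˣ →* Multiplicative ℤ where
  toFun x := Multiplicative.ofAdd (ord w x)
  map_one' := by rw [ord_one]; rfl
  map_mul' x y := by rw [ord_mul]; rfl

private lemma t1e_ord_div_HBH_T1E {F : Type} [Field F] [NumberField F] (w : HeightOneSpectrum (𝓞 F))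
    (x y : Fˣ) : ord w (x / y) = ord w x - ord w y := by
  rw [div_eq_mul_inv, ord_mul, ord_inv, sub_eq_add_neg]

private lemma t1e_ord_zpow_HBH_T1E {F : Type} [Field F] [NumberField F] (w : HeightOneSpectrum (𝓞 F))
    (x : Fˣ) (m : ℤ) : ord w (x ^ m) = m * ord w x := by
  have h := map_zpow (t1eOrd_HBH_T1E w) x m
  have h2 := congrArg Multiplicative.toAdd h
  simpa [t1eOrd_HBH_T1E] using h2

private lemma t1e_ord_prod_HBH_T1E {F : Type} [Field F] [NumberField F] (w : HeightOneSpectrum (𝓞 F))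
    {ι : Type} (T : Finset ι) (f : ι → Fˣ) : ord w (∏ i ∈ T, f i) = ∑ i ∈ T, ord w (f i) := by
  classical
  induction T using Finset.induction_on with
  | empty => simp
  | insert a T ha ih => rw [Finset.prod_insert ha, Finset.sum_insert ha, ord_mul, ih]

theorem th_T1E (hORG : Sh_ORG) (hORN : Sh_ORN) (hORD : Sh_ORD) : Sh_T1E := by
  intro k K _ _ _ _ _ n σ hc S hU hG
  classical
  obtain ⟨π, o1, o2, o3, -, o5, o6, -, -⟩ := hORG k K n σ hc
  obtain ⟨-, n2, n3, -, -, -, -, -⟩ := hORN k K n σ hc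
  have d1 := (hORD K).1
  unfold t1
  rw [Subgroup.relIndex_eq_one, sup_bot_eq]
  rintro u ⟨hu1, hu2⟩
  have hu2' : NN n (su σ) u = 1 := by simpa using hu2
  have hinj : Function.Injective (iu k K) :=
    Units.map_injective (f := ((algebraMap k K : k →+* K) : k →* K)) (algebraMap k K).injective
  have hnu : nu k K u = 1 := by
    apply hinj
    rw [n3, hu2', map_one]
  have hnorm : Algebra.norm k (u : K) = 1 := by
    have := congrArg (fun t : kˣ => (t : k)) hnu
    simpa [nu] using this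
  have := hc.gal
  have : IsCyclic (K ≃ₐ[k] K) := ⟨σ, hc.gen⟩
  obtain ⟨y, hy⟩ := groupCohomology.exists_div_of_norm_eq_one hc.gen hnorm
  obtain ⟨z, hz⟩ : ∃ z : Kˣ, su σ z / z = u := by
    refine ⟨y⁻¹, ?_⟩
    have : y / su σ y = u := by
      apply Units.ext
      rw [← hy]
      simp [su]
    rw [← this, map_inv, div_inv_eq_mul, mul_comm, ← div_eq_mul_inv]
  -- uniqueness of the prime below
  have huniq : ∀ v v' w, Lies k K v w → Lies k K v' w → v = v' := by
    intro v v' w h h'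
    apply HeightOneSpectrum.ext
    exact h.symm.trans h'
  have hstep : ∀ v w, v ∉ S → Lies k K v w → ord (π w) z = ord w z := by
    intro v w hv hw
    have hnot : π w ∉ abv k K (S : Set (HeightOneSpectrum (𝓞 k))) := by
      rintro ⟨v', hv', hw'⟩
      have := huniq v v' (π w) (o2 v w hw) hw'
      subst this
      exact hv (by simpa using hv')
    have h0 := hu1 (π w) hnot
    rw [← hz, t1e_ord_div_HBH_T1E] at h0
    have h1 := o1 w z
    omega
  have hiter : ∀ (i : ℕ) v w, v ∉ S → Lies k K v w →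
      Lies k K v ((⇑π)^[i] w) ∧ ord ((⇑π)^[i] w) z = ord w z := by
    intro i
    induction i with
    | zero => intro v w _ hw; exact ⟨hw, rfl⟩
    | succ i ih =>
      intro v w hv hw
      obtain ⟨a, b⟩ := ih v w hv hw
      rw [Function.iterate_succ', Function.comp]
      exact ⟨o2 _ _ a, (hstep v _ hv a).trans b⟩
  have hconst : ∀ v w w', v ∉ S → Lies k K v w → Lies k K v w' → ord w z = ord w' z := by
    intro v w w' hv hw hw'
    obtain ⟨i, hi⟩ := o3 v w w' hw hw'
    rw [← hi]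
    exact (hiter i v w hv hw).2.symm
  choose w0 hw0 using o5
  have hw0inj : Function.Injective w0 := by
    intro v v' h
    have := hw0 v
    rw [h] at this
    exact huniq v v' _ this (hw0 v')
  set c : HeightOneSpectrum (𝓞 k) → ℤ := fun v => ord (w0 v) z with hcdef
  have hfin : {v : HeightOneSpectrum (𝓞 k) | v ∉ S ∧ c v ≠ 0}.Finite := by
    refine Set.Finite.subset ((d1 z).preimage (hw0inj.injOn)) ?_
    rintro v ⟨_, hv⟩
    exact hv
  choose! xv hx1 hx2 using hG
  set T := hfin.toFinset with hT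
  set x : kˣ := ∏ v ∈ T, xv v ^ (c v) with hxdef
  have hordx : ∀ v, v ∉ S → ord v x = c v := by
    intro v' hv'
    have hv'' : v' ∉ (S : Set (HeightOneSpectrum (𝓞 k))) := by simpa using hv'
    rw [hxdef, t1e_ord_prod_HBH_T1E]
    by_cases hmem : v' ∈ T
    · rw [Finset.sum_eq_single_of_mem v' hmem]
      · rw [t1e_ord_zpow_HBH_T1E, hx1 v' hv'', mul_one]
      · intro b hb hne
        have hb' : b ∉ S := ((Set.Finite.mem_toFinset hfin).1 hb).1
        have hb'' : b ∉ (S : Set (HeightOneSpectrum (𝓞 k))) := by simpa using hb'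
        rw [t1e_ord_zpow_HBH_T1E, hx2 b hb'' v' hv'' (Ne.symm hne), mul_zero]
    · rw [Finset.sum_eq_zero]
      · by_contra hne
        exact hmem ((Set.Finite.mem_toFinset hfin).2 ⟨hv', fun h => hne h.symm⟩)
      · intro b hb
        have hb' : b ∉ S := ((Set.Finite.mem_toFinset hfin).1 hb).1
        have hb'' : b ∉ (S : Set (HeightOneSpectrum (𝓞 k))) := by simpa using hb'
        have hne : v' ≠ b := by rintro rfl; exact hmem hb
        rw [t1e_ord_zpow_HBH_T1E, hx2 b hb'' v' hv'' hne, mul_zero]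
  refine ⟨z / iu k K x, ?_, ?_⟩
  · intro w hw
    obtain ⟨v, hv⟩ := o6 w
    have hvS : v ∉ S := by
      intro h
      exact hw ⟨v, by simpa using h, hv⟩
    rw [t1e_ord_div_HBH_T1E, hU v hvS w hv x, hordx v hvS, hcdef]
    simp only
    rw [hconst v w (w0 v) hvS hv (hw0 v), sub_self]
  · have hfix : su σ (iu k K x) = iu k K x := (n2 _).2 ⟨x, rfl⟩
    show su σ (z / iu k K x) / (z / iu k K x) = u
    rw [map_div, hfix, ← hz, div_div_div_cancel_right]

end

end Pool.Agent.HB


end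

section

/-!
# HB: module PLC, the number of infinite places (helper48)
-/

set_option autoImplicit false

open NumberField IsDedekindDomain

namespace Pool.Agent.HB

namespace PLC

lemma card_tc (F : Type) [Field F] [NumberField F] (h : TC F) :
    2 * Fintype.card (InfinitePlace F) = Module.finrank ℚ F := by
  classical
  have h1 := InfinitePlace.card_add_two_mul_card_eq_rank F
  have h2 := InfinitePlace.card_eq_nrRealPlaces_add_nrComplexPlaces F
  have h3 : InfinitePlace.nrRealPlaces F = 0 := by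
    unfold InfinitePlace.nrRealPlaces
    rw [Fintype.card_eq_zero_iff]
    exact ⟨fun w => (InfinitePlace.not_isReal_iff_isComplex.2 (h w.1)) w.2⟩
  omega

end PLC

/-- (PLC) the number of infinite places -/
theorem th_PLC : Sh_PLC := by
  intro k F _ _ _ _ _ hk
  have hF : TC F := by
    intro v
    rw [← InfinitePlace.not_isReal_iff_isComplex]
    intro hv
    exact (InfinitePlace.not_isReal_iff_isComplex.2 (hk (v.comap (algebraMap k F))))
      (InfinitePlace.IsReal.comap (algebraMap k F) hv)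
  refine ⟨hF, ?_⟩
  have h1 := PLC.card_tc k hk
  have h2 := PLC.card_tc F hF
  have h3 := Pool.Agent.FX.fmul ℚ k F
  have h4 : 2 * Fintype.card (InfinitePlace F) =
      2 * (Module.finrank k F * Fintype.card (InfinitePlace k)) := by
    rw [h2, ← h3, ← h1]
    ring
  omega

end Pool.Agent.HB


end

section

/-!
# HB, module GJ: the number of primes of an intermediate field above `v` (helper70)
-/

set_option autoImplicit false

open NumberField IsDedekindDomain

namespace Pool.Agent.HB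

namespace GJ

/-- the size of an orbit -/
lemma card_orbit {α : Type} (f : α → α) (P : α → Prop) (x : α) {n : ℕ} (hn : 0 < n)
    (hx : f^[n] x = x) (hP : P x) (hst : ∀ y, P y → P (f y))
    (htr : ∀ y, P y → ∃ i : ℕ, f^[i] x = y) :
    Nat.card {y // P y} = Function.minimalPeriod f x := by
  have hpos : 0 < Function.minimalPeriod f x :=
    Function.minimalPeriod_pos_of_mem_periodicPts ⟨n, hn, hx⟩
  have hPi : ∀ i : ℕ, P (f^[i] x) := by
    intro i
    induction i with
    | zero => exact hP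
    | succ i ih =>
      rw [Function.iterate_succ_apply']
      exact hst _ ih
  have hbij : Function.Bijective (fun i : Fin (Function.minimalPeriod f x) =>
      (⟨f^[(i : ℕ)] x, hPi i⟩ : {y // P y})) := by
    constructor
    · intro i j hij
      have h1 : f^[(i : ℕ)] x = f^[(j : ℕ)] x := congrArg Subtype.val hij
      apply Fin.ext
      exact Function.iterate_injOn_Iio_minimalPeriod i.2 j.2 h1
    · rintro ⟨y, hy⟩
      obtain ⟨i, hi⟩ := htr y hy
      refine ⟨⟨i % Function.minimalPeriod f x, Nat.mod_lt _ hpos⟩, ?_⟩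
      apply Subtype.ext
      show f^[i % Function.minimalPeriod f x] x = y
      rw [Function.iterate_mod_minimalPeriod_eq, hi]
  rw [← Nat.card_congr (Equiv.ofBijective _ hbij), Nat.card_eq_fintype_card, Fintype.card_fin]

/-- the orders determine the prime -/
lemma prime_ext {F : Type} [Field F] [NumberField F] {w w' : HeightOneSpectrum (𝓞 F)}
    (h : ∀ x : Fˣ, ord w x = ord w' x) : w = w' := by
  apply HeightOneSpectrum.ext
  ext y
  by_cases hy : y = 0
  · rw [hy]
    simp
  · have hy' : (y : F) ≠ 0 := by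
      intro h0
      exact hy (RingOfIntegers.ext h0)
    have h3 := (th_ORD F).2.2.1 (Units.mk0 (y : F) hy') y rfl
    rw [← (h3 w).2, ← (h3 w').2, h]

/-- `K` over the fixed field of `σ^N` is cyclic, with the action of the generator -/
lemma cyc_top' {k K : Type} [Field k] [NumberField k] [Field K] [NumberField K] [Algebra k K]
    {n : ℕ} {σ : K ≃ₐ[k] K} (hC : Cyc n σ) (N : ℕ) (F : IntermediateField k K)
    (hF : ∀ x : K, x ∈ F ↔ (⇑σ)^[N] x = x) :
    Module.finrank F K = orderOf (σ ^ N) ∧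
    ∃ τ : K ≃ₐ[F] K, Cyc (Module.finrank F K) τ ∧ ∀ x : K, τ x = (⇑σ)^[N] x := by
  have := hC.gal
  have := Pool.Agent.FX.fd k K
  have hco : ∀ x : K, (σ ^ N) x = (⇑σ)^[N] x := by
    intro x
    rw [AlgEquiv.coe_pow]
  have hFf : F = IntermediateField.fixedField (Subgroup.zpowers (σ ^ N)) := by
    ext x
    rw [hF, IntermediateField.mem_fixedField_iff]
    constructor
    · intro h f hf
      obtain ⟨i, rfl⟩ := Subgroup.mem_zpowers_iff.1 hf
      have h1 : (σ ^ N) ∈ MulAction.stabilizer (K ≃ₐ[k] K) x := by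
        rw [MulAction.mem_stabilizer_iff]
        show (σ ^ N) x = x
        rw [hco, h]
      have h2 := Subgroup.zpow_mem _ h1 i
      rw [MulAction.mem_stabilizer_iff] at h2
      exact h2
    · intro h
      rw [← hco]
      exact h _ (Subgroup.mem_zpowers _)
  have hfix : F.fixingSubgroup = Subgroup.zpowers (σ ^ N) := by
    rw [hFf]
    exact IntermediateField.fixingSubgroup_fixedField _
  have hmem : σ ^ N ∈ F.fixingSubgroup := by
    rw [hfix]
    exact Subgroup.mem_zpowers _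
  refine ⟨?_, IntermediateField.fixingSubgroupEquiv F ⟨σ ^ N, hmem⟩, ⟨?_, ?_, rfl⟩, ?_⟩
  · have h1 := IntermediateField.finrank_fixedField_eq_card (F := k) (E := K)
      (H := Subgroup.zpowers (σ ^ N))
    rw [← hFf, Nat.card_zpowers] at h1
    exact h1
  · infer_instance
  · intro τ
    have h1 : (((IntermediateField.fixingSubgroupEquiv F).symm τ : F.fixingSubgroup) :
        K ≃ₐ[k] K) ∈ Subgroup.zpowers (σ ^ N) := by
      rw [← hfix]
      exact Subtype.property _
    obtain ⟨i, hi⟩ := Subgroup.mem_zpowers_iff.1 h1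
    refine Subgroup.mem_zpowers_iff.2 ⟨i, ?_⟩
    rw [← map_zpow]
    apply (IntermediateField.fixingSubgroupEquiv F).symm.injective
    rw [MulEquiv.symm_apply_apply]
    apply Subtype.ext
    rw [← hi]
    rfl
  · intro x
    exact hco x

end GJ

open _root_.Pool.Agent.HB.GJ in
/-- (GJ) the number of primes of an intermediate field above `v` -/
theorem th_GJ (hORG : Sh_ORG) : Sh_GJ := by
  classical
  intro k K _ _ _ _ _ l m σ hl hC j hj F hF
  obtain ⟨hfr, τ, hτ, hτx⟩ := cyc_top' hC (l ^ j) F hF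
  have hlj : l ^ j ≠ 0 := pow_ne_zero _ hl.ne_zero
  have hFin := Pool.Agent.FX.fd k K
  have hdeg : Module.finrank k F = l ^ j := by
    have h1 : Module.finrank k F * Module.finrank F K = l ^ m := by
      rw [Pool.Agent.FX.fmul, hC.deg]
    have h2 : orderOf (σ ^ (l ^ j)) = l ^ (m - j) := by
      rw [orderOf_pow' _ hlj, ORN.card_eq hC, Nat.gcd_eq_right (pow_dvd_pow l hj),
        Nat.pow_div hj hl.pos]
    rw [hfr, h2] at h1
    have h3 : l ^ m = l ^ j * l ^ (m - j) := by
      rw [← pow_add]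
      congr 1
      omega
    rw [h3] at h1
    exact Nat.eq_of_mul_eq_mul_right (pow_pos hl.pos _) h1
  refine ⟨hdeg, fun v => ?_⟩
  obtain ⟨π, p1, p2, p3, p4, p5, p6, p7, p8⟩ := hORG k K (l ^ m) σ hC
  obtain ⟨π', q1, q2, q3, q4, q5, q6, q7, q8⟩ := hORG F K _ τ hτ
  -- the permutations
  have hπi : ∀ (i : ℕ) (w : HeightOneSpectrum (𝓞 K)) (x : Kˣ),
      ord ((⇑π)^[i] w) ((⇑(su σ))^[i] x) = ord w x := by
    intro i
    induction i with
    | zero => intro w x; rfl
    | succ i ih =>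
      intro w x
      rw [Function.iterate_succ_apply', Function.iterate_succ_apply', p1, ih]
  have hsu : ∀ x : Kˣ, su τ x = (⇑(su σ))^[l ^ j] x := by
    intro x
    apply Units.ext
    rw [ORN.su_iter, ← hτx]
    rfl
  have hsur : Function.Surjective (su τ) := by
    intro y
    refine ⟨su τ.symm y, ?_⟩
    apply Units.ext
    show τ (τ.symm (y : K)) = y
    exact τ.apply_symm_apply _
  have hππ : (⇑π' : HeightOneSpectrum (𝓞 K) → HeightOneSpectrum (𝓞 K)) = (⇑π)^[l ^ j] := by
    funext w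
    apply prime_ext
    intro x
    obtain ⟨y, rfl⟩ := hsur x
    rw [q1, hsu, hπi]
  -- the size of the fibres
  have hlm : 0 < l ^ m := pow_pos hl.pos _
  have hfr0 : 0 < Module.finrank F K := by
    have h1 : Module.finrank k F * Module.finrank F K = l ^ m := by
      rw [Pool.Agent.FX.fmul, hC.deg]
    rcases Nat.eq_zero_or_pos (Module.finrank F K) with h0 | h0
    · rw [h0, mul_zero] at h1
      omega
    · exact h0
  set g : ℕ := gpr k K v with hg
  have hg0 : g ≠ 0 := (p8 v).2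
  have hgd : g ∣ l ^ m := (p8 v).1
  have hmp : ∀ w : HeightOneSpectrum (𝓞 K), Lies k K v w → Function.minimalPeriod π w = g := by
    intro w hw
    have h1 := card_orbit (⇑π) (fun w' => Lies k K v w') w hlm (p4 w) hw (p2 v)
      (fun w' hw' => p3 v w w' hw hw')
    exact h1.symm
  have hfib : ∀ u : HeightOneSpectrum (𝓞 F), Lies k F v u →
      Nat.card {w : HeightOneSpectrum (𝓞 K) // Lies F K u w} = g / Nat.gcd g (l ^ j) := by
    intro u hu
    obtain ⟨w, hw⟩ := q5 u
    have hw' : Lies k K v w := (INV.lies_trans hw).1 hu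
    have h1 := card_orbit (⇑π') (fun w' => Lies F K u w') w hfr0 (q4 w) hw (q2 u)
      (fun w' hw' => q3 u w w' hw hw')
    rw [h1, hππ, Function.minimalPeriod_iterate_eq_div_gcd hlj, hmp w hw']
  -- the fibration
  have hX := p7 v
  have hbel : ∀ w : {w : HeightOneSpectrum (𝓞 K) // Lies k K v w},
      ∃ u : {u : HeightOneSpectrum (𝓞 F) // Lies k F v u}, Lies F K u.1 w.1 := by
    rintro ⟨w, hw⟩
    obtain ⟨u, hu⟩ := q6 w
    exact ⟨⟨u, (INV.lies_trans hu).2 hw⟩, hu⟩
  choose f hf using hbel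
  have hfs : Function.Surjective f := by
    rintro ⟨u, hu⟩
    obtain ⟨w, hw⟩ := q5 u
    have hw' : Lies k K v w := (INV.lies_trans hw).1 hu
    refine ⟨⟨w, hw'⟩, ?_⟩
    apply Subtype.ext
    exact ORN.lies_unique (hf ⟨w, hw'⟩) hw
  have hY : Finite {u : HeightOneSpectrum (𝓞 F) // Lies k F v u} := Finite.of_surjective f hfs
  let e : {w : HeightOneSpectrum (𝓞 K) // Lies k K v w} ≃
      (Σ u : {u : HeightOneSpectrum (𝓞 F) // Lies k F v u},
        {w : HeightOneSpectrum (𝓞 K) // Lies F K u.1 w}) :=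
    { toFun := fun w => ⟨f w, ⟨w.1, hf w⟩⟩
      invFun := fun p => ⟨p.2.1, (INV.lies_trans p.2.2).1 p.1.2⟩
      left_inv := fun w => rfl
      right_inv := by
        rintro ⟨⟨u, hu⟩, ⟨w, hw⟩⟩
        have hw' : Lies k K v w := (INV.lies_trans hw).1 hu
        have h1 : f ⟨w, hw'⟩ = ⟨u, hu⟩ := by
          apply Subtype.ext
          exact ORN.lies_unique (hf ⟨w, hw'⟩) hw
        refine Sigma.ext h1 ?_
        simp only
        have h2 : ∀ (a b : {u : HeightOneSpectrum (𝓞 F) // Lies k F v u}) (_ : a = b)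
            (ha : Lies F K a.1 w) (hb : Lies F K b.1 w),
            HEq (⟨w, ha⟩ : {w : HeightOneSpectrum (𝓞 K) // Lies F K a.1 w})
              (⟨w, hb⟩ : {w : HeightOneSpectrum (𝓞 K) // Lies F K b.1 w}) := by
          rintro a b rfl ha hb
          exact HEq.rfl
        exact h2 _ _ h1 _ _ }
  have hcard : g = gpr k F v * (g / Nat.gcd g (l ^ j)) := by
    have : Fintype {u : HeightOneSpectrum (𝓞 F) // Lies k F v u} := Fintype.ofFinite _
    have hfin : ∀ u : {u : HeightOneSpectrum (𝓞 F) // Lies k F v u},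
        Finite {w : HeightOneSpectrum (𝓞 K) // Lies F K u.1 w} := fun u => q7 u.1
    have h1 : g = Nat.card {w : HeightOneSpectrum (𝓞 K) // Lies k K v w} := rfl
    rw [Nat.card_congr e, Nat.card_sigma] at h1
    rw [Finset.sum_congr rfl fun u _ => hfib u.1 u.2, Finset.sum_const, smul_eq_mul] at h1
    have h2 : gpr k F v = (Finset.univ : Finset {u : HeightOneSpectrum (𝓞 F) // Lies k F v u}).card := by
      rw [Finset.card_univ, ← Nat.card_eq_fintype_card]
      rfl
    rw [h2]
    exact h1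
  -- conclusion
  obtain ⟨c, -, hc⟩ := (Nat.dvd_prime_pow hl).1 hgd
  have hgg : Nat.gcd g (l ^ j) = min (l ^ j) g := by
    rw [hc]
    rcases le_total c j with h | h
    · rw [Nat.gcd_eq_left (pow_dvd_pow l h), min_eq_right (Nat.pow_le_pow_right hl.pos h)]
    · rw [Nat.gcd_eq_right (pow_dvd_pow l h), min_eq_left (Nat.pow_le_pow_right hl.pos h)]
  rw [← hgg]
  have hd : Nat.gcd g (l ^ j) ∣ g := Nat.gcd_dvd_left _ _
  have hq : 0 < g / Nat.gcd g (l ^ j) :=
    Nat.div_pos (Nat.le_of_dvd (Nat.pos_of_ne_zero hg0) hd)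
      (Nat.gcd_pos_of_pos_left _ (Nat.pos_of_ne_zero hg0))
  have hgm : g = Nat.gcd g (l ^ j) * (g / Nat.gcd g (l ^ j)) := (Nat.mul_div_cancel' hd).symm
  exact Nat.eq_of_mul_eq_mul_right hq (hcard.symm.trans hgm)

end Pool.Agent.HB


end

section

/-!
# HB, module ORG: orders and Galois conjugation (helper90)
-/

set_option autoImplicit false
set_option linter.unusedSectionVars false

open NumberField IsDedekindDomain
open scoped nonZeroDivisors Pointwise

namespace Pool.Agent.HB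

noncomputable section

section
variable {k K : Type} [Field k] [NumberField k] [Field K] [NumberField K] [Algebra k K]

omit [NumberField k] [NumberField K] in
private lemma org_coe_smul_HBH_ORG (σ : K ≃ₐ[k] K) (x : 𝓞 K) : ((σ • x : 𝓞 K) : K) = σ (x : K) := rfl

/-- the action of `σ` on the primes -/
private def orgFun_HBH_ORG (σ : K ≃ₐ[k] K) (w : HeightOneSpectrum (𝓞 K)) : HeightOneSpectrum (𝓞 K) where
  asIdeal := σ • w.asIdeal
  isPrime := by
    have := w.isPrime
    infer_instance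
  ne_bot := by
    intro h
    apply w.ne_bot
    rw [eq_bot_iff]
    intro x hx
    have h1 : σ • x ∈ σ • w.asIdeal := Ideal.smul_mem_pointwise_smul_iff.mpr hx
    rw [h, Ideal.mem_bot] at h1
    rw [Ideal.mem_bot]
    exact (smul_eq_zero_iff_eq σ).mp h1

omit [NumberField k] [NumberField K] in
private lemma orgFun_as_HBH_ORG (σ : K ≃ₐ[k] K) (w : HeightOneSpectrum (𝓞 K)) :
    (orgFun_HBH_ORG σ w).asIdeal = σ • w.asIdeal := rfl

private def orgPerm_HBH_ORG (σ : K ≃ₐ[k] K) : Equiv.Perm (HeightOneSpectrum (𝓞 K)) where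
  toFun := orgFun_HBH_ORG σ
  invFun := orgFun_HBH_ORG σ⁻¹
  left_inv w := by
    apply HeightOneSpectrum.ext
    rw [orgFun_as_HBH_ORG, orgFun_as_HBH_ORG, inv_smul_smul]
  right_inv w := by
    apply HeightOneSpectrum.ext
    rw [orgFun_as_HBH_ORG, orgFun_as_HBH_ORG, smul_inv_smul]

omit [NumberField k] [NumberField K] in
private lemma orgPerm_as_HBH_ORG (σ : K ≃ₐ[k] K) (w : HeightOneSpectrum (𝓞 K)) :
    (orgPerm_HBH_ORG σ w).asIdeal = σ • w.asIdeal := rfl

private lemma orgPerm_iter_HBH_ORG (σ : K ≃ₐ[k] K) (w : HeightOneSpectrum (𝓞 K)) (i : ℕ) :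
    ((⇑(orgPerm_HBH_ORG σ))^[i] w).asIdeal = (σ ^ i) • w.asIdeal := by
  induction i with
  | zero => simp
  | succ i ih =>
    rw [Function.iterate_succ_apply', orgPerm_as_HBH_ORG, ih, smul_smul, pow_succ']

private lemma org_pow_mem_HBH_ORG (σ : K ≃ₐ[k] K) (w : HeightOneSpectrum (𝓞 K)) (r : 𝓞 K) (n : ℕ) :
    σ • r ∈ (orgPerm_HBH_ORG σ w).asIdeal ^ n ↔ r ∈ w.asIdeal ^ n := by
  rw [orgPerm_as_HBH_ORG, ← smul_pow', Ideal.smul_mem_pointwise_smul_iff]

private lemma org_int_HBH_ORG (σ : K ≃ₐ[k] K) (w : HeightOneSpectrum (𝓞 K)) (r : 𝓞 K) :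
    (orgPerm_HBH_ORG σ w).intValuation (σ • r) = w.intValuation r := by
  by_cases hr : r = 0
  · subst hr
    simp
  have hr' : σ • r ≠ 0 := by
    intro h
    exact hr ((smul_eq_zero_iff_eq σ).mp h)
  have key : ∀ n : ℕ, (orgPerm_HBH_ORG σ w).intValuation (σ • r) ≤ WithZero.exp (-(n : ℤ)) ↔
      w.intValuation r ≤ WithZero.exp (-(n : ℤ)) := by
    intro n
    rw [HeightOneSpectrum.intValuation_le_pow_iff_mem, HeightOneSpectrum.intValuation_le_pow_iff_mem,
      org_pow_mem_HBH_ORG]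
  rw [HeightOneSpectrum.intValuation_eq_exp_neg_multiplicity _ hr'] at key ⊢
  rw [HeightOneSpectrum.intValuation_eq_exp_neg_multiplicity _ hr] at key ⊢
  apply le_antisymm
  · exact (key _).mpr le_rfl
  · exact (key _).mp le_rfl

private lemma org_val_HBH_ORG (σ : K ≃ₐ[k] K) (w : HeightOneSpectrum (𝓞 K)) (x : K) :
    (orgPerm_HBH_ORG σ w).valuation K (σ x) = w.valuation K x := by
  obtain ⟨a, b, hb, rfl⟩ := IsFractionRing.div_surjective (A := 𝓞 K) x
  rw [map_div₀, map_div₀, map_div₀]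
  have h1 : ∀ a : 𝓞 K, (orgPerm_HBH_ORG σ w).valuation K (σ (algebraMap (𝓞 K) K a)) =
      w.valuation K (algebraMap (𝓞 K) K a) := by
    intro a
    have h2 : σ (algebraMap (𝓞 K) K a) = algebraMap (𝓞 K) K (σ • a) := rfl
    rw [h2, HeightOneSpectrum.valuation_of_algebraMap, HeightOneSpectrum.valuation_of_algebraMap,
      org_int_HBH_ORG]
  rw [h1 a, h1 b]

private lemma org_lies_HBH_ORG (σ : K ≃ₐ[k] K) (v : HeightOneSpectrum (𝓞 k)) (w : HeightOneSpectrum (𝓞 K))
    (h : Lies k K v w) : Lies k K v (orgPerm_HBH_ORG σ w) := by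
  unfold Lies at *
  rw [← h]
  ext x
  rw [Ideal.under, Ideal.mem_comap, Ideal.under, Ideal.mem_comap, orgPerm_as_HBH_ORG]
  have h2 : algebraMap (𝓞 k) (𝓞 K) x = σ • algebraMap (𝓞 k) (𝓞 K) x := by
    apply RingOfIntegers.ext
    rw [org_coe_smul_HBH_ORG]
    have h3 : ((algebraMap (𝓞 k) (𝓞 K) x : 𝓞 K) : K) = algebraMap k K (x : k) := rfl
    rw [h3, AlgEquiv.commutes]
  conv_lhs => rw [h2]
  rw [Ideal.smul_mem_pointwise_smul_iff]

end

theorem th_ORG : Sh_ORG := by
  intro k K _ _ _ _ _ n σ hcyc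
  have hgal := hcyc.gal
  have hcard : Nat.card (K ≃ₐ[k] K) = n := by
    rw [IsGalois.card_aut_eq_finrank, hcyc.deg]
  have hpow : σ ^ n = 1 := by
    rw [← hcard]
    exact pow_card_eq_one'
  have hfin : ∀ v : HeightOneSpectrum (𝓞 k), (Ideal.primesOver v.asIdeal (𝓞 K)).Finite := by
    intro v
    have := v.isMaximal
    exact IsDedekindDomain.primesOver_finite v.asIdeal (𝓞 K)
  have heq : ∀ v : HeightOneSpectrum (𝓞 k),
      Nonempty ({w : HeightOneSpectrum (𝓞 K) // Lies k K v w} ≃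
        Ideal.primesOver v.asIdeal (𝓞 K)) := by
    intro v
    refine ⟨{ toFun := fun w => ⟨w.1.asIdeal, w.1.isPrime, ⟨w.2.symm⟩⟩
              invFun := fun P => ⟨⟨P.1, P.2.1, ?_⟩, P.2.2.over.symm⟩
              left_inv := fun w => rfl
              right_inv := fun P => rfl }⟩
    intro h0
    apply v.ne_bot
    have h1 := P.2.2.over
    rw [h1, h0]
    exact Ideal.under_bot (𝓞 k) (𝓞 K)
  have hex : ∀ v : HeightOneSpectrum (𝓞 k), ∃ w : HeightOneSpectrum (𝓞 K), Lies k K v w := by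
    intro v
    have := v.isMaximal
    obtain ⟨e⟩ := heq v
    obtain ⟨P⟩ := (inferInstance : Nonempty (Ideal.primesOver v.asIdeal (𝓞 K)))
    exact ⟨(e.symm P).1, (e.symm P).2⟩
  have hfinS : ∀ v : HeightOneSpectrum (𝓞 k),
      Finite {w : HeightOneSpectrum (𝓞 K) // Lies k K v w} := by
    intro v
    obtain ⟨e⟩ := heq v
    have := (hfin v).to_subtype
    exact Finite.of_equiv _ e.symm
  refine ⟨orgPerm_HBH_ORG σ, ?_, ?_, ?_, ?_, hex, ?_, hfinS, ?_⟩
  · intro w x
    unfold ord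
    have h1 : ((su σ x : Kˣ) : K) = σ (x : K) := rfl
    rw [h1, org_val_HBH_ORG]
  · intro v w h
    exact org_lies_HBH_ORG σ v w h
  · intro v w w' hw hw'
    have := w.isPrime
    have := w'.isPrime
    have h1 : w.asIdeal.LiesOver v.asIdeal := ⟨hw.symm⟩
    have h2 : w'.asIdeal.LiesOver v.asIdeal := ⟨hw'.symm⟩
    obtain ⟨τ, hτ⟩ := Ideal.exists_smul_eq_of_isGaloisGroup v.asIdeal w.asIdeal w'.asIdeal (K ≃ₐ[k] K)
    have h3 := hcyc.gen τ
    rw [← mem_powers_iff_mem_zpowers] at h3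
    obtain ⟨i, hi⟩ := h3
    refine ⟨i, ?_⟩
    apply HeightOneSpectrum.ext
    rw [orgPerm_iter_HBH_ORG, ← hτ]
    simp only at hi
    rw [hi]
  · intro w
    apply HeightOneSpectrum.ext
    rw [orgPerm_iter_HBH_ORG, hpow, one_smul]
  · intro w
    exact ⟨HeightOneSpectrum.under (𝓞 k) w, rfl⟩
  · intro v
    obtain ⟨e⟩ := heq v
    have := v.isMaximal
    have hg : gpr k K v = Nat.card (Ideal.primesOver v.asIdeal (𝓞 K)) := Nat.card_congr e
    have hne : Nonempty {w : HeightOneSpectrum (𝓞 K) // Lies k K v w} := by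
      obtain ⟨w, hw⟩ := hex v
      exact ⟨⟨w, hw⟩⟩
    refine ⟨?_, ?_⟩
    · rw [hg]
      obtain ⟨P⟩ := (inferInstance : Nonempty (Ideal.primesOver v.asIdeal (𝓞 K)))
      have htr := Ideal.isPretransitive_of_isGaloisGroup (B := 𝓞 K) v.asIdeal (K ≃ₐ[k] K)
      have h5 := @MulAction.index_stabilizer_of_transitive (K ≃ₐ[k] K) _ _
        Ideal.instMulActionElemPrimesOver P htr
      rw [← h5, ← hcard]
      exact Subgroup.index_dvd_card _
    · have := hfinS v
      unfold gpr
      exact Nat.card_pos.ne'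

end

end Pool.Agent.HB


end

section

/-!
# HB, module LTF (helper20): the Herbrand quotient of a lattice
-/

set_option autoImplicit false

open scoped nonZeroDivisors

namespace Pool.Agent.HB

noncomputable section

namespace LTF

section
variable {G : Type} [CommGroup G]

/-- the two additive groups attached to a subgroup -/
def eqv (S : Subgroup G) : Additive S ≃+ Subgroup.toAddSubgroup S where
  toFun x := ⟨Additive.ofMul ((Additive.toMul x : S) : G), (Additive.toMul x).2⟩
  invFun x := Additive.ofMul ⟨Additive.toMul (x : Additive G), x.2⟩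
  left_inv _ := rfl
  right_inv _ := rfl
  map_add' _ _ := rfl

theorem rk_eqv (S : Subgroup G) : rk S = Module.finrank ℤ (Subgroup.toAddSubgroup S) :=
  (eqv S).toIntLinearEquiv.finrank_eq

theorem fin_eqv (S : Subgroup G) (h : Module.Finite ℤ (Additive S)) :
    Module.Finite ℤ (Subgroup.toAddSubgroup S) :=
  Module.Finite.equiv (eqv S).toIntLinearEquiv

/-- torsion-free -/
def TF (U : Subgroup G) : Prop := ∀ x ∈ U, ∀ j : ℕ, j ≠ 0 → x ^ j = 1 → x = 1

theorem tf_eqv (S : Subgroup G) (h : TF S) :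
    Module.IsTorsionFree ℤ (Subgroup.toAddSubgroup S) := by
  refine Module.IsTorsionFree.of_smul_eq_zero fun r x hx => ?_
  by_contra hc
  push Not at hc
  obtain ⟨hr, hx0⟩ := hc
  apply hx0
  have h1 : (Additive.toMul (x : Additive G)) ^ r = 1 := by
    have := congrArg (fun y : Subgroup.toAddSubgroup S => Additive.toMul (y : Additive G)) hx
    simpa using this
  have h2 : (Additive.toMul (x : Additive G)) ^ r.natAbs = 1 := by
    rcases Int.natAbs_eq r with h3 | h3
    · rw [h3, zpow_natCast] at h1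
      exact h1
    · rw [h3, zpow_neg, zpow_natCast, inv_eq_one] at h1
      exact h1
  have h3 := h _ x.2 r.natAbs (by simpa using hr) h2
  apply Subtype.ext
  exact h3

theorem pow_index (n : ℕ) (L : Subgroup G) (hf : Module.Finite ℤ (Additive L)) (ht : TF L) :
    (L.map (powMonoidHom n)).relIndex L = n ^ rk L := by
  have := fin_eqv L hf
  have := tf_eqv L ht
  have h3 : Module.Free ℤ (Subgroup.toAddSubgroup L) := Module.free_of_finite_type_torsion_free'
  have h4 : Module.Free ℤ (AddSubgroup.toIntSubmodule (Subgroup.toAddSubgroup L)) := h3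
  have h5 : Module.Finite ℤ (AddSubgroup.toIntSubmodule (Subgroup.toAddSubgroup L)) := fin_eqv L hf
  have h1 := AddSubgroup.relIndex_map_nsmul (M := Additive G) n (Subgroup.toAddSubgroup L)
  rw [rk_eqv]
  refine Eq.trans ?_ (h1.trans ?_)
  · rw [← Subgroup.relIndex_toAddSubgroup]
    rfl
  · rfl

theorem rk_eq {A B : Subgroup G} (h : A ≤ B) (hi : A.relIndex B ≠ 0)
    (hf : Module.Finite ℤ (Additive B)) (ht : TF B) : rk A = rk B := by
  have := fin_eqv B hf
  have := tf_eqv B ht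
  rw [rk_eqv, rk_eqv]
  have : (Subgroup.toAddSubgroup A).IsFiniteRelIndex (Subgroup.toAddSubgroup B) := by
    refine ⟨?_⟩
    rw [Subgroup.relIndex_toAddSubgroup]
    exact hi
  exact AddSubgroup.finrank_eq_of_isFiniteRelIndex h

theorem fin_mono {A B : Subgroup G} (h : A ≤ B) (hf : Module.Finite ℤ (Additive B)) :
    Module.Finite ℤ (Additive A) := by
  have : IsNoetherian ℤ (Additive B) := isNoetherian_of_isNoetherianRing_of_finite ℤ (Additive B)
  exact Module.Finite.of_injective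
    ((MonoidHom.toAdditive (Subgroup.inclusion h)).toIntLinearMap)
    (fun x y hxy => Subgroup.inclusion_injective h hxy)

theorem mem_fixS {s : G →* G} {i : ℕ} {x : G} : x ∈ fixS s i ↔ (⇑s)^[i] x = x := Iff.rfl

theorem DD_apply (s : G →* G) (x : G) : DD s x = s x / x := rfl

theorem NN_apply (n : ℕ) (s : G →* G) (x : G) : NN n s x = ∏ i ∈ Finset.range n, (⇑s)^[i] x := rfl

theorem ker_DD (s : G →* G) : (DD s).ker = fixS s 1 := by
  ext x
  rw [MonoidHom.mem_ker, DD_apply, div_eq_one, mem_fixS]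
  rfl

theorem t0_bot (n : ℕ) (s : G →* G) (U : Subgroup G) :
    t0 n s U ⊥ = (U.map (NN n s)).relIndex (U ⊓ fixS s 1) := by
  unfold t0
  rw [sup_bot_eq, MonoidHom.comap_bot, ker_DD]

theorem t1_bot (n : ℕ) (s : G →* G) (U : Subgroup G) :
    t1 n s U ⊥ = (U.map (DD s)).relIndex (U ⊓ (NN n s).ker) := by
  unfold t1
  rw [sup_bot_eq, MonoidHom.comap_bot]

theorem iter_mem {s : G →* G} {U : Subgroup G} (hU : Stb s U) (i : ℕ) :
    ∀ x ∈ U, (⇑s)^[i] x ∈ U := by
  induction i with
  | zero => intro x hx; exact hx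
  | succ i ih =>
    intro x hx
    rw [Function.iterate_succ_apply']
    exact hU _ (ih x hx)

theorem NN_mem {s : G →* G} {U : Subgroup G} (hU : Stb s U) (n : ℕ) (x : G) (hx : x ∈ U) :
    NN n s x ∈ U := by
  rw [NN_apply]
  exact Subgroup.prod_mem _ (fun i _ => iter_mem hU i x hx)

theorem fix_mul {s : G →* G} {q : ℕ} {x : G} (hx : (⇑s)^[q] x = x) (c : ℕ) :
    (⇑s)^[q * c] x = x := by
  rw [Function.iterate_mul]
  exact Function.iterate_fixed hx c

theorem NN_mul {s : G →* G} {q : ℕ} {x : G} (hx : (⇑s)^[q] x = x) (c : ℕ) :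
    NN (q * c) s x = (NN q s x) ^ c := by
  induction c with
  | zero => simp [NN_apply]
  | succ c ih =>
    rw [pow_succ, ← ih, NN_apply, NN_apply, NN_apply, Nat.mul_succ, Finset.prod_range_add]
    congr 1
    refine Finset.prod_congr rfl fun i _ => ?_
    rw [Nat.add_comm, Function.iterate_add_apply, fix_mul hx]

theorem NN_fix {s : G →* G} {q : ℕ} {x : G} (hx : (⇑s)^[q] x = x) : s (NN q s x) = NN q s x := by
  have h1 : s (NN q s x) = ∏ i ∈ Finset.range q, (⇑s)^[i + 1] x := by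
    rw [NN_apply, map_prod]
    exact Finset.prod_congr rfl fun i _ => (Function.iterate_succ_apply' _ _ _).symm
  have h2 := Finset.prod_range_succ (fun i => (⇑s)^[i] x) q
  have h3 := Finset.prod_range_succ' (fun i => (⇑s)^[i] x) q
  rw [h2] at h3
  simp only [hx, Function.iterate_zero, id_eq] at h3
  rw [h1, NN_apply]
  exact (mul_right_cancel h3).symm

end

/-! ## transfer along injective maps -/

section
variable {G G' : Type} [CommGroup G] [CommGroup G']

theorem f_iter {f : G' →* G} {s' : G' →* G'} {s : G →* G} (h : ∀ x, f (s' x) = s (f x)) (i : ℕ) :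
    ∀ x, f ((⇑s')^[i] x) = (⇑s)^[i] (f x) := by
  induction i with
  | zero => intro x; rfl
  | succ i ih =>
    intro x
    rw [Function.iterate_succ_apply', Function.iterate_succ_apply', h, ih]

theorem f_NN {f : G' →* G} {s' : G' →* G'} {s : G →* G} (h : ∀ x, f (s' x) = s (f x)) (n : ℕ)
    (x : G') : f (NN n s' x) = NN n s (f x) := by
  rw [NN_apply, NN_apply, map_prod]
  exact Finset.prod_congr rfl fun i _ => f_iter h i x

theorem f_DD {f : G' →* G} {s' : G' →* G'} {s : G →* G} (h : ∀ x, f (s' x) = s (f x))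
    (x : G') : f (DD s' x) = DD s (f x) := by
  rw [DD_apply, DD_apply, map_div, h]

theorem map_NN {f : G' →* G} {s' : G' →* G'} {s : G →* G} (h : ∀ x, f (s' x) = s (f x)) (n : ℕ)
    (U : Subgroup G') : (U.map f).map (NN n s) = (U.map (NN n s')).map f := by
  rw [Subgroup.map_map, Subgroup.map_map]
  congr 1
  ext x
  exact (f_NN h n x).symm

theorem map_DD {f : G' →* G} {s' : G' →* G'} {s : G →* G} (h : ∀ x, f (s' x) = s (f x))
    (U : Subgroup G') : (U.map f).map (DD s) = (U.map (DD s')).map f := by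
  rw [Subgroup.map_map, Subgroup.map_map]
  congr 1
  ext x
  exact (f_DD h x).symm

theorem map_fix {f : G' →* G} (hf : Function.Injective f) {s' : G' →* G'} {s : G →* G}
    (h : ∀ x, f (s' x) = s (f x)) (i : ℕ) (U : Subgroup G') :
    (U.map f) ⊓ fixS s i = (U ⊓ fixS s' i).map f := by
  ext y
  simp only [Subgroup.mem_inf, Subgroup.mem_map, mem_fixS]
  constructor
  · rintro ⟨⟨x, hx, rfl⟩, h2⟩
    refine ⟨x, ⟨hx, hf ?_⟩, rfl⟩
    rw [f_iter h, h2]
  · rintro ⟨x, ⟨hx, hx2⟩, rfl⟩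
    refine ⟨⟨x, hx, rfl⟩, ?_⟩
    rw [← f_iter h, hx2]

theorem map_kerN {f : G' →* G} (hf : Function.Injective f) {s' : G' →* G'} {s : G →* G}
    (h : ∀ x, f (s' x) = s (f x)) (n : ℕ) (U : Subgroup G') :
    (U.map f) ⊓ (NN n s).ker = (U ⊓ (NN n s').ker).map f := by
  ext y
  simp only [Subgroup.mem_inf, Subgroup.mem_map, MonoidHom.mem_ker]
  constructor
  · rintro ⟨⟨x, hx, rfl⟩, h2⟩
    refine ⟨x, ⟨hx, hf ?_⟩, rfl⟩
    rw [f_NN h, h2, map_one]
  · rintro ⟨x, ⟨hx, hx2⟩, rfl⟩
    refine ⟨⟨x, hx, rfl⟩, ?_⟩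
    rw [← f_NN h, hx2, map_one]

theorem t0_map {f : G' →* G} (hf : Function.Injective f) {s' : G' →* G'} {s : G →* G}
    (h : ∀ x, f (s' x) = s (f x)) (n : ℕ) (U : Subgroup G') :
    t0 n s (U.map f) ⊥ = t0 n s' U ⊥ := by
  rw [t0_bot, t0_bot, map_NN h, map_fix hf h, Subgroup.relIndex_map_map_of_injective _ _ hf]

theorem t1_map {f : G' →* G} (hf : Function.Injective f) {s' : G' →* G'} {s : G →* G}
    (h : ∀ x, f (s' x) = s (f x)) (n : ℕ) (U : Subgroup G') :
    t1 n s (U.map f) ⊥ = t1 n s' U ⊥ := by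
  rw [t1_bot, t1_bot, map_DD h, map_kerN hf h, Subgroup.relIndex_map_map_of_injective _ _ hf]

theorem rk_map {f : G' →* G} (hf : Function.Injective f) (U : Subgroup G') :
    rk (U.map f) = rk U :=
  ((MulEquiv.toAdditive (Subgroup.equivMapOfInjective U f hf)).toIntLinearEquiv.finrank_eq).symm

end

/-- the conclusion -/
def Con {G : Type} [CommGroup G] (l m : ℕ) (s : G →* G) (U : Subgroup G) : Prop :=
  t0 (l ^ m) s U ⊥ ≠ 0 ∧ t1 (l ^ m) s U ⊥ ≠ 0 ∧ ∃ a : ℕ → ℕ,
    (∀ j < m, rk (U ⊓ fixS s (l ^ (j + 1))) =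
      rk (U ⊓ fixS s (l ^ j)) + (l ^ (j + 1)).totient * a j) ∧
    t0 (l ^ m) s U ⊥ * l ^ (∑ j ∈ Finset.range m, a j) =
      t1 (l ^ m) s U ⊥ * l ^ (m * rk (U ⊓ fixS s 1))

theorem Con_map {G G' : Type} [CommGroup G] [CommGroup G'] {f : G' →* G}
    (hf : Function.Injective f) {s' : G' →* G'} {s : G →* G}
    (h : ∀ x, f (s' x) = s (f x)) {l m : ℕ} {U : Subgroup G'} (hC : Con l m s' U) :
    Con l m s (U.map f) := by
  unfold Con at *
  rw [t0_map hf h, t1_map hf h]
  simp only [map_fix hf h, rk_map hf]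
  exact hC

/-- the endomorphism on the fixed group -/
def sF {G : Type} [CommGroup G] (s : G →* G) (q : ℕ) : fixS s q →* fixS s q :=
  (s.comp (fixS s q).subtype).codRestrict (fixS s q) (fun x => by
    have hx := x.2
    rw [mem_fixS] at hx ⊢
    change (⇑s)^[q] (s x) = s x
    rw [← Function.iterate_succ_apply, Function.iterate_succ_apply', hx])

theorem step (h1 : Sh_HQ) (h2 : Sh_LTZ) {l : ℕ} (hl : l.Prime) (m : ℕ)
    (ih : ∀ (G : Type) [CommGroup G] (s : G →* G), (∀ x, (⇑s)^[l ^ m] x = x) →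
      ∀ U : Subgroup G, Stb s U → Module.Finite ℤ (Additive U) → TF U → Con l m s U)
    (G : Type) [CommGroup G] (s : G →* G) (hs : ∀ x, (⇑s)^[l ^ (m + 1)] x = x)
    (U : Subgroup G) (hU : Stb s U) (hfin : Module.Finite ℤ (Additive U)) (htf : TF U) :
    Con l (m + 1) s U := by
  have hn : l ^ (m + 1) = l ^ m * l := pow_succ l m
  have hUV : U ⊓ fixS s (l ^ m) ≤ U := inf_le_left
  have hVs : Stb s (U ⊓ fixS s (l ^ m)) := by
    rintro x ⟨hx1, hx2⟩
    refine ⟨hU x hx1, ?_⟩
    exact (sF s (l ^ m) ⟨x, hx2⟩).2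
  have hVfin : Module.Finite ℤ (Additive ↥(U ⊓ fixS s (l ^ m))) := fin_mono hUV hfin
  have hVtf : TF (U ⊓ fixS s (l ^ m)) := fun x hx => htf x (hUV hx)
  -- LTZ
  have hZ := h2 G l (m + 1) s hl (Nat.le_add_left 1 m) hs U (U ⊓ fixS s (l ^ m)) hUV hU hVs hfin
    (by
      intro x hx j hj hxj
      refine ⟨hx, ?_⟩
      have h3 : (⇑s)^[l ^ m] (x ^ j) = x ^ j := hxj.2
      rw [iterate_map_pow] at h3
      have h4 : ((⇑s)^[l ^ m] x / x) ^ j = 1 := by
        rw [div_pow, h3, div_self']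
      have h5 := htf _ (U.div_mem (iter_mem hU _ x hx) hx) j hj h4
      exact div_eq_one.mp h5)
    (by
      intro x hx
      refine ⟨Subgroup.prod_mem _ (fun i _ => iter_mem hU _ x hx), ?_⟩
      change (⇑s)^[l ^ m] _ = _
      have h3 : (⇑s)^[l ^ m] (∏ i ∈ Finset.range l, (⇑s)^[i * l ^ (m + 1 - 1)] x) =
          ∏ i ∈ Finset.range l, (⇑s)^[(i + 1) * l ^ m] x := by
        have h9 : ∀ (i : ℕ) (g : ℕ → G) (c : Finset ℕ),
            (⇑s)^[i] (∏ t ∈ c, g t) = ∏ t ∈ c, (⇑s)^[i] (g t) := by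
          intro i
          induction i with
          | zero => intro g c; rfl
          | succ i ih2 =>
            intro g c
            rw [Function.iterate_succ_apply', ih2, map_prod]
            exact Finset.prod_congr rfl fun t _ => (Function.iterate_succ_apply' _ _ _).symm
        rw [h9]
        refine Finset.prod_congr rfl fun i _ => ?_
        rw [← Function.iterate_add_apply]
        congr 1
        rw [Nat.add_sub_cancel]
        ring
      have h4 := Finset.prod_range_succ (fun i => (⇑s)^[i * l ^ m] x) l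
      have h5 := Finset.prod_range_succ' (fun i => (⇑s)^[i * l ^ m] x) l
      rw [h4] at h5
      have h6 : (⇑s)^[l * l ^ m] x = x := by
        rw [mul_comm, ← pow_succ]
        exact hs x
      rw [h6] at h5
      simp only [zero_mul, Function.iterate_zero, id_eq] at h5
      rw [h3, Nat.add_sub_cancel]
      exact (mul_right_cancel h5).symm)
  obtain ⟨z0, a, z1, zr⟩ := hZ
  -- induction hypothesis
  have hI : Con l m s (U ⊓ fixS s (l ^ m)) := by
    have h3 := ih (fixS s (l ^ m)) (sF s (l ^ m))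
      (by
        intro x
        apply Subtype.ext
        have := f_iter (f := (fixS s (l ^ m)).subtype) (s' := sF s (l ^ m)) (s := s)
          (fun _ => rfl) (l ^ m) x
        rw [Subgroup.subtype_apply] at this
        rw [this]
        exact x.2)
      (U.subgroupOf (fixS s (l ^ m)))
      (by
        intro x hx
        rw [Subgroup.mem_subgroupOf] at hx ⊢
        exact hU _ hx)
      (by
        have h4 : Module.Finite ℤ (Additive ↥((U.subgroupOf (fixS s (l ^ m))).map
            (fixS s (l ^ m)).subtype)) := by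
          rw [Subgroup.subgroupOf_map_subtype]
          exact hVfin
        exact Module.Finite.equiv (MulEquiv.toAdditive (Subgroup.equivMapOfInjective
          (U.subgroupOf (fixS s (l ^ m))) (fixS s (l ^ m)).subtype
            (Subgroup.subtype_injective _))).toIntLinearEquiv.symm)
      (by
        intro x hx j hj hxj
        rw [Subgroup.mem_subgroupOf] at hx
        apply Subtype.ext
        exact htf _ hx j hj (congrArg Subtype.val hxj))
    have h4 := Con_map (f := (fixS s (l ^ m)).subtype) (Subgroup.subtype_injective _)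
      (s' := sF s (l ^ m)) (s := s) (fun _ => rfl) h3
    rw [Subgroup.subgroupOf_map_subtype] at h4
    exact h4
  obtain ⟨i0, i1, b, ib, ie⟩ := hI
  have hmono : ∀ j ≤ m, (U ⊓ fixS s (l ^ m)) ⊓ fixS s (l ^ j) = U ⊓ fixS s (l ^ j) := by
    intro j hj
    rw [inf_assoc]
    congr 1
    rw [inf_eq_right]
    intro x hx
    rw [mem_fixS] at hx ⊢
    obtain ⟨c, rfl⟩ := Nat.exists_eq_add_of_le hj
    rw [pow_add]
    exact fix_mul hx _
  have hm1 : (U ⊓ fixS s (l ^ m)) ⊓ fixS s 1 = U ⊓ fixS s 1 := by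
    have := hmono 0 (Nat.zero_le m)
    rwa [pow_zero] at this
  -- t1 on U'
  have hT1 : t1 (l ^ (m + 1)) s (U ⊓ fixS s (l ^ m)) ⊥ = t1 (l ^ m) s (U ⊓ fixS s (l ^ m)) ⊥ := by
    rw [t1_bot, t1_bot]
    congr 1
    ext x
    simp only [Subgroup.mem_inf, MonoidHom.mem_ker]
    constructor
    · rintro ⟨⟨hx1, hx2⟩, hx3⟩
      refine ⟨⟨hx1, hx2⟩, ?_⟩
      rw [hn, NN_mul hx2] at hx3
      exact htf _ (NN_mem hU _ x hx1) l hl.ne_zero hx3
    · rintro ⟨⟨hx1, hx2⟩, hx3⟩
      refine ⟨⟨hx1, hx2⟩, ?_⟩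
      rw [hn, NN_mul hx2, hx3, one_pow]
  -- t0 on U'
  have hT0 : t0 (l ^ (m + 1)) s (U ⊓ fixS s (l ^ m)) ⊥ =
      t0 (l ^ m) s (U ⊓ fixS s (l ^ m)) ⊥ * l ^ rk (U ⊓ fixS s 1) := by
    have hi := i0
    rw [t0_bot] at hi ⊢
    rw [t0_bot]
    rw [hm1] at hi ⊢
    have hLK : (U ⊓ fixS s (l ^ m)).map (NN (l ^ m) s) ≤ U ⊓ fixS s 1 := by
      rintro y ⟨x, ⟨hx1, hx2⟩, rfl⟩
      exact ⟨NN_mem hU _ x hx1, NN_fix hx2⟩
    have hKf : Module.Finite ℤ (Additive ↥(U ⊓ fixS s 1)) := fin_mono inf_le_left hfin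
    have hKt : TF (U ⊓ fixS s 1) := fun x hx => htf x hx.1
    have h3 : (U ⊓ fixS s (l ^ m)).map (NN (l ^ (m + 1)) s) =
        ((U ⊓ fixS s (l ^ m)).map (NN (l ^ m) s)).map (powMonoidHom l) := by
      ext y
      simp only [Subgroup.mem_map]
      constructor
      · rintro ⟨x, hx, rfl⟩
        refine ⟨_, ⟨x, hx, rfl⟩, ?_⟩
        rw [powMonoidHom_apply, hn, NN_mul hx.2]
      · rintro ⟨_, ⟨x, hx, rfl⟩, rfl⟩
        refine ⟨x, hx, ?_⟩
        rw [powMonoidHom_apply, hn, NN_mul hx.2]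
    rw [h3]
    have h4 := pow_index l ((U ⊓ fixS s (l ^ m)).map (NN (l ^ m) s)) (fin_mono hLK hKf)
      (fun x hx => hKt x (hLK hx))
    have h5 : ((U ⊓ fixS s (l ^ m)).map (NN (l ^ m) s)).map (powMonoidHom l) ≤
        (U ⊓ fixS s (l ^ m)).map (NN (l ^ m) s) := by
      rintro _ ⟨x, hx, rfl⟩
      exact Subgroup.pow_mem _ hx l
    rw [← Subgroup.relIndex_mul_relIndex _ _ _ h5 hLK, h4, rk_eq hLK hi hKf hKt]
    ring
  -- HQ
  have hq := h1 G (l ^ (m + 1)) s hs U (U ⊓ fixS s (l ^ m)) ⊥ bot_le hUV hU hVs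
    (by
      intro x hx
      rw [Subgroup.mem_bot] at hx ⊢
      rw [hx, map_one])
    (by rw [z0]; exact one_ne_zero)
    (by rw [z1]; exact pow_ne_zero _ hl.ne_zero)
    (by rw [hT0]; exact mul_ne_zero i0 (pow_ne_zero _ hl.ne_zero))
    (by rw [hT1]; exact i1)
  obtain ⟨q0, q1, qe⟩ := hq
  refine ⟨q0, q1, fun j => if j = m then a else b j, ?_, ?_⟩
  · intro j hj
    rcases eq_or_ne j m with rfl | hjm
    · simp only [if_true]
      have h3 : U ⊓ fixS s (l ^ (j + 1)) = U := by
        rw [inf_eq_left]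
        intro x _
        exact hs x
      rw [h3]
      exact zr
    · simp only [if_neg hjm]
      have hj' : j < m := by omega
      have := ib j hj'
      rw [hmono _ (by omega), hmono _ (by omega)] at this
      exact this
  · rw [Finset.sum_range_succ, if_pos rfl]
    have h3 : ∑ x ∈ Finset.range m, (if x = m then a else b x) = ∑ x ∈ Finset.range m, b x := by
      refine Finset.sum_congr rfl fun x hx => ?_
      rw [if_neg (Finset.mem_range.mp hx).ne]
    rw [h3]
    rw [z0, z1, hT0, hT1] at qe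
    rw [hm1] at ie
    have h6 : t1 (l ^ m) s (U ⊓ fixS s (l ^ m)) ⊥ *
        (t0 (l ^ (m + 1)) s U ⊥ * l ^ (∑ x ∈ Finset.range m, b x + a)) =
        t1 (l ^ m) s (U ⊓ fixS s (l ^ m)) ⊥ *
        (t1 (l ^ (m + 1)) s U ⊥ * l ^ ((m + 1) * rk (U ⊓ fixS s 1))) := by
      calc t1 (l ^ m) s (U ⊓ fixS s (l ^ m)) ⊥ *
            (t0 (l ^ (m + 1)) s U ⊥ * l ^ (∑ x ∈ Finset.range m, b x + a)) =
          (t0 (l ^ (m + 1)) s U ⊥ * (l ^ a * t1 (l ^ m) s (U ⊓ fixS s (l ^ m)) ⊥)) *
            l ^ (∑ x ∈ Finset.range m, b x) := by rw [pow_add]; ring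
        _ = (t1 (l ^ (m + 1)) s U ⊥ * (1 * (t0 (l ^ m) s (U ⊓ fixS s (l ^ m)) ⊥ *
            l ^ rk (U ⊓ fixS s 1)))) * l ^ (∑ x ∈ Finset.range m, b x) := by rw [qe]
        _ = t1 (l ^ (m + 1)) s U ⊥ * l ^ rk (U ⊓ fixS s 1) *
            (t0 (l ^ m) s (U ⊓ fixS s (l ^ m)) ⊥ * l ^ (∑ x ∈ Finset.range m, b x)) := by ring
        _ = t1 (l ^ (m + 1)) s U ⊥ * l ^ rk (U ⊓ fixS s 1) *
            (t1 (l ^ m) s (U ⊓ fixS s (l ^ m)) ⊥ * l ^ (m * rk (U ⊓ fixS s 1))) := by rw [ie]
        _ = _ := by rw [add_mul, pow_add, one_mul]; ring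
    exact Nat.eq_of_mul_eq_mul_left (Nat.pos_of_ne_zero i1) h6

theorem base {G : Type} [CommGroup G] (l : ℕ) (s : G →* G) (hs : ∀ x, (⇑s)^[l ^ 0] x = x)
    (U : Subgroup G) : Con l 0 s U := by
  have h0 : ∀ x, s x = x := by
    intro x
    have := hs x
    rwa [pow_zero] at this
  have hN : NN (l ^ 0) s = MonoidHom.id G := by
    ext x
    rw [pow_zero, NN_apply]
    simp
  have hD : DD s = 1 := by
    ext x
    rw [DD_apply, h0, div_self']
    rfl
  have e0 : t0 (l ^ 0) s U ⊥ = 1 := by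
    unfold t0
    rw [hN, hD, Subgroup.map_id, sup_bot_eq]
    exact Subgroup.relIndex_eq_one.mpr inf_le_left
  have e1 : t1 (l ^ 0) s U ⊥ = 1 := by
    unfold t1
    rw [hN, hD, Subgroup.comap_id, inf_bot_eq]
    exact Subgroup.relIndex_eq_one.mpr bot_le
  refine ⟨by rw [e0]; exact one_ne_zero, by rw [e1]; exact one_ne_zero, fun _ => 0, ?_, ?_⟩
  · intro j hj
    omega
  · rw [e0, e1]
    simp

theorem all (h1 : Sh_HQ) (h2 : Sh_LTZ) {l : ℕ} (hl : l.Prime) (m : ℕ) :
    ∀ (G : Type) [CommGroup G] (s : G →* G), (∀ x, (⇑s)^[l ^ m] x = x) →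
      ∀ U : Subgroup G, Stb s U → Module.Finite ℤ (Additive U) → TF U → Con l m s U := by
  induction m with
  | zero => intro G _ s hs U _ _ _; exact base l s hs U
  | succ m ih => exact fun G _ s hs U hU hf ht => step h1 h2 hl m ih G s hs U hU hf ht

end LTF

theorem th_LTF (h1 : Sh_HQ) (h2 : Sh_LTZ) : Sh_LTF :=
  fun G _ _ m s hl hs U hU hf ht => LTF.all h1 h2 hl m G s hs U hU hf ht

end

end Pool.Agent.HB


end

section

/-!
# HB, module LTZ (helper12): lattices over `ℤ[ζ]`
-/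

set_option autoImplicit false

open Polynomial

namespace Pool.Agent.HB

noncomputable section

namespace Ltz

/-! ## the polynomial identities -/

theorem poly (l m : ℕ) (hl : l.Prime) (hm : 1 ≤ m) :
    ∃ g u v h : ℤ[X], (X - C 1) ^ (l ^ m).totient = cyclotomic (l ^ m) ℤ + C (l : ℤ) * g ∧
      g * u + cyclotomic (l ^ m) ℤ * v = 1 ∧
      cyclotomic (l ^ m) ℤ = C (l : ℤ) + (X - C 1) * h := by
  haveI : Fact l.Prime := ⟨hl⟩
  obtain ⟨m', rfl⟩ : ∃ m', m = m' + 1 := ⟨m - 1, by omega⟩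
  set Φ : ℤ[X] := cyclotomic (l ^ (m' + 1)) ℤ with hΦ
  set φ : ℕ := (l ^ (m' + 1)).totient with hφ
  have hφe : φ = l ^ (m' + 1) - l ^ m' := by
    rw [hφ, Nat.totient_prime_pow_succ hl, pow_succ, Nat.mul_sub, mul_one]
  have hφ0 : 0 < φ := Nat.totient_pos.2 (pow_pos hl.pos _)
  have hΦ1 : Φ.eval 1 = (l : ℤ) := by
    rw [hΦ]; exact eval_one_cyclotomic_prime_pow m'
  have h1 : Φ.map (Int.castRingHom (ZMod l)) = ((X - C 1) ^ φ : ℤ[X]).map
      (Int.castRingHom (ZMod l)) := by
    rw [hΦ, map_cyclotomic_int]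
    have h2 := cyclotomic_mul_prime_pow_eq (ZMod l) (p := l) (m := 1)
      (fun h => hl.one_lt.ne' (Nat.dvd_one.1 h)) (k := m' + 1) (Nat.succ_pos _)
    rw [mul_one, cyclotomic_one, Nat.add_sub_cancel] at h2
    rw [h2, hφe]
    simp
  obtain ⟨g, hg⟩ : C (l : ℤ) ∣ ((X - C 1) ^ φ - Φ : ℤ[X]) := by
    rw [C_dvd_iff_dvd_coeff]
    intro i
    have h2 : (((X - C 1) ^ φ - Φ : ℤ[X]).map (Int.castRingHom (ZMod l))).coeff i = 0 := by
      rw [Polynomial.map_sub, h1, sub_self, coeff_zero]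
    rw [coeff_map] at h2
    exact (ZMod.intCast_zmod_eq_zero_iff_dvd _ _).1 h2
  have hg' : (X - C 1 : ℤ[X]) ^ φ = Φ + C (l : ℤ) * g := by rw [← hg]; ring
  have hl0 : (l : ℤ) ≠ 0 := by exact_mod_cast hl.ne_zero
  have hg1 : g.eval 1 = -1 := by
    have h2 := congrArg (eval 1) hg'
    rw [eval_pow, eval_sub, eval_X, eval_C, sub_self, zero_pow hφ0.ne', eval_add, eval_mul,
      eval_C, hΦ1] at h2
    have h3 : (l : ℤ) * (g.eval 1 + 1) = 0 := by linarith
    rcases mul_eq_zero.1 h3 with h4 | h4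
    · exact absurd h4 hl0
    · linarith
  obtain ⟨k, hk⟩ : (X - C 1 : ℤ[X]) ∣ g + 1 := by
    rw [dvd_iff_isRoot, IsRoot, eval_add, hg1, eval_one]; norm_num
  obtain ⟨w, hw⟩ : g ∣ (g + 1) ^ φ - 1 := by
    have h2 := sub_dvd_pow_sub_pow (g + 1) 1 φ
    rwa [add_sub_cancel_right, one_pow] at h2
  have h5 : (g + 1) ^ φ = (Φ + C (l : ℤ) * g) * k ^ φ := by rw [hk, mul_pow, hg']
  obtain ⟨h, hh⟩ : (X - C 1 : ℤ[X]) ∣ Φ - C (Φ.eval 1) := X_sub_C_dvd_sub_C_eval
  refine ⟨g, C (l : ℤ) * k ^ φ - w, k ^ φ, h, hg', ?_, ?_⟩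
  · have h6 : (g + 1) ^ φ = 1 + g * w := by rw [← hw]; ring
    have h7 := h5.symm.trans h6
    linear_combination h7
  · rw [← hh, hΦ1]; ring

/-! ## the additive statement -/

theorem prod_range_mul {M : Type} [CommMonoid M] (F : ℕ → M) (l q : ℕ) :
    ∏ i ∈ Finset.range (l * q), F i =
      ∏ j ∈ Finset.range q, ∏ i ∈ Finset.range l, F (i * q + j) := by
  rw [Finset.prod_comm]
  induction l with
  | zero => simp
  | succ n ih => rw [Nat.succ_mul, Finset.prod_range_add, ih, Finset.prod_range_succ]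

theorem natCard_range {Y : Type} [AddCommGroup Y] [Module.Finite ℤ Y] [Module.Free ℤ Y]
    (d : Y →ₗ[ℤ] Y) (hd : Function.Injective d) :
    Nat.card (Y ⧸ LinearMap.range d) = (LinearMap.det d).natAbs := by
  have h := Submodule.natAbs_det_equiv (LinearMap.range d) (LinearEquiv.ofInjective d hd)
  rw [← h]
  congr 1

theorem key {Y : Type} [AddCommGroup Y] [Module.Finite ℤ Y] [Module.Free ℤ Y]
    (f : Module.End ℤ Y) (l m : ℕ) (hl : l.Prime) (hm : 1 ≤ m)
    (hf : aeval f (cyclotomic (l ^ m) ℤ) = 0) :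
    Function.Injective (f - 1 : Module.End ℤ Y) ∧
    ∃ a, (LinearMap.det (f - 1)).natAbs = l ^ a ∧
      Module.finrank ℤ Y = (l ^ m).totient * a := by
  obtain ⟨g, u, v, h, h1, h2, h3⟩ := poly l m hl hm
  set F : Module.End ℤ Y := f - 1 with hF
  set φ : ℕ := (l ^ m).totient with hφ
  set r := Module.finrank ℤ Y with hr
  have hX : aeval f (X - C 1 : ℤ[X]) = F := by
    rw [map_sub, aeval_X, aeval_C, map_one]
  have e1 : F ^ φ = (l : ℤ) • aeval f g := by
    have := congrArg (aeval f) h1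
    rw [map_pow, hX, map_add, hf, zero_add, map_mul, aeval_C] at this
    rw [this, Algebra.algebraMap_eq_smul_one, smul_mul_assoc, one_mul]
  have e2 : aeval f g * aeval f u = 1 := by
    have := congrArg (aeval f) h2
    rwa [map_add, map_mul, map_mul, hf, zero_mul, add_zero, map_one] at this
  have e3 : (l : ℤ) • (1 : Module.End ℤ Y) = aeval f (-h) * F := by
    have h4 : C (l : ℤ) = cyclotomic (l ^ m) ℤ + (-h) * (X - C 1) := by
      linear_combination -h3
    have := congrArg (aeval f) h4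
    rw [map_add, hf, zero_add, map_mul, hX, aeval_C, Algebra.algebraMap_eq_smul_one] at this
    exact this
  have hl0 : (l : ℤ) ≠ 0 := by exact_mod_cast hl.ne_zero
  have hinj : Function.Injective F := by
    rw [← LinearMap.ker_eq_bot, LinearMap.ker_eq_bot']
    intro y hy
    have := LinearMap.congr_fun e3 y
    rw [LinearMap.smul_apply, Module.End.one_apply, Module.End.mul_apply, hy, map_zero] at this
    exact (smul_eq_zero.1 this).resolve_left hl0
  refine ⟨hinj, ?_⟩
  have d3 : (l : ℤ) ^ r = LinearMap.det (aeval f (-h)) * LinearMap.det F := by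
    have := congrArg LinearMap.det e3
    rwa [LinearMap.det_smul, map_one, mul_one, map_mul] at this
  have d1 : LinearMap.det F ^ φ = (l : ℤ) ^ r * LinearMap.det (aeval f g) := by
    have := congrArg LinearMap.det e1
    rwa [LinearMap.det_smul, map_pow] at this
  have d2 : IsUnit (LinearMap.det (aeval f g)) := by
    have := congrArg LinearMap.det e2
    rw [map_mul, map_one] at this
    exact IsUnit.of_mul_eq_one _ this
  have n3 : l ^ r = (LinearMap.det (aeval f (-h))).natAbs * (LinearMap.det F).natAbs := by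
    have := congrArg Int.natAbs d3
    rwa [Int.natAbs_pow, Int.natAbs_natCast, Int.natAbs_mul] at this
  have n1 : (LinearMap.det F).natAbs ^ φ = l ^ r := by
    have := congrArg Int.natAbs d1
    rwa [Int.natAbs_pow, Int.natAbs_mul, Int.natAbs_pow, Int.natAbs_natCast,
      Int.natAbs_of_isUnit d2, mul_one] at this
  obtain ⟨a, -, ha⟩ := (Nat.dvd_prime_pow hl).1 (Dvd.intro_left _ n3.symm)
  refine ⟨a, ha, ?_⟩
  rw [ha, ← pow_mul] at n1
  have := Nat.pow_right_injective hl.two_le n1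
  rw [← this, mul_comm]

end Ltz

open _root_.Pool.Agent.HB.Ltz

theorem th_LTZ : Sh_LTZ := by
  intro G _ l m s hl hm hs U V hVU hsU hsV hfin htor hΦ
  have hit : ∀ (i : ℕ) (x : G), x ∈ U → (⇑s)^[i] x ∈ U := by
    intro i
    induction i with
    | zero => exact fun x hx => hx
    | succ n ih =>
      intro x hx
      rw [Function.iterate_succ_apply]
      exact ih _ (hsU x hx)
  have hDit : ∀ (i : ℕ) (x : G), x ∈ U → s x / x ∈ V → (⇑s)^[i] x / x ∈ V := by
    intro i
    induction i with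
    | zero => intro x _ _; simp
    | succ n ih =>
      intro x hx hd
      rw [Function.iterate_succ_apply']
      have h1 : s ((⇑s)^[n] x) / x = s ((⇑s)^[n] x / x) * (s x / x) := by
        rw [_root_.map_div, div_mul_div_cancel]
      rw [h1]
      exact mul_mem (hsV _ (ih x hx hd)) hd
  -- H0
  have hker : U ⊓ V.comap (DD s) ≤ V := by
    rintro x ⟨hx, hd⟩
    have hd' : s x / x ∈ V := hd
    refine htor x hx l hl.ne_zero ?_
    have h1 : ∏ i ∈ Finset.range l, ((⇑s)^[i * l ^ (m - 1)] x / x) ∈ V :=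
      prod_mem fun i _ => hDit _ x hx hd'
    rw [Finset.prod_div_distrib, Finset.prod_const, Finset.card_range] at h1
    have h2 := div_mem (hΦ x hx) h1
    rwa [div_div_cancel] at h2
  refine ⟨Subgroup.relIndex_eq_one.2 (hker.trans le_sup_right), ?_⟩
  -- the quotient module
  let Vu : Subgroup U := V.subgroupOf U
  let N : Submodule ℤ (Additive U) := AddSubgroup.toIntSubmodule (Subgroup.toAddSubgroup Vu)
  have hN : ∀ x : U, (Additive.ofMul x : Additive U) ∈ N ↔ (x : G) ∈ V := fun x => Iff.rfl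
  let sU : U →* U := (s.comp U.subtype).codRestrict U (fun x => hsU x x.2)
  have hsUc : ∀ x : U, ((sU x : U) : G) = s x := fun x => rfl
  let t : Module.End ℤ (Additive U) := (MonoidHom.toAdditive sU).toIntLinearMap
  have ht : ∀ x : U, t (Additive.ofMul x) = Additive.ofMul (sU x) := fun x => rfl
  have htN : N ≤ N.comap t := by
    intro x hx
    exact hsV _ hx
  let f : Module.End ℤ (Additive U ⧸ N) := N.mapQ N t htN
  have hfm : ∀ x : Additive U, f (N.mkQ x) = N.mkQ (t x) := fun x => rfl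
  have hti : ∀ (i : ℕ) (x : U), (t ^ i) (Additive.ofMul x) =
      Additive.ofMul (⟨(⇑s)^[i] x, hit i x x.2⟩ : U) := by
    intro i
    induction i with
    | zero => intro x; rfl
    | succ n ih =>
      intro x
      rw [pow_succ', Module.End.mul_apply, ih, ht]
      congr 1
      refine Subtype.ext ?_
      rw [hsUc]
      simp only [Function.iterate_succ_apply']
  have hfi : ∀ (i : ℕ) (x : Additive U), (f ^ i) (N.mkQ x) = N.mkQ ((t ^ i) x) := by
    intro i
    induction i with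
    | zero => intro x; rfl
    | succ n ih =>
      intro x
      rw [pow_succ', Module.End.mul_apply, ih, hfm, pow_succ', Module.End.mul_apply]
  haveI : Module.Finite ℤ (Additive U ⧸ N) := inferInstance
  have htf : ∀ (j : ℤ) (y : Additive U ⧸ N), j ≠ 0 → j • y = 0 → y = 0 := by
    intro j y hj hjy
    obtain ⟨x, rfl⟩ := N.mkQ_surjective y
    have h1 : (j.natAbs : ℤ) • N.mkQ x = 0 := by
      rcases Int.natAbs_eq j with h | h
      · rw [← h]; exact hjy
      · have : ((j.natAbs : ℕ) : ℤ) = -j := by omega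
        rw [this, neg_smul, hjy, neg_zero]
    rw [← map_smul, Submodule.mkQ_apply, Submodule.Quotient.mk_eq_zero] at h1
    rw [Submodule.mkQ_apply, Submodule.Quotient.mk_eq_zero]
    have h2 : ((x.toMul : U) : G) ^ j.natAbs ∈ V := by
      rw [natCast_zsmul] at h1
      exact h1
    exact htor _ x.toMul.2 _ (by omega) h2
  haveI : Module.IsTorsionFree ℤ (Additive U ⧸ N) := by
    refine Module.IsTorsionFree.mk ?_
    intro j hj y y' hyy
    have hj0 : j ≠ 0 := hj.ne_zero
    have : j • (y - y') = 0 := by rw [smul_sub]; exact sub_eq_zero.2 hyy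
    exact sub_eq_zero.1 (htf j _ hj0 this)
  haveI : Module.Free ℤ (Additive U ⧸ N) := inferInstance
  have hcyc : aeval f (cyclotomic (l ^ m) ℤ) = 0 := by
    obtain ⟨m', rfl⟩ : ∃ m', m = m' + 1 := ⟨m - 1, by omega⟩
    rw [cyclotomic_prime_pow_eq_geom_sum hl, map_sum]
    refine LinearMap.ext fun y => ?_
    obtain ⟨x, rfl⟩ := N.mkQ_surjective y
    rw [LinearMap.sum_apply, LinearMap.zero_apply]
    have h1 : ∀ i ∈ Finset.range l, (aeval f (((X : ℤ[X]) ^ l ^ m') ^ i)) (N.mkQ x) =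
        N.mkQ (Additive.ofMul
          (⟨(⇑s)^[i * l ^ m'] x.toMul, hit _ _ x.toMul.2⟩ : U)) := by
      intro i _
      rw [map_pow, map_pow, aeval_X, ← pow_mul, mul_comm, hfi]
      congr 1
      exact hti _ x.toMul
    rw [Finset.sum_congr rfl h1, ← map_sum, Submodule.mkQ_apply, Submodule.Quotient.mk_eq_zero]
    have h2 := hΦ _ x.toMul.2
    rw [Nat.add_sub_cancel] at h2
    rw [← ofMul_prod]
    rw [hN]
    push_cast
    exact h2
  obtain ⟨hinj, a, ha, hra⟩ := key f l m hl hm hcyc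
  refine ⟨a, ?_, ?_⟩
  · rw [← ha, ← natCard_range _ hinj]
    -- the norm kills
    have hNN : U ⊓ V.comap (NN (l ^ m) s) = U := by
      refine inf_eq_left.2 fun x hx => ?_
      show ∏ i ∈ Finset.range (l ^ m), (⇑s)^[i] x ∈ V
      obtain ⟨m', rfl⟩ : ∃ m', m = m' + 1 := ⟨m - 1, by omega⟩
      have h1 : ∏ i ∈ Finset.range (l ^ (m' + 1)), (⇑s)^[i] x =
          ∏ j ∈ Finset.range (l ^ m'), ∏ i ∈ Finset.range l, (⇑s)^[i * l ^ m'] ((⇑s)^[j] x) := by
        rw [pow_succ, mul_comm (l ^ m') l, prod_range_mul]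
        refine Finset.prod_congr rfl fun j _ => Finset.prod_congr rfl fun i _ => ?_
        rw [Function.iterate_add_apply]
      rw [h1]
      refine prod_mem fun j _ => ?_
      have h2 := hΦ _ (hit j x hx)
      rwa [Nat.add_sub_cancel] at h2
    show ((U.map (DD s) ⊔ V).relIndex (U ⊓ V.comap (NN (l ^ m) s))) = _
    rw [hNN]
    have hF : ∀ x : U, (f - 1) (N.mkQ (Additive.ofMul x)) =
        N.mkQ (Additive.ofMul (sU x / x)) := by
      intro x
      rw [LinearMap.sub_apply, Module.End.one_apply, hfm, ht, ← map_sub, ofMul_div]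
    have hmem : ∀ x : U, N.mkQ (Additive.ofMul x) ∈ LinearMap.range (f - 1) ↔
        (x : G) ∈ U.map (DD s) ⊔ V := by
      intro x
      rw [LinearMap.mem_range, Subgroup.mem_sup]
      constructor
      · rintro ⟨y, hy⟩
        obtain ⟨z, rfl⟩ := N.mkQ_surjective y
        have h1 := hF z.toMul
        rw [ofMul_toMul] at h1
        rw [h1] at hy
        have h2 : N.mkQ (Additive.ofMul x) - N.mkQ (Additive.ofMul (sU z.toMul / z.toMul)) = 0 :=
          sub_eq_zero.2 hy.symm
        rw [← map_sub, Submodule.mkQ_apply, Submodule.Quotient.mk_eq_zero, ← ofMul_div, hN] at h2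
        refine ⟨DD s z.toMul, ⟨z.toMul, z.toMul.2, rfl⟩, _, h2, ?_⟩
        push_cast
        exact mul_div_cancel _ _
      · rintro ⟨y, ⟨z, hz, rfl⟩, w, hw, hyw⟩
        refine ⟨N.mkQ (Additive.ofMul (⟨z, hz⟩ : U)), ?_⟩
        rw [hF, ← sub_eq_zero, ← map_sub, Submodule.mkQ_apply, Submodule.Quotient.mk_eq_zero,
          ← ofMul_div, hN]
        have h3 : (((sU ⟨z, hz⟩ / ⟨z, hz⟩) / x : U) : G) = w⁻¹ := by
          push_cast
          rw [← hyw]
          show DD s z / (DD s z * w) = w⁻¹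
          rw [div_mul_cancel_left]
        rw [h3]
        exact inv_mem hw
    have hH : Subgroup.toAddSubgroup ((U.map (DD s) ⊔ V).subgroupOf U) =
        (LinearMap.range (f - 1)).toAddSubgroup.comap N.mkQ.toAddMonoidHom := by
      ext x
      exact (hmem x.toMul).symm
    have h5 := AddSubgroup.index_comap_of_surjective (f := N.mkQ.toAddMonoidHom)
      (LinearMap.range (f - 1)).toAddSubgroup N.mkQ_surjective
    rw [← hH, Subgroup.index_toAddSubgroup] at h5
    exact h5
  · have h1 := N.finrank_quotient_add_finrank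
    have h2 : Module.finrank ℤ N = rk V := by
      let e : Additive Vu ≃+ Additive V :=
        MulEquiv.toAdditive (Subgroup.subgroupOfEquivOfLe hVU)
      exact (e.toIntLinearEquiv : Additive Vu ≃ₗ[ℤ] Additive V).finrank_eq
    have h3 : rk U = Module.finrank ℤ (Additive U) := rfl
    rw [h3, ← h1, hra, h2, add_comm]

end

end Pool.Agent.HB


end

section

/-!
# HB, module FIN: finite groups have Herbrand quotient one
-/

set_option autoImplicit false

namespace Pool.Agent.HB

namespace FIN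

variable {G : Type} [CommGroup G]

lemma iter_mem {s : G →* G} {U : Subgroup G} (hU : Stb s U) {x : G} (hx : x ∈ U) (i : ℕ) :
    (⇑s)^[i] x ∈ U := by
  induction i with
  | zero => exact hx
  | succ i ih =>
    rw [Function.iterate_succ_apply']
    exact hU _ ih

lemma NN_mem {s : G →* G} {U : Subgroup G} (hU : Stb s U) (n : ℕ) {x : G} (hx : x ∈ U) :
    NN n s x ∈ U := by
  show ∏ i ∈ Finset.range n, (⇑s)^[i] x ∈ U
  exact Subgroup.prod_mem U fun i _ => iter_mem hU hx i

lemma DD_mem {s : G →* G} {U : Subgroup G} (hU : Stb s U) {x : G} (hx : x ∈ U) : DD s x ∈ U :=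
  U.div_mem (hU x hx) hx

lemma s_NN {n : ℕ} {s : G →* G} (hs : ∀ x, (⇑s)^[n] x = x) (x : G) : s (NN n s x) = NN n s x := by
  have e1 : s (NN n s x) = ∏ i ∈ Finset.range n, (⇑s)^[i + 1] x := by
    show s (∏ i ∈ Finset.range n, (⇑s)^[i] x) = _
    rw [map_prod]
    refine Finset.prod_congr rfl fun i _ => ?_
    rw [Function.iterate_succ_apply']
  have e3 : (∏ i ∈ Finset.range n, (⇑s)^[i + 1] x) * x = (∏ i ∈ Finset.range n, (⇑s)^[i] x) * x := by
    have h1 := Finset.prod_range_succ' (fun i => (⇑s)^[i] x) n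
    have h2 := Finset.prod_range_succ (fun i => (⇑s)^[i] x) n
    simp only [Function.iterate_zero, id_eq] at h1
    rw [hs x] at h2
    rw [← h1, h2]
  rw [e1]
  exact mul_right_cancel e3

lemma DD_NN {n : ℕ} {s : G →* G} (hs : ∀ x, (⇑s)^[n] x = x) (x : G) : DD s (NN n s x) = 1 := by
  show s (NN n s x) / NN n s x = 1
  rw [s_NN hs, div_self']

lemma NN_s {n : ℕ} {s : G →* G} (hs : ∀ x, (⇑s)^[n] x = x) (x : G) : NN n s (s x) = NN n s x := by
  rw [← s_NN hs x]
  show ∏ i ∈ Finset.range n, (⇑s)^[i] (s x) = s (∏ i ∈ Finset.range n, (⇑s)^[i] x)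
  rw [map_prod]
  refine Finset.prod_congr rfl fun i _ => ?_
  rw [← Function.iterate_succ_apply, Function.iterate_succ_apply']

lemma NN_DD {n : ℕ} {s : G →* G} (hs : ∀ x, (⇑s)^[n] x = x) (x : G) : NN n s (DD s x) = 1 := by
  show NN n s (s x / x) = 1
  rw [map_div, NN_s hs, div_self']

/-- `[f U V : V] = [U : U ⊓ f⁻¹ V]` -/
lemma ix (f : G →* G) (U V : Subgroup G) :
    V.relIndex (U.map f ⊔ V) = (U ⊓ V.comap f).relIndex U := by
  rw [Subgroup.relIndex_sup_right, ← Subgroup.relIndex_comap, Subgroup.inf_relIndex_left]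

end FIN

open _root_.Pool.Agent.HB.FIN in
/-- (FIN) finite groups have Herbrand quotient `1` -/
theorem th_FIN : Sh_FIN := by
  intro G _ n s hs U V hVU hU hV hfin
  have a0 : U.map (NN n s) ⊔ V ≤ U ⊓ V.comap (DD s) := by
    refine sup_le ?_ (le_inf hVU fun x hx => DD_mem hV hx)
    rintro _ ⟨x, hx, rfl⟩
    refine ⟨NN_mem hU n hx, ?_⟩
    show DD s (NN n s x) ∈ V
    rw [DD_NN hs]
    exact V.one_mem
  have a1 : U.map (DD s) ⊔ V ≤ U ⊓ V.comap (NN n s) := by
    refine sup_le ?_ (le_inf hVU fun x hx => NN_mem hV n hx)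
    rintro _ ⟨x, hx, rfl⟩
    refine ⟨DD_mem hU hx, ?_⟩
    show NN n s (DD s x) ∈ V
    rw [NN_DD hs]
    exact V.one_mem
  have e0 : V.relIndex (U.map (NN n s) ⊔ V) * t0 n s U V *
      (U ⊓ V.comap (DD s)).relIndex U = V.relIndex U := by
    unfold t0
    rw [Subgroup.relIndex_mul_relIndex _ _ _ le_sup_right a0,
      Subgroup.relIndex_mul_relIndex _ _ _ (le_sup_right.trans a0) inf_le_left]
  have e1 : V.relIndex (U.map (DD s) ⊔ V) * t1 n s U V *
      (U ⊓ V.comap (NN n s)).relIndex U = V.relIndex U := by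
    unfold t1
    rw [Subgroup.relIndex_mul_relIndex _ _ _ le_sup_right a1,
      Subgroup.relIndex_mul_relIndex _ _ _ (le_sup_right.trans a1) inf_le_left]
  rw [← ix (DD s) U V] at e0
  rw [← ix (NN n s) U V] at e1
  set p := V.relIndex (U.map (NN n s) ⊔ V) with hp
  set q := V.relIndex (U.map (DD s) ⊔ V) with hq
  have hp0 : p ≠ 0 := by
    intro h
    rw [h, zero_mul, zero_mul] at e0
    exact hfin e0.symm
  have hq0 : q ≠ 0 := by
    intro h
    rw [h, mul_zero] at e0
    exact hfin e0.symm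
  refine ⟨?_, ?_⟩
  · have h1 : (p * q) * t0 n s U V = (p * q) * t1 n s U V := by
      calc (p * q) * t0 n s U V = p * t0 n s U V * q := by ring
        _ = q * t1 n s U V * p := by rw [e0, e1]
        _ = (p * q) * t1 n s U V := by ring
    exact Nat.eq_of_mul_eq_mul_left (Nat.pos_of_ne_zero (mul_ne_zero hp0 hq0)) h1
  · intro h
    rw [h, mul_zero, zero_mul] at e0
    exact hfin e0.symm

end Pool.Agent.HB


end

section

/-!
# HB, module HQ: the Herbrand quotient is multiplicative (helper81)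
-/

set_option autoImplicit false

namespace Pool.Agent.HB

noncomputable section

namespace HQ

variable {G : Type} [CommGroup G]

/-- the order of the cohomology group -/
def T (D N : G →* G) (U V : Subgroup G) : ℕ := (U.map N ⊔ V).relIndex (U ⊓ V.comap D)

/-- the data of a hexagon -/
structure Hex (D N : G →* G) (U W V : Subgroup G) : Prop where
  dn : ∀ x, D (N x) = 1
  nd : ∀ x, N (D x) = 1
  vw : V ≤ W
  wu : W ≤ U
  du : ∀ x ∈ U, D x ∈ U
  nu : ∀ x ∈ U, N x ∈ U
  dw : ∀ x ∈ W, D x ∈ W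
  nw : ∀ x ∈ W, N x ∈ W
  dv : ∀ x ∈ V, D x ∈ V
  nv : ∀ x ∈ V, N x ∈ V

variable {D N : G →* G} {U W V : Subgroup G}

lemma Hex.swap (h : Hex D N U W V) : Hex N D U W V :=
  ⟨h.nd, h.dn, h.vw, h.wu, h.nu, h.du, h.nw, h.dw, h.nv, h.dv⟩

/-- the general step -/
lemma step (I A B K : Subgroup G) (hI : I ≤ K) (hA : A ≤ K) (h : B ⊓ K = A ⊔ I) :
    I.relIndex K = I.relIndex A * B.relIndex K := by
  rw [← Subgroup.relIndex_mul_relIndex I (A ⊔ I) K le_sup_right (sup_le hA hI),
    Subgroup.relIndex_sup_right, ← h, Subgroup.inf_relIndex_right]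

lemma one (h : Hex D N U W V) : T D N U V =
    (U.map N ⊔ V).relIndex (W ⊓ V.comap D) * (U.map N ⊔ W).relIndex (U ⊓ V.comap D) := by
  refine step _ _ _ _ ?_ ?_ ?_
  · refine sup_le ?_ ?_
    · rintro _ ⟨x, hx, rfl⟩
      refine ⟨h.nu x hx, ?_⟩
      show D (N x) ∈ V
      rw [h.dn]
      exact one_mem _
    · intro x hx
      exact ⟨h.wu (h.vw hx), h.dv x hx⟩
  · exact inf_le_inf_right _ h.wu
  · ext x
    constructor
    · rintro ⟨h1, hxU, hxV⟩
      obtain ⟨_, ⟨u, hu, rfl⟩, w, hw, rfl⟩ := Subgroup.mem_sup.1 h1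
      have h2 : D w ∈ V := by
        have h3 : D (N u * w) ∈ V := hxV
        rwa [map_mul, h.dn, one_mul] at h3
      rw [mul_comm]
      exact Subgroup.mul_mem_sup ⟨hw, h2⟩ (Subgroup.mem_sup_left ⟨u, hu, rfl⟩)
    · intro h1
      obtain ⟨w, ⟨hw, hwV⟩, _, h2, rfl⟩ := Subgroup.mem_sup.1 h1
      obtain ⟨_, ⟨u, hu, rfl⟩, v, hv, rfl⟩ := Subgroup.mem_sup.1 h2
      have hwV' : D w ∈ V := hwV
      refine ⟨?_, mul_mem (h.wu hw) (mul_mem (h.nu u hu) (h.wu (h.vw hv))), ?_⟩
      · have e : w * (N u * v) = N u * (w * v) := by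
          rw [mul_left_comm]
        rw [e]
        exact Subgroup.mul_mem_sup ⟨u, hu, rfl⟩ (mul_mem hw (h.vw hv))
      · show D (w * (N u * v)) ∈ V
        rw [map_mul, map_mul, h.dn, one_mul]
        exact mul_mem hwV' (h.dv v hv)

lemma two (h : Hex D N U W V) : T D N U W =
    (U.map N ⊔ W).relIndex (U ⊓ V.comap D) *
      (W.map D ⊔ V).relIndex ((U ⊓ W.comap D).map D) := by
  rw [← Subgroup.relIndex_comap]
  refine step _ _ _ _ ?_ ?_ ?_
  · refine sup_le ?_ ?_
    · rintro _ ⟨x, hx, rfl⟩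
      refine ⟨h.nu x hx, ?_⟩
      show D (N x) ∈ W
      rw [h.dn]
      exact one_mem _
    · intro x hx
      exact ⟨h.wu hx, h.dw x hx⟩
  · exact inf_le_inf_left _ (Subgroup.comap_mono h.vw)
  · ext x
    constructor
    · rintro ⟨h1, hxU, -⟩
      have h1' : D x ∈ W.map D ⊔ V := h1
      have hxU' : x ∈ U := hxU
      obtain ⟨_, ⟨w, hw, rfl⟩, v, hv, h2⟩ := Subgroup.mem_sup.1 h1'
      have h3 : D (x / w) ∈ V := by
        rw [map_div, ← h2, mul_div_cancel_left]
        exact hv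
      have e : x = x / w * w := by rw [div_mul_cancel]
      rw [e]
      have h4 : x / w ∈ U := div_mem hxU' (h.wu hw)
      exact Subgroup.mul_mem_sup ⟨h4, h3⟩ (Subgroup.mem_sup_right hw)
    · intro h1
      obtain ⟨y, ⟨hy, hyV⟩, _, h2, rfl⟩ := Subgroup.mem_sup.1 h1
      obtain ⟨_, ⟨u, hu, rfl⟩, w, hw, rfl⟩ := Subgroup.mem_sup.1 h2
      have hyV' : D y ∈ V := hyV
      have e : D (y * (N u * w)) = D w * D y := by
        rw [map_mul, map_mul, h.dn, one_mul, mul_comm]
      refine ⟨?_, mul_mem hy (mul_mem (h.nu u hu) (h.wu hw)), ?_⟩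
      · show D (y * (N u * w)) ∈ W.map D ⊔ V
        rw [e]
        exact Subgroup.mul_mem_sup ⟨w, hw, rfl⟩ hyV'
      · show D (y * (N u * w)) ∈ W
        rw [e]
        exact mul_mem (h.dw w hw) (h.vw hyV')

lemma three (h : Hex D N U W V) : T N D W V =
    (W.map D ⊔ V).relIndex ((U ⊓ W.comap D).map D) *
      (U.map D ⊔ V).relIndex (W ⊓ V.comap N) := by
  refine step _ _ _ _ ?_ ?_ ?_
  · refine sup_le ?_ ?_
    · rintro _ ⟨x, hx, rfl⟩
      refine ⟨h.dw x hx, ?_⟩
      show N (D x) ∈ V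
      rw [h.nd]
      exact one_mem _
    · intro x hx
      exact ⟨h.vw hx, h.nv x hx⟩
  · rintro _ ⟨x, hx, rfl⟩
    refine ⟨hx.2, ?_⟩
    show N (D x) ∈ V
    rw [h.nd]
    exact one_mem _
  · ext x
    constructor
    · rintro ⟨h1, hxW, -⟩
      obtain ⟨_, ⟨u, hu, rfl⟩, v, hv, rfl⟩ := Subgroup.mem_sup.1 h1
      have hxW' : D u * v ∈ W := hxW
      have h2 : D u ∈ W := by
        have h3 := div_mem hxW' (h.vw hv)
        rwa [mul_div_cancel_right] at h3
      exact Subgroup.mul_mem_sup ⟨u, ⟨hu, h2⟩, rfl⟩ (Subgroup.mem_sup_right hv)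
    · intro h1
      obtain ⟨_, ⟨u, ⟨hu, huW⟩, rfl⟩, _, h2, rfl⟩ := Subgroup.mem_sup.1 h1
      obtain ⟨_, ⟨w, hw, rfl⟩, v, hv, rfl⟩ := Subgroup.mem_sup.1 h2
      have huW' : D u ∈ W := huW
      refine ⟨?_, mul_mem huW' (mul_mem (h.dw w hw) (h.vw hv)), ?_⟩
      · have e : D u * (D w * v) = D (u * w) * v := by rw [map_mul, mul_assoc]
        rw [e]
        exact Subgroup.mul_mem_sup ⟨u * w, mul_mem hu (h.wu hw), rfl⟩ hv
      · show N (D u * (D w * v)) ∈ V
        rw [map_mul, map_mul, h.nd, h.nd, one_mul, one_mul]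
        exact h.nv v hv

/-- the multiplicativity for a hexagon -/
lemma main (h : Hex D N U W V) (h1 : T D N U W ≠ 0) (h2 : T N D U W ≠ 0) (h3 : T D N W V ≠ 0)
    (h4 : T N D W V ≠ 0) : T D N U V ≠ 0 ∧ T N D U V ≠ 0 ∧
      T D N U V * (T N D U W * T N D W V) = T N D U V * (T D N U W * T D N W V) := by
  have a1 := one h
  have a2 := two h
  have a3 := three h
  have b1 := one h.swap
  have b2 := two h.swap
  have b3 := three h.swap
  rw [a2] at h1
  rw [b2] at h2
  rw [b3] at h3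
  rw [a3] at h4
  rw [a1, a2, a3, b1, b2, b3]
  refine ⟨mul_ne_zero (right_ne_zero_of_mul h3) (left_ne_zero_of_mul h1),
    mul_ne_zero (right_ne_zero_of_mul h4) (left_ne_zero_of_mul h2), ?_⟩
  ring

end HQ

open _root_.Pool.Agent.HB.HQ in
theorem th_HQ : Sh_HQ := by
  intro G _ n s hs U W V hVW hWU hU hW hV h1 h2 h3 h4
  have it : ∀ X : Subgroup G, Stb s X → ∀ x ∈ X, ∀ i : ℕ, (⇑s)^[i] x ∈ X := by
    intro X hX x hx i
    induction i with
    | zero => exact hx
    | succ i ih =>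
      rw [Function.iterate_succ_apply']
      exact hX _ ih
  have hd : ∀ X : Subgroup G, Stb s X → ∀ x ∈ X, DD s x ∈ X := fun X hX x hx =>
    div_mem (hX x hx) hx
  have hn : ∀ X : Subgroup G, Stb s X → ∀ x ∈ X, NN n s x ∈ X := by
    intro X hX x hx
    show ∏ i ∈ Finset.range n, (⇑s)^[i] x ∈ X
    exact prod_mem fun i _ => it X hX x hx i
  have tel : ∀ x : G, ∏ i ∈ Finset.range n, ((⇑s)^[i + 1] x / (⇑s)^[i] x) = 1 := by
    intro x
    rw [Finset.prod_range_div (fun i => (⇑s)^[i] x), hs x]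
    exact div_self' x
  have hex : Hex (DD s) (NN n s) U W V := by
    refine ⟨?_, ?_, hVW, hWU, hd U hU, hn U hU, hd W hW, hn W hW, hd V hV, hn V hV⟩
    · intro x
      show s (∏ i ∈ Finset.range n, (⇑s)^[i] x) / ∏ i ∈ Finset.range n, (⇑s)^[i] x = 1
      rw [map_prod, ← Finset.prod_div_distrib, ← tel x]
      refine Finset.prod_congr rfl fun i _ => ?_
      rw [Function.iterate_succ_apply']
    · intro x
      show ∏ i ∈ Finset.range n, (⇑s)^[i] (s x / x) = 1
      rw [← tel x]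
      refine Finset.prod_congr rfl fun i _ => ?_
      rw [iterate_map_div, Function.iterate_succ_apply]
  exact main hex h1 h2 h3 h4

end

end Pool.Agent.HB


end

section

/-!
# HB: all statements without hypotheses (helper3)
-/

set_option autoImplicit false

namespace Pool.Agent.HB

theorem h_HQ : Sh_HQ := th_HQ
theorem h_FIN : Sh_FIN := th_FIN
theorem h_LTZ : Sh_LTZ := th_LTZ
theorem h_LTF : Sh_LTF := th_LTF h_HQ h_LTZ
theorem h_LAT : Sh_LAT := th_LAT h_HQ h_FIN h_LTF
theorem h_ORD : Sh_ORD := th_ORD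
theorem h_WAP : Sh_WAP := th_WAP
theorem h_ORG : Sh_ORG := th_ORG
theorem h_ORN : Sh_ORN := th_ORN h_ORG
theorem h_RMF : Sh_RMF := th_RMF
theorem h_SUR : Sh_SUR := th_SUR h_ORD
theorem h_GJ : Sh_GJ := th_GJ h_ORG
theorem h_PLC : Sh_PLC := th_PLC
theorem h_INV : Sh_INV := th_INV h_SUR h_GJ h_PLC h_ORN h_ORG
theorem h_HSU : Sh_HSU := th_HSU h_LAT h_INV h_ORN h_ORG
theorem h_T1E : Sh_T1E := th_T1E h_ORG h_ORN h_ORD
theorem h_SUN : Sh_SUN := th_SUN h_HSU h_T1E h_ORN
theorem h_NBL : Sh_NBL := th_NBL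
theorem h_VGP : Sh_VGP := th_VGP h_ORG h_ORN
theorem h_VST : Sh_VST := th_VST h_ORG h_ORN
theorem h_STR : Sh_STR := th_STR h_VST h_VGP h_ORG h_ORN
theorem h_KMU : Sh_KMU := th_KMU h_ORG h_ORD
theorem h_LOC : Sh_LOC := th_LOC h_HQ h_FIN h_NBL h_VGP h_STR h_KMU h_ORN
theorem h_LOU : Sh_LOU := th_LOU h_ORN h_ORG h_ORD
theorem h_IXW : Sh_IXW := th_IXW h_WAP
theorem h_NON : Sh_NON := th_NON h_IXW h_SUN h_ORG
theorem h_SEX : Sh_SEX := th_SEX
theorem h_PSI : Sh_PSI := th_PSI h_ORD h_ORN
theorem h_JT1 : Sh_JT1 := th_JT1 h_RMF h_SEX h_LOC h_NON h_PSI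
theorem h_FIQ : Sh_FIQ := th_FIQ h_SEX h_LOU h_NON h_PSI h_ORD

end Pool.Agent.HB


end
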