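import Mathlib
import Pool.Agent.MVF.C001
import Pool.Agent.MVF.C011

/-! Parts: RI.Basic, RI.CHIEF -/

namespace Pool.Agent.RI.CHIEF
end Pool.Agent.RI.CHIEF

section

/-!
# Relative Iwasawa theorem: translation between `extendScalars` and `algC`
-/

open NumberField

namespace Pool.Agent.RI

/-- `extendScalars h` and `K` are the same extension of `F`. -/
noncomputable def extEquiv {F K : IntermediateField ℚ ℂ} (h : F ≤ K) :
    letI := algC h
    (IntermediateField.extendScalars h) ≃ₐ[F] K :=
  letI := algC h
  { toFun := fun x => ⟨x.1, x.2⟩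
    invFun := fun x => ⟨x.1, x.2⟩
    left_inv := fun _ => rfl
    right_inv := fun _ => rfl
    map_mul' := fun _ _ => rfl
    map_add' := fun _ _ => rfl
    commutes' := fun _ => rfl }

@[simp] lemma extEquiv_coe {F K : IntermediateField ℚ ℂ} (h : F ≤ K)
    (x : IntermediateField.extendScalars h) : ((extEquiv h x : K) : ℂ) = (x : ℂ) := rfl

lemma isGalois_algC {F K : IntermediateField ℚ ℂ} (h : F ≤ K) :
    (letI := algC h; IsGalois F K) ↔ IsGalois F (IntermediateField.extendScalars h) := by
  letI := algC h
  constructor
  · intro hg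
    exact IsGalois.of_algEquiv (extEquiv h).symm
  · intro hg
    exact IsGalois.of_algEquiv (extEquiv h)

lemma finrank_algC {F K : IntermediateField ℚ ℂ} (h : F ≤ K) :
    (letI := algC h; Module.finrank F K) =
      Module.finrank F (IntermediateField.extendScalars h) := by
  letI := algC h
  exact (extEquiv h).symm.toLinearEquiv.finrank_eq

/-- Towers of inclusions. -/
lemma towerC {E F K : IntermediateField ℚ ℂ} (h : E ≤ F) (h' : F ≤ K) :
    @IsScalarTower E F K (algC h).toSMul (algC h').toSMul (algC (h.trans h')).toSMul := by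
  letI := algC h
  letI := algC h'
  letI := algC (h.trans h')
  exact IsScalarTower.of_algebraMap_eq (fun _ => rfl)

end Pool.Agent.RI


end

section

/-!
# CHIEF: a Galois `p`-extension has a Galois subextension of index `p`
-/

open NumberField

namespace Pool.Agent.RI

namespace CHIEF

/-- A group of order `p ^ (a + 1)` has a normal subgroup of order `p`. -/
lemma exists_normal_card {G : Type*} [Group G] {p a : ℕ} [hp : Fact p.Prime]
    (hG : Nat.card G = p ^ (a + 1)) : ∃ N : Subgroup G, N.Normal ∧ Nat.card N = p := by
  have hfin : Finite G := Nat.finite_of_card_ne_zero (by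
    rw [hG]; exact pow_ne_zero _ hp.out.ne_zero)
  have hpG : IsPGroup p G := IsPGroup.of_card hG
  have hnt : Nontrivial G := by
    rw [← Finite.one_lt_card_iff_nontrivial, hG]
    exact Nat.one_lt_pow (by omega) hp.out.one_lt
  have hc : Nontrivial (Subgroup.center G) := hpG.center_nontrivial
  have hpc : IsPGroup p (Subgroup.center G) := hpG.to_subgroup _
  have hdvd : p ∣ Nat.card (Subgroup.center G) := by
    obtain ⟨n, hn⟩ := hpc.exists_card_eq
    have : 1 < Nat.card (Subgroup.center G) := Finite.one_lt_card_iff_nontrivial.2 hc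
    rw [hn] at this ⊢
    refine dvd_pow_self p ?_
    rintro rfl
    simp at this
  obtain ⟨z, hz⟩ := exists_prime_orderOf_dvd_card' p hdvd
  refine ⟨Subgroup.zpowers (z : G), ⟨?_⟩, ?_⟩
  · intro n hn g
    obtain ⟨k, rfl⟩ := Subgroup.mem_zpowers_iff.1 hn
    have hk : ((z : G) ^ k) ∈ Subgroup.center G := Subgroup.zpow_mem _ z.2 k
    have := Subgroup.mem_center_iff.1 hk g
    rw [this, mul_inv_cancel_right]
    exact hn
  · rw [Nat.card_zpowers, Subgroup.orderOf_coe, hz]

/-- Degrees in towers of subfields of `ℂ`. -/
lemma finrank_mul {E F K : IntermediateField ℚ ℂ} [FiniteDimensional ℚ K] (h : E ≤ F)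
    (h' : F ≤ K) :
    Module.finrank E (IntermediateField.extendScalars h) *
      Module.finrank F (IntermediateField.extendScalars h') =
      Module.finrank E (IntermediateField.extendScalars (h.trans h')) := by
  rw [← finrank_algC h, ← finrank_algC h', ← finrank_algC (h.trans h')]
  let _ := algC h
  let _ := algC h'
  let _ := algC (h.trans h')
  have := towerC h h'
  exact Pool.Agent.FX.fmul E F K

end CHIEF

open _root_.Pool.Agent.RI.CHIEF in
theorem CHIEF_thm : CHIEF := by
  intro p a hp F M hM h hgal hdeg
  have : FiniteDimensional F (IntermediateField.extendScalars h) :=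
    Module.finite_of_finrank_pos (by rw [hdeg]; exact pow_pos hp.out.pos _)
  have hcard : Nat.card (Gal((IntermediateField.extendScalars h)/F)) = p ^ (a + 1) := by
    rw [IsGalois.card_aut_eq_finrank, hdeg]
  obtain ⟨N, hN, hNc⟩ := exists_normal_card hcard
  set L₀ : IntermediateField F (IntermediateField.extendScalars h) :=
    IntermediateField.fixedField N with hL₀
  have hg₀ : IsGalois F L₀ := IsGalois.of_fixedField_normal_subgroup N
  have hf₁ : Module.finrank L₀ (IntermediateField.extendScalars h) = p := by
    rw [hL₀, IntermediateField.finrank_fixedField_eq_card, hNc]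
  have hf₀ : Module.finrank F L₀ = p ^ a := by
    have := Pool.Agent.FX.fmul F L₀ (IntermediateField.extendScalars h)
    rw [hf₁, hdeg, pow_succ] at this
    exact Nat.eq_of_mul_eq_mul_right hp.out.pos this
  set M' : IntermediateField ℚ ℂ :=
    (IntermediateField.lift L₀).restrictScalars ℚ with hM'
  have h₁ : F ≤ M' := by
    intro x hx
    have : ((algebraMap F ℂ) ⟨x, hx⟩) ∈ IntermediateField.lift L₀ :=
      (IntermediateField.lift L₀).algebraMap_mem _
    exact this
  have h₂ : M' ≤ M := by
    intro x hx
    have : x ∈ IntermediateField.lift L₀ := hx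
    exact IntermediateField.lift_le L₀ this
  have he : IntermediateField.extendScalars h₁ = IntermediateField.lift L₀ := by
    ext x; rfl
  have hfM' : Module.finrank F (IntermediateField.extendScalars h₁) = p ^ a := by
    rw [he, ← hf₀]
    exact (Pool.Agent.FX.fre (IntermediateField.liftAlgEquiv L₀).symm)
  refine ⟨M', h₁, h₂, ?_, hfM', ?_⟩
  · rw [he]
    exact IsGalois.of_algEquiv (IntermediateField.liftAlgEquiv L₀)
  · have := finrank_mul h₁ h₂
    rw [hfM', hdeg, pow_succ] at this
    exact Nat.eq_of_mul_eq_mul_left (pow_pos hp.out.pos _) this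

end Pool.Agent.RI


end
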