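import Mathlib
import Pool.Agent.MVF.C020
import Pool.Agent.MVF.C029

/-! Parts: RI.LAY, RID.St -/

section

/-!
# LAY: the layers are Galois over `ℚ` and totally real
-/

open NumberField

namespace Pool.Agent.RI

namespace LAY

/-- A subfield of the field generated by the roots of unity of order dividing `N` is abelian. -/
lemma isAbelian_of_le {F E : Type} [Field F] [Field E] [Algebra F E] (N : ℕ) (hN : N ≠ 0)
    (hr : ∃ r : E, IsPrimitiveRoot r N) (B : IntermediateField F E)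
    (hB : B ≤ IntermediateField.adjoin F {z : E | z ^ N = 1}) : IsAbelianGalois F B := by
  have h := IntermediateField.isCyclotomicExtension_adjoin_of_exists_isPrimitiveRoot
    ({N} : Set ℕ) F E (fun n hn _ => by
      rw [Set.mem_singleton_iff] at hn
      rw [hn]
      exact hr)
  have hset : {x : E | ∃ n ∈ ({N} : Set ℕ), n ≠ 0 ∧ x ^ n = 1} = {z : E | z ^ N = 1} := by
    ext x
    simp [hN]
  rw [hset] at h
  have h2 : IsAbelianGalois F (IntermediateField.adjoin F {z : E | z ^ N = 1}) :=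
    IsCyclotomicExtension.isAbelianGalois {N} F _
  exact IsAbelianGalois.of_algHom (IntermediateField.inclusion hB)

lemma mem_of_normal {F E : Type} [Field F] [Field E] [Algebra F E] (B : IntermediateField F E)
    [Normal F B] (φ : B →ₐ[F] E) (x : B) : φ x ∈ B := by
  have h : φ x ∈ φ.fieldRange := ⟨x, rfl⟩
  have h1 : φ.fieldRange ≤ B := le_of_eq (AlgHom.fieldRange_of_normal φ)
  exact h1 h

end LAY

theorem LAY_thm : LAY := by
  intro p n hp B hB
  obtain ⟨hdeg, hreal, m, hle⟩ := hB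
  have hN : p ^ m ≠ 0 := pow_ne_zero m hp.out.ne_zero
  have hB := LAY.isAbelian_of_le (p ^ m) hN ⟨_, Complex.isPrimitiveRoot_exp _ hN⟩ B hle
  have hG := hB.toIsGalois
  have hn := hG.to_normal
  refine ⟨Module.finite_of_finrank_pos (by rw [hdeg]; exact pow_pos hp.out.pos n), ?_, ?_⟩
  · have key : ∀ a b : Algebra ℚ B, @IsGalois ℚ _ B _ a → @IsGalois ℚ _ B _ b := by
      intro a b h
      rw [Subsingleton.elim b a]
      exact h
    exact key _ _ hG
  · intro φ x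
    exact hreal _ (@LAY.mem_of_normal ℚ ℂ _ _ _ B hn (@RingHom.toRatAlgHom _ _ _ _ _ _ φ) x)

end Pool.Agent.RI


end

section

/-!
# Decomposition fields and the growth of class groups: statements of the modules

Every `def S_X : Prop` is the statement of a module; the module proves `theorem t_X : S_X` (from
other `S_Y` as hypotheses). The doc-string contains the proof. Definitions and the basic lemmas on
`nuS`, `ng`, `dg`, `QP`, `partM`, `part`, `pr`, `wt` are in `Defs.lean`.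
-/

open NumberField Finset IsDedekindDomain
open scoped nonZeroDivisors Pointwise

namespace Pool.Agent.RID

open _root_.Pool.Agent.RI

/-! ### Abstract counting -/

/-- The abstract situation: `dv : A → I`, `dv' : A' → I'` (principal ideals of `L`, `K`),
`ι : A' → A`, `ε : I' → I` (extension), operators `ν i` (norms for the subgroups `N i`). -/
structure AD (p q : ℕ) {A I A' I' G κ : Type} [CommGroup A] [CommGroup I] [CommGroup A']
    [CommGroup I'] [Group G] [MulDistribMulAction G A] [MulDistribMulAction G I] (l : List κ)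
    (k : κ → ℕ) (νA : κ → A →* A) (νI : κ → I →* I) (νA' : κ → A' →* A') (νI' : κ → I' →* I')
    (dv : A →* I) (dv' : A' →* I') (ι : A' →* A) (ε : I' →* I) (g : G) : Prop where
  cop : ∀ i ∈ l, (k i).Coprime p
  qA : QP l k νA
  qI : QP l k νI
  gq : g ^ q = 1
  dvg : ∀ x, dv (g • x) = g • dv x
  gA : ∀ i ∈ l, ∀ x, g • νA i x = νA i (g • x)
  gI : ∀ i ∈ l, ∀ x, g • νI i x = νI i (g • x)
  dvν : ∀ i ∈ l, ∀ x, dv (νA i x) = νI i (dv x)
  sq : ∀ x, ε (dv' x) = dv (ι x)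
  εν : ∀ i ∈ l, ∀ x, ε (νI' i x) = νI i (ε x)
  ιν : ∀ i ∈ l, ∀ x, ι (νA' i x) = νA i (ι x)
  εinj : Function.Injective ε
  gε : ∀ x, g • ε x = ε x
  gι : ∀ x, g • ι x = ι x
  h90 : ∀ x : A, ng g q x = 1 → ∃ y, x = y / g • y
  fixA : ∀ x : A, g • x = x → ∃ y, ι y = x
  inv : ∀ b ∈ part l νI, g • b = b → ∃ c, ε c = b
  fin : Finite (I ⧸ dv.range)
  fin' : Finite (I' ⧸ dv'.range)

/-- ABS1: the ambiguous classes. Names: `P = dv.range`, `E = dv.ker ⊓ part l νA`, `w = wt l k`,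
`pr = pr l k ν`, `U⁺ = partM l νI P ⊓ P.comap (dg g)`, `X' = partM l νI' dv'.range`,
`U = X'.map ε ⊔ P`, `N₀ = E.map (ng g q)`, `B₀ = E ⊓ (dg g).ker`.
Proof. Let `Γ ≤ I × A` be the set of the `(b, x)` with `b ∈ U⁺`, `dg g b = dv x`. For `(b, x) ∈ Γ` put
`y = pr b ∈ part l νI`, `z = pr x ∈ part l νA` (`pr_mem`); `dg g y = dv z` (`comm_pr`, `pr_map`), so
`dv (ng g q z) = ng g q (dg g y) = 1` (telescoping, `g ^ q = 1`), and `ng g q z ∈ B₀`. Let `Γ₀` be the set of
the `(b, x) ∈ Γ` with `ng g q (pr x) ∈ N₀`: the index `[Γ : Γ₀]` divides `[B₀ : N₀]`. Let `U₀` be the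
image of `Γ₀` in `U⁺`; `Γ → U⁺` is surjective, so `[U⁺ : U₀]` divides `[Γ : Γ₀]`.
`P ≤ U₀`: for `b = dv a` take `x = dg g a`, `ng g q (pr x) = 1`. `U ≤ U₀`: `(ε c, 1) ∈ Γ₀` for `c ∈ X'`
(`gε`, `εν`, `sq`). For `b ∈ U₀` with `x`: `ng g q z = ng g q u`, `u ∈ E`; `h90`: `z / u = v / g • v`; `z / u` is in
`part l νA`, so `(z / u) ^ w = pr (z / u) = dg g (pr v)` (`pr_part`), `y₁ = pr v ∈ part l νA`, and
`dg g (y ^ w) = dv (z ^ w) = dv ((z / u) ^ w) = dg g (dv y₁)`; so `b₁ = y ^ w / dv y₁` is fixed by `g` and in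
`part l νI`, `b₁ = ε c` (`inv`), `νI' i c = 1` (`εinj`), `c ∈ X'`, `y ^ w ∈ U`, and `y ≡ b ^ w` modulo `P`
(`pr_partM`), so `b ^ (w * w) ∈ U`. As `w` is prime to `p`, `v_p [U₀ : U] = 0` (a finite
abelian group killed by `w²`), and `v_p [U⁺ : P] = v_p [U⁺ : U₀] + v_p [U₀ : U] + v_p [U : P]`. All
indices are finite by `fin`. -/
def S_ABS1 : Prop := ∀ (p q : ℕ) [Fact p.Prime] (A I A' I' G κ : Type) [CommGroup A]
    [CommGroup I] [CommGroup A'] [CommGroup I'] [Group G] [MulDistribMulAction G A]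
    [MulDistribMulAction G I] (l : List κ) (k : κ → ℕ) (νA : κ → A →* A) (νI : κ → I →* I)
    (νA' : κ → A' →* A') (νI' : κ → I' →* I') (dv : A →* I) (dv' : A' →* I') (ι : A' →* A)
    (ε : I' →* I) (g : G), AD p q l k νA νI νA' νI' dv dv' ι ε g →
    ((dv.ker ⊓ part l νA).map (ng g q)).relIndex (dv.ker ⊓ part l νA ⊓ (dg g).ker) ≠ 0 →
    padicValNat p (dv.range.relIndex (partM l νI dv.range ⊓ dv.range.comap (dg g))) ≤
      padicValNat p
        (((dv.ker ⊓ part l νA).map (ng g q)).relIndex (dv.ker ⊓ part l νA ⊓ (dg g).ker)) +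
      padicValNat p (dv.range.relIndex ((partM l νI' dv'.range).map ε ⊔ dv.range))

/-- ABS2: the capitulation kernel. Names as in ABS1, `P' = dv'.range`,
`Z₁ = E ⊓ (ng g q).ker`, `B₁ = E.map (dg g)`, `K₀ = X' ⊓ P.comap ε`.
Proof. `P' ≤ K₀ ≤ X'` (`dv'.range` is stable under `νI' i`: apply `εinj`), `[X' : P'] = [X' : K₀] [K₀ : P']` and
`[X' : K₀] = [U : P]`. Claim: `v_p [Z₁ : B₁] ≤ v_p [K₀ : P']`. Let `Λ ≤ A × I'` be the set of the `(u, c)`,
`u ∈ Z₁`, `c ∈ K₀`, such that there is `y ∈ part l νA` with `u ^ w = dg g y`, `dv y = ε c`. `Λ → Z₁` is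
surjective: `u = dg g y₀` (`h90`), `u ^ w = pr u = dg g (pr y₀)`, `y = pr y₀ ∈ part l νA`, `dv y` is
fixed by `g` and in `part l νI`, so `dv y = ε c`, `νI' i c = 1`, `c ∈ K₀`. If `(u, c) ∈ Λ` and `c = dv' a ∈ P'` then
`y = ι a * v`, `dv v = 1`, `u ^ w = dg g v` (`gι`), `u ^ (w * w) = pr (u ^ w) = dg g (pr v)`, `pr v ∈ E`, so
`u ^ (w * w) ∈ B₁`. With `Λ₀` = the `(u, c) ∈ Λ` with `c ∈ P'` and `Z₀` its image in `Z₁`:
`[Z₁ : Z₀]` divides `[Λ : Λ₀]`, which divides `[K₀ : P']`, and `Z₀ B₁ / B₁` is killed by `w²`, so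
`v_p [Z₁ : B₁] = v_p [Z₁ : Z₀ B₁] ≤ v_p [Z₁ : Z₀]`. -/
def S_ABS2 : Prop := ∀ (p q : ℕ) [Fact p.Prime] (A I A' I' G κ : Type) [CommGroup A]
    [CommGroup I] [CommGroup A'] [CommGroup I'] [Group G] [MulDistribMulAction G A]
    [MulDistribMulAction G I] (l : List κ) (k : κ → ℕ) (νA : κ → A →* A) (νI : κ → I →* I)
    (νA' : κ → A' →* A') (νI' : κ → I' →* I') (dv : A →* I) (dv' : A' →* I') (ι : A' →* A)
    (ε : I' →* I) (g : G), AD p q l k νA νI νA' νI' dv dv' ι ε g →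
    ((dv.ker ⊓ part l νA).map (dg g)).relIndex (dv.ker ⊓ part l νA ⊓ (ng g q).ker) ≠ 0 →
    padicValNat p
        (((dv.ker ⊓ part l νA).map (dg g)).relIndex (dv.ker ⊓ part l νA ⊓ (ng g q).ker)) +
      padicValNat p (dv.range.relIndex ((partM l νI' dv'.range).map ε ⊔ dv.range)) ≤
      padicValNat p (dv'.range.relIndex (partM l νI' dv'.range))

/-! ### Herbrand quotients -/

/-- HQ1: the Herbrand quotient does not change for subgroups of finite index.
Proof. For a stable `Y` of finite index: `[X : Y] = [f X : f Y] [ker f : Y ∩ ker f]`, same for `h`, and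
`[ker h : h-part]`: `[ker h : f X] [f X : f Y] = [ker h : Y ∩ ker h] [Y ∩ ker h : f Y]`, the same with `f`, `h`
exchanged. Multiply. All indices are nonzero as `[X : Y]` is. -/
def S_HQ1 : Prop := ∀ (X : Type) [AddCommGroup X] (f h : X →+ X) (Y : AddSubgroup X),
    Y.index ≠ 0 → (∀ y ∈ Y, f y ∈ Y) → (∀ y ∈ Y, h y ∈ Y) → (∀ x, f (h x) = 0) →
    (∀ x, h (f x) = 0) → (Y.map h).relIndex (Y ⊓ f.ker) ≠ 0 →
    (Y.map h).relIndex (Y ⊓ f.ker) = (Y.map f).relIndex (Y ⊓ h.ker) →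
    h.range.relIndex f.ker ≠ 0 ∧ h.range.relIndex f.ker = f.range.relIndex h.ker

/-- HQ2: the index of `(γ - 1) X` if `X` is torsion free and killed by the cyclotomic polynomial
`Φ(γ)`, `Φ = ∑_{j < p} X^(p^i j)`.
Proof. `φ = p^i (p - 1)`. In `ℤ[X]`: `Φ = (X - 1)^φ + p h`, `h(1) = 1` (modulo `p`:
`∑_{j<p} Y^j = (Y - 1)^(p-1)`, `X^(p^i) - 1 = (X - 1)^(p^i)`; compare `HERB.exists_poly` in
`Pool/Agent/RI/HERB.lean`). `T = γ - 1` is injective (`T x = 0` gives `0 = Φ(γ) x = p x`). `T^φ = - p h(γ)`. `X / T X` is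
killed by `p`, so `[X : T X]` is a power of `p`, so is `[X : T^φ X] = [X : T X]^φ` (`index_pow` in HERB.lean).
`h(γ) = 1 + T h₁(γ)` and `T` is nilpotent on `X / p X`, so `h(γ)` is bijective on `X / p X`,
so `[X : h(γ) X]` is prime to `p`. `[X : T^φ X] = [X : p X] [p X : p h(γ) X] = p^(rank X) [X : h(γ) X]`, so
`[X : h(γ) X] = 1` and `[X : T X]^φ = p^(rank X) = (p^r)^φ`. -/
def S_HQ2 : Prop := ∀ (p i r : ℕ) [Fact p.Prime] (X : Type) [AddCommGroup X]
    [Module.Free ℤ X] [Module.Finite ℤ X] (γ : AddMonoid.End X),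
    ∑ j ∈ range p, γ ^ (p ^ i * j) = 0 → Module.finrank ℤ X = p ^ i * (p - 1) * r →
    (AddMonoidHom.range (γ - 1 : AddMonoid.End X)).index = p ^ r

/-- HQ3: Herbrand quotient one, torsion free case.
Proof (from HQ1, HQ2). Induction on `a`, `r = rank ker (γ - 1)`, `N_a = ∑_{j < p^a} γ^j`. Case `a = 0`:
all trivial. Step: `X₁ = ker (γ^(p^a) - 1)`, `X₂ = ker Φ`, `Φ = ∑_{j<p} γ^(p^a j)`; `X₁ ∩ X₂ = 0` (`p x = 0`),
`p X ≤ X₁ + X₂` (`p x = Φ x + (p - Φ) x`, `(γ^(p^a) - 1) Φ = 0`, `Φ (p - Φ) = 0`); so `Y = X₁ ⊕ X₂` has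
finite index, `rank X₂ = p^(a+1) r - p^a r = p^a (p - 1) r`. `N_{a+1} = N_a Φ` is `p N_a` on `X₁` and `0` on
`X₂`. So `[Y ∩ ker (γ-1) : N_{a+1} Y] = [ker (γ-1) : N_a X₁] [N_a X₁ : p N_a X₁] = h₀ p^r` and
`[Y ∩ ker N_{a+1} : (γ-1) Y] = [ker N_a|X₁ : (γ-1) X₁] [X₂ : (γ-1) X₂] = h₁ p^r` (HQ2), `h₀ = h₁ ≠ 0` by induction for
`X₁`. HQ1 for `Y ≤ X`. -/
def S_HQ3 : Prop := ∀ (p a : ℕ) [Fact p.Prime] (X : Type) [AddCommGroup X]
    [Module.Free ℤ X] [Module.Finite ℤ X] (γ : AddMonoid.End X), γ ^ (p ^ a) = 1 →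
    (∀ i ≤ a, Module.finrank ℤ (AddMonoidHom.ker (γ ^ (p ^ i) - 1 : AddMonoid.End X)) =
      p ^ i * Module.finrank ℤ (AddMonoidHom.ker (γ - 1 : AddMonoid.End X))) →
    (AddMonoidHom.range (∑ j ∈ range (p ^ a), γ ^ j : AddMonoid.End X)).relIndex
      (AddMonoidHom.ker (γ - 1 : AddMonoid.End X)) ≠ 0 ∧
    (AddMonoidHom.range (∑ j ∈ range (p ^ a), γ ^ j : AddMonoid.End X)).relIndex
      (AddMonoidHom.ker (γ - 1 : AddMonoid.End X)) =
    (AddMonoidHom.range (γ - 1 : AddMonoid.End X)).relIndex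
      (AddMonoidHom.ker (∑ j ∈ range (p ^ a), γ ^ j : AddMonoid.End X))

/-- HERBQ: Herbrand quotient one.
Proof (from HQ1, HQ3). `X = Additive E`, `γ` = action of `g`, `t ≠ 0` kills the (finite) torsion of `X`,
`Y = t X` is free of finite index; the ranks of the fixed elements are the same in `Y` and `X` (`t` times a fixed
element of `X` is in `Y`). HQ3 for `Y`, HQ1 for `Y ≤ X`, translate into subgroups of `A`. -/
def S_HERBQ : Prop := ∀ (p a : ℕ) [Fact p.Prime] (A G : Type) [CommGroup A] [Group G]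
    [MulDistribMulAction G A] (g : G) (E : Subgroup A), g ^ (p ^ a) = 1 → E.FG →
    (∀ u ∈ E, g • u ∈ E) →
    (∀ i ≤ a, Module.finrank ℤ (Additive ↥(E ⊓ (dg (g ^ (p ^ i)) : A →* A).ker)) =
      p ^ i * Module.finrank ℤ (Additive ↥(E ⊓ (dg g : A →* A).ker))) →
    (E.map (ng g (p ^ a))).relIndex (E ⊓ (dg g).ker) ≠ 0 ∧
    (E.map (ng g (p ^ a))).relIndex (E ⊓ (dg g).ker) =
      (E.map (dg g)).relIndex (E ⊓ (ng g (p ^ a)).ker)

/-! ### Finite modules -/

/-- ALG1: few invariants of `γ^(p^n)` bound the rank.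
Proof. `V = {x | p x = 0}`, `T = γ - 1`; on `V` `T^(p^j) = γ^(p^j) - 1`, so `T^(p^m) = 0` on `V`. `V_j = V ∩ ker T^j`. If
`V_j = V_{j+1}` then `V_j = V_i` for all `i ≥ j`. If `V_(p^n) ≠ V` then `V_0 < V_1 < … < V_(p^n)`, so
`|V_(p^n)| ≥ p^(p^n)`; but `V_(p^n) ≤ ker (γ^(p^n) - 1)` is a `p`-group, so
`|V_(p^n)| ≤ p^v`, `v = v_p |ker| < p^n`: contradiction. So `V ≤ ker (γ^(p^n) - 1)`. -/
def S_ALG1 : Prop := ∀ (p m n : ℕ) [Fact p.Prime] (A : Type) [AddCommGroup A] [Finite A]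
    (γ : AddMonoid.End A), γ ^ (p ^ m) = 1 → n ≤ m →
    padicValNat p (Nat.card (AddMonoidHom.ker (γ ^ (p ^ n) - 1 : AddMonoid.End A))) < p ^ n →
    padicValNat p (Nat.card {x : A // p • x = 0}) ≤
      padicValNat p (Nat.card (AddMonoidHom.ker (γ ^ (p ^ n) - 1 : AddMonoid.End A)))

/-- ALG2: the kernel of the norm to the previous layer is killed by `p` if the rank is small.
Proof. `ν = ∑_{j<p} γ^(p^m j)`, `K = ker ν`, `|A| = |ν A| |K|`. Let `K_p` be the `p`-primary part of `K`,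
`|K_p| = p^(v_p |K|)`, `φ = p^m (p - 1)`, `T = γ - 1`. As in HQ2 `∑_j X^(p^m j) = (X - 1)^φ + p h`, `h(1) = 1`,
so `T^φ = - p h(γ)` on `K_p`, `T` is nilpotent on `K_p` (a power of `p` kills `K_p`), `h(γ) = 1 + T h₁(γ)` is
bijective on `K_p`. So `K_p ∩ ker T^φ = K_p[p]`, of order at most `|A[p]| = p^d`, `d < φ`. `V_j = K_p ∩ ker T^j`: if all
`V_0 < … < V_φ` then `|V_φ| ≥ p^φ`, a contradiction; so `V_j = V_{j+1}` for some `j < φ`, `V_j = V_i` for `i ≥ j`, `V_j = K_p` (nilpotent), and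
`K_p = V_φ = K_p[p]`, `|K_p| ≤ |A[p]|`. -/
def S_ALG2 : Prop := ∀ (p m : ℕ) [Fact p.Prime] (A : Type) [AddCommGroup A] [Finite A]
    (γ : AddMonoid.End A), γ ^ (p ^ (m + 1)) = 1 →
    padicValNat p (Nat.card {x : A // p • x = 0}) < p ^ m * (p - 1) →
    padicValNat p (Nat.card A) ≤
      padicValNat p
        (Nat.card (AddMonoidHom.range (∑ j ∈ range p, γ ^ (p ^ m * j) : AddMonoid.End A))) +
      padicValNat p (Nat.card {x : A // p • x = 0})

/-- ALGR: ALG1 and ALG2 for a quotient `X / P` of subgroups.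
Proof (from ALG1, ALG2). `A = Additive (X ⧸ P.subgroupOf X)`, `γ` induced by `g`. By ALG1 (`m + 1` for `m`)
`v_p |A[p]| ≤ v_p |ker (γ^(p^n) - 1)| < p^n ≤ p^m (p - 1)`, then ALG2. `ker (γ^(p^n) - 1)` is
`(X ⊓ P.comap (dg (g^(p^n)))) / P`, the range of `ν` is `(X.map (ng (g^(p^m)) p) ⊔ P) / P`. -/
def S_ALGR : Prop := ∀ (p m n : ℕ) [Fact p.Prime] (I G : Type) [CommGroup I] [Group G]
    [MulDistribMulAction G I] (g : G) (P X : Subgroup I), g ^ (p ^ (m + 1)) = 1 → n ≤ m →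
    P ≤ X → P.relIndex X ≠ 0 → (∀ x ∈ P, g • x ∈ P) → (∀ x ∈ X, g • x ∈ X) →
    padicValNat p (P.relIndex (X ⊓ P.comap (dg (g ^ (p ^ n))))) < p ^ n →
    padicValNat p (P.relIndex X) ≤
      padicValNat p (P.relIndex (X.map (ng (g ^ (p ^ m)) p) ⊔ P)) +
      padicValNat p (P.relIndex (X ⊓ P.comap (dg (g ^ (p ^ n)))))

/-- GENA: the index of the subgroup generated by the fixed elements.
Proof. In `C = I / P` (finite), `w = wt l k` prime to `p`: `pr` (induced on `C`) maps `C` into the image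
`D` of `X = partM l ν P` and is the `w`-th power on `D` (`pr_partM`, `pr_mem`), so
`D^w ≤ pr C ≤ D` and `v_p |pr C| = v_p |D| = v_p [X : P]`. Kernel of `pr` on `C`: it contains `B / P` (for `b ∈ S`
with `ν i b = b ^ k i`, `pr b = 1` as the factors commute: `pr b` is a product of operators applied to `fac (k i) (ν i) b = 1`; or:
show by induction on `l` that `ν i b = b ^ k i`, `i ∈ l`, gives `pr b = 1`, using that every `pr l' x`
satisfies `ν i (pr l' b) = (pr l' b) ^ k i`), and for `c` in the kernel `c ^ w ∈ B` (`ν i c ∈ B` and `B` is stable under `ν j`: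
`pr c ≡ c ^ w` modulo `B` by `pr_partM`). So `v_p [C : B/P] = v_p [C : ker] = v_p |pr C|`. -/
def S_GENA : Prop := ∀ (p : ℕ) [Fact p.Prime] (I κ : Type) [CommGroup I] (l : List κ)
    (k : κ → ℕ) (ν : κ → I →* I) (P B : Subgroup I) (S : Set I), (∀ i ∈ l, (k i).Coprime p) →
    QP l k ν → (∀ i ∈ l, ∀ x ∈ P, ν i x ∈ P) → Finite (I ⧸ P) → (∀ i ∈ l, ∀ x, ν i x ∈ B) →
    B = P ⊔ Subgroup.closure S → (∀ b ∈ S, ∃ i ∈ l, ν i b = b ^ k i) →
    padicValNat p B.index = padicValNat p (P.relIndex (partM l ν P))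

/-! ### Ranks of unit groups -/

/-- RK1: Dirichlet's unit theorem for the fixed field of `H`.
Proof. `H` has a fixed field `M`, `Gal(L / M) = H`, the elements of `WU [] N H` are the units of `M` (compare
`prin_eq_one_iff` in `Pool/Agent/RI/RKU.lean`, `prin_map_eq_one_iff`, `exists_of_fixed` in `Pool/Agent/RI/RKF.lean`), rank
`#places(M) - 1` (`NumberField.Units.finrank_modTorsion` or as in RKU.lean), and the places of `M` are the orbits of
`Gal(L / M)` on the places of `L` (`NumberField.InfinitePlace.orbitRelEquiv`). -/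
def S_RK1 : Prop := ∀ (F L κ : Type) [Field F] [NumberField F] [Field L] [NumberField L]
    [Algebra F L] [IsGalois F L] (N : κ → Subgroup (L ≃ₐ[F] L)) (H : Subgroup (L ≃ₐ[F] L)),
    Module.finrank ℤ (Additive (WU ([] : List κ) N H)) + 1 =
      Nat.card (MulAction.orbitRel.Quotient H (InfinitePlace L))

/-- RK2: numbers of orbits.
Proof. Burnside (`MulAction.sum_card_fixedBy_eq_card_orbits_mul_card_group`) for
`Γ_i = H ⊔ ⟨g^(p^i)⟩`, whose elements are `h g'` (unique, `h ∈ H`, `g' ∈ ⟨g^(p^i)⟩`, orders prime to each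
other), `|Γ_i| = |H| p^(a-i)`. If `h g'` fixes `x` then so does `(h g')^|H| = g'^|H|`, hence `g'^|H| = 1`, `g' = 1`. So
`#(X / Γ_i) |H| p^(a-i) = ∑_{h ∈ H} |X^h|` for all `i`, in particular for `i = 0`. -/
def S_RK2 : Prop := ∀ (p a : ℕ) [Fact p.Prime] (G X : Type) [Group G] [Finite G] [Finite X]
    [MulAction G X] (g : G) (H : Subgroup G), orderOf g = p ^ a → (Nat.card H).Coprime p →
    (∀ h ∈ H, h * g = g * h) → (∀ (x : X) (j : ℕ), g ^ j • x = x → g ^ j = 1) → ∀ i ≤ a,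
    Nat.card (MulAction.orbitRel.Quotient ↥(H ⊔ Subgroup.zpowers (g ^ (p ^ i))) X) =
      p ^ i * Nat.card (MulAction.orbitRel.Quotient ↥(H ⊔ Subgroup.zpowers g) X)

/-- RK3: units with trivial norm.
Proof. FG: a subgroup of the units of `L` (RKU.lean). `ν_i = nuS (N i)` maps `WU l N H` into `WU l N (H ⊔ N i)`
(`σ ν_i u = ν_i σ u` as `N i` is normal), the kernel is `WU (i :: l) N H`, and the image contains the
`|N i|`-th powers of `WU l N (H ⊔ N i)`; rank-nullity (compare RKU.lean, `finrank_eq_of_nsmul_mem`). -/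
def S_RK3 : Prop := ∀ (F L κ : Type) [Field F] [NumberField F] [Field L] [NumberField L]
    [Algebra F L] [IsGalois F L] (l : List κ) (i : κ) (N : κ → Subgroup (L ≃ₐ[F] L))
    (H : Subgroup (L ≃ₐ[F] L)), (∀ j ∈ i :: l, (N j).Normal) →
    (WU l N H).FG ∧
    Module.finrank ℤ (Additive (WU (i :: l) N H)) +
      Module.finrank ℤ (Additive (WU l N (H ⊔ N i))) = Module.finrank ℤ (Additive (WU l N H))

/-- CYC: facts on `L / K` cyclic generated by `g`.
Proof. Galois correspondence for the subgroup `⟨g⟩`: `K` is its fixed field. Let `g' : L ≃ₐ[K] L` be `g`;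
`Gal(L / K) = ⟨g'⟩`, of order `q`. Hilbert 90: as in `Pool/Agent/RI/H90.lean`
(`groupCohomology.exists_div_of_norm_eq_one`). The action of `g` and of `g'` on `J L` and `Lˣ` agree
(`mem_smul`). Infinite places: the orbits of `Gal(L / K)` are the places of `K`, all have at most `q` elements, so
all have exactly `q` elements and the action of `⟨g⟩` is free. -/
def S_CYC : Prop := ∀ (F K L : Type) [Field F] [NumberField F] [Field K] [NumberField K]
    [Field L] [NumberField L] [Algebra F K] [Algebra F L] [Algebra K L] [IsScalarTower F K L]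
    (g : L ≃ₐ[F] L) (q : ℕ), CycExt F K L g q →
    IsGalois K L ∧ Module.finrank K L = q ∧
    (∀ τ : L ≃ₐ[K] L, ∃ j < q, ∀ x, τ x = (g ^ j) x) ∧
    (∀ x : Lˣ, ng g q x = 1 → ∃ y, x = y / g • y) ∧
    (∀ x : Lˣ, g • x = x → ∃ y : Kˣ, Units.map (algebraMap K L : K →* L) y = x) ∧
    (∀ b : J L, g • b = b → ∀ τ : L ≃ₐ[K] L, τ • b = b) ∧
    (∀ b : J L, ng g q b = ∏ τ : L ≃ₐ[K] L, τ • b) ∧
    (∀ x : Lˣ, ng g q x = ∏ τ : L ≃ₐ[K] L, τ • x) ∧
    (∀ c : J K, g • ext K L c = ext K L c) ∧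
    (∀ c : Kˣ, g • (Units.map (algebraMap K L : K →* L) c) =
      Units.map (algebraMap K L : K →* L) c) ∧
    (Nat.card (InfinitePlace L) = q * Nat.card (InfinitePlace K) →
      ∀ (x : InfinitePlace L) (j : ℕ), g ^ j • x = x → g ^ j = 1)

/-- RK4: the ranks of the fixed relative units.
Proof (from RK1, RK2, RK3, CYC). Induction on `l'` (sublist of `l`): for every normal subgroup `H` of
order prime to `p` commuting with `g`: if `l' = []`,
`rank WU [] (H ⊔ ⟨g^(p^i)⟩) + 1 = p^i (rank WU [] (H ⊔ ⟨g⟩) + 1)` (RK1, RK2, free action by CYC), and if `l' ≠ []`,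
`rank WU l' (H ⊔ ⟨g^(p^i)⟩) = p^i rank WU l' (H ⊔ ⟨g⟩)`: subtract, by RK3 with `H` and `H ⊔ N i₀`
(`|H ⊔ N i₀|` divides `|H| |N i₀|`). Take `H = ⊥`. -/
def S_RK4 : Prop := ∀ (p a : ℕ) [Fact p.Prime] (F K L κ : Type) [Field F] [NumberField F]
    [Field K] [NumberField K] [Field L] [NumberField L] [Algebra F K] [Algebra F L]
    [Algebra K L] [IsScalarTower F K L] (l : List κ) (N' : κ → Subgroup (K ≃ₐ[F] K))
    (N : κ → Subgroup (L ≃ₐ[F] L)) (g : L ≃ₐ[F] L), Sys p F K L l N' N g a → ∀ i ≤ a,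
    Module.finrank ℤ (Additive (WU l N (Subgroup.zpowers (g ^ (p ^ i))))) =
      p ^ i * Module.finrank ℤ (Additive (WU l N (Subgroup.zpowers g)))

/-! ### Ideals and the steps -/

/-- RES: norms and extension.
Proof. `ext K L (σ' • c) = σ • ext K L c` for corresponding `σ'`, `σ` (`EXTACT` with `M = F`, `EXTACT_thm` in
`Pool/Agent/RI/EXTACT.lean`), reindex the product by the bijection of `Match`. -/
def S_RES : Prop := ∀ (F K L : Type) [Field F] [NumberField F] [Field K] [NumberField K]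
    [Field L] [NumberField L] [Algebra F K] [Algebra F L] [Algebra K L] [IsScalarTower F K L]
    (N' : Subgroup (K ≃ₐ[F] K)) (N : Subgroup (L ≃ₐ[F] L)), Match N' N →
    (∀ c : J K, ext K L (nuS N' c) = nuS N (ext K L c)) ∧
    (∀ x : Kˣ, Units.map (algebraMap K L : K →* L) (nuS N' x) =
      nuS N (Units.map (algebraMap K L : K →* L) x))

/-- NUS: basic facts on the norms `nuS N`.
Proof. `nuS_apply`; `∏_{σ, τ ∈ N} σ τ x = (∏_{σ ∈ N} σ x)^|N|`; for `N` normal `∏_{σ ∈ N} τ σ x = ∏_{σ ∈ N} σ τ x`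
(conjugation is a bijection of `N`); equivariance. `smul_prin` for the fifth part. -/
def S_NUS : Prop :=
  (∀ (G X : Type) [Group G] [Finite G] [CommGroup X] [MulDistribMulAction G X] (N : Subgroup G)
    (x : X), nuS N (nuS N x) = nuS N x ^ Nat.card N) ∧
  (∀ (G X : Type) [Group G] [Finite G] [CommGroup X] [MulDistribMulAction G X] (N : Subgroup G)
    (x : X) (τ : G), τ ∈ N → τ • nuS N x = nuS N x ∧ nuS N (τ • x) = nuS N x) ∧
  (∀ (G X : Type) [Group G] [Finite G] [CommGroup X] [MulDistribMulAction G X] (N : Subgroup G)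
    (x : X) (τ : G), N.Normal → τ • nuS N x = nuS N (τ • x)) ∧
  (∀ (G X : Type) [Group G] [Finite G] [CommGroup X] [MulDistribMulAction G X]
    (N N' : Subgroup G) (x : X), N.Normal → nuS N (nuS N' x) = nuS N' (nuS N x)) ∧
  (∀ (F L : Type) [Field F] [NumberField F] [Field L] [NumberField L] [Algebra F L]
    (N : Subgroup (L ≃ₐ[F] L)) (x : Lˣ), prin (nuS N x) = nuS N (prin x)) ∧
  (∀ (F L κ : Type) [Field F] [NumberField F] [Field L] [NumberField L] [Algebra F L]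
    (l : List κ) (N : κ → Subgroup (L ≃ₐ[F] L)), (∀ i ∈ l, (N i).Normal) →
    QP l (fun i => Nat.card (N i)) (fun i => (nuS (N i) : Lˣ →* Lˣ)) ∧
    QP l (fun i => Nat.card (N i)) (fun i => (nuS (N i) : J L →* J L)) ∧
    (prin : Lˣ →* J L).range ≤ XsJ l N ∧
    ∀ σ : L ≃ₐ[F] L, ∀ x ∈ XsJ l N, σ • x ∈ XsJ l N)

/-- INVE: invariant ideals with trivial norms.
Proof. `τ • b = b` for all `τ ∈ Gal(L / K)` (CYC). `INVI` (`INVI_thm COUNTACT_thm COUNTEXT_thm` in
`Pool/Agent/RI`): to show that the exponent of `b` at a ramified `w` is `0`. `w` is stabilised by `N i`: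
`0 = count_w (nuS (N i) b) = ∑_{σ ∈ N i} count_w (σ b) = |N i| count_w b` (`COUNTACT` with `v = w`). -/
def S_INVE : Prop := ∀ (F K L κ : Type) [Field F] [NumberField F] [Field K] [NumberField K]
    [Field L] [NumberField L] [Algebra F K] [Algebra F L] [Algebra K L] [IsScalarTower F K L]
    (l : List κ) (N : κ → Subgroup (L ≃ₐ[F] L)) (g : L ≃ₐ[F] L) (q : ℕ), CycExt F K L g q →
    (∀ w : HeightOneSpectrum (𝓞 L), w.asIdeal.ramificationIdx (𝓞 K) ≠ 1 →
      ∃ i ∈ l, ∀ σ ∈ N i, σ • w.asIdeal = w.asIdeal) →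
    ∀ b : J L, b ∈ part l (fun i => nuS (N i)) → g • b = b → ∃ c : J K, ext K L c = b

/-- NRM: the relative norm of an element of `XsJ l N`.
Proof (from CYC, RES). `ng g q b = ∏_τ τ • b = nm K L b = ext K L c` (`nm_mem` in `Pool/Agent/RI/CL.lean`). For `i ∈ l`
`nuS (N i) b = prin x`, so `ext K L (nuS (N' i) c) = nuS (N i) (ng g q b) = ng g q (prin x) = prin (∏_τ τ x)
= prin (algebraMap y) = ext K L (prin y)` (`ng g q` commutes with `nuS (N i)` as `g` commutes with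
`N i`; the norm `∏_τ τ x` is in `K`), so `nuS (N' i) c = prin y` (`ext_injective`). -/
def S_NRM : Prop := ∀ (F K L κ : Type) [Field F] [NumberField F] [Field K] [NumberField K]
    [Field L] [NumberField L] [Algebra F K] [Algebra F L] [Algebra K L] [IsScalarTower F K L]
    (l : List κ) (N' : κ → Subgroup (K ≃ₐ[F] K)) (N : κ → Subgroup (L ≃ₐ[F] L))
    (g : L ≃ₐ[F] L) (q : ℕ), CycExt F K L g q → (∀ i ∈ l, Match (N' i) (N i)) →
    (∀ i ∈ l, ∀ σ ∈ N i, σ * g = g * σ) →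
    ∀ b ∈ XsJ l N, ∃ c ∈ XsJ l N', ext K L c = ng g q b

/-- STEPC: the ambiguous classes of `L / K` are at most as many as the classes of `K`.
Proof (from ABS1, ABS2, HERBQ, RK3, RK4, CYC, RES, NUS, INVE). `A = Lˣ`, `I = J L`, `A' = Kˣ`, `I' = J K`,
`dv = prin`, `ι = Units.map (algebraMap K L)`, `ε = ext K L`, `k i = Nat.card (N i)`, `ν i = nuS (N i)`,
`q = p ^ a`: all fields of `AD` (finiteness of the class groups: `finite_quot` or as in
`Pool/Agent/RI/CL.lean`). `E = prin.ker ⊓ part = WU l N ⊥`, `E ⊓ (dg (g^(p^i))).ker = WU l N ⟨g^(p^i)⟩`: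
HERBQ with RK4 gives `[B₀ : N₀] = [Z₁ : B₁] ≠ 0`. Add ABS1 and ABS2. -/
def S_STEPC : Prop := ∀ (p a : ℕ) [Fact p.Prime] (F K L κ : Type) [Field F] [NumberField F]
    [Field K] [NumberField K] [Field L] [NumberField L] [Algebra F K] [Algebra F L]
    [Algebra K L] [IsScalarTower F K L] (l : List κ) (N' : κ → Subgroup (K ≃ₐ[F] K))
    (N : κ → Subgroup (L ≃ₐ[F] L)) (g : L ≃ₐ[F] L), Sys p F K L l N' N g a →
    padicValNat p ((prin : Lˣ →* J L).range.relIndex
      (XsJ l N ⊓ (prin : Lˣ →* J L).range.comap (dg g))) ≤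
    padicValNat p ((prin : Kˣ →* J K).range.relIndex (XsJ l N'))

/-- STEP1: the trivial case.
Proof (from STEPC, NUS). The finite group `XsJ l N / prin.range` with the action of `g` of order `p^a`: if `p` divides
its order, its `p`-primary part is a nontrivial `p`-group with an action of a `p`-group, so it has a fixed element
of order `p` (`card_modEq_card_fixedPoints`), so `p` divides the order of the fixed elements, a contradiction. -/
def S_STEP1 : Prop := ∀ (p a : ℕ) [Fact p.Prime] (F K L κ : Type) [Field F] [NumberField F]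
    [Field K] [NumberField K] [Field L] [NumberField L] [Algebra F K] [Algebra F L]
    [Algebra K L] [IsScalarTower F K L] (l : List κ) (N' : κ → Subgroup (K ≃ₐ[F] K))
    (N : κ → Subgroup (L ≃ₐ[F] L)) (g : L ≃ₐ[F] L), Sys p F K L l N' N g a →
    padicValNat p ((prin : Kˣ →* J K).range.relIndex (XsJ l N')) = 0 →
    padicValNat p ((prin : Lˣ →* J L).range.relIndex (XsJ l N)) = 0

/-- STEPN: `F ⊆ K₁ ⊆ K₂ ⊆ L` cyclic over the fixed field of `γ`, `[L : K₂] = p`.
Proof (from STEPC, NRM, ALGR, NUS). ALGR for `I = J L`, `P = prin.range`, `X = XsJ l N`, `g = γ`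
(`P ≤ X`, stability: NUS, `smul_prin`). STEPC for `K₁`:
`v_p [X ∩ … : P] ≤ e₁ < p^n`. By NRM for `K₂` (`γ^(p^m)`, `q = p ^ 1`) `X.map (ng (γ^(p^m)) p)` is contained in
the image of `XsJ l N₂` under `ext K₂ L`, so the first term is at most `v_p [XsJ l N₂ : prin.range]`
(`ext_prin`). -/
def S_STEPN : Prop := ∀ (p m n : ℕ) [Fact p.Prime] (F K₁ K₂ L κ : Type) [Field F]
    [NumberField F] [Field K₁] [NumberField K₁] [Field K₂] [NumberField K₂] [Field L]
    [NumberField L] [Algebra F K₁] [Algebra F K₂] [Algebra F L] [Algebra K₁ L] [Algebra K₂ L]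
    [IsScalarTower F K₁ L] [IsScalarTower F K₂ L] (l : List κ)
    (N₁ : κ → Subgroup (K₁ ≃ₐ[F] K₁)) (N₂ : κ → Subgroup (K₂ ≃ₐ[F] K₂))
    (N : κ → Subgroup (L ≃ₐ[F] L)) (γ : L ≃ₐ[F] L), n ≤ m → orderOf γ = p ^ (m + 1) →
    Sys p F K₁ L l N₁ N (γ ^ (p ^ n)) (m + 1 - n) → Sys p F K₂ L l N₂ N (γ ^ (p ^ m)) 1 →
    padicValNat p ((prin : K₁ˣ →* J K₁).range.relIndex (XsJ l N₁)) < p ^ n →
    padicValNat p ((prin : Lˣ →* J L).range.relIndex (XsJ l N)) ≤
      padicValNat p ((prin : K₂ˣ →* J K₂).range.relIndex (XsJ l N₂)) +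
      padicValNat p ((prin : K₁ˣ →* J K₁).range.relIndex (XsJ l N₁))

/-! ### Subfields of `ℂ` -/

/-- SCN: the groups `Gal(K M / E M)`.
Proof. `E M / F` is Galois (`BCH`), so `NC h (E ⊔ M)` is normal. Its order is `[K M : E M]`, which divides
`[K : E]` (`BCH.1` with `A = E`, `C = K`), which divides `[K : F]`, prime to `p`. `g` fixes `K`, `σ` fixes `M`, both
`K / F` and `M / F` are Galois, so `σ g` and `g σ` agree on `K` and on `M`. -/
def S_SCN : Prop := ∀ (p : ℕ) [Fact p.Prime] (F K M : IntermediateField ℚ ℂ)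
    [FiniteDimensional ℚ K] [FiniteDimensional ℚ M] (l : List (IntermediateField ℚ ℂ)),
    CD p F K M l → ∀ (h : F ≤ K ⊔ M), letI := algC h
    ∀ E ∈ l, (NC h (E ⊔ M)).Normal ∧ (Nat.card (NC h (E ⊔ M))).Coprime p ∧
      ∀ g : ↥(K ⊔ M) ≃ₐ[F] ↥(K ⊔ M), (∀ x : ↥(K ⊔ M), (x : ℂ) ∈ K → g x = x) →
        ∀ σ ∈ NC h (E ⊔ M), σ * g = g * σ

/-- SCM: restriction from `K M` to `K M'`.
Proof. `K M' / F` is Galois. Restriction maps `NC (E ⊔ M)` to `NC (E ⊔ M')`, injective (an element trivial on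
`K M'` and on `E M` is trivial on `K M`), and both have order `[K : E]`: `[K M : E M] = [K : E]` since
`[K M : F] = [K : F] [M : F]`, `[E M : F] = [E : F] [M : F]` (degrees prime to each other), same for `M'`. -/
def S_SCM : Prop := ∀ (p : ℕ) [Fact p.Prime] (F K M' M : IntermediateField ℚ ℂ)
    [FiniteDimensional ℚ K] [FiniteDimensional ℚ M'] [FiniteDimensional ℚ M]
    (l : List (IntermediateField ℚ ℂ)), CD p F K M l → ∀ (h₁ : F ≤ M'), M' ≤ M →
    IsGalois F (IntermediateField.extendScalars h₁) →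
    ∀ (h : F ≤ K ⊔ M') (h' : K ⊔ M' ≤ K ⊔ M),
    letI := algC h
    letI := algC h'
    letI := algC (h.trans h')
    ∀ E ∈ l, Match (NC h (E ⊔ M')) (NC (h.trans h') (E ⊔ M))

/-- SCI: infinite places. Proof as in `Pool/Agent/RI/TSTEP.lean` (`hinf1`), with `INF_thm` and `adjoin_top`. -/
def S_SCI : Prop := ∀ (p : ℕ) [Fact p.Prime] (F K M' M : IntermediateField ℚ ℂ)
    [FiniteDimensional ℚ K] [FiniteDimensional ℚ M'] [FiniteDimensional ℚ M]
    (l : List (IntermediateField ℚ ℂ)), CD p F K M l → ∀ (h₁ : F ≤ M'), M' ≤ M →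
    IsGalois F (IntermediateField.extendScalars h₁) →
    ∀ (h' : K ⊔ M' ≤ K ⊔ M), letI := algC h'
    Nat.card (InfinitePlace ↥(K ⊔ M)) =
      Module.finrank ↥(K ⊔ M') ↥(K ⊔ M) * Nat.card (InfinitePlace ↥(K ⊔ M'))

/-- SCR: ramified primes.
Proof. Compare `hram` in `Pool/Agent/RI/TSTEP.lean`. `w` ramified over `K M'`, so (`RAMB`) `w ∩ M` is ramified
over `M'`, so `w ∩ F` ramifies in `M`; by `DecRam` there is `E ∈ l` such that `w ∩ K` is the only prime of `K`
above `w ∩ E`. `NSN` for `E ⊆ K`, `E M ⊆ K M` (`[K M : K]` a power of `p`, `[K M : E M]` prime to `p`): all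
`σ ∈ Gal(K M / E M)` stabilise `w`. -/
def S_SCR : Prop := ∀ (p : ℕ) [Fact p.Prime] (F K M' M : IntermediateField ℚ ℂ)
    [FiniteDimensional ℚ K] [FiniteDimensional ℚ M'] [FiniteDimensional ℚ M]
    (l : List (IntermediateField ℚ ℂ)), CD p F K M l → ∀ (h₁ : F ≤ M'), M' ≤ M →
    IsGalois F (IntermediateField.extendScalars h₁) →
    ∀ (h : F ≤ K ⊔ M') (h' : K ⊔ M' ≤ K ⊔ M),
    letI := algC h
    letI := algC h'
    letI := algC (h.trans h')
    ∀ w : HeightOneSpectrum (𝓞 ↥(K ⊔ M)), w.asIdeal.ramificationIdx (𝓞 ↥(K ⊔ M')) ≠ 1 →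
      ∃ E ∈ l, ∀ σ ∈ NC (h.trans h') (E ⊔ M), σ • w.asIdeal = w.asIdeal

/-- SYSC: assembly of `Sys`.
Proof (from SCN, SCM, SCI, SCR, CDR, CYC). `K M / F`, `K M' / F` Galois: `BCH.2`. `g` fixes `K`. SCN for `M` and
(with CDR) for `M'`. `[K M : K M'] = p ^ a` by CYC. -/
def S_SYSC : Prop := ∀ (p a : ℕ) [Fact p.Prime] (F K M' M : IntermediateField ℚ ℂ)
    [FiniteDimensional ℚ F] [FiniteDimensional ℚ K] [FiniteDimensional ℚ M']
    [FiniteDimensional ℚ M] (l : List (IntermediateField ℚ ℂ)), CD p F K M l →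
    ∀ (h₁ : F ≤ M'), M' ≤ M → IsGalois F (IntermediateField.extendScalars h₁) →
    ∀ (h : F ≤ K ⊔ M') (h' : K ⊔ M' ≤ K ⊔ M),
    letI := algC h
    letI := algC h'
    letI := algC (h.trans h')
    letI := towerC h h'
    ∀ g : ↥(K ⊔ M) ≃ₐ[F] ↥(K ⊔ M), CycExt F ↥(K ⊔ M') ↥(K ⊔ M) g (p ^ a) →
      Sys p F ↥(K ⊔ M') ↥(K ⊔ M) l (fun E => NC h (E ⊔ M'))
        (fun E => NC (h.trans h') (E ⊔ M)) g a

/-- CDR: restriction of the situation to `M' ≤ M`.
Proof. `degM`: the degree divides `p ^ a`. `inf`, `ram`: as in `Pool/Agent/RI/MAINA.lean` (`unramInf_bot`,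
`ramifies_of`). -/
def S_CDR : Prop := ∀ (p : ℕ) [Fact p.Prime] (F K M' M : IntermediateField ℚ ℂ)
    [FiniteDimensional ℚ K] [FiniteDimensional ℚ M'] [FiniteDimensional ℚ M]
    (l : List (IntermediateField ℚ ℂ)), CD p F K M l → ∀ (h₁ : F ≤ M'), M' ≤ M →
    IsGalois F (IntermediateField.extendScalars h₁) → CD p F K M' l

/-- GCC: a generator of `Gal(K M / K M')` if `Gal(M / M')` is cyclic.
Proof. Restriction `Gal(K M / K M') → Gal(M / M')` is injective; the degrees are equal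
(`[K M : F] = [K : F] [M : F]`, `[K M' : F] = [K : F] [M' : F]` since the degrees are prime to each other). Take `g` (as an
`F`-automorphism) with image a generator. -/
def S_GCC : Prop := ∀ (p : ℕ) [Fact p.Prime] (F K M' M : IntermediateField ℚ ℂ)
    [FiniteDimensional ℚ K] [FiniteDimensional ℚ M'] [FiniteDimensional ℚ M]
    (l : List (IntermediateField ℚ ℂ)), CD p F K M l → ∀ (h₁ : F ≤ M') (h₂ : M' ≤ M),
    IsCyclic ((IntermediateField.extendScalars h₂) ≃ₐ[M'] (IntermediateField.extendScalars h₂)) →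
    ∀ (h : F ≤ K ⊔ M), letI := algC h
    ∃ g : ↥(K ⊔ M) ≃ₐ[F] ↥(K ⊔ M),
      orderOf g = Module.finrank M' (IntermediateField.extendScalars h₂) ∧
      ∀ x : ↥(K ⊔ M), g x = x ↔ (x : ℂ) ∈ K ⊔ M'

/-- GCP: the fixed field of `γ ^ (p ^ n)`.
Proof. `Gal(K M / K) = ⟨γ⟩` is cyclic of order `p^c`; its subgroup `Gal(K M / K M₁)` has index
`[K M₁ : K] = [M₁ : F] = p^n` (degrees prime to each other), so it is `⟨γ^(p^n)⟩`, the only subgroup of this
index. -/
def S_GCP : Prop := ∀ (p n : ℕ) [Fact p.Prime] (F K M₁ M : IntermediateField ℚ ℂ)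
    [FiniteDimensional ℚ K] [FiniteDimensional ℚ M₁] [FiniteDimensional ℚ M]
    (l : List (IntermediateField ℚ ℂ)), CD p F K M l → ∀ (h₁ : F ≤ M₁), M₁ ≤ M →
    Module.finrank F (IntermediateField.extendScalars h₁) = p ^ n →
    ∀ (h : F ≤ K ⊔ M), letI := algC h
    ∀ γ : ↥(K ⊔ M) ≃ₐ[F] ↥(K ⊔ M), (∀ x : ↥(K ⊔ M), γ x = x ↔ (x : ℂ) ∈ K) →
      ∀ x : ↥(K ⊔ M), (γ ^ (p ^ n)) x = x ↔ (x : ℂ) ∈ K ⊔ M₁

/-- GENC: `e(M)` in terms of the fractional ideals with principal norms.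
Proof (from GENA, SCN, NUS). `L = K ⊔ M`, `I = J L`, `P = prin.range`, `ν E = nuS (NC h (E ⊔ M))`, `k E` its order,
`S` = the set of the `ext (E ⊔ M) L c`, `c ∈ J (E ⊔ M)`, `E ∈ l`, `B = P ⊔ closure S`. `ν E b` is the norm from `L` to
`E ⊔ M`: the group `Gal(L / E M)` is `NC h (E ⊔ M)`, `ν E b = nm (E ⊔ M) L b ∈ S` (`nm_mem` in CL.lean),
and `ν E (ext c) = (ext c) ^ k E`. The isomorphism `ClassGroup (𝓞 L) ≃* J L ⧸ prin.range`
(`ClassGroup.equiv`, `ClassGroup.equiv_mk0`) maps `fromSub L {E ⊔ M}` to `B / P` (every fractional ideal is a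
quotient of an integral ideal by a principal one), so `index fromSub = index B`. -/
def S_GENC : Prop := ∀ (p : ℕ) [Fact p.Prime] (F K M : IntermediateField ℚ ℂ)
    [FiniteDimensional ℚ F] [FiniteDimensional ℚ K] [FiniteDimensional ℚ M]
    (l : List (IntermediateField ℚ ℂ)), CD p F K M l → ∀ (h : F ≤ K ⊔ M), letI := algC h
    padicValNat p ((prin : (↥(K ⊔ M))ˣ →* J ↥(K ⊔ M)).range.relIndex
      (XsJ l (fun E => NC h (E ⊔ M)))) = eOf p K M {E | E ∈ l}

/-- CYCM: the next to last field in a cyclic extension of degree `p ^ (m + 1)`.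
Proof. Galois theory of the cyclic group `Gal(M / F)`: the subgroup of order `p` is contained in the nontrivial
subgroup fixing `M'`; take its fixed field `M''`. `CHIEF_thm` does something similar. -/
def S_CYCM : Prop := ∀ (p m n : ℕ) [Fact p.Prime] (F M' M : IntermediateField ℚ ℂ)
    [FiniteDimensional ℚ M] (hM : F ≤ M) (h₁ : F ≤ M') (_ : M' ≤ M),
    IsGalois F (IntermediateField.extendScalars hM) →
    IsCyclic ((IntermediateField.extendScalars hM) ≃ₐ[F] (IntermediateField.extendScalars hM)) →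
    Module.finrank F (IntermediateField.extendScalars hM) = p ^ (m + 1) →
    Module.finrank F (IntermediateField.extendScalars h₁) = p ^ n → n ≤ m →
    IsGalois F (IntermediateField.extendScalars h₁) ∧
    ∃ (M'' : IntermediateField ℚ ℂ) (h₃ : F ≤ M'') (h₄ : M'' ≤ M), M' ≤ M'' ∧
      IsGalois F (IntermediateField.extendScalars h₃) ∧
      IsCyclic ((IntermediateField.extendScalars h₃) ≃ₐ[F]
        (IntermediateField.extendScalars h₃)) ∧
      Module.finrank F (IntermediateField.extendScalars h₃) = p ^ m ∧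
      IsCyclic ((IntermediateField.extendScalars h₄) ≃ₐ[M'']
        (IntermediateField.extendScalars h₄)) ∧
      Module.finrank M'' (IntermediateField.extendScalars h₄) = p

/-- MAIN1: `e(F) = 0` implies `e(M) = 0`.
Proof (from CDR, SYSC, GCC, STEP1, GENC). Induction on `a`, `[M : F] = p ^ a`, with `CHIEF_thm`: `F ≤ M' ≤ M`,
`M' / F` Galois of degree `p ^ (a - 1)`, `[M : M'] = p` (cyclic as the group has prime order); `CD` for `M'` by CDR; GCC
gives `g`, SYSC gives `Sys` with `a = 1`, STEP1 and GENC for `M'` and `M`. Case `a = 0`: `M = F`. -/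
def S_MAIN1 : Prop := ∀ (p : ℕ) [Fact p.Prime] (F K M : IntermediateField ℚ ℂ)
    [FiniteDimensional ℚ F] [FiniteDimensional ℚ K] [FiniteDimensional ℚ M]
    (l : List (IntermediateField ℚ ℂ)), CD p F K M l → eOf p K F {E | E ∈ l} = 0 →
    eOf p K M {E | E ∈ l} = 0

/-- MAIN2: linear growth in cyclic extensions.
Proof (from CDR, CYCM, SYSC, GCC, GCP, STEPN, GENC). Induction on `m` (`n ≤ m` by degrees). `m = n`: `M' = M`. Step to
`m + 1 > n`: `M''` from CYCM; `e(M'') ≤ (m - n + 1) e(M')` by induction (CDR). GCC with `M' = F` gives `γ` of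
order `p^(m+1)` with fixed field `K ⊔ F = K`; by GCP the fixed field of `γ^(p^n)` is `K ⊔ M'`, that of `γ^(p^m)` is
`K ⊔ M''`; SYSC for both, STEPN, GENC for the three fields: `e(M) ≤ e(M'') + e(M')`. -/
def S_MAIN2 : Prop := ∀ (p n m : ℕ) [Fact p.Prime] (F K M' M : IntermediateField ℚ ℂ)
    [FiniteDimensional ℚ F] [FiniteDimensional ℚ K] [FiniteDimensional ℚ M']
    [FiniteDimensional ℚ M] (l : List (IntermediateField ℚ ℂ)), CD p F K M l →
    ∀ (hM : F ≤ M) (h₁ : F ≤ M'), M' ≤ M →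
    IsCyclic ((IntermediateField.extendScalars hM) ≃ₐ[F] (IntermediateField.extendScalars hM)) →
    Module.finrank F (IntermediateField.extendScalars h₁) = p ^ n →
    Module.finrank F (IntermediateField.extendScalars hM) = p ^ m →
    eOf p K M' {E | E ∈ l} < p ^ n →
    eOf p K M {E | E ∈ l} ≤ (m - n + 1) * eOf p K M' {E | E ∈ l}

/-- BND: the class number of `K M`.
Proof. `h(K M) = index * |fromSub|`, and `fromSub` is the product of the images of the class groups of the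
`E M`, `E ∈ l` (homomorphisms `Cl(E M) → Cl(K M)`; or in terms of `J`: `ext`), so
`v_p |fromSub| ≤ ∑ v_p h(E M)`. -/
def S_BND : Prop := ∀ (p : ℕ) [Fact p.Prime] (K M : IntermediateField ℚ ℂ)
    [FiniteDimensional ℚ K] [FiniteDimensional ℚ M] (l : List (IntermediateField ℚ ℂ)),
    (∀ E ∈ l, E ≤ K) →
    eOf p K M {E | E ∈ l} ≤ padicValNat p (classNo (K ⊔ M)) ∧
    padicValNat p (classNo (K ⊔ M)) ≤ eOf p K M {E | E ∈ l} +
      (l.map fun E => padicValNat p (classNo (E ⊔ M))).sum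

/-- INJ: divisibility of class numbers in extensions of degree prime to `p`.
Proof. `Cl(A) → Cl(B)`, `c ↦ c 𝓞_B`, composed with the norm is the power with exponent `[B : A]` (`nm_ext` in
`Pool/Agent/RI/CL.lean`, `ext_injective`), so it is injective on the `p`-part. -/
def S_INJ : Prop := ∀ (p : ℕ) [Fact p.Prime] (A B : IntermediateField ℚ ℂ)
    [FiniteDimensional ℚ B] (h : A ≤ B), IsGalois A (IntermediateField.extendScalars h) →
    ¬ p ∣ Module.finrank A (IntermediateField.extendScalars h) →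
    padicValNat p (classNo A) ≤ padicValNat p (classNo B)

/-- LAYC: the layers are cyclic.
Proof. `B ≤ ℚ(ζ)`, `ζ` a primitive root of order `p^m`, `Gal(ℚ(ζ)/ℚ) = (ℤ/p^m)ˣ`, cyclic if `p` is odd; if
`p = 2` the quotient by `⟨-1⟩` (complex conjugation, trivial on `B`) is cyclic, generated by the image of `5`
(`ZMod.orderOf_five`). `Gal(B/ℚ)` is a quotient of it. Compare `Pool/Agent/RI/LAY.lean`. -/
def S_LAYC : Prop := ∀ (p n : ℕ) [Fact p.Prime] (B : IntermediateField ℚ ℂ), IsLayer p n B →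
    IsCyclic (B ≃ₐ[ℚ] B)

/-- CDL: the situation for `M = F B`, `B` a layer; the degrees.
Proof (from LAYC). As in `Pool/Agent/RI/MAINC.lean`: `LAY_thm`, `BCH_thm`, `RAM_thm`, `MAINC.unramInf_layer`. A prime of `F`
that ramifies in `F B` is `0` or contains `p` (`MAINC.ram_aux`); `P = 0`: it is the only prime of `K`
above `0` (any `E ∈ l`, `l ≠ []`). Cyclic: `Gal(F B / F)` embeds in `Gal(B / ℚ)` by restriction. Degree:
`[F B : F] [F : ℚ] ≥ [B : ℚ] = p^n`, a power of `p`. -/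
def S_CDL : Prop := ∀ (p n : ℕ) [Fact p.Prime] (F K B : IntermediateField ℚ ℂ)
    [FiniteDimensional ℚ K] (l : List (IntermediateField ℚ ℂ)) (hK : F ≤ K),
    IsGalois F (IntermediateField.extendScalars hK) →
    ¬ p ∣ Module.finrank F (IntermediateField.extendScalars hK) → l ≠ [] →
    (∀ E ∈ l, ∃ h : F ≤ E, E ≤ K ∧ IsGalois F (IntermediateField.extendScalars h)) →
    DecP p K {E | E ∈ l} → IsLayer p n B →
    CD p F K (F ⊔ B) l ∧
    IsCyclic ((IntermediateField.extendScalars (le_sup_left : F ≤ F ⊔ B)) ≃ₐ[F]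
      (IntermediateField.extendScalars (le_sup_left : F ≤ F ⊔ B))) ∧
    ∃ c : ℕ, Module.finrank F (IntermediateField.extendScalars (le_sup_left : F ≤ F ⊔ B)) =
      p ^ c ∧ c ≤ n ∧ p ^ n ≤ p ^ c * Module.finrank ℚ F

/-- MAIN3: the criterion for the cyclotomic `ℤ_p`-extension.
Proof (from MAIN2, BND, INJ, CDL). `E ⊔ (F ⊔ B n) = E ⊔ B n`, so `eOf p K (F ⊔ B n) = eOf p K (B n)`. Left to right: `K B / E B` is
Galois of degree prime to `p` (`BCH`), INJ: `v_p h(E B n) ≤ v_p h(K B n) ≤ C (n + 1)`; and by BND `e(n) ≤ C (n + 1)`, which is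
less than `p ^ n / [F : ℚ] ≤ [F B n : F]` for large `n`. Right to left: MAIN2 with `M' = F ⊔ B n₀`, `M = F ⊔ B n`,
`n ≥ n₀`: `e(n) ≤ (n + 1) e(n₀)`; for `n < n₀` (finitely many) increase the constant; BND. -/
def S_MAIN3 : Prop := ∀ (p : ℕ) [Fact p.Prime] (F K : IntermediateField ℚ ℂ)
    [FiniteDimensional ℚ K] (l : List (IntermediateField ℚ ℂ)) (hK : F ≤ K)
    (B : ℕ → IntermediateField ℚ ℂ) [∀ n, FiniteDimensional ℚ (B n)],
    IsGalois F (IntermediateField.extendScalars hK) →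
    ¬ p ∣ Module.finrank F (IntermediateField.extendScalars hK) → l ≠ [] →
    (∀ E ∈ l, ∃ h : F ≤ E, E ≤ K ∧ IsGalois F (IntermediateField.extendScalars h)) →
    DecP p K {E | E ∈ l} → Monotone B → (∀ n, IsLayer p n (B n)) →
    ((∃ C : ℕ, ∀ n, padicValNat p (classNo (K ⊔ B n)) ≤ C * (n + 1)) ↔
      (∀ E ∈ l, ∃ C : ℕ, ∀ n, padicValNat p (classNo (E ⊔ B n)) ≤ C * (n + 1)) ∧
      ∃ n, eOf p K (B n) {E | E ∈ l} <
        Module.finrank F (IntermediateField.extendScalars (le_sup_left : F ≤ F ⊔ B n)))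

end Pool.Agent.RID


end
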