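import Mathlib
import Pool.Agent.MVF.C006
import Pool.Agent.MVF.C007
import Pool.Agent.MVF.C012
import Pool.Agent.MVF.C015
import Pool.Agent.MVF.C019
import Pool.Agent.MVF.C030

/-! Parts: NS.StRN, MU3.A_TW2, RI.MAINC, RI.RAM, RID.P_CDL, MU3.N_RAMP -/

section

/-!
# MUX-NS, block RN: reduction of CM curves at the places above 3, 3 not split in `k` (helper58)

`V` a valuation ring of `ℂ`, `v = V.valuation`, `v 3 < 1`, `v 2 = 1`. `X z = xu L u e z = (℘ z - e)/u²`,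
`Y z = yu L u z = ℘' z/(2 u³)`: the coordinates of the lattice `u L`, in Legendre form `Y² = X (X - 1)(X - lam)` (`Leg L u e lam`; the same equation
as in `GoodN`). `GR`, `InK`, `tX` and the lemmas on them (kernel of reduction, `v_X_sub`, `near`, `near_lt`, `v_tX_nat`, `mem_of_nat_mul`, ...): helper59's
`Pool/Agent/MUX/VX.lean`. The theorems `Pool.Agent.MU3B.b_X : St_X` (`MU3/BAll.lean`), `Pool.Agent.MU3A.ta_SCP`, `ta_TW2`, `ta_ROO` (`MU3/A_X.lean`;
unconditional in `MU3/AVAll.lean`) and block U (`MUX/UAll.lean`, `u_X : Su_X`), `Pool.Agent.MUXV.tx_XIC` (`MUX/R_XIC.lean`) may be used directly.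

Every `def Sr_X : Prop` is the statement of a module which proves `theorem tr_X (h : Sr_Y) .. : Sr_X` in `Pool/Agent/NS/RN_X.lean`, namespace
`Pool.Agent.NSR`. Facts on `emb`, ideals, `Tor` for `CQ A B` without hypotheses: `Pool/Agent/MUX/XLib.lean` (helper51). All formulas were checked by computer
or by hand. Except TP3, VAL3, ALP, everything holds for `3` inert and for `3` ramified (structure `CtxA`).
-/

set_option autoImplicit false

open WeierstrassCurve Polynomial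

namespace Pool.Agent.NSR

open _root_.MU3 _root_.Pool.Agent.MU3A _root_.Pool.Agent.MU3B _root_.Pool.Agent.RI _root_.Pool.Agent.MUX _root_.Pool.Agent.MUXU
open _root_.Pool.Agent.MUXV (GR InK tX)
open _root_.Pool.Agent.NS

noncomputable section

/-- the Legendre curve `y² = x (x - 1)(x - lam)` -/
def WL (lam : ℂ) : WeierstrassCurve.Affine ℂ := ⟨0, -(1 + lam), 0, lam, 0⟩

/-- the lattice `u L` is in Legendre form (the same formula as in `GoodN`) -/
structure Leg (L : PeriodPair) (u e lam : ℂ) : Prop where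
  u0 : u ≠ 0
  eq : ∀ z ∉ L.lattice, (L.derivWeierstrassP z / (2 * u ^ 3)) ^ 2 =
    ((L.weierstrassP z - e) / u ^ 2) * ((L.weierstrassP z - e) / u ^ 2 - 1) *
      ((L.weierstrassP z - e) / u ^ 2 - lam)

lemma GoodN.leg {V : ValuationSubring ℂ} {L : PeriodPair} {u e lam : ℂ} (h : GoodN V L u e lam) :
    Leg L u e lam := ⟨h.u0, h.eq⟩

/-- `α = 1 + 2 w` and its conjugate -/
def alO (A B : ℤ) : OO A B := ⟨1, 2⟩

def alO' (A B : ℤ) : OO A B := ⟨1 + 2 * B, -2⟩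

/-- the multiplier `α` -/
def al (A B : ℤ) : ℂ := emb (alO A B)

/-- `V` lies above 3, and 3 does not split: `1 - α²` is not divisible by 3; `N = N(α)` -/
structure CtxA (A B : ℤ) (V : ValuationSubring ℂ) (N : ℕ) : Prop where
  cq : CQ A B
  v3 : V.valuation (3 : ℂ) < 1
  v2 : V.valuation (2 : ℂ) = 1
  va : V.valuation (3 : ℂ) < V.valuation (1 - al A B ^ 2)
  nrm : (N : ℂ) = emb (alO' A B) * al A B
  odd : Odd N
  one : 1 < N
  vN : V.valuation (N : ℂ) = 1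

/-! ## The Legendre form -/

/-- (LGF) facts on the Legendre form. Here `e₁ = e`, `e₂ = e + u²`, `e₃ = e + lam u²`.

PROOF. `℘'(z)² = 4 (℘ - e)(℘ - e - u²)(℘ - e - lam u²)` (`Leg.eq` times `4 u⁶`) and `= 4℘³ - g₂℘ - g₃` (`derivWeierstrassP_sq`) for all `z ∉ L`; `℘` takes every value (`b_SUR`), so the two cubic polynomials have the same values at all complex numbers, so the same
coefficients (evaluate at `0, 1, -1, 2`). `X²`: `3 e + (1 + lam) u² = 0`. With `e = -(1+lam)u²/3`: `g₂ = (4/3) u⁴ (lam² - lam + 1)`, `g₃ = (4/27) u⁶ (1 + lam)(lam - 2)(2 lam - 1)` and `g₂³ - 27 g₃² = 16 u¹² lam² (lam - 1)²` (`ring`), not zero by `b_DSC`. Point: `b_DSC` (second part) with `x = e`, `y = 0`: `z ∉ L`, `℘ z = e`,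
`℘' z = 0`, `2 z ∈ L` (`b_ZER`). Last: `℘'(w) = 0` (`b_ZER`). -/
def Sr_LGF : Prop :=
  ∀ (L : PeriodPair) (u e lam : ℂ), Leg L u e lam →
    3 * e = -(1 + lam) * u ^ 2 ∧ lam ≠ 0 ∧ lam ≠ 1 ∧
    L.g₂ = 4 / 3 * u ^ 4 * (lam ^ 2 - lam + 1) ∧
    L.g₃ = 4 / 27 * u ^ 6 * ((1 + lam) * (lam - 2) * (2 * lam - 1)) ∧
    (∃ w, w ∉ L.lattice ∧ 2 * w ∈ L.lattice ∧ L.weierstrassP w = e) ∧
    ∀ w, w ∉ L.lattice → 2 * w ∈ L.lattice →
      xu L u e w = 0 ∨ xu L u e w = 1 ∨ xu L u e w = lam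

/-- (HPD) a Legendre form with `v(lam) ≤ 1`.

PROOF. `v₁ = ω₁/2`, `v₂ = ω₂/2`, `v₃ = v₁ + v₂`: not in `L`, `2 v_i ∈ L` (`Sa_ROO`, `ta_ROO`): `℘(v_i)` are three different numbers with sum `0`, and `4X³ - g₂X - g₃ = 4 ∏ (X - ℘(v_i))`. Let `(w₁, w₂)` be a pair of two of the `v_i` with `v(℘(w₂) - ℘(w₁))` maximal and
`w₃` the third: `v(℘(w₃) - ℘(w₁)) ≤ v(℘(w₂) - ℘(w₁))`. `u` a square root of `℘(w₂) - ℘(w₁) ≠ 0`. Equation: `derivWeierstrassP_sq` divided by `4 u⁶`. -/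
def Sr_HPD : Prop :=
  ∀ (V : ValuationSubring ℂ) (L : PeriodPair), ∃ w₁ w₂ w₃ u : ℂ,
    (w₁ ∉ L.lattice ∧ 2 * w₁ ∈ L.lattice) ∧ (w₂ ∉ L.lattice ∧ 2 * w₂ ∈ L.lattice) ∧
    (w₃ ∉ L.lattice ∧ 2 * w₃ ∈ L.lattice) ∧ L.weierstrassP w₂ ≠ L.weierstrassP w₁ ∧
    u ^ 2 = L.weierstrassP w₂ - L.weierstrassP w₁ ∧
    Leg L u (L.weierstrassP w₁)
      ((L.weierstrassP w₃ - L.weierstrassP w₁) / (L.weierstrassP w₂ - L.weierstrassP w₁)) ∧
    V.valuation
      ((L.weierstrassP w₃ - L.weierstrassP w₁) / (L.weierstrassP w₂ - L.weierstrassP w₁)) ≤ 1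

/-- (XIL) the group isomorphism in Legendre form.

Uses LGF. PROOF. `L₁ = u L` (`Su_SCX`); `ta_SCP`: `℘_(L₁)(u z) = ℘(z)/u²`, `℘'_(L₁)(u z) = ℘'(z)/u³`, `g₂(L₁) = g₂/u⁴`, `g₃(L₁) = g₃/u⁶`. `tx_XIC` for `L₁` and `c = e/u²`: `ξ₁ : ℂ →+ (WS L₁ c).Point` with kernel `L₁`, surjective, `ξ₁(z) = (℘_(L₁) z - c, ℘'_(L₁) z/2)`. By LGF `3 c = -(1 + lam)`,
`3c² - g₂(L₁)/4 = lam`, `c³ - g₂(L₁) c/4 - g₃(L₁)/4 = 0`, so `WS L₁ c = WL lam`. `ξ z = ξ₁(u z)`. -/
def Sr_XIL : Prop :=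
  ∀ (L : PeriodPair) (u e lam : ℂ), Leg L u e lam →
    ∃ ξ : ℂ →+ (WL lam).Point, (∀ z, ξ z = 0 ↔ z ∈ L.lattice) ∧ Function.Surjective ξ ∧
      ∀ z ∉ L.lattice, ∃ h, ξ z = Affine.Point.some (xu L u e z) (yu L u z) h

/-- (TOR) points of order prime to 3 have integral coordinates (no hypothesis on the discriminant!).

Uses XIL. PROOF. `WL lam` has coefficients in `V` (`IntW`, `MU3/VCore.lean`). The lemmas `inE_iff`, `inK_add`, `inK_nat`, `v_tX_lt`, `v_tX_add`, `v_tX_nat`, `mem_of_nat_mul` of `VX.lean` do not use `GR.disc`: repeat their proofs with `int`, `two`, `some`, `zero` only.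
So if `z` is in the kernel of reduction and `n z ∈ L`, `v n = 1`, then `z ∈ L`. Otherwise `v(X z) ≤ 1`, and `Y² = X (X - 1)(X - lam)` gives `v(Y z) ≤ 1`. -/
def Sr_TOR : Prop :=
  ∀ (V : ValuationSubring ℂ) (L : PeriodPair) (u e lam : ℂ), V.valuation (2 : ℂ) = 1 →
    V.valuation lam ≤ 1 → Leg L u e lam → ∀ (n : ℕ), V.valuation (n : ℂ) = 1 →
    ∀ z ∉ L.lattice, n * z ∈ L.lattice →
      V.valuation (xu L u e z) ≤ 1 ∧ V.valuation (yu L u z) ≤ 1

/-- (TWO) translation by the point `w` with `X(w) = 0`.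

Uses LGF. PROOF. `ta_TW2` (`Sa_TW2`): `(℘(z+w) - e)(℘ z - e) = 3e² - g₂/4 = lam u⁴` (LGF), divide by `u⁴`. `z + w ∉ L` because `z - w ∉ L` and `2 w ∈ L`. -/
def Sr_TWO : Prop :=
  ∀ (L : PeriodPair) (u e lam w : ℂ), Leg L u e lam → w ∉ L.lattice → 2 * w ∈ L.lattice →
    L.weierstrassP w = e → ∀ z, z ∉ L.lattice → z + w ∉ L.lattice →
      xu L u e (z + w) * xu L u e z = lam

/-- (CMI) the key identity: complex multiplication by `α ≡ 1` modulo 2, at the point `w` of order two.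

Uses LGF. PROOF. `α L ⊆ L` (`emb x * (om emb y) = om emb (x y)`). `α w - w = 2 emb ⟨0, 1⟩ w = emb ⟨0,1⟩ (2 w) ∈ L`, so `℘(α w) = ℘(w) = e` (periodicity) and `α w ∉ L`. `b_CMX` with `a = α`, `z = w`: `α² e = e + Σ (℘(w + q) - ℘(q))`. Divide by `u²`: `℘(w+q) - ℘(q) = u² (X(w+q) - X(q))`, and
`3 e/u² = -(1 + lam)` (LGF). -/
def Sr_CMI : Prop :=
  ∀ (A B : ℤ) (b : Ideal (OO A B)) (L : PeriodPair) (om : ℂ), CQ A B → IsLI b L om →
    ∀ u e lam w : ℂ, Leg L u e lam → w ∉ L.lattice → 2 * w ∈ L.lattice → L.weierstrassP w = e →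
    ∀ R : Finset ℂ, IsReps L (al A B) R →
      (1 + lam) * (1 - al A B ^ 2) = 3 * ∑ q ∈ R, (xu L u e (w + q) - xu L u e q)

/-- (ALP) the multiplier `α`, 3 inert.

PROOF. `v 3 < 1`: `3 ∈ idl 3`, `OverI`. `v 2 = 1`: `2 ∉ idl 3` (`⟨2, 0⟩` is not a multiple of 3) and `v 2 ≤ 1`. Generally `v(emb x) = 1` for `x ∉ idl 3`, `v(emb x) ≤ 1` for all `x` (integral over `ℤ`; or `emb x` is a root of a monic polynomial with integer coefficients). `1 - α² = -4 w (1 + w)`, `w = ⟨0, 1⟩`, and `w`, `1 + w` are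
not in `idl 3`: `v(1 - α²) = 1`. `N = nm α = 1 + 2B - 4A` is positive (`= emb(alO') emb(alO)`, `|α|²`), odd, `≥ 3` (`B = 0`: `A ≤ -1`, `N = 1 - 4A`; `B = 1`: `4A < -1`, `A ≤ -1`, `N = 3 - 4A`), and prime to 3: `α ∉ idl 3`, `alO' ∉ idl 3`. -/
def Sr_ALP : Prop :=
  ∀ (A B : ℤ) (V : ValuationSubring ℂ), CaseI A B → OverI V (idl (A := A) (B := B) 3) →
    (∃ N : ℕ, CtxA A B V N) ∧ V.valuation (1 - al A B ^ 2) = 1

/-- (RED) SUPERSINGULAR REDUCTION.

Uses CMI, TOR, `Su_BAC`-type existence of representatives (`exists R, IsReps L α R`: `u_BAC` with `M = L`, or `MU3/B_REP.lean`). PROOF. `w` from LGF (`℘ w = e`). (CMI). For `q ∈ R`: `N q = emb(alO') (α q) ∈ L`, `v N = 1`, so `v(X q) ≤ 1` (TOR); `w + q ∉ L` (otherwise `α(w + q) ∈ L`, `α w ∈ L`, `w ∈ L`), `(2N : ℕ) (w + q) ∈ L`,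
`v(2N) = 1`: `v(X(w + q)) ≤ 1`. So `v((1 + lam)(1 - α²)) ≤ v 3`. The rest: `v(1+lam) < 1` as `v 3 < v(1 - α²)`; `lam = (1 + lam) - 1`, `lam - 1 = (1 + lam) - 2`. -/
def Sr_RED : Prop :=
  ∀ (A B : ℤ) (V : ValuationSubring ℂ) (N : ℕ), CtxA A B V N →
    ∀ (b : Ideal (OO A B)) (L : PeriodPair) (om : ℂ), IsLI b L om → ∀ u e lam : ℂ, Leg L u e lam →
    V.valuation lam ≤ 1 →
    V.valuation (1 + lam) * V.valuation (1 - al A B ^ 2) ≤ V.valuation (3 : ℂ) ∧
      V.valuation (1 + lam) < 1 ∧ V.valuation lam = 1 ∧ V.valuation (lam - 1) = 1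

/-- (GRL) good reduction in the sense of `VX.lean`.

Uses XIL. PROOF. `lam = (1 + lam) - 1`, `lam - 1 = (1+lam) - 2` are units. `(WL lam).Δ = 16 lam² (lam - 1)²` (`ring` after unfolding `b₂, b₄, b₆, b₈`). -/
def Sr_GRL : Prop :=
  ∀ (V : ValuationSubring ℂ) (L : PeriodPair) (u e lam : ℂ), V.valuation (2 : ℂ) = 1 →
    V.valuation (1 + lam) < 1 → Leg L u e lam →
    ∃ ξ : ℂ →+ (WL lam).Point, GR V (WL lam) L (xu L u e) (yu L u) ξ ∧ Function.Surjective ξ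

/-! ## Uniqueness of the curve with complex multiplication -/

/-- (CHT) addition formulas in Legendre form.

Uses LGF. PROOF. `b_ADD`, `b_DUP` (`℘ = u² X + e`, `℘' = 2 u³ Y`, `g₂` from LGF), or from `XIL` and the formulas for the addition of points. For the duplication: `6℘² - g₂/2 = 2 u⁴ (3 X² - 2 (1+lam) X + lam)`. -/
def Sr_CHT : Prop :=
  ∀ (L : PeriodPair) (u e lam : ℂ), Leg L u e lam →
    (∀ z w, z ∉ L.lattice → w ∉ L.lattice → z + w ∉ L.lattice → z - w ∉ L.lattice →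
      xu L u e z - xu L u e w ≠ 0 ∧
      xu L u e (z + w) = ((yu L u z - yu L u w) / (xu L u e z - xu L u e w)) ^ 2 + (1 + lam) -
        xu L u e z - xu L u e w ∧
      yu L u (z + w) = -(yu L u z + (yu L u z - yu L u w) / (xu L u e z - xu L u e w) *
        (xu L u e (z + w) - xu L u e z))) ∧
    ∀ z, 2 * z ∉ L.lattice → yu L u z ≠ 0 ∧
      xu L u e (2 * z) = ((3 * xu L u e z ^ 2 - 2 * (1 + lam) * xu L u e z + lam) /
        (2 * yu L u z)) ^ 2 + (1 + lam) - 2 * xu L u e z ∧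
      yu L u (2 * z) = -(yu L u z + (3 * xu L u e z ^ 2 - 2 * (1 + lam) * xu L u e z + lam) /
        (2 * yu L u z) * (xu L u e (2 * z) - xu L u e z))

/-- (CLO) torsion points of close curves are close. `δ = lam' - lam`.

Uses GRL, CHT. PROOF. If `δ = 0` see below (the same proof, with `v δ = 0`). `X, Y` on `L`, `X', Y'` on `L'`, both have good reduction (GRL; `v(1 + lam') < 1` too). For `0 < k < n`: `k q, k q'` are not in the kernel of reduction (`mem_of_nat_mul`: `n (k q) ∈ L`), `2 q` also not (`n ≥ 3` is odd), so `v(Y q) = v(Y' q') = 1`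
(`v 2 = 1` and `v_DX`-type lemma of `VX.lean`). (1) `f = X'(q')`, `Y'(q')² - f(f-1)(f-lam) = -δ f (f - 1)`. Choose `y` with `y² = f (f-1)(f-lam)`; `(Y' - y)(Y' + y) ∈ δV`, the sum `2Y'` of the two factors is a unit, so one factor is a unit: replace `y` by `-y` if necessary, then
`v(Y'(q') - y) ≤ v δ`. `(f, y)` is a point of `WL lam` (nonsingular: every point on a curve with `Δ ≠ 0`), so by surjectivity of `ξ` there is `z ∉ L` with `X z = f`, `Y z = y`. (2) `v(X z - X q) < 1`, so (`v_X_sub`) `z - q` or `z + q` is in the kernel of reduction; if `z + q` is, then `v(Y z + Y q) < 1`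
(`near_lt` for `z = -q + (z + q)`, `Y(-q) = -Y q`), but `v(Y z - Y q) < 1` and `v(2 Y q) = 1`: contradiction. So `s := z - q` is in the kernel. (3) Claim, for `1 ≤ k ≤ n - 1`: `v(X(k z) - X'(k q')) ≤ v δ` and `v(Y(k z) - Y'(k q')) ≤ v δ`. `k z = k q + k s` is not in the kernel. `k = 1`: (1). `k = 2`: duplication (CHT), the
denominators `Y z`, `Y' q'` are units, all numbers are in `V`, and differences of `lam`, `X`, `Y` are in `δV`. `k → k + 1`, `2 ≤ k ≤ n - 2`: addition (CHT) of `k z` and `z`; `X(k z) - X z` is a unit (`v_X_sub`: `(k ± 1) z` and so on are not in the kernel), the same for `k q'`, `q'`. (4) `k = n - 1`: `(n-1) q' = n q' - q'`, so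
`X'((n-1)q') = X'(q') = X z`. `(n - 1) z = -z + n z`, `n z = n q + n s`, `n q ∈ L`, so `X((n-1) z) = X(-z + n s)`. If `s ∈ L` then `X z = X q`, done. Otherwise `n s ∉ L` (`mem_of_nat_mul`) and `v(tX(n s)) = v(tX s) =: r` (`v_tX_nat`), `0 < r < 1`. (`near`) `v(X(-z + n s) - X(-z) - 2 Y(-z) tX(n s)) ≤ r²`, `v(2 Y(-z)) = 1`, so
`v(X((n-1)z) - X z) = r`. By (3) `r ≤ v δ`. (`near`) for `z = q + s`: `v(X z - X q) ≤ r ≤ v δ`, and `X z = X'(q')`. -/
def Sr_CLO : Prop :=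
  ∀ (V : ValuationSubring ℂ) (L L' : PeriodPair) (u e lam u' e' lam' : ℂ),
    V.valuation (2 : ℂ) = 1 → Leg L u e lam → Leg L' u' e' lam' → V.valuation (1 + lam) < 1 →
    V.valuation (lam' - lam) < 1 → ∀ (n : ℕ), Odd n → 1 < n → V.valuation (n : ℂ) = 1 →
    ∀ q q' : ℂ, (∀ k : ℕ, 0 < k → k < n → k * q ∉ L.lattice ∧ k * q' ∉ L'.lattice) →
      n * q ∈ L.lattice → n * q' ∈ L'.lattice →
      V.valuation (xu L' u' e' q' - xu L u e q) < 1 →
      V.valuation (yu L' u' q' - yu L u q) < 1 →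
      V.valuation (xu L' u' e' q' - xu L u e q) ≤ V.valuation (lam' - lam)

/-- (UNQ) an automorphism in the inertia group fixes `lam`. (Deformations of a supersingular curve with complex multiplication.)

Uses LGF, RED, TOR, TWO, CMI, CLO, `Su_CJE`, `Su_PHI`, `Su_CMC`, `Su_TSN` (block U). PROOF. `L'` with `IsCj σ L L'` (`u_CJE`), `Φ` with `IsPhi σ L L' Φ` (`u_PHI`); `u' = σ u`, `e' = σ e`, `lam' = σ lam`: `Leg L' u' e' lam'` (for `z' ∉ L'` choose `z` with `Φ z ≡ z'` (`surj`), `z ∉ L` (`mem`), apply `σ` to `Leg.eq`; periodicity), and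
`xu L' u' e' (Φ z) = σ (xu L u e z)`, `yu L' u' (Φ z) = σ (yu L u z)`. Let `δ = lam' - lam`, suppose `δ ≠ 0`. `w` (LGF), `R` representatives of `α`. `σ α = α` (`FixK`). Let `q ∈ R`, `n` its exact order in `ℂ/L`: `n ∣ N` (`N q = emb(alO') α q ∈ L`), so `n` is odd, `v n = 1`, `1 < n`. `k Φ q ≡ Φ(k q)` (`Φ` is additive modulo `L'`),
so `q' = Φ q` has the exact order `n`. `v(X'(q') - X q) < 1`, `v(Y'(q') - Y q) < 1` (hypothesis for `q`). (CLO): `v(σ(X q) - X q) ≤ v δ`. (TWO): `X(w + q) X(q) = lam`; both factors are in `V` (TOR) and `v lam = 1` (RED), so both are units, and `σ(X(w+q)) = lam'/σ(X q)`, `X(w+q) = lam/X q`: `v(σ(X(w+q)) - X(w+q)) ≤ v δ`.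
Apply `σ` to (CMI) and subtract: `δ (1 - α²) = 3 Σ_(q ∈ R) ((σ X(w+q) - X(w+q)) - (σ X q - X q))`, so `v δ v(1 - α²) ≤ v 3 v δ`: contradiction to `CtxA.va`. -/
def Sr_UNQ : Prop :=
  ∀ (A B : ℤ) (V : ValuationSubring ℂ) (N : ℕ), CtxA A B V N →
    ∀ (b : Ideal (OO A B)) (L : PeriodPair) (om : ℂ), IsLI b L om → ∀ u e lam : ℂ, Leg L u e lam →
    V.valuation lam ≤ 1 → ∀ σ : ℂ ≃+* ℂ, FixK A B σ → V.valuation (σ lam - lam) < 1 →
    (∀ z ∉ L.lattice, N * z ∈ L.lattice → V.valuation (σ (xu L u e z) - xu L u e z) < 1 ∧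
      V.valuation (σ (yu L u z) - yu L u z) < 1) →
    σ lam = lam

/-- (EQL) then `σ` fixes all invariants of a normalised lattice.

Uses LGF. PROOF. `P = lam² - lam + 1`, `Q = (1+lam)(lam-2)(2lam-1)`. `g₂ = -18 g₃`, not both zero (`b_DSC`), so both are not zero, so `P, Q ≠ 0`, `(4/3) u⁴ P = -18 (4/27) u⁶ Q`, `u² = -P/(2Q)`. So `σ(u²) = u²`; `e = -(1+lam)u²/3`, `g₂ = (4/3)(u²)² P`, `g₃`, `kap = (12 g₂ - 1)/1728` are rational functions of `lam`, `u²` (rational numbers are fixed by `σ`). -/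
def Sr_EQL : Prop :=
  ∀ (L : PeriodPair) (u e lam : ℂ), Leg L u e lam → L.g₂ = -18 * L.g₃ →
    ∀ σ : ℂ ≃+* ℂ, σ lam = lam →
      σ (u ^ 2) = u ^ 2 ∧ σ e = e ∧ σ L.g₂ = L.g₂ ∧ σ L.g₃ = L.g₃ ∧ σ (kap L) = kap L

/-- (FXL) and it fixes the `x`-coordinates of the points of order prime to 3.

Uses UNQ, EQL, RED, GRL, TOR, block U. PROOF. (UNQ), (EQL): `IsCj σ L L`, `Φ` with `IsPhi σ L L Φ` (`u_PHI`). Let `z ∉ L`, `F z ∈ L`, `v F = 1`. `Φ z ∉ L`, `F Φ z ∈ L` (`u_TSN`). `xu L u e (Φ z) = (σ(℘ z) - σ e)/σ(u²) = σ(xu L u e z)`, so `v(X(Φ z) - X z) < 1`. `z, Φ z` are not in the kernel of reduction; by `v_X_sub` `Φ z + z` or `Φ z - z` is; it is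
killed by `F`, so it is in `L` (`mem_of_nat_mul`). So `℘(Φ z) = ℘(z)`, i.e. `σ(℘ z) = ℘ z`, `xn L z = ℘ z - 1/12`. -/
def Sr_FXL : Prop :=
  ∀ (A B : ℤ) (V : ValuationSubring ℂ) (N : ℕ), CtxA A B V N →
    ∀ (b : Ideal (OO A B)) (L : PeriodPair) (om : ℂ), IsNL b L om → ∀ u e lam : ℂ, Leg L u e lam →
    V.valuation lam ≤ 1 → ∀ F : ℕ, N ∣ F → V.valuation (F : ℂ) = 1 → ∀ σ : ℂ ≃+* ℂ, FixK A B σ →
    V.valuation (σ lam - lam) < 1 →
    (∀ z ∉ L.lattice, F * z ∈ L.lattice → V.valuation (σ (xu L u e z) - xu L u e z) < 1 ∧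
      V.valuation (σ (yu L u z) - yu L u z) < 1) →
    σ (kap L) = kap L ∧ ∀ z ∉ L.lattice, F * z ∈ L.lattice → σ (xn L z) = xn L z

/-! ## Fields -/

/-- (LIF) lifting of elements of the inertia group.

MODEL: the lemmas `int_le`, `exists_prime`, `le_ord` and the computation `hin` in `Pool/Agent/MU3/E_RAM.lean` (namespace `Pool.Agent.MU3E.RAM`) can be used. PROOF. `K = kk A B`, `E` = the normal closure of `F₁ ⊔ M` in `ℂ` over `K` (`IntermediateField.normalClosure`): finite and Galois. `σ` maps `F₁` to itself (normal) and `K` is fixed (`FixK`: `kk A B`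
is generated by `wC`): `σ₁ ∈ Gal(F₁/K)`, and `τ₀ ∈ Gal(E/K)` with restriction `σ₁` (`AlgEquiv.restrictNormalHom_surjective`). `R = 𝓞 E`, `R₁ = 𝓞 F₁`, `Q = {x ∈ R : v x < 1}`, `q = Q ∩ R₁` prime ideals. `σ₁ q = q`: `x ∈ q` implies `σ₁ x = x + (σ₁ x - x)`, `v < 1`; `σ₁` has finite order. So `τ₀ Q` and `Q` lie
over the same prime `q`; `G = Gal(E/F₁)` acts on `R` with invariants `R₁` (`Algebra.IsInvariant`): `g ∈ G` with `g τ₀ Q = Q` (`Algebra.IsInvariant.exists_smul_of_under_eq`). `τ₁ = g τ₀` induces an automorphism of `R/Q` over `R₁/q` (on `R₁/q` it is `σ₁`, the identity since `σ₁ x - x ∈ q`). The stabiliser of `Q` in `G` maps onto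
the automorphisms of `R/Q` over `R₁/q` (`Ideal.Quotient.stabilizerHom_surjective`): `h`. `τ = h⁻¹ τ₁`: `τ x - x ∈ Q` for `x ∈ R`, restriction `σ₁`. For `y ∈ E`, `v y ≤ 1`: `y = b/s`, `b, s ∈ R`, `v s = 1` (`le_ord` and `exists_primeCompl_mul_eq_of_integer`, see `hin`), so `v(τ y - y) < 1`. If `v` is trivial on `E` (`Q = 0`) use `b/s` with any `s ≠ 0`.
Extend `τ` to `ℂ` (`u_AUE`, for `E` as a subfield algebraic over `ℚ`). -/
def Sr_LIF : Prop :=
  ∀ (A B : ℤ) (V : ValuationSubring ℂ), CQ A B → V.valuation (3 : ℂ) < 1 →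
    ∀ (F₁ M : IntermediateField (kk A B) ℂ), FiniteDimensional (kk A B) F₁ →
    IsGalois (kk A B) F₁ → FiniteDimensional (kk A B) M → ∀ σ : ℂ ≃+* ℂ, FixK A B σ →
    (∀ y ∈ F₁, V.valuation y ≤ 1 → V.valuation (σ y - y) < 1) →
    ∃ σ' : ℂ ≃+* ℂ, FixK A B σ' ∧ (∀ y ∈ F₁, σ' y = σ y) ∧
      ∀ y ∈ M, V.valuation y ≤ 1 → V.valuation (σ' y - y) < 1

/-- (MFD) a finite extension which contains all the coordinates.

PROOF. `lam, u², e ∈ RF (idl 2)`-type facts are hypotheses. `E[F]/L` is finite (`F z ∈ L`; for instance `b_NUM`-type lemma, or `z ≡ (i ω₁ + j ω₂)/F`, `0 ≤ i, j < F`). `RF (idl (2 F))` is finite dimensional and contains `xn L z` for `F z ∈ L` (`Tor (idl (2F)) L z`) and `kap L`; `yy L z ^ 2 = x³ + x²/4 - 36 κ x - κ`, `x = xn L z` (`derivWeierstrassP_sq`, `g₂ = (1 + 1728κ)/12`, `g₃ = -g₂/18`)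
so `yy L z` is algebraic over `k`. `M = RF(idl (2F)) ⊔ k(u, yy L z : z ∈ a finite set of representatives)` (`IntermediateField.adjoin` of a finite set of algebraic elements is finite dimensional: `finiteDimensional_adjoin`), `xu = (xn + 1/12 - e)/u²`, `yu = yy/u³`. -/
def Sr_MFD : Prop :=
  ∀ (A B : ℤ), CQ A B → (∀ m : Ideal (OO A B), m ≠ ⊥ → FiniteDimensional (kk A B) (RF m)) →
    ∀ (b : Ideal (OO A B)) (L : PeriodPair) (om : ℂ), IsNL b L om → ∀ u e lam : ℂ, u ≠ 0 →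
    u ^ 2 ∈ RF (idl (A := A) (B := B) 2) → e ∈ RF (idl (A := A) (B := B) 2) →
    lam ∈ RF (idl (A := A) (B := B) 2) → ∀ F : ℕ, F ≠ 0 →
    ∃ M : IntermediateField (kk A B) ℂ, FiniteDimensional (kk A B) M ∧ lam ∈ M ∧
      ∀ z ∉ L.lattice, F * z ∈ L.lattice → xu L u e z ∈ M ∧ yu L u z ∈ M

/-- (UNR) inertia groups are trivial; every `V` with `CtxA`.

Uses HPD, RED, TOR, LIF, MFD, FXL. PROOF. `RF (idl f)` is generated over `k` by the `kap L` and `xn L z`, `z ∉ L`, `Tor (idl f) L z`, i.e. `f z ∈ L`. `σ` is trivial on `k`. So let `L` be a normalised lattice; we show that `σ` fixes `kap L` and `xn L z`, `f z ∈ L`, `z ∉ L`. (HPD): `u`, `e = ℘(w₁)`, `lam`; `℘(w_i) = xn L w_i + 1/12 ∈ RF (idl 2)`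
(`Tor (idl 2) L w_i`: `emb (2 y) w_i = emb y (2 w_i) ∈ L`), so `u², e, lam ∈ RF (idl 2)`. `F = N f`, `v F = 1` (`v f = 1`: `3 ∤ f` and Bezout, `v 3 < 1`). (MFD): `M`. (LIF) with `F₁ = RF (idl f)` (`gal`, `fin`): `σ'`. `lam ∈ V`, and `X z, Y z ∈ V` for `F z ∈ L` (TOR), so the hypotheses of (FXL) hold for `σ'`. So `σ'` fixes `kap L` and the `xn L z`, `F z ∈ L`,
in particular those with `f z ∈ L`; they are in `RF (idl f)`, where `σ' = σ`. -/
def Sr_UNR : Prop :=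
  ∀ (A B : ℤ) (V : ValuationSubring ℂ) (N : ℕ), CtxA A B V N → TorX A B →
    ∀ f : ℕ, f ≠ 0 → ¬ 3 ∣ f → ∀ σ : ℂ ≃+* ℂ, FixK A B σ →
      (∀ y ∈ RF (idl (A := A) (B := B) f), V.valuation y ≤ 1 → V.valuation (σ y - y) < 1) →
      ∀ y ∈ RF (idl (A := A) (B := B) f), σ y = y

/-- (RAM) a finite Galois extension with trivial inertia group at `V` is unramified; `ϖ` a uniformiser of `P`.

MODEL: `Pool/Agent/MU3/E_RAM.lean` (there `P` is principal), or `Pool/Agent/MUX/E_RAM.lean` (statement `Sxe_RAM` of `StXE.lean`, its proof in words). In `RAM.unram` replace the hypothesis `hspan` by: `ϖ ∈ w ∩ 𝓞 k` and `ϖ ∉ (w ∩ 𝓞 k)²`, where `w ∩ 𝓞 k = {emb x : x ∈ P}` (`𝓞 k = emb O`: `Sxe_RNG`, field `int`), i.e. `ϖ` has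
valuation `exp (-1)` for the height one prime `w ∩ 𝓞 k`; the conclusion is `w.valuation F ϖ = exp (-1)`, then `pow_unif`. -/
def Sr_RAM : Prop :=
  ∀ (A B : ℤ) (V : ValuationSubring ℂ) (P : Ideal (OO A B)) (ϖ : OO A B), CQ A B → P.IsPrime →
    P ≠ ⊥ → OverI V P → ϖ ∈ P → ϖ ∉ P ^ 2 →
    ∀ (F : IntermediateField (kk A B) ℂ) [FiniteDimensional (kk A B) F] [IsGalois (kk A B) F],
      (∀ σ : F ≃ₐ[kk A B] F, (∀ x : F, V.valuation (x : ℂ) ≤ 1 →
        V.valuation ((σ x : ℂ) - x) < 1) → σ = 1) →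
      ∀ y ∈ F, y ≠ 0 → ∃ k : ℤ, V.valuation y = V.valuation (emb ϖ) ^ k

/-- (VAL3) the values of `RF (f)` at `V`, 3 inert.

Uses ALP, UNR, RAM. PROOF. `P = idl 3` is prime (`OverI`: it is the contraction of the maximal ideal of `V`), `3 ∈ P`, `3 ∉ P²` (`9 ∤ 3`). An automorphism `σ` of `F = RF (idl f)` extends to `ℂ` (`TorX.ext` for `D = F` restricted to `ℚ`, or `u_AUE`). (UNR), (RAM). -/
def Sr_VAL3 : Prop :=
  ∀ (A B : ℤ) (V : ValuationSubring ℂ), CaseI A B → OverI V (idl (A := A) (B := B) 3) → TorX A B →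
    ∀ f : ℕ, f ≠ 0 → ¬ 3 ∣ f → ∀ y ∈ RF (idl (A := A) (B := B) f), y ≠ 0 →
      ∃ k : ℤ, V.valuation y = V.valuation (3 : ℂ) ^ k

/-! ## Points of order a power of 3 -/

/-- (PM3) the formula `X(z+w) X(z-w) (X z - X w)² = (X z X w - lam)²`, and duplication.

Uses CHT, LGF. PROOF. CHT for `z, w` and `z, -w` (`Y` is odd): with `a = X z`, `b = X w`: `X(z ± w) = ((Y z ∓ Y w)/(a - b))² + (1 + lam) - a - b`; multiply, insert `Y² = X (X-1)(X-lam)` (`ring`/`field_simp`). Duplication: `(3a² - 2(1+lam)a + lam)² + 4 (a(a-1)(a-lam)) ((1+lam) - 2a) = (a² - lam)²`. -/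
def Sr_PM3 : Prop :=
  ∀ (L : PeriodPair) (u e lam : ℂ), Leg L u e lam →
    (∀ z w, z ∉ L.lattice → w ∉ L.lattice → z + w ∉ L.lattice → z - w ∉ L.lattice →
      xu L u e (z + w) * xu L u e (z - w) * (xu L u e z - xu L u e w) ^ 2 =
        (xu L u e z * xu L u e w - lam) ^ 2) ∧
    ∀ z, 2 * z ∉ L.lattice →
      xu L u e (2 * z) * (4 * (xu L u e z * (xu L u e z - 1) * (xu L u e z - lam))) =
        (xu L u e z ^ 2 - lam) ^ 2

/-- (TR3) multiplication by 3. `ψ(x) = 3x⁴ - 4(1+lam)x³ + 6lam x² - lam²`.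

Uses PM3, LGF. PROOF. Let `x = X z`, `d = 4x(x-1)(x-lam) = 4 Y(z)²`. If `2 z ∉ L`: `d ≠ 0`, `X(2z) = (x²-lam)²/d`, `X(2z) - x = -ψ(x)/d`. (1) `3 z ∈ L`: `2 z ≡ -z`, `X(2z) = x`, `ψ(x) = 0` (`2 z ∉ L` as `z ∉ L`). (2) `3 z ∉ L`, `2 z ∉ L`, `z ∉ L`: (PM3) for `2z, z`: `X(3z) x (X(2z) - x)² = (X(2z) x - lam)²`, and
`(x²-lam)² x - lam d = x (x⁴ - 6lam x² + 4lam(1+lam)x - 3lam²)`. Multiply by `d²`; if `x ≠ 0` cancel `x`; `x = 0` means `z ≡ w`, `2 z ∈ L` (`b_NEQ`). (3) `2 z ∈ L`: `3 z ≡ z`, `X(3z) = x`, `x ∈ {0, 1, lam}` (LGF): check the three values (`ring`). -/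
def Sr_TR3 : Prop :=
  ∀ (L : PeriodPair) (u e lam : ℂ), Leg L u e lam → ∀ z ∉ L.lattice,
    (3 * z ∈ L.lattice → 3 * xu L u e z ^ 4 - 4 * (1 + lam) * xu L u e z ^ 3 +
      6 * lam * xu L u e z ^ 2 - lam ^ 2 = 0) ∧
    (3 * z ∉ L.lattice → xu L u e (3 * z) * (3 * xu L u e z ^ 4 - 4 * (1 + lam) * xu L u e z ^ 3 +
        6 * lam * xu L u e z ^ 2 - lam ^ 2) ^ 2 =
      xu L u e z * (xu L u e z ^ 4 - 6 * lam * xu L u e z ^ 2 + 4 * lam * (1 + lam) * xu L u e z -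
        3 * lam ^ 2) ^ 2)

/-- (TP3) valuations of the points of order a power of 3 (height two).

Uses TR3. PROOF. `θ = v 3 < 1`, `v lam = 1`, `v(1+lam) ≤ θ`. `j = 0`: `x = X z`. If `v x ≤ 1` all terms of `ψ(x) = 0` except `lam²` have valuation `≤ θ < 1`: contradiction. So `a = v x > 1`; `v(3x⁴) = θa⁴`, the second and third term have valuation `≤ θa³ < θa⁴`, so `θ a⁴ = v(lam²) = 1`. Induction: `z` of exact order `3^(j+1)`, `j ≥ 1`, so `3 z ∉ L` has exact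
order `3^j`, `b = v(X(3z)) > 1`, `b^(4·9^(j-1)) θ = 1`, so `b⁴ θ ≤ 1`. `a = v x`. If `a ≤ 1`: `v(ψ(x)) = 1` and the right side has valuation `≤ 1`: `b ≤ 1`, contradiction. So `a > 1`, the right side has valuation `a⁹`. If `θa⁴ ≥ 1`: `v(ψ(x)) ≤ θa⁴`, `b θ² a⁸ ≥ a⁹`, `b ≥ a θ^(-2)`, `b⁴ θ ≥ a⁴ θ θ^(-8) ≥ θ^(-8) > 1`, contradiction. So `θa⁴ < 1`,
`v(ψ(x)) = 1`, `b = a⁹`. -/
def Sr_TP3 : Prop :=
  ∀ (V : ValuationSubring ℂ) (L : PeriodPair) (u e lam : ℂ), V.valuation (3 : ℂ) < 1 →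
    V.valuation (2 : ℂ) = 1 → GoodN V L u e lam →
    ∀ (j : ℕ) (z : ℂ), 3 ^ (j + 1) * z ∈ L.lattice → 3 ^ j * z ∉ L.lattice →
      1 < V.valuation (xu L u e z) ∧
        V.valuation (xu L u e z) ^ (4 * 9 ^ j) * V.valuation (3 : ℂ) = 1

/-! ## Isogenies -/

/-- (SCL) the scaled lattice.

Uses XIL, GRL, LGF. PROOF. `L₁ = u L` (`u_SCX`), `ta_SCP`. `GR` for `L₁`, `X₁ = ℘ - e/u²`, `Y₁ = ℘'/2`, `ξ₁(z) = ξ(z/u)`: `X₁(z) = X(z/u)`. -/
def Sr_SCL : Prop :=
  ∀ (V : ValuationSubring ℂ) (L : PeriodPair) (u e lam : ℂ), V.valuation (2 : ℂ) = 1 →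
    V.valuation (1 + lam) < 1 → Leg L u e lam →
    ∃ L₁ : PeriodPair, (∀ z, z ∈ L.lattice ↔ u * z ∈ L₁.lattice) ∧
      (∀ z, L₁.weierstrassP (u * z) = L.weierstrassP z / u ^ 2) ∧
      (∀ z, L₁.derivWeierstrassP (u * z) = L.derivWeierstrassP z / u ^ 3) ∧
      ∃ (W : WeierstrassCurve.Affine ℂ) (ξ : ℂ →+ W.Point),
        GR V W L₁ (fun z => L₁.weierstrassP z - e / u ^ 2) (fun z => L₁.derivWeierstrassP z / 2) ξ

/-- (ISO) integral formulas for an isogeny of odd degree prime to 3 between lattices in good Legendre form. `ν = mu u'/u` is the multiplier `u L → u' M`.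

Uses SCL, TOR, LGF, `Su_ISO`, `Su_DER`, `Su_PFI` (block U), `Pool.Agent.MUXV.Sx_MUN` (`MUX/R_MUN.lean`). PROOF. `v ν = 1`: `Sx_MUN` for the lattices `u L`, `u' M` (SCL) and the multiplier `ν` (`ν z ∈ u'M` iff `mu (z/u) ∈ M`, so `n (z/u) ∈ L`, `n z ∈ u L`). `u_ISO` gives `A₀` monic of degree `#R + 1`, `IsoP` with `B₀ = C(mu²) ∏ (X - ℘ q)`. Substitute `℘ = u² X + e`:
`A = u^(-2(#R+1)) (A₀(u² X + e) - e' B₀(u² X + e))`, `B = C(ν²) ∏_(q ∈ R) (X - X_q)`; `B₀(u²X + e) = mu² u^(2#R) ∏ (X - X_q)`, so `X_M(mu z) B(X z) = A(X z)`. `A` is monic of degree `#R + 1` (`deg B₀ < deg A₀`). `X_q ∈ V` (`n q ∈ L`, TOR), so `B ∈ V[X]`. Let `w` be a point of order two of `L` (LGF; `mu w ∉ M`: otherwise `n w ∈ L`, `n` odd, `w ∈ L`).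
(PFI) for all `z`: `A(x) - X_M(mu w) B(x) = (x - X w) ∏_(q ∈ R) (x - X(w + q))` for infinitely many `x = X z`, so as polynomials; `w + q ∉ L` is killed by `2 n`, `X(w + q) ∈ V`; `mu w` is killed by 2, `X_M(mu w) ∈ V`. So `A ∈ V[X]`. Derivative: `u_DER`, or differentiate `X_M(mu z) B(X z) = A(X z)` (`(d/dz) X = 2 Y/.. `: `℘' = 2u³Y`): `ν Y_M(mu z) B(x)² = (A'B - AB')(x) Y(z)`. -/
def Sr_ISO : Prop :=
  ∀ (V : ValuationSubring ℂ) (L M : PeriodPair) (u e lam u' e' lam' mu : ℂ) (n : ℕ),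
    V.valuation (2 : ℂ) = 1 → Leg L u e lam → Leg M u' e' lam' → V.valuation (1 + lam) < 1 →
    V.valuation (1 + lam') < 1 → mu ≠ 0 → Isg L M mu → Odd n → V.valuation (n : ℂ) = 1 →
    (∀ z, mu * z ∈ M.lattice → n * z ∈ L.lattice) → ∀ R : Finset ℂ, IsRpM L M mu R →
    V.valuation (mu * u' / u) = 1 ∧ (∀ q ∈ R, V.valuation (xu L u e q) ≤ 1) ∧
    ∃ A : ℂ[X], A.Monic ∧ A.natDegree = R.card + 1 ∧ (∀ i, V.valuation (A.coeff i) ≤ 1) ∧
      ∀ z, mu * z ∉ M.lattice →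
        xu M u' e' (mu * z) *
            (C ((mu * u' / u) ^ 2) * ∏ q ∈ R, (X - C (xu L u e q))).eval (xu L u e z) =
          A.eval (xu L u e z) ∧
        mu * u' / u * yu M u' (mu * z) *
            (C ((mu * u' / u) ^ 2) * ∏ q ∈ R, (X - C (xu L u e q))).eval (xu L u e z) ^ 2 =
          (derivative A * (C ((mu * u' / u) ^ 2) * ∏ q ∈ R, (X - C (xu L u e q))) -
            A * derivative (C ((mu * u' / u) ^ 2) * ∏ q ∈ R, (X - C (xu L u e q)))).eval
              (xu L u e z) * yu L u z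

/-! ## The ramified case: the multiplier -/

/-- (ALR) the multiplier `α`, 3 ramified: `3 ∣ D`, `P` the prime over 3, `P² = (3)`.

PROOF. `v 3 < 1`, `v 2 = 1`: as in ALP (`P ∩ ℤ = 3ℤ`). `1 - α² = -4 w (1 + w)`. `nm w = -A`, `nm (1 + w) = 1 + B - A`. `B = 0`: `3 ∣ A`, `9 ∤ A` (squarefree): `w ∈ P` (`nm w ∈ P`, `w star w`, `star P = P`), `1 + w ∉ P`, `v(w)² = v(w²) = v(A)`, `A = 3 A'` with `3 ∤ A'`: `v(w)² = v 3`. `B = 1`: `D = 1 + 4A ≡ 0` modulo 3, `A ≡ 2`: `nm w = -A` is prime to 3, `1 + w ∈ P`: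
`(1+w)² = 1 + 2w + w² = (1 + A) + 3w`, `nm(1+w) = 2 - A`, `(1+w)(1 + star w) = 2 - A`, `4(2 - A) = 9 - D`, `9 ∤ D` (squarefree), so `2 - A = 3 c`, `3 ∤ c`, and `v(1+w) = v(1 + star w)` because `(1 + star w) = (1+w) + (1 - 2w)`.. precisely `(1+w)² = 3 (unit)`: `(1+w)²= (1+A) + 3w`, `3 ∣ 1 + A`, `= 3((1+A)/3 + w)` and `nm((1+w)²) = (3c)²`, so
`nm((1+A)/3 + w) = c²`, prime to 3: a unit at `V`. In both cases `v(1 - α²)² = v 3 > (v 3)²`, so `v 3 < v(1 - α²)`. `N = nm α = 1 + 2B - 4A` is odd, `≥ 3` (`A ≤ -1`), prime to 3 (`B = 0`: `≡ 1`; `B = 1`: `3 - 4A ≡ -8 ≡ 1`). `D = -3` is `B = 1`, `A = -1`: allowed here. -/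
def Sr_ALR : Prop :=
  ∀ (A B : ℤ) (V : ValuationSubring ℂ) (P : Ideal (OO A B)), CQ A B → (3 : ℤ) ∣ B ^ 2 + 4 * A →
    OverI V P → ((3 : ℕ) : OO A B) ∈ P →
    (∃ N : ℕ, CtxA A B V N) ∧ V.valuation (1 - al A B ^ 2) ^ 2 = V.valuation (3 : ℂ)

end

end Pool.Agent.NSR


end

section

/-!
# Module MU3A_TW2: translation by a point of order two
-/

set_option autoImplicit false

namespace Pool.Agent.MU3A

theorem ta_TW2 (h1 : MU3B.St_ADD) (h2 : MU3B.St_ZER) (h3 : MU3B.St_NEQ) : Sa_TW2 := by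
  intro L v hv hv2
  have hd : L.derivWeierstrassP v = 0 := (h2 L v hv).2 hv2
  have he : 4 * L.weierstrassP v ^ 3 - L.g₂ * L.weierstrassP v - L.g₃ = 0 := by
    have := L.derivWeierstrassP_sq v hv
    rw [hd] at this
    linear_combination -this
  refine ⟨he, ?_⟩
  intro z hz hzv
  have hzv' : z - v ∉ L.lattice := by
    intro h
    apply hzv
    have : z + v = (z - v) + 2 * v := by ring
    rw [this]
    exact add_mem h hv2
  have hne : L.weierstrassP z - L.weierstrassP v ≠ 0 := by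
    intro h
    rcases h3 L v z hv hz (sub_eq_zero.1 h) with h | h
    · exact hzv' h
    · exact hzv h
  have hadd := (h1 L v z hv hz hzv hzv').1
  have hsq := L.derivWeierstrassP_sq z hz
  rw [hd, sub_zero, div_pow, hsq] at hadd
  have h4 : L.weierstrassP (z + v) =
      (4 * L.weierstrassP z ^ 3 - L.g₂ * L.weierstrassP z - L.g₃) /
        (2 * (L.weierstrassP z - L.weierstrassP v)) ^ 2 - L.weierstrassP z - L.weierstrassP v := by
    linear_combination hadd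
  rw [h4]
  field_simp
  linear_combination 4 * he

end Pool.Agent.MU3A


end

section

/-!
# The relative Iwasawa theorem for the layers of the cyclotomic `ℤ_p`-extension
-/

open NumberField IsDedekindDomain

namespace Pool.Agent.RI

namespace MAINC

/-- The subfield of the elements of `M` that a property preserving the field operations holds for,
as a subfield of `ℂ`. -/
def realSub {M : IntermediateField ℚ ℂ} (φ : M →+* ℂ) : IntermediateField ℚ ℂ where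
  carrier := {z | ∃ h : z ∈ M, (starRingEnd ℂ) (φ ⟨z, h⟩) = φ ⟨z, h⟩}
  mul_mem' := by
    rintro a b ⟨ha, ha'⟩ ⟨hb, hb'⟩
    refine ⟨mul_mem ha hb, ?_⟩
    have : (⟨a * b, mul_mem ha hb⟩ : M) = ⟨a, ha⟩ * ⟨b, hb⟩ := rfl
    rw [this, map_mul, map_mul, ha', hb']
  add_mem' := by
    rintro a b ⟨ha, ha'⟩ ⟨hb, hb'⟩
    refine ⟨add_mem ha hb, ?_⟩
    have : (⟨a + b, add_mem ha hb⟩ : M) = ⟨a, ha⟩ + ⟨b, hb⟩ := rfl
    rw [this, map_add, map_add, ha', hb']
  algebraMap_mem' := by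
    intro r
    refine ⟨M.algebraMap_mem r, ?_⟩
    have : (⟨algebraMap ℚ ℂ r, M.algebraMap_mem r⟩ : M) = (r : M) := by
      apply Subtype.ext; simp
    rw [this, map_ratCast, map_ratCast]
  inv_mem' := by
    rintro a ⟨ha, ha'⟩
    refine ⟨inv_mem ha, ?_⟩
    have : (⟨a⁻¹, inv_mem ha⟩ : M) = (⟨a, ha⟩ : M)⁻¹ := rfl
    rw [this, map_inv₀, map_inv₀, ha']

lemma unramInf_layer {F B : IntermediateField ℚ ℂ}
    (hB : ∀ φ : B →+* ℂ, ∀ x : B, (starRingEnd ℂ) (φ x) = φ x) :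
    UnramInf (le_sup_left : F ≤ F ⊔ B) := by
  intro φ hφ x
  have h1 : F ≤ realSub φ := fun z hz =>
    ⟨(le_sup_left : F ≤ F ⊔ B) hz, hφ ⟨z, (le_sup_left : F ≤ F ⊔ B) hz⟩ hz⟩
  have h2 : B ≤ realSub φ := fun z hz =>
    ⟨(le_sup_right : B ≤ F ⊔ B) hz,
      hB (φ.comp (IntermediateField.inclusion (le_sup_right : B ≤ F ⊔ B)).toRingHom) ⟨z, hz⟩⟩
  obtain ⟨_, h⟩ := (sup_le h1 h2) x.2
  exact h

lemma ram_aux (hRAM : RAM) (p m : ℕ) [Fact p.Prime] (F B : IntermediateField ℚ ℂ)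
    [FiniteDimensional ℚ F] [FiniteDimensional ℚ ↥(F ⊔ B)]
    (hB : B ≤ IntermediateField.adjoin ℚ {z : ℂ | z ^ (p ^ m) = 1}) :
    letI := algC (le_sup_left : F ≤ F ⊔ B)
    ∀ w : HeightOneSpectrum (𝓞 ↥(F ⊔ B)), (p : 𝓞 ↥(F ⊔ B)) ∉ w.asIdeal →
      w.asIdeal.ramificationIdx (𝓞 F) = 1 := by
  intro w hw
  have hpm : p ^ m ≠ 0 := pow_ne_zero _ (Fact.out : p.Prime).ne_zero
  have : NeZero (p ^ m) := ⟨hpm⟩
  set ζ : ℂ := Complex.exp (2 * Real.pi * Complex.I / (p ^ m : ℕ)) with hζ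
  have hζp : IsPrimitiveRoot ζ (p ^ m) := Complex.isPrimitiveRoot_exp _ hpm
  have hζ1 : ζ ^ (p ^ m) = 1 := hζp.pow_eq_one
  set C : IntermediateField ℚ ℂ := IntermediateField.adjoin ℚ {ζ} with hC
  have hζC : ζ ∈ C := IntermediateField.mem_adjoin_simple_self ℚ ζ
  have hBC : B ≤ C := by
    refine hB.trans ?_
    rw [IntermediateField.adjoin_le_iff]
    intro z hz
    obtain ⟨i, -, rfl⟩ := hζp.eq_pow_of_pow_eq_one hz
    exact pow_mem hζC i
  have hfC : FiniteDimensional ℚ C := by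
    apply IntermediateField.adjoin.finiteDimensional
    exact IsIntegral.of_pow (Nat.pos_of_ne_zero hpm) (by rw [hζ1]; exact isIntegral_one)
  have hMN : F ⊔ B ≤ F ⊔ C := sup_le_sup_left hBC F
  have hfN : FiniteDimensional ℚ ↥(F ⊔ C) := IntermediateField.finiteDimensional_sup F C
  let : Algebra F ↥(F ⊔ B) := algC le_sup_left
  let : Algebra ↥(F ⊔ B) ↥(F ⊔ C) := algC hMN
  let : Algebra F ↥(F ⊔ C) := algC (le_sup_left.trans hMN)
  have : IsScalarTower F ↥(F ⊔ B) ↥(F ⊔ C) := towerC le_sup_left hMN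
  let ζ' : ↥(F ⊔ C) := ⟨ζ, (le_sup_right : C ≤ F ⊔ C) hζC⟩
  refine hRAM p m F ↥(F ⊔ B) ↥(F ⊔ C) ζ' (Subtype.ext hζ1) ?_ w hw
  rw [eq_top_iff]
  intro x _
  -- the elements of `ℂ` that lie in `F(ζ)`
  let S := IntermediateField.adjoin F {ζ'}
  let T : IntermediateField ℚ ℂ :=
    { carrier := {z | ∃ h : z ∈ F ⊔ C, (⟨z, h⟩ : ↥(F ⊔ C)) ∈ S}
      mul_mem' := by
        rintro a b ⟨ha, ha'⟩ ⟨hb, hb'⟩
        exact ⟨mul_mem ha hb, mul_mem ha' hb'⟩
      add_mem' := by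
        rintro a b ⟨ha, ha'⟩ ⟨hb, hb'⟩
        exact ⟨add_mem ha hb, add_mem ha' hb'⟩
      algebraMap_mem' := by
        intro r
        refine ⟨(F ⊔ C).algebraMap_mem r, ?_⟩
        exact S.algebraMap_mem (algebraMap ℚ F r)
      inv_mem' := by
        rintro a ⟨ha, ha'⟩
        exact ⟨inv_mem ha, inv_mem ha'⟩ }
  have h1 : F ≤ T := fun z hz => ⟨(le_sup_left : F ≤ F ⊔ C) hz, S.algebraMap_mem ⟨z, hz⟩⟩
  have h2 : C ≤ T := by
    rw [hC, IntermediateField.adjoin_simple_le_iff]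
    exact ⟨(le_sup_right : C ≤ F ⊔ C) hζC, IntermediateField.mem_adjoin_simple_self F ζ'⟩
  obtain ⟨_, h⟩ := (sup_le h1 h2) x.2
  exact h

end MAINC

theorem MAINC_thm (hA : MAINA) (hLAY : LAY) (hBCH : BCH) (hRAM : RAM) : MAINC := by
  intro p _ F K _ h hGK hp hns hcl n B hB
  obtain ⟨hfB, hGB, hreal⟩ := hLAY p n B hB
  obtain ⟨hdeg, -, m, hBm⟩ := hB
  have hfF : FiniteDimensional ℚ F := FiniteDimensional.of_injective
    (IntermediateField.inclusion h).toLinearMap (IntermediateField.inclusion h).toRingHom.injective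
  have hfM : FiniteDimensional ℚ ↥(F ⊔ B) := IntermediateField.finiteDimensional_sup F B
  -- Galois and degree
  have hbot : IsGalois ↥(⊥ : IntermediateField ℚ ℂ)
      (IntermediateField.extendScalars (bot_le : (⊥ : IntermediateField ℚ ℂ) ≤ B)) := by
    let e : B ≃ₐ[ℚ] (IntermediateField.extendScalars
        (bot_le : (⊥ : IntermediateField ℚ ℂ) ≤ B)) :=
      { toFun := fun x => ⟨x.1, x.2⟩
        invFun := fun x => ⟨x.1, x.2⟩
        left_inv := fun _ => rfl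
        right_inv := fun _ => rfl
        map_mul' := fun _ _ => rfl
        map_add' := fun _ _ => rfl
        commutes' := fun _ => rfl }
    have : IsGalois ℚ (IntermediateField.extendScalars
        (bot_le : (⊥ : IntermediateField ℚ ℂ) ≤ B)) := IsGalois.of_algEquiv e
    exact IsGalois.tower_top_of_isGalois ℚ _ _
  have hbd : Module.finrank ↥(⊥ : IntermediateField ℚ ℂ)
      (IntermediateField.extendScalars (bot_le : (⊥ : IntermediateField ℚ ℂ) ≤ B)) = p ^ n := by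
    rw [← hdeg]
    let e : B ≃ₗ[ℚ] (IntermediateField.extendScalars
        (bot_le : (⊥ : IntermediateField ℚ ℂ) ≤ B)) :=
      { toFun := fun x => ⟨x.1, x.2⟩
        invFun := fun x => ⟨x.1, x.2⟩
        left_inv := fun _ => rfl
        right_inv := fun _ => rfl
        map_add' := fun _ _ => rfl
        map_smul' := fun _ _ => rfl }
    rw [e.finrank_eq, ← Pool.Agent.FX.fmul ℚ ↥(⊥ : IntermediateField ℚ ℂ)
      (IntermediateField.extendScalars (bot_le : (⊥ : IntermediateField ℚ ℂ) ≤ B)),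
      IntermediateField.finrank_bot, one_mul]
  have h1 := hBCH.1 ⊥ B F F (F ⊔ B) bot_le le_sup_left (bot_sup_eq F).symm (sup_comm F B) hbot
  rw [hbd] at h1
  obtain ⟨a, -, ha⟩ := (Nat.dvd_prime_pow (Fact.out : p.Prime)).1 h1.2
  have hres := hA p a F K (F ⊔ B) h le_sup_left hGK hp h1.1 ha
    (MAINC.unramInf_layer hreal) ?_ hcl
  · rwa [← sup_assoc, sup_eq_left.2 h] at hres
  intro P Q hP hQ hPQ hR
  let : Algebra F K := algC h
  have hcomap : ∀ P : Ideal (𝓞 K), P.comap (RingOfIntegers.mapRingHom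
      (IntermediateField.inclusion h : F →+* K)) = P.under (𝓞 F) := fun _ => rfl
  by_cases hP0 : P = ⊥
  · subst hP0
    rw [hcomap, hcomap] at hPQ
    have h0 : (⊥ : Ideal (𝓞 K)).under (𝓞 F) = ⊥ := Ideal.under_bot _ _
    rw [h0] at hPQ
    exact (Ideal.eq_bot_of_comap_eq_bot hPQ.symm).symm
  obtain ⟨R, hRp, hRP, he⟩ := hR
  have hPF : P.under (𝓞 F) ≠ ⊥ := fun h0 => hP0 (Ideal.eq_bot_of_comap_eq_bot h0)
  let : Algebra F ↥(F ⊔ B) := algC le_sup_left
  have hR0 : R ≠ ⊥ := by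
    rintro rfl
    apply hPF
    rw [← hcomap, ← hRP]
    exact Ideal.under_bot _ _
  have hpR : (p : 𝓞 ↥(F ⊔ B)) ∈ R := by
    by_contra hpR
    apply he
    exact MAINC.ram_aux hRAM p m F B hBm ⟨R, hRp, hR0⟩ hpR
  have hpP : ∀ P' : Ideal (𝓞 K), P'.comap (RingOfIntegers.mapRingHom
      (IntermediateField.inclusion h : F →+* K)) = R.under (𝓞 F) → (p : 𝓞 K) ∈ P' := by
    intro P' h'
    have h2 : (p : 𝓞 F) ∈ R.under (𝓞 F) := by
      rw [Ideal.mem_comap, map_natCast]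
      exact hpR
    rw [← h', Ideal.mem_comap, map_natCast] at h2
    exact h2
  exact hns P Q hP hQ (hpP P hRP.symm) (hpP Q (by rw [← hPQ]; exact hRP.symm)) hPQ

end Pool.Agent.RI


end

section

/-!
# RAM: primes not above `p` are unramified in `K(ζ) / K`
-/

open NumberField Finset IsDedekindDomain
open scoped nonZeroDivisors Pointwise

namespace Pool.Agent.RI

namespace RAM

/-- A root of unity of order a power of `p` congruent to `1` modulo a prime not above `p` is `1`. -/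
theorem eq_one_of_mem {R : Type*} [CommRing R] [IsDomain R] (P : Ideal R) [P.IsPrime] (p m : ℕ)
    [hp : Fact p.Prime] (hpP : (p : R) ∉ P) (z : R) (hz : z ^ (p ^ m) = 1) (h : z - 1 ∈ P) :
    z = 1 := by
  by_contra hne
  have h1 : ∑ i ∈ range (p ^ m), z ^ i = 0 := by
    have h2 := geom_sum_mul z (p ^ m)
    rw [hz, sub_self] at h2
    exact (mul_eq_zero.mp h2).resolve_right (sub_ne_zero.mpr hne)
  have h3 : ((p ^ m : ℕ) : R) ∈ P := by
    have h4 : ∑ i ∈ range (p ^ m), (z ^ i - 1) ∈ P := by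
      refine sum_mem fun i _ => ?_
      have h5 : z - 1 ∣ z ^ i - 1 := by
        have := sub_dvd_pow_sub_pow z 1 i
        rwa [one_pow] at this
      exact P.mem_of_dvd h5 h
    rw [Finset.sum_sub_distrib, h1, Finset.sum_const, card_range, zero_sub, neg_mem_iff,
      nsmul_one] at h4
    exact h4
  rw [Nat.cast_pow] at h3
  exact hpP (Ideal.IsPrime.mem_of_pow_mem inferInstance _ h3)

end RAM

theorem RAM_thm : RAM := by
  intro p m hp K L N _ _ _ _ _ _ _ _ _ _ ζ hζ hadj w hw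
  have hmpos : 0 < p ^ m := pow_pos hp.out.pos m
  -- `N / K` is Galois
  have hgal : IsGalois K N := by
    have hk : 0 < orderOf ζ := orderOf_pos_iff.mpr (isOfFinOrder_iff_pow_eq_one.mpr ⟨_, hmpos, hζ⟩)
    have : NeZero (orderOf ζ) := ⟨hk.ne'⟩
    have h1 : IsCyclotomicExtension {orderOf ζ} K (IntermediateField.adjoin K {ζ}) :=
      (IsPrimitiveRoot.orderOf ζ).intermediateField_adjoin_isCyclotomicExtension K
    rw [hadj] at h1
    have h2 : IsGalois K (⊤ : IntermediateField K N) :=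
      IsCyclotomicExtension.isGalois {orderOf ζ} K (⊤ : IntermediateField K N)
    exact IsGalois.of_algEquiv IntermediateField.topEquiv
  obtain ⟨r, hr, hrw⟩ : ∃ r : Ideal (𝓞 N), r.IsPrime ∧ r.LiesOver w.asIdeal := by
    obtain ⟨r⟩ := (inferInstance : Nonempty (w.asIdeal.primesOver (𝓞 N)))
    exact ⟨r.1, r.2.1, r.2.2⟩
  have hpr : (p : 𝓞 N) ∉ r := by
    intro h
    apply hw
    rw [hrw.over, Ideal.under, Ideal.mem_comap, map_natCast]
    exact h
  have hin : r.inertia (N ≃ₐ[K] N) = ⊥ := by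
    rw [eq_bot_iff]
    intro σ hσ
    have hint : IsIntegral ℤ ζ := ⟨Polynomial.X ^ (p ^ m) - 1,
      Polynomial.monic_X_pow_sub_C 1 hmpos.ne', by simp [hζ]⟩
    obtain ⟨z, hz⟩ : ∃ z : 𝓞 N, (z : N) = ζ := ⟨⟨ζ, hint⟩, rfl⟩
    have hzp : z ^ (p ^ m) = 1 := by
      apply RingOfIntegers.ext
      have h3 : ((z ^ (p ^ m) : 𝓞 N) : N) = (z : N) ^ (p ^ m) := map_pow (algebraMap (𝓞 N) N) z _
      rw [h3, hz, hζ]
      exact (map_one (algebraMap (𝓞 N) N)).symm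
    have h4 : z ^ (p ^ m - 1) * z = 1 := by
      rw [← pow_succ, Nat.sub_add_cancel hmpos, hzp]
    have h5 : σ • z - z ∈ r := hσ z
    have h6 : σ • z * z ^ (p ^ m - 1) = 1 := by
      refine RAM.eq_one_of_mem r p m hpr _ ?_ ?_
      · rw [mul_pow, ← smul_pow', hzp, smul_one, one_mul, ← pow_mul, mul_comm, pow_mul, hzp,
          one_pow]
      · have h7 : σ • z * z ^ (p ^ m - 1) - 1 = z ^ (p ^ m - 1) * (σ • z - z) := by
          rw [mul_sub, h4, mul_comm]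
        rw [h7]
        exact r.mul_mem_left _ h5
    have h7 : σ • z = z := by
      calc σ • z = σ • z * (z ^ (p ^ m - 1) * z) := by rw [h4, mul_one]
        _ = (σ • z * z ^ (p ^ m - 1)) * z := by ring
        _ = z := by rw [h6, one_mul]
    have h8 : σ ζ = ζ := by
      have h9 := congrArg (fun y : 𝓞 N => (y : N)) h7
      have h10 : ((σ • z : 𝓞 N) : N) = σ (z : N) := rfl
      simp only [h10, hz] at h9
      exact h9
    rw [Subgroup.mem_bot]
    have h9 : (IntermediateField.adjoin K {ζ}) ≤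
        IntermediateField.fixedField (Subgroup.zpowers σ) := by
      rw [IntermediateField.adjoin_le_iff, Set.singleton_subset_iff]
      rintro ⟨τ, j, rfl⟩
      change (σ ^ j) ζ = ζ
      have h10 : σ ∈ MulAction.stabilizer (N ≃ₐ[K] N) ζ := h8
      exact zpow_mem h10 j
    apply AlgEquiv.ext
    intro x
    have h10 : x ∈ IntermediateField.fixedField (Subgroup.zpowers σ) := by
      apply h9
      rw [hadj]
      exact IntermediateField.mem_top
    exact h10 ⟨σ, Subgroup.mem_zpowers σ⟩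
  have h1 : Nat.card (r.inertia (N ≃ₐ[K] N)) = (r.under (𝓞 K)).ramificationIdxIn (𝓞 N) :=
    Ideal.card_inertia_eq_ramificationIdxIn (r.under (𝓞 K)) r
  have h2 : (r.under (𝓞 K)).ramificationIdxIn (𝓞 N) = r.ramificationIdx (𝓞 K) :=
    Ideal.ramificationIdxIn_eq_ramificationIdx (r.under (𝓞 K)) r (N ≃ₐ[K] N)
  have h3 : w.asIdeal.ramificationIdx (𝓞 K) ∣ r.ramificationIdx (𝓞 K) :=
    Ideal.ramificationIdx_below_dvd w.asIdeal r
  rw [← h2, ← h1, hin, Subgroup.card_bot, Nat.dvd_one] at h3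
  exact h3

end Pool.Agent.RI


end

section

/-!
# CDL: the situation for `M = F B`, `B` a layer
-/

open NumberField Finset IsDedekindDomain
open scoped nonZeroDivisors Pointwise

namespace Pool.Agent.RID

open _root_.Pool.Agent.RI

namespace CDL

/-- The elements of `M` fixed by `σ`, as a subfield of `ℂ`. -/
def fixSub {F M : IntermediateField ℚ ℂ} (h : F ≤ M)
    (σ : (IntermediateField.extendScalars h) ≃ₐ[F] (IntermediateField.extendScalars h)) :
    IntermediateField ℚ ℂ where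
  carrier := {z | ∃ hz : z ∈ IntermediateField.extendScalars h, σ ⟨z, hz⟩ = ⟨z, hz⟩}
  mul_mem' := by
    rintro a b ⟨ha, ha'⟩ ⟨hb, hb'⟩
    refine ⟨mul_mem ha hb, ?_⟩
    have : (⟨a * b, mul_mem ha hb⟩ : IntermediateField.extendScalars h) = ⟨a, ha⟩ * ⟨b, hb⟩ := rfl
    rw [this, map_mul, ha', hb']
  add_mem' := by
    rintro a b ⟨ha, ha'⟩ ⟨hb, hb'⟩
    refine ⟨add_mem ha hb, ?_⟩
    have : (⟨a + b, add_mem ha hb⟩ : IntermediateField.extendScalars h) = ⟨a, ha⟩ + ⟨b, hb⟩ := rfl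
    rw [this, map_add, ha', hb']
  algebraMap_mem' := by
    intro r
    refine ⟨M.algebraMap_mem r, ?_⟩
    have : (⟨algebraMap ℚ ℂ r, M.algebraMap_mem r⟩ : IntermediateField.extendScalars h) =
        algebraMap F (IntermediateField.extendScalars h) (algebraMap ℚ F r) := by
      apply Subtype.ext; rfl
    rw [this, AlgEquiv.commutes]
  inv_mem' := by
    rintro a ⟨ha, ha'⟩
    refine ⟨inv_mem ha, ?_⟩
    have : (⟨a⁻¹, inv_mem ha⟩ : IntermediateField.extendScalars h) =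
      (⟨a, ha⟩ : IntermediateField.extendScalars h)⁻¹ := rfl
    rw [this, map_inv₀, ha']

lemma cyclic {F B : IntermediateField ℚ ℂ} [IsGalois ℚ B] (hc : IsCyclic (B ≃ₐ[ℚ] B)) :
    IsCyclic ((IntermediateField.extendScalars (le_sup_left : F ≤ F ⊔ B)) ≃ₐ[F]
      (IntermediateField.extendScalars (le_sup_left : F ≤ F ⊔ B))) := by
  set M := IntermediateField.extendScalars (le_sup_left : F ≤ F ⊔ B) with hM
  let : Algebra B M :=
    (IntermediateField.inclusion (le_sup_right : B ≤ F ⊔ B)).toRingHom.toAlgebra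
  have hT : IsScalarTower ℚ B M := IsScalarTower.of_algebraMap_eq fun x => by
    apply Subtype.ext
    rw [eq_ratCast, eq_ratCast, map_ratCast]
  have hT' : IsScalarTower ℚ F M := IsScalarTower.of_algebraMap_eq fun x => by
    apply Subtype.ext
    rw [eq_ratCast, eq_ratCast, map_ratCast]
  let f : (M ≃ₐ[F] M) →* (B ≃ₐ[ℚ] B) :=
    (AlgEquiv.restrictNormalHom (F := ℚ) (K₁ := M) B).comp (AlgEquiv.restrictScalarsHom ℚ)
  refine isCyclic_of_injective f ?_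
  rw [injective_iff_map_eq_one]
  intro σ hσ
  have h0 : ∀ x : B, σ (algebraMap B M x) = algebraMap B M x := by
    intro x
    have h1 := AlgEquiv.restrictNormal_commutes (AlgEquiv.restrictScalars ℚ σ) B x
    have h2 : (AlgEquiv.restrictScalars ℚ σ).restrictNormal B = 1 := hσ
    rw [h2, AlgEquiv.one_apply] at h1
    exact h1.symm
  have h1 : F ≤ fixSub le_sup_left σ := fun z hz =>
    ⟨(le_sup_left : F ≤ F ⊔ B) hz, σ.commutes ⟨z, hz⟩⟩
  have h2 : B ≤ fixSub le_sup_left σ := fun z hz =>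
    ⟨(le_sup_right : B ≤ F ⊔ B) hz, h0 ⟨z, hz⟩⟩
  ext x
  obtain ⟨_, h⟩ := (sup_le h1 h2) x.2
  exact congrArg Subtype.val h

end CDL

theorem t_CDL (hLAYC : S_LAYC) : S_CDL := by
  intro p n _ F K B _ l hK hGK hp hl hE hD hB
  obtain ⟨hfB, hGB, hreal⟩ := LAY_thm p n B hB
  have hcyc := hLAYC p n B hB
  obtain ⟨hdeg, -, m, hBm⟩ := hB
  have hfF : FiniteDimensional ℚ F := FiniteDimensional.of_injective
    (IntermediateField.inclusion hK).toLinearMap (IntermediateField.inclusion hK).toRingHom.injective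
  have hfM : FiniteDimensional ℚ ↥(F ⊔ B) := IntermediateField.finiteDimensional_sup F B
  have hbot : IsGalois ↥(⊥ : IntermediateField ℚ ℂ)
      (IntermediateField.extendScalars (bot_le : (⊥ : IntermediateField ℚ ℂ) ≤ B)) := by
    let e : B ≃ₐ[ℚ] (IntermediateField.extendScalars
        (bot_le : (⊥ : IntermediateField ℚ ℂ) ≤ B)) :=
      { toFun := fun x => ⟨x.1, x.2⟩
        invFun := fun x => ⟨x.1, x.2⟩
        left_inv := fun _ => rfl
        right_inv := fun _ => rfl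
        map_mul' := fun _ _ => rfl
        map_add' := fun _ _ => rfl
        commutes' := fun _ => rfl }
    have : IsGalois ℚ (IntermediateField.extendScalars
        (bot_le : (⊥ : IntermediateField ℚ ℂ) ≤ B)) := IsGalois.of_algEquiv e
    exact IsGalois.tower_top_of_isGalois ℚ _ _
  have hbd : Module.finrank ↥(⊥ : IntermediateField ℚ ℂ)
      (IntermediateField.extendScalars (bot_le : (⊥ : IntermediateField ℚ ℂ) ≤ B)) = p ^ n := by
    rw [← hdeg]
    let e : B ≃ₗ[ℚ] (IntermediateField.extendScalars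
        (bot_le : (⊥ : IntermediateField ℚ ℂ) ≤ B)) :=
      { toFun := fun x => ⟨x.1, x.2⟩
        invFun := fun x => ⟨x.1, x.2⟩
        left_inv := fun _ => rfl
        right_inv := fun _ => rfl
        map_add' := fun _ _ => rfl
        map_smul' := fun _ _ => rfl }
    rw [e.finrank_eq, ← Pool.Agent.FX.fmul ℚ ↥(⊥ : IntermediateField ℚ ℂ)
      (IntermediateField.extendScalars (bot_le : (⊥ : IntermediateField ℚ ℂ) ≤ B)),
      IntermediateField.finrank_bot, one_mul]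
  have h1 := BCH_thm.1 ⊥ B F F (F ⊔ B) bot_le le_sup_left (bot_sup_eq F).symm (sup_comm F B) hbot
  rw [hbd] at h1
  obtain ⟨a, han, ha⟩ := (Nat.dvd_prime_pow (Fact.out : p.Prime)).1 h1.2
  refine ⟨⟨hK, le_sup_left, hGK, hp, h1.1, ⟨a, ha⟩, hl, hE, MAINC.unramInf_layer hreal, ?_⟩,
    CDL.cyclic hcyc, a, ha, han, ?_⟩
  · intro P hP hR
    by_cases hP0 : P = ⊥
    · subst hP0
      obtain ⟨E, hEl⟩ := List.exists_mem_of_ne_nil l hl
      obtain ⟨_, hEK, _⟩ := hE E hEl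
      refine ⟨E, hEl, hEK, ?_⟩
      intro Q hQ hQP
      let : Algebra E K := algC hEK
      have h0 : (⊥ : Ideal (𝓞 K)).comap (RingOfIntegers.mapRingHom
        (IntermediateField.inclusion hEK : E →+* K)) = ⊥ := Ideal.under_bot (𝓞 E) (𝓞 K)
      rw [h0] at hQP
      exact Ideal.eq_bot_of_comap_eq_bot (R := 𝓞 E) hQP
    refine hD P hP ?_
    let : Algebra F K := algC hK
    obtain ⟨R, hRp, hRP, he⟩ := hR
    have hPF : P.under (𝓞 F) ≠ ⊥ := fun h0 => hP0 (Ideal.eq_bot_of_comap_eq_bot h0)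
    let : Algebra F ↥(F ⊔ B) := algC le_sup_left
    have hR0 : R ≠ ⊥ := by
      rintro rfl
      apply hPF
      refine Eq.trans hRP.symm ?_
      exact Ideal.under_bot _ _
    have hpR : (p : 𝓞 ↥(F ⊔ B)) ∈ R := by
      by_contra hpR
      apply he
      exact MAINC.ram_aux RAM_thm p m F B hBm ⟨R, hRp, hR0⟩ hpR
    have h2 : (p : 𝓞 F) ∈ R.under (𝓞 F) := by
      rw [Ideal.mem_comap, map_natCast]
      exact hpR
    rw [hRP, Ideal.mem_comap, map_natCast] at h2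
    exact h2
  · have h3 : Module.finrank ℚ F * Module.finrank F
        (IntermediateField.extendScalars (le_sup_left : F ≤ F ⊔ B)) =
        Module.finrank ℚ ↥(F ⊔ B) := by
      exact Pool.Agent.FX.fmul ℚ F
        (IntermediateField.extendScalars (le_sup_left : F ≤ F ⊔ B))
    rw [← ha, mul_comm, h3, ← hdeg]
    exact LinearMap.finrank_le_finrank_of_injective
      (f := (IntermediateField.inclusion (le_sup_right : B ≤ F ⊔ B)).toLinearMap)
      (IntermediateField.inclusion (le_sup_right : B ≤ F ⊔ B)).toRingHom.injective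

end Pool.Agent.RID


end

section

/-!
# MU3, section 4: module RAMP (helper18)
-/

open NumberField IsDedekindDomain

namespace MU3

open _root_.Pool.Agent.RI _root_.Pool.Agent.RID

theorem n_RAMP : N_RAMP := by
  intro p n _ K B _ _ hB w hw
  let := algC (le_sup_left : K ≤ K ⊔ B)
  by_contra h
  obtain ⟨_, _, m, hBm⟩ := hB
  refine hw (MAINC.ram_aux RAM_thm p m K B hBm w fun hp => h ?_)
  show algebraMap (𝓞 K) (𝓞 ↥(K ⊔ B)) (p : 𝓞 K) ∈ w.asIdeal
  rw [map_natCast]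
  exact hp

end MU3


end
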