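import Mathlib
import Pool.Agent.MVF.C016
import Pool.Agent.MVF.C024

/-! Parts: ME.StXEE, MUX.Q_EMB, MUX.Q_CYQ, MUX.R_FRN, ME.X_PT, ME.X_TRB -/

namespace Pool.Agent.MUXV.CYQ
end Pool.Agent.MUXV.CYQ
namespace Pool.Agent.MUXV.EmbQ
end Pool.Agent.MUXV.EmbQ
namespace Pool.Agent.MUXV.FRN
end Pool.Agent.MUXV.FRN

section

/-!
# ME, block E: the facts of `MUX/StXE.lean` on the ray class fields, for the exceptional fields (helper86)

Twin of the first part of `Pool/Agent/MUX/StXE.lean` (`NL`, `ActE`, `GalE`, TRA, TRB, FAC, GTH, PT, GAL) for the normalisation `IsNE` of `DefsE.lean`. The levels are even: `GalEE.ker` is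
only stated for `m' ≤ (2)`, `GalEE.sur` for `m ≤ (2)` and `α ≡ 1` modulo `2` (all points of order 2 are rational). `RingE` is the old one.
-/

set_option autoImplicit false

open WeierstrassCurve Polynomial NumberField IsDedekindDomain

namespace Pool.Agent.MEE

open _root_.MU3 _root_.Pool.Agent.MU3A _root_.Pool.Agent.MU3B _root_.Pool.Agent.MUX _root_.Pool.Agent.MUXU _root_.Pool.Agent.RI
open _root_.Pool.Agent.ME hiding ActE
open _root_.Pool.Agent.MUXE (RingE)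

noncomputable section

/-- `L` is a normalised lattice with complex multiplication by `O` -/
def NLE (A B : ℤ) (L : PeriodPair) : Prop := ∃ (b : Ideal (OO A B)) (om : ℂ), IsNE b L om

/-- the embedding `σ` of `F ⊇ RFE m` acts on `RFE m` as the principal ideal `(α)` -/
def ActEE {A B : ℤ} {F : IntermediateField (kk A B) ℂ} (σ : F →ₐ[kk A B] ℂ)
    (m : Ideal (OO A B)) (α : OO A B) : Prop :=
  IsCoprime (sp α) m ∧ ∀ L, NLE A B L → (∀ h : kapE L ∈ F, σ ⟨kapE L, h⟩ = kapE L) ∧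
    ∀ z, Tor m L z → z ∉ L.lattice → emb α * z ∉ L.lattice ∧
      ∀ hx : xnE L z ∈ F, σ ⟨xnE L z, hx⟩ = xnE L (emb α * z)

/-- The facts on the fields `RFE m`. -/
structure GalEE (A B : ℤ) : Prop where
  fin : ∀ m : Ideal (OO A B), m ≠ ⊥ → FiniteDimensional (kk A B) (RFE m)
  gal : ∀ m : Ideal (OO A B), m ≠ ⊥ → IsGalois (kk A B) (RFE m)
  ker : ∀ (m m' : Ideal (OO A B)), m ≠ ⊥ → m ≤ m' → m' ≤ idl (A := A) (B := B) 2 →
    ∀ σ : RFE m →ₐ[kk A B] ℂ,
    (∀ (y : ℂ) (hy : y ∈ RFE m), y ∈ RFE m' → σ ⟨y, hy⟩ = y) →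
    ∃ α : OO A B, α - 1 ∈ m' ∧ ActEE σ m α
  sur : ∀ (m : Ideal (OO A B)), m ≠ ⊥ → m ≤ idl (A := A) (B := B) 2 →
    ∀ α : OO A B, IsCoprime (sp α) m → α - 1 ∈ idl (A := A) (B := B) 2 →
    ∃ σ : RFE m ≃ₐ[kk A B] RFE m, ActEE (_root_.Pool.Agent.MU3A.em σ) m α

/-- (GAL) from the main theorem of complex multiplication. -/
def Sme_GAL : Prop := ∀ A B : ℤ, CaseE A B → RingE A B → TorXE A B → GalEE A B

/-- (TRA) torsion points: formal facts. -/
def Sme_TRA : Prop :=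
  ∀ (A B : ℤ), RingE A B → ∀ L, NLE A B L →
    (∀ (x : OO A B) (z : ℂ), z ∈ L.lattice → emb x * z ∈ L.lattice) ∧
    (∀ (m : Ideal (OO A B)) (z w : ℂ), Tor m L z → Tor m L w → Tor m L (z + w)) ∧
    (∀ (m : Ideal (OO A B)) (x : OO A B) (z : ℂ), Tor m L z → Tor m L (emb x * z)) ∧
    (∀ (m m' : Ideal (OO A B)) (z : ℂ), IsCoprime m m' → Tor m L z → Tor m' L z →
      z ∈ L.lattice) ∧
    (∀ (x : OO A B) (z : ℂ), Tor (sp x) L z ↔ emb x * z ∈ L.lattice) ∧
    (∀ (m m' : Ideal (OO A B)) (x : OO A B) (z : ℂ), x ∈ m → Tor (m * m') L z →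
      Tor m' L (emb x * z)) ∧
    (∀ (m m' : Ideal (OO A B)) (z : ℂ), (∀ x ∈ m, Tor m' L (emb x * z)) → Tor (m * m') L z) ∧
    (∀ (m : Ideal (OO A B)) (z w : ℂ), z - w ∈ L.lattice → (Tor m L z ↔ Tor m L w)) ∧
    ∀ (z w : ℂ), z - w ∈ L.lattice → (z ∈ L.lattice ↔ w ∈ L.lattice) ∧
      (z ∉ L.lattice → xnE L z = xnE L w ∧ yy L z = yy L w ∧ xnE L (-z) = xnE L z)

/-- (TRB) existence of torsion points, and points killed by a maximal ideal. -/
def Sme_TRB : Prop :=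
  ∀ (A B : ℤ), RingE A B → ∀ L, NLE A B L →
    (∀ (m m' : Ideal (OO A B)), m' ≠ ⊥ → m' < m → ∃ z, Tor m' L z ∧ ¬ Tor m L z) ∧
    ∀ Q : Ideal (OO A B), Q ≠ ⊥ → Q.IsMaximal → ∀ z w, Tor Q L z → Tor Q L w → z ∉ L.lattice →
      ∃ x : OO A B, w - emb x * z ∈ L.lattice

/-- (FAC) formal properties of the fields. -/
def Sme_FAC : Prop :=
  ∀ (A B : ℤ), RingE A B →
    (∀ m m' : Ideal (OO A B), m ≤ m' → RFE m' ≤ RFE m) ∧
    (∀ (m : Ideal (OO A B)) (L), NLE A B L → kapE L ∈ RFE m ∧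
      ∀ z, Tor m L z → z ∉ L.lattice → xnE L z ∈ RFE m) ∧
    (∀ (m : Ideal (OO A B)) (σ τ : RFE m →ₐ[kk A B] ℂ) (α : OO A B), ActEE σ m α →
      ActEE τ m α → σ = τ) ∧
    (∀ (m m' : Ideal (OO A B)) (_ : m ≤ m') (σ : RFE m →ₐ[kk A B] ℂ) (α : OO A B),
      ActEE σ m α → α - 1 ∈ m' → ∀ (y : ℂ) (hy : y ∈ RFE m), y ∈ RFE m' → σ ⟨y, hy⟩ = y) ∧
    ∀ (m : Ideal (OO A B)) (F : IntermediateField (kk A B) ℂ) (σ : F →ₐ[kk A B] ℂ)
      (α β : OO A B), (α - β ∈ m ∨ α + β ∈ m) → ActEE σ m α → ActEE σ m β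

/-- (GTH) the Galois action on `Θ_a(z)`. -/
def Sme_GTH : Prop :=
  ∀ (A B : ℤ), RingE A B → ∀ L, NLE A B L → ∀ (a : ℕ) (H : Finset ℂ), IsHalf L (a : ℂ) H →
    ∀ m : Ideal (OO A B),
      m ≤ sp (a : OO A B) → ∀ (σ : RFE m ≃ₐ[kk A B] RFE m) (c : OO A B), ActEE (_root_.Pool.Agent.MU3A.em σ) m c →
        c - 1 ∈ sp (a : OO A B) → ∀ z, Tor m L z → z ∉ L.lattice →
        ∃ hz : ThetaH L H z ∈ RFE m, (σ ⟨ThetaH L H z, hz⟩ : ℂ) = ThetaH L H (emb c * z)

/-- (PT) the points `ptE R m i x` and the factors `μ_i = om_i N(b_i)/om_0`. -/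
def Sme_PT : Prop :=
  ∀ (A B : ℤ), RingE A B → ∀ (n : ℕ) (ι : Type) (R : RepsE A B n ι), n ≠ 0 → ∀ i : ι,
    muXE R i ≠ 0 ∧
    (∀ u ∈ (R.L R.i0).lattice, muXE R i * u ∈ (R.L i).lattice) ∧
    (∀ (r : ℕ), r ≠ 0 → r.primeFactors ⊆ n.primeFactors → ∀ u, (r : ℂ) * u ∈ (R.L R.i0).lattice →
      muXE R i * u ∈ (R.L i).lattice → u ∈ (R.L R.i0).lattice) ∧
    ∀ (m : ℕ), m ≠ 0 → m.primeFactors ⊆ n.primeFactors → ∀ x : OO A B,
      ptE R m i x = muXE R i * (emb x * (R.om R.i0 / m)) ∧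
      (m : ℂ) * ptE R m i x ∈ (R.L i).lattice ∧
      (IsCoprime x (m : OO A B) → ∀ c : ℕ, (c : ℂ) * ptE R m i x ∈ (R.L i).lattice → m ∣ c) ∧
      ∀ x' : OO A B, emb x' * (R.om R.i0 / m) ∈ (R.L R.i0).lattice ↔ (m : OO A B) ∣ x'

end

end Pool.Agent.MEE


end

section

/-!
# MUX, block R part 2, module EMB (helper4): elementary facts on `O = ℤ[w]`
-/

set_option autoImplicit false

namespace Pool.Agent.MUXV

open _root_.MU3 _root_.Pool.Agent.MU3A _root_.Pool.Agent.MU3B _root_.Pool.Agent.MUXU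
open _root_.Pool.Agent.MUXF (CQ)

noncomputable section

namespace EmbQ

variable {A B : ℤ}

lemma absD_pos (h : CQ A B) : 0 < absD A B := by
  have := h.neg
  unfold absD
  omega

lemma wC_sq' (h : CQ A B) : wC A B * wC A B = A + B * wC A B := by
  have h1 : (0 : ℝ) ≤ (absD A B : ℝ) := by exact_mod_cast (absD_pos h).le
  have h2 : ((Real.sqrt (absD A B) : ℝ) : ℂ) ^ 2 = (absD A B : ℂ) := by
    rw [← Complex.ofReal_pow, Real.sq_sqrt h1]
    norm_num
  have h3 : Complex.I ^ 2 = -1 := Complex.I_sq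
  have h4 : (absD A B : ℂ) = -((B : ℂ) ^ 2 + 4 * A) := by simp [absD]
  unfold wC
  linear_combination (Complex.I ^ 2 / 4) * h2 + ((absD A B : ℂ) / 4) * h3 - (1 / 4) * h4

/-- `emb` as a ring homomorphism -/
def eH (h : CQ A B) : OO A B →+* ℂ :=
  (QuadraticAlgebra.lift (R := ℤ) (a := A) (b := B) (A := ℂ)
    ⟨wC A B, by simpa [zsmul_eq_mul] using wC_sq' h⟩).toRingHom

lemma eH_apply (h : CQ A B) (x : OO A B) : eH h x = emb x := by
  simp [eH, emb, QuadraticAlgebra.lift, zsmul_eq_mul]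

lemma _root_.Pool.Agent.MUXV.EmbQ.wC_im_pos (h : CQ A B) : 0 < (wC A B).im := by
  have h1 : (0 : ℝ) < Real.sqrt (absD A B) := Real.sqrt_pos.2 (by exact_mod_cast absD_pos h)
  have h2 : (wC A B).im = Real.sqrt (absD A B) / 2 := by
    simp [wC, Complex.add_im, Complex.mul_im]
  rw [h2]; positivity

lemma _root_.Pool.Agent.MUXV.EmbQ.emb_inj (h : CQ A B) {x y : OO A B} (hxy : emb x = emb y) : x = y := by
  have h1 := congrArg Complex.im hxy
  have h2 := congrArg Complex.re hxy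
  simp only [emb, Complex.add_im, Complex.mul_im, Complex.intCast_im, Complex.intCast_re,
    zero_mul, add_zero, zero_add, Complex.add_re, Complex.mul_re, sub_zero] at h1 h2
  have h3 : (x.im : ℝ) = y.im := mul_right_cancel₀ (_root_.Pool.Agent.MUXV.EmbQ.wC_im_pos h).ne' h1
  rw [h3] at h2
  have h4 : (x.re : ℝ) = y.re := add_right_cancel h2
  exact QuadraticAlgebra.ext (by exact_mod_cast h4) (by exact_mod_cast h3)

lemma mul_star' (x : OO A B) : x * star x = ((nm x : ℤ) : OO A B) := by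
  ext
  · simp only [nm, QuadraticAlgebra.re_mul, QuadraticAlgebra.re_star, QuadraticAlgebra.im_star,
      QuadraticAlgebra.re_intCast, Int.cast_id]
    ring
  · simp only [QuadraticAlgebra.im_mul, QuadraticAlgebra.re_star, QuadraticAlgebra.im_star,
      QuadraticAlgebra.im_intCast]
    ring

lemma nm_eq (x : OO A B) : nm x = QuadraticAlgebra.norm x := by
  rw [QuadraticAlgebra.norm_def]
  unfold nm
  ring

lemma nm_mul' (x y : OO A B) : nm (x * y) = nm x * nm y := by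
  rw [nm_eq, nm_eq, nm_eq, map_mul]

lemma four_nm (x : OO A B) :
    4 * nm x = (2 * x.re + B * x.im) ^ 2 + absD A B * x.im ^ 2 := by
  unfold nm absD
  ring

lemma nm_nonneg (h : CQ A B) (x : OO A B) : 0 ≤ nm x := by
  have h1 := four_nm x
  have h2 := absD_pos h
  have h3 : 0 ≤ absD A B * x.im ^ 2 := mul_nonneg h2.le (sq_nonneg _)
  have h4 := sq_nonneg (2 * x.re + B * x.im)
  omega

lemma nm_zero (h : CQ A B) {x : OO A B} (hx : nm x = 0) : x = 0 := by
  have h1 := four_nm x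
  have h2 := absD_pos h
  rw [hx] at h1
  have h3 : 0 ≤ absD A B * x.im ^ 2 := mul_nonneg h2.le (sq_nonneg _)
  have h4 := sq_nonneg (2 * x.re + B * x.im)
  have h5 : absD A B * x.im ^ 2 = 0 := by omega
  have h6 : x.im = 0 := by
    rcases mul_eq_zero.1 h5 with h | h
    · omega
    · simpa using h
  have h7 : (2 * x.re + B * x.im) ^ 2 = 0 := by omega
  have h8 : 2 * x.re + B * x.im = 0 := by simpa using h7
  rw [h6, mul_zero, add_zero] at h8
  have h9 : x.re = 0 := by omega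
  exact QuadraticAlgebra.ext h9 h6

lemma nm_zero_iff (h : CQ A B) (x : OO A B) : nm x = 0 ↔ x = 0 := by
  refine ⟨nm_zero h, fun hx => ?_⟩
  rw [hx]
  simp [nm]

lemma dom (h : CQ A B) : IsDomain (OO A B) := by
  have : NoZeroDivisors (OO A B) := by
    constructor
    intro x y hxy
    have h1 : nm x * nm y = 0 := by
      rw [← nm_mul', hxy]
      simp [nm]
    rcases mul_eq_zero.1 h1 with h2 | h2
    · exact Or.inl (nm_zero h h2)
    · exact Or.inr (nm_zero h h2)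
  exact NoZeroDivisors.to_isDomain _

end EmbQ

open _root_.Pool.Agent.MUXV.EmbQ in
theorem tq_EMB : Sq_EMB := by
  intro A B h
  refine ⟨fun x y => ?_, fun x y => ?_, fun x y => ?_, fun n => ?_, fun n => ?_,
    fun x y hxy => _root_.Pool.Agent.MUXV.EmbQ.emb_inj h hxy, by rw [pow_two, wC_sq' h], _root_.Pool.Agent.MUXV.EmbQ.wC_im_pos h, mul_star', nm_mul',
    nm_nonneg h, nm_zero_iff h, dom h⟩
  · simpa only [eH_apply] using map_mul (eH h) x y
  · simpa only [eH_apply] using map_add (eH h) x y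
  · simpa only [eH_apply] using map_sub (eH h) x y
  · simpa only [eH_apply] using map_intCast (eH h) n
  · simpa only [eH_apply] using map_natCast (eH h) n

end

end Pool.Agent.MUXV


end

section

/-!
# MUX, block R, part 2: (CYQ) the kernel of the isogeny is cyclic of order `q`
-/

set_option autoImplicit false

open WeierstrassCurve Polynomial

namespace Pool.Agent.MUXV

open _root_.MU3 _root_.Pool.Agent.MU3A _root_.Pool.Agent.MU3B _root_.Pool.Agent.MUXU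
open _root_.Pool.Agent.MUXF (CQ)

noncomputable section

namespace CYQ

theorem int_mul_mem {L : PeriodPair} {z : ℂ} (n : ℤ) (hz : z ∈ L.lattice) :
    (n : ℂ) * z ∈ L.lattice := by
  simpa [zsmul_eq_mul] using L.lattice.smul_mem n hz

/-- an integer prime to a prime `q` is invertible modulo `q` -/
theorem inv_mod {q : ℕ} (hq : q.Prime) {a : ℤ} (ha : ¬ (q : ℤ) ∣ a) :
    ∃ s t : ℤ, s * a = 1 + q * t := by
  have h1 : IsCoprime (q : ℤ) a :=
    (Prime.coprime_iff_not_dvd (Nat.prime_iff_prime_int.1 hq)).2 ha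
  obtain ⟨x, y, h⟩ := h1
  exact ⟨y, -x, by linarith⟩

/-- multiples of a point of order `q` -/
theorem mem_iff {L : PeriodPair} {q : ℕ} (hq : q.Prime) {u : ℂ} (hu : u ∉ L.lattice)
    (hqu : (q : ℂ) * u ∈ L.lattice) (j : ℤ) : (j : ℂ) * u ∈ L.lattice ↔ (q : ℤ) ∣ j := by
  constructor
  · intro hj
    by_contra hn
    obtain ⟨s, t, hst⟩ := inv_mod hq hn
    apply hu
    have h1 : u = (s : ℂ) * (j * u) - (t : ℂ) * (q * u) := by
      have h2 : (s : ℂ) * j = 1 + q * t := by exact_mod_cast hst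
      linear_combination (-u) * h2
    rw [h1]
    exact sub_mem (int_mul_mem s hj) (int_mul_mem t hqu)
  · rintro ⟨c, rfl⟩
    have h1 : (((q : ℤ) * c : ℤ) : ℂ) * u = (c : ℂ) * (q * u) := by push_cast; ring
    rw [h1]
    exact int_mul_mem c hqu

/-- two points of order `q`: either the second is a multiple of the first, or they generate all -/
theorem dich {L : PeriodPair} {q : ℕ} (hq : q.Prime) {u u₁ : ℂ} (hu₁ : u₁ ∉ L.lattice)
    (hqu : (q : ℂ) * u ∈ L.lattice) (hqu₁ : (q : ℂ) * u₁ ∈ L.lattice) :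
    (∃ n : ℤ, u - n * u₁ ∈ L.lattice) ∨
      ∀ z : ℂ, (q : ℂ) * z ∈ L.lattice → ∃ a b : ℤ, z - a * u - b * u₁ ∈ L.lattice := by
  have hq0 : (q : ℂ) ≠ 0 := by exact_mod_cast hq.ne_zero
  obtain ⟨a₁, b₁, h1⟩ := PeriodPair.mem_lattice.1 hqu₁
  obtain ⟨a₂, b₂, h2⟩ := PeriodPair.mem_lattice.1 hqu
  have hm : ∀ m n : ℤ, (m : ℂ) * L.ω₁ + n * L.ω₂ ∈ L.lattice := fun m n =>
    PeriodPair.mem_lattice.2 ⟨m, n, rfl⟩
  by_cases hd : (q : ℤ) ∣ a₁ * b₂ - a₂ * b₁
  · left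
    obtain ⟨k, hk⟩ := hd
    have hab : ¬ ((q : ℤ) ∣ a₁ ∧ (q : ℤ) ∣ b₁) := by
      rintro ⟨⟨a, ha⟩, ⟨b, hb⟩⟩
      apply hu₁
      have h3 : u₁ = (a : ℂ) * L.ω₁ + b * L.ω₂ := by
        apply mul_left_cancel₀ hq0
        rw [← h1, ha, hb]
        push_cast
        ring
      rw [h3]
      exact hm a b
    by_cases ha : (q : ℤ) ∣ a₁
    · have hb : ¬ (q : ℤ) ∣ b₁ := fun hb => hab ⟨ha, hb⟩
      obtain ⟨s, t, hst⟩ := inv_mod hq hb
      refine ⟨s * b₂, ?_⟩
      have h3 : u - ((s * b₂ : ℤ) : ℂ) * u₁ =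
          ((-(t * a₂) - s * k : ℤ) : ℂ) * L.ω₁ + ((-(t * b₂) : ℤ) : ℂ) * L.ω₂ := by
        apply mul_left_cancel₀ hq0
        have hst' : (s : ℂ) * b₁ = 1 + q * t := by exact_mod_cast hst
        have hk' : (a₁ : ℂ) * b₂ - a₂ * b₁ = q * k := by exact_mod_cast hk
        push_cast
        linear_combination (-1 : ℂ) * h2 + (s * b₂ : ℂ) * h1 + (-(s : ℂ) * L.ω₁) * hk' +
          (-(a₂ : ℂ) * L.ω₁ - b₂ * L.ω₂) * hst'
      rw [h3]
      exact hm _ _
    · obtain ⟨s, t, hst⟩ := inv_mod hq ha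
      refine ⟨s * a₂, ?_⟩
      have h3 : u - ((s * a₂ : ℤ) : ℂ) * u₁ =
          ((-(t * a₂) : ℤ) : ℂ) * L.ω₁ + ((-(t * b₂) + s * k : ℤ) : ℂ) * L.ω₂ := by
        apply mul_left_cancel₀ hq0
        have hst' : (s : ℂ) * a₁ = 1 + q * t := by exact_mod_cast hst
        have hk' : (a₁ : ℂ) * b₂ - a₂ * b₁ = q * k := by exact_mod_cast hk
        push_cast
        linear_combination (-1 : ℂ) * h2 + (s * a₂ : ℂ) * h1 + ((s : ℂ) * L.ω₂) * hk' +
          (-(a₂ : ℂ) * L.ω₁ - b₂ * L.ω₂) * hst'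
      rw [h3]
      exact hm _ _
  · right
    obtain ⟨s, t, hst⟩ := inv_mod hq hd
    intro z hz
    obtain ⟨x, y, h3⟩ := PeriodPair.mem_lattice.1 hz
    refine ⟨s * (y * a₁ - x * b₁), s * (x * b₂ - y * a₂), ?_⟩
    have h4 : z - ((s * (y * a₁ - x * b₁) : ℤ) : ℂ) * u - ((s * (x * b₂ - y * a₂) : ℤ) : ℂ) * u₁ =
        ((-(t * x) : ℤ) : ℂ) * L.ω₁ + ((-(t * y) : ℤ) : ℂ) * L.ω₂ := by
      apply mul_left_cancel₀ hq0
      have hst' : (s : ℂ) * (a₁ * b₂ - a₂ * b₁) = 1 + q * t := by exact_mod_cast hst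
      push_cast
      linear_combination (-1 : ℂ) * h3 + (s * (y * a₁ - x * b₁) : ℂ) * h2 +
        (s * (x * b₂ - y * a₂) : ℂ) * h1 + (-(x : ℂ) * L.ω₁ - y * L.ω₂) * hst'
    rw [h4]
    exact hm _ _

/-- `(w - t)/q` is not a multiplier, for `t = r` and for `t = B - r` -/
theorem no_mult (hT : Sq_TRC) {A B : ℤ} (hC : CQ A B) {q : ℕ} (hq : q.Prime)
    (hd : ¬ (q : ℤ) ∣ B ^ 2 + 4 * A) {r : ℤ} (hr : (q : ℤ) ∣ r ^ 2 - B * r - A)
    {L : PeriodPair} (t : ℤ) (ht : t = r ∨ t = B - r) :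
    ¬ ∀ z : ℂ, (q : ℂ) * z ∈ L.lattice → (wC A B - t) * z ∈ L.lattice := by
  intro h
  have hq0 : (q : ℂ) ≠ 0 := by exact_mod_cast hq.ne_zero
  have h1 := hT A B hC L (-t) 1 q (by exact_mod_cast hq.ne_zero) one_ne_zero (fun z hz => by
    have h2 := h (z / q) (by rwa [mul_div_cancel₀ _ hq0])
    have h3 : (((-t : ℤ) : ℂ) + ((1 : ℤ) : ℂ) * wC A B) / ((q : ℤ) : ℂ) * z =
        (wC A B - t) * (z / q) := by push_cast; ring
    rw [h3]
    exact h2)
  apply hd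
  have hr' : (q : ℤ) ∣ t ^ 2 - B * t - A := by
    rcases ht with rfl | rfl
    · exact hr
    · have h2 : (B - r) ^ 2 - B * (B - r) - A = r ^ 2 - B * r - A := by ring
      rw [h2]; exact hr
  have h2 : B ^ 2 + 4 * A = (2 * -t + 1 * B) * (2 * -t + 1 * B) - 4 * (t ^ 2 - B * t - A) := by ring
  rw [h2]
  exact dvd_sub (Dvd.dvd.mul_left h1 _) (Dvd.dvd.mul_left hr' _)

/-- the half system -/
theorem half_sys {L M : PeriodPair} {mu : ℂ} {q : ℕ} (hq : q.Prime) (hq2 : q ≠ 2) {u₁ : ℂ}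
    (hu₁ : u₁ ∉ L.lattice) (hqu₁ : (q : ℂ) * u₁ ∈ L.lattice) (hm : mu * u₁ ∈ M.lattice)
    (hcyc : ∀ u : ℂ, mu * u ∈ M.lattice → ∃ n : ℤ, u - n * u₁ ∈ L.lattice) :
    ∃ H : Finset ℂ, HalfI L M mu H ∧ 2 * H.card + 1 = q := by
  classical
  have hodd : q % 2 = 1 := by
    rcases hq.eq_two_or_odd with h | h
    · exact absurd h hq2
    · exact h
  obtain ⟨k, hk⟩ : ∃ k : ℕ, q = 2 * k + 1 := ⟨q / 2, by omega⟩
  have hiff := mem_iff hq hu₁ hqu₁
  have hsmall : ∀ j : ℤ, 0 < j → j < q → (j : ℂ) * u₁ ∉ L.lattice := by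
    intro j h1 h2 h3
    have h4 := Int.le_of_dvd h1 ((hiff j).1 h3)
    omega
  obtain ⟨H, hH⟩ : ∃ H : Finset ℂ, H = (Finset.Icc 1 k).image (fun j : ℕ => (j : ℂ) * u₁) :=
    ⟨_, rfl⟩
  have hmem : ∀ p, p ∈ H ↔ ∃ j : ℕ, (1 ≤ j ∧ j ≤ k) ∧ (j : ℂ) * u₁ = p := by
    intro p
    rw [hH, Finset.mem_image]
    simp only [Finset.mem_Icc]
  have hinj : ∀ j j' : ℕ, 1 ≤ j → j ≤ k → 1 ≤ j' → j' ≤ k →
      (j : ℂ) * u₁ - j' * u₁ ∈ L.lattice → j = j' := by
    intro j j' h1 h2 h3 h4 h5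
    by_contra hne
    rcases lt_or_gt_of_ne hne with h | h
    · apply hsmall ((j' : ℤ) - j) (by omega) (by omega)
      have h6 : (((j' : ℤ) - j : ℤ) : ℂ) * u₁ = -((j : ℂ) * u₁ - j' * u₁) := by push_cast; ring
      rw [h6]
      exact neg_mem h5
    · apply hsmall ((j : ℤ) - j') (by omega) (by omega)
      have h6 : (((j : ℤ) - j' : ℤ) : ℂ) * u₁ = (j : ℂ) * u₁ - j' * u₁ := by push_cast; ring
      rw [h6]
      exact h5
  refine ⟨H, ⟨?_, ?_, ?_, ?_, ?_⟩, ?_⟩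
  · intro p hp
    obtain ⟨j, -, rfl⟩ := (hmem p).1 hp
    have h1 : mu * ((j : ℂ) * u₁) = ((j : ℤ) : ℂ) * (mu * u₁) := by push_cast; ring
    rw [h1]
    exact int_mul_mem _ hm
  · intro p hp h
    obtain ⟨j, ⟨h1, h2⟩, rfl⟩ := (hmem p).1 hp
    apply hsmall (2 * j) (by omega) (by omega)
    have h3 : ((2 * j : ℤ) : ℂ) * u₁ = 2 * ((j : ℂ) * u₁) := by push_cast; ring
    rw [h3]
    exact h
  · intro p hp p' hp' h
    obtain ⟨j, ⟨h1, h2⟩, rfl⟩ := (hmem p).1 hp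
    obtain ⟨j', ⟨h1', h2'⟩, rfl⟩ := (hmem p').1 hp'
    rw [hinj j j' h1 h2 h1' h2' h]
  · intro p hp p' hp' h
    obtain ⟨j, ⟨h1, h2⟩, rfl⟩ := (hmem p).1 hp
    obtain ⟨j', ⟨h1', h2'⟩, rfl⟩ := (hmem p').1 hp'
    apply hsmall ((j : ℤ) + j') (by omega) (by omega)
    have h3 : (((j : ℤ) + j' : ℤ) : ℂ) * u₁ = (j : ℂ) * u₁ + j' * u₁ := by push_cast; ring
    rw [h3]
    exact h
  · intro z hz hzL
    obtain ⟨n, hn⟩ := hcyc z hz
    have hq0 : (0 : ℤ) < q := by exact_mod_cast hq.pos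
    obtain ⟨ρ, hρ⟩ : ∃ ρ : ℤ, ρ = n % q := ⟨_, rfl⟩
    have hρ0 : 0 ≤ ρ := by rw [hρ]; exact Int.emod_nonneg _ hq0.ne'
    have hρq : ρ < q := by rw [hρ]; exact Int.emod_lt_of_pos _ hq0
    have hzρ : z - (ρ : ℂ) * u₁ ∈ L.lattice := by
      have h1 : z - (ρ : ℂ) * u₁ = (z - n * u₁) + ((n / q : ℤ) : ℂ) * (q * u₁) := by
        have h2 : (n : ℂ) = (q : ℂ) * ((n / q : ℤ) : ℂ) + (ρ : ℂ) := by
          have h3 : n = q * (n / q) + ρ := by rw [hρ]; exact (Int.mul_ediv_add_emod n q).symm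
          exact_mod_cast h3
        linear_combination u₁ * h2
      rw [h1]
      exact add_mem hn (int_mul_mem _ hqu₁)
    have hρne : ρ ≠ 0 := by
      intro h0
      rw [h0] at hzρ
      apply hzL
      simpa using hzρ
    obtain ⟨j, hj⟩ : ∃ j : ℕ, (j : ℤ) = ρ := ⟨ρ.toNat, Int.toNat_of_nonneg hρ0⟩
    have hjc : (ρ : ℂ) = (j : ℂ) := by rw [← hj]; push_cast; rfl
    rcases le_or_gt j k with h | h
    · refine ⟨(j : ℂ) * u₁, (hmem _).2 ⟨j, ⟨by omega, h⟩, rfl⟩, Or.inl ?_⟩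
      rw [← hjc]
      exact hzρ
    · refine ⟨((q - j : ℕ) : ℂ) * u₁, (hmem _).2 ⟨q - j, ⟨by omega, by omega⟩, rfl⟩, Or.inr ?_⟩
      have h1 : z + ((q - j : ℕ) : ℂ) * u₁ = (z - (ρ : ℂ) * u₁) + q * u₁ := by
        rw [Nat.cast_sub (by omega), hjc]
        ring
      rw [h1]
      exact add_mem hzρ hqu₁
  · have h1 : H.card = k := by
      rw [hH, Finset.card_image_of_injOn]
      · simp
      · intro j hj j' hj' h
        simp only [Finset.coe_Icc, Set.mem_Icc] at hj hj'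
        have h2 : (j : ℂ) * u₁ = j' * u₁ := h
        exact hinj j j' hj.1 hj.2 hj'.1 hj'.2 (by rw [h2, sub_self]; exact zero_mem _)
    omega

end CYQ

open _root_.Pool.Agent.MUXV.CYQ in
theorem tq_CYQ (hE : Sq_EMB) (hG : Sq_DGI) (hT : Sq_TRC) : Sq_CYQ := by
  intro A B hC Q q hq hq2 hd hcard L M mu hL hQ
  obtain ⟨r, hr, hx⟩ := hG A B Q q hq hcard
  obtain ⟨hmul, hadd, hsub, hint, hnat, hinj, hw, him, hstar, hnm, hnn, hn0, hdom⟩ := hE A B hC
  have hq0 : (q : ℂ) ≠ 0 := by exact_mod_cast hq.ne_zero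
  have hwL : ∀ z ∈ L.lattice, wC A B * z ∈ L.lattice := by
    intro z hz
    have h1 := hL ⟨0, 1⟩ z hz
    have h2 : emb (⟨0, 1⟩ : OO A B) = wC A B := by simp [emb]
    rwa [h2] at h1
  have hker : ∀ z : ℂ, mu * z ∈ M.lattice ↔
      ((q : ℂ) * z ∈ L.lattice ∧ (wC A B - r) * z ∈ L.lattice) := by
    intro z
    rw [hQ.2 z]
    constructor
    · intro h
      refine ⟨?_, ?_⟩
      · have h1 := h (⟨q, 0⟩ : OO A B) ((hx _).2 (by simp))
        have h2 : emb (⟨(q : ℤ), 0⟩ : OO A B) = q := by simp [emb]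
        rwa [h2] at h1
      · have h1 := h (⟨-r, 1⟩ : OO A B) ((hx _).2 (by simp))
        have h2 : emb (⟨-r, 1⟩ : OO A B) = wC A B - r := by simp [emb]; ring
        rwa [h2] at h1
    · rintro ⟨h1, h2⟩ x hxQ
      obtain ⟨c, hc⟩ := (hx x).1 hxQ
      have hc' : (x.re : ℂ) + x.im * r = q * c := by exact_mod_cast hc
      have h3 : emb x * z = (c : ℂ) * (q * z) + (x.im : ℂ) * ((wC A B - r) * z) := by
        unfold emb
        linear_combination z * hc'
      rw [h3]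
      exact add_mem (int_mul_mem _ h1) (int_mul_mem _ h2)
  have hcyc : ∀ u u₁ : ℂ, mu * u ∈ M.lattice → mu * u₁ ∈ M.lattice → u₁ ∉ L.lattice →
      ∃ n : ℤ, u - n * u₁ ∈ L.lattice := by
    intro u u₁ hu hu₁ hne
    obtain ⟨h1, h2⟩ := (hker u).1 hu
    obtain ⟨h3, h4⟩ := (hker u₁).1 hu₁
    rcases dich hq hne h1 h3 with h | h
    · exact h
    · exfalso
      apply no_mult hT hC hq hd hr (L := L) r (Or.inl rfl)
      intro z hz
      obtain ⟨a, b, hab⟩ := h z hz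
      have h5 : (wC A B - r) * z = wC A B * (z - a * u - b * u₁) -
          (r : ℂ) * (z - a * u - b * u₁) + ((a : ℂ) * ((wC A B - r) * u) +
          (b : ℂ) * ((wC A B - r) * u₁)) := by ring
      rw [h5]
      exact add_mem (sub_mem (hwL _ hab) (int_mul_mem _ hab))
        (add_mem (int_mul_mem _ h2) (int_mul_mem _ h4))
  refine ⟨?_, hcyc, fun u hu => ((hker u).1 hu).1, ?_⟩
  · intro w hw'
    exact (hQ.2 w).2 (fun x _ => hL x w hw')
  · obtain ⟨u₁, hu₁, hne⟩ : ∃ u₁ : ℂ, mu * u₁ ∈ M.lattice ∧ u₁ ∉ L.lattice := by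
      by_contra hcon
      push Not at hcon
      apply no_mult hT hC hq hd hr (L := L) (B - r) (Or.inr rfl)
      intro z hz
      apply hcon
      obtain ⟨k, hk⟩ := hr
      have hk' : (r : ℂ) ^ 2 - B * r - A = q * k := by exact_mod_cast hk
      refine (hker _).2 ⟨?_, ?_⟩
      · have h1 : (q : ℂ) * ((wC A B - ((B - r : ℤ) : ℂ)) * z) =
            wC A B * (q * z) - ((B - r : ℤ) : ℂ) * (q * z) := by ring
        rw [h1]
        exact sub_mem (hwL _ hz) (int_mul_mem _ hz)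
      · have h1 : (wC A B - r) * ((wC A B - ((B - r : ℤ) : ℂ)) * z) =
            ((-k : ℤ) : ℂ) * (q * z) := by
          push_cast
          linear_combination z * hw - z * hk'
        rw [h1]
        exact int_mul_mem _ hz
    exact half_sys hq hq2 hne ((hker u₁).1 hu₁).1 hu₁ (fun u hu => hcyc u u₁ hu hu₁ hne)

end

end Pool.Agent.MUXV


end

section

/-!
# MUX, block R: module FRN (normalised lattices: the Frobenius congruence)
-/

set_option autoImplicit false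

open WeierstrassCurve Polynomial

namespace Pool.Agent.MUXV

open _root_.Pool.Agent.MU3B _root_.Pool.Agent.MUXU

noncomputable section

namespace FRN

lemma int_pow {F : Type*} [Field F] (q : ℕ) [Fact q.Prime] [CharP F q] (n : ℤ) :
    (n : F) ^ q = n := by
  have h := map_intCast (frobenius F q) n
  rwa [frobenius_def] at h

/-- the computation in the residue field -/
lemma coreF {F : Type*} [Field F] (q : ℕ) [Fact q.Prime] [CharP F q]
    (h2 : (2 : F) ≠ 0) (h3 : (3 : F) ≠ 0) {A B A' B' k T T' : F}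
    (hA : A = -18 * B) (hA' : A' = -18 * B') (hA0 : A' ≠ 0) (hk : k ≠ 0)
    (e2 : A ^ q = k ^ 2 * A') (e3 : B ^ q = k ^ 3 * B')
    (hT : 1728 * T = 48 * A - 1) (hT' : 1728 * T' = 48 * A' - 1) :
    k = 1 ∧ T' = T ^ q := by
  have i1 : (-18 : F) ^ q = -18 := by simpa using int_pow (F := F) q (-18)
  have i2 : (1728 : F) ^ q = 1728 := by simpa using int_pow (F := F) q 1728
  have i3 : (48 : F) ^ q = 48 := by simpa using int_pow (F := F) q 48
  have n1 : (1728 : F) ≠ 0 := by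
    have : (1728 : F) = 2 ^ 6 * 3 ^ 3 := by norm_num
    rw [this]
    exact mul_ne_zero (pow_ne_zero _ h2) (pow_ne_zero _ h3)
  have hk1 : k = 1 := by
    have h := e2
    rw [hA, mul_pow, i1, e3, hA'] at h
    have h' : k ^ 2 * A' * (k - 1) = 0 := by
      rw [hA']
      linear_combination h
    rcases mul_eq_zero.1 h' with h5 | h5
    · exact absurd h5 (mul_ne_zero (pow_ne_zero _ hk) hA0)
    · exact sub_eq_zero.1 h5
  refine ⟨hk1, ?_⟩
  have h := congrArg (fun x => x ^ q) hT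
  simp only [mul_pow, sub_pow_char, i2, i3, one_pow, e2, hk1, one_mul] at h
  apply mul_left_cancel₀ n1
  rw [h, hT']

lemma coreX {F : Type*} [Field F] (q : ℕ) [Fact q.Prime] [CharP F q]
    (h2 : (2 : F) ≠ 0) (h3 : (3 : F) ≠ 0) {c X X' : F} (hc : 12 * c = 1)
    (h : X' + c = (X + c) ^ q) : X' = X ^ q := by
  have i1 : (12 : F) ^ q = 12 := by simpa using int_pow (F := F) q 12
  have n1 : (12 : F) ≠ 0 := by
    have : (12 : F) = 2 ^ 2 * 3 := by norm_num
    rw [this]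
    exact mul_ne_zero (pow_ne_zero _ h2) h3
  have hcq : c ^ q = c := by
    have h' := congrArg (fun x => x ^ q) hc
    simp only [mul_pow, i1, one_pow] at h'
    apply mul_left_cancel₀ n1
    rw [h', hc]
  rw [add_pow_char, hcq] at h
  exact add_right_cancel h

lemma res_eq_iff (V : ValuationSubring ℂ) (a b : V) :
    IsLocalRing.residue V a = IsLocalRing.residue V b ↔ V.valuation ((a : ℂ) - b) < 1 := by
  rw [← sub_eq_zero, ← map_sub, IsLocalRing.residue_eq_zero_iff,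
    ValuationSubring.valuation_lt_one_iff]
  rfl

lemma res_ne_iff (V : ValuationSubring ℂ) (a : V) :
    IsLocalRing.residue V a ≠ 0 ↔ V.valuation (a : ℂ) = 1 := by
  rw [Ne, IsLocalRing.residue_eq_zero_iff, ValuationSubring.valuation_lt_one_iff, not_lt]
  constructor
  · intro h
    exact le_antisymm ((ValuationSubring.valuation_le_one_iff _ _).2 a.2) h
  · intro h
    exact h.ge

lemma nat_ne (V : ValuationSubring ℂ) (n : ℕ) (h : V.valuation (n : ℂ) = 1) :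
    ((n : ℕ) : IsLocalRing.ResidueField V) ≠ 0 := by
  have h' := (res_ne_iff V (n : V)).2 (by simpa using h)
  rwa [map_natCast] at h'

lemma charP (V : ValuationSubring ℂ) (q : ℕ) (hqp : q.Prime) (hvq : V.valuation (q : ℂ) < 1) :
    CharP (IsLocalRing.ResidueField V) q := by
  have hq0 : ((q : ℕ) : IsLocalRing.ResidueField V) = 0 := by
    have h := (res_eq_iff V (q : V) 0).2 (by simpa using hvq)
    rw [map_zero, map_natCast] at h
    exact h
  exact (CharP.charP_iff_prime_eq_zero hqp).2 hq0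

/-- the same computation, modulo the maximal ideal of `V` -/
lemma coreV (V : ValuationSubring ℂ) (q : ℕ) (hqp : q.Prime)
    (hvq : V.valuation (q : ℂ) < 1) (v2 : V.valuation (2 : ℂ) = 1)
    (v3 : V.valuation (3 : ℂ) = 1) {A B A' B' k T T' : ℂ}
    (mB : B ∈ V) (mB' : B' ∈ V) (mT : T ∈ V) (mT' : T' ∈ V) (mk : k ∈ V)
    (hA : A = -18 * B) (hA' : A' = -18 * B') (hA0 : V.valuation A' = 1)
    (hk : V.valuation k = 1)
    (e2 : V.valuation (A ^ q - k ^ 2 * A') < 1) (e3 : V.valuation (B ^ q - k ^ 3 * B') < 1)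
    (hT : 1728 * T = 48 * A - 1) (hT' : 1728 * T' = 48 * A' - 1) :
    V.valuation (k - 1) < 1 ∧ V.valuation (T' - T ^ q) < 1 := by
  have mA : A ∈ V := by
    rw [hA]
    exact mul_mem (by exact_mod_cast intCast_mem V (-18)) mB
  have mA' : A' ∈ V := by
    rw [hA']
    exact mul_mem (by exact_mod_cast intCast_mem V (-18)) mB'
  obtain ⟨A, rfl⟩ : ∃ a : V, (a : ℂ) = A := ⟨⟨A, mA⟩, rfl⟩
  obtain ⟨A', rfl⟩ : ∃ a : V, (a : ℂ) = A' := ⟨⟨A', mA'⟩, rfl⟩
  obtain ⟨B, rfl⟩ : ∃ a : V, (a : ℂ) = B := ⟨⟨B, mB⟩, rfl⟩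
  obtain ⟨B', rfl⟩ : ∃ a : V, (a : ℂ) = B' := ⟨⟨B', mB'⟩, rfl⟩
  obtain ⟨T, rfl⟩ : ∃ a : V, (a : ℂ) = T := ⟨⟨T, mT⟩, rfl⟩
  obtain ⟨T', rfl⟩ : ∃ a : V, (a : ℂ) = T' := ⟨⟨T', mT'⟩, rfl⟩
  obtain ⟨k, rfl⟩ : ∃ a : V, (a : ℂ) = k := ⟨⟨k, mk⟩, rfl⟩
  have : Fact q.Prime := ⟨hqp⟩
  have := charP V q hqp hvq
  have h2' : (2 : IsLocalRing.ResidueField V) ≠ 0 := by
    have h := nat_ne V 2 (by exact_mod_cast v2)
    exact_mod_cast h
  have h3' : (3 : IsLocalRing.ResidueField V) ≠ 0 := by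
    have h := nat_ne V 3 (by exact_mod_cast v3)
    exact_mod_cast h
  have a1 : A = -18 * B := Subtype.ext (by push_cast; exact hA)
  have a2 : A' = -18 * B' := Subtype.ext (by push_cast; exact hA')
  have a3 : 1728 * T = 48 * A - 1 := Subtype.ext (by push_cast; exact hT)
  have a4 : 1728 * T' = 48 * A' - 1 := Subtype.ext (by push_cast; exact hT')
  have key := coreF (F := IsLocalRing.ResidueField V) q h2' h3'
    (A := IsLocalRing.residue V A) (B := IsLocalRing.residue V B)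
    (A' := IsLocalRing.residue V A') (B' := IsLocalRing.residue V B')
    (k := IsLocalRing.residue V k)
    (T := IsLocalRing.residue V T) (T' := IsLocalRing.residue V T')
    (by rw [a1, map_mul, map_neg, map_ofNat])
    (by rw [a2, map_mul, map_neg, map_ofNat])
    ((res_ne_iff V A').2 hA0)
    ((res_ne_iff V k).2 hk)
    (by
      rw [← map_pow, ← map_pow, ← map_mul, res_eq_iff]
      push_cast
      exact e2)
    (by
      rw [← map_pow, ← map_pow, ← map_mul, res_eq_iff]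
      push_cast
      exact e3)
    (by
      have h := congrArg (IsLocalRing.residue V) a3
      rwa [map_mul, map_ofNat, map_sub, map_mul, map_ofNat, map_one] at h)
    (by
      have h := congrArg (IsLocalRing.residue V) a4
      rwa [map_mul, map_ofNat, map_sub, map_mul, map_ofNat, map_one] at h)
  obtain ⟨k1, k2⟩ := key
  constructor
  · rw [← map_one (IsLocalRing.residue V), res_eq_iff] at k1
    push_cast at k1
    exact k1
  · rw [← map_pow, res_eq_iff] at k2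
    push_cast at k2
    exact k2

lemma coreXV (V : ValuationSubring ℂ) (q : ℕ) (hqp : q.Prime)
    (hvq : V.valuation (q : ℂ) < 1) (v2 : V.valuation (2 : ℂ) = 1)
    (v3 : V.valuation (3 : ℂ) = 1) {c X X' : ℂ}
    (mc : c ∈ V) (mX : X ∈ V) (mX' : X' ∈ V) (hc : 12 * c = 1)
    (h : V.valuation ((X' + c) - (X + c) ^ q) < 1) : V.valuation (X' - X ^ q) < 1 := by
  obtain ⟨c, rfl⟩ : ∃ a : V, (a : ℂ) = c := ⟨⟨c, mc⟩, rfl⟩
  obtain ⟨X, rfl⟩ : ∃ a : V, (a : ℂ) = X := ⟨⟨X, mX⟩, rfl⟩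
  obtain ⟨X', rfl⟩ : ∃ a : V, (a : ℂ) = X' := ⟨⟨X', mX'⟩, rfl⟩
  have : Fact q.Prime := ⟨hqp⟩
  have := charP V q hqp hvq
  have h2' : (2 : IsLocalRing.ResidueField V) ≠ 0 := by
    have h := nat_ne V 2 (by exact_mod_cast v2)
    exact_mod_cast h
  have h3' : (3 : IsLocalRing.ResidueField V) ≠ 0 := by
    have h := nat_ne V 3 (by exact_mod_cast v3)
    exact_mod_cast h
  have a1 : 12 * c = 1 := Subtype.ext (by push_cast; exact hc)
  have key := coreX (F := IsLocalRing.ResidueField V) q h2' h3'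
    (c := IsLocalRing.residue V c) (X := IsLocalRing.residue V X)
    (X' := IsLocalRing.residue V X')
    (by
      have h := congrArg (IsLocalRing.residue V) a1
      rwa [map_mul, map_ofNat, map_one] at h)
    (by
      rw [← map_add, ← map_add, ← map_pow, res_eq_iff]
      push_cast
      exact h)
  rw [← map_pow, res_eq_iff] at key
  push_cast at key
  exact key

end FRN

open _root_.Pool.Agent.MUXV.FRN in
theorem tx_FRN (h : Sx_R5) : Sx_FRN := by
  intro V L M mu q H hI v3 hvq hvmu hL hM vL vM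
  obtain ⟨WL, ξL, gL⟩ := hI.redL
  have v2 : V.valuation 2 = 1 := gL.two
  have v12 : V.valuation (12 : ℂ) = 1 := by
    have e : (12 : ℂ) = 2 ^ 2 * 3 := by norm_num
    rw [e, map_mul, map_pow, v2, v3, one_pow, one_mul]
  have v48 : V.valuation (48 : ℂ) = 1 := by
    have e : (48 : ℂ) = 2 ^ 4 * 3 := by norm_num
    rw [e, map_mul, map_pow, v2, v3, one_pow, one_mul]
  have v1728 : V.valuation (1728 : ℂ) = 1 := by
    have e : (1728 : ℂ) = 2 ^ 6 * 3 ^ 3 := by norm_num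
    rw [e, map_mul, map_pow, map_pow, v2, v3, one_pow, one_pow, one_mul]
  have v864 : V.valuation (864 : ℂ) = 1 := by
    have e : (864 : ℂ) = 2 ^ 5 * 3 ^ 3 := by norm_num
    rw [e, map_mul, map_pow, map_pow, v2, v3, one_pow, one_pow, one_mul]
  have mc : (1 / 12 : ℂ) ∈ V := by
    rw [← ValuationSubring.valuation_le_one_iff, map_div₀, map_one, v12, div_one]
  obtain ⟨κ, hκ, i2, i3, hz⟩ := h V L M (1 / 12) (1 / 12) mu q H hI v3 mc mc hvq hvmu
  have mκ : κ ∈ V := (ValuationSubring.valuation_le_one_iff _ _).1 hκ.le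
  have mg3 : ∀ N : PeriodPair, N.g₂ = -18 * N.g₃ → V.valuation (12 * N.g₂) = 1 →
      N.g₃ / 4 ∈ V ∧ V.valuation (N.g₂ / 4) = 1 ∧ (12 * N.g₂ - 1) / 1728 ∈ V := by
    intro N hN vN
    refine ⟨?_, ?_, ?_⟩
    · have e : N.g₃ / 4 = -(12 * N.g₂ / 864) := by rw [hN]; ring
      rw [← ValuationSubring.valuation_le_one_iff, e, Valuation.map_neg, map_div₀, vN, v864,
        div_one]
    · have e : N.g₂ / 4 = 12 * N.g₂ / 48 := by ring
      rw [e, map_div₀, vN, v48, div_one]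
    · rw [← ValuationSubring.valuation_le_one_iff, map_div₀, v1728, div_one,
        ValuationSubring.valuation_le_one_iff]
      exact sub_mem ((ValuationSubring.valuation_le_one_iff _ _).1 vN.le) (one_mem _)
  obtain ⟨l1, l2, l3⟩ := mg3 L hL vL
  obtain ⟨m1, m2, m3⟩ := mg3 M hM vM
  obtain ⟨k1, k2⟩ := coreV V q hI.prime hvq v2 v3 (A := L.g₂ / 4) (B := L.g₃ / 4)
    (A' := M.g₂ / 4) (B' := M.g₃ / 4) (k := κ) (T := kp L) (T' := kp M) l1 m1 l3 m3 mκ
    (by rw [hL]; ring) (by rw [hM]; ring) m2 hκ i2 i3 (by unfold kp; ring) (by unfold kp; ring)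
  refine ⟨k2, ?_⟩
  intro z hzK
  obtain ⟨z1, z2⟩ := hz z hzK
  refine ⟨z1, ?_⟩
  have mX : L.weierstrassP z - 1 / 12 ∈ V :=
    (ValuationSubring.valuation_le_one_iff _ _).1 (int_X hzK).2
  have mX' : M.weierstrassP (mu * z) - 1 / 12 ∈ V :=
    (ValuationSubring.valuation_le_one_iff _ _).1 (int_X z1).2
  have mP : M.weierstrassP (mu * z) ∈ V := by
    have := add_mem mX' mc
    rwa [sub_add_cancel] at this
  refine coreXV V q hI.prime hvq v2 v3 mc mX mX' (by norm_num) ?_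
  rw [sub_add_cancel, sub_add_cancel]
  have e : M.weierstrassP (mu * z) - L.weierstrassP z ^ q =
      (κ * M.weierstrassP (mu * z) - L.weierstrassP z ^ q) -
        (κ - 1) * M.weierstrassP (mu * z) := by ring
  rw [e]
  refine Valuation.map_sub_lt _ z2 ?_
  rw [map_mul]
  exact lt_of_le_of_lt (mul_le_of_le_one_right' ((ValuationSubring.valuation_le_one_iff _ _).2 mP)) k1

end

end Pool.Agent.MUXV


end

section

/-!
# MUX, block E: module PT, the points of level `m`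
-/

set_option autoImplicit false

namespace Pool.Agent.MEE

open _root_.MU3 _root_.Pool.Agent.MU3A _root_.Pool.Agent.MU3B _root_.Pool.Agent.MUX _root_.Pool.Agent.MUXU _root_.Pool.Agent.RI
open _root_.Pool.Agent.ME hiding ActE
open _root_.Pool.Agent.MUXE (RingE)

noncomputable section

private lemma pt_inj_MEX_PT {A B : ℤ} (hR : RingE A B) (x y : OO A B) (h : emb x = emb y) : x = y := by
  obtain ⟨φ, hφ⟩ := hR.hom
  have h1 : emb (x - y) = 0 := by
    rw [← hφ, map_sub, hφ, hφ, h, sub_self]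
  exact sub_eq_zero.1 (hR.inj0 _ h1)

private lemma pt_nI_MEX_PT {A B : ℤ} (hR : RingE A B) (b : Ideal (OO A B)) (hb : b ≠ ⊥) :
    nI b ≠ 0 ∧ ((nI b : ℕ) : OO A B) ∈ b := by
  have := hR.ded
  refine ⟨?_, ?_⟩
  · change Ideal.absNorm b ≠ 0
    rw [Ne, Ideal.absNorm_eq_zero_iff]
    exact hb
  · change ((Ideal.absNorm b : ℕ) : OO A B) ∈ b
    exact Ideal.absNorm_mem b

private lemma pt_cop_MEX_PT {N n r : ℕ} (h : N.Coprime n) (hr : r ≠ 0)
    (hs : r.primeFactors ⊆ n.primeFactors) : ∃ s t : ℤ, s * N + t * r = 1 := by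
  have h1 : N.Coprime r := by
    apply Nat.Coprime.symm
    apply Nat.coprime_of_dvd
    intro q hq hqr hqN
    have h2 := hs (Nat.mem_primeFactors.2 ⟨hq, hqr, hr⟩)
    have h3 := Nat.dvd_of_mem_primeFactors h2
    exact Nat.Prime.not_coprime_iff_dvd.2 ⟨q, hq, hqN, h3⟩ h
  obtain ⟨s, t, h2⟩ := Nat.isCoprime_iff_coprime.2 h1
  exact ⟨s, t, h2⟩

theorem tm_PT (_ : Sme_TRA) : Sme_PT := by
  intro A B hR n ι R _ i
  obtain ⟨φ, hφ⟩ := hR.hom
  have hnl := R.nl i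
  have hnl0 := R.nl R.i0
  obtain ⟨hN0, hNb⟩ := pt_nI_MEX_PT hR (R.b i) hnl.b_ne
  have hNC : ((nI (R.b i) : ℕ) : ℂ) ≠ 0 := by exact_mod_cast hN0
  have hom : R.om i ≠ 0 := hnl.om_ne
  have hom0 : R.om R.i0 ≠ 0 := hnl0.om_ne
  have heN : ∀ k : ℕ, emb ((k : ℕ) : OO A B) = (k : ℂ) := fun k => by rw [← hφ, map_natCast]
  have heZ : ∀ k : ℤ, emb ((k : ℤ) : OO A B) = (k : ℂ) := fun k => by rw [← hφ, map_intCast]
  have hem : ∀ x y : OO A B, emb (x * y) = emb x * emb y := fun x y => by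
    rw [← hφ, ← hφ, ← hφ, map_mul]
  have hea : ∀ x y : OO A B, emb (x + y) = emb x + emb y := fun x y => by
    rw [← hφ, ← hφ, ← hφ, map_add]
  have hL0 : ∀ z, z ∈ (R.L R.i0).lattice ↔ ∃ x : OO A B, z = R.om R.i0 * emb x := by
    intro z
    rw [hnl0.mem, R.b0]
    simp
  have hLi := hnl.mem
  refine ⟨?_, ?_, ?_, ?_⟩
  · unfold muXE
    exact div_ne_zero (mul_ne_zero hom hNC) hom0
  · intro u hu
    obtain ⟨x, rfl⟩ := (hL0 u).1 hu
    rw [hLi]
    refine ⟨(nI (R.b i) : ℕ) * x, (R.b i).mul_mem_right _ hNb, ?_⟩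
    rw [hem, heN]
    unfold muXE
    field_simp
  · intro r hr hs u hru hmu
    obtain ⟨s, t, hst⟩ := pt_cop_MEX_PT (R.cop i) hr hs
    obtain ⟨x, hx⟩ := (hL0 _).1 hru
    obtain ⟨y, -, hy⟩ := (hLi _).1 hmu
    have h1 : (nI (R.b i) : ℂ) * u = R.om R.i0 * emb y := by
      unfold muXE at hy
      field_simp at hy
      linear_combination hy
    have h2 : (s : ℂ) * nI (R.b i) + t * r = 1 := by exact_mod_cast hst
    rw [hL0]
    refine ⟨(s : OO A B) * y + (t : OO A B) * x, ?_⟩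
    rw [hea, hem, hem, heZ, heZ]
    linear_combination (-u) * h2 + (s : ℂ) * h1 + (t : ℂ) * hx
  · intro m hm hs x
    have hmC : (m : ℂ) ≠ 0 := by exact_mod_cast hm
    refine ⟨?_, ?_, ?_, ?_⟩
    · unfold ptE muXE
      field_simp
    · rw [hLi]
      refine ⟨(nI (R.b i) : ℕ) * x, (R.b i).mul_mem_right _ hNb, ?_⟩
      rw [hem, heN]
      unfold ptE
      field_simp
    · intro hx c hc
      obtain ⟨y, -, hy⟩ := (hLi _).1 hc
      have h1 : ((c : ℕ) : OO A B) * ((nI (R.b i) : ℕ) : OO A B) * x = (m : ℕ) * y := by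
        apply pt_inj_MEX_PT hR
        rw [hem, hem, hem, heN, heN, heN]
        unfold ptE at hy
        field_simp at hy
        linear_combination hy
      obtain ⟨s, t, hst⟩ := pt_cop_MEX_PT (R.cop i) hm hs
      have h2 : (s : OO A B) * ((nI (R.b i) : ℕ) : OO A B) + (t : OO A B) * (m : ℕ) = 1 := by
        have := congrArg (fun k : ℤ => (k : OO A B)) hst
        push_cast at this
        exact this
      have h3 : ((m : ℕ) : OO A B) ∣ x * (c : ℕ) := by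
        refine ⟨(s : OO A B) * y + (t : OO A B) * (c : ℕ) * x, ?_⟩
        linear_combination (-(x * ((c : ℕ) : OO A B))) * h2 + (s : OO A B) * h1
      have h4 : ((m : ℕ) : OO A B) ∣ ((c : ℕ) : OO A B) := hx.symm.dvd_of_dvd_mul_left h3
      obtain ⟨z, hz⟩ := h4
      have h5 : (c : ℤ) = (m : ℤ) * z.re := by
        have := congrArg QuadraticAlgebra.re hz
        simpa using this
      exact Int.natCast_dvd_natCast.1 ⟨z.re, h5⟩
    · intro x'
      rw [hL0]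
      constructor
      · rintro ⟨y, hy⟩
        refine ⟨y, ?_⟩
        apply pt_inj_MEX_PT hR
        rw [hem, heN]
        field_simp at hy
        linear_combination hy
      · rintro ⟨y, rfl⟩
        refine ⟨y, ?_⟩
        rw [hem, heN]
        field_simp

end

end Pool.Agent.MEE


end

section

/-!
# MUX, block E: module TRB, existence of torsion points, points killed by a maximal ideal
-/

set_option autoImplicit false

namespace Pool.Agent.MEE

open _root_.MU3 _root_.Pool.Agent.MU3A _root_.Pool.Agent.MU3B _root_.Pool.Agent.MUX _root_.Pool.Agent.MUXU _root_.Pool.Agent.RI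
open _root_.Pool.Agent.ME hiding ActE
open _root_.Pool.Agent.MUXE (RingE)

noncomputable section

private lemma trb_inj_MEX_TRB {A B : ℤ} (hR : RingE A B) (x y : OO A B) (h : emb x = emb y) : x = y := by
  obtain ⟨φ, hφ⟩ := hR.hom
  have h1 : emb (x - y) = 0 := by
    rw [← hφ, map_sub, hφ, hφ, h, sub_self]
  exact sub_eq_zero.1 (hR.inj0 _ h1)

private lemma trb_key_MEX_TRB {A B : ℤ} (hR : RingE A B) {b : Ideal (OO A B)} {L : PeriodPair} {om : ℂ}
    (hL : IsNE b L om) (N : ℕ) (hN : 0 < N) (y t : OO A B) :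
    emb t * (om * emb y / N) ∈ L.lattice ↔ t * y ∈ sp (N : OO A B) * b := by
  obtain ⟨φ, hφ⟩ := hR.hom
  have hN' : (N : ℂ) ≠ 0 := by
    have : N ≠ 0 := by omega
    exact_mod_cast this
  have hom : om ≠ 0 := hL.om_ne
  have hNe : emb ((N : ℕ) : OO A B) = (N : ℂ) := by
    rw [← hφ, map_natCast]
  rw [hL.mem, Ideal.mem_span_singleton_mul]
  constructor
  · rintro ⟨u, hu, h⟩
    refine ⟨u, hu, ?_⟩
    apply trb_inj_MEX_TRB hR
    rw [← hφ (N * u), ← hφ (t * y), map_mul, map_mul, hφ, hφ, hφ, hφ, hNe]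
    field_simp at h
    rw [h]
  · rintro ⟨u, hu, h⟩
    refine ⟨u, hu, ?_⟩
    have h1 : (N : ℂ) * emb u = emb t * emb y := by
      rw [← hNe, ← hφ, ← hφ, ← hφ, ← hφ, ← map_mul, ← map_mul, h]
    field_simp
    rw [← h1]

private lemma trb_cancel_MEX_TRB {A B : ℤ} (hR : RingE A B) (I J K : Ideal (OO A B)) (hK : K ≠ ⊥)
    (h : I * K ≤ J * K) : I ≤ J := by
  have := hR.ded
  have h1 : J * K ∣ I * K := Ideal.dvd_iff_le.2 h
  exact Ideal.dvd_iff_le.1 ((mul_dvd_mul_iff_right (c := K) hK).1 h1)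

private lemma trb_fac_MEX_TRB {A B : ℤ} (hR : RingE A B) (I : Ideal (OO A B)) (N : ℕ) (hN : 0 < N)
    (h : (N : OO A B) ∈ I) : ∃ c : Ideal (OO A B), sp (N : OO A B) = I * c ∧ c ≠ ⊥ := by
  have := hR.ded
  obtain ⟨φ, hφ⟩ := hR.hom
  have h1 : I ∣ sp (N : OO A B) := Ideal.dvd_span_singleton.2 h
  obtain ⟨c, hc⟩ := h1
  refine ⟨c, hc, ?_⟩
  rintro rfl
  rw [Ideal.mul_bot, Ideal.span_singleton_eq_bot] at hc
  have h2 : φ ((N : ℕ) : OO A B) = 0 := by rw [hc, map_zero]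
  rw [map_natCast] at h2
  have : N = 0 := by exact_mod_cast h2
  omega

private lemma trb_ne_MEX_TRB {A B : ℤ} (hR : RingE A B) (I J : Ideal (OO A B)) (hI : I ≠ ⊥) (hJ : J ≠ ⊥) :
    I * J ≠ ⊥ := by
  have := hR.ded
  intro h
  rcases mul_eq_zero.1 (show I * J = 0 from h) with h | h
  · exact hI h
  · exact hJ h

theorem tm_TRB : Sme_TRB := by
  intro A B hR L hL
  obtain ⟨b, om, hL⟩ := hL
  have := hR.ded
  refine ⟨?_, ?_⟩
  · intro m m' hm' hlt
    obtain ⟨N, hN, hNm⟩ := hR.pos m' hm'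
    obtain ⟨c, hc, hc0⟩ := trb_fac_MEX_TRB hR m' N hN hNm
    have h1 : ¬ m * (c * b) ≤ m' * (c * b) := by
      intro h
      exact absurd (trb_cancel_MEX_TRB hR _ _ _ (trb_ne_MEX_TRB hR c b hc0 hL.b_ne) h) (not_le_of_gt hlt)
    rw [Ideal.mul_le] at h1
    push Not at h1
    obtain ⟨x, hx, y, hy, hxy⟩ := h1
    have h2 : m' * (c * b) = sp (N : OO A B) * b := by rw [hc, mul_assoc]
    refine ⟨om * emb y / N, ?_, ?_⟩
    · intro t ht
      rw [trb_key_MEX_TRB hR hL N hN, ← h2]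
      exact Ideal.mul_mem_mul ht hy
    · intro h
      have h3 := h x hx
      rw [trb_key_MEX_TRB hR hL N hN, ← h2] at h3
      exact hxy h3
  · intro Q hQ hmax z w hz hw hzL
    obtain ⟨φ, hφ⟩ := hR.hom
    obtain ⟨N, hN, hNQ⟩ := hR.pos Q hQ
    have hN' : (N : ℂ) ≠ 0 := by
      have : N ≠ 0 := by omega
      exact_mod_cast this
    obtain ⟨c, hc, hc0⟩ := trb_fac_MEX_TRB hR Q N hN hNQ
    have hNe : emb ((N : ℕ) : OO A B) = (N : ℂ) := by
      rw [← hφ, map_natCast]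
    have hone : emb (1 : OO A B) = 1 := by rw [← hφ, map_one]
    obtain ⟨c₁, hc₁, hc₁'⟩ := (hL.mem _).1 (hz _ hNQ)
    obtain ⟨c₂, hc₂, hc₂'⟩ := (hL.mem _).1 (hw _ hNQ)
    rw [hNe] at hc₁' hc₂'
    have hz' : z = om * emb c₁ / N := by
      field_simp
      rw [← hc₁']
      ring
    have hw' : w = om * emb c₂ / N := by
      field_simp
      rw [← hc₂']
      ring
    set K : Ideal (OO A B) := c * b with hK
    have hK0 : K ≠ ⊥ := trb_ne_MEX_TRB hR c b hc0 hL.b_ne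
    have h2 : Q * K = sp (N : OO A B) * b := by rw [hc, mul_assoc]
    have h3 : ∀ d : OO A B, (∀ q ∈ Q, q * d ∈ Q * K) → sp d ⊔ Q * K ≤ K := by
      intro d hd
      refine sup_le ?_ Ideal.mul_le_right
      apply trb_cancel_MEX_TRB hR _ _ Q hQ
      rw [mul_comm, mul_comm K Q, Ideal.mul_le]
      intro q hq r hr
      obtain ⟨s, rfl⟩ := Ideal.mem_span_singleton.1 hr
      have h10 : q * (d * s) = (q * d) * s := (mul_assoc _ _ _).symm
      rw [h10]
      exact Ideal.mul_mem_right _ _ (hd q hq)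
    have hd1 : ∀ q ∈ Q, q * c₁ ∈ Q * K := by
      intro q hq
      rw [h2, ← trb_key_MEX_TRB hR hL N hN, ← hz']
      exact hz q hq
    have hd2 : ∀ q ∈ Q, q * c₂ ∈ Q * K := by
      intro q hq
      rw [h2, ← trb_key_MEX_TRB hR hL N hN, ← hw']
      exact hw q hq
    have hn1 : c₁ ∉ Q * K := by
      intro h
      rw [h2] at h
      have h4 : (1 : OO A B) * c₁ ∈ sp (N : OO A B) * b := by rwa [one_mul]
      rw [← trb_key_MEX_TRB hR hL N hN, ← hz', hone, one_mul] at h4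
      exact hzL h4
    have h5 := h3 c₁ hd1
    have h6 := h3 c₂ hd2
    obtain ⟨J', hJ'⟩ := Ideal.dvd_iff_le.2 h5
    have h7 : Q ≤ J' := by
      apply trb_cancel_MEX_TRB hR _ _ K hK0
      rw [mul_comm J' K, ← hJ']
      exact le_sup_right
    have h8 : J' = ⊤ := by
      by_contra hne
      have h9 : Q = J' := hmax.eq_of_le hne h7
      apply hn1
      have h10 : Q * K = sp c₁ ⊔ Q * K := by
        rw [hJ', ← h9, mul_comm]
      rw [h10]
      exact (le_sup_left : sp c₁ ≤ _) (Ideal.mem_span_singleton_self c₁)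
    have h9 : c₂ ∈ sp c₁ ⊔ Q * K := by
      rw [hJ', h8, Ideal.mul_top]
      exact h6 ((le_sup_left : sp c₂ ≤ _) (Ideal.mem_span_singleton_self c₂))
    rw [Submodule.mem_sup] at h9
    obtain ⟨u, hu, v, hv, huv⟩ := h9
    obtain ⟨x, rfl⟩ := Ideal.mem_span_singleton.1 hu
    rw [h2, Ideal.mem_span_singleton_mul] at hv
    obtain ⟨d, hd, rfl⟩ := hv
    refine ⟨x, (hL.mem _).2 ⟨d, hd, ?_⟩⟩
    have h11 : emb c₂ = emb c₁ * emb x + N * emb d := by
      rw [← hφ c₂, ← huv, map_add, map_mul, map_mul, map_natCast, hφ, hφ, hφ]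
    rw [hz', hw', h11]
    field_simp
    ring

end

end Pool.Agent.MEE


end
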