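import Mathlib
import Pool.Agent.MVF.C024
import Pool.Agent.MVF.C026

/-! Parts: MUX.F_NIM, MUX.F_IDL, MUX.XLib, NS.StTN, NS.T_VAL, NS.T_ALT, MUX.E_PT, NS.StTR -/

namespace Pool.Agent.MUXF.IDL
end Pool.Agent.MUXF.IDL
namespace Pool.Agent.MUXF.NimX
end Pool.Agent.MUXF.NimX
namespace Pool.Agent.NST
end Pool.Agent.NST
namespace Pool.Agent.NST.ALT
end Pool.Agent.NST.ALT
namespace Pool.Agent.NST.VAL
end Pool.Agent.NST.VAL

section

/-!
# MUX, block XF, module NIM (helper83): norms of ideals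
-/

set_option autoImplicit false

namespace Pool.Agent.MUXF

open _root_.MU3 _root_.Pool.Agent.MU3A _root_.Pool.Agent.MU3B _root_.Pool.Agent.MU3F _root_.Pool.Agent.MuSym OnePoint
open scoped ComplexConjugate

noncomputable section

namespace NimX

variable {A B : ℤ}

theorem mem_cjI (b : Ideal (OO A B)) (x : OO A B) : x ∈ cjI b ↔ star x ∈ b := by
  unfold cjI
  rw [Ideal.mem_comap, starRingEnd_apply]

theorem cjI_cjI (b : Ideal (OO A B)) : cjI (cjI b) = b := by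
  ext x
  rw [mem_cjI, mem_cjI, star_star]

theorem cjI_eq_map (b : Ideal (OO A B)) : cjI b = b.map (starRingEnd (OO A B)) := by
  ext x
  have hs : Function.Surjective (starRingEnd (OO A B)) := fun y =>
    ⟨star y, by rw [starRingEnd_apply, star_star]⟩
  rw [mem_cjI, Ideal.mem_map_iff_of_surjective _ hs]
  constructor
  · intro h
    exact ⟨star x, h, by rw [starRingEnd_apply, star_star]⟩
  · rintro ⟨y, hy, rfl⟩
    rw [starRingEnd_apply, star_star]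
    exact hy

theorem cjI_mul (b c : Ideal (OO A B)) : cjI (b * c) = cjI b * cjI c := by
  rw [cjI_eq_map, cjI_eq_map, cjI_eq_map, Ideal.map_mul]

theorem cjI_sp (a : OO A B) : cjI (sp a) = sp (star a) := by
  rw [cjI_eq_map, Ideal.map_span, Set.image_singleton, starRingEnd_apply]

theorem cjI_ne (b : Ideal (OO A B)) (hb : b ≠ ⊥) : cjI b ≠ ⊥ := by
  intro h
  apply hb
  rw [← cjI_cjI b, h, eq_bot_iff]
  intro x hx
  rw [mem_cjI, Ideal.mem_bot] at hx
  rw [Ideal.mem_bot]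
  exact star_eq_zero.1 hx

/-- `(m) = (n)` for natural numbers gives `m = n` -/
theorem sp_nat (hn : ∀ n : ℤ, nm (n : OO A B) = n ^ 2) (hm : ∀ x y : OO A B, nm (x * y) = nm x * nm y)
    (m n : ℕ) (h : sp ((m : ℕ) : OO A B) = sp ((n : ℕ) : OO A B)) : m = n := by
  have key : ∀ k l : ℕ, ((k : ℕ) : OO A B) ∣ ((l : ℕ) : OO A B) → k ∣ l := by
    rintro k l ⟨x, hx⟩
    have h1 : nm (((l : ℤ) : OO A B)) = nm (((k : ℤ) : OO A B)) * nm x := by
      rw [← hm, Int.cast_natCast, Int.cast_natCast, hx]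
    rw [hn, hn] at h1
    have h2 : ((k : ℤ)) ^ 2 ∣ (l : ℤ) ^ 2 := ⟨nm x, h1⟩
    have h3 : (k : ℤ) ∣ (l : ℤ) := (Int.pow_dvd_pow_iff two_ne_zero).1 h2
    exact_mod_cast h3
  apply Nat.dvd_antisymm
  · apply key
    exact Ideal.span_singleton_le_span_singleton.1 h.ge
  · apply key
    exact Ideal.span_singleton_le_span_singleton.1 h.le

end NimX

open _root_.Pool.Agent.MUXF.NimX in
theorem tx_NIM (h1 : Sx_ALG) (h2 : Sx_IDL) : Sx_NIM := by
  intro A B h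
  obtain ⟨hmul, hz, hint, -, hdom⟩ := h1 A B h
  have : IsDomain (OO A B) := hdom
  have hI := h2 A B h
  have hN : ∀ m n : ℕ, sp ((m : ℕ) : OO A B) = sp ((n : ℕ) : OO A B) → m = n :=
    sp_nat (fun n => (hint n).2) (fun x y => (hmul x y).2.2)
  refine ⟨fun b c hb hc => ?_, fun a => ?_, fun b hb => ?_, fun b c c' hb => ?_⟩
  · have hbc : b * c ≠ ⊥ := by
      intro h0
      rcases Ideal.mul_eq_bot.1 h0 with h0 | h0
      · exact hb h0
      · exact hc h0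
    refine ⟨hN _ _ ?_, hbc⟩
    rw [← (hI (b * c) hbc).2, cjI_mul, mul_mul_mul_comm, (hI b hb).2, (hI c hc).2,
      Ideal.span_singleton_mul_span_singleton]
    push_cast
    rfl
  · by_cases ha : a = 0
    · exact Or.inr ha
    · left
      have hsa : sp a ≠ ⊥ := by
        intro h0
        exact ha (Ideal.span_singleton_eq_bot.1 h0)
      apply hN
      rw [← (hI (sp a) hsa).2, cjI_sp, Ideal.span_singleton_mul_span_singleton]
      obtain ⟨-, -, h0, -, hst, -⟩ := hz a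
      rw [hst]
      congr 2
      have h9 : ((((nm a).natAbs : ℕ) : ℤ) : OO A B) = ((nm a : ℤ) : OO A B) := by
        rw [Int.natAbs_of_nonneg h0]
      rw [← h9, Int.cast_natCast]
  · refine ⟨?_, cjI_cjI b, cjI_ne b hb, ?_⟩
    · apply hN
      rw [← (hI (cjI b) (cjI_ne b hb)).2, ← (hI b hb).2, cjI_cjI, mul_comm]
    · have h3 : ((nI b : ℕ) : OO A B) ∈ b * cjI b := by
        rw [(hI b hb).2]
        exact Ideal.mem_span_singleton_self _
      exact Ideal.mul_le_left h3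
  · constructor
    · intro h3
      have h4 : cjI b * (b * c) ≤ cjI b * (b * c') := Ideal.mul_mono_right h3
      rw [← mul_assoc, ← mul_assoc, mul_comm (cjI b) b, (hI b hb).2] at h4
      have h5 : ((nI b : ℕ) : OO A B) ≠ 0 := by
        intro h6
        have h7 := (hint (nI b : ℤ)).2
        have h8 : (((nI b : ℤ)) : OO A B) = 0 := by
          push_cast
          exact h6
        rw [h8, (hz 0).2.1.2 rfl] at h7
        have h9 : (nI b : ℤ) = 0 := by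
          have := h7.symm
          exact pow_eq_zero_iff two_ne_zero |>.1 this
        exact (hI b hb).1 (by exact_mod_cast h9)
      exact (Ideal.span_singleton_mul_right_mono h5).1 h4
    · exact fun h3 => Ideal.mul_mono_right h3

end

end Pool.Agent.MUXF


end

section

/-!
# MUX, block XF: `b * conj b = (N b)` (IDL)
-/

set_option autoImplicit false

namespace Pool.Agent.MUXF

open _root_.MU3 _root_.Pool.Agent.MU3A _root_.Pool.Agent.MU3B _root_.Pool.Agent.MU3F _root_.Pool.Agent.MuSym OnePoint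

noncomputable section

namespace IDL

variable {A B : ℤ}

theorem gen (I : Ideal ℤ) (n : ℤ) (hn : n ≠ 0) (h : n ∈ I) :
    ∃ d : ℤ, 0 < d ∧ ∀ s, s ∈ I ↔ d ∣ s := by
  obtain ⟨d0, hd0⟩ := (IsPrincipalIdealRing.principal I).principal
  have h1 : ∀ s, s ∈ I ↔ d0 ∣ s := fun s => by
    rw [hd0]
    exact Ideal.mem_span_singleton
  have h2 : d0 ≠ 0 := by
    rintro rfl
    exact hn (zero_dvd_iff.1 ((h1 n).1 h))
  exact ⟨|d0|, abs_pos.2 h2, fun s => by rw [h1, abs_dvd]⟩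

theorem smul_mem (b : Ideal (OO A B)) (n r s : ℤ) (h : (⟨r, s⟩ : OO A B) ∈ b) :
    (⟨n * r, n * s⟩ : OO A B) ∈ b := by
  have h1 := b.mul_mem_left (n : OO A B) h
  have h2 : (n : OO A B) * ⟨r, s⟩ = ⟨n * r, n * s⟩ := by
    ext
    · simp
    · simp
  rwa [h2] at h1

theorem add_mem' (b : Ideal (OO A B)) (r s r' s' : ℤ) (h : (⟨r, s⟩ : OO A B) ∈ b)
    (h' : (⟨r', s'⟩ : OO A B) ∈ b) : (⟨r + r', s + s'⟩ : OO A B) ∈ b := by
  have h1 := b.add_mem h h'
  have h2 : (⟨r, s⟩ : OO A B) + ⟨r', s'⟩ = ⟨r + r', s + s'⟩ := by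
    ext <;> simp
  rwa [h2] at h1

theorem w_mem (b : Ideal (OO A B)) (r s : ℤ) (h : (⟨r, s⟩ : OO A B) ∈ b) :
    (⟨A * s, r + B * s⟩ : OO A B) ∈ b := by
  have h1 := b.mul_mem_left (⟨0, 1⟩ : OO A B) h
  have h2 : (⟨0, 1⟩ : OO A B) * ⟨r, s⟩ = ⟨A * s, r + B * s⟩ := by
    ext <;> simp
  rwa [h2] at h1

/-- second coordinates -/
def I1 (b : Ideal (OO A B)) : Ideal ℤ where
  carrier := {s | ∃ r, (⟨r, s⟩ : OO A B) ∈ b}
  add_mem' := by
    rintro s s' ⟨r, h⟩ ⟨r', h'⟩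
    exact ⟨r + r', add_mem' b _ _ _ _ h h'⟩
  zero_mem' := ⟨0, b.zero_mem⟩
  smul_mem' := by
    rintro n s ⟨r, h⟩
    exact ⟨n * r, smul_mem b n r s h⟩

/-- integers -/
def I0 (b : Ideal (OO A B)) : Ideal ℤ where
  carrier := {r | (⟨r, 0⟩ : OO A B) ∈ b}
  add_mem' := by
    intro r r' h h'
    have := add_mem' b _ _ _ _ h h'
    simpa using this
  zero_mem' := b.zero_mem
  smul_mem' := by
    intro n r h
    have := smul_mem b n r 0 h
    simpa using this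

/-- Hermite form -/
theorem hermite (b : Ideal (OO A B)) (n : ℤ) (hn : n ≠ 0) (hnb : (⟨n, 0⟩ : OO A B) ∈ b) :
    ∃ d a' c' k : ℤ, 0 < d ∧ 0 < a' ∧
      (∀ r s : ℤ, (⟨r, s⟩ : OO A B) ∈ b ↔ ∃ i j : ℤ, r = d * (a' * i + c' * j) ∧ s = d * j) ∧
      (nI b : ℤ) = d * d * a' ∧ c' ^ 2 + B * c' - A = a' * k := by
  have hn1 : n ∈ I1 b := by
    refine ⟨0, ?_⟩
    have := w_mem b n 0 hnb
    simpa using this
  obtain ⟨d, hd, hd1⟩ := gen (I1 b) n hn hn1
  obtain ⟨a, ha, ha1⟩ := gen (I0 b) n hn hnb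
  obtain ⟨c, hc⟩ := (hd1 d).2 dvd_rfl
  have haa : (⟨a, 0⟩ : OO A B) ∈ b := (ha1 a).2 dvd_rfl
  obtain ⟨a', ha'⟩ : d ∣ a := by
    refine (hd1 a).1 ⟨0, ?_⟩
    have := w_mem b a 0 haa
    simpa using this
  obtain ⟨c', hc'⟩ : d ∣ c := by
    have h1 : d ∣ c + B * d := (hd1 _).1 ⟨A * d, w_mem b c d hc⟩
    exact (dvd_add_left (Dvd.intro_left B rfl)).1 h1
  have ha'0 : 0 < a' := by
    rw [ha'] at ha
    exact (mul_pos_iff_of_pos_left hd).1 ha
  have hmem : ∀ r s : ℤ, (⟨r, s⟩ : OO A B) ∈ b ↔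
      ∃ i j : ℤ, r = d * (a' * i + c' * j) ∧ s = d * j := by
    intro r s
    constructor
    · intro h
      obtain ⟨j, hj⟩ := (hd1 s).1 ⟨r, h⟩
      have h1 := add_mem' b _ _ _ _ h (smul_mem b (-j) c d hc)
      have h2 : s + -j * d = 0 := by rw [hj]; ring
      rw [h2] at h1
      obtain ⟨i, hi⟩ := (ha1 _).1 h1
      refine ⟨i, j, ?_, hj⟩
      rw [ha', hc'] at hi
      linear_combination hi
    · rintro ⟨i, j, hr, hs⟩
      have h1 := add_mem' b _ _ _ _ (smul_mem b i a 0 haa) (smul_mem b j c d hc)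
      have h2 : i * a + j * c = r := by rw [hr, ha', hc']; ring
      have h3 : i * 0 + j * d = s := by rw [hs]; ring
      rwa [h2, h3] at h1
  have hcard : (nI b : ℤ) = d * d * a' := by
    have hbij : Function.Bijective (fun p : Fin a.toNat × Fin d.toNat =>
        (Ideal.Quotient.mk b (⟨(p.1 : ℕ), (p.2 : ℕ)⟩ : OO A B))) := by
      constructor
      · rintro ⟨i, j⟩ ⟨i', j'⟩ h
        have h1 : (⟨((i : ℕ) : ℤ) - (i' : ℕ), ((j : ℕ) : ℤ) - (j' : ℕ)⟩ : OO A B) ∈ b := by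
          have h2 := Ideal.Quotient.eq.1 h
          have h3 : (⟨((i : ℕ) : ℤ), ((j : ℕ) : ℤ)⟩ : OO A B) - ⟨((i' : ℕ) : ℤ), ((j' : ℕ) : ℤ)⟩ =
              ⟨((i : ℕ) : ℤ) - (i' : ℕ), ((j : ℕ) : ℤ) - (j' : ℕ)⟩ := by
            ext <;> simp
          rwa [h3] at h2
        have hj : (j : ℕ) = (j' : ℕ) := by
          have h2 : d ∣ ((j : ℕ) : ℤ) - (j' : ℕ) := (hd1 _).1 ⟨_, h1⟩
          have h3 : ((j : ℕ) : ℤ) < d := by have := j.2; omega
          have h4 : ((j' : ℕ) : ℤ) < d := by have := j'.2; omega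
          have h5 := Int.eq_zero_of_abs_lt_dvd h2 (by rw [abs_lt]; constructor <;> omega)
          omega
        have hi : (i : ℕ) = (i' : ℕ) := by
          rw [hj, sub_self] at h1
          have h2 : a ∣ ((i : ℕ) : ℤ) - (i' : ℕ) := (ha1 _).1 h1
          have h3 : ((i : ℕ) : ℤ) < a := by have := i.2; omega
          have h4 : ((i' : ℕ) : ℤ) < a := by have := i'.2; omega
          have h5 := Int.eq_zero_of_abs_lt_dvd h2 (by rw [abs_lt]; constructor <;> omega)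
          omega
        exact Prod.ext (Fin.ext hi) (Fin.ext hj)
      · intro q
        obtain ⟨⟨r, s⟩, rfl⟩ := Ideal.Quotient.mk_surjective q
        set j := s / d with hj
        set r' := r - j * c with hr'
        have e1 := Int.emod_add_mul_ediv s d
        have e2 := Int.emod_nonneg s hd.ne'
        have e3 := Int.emod_lt_of_pos s hd
        have f1 := Int.emod_add_mul_ediv r' a
        have f2 := Int.emod_nonneg r' ha.ne'
        have f3 := Int.emod_lt_of_pos r' ha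
        refine ⟨(⟨(r' % a).toNat, by omega⟩, ⟨(s % d).toNat, by omega⟩), ?_⟩
        apply Ideal.Quotient.eq.2
        have h1 := add_mem' b _ _ _ _ (smul_mem b (-(r' / a)) a 0 haa) (smul_mem b (-j) c d hc)
        have h3 : (⟨(((r' % a).toNat : ℕ) : ℤ), (((s % d).toNat : ℕ) : ℤ)⟩ : OO A B) - ⟨r, s⟩ =
            ⟨-(r' / a) * a + -j * c, -(r' / a) * 0 + -j * d⟩ := by
          ext
          · simp only [QuadraticAlgebra.re_sub]
            rw [Int.toNat_of_nonneg f2]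
            linear_combination f1 - hr'
          · simp only [QuadraticAlgebra.im_sub]
            rw [Int.toNat_of_nonneg e2]
            linear_combination e1
        dsimp only
        rw [h3]
        exact h1
    have h1 := Nat.card_congr (Equiv.ofBijective _ hbij)
    rw [Nat.card_prod, Nat.card_fin, Nat.card_fin] at h1
    unfold nI
    rw [← h1]
    push_cast
    rw [Int.toNat_of_nonneg ha.le, Int.toNat_of_nonneg hd.le, ha']
    ring
  -- the norm of `c' + w`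
  obtain ⟨k, hk⟩ : a' ∣ c' ^ 2 + B * c' - A := by
    have h1 := b.mul_mem_left (⟨c' + B, -1⟩ : OO A B) hc
    have h2 : (⟨c' + B, -1⟩ : OO A B) * ⟨c, d⟩ = ⟨d * (c' ^ 2 + B * c' - A), 0⟩ := by
      ext
      · simp only [QuadraticAlgebra.re_mul]
        rw [hc']
        ring
      · simp only [QuadraticAlgebra.im_mul]
        rw [hc']
        ring
    rw [h2] at h1
    have h3 : a ∣ d * (c' ^ 2 + B * c' - A) := (ha1 _).1 h1
    rw [ha'] at h3
    exact (mul_dvd_mul_iff_left hd.ne').1 h3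
  exact ⟨d, a', c', k, hd, ha'0, hmem, hcard, hk⟩

theorem prim (h : CQ A B) (a' c' k : ℤ) (hk : c' ^ 2 + B * c' - A = a' * k) :
    ∃ u v t : ℤ, u * a' + v * (2 * c' + B) + t * k = 1 := by
  have hD : (2 * c' + B) ^ 2 - 4 * a' * k = B ^ 2 + 4 * A := by linear_combination 4 * hk
  have hg : Int.gcd (Int.gcd a' (2 * c' + B)) k = 1 := by
    by_contra hne
    obtain ⟨l, hl, hlg⟩ := Nat.exists_prime_and_dvd hne
    have hlg' : (l : ℤ) ∣ (Int.gcd (Int.gcd a' (2 * c' + B)) k : ℤ) := by exact_mod_cast hlg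
    have h3 : (l : ℤ) ∣ k := hlg'.trans (Int.gcd_dvd_right ..)
    have h4 : (l : ℤ) ∣ (Int.gcd a' (2 * c' + B) : ℤ) := hlg'.trans (Int.gcd_dvd_left ..)
    have h1 : (l : ℤ) ∣ a' := h4.trans (Int.gcd_dvd_left ..)
    have h2 : (l : ℤ) ∣ 2 * c' + B := h4.trans (Int.gcd_dvd_right ..)
    have hlp : Prime (l : ℤ) := Nat.prime_iff_prime_int.1 hl
    have h5 : (l : ℤ) * l ∣ B ^ 2 + 4 * A := by
      rw [← hD]
      refine dvd_sub ?_ ?_
      · rw [sq]
        exact mul_dvd_mul h2 h2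
      · rw [mul_assoc]
        exact Dvd.dvd.mul_left (mul_dvd_mul h1 h3) 4
    rcases h.hB with hB | hB
    · obtain ⟨hsq, h4A⟩ := h.fund0 hB
      rw [hB] at h5 h2 hk
      by_cases hl2 : l = 2
      · subst hl2
        obtain ⟨x, hx⟩ := h1
        obtain ⟨y, hy⟩ := h3
        rw [hx, hy] at hk
        have h6 : A = c' ^ 2 - 4 * (x * y) := by push_cast at hk; linear_combination -hk
        rcases Int.even_or_odd' c' with ⟨m, hm | hm⟩
        · have h7 : (2 : ℤ) * 2 ∣ A := ⟨m ^ 2 - x * y, by rw [h6, hm]; ring⟩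
          exact Int.prime_two.not_isUnit (hsq 2 h7)
        · exact h4A ⟨m ^ 2 + m - x * y, by rw [h6, hm]; ring⟩
      · have h6 : IsCoprime ((l : ℤ) * l) 4 := by
          have h7 : IsCoprime (l : ℤ) 2 := by
            have h10 := Nat.isCoprime_iff_coprime.2 ((Nat.coprime_primes hl Nat.prime_two).2 hl2)
            exact_mod_cast h10
          have h8 : IsCoprime (l : ℤ) 4 := by
            have := h7.mul_right h7
            norm_num at this
            exact this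
          exact h8.mul_left h8
        have h9 : (l : ℤ) * l ∣ 4 * A := by simpa using h5
        exact hlp.not_isUnit (hsq _ (h6.dvd_of_dvd_mul_left h9))
    · have hsq := h.fund1 hB
      rw [hB] at h5
      exact hlp.not_isUnit (hsq _ (by simpa using h5))
  have e1 := Int.gcd_eq_gcd_ab (Int.gcd a' (2 * c' + B)) k
  have e2 := Int.gcd_eq_gcd_ab a' (2 * c' + B)
  rw [hg] at e1
  set P := Int.gcdA (Int.gcd a' (2 * c' + B)) k
  set Q := Int.gcdB (Int.gcd a' (2 * c' + B)) k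
  refine ⟨Int.gcdA a' (2 * c' + B) * P, Int.gcdB a' (2 * c' + B) * P, Q, ?_⟩
  push_cast at e1
  linear_combination (-1 : ℤ) * e1 - P * e2

end IDL

open _root_.Pool.Agent.MUXF.IDL in
theorem tx_IDL (h1 : Sx_ALG) : Sx_IDL := by
  intro A B h b hb
  obtain ⟨-, hx, hz, hfin, hdom⟩ := h1 A B h
  have hf := hfin b hb
  refine ⟨Nat.card_pos.ne', ?_⟩
  obtain ⟨x0, hx0, hx00⟩ := Submodule.exists_mem_ne_zero_of_ne_bot hb
  have hn : nm x0 ≠ 0 := fun h0 => hx00 ((hx x0).2.1.1 h0)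
  have hnb : (⟨nm x0, 0⟩ : OO A B) ∈ b := by
    have h2 : (⟨nm x0, 0⟩ : OO A B) = ((nm x0 : ℤ) : OO A B) := by
      ext <;> simp
    rw [h2, ← (hx x0).2.2.2.2.1]
    exact b.mul_mem_right _ hx0
  obtain ⟨d, a', c', k, hd, ha', hmem, hcard, hk⟩ := hermite b (nm x0) hn hnb
  have hN : ((nI b : ℕ) : OO A B) = ⟨d * d * a', 0⟩ := by
    rw [← hcard]
    ext <;> simp
  have hcj : ∀ r s : ℤ, (⟨r, s⟩ : OO A B) ∈ cjI b ↔ (⟨r + B * s, -s⟩ : OO A B) ∈ b := by
    intro r s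
    unfold cjI
    rw [Ideal.mem_comap, starRingEnd_apply]
    have : star (⟨r, s⟩ : OO A B) = ⟨r + B * s, -s⟩ := by ext <;> simp
    rw [this]
  apply le_antisymm
  · rw [Ideal.mul_le]
    rintro ⟨r, s⟩ hrs ⟨r', s'⟩ hrs'
    obtain ⟨i, j, hr, hs⟩ := (hmem r s).1 hrs
    obtain ⟨i', j', hr', hs'⟩ := (hmem _ _).1 ((hcj r' s').1 hrs')
    rw [Ideal.mem_span_singleton, hN]
    have e1 : s' = -(d * j') := by linear_combination -hs'
    have e2 : r' = d * (a' * i' + c' * j') + B * (d * j') := by rw [e1] at hr'; linear_combination hr'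
    refine ⟨⟨a' * i * i' + c' * i * j' + B * i * j' + c' * i' * j + k * j * j', i' * j - i * j'⟩, ?_⟩
    ext
    · simp only [QuadraticAlgebra.re_mul]
      rw [e1, e2, hr, hs]
      linear_combination (d * d * j * j') * hk
    · simp only [QuadraticAlgebra.im_mul]
      rw [e1, e2, hr, hs]
      ring
  · rw [Ideal.span_singleton_le_iff_mem, hN]
    obtain ⟨u, v, t, huvt⟩ := prim h a' c' k hk
    -- elements of `b` and of the conjugate
    have m1 : (⟨d * a', 0⟩ : OO A B) ∈ b := (hmem _ _).2 ⟨1, 0, by ring, by ring⟩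
    have m2 : (⟨d * c', d⟩ : OO A B) ∈ b := (hmem _ _).2 ⟨0, 1, by ring, by ring⟩
    have m3 : (⟨d * a', 0⟩ : OO A B) ∈ cjI b := (hcj _ _).2 (by simpa using m1)
    have m4 : (⟨d * c' + B * d, -d⟩ : OO A B) ∈ cjI b := (hcj _ _).2 (by
      have : (⟨d * c' + B * d + B * -d, - -d⟩ : OO A B) = ⟨d * c', d⟩ := by
        ext
        · simp
        · simp
      rw [this]
      exact m2)
    have p1 := Ideal.mul_mem_mul m1 m3
    have p2 := Ideal.mul_mem_mul m2 m3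
    have p3 := Ideal.mul_mem_mul m1 m4
    have p4 := Ideal.mul_mem_mul m2 m4
    have q1 := (b * cjI b).mul_mem_left (u : OO A B) p1
    have q2 := (b * cjI b).mul_mem_left (v : OO A B) ((b * cjI b).add_mem p2 p3)
    have q4 := (b * cjI b).mul_mem_left (t : OO A B) p4
    have q := (b * cjI b).add_mem ((b * cjI b).add_mem q1 q2) q4
    convert q using 1
    ext
    · simp only [QuadraticAlgebra.re_mul, QuadraticAlgebra.re_add, QuadraticAlgebra.im_add,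
        QuadraticAlgebra.im_mul, QuadraticAlgebra.re_intCast, QuadraticAlgebra.im_intCast,
        Int.cast_id]
      linear_combination (-(d * d * a')) * huvt - (t * d * d) * hk
    · simp only [QuadraticAlgebra.re_mul, QuadraticAlgebra.re_add, QuadraticAlgebra.im_add,
        QuadraticAlgebra.im_mul, QuadraticAlgebra.re_intCast, QuadraticAlgebra.im_intCast,
        Int.cast_id]
      ring

end

end Pool.Agent.MUXF


end

section

/-!
# MUX: lemma library on `DefsX.lean` (helper51)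

The lemmas on `emb`, `nm`, ... of MU3 with `Case A B`, repeated with `CQ A B`; ideals; the calculus of `Tor` and `IsQ`.
-/

set_option autoImplicit false

namespace Pool.Agent.MUX

open _root_.MU3 _root_.Pool.Agent.MU3B
open _root_.Pool.Agent.MU3A (kk em)

noncomputable section

/-- the lattice `L` has multiplication by `O` -/
def HasCM (A B : ℤ) (L : PeriodPair) : Prop :=
  ∀ (x : OO A B) (z : ℂ), z ∈ L.lattice → emb x * z ∈ L.lattice

/-! ### Elementary facts (the versions of `Base.lean`, `ADefs.lean` with `CQ`) -/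

section
variable {A B : ℤ}

lemma absD_pos (h : CQ A B) : 0 < absD A B := by
  have := h.neg
  unfold absD
  omega

lemma wC_sq (h : CQ A B) : wC A B * wC A B = A + B * wC A B := by
  have h1 : (0 : ℝ) ≤ (absD A B : ℝ) := by exact_mod_cast (absD_pos h).le
  have h2 : ((Real.sqrt (absD A B) : ℝ) : ℂ) ^ 2 = (absD A B : ℂ) := by
    rw [← Complex.ofReal_pow, Real.sq_sqrt h1]
    norm_num
  have h3 : Complex.I ^ 2 = -1 := Complex.I_sq
  have h4 : (absD A B : ℂ) = -((B : ℂ) ^ 2 + 4 * A) := by simp [absD]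
  unfold wC
  linear_combination (Complex.I ^ 2 / 4) * h2 + ((absD A B : ℂ) / 4) * h3 - (1 / 4) * h4

/-- the embedding as a ring homomorphism -/
def embHom (h : CQ A B) : OO A B →+* ℂ :=
  (QuadraticAlgebra.lift (R := ℤ) (a := A) (b := B) (A := ℂ)
    ⟨wC A B, by simpa [zsmul_eq_mul] using wC_sq h⟩).toRingHom

lemma embHom_apply (h : CQ A B) (x : OO A B) : embHom h x = emb x := by
  simp [embHom, emb, QuadraticAlgebra.lift, zsmul_eq_mul]

lemma emb_mul (h : CQ A B) (x y : OO A B) : emb (x * y) = emb x * emb y := by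
  simpa only [embHom_apply] using map_mul (embHom h) x y

lemma emb_add (h : CQ A B) (x y : OO A B) : emb (x + y) = emb x + emb y := by
  simpa only [embHom_apply] using map_add (embHom h) x y

lemma emb_neg (h : CQ A B) (x : OO A B) : emb (-x) = -emb x := by
  simpa only [embHom_apply] using map_neg (embHom h) x

lemma emb_sub (h : CQ A B) (x y : OO A B) : emb (x - y) = emb x - emb y := by
  simpa only [embHom_apply] using map_sub (embHom h) x y

lemma emb_one (h : CQ A B) : emb (1 : OO A B) = 1 := by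
  simpa only [embHom_apply] using map_one (embHom h)

lemma emb_zero (h : CQ A B) : emb (0 : OO A B) = 0 := by
  simpa only [embHom_apply] using map_zero (embHom h)

lemma emb_pow (h : CQ A B) (x : OO A B) (n : ℕ) : emb (x ^ n) = emb x ^ n := by
  simpa only [embHom_apply] using map_pow (embHom h) x n

lemma emb_natCast (h : CQ A B) (n : ℕ) : emb (n : OO A B) = n := by
  simpa only [embHom_apply] using map_natCast (embHom h) n

lemma emb_intCast (h : CQ A B) (n : ℤ) : emb (n : OO A B) = n := by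
  simpa only [embHom_apply] using map_intCast (embHom h) n

lemma emb_w : emb (⟨0, 1⟩ : OO A B) = wC A B := by simp [emb]

lemma wC_im (A B : ℤ) : (wC A B).im = Real.sqrt (absD A B) / 2 := by
  simp [wC, Complex.add_im, Complex.mul_im]

lemma wC_re (A B : ℤ) : (wC A B).re = B / 2 := by
  simp [wC, Complex.add_re, Complex.mul_re]

lemma wC_im_pos (h : CQ A B) : 0 < (wC A B).im := by
  have h1 : (0 : ℝ) < Real.sqrt (absD A B) := Real.sqrt_pos.2 (by exact_mod_cast absD_pos h)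
  rw [wC_im]; positivity

lemma emb_inj (h : CQ A B) {x y : OO A B} (hxy : emb x = emb y) : x = y := by
  have h1 := congrArg Complex.im hxy
  have h2 := congrArg Complex.re hxy
  simp only [emb, Complex.add_im, Complex.mul_im, Complex.intCast_im, Complex.intCast_re,
    zero_mul, add_zero, zero_add, Complex.add_re, Complex.mul_re, sub_zero] at h1 h2
  have h3 : (x.im : ℝ) = y.im := mul_right_cancel₀ (wC_im_pos h).ne' h1
  rw [h3] at h2
  have h4 : (x.re : ℝ) = y.re := add_right_cancel h2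
  exact QuadraticAlgebra.ext (by exact_mod_cast h4) (by exact_mod_cast h3)

lemma embHom_injective (h : CQ A B) : Function.Injective (embHom h) := fun x y hxy =>
  emb_inj h (by simpa only [embHom_apply] using hxy)

lemma emb_ne_zero (h : CQ A B) {x : OO A B} (hx : x ≠ 0) : emb x ≠ 0 := fun h0 =>
  hx (emb_inj h (h0.trans (emb_zero h).symm))

lemma wC_ne_zero (h : CQ A B) : wC A B ≠ 0 := fun h0 => by
  have := wC_im_pos h
  rw [h0] at this
  simp at this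

lemma isDomain (h : CQ A B) : IsDomain (OO A B) :=
  (embHom_injective h).isDomain (embHom h)

/-- the conjugate of `x` in `O` -/
lemma emb_star (x : OO A B) : emb (star x) = (starRingEnd ℂ) (emb x) := by
  apply Complex.ext
  · simp only [emb, QuadraticAlgebra.re_star, QuadraticAlgebra.im_star, Complex.conj_re,
      Complex.add_re, Complex.mul_re, Complex.intCast_re, Complex.intCast_im, wC_re]
    push_cast
    ring
  · simp only [emb, QuadraticAlgebra.re_star, QuadraticAlgebra.im_star, Complex.conj_im,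
      Complex.add_im, Complex.mul_im, Complex.intCast_re, Complex.intCast_im]
    push_cast
    ring

lemma mul_star (x : OO A B) : x * star x = ((nm x : ℤ) : OO A B) := by
  apply QuadraticAlgebra.ext
  · simp only [QuadraticAlgebra.re_mul, QuadraticAlgebra.re_star, QuadraticAlgebra.im_star,
      QuadraticAlgebra.re_intCast, nm, Int.cast_id]
    ring
  · simp only [QuadraticAlgebra.im_mul, QuadraticAlgebra.re_star, QuadraticAlgebra.im_star,
      QuadraticAlgebra.im_intCast]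
    ring

lemma emb_nm (h : CQ A B) (x : OO A B) : ((nm x : ℤ) : ℂ) = emb x * (starRingEnd ℂ) (emb x) := by
  rw [← emb_intCast h, ← mul_star, emb_mul h, emb_star]

lemma nm_mul (h : CQ A B) (x y : OO A B) : nm (x * y) = nm x * nm y := by
  have h1 : ((nm (x * y) : ℤ) : ℂ) = ((nm x * nm y : ℤ) : ℂ) := by
    rw [emb_nm h, emb_mul h, map_mul]
    push_cast
    rw [emb_nm h x, emb_nm h y]
    ring
  exact_mod_cast h1

lemma norm_sq_emb (h : CQ A B) (x : OO A B) : ‖emb x‖ ^ 2 = (nm x : ℝ) := by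
  have h1 := emb_nm h x
  rw [Complex.mul_conj, Complex.normSq_eq_norm_sq] at h1
  exact_mod_cast h1.symm

lemma nm_nonneg (h : CQ A B) (x : OO A B) : 0 ≤ nm x := by
  have := norm_sq_emb h x
  have h2 : (0 : ℝ) ≤ (nm x : ℝ) := by rw [← this]; positivity
  exact_mod_cast h2

lemma nm_eq_zero (h : CQ A B) {x : OO A B} : nm x = 0 ↔ x = 0 := by
  constructor
  · intro h0
    by_contra hx
    have h1 := norm_sq_emb h x
    rw [h0] at h1
    have h2 := emb_ne_zero h hx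
    have : ‖emb x‖ ≠ 0 := norm_ne_zero_iff.2 h2
    simp at h1
    exact h2 h1
  · rintro rfl
    simp [nm]

lemma nm_intCast (n : ℤ) : nm (n : OO A B) = n ^ 2 := by
  simp [nm]

lemma emb_mem (x : OO A B) : emb x ∈ kk A B := Pool.Agent.MU3A.emb_mem x

end

/-! ### Lattices -/

section
variable {A B : ℤ} {L L' L'' : PeriodPair}

lemma Tor.of_mem {I : Ideal (OO A B)} (hL : HasCM A B L) {z : ℂ} (hz : z ∈ L.lattice) :
    Tor I L z := fun x _ => hL x z hz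

lemma Tor.add {I : Ideal (OO A B)} {z z' : ℂ} (hz : Tor I L z) (hz' : Tor I L z') :
    Tor I L (z + z') := fun x hx => by
  rw [mul_add]
  exact add_mem (hz x hx) (hz' x hx)

lemma Tor.neg {I : Ideal (OO A B)} {z : ℂ} (hz : Tor I L z) : Tor I L (-z) := fun x hx => by
  rw [mul_neg]
  exact neg_mem (hz x hx)

lemma Tor.mono {I J : Ideal (OO A B)} (hIJ : I ≤ J) {z : ℂ} (hz : Tor J L z) : Tor I L z :=
  fun x hx => hz x (hIJ hx)

lemma Tor.mul_emb (h : CQ A B) {I : Ideal (OO A B)} {z : ℂ} (hz : Tor I L z) (y : OO A B) :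
    Tor I L (emb y * z) := fun x hx => by
  have := hz (y * x) (I.mul_mem_left y hx)
  rw [emb_mul h] at this
  have e : emb x * (emb y * z) = emb y * emb x * z := by ring
  rw [e]
  exact this

lemma tor_top (h : CQ A B) (hL : HasCM A B L) {z : ℂ} : Tor (⊤ : Ideal (OO A B)) L z ↔
    z ∈ L.lattice := by
  constructor
  · intro hz
    have := hz 1 trivial
    rwa [emb_one h, one_mul] at this
  · exact Tor.of_mem hL

lemma tor_span (h : CQ A B) (hL : HasCM A B L) (m : OO A B) {z : ℂ} :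
    Tor (Ideal.span {m}) L z ↔ emb m * z ∈ L.lattice := by
  constructor
  · intro hz
    exact hz m (Ideal.mem_span_singleton_self m)
  · intro hz x hx
    obtain ⟨y, rfl⟩ := Ideal.mem_span_singleton'.1 hx
    rw [emb_mul h, mul_assoc]
    exact hL y _ hz

/-- a point killed by two coprime ideals is zero -/
lemma tor_coprime (h : CQ A B) {a b : Ideal (OO A B)} (hab : IsCoprime a b) {z : ℂ}
    (ha : Tor a L z) (hb : Tor b L z) : z ∈ L.lattice := by
  obtain ⟨x, hx, y, hy, hxy⟩ := Ideal.isCoprime_iff_exists.1 hab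
  have h1 := add_mem (ha x hx) (hb y hy)
  have h2 : emb x * z + emb y * z = z := by
    have := congrArg emb hxy
    rw [emb_add h, emb_one h] at this
    linear_combination z * this
  rwa [h2] at h1

lemma IsQ.cm (h : CQ A B) {a : Ideal (OO A B)} {mu : ℂ} (hq : IsQ a L L' mu) :
    HasCM A B L' := fun x z hz => by
  have h0 := hq.1
  have h1 : mu * (mu⁻¹ * z) ∈ L'.lattice := by rwa [mul_inv_cancel_left₀ h0]
  have h2 := (hq.2 _).1 h1
  have h3 := (hq.2 _).2 (Tor.mul_emb h (I := a) h2 x)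
  have e : mu * (emb x * (mu⁻¹ * z)) = emb x * z := by field_simp
  rwa [e] at h3

lemma IsQ.mem (hL : HasCM A B L) {a : Ideal (OO A B)} {mu : ℂ} (hq : IsQ a L L' mu) {z : ℂ}
    (hz : z ∈ L.lattice) : mu * z ∈ L'.lattice := (hq.2 z).2 (Tor.of_mem hL hz)

end

/-! ### Ideals -/

section
variable {A B : ℤ}

lemma CQ.toF (h : CQ A B) : MUXF.CQ A B := ⟨h.hB, h.neg, h.fund1, h.fund0⟩

lemma nI_ne_zero (h : CQ A B) {b : Ideal (OO A B)} (hb : b ≠ ⊥) : nI b ≠ 0 :=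
  (MUXF.tx_IDL MUXF.tx_ALG A B h.toF b hb).1

/-- `b * cjI b = (N b)` -/
lemma mul_cjI (h : CQ A B) {b : Ideal (OO A B)} (hb : b ≠ ⊥) :
    b * cjI b = sp ((nI b : ℕ) : OO A B) :=
  (MUXF.tx_IDL MUXF.tx_ALG A B h.toF b hb).2

lemma finite_quot (h : CQ A B) {b : Ideal (OO A B)} (hb : b ≠ ⊥) : Finite (OO A B ⧸ b) :=
  (MUXF.tx_ALG A B h.toF).2.2.2.1 b hb

lemma nI_mul (h : CQ A B) {b c : Ideal (OO A B)} (hb : b ≠ ⊥) (hc : c ≠ ⊥) :
    nI (b * c) = nI b * nI c :=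
  ((MUXF.tx_NIM MUXF.tx_ALG (MUXF.tx_IDL MUXF.tx_ALG) A B h.toF).1 b c hb hc).1

lemma mul_ne_bot (h : CQ A B) {b c : Ideal (OO A B)} (hb : b ≠ ⊥) (hc : c ≠ ⊥) : b * c ≠ ⊥ :=
  ((MUXF.tx_NIM MUXF.tx_ALG (MUXF.tx_IDL MUXF.tx_ALG) A B h.toF).1 b c hb hc).2

lemma nI_sp (h : CQ A B) {a : OO A B} (ha : a ≠ 0) : nI (sp a) = (nm a).natAbs :=
  ((MUXF.tx_NIM MUXF.tx_ALG (MUXF.tx_IDL MUXF.tx_ALG) A B h.toF).2.1 a).resolve_right ha

lemma nI_cjI (h : CQ A B) {b : Ideal (OO A B)} (hb : b ≠ ⊥) : nI (cjI b) = nI b :=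
  ((MUXF.tx_NIM MUXF.tx_ALG (MUXF.tx_IDL MUXF.tx_ALG) A B h.toF).2.2.1 b hb).1

lemma cjI_cjI (h : CQ A B) {b : Ideal (OO A B)} (hb : b ≠ ⊥) : cjI (cjI b) = b :=
  ((MUXF.tx_NIM MUXF.tx_ALG (MUXF.tx_IDL MUXF.tx_ALG) A B h.toF).2.2.1 b hb).2.1

lemma cjI_ne_bot (h : CQ A B) {b : Ideal (OO A B)} (hb : b ≠ ⊥) : cjI b ≠ ⊥ :=
  ((MUXF.tx_NIM MUXF.tx_ALG (MUXF.tx_IDL MUXF.tx_ALG) A B h.toF).2.2.1 b hb).2.2.1

lemma nI_mem (h : CQ A B) {b : Ideal (OO A B)} (hb : b ≠ ⊥) : ((nI b : ℕ) : OO A B) ∈ b :=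
  ((MUXF.tx_NIM MUXF.tx_ALG (MUXF.tx_IDL MUXF.tx_ALG) A B h.toF).2.2.1 b hb).2.2.2

lemma natCast_ne_zero' (h : CQ A B) {n : ℕ} (hn : n ≠ 0) : ((n : ℕ) : OO A B) ≠ 0 := by
  intro h0
  have := congrArg emb h0
  rw [emb_natCast h, emb_zero h] at this
  exact hn (by exact_mod_cast this)

/-- cancellation of a nonzero ideal -/
lemma mul_le_mul_iff (h : CQ A B) {b : Ideal (OO A B)} (hb : b ≠ ⊥) {c c' : Ideal (OO A B)} :
    b * c ≤ b * c' ↔ c ≤ c' :=
  (MUXF.tx_NIM MUXF.tx_ALG (MUXF.tx_IDL MUXF.tx_ALG) A B h.toF).2.2.2 b c c' hb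

lemma mul_cancel (h : CQ A B) {b : Ideal (OO A B)} (hb : b ≠ ⊥) {c c' : Ideal (OO A B)}
    (hc : b * c = b * c') : c = c' :=
  le_antisymm ((mul_le_mul_iff h hb).1 hc.le) ((mul_le_mul_iff h hb).1 hc.ge)

/-- every nonzero ideal times `Om` is the lattice of a `PeriodPair` -/
lemma exists_isLI (h : CQ A B) {b : Ideal (OO A B)} (hb : b ≠ ⊥) {Om : ℂ} (hO : Om ≠ 0) :
    ∃ L : PeriodPair, IsLI b L Om := by
  obtain ⟨L, hL⟩ := MUXF.tx_LAT1 MUXF.tx_ALG A B h.toF b Om hb hO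
  exact ⟨L, hL.b_ne, hL.om_ne, hL.mem⟩

lemma IsLI.hasCM (h : CQ A B) {b : Ideal (OO A B)} {L : PeriodPair} {om : ℂ}
    (hL : IsLI b L om) : HasCM A B L := fun x z hz => by
  obtain ⟨y, hy, rfl⟩ := (hL.mem z).1 hz
  refine (hL.mem _).2 ⟨x * y, b.mul_mem_left x hy, ?_⟩
  rw [emb_mul h]
  ring

end

end

end Pool.Agent.MUX


end

section

/-!
# MUX-NS, block TN: TYPE (helper4). `PAPER_NS.md`, section 3, any class number

`3` inert in `k`, `V` above `3`, `v = V.valuation` (multiplicative). `L_i = R.L i`, `om_i = R.om i`, `L_0 = R.L R.i0 = om_0 emb O`, `mu_i = muX R i = om_i N(b_i)/om_0`,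
`P_i(x, y) = PhiI (R.b i) e x y`. `σ` an automorphism of `ℂ / k` in the inertia group at `V` of a large Galois extension `F / k`. RESULT (`Sn_TYF`): all values
`PhiK R e kk x y / (u om_0)` are `pi` times elements of the inertia field of `F`, on which `v` is unramified, and `v(pi)^8 v(3)^i = 1`.

IDEA. `σ` is trivial on `RF (m')`, `m'` prime to 3 (`Sn_RFIN`), so it acts on the points of level `m = 3^(j+1) m'` of every `L_i` as `d_i c`, `c ∈ O`, `c ≡ 1` modulo `m'`, `d_i = ±1`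
(ACI). `σ u = d_0 u` (SGU), `σ mu_i = d_0 d_i mu_i` (SGM), `e(c) σ(P_i/om_i) = d_i P_i/om_i` (VAL; section 9 of PAPER_X), so
`e(c) σ(P_i/(u om_0)) = P_i/(u om_0)` (VAK), and `e(c) = w(c)^i`. `tau = Σ w(x)⁻¹ r(x om_0/3)` (`r = -y/x²` the local parameter on `u L_0`): `σ tau = w(c) tau`,
`v(tau)^8 = v 3` (TAU). So `tau^i P_i/(u om_0)` is fixed by the inertia group.

Every statement is a `def Nt_X : Prop`; the module NST_X proves `theorem nt_X (h : ..) .. : Nt_X` in `Pool/Agent/NS/T_X.lean`, namespace `Pool.Agent.NST` (private lemmas in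
`Pool.Agent.NST.X`), with the statements named under USES as hypotheses (fewer is fine). Unconditional and usable: `Pool.Agent.MU3B.b_X : St_X` (`MU3/BAll.lean`),
`Pool.Agent.MU3A.ta_SCP`, `Pool.Agent.MUXU.u_X : Su_X` (`MUX/UAll.lean`), helper51's library `MUX/XLib.lean` (`emb_mul`, `nm_mul`, `nI_sp`, `nI_mem`, `IsLI.hasCM`, ..; import it), the lemmas of
`MUX/VX.lean` (imported). The statements `Sy_X` are those of `MUX/StYX.lean`, `Se_X` those of `NS/StEN.lean`. `MUXF.sp`, `MUXF.nI`, `MUXF.PhiI` are `MUX.sp`, `MUX.nI`, `MUX.PhiI` by `rfl`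
(`MUXY.cqF`, `liF`, `eiF` convert the structures).
-/

set_option autoImplicit false

namespace Pool.Agent.NST

open _root_.MU3 _root_.Pool.Agent.MU3A _root_.Pool.Agent.MU3B _root_.Pool.Agent.RI _root_.Pool.Agent.MUX _root_.Pool.Agent.MUXU
open OnePoint _root_.Pool.Agent.NS
open _root_.Pool.Agent.MUXV (GR InK)
open _root_.Pool.Agent.NSE (CtxN E3 su ru Rep)
open _root_.Pool.Agent.MUXY (ActN Dn)

noncomputable section

/-! ## Definitions -/

/-- the inertia field of `F` at `V` -/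
def KIn (A B : ℤ) (V : ValuationSubring ℂ) (F : IntermediateField (kk A B) ℂ) : Subfield ℂ where
  carrier := {w | w ∈ F ∧ ∀ σ : ℂ ≃+* ℂ, InI A B V (F : Set ℂ) σ → σ w = w}
  one_mem' := ⟨F.one_mem, fun σ _ => map_one σ⟩
  zero_mem' := ⟨F.zero_mem, fun σ _ => map_zero σ⟩
  mul_mem' := fun {x y} hx hy => ⟨F.mul_mem hx.1 hy.1, fun σ hσ => by
    rw [map_mul, hx.2 σ hσ, hy.2 σ hσ]⟩
  add_mem' := fun {x y} hx hy => ⟨F.add_mem hx.1 hy.1, fun σ hσ => by
    rw [map_add, hx.2 σ hσ, hy.2 σ hσ]⟩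
  neg_mem' := fun {x} hx => ⟨F.neg_mem hx.1, fun σ hσ => by rw [map_neg, hx.2 σ hσ]⟩
  inv_mem' := fun x hx => ⟨F.inv_mem hx.1, fun σ hσ => by rw [map_inv₀, hx.2 σ hσ]⟩

/-- `σ` acts on the points of level `m` of every lattice `L_i` as `d_i c`, `d_i = ±1`; in particular `L_i^σ = L_i` -/
structure ActT {A B : ℤ} {n : ℕ} {ι : Type} (R : Reps A B n ι) (m : ℕ) (σ : ℂ ≃+* ℂ)
    (c : OO A B) (d : ι → ℤ) : Prop where
  fix : FixK A B σ
  sgn : ∀ i, d i = 1 ∨ d i = -1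
  act : ∀ i, ActN σ m (sp c) (R.L i) (R.L i) (d i * emb c)
  zeta : ∀ z : ℂ, z ^ m = 1 → σ z = z ^ nI (sp c)

/-! ## Roots of unity and the Teichmueller character -/

/-- (RTU) roots of unity of order prime to `3` are determined by their residues.

PROOF. `r ≠ 0`. `t = z'/z` (`v z = 1` since `z^r = 1`), `t^r = 1`, `v(t - 1) < 1`. If `t ≠ 1` then `Σ_(i < r) t^i = 0` (`geom_sum_mul`), but `v(t^i - 1) ≤ v(t - 1) < 1`, so `v r = v(Σ (t^i - 1)) < 1`; `r` is prime to `3`: `1 = 3 a + r b` with integers gives `v 1 < 1`.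
(`ZET.v_nat`, `ZET.root_one`, `ZET.frob_root` in `Pool/Agent/MUX/C_ZET.lean` are these lemmas for any prime number `q` instead of `3`.) Second part: `σ z` is a root of unity too. -/
def Nt_RTU : Prop :=
  ∀ (V : ValuationSubring ℂ), V.valuation (3 : ℂ) < 1 → ∀ r : ℕ, ¬ 3 ∣ r →
    (∀ z z' : ℂ, z ^ r = 1 → z' ^ r = 1 → V.valuation (z' - z) < 1 → z' = z) ∧
    ∀ σ : ℂ ≃+* ℂ, (∀ z : ℂ, z ^ r = 1 → V.valuation (σ z - z) < 1) →
      ∀ z : ℂ, (z = 0 ∨ z ^ r = 1) → σ z = z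

/-- (TEI) existence of the Teichmueller character.

USES RTU. PROOF. `v 3 < 1` (`OverI` for `x = 3`). `v(emb x) ≤ 1` (integral), `v(emb x) = 1` for `x ∉ (3)`, `v(emb x) ≤ v 3` for `x ∈ (3)`. `O/(3)` is a field (see `Se_CTX`: `3 ∣ nm x` only for `x ∈ (3)`) with `9` elements (`nI_sp`, `nm 3 = 9`), so `x^8 - 1 ∈ (3)` for `x ∉ (3)` (`FiniteField.pow_card_sub_one_eq_one`, or
`pow_card_eq_one'` in the units; or by hand: `(a + b w)^3 ≡ a + b w^3` modulo 3 and `w^2 = A + B w`). So `v(emb x^8 - 1) ≤ v 3`. `X^8 - 1 = ∏ (X - ζ)`, `ζ` the eight 8th roots of unity. As the product of the `v(emb x - ζ)` is `< 1` there is `ζ` with `v(emb x - ζ) < 1`; it is unique (RTU, `r = 8`), for `ζ' ≠ ζ` `v(emb x - ζ') = 1`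
(`v(ζ - ζ') ≤ 1` and not `< 1`), so `v(emb x - ζ) = v(emb x^8 - 1) ≤ v 3`. `w x := ζ`, `w x := 0` for `x ∈ (3)`. `one`, `mul`, `per`: uniqueness (`(3)` is prime). -/
def Nt_TEI : Prop :=
  ∀ (A B : ℤ) (V : ValuationSubring ℂ), CaseI A B → OverI V (idl (A := A) (B := B) 3) →
    ∃ w : OO A B → ℂ, IsTei V w

/-! ## Fields -/

/-- (GLC) a finite Galois extension of `k` which contains given numbers.

PROOF. `kk A B = ℚ(wC)` is finite over `ℚ` (`wC² = A + B wC`; `ZET.kk_fin` in `Pool/Agent/MUX/C_ZET.lean`). `E ⊔ adjoin (kk A B) T` is finite dimensional (`IntermediateField.finiteDimensional_adjoin` or `finiteDimensional_iSup`; the elements of `T` are integral over `kk A B`). `F` = its normal closure in `ℂ` (`IntermediateField.normalClosure`; finite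
dimensional and normal; separable: characteristic `0`). See `RN_LIF`/`Sr_LIF` for the same construction. -/
def Nt_GLC : Prop :=
  ∀ A B : ℤ, CQ A B → ∀ E : IntermediateField (kk A B) ℂ, FiniteDimensional (kk A B) E →
    ∀ T : Set ℂ, T.Finite → (∀ t ∈ T, IsAlgebraic ℚ t) →
    ∃ F : IntermediateField (kk A B) ℂ, FiniteDimensional (kk A B) F ∧ IsGalois (kk A B) F ∧
      E ≤ F ∧ T ⊆ (F : Set ℂ)

/-- (UNF) the inertia field is unramified.

USES Se_RNG-type facts (`Pool.Agent.MUXE.te_RNG : Sxe_RNG`). PROOF. As `Pool/Agent/MU3/E_RAM.lean` (use its lemmas `int_le`, `exists_prime`, `val_notMem`, `ord_le`, `le_ord`). `k' = kk A B`, `w` = the prime `{x ∈ 𝓞 F : v x < 1}` of `𝓞 F` (`exists_prime` for `z = 3`), `I = {σ ∈ Gal(F/k') : v(σ x - x) < 1 for all x ∈ F, v x ≤ 1}`,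
`I = w.inertia Gal(F/k')` (the computation of `hin` in `RAM.unram`: `x = n/d`, `d ∉ w`; the other inclusion is clear). `K₁ = fixedField I`. (1) `y ∈ KIn` implies `y ∈ K₁`: `σ ∈ I` extends to an automorphism `s` of `ℂ` (`u_AUE`; `ZET.ext_aut` in `MUX/C_ZET.lean`), `InI A B V F s`. (2) `w ∩ 𝓞 k' = 3 𝓞 k'` (`OverI`, `RingE.int`).
`Ideal.card_inertia_eq_ramificationIdxIn` for `Gal(F/k')`: `e(w/(3)) = |I|`; for `Gal(F/K₁) = I` (Galois theory; all of its elements are in the inertia group of `w`): `e(w/w₁) = |I|`, `w₁ = w ∩ 𝓞 K₁`. (3) `HeightOneSpectrum.valuation_liesOver`: `w.valuation F 3 = exp(-1)^|I|`, `w.valuation F y = (w₁.valuation K₁ y)^|I|`; `v y < 1` gives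
`w₁.valuation K₁ y < 1` (if it were `≥ 1` then `w.valuation F y ≥ 1`; `ord_le` for `y⁻¹`), so `≤ exp(-1)`, so `w.valuation F (y/3) ≤ 1` and `v(y/3) ≤ 1` (`ord_le`). (`K₁` as a number field: `NumberField K₁`, `Algebra K₁ F`, `IsGalois K₁ F`.) -/
def Nt_UNF : Prop :=
  ∀ (A B : ℤ) (V : ValuationSubring ℂ), CaseI A B → OverI V (idl (A := A) (B := B) 3) →
    ∀ (F : IntermediateField (kk A B) ℂ) [FiniteDimensional (kk A B) F] [IsGalois (kk A B) F],
    ∀ w ∈ KIn A B V F, V.valuation w < 1 → V.valuation w ≤ V.valuation (3 : ℂ)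

/-! ## Finiteness and algebraicity -/

/-- (FGP) finitely many pairs of cusps generate all values.

PROOF. `G = AddSubgroup.closure T` is a finitely generated abelian group, so every subgroup is finitely generated (`ℤ` is Noetherian: `isNoetherian_of_fg_of_noetherian` for the `ℤ`-module `G`); the subgroup generated by all values is generated by finitely many values (`Submodule.fg_span_iff_..`/`Submodule.exists_finset_of_mem_iSup`, or: take a finite
set of generators, each is in the closure of finitely many values). `S` = the corresponding pairs, `D` = the product of all denominators (`Dn`), `D = 3^j N`, `¬ 3 ∣ N` (`Nat.exists_eq_pow_mul_and_not_dvd`). -/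
def Nt_FGP : Prop :=
  ∀ (P : OnePoint ℚ → OnePoint ℚ → ℂ) (T : Finset ℂ),
    (∀ x y, P x y ∈ AddSubgroup.closure (T : Set ℂ)) →
    ∃ (S : Finset (OnePoint ℚ × OnePoint ℚ)) (j N : ℕ), N ≠ 0 ∧ ¬ 3 ∣ N ∧
      (∀ q ∈ S, Dn (3 ^ j * N) q.1 ∧ Dn (3 ^ j * N) q.2) ∧
      ∀ x y, P x y ∈ AddSubgroup.closure
        ((fun q : OnePoint ℚ × OnePoint ℚ => P q.1 q.2) '' (S : Set (OnePoint ℚ × OnePoint ℚ)))

/-- (FGV) the values are in a finitely generated group.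

PROOF. `Pool.Agent.MUXT.fg_EI` (`Pool/Agent/MUX/XTF7.lean`) for `b = R.b i`: a finite set `T_i`. `T = ⋃_i (kk i/s) T_i` (`AddSubgroup.closure` and the additive map `x ↦ (kk i/s) x`; sums). -/
def Nt_FGV : Prop :=
  ∀ (A B : ℤ), CQ A B → ∀ (n : ℕ) (ι : Type) [Fintype ι] (R : Reps A B n ι)
    (g : Ideal (OO A B)) (e : OO A B → ℂ), g ≠ ⊥ → IsEI g e → ∀ (kk : ι → ℂ) (s : ℂ),
    ∃ T : Finset ℂ, ∀ x y, PhiK R e kk x y / s ∈ AddSubgroup.closure (T : Set ℂ)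

/-- (ALV) the values are algebraic.

USES Sy_ALP. PROOF. `PhiK/(u om_0) = Σ kk_i (P_i/om_0)/u`; `kk_i` is a root of unity (`r ≠ 0`). `g = idl (3 f) ≠ ⊥, ⊤` (`nm (3 f) = 9 f² ≠ 1`), `nI (R.b i)` is prime to `3 f` (`R.cop`; Bezout). -/
def Nt_ALV : Prop :=
  ∀ (A B : ℤ), CQ A B → TorX A B → ∀ (f : ℕ), f ≠ 0 → ∀ (ι : Type) [Fintype ι]
    (R : Reps A B (3 * f) ι) (e : OO A B → ℂ), IsEI (idl (A := A) (B := B) (3 * f)) e →
    ∀ r : ℕ, r ≠ 0 → (∀ x, e x ≠ 0 → e x ^ r = 1) → ∀ kk : ι → ℂ, (∀ i, kk i ^ r = 1) →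
    ∀ u : ℂ, IsAlgebraic ℚ u → ∀ x y : OnePoint ℚ,
      IsAlgebraic ℚ (PhiK R e kk x y / (u * R.om R.i0))

/-- (ALT) the coordinates of torsion points are algebraic.

USES Se_LEG, Se_COE. PROOF. (LEG): `w₁`, `w₂` of order two, `℘ w₁ = e`, `℘ w₂ - ℘ w₁ = u²`, `℘ w_i = xn L w_i + 1/12 ∈ RF (2)` (`Tor (idl 2) L w_i`: `emb (2 y) w_i = emb y (2 w_i)`, `IsLI.hasCM`). `lam = -3 e/u² - 1` (COE). `RF m` is finite over `kk A B`, which is finite over `ℚ`, so its elements are algebraic; `u` is algebraic since `u²` is.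
`N z ∈ L`, `z ∉ L`: `xn L z ∈ RF (idl N)`, `kap L ∈ RF (idl N)`, `g₂ = (1 + 1728 kap)/12`, `g₃ = -g₂/18`, `℘'² = 4℘³ - g₂℘ - g₃`. -/
def Nt_ALT : Prop :=
  ∀ (A B : ℤ), CQ A B → TorX A B → ∀ (V : ValuationSubring ℂ), V.valuation (3 : ℂ) < 1 →
    ∀ (b : Ideal (OO A B)) (L : PeriodPair) (om : ℂ), IsNL b L om →
    ∀ u e lam : ℂ, GoodN V L u e lam →
      u ^ 2 ∈ RF (idl (A := A) (B := B) 2) ∧ e ∈ RF (idl (A := A) (B := B) 2) ∧
      lam ∈ RF (idl (A := A) (B := B) 2) ∧ IsAlgebraic ℚ u ∧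
      ∀ N : ℕ, N ≠ 0 → ∀ z, z ∉ L.lattice → (N : ℂ) * z ∈ L.lattice →
        IsAlgebraic ℚ (xu L u e z) ∧ IsAlgebraic ℚ (yu L u z) ∧ IsAlgebraic ℚ (ru L u e z)

/-! ## The action of an automorphism in the inertia group -/

/-- (ACI) the number `c` and the signs `d_i`.

USES Sy_MUU, Sy_BRI, Su_DET (`u_DET`). PROOF. `m = 3^(j+1) m'`. `Sn_RFIN` (second part): `σ y = y` for `y ∈ RF (idl m')`. `TorX.act (idl m)`: an ideal `a` prime to `idl m`, and `ActI σ (idl m) a L L' mu`, `IsNL b' L' om'` for every normalised `L`. For `L = L_0` this gives `ActI σ (idl m') a L L' mu` (`idl m ≤ idl m'`: `Tor (idl m') L z` implies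
`Tor (idl m) L z`; `IsCoprime`), so (`TorX.triv` for `idl m'`) `a = sp c`, `c - 1 ∈ idl m'`. `c ∉ idl 3`: otherwise `sp c`, `idl m ≤ idl 3 ≠ ⊤`. For any `i`, `L = L_i`: `ActI σ (idl m) (sp c) L L' mu`, `kap L' = σ (kap L) = kap L` (`kap L ∈ RF (idl m')`), both normalised, so `g₂`, `g₃` agree (`g₂ = (1728 kap + 1)/12`) and (`u_DET`) `L'.lattice = L.lattice`.
(BRI): `ActN σ m (sp c) L L mu`. `IsQ (sp c) L L mu`, and `IsQ (sp c) L L (emb c)` (definition; `c ≠ 0`), so `mu = ± emb c` (MUU). `zeta`: `TorX.zeta` with `M = m`, `m = idl m`, `L = L_0`. -/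
def Nt_ACI : Prop :=
  ∀ (A B : ℤ) (V : ValuationSubring ℂ), CaseI A B → OverI V (idl (A := A) (B := B) 3) →
    TorX A B → Sn_RFIN →
    ∀ (n : ℕ) (ι : Type) (R : Reps A B n ι) (j m' : ℕ), m' ≠ 0 → ¬ 3 ∣ m' →
    ∀ σ : ℂ ≃+* ℂ, FixK A B σ →
    (∀ y ∈ RF (idl (A := A) (B := B) m'), y ∈ V → σ y - y ∈ V.nonunits) →
    (∀ y ∈ RF (idl (A := A) (B := B) m'), σ y = y) ∧
    ∃ (c : OO A B) (d : ι → ℤ), c - 1 ∈ idl (A := A) (B := B) m' ∧
      c ∉ idl (A := A) (B := B) 3 ∧ ActT R (3 ^ (j + 1) * m') σ c d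

/-- (TCJ) conjugation of the coordinates `xu`, `yu`, `ru` on `L_0`.

PROOF. `L = L_0`, `d = d R.i0 = ±1`, `d² = 1`. `ActN.act` for `z`: `d emb c z ∉ L`, `℘(d emb c z) = σ(℘ z)`, `℘'(d emb c z) = σ(℘' z)`. `℘` is even, `℘'` is odd: `℘(emb c z) = σ(℘ z)`, `℘'(emb c z) = d σ(℘' z)`. `σ(u²) = u²`, `σ(u³) = d u³`, so `σ(xu z) = (℘(emb c z) - e)/u²`, `σ(yu z) = d ℘'(emb c z)/(2 d u³)`; `ru = -yu/xu²`. -/
def Nt_TCJ : Prop :=
  ∀ (A B : ℤ) (n : ℕ) (ι : Type) (R : Reps A B n ι) (m : ℕ) (σ : ℂ ≃+* ℂ) (c : OO A B)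
    (d : ι → ℤ), ActT R m σ c d → ∀ u e : ℂ, u ≠ 0 → σ u = d R.i0 * u → σ e = e →
    ∀ z, (m : ℂ) * z ∈ (R.L R.i0).lattice → z ∉ (R.L R.i0).lattice →
      emb c * z ∉ (R.L R.i0).lattice ∧
      σ (xu (R.L R.i0) u e z) = xu (R.L R.i0) u e (emb c * z) ∧
      σ (yu (R.L R.i0) u z) = yu (R.L R.i0) u (emb c * z) ∧
      σ (ru (R.L R.i0) u e z) = ru (R.L R.i0) u e (emb c * z)

/-- (SGU) the sign `d_0`.

USES Se_GRN, Se_TPN. PROOF. `f ≥ 6` (`2 absD ∣ f`, `absD ≥ 3`), so `m' ≥ 3`. `L = L_0 = om emb O` (`R.nl`, `R.b0`), `z = om/m'`: `m' z ∈ L`, `z, 2 z ∉ L` (`2 z = om emb x` gives `2 = m' x`, `m' ∣ 2`). `z, 2 z ∉ InK` (TPN (1) with `N = m'`). So `v(yu z) = 1` (`Pool.Agent.MU3.Val.v_y_unit` in `Pool/Agent/MU3/VRed.lean` for the point `ξ z`, with `MUXV.inE_iff`).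
`c z - z ∈ L` (`c - 1 = m' y`), `℘'(d emb c z) = σ(℘' z)` (`ActN.act`; `m = 3^(j+1) m'`) and `℘'(d emb c z) = d ℘'(z)` (periodic, odd). `σ u = s u`, `s = ±1` (`σ(u²) = u²`), `yu z = ℘' z/(2 u³)`: `σ(yu z) = d s yu z`. If `d s = -1`: `σ(yu z) - yu z = -2 yu z` has valuation `1`, against the last hypothesis. So `s = d`. -/
def Nt_SGU : Prop :=
  ∀ (A B : ℤ) (V : ValuationSubring ℂ) (f : ℕ), SetN A B V f → ∀ (ι : Type)
    (R : Reps A B (3 * f) ι) (u e lam : ℂ), GoodN V (R.L R.i0) u e lam →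
    ∀ (j m' : ℕ), m' ≠ 0 → ¬ 3 ∣ m' → f ∣ m' → ∀ (σ : ℂ ≃+* ℂ) (c : OO A B) (d : ι → ℤ),
    c - 1 ∈ idl (A := A) (B := B) m' → ActT R (3 ^ (j + 1) * m') σ c d → σ (u ^ 2) = u ^ 2 →
    (V.valuation (yu (R.L R.i0) u (R.om R.i0 / m')) ≤ 1 →
      V.valuation (σ (yu (R.L R.i0) u (R.om R.i0 / m')) -
        yu (R.L R.i0) u (R.om R.i0 / m')) < 1) → σ u = d R.i0 * u

/-- (SGM) the signs `d_i`.

USES Sy_MUI, Sy_MUC, Sy_MUU (and `u_PHI`, `u_FUN`, `u_EQP`). PROOF. `μ = mu_i`. (MUI) `IsQ (cjI b_i) L_0 L_i μ`, (MUC) with `L' = L_0`, `M' = L_i` (`ActN.cj`): `IsQ (cjI b_i) L_0 L_i (σ μ)`, (MUU): `σ μ = s μ`, `s = ±1`. `μ L_0 ⊆ L_i`. `Φ` for `L_0 → L_0`, `Ψ` for `L_i → L_i` (PHI), (FUN): `Ψ(μ z) - σ μ Φ z ∈ L_i`, `σ μ L_0 ⊆ L_i`.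
`z = om_0/m'`: `z ∉ L_0`, `m z ∈ L_0` (`m = 3^(j+1) m'`). (EQP), `ActN.act`, `IsPhi.P`, `P'`: `Φ z - d_0 emb c z ∈ L_0`, and `emb c z - z ∈ L_0` (`c - 1 = m' y`), so `Φ z - d_0 z ∈ L_0`. `μ z = om_i N(b_i)/m' ∉ L_i`, even `2 μ z ∉ L_i`: `2 N(b_i) = m' x`, `x ∈ O`, would give `m' ∣ 2 N(b_i)`, `f ∣ 2 N(b_i)`, `f ∣ 2`
(`N(b_i)` is prime to `3 f`), but `f ≥ 3`. In the same way `Ψ(μ z) - d_i μ z ∈ L_i` (`m' μ z = μ om_0 ∈ L_i`). So `(d_i - s d_0) μ z ∈ L_i`; if `s d_0 = -d_i` then `2 μ z ∈ L_i`. So `s = d_0 d_i`. -/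
def Nt_SGM : Prop :=
  ∀ (A B : ℤ) (f : ℕ), CQ A B → 3 ≤ f → ∀ (ι : Type) (R : Reps A B (3 * f) ι) (j m' : ℕ),
    m' ≠ 0 → f ∣ m' → ∀ (σ : ℂ ≃+* ℂ) (c : OO A B) (d : ι → ℤ),
    c - 1 ∈ idl (A := A) (B := B) m' → ActT R (3 ^ (j + 1) * m') σ c d →
    ∀ i, σ (muX R i) = d R.i0 * d i * muX R i

/-- (VAL) conjugation of the values.

USES Sy_RA1. PROOF. `b = R.b i`, `L = L_i`, `om = om_i`, `g = idl (3 f) ≠ ⊤`, `m ∈ g`. `fn x := (d i : O) * c * x` satisfies `IsF b b om om (d i * emb c) fn`. (RA1) with `c := b`, `a = sp c`, `M = r.den`, `β = r.num` (`Rat.num_div_den`) for a cusp `r` with `Dn m r`, and `fun x => σ (e x) = e`: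
`nI b * e (fn (nI b)) * σ (PhiI b e ∞ r/om) = nI b * e (nI b) * (PhiI b e ∞ r/om)`. `e (fn (nI b)) = e (d i) e c e (nI b)`, `e (d i) = d i` (`one`, `neg`), `e (nI b) ≠ 0` (`supp`; `nI b` is prime to `3 f`, `R.cop`), `nI b ≠ 0`: `e c * σ (PhiI b e ∞ r/om) = d i * (PhiI b e ∞ r/om)`.
`PhiI b e x y = PhiI b e ∞ y - PhiI b e ∞ x` (unfold `PhiI`, `IcI`), `PhiI b e ∞ ∞ = 0`. -/
def Nt_VAL : Prop :=
  ∀ (A B : ℤ) (f : ℕ), CQ A B → f ≠ 0 → ∀ (ι : Type) (R : Reps A B (3 * f) ι)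
    (e : OO A B → ℂ), IsEI (idl (A := A) (B := B) (3 * f)) e → ∀ m : ℕ, m ≠ 0 → 3 * f ∣ m →
    ∀ (σ : ℂ ≃+* ℂ) (c : OO A B) (d : ι → ℤ), ActT R m σ c d → (∀ x, σ (e x) = e x) →
    ∀ (i : ι) (x y : OnePoint ℚ), Dn m x → Dn m y →
      e c * σ (PhiI (R.b i) e x y / R.om i) = d i * (PhiI (R.b i) e x y / R.om i)

/-- (VAK) conjugation of the values of `PhiK/(u om_0)`.

USES SGM, VAL. PROOF. `P_i/(u om_0) = (P_i/om_i) (mu_i/N(b_i))/u` (`mu_i = om_i N(b_i)/om_0`). Apply `σ`, (VAL), (SGM), `σ u = d_0 u`, `σ (kk i) = kk i`: `e(c) σ(kk_i P_i/(u om_0)) = kk_i d_i (P_i/om_i) d_0 d_i (mu_i/N(b_i))/(d_0 u) = kk_i P_i/(u om_0)`. Sum over `i` (`PhiK`). -/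
def Nt_VAK : Prop :=
  ∀ (A B : ℤ) (f : ℕ), CQ A B → 3 ≤ f → ∀ (ι : Type) [Fintype ι] (R : Reps A B (3 * f) ι)
    (e : OO A B → ℂ), IsEI (idl (A := A) (B := B) (3 * f)) e → ∀ (j m' : ℕ), m' ≠ 0 → f ∣ m' →
    ∀ (σ : ℂ ≃+* ℂ) (c : OO A B) (d : ι → ℤ), c - 1 ∈ idl (A := A) (B := B) m' →
    ActT R (3 ^ (j + 1) * m') σ c d → (∀ x, σ (e x) = e x) →
    ∀ kk : ι → ℂ, (∀ i, σ (kk i) = kk i) → ∀ u : ℂ, u ≠ 0 → σ u = d R.i0 * u →
    ∀ x y : OnePoint ℚ, Dn (3 ^ (j + 1) * m') x → Dn (3 ^ (j + 1) * m') y →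
      e c * σ (PhiK R e kk x y / (u * R.om R.i0)) = PhiK R e kk x y / (u * R.om R.i0)

/-! ## The number `tau` -/

/-- (TRC) `r(x Y) ≡ x r(Y)` for the points of order three, and `v(r)^8 = v 3`.

USES Se_PTS, Se_ISO. PROOF. (PTS): `v(s)^4 = v 3`, `r² = s (1 + a₂ s + a₄ s²)`, `v(a₂), v(a₄) ≤ 1`, so `v(r)² = v(s)`, `v(r)^8 = v 3`. `x ∉ (3)`: (ISO) with `M = L`, `u' = u`, `e' = e`, `lam' = lam`, `μ = emb x` (`x ≠ 0`; `emb x L ⊆ L`), `N = (nm x).natAbs` (prime to `3`: `CtxN.nrm`; `emb x z ∈ L` implies `nm x z = emb (star x) emb x z ∈ L`):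
`ru (emb x Y) = P(s) + r Q(s)`, `v(P(0)) ≤ v 3`, `v(Q(0) - emb x) ≤ v 3`, `P, Q` over `V`. `v(P(s)) ≤ max(v 3, v s) ≤ v(s) = v(r)²`, `v(Q(s) - emb x) ≤ max(v s, v 3) ≤ v(s)`; `v(r) < 1`, `r ≠ 0`: both `P(s)` and `r (Q(s) - emb x)` have valuation `< v(r)`. -/
def Nt_TRC : Prop :=
  ∀ (A B : ℤ) (V : ValuationSubring ℂ), CtxN A B V → ∀ (b : Ideal (OO A B)) (L : PeriodPair)
    (om u e lam : ℂ), IsLI b L om → GoodN V L u e lam →
    (∀ Y ∈ E3 L, V.valuation (ru L u e Y) ^ 8 = V.valuation (3 : ℂ)) ∧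
    ∀ x : OO A B, x ∉ idl (A := A) (B := B) 3 → ∀ Y ∈ E3 L,
      emb x * Y ∈ E3 L ∧
      V.valuation (ru L u e (emb x * Y) - emb x * ru L u e Y) < V.valuation (ru L u e Y)

/-- (TAU) the number `tau`.

USES TRC, TCJ, ALT, Se_PTS. PROOF. `L = L_0 = om emb O`, `Y₀ = om/3 ∈ E3 L`. `T(x) := (w x)⁻¹ ru(emb x Y₀)` depends only on `x` modulo `(3)` (`IsTei.per`; `emb (3 y) Y₀ = om emb y ∈ L`, and `ru` is periodic: (PTS) for `x ∉ (3)`; for `x ∈ (3)`: `w x = 0`, `T(x) = 0`). `tau := ∑ᶠ q : O ⧸ idl 3, T(Quotient.out q)`, a finite sum (`finite_quot`).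
(1) For the `8` classes `q ≠ 0` (`nI (idl 3) = 9`, `nI_sp`): `v(T(x) - ru Y₀) < v(ru Y₀)`: `T(x) - ru Y₀ = (w x)⁻¹ (ru(x Y₀) - emb x ru Y₀) + (w x)⁻¹ (emb x - w x) ru Y₀`, (TRC), `v(emb x - w x) ≤ v 3 < 1`, `v(w x) = 1`. So `v(tau - 8 ru Y₀) < v(ru Y₀)`, `v 8 = 1`: `v(tau) = v(ru Y₀)`, `v(tau)^8 = v 3` (TRC).
(2) algebraic: (ALT) with `N = 3`, roots of unity. (3) `σ(T(x)) = (w x)⁻¹ ru(emb (c x) Y₀) = w(c) T(c x)` for `x ∉ (3)` ((TCJ): `m Y₀ ∈ L` as `3 ∣ m`; `w (c x) = w c w x`, `w c ≠ 0`), and both sides are `0` for `x ∈ (3)`. `q ↦ c q` is a bijection of `O/(3)` (`c` is invertible modulo `(3)`: `(3)` is maximal, `CtxN.max`): `σ tau = w(c) tau`. -/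
def Nt_TAU : Prop :=
  ∀ (A B : ℤ) (V : ValuationSubring ℂ), CtxN A B V → TorX A B → ∀ (n : ℕ) (ι : Type)
    (R : Reps A B n ι) (u e lam : ℂ), GoodN V (R.L R.i0) u e lam →
    ∀ w : OO A B → ℂ, IsTei V w →
    ∃ tau : ℂ, V.valuation tau ^ 8 = V.valuation (3 : ℂ) ∧ IsAlgebraic ℚ tau ∧
      ∀ (m : ℕ), 3 ∣ m → ∀ (σ : ℂ ≃+* ℂ) (c : OO A B) (d : ι → ℤ), ActT R m σ c d →
        c ∉ idl (A := A) (B := B) 3 → σ u = d R.i0 * u → σ e = e → (∀ x, σ (w x) = w x) →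
        σ tau = w c * tau

/-! ## The result -/

/-- (TYF) the result (`typ`, `unr`, `vpi` of `MUXHN.HypN`).

USES Sn_RFIN, Se_CTX, RTU, GLC, UNF, FGP, FGV, ALV, ALT, ACI, SGU, VAK, TAU (helper4). PROOF. `Q x y = PhiK R e kk x y/(u om_0)`. (FGV), (FGP): pairs `S`, `D = 3^j N`. `m' = f N`, `m = 3^(j+1) m'`. `tau` (TAU; `CtxN` from Se_CTX). (GLC): `F ⊇ RF (idl m')` finite Galois over `k`, with all `Q q`, `q ∈ S`, `tau`, `yu L_0 u (om_0/m')`, and all roots of unity of order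
dividing `8 r`. `KI = KIn A B V F`, `pi = tau^(-i)`. Let `σ` be in the inertia group `InI A B V F`. (ACI): `c, d`. `u² , e ∈ RF (2) ≤ RF (m')` (ALT; `2 ∣ f`). (SGU), (RTU), (VAK), (TAU): `e(c) σ(Q q) = Q q`, `σ tau = w(c) tau`, `e(c) = w(c)^i`, so `σ(Q q tau^i) = Q q tau^i`: in `KI`. All other values are in the group generated by the `Q q`. (UNF). -/
def Sn_TYF : Prop :=
  ∀ (A B : ℤ) (V : ValuationSubring ℂ) (f : ℕ), SetN A B V f → TorX A B →
    ∀ (ι : Type) [Fintype ι] (R : Reps A B (3 * f) ι) (u el lam : ℂ),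
    GoodN V (R.L R.i0) u el lam → ∀ w : OO A B → ℂ, IsTei V w →
    ∀ e : OO A B → ℂ, IsEI (idl (A := A) (B := B) (3 * f)) e → ∀ r : ℕ, ¬ 3 ∣ r →
    (∀ x, e x ≠ 0 → e x ^ r = 1) → ∀ i : ℕ,
    (∀ x, x - 1 ∈ idl (A := A) (B := B) f → x ∉ idl (A := A) (B := B) 3 → e x = w x ^ i) →
    ∀ kk : ι → ℂ, (∀ i, kk i ^ r = 1) →
    ∃ (pi : ℂ) (KI : Subfield ℂ),
      (∀ x y : OnePoint ℚ, ∃ w' ∈ KI, PhiK R e kk x y / (u * R.om R.i0) = pi * w') ∧
      (∀ w' ∈ KI, V.valuation w' < 1 → V.valuation w' ≤ V.valuation (3 : ℂ)) ∧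
      V.valuation pi ^ 8 * V.valuation (3 : ℂ) ^ i = 1

end

end Pool.Agent.NST


end

section

/-!
# MUX-NS, block TN, module VAL: conjugation of the values
-/

set_option autoImplicit false

namespace Pool.Agent.NST

open _root_.MU3 _root_.Pool.Agent.MU3A _root_.Pool.Agent.MU3B _root_.Pool.Agent.RI _root_.Pool.Agent.MUX _root_.Pool.Agent.MUXU
open OnePoint _root_.Pool.Agent.NS
open _root_.Pool.Agent.MUXV (GR InK)
open _root_.Pool.Agent.NSE (CtxN E3 su ru Rep)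
open _root_.Pool.Agent.MUXY (ActN Dn)

noncomputable section

namespace VAL

variable {A B : ℤ}

lemma phi_infty (b : Ideal (OO A B)) (e : OO A B → ℂ) : MUX.PhiI b e ∞ ∞ = 0 := by
  unfold MUX.PhiI
  exact sub_self _

lemma phi_sub (b : Ideal (OO A B)) (e : OO A B → ℂ) (x y : OnePoint ℚ) :
    MUX.PhiI b e x y = MUX.PhiI b e ∞ y - MUX.PhiI b e ∞ x := by
  unfold MUX.PhiI
  ring

lemma idl_ne_top {n : ℕ} (hn : n ≠ 1) : (idl (A := A) (B := B) n) ≠ ⊤ := by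
  intro h
  have h1 : (1 : OO A B) ∈ idl (A := A) (B := B) n := by
    rw [h]
    exact Submodule.mem_top
  obtain ⟨y, hy⟩ := Ideal.mem_span_singleton'.1 h1
  have h2 := congrArg QuadraticAlgebra.re hy
  simp only [QuadraticAlgebra.re_mul, QuadraticAlgebra.re_natCast, QuadraticAlgebra.im_natCast,
    QuadraticAlgebra.re_one, mul_zero, add_zero] at h2
  have h3 : (n : ℤ) ∣ ((1 : ℕ) : ℤ) := ⟨y.re, by push_cast; linarith⟩
  exact hn (Nat.dvd_one.1 (Int.natCast_dvd_natCast.1 h3))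

lemma coprime_idl {k n : ℕ} (h : k.Coprime n) :
    IsCoprime (MUX.sp ((k : ℕ) : OO A B)) (idl (A := A) (B := B) n) := by
  rw [Ideal.isCoprime_span_singleton_iff]
  obtain ⟨a, b, hab⟩ := Nat.isCoprime_iff_coprime.2 h
  refine ⟨(a : OO A B), (b : OO A B), ?_⟩
  exact_mod_cast congrArg (fun t : ℤ => (t : OO A B)) hab

lemma isF {b : Ideal (OO A B)} (h : CQ A B) (om : ℂ) (c : OO A B) (d : ℤ) :
    MUXY.IsF b b om om (d * emb c) (fun x => (d : OO A B) * c * x) where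
  mem := fun x hx => b.mul_mem_left _ hx
  eq := fun x _ => by
    rw [_root_.Pool.Agent.MUX.emb_mul h, _root_.Pool.Agent.MUX.emb_mul h, _root_.Pool.Agent.MUX.emb_intCast h]
    ring
  add := fun x _ y _ => mul_add _ _ _
  sub := fun x _ y _ => mul_sub _ _ _
  smul := fun x _ r => by ring
  nb := fun x _ => by ring

lemma e_sgn {g : Ideal (OO A B)} {e : OO A B → ℂ} (he : IsEI g e) {d : ℤ} (hd : d = 1 ∨ d = -1) :
    e (d : OO A B) = d := by
  rcases hd with hd | hd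
  · rw [hd, Int.cast_one, Int.cast_one, he.one]
  · rw [hd, Int.cast_neg, Int.cast_one, he.neg, Int.cast_neg, Int.cast_one]

end VAL

open _root_.Pool.Agent.NST.VAL in
theorem nt_VAL (h : MUXY.Sy_RA1) : Nt_VAL := by
  intro A B f hQ hf ι R e he m hm hfm σ c d hT hσ i x y hx hy
  have hcop := R.cop i
  have hn0 : MUX.nI (R.b i) ≠ 0 := by
    intro h0
    rw [h0, Nat.coprime_zero_left] at hcop
    omega
  have hnC : ((MUX.nI (R.b i) : ℕ) : ℂ) ≠ 0 := Nat.cast_ne_zero.2 hn0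
  have hen : e ((MUX.nI (R.b i) : ℕ) : OO A B) ≠ 0 := (he.supp _).2 (coprime_idl hcop)
  have hg : (idl (A := A) (B := B) (3 * f)) ≠ ⊤ := idl_ne_top (by omega)
  have hmg : ((m : ℕ) : OO A B) ∈ idl (A := A) (B := B) (3 * f) :=
    Ideal.mem_span_singleton.2 (Nat.cast_dvd_cast hfm)
  have hd := hT.sgn i
  have hd2 : ((d i : ℤ) : ℂ) * ((d i : ℤ) : ℂ) = 1 := by
    rcases hd with hd | hd <;> rw [hd] <;> norm_num
  have hfe : (fun x => σ (e x)) = e := funext hσ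
  have key : ∀ x : OnePoint ℚ, Dn m x →
      e c * σ (MUX.PhiI (R.b i) e ∞ x / R.om i) = d i * (MUX.PhiI (R.b i) e ∞ x / R.om i) := by
    intro x hx
    induction x using OnePoint.rec with
    | infty => rw [phi_infty, zero_div, map_zero, mul_zero, mul_zero]
    | coe r =>
      have h1 := h A B (MUXY.cqF hQ) σ m (MUX.sp c) (R.b i) (R.b i) (R.L i) (R.L i) (R.om i)
        (R.om i) (d i * emb c) (fun x => ((d i : ℤ) : OO A B) * c * x)
        (MUXY.liF (R.nl i).toIsLI) (MUXY.liF (R.nl i).toIsLI) (hT.act i) (isF hQ _ _ _)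
        hT.zeta (idl (A := A) (B := B) (3 * f)) e (MUXY.eiF he) hg hm hmg r.den r.den_nz
        (hx r rfl) r.num
      rw [Rat.num_div_den, hfe, hσ, hσ] at h1
      have h2 : e (((d i : ℤ) : OO A B) * c * ((MUX.nI (R.b i) : ℕ) : OO A B)) =
          d i * e c * e ((MUX.nI (R.b i) : ℕ) : OO A B) := by
        rw [he.mul, he.mul, e_sgn he hd]
      have h3 : ((MUX.nI (R.b i) : ℕ) : ℂ) * e ((MUX.nI (R.b i) : ℕ) : OO A B) *
          ((d i : ℂ) * e c * σ (MUX.PhiI (R.b i) e ∞ (r : OnePoint ℚ) / R.om i)) =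
          ((MUX.nI (R.b i) : ℕ) : ℂ) * e ((MUX.nI (R.b i) : ℕ) : OO A B) *
          (MUX.PhiI (R.b i) e ∞ (r : OnePoint ℚ) / R.om i) := by
        have h4 := h1
        change ((MUX.nI (R.b i) : ℕ) : ℂ) *
          e (((d i : ℤ) : OO A B) * c * ((MUX.nI (R.b i) : ℕ) : OO A B)) *
            σ (MUX.PhiI (R.b i) e ∞ (r : OnePoint ℚ) / R.om i) =
          ((MUX.nI (R.b i) : ℕ) : ℂ) * e ((MUX.nI (R.b i) : ℕ) : OO A B) *
            (MUX.PhiI (R.b i) e ∞ (r : OnePoint ℚ) / R.om i) at h4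
        rw [h2] at h4
        linear_combination h4
      have h5 := mul_left_cancel₀ (mul_ne_zero hnC hen) h3
      linear_combination (d i : ℂ) * h5 -
        e c * σ (MUX.PhiI (R.b i) e ∞ (r : OnePoint ℚ) / R.om i) * hd2
  rw [phi_sub (R.b i) e x y, sub_div, map_sub, mul_sub, key x hx, key y hy]
  ring

end

end Pool.Agent.NST


end

section

/-!
# MUX-NS, block TN, module ALT: the coordinates of torsion points are algebraic (helper2)
-/

set_option autoImplicit false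

namespace Pool.Agent.NST

open _root_.MU3 _root_.Pool.Agent.MU3A _root_.Pool.Agent.MU3B _root_.Pool.Agent.RI _root_.Pool.Agent.MUX _root_.Pool.Agent.MUXU
open OnePoint _root_.Pool.Agent.NS
open _root_.Pool.Agent.MUXV (GR InK)
open _root_.Pool.Agent.NSE (CtxN E3 su ru Rep)
open _root_.Pool.Agent.MUXY (ActN Dn)

noncomputable section

namespace ALT

variable {A B : ℤ}

/-- `k` is algebraic over `ℚ` -/
theorem kk_alg (h : CQ A B) : Algebra.IsAlgebraic ℚ (kk A B) := by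
  have hw : wC A B ^ 2 = A + B * wC A B := by rw [sq]; exact _root_.Pool.Agent.MUX.wC_sq h
  refine IntermediateField.isAlgebraic_adjoin fun x hx => ?_
  rw [Set.mem_singleton_iff] at hx
  subst hx
  refine ⟨Polynomial.X ^ 2 - (Polynomial.C (B : ℚ) * Polynomial.X + Polynomial.C (A : ℚ)), ?_, ?_⟩
  · apply Polynomial.monic_X_pow_sub
    exact lt_of_le_of_lt Polynomial.degree_linear_le (by norm_num)
  · rw [Polynomial.eval₂_sub, Polynomial.eval₂_pow, Polynomial.eval₂_X, Polynomial.eval₂_add,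
      Polynomial.eval₂_mul, Polynomial.eval₂_C, Polynomial.eval₂_C, Polynomial.eval₂_X, map_intCast,
      map_intCast, hw]
    ring

lemma idl_ne (h : CQ A B) {n : ℕ} (hn : n ≠ 0) : idl (A := A) (B := B) n ≠ ⊥ := by
  intro h0
  rw [Ideal.span_singleton_eq_bot] at h0
  have h7 := _root_.Pool.Agent.MUX.emb_natCast (A := A) (B := B) h n
  rw [h0, _root_.Pool.Agent.MUX.emb_zero h] at h7
  exact hn (by exact_mod_cast h7.symm)

/-- elements of `RF (idl n)` are algebraic -/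
lemma alg_RF (h : CQ A B) (T : TorX A B) {n : ℕ} (hn : n ≠ 0) {y : ℂ}
    (hy : y ∈ RF (idl (A := A) (B := B) n)) : IsAlgebraic ℚ y := by
  have hkk := kk_alg h
  have hfd := T.fin _ (idl_ne h hn)
  have h1 : IsAlgebraic (kk A B) (⟨y, hy⟩ : RF (idl (A := A) (B := B) n)) :=
    Algebra.IsAlgebraic.isAlgebraic _
  have h2 : IsAlgebraic (kk A B) y := h1.algebraMap (A := ℂ)
  exact h2.restrictScalars ℚ

/-- points killed by `n` are killed by the ideal `(n)` -/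
lemma tor_of_mul (h : CQ A B) {b : Ideal (OO A B)} {L : PeriodPair} {om : ℂ} (hL : IsLI b L om)
    {n : ℕ} {z : ℂ} (hz : (n : ℂ) * z ∈ L.lattice) : Tor (idl (A := A) (B := B) n) L z := by
  intro x hx
  obtain ⟨y, rfl⟩ := Ideal.mem_span_singleton.1 hx
  obtain ⟨t, ht, e⟩ := (hL.mem _).1 hz
  refine (hL.mem _).2 ⟨y * t, b.mul_mem_left _ ht, ?_⟩
  rw [_root_.Pool.Agent.MUX.emb_mul h, _root_.Pool.Agent.MUX.emb_mul h, _root_.Pool.Agent.MUX.emb_natCast h]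
  linear_combination (emb y) * e

/-- `℘(z) ∈ RF (idl n)` for the points killed by `n` -/
lemma wp_mem (h : CQ A B) {b : Ideal (OO A B)} {L : PeriodPair} {om : ℂ} (hL : IsNL b L om)
    {n : ℕ} {z : ℂ} (hz : z ∉ L.lattice) (hz' : (n : ℂ) * z ∈ L.lattice) :
    L.weierstrassP z ∈ RF (idl (A := A) (B := B) n) := by
  have hx : xn L z ∈ RF (idl (A := A) (B := B) n) :=
    IntermediateField.subset_adjoin _ _
      ⟨b, L, om, hL, Or.inr ⟨z, tor_of_mul h hL.toIsLI hz', hz, rfl⟩⟩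
  have h12 : (1 / 12 : ℂ) ∈ RF (idl (A := A) (B := B) n) := by simp
  have e : L.weierstrassP z = xn L z + 1 / 12 := by
    unfold xn
    ring
  rw [e]
  exact add_mem hx h12

lemma alg_num (q : ℚ) : IsAlgebraic ℚ (q : ℂ) := by
  have := isAlgebraic_algebraMap (R := ℚ) (A := ℂ) q
  simpa using this

end ALT

open _root_.Pool.Agent.NST.ALT in
/-- (ALT) the coordinates of torsion points are algebraic -/
theorem nt_ALT (hLEG : Pool.Agent.NSE.Se_LEG) (hCOE : Pool.Agent.NSE.Se_COE) : Nt_ALT := by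
  intro A B hC T V h3 b L om hL u e lam hG
  obtain ⟨w₁, w₂, hw1', hw1, hw2', hw2, he, hu, -⟩ := hLEG V L u e lam hG h3
  obtain ⟨e1, -⟩ := hCOE V L u e lam hG h3
  have hu0 := hG.u0
  have m1 := wp_mem (n := 2) hC hL hw1 (by push_cast; exact hw1')
  have m2 := wp_mem (n := 2) hC hL hw2 (by push_cast; exact hw2')
  have hu2 : u ^ 2 ∈ RF (idl (A := A) (B := B) 2) := by
    rw [← hu]; exact sub_mem m2 m1
  have hem : e ∈ RF (idl (A := A) (B := B) 2) := by rw [← he]; exact m1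
  have hlam : lam ∈ RF (idl (A := A) (B := B) 2) := by
    have h6 : lam = -3 * e / u ^ 2 - 1 := by
      field_simp
      linear_combination e1
    rw [h6]
    have h7 : (-3 : ℂ) ∈ RF (idl (A := A) (B := B) 2) := by simp
    exact sub_mem (div_mem (mul_mem h7 hem) hu2) (one_mem _)
  have hua2 : IsAlgebraic ℚ (u ^ 2) := alg_RF hC T two_ne_zero hu2
  have hua : IsAlgebraic ℚ u := IsAlgebraic.of_pow two_pos hua2
  have hea : IsAlgebraic ℚ e := alg_RF hC T two_ne_zero hem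
  refine ⟨hu2, hem, hlam, hua, fun N hN z hz hz' => ?_⟩
  have hP : IsAlgebraic ℚ (L.weierstrassP z) := alg_RF hC T hN (wp_mem hC hL hz hz')
  have hk : IsAlgebraic ℚ (kap L) := alg_RF hC T hN
    (IntermediateField.subset_adjoin _ _ ⟨b, L, om, hL, Or.inl rfl⟩)
  have hg2 : IsAlgebraic ℚ L.g₂ := by
    have h8 : L.g₂ = ((1 / 12 : ℚ) : ℂ) + ((144 : ℚ) : ℂ) * kap L := by
      unfold kap
      push_cast
      ring
    rw [h8]
    exact (alg_num _).add ((alg_num _).mul hk)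
  have hg3 : IsAlgebraic ℚ L.g₃ := by
    have h8 : L.g₃ = ((-1 / 18 : ℚ) : ℂ) * L.g₂ := by
      rw [hL.nrm]
      push_cast
      ring
    rw [h8]
    exact (alg_num _).mul hg2
  have hD : IsAlgebraic ℚ (L.derivWeierstrassP z) := by
    apply IsAlgebraic.of_pow two_pos
    rw [L.derivWeierstrassP_sq z hz]
    have h4 : IsAlgebraic ℚ (4 : ℂ) := by simpa using alg_num 4
    exact ((h4.mul (hP.pow 3)).sub (hg2.mul hP)).sub hg3
  have hx : IsAlgebraic ℚ (xu L u e z) := by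
    unfold xu
    rw [div_eq_mul_inv]
    exact (hP.sub hea).mul hua2.inv
  have hy : IsAlgebraic ℚ (yu L u z) := by
    unfold yu
    rw [div_eq_mul_inv]
    have h2 : IsAlgebraic ℚ (2 : ℂ) := by simpa using alg_num 2
    exact hD.mul (h2.mul (hua.pow 3)).inv
  refine ⟨hx, hy, ?_⟩
  unfold ru
  rw [div_eq_mul_inv]
  exact hy.neg.mul (hx.pow 2).inv

end

end Pool.Agent.NST


end

section

/-!
# MUX, block E: module PT, the points of level `m`
-/

set_option autoImplicit false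

namespace Pool.Agent.MUXE

open _root_.MU3 _root_.Pool.Agent.MU3A _root_.Pool.Agent.MU3B _root_.Pool.Agent.MUX _root_.Pool.Agent.MUXU _root_.Pool.Agent.RI

noncomputable section

private lemma pt_inj_MUXE_PT {A B : ℤ} (hR : RingE A B) (x y : OO A B) (h : emb x = emb y) : x = y := by
  obtain ⟨φ, hφ⟩ := hR.hom
  have h1 : emb (x - y) = 0 := by
    rw [← hφ, map_sub, hφ, hφ, h, sub_self]
  exact sub_eq_zero.1 (hR.inj0 _ h1)

private lemma pt_nI_MUXE_PT {A B : ℤ} (hR : RingE A B) (b : Ideal (OO A B)) (hb : b ≠ ⊥) :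
    nI b ≠ 0 ∧ ((nI b : ℕ) : OO A B) ∈ b := by
  have := hR.ded
  refine ⟨?_, ?_⟩
  · change Ideal.absNorm b ≠ 0
    rw [Ne, Ideal.absNorm_eq_zero_iff]
    exact hb
  · change ((Ideal.absNorm b : ℕ) : OO A B) ∈ b
    exact Ideal.absNorm_mem b

private lemma pt_cop_MUXE_PT {N n r : ℕ} (h : N.Coprime n) (hr : r ≠ 0)
    (hs : r.primeFactors ⊆ n.primeFactors) : ∃ s t : ℤ, s * N + t * r = 1 := by
  have h1 : N.Coprime r := by
    apply Nat.Coprime.symm
    apply Nat.coprime_of_dvd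
    intro q hq hqr hqN
    have h2 := hs (Nat.mem_primeFactors.2 ⟨hq, hqr, hr⟩)
    have h3 := Nat.dvd_of_mem_primeFactors h2
    exact Nat.Prime.not_coprime_iff_dvd.2 ⟨q, hq, hqN, h3⟩ h
  obtain ⟨s, t, h2⟩ := Nat.isCoprime_iff_coprime.2 h1
  exact ⟨s, t, h2⟩

theorem te_PT (_ : Sxe_TRA) : Sxe_PT := by
  intro A B hR n ι R _ i
  obtain ⟨φ, hφ⟩ := hR.hom
  have hnl := R.nl i
  have hnl0 := R.nl R.i0
  obtain ⟨hN0, hNb⟩ := pt_nI_MUXE_PT hR (R.b i) hnl.b_ne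
  have hNC : ((nI (R.b i) : ℕ) : ℂ) ≠ 0 := by exact_mod_cast hN0
  have hom : R.om i ≠ 0 := hnl.om_ne
  have hom0 : R.om R.i0 ≠ 0 := hnl0.om_ne
  have heN : ∀ k : ℕ, emb ((k : ℕ) : OO A B) = (k : ℂ) := fun k => by rw [← hφ, map_natCast]
  have heZ : ∀ k : ℤ, emb ((k : ℤ) : OO A B) = (k : ℂ) := fun k => by rw [← hφ, map_intCast]
  have hem : ∀ x y : OO A B, emb (x * y) = emb x * emb y := fun x y => by
    rw [← hφ, ← hφ, ← hφ, map_mul]
  have hea : ∀ x y : OO A B, emb (x + y) = emb x + emb y := fun x y => by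
    rw [← hφ, ← hφ, ← hφ, map_add]
  have hL0 : ∀ z, z ∈ (R.L R.i0).lattice ↔ ∃ x : OO A B, z = R.om R.i0 * emb x := by
    intro z
    rw [hnl0.mem, R.b0]
    simp
  have hLi := hnl.mem
  refine ⟨?_, ?_, ?_, ?_⟩
  · unfold muX
    exact div_ne_zero (mul_ne_zero hom hNC) hom0
  · intro u hu
    obtain ⟨x, rfl⟩ := (hL0 u).1 hu
    rw [hLi]
    refine ⟨(nI (R.b i) : ℕ) * x, (R.b i).mul_mem_right _ hNb, ?_⟩
    rw [hem, heN]
    unfold muX
    field_simp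
  · intro r hr hs u hru hmu
    obtain ⟨s, t, hst⟩ := pt_cop_MUXE_PT (R.cop i) hr hs
    obtain ⟨x, hx⟩ := (hL0 _).1 hru
    obtain ⟨y, -, hy⟩ := (hLi _).1 hmu
    have h1 : (nI (R.b i) : ℂ) * u = R.om R.i0 * emb y := by
      unfold muX at hy
      field_simp at hy
      linear_combination hy
    have h2 : (s : ℂ) * nI (R.b i) + t * r = 1 := by exact_mod_cast hst
    rw [hL0]
    refine ⟨(s : OO A B) * y + (t : OO A B) * x, ?_⟩
    rw [hea, hem, hem, heZ, heZ]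
    linear_combination (-u) * h2 + (s : ℂ) * h1 + (t : ℂ) * hx
  · intro m hm hs x
    have hmC : (m : ℂ) ≠ 0 := by exact_mod_cast hm
    refine ⟨?_, ?_, ?_, ?_⟩
    · unfold pt muX
      field_simp
    · rw [hLi]
      refine ⟨(nI (R.b i) : ℕ) * x, (R.b i).mul_mem_right _ hNb, ?_⟩
      rw [hem, heN]
      unfold pt
      field_simp
    · intro hx c hc
      obtain ⟨y, -, hy⟩ := (hLi _).1 hc
      have h1 : ((c : ℕ) : OO A B) * ((nI (R.b i) : ℕ) : OO A B) * x = (m : ℕ) * y := by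
        apply pt_inj_MUXE_PT hR
        rw [hem, hem, hem, heN, heN, heN]
        unfold pt at hy
        field_simp at hy
        linear_combination hy
      obtain ⟨s, t, hst⟩ := pt_cop_MUXE_PT (R.cop i) hm hs
      have h2 : (s : OO A B) * ((nI (R.b i) : ℕ) : OO A B) + (t : OO A B) * (m : ℕ) = 1 := by
        have := congrArg (fun k : ℤ => (k : OO A B)) hst
        push_cast at this
        exact this
      have h3 : ((m : ℕ) : OO A B) ∣ x * (c : ℕ) := by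
        refine ⟨(s : OO A B) * y + (t : OO A B) * (c : ℕ) * x, ?_⟩
        linear_combination (-(x * ((c : ℕ) : OO A B))) * h2 + (s : OO A B) * h1
      have h4 : ((m : ℕ) : OO A B) ∣ ((c : ℕ) : OO A B) := hx.symm.dvd_of_dvd_mul_left h3
      obtain ⟨z, hz⟩ := h4
      have h5 : (c : ℤ) = (m : ℤ) * z.re := by
        have := congrArg QuadraticAlgebra.re hz
        simpa using this
      exact Int.natCast_dvd_natCast.1 ⟨z.re, h5⟩
    · intro x'
      rw [hL0]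
      constructor
      · rintro ⟨y, hy⟩
        refine ⟨y, ?_⟩
        apply pt_inj_MUXE_PT hR
        rw [hem, heN]
        field_simp at hy
        linear_combination hy
      · rintro ⟨y, rfl⟩
        refine ⟨y, ?_⟩
        rw [hem, heN]
        field_simp

end

end Pool.Agent.MUXE


end

section

/-!
# MUX-NS, block TR: TYPE in the ramified case (helper87, after helper4's `StTN.lean`)

`3 = P²`, `D ≠ -3` (`CaseR A B`), `V` above `P`. RESULT: `Sq_TYF` (`NS/DefsR.lean`). IDEA as in `StTN.lean` (inert case): `σ` in the inertia group at `V` of a large Galois extension `F / k`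
fixes `RF (m')`, `m'` prime to 3, so it acts on the points of level `m = 3^(j+1) m'` of every `L_i` as `d_i c`, `c ≡ 1` modulo `m'` (ACF). `σ u = d_0 u` (SGU), `σ mu_i = d_0 d_i mu_i`, `e(c) σ(PhiK/(u om_0)) = PhiK/(u om_0)` (`Nt_SGM`, `Nt_VAL`, `Nt_VAK` of
`StTN.lean`, which are general), `e(c) = w(c)^i`, `w = wP P`. `tau = ru L_0 u e (om_0 δ/3)`, `δ = √D = dD A B`, a point of order `P`: `σ tau = w(c) tau`, `v(tau)^4 = v 3` (TAU). On the inertia field of `F` the additive valuation has values in `(1/2) ℤ` (UNF).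

Every statement is a `def Sw_X : Prop`; the module NSTR_X proves `theorem tw_X (h : ..) : Sw_X` in `Pool/Agent/NS/TR_X.lean`, namespace `Pool.Agent.NSTR` (private lemmas in
`Pool.Agent.NSTR.X`), with the statements named under USES as hypotheses (fewer is fine). Unconditional and usable: `Pool.Agent.MU3B.b_X : St_X` (`MU3/BAll.lean`),
`Pool.Agent.MU3A.ta_SCP`, `Pool.Agent.MUXU.u_X : Su_X` (`MUX/UAll.lean`), `MUX/XLib.lean`, the lemmas of `MUX/VX.lean`, `MUX/E_RNG.lean` (`te_RNG`), and helper58's block (`NS/RN_ALL.lean`, namespace `Pool.Agent.NSR`):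
`rlgf : Sr_LGF`, `rgrl : Sr_GRL`, `rtor : Sr_TOR`, `rtr3 : Sr_TR3`, .. for lattices in Legendre form (`NSR.Leg L u e lam`; `GoodR` gives `Leg`: fields `u0`, `eq`).
-/

set_option autoImplicit false

namespace Pool.Agent.NSTR

open _root_.MU3 _root_.Pool.Agent.MU3A _root_.Pool.Agent.MU3B _root_.Pool.Agent.RI _root_.Pool.Agent.MUX _root_.Pool.Agent.MUXU
open OnePoint _root_.Pool.Agent.NS _root_.Pool.Agent.NSRD
open _root_.Pool.Agent.MUXV (GR InK)
open _root_.Pool.Agent.NSE (su ru)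
open _root_.Pool.Agent.NST (KIn ActT)
open _root_.Pool.Agent.MUXY (ActN Dn)

noncomputable section

/-- (DEL) the element `δ = √D = 2 w - B` and the residues modulo `P`.

PROOF. `δ² = B² + 4 A = -3 D'` (in `O`: `w² = A + B w`), `3 ∤ D'` (`B = 1`: `B² + 4A` is squarefree; `B = 0`: `A` is squarefree and `3 ∣ A`; `CQ.sqf`). `3 ∈ P`, so `δ² ∈ P`, `δ ∈ P`. `v(emb D') = 1` (`3 ∤ D'`: `D'` is not in `P`, since `P ∩ ℤ = 3 ℤ` because `1 ∉ P`; integral), so `v(δ)² = v(δ²) = v 3 < 1`.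
For `x ∈ P`: `2 x = t + s δ` with `t = x + star x = 2 x.re + B x.im`, `s = x.im` integers. `t² = (2x - sδ)² ∈ P`.. so `t ∈ P ∩ ℤ = 3 ℤ` (`t = 2 x - s δ ∈ P`). (1) `x δ`: `2 x δ = t δ + s δ² ∈ 3 O`, so `x δ = 3 x δ - 2 x δ ∈ 3 O`. (2) `v(emb x) = v(2 x) ≤ max(v 3, v δ) = v δ` (`v 2 = 1`), so every element of `P²` has valuation
`≤ (v δ)² = v 3` (`Submodule.mul_induction_on` or `Ideal.mul_le`..), and `v 3 < v δ` (as `v(δ)² = v 3`, `0 < v δ < 1`): `δ ∉ P²`. (3) `δ = ⟨-B, 2⟩`, `3 ∤ 2`: not in `3 O`. (4) residues: `nI P = 3` is the number of elements of `O/P` (`Submodule.cardQuot`); `0, 1, -1` are different modulo `P` (`1, 2 ∉ P`); so every `c` is congruent to one of them.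
See `Pool/Agent/MUX/I_EPS3.lean` (`QI`, `wP_eq`) and `MUX/E_ONE.lean` line 281 for the same fact with `wP`. (5) `B² + 4A = -absD`. -/
def Sw_DEL : Prop :=
  ∀ (A B : ℤ) (P : Ideal (OO A B)) (V : ValuationSubring ℂ), CaseR A B → IsPN 3 P → OverI V P →
    V.valuation (3 : ℂ) < 1 ∧ V.valuation (2 : ℂ) = 1 ∧
    dD A B * dD A B = ((-absD A B : ℤ) : OO A B) ∧ 15 ≤ absD A B ∧
    dD A B ∈ P ∧ dD A B ∉ P ^ 2 ∧
    V.valuation (emb (dD A B)) ^ 2 = V.valuation (3 : ℂ) ∧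
    (∀ x ∈ P, ∃ y, x * dD A B = 3 * y) ∧ (∀ y, dD A B ≠ 3 * y) ∧
    (∀ c : OO A B, c ∉ P → (wP P c = 1 ∨ wP P c = -1) ∧ c - ((wP P c : ℤ) : OO A B) ∈ P) ∧
    (∀ x : OO A B, V.valuation (emb x) ≤ 1) ∧ ∀ n : ℕ, ¬ 3 ∣ n → V.valuation (n : ℂ) = 1

/-- (UNF) the inertia field has values in `(1/2) ℤ`. MODEL: `nt_UNF` (`NS/T_UNF.lean`, lemmas `UNF.inertia_lt`, `val_card`, `card_fixed` are public and general).

USES DEL. PROOF. As there: `w` = the prime of `𝓞 F`, `v` = the prime `w ∩ 𝓞 k` of `𝓞 k` (`val_card`), `e` the order of the inertia group. New: `x ∈ v.asIdeal` iff `x = emb z`, `z ∈ P` (`te_RNG`, field `int`; `OverI`). `δ' = ek δ ∈ 𝓞 k`. `v.valuation δ' ≥ exp (-1)`, because `δ' ∉ v.asIdeal²` (`δ ∉ P²`: the isomorphism `O ≅ 𝓞 k` maps `P` to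
`v.asIdeal`; `v.intValuation_le_pow_iff_mem` or similar). `3 D' = -δ²`, `v.valuation (D') ≤ 1`, so `v.valuation 3 ≥ v.valuation (3 D') = v.valuation(δ')² ≥ exp (-2)`; `w.valuation F 3 = (v.valuation 3)^e ≥ exp(-2)^e`. For `y` in the inertia field, `v y < 1`: `w.valuation F y = (v₁.valuation K₁ y)^e ≤ exp(-1)^e`, so
`w.valuation F (y²) ≤ exp(-2)^e ≤ w.valuation F 3`, `w.valuation F (y²/3) ≤ 1`, `v(y²/3) ≤ 1` (`ord_le`). -/
def Sw_UNF : Prop :=
  ∀ (A B : ℤ) (P : Ideal (OO A B)) (V : ValuationSubring ℂ), CaseR A B → IsPN 3 P → OverI V P →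
    ∀ (F : IntermediateField (kk A B) ℂ) [FiniteDimensional (kk A B) F] [IsGalois (kk A B) F],
    ∀ w ∈ KIn A B V F, V.valuation w < 1 → V.valuation w ^ 2 ≤ V.valuation (3 : ℂ)

/-- (ALT) algebraicity. MODEL: `nt_ALT` (`NS/T_ALT.lean`).

USES nothing new. PROOF. `GoodR` gives `NSR.Leg`. `w₁` with `℘ w₁ = e` from `rlgf` (`Sr_LGF`); `w₂` with `℘ w₂ = e + u²`: `℘` takes every value (`b_SUR`), then `℘' w₂ = 0` (`GoodR.eq`: `x w₂ = 1`), `2 w₂ ∈ L` (`b_ZER`). The rest as in the model (`lam = -3 e/u² - 1` by `Sr_LGF`). -/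
def Sw_ALT : Prop :=
  ∀ (A B : ℤ), CQ A B → TorX A B → ∀ (V : ValuationSubring ℂ), V.valuation (3 : ℂ) < 1 →
    ∀ (b : Ideal (OO A B)) (L : PeriodPair) (om : ℂ), IsNL b L om →
    ∀ u e lam : ℂ, GoodR V L u e lam →
      u ^ 2 ∈ RF (idl (A := A) (B := B) 2) ∧ e ∈ RF (idl (A := A) (B := B) 2) ∧
      lam ∈ RF (idl (A := A) (B := B) 2) ∧ IsAlgebraic ℚ u ∧
      ∀ N : ℕ, N ≠ 0 → ∀ z, z ∉ L.lattice → (N : ℂ) * z ∈ L.lattice →
        IsAlgebraic ℚ (xu L u e z) ∧ IsAlgebraic ℚ (yu L u z) ∧ IsAlgebraic ℚ (ru L u e z)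

/-- (ACF) the number `c` and the signs `d_i`, for `σ` trivial on `RF (idl m')`. MODEL: `nt_ACI` (`NS/T_ACI.lean`): the same proof without its first step.

USES Sy_MUU, Sy_BRI. -/
def Sw_ACF : Prop :=
  ∀ (A B : ℤ), CQ A B → TorX A B → ∀ (n : ℕ) (ι : Type) (R : Reps A B n ι) (m m' : ℕ), m ≠ 0 →
    m' ∣ m → ∀ σ : ℂ ≃+* ℂ, FixK A B σ → (∀ y ∈ RF (idl (A := A) (B := B) m'), σ y = y) →
    ∃ (c : OO A B) (d : ι → ℤ), c - 1 ∈ idl (A := A) (B := B) m' ∧
      IsCoprime (sp c) (idl (A := A) (B := B) m) ∧ ActT R m σ c d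

/-- (VSR) the points of order `P` (the canonical subgroup).

USES DEL, ALT, ACF, Sr_UNR (`NSR.runr`), Sr_RAM, Sr_ALR (`tr_ALR`), Su_AUF. PROOF. `L = R.L R.i0`. (a) `℘ Y ∈ RF (idl 2)`: AUF (`RF (idl 2)` is finite over `k`, so algebraic over `ℚ`); let `σ` fix `RF (idl 2)`, in particular `FixK`. (ACF) with `m' = 2`, `m = 6`: `c - 1 ∈ idl 2`; `c ∉ P` (`6 ∈ P`, `sp c ⊔ idl 6 = ⊤`). By (DEL) `c - s ∈ P`, `s = wP P c = ±1`,
so `emb c Y - s Y ∈ L`. `ActN.act` for `z = Y` (`6 Y ∈ L` as `6 ∈ P`): `σ(℘ Y) = ℘(d emb c Y) = ℘(± Y) = ℘ Y`. (b) `x = xu L u e Y ∈ RF (idl 2)` (ALT). (c) every `y ∈ RF (idl 2)`, `y ≠ 0`, has `v y = v(δ)^k`, `k ∈ ℤ`: (RAM) with `ϖ = δ`, `F = RF (idl 2)`, and (UNR) with `f = 2` (an automorphism of `F / k` extends to `ℂ`, see `RN_VAL3.lean`).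
(d) `3 Y ∈ L`: `ψ(x) = 3x⁴ - 4(1+lam)x³ + 6lam x² - lam² = 0` (`rtr3`). `θ = v 3`, `a = v x`. `v(1 + lam)² ≤ θ`, `v lam = 1`, `v 2 = 1`. If `a ≤ 1` the first three terms have valuation `< 1` and `v(lam²) = 1`: contradiction. So `a > 1`, `a = v(δ)^k`, `k ≤ -1` (`v δ < 1`), `a² = θ^k ≥ θ⁻¹`: `1 ≤ a² θ`. If `1 < a² θ`: `v(3x⁴) = θ a⁴`,
`v(4(1+lam)x³)² ≤ θ a⁶ < (θ a⁴)²`, `v(6 lam x²) = θ a² < θ a⁴`, `1 < a² θ ≤ θ a⁴`: the first term dominates, contradiction. So `a² θ = 1`. Last: `ru = -y/x²`, `y² = x (x-1)(x-lam)`, `v(y)² = a³` (`a > 1`), `v(ru)² = a⁻¹`. -/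
def Sw_VSR : Prop :=
  ∀ (A B : ℤ) (P : Ideal (OO A B)) (V : ValuationSubring ℂ), CaseR A B → IsPN 3 P → OverI V P →
    TorX A B → ∀ (n : ℕ) (ι : Type) (R : Reps A B n ι) (u e lam : ℂ),
    GoodR V (R.L R.i0) u e lam → ∀ Y, Y ∉ (R.L R.i0).lattice →
    (∀ x ∈ P, emb x * Y ∈ (R.L R.i0).lattice) →
      V.valuation (xu (R.L R.i0) u e Y) ^ 2 * V.valuation (3 : ℂ) = 1 ∧
      V.valuation (ru (R.L R.i0) u e Y) ^ 4 = V.valuation (3 : ℂ)

/-- (SGU) the sign `d_0`. MODEL: `nt_SGU` (`NS/T_SGU.lean`).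

USES DEL. PROOF. As there. Good reduction: `rgrl` (`Sr_GRL`) gives `ξ` and `GR`; `z = om/m'` and `2 z` are not in the kernel of reduction: `Pool.Agent.MUXV.mem_of_nat_mul` with `v(m') = 1` (`3 ∤ m'`, DEL). `f ≥ 10` (`2 absD ∣ 3 f`, `absD ≥ 15`). -/
def Sw_SGU : Prop :=
  ∀ (A B : ℤ) (P : Ideal (OO A B)) (V : ValuationSubring ℂ) (f : ℕ), SetR A B P V f →
    ∀ (ι : Type) (R : Reps A B (3 * f) ι) (u e lam : ℂ), GoodR V (R.L R.i0) u e lam →
    ∀ (j m' : ℕ), m' ≠ 0 → ¬ 3 ∣ m' → f ∣ m' → ∀ (σ : ℂ ≃+* ℂ) (c : OO A B) (d : ι → ℤ),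
    c - 1 ∈ idl (A := A) (B := B) m' → ActT R (3 ^ (j + 1) * m') σ c d → σ (u ^ 2) = u ^ 2 →
    (V.valuation (yu (R.L R.i0) u (R.om R.i0 / m')) ≤ 1 →
      V.valuation (σ (yu (R.L R.i0) u (R.om R.i0 / m')) -
        yu (R.L R.i0) u (R.om R.i0 / m')) < 1) → σ u = d R.i0 * u

/-- (TAU) the number `tau`.

USES DEL, ALT, VSR, Nt_TCJ (`nt_TCJ`). PROOF. `L = R.L R.i0 = om emb O` (`R.nl`, `R.b0`), `Y = om emb δ/3`. `Y ∉ L` (`δ ∉ 3 O`); for `x ∈ P`: `x δ = 3 y`, `emb x Y = om emb y ∈ L`. `tau = ru L u e Y`. `v(tau)^4 = v 3`: (VSR). Algebraic: (ALT), `N = 3`. `σ tau = ru L u e (emb c Y)` (TCJ, `3 ∣ m`); `c - s ∈ P`, `s = wP P c = ±1` (DEL), so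
`emb c Y - s Y ∈ L`; `ru` is periodic and odd (`xu`, `yu` by `℘`, `℘'`), so `σ tau = s tau`. -/
def Sw_TAU : Prop :=
  ∀ (A B : ℤ) (P : Ideal (OO A B)) (V : ValuationSubring ℂ), CaseR A B → IsPN 3 P → OverI V P →
    TorX A B → ∀ (n : ℕ) (ι : Type) (R : Reps A B n ι) (u e lam : ℂ),
    GoodR V (R.L R.i0) u e lam →
    ∃ tau : ℂ, V.valuation tau ^ 4 = V.valuation (3 : ℂ) ∧ IsAlgebraic ℚ tau ∧
      ∀ (m : ℕ), 3 ∣ m → ∀ (σ : ℂ ≃+* ℂ) (c : OO A B) (d : ι → ℤ), ActT R m σ c d →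
        c ∉ P → σ u = d R.i0 * u → σ e = e → σ tau = ((wP P c : ℤ) : ℂ) * tau

/-- (TYF) the result is `Sq_TYF` (`NS/DefsR.lean`). MODEL: `nt_TYF` (`NS/T_TYF.lean`).

USES Sq_RFIN (its second part; `rfinr` in `NS/RN_RFINR.lean`), DEL, UNF, ALT, ACF, SGU, TAU, Nt_RTU, Nt_GLC, Nt_FGP, Nt_FGV, Nt_ALV, Nt_VAK. PROOF. As `nt_TYF`, with `r` instead of `8 r`, and two families of weights `kk`, `kk'` at the same time: two finite sets of pairs `S`, `S'` (FGP) with numbers `3^j N`, `3^j' N'`; `m' = f N N'`, level `3^(j + j' + 1) m'`; `F` contains the values of both.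
`ka l = 0` or `ka l ^ r = 1`: `σ (ka l) = ka l` by RTU (`z = 0 ∨ z^r = 1`). ALV is stated for `kk i ^ r = 1`: for the algebraicity of the values of a family with zeros, write `kk i = (α i + β i)/2` with `α i ^ (2 r) = β i ^ (2 r) = 1` (`α = β = kk i`, or `α = 1, β = -1` if `kk i = 0`) and use ALV with `2 r`. -/
def Sw_TYF : Prop := Sq_TYF

end

end Pool.Agent.NSTR


end
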