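import Mathlib
import Pool.Agent.MVF.C008
import Pool.Agent.MVF.C014
import Pool.Agent.MVF.C031
import Pool.Agent.MVF.C032
import Pool.Agent.MVF.C033

/-! Parts: NS.StER, NS.RN_ALR, MUX.E_GAL, ME.X_GAL, ME.X_TRA, NS.F_ALG -/

namespace Pool.Agent.MEE.GalX
end Pool.Agent.MEE.GalX
namespace Pool.Agent.MUXE.GalX
end Pool.Agent.MUXE.GalX
namespace Pool.Agent.NSR.ALRaux
end Pool.Agent.NSR.ALRaux

section

/-!
# MUX-NS, block ER: cubes and logarithmic derivatives, `3` ramified in `k` (helper86; mathematics: helper21, helper87)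

`3 = P²` in `k`, `D ≠ -3`. `V` a valuation ring of `ℂ` above `P`, `v = V.valuation` (multiplicative: `v x ≤ v 3` means `x ∈ 3 V`). `ϖ = emb (dD A B)`, `v(ϖ)² = v 3`. `L`, `N` normalised lattices
with complex multiplication by `O` (`NL A B L`), `GoodR V L u e lam` (`DefsR.lean`): `x = xu L u e = (℘ - e)/u²`, `y = yu L u = ℘'/(2 u³)`, `y² = x³ + a₂ x² + a₄ x`, `a₂ = -(1 + lam)`, `v(a₂)² ≤ v 3`, `a₄ = lam`
a unit; `s = su = 1/x`, `r = ru = -y/x²`, `r² = s (1 + a₂ s + a₄ s²)`. `E3 L`, `su`, `ru`, `WL`, `IntP`, `Rep`: `StEN.lean` (the inert case). `InK V L x z` (`Pool/Agent/MUX/VX.lean`): `z` is zero or in the kernel of reduction.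
`IsQ P L N ν`: `N = ν P⁻¹ L`. The points `z₁` of `ℂ/N` have the exact order `lvR P f n = f P^(2n+1)` (`Ex`); a point of `ℂ/N` of exact order `P^(j+1)` has `v(s)^(2·3^j) = v 3` (TPR).

Plan. (1) Lemma E (`ONE`) on the lattices `N_i = ν_i P⁻¹ L_i` at the level `f P^(2n+1)`: a cube gives `Σ g x dl_N/u_N ∈ 3 V`, and `v(ν u_N/u_L)² = v 3` (PIS), `Σ_(l < 3) dl_L(z + l q) = ν dl_N(ν z)`
(DIS), so `3/2` (additively) for the lattices `L_i`. (2) The sums over the small group `⟨b⟩` (PAR) by a trace argument (LAG, TRV, DIF). (3) FIN: comparison of the weights `emb x` and `wP x`.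

Every statement is a `def Sf_X : Prop`; the module MUXER_X proves `theorem tf_X (h : ...) : Sf_X` in `Pool/Agent/NS/F_X.lean`, namespace `Pool.Agent.NSER`, with the statements named under `Uses` as hypotheses (drop those
which are not needed; others may be added if they do not depend on this one). Usable without hypotheses: `Pool.Agent.MU3B.b_X : St_X`, `Pool.Agent.MUXU.u_X : Su_X`, `Pool.Agent.NSR.rlgf, rxil, rtor, rgrl, rcht, rpm3, rtr3` (`RN_ALL.lean`), `Pool.Agent.NSR.tr_RAM`,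
`tr_ALR`, and `Pool.Agent.MUXE.te_RNG`, `te_TRA`, `te_TRB`, `te_FAC te_TRA`, `te_GTH te_TRA`, `te_PT te_TRA`. If the text says PORT, copy the proof of the inert case `Pool/Agent/NS/E_X.lean` and change `GoodN`, `Pts`, `Se_` to `GoodR`, `PtsR`, `Sf_`.
-/

set_option autoImplicit false

open Polynomial

namespace Pool.Agent.NSER

open _root_.MU3 _root_.Pool.Agent.MU3A _root_.Pool.Agent.MU3B _root_.Pool.Agent.MUX _root_.Pool.Agent.MUXU _root_.Pool.Agent.MUXE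
open _root_.Pool.Agent.RI _root_.Pool.Agent.NS _root_.Pool.Agent.NSRD
open _root_.Pool.Agent.MUXV (GR InK tX)
open _root_.Pool.Agent.NSE (E3 su ru WL IntP Rep)

noncomputable section

/-! ## Definitions -/

/-- the situation of the eight points of order three, abstractly -/
structure PtsR (V : ValuationSubring ℂ) (S : Set ℂ) (s r : ℂ → ℂ) (a2 a4 : ℂ) : Prop where
  v3 : V.valuation (3 : ℂ) < 1
  i2 : V.valuation a2 ≤ 1
  i4 : V.valuation a4 ≤ 1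
  vs : ∀ Y ∈ S, s Y ≠ 0 ∧ V.valuation (s Y) < 1
  eq : ∀ Y ∈ S, r Y ^ 2 = s Y * (1 + a2 * s Y + a4 * s Y ^ 2)
  neg : ∀ Y ∈ S, ∃ Y' ∈ S, s Y' = s Y ∧ r Y' = -r Y
  four : ∃ y : Fin 4 → ℂ, (∀ i, y i ∈ S) ∧ (Function.Injective fun i => s (y i)) ∧
    V.valuation (∏ i, s (y i)) ≤ V.valuation (3 : ℂ)
  fin : ((fun Y => (s Y, r Y)) '' S).Finite

/-- the annihilator of the point `z` of `ℂ / L` is the ideal `m` -/
def Ex {A B : ℤ} (m : Ideal (OO A B)) (L : PeriodPair) (z : ℂ) : Prop :=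
  ∀ x : OO A B, emb x * z ∈ L.lattice ↔ x ∈ m

/-- everything on `O`, `k`, `P`, `V` and the reduction which is used -/
structure CtxR (A B : ℤ) (P : Ideal (OO A B)) (V : ValuationSubring ℂ) : Prop where
  ring : RingE A B
  cq : CQ A B
  v3 : V.valuation (3 : ℂ) < 1
  int : ∀ x : OO A B, V.valuation (emb x) ≤ 1
  unit : ∀ x : OO A B, x ∉ P → V.valuation (emb x) = 1
  vP : ∀ x ∈ P, V.valuation (emb x) ^ 2 ≤ V.valuation (3 : ℂ)
  nat : ∀ n : ℕ, ¬ 3 ∣ n → V.valuation (n : ℂ) = 1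
  max : P.IsMaximal
  nP : nI P = 3
  sq : P * P = idl (A := A) (B := B) 3
  nrm : ∀ x : OO A B, x ∉ P → ¬ (3 : ℤ) ∣ nm x
  pm : ∀ x : OO A B, x ∉ P → x - 1 ∈ P ∨ x + 1 ∈ P
  dP : dD A B ∈ P
  vd : V.valuation (emb (dD A B)) ^ 2 = V.valuation (3 : ℂ)
  good : ∀ L, NL A B L → ∃ u e lam : ℂ, GoodR V L u e lam
  iner : ∀ f : ℕ, f ≠ 0 → ¬ 3 ∣ f → ∀ σ : ℂ ≃+* ℂ, FixK A B σ →
    (∀ y ∈ RF (idl (A := A) (B := B) f), y ∈ V → σ y - y ∈ V.nonunits) →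
    ∀ y ∈ RF (idl (A := A) (B := B) f), σ y = y
  exq : ∀ L, NL A B L → ∃ (N : PeriodPair) (nu : ℂ), NL A B N ∧ IsQ P L N nu

/-! ## Lemma E: the ring of the functions `A(s) + r B(s)` -/

/-- (ALG) PORT of `Se_ALG`.

PROOF. As `Se_ALG` (`StEN.lean`). There `v(s Y) < 1`, `s Y ≠ 0` and `v(s_1 s_2 s_3 s_4) ≤ v 3` were consequences of `vs`; here they are given by `PtsR`. -/
def Sf_ALG : Prop :=
  ∀ (V : ValuationSubring ℂ) (S : Set ℂ) (s r : ℂ → ℂ) (a2 a4 : ℂ), PtsR V S s r a2 a4 →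
    (∀ c, V.valuation c ≤ 1 → _root_.Pool.Agent.NSE.Rep V S s r (fun _ => c) c 0) ∧
    _root_.Pool.Agent.NSE.Rep V S s r s 0 0 ∧ _root_.Pool.Agent.NSE.Rep V S s r r 0 1 ∧
    (∀ (F G : ℂ → ℂ) (α β α' β' : ℂ), _root_.Pool.Agent.NSE.Rep V S s r F α β → (∀ Y ∈ S, G Y = F Y) →
      V.valuation (α' - α) ≤ V.valuation (3 : ℂ) → V.valuation (β' - β) ≤ V.valuation (3 : ℂ) →
      _root_.Pool.Agent.NSE.Rep V S s r G α' β') ∧
    (∀ (F G : ℂ → ℂ) (α β α' β' : ℂ), _root_.Pool.Agent.NSE.Rep V S s r F α β → _root_.Pool.Agent.NSE.Rep V S s r G α' β' →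
      _root_.Pool.Agent.NSE.Rep V S s r (fun Y => F Y + G Y) (α + α') (β + β')) ∧
    (∀ (F G : ℂ → ℂ) (α β α' β' : ℂ), _root_.Pool.Agent.NSE.Rep V S s r F α β → _root_.Pool.Agent.NSE.Rep V S s r G α' β' →
      _root_.Pool.Agent.NSE.Rep V S s r (fun Y => F Y * G Y) (α * α') (α * β' + α' * β)) ∧
    (∀ (F : ℂ → ℂ) (α β : ℂ), _root_.Pool.Agent.NSE.Rep V S s r F α β → V.valuation α = 1 →
      (∀ Y ∈ S, V.valuation (F Y) = 1) ∧ _root_.Pool.Agent.NSE.Rep V S s r (fun Y => (F Y)⁻¹) α⁻¹ (-β / α ^ 2)) ∧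
    (∀ (F : ℂ → ℂ) (α β : ℂ), _root_.Pool.Agent.NSE.Rep V S s r F α β → V.valuation α ≤ 1 ∧ V.valuation β ≤ 1 ∧
      ∀ Y ∈ S, V.valuation (F Y - α) < 1) ∧
    ∀ (F : ℂ → ℂ) (α β α' β' : ℂ), _root_.Pool.Agent.NSE.Rep V S s r F α β → _root_.Pool.Agent.NSE.Rep V S s r F α' β' →
      V.valuation (α - α') ≤ V.valuation (3 : ℂ) ∧ V.valuation (β - β') ≤ V.valuation (3 : ℂ)

/-- (PRO) PORT of `Se_PRO`. Uses Sf_ALG. -/
def Sf_PRO : Prop :=
  ∀ (V : ValuationSubring ℂ) (S : Set ℂ) (s r : ℂ → ℂ) (a2 a4 : ℂ), PtsR V S s r a2 a4 →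
    (∀ (F : ℂ → ℂ) (α β : ℂ) (P : ℂ[X]), _root_.Pool.Agent.NSE.Rep V S s r F α β → IntP V P →
      _root_.Pool.Agent.NSE.Rep V S s r (fun Y => P.eval (F Y)) (P.eval α) (β * (derivative P).eval α)) ∧
    (∀ (J : Type) [Fintype J] (F : J → ℂ → ℂ) (c l : J → ℂ) (g : J → ℤ),
      (∀ j, _root_.Pool.Agent.NSE.Rep V S s r (F j) (c j) (c j * l j)) → (∀ j, V.valuation (c j) = 1) →
      V.valuation (∏ j, c j ^ g j) = 1 ∧
      _root_.Pool.Agent.NSE.Rep V S s r (fun Y => ∏ j, F j Y ^ g j) (∏ j, c j ^ g j)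
        ((∏ j, c j ^ g j) * ∑ j, (g j : ℂ) * l j)) ∧
    ∀ (F G : ℂ → ℂ) (α β α' β' : ℂ), _root_.Pool.Agent.NSE.Rep V S s r G α β → (∀ Y ∈ S, F Y = G Y ^ 3) →
      _root_.Pool.Agent.NSE.Rep V S s r F α' β' → V.valuation β' ≤ V.valuation (3 : ℂ)

/-- (PUL) PORT of `Se_PUL`. Uses Sf_ALG, Sf_PRO. -/
def Sf_PUL : Prop :=
  ∀ (V : ValuationSubring ℂ) (S S' : Set ℂ) (s r s' r' : ℂ → ℂ) (a2 a4 : ℂ) (ρ : ℂ → ℂ) (c : ℂ),
    PtsR V S s r a2 a4 → (∀ Y ∈ S, ρ Y ∈ S') →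
    _root_.Pool.Agent.NSE.Rep V S s r (fun Y => s' (ρ Y)) 0 0 → _root_.Pool.Agent.NSE.Rep V S s r (fun Y => r' (ρ Y)) 0 c →
    ∀ (F : ℂ → ℂ) (α β : ℂ), _root_.Pool.Agent.NSE.Rep V S' s' r' F α β →
      _root_.Pool.Agent.NSE.Rep V S s r (fun Y => F (ρ Y)) α (β * c)

/-! ## The Legendre model -/

/-- (COE) PORT of `Se_COE`: only `v(1 + lam) < 1` is used (from `lam1`: `v(1 + lam)² ≤ v 3 < 1`). -/
def Sf_COE : Prop :=
  ∀ (V : ValuationSubring ℂ) (L : PeriodPair) (u e lam : ℂ), GoodR V L u e lam →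
    V.valuation (3 : ℂ) < 1 →
    3 * e = -(1 + lam) * u ^ 2 ∧ L.g₂ = 4 * (3 * e ^ 2 - lam * u ^ 4) ∧
    L.g₃ = 4 * e ^ 3 - L.g₂ * e ∧ V.valuation (2 : ℂ) = 1 ∧ V.valuation lam = 1 ∧
    V.valuation (1 - lam) = 1 ∧
    (∀ z ∉ L.lattice, yu L u z ^ 2 =
      xu L u e z ^ 3 - (1 + lam) * xu L u e z ^ 2 + lam * xu L u e z) ∧
    (∀ z ∉ L.lattice, HasDerivAt (xu L u e) (2 * u * yu L u z) z) ∧
    ∀ z, (∀ w ∈ L.lattice, xu L u e (z + w) = xu L u e z ∧ yu L u (z + w) = yu L u z) ∧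
      xu L u e (-z) = xu L u e z ∧ yu L u (-z) = -yu L u z

/-- (GRN) PORT of `Se_GRN` (or from `Pool.Agent.NSR.rgrl`). Uses Sf_COE. -/
def Sf_GRN : Prop :=
  ∀ (V : ValuationSubring ℂ) (L : PeriodPair) (u e lam : ℂ), GoodR V L u e lam →
    V.valuation (3 : ℂ) < 1 → ∃ ξ : ℂ →+ (WL lam).Point, GR V (WL lam) L (xu L u e) (yu L u) ξ

/-- (LEG) PORT of `Se_LEG`. Uses Sf_COE. -/
def Sf_LEG : Prop :=
  ∀ (V : ValuationSubring ℂ) (L : PeriodPair) (u e lam : ℂ), GoodR V L u e lam →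
    V.valuation (3 : ℂ) < 1 →
    ∃ w₁ w₂ : ℂ, 2 * w₁ ∈ L.lattice ∧ w₁ ∉ L.lattice ∧ 2 * w₂ ∈ L.lattice ∧ w₂ ∉ L.lattice ∧
      L.weierstrassP w₁ = e ∧ L.weierstrassP w₂ - L.weierstrassP w₁ = u ^ 2 ∧
      xu L u e w₁ = 0

/-- (TW3) the points of order three.

Uses Sf_COE. PROOF. `Pool.Agent.NSR.rtr3` (`Sr_TR3`, `Leg` is `⟨u0, eq⟩`): `3 x⁴ - 4 (1 + lam) x³ + 6 lam x² - lam² = 0`, so `x ≠ 0`; divide by `x⁴`. Let `σ = v(s)`. If `σ ≥ 1`: `v(lam² s⁴) = σ⁴`, but `v 3 < 1 ≤ σ⁴`,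
`v(4 (1 + lam) s) < σ ≤ σ⁴`, `v(6 lam s²) < σ² ≤ σ⁴`: contradiction. So `σ < 1`, `x ∉ V`, `InK`. -/
def Sf_TW3 : Prop :=
  ∀ (V : ValuationSubring ℂ) (L : PeriodPair) (u e lam : ℂ), GoodR V L u e lam →
    V.valuation (3 : ℂ) < 1 → ∀ Y ∈ E3 L, InK V L (xu L u e) Y ∧ xu L u e Y ≠ 0 ∧
      V.valuation (su L u e Y) < 1 ∧
      lam ^ 2 * su L u e Y ^ 4 =
        3 - 4 * (1 + lam) * su L u e Y + 6 * lam * su L u e Y ^ 2

/-- (PTS) the points of order three satisfy `PtsR`.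

Uses Sf_COE, Sf_TW3. PROOF. As `Se_PTS` (`E_PTS.lean`); only `vs` and the last part of `four` are new. `four`: `lam² X⁴ - 6 lam X² + 4 (1 + lam) X - 3` has the four different roots `s(y_i)` (TW3), so it is `lam² ∏ (X - s(y_i))`, and at `X = 0`: `-3 = lam² ∏ s(y_i)`. -/
def Sf_PTS : Prop :=
  ∀ (V : ValuationSubring ℂ) (L : PeriodPair) (u e lam : ℂ), GoodR V L u e lam →
    V.valuation (3 : ℂ) < 1 → PtsR V (E3 L) (su L u e) (ru L u e) (-(1 + lam)) lam ∧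
      ∀ Y ∈ E3 L, ∀ w ∈ L.lattice, Y + w ∈ E3 L ∧ su L u e (Y + w) = su L u e Y ∧
        ru L u e (Y + w) = ru L u e Y

/-- (TNC) points of order prime to `3`.

Uses Sf_GRN. PROOF. `v N = 1` (`1 = N a + 3 b` with integers); `Pool.Agent.MUXV.mem_of_nat_mul`. -/
def Sf_TNC : Prop :=
  ∀ (V : ValuationSubring ℂ) (L : PeriodPair) (u e lam : ℂ), GoodR V L u e lam →
    V.valuation (3 : ℂ) < 1 →
    ∀ (N : ℕ), ¬ 3 ∣ N → V.valuation (N : ℂ) = 1 ∧ ∀ z : ℂ, (N : ℂ) * z ∈ L.lattice →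
      InK V L (xu L u e) z → z ∈ L.lattice

/-- (ADD) PORT of `Se_ADD`. Uses Sf_ALG, Sf_COE, Sf_GRN, Sf_TW3, Sf_PTS. -/
def Sf_ADD : Prop :=
  ∀ (V : ValuationSubring ℂ) (L : PeriodPair) (u e lam : ℂ), GoodR V L u e lam →
    V.valuation (3 : ℂ) < 1 → ∀ z, ¬ InK V L (xu L u e) z →
    _root_.Pool.Agent.NSE.Rep V (E3 L) (su L u e) (ru L u e) (fun Y => xu L u e (z + Y)) (xu L u e z) (2 * yu L u z)

/-! ## Isogenies of degree prime to 3 -/

/-- (UNT) PORT of `Se_UNT` (`Se_TPN` (1) is now `Sf_TNC`). Uses Sf_GRN, Sf_TNC. -/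
def Sf_UNT : Prop :=
  ∀ (V : ValuationSubring ℂ) (L M : PeriodPair) (u e lam u' e' lam' μ : ℂ) (N : ℕ),
    GoodR V L u e lam → GoodR V M u' e' lam' → V.valuation (3 : ℂ) < 1 → μ ≠ 0 → Isg L M μ →
    ¬ 3 ∣ N → (∀ z, μ * z ∈ M.lattice → (N : ℂ) * z ∈ L.lattice) →
    V.valuation (μ * u' / u) = 1

/-- (RAT) PORT of `Se_RAT`. Uses Sf_COE, Sf_TNC, Sf_UNT. -/
def Sf_RAT : Prop :=
  ∀ (V : ValuationSubring ℂ) (L M : PeriodPair) (u e lam u' e' lam' μ : ℂ) (N : ℕ),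
    GoodR V L u e lam → GoodR V M u' e' lam' → V.valuation (3 : ℂ) < 1 → μ ≠ 0 → Isg L M μ →
    ¬ 3 ∣ N → (∀ z, μ * z ∈ M.lattice → (N : ℂ) * z ∈ L.lattice) →
    ∃ P Q : ℂ[X], IntP V P ∧ IntP V Q ∧ P.Monic ∧ P.natDegree = Q.natDegree + 1 ∧
      Q.leadingCoeff = (μ * u' / u) ^ 2 ∧ ∀ z, μ * z ∉ M.lattice →
        xu M u' e' (μ * z) * Q.eval (xu L u e z) = P.eval (xu L u e z) ∧
        (μ * u' / u) * yu M u' (μ * z) * Q.eval (xu L u e z) ^ 2 =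
          yu L u z * (derivative P * Q - P * derivative Q).eval (xu L u e z)

/-- (ISO) PORT of `Se_ISO`. Uses Sf_ALG, Sf_PRO, Sf_PTS, Sf_TW3, Sf_UNT, Sf_RAT. -/
def Sf_ISO : Prop :=
  ∀ (V : ValuationSubring ℂ) (L M : PeriodPair) (u e lam u' e' lam' μ : ℂ) (N : ℕ),
    GoodR V L u e lam → GoodR V M u' e' lam' → V.valuation (3 : ℂ) < 1 → μ ≠ 0 → Isg L M μ →
    ¬ 3 ∣ N → (∀ z, μ * z ∈ M.lattice → (N : ℂ) * z ∈ L.lattice) →
    (∀ Y ∈ E3 L, μ * Y ∈ E3 M) ∧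
    _root_.Pool.Agent.NSE.Rep V (E3 L) (su L u e) (ru L u e) (fun Y => su M u' e' (μ * Y)) 0 0 ∧
    _root_.Pool.Agent.NSE.Rep V (E3 L) (su L u e) (ru L u e) (fun Y => ru M u' e' (μ * Y)) 0 (μ * u' / u)

/-- (THN) PORT of `Se_THN`. Uses Sf_ALG, Sf_PRO, Sf_PUL, Sf_GRN, Sf_ISO, Sf_ADD, Sf_PTS. -/
def Sf_THN : Prop :=
  ∀ (V : ValuationSubring ℂ) (L M : PeriodPair) (u e lam u' e' lam' μ : ℂ) (N : ℕ),
    GoodR V L u e lam → GoodR V M u' e' lam' → V.valuation (3 : ℂ) < 1 → μ ≠ 0 → Isg L M μ →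
    ¬ 3 ∣ N → (∀ z, μ * z ∈ M.lattice → (N : ℂ) * z ∈ L.lattice) →
    ∀ (a : ℕ) (H : Finset ℂ), a ≠ 0 → IsHalf M (a : ℂ) H → ∀ z, ¬ InK V M (xu M u' e') z →
      (a : ℂ) * z ∉ M.lattice →
      (∀ q ∈ H, ¬ InK V M (xu M u' e') q ∧ ¬ InK V M (xu M u' e') (z + q) ∧
        ¬ InK V M (xu M u' e') (z - q)) →
      V.valuation (ThetaH M H z) = V.valuation (u' ^ 2) ^ H.card ∧
      V.valuation (μ * dlX M a z / u) ≤ 1 ∧
      _root_.Pool.Agent.NSE.Rep V (E3 L) (su L u e) (ru L u e) (fun Y => ThetaH M H (z + μ * Y) / ThetaH M H z) 1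
        (μ * dlX M a z / u)

/-- (NE1) points whose order is divisible by `f`.

Uses Sf_TNC. PROOF. As `te_NE1` (`E_NE1.lean`). Let `a q ∈ L`, `z + q ∈ InK`: `z' = 3^j (z + q) ∈ InK` (`MUXV.inK_nat`), `f a z' ∈ L`, so `z' ∈ L` (TNC), `a 3^j z ∈ L`, `f ∣ a 3^j`, contradiction (coprime, `f ≥ 2`). For `q`, `-q`, `0`. `q ∈ InK`, `a q ∈ L` gives `q ∈ L`. `a z ∈ L` gives `f ∣ a`. -/
def Sf_NE1 : Prop :=
  ∀ (V : ValuationSubring ℂ) (L : PeriodPair) (u e lam : ℂ), GoodR V L u e lam →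
    V.valuation (3 : ℂ) < 1 → ∀ (j f a : ℕ), 2 ≤ f → ¬ 3 ∣ f → ¬ 3 ∣ a → a.Coprime f →
      ∀ z : ℂ, ((3 ^ j * f : ℕ) : ℂ) * z ∈ L.lattice →
        (∀ c : ℕ, (c : ℂ) * z ∈ L.lattice → f ∣ c) →
        ¬ InK V L (xu L u e) z ∧ (a : ℂ) * z ∉ L.lattice ∧
        ∀ q : ℂ, (a : ℂ) * q ∈ L.lattice → q ∉ L.lattice → ¬ InK V L (xu L u e) q ∧
          ¬ InK V L (xu L u e) (z + q) ∧ ¬ InK V L (xu L u e) (z - q)

/-! ## The prime `P` -/

/-- (CTX) from the standing hypotheses to `CtxR`.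

PROOF. Model: `E_CTX.lean` (`Se_CTX`). `δ = dD A B = 2 w - B`, `δ² = B² + 4A = D`, `3 ∣ D`, `9 ∤ D` (`B = 1`: squarefree; `B = 0`: `D = 4A`, `A` squarefree). `P` prime (`IsPN`), `(3 : O) ∈ P`, so `δ² ∈ P`, `δ ∈ P`. `v 3 < 1` (`OverI`). `v(δ)² = v(D) = v 3 · v(D/3)`, and `v(D/3) = 1` (integers prime to `3`: `nat`).
`nP`: `IsPN`. `max`: a nonzero prime of a Dedekind domain (`te_RNG`), or `O/P` is a finite domain. `pm`: `O/P` has three elements. `int`, `unit`: as in the inert case (`emb x` is integral over `ℤ`; `OverI`). `sq`: `3 ∈ P * P`: `δ² = D = 3 D'`, `D' = 3 t ± 1`, so `3 = ±(δ² - 9 t)`, `9 = 3 · 3 ∈ P * P`. Conversely `P * P ⊆ (3)`: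
norms (`O/(3)` has `9` elements, `O/P²` has `9`), or: `P = (3, δ)` (an element `x = r + s w` of `P`: `2 x = (2 r + s B) + s δ`, so `2 r + s B ∈ P ∩ ℤ = 3 ℤ`, `x = -(x + ..)`: `x ≡ -2 x` modulo `3 P`... precisely `x = 3 x - 2 x`, `3 x ∈ (3)`, `2 x ∈ (3, δ)`), and the products `9, 3 δ, δ²` are in `(3)`. `vP`: `x ∈ P`: `x² ∈ (3)`, `v(x)² ≤ v 3`.
`nrm`: `nm x = x star x`; `star P = P` (`P = (3, δ)`, `star δ = -δ`); if `3 ∣ nm x` then `x star x ∈ P`, so `x ∈ P`. `good`, `iner`: `Sq_RFIN`. `exq`: `TorX.surj` for `m = ⊤`, `a = P` (coprime to `⊤`): `ActI.isq`. -/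
def Sf_CTX : Prop :=
  ∀ (A B : ℤ) (P : Ideal (OO A B)) (V : ValuationSubring ℂ), CaseR A B → IsPN 3 P →
    OverI V P → TorX A B → Sq_RFIN → CtxR A B P V

/-- (IDL) the ideals `lvR P f n = f P^(2n+1) = 3^n f P`.

PROOF. `P² = (3)` (`sq`), so `P^(2n) = (3^n)`, `P^(2n+1) = 3^n P` (`Ideal.span_singleton_pow`, `Ideal.mem_span_singleton_mul`). If `x P ⊆ (3) = P P` then `x ∈ P` (cancel `P`: `O` is a Dedekind domain; or `x δ ∈ (3)` gives `x δ² ∈ 3 P`... `D x = 3 D' x`, `D' x ∈ P`, `D'` a unit modulo `P`). Prime: `max`. `x ∈ 3^n f P` iff `p x ∈ (3^(n+1) f)` for all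
`p ∈ P`: `→`: `p p' ∈ (3)`; `←`: `3 x ∈ P P x`, precisely with `p = δ`: `δ x = 3^(n+1) f y`, `D x = 3^(n+1) f δ y`, `D' x = 3^n f (δ y)`, and `D' c = 1 + 3 t` with integers, `x = D' c x - 3 t x`, `3 x = 3^(n+1) f y'` (`3 ∈ P`). Natural numbers: `k = 3^n f p` with `p ∈ P`: compare coordinates (`re`, `im`): `p` is an integer in `P`, divisible by `3`. -/
def Sf_IDL : Prop :=
  ∀ (A B : ℤ) (P : Ideal (OO A B)) (V : ValuationSubring ℂ), CtxR A B P V →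
    (3 : OO A B) ∈ P ∧ (∀ x : OO A B, (∀ p ∈ P, p * x ∈ P * P) → x ∈ P) ∧
    (∀ n : ℕ, P ^ (2 * n) = idl (A := A) (B := B) (3 ^ n)) ∧
    (∀ k : ℕ, (k : OO A B) ∈ P ↔ 3 ∣ k) ∧
    ∀ f n : ℕ, f ≠ 0 →
      (∀ x : OO A B, x ∈ lvR P f n ↔ ∃ p ∈ P, x = ((3 ^ n * f : ℕ) : OO A B) * p) ∧
      (∀ x : OO A B, x ∈ lvR P f n ↔ ∀ p ∈ P, p * x ∈ idl (A := A) (B := B) (3 ^ (n + 1) * f)) ∧
      idl (A := A) (B := B) (3 ^ (n + 1) * f) ≤ lvR P f n ∧
      lvR P f n ≤ idl (A := A) (B := B) (3 ^ n * f) ∧ lvR P f n ≠ ⊥ ∧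
      (∀ k : ℕ, (k : OO A B) ∈ lvR P f n ↔ 3 ^ (n + 1) * f ∣ k) ∧
      (∀ c : OO A B, IsCoprime c ((3 * f : ℕ) : OO A B) → IsCoprime (sp c) (lvR P f n) ∧
        IsCoprime c ((3 ^ (n + 1) * f : ℕ) : OO A B))

/-- (UNR) `RF (f)` is unramified over `k` at `V` if `f` is prime to `3`.

PROOF. `Pool.Agent.NSR.tr_RAM` (`Sr_RAM`) with `ϖ = dD A B`: `dD ∈ P` (`dP`), `dD ∉ P² = (3)` (`sq`; the coordinate `im` of `dD` is `2`), `OverI V P`: from `unit` and `vP`. `F = RF (idl f)` (finite, Galois: `TorX`; `idl f ≠ ⊥`). `σ ∈ Gal(F/k)` in the inertia group: extend it to `s ∈ Aut(ℂ)`, `FixK` (`TorX.ext` for `F` as a field over `ℚ`; see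
`Pool/Agent/NS/E_UNR.lean`, `te_UNR`); `CtxR.iner`: `s y = y` for all `y ∈ F`, so `σ = 1`. -/
def Sf_UNR : Prop :=
  ∀ (A B : ℤ) (P : Ideal (OO A B)) (V : ValuationSubring ℂ), CtxR A B P V → TorX A B →
    ∀ f : ℕ, f ≠ 0 → ¬ 3 ∣ f → ∀ y ∈ RF (idl (A := A) (B := B) f), y ≠ 0 →
      ∃ k : ℤ, V.valuation y = V.valuation (emb (dD A B)) ^ k

/-- (DEG) the degree of `RF (f P^(2n+1))` over `RF (f)`.

Uses Sf_IDL. PROOF. As `E_DEG.lean` (`te_DEG`). `σ ∈ Gal(RF (lvR P f n)/k)` trivial on `RF (f)` acts as some `α` with `α - 1 ∈ (f)` (`GalE.ker`), `α ∉ P`; `σ` is determined by the class of `α` modulo `P^(2n+1)` (if `α ≡ α'` modulo `P^(2n+1)` and modulo `(f)`, then modulo `lvR P f n = (f) P^(2n+1)`, as `(f)` and `P` are coprime; `te_FAC`). The number of classes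
modulo `P^(2n+1)` of elements outside `P` is `3^(2n+1) - 3^(2n) = 2 · 9^n`: `O/P^(2n+1)` has `3^(2n+1)` elements (`nP`; `Ideal.absNorm` or `Submodule.cardQuot` is multiplicative) and is mapped onto `O/P` with `3` elements, all fibres have the same number `9^n`. (Or: `x = r + s w`; `P = {x : 3 ∣ 2 r + s B}`; `3^n P` has the representatives
`r, s` modulo `3^n` times ...) -/
def Sf_DEG : Prop :=
  ∀ (A B : ℤ) (P : Ideal (OO A B)) (V : ValuationSubring ℂ), CtxR A B P V → GalE A B →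
    ∀ (n f : ℕ), f ≠ 0 → ¬ 3 ∣ f →
      Module.finrank (kk A B) (RF (lvR P f n)) ≤
        (2 * 9 ^ n) * Module.finrank (kk A B) (RF (idl (A := A) (B := B) f))

/-- (RP1) the coordinates of the points of `E[P]` are in `RF (2)`.

Uses Sf_LEG, Sf_IDL. PROOF. `u² = xn w₂ - xn w₁`, `e = xn w₁ + 1/12` with `w₁, w₂` of order two (LEG; see `ONE.usq` in `E_ONE.lean`). `M = RF (idl 2 * P) ≥ M₀ = RF (idl 2)`, finite and Galois over `k` (`GalE`), `xn L z ∈ M` (`te_FAC` (2); `Tor P` implies `Tor (idl 2 * P)`). Let `σ ∈ Gal(M/k)` be trivial on `M₀`: `GalE.ker` (`m = idl 2 * P ≤ m' = idl 2`):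
`ActE (em σ) m α`, `α` prime to `P`, so `α ≡ ± 1` modulo `P` (`pm`), `emb α z ≡ ± z` modulo `L` and `σ (xn L z) = xn L (emb α z) = xn L z`. So `xn L z` is fixed by all `σ ∈ Gal(M/k)` which are trivial on `M₀`: it is in `M₀` (Galois theory: `M₀` as an intermediate field of `M/k` is the fixed field of its fixing subgroup). -/
def Sf_RP1 : Prop :=
  ∀ (A B : ℤ) (P : Ideal (OO A B)) (V : ValuationSubring ℂ), CtxR A B P V → GalE A B →
    ∀ (L : PeriodPair) (u e lam : ℂ), NL A B L → GoodR V L u e lam →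
      u ^ 2 ∈ RF (idl (A := A) (B := B) 2) ∧ e ∈ RF (idl (A := A) (B := B) 2) ∧
      ∀ z, Tor P L z → z ∉ L.lattice → xn L z ∈ RF (idl (A := A) (B := B) 2) ∧
        xu L u e z ∈ RF (idl (A := A) (B := B) 2)

/-- (RPV) the values of the points of `E[P]`.

Uses Sf_COE, Sf_TW3, Sf_UNR, Sf_RP1. PROOF. `3 ∈ P` so `z ∈ E3 L`. TW3: `v(s) < 1`, `lam² s⁴ = 3 - 4 (1 + lam) s + 6 lam s²`. `ρ = v(dD)`, `ρ² = v 3`, `ρ < 1`. `x ∈ RF (2)` (RP1), so `v(s) = ρ^k` (UNR with `f = 2`), `k ≥ 1`. If `k ≥ 2`: `v(4 (1 + lam) s) ≤ ρ ρ^k < ρ²` (`v(1 + lam)² ≤ v 3`, so `v(1 + lam) ≤ ρ`), `v(6 lam s²) ≤ ρ² ρ^(2k) < ρ²`, so the right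
side has valuation `ρ²` and the left side `ρ^(4k)`, `4 k = 2`: impossible. So `k = 1`. -/
def Sf_RPV : Prop :=
  ∀ (A B : ℤ) (P : Ideal (OO A B)) (V : ValuationSubring ℂ), CtxR A B P V → TorX A B →
    GalE A B → ∀ (L : PeriodPair) (u e lam : ℂ), NL A B L → GoodR V L u e lam →
      ∀ z, Tor P L z → z ∉ L.lattice → InK V L (xu L u e) z ∧ xu L u e z ≠ 0 ∧
        V.valuation (su L u e z) ^ 2 = V.valuation (3 : ℂ)

/-- (PIS) the multiplier of `L → ν P⁻¹ L`.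

Uses Sf_GRN, Sf_TNC, Sf_RPV, Su_BAC, Su_PFI. PROOF. `μ = ν`: `Isg L N ν`, and `ν z ∈ N` iff `Tor P L z` (`IsQ`). `R` representatives of the nonzero classes of `E[P]/L` (BAC, `IsRpM`). `|R| = 2`: by `te_TRB` (2) (`P` maximal) and `pm`, with `q ∈ R` every point of `E[P]` is `≡ 0, q, -q`, and `q ≢ -q`. Choose two different primes `l, l' > 3` with
`w = ω₁/l`, `z = ω₁/l'` (`ω₁` a period of `L`): `w, z, z ± w ∉ InK V L` (TNC), `w + q ∉ InK` (`q ∈ InK` by RPV, so `w` would be in `InK`), `z ± (w + q)` the same; `ν w, ν z, ν (z ± w) ∉ N` (they are killed by `l l'`, and `3` kills `E[P]/L`), not in `InK V N`. (PFI) in the coordinates (`℘ = u² x + e`):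
`(ν u'/u)² (x'(ν z) - x'(ν w)) ∏_(q ∈ R) (x z - x q) = (x z - x w) ∏_(q ∈ R) (x z - x(w + q))`; the differences `x' - x'`, `x z - x w`, `x z - x(w + q)` are units (`MUXV.v_X_sub`), and `v(x z - x q) = v(x q) > 1 ≥ v(x z)`, `v(x q)² v 3 = 1` (RPV). So `v(ν u'/u)² v(x q) v(x q') = 1`, `v(ν u'/u)² = v 3`. -/
def Sf_PIS : Prop :=
  ∀ (A B : ℤ) (P : Ideal (OO A B)) (V : ValuationSubring ℂ), CtxR A B P V → TorX A B →
    GalE A B → ∀ (L N : PeriodPair) (nu u e lam u' e' lam' : ℂ), NL A B L → NL A B N →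
      IsQ P L N nu → GoodR V L u e lam → GoodR V N u' e' lam' →
      V.valuation (nu * u' / u) ^ 2 = V.valuation (3 : ℂ)

/-- (TPR) the values of the points of exact order `P^(j+1)`.

Uses Sf_COE, Sf_GRN, Sf_TNC, Sf_RPV, Sf_PIS, Su_BAC, Su_PFI. PROOF. Induction on `j`, for all lattices; `j = 0` is (RPV) (`Tor (P^0) L z` iff `z ∈ L`). Step: `Tor (P^(j+2)) L z`, not `Tor (P^(j+1)) L z`. `N`, `ν` (`exq`), `u', e', lam'` (`good`), `z' = ν z`: `Tor (P^(j+1)) N z'`, not `Tor (P^j) N z'` (`IsQ`), so by induction `v(x' z') = Y > 1`,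
`Y^(2·3^j) v 3 = 1`. `R` as in (PIS), `|R| = 2`, `v(x q) = T`, `T² v 3 = 1`, `T > 1`, `Y ≤ T` (`Y^(2·3^j) = T²`). `w = ω₁/5`: `w, w + q ∉ InK V L`, `ν w ∉ InK V N`. (PFI): `(ν u'/u)² (x'(z') - x'(ν w)) ∏ (x z - x q) = (x z - x w) ∏ (x z - x(w + q))`, `v(ν u'/u)² = v 3` (PIS). If `x z ∈ V`: the left side has valuation `v(3) Y T² = Y > 1`, the right side
`≤ 1`. So `X = v(x z) > 1`, the right side has valuation `X³`. If `X > T`: `v(3) Y X² = X³`, `X = v(3) Y < Y ≤ T`. If `X = T`: `T³ ≤ v(3) Y T² = Y ≤ T`, but `T³ > T`. So `X < T`, `X³ = v(3) Y T² = Y`. (`x z ≠ 0`, `su = 1/x`.) -/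
def Sf_TPR : Prop :=
  ∀ (A B : ℤ) (P : Ideal (OO A B)) (V : ValuationSubring ℂ), CtxR A B P V → TorX A B →
    GalE A B → ∀ (j : ℕ) (L : PeriodPair) (u e lam : ℂ), NL A B L → GoodR V L u e lam →
      ∀ z, Tor (P ^ (j + 1)) L z → ¬ Tor (P ^ j) L z → InK V L (xu L u e) z ∧
        xu L u e z ≠ 0 ∧ V.valuation (su L u e z) ^ (2 * 3 ^ j) = V.valuation (3 : ℂ)

/-! ## The points -/

/-- (EXO) exact orders of the points of level `m = 3^(n+1) f`.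

Uses Sf_IDL. PROOF. `te_PT te_TRA`: `pt R m i x = μ_i (emb x (om_0/m))`. `emb c * pt = μ_i (emb (c x) (om_0/m))`; by part (3) of PT with `r = m` it is in `L_i` iff `emb (c x) (om_0/m) ∈ L_0` iff `m ∣ c x` iff `m ∣ c` (`x` prime to `m`). On `N`: `emb c (ν z) ∈ N` iff `emb p (emb c z) ∈ L` for all `p ∈ P` (`IsQ`) iff `p c ∈ (m)` for all `p ∈ P` iff
`c ∈ lvR P f n` (IDL). Third part: `q ∈ E[P] ∖ L` and `3^(n+1) f (z + l q) ∈ L`; `c (z + l q) ∈ L` implies `3 c z ∈ L`, `3^(n+1) f ∣ 3 c`. Last part: `N_i = ν_i P⁻¹ L_i`, `ν_i pt = (μ_i emb x ν_i/ν_0) (ν_0 om_0/m)`. -/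
def Sf_EXO : Prop :=
  ∀ (A B : ℤ) (P : Ideal (OO A B)) (V : ValuationSubring ℂ), CtxR A B P V →
    ∀ (n f : ℕ) (ι : Type) (R : Reps A B (3 * f) ι), f ≠ 0 → ∀ (i : ι) (x : OO A B),
    IsCoprime x ((3 ^ (n + 1) * f : ℕ) : OO A B) →
      Ex (idl (A := A) (B := B) (3 ^ (n + 1) * f)) (R.L i) (pt R (3 ^ (n + 1) * f) i x) ∧
      (∀ (N : PeriodPair) (nu : ℂ), IsQ P (R.L i) N nu →
        Ex (lvR P f n) N (nu * pt R (3 ^ (n + 1) * f) i x)) ∧
      (∀ q : ℂ, Tor P (R.L i) q → ∀ l : ℕ,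
        ((3 ^ (n + 1) * f : ℕ) : ℂ) * (pt R (3 ^ (n + 1) * f) i x + l * q) ∈ (R.L i).lattice ∧
        ∀ c : ℕ, (c : ℂ) * (pt R (3 ^ (n + 1) * f) i x + l * q) ∈ (R.L i).lattice → f ∣ c) ∧
      ∀ nu nu0 : ℂ, nu0 ≠ 0 → nu * pt R (3 ^ (n + 1) * f) i x =
        (muX R i * emb x * nu / nu0) * (nu0 * (R.om R.i0 / (3 ^ (n + 1) * f : ℕ)))

/-- (MUL) the isogenies `μ_i x : L_(i0) → L_i` and `μ_i x ν/ν_0 : N_0 → N` have degree prime to `3`.

PROOF. First part: as `te_MUL` (`E_MUL.lean`). Second: `z ∈ N_0`, `w = z/ν_0`: `emb p w ∈ L_0` for all `p ∈ P` (`IsQ`), so `emb p (μ w) ∈ L_i` (`μ = μ_i emb x`), `ν (μ w) ∈ N`. Kernel: `ν μ w ∈ N`: `μ (emb p w) ∈ L_i` for all `p`, `n (emb p w) ∈ L_0`, `ν_0 (n w) ∈ N_0`. -/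
def Sf_MUL : Prop :=
  ∀ (A B : ℤ) (P : Ideal (OO A B)) (V : ValuationSubring ℂ), CtxR A B P V →
    ∀ (n : ℕ) (ι : Type) (R : Reps A B n ι),
    n ≠ 0 → 3 ∣ n → ∀ (i : ι) (x : OO A B), x ∉ P →
      (muX R i * emb x ≠ 0 ∧ Isg (R.L R.i0) (R.L i) (muX R i * emb x) ∧
      ∃ N : ℕ, ¬ 3 ∣ N ∧ ∀ z, muX R i * emb x * z ∈ (R.L i).lattice →
        (N : ℂ) * z ∈ (R.L R.i0).lattice) ∧
      ∀ (N0 N : PeriodPair) (nu0 nu : ℂ), IsQ P (R.L R.i0) N0 nu0 → IsQ P (R.L i) N nu →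
        muX R i * emb x * nu / nu0 ≠ 0 ∧ Isg N0 N (muX R i * emb x * nu / nu0) ∧
        ∃ m : ℕ, ¬ 3 ∣ m ∧ ∀ z, muX R i * emb x * nu / nu0 * z ∈ N.lattice →
          (m : ℂ) * z ∈ N0.lattice

/-- (UNI) a uniformiser of `RF (f a P^(2n+1))` over `RF (f a)`.

Uses Sf_GRN, Sf_LEG, Sf_TNC, Sf_TPR, Sf_UNR, Sf_DEG, Sf_RP1, Sf_IDL, `Pool.Agent.NSE.te_BAS`. PROOF. As `E_SIG.lean`, first half. Integers `α 3^(n+1) + β f = 1`; `P₀ = α 3^(n+1) z₁`, `P₁ = β f z₁`, `z₁ = P₀ + P₁`. `f P₀ ∈ N` (`3^(n+1) f ∈ lvR`), `2 P₀ ∉ N` (otherwise `3^(n+1) f ∣ 2 α 3^(n+1)` (IDL), `f ∣ 2`, `f` is prime to `α`), so `P₀, 2 P₀ ∉ InK` (TNC).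
`Tor (P^(2n+1)) N P₁`, not `Tor (P^(2n)) N P₁` (`P^(2n) = (3^n)`; `3^n β f ∉ lvR P f n` because `3 ∤ β f`): `v(s P₁)^(2·9^n) = v 3` (TPR with `j = 2n`). `z₁ ∉ InK`. `π = x(z₁) - x(P₀)`: `v π = v(t P₁)` (`Pool.Agent.MUXV.tq_YUN`, see `E_SIG.lean`), `v(t P₁)² = v(s P₁)`, so `(v(π)^(2·9^n))² = v 3 = v(dD)²`. `xu = (xn + 1/12 - e)/u²`. (BAS) with `p = emb (dD A B)`,
`N = 2·9^n` (DEG and UNR for `f a`; `RF (idl (f a)) ≤ RF (lvR P (f a) n)`). -/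
def Sf_UNI : Prop :=
  ∀ (A B : ℤ) (P : Ideal (OO A B)) (V : ValuationSubring ℂ), CtxR A B P V → TorX A B →
    GalE A B → ∀ (N : PeriodPair) (u e lam : ℂ), NL A B N → GoodR V N u e lam →
    ∀ n f a : ℕ, 3 ≤ f → 2 ∣ f → ¬ 3 ∣ f → a ≠ 0 → ¬ 3 ∣ a → ∀ z₁ : ℂ, Ex (lvR P f n) N z₁ →
    ∃ (P₀ : ℂ) (k : ℤ), P₀ = k * z₁ ∧ (f : ℂ) * P₀ ∈ N.lattice ∧ P₀ ∉ N.lattice ∧
      2 * P₀ ∉ N.lattice ∧ z₁ - P₀ ∉ N.lattice ∧ z₁ + P₀ ∉ N.lattice ∧
      ¬ InK V N (xu N u e) P₀ ∧ ¬ InK V N (xu N u e) (2 * P₀) ∧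
      ¬ InK V N (xu N u e) z₁ ∧ ¬ InK V N (xu N u e) (2 * z₁) ∧
      xu N u e P₀ ∈ RF (idl (A := A) (B := B) (f * a)) ∧
      xu N u e z₁ - xu N u e P₀ ∈ RF (lvR P (f * a) n) ∧
      V.valuation (xu N u e z₁ - xu N u e P₀) ^ (2 * 9 ^ n) = V.valuation (emb (dD A B)) ∧
      ∀ w ∈ RF (lvR P (f * a) n), V.valuation w ≤ 1 →
        ∃ c : Fin (2 * 9 ^ n) → RF (idl (A := A) (B := B) (f * a)),
          (∀ i, V.valuation (c i : ℂ) ≤ 1) ∧
          w = ∑ i, (c i : ℂ) * (xu N u e z₁ - xu N u e P₀) ^ (i : ℕ)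

/-- (SIG) `Y ↦ σ_Y(w)` for `w` in the ray class field, `σ_Y(z₁) = z₁ + Y`.

Uses Sf_ALG, Sf_PRO, Sf_LEG, Sf_PTS, Sf_ADD, Sf_UNI, Sf_RP1, Sf_IDL. PROOF. As `E_SIG.lean`, second half. (UNI): `w = Σ c_i π^i`, `F Y = Σ c_i (x(z₁ + Y) - x(P₀))^i`: a polynomial over `V` in `x(z₁ + Y)` (`v(x P₀) ≤ 1`), represented by `(w, β)` (ADD, PRO (1)). `σ` acts trivially on `RF (f a)` (`te_FAC`; `c - 1 ∈ (f a)`), so on `c_i`, `e`, `u²`, `x(P₀)`, and
`σ(xn z₁) = xn (emb c z₁) = xn (z₁ + emb (c - 1) z₁)` (`Tor` for `idl (3^(n+1) f a)`; all in `RF (idl (3^(n+1) * f * a))` by `te_FAC` (1), (2)). -/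
def Sf_SIG : Prop :=
  ∀ (A B : ℤ) (P : Ideal (OO A B)) (V : ValuationSubring ℂ), CtxR A B P V → TorX A B →
    GalE A B → ∀ (N : PeriodPair) (u e lam : ℂ), NL A B N → GoodR V N u e lam →
    ∀ n f a : ℕ, 3 ≤ f → 2 ∣ f → ¬ 3 ∣ f → a ≠ 0 → ¬ 3 ∣ a → ∀ z₁ : ℂ, Ex (lvR P f n) N z₁ →
    ∀ w ∈ RF (lvR P (f * a) n), V.valuation w ≤ 1 →
    ∃ (F : ℂ → ℂ) (β : ℂ), V.valuation β ≤ 1 ∧ _root_.Pool.Agent.NSE.Rep V (E3 N) (su N u e) (ru N u e) F w β ∧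
      ∀ (c : OO A B), c - 1 ∈ idl (A := A) (B := B) (f * a) →
      ∀ (σ : RF (idl (A := A) (B := B) (3 ^ (n + 1) * f * a)) ≃ₐ[kk A B]
        RF (idl (A := A) (B := B) (3 ^ (n + 1) * f * a))),
      ActE (_root_.Pool.Agent.MU3A.em σ) (idl (A := A) (B := B) (3 ^ (n + 1) * f * a)) c →
      ∀ hw : w ∈ RF (idl (A := A) (B := B) (3 ^ (n + 1) * f * a)),
        (σ ⟨w, hw⟩ : ℂ) = F (emb (c - 1) * z₁)

/-- (DIS) the distribution relation for `L → N = ν P⁻¹ L`.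

Uses Su_BAC, Su_PFI. PROOF. `R = {q, -q}` are representatives of the nonzero classes of `{z : ν z ∈ N} = E[P]` modulo `L` (`te_TRB` (2), `pm`; `2 q ∉ L` as `3 q ∈ L`). (PFI) with `w = h ∈ H` (`ν h ∉ N`: otherwise `3 h ∈ L`, `a h ∈ L`, `h ∈ L`): `ν² (℘_N(ν z) - ℘_N(ν h)) (℘ z - ℘ q)² = (℘ z - ℘ h)(℘ z - ℘(h + q))(℘ z - ℘(h - q))`. Identity (*)
`(℘(z + q) - ℘ h)(℘(z - q) - ℘ h)(℘ z - ℘ q)² = (℘ z - ℘(h + q))(℘ z - ℘(h - q))(℘ h - ℘ q)²`: by `b_ADD` (for `q` and `-q`) `S = ℘(z+q) + ℘(z-q)`, `Π = ℘(z+q) ℘(z-q)` satisfy `S (X - Q)² = (X + Q)(2 X Q - g₂/2) - g₃`, `Π (X - Q)² = (X Q + g₂/4)² + g₃ (X + Q)` (`X = ℘ z`, `Q = ℘ q`), and both sides of (*) are the same symmetric polynomial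
`X²Y² + Y²Q² + X²Q² - 2 X Y Q (X + Y + Q) + (g₂/2)(X Y + Y Q + X Q) + g₃ (X + Y + Q) + g₂²/16`, `Y = ℘ h`. Multiply over `h ∈ H`: `∏_l Θ(z + l q) = ν^(2|H|) ∏_h (℘ h - ℘ q)² ∏_h (℘_N(ν z) - ℘_N(ν h))` (`l q`, `l = 0, 1, 2`, is `0, q, -q` modulo `L`), and `ν H` is a half system of `N` for `a` (`3 ∤ a`), so the last product is `Θ_N(ν z)`
(`b_TIN`). `C ≠ 0` (`b_NEQ`). Derivatives: both sides have logarithmic derivatives (`b_TDL`, `dlX`, `‖a‖² = a²`), the relation holds on an open set. -/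
def Sf_DIS : Prop :=
  ∀ (A B : ℤ) (P : Ideal (OO A B)) (V : ValuationSubring ℂ), CtxR A B P V →
    ∀ (L N : PeriodPair) (nu : ℂ), NL A B L → NL A B N → IsQ P L N nu →
    ∀ (a : ℕ) (H H' : Finset ℂ), a ≠ 0 → ¬ 3 ∣ a → IsHalf L (a : ℂ) H → IsHalf N (a : ℂ) H' →
    ∀ q : ℂ, Tor P L q → q ∉ L.lattice → ∃ C : ℂ, C ≠ 0 ∧
      ∀ z : ℂ, (a : ℂ) * (nu * z) ∉ N.lattice →
        (∏ l ∈ Finset.range 3, ThetaH L H (z + l * q)) = C * ThetaH N H' (nu * z) ∧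
        (∑ l ∈ Finset.range 3, dlX L a (z + l * q)) = nu * dlX N a (nu * z)

/-! ## Lemma E for families -/

/-- (INN) integrality, and the sums over `E[P]`.

Uses Sf_THN, Sf_NE1, Sf_EXO, Sf_MUL, Sf_PIS, Sf_DIS, `Pool.Agent.MUX` (HAL: half systems exist for odd `a`). PROOF. `m = 3^(n+1) f`, `z = pt R m i x`, `z' = z + l q`: `m z' ∈ L_i`, `c z' ∈ L_i` implies `f ∣ c` (EXO), so (NE1) and (THN) (`μ = μ_i emb x : L_0 → L_i`, `v(emb x) = 1`) apply to `z'`: the first two claims (`3 ∣ |H|`: `ONE.card3` in `E_ONE.lean`; `a ≡ 1` or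
`2` modulo 3). Third: `N_i = ν_i P⁻¹ L_i`, `N_0 = ν_0 P⁻¹ L_0` (`exq`, `good`), `H'` a half system for `a` on `N_i` (`b_HAL`; `a` odd); `ν_i z` has the exact order `lvR P f n` on `N_i` (EXO), so `m ν_i z ∈ N_i`, `c ν_i z ∈ N_i` implies `f ∣ c` (IDL), (NE1), (THN) for `μ' = μ_i emb x ν_i/ν_0 : N_0 → N_i`: `v(μ' dl_(N_i)(ν_i z)/u_(N_0)) ≤ 1`, and by (DIS)
`μ_i emb x Σ_l dl_(L_i)(z + l q)/u = (μ' dl_(N_i)(ν_i z)/u_(N_0)) (ν_0 u_(N_0)/u)`, `v(ν_0 u_(N_0)/u)² = v 3` (PIS). -/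
def Sf_INN : Prop :=
  ∀ (A B : ℤ) (P : Ideal (OO A B)) (V : ValuationSubring ℂ), CtxR A B P V → TorX A B →
    GalE A B → ∀ (n f a : ℕ), 3 ≤ f → 2 ∣ f → ¬ 3 ∣ f → 3 ≤ a → Odd a → ¬ 3 ∣ a → a.Coprime f →
    ∀ (ι : Type) (R : Reps A B (3 * f) ι) (u e lam : ℂ), GoodR V (R.L R.i0) u e lam →
    ∀ (H : ι → Finset ℂ), (∀ i, IsHalf (R.L i) (a : ℂ) (H i)) →
    ∀ (i : ι) (x : OO A B), IsCoprime x ((3 ^ (n + 1) * f : ℕ) : OO A B) →
    ∀ q : ℂ, Tor P (R.L i) q →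
      (∀ l : ℕ, (∃ k : ℤ, V.valuation (ThetaH (R.L i) (H i) (pt R (3 ^ (n + 1) * f) i x + l * q)) =
          V.valuation (emb (dD A B)) ^ (3 * k)) ∧
        V.valuation (muX R i * dlX (R.L i) a (pt R (3 ^ (n + 1) * f) i x + l * q) / u) ≤ 1) ∧
      (q ∉ (R.L i).lattice → V.valuation (muX R i * (∑ l ∈ Finset.range 3,
        dlX (R.L i) a (pt R (3 ^ (n + 1) * f) i x + l * q)) / u) ^ 2 ≤ V.valuation (3 : ℂ))

/-- (ONE) Lemma E for products over finite families of points.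

Uses Sf_ALG, Sf_PRO, Sf_PTS, Sf_THN, Sf_SIG, Sf_NE1, Sf_MUL, Sf_EXO, Sf_IDL, Sf_DIS, Sf_PIS, Sf_INN. PROOF. As `E_ONE.lean`. `m = 3^(n+1) f`. `N_i, ν_i` (`exq`), models `u_i', e_i', lam_i'` (`good`), half systems `H_i'` of `N_i` (`a` odd, `b_HAL`); `N_0, ν_0` for `i0`, `z₁ = ν_0 om_0/m = ν_0 pt R m i0 1`, exact order `lvR P f n` (EXO). `W = ∏_j (∏_k ∏_l Θ)^(g_j) = y³`;
`v(W) = ρ^(3K)`, `ρ = v(dD)` (INN), so `w = y/emb(dD)^K ∈ RF (lvR P f n) ≤ RF (lvR P (f a) n)`, `v w = 1`. (SIG) for `N_0`, `z₁`, `w`: `F`, `β`. Let `c - 1 ∈ lvR P (f a) (n - 1)`; `c` is prime to `3^(n+1) f a` (`n ≥ 1`), `c - 1 ∈ P`, `σ` with `ActE (em σ) (idl (3^(n+1) f a)) c`. (`te_GTH`) `σ(Θ(z + l q)) = Θ(c z + l c q) = Θ(c z + l q)` (`c q ≡ q`), so by (DIS)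
`σ(∏_l Θ(z + l q)) = C Θ_(N_i)(ν_i c z)`, `ν_i c z = ν_i z + μ' Y`, `Y = emb (c - 1) z₁`, `μ' = μ_i emb x ν_i/ν_0` (EXO), `∏_l Θ(z + l q) = C Θ_(N_i)(ν_i z)` with the same `C` (DIS for the chosen `q`), and `σ(emb dD) = emb dD`. So `∏_j (∏_k Θ_(N_i)(ν_i z + μ' Y)/Θ_(N_i)(ν_i z))^(g_j) = (F(Y)/w)³` for `Y = emb (c - 1) z₁`. Every `Y ∈ E3 N_0` is congruent
modulo `N_0` to such a point: `Y = ν_0 om_0 t`, `3 p t ∈ emb O` for `p ∈ P` (`IsQ`, `b0`); `m t = f 3^n (3 t)`, `3 t P ⊆ O`, so `3 (3 t) ∈ emb P` (`3 ∈ P P`) and `m t = 3^(n-1) f p'`, `p' ∈ P`; with `a a' ≡ 1` modulo 3: `c = 1 + 3^(n-1) f a a' p'`, `(a a' - 1) 3^(n-1) f p' ∈ lvR P f n`. (THN) for `μ' : N_0 → N_i` (MUL, NE1): represented by `(1, μ' dl_(N_i)(ν_i z)/u_0')`. (PRO (2), (3)):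
`v(S') ≤ v 3`, `S' = Σ g_j Σ_k μ' dl_(N_i)(ν_i z)/u_0' = (Σ g_j Σ_k emb x μ_i Σ_l dl_(L_i)(z + l q)/u) (u/(ν_0 u_0'))` (DIS), `v(ν_0 u_0'/u)² = v 3` (PIS): `v(Σ)² ≤ v(3)² v 3`. -/
def Sf_ONE : Prop :=
  ∀ (A B : ℤ) (P : Ideal (OO A B)) (V : ValuationSubring ℂ), CtxR A B P V → TorX A B →
    GalE A B →
    ∀ (n f a : ℕ), 1 ≤ n → 3 ≤ f → 2 ∣ f → ¬ 3 ∣ f → 3 ≤ a → Odd a → ¬ 3 ∣ a → a.Coprime f →
    ∀ (ι : Type) (R : Reps A B (3 * f) ι) (u e lam : ℂ), GoodR V (R.L R.i0) u e lam →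
    ∀ (H : ι → Finset ℂ), (∀ i, IsHalf (R.L i) (a : ℂ) (H i)) →
    ∀ (J κ : Type) [Fintype J] (X : J → Finset κ) (g : J → ℤ) (i : κ → ι) (x : κ → OO A B)
      (q : κ → ℂ),
      (∀ j, ∀ k ∈ X j, IsCoprime (x k) ((3 ^ (n + 1) * f : ℕ) : OO A B) ∧
        Tor P (R.L (i k)) (q k) ∧ q k ∉ (R.L (i k)).lattice) →
      (∃ y ∈ RF (lvR P f n), y ^ 3 =
        ∏ j, (∏ k ∈ X j, ∏ l ∈ Finset.range 3, ThetaH (R.L (i k)) (H (i k))
          (pt R (3 ^ (n + 1) * f) (i k) (x k) + l * q k)) ^ g j) →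
      V.valuation ((∑ j, (g j : ℂ) * ∑ k ∈ X j, emb (x k) * muX R (i k) *
        ∑ l ∈ Finset.range 3, dlX (R.L (i k)) a
          (pt R (3 ^ (n + 1) * f) (i k) (x k) + l * q k)) / u) ^ 2 ≤ V.valuation (3 : ℂ) ^ 3

/-- (MAIN) Lemma E for a conjugate family.

Uses Sf_ONE. PROOF. As `E_MAIN.lean` or `Pool/Agent/MUX/E_MAIN0.lean` (`Sxe_MAIN0`): apply `τ'` to `y^3 = ∏ C τ ^ g τ`: `(τ' y)³ = ∏ C(τ τ')^(g τ)` (`hC`, `Gal(D/k)` is commutative: `TorX.comm`, `D ≤ RF (lvR P f n)`), then (ONE) with `J = Gal(D/k)`, `X τ = S (τ τ')`. `lvX 3 f n = f * 3 * 3^n = 3^(n+1) * f`, `aX 3 f = 1 + 6 f` is odd, prime to `3` and `f`. -/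
def Sf_MAIN : Prop :=
  ∀ (A B : ℤ) (P : Ideal (OO A B)) (V : ValuationSubring ℂ), CtxR A B P V → TorX A B →
    GalE A B →
    ∀ (n f : ℕ), 1 ≤ n → 3 ≤ f → 2 ∣ f → ¬ 3 ∣ f →
    ∀ (ι : Type) (R : Reps A B (3 * f) ι) (u e lam : ℂ), GoodR V (R.L R.i0) u e lam →
    ∀ (H : ι → Finset ℂ), (∀ i, IsHalf (R.L i) (aX 3 f : ℂ) (H i)) →
    ∀ (D : IntermediateField ℚ ℂ) (h : kk A B ≤ D), (∀ y ∈ D, y ∈ RF (lvR P f n)) →
    letI := algC h
    ∀ (C : (D ≃ₐ[kk A B] D) → ℂ) (κ : Type) (S : (D ≃ₐ[kk A B] D) → Finset κ) (i : κ → ι)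
      (x : κ → OO A B) (q : κ → ℂ),
    (∀ τ : D ≃ₐ[kk A B] D, ∃ y : D, (y : ℂ) = C 1 ∧ ((τ y : D) : ℂ) = C τ) →
    (∀ τ, ∀ k ∈ S τ, IsCoprime (x k) ((lvX 3 f n : ℕ) : OO A B) ∧
        Tor P (R.L (i k)) (q k) ∧ q k ∉ (R.L (i k)).lattice) →
    (∀ τ, C τ = ∏ k ∈ S τ, ∏ l ∈ Finset.range 3, ThetaH (R.L (i k)) (H (i k))
      (pt R (lvX 3 f n) (i k) (x k) + l * q k)) →
    ∀ g : (D ≃ₐ[kk A B] D) → ℤ,
      (∃ y ∈ D, y ^ 3 = ∏ᶠ τ : D ≃ₐ[kk A B] D, C τ ^ g τ) →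
      ∀ τ' : D ≃ₐ[kk A B] D,
        V.valuation ((∑ᶠ τ : D ≃ₐ[kk A B] D, (g τ : ℂ) * ∑ k ∈ S (τ * τ'),
          emb (x k) * muX R (i k) * ∑ l ∈ Finset.range 3, dlX (R.L (i k)) (aX 3 f)
            (pt R (lvX 3 f n) (i k) (x k) + l * q k)) / u) ^ 2 ≤ V.valuation (3 : ℂ) ^ 3

/-! ## The small group and the trace -/

/-- (LAG) Lagrange interpolation over `V`.

PROOF. `G = ∏_(l < e) (X - π_l)` is monic with coefficients in `V`; `H = G Q + R` (`Polynomial.modByMonic`; work in `V[X]`), `R` over `V`, `deg R < e`, `R(π_l) = H(π_l)`. Lagrange: `R = Σ_l R(π_l) ∏_(l' ≠ l) (X - π_l')/(π_l - π_l')` (`Lagrange.eq_interpolate_of_eval_eq`, `Lagrange.basis`); the coefficient of `X^(e-1)` is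
`Σ_l R(π_l)/∏_(l' ≠ l) (π_l - π_l')` and it is in `V`. (`e = 0`: empty sum.) -/
def Sf_LAG : Prop :=
  ∀ (V : ValuationSubring ℂ) (e : ℕ) (π : ℕ → ℂ) (H : ℂ[X]), (∀ l < e, V.valuation (π l) ≤ 1) →
    (∀ l < e, ∀ l' < e, π l = π l' → l = l') → IntP V H →
    V.valuation (∑ l ∈ Finset.range e, H.eval (π l) /
      ∏ l' ∈ (Finset.range e).erase l, (π l - π l')) ≤ 1

/-- (TRV) the valuation of a trace.

Uses Sf_LAG. PROOF. `π_l = σ^l π`, `l < e`, are different (`σ^l π = σ^l' π` with `l < l'` gives `σ^(l'-l) π = π`). `κ = (∏_(l < e) π_l)^k`, `σ κ = κ` (`σ^e π = π`), `v κ = v(π)^(e k)`. `G_l = ∏_(l' ≠ l, l' < e) (π_l - π_l')`, `σ^l G_0 = G_l` (indices modulo `e`), `v(G_0) ≤ v(π)^(e k)` (hypothesis; `v(G_0)` is the valuation of `∏_(l ∈ Ico 1 e) (π - σ^l π)`). `Y = X G_0/κ ∈ M`,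
`v Y ≤ 1`: `Y = Σ a_i π^i = h(π)`, `h = Σ C(a_i) X^i` over `V`, and `σ^l Y = h(π_l)` (`a_i` fixed). So `σ^l X = κ h(π_l)/G_l`, `Σ_l σ^l X = κ Σ_l h(π_l)/G_l ∈ κ V` (LAG). -/
def Sf_TRV : Prop :=
  ∀ (K : Type) [Field K] [Algebra K ℂ] (V : ValuationSubring ℂ) (M₀ M : IntermediateField K ℂ)
    (σ : M ≃ₐ[K] M) (N e k : ℕ) (π : M), 0 < e →
    (∀ (y : ℂ) (hy : y ∈ M), y ∈ M₀ → (σ ⟨y, hy⟩ : ℂ) = y) → M₀ ≤ M →
    (∀ w ∈ M, V.valuation w ≤ 1 → ∃ a : Fin N → M₀, (∀ i, V.valuation (a i : ℂ) ≤ 1) ∧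
      w = ∑ i, (a i : ℂ) * (π : ℂ) ^ (i : ℕ)) →
    (σ ^ e) π = π → (π : ℂ) ≠ 0 → V.valuation (π : ℂ) ≤ 1 →
    (∀ l : ℕ, V.valuation (((σ ^ l) π : M) : ℂ) = V.valuation (π : ℂ)) →
    (∀ l, 0 < l → l < e → (σ ^ l) π ≠ π) →
    V.valuation (∏ l ∈ Finset.Ico 1 e, ((π : ℂ) - ((σ ^ l) π : M))) ≤
      V.valuation (π : ℂ) ^ (e * k) →
    ∀ X : M, V.valuation (X : ℂ) ≤ 1 →
      V.valuation (∑ l ∈ Finset.range e, (((σ ^ l) X : M) : ℂ)) ≤ V.valuation (π : ℂ) ^ (e * k)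

/-- (BPW) the powers of `b`, where `b c̄ ≡ c` modulo `m = lvX 3 f n = f 3^(n+1)`, `c = 1 + T`, `c̄ = 1 - T`, `T = 3 f δ`, `δ = dD A B`.

Uses Sf_IDL. PROOF. `c c̄ = 1 - T²`, so `c`, `c̄` are prime to `3 f`, to `m`; `c' c̄ ≡ 1` modulo `m`. (1) `b ≡ c c'` is prime to `m`. (2) `b - 1 ≡ (c - c̄) c' = 2 T c' = 3 f y₁`, `y₁ = 2 δ c' ∈ P`, `y₁ ∉ (3) = P P` (`δ ∉ (3)`: its coordinate `im` is 2; multiply by the inverse of `2 c'` modulo `3`). If `b^k ≡ 1 + 3^i f y`, `i ≥ 1`, `y ∈ P ∖ (3)`, then `b^(3k) ≡ 1 + 3^(i+1) f y (1 + 3^i f y + 3^(2i-1) f² y²)`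
and the last factor is `≡ 1` modulo `P`, so the product with `y` is in `P ∖ (3)` (IDL (2), `P` prime: if `y t ∈ P P`, `t ∉ P`, then `y ∈ P P`; with `t t' = 1 + p`, `p ∈ P`: `y = y t t' - y p ∈ P P`). And `(1 + 3^i f y)^l ≡ 1 + 3^i f y (l + p)`, `p ∈ P`, for `3 ∤ l`. Induction on `j`. (3) `b^(3^n) ≡ 1`: the same with `i = n` (`n = 0`: `b - 1 ∈ (3 f)`). (4) `nm b · nm c̄ ≡ nm c`
modulo `3^(n+1)` (norms of congruent elements are congruent), `nm c = nm c̄` is prime to 3. (5) `b ≡ 1` modulo `3 f P`: (2) for `l = 1`, or `b - 1 ≡ 3 f y₁`. -/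
def Sf_BPW : Prop :=
  ∀ (A B : ℤ) (P : Ideal (OO A B)) (V : ValuationSubring ℂ), CtxR A B P V →
    ∀ (f n : ℕ) (b : OO A B), f ≠ 0 → IsB f n b →
      IsCoprime b ((lvX 3 f n : ℕ) : OO A B) ∧
      (∀ l j : ℕ, 3 ^ j ∣ l → ¬ 3 ^ (j + 1) ∣ l → j + 1 ≤ n → ∃ y ∈ P, y ∉ P * P ∧
        b ^ l - 1 - ((3 ^ (j + 1) * f : ℕ) : OO A B) * y ∈ idl (A := A) (B := B) (lvX 3 f n)) ∧
      b ^ (3 ^ n) - 1 ∈ idl (A := A) (B := B) (lvX 3 f n) ∧
      (3 ^ (n + 1) : ℤ) ∣ nm b - 1 ∧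
      (1 ≤ n → ∀ l : ℕ, b ^ l - 1 ∈ lvR P f 1)

/-- (DIF) the differences `x(b^l z₁) - x(z₁)`.

Uses Sf_GRN, Sf_TNC, Sf_TPR, Sf_IDL, Sf_BPW. PROOF. `0 < l < 3^(n-1)`, `3^j` the exact power of `3` in `l`, `j ≤ n - 2`. `b^l - 1 ≡ 3^(j+1) f y` modulo `m`, `y ∈ P ∖ (3)` (BPW), `P₂ = emb (b^l - 1) z₁ ≡ emb (3^(j+1) f y) z₁` modulo `N` (`m ∈ lvR P f n`). `Tor (P^(i+1)) N P₂`, not `Tor (P^i) N P₂` for `i + 1 = 2 (n - 1 - j)`: `x 3^(j+1) f y ∈ 3^n f P` iff `x y ∈ 3^(n-1-j) P`,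
true for `x ∈ P^(2(n-1-j)) = (3^(n-1-j))`, false for some `x ∈ P^(2(n-1-j)-1) = 3^(n-2-j) P`: take `x = 3^(n-2-j) δ`, `δ = dD`: `δ y ∈ 3 P` would give `D y ∈ 3 δ P`, `y ∈ δ P + ..`, so `y ∈ P P`, contradiction. So `v(s P₂)^(2·3^i) = v 3` (TPR), `v(t P₂)² = v(s P₂)`, and with `θ^(4·9^n) = v 3`: `v(t P₂)^(4·3^i) = θ^(4·9^n)`, `v(t P₂) = θ^(3^(2n-i)) = θ^(27·9^j)` (`i = 2n - 3 - 2j`).
`z₁, 2 z₁ ∉ InK` (TNC: `3^(n+1) z₁` has order `f`, `f ≥ 3`; `inK_nat`), so `v(x(z₁ + P₂) - x(z₁)) = v(t P₂)` (`Pool.Agent.MUXV.tq_YUN` as in `E_SIG.lean`). Product: `Σ_(0 < l < 3^M) 9^(v_3 l) = (9^M - 3^M)/3` (induction on `M`: `l = 3 l' + r`), `M = n - 1`: `27 (9^M - 3^M)/3 = 9 · 3^M (3^M - 1)`. -/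
def Sf_DIF : Prop :=
  ∀ (A B : ℤ) (P : Ideal (OO A B)) (V : ValuationSubring ℂ), CtxR A B P V → TorX A B →
    GalE A B → ∀ (N : PeriodPair) (u e lam : ℂ), NL A B N → GoodR V N u e lam →
    ∀ n f : ℕ, 1 ≤ n → 3 ≤ f → ¬ 3 ∣ f → ∀ z₁ : ℂ, Ex (lvR P f n) N z₁ →
    ∀ b : OO A B, IsB f n b → ∀ t : ℂ, V.valuation t ^ (4 * 9 ^ n) = V.valuation (3 : ℂ) →
      (∀ l, 0 < l → l < 3 ^ (n - 1) → xu N u e (emb (b ^ l) * z₁) ≠ xu N u e z₁) ∧
      V.valuation (∏ l ∈ Finset.Ico 1 (3 ^ (n - 1)),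
        (xu N u e z₁ - xu N u e (emb (b ^ l) * z₁))) =
        V.valuation t ^ (3 ^ (n - 1) * (9 * (3 ^ (n - 1) - 1)))

/-- (XCJ) the logarithmic derivative in the ray class field.

Uses Sf_COE, Sf_LEG, Sf_RP1, Sf_IDL. PROOF. `X = y(z) y(P₀) G`, `G = Σ_(q ∈ H') 1/(x z - x q)`: `dlX N a z = Σ ℘'(z)/(℘(z) - ℘(q)) = 2 u y(z) G` (`b_TDL`), so `dlX N a z/u = 2 X/y(P₀)`. `4 y(z) y(P₀) = (x z - x P₀)² (x(z - P₀) - x(z + P₀))` (`b_ADD` for `z ± P₀`, or `rcht`). All the points `z, P₀, z ± P₀, q` are not in `N` and in `E[m]`, `m = lvR P (f a) n` (`Tor`; `P₀ = k z₁`, `z = c z₁`),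
so `xn` of them is in `RF m`, and `xu = (xn + 1/12 - e)/u²`, `e, u² ∈ RF (2)` (RP1), `2 ∣ f`. `σ` with `ActE (em σ) m c`, `c - 1 ∈ (f a)`: `σ(xn w) = xn (emb c w)`, trivial on `RF (idl (f a)) ∋ e, u², xn q, xn P₀` (`te_FAC`), `emb c (z ± P₀) ≡ emb c z ± P₀`. -/
def Sf_XCJ : Prop :=
  ∀ (A B : ℤ) (P : Ideal (OO A B)) (V : ValuationSubring ℂ), CtxR A B P V → GalE A B →
    ∀ (N : PeriodPair) (u e lam : ℂ), NL A B N → GoodR V N u e lam →
    ∀ n f a : ℕ, 3 ≤ f → 2 ∣ f → ¬ 3 ∣ f → 3 ≤ a → ¬ 3 ∣ a → a.Coprime f → ∀ H' : Finset ℂ,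
    IsHalf N (a : ℂ) H' → ∀ (z P₀ : ℂ), Tor (lvR P f n) N z → (f : ℂ) * P₀ ∈ N.lattice →
    P₀ ∉ N.lattice → 2 * P₀ ∉ N.lattice → (a : ℂ) * z ∉ N.lattice → z - P₀ ∉ N.lattice →
    z + P₀ ∉ N.lattice →
    ∃ (X : ℂ) (_ : X ∈ RF (lvR P (f * a) n)) (_ : xu N u e z - xu N u e P₀ ∈ RF (lvR P (f * a) n)),
      yu N u P₀ ≠ 0 ∧ X = yu N u z * yu N u P₀ * ∑ q ∈ H', (xu N u e z - xu N u e q)⁻¹ ∧
      dlX N a z / u = 2 * X / yu N u P₀ ∧
      ∀ (σ : RF (lvR P (f * a) n) ≃ₐ[kk A B] RF (lvR P (f * a) n)) (c : OO A B),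
        ActE (_root_.Pool.Agent.MU3A.em σ) (lvR P (f * a) n) c → c - 1 ∈ idl (A := A) (B := B) (f * a) →
        ∀ (hX : X ∈ RF (lvR P (f * a) n))
          (hπ : xu N u e z - xu N u e P₀ ∈ RF (lvR P (f * a) n)),
          (σ ⟨X, hX⟩ : ℂ) = yu N u (emb c * z) * yu N u P₀ *
            ∑ q ∈ H', (xu N u e (emb c * z) - xu N u e q)⁻¹ ∧
          (σ ⟨xu N u e z - xu N u e P₀, hπ⟩ : ℂ) = xu N u e (emb c * z) - xu N u e P₀

/-- (PAR) the sums over the small group, on `N`.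

Uses Sf_COE, Sf_GRN, Sf_NE1, Sf_UNI, Sf_TRV, Sf_BPW, Sf_DIF, Sf_XCJ, Sf_IDL. PROOF. `M = RF (lvR P (f a) n)`, `M₀ = RF (idl (f a))`, `e₀ = 3^(n-1)`. `b' ≡ b` modulo `m`, `b' ≡ 1` modulo `a` (`a` prime to `m`; `b' = b + m t`): `IsB f n b'`, `b' - 1 ∈ (f a)` (BPW: `b - 1 ∈ (f)`, `(f)`, `(a)` coprime), `b'` prime to `lvR P (f a) n`; `emb (b'^l) z₁ ≡ emb (b^l) z₁`. `σ` with `ActE (em σ) (lvR P (f a) n) b'` (`GalE.sur`).
(UNI): `P₀`, `π = x(z₁) - x(P₀)`. (XCJ) for all `z = emb (b'^l) z₁` (`Tor`; not in `N` and so on because `b'` is prime to the order and `≡ 1` modulo `f`): `σ^l π = x(emb (b'^l) z₁) - x(P₀)`, `σ^l X = X_l` (induction on `l`). `σ^(e₀) π = π`: `b'^(e₀) - 1 ∈ lvR P f n` (BPW with `j = n - 1`). `v(σ^l π) = v(π)`: the same computation for `z₁' = emb (b'^l) z₁` (UNI: `v(π)^(2·9^n) = v(dD)` for both; `P₀` is the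
same point modulo `N`: `P₀ = k z₁`, `k` divisible by `3^(n+1)`, `b'^l k z₁ ≡ k z₁`; or from `near`: `v(x(z₁') - x(z₁)) < v(π)`), `v(X) ≤ 1` (`x z₁ - x q` units, `MUXV.v_X_sub`, `int_Y`), `v(y P₀) = 1`. (DIF) with `t = π` (`v(π)^(4·9^n) = v(dD)² = v 3`): the product of the differences has valuation `v(π)^(e₀ k)`, `k = 9 (e₀ - 1)`. (TRV): `v(Σ_l σ^l X) ≤ v(π)^(9 e₀ (e₀ - 1))`; raise to the power
`4·9^n`: `v(Σ)^(4·9^n) ≤ v(3)^(9 e₀ (e₀-1))`, `9 e₀ (e₀ - 1) = 3^n (3^n - 3)`, `4·9^n = 3^n · 4·3^n`; take the root of order `3^n`. -/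
def Sf_PAR : Prop :=
  ∀ (A B : ℤ) (P : Ideal (OO A B)) (V : ValuationSubring ℂ), CtxR A B P V → TorX A B →
    GalE A B → ∀ (N : PeriodPair) (u e lam : ℂ), NL A B N → GoodR V N u e lam →
    ∀ n f a : ℕ, 1 ≤ n → 3 ≤ f → 2 ∣ f → ¬ 3 ∣ f → 3 ≤ a → ¬ 3 ∣ a → a.Coprime f →
    ∀ H' : Finset ℂ, IsHalf N (a : ℂ) H' → ∀ z₁ : ℂ, Ex (lvR P f n) N z₁ →
    ∀ b : OO A B, IsB f n b →
      V.valuation ((∑ l ∈ Finset.range (3 ^ (n - 1)), dlX N a (emb (b ^ l) * z₁)) / u) ^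
        (4 * 3 ^ n) ≤ V.valuation (3 : ℂ) ^ (3 ^ n - 3)

/-- (PAL) the sums over the small group, on `L_i`.

Uses Sf_PAR, Sf_PIS, Sf_DIS, Sf_EXO, Sf_UNT, Sf_MUL, Sf_BPW, Sf_IDL. PROOF. `m = lvX 3 f n = 3^(n+1) f`, `z = pt R m i x`. `l = l₀ + 3^(n-1) l₁`: `b^(3^(n-1) l₁) ≡ 1 + l₁ 3^n f y` modulo `m` (BPW with `j = n - 1`; `(3^n f y)² ∈ (m)`), `q = emb (3^n f y) z`: `Tor P L_i q`, `q ∉ L_i` (EXO). `pt R m i (x b^l) = emb (b^(l₀)) (z + l₁ q)` modulo `L_i` `≡ emb (b^(l₀)) z + l₁ q`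
(`b q ≡ q` as `b - 1 ∈ P`). (DIS): `Σ_(l₁ < 3) dl_L(..) = ν dl_N(ν emb (b^(l₀)) z)` (`a ν emb(b^(l₀)) z ∉ N`: exact order). (PAR) for `N`, `z₁ = ν z` (EXO), `H'` a half system (`b_HAL`). So `Σ_(l < 3^n) = ν Σ_(l₀) dl_N(emb (b^(l₀)) z₁)`, `μ_i Σ/u = (Σ_N/u_N) (ν u_N/u_(L_i)) (μ_i u_(L_i)/u)`, `v(ν u_N/u_(L_i))² = v 3` (PIS), `v(μ_i u_(L_i)/u) = 1`
(UNT with `μ = μ_i emb 1`, MUL). Exponents: `(v(3)^(1/2))^(4·3^n) = v(3)^(2·3^n)`. -/
def Sf_PAL : Prop :=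
  ∀ (A B : ℤ) (P : Ideal (OO A B)) (V : ValuationSubring ℂ), CtxR A B P V → TorX A B →
    GalE A B → ∀ (n f a : ℕ), 1 ≤ n → 3 ≤ f → 2 ∣ f → ¬ 3 ∣ f → 3 ≤ a → Odd a → ¬ 3 ∣ a →
    a.Coprime f →
    ∀ (ι : Type) (R : Reps A B (3 * f) ι) (u e lam : ℂ), GoodR V (R.L R.i0) u e lam →
    ∀ b : OO A B, IsB f n b → ∀ (i : ι) (x : OO A B), IsCoprime x ((lvX 3 f n : ℕ) : OO A B) →
      V.valuation (muX R i * (∑ l ∈ Finset.range (3 ^ n), dlX (R.L i) a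
        (pt R (lvX 3 f n) i (x * b ^ l))) / u) ^ (4 * 3 ^ n) ≤
        V.valuation (3 : ℂ) ^ (3 * 3 ^ n - 3)

/-! ## The result -/

/-- (ORB) a transversal of the orbits of a free cyclic action.

PROOF. `φ` maps `S` to `S`, `φ^[e] = id` on `S`, `φ^[l] x ≠ x` for `0 < l < e`. Strong induction on `|S|`: for `x ∈ S` the orbit `{φ^[l] x : l < e}` has `e` elements, remove it. Or: choose a representative of every orbit (`x ~ φ^[l] x`). -/
def Sf_ORB : Prop :=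
  ∀ (α : Type) (S : Finset α) (φ : α → α) (e : ℕ), 0 < e → (∀ x ∈ S, φ x ∈ S) →
    (∀ x ∈ S, φ^[e] x = x) → (∀ x ∈ S, ∀ l, 0 < l → l < e → φ^[l] x ≠ x) →
    ∃ T : Finset α, T ⊆ S ∧ (∀ F : α → ℂ, ∏ x ∈ S, F x = ∏ x ∈ T, ∏ l ∈ Finset.range e, F (φ^[l] x)) ∧
      ∀ F : α → ℂ, ∑ x ∈ S, F x = ∑ x ∈ T, ∑ l ∈ Finset.range e, F (φ^[l] x)

/-- (STB) the sets `XX` are stable under `b`.

Uses Si_HIT, Si_IAF (`StIX.lean`, `Pool/Agent/MUX/I_HIT.lean`, `I_IAF.lean`), Sf_BPW. PROOF. `m = lvX 3 f n ≥ 2`. Let `σ` (`FixK`, extending `τ`) with `Hits R m σ i x`: `IA σ (idl m) (sp x * cjI (b_i))` (HIT; `x` prime to `m`). `b` is prime to `m` (BPW): `ρ` with `IA ρ (idl m) (sp b)` (IAF, or `TorX.surj`). `ρ` is trivial on `RF (idl (3 f))` (`TorX.triv`, `b - 1 ∈ (3 f)`: BPW) and on the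
`3^(n+1)`-th roots of unity (`TorX.zeta`: `ρ z = z^(nI (sp b))`, `nI (sp b) = |nm b|`, `nm b > 0` and `nm b ≡ 1` modulo `3^(n+1)`), so on `D` (hypothesis). The composition (`ρ` first) extends `τ` and has the ideal `sp b * (sp x * cjI (b_i)) = sp (x b) * cjI (b_i)` (`TorX.comp`, IAF), so it hits `(i, x b)` (HIT), and the condition on `Quotient.out` of the class of `x b` follows as in
`Si_XXF` (`I_XXF.lean`). -/
def Sf_STB : Prop :=
  ∀ (A B : ℤ) (P : Ideal (OO A B)) (V : ValuationSubring ℂ), CtxR A B P V → TorX A B →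
    ∀ (n f : ℕ), 1 ≤ n → f ≠ 0 → ¬ 3 ∣ f → ∀ (ι : Type) (R : Reps A B (3 * f) ι)
    (D : IntermediateField ℚ ℂ) (h : kk A B ≤ D),
    (∀ σ : ℂ ≃+* ℂ, FixK A B σ → (∀ y ∈ RF (idl (A := A) (B := B) (3 * f)), σ y = y) →
      (∀ z : ℂ, z ^ 3 ^ (n + 1) = 1 → σ z = z) → ∀ y ∈ D, σ y = y) →
    letI := algC h
    ∀ (τ : D ≃ₐ[kk A B] D) (b : OO A B), IsB f n b →
      ∀ q ∈ XX R (lvX 3 f n) h τ,
        (q.1, q.2 * Ideal.Quotient.mk (idl (A := A) (B := B) (lvX 3 f n)) b) ∈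
          XX R (lvX 3 f n) h τ

/-- (RED) the final form, from CtxR.

Uses Sf_MAIN, Sf_PAL, Sf_INN, Sf_ORB, Sf_STB, Sf_BPW, Sf_EXO, Sf_IDL. PROOF. `m = lvX 3 f n = 3^(n+1) f`, `a = aX 3 f`. `b` with `IsB f n b` exists (`c̄ = 1 - 3 f δ` is prime to `m`). `S τ = XX R m h τ` as a finite set (`ι`, `O/m` finite), `φ(i, x) = (i, x b)`: (STB), `φ^[3^n] = id` and `φ^[l] q ≠ q` for `0 < l < 3^n` (BPW (2): `b^l - 1 ∉ (m)`, as `3^(j+1) f y ∈ (3^(n+1) f)` would give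
`y ∈ (3) = P P`; `x` is invertible modulo `m`; (BPW (3))). (ORB): `T τ`. Put `κ = (ι × O/m) × ℕ`, `X τ = T τ ×ˢ range (3^(n-1))`, `i k = k.1.1`, `x k = out(k.1.2) b^(k.2)`, `q k = emb (3^n f y) (pt R m (i k) (x k))`, `y` from (BPW) for `l = 3^(n-1)`: `Tor P`, not in the lattice (EXO). `pt R m i (x b^(3^(n-1) l₁)) ≡ pt R m i x + l₁ q` (`(3^n f y)² ∈ (m)`). So
`cX τ = ∏_(k ∈ X τ) ∏_(l₁ < 3) Θ(pt + l₁ q)` (`Θ` is periodic, `b_TIN`), and (MAIN) gives `v(Σ₁/u)² ≤ v(3)³` for `Σ₁ = Σ_τ g_τ Σ_(k ∈ X(τ τ')) emb (x k) μ Σ_(l₁) dl(pt + l₁ q)`. With `dl` periodic: `TTX(τ) = Σ_((i, x) ∈ T τ) wP(x) μ_i Σ_(l < 3^n) dl(pt (x b^l))` (`wP` is periodic modulo `P`, `b ≡ 1` modulo `P`). `Σ₁ - Σ_τ g_τ TTX(τ τ') = Σ_τ g_τ Σ_(T)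
((emb x - wP x) μ_i Σ_(l < 3^n) dl(pt(x b^l)) + Σ_(l₀) emb x (emb (b^(l₀)) - 1) μ_i Σ_(l₁) dl)`. The last terms: `v(emb (b^(l₀)) - 1)² ≤ v(3)³` (BPW (5): `b^(l₀) - 1 ∈ lvR P f 1 = 3 f P`), `v(μ_i dl/u) ≤ 1` (INN). First terms: `v(emb x - wP x)² ≤ v 3` (`x - wP x ∈ P`, `vP`), (PAL): the power `12·3^n` of it is `≤ v(3)^(6·3^n) v(3)^(3 (3·3^n - 3)) = v(3)^(15·3^n - 9)`.
Altogether `v(..)^(12·3^n) v(3)^10 ≤ v(3)^(15·3^n)` (the terms with `v² ≤ v(3)³` have `v^(12·3^n) ≤ v(3)^(18·3^n)`). -/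
def Sf_RED : Prop :=
  ∀ (A B : ℤ) (P : Ideal (OO A B)) (V : ValuationSubring ℂ), CtxR A B P V → TorX A B →
    GalE A B → ∀ (n f : ℕ), 1 ≤ n → 3 ≤ f → 2 ∣ f → ¬ 3 ∣ f →
    ∀ (ι : Type) [Fintype ι] (R : Reps A B (3 * f) ι) (u e lam : ℂ),
    GoodR V (R.L R.i0) u e lam →
    ∀ (H : ι → Finset ℂ), (∀ i, IsHalf (R.L i) (aX 3 f : ℂ) (H i)) →
    ∀ (D : IntermediateField ℚ ℂ) (h : kk A B ≤ D), (∀ y ∈ D, y ∈ RF (lvR P f n)) →
    (∀ σ : ℂ ≃+* ℂ, FixK A B σ → (∀ y ∈ RF (idl (A := A) (B := B) (3 * f)), σ y = y) →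
      (∀ z : ℂ, z ^ 3 ^ (n + 1) = 1 → σ z = z) → ∀ y ∈ D, σ y = y) →
    letI := algC h
    (∀ τ : D ≃ₐ[kk A B] D, ∃ y : D, (y : ℂ) = cX R (lvX 3 f n) H h 1 ∧
      ((τ y : D) : ℂ) = cX R (lvX 3 f n) H h τ) →
    ∀ g : (D ≃ₐ[kk A B] D) → ℤ,
      (∃ y ∈ D, y ^ 3 = ∏ᶠ τ : D ≃ₐ[kk A B] D, cX R (lvX 3 f n) H h τ ^ g τ) →
      ∀ τ' : D ≃ₐ[kk A B] D,
        V.valuation ((∑ᶠ τ : D ≃ₐ[kk A B] D, (g τ : ℂ) *
          TTX R P (lvX 3 f n) (aX 3 f) h (τ * τ')) / u) ^ (12 * 3 ^ n) *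
          V.valuation (3 : ℂ) ^ 10 ≤ V.valuation (3 : ℂ) ^ (15 * 3 ^ n)

/-- (FIN) the final form.

Uses Sf_CTX, Sf_RED. PROOF. `CtxR` (CTX), `GalE` (`Pool.Agent.MUXE.te_GAL`, `te_RNG`). `2 * absD ∣ 3 f`: `2 ∣ f`, and `f ≥ 3` because `|D| ≥ 15` (`3 ∣ D`, `D ≠ -3`, `D` fundamental: `|D|/3 ≥ 5`). -/
def Sf_FIN : Prop := Sq_RFIN → Sq_EFIN

end

end Pool.Agent.NSER


end

section

/-!
# MUX-NS, block RN, module ALR: the multiplier `α = 1 + 2 w` in the ramified case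
-/

set_option autoImplicit false

open WeierstrassCurve Polynomial

namespace Pool.Agent.NSR

open _root_.MU3 _root_.Pool.Agent.MU3A _root_.Pool.Agent.MU3B _root_.Pool.Agent.RI _root_.Pool.Agent.MUX _root_.Pool.Agent.MUXU
open _root_.Pool.Agent.MUXV (GR InK tX)
open _root_.Pool.Agent.NS

noncomputable section

namespace ALRaux

variable {A B : ℤ} {V : ValuationSubring ℂ}

lemma v_int (V : ValuationSubring ℂ) (n : ℤ) : V.valuation (n : ℂ) ≤ 1 :=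
  (V.valuation_le_one_iff _).2 (intCast_mem V n)

lemma wC_mem (h : CQ A B) (V : ValuationSubring ℂ) : wC A B ∈ V := by
  rcases V.mem_or_inv_mem (wC A B) with h1 | h1
  · exact h1
  · have h0 : wC A B ≠ 0 := _root_.Pool.Agent.MUX.wC_ne_zero h
    have h2 : wC A B = (A : ℂ) * (wC A B)⁻¹ + (B : ℂ) := by
      have h3 := _root_.Pool.Agent.MUX.wC_sq h
      field_simp
      linear_combination h3
    rw [h2]
    exact add_mem (mul_mem (intCast_mem V A) h1) (intCast_mem V B)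

lemma v_emb (h : CQ A B) (V : ValuationSubring ℂ) (x : OO A B) : V.valuation (emb x) ≤ 1 := by
  refine (V.valuation_le_one_iff _).2 ?_
  unfold emb
  exact add_mem (intCast_mem V _) (mul_mem (intCast_mem V _) (wC_mem h V))

lemma v_int_unit (h3 : V.valuation (3 : ℂ) < 1) {n : ℤ} (hn : ¬ (3 : ℤ) ∣ n) :
    V.valuation (n : ℂ) = 1 := by
  refine le_antisymm (v_int V n) (not_lt.1 fun hlt => ?_)
  have h1 : IsCoprime (3 : ℤ) n := by
    rcases (Int.prime_three.coprime_iff_not_dvd).2 hn with ⟨a, b, hab⟩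
    exact ⟨a, b, hab⟩
  obtain ⟨a, b, hab⟩ := h1
  have h2 : (a : ℂ) * 3 + (b : ℂ) * (n : ℂ) = 1 := by exact_mod_cast hab
  have h4 : V.valuation ((a : ℂ) * 3) < 1 := by
    rw [map_mul]
    exact lt_of_le_of_lt (mul_le_of_le_one_left' (v_int V a)) h3
  have h5 : V.valuation ((b : ℂ) * (n : ℂ)) < 1 := by
    rw [map_mul]
    exact lt_of_le_of_lt (mul_le_of_le_one_left' (v_int V b)) hlt
  have h6 := Valuation.map_add_lt V.valuation h4 h5
  rw [h2, map_one] at h6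
  exact lt_irrefl _ h6

lemma emb_mul_star (h : CQ A B) (x : OO A B) : emb x * emb (star x) = ((nm x : ℤ) : ℂ) := by
  rw [← _root_.Pool.Agent.MUX.emb_mul h, mul_star, _root_.Pool.Agent.MUX.emb_intCast h]

lemma v_unit (h : CQ A B) (h3 : V.valuation (3 : ℂ) < 1) {x : OO A B} (hx : ¬ (3 : ℤ) ∣ nm x) :
    V.valuation (emb x) = 1 := by
  have h1 := congrArg V.valuation (emb_mul_star h x)
  rw [map_mul, v_int_unit h3 hx] at h1
  refine le_antisymm (v_emb h V x) (not_lt.1 fun hlt => ?_)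
  have h2 : V.valuation (emb x) * V.valuation (emb (star x)) < 1 :=
    lt_of_le_of_lt (mul_le_of_le_one_right' (v_emb h V (star x))) hlt
  rw [h1] at h2
  exact lt_irrefl _ h2

end ALRaux

open _root_.Pool.Agent.NSR.ALRaux in
theorem tr_ALR : Sr_ALR := by
  intro A B V P hQ hD hV hP
  have hv3 : V.valuation (3 : ℂ) < 1 := by
    have h1 := (hV _).2 hP
    rw [_root_.Pool.Agent.MUX.emb_natCast hQ] at h1
    have h2 := (ValuationSubring.mem_nonunits_iff V).1 h1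
    simpa using h2
  have hv2 : V.valuation (2 : ℂ) = 1 := by
    have := v_int_unit (V := V) hv3 (n := 2) (by norm_num)
    simpa using this
  have hw := _root_.Pool.Agent.MUX.wC_sq hQ
  have hal : al A B = 1 + 2 * wC A B := by
    unfold al alO emb
    push_cast
    ring
  have h0 : (1 : ℂ) - al A B ^ 2 = -(2 * 2) * (wC A B * (1 + wC A B)) := by
    rw [hal]
    ring
  have hmain : V.valuation (1 - al A B ^ 2) ^ 2 = V.valuation (3 : ℂ) := by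
    have h1 : V.valuation (1 - al A B ^ 2) = V.valuation (wC A B * (1 + wC A B)) := by
      rw [h0, map_mul, Valuation.map_neg, map_mul, hv2, one_mul, one_mul]
    rw [h1]
    rcases hQ.hB with hB | hB
    · subst hB
      have h3A : (3 : ℤ) ∣ A := by
        have h2 := hD
        omega
      obtain ⟨a, ha⟩ := h3A
      have h3a : ¬ (3 : ℤ) ∣ a := by
        rintro ⟨c, hc⟩
        have h2 := (hQ.fund0 rfl).1 3 ⟨c, by rw [ha, hc]; ring⟩
        exact absurd (Int.isUnit_iff.1 h2) (by norm_num)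
      have h4 : V.valuation (1 + wC A 0) = 1 := by
        have h5 : emb (⟨1, 1⟩ : OO A 0) = 1 + wC A 0 := by
          unfold emb
          push_cast
          ring
        rw [← h5]
        refine v_unit hQ hv3 ?_
        unfold nm
        simp only
        omega
      rw [map_mul, h4, mul_one, sq, ← map_mul, hw]
      have h6 : ((A : ℤ) : ℂ) + ((0 : ℤ) : ℂ) * wC A 0 = 3 * (a : ℂ) := by
        rw [ha]
        push_cast
        ring
      rw [h6, map_mul, v_int_unit hv3 h3a, mul_one]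
    · subst hB
      have h3A : (3 : ℤ) ∣ A + 1 := by
        have h2 := hD
        omega
      obtain ⟨a, ha⟩ := h3A
      have h3a : ¬ (3 : ℤ) ∣ a - 1 := by
        rintro ⟨c, hc⟩
        have h2 := hQ.fund1 rfl 3 ⟨4 * c + 1, by
          have h5 : A = 3 * a - 1 := by omega
          have h6 : a = 3 * c + 1 := by omega
          rw [h5, h6]
          ring⟩
        exact absurd (Int.isUnit_iff.1 h2) (by norm_num)
      have h4 : V.valuation (wC A 1) = 1 := by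
        rw [← MUX.emb_w]
        refine v_unit hQ hv3 ?_
        unfold nm
        simp only
        omega
      have h7 : V.valuation (emb (⟨a, 1⟩ : OO A 1)) = 1 := by
        refine v_unit hQ hv3 ?_
        have h5 : A = 3 * a - 1 := by omega
        have h8 : nm (⟨a, 1⟩ : OO A 1) = (a - 1) ^ 2 := by
          unfold nm
          simp only
          rw [h5]
          ring
        rw [h8]
        exact fun h9 => h3a (Int.prime_three.dvd_of_dvd_pow h9)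
      have h10 : (1 + wC A 1) * (1 + wC A 1) = 3 * emb (⟨a, 1⟩ : OO A 1) := by
        have h5 : ((A : ℤ) : ℂ) = 3 * (a : ℂ) - 1 := by
          have h6 : A = 3 * a - 1 := by omega
          rw [h6]
          push_cast
          ring
        unfold emb
        push_cast at hw ⊢
        linear_combination hw + h5
      rw [map_mul, h4, one_mul, sq, ← map_mul, h10, map_mul, h7, mul_one]
  have h30 : V.valuation (3 : ℂ) ≠ 0 := by
    rw [Ne, map_eq_zero]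
    norm_num
  have hva : V.valuation (3 : ℂ) < V.valuation (1 - al A B ^ 2) := by
    rw [← not_le]
    intro hle
    have h1 : V.valuation (3 : ℂ) ≤ V.valuation (3 : ℂ) * V.valuation (3 : ℂ) := by
      calc V.valuation (3 : ℂ) = V.valuation (1 - al A B ^ 2) * V.valuation (1 - al A B ^ 2) := by
            rw [← sq, hmain]
        _ ≤ V.valuation (3 : ℂ) * V.valuation (3 : ℂ) := mul_le_mul' hle hle
    have h2 : V.valuation (3 : ℂ) * V.valuation (3 : ℂ) < V.valuation (3 : ℂ) * 1 :=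
      (mul_lt_mul_iff_right₀ (zero_lt_iff.2 h30)).2 hv3
    rw [mul_one] at h2
    exact absurd h1 (not_le.2 h2)
  have hA1 : 1 < 1 + 2 * B - 4 * A := by
    have := hQ.neg
    rcases hQ.hB with hB | hB <;> subst hB <;> omega
  have hA3 : ¬ (3 : ℤ) ∣ 1 + 2 * B - 4 * A := by
    have h2 := hD
    rcases hQ.hB with hB | hB <;> subst hB <;> omega
  obtain ⟨N, hN⟩ : ∃ N : ℕ, (N : ℤ) = 1 + 2 * B - 4 * A := ⟨(1 + 2 * B - 4 * A).toNat, by omega⟩
  have hNC : (N : ℂ) = ((1 + 2 * B - 4 * A : ℤ) : ℂ) := by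
    rw [← hN]
    push_cast
    rfl
  refine ⟨⟨N, ⟨hQ, hv3, hv2, hva, ?_, ?_, by omega, ?_⟩⟩, hmain⟩
  · rw [hNC, hal]
    unfold alO' emb
    push_cast
    linear_combination (4 : ℂ) * hw
  · rw [← Int.odd_coe_nat, hN]
    exact ⟨B - 2 * A, by ring⟩
  · rw [hNC]
    exact v_int_unit hv3 hA3

end

end Pool.Agent.NSR


end

section

/-!
# MUX, block E, module GAL (helper44): from the main theorem of complex multiplication to `GalE`

The argument is that of `W_KER.lean` (helper65), with `RingE A B` in place of `CQ A B` and with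
ideals as moduli.
-/

set_option autoImplicit false

open WeierstrassCurve Polynomial NumberField IsDedekindDomain

namespace Pool.Agent.MUXE

open _root_.MU3 _root_.Pool.Agent.MU3A _root_.Pool.Agent.MU3B _root_.Pool.Agent.MUX _root_.Pool.Agent.MUXU _root_.Pool.Agent.RI

noncomputable section

namespace GalX

/-- automorphisms of `ℂ` trivial on `k` are `k`-linear -/
lemma fix {A B : ℤ} {σ : ℂ ≃+* ℂ} (hσ : FixK A B σ) : ∀ y ∈ kk A B, σ y = y := by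
  intro y hy
  induction hy using IntermediateField.adjoin_induction with
  | mem x hx => rw [Set.mem_singleton_iff] at hx; rw [hx]; exact hσ
  | algebraMap x => simp
  | add x y _ _ hx hy => rw [map_add, hx, hy]
  | inv x _ hx => rw [map_inv₀, hx]
  | mul x y _ _ hx hy => rw [map_mul, hx, hy]

lemma embm {A B : ℤ} (hR : RingE A B) (x y : OO A B) : emb (x * y) = emb x * emb y := by
  obtain ⟨φ, hφ⟩ := hR.hom
  rw [← hφ, ← hφ, ← hφ, map_mul]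

lemma emb1 {A B : ℤ} (hR : RingE A B) : emb (1 : OO A B) = 1 := by
  obtain ⟨φ, hφ⟩ := hR.hom
  rw [← hφ, map_one]

/-- lattices of normalised curves are stable under `O` -/
lemma stab {A B : ℤ} (hR : RingE A B) {b : Ideal (OO A B)} {L : PeriodPair} {om : ℂ}
    (hL : IsNL b L om) (x : OO A B) {z : ℂ} (hz : z ∈ L.lattice) : emb x * z ∈ L.lattice := by
  obtain ⟨y, hy, rfl⟩ := (hL.mem z).1 hz
  refine (hL.mem _).2 ⟨x * y, b.mul_mem_left x hy, ?_⟩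
  rw [embm hR]
  ring

lemma g2_ne {A B : ℤ} {b : Ideal (OO A B)} {L : PeriodPair} {om : ℂ} (hL : IsNL b L om) :
    L.g₂ ≠ 0 := by
  intro h0
  have h1 := hL.nrm
  rw [h0] at h1
  have h2 : L.g₃ = 0 := by
    have h3 : (18 : ℂ) * L.g₃ = 0 := by linear_combination h1
    rcases mul_eq_zero.1 h3 with h | h
    · norm_num at h
    · exact h
  exact (b_DSC L).1 (by rw [h0, h2]; ring)

/-- the core: an isogeny of degree one between normalised lattices -/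
lemma core {A B : ℤ} (hR : RingE A B) {b b' : Ideal (OO A B)} {L L' : PeriodPair}
    {om om' mu : ℂ} {c : OO A B} (hL : IsNL b L om) (hL' : IsNL b' L' om')
    (hq : IsQ (sp c) L L' mu) :
    kap L' = kap L ∧ (mu = emb c ∨ mu = -emb c) ∧ (∀ z, z ∈ L.lattice ↔ z ∈ L'.lattice) ∧
      ∀ z, L'.weierstrassP z = L.weierstrassP z := by
  obtain ⟨hmu, hq⟩ := hq
  have hq' : ∀ z : ℂ, mu * z ∈ L'.lattice ↔ emb c * z ∈ L.lattice := by
    intro z
    rw [hq z]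
    constructor
    · intro h
      exact h c (Ideal.mem_span_singleton_self c)
    · intro h x hx
      obtain ⟨y, rfl⟩ := Ideal.mem_span_singleton'.1 hx
      rw [embm hR, mul_assoc]
      exact stab hR hL y h
  have hc : emb c ≠ 0 := by
    intro h0
    have h1 := (hq' (L'.ω₁ / 2 / mu)).2 (by rw [h0, zero_mul]; exact L.lattice.zero_mem)
    rw [mul_div_cancel₀ _ hmu] at h1
    exact L'.ω₁_div_two_notMem_lattice h1
  set u : ℂ := mu / emb c with hu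
  have hu0 : u ≠ 0 := div_ne_zero hmu hc
  have hul : ∀ z : ℂ, z ∈ L.lattice ↔ u * z ∈ L'.lattice := by
    intro z
    have h1 := hq' (z / emb c)
    rw [mul_div_cancel₀ _ hc] at h1
    rw [← h1, hu]
    have h2 : mu * (z / emb c) = mu / emb c * z := by ring
    rw [h2]
  obtain ⟨-, -, h3, h4⟩ := ta_SCP L L' u hu0 hul
  have hg := g2_ne hL
  have hu2 : u ^ 2 = 1 := by
    have h5 := hL'.nrm
    rw [h3, h4] at h5
    have h6 := hL.nrm
    have h7 : L.g₂ * u ^ 2 = L.g₂ := by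
      have h8 : L.g₂ / u ^ 4 * u ^ 6 = -18 * (L.g₃ / u ^ 6) * u ^ 6 := by rw [h5]
      have h9 : L.g₂ / u ^ 4 * u ^ 6 = L.g₂ * u ^ 2 := by
        field_simp
      have h10 : -18 * (L.g₃ / u ^ 6) * u ^ 6 = -18 * L.g₃ := by
        field_simp
      rw [h9, h10, ← h6] at h8
      exact h8
    have h11 : L.g₂ * (u ^ 2 - 1) = 0 := by linear_combination h7
    rcases mul_eq_zero.1 h11 with h | h
    · exact absurd h hg
    · linear_combination h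
  have hu1 : u = 1 ∨ u = -1 := by
    have h5 : (u - 1) * (u + 1) = 0 := by linear_combination hu2
    rcases mul_eq_zero.1 h5 with h | h
    · left; linear_combination h
    · right; linear_combination h
  have hmuc : mu = u * emb c := by rw [hu, div_mul_cancel₀ _ hc]
  have hlat : ∀ z, z ∈ L.lattice ↔ z ∈ L'.lattice := by
    intro z
    rw [hul z]
    rcases hu1 with h | h
    · rw [h, one_mul]
    · rw [h, neg_one_mul, neg_mem_iff]
  obtain ⟨k1, -, k3, -⟩ := ta_SCP L L' 1 one_ne_zero (fun z => by rw [one_mul]; exact hlat z)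
  refine ⟨?_, ?_, hlat, fun z => ?_⟩
  · unfold kap
    rw [k3]
    ring
  · rcases hu1 with h | h
    · left; rw [hmuc, h, one_mul]
    · right; rw [hmuc, h, neg_one_mul]
  · have := k1 z
    rwa [one_mul, one_pow, div_one] at this

/-- from `ActI` for all lattices to `ActE` -/
lemma _root_.Pool.Agent.MUXE.GalX.mk {A B : ℤ} (hR : RingE A B) {m : Ideal (OO A B)} {c : OO A B}
    {F : IntermediateField (kk A B) ℂ} (σ : F →ₐ[kk A B] ℂ) (s : ℂ ≃+* ℂ)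
    (hσ : ∀ y : F, σ y = s y) (hc : IsCoprime (sp c) m)
    (h : ∀ (b : Ideal (OO A B)) (L : PeriodPair) (om : ℂ), IsNL b L om →
      ∃ (b' : Ideal (OO A B)) (L' : PeriodPair) (om' mu : ℂ), IsNL b' L' om' ∧
        ActI s m (sp c) L L' mu) : ActE σ m c := by
  refine ⟨hc, fun L hN => ?_⟩
  obtain ⟨b, om, hL⟩ := hN
  obtain ⟨b', L', om', mu, hL', hA⟩ := h b L om hL
  obtain ⟨h1, h2, h3, h4⟩ := core hR hL hL' hA.isq
  refine ⟨fun hk => ?_, fun z hz hz' => ?_⟩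
  · rw [hσ]
    show s (kap L) = kap L
    rw [← hA.kap, h1]
  · rcases hA.act z hz with ⟨h5, -⟩ | ⟨-, h6, h7, -⟩
    · exact absurd h5 hz'
    · rw [← h3] at h6
      have h8 : emb c * z ∉ L.lattice := by
        rcases h2 with h | h
        · rw [← h]; exact h6
        · intro h9
          apply h6
          rw [h, neg_mul]
          exact neg_mem h9
      refine ⟨h8, fun hx => ?_⟩
      rw [hσ]
      show s (xn L z) = _
      rw [h7]
      unfold xn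
      rw [h4]
      rcases h2 with h | h
      · rw [h]
      · rw [h, neg_mul, L.weierstrassP_neg]

/-- an embedding of `RF m` extends to an automorphism of `ℂ` -/
lemma extd {A B : ℤ} (T : TorX A B) {m : Ideal (OO A B)} (hm : m ≠ ⊥)
    (σ : RF m →ₐ[kk A B] ℂ) : ∃ s : ℂ ≃+* ℂ, FixK A B s ∧ ∀ y : RF m, σ y = s y := by
  haveI := T.fin m hm
  haveI := T.gal m hm
  let e : RF m ≃ₐ[kk A B] RF m := Normal.algHomEquivAut (kk A B) ℂ (RF m) σ
  have he : ∀ y : RF m, σ y = ((e y : RF m) : ℂ) := by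
    intro y
    have h1 := (Normal.algHomEquivAut (kk A B) ℂ (RF m)).symm_apply_apply σ
    have h2 := congrArg (fun g : RF m →ₐ[kk A B] ℂ => g y) h1
    exact h2.symm
  let D : IntermediateField ℚ ℂ :=
    (RF m : IntermediateField (kk A B) ℂ).restrictScalars ℚ
  have hle : kk A B ≤ D := fun x hx =>
    (RF m : IntermediateField (kk A B) ℂ).algebraMap_mem ⟨x, hx⟩
  have hDy : ∀ y ∈ D, y ∈ (RF m : IntermediateField (kk A B) ℂ) := fun y hy => hy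
  letI := algC hle
  let τ : D ≃ₐ[kk A B] D := AlgEquiv.ofRingEquiv (f := (e.toRingEquiv : D ≃+* D))
    (fun r => e.commutes r)
  obtain ⟨s, hs, hs1⟩ := T.ext m hm D hle hDy τ
  refine ⟨s, hs, fun y => ?_⟩
  rw [he y]
  exact (hs1 y).symm

end GalX

open _root_.Pool.Agent.MUXE.GalX in
theorem te_GAL : Sxe_GAL := by
  intro A B hR T
  refine ⟨T.fin, T.gal, ?_, ?_, ?_⟩
  · intro m hm σ L hN h
    obtain ⟨s, hs, hs1⟩ := extd T hm σ
    obtain ⟨a, -, ha⟩ := T.act m hm s hs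
    obtain ⟨b, om, hL⟩ := hN
    obtain ⟨b', L', om', mu, hL', hA⟩ := ha b L om hL
    exact ⟨L', ⟨b', om', hL'⟩, by rw [hs1]; exact hA.kap.symm⟩
  · intro m m' hm hmm σ hσ
    have hm' : m' ≠ ⊥ := by
      intro h0
      exact hm (le_bot_iff.1 (h0 ▸ hmm))
    by_cases hex : ∃ (b : Ideal (OO A B)) (L : PeriodPair) (om : ℂ), IsNL b L om
    · obtain ⟨b₀, L₀, om₀, hL₀⟩ := hex
      obtain ⟨s, hs, hs1⟩ := extd T hm σ
      obtain ⟨a, ha, ha'⟩ := T.act m hm s hs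
      obtain ⟨b', L', om', mu, hL', hA⟩ := ha' b₀ L₀ om₀ hL₀
      have hA' : ActI s m' a L₀ L' mu := by
        refine ⟨hA.kap, ?_, hA.isq, fun z hz => hA.act z fun x hx => hz x (hmm hx)⟩
        rw [Ideal.isCoprime_iff_sup_eq] at ha ⊢
        rw [eq_top_iff, ← ha]
        exact sup_le_sup_left hmm a
      have htr : ∀ y ∈ (RF m' : IntermediateField (kk A B) ℂ), s y = y := by
        intro y hy
        have hy' := T.mono m' m hmm hy
        rw [← hs1 ⟨y, hy'⟩]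
        exact hσ y hy' hy
      obtain ⟨c, hc1, hc⟩ := (T.triv m' a s b₀ L₀ L' om₀ mu hm' hs hL₀ hA' hL'.nrm).1 htr
      subst hc
      exact ⟨c, hc1, _root_.Pool.Agent.MUXE.GalX.mk hR σ s hs1 ha ha'⟩
    · push Not at hex
      refine ⟨1, by rw [sub_self]; exact m'.zero_mem, ?_, fun L hN => ?_⟩
      · rw [Ideal.isCoprime_iff_sup_eq]
        have h1 : (sp (1 : OO A B)) = ⊤ := Ideal.span_singleton_one
        rw [h1, top_sup_eq]
      · obtain ⟨b, om, hL⟩ := hN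
        exact absurd hL (hex b L om)
  · intro m hm α hα
    by_cases hα0 : α = 0
    · subst hα0
      have hmt : m = ⊤ := by
        have h0 : (sp (0 : OO A B)) = ⊥ := Ideal.span_singleton_eq_bot.2 rfl
        rw [h0, Ideal.isCoprime_iff_sup_eq, bot_sup_eq] at hα
        exact hα
      refine ⟨AlgEquiv.refl, hα, fun L hN => ⟨fun hk => rfl, fun z hz hz' => ?_⟩⟩
      exfalso
      apply hz'
      obtain ⟨φ, hφ⟩ := hR.hom
      have h1 := hz 1 (by rw [hmt]; trivial)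
      rwa [← hφ, map_one, one_mul] at h1
    obtain ⟨s, hs, hs1⟩ := T.surj m hm (sp α)
      (fun h => hα0 (Ideal.span_singleton_eq_bot.1 h)) hα
    haveI := T.fin m hm
    haveI := T.gal m hm
    let s' : ℂ ≃ₐ[kk A B] ℂ := AlgEquiv.ofRingEquiv (f := s) (fun r => fix hs _ r.2)
    refine ⟨s'.restrictNormal (RF m), _root_.Pool.Agent.MUXE.GalX.mk hR _ s ?_ hα hs1⟩
    intro y
    exact AlgEquiv.restrictNormal_commutes s' (RF m) y

end

end Pool.Agent.MUXE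


end

section

/-!
# ME, block E, module GAL (helper86): from the main theorem of complex multiplication to `GalEE`
-/

set_option autoImplicit false

open WeierstrassCurve Polynomial NumberField IsDedekindDomain

namespace Pool.Agent.MEE

open _root_.MU3 _root_.Pool.Agent.MU3A _root_.Pool.Agent.MU3B _root_.Pool.Agent.MUX _root_.Pool.Agent.MUXU _root_.Pool.Agent.RI
open _root_.Pool.Agent.ME hiding ActE
open _root_.Pool.Agent.MUXE (RingE)
open _root_.Pool.Agent.MUXE.GalX (fix embm emb1)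
open scoped QuadraticAlgebra

noncomputable section

namespace GalX

variable {A B : ℤ}

lemma nmm (x y : OO A B) : nm (x * y) = nm x * nm y := by
  simp only [nm, QuadraticAlgebra.re_mul, QuadraticAlgebra.im_mul]
  ring

lemma nmE (hC : CaseE A B) (z : OO A B) :
    nm z = z.re ^ 2 + z.im ^ 2 ∨ nm z = z.re ^ 2 + z.re * z.im + z.im ^ 2 := by
  have hA := hC.hA
  have h0 : nm z = z.re ^ 2 + B * z.re * z.im - A * z.im ^ 2 := rfl
  rcases hC.hB with h | h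
  · left
    linear_combination h0 + z.re * z.im * h - z.im ^ 2 * hA
  · right
    linear_combination h0 + z.re * z.im * h - z.im ^ 2 * hA

/-- units congruent to one modulo two -/
lemma unit2 (hC : CaseE A B) {z : OO A B} (hz : IsUnit z)
    (h2 : z - 1 ∈ idl (A := A) (B := B) 2) : z = 1 ∨ z = -1 := by
  obtain ⟨y, hy⟩ := hz.exists_right_inv
  have h3 : nm z * nm y = 1 := by
    rw [← nmm, hy]
    simp [nm]
  obtain ⟨t, ht⟩ := Ideal.mem_span_singleton'.1 h2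
  have him := congrArg QuadraticAlgebra.im ht
  have h2re : ((2 : ℕ) : OO A B).re = 2 := QuadraticAlgebra.re_natCast 2
  have h2im : ((2 : ℕ) : OO A B).im = 0 := QuadraticAlgebra.im_natCast 2
  simp only [QuadraticAlgebra.im_mul,
    QuadraticAlgebra.im_sub, QuadraticAlgebra.im_one, h2re, h2im]
    at him
  have h6 : z.im = 2 * t.im := by linarith
  have hnn : 0 ≤ nm z := by
    rcases nmE hC z with h | h
    · rw [h]
      nlinarith [sq_nonneg z.re, sq_nonneg z.im]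
    · rw [h]
      nlinarith [sq_nonneg (2 * z.re + z.im), sq_nonneg z.im]
  have h4 : nm z = 1 := by
    rcases Int.isUnit_iff.1 (IsUnit.of_mul_eq_one _ h3) with h | h
    · exact h
    · omega
  have him0 : z.im = 0 := by
    by_contra h5
    have h7 : t.im ≠ 0 := by
      intro h8
      rw [h8] at h6
      exact h5 (by simpa using h6)
    have h8 : 1 ≤ t.im ^ 2 := by
      have := sq_pos_of_ne_zero h7
      omega
    have h9 : 4 ≤ z.im ^ 2 := by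
      rw [h6]
      nlinarith
    rcases nmE hC z with h | h
    · rw [h] at h4
      nlinarith [sq_nonneg z.re]
    · rw [h] at h4
      nlinarith [sq_nonneg (2 * z.re + z.im)]
  have h5 : z.re ^ 2 = 1 := by
    rcases nmE hC z with h | h
    · rw [h, him0] at h4
      linarith
    · rw [h, him0] at h4
      linarith
  rcases (sq_eq_one_iff.1 h5) with h | h
  · left
    ext
    · simpa using h
    · simpa using him0
  · right
    ext
    · simpa using h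
    · simpa using him0

/-- two generators congruent to one modulo two -/
lemma gens (hC : CaseE A B) (hR : RingE A B) {c c' : OO A B} (h : sp c = sp c')
    (hc : c - 1 ∈ idl (A := A) (B := B) 2) (hc' : c' - 1 ∈ idl (A := A) (B := B) 2) :
    c' = c ∨ c' = -c := by
  haveI := hR.ded
  obtain ⟨u, hu⟩ := (Ideal.span_singleton_eq_span_singleton.1 h)
  have h1 : (u : OO A B) - 1 ∈ idl (A := A) (B := B) 2 := by
    have h2 : (u : OO A B) - 1 = (c' - 1) - (c - 1) * u := by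
      rw [← hu]
      ring
    rw [h2]
    exact sub_mem hc' (Ideal.mul_mem_right _ _ hc)
  rcases unit2 hC u.isUnit h1 with h2 | h2
  · left
    rw [← hu, h2, mul_one]
  · right
    rw [← hu, h2]
    ring

/-- lattices of normalised curves are stable under `O` -/
lemma stab (hR : RingE A B) {b : Ideal (OO A B)} {L : PeriodPair} {om : ℂ}
    (hL : IsNE b L om) (x : OO A B) {z : ℂ} (hz : z ∈ L.lattice) : emb x * z ∈ L.lattice := by
  obtain ⟨y, hy, rfl⟩ := (hL.mem z).1 hz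
  refine (hL.mem _).2 ⟨x * y, b.mul_mem_left x hy, ?_⟩
  rw [embm hR]
  ring

/-- the core: an isogeny of degree one between normalised lattices -/
lemma core (hR : RingE A B) {b : Ideal (OO A B)} {L L' : PeriodPair}
    {om mu : ℂ} {c : OO A B} (hL : IsNE b L om)
    (hq : IsQ (sp c) L L' mu) (hmc : mu = emb c ∨ mu = -emb c) :
    kapE L' = kapE L ∧ (∀ z, z ∈ L.lattice ↔ z ∈ L'.lattice) ∧
      ∀ z, L'.weierstrassP z = L.weierstrassP z := by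
  obtain ⟨hmu, hq⟩ := hq
  have hq' : ∀ z : ℂ, mu * z ∈ L'.lattice ↔ emb c * z ∈ L.lattice := by
    intro z
    rw [hq z]
    constructor
    · intro h
      exact h c (Ideal.mem_span_singleton_self c)
    · intro h x hx
      obtain ⟨y, rfl⟩ := Ideal.mem_span_singleton'.1 hx
      rw [embm hR, mul_assoc]
      exact stab hR hL y h
  have hc : emb c ≠ 0 := by
    rcases hmc with h | h
    · rw [← h]
      exact hmu
    · intro h0
      rw [h0, neg_zero] at h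
      exact hmu h
  have hlat : ∀ z, z ∈ L.lattice ↔ z ∈ L'.lattice := by
    intro z
    have h1 := hq' (z / emb c)
    rw [mul_div_cancel₀ _ hc] at h1
    rw [← h1]
    rcases hmc with h | h
    · rw [h, mul_div_cancel₀ _ hc]
    · rw [h, neg_mul, mul_div_cancel₀ _ hc, neg_mem_iff]
  obtain ⟨k1, -, k3, k4⟩ := ta_SCP L L' 1 one_ne_zero (fun z => by rw [one_mul]; exact hlat z)
  refine ⟨?_, hlat, fun z => ?_⟩
  · unfold kapE
    rw [k3, k4]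
    ring
  · have := k1 z
    rwa [one_mul, one_pow, div_one] at this

/-- from `ActE` for all lattices to `ActEE` -/
lemma _root_.Pool.Agent.MEE.GalX.mk (hC : CaseE A B) (hR : RingE A B) (T : TorXE A B) {m : Ideal (OO A B)} {c : OO A B}
    {F : IntermediateField (kk A B) ℂ} (σ : F →ₐ[kk A B] ℂ) (s : ℂ ≃+* ℂ) (hs : FixK A B s)
    (hσ : ∀ y : F, σ y = s y) (hm : m ≠ ⊥) (hm2 : m ≤ idl (A := A) (B := B) 2)
    (hc1 : c - 1 ∈ idl (A := A) (B := B) 2) (hc : IsCoprime (sp c) m)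
    (h : ∀ (b : Ideal (OO A B)) (L : PeriodPair) (om : ℂ), IsNE b L om →
      ∃ (b' : Ideal (OO A B)) (L' : PeriodPair) (om' mu : ℂ), IsNE b' L' om' ∧
        ME.ActE s m (sp c) L L' mu) : ActEE σ m c := by
  refine ⟨hc, fun L hN => ?_⟩
  obtain ⟨b, om, hL⟩ := hN
  obtain ⟨b', L', om', mu, hL', hA⟩ := h b L om hL
  obtain ⟨c', hmu, hcc, hc'⟩ := T.two m (sp c) s b L L' om mu hm hm2 hs hL hA hL'.nrm
  have h2 : mu = emb c ∨ mu = -emb c := by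
    rcases gens hC hR hcc hc1 hc' with h | h
    · left
      rw [hmu, h]
    · right
      rw [hmu, h]
      obtain ⟨φ, hφ⟩ := hR.hom
      rw [← hφ, map_neg, hφ]
  obtain ⟨h1, h3, h4⟩ := core hR hL hA.isq h2
  refine ⟨fun hk => ?_, fun z hz hz' => ?_⟩
  · rw [hσ]
    show s (kapE L) = kapE L
    rw [← hA.kapE, h1]
  · rcases hA.act z hz with ⟨h5, -⟩ | ⟨-, h6, h7, -⟩
    · exact absurd h5 hz'
    · rw [← h3] at h6
      have h8 : emb c * z ∉ L.lattice := by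
        rcases h2 with h | h
        · rw [← h]; exact h6
        · intro h9
          apply h6
          rw [h, neg_mul]
          exact neg_mem h9
      refine ⟨h8, fun hx => ?_⟩
      rw [hσ]
      show s (xnE L z) = _
      rw [h7]
      unfold xnE
      rw [h4]
      rcases h2 with h | h
      · rw [h]
      · rw [h, neg_mul, L.weierstrassP_neg]

/-- an embedding of `RFE m` extends to an automorphism of `ℂ` -/
lemma _root_.Pool.Agent.MEE.GalX.extd (T : TorXE A B) {m : Ideal (OO A B)} (hm : m ≠ ⊥)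
    (σ : RFE m →ₐ[kk A B] ℂ) : ∃ s : ℂ ≃+* ℂ, FixK A B s ∧ ∀ y : RFE m, σ y = s y := by
  haveI := T.fin m hm
  haveI := T.gal m hm
  let e : RFE m ≃ₐ[kk A B] RFE m := Normal.algHomEquivAut (kk A B) ℂ (RFE m) σ
  have he : ∀ y : RFE m, σ y = ((e y : RFE m) : ℂ) := by
    intro y
    have h1 := (Normal.algHomEquivAut (kk A B) ℂ (RFE m)).symm_apply_apply σ
    have h2 := congrArg (fun g : RFE m →ₐ[kk A B] ℂ => g y) h1
    exact h2.symm
  let D : IntermediateField ℚ ℂ :=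
    (RFE m : IntermediateField (kk A B) ℂ).restrictScalars ℚ
  have hle : kk A B ≤ D := fun x hx =>
    (RFE m : IntermediateField (kk A B) ℂ).algebraMap_mem ⟨x, hx⟩
  have hDy : ∀ y ∈ D, y ∈ (RFE m : IntermediateField (kk A B) ℂ) := fun y hy => hy
  letI := algC hle
  let τ : D ≃ₐ[kk A B] D := AlgEquiv.ofRingEquiv (f := (e.toRingEquiv : D ≃+* D))
    (fun r => e.commutes r)
  obtain ⟨s, hs, hs1⟩ := T.ext m hm D hle hDy τ
  refine ⟨s, hs, fun y => ?_⟩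
  rw [he y]
  exact (hs1 y).symm

end GalX

open _root_.Pool.Agent.MEE.GalX in
theorem tm_GAL : Sme_GAL := by
  intro A B hC hR T
  refine ⟨T.fin, T.gal, ?_, ?_⟩
  · intro m m' hm hmm hm2 σ hσ
    have hm' : m' ≠ ⊥ := by
      intro h0
      exact hm (le_bot_iff.1 (h0 ▸ hmm))
    by_cases hex : ∃ (b : Ideal (OO A B)) (L : PeriodPair) (om : ℂ), IsNE b L om
    · obtain ⟨b₀, L₀, om₀, hL₀⟩ := hex
      obtain ⟨s, hs, hs1⟩ := _root_.Pool.Agent.MEE.GalX.extd T hm σ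
      obtain ⟨a, ha, ha'⟩ := T.act m hm s hs
      obtain ⟨b', L', om', mu, hL', hA⟩ := ha' b₀ L₀ om₀ hL₀
      have hA' : ME.ActE s m' a L₀ L' mu := by
        refine ⟨hA.kapE, ?_, hA.isq, fun z hz => hA.act z fun x hx => hz x (hmm hx)⟩
        rw [Ideal.isCoprime_iff_sup_eq] at ha ⊢
        rw [eq_top_iff, ← ha]
        exact sup_le_sup_left hmm a
      have htr : ∀ y ∈ (RFE m' : IntermediateField (kk A B) ℂ), s y = y := by
        intro y hy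
        have hy' := T.mono m' m hmm hy
        rw [← hs1 ⟨y, hy'⟩]
        exact hσ y hy' hy
      obtain ⟨c, hc1, hc⟩ := (T.triv m' a s b₀ L₀ L' om₀ mu hm' (Or.inl hm2) hs hL₀ hA'
        hL'.nrm).1 htr
      subst hc
      exact ⟨c, hc1, _root_.Pool.Agent.MEE.GalX.mk hC hR T σ s hs hs1 hm (hmm.trans hm2) (hm2 hc1) ha ha'⟩
    · push Not at hex
      refine ⟨1, by rw [sub_self]; exact m'.zero_mem, ?_, fun L hN => ?_⟩
      · rw [Ideal.isCoprime_iff_sup_eq]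
        have h1 : (sp (1 : OO A B)) = ⊤ := Ideal.span_singleton_one
        rw [h1, top_sup_eq]
      · obtain ⟨b, om, hL⟩ := hN
        exact absurd hL (hex b L om)
  · intro m hm hm2 α hα hα1
    by_cases hα0 : α = 0
    · exfalso
      subst hα0
      have h0 : (sp (0 : OO A B)) = ⊥ := Ideal.span_singleton_eq_bot.2 rfl
      rw [h0, Ideal.isCoprime_iff_sup_eq, bot_sup_eq] at hα
      have h1 : (1 : OO A B) ∈ idl (A := A) (B := B) 2 := hm2 (hα ▸ Submodule.mem_top)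
      obtain ⟨t, ht⟩ := Ideal.mem_span_singleton'.1 h1
      have hre := congrArg QuadraticAlgebra.re ht
      have h2re : ((2 : ℕ) : OO A B).re = 2 := QuadraticAlgebra.re_natCast 2
      have h2im : ((2 : ℕ) : OO A B).im = 0 := QuadraticAlgebra.im_natCast 2
      simp only [QuadraticAlgebra.re_mul, QuadraticAlgebra.re_one, h2re, h2im] at hre
      omega
    obtain ⟨s, hs, hs1⟩ := T.surj m hm (sp α)
      (fun h => hα0 (Ideal.span_singleton_eq_bot.1 h)) hα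
    haveI := T.fin m hm
    haveI := T.gal m hm
    let s' : ℂ ≃ₐ[kk A B] ℂ := AlgEquiv.ofRingEquiv (f := s) (fun r => fix hs _ r.2)
    refine ⟨s'.restrictNormal (RFE m), _root_.Pool.Agent.MEE.GalX.mk hC hR T _ s hs ?_ hm hm2 hα1 hα hs1⟩
    intro y
    exact AlgEquiv.restrictNormal_commutes s' (RFE m) y

end

end Pool.Agent.MEE


end

section

/-!
# MUX, block E, module TRA: torsion points, formal facts
-/

set_option autoImplicit false

open WeierstrassCurve Polynomial NumberField IsDedekindDomain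

namespace Pool.Agent.MEE

open _root_.MU3 _root_.Pool.Agent.MU3A _root_.Pool.Agent.MU3B _root_.Pool.Agent.MUX _root_.Pool.Agent.MUXU _root_.Pool.Agent.RI
open _root_.Pool.Agent.ME hiding ActE
open _root_.Pool.Agent.MUXE (RingE)

noncomputable section

/-- TRA. -/
theorem tm_TRA : Sme_TRA := by
  intro A B hR L hL
  obtain ⟨φ, hφ⟩ := hR.hom
  obtain ⟨b, om, hb⟩ := hL
  have hmul : ∀ x y : OO A B, emb (x * y) = emb x * emb y := by
    intro x y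
    rw [← hφ, ← hφ, ← hφ, map_mul]
  have hadd : ∀ x y : OO A B, emb (x + y) = emb x + emb y := by
    intro x y
    rw [← hφ, ← hφ, ← hφ, map_add]
  have hone : emb (1 : OO A B) = 1 := by rw [← hφ, map_one]
  have hzero : emb (0 : OO A B) = 0 := by rw [← hφ, map_zero]
  have h1 : ∀ (x : OO A B) (z : ℂ), z ∈ L.lattice → emb x * z ∈ L.lattice := by
    intro x z hz
    obtain ⟨c, hc, rfl⟩ := (hb.mem z).1 hz
    exact (hb.mem _).2 ⟨x * c, b.mul_mem_left x hc, by rw [hmul]; ring⟩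
  refine ⟨h1, ?_, ?_, ?_, ?_, ?_, ?_, ?_, ?_⟩
  · intro m z w hz hw x hx
    rw [mul_add]
    exact add_mem (hz x hx) (hw x hx)
  · intro m x z hz y hy
    rw [mul_left_comm]
    exact h1 x _ (hz y hy)
  · intro m m' z hmm hz hz'
    obtain ⟨x, hx, y, hy, hxy⟩ := Ideal.isCoprime_iff_exists.1 hmm
    have h2 : z = emb x * z + emb y * z := by
      rw [← add_mul, ← hadd, hxy, hone, one_mul]
    rw [h2]
    exact add_mem (hz x hx) (hz' y hy)
  · intro x z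
    constructor
    · intro h
      exact h x (Ideal.mem_span_singleton_self x)
    · intro h y hy
      obtain ⟨c, rfl⟩ := Ideal.mem_span_singleton'.1 hy
      rw [hmul, mul_assoc]
      exact h1 c _ h
  · intro m m' x z hx hz y hy
    have h2 := hz (x * y) (Ideal.mul_mem_mul hx hy)
    rw [hmul] at h2
    rw [← mul_assoc, mul_comm (emb y)]
    exact h2
  · intro m m' z h y hy
    refine Submodule.mul_induction_on hy ?_ ?_
    · intro x hx y' hy'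
      have h2 := h x hx y' hy'
      rw [hmul, mul_comm (emb x), mul_assoc]
      exact h2
    · intro x y' hx hy'
      rw [hadd, add_mul]
      exact add_mem hx hy'
  · intro m z w hzw
    have key : ∀ x : OO A B, emb x * z ∈ L.lattice ↔ emb x * w ∈ L.lattice := by
      intro x
      have h2 := h1 x _ hzw
      rw [mul_sub] at h2
      constructor
      · intro h3
        have h4 := sub_mem h3 h2
        rwa [sub_sub_cancel] at h4
      · intro h3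
        have h4 := add_mem h2 h3
        rwa [sub_add_cancel] at h4
    exact ⟨fun h x hx => (key x).1 (h x hx), fun h x hx => (key x).2 (h x hx)⟩
  · intro z w hzw
    refine ⟨⟨fun h3 => ?_, fun h3 => ?_⟩, fun _ => ?_⟩
    · have h4 := sub_mem h3 hzw
      rwa [sub_sub_cancel] at h4
    · have h4 := add_mem hzw h3
      rwa [sub_add_cancel] at h4
    · have hP : L.weierstrassP z = L.weierstrassP w := by
        have h4 := L.weierstrassP_add_coe w ⟨z - w, hzw⟩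
        simpa using h4
      have hP' : L.derivWeierstrassP z = L.derivWeierstrassP w := by
        have h4 := L.derivWeierstrassP_add_coe w ⟨z - w, hzw⟩
        simpa using h4
      refine ⟨?_, ?_, ?_⟩
      · unfold xnE
        rw [hP]
      · unfold yy
        rw [hP']
      · unfold xnE
        rw [L.weierstrassP_neg]

end

end Pool.Agent.MEE


end

section

/-!
# MUX-NS, block ER, module ALG (helper86): the ring of the functions `A(s) + r B(s)`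
-/

set_option autoImplicit false

open Polynomial

namespace Pool.Agent.NSER

open _root_.MU3 _root_.Pool.Agent.MU3A _root_.Pool.Agent.MU3B _root_.Pool.Agent.MUX _root_.Pool.Agent.MUXU _root_.Pool.Agent.MUXE
open _root_.Pool.Agent.RI _root_.Pool.Agent.NS
open _root_.Pool.Agent.MUXV (GR InK tX)
open _root_.Pool.Agent.NSE (IntP Rep)

noncomputable section

namespace ALG

variable {V : ValuationSubring ℂ}

lemma lift {P : ℂ[X]} (h : IntP V P) : ∃ P' : V[X], P'.map V.subtype = P := by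
  have h1 : P ∈ Polynomial.lifts V.subtype := by
    rw [Polynomial.lifts_iff_coeff_lifts]
    intro n
    exact ⟨⟨P.coeff n, (V.valuation_le_one_iff _).mp (h n)⟩, rfl⟩
  exact (Polynomial.mem_lifts _).mp h1

lemma ofMap (P' : V[X]) : IntP V (P'.map V.subtype) := by
  intro i
  rw [coeff_map]
  exact V.valuation_le_one _

lemma add {P Q : ℂ[X]} (hP : IntP V P) (hQ : IntP V Q) : IntP V (P + Q) := by
  obtain ⟨P', rfl⟩ := lift hP
  obtain ⟨Q', rfl⟩ := lift hQ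
  rw [← Polynomial.map_add]
  exact ofMap _

lemma mul {P Q : ℂ[X]} (hP : IntP V P) (hQ : IntP V Q) : IntP V (P * Q) := by
  obtain ⟨P', rfl⟩ := lift hP
  obtain ⟨Q', rfl⟩ := lift hQ
  rw [← Polynomial.map_mul]
  exact ofMap _

lemma sub {P Q : ℂ[X]} (hP : IntP V P) (hQ : IntP V Q) : IntP V (P - Q) := by
  obtain ⟨P', rfl⟩ := lift hP
  obtain ⟨Q', rfl⟩ := lift hQ
  rw [← Polynomial.map_sub]
  exact ofMap _

lemma iC {c : ℂ} (hc : V.valuation c ≤ 1) : IntP V (C c) := by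
  intro i
  rw [coeff_C]
  split_ifs
  · exact hc
  · rw [map_zero]
    exact zero_le'

lemma iX : IntP V (X : ℂ[X]) := by
  intro i
  rw [coeff_X]
  split_ifs
  · rw [map_one]
  · rw [map_zero]
    exact zero_le'

lemma iprod {ι : Type*} (T : Finset ι) (F : ι → ℂ[X]) (h : ∀ i ∈ T, IntP V (F i)) :
    IntP V (∏ i ∈ T, F i) := by
  classical
  induction T using Finset.induction_on with
  | empty =>
    have h1 : IntP V (C (1 : ℂ)) := iC (by rw [map_one])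
    simpa using h1
  | insert a T ha ih =>
    rw [Finset.prod_insert ha]
    exact mul (h a (Finset.mem_insert_self _ _))
      (ih fun i hi => h i (Finset.mem_insert_of_mem hi))

lemma idivX {P : ℂ[X]} (hP : IntP V P) : IntP V P.divX := by
  intro i
  rw [coeff_divX]
  exact hP _

lemma ev {P : ℂ[X]} (hP : IntP V P) {x : ℂ} (hx : V.valuation x ≤ 1) :
    V.valuation (P.eval x) ≤ 1 := by
  obtain ⟨P', rfl⟩ := lift hP
  obtain ⟨x', rfl⟩ : ∃ x' : V, V.subtype x' = x :=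
    ⟨⟨x, (V.valuation_le_one_iff _).mp hx⟩, rfl⟩
  rw [Polynomial.eval_map_apply]
  exact V.valuation_le_one _

lemma ev0 (P : ℂ[X]) (x : ℂ) : P.eval x - P.coeff 0 = P.divX.eval x * x := by
  have h1 := congrArg (fun R : ℂ[X] => R.eval x) (Polynomial.divX_mul_X_add P)
  simp only [eval_add, eval_mul, eval_X, eval_C] at h1
  rw [← h1]
  ring

lemma evs {P : ℂ[X]} (hP : IntP V P) {x : ℂ} (hx : V.valuation x < 1) :
    V.valuation (P.eval x - P.coeff 0) < 1 := by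
  rw [ev0, map_mul]
  calc V.valuation (P.divX.eval x) * V.valuation x ≤ 1 * V.valuation x :=
        mul_le_mul_left (ev (idivX hP) hx.le) _
    _ < 1 := by rw [one_mul]; exact hx

lemma vanish {P : ℂ[X]} (hP : IntP V P) (t : Fin 4 → ℂ) (ht : ∀ i, V.valuation (t i) ≤ 1)
    (hinj : Function.Injective t) (h0 : ∀ i, P.eval (t i) = 0) :
    V.valuation (P.coeff 0) ≤ V.valuation (∏ i, t i) := by
  classical
  obtain ⟨P', rfl⟩ := lift hP
  by_cases hz : P' = 0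
  · subst hz
    simp
  have ht2 : ∀ i, t i ∈ V := fun i => (V.valuation_le_one_iff _).mp (ht i)
  let t' : Fin 4 → V := fun i => ⟨t i, ht2 i⟩
  have hi2 : Function.Injective t' := by
    intro i j hij
    exact hinj (congrArg Subtype.val hij)
  have h2 : ∀ i, P'.eval (t' i) = 0 := by
    intro i
    have h3 : (P'.map V.subtype).eval (V.subtype (t' i)) = 0 := h0 i
    rw [Polynomial.eval_map_apply] at h3
    exact (map_eq_zero_iff V.subtype V.subtype_injective).mp h3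
  have h4 : (Finset.univ.val.map t') ≤ P'.roots := by
    rw [Multiset.le_iff_subset (Finset.univ.nodup.map hi2)]
    intro x hx
    obtain ⟨i, -, rfl⟩ := Multiset.mem_map.mp hx
    exact (mem_roots hz).mpr (h2 i)
  obtain ⟨Q, hQ⟩ := (Multiset.prod_X_sub_C_dvd_iff_le_roots hz _).mpr h4
  have h5 : P'.coeff 0 = (∏ i, (0 - t' i)) * Q.eval 0 := by
    rw [Polynomial.coeff_zero_eq_eval_zero, hQ, eval_mul]
    congr 1
    rw [Multiset.map_map]
    have h6 : (Multiset.map ((fun a : V => (X - C a : V[X])) ∘ t') Finset.univ.val).prod =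
        ∏ i, (X - C (t' i)) := rfl
    rw [h6, eval_prod]
    simp
  rw [coeff_map, h5, map_mul, map_mul]
  have h7 : V.valuation (V.subtype (∏ i, (0 - t' i))) = V.valuation (∏ i, t i) := by
    rw [map_prod, map_prod, map_prod]
    refine Finset.prod_congr rfl fun i _ => ?_
    rw [map_sub, map_zero, zero_sub, Valuation.map_neg]
    rfl
  rw [h7]
  calc V.valuation (∏ i, t i) * V.valuation (V.subtype (Q.eval 0))
      ≤ V.valuation (∏ i, t i) * 1 := mul_le_mul_right (V.valuation_le_one _) _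
    _ = _ := mul_one _

/-! ### the ring without the numbers -/

/-- represented by some polynomials -/
def RE (V : ValuationSubring ℂ) (S : Set ℂ) (s r F : ℂ → ℂ) : Prop :=
  ∃ P Q : ℂ[X], IntP V P ∧ IntP V Q ∧ ∀ Y ∈ S, F Y = P.eval (s Y) + r Y * Q.eval (s Y)

variable {S : Set ℂ} {s r : ℂ → ℂ} {a2 a4 : ℂ}

lemma vle3 (hp : PtsR V S s r a2 a4) {x y : ℂ} (hx : V.valuation x ≤ V.valuation (3 : ℂ))
    (hy : V.valuation y ≤ V.valuation (3 : ℂ)) : V.valuation (x + y) ≤ V.valuation (3 : ℂ) :=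
  (V.valuation.map_add _ _).trans (max_le hx hy)

lemma unit (hp : PtsR V S s r a2 a4) {Y : ℂ} (hY : Y ∈ S) :
    V.valuation (1 + a2 * s Y + a4 * s Y ^ 2) = 1 := by
  have hs := (hp.vs Y hY).2
  have h1 : V.valuation (a2 * s Y + a4 * s Y ^ 2) < 1 := by
    refine (V.valuation.map_add _ _).trans_lt (max_lt ?_ ?_)
    · rw [map_mul]
      calc _ ≤ 1 * V.valuation (s Y) := mul_le_mul_left hp.i2 _
        _ < 1 := by rw [one_mul]; exact hs
    · rw [map_mul, map_pow]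
      calc _ ≤ 1 * V.valuation (s Y) ^ 2 := mul_le_mul_left hp.i4 _
        _ < 1 := by rw [one_mul]; exact pow_lt_one₀ zero_le' hs two_ne_zero
  have h2 : V.valuation (1 + (a2 * s Y + a4 * s Y ^ 2)) = 1 := by
    rw [Valuation.map_add_eq_of_lt_left, map_one]
    rw [map_one]
    exact h1
  rw [← h2]
  congr 1
  ring

lemma vr (hp : PtsR V S s r a2 a4) {Y : ℂ} (hY : Y ∈ S) : r Y ≠ 0 ∧ V.valuation (r Y) < 1 := by
  have hs := hp.vs Y hY
  have h1 : V.valuation (r Y) ^ 2 = V.valuation (s Y) := by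
    rw [← map_pow, hp.eq Y hY, map_mul, unit hp hY, mul_one]
  constructor
  · intro h2
    rw [h2, map_zero] at h1
    have h3 : V.valuation (s Y) = 0 := by rw [← h1]; simp
    exact hs.1 ((map_eq_zero V.valuation).mp h3)
  · by_contra h2
    rw [not_lt] at h2
    have h3 : 1 ≤ V.valuation (r Y) ^ 2 := one_le_pow₀ h2
    rw [h1] at h3
    exact absurd hs.2 (not_lt.mpr h3)

lemma REconst {c : ℂ} (hc : V.valuation c ≤ 1) : RE V S s r (fun _ => c) := by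
  refine ⟨C c, 0, iC hc, ?_, ?_⟩
  · intro i
    simp
  · intro Y _
    simp

lemma REadd {F G : ℂ → ℂ} (hF : RE V S s r F) (hG : RE V S s r G) :
    RE V S s r (fun Y => F Y + G Y) := by
  obtain ⟨P, Q, hP, hQ, h1⟩ := hF
  obtain ⟨P', Q', hP', hQ', h2⟩ := hG
  refine ⟨P + P', Q + Q', add hP hP', add hQ hQ', fun Y hY => ?_⟩
  simp only [h1 Y hY, h2 Y hY, eval_add]
  ring

/-- the polynomial `X (1 + a₂ X + a₄ X²)` -/
def fX (a2 a4 : ℂ) : ℂ[X] := X * (C 1 + C a2 * X + C a4 * (X * X))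

lemma ifX (h2 : V.valuation a2 ≤ 1) (h4 : V.valuation a4 ≤ 1) : IntP V (fX a2 a4) := by
  have h1 : V.valuation (1 : ℂ) ≤ 1 := by rw [map_one]
  exact mul iX (add (add (iC h1) (mul (iC h2) iX)) (mul (iC h4) (mul iX iX)))

lemma mulForm (hp : PtsR V S s r a2 a4) {F G : ℂ → ℂ} {P Q P' Q' : ℂ[X]}
    (h1 : ∀ Y ∈ S, F Y = P.eval (s Y) + r Y * Q.eval (s Y))
    (h2 : ∀ Y ∈ S, G Y = P'.eval (s Y) + r Y * Q'.eval (s Y)) :
    ∀ Y ∈ S, F Y * G Y = (P * P' + fX a2 a4 * (Q * Q')).eval (s Y) +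
      r Y * (P * Q' + P' * Q).eval (s Y) := by
  intro Y hY
  have h3 := hp.eq Y hY
  rw [h1 Y hY, h2 Y hY]
  simp only [fX, eval_add, eval_mul, eval_X, eval_C]
  linear_combination (Q.eval (s Y) * Q'.eval (s Y)) * h3

lemma REmul (hp : PtsR V S s r a2 a4) {F G : ℂ → ℂ} (hF : RE V S s r F) (hG : RE V S s r G) :
    RE V S s r (fun Y => F Y * G Y) := by
  obtain ⟨P, Q, hP, hQ, h1⟩ := hF
  obtain ⟨P', Q', hP', hQ', h2⟩ := hG
  exact ⟨_, _, add (mul hP hP') (mul (ifX hp.i2 hp.i4) (mul hQ hQ')),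
    add (mul hP hQ') (mul hP' hQ), mulForm hp h1 h2⟩

lemma REpow (hp : PtsR V S s r a2 a4) {F : ℂ → ℂ} (hF : RE V S s r F) (n : ℕ) :
    RE V S s r (fun Y => F Y ^ n) := by
  induction n with
  | zero =>
    simp only [pow_zero]
    exact REconst (by rw [map_one])
  | succ n ih =>
    simp only [pow_succ]
    exact REmul hp ih hF

lemma REpoly (hp : PtsR V S s r a2 a4) {F : ℂ → ℂ} (hF : RE V S s r F) (G : ℂ[X])
    (hG : IntP V G) : RE V S s r (fun Y => G.eval (F Y)) := by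
  have h1 : ∀ T : Finset ℕ, RE V S s r (fun Y => ∑ i ∈ T, G.coeff i * F Y ^ i) := by
    intro T
    classical
    induction T using Finset.induction_on with
    | empty =>
      simp only [Finset.sum_empty]
      exact REconst (by rw [map_zero]; exact zero_le')
    | insert a T ha ih =>
      simp only [Finset.sum_insert ha]
      exact REadd (REmul hp (REconst (hG a)) (REpow hp hF a)) ih
  have h2 := h1 (Finset.range (G.natDegree + 1))
  obtain ⟨P, Q, hP, hQ, h3⟩ := h2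
  refine ⟨P, Q, hP, hQ, fun Y hY => ?_⟩
  rw [← h3 Y hY]
  exact Polynomial.eval_eq_sum_range _

/-- the inverse -/
lemma REinv (hp : PtsR V S s r a2 a4) {F : ℂ → ℂ} (hF : RE V S s r F)
    (h1 : ∀ Y ∈ S, V.valuation (F Y) = 1) : RE V S s r (fun Y => (F Y)⁻¹) := by
  classical
  have hfin : (F '' S).Finite := by
    obtain ⟨P, Q, -, -, h2⟩ := hF
    have h3 : F '' S = (fun q : ℂ × ℂ => P.eval q.1 + q.2 * Q.eval q.1) ''
        ((fun Y => (s Y, r Y)) '' S) := by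
      rw [Set.image_image]
      exact Set.image_congr fun Y hY => h2 Y hY
    rw [h3]
    exact hp.fin.image _
  set T := hfin.toFinset with hT
  have hmem : ∀ w, w ∈ T ↔ ∃ Y ∈ S, F Y = w := by
    intro w
    rw [hT, Set.Finite.mem_toFinset]
    rfl
  set R : ℂ[X] := ∏ w ∈ T, (X - C w) with hR
  have iR : IntP V R := by
    refine iprod T _ fun w hw => ?_
    obtain ⟨Y, hY, rfl⟩ := (hmem w).mp hw
    exact sub iX (iC (h1 Y hY).le)
  have hc : V.valuation (R.coeff 0) = 1 := by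
    rw [Polynomial.coeff_zero_eq_eval_zero, hR, eval_prod, map_prod]
    refine Finset.prod_eq_one fun w hw => ?_
    obtain ⟨Y, hY, rfl⟩ := (hmem w).mp hw
    simp only [eval_sub, eval_X, eval_C, zero_sub, Valuation.map_neg]
    exact h1 Y hY
  have hc0 : R.coeff 0 ≠ 0 := by
    intro h2
    rw [h2, map_zero] at hc
    exact zero_ne_one hc
  have hz : ∀ Y ∈ S, R.eval (F Y) = 0 := by
    intro Y hY
    rw [hR, eval_prod]
    refine Finset.prod_eq_zero ((hmem _).mpr ⟨Y, hY, rfl⟩) ?_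
    simp
  have hci : V.valuation (-(R.coeff 0)⁻¹) ≤ 1 := by
    rw [Valuation.map_neg, map_inv₀, hc, inv_one]
  obtain ⟨P, Q, hP, hQ, h3⟩ := REpoly hp hF (C (-(R.coeff 0)⁻¹) * R.divX)
    (mul (iC hci) (idivX iR))
  refine ⟨P, Q, hP, hQ, fun Y hY => ?_⟩
  rw [← h3 Y hY]
  have h4 := ev0 R (F Y)
  rw [hz Y hY] at h4
  have hF0 : F Y ≠ 0 := by
    intro h5
    have h6 := h1 Y hY
    rw [h5, map_zero] at h6
    exact zero_ne_one h6
  simp only [eval_mul, eval_C]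
  field_simp
  linear_combination -h4

lemma toRE {F : ℂ → ℂ} {α β : ℂ} (h : _root_.Pool.Agent.NSE.Rep V S s r F α β) : RE V S s r F := by
  obtain ⟨P, Q, hP, hQ, h1, -⟩ := h
  exact ⟨P, Q, hP, hQ, h1⟩

lemma toRep {F : ℂ → ℂ} (h : RE V S s r F) : ∃ α β : ℂ, _root_.Pool.Agent.NSE.Rep V S s r F α β := by
  obtain ⟨P, Q, hP, hQ, h1⟩ := h
  refine ⟨P.coeff 0, Q.coeff 0, P, Q, hP, hQ, h1, ?_, ?_⟩ <;>
  · rw [sub_self, map_zero]
    exact zero_le'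

lemma ints (hp : PtsR V S s r a2 a4) {F : ℂ → ℂ} {α β : ℂ} (h : _root_.Pool.Agent.NSE.Rep V S s r F α β) :
    V.valuation α ≤ 1 ∧ V.valuation β ≤ 1 ∧ ∀ Y ∈ S, V.valuation (F Y - α) < 1 := by
  obtain ⟨P, Q, hP, hQ, h1, h2, h3⟩ := h
  have aux : ∀ x y : ℂ, V.valuation x ≤ 1 → V.valuation (x - y) ≤ V.valuation (3 : ℂ) →
      V.valuation y ≤ 1 := by
    intro x y hx hxy
    have h4 : y = x + -(x - y) := by ring
    rw [h4]
    refine (V.valuation.map_add _ _).trans (max_le hx ?_)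
    rw [Valuation.map_neg]
    exact hxy.trans hp.v3.le
  refine ⟨aux _ _ (hP 0) h2, aux _ _ (hQ 0) h3, fun Y hY => ?_⟩
  have h4 : F Y - α = (P.eval (s Y) - P.coeff 0) + ((P.coeff 0 - α) + r Y * Q.eval (s Y)) := by
    rw [h1 Y hY]
    ring
  have hs := (hp.vs Y hY).2
  rw [h4]
  refine (V.valuation.map_add _ _).trans_lt (max_lt (evs hP hs) ?_)
  refine (V.valuation.map_add _ _).trans_lt (max_lt (h2.trans_lt hp.v3) ?_)
  rw [map_mul]
  calc _ ≤ V.valuation (r Y) * 1 := mul_le_mul_right (ev hQ hs.le) _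
    _ < 1 := by rw [mul_one]; exact (vr hp hY).2

lemma uniq (hp : PtsR V S s r a2 a4) {F : ℂ → ℂ} {α β α' β' : ℂ} (h : _root_.Pool.Agent.NSE.Rep V S s r F α β)
    (h' : _root_.Pool.Agent.NSE.Rep V S s r F α' β') : V.valuation (α - α') ≤ V.valuation (3 : ℂ) ∧
      V.valuation (β - β') ≤ V.valuation (3 : ℂ) := by
  obtain ⟨P, Q, hP, hQ, h1, h2, h3⟩ := h
  obtain ⟨P', Q', hP', hQ', h1', h2', h3'⟩ := h'
  obtain ⟨y, hyS, hinj, hprod⟩ := hp.four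
  have key : ∀ Y ∈ S, (P - P').eval (s Y) = 0 ∧ (Q - Q').eval (s Y) = 0 := by
    intro Y hY
    obtain ⟨Y', hY', hs', hr'⟩ := hp.neg Y hY
    have e1 := h1 Y hY
    have e2 := h1' Y hY
    have e3 := h1 Y' hY'
    have e4 := h1' Y' hY'
    rw [hs', hr'] at e3 e4
    have hr0 := (vr hp hY).1
    constructor
    · rw [eval_sub]
      linear_combination (1 / 2) * (e2 - e1) + (1 / 2) * (e4 - e3)
    · rw [eval_sub]
      have h5 : r Y * (Q.eval (s Y) - Q'.eval (s Y)) = 0 := by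
        linear_combination (1 / 2) * (e2 - e1) - (1 / 2) * (e4 - e3)
      exact (mul_eq_zero.mp h5).resolve_left hr0
  have van : ∀ R : ℂ[X], IntP V R → (∀ Y ∈ S, R.eval (s Y) = 0) →
      V.valuation (R.coeff 0) ≤ V.valuation (3 : ℂ) := by
    intro R hR h0
    exact (vanish hR (fun i => s (y i)) (fun i => (hp.vs _ (hyS i)).2.le) hinj
      fun i => h0 _ (hyS i)).trans hprod
  have v1 := van _ (sub hP hP') fun Y hY => (key Y hY).1
  have v2 := van _ (sub hQ hQ') fun Y hY => (key Y hY).2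
  rw [coeff_sub] at v1 v2
  constructor
  · have e : α - α' = ((P.coeff 0 - P'.coeff 0) + -(P.coeff 0 - α)) + (P'.coeff 0 - α') := by
      ring
    rw [e]
    refine vle3 hp (vle3 hp v1 ?_) h2'
    rw [Valuation.map_neg]
    exact h2
  · have e : β - β' = ((Q.coeff 0 - Q'.coeff 0) + -(Q.coeff 0 - β)) + (Q'.coeff 0 - β') := by
      ring
    rw [e]
    refine vle3 hp (vle3 hp v2 ?_) h3'
    rw [Valuation.map_neg]
    exact h3

lemma vmul3 {x y : ℂ} (hx : V.valuation x ≤ 1) (hy : V.valuation y ≤ V.valuation (3 : ℂ)) :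
    V.valuation (x * y) ≤ V.valuation (3 : ℂ) := by
  rw [map_mul]
  calc _ ≤ 1 * V.valuation y := mul_le_mul_left hx _
    _ ≤ _ := by rw [one_mul]; exact hy

lemma mulR (hp : PtsR V S s r a2 a4) {F G : ℂ → ℂ} {α β α' β' : ℂ} (h : _root_.Pool.Agent.NSE.Rep V S s r F α β)
    (h' : _root_.Pool.Agent.NSE.Rep V S s r G α' β') :
    _root_.Pool.Agent.NSE.Rep V S s r (fun Y => F Y * G Y) (α * α') (α * β' + α' * β) := by
  have hi := ints hp h
  have hi' := ints hp h'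
  obtain ⟨P, Q, hP, hQ, h1, h2, h3⟩ := h
  obtain ⟨P', Q', hP', hQ', h1', h2', h3'⟩ := h'
  refine ⟨_, _, add (mul hP hP') (mul (ifX hp.i2 hp.i4) (mul hQ hQ')),
    add (mul hP hQ') (mul hP' hQ), mulForm hp h1 h1', ?_, ?_⟩
  · have e : (P * P' + fX a2 a4 * (Q * Q')).coeff 0 - α * α' =
        P'.coeff 0 * (P.coeff 0 - α) + α * (P'.coeff 0 - α') := by
      simp only [fX, coeff_add, mul_coeff_zero, coeff_X_zero]
      ring
    rw [e]
    exact vle3 hp (vmul3 (hP' 0) h2) (vmul3 hi.1 h2')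
  · have e : (P * Q' + P' * Q).coeff 0 - (α * β' + α' * β) =
        (Q'.coeff 0 * (P.coeff 0 - α) + α * (Q'.coeff 0 - β')) +
          (Q.coeff 0 * (P'.coeff 0 - α') + α' * (Q.coeff 0 - β)) := by
      simp only [coeff_add, mul_coeff_zero]
      ring
    rw [e]
    exact vle3 hp (vle3 hp (vmul3 (hQ' 0) h2) (vmul3 hi.1 h3'))
      (vle3 hp (vmul3 (hQ 0) h2') (vmul3 hi'.1 h3))

end ALG

theorem tf_ALG : Sf_ALG := by
  intro V S s r a2 a4 hp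
  have hz3 : V.valuation (0 : ℂ) ≤ V.valuation (3 : ℂ) := by
    rw [map_zero]
    exact zero_le'
  have i0 : IntP V (0 : ℂ[X]) := by
    intro i
    simp
  have i1 : IntP V (1 : ℂ[X]) := by
    have h1 : IntP V (C (1 : ℂ)) := ALG.iC (by rw [map_one])
    simpa using h1
  have hconst : ∀ c, V.valuation c ≤ 1 → _root_.Pool.Agent.NSE.Rep V S s r (fun _ => c) c 0 := by
    intro c hc
    refine ⟨C c, 0, ALG.iC hc, i0, fun Y _ => by simp, ?_, ?_⟩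
    · simpa using hz3
    · simpa using hz3
  have hweak : ∀ (F G : ℂ → ℂ) (α β α' β' : ℂ), _root_.Pool.Agent.NSE.Rep V S s r F α β → (∀ Y ∈ S, G Y = F Y) →
      V.valuation (α' - α) ≤ V.valuation (3 : ℂ) → V.valuation (β' - β) ≤ V.valuation (3 : ℂ) →
      _root_.Pool.Agent.NSE.Rep V S s r G α' β' := by
    intro F G α β α' β' h hG hα hβ
    obtain ⟨P, Q, hP, hQ, h1, h2, h3⟩ := h
    refine ⟨P, Q, hP, hQ, fun Y hY => by rw [hG Y hY, h1 Y hY], ?_, ?_⟩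
    · have e : P.coeff 0 - α' = (P.coeff 0 - α) + -(α' - α) := by ring
      rw [e]
      refine ALG.vle3 hp h2 ?_
      rw [Valuation.map_neg]
      exact hα
    · have e : Q.coeff 0 - β' = (Q.coeff 0 - β) + -(β' - β) := by ring
      rw [e]
      refine ALG.vle3 hp h3 ?_
      rw [Valuation.map_neg]
      exact hβ
  refine ⟨hconst, ?_, ?_, hweak, ?_, ?_, ?_, ?_, ?_⟩
  · refine ⟨X, 0, ALG.iX, i0, fun Y _ => by simp, ?_, ?_⟩
    · simpa using hz3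
    · simpa using hz3
  · refine ⟨0, 1, i0, i1, fun Y _ => by simp, ?_, ?_⟩
    · simpa using hz3
    · simpa using hz3
  · intro F G α β α' β' h h'
    obtain ⟨P, Q, hP, hQ, h1, h2, h3⟩ := h
    obtain ⟨P', Q', hP', hQ', h1', h2', h3'⟩ := h'
    refine ⟨P + P', Q + Q', ALG.add hP hP', ALG.add hQ hQ', fun Y hY => ?_, ?_, ?_⟩
    · simp only [h1 Y hY, h1' Y hY, eval_add]
      ring
    · have e : (P + P').coeff 0 - (α + α') = (P.coeff 0 - α) + (P'.coeff 0 - α') := by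
        rw [coeff_add]
        ring
      rw [e]
      exact ALG.vle3 hp h2 h2'
    · have e : (Q + Q').coeff 0 - (β + β') = (Q.coeff 0 - β) + (Q'.coeff 0 - β') := by
        rw [coeff_add]
        ring
      rw [e]
      exact ALG.vle3 hp h3 h3'
  · intro F G α β α' β' h h'
    exact ALG.mulR hp h h'
  · intro F α β h hα
    have hi := ALG.ints hp h
    have hα0 : α ≠ 0 := by
      intro h2
      rw [h2, map_zero] at hα
      exact zero_ne_one hα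
    have hαi : V.valuation α⁻¹ = 1 := by rw [map_inv₀, hα, inv_one]
    have hu : ∀ Y ∈ S, V.valuation (F Y) = 1 := by
      intro Y hY
      have h2 := hi.2.2 Y hY
      have h3 : F Y = α + (F Y - α) := by ring
      rw [h3, Valuation.map_add_eq_of_lt_left]
      · exact hα
      · rw [hα]
        exact h2
    refine ⟨hu, ?_⟩
    obtain ⟨α₁, β₁, h4⟩ := ALG.toRep (ALG.REinv hp (ALG.toRE h) hu)
    have h5 := ALG.mulR hp h h4
    have h6 : _root_.Pool.Agent.NSE.Rep V S s r (fun Y => F Y * (F Y)⁻¹) 1 0 := by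
      refine hweak _ _ _ _ _ _ (hconst 1 (by rw [map_one])) (fun Y hY => ?_) ?_ ?_
      · have h7 : F Y ≠ 0 := by
          intro h8
          have h9 := hu Y hY
          rw [h8, map_zero] at h9
          exact zero_ne_one h9
        exact mul_inv_cancel₀ h7
      · simpa using hz3
      · simpa using hz3
    obtain ⟨h7, h8⟩ := ALG.uniq hp h5 h6
    rw [sub_zero] at h8
    have h9 : V.valuation (α⁻¹ - α₁) ≤ V.valuation (3 : ℂ) := by
      have e : α⁻¹ - α₁ = -α⁻¹ * (α * α₁ - 1) := by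
        field_simp
        ring
      rw [e]
      refine ALG.vmul3 ?_ h7
      rw [Valuation.map_neg, hαi]
    refine hweak _ _ _ _ _ _ h4 (fun Y _ => rfl) h9 ?_
    have e : -β / α ^ 2 - β₁ = (-α⁻¹) * (α * β₁ + α₁ * β) + (-α⁻¹ * β) * (α⁻¹ - α₁) := by
      field_simp
      ring
    rw [e]
    refine ALG.vle3 hp (ALG.vmul3 ?_ h8) (ALG.vmul3 ?_ h9)
    · rw [Valuation.map_neg, hαi]
    · rw [map_mul, Valuation.map_neg, hαi, one_mul]
      exact hi.2.1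
  · intro F α β h
    exact ALG.ints hp h
  · intro F α β α' β' h h'
    exact ALG.uniq hp h h'

end

end Pool.Agent.NSER


end
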