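import Mathlib
import Pool.Agent.MVF.C013
import Pool.Agent.MVF.C017
import Pool.Agent.MVF.C024

/-! Parts: MU3.A_INT, MUX.E_RNG, MUX.U_AUE, MUX.E_GTH, MU3.V_R2 -/

namespace Pool.Agent.MU3A.INT
end Pool.Agent.MU3A.INT
namespace Pool.Agent.MUXE.RNGaux
end Pool.Agent.MUXE.RNGaux

section

/-!
# MU3, block A: the ring of integers of `k`
-/

set_option autoImplicit false

namespace Pool.Agent.MU3A

open _root_.MU3 _root_.Pool.Agent.MU3B Polynomial

namespace INT

variable {A B : ℤ}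

lemma w_int (h : Case A B) : IsIntegral ℤ (wC A B) := by
  refine ⟨X ^ 2 - C B * X - C A, ?_, ?_⟩
  · monicity!
  · have := wC_sq h
    rw [eval₂_sub, eval₂_sub, eval₂_mul, eval₂_C, eval₂_C, eval₂_X, eval₂_pow, eval₂_X,
      eq_intCast, eq_intCast]
    linear_combination this

lemma w_intQ (h : Case A B) : IsIntegral ℚ (wC A B) := (w_int h).tower_top

lemma _root_.Pool.Agent.MU3A.INT.repr (h : Case A B) {x : ℂ} (hx : x ∈ kk A B) : ∃ s t : ℚ, x = s + t * wC A B := by
  have h1 : x ∈ (kk A B).toSubalgebra := hx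
  rw [IntermediateField.adjoin_simple_toSubalgebra_of_isAlgebraic (w_intQ h).isAlgebraic] at h1
  clear hx
  induction h1 using Algebra.adjoin_induction with
  | mem y hy =>
    rw [Set.mem_singleton_iff] at hy
    exact ⟨0, 1, by rw [hy]; push_cast; ring⟩
  | algebraMap r => exact ⟨r, 0, by simp⟩
  | add y z _ _ hy hz =>
    obtain ⟨s, t, rfl⟩ := hy
    obtain ⟨s', t', rfl⟩ := hz
    exact ⟨s + s', t + t', by push_cast; ring⟩
  | mul y z _ _ hy hz =>
    obtain ⟨s, t, rfl⟩ := hy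
    obtain ⟨s', t', rfl⟩ := hz
    refine ⟨s * s' + t * t' * A, s * t' + t * s' + t * t' * B, ?_⟩
    push_cast
    linear_combination (t : ℂ) * t' * wC_sq h

lemma conj_w (A B : ℤ) : (starRingEnd ℂ) (wC A B) = B - wC A B := by
  unfold wC
  simp only [map_div₀, map_add, map_mul, Complex.conj_I, Complex.conj_ofReal, map_intCast,
    map_ofNat]
  ring

lemma int_of_isIntegral {r : ℚ} (h : IsIntegral ℤ ((r : ℚ) : ℂ)) : ∃ z : ℤ, r = z := by
  have h1 : IsIntegral ℤ r := by
    have h2 : IsIntegral ℤ (algebraMap ℚ ℂ r) := h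
    exact (isIntegral_algebraMap_iff (algebraMap ℚ ℂ).injective).1 h2
  obtain ⟨z, hz⟩ := IsIntegrallyClosed.isIntegral_iff.1 h1
  exact ⟨z, by rw [← hz]; simp⟩

lemma int_of_sq {r : ℚ} {m : ℤ} (h : r ^ 2 = m) : ∃ z : ℤ, r = z := by
  apply int_of_isIntegral
  have h1 : IsIntegral ℤ (((r : ℚ) : ℂ) ^ 2) := by
    have : ((r : ℚ) : ℂ) ^ 2 = ((m : ℤ) : ℂ) := by exact_mod_cast congrArg (fun x : ℚ => (x : ℂ)) h
    rw [this]
    exact isIntegral_algebraMap (R := ℤ) (x := m)
  exact IsIntegral.of_pow (by norm_num) h1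

lemma emb_int (h : Case A B) (y : OO A B) : IsIntegral ℤ (emb y) := by
  unfold emb
  exact (isIntegral_algebraMap (R := ℤ) (x := y.re)).add
    ((isIntegral_algebraMap (R := ℤ) (x := y.im)).mul (w_int h))

lemma arith (h : Case A B) {s t : ℚ} {T N : ℤ} (hT : 2 * s + B * t = T)
    (hN : s ^ 2 + B * s * t - A * t ^ 2 = N) : (∃ z : ℤ, s = z) ∧ ∃ z : ℤ, t = z := by
  rcases h with ⟨rfl, rfl⟩ | ⟨rfl, rfl⟩
  · have h1 : 2 * s = T := by rw [← hT]; push_cast; ring
    have h2 : s ^ 2 + 2 * t ^ 2 = N := by rw [← hN]; push_cast; ring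
    have h3 : (4 * t) ^ 2 = ((2 * (4 * N - T ^ 2) : ℤ) : ℚ) := by
      push_cast
      rw [← h1, ← h2]
      ring
    obtain ⟨u, hu⟩ := int_of_sq h3
    rw [hu] at h3
    have h4 : u ^ 2 = 2 * (4 * N - T ^ 2) := by exact_mod_cast h3
    have hu2 : Even u := by
      have : Even (u ^ 2) := ⟨4 * N - T ^ 2, by rw [h4]; ring⟩
      exact (Int.even_pow.1 this).1
    obtain ⟨u', hu'⟩ := hu2
    have h5 : 2 * u' ^ 2 = 4 * N - T ^ 2 := by
      have : 2 * (2 * u' ^ 2) = 2 * (4 * N - T ^ 2) := by rw [← h4, hu']; ring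
      linarith
    have hT2 : Even T := by
      have : Even (T ^ 2) := ⟨2 * N - u' ^ 2, by linarith⟩
      exact (Int.even_pow.1 this).1
    obtain ⟨T', hT'⟩ := hT2
    have hu3 : Even u' := by
      have : Even (u' ^ 2) := ⟨N - T' ^ 2, by rw [hT'] at h5; linarith⟩
      exact (Int.even_pow.1 this).1
    obtain ⟨t', ht'⟩ := hu3
    refine ⟨⟨T', ?_⟩, ⟨t', ?_⟩⟩
    · rw [hT'] at h1
      push_cast at h1
      linarith
    · rw [hu', ht'] at hu
      push_cast at hu
      linarith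
  · have h1 : 2 * s + t = T := by rw [← hT]; push_cast; ring
    have h2 : s ^ 2 + s * t + 3 * t ^ 2 = N := by rw [← hN]; push_cast; ring
    have h3 : (11 * t) ^ 2 = ((11 * (4 * N - T ^ 2) : ℤ) : ℚ) := by
      push_cast
      rw [← h1, ← h2]
      ring
    obtain ⟨u, hu⟩ := int_of_sq h3
    rw [hu] at h3
    have h4 : u ^ 2 = 11 * (4 * N - T ^ 2) := by exact_mod_cast h3
    have hd : (11 : ℤ) ∣ u := by
      have h5 : (11 : ℤ) ∣ u ^ 2 := ⟨_, h4⟩
      have hp : Prime (11 : ℤ) := Int.prime_iff_natAbs_prime.2 (by norm_num)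
      exact hp.dvd_of_dvd_pow h5
    obtain ⟨t', ht'⟩ := hd
    have ht : t = t' := by
      rw [ht'] at hu
      push_cast at hu
      linarith
    have h6 : T ^ 2 + 11 * t' ^ 2 = 4 * N := by
      rw [ht'] at h4
      linarith
    have h7 : Even (T - t') := by
      by_contra hodd
      rw [Int.not_even_iff_odd] at hodd
      obtain ⟨k, hk⟩ := hodd
      have hT1 : T = t' + 2 * k + 1 := by linarith
      rw [hT1] at h6
      have h8 : (t' + 2 * k + 1) ^ 2 + 11 * t' ^ 2 - 4 * N =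
          2 * (6 * t' ^ 2 + 2 * k ^ 2 + 2 * t' * k + t' + 2 * k - 2 * N) + 1 := by ring
      omega
    obtain ⟨s', hs'⟩ := h7
    refine ⟨⟨s', ?_⟩, ⟨t', ht⟩⟩
    have hT1 : T = t' + s' + s' := by linarith
    rw [hT1, ht] at h1
    push_cast at h1
    linarith

end INT

open _root_.Pool.Agent.MU3A.INT in
theorem ta_INT : Sa_INT := by
  intro A B h
  have hfd : FiniteDimensional ℚ (kk A B) := IntermediateField.adjoin.finiteDimensional (w_intQ h)
  have him := wC_im_pos h
  refine ⟨hfd, ?_, fun x => _root_.Pool.Agent.MU3A.INT.repr h x.2, fun x hx => ⟨fun hint => ?_, ?_⟩⟩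
  · -- the basis 1, w
    let v : Fin 2 → kk A B := ![1, ⟨wC A B, wC_mem A B⟩]
    have hli : LinearIndependent ℚ v := by
      rw [LinearIndependent.pair_iff]
      intro s t hst
      have h1 : (s : ℂ) + t * wC A B = 0 := by
        have := congrArg (fun x : kk A B => (x : ℂ)) hst
        simpa [Algebra.smul_def] using this
      have h2 := congrArg Complex.im h1
      simp only [Complex.add_im, Complex.ratCast_im, Complex.mul_im, Complex.ratCast_re, zero_mul,
        add_zero, zero_add, Complex.zero_im] at h2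
      have ht : t = 0 := by
        have := (mul_eq_zero.1 h2).resolve_right him.ne'
        exact_mod_cast this
      rw [ht] at h1
      simp only [Rat.cast_zero, zero_mul, add_zero] at h1
      exact ⟨by exact_mod_cast h1, ht⟩
    have hsp : ⊤ ≤ Submodule.span ℚ (Set.range v) := by
      intro x _
      obtain ⟨s, t, hst⟩ := _root_.Pool.Agent.MU3A.INT.repr h x.2
      have hx : x = s • v 0 + t • v 1 := by
        apply Subtype.ext
        rw [hst]
        simp [v, Algebra.smul_def]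
      rw [hx]
      exact add_mem (Submodule.smul_mem _ _ (Submodule.subset_span ⟨0, rfl⟩))
        (Submodule.smul_mem _ _ (Submodule.subset_span ⟨1, rfl⟩))
    rw [Module.finrank_eq_card_basis (Module.Basis.mk hli hsp)]
    simp
  · obtain ⟨s, t, rfl⟩ := _root_.Pool.Agent.MU3A.INT.repr h hx
    have hconj : IsIntegral ℤ ((starRingEnd ℂ) ((s : ℂ) + t * wC A B)) := by
      have := hint.map ((starRingEnd ℂ).toIntAlgHom)
      exact this
    have hc : (starRingEnd ℂ) ((s : ℂ) + t * wC A B) = s + t * (B - wC A B) := by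
      rw [map_add, map_mul, conj_w]
      simp
    rw [hc] at hconj
    obtain ⟨T, hT⟩ := int_of_isIntegral (r := 2 * s + B * t) (by
      have := hint.add hconj
      have e : (s : ℂ) + t * wC A B + (s + t * (B - wC A B)) = ((2 * s + B * t : ℚ) : ℂ) := by
        push_cast
        ring
      rwa [e] at this)
    obtain ⟨N, hN⟩ := int_of_isIntegral (r := s ^ 2 + B * s * t - A * t ^ 2) (by
      have := hint.mul hconj
      have e : ((s : ℂ) + t * wC A B) * (s + t * (B - wC A B)) =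
          ((s ^ 2 + B * s * t - A * t ^ 2 : ℚ) : ℂ) := by
        push_cast
        linear_combination (-(t : ℂ) ^ 2) * wC_sq h
      rwa [e] at this)
    obtain ⟨⟨s', hs'⟩, ⟨t', ht'⟩⟩ := arith h hT hN
    refine ⟨⟨s', t'⟩, ?_⟩
    rw [hs', ht']
    simp [emb]
  · rintro ⟨y, rfl⟩
    exact emb_int h y

end Pool.Agent.MU3A


end

section

/-!
# MUX, block E, RNG: the facts on the ring `O = OO A B` (helper92)
-/

set_option autoImplicit false

open WeierstrassCurve Polynomial NumberField IsDedekindDomain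

namespace Pool.Agent.MUXE

open _root_.MU3 _root_.Pool.Agent.MU3A _root_.Pool.Agent.MU3B _root_.Pool.Agent.MUX _root_.Pool.Agent.MUXU _root_.Pool.Agent.RI

noncomputable section

namespace RNGaux

variable {A B : ℤ}

lemma absD_pos (h : CQ A B) : 0 < absD A B := by
  have := h.neg
  unfold absD
  omega

lemma wC_sq' (h : CQ A B) : wC A B * wC A B = A + B * wC A B := by
  have h1 : (0 : ℝ) ≤ (absD A B : ℝ) := by exact_mod_cast (absD_pos h).le
  have h2 : ((Real.sqrt (absD A B) : ℝ) : ℂ) ^ 2 = (absD A B : ℂ) := by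
    rw [← Complex.ofReal_pow, Real.sq_sqrt h1]
    norm_num
  have h3 : Complex.I ^ 2 = -1 := Complex.I_sq
  have h4 : (absD A B : ℂ) = -((B : ℂ) ^ 2 + 4 * A) := by simp [absD]
  unfold wC
  linear_combination (Complex.I ^ 2 / 4) * h2 + ((absD A B : ℂ) / 4) * h3 - (1 / 4) * h4

/-- `emb` as a ring homomorphism -/
def eH (h : CQ A B) : OO A B →+* ℂ :=
  (QuadraticAlgebra.lift (R := ℤ) (a := A) (b := B) (A := ℂ)
    ⟨wC A B, by simpa [zsmul_eq_mul] using wC_sq' h⟩).toRingHom

lemma eH_apply (h : CQ A B) (x : OO A B) : eH h x = emb x := by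
  simp [eH, emb, QuadraticAlgebra.lift, zsmul_eq_mul]

lemma wC_im_pos (h : CQ A B) : 0 < (wC A B).im := by
  have h1 : (0 : ℝ) < Real.sqrt (absD A B) := Real.sqrt_pos.2 (by exact_mod_cast absD_pos h)
  have h2 : (wC A B).im = Real.sqrt (absD A B) / 2 := by
    simp [wC, Complex.add_im, Complex.mul_im]
  rw [h2]; positivity

lemma _root_.Pool.Agent.MUXE.RNGaux.emb_inj (h : CQ A B) {x y : OO A B} (hxy : emb x = emb y) : x = y := by
  have h1 := congrArg Complex.im hxy
  have h2 := congrArg Complex.re hxy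
  simp only [emb, Complex.add_im, Complex.mul_im, Complex.intCast_im, Complex.intCast_re,
    zero_mul, add_zero, zero_add, Complex.add_re, Complex.mul_re, sub_zero] at h1 h2
  have h3 : (x.im : ℝ) = y.im := mul_right_cancel₀ (wC_im_pos h).ne' h1
  rw [h3] at h2
  have h4 : (x.re : ℝ) = y.re := add_right_cancel h2
  exact QuadraticAlgebra.ext (by exact_mod_cast h4) (by exact_mod_cast h3)

lemma mul_star' (x : OO A B) : x * star x = ((nm x : ℤ) : OO A B) := by
  ext
  · simp only [nm, QuadraticAlgebra.re_mul, QuadraticAlgebra.re_star, QuadraticAlgebra.im_star,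
      QuadraticAlgebra.re_intCast, Int.cast_id]
    ring
  · simp only [QuadraticAlgebra.im_mul, QuadraticAlgebra.re_star, QuadraticAlgebra.im_star,
      QuadraticAlgebra.im_intCast]
    ring

lemma four_nm (x : OO A B) :
    4 * nm x = (2 * x.re + B * x.im) ^ 2 + absD A B * x.im ^ 2 := by
  unfold nm absD
  ring

lemma nm_pos (h : CQ A B) {x : OO A B} (hx : x ≠ 0) : 0 < nm x := by
  have h1 := four_nm x
  have h2 := absD_pos h
  have h3 : 0 ≤ absD A B * x.im ^ 2 := mul_nonneg h2.le (sq_nonneg _)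
  have h4 := sq_nonneg (2 * x.re + B * x.im)
  by_contra hcon
  apply hx
  have h5 : absD A B * x.im ^ 2 = 0 := by omega
  have h6 : x.im = 0 := by
    rcases mul_eq_zero.1 h5 with h | h
    · omega
    · simpa using h
  have h7 : (2 * x.re + B * x.im) ^ 2 = 0 := by omega
  have h8 : 2 * x.re + B * x.im = 0 := by simpa using h7
  rw [h6, mul_zero, add_zero] at h8
  have h9 : x.re = 0 := by omega
  exact QuadraticAlgebra.ext h9 h6

lemma w_int (h : CQ A B) : _root_.IsIntegral ℤ (wC A B) := by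
  refine ⟨X ^ 2 - C B * X - C A, ?_, ?_⟩
  · monicity!
  · have := wC_sq' h
    rw [eval₂_sub, eval₂_sub, eval₂_mul, eval₂_C, eval₂_C, eval₂_X, eval₂_pow, eval₂_X,
      eq_intCast, eq_intCast]
    linear_combination this

lemma w_intQ (h : CQ A B) : _root_.IsIntegral ℚ (wC A B) := (w_int h).tower_top

lemma repr (h : CQ A B) {x : ℂ} (hx : x ∈ kk A B) : ∃ s t : ℚ, x = s + t * wC A B := by
  have h1 : x ∈ (kk A B).toSubalgebra := hx
  rw [IntermediateField.adjoin_simple_toSubalgebra_of_isAlgebraic (w_intQ h).isAlgebraic] at h1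
  clear hx
  induction h1 using Algebra.adjoin_induction with
  | mem y hy =>
    rw [Set.mem_singleton_iff] at hy
    exact ⟨0, 1, by rw [hy]; push_cast; ring⟩
  | algebraMap r => exact ⟨r, 0, by simp⟩
  | add y z _ _ hy hz =>
    obtain ⟨s, t, rfl⟩ := hy
    obtain ⟨s', t', rfl⟩ := hz
    exact ⟨s + s', t + t', by push_cast; ring⟩
  | mul y z _ _ hy hz =>
    obtain ⟨s, t, rfl⟩ := hy
    obtain ⟨s', t', rfl⟩ := hz
    refine ⟨s * s' + t * t' * A, s * t' + t * s' + t * t' * B, ?_⟩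
    push_cast
    linear_combination (t : ℂ) * t' * wC_sq' h

lemma emb_int (h : CQ A B) (y : OO A B) : _root_.IsIntegral ℤ (emb y) := by
  unfold emb
  exact (isIntegral_algebraMap (R := ℤ) (x := y.re)).add
    ((isIntegral_algebraMap (R := ℤ) (x := y.im)).mul (w_int h))

lemma int_of_sqfree {D m : ℤ} {r : ℚ} (hD : Squarefree D) (h : (D : ℚ) * r ^ 2 = m) :
    ∃ z : ℤ, r = z := by
  have hD0 : D ≠ 0 := hD.ne_zero
  have h1 : ((D : ℚ) * r) ^ 2 = ((D * m : ℤ) : ℚ) := by
    push_cast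
    rw [← h]
    ring
  obtain ⟨u, hu⟩ := INT.int_of_sq h1
  have h2 : u ^ 2 = D * m := by
    rw [hu] at h1
    exact_mod_cast h1
  have h3 : D ∣ u := (hD.dvd_pow_iff_dvd two_ne_zero).1 ⟨m, h2⟩
  obtain ⟨z, rfl⟩ := h3
  refine ⟨z, ?_⟩
  have hDq : (D : ℚ) ≠ 0 := by exact_mod_cast hD0
  have h4 : (D : ℚ) * r = D * z := by
    rw [hu]
    push_cast
    ring
  exact mul_left_cancel₀ hDq h4

lemma arith (h : CQ A B) {s t : ℚ} {T N : ℤ} (hT : 2 * s + B * t = T)
    (hN : s ^ 2 + B * s * t - A * t ^ 2 = N) : (∃ z : ℤ, s = z) ∧ ∃ z : ℤ, t = z := by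
  rcases h.hB with hB | hB
  · obtain ⟨hA, hA4⟩ := h.fund0 hB
    subst hB
    have h1 : 2 * s = T := by rw [← hT]; push_cast; ring
    have h2 : s ^ 2 - A * t ^ 2 = N := by rw [← hN]; push_cast; ring
    have h3 : (A : ℚ) * (2 * t) ^ 2 = ((T ^ 2 - 4 * N : ℤ) : ℚ) := by
      push_cast
      rw [← h1, ← h2]
      ring
    obtain ⟨u, hu⟩ := int_of_sqfree hA h3
    have h4 : A * u ^ 2 = T ^ 2 - 4 * N := by
      rw [hu] at h3
      exact_mod_cast h3
    have hu2 : Even u := by
      by_contra hodd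
      rw [Int.not_even_iff_odd] at hodd
      obtain ⟨k, hk⟩ := hodd
      have h5 : A + 4 * (A * (k ^ 2 + k)) = T ^ 2 - 4 * N := by
        rw [← h4, hk]
        ring
      rcases Int.even_or_odd' T with ⟨j, hj | hj⟩
      · have h6 : A = 4 * (j ^ 2 - N - A * (k ^ 2 + k)) := by
          rw [hj] at h5
          linarith
        have h7 : (2 : ℤ) * 2 ∣ A := ⟨_, h6⟩
        have h8 := hA 2 h7
        rw [Int.isUnit_iff] at h8
        omega
      · have h6 : A - 1 = 4 * (j ^ 2 + j - N - A * (k ^ 2 + k)) := by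
          rw [hj] at h5
          linarith
        exact hA4 ⟨_, h6⟩
    obtain ⟨t', ht'⟩ := hu2
    have hT2 : Even T := by
      have : Even (T ^ 2) := ⟨2 * (A * t' ^ 2) + 2 * N, by
        rw [ht'] at h4
        linarith⟩
      exact (Int.even_pow.1 this).1
    obtain ⟨T', hT'⟩ := hT2
    refine ⟨⟨T', ?_⟩, ⟨t', ?_⟩⟩
    · rw [hT'] at h1
      push_cast at h1
      linarith
    · rw [ht'] at hu
      push_cast at hu
      linarith
  · have hD := h.fund1 hB
    subst hB
    have h1 : 2 * s + t = T := by rw [← hT]; push_cast; ring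
    have h2 : s ^ 2 + s * t - A * t ^ 2 = N := by rw [← hN]; push_cast; ring
    have h3 : ((1 + 4 * A : ℤ) : ℚ) * t ^ 2 = ((T ^ 2 - 4 * N : ℤ) : ℚ) := by
      push_cast
      rw [← h1, ← h2]
      ring
    obtain ⟨t', ht⟩ := int_of_sqfree hD h3
    have h6 : (1 + 4 * A) * t' ^ 2 = T ^ 2 - 4 * N := by
      rw [ht] at h3
      exact_mod_cast h3
    have h7 : Even (T - t') := by
      by_contra hodd
      rw [Int.not_even_iff_odd] at hodd
      obtain ⟨k, hk⟩ := hodd
      have hT1 : T = t' + 2 * k + 1 := by linarith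
      rw [hT1] at h6
      have h8 : (t' + 2 * k + 1) ^ 2 - 4 * N - (1 + 4 * A) * t' ^ 2 =
          2 * (2 * k ^ 2 + 2 * t' * k + t' + 2 * k - 2 * N - 2 * (A * t' ^ 2)) + 1 := by ring
      omega
    obtain ⟨s', hs'⟩ := h7
    refine ⟨⟨s', ?_⟩, ⟨t', ht⟩⟩
    have hT1 : T = t' + s' + s' := by linarith
    rw [hT1, ht] at h1
    push_cast at h1
    linarith

lemma int_iff (h : CQ A B) {x : ℂ} (hx : x ∈ kk A B) :
    _root_.IsIntegral ℤ x ↔ ∃ y : OO A B, x = emb y := by
  refine ⟨fun hint => ?_, ?_⟩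
  · obtain ⟨s, t, rfl⟩ := repr h hx
    have hconj : _root_.IsIntegral ℤ ((starRingEnd ℂ) ((s : ℂ) + t * wC A B)) := by
      have := hint.map ((starRingEnd ℂ).toIntAlgHom)
      exact this
    have hc : (starRingEnd ℂ) ((s : ℂ) + t * wC A B) = s + t * (B - wC A B) := by
      rw [map_add, map_mul, INT.conj_w]
      simp
    rw [hc] at hconj
    obtain ⟨T, hT⟩ := INT.int_of_isIntegral (r := 2 * s + B * t) (by
      have := hint.add hconj
      have e : (s : ℂ) + t * wC A B + (s + t * (B - wC A B)) = ((2 * s + B * t : ℚ) : ℂ) := by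
        push_cast
        ring
      rwa [e] at this)
    obtain ⟨N, hN⟩ := INT.int_of_isIntegral (r := s ^ 2 + B * s * t - A * t ^ 2) (by
      have := hint.mul hconj
      have e : ((s : ℂ) + t * wC A B) * (s + t * (B - wC A B)) =
          ((s ^ 2 + B * s * t - A * t ^ 2 : ℚ) : ℂ) := by
        push_cast
        linear_combination (-(t : ℂ) ^ 2) * wC_sq' h
      rwa [e] at this)
    obtain ⟨⟨s', hs'⟩, ⟨t', ht'⟩⟩ := arith h hT hN
    refine ⟨⟨s', t'⟩, ?_⟩
    rw [hs', ht']
    simp [emb]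
  · rintro ⟨y, rfl⟩
    exact emb_int h y

lemma ded (h : CQ A B) : IsDedekindDomain (OO A B) := by
  have hinj : Function.Injective (eH h) := fun x y hxy => by
    rw [eH_apply, eH_apply] at hxy
    exact _root_.Pool.Agent.MUXE.RNGaux.emb_inj h hxy
  have hdom : IsDomain (OO A B) := hinj.isDomain (eH h)
  have hfd : FiniteDimensional ℚ (kk A B) :=
    IntermediateField.adjoin.finiteDimensional (w_intQ h)
  let φ : OO A B →+* kk A B := (eH h).codRestrict (kk A B) (fun x => by
    rw [eH_apply]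
    exact _root_.Pool.Agent.MU3A.emb_mem x)
  let _ : Algebra (OO A B) (kk A B) := φ.toAlgebra
  have hφ : ∀ x, ((algebraMap (OO A B) (kk A B) x : kk A B) : ℂ) = emb x := fun x =>
    eH_apply h x
  have : IsIntegralClosure (OO A B) ℤ (kk A B) := by
    refine ⟨fun x y hxy => ?_, fun {x} => ?_⟩
    · apply _root_.Pool.Agent.MUXE.RNGaux.emb_inj h
      rw [← hφ x, ← hφ y, hxy]
    · have h1 : _root_.IsIntegral ℤ x ↔ _root_.IsIntegral ℤ ((x : kk A B) : ℂ) :=
        (isIntegral_algebraMap_iff (algebraMap (kk A B) ℂ).injective).symm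
      rw [h1, int_iff h x.2]
      constructor
      · rintro ⟨y, hy⟩
        exact ⟨y, Subtype.ext (by rw [hφ, hy])⟩
      · rintro ⟨y, rfl⟩
        exact ⟨y, hφ y⟩
  exact IsIntegralClosure.isDedekindDomain ℤ ℚ (kk A B) (OO A B)

end RNGaux

open _root_.Pool.Agent.MUXE.RNGaux

theorem te_RNG : Sxe_RNG := by
  intro A B h
  refine ⟨⟨eH h, eH_apply h⟩, ?_, ded h, ?_, ?_⟩
  · intro x hx
    apply _root_.Pool.Agent.MUXE.RNGaux.emb_inj h
    rw [hx, ← eH_apply h 0, map_zero]
  · intro m hm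
    obtain ⟨x, hxm, hx0⟩ := Submodule.exists_mem_ne_zero_of_ne_bot hm
    refine ⟨(nm x).toNat, ?_, ?_⟩
    · have := nm_pos h hx0
      omega
    · have h1 : (((nm x).toNat : ℕ) : OO A B) = x * star x := by
        rw [mul_star']
        have := nm_pos h hx0
        have h2 : (((nm x).toNat : ℕ) : ℤ) = nm x := Int.toNat_of_nonneg this.le
        have h3 : ((nm x : ℤ) : OO A B) = (((nm x).toNat : ℤ) : OO A B) := by rw [h2]
        rw [h3, Int.cast_natCast]
      rw [h1]
      exact m.mul_mem_right _ hxm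
  · intro y hy
    exact int_iff h hy

end

end Pool.Agent.MUXE


end

section

/-!
# MUX, block U, module AUE: embeddings of algebraic fields extend to automorphisms of `ℂ`
-/

set_option autoImplicit false

open Cardinal

namespace Pool.Agent.MUXU

theorem AUE_ext {F K L ι κ : Type} [Field F] [Field K] [Field L] [Algebra F K] [Algebra F L]
    [IsAlgClosed K] [IsAlgClosed L] (v : ι → K) (w : κ → L) (e : ι ≃ κ)
    (hv : IsTranscendenceBasis F v) (hw : IsTranscendenceBasis F w) :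
    ∃ σ : K ≃+* L, ∀ x : F, σ (algebraMap F K x) = algebraMap F L x := by
  let := IsAlgClosed.isAlgClosure_of_transcendence_basis v hv
  let := IsAlgClosed.isAlgClosure_of_transcendence_basis w hw
  let e' : Algebra.adjoin F (Set.range v) ≃ₐ[F] Algebra.adjoin F (Set.range w) :=
    hv.1.aevalEquiv.symm.trans ((MvPolynomial.renameEquiv F e).trans hw.1.aevalEquiv)
  refine ⟨IsAlgClosure.equivOfEquiv K L e'.toRingEquiv, fun x => ?_⟩
  rw [IsScalarTower.algebraMap_apply F (Algebra.adjoin F (Set.range v)) K x,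
    IsAlgClosure.equivOfEquiv_algebraMap,
    IsScalarTower.algebraMap_apply F (Algebra.adjoin F (Set.range w)) L x]
  congr 1
  exact e'.commutes x

theorem tu_AUE : Su_AUE := by
  intro F hF τ
  have hFc : #F ≤ ℵ₀ := by
    have h := Algebra.IsAlgebraic.cardinalMk_le_max ℚ F
    simpa using h
  have hC : ℵ₀ < #ℂ := by
    rw [Cardinal.mk_complex]
    exact Cardinal.aleph0_lt_continuum
  have hfs : FaithfulSMul F ℂ :=
    (faithfulSMul_iff_algebraMap_injective F ℂ).mpr (algebraMap F ℂ).injective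
  obtain ⟨s, hs⟩ := exists_isTranscendenceBasis F ℂ
  have hs1 : #ℂ = #s := by
    have h := IsAlgClosed.cardinal_eq_cardinal_transcendence_basis_of_aleph0_lt _ hs hFc hC
    simpa using h
  obtain ⟨t, ht, ht1⟩ : ∃ t : Set ℂ, @IsTranscendenceBasis t F ℂ _ _ τ.toAlgebra ((↑) : t → ℂ) ∧
      #ℂ = #t := by
    let := τ.toAlgebra
    have hfs2 : @FaithfulSMul F ℂ τ.toAlgebra.toSMul :=
      (faithfulSMul_iff_algebraMap_injective F ℂ).mpr τ.injective
    obtain ⟨t, ht⟩ := @exists_isTranscendenceBasis F ℂ _ _ τ.toAlgebra hfs2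
    refine ⟨t, ht, ?_⟩
    have h := @IsAlgClosed.cardinal_eq_cardinal_transcendence_basis_of_aleph0_lt F ℂ _ _
      τ.toAlgebra _ _ _ _ ht hFc hC
    simpa using h
  obtain ⟨e⟩ := Cardinal.eq.mp (hs1.symm.trans ht1)
  obtain ⟨σ, hσ⟩ := @AUE_ext F ℂ ℂ s t _ _ _ _ τ.toAlgebra _ _ _ _ e hs ht
  exact ⟨σ, hσ⟩

end Pool.Agent.MUXU


end

section

/-!
# MUX, block E: the Galois action on `Θ_a(z)`
-/

set_option autoImplicit false

open WeierstrassCurve Polynomial NumberField IsDedekindDomain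

namespace Pool.Agent.MUXE

open _root_.MU3 _root_.Pool.Agent.MU3A _root_.Pool.Agent.MU3B _root_.Pool.Agent.MUX _root_.Pool.Agent.MUXU _root_.Pool.Agent.RI

noncomputable section

/-- (GTH) the Galois action on `Θ_a(z)` -/
theorem te_GTH (h1 : Sxe_TRA) : Sxe_GTH := by
  intro A B hR L hL a H hH m hm σ c hσ hac z hz hzL
  obtain ⟨t1, -, -, -, -, -, -, -, t9⟩ := h1 A B hR L hL
  obtain ⟨φ, hφ⟩ := hR.hom
  have emul : ∀ x y : OO A B, emb (x * y) = emb x * emb y := by
    intro x y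
    rw [← hφ, ← hφ, ← hφ, map_mul]
  have eadd : ∀ x y : OO A B, emb (x + y) = emb x + emb y := by
    intro x y
    rw [← hφ, ← hφ, ← hφ, map_add]
  have eone : emb (1 : OO A B) = 1 := by rw [← hφ, map_one]
  have enat : ∀ n : ℕ, emb (n : OO A B) = n := by
    intro n
    rw [← hφ, map_natCast]
  obtain ⟨hcop, hact⟩ := hσ
  obtain ⟨-, hact⟩ := hact L hL
  have hgen : ∀ x ∈ sp (a : OO A B), ∃ k : OO A B, x = k * (a : OO A B) := by
    intro x hx
    obtain ⟨k, hk⟩ := Ideal.mem_span_singleton'.1 hx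
    exact ⟨k, hk.symm⟩
  have hq : ∀ q ∈ H, Tor m L q ∧ q ∉ L.lattice := by
    intro q hqH
    constructor
    · intro x hx
      obtain ⟨k, hk⟩ := hgen x (hm hx)
      rw [hk, emul, enat, mul_assoc]
      exact t1 k _ (hH.mem q hqH)
    · intro h0
      refine hH.ne q hqH ?_
      rw [two_mul]
      exact add_mem h0 h0
  have hmem : ∀ z, Tor m L z → z ∉ L.lattice → xn L z ∈ RF m := by
    intro z h2 h3
    obtain ⟨b, om, hb⟩ := hL
    exact IntermediateField.subset_adjoin _ _ ⟨b, L, om, hb, Or.inr ⟨z, h2, h3, rfl⟩⟩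
  have hcq : ∀ q ∈ H, xn L (emb c * q) = xn L q := by
    intro q hqH
    obtain ⟨k, hk⟩ := hgen _ hac
    have h2 : q - emb c * q ∈ L.lattice := by
      have h3 : c = 1 + k * (a : OO A B) := by rw [← hk]; ring
      have h4 : q - emb c * q = -(emb k * ((a : ℂ) * q)) := by
        rw [h3, eadd, eone, emul, enat]
        ring
      rw [h4]
      exact neg_mem (t1 k _ (hH.mem q hqH))
    exact (((t9 q (emb c * q) h2).2 (hq q hqH).2).1).symm
  have hsub : ∀ z q, L.weierstrassP z - L.weierstrassP q = xn L z - xn L q := by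
    intro z q
    unfold xn
    ring
  have hTh : ∀ z, ThetaH L H z = ∏ q ∈ H, (xn L z - xn L q) := by
    intro z
    unfold ThetaH
    exact Finset.prod_congr rfl fun q _ => hsub z q
  let y : RF m := ∏ q ∈ H.attach, ((⟨xn L z, hmem z hz hzL⟩ : RF m) -
    ⟨xn L q.1, hmem q.1 (hq q.1 q.2).1 (hq q.1 q.2).2⟩)
  have hy : (y : ℂ) = ThetaH L H z := by
    have h2 : (y : ℂ) = ∏ q ∈ H.attach, (xn L z - xn L q.1) := by
      change (RF m).val y = _
      rw [map_prod]
      rfl
    rw [h2, hTh, Finset.prod_attach H (fun q => xn L z - xn L q)]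
  have hmemT : ThetaH L H z ∈ RF m := hy ▸ y.2
  refine ⟨hmemT, ?_⟩
  have hyeq : (⟨ThetaH L H z, hmemT⟩ : RF m) = y := Subtype.ext hy.symm
  rw [hyeq]
  change _root_.Pool.Agent.MU3A.em σ y = _
  have h2 : _root_.Pool.Agent.MU3A.em σ y = ∏ q ∈ H.attach, (xn L (emb c * z) - xn L q.1) := by
    rw [map_prod]
    refine Finset.prod_congr rfl fun q _ => ?_
    rw [map_sub, (hact z hz hzL).2 (hmem z hz hzL),
      (hact q.1 (hq q.1 q.2).1 (hq q.1 q.2).2).2 (hmem q.1 (hq q.1 q.2).1 (hq q.1 q.2).2),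
      hcq q.1 q.2]
  rw [h2, hTh, Finset.prod_attach H (fun q => xn L (emb c * z) - xn L q)]

end

end Pool.Agent.MUXE


end

section

/-!
# MU3, block V, module R2: `E[lam]` is in the kernel of reduction at a place where `lam` is not a unit
-/

set_option autoImplicit false

open WeierstrassCurve Polynomial NumberField IsDedekindDomain

namespace Pool.Agent.MU3V

open _root_.MU3 _root_.Pool.Agent.MU3A _root_.Pool.Agent.MU3B

noncomputable section

/-- the element of `V` given by a complex number of `V` -/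
def r2V (V : ValuationSubring ℂ) (x : ℂ) : V := by
  classical
  exact if h : x ∈ V then ⟨x, h⟩ else 0

lemma r2V_coe (V : ValuationSubring ℂ) {x : ℂ} (h : x ∈ V) : ((r2V V x : V) : ℂ) = x := by
  unfold r2V; rw [dif_pos h]

lemma r2_lin (V : ValuationSubring ℂ) (s : Finset ℂ) (f : ℂ → ℂ) (hf : ∀ p ∈ s, f p ∈ V) :
    (∏ p ∈ s, (X - C (f p)) : ℂ[X]) =
      Polynomial.map V.subtype (∏ p ∈ s, (X - C (r2V V (f p)))) := by
  rw [Polynomial.map_prod]
  apply Finset.prod_congr rfl
  intro p hp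
  rw [Polynomial.map_sub, Polynomial.map_X, Polynomial.map_C]
  simp [r2V_coe V (hf p hp)]

lemma r2_mult {κ : Type*} [Field κ] {a b : κ} (hab : a ≠ b) {P Q : κ[X]} (hP : P ≠ 0)
    (hQ : Q ≠ 0) (h : (X - C a) * P ^ 2 = (X - C b) * Q ^ 2) : False := by
  classical
  have h1 : rootMultiplicity a ((X - C a) * P ^ 2) = 1 + 2 * rootMultiplicity a P := by
    rw [rootMultiplicity_mul (mul_ne_zero (X_sub_C_ne_zero a) (pow_ne_zero 2 hP)), pow_two,
      rootMultiplicity_mul (mul_ne_zero hP hP), rootMultiplicity_X_sub_C_self]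
    ring
  have h2 : rootMultiplicity a ((X - C b) * Q ^ 2) = 2 * rootMultiplicity a Q := by
    rw [rootMultiplicity_mul (mul_ne_zero (X_sub_C_ne_zero b) (pow_ne_zero 2 hQ)), pow_two,
      rootMultiplicity_mul (mul_ne_zero hQ hQ), rootMultiplicity_X_sub_C, if_neg hab]
    ring
  rw [h, h2] at h1
  omega

/-- the reduction argument -/
lemma r2_red (V : ValuationSubring ℂ) (H : Finset ℂ) (c l e₁ e₂ : ℂ) (f f₁ f₂ : ℂ → ℂ)
    (hc : c ∈ V) (hl : V.valuation l < 1) (he₁ : e₁ ∈ V) (he₂ : e₂ ∈ V)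
    (he : V.valuation (e₁ - e₂) = 1)
    (hf : ∀ p ∈ H, f p ∈ V) (hf₁ : ∀ p ∈ H, f₁ p ∈ V) (hf₂ : ∀ p ∈ H, f₂ p ∈ V)
    (h : C c * (C l * ∏ p ∈ H, (X - C (f p))) ^ 2 =
      (X - C e₁) * (∏ p ∈ H, (X - C (f₁ p))) ^ 2 - (X - C e₂) * (∏ p ∈ H, (X - C (f₂ p))) ^ 2) :
    False := by
  have hlV : l ∈ V := (ValuationSubring.valuation_le_one_iff _ _).1 hl.le
  have hinj : Function.Injective V.subtype := Subtype.coe_injective
  have hC : ∀ {x : ℂ}, x ∈ V → (C x : ℂ[X]) = Polynomial.map V.subtype (C (r2V V x)) := by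
    intro x hx
    rw [Polynomial.map_C]
    simp [r2V_coe V hx]
  have hX : (X : ℂ[X]) = Polynomial.map V.subtype X := by rw [Polynomial.map_X]
  rw [hC hc, hC hlV, hC he₁, hC he₂, r2_lin V H f hf, r2_lin V H f₁ hf₁, r2_lin V H f₂ hf₂,
    hX, ← Polynomial.map_mul, ← Polynomial.map_pow, ← Polynomial.map_mul, ← Polynomial.map_sub,
    ← Polynomial.map_pow, ← Polynomial.map_mul, ← Polynomial.map_sub, ← Polynomial.map_pow,
    ← Polynomial.map_mul, ← Polynomial.map_sub] at h
  have h' := Polynomial.map_injective _ hinj h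
  have h2 := congrArg (Polynomial.map (IsLocalRing.residue V)) h'
  have hl0 : IsLocalRing.residue V (r2V V l) = 0 := by
    rw [IsLocalRing.residue_eq_zero_iff, ValuationSubring.valuation_lt_one_iff, r2V_coe V hlV]
    exact hl
  simp only [Polynomial.map_mul, Polynomial.map_pow, Polynomial.map_sub, Polynomial.map_X,
    Polynomial.map_C, hl0, C_0, zero_mul, Polynomial.map_prod] at h2
  rw [zero_pow two_ne_zero, mul_zero, eq_comm, sub_eq_zero] at h2
  refine r2_mult (a := IsLocalRing.residue V (r2V V e₁)) (b := IsLocalRing.residue V (r2V V e₂))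
    ?_ ?_ ?_ h2
  · intro hh
    rw [← sub_eq_zero, ← map_sub, IsLocalRing.residue_eq_zero_iff,
      ValuationSubring.valuation_lt_one_iff] at hh
    have e : ((r2V V e₁ - r2V V e₂ : V) : ℂ) = e₁ - e₂ := by
      push_cast
      rw [r2V_coe V he₁, r2V_coe V he₂]
    rw [e, he] at hh
    exact lt_irrefl _ hh
  · exact Finset.prod_ne_zero_iff.2 fun p _ => X_sub_C_ne_zero _
  · exact Finset.prod_ne_zero_iff.2 fun p _ => X_sub_C_ne_zero _

/-- the points of order two -/
lemma r2_half {A B : ℤ} {L : PeriodPair} {Om : ℂ} (h : Case A B) (hL : IsLat A B L Om) :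
    ∃ w₁ w₂ : ℂ, 2 * w₁ ∈ L.lattice ∧ w₁ ∉ L.lattice ∧ 2 * w₂ ∈ L.lattice ∧ w₂ ∉ L.lattice ∧
      w₁ + w₂ ∉ L.lattice ∧ w₁ - w₂ ∉ L.lattice := by
  have re1 : QuadraticAlgebra.re (1 : OO A B) = 1 := rfl
  have im1 : QuadraticAlgebra.im (1 : OO A B) = 0 := rfl
  have re2 : QuadraticAlgebra.re (2 : OO A B) = 2 := by
    have e : (2 : OO A B) = 1 + 1 := by norm_num
    rw [e, QuadraticAlgebra.re_add, re1]; norm_num
  have im2 : QuadraticAlgebra.im (2 : OO A B) = 0 := by
    have e : (2 : OO A B) = 1 + 1 := by norm_num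
    rw [e, QuadraticAlgebra.im_add, im1]; norm_num
  have h20 : (2 : OO A B) ≠ 0 := by
    intro h0
    have := congrArg QuadraticAlgebra.re h0
    rw [re2] at this
    simp at this
  have e2 : emb (2 : OO A B) = 2 := by
    have := emb_natCast h 2
    exact_mod_cast this
  have key : ∀ x : OO A B, ¬ (2 : OO A B) ∣ x → emb x * (Om / 2) ∉ L.lattice := by
    intro x hx hm
    rw [← e2, hL.mul_div_mem_iff h h20] at hm
    exact hx hm
  have k2 : ∀ x : OO A B, 2 * (emb x * (Om / 2)) ∈ L.lattice := by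
    intro x
    rw [hL.mem]
    exact ⟨x, by ring⟩
  have hdiv : ∀ x : OO A B, ((2 : OO A B) ∣ x) → (2 : ℤ) ∣ x.re ∧ (2 : ℤ) ∣ x.im := by
    rintro x ⟨y, rfl⟩
    constructor
    · exact ⟨y.re, by simp [re2, im2]⟩
    · exact ⟨y.im, by simp [re2, im2]⟩
  refine ⟨emb (1 : OO A B) * (Om / 2), emb (⟨0, 1⟩ : OO A B) * (Om / 2), k2 _, key _ ?_, k2 _,
    key _ ?_, ?_, ?_⟩
  · intro hd
    have h3 := (hdiv _ hd).1
    rw [re1] at h3
    omega
  · intro hd
    have h3 := (hdiv _ hd).2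
    have e : QuadraticAlgebra.im (⟨0, 1⟩ : OO A B) = 1 := rfl
    rw [e] at h3
    omega
  · rw [← add_mul, ← emb_add h]
    apply key
    intro hd
    have h3 := (hdiv _ hd).1
    have e : QuadraticAlgebra.re ((1 : OO A B) + ⟨0, 1⟩) = 1 := by
      rw [QuadraticAlgebra.re_add, re1]; norm_num
    rw [e] at h3
    omega
  · rw [← sub_mul, ← emb_sub h]
    apply key
    intro hd
    have h3 := (hdiv _ hd).1
    have e : QuadraticAlgebra.re ((1 : OO A B) - ⟨0, 1⟩) = 1 := by
      rw [QuadraticAlgebra.re_sub, re1]; norm_num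
    rw [e] at h3
    omega

theorem tv_R2 (hPOL : Sv_POL) (hCYCL : Sv_CYCL) : Sv_R2 := by
  intro A B L Om ξ h hL hξ V h2 lam q hq hnm hlam u₀ hu₀
  by_contra hE
  have hlam0 : lam ≠ 0 := by
    rintro rfl
    have : (q : ℤ) = 0 := by rw [← hnm]; simp [nm]
    exact hq.ne_zero (by exact_mod_cast this)
  have hl0 : emb lam ≠ 0 := emb_ne_zero h hlam0
  have hO := hL.Om_ne
  obtain ⟨c1, c2, c3⟩ := hCYCL A B L Om h hL lam q hq hnm
  -- `v q < 1`
  have hvq : V.valuation (q : ℂ) < 1 := by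
    have m1 : emb lam * (Om / emb lam) ∈ L.lattice := by
      rw [hL.mem]; exact ⟨1, by rw [emb_one h]; field_simp⟩
    have m2 := c2 _ m1
    rw [hL.mem] at m2
    obtain ⟨x, hx⟩ := m2
    have e : (q : ℂ) = emb lam * emb x := by
      field_simp at hx
      linear_combination hx
    rw [e, map_mul]
    exact lt_of_le_of_lt (mul_le_of_le_one_right' (v_emb_le h V x)) hlam
  have hq2 : q ≠ 2 := by
    rintro rfl
    have : V.valuation ((2 : ℕ) : ℂ) = 1 := by simpa using h2
    rw [this] at hvq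
    exact lt_irrefl _ hvq
  obtain ⟨H, hH⟩ := c3 hq2
  have hstab : ∀ u ∈ L.lattice, emb lam * u ∈ L.lattice := fun u hu => hL.emb_mul_mem h lam hu
  -- no nonzero point of `E[lam]` is in `E₁`
  have hno : ∀ u, emb lam * u ∈ L.lattice → u ∉ L.lattice → ¬ InE1 A B V L u := by
    intro u hu huL hu1
    obtain ⟨m, hm⟩ := c1 u₀ u hu₀ hu huL
    apply hE
    rw [inE1_congr h h2 hξ (w := m * u) (inE1_of_mem hm)]
    exact inE1_int h h2 hξ hu1 m
  have htwo : ∀ w : ℂ, 2 * w ∈ L.lattice → w ∉ L.lattice → ¬ InE1 A B V L w := by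
    intro w hw hwL hw1
    exact hwL (mem_of_nat_mul h h2 hξ hw1 (n := 2) (by simpa using h2) (by simpa using hw))
  have hadd : ∀ w : ℂ, 2 * w ∈ L.lattice → w ∉ L.lattice → ∀ p ∈ H, ¬ InE1 A B V L (w + p) := by
    intro w hw hwL p hp hwp
    have h3 := inE1_nat h h2 hξ hwp 2
    have h4 := inE1_sub h h2 hξ h3 (inE1_of_mem (A := A) (B := B) (V := V) hw)
    have e : ((2 : ℕ) : ℂ) * (w + p) - 2 * w = 2 * p := by push_cast; ring
    rw [e] at h4
    refine hno (2 * p) ?_ (hH.ne p hp) h4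
    have := hH.mem p hp
    have h5 := add_mem this this
    have e' : emb lam * p + emb lam * p = emb lam * (2 * p) := by ring
    rwa [e'] at h5
  have hlw : ∀ w : ℂ, 2 * w ∈ L.lattice → w ∉ L.lattice → ¬ InE1 A B V L (emb lam * w) := by
    intro w hw hwL
    apply htwo
    · have := hstab _ hw
      rwa [mul_left_comm] at this
    · intro hlw
      obtain ⟨p, hp, hp' | hp'⟩ := hH.surj w hlw hwL
      · apply hH.ne p hp
        have h5 := add_mem hp' hp'
        have h6 := sub_mem hw h5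
        have e : 2 * w - (w - p + (w - p)) = 2 * p := by ring
        rwa [e] at h6
      · apply hH.ne p hp
        have h5 := add_mem hp' hp'
        have h6 := sub_mem h5 hw
        have e : (w + p + (w + p)) - 2 * w = 2 * p := by ring
        rwa [e] at h6
  have hmem : ∀ z : ℂ, ¬ InE1 A B V L z → xx A B L z ∈ V := fun z hz =>
    (ValuationSubring.valuation_le_one_iff _ _).1 (int_x hz).2
  obtain ⟨w₁, w₂, a1, a2, a3, a4, a5, a6⟩ := r2_half h hL.toIsLat
  have hsum : ¬ InE1 A B V L (w₁ + w₂) := by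
    apply htwo _ _ a5
    rw [mul_add]; exact add_mem a1 a3
  have hdiff : ¬ InE1 A B V L (w₁ - w₂) := by
    apply htwo _ _ a6
    rw [mul_sub]; exact sub_mem a1 a3
  have hpol := (hPOL A B L (emb lam) H hl0 hstab hH).1 w₁ w₂ a1 a2 a3 a4
  unfold Qp Cp at hpol
  refine r2_red V H _ _ _ _ (fun p => xx A B L p) (fun p => xx A B L (w₁ + p))
    (fun p => xx A B L (w₂ + p)) ?_ hlam (hmem _ (htwo _ a1 a2)) (hmem _ (htwo _ a3 a4)) ?_ ?_ ?_ ?_
    hpol
  · exact sub_mem (hmem _ (hlw _ a3 a4)) (hmem _ (hlw _ a1 a2))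
  · exact v_xx_sub h h2 hξ (htwo _ a1 a2) (htwo _ a3 a4) hsum hdiff
  · intro p hp
    apply hmem
    apply hno p (hH.mem p hp)
    intro hpL
    apply hH.ne p hp
    have := add_mem hpL hpL
    rwa [← two_mul] at this
  · intro p hp
    exact hmem _ (hadd _ a1 a2 p hp)
  · intro p hp
    exact hmem _ (hadd _ a3 a4 p hp)

end

end Pool.Agent.MU3V


end
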