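import Mathlib
import Pool.Agent.MVF.C001
import Pool.Agent.MVF.C006
import Pool.Agent.MVF.C020
import Pool.Agent.MVF.C022

/-! Parts: MU3.StP, MU3.PX_BAD, MU3.MKUM, MU3.PX_NPL, MU3.PX_REC, MU3.A_R8 -/

namespace MU3.NPL
end MU3.NPL

section

/-!
# MU3, block P: extensions of `p`-power degree (Iwasawa 1973 in elementary form)

`v_p h(F B_n)` bounded by a polynomial in `n` implies the same for every `L / F` Galois of `p`-power
degree, `F` totally complex. Chevalley's inequality for ambiguous classes (with the Herbrand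
quotient of the units, so no unit rank enters) bounds the `p`-rank of `Cl(L B_n)`; then `N_STEP`.

`J L`, `prin`, `ext`: `Pool/Agent/RI/Defs.lean`. `ng g q x = ∏_{i < q} g^i x`, `dg g x = x / g x`, `CycExt`:
`Pool/Agent/RID/Defs.lean`. `PI L`, `rkp p L`, `N_AMBA`, `N_AMBI`, `N_NILR`, `N_STEP`:
`Pool/Agent/MU3/NStmts.lean` (helper3). Facts on `L / K` cyclic: `S_CYC` (proved: `t_CYC` in
`Pool/Agent/RID/P_CYC.lean`), used with `F = K`.

Every `def P_X : Prop` is the statement of a module, proved as `theorem p_X : ... → P_X`.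
-/

open NumberField Finset IsDedekindDomain
open scoped nonZeroDivisors Pointwise

namespace MU3

open _root_.Pool.Agent.RI _root_.Pool.Agent.RID

/-- the units of `L`, as a subgroup of `Lˣ` -/
noncomputable abbrev UE (L : Type) [Field L] [NumberField L] : Subgroup Lˣ :=
  (prin : Lˣ →* J L).ker

/-- `F` is totally complex -/
def TotCx (F : Type) [Field F] : Prop := ∀ φ : F →+* ℂ, ∃ x : F, (starRingEnd ℂ) (φ x) ≠ φ x

/-! ## Chevalley's inequality -/

/-- HQE: the Herbrand quotient of the unit group in an extension unramified at infinity,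
`q |H⁰| = |H¹|`.

Proof (from `S_HERBQ` = `t_HERBQ` of `Pool/Agent/RID/P_HERBQ.lean` and its hypotheses, `S_RK1`, `S_RK2`, `S_RK3`, `S_CYC`,
all proved in `Pool/Agent/RID`; they may be used as hypotheses). `A = Lˣ × Multiplicative ℤ` with the trivial action of
`L ≃ₐ[K] L` on the second factor (local instance `MulDistribMulAction`, `smul _ x = x`; then `Prod.mulDistribMulAction`),
`E' = E.prod ⊤`, `E = UE L`, `q = p ^ a`. `E' ⊓ (dg (g ^ p^i)).ker = (E ⊓ (dg (g ^ p^i)).ker).prod ⊤` and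
`E ⊓ (dg (g^(p^i))).ker = WU [] N (zpowers (g^(p^i)))` (`l = []`, any `N`), so its rank plus one is by RK1
the number of orbits of `⟨g^(p^i)⟩` on the infinite places of `L`, which is `p^i` times the number of
orbits of `⟨g⟩` (RK2 with `H = ⊥`, `X = InfinitePlace L`; freeness: the last part of CYC). So the ranks of
`E' ⊓ ..` (rank of the product with `ℤ`: add one) satisfy the hypothesis of HERBQ. FG: RK3 or the
finite generation of the unit group (`Pool/Agent/RI/RKU.lean`). Result: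
`[B₀' : N₀'] = [Z₁' : B₁'] ≠ 0` for `E'`. Here `E'.map (ng g q) = (E.map (ng g q)).prod (q ℤ)`,
`E' ⊓ (dg g).ker = (E ⊓ (dg g).ker).prod ⊤`, index `[B₀ : N₀] q`; `E'.map (dg g) = (E.map (dg g)).prod ⊥`,
`E' ⊓ (ng g q).ker = (E ⊓ (ng g q).ker).prod ⊥` (`q z = 0` in `ℤ`), index `[Z₁ : B₁]`. -/
def P_HQE : Prop := ∀ (p a : ℕ) [Fact p.Prime] (K L : Type) [Field K] [NumberField K] [Field L]
    [NumberField L] [Algebra K L] (g : L ≃ₐ[K] L), CycExt K K L g (p ^ a) →
    Nat.card (InfinitePlace L) = p ^ a * Nat.card (InfinitePlace K) →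
    ((UE L).map (dg g)).relIndex (UE L ⊓ (ng g (p ^ a)).ker) ≠ 0 ∧
    ((UE L).map (ng g (p ^ a))).relIndex (UE L ⊓ (dg g).ker) * p ^ a =
      ((UE L).map (dg g)).relIndex (UE L ⊓ (ng g (p ^ a)).ker)

/-- H1P: principal ideals fixed by `g`, modulo principal ideals of `K`: `H¹` of the units.

Proof (S_CYC). `q = p ^ a` or any `q` with `CycExt`. `X = {x ∈ Lˣ | g (prin x) = prin x}`. The homomorphism
`x ↦ dg g x` maps `X` onto `Z₁ = UE L ⊓ (ng g q).ker` (into: `prin (x / g x) = 1`, telescoping and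
`g ^ q = 1`; onto: Hilbert 90). `x` with `dg g x ∈ (UE L).map (dg g)` are the products `u c`, `u ∈ UE L`, `c`
fixed by `g`, i.e. `c` in the image of `Kˣ`. `prin` maps `X` onto `PI L ⊓ (dg g).ker` with kernel `UE L`, and
the subgroup of the `u c` onto `(PI K).map (ext K L)` (`ext_prin`). So both indices are the index in
`X` of the subgroup `{u c}` (`Subgroup.relIndex_comap`, `relIndex_map`, third isomorphism theorem; both
kernels are contained in the subgroup). -/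
def P_H1P : Prop := ∀ (q : ℕ) (K L : Type) [Field K] [NumberField K] [Field L]
    [NumberField L] [Algebra K L] (g : L ≃ₐ[K] L), CycExt K K L g q →
    ((PI K).map (ext K L)).relIndex (PI L ⊓ (dg g).ker) =
      ((UE L).map (dg g)).relIndex (UE L ⊓ (ng g q).ker)

/-- CHEV: Chevalley's inequality for ambiguous classes.

Proof (from N_AMBA, N_AMBI, P_HQE, P_H1P, S_CYC). `P = PI L`, `U = P.comap (dg g)`, `U₀ = P ⊔ (dg g).ker`, `q = p ^ a`.
N_AMBA with `A = Lˣ`, `I = J L`, `dv = prin` (`smul_prin`, Hilbert 90 from CYC): `[U : U₀]` divides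
`h₀ = [B₀ : N₀]`, `N₀ = (UE L).map (ng g q)`, `B₀ = UE L ⊓ (dg g).ker`. `[U₀ : P] = [V : P ⊓ V]`, `V = (dg g).ker`. With
`W = (PI K).map (ext K L) ≤ P ⊓ V`: `[V : P ⊓ V] [P ⊓ V : W] = [V : W] = [V : X] [X : W]`, `X = (ext K L).range ≤ V`,
`[X : W] = [J K : PI K] = h(K)` (`ext_injective`, `CL.classNumber_eq`), `[V : X] ≤ q ^ S.card`, not `0` (AMBI).
`[P ⊓ V : W] = h₁ := [Z₁ : B₁]` (H1P), `h₁ = h₀ q ≠ 0` (HQE). So
`v_p [U : P] ≤ v_p h₀ + v_p [V : X] + v_p h(K) - v_p h₁ ≤ a S.card + v_p h(K) - a`. Finiteness: `CL.finite_quot`. -/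
def P_CHEV : Prop := ∀ (p a : ℕ) [Fact p.Prime] (K L : Type) [Field K] [NumberField K] [Field L]
    [NumberField L] [Algebra K L] (g : L ≃ₐ[K] L), CycExt K K L g (p ^ a) →
    Nat.card (InfinitePlace L) = p ^ a * Nat.card (InfinitePlace K) →
    ∀ S : Finset (HeightOneSpectrum (𝓞 K)),
    (∀ w : HeightOneSpectrum (𝓞 L), w.asIdeal.ramificationIdx (𝓞 K) ≠ 1 →
      ∃ v ∈ S, w.asIdeal.under (𝓞 K) = v.asIdeal) →
    padicValNat p ((PI L).relIndex ((PI L).comap (dg g))) ≤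
      padicValNat p (NumberField.classNumber K) + a * S.card

/-- RKA: an automorphism `g` with `g ^ p = 1`: the rank of the class group is at most `p` times the
`p`-exponent of the number of ambiguous classes.

Proof (from N_NILR with `l = p`, `F = K`). For `b : J L`: `(dg g)^[p] b` is a `p`-th power: in the commutative ring of
endomorphisms generated by `γ` (action of `g` on `Additive (J L)`) `(1 - γ)^p = 1 + (-1)^p γ^p + p h(γ)`
(`(Commute.all ..).add_pow`, `exists_add_pow_prime_eq` : `∃ r, (x + y)^p = x^p + y^p + p * r`), and `γ^p = 1`; for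
odd `p` this is `p h(γ)`, for `p = 2` it is `2 + 2 h(γ)`. -/
def P_RKA : Prop := ∀ (p : ℕ) [Fact p.Prime] (K L : Type) [Field K] [Field L]
    [NumberField L] [Algebra K L] (g : L ≃ₐ[K] L), g ^ p = 1 →
    rkp p L ≤ p * padicValNat p ((PI L).relIndex ((PI L).comap (dg g)))

/-! ## Numbers of primes -/

/-- NPC: the number of primes above a prime number `ℓ` in `ℚ(ζ_(p^m))` is bounded in `m`.

Proof. `ℓ = p`: one prime (or use `e`). `ℓ ≠ p`: `#(primes) f = φ(p^m)`, `f` = the order of `ℓ` modulo `p^m`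
(Mathlib: `Mathlib/NumberTheory/NumberField/Cyclotomic/Ideal.lean`, for instance
`IsCyclotomicExtension.Rat.inertiaDeg_eq_of_not_dvd`; or: the residue field of a prime of degree `f` contains
`p^m` different roots of unity, so `p^m ∣ ℓ^f - 1`). Let `c ≥ 2` with `p^c ∤ ℓ^(p(p-1)) - 1` (exists,
`ℓ^(p(p-1)) - 1 ≠ 0`). If `p^m ∣ ℓ^f - 1` then `p^m ∣ M^f - 1`, `M = ℓ^(p(p-1))`, `M ≡ 1` modulo `p^2`, so by lifting
the exponent (`Nat.emultiplicity_pow_sub_pow`/`padicValNat.pow_sub_pow`, for `p = 2`: `4 ∣ M - 1`,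
`Int.two_pow_sub_pow`) `v_p(M^f - 1) = v_p(M - 1) + v_p(f) < c + v_p(f)`, so `p^(m - c) ≤ f`. The number of
primes is at most `φ(p^m)/p^(m-c) ≤ p^c`. -/
def P_NPC : Prop := ∀ (p ℓ : ℕ) [Fact p.Prime], ℓ.Prime → ∃ t : ℕ, ∀ m : ℕ,
    ∀ (C : Type) [Field C] [NumberField C] [IsCyclotomicExtension {p ^ m} ℚ C],
    Nat.card {v : HeightOneSpectrum (𝓞 C) // (ℓ : 𝓞 C) ∈ v.asIdeal} ≤ t

/-- NPL: the number of primes above `ℓ` in `F B_n` is bounded in `n`.

Proof (from NPC). Let `B = B n ≤ ℚ(ζ)`, `ζ` of order `p^m` (`IsLayer`); every prime of `B` has a prime of `ℚ(ζ)` above it, so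
`B` has at most `t₀` primes above `ℓ`. `B / ℚ` is Galois (`LAY_thm`), so `g e f = p^n` with `g ≤ t₀` and the same `e f`
for all primes. Let `L = F B_n`, `[L : ℚ] ≤ [F : ℚ] p^n`. For a prime `w` of `L` above `ℓ`:
`e(w) f(w) ≥ e f` (multiplicativity in the tower), `∑_w e(w) f(w) = [L : ℚ]`
(`Ideal.sum_ramification_inertia`), so `#{w} e f ≤ [F : ℚ] p^n = [F : ℚ] g e f`, `#{w} ≤ [F : ℚ] t₀`.
Alternatively: bound the number of primes of `B`-conjugacy: the fibres of `{w} → {primes of B}` have at most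
`[L : B] ≤ [F : ℚ]` elements (`∑ e f = [L : B]` over each prime of `B`): shorter, no Galois theory. -/
def P_NPL : Prop := ∀ (p ℓ : ℕ) [Fact p.Prime] (F : IntermediateField ℚ ℂ)
    [FiniteDimensional ℚ F] (B : ℕ → IntermediateField ℚ ℂ), ℓ.Prime → (∀ n, IsLayer p n (B n)) →
    ∃ t : ℕ, ∀ n, ∀ _ : FiniteDimensional ℚ ↥(F ⊔ B n),
      Nat.card {v : HeightOneSpectrum (𝓞 ↥(F ⊔ B n)) // (ℓ : 𝓞 ↥(F ⊔ B n)) ∈ v.asIdeal} ≤ t ∧
      Finite {v : HeightOneSpectrum (𝓞 ↥(F ⊔ B n)) // (ℓ : 𝓞 ↥(F ⊔ B n)) ∈ v.asIdeal}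

/-- BAD: finitely many rational primes ramify.

Proof. The primes `w` of `L` with ramification index `≠ 1` over `K` divide the different ideal of `𝓞 L / 𝓞 K`
(Mathlib: `dvd_differentIdeal_iff`, `not_dvd_differentIdeal_iff`: unramified; unramified implies
`ramificationIdx = 1`), which is not zero, so there are finitely many; every such `w` contains a prime
number (`w` contains a nonzero integer, `Ideal.absNorm_mem`). Or: `L = K(α)`, `α` integral, `w` unramified if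
`w` does not contain the derivative of the minimal polynomial at `α`. -/
def P_BAD : Prop := ∀ (K L : Type) [Field K] [NumberField K] [Field L] [NumberField L]
    [Algebra K L], ∃ T : Finset ℕ, (∀ ℓ ∈ T, ℓ.Prime) ∧ ∀ w : HeightOneSpectrum (𝓞 L),
      w.asIdeal.ramificationIdx (𝓞 K) ≠ 1 → ∃ ℓ ∈ T, (ℓ : 𝓞 L) ∈ w.asIdeal

/-! ## The tower -/

/-- RKE: the rank of the class group of `L B_n`, `L / F` Galois of degree `p`.

Proof (from P_CHEV, P_RKA, P_NPL, P_BAD, `BCH_thm`, `RAMB_thm`, `INF_thm` of `Pool/Agent/RI`). `T` = P_BAD for `F ⊆ L`,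
`t = ∑_{ℓ ∈ T} t_ℓ + 1` (P_NPL). Fix `n`, `F' = F B_n ⊆ L' = L B_n`. `L' = F' L` is Galois over `F'` of degree `1` or `p` (it
divides `[L : F]`, `BCH_thm`). Degree `1`: `L' = F'`, and `rkp p L' ≤ v_p h(L')` (the number of classes killed by `p`
divides `h`). Degree `p`: the group is cyclic, `g` a generator, `CycExt F' F' L' g p`. Infinite places: `INF_thm` with
`S = Set.univ`, the hypothesis is empty because `F' ⊇ F` is totally complex. `S` = the primes of `F'` which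
contain some `ℓ ∈ T` (a `Finset` with at most `t` elements): a prime `w` of `L'` ramified over `F'` has
`w ∩ L` ramified over `F` (`RAMB` with `F, F', L, L'`), so it contains some `ℓ ∈ T`. P_CHEV with `a = 1` and
P_RKA. -/
def P_RKE : Prop := ∀ (p : ℕ) [Fact p.Prime] (F L : IntermediateField ℚ ℂ)
    [FiniteDimensional ℚ L] (B : ℕ → IntermediateField ℚ ℂ) (h : F ≤ L),
    IsGalois F (IntermediateField.extendScalars h) →
    Module.finrank F (IntermediateField.extendScalars h) = p → TotCx F →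
    (∀ n, IsLayer p n (B n)) → ∃ t : ℕ, ∀ n, ∀ _ : FiniteDimensional ℚ ↥(L ⊔ B n),
      rkp p ↥(L ⊔ B n) ≤ p * (padicValNat p (classNo (F ⊔ B n)) + t)

/-- TOW: Galois theory of the layers of `L` (no condition on the degree of `L`).

Proof (from `S_LAYC`, `BCH_thm`, `LAY_thm`). `G = Gal(L B_(n+1) / L)` embeds by restriction into
`Gal(B_(n+1) / ℚ)`, cyclic of order `p^(n+1)`; so it is cyclic, of order `p^j`, and `p^(n+1) ≤ p^j [L : ℚ]` because
`p^(n+1) = [B_(n+1) : ℚ] ≤ [L B_(n+1) : ℚ] = p^j [L : ℚ]`. `[L B_(n+1) : L B_n]` divides `[B_(n+1) : B_n] = p`. If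
`j = 0`: `m = 0`, `g = 1`, all fields are equal. If `j = m + 1`: `g` a generator; if `L B_(n+1) ≠ L B_n` then
`Gal(L B_(n+1) / L B_n)` is the subgroup of order `p` of `G`, generated by `g ^ (p ^ m)`, and its fixed field is
`L B_n`. -/
def P_TOW : Prop := ∀ (p : ℕ) [Fact p.Prime] (L : IntermediateField ℚ ℂ)
    [FiniteDimensional ℚ L] (B : ℕ → IntermediateField ℚ ℂ), (∀ n, IsLayer p n (B n)) →
    Monotone B → ∀ (n : ℕ) (h : L ≤ L ⊔ B (n + 1)) (h' : L ⊔ B n ≤ L ⊔ B (n + 1)),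
    letI := algC h
    letI := algC h'
    ∃ m : ℕ, p ^ n ≤ p ^ m * Module.finrank ℚ L ∧
      ∃ g : ↥(L ⊔ B (n + 1)) ≃ₐ[L] ↥(L ⊔ B (n + 1)), g ^ (p ^ (m + 1)) = 1 ∧
        (L ⊔ B (n + 1) = L ⊔ B n ∨ CycExt L ↥(L ⊔ B n) ↥(L ⊔ B (n + 1)) (g ^ (p ^ m)) p)

/-- LST: one step of the tower over `L`.

Proof (from N_STEP, P_TOW). `m`, `g` from TOW. If the two fields are equal the class numbers are equal
(substitute). Otherwise `rkp [L : ℚ] < p^n (p - 1) ≤ p^m [L : ℚ] (p - 1)`, so `rkp < p^m (p - 1)` and N_STEP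
applies with `F = L`, `M = L ⊔ B n`, `L = L ⊔ B (n+1)` (`towerC`). -/
def P_LST : Prop := ∀ (p : ℕ) [Fact p.Prime] (L : IntermediateField ℚ ℂ)
    [FiniteDimensional ℚ L] (B : ℕ → IntermediateField ℚ ℂ)
    [∀ n, FiniteDimensional ℚ ↥(L ⊔ B n)], (∀ n, IsLayer p n (B n)) →
    Monotone B → ∀ n : ℕ, rkp p ↥(L ⊔ B (n + 1)) * Module.finrank ℚ L < p ^ n * (p - 1) →
    padicValNat p (classNo (L ⊔ B (n + 1))) ≤
      padicValNat p (classNo (L ⊔ B n)) + rkp p ↥(L ⊔ B (n + 1))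

/-- REC: summation. Compare N_NUM.

Proof. `C (n + 2)^k D < p^n (p - 1)` for all `n ≥ n₁` (`2^n` outgrows every polynomial). For `n ≥ n₁`
`v n ≤ v n₁ + ∑_{n₁ ≤ m < n} C (m + 2)^k ≤ v n₁ + n C (n + 1)^k`. `C' = C + ∑_{m ≤ n₁} v m`. -/
def P_REC : Prop := ∀ (p D C k : ℕ) [Fact p.Prime] (v r : ℕ → ℕ),
    (∀ n, r n ≤ C * (n + 1) ^ k) →
    (∀ n, r (n + 1) * D < p ^ n * (p - 1) → v (n + 1) ≤ v n + r (n + 1)) →
    ∃ C' : ℕ, ∀ n, v n ≤ C' * (n + 1) ^ (k + 1)

/-- ONE: an extension of degree `p`.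

Proof (from P_RKE, P_LST, P_REC). `r n = rkp p (L B_n) ≤ p (C (n+1)^k + t) ≤ p (C + t) (n + 1)^k`. -/
def P_ONE : Prop := ∀ (p : ℕ) [Fact p.Prime] (F L : IntermediateField ℚ ℂ)
    [FiniteDimensional ℚ L] (B : ℕ → IntermediateField ℚ ℂ) (h : F ≤ L),
    IsGalois F (IntermediateField.extendScalars h) →
    Module.finrank F (IntermediateField.extendScalars h) = p → TotCx F →
    (∀ n, IsLayer p n (B n)) → Monotone B →
    (∃ C k : ℕ, ∀ n, padicValNat p (classNo (F ⊔ B n)) ≤ C * (n + 1) ^ k) →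
    ∃ C k : ℕ, ∀ n, padicValNat p (classNo (L ⊔ B n)) ≤ C * (n + 1) ^ k

/-- PEX: Galois extensions of `p`-power degree.

Proof (from P_ONE, `CHIEF_thm` of `Pool/Agent/RI/CHIEF.lean`). Induction on `a`. `a = 0`: `L = F`. `a + 1`:
CHIEF gives `F ≤ M' ≤ L`, `M' / F` Galois of degree `p^a`, `[L : M'] = p`; `L / M'` is Galois
(`IsGalois.tower_top`, see `isGalois_algC`), `M'` is totally complex as it contains `F`. -/
def P_PEX : Prop := ∀ (p a : ℕ) [Fact p.Prime] (F L : IntermediateField ℚ ℂ)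
    [FiniteDimensional ℚ L] (B : ℕ → IntermediateField ℚ ℂ) (h : F ≤ L),
    IsGalois F (IntermediateField.extendScalars h) →
    Module.finrank F (IntermediateField.extendScalars h) = p ^ a → TotCx F →
    (∀ n, IsLayer p n (B n)) → Monotone B →
    (∃ C k : ℕ, ∀ n, padicValNat p (classNo (F ⊔ B n)) ≤ C * (n + 1) ^ k) →
    ∃ C k : ℕ, ∀ n, padicValNat p (classNo (L ⊔ B n)) ≤ C * (n + 1) ^ k

/-- SYL: the fixed field of the Sylow `p`-subgroup of an abelian Galois group.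

Proof. `E = extendScalars h`, `G = Gal(E / k)` commutative, `P` a Sylow `p`-subgroup (normal), `F'` its fixed
field (`IntermediateField k E`), `F` = the image in `ℂ` as an intermediate field of `ℂ / ℚ`
(see the proof of `CHIEF_thm` in `Pool/Agent/RI/CHIEF.lean` for this translation). `[F : k] = [G : P]` is prime
to `p`, `[K : F] = |P|`. -/
def P_SYL : Prop := ∀ (p : ℕ) [Fact p.Prime] (k K : IntermediateField ℚ ℂ)
    [FiniteDimensional ℚ K] (h : k ≤ K), IsGalois k (IntermediateField.extendScalars h) →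
    (∀ a b : (IntermediateField.extendScalars h) ≃ₐ[k] (IntermediateField.extendScalars h),
      a * b = b * a) →
    ∃ (F : IntermediateField ℚ ℂ) (h₁ : k ≤ F) (h₂ : F ≤ K),
      IsGalois k (IntermediateField.extendScalars h₁) ∧
      ¬ p ∣ Module.finrank k (IntermediateField.extendScalars h₁) ∧
      IsGalois F (IntermediateField.extendScalars h₂) ∧
      ∃ a : ℕ, Module.finrank F (IntermediateField.extendScalars h₂) = p ^ a

end MU3


end

section

/-!
# MU3, module BAD: finitely many rational primes ramify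
-/

open NumberField Finset IsDedekindDomain
open scoped nonZeroDivisors Pointwise

namespace MU3

open _root_.Pool.Agent.RI _root_.Pool.Agent.RID

/-- a prime ideal which contains a natural number `N ≠ 0` contains a prime factor of `N` -/
theorem exists_prime_mem_of_natCast_mem {R : Type*} [CommRing R] (P : Ideal R) [hP : P.IsPrime]
    (N : ℕ) (hN : N ≠ 0) (h : (N : R) ∈ P) : ∃ ℓ : ℕ, ℓ ∈ N.primeFactors ∧ (ℓ : R) ∈ P := by
  induction N using induction_on_primes with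
  | zero => exact absurd rfl hN
  | one =>
    exact absurd ((Ideal.eq_top_iff_one P).2 (by simpa using h)) hP.ne_top
  | prime_mul p a hp ih =>
    have ha : a ≠ 0 := by
      rintro rfl
      exact hN (mul_zero p)
    rw [Nat.cast_mul] at h
    rcases hP.mem_or_mem h with h1 | h1
    · exact ⟨p, by simp [Nat.mem_primeFactors, hp, hp.ne_zero, ha], h1⟩
    · obtain ⟨ℓ, h2, h3⟩ := ih ha h1
      refine ⟨ℓ, ?_, h3⟩
      rw [Nat.mem_primeFactors] at h2 ⊢
      exact ⟨h2.1, h2.2.1.mul_left p, hN⟩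

theorem p_BAD : P_BAD := by
  intro K L _ _ _ _ _
  have h0 : differentIdeal (𝓞 K) (𝓞 L) ≠ ⊥ := differentIdeal_ne_bot
  have hN : Ideal.absNorm (differentIdeal (𝓞 K) (𝓞 L)) ≠ 0 := by
    rw [Ne, Ideal.absNorm_eq_zero_iff]
    exact h0
  refine ⟨(Ideal.absNorm (differentIdeal (𝓞 K) (𝓞 L))).primeFactors,
    fun ℓ hℓ => Nat.prime_of_mem_primeFactors hℓ, ?_⟩
  intro w hw
  have : w.asIdeal.IsPrime := w.isPrime
  have h1 : w.asIdeal ∣ differentIdeal (𝓞 K) (𝓞 L) := by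
    rw [dvd_differentIdeal_iff]
    intro h2
    exact hw (Ideal.ramificationIdx_eq_one w.asIdeal (𝓞 K))
  have h2 : ((Ideal.absNorm (differentIdeal (𝓞 K) (𝓞 L)) : ℕ) : 𝓞 L) ∈ w.asIdeal :=
    Ideal.le_of_dvd h1 (Ideal.absNorm_mem _)
  exact exists_prime_mem_of_natCast_mem w.asIdeal _ hN h2

end MU3


end

section

/-!
# MU3, block D: Kummer extensions, `Stmt_KUM`
-/

open NumberField IsDedekindDomain Ideal Filter Topology
open scoped nonZeroDivisors Pointwise

namespace Pool.Agent.MU3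

namespace KUM

variable {L M : Type} [Field L] [NumberField L] [Field M] [NumberField M] [Algebra L M]
  [IsGalois L M]

/-- a conjugate of `y` is `ζ ^ j y` -/
theorem conj_eq {ζ t : 𝓞 L} (hζ : IsPrimitiveRoot ζ 3) {y : 𝓞 M}
    (hy : y ^ 3 = algebraMap (𝓞 L) (𝓞 M) t) {σ : Gal(M/L)} (hσ : σ • y ≠ y) :
    ∃ ξ : 𝓞 L, (ξ = ζ ∨ ξ = ζ ^ 2) ∧ σ • y = algebraMap (𝓞 L) (𝓞 M) ξ * y := by
  have h1 : (σ • y) ^ 3 = y ^ 3 := by
    rw [← smul_pow', hy, smul_algebraMap]
  have h2 : ζ ^ 2 + ζ + 1 = 0 := by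
    have h3 := hζ.geom_sum_eq_zero (by norm_num : 1 < 3)
    simp only [Finset.sum_range_succ, Finset.sum_range_zero] at h3
    linear_combination h3
  have h3 : (algebraMap (𝓞 L) (𝓞 M) ζ) ^ 2 + algebraMap (𝓞 L) (𝓞 M) ζ + 1 = 0 := by
    rw [← map_pow, ← map_add, ← map_one (algebraMap (𝓞 L) (𝓞 M)), ← map_add, h2, map_zero]
  set z := algebraMap (𝓞 L) (𝓞 M) ζ with hz
  have h4 : (σ • y - y) * ((σ • y - z * y) * (σ • y - z ^ 2 * y)) = 0 := by
    linear_combination h1 + (σ • y * y ^ 2 * z + y ^ 3 * (1 - z) - (σ • y) ^ 2 * y) * h3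
  rcases mul_eq_zero.1 h4 with h5 | h5
  · exact absurd (sub_eq_zero.1 h5) hσ
  · rcases mul_eq_zero.1 h5 with h6 | h6
    · exact ⟨ζ, Or.inl rfl, sub_eq_zero.1 h6⟩
    · exact ⟨ζ ^ 2, Or.inr rfl, by rw [map_pow]; exact sub_eq_zero.1 h6⟩

/-- No prime above `v` is stable under `σ`. -/
theorem not_stable {ζ t : 𝓞 L} (hζ : IsPrimitiveRoot ζ 3) {y : 𝓞 M}
    (hy : y ^ 3 = algebraMap (𝓞 L) (𝓞 M) t) {σ : Gal(M/L)} (hσ : σ • y ≠ y)
    {v : Ideal (𝓞 L)} (hv : v.IsPrime) (h3 : (3 : 𝓞 L) ∉ v) (ht : t ∉ v) {a : 𝓞 L}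
    (ha : t - a ^ 3 ∈ v) {w : Ideal (𝓞 M)} (hw : w.IsPrime) (hwv : w.LiesOver v) :
    σ • w ≠ w := by
  intro hst
  have hav : a ∉ v := by
    intro h
    apply ht
    have : t = (t - a ^ 3) + a * a ^ 2 := by ring
    rw [this]
    exact v.add_mem ha (v.mul_mem_right _ h)
  have h2 : ζ ^ 2 + ζ + 1 = 0 := by
    have h3 := hζ.geom_sum_eq_zero (by norm_num : 1 < 3)
    simp only [Finset.sum_range_succ, Finset.sum_range_zero] at h3
    linear_combination h3
  have h3' : (algebraMap (𝓞 L) (𝓞 M) ζ) ^ 2 + algebraMap (𝓞 L) (𝓞 M) ζ + 1 = 0 := by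
    rw [← map_pow, ← map_add, ← map_one (algebraMap (𝓞 L) (𝓞 M)), ← map_add, h2, map_zero]
  -- `w` contains a factor
  have hmem : ∀ b : 𝓞 L, algebraMap (𝓞 L) (𝓞 M) b ∈ w ↔ b ∈ v := by
    intro b
    rw [hwv.over]
    exact Iff.rfl
  have hfac : ∃ i : ℕ, y - algebraMap (𝓞 L) (𝓞 M) (ζ ^ i * a) ∈ w := by
    have e1 : algebraMap (𝓞 L) (𝓞 M) (t - a ^ 3) ∈ w := (hmem _).2 ha
    have e2 : algebraMap (𝓞 L) (𝓞 M) (t - a ^ 3) =
        (y - algebraMap (𝓞 L) (𝓞 M) (ζ ^ 0 * a)) * ((y - algebraMap (𝓞 L) (𝓞 M) (ζ ^ 1 * a)) *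
          (y - algebraMap (𝓞 L) (𝓞 M) (ζ ^ 2 * a))) := by
      rw [map_sub, ← hy]
      simp only [map_mul, map_pow]
      set z := algebraMap (𝓞 L) (𝓞 M) ζ with hz
      set b := algebraMap (𝓞 L) (𝓞 M) a with hb
      linear_combination (y ^ 2 * b - y * b ^ 2 * z + b ^ 3 * (z - 1)) * h3'
    rw [e2] at e1
    rcases hw.mem_or_mem e1 with h | h
    · exact ⟨0, h⟩
    · rcases hw.mem_or_mem h with h | h
      · exact ⟨1, h⟩
      · exact ⟨2, h⟩
  obtain ⟨i, hi⟩ := hfac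
  obtain ⟨ξ, hξ, hσy⟩ := conj_eq hζ hy hσ
  have h4 : σ • (y - algebraMap (𝓞 L) (𝓞 M) (ζ ^ i * a)) ∈ w := by
    rw [← hst]
    exact Ideal.smul_mem_pointwise_smul σ _ w hi
  rw [smul_sub, smul_algebraMap, hσy] at h4
  have h5 : algebraMap (𝓞 L) (𝓞 M) ((1 - ξ) * (ζ ^ i * a)) ∈ w := by
    have e : algebraMap (𝓞 L) (𝓞 M) ((1 - ξ) * (ζ ^ i * a)) =
        algebraMap (𝓞 L) (𝓞 M) ξ * (y - algebraMap (𝓞 L) (𝓞 M) (ζ ^ i * a)) -
        (algebraMap (𝓞 L) (𝓞 M) ξ * y - algebraMap (𝓞 L) (𝓞 M) (ζ ^ i * a)) := by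
      simp only [map_mul, map_sub, map_one]
      ring
    rw [e]
    exact w.sub_mem (w.mul_mem_left _ hi) h4
  have h6 : (1 - ξ) * (ζ ^ i * a) ∈ v := (hmem _).1 h5
  have h7 : 3 * a ∈ v := by
    have e : ∃ q : 𝓞 L, 3 * a = q * ((1 - ξ) * (ζ ^ i * a)) := by
      have hζ3 : ζ ^ 3 = 1 := hζ.pow_eq_one
      have e1 : ∃ q : 𝓞 L, q * (1 - ξ) = 3 := by
        rcases hξ with h | h
        · refine ⟨1 - ζ ^ 2, ?_⟩
          rw [h]
          linear_combination hζ3 - h2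
        · refine ⟨1 - ζ, ?_⟩
          rw [h]
          linear_combination hζ3 - h2
      obtain ⟨q, hq⟩ := e1
      refine ⟨q * ζ ^ (2 * i), ?_⟩
      have e2 : ζ ^ (2 * i) * ζ ^ i = 1 := by
        rw [← pow_add, show 2 * i + i = 3 * i by ring, pow_mul, hζ3, one_pow]
      calc 3 * a = (q * (1 - ξ)) * (ζ ^ (2 * i) * ζ ^ i) * a := by rw [hq, e2]; ring
        _ = q * ζ ^ (2 * i) * ((1 - ξ) * (ζ ^ i * a)) := by ring
    obtain ⟨q, hq⟩ := e
    rw [hq]
    exact v.mul_mem_left _ h6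
  rcases hv.mem_or_mem h7 with h | h
  · exact h3 h
  · exact hav h

omit [IsGalois L M] in
/-- the relative form of the degree -/
theorem norm_of_deg_one {v : Ideal (𝓞 L)} (hv : v.IsPrime) (hv0 : v ≠ ⊥)
    {w : Ideal (𝓞 M)} (hw : w.IsPrime) (hwv : w.LiesOver v) (hd : w.inertiaDeg (𝓞 L) = 1) :
    absNorm w = absNorm v := by
  have hvm : v.IsMaximal := hv.isMaximal hv0
  have hwm : w.IsMaximal := IsMaximal.of_liesOver_isMaximal w v
  rw [absNorm_eq_pow_inertiaDeg'_of_liesOver w v hv hv0, inertiaDeg'_eq_inertiaDeg v w, hd, pow_one]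

theorem spl_ge {ζ t : 𝓞 L} (hζ : IsPrimitiveRoot ζ 3) (hcard : Nat.card Gal(M/L) = 3) {y : 𝓞 M}
    (hy : y ^ 3 = algebraMap (𝓞 L) (𝓞 M) t) {σ : Gal(M/L)} (hσ : σ • y ≠ y)
    (v : HeightOneSpectrum (𝓞 L)) (h3 : (3 : 𝓞 L) ∉ v.asIdeal) (ht : t ∉ v.asIdeal) {a : 𝓞 L}
    (ha : t - a ^ 3 ∈ v.asIdeal) : 3 ≤ spl L M v := by
  have hvp := v.isPrime
  have hvb := v.ne_bot
  have hG : Finite Gal(M/L) := Nat.finite_of_card_ne_zero (by rw [hcard]; norm_num)
  have hid := ncard_primesOver_mul_ramificationIdxIn_mul_inertiaDegIn v.asIdeal (𝓞 M) Gal(M/L)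
  rw [hcard] at hid
  obtain ⟨⟨w, hw, hwv⟩⟩ := (inferInstance : Nonempty (primesOver v.asIdeal (𝓞 M)))
  have hfin : (primesOver v.asIdeal (𝓞 M)).Finite := by
    apply Set.finite_of_ncard_ne_zero
    intro h
    rw [h] at hid
    omega
  have h2 : 1 < (primesOver v.asIdeal (𝓞 M)).ncard := by
    rw [Set.one_lt_ncard hfin]
    exact ⟨σ • w, ⟨inferInstance, inferInstance⟩, w, ⟨hw, hwv⟩,
      not_stable hζ hy hσ hvp h3 ht ha hw hwv⟩
  have h5 : (primesOver v.asIdeal (𝓞 M)).ncard = 3 ∧ inertiaDegIn v.asIdeal (𝓞 M) = 1 := by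
    have hdvd : (primesOver v.asIdeal (𝓞 M)).ncard ∣ 3 := Dvd.intro _ hid
    rcases (Nat.dvd_prime Nat.prime_three).1 hdvd with h | h
    · omega
    · refine ⟨h, ?_⟩
      rw [h] at hid
      have h6 : ramificationIdxIn v.asIdeal (𝓞 M) * inertiaDegIn v.asIdeal (𝓞 M) = 1 := by omega
      exact Nat.eq_one_of_mul_eq_one_left h6
  have hnorm : ∀ P : primesOver v.asIdeal (𝓞 M), absNorm P.1 = absNorm v.asIdeal := by
    rintro ⟨P, hP, hPv⟩
    apply norm_of_deg_one hvp hvb hP hPv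
    rw [← inertiaDegIn_eq_inertiaDeg v.asIdeal P Gal(M/L)]
    exact h5.2
  have hbot : ∀ P : primesOver v.asIdeal (𝓞 M), P.1 ≠ ⊥ := by
    intro P h
    have h6 := hnorm P
    rw [h, absNorm_bot] at h6
    exact hvb (absNorm_eq_zero_iff.1 h6.symm)
  let f : primesOver v.asIdeal (𝓞 M) → {w : HeightOneSpectrum (𝓞 M) //
      w.asIdeal.under (𝓞 L) = v.asIdeal ∧ absNorm w.asIdeal = absNorm v.asIdeal} :=
    fun P => ⟨⟨P.1, P.2.1, hbot P⟩, P.2.2.over.symm, hnorm P⟩
  have hf : Function.Bijective f := by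
    constructor
    · intro P Q h
      have h6 := congrArg (fun z => z.1.asIdeal) h
      exact Subtype.ext h6
    · rintro ⟨Q, hQ1, hQ2⟩
      exact ⟨⟨Q.asIdeal, Q.isPrime, ⟨hQ1.symm⟩⟩, rfl⟩
  unfold spl
  rw [← Nat.card_eq_of_bijective f hf]
  have h7 : Nat.card (primesOver v.asIdeal (𝓞 M)) = (primesOver v.asIdeal (𝓞 M)).ncard := rfl
  rw [h7, h5.1]

end KUM

open Polynomial in
theorem m_KUM : Stmt_KUM := by
  intro L _ _ ζ t hζ ht
  have hirr : Irreducible (X ^ 3 - C (t : L)) :=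
    X_pow_sub_C_irreducible_of_prime Nat.prime_three (fun b => ht b)
  have hfact : Fact (Irreducible (X ^ 3 - C (t : L))) := ⟨hirr⟩
  have hζL : IsPrimitiveRoot (ζ : L) 3 := hζ.map_of_injective (RingOfIntegers.coe_injective)
  have hprim : (primitiveRoots 3 L).Nonempty :=
    ⟨(ζ : L), (mem_primitiveRoots (by norm_num)).2 hζL⟩
  have hchar : CharZero (AdjoinRoot (X ^ 3 - C (t : L))) :=
    charZero_of_injective_algebraMap (algebraMap L (AdjoinRoot (X ^ 3 - C (t : L)))).injective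
  have hfd : FiniteDimensional L (AdjoinRoot (X ^ 3 - C (t : L))) :=
    (AdjoinRoot.powerBasis hirr.ne_zero).finite
  have hfdQ : FiniteDimensional ℚ (AdjoinRoot (X ^ 3 - C (t : L))) :=
    FiniteDimensional.trans ℚ L _
  have hnf : NumberField (AdjoinRoot (X ^ 3 - C (t : L))) := ⟨⟩
  have hsf := isSplittingField_AdjoinRoot_X_pow_sub_C hprim hirr
  have hgal : IsGalois L (AdjoinRoot (X ^ 3 - C (t : L))) :=
    isGalois_of_isSplittingField_X_pow_sub_C hprim hirr _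
  have hrank : Module.finrank L (AdjoinRoot (X ^ 3 - C (t : L))) = 3 :=
    finrank_of_isSplittingField_X_pow_sub_C hprim hirr _
  have hcard : Nat.card Gal((AdjoinRoot (X ^ 3 - C (t : L)))/L) = 3 := by
    rw [IsGalois.card_aut_eq_finrank, hrank]
  have hroot : (AdjoinRoot.root (X ^ 3 - C (t : L))) ^ 3 =
      algebraMap L (AdjoinRoot (X ^ 3 - C (t : L))) (t : L) := by
    have h := AdjoinRoot.eval₂_root (X ^ 3 - C (t : L))
    simp only [eval₂_sub, eval₂_pow, eval₂_X, eval₂_C] at h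
    exact sub_eq_zero.1 h
  have hint : IsIntegral ℤ (AdjoinRoot.root (X ^ 3 - C (t : L))) := by
    apply IsIntegral.of_pow (n := 3) (by norm_num)
    rw [hroot]
    exact (RingOfIntegers.isIntegral_coe t).map
      (algebraMap L (AdjoinRoot (X ^ 3 - C (t : L)))).toIntAlgHom
  obtain ⟨y, hy⟩ : ∃ y : 𝓞 (AdjoinRoot (X ^ 3 - C (t : L))),
      algebraMap (𝓞 (AdjoinRoot (X ^ 3 - C (t : L)))) (AdjoinRoot (X ^ 3 - C (t : L))) y =
        AdjoinRoot.root (X ^ 3 - C (t : L)) :=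
    ⟨⟨_, hint⟩, rfl⟩
  have hy3 : y ^ 3 = algebraMap (𝓞 L) (𝓞 (AdjoinRoot (X ^ 3 - C (t : L)))) t := by
    apply RingOfIntegers.coe_injective
    rw [map_pow, hy, hroot]
    rfl
  have hσ : ∃ σ : Gal((AdjoinRoot (X ^ 3 - C (t : L)))/L), σ • y ≠ y := by
    by_contra h
    push Not at h
    have hsub : Subsingleton Gal((AdjoinRoot (X ^ 3 - C (t : L)))/L) := by
      constructor
      intro σ τ
      apply AlgEquiv.coe_toAlgHom_injective
      apply AdjoinRoot.algHom_ext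
      have h1 := congrArg (algebraMap (𝓞 (AdjoinRoot (X ^ 3 - C (t : L))))
        (AdjoinRoot (X ^ 3 - C (t : L)))) (h σ)
      have h2 := congrArg (algebraMap (𝓞 (AdjoinRoot (X ^ 3 - C (t : L))))
        (AdjoinRoot (X ^ 3 - C (t : L)))) (h τ)
      have h3 : σ (AdjoinRoot.root (X ^ 3 - C (t : L))) = AdjoinRoot.root (X ^ 3 - C (t : L)) := by
        rw [← hy]
        exact h1
      have h4 : τ (AdjoinRoot.root (X ^ 3 - C (t : L))) = AdjoinRoot.root (X ^ 3 - C (t : L)) := by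
        rw [← hy]
        exact h2
      exact h3.trans h4.symm
    have := Nat.card_of_subsingleton (1 : Gal((AdjoinRoot (X ^ 3 - C (t : L)))/L))
    omega
  obtain ⟨σ, hσ⟩ := hσ
  refine ⟨AdjoinRoot (X ^ 3 - C (t : L)), inferInstance, hnf, inferInstance, ?_⟩
  rintro v h3 htv ⟨a, ha⟩
  exact KUM.spl_ge hζ hcard hy3 hσ v h3 htv ha

end Pool.Agent.MU3


end

section

/-!
# MU3, module NPL: the number of primes above `ℓ` in `F B_n` is bounded in `n`

`F B_n ≤ F ℚ(ζ)`: every prime of `F B_n` has a prime of `F ℚ(ζ)` above it, and a prime of `ℚ(ζ)` has at most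
`[F ℚ(ζ) : ℚ(ζ)] ≤ [F : ℚ]` primes of `F ℚ(ζ)` above it.
-/

open NumberField Finset IsDedekindDomain
open scoped nonZeroDivisors Pointwise

namespace MU3

open _root_.Pool.Agent.RI _root_.Pool.Agent.RID

namespace NPL

/-- the primes above `ℓ` -/
abbrev PR (L : Type) [Field L] (ℓ : ℕ) : Type :=
  {v : HeightOneSpectrum (𝓞 L) // (ℓ : 𝓞 L) ∈ v.asIdeal}

lemma fin (L : Type) [Field L] [NumberField L] (ℓ : ℕ) (hℓ : ℓ ≠ 0) : Finite (PR L ℓ) := by
  have h0 : Ideal.span {(ℓ : 𝓞 L)} ≠ 0 := by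
    rw [Ne, Ideal.zero_eq_bot, Ideal.span_singleton_eq_bot]
    exact_mod_cast hℓ
  have h := Ideal.finite_factors h0
  refine Set.Finite.subset h fun v hv => ?_
  show v.asIdeal ∣ Ideal.span {(ℓ : 𝓞 L)}
  rw [Ideal.dvd_span_singleton]
  exact hv

/-- the prime below -/
noncomputable def dn (K L : Type) [Field K] [NumberField K] [Field L] [NumberField L] [Algebra K L]
    (ℓ : ℕ) (w : PR L ℓ) : PR K ℓ :=
  ⟨HeightOneSpectrum.under (𝓞 K) w.1, by
    show (ℓ : 𝓞 K) ∈ w.1.asIdeal.under (𝓞 K)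
    rw [Ideal.mem_comap, map_natCast]
    exact w.2⟩

lemma dn_surj (K L : Type) [Field K] [NumberField K] [Field L] [NumberField L] [Algebra K L]
    (ℓ : ℕ) : Function.Surjective (dn K L ℓ) := by
  intro v
  have hp : v.1.asIdeal.IsPrime := v.1.isPrime
  have hmax : v.1.asIdeal.IsMaximal := v.1.isMaximal
  obtain ⟨P, hPm, hP⟩ := Ideal.exists_maximal_ideal_liesOver_of_isIntegral (S := 𝓞 L) v.1.asIdeal
  have hov : v.1.asIdeal = P.under (𝓞 K) := hP.over
  have hne : P ≠ ⊥ := by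
    intro h
    apply v.1.ne_bot
    rw [hov, h]
    exact Ideal.comap_bot_of_injective _
      (FaithfulSMul.algebraMap_injective (𝓞 K) (𝓞 L))
  have hmem : (ℓ : 𝓞 L) ∈ P := by
    have h1 : (ℓ : 𝓞 K) ∈ P.under (𝓞 K) := hov ▸ v.2
    rwa [Ideal.mem_comap, map_natCast] at h1
  refine ⟨⟨⟨P, hPm.isPrime, hne⟩, hmem⟩, ?_⟩
  apply Subtype.ext
  apply HeightOneSpectrum.ext
  exact hov.symm

lemma card_down (K L : Type) [Field K] [NumberField K] [Field L] [NumberField L] [Algebra K L]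
    (ℓ : ℕ) (hℓ : ℓ ≠ 0) : Nat.card (PR K ℓ) ≤ Nat.card (PR L ℓ) := by
  have := fin L ℓ hℓ
  exact Nat.card_le_card_of_surjective _ (dn_surj K L ℓ)

lemma card_up (K L : Type) [Field K] [NumberField K] [Field L] [NumberField L] [Algebra K L]
    (ℓ : ℕ) (hℓ : ℓ ≠ 0) :
    Nat.card (PR L ℓ) ≤ Module.finrank K L * Nat.card (PR K ℓ) := by
  classical
  have h1 := fin L ℓ hℓ
  have h2 := fin K ℓ hℓ
  have : Fintype (PR L ℓ) := Fintype.ofFinite _
  have : Fintype (PR K ℓ) := Fintype.ofFinite _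
  rw [Nat.card_eq_fintype_card, Nat.card_eq_fintype_card]
  have key := Finset.card_le_mul_card_image (f := dn K L ℓ) (Finset.univ : Finset (PR L ℓ))
    (Module.finrank K L) (fun v _ => by
      have hmax : v.1.asIdeal.IsMaximal := v.1.isMaximal
      have hnz : NoZeroSMulDivisors (𝓞 K) (𝓞 L) := ⟨fun {a b} h => by
        rw [Algebra.smul_def, mul_eq_zero] at h
        rcases h with h | h
        · exact Or.inl ((FaithfulSMul.algebraMap_injective (𝓞 K) (𝓞 L)) (by rw [h, map_zero]))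
        · exact Or.inr h⟩
      have hle := Ideal.card_primesOverFinset_le_finrank (R := 𝓞 K) (S := 𝓞 L) K L
        (p := v.1.asIdeal) v.1.ne_bot
      refine le_trans ?_ hle
      refine Finset.card_le_card_of_injOn (fun w : PR L ℓ => w.1.asIdeal) ?_ ?_
      · intro w hw
        have hw' : dn K L ℓ w = v := (Finset.mem_filter.1 hw).2
        refine (IsDedekindDomain.mem_primesOverFinset_iff v.1.ne_bot _).2 ⟨w.1.isPrime, ⟨?_⟩⟩
        rw [← hw']
        rfl
      · intro w _ w' _ h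
        exact Subtype.ext (HeightOneSpectrum.ext h))
  refine le_trans key (Nat.mul_le_mul_left _ ?_)
  exact Finset.card_le_univ _

lemma cyc (p m : ℕ) [hp : Fact p.Prime] :
    IsCyclotomicExtension {p ^ m} ℚ
      ↥(IntermediateField.adjoin ℚ {z : ℂ | z ^ (p ^ m) = 1}) := by
  have hN : p ^ m ≠ 0 := pow_ne_zero m hp.out.ne_zero
  have h := IntermediateField.isCyclotomicExtension_adjoin_of_exists_isPrimitiveRoot
    ({p ^ m} : Set ℕ) ℚ ℂ (fun n hn _ => by
      rw [Set.mem_singleton_iff] at hn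
      rw [hn]
      exact ⟨_, Complex.isPrimitiveRoot_exp _ hN⟩)
  have hset : {x : ℂ | ∃ n ∈ ({p ^ m} : Set ℕ), n ≠ 0 ∧ x ^ n = 1} =
      {z : ℂ | z ^ (p ^ m) = 1} := by
    ext x
    simp [hp.out.ne_zero]
  rw [hset] at h
  exact h

end NPL

open _root_.MU3.NPL in
/-- The number of primes above `ℓ` in `F B_n` is bounded in `n`. -/
theorem p_NPL (h1 : P_NPC) : P_NPL := by
  intro p ℓ hp F hF B hℓ hB
  obtain ⟨t₀, ht₀⟩ := h1 p ℓ hℓ
  refine ⟨Module.finrank ℚ F * t₀, fun n hfd => ?_⟩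
  have hℓ0 : ℓ ≠ 0 := hℓ.ne_zero
  have nfK : NumberField ↥(F ⊔ B n) := { to_charZero := inferInstance, to_finiteDimensional := hfd }
  refine ⟨?_, fin _ ℓ hℓ0⟩
  obtain ⟨-, -, m, hle⟩ := hB n
  set C : IntermediateField ℚ ℂ := IntermediateField.adjoin ℚ {z : ℂ | z ^ (p ^ m) = 1} with hC
  have hcyc : IsCyclotomicExtension {p ^ m} ℚ ↥C := cyc p m
  have hN : p ^ m ≠ 0 := pow_ne_zero m hp.out.ne_zero
  have : NeZero (p ^ m) := ⟨hN⟩
  have hfC : FiniteDimensional ℚ ↥C := IsCyclotomicExtension.finiteDimensional {p ^ m} ℚ ↥C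
  have nfC : NumberField ↥C := { to_charZero := inferInstance, to_finiteDimensional := hfC }
  have hfM : FiniteDimensional ℚ ↥(F ⊔ C) := IntermediateField.finiteDimensional_sup F C
  have nfM : NumberField ↥(F ⊔ C) := { to_charZero := inferInstance, to_finiteDimensional := hfM }
  have hKM : F ⊔ B n ≤ F ⊔ C := sup_le_sup_left hle F
  have hCM : C ≤ F ⊔ C := le_sup_right
  have h2 : Nat.card (PR ↥(F ⊔ B n) ℓ) ≤ Nat.card (PR ↥(F ⊔ C) ℓ) := by
    let _ := algC hKM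
    exact card_down _ _ ℓ hℓ0
  have h3 : Nat.card (PR ↥(F ⊔ C) ℓ) ≤ Module.finrank ℚ F * Nat.card (PR ↥C ℓ) := by
    let _ := algC hCM
    refine le_trans (card_up ↥C ↥(F ⊔ C) ℓ hℓ0) (Nat.mul_le_mul_right _ ?_)
    have h4 : Module.finrank ℚ ↥C * Module.finrank ↥C ↥(F ⊔ C) = Module.finrank ℚ ↥(F ⊔ C) :=
      Pool.Agent.FX.fmul ℚ ↥C ↥(F ⊔ C)
    have h5 : Module.finrank ℚ ↥(F ⊔ C) ≤ Module.finrank ℚ ↥F * Module.finrank ℚ ↥C :=
      IntermediateField.finrank_sup_le F C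
    have h6 : 0 < Module.finrank ℚ ↥C := Module.finrank_pos
    have h7 : Module.finrank ℚ ↥C * Module.finrank ↥C ↥(F ⊔ C) ≤
        Module.finrank ℚ ↥C * Module.finrank ℚ ↥F := by
      rw [h4, mul_comm (Module.finrank ℚ ↥C)]; exact h5
    exact Nat.le_of_mul_le_mul_left h7 h6
  exact le_trans h2 (le_trans h3 (Nat.mul_le_mul_left _ (ht₀ m ↥C)))

end MU3


end

section

/-!
# MU3, block P: module REC
-/

open NumberField Finset IsDedekindDomain
open scoped nonZeroDivisors Pointwise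

namespace MU3

open _root_.Pool.Agent.RI _root_.Pool.Agent.RID

namespace PX_REC

/-- `2 ^ n` outgrows every polynomial. -/
lemma grow (A k : ℕ) : ∃ n₁ : ℕ, ∀ n, n₁ ≤ n → A * (n + 2) ^ k < 2 ^ n := by
  have h1 := tendsto_pow_const_div_const_pow_of_one_lt k (r := (2 : ℝ)) (by norm_num)
  have h2 : ∀ᶠ n : ℕ in Filter.atTop, (n : ℝ) ^ k / 2 ^ n < 1 / (4 * (A : ℝ) + 4) :=
    h1.eventually_lt_const (by positivity)
  obtain ⟨N, hN⟩ := Filter.eventually_atTop.1 h2
  refine ⟨N, fun n hn => ?_⟩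
  have h3 := hN (n + 2) (by omega)
  rw [div_lt_div_iff₀ (by positivity) (by positivity)] at h3
  have h4 : (A : ℝ) * ((n : ℝ) + 2) ^ k < 2 ^ n := by
    have h5 : ((n + 2 : ℕ) : ℝ) = (n : ℝ) + 2 := by push_cast; ring
    rw [h5] at h3
    have h6 : (0 : ℝ) ≤ ((n : ℝ) + 2) ^ k := by positivity
    have h7 : (2 : ℝ) ^ (n + 2) = 4 * 2 ^ n := by ring
    rw [h7] at h3
    nlinarith
  exact_mod_cast h4

end PX_REC

/-- REC. -/
theorem p_REC : P_REC := by
  intro p D C k hp v r hr hv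
  have hp2 : 2 ≤ p := hp.out.two_le
  obtain ⟨n₁, hn₁⟩ := PX_REC.grow (C * D) k
  have hstep : ∀ n, n₁ ≤ n → v (n + 1) ≤ v n + C * (n + 2) ^ k := by
    intro n hn
    have h1 : r (n + 1) ≤ C * (n + 2) ^ k := hr (n + 1)
    have h2 : r (n + 1) * D < p ^ n * (p - 1) := by
      calc r (n + 1) * D ≤ C * (n + 2) ^ k * D := Nat.mul_le_mul_right _ h1
        _ = C * D * (n + 2) ^ k := by ring
        _ < 2 ^ n := hn₁ n hn
        _ ≤ p ^ n := Nat.pow_le_pow_left hp2 n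
        _ ≤ p ^ n * (p - 1) := Nat.le_mul_of_pos_right _ (by omega)
    exact (hv n h2).trans (Nat.add_le_add_left h1 _)
  have hsum : ∀ j, v (n₁ + j) ≤ v n₁ + j * (C * (n₁ + j + 1) ^ k) := by
    intro j
    induction j with
    | zero => simp
    | succ j ih =>
      have h1 := hstep (n₁ + j) (by omega)
      have h2 : C * (n₁ + j + 1) ^ k ≤ C * (n₁ + j + 2) ^ k :=
        Nat.mul_le_mul_left _ (Nat.pow_le_pow_left (by omega) k)
      have h3 : j * (C * (n₁ + j + 1) ^ k) ≤ j * (C * (n₁ + j + 2) ^ k) :=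
        Nat.mul_le_mul_left _ h2
      have h4 : n₁ + (j + 1) + 1 = n₁ + j + 2 := by ring
      rw [h4]
      calc v (n₁ + (j + 1)) ≤ v (n₁ + j) + C * (n₁ + j + 2) ^ k := h1
        _ ≤ v n₁ + j * (C * (n₁ + j + 2) ^ k) + C * (n₁ + j + 2) ^ k := by omega
        _ = v n₁ + (j + 1) * (C * (n₁ + j + 2) ^ k) := by ring
  refine ⟨C + ∑ m ∈ range (n₁ + 1), v m, fun n => ?_⟩
  have hM : ∀ m, m ≤ n₁ → v m ≤ ∑ m ∈ range (n₁ + 1), v m := by
    intro m hm
    exact single_le_sum (f := v) (fun i _ => Nat.zero_le _) (mem_range.2 (by omega))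
  set M := ∑ m ∈ range (n₁ + 1), v m with hMdef
  have hone : 1 ≤ (n + 1) ^ (k + 1) := Nat.one_le_pow _ _ (by omega)
  have hMn : M ≤ M * (n + 1) ^ (k + 1) := Nat.le_mul_of_pos_right _ hone
  rcases Nat.le_total n n₁ with h | h
  · calc v n ≤ M := hM n h
      _ ≤ M * (n + 1) ^ (k + 1) := hMn
      _ ≤ (C + M) * (n + 1) ^ (k + 1) := Nat.mul_le_mul_right _ (by omega)
  · obtain ⟨j, rfl⟩ := Nat.exists_eq_add_of_le h
    have h1 := hsum j
    have h2 := hM n₁ le_rfl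
    have h3 : j * (C * (n₁ + j + 1) ^ k) ≤ C * (n₁ + j + 1) ^ (k + 1) := by
      calc j * (C * (n₁ + j + 1) ^ k) ≤ (n₁ + j + 1) * (C * (n₁ + j + 1) ^ k) :=
            Nat.mul_le_mul_right _ (by omega)
        _ = C * (n₁ + j + 1) ^ (k + 1) := by ring
    calc v (n₁ + j) ≤ M + C * (n₁ + j + 1) ^ (k + 1) := by omega
      _ ≤ M * (n₁ + j + 1) ^ (k + 1) + C * (n₁ + j + 1) ^ (k + 1) := by omega
      _ = (C + M) * (n₁ + j + 1) ^ (k + 1) := by ring

end MU3


end

section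

/-!
# MU3, block A, module R8: multiplication by `w`, `w² = -2`, on `℘` and the invariants
-/

set_option autoImplicit false

namespace Pool.Agent.MU3A

open _root_.MU3 _root_.Pool.Agent.MU3B Polynomial

noncomputable section

theorem ta_R8 (h1 : St_CMX) (h2 : St_DUP) (h3 : St_DSC) (h4 : St_ZER) (h5 : St_NEQ)
    (h6 : Sa_TW2) : Sa_R8 := by
  intro L Om hL
  have hC : Case (-2) 0 := Or.inl ⟨rfl, rfl⟩
  set w : ℂ := wC (-2) 0 with hw
  have hw2 : w * w = -2 := by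
    have := wC_sq hC
    rw [hw, this]
    push_cast
    ring
  have hw0 : w ≠ 0 := wC_ne_zero hC
  have hOm := hL.Om_ne
  set v : ℂ := Om * w / 2 with hv
  have hembc : ∀ a b : ℤ, emb (⟨a, b⟩ : OO (-2) 0) = (a : ℂ) + (b : ℂ) * w := fun a b => rfl
  have hmem : ∀ z : ℂ, z ∈ L.lattice ↔ ∃ a b : ℤ, z = Om * ((a : ℂ) + (b : ℂ) * w) := by
    intro z
    rw [hL.mem]
    constructor
    · rintro ⟨⟨a, b⟩, hx⟩
      exact ⟨a, b, hx⟩
    · rintro ⟨a, b, hx⟩
      exact ⟨⟨a, b⟩, hx⟩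
  have hinj : ∀ a b c d : ℤ, (a : ℂ) + (b : ℂ) * w = (c : ℂ) + (d : ℂ) * w → a = c ∧ b = d := by
    intro a b c d hh
    have : (⟨a, b⟩ : OO (-2) 0) = ⟨c, d⟩ := emb_inj hC hh
    have e1 := congrArg QuadraticAlgebra.re this
    have e2 := congrArg QuadraticAlgebra.im this
    exact ⟨e1, e2⟩
  have hvL : v ∉ L.lattice := by
    intro hcon
    obtain ⟨a, b, hab⟩ := (hmem v).1 hcon
    have : ((0 : ℤ) : ℂ) + ((1 : ℤ) : ℂ) * w = ((2 * a : ℤ) : ℂ) + ((2 * b : ℤ) : ℂ) * w := by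
      apply mul_left_cancel₀ hOm
      push_cast
      rw [hv] at hab
      linear_combination 2 * hab
    have := (hinj _ _ _ _ this).2
    omega
  have hwv : w * v ∈ L.lattice := by
    refine (hmem _).2 ⟨-1, 0, ?_⟩
    push_cast
    rw [hv]
    linear_combination (Om / 2) * hw2
  have h2v : 2 * v ∈ L.lattice := by
    refine (hmem _).2 ⟨0, 1, ?_⟩
    push_cast
    rw [hv]
    ring
  have hmulw : ∀ u ∈ L.lattice, w * u ∈ L.lattice := fun u hu => hL.mul_mem_w hC hu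
  have hreps : IsReps L w {v} := by
    refine ⟨?_, ?_, ?_, ?_⟩
    · intro q hq
      rw [Finset.mem_singleton.1 hq]
      exact hwv
    · intro q hq
      rw [Finset.mem_singleton.1 hq]
      exact hvL
    · intro q hq q' hq' _
      rw [Finset.mem_singleton.1 hq, Finset.mem_singleton.1 hq']
    · intro z hz hzL
      refine ⟨v, Finset.mem_singleton_self v, ?_⟩
      obtain ⟨a, b, hab⟩ := (hmem _).1 hz
      have hz2 : z = Om * ((b : ℂ) - (a : ℂ) * w / 2) := by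
        have h7 : w * (w * z) = w * (Om * ((a : ℂ) + (b : ℂ) * w)) := by rw [hab]
        have h8 : -2 * z = Om * ((a : ℂ) * w - 2 * (b : ℂ)) := by
          linear_combination h7 + (Om * (b : ℂ) - z) * hw2
        linear_combination (-1 / 2) * h8
      rcases Int.even_or_odd a with ⟨k, hk⟩ | ⟨k, hk⟩
      · exfalso
        refine hzL ((hmem _).2 ⟨b, -k, ?_⟩)
        rw [hz2, hk]
        push_cast
        ring
      · refine (hmem _).2 ⟨b, -(k + 1), ?_⟩
        rw [hz2, hk, hv]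
        push_cast
        ring
  set e : ℂ := L.weierstrassP v with he
  set c : ℂ := 3 * e ^ 2 - L.g₂ / 4 with hc
  obtain ⟨hroot, htw⟩ := h6 L v hvL h2v
  have hkey : ∀ z, w * z ∉ L.lattice → L.weierstrassP z ≠ e ∧
      -2 * L.weierstrassP (w * z) * (L.weierstrassP z - e) =
        L.weierstrassP z * (L.weierstrassP z - e) + c := by
    intro z hz
    have hzL : z ∉ L.lattice := fun hh => hz (hmulw z hh)
    have hzv : z + v ∉ L.lattice := by
      intro hh
      have h7 := sub_mem (hmulw _ hh) hwv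
      have h8 : w * (z + v) - w * v = w * z := by ring
      rw [h8] at h7
      exact hz h7
    have hne : L.weierstrassP z ≠ e := by
      intro hh
      rcases h5 L v z hvL hzL hh with h7 | h7
      · have h8 := add_mem h7 h2v
        have h9 : z - v + 2 * v = z + v := by ring
        rw [h9] at h8
        exact hzv h8
      · exact hzv h7
    refine ⟨hne, ?_⟩
    have h7 := h1 L w {v} hw0 hmulw hreps z hz
    rw [Finset.sum_singleton] at h7
    have h8 := htw z hzL hzv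
    have h9 : w ^ 2 = -2 := by rw [pow_two, hw2]
    rw [h9] at h7
    rw [h7]
    rw [← he] at h8 ⊢
    rw [hc]
    linear_combination h8
  have hcval : c = 9 / 8 * e ^ 2 := by
    set z0 : ℂ := Om / 3 with hz0
    have h2z0 : 2 * z0 ∉ L.lattice := by
      intro hcon
      obtain ⟨a, b, hab⟩ := (hmem _).1 hcon
      have : ((2 : ℤ) : ℂ) + ((0 : ℤ) : ℂ) * w = ((3 * a : ℤ) : ℂ) + ((3 * b : ℤ) : ℂ) * w := by
        apply mul_left_cancel₀ hOm
        push_cast
        rw [hz0] at hab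
        linear_combination 3 * hab
      have := (hinj _ _ _ _ this).1
      omega
    have hwz0 : w * z0 ∉ L.lattice := by
      intro hcon
      obtain ⟨a, b, hab⟩ := (hmem _).1 hcon
      have : ((0 : ℤ) : ℂ) + ((1 : ℤ) : ℂ) * w = ((3 * a : ℤ) : ℂ) + ((3 * b : ℤ) : ℂ) * w := by
        apply mul_left_cancel₀ hOm
        push_cast
        rw [hz0] at hab
        linear_combination 3 * hab
      have := (hinj _ _ _ _ this).2
      omega
    have hwwz0 : w * (w * z0) ∉ L.lattice := by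
      have h7 : w * (w * z0) = -(2 * z0) := by linear_combination z0 * hw2
      rw [h7]
      intro hcon
      have := neg_mem hcon
      rw [neg_neg] at this
      exact h2z0 this
    have hPww : L.weierstrassP (w * (w * z0)) = L.weierstrassP (2 * z0) := by
      have h7 : w * (w * z0) = -(2 * z0) := by linear_combination z0 * hw2
      rw [h7, PeriodPair.weierstrassP_neg]
    obtain ⟨hne0, hE0⟩ := hkey z0 hwz0
    obtain ⟨hne1, hE1⟩ := hkey (w * z0) hwwz0
    rw [hPww] at hE1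
    have hz0L : z0 ∉ L.lattice := fun hh => hwz0 (hmulw z0 hh)
    have hd0 : L.derivWeierstrassP z0 ≠ 0 := fun hh => h2z0 ((h4 L z0 hz0L).1 hh)
    have hdup := (h2 L z0 h2z0).1
    have hsq := L.derivWeierstrassP_sq z0 hz0L
    set P0 : ℂ := L.weierstrassP z0
    set P1 : ℂ := L.weierstrassP (w * z0)
    set P2 : ℂ := L.weierstrassP (2 * z0)
    set D0 : ℂ := L.derivWeierstrassP z0
    have hdup2 : (P2 + 2 * P0) * (4 * D0 ^ 2) = (6 * P0 ^ 2 - L.g₂ / 2) ^ 2 := by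
      rw [hdup]
      field_simp
      ring
    rw [hsq] at hdup2
    have hg2 : L.g₂ = 12 * e ^ 2 - 4 * c := by rw [hc]; ring
    have hg3 : L.g₃ = 4 * e ^ 3 - (12 * e ^ 2 - 4 * c) * e := by
      rw [← hg2]
      linear_combination -hroot
    rw [hg2, hg3] at hdup2
    have hY : P0 - e ≠ 0 := sub_ne_zero.2 hne0
    -- `4 Y D P2 = (Y² + eY + c) D + 4 c Y²`
    have hP1 : -2 * P1 * (P0 - e) = P0 * (P0 - e) + c := hE0
    have hP2 : 4 * (P0 - e) * ((P0 - e) ^ 2 + 3 * e * (P0 - e) + c) * P2 =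
        ((P0 - e) ^ 2 + e * (P0 - e) + c) * ((P0 - e) ^ 2 + 3 * e * (P0 - e) + c) +
          4 * c * (P0 - e) ^ 2 := by
      have h7 : (P0 - e) ^ 2 + 3 * e * (P0 - e) + c = -2 * (P1 - e) * (P0 - e) := by
        linear_combination -hP1
      have h8 : (P0 - e) ^ 2 + e * (P0 - e) + c = -2 * P1 * (P0 - e) := by
        linear_combination -hP1
      rw [h7, h8]
      linear_combination (4 * (P0 - e) ^ 2) * hE1
    have hfin : (8 * c - 9 * e ^ 2) * (P0 - e) ^ 2 = 0 := by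
      linear_combination (1 / 4) * hdup2 - hP2
    rcases mul_eq_zero.1 hfin with h7 | h7
    · linear_combination (1 / 8) * h7
    · exact absurd (pow_eq_zero_iff (two_ne_zero)|>.1 h7) hY
  have hg2 : L.g₂ = 15 / 2 * e ^ 2 := by
    have : L.g₂ = 12 * e ^ 2 - 4 * c := by rw [hc]; ring
    rw [this, hcval]
    ring
  have hg3 : L.g₃ = -7 / 2 * e ^ 3 := by
    have : L.g₃ = 4 * e ^ 3 - L.g₂ * e := by linear_combination -hroot
    rw [this, hg2]
    ring
  refine ⟨?_, hg2, hg3, ?_⟩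
  · intro he0
    refine (h3 L).1 ?_
    rw [hg2, hg3, he0]
    ring
  · intro z hz
    obtain ⟨hne, hE⟩ := hkey z hz
    refine ⟨hne, ?_⟩
    rw [hE, hcval]

end

end Pool.Agent.MU3A


end
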