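import Mathlib
import Pool.Agent.MVF.C023
import Pool.Agent.MVF.C024
import Pool.Agent.MVF.C036

/-! Parts: MUX.StJX, MUX.J_LEV, MUX.J_FLD -/

namespace Pool.Agent.MUXJ.JFLD
end Pool.Agent.MUXJ.JFLD
namespace Pool.Agent.MUXJ.LEV
end Pool.Agent.MUXJ.LEV

section

/-!
# MUX, block J: the field theory of the last glue (helper34)

From the inputs `InpX` (`StKX.lean`) for a pair `K₀ ≤ K` to the theorem for all fields. Every `def Sj_X : Prop` is the
statement of a module, which proves `theorem t_X (h : Sj_Y) ... : Sj_X` (namespace `Pool.Agent.MUXJ`, file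
`Pool/Agent/MUX/J_X.lean`); the doc string contains the proof, `Uses` names the hypotheses. `k = kk A B`, `RF m` the ray
class fields (`DefsX.lean`), `H = RF ⊤`, `TorX A B` the main theorem of complex multiplication (`DefsX2.lean`). `p` is `2` or `3`; `q0 p = 4` or `3`.
-/

set_option autoImplicit false

open NumberField IsDedekindDomain
open scoped nonZeroDivisors Pointwise

namespace Pool.Agent.MUXJ

open _root_.MU3 _root_.Pool.Agent.MU3 _root_.Pool.Agent.MU3A _root_.Pool.Agent.MU3B _root_.Pool.Agent.RI _root_.Pool.Agent.RID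
  _root_.Pool.Agent.MUX _root_.Pool.Agent.MUXK _root_.Pool.Agent.MUXE

noncomputable section

/-! ## Definitions -/

/-- all elements of `K` are in ray class fields -/
def TorU (A B : ℤ) (K : IntermediateField ℚ ℂ) : Prop :=
  ∀ x ∈ K, ∃ m : Ideal (OO A B), m ≠ ⊥ ∧ x ∈ RF m

/-- there is a normalised lattice with complex multiplication -/
def NLex (A B : ℤ) : Prop := ∃ (b : Ideal (OO A B)) (L : PeriodPair) (om : ℂ), IsNL b L om

/-- the Hilbert class field `RF ⊤` is unramified at `V`: the form of (7.2) of `PAPER_X.md` which is needed here -/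
def UnrH (A B : ℤ) (V : ValuationSubring ℂ) : Prop :=
  ∀ σ : ℂ ≃+* ℂ, FixK A B σ →
    (∀ y ∈ RF (⊤ : Ideal (OO A B)), y ∈ V → σ y - y ∈ V.nonunits) →
    ∀ y ∈ RF (⊤ : Ideal (OO A B)), σ y = y

/-- the inputs for all pairs `K₀ ≤ K` -/
def InpAll (p : ℕ) (A B : ℤ) (V : ValuationSubring ℂ) : Prop :=
  ∀ (P : Ideal (OO A B)) (f : ℕ), SetP p A B P V f →
  ∀ (K₀ K : IntermediateField ℚ ℂ) (Bn : ℕ → IntermediateField ℚ ℂ)
    [FiniteDimensional ℚ (kk A B)] [FiniteDimensional ℚ K] [∀ n, FiniteDimensional ℚ ↥(K ⊔ Bn n)],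
    SetX p (kk A B) K₀ K Bn → (∀ y ∈ K, y ∈ RF (idl (A := A) (B := B) (lvX p f 0))) →
    (∀ y ∈ RF (⊤ : Ideal (OO A B)), y ∈ K) →
    ∀ (hk : ∀ n, kk A B ≤ K ⊔ Bn n) (hk₀ : ∀ n, kk A B ≤ K₀ ⊔ Bn n) (hkK : kk A B ≤ K₀),
    ∃ (S : Finset ℕ) (c c₀ : ℕ → ℂ) (n₁ : ℕ),
      InpX (IsLocalRing.ResidueField V) p (kk A B) K₀ K Bn hk hk₀ hkK S c c₀ n₁

/-! ## The prime above `p` -/

/-- JVEX: existence of `P` and `V`.
PROOF. `P = PPl p A B` (`DefsX.lean`): `O/P` has `p` elements: `w² - B w - A` has the two roots modulo `p`... For `CaseP p A B`: `p ∣ nm (ppi A B)` (`ppi = ⟨1 - B, 1⟩`-type element, see its definition in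
`Pool/Agent/MU3/Base.lean`; `p = 3`: `3 ∣ B² + 4A - 1`; `p = 2`: `B = 1`, `A` even), `O/(p, ppi) = ℤ/(p, nm ppi) = ℤ/p` (`O = ℤ[ppi]`, `ppi ≡ 0`). Any other prime ideal of norm `p` (e.g. a prime factor of `(p)`) is as good. `V`: as
`I_IVEX.lean` of MU3 (`LocalSubring.exists_le_valuationSubring`), for the localization of the image of `O` at `P`: `V ∩ O` is a prime ideal which contains the maximal ideal `P` and not `1`, so it is `P`. -/
def Sj_VEX : Prop := ∀ (p : ℕ) (A B : ℤ), CaseP p A B → ∃ (P : Ideal (OO A B))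
    (V : ValuationSubring ℂ), IsPN p P ∧ OverI V P ∧ (p : ℂ) ∈ V.nonunits

/-- JRES: the residue field of `V`.
PROOF. `I_IRES.lean` of MU3 with `3` replaced by `p`. -/
def Sj_RES : Prop := ∀ (p : ℕ) [Fact p.Prime] (V : ValuationSubring ℂ), (p : ℂ) ∈ V.nonunits →
    CharP (IsLocalRing.ResidueField V) p ∧ IsAlgClosed (IsLocalRing.ResidueField V)

/-- JUNH: `RF ⊤` is unramified at `V`.
PROOF. Only `vkap`, `inj` of `RedE` (`StXE.lean`) and `act` of `TorX` are used. `RF ⊤` is generated over `k` by the `kap L` (`Tor ⊤ L z` means `z ∈ L.lattice`, as `1 ∈ ⊤`). `σ (kap L) = kap L'` for a normalised `L'` (`act` for `m = ⊤`, `ActI.kap`), `v(kap L) ≤ 1`, so by hypothesis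
`v(kap L' - kap L) < 1`, `kap L' = kap L` (`inj`). So `σ` fixes `k` (`FixK`: `kk A B` is generated by `wC A B`) and the generators, hence `RF ⊤`. -/
def Sj_UNH : Prop := ∀ (p : ℕ) (A B : ℤ) (P : Ideal (OO A B)) (V : ValuationSubring ℂ),
    RedE p P V → TorX A B → UnrH A B V

/-- JRAM: if `F` contains the roots of unity of order `q0 p * p` then its inertia group at `V` has order divisible by `φ(q0 p * p) = q0 p * (p - 1)`.
PROOF. Compare `E_RAM.lean` of MU3 (`int_le`, `exists_prime`, `ord_le`, and the passage to `Ideal.card_inertia_eq_ramificationIdxIn`). `w := {x ∈ 𝓞 F : v x < 1}` is a prime ideal of `𝓞 F`, `w ∩ 𝓞 k = P` (`𝓞 k = emb O`), the inertia group of `w` is the group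
of the statement (every `x ∈ F` with `v x ≤ 1` is `s/t`, `s, t ∈ 𝓞 F`, `t ∉ w`; so both conditions are equivalent), its order is `e(w | P)`. `P` is unramified over `p`: `p ∉ P²` (`p O = P P'` with `P' ≠ P`, because `(p) ≠ P²`: the discriminant `B² + 4A` is
prime to `p`; or directly: `p ∈ P²` would give `P² = (p)`, so `x² ∈ (p)` for `x ∈ P`, and the polynomial `T² - B T - A` modulo `p` would have a double root). So the multiplicity of `w` in `p 𝓞 F` is `e = e(w | P)`. On the other hand `p = ∏ (1 - ζ^i)`, `i` prime to `p`, `φ(q0 p * p)` factors, each associated to `1 - ζ` in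
`𝓞 F` (Mathlib: `IsPrimitiveRoot` and cyclotomic polynomials at `1`: `Polynomial.eval_one_cyclotomic_prime_pow`; associates: `IsPrimitiveRoot.associated_sub_one` or `associated_pow_sub_one`), so the multiplicity is `φ(q0 p * p)` times
that of `1 - ζ`. `φ(8) = 4 = q0 2 * 1`, `φ(9) = 6 = q0 3 * 2`; in general `q0 p * p` is a power of `p`, not `1`. -/
def Sj_RAM : Prop := ∀ (p : ℕ) (A B : ℤ) (P : Ideal (OO A B)) (V : ValuationSubring ℂ),
    CaseP p A B → IsPN p P → OverI V P →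
    ∀ (F : IntermediateField (kk A B) ℂ) [FiniteDimensional (kk A B) F] [IsGalois (kk A B) F],
    (∃ ζ ∈ F, IsPrimitiveRoot ζ (q0 p * p)) →
    (q0 p * (p - 1)) ∣ Nat.card {σ : F ≃ₐ[kk A B] F //
      ∀ x : F, V.valuation (x : ℂ) ≤ 1 → V.valuation ((σ x : ℂ) - x) < 1}

/-- JINJ: the inertia group of the composite of `K₁` with `H` injects into `Gal(K₁/k)`.
Uses `TorX` (only `fin`, `gal`), `exists_ext` (extension of `σ` to `ℂ`: `Pool/Agent/MU3/ADefs.lean` or `IsAlgClosed.lift`, an automorphism of a subfield of `ℂ` over which `ℂ` is algebraic or not extends: `Pool/Agent/MU3/A_FEX.lean`). PROOF. The set is a subgroup `I` of `Gal(K/k)`: closed under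
products: `στx - x = (σ(τx) - τx) + (τx - x)`, `v(τ x) ≤ 1`; inverses: finite group. Restriction `I → Gal(K₁/k)` is injective: let `σ ∈ I` be trivial on `K₁`. Extend `σ` to an automorphism `σ'` of `ℂ`; `σ'` is trivial on `k`; for `y ∈ RF ⊤ ≤ K`, `v y ≤ 1`: `v(σ y - y) < 1`, so by `UnrH` `σ'` is trivial on `RF ⊤`,
and `σ` is trivial on `K₁ ⊔ RF ⊤ = K`. So `|I|` divides `|Gal(K₁/k)| = [K₁ : k]`. -/
def Sj_INJ : Prop := ∀ (A B : ℤ) (V : ValuationSubring ℂ), UnrH A B V → TorX A B →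
    ∀ (K₁ K : IntermediateField (kk A B) ℂ) [FiniteDimensional (kk A B) K₁]
    [IsGalois (kk A B) K₁] [FiniteDimensional (kk A B) K] [IsGalois (kk A B) K],
    K = K₁ ⊔ RF (⊤ : Ideal (OO A B)) →
    Nat.card {σ : K ≃ₐ[kk A B] K //
      ∀ x : K, V.valuation (x : ℂ) ≤ 1 → V.valuation ((σ x : ℂ) - x) < 1} ∣
    Module.finrank (kk A B) K₁

/-! ## Layers -/

/-- JLAY: the layers exist, form a tower and are unique.
PROOF. `p = 3`: `t_ZLAY` (`Z_ZLAY.lean` of MU3). `p = 2`: `B n = ℚ(ζ + ζ⁻¹)`, `ζ = exp (2 π i/2^(n+2))`: degree `2^n` (`Ilay.deg` in `I_ILAY.lean`, `Z_ZLAY.lean`), real, in `ℚ(μ_(2^(n+2)))`; `ζ = ζ'²` with the next `ζ'`, `ζ + ζ⁻¹ = (ζ' + ζ'⁻¹)² - 2`.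
Uniqueness: a layer `Q` is real and contained in `ℚ(μ_(2^j))`, we may take `j ≥ n + 2`. The real subfield of `ℚ(μ_(2^j))` is `R = B (j - 2)` (an element `x` of `ℚ(ζ_j)` fixed by complex conjugation: `ℚ(ζ_j)` has degree `2` over `R` and is not real), a
layer, so `R/ℚ` is cyclic (`t_LAYC`, `Pool/Agent/RID/P_LAYC.lean`), and `Q`, `B n ≤ R` have the same degree: equal (`Ilay.uniq`). -/
def Sj_LAY : Prop := ∀ p : ℕ, p = 2 ∨ p = 3 → ∃ Bn : ℕ → IntermediateField ℚ ℂ,
    (∀ n, IsLayer p n (Bn n)) ∧ Monotone Bn ∧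
    ∀ (n : ℕ) (Q : IntermediateField ℚ ℂ), IsLayer p n Q → Q = Bn n

/-- JROT: the first layer and the roots of unity of order `2 p`.
PROOF. `p = 2`: the first layer is `ℚ(√2)` (`JLAY` with uniqueness, or: a real quadratic field in `ℚ(μ_(2^m))`), `i ∈ K`, `(1 + i)/√2` is a primitive 8th root of unity. `p = 3`: the first layer is `ℚ(ζ + ζ⁻¹)`, `ζ = zt 9` (`t_ILAY`, `I_ILAY.lean` of MU3), and
`ζ = ((ζ + ζ⁻¹) + (ω - ω⁻¹)/(ζ² + 1 + ζ⁻²))/2`, `ω = ζ³` (a power of the given root of unity in `K`), `ζ² + 1 + ζ⁻² = (ζ + ζ⁻¹)² - 1 ≠ 0`. -/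
def Sj_ROT : Prop := ∀ p : ℕ, p = 2 ∨ p = 3 → ∀ (B K : IntermediateField ℚ ℂ), IsLayer p 1 B →
    B ≤ K → (∃ ζ ∈ K, IsPrimitiveRoot ζ (2 * p)) → ∃ ζ ∈ K, IsPrimitiveRoot ζ (q0 p * p)

/-- JLDX: a field which does not contain the first layer is linearly disjoint from all layers.
PROOF. `B n / ℚ` is Galois and cyclic of order `p^n` (`LAY_thm`, `t_LAYC`). The subfields of a cyclic extension of degree `p^n` are totally ordered, one for each degree `p^i`: (`Ilay.uniq` of `I_ILAY.lean`), these are the `B i` (monotone, of degree `p^i`). So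
`K ⊓ B n = B i` for some `i`, and `i = 0` since `B 1 ≤ K` is false. `[K B n : K] = [B n : K ∩ B n] = p^n` (Galois: Mathlib `IntermediateField.finrank_sup_...`, `BCH_thm`-type arguments, or: restriction `Gal(K B n / K) → Gal(B n/ℚ)` is injective with fixed field of the image `K ∩ B n = ℚ`, so it is surjective). -/
def Sj_LDX : Prop := ∀ (p : ℕ) [Fact p.Prime] (K : IntermediateField ℚ ℂ)
    (B : ℕ → IntermediateField ℚ ℂ) [FiniteDimensional ℚ K], (∀ n, IsLayer p n (B n)) →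
    Monotone B → ¬ B 1 ≤ K → ∀ n, Module.finrank ℚ ↥(K ⊔ B n) = Module.finrank ℚ K * p ^ n

/-! ## The fields -/

/-- JDIR: a finite extension in the union of the ray class fields is in one of them, of integral level.
PROOF. `K/ℚ` is generated by finitely many elements, each in some `RF m`; the product `m₀` of these `m` is `≠ ⊥` (`O` is a domain: `CQ`), contains a nonzero natural number `M` (the norm of an element), `idl M ≤ m₀ ≤ m`, and `mono`. -/
def Sj_DIR : Prop := ∀ (A B : ℤ), CQ A B → TorX A B →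
    ∀ (K : IntermediateField ℚ ℂ) [FiniteDimensional ℚ K], TorU A B K →
    ∃ M : ℕ, M ≠ 0 ∧ ∀ x ∈ K, x ∈ RF (idl (A := A) (B := B) M)

/-- JGAL: subfields of the ray class fields are abelian.
PROOF. `fin`, `gal`, `comm` of `TorX`, as `Z_ZGAL.lean` of MU3. -/
def Sj_GAL : Prop := ∀ (A B : ℤ), TorX A B → ∀ (m : Ideal (OO A B)), m ≠ ⊥ →
    ∀ (K : IntermediateField ℚ ℂ) (hk : kk A B ≤ K), (∀ x ∈ K, x ∈ RF m) →
    IsGalois (kk A B) (IntermediateField.extendScalars hk) ∧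
    FiniteDimensional (kk A B) (IntermediateField.extendScalars hk) ∧
    ∀ σ τ : (IntermediateField.extendScalars hk) ≃ₐ[kk A B] (IntermediateField.extendScalars hk),
      σ * τ = τ * σ

/-- JLEV: a field of degree prime to `p` over `k` is contained in a ray class field of level `f q0`.
Uses Sj_GAL. PROOF. As `I_IK3F.lean` of MU3. `K ≤ RF (idl M)`, `M = p^j M'`, `p ∤ M'`, `f = 2 |D| M'` (`|D| M'` for `p = 2`), `D = B² + 4A` prime to `p`. `m₁ = idl (lvX p f j) ≤ idl M`, `m₀ = idl (lvX p f 0)`. Let `σ ∈ Gal(RF m₁/k)` be trivial on `RF m₀`. Extend it to `ℂ` (`ext` with `D` = `RF m₁`). `act` at level `m₁`: ideal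
`a`, for all lattices. `ActI σ m₁ a L L' mu` gives `ActI σ m₀ a L L' mu` (`m₁ ≤ m₀`: `Tor m₀ → Tor m₁`, coprime). `triv` at level `m₀`: `a = sp c`, `c - 1 ∈ m₀`. `comp` (with `act`): `σ^i` acts at level `m₁` as `a^i = sp (c^i)`, for all `i`. `c^(p^j) - 1 ∈ m₁`:
`c = 1 + f q0 t` gives `c^(p^i) ≡ 1` modulo `f q0 p^i` (induction; `(1 + p x)^p ≡ 1` modulo `p² x`, here `p ∣ q0`; for `p = 2`, `(1 + 4 f x)² = 1 + 8 f x (1 + 2 f x)`). `triv` at level `m₁`: `σ^(p^j)` is trivial on `RF m₁`. So `Gal(RF m₁/RF m₀)` has exponent a power of `p`, its image in `Gal(K/k)`, of order prime to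
`p`, is trivial, so `K ≤ RF m₀`. -/
def Sj_LEV : Prop := ∀ (p : ℕ) (A B : ℤ), CaseP p A B → TorX A B → NLex A B →
    ∀ (K : IntermediateField ℚ ℂ) [FiniteDimensional ℚ K] (hk : kk A B ≤ K),
    ¬ p ∣ Module.finrank (kk A B) (IntermediateField.extendScalars hk) → ∀ M : ℕ, M ≠ 0 →
    (∀ x ∈ K, x ∈ RF (idl (A := A) (B := B) M)) →
    ∃ f : ℕ, f ≠ 0 ∧ ¬ p ∣ f ∧ absD A B ∣ (f : ℤ) ∧ (p ≠ 2 → 2 * absD A B ∣ (f : ℤ)) ∧
      ∀ x ∈ K, x ∈ RF (idl (A := A) (B := B) (lvX p f 0))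

/-- JSET: the large field `K`.
Uses Sj_RAM, Sj_INJ, Sj_ROT, Sj_LDX, Sj_GAL, Sj_LEV. PROOF. `ζ` a primitive root of unity of order `2 p`, `K₁ = K₀(ζ)`, `K = K₁ ⊔ RF ⊤` (as a field over `ℚ`: `restrictScalars`). `f` from LEV for `K₀`. `K₀ ≤ RF (idl (f q0))`, `RF ⊤ ≤` it (`mono`), `ζ ∈` it (`zeta` with `M = 2 p`, `2 p ∣ f q0`: `p = 3`: `f` even;
`p = 2`: `q0 = 4`; `zeta` needs some `ActI`: apply `act` to `σ = 1` (`RingEquiv.refl`) and the lattice of `NLex`). So `K ≤ RF (idl (lvX p f 0))`, and JGAL gives `gal`, `ab`, finiteness of `K`.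
`¬ B 1 ≤ K`: otherwise ROT gives a primitive `q0 p * p`-th root of unity in `K`, RAM: `q0 p * (p - 1)` divides the order of the inertia group of `K / k` (as an `IntermediateField (kk A B) ℂ`), INJ: which divides `[K₁ : k] = [K₁ : K₀][K₀ : k]`. `p = 3`: `ω ∈ K₀`, so `ζ = ± ω^i ∈ K₀`, `K₁ = K₀`, `3 ∣ [K₀ : k]`, false. `p = 2`:
`[K₁ : K₀] ≤ 2` (`ζ² = -1`), `4 ∣ [K₁ : k]` gives `2 ∣ [K₀ : k]`, false. LDX: `deg` for `K`, and for `K₀ ≤ K` also (`¬ B 1 ≤ K₀`). -/
def Sj_SET : Prop := ∀ (p : ℕ) (A B : ℤ) (P : Ideal (OO A B)) (V : ValuationSubring ℂ),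
    CaseP p A B → IsPN p P → OverI V P → UnrH A B V → TorX A B →
    NLex A B →
    ∀ (K₀ : IntermediateField ℚ ℂ) [FiniteDimensional ℚ K₀] (hk : kk A B ≤ K₀),
    ¬ p ∣ Module.finrank (kk A B) (IntermediateField.extendScalars hk) → TorU A B K₀ →
    (∃ ω ∈ K₀, IsPrimitiveRoot ω p) →
    ∀ (Bn : ℕ → IntermediateField ℚ ℂ), (∀ n, IsLayer p n (Bn n)) → Monotone Bn →
    ∃ (K : IntermediateField ℚ ℂ) (_ : FiniteDimensional ℚ K) (f : ℕ),
      SetX p (kk A B) K₀ K Bn ∧ SetP p A B P V f ∧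
      (∀ y ∈ K, y ∈ RF (idl (A := A) (B := B) (lvX p f 0))) ∧
      ∀ y ∈ RF (⊤ : Ideal (OO A B)), y ∈ K

/-- JUP: enlarging `K`.
PROOF. `P_UP.lean` of MU3 with `3` replaced by `p`. -/
def Sj_UP : Prop := ∀ (p : ℕ) [Fact p.Prime] (K K' B : IntermediateField ℚ ℂ)
    [FiniteDimensional ℚ K'] (n : ℕ) (h : K ≤ K'), IsLayer p n B →
    IsGalois K (IntermediateField.extendScalars h) →
    ¬ p ∣ Module.finrank K (IntermediateField.extendScalars h) →
    padicValNat p (classNo (K ⊔ B)) ≤ padicValNat p (classNo (K' ⊔ B))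

/-- JDWN: going down in an arbitrary extension.
Uses S_NIX (`StKX.lean`). PROOF. The norm `J M → J L` (`Ideal.relNorm`; `K_NRJ.lean` has the construction, or do it for ideals: Mathlib `Ideal.relNorm (𝓞 L)`), `N (prin x) = prin (norm x)`, `N (vJ w) = vJ v` if `v` is below `w` and the residue fields have the same cardinality.
`U = (prin L).range ⊔ N (J M)`: contains the `vJ v` with `HasAb L M v q`, so `U.index ≤ [M : L]`, `U.index ≠ 0` (NIX). `|Cl(L)| = [J L : prin] = [J L : U] [U : prin]`, and `U / prin` is a quotient of `J M / prin = Cl(M)` (by `N`), so `[U : prin]` divides `|Cl(M)|`. `padicValNat p [J L : U] ≤ Nat.log p [J L : U] ≤ Nat.log p [M : L]`. -/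
def Sj_DWN : Prop := ∀ (p : ℕ) [Fact p.Prime] (L M : Type) [Field L] [NumberField L] [Field M]
    [NumberField M] [Algebra L M],
    padicValNat p (Nat.card (ClassGroup (𝓞 L))) ≤
      padicValNat p (Nat.card (ClassGroup (𝓞 M))) + Nat.log p (Module.finrank L M)

/-- JSUB: the same for the layers.
Uses Sj_DWN. PROOF. `[M ⊔ B n : K ⊔ B n] ≤ [M : K]` (`M ⊔ B n = (K ⊔ B n) M`, generated over `K ⊔ B n` by a basis of `M / K`: `IntermediateField.finrank_sup_le`-type arguments, or `[M B : K B] [K B : ℚ] = [M B : ℚ] ≤ [M : K] [K B : ℚ]`). -/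
def Sj_SUB : Prop := ∀ (p : ℕ) [Fact p.Prime] (K M : IntermediateField ℚ ℂ)
    [FiniteDimensional ℚ M], K ≤ M → ∃ C : ℕ, ∀ (n : ℕ) (Q : IntermediateField ℚ ℂ),
    IsLayer p n Q → padicValNat p (classNo (K ⊔ Q)) ≤ padicValNat p (classNo (M ⊔ Q)) + C

/-- JOMG: adjoining the `p`-th roots of unity, `p = 2, 3`.
PROOF. As `Zfin.omega_ext`, `Zfin.quad` in `Z_ZFIN.lean` of MU3: `[F(ω) : F] ≤ 2`. `p = 2`: `F₁ = F`, `ω = -1`. `ω ∈ RF (idl 3)` by `zeta`, so `TorU` for `F₁ = F(ω)` (elements of `F₁` are in some `RF m`: `F ≤ RF (idl M)` by JDIR, `F₁ ≤ RF (idl (3 M))`). -/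
def Sj_OMG : Prop := ∀ (p : ℕ) (A B : ℤ), CaseP p A B → TorX A B →
    NLex A B →
    ∀ (F : IntermediateField ℚ ℂ) [FiniteDimensional ℚ F] (hk : kk A B ≤ F), TorU A B F →
    ¬ p ∣ Module.finrank (kk A B) (IntermediateField.extendScalars hk) →
    ∃ (F₁ : IntermediateField ℚ ℂ) (h : F ≤ F₁) (_ : FiniteDimensional ℚ F₁), TorU A B F₁ ∧
      (∃ ω ∈ F₁, IsPrimitiveRoot ω p) ∧ IsGalois F (IntermediateField.extendScalars h) ∧
      ¬ p ∣ Module.finrank F (IntermediateField.extendScalars h) ∧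
      ¬ p ∣ Module.finrank (kk A B) (IntermediateField.extendScalars (hk.trans h))

/-- JFLD: `k` is finite over `ℚ`, and fields which contain it are totally complex.
PROOF. `Zfin.finrank_kk`, `Zfin.totCx` in `Z_ZFIN.lean` of MU3; `w² = A + B w`, `B² + 4A < 0`. -/
def Sj_FLD : Prop := ∀ (A B : ℤ), CQ A B → FiniteDimensional ℚ (kk A B) ∧
    ∀ F : IntermediateField ℚ ℂ, kk A B ≤ F → TotCx F

/-! ## The main theorem from the inputs -/

/-- JFIN: the main theorem for all fields, from the inputs.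
Uses Sj_RES, Sj_LAY, Sj_DIR, Sj_GAL, Sj_SET, Sj_UP, Sj_SUB, Sj_OMG, Sj_FLD, S_MAINKX (`StKX.lean`), P_SYL, P_PEX (`StP.lean` of MU3). PROOF. As `t_ZFIN`, `t_ZM` (`Z_ZFIN.lean`, `Z_ZM.lean` of MU3). `F ≤ RF (idl M)` (DIR), Galois and abelian over `k` (GAL). SYL: `F₀`, `k ≤ F₀ ≤ F`, `[F₀ : k]` prime to `p`, `F/F₀` Galois of degree `p^b`.
OMG for `F₀`: `F₁`. SET for `K₀ = F₁` and the layers `Bn` of LAY: `K`, `f`. `InpAll`, RES, MAINKX: `v_p h(F₁ Bn) ≤ C (n+1)²`. UP: the same for `F₀`. PEX (`TotCx` by FLD): a bound `C (n+1)^j` for `F`, and PEX again for `M / F` (`M` is finite). SUB: for `K' ≤ M`. `C (n+1)^j + C₁ ≤ C' (n+1)^C'`, `C' = C + C₁ + j`. Uniqueness of the layers: LAY. -/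
def Sj_FIN : Prop := ∀ (p : ℕ) (A B : ℤ) (P : Ideal (OO A B)) (V : ValuationSubring ℂ),
    CaseP p A B → IsPN p P → OverI V P → (p : ℂ) ∈ V.nonunits → UnrH A B V → TorX A B →
    NLex A B → InpAll p A B V →
    ∀ (F M K : IntermediateField ℚ ℂ) [FiniteDimensional ℚ M] (_ : kk A B ≤ F) (h : F ≤ M)
    (a : ℕ), TorU A B F → IsGalois F (IntermediateField.extendScalars h) →
    Module.finrank F (IntermediateField.extendScalars h) = p ^ a → K ≤ M →
    ∃ C : ℕ, ∀ (n : ℕ) (Q : IntermediateField ℚ ℂ), IsLayer p n Q →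
      padicValNat p (classNo (K ⊔ Q)) ≤ C * (n + 1) ^ C

end

end Pool.Agent.MUXJ


end

section

/-!
# MUX, block J, module LEV: a field of degree prime to `p` over `k` has a level `f q0` (helper2)
-/

set_option autoImplicit false

namespace Pool.Agent.MUXJ

open _root_.MU3 _root_.Pool.Agent.MU3 _root_.Pool.Agent.MU3A _root_.Pool.Agent.MU3B _root_.Pool.Agent.RI _root_.Pool.Agent.RID
  _root_.Pool.Agent.MUX _root_.Pool.Agent.MUXK _root_.Pool.Agent.MUXE

noncomputable section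

namespace LEV

variable {A B : ℤ}

/-- automorphisms of `RF m` extend to `ℂ` -/
lemma lift (T : TorX A B) {m : Ideal (OO A B)} (hm : m ≠ ⊥) (σ : RF m ≃ₐ[kk A B] RF m) :
    ∃ s : ℂ ≃+* ℂ, FixK A B s ∧ ∀ y : RF m, s (y : ℂ) = (σ y : ℂ) := by
  let D : IntermediateField ℚ ℂ := (RF m).restrictScalars ℚ
  have h : kk A B ≤ D := fun x hx => (RF m).algebraMap_mem ⟨x, hx⟩
  let _ := algC h
  let τ : D ≃ₐ[kk A B] D :=
    { toFun := fun x => ⟨(σ ⟨x.1, x.2⟩ : ℂ), (σ ⟨x.1, x.2⟩).2⟩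
      invFun := fun x => ⟨(σ.symm ⟨x.1, x.2⟩ : ℂ), (σ.symm ⟨x.1, x.2⟩).2⟩
      left_inv := fun x => Subtype.ext
        (congrArg Subtype.val (σ.symm_apply_apply (⟨x.1, x.2⟩ : RF m)))
      right_inv := fun x => Subtype.ext
        (congrArg Subtype.val (σ.apply_symm_apply (⟨x.1, x.2⟩ : RF m)))
      map_mul' := fun x y => Subtype.ext (by
        have := map_mul σ ⟨x.1, x.2⟩ ⟨y.1, y.2⟩
        exact congrArg Subtype.val this)
      map_add' := fun x y => Subtype.ext (by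
        have := map_add σ ⟨x.1, x.2⟩ ⟨y.1, y.2⟩
        exact congrArg Subtype.val this)
      commutes' := fun r => Subtype.ext (by
        have := σ.commutes r
        exact congrArg Subtype.val this) }
  obtain ⟨s, hs, hs1⟩ := T.ext m hm D h (fun y hy => hy) τ
  exact ⟨s, hs, fun y => hs1 ⟨y.1, y.2⟩⟩

/-- `x ≡ 1` modulo `F`, `p ∣ F`, implies `x^(p^i) ≡ 1` modulo `F p^i` -/
lemma pow_dvd {R : Type*} [CommRing R] (p : ℕ) (F x : R) (hp : (p : R) ∣ F) (hx : F ∣ x - 1)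
    (i : ℕ) : F * (p : R) ^ i ∣ x ^ p ^ i - 1 := by
  induction i with
  | zero => simpa using hx
  | succ i ih =>
    set y := x ^ p ^ i with hy
    have h1 : x ^ p ^ (i + 1) - 1 = (y - 1) * ∑ k ∈ Finset.range p, y ^ k := by
      rw [mul_geom_sum, hy, ← pow_mul, ← pow_succ]
    have h2 : (p : R) ∣ y - 1 := (hp.mul_right _).trans ih
    have h3 : (p : R) ∣ ∑ k ∈ Finset.range p, y ^ k := by
      have h4 : ∑ k ∈ Finset.range p, y ^ k = ∑ k ∈ Finset.range p, (y ^ k - 1) + p := by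
        rw [Finset.sum_sub_distrib]
        simp
      rw [h4]
      refine dvd_add (Finset.dvd_sum fun k _ => ?_) dvd_rfl
      have h5 := sub_dvd_pow_sub_pow y 1 k
      rw [one_pow] at h5
      exact h2.trans h5
    rw [h1, pow_succ, ← mul_assoc]
    exact mul_dvd_mul ih h3

lemma mem_of_pow_mem {G : Type*} [Group G] (S : Subgroup G) {a : G} {m n : ℕ}
    (hm : a ^ m ∈ S) (hn : a ^ n ∈ S) (hmn : Nat.Coprime m n) : a ∈ S := by
  have h1 : IsCoprime (m : ℤ) (n : ℤ) := Nat.isCoprime_iff_coprime.2 hmn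
  obtain ⟨u, v, huv⟩ := h1
  have h2 : a = (a ^ m) ^ u * (a ^ n) ^ v := by
    rw [← zpow_natCast, ← zpow_natCast, ← zpow_mul, ← zpow_mul, ← zpow_add]
    have h3 : (m : ℤ) * u + (n : ℤ) * v = 1 := by linear_combination huv
    rw [h3, zpow_one]
  rw [h2]
  exact S.mul_mem (S.zpow_mem hm u) (S.zpow_mem hn v)

lemma idl_ne {n : ℕ} (hn : n ≠ 0) : idl (A := A) (B := B) n ≠ ⊥ := by
  intro h
  rw [Ideal.span_singleton_eq_bot] at h
  have h1 := congrArg QuadraticAlgebra.re h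
  rw [QuadraticAlgebra.re_natCast, QuadraticAlgebra.re_zero] at h1
  exact hn (by exact_mod_cast h1)

lemma idl_le {n m : ℕ} (h : n ∣ m) : idl (A := A) (B := B) m ≤ idl n :=
  Ideal.span_singleton_le_span_singleton.2 (Nat.cast_dvd_cast h)

/-- lowering the level -/
lemma act_mono {σ : ℂ ≃+* ℂ} {m m' a : Ideal (OO A B)} {L L' : PeriodPair} {mu : ℂ}
    (h : m' ≤ m) (ha : ActI σ m' a L L' mu) : ActI σ m a L L' mu := by
  refine ⟨ha.kap, ?_, ha.isq, fun z hz => ha.act z fun x hx => hz x (h hx)⟩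
  have h1 := ha.cop
  rw [Ideal.isCoprime_iff_sup_eq] at h1 ⊢
  exact top_unique (h1 ▸ sup_le_sup_left h a)

end LEV

open _root_.Pool.Agent.MUXJ.LEV in
/-- a field of degree prime to `p` over `k` is contained in a ray class field of level `f q0` -/
theorem t_LEV : Sj_LEV := by
  intro p A B hC T hN K _ hk hKp M hM0 hM
  have hp : p.Prime := by
    rcases hC.split with h | h
    · rw [h.1]; exact Nat.prime_three
    · rw [h.1]; exact Nat.prime_two
  obtain ⟨j, M', hM', hMj⟩ := Nat.exists_eq_pow_mul_and_not_dvd hM0 p hp.ne_one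
  have hM'0 : M' ≠ 0 := by
    rintro rfl
    exact hM' (dvd_zero p)
  have hD0 : 0 < absD A B := by
    have := hC.neg
    unfold absD
    omega
  set c : ℕ := (absD A B).toNat with hc
  have hcD : (c : ℤ) = absD A B := Int.toNat_of_nonneg hD0.le
  have hc0 : c ≠ 0 := by omega
  have hcp : ¬ p ∣ c := by
    intro h
    have h1 : (p : ℤ) ∣ absD A B := by
      rw [← hcD]; exact_mod_cast h
    unfold absD at h1
    rcases hC.split with h2 | h2
    · have h3 := h2.2
      rw [h2.1] at h1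
      push_cast at h1
      omega
    · have h3 := h2.2
      rw [h2.1] at h1
      push_cast at h1
      omega
  set u : ℕ := if p = 2 then 1 else 2 with hu
  have hu0 : u ≠ 0 := by rw [hu]; split_ifs <;> norm_num
  have hup : ¬ p ∣ u := by
    rw [hu]
    split_ifs with h2
    · rw [h2]; norm_num
    · intro h3
      rcases (Nat.dvd_prime Nat.prime_two).1 h3 with h4 | h4
      · exact hp.ne_one h4
      · exact h2 h4
  set f : ℕ := u * c * M' with hf
  have hf0 : f ≠ 0 := mul_ne_zero (mul_ne_zero hu0 hc0) hM'0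
  have hfp : ¬ p ∣ f := by
    rw [hf, hp.dvd_mul, hp.dvd_mul]
    push Not
    exact ⟨⟨hup, hcp⟩, hM'⟩
  have hq0 : q0 p ≠ 0 := by
    unfold q0
    split_ifs with h2
    · norm_num
    · exact hp.ne_zero
  have hpq0 : p ∣ q0 p := by
    unfold q0
    split_ifs with h2
    · rw [h2]; norm_num
    · exact dvd_rfl
  refine ⟨f, hf0, hfp, ?_, ?_, ?_⟩
  · refine ⟨(u * M' : ℕ), ?_⟩
    rw [hf, ← hcD]
    push_cast
    ring
  · intro h2
    refine ⟨(M' : ℕ), ?_⟩
    rw [hf, ← hcD, hu, if_neg h2]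
    push_cast
    ring
  -- the two levels
  set m1 : Ideal (OO A B) := idl (lvX p f j) with hm1
  set m0 : Ideal (OO A B) := idl (lvX p f 0) with hm0
  have hm1' : m1 ≠ ⊥ := idl_ne (mul_ne_zero (mul_ne_zero hf0 hq0) (pow_ne_zero _ hp.ne_zero))
  have hm0' : m0 ≠ ⊥ := idl_ne (mul_ne_zero (mul_ne_zero hf0 hq0) (pow_ne_zero _ hp.ne_zero))
  have h01 : m1 ≤ m0 := idl_le (mul_dvd_mul_left _ (pow_dvd_pow p (Nat.zero_le j)))
  have hMm : m1 ≤ idl M := idl_le (by
    rw [hMj]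
    exact ⟨u * c * q0 p, by unfold lvX; rw [hf]; ring⟩)
  have hK1 : ∀ x ∈ K, x ∈ RF m1 := fun x hx => T.mono _ _ hMm (hM x hx)
  have hfin := T.fin m1 hm1'
  have hgal := T.gal m1 hm1'
  have h01' : RF m0 ≤ RF m1 := T.mono _ _ h01
  let K' : IntermediateField (kk A B) ℂ := IntermediateField.extendScalars hk
  have hK' : K' ≤ RF m1 := fun x hx => hK1 x hx
  let E : IntermediateField (kk A B) (RF m1) := IntermediateField.restrict hK'
  let F0 : IntermediateField (kk A B) (RF m1) := IntermediateField.restrict h01'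
  have hcomm := T.comm m1 hm1'
  have hnorm : E.fixingSubgroup.Normal := by
    constructor
    intro n hn g
    rw [hcomm g n, mul_assoc, mul_inv_cancel, mul_one]
    exact hn
  have hidx : ¬ p ∣ E.fixingSubgroup.index := by
    rw [← IntermediateField.finrank_eq_fixingSubgroup_index,
      ← (IntermediateField.restrictAlgEquiv hK').toLinearEquiv.finrank_eq]
    exact hKp
  -- elements which are trivial on `RF m0`
  have hkey : F0.fixingSubgroup ≤ E.fixingSubgroup := by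
    intro σ hσ
    rw [IntermediateField.mem_fixingSubgroup_iff] at hσ
    obtain ⟨s, hs, hsσ⟩ := lift T hm1' σ
    obtain ⟨a, hac, ha⟩ := T.act m1 hm1' s hs
    obtain ⟨b, L, om, hL⟩ := hN
    obtain ⟨b', L', om', mu, hL', hact⟩ := ha b L om hL
    have htr0 : ∀ y ∈ RF m0, s y = y := by
      intro y hy
      have h1 := hsσ ⟨y, h01' hy⟩
      have h2 := hσ ⟨y, h01' hy⟩ ((IntermediateField.mem_restrict h01' _).2 hy)
      rw [h2] at h1
      exact h1
    obtain ⟨x, hx, hax⟩ := (T.triv m0 a s b L L' om mu hm0' hs hL (act_mono h01 hact) hL'.nrm).1 htr0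
    -- powers
    have hpow : ∀ n : ℕ, ∃ t : ℂ ≃+* ℂ, FixK A B t ∧
        (∀ y : RF m1, t (y : ℂ) = ((σ ^ (n + 1)) y : ℂ)) ∧
        ∃ (b' : Ideal (OO A B)) (L' : PeriodPair) (om' mu : ℂ), IsNL b' L' om' ∧
          ActI t m1 (a ^ (n + 1)) L L' mu := by
      intro n
      induction n with
      | zero =>
        refine ⟨s, hs, fun y => ?_, b', L', om', mu, hL', ?_⟩
        · rw [zero_add, pow_one]; exact hsσ y
        · rw [zero_add, pow_one]; exact hact
      | succ n ih =>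
        obtain ⟨t, ht, ht1, b₁, L₁, om₁, mu₁, hL₁, hact₁⟩ := ih
        obtain ⟨b₂, L₂, om₂, mu₂, hL₂, hact₂⟩ := ha b₁ L₁ om₁ hL₁
        refine ⟨t.trans s, ?_, fun y => ?_, b₂, L₂, om₂, mu₂ * mu₁, hL₂, ?_⟩
        · show s (t (wC A B)) = wC A B
          rw [show t (wC A B) = wC A B from ht]
          exact hs
        · show s (t (y : ℂ)) = _
          rw [ht1 y, hsσ, pow_succ' σ (n + 1)]
          rfl
        · rw [pow_succ a (n + 1)]
          exact T.comp m1 _ a t s L L₁ L₂ mu₁ mu₂ hact₁ hact₂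
    have hpj : 0 < p ^ j := pow_pos hp.pos j
    obtain ⟨t, ht, ht1, b₁, L₁, om₁, mu₁, hL₁, hact₁⟩ := hpow (p ^ j - 1)
    rw [Nat.sub_add_cancel hpj] at ht1 hact₁
    have h3 : x ^ p ^ j - 1 ∈ m1 := by
      have h4 : ((f * q0 p : ℕ) : OO A B) ∣ x - 1 := by
        have h5 := Ideal.mem_span_singleton.1 hx
        simpa [lvX] using h5
      have h5 : ((p : ℕ) : OO A B) ∣ ((f * q0 p : ℕ) : OO A B) :=
        Nat.cast_dvd_cast (hpq0.mul_left f)
      have h6 := pow_dvd p _ x h5 h4 j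
      rw [hm1, Ideal.mem_span_singleton]
      unfold lvX
      push_cast at h6 ⊢
      exact h6
    have h4 : σ ^ p ^ j = 1 := by
      have h5 := (T.triv m1 _ t b L L₁ om mu₁ hm1' ht hL hact₁ hL₁.nrm).2
        ⟨x ^ p ^ j, h3, by rw [hax, Ideal.span_singleton_pow]⟩
      refine AlgEquiv.ext fun y => Subtype.ext ?_
      rw [← ht1 y, h5 y y.2]
      rfl
    have h5 : σ ^ E.fixingSubgroup.index ∈ E.fixingSubgroup := Subgroup.pow_index_mem _ σ
    refine mem_of_pow_mem _ (m := p ^ j) (by rw [h4]; exact one_mem _) h5 ?_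
    exact Nat.Coprime.pow_left j ((Nat.Prime.coprime_iff_not_dvd hp).2 hidx)
  have hEF : E ≤ F0 := by
    rw [← IsGalois.fixedField_fixingSubgroup F0, IntermediateField.le_iff_le]
    exact hkey
  intro x hx
  have h1 : (⟨x, hK1 x hx⟩ : RF m1) ∈ F0 :=
    hEF ((IntermediateField.mem_restrict hK' _).2 hx)
  exact (IntermediateField.mem_restrict h01' _).1 h1

end

end Pool.Agent.MUXJ


end

section

/-!
# MUX, block J, module JFLD (helper23): `k` is finite over `ℚ`, fields which contain it are totally complex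
-/

set_option autoImplicit false

open NumberField IsDedekindDomain
open scoped nonZeroDivisors Pointwise

namespace Pool.Agent.MUXJ

open _root_.MU3 _root_.Pool.Agent.MU3 _root_.Pool.Agent.MU3A _root_.Pool.Agent.MU3B _root_.Pool.Agent.RI _root_.Pool.Agent.RID
  _root_.Pool.Agent.MUX _root_.Pool.Agent.MUXK _root_.Pool.Agent.MUXE

noncomputable section

namespace JFLD

lemma wC_sq' {A B : ℤ} (h : CQ A B) : wC A B * wC A B = A + B * wC A B := by
  have h0 : 0 < absD A B := by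
    have := h.neg
    unfold absD
    omega
  have h1 : (0 : ℝ) ≤ (absD A B : ℝ) := by exact_mod_cast h0.le
  have h2 : ((Real.sqrt (absD A B) : ℝ) : ℂ) ^ 2 = (absD A B : ℂ) := by
    rw [← Complex.ofReal_pow, Real.sq_sqrt h1]
    norm_num
  have h3 : Complex.I ^ 2 = -1 := Complex.I_sq
  have h4 : (absD A B : ℂ) = -((B : ℂ) ^ 2 + 4 * A) := by simp [absD]
  unfold wC
  linear_combination (Complex.I ^ 2 / 4) * h2 + ((absD A B : ℂ) / 4) * h3 - (1 / 4) * h4

open Polynomial in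
lemma wC_int {A B : ℤ} (h : CQ A B) : IsIntegral ℚ (wC A B) := by
  have hpm : (X ^ 2 + C (-(B : ℚ)) * X + C (-(A : ℚ)) : ℚ[X]).Monic := by monicity!
  have hp : aeval (wC A B) (X ^ 2 + C (-(B : ℚ)) * X + C (-(A : ℚ)) : ℚ[X]) = 0 := by
    simp only [map_add, map_mul, map_pow, aeval_X, aeval_C]
    simp only [map_neg, eq_ratCast, Rat.cast_intCast]
    linear_combination wC_sq' h
  exact ⟨_, hpm, hp⟩

end JFLD

open _root_.Pool.Agent.MUXJ.JFLD in
theorem t_FLD : Sj_FLD := by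
  intro A B hc
  refine ⟨IntermediateField.adjoin.finiteDimensional (wC_int hc), ?_⟩
  intro F h φ
  refine ⟨⟨wC A B, h (wC_mem A B)⟩, ?_⟩
  intro h1
  set x : F := ⟨wC A B, h (wC_mem A B)⟩ with hx
  have h2 : x * x = (A : F) + (B : F) * x := by
    apply Subtype.ext
    have e := wC_sq' hc
    show wC A B * wC A B = _
    rw [e]
    push_cast
    rfl
  have h3 := congrArg φ h2
  rw [map_mul, map_add, map_mul, map_intCast, map_intCast] at h3
  obtain ⟨r, hr⟩ := Complex.conj_eq_iff_real.1 h1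
  rw [hr] at h3
  have h4 : r * r = (A : ℝ) + (B : ℝ) * r := by exact_mod_cast h3
  have h5 : ((B : ℝ)) ^ 2 + 4 * (A : ℝ) < 0 := by exact_mod_cast hc.neg
  nlinarith [mul_self_nonneg (2 * r - (B : ℝ))]

end

end Pool.Agent.MUXJ


end
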