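import Mathlib
import Pool.Agent.MVF.C004

/-! Parts: MUX.StHX, MUX.StHN, MUX.HX_HZ, MUX.HX_STP, MUX.HN_TYP, MUX.HX_HK, MUX.HN_HKN, MUX.HX_ALB, MUX.HX_MAX, MUX.HN_BDN, MUX.HX_H1, MUX.HN_H1N, MUX.HX_HA, MUX.HX_H2, MUX.HX_BD, MUX.HX_DIS, MUX.HX_MD -/

namespace Pool.Agent.MUXH
end Pool.Agent.MUXH
namespace Pool.Agent.MUXH.Dis
end Pool.Agent.MUXH.Dis
namespace Pool.Agent.MUXH.H1
end Pool.Agent.MUXH.H1
namespace Pool.Agent.MUXH.Ha
end Pool.Agent.MUXH.Ha
namespace Pool.Agent.MUXH.Hk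
end Pool.Agent.MUXH.Hk
namespace Pool.Agent.MUXH.Hz
end Pool.Agent.MUXH.Hz
namespace Pool.Agent.MUXH.Max
end Pool.Agent.MUXH.Max
namespace Pool.Agent.MUXH.Stp
end Pool.Agent.MUXH.Stp
namespace Pool.Agent.MUXHN.H1N
end Pool.Agent.MUXHN.H1N
namespace Pool.Agent.MUXHN.TYP
end Pool.Agent.MUXHN.TYP

section

/-!
# MUX, block H, abstract part (helper27): from Theorem G to the character sums, for every prime `p`

PAPER_X.md, section 11, with a prime `p` (`2` or `3`) as a parameter. Nothing here depends on the field `k`.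
Every statement is a `def Sx_X : Prop`; a module proves `theorem tx_X (h : ..) ... : Sx_X` in `HX_X.lean`; the
hypotheses are the statements named under USES. `v = V.valuation`: `v x ≤ 1 ↔ x ∈ V`, `v x < 1 ↔ x ∈ V.nonunits`
(`ValuationSubring.valuation_le_one_iff`, `ValuationSubring.mem_nonunits_iff`). Most modules are proved for `p = 3`, `h = 1` in
`Pool/Agent/MU3/H_*.lean` (namespace `Pool.Agent.MU3H`, theorems `th_X`): adapt those proofs.
-/

set_option autoImplicit false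

namespace Pool.Agent.MUXH

open _root_.MU3 _root_.Pool.Agent.MuSym OnePoint

noncomputable section

/-! ## Distributions on `ℤ_p` with values in `ℂ` -/

/-- `M n b` is the value on the ball `b + p^n ℤ_p` -/
structure Dist (p : ℕ) (M : ℕ → ℤ → ℂ) : Prop where
  per : ∀ (n : ℕ) (b c : ℤ), (p : ℤ) ^ n ∣ b - c → M n b = M n c
  add : ∀ (n : ℕ) (b : ℤ), M n b = ∑ j ∈ Finset.range p, M (n + 1) (b + j * p ^ n)

/-- `u ≡ 1` modulo `p`, and modulo `4` if `p = 2` -/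
def Q0 (p : ℕ) (u : ℤ) : Prop := (p : ℤ) ∣ u - 1 ∧ (p = 2 → (4 : ℤ) ∣ u - 1)

/-- the combination of a function on `ℤ` (up to the sign `(-1)^N` it is `(E - 1)^N (a F(·) - a² F(a² ·))`,
`E F (b) = F (g b)`) -/
def comb (a g : ℤ) (N : ℕ) (F : ℤ → ℂ) (b : ℤ) : ℂ :=
  ∑ j ∈ Finset.range (N + 1), ((-1 : ℂ) ^ (N - j) * (N.choose j : ℂ)) *
    ((a : ℂ) * F (g ^ (N - j) * b) - (a : ℂ) ^ 2 * F (g ^ (N - j) * a ^ 2 * b))

/-- (HZ) the character sums of an integral distribution which is nonzero modulo `V` have small valuation.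

Model: `MU3/H_HZ.lean` (helper45). PROOF. `t = v p < 1`, `t ≠ 0`. Let `v (M m b₀) = 1`. Let `n > m` and `φ = (p-1) p^(n-1) > p^m (d + E)`. `P(T) = Σ_(b < p^n) M n b T^b`, coefficients in
`K ∩ V`, `P(1 + X) = Σ_k c_k X^k`, `c_k ∈ K`, `v c_k ≤ 1`. (1) Some `c_k` with `k < p^m` has `v c_k = 1`: otherwise, modulo the
maximal ideal, `(T - 1)^(p^m) = T^(p^m) - 1` (characteristic `p`) divides `P(T)`, so the sums of the coefficients over the classes modulo `p^m`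
(these are the `M m b₁` by additivity) would all be `0` modulo the maximal ideal, against `M m b₀`. Let `k₀` be the smallest such `k`.
(2) `y = v(ζ - 1)` satisfies `y^φ = t` (`p` = value at `1` of the cyclotomic polynomial = product of the `φ` numbers `1 - ζ^i`, `p ∤ i`, and
`v(1 - ζ^i) = v(1 - ζ)`); so `y < 1`, `y ≠ 0`. (3) In `P(ζ) = Σ c_k (ζ-1)^k` the term `k₀` has `v = y^k₀`,
the terms `k > k₀` have `v ≤ y^(k₀+1) < y^k₀`, the terms `k < k₀` have `v c_k < 1`, so `(v c_k)^d ≤ t = y^φ < y^(k₀ d)`, `v c_k < y^k₀`. So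
`v(P(ζ)) = y^k₀`, and `v(P(ζ))^E = y^(E k₀) > y^φ = t`. -/
def Sx_HZ : Prop :=
  ∀ (p : ℕ) (_ : p.Prime) (V : ValuationSubring ℂ) (_ : V.valuation (p : ℂ) < 1) (K : Subring ℂ)
    (d : ℕ) (_ : ∀ x ∈ K, V.valuation x < 1 → V.valuation x ^ d ≤ V.valuation (p : ℂ))
    (M : ℕ → ℤ → ℂ) (_ : Dist p M) (_ : ∀ n b, M n b ∈ K) (_ : ∀ n b, V.valuation (M n b) ≤ 1)
    (_ : ∃ n b, V.valuation (M n b) = 1) (E : ℕ),
    ∃ n₀ : ℕ, ∀ n, n₀ ≤ n → ∀ ζ : ℂ, IsPrimitiveRoot ζ (p ^ n) →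
      V.valuation (p : ℂ) < V.valuation (∑ b ∈ Finset.range (p ^ n), ζ ^ b * M n b) ^ E

/-- (STP) one step: `M` is not invariant under `u` modulo the maximal ideal.

Model: `MU3/H_STP.lean` (helper37). PROOF. `M' n b = c₁ M n (u b) - c₂ M n b`. `Dist M'`: `M n (u b) = Σ_j M (n+1) (u b + j p^n)` and `u (b + j p^n) - (u b + j p^n) = (u - 1) j p^n` is divisible by
`p^(n+1)`. Integrality: `u` is prime to `p`; `v c₂ ≤ 1`. Last part: suppose that `v (M' n b) < 1` for all `n ≥ 1`, `p ∤ b`. As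
`M' n b = c₁ (M n (u b) - M n b) + (c₁ - c₂) M n b`, `v (M n (u^i b) - M n b) < 1` for all `i`. Let `p^k` be the exact power of `p` dividing `u - 1`,
`k ≥ 1` (`k ≥ 2` if `p = 2`). For `n ≥ k`: `u^(p^(n-k)) ≡ 1 + p^n w` modulo `p^(n+1)`, `p ∤ w` (induction: `(1 + p^n w)^p ≡ 1 + p^(n+1) w` modulo `p^(n+2)`, for `n ≥ 1`, `n ≥ 2` if `p = 2`), so `b + j p^n ≡ u^i b` modulo `p^(n+1)` for
some `i` (`i = i' p^(n-k)`, `i' w b ≡ j` modulo `p`). So all `M (n+1) (b + j p^n)` are `M (n+1) b` up to elements with `v < 1`, and `M n b = Σ_j ..` is `p M (n+1) b` up to such elements, `v (M n b) < 1`.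
For `1 ≤ n < k` use additivity and descending induction on `n`. Contradiction. -/
def Sx_STP : Prop :=
  ∀ (p : ℕ) (_ : p.Prime) (V : ValuationSubring ℂ) (_ : V.valuation (p : ℂ) < 1) (M : ℕ → ℤ → ℂ)
    (_ : Dist p M)
    (_ : ∀ (n : ℕ) (b : ℤ), ¬ (p : ℤ) ^ n ∣ b → V.valuation (M n b) ≤ 1)
    (_ : ∃ (n : ℕ) (b : ℤ), 1 ≤ n ∧ ¬ (p : ℤ) ∣ b ∧ V.valuation (M n b) = 1)
    (u : ℤ) (_ : Q0 p u) (_ : u ≠ 1) (c₁ c₂ : ℂ) (_ : V.valuation c₁ = 1)
    (_ : V.valuation (c₁ - c₂) < 1),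
    Dist p (fun n b => c₁ * M n (u * b) - c₂ * M n b) ∧
    (∀ (n : ℕ) (b : ℤ), ¬ (p : ℤ) ^ n ∣ b → V.valuation (c₁ * M n (u * b) - c₂ * M n b) ≤ 1) ∧
    ∃ (n : ℕ) (b : ℤ), 1 ≤ n ∧ ¬ (p : ℤ) ∣ b ∧ V.valuation (c₁ * M n (u * b) - c₂ * M n b) = 1

/-- (H5) the combination is integral on all balls and nonzero modulo `V`.

USES STP. Model: `MU3/H_H5.lean` (helper46). PROOF. `M₀ n b = a M n b - a² M n (a² b)`: STP with `u = a²`, `c₁ = -a²`, `c₂ = -a` (`v a = 1` as `p ∤ a`, `c₁ - c₂ = -a (a - 1)`, `p ∣ a - 1`; `a² ≠ 1` because `a ≠ 1` and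
`a ≠ -1` (`p ∤ -2` for `p` odd, `4 ∤ -2`); `Q0 p (a²)`). `M_(i+1) n b = M_i n (g b) - M_i n b`: STP with `u = g`, `c₁ = c₂ = 1`. All `M_i` are `Dist`, integral off `0`, with a value of valuation `1` on units. For `i ≥ 1` and
`p^n ∣ b`: `M_i n b = 0` (periodicity), so `M_i`, `i ≥ 1`, is integral everywhere. `M_N n b = Σ_i (-1)^(N-i) binom(N, i) M₀ n (g^i b)`, so
`comb a g N (M n) b = (-1)^N M_N n b` (`i = N - j`). -/
def Sx_H5 : Prop :=
  ∀ (p : ℕ) (_ : p.Prime) (V : ValuationSubring ℂ) (_ : V.valuation (p : ℂ) < 1) (M : ℕ → ℤ → ℂ)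
    (_ : Dist p M)
    (_ : ∀ (n : ℕ) (b : ℤ), ¬ (p : ℤ) ^ n ∣ b → V.valuation (M n b) ≤ 1)
    (_ : ∃ (n : ℕ) (b : ℤ), 1 ≤ n ∧ ¬ (p : ℤ) ∣ b ∧ V.valuation (M n b) = 1)
    (a g : ℤ) (_ : Q0 p a) (_ : a ≠ 1) (_ : Q0 p g) (_ : g ≠ 1) (N : ℕ) (_ : 1 ≤ N),
    Dist p (fun n => comb a g N (M n)) ∧ (∀ n b, V.valuation (comb a g N (M n) b) ≤ 1) ∧
      ∃ n b, V.valuation (comb a g N (M n) b) = 1

/-- (MD) the distribution attached to a cycle of functions under `U_p`: `U_p g_i = g_(i+1)`, `g_h = a g_0`.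

PROOF. (1) `g (i+h) = a g i`: induction on `i` (`g (i+1+h) r = Σ_j g (i+h) ((r+j)/p)`). (2) `per`: `b/p^n - c/p^n` is an integer. `add`: `Σ_j g ((h-1)(n+1) + r) ((b + j p^n)/p^(n+1)) = g ((h-1)(n+1) + r + 1) (b/p^n)`,
`(b + j p^n)/p^(n+1) = (b/p^n + j)/p`, and `(h-1)(n+1) + r + 1 = ((h-1) n + r) + h` (`h ≥ 1`), so by (1) it is `a g ((h-1) n + r) (b/p^n)`; divide by `c a^(n+1)`. (3) induction on `i` (`b' = b₁ + j p^i`..: write `g (i+1) (b/p^n) = Σ_j g i ((b + j p^n)/p^(n+1))` and use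
the formula for `i`, `n + 1`, `b + j p^n`; `b'' = j + p b'` runs through `range (p^(i+1))`). -/
def Sx_MD : Prop :=
  ∀ (p : ℕ) (_ : 1 ≤ p) (g : ℕ → ℚ → ℂ) (a c : ℂ) (h r : ℕ) (_ : 1 ≤ h) (_ : a ≠ 0)
    (_ : ∀ (i : ℕ) (x : ℚ) (k : ℤ), g i (x + k) = g i x)
    (_ : ∀ (i : ℕ) (x : ℚ), ∑ j ∈ Finset.range p, g i ((x + j) / p) = g (i + 1) x)
    (_ : ∀ x : ℚ, g h x = a * g 0 x),
    (∀ (i : ℕ) (x : ℚ), g (i + h) x = a * g i x) ∧
    Dist p (fun n b => g ((h - 1) * n + r) (b / p ^ n) / (c * a ^ n)) ∧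
    ∀ (i n : ℕ) (b : ℤ), g i (b / p ^ n) =
      ∑ b' ∈ Finset.range (p ^ i), g 0 (((b + b' * p ^ n : ℤ) : ℚ) / p ^ (n + i))

/-- (MAX) a subset of a finitely generated group has an element of maximal valuation, and the group generated by it
is generated by finitely many of its elements.

Model: `MU3/H_MAX.lean` (helper89). PROOF. The subgroup generated by `S` is a submodule of a finitely generated `ℤ`-module, so finitely generated, and it is generated by a finite subset `S₀` of `S`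
(a finite set of generators, each is a combination of finitely many elements of `S`; add one element of `S` if empty). Integers are in `V`, so every `x ∈ S` has `v x ≤` the maximum of `v` on `S₀`. -/
def Sx_MAX : Prop :=
  ∀ (V : ValuationSubring ℂ) (T : Finset ℂ) (S : Set ℂ)
    (_ : S ⊆ (AddSubgroup.closure (T : Set ℂ) : Set ℂ)) (_ : S.Nonempty),
    (∃ l ∈ S, ∀ x ∈ S, V.valuation x ≤ V.valuation l) ∧
    ∃ S₀ : Finset ℂ, (S₀ : Set ℂ) ⊆ S ∧ S ⊆ (AddSubgroup.closure (S₀ : Set ℂ) : Set ℂ)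

/-- (ALB) an algebraic number times a power of `p` is in `V`.

Model: `MU3/H_ALB.lean` (helper84). PROOF. `n l` is integral over `ℤ` for some integer `n ≠ 0`, `V` is integrally closed, so `v(n l) ≤ 1`; `n = p^k m`, `p ∤ m`, `v m = 1` (Bezout). -/
def Sx_ALB : Prop :=
  ∀ (p : ℕ) (_ : p.Prime) (V : ValuationSubring ℂ) (_ : V.valuation (p : ℂ) < 1) (l : ℂ),
    IsAlgebraic ℚ l → ∃ k : ℕ, V.valuation (p ^ k * l) ≤ 1

/-- (DIS) `v` is discrete on a number field.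

PROOF. `d = finrank ℚ K`, `x ∈ K`, `v x < 1` (the case `x = 0` is clear, `v 0 ^ d = 0` as `d ≥ 1`). `1, x, .., x^d` are linearly dependent over `ℚ`: `Σ c_i x^i = 0` with rational `c_i`, not all `0`. Two different nonzero terms have the same, maximal valuation (otherwise the sum would have
the maximal valuation, nonzero): `v (c_i) v(x)^i = v (c_j) v(x)^j`, `i < j ≤ d`, so `v(x)^(j-i) = v(c_i/c_j)`. A nonzero rational number is `p^k m/n`, `p ∤ m n`, so its valuation is `v(p)^k` (`k ∈ ℤ`, Bezout: `v m = v n = 1`). As `v(x)^(j-i) < 1`, `k ≥ 1` and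
`v(x)^(j-i) ≤ v p`, so `v(x)^d ≤ v(x)^(j-i) ≤ v p`. -/
def Sx_DIS : Prop :=
  ∀ (p : ℕ) (_ : p.Prime) (V : ValuationSubring ℂ) (_ : V.valuation (p : ℂ) < 1)
    (K : IntermediateField ℚ ℂ) (_ : FiniteDimensional ℚ K),
    ∃ d : ℕ, ∀ x ∈ K, V.valuation x < 1 → V.valuation x ^ d ≤ V.valuation (p : ℂ)

/-! ## Symbols -/

/-- (HK) elementary facts on symbols of weight two.

Model: `MU3/H_HK.lean` (helper5). PROOF. `mob 1 k 0 1` is the translation by `k` (it fixes `∞`), `mob (-1) 0 0 1` is `x ↦ -x`. (i) equivariance for `(1 k; 0 1)`, `nu 1 = 1`, at `r` and `-r - k`. (ii) `-(h x) = h' (-x)`,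
`h' = (a, -b; -c, d)`, same `d`, `N' ∣ -c`. (iii) `hecke` at `(∞, r)` and at `(∞, -r)`: `-(r + j)/p = (-r + (p - j))/p - 1`, so the sum over `j` of `P ∞ (-(r + j)/p)` is the sum of the `P ∞ ((-r + j)/p)`. -/
def Sx_HK : Prop :=
  ∀ (p : ℕ) (_ : 1 ≤ p) (N' : ℕ) (nu : ℤ → ℂ) (P Q : OnePoint ℚ → OnePoint ℚ → ℂ)
    (_ : IsSym N' nu P) (_ : nu 1 = 1) (s : ℂ),
    (∀ (r : ℚ) (k : ℤ), sgnPart s P ∞ ((r + k : ℚ) : OnePoint ℚ) =
      sgnPart s P ∞ (r : OnePoint ℚ)) ∧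
    IsSym N' nu (sgnPart s P) ∧
    (nu p = 0 → (∀ x y, hecke p nu P x y = Q x y) → ∀ r : ℚ,
      ∑ j ∈ Finset.range p, sgnPart s P ∞ (((r + j) / p : ℚ) : OnePoint ℚ) =
        sgnPart s Q ∞ (r : OnePoint ℚ))

/-- (KMX) the key lemma for a cycle of symbols `Φ_(i+1) = U_p Φ_i`, `Φ_h = a Φ_0`.

USES `Pool.Agent.MU3.S_KM2` (proved: `Pool.Agent.MU3H.h_KM2` in `HAll.lean`). PROOF. `M' = Fin h → M`, `Φ' x y = (Φ i x y)_(i < h)`, `T : M' → M'`, `T m i = m (i+1)` for `i + 1 < h` and `T m (h-1) = a • m 0`: `R`-linear, `T^h = a`. `R' = Algebra.adjoin R {T}` in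
`Module.End R M'`, a commutative ring (`Algebra.adjoinCommRingOfComm`, or use `AdjoinRoot (X^h - C a)` or a quotient of `R[X]`), `T` is a unit of `R'` (`T T^(h-1) a⁻¹ = 1`). KM2 for `R'`, `M'`, `χ' = algebraMap ∘ χ`, `Φ'`, the unit `T`: `T • Φ' ∞ x = Σ_j Φ' ∞ ((x+j)/p)` (component `i`: `Φ (i+1) ∞ x`, and
`Φ h ∞ x = a • Φ 0 ∞ x`). Vanishing of the component `i` at `b/p^n`, `n ≥ 1`, `p ∤ b`: `Φ i ∞ (b/p^n)` is the sum of the `Φ (i-1) ∞ ((b + j p^n)/p^(n+1))`, induction on `i`. The component `0` of the conclusion is the claim. -/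
def Sx_KMX : Prop := ∀ (p : ℕ) (_ : p.Prime) (N' s : ℕ) (_ : p.Coprime N') (_ : N' ≠ 0) (R M : Type)
    [CommRing R] [AddCommGroup M] [Module R M] (χ : ℤ → R)
    (Φ : ℕ → OnePoint ℚ → OnePoint ℚ → M) (h : ℕ) (_ : 1 ≤ h)
    (a : R) (_ : IsUnit a) (k : ℕ) (_ : ∀ i x y, (p : R) ^ k • Φ i x y = 0)
    (_ : χ 1 = 1) (_ : ∀ d d' : ℤ, χ (d * d') = χ d * χ d')
    (_ : ∀ d d' : ℤ, ((p * N' : ℕ) : ℤ) ∣ d - d' → χ d = χ d')
    (_ : ∀ i x y z, Φ i x y + Φ i y z = Φ i x z)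
    (_ : ∀ (i : ℕ) (a b c d : ℤ), a * d - b * c = 1 → ((p ^ (s + 1) * N' : ℕ) : ℤ) ∣ c → ∀ x y,
      Φ i (mob a b c d x) (mob a b c d y) = χ d • Φ i x y)
    (_ : ∀ (i : ℕ) (x : ℚ), Φ (i + 1) ∞ (x : OnePoint ℚ) =
      ∑ j ∈ Finset.range p, Φ i ∞ (((x + j) / p : ℚ) : OnePoint ℚ))
    (_ : ∀ x : ℚ, Φ h ∞ (x : OnePoint ℚ) = a • Φ 0 ∞ (x : OnePoint ℚ))
    (_ : ∀ n, 1 ≤ n → ∀ b : ℤ, ¬ (p : ℤ) ∣ b → Φ 0 ∞ ((b / p ^ n : ℚ) : OnePoint ℚ) = 0),
    ∀ α β γ δ : ℤ, α * δ - β * γ = 1 → ((p ^ (s + 1) * N' : ℕ) : ℤ) ∣ γ →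
      ((p ^ (s + 1) * N' : ℕ) : ℤ) ∣ δ - 1 → ∀ x, Φ 0 x (mob α β γ δ x) = 0

/-- the standing hypotheses: a cycle of symbols `P (i+1) = U_p (P i)`, `P h = a P 0`, already divided by the period -/
structure HypA (p : ℕ) (V : ValuationSubring ℂ) (N₀ s₀ h : ℕ) (a : ℂ) (nu : ℤ → ℂ)
    (P : ℕ → OnePoint ℚ → OnePoint ℚ → ℂ) (s : ℤ) : Prop where
  pp : p.Prime
  vp : V.valuation (p : ℂ) < 1
  N0 : N₀ ≠ 0
  cop : p.Coprime N₀
  h1 : 1 ≤ h
  va : V.valuation a = 1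
  alga : IsAlgebraic ℚ a
  nu1 : nu 1 = 1
  nup : nu p = 0
  num : ∀ d d', nu (d * d') = nu d * nu d'
  nuper : ∀ d d', ((p * N₀ : ℕ) : ℤ) ∣ d - d' → nu d = nu d'
  nuv : ∀ d, V.valuation (nu d) ≤ 1
  sym : ∀ i, IsSym (p ^ (s₀ + 1) * N₀) nu (P i)
  hec : ∀ i x y, hecke p nu (P i) x y = P (i + 1) x y
  per : ∀ x y, P h x y = a * P 0 x y
  alg : ∀ x y, IsAlgebraic ℚ (P 0 x y)
  fin : ∃ T : Finset ℂ, ∀ x y, P 0 x y ∈ AddSubgroup.closure (T : Set ℂ)
  s1 : s = 1 ∨ s = -1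
  /-- Theorem G -/
  G : ∀ N' : ℕ, N' ≠ 0 → p ^ (s₀ + 1) * N₀ ∣ N' → ∃ α β γ δ : ℤ, α * δ - β * γ = 1 ∧
    (N' : ℤ) ∣ γ ∧ (N' : ℤ) ∣ δ - 1 ∧ 1 ≤ V.valuation (P 0 ∞ (mob α β γ δ ∞))
  /-- the projector: integral twists of the part `s` give the symbol -/
  prj : ∃ (q : ℕ) (c : ℕ → ℂ), q ≠ 0 ∧ (∀ t, V.valuation (c t) ≤ 1) ∧ ∀ x y : OnePoint ℚ,
    ∑ t ∈ Finset.range q, c t * sgnPart (s : ℂ) (P 0) (mob q t 0 q x) (mob q t 0 q y) = P 0 x y

/-- (FLD) all values are in a number field.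

USES MAX. PROOF. MAX for the set of all `P 0 x y` (nonempty): they are in the subgroup generated by finitely many of them, which are algebraic; `K = ℚ(these, a)` is finite over `ℚ` (`IntermediateField.finiteDimensional_adjoin`, algebraic = integral). `P i x y ∈ K` by induction on `i`: `hec`, `nup`
(`hecke` is then a sum of values of `P i`). -/
def Sx_FLD : Prop :=
  ∀ (p : ℕ) (V : ValuationSubring ℂ) (N₀ s₀ h : ℕ) (a : ℂ) (nu : ℤ → ℂ)
    (P : ℕ → OnePoint ℚ → OnePoint ℚ → ℂ) (s : ℤ) (_ : HypA p V N₀ s₀ h a nu P s),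
    ∃ K : IntermediateField ℚ ℂ, FiniteDimensional ℚ K ∧ a ∈ K ∧ ∀ i x y, P i x y ∈ K

/-- (BD) the values have bounded denominators.

USES MAX, ALB. PROOF. MAX for the set of all `P 0 x y`: one of them, `l`, has maximal valuation; ALB gives `k`. For `P i`: a sum of values of `P 0` (induction, `hec`, `nup`), same `k` (`v` of a sum is at most the maximum). -/
def Sx_BD : Prop :=
  ∀ (p : ℕ) (V : ValuationSubring ℂ) (N₀ s₀ h : ℕ) (a : ℂ) (nu : ℤ → ℂ)
    (P : ℕ → OnePoint ℚ → OnePoint ℚ → ℂ) (s : ℤ) (_ : HypA p V N₀ s₀ h a nu P s),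
    ∃ k : ℕ, ∀ i x y, V.valuation (p ^ k * P i x y) ≤ 1

/-- (H1) the part `s` of the symbol is not zero modulo `V` on closed cycles.

Model: `MU3/H_H1.lean` (helper92). PROOF. Let `N' = p^(s₀+1) N₀`, suppose `v (sgnPart s (P 0) ∞ (h ∞)) < 1` for all `h` in `Γ₁(N')`. `q`, `c` from `prj`; `h = (α β; γ δ)` from `G` for `N' q²`. `prj` at `x = ∞`, `y = h ∞`: `P 0 ∞ (h ∞) = Σ_t c_t sgnPart s (P 0) (T_t ∞) (T_t h ∞)`, `T_t = mob q t 0 q`, `T_t ∞ = ∞`, and `T_t (h ∞) = h' ∞` with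
`h' = T_t h T_t⁻¹ = (α + t γ/q, β + t (δ - α)/q - t² γ/q²; γ, δ - t γ/q)`, integral because `N' q² ∣ γ`, `N' q² ∣ δ - 1` and `N' q² ∣ α - 1` (`α δ = 1 + β γ`), and in `Γ₁(N')` (on `∞` check `mob` directly: `γ = 0` or not). So every term has `v < 1`: contradiction. -/
def Sx_H1 : Prop :=
  ∀ (p : ℕ) (V : ValuationSubring ℂ) (N₀ s₀ h : ℕ) (a : ℂ) (nu : ℤ → ℂ)
    (P : ℕ → OnePoint ℚ → OnePoint ℚ → ℂ) (s : ℤ) (_ : HypA p V N₀ s₀ h a nu P s),
    ∃ α β γ δ : ℤ, α * δ - β * γ = 1 ∧ ((p ^ (s₀ + 1) * N₀ : ℕ) : ℤ) ∣ γ ∧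
      ((p ^ (s₀ + 1) * N₀ : ℕ) : ℤ) ∣ δ - 1 ∧
      1 ≤ V.valuation (sgnPart (s : ℂ) (P 0) ∞ (mob α β γ δ ∞))

/-- (H2) some value at `b/p^n`, `p ∤ b`, `n ≥ 1`, is not in the maximal ideal.

USES KMX, H1, HK, BD. Model: `MU3/H_H2.lean` (helper54). PROOF. Suppose the contrary. Let `R = V`, `M = ℂ ⧸ m`, `m` = the `V`-submodule of the `x` with `v x < 1`, `Φ i x y` = the class of `sgnPart s (P i) x y`, `χ d = ⟨nu d, _⟩`,
the unit `⟨a, _⟩`. Hypotheses of KMX: killed by `p^(k+1)` (BD); `χ`; additivity and equivariance: HK (ii); `Φ (i+1) ∞ x = Σ_j ..`: HK (iii) with `hec`; `Φ h = a Φ 0`: `per`; vanishing: assumption. KMX gives: `v (sgnPart s (P 0) ∞ (h ∞)) < 1` for all `h` in `Γ₁(p^(s₀+1) N₀)`, against H1. -/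
def Sx_H2 : Prop :=
  ∀ (p : ℕ) (V : ValuationSubring ℂ) (N₀ s₀ h : ℕ) (a : ℂ) (nu : ℤ → ℂ)
    (P : ℕ → OnePoint ℚ → OnePoint ℚ → ℂ) (s : ℤ) (_ : HypA p V N₀ s₀ h a nu P s),
    ∃ (n : ℕ) (b : ℤ), 1 ≤ n ∧ ¬ (p : ℤ) ∣ b ∧
      1 ≤ V.valuation (sgnPart (s : ℂ) (P 0) ∞ ((b / p ^ n : ℚ) : OnePoint ℚ))

/-- (HA) the conclusion of the abstract block: there is a residue class of `n` modulo `h` such that the character
sums of the combination have small valuation. `q0 = 3`, `E = 2` for `p = 3`; `q0 = 4`, `E = 1` for `p = 2`.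

PROOF (helper27, glue). `S` = the set of the `sgnPart s (P 0) ∞ (b/p^n)`, `n ≥ 1`, `p ∤ b`. MAX: `lam ∈ S` of maximal valuation, `v lam ≥ 1` (H2), `lam` = value at `(n₂, b₂)`; `r = n₂`. `g i x = sgnPart s (P i) ∞ x`,
`M n b = g ((h-1) n + r) (b/p^n)/(lam a^n)` is `Dist` (MD, HK). `v (M n b) ≤ 1` for `¬ p^n ∣ b`: `(h-1) n + r + h k = i₀ + h k'`..: by MD (1) the index may be reduced modulo `h`, by MD (3) `g i (b/p^n)` is a sum of values `g 0 (b''/p^(n+i))`, `¬ p^n ∣ b''`, each in `S`. At `n₂`: index `h n₂`, `g (h n₂) = a^(n₂) g 0`, so `M n₂ b₂ = 1`.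
H5, FLD + DIS, HZ. For `n ≡ r` modulo `h`, `n ≥ r`: `n = r + h k`, index `h (n - k)`, `M n b = g 0 (b/p^n)/(lam a^k)`. -/
def Sx_HA : Prop :=
  ∀ (p : ℕ) (V : ValuationSubring ℂ) (N₀ s₀ h : ℕ) (a : ℂ) (nu : ℤ → ℂ)
    (P : ℕ → OnePoint ℚ → OnePoint ℚ → ℂ) (s : ℤ) (_ : HypA p V N₀ s₀ h a nu P s),
    ∃ r : ℕ, ∀ (α g : ℤ) (_ : Q0 p α) (_ : α ≠ 1) (_ : Q0 p g) (_ : g ≠ 1) (N : ℕ) (_ : 1 ≤ N)
      (E : ℕ), ∃ n₀ : ℕ, ∀ n, n₀ ≤ n → n % h = r % h → ∀ ζ : ℂ, IsPrimitiveRoot ζ (p ^ n) →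
        V.valuation (p : ℂ) < V.valuation (∑ b ∈ Finset.range (p ^ n), ζ ^ b *
          comb α g N (fun b => sgnPart (s : ℂ) (P 0) ∞ ((b / p ^ n : ℚ) : OnePoint ℚ)) b) ^ E

end

end Pool.Agent.MUXH


end

section

/-!
# MUX-NS, block HN (helper87): PAPER_NS.md, sections 5, 6 and TYPE, inert case, abstract

`p = 3`. Nothing here depends on the field `k`. Every statement is a `def Sn_X : Prop`; a module proves
`theorem tn_X (h : ..) ... : Sn_X` in `Pool/Agent/MUX/HN_X.lean`, namespace `Pool.Agent.MUXHN`; the hypotheses are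
the statements named under USES. `v = V.valuation`: `v x ≤ 1 ↔ x ∈ V` (`ValuationSubring.valuation_le_one_iff`).
`comb`, `Q0` : StHX.lean. `comb a g N F b = Σ_j (-1)^(N-j) binom(N,j) (a F(g^(N-j) b) - a² F(g^(N-j) a² b))`.
-/

set_option autoImplicit false

namespace Pool.Agent.MUXHN

open _root_.MU3 _root_.Pool.Agent.MuSym _root_.Pool.Agent.MUXH OnePoint

noncomputable section

/-- `P_t(x, y) = P(x, y) - P(x + t, y + t)`, `t = 1/27` -/
def PT (P : OnePoint ℚ → OnePoint ℚ → ℂ) (x y : OnePoint ℚ) : ℂ :=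
  P x y - P (mob 27 1 0 27 x) (mob 27 1 0 27 y)

/-- the standing hypotheses: `P = Σ_i kk_i PhiI (b_i) / Om`; `s` the sign; `KI` the inertia field of the field of the
values (`v` is unramified on it), all values are in `pi * KI`, `v(pi) = v(3)^(-i/8)`, `4 ≤ i ≤ 7` (TYPE) -/
structure HypN (V : ValuationSubring ℂ) (N₀ s₀ i : ℕ) (nu : ℤ → ℂ)
    (P : OnePoint ℚ → OnePoint ℚ → ℂ) (s : ℤ) (pi : ℂ) (KI : Subfield ℂ) : Prop where
  vp : V.valuation (3 : ℂ) < 1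
  N0 : N₀ ≠ 0
  cop : Nat.Coprime 3 N₀
  nu1 : nu 1 = 1
  num : ∀ d d', nu (d * d') = nu d * nu d'
  nuper : ∀ d d', ((3 * N₀ : ℕ) : ℤ) ∣ d - d' → nu d = nu d'
  nuv : ∀ d, V.valuation (nu d) ≤ 1
  sym : IsSym (3 ^ (s₀ + 1) * N₀) nu P
  dep : ∀ x : ℚ, ∑ j ∈ Finset.range 3, P ∞ (((x + j) / 3 : ℚ) : OnePoint ℚ) = 0
  alg : ∀ x y, IsAlgebraic ℚ (P x y)
  fin : ∃ T : Finset ℂ, ∀ x y, P x y ∈ AddSubgroup.closure (T : Set ℂ)
  s1 : s = 1 ∨ s = -1
  typ : ∀ x y, ∃ w ∈ KI, P x y = pi * w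
  unr : ∀ w ∈ KI, V.valuation w < 1 → V.valuation w ≤ V.valuation (3 : ℂ)
  i4 : 4 ≤ i
  i7 : i ≤ 7
  vpi : V.valuation pi ^ 8 * V.valuation (3 : ℂ) ^ i = 1
  /-- Theorem G for `P_t`: `v(P_t) ≥ v(1 - ζ_27)` on closed cycles of any level -/
  G : ∀ N' : ℕ, N' ≠ 0 → 3 ^ (s₀ + 1) * N₀ ∣ N' → ∃ α β γ δ : ℤ, α * δ - β * γ = 1 ∧
    (N' : ℤ) ∣ γ ∧ (N' : ℤ) ∣ δ - 1 ∧
    V.valuation (3 : ℂ) ≤ V.valuation (PT P ∞ (mob α β γ δ ∞)) ^ 18
  /-- the projector -/
  prj : ∃ (q : ℕ) (c : ℕ → ℂ), q ≠ 0 ∧ (∀ t, V.valuation (c t) ≤ 1) ∧ ∀ x y : OnePoint ℚ,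
    ∑ t ∈ Finset.range q, c t * sgnPart (s : ℂ) P (mob q t 0 q x) (mob q t 0 q y) = P x y

/-- (BDN) bounded denominators. USES `MUXH.Sx_MAX`, `MUXH.Sx_ALB` (proved: `tx_MAX`, `tx_ALB` in `HX_MAX`, `HX_ALB`).
MODEL: `MUX/HX_BD.lean` (only the part for `P 0`). -/
def Sn_BDN : Prop :=
  ∀ (V : ValuationSubring ℂ) (_ : V.valuation (3 : ℂ) < 1) (P : OnePoint ℚ → OnePoint ℚ → ℂ)
    (_ : ∀ x y, IsAlgebraic ℚ (P x y))
    (_ : ∃ T : Finset ℂ, ∀ x y, P x y ∈ AddSubgroup.closure (T : Set ℂ)),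
    ∃ k : ℕ, ∀ x y, V.valuation (3 ^ k * P x y) ≤ 1

/-- (HKN) the part `s` of the symbol.

USES `MUXH.Sx_HK` (proved: `tx_HK` in `HX_HK`) or its proof. PROOF. `Q = sgnPart s P`. `IsSym` and the period: HK. Depletion:
`-(x + j)/3 = (-x + (3 - j))/3 - 1`, so the sum over `j` of `P ∞ (-(x+j)/3)` is the sum of the `P ∞ ((-x+j)/3)` (or
HK (iii) with the zero symbol if you know `hecke 3 nu P = 0`). -/
def Sn_HKN : Prop :=
  ∀ (N' : ℕ) (nu : ℤ → ℂ) (P : OnePoint ℚ → OnePoint ℚ → ℂ) (s : ℂ), IsSym N' nu P → nu 1 = 1 →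
    (∀ x : ℚ, ∑ j ∈ Finset.range 3, P ∞ (((x + j) / 3 : ℚ) : OnePoint ℚ) = 0) →
    IsSym N' nu (sgnPart s P) ∧
    (∀ (r : ℚ) (k : ℤ), sgnPart s P ∞ ((r + k : ℚ) : OnePoint ℚ) =
      sgnPart s P ∞ (r : OnePoint ℚ)) ∧
    ∀ x : ℚ, ∑ j ∈ Finset.range 3, sgnPart s P ∞ (((x + j) / 3 : ℚ) : OnePoint ℚ) = 0

/-- (H1N) Theorem G for the part `s`.

MODEL: `MUX/HX_H1.lean`. PROOF. `q`, `c` from `prj`, `h` from `G` for `N' q²`. With `T_t = mob q t 0 q`, `τ = mob 27 1 0 27`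
(`T_t τ = τ T_t` on cusps): `PT P ∞ (h ∞) = Σ_t c_t PT (sgnPart s P) ∞ (h_t ∞)`, `T_t (h ∞) = h_t ∞`, `h_t = T_t h T_t⁻¹ =
(α + t γ/q, β + t (δ - α)/q - t² γ/q²; γ, δ - t γ/q)`, integral and in `Γ₁(N')`. If all terms had
`v(..)^18 < v 3` then so would the sum (`v` of the sum is at most the maximum). -/
def Sn_H1N : Prop :=
  ∀ (V : ValuationSubring ℂ) (N₀ s₀ i : ℕ) (nu : ℤ → ℂ) (P : OnePoint ℚ → OnePoint ℚ → ℂ)
    (s : ℤ) (pi : ℂ) (KI : Subfield ℂ), HypN V N₀ s₀ i nu P s pi KI →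
    ∀ N' : ℕ, N' ≠ 0 → 3 ^ (s₀ + 1) * N₀ ∣ N' → ∃ α β γ δ : ℤ, α * δ - β * γ = 1 ∧
      (N' : ℤ) ∣ γ ∧ (N' : ℤ) ∣ δ - 1 ∧
      V.valuation (3 : ℂ) ≤ V.valuation (PT (sgnPart (s : ℂ) P) ∞ (mob α β γ δ ∞)) ^ 18

/-- (TYP) arithmetic of types.

PROOF. `t = v 3`, `0 < t < 1`, `x = pi w`, `v(pi)^8 t^i = 1`. If `v w < 1` then `v w ≤ t`. (a) `t ≤ v(x)^18` and `v w ≤ t`:
`t^8 ≤ v(x)^144`, times `t^(18 i)`: `t^(8 + 18 i) ≤ v(w)^144 ≤ t^144`, but `8 + 18 i ≤ 134 < 144`. So `v w ≥ 1` and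
`v(x)^8 ≥ v(pi)^8 ≥ 1`. (b) `1 ≤ v x` and `v w ≤ t`: `t^i ≤ v(x)^8 t^i = v(w)^8 ≤ t^8`, but `i < 8`. So `v w ≥ 1`,
`v(x)^8 t^4 ≥ v(pi)^8 t^4 ≥ 1`, i.e. `(v(x)² t)^4 ≥ 1`. -/
def Sn_TYP : Prop :=
  ∀ (V : ValuationSubring ℂ) (_ : V.valuation (3 : ℂ) < 1) (KI : Subfield ℂ)
    (_ : ∀ w ∈ KI, V.valuation w < 1 → V.valuation w ≤ V.valuation (3 : ℂ)) (i : ℕ) (_ : 4 ≤ i)
    (_ : i ≤ 7) (pi : ℂ) (_ : V.valuation pi ^ 8 * V.valuation (3 : ℂ) ^ i = 1), ∀ w ∈ KI,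
    (V.valuation (3 : ℂ) ≤ V.valuation (pi * w) ^ 18 → 1 ≤ V.valuation (pi * w)) ∧
    (1 ≤ V.valuation (pi * w) → 1 ≤ V.valuation (pi * w) ^ 2 * V.valuation (3 : ℂ))

/-- (LOC) if the combinations are in `m` then `z` is locally constant modulo `m` on the units, uniformly in the
level. `m` is any `V`-submodule of `ℂ`.

PROOF. Write `E_u y (b) = y (u b)` and `x ≡ y` for `x - y ∈ m`. `comb α g N z = ± A (E_g - 1)^N z`, `A y = α y - α² E_(α²) y`
(expand; `E_g` and `A` commute). (1) Let `y n = (E_g - 1)^N (z n)`: `α y (b) ≡ α² y (α² b)` for `3 ∤ b`, `n ≥ n₀`; `α` is a unit of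
`V`, so `y (α^(2 i) b) ≡ α^(-i) y (b)`; for `3^k ∣ i`: `α^i - 1` is divisible by `3^(k+1)` and `3^k y ∈ m`: `y (α^(2 i) b) ≡ y (b)`.
Let `e ≥ 1` be the exponent of `3` in `α² - 1`. For every `n` the powers of `α^(2 3^k)` are, modulo `3^n`, all classes `≡ 1`
modulo `3^(e+k)` (see `STP`: `α^(2 3^j) ≡ 1 + 3^(e+j) w` modulo `3^(e+j+1)`, `3 ∤ w`). So `y n b ≡ y n b'` for
`3^(e+k) ∣ b - b'`, `3 ∤ b`. (2) Step down: if `y' = E_g y - y` is locally constant (mod `3^r`) then so is `y`: let `u = g^(3^r)`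
(`3^r ∣ u - 1`), `S (b) = Σ_(i < 3^r) y' (g^i b)`: `y (u b) - y (b) = S (b)`, `S (u b) ≡ S (b)`, so `y (u^j b) - y (b) ≡ j S (b)`, which is in
`m` for `3^k ∣ j`; the powers of `u^(3^k)` are all classes `≡ 1` modulo `3^(r')`, `r' = e' + r + k`, `e'` the exponent of `3`
in `g - 1`. Induction on `N`. -/
def Sn_LOC : Prop :=
  ∀ (V : ValuationSubring ℂ) (_ : V.valuation (3 : ℂ) < 1) (m : Submodule V ℂ) (z : ℕ → ℤ → ℂ)
    (k n₀ : ℕ) (_ : ∀ (n : ℕ) (b c : ℤ), (3 : ℤ) ^ n ∣ b - c → z n b = z n c)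
    (_ : ∀ n b, (3 : ℂ) ^ k * z n b ∈ m) (α g : ℤ) (_ : (3 : ℤ) ∣ α - 1) (_ : α ≠ 1)
    (_ : (3 : ℤ) ∣ g - 1) (_ : g ≠ 1) (N : ℕ)
    (_ : ∀ n, n₀ ≤ n → ∀ b : ℤ, ¬ (3 : ℤ) ∣ b → comb α g N (z n) b ∈ m),
    ∃ r : ℕ, ∀ n, n₀ ≤ n → ∀ b b' : ℤ, ¬ (3 : ℤ) ∣ b → (3 : ℤ) ^ r ∣ b - b' →
      z n b - z n b' ∈ m

/-- (PAI) the value at a pair of determinant `3^n`.

PROOF. `α' δ - β c = 1` with `α' = a`: choose `δ, β` with `a δ - β c = 1`. `h = (δ, -β; -c, a)` has determinant 1 and `N' ∣ -c`, so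
`Q (h x) (h y) = nu a * Q x y`. `h (a/c) = ∞`; `h (b/d) = (δ b - β d)/(a d - b c) = e/3^n`, `e = δ b - β d`,
`a e - b = β (c b - a d) = - β 3^n`. -/
def Sn_PAI : Prop :=
  ∀ (N' : ℕ) (nu : ℤ → ℂ) (Q : OnePoint ℚ → OnePoint ℚ → ℂ), IsSym N' nu Q →
    ∀ (n : ℕ) (a b c d : ℤ), c ≠ 0 → d ≠ 0 → IsCoprime a c → (N' : ℤ) ∣ c →
      a * d - b * c = 3 ^ n → ∃ e : ℤ, (3 : ℤ) ^ n ∣ a * e - b ∧
      nu a * Q (((a : ℚ) / c : ℚ) : OnePoint ℚ) (((b : ℚ) / d : ℚ) : OnePoint ℚ) =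
        Q ∞ (((e : ℚ) / 3 ^ n : ℚ) : OnePoint ℚ)

/-- (KYN) from locally constant values to vanishing closed cycles of `Q_t`.

USES PAI, `NSY.key0` (file `Pool/Agent/NS/Y_Key0.lean`). PROOF. `M = ℂ ⧸ m` (`m` as an additive group; it is a `V`-submodule, so an integer `q` prime to
`3`, a unit of `V`, has no torsion). `R = 6 + (s₀ + 1) + r + 1`, `Φ x y` = the class of `PT Q x y`. `inv` for `Γ₁(3^R N₀)`: `τ h τ⁻¹ =
(a + c/27, b + (d - a)/27 - c/729; c, d - c/27)` is integral (`3^R ∣ c`, `d - 1`, `a - 1`) and in `Γ₀(3^(s₀+1) N₀)` with lower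
right entry `≡ 1` modulo `3 N₀`; `nu = 1` for it and for `h`. (A), `n ≥ n₁ := n₀ + r + 4`: `(a, c)`, `(b, d)` as in `key0`; `3` divides `c`, so
not `a`; `a` is prime to `N₀`; `d = (3^n + b c)/a`, so `3^(r+4) ∣ d` and `3 ∤ b`. PAI for `Q`: `nu a Q u w = Q ∞ (e/3^n)`, `a e ≡ b` modulo
`3^n`. PAI for `u + t = (a + c/27, c)`, `w + t = (b + d/27, d)` (primitive, same determinant, `nu (a + c/27) = nu a`):
`nu a Q (u+t) (w+t) = Q ∞ (e'/3^n)`, `(a + c/27) e' ≡ b + d/27`. Modulo `3^(r+1)`: `a e' ≡ b ≡ a e`, so `3^r ∣ e - e'`, `3 ∤ e`, and the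
difference `Q ∞ (e/3^n) - Q ∞ (e'/3^n)` is in `m`; divide by the unit `nu a`. (A0): `b/3^n + 1/27 = (b + 3^(n-3))/3^n`. -/
def Sn_KYN : Prop :=
  ∀ (V : ValuationSubring ℂ) (_ : V.valuation (3 : ℂ) < 1) (m : Submodule V ℂ) (N₀ s₀ : ℕ)
    (nu : ℤ → ℂ) (Q : OnePoint ℚ → OnePoint ℚ → ℂ) (_ : 2 ≤ N₀) (_ : Nat.Coprime 3 N₀)
    (_ : nu 1 = 1) (_ : ∀ d d', ((3 * N₀ : ℕ) : ℤ) ∣ d - d' → nu d = nu d')
    (_ : ∀ d, IsCoprime d ((3 * N₀ : ℕ) : ℤ) → V.valuation (nu d) = 1)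
    (_ : IsSym (3 ^ (s₀ + 1) * N₀) nu Q) (r n₀ : ℕ)
    (_ : ∀ n, n₀ ≤ n → ∀ b b' : ℤ, ¬ (3 : ℤ) ∣ b → (3 : ℤ) ^ r ∣ b - b' →
      Q ∞ (((b : ℚ) / 3 ^ n : ℚ) : OnePoint ℚ) - Q ∞ (((b' : ℚ) / 3 ^ n : ℚ) : OnePoint ℚ) ∈ m),
    ∃ R : ℕ, ∀ a b c d : ℤ, a * d - b * c = 1 → (3 : ℤ) ^ R * N₀ ∣ c →
      (3 : ℤ) ^ R * N₀ ∣ d - 1 → ∀ x, PT Q x (mob a b c d x) ∈ m

/-- (DVN) the character sums of a depleted function with values of one type.

PROOF. Let `y b* ≠ 0` have maximal valuation among the `y b` (finitely many classes), `W b = y b/y b* ∈ K ∩ V`, `W b* = 1`,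
`1 ≤ v(y b*)² t`, `t = v 3`. Let `q = 3^n`, `W' : ℤ → K` of period `3 q`: for `0 ≤ b < q`: `W' b = W b`, `W' (b + q) = W b + W (b + q)`,
`W' (b + 2 q) = 0`; then `W b = W' b - W' (b - q)` for all `b` (depletion). So `Σ ζ^b W b = (1 - ζ^q) Σ ζ^b W' b`, sums over `range (3 q)`, and
`v(1 - ζ^q)² = t` (`ζ^q` is a primitive third root of 1). `W' (b* or so)` is not all in the maximal ideal. Write (Newton
expansion, `shift_pow` of `MU3/H_HZ.lean`) `Σ ζ^b W' b = Σ_(i < 3 q) c_i (ζ - 1)^i`, `c_i = Σ_b binom(b, i) W' b ∈ K ∩ V`. Let `i₀` be the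
smallest `i` with `v c_i = 1`. CLAIM: it exists and `i₀ < 2 q`. Otherwise `P(X) = Σ_b W' b (1 + X)^b ≡ 0` modulo `X^(2q)` and the
maximal ideal; modulo the maximal ideal (characteristic 3) `(1 - (1 + X)^q) P(X) = - X^q P(X) ≡ 0` modulo `X^(3q) = (1+X)^(3q) - 1`, and
this product is `Σ_b W b (1 + X)^b` modulo `(1 + X)^(3q) - 1`: so all `W b` are in the maximal ideal, against `W b* = 1`. (Direct
form: `W b* ` is a combination with coefficients in `ℤ` of the `c_i`, `i < 2 q`, and of multiples of `3`; or work in `κ[X]/(X^(3q))`, `κ` the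
residue field, or with the group ring.) For `i < i₀`: `v c_i < 1`, so `v c_i ≤ t` (`c_i ∈ K`). `x = v(ζ - 1)`: `x^(2 q) = t` (as in
`Sx_HZ`), `x < 1`. So `v(Σ c_i (ζ-1)^i) = x^(i₀) > x^(2 q) = t`. `v(Σ ζ^b y b) = v(y b*) v(1 - ζ^q) x^(i₀)` and `(v(y b*) v(1 - ζ^q))² =
v(y b*)² t ≥ 1`. -/
def Sn_DVN : Prop :=
  ∀ (V : ValuationSubring ℂ) (_ : V.valuation (3 : ℂ) < 1) (K : Subfield ℂ)
    (_ : ∀ w ∈ K, V.valuation w < 1 → V.valuation w ≤ V.valuation (3 : ℂ)) (n : ℕ) (y : ℤ → ℂ)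
    (_ : ∀ b c : ℤ, (3 : ℤ) ^ (n + 1) ∣ b - c → y b = y c)
    (_ : ∀ b : ℤ, ∑ j ∈ Finset.range 3, y (b + j * 3 ^ n) = 0)
    (_ : ∀ b b' : ℤ, y b' ≠ 0 → y b / y b' ∈ K) (b₀ : ℤ)
    (_ : 1 ≤ V.valuation (y b₀) ^ 2 * V.valuation (3 : ℂ)) (ζ : ℂ)
    (_ : IsPrimitiveRoot ζ (3 ^ (n + 1))),
    V.valuation (3 : ℂ) < V.valuation (∑ b ∈ Finset.range (3 ^ (n + 1)), ζ ^ b * y b)

/-- (HN) the conclusion of the block: infinitely many levels with large character sums.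

USES BDN, HKN, H1N, TYP, LOC, KYN, DVN. PROOF (helper87, glue). `Q = sgnPart s P`, `z n b = Q ∞ (b/3^n)`, `m` = the maximal ideal `{x : v x < 1}`.
Suppose that for some `n₀` and all `n ≥ n₀` there is `ζ` with `v(Σ) ≤ v 3`. Let `n ≥ n₀`, `n ≥ 1`, `Y b = comb α g 1 (z n) b`: periodic,
depleted (`Σ_j z n (u b + u j 3^(n-1)) = 0` for `u` prime to `3`), values in `pi KI`. If `1 ≤ v(Y b)` for some `b` then `1 ≤ v(Y b)² v 3`
(TYP), so DVN contradicts `v(Σ) ≤ v 3`. So all `Y b ∈ m`; LOC (`k + 1` of BDN), KYN: `PT Q ∞ (h ∞) ∈ m` for all `h ∈ Γ₁(3^R N₀)`. H1N for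
`N' = 3^(R + s₀ + 1) N₀` and TYP (a): contradiction. -/
def Sn_HN : Prop :=
  ∀ (V : ValuationSubring ℂ) (N₀ s₀ i : ℕ) (nu : ℤ → ℂ) (P : OnePoint ℚ → OnePoint ℚ → ℂ)
    (s : ℤ) (pi : ℂ) (KI : Subfield ℂ), HypN V N₀ s₀ i nu P s pi KI →
    ∀ (α g : ℤ), (3 : ℤ) ∣ α - 1 → α ≠ 1 → (3 : ℤ) ∣ g - 1 → g ≠ 1 → ∀ n₀ : ℕ,
      ∃ n, n₀ ≤ n ∧ ∀ ζ : ℂ, IsPrimitiveRoot ζ (3 ^ n) →
        V.valuation (3 : ℂ) < V.valuation (∑ b ∈ Finset.range (3 ^ n), ζ ^ b *
          comb α g 1 (fun b => sgnPart (s : ℂ) P ∞ (((b : ℚ) / 3 ^ n : ℚ) : OnePoint ℚ)) b)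

end

end Pool.Agent.MUXHN


end

section

/-!
# MUX, block HX, module HZ (helper91)

Character sums of an integral distribution which is nonzero modulo the maximal ideal, for every prime `p`:
`tx_HZ : Sx_HZ`. Adapted from `MU3/H_HZ.lean` (helper45). Instead of the division of polynomials modulo the maximal
ideal we use the Newton expansion of the indicator function of a class modulo `p^m`: its differences of order at
least `p^m` are divisible by `p`.
-/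

set_option autoImplicit false

namespace Pool.Agent.MUXH

open _root_.MU3 _root_.Pool.Agent.MuSym OnePoint

noncomputable section

namespace Hz

/-- the difference of order `p^m` of a function of period `p^m` is divisible by `p` -/
theorem dvd_diff_aux (p : ℕ) (hp : p.Prime) (m : ℕ) (f : ℕ → ℤ) (hf : ∀ b, f (b + p ^ m) = f b)
    (y : ℕ) : (p : ℤ) ∣ (fwdDiff 1)^[p ^ m] f y := by
  rw [fwdDiff_iter_eq_sum_shift, Finset.sum_range_succ]
  have hpos : 0 < p ^ m := pow_pos hp.pos m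
  obtain ⟨q, hq⟩ : ∃ q, p ^ m = q + 1 := ⟨p ^ m - 1, by omega⟩
  have hsign : (p : ℤ) ∣ (-1 : ℤ) ^ (p ^ m) + 1 := by
    rcases hp.eq_two_or_odd' with h2 | hodd
    · subst h2
      rcases Nat.eq_zero_or_pos m with hm | hm
      · subst hm
        norm_num
      · have he : Even (2 ^ m) := (Nat.even_pow.2 ⟨even_two, hm.ne'⟩)
        rw [he.neg_one_pow]
        norm_num
    · have ho : Odd (p ^ m) := hodd.pow
      rw [ho.neg_one_pow]
      norm_num
  have h1 : ∑ k ∈ Finset.range (p ^ m),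
      ((-1 : ℤ) ^ (p ^ m - k) * ((p ^ m).choose k : ℤ)) • f (y + k • 1) =
      (∑ k ∈ Finset.range q,
        ((-1 : ℤ) ^ (p ^ m - (k + 1)) * ((p ^ m).choose (k + 1) : ℤ)) • f (y + (k + 1) • 1)) +
      ((-1 : ℤ) ^ (p ^ m - 0) * ((p ^ m).choose 0 : ℤ)) • f (y + 0 • 1) := by
    conv_lhs => rw [show Finset.range (p ^ m) = Finset.range (q + 1) by rw [hq]]
    rw [Finset.sum_range_succ']
  rw [h1, add_assoc]
  refine dvd_add (Finset.dvd_sum fun k hk => ?_) ?_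
  · have hk' : k + 1 ≠ p ^ m := by
      have := Finset.mem_range.1 hk
      omega
    have h2 : p ∣ (p ^ m).choose (k + 1) :=
      Nat.Prime.dvd_choose_pow hp (Nat.succ_ne_zero k) hk'
    have h3 : (p : ℤ) ∣ ((p ^ m).choose (k + 1) : ℤ) := by exact_mod_cast h2
    rw [smul_eq_mul]
    exact Dvd.dvd.mul_right (Dvd.dvd.mul_left h3 _) _
  · have h4 : f (y + p ^ m • 1) = f y := by
      rw [smul_eq_mul, mul_one]
      exact hf y
    rw [h4]
    obtain ⟨w, hw⟩ := hsign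
    refine ⟨w * f y, ?_⟩
    rw [← mul_assoc, ← hw]
    simp
    ring

theorem dvd_diff (p : ℕ) (hp : p.Prime) (m : ℕ) (f : ℕ → ℤ) (hf : ∀ b, f (b + p ^ m) = f b)
    (k : ℕ) (hk : p ^ m ≤ k) (y : ℕ) : (p : ℤ) ∣ (fwdDiff 1)^[k] f y := by
  obtain ⟨j, rfl⟩ := Nat.exists_eq_add_of_le' hk
  rw [Function.iterate_add_apply, fwdDiff_iter_eq_sum_shift]
  refine Finset.dvd_sum fun i _ => ?_
  rw [smul_eq_mul]
  exact Dvd.dvd.mul_left (dvd_diff_aux p hp m f hf _) _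

/-- Newton expansion, summed against a function -/
theorem newton (N : ℕ) (F : ℕ → ℂ) (f : ℕ → ℤ) :
    ∑ b ∈ Finset.range N, (f b : ℂ) * F b =
      ∑ k ∈ Finset.range N, (((fwdDiff 1)^[k] f 0 : ℤ) : ℂ) *
        ∑ b ∈ Finset.range N, ((b.choose k : ℕ) : ℂ) * F b := by
  have h1 : ∀ b ∈ Finset.range N, (f b : ℂ) * F b = ∑ k ∈ Finset.range N,
      (((fwdDiff 1)^[k] f 0 : ℤ) : ℂ) * (((b.choose k : ℕ) : ℂ) * F b) := by
    intro b hb
    have hb' := Finset.mem_range.1 hb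
    have h2 : f b = ∑ k ∈ Finset.range (b + 1), (b.choose k : ℤ) * (fwdDiff 1)^[k] f 0 := by
      have := shift_eq_sum_fwdDiff_iter 1 f b 0
      simp only [smul_eq_mul, mul_one, zero_add, nsmul_eq_mul] at this
      exact_mod_cast this
    have h3 : f b = ∑ k ∈ Finset.range N, (b.choose k : ℤ) * (fwdDiff 1)^[k] f 0 := by
      rw [h2]
      refine Finset.sum_subset (fun k hk => ?_) (fun k _ hk => ?_)
      · exact Finset.mem_range.2 (by have := Finset.mem_range.1 hk; omega)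
      · have : b < k := by
          by_contra h
          exact hk (Finset.mem_range.2 (by omega))
        rw [Nat.choose_eq_zero_of_lt this]
        simp
    rw [h3]
    push_cast
    rw [Finset.sum_mul]
    refine Finset.sum_congr rfl fun k _ => ?_
    ring
  rw [Finset.sum_congr rfl h1, Finset.sum_comm]
  refine Finset.sum_congr rfl fun k _ => ?_
  rw [Finset.mul_sum]

/-- the sum against powers of `ζ` in terms of the powers of `ζ - 1` -/
theorem shift_pow (N : ℕ) (F : ℕ → ℂ) (ζ : ℂ) :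
    ∑ b ∈ Finset.range N, ζ ^ b * F b =
      ∑ k ∈ Finset.range N, (ζ - 1) ^ k *
        ∑ b ∈ Finset.range N, ((b.choose k : ℕ) : ℂ) * F b := by
  have h1 : ∀ b ∈ Finset.range N, ζ ^ b * F b = ∑ k ∈ Finset.range N,
      (ζ - 1) ^ k * (((b.choose k : ℕ) : ℂ) * F b) := by
    intro b hb
    have hb' := Finset.mem_range.1 hb
    have h2 : ζ ^ b = ∑ k ∈ Finset.range (b + 1), (ζ - 1) ^ k * ((b.choose k : ℕ) : ℂ) := by
      have := add_pow (ζ - 1) 1 b
      simpa using this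
    have h3 : ζ ^ b = ∑ k ∈ Finset.range N, (ζ - 1) ^ k * ((b.choose k : ℕ) : ℂ) := by
      rw [h2]
      refine Finset.sum_subset (fun k hk => ?_) (fun k _ hk => ?_)
      · exact Finset.mem_range.2 (by have := Finset.mem_range.1 hk; omega)
      · have : b < k := by
          by_contra h
          exact hk (Finset.mem_range.2 (by omega))
        rw [Nat.choose_eq_zero_of_lt this]
        simp
    rw [h3, Finset.sum_mul]
    refine Finset.sum_congr rfl fun k _ => ?_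
    ring
  rw [Finset.sum_congr rfl h1, Finset.sum_comm]
  refine Finset.sum_congr rfl fun k _ => ?_
  rw [Finset.mul_sum]

/-- a sum over `range (q * N)` as a double sum -/
theorem sum_range_mul' (g : ℕ → ℂ) (N q : ℕ) :
    ∑ b ∈ Finset.range (q * N), g b =
      ∑ j ∈ Finset.range q, ∑ b ∈ Finset.range N, g (j * N + b) := by
  induction q with
  | zero => simp
  | succ q ih => rw [Nat.succ_mul, Finset.sum_range_add, ih, Finset.sum_range_succ]

/-- additivity: the sum over the class of `r` modulo `p^m` at level `m + l` -/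
theorem sum_ind (p : ℕ) (M : ℕ → ℤ → ℂ) (hM : Dist p M) (m r : ℕ) (hr : r < p ^ m) (l : ℕ) :
    ∑ b ∈ Finset.range (p ^ (m + l)),
      (((if b % p ^ m = r then (1 : ℤ) else 0) : ℤ) : ℂ) * M (m + l) b = M m r := by
  induction l with
  | zero =>
    rw [Nat.add_zero, Finset.sum_eq_single r]
    · rw [Nat.mod_eq_of_lt hr]
      simp
    · intro b hb hbr
      rw [Nat.mod_eq_of_lt (Finset.mem_range.1 hb), if_neg hbr]
      simp
    · intro h
      exact absurd (Finset.mem_range.2 hr) h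
  | succ l ih =>
    rw [← ih]
    have hN : p ^ (m + (l + 1)) = p * p ^ (m + l) := by
      rw [← Nat.add_assoc, pow_succ]
      ring
    have hdv : p ^ m ∣ p ^ (m + l) := pow_dvd_pow p (Nat.le_add_right m l)
    rw [hN, sum_range_mul', Finset.sum_comm]
    refine Finset.sum_congr rfl fun b _ => ?_
    obtain ⟨q, hq⟩ := hdv
    have e1 : ∀ j : ℕ, (j * p ^ (m + l) + b) % p ^ m = b % p ^ m := by
      intro j
      rw [hq, show j * (p ^ m * q) = p ^ m * (j * q) by ring, Nat.mul_add_mod]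
    rw [hM.add (m + l) b, Finset.mul_sum]
    refine Finset.sum_congr rfl fun j _ => ?_
    have a1 : ((b : ℤ) + ((j : ℕ) : ℤ) * (p : ℤ) ^ (m + l)) = ((j * p ^ (m + l) + b : ℕ) : ℤ) := by
      push_cast
      ring
    rw [e1 j, a1, Nat.add_assoc m l 1]

theorem val_int (V : ValuationSubring ℂ) (z : ℤ) : V.valuation (z : ℂ) ≤ 1 :=
  (V.valuation_le_one_iff _).2 (intCast_mem V z)

theorem val_nat (V : ValuationSubring ℂ) (n : ℕ) : V.valuation (n : ℂ) ≤ 1 :=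
  (V.valuation_le_one_iff _).2 (natCast_mem V n)

theorem val_int_p (p : ℕ) (V : ValuationSubring ℂ) (z : ℤ) (hz : (p : ℤ) ∣ z) :
    V.valuation (z : ℂ) ≤ V.valuation (p : ℂ) := by
  obtain ⟨w, rfl⟩ := hz
  push_cast
  rw [map_mul]
  exact mul_le_of_le_one_right' (val_int V w)

/-- the valuation of a root of unity -/
theorem val_root (V : ValuationSubring ℂ) (N : ℕ) (hN : N ≠ 0) (ζ : ℂ) (h : ζ ^ N = 1) :
    V.valuation ζ = 1 := by
  have h1 : V.valuation ζ ^ N = 1 := by rw [← map_pow, h, map_one]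
  exact (pow_eq_one_iff_of_nonneg zero_le hN).1 h1

theorem val_sub_le (V : ValuationSubring ℂ) (ζ : ℂ) (hζ : V.valuation ζ ≤ 1) (i : ℕ) :
    V.valuation (ζ ^ i - 1) ≤ V.valuation (ζ - 1) := by
  rw [← mul_geom_sum, map_mul]
  refine mul_le_of_le_one_right' ?_
  refine Valuation.map_sum_le _ fun j _ => ?_
  rw [map_pow]
  exact pow_le_one' hζ j

theorem val_prim (V : ValuationSubring ℂ) (N : ℕ) (hN : N ≠ 0) (ζ μ : ℂ)
    (hζ : IsPrimitiveRoot ζ N) (hμ : IsPrimitiveRoot μ N) :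
    V.valuation (ζ - 1) = V.valuation (μ - 1) := by
  have : NeZero N := ⟨hN⟩
  refine le_antisymm ?_ ?_
  · obtain ⟨i, _, _, hi⟩ := (hμ.isPrimitiveRoot_iff).1 hζ
    rw [← hi]
    exact val_sub_le V μ (val_root V N hN μ hμ.pow_eq_one).le i
  · obtain ⟨i, _, _, hi⟩ := (hζ.isPrimitiveRoot_iff).1 hμ
    rw [← hi]
    exact val_sub_le V ζ (val_root V N hN ζ hζ.pow_eq_one).le i

/-- `v(ζ - 1)^φ = v p` -/
theorem val_p (p : ℕ) (hp : p.Prime) (V : ValuationSubring ℂ) (n : ℕ) (ζ : ℂ)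
    (hζ : IsPrimitiveRoot ζ (p ^ (n + 1))) :
    V.valuation (ζ - 1) ^ (p ^ n * (p - 1)) = V.valuation (p : ℂ) := by
  have : Fact (Nat.Prime p) := ⟨hp⟩
  have hN : p ^ (n + 1) ≠ 0 := pow_ne_zero _ hp.ne_zero
  have h1 := Polynomial.eval_one_cyclotomic_prime_pow (R := ℂ) (p := p) n
  rw [Polynomial.cyclotomic_eq_prod_X_sub_primitiveRoots hζ, Polynomial.eval_prod] at h1
  have h2 : V.valuation (p : ℂ) = ∏ μ ∈ primitiveRoots (p ^ (n + 1)) ℂ, V.valuation (ζ - 1) := by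
    rw [← h1, map_prod]
    refine Finset.prod_congr rfl fun μ hμ => ?_
    have hμ' := isPrimitiveRoot_of_mem_primitiveRoots hμ
    rw [Polynomial.eval_sub, Polynomial.eval_X, Polynomial.eval_C, ← neg_sub, Valuation.map_neg]
    exact (val_prim V _ hN ζ μ hζ hμ').symm
  rw [h2, Finset.prod_const, Complex.card_primitiveRoots, Nat.totient_prime_pow_succ hp]

end Hz

open _root_.Pool.Agent.MUXH.Hz in
theorem tx_HZ : Sx_HZ := by
  intro p hp V hV K d hK M hM hMK hM1 hex E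
  obtain ⟨m, b₀, hb₀⟩ := hex
  refine ⟨m + 1 + (d + E), fun n hn ζ hζ => ?_⟩
  obtain ⟨l, hl, rfl⟩ : ∃ l, d + E ≤ l ∧ n = m + 1 + l := ⟨n - (m + 1), by omega, by omega⟩
  -- the class of `b₀`
  obtain ⟨r, hr, hMr⟩ : ∃ r : ℕ, r < p ^ m ∧ V.valuation (M m r) = 1 := by
    have hpos : (0 : ℤ) < (p : ℤ) ^ m := pow_pos (by exact_mod_cast hp.pos) m
    refine ⟨(b₀ % (p : ℤ) ^ m).toNat, ?_, ?_⟩
    · have h1 := Int.emod_lt_of_pos b₀ hpos
      have h0 := Int.emod_nonneg b₀ hpos.ne'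
      have : (((b₀ % (p : ℤ) ^ m).toNat : ℕ) : ℤ) < ((p ^ m : ℕ) : ℤ) := by
        rw [Int.toNat_of_nonneg h0]
        push_cast
        exact h1
      exact_mod_cast this
    · rw [Int.toNat_of_nonneg (Int.emod_nonneg b₀ hpos.ne')]
      rw [hM.per m (b₀ % (p : ℤ) ^ m) b₀ ?_]
      · exact hb₀
      · have := Int.emod_add_mul_ediv b₀ ((p : ℤ) ^ m)
        exact ⟨-(b₀ / (p : ℤ) ^ m), by linarith⟩
  set N := p ^ (m + 1 + l) with hNdef
  set c : ℕ → ℂ := fun k => ∑ b ∈ Finset.range N, ((b.choose k : ℕ) : ℂ) * M (m + 1 + l) b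
    with hc
  have hcK : ∀ k, c k ∈ K := fun k =>
    sum_mem fun b _ => mul_mem (natCast_mem K _) (hMK _ _)
  have hc1 : ∀ k, V.valuation (c k) ≤ 1 := fun k =>
    Valuation.map_sum_le _ fun b _ => by
      rw [map_mul]
      exact mul_le_one' (val_nat V _) (hM1 _ _)
  -- step 1
  have hex1 : ∃ k, k < p ^ m ∧ V.valuation (c k) = 1 := by
    by_contra hcon
    have hlt : ∀ k < p ^ m, V.valuation (c k) < 1 := fun k hk =>
      lt_of_le_of_ne (hc1 k) fun h => hcon ⟨k, hk, h⟩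
    set f : ℕ → ℤ := fun b => if b % p ^ m = r then (1 : ℤ) else 0 with hf
    have hper : ∀ b, f (b + p ^ m) = f b := fun b => by
      simp only [hf, Nat.add_mod_right]
    have h1 : ∑ b ∈ Finset.range N, (f b : ℂ) * M (m + 1 + l) b = M m r := by
      have := sum_ind p M hM m r hr (1 + l)
      rw [← Nat.add_assoc] at this
      exact this
    rw [newton N (fun b => M (m + 1 + l) b) f] at h1
    have h2 : V.valuation (M m r) < 1 := by
      rw [← h1]
      refine Valuation.map_sum_lt _ one_ne_zero fun k _ => ?_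
      rw [map_mul]
      rcases lt_or_ge k (p ^ m) with hk | hk
      · exact lt_of_le_of_lt (mul_le_of_le_one_left' (val_int V _)) (hlt k hk)
      · refine lt_of_le_of_lt (mul_le_of_le_one_right' (hc1 k)) ?_
        exact lt_of_le_of_lt (val_int_p p V _ (dvd_diff p hp m f hper k hk 0)) hV
    exact absurd hMr h2.ne
  classical
  obtain ⟨hk₀, hk₁⟩ := Nat.find_spec hex1
  set k₀ := Nat.find hex1 with hk₀def
  have hmin : ∀ k < k₀, V.valuation (c k) ^ d ≤ V.valuation (p : ℂ) := by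
    intro k hk
    refine hK _ (hcK k) (lt_of_le_of_ne (hc1 k) fun h => ?_)
    exact Nat.find_min hex1 hk ⟨lt_trans hk hk₀, h⟩
  -- step 2
  have hy : V.valuation (ζ - 1) ^ (p ^ (m + l) * (p - 1)) = V.valuation (p : ℂ) :=
    val_p p hp V (m + l) ζ (by
      have : m + l + 1 = m + 1 + l := by omega
      rw [this]
      exact hζ)
  set y := V.valuation (ζ - 1) with hydef
  set φ := p ^ (m + l) * (p - 1) with hφdef
  have hppos : (0 : V.ValueGroup) < V.valuation (p : ℂ) :=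
    lt_of_le_of_ne zero_le
      ((Valuation.ne_zero_iff _).2 (by exact_mod_cast hp.ne_zero)).symm
  have hp1 : 1 ≤ p - 1 := by
    have := hp.two_le
    omega
  have hφlow : p ^ m * (d + E) < φ := by
    have h1 : l < p ^ l := Nat.lt_pow_self hp.one_lt
    have h2 : 0 < p ^ m := pow_pos hp.pos m
    calc p ^ m * (d + E) ≤ p ^ m * l := Nat.mul_le_mul_left _ hl
      _ < p ^ m * p ^ l := Nat.mul_lt_mul_of_pos_left h1 h2
      _ = p ^ (m + l) := (pow_add p m l).symm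
      _ ≤ φ := Nat.le_mul_of_pos_right _ hp1
  have hφ : φ ≠ 0 := by omega
  have hy0 : 0 < y := by
    refine lt_of_le_of_ne zero_le fun h => ?_
    rw [← h, zero_pow hφ] at hy
    exact hppos.ne hy
  have hy1 : y < 1 := by
    by_contra h
    have h1 : 1 ≤ y := not_lt.1 h
    have : 1 ≤ y ^ φ := one_le_pow₀ h1
    rw [hy] at this
    exact absurd this (not_le.2 hV)
  have hkd : k₀ * d < φ := by
    refine lt_of_le_of_lt ?_ hφlow
    exact Nat.mul_le_mul hk₀.le (by omega)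
  have hkE : k₀ * E < φ := by
    refine lt_of_le_of_lt ?_ hφlow
    exact Nat.mul_le_mul hk₀.le (by omega)
  -- step 3
  have hval : V.valuation (∑ b ∈ Finset.range N, ζ ^ b * M (m + 1 + l) b) = y ^ k₀ := by
    rw [shift_pow N (fun b => M (m + 1 + l) b) ζ]
    have hk₀N : k₀ ∈ Finset.range N := by
      refine Finset.mem_range.2 (lt_of_lt_of_le hk₀ ?_)
      exact Nat.pow_le_pow_right hp.pos (by omega)
    rw [← Finset.add_sum_erase _ _ hk₀N]
    have ha : V.valuation ((ζ - 1) ^ k₀ * c k₀) = y ^ k₀ := by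
      rw [map_mul, map_pow, hk₁, mul_one]
    have hb : V.valuation (∑ k ∈ (Finset.range N).erase k₀, (ζ - 1) ^ k * c k) < y ^ k₀ := by
      refine Valuation.map_sum_lt _ (pow_pos hy0 k₀).ne' fun k hk => ?_
      have hne := Finset.ne_of_mem_erase hk
      rw [map_mul, map_pow]
      rcases lt_or_gt_of_ne hne with hlt | hgt
      · refine lt_of_le_of_lt (mul_le_of_le_one_left' (pow_le_one' hy1.le k)) ?_
        refine lt_of_pow_lt_pow_left₀ d (pow_pos hy0 k₀).le ?_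
        refine lt_of_le_of_lt (hmin k hlt) ?_
        rw [← hy, ← pow_mul]
        exact pow_lt_pow_right_of_lt_one₀ hy0 hy1 hkd
      · refine lt_of_le_of_lt (mul_le_of_le_one_right' (hc1 k)) ?_
        exact pow_lt_pow_right_of_lt_one₀ hy0 hy1 hgt
    have := Valuation.map_add_eq_of_lt_left V.valuation (x := (ζ - 1) ^ k₀ * c k₀)
      (y := ∑ k ∈ (Finset.range N).erase k₀, (ζ - 1) ^ k * c k) (by rw [ha]; exact hb)
    rw [this, ha]
  rw [hval, ← pow_mul, ← hy]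
  exact pow_lt_pow_right_of_lt_one₀ hy0 hy1 hkE

end

end Pool.Agent.MUXH


end

section

/-!
# MUX, block H, abstract part: module STP (helper12; adapted from `MU3/H_STP.lean` of helper37)
-/

set_option autoImplicit false

namespace Pool.Agent.MUXH

open _root_.MU3 _root_.Pool.Agent.MuSym OnePoint

namespace Stp

theorem not_dvd_mul {p : ℕ} {u b : ℤ} (hu : (p : ℤ) ∣ u - 1) (n : ℕ) (h : ¬ (p : ℤ) ^ n ∣ b) :
    ¬ (p : ℤ) ^ n ∣ u * b := by
  intro h1
  apply h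
  have hc : IsCoprime (p : ℤ) u := by
    obtain ⟨m, hm⟩ := hu
    exact ⟨-m, 1, by linarith⟩
  exact (hc.pow_left (m := n)).dvd_of_dvd_mul_left h1

/-- `(1 + y)^i` modulo `y²` -/
theorem pow_sq (y : ℤ) (i : ℕ) : ∃ q : ℤ, (1 + y) ^ i = 1 + i * y + y ^ 2 * q := by
  induction i with
  | zero => exact ⟨0, by simp⟩
  | succ i ih =>
    obtain ⟨q, hq⟩ := ih
    refine ⟨q * (1 + y) + i, ?_⟩
    rw [pow_succ, hq]
    push_cast
    ring

/-- the geometric sum modulo `p²` -/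
theorem geo {p : ℕ} (hp : p.Prime) {n : ℕ} (hn : 1 ≤ n) (hn2 : p = 2 → 2 ≤ n) (w : ℤ) :
    ∃ z : ℤ, ∑ i ∈ Finset.range p, (1 + (p : ℤ) ^ n * w) ^ i = p + p ^ 2 * z := by
  obtain ⟨m, rfl⟩ : ∃ m, n = m + 1 := ⟨n - 1, by omega⟩
  choose q hq using pow_sq ((p : ℤ) ^ (m + 1) * w)
  have h1 : ∑ i ∈ Finset.range p, (1 + (p : ℤ) ^ (m + 1) * w) ^ i =
      p + (p : ℤ) ^ (m + 1) * w * ∑ i ∈ Finset.range p, (i : ℤ) +
        ((p : ℤ) ^ (m + 1) * w) ^ 2 * ∑ i ∈ Finset.range p, q i := by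
    simp only [hq]
    rw [Finset.sum_add_distrib, Finset.sum_add_distrib, Finset.mul_sum, Finset.mul_sum]
    simp only [Finset.sum_const, Finset.card_range, nsmul_eq_mul, mul_one]
    congr 2
    refine Finset.sum_congr rfl fun i _ => ?_
    ring
  rcases hp.eq_two_or_odd' with h2 | ho
  · obtain ⟨l, rfl⟩ : ∃ l, m = l + 1 := ⟨m - 1, by have := hn2 h2; omega⟩
    subst h2
    refine ⟨(2 : ℤ) ^ l * w + ((2 : ℤ) ^ (l + 1) * w) ^ 2 * ∑ i ∈ Finset.range 2, q i, ?_⟩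
    rw [h1]
    simp only [Finset.sum_range_succ, Finset.sum_range_zero]
    push_cast
    ring
  · obtain ⟨l, hl⟩ := ho
    have h3 : ∑ i ∈ Finset.range p, (i : ℤ) = p * l := by
      have h4 := Finset.sum_range_id_mul_two p
      have h5 : (∑ i ∈ Finset.range p, i) * 2 = (p * l) * 2 := by
        rw [h4, show p - 1 = l * 2 by omega]
        ring
      have h6 : ∑ i ∈ Finset.range p, i = p * l := Nat.eq_of_mul_eq_mul_right (by norm_num) h5
      rw [← Nat.cast_sum, h6, Nat.cast_mul]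
    refine ⟨(p : ℤ) ^ m * w * l + ((p : ℤ) ^ m * w) ^ 2 * ∑ i ∈ Finset.range p, q i, ?_⟩
    rw [h1, h3]
    ring

theorem pow_u {p : ℕ} (hp : p.Prime) {u : ℤ} {k : ℕ} {w : ℤ} (hk : 1 ≤ k) (hk2 : p = 2 → 2 ≤ k)
    (hw : u - 1 = (p : ℤ) ^ k * w) (hw3 : ¬ (p : ℤ) ∣ w)
    (n : ℕ) (hn : k ≤ n) : ∃ w' : ℤ, u ^ (p ^ (n - k)) = 1 + (p : ℤ) ^ n * w' ∧ ¬ (p : ℤ) ∣ w' := by
  induction n, hn using Nat.le_induction with
  | base => exact ⟨w, by rw [Nat.sub_self, pow_zero, pow_one]; linarith, hw3⟩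
  | succ n hn ih =>
    obtain ⟨w', h1, h2⟩ := ih
    obtain ⟨z, hz⟩ := geo hp (hk.trans hn) (fun h => (hk2 h).trans hn) w'
    have h3 := geom_sum_mul (1 + (p : ℤ) ^ n * w') p
    refine ⟨w' * (1 + p * z), ?_, ?_⟩
    · have e : n + 1 - k = (n - k) + 1 := by omega
      rw [e, pow_succ, pow_mul, h1]
      rw [hz] at h3
      have e2 : (1 + (p : ℤ) ^ n * w') ^ p = 1 + (p + p ^ 2 * z) * (1 + (p : ℤ) ^ n * w' - 1) := by
        linarith
      rw [e2]
      ring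
    · intro h4
      have hP : Prime (p : ℤ) := Nat.prime_iff_prime_int.1 hp
      rcases hP.dvd_or_dvd h4 with h5 | h5
      · exact h2 h5
      · have h6 : (p : ℤ) ∣ 1 := by
          have h7 : (p : ℤ) ∣ p * z := dvd_mul_right _ _
          exact (dvd_add_left h7).1 h5
        exact hP.not_isUnit (isUnit_of_dvd_one h6)

/-- powers of `1 + p^n w` modulo `p^(n+1)` -/
theorem pow_one_add {p n : ℕ} (hn : 1 ≤ n) (w : ℤ) (i : ℕ) :
    (p : ℤ) ^ (n + 1) ∣ (1 + (p : ℤ) ^ n * w) ^ i - (1 + i * ((p : ℤ) ^ n * w)) := by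
  obtain ⟨m, rfl⟩ : ∃ m, n = m + 1 := ⟨n - 1, by omega⟩
  obtain ⟨q, hq⟩ := pow_sq ((p : ℤ) ^ (m + 1) * w) i
  rw [hq]
  exact ⟨(p : ℤ) ^ m * w ^ 2 * q, by ring⟩

theorem solve {p : ℕ} (hp : p.Prime) {w b : ℤ} (hw : ¬ (p : ℤ) ∣ w) (hb : ¬ (p : ℤ) ∣ b)
    (j : ℕ) : ∃ i : ℕ, (p : ℤ) ∣ i * (w * b) - j := by
  have hP : Prime (p : ℤ) := Nat.prime_iff_prime_int.1 hp
  have h1 : ¬ (p : ℤ) ∣ w * b := by
    intro h
    rcases hP.dvd_or_dvd h with h | h
    · exact hw h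
    · exact hb h
  obtain ⟨x, y, hxy⟩ : IsCoprime (p : ℤ) (w * b) := (Prime.coprime_iff_not_dvd hP).2 h1
  have hp0 : (p : ℤ) ≠ 0 := hP.ne_zero
  have h2 : 0 ≤ (y * j) % (p : ℤ) := Int.emod_nonneg _ hp0
  refine ⟨((y * j) % (p : ℤ)).toNat, ?_⟩
  rw [Int.toNat_of_nonneg h2]
  have h3 := Int.emod_add_mul_ediv (y * j) (p : ℤ)
  have h4 : (y * j) % (p : ℤ) = y * j - p * (y * j / p) := by linarith
  rw [h4]
  refine ⟨-(y * j / p) * (w * b) - x * j, ?_⟩
  have h5 : y * (w * b) = 1 - x * p := by linarith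
  have h6 : (y * j - p * (y * j / p)) * (w * b) - (j : ℤ) =
      (y * (w * b)) * j - p * (y * j / p) * (w * b) - j := by ring
  rw [h6, h5]
  ring

end Stp

open _root_.Pool.Agent.MUXH.Stp in
theorem tx_STP : Sx_STP := by
  intro p hp V h3 M hM hint hex u huQ hu1 c₁ c₂ hc1 hc12
  have hu := huQ.1
  have hP : Prime (p : ℤ) := Nat.prime_iff_prime_int.1 hp
  have hc2 : V.valuation c₂ ≤ 1 := by
    have e : c₂ = c₁ - (c₁ - c₂) := by ring
    rw [e]
    exact (V.valuation.map_sub _ _).trans (max_le hc1.le hc12.le)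
  have hint' : ∀ (n : ℕ) (b : ℤ), ¬ (p : ℤ) ^ n ∣ b →
      V.valuation (c₁ * M n (u * b) - c₂ * M n b) ≤ 1 := by
    intro n b hb
    refine (V.valuation.map_sub _ _).trans (max_le ?_ ?_)
    · rw [map_mul, hc1, one_mul]
      exact hint n _ (not_dvd_mul hu n hb)
    · rw [map_mul]
      exact mul_le_one' hc2 (hint n b hb)
  refine ⟨⟨?_, ?_⟩, hint', ?_⟩
  · intro n b c hbc
    have e1 : (p : ℤ) ^ n ∣ u * b - u * c := by
      rw [← mul_sub]
      exact Dvd.dvd.mul_left hbc u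
    rw [hM.per n b c hbc, hM.per n _ _ e1]
  · intro n b
    rw [Finset.sum_sub_distrib, ← Finset.mul_sum, ← Finset.mul_sum, ← hM.add n b, hM.add n (u * b)]
    congr 2
    refine Finset.sum_congr rfl fun j _ => ?_
    refine hM.per (n + 1) _ _ ?_
    obtain ⟨m, hm⟩ := hu
    refine ⟨-(m * j), ?_⟩
    have : u = p * m + 1 := by linarith
    rw [this]
    ring
  · by_contra hcon
    push Not at hcon
    have hb1 : ∀ (n : ℕ) (b : ℤ), 1 ≤ n → ¬ (p : ℤ) ∣ b → ¬ (p : ℤ) ^ n ∣ b := by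
      intro n b hn hb h
      exact hb ((dvd_pow_self (p : ℤ) (by omega)).trans h)
    have hlt : ∀ (n : ℕ) (b : ℤ), 1 ≤ n → ¬ (p : ℤ) ∣ b →
        V.valuation (M n (u * b) - M n b) < 1 := by
      intro n b hn hb
      have h1 : V.valuation (c₁ * M n (u * b) - c₂ * M n b) < 1 :=
        lt_of_le_of_ne (hint' n b (hb1 n b hn hb)) (hcon n b hn hb)
      have h2 : V.valuation ((c₁ - c₂) * M n b) < 1 := by
        rw [map_mul]
        exact mul_lt_one_of_lt_of_le hc12 (hint n b (hb1 n b hn hb))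
      have e : c₁ * (M n (u * b) - M n b) = (c₁ * M n (u * b) - c₂ * M n b) -
        (c₁ - c₂) * M n b := by ring
      have h4 : V.valuation (c₁ * (M n (u * b) - M n b)) < 1 := by
        rw [e]
        exact lt_of_le_of_lt (V.valuation.map_sub _ _) (max_lt h1 h2)
      rwa [map_mul, hc1, one_mul] at h4
    have h3u : ∀ (i : ℕ) (b : ℤ), ¬ (p : ℤ) ∣ b → ¬ (p : ℤ) ∣ u ^ i * b := by
      intro i b hb
      induction i with
      | zero => simpa using hb
      | succ i ih =>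
        have h := not_dvd_mul hu 1 (b := u ^ i * b) (by rwa [pow_one])
        rw [pow_one] at h
        have e : u ^ (i + 1) * b = u * (u ^ i * b) := by ring
        rwa [e]
    have hpow : ∀ (n : ℕ) (b : ℤ) (i : ℕ), 1 ≤ n → ¬ (p : ℤ) ∣ b →
        V.valuation (M n (u ^ i * b) - M n b) < 1 := by
      intro n b i hn hb
      induction i with
      | zero =>
        rw [pow_zero, one_mul, sub_self, map_zero]
        exact zero_lt_one
      | succ i ih =>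
        have h1 := hlt n (u ^ i * b) hn (h3u i b hb)
        have e : M n (u ^ (i + 1) * b) - M n b = (M n (u * (u ^ i * b)) - M n (u ^ i * b)) +
            (M n (u ^ i * b) - M n b) := by
          have e1 : u ^ (i + 1) * b = u * (u ^ i * b) := by ring
          rw [e1]
          ring
        rw [e]
        exact V.valuation.map_add_lt h1 ih
    obtain ⟨w, hw, hw3⟩ := (Int.finiteMultiplicity_iff.2
      ⟨by rw [Int.natAbs_natCast]; exact hp.one_lt.ne', sub_ne_zero.2 hu1⟩ :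
        FiniteMultiplicity (p : ℤ) (u - 1)).exists_eq_pow_mul_and_not_dvd
    set k := multiplicity (p : ℤ) (u - 1) with hk
    have hk1 : 1 ≤ k := by
      by_contra h
      have h0 : k = 0 := by omega
      rw [h0, pow_zero, one_mul] at hw
      exact hw3 (hw ▸ hu)
    have hk2 : p = 2 → 2 ≤ k := by
      intro h2
      by_contra h
      have h0 : k = 1 := by omega
      have h4 := huQ.2 h2
      rw [hw, h0, pow_one, h2] at h4
      apply hw3
      rw [h2]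
      push_cast at h4 ⊢
      omega
    have hbig : ∀ (n : ℕ) (b : ℤ), k ≤ n → ¬ (p : ℤ) ∣ b → V.valuation (M n b) < 1 := by
      intro n b hn hb
      have hn1 : 1 ≤ n := hk1.trans hn
      obtain ⟨w', h1, h2⟩ := pow_u hp hk1 hk2 hw hw3 n hn
      have hj : ∀ j : ℕ, V.valuation (M (n + 1) (b + j * p ^ n) - M (n + 1) b) < 1 := by
        intro j
        obtain ⟨i, hi⟩ := solve hp h2 hb j
        have e1 : (p : ℤ) ^ (n + 1) ∣ (b + j * p ^ n) - u ^ (p ^ (n - k) * i) * b := by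
          rw [pow_mul, h1]
          obtain ⟨q, hq⟩ := pow_one_add (p := p) hn1 w' i
          obtain ⟨q', hq'⟩ := hi
          have e2 : (1 + (p : ℤ) ^ n * w') ^ i =
            (p : ℤ) ^ (n + 1) * q + (1 + i * ((p : ℤ) ^ n * w')) := by linarith
          rw [e2]
          refine ⟨-q' - q * b, ?_⟩
          have e3 : (j : ℤ) = i * (w' * b) - p * q' := by linarith
          rw [e3]
          ring
        rw [hM.per (n + 1) _ _ e1]
        exact hpow (n + 1) b _ (by omega) hb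
      have e : M n b = p * M (n + 1) b + ∑ j ∈ Finset.range p,
          (M (n + 1) (b + j * p ^ n) - M (n + 1) b) := by
        rw [hM.add n b, Finset.sum_sub_distrib, Finset.sum_const, Finset.card_range, nsmul_eq_mul]
        ring
      rw [e]
      refine V.valuation.map_add_lt ?_ (V.valuation.map_sum_lt one_ne_zero fun j _ => hj j)
      rw [map_mul]
      exact mul_lt_one_of_lt_of_le h3 (hint _ _ (hb1 (n + 1) b (by omega) hb))
    have hall : ∀ (d n : ℕ), 1 ≤ n → k ≤ n + d → ∀ b : ℤ, ¬ (p : ℤ) ∣ b →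
        V.valuation (M n b) < 1 := by
      intro d
      induction d with
      | zero => exact fun n _ h b hb => hbig n b h hb
      | succ d ih =>
        intro n hn h b hb
        rw [hM.add n b]
        refine V.valuation.map_sum_lt one_ne_zero fun j _ => ?_
        refine ih (n + 1) (by omega) (by omega) _ ?_
        intro h4
        apply hb
        have h5 : (p : ℤ) ∣ j * p ^ n := Dvd.dvd.mul_left (dvd_pow_self (p : ℤ) (by omega)) _
        exact (dvd_add_left h5).1 h4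
    obtain ⟨n, b, hn, hb, hv⟩ := hex
    exact absurd hv (hall k n hn (by omega) b hb).ne

end Pool.Agent.MUXH


end

section

/-!
# MUX-NS, block HN, module TYP (helper23): arithmetic of types
-/

set_option autoImplicit false

namespace Pool.Agent.MUXHN

open _root_.MU3 _root_.Pool.Agent.MuSym _root_.Pool.Agent.MUXH OnePoint

noncomputable section

namespace TYP

variable {Γ : Type*} [LinearOrderedCommGroupWithZero Γ]

lemma one_le_of_pow {a : Γ} {n : ℕ} (h : 1 ≤ a ^ n) (hn : n ≠ 0) : 1 ≤ a := by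
  by_contra hc
  exact absurd h (not_le.2 (pow_lt_one₀ zero_le' (not_le.1 hc) hn))

lemma key {t p x : Γ} (ht : t < 1) (hx : x < 1 → x ≤ t) (i : ℕ) (h4 : 4 ≤ i) (h7 : i ≤ 7)
    (hp : p ^ 8 * t ^ i = 1) :
    (t ≤ (p * x) ^ 18 → 1 ≤ p * x) ∧ (1 ≤ p * x → 1 ≤ (p * x) ^ 2 * t) := by
  have ht0 : t ≠ 0 := by
    rintro rfl
    rw [zero_pow (by omega), mul_zero] at hp
    exact zero_ne_one hp
  have htp : 0 < t := zero_lt_iff.2 ht0
  have hti : t ^ i ≤ 1 := pow_le_one' ht.le i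
  have hp1 : 1 ≤ p := by
    apply one_le_of_pow (n := 8) _ (by norm_num)
    calc (1 : Γ) = p ^ 8 * t ^ i := hp.symm
      _ ≤ p ^ 8 * 1 := mul_le_mul' le_rfl hti
      _ = p ^ 8 := mul_one _
  constructor
  · intro h
    by_cases hx1 : x < 1
    · exfalso
      have hxt := hx hx1
      have h1 : t ≤ (p * t) ^ 18 := h.trans (pow_le_pow_left' (mul_le_mul' le_rfl hxt) 18)
      have h2 : t ^ (4 + 9 * i) ≤ t ^ 72 := by
        calc t ^ (4 + 9 * i) = t ^ 4 * t ^ (9 * i) := pow_add _ _ _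
          _ ≤ ((p * t) ^ 18) ^ 4 * t ^ (9 * i) := mul_le_mul' (pow_le_pow_left' h1 4) le_rfl
          _ = (p ^ 8 * t ^ i) ^ 9 * t ^ 72 := by
              rw [mul_pow, mul_pow, mul_pow, ← pow_mul, ← pow_mul, ← pow_mul, ← pow_mul,
                mul_comm i 9]
              norm_num
              rw [mul_right_comm]
          _ = t ^ 72 := by rw [hp, one_pow, one_mul]
      have h3 : t ^ 72 < t ^ (4 + 9 * i) := pow_lt_pow_right_of_lt_one₀ htp ht (by omega)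
      exact absurd h2 (not_le.2 h3)
    · exact one_le_mul hp1 (not_lt.1 hx1)
  · intro h
    by_cases hx1 : x < 1
    · exfalso
      have hxt := hx hx1
      have h1 : 1 ≤ (p * t) ^ 8 := one_le_pow_of_one_le' (h.trans (mul_le_mul' le_rfl hxt)) 8
      have h2 : (p * t) ^ 8 = t ^ (8 - i) := by
        have e : 8 = i + (8 - i) := by omega
        calc (p * t) ^ 8 = p ^ 8 * t ^ 8 := mul_pow _ _ _
          _ = p ^ 8 * (t ^ i * t ^ (8 - i)) := by rw [← pow_add, ← e]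
          _ = (p ^ 8 * t ^ i) * t ^ (8 - i) := (mul_assoc _ _ _).symm
          _ = t ^ (8 - i) := by rw [hp, one_mul]
      rw [h2] at h1
      exact absurd h1 (not_le.2 (pow_lt_one₀ zero_le' ht (by omega)))
    · have hx2 : 1 ≤ x := not_lt.1 hx1
      apply one_le_of_pow (n := 4) _ (by norm_num)
      have e1 : ((p * x) ^ 2 * t) ^ 4 = (p ^ 8 * t ^ 4) * x ^ 8 := by
        rw [mul_pow, ← pow_mul, mul_pow]
        norm_num
        rw [mul_right_comm]
      rw [e1]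
      have h5 : t ^ i ≤ t ^ 4 := pow_le_pow_right_of_le_one' ht.le h4
      have h6 : 1 ≤ p ^ 8 * t ^ 4 := by
        calc (1 : Γ) = p ^ 8 * t ^ i := hp.symm
          _ ≤ p ^ 8 * t ^ 4 := mul_le_mul' le_rfl h5
      exact one_le_mul h6 (one_le_pow_of_one_le' hx2 8)

end TYP

open _root_.Pool.Agent.MUXHN.TYP in
theorem tn_TYP : Sn_TYP := by
  intro V hv KI hKI i h4 h7 pi hpi w hw
  have h := key hv (hKI w hw) i h4 h7 hpi
  rw [map_mul]
  exact h

end

end Pool.Agent.MUXHN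


end

section

/-!
# MUX, block HX: elementary facts on symbols of weight two (module HK, helper7)

Adapted from `Pool/Agent/MU3/H_HK.lean` (helper5).
-/

set_option autoImplicit false

namespace Pool.Agent.MUXH

open _root_.MU3 _root_.Pool.Agent.MuSym OnePoint

noncomputable section

namespace Hk

theorem mob_inf (a b d : ℤ) : mob a b 0 d ∞ = ∞ := by
  show (if (0 : ℤ) = 0 then (∞ : OnePoint ℚ) else ((a / (0 : ℤ) : ℚ) : OnePoint ℚ)) = ∞
  rw [if_pos rfl]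

theorem mob_tr (k : ℤ) (r : ℚ) :
    mob 1 k 0 1 ((r : ℚ) : OnePoint ℚ) = ((r + k : ℚ) : OnePoint ℚ) := by
  show (if ((0 : ℤ) : ℚ) * r + (1 : ℤ) = 0 then ∞ else
    (((((1 : ℤ) : ℚ) * r + (k : ℤ)) / (((0 : ℤ) : ℚ) * r + (1 : ℤ)) : ℚ) : OnePoint ℚ)) = _
  rw [if_neg (by norm_num)]
  congr 1
  push_cast
  ring

theorem mob_neg (r : ℚ) : mob (-1) 0 0 1 ((r : ℚ) : OnePoint ℚ) = ((-r : ℚ) : OnePoint ℚ) := by
  show (if ((0 : ℤ) : ℚ) * r + (1 : ℤ) = 0 then ∞ else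
    ((((((-1 : ℤ) : ℚ) * r + (0 : ℤ)) / (((0 : ℤ) : ℚ) * r + (1 : ℤ)) : ℚ)) : OnePoint ℚ)) = _
  rw [if_neg (by norm_num)]
  congr 1
  push_cast
  ring

theorem mob_p (p : ℕ) (hp : 1 ≤ p) (j : ℤ) (r : ℚ) :
    mob 1 j 0 (p : ℤ) ((r : ℚ) : OnePoint ℚ) = (((r + j) / p : ℚ) : OnePoint ℚ) := by
  show (if ((0 : ℤ) : ℚ) * r + ((p : ℤ) : ℚ) = 0 then ∞ else
    (((((1 : ℤ) : ℚ) * r + (j : ℤ)) / (((0 : ℤ) : ℚ) * r + ((p : ℤ) : ℚ)) : ℚ) :
      OnePoint ℚ)) = _
  have h0 : (p : ℚ) ≠ 0 := by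
    have : p ≠ 0 := by omega
    exact_mod_cast this
  rw [if_neg (by push_cast; simpa using h0)]
  congr 1
  push_cast
  ring

/-- `-(h x) = h' (-x)`. -/
theorem mob_conj (a b c d : ℤ) (x : OnePoint ℚ) :
    mob (-1) 0 0 1 (mob a b c d x) = mob a (-b) (-c) d (mob (-1) 0 0 1 x) := by
  induction x using OnePoint.rec with
  | infty =>
    rw [mob_inf]
    by_cases hc : c = 0
    · subst hc
      rw [mob_inf, neg_zero, mob_inf, mob_inf]
    · have h1 : mob a b c d ∞ = ((a / c : ℚ) : OnePoint ℚ) := by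
        show (if c = 0 then (∞ : OnePoint ℚ) else ((a / c : ℚ) : OnePoint ℚ)) = _
        rw [if_neg hc]
      have h2 : mob a (-b) (-c) d ∞ = ((a / ((-c : ℤ) : ℚ) : ℚ) : OnePoint ℚ) := by
        show (if -c = 0 then (∞ : OnePoint ℚ) else ((a / ((-c : ℤ) : ℚ) : ℚ) : OnePoint ℚ)) = _
        rw [if_neg (by simpa using hc)]
      rw [h1, h2, mob_neg]
      congr 1
      push_cast
      ring
  | coe r =>
    rw [mob_neg]
    by_cases h : (c : ℚ) * r + d = 0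
    · have h1 : mob a b c d ((r : ℚ) : OnePoint ℚ) = ∞ := by
        show (if (c : ℚ) * r + d = 0 then (∞ : OnePoint ℚ) else
          (((a * r + b) / (c * r + d) : ℚ) : OnePoint ℚ)) = _
        rw [if_pos h]
      have h2 : mob a (-b) (-c) d ((-r : ℚ) : OnePoint ℚ) = ∞ := by
        show (if ((-c : ℤ) : ℚ) * (-r) + d = 0 then (∞ : OnePoint ℚ) else
          (((a * (-r) + ((-b : ℤ) : ℚ)) / (((-c : ℤ) : ℚ) * (-r) + d) : ℚ) : OnePoint ℚ)) = _
        rw [if_pos (by push_cast; linarith)]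
      rw [h1, h2, mob_inf]
    · have h1 : mob a b c d ((r : ℚ) : OnePoint ℚ) =
          (((a * r + b) / (c * r + d) : ℚ) : OnePoint ℚ) := by
        show (if (c : ℚ) * r + d = 0 then (∞ : OnePoint ℚ) else
          (((a * r + b) / (c * r + d) : ℚ) : OnePoint ℚ)) = _
        rw [if_neg h]
      have h2 : mob a (-b) (-c) d ((-r : ℚ) : OnePoint ℚ) =
          (((a * (-r) + ((-b : ℤ) : ℚ)) / (((-c : ℤ) : ℚ) * (-r) + d) : ℚ) : OnePoint ℚ) := by
        show (if ((-c : ℤ) : ℚ) * (-r) + d = 0 then (∞ : OnePoint ℚ) else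
          (((a * (-r) + ((-b : ℤ) : ℚ)) / (((-c : ℤ) : ℚ) * (-r) + d) : ℚ) : OnePoint ℚ)) = _
        rw [if_neg (by
          intro h0
          apply h
          push_cast at h0
          linarith)]
      rw [h1, h2, mob_neg]
      congr 1
      push_cast
      rw [show -(c : ℚ) * -r + d = c * r + d by ring,
        show (a : ℚ) * -r + -(b : ℚ) = -(a * r + b) by ring, neg_div]

end Hk

open _root_.Pool.Agent.MUXH.Hk in
theorem tx_HK : Sx_HK := by
  intro p hp N' nu P Q hP hnu s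
  have h1 : ∀ (r : ℚ) (k : ℤ), P ∞ ((r + k : ℚ) : OnePoint ℚ) = P ∞ (r : OnePoint ℚ) := by
    intro r k
    have h := hP.equiv 1 k 0 1 (by ring) (dvd_zero _) ∞ (r : OnePoint ℚ)
    rw [mob_inf, mob_tr, hnu, one_mul] at h
    exact h
  have hs : ∀ (P : OnePoint ℚ → OnePoint ℚ → ℂ) (r : ℚ), sgnPart s P ∞ (r : OnePoint ℚ) =
      P ∞ (r : OnePoint ℚ) + s * P ∞ ((-r : ℚ) : OnePoint ℚ) := by
    intro P r
    unfold sgnPart
    rw [mob_inf, mob_neg]
  refine ⟨?_, ⟨?_, ?_⟩, ?_⟩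
  · intro r k
    rw [hs, hs, h1, show (-(r + k) : ℚ) = -r + ((-k : ℤ) : ℚ) by push_cast; ring, h1]
  · intro x y z
    unfold sgnPart
    have e1 := hP.add x y z
    have e2 := hP.add (mob (-1) 0 0 1 x) (mob (-1) 0 0 1 y) (mob (-1) 0 0 1 z)
    linear_combination e1 + s * e2
  · intro a b c d hdet hc x y
    unfold sgnPart
    rw [mob_conj, mob_conj, hP.equiv a b c d hdet hc,
      hP.equiv a (-b) (-c) d (by linarith) ((dvd_neg).2 hc)]
    ring
  · intro hnp hh r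
    have hk : ∀ r : ℚ, ∑ j ∈ Finset.range p, P ∞ (((r + j) / p : ℚ) : OnePoint ℚ) =
        Q ∞ (r : OnePoint ℚ) := by
      intro r
      rw [← hh]
      unfold hecke
      rw [hnp, zero_mul, add_zero]
      apply Finset.sum_congr rfl
      intro j _
      rw [mob_inf, mob_p p hp (j : ℤ) r]
      norm_cast
    have hsum : ∑ j ∈ Finset.range p, P ∞ ((-((r + j) / p) : ℚ) : OnePoint ℚ) =
        Q ∞ ((-r : ℚ) : OnePoint ℚ) := by
      rw [← hk (-r)]
      obtain ⟨m, rfl⟩ : ∃ m, p = m + 1 := ⟨p - 1, by omega⟩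
      rw [Finset.sum_range_succ', Finset.sum_range_succ']
      have hm : ((m + 1 : ℕ) : ℚ) ≠ 0 := by exact_mod_cast Nat.succ_ne_zero m
      congr 1
      · rw [← Finset.sum_range_reflect]
        apply Finset.sum_congr rfl
        intro j hj
        have hj' := Finset.mem_range.1 hj
        have e1 : (-((r + ((m - 1 - j + 1 : ℕ) : ℚ)) / ((m + 1 : ℕ) : ℚ)) : ℚ) =
            (-r + ((j + 1 : ℕ) : ℚ)) / ((m + 1 : ℕ) : ℚ) + ((-1 : ℤ) : ℚ) := by
          have e2 : m - 1 - j + 1 = m - j := by omega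
          rw [e2, Nat.cast_sub hj'.le]
          field_simp
          push_cast
          ring
        rw [e1, h1]
      · congr 2
        push_cast
        ring
    calc ∑ j ∈ Finset.range p, sgnPart s P ∞ (((r + j) / p : ℚ) : OnePoint ℚ)
        = ∑ j ∈ Finset.range p, (P ∞ (((r + j) / p : ℚ) : OnePoint ℚ) +
            s * P ∞ ((-((r + j) / p) : ℚ) : OnePoint ℚ)) :=
          Finset.sum_congr rfl fun j _ => hs P _
      _ = Q ∞ (r : OnePoint ℚ) + s * Q ∞ ((-r : ℚ) : OnePoint ℚ) := by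
          rw [Finset.sum_add_distrib, hk, ← Finset.mul_sum, hsum]
      _ = sgnPart s Q ∞ (r : OnePoint ℚ) := by rw [hs Q]

end

end Pool.Agent.MUXH


end

section

/-!
# MUX-NS, block HN, module HKN (helper96): the part `s` of the symbol
-/

set_option autoImplicit false

namespace Pool.Agent.MUXHN

open _root_.MU3 _root_.Pool.Agent.MuSym _root_.Pool.Agent.MUXH OnePoint

noncomputable section

/-- (HKN) the part `s` of the symbol. -/
theorem tn_HKN : Sn_HKN := by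
  intro N' nu P s hP hnu hdep
  obtain ⟨h1, h2, -⟩ := tx_HK 3 (by norm_num) N' nu P P hP hnu s
  refine ⟨h2, h1, ?_⟩
  have ht : ∀ (r : ℚ) (k : ℤ), P ∞ ((r + k : ℚ) : OnePoint ℚ) = P ∞ (r : OnePoint ℚ) := by
    intro r k
    have h := hP.equiv 1 k 0 1 (by ring) (dvd_zero _) ∞ (r : OnePoint ℚ)
    rw [Hk.mob_inf, Hk.mob_tr, hnu, one_mul] at h
    exact h
  have hs : ∀ r : ℚ, sgnPart s P ∞ (r : OnePoint ℚ) =
      P ∞ (r : OnePoint ℚ) + s * P ∞ ((-r : ℚ) : OnePoint ℚ) := by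
    intro r
    unfold sgnPart
    rw [Hk.mob_inf, Hk.mob_neg]
  intro x
  have e1 := hdep x
  have e2 := hdep (-x)
  simp only [Finset.sum_range_succ, Finset.sum_range_zero, zero_add] at e1 e2 ⊢
  have a0 : (-((x + ((0 : ℕ) : ℚ)) / 3) : ℚ) = (-x + ((0 : ℕ) : ℚ)) / 3 := by push_cast; ring
  have a1 : (-((x + ((1 : ℕ) : ℚ)) / 3) : ℚ) = (-x + ((2 : ℕ) : ℚ)) / 3 + ((-1 : ℤ) : ℚ) := by
    push_cast; ring
  have a2 : (-((x + ((2 : ℕ) : ℚ)) / 3) : ℚ) = (-x + ((1 : ℕ) : ℚ)) / 3 + ((-1 : ℤ) : ℚ) := by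
    push_cast; ring
  rw [hs, hs, hs, a0, a1, a2, ht, ht]
  linear_combination e1 + s * e2

end

end Pool.Agent.MUXHN


end

section

/-!
# MUX, block HX: an algebraic number times a power of `p` is in `V`
-/

set_option autoImplicit false

namespace Pool.Agent.MUXH

open _root_.MU3 _root_.Pool.Agent.MuSym OnePoint

noncomputable section

namespace Alb

theorem int_mem (V : ValuationSubring ℂ) (n : ℤ) : (n : ℂ) ∈ V := intCast_mem V n

theorem int_le (V : ValuationSubring ℂ) (n : ℤ) : V.valuation (n : ℂ) ≤ 1 :=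
  (V.valuation_le_one_iff _).2 (int_mem V n)

theorem unit_of_not_dvd (p : ℕ) (hp : p.Prime) (V : ValuationSubring ℂ)
    (h3 : V.valuation (p : ℂ) < 1) {m : ℤ} (hm : ¬ (p : ℤ) ∣ m) : V.valuation (m : ℂ) = 1 := by
  have hco : IsCoprime (p : ℤ) m :=
    ((Nat.prime_iff_prime_int.1 hp).irreducible.coprime_iff_not_dvd).2 hm
  obtain ⟨a, b, hab⟩ := hco
  have h1 : (a : ℂ) * p + (b : ℂ) * m = 1 := by exact_mod_cast hab
  refine le_antisymm (int_le V m) ?_
  by_contra hlt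
  have hlt' : V.valuation (m : ℂ) < 1 := not_le.1 hlt
  have h2 : V.valuation ((a : ℂ) * p) < 1 := by
    rw [map_mul]
    calc V.valuation (a : ℂ) * V.valuation (p : ℂ) ≤ 1 * V.valuation (p : ℂ) := by
          gcongr
          exact int_le V a
      _ < 1 := by rwa [one_mul]
  have h4 : V.valuation ((b : ℂ) * m) < 1 := by
    rw [map_mul]
    calc V.valuation (b : ℂ) * V.valuation (m : ℂ) ≤ 1 * V.valuation (m : ℂ) := by
          gcongr
          exact int_le V b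
      _ < 1 := by rwa [one_mul]
  have h5 := V.valuation.map_add_lt h2 h4
  rw [h1, map_one] at h5
  exact lt_irrefl _ h5

theorem integral_mem (V : ValuationSubring ℂ) {x : ℂ} (hx : IsIntegral ℤ x) : x ∈ V := by
  have h1 : IsIntegral V x := hx.tower_top
  obtain ⟨y, hy⟩ := (IsIntegrallyClosed.isIntegral_iff (R := V) (K := ℂ)).1 h1
  rw [← hy]
  exact y.2

end Alb

/-- An algebraic number times a power of `p` is in `V`. -/
theorem tx_ALB : Sx_ALB := by
  intro p hp V h3 l hl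
  have hl' : IsAlgebraic ℤ l := (IsFractionRing.isAlgebraic_iff ℤ ℚ ℂ).2 hl
  obtain ⟨n, hn0, hn⟩ := hl'.exists_integral_multiple
  have h1 : V.valuation ((n : ℂ) * l) ≤ 1 := by
    rw [V.valuation_le_one_iff]
    have := Alb.integral_mem V hn
    rwa [zsmul_eq_mul] at this
  obtain ⟨k, m, hm, hk⟩ := Nat.exists_eq_pow_mul_and_not_dvd (Int.natAbs_ne_zero.2 hn0) p
    hp.ne_one
  have h2 : V.valuation ((n.natAbs : ℂ) * l) ≤ 1 := by
    rcases Int.natAbs_eq n with h | h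
    · have h4 : ((n : ℤ) : ℂ) = (n.natAbs : ℂ) := by
        conv_lhs => rw [h]
        simp
      rwa [h4] at h1
    · have h4 : ((n : ℤ) : ℂ) = -(n.natAbs : ℂ) := by
        conv_lhs => rw [h]
        simp
      rw [h4, neg_mul, Valuation.map_neg] at h1
      exact h1
  refine ⟨k, ?_⟩
  have h5 : V.valuation (m : ℂ) = 1 := by
    have h6 := Alb.unit_of_not_dvd p hp V h3 (m := (m : ℤ)) (by
      intro h
      exact hm (by exact_mod_cast h))
    simpa using h6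
  rw [hk] at h2
  have h7 : ((p ^ k * m : ℕ) : ℂ) * l = (m : ℂ) * (p ^ k * l) := by
    push_cast
    ring
  rw [h7, map_mul, h5, one_mul] at h2
  exact h2

end

end Pool.Agent.MUXH


end

section

/-!
# MUX, block H, module MAX: a subset of a finitely generated group has an element of maximal valuation
and generates a group generated by finitely many of its elements
-/

set_option autoImplicit false

namespace Pool.Agent.MUXH

open _root_.MU3 _root_.Pool.Agent.MuSym OnePoint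

noncomputable section

namespace Max

theorem val_int (V : ValuationSubring ℂ) (n : ℤ) : V.valuation (n : ℂ) ≤ 1 :=
  (V.valuation_le_one_iff _).2 (intCast_mem V n)

theorem val_span (V : ValuationSubring ℂ) (s : Set ℂ) (g : V.ValueGroup)
    (h : ∀ x ∈ s, V.valuation x ≤ g) (x : ℂ) (hx : x ∈ Submodule.span ℤ s) : V.valuation x ≤ g := by
  induction hx using Submodule.span_induction with
  | mem x hx => exact h x hx
  | zero => rw [map_zero]; exact zero_le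
  | add x y _ _ hx hy => exact (V.valuation.map_add x y).trans (max_le hx hy)
  | smul n x _ hx =>
    rw [zsmul_eq_mul, map_mul]
    calc V.valuation (n : ℂ) * V.valuation x ≤ 1 * V.valuation x := by
          gcongr
          exact val_int V n
      _ = V.valuation x := one_mul _
      _ ≤ g := hx

end Max

open _root_.Pool.Agent.MUXH.Max in
/-- A subset of a finitely generated group has an element of maximal valuation. -/
theorem tx_MAX : Sx_MAX := by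
  classical
  intro V T S hS hne
  have hcl : ∀ s : Set ℂ, (Submodule.span ℤ s).toAddSubgroup = AddSubgroup.closure s :=
    fun s => Submodule.span_int_eq_addSubgroupClosure _
  -- the span of `S` is finitely generated
  have hle : Submodule.span ℤ S ≤ Submodule.span ℤ (T : Set ℂ) := by
    rw [Submodule.span_le]
    intro x hx
    have h1 := hS hx
    rw [← hcl] at h1
    exact h1
  have hN : IsNoetherian ℤ (Submodule.span ℤ (T : Set ℂ)) :=
    isNoetherian_span_of_finite ℤ T.finite_toSet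
  have hfg : (Submodule.span ℤ S).FG := by
    have h1 := (isNoetherian_submodule.1 hN) (Submodule.span ℤ S) hle
    exact h1
  obtain ⟨S₀, hS₀, hsp⟩ := Submodule.fg_span_iff_fg_span_finset_subset _ |>.1 hfg
  have h0 : ∀ x ∈ S, x ∈ Submodule.span ℤ (S₀ : Set ℂ) := by
    intro x hx
    rw [← hsp]
    exact Submodule.subset_span hx
  refine ⟨?_, S₀, hS₀, ?_⟩
  · obtain ⟨s₁, hs₁⟩ := hne
    obtain ⟨l, hl, hmax⟩ := (insert s₁ S₀).exists_max_image (fun x => V.valuation x)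
      ⟨s₁, Finset.mem_insert_self s₁ S₀⟩
    refine ⟨l, ?_, ?_⟩
    · rcases Finset.mem_insert.1 hl with h | h
      · rw [h]; exact hs₁
      · exact hS₀ h
    · intro x hx
      exact val_span V _ _ (fun y hy => hmax y (Finset.mem_insert_of_mem hy)) x (h0 x hx)
  · intro x hx
    have h1 := h0 x hx
    change x ∈ AddSubgroup.closure (S₀ : Set ℂ)
    rw [← hcl]
    exact h1

end

end Pool.Agent.MUXH


end

section

/-!
# MUX-NS, block HN, module BDN: bounded denominators (helper76)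
-/

set_option autoImplicit false

namespace Pool.Agent.MUXHN

open _root_.MU3 _root_.Pool.Agent.MuSym _root_.Pool.Agent.MUXH OnePoint

noncomputable section

/-- BDN. -/
theorem tn_BDN : Sn_BDN := by
  intro V hv P halg hfin
  obtain ⟨T, hT⟩ := hfin
  obtain ⟨⟨l, ⟨x0, y0, rfl⟩, hmax⟩, -⟩ := tx_MAX V T {z | ∃ x y, P x y = z} (by
      rintro _ ⟨x, y, rfl⟩
      exact hT x y) ⟨_, ∞, ∞, rfl⟩
  obtain ⟨k, hk⟩ := tx_ALB 3 Nat.prime_three V (by exact_mod_cast hv) _ (halg x0 y0)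
  refine ⟨k, fun x y => ?_⟩
  have hk' : V.valuation (3 ^ k * P x0 y0) ≤ 1 := by exact_mod_cast hk
  refine le_trans ?_ hk'
  rw [map_mul, map_mul]
  exact mul_le_mul_right (hmax _ ⟨x, y, rfl⟩) _

end

end Pool.Agent.MUXHN


end

section

/-!
# MUX, block H, module H1: the part `s` of the symbol is not zero modulo `V` on closed cycles
-/

set_option autoImplicit false

namespace Pool.Agent.MUXH

open _root_.MU3 _root_.Pool.Agent.MuSym OnePoint

noncomputable section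

namespace H1

/-- conjugation of a matrix by the translation by `a / D` -/
theorem conj_mob (D a α γ' : ℤ) (hD : D ≠ 0) (β β' δ δ' : ℤ) :
    mob D a 0 D (mob α β (D ^ 2 * γ') δ ∞) = mob (α + a * D * γ') β' (D ^ 2 * γ') δ' ∞ := by
  have hD' : (D : ℚ) ≠ 0 := by exact_mod_cast hD
  by_cases hg : γ' = 0
  · subst hg
    simp [mob]
  · have hg' : (γ' : ℚ) ≠ 0 := by exact_mod_cast hg
    have h1 : D ^ 2 * γ' ≠ 0 := mul_ne_zero (pow_ne_zero _ hD) hg
    have e1 : mob α β (D ^ 2 * γ') δ ∞ = (((α : ℚ) / ((D ^ 2 * γ' : ℤ) : ℚ) : ℚ) : OnePoint ℚ) := by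
      show (if D ^ 2 * γ' = 0 then ∞ else (((α : ℚ) / ((D ^ 2 * γ' : ℤ) : ℚ) : ℚ) : OnePoint ℚ)) = _
      rw [if_neg h1]
    have e2 : mob (α + a * D * γ') β' (D ^ 2 * γ') δ' ∞ =
        ((((α + a * D * γ' : ℤ) : ℚ) / ((D ^ 2 * γ' : ℤ) : ℚ) : ℚ) : OnePoint ℚ) := by
      show (if D ^ 2 * γ' = 0 then ∞ else
        ((((α + a * D * γ' : ℤ) : ℚ) / ((D ^ 2 * γ' : ℤ) : ℚ) : ℚ) : OnePoint ℚ)) = _
      rw [if_neg h1]
    have e3 : ∀ r : ℚ, mob D a 0 D (r : OnePoint ℚ) =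
        ((((D : ℚ) * r + a) / (((0 : ℤ) : ℚ) * r + D) : ℚ) : OnePoint ℚ) := by
      intro r
      show (if ((0 : ℤ) : ℚ) * r + (D : ℚ) = 0 then ∞ else
        ((((D : ℚ) * r + a) / (((0 : ℤ) : ℚ) * r + D) : ℚ) : OnePoint ℚ)) = _
      rw [if_neg (by simpa using hD')]
    rw [e1, e2, e3]
    congr 1
    push_cast
    field_simp
    ring

theorem mob_inf (D a : ℤ) : mob D a 0 D ∞ = ∞ := by
  simp [mob]

end H1

open _root_.Pool.Agent.MUXH.H1 in
theorem tx_H1 : Sx_H1 := by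
  intro p V N₀ s₀ h a nu P s hyp
  by_contra hcon
  push Not at hcon
  obtain ⟨q, c, hq, hc, hprj⟩ := hyp.prj
  obtain ⟨M, hM⟩ : ∃ M : ℕ, M = p ^ (s₀ + 1) * N₀ := ⟨_, rfl⟩
  rw [← hM] at hcon
  have hM0 : M ≠ 0 := by
    rw [hM]
    exact mul_ne_zero (pow_ne_zero _ hyp.pp.ne_zero) hyp.N0
  obtain ⟨D, hD⟩ : ∃ D : ℤ, D = (q : ℤ) := ⟨_, rfl⟩
  have hD0 : D ≠ 0 := by rw [hD]; exact_mod_cast hq
  obtain ⟨α, β, γ, δ, h1, h2, h3, h4⟩ := hyp.G (M * q ^ 2) (mul_ne_zero hM0 (pow_ne_zero _ hq))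
    (by rw [← hM]; exact Dvd.intro _ rfl)
  have hcast : ((M * q ^ 2 : ℕ) : ℤ) = M * D ^ 2 := by
    push_cast
    rw [hD]
  rw [hcast] at h2 h3
  obtain ⟨u, hu⟩ := h2
  obtain ⟨t, ht⟩ := h3
  have hterm : ∀ k ∈ Finset.range q, V.valuation (c k *
      sgnPart (s : ℂ) (P 0) (mob q k 0 q ∞) (mob q k 0 q (mob α β γ δ ∞))) < 1 := by
    intro k _
    have e1 : γ = D ^ 2 * (M * u) := by rw [hu]; ring
    have e2 : mob D k 0 D (mob α β γ δ ∞) =
        mob (α + k * D * (M * u)) (β + k * D * M * (t - (β * u - α * t)) - k ^ 2 * (M * u))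
          (D ^ 2 * (M * u)) (δ - k * D * (M * u)) ∞ := by
      rw [e1]
      exact conj_mob D k α (M * u) hD0 _ _ _ _
    have hδ2 : δ = 1 + M * D ^ 2 * t := by linarith
    have hα2 : α = 1 + M * D ^ 2 * (β * u - α * t) := by
      have h5 : α = 1 + β * γ - α * (δ - 1) := by linarith
      rw [ht, hu] at h5
      linarith
    rw [← hD, e2, mob_inf, map_mul]
    have h5 := hcon (α + k * D * (M * u))
      (β + k * D * M * (t - (β * u - α * t)) - k ^ 2 * (M * u))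
      (D ^ 2 * (M * u)) (δ - k * D * (M * u)) ?_ ?_ ?_
    · exact mul_lt_one_of_nonneg_of_lt_one_right (hc k) zero_le h5
    · have e3 : δ - α = M * D ^ 2 * (t - (β * u - α * t)) := by linarith
      have e4 : α * δ - β * (D ^ 2 * (M * u)) = 1 := by rw [← e1]; exact h1
      linear_combination e4 + (k * D * (M * u)) * e3
    · exact Dvd.intro_left (D ^ 2 * u) (by ring)
    · refine ⟨D ^ 2 * t - k * D * u, ?_⟩
      rw [hδ2]
      ring
  have hsum : V.valuation (P 0 ∞ (mob α β γ δ ∞)) < 1 := by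
    rw [← hprj ∞ (mob α β γ δ ∞)]
    exact V.valuation.map_sum_lt one_ne_zero hterm
  exact absurd h4 (not_le.2 hsum)

end

end Pool.Agent.MUXH


end

section

/-!
# MUX-NS, block HN, module H1N (helper91): Theorem G for the part `s` of the symbol
-/

set_option autoImplicit false

namespace Pool.Agent.MUXHN

open _root_.MU3 _root_.Pool.Agent.MuSym _root_.Pool.Agent.MUXH OnePoint

noncomputable section

namespace H1N

theorem mob_tr (D a : ℤ) (hD : D ≠ 0) (r : ℚ) :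
    mob D a 0 D (r : OnePoint ℚ) = ((r + (a : ℚ) / D : ℚ) : OnePoint ℚ) := by
  have hD' : (D : ℚ) ≠ 0 := by exact_mod_cast hD
  have h1 : mob D a 0 D (r : OnePoint ℚ) =
      ((((D : ℚ) * r + a) / (((0 : ℤ) : ℚ) * r + D) : ℚ) : OnePoint ℚ) := by
    show (if ((0 : ℤ) : ℚ) * r + (D : ℚ) = 0 then ∞ else
      ((((D : ℚ) * r + a) / (((0 : ℤ) : ℚ) * r + D) : ℚ) : OnePoint ℚ)) = _
    rw [if_neg (by simpa using hD')]
  have h2 : ((0 : ℤ) : ℚ) * r + (D : ℚ) = D := by simp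
  rw [h1, h2]
  congr 1
  rw [add_div, mul_div_cancel_left₀ r hD']

/-- translations commute on cusps -/
theorem mob_comm (D a D' a' : ℤ) (hD : D ≠ 0) (hD' : D' ≠ 0) (x : OnePoint ℚ) :
    mob D a 0 D (mob D' a' 0 D' x) = mob D' a' 0 D' (mob D a 0 D x) := by
  induction x using OnePoint.rec with
  | infty => rw [MUXH.H1.mob_inf, MUXH.H1.mob_inf, MUXH.H1.mob_inf]
  | coe r =>
    rw [mob_tr D' a' hD', mob_tr D a hD, mob_tr D a hD, mob_tr D' a' hD']
    congr 1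
    ring

end H1N

open _root_.Pool.Agent.MUXHN.H1N in
theorem tn_H1N : Sn_H1N := by
  intro V N₀ s₀ i nu P s pi KI hyp N' hN' hdvd
  by_contra hcon
  push Not at hcon
  obtain ⟨q, c, hq, hc, hprj⟩ := hyp.prj
  obtain ⟨M, hM⟩ : ∃ M : ℕ, M = N' := ⟨_, rfl⟩
  rw [← hM] at hcon hN' hdvd
  obtain ⟨D, hD⟩ : ∃ D : ℤ, D = (q : ℤ) := ⟨_, rfl⟩
  have hD0 : D ≠ 0 := by rw [hD]; exact_mod_cast hq
  obtain ⟨α, β, γ, δ, h1, h2, h3, h4⟩ := hyp.G (M * q ^ 2) (mul_ne_zero hN' (pow_ne_zero _ hq))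
    (Dvd.dvd.mul_right hdvd _)
  have hcast : ((M * q ^ 2 : ℕ) : ℤ) = M * D ^ 2 := by
    push_cast
    rw [hD]
  rw [hcast] at h2 h3
  obtain ⟨u, hu⟩ := h2
  obtain ⟨t, ht⟩ := h3
  have hterm : ∀ k ∈ Finset.range q, V.valuation (c k *
      PT (sgnPart (s : ℂ) P) (mob q k 0 q ∞) (mob q k 0 q (mob α β γ δ ∞))) ^ 18 <
        V.valuation (3 : ℂ) := by
    intro k _
    have e1 : γ = D ^ 2 * (M * u) := by rw [hu]; ring
    have e2 : mob D k 0 D (mob α β γ δ ∞) =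
        mob (α + k * D * (M * u)) (β + k * D * M * (t - (β * u - α * t)) - k ^ 2 * (M * u))
          (D ^ 2 * (M * u)) (δ - k * D * (M * u)) ∞ := by
      rw [e1]
      exact MUXH.H1.conj_mob D k α (M * u) hD0 _ _ _ _
    have hδ2 : δ = 1 + M * D ^ 2 * t := by linarith
    have hα2 : α = 1 + M * D ^ 2 * (β * u - α * t) := by
      have h5 : α = 1 + β * γ - α * (δ - 1) := by linarith
      rw [ht, hu] at h5
      linarith
    rw [← hD, e2, MUXH.H1.mob_inf, map_mul]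
    have h5 := hcon (α + k * D * (M * u))
      (β + k * D * M * (t - (β * u - α * t)) - k ^ 2 * (M * u))
      (D ^ 2 * (M * u)) (δ - k * D * (M * u)) ?_ ?_ ?_
    · refine lt_of_le_of_lt (pow_le_pow_left₀ zero_le (mul_le_of_le_one_left' (hc k)) 18) h5
    · have e3 : δ - α = M * D ^ 2 * (t - (β * u - α * t)) := by linarith
      have e4 : α * δ - β * (D ^ 2 * (M * u)) = 1 := by rw [← e1]; exact h1
      linear_combination e4 + (k * D * (M * u)) * e3
    · exact Dvd.intro_left (D ^ 2 * u) (by ring)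
    · refine ⟨D ^ 2 * t - k * D * u, ?_⟩
      rw [hδ2]
      ring
  have h3pos : (0 : V.ValueGroup) < V.valuation (3 : ℂ) :=
    lt_of_le_of_ne zero_le ((Valuation.ne_zero_iff _).2 (by norm_num)).symm
  have hsum : V.valuation (∑ k ∈ Finset.range q, c k *
      PT (sgnPart (s : ℂ) P) (mob q k 0 q ∞) (mob q k 0 q (mob α β γ δ ∞))) ^ 18 <
        V.valuation (3 : ℂ) := by
    refine Finset.sum_induction _ (fun x => V.valuation x ^ 18 < V.valuation (3 : ℂ)) ?_ ?_ hterm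
    · intro x y hx hy
      have h := V.valuation.map_add x y
      rcases le_total (V.valuation x) (V.valuation y) with hxy | hxy
      · rw [max_eq_right hxy] at h
        exact lt_of_le_of_lt (pow_le_pow_left₀ zero_le h 18) hy
      · rw [max_eq_left hxy] at h
        exact lt_of_le_of_lt (pow_le_pow_left₀ zero_le h 18) hx
    · show V.valuation 0 ^ 18 < _
      rw [map_zero, zero_pow (by norm_num)]
      exact h3pos
  have hq0 : (q : ℤ) ≠ 0 := by exact_mod_cast hq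
  have hPT : PT P ∞ (mob α β γ δ ∞) = ∑ k ∈ Finset.range q, c k *
      PT (sgnPart (s : ℂ) P) (mob q k 0 q ∞) (mob q k 0 q (mob α β γ δ ∞)) := by
    unfold PT
    rw [← hprj ∞ (mob α β γ δ ∞), ← hprj (mob 27 1 0 27 ∞) (mob 27 1 0 27 (mob α β γ δ ∞)),
      ← Finset.sum_sub_distrib]
    refine Finset.sum_congr rfl fun k _ => ?_
    rw [mob_comm q k 27 1 hq0 (by norm_num) ∞,
      mob_comm q k 27 1 hq0 (by norm_num) (mob α β γ δ ∞), mul_sub]
  rw [← hPT] at hsum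
  exact absurd h4 (not_le.2 hsum)

end

end Pool.Agent.MUXHN


end

section

/-!
# MUX, block H, abstract part: the glue
-/

set_option autoImplicit false

namespace Pool.Agent.MUXH

open _root_.MU3 _root_.Pool.Agent.MuSym OnePoint

noncomputable section

namespace Ha

/-- the powers of `p` in an integer -/
lemma split (p : ℕ) (hp : p.Prime) (n : ℕ) (b : ℤ) (h : ¬ (p : ℤ) ^ n ∣ b) :
    ∃ (k : ℕ) (b' : ℤ), k < n ∧ ¬ (p : ℤ) ∣ b' ∧ b = p ^ k * b' := by
  have hb : b ≠ 0 := by rintro rfl; exact h (dvd_zero _)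
  have hfin : FiniteMultiplicity (p : ℤ) b := by
    rw [Int.finiteMultiplicity_iff]
    refine ⟨?_, hb⟩
    simpa using hp.one_lt.ne'
  obtain ⟨b', hb', hnd⟩ := hfin.exists_eq_pow_mul_and_not_dvd
  refine ⟨multiplicity (p : ℤ) b, b', ?_, hnd, hb'⟩
  by_contra hlt
  push Not at hlt
  exact h (dvd_trans (pow_dvd_pow _ hlt) (Dvd.intro _ hb'.symm))

/-- the combination is linear -/
lemma comb_div (a g : ℤ) (N : ℕ) (F G : ℤ → ℂ) (c : ℂ) (h : ∀ b, F b = G b / c) (b : ℤ) :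
    comb a g N F b = comb a g N G b / c := by
  unfold comb
  rw [Finset.sum_div]
  refine Finset.sum_congr rfl fun j _ => ?_
  rw [h, h]
  ring

end Ha

open _root_.Pool.Agent.MUXH.Ha in
theorem tx_HA (hHZ : Sx_HZ) (hH5 : Sx_H5) (hMD : Sx_MD) (hMAX : Sx_MAX) (hDIS : Sx_DIS)
    (hHK : Sx_HK) (hFLD : Sx_FLD) (hH2 : Sx_H2) : Sx_HA := by
  intro p V N₀ s₀ h a nu P s hyp
  obtain ⟨K, hKfin, haK, hPK⟩ := hFLD p V N₀ s₀ h a nu P s hyp
  obtain ⟨n₁, b₁, hn₁, hb₁, hv₁⟩ := hH2 p V N₀ s₀ h a nu P s hyp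
  obtain ⟨d, hd⟩ := hDIS p hyp.pp V hyp.vp K hKfin
  obtain ⟨T, hT⟩ := hyp.fin
  have hp := hyp.pp
  have hp1 : 1 ≤ p := hp.one_le
  have hh := hyp.h1
  have hpQ : (p : ℚ) ≠ 0 := by exact_mod_cast hp.ne_zero
  have ha0 : a ≠ 0 := by
    rintro rfl
    have := hyp.va
    rw [map_zero] at this
    exact zero_ne_one this
  have hk := fun i => hHK p hp1 _ nu (P i) (P (i + 1)) (hyp.sym i) hyp.nu1 (s : ℂ)
  set g : ℕ → ℚ → ℂ := fun i x => sgnPart (s : ℂ) (P i) ∞ (x : OnePoint ℚ) with hg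
  have hgper : ∀ (i : ℕ) (x : ℚ) (k : ℤ), g i (x + k) = g i x := fun i x k => (hk i).1 x k
  have hgU : ∀ (i : ℕ) (x : ℚ), ∑ j ∈ Finset.range p, g i ((x + j) / p) = g (i + 1) x :=
    fun i x => (hk i).2.2 hyp.nup (hyp.hec i) x
  have hgh : ∀ x : ℚ, g h x = a * g 0 x := by
    intro x
    simp only [hg, sgnPart, hyp.per]
    ring
  have hgK : ∀ (i : ℕ) (x : ℚ), g i x ∈ K := by
    intro i x
    simp only [hg, sgnPart]
    exact K.add_mem (hPK _ _ _) (K.mul_mem (intCast_mem K s) (hPK _ _ _))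
  -- the set of the values
  set S : Set ℂ := {x | ∃ (n : ℕ) (b : ℤ), 1 ≤ n ∧ ¬ (p : ℤ) ∣ b ∧ x = g 0 (b / p ^ n)} with hS
  obtain ⟨lam, ⟨n₂, b₂, hn₂, hb₂, hlam⟩, hmax⟩ := (hMAX V T S (by
      rintro x ⟨n, b, -, -, rfl⟩
      simp only [hg, sgnPart, SetLike.mem_coe]
      refine AddSubgroup.add_mem _ (hT _ _) ?_
      rw [← zsmul_eq_mul]
      exact AddSubgroup.zsmul_mem _ (hT _ _) s)
    ⟨_, n₁, b₁, hn₁, hb₁, rfl⟩).1
  have hvlam : 1 ≤ V.valuation lam := hv₁.trans (hmax _ ⟨n₁, b₁, hn₁, hb₁, rfl⟩)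
  have hvlam0 : 0 < V.valuation lam := lt_of_lt_of_le zero_lt_one hvlam
  have hlam0 : lam ≠ 0 := by
    rintro h
    rw [h, map_zero] at hvlam0
    exact lt_irrefl _ hvlam0
  have hlamK : lam ∈ K := by rw [hlam]; exact hgK _ _
  obtain ⟨hshift, hDist, hsum⟩ := hMD p hp1 g a lam h n₂ hh ha0 hgper hgU hgh
  -- powers of the shift
  have hpow : ∀ (k : ℕ) (x : ℚ), g (h * k) x = a ^ k * g 0 x := by
    intro k
    induction k with
    | zero => intro x; simp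
    | succ k ih =>
      intro x
      rw [Nat.mul_succ, hshift, ih, pow_succ]
      ring
  set M : ℕ → ℤ → ℂ := fun n b => g ((h - 1) * n + n₂) (b / p ^ n) / (lam * a ^ n) with hM
  have hvM : ∀ n b, V.valuation (M n b) =
      V.valuation (g ((h - 1) * n + n₂) (b / p ^ n)) / V.valuation lam := by
    intro n b
    simp only [hM]
    rw [map_div₀, map_mul, map_pow, hyp.va, one_pow, mul_one]
  have hMK : ∀ n b, M n b ∈ K := by
    intro n b
    exact K.div_mem (hgK _ _) (K.mul_mem hlamK (pow_mem haK n))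
  -- integrality of the values
  have hbound : ∀ (i n : ℕ) (b : ℤ), ¬ (p : ℤ) ^ n ∣ b →
      V.valuation (g i (b / p ^ n)) ≤ V.valuation lam := by
    intro i n b hb
    rw [hsum i n b]
    refine Valuation.map_sum_le _ fun b' _ => ?_
    have hb1 : ¬ (p : ℤ) ^ n ∣ b + b' * p ^ n := by
      intro hd
      exact hb ((dvd_add_left (Dvd.intro_left _ rfl)).1 hd)
    obtain ⟨k, c, hkn, hc, hbc⟩ := split p hp n _ hb1
    apply hmax
    refine ⟨n + i - k, c, by omega, hc, ?_⟩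
    have h3 : (p : ℚ) ^ (n + i) = p ^ k * p ^ (n + i - k) := by
      rw [← pow_add]; congr 1; omega
    have h4 : (((b + b' * p ^ n : ℤ) : ℚ) / p ^ (n + i)) = ((c : ℤ) : ℚ) / p ^ (n + i - k) := by
      rw [h3, hbc]
      push_cast
      field_simp
    rw [h4]
  have hMint : ∀ (n : ℕ) (b : ℤ), ¬ (p : ℤ) ^ n ∣ b → V.valuation (M n b) ≤ 1 := by
    intro n b hb
    rw [hvM, div_le_one₀ hvlam0]
    exact hbound _ n b hb
  have hidx : (h - 1) * n₂ + n₂ = h * n₂ := by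
    obtain ⟨h', rfl⟩ := Nat.exists_eq_add_of_le hh
    rw [Nat.add_sub_cancel_left]; ring
  have hMunit : ∃ (n : ℕ) (b : ℤ), 1 ≤ n ∧ ¬ (p : ℤ) ∣ b ∧ V.valuation (M n b) = 1 := by
    refine ⟨n₂, b₂, hn₂, hb₂, ?_⟩
    rw [hvM, hidx, hpow, map_mul, map_pow, hyp.va, one_pow, one_mul, ← hlam, div_self hvlam0.ne']
  refine ⟨n₂, ?_⟩
  intro α γ hα hα1 hγ hγ1 N hN E
  obtain ⟨hD1, hI1, hU1⟩ := hH5 p hp V hyp.vp M hDist hMint hMunit α γ hα hα1 hγ hγ1 N hN
  have hCK : ∀ n b, comb α γ N (M n) b ∈ K := by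
    intro n b
    unfold comb
    refine K.sum_mem fun j _ => K.mul_mem (K.mul_mem (pow_mem (K.neg_mem K.one_mem) _)
      (natCast_mem K _)) (K.sub_mem (K.mul_mem (intCast_mem K _) (hMK _ _))
        (K.mul_mem (pow_mem (intCast_mem K _) _) (hMK _ _)))
  obtain ⟨n₀, hn₀⟩ := hHZ p hp V hyp.vp K.toSubfield.toSubring d hd _ hD1 hCK hI1 hU1 E
  refine ⟨max n₀ n₂, fun n hn hmod ζ hζ => ?_⟩
  have hmain := hn₀ n (le_trans (le_max_left _ _) hn) ζ hζ
  have hn2 : n₂ ≤ n := le_trans (le_max_right _ _) hn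
  obtain ⟨k, hk'⟩ : h ∣ n - n₂ := (Nat.modEq_iff_dvd' hn2).1 hmod.symm
  have hnk : n = n₂ + h * k := by omega
  have hkn : k ≤ n := by
    have : k ≤ h * k := Nat.le_mul_of_pos_left k (by omega)
    omega
  have hidx2 : (h - 1) * n + n₂ = h * (n - k) := by
    obtain ⟨h', rfl⟩ := Nat.exists_eq_add_of_le hh
    obtain ⟨l, rfl⟩ := Nat.exists_eq_add_of_le hkn
    rw [Nat.add_sub_cancel_left, Nat.add_sub_cancel_left]
    have : n₂ = k + l - (1 + h') * k := by omega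
    have h5 : k + l = n₂ + (1 + h') * k := hnk
    nlinarith
  have hMn : ∀ b : ℤ, M n b = g 0 (b / p ^ n) / (lam * a ^ k) := by
    intro b
    simp only [hM]
    rw [hidx2, hpow]
    have h6 : a ^ n = a ^ (n - k) * a ^ k := by rw [← pow_add]; congr 1; omega
    rw [h6]
    field_simp
  have hsum2 : (∑ b ∈ Finset.range (p ^ n), ζ ^ b * comb α γ N (M n) b) =
      (∑ b ∈ Finset.range (p ^ n), ζ ^ b * comb α γ N (fun b => g 0 (b / p ^ n)) b) /
        (lam * a ^ k) := by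
    rw [Finset.sum_div]
    refine Finset.sum_congr rfl fun b _ => ?_
    rw [comb_div α γ N (M n) (fun b => g 0 (b / p ^ n)) _ hMn]
    ring
  rw [hsum2, map_div₀, map_mul, map_pow, hyp.va, one_pow, mul_one, div_pow] at hmain
  refine lt_of_lt_of_le hmain ?_
  rw [div_le_iff₀ (pow_pos hvlam0 E)]
  exact le_mul_of_one_le_right' (one_le_pow_of_one_le' hvlam E)

end

end Pool.Agent.MUXH


end

section

/-!
# MUX, block HX: module H2 (helper14)

Adapted from `Pool/Agent/MU3/H_H2.lean`.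
-/

set_option autoImplicit false

namespace Pool.Agent.MUXH

open _root_.MU3 _root_.Pool.Agent.MuSym OnePoint

noncomputable section

namespace H2

/-- The maximal ideal of `V`, as a submodule of `ℂ`. -/
def mI (V : ValuationSubring ℂ) : Submodule V ℂ where
  carrier := {x | V.valuation x < 1}
  add_mem' := by
    intro x y hx hy
    exact V.valuation.map_add_lt hx hy
  zero_mem' := by simp
  smul_mem' := by
    intro c x hx
    change V.valuation x < 1 at hx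
    show V.valuation (c • x) < 1
    have hc : V.valuation (c : ℂ) ≤ 1 := (V.valuation_le_one_iff _).2 c.2
    have : c • x = (c : ℂ) * x := rfl
    rw [this, map_mul]
    exact lt_of_le_of_lt (mul_le_of_le_one_left' hc) hx

lemma mem_mI (V : ValuationSubring ℂ) (x : ℂ) : x ∈ mI V ↔ V.valuation x < 1 := Iff.rfl

end H2

theorem tx_H2 (hKMX : Sx_KMX) (hH1 : Sx_H1) (hHK : Sx_HK) (hBD : Sx_BD) : Sx_H2 := by
  intro p V N₀ s₀ h a nu P s hyp
  by_contra hcon
  push Not at hcon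
  obtain ⟨k, hk⟩ := hBD p V N₀ s₀ h a nu P s hyp
  obtain ⟨ma, mb, mc, md, hdet, hc, hd, hval⟩ := hH1 p V N₀ s₀ h a nu P s hyp
  have hHKi := fun i => hHK p hyp.pp.one_lt.le _ nu (P i) (P (i + 1)) (hyp.sym i) hyp.nu1 (s : ℂ)
  have hvs : V.valuation (s : ℂ) ≤ 1 := by
    rcases hyp.s1 with h1 | h1
    · rw [h1]
      simp
    · rw [h1]
      simp
  have hamem : a ∈ V := (V.valuation_le_one_iff _).1 hyp.va.le
  have haunit : IsUnit (⟨a, hamem⟩ : V) := by
    rw [V.valuation_eq_one_iff]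
    exact hyp.va
  have key := hKMX p hyp.pp N₀ s₀ hyp.cop hyp.N0 V (ℂ ⧸ H2.mI V)
    (fun d => ⟨nu d, (V.valuation_le_one_iff _).1 (hyp.nuv d)⟩)
    (fun i x y => (H2.mI V).mkQ (sgnPart (s : ℂ) (P i) x y)) h hyp.h1
    ⟨a, hamem⟩ haunit (k + 1)
    (by
      intro i x y
      rw [← LinearMap.map_smul, Submodule.mkQ_apply, Submodule.Quotient.mk_eq_zero, H2.mem_mI]
      have h1 : ((((p : ℕ) : V) ^ (k + 1)) • (sgnPart (s : ℂ) (P i) x y) : ℂ) =
          p * (p ^ k * P i x y +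
            (s : ℂ) * (p ^ k * P i (mob (-1) 0 0 1 x) (mob (-1) 0 0 1 y))) := by
        have h2 : ((((p : ℕ) : V) ^ (k + 1)) • (sgnPart (s : ℂ) (P i) x y) : ℂ) =
          (p : ℂ) ^ (k + 1) * (sgnPart (s : ℂ) (P i) x y) := by
          show (((((p : ℕ) : V) ^ (k + 1) : V) : ℂ)) * _ = _
          push_cast
          rfl
        rw [h2]
        unfold sgnPart
        ring
      rw [h1, map_mul]
      refine lt_of_le_of_lt (mul_le_of_le_one_right' ?_) hyp.vp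
      apply V.valuation.map_add_le (hk i x y)
      rw [map_mul]
      exact mul_le_one' hvs (hk i _ _))
    (by
      apply Subtype.ext
      exact hyp.nu1)
    (by
      intro d d'
      apply Subtype.ext
      exact hyp.num d d')
    (by
      intro d d' h
      apply Subtype.ext
      exact hyp.nuper d d' h)
    (by
      intro i x y z
      rw [← map_add, (hHKi i).2.1.add])
    (by
      intro i a b c d h1 h2 x y
      rw [← LinearMap.map_smul]
      congr 1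
      show _ = nu d * (sgnPart (s : ℂ) (P i) x y)
      rw [(hHKi i).2.1.equiv a b c d h1 h2 x y])
    (by
      intro i x
      rw [← map_sum]
      congr 1
      exact ((hHKi i).2.2 hyp.nup (hyp.hec i) x).symm)
    (by
      intro x
      rw [← LinearMap.map_smul]
      congr 1
      show _ = a * (sgnPart (s : ℂ) (P 0) ∞ (x : OnePoint ℚ))
      unfold sgnPart
      rw [hyp.per, hyp.per]
      ring)
    (by
      intro n hn b hb
      rw [Submodule.mkQ_apply, Submodule.Quotient.mk_eq_zero, H2.mem_mI]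
      exact hcon n b hn hb)
    ma mb mc md hdet hc hd ∞
  rw [Submodule.mkQ_apply, Submodule.Quotient.mk_eq_zero, H2.mem_mI] at key
  exact absurd hval (not_le.2 key)

end

end Pool.Agent.MUXH


end

section

/-!
# MUX, block HX (helper27), module BD: the values of the symbols have bounded denominators
-/

set_option autoImplicit false

namespace Pool.Agent.MUXH

open _root_.MU3 _root_.Pool.Agent.MuSym OnePoint

noncomputable section

/-- BD. -/
theorem tx_BD (hMAX : Sx_MAX) (hALB : Sx_ALB) : Sx_BD := by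
  intro p V N₀ s₀ h a nu P s hyp
  obtain ⟨T, hT⟩ := hyp.fin
  obtain ⟨⟨l, ⟨x0, y0, rfl⟩, hmax⟩, -⟩ := hMAX V T {z | ∃ x y, P 0 x y = z} (by
      rintro _ ⟨x, y, rfl⟩
      exact hT x y) ⟨_, ∞, ∞, rfl⟩
  obtain ⟨k, hk⟩ := hALB p hyp.pp V hyp.vp _ (hyp.alg x0 y0)
  refine ⟨k, fun i => ?_⟩
  induction i with
  | zero =>
    intro x y
    refine le_trans ?_ hk
    rw [map_mul, map_mul]
    exact mul_le_mul_right (hmax _ ⟨x, y, rfl⟩) _
  | succ i ih =>
    intro x y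
    rw [← hyp.hec i x y]
    unfold hecke
    rw [hyp.nup, zero_mul, add_zero, Finset.mul_sum]
    refine (V.valuation_le_one_iff _).2 (sum_mem fun j _ => ?_)
    exact (V.valuation_le_one_iff _).1 (ih _ _)

end

end Pool.Agent.MUXH


end

section

/-!
# MUX, block H: `v` is discrete on a number field
-/

set_option autoImplicit false

namespace Pool.Agent.MUXH

open _root_.MU3 _root_.Pool.Agent.MuSym OnePoint

noncomputable section

namespace Dis

theorem int_le (V : ValuationSubring ℂ) (n : ℤ) : V.valuation (n : ℂ) ≤ 1 :=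
  (V.valuation_le_one_iff _).2 (intCast_mem V n)

theorem unit_of_not_dvd {p : ℕ} (hp : p.Prime) (V : ValuationSubring ℂ)
    (hv : V.valuation (p : ℂ) < 1) {m : ℤ} (hm : ¬ (p : ℤ) ∣ m) : V.valuation (m : ℂ) = 1 := by
  have hco : IsCoprime (p : ℤ) m :=
    ((Nat.prime_iff_prime_int.1 hp).irreducible.coprime_iff_not_dvd).2 hm
  obtain ⟨a, b, hab⟩ := hco
  have h1 : (a : ℂ) * p + (b : ℂ) * m = 1 := by exact_mod_cast hab
  refine le_antisymm (int_le V m) ?_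
  by_contra hlt
  have hlt' : V.valuation (m : ℂ) < 1 := not_le.1 hlt
  have h2 : V.valuation ((a : ℂ) * p) < 1 := by
    rw [map_mul]
    calc V.valuation (a : ℂ) * V.valuation (p : ℂ) ≤ 1 * V.valuation (p : ℂ) := by
          gcongr
          exact int_le V a
      _ < 1 := by rwa [one_mul]
  have h4 : V.valuation ((b : ℂ) * m) < 1 := by
    rw [map_mul]
    calc V.valuation (b : ℂ) * V.valuation (m : ℂ) ≤ 1 * V.valuation (m : ℂ) := by
          gcongr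
          exact int_le V b
      _ < 1 := by rwa [one_mul]
  have h5 := V.valuation.map_add_lt h2 h4
  rw [h1, map_one] at h5
  exact lt_irrefl _ h5

/-- rational numbers -/
theorem rat_le {p : ℕ} (hp : p.Prime) (V : ValuationSubring ℂ)
    (hv : V.valuation (p : ℂ) < 1) (q : ℚ) (h : V.valuation (q : ℂ) < 1) :
    V.valuation (q : ℂ) ≤ V.valuation (p : ℂ) := by
  have hq : (q : ℂ) * (q.den : ℂ) = (q.num : ℂ) := by
    have h1 : q * q.den = q.num := Rat.mul_den_eq_num q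
    exact_mod_cast h1
  have hd1 : V.valuation (q.den : ℂ) ≤ 1 := by
    have := int_le V (q.den : ℤ)
    rwa [Int.cast_natCast] at this
  have hn1 : V.valuation (q.num : ℂ) < 1 := by
    rw [← hq, map_mul]
    calc V.valuation (q : ℂ) * V.valuation (q.den : ℂ) ≤ V.valuation (q : ℂ) * 1 := by gcongr
      _ < 1 := by rwa [mul_one]
  have hdvd : (p : ℤ) ∣ q.num := by
    by_contra hcon
    rw [unit_of_not_dvd hp V hv hcon] at hn1
    exact lt_irrefl _ hn1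
  have hden : ¬ (p : ℤ) ∣ (q.den : ℤ) := by
    intro hcon
    have hcop := q.reduced
    have h2 : p ∣ q.num.natAbs := by
      rw [← Int.natCast_dvd_natCast, Int.dvd_natAbs]
      exact hdvd
    have h3 : p ∣ q.den := by exact_mod_cast hcon
    have h4 := Nat.dvd_gcd h2 h3
    rw [Nat.Coprime] at hcop
    rw [hcop] at h4
    exact hp.one_lt.ne' (Nat.dvd_one.1 h4)
  have hd : V.valuation (q.den : ℂ) = 1 := by
    have := unit_of_not_dvd hp V hv hden
    rwa [Int.cast_natCast] at this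
  obtain ⟨c, hc⟩ := hdvd
  have h5 : V.valuation (q : ℂ) = V.valuation (q.num : ℂ) := by
    rw [← hq, map_mul, hd, mul_one]
  rw [h5, hc]
  push_cast
  rw [map_mul]
  calc V.valuation (p : ℂ) * V.valuation (c : ℂ) ≤ V.valuation (p : ℂ) * 1 := by
        gcongr
        exact int_le V c
    _ = _ := mul_one _

/-- two terms of a vanishing sum have the same valuation -/
theorem two_terms (V : ValuationSubring ℂ) {n : ℕ} (t : Fin n → ℂ) (h0 : ∑ i, t i = 0)
    (hne : ∃ i, t i ≠ 0) : ∃ i j : Fin n, i < j ∧ t i ≠ 0 ∧ t j ≠ 0 ∧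
      V.valuation (t i) = V.valuation (t j) := by
  obtain ⟨k, hk⟩ := hne
  obtain ⟨i, -, hi⟩ := Finset.exists_max_image Finset.univ (fun i => V.valuation (t i))
    ⟨k, Finset.mem_univ k⟩
  have hti : t i ≠ 0 := by
    intro h
    have h1 := hi k (Finset.mem_univ k)
    simp only [h, map_zero] at h1
    exact hk ((map_eq_zero _).1 (le_antisymm h1 zero_le))
  have hex : ∃ j, j ≠ i ∧ V.valuation (t i) = V.valuation (t j) := by
    by_contra hcon
    have hlt : ∀ j ∈ Finset.univ.erase i, V.valuation (t j) < V.valuation (t i) := by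
      intro j hj
      have hji := (Finset.mem_erase.1 hj).1
      refine lt_of_le_of_ne (hi j (Finset.mem_univ j)) (fun h => hcon ⟨j, hji, h.symm⟩)
    have h2 := V.valuation.map_sum_lt ((V.valuation.ne_zero_iff).2 hti) hlt
    have h3 : t i + ∑ j ∈ Finset.univ.erase i, t j = 0 := by
      rw [Finset.add_sum_erase _ _ (Finset.mem_univ i), h0]
    have h4 : ∑ j ∈ Finset.univ.erase i, t j = -t i := by
      rw [← add_eq_zero_iff_eq_neg, add_comm]
      exact h3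
    rw [h4, Valuation.map_neg] at h2
    exact lt_irrefl _ h2
  obtain ⟨j, hji, hj⟩ := hex
  have htj : t j ≠ 0 := by
    intro h
    rw [h, map_zero] at hj
    exact hti ((map_eq_zero _).1 hj)
  rcases lt_or_gt_of_ne hji with h | h
  · exact ⟨j, i, h, htj, hti, hj.symm⟩
  · exact ⟨i, j, h, hti, htj, hj⟩

end Dis

open _root_.Pool.Agent.MUXH.Dis in
/-- `v` is discrete on a number field. -/
theorem tx_DIS : Sx_DIS := by
  intro p hp V hv K hK
  refine ⟨Module.finrank ℚ K, ?_⟩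
  set d := Module.finrank ℚ K with hd
  have hd1 : 0 < d := Module.finrank_pos
  intro x hx hvx
  by_cases hx0 : x = 0
  · rw [hx0, map_zero, zero_pow hd1.ne']
    exact zero_le
  have hdep : ¬ LinearIndependent ℚ (fun i : Fin (d + 1) => (⟨x, hx⟩ : K) ^ (i : ℕ)) := by
    intro h
    have h1 := h.fintype_card_le_finrank
    rw [Fintype.card_fin] at h1
    omega
  obtain ⟨c, hc, i₀, hi₀⟩ := Fintype.not_linearIndependent_iff.1 hdep
  have hc' : ∑ i : Fin (d + 1), (c i : ℂ) * x ^ (i : ℕ) = 0 := by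
    have h1 := congrArg (algebraMap K ℂ) hc
    rw [map_sum, map_zero] at h1
    rw [← h1]
    refine Finset.sum_congr rfl (fun i _ => ?_)
    rw [Algebra.smul_def, map_mul, map_pow]
    congr 1
  obtain ⟨i, j, hij, hi, hj, hvv⟩ := two_terms V (fun i : Fin (d + 1) => (c i : ℂ) * x ^ (i : ℕ)) hc'
    ⟨i₀, mul_ne_zero (by exact_mod_cast hi₀) (pow_ne_zero _ hx0)⟩
  have hci : (c i : ℂ) ≠ 0 := left_ne_zero_of_mul hi
  have hcj : (c j : ℂ) ≠ 0 := left_ne_zero_of_mul hj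
  have hij' : (i : ℕ) < j := hij
  have hjd : (j : ℕ) ≤ d := Nat.lt_succ_iff.1 j.2
  have hvx0 : V.valuation x ≠ 0 := (V.valuation.ne_zero_iff).2 hx0
  have hvcj : V.valuation (c j : ℂ) ≠ 0 := (V.valuation.ne_zero_iff).2 hcj
  have e1 : V.valuation x ^ ((j : ℕ) - i) = V.valuation (((c i / c j : ℚ)) : ℂ) := by
    have e2 : V.valuation x ^ (j : ℕ) = V.valuation x ^ ((j : ℕ) - i) * V.valuation x ^ (i : ℕ) := by
      rw [← pow_add, Nat.sub_add_cancel hij'.le]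
    simp only [map_mul, map_pow] at hvv
    rw [e2, ← mul_assoc] at hvv
    have e3 := mul_right_cancel₀ (pow_ne_zero _ hvx0) hvv
    push_cast
    rw [map_div₀, e3, mul_div_cancel_left₀ _ hvcj]
  have h1 : V.valuation x ^ ((j : ℕ) - i) < 1 := pow_lt_one₀ zero_le hvx (by omega)
  have h2 := rat_le hp V hv (c i / c j) (by rw [← e1]; exact h1)
  rw [← e1] at h2
  refine le_trans ?_ h2
  exact pow_le_pow_right_of_le_one' hvx.le (by omega)

end

end Pool.Agent.MUXH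


end

section

/-!
# MUX, block HX: module MD, the distribution attached to a cycle of functions under `U_p`
-/

set_option autoImplicit false

namespace Pool.Agent.MUXH

open _root_.MU3 _root_.Pool.Agent.MuSym OnePoint

namespace Md

lemma sum_range_mul' (f : ℕ → ℂ) (p q : ℕ) :
    ∑ k ∈ Finset.range (q * p), f k =
      ∑ b ∈ Finset.range q, ∑ j ∈ Finset.range p, f (b * p + j) := by
  induction q with
  | zero => simp
  | succ q ih =>
    rw [Nat.succ_mul, Finset.sum_range_add, ih, Finset.sum_range_succ]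

lemma step (p : ℕ) (hp : 1 ≤ p) (n : ℕ) (b : ℤ) (j : ℕ) :
    ((b : ℚ) / p ^ n + (j : ℚ)) / p = ((b + (j : ℤ) * p ^ n : ℤ) : ℚ) / p ^ (n + 1) := by
  have h1 : (p : ℚ) ≠ 0 := by
    have : p ≠ 0 := by omega
    exact_mod_cast this
  push_cast
  rw [pow_succ]
  field_simp

end Md

theorem tx_MD : Sx_MD := by
  intro p hp g a c h r hh ha hper hsum hg
  have hp0 : (p : ℚ) ≠ 0 := by
    have : p ≠ 0 := by omega
    exact_mod_cast this
  have h1 : ∀ (i : ℕ) (x : ℚ), g (i + h) x = a * g i x := by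
    intro i
    induction i with
    | zero => intro x; rw [zero_add]; exact hg x
    | succ i ih =>
      intro x
      rw [show i + 1 + h = (i + h) + 1 by ring, ← hsum (i + h) x, ← hsum i x, Finset.mul_sum]
      exact Finset.sum_congr rfl fun j _ => ih _
  refine ⟨h1, ⟨?_, ?_⟩, ?_⟩
  · intro n b b' hb
    obtain ⟨k, hk⟩ := hb
    have h3 : (p : ℚ) ^ n ≠ 0 := pow_ne_zero _ hp0
    have h2 : (b : ℚ) / p ^ n = (b' : ℚ) / p ^ n + k := by
      have h4 : b = b' + p ^ n * k := by linarith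
      rw [h4]
      push_cast
      field_simp
    show g ((h - 1) * n + r) ((b : ℚ) / p ^ n) / (c * a ^ n) =
      g ((h - 1) * n + r) ((b' : ℚ) / p ^ n) / (c * a ^ n)
    rw [h2, hper]
  · intro n b
    show g ((h - 1) * n + r) ((b : ℚ) / p ^ n) / (c * a ^ n) =
      ∑ j ∈ Finset.range p, g ((h - 1) * (n + 1) + r)
        (((b + (j : ℤ) * p ^ n : ℤ) : ℚ) / p ^ (n + 1)) / (c * a ^ (n + 1))
    have h2 : ∀ j ∈ Finset.range p, g ((h - 1) * (n + 1) + r)
        (((b + (j : ℤ) * p ^ n : ℤ) : ℚ) / p ^ (n + 1)) =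
        g ((h - 1) * (n + 1) + r) (((b : ℚ) / p ^ n + (j : ℚ)) / p) := by
      intro j _
      rw [Md.step p hp]
    have h3 : (h - 1) * (n + 1) + r + 1 = ((h - 1) * n + r) + h := by
      obtain ⟨h', rfl⟩ : ∃ h', h = h' + 1 := ⟨h - 1, by omega⟩
      simp only [Nat.add_sub_cancel]
      ring
    rw [← Finset.sum_div, Finset.sum_congr rfl h2, hsum, h3, h1, pow_succ]
    rcases eq_or_ne c 0 with hc | hc
    · subst hc
      simp
    · field_simp
  · intro i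
    induction i with
    | zero =>
      intro n b
      simp
    | succ i ih =>
      intro n b
      rw [← hsum i ((b : ℚ) / p ^ n)]
      have h2 : ∀ j ∈ Finset.range p, g i (((b : ℚ) / p ^ n + (j : ℚ)) / p) =
          ∑ b' ∈ Finset.range (p ^ i),
            g 0 (((b + ((b' * p + j : ℕ) : ℤ) * p ^ n : ℤ) : ℚ) / p ^ (n + (i + 1))) := by
        intro j _
        rw [Md.step p hp, ih (n + 1)]
        refine Finset.sum_congr rfl fun b' _ => ?_
        congr 1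
        rw [show n + 1 + i = n + (i + 1) by ring]
        congr 1
        push_cast
        ring
      rw [Finset.sum_congr rfl h2, Finset.sum_comm]
      have h3 := Md.sum_range_mul' (fun k => g 0 (((b + ((k : ℕ) : ℤ) * p ^ n : ℤ) : ℚ) /
        p ^ (n + (i + 1)))) p (p ^ i)
      rw [← pow_succ] at h3
      exact h3.symm

end Pool.Agent.MUXH


end
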