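import Mathlib
import Pool.Agent.MVF.C006
import Pool.Agent.MVF.C024
import Pool.Agent.MVF.C038

/-! Parts: MU3.StFT, MUX.StXT, MUX.XT_BAS, MUX.XT_FTI, MUX.XT_TRI, MUX.XT_SYM, MUX.XT_CUS, MUX.XT_VLN, MUX.XT_WBD, MUX.XT_CLS, MUX.XT_REG, MUX.XT_QFF, MU3.T_MCO, MUX.StHX2, MUX.HY_BRG, MUX.E_CTX -/

namespace Pool.Agent.MU3T
end Pool.Agent.MU3T
namespace Pool.Agent.MUXE.CtxX
end Pool.Agent.MUXE.CtxX
namespace Pool.Agent.MUXHY.Brg
end Pool.Agent.MUXHY.Brg
namespace Pool.Agent.MUXT.BasX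
end Pool.Agent.MUXT.BasX
namespace Pool.Agent.MUXT.QFF
end Pool.Agent.MUXT.QFF
namespace Pool.Agent.MUXT.SymX
end Pool.Agent.MUXT.SymX
namespace Pool.Agent.MUXT.TRI
end Pool.Agent.MUXT.TRI
namespace Pool.Agent.MUXT.X_CUS
end Pool.Agent.MUXT.X_CUS

section

/-!
# MU3, block FT (helper40): the transformation behaviour of theta and of its primitive

Every statement is a `def Su_X : Prop`. A module proves `theorem tu_X (h : Su_Y) ... : Su_X`, where
the hypotheses are the statements named under USES in the doc string. PAPER.md, section 6 (FT).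

`N0 = |D| G²`, `g ∣ G`, `|D| = absD A B`. The ring `O` has `δ = 2 w - B`, `δ² = -|D|`, `star δ = -δ`,
`nm δ = |D|`. `ex r = exp(2 π i r)` (`r` rational), `Sf_ALG`, `Sf_BDD`, `Sf_SM`, `Sf_DCM`, `Sf_TSM`, `Sf_ITG` :
`StFH.lean`, proved in `F_ALG.lean`, `F_BDD.lean`, `F_SM.lean`, `F_DCM.lean`, `F_TSM.lean`, `F_ITG.lean`.
Facts on `nm`, `emb` : `G_G0.lean`, `G_G2.lean`, `G_G7.lean`.
All formulas were checked numerically.
-/

set_option autoImplicit false

namespace Pool.Agent.MU3T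

open _root_.MU3 _root_.Pool.Agent.MU3F _root_.Pool.Agent.MuSym OnePoint Filter Topology
open scoped ComplexConjugate

noncomputable section

/-- the terms of `F_W(z) = Σ W(y) conj(emb y) exp(2 π i nm y z)` -/
def tm {A B : ℤ} (W : OO A B → ℂ) (z : ℂ) (y : OO A B) : ℂ :=
  W y * conj (emb y) * Complex.exp (2 * Real.pi * Complex.I * (nm y : ℂ) * z)

/-- the terms of the primitive `Σ W(y) conj(emb y) / nm y exp(2 π i nm y z)`; the term `y = 0` is 0 -/
def tI {A B : ℤ} (W : OO A B → ℂ) (z : ℂ) (y : OO A B) : ℂ :=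
  W y * conj (emb y) / (nm y : ℂ) * Complex.exp (2 * Real.pi * Complex.I * (nm y : ℂ) * z)

/-- a bounded function -/
def Bd {A B : ℤ} (W : OO A B → ℂ) : Prop := ∃ C : ℝ, ∀ x, ‖W x‖ ≤ C

/-- `W_(b/q)(y) = Σ_(x mod qG) e(x) exp(2 π i b nm x / q) exp(2 π i (x star y).im / (q G))` -/
def WW {A B : ℤ} (e : OO A B → ℂ) (G q : ℕ) (b : ℤ) (y : OO A B) : ℂ :=
  sumMod ((q * G : ℕ) : OO A B)
    (fun x => e x * ex (b * nm x / q) * ex ((x * star y).im / (q * G)))

/-- the Gauss sum `Σ_(x mod d) exp(2 π i b nm x / d)` -/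
def gg (A B : ℤ) (d : ℕ) (b : ℤ) : ℂ :=
  sumMod ((d : ℕ) : OO A B) (fun x => ex (b * nm x / d))

/-! ## Series in the upper half plane -/

/-- (DIF) summability and derivatives.

USES nothing (import `F_TSM.lean`, `tf_TSM`). PROOF. First part: `tf_TSM` for `W`; for `tI` compare: `‖tI W z y‖ ≤
‖tm W z y‖` as `nm y ≥ 1` for `y ≠ 0` and both are 0 for `y = 0`. Derivatives: `hasDerivAt_tsum_of_isPreconnected` (or
`hasDerivAt_tsum`-like lemmas, `differentiableOn_tsum_of_summable_norm`) on the half plane `{z : r < im z}`, `r = im z₀/2`,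
with the bound `‖tm W z y‖ ≤ C ‖emb y‖ exp(-2 π nm y r)`, which is `‖tm C (r i) y‖`, summable by `tf_TSM`. The derivative of
`z ↦ tI W z y` is `2 π i tm W z y` (also for `y = 0`). For `tm` itself the derivative of a term is
`2 π i nm y tm W z y`, bounded by `2 π nm y ‖..‖ ≤ K ‖tm C ((r/2) i) y‖` (`x exp(-π x r) ≤ 1/(π r)`), or use
`differentiableOn_tsum_of_summable_norm`, which needs only the bound of the terms. -/
def Su_DIF : Prop :=
  ∀ (A B : ℤ), Case A B → ∀ W : OO A B → ℂ, Bd W →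
    (∀ z : ℂ, 0 < z.im → Summable (tm W z) ∧ Summable (tI W z)) ∧
    (∀ z : ℂ, 0 < z.im → DifferentiableAt ℂ (fun z => ∑' y, tm W z y) z) ∧
    ∀ z : ℂ, 0 < z.im →
      HasDerivAt (fun z => ∑' y, tI W z y) (2 * Real.pi * Complex.I * ∑' y, tm W z y) z

/-- (VAN) the primitive tends to 0 at `i oo`.

USES DIF. PROOF. For `im z ≥ 1`: `‖tI W z y‖ ≤ exp(-2 π (im z - 1)) ‖tI W i y‖` (`nm y ≥ 1` for `y ≠ 0`; both are
0 for `y = 0`), so the norm of the sum is at most `exp(-2 π (im z - 1)) Σ ‖tI W i y‖`. -/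
def Su_VAN : Prop :=
  ∀ (A B : ℤ), Case A B → ∀ W : OO A B → ℂ, Bd W → ∀ ε : ℝ, 0 < ε →
    ∃ R : ℝ, 0 < R ∧ ∀ z : ℂ, R ≤ z.im → ‖∑' y, tI W z y‖ < ε

/-- (REG) regrouping as a power series in `exp(2 π i τ/N)`.

USES DIF. PROOF. `N = M k`. Let `f y = k nm y - 1` (natural numbers, truncated), `w n = Σ'_(y : f y = n) W y conj(emb y)/nm y`.
For `y ≠ 0` `exp(2 π i nm y τ/M) = exp(2 π i τ/N)^(k nm y)`, `k nm y = f y + 1`; for `y = 0` the term is 0. The sum over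
`O` (summable by DIF at `τ/M`) is the sum over `n` of the sums over the fibres of `f`:
`(Equiv.sigmaFiberEquiv f).hasSum_iff` and `HasSum.sigma`, or `HasSum.tsum_fiberwise`; pull the power out of the inner sum
with `tsum_mul_right`. -/
def Su_REG : Prop :=
  ∀ (A B : ℤ), Case A B → ∀ W : OO A B → ℂ, Bd W → ∀ M N : ℕ, N ≠ 0 → M ∣ N →
    ∃ w : ℕ → ℂ, ∀ τ : ℂ, 0 < τ.im →
      HasSum (fun n : ℕ => w n * Complex.exp (2 * Real.pi * Complex.I * τ / N) ^ (n + 1))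
        (∑' y, tI W (τ / M) y)

/-! ## Poisson summation -/

/-- (PO0) Poisson summation on the imaginary axis.

USES nothing (import `BAll.lean`, `b_POD`, and `A_LAT0.lean` for `Sa_LAT0`, `IsLat`). PROOF. `L` the lattice `emb O` (`Sa_LAT0` with
`Om = 1`), `a = area L = sqrt |D|/2` (if the periods are not known explicitly: `area` of a lattice is the absolute value
of the determinant of a basis; the two bases `(ω₁, ω₂)` and `(1, w)` differ by an integral matrix of determinant `±1`).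
`St_POD` at `z = emb x0/m` and `t' = 1/(2 m² a t)`: the left side is `1/m Σ conj(emb(x0 + m w)) exp(-2 π nm(x0 + m w) t)`, the
right side `-t'² Σ conj(emb y) pr L y z exp(-2 π nm y/(m² |D| t))` as `a² = |D|/4`; `t'² = 1/(m⁴ |D| t²)`. And
`pr L y z = exp((π/a) 2 i Im(conj(emb y) z)) = ex((x0 star y).im/m)` as `Im(emb x) = x.im a`. -/
def Su_PO0 : Prop :=
  ∀ (A B : ℤ), Case A B → ∀ m : ℕ, 0 < m → ∀ (x0 : OO A B) (t : ℝ), 0 < t →
    ∑' w : OO A B, conj (emb (x0 + (m : OO A B) * w)) *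
      (Real.exp (-(2 * Real.pi * (nm (x0 + (m : OO A B) * w) : ℝ) * t)) : ℝ) =
    -(1 / ((m : ℂ) ^ 3 * (absD A B : ℂ) * (t : ℂ) ^ 2)) *
      ∑' y : OO A B, ex ((x0 * star y).im / m) * conj (emb y) *
        (Real.exp (-(2 * Real.pi * (nm y : ℝ) / ((m : ℝ) ^ 2 * (absD A B : ℝ) * t))) : ℝ)

/-- (POI) Poisson summation in the upper half plane.

USES DIF, PO0. PROOF. Both sides are holomorphic in the upper half plane: the left side is
`Σ_x tm W z x` with `W = ` the indicator function of `x0 + m O` (the map `w ↦ x0 + m w` is injective, so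
`Function.Injective.tsum_eq`), the right side is a composition with `z ↦ -1/(m² |D| z)` (which maps the upper half plane to
itself). They agree for `z = i t` (PO0), so everywhere: `AnalyticOnNhd.eqOn_of_preconnected_of_frequently_eq` at `i`
(the half plane is convex; `DifferentiableOn.analyticOnNhd`). -/
def Su_POI : Prop :=
  ∀ (A B : ℤ), Case A B → ∀ m : ℕ, 0 < m → ∀ (x0 : OO A B) (z : ℂ), 0 < z.im →
    ∑' w : OO A B, conj (emb (x0 + (m : OO A B) * w)) *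
      Complex.exp (2 * Real.pi * Complex.I * (nm (x0 + (m : OO A B) * w) : ℂ) * z) =
    1 / ((m : ℂ) ^ 3 * (absD A B : ℂ) * z ^ 2) *
      ∑' y : OO A B, tm (fun y => ex ((x0 * star y).im / m))
        (-1 / ((m : ℂ) ^ 2 * (absD A B : ℂ) * z)) y

/-- (WBD) `W_(b/q)` is bounded.

USES ALG, BDD. PROOF. A finite sum (the quotient is finite by ALG; `finsum_eq_sum_of_fintype`), each term has norm at
most `C` (BDD; `ex` has norm 1). -/
def Su_WBD : Prop :=
  ∀ (A B : ℤ), Case A B → ∀ (g : OO A B) (e : OO A B → ℂ), g ≠ 0 → IsEps g e →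
    ∀ G q : ℕ, 0 < G → 0 < q → ∀ b : ℤ, Bd (WW e G q b)

/-- (RED) theta near the cusp `b/q`.

USES ALG, BDD, DCM, TSM, SM, DIF, POI. PROOF. `m = q G`. `theta e (b/q + z) = 1/2 Σ_x e x conj(emb x) ex(b nm x/q) exp(2 π i nm x z)`.
By DCM modulo `m` it is `1/2 Σ_(x mod m) Σ_w ..(x + m w)`; `e(x + m w) = e x` (`g ∣ G ∣ m`),
`ex(b nm(x + m w)/q) = ex(b nm x/q)` (`q ∣ m`, `nm(x + m w) = nm x + m (integer)`, compare coordinates). So it is
`1/2 sumMod m (x ↦ e x ex(b nm x/q) S(x))`, `S(x)` the left side of POI, and by POI `S(x) = c Σ_y tm (y ↦ ex((x star y).im/m)) ζ y`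
with `c = 1/(m³ |D| z²)`, `ζ = -1/(m² |D| z)`. Exchange the finite sum over `x` with the sum over `y` (each is summable,
DIF; `Summable.tsum_finsetSum`). -/
def Su_RED : Prop :=
  ∀ (A B : ℤ), Case A B → ∀ (g : OO A B) (e : OO A B → ℂ), g ≠ 0 → IsEps g e →
    ∀ G q : ℕ, 0 < G → 0 < q → g ∣ (G : OO A B) → ∀ (b : ℤ) (z : ℂ), 0 < z.im →
    theta e (((b / q : ℚ) : ℂ) + z) =
      1 / (2 * ((q : ℂ) * G) ^ 3 * (absD A B : ℂ) * z ^ 2) *
        ∑' y : OO A B, tm (WW e G q b) (-1 / (((q : ℂ) * G) ^ 2 * (absD A B : ℂ) * z)) y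

/-! ## Gauss sums -/

/-- (WID) the Gauss sum `W_(b/d)(y)` for `c = N0 c'`.

USES ALG, SM. PROOF. `d` is prime to `G` and `|D|` by the determinant. Chinese remainder theorem: `(x', x'') ↦ d x' + G x''` is a
bijection `O/G × O/d → O/(dG)`. `e(d x' + G x'') = e(d) e(x')`, `ex(b nm(d x' + G x'')/d) = ex(b G² nm x''/d)`,
`((d x' + G x'') star y).im/(d G) = (x' star y).im/G + (x'' star y).im/d`. So
`W = e(d) W_(0/1)(y) Σ_(x mod d) ex((b G² nm x + (x star y).im)/d)`. Completing the square: let `v = c' δ y`, `δ = 2 w - B`.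
`nm(x - v) = nm x - c' |D| (x star y).im + c'² |D| nm y` (an identity of polynomials in the coordinates: for `u ∈ O`
`u star δ + star u δ = |D| u.im`), so, multiplying by `b G²` and as `b N0 c' ≡ -1` modulo `d`:
`b G² nm(x - v) + c' nm y ≡ b G² nm x + (x star y).im` modulo `d`. Then shift `x` by `v`
(a permutation of `O/d`; the function is periodic modulo `d`). -/
def Su_WID : Prop :=
  ∀ (A B : ℤ), Case A B → ∀ (g : OO A B) (e : OO A B → ℂ), g ≠ 0 → IsEps g e →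
    ∀ G d : ℕ, 0 < G → 0 < d → g ∣ (G : OO A B) → ∀ a b c' : ℤ,
    a * d - b * (absD A B * G ^ 2 * c') = 1 → ∀ y : OO A B,
    WW e G d b y = e ((d : ℕ) : OO A B) * ex (c' * nm y / d) * gg A B d (b * G ^ 2) * WW e G 1 0 y

/-- (GAU) the Gauss sum of the norm form modulo a prime.

USES ALG. PROOF. `O/p` has the representatives `i + j w`, `0 ≤ i, j < p`. With `X = 2 i + B j`, `Y = j`:
`4 nm = X² + |D| Y²`, and `(i, j) ↦ (X, Y)` is a bijection of `ZMod p × ZMod p` (`p` odd). So with a primitive additive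
character `ψ` of `ZMod p`, `ψ(t) = ex(t/p)` (`ZMod.stdAddChar`), and `b' = b/4`:
`gg = Σ_X ψ(b' X²) Σ_Y ψ(b' |D| Y²)`. `Σ_X ψ(a X²) = Σ_t (1 + χ t) ψ(a t) = χ(a) gaussSum χ ψ` for `a ≠ 0`, `χ` the quadratic
character (`quadraticChar_card_sqrts`, `gaussSum_mulShift`), and `gaussSum_sq : gaussSum χ ψ² = χ(-1) p`. So
`gg = χ(b')² χ(|D|) χ(-1) p = χ(-|D|) p`. (Or count the solutions of `X² + |D| Y² = n`.) -/
def Su_GAU : Prop :=
  ∀ (A B : ℤ), Case A B → ∀ (p : ℕ) [Fact p.Prime], ¬ (p : ℤ) ∣ 2 * absD A B → ∀ b : ℤ,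
    ¬ (p : ℤ) ∣ b → gg A B p b = (legendreSym p (-absD A B) : ℂ) * p

/-- (REC) quadratic reciprocity for `-2` and `-11`.

USES nothing. PROOF. `(A, B) = (-2, 0)`: `-8 = 2² (-2)`, `legendreSym.at_neg_two` (`χ₈'`, `decide` on the classes modulo
8). `(A, B) = (-3, 1)`: `(-11/p) = (-1/p) (11/p) = (p/11)` by `legendreSym.quadratic_reciprocity'`-like lemmas
(`11 ≡ 3` modulo 4; `legendreSym.at_neg_one`), and `(p/11)` by the classes modulo 11 (`decide`: the squares are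
1, 3, 4, 5, 9). -/
def Su_REC : Prop :=
  ∀ (A B : ℤ), Case A B → ∀ (p : ℕ) [Fact p.Prime], ¬ (p : ℤ) ∣ 2 * absD A B →
    legendreSym p (-absD A B) = chiD A B p

/-- (CHI) the function `chiD` and the nebentypus. PROOF. `absD = 8` or `11`; unfold `chiD`. `e (-1) = -1`, `e 1 = 1`.
Last: `chiD d = chiD d'` (multiple of `|D|`) and `e d = e d'` (`g ∣ G ∣ d - d'`). -/
def Su_CHI : Prop :=
  ∀ (A B : ℤ), Case A B → ∀ (g : OO A B) (e : OO A B → ℂ), IsEps g e →
    nuE e 1 = 1 ∧ nuE e (-1) = 1 ∧ ∀ G : ℕ, g ∣ (G : OO A B) → ∀ d d' : ℤ,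
      absD A B * G ^ 2 ∣ d - d' → nuE e d = nuE e d'

/-! ## Modularity -/

/-- (MBF) facts on fractional linear maps. USES nothing. PROOF. `im((a z + b)/(c z + d)) = im z/|c z + d|²`. (Mathlib has these
for `UpperHalfPlane`; a direct proof is as short.) -/
def Su_MBF : Prop :=
  ∀ a b c d : ℤ, a * d - b * c = 1 → ∀ z : ℂ, 0 < z.im →
    (c : ℂ) * z + d ≠ 0 ∧ 0 < (((a : ℂ) * z + b) / ((c : ℂ) * z + d)).im ∧
    HasDerivAt (fun z : ℂ => ((a : ℂ) * z + b) / ((c : ℂ) * z + d)) (1 / ((c : ℂ) * z + d) ^ 2) z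

/-- (MOP) modularity for matrices in `Gamma_0(N0)` with prime entry `d`.

USES RED, WID, GAU, REC, MBF. PROOF. `c = N0 c'`, `z' = -1/z`. `γ z = b/p + ζ`, `ζ = -1/(p (p z' - c))`
(`p z' - c = -(c z + p)/z`, so `ζ = z/(p (c z + p))`, `im ζ > 0`). RED with `q = p`: `theta(γ z) = 1/(2 p³ G³ |D| ζ²) Σ_y tm (WW e G p b) η y`,
`η = -1/(p² N0 ζ) = (p z' - c)/(p N0) = z'/N0 - c'/p`, and `tm W (z'/N0 - c'/p) y = ex(-c' nm y/p) tm W (z'/N0) y`. By WID the
factor `ex(c' nm y/p)` cancels: the sum is `e(p) gg(b G²) Σ_y tm (WW e G 1 0) (z'/N0) y`. `gg(b G²) = chiD(p) p` by GAU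
and REC (`p` does not divide `b` nor `G` by the determinant). RED with `q = 1`, `b = 0`:
`theta(z) = 1/(2 G³ |D| z²) Σ_y tm (WW e G 1 0) (-1/(N0 z)) y`. Compare: `z²/(p³ ζ²) p = (c z + p)²`. -/
def Su_MOP : Prop :=
  ∀ (A B : ℤ), Case A B → ∀ (g : OO A B) (e : OO A B → ℂ), g ≠ 0 → IsEps g e →
    ∀ G : ℕ, 0 < G → g ∣ (G : OO A B) → ∀ (a b c : ℤ) (p : ℕ), p.Prime → ¬ (p : ℤ) ∣ 2 * absD A B →
    a * p - b * c = 1 → absD A B * G ^ 2 ∣ c → ∀ z : ℂ, 0 < z.im →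
    theta e (((a : ℂ) * z + b) / ((c : ℂ) * z + p)) = ((c : ℂ) * z + p) ^ 2 * nuE e p * theta e z

/-- (MOD) modularity for `Gamma_0(N0)`.

USES MOP, CHI, MBF (and `Sf_PRD`, `F_PRD.lean`: `theta e (z + 1) = theta e z`). PROOF. `c = 0`: `a = d = ±1`, `γ z = z ± b`, period 1,
`nuE(±1) = 1`. `c ≠ 0`: `d` is prime to `c`, so there is a prime `p > 2 |D|` with `p ≡ d` modulo `|c|`
(`Nat.forall_exists_prime_gt_and_eq_mod`), `p = d + k c`. Apply MOP to `(a, b + k a, c, p)` and the point `z - k`: `γ' (z - k) = γ z`,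
`c (z - k) + p = c z + d`; `theta e (z - k) = theta e z`, `nuE p = nuE d` (CHI). -/
def Su_MOD : Prop :=
  ∀ (A B : ℤ), Case A B → ∀ (g : OO A B) (e : OO A B → ℂ), g ≠ 0 → IsEps g e →
    ∀ G : ℕ, 0 < G → g ∣ (G : OO A B) → ∀ a b c d : ℤ, a * d - b * c = 1 →
    absD A B * G ^ 2 ∣ c → ∀ z : ℂ, 0 < z.im →
    theta e (((a : ℂ) * z + b) / ((c : ℂ) * z + d)) = ((c : ℂ) * z + d) ^ 2 * nuE e d * theta e z

/-- (EXP) expansion of theta at all cusps.

USES ALG, BDD, RED, WBD, MBF (and `Sf_PRD`). PROOF. `c = 0`: `a = d = ±1`, `γ z = z ± b`, `theta(γ z) = theta z`; `M = 1`,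
`W = e/2`. `c > 0`: `γ z = a/c + ζ`, `ζ = -1/(c (c z + d))`, `im ζ > 0`. RED with `q = c`, `b = a`: `ζ⁻² = c² (c z + d)²`,
`-1/(c² N0 ζ) = (c z + d)/(c N0) = z/N0 + d/(c N0)`. `M = N0`, `W y = WW e G c a y exp(2 π i nm y d/(c N0)) /(2 c G³ |D|)`.
`c < 0`: the case `(-a, -b, -c, -d)`. -/
def Su_EXP : Prop :=
  ∀ (A B : ℤ), Case A B → ∀ (g : OO A B) (e : OO A B → ℂ), g ≠ 0 → IsEps g e →
    ∀ G : ℕ, 0 < G → g ∣ (G : OO A B) → ∀ a b c d : ℤ, a * d - b * c = 1 →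
    ∃ (M : ℕ) (W : OO A B → ℂ), 0 < M ∧ (M : ℤ) ∣ absD A B * G ^ 2 ∧ Bd W ∧ ∀ z : ℂ, 0 < z.im →
      theta e (((a : ℂ) * z + b) / ((c : ℂ) * z + d)) =
        ((c : ℂ) * z + d) ^ 2 * ∑' y, tm W (z / M) y

/-! ## The primitive -/

/-- (VLN) the limit of the primitive at a rational number, along the vertical line.

USES BDD, DIF, VAN, ITG. PROOF. `f s = thetaInt e (r + i s)` has derivative `i · 2 π i theta e (r + i s) = -2 π theta e (r + i s)`
(DIF with `W = e`, chain rule), which is integrable on `(0, oo)` by ITG, and `f s → 0` for `s → oo` (VAN). So for `t > 0`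
`f t = 2 π ∫_t^oo theta e (r + i s) ds` (`MeasureTheory.integral_Ioi_of_hasDerivAt_of_tendsto`), and this tends to
`2 π ∫_0^oo theta = -Iv e r` for `t → 0` (for instance: `∫_(0,oo) = ∫_0^t + ∫_t^oo` and `∫_0^t → 0`, or
`MeasureTheory.tendsto_setIntegral_..`, dominated convergence with indicator functions). -/
def Su_VLN : Prop :=
  ∀ (A B : ℤ), Case A B → ∀ (g : OO A B) (e : OO A B → ℂ), g ≠ 0 → IsEps g e → ∀ r : ℚ,
    Tendsto (fun t : ℝ => thetaInt e ((r : ℂ) + t * Complex.I)) (𝓝[>] 0) (𝓝 (-Iv e r))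

/-- (CUS) the limit of `thetaInt(γ z)` for `im z → oo` is the value of the symbol.

USES BDD, VAN, VLN. PROOF. `c = 0`: `a = d = ±1`, `γ z = z ± b`, so `thetaInt e (γ z)` tends to 0 by VAN (`W = e`), `C = 0`, and
`Phi e ∞ ∞ = 0`. `c ≠ 0`: for `z = -d/c + i s`, `s > 0`: `γ z = a/c - 1/(c (c z + d)) = a/c + i/(c² s)`. For `s → oo` the
number `1/(c² s)` tends to `0` from the right, so `thetaInt e (γ z) → -Iv e (a/c)` (VLN) and it tends to `C`;
`Phi e ∞ (a/c) = Ic e ∞ - Ic e (a/c) = -Iv e (a/c)`. Uniqueness of limits. -/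
def Su_CUS : Prop :=
  ∀ (A B : ℤ), Case A B → ∀ (g : OO A B) (e : OO A B → ℂ), g ≠ 0 → IsEps g e →
    ∀ a b c d : ℤ, a * d - b * c = 1 → ∀ C : ℂ,
    (∀ ε : ℝ, 0 < ε → ∃ R : ℝ, ∀ z : ℂ, R ≤ z.im → 0 < z.im →
      ‖thetaInt e (((a : ℂ) * z + b) / ((c : ℂ) * z + d)) - C‖ < ε) →
    C = Phi e ∞ (mob a b c d ∞)

/-- (EXI) expansion of the primitive at all cusps.

USES BDD, DIF, VAN, MBF, EXP, CUS. PROOF. `W`, `M` of EXP; `P z = Σ_y tI (M W) (z/M) y` has derivative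
`(1/M) 2 π i M Σ tm W (z/M) y`, and `z ↦ thetaInt e (γ z)` has derivative `2 π i theta e (γ z)/(c z + d)²` (DIF with `W = e`,
MBF), the same. The difference is constant on the upper half plane (convex and open; `IsOpen.is_const_of_deriv_eq_zero`
or `Convex.is_const_of_fderivWithin_eq_zero`), say `C`. `P z → 0` for `im z → oo` (VAN), so `C` is the number of CUS. -/
def Su_EXI : Prop :=
  ∀ (A B : ℤ), Case A B → ∀ (g : OO A B) (e : OO A B → ℂ), g ≠ 0 → IsEps g e →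
    ∀ G : ℕ, 0 < G → g ∣ (G : OO A B) → ∀ a b c d : ℤ, a * d - b * c = 1 →
    ∃ (M : ℕ) (W : OO A B → ℂ), 0 < M ∧ (M : ℤ) ∣ absD A B * G ^ 2 ∧ Bd W ∧ ∀ z : ℂ, 0 < z.im →
      thetaInt e (((a : ℂ) * z + b) / ((c : ℂ) * z + d)) =
        Phi e ∞ (mob a b c d ∞) + ∑' y, tI W (z / M) y

/-- (QPE) the primitive under `Gamma_0(N0)`.

USES BDD, DIF, VAN, MBF, MOD, CUS. PROOF. `z ↦ thetaInt e (γ z)` has derivative `2 π i theta e (γ z)/(c z + d)² = nuE e d 2 π i theta e z`,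
as `nuE e d thetaInt e`. The difference is a constant `C` on the upper half plane; `thetaInt e z → 0` for `im z → oo`
(VAN, `W = e`), so `C` is the number of CUS. -/
def Su_QPE : Prop :=
  ∀ (A B : ℤ), Case A B → ∀ (g : OO A B) (e : OO A B → ℂ), g ≠ 0 → IsEps g e →
    ∀ G : ℕ, 0 < G → g ∣ (G : OO A B) → ∀ a b c d : ℤ, a * d - b * c = 1 →
    absD A B * G ^ 2 ∣ c → ∀ z : ℂ, 0 < z.im →
    thetaInt e (((a : ℂ) * z + b) / ((c : ℂ) * z + d)) =
      nuE e d * thetaInt e z + Phi e ∞ (mob a b c d ∞)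

/-- (MCO) `mob` and products of matrices, at `∞`. USES nothing. PROOF. Case distinction `c' = 0` (then `a' = ±1`) or not. First part:
`r = p/q` in lowest terms and Bezout (`Rat.reduced`, `Int.gcd_eq_gcd_ab` or `IsCoprime`). -/
def Su_MCO : Prop :=
  (∀ x : OnePoint ℚ, ∃ a b c d : ℤ, a * d - b * c = 1 ∧ mob a b c d ∞ = x) ∧
  ∀ a b c d a' b' c' d' : ℤ, a * d - b * c = 1 → a' * d' - b' * c' = 1 →
    mob a b c d (mob a' b' c' d' ∞) =
      mob (a * a' + b * c') (a * b' + b * d') (c * a' + d * c') (c * b' + d * d') ∞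

/-- (SYM) the symbol is a modular symbol.

USES VAN, MBF, EXI, QPE, MCO. PROOF. `add`: `Phi x y = Ic x - Ic y`. `equiv`: it is enough to show for all cusps `x`:
`(*) Ic (γ x) = nuE e d Ic x + Ic (γ ∞)` (subtract for `x`, `y`). `x = σ ∞`, `σ = (a' b'; c' d')` (MCO), `γ x = (γ σ) ∞`. For
`im z → oo`: `thetaInt e (σ z) → Phi e ∞ x = -Ic x` and `thetaInt e (γ σ z) → -Ic (γ x)` (EXI and VAN), and by QPE at
`σ z` : `thetaInt e (γ σ z) = nuE e d thetaInt e (σ z) - Ic (γ ∞)`. Uniqueness of limits (for instance along `z = i s`,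
or: the difference of the two sides of (*) has norm less than every `ε`). -/
def Su_SYM : Prop :=
  ∀ (A B : ℤ), Case A B → ∀ (g : OO A B) (e : OO A B → ℂ), g ≠ 0 → IsEps g e →
    ∀ G : ℕ, 0 < G → g ∣ (G : OO A B) → ∀ N : ℕ, N ≠ 0 → absD A B * G ^ 2 ∣ (N : ℤ) →
    IsSym N (nuE e) (Phi e)

/-- (FT) THE RESULT of the block (unconditional theorem `main_FT` in `FTMain.lean`). -/
def Su_FT : Prop :=
  ∀ (A B : ℤ), Case A B → ∀ (g : OO A B) (e : OO A B → ℂ), g ≠ 0 → IsEps g e →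
    ∀ G : ℕ, 0 < G → g ∣ (G : OO A B) → ∀ N : ℕ, N ≠ 0 → absD A B * G ^ 2 ∣ (N : ℤ) →
    IsSym N (nuE e) (Phi e) ∧
    (∀ a b c d : ℤ, a * d - b * c = 1 → (N : ℤ) ∣ c → ∀ τ : ℂ, 0 < τ.im →
      thetaInt e ((a * τ + b) / (c * τ + d)) =
        nuE e d * thetaInt e τ + Phi e ∞ (mob a b c d ∞)) ∧
    ∀ a b c d : ℤ, a * d - b * c = 1 → ∃ w : ℕ → ℂ, ∀ τ : ℂ, 0 < τ.im →
      HasSum (fun n : ℕ => w n * Complex.exp (2 * Real.pi * Complex.I * τ / N) ^ (n + 1))
        (thetaInt e ((a * τ + b) / (c * τ + d)) - Phi e ∞ (mob a b c d ∞))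

end

end Pool.Agent.MU3T


end

section

/-!
# MUX, block XT (helper40): theta series of ideals are modular forms

Every statement is a `def Xs_X : Prop`. A module proves `theorem tx_X (h : Xs_Y) ... : Xs_X` in
`Pool/Agent/MUX/XT_X.lean`, where the hypotheses are the statements named under USES in the doc string.

Everything (except BAS, TRI, CHQ, FTI) is for a positive definite integral BINARY FORM `F = (a, b, c)` of discriminant
`-F.D`, `F.D = 4 a c - b²`, in coordinates `x = (i, j)`, and a weight `W` on `ℤ²`. The sum is over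
`ℤ²`, classes modulo `m` are the pairs in `[0, m)²` (`sm m`). With `τ = F.tau = (b + i sqrt D)/(2 a)`:
`F(i, j) = a |i + j τ|²`. This is block FT of MU3 (`Pool/Agent/MU3/StFT.lean`, modules
`Pool/Agent/MU3/T_X.lean`), which treats `F` = the norm form of `O`: the proofs are the same and the files
`T_X.lean` named as MODEL can be copied and adapted (no quotient rings here: easier).

`N0 = D G²`. All formulas were checked numerically.
-/

set_option autoImplicit false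

namespace Pool.Agent.MUX
end Pool.Agent.MUX

namespace Pool.Agent.MUXT

open _root_.MU3 _root_.Pool.Agent.MuSym OnePoint Filter Topology
open _root_.Pool.Agent.MUXF (nI thetaI thetaIntI IvI IcI PhiI)
open _root_.Pool.Agent.MU3T (Su_MBF Su_MCO)
open _root_.Pool.Agent.MU3F (ex)
open scoped ComplexConjugate

noncomputable section

abbrev Z2 := ℤ × ℤ

/-- binary quadratic forms -/
structure QF where
  a : ℤ
  b : ℤ
  c : ℤ

/-- the value `a i² + b i j + c j²` -/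
def QF.ev (F : QF) (x : Z2) : ℤ := F.a * x.1 ^ 2 + F.b * x.1 * x.2 + F.c * x.2 ^ 2

/-- minus the discriminant -/
def QF.D (F : QF) : ℤ := 4 * F.a * F.c - F.b ^ 2

/-- positive definite -/
structure QF.Pos (F : QF) : Prop where
  a_pos : 0 < F.a
  D_pos : 0 < F.D

/-- `τ = (b + i sqrt D)/(2 a)`, in the upper half plane; `F(i,j) = a |i + j τ|²` -/
def QF.tau (F : QF) : ℂ := ((F.b : ℂ) + Complex.I * (Real.sqrt (F.D : ℝ) : ℝ)) / (2 * F.a)

/-- `conj(i + j τ)` -/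
def QF.lc (F : QF) (x : Z2) : ℂ := conj ((x.1 : ℂ) + x.2 * F.tau)

/-- the term `W(x) conj(i + j τ) exp(2 π i F(x) z)` -/
def tm (F : QF) (W : Z2 → ℂ) (z : ℂ) (x : Z2) : ℂ :=
  W x * F.lc x * Complex.exp (2 * Real.pi * Complex.I * (F.ev x : ℂ) * z)

/-- the term of the primitive; 0 for `x = 0` -/
def tI (F : QF) (W : Z2 → ℂ) (z : ℂ) (x : Z2) : ℂ :=
  W x * F.lc x / (F.ev x : ℂ) * Complex.exp (2 * Real.pi * Complex.I * (F.ev x : ℂ) * z)

/-- a bounded weight -/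
def Bd (W : Z2 → ℂ) : Prop := ∃ C : ℝ, ∀ x, ‖W x‖ ≤ C

/-- the theta series -/
def Th (F : QF) (W : Z2 → ℂ) (z : ℂ) : ℂ := (1 / 2) * ∑' x : Z2, tm F W z x

/-- its primitive -/
def ThI (F : QF) (W : Z2 → ℂ) (z : ℂ) : ℂ := (1 / 2) * ∑' x : Z2, tI F W z x

/-- `∫_r^(i ∞) 2 π i Th(z) dz` -/
def IvQ (F : QF) (W : Z2 → ℂ) (r : ℚ) : ℂ :=
  -(2 * Real.pi) * ∫ t in Set.Ioi (0 : ℝ), Th F W ((r : ℂ) + t * Complex.I)

def IcQ (F : QF) (W : Z2 → ℂ) (x : OnePoint ℚ) : ℂ := x.elim 0 (fun r : ℚ => IvQ F W r)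

/-- the symbol -/
def PhiQ (F : QF) (W : Z2 → ℂ) (x y : OnePoint ℚ) : ℂ := IcQ F W x - IcQ F W y

/-- sum over the classes modulo `m` -/
def sm (m : ℕ) (f : Z2 → ℂ) : ℂ := ∑ i ∈ Finset.range m, ∑ j ∈ Finset.range m, f ((i : ℤ), (j : ℤ))

/-- the alternating form `x₂ y₁ - x₁ y₂` -/
def wx (x y : Z2) : ℤ := x.2 * y.1 - x.1 * y.2

/-- `f` is periodic modulo `m` -/
def Per (m : ℕ) (f : Z2 → ℂ) : Prop :=
  ∀ x y : Z2, (m : ℤ) ∣ x.1 - y.1 → (m : ℤ) ∣ x.2 - y.2 → f x = f y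

/-- `W_(t/q)(y) = Σ_(x mod qG) W(x) exp(2 π i t F(x)/q) exp(2 π i wx(x, y)/(q G))` -/
def WW (F : QF) (W : Z2 → ℂ) (G q : ℕ) (t : ℤ) (y : Z2) : ℂ :=
  sm (q * G) (fun x => W x * ex (t * F.ev x / q) * ex (wx x y / (q * G)))

/-- the Gauss sum `Σ_(x mod d) exp(2 π i t F(x)/d)` -/
def gg (F : QF) (d : ℕ) (t : ℤ) : ℂ := sm d (fun x => ex (t * F.ev x / d))

/-- weights: `W` periodic modulo `G`, `W (d x) = ε d * W x` for `d` prime to `G` -/
structure IsWt (G : ℕ) (W : Z2 → ℂ) (ε : ℤ → ℂ) : Prop where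
  pos : 0 < G
  per : Per G W
  hom : ∀ d : ℤ, IsCoprime d (G : ℤ) → ∀ x : Z2, W (d * x.1, d * x.2) = ε d * W x
  eper : ∀ d d' : ℤ, (G : ℤ) ∣ d - d' → ε d = ε d'
  eneg : ∀ d : ℤ, ε (-d) = -ε d

/-- `χ` is the quadratic character of discriminant `-D`, `D > 0` -/
structure IsChi (D : ℤ) (χ : ℤ → ℤ) : Prop where
  one : χ 1 = 1
  prime : ∀ (p : ℕ) [Fact p.Prime], ¬ (p : ℤ) ∣ 2 * D → χ p = legendreSym p (-D)
  per : ∀ d d' : ℤ, 0 < d → 0 < d' → IsCoprime d D → D ∣ d - d' → χ d = χ d'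
  neg : ∀ d : ℤ, χ (-d) = -χ d

/-! ## Series in the upper half plane -/

/-- (QFF) facts on forms. USES nothing. PROOF. `tau.im = sqrt D/(2 a)`; expand. -/
def Xs_QFF : Prop :=
  ∀ F : QF, F.Pos →
    0 < F.tau.im ∧ F.tau.im = Real.sqrt (F.D : ℝ) / (2 * F.a) ∧
    (∀ x : Z2, ((F.ev x : ℤ) : ℝ) = F.a * ‖(x.1 : ℂ) + x.2 * F.tau‖ ^ 2) ∧
    (∀ x : Z2, ((F.ev x : ℤ) : ℝ) = F.a * ‖F.lc x‖ ^ 2) ∧
    (∀ x : Z2, x ≠ 0 → 1 ≤ F.ev x) ∧
    (∃ κ : ℝ, 0 < κ ∧ ∀ x : Z2, κ * ((x.1 : ℝ) ^ 2 + (x.2 : ℝ) ^ 2) ≤ F.ev x) ∧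
    (∀ (m : ℤ) (x y : Z2), m ∣ x.1 - y.1 → m ∣ x.2 - y.2 → m ∣ F.ev x - F.ev y)

/-- (DIF) summability and derivatives. USES QFF. MODEL: `MU3/T_DIF.lean`, `MU3/F_TSM.lean` (summability: compare with
`exp(-κ i²) exp(-κ j²)`, `MU3B.PoiAux.gsum2`). PROOF as in `Su_DIF` of `StFT.lean`. -/
def Xs_DIF : Prop :=
  ∀ F : QF, F.Pos → ∀ W : Z2 → ℂ, Bd W →
    (∀ z : ℂ, 0 < z.im → Summable (tm F W z) ∧ Summable (tI F W z)) ∧
    (∀ z : ℂ, 0 < z.im → DifferentiableAt ℂ (fun z => ∑' y, tm F W z y) z) ∧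
    ∀ z : ℂ, 0 < z.im →
      HasDerivAt (fun z => ∑' y, tI F W z y) (2 * Real.pi * Complex.I * ∑' y, tm F W z y) z

/-- (BND) bounds near `i oo`.

USES QFF, DIF. MODEL: `MU3/T_VAN.lean`. PROOF. For `im z ≥ 1`: `‖tm F W z x‖ ≤ exp(-2 π (im z - 1)) ‖tm F W i x‖`, the same for
`tI` (`F.ev x ≥ 1` for `x ≠ 0`; for `x = 0` both are 0, `F.lc 0 = 0`). -/
def Xs_BND : Prop :=
  ∀ F : QF, F.Pos → ∀ W : Z2 → ℂ, Bd W → ∃ C : ℝ, 0 < C ∧ ∀ z : ℂ, 1 ≤ z.im →
    ‖∑' y, tm F W z y‖ ≤ C * Real.exp (-(2 * Real.pi * z.im)) ∧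
    ‖∑' y, tI F W z y‖ ≤ C * Real.exp (-(2 * Real.pi * z.im))

/-- (REG) regrouping. USES QFF, DIF. MODEL: `MU3/T_REG.lean`. -/
def Xs_REG : Prop :=
  ∀ F : QF, F.Pos → ∀ W : Z2 → ℂ, Bd W → ∀ M N : ℕ, N ≠ 0 → M ∣ N →
    ∃ w : ℕ → ℂ, ∀ τ : ℂ, 0 < τ.im →
      HasSum (fun n : ℕ => w n * Complex.exp (2 * Real.pi * Complex.I * τ / N) ^ (n + 1))
        (∑' y, tI F W (τ / M) y)

/-- (POI) Poisson summation in the upper half plane.

USES QFF. Import `Pool/Agent/MU3/T_POC.lean` (`MU3B.b_POC`: the dual sum for complex parameters, no identity theorem is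
needed any more). PROOF. `L` = the `PeriodPair` `(1, τ)` (see `MU3/T_PO0.lean`, namespace `PO0`, for the same lemmas
with `wC`), `area L = im τ = sqrt D/(2 a)`. `b_POC` at the point `(i0 + j0 τ)/m` and
`t = i / (m² sqrt D z)` (`Re t = im z/(m² sqrt D |z|²) > 0`): the left side is `1/m Σ conj(x0 + m w) exp(2 π i F(x0 + m w) z)` because
`π |x0 + m w|²/(m² area t) = -2 π i a |x0 + m w|² z`; `-t² = 1/(m⁴ D z²)`; `π t |w|²/area = -2 π i F(w) (-1/(m² D z))`;
`pr L w (x0/m) = ex((x0₂ w₁ - x0₁ w₂)/m) = ex(wx x0 w/m)` as `Im(x0 conj w) = (x0₂ w₁ - x0₁ w₂) im τ`. -/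
def Xs_POI : Prop :=
  ∀ F : QF, F.Pos → ∀ m : ℕ, 0 < m → ∀ (x0 : Z2) (z : ℂ), 0 < z.im →
    ∑' w : Z2, F.lc (x0.1 + m * w.1, x0.2 + m * w.2) *
      Complex.exp (2 * Real.pi * Complex.I * (F.ev (x0.1 + m * w.1, x0.2 + m * w.2) : ℂ) * z) =
    1 / ((m : ℂ) ^ 3 * (F.D : ℂ) * z ^ 2) *
      ∑' y : Z2, tm F (fun y => ex (wx x0 y / m)) (-1 / ((m : ℂ) ^ 2 * (F.D : ℂ) * z)) y

/-- (CLS) a sum over `ℤ²` is a sum over the classes modulo `m`; rules for `sm`.

USES nothing. PROOF. `ℤ ≃ Fin m × ℤ` (`i = k + m n`; `Int.divModEquiv` in Mathlib), so `ℤ² ≃ (Fin m)² × ℤ²`, `Summable.tsum_prod'`,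
`tsum_fintype`, `Finset.sum_range`. (2) shift of a periodic function: the map `(k, l) ↦ (k + v₁ mod m, l + v₂ mod m)` is a
permutation of `[0, m)²`. (3) Chinese remainder theorem: for coprime `d`, `G` the map
`((k, l), (k', l')) ↦ (d k + G k', d l + G l')` is a bijection of `[0, G)² × [0, d)²` onto the classes modulo `d G` (in each coordinate
`ZMod`: injective by coprimality, then counting). -/
def Xs_CLS : Prop :=
  (∀ m : ℕ, 0 < m → ∀ f : Z2 → ℂ, Summable f →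
    ∑' x, f x = sm m (fun x => ∑' w : Z2, f (x.1 + m * w.1, x.2 + m * w.2))) ∧
  (∀ m : ℕ, 0 < m → ∀ f : Z2 → ℂ, Per m f → ∀ v : Z2,
    sm m (fun x => f (x.1 + v.1, x.2 + v.2)) = sm m f) ∧
  ∀ d G : ℕ, 0 < d → 0 < G → Nat.Coprime d G → ∀ f : Z2 → ℂ, Per (d * G) f →
    sm (d * G) f = sm G (fun x => sm d (fun y => f (d * x.1 + G * y.1, d * x.2 + G * y.2)))

/-- (WBD) bounds. USES nothing. PROOF. A periodic function takes its values on `[0, m)²`; `WW` is a finite sum of terms of norm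
at most `C`. -/
def Xs_WBD : Prop :=
  (∀ (m : ℕ) (W : Z2 → ℂ), 0 < m → Per m W → Bd W) ∧
  ∀ (F : QF) (W : Z2 → ℂ) (G q : ℕ) (t : ℤ), Bd W → Bd (WW F W G q t)

/-- (RED) the theta series near the cusp `t/q`.

USES QFF, DIF, POI, CLS, WBD. MODEL: `MU3/T_RED.lean`. PROOF as in `Su_RED` (`StFT.lean`): `m = q G`, classes modulo `m` (CLS), `W` and
`ex(t F(x)/q)` are periodic modulo `m`, POI for every class, exchange the finite sum with the sum over `y`. -/
def Xs_RED : Prop :=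
  ∀ F : QF, F.Pos → ∀ (W : Z2 → ℂ) (G q : ℕ), 0 < G → 0 < q → Per G W → ∀ (t : ℤ) (z : ℂ), 0 < z.im →
    Th F W (((t / q : ℚ) : ℂ) + z) =
      1 / (2 * ((q : ℂ) * G) ^ 3 * (F.D : ℂ) * z ^ 2) *
        ∑' y : Z2, tm F (WW F W G q t) (-1 / (((q : ℂ) * G) ^ 2 * (F.D : ℂ) * z)) y

/-! ## Gauss sums -/

/-- (WID) the Gauss sum for `c = N0 c'`.

USES CLS. MODEL: `MU3/T_WID.lean`. PROOF. `d` is prime to `G` (and to `D`) by the determinant. CRT (CLS (3)):
`x = d x' + G x''`: `W x = W(d x') = ε(d) W(x')`; `t G² F(x'')/d` modulo 1 is `t F(x)/d` (`F(d x' + G x'') ≡ G² F(x'')` modulo `d`);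
`wx(x, y)/(d G) = wx(x', y)/G + wx(x'', y)/d`. So `WW = ε(d) WW_(0/1)(y) Σ_(x mod d) ex((t G² F(x) + wx(x, y))/d)`. Completing the
square: `v = c' (-2 c j - b i, b j + 2 a i)` for `y = (i, j)`, `F = (a, b, c)`. Identity in the integers:
`F(x - v) = F(x) - c' D wx(x, y) + c'² D F(y)`; multiply by `t G²`; `t D G² c' ≡ -1` modulo `d` gives
`t G² F(x - v) + c' F(y) ≡ t G² F(x) + wx(x, y)` modulo `d`. Shift by `v` (CLS (2)). -/
def Xs_WID : Prop :=
  ∀ F : QF, F.Pos → ∀ (W : Z2 → ℂ) (ε : ℤ → ℂ) (G d : ℕ), IsWt G W ε → 0 < d → ∀ s t c' : ℤ,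
    s * d - t * (F.D * G ^ 2 * c') = 1 → ∀ y : Z2,
    WW F W G d t y = ε d * ex (c' * F.ev y / d) * gg F d (t * G ^ 2) * WW F W G 1 0 y

/-- (GAU) the Gauss sum modulo a prime.

USES nothing. MODEL: `MU3/T_GAU.lean` (`sum_sq_char`, `ex_eq`). PROOF. `ψ = ZMod.stdAddChar`. If `p ∤ a`:
`4 a F = (2 a i + b j)² + D j²`, `(i, j) ↦ (2 a i + b j, j)` is a bijection, so `gg = Σ_X ψ(t' X²) Σ_j ψ(t' D j²)`, `t' = t/(4 a)`,
`= χ(t') χ(t' D) gaussSum² = χ(D) χ(-1) p = χ(-D) p`. If `p ∣ a`: `F ≡ b i j + c j²`, `p ∤ b` (else `p ∣ D`), sum over `i` first: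
`p` if `j = 0` and `0` otherwise, so `gg = p`, and `-D ≡ b²` is a nonzero square, `legendreSym = 1`. -/
def Xs_GAU : Prop :=
  ∀ (F : QF) (p : ℕ) [Fact p.Prime], ¬ (p : ℤ) ∣ 2 * F.D → ∀ t : ℤ, ¬ (p : ℤ) ∣ t →
    gg F p t = (legendreSym p (-F.D) : ℂ) * p

/-! ## Modularity -/

/-- (MOP) prime entry `d`. USES RED, WID, GAU, `Su_MBF` (`MU3/T_MBF.lean`, `MU3T.tu_MBF`). MODEL: `MU3/T_MOP.lean` (110 lines, nearly
word for word). -/
def Xs_MOP : Prop :=
  ∀ F : QF, F.Pos → ∀ (W : Z2 → ℂ) (ε : ℤ → ℂ) (G : ℕ), IsWt G W ε →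
    ∀ (a b c : ℤ) (p : ℕ) [Fact p.Prime], ¬ (p : ℤ) ∣ 2 * F.D →
    a * p - b * c = 1 → F.D * G ^ 2 ∣ c → ∀ z : ℂ, 0 < z.im →
    Th F W (((a : ℂ) * z + b) / ((c : ℂ) * z + p)) =
      ((c : ℂ) * z + p) ^ 2 * ((legendreSym p (-F.D) : ℂ) * ε p) * Th F W z

/-- (MOD) `Gamma_0(N0)`.

USES MOP, `Su_MBF`. MODEL: `MU3/T_MOD.lean`. PROOF. Period: `Th F W (z + 1) = Th F W z` (term by term). `d = 0` is impossible
(`D G² ∣ c`, `b c = -1`, `D ≥ 3` as `-D` is `0` or `1` modulo 4). `d < 0`: the case `(-a, -b, -c, -d)`, same map, `(c z + d)²` does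
not change, `χ(-d) ε(-d) = χ(d) ε(d)`. `d > 0`, `c ≠ 0`: a prime `p > 2 D`, `p ≡ d` modulo `|c|`, `p = d + k c`; MOP for `(a, b + k a, c, p)`
at `z - k`; `χ p = χ d` (`D ∣ c`, `d` is prime to `c`), `ε p = ε d`. `c = 0`: `d = 1`, `a = 1`: period 1, and
`χ 1 = 1`, `ε 1 W = W` by `hom`. -/
def Xs_MOD : Prop :=
  ∀ F : QF, F.Pos → ∀ χ : ℤ → ℤ, IsChi F.D χ → ∀ (W : Z2 → ℂ) (ε : ℤ → ℂ) (G : ℕ), IsWt G W ε →
    ∀ a b c d : ℤ, a * d - b * c = 1 → F.D * G ^ 2 ∣ c → ∀ z : ℂ, 0 < z.im →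
    Th F W (((a : ℂ) * z + b) / ((c : ℂ) * z + d)) =
      ((c : ℂ) * z + d) ^ 2 * ((χ d : ℂ) * ε d) * Th F W z

/-- (EXP) expansion at all cusps. USES QFF, WBD, RED, `Su_MBF`. MODEL: `MU3/T_EXP.lean`. `c = 0`: `M = 1`, `W' = W/2`. -/
def Xs_EXP : Prop :=
  ∀ F : QF, F.Pos → ∀ (W : Z2 → ℂ) (G : ℕ), 0 < G → Per G W → ∀ a b c d : ℤ, a * d - b * c = 1 →
    ∃ (M : ℕ) (W' : Z2 → ℂ), 0 < M ∧ (M : ℤ) ∣ F.D * G ^ 2 ∧ Bd W' ∧ ∀ z : ℂ, 0 < z.im →
      Th F W (((a : ℂ) * z + b) / ((c : ℂ) * z + d)) =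
        ((c : ℂ) * z + d) ^ 2 * ∑' y, tm F W' (z / M) y

/-! ## The primitive -/

/-- (ITG) integrability on vertical lines.

USES WBD, DIF, BND, EXP, `Su_MBF`. PROOF. `f t = Th F W (r + i t)` is continuous on `(0, oo)` (DIF). `r = s/q` in lowest terms, `s d - b q = 1`
(Bezout), `σ = (s, b, q, d)`: for `t > 0` and `z = -d/q + i/(q² t)`: `σ z = r + i t`, `q z + d = i/(q t)`. By EXP
`f t = -(q t)⁻² Σ tm F W' (z/M)`, and for `t ≤ t0 = 1/(q² M)` BND (`im (z/M) = 1/(q² t M) ≥ 1`) gives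
`‖f t‖ ≤ C (q t)⁻² exp(-2 π/(q² M t))`, bounded. On `[t0, 1]` `f` is continuous, on `[1, oo)` `‖f t‖ ≤ C exp(-2 π t)` (BND with `W`). So `f` is
bounded on `(0, 1]` and integrable on `(1, oo)`. -/
def Xs_ITG : Prop :=
  ∀ F : QF, F.Pos → ∀ (W : Z2 → ℂ) (G : ℕ), 0 < G → Per G W → ∀ r : ℚ,
    MeasureTheory.IntegrableOn (fun t : ℝ => Th F W ((r : ℂ) + t * Complex.I)) (Set.Ioi 0)

/-- (VLN) the limit of the primitive on a vertical line. USES WBD, DIF, BND, ITG. MODEL: `MU3/T_VLN.lean`. -/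
def Xs_VLN : Prop :=
  ∀ F : QF, F.Pos → ∀ (W : Z2 → ℂ) (G : ℕ), 0 < G → Per G W → ∀ r : ℚ,
    Tendsto (fun t : ℝ => ThI F W ((r : ℂ) + t * Complex.I)) (𝓝[>] 0) (𝓝 (-IvQ F W r))

/-- (CUS) the limit of `ThI(γ z)` at `i oo`. USES WBD, BND, VLN. MODEL: `MU3/T_CUS.lean`. -/
def Xs_CUS : Prop :=
  ∀ F : QF, F.Pos → ∀ (W : Z2 → ℂ) (G : ℕ), 0 < G → Per G W →
    ∀ a b c d : ℤ, a * d - b * c = 1 → ∀ C : ℂ,
    (∀ ε : ℝ, 0 < ε → ∃ R : ℝ, ∀ z : ℂ, R ≤ z.im → 0 < z.im →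
      ‖ThI F W (((a : ℂ) * z + b) / ((c : ℂ) * z + d)) - C‖ < ε) →
    C = PhiQ F W ∞ (mob a b c d ∞)

/-- (EXI) expansion of the primitive. USES WBD, DIF, BND, EXP, CUS, `Su_MBF`. MODEL: `MU3/T_EXI.lean`. -/
def Xs_EXI : Prop :=
  ∀ F : QF, F.Pos → ∀ (W : Z2 → ℂ) (G : ℕ), 0 < G → Per G W → ∀ a b c d : ℤ, a * d - b * c = 1 →
    ∃ (M : ℕ) (W' : Z2 → ℂ), 0 < M ∧ (M : ℤ) ∣ F.D * G ^ 2 ∧ Bd W' ∧ ∀ z : ℂ, 0 < z.im →
      ThI F W (((a : ℂ) * z + b) / ((c : ℂ) * z + d)) =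
        PhiQ F W ∞ (mob a b c d ∞) + ∑' y, tI F W' (z / M) y

/-- (QPE) the primitive under `Gamma_0(N0)`. USES WBD, DIF, BND, MOD, CUS, `Su_MBF`. MODEL: `MU3/T_QPE.lean`. -/
def Xs_QPE : Prop :=
  ∀ F : QF, F.Pos → ∀ χ : ℤ → ℤ, IsChi F.D χ → ∀ (W : Z2 → ℂ) (ε : ℤ → ℂ) (G : ℕ), IsWt G W ε →
    ∀ a b c d : ℤ, a * d - b * c = 1 → F.D * G ^ 2 ∣ c → ∀ z : ℂ, 0 < z.im →
    ThI F W (((a : ℂ) * z + b) / ((c : ℂ) * z + d)) =
      ((χ d : ℂ) * ε d) * ThI F W z + PhiQ F W ∞ (mob a b c d ∞)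

/-- (SYM) the symbol. USES BND, EXI, QPE, `Su_MBF`, `Su_MCO` (`MU3/T_MCO.lean`). MODEL: `MU3/T_SYM.lean`. -/
def Xs_SYM : Prop :=
  ∀ F : QF, F.Pos → ∀ χ : ℤ → ℤ, IsChi F.D χ → ∀ (W : Z2 → ℂ) (ε : ℤ → ℂ) (G : ℕ), IsWt G W ε →
    ∀ N : ℕ, N ≠ 0 → F.D * G ^ 2 ∣ (N : ℤ) → IsSym N (fun d => (χ d : ℂ) * ε d) (PhiQ F W)

/-! ## Ideals -/

/-- the quadratic character of `k` (correct for all `d` prime to the discriminant) -/
def chiQ (A B : ℤ) (d : ℤ) : ℤ :=
  if B = 1 then jacobiSym d (-(B ^ 2 + 4 * A)).toNat else jacobiSym A d.natAbs * d.sign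

/-- (CHQ) `chiQ` is the quadratic character.

USES nothing. `D = -(B² + 4 A)`. PROOF. `one`: clear. `B = 1`: `D ≡ 3` modulo 4, `D > 0`. `per`: `jacobiSym.mod_left`. `neg`: `J(-1 | D) = -1`
(`jacobiSym.at_neg_one`, `χ₄`). `prime`: `J(-D | p) = J(-1 | p) J(D | p)`, `jacobiSym.quadratic_reciprocity'`-like: for `D ≡ 3` modulo 4 the
signs cancel and it is `J(p | D)`. `B = 0`: `D = -4 A`, `A < 0`. `prime`: `legendreSym p (4 A) = legendreSym p A` and
`jacobiSym.legendreSym.to_jacobiSym`. `per`: `d`, `d'` are odd and positive, `jacobiSym.mod_right` (period `4 |A| = D`). `neg`: `sign`, `natAbs_neg`. -/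
def Xs_CHQ : Prop :=
  ∀ A B : ℤ, (B = 0 ∨ B = 1) → B ^ 2 + 4 * A < 0 → IsChi (-(B ^ 2 + 4 * A)) (chiQ A B)

/-- `al, be` is an oriented basis of the ideal `b` with norm form `F` -/
structure IsBas {A B : ℤ} (b : Ideal (OO A B)) (al be : OO A B) (F : QF) : Prop where
  al_ne : al ≠ 0
  memb : ∀ x : Z2, ((x.1 : ℤ) : OO A B) * al + ((x.2 : ℤ) : OO A B) * be ∈ b
  surj : ∀ y ∈ b, ∃ x : Z2, ((x.1 : ℤ) : OO A B) * al + ((x.2 : ℤ) : OO A B) * be = y
  inj : ∀ x y : Z2, ((x.1 : ℤ) : OO A B) * al + ((x.2 : ℤ) : OO A B) * be =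
    ((y.1 : ℤ) : OO A B) * al + ((y.2 : ℤ) : OO A B) * be → x = y
  nrm : ∀ x : Z2, nm (((x.1 : ℤ) : OO A B) * al + ((x.2 : ℤ) : OO A B) * be) = nI b * F.ev x
  tau : emb be = emb al * F.tau

/-- (BAS) bases of ideals.

USES nothing. PROOF. `b` is a subgroup of finite index of `O = ℤ²` (it contains `nm x ≠ 0`). Basis in Hermite form: let
`a₂` be the least positive `im`-coordinate of an element of `b` and `be ∈ b` with `be.im = a₂`; let `n₀ > 0` generate
`b ∩ ℤ`; then `b = ℤ n₀ + ℤ be` and the index is `n₀ a₂ = nI b` (`O/b` has the representatives `[0, n₀) × [0, a₂)`; or use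
`Ideal.selfBasis`/`natAbs_det` for the index). `al = n₀`: `τ = be/n₀` is in the upper half plane. `F = (nm al, tr(al star be), nm be)/nI b`:
integral, because `nI b` divides `nm x` for all `x ∈ b` (`(x) ⊆ b`, the index `nm x` of `(x)` is a multiple of `nI b`;
or: `n₀ ∣ a₂ ..`) and `nm(al + be) - nm al - nm be = tr`. Discriminant: `4 nm al nm be - tr² = (2 im(conj al be))² = |D| (n₀ a₂)²`. -/
def Xs_BAS : Prop :=
  ∀ A B : ℤ, B ^ 2 + 4 * A < 0 → ∀ b : Ideal (OO A B), b ≠ ⊥ →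
    ∃ (al be : OO A B) (F : QF), F.Pos ∧ F.D = -(B ^ 2 + 4 * A) ∧ IsBas b al be F

/-- (TRI) translation. USES nothing. PROOF. The bijection `ℤ² ≃ b`, `x ↦ x₁ al + x₂ be`;
`conj(emb(x₁ al + x₂ be)) = conj(emb al) F.lc x`, `nm(..)/nI b = F.ev x` (`nI b ≠ 0`). -/
def Xs_TRI : Prop :=
  ∀ A B : ℤ, B ^ 2 + 4 * A < 0 → ∀ (b : Ideal (OO A B)) (al be : OO A B) (F : QF), b ≠ ⊥ →
    F.Pos → IsBas b al be F → ∀ e : OO A B → ℂ,
    (∀ z, thetaI b e z = conj (emb al) * Th F (fun x => e (((x.1 : ℤ) : OO A B) * al +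
      ((x.2 : ℤ) : OO A B) * be)) z) ∧
    (∀ z, thetaIntI b e z = conj (emb al) * ThI F (fun x => e (((x.1 : ℤ) : OO A B) * al +
      ((x.2 : ℤ) : OO A B) * be)) z) ∧
    ∀ x y, PhiI b e x y = conj (emb al) * PhiQ F (fun x => e (((x.1 : ℤ) : OO A B) * al +
      ((x.2 : ℤ) : OO A B) * be)) x y

/-- (FTI) THE RESULT of the block, for ideals. `e` is multiplicative, periodic modulo `G`, odd.

USES BAS, TRI, CHQ, REG, ITG, EXI, QPE, SYM, WBD. PROOF. BAS, TRI; `W x = e(x₁ al + x₂ be)`, `ε d = e d`: `IsWt G W ε`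
(`e(d y) = e(d) e(y)`). Multiply by `conj(emb al)`. The parts (2)-(4) for `N` a multiple of `|D| G²`. -/
def Xs_FTI : Prop :=
  ∀ A B : ℤ, (B = 0 ∨ B = 1) → B ^ 2 + 4 * A < 0 → ∀ b : Ideal (OO A B), b ≠ ⊥ →
    ∀ (e : OO A B → ℂ) (G : ℕ), 0 < G → (∀ x y, e (x * y) = e x * e y) →
    (∀ x y, (G : OO A B) ∣ x - y → e x = e y) → e (-1) = -1 →
    (∀ r : ℚ, MeasureTheory.IntegrableOn
      (fun t : ℝ => thetaI b e ((r : ℂ) + t * Complex.I)) (Set.Ioi 0)) ∧
    ∀ N : ℕ, N ≠ 0 → -(B ^ 2 + 4 * A) * G ^ 2 ∣ (N : ℤ) →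
    IsSym N (fun d => (chiQ A B d : ℂ) * e (d : OO A B)) (PhiI b e) ∧
    (∀ a b' c d : ℤ, a * d - b' * c = 1 → (N : ℤ) ∣ c → ∀ τ : ℂ, 0 < τ.im →
      thetaI b e ((a * τ + b') / (c * τ + d)) = (c * τ + d) ^ 2 *
        ((chiQ A B d : ℂ) * e (d : OO A B)) * thetaI b e τ ∧
      thetaIntI b e ((a * τ + b') / (c * τ + d)) =
        ((chiQ A B d : ℂ) * e (d : OO A B)) * thetaIntI b e τ + PhiI b e ∞ (mob a b' c d ∞)) ∧
    ∀ a b' c d : ℤ, a * d - b' * c = 1 → ∃ w : ℕ → ℂ, ∀ τ : ℂ, 0 < τ.im →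
      HasSum (fun n : ℕ => w n * Complex.exp (2 * Real.pi * Complex.I * τ / N) ^ (n + 1))
        (thetaIntI b e ((a * τ + b') / (c * τ + d)) - PhiI b e ∞ (mob a b' c d ∞))

end

end Pool.Agent.MUXT


end

section

/-!
# MUX, block XT, module BAS (helper95): bases of ideals and their norm forms
-/

set_option autoImplicit false

namespace Pool.Agent.MUXT

open _root_.MU3
open _root_.Pool.Agent.MUXF (nI)
open scoped ComplexConjugate

noncomputable section

namespace BasX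

variable {A B : ℤ}

theorem gen (H : AddSubgroup ℤ) (h : ∃ n ∈ H, n ≠ 0) :
    ∃ g : ℤ, 0 < g ∧ g ∈ H ∧ ∀ x ∈ H, g ∣ x := by
  obtain ⟨a, ha⟩ := Int.subgroup_cyclic H
  have h1 : ∀ x, x ∈ H ↔ a ∣ x := by
    intro x
    rw [ha, AddSubgroup.mem_closure_singleton]
    constructor
    · rintro ⟨n, rfl⟩
      exact ⟨n, by rw [smul_eq_mul, mul_comm]⟩
    · rintro ⟨n, rfl⟩
      exact ⟨n, by rw [smul_eq_mul, mul_comm]⟩
  obtain ⟨n, hn, hn0⟩ := h
  have ha0 : a ≠ 0 := by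
    rintro rfl
    exact hn0 (zero_dvd_iff.1 ((h1 n).1 hn))
  exact ⟨|a|, abs_pos.2 ha0, (h1 _).2 ((dvd_abs a a).2 dvd_rfl),
    fun x hx => (abs_dvd a x).2 ((h1 x).1 hx)⟩

/-- the second coordinate -/
def imH (A B : ℤ) : OO A B →+ ℤ where
  toFun x := x.im
  map_zero' := rfl
  map_add' _ _ := rfl

theorem nm_pos (hD : B ^ 2 + 4 * A < 0) (x : OO A B) (hx : x ≠ 0) : 0 < nm x := by
  have h1 : 4 * nm x = (2 * x.re + B * x.im) ^ 2 + (-(B ^ 2 + 4 * A)) * x.im ^ 2 := by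
    unfold nm
    ring
  by_cases h : x.im = 0
  · have h2 : x.re ≠ 0 := fun h3 => hx (QuadraticAlgebra.ext h3 h)
    have h3 : 0 < x.re ^ 2 := by positivity
    unfold nm
    rw [h]
    nlinarith
  · have h3 : 0 < x.im ^ 2 := by positivity
    nlinarith [sq_nonneg (2 * x.re + B * x.im), mul_pos (neg_pos.2 hD) h3]

theorem mul_star' (x : OO A B) : x * star x = ((nm x : ℤ) : OO A B) := by
  ext
  · simp only [nm, QuadraticAlgebra.re_mul, QuadraticAlgebra.re_star, QuadraticAlgebra.im_star,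
      QuadraticAlgebra.re_intCast, Int.cast_id]
    ring
  · simp only [QuadraticAlgebra.im_mul, QuadraticAlgebra.re_star, QuadraticAlgebra.im_star,
      QuadraticAlgebra.im_intCast]
    ring

/-- Hermite normal form -/
theorem herm (hD : B ^ 2 + 4 * A < 0) (b : Ideal (OO A B)) (hb : b ≠ ⊥) :
    ∃ s n r c : ℤ, 0 < s ∧ 0 < n ∧ r ^ 2 + B * r - A = n * c ∧
      ∀ y : OO A B, y ∈ b ↔ ∃ i j : ℤ, y.re = i * (s * n) + j * (s * r) ∧ y.im = j * s := by
  obtain ⟨x, hxb, hx0⟩ := Submodule.exists_mem_ne_zero_of_ne_bot hb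
  have hN : ((nm x : ℤ) : OO A B) ∈ b := by
    rw [← mul_star']
    exact b.mul_mem_right _ hxb
  have hNpos := nm_pos hD x hx0
  set w : OO A B := ⟨0, 1⟩ with hw
  -- the two subgroups
  obtain ⟨m, hm0, hm, hmd⟩ := gen (b.toAddSubgroup.comap (Int.castAddHom (OO A B)))
    ⟨nm x, hN, hNpos.ne'⟩
  obtain ⟨s, hs0, hs, hsd⟩ := gen (b.toAddSubgroup.map (imH A B))
    ⟨nm x, ⟨((nm x : ℤ) : OO A B) * w, b.mul_mem_right _ hN, by
      change (((nm x : ℤ) : OO A B) * w).im = nm x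
      simp [hw]⟩, hNpos.ne'⟩
  obtain ⟨be, hbe, hbes⟩ := hs
  have hbe' : be ∈ b := hbe
  have hbes' : be.im = s := hbes
  have hm' : ((m : ℤ) : OO A B) ∈ b := hm
  have hint : ∀ k : ℤ, ((k : ℤ) : OO A B) ∈ b → m ∣ k := fun k hk => hmd k hk
  have him : ∀ y ∈ b, s ∣ y.im := fun y hy => hsd y.im ⟨y, hy, rfl⟩
  -- `s ∣ m`
  obtain ⟨n, hn⟩ : s ∣ m := by
    have := him (((m : ℤ) : OO A B) * w) (b.mul_mem_right _ hm')
    simpa [hw] using this
  -- `s ∣ be.re`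
  obtain ⟨r, hr⟩ : s ∣ be.re := by
    have h1 := him (be * w) (b.mul_mem_right _ hbe')
    have h2 : (be * w).im = be.re + B * be.im := by
      simp [hw]
    rw [h2, hbes'] at h1
    exact (Int.dvd_add_left ⟨B, mul_comm _ _⟩).1 h1
  have hn0 : 0 < n := by
    have : 0 < s * n := hn ▸ hm0
    exact (mul_pos_iff_of_pos_left hs0).1 this
  -- `n ∣ r² + B r - A`
  obtain ⟨c, hc⟩ : n ∣ r ^ 2 + B * r - A := by
    have h1 : (((s * (r ^ 2 + B * r - A) : ℤ)) : OO A B) ∈ b := by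
      have e : (((s * (r ^ 2 + B * r - A) : ℤ)) : OO A B) =
          ((r + B : ℤ) : OO A B) * be - w * be := by
        generalize hK : s * (r ^ 2 + B * r - A) = K
        ext
        · simp [hw, hbes', hr]
          linear_combination -hK
        · simp [hw, hbes', hr]
          ring
      rw [e]
      exact b.sub_mem (b.mul_mem_left _ hbe') (b.mul_mem_left _ hbe')
    have h2 := hint _ h1
    rw [hn] at h2
    exact Int.dvd_of_mul_dvd_mul_left hs0.ne' h2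
  refine ⟨s, n, r, c, hs0, hn0, hc, fun y => ?_⟩
  constructor
  · intro hy
    obtain ⟨j, hj⟩ := him y hy
    have h1 : ((y.re - j * (s * r) : ℤ) : OO A B) ∈ b := by
      have e : ((y.re - j * (s * r) : ℤ) : OO A B) = y - ((j : ℤ) : OO A B) * be := by
        ext
        · simp [hr]
        · simp [hbes', hj, mul_comm]
      rw [e]
      exact b.sub_mem hy (b.mul_mem_left _ hbe')
    obtain ⟨i, hi⟩ := hint _ h1
    refine ⟨i, j, ?_, by rw [hj, mul_comm]⟩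
    rw [← hn]
    linear_combination hi
  · rintro ⟨i, j, h1, h2⟩
    have e : y = ((i : ℤ) : OO A B) * ((m : ℤ) : OO A B) + ((j : ℤ) : OO A B) * be := by
      ext
      · simp [h1, hn, hr]
      · simp [h2, hbes']
    rw [e]
    exact b.add_mem (b.mul_mem_left _ hm') (b.mul_mem_left _ hbe')

/-- the index -/
theorem index (b : Ideal (OO A B)) (s n r : ℤ) (hs : 0 < s) (hn : 0 < n)
    (h : ∀ y : OO A B, y ∈ b ↔ ∃ i j : ℤ, y.re = i * (s * n) + j * (s * r) ∧ y.im = j * s) :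
    ((nI b : ℕ) : ℤ) = s * n * s := by
  have hsn : 0 < s * n := mul_pos hs hn
  set f : Fin (s * n).toNat × Fin s.toNat → OO A B ⧸ b := fun p =>
    Ideal.Quotient.mk b (⟨(p.1 : ℕ), (p.2 : ℕ)⟩ : OO A B) with hf
  have hinj : Function.Injective f := by
    rintro ⟨i, j⟩ ⟨i', j'⟩ hij
    have h1 := (h _).1 (Ideal.Quotient.eq.1 hij)
    obtain ⟨p, q, h2, h3⟩ := h1
    simp only [QuadraticAlgebra.re_sub, QuadraticAlgebra.im_sub] at h2 h3
    have i1 : (i : ℤ) < s * n := by have := i.2; omega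
    have i2 : (i' : ℤ) < s * n := by have := i'.2; omega
    have j1 : (j : ℤ) < s := by have := j.2; omega
    have j2 : (j' : ℤ) < s := by have := j'.2; omega
    have hq : q = 0 := by
      by_contra hq
      rcases lt_or_gt_of_ne hq with hq | hq
      · have : q * s ≤ -1 * s := mul_le_mul_of_nonneg_right (by omega) hs.le
        omega
      · have : 1 * s ≤ q * s := mul_le_mul_of_nonneg_right (by omega) hs.le
        omega
    subst hq
    have hp : p = 0 := by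
      by_contra hp
      rcases lt_or_gt_of_ne hp with hp | hp
      · have : p * (s * n) ≤ -1 * (s * n) := mul_le_mul_of_nonneg_right (by omega) hsn.le
        omega
      · have : 1 * (s * n) ≤ p * (s * n) := mul_le_mul_of_nonneg_right (by omega) hsn.le
        omega
    subst hp
    have e1 : (i : ℕ) = i' := by omega
    have e2 : (j : ℕ) = j' := by omega
    exact Prod.ext (Fin.ext e1) (Fin.ext e2)
  have hsurj : Function.Surjective f := by
    intro z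
    obtain ⟨y, rfl⟩ := Ideal.Quotient.mk_surjective z
    set q := y.im / s with hq
    set u := y.re - q * (s * r) with hu
    set p := u / (s * n) with hp
    have m1 := Int.emod_nonneg y.im hs.ne'
    have m2 := Int.emod_lt_of_pos y.im hs
    have m3 := Int.emod_nonneg u hsn.ne'
    have m4 := Int.emod_lt_of_pos u hsn
    have m5 := Int.emod_add_mul_ediv y.im s
    have m6 := Int.emod_add_mul_ediv u (s * n)
    refine ⟨(⟨(u % (s * n)).toNat, by omega⟩, ⟨(y.im % s).toNat, by omega⟩), ?_⟩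
    refine Ideal.Quotient.eq.2 ((h _).2 ⟨-p, -q, ?_, ?_⟩)
    · simp only [QuadraticAlgebra.re_sub]
      have e1 : (((u % (s * n)).toNat : ℕ) : ℤ) = u % (s * n) := Int.toNat_of_nonneg m3
      rw [e1]
      rw [← hp] at m6
      linear_combination m6
    · simp only [QuadraticAlgebra.im_sub]
      have e1 : (((y.im % s).toNat : ℕ) : ℤ) = y.im % s := Int.toNat_of_nonneg m1
      rw [e1]
      rw [← hq] at m5
      linear_combination m5
  have hcard := Nat.card_congr (Equiv.ofBijective f ⟨hinj, hsurj⟩)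
  rw [Nat.card_prod, Nat.card_fin, Nat.card_fin] at hcard
  unfold nI
  rw [← hcard]
  push_cast
  rw [Int.toNat_of_nonneg hs.le, Int.toNat_of_nonneg hsn.le]

end BasX

open _root_.Pool.Agent.MUXT.BasX in
theorem tx_BAS : Xs_BAS := by
  intro A B hD b hb
  obtain ⟨s, n, r, c, hs, hn, hc, hmem⟩ := herm hD b hb
  have hidx := index b s n r hs hn hmem
  set al : OO A B := ((s * n : ℤ) : OO A B) with hal
  set be : OO A B := ⟨s * r, s⟩ with hbe
  set F : QF := ⟨n, 2 * r + B, c⟩ with hF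
  have hFD : F.D = -(B ^ 2 + 4 * A) := by
    unfold QF.D
    change 4 * n * c - (2 * r + B) ^ 2 = _
    linear_combination -4 * hc
  have hsn : 0 < s * n := mul_pos hs hn
  have hre : ∀ x : Z2, (((x.1 : ℤ) : OO A B) * al + ((x.2 : ℤ) : OO A B) * be).re =
      x.1 * (s * n) + x.2 * (s * r) := by
    intro x
    simp [hal, hbe]
  have him : ∀ x : Z2, (((x.1 : ℤ) : OO A B) * al + ((x.2 : ℤ) : OO A B) * be).im =
      x.2 * s := by
    intro x
    simp [hal, hbe]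
  refine ⟨al, be, F, ⟨hn, by rw [hFD]; omega⟩, hFD, ?_⟩
  refine ⟨?_, ?_, ?_, ?_, ?_, ?_⟩
  · intro h0
    have h1 := congrArg QuadraticAlgebra.re h0
    simp [hal] at h1
    rcases h1 with h1 | h1
    · exact hs.ne' h1
    · exact hn.ne' h1
  · intro x
    exact (hmem _).2 ⟨x.1, x.2, hre x, him x⟩
  · intro y hy
    obtain ⟨i, j, h1, h2⟩ := (hmem y).1 hy
    exact ⟨(i, j), QuadraticAlgebra.ext (by rw [hre, h1]) (by rw [him, h2])⟩
  · intro x y hxy
    have h1 := congrArg QuadraticAlgebra.im hxy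
    have h2 := congrArg QuadraticAlgebra.re hxy
    rw [him, him] at h1
    rw [hre, hre] at h2
    have h3 : x.2 = y.2 := mul_right_cancel₀ hs.ne' h1
    rw [h3] at h2
    have h4 : x.1 = y.1 := mul_right_cancel₀ hsn.ne' (add_right_cancel h2)
    exact Prod.ext h4 h3
  · intro x
    rw [hidx]
    unfold nm QF.ev
    rw [hre, him]
    change _ = s * n * s * (n * x.1 ^ 2 + (2 * r + B) * x.1 * x.2 + c * x.2 ^ 2)
    linear_combination (s ^ 2 * x.2 ^ 2) * hc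
  · have e1 : emb al = (s : ℂ) * n := by
      simp [hal, emb]
    have e2 : emb be = (s : ℂ) * r + s * wC A B := by
      simp [hbe, emb]
    have hnC : (n : ℂ) ≠ 0 := by exact_mod_cast hn.ne'
    rw [e1, e2]
    unfold QF.tau wC
    rw [hFD]
    have e3 : (F.b : ℂ) = 2 * r + B := by
      change (((2 * r + B : ℤ)) : ℂ) = _
      push_cast
      rfl
    have e4 : (F.a : ℂ) = n := rfl
    rw [e3, e4, show absD A B = -(B ^ 2 + 4 * A) from rfl]
    field_simp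
    ring

end

end Pool.Agent.MUXT


end

section

/-!
# MUX, block XT: the result for ideals from its parts (FTI)
-/

set_option autoImplicit false

namespace Pool.Agent.MUXT

open _root_.MU3 _root_.Pool.Agent.MuSym OnePoint Filter Topology
open _root_.Pool.Agent.MUXF (nI thetaI thetaIntI IvI IcI PhiI)
open _root_.Pool.Agent.MU3T (Su_MBF Su_MCO)
open _root_.Pool.Agent.MU3F (ex)
open scoped ComplexConjugate

noncomputable section

lemma fti_wt {A B : ℤ} (al be : OO A B) (e : OO A B → ℂ) (G : ℕ) (hG : 0 < G)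
    (hmul : ∀ x y, e (x * y) = e x * e y)
    (hper : ∀ x y, (G : OO A B) ∣ x - y → e x = e y) (hneg : e (-1) = -1) :
    IsWt G (fun x : Z2 => e (((x.1 : ℤ) : OO A B) * al + ((x.2 : ℤ) : OO A B) * be))
      (fun d : ℤ => e (d : OO A B)) where
  pos := hG
  per := by
    intro x y h1 h2
    apply hper
    obtain ⟨u, hu⟩ := h1
    obtain ⟨v, hv⟩ := h2
    refine ⟨(u : OO A B) * al + (v : OO A B) * be, ?_⟩
    have h1' : ((x.1 : ℤ) : OO A B) - ((y.1 : ℤ) : OO A B) = (G : OO A B) * (u : OO A B) := by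
      have := congrArg (Int.cast : ℤ → OO A B) hu
      push_cast at this
      exact this
    have h2' : ((x.2 : ℤ) : OO A B) - ((y.2 : ℤ) : OO A B) = (G : OO A B) * (v : OO A B) := by
      have := congrArg (Int.cast : ℤ → OO A B) hv
      push_cast at this
      exact this
    linear_combination al * h1' + be * h2'
  hom := by
    intro d _ x
    show e _ = e _ * e _
    rw [← hmul]
    congr 1
    push_cast
    ring
  eper := by
    intro d d' h
    apply hper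
    obtain ⟨u, hu⟩ := h
    refine ⟨(u : OO A B), ?_⟩
    have := congrArg (Int.cast : ℤ → OO A B) hu
    push_cast at this
    exact this
  eneg := by
    intro d
    have h : ((-d : ℤ) : OO A B) = (-1) * (d : OO A B) := by
      push_cast
      ring
    show e ((-d : ℤ) : OO A B) = - e (d : OO A B)
    rw [h, hmul, hneg]
    ring

theorem tx_FTI (hWBD : Xs_WBD) (hREG : Xs_REG) (hMOD : Xs_MOD) (hITG : Xs_ITG) (hEXI : Xs_EXI)
    (hQPE : Xs_QPE) (hSYM : Xs_SYM) (hCHQ : Xs_CHQ) (hBAS : Xs_BAS) (hTRI : Xs_TRI) :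
    Xs_FTI := by
  intro A B hB hneg b hb e G hG hmul hper he1
  obtain ⟨al, be, F, hF, hD, hbas⟩ := hBAS A B hneg b hb
  have hchi : IsChi F.D (chiQ A B) := by
    rw [hD]
    exact hCHQ A B hB hneg
  have hwt := fti_wt al be e G hG hmul hper he1
  obtain ⟨hth, hthi, hphi⟩ := hTRI A B hneg b al be F hb hF hbas e
  set W : Z2 → ℂ := fun x => e (((x.1 : ℤ) : OO A B) * al + ((x.2 : ℤ) : OO A B) * be) with hW
  have hper' : Per G W := hwt.per
  refine ⟨?_, ?_⟩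
  · intro r
    have h1 := (hITG F hF W G hG hper' r).const_mul (conj (emb al))
    have h2 : (fun t : ℝ => thetaI b e ((r : ℂ) + t * Complex.I)) =
        fun t : ℝ => conj (emb al) * Th F W ((r : ℂ) + t * Complex.I) := by
      funext t
      exact hth _
    rw [h2]
    exact h1
  · intro N hN hdvd
    rw [← hD] at hdvd
    refine ⟨?_, ?_, ?_⟩
    · have hs := hSYM F hF (chiQ A B) hchi W _ G hwt N hN hdvd
      refine ⟨?_, ?_⟩
      · intro x y z
        rw [hphi, hphi, hphi, ← mul_add, hs.add]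
      · intro a b' c d hdet hc x y
        rw [hphi, hphi, hs.equiv a b' c d hdet hc]
        ring
    · intro a b' c d hdet hc τ hτ
      refine ⟨?_, ?_⟩
      · rw [hth, hth, hMOD F hF (chiQ A B) hchi W _ G hwt a b' c d hdet (dvd_trans hdvd hc) τ hτ]
        ring
      · rw [hthi, hthi, hphi,
          hQPE F hF (chiQ A B) hchi W _ G hwt a b' c d hdet (dvd_trans hdvd hc) τ hτ]
        ring
    · intro a b' c d hdet
      obtain ⟨M, W', -, hMd, hW', hex⟩ := hEXI F hF W G hG hper' a b' c d hdet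
      have hMN : M ∣ N := by
        have h1 : (M : ℤ) ∣ (N : ℤ) := dvd_trans hMd hdvd
        exact_mod_cast h1
      obtain ⟨w, hw⟩ := hREG F hF W' hW' M N hN hMN
      refine ⟨fun n => conj (emb al) * w n, fun τ hτ => ?_⟩
      have h1 := (hw τ hτ).mul_left (conj (emb al))
      have h2 : thetaIntI b e ((a * τ + b') / (c * τ + d)) - PhiI b e ∞ (mob a b' c d ∞) =
          conj (emb al) * ∑' y, tI F W' (τ / M) y := by
        rw [hthi, hphi, hex τ hτ]
        ring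
      rw [h2]
      refine h1.congr_fun ?_
      intro n
      ring

end

end Pool.Agent.MUXT


end

section

/-!
# MUX, block XT, module TRI: translation between ideals and binary forms
-/

set_option autoImplicit false

namespace Pool.Agent.MUXT

open _root_.MU3 _root_.Pool.Agent.MuSym OnePoint Filter Topology
open _root_.Pool.Agent.MUXF (nI thetaI thetaIntI IvI IcI PhiI)
open _root_.Pool.Agent.MU3T (Su_MBF Su_MCO)
open _root_.Pool.Agent.MU3F (ex)
open scoped ComplexConjugate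

noncomputable section

namespace TRI

theorem emb_lin {A B : ℤ} (al be : OO A B) (m n : ℤ) :
    emb ((m : OO A B) * al + (n : OO A B) * be) = m * emb al + n * emb be := by
  simp only [emb, QuadraticAlgebra.re_add, QuadraticAlgebra.im_add, QuadraticAlgebra.re_mul,
    QuadraticAlgebra.im_mul, QuadraticAlgebra.re_intCast, QuadraticAlgebra.im_intCast]
  push_cast
  ring

theorem nm_ne {A B : ℤ} (h : B ^ 2 + 4 * A < 0) (x : OO A B) (hx : x ≠ 0) : nm x ≠ 0 := by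
  intro h0
  apply hx
  have h1 : (2 * x.re + B * x.im) ^ 2 + (-(B ^ 2 + 4 * A)) * x.im ^ 2 = 0 := by
    have : (2 * x.re + B * x.im) ^ 2 + (-(B ^ 2 + 4 * A)) * x.im ^ 2 = 4 * nm x := by
      unfold nm; ring
    rw [this, h0]; ring
  have h2 : 0 ≤ (2 * x.re + B * x.im) ^ 2 := sq_nonneg _
  have h3 : 0 ≤ x.im ^ 2 := sq_nonneg _
  have h4 : x.im = 0 := by
    by_contra h5
    have h6 : 0 < x.im ^ 2 := by positivity
    nlinarith
  rw [h4] at h1
  have h5 : x.re = 0 := by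
    have : x.re ^ 2 = 0 := by nlinarith
    exact pow_eq_zero_iff (two_ne_zero) |>.1 this
  exact QuadraticAlgebra.ext h5 h4

end TRI

open _root_.Pool.Agent.MUXT.TRI in
theorem tx_TRI : Xs_TRI := by
  intro A B hneg b al be F hb hF hbas e
  set g : Z2 → OO A B := fun x => ((x.1 : ℤ) : OO A B) * al + ((x.2 : ℤ) : OO A B) * be with hg
  have hinj : Function.Injective fun x : Z2 => (⟨g x, hbas.memb x⟩ : b) := by
    intro x y hxy
    exact hbas.inj x y (congrArg Subtype.val hxy)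
  have hsurj : Function.Surjective fun x : Z2 => (⟨g x, hbas.memb x⟩ : b) := by
    intro y
    obtain ⟨x, hx⟩ := hbas.surj y y.2
    exact ⟨x, Subtype.ext hx⟩
  set E : Z2 ≃ b := Equiv.ofBijective _ ⟨hinj, hsurj⟩ with hE
  have hEg : ∀ x : Z2, ((E x : b) : OO A B) = g x := fun x => rfl
  have hc : ∀ x : Z2, (starRingEnd ℂ) (emb (g x)) = (starRingEnd ℂ) (emb al) * F.lc x := by
    intro x
    have h1 : emb (g x) = emb al * ((x.1 : ℂ) + x.2 * F.tau) := by
      rw [hg]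
      show emb (((x.1 : ℤ) : OO A B) * al + ((x.2 : ℤ) : OO A B) * be) = _
      rw [emb_lin, hbas.tau]
      ring
    rw [h1, map_mul]
    rfl
  have hn0 : (nI b : ℤ) ≠ 0 := by
    intro h0
    have h1 := hbas.nrm (1, 0)
    rw [h0, zero_mul] at h1
    refine nm_ne hneg al hbas.al_ne ?_
    have h2 : (((1 : ℤ) : OO A B)) * al + (((0 : ℤ)) : OO A B) * be = al := by
      push_cast
      ring
    simpa [h2] using h1
  have hn : (nI b : ℂ) ≠ 0 := by exact_mod_cast hn0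
  have hq : ∀ x : Z2, ((nm (g x) : ℤ) : ℂ) / (nI b : ℂ) = (F.ev x : ℂ) := by
    intro x
    have h1 : nm (g x) = nI b * F.ev x := hbas.nrm x
    rw [h1, div_eq_iff hn]
    push_cast
    ring
  have hth : ∀ z, thetaI b e z = (starRingEnd ℂ) (emb al) *
      Th F (fun x => e (((x.1 : ℤ) : OO A B) * al + ((x.2 : ℤ) : OO A B) * be)) z := by
    intro z
    unfold Pool.Agent.MUXF.thetaI Th
    rw [← Equiv.tsum_eq E, mul_left_comm, ← tsum_mul_left (a := (starRingEnd ℂ) (emb al))]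
    refine congrArg (fun c => (1 / 2 : ℂ) * c) (tsum_congr fun x => ?_)
    rw [hEg, hc, hq]
    unfold tm
    rw [hg]
    ring
  refine ⟨hth, ?_, ?_⟩
  · intro z
    unfold Pool.Agent.MUXF.thetaIntI ThI
    rw [← Equiv.tsum_eq E, mul_left_comm, ← tsum_mul_left (a := (starRingEnd ℂ) (emb al))]
    refine congrArg (fun c => (1 / 2 : ℂ) * c) (tsum_congr fun x => ?_)
    rw [hEg, hc, hq]
    unfold tI
    rw [hg]
    ring
  · have hI : ∀ x : OnePoint ℚ, IcI b e x = (starRingEnd ℂ) (emb al) *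
        IcQ F (fun x => e (((x.1 : ℤ) : OO A B) * al + ((x.2 : ℤ) : OO A B) * be)) x := by
      intro x
      induction x using OnePoint.rec with
      | infty =>
        show (0 : ℂ) = _ * (0 : ℂ)
        rw [mul_zero]
      | coe r =>
        show IvI b e r = _ * IvQ F _ r
        unfold Pool.Agent.MUXF.IvI IvQ
        simp_rw [hth]
        rw [MeasureTheory.integral_const_mul]
        ring
    intro x y
    unfold Pool.Agent.MUXF.PhiI PhiQ
    rw [hI, hI]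
    ring

end

end Pool.Agent.MUXT


end

section

/-!
# MUX, block XT, module SYM (helper95): the symbol of the theta series of a form
-/

set_option autoImplicit false

namespace Pool.Agent.MUXT

open _root_.MU3 _root_.Pool.Agent.MUX _root_.Pool.Agent.MuSym OnePoint Filter Topology
open _root_.Pool.Agent.MU3T (Su_MBF Su_MCO)
open scoped ComplexConjugate

namespace SymX

lemma Phi_inf (F : QF) (W : Z2 → ℂ) (y : OnePoint ℚ) : PhiQ F W ∞ y = -IcQ F W y := by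
  unfold PhiQ
  have h : IcQ F W ∞ = 0 := rfl
  rw [h]
  ring

lemma small_zero (x : ℂ) (K : ℝ) (hK : 0 < K) (h : ∀ ε : ℝ, 0 < ε → ‖x‖ ≤ K * ε) : x = 0 := by
  rw [← norm_eq_zero]
  by_contra hne
  have hpos : 0 < ‖x‖ := lt_of_le_of_ne (norm_nonneg x) (Ne.symm hne)
  have := h (‖x‖ / (2 * K)) (by positivity)
  have e : K * (‖x‖ / (2 * K)) = ‖x‖ / 2 := by field_simp
  rw [e] at this
  linarith

lemma comp_frac (a b c d a' b' c' d' : ℤ) (z : ℂ) (h : (c' : ℂ) * z + d' ≠ 0) :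
    ((a : ℂ) * (((a' : ℂ) * z + b') / ((c' : ℂ) * z + d')) + b) /
      ((c : ℂ) * (((a' : ℂ) * z + b') / ((c' : ℂ) * z + d')) + d) =
    (((a * a' + b * c' : ℤ) : ℂ) * z + ((a * b' + b * d' : ℤ) : ℂ)) /
      (((c * a' + d * c' : ℤ) : ℂ) * z + ((c * b' + d * d' : ℤ) : ℂ)) := by
  have hX : ((a' : ℂ) * z + b') / ((c' : ℂ) * z + d') * ((c' : ℂ) * z + d') = (a' : ℂ) * z + b' :=
    div_mul_cancel₀ _ h
  rw [← mul_div_mul_right _ _ h]
  congr 1
  · push_cast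
    linear_combination (a : ℂ) * hX
  · push_cast
    linear_combination (c : ℂ) * hX

/-- the primitive tends to 0 -/
lemma van (hBND : Xs_BND) {F : QF} (hF : F.Pos) {W : Z2 → ℂ} (hW : Bd W) (ε : ℝ) (hε : 0 < ε) :
    ∃ R : ℝ, 0 < R ∧ ∀ z : ℂ, R ≤ z.im → ‖∑' y, tI F W z y‖ < ε := by
  obtain ⟨C, hC, h⟩ := hBND F hF W hW
  have hCε : 0 < C / ε := div_pos hC hε
  refine ⟨1 + C / ε, by linarith, fun z hz => ?_⟩
  refine lt_of_le_of_lt (h z (by linarith)).2 ?_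
  have h1 : Real.exp (-(2 * Real.pi * z.im)) ≤ Real.exp (-(1 + C / ε)) := by
    apply Real.exp_le_exp.2
    have hpi := Real.pi_gt_three
    nlinarith
  have h2 : 1 + C / ε < Real.exp (1 + C / ε) := by
    have := Real.add_one_le_exp (1 + C / ε)
    linarith
  have h3 : C * Real.exp (-(1 + C / ε)) < ε := by
    rw [Real.exp_neg, ← div_eq_mul_inv, div_lt_iff₀ (Real.exp_pos _)]
    have h4 : C < ε * (1 + C / ε) := by
      have : ε * (1 + C / ε) = ε + C := by field_simp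
      rw [this]
      linarith
    exact h4.trans (mul_lt_mul_of_pos_left h2 hε)
  exact lt_of_le_of_lt (mul_le_mul_of_nonneg_left h1 hC.le) h3

/-- the equation for one cusp -/
lemma star_eq (hBND : Xs_BND) (hMBF : Su_MBF) (hEXI : Xs_EXI) (hQPE : Xs_QPE) (hMCO : Su_MCO)
    {F : QF} (hF : F.Pos) (χ : ℤ → ℤ) (hχ : IsChi F.D χ) (W : Z2 → ℂ) (ε' : ℤ → ℂ) (G : ℕ)
    (hW : IsWt G W ε') (a b c d : ℤ) (hdet : a * d - b * c = 1)
    (hc : F.D * (G : ℤ) ^ 2 ∣ c) (x : OnePoint ℚ) :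
    PhiQ F W ∞ (mob a b c d x) =
      ((χ d : ℂ) * ε' d) * PhiQ F W ∞ x + PhiQ F W ∞ (mob a b c d ∞) := by
  obtain ⟨a', b', c', d', hdet', hx⟩ := hMCO.1 x
  have hcomp := hMCO.2 a b c d a' b' c' d' hdet hdet'
  rw [hx] at hcomp
  have hdet2 : (a * a' + b * c') * (c * b' + d * d') - (a * b' + b * d') * (c * a' + d * c') = 1 := by
    linear_combination (a' * d' - b' * c') * hdet + hdet'
  obtain ⟨M1, W1, hM1, _, hW1, h1⟩ := hEXI F hF W G hW.pos hW.per a' b' c' d' hdet'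
  obtain ⟨M2, W2, hM2, _, hW2, h2⟩ := hEXI F hF W G hW.pos hW.per _ _ _ _ hdet2
  rw [hx] at h1
  rw [← hcomp] at h2
  set u : ℂ := (χ d : ℂ) * ε' d with hu
  have key : PhiQ F W ∞ (mob a b c d x) -
      (u * PhiQ F W ∞ x + PhiQ F W ∞ (mob a b c d ∞)) = 0 := by
    apply small_zero _ (‖u‖ + 1) (by positivity)
    intro ε hε
    obtain ⟨R1, hR1, hv1⟩ := van hBND hF hW1 ε hε
    obtain ⟨R2, hR2, hv2⟩ := van hBND hF hW2 ε hε
    have hM1' : (0 : ℝ) < M1 := by exact_mod_cast hM1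
    have hM2' : (0 : ℝ) < M2 := by exact_mod_cast hM2
    set s : ℝ := M1 * R1 + M2 * R2 with hs
    have hs1 : 0 < M1 * R1 := mul_pos hM1' hR1
    have hs2 : 0 < M2 * R2 := mul_pos hM2' hR2
    have hspos : 0 < s := by rw [hs]; linarith
    set z : ℂ := (s : ℂ) * Complex.I with hz
    have hzim : z.im = s := by rw [hz]; simp
    have hzpos : 0 < z.im := by rw [hzim]; exact hspos
    have him : ∀ M : ℕ, (z / (M : ℂ)).im = s / M := by
      intro M
      rw [show ((M : ℕ) : ℂ) = ((M : ℝ) : ℂ) by push_cast; rfl, Complex.div_ofReal_im, hzim]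
    have q1 : ‖∑' y, tI F W1 (z / M1) y‖ < ε := by
      apply hv1
      rw [him, le_div_iff₀ hM1']
      rw [hs]
      nlinarith
    have q2 : ‖∑' y, tI F W2 (z / M2) y‖ < ε := by
      apply hv2
      rw [him, le_div_iff₀ hM2']
      rw [hs]
      nlinarith
    obtain ⟨hne, himz, _⟩ := hMBF a' b' c' d' hdet' z hzpos
    have e1 := h1 z hzpos
    have e2 := h2 z hzpos
    have e3 := hQPE F hF χ hχ W ε' G hW a b c d hdet hc _ himz
    rw [comp_frac a b c d a' b' c' d' z hne, e2, e1, ← hu] at e3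
    have e4 : PhiQ F W ∞ (mob a b c d x) -
        (u * PhiQ F W ∞ x + PhiQ F W ∞ (mob a b c d ∞)) =
        u * (∑' y, tI F W1 (z / M1) y) - ∑' y, tI F W2 (z / M2) y := by
      linear_combination e3
    rw [e4]
    calc ‖u * (∑' y, tI F W1 (z / M1) y) - ∑' y, tI F W2 (z / M2) y‖
        ≤ ‖u * (∑' y, tI F W1 (z / M1) y)‖ + ‖∑' y, tI F W2 (z / M2) y‖ := norm_sub_le _ _
      _ = ‖u‖ * ‖∑' y, tI F W1 (z / M1) y‖ + ‖∑' y, tI F W2 (z / M2) y‖ := by rw [norm_mul]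
      _ ≤ ‖u‖ * ε + ε := by
          have := mul_le_mul_of_nonneg_left q1.le (norm_nonneg u)
          linarith
      _ = (‖u‖ + 1) * ε := by ring
  exact sub_eq_zero.mp key

end SymX

open _root_.Pool.Agent.MUXT.SymX in
theorem tx_SYM (hBND : Xs_BND) (hMBF : Su_MBF) (hEXI : Xs_EXI) (hQPE : Xs_QPE)
    (hMCO : Su_MCO) : Xs_SYM := by
  intro F hF χ hχ W ε G hW N hN hDN
  refine ⟨?_, ?_⟩
  · intro x y z
    unfold PhiQ
    ring
  · intro a b c d hdet hc x y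
    have hc' : F.D * (G : ℤ) ^ 2 ∣ c := dvd_trans hDN hc
    have hx := star_eq hBND hMBF hEXI hQPE hMCO hF χ hχ W ε G hW a b c d hdet hc' x
    have hy := star_eq hBND hMBF hEXI hQPE hMCO hF χ hχ W ε G hW a b c d hdet hc' y
    have p : ∀ u v : OnePoint ℚ, PhiQ F W u v = PhiQ F W ∞ v - PhiQ F W ∞ u := by
      intro u v
      rw [Phi_inf, Phi_inf]
      unfold PhiQ
      ring
    rw [p (mob a b c d x) (mob a b c d y), p x y, hx, hy]
    ring

end Pool.Agent.MUXT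


end

section

/-!
# MUX, block XT, module CUS (helper7): the limit of `ThI` at a cusp

Adapted from `Pool/Agent/MU3/T_CUS.lean` (helper96).
-/

set_option autoImplicit false

namespace Pool.Agent.MUXT

open _root_.MU3 _root_.Pool.Agent.MuSym OnePoint Filter Topology
open scoped ComplexConjugate

noncomputable section

namespace X_CUS

theorem phi_inf (F : QF) (W : Z2 → ℂ) : PhiQ F W ∞ ∞ = 0 := by
  unfold PhiQ
  exact sub_self _

theorem phi_rat (F : QF) (W : Z2 → ℂ) (r : ℚ) :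
    PhiQ F W ∞ ((r : ℚ) : OnePoint ℚ) = -IvQ F W r := by
  unfold PhiQ IcQ
  change (0 : ℂ) - IvQ F W r = _
  ring

theorem mob_inf_zero (a b d : ℤ) : mob a b 0 d ∞ = ∞ := by
  change (if (0 : ℤ) = 0 then (∞ : OnePoint ℚ) else ((a / (0 : ℤ) : ℚ) : OnePoint ℚ)) = ∞
  rw [if_pos rfl]

theorem mob_inf_ne (a b c d : ℤ) (hc : c ≠ 0) :
    mob a b c d ∞ = ((a / c : ℚ) : OnePoint ℚ) := by
  change (if c = 0 then (∞ : OnePoint ℚ) else ((a / c : ℚ) : OnePoint ℚ)) = _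
  rw [if_neg hc]

/-- the translations do not change the imaginary part -/
theorem im_tr (a b d : ℤ) (h : a * d = 1) (z : ℂ) :
    (((a : ℂ) * z + b) / (((0 : ℤ) : ℂ) * z + d)).im = z.im := by
  have h1 : (a : ℂ) * (d : ℂ) = 1 := by exact_mod_cast h
  have hd : (d : ℂ) ≠ 0 := right_ne_zero_of_mul_eq_one h1
  have hdd : d * d = 1 := by
    rcases Int.isUnit_iff.1 (IsUnit.of_mul_eq_one_right a h) with h2 | h2 <;> rw [h2] <;> norm_num
  have had : a = d := by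
    calc a = a * (d * d) := by rw [hdd, mul_one]
      _ = (a * d) * d := by ring
      _ = d := by rw [h, one_mul]
  have h2 : ((a : ℂ) * z + b) / (((0 : ℤ) : ℂ) * z + d) = z + ((a * b : ℤ) : ℂ) := by
    rw [Int.cast_zero, zero_mul, zero_add, div_eq_iff hd]
    push_cast
    have h3 : (a : ℂ) = d := by exact_mod_cast had
    have h4 : (d : ℂ) * d = 1 := by exact_mod_cast hdd
    rw [h3]
    linear_combination (-(b : ℂ)) * h4
  rw [h2, Complex.add_im, Complex.intCast_im, add_zero]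

/-- the image of a vertical line -/
theorem vert (a b c d : ℤ) (h : a * d - b * c = 1) (hc : c ≠ 0) (s : ℝ) (hs : 0 < s) :
    ((a : ℂ) * (-(d : ℂ) / c + s * Complex.I) + b) /
        ((c : ℂ) * (-(d : ℂ) / c + s * Complex.I) + d) =
      (((a / c : ℚ)) : ℂ) + ((((c : ℝ) ^ 2 * s)⁻¹ : ℝ) : ℂ) * Complex.I := by
  have h1 : (a : ℂ) * d - b * c = 1 := by exact_mod_cast h
  have hc' : (c : ℂ) ≠ 0 := by exact_mod_cast hc
  have hs' : (s : ℂ) ≠ 0 := by exact_mod_cast hs.ne'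
  have hI : Complex.I ≠ 0 := Complex.I_ne_zero
  have h2 : (c : ℂ) * (-(d : ℂ) / c + s * Complex.I) + d = c * (s * Complex.I) := by
    field_simp
    ring
  rw [h2]
  push_cast
  rw [div_eq_iff (mul_ne_zero hc' (mul_ne_zero hs' hI))]
  field_simp
  have hI2 : Complex.I ^ 2 = -1 := Complex.I_sq
  linear_combination (-1 : ℂ) * h1 - hI2

end X_CUS

open _root_.Pool.Agent.MUXT.X_CUS in
theorem tx_CUS (hWBD : Xs_WBD) (hBND : Xs_BND) (hVLN : Xs_VLN) : Xs_CUS := by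
  intro F hF W G hG hW a b c d hdet C hC
  by_cases hc : c = 0
  · subst hc
    rw [mob_inf_zero, phi_inf]
    have had : a * d = 1 := by linarith
    by_contra hne
    have hpos : 0 < ‖C‖ := norm_pos_iff.2 hne
    obtain ⟨K, hK, h1⟩ := hBND F hF W (hWBD.1 G W hG hW)
    obtain ⟨R2, h2⟩ := hC (‖C‖ / 2) (half_pos hpos)
    have hlim : Tendsto (fun t : ℝ => K * Real.exp (-(2 * Real.pi * t))) atTop (𝓝 0) := by
      have h3 : Tendsto (fun t : ℝ => 2 * Real.pi * t) atTop atTop :=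
        tendsto_id.const_mul_atTop (by positivity)
      simpa using (Real.tendsto_exp_neg_atTop_nhds_zero.comp h3).const_mul K
    obtain ⟨t, ht1, ht2, ht3⟩ := ((eventually_ge_atTop (1 : ℝ)).and
      ((eventually_ge_atTop R2).and (hlim.eventually_lt_const hpos))).exists
    have him : ((t : ℂ) * Complex.I).im = t := by simp
    have h3 := (h1 (((a : ℂ) * ((t : ℂ) * Complex.I) + b) /
      (((0 : ℤ) : ℂ) * ((t : ℂ) * Complex.I) + d)) (by
        rw [im_tr a b d had, him]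
        exact ht1)).2
    rw [im_tr a b d had, him] at h3
    have h4 := h2 ((t : ℂ) * Complex.I) (by
      rw [him]
      exact ht2) (by
      rw [him]
      linarith)
    unfold ThI at h4
    set w := ∑' y, tI F W (((a : ℂ) * ((t : ℂ) * Complex.I) + b) /
      (((0 : ℤ) : ℂ) * ((t : ℂ) * Complex.I) + d)) y with hw
    have h5 : ‖C‖ ≤ ‖(1 / 2) * w - C‖ + ‖(1 / 2) * w‖ := by
      have h6 := norm_sub_norm_le C ((1 / 2) * w)
      rw [norm_sub_rev] at h6
      linarith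
    have h7 : ‖(1 / 2 : ℂ) * w‖ = 1 / 2 * ‖w‖ := by
      rw [norm_mul]
      norm_num
    rw [h7] at h5
    linarith
  · rw [mob_inf_ne a b c d hc, phi_rat]
    have hc' : (0 : ℝ) < (c : ℝ) ^ 2 := by
      have h0 : (c : ℝ) ≠ 0 := by exact_mod_cast hc
      positivity
    have h1 : Tendsto (fun s : ℝ => ((c : ℝ) ^ 2 * s)⁻¹) atTop (𝓝[>] 0) :=
      tendsto_inv_atTop_nhdsGT_zero.comp (tendsto_id.const_mul_atTop hc')
    have h2 := (hVLN F hF W G hG hW (a / c : ℚ)).comp h1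
    have h3 : Tendsto (fun s : ℝ => ThI F W (((a : ℂ) * (-(d : ℂ) / c + s * Complex.I) + b) /
        ((c : ℂ) * (-(d : ℂ) / c + s * Complex.I) + d))) atTop (𝓝 (-IvQ F W (a / c : ℚ))) := by
      refine h2.congr' ?_
      filter_upwards [eventually_gt_atTop 0] with s hs
      rw [vert a b c d hdet hc s hs]
      rfl
    have h4 : Tendsto (fun s : ℝ => ThI F W (((a : ℂ) * (-(d : ℂ) / c + s * Complex.I) + b) /
        ((c : ℂ) * (-(d : ℂ) / c + s * Complex.I) + d))) atTop (𝓝 C) := by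
      rw [Metric.tendsto_nhds]
      intro ε hε
      obtain ⟨R, hR⟩ := hC ε hε
      filter_upwards [eventually_gt_atTop 0, eventually_ge_atTop R] with s hs hs2
      rw [dist_eq_norm]
      have him : (-(d : ℂ) / c + s * Complex.I).im = s := by
        have h0 : (-(d : ℂ) / c) = ((-(d : ℝ) / c : ℝ) : ℂ) := by push_cast; rfl
        rw [h0, Complex.add_im, Complex.ofReal_im, zero_add]
        simp
      exact hR _ (by rw [him]; exact hs2) (by rw [him]; exact hs)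
    exact tendsto_nhds_unique h4 h3

end

end Pool.Agent.MUXT


end

section

/-!
# MUX, block XT: module VLN, the limit of the primitive at a rational number
-/

set_option autoImplicit false

namespace Pool.Agent.MUXT

open _root_.MU3 _root_.Pool.Agent.MUX _root_.Pool.Agent.MuSym OnePoint Filter Topology
open scoped ComplexConjugate

theorem vln_tail {g : ℝ → ℂ} (hg : MeasureTheory.IntegrableOn g (Set.Ioi 0)) :
    Tendsto (fun t : ℝ => ∫ s in Set.Ioi t, g s) (𝓝[>] 0) (𝓝 (∫ s in Set.Ioi (0 : ℝ), g s)) := by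
  have h0 : Tendsto (fun t : ℝ => t) (𝓝[>] (0 : ℝ)) (𝓝 0) := tendsto_nhdsWithin_of_tendsto_nhds
    tendsto_id
  have h1 := MeasureTheory.aecover_Ioi_of_Ioi (μ := MeasureTheory.volume) h0
  have h2 := h1.integral_tendsto_of_countably_generated hg
  refine h2.congr' ?_
  filter_upwards [self_mem_nhdsWithin] with t ht
  rw [MeasureTheory.Measure.restrict_restrict measurableSet_Ioi]
  congr 2
  ext x
  simp only [Set.mem_inter_iff, Set.mem_Ioi] at *
  constructor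
  · intro h; exact h.1
  · intro h; exact ⟨h, lt_trans ht h⟩

theorem tx_VLN (hWBD : Xs_WBD) (hDIF : Xs_DIF) (hBND : Xs_BND) (hITG : Xs_ITG) : Xs_VLN := by
  intro F hF W G hG hP r
  have hBd : Bd W := hWBD.1 G W hG hP
  obtain ⟨_, _, hder⟩ := hDIF F hF W hBd
  have hint := hITG F hF W G hG hP r
  -- the functions
  have hT : ∀ z : ℂ, ThI F W z = (1 / 2) * ∑' y, tI F W z y := fun z => rfl
  have hth : ∀ z : ℂ, Th F W z = (1 / 2) * ∑' y, tm F W z y := fun z => rfl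
  have him : ∀ s : ℝ, ((r : ℂ) + s * Complex.I).im = s := by
    intro s
    rw [Complex.add_im, Complex.mul_im, Complex.I_im, Complex.I_re, Complex.ofReal_re,
      Complex.ofReal_im, ← Complex.ofReal_ratCast, Complex.ofReal_im]
    ring
  have hlin : ∀ s : ℝ, HasDerivAt (fun s : ℝ => (r : ℂ) + s * Complex.I) Complex.I s := by
    intro s
    have h1 := ((Complex.ofRealCLM.hasDerivAt (x := s)).mul_const Complex.I).const_add (r : ℂ)
    simpa using h1
  have hd : ∀ s : ℝ, 0 < s → HasDerivAt (fun s : ℝ => ThI F W ((r : ℂ) + s * Complex.I))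
      (-(2 * Real.pi) * Th F W ((r : ℂ) + s * Complex.I)) s := by
    intro s hs
    have h1 := hder ((r : ℂ) + s * Complex.I) (by rw [him]; exact hs)
    have h2 : HasDerivAt (ThI F W)
        ((1 / 2) * (2 * Real.pi * Complex.I * ∑' y, tm F W ((r : ℂ) + s * Complex.I) y))
        ((r : ℂ) + s * Complex.I) := h1.const_mul (1 / 2 : ℂ)
    have h3 := HasDerivAt.scomp s h2 (hlin s)
    have h4 : Complex.I • ((1 / 2 : ℂ) * (2 * Real.pi * Complex.I *
        ∑' y, tm F W ((r : ℂ) + s * Complex.I) y)) =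
        -(2 * Real.pi) * Th F W ((r : ℂ) + s * Complex.I) := by
      rw [hth, smul_eq_mul]
      linear_combination (Real.pi * ∑' y, tm F W ((r : ℂ) + s * Complex.I) y) * Complex.I_mul_I
    rw [h4] at h3
    exact h3
  have htop : Tendsto (fun s : ℝ => ThI F W ((r : ℂ) + s * Complex.I)) atTop (𝓝 0) := by
    obtain ⟨C, _, hC⟩ := hBND F hF W hBd
    have h1 : Tendsto (fun s : ℝ => (1 / 2 : ℝ) * (C * Real.exp (-(2 * Real.pi * s)))) atTop
        (𝓝 0) := by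
      have h2 : Tendsto (fun s : ℝ => 2 * Real.pi * s) atTop atTop :=
        tendsto_id.const_mul_atTop (by positivity)
      have h3 := (Real.tendsto_exp_neg_atTop_nhds_zero.comp h2).const_mul C
      have h4 := h3.const_mul (1 / 2 : ℝ)
      simpa [Function.comp_def] using h4
    refine squeeze_zero_norm' ?_ h1
    filter_upwards [eventually_ge_atTop (1 : ℝ)] with s hs
    have h5 := (hC ((r : ℂ) + s * Complex.I) (by rw [him]; exact hs)).2
    rw [him] at h5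
    rw [hT, norm_mul]
    have h6 : ‖(1 / 2 : ℂ)‖ = 1 / 2 := by norm_num
    rw [h6]
    linarith
  have hval : ∀ t : ℝ, 0 < t → ThI F W ((r : ℂ) + t * Complex.I) =
      (2 * Real.pi) * ∫ s in Set.Ioi t, Th F W ((r : ℂ) + s * Complex.I) := by
    intro t ht
    have h1 := MeasureTheory.integral_Ioi_of_hasDerivAt_of_tendsto' (a := t)
      (f := fun s : ℝ => ThI F W ((r : ℂ) + s * Complex.I))
      (f' := fun s : ℝ => -(2 * Real.pi) * Th F W ((r : ℂ) + s * Complex.I))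
      (fun x hx => hd x (lt_of_lt_of_le ht hx))
      ((hint.mono_set (Set.Ioi_subset_Ioi ht.le)).const_mul _) htop
    rw [MeasureTheory.integral_const_mul] at h1
    linear_combination h1
  have h5 := (vln_tail hint).const_mul (2 * (Real.pi : ℂ))
  have h6 : (2 * (Real.pi : ℂ)) * ∫ s in Set.Ioi (0 : ℝ), Th F W ((r : ℂ) + s * Complex.I) =
      -IvQ F W r := by
    unfold IvQ
    ring
  rw [h6] at h5
  refine h5.congr' ?_
  filter_upwards [self_mem_nhdsWithin] with t ht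
  exact (hval t ht).symm

end Pool.Agent.MUXT


end

section

/-!
# MUX, block XT: bounds (WBD)
-/

set_option autoImplicit false

namespace Pool.Agent.MUXT

open _root_.MU3 _root_.Pool.Agent.MuSym OnePoint
open _root_.Pool.Agent.MU3F (ex)

noncomputable section

theorem tx_WBD : Xs_WBD := by
  refine ⟨fun m W hm hW => ?_, ?_⟩
  · have hm' : (0 : ℤ) < (m : ℤ) := by exact_mod_cast hm
    refine ⟨∑ i ∈ Finset.range m, ∑ j ∈ Finset.range m, ‖W ((i : ℤ), (j : ℤ))‖, fun x => ?_⟩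
    have a1 := Int.emod_nonneg x.1 hm'.ne'
    have a2 := Int.emod_lt_of_pos x.1 hm'
    have b1 := Int.emod_nonneg x.2 hm'.ne'
    have b2 := Int.emod_lt_of_pos x.2 hm'
    have h1 : W x = W ((((x.1 % m).toNat : ℕ) : ℤ), (((x.2 % m).toNat : ℕ) : ℤ)) := by
      apply hW
      · rw [Int.toNat_of_nonneg a1]
        exact Int.dvd_self_sub_emod
      · rw [Int.toNat_of_nonneg b1]
        exact Int.dvd_self_sub_emod
    rw [h1]
    calc ‖W ((((x.1 % m).toNat : ℕ) : ℤ), (((x.2 % m).toNat : ℕ) : ℤ))‖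
        ≤ ∑ j ∈ Finset.range m, ‖W ((((x.1 % m).toNat : ℕ) : ℤ), (j : ℤ))‖ :=
          Finset.single_le_sum (f := fun j : ℕ => ‖W ((((x.1 % m).toNat : ℕ) : ℤ), (j : ℤ))‖)
            (fun _ _ => norm_nonneg _) (Finset.mem_range.2 (by omega))
      _ ≤ ∑ i ∈ Finset.range m, ∑ j ∈ Finset.range m, ‖W ((i : ℤ), (j : ℤ))‖ :=
          Finset.single_le_sum
            (f := fun i : ℕ => ∑ j ∈ Finset.range m, ‖W ((i : ℤ), (j : ℤ))‖)
            (fun _ _ => Finset.sum_nonneg fun _ _ => norm_nonneg _)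
            (Finset.mem_range.2 (by omega))
  · rintro F W G q t ⟨C, hC⟩
    have hex : ∀ r : ℚ, ‖ex r‖ = 1 := by
      intro r
      unfold ex
      rw [show 2 * (Real.pi : ℂ) * Complex.I * (r : ℂ) =
        ((2 * Real.pi * (r : ℝ) : ℝ) : ℂ) * Complex.I by push_cast; ring,
        Complex.norm_exp_ofReal_mul_I]
    refine ⟨∑ i ∈ Finset.range (q * G), ∑ j ∈ Finset.range (q * G), C, fun y => ?_⟩
    unfold WW sm
    refine (norm_sum_le _ _).trans (Finset.sum_le_sum fun i _ => ?_)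
    refine (norm_sum_le _ _).trans (Finset.sum_le_sum fun j _ => ?_)
    rw [norm_mul, norm_mul, hex, hex, mul_one, mul_one]
    exact hC _

end

end Pool.Agent.MUXT


end

section

/-!
# MUXT, module CLS: sums over `ℤ²` and over the classes modulo `m`
-/

set_option autoImplicit false

namespace Pool.Agent.MUXT

namespace CLS

open Finset

/-- shift of a periodic function of one variable -/
lemma shift1 (m : ℕ) (hm : 0 < m) (g : ℤ → ℂ) (hg : ∀ x y : ℤ, (m : ℤ) ∣ x - y → g x = g y) (v : ℤ) :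
    ∑ i ∈ range m, g ((i : ℤ) + v) = ∑ i ∈ range m, g (i : ℤ) := by
  have hmZ : (0 : ℤ) < (m : ℤ) := by exact_mod_cast hm
  set φ : ℕ → ℕ := fun i => (((i : ℤ) + v) % (m : ℤ)).toNat with hφ
  have hφc : ∀ i, ((φ i : ℕ) : ℤ) = ((i : ℤ) + v) % (m : ℤ) := fun i =>
    Int.toNat_of_nonneg (Int.emod_nonneg _ hmZ.ne')
  have hinj : Set.InjOn φ (range m : Finset ℕ) := by
    intro i hi j hj hij
    have hi' : i < m := mem_range.mp (by exact_mod_cast hi)
    have hj' : j < m := mem_range.mp (by exact_mod_cast hj)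
    have h1 : ((i : ℤ) + v) % (m : ℤ) = ((j : ℤ) + v) % (m : ℤ) := by
      rw [← hφc, ← hφc, hij]
    have h2 : (m : ℤ) ∣ ((i : ℤ) + v) - ((j : ℤ) + v) := Int.emod_eq_emod_iff_emod_sub_eq_zero.mp h1 |>
      Int.dvd_of_emod_eq_zero
    have h3 : (m : ℤ) ∣ (i : ℤ) - j := by
      have : ((i : ℤ) + v) - ((j : ℤ) + v) = (i : ℤ) - j := by ring
      rwa [this] at h2
    have h4 : (i : ℤ) - j = 0 := by
      apply Int.eq_zero_of_abs_lt_dvd h3
      rw [abs_lt]; constructor <;> omega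
    omega
  have himg : (range m).image φ = range m := by
    apply Finset.eq_of_subset_of_card_le
    · intro x hx
      obtain ⟨i, _, rfl⟩ := mem_image.mp hx
      rw [mem_range]
      have := Int.emod_lt_of_pos ((i : ℤ) + v) hmZ
      have h2 := hφc i
      omega
    · rw [Finset.card_image_of_injOn hinj]
  calc ∑ i ∈ range m, g ((i : ℤ) + v) = ∑ i ∈ range m, g ((φ i : ℕ) : ℤ) := by
        refine Finset.sum_congr rfl fun i _ => hg _ _ ?_
        rw [hφc]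
        exact Int.dvd_self_sub_emod
    _ = ∑ i ∈ (range m).image φ, g (i : ℤ) :=
        (Finset.sum_image (f := fun i : ℕ => g (i : ℤ)) hinj).symm
    _ = _ := by rw [himg]

/-- Chinese remainder theorem in one variable -/
lemma crt1 (d G : ℕ) (hd : 0 < d) (hG : 0 < G) (hc : Nat.Coprime d G) (g : ℤ → ℂ)
    (hg : ∀ x y : ℤ, ((d * G : ℕ) : ℤ) ∣ x - y → g x = g y) :
    ∑ i ∈ range (d * G), g (i : ℤ) =
      ∑ k ∈ range G, ∑ l ∈ range d, g ((d : ℤ) * (k : ℤ) + (G : ℤ) * (l : ℤ)) := by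
  have hdG : 0 < d * G := Nat.mul_pos hd hG
  set φ : ℕ × ℕ → ℕ := fun p => (d * p.1 + G * p.2) % (d * G) with hφ
  have hcZ : IsCoprime (d : ℤ) (G : ℤ) := Nat.isCoprime_iff_coprime.mpr hc
  have hinj : Set.InjOn φ ((range G ×ˢ range d : Finset (ℕ × ℕ)) : Set (ℕ × ℕ)) := by
    rintro ⟨k, l⟩ hp ⟨k', l'⟩ hp' h
    have hp1 := mem_product.mp (by exact_mod_cast hp : (k, l) ∈ range G ×ˢ range d)
    have hp2 := mem_product.mp (by exact_mod_cast hp' : (k', l') ∈ range G ×ˢ range d)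
    have hk : k < G := mem_range.mp hp1.1
    have hl : l < d := mem_range.mp hp1.2
    have hk' : k' < G := mem_range.mp hp2.1
    have hl' : l' < d := mem_range.mp hp2.2
    have h1 : (d * k + G * l) ≡ (d * k' + G * l') [MOD (d * G)] := h
    have h2 := (Nat.modEq_iff_dvd.mp h1)
    push_cast at h2
    have hGd : (G : ℤ) ∣ (d : ℤ) * ((k' : ℤ) - k) := by
      have h3 : (G : ℤ) ∣ ((d : ℤ) * k' + G * l') - (d * k + G * l) := (Dvd.intro_left _ rfl).trans h2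
      have h4 : (d : ℤ) * ((k' : ℤ) - k) =
          (((d : ℤ) * k' + G * l') - (d * k + G * l)) - G * ((l' : ℤ) - l) := by ring
      rw [h4]
      exact dvd_sub h3 (Dvd.intro _ rfl)
    have hdG' : (d : ℤ) ∣ (G : ℤ) * ((l' : ℤ) - l) := by
      have h3 : (d : ℤ) ∣ ((d : ℤ) * k' + G * l') - (d * k + G * l) := (Dvd.intro _ rfl).trans h2
      have h4 : (G : ℤ) * ((l' : ℤ) - l) =
          (((d : ℤ) * k' + G * l') - (d * k + G * l)) - d * ((k' : ℤ) - k) := by ring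
      rw [h4]
      exact dvd_sub h3 (Dvd.intro _ rfl)
    have e1 : (G : ℤ) ∣ (k' : ℤ) - k := hcZ.symm.dvd_of_dvd_mul_left hGd
    have e2 : (d : ℤ) ∣ (l' : ℤ) - l := hcZ.dvd_of_dvd_mul_left hdG'
    have e3 : (k' : ℤ) - k = 0 := by
      apply Int.eq_zero_of_abs_lt_dvd e1
      rw [abs_lt]; constructor <;> omega
    have e4 : (l' : ℤ) - l = 0 := by
      apply Int.eq_zero_of_abs_lt_dvd e2
      rw [abs_lt]; constructor <;> omega
    have e5 : k = k' := by omega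
    have e6 : l = l' := by omega
    rw [e5, e6]
  have himg : (range G ×ˢ range d).image φ = range (d * G) := by
    apply Finset.eq_of_subset_of_card_le
    · intro x hx
      obtain ⟨p, _, rfl⟩ := mem_image.mp hx
      exact mem_range.mpr (Nat.mod_lt _ hdG)
    · rw [Finset.card_image_of_injOn hinj, Finset.card_product, card_range, card_range, card_range,
        Nat.mul_comm]
  rw [← himg, Finset.sum_image hinj, Finset.sum_product]
  refine Finset.sum_congr rfl fun k _ => Finset.sum_congr rfl fun l _ => hg _ _ ?_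
  have h1 : (((d * k + G * l) % (d * G) : ℕ) : ℤ) = ((d : ℤ) * k + G * l) % ((d * G : ℕ) : ℤ) := by
    push_cast; rfl
  show ((d * G : ℕ) : ℤ) ∣ (((d * k + G * l) % (d * G) : ℕ) : ℤ) - _
  rw [h1]
  exact (dvd_sub_comm).mp Int.dvd_self_sub_emod

/-- sums over classes -/
lemma cls2 (m : ℕ) (hm : 0 < m) (f : Z2 → ℂ) (hf : Summable f) :
    ∑' x, f x = sm m (fun x => ∑' w : Z2, f (x.1 + m * w.1, x.2 + m * w.2)) := by
  have : NeZero m := ⟨hm.ne'⟩
  let e : Z2 ≃ (Fin m × Fin m) × Z2 :=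
    ((Equiv.prodCongr (Int.divModEquiv m) (Int.divModEquiv m)).trans
      (Equiv.prodProdProdComm ℤ (Fin m) ℤ (Fin m))).trans (Equiv.prodComm _ _)
  have he : ∀ p : (Fin m × Fin m) × Z2,
      e.symm p = ((p.1.1 : ℤ) + m * p.2.1, (p.1.2 : ℤ) + m * p.2.2) := by
    rintro ⟨⟨k, l⟩, ⟨a, b⟩⟩
    simp only [e, Equiv.symm_trans_apply, Equiv.prodComm_symm, Equiv.prodComm_apply, Prod.swap_prod_mk,
      Equiv.prodProdProdComm_symm, Equiv.prodProdProdComm_apply, Equiv.prodCongr_symm,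
      Equiv.prodCongr_apply, Prod.map_apply, Int.divModEquiv_symm_apply]
    ext <;> simp <;> ring
  rw [← e.symm.tsum_eq f]
  have hs : Summable (fun p => f (e.symm p)) := (e.symm.summable_iff (f := f)).mpr hf
  rw [hs.tsum_prod, tsum_fintype, Fintype.sum_prod_type]
  unfold sm
  rw [Finset.sum_range]
  refine Finset.sum_congr rfl fun k _ => ?_
  rw [Finset.sum_range]
  refine Finset.sum_congr rfl fun l _ => ?_
  refine tsum_congr fun w => ?_
  rw [he]

end CLS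

/-- (CLS) -/
theorem tx_CLS : Xs_CLS := by
  refine ⟨fun m hm f hf => CLS.cls2 m hm f hf, fun m hm f hf v => ?_, fun d G hd hG hc f hf => ?_⟩
  · unfold sm
    have h1 : ∀ i ∈ Finset.range m, ∑ j ∈ Finset.range m, f ((i : ℤ) + v.1, (j : ℤ) + v.2) =
        ∑ j ∈ Finset.range m, f ((i : ℤ) + v.1, (j : ℤ)) := by
      intro i _
      exact CLS.shift1 m hm (fun y => f ((i : ℤ) + v.1, y))
        (fun x y h => hf _ _ (by simp) h) v.2
    show ∑ i ∈ Finset.range m, ∑ j ∈ Finset.range m, f ((i : ℤ) + v.1, (j : ℤ) + v.2) = _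
    rw [Finset.sum_congr rfl h1, Finset.sum_comm, Finset.sum_comm (s := Finset.range m)
      (t := Finset.range m) (f := fun i j => f ((i : ℤ), (j : ℤ)))]
    refine Finset.sum_congr rfl fun j _ => ?_
    exact CLS.shift1 m hm (fun x => f (x, (j : ℤ))) (fun x y h => hf _ _ h (by simp)) v.1
  · unfold sm
    have hf' : ∀ x y : Z2, ((d * G : ℕ) : ℤ) ∣ x.1 - y.1 → ((d * G : ℕ) : ℤ) ∣ x.2 - y.2 →
        f x = f y := hf
    have h1 : ∀ i ∈ Finset.range (d * G), ∑ j ∈ Finset.range (d * G), f ((i : ℤ), (j : ℤ)) =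
        ∑ k ∈ Finset.range G, ∑ l ∈ Finset.range d, f ((i : ℤ), (d : ℤ) * (k : ℤ) + (G : ℤ) * (l : ℤ)) := by
      intro i _
      exact CLS.crt1 d G hd hG hc (fun y => f ((i : ℤ), y))
        (fun x y h => hf' _ _ (by simp) h)
    rw [Finset.sum_congr rfl h1]
    have h2 := CLS.crt1 d G hd hG hc (fun x => ∑ k ∈ Finset.range G, ∑ l ∈ Finset.range d,
      f (x, (d : ℤ) * (k : ℤ) + (G : ℤ) * (l : ℤ))) (fun x y h => by
        refine Finset.sum_congr rfl fun k _ => Finset.sum_congr rfl fun l _ => ?_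
        exact hf' _ _ h (by simp))
    rw [h2]
    refine Finset.sum_congr rfl fun k _ => ?_
    rw [Finset.sum_comm]

end Pool.Agent.MUXT


end

section

/-!
# MUX, block XT: regrouping as a power series (helper73)
-/

set_option autoImplicit false

namespace Pool.Agent.MUXT

open _root_.MU3 _root_.Pool.Agent.MUX _root_.Pool.Agent.MuSym OnePoint Filter Topology
open scoped ComplexConjugate

noncomputable section

/-- Regrouping as a power series. -/
theorem tx_REG (hQFF : Xs_QFF) (hDIF : Xs_DIF) : Xs_REG := by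
  intro F hF W hW M N hN hMN
  obtain ⟨-, -, -, -, hev, -, -⟩ := hQFF F hF
  obtain ⟨k, rfl⟩ := hMN
  have hM : M ≠ 0 := left_ne_zero_of_mul hN
  have hk : k ≠ 0 := right_ne_zero_of_mul hN
  set f : Z2 → ℕ := fun y => ((k : ℤ) * F.ev y - 1).toNat with hf
  set v : Z2 → ℂ := fun y => W y * F.lc y / (F.ev y : ℂ) with hv
  refine ⟨fun n => ∑' y : f ⁻¹' {n}, v y, ?_⟩
  intro τ hτ
  have hτM : 0 < (τ / (M : ℂ)).im := by
    rw [Complex.div_natCast_im]
    exact div_pos hτ (by exact_mod_cast Nat.pos_of_ne_zero hM)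
  have hs : Summable (tI F W (τ / M)) := ((hDIF F hF W hW).1 (τ / M) hτM).2
  set q : ℂ := Complex.exp (2 * Real.pi * Complex.I * τ / ((M * k : ℕ) : ℂ)) with hq
  have hterm : ∀ y, tI F W (τ / M) y = v y * q ^ (f y + 1) := by
    intro y
    by_cases hy : y = 0
    · subst hy
      have h1 : F.ev (0 : Z2) = 0 := by simp [QF.ev]
      simp [tI, hv, h1]
    · have h1 : 1 ≤ F.ev y := hev y hy
      have h2 : (1 : ℤ) ≤ (k : ℤ) := by exact_mod_cast Nat.pos_of_ne_zero hk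
      have h3 : 0 ≤ (k : ℤ) * F.ev y - 1 := by nlinarith
      have h4 : ((f y + 1 : ℕ) : ℤ) = (k : ℤ) * F.ev y := by
        rw [hf]
        push_cast
        rw [Int.toNat_of_nonneg h3]
        ring
      have h5 : ((f y + 1 : ℕ) : ℂ) = (k : ℂ) * (F.ev y : ℂ) := by
        have := congrArg (fun z : ℤ => (z : ℂ)) h4
        simpa using this
      have hMc : (M : ℂ) ≠ 0 := by exact_mod_cast hM
      have hkc : (k : ℂ) ≠ 0 := by exact_mod_cast hk
      unfold tI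
      rw [hq, ← Complex.exp_nat_mul, h5]
      congr 2
      push_cast
      field_simp
  have h1 : HasSum (fun y => v y * q ^ (f y + 1)) (∑' y, tI F W (τ / M) y) := by
    have h2 := hs.hasSum
    rwa [show tI F W (τ / M) = fun y => v y * q ^ (f y + 1) from funext hterm] at h2 ⊢
  have h3 := h1.tsum_fiberwise f
  have h5 : (fun n : ℕ => (∑' y : f ⁻¹' {n}, v y) * q ^ (n + 1)) =
      fun n : ℕ => ∑' y : f ⁻¹' {n}, v y * q ^ (f y + 1) := by
    funext n
    rw [← tsum_mul_right]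
    refine tsum_congr fun y => ?_
    have h4 : f y.1 = n := y.2
    rw [h4]
  rw [h5]
  exact h3

end

end Pool.Agent.MUXT


end

section

/-!
# MUX, block XT, module QFF: facts on binary forms (helper85)
-/

set_option autoImplicit false

namespace Pool.Agent.MUXT

namespace QFF

theorem tau_re (F : QF) : F.tau.re = (F.b : ℝ) / (2 * F.a) := by
  unfold QF.tau
  have h : ((F.b : ℂ) + Complex.I * ((Real.sqrt (F.D : ℝ) : ℝ) : ℂ)) / (2 * (F.a : ℂ)) =
      (((F.b : ℝ) / (2 * F.a) : ℝ) : ℂ) + (((Real.sqrt (F.D : ℝ)) / (2 * F.a) : ℝ) : ℂ) * Complex.I := by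
    push_cast
    ring
  rw [h, Complex.add_re, Complex.ofReal_re, Complex.re_ofReal_mul, Complex.I_re, mul_zero, add_zero]

theorem tau_im (F : QF) : F.tau.im = Real.sqrt (F.D : ℝ) / (2 * F.a) := by
  unfold QF.tau
  have h : ((F.b : ℂ) + Complex.I * ((Real.sqrt (F.D : ℝ) : ℝ) : ℂ)) / (2 * (F.a : ℂ)) =
      (((F.b : ℝ) / (2 * F.a) : ℝ) : ℂ) + (((Real.sqrt (F.D : ℝ)) / (2 * F.a) : ℝ) : ℂ) * Complex.I := by
    push_cast
    ring
  rw [h, Complex.add_im, Complex.ofReal_im, Complex.im_ofReal_mul, Complex.I_im, mul_one, zero_add]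

theorem norm_sq (F : QF) (hF : F.Pos) (x : Z2) :
    ((F.ev x : ℤ) : ℝ) = F.a * ‖(x.1 : ℂ) + x.2 * F.tau‖ ^ 2 := by
  have ha : (0 : ℝ) < F.a := by exact_mod_cast hF.a_pos
  have hD : (0 : ℝ) < F.D := by exact_mod_cast hF.D_pos
  have hre : ((x.1 : ℂ) + x.2 * F.tau).re = x.1 + x.2 * ((F.b : ℝ) / (2 * F.a)) := by
    rw [Complex.add_re, Complex.mul_re, tau_re]
    simp
  have him : ((x.1 : ℂ) + x.2 * F.tau).im = x.2 * (Real.sqrt (F.D : ℝ) / (2 * F.a)) := by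
    rw [Complex.add_im, Complex.mul_im, tau_im]
    simp
  rw [← Complex.normSq_eq_norm_sq, Complex.normSq_apply, hre, him]
  have hs : Real.sqrt (F.D : ℝ) * Real.sqrt (F.D : ℝ) = F.D := Real.mul_self_sqrt hD.le
  have e1 : (x.2 : ℝ) * (Real.sqrt (F.D : ℝ) / (2 * F.a)) * ((x.2 : ℝ) * (Real.sqrt (F.D : ℝ) / (2 * F.a))) =
      (x.2 : ℝ) ^ 2 * ((F.D : ℝ) / (2 * F.a) ^ 2) := by
    calc (x.2 : ℝ) * (Real.sqrt (F.D : ℝ) / (2 * F.a)) * ((x.2 : ℝ) * (Real.sqrt (F.D : ℝ) / (2 * F.a)))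
        = (x.2 : ℝ) ^ 2 * ((Real.sqrt (F.D : ℝ) * Real.sqrt (F.D : ℝ)) / (2 * F.a) ^ 2) := by
          field_simp
      _ = _ := by rw [hs]
  rw [e1]
  unfold QF.ev QF.D
  push_cast
  field_simp
  ring

theorem c_pos (F : QF) (hF : F.Pos) : 0 < F.c := by
  have h1 := hF.a_pos
  have h2 := hF.D_pos
  unfold QF.D at h2
  by_contra h
  push Not at h
  nlinarith [sq_nonneg F.b, mul_nonneg h1.le (neg_nonneg.mpr h)]

theorem ev_pos (F : QF) (hF : F.Pos) (x : Z2) (hx : x ≠ 0) : 1 ≤ F.ev x := by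
  have h1 := hF.a_pos
  have h2 := hF.D_pos
  have key : 4 * F.a * F.ev x = (2 * F.a * x.1 + F.b * x.2) ^ 2 + F.D * x.2 ^ 2 := by
    unfold QF.ev QF.D
    ring
  have hpos : 0 < 4 * F.a * F.ev x := by
    rw [key]
    by_cases h : x.2 = 0
    · have h3 : x.1 ≠ 0 := by
        intro h4
        exact hx (Prod.ext h4 h)
      have h5 : 0 < (2 * F.a * x.1) ^ 2 := by
        have : (2 * F.a * x.1) ≠ 0 := mul_ne_zero (mul_ne_zero two_ne_zero h1.ne') h3
        positivity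
      rw [h]
      nlinarith
    · have h5 : 0 < F.D * x.2 ^ 2 := by positivity
      nlinarith [sq_nonneg (2 * F.a * x.1 + F.b * x.2)]
  have h6 : 0 < 4 * F.a := by linarith
  have := pos_of_mul_pos_right hpos h6.le
  omega

theorem kappa (F : QF) (hF : F.Pos) :
    ∃ κ : ℝ, 0 < κ ∧ ∀ x : Z2, κ * ((x.1 : ℝ) ^ 2 + (x.2 : ℝ) ^ 2) ≤ F.ev x := by
  have ha : (0 : ℝ) < F.a := by exact_mod_cast hF.a_pos
  have hc : (0 : ℝ) < F.c := by exact_mod_cast c_pos F hF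
  have hD : (0 : ℝ) < F.D := by exact_mod_cast hF.D_pos
  have hDe : (F.D : ℝ) = 4 * F.a * F.c - F.b ^ 2 := by
    unfold QF.D
    push_cast
    ring
  set κ : ℝ := F.D / (4 * (F.a + F.c)) with hκ
  have hκ0 : 0 < κ := by positivity
  have hκe : κ * (4 * (F.a + F.c)) = F.D := by
    rw [hκ]
    field_simp
  have hκa : κ < F.a := by
    rw [hκ, div_lt_iff₀ (by positivity)]
    nlinarith [sq_nonneg (F.b : ℝ)]
  refine ⟨κ, hκ0, fun x => ?_⟩
  have hev : ((F.ev x : ℤ) : ℝ) = F.a * x.1 ^ 2 + F.b * x.1 * x.2 + F.c * x.2 ^ 2 := by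
    unfold QF.ev
    push_cast
    ring
  rw [hev]
  have h1 : 0 < (F.a : ℝ) - κ := by linarith
  have h2 : ((F.a : ℝ) - κ) * ((F.a * x.1 ^ 2 + F.b * x.1 * x.2 + F.c * x.2 ^ 2) -
      κ * ((x.1 : ℝ) ^ 2 + (x.2 : ℝ) ^ 2)) =
      (((F.a : ℝ) - κ) * x.1 + F.b / 2 * x.2) ^ 2 + κ ^ 2 * x.2 ^ 2 := by
    have h3 : ((F.a : ℝ) - κ) * (F.c - κ) - F.b ^ 2 / 4 = κ ^ 2 := by
      have : (F.b : ℝ) ^ 2 = 4 * F.a * F.c - κ * (4 * (F.a + F.c)) := by
        rw [hκe, hDe]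
        ring
      rw [this]
      ring
    have h4 : ((F.a : ℝ) - κ) * ((F.a * x.1 ^ 2 + F.b * x.1 * x.2 + F.c * x.2 ^ 2) -
      κ * ((x.1 : ℝ) ^ 2 + (x.2 : ℝ) ^ 2)) =
      (((F.a : ℝ) - κ) * x.1 + F.b / 2 * x.2) ^ 2 +
        (((F.a : ℝ) - κ) * (F.c - κ) - F.b ^ 2 / 4) * x.2 ^ 2 := by
      ring
    rw [h4, h3]
  have h5 : 0 ≤ ((F.a : ℝ) - κ) * ((F.a * x.1 ^ 2 + F.b * x.1 * x.2 + F.c * x.2 ^ 2) -
      κ * ((x.1 : ℝ) ^ 2 + (x.2 : ℝ) ^ 2)) := by
    rw [h2]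
    positivity
  have h6 := nonneg_of_mul_nonneg_right h5 h1
  linarith

theorem dvd (F : QF) (m : ℤ) (x y : Z2) (h1 : m ∣ x.1 - y.1) (h2 : m ∣ x.2 - y.2) :
    m ∣ F.ev x - F.ev y := by
  have e : F.ev x - F.ev y = (x.1 - y.1) * (F.a * (x.1 + y.1) + F.b * x.2) +
      (x.2 - y.2) * (F.c * (x.2 + y.2) + F.b * y.1) := by
    unfold QF.ev
    ring
  rw [e]
  exact dvd_add (Dvd.dvd.mul_right h1 _) (Dvd.dvd.mul_right h2 _)

end QFF

open _root_.Pool.Agent.MUXT.QFF in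
theorem tx_QFF : Xs_QFF := by
  intro F hF
  have ha : (0 : ℝ) < F.a := by exact_mod_cast hF.a_pos
  have hD : (0 : ℝ) < F.D := by exact_mod_cast hF.D_pos
  refine ⟨?_, tau_im F, norm_sq F hF, ?_, ev_pos F hF, kappa F hF, ?_⟩
  · rw [tau_im]
    have := Real.sqrt_pos.mpr hD
    positivity
  · intro x
    rw [norm_sq F hF x]
    unfold QF.lc
    rw [Complex.norm_conj]
  · intro m x y h1 h2
    exact dvd F m x y h1 h2

end Pool.Agent.MUXT


end

section

/-!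
# MU3, block FT: module MCO, `mob` and products of matrices, at `∞`
-/

set_option autoImplicit false

namespace Pool.Agent.MU3T

open _root_.MU3 _root_.Pool.Agent.MU3F _root_.Pool.Agent.MuSym OnePoint Filter Topology

lemma mob_infty' (a b c d : ℤ) :
    mob a b c d ∞ = if c = 0 then ∞ else ((a / c : ℚ) : OnePoint ℚ) := rfl

lemma mob_coe' (a b c d : ℤ) (r : ℚ) :
    mob a b c d (r : OnePoint ℚ) = if (c : ℚ) * r + d = 0 then ∞ else
      (((a * r + b) / (c * r + d) : ℚ) : OnePoint ℚ) := rfl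

/-- MCO. -/
theorem tu_MCO : Su_MCO := by
  refine ⟨fun x => ?_, fun a b c d a' b' c' d' h h' => ?_⟩
  · induction x using OnePoint.rec with
    | infty => exact ⟨1, 0, 0, 1, by norm_num, by simp [mob_infty']⟩
    | coe r =>
      have hq : (r.den : ℤ) ≠ 0 := by exact_mod_cast r.den_ne_zero
      have hcop : IsCoprime r.num (r.den : ℤ) := by
        rw [Int.isCoprime_iff_gcd_eq_one]
        exact r.reduced
      obtain ⟨u, v, huv⟩ := hcop
      refine ⟨r.num, -v, r.den, u, by linear_combination huv, ?_⟩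
      rw [mob_infty', if_neg hq]
      congr 1
      exact_mod_cast r.num_div_den
  · by_cases hc' : c' = 0
    · subst hc'
      have ha' : a' ≠ 0 := by
        rintro rfl
        simp at h'
      have haq : (a' : ℚ) ≠ 0 := by exact_mod_cast ha'
      rw [mob_infty' a' b' 0 d', if_pos rfl, mob_infty', mob_infty']
      by_cases hc : c = 0
      · subst hc
        simp
      · have h1 : c * a' + d * 0 ≠ 0 := by
          rw [mul_zero, add_zero]
          exact mul_ne_zero hc ha'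
        have hcq : (c : ℚ) ≠ 0 := by exact_mod_cast hc
        rw [if_neg hc, if_neg h1]
        congr 1
        push_cast
        field_simp
        ring
    · have hcq : (c' : ℚ) ≠ 0 := by exact_mod_cast hc'
      rw [mob_infty' a' b' c' d', if_neg hc', mob_coe', mob_infty']
      have e1 : (c : ℚ) * ((a' : ℚ) / c') + d = ((c * a' + d * c' : ℤ) : ℚ) / c' := by
        push_cast
        field_simp
      have e2 : (a : ℚ) * ((a' : ℚ) / c') + b = ((a * a' + b * c' : ℤ) : ℚ) / c' := by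
        push_cast
        field_simp
      by_cases h0 : c * a' + d * c' = 0
      · rw [if_pos h0, if_pos]
        rw [e1, h0]
        simp
      · have h1 : (((c * a' + d * c' : ℤ)) : ℚ) ≠ 0 := by exact_mod_cast h0
        rw [if_neg h0, if_neg]
        · congr 1
          rw [e1, e2]
          field_simp
        · rw [e1]
          exact div_ne_zero h1 hcq

end Pool.Agent.MU3T


end

section

/-!
# MUX, block H, bridge (helper16): from theta series of ideals to `HypA`, and the final statement of the block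

`StHX.lean` (helper27) is the abstract part: `HypA` implies `Sx_HA`. Here: for the family `R : Reps A B (p * f) ι`,
an odd character `e` of conductor dividing `f cjI P` and units `kk : ι → ℂ` the symbols
`PP R P e kk i = (Σ_c kk_c/e(N b_c) PhiI (b_c P^i) e)/om_(i0)` satisfy `HypA` (`Sy_BRG`), the quantity of the final
statement is a character sum of `PP .. 0` (`Sy_QSX`), and the final statement is `Sy_HFX`. Both `p = 3` and `p = 2`
(for `p = 2` with the factor `1/2`).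

Every statement is a `def Sy_X : Prop`; a module proves `theorem ty_X (h : ..) ... : Sy_X` in the file `HY_X.lean`,
namespace `Pool.Agent.MUXHY`; the hypotheses are the statements named under USES (fewer is fine). `Sx_..` in USES is
`Pool.Agent.MUXF.Sx_..` (`StXF.lean`), `Xs_FTI` is `Pool.Agent.MUXT.Xs_FTI` (`StXT.lean`). The structures `CQ`,
`IsEI`, `IsLI` exist twice (`MUX`, `MUXF`), with the conversions `toCQ`, `toEI`, `toLI` below; all functions
(`nI`, `cjI`, `PhiI`, `chiX` = `chiQ`, `nuX` = `nuQ`) are equal by `rfl` (lemmas below). `v = V.valuation`: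
`v x ≤ 1 ↔ x ∈ V`, `v x < 1 ↔ x ∈ V.nonunits` (`ValuationSubring.valuation_le_one_iff`,
`ValuationSubring.mem_nonunits_iff`).
-/

set_option autoImplicit false

namespace Pool.Agent.MUXHY

open _root_.MU3 _root_.Pool.Agent.MU3A _root_.Pool.Agent.MU3B _root_.Pool.Agent.MU3F _root_.Pool.Agent.MUX _root_.Pool.Agent.MUXH
  _root_.Pool.Agent.MuSym OnePoint
open scoped ComplexConjugate

noncomputable section

/-! ## The two sets of definitions -/

section
variable {A B : ℤ}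

lemma toCQ (h : CQ A B) : MUXF.CQ A B := ⟨h.hB, h.neg, h.fund1, h.fund0⟩

lemma toEI {g : Ideal (OO A B)} {e : OO A B → ℂ} (h : IsEI g e) : MUXF.IsEI g e :=
  ⟨h.one, h.mul, h.per, h.supp, h.neg⟩

lemma toLI {b : Ideal (OO A B)} {L : PeriodPair} {om : ℂ} (h : IsLI b L om) :
    MUXF.IsLI b L om := ⟨h.b_ne, h.om_ne, h.mem⟩

lemma nI_eq (b : Ideal (OO A B)) : MUXF.nI b = nI b := rfl

lemma cjI_eq (b : Ideal (OO A B)) : MUXF.cjI b = cjI b := rfl

lemma PhiI_eq (b : Ideal (OO A B)) (e : OO A B → ℂ) : MUXF.PhiI b e = PhiI b e := rfl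

lemma chiQ_eq (d : ℤ) : MUXF.chiQ A B d = chiX A B d := rfl

lemma chiQ_eq' (d : ℤ) : MUXT.chiQ A B d = chiX A B d := rfl

lemma nuQ_eq (e : OO A B → ℂ) : MUXF.nuQ e = nuX e := rfl

end

/-! ## The cycle of symbols -/

/-- `PP i = (Σ_c kk_c/e(N b_c) PhiI (b_c P^i) e)/om_(i0)` -/
def PP {A B : ℤ} {n : ℕ} {ι : Type} [Fintype ι] (R : Reps A B n ι) (P : Ideal (OO A B))
    (e : OO A B → ℂ) (kk : ι → ℂ) (i : ℕ) (x y : OnePoint ℚ) : ℂ :=
  (∑ c, kk c / e ((nI (R.b c) : ℕ) : OO A B) * PhiI (R.b c * P ^ i) e x y) / R.om R.i0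

/-- the level without its `p`-part: `|D| f²` -/
def N0X (A B : ℤ) (f : ℕ) : ℕ := (absD A B).toNat * f ^ 2

/-! ## Inputs from other blocks -/

/-- (RAT) rationality (helper41, `PAPER_X.md` section 9) -/
def Sy_RAT : Prop :=
  ∀ (A B : ℤ) (_ : CQ A B) (b : Ideal (OO A B)) (L : PeriodPair) (om : ℂ) (_ : IsNL b L om),
    (∀ (b' : Ideal (OO A B)) (L' : PeriodPair) (om' : ℂ), IsNL b' L' om' →
      IsAlgebraic ℚ (om / om')) ∧
    ∀ (g : Ideal (OO A B)) (e : OO A B → ℂ), g ≠ ⊥ → IsEI g e → ∀ x y : OnePoint ℚ,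
      IsAlgebraic ℚ (PhiI b e x y / om)

/-- (GX) Theorem G (helper3, `PAPER_X.md` section 10) -/
def Sy_GX : Prop :=
  ∀ (p : ℕ) (A B : ℤ) (P : Ideal (OO A B)) (V : ValuationSubring ℂ) (f : ℕ)
    (_ : SetP p A B P V f) (ι : Type) (_ : Fintype ι) (R : Reps A B (p * f) ι)
    (e : OO A B → ℂ) (_ : IsEI (idl f * cjI P) e) (kk : ι → ℂ) (_ : ∀ i, IsAlgebraic ℚ (kk i))
    (_ : ∀ i, V.valuation (kk i) ≤ 1) (_ : V.valuation (kk R.i0) = 1) (N' : ℕ) (_ : N' ≠ 0)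
    (_ : absD A B * ((p : ℤ) * f) ^ 2 ∣ (N' : ℤ)),
    ∃ a b c d : ℤ, a * d - b * c = 1 ∧ (N' : ℤ) ∣ c ∧ (N' : ℤ) ∣ d - 1 ∧
      1 ≤ V.valuation (PhiK R e kk ∞ (mob a b c d ∞) / R.om R.i0)

/-! ## Valuations and ideals -/

/-- (VAL) elementary valuations. Model: `MU3/H_VAL.lean`.

PROOF. `p` is 2 or 3 (`case.split`). `emb x` is integral over `ℤ` (a root of `T² - (x + star x) T + nm x`, or: `emb w = wC`, `wC² = A + B wC`) and `V` is
integrally closed (`ValuationSubring` is a valuation ring: a monic equation with coefficients in `V`), so `v (emb x) ≤ 1`. `OverI` and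
`hP.mem`: `v p < 1` (`emb (n : O) = n`). `v n = 1` for `p ∤ n`: Bezout, `v (a n + b p) = 1`. Roots of unity: `v z ^ r = 1` in a
linearly ordered group. -/
def Sy_VAL : Prop :=
  ∀ (p : ℕ) (A B : ℤ) (P : Ideal (OO A B)) (V : ValuationSubring ℂ) (f : ℕ)
    (_ : SetP p A B P V f),
    p.Prime ∧ V.valuation (p : ℂ) < 1 ∧ (∀ x : OO A B, V.valuation (emb x) ≤ 1) ∧
    (∀ x : OO A B, V.valuation (emb x) = 1 ↔ x ∉ P) ∧
    (∀ n : ℤ, V.valuation (n : ℂ) ≤ 1) ∧
    (∀ n : ℤ, ¬ (p : ℤ) ∣ n → V.valuation (n : ℂ) = 1) ∧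
    (∀ (r : ℕ) (z : ℂ), r ≠ 0 → z ^ r = 1 → V.valuation z = 1) ∧
    V.valuation (f : ℂ) = 1 ∧ V.valuation (absD A B : ℂ) = 1 ∧ 0 < absD A B ∧
    ¬ (p : ℤ) ∣ absD A B

/-- (IDE) the ideals `P`, `cjI P`, `f`.

USES `Sx_ALG` (`O/b` finite, domain, `star`), `Sx_IDL`, `Sx_NIM`. PROOF. `P ≠ ⊥`: `p ∈ P`. `P` and `cjI P` are maximal (prime, finite quotient). They are different: `O/P` has `p` elements, so every element of `O`
is congruent to an integer modulo `P`; let `w - c ∈ P` (`w = ⟨0, 1⟩`), `c ∈ ℤ`. If `cjI P = P` then `star w - c ∈ P`, so `w - star w = 2 w - B ∈ P` and `(2 w - B)² = B² + 4 A ∈ P`. But `P ∩ ℤ = p ℤ` (`P` is proper and contains `p`) and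
`p ∤ B² + 4 A` (`case.split`). So `IsCoprime P (cjI P)` (two different maximal ideals). `p`, `f` are coprime integers, `p ∈ P`, `p ∈ cjI P` (`star p = p`), so `P` and `cjI P` are coprime to `idl f`. `p f = f * p ∈ idl f * cjI P`. `absD ∣ f`:
`idl f ≤ sp absD`. `P ^ h = sp al`: `al ≠ 0` (`P ^ h ≠ ⊥`, domain); `sp al = P ^ h` is coprime to `idl f * cjI P` (`IsCoprime.pow_left`, `IsCoprime.mul_right`); `cjI (P ^ h) = (cjI P) ^ h` is `sp (star al)` (`starRingEnd` is an involutive ring automorphism), and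
`star al ∈ P` would give `(cjI P) ^ h ≤ P`, `cjI P ≤ P`, against coprimality. -/
def Sy_IDE : Prop :=
  ∀ (p : ℕ) (A B : ℤ) (P : Ideal (OO A B)) (V : ValuationSubring ℂ) (f : ℕ)
    (_ : SetP p A B P V f),
    P ≠ ⊥ ∧ P.IsMaximal ∧ IsCoprime P (cjI P) ∧ IsCoprime P (idl (A := A) (B := B) f) ∧
    idl f * cjI P ≠ ⊥ ∧ ((p * f : ℕ) : OO A B) ∈ idl f * cjI P ∧ idl f * cjI P ≤ cjI P ∧
    idl f * cjI P ≤ sp ((absD A B : ℤ) : OO A B) ∧ ((p : ℕ) : OO A B) ∈ cjI P ∧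
    ∀ (h : ℕ) (al : OO A B), 1 ≤ h → P ^ h = sp al →
      al ≠ 0 ∧ IsCoprime (sp al) (idl f * cjI P) ∧ star al ∉ P

/-- (CLN) a power of `P` is principal.

USES `Sx_ALG` (domain), `Sx_NIM` (cancellation `b c ≤ b c' ↔ c ≤ c'`). PROOF. `surj` for `P ^ i` (`≠ ⊥`): `sp x_i * P ^ i = sp y_i * b (c i)`. Pigeonhole: `i < j` with `c i = c j`: `(x_i y_j) P ^ i = (y_i y_j) b = (x_j y_i) P ^ j`. Cancel `P ^ i`: `sp (x_i y_j) = sp (x_j y_i) * P ^ (j - i)`. So
`x_i y_j = x_j y_i al` for some `al ∈ P ^ (j - i)`, and `sp (x_j y_i) * sp al = sp (x_j y_i) * P ^ (j - i)`; cancel. -/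
def Sy_CLN : Prop :=
  ∀ (A B : ℤ) (_ : CQ A B) (n : ℕ) (ι : Type) (_ : Fintype ι) (_ : Reps A B n ι)
    (P : Ideal (OO A B)), P ≠ ⊥ → ∃ (h : ℕ) (al : OO A B), 1 ≤ h ∧ P ^ h = sp al

/-! ## The character -/

/-- (ROU) the values of `e` are roots of unity.

USES `Sx_BDD` (finitely many values). PROOF. If `e x ≠ 0` then the powers `e x ^ n = e (x ^ n)`, `n ≥ 0`, are not all different, so `e x ^ k = 1` for some `k ≥ 1`. `r` = the product of such `k` over the finitely many nonzero values. -/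
def Sy_ROU : Prop :=
  ∀ (A B : ℤ) (_ : CQ A B) (g : Ideal (OO A B)) (e : OO A B → ℂ) (_ : g ≠ ⊥) (_ : IsEI g e),
    ∃ r : ℕ, r ≠ 0 ∧ ∀ x, e x ≠ 0 → e x ^ r = 1

/-- (CHR) the nebentypus.

USES VAL, IDE, ROU, `Sx_CHI`. PROOF. `g = idl f * cjI P`. `nuX e d = chiX d * e d`. `chiX` is multiplicative at all integers: `B = 1`: `jacobiSym.mul_left`; `B = 0`: if `d d' = 0` both sides are 0 (`Int.sign 0 = 0`), otherwise `Int.natAbs_mul`, `jacobiSym.mul_right`,
`Int.sign_mul`. `chiX 1 = 1`. `chiX` has values in `{0, 1, -1}` (`jacobiSym.trichotomy`), so `v (chiX d) ≤ 1`; `v (e d) ≤ 1` (0 or a root of unity). `e p = 0`: `p ∈ cjI P`, so `(p) + g ≤ cjI P` is not `⊤`.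
Periodicity: if `d` is not prime to `D` then `e d = 0`: a prime number `l` divides `d` and `D`, so `(d) + g ≤ (l)` (`g ≤ sp absD`), which is not `⊤` (norm, or `l` does not divide `1` in `ℤ[w]`). If `p |D| f²` divides `d - d'` and `d` is not prime to `D` then `d'` is not
prime to `D`, and both sides are 0. If `d`, `d'` are prime to `D`: `Sx_CHI` and `d - d' ∈ g` (`p f ∣ p |D| f²`). -/
def Sy_CHR : Prop :=
  ∀ (p : ℕ) (A B : ℤ) (P : Ideal (OO A B)) (V : ValuationSubring ℂ) (f : ℕ)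
    (_ : SetP p A B P V f) (e : OO A B → ℂ) (_ : IsEI (idl f * cjI P) e),
    nuX e 1 = 1 ∧ nuX e p = 0 ∧ (∀ d d', nuX e (d * d') = nuX e d * nuX e d') ∧
    (∀ d d' : ℤ, ((p * N0X A B f : ℕ) : ℤ) ∣ d - d' → nuX e d = nuX e d') ∧
    (∀ d, V.valuation (nuX e d) ≤ 1)

/-- (EIG) the eigenvalue of `U_p ^ h`.

USES VAL, IDE, ROU. PROOF. `e al ≠ 0` (`supp`, IDE), a root of unity, so of valuation 1 and algebraic. `conj (emb al) = emb (star al)`, of valuation 1 because `star al ∉ P` (IDE, VAL); `emb x` is algebraic. -/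
def Sy_EIG : Prop :=
  ∀ (p : ℕ) (A B : ℤ) (P : Ideal (OO A B)) (V : ValuationSubring ℂ) (f : ℕ)
    (_ : SetP p A B P V f) (e : OO A B → ℂ) (_ : IsEI (idl f * cjI P) e) (h : ℕ)
    (al : OO A B) (_ : 1 ≤ h) (_ : P ^ h = sp al),
    V.valuation (e al * conj (emb al)) = 1 ∧ IsAlgebraic ℚ (e al * conj (emb al))

/-! ## The symbols `PP i` -/

/-- (SYM) `PP i` is a symbol, `U_p PP i = PP (i + 1)`, `PP h = a PP 0`.

USES IDE, `Xs_FTI`, `Sx_HU`, `Sx_PRI`, `Sx_NIM`. PROOF. `g = idl f * cjI P`. (1) `Xs_FTI` for the ideal `b_c P^i` (`≠ ⊥`), `G = p f`, `N = p^2 |D| f²`: `(G : O) ∣ x - y` gives `x - y ∈ g`, `e x = e y`. `IsSym` is closed under linear combinations. (2) `Sx_HU` for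
`b_c P^i`, `l = p`: `hecke` is linear, `b_c P^i P = b_c P^(i+1)`. (3) `b_c P^h = sp al * b_c`, `Sx_PRI`. -/
def Sy_SYM : Prop :=
  ∀ (p : ℕ) (A B : ℤ) (P : Ideal (OO A B)) (V : ValuationSubring ℂ) (f : ℕ)
    (_ : SetP p A B P V f) (ι : Type) (_ : Fintype ι) (R : Reps A B (p * f) ι)
    (e : OO A B → ℂ) (_ : IsEI (idl f * cjI P) e) (kk : ι → ℂ),
    (∀ i, IsSym (p ^ (1 + 1) * N0X A B f) (nuX e) (PP R P e kk i)) ∧
    (∀ i x y, hecke p (nuX e) (PP R P e kk i) x y = PP R P e kk (i + 1) x y) ∧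
    ∀ (h : ℕ) (al : OO A B), 1 ≤ h → P ^ h = sp al → ∀ x y,
      PP R P e kk h x y = e al * conj (emb al) * PP R P e kk 0 x y

/-- (ALF) the values of `PP 0` are algebraic and in a finitely generated group.

USES IDE, ROU, RAT, `Xs_FTI`, `Sx_F7`. PROOF. `g = idl f * cjI P ≠ ⊥`. Algebraic: `kk_c/e(N b_c) * (PhiI b_c e x y/om_c) * (om_c/om_(i0))` (`P ^ 0 = 1`). Finitely generated: for every `c` a finite set `S_c` from `Sx_F7` (with `IsSym` from `Xs_FTI`, `G = p f`, `N = p² |D| f²`);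
`T` = the numbers `kk_c/e(N b_c)/om_(i0) * s`, `s ∈ S_c`. -/
def Sy_ALF : Prop :=
  ∀ (p : ℕ) (A B : ℤ) (P : Ideal (OO A B)) (V : ValuationSubring ℂ) (f : ℕ)
    (_ : SetP p A B P V f) (ι : Type) (_ : Fintype ι) (R : Reps A B (p * f) ι)
    (e : OO A B → ℂ) (_ : IsEI (idl f * cjI P) e) (kk : ι → ℂ) (_ : ∀ i, IsAlgebraic ℚ (kk i)),
    (∀ x y, IsAlgebraic ℚ (PP R P e kk 0 x y)) ∧
    ∃ T : Finset ℂ, ∀ x y, PP R P e kk 0 x y ∈ AddSubgroup.closure (T : Set ℂ)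

/-- (PRX) the projector with integral coefficients.

USES VAL, IDE, `Sx_PHX`, `Sx_PRJ`. PROOF. `q = |D|` (as a natural number), `φ` from `Sx_PHX`, `c t = (1/q) Σ_(n < q) φ n ex(-(t n)/q)`: `v q = 1`, `φ n` is 0 or 1, `ex(..) ^ q = 1` so `v (ex ..) = 1`. `Sx_PRJ` for `b_c` (`b_c P^0 = b_c`) and linearity of `sgnPart` in the symbol. -/
def Sy_PRX : Prop :=
  ∀ (p : ℕ) (A B : ℤ) (P : Ideal (OO A B)) (V : ValuationSubring ℂ) (f : ℕ)
    (_ : SetP p A B P V f) (ι : Type) (_ : Fintype ι) (R : Reps A B (p * f) ι)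
    (e : OO A B → ℂ) (_ : IsEI (idl f * cjI P) e) (kk : ι → ℂ) (s : ℂ),
    ∃ (q : ℕ) (c : ℕ → ℂ), q ≠ 0 ∧ (∀ t, V.valuation (c t) ≤ 1) ∧ ∀ x y : OnePoint ℚ,
      ∑ t ∈ Finset.range q, c t * sgnPart s (PP R P e kk 0) (mob q t 0 q x) (mob q t 0 q y) =
        PP R P e kk 0 x y

/-- (BRG) the hypotheses of the abstract part. Glue (helper16).

USES VAL, IDE, ROU, CHR, EIG, SYM, ALF, PRX, GX. PROOF. `e (N b_c) ≠ 0` and it is a root of unity (`N b_c` is prime to `p f`), so `kk_c/e(N b_c)` is algebraic of valuation 1: GX. -/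
def Sy_BRG : Prop :=
  ∀ (p : ℕ) (A B : ℤ) (P : Ideal (OO A B)) (V : ValuationSubring ℂ) (f : ℕ)
    (_ : SetP p A B P V f) (ι : Type) (_ : Fintype ι) (R : Reps A B (p * f) ι)
    (e : OO A B → ℂ) (_ : IsEI (idl f * cjI P) e) (kk : ι → ℂ) (_ : ∀ i, IsAlgebraic ℚ (kk i))
    (_ : ∀ i, V.valuation (kk i) = 1) (s : ℤ) (_ : s = 1 ∨ s = -1) (h : ℕ) (al : OO A B)
    (_ : 1 ≤ h) (_ : P ^ h = sp al),
    HypA p V (N0X A B f) 1 h (e al * conj (emb al)) (nuX e) (PP R P e kk) s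

/-! ## The character sum -/

/-- (QSX) the quantity of the final statement as a character sum. Model: `MU3/H_QS.lean` (copy and adapt).

USES `Sx_F5`, `Sx_PRD`. PROOF. `m = lvX p f n = f M`, `M = q0 p * p ^ n` (a power of `p`). `Sx_F5` for `b_i`, `L_i`, `om_i` (`nl i`; `m ∈ g` because `p f ∈ g` and `p ∣ q0 p`; `N b_i` is prime to `p f`, so to `m`): `SnX i c = (2 f/(om_(i0) e(N b_i))) Σ_(b < M) ex(-b c/M) PhiI b_i e ∞ (b/M)`
(`mu_i = om_i N b_i/om_(i0)`, `m/M = f`), so `Σ_i kk_i SnX i c = 2 f Σ_b ex(-b c/M) F b`, `F b = PP R P e kk 0 ∞ (b/M)` (`P ^ 0 = 1`). `F` depends only on the class of `b` modulo `M`: `Sx_PRD` gives `IvI b e (r + k) = IvI b e r`. The rest as in `H_QS.lean` with `4`, `6 f`, `3 ^ (n + 1)`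
replaced by `1 + q0 p`, `2 q0 p f`, `M`: both `1 + q0 p` and `a = aX p f = 1 + 2 q0 p f` are prime to `M`; the substitutions `b = u^(N-j) b'` and `b = u^(N-j) a² b'` (`u = 1 + q0 p`) in the sums `W c = Σ_b ex(-b c/M) (F b + s F (-b))`. -/
def Sy_QSX : Prop :=
  ∀ (p : ℕ) (_ : p.Prime) (A B : ℤ) (_ : CQ A B) (P : Ideal (OO A B)) (f : ℕ) (_ : f ≠ 0)
    (ι : Type) (_ : Fintype ι) (R : Reps A B (p * f) ι) (g : Ideal (OO A B)) (e : OO A B → ℂ)
    (_ : IsEI g e) (_ : ((p * f : ℕ) : OO A B) ∈ g) (kk : ι → ℂ) (s : ℤ) (N n : ℕ),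
    ∑ j ∈ Finset.range (N + 1), ((-1 : ℂ) ^ (N - j) * (N.choose j : ℂ)) *
        (STX R (lvX p f n) (q0 p * p ^ n) (aX p f) e kk ((1 + (q0 p : ℤ)) ^ j) +
          s * STX R (lvX p f n) (q0 p * p ^ n) (aX p f) e kk (-(1 + (q0 p : ℤ)) ^ j)) =
      2 * f * ∑ b ∈ Finset.range (q0 p * p ^ n),
        ex (-((1 + (q0 p : ℚ)) ^ N * (aX p f : ℚ) ^ 2) / ((q0 p * p ^ n : ℕ) : ℚ)) ^ b *
          comb (aX p f) (1 + (q0 p : ℤ)) N (fun b => sgnPart (s : ℂ) (PP R P e kk 0) ∞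
            ((b / ((q0 p * p ^ n : ℕ) : ℚ) : ℚ) : OnePoint ℚ)) b

/-! ## The final statement -/

/-- (HFX) THE RESULT of block H: for `n` large in one residue class modulo `h` the combination is not small. For
`p = 2` it is divided by 2.

USES `Pool.Agent.MUXH.Sx_HA`, VAL, IDE, BRG, QSX, CLN. Glue (helper16). PROOF. `h`, `al` from CLN. `r₁` from `Sx_HA` for BRG. `p ^ (n + l) = q0 p * p ^ n`, `l = 1` (`p` odd) or `2` (`p = 2`); `r = r₁ + h l - l`. `α = aX p f`, `g = 1 + q0 p`, `E = p - 1`. `ζ = ex(-(g^N α²)/M)` is a primitive root of order `M`,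
so `v p < v(Σ)^(p-1)`, and the quantity is `2 f Σ` (QSX), with the factor `f Σ` for `p = 2`; `v f = 1`, `v 2 = 1` for `p` odd. -/
def Sy_HFX : Prop :=
  ∀ (p : ℕ) (A B : ℤ) (P : Ideal (OO A B)) (V : ValuationSubring ℂ) (f : ℕ)
    (_ : SetP p A B P V f) (ι : Type) (_ : Fintype ι) (R : Reps A B (p * f) ι)
    (e : OO A B → ℂ) (_ : IsEI (idl f * cjI P) e) (kk : ι → ℂ) (_ : ∀ i, IsAlgebraic ℚ (kk i))
    (_ : ∀ i, V.valuation (kk i) = 1) (s : ℤ) (_ : s = 1 ∨ s = -1),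
    ∃ h r : ℕ, 1 ≤ h ∧ ∀ N : ℕ, 1 ≤ N → ∃ n₀ : ℕ, ∀ n, n₀ ≤ n → n % h = r % h →
      ¬ HfX p V ((if p = 2 then 1 / 2 else 1) *
        ∑ j ∈ Finset.range (N + 1), ((-1 : ℂ) ^ (N - j) * (N.choose j : ℂ)) *
          (STX R (lvX p f n) (q0 p * p ^ n) (aX p f) e kk ((1 + (q0 p : ℤ)) ^ j) +
            s * STX R (lvX p f n) (q0 p * p ^ n) (aX p f) e kk (-(1 + (q0 p : ℤ)) ^ j)))

end

end Pool.Agent.MUXHY


end

section

/-!
# MUX, block HY: the hypotheses of the abstract part (module BRG, glue)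
-/

set_option autoImplicit false

namespace Pool.Agent.MUXHY

open _root_.MU3 _root_.Pool.Agent.MU3A _root_.Pool.Agent.MU3B _root_.Pool.Agent.MU3F _root_.Pool.Agent.MUX _root_.Pool.Agent.MUXH
  _root_.Pool.Agent.MuSym OnePoint
open scoped ComplexConjugate

noncomputable section

namespace Brg

variable {A B : ℤ}

lemma PP_zero {n : ℕ} {ι : Type} [Fintype ι] (R : Reps A B n ι) (P : Ideal (OO A B))
    (e : OO A B → ℂ) (kk : ι → ℂ) (x y : OnePoint ℚ) :
    PP R P e kk 0 x y =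
      PhiK R e (fun c => kk c / e ((nI (R.b c) : ℕ) : OO A B)) x y / R.om R.i0 := by
  unfold PP PhiK
  simp only [pow_zero, mul_one]

lemma e_nI {n : ℕ} {ι : Type} (R : Reps A B n ι) {g : Ideal (OO A B)} {e : OO A B → ℂ}
    (he : IsEI g e) (hn : ((n : ℕ) : OO A B) ∈ g) (c : ι) :
    e ((nI (R.b c) : ℕ) : OO A B) ≠ 0 := by
  rw [he.supp]
  have h1 : IsCoprime ((nI (R.b c) : ℕ) : ℤ) (n : ℤ) := Nat.isCoprime_iff_coprime.mpr (R.cop c)
  obtain ⟨u, w, huw⟩ := h1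
  rw [Ideal.isCoprime_iff_exists]
  refine ⟨(u : OO A B) * ((nI (R.b c) : ℕ) : OO A B), ?_, (w : OO A B) * ((n : ℕ) : OO A B), ?_, ?_⟩
  · exact Ideal.mul_mem_left _ _ (Ideal.mem_span_singleton_self _)
  · exact Ideal.mul_mem_left _ _ hn
  · have := congrArg (fun z : ℤ => (z : OO A B)) huw
    push_cast at this
    exact this

lemma N0X_cast (f : ℕ) (h : 0 < absD A B) :
    ((N0X A B f : ℕ) : ℤ) = absD A B * (f : ℤ) ^ 2 := by
  unfold N0X
  push_cast
  rw [Int.toNat_of_nonneg h.le]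

end Brg

open _root_.Pool.Agent.MUXHY.Brg in
theorem ty_BRG (h1 : Sy_VAL) (h2 : Sy_IDE) (h3 : Sy_ROU) (h4 : Sy_CHR) (h5 : Sy_EIG)
    (h6 : Sy_SYM) (h7 : Sy_ALF) (h8 : Sy_PRX) (h9 : Sy_GX) : Sy_BRG := by
  intro p A B P V f hS ι hι R e he kk hka hkv s hs h al hh hal
  obtain ⟨pp, vp, -, -, -, -, vr, -, -, D0, pD⟩ := h1 p A B P V f hS
  obtain ⟨-, -, -, -, gne, pfg, -, -, -, -⟩ := h2 p A B P V f hS
  obtain ⟨r, r0, hr⟩ := h3 A B hS.case.toCQ _ e gne he
  obtain ⟨nu1, nup, num, nuper, nuv⟩ := h4 p A B P V f hS e he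
  obtain ⟨va, alga⟩ := h5 p A B P V f hS e he h al hh hal
  obtain ⟨sym, hec, per⟩ := h6 p A B P V f hS ι hι R e he kk
  obtain ⟨alg, fin⟩ := h7 p A B P V f hS ι hι R e he kk hka
  have hN0c := N0X_cast (A := A) (B := B) f D0
  have hN0 : N0X A B f ≠ 0 := by
    intro h0
    rw [h0] at hN0c
    have : (0 : ℤ) < absD A B * (f : ℤ) ^ 2 :=
      mul_pos D0 (pow_pos (by exact_mod_cast Nat.pos_of_ne_zero hS.f0) 2)
    rw [← hN0c] at this
    exact absurd this (by norm_num)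
  have hcop : p.Coprime (N0X A B f) := by
    rw [Nat.Prime.coprime_iff_not_dvd pp]
    intro hd
    have h1 : (p : ℤ) ∣ absD A B * (f : ℤ) ^ 2 := by
      rw [← hN0c]
      exact_mod_cast hd
    rcases (Nat.prime_iff_prime_int.mp pp).dvd_or_dvd h1 with h2 | h2
    · exact pD h2
    · exact hS.fp (by exact_mod_cast (Nat.prime_iff_prime_int.mp pp).dvd_of_dvd_pow h2)
  have hke : ∀ c, V.valuation (e ((nI (R.b c) : ℕ) : OO A B)) = 1 := fun c =>
    vr r _ r0 (hr _ (e_nI R he pfg c))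
  have hea : ∀ c, IsAlgebraic ℚ (e ((nI (R.b c) : ℕ) : OO A B)) := by
    intro c
    have h0 : IsIntegral ℚ ((e ((nI (R.b c) : ℕ) : OO A B)) ^ r) := by
      rw [hr _ (e_nI R he pfg c)]
      exact isIntegral_one
    exact (IsIntegral.of_pow (Nat.pos_of_ne_zero r0) h0).isAlgebraic
  refine { pp := pp, vp := vp, N0 := hN0, cop := hcop, h1 := hh, va := va, alga := alga,
           nu1 := nu1, nup := nup, num := num, nuper := nuper, nuv := nuv, sym := sym,
           hec := hec, per := per h al hh hal, alg := alg, fin := fin, s1 := hs, G := ?_,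
           prj := h8 p A B P V f hS ι hι R e he kk (s : ℂ) }
  intro N' hN' hdvd
  have hd : absD A B * ((p : ℤ) * f) ^ 2 ∣ (N' : ℤ) := by
    have h0 : ((p ^ (1 + 1) * N0X A B f : ℕ) : ℤ) ∣ (N' : ℤ) := Int.natCast_dvd_natCast.mpr hdvd
    push_cast at h0
    rw [hN0c] at h0
    refine dvd_trans (dvd_of_eq ?_) h0
    ring
  obtain ⟨a, b, c, d, hdet, hc, hd1, hv⟩ := h9 p A B P V f hS ι hι R e he
    (fun c => kk c / e ((nI (R.b c) : ℕ) : OO A B)) (fun c => (hka c).mul (hea c).inv)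
    (fun c => by simp only [map_div₀, hkv, hke, div_one, le_refl])
    (by simp only [map_div₀, hkv, hke, div_one]) N' hN' hd
  refine ⟨a, b, c, d, hdet, hc, hd1, ?_⟩
  rw [PP_zero]
  exact hv

end

end Pool.Agent.MUXHY


end

section

/-!
# MUX, block E, module CTX (helper79): from `SetP` to `CtxE`
-/

set_option autoImplicit false

open WeierstrassCurve Polynomial NumberField IsDedekindDomain

namespace Pool.Agent.MUXE

open _root_.MU3 _root_.Pool.Agent.MU3A _root_.Pool.Agent.MU3B _root_.Pool.Agent.MUX _root_.Pool.Agent.MUXU _root_.Pool.Agent.RI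

noncomputable section

namespace CtxX

variable {A B : ℤ}

theorem decomp (x : OO A B) :
    x = ((x.re : ℤ) : OO A B) + ((x.im : ℤ) : OO A B) * (⟨0, 1⟩ : OO A B) := by
  apply QuadraticAlgebra.ext
  · simp
  · simp

theorem w_sq (A B : ℤ) : (⟨0, 1⟩ : OO A B) * ⟨0, 1⟩ =
    ((A : ℤ) : OO A B) + ((B : ℤ) : OO A B) * (⟨0, 1⟩ : OO A B) := by
  apply QuadraticAlgebra.ext
  · simp
  · simp

/-- an ideal of prime norm (as module DGI of block R, helper96) -/
theorem dgi (Q : Ideal (OO A B)) (q : ℕ) (hq : q.Prime) (hcard : Nat.card (OO A B ⧸ Q) = q) :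
    ∃ r : ℤ, (q : ℤ) ∣ r ^ 2 - B * r - A ∧ ∀ x : OO A B, x ∈ Q ↔ (q : ℤ) ∣ x.re + x.im * r := by
  have hfact : Fact q.Prime := ⟨hq⟩
  have hfin : Finite (OO A B ⧸ Q) := Nat.finite_of_card_ne_zero (by rw [hcard]; exact hq.ne_zero)
  have hft : Fintype (OO A B ⧸ Q) := Fintype.ofFinite _
  have hcard' : Fintype.card (OO A B ⧸ Q) = q := by
    rw [← Nat.card_eq_fintype_card]; exact hcard
  let φ : ZMod q ≃+* (OO A B ⧸ Q) := ZMod.ringEquivOfPrime (OO A B ⧸ Q) hq hcard'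
  let f : OO A B →+* ZMod q := φ.symm.toRingHom.comp (Ideal.Quotient.mk Q)
  obtain ⟨r, hr⟩ : ∃ r : ℤ, (r : ZMod q) = f ⟨0, 1⟩ := ZMod.intCast_surjective _
  have hfx : ∀ x : OO A B, f x = ((x.re + x.im * r : ℤ) : ZMod q) := by
    intro x
    have h1 := congrArg f (decomp x)
    rw [map_add, map_mul, map_intCast, map_intCast, ← hr] at h1
    rw [h1]
    push_cast
    rfl
  refine ⟨r, ?_, ?_⟩
  · have h1 := congrArg f (w_sq A B)
    rw [map_add, map_mul, map_mul, map_intCast, map_intCast, ← hr] at h1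
    rw [← ZMod.intCast_zmod_eq_zero_iff_dvd]
    push_cast
    linear_combination h1
  · intro x
    have h1 : x ∈ Q ↔ f x = 0 := by
      have h2 : f x = φ.symm (Ideal.Quotient.mk Q x) := rfl
      rw [h2, EmbeddingLike.map_eq_zero_iff, Ideal.Quotient.eq_zero_iff_mem]
    rw [h1, hfx, ZMod.intCast_zmod_eq_zero_iff_dvd]

/-- lift of the root modulo `p²` -/
theorem lift {p r : ℤ} (h : p ∣ r ^ 2 - B * r - A) (hd : p ∣ B ^ 2 + 4 * A - 1) :
    ∃ s : ℤ, p ^ 2 ∣ s ^ 2 - B * s - A ∧ p ∣ s - r := by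
  obtain ⟨k, hk⟩ := h
  obtain ⟨l, hl⟩ := hd
  -- `(2 r - B)² - p (l + 4 k) = 1`
  have h1 : (2 * r - B) ^ 2 - p * (l + 4 * k) = 1 := by linear_combination 4 * hk + hl
  refine ⟨r - p * k * (2 * r - B), ⟨-k * (l + 4 * k) + k ^ 2 * (2 * r - B) ^ 2, ?_⟩,
    ⟨-(k * (2 * r - B)), by ring⟩⟩
  linear_combination hk - p * k * h1

/-- `p` is not in `P²` -/
theorem not_sq {p : ℕ} (hp : p.Prime) (hd : (p : ℤ) ∣ B ^ 2 + 4 * A - 1) {P : Ideal (OO A B)}
    (hcard : Nat.card (OO A B ⧸ P) = p) : ((p : ℕ) : OO A B) ∉ P ^ 2 := by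
  intro hmem
  rw [pow_two] at hmem
  obtain ⟨r, hr, hP⟩ := dgi P p hp hcard
  obtain ⟨s, hs, hsr⟩ := lift hr hd
  have hP' : ∀ x ∈ P, (p : ℤ) ∣ x.re + x.im * s := by
    intro x hx
    have h1 := (hP x).1 hx
    have h2 : x.re + x.im * s = (x.re + x.im * r) + x.im * (s - r) := by ring
    rw [h2]
    exact dvd_add h1 (Dvd.dvd.mul_left hsr _)
  have key : ∀ y ∈ P * P, ((p : ℤ)) ^ 2 ∣ y.re + y.im * s := by
    intro y hy
    refine Submodule.mul_induction_on (C := fun y : OO A B => ((p : ℤ)) ^ 2 ∣ y.re + y.im * s)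
      hy ?_ ?_
    · intro x hx y hy
      have h1 : (x * y).re + (x * y).im * s = (x.re + x.im * s) * (y.re + y.im * s) -
          x.im * y.im * (s ^ 2 - B * s - A) := by
        rw [QuadraticAlgebra.re_mul, QuadraticAlgebra.im_mul]
        ring
      show ((p : ℤ)) ^ 2 ∣ (x * y).re + (x * y).im * s
      rw [h1]
      refine dvd_sub ?_ (Dvd.dvd.mul_left hs _)
      rw [pow_two]
      exact mul_dvd_mul (hP' x hx) (hP' y hy)
    · intro x y hx hy
      have h1 : (x + y).re + (x + y).im * s = (x.re + x.im * s) + (y.re + y.im * s) := by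
        rw [QuadraticAlgebra.re_add, QuadraticAlgebra.im_add]
        ring
      show ((p : ℤ)) ^ 2 ∣ (x + y).re + (x + y).im * s
      rw [h1]
      exact dvd_add hx hy
  have h1 := key _ hmem
  have h2 : ((p : ℕ) : OO A B).re = p := by simp
  have h3 : ((p : ℕ) : OO A B).im = 0 := by simp
  rw [h2, h3, zero_mul, add_zero, pow_two] at h1
  have hp0 : (p : ℤ) ≠ 0 := by exact_mod_cast hp.ne_zero
  have h4 : (p : ℤ) ∣ 1 := by
    obtain ⟨c, hc⟩ := h1
    refine ⟨c, ?_⟩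
    have h5 : (p : ℤ) * 1 = p * (p * c) := by linear_combination hc
    exact mul_left_cancel₀ hp0 h5
  have h5 : p ∣ 1 := by exact_mod_cast h4
  exact hp.one_lt.ne' (Nat.dvd_one.1 h5)

end CtxX

open _root_.Pool.Agent.MUXE.CtxX in
/-- Module MUXE_CTX. -/
theorem te_CTX : Sxe_CTX := by
  intro p A B P V f hS hR hE
  have htwo : p = 2 ∨ p = 3 := by
    rcases hS.case.split with h | h
    · exact Or.inr h.1
    · exact Or.inl h.1
  have hp : p.Prime := by
    rcases htwo with rfl | rfl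
    · exact Nat.prime_two
    · exact Nat.prime_three
  have hd : (p : ℤ) ∣ B ^ 2 + 4 * A - 1 := by
    rcases hS.case.split with ⟨rfl, h⟩ | ⟨rfl, h⟩
    · exact_mod_cast h
    · exact Dvd.dvd.trans ⟨4, by norm_num⟩ h
  have hvP : ∀ x ∈ P, V.valuation (emb x) < 1 := fun x hx =>
    (ValuationSubring.mem_nonunits_iff V).1 ((hS.hV x).2 hx)
  have hemb : emb ((p : ℕ) : OO A B) = (p : ℂ) := by
    unfold emb
    simp
  refine { hE with
    ring := hR
    two := htwo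
    prime := hS.hP.prime
    mem := hS.hP.mem
    norm := hS.hP.norm
    split := not_sq hp hd hS.hP.norm
    vp := ?_
    vP := hvP }
  rw [← hemb]
  exact hvP _ hS.hP.mem

end

end Pool.Agent.MUXE


end
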