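import Mathlib
import Pool.Agent.MVF.C013
import Pool.Agent.MVF.C017
import Pool.Agent.MVF.C018
import Pool.Agent.MVF.C024

/-! Parts: MU3.StE, MU3.E_RAM, MUX.E_RAM, MU3.E_BAS, MUX.E_THE, MUX.E_SIG -/

namespace Pool.Agent.MU3E.BAS
end Pool.Agent.MU3E.BAS
namespace Pool.Agent.MU3E.RAM
end Pool.Agent.MU3E.RAM
namespace Pool.Agent.MUXE.RamE
end Pool.Agent.MUXE.RamE
namespace Pool.Agent.MUXE.SIG
end Pool.Agent.MUXE.SIG

section

/-!
# MU3, block E: a cube has a small logarithmic derivative (helper66)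

Section 4 of `PAPER.md`. Every statement is a `def Se_X : Prop`; the module proves
`theorem te_X (h : ...) ... : Se_X` in the file `E_X.lean`.
`V` is a valuation ring of `ℂ`, `v = V.valuation`; `v x ≤ 1` iff `x ∈ V`
(`ValuationSubring.valuation_le_one_iff`), `v x < 1` iff `x ∈ V.nonunits`
(`ValuationSubring.valuation_lt_one_iff`, `ValuationSubring.mem_nonunits_iff`).
`p = ppi A B` (norm `3`), `p' = ppc A B`, `3 = p p'`. `u_M = Om / emb M`.
`IsXi`, `tz` (the parameter `t = -x/y`), `near`, `v_xx_sub`, `mem_of_nat_mul`, `inE1_int`, ...: `VZ.lean`.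
-/

set_option autoImplicit false

open WeierstrassCurve Polynomial NumberField IsDedekindDomain

namespace Pool.Agent.MU3E

open _root_.MU3 _root_.Pool.Agent.MU3A _root_.Pool.Agent.MU3B _root_.Pool.Agent.MU3C _root_.Pool.Agent.MU3V _root_.Pool.Agent.RI

noncomputable section

/-- `x` modulo `ppi`, as `1`, `-1` or `0` -/
def wpi {A B : ℤ} (x : OO A B) : ℤ :=
  open Classical in if ppi A B ∣ x - 1 then 1 else if ppi A B ∣ x + 1 then -1 else 0

/-- `Θ_a'/Θ_a = a e(a z) - a² e(z)` -/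
def dl (L : PeriodPair) (a : ℕ) (z : ℂ) : ℂ := a * ee L (a * z) - (a : ℂ) ^ 2 * ee L z

/-- `T(τ) = ∑ w_p(x) (Θ_a'/Θ_a)(x u)`, `x ∈ XX L m h τ`, `u = Om / m` -/
def TT {A B : ℤ} (L : PeriodPair) (Om : ℂ) (m : OO A B) (a : ℕ) {D : IntermediateField ℚ ℂ}
    (h : kk A B ≤ D) (τ : letI := algC h; D ≃ₐ[kk A B] D) : ℂ :=
  ∑ᶠ x ∈ XX L m h τ, (wpi (Quotient.out x) : ℂ) *
    dl L a (emb (Quotient.out x) * (Om / emb m))

/-! ## Abstract lemmas -/

/-- (BAS) totally ramified over unramified: an automorphism which moves the uniformiser `π` by at most `r`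
moves every integral element by at most `r`.

PROOF. Write `v π = ρ`, so `ρ^N = v p`, `0 < ρ < 1`. (1) If `a_i ∈ M₀` (`i < N`) then
`v(Σ a_i π^i) = max_i v(a_i π^i)`: for `a_i ≠ 0`, `v a_i = (v p)^(k_i) = ρ^(N k_i)` (`k_i ∈ ℤ`), so `v(a_i π^i) = ρ^(N k_i + i)`, and these
are pairwise different for different `i < N` (`N k_i + i` mod `N`; `ρ^j = ρ^j'` only for `j = j'`). The valuation of a sum
of elements of pairwise different valuations is the largest one (induction on the set of `i` with `a_i ≠ 0`,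
`Valuation.map_add_eq_of_lt_left`, or Mathlib `Valuation.map_sum_eq_of_lt`). (2) The `K`-linear map
`(Fin N → M₀) → M`, `a ↦ Σ a_i π^i` is injective by (1), and its source has dimension `N * finrank M₀ ≥ finrank M`; so it is onto
(`LinearMap.injective_iff_surjective_of_finrank_eq_finrank` after `LinearMap.finrank_le_finrank_of_injective`).
(3) Let `w = Σ a_i π^i ∈ M`, `v w ≤ 1`. By (1) `ρ^(N k_i + i) ≤ 1`, so `N k_i + i ≥ 0`, `k_i ≥ 0` (`i < N`), `v a_i ≤ 1`. (4) `σ w - w = Σ a_i ((σ π)^i - π^i)` and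
`(σ π)^i - π^i` is `(σ π - π)` times an integral element (`σ π` is integral: `v(σ π - π) ≤ r ≤ 1`, `v π < 1`). -/
def Se_BAS : Prop :=
  ∀ (K E Γ : Type) [Field K] [Field E] [Algebra K E] [LinearOrderedCommGroupWithZero Γ]
    (v : Valuation E Γ) (M₀ M : IntermediateField K E) [FiniteDimensional K M₀]
    [FiniteDimensional K M] (N : ℕ) (p π : E) (σ : M →ₐ[K] E) (r : Γ), M₀ ≤ M → 0 < N →
    Module.finrank K M ≤ N * Module.finrank K M₀ →
    p ≠ 0 → v p < 1 → (∀ y ∈ M₀, y ≠ 0 → ∃ k : ℤ, v y = v p ^ k) →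
    ∀ (hπ : π ∈ M), v π ^ N = v p → (∀ (y : M), (y : E) ∈ M₀ → σ y = y) →
    r ≤ 1 → v (σ ⟨π, hπ⟩ - π) ≤ r → ∀ w : M, v w ≤ 1 → v (σ w - w) ≤ r

/-- (PRD) products of elements close to `1 + t l`.

PROOF. `u_i = d_i/c_i` satisfies `v(u_i - 1 - t l_i) ≤ v(t)²`, so `v(u_i) = 1`. Call `(u, l)` good if `v l ≤ 1` and
`v(u - 1 - t l) ≤ v(t)²`. Products: `(u u', l + l')` is good (`u u' - 1 - t(l + l') = (u - 1 - t l) u' + (1 + t l)(u' - 1 - t l') + t² l l'`);
inverses: `(u⁻¹, -l)` is good (`u⁻¹ - 1 + t l = -u⁻¹ ((u - 1 - t l)(1 - t l) - t² l²)`, check: `1 - u + u t l = -(u - 1 - tl) - tl + utl = -(u-1-tl) + tl(u - 1)`). So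
`(u^g, g l)` for `g ∈ ℤ` and `(∏ u_i^(g_i), Σ g_i l_i)` are good. Multiply by `∏ c_i^(g_i)`, of valuation `1`. -/
def Se_PRD : Prop :=
  ∀ (E Γ ι : Type) [Field E] [LinearOrderedCommGroupWithZero Γ] [Fintype ι] (v : Valuation E Γ)
    (c d l : ι → E) (g : ι → ℤ) (t : E), v t < 1 → (∀ i, v (c i) = 1) → (∀ i, v (l i) ≤ 1) →
    (∀ i, v (d i - c i * (1 + t * l i)) ≤ v t ^ 2) →
    v (∏ i, c i ^ g i) = 1 ∧ v (∑ i, (g i : E) * l i) ≤ 1 ∧
    v (∏ i, d i ^ g i - (∏ i, c i ^ g i) * (1 + t * ∑ i, (g i : E) * l i)) ≤ v t ^ 2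

/-! ## The prime `ppi` -/

/-- (PPI) the valuation on `k` and on `O`.

Uses Sa_V3, Sa_PID, Sa_INT. PROOF. `v(emb p) < 1`. `3 = p * p'` in `O` (both cases, `emb_mul`), `p'` is not divisible by `p`
(`nm p' = 3`; `p ∣ p'` gives `p' = ± p` by norms, false), so `v(emb p') = 1` (V3: `emb p' ∈ V`, not in `nonunits`), `v 3 = v(emb p) < 1`, so `v 2 = 1`
(`2 = 3 - 1`). For `x ∈ O`, `x ≠ 0`: `x = p^j x'` with `p` not dividing `x'` (`nm x = 3^j nm x'`, so `j` is bounded),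
`v(emb x) = v(emb p)^j`. Every nonzero `y ∈ k` is `emb x/emb x'` (INT: `y = s + t w` with rational `s, t`, clear denominators),
so `v y = v(emb p)^k`. Natural numbers: if `3 ∤ n` then `p` does not divide `n` (`nm n = n²`), `v n = 1`. Third part: `nm p = 3` is
prime, so `p` is prime, and it is coprime to `x` if it does not divide `x` (PID, `Irreducible.coprime_iff_not_dvd`). Fourth: classes of `O/p`:
`O/p` has the classes `0, 1, -1`: `x = x.re + x.im w`, `w = p - (1 - B)` so `x ≡ n := x.re - x.im (1 - B)` modulo `p`, and `p ∣ 3`. -/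
def Se_PPI : Prop :=
  ∀ (A B : ℤ), Case A B → ppi A B * ppc A B = 3 ∧ Prime (ppi A B) ∧ ¬ ppi A B ∣ ppc A B ∧
    (∀ x : OO A B, ¬ ppi A B ∣ x → ppi A B ∣ x - 1 ∨ ppi A B ∣ x + 1) ∧
    (∀ x : OO A B, ¬ ppi A B ∣ x → ∀ j : ℕ, IsCoprime x (ppi A B ^ j)) ∧
    (∀ n : ℤ, ppi A B ∣ (n : OO A B) → (3 : ℤ) ∣ n) ∧
    ∀ V : ValuationSubring ℂ, emb (ppi A B) ∈ V.nonunits →
      V.valuation (emb (ppi A B)) < 1 ∧ V.valuation (emb (ppi A B)) ≠ 0 ∧
      V.valuation 3 = V.valuation (emb (ppi A B)) ∧ V.valuation 2 = 1 ∧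
      V.valuation (emb (ppc A B)) = 1 ∧
      (∀ n : ℕ, ¬ 3 ∣ n → V.valuation (n : ℂ) = 1) ∧
      (∀ x : OO A B, ¬ ppi A B ∣ x → V.valuation (emb x) = 1) ∧
      ∀ y ∈ kk A B, y ≠ 0 → ∃ k : ℤ, V.valuation y = V.valuation (emb (ppi A B)) ^ k

/-- (Z3) integers represent the classes modulo powers of `ppi`; number of classes prime to `ppi`.

Uses Se_PPI. PROOF. First part by induction on `j`: `x = r + p^j y`. `p'^j` is not divisible by `p`, so it is `≡ ± 1` modulo `p`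
(PPI), and `y ≡ s` with `s ∈ {0, 1, -1}` (PPI); choose the sign `s' = ± s` with `p'^j s' ≡ y` modulo `p`. Then
`x - (r + 3^j s') = p^j (y - p'^j s')` is divisible by `p^(j+1)` (`3^j = p^j p'^j`). Second part: the class of `x` is that of an integer `r`, prime to `3` if `p ∤ x`
(`3 ∣ r` gives `p ∣ x`), and it depends only on `r` modulo `3^j` (`p^j ∣ 3^j`). So the classes inject into
the units of `ZMod (3^j)`, which has `φ(3^j) = 2 * 3^(j-1)` units. -/
def Se_Z3 : Prop :=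
  ∀ (A B : ℤ), Case A B → ∀ j : ℕ, (∀ x : OO A B, ∃ r : ℤ, ppi A B ^ j ∣ x - r) ∧
    (1 ≤ j → ∀ S : Finset (OO A B), (∀ x ∈ S, ¬ ppi A B ∣ x) →
      (∀ x ∈ S, ∀ y ∈ S, ppi A B ^ j ∣ x - y → x = y) → S.card ≤ 2 * 3 ^ (j - 1))

/-- (DEG) the degree of `F_(p^j M')` over `F_(M')`.

Uses Se_PPI, Se_Z3, Sa_ACT, Sa_NRM, Sa_GAL. PROOF. `M = p^j M'`. The number of embeddings `TF L M →ₐ[k] ℂ` is `finrank k (TF L M)`
(`AlgHom.card`: finite separable, `ℂ` algebraically closed), same for `M'`. Send `τ : TF L M → ℂ` to its restriction to `TF L M'` (`TF L M' ≤ TF L M`: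
the generators, `E[M'] ⊆ E[M]`). All fibres have at most `2 * 3^(j-1)` elements: let `τ_1, …, τ_s` be different embeddings with the
same restriction, `Act τ_i M a_i` (GAL). Then `M' ∣ a_i - a_1` (ACT (8), (3), (1): both `a_i`, `a_1` belong to the restriction to `TF L M'`). If `p^j ∣ a_i - a_i'`
then, as `p^j` and `M'` are coprime (PPI), `M ∣ a_i - a_i'`, so `Act τ_i' M a_i` (ACT (2)) and `τ_i = τ_i'` (ACT (5)). `p ∤ a_i` (coprime to
`M`, `j ≥ 1`). So `s ≤ 2 * 3^(j-1)` (Z3) (`Finset.card_le_mul_card_image` or `Nat.card` version). -/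
def Se_DEG : Prop :=
  ∀ (A B : ℤ) (L : PeriodPair) (Om : ℂ), Case A B → IsCM A B L Om →
    ∀ (j : ℕ) (M' : OO A B), 1 ≤ j → M' ≠ 0 → ¬ ppi A B ∣ M' →
      TF L M' ≤ TF L (ppi A B ^ j * M') ∧
      Module.finrank (kk A B) (TF L (ppi A B ^ j * M')) ≤
        (2 * 3 ^ (j - 1)) * Module.finrank (kk A B) (TF L M')

/-- (TP) the parameter of a point of exact order `ppi^(j+1)`.

Uses Se_PPI, Sa_T3, Sa_N8P, Sa_N11 (and `v_tz_lt`). PROOF. Write `D = p X + d₀`, `N = X³ + n₂X² + n₁X + n₀` for the `Iso3` formulas of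
`p = ppi` (N8P resp. N11; `ppi (-2) 0 = ⟨1, 1⟩`, `ppi (-3) 1 = ⟨0, 1⟩`): the `n_i` are in `V`, and `d₀` (`⟨0, 1⟩` resp. `-1`) is a unit of `V` because it is not divisible by `p` (norms `2`, `1`). `q := v(emb p) < 1`. Every `z ∉ L` killed by a power of `p` is in
`E₁` (T3 (2)), so `v(x z) > 1`, `v(x z) v(t z)² = 1` (`v_tz_lt`). Induction on `j`. `j = 0`: `D(x z) = 0` (`Iso3.ker`), so `v(x z) = q⁻¹`, `v(t z)² = q`. Step: `z` of exact order `p^(j+2)`,
`X = x z`, `y = x(p z)`: by induction `v(t(pz))^(2*3^j) = q`, so `v(t(pz))² ≥ q`, `v y ≤ q⁻¹`. `v N = v(X)³` (`v X > 1`), `y D(X)² = N(X)`. If `v(p X) > 1`: `v D = v(p X)`, `v y = v(X)/q² > q⁻³`; if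
`v(p X) = 1`: `v D ≤ 1`, `v y ≥ v(X)³ = q⁻³`; both contradict `v y ≤ q⁻¹ < q⁻³`. So `v(p X) < 1`, `v D = 1`, `v y = v(X)³`, `v(t(pz)) = v(t z)³` (squares, `v ≥ 0`), and
`v(t z)^(2*3^(j+1)) = q`. -/
def Se_TP : Prop :=
  ∀ (A B : ℤ) (L : PeriodPair) (Om : ℂ) (ξ : ℂ →+ (WC A B).Point), Case A B → IsCM A B L Om →
    IsXi A B L ξ → ∀ V : ValuationSubring ℂ, emb (ppi A B) ∈ V.nonunits →
    ∀ (j : ℕ) (z : ℂ), emb (ppi A B ^ (j + 1)) * z ∈ L.lattice →
      emb (ppi A B ^ j) * z ∉ L.lattice →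
      InE1 A B V L z ∧ z ∉ L.lattice ∧
        V.valuation (tz A B L z) ^ (2 * 3 ^ j) = V.valuation (emb (ppi A B))

/-- (COP) torsion of order prime to `ppi` is not in the kernel of reduction.

Uses Se_PPI, Sa_T3, `mem_of_nat_mul`. PROOF. Suppose `z ∉ L`; `InE1 z` then means `x z ∉ V`. T3 (4): its hypothesis (`n z ∈ L`, `z ∉ L`, `3 ∤ n` implies `x z ∈ V`)
is `mem_of_nat_mul` (`v n = 1` by PPI), `M'` and `p` are coprime (PPI with `j = 1`), so `x z ∈ V`. Contradiction. -/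
def Se_COP : Prop :=
  ∀ (A B : ℤ) (L : PeriodPair) (Om : ℂ) (ξ : ℂ →+ (WC A B).Point), Case A B → IsCM A B L Om →
    IsXi A B L ξ → ∀ V : ValuationSubring ℂ, emb (ppi A B) ∈ V.nonunits →
    ∀ (M' : OO A B) (z : ℂ), M' ≠ 0 → ¬ ppi A B ∣ M' → emb M' * z ∈ L.lattice →
      InE1 A B V L z → z ∈ L.lattice

/-! ## `F_(M')` is unramified at `ppi` -/

/-- (RAM) a finite Galois extension `F / k` with trivial inertia group at `V` is unramified: the values on `F` are the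
powers of `v(emb p)`.

Uses Se_PPI, Sa_INT, Sa_PID. PROOF. `w := {x ∈ 𝓞 F : v x < 1}` is a prime ideal of `𝓞 F` (integral elements are in `V`, since `V` is integrally closed in `ℂ`),
`≠ 0` (it contains `emb p`). (a) Localisation: every `x ∈ F`, `v x ≤ 1`, is `s/t` with `s, t ∈ 𝓞 F`, `v t = 1`: the local ring of `w` is a discrete valuation
ring; equivalently with `ord = w.valuation F` (`HeightOneSpectrum`): for `x ∈ F`: `ord x ≤ 1 → v x ≤ 1` and `ord x < 1 → v x < 1`: if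
`ord x ≤ 1` then `x = s/t` with `t ∉ w` (`IsDedekindDomain.HeightOneSpectrum.valuation...`, or `exists_primeIdeal...`; `IsLocalization.AtPrime` of the valuation subring), `v t = 1`. Hence `v x = 1` if
`ord x = 1` (apply it to `x` and `x⁻¹`). Let `π` be a uniformiser (`valuation_exists_uniformizer`): every `x ≠ 0` is `π^k u`, `ord u = 1`, so `v x = v(π)^k`.
(b) The inertia group of `w` in `G = Gal(F/k)` is trivial: if `σ s - s ∈ w` for all `s ∈ 𝓞 F` then for `x = s/t`, `v t = 1`: `σ x - x = (σ s * t - s * σ t)/(t * σ t)`, numerator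
`(σ s - s) t - s (σ t - t)`, `v(σ t) = 1`, so `v(σ x - x) < 1` for all `x ∈ F ∩ V`, and `σ = 1` by hypothesis. (c) `Ideal.card_inertia_eq_ramificationIdxIn`
(see `Pool/Agent/MU3/K1.lean`, `inertia_top`, for its use; `p := w.under (𝓞 k)`) gives `e(w / p) = 1`. `w ∩ 𝓞 k = (emb p)` (INT, PID: `𝓞 k = emb O`, and `v(emb x) < 1` iff `p ∣ x`). So
`ord(emb p)` is the value of a uniformiser (`IsDedekindDomain.HeightOneSpectrum.valuation_liesOver` in Mathlib/NumberTheory/RamificationInertia/Valuation.lean, or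
`emb p ∉ w²` since `ramificationIdx = 1`), `π = emb p * unit`, `v π = v(emb p)`. -/
def Se_RAM : Prop :=
  ∀ (A B : ℤ), Case A B → ∀ V : ValuationSubring ℂ, emb (ppi A B) ∈ V.nonunits →
    ∀ (F : IntermediateField (kk A B) ℂ) [FiniteDimensional (kk A B) F] [IsGalois (kk A B) F],
      (∀ σ : F ≃ₐ[kk A B] F, (∀ x : F, V.valuation (x : ℂ) ≤ 1 →
        V.valuation ((σ x : ℂ) - x) < 1) → σ = 1) →
      ∀ y ∈ F, y ≠ 0 → ∃ k : ℤ, V.valuation y = V.valuation (emb (ppi A B)) ^ k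

/-- (UNR) `F_(M') / k` is unramified at `ppi` if `ppi ∤ M'`.

Uses Se_RAM, Se_PPI, Se_COP, Sa_GAL, Sa_ACT, Sa_NRM, Sa_EQN. PROOF. By (RAM) and (NRM) let `σ` satisfy `v(σ x - x) < 1` for all `x ∈ F_(M') ∩ V`; `Act (em σ) M' a`
(GAL). Claim: `a z - z ∈ L` for all `z ∈ E[M']`, `z ∉ L`. `z`, `a z` (`∉ L`) and all their integer combinations are in `E[M']`, so they are in `E₁` only if they are in
`L` (COP). `x z`, `x(a z) ∈ V`, `v(x(az) - x z) < 1`, so by `v_xx_sub` `a z - z` or `a z + z` is in `E₁`, i.e. in `L`. If `a z + z ∈ L` then `y(a z) = -y z`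
(EQN), so `v(2 y z) < 1`, `v(y z) < 1`; if `2 z ∉ L` this contradicts `v_y_unit` (`VRed.lean`; `z`, `z + z ∉ E₁`); so `2 z ∈ L` and `a z - z = (a z + z) - 2 z ∈ L`. With
`z = Om/emb M'` (if `M'` is a unit, `F_(M') = k`: `σ = 1` trivially, or (ACT (1),(5)) directly) `M' ∣ a - 1` (`mul_div_mem_iff`), so `Act (em σ) M' 1` (ACT (2)) and `σ = 1` (ACT (5), (7)). -/
def Se_UNR : Prop :=
  ∀ (A B : ℤ) (L : PeriodPair) (Om : ℂ) (ξ : ℂ →+ (WC A B).Point), Case A B → IsCM A B L Om →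
    IsXi A B L ξ → ∀ V : ValuationSubring ℂ, emb (ppi A B) ∈ V.nonunits →
    ∀ M' : OO A B, M' ≠ 0 → ¬ ppi A B ∣ M' →
      ∀ y ∈ TF L M', y ≠ 0 → ∃ k : ℤ, V.valuation y = V.valuation (emb (ppi A B)) ^ k

/-! ## The automorphism `σ` -/

/-- (SIG) an automorphism which is close to the identity.

Uses Se_BAS, Se_DEG, Se_TP, Se_COP, Se_UNR, Se_PPI, Sa_NEG, Sa_ACT, Sa_NRM, Sa_EQN, `near`, `v_y_unit`. PROOF. `M = p^(n+1) M'`, `c = 1 + p^n M'`. `c³ - 1 = 3 p^n M' + 3 (p^n M')² + (p^n M')³` is divisible by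
`M` (`p ∣ 3`, `n ≥ 1`), so `σ` exists by (NEG)(3). Let `P₀ = Om/emb mz` (`mz ∣ M'`), `P₁ = Om/emb(p^(n+1))`, `P = P₀ + P₁ ∈ E[M]`. `2 P₀ ∉ L` (`mz ∤ 2`), `P₀`, `2 P₀ ∉ E₁` (COP), `x P₀ ∈ TF L M'`. `P₁` has
exact order `p^(n+1)`: `v(t P₁)^(2*3^n) = v(emb p)` (TP). `π := x(P) - x(P₀) ∈ TF L M` (`P ∉ E₁`, so `P ∉ L`). By `near` `v(π - 2 y(P₀) t(P₁)) ≤ v(t P₁)²`, and `v(2 y(P₀)) = 1` (`v_y_unit`), so
`v π = v(t P₁)`. `σ` fixes `TF L M'` (`c ≡ 1` modulo `M'`; `σ` and the inclusion agree there, ACT (2),(3),(5),(8)). `σ(x P) = x(c P)`, `c P = P + p^n M' P₀ + p^n M' P₁ ≡ P + M' (Om/emb p)` modulo `L` (`mz ∣ M'`),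
and `M' ≡ ± 1` modulo `p`, so `c P ≡ P ± R`, `R = Om/emb p`, and `v(t(±R)) = v(t R)`. So `v(σ π - π) = v(x(P ± R) - x P) ≤ v(t R)` (`near`; `R ∈ E₁`, `R ∉ L`: TP with `j = 0`), `v(t R) ≤ 1`. Now
(BAS) with `K = kk A B`, `E = ℂ`, `M₀ = TF L M'`, `M = TF L M`, `N = 2 * 3^n` (DEG with `j = n + 1`), `p = emb (ppi A B)`, (UNR). -/
def Se_SIG : Prop :=
  ∀ (A B : ℤ) (L : PeriodPair) (Om : ℂ) (ξ : ℂ →+ (WC A B).Point), Case A B → IsCM A B L Om →
    IsXi A B L ξ → ∀ V : ValuationSubring ℂ, emb (ppi A B) ∈ V.nonunits →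
    ∀ (n : ℕ) (M' : OO A B), 1 ≤ n → M' ≠ 0 → ¬ ppi A B ∣ M' → mz A B ∣ M' →
    ∃ σ : TF L (ppi A B ^ (n + 1) * M') ≃ₐ[kk A B] TF L (ppi A B ^ (n + 1) * M'),
      Act L (_root_.Pool.Agent.MU3A.em σ) (ppi A B ^ (n + 1) * M') (1 + ppi A B ^ n * M') ∧
      ∀ w : TF L (ppi A B ^ (n + 1) * M'), V.valuation (w : ℂ) ≤ 1 →
        V.valuation ((σ w : ℂ) - w) ≤ V.valuation (tz A B L (Om / emb (ppi A B)))

/-! ## The functions `Θ_a` -/

/-- (NE1) the points that occur are not in the kernel of reduction.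

Uses Se_PPI, `VZ.lean` (`mem_of_nat_mul`, `inE1_nat`). PROOF. `m = f 3^(n+1)`, `a = 1 + 6 f`, `z = x Om/m`, `x` prime to `m`. First, for `q` with `a q ∈ L` suppose
`z + q ∈ E₁`. Then `z' = 3^(n+1) (z + q) ∈ E₁` (`inE1_nat`) and `f a z' ∈ L` (`f 3^(n+1) z = x Om ∈ L`), `v(f a) = 1` (`3 ∤ f a`), so `z' ∈ L` (`mem_of_nat_mul`), so `a 3^(n+1) z ∈ L`, so
`m ∣ a 3^(n+1) x` (`mul_div_mem_iff`), `f ∣ a x`; `f` is prime to `a` and to `x`, so `f` is a unit of `O`, `f = 1`, but `f ≥ 2`. Apply it to `q`, `-q` and `0` (also `a z ∉ L`, `2 z ∉ L` if `f > 2`: not needed here). If `q ∈ E₁`, `a q ∈ L` then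
`q ∈ L` as `v a = 1`. Last claim: `a z ∈ L` would give `m ∣ a x`, `f ∣ a x` again. -/
def Se_NE1 : Prop :=
  ∀ (A B : ℤ) (L : PeriodPair) (Om : ℂ) (ξ : ℂ →+ (WC A B).Point), Case A B → IsCM A B L Om →
    IsXi A B L ξ → ∀ V : ValuationSubring ℂ, emb (ppi A B) ∈ V.nonunits →
    ∀ (f n : ℕ), 2 ≤ f → ¬ 3 ∣ f → ∀ x : OO A B, IsCoprime x (lev A B f n) →
      ∀ z : ℂ, z = emb x * (Om / emb (lev A B f n)) →
      ¬ InE1 A B V L z ∧ ((1 + 6 * f : ℕ) : ℂ) * z ∉ L.lattice ∧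
      ∀ q : ℂ, ((1 + 6 * f : ℕ) : ℂ) * q ∈ L.lattice → q ∉ L.lattice →
        ¬ InE1 A B V L q ∧ ¬ InE1 A B V L (z + q) ∧ ¬ InE1 A B V L (z - q)

/-- (THE) expansion of `Θ_a` near `z`.

Uses St_TDL, `near`, `v_xx_sub`, Se_PRD. PROOF. `℘ z - ℘ q = x z - x q` has valuation `1` for `q ∈ H` (`v_xx_sub`), so `v(Θ z) = 1`. Let `R ∈ E₁`, `R ∉ L`, `t = t(R)`, `v t < 1`. `near`: `v(x(z + R) - x z - 2 y z t) ≤ v(t)²`, and
`2 y z = ℘' z`, integral (`int_yy`). So with `c_q = x z - x q`, `d_q = x(z + R) - x q`, `l_q = ℘' z/(x z - x q)`: `d_q = c_q (1 + t l_q) + O(t²)`. Product over `q ∈ H` by (PRD) with `g = 1`; `Σ l_q = a e(a z) - |a|² e(z) = dl L a z` by (TDL) (`‖a‖² = a²`, `a z ∉ L`). -/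
def Se_THE : Prop :=
  ∀ (A B : ℤ) (L : PeriodPair) (Om : ℂ) (ξ : ℂ →+ (WC A B).Point), Case A B → IsCM A B L Om →
    IsXi A B L ξ → ∀ V : ValuationSubring ℂ, V.valuation 2 = 1 →
    ∀ (a : ℕ) (H : Finset ℂ), a ≠ 0 → IsHalf L (a : ℂ) H → ∀ z : ℂ, ¬ InE1 A B V L z →
      (a : ℂ) * z ∉ L.lattice →
      (∀ q ∈ H, ¬ InE1 A B V L q ∧ ¬ InE1 A B V L (z + q) ∧ ¬ InE1 A B V L (z - q)) →
      V.valuation (ThetaH L H z) = 1 ∧ V.valuation (dl L a z) ≤ 1 ∧
      ∀ R, InE1 A B V L R → R ∉ L.lattice →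
        V.valuation (ThetaH L H (z + R) - ThetaH L H z * (1 + tz A B L R * dl L a z)) ≤
          V.valuation (tz A B L R) ^ 2

/-- (GTH) the Galois action on `Θ_a(z)`, `z` a torsion point, `a` prime to the order of `z`.

Uses Sa_ACT, Sa_EQN. PROOF. `F = TF L M`, `a ∣ M`, `q ∈ E[a] ⊆ E[M]`. `℘ = x + a₂/3`, `ThetaH L H z = ∏ (x z - x q)`, and `x z, x q ∈ F`
(generators), so it is in `F`; `σ(x q) = x(c q) = x(q)` since `(c - 1) q ∈ L`; `σ(x z) = x(c z)`. -/
def Se_GTH : Prop :=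
  ∀ (A B : ℤ) (L : PeriodPair) (Om : ℂ), Case A B → IsCM A B L Om → ∀ (a : ℕ) (H : Finset ℂ),
    IsHalf L (a : ℂ) H → ∀ M : OO A B, M ≠ 0 → (a : OO A B) ∣ M →
    ∀ (σ : TF L M ≃ₐ[kk A B] TF L M) (c : OO A B), Act L (_root_.Pool.Agent.MU3A.em σ) M c → (a : OO A B) ∣ c - 1 →
    ∀ z, emb M * z ∈ L.lattice → z ∉ L.lattice →
      ∃ hz : ThetaH L H z ∈ TF L M, (σ ⟨ThetaH L H z, hz⟩ : ℂ) = ThetaH L H (emb c * z)

/-! ## The result -/

/-- (ONE) the case `τ' = 1`, for a product over an arbitrary finite family.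

Uses Se_PPI, Se_SIG, Se_NE1, Se_THE, Se_GTH, Se_PRD, Se_TP, Sa_EQN. PROOF. `m = lev A B f n = f 3^(n+1)`, `a = 1 + 6f`, `u = Om/emb m`, `M = m a = p^(n+1) M'`, `M' = p'^(n+1) f a` (not divisible by `p`; `mz ∣ f ∣ M'`). Let `σ`
be as in (SIG), `c = 1 + p^n M'`, `t = t(R)`, `R = Om/emb p`, `v(t)² = v 3` (TP with `j = 0`, PPI). Let `x` be prime to `m`, `z = x u`. `a ∣ M'`, so (GTH) applies: `σ(Θ z) = Θ(c z)`, `c z = z + p^n M' x Om/m = z + a x (Om/emb p)`
(`M'/m = a/p^(n+1)`). `a ≡ 1` modulo `3`, so `a x ≡ w` modulo `p`, `w = wpi x = ± 1`, and `c z ≡ z + w R` modulo `L` (`p R ∈ L`); `t(w R) = w t(R)` (`tz` odd, EQN). By (THE) `Θ(c z) = Θ(z) (1 + t w dl(z)) + O(t²)`.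
(`Θ` is periodic.) For a finite set `X` of elements prime to `m` (`X i`, `i ∈ ι`): (PRD) with `g = 1` and then with `g`: with `c_i = ∏_(x ∈ X i) Θ(x u)`, `T_i = Σ_(x ∈ X i) wpi(x) dl(x u)`, `C = ∏ c_i^(g i)`, `S = Σ g_i T_i`: `σ C = C (1 + t S) + O(t²)`, `v C = 1`, `v S ≤ 1`. Let `C = w³`, `w ∈ TF L M`
(by hypothesis `w ∈ TF L m ≤ TF L M`). `v w = 1`, `v(σ w - w) ≤ v t`, `(σ w)³ - w³ = (σ w - w)³ + 3 w (σ w) (σ w - w)`, so `v(σ C - C) ≤ max (v(t)³, v 3) ≤ v(t)²`. So `v(C t S) ≤ v(t)²`, `v S ≤ v t`, `v(S²/3) ≤ 1`. -/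
def Se_ONE : Prop :=
  ∀ (A B : ℤ) (L : PeriodPair) (Om : ℂ) (ξ : ℂ →+ (WC A B).Point), Case A B → IsCM A B L Om →
    IsXi A B L ξ → ∀ V : ValuationSubring ℂ, emb (ppi A B) ∈ V.nonunits →
    ∀ (f n : ℕ) (H : Finset ℂ), 1 ≤ n → f ≠ 0 → ¬ 3 ∣ f → mz A B ∣ (f : OO A B) →
      IsHalf L ((1 + 6 * f : ℕ) : ℂ) H →
    ∀ (ι : Type) [Fintype ι] (X : ι → Finset (OO A B)) (g : ι → ℤ),
      (∀ i, ∀ x ∈ X i, IsCoprime x (lev A B f n)) →
      (∃ w ∈ TF L (lev A B f n), w ^ 3 =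
        ∏ i, (∏ x ∈ X i, ThetaH L H (emb x * (Om / emb (lev A B f n)))) ^ g i) →
      V.valuation ((∑ i, (g i : ℂ) * ∑ x ∈ X i, (wpi x : ℂ) *
        dl L (1 + 6 * f) (emb x * (Om / emb (lev A B f n)))) ^ 2 / 3) ≤ 1

/-- (MAIN) Lemma E: if `∏ (c^τ)^(g τ)` is a cube in `D = K_n`, then `(∑ g_τ T(τ' τ))²/3` is in `V`.
Hypotheses on `cc` (block C, helper59): `c = cc .. 1 ∈ D` and `τ c = cc .. τ`.

Uses Se_ONE, Sa_NRM, Sa_ACT, Sa_XI. PROOF. `G = Gal(D/k)` is finite (`D ≤ TF L m`, finite over `k`), `cc .. τ' = τ' c`. Let `∏_τ (τ c)^(g τ) = w³`, `w ∈ D`. Apply `τ'`: `∏_τ (τ' τ c)^(g τ) = (τ' w)³`, i.e.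
`∏_τ cc(τ' τ)^(g τ)` is a cube of an element of `D ≤ TF L m`. Then (ONE) with `ι = G`, `X τ = ` the set of `Quotient.out x`, `x ∈ XX L m h (τ' τ)` (finite: `O/m` is finite; prime to `m` by `Act`), `finprod_mem_eq_finite_toFinset_prod` etc. `ξ` from (XI) (`WC A B` is the base change). -/
def Se_MAIN : Prop :=
  ∀ (A B : ℤ) (L : PeriodPair) (Om : ℂ), Case A B → IsCM A B L Om →
    ∀ V : ValuationSubring ℂ, emb (ppi A B) ∈ V.nonunits →
    ∀ (f n : ℕ) (H : Finset ℂ), 1 ≤ n → f ≠ 0 → ¬ 3 ∣ f → mz A B ∣ (f : OO A B) →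
      IsHalf L ((1 + 6 * f : ℕ) : ℂ) H →
    ∀ (D : IntermediateField ℚ ℂ) (h : kk A B ≤ D), (∀ y ∈ D, y ∈ TF L (lev A B f n)) →
    letI := algC h
    (∀ τ : D ≃ₐ[kk A B] D, ∃ c : D, (c : ℂ) = cc L Om (lev A B f n) H h 1 ∧
      ((τ c : D) : ℂ) = cc L Om (lev A B f n) H h τ) →
    ∀ g : (D ≃ₐ[kk A B] D) → ℤ,
      (∃ w ∈ D, w ^ 3 = ∏ᶠ τ : D ≃ₐ[kk A B] D, cc L Om (lev A B f n) H h τ ^ g τ) →
      ∀ τ' : D ≃ₐ[kk A B] D,
        (∑ᶠ τ : D ≃ₐ[kk A B] D, (g τ : ℂ) * TT L Om (lev A B f n) (1 + 6 * f) h (τ' * τ)) ^ 2 / 3 ∈ V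

end

end Pool.Agent.MU3E


end

section

/-!
# MU3, block E: module RAM (helper77)
-/

set_option autoImplicit false

namespace Pool.Agent.MU3E

open _root_.MU3 _root_.Pool.Agent.MU3A _root_.Pool.Agent.MU3B _root_.Pool.Agent.MU3C _root_.Pool.Agent.MU3V _root_.Pool.Agent.RI
open NumberField IsDedekindDomain

noncomputable section

namespace RAM

section local_field

variable {V : ValuationSubring ℂ} {K : Type} [Field K] [NumberField K] (io : K →+* ℂ)

omit [NumberField K] in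
/-- integral elements are in `V` -/
theorem int_le (x : 𝓞 K) : V.valuation (io x) ≤ 1 := by
  rw [ValuationSubring.valuation_le_one_iff]
  have h1 : IsIntegral ℤ (io (x : K)) :=
    (RingOfIntegers.isIntegral_coe x).map io.toIntAlgHom
  obtain ⟨y, hy⟩ := IsIntegrallyClosed.isIntegral_iff.1 (h1.tower_top : IsIntegral V (io (x : K)))
  rw [← hy]
  exact y.2

omit [NumberField K] in
/-- the height one prime of `𝓞 K` below `V` -/
theorem exists_prime {z : 𝓞 K} (hz : z ≠ 0) (hz1 : V.valuation (io z) < 1) :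
    ∃ w : HeightOneSpectrum (𝓞 K), ∀ x : 𝓞 K, x ∈ w.asIdeal ↔ V.valuation (io x) < 1 := by
  let f : 𝓞 K →+* V := (io.comp (algebraMap (𝓞 K) K)).codRestrict V.toSubring
    (fun x => (ValuationSubring.valuation_le_one_iff V _).1 (int_le io x))
  have hmem : ∀ x : 𝓞 K, x ∈ (IsLocalRing.maximalIdeal V).comap f ↔ V.valuation (io x) < 1 := by
    intro x
    rw [Ideal.mem_comap, ← ValuationSubring.coe_mem_nonunits_iff]
    exact Iff.rfl
  refine ⟨⟨(IsLocalRing.maximalIdeal V).comap f, Ideal.comap_isPrime f _, ?_⟩, hmem⟩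
  intro h
  have h1 := (hmem z).2 hz1
  rw [h, Ideal.mem_bot] at h1
  exact hz h1

variable {w : HeightOneSpectrum (𝓞 K)} (hw : ∀ x : 𝓞 K, x ∈ w.asIdeal ↔ V.valuation (io x) < 1)

include hw

omit [NumberField K] in
theorem val_notMem {x : 𝓞 K} (hx : x ∉ w.asIdeal) : V.valuation (io x) = 1 :=
  le_antisymm (int_le io x) (not_lt.1 fun h => hx ((hw x).2 h))

theorem ord_le {x : K} (hx : w.valuation K x ≤ 1) : V.valuation (io x) ≤ 1 := by
  obtain ⟨n, d, hnd⟩ := w.exists_primeCompl_mul_eq_of_integer x hx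
  have hd := val_notMem io hw (x := d) d.2
  have h1 := congrArg (fun t => V.valuation (io t)) hnd
  simp only [map_mul] at h1
  have hd' : V.valuation (io (algebraMap (𝓞 K) K (d : 𝓞 K))) = 1 := hd
  rw [hd', mul_one] at h1
  rw [h1]
  exact int_le io n

theorem ord_lt {x : K} (hx : w.valuation K x < 1) : V.valuation (io x) < 1 := by
  obtain ⟨n, d, hnd⟩ := w.exists_primeCompl_mul_eq_of_integer x hx.le
  have hd := val_notMem io hw (x := d) d.2
  have h1 := congrArg (fun t => V.valuation (io t)) hnd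
  simp only [map_mul] at h1
  have hd' : V.valuation (io (algebraMap (𝓞 K) K (d : 𝓞 K))) = 1 := hd
  rw [hd', mul_one] at h1
  rw [h1]
  have h2 : w.valuation K (algebraMap (𝓞 K) K n) < 1 := by
    rw [← hnd, map_mul]
    exact mul_lt_one_of_lt_of_le hx (w.valuation_le_one _)
  exact (hw n).1 ((HeightOneSpectrum.valuation_lt_one_iff_mem (K := K) (v := w) _).1 h2)

theorem ord_one {x : K} (hx : w.valuation K x = 1) : V.valuation (io x) = 1 := by
  refine le_antisymm (ord_le io hw hx.le) ?_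
  have h1 : w.valuation K x⁻¹ ≤ 1 := by rw [map_inv₀, hx, inv_one]
  have h2 := ord_le io hw h1
  have h0 : V.valuation (io x) ≠ 0 := by
    intro h
    rw [map_eq_zero, map_eq_zero] at h
    rw [h, map_zero] at hx
    exact zero_ne_one hx
  rw [map_inv₀, map_inv₀] at h2
  exact (inv_le_one₀ (zero_lt_iff.2 h0)).1 h2

theorem le_ord {x : K} (hx : V.valuation (io x) ≤ 1) : w.valuation K x ≤ 1 := by
  by_contra h
  push Not at h
  have h1 : w.valuation K x⁻¹ < 1 := by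
    rw [map_inv₀]
    exact inv_lt_one_of_one_lt₀ h
  have h2 := ord_lt io hw h1
  rw [map_inv₀, map_inv₀] at h2
  have h0 : V.valuation (io x) ≠ 0 := by
    intro h'
    rw [map_eq_zero, map_eq_zero] at h'
    rw [h', map_zero] at h
    exact not_lt_zero h
  exact absurd h2 (not_lt.2 ((one_le_inv₀ (zero_lt_iff.2 h0)).2 hx))

/-- the values are the powers of the value of a uniformiser -/
theorem pow_unif {π : K} (hπ : w.valuation K π = WithZero.exp (-1 : ℤ)) {x : K} (hx : x ≠ 0) :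
    ∃ k : ℤ, V.valuation (io x) = V.valuation (io π) ^ k := by
  have hx0 : w.valuation K x ≠ 0 := (map_ne_zero _).2 hx
  have hπ0 : π ≠ 0 := by
    rintro rfl
    rw [map_zero] at hπ
    exact WithZero.exp_ne_zero hπ.symm
  refine ⟨-(WithZero.log (w.valuation K x)), ?_⟩
  set k : ℤ := -(WithZero.log (w.valuation K x)) with hk
  have h1 : w.valuation K (x / π ^ k) = 1 := by
    rw [map_div₀, map_zpow₀, hπ, ← WithZero.exp_log hx0]
    have : WithZero.exp (-1 : ℤ) ^ k = WithZero.exp (WithZero.log (w.valuation K x)) := by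
      rw [← WithZero.exp_zsmul, hk]
      congr 1
      simp
    rw [this]
    exact div_self WithZero.exp_ne_zero
  have h2 := ord_one io hw h1
  rw [map_div₀, map_div₀, map_zpow₀, map_zpow₀] at h2
  have hp : V.valuation (io π) ^ k ≠ 0 := zpow_ne_zero _ (by
    rw [Ne, map_eq_zero, map_eq_zero]; exact hπ0)
  exact (div_eq_one_iff_eq hp).1 h2

end local_field

section galois

open Ideal

variable {V : ValuationSubring ℂ} {k F : Type} [Field k] [NumberField k] [Field F] [NumberField F]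
  [Algebra k F] [IsGalois k F] (io : F →+* ℂ)

/-- if the inertia group at `V` is trivial, an element which generates the prime below is a
uniformiser. -/
theorem unram {w : HeightOneSpectrum (𝓞 F)}
    (hw : ∀ x : 𝓞 F, x ∈ w.asIdeal ↔ V.valuation (io x) < 1)
    {π : 𝓞 k} (hspan : w.asIdeal.under (𝓞 k) = Ideal.span {π})
    (htriv : ∀ σ : F ≃ₐ[k] F, (∀ x : F, V.valuation (io x) ≤ 1 →
      V.valuation (io (σ x) - io x) < 1) → σ = 1) :
    w.valuation F (algebraMap k F π) = WithZero.exp (-1 : ℤ) := by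
  set p : Ideal (𝓞 k) := w.asIdeal.under (𝓞 k) with hp
  have hlo : w.asIdeal.LiesOver p := ⟨rfl⟩
  have hwp : w.asIdeal.IsPrime := w.isPrime
  have hpp : p.IsPrime := Ideal.IsPrime.under (𝓞 k) w.asIdeal
  have hp0 : p ≠ ⊥ := (w.under (𝓞 k)).ne_bot
  have hfin : Finite (𝓞 k ⧸ p) := Ideal.finiteQuotientOfFreeOfNeBot p hp0
  have hmax : p.IsMaximal := hpp.isMaximal hp0
  have hfr : Finite p.ResidueField :=
    Finite.of_surjective (algebraMap (𝓞 k ⧸ p) p.ResidueField)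
      (Ideal.bijective_algebraMap_quotient_residueField p).2
  have h1 := Ideal.card_inertia_eq_ramificationIdxIn (G := F ≃ₐ[k] F) p w.asIdeal
  -- the inertia group is trivial
  have hin : w.asIdeal.inertia (F ≃ₐ[k] F) = ⊥ := by
    rw [Subgroup.eq_bot_iff_forall]
    intro σ hσ
    apply htriv
    intro x hx
    obtain ⟨n, d, hnd⟩ := w.exists_primeCompl_mul_eq_of_integer x (le_ord io hw hx)
    have hσ1 : ∀ y : 𝓞 F, σ • y - y ∈ w.asIdeal := hσ
    have hcoe : ∀ y : 𝓞 F, ((σ • y : 𝓞 F) : F) = σ (y : F) := fun y => rfl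
    have hd1 : V.valuation (io ((d : 𝓞 F) : F)) = 1 := val_notMem io hw (x := d) d.2
    have hσd : (σ • (d : 𝓞 F) : 𝓞 F) ∉ w.asIdeal := by
      intro h
      have h2 := w.asIdeal.sub_mem h (hσ1 (d : 𝓞 F))
      rw [sub_sub_cancel] at h2
      exact d.2 h2
    have hd2 : V.valuation (io (σ ((d : 𝓞 F) : F))) = 1 := val_notMem io hw hσd
    have hd0 : ((d : 𝓞 F) : F) ≠ 0 := by
      intro h
      rw [h, map_zero, map_zero] at hd1
      exact zero_ne_one hd1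
    have hσd0 : σ ((d : 𝓞 F) : F) ≠ 0 := (map_ne_zero σ).2 hd0
    have hn := (hw _).1 (hσ1 n)
    have hd3 := (hw _).1 (hσ1 (d : 𝓞 F))
    have hnd' : x * ((d : 𝓞 F) : F) = ((n : 𝓞 F) : F) := hnd
    have hnd2 : σ x * σ ((d : 𝓞 F) : F) = σ ((n : 𝓞 F) : F) := by rw [← map_mul, hnd']
    have e1 : io (σ x) - io x = ((io (σ ((n : 𝓞 F) : F)) - io ((n : 𝓞 F) : F)) * io ((d : 𝓞 F) : F)
        - io ((n : 𝓞 F) : F) * (io (σ ((d : 𝓞 F) : F)) - io ((d : 𝓞 F) : F)))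
          / (io ((d : 𝓞 F) : F) * io (σ ((d : 𝓞 F) : F))) := by
      have i1 : io ((d : 𝓞 F) : F) ≠ 0 := (map_ne_zero io).2 hd0
      have i2 : io (σ ((d : 𝓞 F) : F)) ≠ 0 := (map_ne_zero io).2 hσd0
      rw [← hnd2, ← hnd', map_mul, map_mul]
      field_simp
      ring
    rw [e1, map_div₀, map_mul V.valuation (io ((d : 𝓞 F) : F)), hd1, hd2, one_mul, div_one]
    refine lt_of_le_of_lt (V.valuation.map_sub _ _) (max_lt ?_ ?_)
    · rw [map_mul, hd1, mul_one]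
      have : V.valuation (io (((σ • n - n : 𝓞 F)) : F)) < 1 := hn
      rwa [show (((σ • n - n : 𝓞 F)) : F) = σ ((n : 𝓞 F) : F) - ((n : 𝓞 F) : F) from by
        rw [← hcoe]; exact map_sub (algebraMap (𝓞 F) F) _ _, map_sub] at this
    · rw [map_mul]
      have : V.valuation (io (((σ • (d : 𝓞 F) - (d : 𝓞 F) : 𝓞 F)) : F)) < 1 := hd3
      rw [show (((σ • (d : 𝓞 F) - (d : 𝓞 F) : 𝓞 F)) : F)
          = σ ((d : 𝓞 F) : F) - ((d : 𝓞 F) : F) from by
        rw [← hcoe]; exact map_sub (algebraMap (𝓞 F) F) _ _, map_sub] at this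
      exact mul_lt_one_of_nonneg_of_lt_one_right (int_le io n) zero_le this
  rw [hin, Subgroup.card_bot, Ideal.ramificationIdxIn_eq_ramificationIdx p w.asIdeal (F ≃ₐ[k] F)] at h1
  have h2 : p.ramificationIdx' w.asIdeal = 1 := by
    rw [Ideal.ramificationIdx'_eq_ramificationIdx' p w.asIdeal
      (Ideal.map_ne_bot_of_ne_bot hp0), ← h1]
  set v : HeightOneSpectrum (𝓞 k) := ⟨p, hpp, hp0⟩ with hv
  have hlo' : w.asIdeal.LiesOver v.asIdeal := ⟨rfl⟩
  have h3 := HeightOneSpectrum.valuation_liesOver (K := k) F v w (algebraMap (𝓞 k) k π)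
  have hπ0 : π ≠ 0 := by
    rintro rfl
    apply hp0
    rw [hspan]
    simp
  rw [h2, pow_one, HeightOneSpectrum.valuation_of_algebraMap,
    v.intValuation_singleton hπ0 hspan] at h3
  exact h3.symm

end galois

end RAM

open _root_.Pool.Agent.MU3E.RAM in
theorem te_RAM (hP : Se_PPI) (hI : Sa_INT) : Se_RAM := by
  intro A B hAB V hV F _ _ htriv y hy hy0
  obtain ⟨hfd, -, -, hint⟩ := hI A B hAB
  obtain ⟨-, -, -, -, -, -, hPV⟩ := hP A B hAB
  obtain ⟨hv1, hv0, -, -, -, -, hunit, -⟩ := hPV V hV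
  have hk : NumberField (kk A B) := ⟨⟩
  have hFQ : FiniteDimensional ℚ F := FiniteDimensional.trans ℚ (kk A B) F
  have hF : NumberField F := ⟨⟩
  have hIn : ∀ x : OO A B, IsIntegral ℤ (ek x) := by
    intro x
    have h2 : IsIntegral ℤ (emb x) := (hint (emb x) (emb_mem x)).mpr ⟨x, rfl⟩
    have h3 : algebraMap (kk A B) ℂ (ek x) = emb x := rfl
    rw [← h3] at h2
    exact (isIntegral_algebraMap_iff (FaithfulSMul.algebraMap_injective (kk A B) ℂ)).mp h2
  set π : 𝓞 (kk A B) := ⟨ek (ppi A B), hIn _⟩ with hπ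
  have hio : ∀ x : kk A B, (algebraMap F ℂ) (algebraMap (kk A B) F x) = (x : ℂ) := fun x => rfl
  obtain ⟨w, hw⟩ := exists_prime (V := V) (algebraMap F ℂ)
    (z := algebraMap (𝓞 (kk A B)) (𝓞 F) π) (by
      intro h
      have h1 := congrArg (fun t : 𝓞 F => algebraMap F ℂ (t : F)) h
      have h2 : emb (ppi A B) = (algebraMap F ℂ) (((0 : 𝓞 F)) : F) := h1
      have h3 : (algebraMap F ℂ) (((0 : 𝓞 F)) : F) = 0 := by
        have h4 : ((0 : 𝓞 F) : F) = 0 := rfl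
        rw [h4, map_zero]
      exact hv0 (by rw [h2, h3, map_zero])) hv1
  have hspan : w.asIdeal.under (𝓞 (kk A B)) = Ideal.span {π} := by
    ext x
    rw [Ideal.mem_span_singleton]
    have h2 : IsIntegral ℤ ((x : kk A B) : ℂ) :=
      (RingOfIntegers.isIntegral_coe x).map (Algebra.ofId (kk A B) ℂ |>.restrictScalars ℤ)
    obtain ⟨z, hz⟩ := (hint _ (x : kk A B).2).mp h2
    have hxw : x ∈ w.asIdeal.under (𝓞 (kk A B)) ↔ V.valuation (emb z) < 1 := by
      rw [← hz]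
      exact hw (algebraMap (𝓞 (kk A B)) (𝓞 F) x)
    rw [hxw]
    constructor
    · intro h
      by_cases hd : ppi A B ∣ z
      · obtain ⟨c, rfl⟩ := hd
        refine ⟨⟨ek c, hIn c⟩, ?_⟩
        apply RingOfIntegers.ext
        apply Subtype.ext
        rw [hz, emb_mul hAB]
        rfl
      · rw [hunit z hd] at h
        exact absurd h (lt_irrefl _)
    · rintro ⟨c, hc⟩
      have h3 : emb z = emb (ppi A B) * ((c : kk A B) : ℂ) := by
        rw [← hz, hc]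
        rfl
      have h4 : V.valuation ((c : kk A B) : ℂ) ≤ 1 := by
        have := int_le (V := V) (algebraMap (kk A B) ℂ) c
        exact this
      rw [h3, map_mul]
      exact mul_lt_one_of_nonneg_of_lt_one_left zero_le hv1 h4
  have hord := unram (algebraMap F ℂ) hw hspan (by
    intro σ hσ
    apply htriv σ
    intro x hx
    exact hσ x hx)
  obtain ⟨n, hn⟩ := pow_unif (algebraMap F ℂ) hw hord (x := (⟨y, hy⟩ : F))
    (fun h => hy0 (congrArg Subtype.val h))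
  exact ⟨n, hn⟩

end

end Pool.Agent.MU3E


end

section

/-!
# MUX, block E: module RAM (helper72)
-/

set_option autoImplicit false

open WeierstrassCurve Polynomial NumberField IsDedekindDomain

namespace Pool.Agent.MUXE

open _root_.MU3 _root_.Pool.Agent.MU3A _root_.Pool.Agent.MU3B _root_.Pool.Agent.MUX _root_.Pool.Agent.MUXU _root_.Pool.Agent.RI

noncomputable section

namespace RamE

open Ideal _root_.Pool.Agent.MU3E.RAM

variable {V : ValuationSubring ℂ} {k F : Type} [Field k] [NumberField k] [Field F] [NumberField F]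
  [Algebra k F] [IsGalois k F] (io : F →+* ℂ)

/-- the value of an element of a prime which is not in its square -/
theorem intVal_one {R : Type} [CommRing R] [IsDedekindDomain R] (v : HeightOneSpectrum R) {q : R}
    (h1 : q ∈ v.asIdeal) (h2 : q ∉ v.asIdeal ^ 2) :
    v.intValuation q = WithZero.exp (-1 : ℤ) := by
  have hq0 : q ≠ 0 := by
    rintro rfl
    exact h2 (Ideal.zero_mem _)
  have hv0 : v.intValuation q ≠ 0 := by
    intro h
    apply h2
    rw [← v.intValuation_le_pow_iff_mem, h]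
    exact zero_le
  have i1 : v.intValuation q ≤ WithZero.exp (-((1 : ℕ) : ℤ)) := by
    rw [v.intValuation_le_pow_iff_mem, pow_one]
    exact h1
  have i2 : ¬ v.intValuation q ≤ WithZero.exp (-((2 : ℕ) : ℤ)) := by
    rw [v.intValuation_le_pow_iff_mem]
    exact h2
  rw [← WithZero.exp_log hv0] at i1 i2 ⊢
  rw [WithZero.exp_le_exp] at i1 i2
  have i3 : WithZero.log (v.intValuation q) = -1 := by
    push_cast at i1 i2
    omega
  rw [i3]

/-- if the inertia group at `V` is trivial, an element of the prime below which is not in its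
square is a uniformiser. -/
theorem unramP {w : HeightOneSpectrum (𝓞 F)}
    (hw : ∀ x : 𝓞 F, x ∈ w.asIdeal ↔ V.valuation (io x) < 1)
    {q : 𝓞 k} (hq1 : q ∈ w.asIdeal.under (𝓞 k)) (hq2 : q ∉ (w.asIdeal.under (𝓞 k)) ^ 2)
    (htriv : ∀ σ : F ≃ₐ[k] F, (∀ x : F, V.valuation (io x) ≤ 1 →
      V.valuation (io (σ x) - io x) < 1) → σ = 1) :
    w.valuation F (algebraMap k F q) = WithZero.exp (-1 : ℤ) := by
  set p : Ideal (𝓞 k) := w.asIdeal.under (𝓞 k) with hp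
  have hlo : w.asIdeal.LiesOver p := ⟨rfl⟩
  have hwp : w.asIdeal.IsPrime := w.isPrime
  have hpp : p.IsPrime := Ideal.IsPrime.under (𝓞 k) w.asIdeal
  have hp0 : p ≠ ⊥ := (w.under (𝓞 k)).ne_bot
  have hfin : Finite (𝓞 k ⧸ p) := Ideal.finiteQuotientOfFreeOfNeBot p hp0
  have hmax : p.IsMaximal := hpp.isMaximal hp0
  have hfr : Finite p.ResidueField :=
    Finite.of_surjective (algebraMap (𝓞 k ⧸ p) p.ResidueField)
      (Ideal.bijective_algebraMap_quotient_residueField p).2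
  have h1 := Ideal.card_inertia_eq_ramificationIdxIn (G := F ≃ₐ[k] F) p w.asIdeal
  -- the inertia group is trivial
  have hin : w.asIdeal.inertia (F ≃ₐ[k] F) = ⊥ := by
    rw [Subgroup.eq_bot_iff_forall]
    intro σ hσ
    apply htriv
    intro x hx
    obtain ⟨n, d, hnd⟩ := w.exists_primeCompl_mul_eq_of_integer x (le_ord io hw hx)
    have hσ1 : ∀ y : 𝓞 F, σ • y - y ∈ w.asIdeal := hσ
    have hcoe : ∀ y : 𝓞 F, ((σ • y : 𝓞 F) : F) = σ (y : F) := fun y => rfl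
    have hd1 : V.valuation (io ((d : 𝓞 F) : F)) = 1 := val_notMem io hw (x := d) d.2
    have hσd : (σ • (d : 𝓞 F) : 𝓞 F) ∉ w.asIdeal := by
      intro h
      have h2 := w.asIdeal.sub_mem h (hσ1 (d : 𝓞 F))
      rw [sub_sub_cancel] at h2
      exact d.2 h2
    have hd2 : V.valuation (io (σ ((d : 𝓞 F) : F))) = 1 := val_notMem io hw hσd
    have hd0 : ((d : 𝓞 F) : F) ≠ 0 := by
      intro h
      rw [h, map_zero, map_zero] at hd1
      exact zero_ne_one hd1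
    have hσd0 : σ ((d : 𝓞 F) : F) ≠ 0 := (_root_.map_ne_zero σ).2 hd0
    have hn := (hw _).1 (hσ1 n)
    have hd3 := (hw _).1 (hσ1 (d : 𝓞 F))
    have hnd' : x * ((d : 𝓞 F) : F) = ((n : 𝓞 F) : F) := hnd
    have hnd2 : σ x * σ ((d : 𝓞 F) : F) = σ ((n : 𝓞 F) : F) := by rw [← map_mul, hnd']
    have e1 : io (σ x) - io x = ((io (σ ((n : 𝓞 F) : F)) - io ((n : 𝓞 F) : F)) * io ((d : 𝓞 F) : F)
        - io ((n : 𝓞 F) : F) * (io (σ ((d : 𝓞 F) : F)) - io ((d : 𝓞 F) : F)))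
          / (io ((d : 𝓞 F) : F) * io (σ ((d : 𝓞 F) : F))) := by
      have i1 : io ((d : 𝓞 F) : F) ≠ 0 := (_root_.map_ne_zero io).2 hd0
      have i2 : io (σ ((d : 𝓞 F) : F)) ≠ 0 := (_root_.map_ne_zero io).2 hσd0
      rw [← hnd2, ← hnd', map_mul, map_mul]
      field_simp
      ring
    rw [e1, map_div₀, map_mul V.valuation (io ((d : 𝓞 F) : F)), hd1, hd2, one_mul, div_one]
    refine lt_of_le_of_lt (V.valuation.map_sub _ _) (max_lt ?_ ?_)
    · rw [map_mul, hd1, mul_one]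
      have : V.valuation (io (((σ • n - n : 𝓞 F)) : F)) < 1 := hn
      rwa [show (((σ • n - n : 𝓞 F)) : F) = σ ((n : 𝓞 F) : F) - ((n : 𝓞 F) : F) from by
        rw [← hcoe]; exact map_sub (algebraMap (𝓞 F) F) _ _, map_sub] at this
    · rw [map_mul]
      have : V.valuation (io (((σ • (d : 𝓞 F) - (d : 𝓞 F) : 𝓞 F)) : F)) < 1 := hd3
      rw [show (((σ • (d : 𝓞 F) - (d : 𝓞 F) : 𝓞 F)) : F)
          = σ ((d : 𝓞 F) : F) - ((d : 𝓞 F) : F) from by
        rw [← hcoe]; exact map_sub (algebraMap (𝓞 F) F) _ _, map_sub] at this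
      exact mul_lt_one_of_nonneg_of_lt_one_right (int_le io n) zero_le this
  rw [hin, Subgroup.card_bot, Ideal.ramificationIdxIn_eq_ramificationIdx p w.asIdeal (F ≃ₐ[k] F)] at h1
  have h2 : p.ramificationIdx' w.asIdeal = 1 := by
    rw [Ideal.ramificationIdx'_eq_ramificationIdx' p w.asIdeal
      (Ideal.map_ne_bot_of_ne_bot hp0), ← h1]
  set v : HeightOneSpectrum (𝓞 k) := ⟨p, hpp, hp0⟩ with hv
  have hlo' : w.asIdeal.LiesOver v.asIdeal := ⟨rfl⟩
  have h3 := HeightOneSpectrum.valuation_liesOver (K := k) F v w (algebraMap (𝓞 k) k q)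
  rw [h2, pow_one, HeightOneSpectrum.valuation_of_algebraMap,
    intVal_one v (q := q) hq1 hq2] at h3
  exact h3.symm

end RamE

open _root_.Pool.Agent.MUXE.RamE _root_.Pool.Agent.MU3E.RAM in
theorem te_RAM (hPA : Sxe_PA) : Sxe_RAM := by
  intro p A B P V hC F _ _ htriv y hy hy0
  obtain ⟨hle, hone, hp0, -, -, -, -⟩ := hPA p A B P V hC
  obtain ⟨⟨φ, hφ⟩, hinj, hded, hpos, hint⟩ := hC.ring
  have hw0 : _root_.IsIntegral ℤ (wC A B) := by
    rw [hint _ (wC_mem A B)]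
    exact ⟨⟨0, 1⟩, by simp [emb]⟩
  have hfd : FiniteDimensional ℚ (kk A B) :=
    IntermediateField.adjoin.finiteDimensional hw0.tower_top
  have hk : NumberField (kk A B) := ⟨⟩
  have hFQ : FiniteDimensional ℚ F := FiniteDimensional.trans ℚ (kk A B) F
  have hF : NumberField F := ⟨⟩
  have hIn : ∀ x : OO A B, _root_.IsIntegral ℤ (ek x) := by
    intro x
    have h2 : _root_.IsIntegral ℤ (emb x) := (hint (emb x) (_root_.Pool.Agent.MU3A.emb_mem x)).mpr ⟨x, rfl⟩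
    have h3 : algebraMap (kk A B) ℂ (ek x) = emb x := rfl
    rw [← h3] at h2
    exact (isIntegral_algebraMap_iff (FaithfulSMul.algebraMap_injective (kk A B) ℂ)).mp h2
  -- the ring isomorphism
  let e : OO A B →+* 𝓞 (kk A B) :=
    { toFun := fun x => ⟨ek x, hIn x⟩
      map_one' := by
        apply RingOfIntegers.ext
        apply Subtype.ext
        change emb 1 = 1
        rw [← hφ, map_one]
      map_mul' := by
        intro a b
        apply RingOfIntegers.ext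
        apply Subtype.ext
        change emb (a * b) = emb a * emb b
        rw [← hφ, ← hφ, ← hφ, map_mul]
      map_zero' := by
        apply RingOfIntegers.ext
        apply Subtype.ext
        change emb 0 = 0
        rw [← hφ, map_zero]
      map_add' := by
        intro a b
        apply RingOfIntegers.ext
        apply Subtype.ext
        change emb (a + b) = emb a + emb b
        rw [← hφ, ← hφ, ← hφ, map_add] }
  have he : ∀ x, (((e x : 𝓞 (kk A B)) : kk A B) : ℂ) = emb x := fun x => rfl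
  have hesurj : Function.Surjective e := by
    intro x
    have h2 : _root_.IsIntegral ℤ ((x : kk A B) : ℂ) :=
      (RingOfIntegers.isIntegral_coe x).map (Algebra.ofId (kk A B) ℂ |>.restrictScalars ℤ)
    obtain ⟨z, hz⟩ := (hint _ (x : kk A B).2).mp h2
    refine ⟨z, ?_⟩
    apply RingOfIntegers.ext
    apply Subtype.ext
    rw [he, hz]
  have heinj : Function.Injective e := by
    rw [injective_iff_map_eq_zero]
    intro x hx
    apply hinj
    rw [← he, hx]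
    rfl
  have hpC : emb ((p : ℕ) : OO A B) = (p : ℂ) := by rw [← hφ, map_natCast]
  have hpne : (p : ℂ) ≠ 0 := by
    intro h
    exact hp0 (by rw [h, map_zero])
  obtain ⟨w, hw⟩ := exists_prime (V := V) (algebraMap F ℂ)
    (z := ((p : ℕ) : 𝓞 F)) (by
      intro h
      have h1 := congrArg (fun t : 𝓞 F => algebraMap F ℂ (t : F)) h
      have h2 : ((p : ℕ) : ℂ) = 0 := by
        simpa using h1
      exact hpne h2) (by
      have h2 : (algebraMap F ℂ) ((((p : ℕ) : 𝓞 F)) : F) = (p : ℂ) := by simp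
      rw [h2]
      exact hC.vp)
  have hcomap : (w.asIdeal.under (𝓞 (kk A B))).comap e = P := by
    ext z
    have hxw : z ∈ (w.asIdeal.under (𝓞 (kk A B))).comap e ↔ V.valuation (emb z) < 1 := by
      exact hw (algebraMap (𝓞 (kk A B)) (𝓞 F) (e z))
    rw [hxw]
    constructor
    · intro h
      by_contra hz
      rw [(hone z hz).1] at h
      exact lt_irrefl _ h
    · intro h
      exact hC.vP z h
  have hmap : P.map e = w.asIdeal.under (𝓞 (kk A B)) := by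
    rw [← hcomap]
    exact Ideal.map_comap_of_surjective e hesurj _
  have hep : e ((p : ℕ) : OO A B) = ((p : ℕ) : 𝓞 (kk A B)) := map_natCast e p
  have hq1 : ((p : ℕ) : 𝓞 (kk A B)) ∈ w.asIdeal.under (𝓞 (kk A B)) := by
    rw [← hmap, ← hep]
    exact Ideal.mem_map_of_mem e hC.mem
  have hq2 : ((p : ℕ) : 𝓞 (kk A B)) ∉ (w.asIdeal.under (𝓞 (kk A B))) ^ 2 := by
    rw [← hmap, ← Ideal.map_pow, ← hep, Ideal.mem_map_iff_of_surjective e hesurj]
    rintro ⟨z, hz, hz2⟩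
    rw [heinj hz2] at hz
    exact hC.split hz
  have hord := unramP (algebraMap F ℂ) hw hq1 hq2 (by
    intro σ hσ
    apply htriv σ
    intro x hx
    exact hσ x hx)
  obtain ⟨n, hn⟩ := pow_unif (algebraMap F ℂ) hw hord (x := (⟨y, hy⟩ : F))
    (fun h => hy0 (congrArg Subtype.val h))
  refine ⟨n, ?_⟩
  have h5 : (algebraMap F ℂ) (algebraMap (kk A B) F (((p : ℕ) : 𝓞 (kk A B)) : kk A B)) = (p : ℂ) := by
    simp
  rw [h5] at hn
  exact hn

end

end Pool.Agent.MUXE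


end

section

/-!
# MU3, block E, module BAS: totally ramified over unramified
-/

set_option autoImplicit false

namespace Pool.Agent.MU3E

namespace BAS

/-- valuation of a sum of elements of different valuations -/
theorem sum_max {E Γ : Type} [Field E] [LinearOrderedCommGroupWithZero Γ] (v : Valuation E Γ)
    {ι : Type} [DecidableEq ι] (s : Finset ι) (f : ι → E)
    (h : ∀ i ∈ s, ∀ j ∈ s, i ≠ j → f i ≠ 0 → f j ≠ 0 → v (f i) ≠ v (f j)) :
    ∀ i ∈ s, v (f i) ≤ v (∑ j ∈ s, f j) := by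
  intro i hi
  by_cases h0 : f i = 0
  · rw [h0, map_zero]; exact zero_le
  obtain ⟨j, hj, hmax⟩ := s.exists_max_image (fun k => v (f k)) ⟨i, hi⟩
  have hfi : v (f i) ≠ 0 := (Valuation.ne_zero_iff v).2 h0
  have hfj : v (f j) ≠ 0 := fun h1 => hfi (le_antisymm (h1 ▸ hmax i hi) zero_le)
  have hj0 : f j ≠ 0 := (Valuation.ne_zero_iff v).1 hfj
  have key : v (∑ k ∈ s, f k) = v (f j) := by
    refine Valuation.map_sum_eq_of_lt v hj ?_
    intro k hk
    obtain ⟨hk1, hk2⟩ := Finset.mem_sdiff.1 hk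
    rw [Finset.mem_singleton] at hk2
    by_cases hk0 : f k = 0
    · rw [hk0, map_zero]; exact zero_lt_iff.2 hfj
    · exact lt_of_le_of_ne (hmax k hk1) (h k hk1 j hj hk2 hk0 hj0)
  rw [key]
  exact hmax i hi

end BAS

open _root_.Pool.Agent.MU3E.BAS in
theorem te_BAS : Se_BAS := by
  intro K E Γ _ _ _ _ v M₀ M _ _ N p π σ r hM hN hfin hp0 hp1 hval hπ hvπ hσ hr hr2 w hw
  have hvp0 : v p ≠ 0 := (Valuation.ne_zero_iff v).2 hp0
  have hρ0 : v π ≠ 0 := by
    intro h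
    rw [h, zero_pow hN.ne'] at hvπ
    exact hvp0 hvπ.symm
  have hρ1 : v π < 1 := by
    by_contra h
    have h1 : (1 : Γ) ≤ v π ^ N := one_le_pow₀ (not_lt.1 h)
    rw [hvπ] at h1
    exact absurd hp1 (not_lt.2 h1)
  have hmono : StrictAnti (fun j : ℤ => v π ^ j) :=
    zpow_right_strictAnti₀ (zero_lt_iff.2 hρ0) hρ1
  -- the linear map
  let T : (Fin N → M₀) →ₗ[K] M :=
    { toFun := fun a => ∑ i, IntermediateField.inclusion hM (a i) * (⟨π, hπ⟩ : M) ^ (i : ℕ)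
      map_add' := fun a b => by
        simp only [Pi.add_apply, map_add, add_mul, Finset.sum_add_distrib]
      map_smul' := fun c a => by
        simp only [Pi.smul_apply, map_smul, smul_mul_assoc, RingHom.id_apply, Finset.smul_sum] }
  have hTc : ∀ a : Fin N → M₀, ((T a : M) : E) = ∑ i, ((a i : M₀) : E) * π ^ (i : ℕ) := by
    intro a
    change ((∑ i, IntermediateField.inclusion hM (a i) * (⟨π, hπ⟩ : M) ^ (i : ℕ) : M) : E) = _
    push_cast
    rfl
  have hterm : ∀ (a : Fin N → M₀) (i : Fin N), ((a i : M₀) : E) ≠ 0 → ∃ k : ℤ,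
      v ((a i : M₀) : E) = v π ^ (N * k) ∧
      v (((a i : M₀) : E) * π ^ (i : ℕ)) = v π ^ (N * k + (i : ℕ) : ℤ) := by
    intro a i h
    obtain ⟨k, hk⟩ := hval _ (a i).2 h
    have h1 : v ((a i : M₀) : E) = v π ^ ((N : ℤ) * k) := by
      rw [hk, ← hvπ, zpow_mul, zpow_natCast]
    refine ⟨k, h1, ?_⟩
    rw [map_mul, map_pow, h1, zpow_add₀ hρ0, zpow_natCast]
  have hmax : ∀ (a : Fin N → M₀) (i : Fin N),
      v (((a i : M₀) : E) * π ^ (i : ℕ)) ≤ v ((T a : M) : E) := by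
    intro a i
    rw [hTc]
    refine sum_max v Finset.univ (fun i : Fin N => ((a i : M₀) : E) * π ^ (i : ℕ)) ?_ i
      (Finset.mem_univ i)
    intro i _ j _ hij hi hj he
    obtain ⟨k, -, hk⟩ := hterm a i (left_ne_zero_of_mul hi)
    obtain ⟨l, -, hl⟩ := hterm a j (left_ne_zero_of_mul hj)
    change v (((a i : M₀) : E) * π ^ (i : ℕ)) = v (((a j : M₀) : E) * π ^ (j : ℕ)) at he
    rw [hk, hl] at he
    have h1 : (N : ℤ) * k + (i : ℕ) = N * l + (j : ℕ) := hmono.injective he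
    have h2 := i.2
    have h3 := j.2
    apply hij
    apply Fin.ext
    have h4 : ((i : ℕ) : ℤ) = ((N : ℤ) * k + (i : ℕ)) % N := by
      rw [Int.mul_add_emod_self_left, Int.emod_eq_of_lt (by positivity) (by exact_mod_cast h2)]
    have h5 : ((j : ℕ) : ℤ) = ((N : ℤ) * l + (j : ℕ)) % N := by
      rw [Int.mul_add_emod_self_left, Int.emod_eq_of_lt (by positivity) (by exact_mod_cast h3)]
    have h6 : ((i : ℕ) : ℤ) = ((j : ℕ) : ℤ) := by rw [h4, h5, h1]
    exact_mod_cast h6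
  have hπ0 : π ≠ 0 := (Valuation.ne_zero_iff v).1 hρ0
  have hinj : Function.Injective T := by
    rw [injective_iff_map_eq_zero]
    intro a ha
    funext i
    have h1 := hmax a i
    rw [ha] at h1
    have h2 : v (((0 : M) : M) : E) = 0 := by
      rw [ZeroMemClass.coe_zero, map_zero]
    rw [h2] at h1
    have h3 : ((a i : M₀) : E) * π ^ (i : ℕ) = 0 := by
      by_contra h
      exact (Valuation.ne_zero_iff v).2 h (le_antisymm h1 zero_le)
    rcases mul_eq_zero.1 h3 with h4 | h4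
    · exact Subtype.ext h4
    · exact absurd h4 (pow_ne_zero _ hπ0)
  have hsurj : Function.Surjective T := by
    have h1 : Module.finrank K (Fin N → M₀) = N * Module.finrank K M₀ := by
      rw [Module.finrank_pi_fintype]
      simp
    have h2 := LinearMap.finrank_le_finrank_of_injective hinj
    exact (LinearMap.injective_iff_surjective_of_finrank_eq_finrank
      (le_antisymm h2 (by rw [h1]; exact hfin))).1 hinj
  obtain ⟨a, ha⟩ := hsurj w
  have hva : ∀ i, v ((a i : M₀) : E) ≤ 1 := by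
    intro i
    by_cases h0 : ((a i : M₀) : E) = 0
    · rw [h0, map_zero]; exact zero_le_one
    obtain ⟨k, hk1, hk2⟩ := hterm a i h0
    have h1 := hmax a i
    rw [ha, hk2] at h1
    have h2 : v π ^ ((N : ℤ) * k + (i : ℕ)) ≤ v π ^ (0 : ℤ) := by
      rw [zpow_zero]; exact h1.trans hw
    have h3 : 0 ≤ (N : ℤ) * k + (i : ℕ) := hmono.le_iff_ge.1 h2
    have h4 : 0 ≤ k := by
      by_contra hk
      have h5 : k ≤ -1 := by omega
      have h6 : (N : ℤ) * k ≤ N * (-1) := mul_le_mul_of_nonneg_left h5 (by positivity)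
      have h7 := i.2
      have h8 : ((i : ℕ) : ℤ) < N := by exact_mod_cast h7
      linarith
    rw [hk1, ← zpow_zero (v π)]
    exact hmono.le_iff_ge.2 (by positivity)
  have hσc : ∀ x : M, (σ x : E) = σ x := fun _ => rfl
  have hσa : ∀ i, σ (IntermediateField.inclusion hM (a i)) = ((a i : M₀) : E) := fun i =>
    hσ (IntermediateField.inclusion hM (a i)) (a i).2
  have hsw : σ w - w = ∑ i, ((a i : M₀) : E) * ((σ ⟨π, hπ⟩) ^ (i : ℕ) - π ^ (i : ℕ)) := by
    have h1 : σ w = ∑ i, ((a i : M₀) : E) * (σ ⟨π, hπ⟩) ^ (i : ℕ) := by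
      rw [← ha]
      change σ (∑ i, IntermediateField.inclusion hM (a i) * (⟨π, hπ⟩ : M) ^ (i : ℕ)) = _
      rw [map_sum]
      refine Finset.sum_congr rfl fun i _ => ?_
      rw [map_mul, map_pow, hσa]
    have h2 : (w : E) = ∑ i, ((a i : M₀) : E) * π ^ (i : ℕ) := by rw [← ha, hTc]
    rw [h1, h2, ← Finset.sum_sub_distrib]
    exact Finset.sum_congr rfl fun i _ => by ring
  rw [hsw]
  refine Valuation.map_sum_le v fun i _ => ?_
  rw [map_mul]
  have hsπ : v (σ ⟨π, hπ⟩) ≤ 1 := by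
    have h1 : σ ⟨π, hπ⟩ = (σ ⟨π, hπ⟩ - π) + π := by ring
    rw [h1]
    exact v.map_add_le (hr2.trans hr) hρ1.le
  have h1 : v ((σ ⟨π, hπ⟩) ^ (i : ℕ) - π ^ (i : ℕ)) ≤ r := by
    rw [← (Commute.all (σ ⟨π, hπ⟩) π).mul_geom_sum₂, map_mul]
    have h2 : v (∑ j ∈ Finset.range (i : ℕ), (σ ⟨π, hπ⟩) ^ j * π ^ ((i : ℕ) - 1 - j)) ≤ 1 := by
      refine Valuation.map_sum_le v fun j _ => ?_
      rw [map_mul, map_pow, map_pow]
      exact mul_le_one' (pow_le_one' hsπ _) (pow_le_one' hρ1.le _)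
    calc v (σ ⟨π, hπ⟩ - π) * _ ≤ r * 1 := mul_le_mul' hr2 h2
      _ = r := mul_one r
  calc v ((a i : M₀) : E) * _ ≤ 1 * r := mul_le_mul' (hva i) h1
    _ = r := one_mul r

end Pool.Agent.MU3E


end

section

/-!
# MUX, block E, THE: expansion of `Θ_a` near `z`
-/

set_option autoImplicit false

namespace Pool.Agent.MUXE

open _root_.MU3 _root_.Pool.Agent.MU3A _root_.Pool.Agent.MU3B _root_.Pool.Agent.MUX _root_.Pool.Agent.MUXU _root_.Pool.Agent.RI

/-- (THE) expansion of `Θ_a` near `z` -/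
theorem te_THE (h1 : Pool.Agent.MU3E.Se_PRD) (h2 : St_TDL) : Sxe_THE := by
  intro A B V L G a H ha hH z hz haz hq
  have hxx : ∀ u q, L.weierstrassP u - L.weierstrassP q = xn L u - xn L q := by
    intro u q; unfold xn; ring
  have hTh : ∀ u, ThetaH L H u = ∏ q : H, (xn L u - xn L q) := by
    intro u
    unfold ThetaH
    rw [← Finset.prod_coe_sort]
    exact Finset.prod_congr rfl fun q _ => hxx u q
  have hcv : ∀ q : H, V.valuation (xn L z - xn L q) = 1 := fun q =>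
    G.sub z q hz (hq q q.2).1 (hq q q.2).2.1 (hq q q.2).2.2
  have hc0 : ∀ q : H, xn L z - xn L q ≠ 0 := fun q h0 => by
    have := hcv q
    rw [h0, map_zero] at this
    exact zero_ne_one this
  have hy : V.valuation (L.derivWeierstrassP z) ≤ 1 := G.intD z hz
  have hlv : ∀ q : H, V.valuation (L.derivWeierstrassP z / (xn L z - xn L q)) ≤ 1 := by
    intro q
    rw [map_div₀, hcv q, div_one]
    exact hy
  have hnat : ∀ w ∈ L.lattice, (a : ℂ) * w ∈ L.lattice := by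
    intro w hw
    have := L.lattice.smul_mem (a : ℤ) hw
    rwa [zsmul_eq_mul, Int.cast_natCast] at this
  have hdl : ∑ q : H, L.derivWeierstrassP z / (xn L z - xn L q) = dlX L a z := by
    have h3 := (h2 L (a : ℂ) H (Nat.cast_ne_zero.2 ha) hnat hH z haz).1
    unfold dlX
    rw [← Finset.sum_coe_sort] at h3
    have h4 : ((‖(a : ℂ)‖ ^ 2 : ℝ) : ℂ) = (a : ℂ) ^ 2 := by
      rw [Complex.norm_natCast]; push_cast; rfl
    rw [h4] at h3
    rw [← h3]
    refine Finset.sum_congr rfl fun q _ => ?_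
    rw [hxx]
  have key : ∀ (d : H → ℂ) (t : ℂ), V.valuation t < 1 →
      (∀ q : H, V.valuation (d q - (xn L z - xn L q) *
        (1 + t * (L.derivWeierstrassP z / (xn L z - xn L q)))) ≤ V.valuation t ^ 2) →
      V.valuation (ThetaH L H z) = 1 ∧ V.valuation (dlX L a z) ≤ 1 ∧
      V.valuation (∏ q : H, d q - ThetaH L H z * (1 + t * dlX L a z)) ≤ V.valuation t ^ 2 := by
    intro d t ht hd
    have h3 := h1 ℂ V.ValueGroup H V.valuation (fun q => xn L z - xn L q) d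
      (fun q => L.derivWeierstrassP z / (xn L z - xn L q)) (fun _ => 1) t ht hcv hlv hd
    simp only [zpow_one, Int.cast_one, one_mul] at h3
    rw [← hTh, hdl] at h3
    exact h3
  have k0 := key (fun q => xn L z - xn L q) 0 (by rw [map_zero]; exact zero_lt_one) (by
    intro q
    rw [zero_mul, add_zero, mul_one, sub_self, map_zero]
    simp)
  refine ⟨k0.1, k0.2.1, ?_⟩
  intro R hR hRL
  have hn := G.near z R hz hR hRL
  have ht := (G.par R hR hRL).1
  have k1 := key (fun q => xn L (z + R) - xn L q) (tE L R) ht (by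
    intro q
    have e : xn L (z + R) - xn L q - (xn L z - xn L q) *
        (1 + tE L R * (L.derivWeierstrassP z / (xn L z - xn L q))) =
        xn L (z + R) - xn L z - L.derivWeierstrassP z * tE L R := by
      have := hc0 q
      field_simp
      ring
    rw [e]
    exact hn)
  rw [hTh (z + R)]
  exact k1.2.2

end Pool.Agent.MUXE


end

section

/-!
# MUX, block E: an automorphism which is close to the identity (module SIG)
-/

set_option autoImplicit false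

open WeierstrassCurve Polynomial NumberField IsDedekindDomain

namespace Pool.Agent.MUXE

open _root_.MU3 _root_.Pool.Agent.MU3A _root_.Pool.Agent.MU3B _root_.Pool.Agent.MUX _root_.Pool.Agent.MUXU _root_.Pool.Agent.RI

noncomputable section

namespace SIG

variable {A B : ℤ}

/-- a natural number `≥ 3` does not divide `2` -/
theorem not_dvd_two {a : ℕ} (ha : 3 ≤ a) : ¬ ((a : ℕ) : OO A B) ∣ 2 := by
  rintro ⟨x, hx⟩
  have e2 : (2 : OO A B) = ((2 : ℕ) : OO A B) := by norm_num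
  have re_nat : ∀ n : ℕ, ((n : ℕ) : OO A B).re = n := fun n => rfl
  have im_nat : ∀ n : ℕ, ((n : ℕ) : OO A B).im = 0 := fun n => rfl
  have h1 := congrArg QuadraticAlgebra.re hx
  rw [e2, re_nat, QuadraticAlgebra.re_mul, re_nat, im_nat] at h1
  have h2 : (a : ℤ) ∣ 2 := ⟨x.re, by push_cast at h1; linarith⟩
  have h3 := Int.le_of_dvd (by norm_num) h2
  omega

theorem map_sub_mk {k : Type} [Field k] [Algebra k ℂ] (F : IntermediateField k ℂ)
    (σ : F →ₐ[k] ℂ) (a b : ℂ) (ha : a ∈ F) (hb : b ∈ F) (hab : a - b ∈ F) :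
    σ ⟨a - b, hab⟩ = σ ⟨a, ha⟩ - σ ⟨b, hb⟩ := by
  rw [← map_sub]
  rfl

theorem em_apply (F : IntermediateField (kk A B) ℂ) (σ : F ≃ₐ[kk A B] F) (w : F) :
    _root_.Pool.Agent.MU3A.em σ w = ((σ w : F) : ℂ) := rfl

/-- `1 + γ` is prime to `P^(n+1) m'` for `γ ∈ P^n m'`, `n ≥ 1` -/
theorem coprime_one_add {R : Type} [CommRing R] (P m' : Ideal R) (n : ℕ) (hn : 1 ≤ n) (γ : R)
    (hγ : γ ∈ P ^ n * m') : IsCoprime (Ideal.span {1 + γ}) (P ^ (n + 1) * m') := by
  rw [Ideal.isCoprime_iff_exists]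
  refine ⟨(1 + γ) * (1 - γ), Ideal.mul_mem_right _ _ (Ideal.subset_span rfl), γ * γ, ?_, by ring⟩
  have h1 : γ * γ ∈ (P ^ n * m') * (P ^ n * m') := Ideal.mul_mem_mul hγ hγ
  have h2 : (P ^ n * m') * (P ^ n * m') ≤ P ^ (n + 1) * m' := by
    calc (P ^ n * m') * (P ^ n * m') = (P ^ n * P ^ n) * (m' * m') := by ring
      _ ≤ P ^ (n + 1) * m' := by
          apply Ideal.mul_mono
          · rw [← pow_add]
            exact Ideal.pow_le_pow_right (by omega)
          · exact Ideal.mul_le_left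
  exact h2 h1

end SIG

open _root_.Pool.Agent.MUXE.SIG in
theorem te_SIG (h0 : Pool.Agent.MU3E.Se_BAS) (h1 : Sxe_DEG) (h2 : Sxe_TP) (h3 : Sxe_COP)
    (h4 : Sxe_UNR) (h6 : Sxe_TRA) (h7 : Sxe_TRB) (h8 : Sxe_KER) (h9 : Sxe_FAC) : Sxe_SIG := by
  intro p A B P V hC hG ⟨L, hL⟩ n m' a hn hm' hmP ha hma γ hγ
  have hR := hC.ring
  have hded : IsDedekindDomain (OO A B) := hR.ded
  have hPp : P.IsPrime := hC.prime
  obtain ⟨φ, hφ⟩ := hR.hom
  have hadd : ∀ x y : OO A B, emb (x + y) = emb x + emb y := fun x y => by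
    rw [← hφ, map_add, hφ, hφ]
  have hone : emb (1 : OO A B) = 1 := by rw [← hφ, map_one]
  have htwo : emb (2 : OO A B) = 2 := by rw [← hφ, map_ofNat]
  have hnat : ∀ k : ℕ, emb ((k : ℕ) : OO A B) = k := fun k => by rw [← hφ, map_natCast]
  have hp0 : (p : ℂ) ≠ 0 := by
    rcases hC.two with rfl | rfl <;> norm_num
  have hP0 : P ≠ ⊥ := by
    rintro rfl
    have h5 := hC.mem
    rw [Ideal.mem_bot] at h5
    apply hp0
    rw [← hnat p, h5, ← hφ, map_zero]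
  have hm0 : P ^ (n + 1) * m' ≠ ⊥ := mul_ne_zero (pow_ne_zero _ hP0) hm'
  have hmm' : P ^ (n + 1) * m' ≤ m' := Ideal.mul_le_right
  have hmPn : P ^ (n + 1) * m' ≤ P ^ (n + 1) := Ideal.mul_le_left
  have hγm' : γ ∈ m' := (Ideal.mul_le_right : P ^ n * m' ≤ m') hγ
  have hγP : γ ∈ P ^ n := (Ideal.mul_le_left : P ^ n * m' ≤ P ^ n) hγ
  obtain ⟨t1, t2, t3, t4, t5, t6, t7, t8, t9⟩ := h6 A B hR L hL
  obtain ⟨b1, -⟩ := h7 A B hR L hL
  obtain ⟨c1, c2, c3, c4, c5⟩ := h9 A B hR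
  have hX := hC.gx L hL
  -- the automorphism
  obtain ⟨σ, hσ⟩ := hG.sur (P ^ (n + 1) * m') hm0 (1 + γ) (coprime_one_add P m' n hn γ hγ)
  refine ⟨σ, hσ, ?_⟩
  -- the point of order prime to `P`
  obtain ⟨P₀, hP₀, h2P₀⟩ : ∃ z, Tor m' L z ∧ z + z ∉ L.lattice := by
    have hlt : m' < m' ⊔ sp (2 : OO A B) := by
      refine lt_of_le_of_ne le_sup_left fun he => ?_
      have h10 : (2 : OO A B) ∈ m' := by
        rw [he]
        exact Ideal.mem_sup_right (Ideal.subset_span rfl)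
      exact not_dvd_two ha (Ideal.mem_span_singleton.1 (hma h10))
    obtain ⟨z, hz, hz'⟩ := b1 _ _ hm' hlt
    refine ⟨z, hz, fun hc => hz' ?_⟩
    have hz2 : Tor (sp (2 : OO A B)) L z := by
      rw [t5, htwo, two_mul]
      exact hc
    intro x hx
    obtain ⟨y, hy, w, hw, rfl⟩ := Submodule.mem_sup.1 hx
    rw [hadd, add_mul]
    exact add_mem (hz y hy) (hz2 w hw)
  have hP₀L : P₀ ∉ L.lattice := fun hc => h2P₀ (add_mem hc hc)
  have hP₀E : ¬ InEn V L P₀ := fun hc =>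
    hP₀L (h3 p A B P V hC L hL m' hm' hmP P₀ hP₀ hc)
  have h2P₀E : ¬ InEn V L (P₀ + P₀) := fun hc =>
    h2P₀ (h3 p A B P V hC L hL m' hm' hmP (P₀ + P₀) (t2 _ _ _ hP₀ hP₀) hc)
  -- the point of order a power of `P`
  obtain ⟨P₁, hP₁, hP₁'⟩ := b1 (P ^ n) (P ^ (n + 1)) (pow_ne_zero _ hP0)
    (Ideal.pow_succ_lt_pow hP0 n)
  obtain ⟨hP₁E, hP₁L, hP₁v⟩ := h2 p A B P V hC n L hL P₁ hP₁ hP₁'
  obtain ⟨p1, p2, -⟩ := hX.par P₁ hP₁E hP₁L
  -- the point `P₀ + P₁`
  have hPE : ¬ InEn V L (P₀ + P₁) := by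
    intro hc
    apply hP₀E
    have h10 := hX.add _ _ hc (hX.neg _ hP₁E)
    rwa [add_neg_cancel_right] at h10
  have hPL : P₀ + P₁ ∉ L.lattice := fun hc => hPE (Or.inl hc)
  have hPT : Tor (P ^ (n + 1) * m') L (P₀ + P₁) :=
    t2 _ _ _ (fun x hx => hP₀ x (hmm' hx)) (fun x hx => hP₁ x (hmPn hx))
  -- the valuation of the uniformiser
  have hyu := hX.unitD P₀ hP₀E h2P₀E
  have hvb : V.valuation (L.derivWeierstrassP P₀ * tE L P₁) = V.valuation (tE L P₁) := by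
    rw [map_mul, hyu, one_mul]
  have hvπ : V.valuation (xn L (P₀ + P₁) - xn L P₀) = V.valuation (tE L P₁) := by
    rw [← hvb]
    apply Valuation.map_eq_of_sub_lt
    rw [hvb]
    refine lt_of_le_of_lt (hX.near P₀ P₁ hP₀E hP₁E hP₁L) ?_
    rw [sq]
    calc V.valuation (tE L P₁) * V.valuation (tE L P₁)
        < 1 * V.valuation (tE L P₁) := mul_lt_mul_of_pos_right p1 (zero_lt_iff.2 p2)
      _ = V.valuation (tE L P₁) := one_mul _
  -- a point of `E[P]`
  obtain ⟨R₀, hR₀, hR₀'⟩ := b1 ⊤ P hP0 (lt_top_iff_ne_top.2 hPp.ne_top)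
  have hR₀L : R₀ ∉ L.lattice := fun hc => hR₀' fun x _ => t1 x R₀ hc
  obtain ⟨hR₀E, hR₀v⟩ := h8 p A B P V hC L hL R₀ hR₀ hR₀L
  have hr1 : V.valuation (tE L R₀) ≤ 1 := (hX.par R₀ hR₀E hR₀L).1.le
  have hp1 : p - 1 ≠ 0 := by
    rcases hC.two with rfl | rfl <;> norm_num
  -- the point `R = γ P₁`
  obtain ⟨R, hRdef⟩ : ∃ R, R = emb γ * P₁ := ⟨_, rfl⟩
  have hRT : Tor P L R := by
    rw [hRdef]
    exact t6 (P ^ n) P γ P₁ hγP (by rw [← pow_succ]; exact hP₁)
  have hmove : V.valuation (xn L (P₀ + P₁ + R) - xn L (P₀ + P₁)) ≤ V.valuation (tE L R₀) := by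
    by_cases hRL : R ∈ L.lattice
    · have h10 := ((t9 (P₀ + P₁ + R) (P₀ + P₁) (by
        rw [add_sub_cancel_left]
        exact hRL)).2 (fun hc => hPL (by
          have := sub_mem hc hRL
          rwa [add_sub_cancel_right] at this))).1
      rw [h10, sub_self, map_zero]
      exact zero_le
    · obtain ⟨hRE, hRv⟩ := h8 p A B P V hC L hL R hRT hRL
      have hRr : V.valuation (tE L R) = V.valuation (tE L R₀) := by
        apply (pow_left_inj₀ zero_le zero_le hp1).1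
        rw [hRv, hR₀v]
      obtain ⟨q1, -, -⟩ := hX.par R hRE hRL
      have h10 := hX.near (P₀ + P₁) R hPE hRE hRL
      have h11 : V.valuation (tE L R) ^ 2 ≤ V.valuation (tE L R) := by
        rw [sq]
        exact mul_le_of_le_one_left' q1.le
      have h12 : V.valuation (L.derivWeierstrassP (P₀ + P₁) * tE L R) ≤ V.valuation (tE L R) := by
        rw [map_mul]
        exact mul_le_of_le_one_left' (hX.intD _ hPE)
      have h13 : xn L (P₀ + P₁ + R) - xn L (P₀ + P₁) =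
          (xn L (P₀ + P₁ + R) - xn L (P₀ + P₁) - L.derivWeierstrassP (P₀ + P₁) * tE L R) +
            L.derivWeierstrassP (P₀ + P₁) * tE L R := by ring
      rw [← hRr, h13]
      exact (Valuation.map_add _ _ _).trans (max_le (h10.trans h11) h12)
  -- `σ` fixes `RF m'`
  have hle := c1 _ _ hmm'
  have hfix : ∀ y : RF (P ^ (n + 1) * m'), (y : ℂ) ∈ RF m' → _root_.Pool.Agent.MU3A.em σ y = y := by
    rintro ⟨y, hy⟩ hy'
    exact c4 _ _ hmm' (_root_.Pool.Agent.MU3A.em σ) (1 + γ) hσ (by rw [add_sub_cancel_left]; exact hγm') y hy hy'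
  have hPF : xn L (P₀ + P₁) ∈ RF (P ^ (n + 1) * m') := (c2 _ L hL).2 _ hPT hPL
  have hP0F' : xn L P₀ ∈ RF m' := (c2 _ L hL).2 _ hP₀ hP₀L
  have hP0F : xn L P₀ ∈ RF (P ^ (n + 1) * m') := hle hP0F'
  have hπ : xn L (P₀ + P₁) - xn L P₀ ∈ RF (P ^ (n + 1) * m') := sub_mem hPF hP0F
  have hσπ : _root_.Pool.Agent.MU3A.em σ ⟨xn L (P₀ + P₁) - xn L P₀, hπ⟩ - (xn L (P₀ + P₁) - xn L P₀) =
      xn L (P₀ + P₁ + R) - xn L (P₀ + P₁) := by
    obtain ⟨e0, e1⟩ := (hσ.2 L hL).2 (P₀ + P₁) hPT hPL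
    have e2 : _root_.Pool.Agent.MU3A.em σ ⟨xn L (P₀ + P₁), hPF⟩ = xn L (emb (1 + γ) * (P₀ + P₁)) := e1 hPF
    have e3 : _root_.Pool.Agent.MU3A.em σ ⟨xn L P₀, hP0F⟩ = xn L P₀ := hfix ⟨xn L P₀, hP0F⟩ hP0F'
    have e4 : xn L (emb (1 + γ) * (P₀ + P₁)) = xn L (P₀ + P₁ + R) := by
      refine ((t9 _ _ ?_).2 e0).1
      have e5 : emb (1 + γ) * (P₀ + P₁) - (P₀ + P₁ + R) = emb γ * P₀ := by
        rw [hadd, hone, hRdef]
        ring
      rw [e5]
      exact hP₀ γ hγm'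
    rw [map_sub_mk (RF (P ^ (n + 1) * m')) (_root_.Pool.Agent.MU3A.em σ) _ _ hPF hP0F hπ, e2, e3, e4]
    ring
  have := hG.fin m' hm'
  have := hG.fin (P ^ (n + 1) * m') hm0
  have hdeg := h1 p A B P V hC hG (n + 1) m' (by omega) hm' hmP
  rw [Nat.add_sub_cancel] at hdeg
  have hNpos : 0 < (p - 1) * p ^ n := by
    rcases hC.two with rfl | rfl <;> positivity
  have hres := h0 (kk A B) ℂ V.ValueGroup V.valuation (RF m') (RF (P ^ (n + 1) * m'))
    ((p - 1) * p ^ n) (p : ℂ) (xn L (P₀ + P₁) - xn L P₀) (_root_.Pool.Agent.MU3A.em σ) (V.valuation (tE L R₀)) hle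
    hNpos hdeg hp0 hC.vp (h4 p A B P V hC hG m' hm' hmP) hπ (by rw [hvπ, hP₁v]) hfix hr1
    (by rw [hσπ]; exact hmove)
  intro w hw
  have h11 := hres w hw
  rw [em_apply] at h11
  calc V.valuation ((σ w : ℂ) - w) ^ (p - 1) ≤ V.valuation (tE L R₀) ^ (p - 1) :=
        pow_le_pow_left' h11 _
    _ = V.valuation (p : ℂ) := hR₀v

end

end Pool.Agent.MUXE


end
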