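import Mathlib
import Pool.Agent.MVF.C008
import Pool.Agent.MVF.C016
import Pool.Agent.MVF.C025
import Pool.Agent.MVF.C026
import Pool.Agent.MVF.C037
import Pool.Agent.MVF.C039
import Pool.Agent.MVF.C040

/-! Parts: MUX.Q_FRX, MUX.Q_ISQ, N2.DefsT, MUX.Y_MUI, MUX.Y_BRI, MUX.E_TRA, MUX.HY_CHR, MUX.I_E0, N2.DefsR2, MUX.HY_EIG, MU3.E_PRD -/

namespace Pool.Agent.MU3E.PRD
end Pool.Agent.MU3E.PRD
namespace Pool.Agent.MUXHY.Chr
end Pool.Agent.MUXHY.Chr
namespace Pool.Agent.MUXI.E0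
end Pool.Agent.MUXI.E0

section

/-!
# MUX, block R, part 2, module FRX (helper23): the Frobenius congruence for a prime ideal of degree one
-/

set_option autoImplicit false

open WeierstrassCurve Polynomial

namespace Pool.Agent.MUXV

open _root_.MU3 _root_.Pool.Agent.MU3A _root_.Pool.Agent.MU3B _root_.Pool.Agent.MUXU
open _root_.Pool.Agent.MUXF (CQ)

noncomputable section

theorem tq_FRX (hISQ : Sq_ISQ) (hVQI : Sq_VQI) (hNGR : Sx_NGR) (hFRN : Sx_FRN) : Sq_FRX := by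
  intro A B hC Q q hq hq2 hq3 hqD hQ L M mu hL hM hnL hnM V hV hkL hgL hkM hgM
  obtain ⟨-, h1⟩ := hVQI A B hC V
  obtain ⟨hvq, hvu, -⟩ := h1 Q q hq hQ hV
  have hv2 : V.valuation 2 = 1 := by
    have h := hvu 2 (by
      intro h
      have h2 : q ∣ 2 := by exact_mod_cast h
      exact hq2 ((Nat.prime_dvd_prime_iff_eq hq Nat.prime_two).1 h2))
    simpa using h
  have hv3 : V.valuation 3 = 1 := by
    have h := hvu 3 (by
      intro h
      have h2 : q ∣ 3 := by exact_mod_cast h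
      exact hq3 ((Nat.prime_dvd_prime_iff_eq hq Nat.prime_three).1 h2))
    simpa using h
  have hGL := hNGR V L hnL hv2 hkL hgL
  have hGM := hNGR V M hnM hv2 hkM hgM
  obtain ⟨⟨H, hI⟩, hmu, -⟩ := hISQ A B hC Q q hq hq2 hqD hQ L M (1 / 12) (1 / 12) mu hL hM V hGL hGM
  exact hFRN V L M mu q H hI hv3 hvq (hmu hV) hnL hnM hgL hgM

end

end Pool.Agent.MUXV


end

section

/-!
# MUX, ISQ: the multiplier at `V` above `𝔮` and at `V` above a different prime (helper92)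
-/

set_option autoImplicit false

open WeierstrassCurve Polynomial

namespace Pool.Agent.MUXV

open _root_.MU3 _root_.Pool.Agent.MU3A _root_.Pool.Agent.MU3B _root_.Pool.Agent.MUXU
open _root_.Pool.Agent.MUXF (CQ)

noncomputable section

theorem tq_ISQ (hCYQ : Sq_CYQ) (hAEL : Sq_AEL) (hVQI : Sq_VQI) (hEMB : Sq_EMB) (hMLT : Sx_MLT)
    (hMUN : Sx_MUN) : Sq_ISQ := by
  intro A B hAB Q q hq hq2 hdisc hcard L M c c' mu hCM hQr V hL hM
  obtain ⟨hIsg, hcyc, hord, H, hH, hHc⟩ :=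
    hCYQ A B hAB Q q hq hq2 hdisc hcard L M mu hCM hQr
  have hmu : mu ≠ 0 := hQr.1
  refine ⟨⟨H, ⟨hL, hM, hmu, hIsg, hq, hH, hHc, hcyc, hord⟩⟩, ?_, ?_⟩
  · intro hOvr
    obtain ⟨a, c₀, haQ, ha0, hodd, hqc, hael⟩ := hAEL A B hAB Q q hq hq2 hdisc hcard
    obtain ⟨-, -, -, hint, -, hinj, -⟩ := hEMB A B hAB
    have hemb0 : emb a ≠ 0 := by
      intro h0
      apply ha0
      apply hinj
      have h1 := hint 0
      rw [h0]
      simpa using h1.symm
    have hv0 : V.valuation (c₀ : ℂ) = 1 := by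
      have h2 := ((hVQI A B hAB V).2 Q q hq hcard hOvr).2.1 (c₀ : ℤ)
        (fun h => hqc (by exact_mod_cast h))
      simpa using h2
    have hMul : Isg M L (emb a / mu) := by
      intro w hw
      have h3 : mu * (w / mu) ∈ M.lattice := by
        rw [mul_div_cancel₀ w hmu]
        exact hw
      have h4 := (hQr.2 (w / mu)).1 h3 a haQ
      have h5 : emb a / mu * w = emb a * (w / mu) := by ring
      rw [h5]
      exact h4
    have hker : ∀ z : ℂ, emb a / mu * z ∈ L.lattice → (c₀ : ℂ) * z ∈ M.lattice := by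
      intro z hz
      have h5 : emb a / mu * z = emb a * (z / mu) := by ring
      rw [h5] at hz
      have h6 := hael L hCM (z / mu) hz
      have h7 := (hQr.2 (c₀ * (z / mu))).2 h6
      have h8 : mu * (c₀ * (z / mu)) = c₀ * z := by
        field_simp
      rw [h8] at h7
      exact h7
    have h9 := hMLT V L M c c' mu (emb a) c₀ hL hM hmu hemb0 hMul hodd hv0 hker
    rw [h9]
    exact hOvr a haQ
  · intro hvq
    exact hMUN V L M c c' mu q hL hM hmu hIsg (hq.odd_of_ne_two hq2) hvq hord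

end

end Pool.Agent.MUXV


end

section

/-!
# MUX-2N: common definitions, `2` inert in `k` (helper66). See `Pool/Agent/MUX/PAPER_2N.md`

`CaseT A B`: `2` is inert in `k`, `D ≠ -3`. `V` a valuation ring of `ℂ` with `V ∩ O = 2 O` (`OverI V (idl 2)`), `v = V.valuation`
(multiplicative; `v x ≤ v 2` is the additive `v(x) ≥ 1`). `SetT`: `f` odd, divisible by `3 |D|`. Levels `m = lvX 2 f n = f 2^(n+2)`, `a = aX 2 f =
1 + 8 f`, `γ ↔ 5`. `R : Reps A B (2 * f) ι`. `O^* = {1,-1}`, `O/2` has four elements.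

* `GoodT V L u e a1 a3` : `w1, w2` two points of order three of `L`, `w2 ≠ ± w1`, `e = ℘(w1)`, `u² = ℘(w2) - ℘(w1)`; the lattice `u L` has the equation
  `y² + a1 x y + a3 y = x³`, `x(u z) = xu L u e z = (℘(z; L) - e)/u²`, `(2 y + a1 x + a3)(u z) = ℘'(z; L)/u³`; supersingular good reduction:
  `a1 ∈ 2 V`, `a3` a unit. (`e` and `u²` are in `RF (3)`: `xn L w1 = e - 1/12`.)
* `IsTei2 V w` : the Teichmueller character `w` of `(O/2)^*` (values in the third roots of unity), `w x ≡ emb x` modulo `2`.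
* `OddT f V om` : the weights `om` used in `T(τ)`: odd, periodic modulo `2 f`, `om x ≡ emb x` modulo `2` (for instance `κ₀ w`, `κ₀` an odd sign).
* `TT2 R om m a h τ = 1/2 Σ om(x) mu_i (Θ_a'/Θ_a)(pt R m i x; L_i)`, `(i, x) ∈ XX R m h τ`.
* `PTq q P` : `P(x, y) - P(x + 1/q, y + 1/q)`.
-/

set_option autoImplicit false

namespace Pool.Agent.N2

open _root_.MU3 _root_.Pool.Agent.MU3A _root_.Pool.Agent.MU3B _root_.Pool.Agent.RI _root_.Pool.Agent.MUX _root_.Pool.Agent.MUXE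
  _root_.Pool.Agent.MuSym _root_.Pool.Agent.MUXH _root_.Pool.Agent.NS OnePoint

noncomputable section

/-- `2` is inert in `k`, and `D ≠ -3` -/
structure CaseT (A B : ℤ) : Prop extends CQ A B where
  two : (8 : ℤ) ∣ B ^ 2 + 4 * A - 5
  exc : ¬ (B = 1 ∧ A = -1)

/-- the standing hypotheses -/
structure SetT (A B : ℤ) (V : ValuationSubring ℂ) (f : ℕ) : Prop where
  case : CaseT A B
  hV : OverI V (idl (A := A) (B := B) 2)
  f0 : f ≠ 0
  fp : ¬ 2 ∣ f
  fD : 3 * absD A B ∣ (f : ℤ)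

/-- the lattice `u L` has the equation `y² + a1 x y + a3 y = x³`, supersingular good reduction at `V` -/
structure GoodT (V : ValuationSubring ℂ) (L : PeriodPair) (u e a1 a3 : ℂ) : Prop where
  u0 : u ≠ 0
  tor : ∃ w1 w2 : ℂ, 3 * w1 ∈ L.lattice ∧ 3 * w2 ∈ L.lattice ∧ w1 ∉ L.lattice ∧ w2 ∉ L.lattice ∧
    w2 - w1 ∉ L.lattice ∧ w2 + w1 ∉ L.lattice ∧ e = L.weierstrassP w1 ∧
    u ^ 2 = L.weierstrassP w2 - L.weierstrassP w1
  eq : ∀ z ∉ L.lattice, (L.derivWeierstrassP z / u ^ 3) ^ 2 =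
    4 * ((L.weierstrassP z - e) / u ^ 2) ^ 3 + (a1 * ((L.weierstrassP z - e) / u ^ 2) + a3) ^ 2
  v1 : V.valuation a1 ≤ V.valuation (2 : ℂ)
  v3 : V.valuation a3 = 1

/-- `2 y + a1 x + a3` on `u L`, as a function on `L` -/
def et (L : PeriodPair) (u z : ℂ) : ℂ := L.derivWeierstrassP z / u ^ 3

/-- `y` on `u L`, as a function on `L` -/
def yt (L : PeriodPair) (u e a1 a3 z : ℂ) : ℂ := (et L u z - a1 * xu L u e z - a3) / 2

/-- the curve `y² + a1 x y + a3 y = x³` -/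
def WT (a1 a3 : ℂ) : WeierstrassCurve.Affine ℂ := ⟨a1, 0, a3, 0, 0⟩

/-- Teichmueller character of `(O/2)^*`, extended by `0` -/
structure IsTei2 {A B : ℤ} (V : ValuationSubring ℂ) (w : OO A B → ℂ) : Prop where
  one : w 1 = 1
  mul : ∀ x y, w (x * y) = w x * w y
  per : ∀ x y, x - y ∈ idl (A := A) (B := B) 2 → w x = w y
  zero : ∀ x ∈ idl (A := A) (B := B) 2, w x = 0
  pow : ∀ x ∉ idl (A := A) (B := B) 2, w x ^ 3 = 1
  cong : ∀ x, V.valuation (w x - emb x) ≤ V.valuation (2 : ℂ)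

/-- the weights in `T(τ)` -/
structure OddT {A B : ℤ} (f : ℕ) (V : ValuationSubring ℂ) (om : OO A B → ℂ) : Prop where
  neg : ∀ x, om (-x) = -om x
  per : ∀ x y, x - y ∈ idl (A := A) (B := B) (2 * f) → om x = om y
  cong : ∀ x, IsCoprime x ((2 * f : ℕ) : OO A B) →
    V.valuation (om x - emb x) ≤ V.valuation (2 : ℂ)

section
variable {A B : ℤ} {n : ℕ} {ι : Type}

/-- `T(τ)` with the weights `om` -/
def TT2 (R : Reps A B n ι) (om : OO A B → ℂ) (m a : ℕ) {D : IntermediateField ℚ ℂ}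
    (h : kk A B ≤ D) (τ : letI := algC h; D ≃ₐ[kk A B] D) : ℂ :=
  1 / 2 * ∑ᶠ q ∈ XX R m h τ, om (Quotient.out q.2) * muX R q.1 *
    dlX (R.L q.1) a (pt R m q.1 (Quotient.out q.2))

end

/-- `D` is in the compositum of `RF (4 f)` (`lvX 2 f 0 = 4 f`) and the field of the `M`-th roots of unity, in the form: every
automorphism which is trivial on both is trivial on `D` -/
def InCyc (A B : ℤ) (f M : ℕ) (D : IntermediateField ℚ ℂ) : Prop :=
  ∀ σ : ℂ ≃+* ℂ, FixK A B σ → (∀ y ∈ RF (idl (A := A) (B := B) (lvX 2 f 0)), σ y = y) →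
    (∀ z : ℂ, z ^ M = 1 → σ z = z) → ∀ y ∈ D, σ y = y

/-- `P(x, y) - P(x + 1/q, y + 1/q)` -/
def PTq (q : ℤ) (P : OnePoint ℚ → OnePoint ℚ → ℂ) (x y : OnePoint ℚ) : ℂ :=
  P x y - P (mob q 1 0 q x) (mob q 1 0 q y)

/-! ## Final statements of the blocks -/

/-- (RFIN, helper77) the reduction of the normalised lattices, and uniqueness in the form: an automorphism in the inertia group of
`RF (idl f)` is trivial on it (`f` odd). -/
def S2_RFIN : Prop :=
  ∀ (A B : ℤ) (V : ValuationSubring ℂ), CaseT A B → OverI V (idl (A := A) (B := B) 2) →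
    TorX A B →
    (∀ (b : Ideal (OO A B)) (L : PeriodPair) (om : ℂ), IsNL b L om →
      ∃ u e a1 a3 : ℂ, GoodT V L u e a1 a3 ∧ u ^ 2 ∈ RF (idl (A := A) (B := B) 3) ∧
        e ∈ RF (idl (A := A) (B := B) 3)) ∧
    ∀ f : ℕ, f ≠ 0 → ¬ 2 ∣ f → ∀ σ : ℂ ≃+* ℂ, FixK A B σ →
      (∀ y ∈ RF (idl (A := A) (B := B) f), y ∈ V → σ y - y ∈ V.nonunits) →
      ∀ y ∈ RF (idl (A := A) (B := B) f), σ y = y

/-- (EFIN, helper34) the improved criterion: `v(T(τ)/u) ≥ 1/2`, and `v ≥ 3/2` at squares. `C` is a conjugate family, products of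
`Θ_a` over half systems of `XX`. -/
def S2_EFIN : Prop :=
  ∀ (A B : ℤ) (V : ValuationSubring ℂ) (f : ℕ), SetT A B V f → TorX A B →
    ∀ (ι : Type) [Fintype ι] (R : Reps A B (2 * f) ι) (u e a1 a3 : ℂ),
    GoodT V (R.L R.i0) u e a1 a3 → ∀ om : OO A B → ℂ, OddT f V om →
    ∀ n : ℕ, 2 ≤ n →
    ∀ (H : ι → Finset ℂ), (∀ i, IsHalf (R.L i) (aX 2 f : ℂ) (H i)) →
    ∀ (D : IntermediateField ℚ ℂ) (h : kk A B ≤ D),
      (∀ y ∈ D, y ∈ RF (idl (A := A) (B := B) (lvX 2 f n))) → InCyc A B f (2 ^ (n + 2)) D →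
    letI := algC h
    ∀ (C : (D ≃ₐ[kk A B] D) → ℂ),
    (∀ τ : D ≃ₐ[kk A B] D, ∃ y : D, (y : ℂ) = C 1 ∧ ((τ y : D) : ℂ) = C τ) →
    (∀ τ : D ≃ₐ[kk A B] D, ∃ S, HalfS R (lvX 2 f n) h τ S ∧
      C τ = ∏ q ∈ S, ThetaH (R.L q.1) (H q.1) (pt R (lvX 2 f n) q.1 (Quotient.out q.2))) →
    (∀ τ : D ≃ₐ[kk A B] D,
      V.valuation (TT2 R om (lvX 2 f n) (aX 2 f) h τ / u) ^ 2 ≤ V.valuation (2 : ℂ)) ∧
    ∀ g : (D ≃ₐ[kk A B] D) → ℤ,
      (∃ y ∈ D, y ^ 2 = ∏ᶠ τ : D ≃ₐ[kk A B] D, C τ ^ g τ) →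
      ∀ τ' : D ≃ₐ[kk A B] D,
        V.valuation ((∑ᶠ τ : D ≃ₐ[kk A B] D, (g τ : ℂ) *
          TT2 R om (lvX 2 f n) (aX 2 f) h (τ * τ')) / u) ^ 2 ≤ V.valuation (2 : ℂ) ^ 3

/-- (TYF, helper4) the type of the values: all values `PhiK/(u om)` are in `pi KI`, `v` is unramified on the field `KI`, and
`v(pi)³ v(2)^i = 1` with `i ≤ 2`. -/
def S2_TYF : Prop :=
  ∀ (A B : ℤ) (V : ValuationSubring ℂ) (f : ℕ), SetT A B V f → TorX A B →
    ∀ (ι : Type) [Fintype ι] (R : Reps A B (2 * f) ι) (u el a1 a3 : ℂ),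
    GoodT V (R.L R.i0) u el a1 a3 →
    ∀ e : OO A B → ℂ, IsEI (idl (A := A) (B := B) (2 * f)) e → ∀ r : ℕ, ¬ 2 ∣ r →
    (∀ x, e x ≠ 0 → e x ^ (2 * r) = 1) → ∀ kk : ι → ℂ, (∀ i, kk i ^ (2 * r) = 1) →
    ∃ (pi : ℂ) (KI : Subfield ℂ) (i : ℕ), i ≤ 2 ∧
      (∀ x y, ∃ w ∈ KI, PhiK R e kk x y / (u * R.om R.i0) = pi * w) ∧
      (∀ w ∈ KI, V.valuation w < 1 → V.valuation w ≤ V.valuation (2 : ℂ)) ∧
      V.valuation pi ^ 3 * V.valuation (2 : ℂ) ^ i = 1

/-- (GPT) Theorem G for the translates `P_(1/16)` and `P_(1/4, 1/16)` of `P = PhiK R e kk / (u om_(i0))`: the first coefficients are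
`1 - ζ_16` (`v = 1/8`) and `(1 - i)(1 - ζ_16)` (`v = 5/8`). -/
def S2_GPT : Prop :=
  ∀ (A B : ℤ) (V : ValuationSubring ℂ) (f : ℕ), SetT A B V f → TorX A B →
    ∀ (ι : Type) [Fintype ι] (R : Reps A B (2 * f) ι) (u el a1 a3 : ℂ),
    GoodT V (R.L R.i0) u el a1 a3 →
    ∀ e : OO A B → ℂ, IsEI (idl (A := A) (B := B) (2 * f)) e → ∀ r : ℕ, r ≠ 0 →
    (∀ x, e x ≠ 0 → e x ^ r = 1) → ∀ kk : ι → ℂ, V.valuation (kk R.i0) = 1 →
    ∀ N' : ℕ, N' ≠ 0 → absD A B * ((2 * f : ℕ) : ℤ) ^ 2 ∣ (N' : ℤ) →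
    (∃ a b c d : ℤ, a * d - b * c = 1 ∧ (N' : ℤ) ∣ c ∧ (N' : ℤ) ∣ d - 1 ∧
      V.valuation (2 : ℂ) ≤ V.valuation (PTq 16 (fun x y => PhiK R e kk x y / (u * R.om R.i0)) ∞
        (mob a b c d ∞)) ^ 8) ∧
    ∃ a b c d : ℤ, a * d - b * c = 1 ∧ (N' : ℤ) ∣ c ∧ (N' : ℤ) ∣ d - 1 ∧
      V.valuation (2 : ℂ) ^ 5 ≤ V.valuation (PTq 16 (PTq 4
        (fun x y => PhiK R e kk x y / (u * R.om R.i0))) ∞ (mob a b c d ∞)) ^ 8

/-- (KEY0, helper6) the topological key lemma at `p = 2`. -/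
def S2_KEY0 : Prop :=
  ∀ (M : Type) [AddCommGroup M] (N r n0 : ℕ) (Φ : OnePoint ℚ → OnePoint ℚ → M)
    (_ : 1 < N) (_ : Nat.Coprime 2 N) (_ : 1 ≤ r)
    (_ : ∀ q : ℕ, q.Coprime 2 → ∀ m : M, q • m = 0 → m = 0)
    (_ : ∀ x y z, Φ x y + Φ y z = Φ x z)
    (_ : ∀ a b c d : ℤ, a * d - b * c = 1 → ((2 : ℤ) ^ r * N) ∣ c →
      ((2 : ℤ) ^ r * N) ∣ d - 1 → ∀ x y, Φ (mob a b c d x) (mob a b c d y) = Φ x y)
    (_ : ∀ a b c d : ℤ, ∀ n ≥ n0, c ≠ 0 → d ≠ 0 → IsCoprime a c → IsCoprime b d →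
      ((2 : ℤ) ^ r * N) ∣ c → a * d - b * c = (2 : ℤ) ^ n →
      Φ (((a : ℚ) / c : ℚ) : OnePoint ℚ) (((b : ℚ) / d : ℚ) : OnePoint ℚ) = 0)
    (_ : ∀ b : ℤ, ∀ n ≥ n0, ¬ (2 : ℤ) ∣ b → Φ ∞ (((b : ℚ) / 2 ^ n : ℚ) : OnePoint ℚ) = 0)
    (a b c d : ℤ) (_ : a * d - b * c = 1) (_ : (2 : ℤ) ^ r * N ∣ c)
    (_ : (2 : ℤ) ^ r * N ∣ d - 1) (x : OnePoint ℚ), Φ x (mob a b c d x) = 0

/-- (HFIN, helper66) the character sums: for infinitely many levels `v < 3/2`. -/
def S2_HFIN : Prop :=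
  ∀ (A B : ℤ) (V : ValuationSubring ℂ) (f : ℕ), SetT A B V f → TorX A B →
    ∀ (ι : Type) [Fintype ι] (R : Reps A B (2 * f) ι) (u el a1 a3 : ℂ),
    GoodT V (R.L R.i0) u el a1 a3 →
    ∀ e : OO A B → ℂ, IsEI (idl (A := A) (B := B) (2 * f)) e → ∀ r : ℕ, ¬ 2 ∣ r →
    (∀ x, e x ≠ 0 → e x ^ (2 * r) = 1) → ∀ kk : ι → ℂ, (∀ i, kk i ^ (2 * r) = 1) →
    ∀ n₀ : ℕ, ∃ n, n₀ ≤ n ∧
      V.valuation (2 : ℂ) ^ 3 < V.valuation ((1 / 2 * ∑ j ∈ Finset.range 2, (-1) ^ (1 - j) *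
        (STX R (lvX 2 f n) (2 ^ (n + 2)) (aX 2 f) e kk (5 ^ j) +
          STX R (lvX 2 f n) (2 ^ (n + 2)) (aX 2 f) e kk (-(5 ^ j)))) / u) ^ 2

end

end Pool.Agent.N2


end

section

/-!
# MUX, section 9, module MUI (helper96): the multiplier of `L_(i0) → L_i`
-/

set_option autoImplicit false

namespace Pool.Agent.MUXY

open _root_.MU3 _root_.Pool.Agent.MU3A _root_.Pool.Agent.MU3B _root_.Pool.Agent.MUXU OnePoint
open _root_.Pool.Agent.MU3F (ex)
open _root_.Pool.Agent.MUXF (Sx_ALG Sx_IDL Sx_NIM Sx_QB Sx_SMB Sx_F4 qb sumB)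

noncomputable section

/-- (MUI) the multiplier of `L_(i0) → L_i`. -/
theorem ty_MUI (h1 : Sx_ALG) (h2 : Sx_IDL) : Sy_MUI := by
  intro A B hc n ι R i
  have hcF := cqF hc
  obtain ⟨hmul, -, hint, -, -⟩ := h1 A B hcF
  obtain ⟨hN0, hbc⟩ := h2 A B hcF (R.b i) (R.nl i).b_ne
  have hN0' : ((MUX.nI (R.b i) : ℕ) : ℂ) ≠ 0 := by exact_mod_cast hN0
  have hnat : emb ((MUX.nI (R.b i) : ℕ) : OO A B) = ((MUX.nI (R.b i) : ℕ) : ℂ) := by
    have := (hint ((MUX.nI (R.b i) : ℕ) : ℤ)).1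
    simpa using this
  have hOm := (R.nl R.i0).om_ne
  have hom := (R.nl i).om_ne
  have hmu : MUX.muX R i = R.om i * ((MUX.nI (R.b i) : ℕ) : ℂ) / R.om R.i0 := rfl
  refine ⟨?_, ?_⟩
  · rw [hmu]
    exact div_ne_zero (mul_ne_zero hom hN0') hOm
  · intro z
    constructor
    · intro hz x hx
      obtain ⟨s, hs, hs2⟩ := ((R.nl i).mem _).1 hz
      have hxs : s * x ∈ R.b i * MUXF.cjI (R.b i) := Ideal.mul_mem_mul hs hx
      rw [hbc] at hxs
      obtain ⟨r, hr⟩ := Ideal.mem_span_singleton'.1 hxs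
      have e1 : emb r * ((MUX.nI (R.b i) : ℕ) : ℂ) = emb s * emb x := by
        rw [← (hmul s x).1, ← hr, (hmul _ _).1]
        rw [← hnat]
        rfl
      have e2 : ((MUX.nI (R.b i) : ℕ) : ℂ) * z = R.om R.i0 * emb s := by
        rw [hmu] at hs2
        field_simp at hs2
        rw [hs2]
      refine ((R.nl R.i0).mem _).2 ⟨r, ?_, ?_⟩
      · rw [R.b0]; trivial
      · apply mul_left_cancel₀ hN0'
        linear_combination emb x * e2 - R.om R.i0 * e1
    · intro hz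
      have key : ∀ r ∈ R.b i * MUXF.cjI (R.b i), ∃ y ∈ R.b i, emb r * z = R.om R.i0 * emb y := by
        intro r hr
        refine Submodule.mul_induction_on hr ?_ ?_
        · intro s hs x hx
          obtain ⟨y, -, hy⟩ := ((R.nl R.i0).mem _).1 (hz x hx)
          refine ⟨s * y, Ideal.mul_mem_right _ _ hs, ?_⟩
          rw [(hmul s x).1, (hmul s y).1, mul_assoc, hy]
          ring
        · rintro r1 r2 ⟨y1, hy1, e1⟩ ⟨y2, hy2, e2⟩
          refine ⟨y1 + y2, add_mem hy1 hy2, ?_⟩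
          rw [(hmul r1 r2).2.1, (hmul y1 y2).2.1]
          linear_combination e1 + e2
      obtain ⟨y, hy, e⟩ := key ((MUX.nI (R.b i) : ℕ) : OO A B) (by
        rw [hbc]; exact Ideal.mem_span_singleton_self _)
      refine ((R.nl i).mem _).2 ⟨y, hy, ?_⟩
      rw [hnat] at e
      rw [hmu]
      field_simp
      linear_combination e

end

end Pool.Agent.MUXY


end

section

/-!
# MUX, section 9, module BRI (helper1): from `ActI` to `ActN`
-/

set_option autoImplicit false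

namespace Pool.Agent.MUXY

open _root_.MU3 _root_.Pool.Agent.MU3A _root_.Pool.Agent.MU3B _root_.Pool.Agent.MUXU OnePoint
open _root_.Pool.Agent.MU3F (ex)
open _root_.Pool.Agent.MUXF (Sx_ALG Sx_IDL Sx_NIM Sx_QB Sx_SMB Sx_F4 qb sumB)

theorem ty_BRI (h1 : Sx_ALG) : Sy_BRI := by
  intro A B h σ m a b b' L L' L'' om om' mu hL hL' hact heq
  obtain ⟨hA1, -, hA3, -, -⟩ := h1 A B (cqF h)
  have hs := Pool.Agent.MU3A.ta_SCP L' L'' 1 one_ne_zero
    (fun u => by rw [one_mul]; exact heq u)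
  have hw : ∀ z, L''.weierstrassP z = L'.weierstrassP z := fun z => by simpa using hs.1 z
  have hw' : ∀ z, L''.derivWeierstrassP z = L'.derivWeierstrassP z := fun z => by
    simpa using hs.2.1 z
  have hg2 : L''.g₂ = L'.g₂ := by simpa using hs.2.2.1
  have hg3 : L''.g₃ = L'.g₃ := by simpa using hs.2.2.2
  have hk : L'.g₂ = σ L.g₂ := by
    have e := hact.kap
    unfold MUX.kap at e
    rw [map_div₀, map_sub, map_mul, map_one, map_ofNat, map_ofNat] at e
    linear_combination 144 * e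
  have hk3 : L'.g₃ = σ L.g₃ := by
    have e1 := hL'.nrm
    have e2 := congrArg σ hL.nrm
    rw [map_mul, map_neg, map_ofNat] at e2
    linear_combination (-1 / 18) * hk + (1 / 18) * e1 - (1 / 18) * e2
  refine ⟨⟨by rw [hg2, hk], by rw [hg3, hk3]⟩, hact.cop, hact.isq.1,
    fun z => by rw [← heq]; exact hact.isq.2 z, fun z hz hzL => ?_⟩
  have hT : MUX.Tor (MUX.idl (A := A) (B := B) m) L z := by
    intro x hx
    obtain ⟨y, rfl⟩ := Ideal.mem_span_singleton'.1 hx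
    obtain ⟨s, hs1, hs2⟩ := (hL.mem _).1 hz
    have em : emb ((m : ℕ) : OO A B) = m := by
      have := (hA3 (m : ℤ)).1
      rwa [Int.cast_natCast, Int.cast_natCast] at this
    refine (hL.mem _).2 ⟨y * s, b.mul_mem_left y hs1, ?_⟩
    rw [(hA1 y _).1, (hA1 y s).1, em, mul_assoc, hs2]
    ring
  rcases hact.act z hT with ⟨h0, -⟩ | ⟨-, h2, h3, h4⟩
  · exact absurd h0 hzL
  · refine ⟨fun h0 => h2 ((heq _).2 h0), ?_, ?_⟩
    · rw [hw]
      unfold MUX.xn at h3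
      rw [map_sub, map_div₀, map_one, map_ofNat] at h3
      linear_combination -h3
    · rw [hw']
      unfold yy at h4
      rw [map_div₀, map_ofNat] at h4
      linear_combination -2 * h4

end Pool.Agent.MUXY


end

section

/-!
# MUX, block E, module TRA: torsion points, formal facts
-/

set_option autoImplicit false

open WeierstrassCurve Polynomial NumberField IsDedekindDomain

namespace Pool.Agent.MUXE

open _root_.MU3 _root_.Pool.Agent.MU3A _root_.Pool.Agent.MU3B _root_.Pool.Agent.MUX _root_.Pool.Agent.MUXU _root_.Pool.Agent.RI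

noncomputable section

/-- TRA. -/
theorem te_TRA : Sxe_TRA := by
  intro A B hR L hL
  obtain ⟨φ, hφ⟩ := hR.hom
  obtain ⟨b, om, hb⟩ := hL
  have hmul : ∀ x y : OO A B, emb (x * y) = emb x * emb y := by
    intro x y
    rw [← hφ, ← hφ, ← hφ, map_mul]
  have hadd : ∀ x y : OO A B, emb (x + y) = emb x + emb y := by
    intro x y
    rw [← hφ, ← hφ, ← hφ, map_add]
  have hone : emb (1 : OO A B) = 1 := by rw [← hφ, map_one]
  have hzero : emb (0 : OO A B) = 0 := by rw [← hφ, map_zero]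
  have h1 : ∀ (x : OO A B) (z : ℂ), z ∈ L.lattice → emb x * z ∈ L.lattice := by
    intro x z hz
    obtain ⟨c, hc, rfl⟩ := (hb.mem z).1 hz
    exact (hb.mem _).2 ⟨x * c, b.mul_mem_left x hc, by rw [hmul]; ring⟩
  refine ⟨h1, ?_, ?_, ?_, ?_, ?_, ?_, ?_, ?_⟩
  · intro m z w hz hw x hx
    rw [mul_add]
    exact add_mem (hz x hx) (hw x hx)
  · intro m x z hz y hy
    rw [mul_left_comm]
    exact h1 x _ (hz y hy)
  · intro m m' z hmm hz hz'
    obtain ⟨x, hx, y, hy, hxy⟩ := Ideal.isCoprime_iff_exists.1 hmm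
    have h2 : z = emb x * z + emb y * z := by
      rw [← add_mul, ← hadd, hxy, hone, one_mul]
    rw [h2]
    exact add_mem (hz x hx) (hz' y hy)
  · intro x z
    constructor
    · intro h
      exact h x (Ideal.mem_span_singleton_self x)
    · intro h y hy
      obtain ⟨c, rfl⟩ := Ideal.mem_span_singleton'.1 hy
      rw [hmul, mul_assoc]
      exact h1 c _ h
  · intro m m' x z hx hz y hy
    have h2 := hz (x * y) (Ideal.mul_mem_mul hx hy)
    rw [hmul] at h2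
    rw [← mul_assoc, mul_comm (emb y)]
    exact h2
  · intro m m' z h y hy
    refine Submodule.mul_induction_on hy ?_ ?_
    · intro x hx y' hy'
      have h2 := h x hx y' hy'
      rw [hmul, mul_comm (emb x), mul_assoc]
      exact h2
    · intro x y' hx hy'
      rw [hadd, add_mul]
      exact add_mem hx hy'
  · intro m z w hzw
    have key : ∀ x : OO A B, emb x * z ∈ L.lattice ↔ emb x * w ∈ L.lattice := by
      intro x
      have h2 := h1 x _ hzw
      rw [mul_sub] at h2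
      constructor
      · intro h3
        have h4 := sub_mem h3 h2
        rwa [sub_sub_cancel] at h4
      · intro h3
        have h4 := add_mem h2 h3
        rwa [sub_add_cancel] at h4
    exact ⟨fun h x hx => (key x).1 (h x hx), fun h x hx => (key x).2 (h x hx)⟩
  · intro z w hzw
    refine ⟨⟨fun h3 => ?_, fun h3 => ?_⟩, fun _ => ?_⟩
    · have h4 := sub_mem h3 hzw
      rwa [sub_sub_cancel] at h4
    · have h4 := add_mem hzw h3
      rwa [sub_add_cancel] at h4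
    · have hP : L.weierstrassP z = L.weierstrassP w := by
        have h4 := L.weierstrassP_add_coe w ⟨z - w, hzw⟩
        simpa using h4
      have hP' : L.derivWeierstrassP z = L.derivWeierstrassP w := by
        have h4 := L.derivWeierstrassP_add_coe w ⟨z - w, hzw⟩
        simpa using h4
      refine ⟨?_, ?_, ?_⟩
      · unfold xn
        rw [hP]
      · unfold tE xn
        rw [hP, hP']
      · unfold xn
        rw [L.weierstrassP_neg]

end

end Pool.Agent.MUXE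


end

section

/-!
# MUX, block HY, module CHR: the nebentypus
-/

set_option autoImplicit false

namespace Pool.Agent.MUXHY

open _root_.MU3 _root_.Pool.Agent.MU3A _root_.Pool.Agent.MU3B _root_.Pool.Agent.MU3F _root_.Pool.Agent.MUX _root_.Pool.Agent.MUXH
  _root_.Pool.Agent.MuSym OnePoint
open scoped ComplexConjugate

noncomputable section

namespace Chr

theorem chiX_one (A B : ℤ) : chiX A B 1 = 1 := by
  unfold chiX
  split_ifs
  · exact jacobiSym.one_left _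
  · simp

theorem chiX_mul (A B d d' : ℤ) : chiX A B (d * d') = chiX A B d * chiX A B d' := by
  unfold chiX
  split_ifs
  · exact jacobiSym.mul_left _ _ _
  · by_cases hd : d = 0
    · subst hd
      simp
    · by_cases hd' : d' = 0
      · subst hd'
        simp
      · have : NeZero d.natAbs := ⟨Int.natAbs_ne_zero.2 hd⟩
        have : NeZero d'.natAbs := ⟨Int.natAbs_ne_zero.2 hd'⟩
        rw [Int.natAbs_mul, jacobiSym.mul_right, Int.sign_mul]
        ring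

variable {A B : ℤ}

theorem re_mul_int (x : OO A B) (n : ℤ) : (x * (n : OO A B)).re = x.re * n := by
  rw [QuadraticAlgebra.re_mul]
  simp

/-- Integers which are coprime in `O` are coprime in `ℤ`. -/
theorem coprime_int {a b : ℤ} (h : IsCoprime (a : OO A B) (b : OO A B)) : IsCoprime a b := by
  obtain ⟨x, y, hxy⟩ := h
  refine ⟨x.re, y.re, ?_⟩
  have h1 := congrArg QuadraticAlgebra.re hxy
  rw [QuadraticAlgebra.re_add, re_mul_int, re_mul_int] at h1
  rw [h1]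
  rfl

end Chr

open _root_.Pool.Agent.MUXHY.Chr

theorem ty_CHR (h1 : Sy_VAL) (h2 : Sy_IDE) (h3 : Sy_ROU) (h4 : MUXF.Sx_CHI) : Sy_CHR := by
  intro p A B P V f H e he
  obtain ⟨hpp, -, -, -, vZ, -, vru, -, -, hDpos, -⟩ := h1 p A B P V f H
  obtain ⟨-, hPmax, -, -, hg0, hpf, hgcj, hgD, hpcj, -⟩ := h2 p A B P V f H
  have hcq : CQ A B := H.case.toCQ
  obtain ⟨r, hr0, hr⟩ := h3 A B hcq _ e hg0 he
  have hcjtop : cjI P ≠ ⊤ := by
    intro h
    have h5 : (1 : OO A B) ∈ cjI P := h ▸ Submodule.mem_top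
    have h6 : (starRingEnd (OO A B)) 1 ∈ P := h5
    rw [map_one] at h6
    exact hPmax.ne_top ((Ideal.eq_top_iff_one P).2 h6)
  have ev : ∀ x, V.valuation (e x) ≤ 1 := by
    intro x
    by_cases hx : e x = 0
    · rw [hx, map_zero]
      exact zero_le_one
    · exact (vru r (e x) hr0 (hr x hx)).le
  -- integers on which `e` does not vanish are prime to `D`
  have hcopD : ∀ d : ℤ, e (d : OO A B) ≠ 0 → IsCoprime d (absD A B) := by
    intro d hd
    have h5 := (he.supp _).1 hd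
    apply coprime_int (A := A) (B := B)
    rw [← Ideal.isCoprime_span_singleton_iff]
    rw [Ideal.isCoprime_iff_sup_eq] at h5 ⊢
    exact top_le_iff.1 (h5 ▸ sup_le_sup_left hgD _)
  refine ⟨?_, ?_, ?_, ?_, ?_⟩
  · unfold nuX
    have : ((1 : ℤ) : OO A B) = 1 := by push_cast; rfl
    rw [chiX_one, this, he.one]
    norm_num
  · unfold nuX
    have h5 : e (((p : ℤ)) : OO A B) = 0 := by
      by_contra hne
      have h6 := (he.supp _).1 hne
      rw [Ideal.isCoprime_iff_sup_eq] at h6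
      apply hcjtop
      rw [← top_le_iff, ← h6]
      refine sup_le ?_ hgcj
      rw [Ideal.span_singleton_le_iff_mem]
      have h7 : (((p : ℤ)) : OO A B) = ((p : ℕ) : OO A B) := by push_cast; rfl
      rw [h7]
      exact hpcj
    rw [h5, mul_zero]
  · intro d d'
    unfold nuX
    have : ((d * d' : ℤ) : OO A B) = (d : OO A B) * (d' : OO A B) := by push_cast; rfl
    rw [chiX_mul, this, he.mul]
    push_cast
    ring
  · intro d d' hd
    have hDnat : (((absD A B).toNat : ℕ) : ℤ) = absD A B := Int.toNat_of_nonneg hDpos.le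
    have hd2 : (p : ℤ) * (absD A B * (f : ℤ) ^ 2) ∣ d - d' := by
      have h5 : ((p * N0X A B f : ℕ) : ℤ) = (p : ℤ) * (absD A B * (f : ℤ) ^ 2) := by
        unfold N0X
        push_cast
        rw [hDnat]
      rwa [h5] at hd
    obtain ⟨t, ht⟩ := hd2
    have hD : absD A B ∣ d - d' := ⟨(p : ℤ) * (f : ℤ) ^ 2 * t, by rw [ht]; ring⟩
    unfold nuX
    by_cases hcop : IsCoprime d (absD A B)
    · have h5 : chiX A B d' = chiX A B d := ((h4 A B (toCQ hcq) d hcop).2.2 d' hD)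
      have h6 : e (d : OO A B) = e (d' : OO A B) := by
        apply he.per
        have h7 : (d : OO A B) - (d' : OO A B) =
            (((absD A B * f * t : ℤ)) : OO A B) * ((p * f : ℕ) : OO A B) := by
          have h8 : (d : OO A B) - (d' : OO A B) = ((d - d' : ℤ) : OO A B) := by push_cast; rfl
          rw [h8, ht]
          push_cast
          ring
        rw [h7]
        exact Ideal.mul_mem_left _ _ hpf
      rw [h5, h6]
    · have h5 : e (d : OO A B) = 0 := by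
        by_contra hne
        exact hcop (hcopD d hne)
      have h6 : e (d' : OO A B) = 0 := by
        by_contra hne
        apply hcop
        obtain ⟨s, hs⟩ := hD
        have h7 : d = d' + absD A B * s := by linarith
        rw [h7]
        exact (IsCoprime.add_mul_left_left_iff).2 (hcopD d' hne)
      rw [h5, h6, mul_zero, mul_zero]
  · intro d
    unfold nuX
    rw [map_mul]
    exact mul_le_one' (vZ _) (ev _)

end

end Pool.Agent.MUXHY


end

section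

/-!
# MUX, block IX, module E0: the characters `e0` and `kp` (helper42)
-/

set_option autoImplicit false

namespace Pool.Agent.MUXI

open _root_.MU3 _root_.Pool.Agent.MU3 _root_.Pool.Agent.MU3A _root_.Pool.Agent.MU3B _root_.Pool.Agent.RI _root_.Pool.Agent.RID
  _root_.Pool.Agent.MUX _root_.Pool.Agent.MUXE _root_.Pool.Agent.MUXK
open _root_.Pool.Agent.MU3I (w3 zt)

noncomputable section

namespace E0

variable {A B : ℤ}

/-- the abstract form -/
lemma psi {G : Type} [Group G] (m : Ideal (OO A B)) (rel : G → Ideal (OO A B) → Prop)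
    (X : G →* ℂˣ) (r : ℕ) (hX : ∀ τ, X τ ^ r = 1)
    (r1 : rel 1 ⊤) (r2 : ∀ a, IsCoprime a m → ∃ τ, rel τ a) (r3 : ∀ τ a, rel τ a → IsCoprime a m)
    (r4 : ∀ τ τ' a a', rel τ a → rel τ' a' → RE m a a' → τ = τ')
    (r5 : ∀ τ τ' a a', rel τ a → rel τ' a' → rel (τ * τ') (a * a')) :
    ∃ ψ : Ideal (OO A B) → ℂ, (∀ τ a, rel τ a → ψ a = (((X τ)⁻¹ : ℂˣ) : ℂ)) ∧
      (∀ a a', ψ (a * a') = ψ a * ψ a') ∧ ψ ⊤ = 1 ∧ (∀ a, ψ a ≠ 0 ↔ IsCoprime a m) ∧
      (∀ a, ψ a ≠ 0 → ψ a ^ r = 1) ∧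
      (∀ a a', RE m a a' → IsCoprime a m → IsCoprime a' m → ψ a = ψ a') := by
  classical
  let ψ : Ideal (OO A B) → ℂ := fun a =>
    if h : ∃ τ, rel τ a then (((X h.choose)⁻¹ : ℂˣ) : ℂ) else 0
  have e1 : IsCoprime (sp (1 : OO A B)) m := by
    rw [sp, Ideal.span_singleton_one, ← Ideal.one_eq_top]
    exact isCoprime_one_left
  have e2 : (1 : OO A B) ≠ 0 := by
    intro h
    have h1 := congrArg QuadraticAlgebra.re h
    rw [QuadraticAlgebra.re_one, QuadraticAlgebra.re_zero] at h1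
    exact one_ne_zero h1
  have e3 : (1 : OO A B) - 1 ∈ m := by
    rw [sub_self]
    exact m.zero_mem
  have hs : ∀ τ a, rel τ a → ψ a = (((X τ)⁻¹ : ℂˣ) : ℂ) := by
    intro τ a h
    have h' : ∃ τ, rel τ a := ⟨τ, h⟩
    have hR : RE m a a := ⟨1, 1, e2, e2, e1, e3, rfl⟩
    have e : h'.choose = τ := r4 _ _ a a h'.choose_spec h hR
    show (if h : ∃ τ, rel τ a then (((X h.choose)⁻¹ : ℂˣ) : ℂ) else 0) = _
    rw [dif_pos h', e]
  have h0 : ∀ a, ¬ IsCoprime a m → ψ a = 0 := by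
    intro a h
    exact dif_neg fun ⟨τ, h'⟩ => h (r3 τ a h')
  have hne : ∀ a, ψ a ≠ 0 ↔ IsCoprime a m := by
    intro a
    refine ⟨fun h => ?_, fun h => ?_⟩
    · by_contra h'
      exact h (h0 a h')
    · obtain ⟨τ, h'⟩ := r2 a h
      rw [hs τ a h']
      exact Units.ne_zero _
  refine ⟨ψ, hs, ?_, ?_, hne, ?_, ?_⟩
  · intro a a'
    by_cases h : IsCoprime a m
    · by_cases h' : IsCoprime a' m
      · obtain ⟨τ, ht⟩ := r2 a h
        obtain ⟨τ', ht'⟩ := r2 a' h'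
        rw [hs _ _ ht, hs _ _ ht', hs _ _ (r5 _ _ _ _ ht ht'), map_mul, mul_inv, Units.val_mul]
      · rw [h0 _ h', mul_zero]
        exact h0 _ fun hh => h' hh.of_mul_left_right
    · rw [h0 _ h, zero_mul]
      exact h0 _ fun hh => h hh.of_mul_left_left
  · rw [hs _ _ r1, map_one, inv_one, Units.val_one]
  · intro a h
    obtain ⟨τ, ht⟩ := r2 a ((hne a).1 h)
    rw [hs _ _ ht, ← Units.val_pow_eq_pow_val, inv_pow, hX, inv_one, Units.val_one]
  · intro a a' hR h h'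
    obtain ⟨τ, ht⟩ := r2 a h
    obtain ⟨τ', ht'⟩ := r2 a' h'
    rw [hs _ _ ht, hs _ _ ht', r4 _ _ _ _ ht ht' hR]

lemma nat_ne {n : ℕ} (hn : n ≠ 0) : (n : OO A B) ≠ 0 := by
  intro h
  have h1 := congrArg QuadraticAlgebra.re h
  rw [QuadraticAlgebra.re_natCast] at h1
  apply hn
  exact_mod_cast h1

lemma cop_nat {m n : ℕ} (h : m.Coprime n) : IsCoprime (m : OO A B) (n : OO A B) := by
  have h1 := (Nat.isCoprime_iff_coprime.2 h).map (Int.castRingHom (OO A B))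
  simpa using h1

lemma cop_sub {m : Ideal (OO A B)} {x y : OO A B} (h : x - y ∈ m) (hx : IsCoprime (sp x) m) :
    IsCoprime (sp y) m := by
  obtain ⟨a, ha, b, hb, hab⟩ := Ideal.isCoprime_iff_exists.1 hx
  obtain ⟨c, rfl⟩ := Ideal.mem_span_singleton'.1 ha
  refine Ideal.isCoprime_iff_exists.2 ⟨c * y, Ideal.mem_span_singleton'.2 ⟨c, rfl⟩,
    c * (x - y) + b, m.add_mem (m.mul_mem_left _ h) hb, ?_⟩
  rw [← hab]
  ring

lemma lv_cop {p f k : ℕ} (h : k.Coprime (p * f)) : k.Coprime (lvX p f 0) := by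
  unfold lvX
  have h1 : k.Coprime p := h.coprime_mul_right_right
  have h2 : k.Coprime f := h.coprime_mul_left_right
  rw [pow_zero, mul_one]
  refine Nat.Coprime.mul_right h2 ?_
  unfold q0
  split_ifs with hp
  · subst hp
    exact (Nat.Coprime.pow_right 2 h1 : k.Coprime (2 ^ 2))
  · exact h1

end E0

open _root_.Pool.Agent.MUXI.E0

/-- the module E0 -/
theorem ti_E0 (h1 : Si_ARF) (h4 : Pool.Agent.MUXF.Sx_NIM) : Si_E0 := by
  intro p A B P V f S T ι R K hK hKm hG X r hX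
  have hp : p = 3 ∨ p = 2 := S.case.split.imp (fun h => h.1) (fun h => h.1)
  have hlv : 3 ≤ lvX p f 0 := by
    have hf : 1 ≤ f := Nat.one_le_iff_ne_zero.2 S.f0
    unfold lvX q0
    rcases hp with rfl | rfl
    · simp; omega
    · simp; omega
  have hm : (idl (lvX p f 0) : Ideal (OO A B)) ≠ ⊥ := by
    rw [Ne, Ideal.span_singleton_eq_bot]
    exact nat_ne (by omega)
  have hm1 : (idl (lvX p f 0) : Ideal (OO A B)) ≠ ⊤ := by
    rw [Ne, Ideal.span_singleton_eq_top]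
    intro hu
    obtain ⟨y, hy⟩ := hu.exists_right_inv
    have h := congrArg QuadraticAlgebra.re hy
    rw [QuadraticAlgebra.re_mul] at h
    simp only [QuadraticAlgebra.re_natCast, QuadraticAlgebra.im_natCast, QuadraticAlgebra.re_one,
      mul_zero, zero_mul, add_zero] at h
    have h' : ((lvX p f 0 : ℕ) : ℤ) ∣ 1 := ⟨_, h.symm⟩
    have h'' := Int.le_of_dvd one_pos h'
    omega
  have hbot : ∀ a : Ideal (OO A B), IsCoprime a (idl (lvX p f 0)) → a ≠ ⊥ := by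
    rintro a ha rfl
    apply hm1
    rw [← Ideal.isCoprime_iff_sup_eq.1 ha, bot_sup_eq]
  obtain ⟨a1, a2, -, a4, a5, -, -⟩ := h1 A B S.case.toCQ T ⟨_, _, _, R.nl R.i0⟩
    (idl (lvX p f 0)) hm K hK hKm hG
  let _ : Algebra (kk A B) K := algC hK
  obtain ⟨ψ, s1, s2, s3, s4, s5, s6⟩ := psi (idl (lvX p f 0))
    (fun τ a => AR hK (idl (lvX p f 0)) τ a) X r hX a1
    (fun a ha => a2 a (hbot a ha) ha)
    (fun τ a h => by obtain ⟨σ, h, -⟩ := h; exact h.cop)
    a4 a5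
  have hcop : ∀ x : OO A B, IsCoprime (sp x) (idl (lvX p f 0)) ↔
      IsCoprime x ((lvX p f 0 : ℕ) : OO A B) := fun x => Ideal.isCoprime_span_singleton_iff _ _
  refine ⟨fun x => ψ (sp x), fun i => ψ (cjI (R.b i)), ?_, ?_, ?_, ?_, ?_, ?_, ?_, ?_⟩
  · show ψ (sp 1) = 1
    rw [sp, Ideal.span_singleton_one, s3]
  · show ψ (sp (-1)) = 1
    rw [sp, Ideal.span_singleton_neg, Ideal.span_singleton_one, s3]
  · intro x y
    show ψ (sp (x * y)) = ψ (sp x) * ψ (sp y)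
    rw [← s2, sp, sp, sp, Ideal.span_singleton_mul_span_singleton]
  · intro x y hxy
    show ψ (sp x) = ψ (sp y)
    by_cases hx : IsCoprime (sp x) (idl (lvX p f 0))
    · have hy := cop_sub hxy hx
      have hx0 : x ≠ 0 := by
        rintro rfl
        exact hbot _ hx (by rw [sp, Ideal.span_singleton_eq_bot])
      have hy0 : y ≠ 0 := by
        rintro rfl
        exact hbot _ hy (by rw [sp, Ideal.span_singleton_eq_bot])
      refine s6 _ _ ⟨y, x, hy0, hx0, hy, ?_, mul_comm _ _⟩ hx hy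
      rw [← neg_sub]
      exact neg_mem hxy
    · have hy : ¬ IsCoprime (sp y) (idl (lvX p f 0)) := fun hy => hx (cop_sub (by
        rw [← neg_sub]
        exact neg_mem hxy) hy)
      rw [not_not.1 fun h => hx ((s4 _).1 h), not_not.1 fun h => hy ((s4 _).1 h)]
  · intro x
    exact (s4 _).trans (hcop x)
  · intro x hx
    exact s5 _ hx
  · intro i
    apply s5
    rw [s4]
    obtain ⟨-, -, n3, -⟩ := h4 A B (Pool.Agent.MUXY.cqF S.case.toCQ)
    obtain ⟨-, -, -, n4⟩ := n3 (R.b i) (R.nl i).b_ne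
    have h5 : ((nI (R.b i) : ℕ) : OO A B) ∈ cjI (R.b i) := by
      show (starRingEnd (OO A B)) ((nI (R.b i) : ℕ) : OO A B) ∈ R.b i
      rw [map_natCast]
      exact n4
    obtain ⟨u, v, huv⟩ := cop_nat (A := A) (B := B) (lv_cop (R.cop i))
    exact Ideal.isCoprime_iff_exists.2 ⟨u * _, Ideal.mul_mem_left _ _ h5, v * _,
      Ideal.mul_mem_left _ _ (Ideal.mem_span_singleton_self _), huv⟩
  · intro τ i x hx hA
    show (((X τ)⁻¹ : ℂˣ) : ℂ) = ψ (cjI (R.b i)) * ψ (sp x)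
    rw [← s1 τ _ hA, s2, mul_comm]

end

end Pool.Agent.MUXI


end

section

/-!
# MUX-2R: common definitions and final statements, `2` ramified in `k`, `D ≠ -4` (helper77). See `Pool/Agent/MUX/PAPER_2R.md`

`B = 0`, `O = ℤ[w]`, `w² = A`, `A < -1` squarefree, `A ≡ 2, 3` modulo 4, `2 O = P²`. `V` a valuation ring of `ℂ` with `V ∩ O = P`, `v = V.valuation`
(multiplicative: `v(x)^4 ≤ v(2)^j` is the additive `v(x) ≥ j/4`). `dR A` = 2 (`A ≡ 3` modulo 4) or 3 (`A` even) is the exponent of the different at `P`.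
The numbers are those of helper66's message of 11:48Z (integer level `m/2`, `E[4]`, `γ²`, translates by `1/8`, `1/32`; G+ with the bound `1/3`). `SetQ`: `f` odd, divisible by 3 and by the odd part
of `D`, and there is an odd sign character `κ` modulo `f` (`f` is divisible by a prime `q₁ ≡ 3` modulo 4 which splits). Levels `m = lvX 2 f n = f 2^(n+2)`,
`a = aX 2 f = 1 + 8 f`, `R : Reps A B (2 * f) ι`, `γ² ↔ 25`. `O^* = {1,-1}`.

* `GoodQ` : as `GoodT` with `v(a1)² ≤ v 2` (`u L` has the equation `y² + a1 x y + a3 y = x³`, `a3` a unit: supersingular).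
* `OddQ` : the weights in `T(τ)`; `OddF` : the odd characters `e = e0 κ`, extended by zero to the elements not prime to `2 f`.
* `BasY`, `SetY`, `InpGY` : as `BasX`, `SetX`, `InpG` of blocks K, J, but `K` may contain the first layer `B 1` (`√2`): all degrees are counted from `B 1`.
-/

set_option autoImplicit false

namespace Pool.Agent.N2

open _root_.MU3 _root_.Pool.Agent.MU3 _root_.Pool.Agent.MU3A _root_.Pool.Agent.MU3B _root_.Pool.Agent.RI _root_.Pool.Agent.RID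
  _root_.Pool.Agent.MUX _root_.Pool.Agent.MUXE _root_.Pool.Agent.MuSym _root_.Pool.Agent.MUXH _root_.Pool.Agent.NS _root_.Pool.Agent.MUXK
  _root_.Pool.Agent.MUXJ OnePoint

noncomputable section

/-- `2` is ramified in `k`, and `D ≠ -4` -/
structure CaseR2 (A B : ℤ) : Prop extends CQ A B where
  two : (2 : ℤ) ∣ B ^ 2 + 4 * A
  exc : A ≠ -1

/-- the exponent of the different at `P` -/
def dR (A : ℤ) : ℕ := if A % 4 = 3 then 2 else 3

lemma CaseR2.b0 {A B : ℤ} (h : CaseR2 A B) : B = 0 := by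
  rcases h.hB with h1 | h1
  · exact h1
  · have h2 := h.two
    rw [h1] at h2
    omega

/-- `A ≡ 2, 3` modulo 4 -/
lemma CaseR2.mod {A B : ℤ} (h : CaseR2 A B) : A % 4 = 2 ∨ A % 4 = 3 := by
  obtain ⟨h1, h2⟩ := h.fund0 h.b0
  have h3 : ¬ (4 : ℤ) ∣ A := by
    intro h4
    have h5 : (2 : ℤ) * 2 ∣ A := by
      have : (2 : ℤ) * 2 = 4 := by norm_num
      rwa [this]
    have h6 := h1 2 h5
    rw [Int.isUnit_iff] at h6
    omega
  omega

/-- an odd character with values `±1` modulo `f` -/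
structure KapF {A B : ℤ} (f : ℕ) (κ : OO A B → ℤ) : Prop where
  one : κ 1 = 1
  mul : ∀ x y, κ (x * y) = κ x * κ y
  neg : κ (-1) = -1
  per : ∀ x y, x - y ∈ idl (A := A) (B := B) f → κ x = κ y
  unit : ∀ x, IsCoprime (sp x) (idl (A := A) (B := B) f) → κ x = 1 ∨ κ x = -1

/-- the standing hypotheses -/
structure SetQ (A B : ℤ) (P : Ideal (OO A B)) (V : ValuationSubring ℂ) (f : ℕ) : Prop where
  case : CaseR2 A B
  hP : IsPN 2 P
  hV : OverI V P
  f0 : f ≠ 0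
  fp : ¬ 2 ∣ f
  fD : 3 * absD A B ∣ 8 * (f : ℤ)
  kap : ∃ κ : OO A B → ℤ, KapF f κ

/-- the lattice `u L` has the equation `y² + a1 x y + a3 y = x³`, supersingular good reduction at `V` -/
structure GoodQ (V : ValuationSubring ℂ) (L : PeriodPair) (u e a1 a3 : ℂ) : Prop where
  u0 : u ≠ 0
  tor : ∃ w1 w2 : ℂ, 3 * w1 ∈ L.lattice ∧ 3 * w2 ∈ L.lattice ∧ w1 ∉ L.lattice ∧ w2 ∉ L.lattice ∧
    w2 - w1 ∉ L.lattice ∧ w2 + w1 ∉ L.lattice ∧ e = L.weierstrassP w1 ∧
    u ^ 2 = L.weierstrassP w2 - L.weierstrassP w1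
  eq : ∀ z ∉ L.lattice, (L.derivWeierstrassP z / u ^ 3) ^ 2 =
    4 * ((L.weierstrassP z - e) / u ^ 2) ^ 3 + (a1 * ((L.weierstrassP z - e) / u ^ 2) + a3) ^ 2
  v1 : V.valuation a1 ^ 2 ≤ V.valuation (2 : ℂ)
  v3 : V.valuation a3 = 1

/-- the weights in `T(τ)` -/
structure OddQ {A B : ℤ} (f : ℕ) (V : ValuationSubring ℂ) (om : OO A B → ℂ) : Prop where
  neg : ∀ x, om (-x) = -om x
  per : ∀ x y, x - y ∈ idl (A := A) (B := B) (2 * f) → om x = om y
  cong : ∀ x, IsCoprime x ((2 * f : ℕ) : OO A B) →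
    V.valuation (om x - 1) ^ 2 ≤ V.valuation (2 : ℂ)

/-- the odd characters: extended by zero to the elements not prime to `2 f`, of conductor dividing `f` -/
structure OddF {A B : ℤ} (f : ℕ) (e : OO A B → ℂ) : Prop extends
    IsEI (idl (A := A) (B := B) (2 * f)) e where
  cond : ∀ x y, IsCoprime x ((2 * f : ℕ) : OO A B) → IsCoprime y ((2 * f : ℕ) : OO A B) →
    x - y ∈ idl (A := A) (B := B) f → e x = e y

/-! ## Fields -/

/-- as `BasX`, but the degrees are counted from the first layer -/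
structure BasY (p : ℕ) (k K : IntermediateField ℚ ℂ) (B : ℕ → IntermediateField ℚ ℂ) : Prop where
  hk : k ≤ K
  gal : IsGalois k (IntermediateField.extendScalars hk)
  ab : ∀ σ τ : (IntermediateField.extendScalars hk) ≃ₐ[k] (IntermediateField.extendScalars hk),
    σ * τ = τ * σ
  deg : ∀ n, Module.finrank ℚ ↥(K ⊔ B (n + 1)) = Module.finrank ℚ ↥(K ⊔ B 1) * p ^ n
  lay : ∀ n, IsLayer p n (B n)
  mono : Monotone B

/-- as `SetX`, with `BasY` for `K` -/
structure SetY (p : ℕ) (k K₀ K : IntermediateField ℚ ℂ) (B : ℕ → IntermediateField ℚ ℂ) :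
    Prop where
  b0 : BasX p k K₀ B
  b : BasY p k K B
  le : K₀ ≤ K
  cop : ¬ p ∣ Module.finrank k (IntermediateField.extendScalars b0.hk)
  om : ∃ ω ∈ K₀, IsPrimitiveRoot ω p
  ze : ∃ ζ ∈ K, IsPrimitiveRoot ζ (2 * p)

/-- as `InpG`, with `SetY` -/
def InpGY (p d : ℕ) (A B : ℤ) (V : ValuationSubring ℂ) : Prop :=
  ∀ (f : ℕ), f ≠ 0 → ¬ p ∣ f → d ∣ f →
  ∀ (K₀ K : IntermediateField ℚ ℂ) (Bn : ℕ → IntermediateField ℚ ℂ)
    [FiniteDimensional ℚ (kk A B)] [FiniteDimensional ℚ K] [∀ n, FiniteDimensional ℚ ↥(K ⊔ Bn n)],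
    SetY p (kk A B) K₀ K Bn → (∀ y ∈ K, y ∈ RF (idl (A := A) (B := B) (lvX p f 0))) →
    (∀ y ∈ RF (⊤ : Ideal (OO A B)), y ∈ K) →
    ∀ (hk : ∀ n, kk A B ≤ K ⊔ Bn n) (hk₀ : ∀ n, kk A B ≤ K₀ ⊔ Bn n) (hkK : kk A B ≤ K₀),
    ∃ (S : Finset ℕ) (c c₀ : ℕ → ℂ) (n₁ : ℕ),
      InpX (IsLocalRing.ResidueField V) p (kk A B) K₀ K Bn hk hk₀ hkK S c c₀ n₁

/-! ## Final statements of the blocks -/

/-- (KAP2, helper77) the level `d`. -/
def SQ_KAP : Prop :=
  ∀ A B : ℤ, CaseR2 A B → ∃ d : ℕ, d ≠ 0 ∧ ¬ 2 ∣ d ∧ 3 * absD A B ∣ 8 * (d : ℤ) ∧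
    ∃ κ : OO A B → ℤ, KapF d κ

/-- (RFIN, helper77) the reduction of the normalised lattices; and `RF (idl f)` is unramified at `V` (`f` odd). -/
def SQ_RFIN : Prop :=
  ∀ (A B : ℤ) (P : Ideal (OO A B)) (V : ValuationSubring ℂ), CaseR2 A B → IsPN 2 P → OverI V P →
    TorX A B →
    (∀ (b : Ideal (OO A B)) (L : PeriodPair) (om : ℂ), IsNL b L om →
      ∃ u e a1 a3 : ℂ, GoodQ V L u e a1 a3 ∧ u ^ 2 ∈ RF (idl (A := A) (B := B) 3) ∧
        e ∈ RF (idl (A := A) (B := B) 3)) ∧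
    ∀ f : ℕ, f ≠ 0 → ¬ 2 ∣ f → ∀ σ : ℂ ≃+* ℂ, FixK A B σ →
      (∀ y ∈ RF (idl (A := A) (B := B) f), y ∈ V → σ y - y ∈ V.nonunits) →
      ∀ y ∈ RF (idl (A := A) (B := B) f), σ y = y

/-- (EFIN, helper59) the criterion: additively `v(T(τ)/u) ≥ d/2 + 1/4`, and `v ≥ d/2 + 3/4` at squares. `C` is a conjugate family,
products of `Θ_a` over half systems of `XX`. -/
def SQ_EFIN : Prop :=
  ∀ (A B : ℤ) (P : Ideal (OO A B)) (V : ValuationSubring ℂ) (f : ℕ), SetQ A B P V f →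
    TorX A B → ∀ (ι : Type) [Fintype ι] (R : Reps A B (2 * f) ι) (u e a1 a3 : ℂ),
    GoodQ V (R.L R.i0) u e a1 a3 → ∀ om : OO A B → ℂ, OddQ f V om →
    ∀ n : ℕ, 5 ≤ n →
    ∀ (H : ι → Finset ℂ), (∀ i, IsHalf (R.L i) (aX 2 f : ℂ) (H i)) →
    ∀ (D : IntermediateField ℚ ℂ) (h : kk A B ≤ D),
      (∀ y ∈ D, y ∈ RF (idl (A := A) (B := B) (lvX 2 f n))) → InCyc A B f (2 ^ (n + 2)) D →
    letI := algC h
    ∀ (C : (D ≃ₐ[kk A B] D) → ℂ),
    (∀ τ : D ≃ₐ[kk A B] D, ∃ y : D, (y : ℂ) = C 1 ∧ ((τ y : D) : ℂ) = C τ) →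
    (∀ τ : D ≃ₐ[kk A B] D, ∃ S, HalfS R (lvX 2 f n) h τ S ∧
      C τ = ∏ q ∈ S, ThetaH (R.L q.1) (H q.1) (pt R (lvX 2 f n) q.1 (Quotient.out q.2))) →
    (∀ τ : D ≃ₐ[kk A B] D,
      V.valuation (TT2 R om (lvX 2 f n) (aX 2 f) h τ / u) ^ 4 ≤
        V.valuation (2 : ℂ) ^ (2 * dR A + 1)) ∧
    ∀ g : (D ≃ₐ[kk A B] D) → ℤ,
      (∃ y ∈ D, y ^ 2 = ∏ᶠ τ : D ≃ₐ[kk A B] D, C τ ^ g τ) →
      ∀ τ' : D ≃ₐ[kk A B] D,
        V.valuation ((∑ᶠ τ : D ≃ₐ[kk A B] D, (g τ : ℂ) *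
          TT2 R om (lvX 2 f n) (aX 2 f) h (τ * τ')) / u) ^ 4 ≤
            V.valuation (2 : ℂ) ^ (2 * dR A + 3)

/-- (TYF, helper4) the values: `PhiK/(u om)` is in `pi KI`, `pi` a unit, the values of `v` on `KI` are in `(1/2) ℤ`; the same `pi`, `KI`
for all `kk`. -/
def SQ_TYF : Prop :=
  ∀ (A B : ℤ) (P : Ideal (OO A B)) (V : ValuationSubring ℂ) (f : ℕ), SetQ A B P V f →
    TorX A B → ∀ (ι : Type) [Fintype ι] (R : Reps A B (2 * f) ι) (u el a1 a3 : ℂ),
    GoodQ V (R.L R.i0) u el a1 a3 →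
    ∀ e : OO A B → ℂ, OddF f e → ∀ r : ℕ, ¬ 2 ∣ r → (∀ x, e x ≠ 0 → e x ^ (2 * r) = 1) →
    ∃ (pi : ℂ) (KI : Subfield ℂ),
      (∀ kk : ι → ℂ, (∀ i, kk i = 0 ∨ kk i ^ (2 * r) = 1) →
        ∀ x y, ∃ w ∈ KI, PhiK R e kk x y / (u * R.om R.i0) = pi * w) ∧
      (∀ w ∈ KI, V.valuation w < 1 → V.valuation w ^ 2 ≤ V.valuation (2 : ℂ)) ∧
      (∃ w ∈ KI, V.valuation w ^ 2 = V.valuation (2 : ℂ)) ∧ V.valuation pi = 1

/-- (GPT, helper6) Theorem G+ for the translate `P_(1/8, 1/32)` of `P = PhiK R e kk / (u om_(i0))`: first coefficient `(1 - ζ_8)(1 - ζ_32)`,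
`v = 5/16 < 1/3`. `kk i` may be zero for `i ≠ i0`. -/
def SQ_GPT : Prop :=
  ∀ (A B : ℤ) (P : Ideal (OO A B)) (V : ValuationSubring ℂ) (f : ℕ), SetQ A B P V f →
    TorX A B → ∀ (ι : Type) [Fintype ι] (R : Reps A B (2 * f) ι) (u el a1 a3 : ℂ),
    GoodQ V (R.L R.i0) u el a1 a3 →
    ∀ e : OO A B → ℂ, IsEI (idl (A := A) (B := B) (2 * f)) e → ∀ r : ℕ, r ≠ 0 →
    (∀ x, e x ≠ 0 → e x ^ r = 1) → ∀ kk : ι → ℂ, V.valuation (kk R.i0) = 1 →
    ∀ N' : ℕ, N' ≠ 0 → absD A B * ((2 * f : ℕ) : ℤ) ^ 2 ∣ (N' : ℤ) →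
    ∃ a b c d : ℤ, a * d - b * c = 1 ∧ (N' : ℤ) ∣ c ∧ (N' : ℤ) ∣ d - 1 ∧
      1 < V.valuation (PTq 32 (PTq 8 (fun x y => PhiK R e kk x y / (u * R.om R.i0))) ∞
        (mob a b c d ∞))

/-- (HFIN, helper41) the character sums: for infinitely many levels `v < d/2 + 3/4`. -/
def SQ_HFIN : Prop :=
  ∀ (A B : ℤ) (P : Ideal (OO A B)) (V : ValuationSubring ℂ) (f : ℕ), SetQ A B P V f →
    TorX A B → ∀ (ι : Type) [Fintype ι] (R : Reps A B (2 * f) ι) (u el a1 a3 : ℂ),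
    GoodQ V (R.L R.i0) u el a1 a3 →
    ∀ e : OO A B → ℂ, OddF f e → ∀ r : ℕ, ¬ 2 ∣ r → (∀ x, e x ≠ 0 → e x ^ (2 * r) = 1) →
    ∀ kk : ι → ℂ, (∀ i, kk i ^ (2 * r) = 1) →
    ∀ n₀ : ℕ, ∃ n, n₀ ≤ n ∧
      V.valuation (2 : ℂ) ^ (2 * dR A + 3) <
        V.valuation ((1 / 2 * ∑ j ∈ Finset.range 2, (-1) ^ (1 - j) *
        (STX R (lvX 2 f n) (2 ^ (n + 2)) (aX 2 f) e kk (25 ^ j) +
          STX R (lvX 2 f n) (2 ^ (n + 2)) (aX 2 f) e kk (-(25 ^ j)))) / u) ^ 4

/-- (INPG, helper36) the inputs of block J. -/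
def SQ_INPG : Prop :=
  ∀ (A B : ℤ) (P : Ideal (OO A B)) (V : ValuationSubring ℂ) (d : ℕ), CaseR2 A B → IsPN 2 P →
    OverI V P → TorX A B → d ≠ 0 → ¬ 2 ∣ d → 3 * absD A B ∣ 8 * (d : ℤ) →
    (∃ κ : OO A B → ℤ, KapF d κ) → InpGY 2 d A B V

/-- (JFIN, helper34) blocks K and J: the main theorem from the inputs. (`UnrH` from `SQ_RFIN`.) -/
def SQ_JFIN : Prop :=
  ∀ (A B : ℤ) (P : Ideal (OO A B)) (V : ValuationSubring ℂ) (d : ℕ), CaseR2 A B → IsPN 2 P →
    OverI V P → d ≠ 0 → ¬ 2 ∣ d → UnrH A B V → TorX A B → NLex A B → InpGY 2 d A B V →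
    ∀ (F M K : IntermediateField ℚ ℂ) [FiniteDimensional ℚ M] (_ : kk A B ≤ F) (h : F ≤ M)
    (a : ℕ), TorU A B F → IsGalois F (IntermediateField.extendScalars h) →
    Module.finrank F (IntermediateField.extendScalars h) = 2 ^ a → K ≤ M →
    ∃ C : ℕ, ∀ (n : ℕ) (Q : IntermediateField ℚ ℂ), IsLayer 2 n Q →
      padicValNat 2 (classNo (K ⊔ Q)) ≤ C * (n + 1) ^ C

end

end Pool.Agent.N2


end

section

/-!
# Module MUXHY_EIG (helper25): the eigenvalue of `U_p ^ h`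
-/

set_option autoImplicit false

namespace Pool.Agent.MUXHY

open _root_.MU3 _root_.Pool.Agent.MU3A _root_.Pool.Agent.MU3B _root_.Pool.Agent.MU3F _root_.Pool.Agent.MUX _root_.Pool.Agent.MUXH
  _root_.Pool.Agent.MuSym OnePoint
open scoped ComplexConjugate

noncomputable section

namespace Eig

theorem pne (a b : ℚ) : (Polynomial.X ^ 2 - Polynomial.C b * Polynomial.X - Polynomial.C a :
    Polynomial ℚ) ≠ 0 := by
  intro h
  have h3 := congrArg (fun q => Polynomial.coeff q 2) h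
  simp [Polynomial.coeff_X, Polynomial.coeff_C] at h3

theorem alg_wC {A B : ℤ} (h4 : MUXF.Sx_ALG) (hC : CQ A B) : IsAlgebraic ℚ (wC A B) := by
  have h1 := ((h4 A B (toCQ hC)).1 (⟨0, 1⟩ : OO A B) ⟨0, 1⟩).1
  have h2 : wC A B * wC A B = (A : ℂ) + B * wC A B := by
    have e1 : emb (⟨0, 1⟩ : OO A B) = wC A B := by simp [emb]
    have e2 : emb ((⟨0, 1⟩ : OO A B) * ⟨0, 1⟩) = (A : ℂ) + B * wC A B := by
      simp [emb]
    rw [← e2, h1, e1]
  refine ⟨_, pne (A : ℚ) (B : ℚ), ?_⟩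
  simp
  linear_combination h2

theorem alg_emb {A B : ℤ} (h4 : MUXF.Sx_ALG) (hC : CQ A B) (x : OO A B) :
    IsAlgebraic ℚ (emb x) := by
  have h1 := alg_wC h4 hC
  unfold emb
  exact (isAlgebraic_intCast _).add ((isAlgebraic_intCast _).mul h1)

end Eig

theorem ty_EIG (h1 : Sy_VAL) (h2 : Sy_IDE) (h3 : Sy_ROU) (h4 : MUXF.Sx_ALG) : Sy_EIG := by
  intro p A B P V f hS e he h al hh hal
  have hCQ : CQ A B := hS.case.toCQ
  obtain ⟨-, -, -, hv2, -, -, hv5, -⟩ := h1 p A B P V f hS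
  obtain ⟨-, -, -, -, i5, -, -, -, -, i10⟩ := h2 p A B P V f hS
  obtain ⟨-, halc, hals⟩ := i10 h al hh hal
  obtain ⟨r, hr, hre⟩ := h3 A B hCQ _ e i5 he
  have hne : e al ≠ 0 := (he.supp al).2 halc
  have hroot := hre al hne
  have hcj : conj (emb al) = emb (star al) :=
    ((h4 A B (toCQ hCQ)).2.1 al).2.2.2.2.2.1.symm
  constructor
  · rw [map_mul, hv5 r (e al) hr hroot, hcj, (hv2 (star al)).2 hals, one_mul]
  · refine IsAlgebraic.mul ?_ ?_
    · have h5 : IsAlgebraic ℚ (e al ^ r) := by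
        rw [hroot]; exact isAlgebraic_one
      exact h5.of_pow (Nat.pos_of_ne_zero hr)
    · rw [hcj]
      exact Eig.alg_emb h4 hCQ _

end

end Pool.Agent.MUXHY


end

section

/-!
# MU3, block E: module PRD (helper26)
-/

set_option autoImplicit false

namespace Pool.Agent.MU3E

open _root_.MU3 _root_.Pool.Agent.MU3A _root_.Pool.Agent.MU3B _root_.Pool.Agent.MU3C _root_.Pool.Agent.MU3V _root_.Pool.Agent.RI

noncomputable section

namespace PRD

section
variable {E Γ : Type} [Field E] [LinearOrderedCommGroupWithZero Γ] (v : Valuation E Γ) (t : E)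

/-- `u = 1 + t l + O(t²)` with `l` integral -/
def Good (u l : E) : Prop := v l ≤ 1 ∧ v (u - 1 - t * l) ≤ v t ^ 2

variable {v t}

theorem Good.val (ht : v t < 1) {u l : E} (h : Good v t u l) : v u = 1 := by
  have h1 : v (t * l) < 1 := by
    rw [map_mul]
    exact lt_of_le_of_lt (mul_le_of_le_one_right' h.1) ht
  have h2 : v (u - 1 - t * l) < 1 := by
    refine lt_of_le_of_lt h.2 ?_
    exact pow_lt_one₀ zero_le' ht (by norm_num)
  have h3 : v (t * l + (u - 1 - t * l)) < 1 := v.map_add_lt h1 h2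
  have h4 := Valuation.map_one_add_of_lt (v := v) h3
  rwa [show 1 + (t * l + (u - 1 - t * l)) = u by ring] at h4

theorem Good.one : Good v t 1 0 := by
  constructor
  · simp
  · simp

theorem vt_tl (ht : v t < 1) {l : E} (h : v l ≤ 1) : v (1 + t * l) ≤ 1 := by
  refine v.map_add_le (by simp) ?_
  rw [map_mul]
  exact mul_le_one' ht.le h

theorem Good.mul (ht : v t < 1) {u l u' l' : E} (h : Good v t u l) (h' : Good v t u' l') :
    Good v t (u * u') (l + l') := by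
  refine ⟨v.map_add_le h.1 h'.1, ?_⟩
  have e : u * u' - 1 - t * (l + l') = (u - 1 - t * l) * u' + ((1 + t * l) * (u' - 1 - t * l') + t ^ 2 * (l * l')) := by
    ring
  rw [e]
  refine v.map_add_le ?_ (v.map_add_le ?_ ?_)
  · rw [map_mul, h'.val ht, mul_one]; exact h.2
  · rw [map_mul]
    exact (mul_le_of_le_one_left' (vt_tl ht h.1)).trans h'.2
  · rw [map_mul, map_mul, map_pow]
    exact mul_le_of_le_one_right' (mul_le_one' h.1 h'.1)

theorem Good.inv (ht : v t < 1) {u l : E} (h : Good v t u l) : Good v t u⁻¹ (-l) := by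
  have hu := h.val ht
  have hu0 : u ≠ 0 := by
    intro h0
    rw [h0, map_zero] at hu
    exact zero_ne_one hu
  refine ⟨by rw [Valuation.map_neg]; exact h.1, ?_⟩
  have e : u⁻¹ - 1 - t * (-l) = u⁻¹ * (-(u - 1 - t * l) + t * l * (u - 1)) := by
    field_simp
    ring
  have e2 : u - 1 = (u - 1 - t * l) + t * l := by ring
  have h1 : v (u - 1) ≤ v t := by
    rw [e2]
    refine v.map_add_le ?_ ?_
    · refine h.2.trans ?_
      rw [pow_two]
      exact mul_le_of_le_one_left' ht.le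
    · rw [map_mul]
      exact mul_le_of_le_one_right' h.1
  rw [e, map_mul, map_inv₀, hu, inv_one, one_mul]
  refine v.map_add_le ?_ ?_
  · rw [Valuation.map_neg]; exact h.2
  · rw [map_mul, map_mul, pow_two]
    exact mul_le_mul' (mul_le_of_le_one_right' h.1) h1

theorem Good.pow (ht : v t < 1) {u l : E} (h : Good v t u l) (n : ℕ) : Good v t (u ^ n) ((n : E) * l) := by
  induction n with
  | zero => simpa using Good.one
  | succ n ih =>
    have := ih.mul ht h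
    rw [← pow_succ] at this
    rwa [show (n : E) * l + l = ((n + 1 : ℕ) : E) * l by push_cast; ring] at this

theorem Good.zpow (ht : v t < 1) {u l : E} (h : Good v t u l) (n : ℤ) : Good v t (u ^ n) ((n : E) * l) := by
  obtain ⟨m, rfl | rfl⟩ := n.eq_nat_or_neg
  · have := h.pow ht m
    simpa using this
  · have := (h.pow ht m).inv ht
    simpa using this

theorem Good.prod (ht : v t < 1) {ι : Type} (s : Finset ι) {u l : ι → E} (h : ∀ i, Good v t (u i) (l i)) :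
    Good v t (∏ i ∈ s, u i) (∑ i ∈ s, l i) := by
  classical
  induction s using Finset.induction_on with
  | empty => simpa using Good.one
  | insert a s ha ih =>
    rw [Finset.prod_insert ha, Finset.sum_insert ha]
    exact (h a).mul ht ih

end

end PRD

open _root_.Pool.Agent.MU3E.PRD in
theorem te_PRD : Se_PRD := by
  intro E Γ ι _ _ _ v c d l g t ht hc hl hd
  have hc0 : ∀ i, c i ≠ 0 := by
    intro i h0
    have := hc i
    rw [h0, map_zero] at this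
    exact zero_ne_one this
  have hg : ∀ i, Good v t (d i / c i) (l i) := by
    intro i
    refine ⟨hl i, ?_⟩
    have e : d i / c i - 1 - t * l i = (c i)⁻¹ * (d i - c i * (1 + t * l i)) := by
      have := hc0 i
      field_simp
      ring
    rw [e, map_mul, map_inv₀, hc i, inv_one, one_mul]
    exact hd i
  have h1 : v (∏ i, c i ^ g i) = 1 := by
    rw [map_prod]
    refine Finset.prod_eq_one fun i _ => ?_
    rw [map_zpow₀, hc i, one_zpow]
  have h2 := Good.prod ht Finset.univ (fun i => (hg i).zpow ht (g i))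
  refine ⟨h1, h2.1, ?_⟩
  have e : ∏ i, d i ^ g i - (∏ i, c i ^ g i) * (1 + t * ∑ i, (g i : E) * l i) =
      (∏ i, c i ^ g i) * (∏ i, (d i / c i) ^ g i - 1 - t * ∑ i, (g i : E) * l i) := by
    have e1 : ∏ i, d i ^ g i = (∏ i, c i ^ g i) * ∏ i, (d i / c i) ^ g i := by
      rw [← Finset.prod_mul_distrib]
      refine Finset.prod_congr rfl fun i _ => ?_
      rw [← mul_zpow, mul_div_cancel₀ _ (hc0 i)]
    rw [e1]
    ring
  rw [e, map_mul, h1, one_mul]
  exact h2.2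

end

end Pool.Agent.MU3E


end
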