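import Mathlib
import Pool.Agent.MVF.C005
import Pool.Agent.MVF.C007
import Pool.Agent.MVF.C015

/-! Parts: MUX.U_BAS, MUX.StR2, MUX.R2_MU2, MUX.StR3, MUX.G_VAL, MUX.G_ADD, MUX.R3_GD3, MUX.R2_GD2 -/

namespace Pool.Agent.MUX2
end Pool.Agent.MUX2
namespace Pool.Agent.MUX2.GD2
end Pool.Agent.MUX2.GD2
namespace Pool.Agent.MUX2.Mu2
end Pool.Agent.MUX2.Mu2
namespace Pool.Agent.MUX3.GD3
end Pool.Agent.MUX3.GD3
namespace Pool.Agent.MUXG.GAdd
end Pool.Agent.MUXG.GAdd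
namespace Pool.Agent.MUXU.U_BAS
end Pool.Agent.MUXU.U_BAS

section

/-!
# MUX, block U, module BAS (helper96): a group commensurable with a lattice is a lattice
-/

set_option autoImplicit false

open Filter Topology Polynomial UpperHalfPlane Module
open scoped Real

namespace Pool.Agent.MUXU

open _root_.Pool.Agent.MU3B

noncomputable section

namespace U_BAS

/-- multiplication by `n` from a group to another -/
def mulMap (P Q : Submodule ℤ ℂ) (n : ℕ) (h : ∀ w ∈ P, (n : ℂ) * w ∈ Q) : P →ₗ[ℤ] Q where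
  toFun w := ⟨(n : ℂ) * w, h w w.2⟩
  map_add' x y := by
    ext
    simp [mul_add]
  map_smul' m x := by
    ext
    simp only [Submodule.coe_smul, RingHom.id_apply, zsmul_eq_mul]
    ring

theorem mulMap_inj (P Q : Submodule ℤ ℂ) (n : ℕ) (hn : n ≠ 0) (h : ∀ w ∈ P, (n : ℂ) * w ∈ Q) :
    Function.Injective (mulMap P Q n h) := by
  intro x y hxy
  have h1 : (n : ℂ) * x = (n : ℂ) * y := congrArg Subtype.val hxy
  have hn' : (n : ℂ) ≠ 0 := by exact_mod_cast hn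
  exact Subtype.ext (mul_left_cancel₀ hn' h1)

end U_BAS

open _root_.Pool.Agent.MUXU.U_BAS in
theorem tu_BAS : Su_BAS := by
  intro L M n hn h1 h2
  set N : Submodule ℤ ℂ := AddSubgroup.toIntSubmodule M with hN
  have hmem : ∀ w : ℂ, w ∈ N ↔ w ∈ M := fun w => Iff.rfl
  have : Module.Free ℤ L.lattice := Module.Free.of_basis L.latticeBasis
  have : Module.Finite ℤ L.lattice := Module.Finite.of_basis L.latticeBasis
  set f : N →ₗ[ℤ] L.lattice := mulMap N L.lattice n h2 with hf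
  have hfi : Function.Injective f := mulMap_inj N L.lattice n hn h2
  set g : L.lattice →ₗ[ℤ] N := mulMap L.lattice N n h1 with hg
  have hgi : Function.Injective g := mulMap_inj L.lattice N n hn h1
  have e : N ≃ₗ[ℤ] LinearMap.range f := LinearEquiv.ofInjective f hfi
  have : Module.Free ℤ N := Module.Free.of_equiv e.symm
  have : Module.Finite ℤ N := Module.Finite.equiv e.symm
  have hle : finrank ℤ N ≤ 2 := by
    have := LinearMap.finrank_le_finrank_of_injective hfi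
    rwa [L.finrank_lattice] at this
  have hge : 2 ≤ finrank ℤ N := by
    have := LinearMap.finrank_le_finrank_of_injective hgi
    rwa [L.finrank_lattice] at this
  have hfr : finrank ℤ N = 2 := le_antisymm hle hge
  set b : Basis (Fin 2) ℤ N := Module.finBasisOfFinrankEq ℤ N hfr with hb
  -- the basis spans
  have hrep : ∀ w ∈ M, ∃ p q : ℤ, w = p * ((b 0 : N) : ℂ) + q * ((b 1 : N) : ℂ) := by
    intro w hw
    refine ⟨b.repr ⟨w, hw⟩ 0, b.repr ⟨w, hw⟩ 1, ?_⟩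
    have h3 := b.sum_repr ⟨w, hw⟩
    rw [Fin.sum_univ_two] at h3
    have h4 := congrArg Subtype.val h3
    simp only [Submodule.coe_add, Submodule.coe_smul, zsmul_eq_mul] at h4
    exact h4.symm
  have hn' : (n : ℂ) ≠ 0 := by exact_mod_cast hn
  have hsp : ∀ w ∈ L.lattice, w ∈ Submodule.span ℝ (Set.range ![((b 0 : N) : ℂ), ((b 1 : N) : ℂ)]) := by
    intro w hw
    obtain ⟨p, q, hpq⟩ := hrep _ (h1 w hw)
    have h3 : w = ((p : ℝ) / n) • ((b 0 : N) : ℂ) + ((q : ℝ) / n) • ((b 1 : N) : ℂ) := by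
      rw [Complex.real_smul, Complex.real_smul]
      push_cast
      field_simp
      rw [mul_comm w]
      exact hpq
    rw [h3]
    refine Submodule.add_mem _ (Submodule.smul_mem _ _ (Submodule.subset_span ⟨0, rfl⟩))
      (Submodule.smul_mem _ _ (Submodule.subset_span ⟨1, rfl⟩))
  have htop : (⊤ : Submodule ℝ ℂ) ≤ Submodule.span ℝ (Set.range ![((b 0 : N) : ℂ), ((b 1 : N) : ℂ)]) := by
    rw [← L.basis.span_eq, Submodule.span_le]
    rintro _ ⟨i, rfl⟩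
    fin_cases i
    · simpa using hsp _ L.ω₁_mem_lattice
    · simpa using hsp _ L.ω₂_mem_lattice
  have hind : LinearIndependent ℝ ![((b 0 : N) : ℂ), ((b 1 : N) : ℂ)] :=
    linearIndependent_of_top_le_span_of_card_eq_finrank htop (by simp)
  refine ⟨⟨((b 0 : N) : ℂ), ((b 1 : N) : ℂ), hind⟩, fun z => ?_⟩
  rw [PeriodPair.mem_lattice]
  constructor
  · rintro ⟨p, q, rfl⟩
    have h3 : (p • b 0 + q • b 1 : N).1 ∈ M := (p • b 0 + q • b 1 : N).2
    simpa [zsmul_eq_mul] using h3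
  · intro hz
    obtain ⟨p, q, hpq⟩ := hrep z hz
    exact ⟨p, q, hpq.symm⟩

end

end Pool.Agent.MUXU


end

section

/-!
# MUX, block R2: good reduction at the places above 2 (the case `p = 2`) (helper77)

`V` is a valuation ring of `ℂ` with `v(2) = θ < 1`, `v = V.valuation`. All lattices are normalised (`g₂ = -18 g₃`), `x = xn L z = ℘ - 1/12`,
`κ = kap L`, `j = 1728 + 1/κ`, and (blocks `CQ`, `CaseP 2`) have complex multiplication by `O`, `2 O = P Pbar`.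
Every `def S2_X : Prop` is the statement of a module which proves `theorem t2_X (h : S2_Y) .. : S2_X` in
`Pool/Agent/MUX/R2_X.lean`, namespace `Pool.Agent.MUX2`. The theorems `Pool.Agent.MU3B.b_X : St_X` of
`Pool/Agent/MU3/BAll.lean` and the theorems `Pool.Agent.MUXU.tu_X` of `Pool/Agent/MUX/U_X.lean` may be used.

Parameter: for `w` of order two on `ℂ / L`: `s = par L w = 8 + 2 / x(w)`. `J(s) = (s + 16)³/s`. Then
`κ = s/((s-8)²(s+64))`, `j = J(s)`; the quotient by `{0, w}` has the parameter `4096/s` at the dual point.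
-/

set_option autoImplicit false

namespace Pool.Agent.MUX2

open _root_.MU3 _root_.Pool.Agent.MU3A _root_.Pool.Agent.MU3B _root_.Pool.Agent.MUX _root_.Pool.Agent.MUXU WeierstrassCurve

noncomputable section

/-- the isogeny `z ↦ mu z` from `ℂ / L` to `ℂ / M` has the kernel `{0, w}`, `w` of order two -/
structure Two (L M : PeriodPair) (mu w : ℂ) : Prop where
  mu_ne : mu ≠ 0
  w_ne : w ∉ L.lattice
  w2 : 2 * w ∈ L.lattice
  ker : ∀ z, mu * z ∈ M.lattice ↔ z ∈ L.lattice ∨ z - w ∈ L.lattice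

/-- the parameter of a point of order two -/
def par (L : PeriodPair) (w : ℂ) : ℂ := 8 + 2 / xn L w

/-- (VEL) the quotient by a point of order two. `e = ℘(w)`, `t = 3e² - g₂/4`.

Uses `Pool.Agent.MUXU.tu_ISO : Su_ISO`, `tu_DER : Su_DER`. PROOF. (ISO) with `R = {w}` (`mu L ⊆ M`: `ker`): `A` monic of degree two,
`B = C(mu²) (X - e)`, `IsoP`, `OdeP`. Write `A = X² + aX + b`. `4X³ - g₂X - g₃ = 4(X-e)(X² + eX + e² - g₂/4)` (`e` is a root: `derivWeierstrassP_sq` and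
`b_ZER`: `℘'(w) = 0` as `2w ∈ L`). `A'B - AB' = mu²(X² - 2eX - ae - b)`. Insert in `OdeP` and cancel `mu⁴ (X - e)`:
`4(X² - 2eX - ae - b)²(X² + eX + e² - g₂/4) = 4A³ - mu⁴ g₂(M) A (X-e)² - mu⁶ g₃(M) (X-e)³`.
At `X = e`: `(e² + ae + b)²(3e² - g₂/4) = A(e)³`, `A(e) = e² + ae + b ≠ 0` (coprime to `B`): `A(e) = t`, so `t ≠ 0`. Coefficient of `X⁵`: `-12e = 12a`. So
`A = X² - eX + t`, and the coefficients of `X⁴` and `X³` give the two formulas for `g₂(M)`, `g₃(M)`. `℘ z ≠ e` if `mu z ∉ M`, `z ∉ L` (`b_NEQ`).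
`℘(z + w)`: `b_ADD` with `℘'(w) = 0`: `℘(z+w) = -℘ z - e + ℘'(z)²/(4(℘ z - e)²)`. The formula for `℘'` is (DER). -/
def S2_VEL : Prop :=
  ∀ (L M : PeriodPair) (mu w : ℂ), Two L M mu w →
    3 * L.weierstrassP w ^ 2 - L.g₂ / 4 ≠ 0 ∧
    mu ^ 4 * M.g₂ = 60 * L.weierstrassP w ^ 2 - 4 * L.g₂ ∧
    mu ^ 6 * M.g₃ = 88 * L.weierstrassP w ^ 3 - 8 * L.weierstrassP w * L.g₂ ∧
    ∀ z, mu * z ∉ M.lattice →
      L.weierstrassP z - L.weierstrassP w ≠ 0 ∧
      L.weierstrassP (z + w) = L.weierstrassP w +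
        (3 * L.weierstrassP w ^ 2 - L.g₂ / 4) / (L.weierstrassP z - L.weierstrassP w) ∧
      mu ^ 2 * M.weierstrassP (mu * z) = L.weierstrassP z +
        (3 * L.weierstrassP w ^ 2 - L.g₂ / 4) / (L.weierstrassP z - L.weierstrassP w) ∧
      mu ^ 3 * M.derivWeierstrassP (mu * z) = L.derivWeierstrassP z *
        (1 - (3 * L.weierstrassP w ^ 2 - L.g₂ / 4) /
          (L.weierstrassP z - L.weierstrassP w) ^ 2)

/-- (NRM) the case of normalised lattices.

Uses VEL. PROOF. `g₂ ≠ 0` for `L` and `M`: otherwise `g₃ = 0`, against `b_DSC` (`g₂³ ≠ 27g₃²`). `κ ≠ 0`: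
`g₂³ - 27g₃² = g₂²(12g₂ - 1)/12`. `e = xn L w` is a root of `x³ + x²/4 - 36κx - κ` (`℘ = e + 1/12`, `g₂ = (1+1728κ)/12`, `g₃ = -g₂/18`),
so `e ≠ 0`; `s = 8 + 2/e`, i.e. `s ≠ 8`, `e = 2/(s-8)`. `κ(36e+1) = e²(e + 1/4)`; `36e + 1 = 0` would give `e + 1/4 = 0`, impossible; so `s + 64 ≠ 0` (`36e+1 = (s+64)/(s-8)`),
`κ = s/((s-8)²(s+64))`, `s ≠ 0`. `g₂ = (s+16)³/(12(s-8)²(s+64))`, so `s + 16 ≠ 0`. `℘(w) = (s+16)/(12(s-8))`, (VEL):
`mu⁴ g₂(M) = (s+16)²(s+256)/(12(s-8)²(s+64))`, `mu⁶ g₃(M) = -(s+16)³(s-512)/(216(s-8)³(s+64))`; both not zero: `s + 256 ≠ 0`, `s - 512 ≠ 0`.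
`g₂(M) = -18g₃(M)`: `mu² = -18 (mu⁶g₃(M))/(mu⁴g₂(M))`, and `12g₂(M) = (s+256)³/((s-512)²(s+64))`,
`(s+256)³ - (s-512)²(s+64) = 1728s²`. `t = 3e² + e/2 - 36κ = (s+16)²/((s-8)²(s+64))` in the variable `xn L w`
(`3℘(w)² - g₂/4` is the same number). Last formula: (VEL) with `℘ = x + 1/12` on both sides. -/
def S2_NRM : Prop :=
  ∀ (L M : PeriodPair) (mu w : ℂ), Two L M mu w → L.g₂ = -18 * L.g₃ → M.g₂ = -18 * M.g₃ →
    par L w ≠ 0 ∧ par L w - 8 ≠ 0 ∧ par L w + 64 ≠ 0 ∧ par L w + 16 ≠ 0 ∧ par L w + 256 ≠ 0 ∧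
    par L w - 512 ≠ 0 ∧ kap L ≠ 0 ∧
    xn L w = 2 / (par L w - 8) ∧
    kap L = par L w / ((par L w - 8) ^ 2 * (par L w + 64)) ∧
    kap M = par L w ^ 2 / ((par L w - 512) ^ 2 * (par L w + 64)) ∧
    mu ^ 2 = (par L w + 16) * (par L w - 512) / ((par L w - 8) * (par L w + 256)) ∧
    ∀ z, mu * z ∉ M.lattice → xn L z - xn L w ≠ 0 ∧
      mu ^ 2 * xn M (mu * z) = xn L z +
        (par L w + 16) ^ 2 / ((par L w - 8) ^ 2 * (par L w + 64)) / (xn L z - xn L w) +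
        (1 - mu ^ 2) / 12

/-- (PAR) the parameter without the quotient lattice.

PROOF. As the first part of (NRM). -/
def S2_PAR : Prop :=
  ∀ (L : PeriodPair) (w : ℂ), w ∉ L.lattice → 2 * w ∈ L.lattice → L.g₂ = -18 * L.g₃ →
    par L w ≠ 0 ∧ par L w - 8 ≠ 0 ∧ par L w + 64 ≠ 0 ∧ kap L ≠ 0 ∧
    xn L w = 2 / (par L w - 8) ∧
    kap L = par L w / ((par L w - 8) ^ 2 * (par L w + 64))

/-- (DUA) the dual isogeny.

Uses NRM. PROOF. Kernel: let `u = mu z` (`mu ≠ 0`). `(2/mu) u = 2z`, and `2 z ∈ L` iff `z` is congruent to one of `0, w, w', w + w'` modulo `L` (the points of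
order two of `ℂ/L`: `L.lattice` has a basis, or `b_NUM`/`b_NEQ`), iff `mu z ∈ M` or `mu z - mu w' ∈ M` (`ker`). `mu w' ∉ M`: `w' ∉ L`, `w' - w ∉ L`. Parameter: by (NRM) for `z = w'`, with
`x(w') + x(w + w') = -1/4 - x(w)` (the three roots of `x³ + x²/4 - 36κx - κ` are the `x` of the three points of order two; or: `x(w+w') - x(w) = t/(x(w') - x(w))` and
`t = (x(w) - x(w'))(x(w) - x(w+w'))`; simplest: `x(w')` is a root of the quadratic `x² + (e + 1/4)x + e² + e/4 - 36κ`, `e = x(w)`, so that `x(w') + t/(x(w') - e) = -1/4 - 2e`, because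
`x(w')(x(w') - e) + t + (1/4 + 2e)(x(w') - e) = 0`):
`mu² xn M (mu w') = -1/6 - 2e - mu²/12`, so `xn M (mu w') = -s/(4(s - 512))`, `8 + 2/xn M (mu w') = 4096/s`, `s = par L w`. -/
def S2_DUA : Prop :=
  ∀ (L M : PeriodPair) (mu w w' : ℂ), Two L M mu w → L.g₂ = -18 * L.g₃ → M.g₂ = -18 * M.g₃ →
    w' ∉ L.lattice → 2 * w' ∈ L.lattice → w' - w ∉ L.lattice →
    Two M L (2 / mu) (mu * w') ∧ par M (mu * w') = 4096 / par L w

/-- (JEQ) two different points of order two of the same lattice.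

Uses PAR. PROOF. `x(w) ≠ x(w')` (`b_NEQ`: `w - w' ∉ L`, `w + w' = w - w' + 2w' ∉ L`), so `s ≠ s'`. `1/κ`: `(s-8)²(s+64)/s = s² + 48s - 960 + 4096/s` takes the
same value at `s` and `s'`; the difference is `(s - s')(s + s' + 48 - 4096/(s s'))`. -/
def S2_JEQ : Prop :=
  ∀ (L : PeriodPair) (w w' : ℂ), w ∉ L.lattice → 2 * w ∈ L.lattice → w' ∉ L.lattice →
    2 * w' ∈ L.lattice → w' - w ∉ L.lattice → L.g₂ = -18 * L.g₃ →
    par L w * par L w' * (par L w + par L w' + 48) = 4096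

/-- the recursion of the parameters along a chain -/
def Rec (s : ℕ → ℂ) : Prop :=
  ∀ i, s i ≠ 0 ∧ s (i + 1) ^ 2 + (48 + 4096 / s i) * s (i + 1) = s i

/-- (CHN) periodic chains: valuations.

PROOF. `a_i = v(s_i)`, `θ = v(2) < 1`. (a) Let `a_i > θ⁸`, `b = a_(i+1)`. `v(48 + 4096/s_i) ≤ θ⁴` (`v 48 = θ⁴ v 3 ≤ θ⁴`, `v(4096/s_i) = θ¹²/a_i < θ⁴`). If `b² ≠ a_i` then, from the recursion
(`v(s_(i+1)² - s_i) = max`), `max(b², a_i) ≤ θ⁴ b`: `b ≤ θ⁴` and `a_i ≤ θ⁴ b ≤ θ⁸`, contradiction. So `a_(i+1)² = a_i`; `a_(i+1) > θ⁸` too (`a_(i+1) ≤ θ⁸` gives `a_i ≤ θ¹⁶ ≤ θ⁸`).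
So if one `a_i > θ⁸` (by periodicity `i` may be taken anywhere: all later ones, hence all, are `> θ⁸`) then `a_(i+h)^(2^h) = a_i = a_(i+h)` and `a_i = 1`: all `a_i = 1`.
(b) Otherwise all `a_i ≤ θ⁸ < θ⁴`. Put `r_i = 4096/s_i`, `v(r_i) = θ¹²/a_i ≥ θ⁴ > θ⁸`. The recursion is `r_i² + (48 + 4096/r_(i+1)) r_i = r_(i+1)`. As in (a) `v(r_i)² = v(r_(i+1))`;
periodicity: `v(r_i) = 1`, `a_i = θ¹²`. -/
def S2_CHN : Prop :=
  ∀ (V : ValuationSubring ℂ) (s : ℕ → ℂ) (h : ℕ), V.valuation 2 < 1 → Rec s → 0 < h →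
    (∀ i, s (i + h) = s i) →
    (∀ i, V.valuation (s i) = 1) ∨ ∀ i, V.valuation (s i) = V.valuation 2 ^ 12

/-- (CIN) periodic chains of units: injectivity modulo `V`.

PROOF. Replace `h, h'` by the common period `N = h h'`. `d_i = s_i - s'_i`. `(s_0² - s'_0²)`: `(s+16)³/s = s² + 48s + 768 + 4096/s`, so
`v(J(s_0) - J(s'_0)) < 1` and units give `v(s_0² - s'_0²) < 1` (`v 48, v(4096) < 1`), `(s_0 - s'_0)² = s_0² - s'_0² - 2s'_0(s_0 - s'_0)`, so `v(d_0) < 1`. By the recursion modulo the maximal ideal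
(`s_(i+1)² ≡ s_i`) in the same way `v(d_i) < 1` implies `v(d_(i+1)) < 1`: all `v(d_i) < 1`. Subtract the recursions:
`d_i = d_(i+1)(s_(i+1) + s'_(i+1) + 48) + 4096(s_(i+1)/s_i - s'_(i+1)/s'_i)`, and `s_(i+1)/s_i - s'_(i+1)/s'_i = (d_(i+1)s'_i - s'_(i+1)d_i)/(s_i s'_i)`. With
`ρ_i = max(v(s_(i+1) + s'_(i+1) + 48), v(2)) < 1` (`s + s' = 2s' + d`): `v(d_i) ≤ max(ρ_i v(d_(i+1)), v(4096) v(d_i))`, so `v(d_i) ≤ ρ_i v(d_(i+1))`. If `d_0 ≠ 0` then all `d_i ≠ 0` with `i ≤ N` and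
`v(d_0) < v(d_1) < ... < v(d_N) = v(d_0)`, contradiction. -/
def S2_CIN : Prop :=
  ∀ (V : ValuationSubring ℂ) (s s' : ℕ → ℂ) (h h' : ℕ), V.valuation 2 < 1 → Rec s → Rec s' →
    0 < h → 0 < h' → (∀ i, s (i + h) = s i) → (∀ i, s' (i + h') = s' i) →
    (∀ i, V.valuation (s i) = 1) → (∀ i, V.valuation (s' i) = 1) →
    V.valuation ((s 0 + 16) ^ 3 / s 0 - (s' 0 + 16) ^ 3 / s' 0) < 1 → s 0 = s' 0

/-- (CQE) normalised lattices exist for every ideal; homothetic normalised lattices are equal; the class group is finite. -/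
structure LatFacts (A B : ℤ) : Prop where
  /-- every nonzero ideal has a normalised lattice (`g₂, g₃ ≠ 0` because `O` contains no root of unity except `1, -1`) -/
  ex : ∀ b : Ideal (OO A B), b ≠ ⊥ → ∃ (L : PeriodPair) (om : ℂ), IsNL b L om
  /-- two lattices of the same class -/
  eq : ∀ (b b' : Ideal (OO A B)) (L L' : PeriodPair) (om om' : ℂ) (x y : OO A B), IsNL b L om →
    IsNL b' L' om' → x ≠ 0 → y ≠ 0 → sp x * b = sp y * b' →
    L.lattice = L'.lattice ∧ (om' * emb x = om * emb y ∨ om' * emb x = -(om * emb y))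
  /-- some power of every ideal is principal -/
  fin : ∀ b : Ideal (OO A B), b ≠ ⊥ → ∃ (h : ℕ) (x : OO A B), 0 < h ∧ x ≠ 0 ∧ b ^ h = sp x

/-- (CH2) the chain of `P`-isogenies.

Uses DUA, JEQ, NRM. PROOF. Let `Q` be the ideal of norm two conjugate to `P`: `P Q = (2)` (`Q = cjI P`; in the case `p = 2` one has `B = 1`, `A` even, the ideals of norm two are
`span {2, ⟨0,1⟩}` and `span {2, ⟨1,-1⟩}`, with product `span {2}`). `N i` = normalised lattice of the ideal `Q^i b` (`LatFacts.ex`), with `om_i`, `N 0 = L`, `om_0 = om`. For `z ∈ ℂ`: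
`P z ⊆ N i` iff `z ∈ om_i (Q^(i+1) b)/2` (`P z ⊆ om_i Q^i b` iff `2z ∈ Q P z ...`: multiply by `Q`, resp. by `P`), iff `mu_i z ∈ N (i+1)` with `mu_i = 2 om_(i+1)/om_i`. The group `{z : P z ⊆ N i}/N i` has two elements
(`(Q^(i+1) b/2)/(Q^i b)` is isomorphic to `c/Pc`, `c = Q^(i+1)b/2`, with `nI P = 2` elements: `c` is invertible); let `w_i` be the nonzero one: `Two (N i) (N (i+1)) mu_i w_i`. Let `w'` be another point of
order two of `N i`. `mu_i w'` is killed by `Q` (`Q mu_i w' ⊆ N (i+1)` iff `P Q w' ⊆ N i`, `P Q = (2)`), not zero, and not killed by `P` (otherwise, `P + Q = O`, it would be zero), so it is not congruent to `w_(i+1)`. (DUA): its parameter is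
`4096/s_i`, (JEQ) for `w_(i+1)` and `mu_i w'`: `s_(i+1) (4096/s_i)(s_(i+1) + 4096/s_i + 48) = 4096`, that is `Rec`. Let `Q^h = (x)` (`LatFacts.fin`). `N (i+h)` and `N i` belong to the ideals `x Q^i b` and `Q^i b`: the same lattice
(`LatFacts.eq` with `sp 1 * (Q^(i+h) b) = sp x * (Q^i b)`), `om_(i+h) x = ± om_i`; so `par` is the same (`w_(i+h) ≡ w_i`, `℘` is periodic and depends only on the lattice).
`∏_(i<h) mu_i = 2^h om_h/om_0 = ± 2^h/x`, and `x xbar = ± 2^h`.. precisely: `nm x = 2^h` (norm of `Q^h`; `nm x` is positive), so it is `± emb (star x)` and `sp (star x) = cjI(Q^h) = P^h`. Put `y = star x`. -/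
def S2_CH2 : Prop :=
  ∀ (A B : ℤ), CaseP 2 A B → (8 : ℤ) ∣ B ^ 2 + 4 * A - 1 → LatFacts A B →
    ∀ (P : Ideal (OO A B)), IsPN 2 P → ∀ (b : Ideal (OO A B)) (L : PeriodPair) (om : ℂ),
    IsNL b L om →
    ∃ (h : ℕ) (y : OO A B) (N : ℕ → PeriodPair) (mu w : ℕ → ℂ), 0 < h ∧ P ^ h = sp y ∧ N 0 = L ∧
      (∀ i, ∃ (b' : Ideal (OO A B)) (om' : ℂ), IsNL b' (N i) om') ∧
      (∀ i, IsQ P (N i) (N (i + 1)) (mu i)) ∧
      (∀ i, Two (N i) (N (i + 1)) (mu i) (w i)) ∧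
      (∀ i, Tor P (N i) (w i)) ∧
      (∀ i, (N (i + h)).lattice = (N i).lattice) ∧
      Rec (fun i => par (N i) (w i)) ∧
      (∀ i, par (N (i + h)) (w (i + h)) = par (N i) (w i)) ∧
      (∏ i ∈ Finset.range h, mu i = emb y ∨ ∏ i ∈ Finset.range h, mu i = -emb y)

/-- `V` lies above 2 and above the prime ideal `P` of norm two -/
structure Above2 {A B : ℤ} (P : Ideal (OO A B)) (V : ValuationSubring ℂ) : Prop where
  two : V.valuation 2 < 1
  lt : ∀ x ∈ P, V.valuation (emb x) < 1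
  one : ∀ x ∉ P, V.valuation (emb x) = 1

/-- (GD2) GOOD ORDINARY REDUCTION AT THE PLACES ABOVE 2.

Uses CHN, CH2, NRM, PAR. PROOF. Let `P` be the prime under `V`, `Q` the other prime of norm two, `w`, `w'` nonzero points of `ℂ/L` killed by `P`, `Q`. (CH2) for `P`, (CHN): all `v(s_i) = 1` or all `v(s_i) = θ¹²`.
From (NRM): `v(mu_i)² = 1` in the first case and `θ⁴ θ⁹/(θ³ θ⁸) = θ²` in the second (`v(s+16) = θ⁴`, `v(s-512) = θ⁹`, `v(s-8) = θ³`, `v(s+256) = θ⁸`). The product of the `mu_i` has the valuation `v(emb y) < 1`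
(`y ∈ P^h ⊆ P`), so it is the second case and `v(mu_i) = θ`. For `Q`: `v(emb y) = 1` (`y ∉ P`: `sp y = Q^h`, `Q^h` is not contained in the prime ideal `P ≠ Q`; `one`), so the first case holds (in the second the product would be `θ^h < 1`).
(1) `κ = s/((s-8)²(s+64))` with `s = par L w'` a unit, `v(s-8) = v(s+64) = 1`. (2), (3): the parameters at `i = 0`; `x(w) = 2/(s-8)`. (4) a given `mu`, `M` with `IsQ P L M mu`, `M` normalised: `mu_0⁻¹ mu` maps `N 1` onto `M` (`mu_0 z ∈ N 1` iff `mu z ∈ M`),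
both normalised, so `g₂ = c^(-4) g₂`, `g₃ = c^(-6) g₃`: `c² = 1`. The same for `Q`. (5) `1 + 1728κ`: `v(1728κ) < 1`. -/
def S2_GD2 : Prop :=
  ∀ (A B : ℤ), CaseP 2 A B → (8 : ℤ) ∣ B ^ 2 + 4 * A - 1 → LatFacts A B →
    ∀ (P Q : Ideal (OO A B)) (V : ValuationSubring ℂ), IsPN 2 P → IsPN 2 Q → P ≠ Q → Above2 P V →
    ∀ (b : Ideal (OO A B)) (L : PeriodPair) (om : ℂ), IsNL b L om →
    V.valuation (kap L) = 1 ∧ V.valuation (1 + 1728 * kap L) = 1 ∧
    (∀ w, w ∉ L.lattice → Tor P L w → V.valuation (par L w) = V.valuation 2 ^ 12 ∧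
      V.valuation (xn L w) * V.valuation 2 ^ 2 = 1) ∧
    (∀ w, w ∉ L.lattice → Tor Q L w → V.valuation (par L w) = 1 ∧
      V.valuation (xn L w) = V.valuation 2) ∧
    (∀ (b' : Ideal (OO A B)) (M : PeriodPair) (om' mu : ℂ), IsNL b' M om' → IsQ P L M mu →
      V.valuation mu = V.valuation 2) ∧
    (∀ (b' : Ideal (OO A B)) (M : PeriodPair) (om' mu : ℂ), IsNL b' M om' → IsQ Q L M mu →
      V.valuation mu = 1)

/-- (IN2) different lattices have incongruent `κ` modulo `V`.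

Uses CH2, GD2, CIN. PROOF. `v(κ) = v(κ') = 1` (GD2), so `v(1/κ - 1/κ') < 1`, `1/κ = J(s) - 1728`. Take the chains (CH2) of the prime `Q` (not below `V`) for `L` and `L'`: all parameters are units (GD2 for all `N i`). (CIN): `s_0 = s'_0`, so
`κ(L) = κ(L')`, so `g₂` and `g₃` are equal and the lattices are (`Pool.Agent.MUXU.tu_DET`, with its hypothesis). -/
def S2_IN2 : Prop :=
  ∀ (A B : ℤ), CaseP 2 A B → (8 : ℤ) ∣ B ^ 2 + 4 * A - 1 → LatFacts A B →
    ∀ (P Q : Ideal (OO A B)) (V : ValuationSubring ℂ), IsPN 2 P → IsPN 2 Q → P ≠ Q → Above2 P V →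
    ∀ (b b' : Ideal (OO A B)) (L L' : PeriodPair) (om om' : ℂ), IsNL b L om → IsNL b' L' om' →
    V.valuation (kap L - kap L') < 1 → L.lattice = L'.lattice

/-! ### The model `Y² + xY = x³ - 36κx - κ`, `Y = (℘' - x)/2` -/

/-- the second coordinate of the model with good reduction at 2 -/
def y2 (L : PeriodPair) (z : ℂ) : ℂ := yy L z - xn L z / 2

/-- the model -/
def W2 (k : ℂ) : Affine ℂ := ⟨1, 0, 0, -36 * k, -k⟩

/-- good reduction at `V`, with uniformisation; any residue characteristic -/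
structure GRG (V : ValuationSubring ℂ) (W : Affine ℂ) (L : PeriodPair)
    (X Y : ℂ → ℂ) (ξ : ℂ →+ W.Point) : Prop where
  int : Pool.Agent.MUXG.IntG V.valuation W
  disc : V.valuation W.Δ = 1
  some : ∀ z ∉ L.lattice, ∃ h, ξ z = Affine.Point.some (X z) (Y z) h
  zero : ∀ z ∈ L.lattice, ξ z = 0

/-- (GR2) normalised lattices have good reduction in this model where `κ` and `1 + 1728κ` are units.

PROOF. The curve `WN (kap L)` (`y² = x³ + x²/4 - 36κx - κ`) and its homomorphism `(xn, yy)`: as `A_EQN`, `A_LAW`, `A_XI` of `Pool/Agent/MU3/` or `U_XIL.lean` (`tu_XIL`, the curve `EL L` in the coordinate `℘`), then change variables: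
the map `(x, y) ↦ (x - 1/12, y - (x - 1/12)/2)` from `EL L` to `W2 (kap L)` is a homomorphism (check on the chord and tangent formulas: `Affine.Point.add_some`, slope `l ↦ l - 1/2`, as in `A_LAW.lean`; or Mathlib's
variable change if it has the isomorphism on points). `g₂ = (1+1728κ)/12`, `g₃ = -g₂/18`. Discriminant of `W2 κ`: `b₂ = 1`, `b₄ = -72κ`, `b₆ = -4κ`, `b₈ = -κ - 1296κ²`, `Δ = κ(1+1728κ)²` (`ring`). -/
def S2_GR2 : Prop :=
  ∀ (V : ValuationSubring ℂ) (L : PeriodPair), L.g₂ = -18 * L.g₃ →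
    V.valuation (kap L) = 1 → V.valuation (1 + 1728 * kap L) = 1 →
    ∃ ξ : ℂ →+ (W2 (kap L)).Point, GRG V (W2 (kap L)) L (xn L) (y2 L) ξ

/-- (E12) the kernel of reduction and the ideals (`P` the prime under `V`).

Uses GD2, GR2, IT2, NRM, `VG.lean` (the kernel is a group without torsion of order prime to the residue characteristic, for `GRG`). PROOF. (1) `j = 0`: (GD2), `v(xn L u) v(2)² = 1`, so `u` is in the kernel. Induction: `u` of exact order `P^(j+1)`, `j ≥ 1`,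
`mu : L → M` with `IsQ P L M mu`, `M` normalised (`LatFacts.ex`), `w` the point of order `P`, `s = par L w`, `v(s) = θ¹²`. (NRM) gives `x_M(mu z)(mu² x + b₀) = x² + a₁x + a₀`, `x = xn L z`, with
`b₀ = -mu² x(w)`, `v(b₀) = 1`, `a₁ = -x(w) + (1-mu²)/12`, `a₀ = t - x(w)(1-mu²)/12`; `v(a₁) < 1`, `v(a₀) < 1`: with `s` small
`(1-mu²)/12 = 2(31s+256)/((s-8)(s+256))` and `a₁ = -2/(s-8) + 2(31s+256)/((s-8)(s+256)) = 60s/((s-8)(s+256))`, of valuation `θ^(12+2-3-8) = θ³`;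
`a₀ = (s+16)²/((s-8)²(s+64)) - 4(31s+256)/((s-8)²(s+256)) = ((s+16)²(s+256) - 4(31s+256)(s+64))/((s-8)²(s+64)(s+256))`, numerator
`s³ + 164s² - 512s` (`(s+16)²(s+256) = s³ + 288s² + 8448s + 65536`, `4(31s+256)(s+64) = 124s² + 8960s + 65536`), valuation `≤ θ^(12+9)`, denominator `θ^(6+6+8)`: `v(a₀) ≤ θ`.
`mu u` has exact order `P^j` on `M`, so `X = x_M(mu u)` has `v(X)^(2^(j-1)) θ² = 1`, `1 < v(X) ≤ θ^(-2)`. Let `a = v(x(u))`. If `a ≤ 1`: the right side has valuation `≤ 1`, the left one `v(X) > 1` (`v(mu² x) < 1`): contradiction. So `a > 1`, right side `a²`; if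
`θ²a < 1`: `a² = v(X)` ✓.; if `θ²a ≥ 1`: `v(X) max(θ²a, 1) ≥ a²` gives `v(X) θ² ≥ a` (when `θ² a > 1`) or `v(X) ≥ a² ≥ θ^(-4)` (when `θ²a = 1`), impossible as `v(X)θ² ≤ 1 < a`, `v(X) ≤ θ^(-2)`.
(2) `u` in the kernel of reduction, killed by the ideal `m` prime to `P`. Let `N > 0` be an integer in `m`, `N = 2^i n`, `n` odd. `P Q = (2)`, `m + P^i = O`, so
`n Q^i = n Q^i (m + P^i) ⊆ m + (n P^i Q^i) = m + (N) = m`. `n u` is in the kernel of reduction and killed by `Q^i`. If `n u ∉ L` let `j < i` be maximal with `Q^j n u` not contained in `L`; some `c ∈ Q^j` has `w' = c n u ∉ L`, killed by `Q`, and `w'` is in the kernel of reduction ((IT2) for the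
isogeny `mu = c : L → L`); but `v(xn L w') = v(2) ≤ 1` (GD2). Contradiction; so `n u ∈ L`, `n` odd, and `u ∈ L` (no prime to 2 torsion in the kernel). -/
def S2_E12 : Prop :=
  ∀ (A B : ℤ), CaseP 2 A B → (8 : ℤ) ∣ B ^ 2 + 4 * A - 1 → LatFacts A B →
    ∀ (P Q : Ideal (OO A B)) (V : ValuationSubring ℂ), IsPN 2 P → IsPN 2 Q → P ≠ Q → Above2 P V →
    ∀ (b : Ideal (OO A B)) (L : PeriodPair) (om : ℂ), IsNL b L om →
    (∀ (j : ℕ) (u : ℂ), Tor (P ^ (j + 1)) L u → ¬ Tor (P ^ j) L u →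
      V.valuation (xn L u) ^ (2 ^ j) * V.valuation 2 ^ 2 = 1) ∧
    ∀ (m : Ideal (OO A B)) (u : ℂ), m ≠ ⊥ → IsCoprime m P → Tor m L u → InEn V L u → u ∈ L.lattice

/-- (IT2) isogenies are integral (`PAPER_X.md`, section 2, (INT)), in every residue characteristic.

Uses VG, Su_ISO. PROOF. Coordinates `X_L = ℘_L - c`, `X_M = ℘_M - c'`; representatives `R` of the kernel, `n = #R + 1`; (ISO), shifted: `A`, `B` polynomials, `A` monic of degree `n`, `B = mu² ∏_(q ∈ R) (T - X_L(q))`, `X_M(mu z) B(X_L z) = A(X_L z)`, and for `mu w ∉ M`: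
`A - X_M(mu w) B = (T - X_L(w)) ∏_(q ∈ R) (T - X_L(w + q))` (PFI). Claim: `A, B ∈ V[T]`. Otherwise let `lam` be a coefficient of maximal valuation, `v(lam) > 1`, `A = lam A₀`, `B = lam B₀`, with `A₀, B₀ ∈ V[T]`, not both zero modulo `m_V`. Let `l` be a prime number, `l ≥ 5`, `l ∤ n`, `v(l) = 1`. For
`w' ∈ M[l] - 0`, `mu w = w'`: if all `X_L(w + q)`, `q ∈ R ∪ {0}`, are in `V`, then `A - X_M(w') B` is in `V[T]`, so `A₀ ≡ X_M(w') B₀`; if this happens for two `w'` with incongruent `X_M(w')` then `B₀ ≡ 0 ≡ A₀`, contradiction. `M[l]` contains `w'₁, w'₂` with incongruent `X_M`, both of this kind: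
if `z = w + q` is in the kernel of reduction of `L`, `mu z = w'`, then `l z` is in the kernel of `mu`, `n l z ∈ L`, so `n z` is in the kernel of reduction and killed by `l`: `n z ∈ L`, `n w' ∈ M`, `w' ∈ M` (`l ∤ n`), contradiction. So every `w' ∈ M[l] - 0` is of this kind, and `w'`, `2w'` have incongruent `X_M` (`l ≥ 5`; `v_X_sub` for `M`).
Conclusions: the leading coefficient `mu²` of `B` is in `V`. If `X_L(z) ∉ V` then `v(A(x)) = v(x)^n`, `v(B(x)) ≤ v(x)^(n-1)`, so `v(X_M(mu z)) ≥ v(x) > 1` or `mu z ∈ M`. -/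
def S2_IT2 : Prop :=
  ∀ (V : ValuationSubring ℂ) (L M : PeriodPair) (c c' mu : ℂ) (YL YM : ℂ → ℂ),
    (∃ (W : Affine ℂ) (ξ : ℂ →+ W.Point), GRG V W L (fun z => L.weierstrassP z - c) YL ξ) →
    (∃ (W : Affine ℂ) (ξ : ℂ →+ W.Point), GRG V W M (fun z => M.weierstrassP z - c') YM ξ) →
    mu ≠ 0 → Isg L M mu → V.valuation mu ≤ 1 ∧
    ∀ z, (z ∈ L.lattice ∨ L.weierstrassP z - c ∉ V) →
      (mu * z ∈ M.lattice ∨ M.weierstrassP (mu * z) - c' ∉ V)

/-- (MU2) multipliers of ideals prime to `P`.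

Uses GR2, GD2, IT2. PROOF. `a^h = (x)` (`LatFacts.fin`), `x ∉ P`. Chain `N 0 = L, N 1 = M, ...` of lattices `N (i+1) = mu_i a⁻¹ N i` (`N i` belongs to `abar^i b`, as in (CH2)), `N h = N 0`, `∏ mu_i = ± emb x` up to the unit
(`om_h nm(x)..`: in any case `v = v(emb x) = 1`), all `v(mu_i) ≤ 1` (IT2): all are `1`. `mu` and `mu_0` differ by a sign. -/
def S2_MU2 : Prop :=
  ∀ (A B : ℤ), CaseP 2 A B → (8 : ℤ) ∣ B ^ 2 + 4 * A - 1 → LatFacts A B →
    ∀ (P Q : Ideal (OO A B)) (V : ValuationSubring ℂ), IsPN 2 P → IsPN 2 Q → P ≠ Q → Above2 P V →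
    ∀ (b b' a : Ideal (OO A B)) (L M : PeriodPair) (om om' mu : ℂ), IsNL b L om → IsNL b' M om' →
    a ≠ ⊥ → IsCoprime a P → IsQ a L M mu → V.valuation mu = 1

end

end Pool.Agent.MUX2


end

section

/-!
# MUX, block R2: module MU2, multipliers of ideals prime to `P` are units at the places above 2 and `P`
-/

set_option autoImplicit false

namespace Pool.Agent.MUX2

open _root_.MU3 _root_.Pool.Agent.MU3A _root_.Pool.Agent.MU3B _root_.Pool.Agent.MUX _root_.Pool.Agent.MUXU WeierstrassCurve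

namespace Mu2

variable {A B : ℤ}

theorem absD_pos (h : CQ A B) : 0 < absD A B := by
  have := h.neg
  unfold absD
  omega

theorem wC_sqq (h : CQ A B) : wC A B * wC A B = A + B * wC A B := by
  have h1 : (0 : ℝ) ≤ (absD A B : ℝ) := by exact_mod_cast (absD_pos h).le
  have h2 : ((Real.sqrt (absD A B) : ℝ) : ℂ) ^ 2 = (absD A B : ℂ) := by
    rw [← Complex.ofReal_pow, Real.sq_sqrt h1]
    norm_num
  have h3 : Complex.I ^ 2 = -1 := Complex.I_sq
  have h4 : (absD A B : ℂ) = -((B : ℂ) ^ 2 + 4 * A) := by simp [absD]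
  unfold wC
  linear_combination (Complex.I ^ 2 / 4) * h2 + ((absD A B : ℂ) / 4) * h3 - (1 / 4) * h4

/-- the embedding as a ring homomorphism -/
noncomputable def eHo (h : CQ A B) : OO A B →+* ℂ :=
  (QuadraticAlgebra.lift (R := ℤ) (a := A) (b := B) (A := ℂ)
    ⟨wC A B, by simpa [zsmul_eq_mul] using wC_sqq h⟩).toRingHom

theorem eHo_apply (h : CQ A B) (x : OO A B) : eHo h x = emb x := by
  simp [eHo, emb, QuadraticAlgebra.lift, zsmul_eq_mul]

theorem em_mul (h : CQ A B) (x y : OO A B) : emb (x * y) = emb x * emb y := by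
  simpa only [eHo_apply] using map_mul (eHo h) x y

theorem em_add (h : CQ A B) (x y : OO A B) : emb (x + y) = emb x + emb y := by
  simpa only [eHo_apply] using map_add (eHo h) x y

theorem em_zero (h : CQ A B) : emb (0 : OO A B) = 0 := by
  simpa only [eHo_apply] using map_zero (eHo h)

theorem wC_im_pos (h : CQ A B) : 0 < (wC A B).im := by
  have h1 : (0 : ℝ) < Real.sqrt (absD A B) := Real.sqrt_pos.2 (by exact_mod_cast absD_pos h)
  have h2 : (wC A B).im = Real.sqrt (absD A B) / 2 := by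
    simp [wC, Complex.add_im, Complex.mul_im]
  rw [h2]; positivity

theorem em_inj (h : CQ A B) {x y : OO A B} (hxy : emb x = emb y) : x = y := by
  have h1 := congrArg Complex.im hxy
  have h2 := congrArg Complex.re hxy
  simp only [emb, Complex.add_im, Complex.mul_im, Complex.intCast_im, Complex.intCast_re,
    zero_mul, add_zero, zero_add, Complex.add_re, Complex.mul_re, sub_zero] at h1 h2
  have h3 : (x.im : ℝ) = y.im := mul_right_cancel₀ (wC_im_pos h).ne' h1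
  rw [h3] at h2
  have h4 : (x.re : ℝ) = y.re := add_right_cancel h2
  exact QuadraticAlgebra.ext (by exact_mod_cast h4) (by exact_mod_cast h3)

theorem em_eq_zero (h : CQ A B) (x : OO A B) : emb x = 0 ↔ x = 0 :=
  ⟨fun h0 => em_inj h (h0.trans (em_zero h).symm), fun h0 => by rw [h0, em_zero h]⟩

theorem isDom (h : CQ A B) : IsDomain (OO A B) := by
  have hi : Function.Injective (eHo h) := fun x y hxy =>
    em_inj h (by simpa only [eHo_apply] using hxy)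
  exact hi.isDomain (eHo h)

/-- `a z ⊆ L` iff `x z ∈ om a^(h-1) c`, for `a^h = (x)` and the lattice `L = om c` -/
theorem isq_iff (hC : CQ A B) (a c : Ideal (OO A B)) (h : ℕ) (x : OO A B) (L : PeriodPair) (om : ℂ)
    (hh : 0 < h) (hx : x ≠ 0) (hax : a ^ h = sp x) (hL : IsLI c L om) (z : ℂ) :
    (∀ y ∈ a, emb y * z ∈ L.lattice) ↔ ∃ u ∈ a ^ (h - 1) * c, emb x * z = om * emb u := by
  have hh1 : h - 1 + 1 = h := Nat.sub_add_cancel hh
  have hex : emb x ≠ 0 := fun h0 => hx ((em_eq_zero hC x).1 h0)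
  constructor
  · intro hz
    have hxm : x ∈ a ^ (h - 1) * a := by
      rw [← pow_succ, hh1, hax]
      exact Ideal.mem_span_singleton_self x
    refine Submodule.mul_induction_on (C := fun r => ∃ u ∈ a ^ (h - 1) * c, emb r * z = om * emb u)
      hxm ?_ ?_
    · intro t ht y hy
      obtain ⟨s, hs, hs'⟩ := (hL.mem _).1 (hz y hy)
      refine ⟨t * s, Ideal.mul_mem_mul ht hs, ?_⟩
      rw [em_mul hC, em_mul hC, mul_assoc, hs']
      ring
    · rintro r r' ⟨u, hu, hu'⟩ ⟨s, hs, hs'⟩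
      refine ⟨u + s, add_mem hu hs, ?_⟩
      rw [em_add hC, em_add hC, add_mul, hu', hs']
      ring
  · rintro ⟨u, hu, hu'⟩ y hy
    have h1 : y * u ∈ sp x * c := by
      rw [← hax]
      have h2 : a ^ h * c = a * (a ^ (h - 1) * c) := by
        rw [← mul_assoc, ← pow_succ', hh1]
      rw [h2]
      exact Ideal.mul_mem_mul hy hu
    obtain ⟨s, hs, hs'⟩ := Ideal.mem_span_singleton_mul.1 h1
    refine (hL.mem _).2 ⟨s, hs, ?_⟩
    have h3 : emb x * (emb y * z) = emb x * (om * emb s) := by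
      have h4 : emb x * emb s = emb y * emb u := by rw [← em_mul hC, ← em_mul hC, hs']
      linear_combination (emb y) * hu' - om * h4
    exact mul_left_cancel₀ hex h3

end Mu2

open _root_.Pool.Agent.MUX2.Mu2 in
theorem t2_MU2 (h1 : S2_GD2) (h2 : S2_GR2) (h3 : S2_IT2) : S2_MU2 := by
  intro A B hC h8 hLF P Q V hP hQ hPQ hV b b' a L M om om' mu hL hM ha hcop hq
  have hCQ : CQ A B := hC.toCQ
  have : IsDomain (OO A B) := isDom hCQ
  have := hP.prime
  obtain ⟨h, x, hh, hx, hax⟩ := hLF.fin a ha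
  have hh1 : h - 1 + 1 = h := Nat.sub_add_cancel hh
  have hex : emb x ≠ 0 := fun h0 => hx ((em_eq_zero hCQ x).1 h0)
  have hxP : x ∉ P := by
    intro h0
    have h4 : a ^ h ≤ P := by
      rw [hax]
      exact (Ideal.span_singleton_le_iff_mem _).2 h0
    have h5 : a ≤ P := Ideal.IsPrime.le_of_pow_le h4
    have h6 := Ideal.isCoprime_iff_sup_eq.1 hcop
    rw [sup_eq_right.2 h5] at h6
    exact hP.prime.ne_top h6
  have hvx : V.valuation (emb x) = 1 := hV.one x hxP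
  -- the lattice M belongs to the ideal a^(h-1) b
  have hmu := hq.1
  have hMI : IsNL (a ^ (h - 1) * b) M (mu * om / emb x) :=
    { b_ne := mul_ne_zero (pow_ne_zero _ ha) hL.b_ne
      om_ne := div_ne_zero (mul_ne_zero hmu hL.om_ne) hex
      mem := by
        intro z
        have h4 : z = mu * (z / mu) := by field_simp
        have h5 := hq.2 (z / mu)
        rw [← h4] at h5
        rw [h5, isq_iff hCQ a b h x L om hh hx hax hL.toIsLI]
        constructor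
        · rintro ⟨u, hu, hu'⟩
          refine ⟨u, hu, ?_⟩
          field_simp at hu' ⊢
          linear_combination hu'
        · rintro ⟨u, hu, hu'⟩
          refine ⟨u, hu, ?_⟩
          rw [hu']
          field_simp
      nrm := hM.nrm }
  -- the chain
  have hch : ∀ i : ℕ, ∃ p : PeriodPair × ℂ, IsNL (a ^ ((h - 1) * i) * b) p.1 p.2 ∧
      (i = 0 → p = (L, om)) ∧ (i = 1 → p = (M, mu * om / emb x)) := by
    intro i
    by_cases hi0 : i = 0
    · refine ⟨(L, om), ?_, fun _ => rfl, fun hi1 => absurd hi1 (by omega)⟩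
      rw [hi0, mul_zero, pow_zero, Ideal.one_eq_top, Ideal.top_mul]
      exact hL
    by_cases hi1 : i = 1
    · refine ⟨(M, mu * om / emb x), ?_, fun h0 => absurd h0 hi0, fun _ => rfl⟩
      rw [hi1, mul_one]
      exact hMI
    · obtain ⟨L', om', h'⟩ := hLF.ex (a ^ ((h - 1) * i) * b)
        (mul_ne_zero (pow_ne_zero _ ha) hL.b_ne)
      exact ⟨(L', om'), h', fun h0 => absurd h0 hi0, fun h0 => absurd h0 hi1⟩
  choose p hp hp0 hp1 using hch
  have hgr : ∀ i, ∃ (W : Affine ℂ) (ξ : ℂ →+ W.Point), GRG V W (p i).1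
      (fun z => (p i).1.weierstrassP z - 1 / 12) (y2 (p i).1) ξ := by
    intro i
    obtain ⟨g1, g2, -⟩ := h1 A B hC h8 hLF P Q V hP hQ hPQ hV _ _ _ (hp i)
    obtain ⟨ξ, hξ⟩ := h2 V (p i).1 (hp i).nrm g1 g2
    exact ⟨_, ξ, hξ⟩
  have hstep : ∀ i, V.valuation (p (i + 1)).2 ≤ V.valuation (p i).2 := by
    intro i
    have hmi : (p (i + 1)).2 * emb x / (p i).2 ≠ 0 :=
      div_ne_zero (mul_ne_zero (hp (i + 1)).om_ne hex) (hp i).om_ne
    have hI : Isg (p i).1 (p (i + 1)).1 ((p (i + 1)).2 * emb x / (p i).2) := by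
      intro w hw
      obtain ⟨c, hc, hc'⟩ := ((hp i).mem w).1 hw
      refine ((hp (i + 1)).mem _).2 ⟨x * c, ?_, ?_⟩
      · have h4 : a ^ ((h - 1) * (i + 1)) * b = a ^ (h - 1) * (a ^ ((h - 1) * i) * b) := by
          rw [← mul_assoc, ← pow_add]
          congr 2
          ring
        rw [h4]
        refine Ideal.mul_mem_mul ?_ hc
        have h5 : x ∈ a ^ h := by
          rw [hax]
          exact Ideal.mem_span_singleton_self x
        exact Ideal.pow_le_pow_right (by omega) h5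
      · rw [hc', em_mul hCQ]
        have := (hp i).om_ne
        field_simp
    have h4 := (h3 V (p i).1 (p (i + 1)).1 (1 / 12) (1 / 12) _ (y2 (p i).1) (y2 (p (i + 1)).1)
      (hgr i) (hgr (i + 1)) hmi hI).1
    rw [map_div₀, map_mul, hvx, mul_one] at h4
    have h5 : V.valuation (p i).2 ≠ 0 := (V.valuation.ne_zero_iff).2 (hp i).om_ne
    exact (div_le_one₀ (zero_lt_iff.2 h5)).1 h4
  have hanti : Antitone fun i => V.valuation (p i).2 := antitone_nat_of_succ_le hstep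
  have hclose : V.valuation (p h).2 = V.valuation om := by
    have h4 : sp (1 : OO A B) * (a ^ ((h - 1) * h) * b) = sp (x ^ (h - 1)) * b := by
      rw [mul_comm (h - 1) h, pow_mul, hax, Ideal.span_singleton_pow]
      show Ideal.span {1} * (Ideal.span {x ^ (h - 1)} * b) = Ideal.span {x ^ (h - 1)} * b
      rw [Ideal.span_singleton_one, Ideal.top_mul]
    have h5 := (hLF.eq _ _ _ _ _ _ 1 (x ^ (h - 1)) (hp h) hL one_ne_zero (pow_ne_zero _ hx) h4).2
    have h6 : V.valuation (emb (1 : OO A B)) = 1 :=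
      hV.one 1 fun h0 => hP.prime.ne_top ((Ideal.eq_top_iff_one _).2 h0)
    have h7 : V.valuation (emb (x ^ (h - 1))) = 1 :=
      hV.one _ fun h0 => hxP (hP.prime.mem_of_pow_mem _ h0)
    rcases h5 with h5 | h5
    · have h8 := congrArg V.valuation h5
      rw [map_mul, map_mul, h6, h7, mul_one, mul_one] at h8
      exact h8.symm
    · have h8 := congrArg V.valuation h5
      rw [Valuation.map_neg, map_mul, map_mul, h6, h7, mul_one, mul_one] at h8
      exact h8.symm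
  have e0 : p 0 = (L, om) := hp0 0 rfl
  have e1 : p 1 = (M, mu * om / emb x) := hp1 1 rfl
  have h4 : V.valuation (p 1).2 = V.valuation om := by
    refine le_antisymm ?_ ?_
    · have := hanti (Nat.zero_le 1)
      simpa only [e0] using this
    · rw [← hclose]
      exact hanti (show 1 ≤ h from hh)
  rw [e1, map_div₀, map_mul, hvx, div_one] at h4
  have h5 : V.valuation om ≠ 0 := (V.valuation.ne_zero_iff).2 hL.om_ne
  exact mul_right_cancel₀ h5 (by rw [h4, one_mul])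

end Pool.Agent.MUX2


end

section

/-!
# MUX, block R3: good reduction at the places above 3 (the case `p = 3`) (helper83)

The analogue of `StR2.lean` (helper77) for `p = 3`. `V` is a valuation ring of `ℂ` with `v(3) = θ < 1`, `v = V.valuation`. All lattices are
normalised (`g₂ = -18 g₃`), `x = xn L z = ℘ - 1/12`, `κ = kap L`, `j = 1728 + 1/κ`, and (blocks `CQ`, `CaseP 3`) have complex multiplication by
`O`, `3 O = P Pbar`. Every `def S3_X : Prop` is the statement of a module which proves `theorem t3_X (h : S3_Y) .. : S3_X` in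
`Pool/Agent/MUX/R3_X.lean`, namespace `Pool.Agent.MUX3`. The theorems `Pool.Agent.MU3B.b_X : St_X` of `Pool/Agent/MU3/BAll.lean` and the
theorems `Pool.Agent.MUXU.tu_X` of `Pool/Agent/MUX/U_X.lean` may be used. MODEL: the file `Pool/Agent/MUX/R2_Y.lean` of the same name for `p = 2`
(copy and adapt; its private lemmas may be imported if nothing changes). `IT2`, `GR2`, `GRG`, `VG.lean` of the case `p = 2` hold in
every residue characteristic and are used as they are.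

Parameter: for `u` of order three on `ℂ / L`, `x₀ = x(u)`: `s = par3 L u = 9 κ (12 x₀ + 1)/(x₀³ - κ)`. Put `q(s) = s² + 18 s - 27`,
`r(s) = s² - 486 s - 19683`, `J(s) = (s + 27)(s + 3)³/s`. Then `x₀ = (s + 9)/q(s)`, `κ = s/q(s)²`, `j = J(s)`; the quotient by `{0, u, -u}` has the
parameter `729/s` at the dual point, `κ' = s³/r(s)²`, and the multiplier `mu² = (s + 3) r(s)/((s + 243) q(s))`. All formulas were
checked by computer.
-/

set_option autoImplicit false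

namespace Pool.Agent.MUX3

open _root_.MU3 _root_.Pool.Agent.MU3A _root_.Pool.Agent.MU3B _root_.Pool.Agent.MUX _root_.Pool.Agent.MUXU _root_.Pool.Agent.MUX2
open WeierstrassCurve

noncomputable section

/-- the isogeny `z ↦ mu z` from `ℂ / L` to `ℂ / M` has the kernel `{0, u, -u}`, `u` of order three -/
structure Three (L M : PeriodPair) (mu u : ℂ) : Prop where
  mu_ne : mu ≠ 0
  u_ne : u ∉ L.lattice
  u3 : 3 * u ∈ L.lattice
  ker : ∀ z, mu * z ∈ M.lattice ↔ z ∈ L.lattice ∨ z - u ∈ L.lattice ∨ z + u ∈ L.lattice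

/-- the parameter of a point of order three -/
def par3 (L : PeriodPair) (u : ℂ) : ℂ :=
  9 * kap L * (12 * xn L u + 1) / (xn L u ^ 3 - kap L)

/-- `q(s) = s² + 18 s - 27` -/
def q3 (s : ℂ) : ℂ := s ^ 2 + 18 * s - 27

/-- `r(s) = s² - 486 s - 19683` -/
def r3 (s : ℂ) : ℂ := s ^ 2 - 486 * s - 19683

/-- (TRI) points of order three.

PROOF. `2 u ∉ L` (otherwise `u = 3u - 2u ∈ L`), so `℘'(u) ≠ 0` (`b_ZER`). `2u - (-u) ∈ L`, so `℘(2u) = ℘(-u) = ℘(u)` (periodicity, `℘` even). (DUP): `3 ℘(u) = ((6℘² - g₂/2)/(2℘'))²`, i.e.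
`12 ℘ ℘'² = (6℘² - g₂/2)²`, with `℘'² = 4℘³ - g₂℘ - g₃` (`derivWeierstrassP_sq`): `48℘⁴ - 12g₂℘² - 12g₃℘ = 36℘⁴ - 6g₂℘² + g₂²/4`. -/
def S3_TRI : Prop :=
  ∀ (L : PeriodPair) (u : ℂ), u ∉ L.lattice → 3 * u ∈ L.lattice →
    L.derivWeierstrassP u ≠ 0 ∧
    12 * L.weierstrassP u ^ 4 - 6 * L.g₂ * L.weierstrassP u ^ 2 - 12 * L.g₃ * L.weierstrassP u -
      L.g₂ ^ 2 / 4 = 0

/-- (VEL) the quotient by a subgroup of order three. `e = ℘(u)`, `t = 6e² - g₂/2`, `w = 4e³ - g₂e - g₃ = ℘'(u)²`.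

Uses `Pool.Agent.MUXU.Su_ISO`, `Su_DER`. MODEL: `R2_VEL.lean`. PROOF. (ISO) with `R = {u, -u}` (`u ≠ -u`, even `u - (-u) = 2u ∉ L`; `mu L ⊆ M`: `ker`): `A` monic of degree three, `B = C(mu²)(X - e)²`,
`IsoP`, `OdeP`. Let `m = mu²`, `Y = X - e`, `B = mY²`. `A'B - AB' = mY(A'Y - 2A)`; insert in `OdeP` and cancel `m²Y²`: `(A'Y - 2A)² F = 4A³ - m²g₂(M) A Y⁴ - m³g₃(M) Y⁶`,
`F = 4X³ - g₂X - g₃ = 4Y³ + 12eY² + (12e² - g₂)Y + w`. At `Y = 0`: `4A(e)²w = 4A(e)³`, `A(e) ≠ 0` (coprime to `B`), so `A(e) = w`. Write `A = Y³ + pY² + tY + w` (monic). `A'Y - 2A = Y³ - tY - 2w`.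
Compare coefficients: `Y⁸`: `12e = 12p`. `Y¹`: `4w²(12e² - g₂) + 4tw² = 12tw²`, `w ≠ 0`: `t = 6e² - g₂/2`. `Y⁷`: `-8t + 12e² - g₂ = 12t + 12e² - m²g₂(M)`, i.e. `m²g₂(M) = 20t + g₂ = 120e² - 9g₂`.
`Y⁶`: `-15w - 24et = 4e³ + 24et + 12w - m²g₂(M)e - m³g₃(M)`, i.e. `m³g₃(M) = 4e³ + 48et + 27w - (120e² - 9g₂)e = 280e³ - 42g₂e - 27g₃`. `℘ z ≠ e` if `mu z ∉ M` (then `z ∉ L`; `b_NEQ`: `℘ z = ℘ u` gives `z ∓ u ∈ L`).
`A(℘ z) = ℘_M(mu z) B(℘ z)` is the third formula. (DER): `mu ℘_M'(mu z) m²Y⁴ = mY(Y³ - tY - 2w) ℘'(z)` with `Y = ℘ z - e`. -/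
def S3_VEL : Prop :=
  ∀ (L M : PeriodPair) (mu u : ℂ), Three L M mu u →
    mu ^ 4 * M.g₂ = 120 * L.weierstrassP u ^ 2 - 9 * L.g₂ ∧
    mu ^ 6 * M.g₃ =
      280 * L.weierstrassP u ^ 3 - 42 * L.g₂ * L.weierstrassP u - 27 * L.g₃ ∧
    ∀ z, mu * z ∉ M.lattice →
      L.weierstrassP z - L.weierstrassP u ≠ 0 ∧
      mu ^ 2 * M.weierstrassP (mu * z) = L.weierstrassP z +
        (6 * L.weierstrassP u ^ 2 - L.g₂ / 2) / (L.weierstrassP z - L.weierstrassP u) +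
        (4 * L.weierstrassP u ^ 3 - L.g₂ * L.weierstrassP u - L.g₃) /
          (L.weierstrassP z - L.weierstrassP u) ^ 2 ∧
      mu ^ 3 * M.derivWeierstrassP (mu * z) = L.derivWeierstrassP z *
        (1 - (6 * L.weierstrassP u ^ 2 - L.g₂ / 2) /
            (L.weierstrassP z - L.weierstrassP u) ^ 2 -
          2 * (4 * L.weierstrassP u ^ 3 - L.g₂ * L.weierstrassP u - L.g₃) /
            (L.weierstrassP z - L.weierstrassP u) ^ 3)

/-- (PAR) the parameter of a point of order three on a normalised lattice.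

Uses TRI. MODEL: `R2_NRM.lean` (`nrm_kap`: `κ ≠ 0`, `g₂ = (1+1728κ)/12`, `g₃ = -(1+1728κ)/216`, `g₂ ≠ 0`, so `1+1728κ ≠ 0`). PROOF. `℘(u) = x₀ + 1/12`; TRI becomes `ψ(x₀) = 0`, `ψ(X) = 3X⁴ + X³ - 216κX² - 12κX - κ - 1296κ²`.
(1) `x₀³ ≠ κ`: otherwise `ψ = -9x₀⁴(1 + 12x₀)²` (substitute `κ = x₀³`), `x₀ ≠ 0` as `κ ≠ 0`, so `x₀ = -1/12`, `κ = -1/1728`, contradiction. Put `s = par3 L u`, `N = x₀³ - κ`. (2) `s + 9 = 9x₀(x₀² + 12κ)/N`,
`q(s) = (s+9)² - 108 = 9(x₀² + 12κ)/N`, because `81x₀²(x₀² + 12κ)² - 108N² - 9(x₀² + 12κ)N = -9x₀²ψ(x₀)`. (3) `x₀² + 12κ ≠ 0`: otherwise (`x₀² = -12κ`) `ψ = κ(1728κ - 24x₀ - 1)`, so `x₀ = (1728κ - 1)/24`,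
and `x₀² + 12κ = (1728κ + 1)²/576`, contradiction. So `q(s) ≠ 0` and `x₀ = (s + 9)/q(s)`. (4) `κq(s)² = s`: `81κ(x₀² + 12κ)² = 9κ(12x₀ + 1)N`, as `9(x₀² + 12κ)² - (12x₀ + 1)N = -ψ(x₀) + ..` (precisely
`(12x₀ + 1)(x₀³ - κ) - 9(x₀² + 12κ)² = ψ(x₀)`). So `κ = s/q(s)²`, `s ≠ 0`. (5) `1 + 1728κ = (q(s)² + 1728s)/q(s)² = (s + 27)(s + 3)³/q(s)²`, so `s + 3 ≠ 0`, `s + 27 ≠ 0`. -/
def S3_PAR : Prop :=
  ∀ (L : PeriodPair) (u : ℂ), u ∉ L.lattice → 3 * u ∈ L.lattice → L.g₂ = -18 * L.g₃ →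
    par3 L u ≠ 0 ∧ q3 (par3 L u) ≠ 0 ∧ par3 L u + 3 ≠ 0 ∧ par3 L u + 27 ≠ 0 ∧ kap L ≠ 0 ∧
    xn L u = (par3 L u + 9) / q3 (par3 L u) ∧
    kap L = par3 L u / q3 (par3 L u) ^ 2

/-- (NRM) the quotient, for normalised lattices.

Uses PAR, VEL. MODEL: `R2_NRM.lean`. PROOF. `s = par3 L u`, `q = q(s)`, `r = r(s)`. `e = ℘(u) = x₀ + 1/12 = (s+3)(s+27)/(12q)`, `g₂ = (s+27)(s+3)³/(12q²)`, `g₃ = -g₂/18`. (VEL): `mu⁴g₂(M) = (s+3)²(s+27)(s+243)/(12q²)`,
`mu⁶g₃(M) = -(s+3)³(s+27)r/(216q³)`; both are not zero (`nrm_kap` for `M`): `s + 243 ≠ 0`, `r ≠ 0`. `g₂(M) = -18g₃(M)`: `mu² = -18(mu⁶g₃(M))/(mu⁴g₂(M))`. `12g₂(M) = 12(mu⁴g₂(M))/(mu²)² = (s+27)(s+243)³/r²`,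
`(s+27)(s+243)³ - r² = 1728s³`. `t = 6e² - g₂/2 = (s+3)²(s+27)/q²`, `w = 4e³ - g₂e - g₃ = (s+3)³(s+27)/q³`. `℘ = x + 1/12` on both sides. -/
def S3_NRM : Prop :=
  ∀ (L M : PeriodPair) (mu u : ℂ), Three L M mu u → L.g₂ = -18 * L.g₃ → M.g₂ = -18 * M.g₃ →
    par3 L u + 243 ≠ 0 ∧ r3 (par3 L u) ≠ 0 ∧
    kap M = par3 L u ^ 3 / r3 (par3 L u) ^ 2 ∧
    mu ^ 2 = (par3 L u + 3) * r3 (par3 L u) / ((par3 L u + 243) * q3 (par3 L u)) ∧
    ∀ z, mu * z ∉ M.lattice → xn L z - xn L u ≠ 0 ∧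
      mu ^ 2 * xn M (mu * z) = xn L z + (1 - mu ^ 2) / 12 +
        (par3 L u + 3) ^ 2 * (par3 L u + 27) / q3 (par3 L u) ^ 2 / (xn L z - xn L u) +
        (par3 L u + 3) ^ 3 * (par3 L u + 27) / q3 (par3 L u) ^ 3 / (xn L z - xn L u) ^ 2

/-- (DUA) the dual isogeny.

Uses TRI, PAR, NRM. MODEL: `R2_DUA.lean`. PROOF. Kernel: let `v = mu z` (`mu ≠ 0`). `(3/mu) v = 3z`, and `3z ∈ L` iff `z` is congruent modulo `L` to `i u + j u'` with `i, j ∈ {0, 1, -1}` (the nine points of `ℂ/L` killed by 3; the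
lattice has a basis), iff `mu z ∈ M` or `mu z - mu u' ∈ M` or `mu z + mu u' ∈ M` (`ker`). `mu u' ∉ M` (`ker`). `3 mu u' ∈ M`. Parameter: `x₁ = x(u')` is a root of `ψ` (see PAR), `x₁ ≠ x₀` (`b_NEQ`), and with `t`, `w` of (NRM)
(`t = 6x₀² + x₀ - 72κ`, `w = 4x₀³ + x₀² - 144κx₀ - 4κ`): `3(x₁ - x₀)((x₁ + 3x₀ + 1/3)(x₁ - x₀)² + t(x₁ - x₀) + w) = ψ(x₁) - ψ(x₀) = 0`, so (NRM) for `z = u'` gives `mu² xn M (mu u') = (1 - mu²)/12 - 3x₀ - 1/3`, and
`xn M (mu u') = -s(s+81)/(3r(s))`; with `κ' = s³/r(s)²`: `par3 M (mu u') = 9κ'(12x' + 1)/(x'³ - κ') = 729/s` (`x'³ - κ' = -s³((s+81)³ + 27r)/(27r³)`, `(s+81)³ + 27r = s(s+27)(s+243)`;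
`12x' + 1 = -3(s+27)(s+243)/r`; not zero). -/
def S3_DUA : Prop :=
  ∀ (L M : PeriodPair) (mu u u' : ℂ), Three L M mu u → L.g₂ = -18 * L.g₃ → M.g₂ = -18 * M.g₃ →
    u' ∉ L.lattice → 3 * u' ∈ L.lattice → u' - u ∉ L.lattice → u' + u ∉ L.lattice →
    Three M L (3 / mu) (mu * u') ∧ par3 M (mu * u') = 729 / par3 L u

/-- (JEQ) two subgroups of order three of the same lattice.

Uses PAR. MODEL: `R2_JEQ.lean`. PROOF. `x(u) ≠ x(u')` (`b_NEQ`), so `s ≠ s'` (`x = (s+9)/q(s)`). `1/κ = q(s)²/s = s³ + 36s² + 270s - 972 + 729/s` takes the same value at `s` and `s'`; the difference is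
`(s - s')(s² + ss' + s'² + 36(s + s') + 270 - 729/(ss'))`. -/
def S3_JEQ : Prop :=
  ∀ (L : PeriodPair) (u u' : ℂ), u ∉ L.lattice → 3 * u ∈ L.lattice → u' ∉ L.lattice →
    3 * u' ∈ L.lattice → u' - u ∉ L.lattice → u' + u ∉ L.lattice → L.g₂ = -18 * L.g₃ →
    par3 L u * par3 L u' * (par3 L u ^ 2 + par3 L u * par3 L u' + par3 L u' ^ 2 +
      36 * (par3 L u + par3 L u') + 270) = 729

/-- the recursion of the parameters along a chain -/
def Rec3 (s : ℕ → ℂ) : Prop :=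
  ∀ i, s i ≠ 0 ∧ s (i + 1) ^ 3 + (36 + 729 / s i) * s (i + 1) ^ 2 +
    ((729 / s i) ^ 2 + 36 * (729 / s i) + 270) * s (i + 1) = s i

/-- (CHN) periodic chains: valuations.

MODEL: `R2_CHN.lean`. PROOF. `θ = v(3) < 1`. (0) Let `S r = 729`, `X ≠ 0`, `X³ + (36 + r)X² + (r² + 36r + 270)X = S`, `v(S) ≥ θ⁴`. Then `v(r) = θ⁶/v(S) ≤ θ²`, `v(36 + r) ≤ θ²`, `v(r² + 36r + 270) ≤ θ³`. With `b = v(X)`: if `b³ ≠ v(S)` then
`max(b³, v(S)) = v(X³ - S) ≤ max(θ²b², θ³b)`. If the maximum on the right is `θ²b²`: `b ≤ θ²` and `v(S) ≤ θ⁶ < θ⁴`; if it is `θ³b`: `b² ≤ θ³` and `v(S)² ≤ θ⁶b² ≤ θ⁹ < θ⁸ ≤ v(S)²`; both impossible. So `b³ = v(S)`, and `b ≥ θ⁴`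
(otherwise `b³ < θ¹² ≤ θ⁴`). (a) If some `a_i = v(s_i) ≥ θ⁴`: by (0) (`S = s_i`, `X = s_(i+1)`, `r = 729/s_i`) `a_(j+1)³ = a_j ≥ θ⁴` for all `j ≥ i`, by periodicity for all `j`; `a_(j+h)^(3^h) = a_j = a_(j+h)`, so `a_j = 1`.
(b) Otherwise all `a_i < θ⁴`; `r_i = 729/s_i`, `v(r_i) = θ⁶/a_i > θ² ≥ θ⁴`. The recursion is symmetric: (multiply by `r_i/s_(i+1)`...) `r_i³ + (36 + s_(i+1)) r_i² + (s_(i+1)² + 36 s_(i+1) + 270) r_i = r_(i+1)`, so (0) with `S = r_(i+1)`, `r = s_(i+1)`, `X = r_i`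
gives `v(r_i)³ = v(r_(i+1))`; periodicity: `v(r_i) = 1`, `a_i = θ⁶`. (Both recursions say `s_(i+1) r_i (s_(i+1)² + s_(i+1) r_i + r_i² + 36(s_(i+1) + r_i) + 270) = 729`.) -/
def S3_CHN : Prop :=
  ∀ (V : ValuationSubring ℂ) (s : ℕ → ℂ) (h : ℕ), V.valuation 3 < 1 → Rec3 s → 0 < h →
    (∀ i, s (i + h) = s i) →
    (∀ i, V.valuation (s i) = 1) ∨ ∀ i, V.valuation (s i) = V.valuation 3 ^ 6

/-- (CIN) periodic chains of units: injectivity modulo `V`.

MODEL: `R2_CIN.lean`. PROOF. Common period `N = h h'`. `d_i = s_i - s'_i`. `J(s) = (s+27)(s+3)³/s = s³ + 36s² + 270s + 756 + 729/s`, and `v 36, v 270, v 756, v 729 < 1`, so `v(J(s_0) - J(s'_0)) < 1` and units give `v(s_0³ - s'_0³) < 1`;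
`(s_0 - s'_0)³ = s_0³ - s'_0³ - 3s_0s'_0(s_0 - s'_0)`, so `v(d_0) < 1`. By the recursion modulo the maximal ideal (`s_(i+1)³ ≡ s_i`) in the same way `v(d_i) < 1` implies `v(d_(i+1)) < 1`: all `v(d_i) < 1`. Subtract the recursions, with
`X = s_(i+1)`, `X' = s'_(i+1)`, `r = 729/s_i`, `r' = 729/s'_i`, `r - r' = -729 d_i/(s_i s'_i)`: `d_i = d_(i+1)(X² + XX' + X'² + 36(X + X') + 270 + r(X + X') + r² + 36r) + (r - r')(X'² + X'(r + r') + 36X')`. The first bracket has valuation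
`ρ < 1` (`X² + XX' + X'² = 3X² - 3X d + d²`, `d = d_(i+1)`), the second term at most `v(729) v(d_i) < v(d_i)` if `d_i ≠ 0`. So `v(d_i) ≤ ρ v(d_(i+1)) < v(d_(i+1))` if `d_i ≠ 0`. If `d_0 ≠ 0` then all
`d_i ≠ 0` and `v(d_0) < v(d_1) < ... < v(d_N) = v(d_0)`, contradiction. -/
def S3_CIN : Prop :=
  ∀ (V : ValuationSubring ℂ) (s s' : ℕ → ℂ) (h h' : ℕ), V.valuation 3 < 1 → Rec3 s → Rec3 s' →
    0 < h → 0 < h' → (∀ i, s (i + h) = s i) → (∀ i, s' (i + h') = s' i) →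
    (∀ i, V.valuation (s i) = 1) → (∀ i, V.valuation (s' i) = 1) →
    V.valuation ((s 0 + 27) * (s 0 + 3) ^ 3 / s 0 - (s' 0 + 27) * (s' 0 + 3) ^ 3 / s' 0) < 1 →
    s 0 = s' 0

/-- (CH3) the chain of `P`-isogenies.

Uses DUA, JEQ, NRM, PAR. MODEL: `R2_CH2.lean` (2 replaced by 3). PROOF. Let `Q = cjI P`: `P Q = (3)` (`MUXF.Sx_IDL`), `P ≠ Q` (`Q = P` would give `P² = (3)`, impossible as 3 splits: some `x ∈ P`, `x ∉ (3)`, has `x² ∈ (3)`, and `B² + 4A ≡ 1` modulo 3), so `P + Q = O`. `N i` = normalised lattice of the ideal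
`Q^i b` (`LatFacts.ex`), with `om_i`, `N 0 = L`, `om_0 = om`. `P z ⊆ N i` iff `z ∈ om_i (Q^(i+1) b)/3`, iff `mu_i z ∈ N (i+1)` with `mu_i = 3 om_(i+1)/om_i`. The group `{z : P z ⊆ N i}/N i` has three elements (it is isomorphic to `c/Pc`, `c` an invertible ideal, `nI P = 3`):
`0, u_i, -u_i`, and `3 u_i ∈ N i` (`3 ∈ P`): `Three (N i) (N (i+1)) mu_i u_i`. Let `u'` be a nonzero point of `N i` killed by `Q`: `3u' ∈ N i`, `u' ∓ u_i ∉ N i` (`P + Q = O`). `mu_i u'` is killed by `Q` (`Q ⊆ O`, `mu_i N i ⊆ N (i+1)`), not zero (`ker`),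
so not killed by `P`: `mu_i u' ∓ u_(i+1) ∉ N (i+1)`. (DUA): its parameter is `729/s_i`, (JEQ) for `u_(i+1)` and `mu_i u'` is `Rec3` (divide by `729/s_i`). Let `Q^h = (x)` (`LatFacts.fin`). `N (i+h)` and `N i` belong to the ideals `x Q^i b` and
`Q^i b`: the same lattice (`LatFacts.eq`), `om_(i+h) x = ± om_i`; `u_(i+h) ≡ ± u_i`, so `par3` is the same (it depends only on the lattice and `℘(u)`). `∏_(i<h) mu_i = 3^h om_h/om_0 = ± 3^h/emb x = ± emb (star x)` (`nm x = 3^h`: norm of `Q^h`), and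
`sp (star x) = cjI (Q^h) = P^h`. Put `y = star x`. -/
def S3_CH3 : Prop :=
  ∀ (A B : ℤ), CaseP 3 A B → (3 : ℤ) ∣ B ^ 2 + 4 * A - 1 → LatFacts A B →
    ∀ (P : Ideal (OO A B)), IsPN 3 P → ∀ (b : Ideal (OO A B)) (L : PeriodPair) (om : ℂ),
    IsNL b L om →
    ∃ (h : ℕ) (y : OO A B) (N : ℕ → PeriodPair) (mu u : ℕ → ℂ), 0 < h ∧ P ^ h = sp y ∧ N 0 = L ∧
      (∀ i, ∃ (b' : Ideal (OO A B)) (om' : ℂ), IsNL b' (N i) om') ∧
      (∀ i, IsQ P (N i) (N (i + 1)) (mu i)) ∧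
      (∀ i, Three (N i) (N (i + 1)) (mu i) (u i)) ∧
      (∀ i, Tor P (N i) (u i)) ∧
      (∀ i, (N (i + h)).lattice = (N i).lattice) ∧
      Rec3 (fun i => par3 (N i) (u i)) ∧
      (∀ i, par3 (N (i + h)) (u (i + h)) = par3 (N i) (u i)) ∧
      (∏ i ∈ Finset.range h, mu i = emb y ∨ ∏ i ∈ Finset.range h, mu i = -emb y)

/-- `V` lies above 3 and above the prime ideal `P` of norm three -/
structure Above3 {A B : ℤ} (P : Ideal (OO A B)) (V : ValuationSubring ℂ) : Prop where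
  three : V.valuation 3 < 1
  lt : ∀ x ∈ P, V.valuation (emb x) < 1
  one : ∀ x ∉ P, V.valuation (emb x) = 1

/-- (GD3) GOOD ORDINARY REDUCTION AT THE PLACES ABOVE 3.

Uses CHN, CH3, NRM, PAR. MODEL: `R2_GD2.lean`. PROOF. `P` is the prime under `V`, `Q` the other prime of norm three. (CH3) for `P`, (CHN): all `v(s_i) = 1` or all `v(s_i) = θ⁶`. From (NRM), `mu_i² = (s+3) r(s)/((s+243) q(s))`: in the first case
all four factors are units (`v(486), v(19683), v(243), v(18), v(27) < 1`), `v(mu_i) = 1`; in the second `v(s+3) = θ`, `v(r(s)) = v(19683) = θ⁹` (`v(486 s) ≤ θ¹¹`, `v(s²) = θ¹²`), `v(s+243) = θ⁵`, `v(q(s)) = v(27) = θ³`, so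
`v(mu_i)² = θ²`. The product of the `mu_i` has the valuation `v(emb y) < 1` (`y ∈ P^h ⊆ P`), so it is the second case and `v(mu_i) = θ`. For `Q`: `v(emb y) = 1` (`y ∉ P`: `sp y = Q^h`, and `Q^h` is not contained in the prime
ideal `P ≠ Q`), so the first case holds. (1) `κ = s/q(s)²` with the parameter `s` of the prime `Q`, a unit, `v(q(s)) = 1`; `v(1728κ) < 1`. (2) `u` killed by `P`, not zero: `u ≡ ± u_0` (the three points killed by `P`: `Three.ker` and `IsQ`), so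
`par3 L u = s_0`; `x(u) = (s+9)/q(s)`, `v(s+9) = θ²`; `3x(u) + 1 = s(s+21)/q(s)`, `v(s+21) = v(21) ≤ θ`: valuation `≤ θ^(6+1-3)`. (3) the same for `Q`: `v(s+9) = v(q(s)) = 1`. (4) a given `mu`, `M` with `IsQ P L M mu`, `M` normalised:
`mu_0⁻¹ mu` maps `N 1` onto `M`, both normalised, `c² = 1`. The same for `Q`. -/
def S3_GD3 : Prop :=
  ∀ (A B : ℤ), CaseP 3 A B → (3 : ℤ) ∣ B ^ 2 + 4 * A - 1 → LatFacts A B →
    ∀ (P Q : Ideal (OO A B)) (V : ValuationSubring ℂ), IsPN 3 P → IsPN 3 Q → P ≠ Q → Above3 P V →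
    ∀ (b : Ideal (OO A B)) (L : PeriodPair) (om : ℂ), IsNL b L om →
    V.valuation (kap L) = 1 ∧ V.valuation (1 + 1728 * kap L) = 1 ∧
    (∀ u, u ∉ L.lattice → Tor P L u → V.valuation (par3 L u) = V.valuation 3 ^ 6 ∧
      V.valuation (xn L u) * V.valuation 3 = 1 ∧
      V.valuation (3 * xn L u + 1) ≤ V.valuation 3 ^ 4) ∧
    (∀ u, u ∉ L.lattice → Tor Q L u → V.valuation (par3 L u) = 1 ∧
      V.valuation (xn L u) = 1) ∧
    (∀ (b' : Ideal (OO A B)) (M : PeriodPair) (om' mu : ℂ), IsNL b' M om' → IsQ P L M mu →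
      V.valuation mu = V.valuation 3) ∧
    (∀ (b' : Ideal (OO A B)) (M : PeriodPair) (om' mu : ℂ), IsNL b' M om' → IsQ Q L M mu →
      V.valuation mu = 1)

/-- (IN3) different lattices have incongruent `κ` modulo `V`.

Uses CH3, GD3, CIN, PAR, `Su_DET`. MODEL: `R2_IN2.lean`. PROOF. `v(κ) = v(κ') = 1` (GD3), so `v(1/κ - 1/κ') < 1`, `1/κ = J(s) - 1728`. Take the chains (CH3) of the prime `Q` (not below `V`) for `L` and `L'`: all parameters are units
(GD3 for all `N i`). (CIN): `s_0 = s'_0`, so `κ(L) = κ(L')` (PAR), so `g₂` and `g₃` are equal and the lattices are. -/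
def S3_IN3 : Prop :=
  ∀ (A B : ℤ), CaseP 3 A B → (3 : ℤ) ∣ B ^ 2 + 4 * A - 1 → LatFacts A B →
    ∀ (P Q : Ideal (OO A B)) (V : ValuationSubring ℂ), IsPN 3 P → IsPN 3 Q → P ≠ Q → Above3 P V →
    ∀ (b b' : Ideal (OO A B)) (L L' : PeriodPair) (om om' : ℂ), IsNL b L om → IsNL b' L' om' →
    V.valuation (kap L - kap L') < 1 → L.lattice = L'.lattice

/-- (E13) the kernel of reduction and the ideals (`P` the prime under `V`).

Uses GD3, PAR, NRM, `S2_GR2`, `S2_IT2`, `VG.lean`. MODEL: `R2_E12.lean`. PROOF. (1) `j = 0`: (GD3). Induction: `u` of exact order `P^(j+1)`, `j ≥ 1`, `mu : L → M` with `IsQ P L M mu`, `M` normalised (`LatFacts.ex`), `u₀` a nonzero point killed by `P`, `Three L M mu u₀`, `s = par3 L u₀`, `v(s) = θ⁶`,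
`x₀ = x(u₀)`. (NRM) times `(x - x₀)²`: `mu² x_M(mu z)(x - x₀)² = x³ + a₂x² + a₁x + a₀`, `x = xn L z`, with (`c = (1-mu²)/12`) `a₂ = c - 2x₀ = 60s(s+27)/((s+243)q)`, `a₁ = x₀² - 2cx₀ + t = s(s³ + 153s² + 3087s - 729)/((s+243)q²)`,
`a₀ = cx₀² - tx₀ + w = 8s²(7s² + 198s - 189)/((s+243)q³)`; with `v(s) = θ⁶`, `v(s+27) = v(q) = θ³`, `v(s+243) = θ⁵`: `v(a₂) ≤ θ²`, `v(a₁) ≤ θ` (`v(..) ≤ θ⁶` for the bracket), `v(a₀) ≤ θ` (`v(7s² + 198s - 189) ≤ θ³`): all `< 1`.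
`mu u` has exact order `P^j` on `M`, so `X = x_M(mu u)` has `v(X)^(3^(j-1)) θ = 1`, `1 < v(X) ≤ θ⁻¹`. Let `a = v(x(u))`; `v(mu²) = θ²`, `v(x₀) = θ⁻¹`. If `a ≤ 1`: the left side has valuation `θ² v(X) θ⁻² = v(X) > 1`, the right side `≤ 1`: contradiction. So `a > 1` and the
right side has valuation `a³`. If `a < θ⁻¹`: `a³ = v(X)`, as claimed. If `a ≥ θ⁻¹`: `a³ ≤ θ² v(X) a²`, `a ≤ θ² v(X) ≤ θ < 1`, impossible.
(2) `u` in the kernel of reduction, killed by the ideal `m` prime to `P`. Let `N > 0` be an integer in `m`, `N = 3^i n`, `3 ∤ n`. `P Q = (3)`, `m + P^i = O`, so `n Q^i = n Q^i (m + P^i) ⊆ m + (n P^i Q^i) = m + (N) = m`. `n u` is in the kernel of reduction and killed by `Q^i`.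
If `n u ∉ L` let `j < i` be maximal with `Q^j n u` not contained in `L`; some `c ∈ Q^j` has `w' = c n u ∉ L`, killed by `Q`, and `w'` is in the kernel of reduction ((IT2) for the isogeny `mu = c : L → L`); but `v(xn L w') = 1` (GD3). Contradiction; so `n u ∈ L`, and
`u ∈ L` as `v(n) = 1` (`gmem_of_nat_mul`). -/
def S3_E13 : Prop :=
  ∀ (A B : ℤ), CaseP 3 A B → (3 : ℤ) ∣ B ^ 2 + 4 * A - 1 → LatFacts A B →
    ∀ (P Q : Ideal (OO A B)) (V : ValuationSubring ℂ), IsPN 3 P → IsPN 3 Q → P ≠ Q → Above3 P V →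
    ∀ (b : Ideal (OO A B)) (L : PeriodPair) (om : ℂ), IsNL b L om →
    (∀ (j : ℕ) (u : ℂ), Tor (P ^ (j + 1)) L u → ¬ Tor (P ^ j) L u →
      V.valuation (xn L u) ^ (3 ^ j) * V.valuation 3 = 1) ∧
    ∀ (m : Ideal (OO A B)) (u : ℂ), m ≠ ⊥ → IsCoprime m P → Tor m L u → InEn V L u → u ∈ L.lattice

/-- (MU3) multipliers of ideals prime to `P`.

Uses GD3, `S2_GR2`, `S2_IT2`. MODEL: `R2_MU2.lean` (nearly word for word). -/
def S3_MU3 : Prop :=
  ∀ (A B : ℤ), CaseP 3 A B → (3 : ℤ) ∣ B ^ 2 + 4 * A - 1 → LatFacts A B →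
    ∀ (P Q : Ideal (OO A B)) (V : ValuationSubring ℂ), IsPN 3 P → IsPN 3 Q → P ≠ Q → Above3 P V →
    ∀ (b b' a : Ideal (OO A B)) (L M : PeriodPair) (om om' mu : ℂ), IsNL b L om → IsNL b' M om' →
    a ≠ ⊥ → IsCoprime a P → IsQ a L M mu → V.valuation mu = 1

end

end Pool.Agent.MUX3


end

section

/-!
# Valuations of the coordinates of a point, and negation, in general Weierstrass form
-/

set_option autoImplicit false

namespace Pool.Agent.MUXG

open WeierstrassCurve _root_.Pool.Agent.MU3.Val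

theorem tg_VAL : S_VAL := by
  intro F _ Γ₀ _ v W hW x y h
  have e := (W.equation_iff x y).1 h.1
  have ee : y ^ 2 + (W.a₁ * x * y + W.a₃ * y) = x ^ 3 + (W.a₂ * x ^ 2 + W.a₄ * x + W.a₆) := by
    linear_combination e
  constructor
  · intro hx
    by_contra hc
    push Not at hc
    have b0 : v y < v y ^ 2 := by
      calc v y = v y ^ 1 := (pow_one _).symm
        _ < v y ^ 2 := pow_lt_pow_right₀ hc (by norm_num)
    have b1 : v (W.a₁ * x * y + W.a₃ * y) < v (y ^ 2) := by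
      rw [map_pow]
      refine lt_of_le_of_lt ?_ b0
      refine v_add_le ?_ (v_mul_le_right hW.a3 le_rfl)
      rw [mul_assoc]
      exact v_mul_le_right hW.a1 (v_mul_le_right hx le_rfl)
    have b2 : v (y ^ 2) ≤ 1 := by
      rw [← v.map_add_eq_of_lt_left b1, ee]
      have hx3 : v (x ^ 3) ≤ 1 := by rw [map_pow]; exact pow_le_one' hx 3
      have hx2 : v (x ^ 2) ≤ 1 := by rw [map_pow]; exact pow_le_one' hx 2
      exact v_add_le hx3 (v_add_le (v_add_le (v_mul_le_right hW.a2 hx2)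
        (v_mul_le_right hW.a4 hx)) hW.a6)
    rw [map_pow] at b2
    exact absurd (hc.trans b0) (not_lt.2 b2)
  · intro hx
    have hx0 : v x ≠ 0 := (zero_lt_one.trans hx).ne'
    have c1 : v x ^ 2 < v x ^ 3 := pow_lt_pow_right₀ hx (by norm_num)
    have c2 : v x ≤ v x ^ 2 := by
      calc v x = v x ^ 1 := (pow_one _).symm
        _ ≤ v x ^ 2 := pow_le_pow_right₀ hx.le (by norm_num)
    have c3 : (1 : Γ₀) ≤ v x ^ 2 := one_le_pow₀ hx.le
    have hR : v (x ^ 3 + (W.a₂ * x ^ 2 + W.a₄ * x + W.a₆)) = v x ^ 3 := by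
      have e1 : v (W.a₂ * x ^ 2 + W.a₄ * x + W.a₆) < v (x ^ 3) := by
        rw [map_pow]
        refine lt_of_le_of_lt ?_ c1
        refine v_add_le (v_add_le (v_mul_le_right hW.a2 (by rw [map_pow])) ?_) (hW.a6.trans c3)
        exact v_mul_le_right hW.a4 c2
      rw [v.map_add_eq_of_lt_left e1, map_pow]
    have hlt : v x < v y := by
      by_contra hc
      push Not at hc
      have h1 : v (y ^ 2 + (W.a₁ * x * y + W.a₃ * y)) ≤ v x ^ 2 := by
        refine v_add_le ?_ (v_add_le ?_ ?_)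
        · rw [map_pow]; exact pow_le_pow_left' hc 2
        · rw [mul_assoc]
          refine v_mul_le_right hW.a1 ?_
          rw [pow_two]
          exact v_mul_le le_rfl hc
        · exact v_mul_le_right hW.a3 (hc.trans c2)
      rw [ee, hR] at h1
      exact absurd h1 (not_le.2 c1)
    have hy1 : 1 < v y := hx.trans hlt
    have hy0 : v y ≠ 0 := (zero_lt_one.trans hy1).ne'
    have hypos : (0 : Γ₀) < v y := zero_lt_iff.2 hy0
    have hy : y ≠ 0 := fun h0 => hy0 (by rw [h0, map_zero])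
    have d0 : v y < v y ^ 2 := by
      calc v y = v y ^ 1 := (pow_one _).symm
        _ < v y ^ 2 := pow_lt_pow_right₀ hy1 (by norm_num)
    have e3 : v y ^ 2 = v x ^ 3 := by
      have b1 : v (W.a₁ * x * y + W.a₃ * y) < v (y ^ 2) := by
        rw [map_pow]
        refine lt_of_le_of_lt (b := max (v x * v y) (v y)) ?_ (max_lt ?_ d0)
        · refine v_add_le (le_trans ?_ (le_max_left _ _)) (le_trans ?_ (le_max_right _ _))
          · rw [mul_assoc]
            exact v_mul_le_right hW.a1 (v_mul_le le_rfl le_rfl)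
          · exact v_mul_le_right hW.a3 le_rfl
        · rw [pow_two]
          exact mul_lt_mul_of_pos_right hlt hypos
      rw [← hR, ← ee, v.map_add_eq_of_lt_left b1, map_pow]
    have hz : v (x / y) = v x / v y := map_div₀ v x y
    rw [Valuation.map_neg, Valuation.map_neg]
    refine ⟨hy, ?_, ?_, ?_, ?_⟩
    · rw [hz]
      exact (div_lt_one₀ hypos).2 hlt
    · rw [hz]; exact div_ne_zero hx0 hy0
    · rw [hz, map_div₀, map_one, div_pow, ← e3]
      field_simp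
    · rw [hz, div_pow, e3]
      field_simp

theorem tg_NEG : S_NEG := by
  intro F _ Γ₀ _ v W hW P hP
  cases P with
  | zero =>
    have e1 : (-(Affine.Point.zero : W.Point)) = Affine.Point.zero := rfl
    rw [e1]
    have e2 : zc (Affine.Point.zero : W.Point) = 0 := rfl
    rw [e2, map_zero]
    refine ⟨zero_lt_one, fun _ => rfl, rfl, ?_⟩
    rw [add_zero, map_zero]
    exact zero_le
  | some x y h =>
    obtain ⟨hy, hz1, hz0, hw, -⟩ := (tg_VAL F Γ₀ v W hW x y h).2 hP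
    have hne : -(Affine.Point.some x y h) = Affine.Point.some x (W.negY x y)
        ((W.nonsingular_neg x y).2 h) := Affine.Point.neg_some h
    rw [hne]
    show v (-(x / y)) < 1 ∧ (v (-(x / y)) = 0 → _) ∧ v (-(x / W.negY x y)) = v (-(x / y)) ∧
      v (-(x / W.negY x y) + -(x / y)) ≤ v (-(x / y)) ^ 2
    obtain ⟨z, hz⟩ : ∃ z : F, z = -(x / y) := ⟨_, rfl⟩
    obtain ⟨w, hw'⟩ : ∃ w : F, w = -(1 / y) := ⟨_, rfl⟩
    rw [← hz] at hz1 hz0 hw ⊢
    rw [← hw'] at hw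
    have hwz : v w ≤ v z := by
      rw [hw]
      calc v z ^ 3 ≤ v z ^ 1 := pow_le_pow_right_of_le_one' hz1.le (by norm_num)
        _ = v z := pow_one _
    have hA : v (W.a₁ * z + W.a₃ * w) ≤ v z :=
      v_add_le (v_mul_le_right hW.a1 le_rfl) (v_mul_le_right hW.a3 hwz)
    have hu : v (1 - (W.a₁ * z + W.a₃ * w)) = 1 := v.map_one_sub_of_lt (lt_of_le_of_lt hA hz1)
    have hu0 : 1 - (W.a₁ * z + W.a₃ * w) ≠ 0 := by
      intro h0
      rw [h0, map_zero] at hu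
      exact zero_ne_one hu
    have hN : W.negY x y = -y * (1 - (W.a₁ * z + W.a₃ * w)) := by
      rw [Affine.negY, hz, hw']
      field_simp
      ring
    have hzn : -(x / W.negY x y) = -z / (1 - (W.a₁ * z + W.a₃ * w)) := by
      rw [hN]
      have hxz : x = -(z * y) := by rw [hz]; field_simp
      rw [hxz]
      field_simp
    rw [hzn]
    refine ⟨hz1, fun h0 => absurd h0 hz0, ?_, ?_⟩
    · rw [map_div₀, hu, div_one, Valuation.map_neg]
    · have e1 : -z / (1 - (W.a₁ * z + W.a₃ * w)) + z =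
          -(z * (W.a₁ * z + W.a₃ * w)) / (1 - (W.a₁ * z + W.a₃ * w)) := by
        generalize W.a₁ * z + W.a₃ * w = s at hu0 ⊢
        rw [eq_div_iff hu0, add_mul, div_mul_cancel₀ _ hu0]
        ring
      rw [e1, map_div₀, hu, div_one, Valuation.map_neg, pow_two]
      exact v_mul_le le_rfl hA

end Pool.Agent.MUXG


end

section

/-!
# MUX, block VG, module ADD: the chord, for general Weierstrass curves over a field with a valuation

The proofs are those of `MU3/VCore.lean` and `MU3/VPts.lean` with the terms `a₁`, `a₃`.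
-/

set_option autoImplicit false

namespace Pool.Agent.MUXG

open WeierstrassCurve _root_.Pool.Agent.MU3.Val

namespace GAdd

section chord

variable {F : Type} [Field F] {Γ₀ : Type} [LinearOrderedCommGroupWithZero Γ₀]
  {v : Valuation F Γ₀} {a1 a2 a3 a4 a6 : F}

/-- Bounds for the line `w = -(l/n) z - 1/n` through two points near infinity. -/
theorem _root_.Pool.Agent.MUXG.GAdd.chord0 {z1 w1 z2 w2 l n : F} {r : Γ₀} (hr : r < 1)
    (h1 : v a1 ≤ 1) (h2 : v a2 ≤ 1) (h3 : v a3 ≤ 1) (h4 : v a4 ≤ 1) (h6 : v a6 ≤ 1)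
    (hz1 : v z1 ≤ r) (hz2 : v z2 ≤ r) (hw1 : v w1 ≤ r ^ 3) (hw2 : v w2 ≤ r ^ 3)
    (e1 : n * w1 + l * z1 = -1)
    (hAB : l * (1 - (a1 * z2 + a2 * z2 ^ 2 + a3 * (w1 + w2) + a4 * z1 * (w1 + w2) +
        a6 * (w1 ^ 2 + w1 * w2 + w2 ^ 2))) =
      -(n * (z1 ^ 2 + z1 * z2 + z2 ^ 2 + a1 * w1 + a2 * (z1 + z2) * w1 + a4 * w2 ^ 2))) :
    v l ≤ v n * r ^ 2 ∧ 1 ≤ v n * r ^ 3 ∧
      v (n ^ 3 - a2 * n ^ 2 * l + a4 * n * l ^ 2 - a6 * l ^ 3) = v n ^ 3 := by
  have r21 : r ^ 2 ≤ r := by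
    calc r ^ 2 ≤ r ^ 1 := pow_le_pow_right_of_le_one' hr.le (by norm_num)
      _ = r := pow_one r
  have r31 : r ^ 3 ≤ r := by
    calc r ^ 3 ≤ r ^ 1 := pow_le_pow_right_of_le_one' hr.le (by norm_num)
      _ = r := pow_one r
  have r32 : r ^ 3 ≤ r ^ 2 := pow_le_pow_right_of_le_one' hr.le (by norm_num)
  have r62 : r ^ 6 ≤ r ^ 2 := pow_le_pow_right_of_le_one' hr.le (by norm_num)
  have r42 : r ^ 4 ≤ r ^ 2 := pow_le_pow_right_of_le_one' hr.le (by norm_num)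
  have r2lt : r ^ 2 < 1 := lt_of_le_of_lt r21 hr
  have m2 : ∀ {x y : F}, v x ≤ r ^ 3 → v y ≤ r ^ 3 → v (x * y) ≤ r ^ 2 := by
    intro x y hx hy
    refine (v_mul_le hx hy).trans ?_
    rw [← pow_add]; exact r62
  have hw1' : v w1 ≤ r := hw1.trans r31
  have hw2' : v w2 ≤ r := hw2.trans r31
  have hA : v (1 - (a1 * z2 + a2 * z2 ^ 2 + a3 * (w1 + w2) + a4 * z1 * (w1 + w2) +
      a6 * (w1 ^ 2 + w1 * w2 + w2 ^ 2))) = 1 := by
    apply v.map_one_sub_of_lt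
    refine lt_of_le_of_lt ?_ hr
    refine v_add_le (v_add_le (v_add_le (v_add_le (v_mul_le_right h1 hz2)
      (v_mul_le_right h2 ((v_pow_le 2 hz2).trans r21))) (v_mul_le_right h3 (v_add_le hw1' hw2')))
      ?_) ?_
    · rw [mul_assoc]
      refine v_mul_le_right h4 (((v_mul_le hz1 (v_add_le hw1 hw2)).trans ?_).trans r21)
      rw [← pow_succ']; exact r42
    · refine v_mul_le_right h6 ((v_add_le (v_add_le ?_ (m2 hw1 hw2)) ?_).trans r21)
      · rw [pow_two]; exact m2 hw1 hw1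
      · rw [pow_two]; exact m2 hw2 hw2
  have hB : v (z1 ^ 2 + z1 * z2 + z2 ^ 2 + a1 * w1 + a2 * (z1 + z2) * w1 + a4 * w2 ^ 2) ≤
      r ^ 2 := by
    refine v_add_le (v_add_le (v_add_le (v_add_le (v_add_le (v_pow_le 2 hz1) ?_)
      (v_pow_le 2 hz2)) (v_mul_le_right h1 (hw1.trans r32))) ?_) ?_
    · rw [pow_two]; exact v_mul_le hz1 hz2
    · rw [mul_assoc]
      refine v_mul_le_right h2 ?_
      rw [pow_two]
      exact v_mul_le (v_add_le hz1 hz2) hw1'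
    · exact v_mul_le_right h4 (v_pow_le 2 hw2')
  have hl : v l ≤ v n * r ^ 2 := by
    have := congrArg v hAB
    rw [map_mul, hA, mul_one, Valuation.map_neg, map_mul] at this
    rw [this]
    exact mul_le_mul_right hB _
  have hn : 1 ≤ v n * r ^ 3 := by
    have := congrArg v e1
    rw [Valuation.map_neg, map_one] at this
    rw [← this]
    refine v_add_le ?_ ?_
    · exact v_mul_le le_rfl hw1
    · refine (v_mul_le hl hz1).trans ?_
      rw [mul_assoc, ← pow_succ]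
  have hn0 : v n ≠ 0 := by
    intro h0
    rw [h0, zero_mul] at hn
    exact absurd hn (not_le.2 zero_lt_one)
  have hnn : (0 : Γ₀) < v n := zero_lt_iff.2 hn0
  have hl1 : v l ≤ v n * 1 := hl.trans (mul_le_mul_right r2lt.le _)
  rw [mul_one] at hl1
  refine ⟨hl, hn, ?_⟩
  have e : n ^ 3 - a2 * n ^ 2 * l + a4 * n * l ^ 2 - a6 * l ^ 3 =
      n ^ 3 + (-(a2 * (n ^ 2 * l)) + a4 * (n * l ^ 2) - a6 * l ^ 3) := by ring
  have k1 : v (n ^ 2 * l) ≤ v n ^ 3 * r ^ 2 := by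
    refine (v_mul_le (v_pow_le 2 le_rfl) hl).trans (le_of_eq ?_)
    rw [← mul_assoc, ← pow_succ]
  have k2 : v (n * l ^ 2) ≤ v n ^ 3 * r ^ 2 := by
    have : v (l ^ 2) ≤ v n * (v n * r ^ 2) := by
      rw [pow_two]; exact v_mul_le hl1 hl
    refine (v_mul_le le_rfl this).trans (le_of_eq ?_)
    rw [← mul_assoc, ← mul_assoc, pow_three' (v n)]
  have k3 : v (l ^ 3) ≤ v n ^ 3 * r ^ 2 := by
    have : v (l ^ 3) ≤ v n ^ 2 * (v n * r ^ 2) := by
      rw [pow_succ]; exact v_mul_le (v_pow_le 2 hl1) hl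
    refine this.trans (le_of_eq ?_)
    rw [← mul_assoc, ← pow_succ]
  rw [e, v.map_add_eq_of_lt_left, map_pow]
  rw [map_pow]
  refine lt_of_le_of_lt (b := v n ^ 3 * r ^ 2) ?_ ?_
  · refine v_sub_le (v_add_le ?_ (v_mul_le_right h4 k2)) (v_mul_le_right h6 k3)
    rw [Valuation.map_neg]; exact v_mul_le_right h2 k1
  · exact mul_lt_of_lt_one_right (pow_pos hnn 3) r2lt

/-- The chord. -/
theorem _root_.Pool.Agent.MUXG.GAdd.chord {z1 w1 z2 w2 z3 w3 l n : F} {r : Γ₀} (hr : r < 1)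
    (h1 : v a1 ≤ 1) (h2 : v a2 ≤ 1) (h3 : v a3 ≤ 1) (h4 : v a4 ≤ 1) (h6 : v a6 ≤ 1)
    (hz1 : v z1 ≤ r) (hz2 : v z2 ≤ r) (hw1 : v w1 ≤ r ^ 3) (hw2 : v w2 ≤ r ^ 3)
    (e1 : n * w1 + l * z1 = -1) (e3 : n * w3 + l * z3 = -1)
    (hAB : l * (1 - (a1 * z2 + a2 * z2 ^ 2 + a3 * (w1 + w2) + a4 * z1 * (w1 + w2) +
        a6 * (w1 ^ 2 + w1 * w2 + w2 ^ 2))) =
      -(n * (z1 ^ 2 + z1 * z2 + z2 ^ 2 + a1 * w1 + a2 * (z1 + z2) * w1 + a4 * w2 ^ 2)))
    (hs : (z1 + z2 + z3) * (n ^ 3 - a2 * n ^ 2 * l + a4 * n * l ^ 2 - a6 * l ^ 3) =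
      a1 * (n ^ 2 * l) - a3 * (n * l ^ 2) + a2 * n ^ 2 - 2 * a4 * n * l + 3 * a6 * l ^ 2) :
    v (z1 + z2 + z3) ≤ r ^ 2 ∧ v w3 ≤ r ^ 3 ∧ v z3 ≤ r := by
  obtain ⟨hl, hn, hD⟩ := _root_.Pool.Agent.MUXG.GAdd.chord0 hr h1 h2 h3 h4 h6 hz1 hz2 hw1 hw2 e1 hAB
  have r21 : r ^ 2 ≤ r := by
    calc r ^ 2 ≤ r ^ 1 := pow_le_pow_right_of_le_one' hr.le (by norm_num)
      _ = r := pow_one r
  have r32 : r ^ 3 ≤ r ^ 2 := pow_le_pow_right_of_le_one' hr.le (by norm_num)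
  have r2le : r ^ 2 ≤ 1 := pow_le_one' hr.le 2
  have hn0 : v n ≠ 0 := by
    intro h0
    rw [h0, zero_mul] at hn
    exact absurd hn (not_le.2 zero_lt_one)
  have hnn : (0 : Γ₀) < v n := zero_lt_iff.2 hn0
  have hl1 : v l ≤ v n * 1 := hl.trans (mul_le_mul_right r2le _)
  rw [mul_one] at hl1
  have k1 : v (n ^ 2 * l) ≤ v n ^ 3 * r ^ 2 := by
    refine (v_mul_le (v_pow_le 2 le_rfl) hl).trans (le_of_eq ?_)
    rw [← mul_assoc, ← pow_succ]
  have k2 : v (n * l ^ 2) ≤ v n ^ 3 * r ^ 2 := by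
    have : v (l ^ 2) ≤ v n * (v n * r ^ 2) := by
      rw [pow_two]; exact v_mul_le hl1 hl
    refine (v_mul_le le_rfl this).trans (le_of_eq ?_)
    rw [← mul_assoc, ← mul_assoc, pow_three' (v n)]
  have k4 : v n ^ 2 ≤ v n ^ 3 * r ^ 2 := by
    calc v n ^ 2 = v n ^ 2 * 1 := (mul_one _).symm
      _ ≤ v n ^ 2 * (v n * r ^ 3) := mul_le_mul_right hn _
      _ = v n ^ 3 * r ^ 3 := by rw [← mul_assoc, ← pow_succ]
      _ ≤ v n ^ 3 * r ^ 2 := mul_le_mul_right r32 _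
  have hN : v (a1 * (n ^ 2 * l) - a3 * (n * l ^ 2) + a2 * n ^ 2 - 2 * a4 * n * l +
      3 * a6 * l ^ 2) ≤ v n ^ 3 * r ^ 2 := by
    refine v_add_le (v_sub_le (v_add_le (v_sub_le (v_mul_le_right h1 k1) (v_mul_le_right h3 k2))
      ((v_mul_le_right h2 (v_pow_le 2 le_rfl)).trans k4)) ?_) ?_
    · rw [mul_assoc, mul_assoc]
      refine (v_mul_le_right (v_two v) (v_mul_le_right h4 ?_)).trans k4
      rw [pow_two]; exact v_mul_le le_rfl hl1
    · rw [mul_assoc]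
      exact (v_mul_le_right (v_three v) (v_mul_le_right h6 (v_pow_le 2 hl1))).trans k4
  have hS : v (z1 + z2 + z3) ≤ r ^ 2 := by
    have := congrArg v hs
    rw [map_mul, hD] at this
    rw [← this, mul_comm (v n ^ 3)] at hN
    exact le_of_mul_le_mul_right hN (pow_pos hnn 3)
  have hz3 : v z3 ≤ r := by
    have e : z3 = (z1 + z2 + z3) - (z1 + z2) := by ring
    rw [e]
    exact v_sub_le (hS.trans r21) (v_add_le hz1 hz2)
  refine ⟨hS, ?_, hz3⟩
  have h8 : n * w3 = -1 - l * z3 := by linear_combination e3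
  have h9 : v n * v w3 ≤ v n * r ^ 3 := by
    rw [← map_mul, h8]
    refine v_sub_le ?_ ?_
    · rw [Valuation.map_neg, map_one]; exact hn
    · refine (v_mul_le hl hz3).trans ?_
      rw [mul_assoc, ← pow_succ]
  exact le_of_mul_le_mul_left h9 hnn

end chord

variable {F : Type} [Field F] {Γ₀ : Type} [LinearOrderedCommGroupWithZero Γ₀]
  {v : Valuation F Γ₀} {W : Affine F}

theorem eqn {x y : F} (h : W.Nonsingular x y) :
    y ^ 2 + W.a₁ * x * y + W.a₃ * y = x ^ 3 + W.a₂ * x ^ 2 + W.a₄ * x + W.a₆ :=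
  (W.equation_iff x y).1 h.1

variable [DecidableEq F]

/-- data of the sum of two points: `l`, `n` are the coefficients of the line `y = l x + n`, the
third point on it is `(x₃, y₃) = -(P + Q)` -/
theorem _root_.Pool.Agent.MUXG.GAdd.add_data {x₁ y₁ x₂ y₂ : F} (h₁ : W.Nonsingular x₁ y₁)
    (h₂ : W.Nonsingular x₂ y₂) (hy₁ : y₁ ≠ 0) (hy₂ : y₂ ≠ 0)
    (hne : Affine.Point.some x₁ y₁ h₁ + Affine.Point.some x₂ y₂ h₂ ≠ 0) :
    ∃ (x₃ y₃ l n : F) (h₃ : W.Nonsingular x₃ y₃),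
      Affine.Point.some x₁ y₁ h₁ + Affine.Point.some x₂ y₂ h₂ = -Affine.Point.some x₃ y₃ h₃ ∧
      y₁ = l * x₁ + n ∧ y₂ = l * x₂ + n ∧ y₃ = l * x₃ + n ∧
      x₁ + x₂ + x₃ = l ^ 2 + W.a₁ * l - W.a₂ ∧
      x₁ * x₂ + x₁ * x₃ + x₂ * x₃ = W.a₄ - 2 * l * n - W.a₁ * n - W.a₃ * l ∧
      x₁ * x₂ * x₃ = n ^ 2 + W.a₃ * n - W.a₆ ∧
      l * (1 - (W.a₁ * -(x₂ / y₂) + W.a₂ * (-(x₂ / y₂)) ^ 2 + W.a₃ * (-(1 / y₁) + -(1 / y₂)) +
        W.a₄ * -(x₁ / y₁) * (-(1 / y₁) + -(1 / y₂)) +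
        W.a₆ * ((-(1 / y₁)) ^ 2 + -(1 / y₁) * -(1 / y₂) + (-(1 / y₂)) ^ 2))) =
      -(n * ((-(x₁ / y₁)) ^ 2 + -(x₁ / y₁) * -(x₂ / y₂) + (-(x₂ / y₂)) ^ 2 +
        W.a₁ * -(1 / y₁) + W.a₂ * (-(x₁ / y₁) + -(x₂ / y₂)) * -(1 / y₁) +
        W.a₄ * (-(1 / y₂)) ^ 2)) := by
  have e₁ := eqn h₁
  have e₂ := eqn h₂
  have hxy : ¬(x₁ = x₂ ∧ y₁ = W.negY x₂ y₂) := by
    rintro ⟨ha, hb⟩
    exact hne (Affine.Point.add_of_Y_eq ha hb)
  have hadd := Affine.Point.add_some hxy (h₁ := h₁) (h₂ := h₂)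
  set l := W.slope x₁ x₂ y₁ y₂ with hl
  have h₃ := Affine.nonsingular_add h₁ h₂ hxy
  rw [← hl] at h₃
  have hx₃ : W.addX x₁ x₂ l = l ^ 2 + W.a₁ * l - W.a₂ - x₁ - x₂ := rfl
  have hns : W.Nonsingular (W.addX x₁ x₂ l) (W.negAddY x₁ x₂ y₁ l) := by
    have := (W.nonsingular_neg (W.addX x₁ x₂ l) (W.negAddY x₁ x₂ y₁ l)).1 h₃
    exact this
  have hy : y₂ = l * x₂ + (y₁ - l * x₁) := by
    by_cases hx : x₁ = x₂
    · have hy : y₁ = y₂ := Affine.Y_eq_of_Y_ne h₁.1 h₂.1 hx (fun h => hxy ⟨hx, h⟩)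
      rw [hx, hy]; ring
    · rw [hl, Affine.slope_of_X_ne hx]
      have : x₁ - x₂ ≠ 0 := sub_ne_zero.2 hx
      field_simp
      ring
  have hK : l * (y₁ + y₂ + W.a₁ * x₂ + W.a₃) =
      x₁ ^ 2 + x₁ * x₂ + x₂ ^ 2 + W.a₂ * (x₁ + x₂) + W.a₄ - W.a₁ * y₁ := by
    by_cases hx : x₁ = x₂
    · have hyy : y₁ = y₂ := Affine.Y_eq_of_Y_ne h₁.1 h₂.1 hx (fun h => hxy ⟨hx, h⟩)
      have hne' : y₁ ≠ W.negY x₂ y₂ := fun h => hxy ⟨hx, h⟩
      rw [hl, Affine.slope_of_Y_ne hx hne']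
      rw [← hx, ← hyy] at hne' ⊢
      have h2y : y₁ - W.negY x₁ y₁ ≠ 0 := sub_ne_zero.2 hne'
      rw [div_mul_eq_mul_div, div_eq_iff h2y, Affine.negY]
      ring
    · have hx' : x₁ - x₂ ≠ 0 := sub_ne_zero.2 hx
      apply mul_left_cancel₀ hx'
      have : y₁ - y₂ = l * (x₁ - x₂) := by rw [hy]; ring
      linear_combination (-(y₁ + y₂ + W.a₁ * x₂ + W.a₃)) * this + e₁ - e₂
  refine ⟨W.addX x₁ x₂ l, W.negAddY x₁ x₂ y₁ l, l, y₁ - l * x₁, hns, ?_, by ring, hy, ?_, ?_, ?_,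
    ?_, ?_⟩
  · rw [hadd, Affine.Point.neg_some]
    rfl
  · rw [Affine.negAddY]; ring
  · rw [hx₃]; ring
  · rw [hx₃]
    rw [hy] at hK
    linear_combination hK
  · rw [hx₃]
    rw [hy] at hK
    linear_combination x₁ * hK - e₁
  · have hT : l * (y₁ ^ 2 * y₂ ^ 2 + W.a₁ * x₂ * y₂ * y₁ ^ 2 - W.a₂ * x₂ ^ 2 * y₁ ^ 2 +
        W.a₃ * y₁ * y₂ * (y₁ + y₂) - W.a₄ * x₁ * y₂ * (y₁ + y₂) -
        W.a₆ * (y₁ ^ 2 + y₁ * y₂ + y₂ ^ 2)) + (y₁ - l * x₁) * (x₁ ^ 2 * y₂ ^ 2 +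
        x₁ * x₂ * y₁ * y₂ + x₂ ^ 2 * y₁ ^ 2 - W.a₁ * y₁ * y₂ ^ 2 +
        W.a₂ * (x₁ * y₂ + x₂ * y₁) * y₂ + W.a₄ * y₁ ^ 2) = 0 := by
      rw [hy] at hK ⊢
      linear_combination (-(y₁ ^ 3)) * hK + l * (y₁ ^ 2 + y₁ * (l * x₂ + (y₁ - l * x₁)) +
        (l * x₂ + (y₁ - l * x₁)) ^ 2) * e₁
    have hq : l * (1 - (W.a₁ * -(x₂ / y₂) + W.a₂ * (-(x₂ / y₂)) ^ 2 +
        W.a₃ * (-(1 / y₁) + -(1 / y₂)) + W.a₄ * -(x₁ / y₁) * (-(1 / y₁) + -(1 / y₂)) +
        W.a₆ * ((-(1 / y₁)) ^ 2 + -(1 / y₁) * -(1 / y₂) + (-(1 / y₂)) ^ 2))) +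
      (y₁ - l * x₁) * ((-(x₁ / y₁)) ^ 2 + -(x₁ / y₁) * -(x₂ / y₂) + (-(x₂ / y₂)) ^ 2 +
        W.a₁ * -(1 / y₁) + W.a₂ * (-(x₁ / y₁) + -(x₂ / y₂)) * -(1 / y₁) +
        W.a₄ * (-(1 / y₂)) ^ 2) =
      (l * (y₁ ^ 2 * y₂ ^ 2 + W.a₁ * x₂ * y₂ * y₁ ^ 2 - W.a₂ * x₂ ^ 2 * y₁ ^ 2 +
        W.a₃ * y₁ * y₂ * (y₁ + y₂) - W.a₄ * x₁ * y₂ * (y₁ + y₂) -
        W.a₆ * (y₁ ^ 2 + y₁ * y₂ + y₂ ^ 2)) + (y₁ - l * x₁) * (x₁ ^ 2 * y₂ ^ 2 +
        x₁ * x₂ * y₁ * y₂ + x₂ ^ 2 * y₁ ^ 2 - W.a₁ * y₁ * y₂ ^ 2 +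
        W.a₂ * (x₁ * y₂ + x₂ * y₁) * y₂ + W.a₄ * y₁ ^ 2)) / (y₁ ^ 2 * y₂ ^ 2) := by
      field_simp
      ring
    rw [hT, zero_div] at hq
    linear_combination hq

end GAdd

open _root_.Pool.Agent.MUXG.GAdd in
theorem tg_ADD (hVAL : S_VAL) (hNEG : S_NEG) : S_ADD := by
  intro F _ _ Γ₀ _ v W hW P Q hP hQ
  by_cases hPQ : P + Q = 0
  · have hQ' : Q = -P := (neg_eq_of_add_eq_zero_right hPQ).symm
    obtain ⟨-, -, -, hN⟩ := hNEG F Γ₀ v W hW P hP
    rw [hPQ, hQ', zc_zero]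
    refine ⟨trivial, ?_⟩
    have : (0 : F) - zc P - zc (-P) = -(zc (-P) + zc P) := by ring
    rw [this, Valuation.map_neg]
    exact hN.trans (pow_le_pow_left' (le_max_left _ _) 2)
  cases P with
  | zero =>
    have e : (Affine.Point.zero : W.Point) + Q = Q := zero_add Q
    rw [e]
    refine ⟨hQ, ?_⟩
    have : zc Q - zc (Affine.Point.zero : W.Point) - zc Q = 0 := by
      rw [show zc (Affine.Point.zero : W.Point) = 0 from rfl]; ring
    rw [this, map_zero]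
    exact zero_le
  | some x₁ y₁ h₁ =>
    cases Q with
    | zero =>
      have e : Affine.Point.some x₁ y₁ h₁ + (Affine.Point.zero : W.Point) =
        Affine.Point.some x₁ y₁ h₁ := add_zero _
      rw [e]
      refine ⟨hP, ?_⟩
      have : zc (Affine.Point.some x₁ y₁ h₁) - zc (Affine.Point.some x₁ y₁ h₁) -
          zc (Affine.Point.zero : W.Point) = 0 := by
        rw [show zc (Affine.Point.zero : W.Point) = 0 from rfl]; ring
      rw [this, map_zero]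
      exact zero_le
    | some x₂ y₂ h₂ =>
      obtain ⟨hy₁, hz₁, hz₁0, hw₁, -⟩ := (hVAL F Γ₀ v W hW x₁ y₁ h₁).2 hP
      obtain ⟨hy₂, hz₂, hz₂0, hw₂, -⟩ := (hVAL F Γ₀ v W hW x₂ y₂ h₂).2 hQ
      obtain ⟨x₃, y₃, l, n, h₃, hadd, en₁, en₂, en₃, c2, c1, c0, hAB⟩ :=
        _root_.Pool.Agent.MUXG.GAdd.add_data h₁ h₂ hy₁ hy₂ hPQ
      set r := max (v (-(x₁ / y₁))) (v (-(x₂ / y₂))) with hr
      have hr1 : r < 1 := max_lt hz₁ hz₂
      have hz₁r : v (-(x₁ / y₁)) ≤ r := le_max_left _ _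
      have hz₂r : v (-(x₂ / y₂)) ≤ r := le_max_right _ _
      have hw₁r : v (-(1 / y₁)) ≤ r ^ 3 := by rw [hw₁]; exact pow_le_pow_left' hz₁r 3
      have hw₂r : v (-(1 / y₂)) ≤ r ^ 3 := by rw [hw₂]; exact pow_le_pow_left' hz₂r 3
      have e1 : n * -(1 / y₁) + l * -(x₁ / y₁) = -1 := by
        field_simp
        linear_combination en₁
      obtain ⟨-, hn, hD⟩ := _root_.Pool.Agent.MUXG.GAdd.chord0 hr1 hW.a1 hW.a2 hW.a3 hW.a4 hW.a6 hz₁r hz₂r hw₁r hw₂r e1 hAB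
      have hn0 : v n ≠ 0 := by
        intro h0
        rw [h0, zero_mul] at hn
        exact absurd hn (not_le.2 zero_lt_one)
      have hDe : y₁ * y₂ * y₃ = n ^ 3 - W.a₂ * n ^ 2 * l + W.a₄ * n * l ^ 2 - W.a₆ * l ^ 3 := by
        rw [en₁, en₂, en₃]
        linear_combination l ^ 3 * c0 + l ^ 2 * n * c1 + l * n ^ 2 * c2
      have hy₃ : y₃ ≠ 0 := by
        intro h0
        rw [← hDe, h0, mul_zero, map_zero] at hD
        exact pow_ne_zero 3 hn0 hD.symm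
      have e3 : n * -(1 / y₃) + l * -(x₃ / y₃) = -1 := by
        field_simp
        linear_combination en₃
      have hs : (-(x₁ / y₁) + -(x₂ / y₂) + -(x₃ / y₃)) *
          (n ^ 3 - W.a₂ * n ^ 2 * l + W.a₄ * n * l ^ 2 - W.a₆ * l ^ 3) =
          W.a₁ * (n ^ 2 * l) - W.a₃ * (n * l ^ 2) + W.a₂ * n ^ 2 - 2 * W.a₄ * n * l +
            3 * W.a₆ * l ^ 2 := by
        rw [← hDe]
        have : (-(x₁ / y₁) + -(x₂ / y₂) + -(x₃ / y₃)) * (y₁ * y₂ * y₃) =
            -(x₁ * y₂ * y₃ + y₁ * x₂ * y₃ + y₁ * y₂ * x₃) := by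
          field_simp
          ring
        rw [this, en₁, en₂, en₃]
        linear_combination (-3 * l ^ 2) * c0 - 2 * l * n * c1 - n ^ 2 * c2
      obtain ⟨hS, hw₃, hz₃⟩ := _root_.Pool.Agent.MUXG.GAdd.chord hr1 hW.a1 hW.a2 hW.a3 hW.a4 hW.a6 hz₁r hz₂r hw₁r hw₂r
        e1 e3 hAB hs
      have hE₃ : InE v (Affine.Point.some x₃ y₃ h₃) := by
        show 1 < v x₃
        by_contra hc
        push Not at hc
        have hy3v : v y₃ ≤ 1 := (hVAL F Γ₀ v W hW x₃ y₃ h₃).1 hc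
        have h6 : v (-(1 / y₃)) * v y₃ = 1 := by
          rw [← map_mul]
          have : -(1 / y₃) * y₃ = -1 := by field_simp
          rw [this, Valuation.map_neg, map_one]
        have h7 : v (-(1 / y₃)) * v y₃ ≤ r ^ 3 * 1 := mul_le_mul' hw₃ hy3v
        rw [h6, mul_one] at h7
        have h8 : r ^ 3 < 1 := pow_lt_one₀ zero_le hr1 (by norm_num)
        exact absurd h7 (not_le.2 h8)
      obtain ⟨-, -, -, hN⟩ := hNEG F Γ₀ v W hW _ hE₃
      rw [hadd]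
      refine ⟨inE_neg hE₃, ?_⟩
      have e4 : zc (-Affine.Point.some x₃ y₃ h₃) - zc (Affine.Point.some x₁ y₁ h₁) -
          zc (Affine.Point.some x₂ y₂ h₂) =
          (zc (-Affine.Point.some x₃ y₃ h₃) + zc (Affine.Point.some x₃ y₃ h₃)) -
          (-(x₁ / y₁) + -(x₂ / y₂) + -(x₃ / y₃)) := by
        rw [show zc (Affine.Point.some x₁ y₁ h₁) = -(x₁ / y₁) from rfl,
          show zc (Affine.Point.some x₂ y₂ h₂) = -(x₂ / y₂) from rfl,
          show zc (Affine.Point.some x₃ y₃ h₃) = -(x₃ / y₃) from rfl]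
        ring
      rw [e4]
      exact v_sub_le (hN.trans (pow_le_pow_left' hz₃ 2)) hS

end Pool.Agent.MUXG


end

section

/-!
# MUX, block R3, module GD3: good ordinary reduction at the places above 3

Adapted from `R2_GD2.lean` (helper4).
-/

set_option autoImplicit false

namespace Pool.Agent.MUX3

open _root_.MU3 _root_.Pool.Agent.MU3A _root_.Pool.Agent.MU3B _root_.Pool.Agent.MUX _root_.Pool.Agent.MUXU _root_.Pool.Agent.MUX2
open WeierstrassCurve

noncomputable section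

namespace GD3

/-- squares in the value group -/
lemma sq_inj {Γ : Type*} [LinearOrderedCommGroupWithZero Γ] {a b : Γ} (h : a ^ 2 = b ^ 2) :
    a = b :=
  (pow_left_inj₀ zero_le' zero_le' two_ne_zero).1 h

section val

variable {V : ValuationSubring ℂ}

lemma th_ne : V.valuation 3 ≠ 0 := (Valuation.ne_zero_iff _).2 three_ne_zero

lemma th_pos : 0 < V.valuation 3 := zero_lt_iff.2 th_ne

lemma th_lt (h3 : V.valuation 3 < 1) {m n : ℕ} (h : m < n) :
    V.valuation 3 ^ n < V.valuation 3 ^ m :=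
  pow_lt_pow_right_of_lt_one₀ th_pos h3 h

lemma th_lt1 (h3 : V.valuation 3 < 1) {n : ℕ} (h : 0 < n) : V.valuation 3 ^ n < 1 := by
  have := th_lt h3 h
  rwa [pow_zero] at this

lemma v_nat (n : ℕ) : V.valuation (n : ℂ) ≤ 1 :=
  (V.valuation_le_one_iff _).2 (natCast_mem V n)

/-- `v(3^k n) ≤ v(3)^k` -/
lemma v_mul_le (k n : ℕ) : V.valuation (3 ^ k * (n : ℂ)) ≤ V.valuation 3 ^ k := by
  rw [map_mul, map_pow]
  calc V.valuation 3 ^ k * V.valuation (n : ℂ) ≤ V.valuation 3 ^ k * 1 := by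
        gcongr
        exact v_nat n
    _ = V.valuation 3 ^ k := mul_one _

lemma v9 : V.valuation 9 = V.valuation 3 ^ 2 := by
  rw [← map_pow]; norm_num

lemma v27 : V.valuation 27 = V.valuation 3 ^ 3 := by
  rw [← map_pow]; norm_num

lemma v243 : V.valuation 243 = V.valuation 3 ^ 5 := by
  rw [← map_pow]; norm_num

lemma v19683 : V.valuation 19683 = V.valuation 3 ^ 9 := by
  rw [← map_pow]; norm_num

lemma v18 : V.valuation 18 ≤ V.valuation 3 ^ 2 := by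
  have := v_mul_le (V := V) 2 2
  rwa [show (3 : ℂ) ^ 2 * ((2 : ℕ) : ℂ) = 18 by norm_num] at this

lemma v486 : V.valuation 486 ≤ V.valuation 3 ^ 5 := by
  have := v_mul_le (V := V) 5 2
  rwa [show (3 : ℂ) ^ 5 * ((2 : ℕ) : ℂ) = 486 by norm_num] at this

lemma v21 : V.valuation 21 ≤ V.valuation 3 := by
  have := v_mul_le (V := V) 1 7
  rwa [show (3 : ℂ) ^ 1 * ((7 : ℕ) : ℂ) = 21 by norm_num, pow_one] at this

/-- the parameter is a unit -/
lemma unit_case (h3 : V.valuation 3 < 1) {s mu : ℂ} (hs : V.valuation s = 1)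
    (hmu : mu ^ 2 = (s + 3) * r3 s / ((s + 243) * q3 s)) :
    V.valuation mu = 1 ∧ V.valuation (q3 s) = 1 ∧ V.valuation (s + 9) = 1 := by
  have e1 : V.valuation (s + 3) = 1 := by
    rw [Valuation.map_add_eq_of_lt_left _ (by rw [hs]; exact h3), hs]
  have e2 : V.valuation (r3 s) = 1 := by
    have f1 : V.valuation (486 * s + 19683) < 1 := by
      refine Valuation.map_add_lt _ ?_ ?_
      · rw [map_mul, hs, mul_one]
        exact lt_of_le_of_lt v486 (th_lt1 h3 (by norm_num))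
      · rw [v19683]
        exact th_lt1 h3 (by norm_num)
    have f2 : V.valuation (s ^ 2) = 1 := by rw [map_pow, hs, one_pow]
    have f3 : r3 s = s ^ 2 - (486 * s + 19683) := by unfold r3; ring
    rw [f3, Valuation.map_sub_eq_of_lt_left _ (by rw [f2]; exact f1), f2]
  have e3 : V.valuation (s + 243) = 1 := by
    rw [Valuation.map_add_eq_of_lt_left _ (by rw [hs, v243]; exact th_lt1 h3 (by norm_num)), hs]
  have e4 : V.valuation (q3 s) = 1 := by
    have f1 : V.valuation (27 - 18 * s) < 1 := by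
      refine Valuation.map_sub_lt _ ?_ ?_
      · rw [v27]
        exact th_lt1 h3 (by norm_num)
      · rw [map_mul, hs, mul_one]
        exact lt_of_le_of_lt v18 (th_lt1 h3 (by norm_num))
    have f2 : V.valuation (s ^ 2) = 1 := by rw [map_pow, hs, one_pow]
    have f3 : q3 s = s ^ 2 - (27 - 18 * s) := by unfold q3; ring
    rw [f3, Valuation.map_sub_eq_of_lt_left _ (by rw [f2]; exact f1), f2]
  have e5 : V.valuation (s + 9) = 1 := by
    rw [Valuation.map_add_eq_of_lt_left _ (by rw [hs, v9]; exact th_lt1 h3 (by norm_num)), hs]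
  refine ⟨sq_inj ?_, e4, e5⟩
  rw [← map_pow, hmu, map_div₀, map_mul, map_mul, e1, e2, e3, e4]
  simp

/-- the parameter is small -/
lemma small_case (h3 : V.valuation 3 < 1) {s mu : ℂ} (hs : V.valuation s = V.valuation 3 ^ 6)
    (hmu : mu ^ 2 = (s + 3) * r3 s / ((s + 243) * q3 s)) :
    V.valuation mu = V.valuation 3 ∧ V.valuation (q3 s) = V.valuation 3 ^ 3 ∧
      V.valuation (s + 9) = V.valuation 3 ^ 2 ∧ V.valuation (s + 21) ≤ V.valuation 3 := by
  have e1 : V.valuation (s + 3) = V.valuation 3 := by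
    rw [Valuation.map_add_eq_of_lt_right _]
    rw [hs]
    have := th_lt h3 (show 1 < 6 by norm_num)
    rwa [pow_one] at this
  have e2 : V.valuation (r3 s) = V.valuation 3 ^ 9 := by
    have f1 : V.valuation (s ^ 2 - 486 * s) < V.valuation 19683 := by
      rw [v19683]
      refine Valuation.map_sub_lt _ ?_ ?_
      · rw [map_pow, hs, ← pow_mul]
        exact th_lt h3 (by norm_num)
      · rw [map_mul, hs]
        calc V.valuation 486 * V.valuation 3 ^ 6 ≤ V.valuation 3 ^ 5 * V.valuation 3 ^ 6 := by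
              gcongr
              exact v486
          _ = V.valuation 3 ^ 11 := by rw [← pow_add]
          _ < V.valuation 3 ^ 9 := th_lt h3 (by norm_num)
    unfold r3
    rw [Valuation.map_sub_eq_of_lt_right _ f1, v19683]
  have e3 : V.valuation (s + 243) = V.valuation 3 ^ 5 := by
    rw [Valuation.map_add_eq_of_lt_right _ (by rw [hs, v243]; exact th_lt h3 (by norm_num)), v243]
  have e4 : V.valuation (q3 s) = V.valuation 3 ^ 3 := by
    have f1 : V.valuation (s ^ 2 + 18 * s) < V.valuation 27 := by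
      rw [v27]
      refine Valuation.map_add_lt _ ?_ ?_
      · rw [map_pow, hs, ← pow_mul]
        exact th_lt h3 (by norm_num)
      · rw [map_mul, hs]
        calc V.valuation 18 * V.valuation 3 ^ 6 ≤ V.valuation 3 ^ 2 * V.valuation 3 ^ 6 := by
              gcongr
              exact v18
          _ = V.valuation 3 ^ 8 := by rw [← pow_add]
          _ < V.valuation 3 ^ 3 := th_lt h3 (by norm_num)
    unfold q3
    rw [Valuation.map_sub_eq_of_lt_right _ f1, v27]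
  have e5 : V.valuation (s + 9) = V.valuation 3 ^ 2 := by
    rw [Valuation.map_add_eq_of_lt_right _ (by rw [hs, v9]; exact th_lt h3 (by norm_num)), v9]
  have e6 : V.valuation (s + 21) ≤ V.valuation 3 := by
    refine Valuation.map_add_le _ ?_ v21
    rw [hs]
    have := th_lt h3 (show 1 < 6 by norm_num)
    rw [pow_one] at this
    exact this.le
  refine ⟨sq_inj ?_, e4, e5, e6⟩
  rw [← map_pow, hmu, map_div₀, map_mul, map_mul, e1, e2, e3, e4, ← pow_succ', ← pow_add,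
    div_eq_iff (pow_ne_zero _ th_ne), ← pow_add]

end val

section ideals

variable {A B : ℤ}

/-- two primes of norm three -/
lemma eq_of_le {P Q : Ideal (OO A B)} (hP : IsPN 3 P) (hQ : IsPN 3 Q) (h : Q ≤ P) : P = Q := by
  have hc : Nat.card (OO A B ⧸ Q) = 3 := hQ.norm
  have hf : Finite (OO A B ⧸ Q) := Nat.finite_of_card_ne_zero (by rw [hc]; norm_num)
  have hp := hQ.prime
  have h1 : IsField (OO A B ⧸ Q) := Finite.isField_of_domain (OO A B ⧸ Q)
  have h2 : Q.IsMaximal := Ideal.Quotient.maximal_of_isField Q h1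
  exact (h2.eq_of_le hP.prime.ne_top h).symm

end ideals

/-- the data of one chain -/
structure Chain {A B : ℤ} (R : Ideal (OO A B)) (L : PeriodPair) (h : ℕ) (y : OO A B)
    (N : ℕ → PeriodPair) (mu w : ℕ → ℂ) : Prop where
  hpos : 0 < h
  pow : R ^ h = sp y
  zero : N 0 = L
  nl : ∀ i, (N i).g₂ = -18 * (N i).g₃
  isq : ∀ i, IsQ R (N i) (N (i + 1)) (mu i)
  three : ∀ i, Three (N i) (N (i + 1)) (mu i) (w i)
  rec_ : Rec3 (fun i => par3 (N i) (w i))
  per : ∀ i, par3 (N (i + h)) (w (i + h)) = par3 (N i) (w i)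
  prod : ∏ i ∈ Finset.range h, mu i = emb y ∨ ∏ i ∈ Finset.range h, mu i = -emb y

lemma Chain.val {A B : ℤ} {R : Ideal (OO A B)} {L : PeriodPair} {h : ℕ} {y : OO A B}
    {N : ℕ → PeriodPair} {mu w : ℕ → ℂ} (H : Chain R L h y N mu w) (V : ValuationSubring ℂ) :
    ∏ i ∈ Finset.range h, V.valuation (mu i) = V.valuation (emb y) := by
  rw [← map_prod]
  rcases H.prod with h1 | h1
  · rw [h1]
  · rw [h1, Valuation.map_neg]

/-- a quotient by a torsion point in `Three` form -/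
lemma three_of_isQ {A B : ℤ} {R : Ideal (OO A B)} {L N M : PeriodPair} {mu mu' w : ℂ}
    (h1 : IsQ R L N mu) (h2 : Three L N mu w) (h3 : IsQ R L M mu') : Three L M mu' w where
  mu_ne := h3.1
  u_ne := h2.u_ne
  u3 := h2.u3
  ker := fun z => by rw [h3.2 z, ← h1.2 z, h2.ker z]

/-- points killed by `R` -/
lemma tor_par {A B : ℤ} {R : Ideal (OO A B)} {L N : PeriodPair} {mu w u : ℂ}
    (h1 : IsQ R L N mu) (h2 : Three L N mu w) (hu : u ∉ L.lattice) (ht : Tor R L u) :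
    xn L u = xn L w := by
  have h3 : mu * u ∈ N.lattice := (h1.2 u).2 ht
  rcases (h2.ker u).1 h3 with h4 | h4 | h4
  · exact absurd h4 hu
  · have h5 : L.weierstrassP u = L.weierstrassP w := by
      have := L.weierstrassP_add_coe w ⟨u - w, h4⟩
      rw [← this]
      congr 1
      simp
    unfold xn
    rw [h5]
  · have h5 : L.weierstrassP u = L.weierstrassP w := by
      have := L.weierstrassP_add_coe (-w) ⟨u + w, h4⟩
      rw [PeriodPair.weierstrassP_neg] at this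
      rw [← this]
      congr 1
      simp
    unfold xn
    rw [h5]

end GD3

open _root_.Pool.Agent.MUX3.GD3 in
theorem t3_GD3 (h1 : S3_CHN) (h2 : S3_CH3) (h3 : S3_NRM) (h4 : S3_PAR) : S3_GD3 := by
  intro A B hC h8 LF P Q V hP hQ hPQ hV b L om hL
  have hth := hV.three
  -- the chains
  have key : ∀ R : Ideal (OO A B), IsPN 3 R → ∃ (h : ℕ) (y : OO A B) (N : ℕ → PeriodPair)
      (mu w : ℕ → ℂ), Chain R L h y N mu w := by
    intro R hR
    obtain ⟨h, y, N, mu, w, c1, c2, c3, c4, c5, c6, -, -, c9, c10, c11⟩ :=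
      h2 A B hC h8 LF R hR b L om hL
    refine ⟨h, y, N, mu, w, c1, c2, c3, fun i => ?_, c5, c6, c9, c10, c11⟩
    obtain ⟨b', om', hb⟩ := c4 i
    exact hb.nrm
  -- the formula for the multipliers
  have hmuf : ∀ (R : Ideal (OO A B)) (h : ℕ) (y : OO A B) (N : ℕ → PeriodPair) (mu w : ℕ → ℂ),
      Chain R L h y N mu w → ∀ i, mu i ^ 2 = (par3 (N i) (w i) + 3) * r3 (par3 (N i) (w i)) /
        ((par3 (N i) (w i) + 243) * q3 (par3 (N i) (w i))) := by
    intro R h y N mu w H i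
    exact (h3 _ _ _ _ (H.three i) (H.nl i) (H.nl (i + 1))).2.2.2.1
  -- the prime P
  have hPc : ∀ (h : ℕ) (y : OO A B) (N : ℕ → PeriodPair) (mu w : ℕ → ℂ),
      Chain P L h y N mu w → ∀ i, V.valuation (par3 (N i) (w i)) = V.valuation 3 ^ 6 := by
    intro h y N mu w H
    rcases h1 V _ h hth H.rec_ H.hpos H.per with h5 | h5
    · exfalso
      have h6 : ∏ i ∈ Finset.range h, V.valuation (mu i) = 1 :=
        Finset.prod_eq_one fun i _ => (unit_case hth (h5 i) (hmuf P h y N mu w H i)).1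
      rw [H.val V] at h6
      have h7 : y ∈ P := by
        have h8 : y ∈ P ^ h := by
          rw [H.pow]
          exact Ideal.mem_span_singleton_self y
        exact Ideal.pow_le_self H.hpos.ne' h8
      exact (hV.lt y h7).ne h6
    · exact h5
  have hQc : ∀ (h : ℕ) (y : OO A B) (N : ℕ → PeriodPair) (mu w : ℕ → ℂ),
      Chain Q L h y N mu w → ∀ i, V.valuation (par3 (N i) (w i)) = 1 := by
    intro h y N mu w H
    rcases h1 V _ h hth H.rec_ H.hpos H.per with h5 | h5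
    · exact h5
    · exfalso
      have h6 : ∏ i ∈ Finset.range h, V.valuation (mu i) = V.valuation 3 ^ h := by
        rw [Finset.prod_congr rfl fun i _ => (small_case hth (h5 i) (hmuf Q h y N mu w H i)).1,
          Finset.prod_const, Finset.card_range]
      rw [H.val V] at h6
      have h7 : y ∉ P := by
        intro hy
        have h8 : Q ^ h ≤ P := by
          rw [H.pow, Ideal.span_singleton_le_iff_mem]
          exact hy
        exact hPQ (eq_of_le hP hQ (hP.prime.le_of_pow_le h8))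
      rw [hV.one y h7] at h6
      exact (th_lt1 hth H.hpos).ne h6.symm
  obtain ⟨hp, yp, Np, mup, wp, HP⟩ := key P hP
  obtain ⟨hq, yq, Nq, muq, wq, HQ⟩ := key Q hQ
  have sP := hPc _ _ _ _ _ HP 0
  have sQ := hQc _ _ _ _ _ HQ 0
  have nL : L.g₂ = -18 * L.g₃ := hL.nrm
  have qP := HP.isq 0
  have qQ := HQ.isq 0
  have tP := HP.three 0
  have tQ := HQ.three 0
  have mP := hmuf _ _ _ _ _ _ HP 0
  have mQ := hmuf _ _ _ _ _ _ HQ 0
  rw [HP.zero] at sP qP tP mP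
  rw [HQ.zero] at sQ qQ tQ mQ
  have NP := h4 L (wp 0) tP.u_ne tP.u3 nL
  have NQ := h4 L (wq 0) tQ.u_ne tQ.u3 nL
  have uQ := unit_case hth sQ mQ
  have uP := small_case hth sP mP
  have hk : V.valuation (kap L) = 1 := by
    rw [NQ.2.2.2.2.2.2, map_div₀, map_pow, sQ, uQ.2.1]
    simp
  refine ⟨hk, ?_, fun u hu ht => ?_, fun u hu ht => ?_, fun b' M om' mu hM hq => ?_,
    fun b' M om' mu hM hq => ?_⟩
  · have e1 : V.valuation (1728 * kap L) < 1 := by
      rw [map_mul, hk, mul_one, show (1728 : ℂ) = 3 ^ 3 * ((64 : ℕ) : ℂ) by norm_num]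
      exact lt_of_le_of_lt (v_mul_le 3 64) (th_lt1 hth (by norm_num))
    rw [Valuation.map_add_eq_of_lt_left _ (by rwa [map_one]), map_one]
  · have e0 := tor_par qP tP hu ht
    have e1 : par3 L u = par3 L (wp 0) := by
      unfold par3
      rw [e0]
    have e2 : V.valuation (3 * xn L (wp 0) + 1) ≤ V.valuation 3 ^ 4 := by
      have e3 : 3 * xn L (wp 0) + 1 =
          par3 L (wp 0) * (par3 L (wp 0) + 21) / q3 (par3 L (wp 0)) := by
        have e4 := NP.2.1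
        rw [NP.2.2.2.2.2.1]
        field_simp
        unfold q3
        ring
      rw [e3, map_div₀, map_mul, sP, uP.2.1, div_le_iff₀ (pow_pos th_pos _), ← pow_add]
      calc V.valuation 3 ^ 6 * V.valuation (par3 L (wp 0) + 21) ≤
            V.valuation 3 ^ 6 * V.valuation 3 := by
              gcongr
              exact uP.2.2.2
        _ = V.valuation 3 ^ 7 := by rw [← pow_succ]
    rw [e1, e0]
    refine ⟨sP, ?_, e2⟩
    rw [NP.2.2.2.2.2.1, map_div₀, uP.2.1, uP.2.2.1, div_mul_eq_mul_div, ← pow_succ,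
      div_self (pow_ne_zero _ th_ne)]
  · have e0 := tor_par qQ tQ hu ht
    have e1 : par3 L u = par3 L (wq 0) := by
      unfold par3
      rw [e0]
    rw [e1, e0]
    refine ⟨sQ, ?_⟩
    rw [NQ.2.2.2.2.2.1, map_div₀, uQ.2.1, uQ.2.2, div_one]
  · have e1 := three_of_isQ qP tP hq
    exact (small_case hth sP (h3 _ _ _ _ e1 nL hM.nrm).2.2.2.1).1
  · have e1 := three_of_isQ qQ tQ hq
    exact (unit_case hth sQ (h3 _ _ _ _ e1 nL hM.nrm).2.2.2.1).1

end

end Pool.Agent.MUX3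


end

section

/-!
# MUX, block R2, module GD2 (helper4): good ordinary reduction at the places above 2
-/

set_option autoImplicit false

namespace Pool.Agent.MUX2

open _root_.MU3 _root_.Pool.Agent.MU3A _root_.Pool.Agent.MU3B _root_.Pool.Agent.MUX _root_.Pool.Agent.MUXU WeierstrassCurve

noncomputable section

namespace GD2

/-- squares in the value group -/
lemma sq_inj {Γ : Type*} [LinearOrderedCommGroupWithZero Γ] {a b : Γ} (h : a ^ 2 = b ^ 2) :
    a = b :=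
  (pow_left_inj₀ zero_le' zero_le' two_ne_zero).1 h

section val

variable {V : ValuationSubring ℂ}

lemma th_ne : V.valuation 2 ≠ 0 := (Valuation.ne_zero_iff _).2 two_ne_zero

lemma th_pos : 0 < V.valuation 2 := zero_lt_iff.2 th_ne

lemma th_lt (h2 : V.valuation 2 < 1) {m n : ℕ} (h : m < n) :
    V.valuation 2 ^ n < V.valuation 2 ^ m :=
  pow_lt_pow_right_of_lt_one₀ th_pos h2 h

lemma th_lt1 (h2 : V.valuation 2 < 1) {n : ℕ} (h : 0 < n) : V.valuation 2 ^ n < 1 := by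
  have := th_lt h2 h
  rwa [pow_zero] at this

lemma v8 : V.valuation 8 = V.valuation 2 ^ 3 := by
  rw [← map_pow]; norm_num

lemma v16 : V.valuation 16 = V.valuation 2 ^ 4 := by
  rw [← map_pow]; norm_num

lemma v64 : V.valuation 64 = V.valuation 2 ^ 6 := by
  rw [← map_pow]; norm_num

lemma v256 : V.valuation 256 = V.valuation 2 ^ 8 := by
  rw [← map_pow]; norm_num

lemma v512 : V.valuation 512 = V.valuation 2 ^ 9 := by
  rw [← map_pow]; norm_num

/-- the parameter is a unit -/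
lemma unit_case (h2 : V.valuation 2 < 1) {s mu : ℂ} (hs : V.valuation s = 1)
    (hmu : mu ^ 2 = (s + 16) * (s - 512) / ((s - 8) * (s + 256))) :
    V.valuation mu = 1 ∧ V.valuation (s - 8) = 1 ∧ V.valuation (s + 64) = 1 := by
  have e1 : V.valuation (s + 16) = 1 := by
    rw [Valuation.map_add_eq_of_lt_left _ (by rw [hs, v16]; exact th_lt1 h2 (by norm_num)), hs]
  have e2 : V.valuation (s - 512) = 1 := by
    rw [Valuation.map_sub_eq_of_lt_left _ (by rw [hs, v512]; exact th_lt1 h2 (by norm_num)), hs]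
  have e3 : V.valuation (s - 8) = 1 := by
    rw [Valuation.map_sub_eq_of_lt_left _ (by rw [hs, v8]; exact th_lt1 h2 (by norm_num)), hs]
  have e4 : V.valuation (s + 256) = 1 := by
    rw [Valuation.map_add_eq_of_lt_left _ (by rw [hs, v256]; exact th_lt1 h2 (by norm_num)), hs]
  have e5 : V.valuation (s + 64) = 1 := by
    rw [Valuation.map_add_eq_of_lt_left _ (by rw [hs, v64]; exact th_lt1 h2 (by norm_num)), hs]
  refine ⟨sq_inj ?_, e3, e5⟩
  rw [← map_pow, hmu, map_div₀, map_mul, map_mul, e1, e2, e3, e4]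
  simp

/-- the parameter is small -/
lemma small_case (h2 : V.valuation 2 < 1) {s mu : ℂ} (hs : V.valuation s = V.valuation 2 ^ 12)
    (hmu : mu ^ 2 = (s + 16) * (s - 512) / ((s - 8) * (s + 256))) :
    V.valuation mu = V.valuation 2 ∧ V.valuation (s - 8) = V.valuation 2 ^ 3 := by
  have e1 : V.valuation (s + 16) = V.valuation 2 ^ 4 := by
    rw [Valuation.map_add_eq_of_lt_right _ (by rw [hs, v16]; exact th_lt h2 (by norm_num)), v16]
  have e2 : V.valuation (s - 512) = V.valuation 2 ^ 9 := by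
    rw [Valuation.map_sub_eq_of_lt_right _ (by rw [hs, v512]; exact th_lt h2 (by norm_num)), v512]
  have e3 : V.valuation (s - 8) = V.valuation 2 ^ 3 := by
    rw [Valuation.map_sub_eq_of_lt_right _ (by rw [hs, v8]; exact th_lt h2 (by norm_num)), v8]
  have e4 : V.valuation (s + 256) = V.valuation 2 ^ 8 := by
    rw [Valuation.map_add_eq_of_lt_right _ (by rw [hs, v256]; exact th_lt h2 (by norm_num)), v256]
  refine ⟨sq_inj ?_, e3⟩
  rw [← map_pow, hmu, map_div₀, map_mul, map_mul, e1, e2, e3, e4, ← pow_add, ← pow_add,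
    div_eq_iff (pow_ne_zero _ th_ne), ← pow_add]

end val

section ideals

variable {A B : ℤ}

/-- two primes of norm two -/
lemma eq_of_le {P Q : Ideal (OO A B)} (hP : IsPN 2 P) (hQ : IsPN 2 Q) (h : Q ≤ P) : P = Q := by
  refine le_antisymm (fun x hx => ?_) h
  have hc : Nat.card (OO A B ⧸ Q) = 2 := hQ.norm
  by_contra hxQ
  obtain ⟨y, -, hy⟩ := (Nat.card_eq_two_iff' (0 : OO A B ⧸ Q)).1 hc
  have h1 : Ideal.Quotient.mk Q x ≠ 0 := fun h0 => hxQ (Ideal.Quotient.eq_zero_iff_mem.1 h0)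
  have h2 : Ideal.Quotient.mk Q 1 ≠ 0 := fun h0 =>
    hQ.prime.ne_top ((Ideal.eq_top_iff_one Q).2 (Ideal.Quotient.eq_zero_iff_mem.1 h0))
  have h3 : Ideal.Quotient.mk Q x = Ideal.Quotient.mk Q 1 := (hy _ h1).trans (hy _ h2).symm
  have h4 : x - 1 ∈ P := h (Ideal.Quotient.eq.1 h3)
  have h5 : (1 : OO A B) ∈ P := by
    have := P.sub_mem hx h4
    rwa [sub_sub_cancel] at this
  exact hP.prime.ne_top ((Ideal.eq_top_iff_one P).2 h5)

end ideals

/-- the data of one chain -/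
structure Chain {A B : ℤ} (R : Ideal (OO A B)) (L : PeriodPair) (h : ℕ) (y : OO A B)
    (N : ℕ → PeriodPair) (mu w : ℕ → ℂ) : Prop where
  hpos : 0 < h
  pow : R ^ h = sp y
  zero : N 0 = L
  nl : ∀ i, (N i).g₂ = -18 * (N i).g₃
  isq : ∀ i, IsQ R (N i) (N (i + 1)) (mu i)
  two : ∀ i, Two (N i) (N (i + 1)) (mu i) (w i)
  rec_ : Rec (fun i => par (N i) (w i))
  per : ∀ i, par (N (i + h)) (w (i + h)) = par (N i) (w i)
  prod : ∏ i ∈ Finset.range h, mu i = emb y ∨ ∏ i ∈ Finset.range h, mu i = -emb y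

lemma Chain.val {A B : ℤ} {R : Ideal (OO A B)} {L : PeriodPair} {h : ℕ} {y : OO A B}
    {N : ℕ → PeriodPair} {mu w : ℕ → ℂ} (H : Chain R L h y N mu w) (V : ValuationSubring ℂ) :
    ∏ i ∈ Finset.range h, V.valuation (mu i) = V.valuation (emb y) := by
  rw [← map_prod]
  rcases H.prod with h1 | h1
  · rw [h1]
  · rw [h1, Valuation.map_neg]

/-- a quotient by a torsion point in `Two` form -/
lemma two_of_isQ {A B : ℤ} {R : Ideal (OO A B)} {L N M : PeriodPair} {mu mu' w : ℂ}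
    (h1 : IsQ R L N mu) (h2 : Two L N mu w) (h3 : IsQ R L M mu') : Two L M mu' w where
  mu_ne := h3.1
  w_ne := h2.w_ne
  w2 := h2.w2
  ker := fun z => by rw [h3.2 z, ← h1.2 z, h2.ker z]

/-- points killed by `R` -/
lemma tor_par {A B : ℤ} {R : Ideal (OO A B)} {L N : PeriodPair} {mu w u : ℂ}
    (h1 : IsQ R L N mu) (h2 : Two L N mu w) (hu : u ∉ L.lattice) (ht : Tor R L u) :
    xn L u = xn L w := by
  have h3 : mu * u ∈ N.lattice := (h1.2 u).2 ht
  rcases (h2.ker u).1 h3 with h4 | h4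
  · exact absurd h4 hu
  · have h5 : L.weierstrassP u = L.weierstrassP w := by
      have := L.weierstrassP_add_coe w ⟨u - w, h4⟩
      rw [← this]
      congr 1
      simp
    unfold xn
    rw [h5]

end GD2

open _root_.Pool.Agent.MUX2.GD2 in
theorem t2_GD2 (h1 : S2_CHN) (h2 : S2_CH2) (h3 : S2_NRM) : S2_GD2 := by
  intro A B hC h8 LF P Q V hP hQ hPQ hV b L om hL
  have hth := hV.two
  -- the chains
  have key : ∀ R : Ideal (OO A B), IsPN 2 R → ∃ (h : ℕ) (y : OO A B) (N : ℕ → PeriodPair)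
      (mu w : ℕ → ℂ), Chain R L h y N mu w := by
    intro R hR
    obtain ⟨h, y, N, mu, w, c1, c2, c3, c4, c5, c6, -, -, c9, c10, c11⟩ :=
      h2 A B hC h8 LF R hR b L om hL
    refine ⟨h, y, N, mu, w, c1, c2, c3, fun i => ?_, c5, c6, c9, c10, c11⟩
    obtain ⟨b', om', hb⟩ := c4 i
    exact hb.nrm
  -- the formula for the multipliers
  have hmuf : ∀ (R : Ideal (OO A B)) (h : ℕ) (y : OO A B) (N : ℕ → PeriodPair) (mu w : ℕ → ℂ),
      Chain R L h y N mu w → ∀ i, mu i ^ 2 = (par (N i) (w i) + 16) * (par (N i) (w i) - 512) /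
        ((par (N i) (w i) - 8) * (par (N i) (w i) + 256)) := by
    intro R h y N mu w H i
    exact (h3 _ _ _ _ (H.two i) (H.nl i) (H.nl (i + 1))).2.2.2.2.2.2.2.2.2.2.1
  -- the prime P
  have hPc : ∀ (h : ℕ) (y : OO A B) (N : ℕ → PeriodPair) (mu w : ℕ → ℂ),
      Chain P L h y N mu w → ∀ i, V.valuation (par (N i) (w i)) = V.valuation 2 ^ 12 := by
    intro h y N mu w H
    rcases h1 V _ h hth H.rec_ H.hpos H.per with h5 | h5
    · exfalso
      have h6 : ∏ i ∈ Finset.range h, V.valuation (mu i) = 1 :=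
        Finset.prod_eq_one fun i _ => (unit_case hth (h5 i) (hmuf P h y N mu w H i)).1
      rw [H.val V] at h6
      have h7 : y ∈ P := by
        have h8 : y ∈ P ^ h := by
          rw [H.pow]
          exact Ideal.mem_span_singleton_self y
        exact Ideal.pow_le_self H.hpos.ne' h8
      exact (hV.lt y h7).ne h6
    · exact h5
  have hQc : ∀ (h : ℕ) (y : OO A B) (N : ℕ → PeriodPair) (mu w : ℕ → ℂ),
      Chain Q L h y N mu w → ∀ i, V.valuation (par (N i) (w i)) = 1 := by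
    intro h y N mu w H
    rcases h1 V _ h hth H.rec_ H.hpos H.per with h5 | h5
    · exact h5
    · exfalso
      have h6 : ∏ i ∈ Finset.range h, V.valuation (mu i) = V.valuation 2 ^ h := by
        rw [Finset.prod_congr rfl fun i _ => (small_case hth (h5 i) (hmuf Q h y N mu w H i)).1,
          Finset.prod_const, Finset.card_range]
      rw [H.val V] at h6
      have h7 : y ∉ P := by
        intro hy
        have h8 : Q ^ h ≤ P := by
          rw [H.pow, Ideal.span_singleton_le_iff_mem]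
          exact hy
        exact hPQ (eq_of_le hP hQ (hP.prime.le_of_pow_le h8))
      rw [hV.one y h7] at h6
      exact (th_lt1 hth H.hpos).ne h6.symm
  obtain ⟨hp, yp, Np, mup, wp, HP⟩ := key P hP
  obtain ⟨hq, yq, Nq, muq, wq, HQ⟩ := key Q hQ
  have sP := hPc _ _ _ _ _ HP 0
  have sQ := hQc _ _ _ _ _ HQ 0
  have NP := h3 _ _ _ _ (HP.two 0) (HP.nl 0) (HP.nl 1)
  have NQ := h3 _ _ _ _ (HQ.two 0) (HQ.nl 0) (HQ.nl 1)
  have qP := HP.isq 0
  have qQ := HQ.isq 0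
  have tP := HP.two 0
  have tQ := HQ.two 0
  have mP := hmuf _ _ _ _ _ _ HP 0
  have mQ := hmuf _ _ _ _ _ _ HQ 0
  have nL : L.g₂ = -18 * L.g₃ := hL.nrm
  rw [HP.zero] at sP NP qP tP mP
  rw [HQ.zero] at sQ NQ qQ tQ mQ
  have uQ := unit_case hth sQ mQ
  have uP := small_case hth sP mP
  have hk : V.valuation (kap L) = 1 := by
    rw [NQ.2.2.2.2.2.2.2.2.1, map_div₀, map_mul, map_pow, sQ, uQ.2.1, uQ.2.2]
    simp
  refine ⟨hk, ?_, fun u hu ht => ?_, fun u hu ht => ?_, fun b' M om' mu hM hq => ?_,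
    fun b' M om' mu hM hq => ?_⟩
  · have e1 : V.valuation (1728 * kap L) < 1 := by
      rw [map_mul, hk, mul_one, show (1728 : ℂ) = 2 ^ 6 * ((27 : ℕ) : ℂ) by norm_num, map_mul,
        map_pow]
      have e2 : V.valuation ((27 : ℕ) : ℂ) ≤ 1 :=
        (V.valuation_le_one_iff _).2 (natCast_mem V 27)
      calc V.valuation 2 ^ 6 * V.valuation ((27 : ℕ) : ℂ) ≤ V.valuation 2 ^ 6 * 1 := by gcongr
        _ = V.valuation 2 ^ 6 := mul_one _
        _ < 1 := th_lt1 hth (by norm_num)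
    rw [Valuation.map_add_eq_of_lt_left _ (by rwa [map_one]), map_one]
  · have e0 := tor_par qP tP hu ht
    have e1 : par L u = par L (wp 0) := by
      unfold par
      rw [e0]
    rw [e1, e0, sP, NP.2.2.2.2.2.2.2.1, map_div₀, uP.2]
    refine ⟨rfl, ?_⟩
    rw [div_mul_eq_mul_div, ← pow_succ', div_self (pow_ne_zero _ th_ne)]
  · have e0 := tor_par qQ tQ hu ht
    have e1 : par L u = par L (wq 0) := by
      unfold par
      rw [e0]
    rw [e1, e0, sQ, NQ.2.2.2.2.2.2.2.1, map_div₀, uQ.2.1, div_one]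
    exact ⟨rfl, rfl⟩
  · have e1 := two_of_isQ qP tP hq
    exact (small_case hth sP (h3 _ _ _ _ e1 nL hM.nrm).2.2.2.2.2.2.2.2.2.2.1).1
  · have e1 := two_of_isQ qQ tQ hq
    exact (unit_case hth sQ (h3 _ _ _ _ e1 nL hM.nrm).2.2.2.2.2.2.2.2.2.2.1).1

end

end Pool.Agent.MUX2


end
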