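import Mathlib
import Pool.Agent.MVF.C014
import Pool.Agent.MVF.C033
import Pool.Agent.MVF.C035
import Pool.Agent.MVF.C041
import Pool.Agent.MVF.C042

/-! Parts: N2.StE2, N2.E_XXS, N2.E_HAL, N2.E_HEQ, N2.E_GRT, N2.E_LAG, N2.E_MUL, N2.E_CTX, N2.E_COE -/

namespace Pool.Agent.N2E.COE
end Pool.Agent.N2E.COE
namespace Pool.Agent.N2E.CtxTaux
end Pool.Agent.N2E.CtxTaux
namespace Pool.Agent.N2E.HAL
end Pool.Agent.N2E.HAL
namespace Pool.Agent.N2E.LAG
end Pool.Agent.N2E.LAG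
namespace Pool.Agent.N2E.XXS
end Pool.Agent.N2E.XXS

section

/-!
# MUX-2N, block E2N: the improved criterion for squares (`2` inert in `k`) (helper34)

`V` a valuation ring of `ℂ` above `2`, `v = V.valuation` (multiplicative: `v x ≤ v 2` means `x ∈ 2 V`; `v x ≤ 1` iff `x ∈ V`). `L` a lattice, `GoodT V L u e a1 a3`:
`x = xu L u e = (℘ - e)/u²`, `y = yt L u e a1 a3`, `et L u = ℘'/u³ = 2 y + a1 x + a3`, `y² + a1 x y + a3 y = x³`, `et² = 4 x³ + (a1 x + a3)²`, `v a1 ≤ v 2`, `v a3 = 1`.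
`InK V L x z` (`VX.lean`): `z` is zero or in the kernel of reduction (`E₁`); `tX x y z = -x z/y z`. All lemmas of `Pool/Agent/MUX/VG.lean` (helper77; `gInK_add`, `gInK_congr`, `gmem_of_nat_mul`, `gv_X_sub`, `gv_DX`, `gnear`, ..) hold (`GRT`: `GRG V (WT a1 a3) L x y ξ`).

IDEA. Everything is a function of ONE number `ξ = x(P)`, `P = om/m`, `m = 2^(n+2) f` (`L_0 = om emb O`). A value `Θ_a(pt R m i x; L_i)` is a rational function over `V` of `ξ`
(THT, GPO), an integral element `w` of the ray class field is a polynomial over `V` in `ξ` (SIG), and the automorphism `c = 1 + 2^n f a b` sends `P` to `P + Y`, `Y = emb b (a om/4)` any point with `4 Y ∈ L`. An identity `A = κ h² B` at the 16 points `ξ_Y = x(P + Y)`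
implies a congruence for the logarithmic derivative of `A/B` at `ξ` modulo `∏ (ξ - ξ_Y)` (LAG), and `v(ξ - ξ_Y) = v(t(Y))` (DST). The numbers (additive valuations, `v(2) = 1`): `v(t(Y)) = 1/3` for the 3 points of order 2, `1/12` for the 12 points of order 4, total `2`. `del` is the square root of `D`; the automorphisms `1 + k 2^n f a del`, `k = 0, 1, 2, 3`,
are trivial on `RF (2 f)` and on the `2^(n+2)`-th roots of unity, so on `D` (`n ≥ 2`); the sum over their three points is `1/12 + 1/3 + 1/12 = 1/2`.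

Every statement is a `def Sd_X : Prop`; the module N2E_X proves `theorem td_X (h : ...) : Sd_X` in `Pool/Agent/N2/E_X.lean`, namespace `Pool.Agent.N2E`,
with the statements named under `Uses` as hypotheses (drop those which are not needed; others may be added if they do not depend on this one). Unconditional and usable:
`Pool.Agent.MU3B.b_X : St_X` (`Pool/Agent/MU3/BAll.lean`), `Pool.Agent.MU3A.ta_SCP`, `Pool.Agent.MUXU.u_X : Su_X` (`Pool/Agent/MUX/UAll.lean`), and from block E of MUX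
`Pool.Agent.MUXE.te_RNG`, `te_TRA`, `te_TRB`, `te_FAC te_TRA`, `te_GTH te_TRA`, `te_PT te_TRA` (all imported); `te_GAL` in `E_GAL.lean`; `Pool.Agent.NSE.te_BAS` in `Pool/Agent/NS/E_BAS.lean`. The models `E_X.lean` named in the proofs are the finished files for `3` inert, `Pool/Agent/NS/E_X.lean`.
-/

set_option autoImplicit false

open Polynomial

namespace Pool.Agent.N2E

open _root_.MU3 _root_.Pool.Agent.MU3A _root_.Pool.Agent.MU3B _root_.Pool.Agent.MUX _root_.Pool.Agent.MUXU _root_.Pool.Agent.MUXE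
open _root_.Pool.Agent.RI _root_.Pool.Agent.NS _root_.Pool.Agent.N2
open _root_.Pool.Agent.NSE (IntP)
open _root_.Pool.Agent.MUX2 (GRG)
open _root_.Pool.Agent.MUXV (InK tX)

noncomputable section

/-! ## Definitions -/

/-- the logarithmic derivative of the rational function `P/Q` at `x` -/
def dlg (P Q : ℂ[X]) (x : ℂ) : ℂ :=
  ((derivative P).eval x * Q.eval x - P.eval x * (derivative Q).eval x) / (P.eval x * Q.eval x)

/-- the square root of the discriminant: `2 w - B` -/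
def del {A B : ℤ} : OO A B := ⟨-B, 2⟩

/-- `1 + N b` -/
def cc {A B : ℤ} (N : ℕ) (b : OO A B) : OO A B := 1 + (N : OO A B) * b

/-- an isogeny of odd degree between lattices with good models -/
structure IsoT (V : ValuationSubring ℂ) (L M : PeriodPair) (u e a1 a3 u' e' a1' a3' μ : ℂ) :
    Prop where
  gL : GoodT V L u e a1 a3
  gM : GoodT V M u' e' a1' a3'
  v2 : V.valuation (2 : ℂ) < 1
  mu0 : μ ≠ 0
  isg : Isg L M μ
  odd : ∃ N : ℕ, ¬ 2 ∣ N ∧ ∀ z, μ * z ∈ M.lattice → (N : ℂ) * z ∈ L.lattice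

/-- the automorphism `s` of `ℂ / k` acts as the principal ideal `(c)` on level `m` -/
structure AutC {A B : ℤ} (m : Ideal (OO A B)) (c : OO A B) (s : ℂ ≃+* ℂ) : Prop where
  fix : FixK A B s
  kap : ∀ L, NL A B L → s (kap L) = kap L
  xn : ∀ L, NL A B L → ∀ z, Tor m L z → z ∉ L.lattice →
    emb c * z ∉ L.lattice ∧ s (xn L z) = xn L (emb c * z)
  triv : ∀ m' : Ideal (OO A B), m ≤ m' → c - 1 ∈ m' → ∀ y ∈ RF m', s y = y
  zeta : ∀ M : ℕ, M ≠ 0 → m ≤ idl M → ∀ z : ℂ, z ^ M = 1 → s z = z ^ nI (sp c)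

/-- everything on `O`, `k`, `V` and the reduction which is used -/
structure CtxT (A B : ℤ) (V : ValuationSubring ℂ) : Prop where
  ring : RingE A B
  cq : CQ A B
  two : (8 : ℤ) ∣ B ^ 2 + 4 * A - 5
  v2 : V.valuation (2 : ℂ) < 1
  int : ∀ x : OO A B, V.valuation (emb x) ≤ 1
  unit : ∀ x : OO A B, x ∉ idl (A := A) (B := B) 2 → V.valuation (emb x) = 1
  nat : ∀ n : ℕ, ¬ 2 ∣ n → V.valuation (n : ℂ) = 1
  max : (idl (A := A) (B := B) 2).IsMaximal
  nrm : ∀ x : OO A B, x ∉ idl (A := A) (B := B) 2 → ¬ (2 : ℤ) ∣ nm x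
  kval : ∀ y ∈ kk A B, y ≠ 0 → ∃ k : ℤ, V.valuation y = V.valuation (2 : ℂ) ^ k
  good : ∀ L, NL A B L → ∃ u e a1 a3 : ℂ, GoodT V L u e a1 a3
  iner : ∀ f : ℕ, f ≠ 0 → ¬ 2 ∣ f → ∀ σ : ℂ ≃+* ℂ, FixK A B σ →
    (∀ y ∈ RF (idl (A := A) (B := B) f), y ∈ V → σ y - y ∈ V.nonunits) →
    ∀ y ∈ RF (idl (A := A) (B := B) f), σ y = y

/-- the hypotheses on the levels: `m = 2^(n+2) f` -/
structure SetE (A B : ℤ) (V : ValuationSubring ℂ) (n f a m : ℕ) : Prop where
  ctx : CtxT A B V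
  tor : TorX A B
  n2 : 2 ≤ n
  f3 : 3 ≤ f
  fd : 3 ∣ f
  fo : ¬ 2 ∣ f
  a3 : 3 ≤ a
  ao : ¬ 2 ∣ a
  af : a.Coprime f
  hm : m = 2 ^ (n + 2) * f

/-! ## Polynomials over `V` -/

/-- (LAG) a polynomial over `V` with many zeros has a small derivative at a zero.

PROOF. `IntP V` polynomials form a ring (coefficients in the subring `V`). (1) `P` is divisible by the monic polynomial `(X - x0) ∏_(x ∈ S) (X - x)` over `V` (different zeros in the domain `V`: `Multiset.prod_X_sub_C_dvd_iff_le_roots`, or divide by one factor after the other with `Polynomial.divByMonic` / synthetic division; the quotient of a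
polynomial over `V` by a monic polynomial over `V` is over `V`). `P = (X - x0) Z R`, so `P'(x0) = Z(x0) R(x0)`, `v(R(x0)) ≤ 1`. (2) (1) for `P - C(P(x0))`. (3) (1) for `C(B(x0)) A - C(A(x0)) B`. (4) (1) for `U = A - C κ h² B`: `v(U'(x0)) ≤ ∏_S`; `κ h(x0)² B(x0) = A(x0)` gives
`U'(x0) B(x0) = (A'B - A B')(x0) - 2 κ h h' B²(x0)`; `v(h'(x0)) ≤ ∏_(S')` by (2); `v(κ), v(h(x0)), v(B(x0)) ≤ 1`. -/
def Sd_LAG : Prop :=
  ∀ (V : ValuationSubring ℂ) (S : Finset ℂ) (x0 : ℂ), x0 ∉ S → V.valuation x0 ≤ 1 →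
    (∀ x ∈ S, V.valuation x ≤ 1) →
    (∀ P : ℂ[X], IntP V P → P.eval x0 = 0 → (∀ x ∈ S, P.eval x = 0) →
      V.valuation ((derivative P).eval x0) ≤ ∏ x ∈ S, V.valuation (x0 - x)) ∧
    (∀ P : ℂ[X], IntP V P → (∀ x ∈ S, P.eval x = P.eval x0) →
      V.valuation ((derivative P).eval x0) ≤ ∏ x ∈ S, V.valuation (x0 - x)) ∧
    (∀ P Q : ℂ[X], IntP V P → IntP V Q →
      (∀ x ∈ S, P.eval x * Q.eval x0 = P.eval x0 * Q.eval x) →
      V.valuation ((derivative P).eval x0 * Q.eval x0 - P.eval x0 * (derivative Q).eval x0) ≤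
        ∏ x ∈ S, V.valuation (x0 - x)) ∧
    ∀ (P Q h : ℂ[X]) (κ : ℂ) (S' : Finset ℂ), IntP V P → IntP V Q → IntP V h →
      V.valuation κ ≤ 1 → x0 ∉ S' → (∀ x ∈ S', V.valuation x ≤ 1) →
      P.eval x0 = κ * h.eval x0 ^ 2 * Q.eval x0 →
      (∀ x ∈ S, P.eval x = κ * h.eval x ^ 2 * Q.eval x) →
      (∀ x ∈ S', h.eval x = h.eval x0) →
      V.valuation ((derivative P).eval x0 * Q.eval x0 - P.eval x0 * (derivative Q).eval x0) ≤
        max (V.valuation (2 : ℂ) * ∏ x ∈ S', V.valuation (x0 - x))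
          (∏ x ∈ S, V.valuation (x0 - x))

/-- (PRD) products of rational functions over `V` with integral exponents.

PROOF. `P' = ∏_(g_j ≥ 0) P_j^(g_j) ∏_(g_j < 0) Q_j^(-g_j)`, `Q'` the same with `P_j, Q_j` exchanged (or induction on `s`: one factor `j` and then powers: `g_j = k` or `-k`). On `T` all values are units, so not zero: `P'(x)/Q'(x) = ∏ (P_j(x)/Q_j(x))^(g_j)` and the logarithmic derivative (`dlg`) is additive: `dlg (P1 P2) (Q1 Q2) = dlg P1 Q1 + dlg P2 Q2`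
where the values are not zero (`derivative_mul`, `field_simp`, `ring`), `dlg Q P = -dlg P Q`. -/
def Sd_PRD : Prop :=
  ∀ (V : ValuationSubring ℂ) (J : Type) (s : Finset J) (P Q : J → ℂ[X]) (g : J → ℤ)
    (T : Set ℂ), (∀ j ∈ s, IntP V (P j) ∧ IntP V (Q j) ∧
      ∀ x ∈ T, V.valuation ((P j).eval x) = 1 ∧ V.valuation ((Q j).eval x) = 1) →
    ∃ P' Q' : ℂ[X], IntP V P' ∧ IntP V Q' ∧ ∀ x ∈ T,
      V.valuation (P'.eval x) = 1 ∧ V.valuation (Q'.eval x) = 1 ∧
      P'.eval x * ∏ j ∈ s, (Q j).eval x ^ g j = Q'.eval x * ∏ j ∈ s, (P j).eval x ^ g j ∧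
      dlg P' Q' x = ∑ j ∈ s, (g j : ℂ) * dlg (P j) (Q j) x

/-! ## The good model -/

/-- (COE) the coefficients. Model `E_COE.lean`.

PROOF. `℘'² = 4 ℘³ - g₂ ℘ - g₃` (`derivWeierstrassP_sq`) and `GoodT.eq`, `℘ = u² x + e`, `℘' = u³ et`, and `℘` takes every value: for all `T ∈ ℂ` `u⁶ (4 T³ + (a1 T + a3)²) = 4 (u² T + e)³ - g₂ (u² T + e) - g₃`. Compare coefficients: `12 e u⁴ = a1² u⁶`, `12 e² u² - g₂ u² = 2 a1 a3 u⁶`,
`4 e³ - g₂ e - g₃ = a3² u⁶`. `v 3 = 1`: `3 = 1 + 2`. Derivative: `x' = ℘'/u² = u et`. -/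
def Sd_COE : Prop :=
  ∀ (V : ValuationSubring ℂ) (L : PeriodPair) (u e a1 a3 : ℂ), GoodT V L u e a1 a3 →
    V.valuation (2 : ℂ) < 1 →
    12 * e = a1 ^ 2 * u ^ 2 ∧ 12 * e ^ 2 - L.g₂ = 2 * a1 * a3 * u ^ 4 ∧
    4 * e ^ 3 - L.g₂ * e - L.g₃ = a3 ^ 2 * u ^ 6 ∧ V.valuation (3 : ℂ) = 1 ∧
    (∀ z, 2 * yt L u e a1 a3 z + a1 * xu L u e z + a3 = et L u z) ∧
    (∀ z ∉ L.lattice, et L u z ^ 2 = 4 * xu L u e z ^ 3 + (a1 * xu L u e z + a3) ^ 2) ∧
    (∀ z ∉ L.lattice, yt L u e a1 a3 z ^ 2 + a1 * xu L u e z * yt L u e a1 a3 z +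
      a3 * yt L u e a1 a3 z = xu L u e z ^ 3) ∧
    (∀ z ∉ L.lattice, HasDerivAt (xu L u e) (u * et L u z) z) ∧
    ∀ z, (∀ w ∈ L.lattice, xu L u e (z + w) = xu L u e z ∧ et L u (z + w) = et L u z ∧
        yt L u e a1 a3 (z + w) = yt L u e a1 a3 z) ∧
      xu L u e (-z) = xu L u e z ∧ et L u (-z) = -et L u z

/-- (GRT) good reduction in the sense of `VG.lean`. Model `E_GRN.lean`, and `S2_GR2` of `Pool/Agent/MUX/StR2.lean` (helper77; `R2_GR2.lean`).

Uses Sd_COE. PROOF. The discriminant of `WT a1 a3` is `a3³ (a1³ - 27 a3)`, a unit (`v 27 = 1`, `v a1 < 1`). `ξ` from `u_XIL` (the homomorphism to `EL L : Y² = X³ - g₂/4 X - g₃/4`, `X = ℘`, `Y = ℘'/2`) and the change of variables `(X, Y) ↦ ((X - e)/u², Y/u³ - (a1 (X - e)/u² + a3)/2)` (a bijection compatible with the group laws, by (COE)). -/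
def Sd_GRT : Prop :=
  ∀ (V : ValuationSubring ℂ) (L : PeriodPair) (u e a1 a3 : ℂ), GoodT V L u e a1 a3 →
    V.valuation (2 : ℂ) < 1 →
    ∃ ξ : ℂ →+ (WT a1 a3).Point, GRG V (WT a1 a3) L (xu L u e) (yt L u e a1 a3) ξ

/-- (TPT) torsion points. Model `E_TPN.lean`.

Uses Sd_COE, Sd_GRT, Su_PFI. PROOF. (1) `v N = 1` for odd `N`; `gmem_of_nat_mul`. (2) Induction on `j`. `j = 0`: `℘'(z) = 0` (`2 z ∈ L`, `b_ZER`), `et = 0`, so `4 x³ + (a1 x + a3)² = 0`, `x = x z`, `X = v x`. If `X ≤ 1` then `v(a1 x + a3) = 1` and `v(4 x³) < 1`, false. So `X > 1`, `z ∈ InK`. If `v(a1 x) ≥ 1`: `X ≥ v(2)⁻¹`, `v(4) X³ > 1`,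
so `v(a1 x + a3)² > 1`, so `v(a1 x + a3) = v(a1 x) ≤ v(2) X`, `v(4) X³ ≤ v(4) X²`, false. So `v(a1 x + a3) = 1`, `v(4) X³ = 1`; `X v(t)² = 1` (`gv_tX_lt`), so `v(t)⁶ = v(2)²`, `v(t)³ = v 2`. Step: let `w = w1` be the point of order 3 with `e = ℘ w1` (`GoodT.tor`): `x w = 0`, `2 w ≡ -w`, `x(2 w) = 0`. (PFI) for `M = L`, `μ = 2`, `R` representatives of the 3 nonzero classes of
`{z : 2 z ∈ L}/L` in the coordinate `x` (`℘ = u² x + e`): (*) `4 x(2 z) ∏_(q ∈ R) (x z - x q) = x z ∏_(q ∈ R) (x z - x(w + q))` (`2 z ∉ L`). `w ∉ InK` (`3 w ∈ L`, (1)), `q ∈ InK`, so `w + q ∉ InK` (`gInK_congr`), `x(w + q) ∈ V`. `T = v(x q)`, `v(4) T³ = 1`, `T > 1`, the same for all `q`. `2^(j+2) z ∈ L`, `2^(j+1) z ∉ L`, `z' = 2 z`, `Y = v(x z')`: `Y^(3·4^j) v(4) = 1`, so `1 < Y ≤ T`.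
If `x z ∈ V`: the left side of (*) has valuation `v(4) Y T³ = Y > 1`, the right side `≤ 1`. So `X = v(x z) > 1` and the right side has valuation `X⁴`. `X > T`: `v(4) Y X³ = X⁴`, `X = v(4) Y < T`. `X = T`: `T⁴ ≤ v(4) Y T³ = Y ≤ T`. So `X < T`, `X⁴ = v(4) Y T³ = Y`. Then `v(t z)⁴ = v(t z')` (squares). -/
def Sd_TPT : Prop :=
  ∀ (V : ValuationSubring ℂ) (L : PeriodPair) (u e a1 a3 : ℂ), GoodT V L u e a1 a3 →
    V.valuation (2 : ℂ) < 1 →
    (∀ (N : ℕ), ¬ 2 ∣ N → V.valuation (N : ℂ) = 1 ∧ ∀ z : ℂ, (N : ℂ) * z ∈ L.lattice →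
      InK V L (xu L u e) z → z ∈ L.lattice) ∧
    ∀ (j : ℕ) (z : ℂ), 2 ^ (j + 1) * z ∈ L.lattice → 2 ^ j * z ∉ L.lattice →
      InK V L (xu L u e) z ∧ z ∉ L.lattice ∧
        V.valuation (tX (xu L u e) (yt L u e a1 a3) z) ^ (3 * 4 ^ j) = V.valuation (2 : ℂ)

/-! ## Isogenies of odd degree -/

/-- (UNT) the multiplier is a unit. Model `E_UNT.lean` (the same proof).

Uses Sd_COE, Sd_GRT, Sd_TPT, Su_BAC, Su_PFI. PROOF. `R` representatives of the nonzero classes of `{q : μ q ∈ M}/L` (BAC). Choose two different primes `l, l'` greater than `3 N`, `w = ω₁/l`, `z = ω₁/l'`. `z, w, z ± w, z ± q, w + q, z ± (w + q)` (`q ∈ R`) are not in `L` and killed by odd numbers, so not in `InK V L` (TPT (1)); `μ z, μ w, μ (z ± w)` are not in `M` and not in `InK V M`.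
(PFI) in the coordinates: `(μ u'/u)² (x'(μ z) - x'(μ w)) ∏ (x z - x q) = (x z - x w) ∏ (x z - x(w + q))`, and all differences are units (`gv_X_sub`). -/
def Sd_UNT : Prop :=
  ∀ (V : ValuationSubring ℂ) (L M : PeriodPair) (u e a1 a3 u' e' a1' a3' μ : ℂ),
    IsoT V L M u e a1 a3 u' e' a1' a3' μ → V.valuation (μ * u' / u) = 1

/-- (RAT) the isogeny as a rational function over `V`. Model `E_RAT.lean`.

Uses Sd_COE, Sd_GRT, Sd_TPT, Sd_UNT, Su_BAC, Su_PFI. PROOF. `ν = μ u'/u`, a unit (UNT). `R` representatives (BAC), `w = ω₁/l`, `l` a prime greater than `3 N`: `w, w + q, q ∉ InK V L`, `μ w ∉ InK V M`; `c = x'(μ w) ∈ V`. `Q = C(ν²) ∏_(q ∈ R) (X - C(x q))`, `P = C c * Q + (X - C(x w)) ∏_(q ∈ R) (X - C(x(w + q)))`: over `V`, `P` monic of degree `|R| + 1`.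
(PFI): `ν² (x'(μ z) - c) ∏ (x z - x q) = (x z - x w) ∏ (x z - x(w + q))`: the first identity; differentiate it (COE: `x` has the derivative `u et`, `z ↦ x'(μ z)` the derivative `μ u' et'(μ z)`): `μ u' et'(μ z) Q(x) + x'(μ z) Q'(x) u et = P'(x) u et`; multiply by `Q(x)/u` and use the first identity. `z ∈ InK V L`, `μ z ∉ M`: `X = v(x z) > 1`, `v(P(x)) = X^(d+1)`, `v(Q(x)) = X^d`
(leading coefficients `1` and `ν²`), so `v(x'(μ z)) = X > 1`: `μ z ∈ InK V M`. Last part: `μ z ∉ InK V M`: so `z ∉ InK V L`; for `q ∈ R`, `z ± q ∉ InK V L` (otherwise `μ z ± μ q ∈ InK V M`, `μ q ∈ M`), `q ∉ InK V L`: `x z - x q` is a unit. -/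
def Sd_RAT : Prop :=
  ∀ (V : ValuationSubring ℂ) (L M : PeriodPair) (u e a1 a3 u' e' a1' a3' μ : ℂ),
    IsoT V L M u e a1 a3 u' e' a1' a3' μ →
    ∃ P Q : ℂ[X], IntP V P ∧ IntP V Q ∧
      (∀ z, μ * z ∉ M.lattice →
        xu M u' e' (μ * z) * Q.eval (xu L u e z) = P.eval (xu L u e z) ∧
        (μ * u' / u) * et M u' (μ * z) * Q.eval (xu L u e z) ^ 2 =
          et L u z * (derivative P * Q - P * derivative Q).eval (xu L u e z)) ∧
      (∀ z, InK V L (xu L u e) z → InK V M (xu M u' e') (μ * z)) ∧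
      ∀ z, ¬ InK V M (xu M u' e') (μ * z) → ¬ InK V L (xu L u e) z ∧
        V.valuation (Q.eval (xu L u e z)) = 1

/-- (THT) the functions `z ↦ Θ_a(μ z)` on `L` as rational functions of `x` over `V`.

Uses Sd_COE, Sd_GRT, Sd_RAT. PROOF. `P, Q` from (RAT). `P' = ∏_(q ∈ H) (P - C(x' q) Q)` (`q ∉ InK V M` for `q ∈ H`: so `x' q ∈ V`; if this fails for some `q ∈ H` the last statement is empty and `P' = Q' = 0` will do), `Q' = Q^|H|`. `Θ(μ z) = ∏ (℘ (μ z) - ℘ q) = ∏ u'² (x'(μ z) - x' q)` and `(x'(μ z) - x' q) Q(x z) = (P - C(x' q) Q)(x z)`.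
`x'(μ z) - x' q` is a unit (`gv_X_sub`), `Q(x z)` is a unit (RAT). Logarithmic derivative: `dlg P' Q' = Σ_q dlg (P - C(x' q) Q) Q`, and `dlg (P - c Q) Q = (P' Q - P Q')/((P - c Q) Q) = (P' Q - P Q')/(Q² (x' - c))`, so with (RAT) `et L u z dlg (..) = ν et M u' (μ z)/(x'(μ z) - x' q) = (μ/u) ℘'(μ z)/(℘(μ z) - ℘ q)`; the sum over `q` is `(μ/u) dlX M a (μ z)`
(`b_TDL` for the real number `a`: `‖a‖² = a²`; see `E_THN.lean`). -/
def Sd_THT : Prop :=
  ∀ (V : ValuationSubring ℂ) (L M : PeriodPair) (u e a1 a3 u' e' a1' a3' μ : ℂ),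
    IsoT V L M u e a1 a3 u' e' a1' a3' μ → ∀ (a : ℕ) (H : Finset ℂ), a ≠ 0 →
    IsHalf M (a : ℂ) H →
    ∃ P Q : ℂ[X], IntP V P ∧ IntP V Q ∧
      ∀ z, ¬ InK V M (xu M u' e') (μ * z) → (a : ℂ) * (μ * z) ∉ M.lattice →
      (∀ q ∈ H, ¬ InK V M (xu M u' e') q ∧ ¬ InK V M (xu M u' e') (μ * z + q) ∧
        ¬ InK V M (xu M u' e') (μ * z - q)) →
      ¬ InK V L (xu L u e) z ∧
      V.valuation (P.eval (xu L u e z)) = 1 ∧ V.valuation (Q.eval (xu L u e z)) = 1 ∧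
      ThetaH M H (μ * z) * Q.eval (xu L u e z) = (u' ^ 2) ^ H.card * P.eval (xu L u e z) ∧
      μ * dlX M a (μ * z) / u = dlg P Q (xu L u e z) * et L u z

/-- (DST) the distances.

Uses Sd_COE, Sd_GRT, Sd_TPT. PROOF. Let `4 Y ∈ L`, `Y ∉ L`: `Y ∈ InK` (TPT (2), `j = 0` or `1`), `v(t Y)³ = v 2` if `2 Y ∈ L`, `v(t Y)^12 = v 2` otherwise. `gnear` and `gv_DX` (`2 P ∉ InK`): `P + Y ∉ InK` and `v(x(P + Y) - x P) = v(t Y)`. If `x(P + Y) = x(P + Y')` then `P + Y ≡ ±(P + Y')` modulo `L` (`b_NEQ`), and `2 P ≡ -Y - Y'` is impossible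
(`2 P ∉ InK`): so `Y ≡ Y'`. (1) `S` = the image of the 15 nonzero classes `Y` (`(i ω₁ + j ω₂)/4`, `0 ≤ i, j < 4`), `Y ↦ x(P + Y)` is injective on them; 3 of them have order 2: the product of their `v(t Y)` is `v 2` (all are equal, being cube roots of the same element of an ordered group); 12 have order 4, the product is `v 2`. (2) `S` = `{x(P + R), x(P + 2 R), x(P + 3 R)}`:
`α = v(t R) = v(t(3 R))`, `α^12 = v 2`, `β = v(t(2 R))`, `β³ = v 2 = α^12`, `β = α⁴`; `(α β α)² = α^12 = v 2`. -/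
def Sd_DST : Prop :=
  ∀ (V : ValuationSubring ℂ) (L : PeriodPair) (u e a1 a3 : ℂ), GoodT V L u e a1 a3 →
    V.valuation (2 : ℂ) < 1 → ∀ P : ℂ, ¬ InK V L (xu L u e) P → ¬ InK V L (xu L u e) (2 * P) →
    (∃ S : Finset ℂ, xu L u e P ∉ S ∧
      (∀ x ∈ S, V.valuation x ≤ 1 ∧ ∃ Y, 4 * Y ∈ L.lattice ∧ x = xu L u e (P + Y)) ∧
      ∏ x ∈ S, V.valuation (xu L u e P - x) ≤ V.valuation (2 : ℂ) ^ 2) ∧
    ∀ R, 4 * R ∈ L.lattice → 2 * R ∉ L.lattice →
      ∃ S : Finset ℂ, xu L u e P ∉ S ∧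
        (∀ x ∈ S, V.valuation x ≤ 1 ∧ ∃ k : ℕ, k < 4 ∧ x = xu L u e (P + k * R)) ∧
        (∏ x ∈ S, V.valuation (xu L u e P - x)) ^ 2 ≤ V.valuation (2 : ℂ)

/-! ## The fields -/

/-- (CTX) from the standing hypotheses to `CtxT`. Model `E_CTX.lean`.

PROOF. `B² + 4A ≡ 5` modulo 8: `B = 1`, `A` odd, `nm x = re² + re im - A im²` is even only if `re` and `im` are even: `nrm`, and `O/(2)` is a field (`max`: `nm x = x star x`). `v 2 < 1`: `OverI` for `x = 2`. `int`: `emb x` is integral. `unit`: `OverI`. `nat`: `1 = 2 a + n b`. `kval`: `x = 2^j y`, `y ∉ (2)`; every element of `k` is `emb x/n`, `n` a positive integer. `good`, `iner`: `S2_RFIN`. -/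
def Sd_CTX : Prop :=
  ∀ (A B : ℤ) (V : ValuationSubring ℂ), CaseT A B → OverI V (idl (A := A) (B := B) 2) →
    TorX A B → S2_RFIN → CtxT A B V

/-- (RAM) a finite Galois extension `F / k` with trivial inertia group at `V` is unramified. Model `E_RAM.lean` (with `2` in place of `3`). -/
def Sd_RAM : Prop :=
  ∀ (A B : ℤ) (V : ValuationSubring ℂ), CtxT A B V →
    ∀ (F : IntermediateField (kk A B) ℂ) [FiniteDimensional (kk A B) F] [IsGalois (kk A B) F],
      (∀ σ : F ≃ₐ[kk A B] F, (∀ x : F, V.valuation (x : ℂ) ≤ 1 →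
        V.valuation ((σ x : ℂ) - x) < 1) → σ = 1) →
      ∀ y ∈ F, y ≠ 0 → ∃ k : ℤ, V.valuation y = V.valuation (2 : ℂ) ^ k

/-- (UNR) `RF (f)` is unramified at `V` if `f` is odd. Model `E_UNR.lean`.

Uses Sd_RAM. -/
def Sd_UNR : Prop :=
  ∀ (A B : ℤ) (V : ValuationSubring ℂ), CtxT A B V → TorX A B →
    ∀ f : ℕ, f ≠ 0 → ¬ 2 ∣ f → ∀ y ∈ RF (idl (A := A) (B := B) f), y ≠ 0 →
      ∃ k : ℤ, V.valuation y = V.valuation (2 : ℂ) ^ k

/-- (DEG) the degree of `RF (2^(j+1) f)` over `RF (f)`. Model `E_DEG.lean`.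

PROOF. As `E_DEG.lean`: at most `4^(j+1) - 4^j = 3·4^j` classes modulo `2^(j+1)` of elements not divisible by `2` (pairs `(re, im)` modulo `2^(j+1)`, not both even). -/
def Sd_DEG : Prop :=
  ∀ (A B : ℤ) (V : ValuationSubring ℂ), CtxT A B V → GalE A B → ∀ (j f : ℕ), f ≠ 0 → ¬ 2 ∣ f →
    Module.finrank (kk A B) (RF (idl (A := A) (B := B) (2 ^ (j + 1) * f))) ≤
      (3 * 4 ^ j) * Module.finrank (kk A B) (RF (idl (A := A) (B := B) f))

/-- (AUT) automorphisms of `ℂ` which act as a principal ideal.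

PROOF. `s` from `TorX.surj` for the ideal `sp c`: for every normalised `L` there are `L', mu` with `ActI s m (sp c) L L' mu`, `L'` normalised. `GalX.core` (`Pool/Agent/MUX/E_GAL.lean`): `kap L' = kap L`, `mu = ± emb c`, `L'` and `L` have the same lattice and `℘`. `kap`, `xn`: as `GalX.mk` there. `triv`: `ActI s m' (sp c) L L' mu` (`m ≤ m'`: `Tor m'` implies `Tor m`) for one
normalised `L` (if there is none then `RF m'` is `k`; `GalX.fix`) and `TorX.triv`. `zeta`: `TorX.zeta` (`L` normalised exists by hypothesis). -/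
def Sd_AUT : Prop :=
  ∀ (A B : ℤ), RingE A B → TorX A B → (∃ L, NL A B L) →
    ∀ (m : Ideal (OO A B)), m ≠ ⊥ → ∀ c : OO A B, c ≠ 0 → IsCoprime (sp c) m →
      ∃ s : ℂ ≃+* ℂ, AutC m c s

/-- (GTA) the automorphism acts on `Θ_a`.

PROOF. `ThetaH L H z = ∏ (xn L z - xn L q)`; `s (xn L z) = xn L (emb c * z)`, `s (xn L q) = xn L (emb c * q) = xn L q`, because `a q ∈ L` (so `Tor m L q`, `te_TRA`), `q ∉ L` (`IsHalf.ne`), and `(c - 1) q ∈ L` (`c - 1 = y a`). -/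
def Sd_GTA : Prop :=
  ∀ (A B : ℤ), RingE A B → ∀ L, NL A B L → ∀ (a : ℕ) (H : Finset ℂ), IsHalf L (a : ℂ) H →
    ∀ (m : Ideal (OO A B)), m ≤ idl a → ∀ (c : OO A B) (s : ℂ ≃+* ℂ), AutC m c s →
      c - 1 ∈ idl a → ∀ z, Tor m L z → z ∉ L.lattice →
        s (ThetaH L H z) = ThetaH L H (emb c * z)

/-- (CON) the elements `c = 1 + N b`, `N = 2^n f a`.

PROOF. (1) `c ≡ 1` modulo `2`, `f`, `a`, so `c` is prime to `m a = 2^(n+2) f a` and not `0`; `4 f ∣ N`, `f a ∣ N`. (2) `del = 2 w - B`, `B` odd. `del` has trace `0` and norm `-D`, `D = B² + 4 A`: `nm (1 + t del) = 1 - t² D` for integers `t`; `t = N k` and `2^(n+2) ∣ N²` (`2 n ≥ n + 2`). `nI (sp x) = |nm x|` (`IDL` of `Pool/Agent/MUX/StXF.lean`, or `Algebra.norm`; look for it in `MUX/`), `nm x ≥ 0`.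
(3) `c_k c_l - c_(k+l) = N² k l D` and `m a ∣ N²`. (4) `N = m a/4`. (5) `c_2 x - x = 2 N del x`; `m ∣ 2 N del x` gives `2 ∣ a del x` in `O`, and `(2)` is a prime ideal which does not contain `a`, `del`, `x`. (6) `(om/m) N δ k = k emb del (a om/4)`. `4 R ∈ L` and `2 R ∉ L` for `R = emb del (a om/4)`: `L = om emb O`, `emb` injective. (7) `L = om emb O`: `Y = om emb b'/4`, take `b = a b'`, `a² ≡ 1` modulo 4. -/
def Sd_CON : Prop :=
  ∀ (A B : ℤ) (V : ValuationSubring ℂ) (n f a m : ℕ), SetE A B V n f a m →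
    (∀ b : OO A B, IsCoprime (sp (cc (2 ^ n * f * a) b)) (idl (m * a)) ∧
      IsCoprime (cc (2 ^ n * f * a) b) ((m : ℕ) : OO A B) ∧
      cc (2 ^ n * f * a) b ≠ 0 ∧ cc (2 ^ n * f * a) b - 1 ∈ idl (f * a) ∧
      cc (2 ^ n * f * a) b - 1 ∈ idl (4 * f) ∧ cc (2 ^ n * f * a) b - 1 ∈ idl a) ∧
    ((del : OO A B) ∉ idl (A := A) (B := B) 2 ∧
      ∀ k : ℕ, ∃ j : ℕ, nI (sp (cc (2 ^ n * f * a) ((k : OO A B) * del))) =
        1 + 2 ^ (n + 2) * j) ∧
    (∀ k l : ℕ, cc (2 ^ n * f * a) ((k : OO A B) * del) * cc (2 ^ n * f * a) ((l : OO A B) * del) -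
      cc (2 ^ n * f * a) (((k + l : ℕ) : OO A B) * del) ∈ idl (m * a)) ∧
    (cc (2 ^ n * f * a) (((4 : ℕ) : OO A B) * del) - 1 ∈ idl (m * a)) ∧
    (∀ x : OO A B, IsCoprime x ((m : ℕ) : OO A B) →
      cc (2 ^ n * f * a) (((2 : ℕ) : OO A B) * del) * x - x ∉ idl m) ∧
    ∀ (L : PeriodPair) (om : ℂ), IsNL (⊤ : Ideal (OO A B)) L om →
      (∀ b : OO A B, emb (cc (2 ^ n * f * a) b) * (om / m) = om / m + emb b * (a * om / 4)) ∧
      (∀ k : ℕ, emb ((k : OO A B) * del) * (a * om / 4) = k * (emb (del : OO A B) * (a * om / 4))) ∧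
      4 * (emb (del : OO A B) * (a * om / 4)) ∈ L.lattice ∧
      2 * (emb (del : OO A B) * (a * om / 4)) ∉ L.lattice ∧
      ∀ Y, 4 * Y ∈ L.lattice → ∃ b : OO A B, Y - emb b * (a * om / 4) ∈ L.lattice

/-- (SIG) integral elements of the ray class field are polynomials in `x(P)`, `P = om/m`. Model `E_SIG.lean`.

Uses Sd_COE, Sd_GRT, Sd_TPT, Sd_UNR, Sd_DEG, Se_BAS (`Pool.Agent.NSE`). PROOF. `M = RF (m a)`, `M₀ = RF (f a)`, `m a = 2^(n+2) (f a)`. `GoodT.tor`: `e = ℘ w1`, `u² = ℘ w2 - ℘ w1`, `3 w_i ∈ L`: `e, u² ∈ RF (3) ≤ M₀` (`3 ∣ f`; `xn L w_i = ℘ w_i - 1/12`, `te_FAC`). `k` with `2^(n+2) k ≡ 1` modulo `f`, `P₀ = 2^(n+2) k P`, `P₁ = P - P₀`: `f P₀ ∈ L`,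
`2 P₀ ∉ L` (`f ≥ 3` odd, `k` prime to `f`), `2^(n+2) P₁ ∈ L`, `2^(n+1) P₁ ∉ L` (`1 - 2^(n+2) k` is odd). `P₀, 2 P₀ ∉ InK` (TPT (1)), so `v(2 y + a1 x + a3) = 1` at `P₀` (`gv_DX`). `π = x(P) - x(P₀)`: `gnear`: `v(π) = v(t(P₁))`, so `v(π)^(3·4^(n+1)) = v 2` (TPT (2), `j = n + 1`). (BAS) with `N = 3·4^(n+1)` (DEG with `j = n + 1`, `f := f a`; UNR; `te_GAL`): `w = Σ a_i π^i`,
`a_i ∈ M₀`, `v a_i ≤ 1`. `h = Σ C(a_i) (X - C(x P₀))^i`. `s` is trivial on `M₀` (`AutC.triv`, `c - 1 ∈ (f a)`), so on `a_i`, `e`, `u²`, `x(P₀)`, and `s(xn L P) = xn L (emb c * P)`: `s(x P) = x(emb c * P)` (`x = (xn + 1/12 - e)/u²`). -/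
def Sd_SIG : Prop :=
  ∀ (A B : ℤ) (V : ValuationSubring ℂ) (n f a m : ℕ), SetE A B V n f a m →
    ∀ (L : PeriodPair) (om u e a1 a3 : ℂ), IsNL (⊤ : Ideal (OO A B)) L om →
    GoodT V L u e a1 a3 →
    ∀ w ∈ RF (idl (A := A) (B := B) (m * a)), V.valuation w ≤ 1 →
    ∃ h : ℂ[X], IntP V h ∧ w = h.eval (xu L u e (om / m)) ∧
      ∀ (c : OO A B) (s : ℂ ≃+* ℂ), AutC (idl (m * a)) c s → c - 1 ∈ idl (f * a) →
        s w = h.eval (xu L u e (emb c * (om / m)))

/-! ## The points -/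

/-- (NE1) the points that occur are not in the kernel of reduction. Model `E_NE1.lean`.

Uses Sd_TPT, Sd_GRT. PROOF. As `E_NE1.lean`. `2 z ∈ InK`: `2^j (2 z) ∈ InK` is killed by `f`, so in `L`: `2^j f ∣ 2^(j+1)`, `f ∣ 2`, false (`f ≥ 3` odd). -/
def Sd_NE1 : Prop :=
  ∀ (V : ValuationSubring ℂ) (L : PeriodPair) (u e a1 a3 : ℂ), GoodT V L u e a1 a3 →
    V.valuation (2 : ℂ) < 1 → ∀ (j f a : ℕ), 3 ≤ f → ¬ 2 ∣ f → ¬ 2 ∣ a → a.Coprime f →
      ∀ z : ℂ, ((2 ^ j * f : ℕ) : ℂ) * z ∈ L.lattice →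
        (∀ c : ℕ, (c : ℂ) * z ∈ L.lattice → 2 ^ j * f ∣ c) →
        ¬ InK V L (xu L u e) z ∧ ¬ InK V L (xu L u e) (2 * z) ∧ (a : ℂ) * z ∉ L.lattice ∧
        ∀ q : ℂ, (a : ℂ) * q ∈ L.lattice → q ∉ L.lattice → ¬ InK V L (xu L u e) q ∧
          ¬ InK V L (xu L u e) (z + q) ∧ ¬ InK V L (xu L u e) (z - q)

/-- (MUL) the isogenies `μ_i x : L_(i0) → L_i` have odd degree. Model `E_MUL.lean`. -/
def Sd_MUL : Prop :=
  ∀ (A B : ℤ) (V : ValuationSubring ℂ), CtxT A B V → ∀ (n : ℕ) (ι : Type) (R : Reps A B n ι),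
    n ≠ 0 → 2 ∣ n → ∀ (i : ι) (x : OO A B), x ∉ idl (A := A) (B := B) 2 →
      muX R i * emb x ≠ 0 ∧ Isg (R.L R.i0) (R.L i) (muX R i * emb x) ∧
      ∃ N : ℕ, ¬ 2 ∣ N ∧ ∀ z, muX R i * emb x * z ∈ (R.L i).lattice →
        (N : ℂ) * z ∈ (R.L R.i0).lattice

/-- (GPO) the values of `Θ_a` at the points `(i, x)` as rational functions over `V` of `x(P)`.

Uses Sd_COE, Sd_GRT, Sd_THT, Sd_NE1, Sd_MUL, Sd_UNR. PROOF. `μ = muX R i * emb x`, a model `u', e', a1', a3'` of `R.L i` (`CtxT.good`), `IsoT` by (MUL). `P, Q` from (THT); `κ = (u'²)^|H|`. `|H|` is even (`b_HRE`: `2 |H| + 1 = a²`, `a` odd, so `8 ∣ a² - 1`), `u'² = xn w2 - xn w1 ∈ RF (3)` (`GoodT.tor`), so `v(u'²)` is a power of `v 2` (UNR). `IsCoprime (c x) m`: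
`pt R m i (c x) = μ (emb c om_0/m)` has exact order `m` (`te_PT`; `m.primeFactors ⊆ (2 f).primeFactors`), so (NE1) applies (`j = n + 2`), and (THT) with `z = emb c * (om_0/m)`. `v(et) ≤ 1`: `et = 2 y + a1 x + a3`, `z ∉ InK` (`gInt_Y`). -/
def Sd_GPO : Prop :=
  ∀ (A B : ℤ) (V : ValuationSubring ℂ) (n f a m : ℕ), SetE A B V n f a m →
    ∀ (ι : Type) (R : Reps A B (2 * f) ι) (u e a1 a3 : ℂ), GoodT V (R.L R.i0) u e a1 a3 →
    ∀ (i : ι) (H : Finset ℂ), IsHalf (R.L i) (a : ℂ) H →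
    ∀ x : OO A B, x ∉ idl (A := A) (B := B) 2 →
    ∃ (κ : ℂ) (k : ℤ) (P Q : ℂ[X]), IntP V P ∧ IntP V Q ∧
      V.valuation κ = (V.valuation (2 : ℂ) ^ k) ^ 2 ∧
      ∀ c : OO A B, IsCoprime (c * x) ((m : ℕ) : OO A B) →
        V.valuation (xu (R.L R.i0) u e (emb c * (R.om R.i0 / m))) ≤ 1 ∧
        V.valuation (et (R.L R.i0) u (emb c * (R.om R.i0 / m))) ≤ 1 ∧
        V.valuation (P.eval (xu (R.L R.i0) u e (emb c * (R.om R.i0 / m)))) = 1 ∧
        V.valuation (Q.eval (xu (R.L R.i0) u e (emb c * (R.om R.i0 / m)))) = 1 ∧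
        ThetaH (R.L i) H (pt R m i (c * x)) *
            Q.eval (xu (R.L R.i0) u e (emb c * (R.om R.i0 / m))) =
          κ * P.eval (xu (R.L R.i0) u e (emb c * (R.om R.i0 / m))) ∧
        muX R i * emb x * dlX (R.L i) a (pt R m i (c * x)) / u =
          dlg P Q (xu (R.L R.i0) u e (emb c * (R.om R.i0 / m))) *
            et (R.L R.i0) u (emb c * (R.om R.i0 / m))

/-! ## The two estimates -/

/-- (SQR) squares, for products over arbitrary finite families of points `(i, x)`.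

Uses Sd_LAG, Sd_PRD, Sd_COE, Sd_DST, Sd_AUT, Sd_GTA, Sd_CON, Sd_SIG, Sd_NE1, Sd_GPO. PROOF. `N = 2^n f a`, `c_b = cc N b`, `P = om_0/m`, `P, 2 P ∉ InK` (NE1; exact order `m`: `te_PT` for `i0`, `x = 1`). The elements `q = (i, x)` of all `X j`: `κ_q, k_q, P_q, Q_q` from (GPO) (`x` is prime to `m`, so not in `(2)`). `v(y)² = ∏ v(κ_q)^(g_j) = v(2)^(2 K)`, `K = Σ g_j k_q`
(GPO with `c = 1`): `v(y) = v(2)^K` (`y ≠ 0`), `w = y/2^K ∈ RF m ≤ RF (m a)`, `v w = 1`. (SIG): `h`. For `b ∈ O` let `s_b` be an automorphism with `AutC (idl (m a)) c_b s_b` (AUT, CON), `ξ_b = xu (emb c_b * P) = xu (P + emb b * (a om_0/4))`. `s_b(Θ(z)) = Θ(emb c_b z) = Θ(pt R m i (c_b x))` (GTA) and (GPO) with `c = c_b`: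
`s_b(y)² = ∏ (κ_q P_q(ξ_b)/Q_q(ξ_b))^(g_j) = κ₀ P(ξ_b)/Q(ξ_b)`, `κ₀ = ∏ κ_q^(g_j)`, `v κ₀ = v(2)^(2K)`, with `P, Q` from (PRD) for the finite family of the `(j, q)` (`J := Σ j, X j`, or the finset `Finset.univ.sigma X`), `T = {ξ_b}`. `s_b(y) = 2^K h(ξ_b)` (SIG; `2^K` is rational). So `P(ξ_b) = κ h(ξ_b)² Q(ξ_b)`, `κ = 4^K/κ₀`, `v κ = 1`, for all `b ∈ O`, in particular at `ξ_0 = xu P`.
(DST (1)): `S`; its elements are `xu (P + Y)`, `4 Y ∈ L`, `Y ≡ emb b (a om_0/4)` (CON), so they are some `ξ_b`. (DST (2)) with `R = emb del (a om_0/4)`: `S'`; its elements are `xu (P + k R) = ξ_(k del)`, and `h(ξ_(k del)) = s w = w = h(ξ_0)` since `s y = y` by hypothesis. (LAG (4)): `v(P' Q - P Q')² ≤ max (v(2)² v(2)) (v(2)⁴) ≤ v(2)³` at `ξ_0`, so `v(dlg P Q ξ_0)² ≤ v(2)³`.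
The sum is `Σ g_j emb x muX dlX/u = Σ g_j dlg P_q Q_q (ξ_0) et(P) = dlg P Q (ξ_0) et(P)` (GPO with `c = 1`: `emb 1 = 1`, `1 * x = x`; PRD), `v(et P) ≤ 1`. -/
def Sd_SQR : Prop :=
  ∀ (A B : ℤ) (V : ValuationSubring ℂ) (n f a m : ℕ), SetE A B V n f a m →
    ∀ (ι : Type) (R : Reps A B (2 * f) ι) (u e a1 a3 : ℂ), GoodT V (R.L R.i0) u e a1 a3 →
    ∀ (H : ι → Finset ℂ), (∀ i, IsHalf (R.L i) (a : ℂ) (H i)) →
    ∀ (J : Type) [Fintype J] (X : J → Finset (ι × OO A B)) (g : J → ℤ),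
      (∀ j, ∀ q ∈ X j, IsCoprime q.2 ((m : ℕ) : OO A B)) →
      (∃ y ∈ RF (idl (A := A) (B := B) m),
        (∀ (k : ℕ) (s : ℂ ≃+* ℂ),
          AutC (idl (m * a)) (cc (2 ^ n * f * a) ((k : OO A B) * del)) s → s y = y) ∧
        y ^ 2 = ∏ j, (∏ q ∈ X j, ThetaH (R.L q.1) (H q.1) (pt R m q.1 q.2)) ^ g j) →
      V.valuation ((∑ j, (g j : ℂ) * ∑ q ∈ X j, emb q.2 * muX R q.1 *
        dlX (R.L q.1) a (pt R m q.1 q.2)) / u) ^ 2 ≤ V.valuation (2 : ℂ) ^ 3

/-- (ORB) the sum over one orbit of `1 + N del`, `N = 2^n f a`.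

Uses Sd_LAG, Sd_PRD, Sd_COE, Sd_DST, Sd_CON, Sd_NE1, Sd_GPO. PROOF. `c_k = cc N (k del)`, `P = om_0/m`, `ξ_j = xu (emb c_j P) = xu (P + j R)`, `R = emb del (a om_0/4)` (CON). (1) (GPO) with `c = 1`: `v(muX emb x dlX/u) ≤ 1` (`P, Q` over `V` with unit values at `ξ_0 ∈ V`), `v(emb x) = 1` (`CtxT.unit`; `x` is prime to `m`, so not in `(2)`).
(2) `Θ` and `dlX` at `pt R m i x` depend only on `x` modulo `m` (periodic: `b_TIN`, `b_TDL`; `pt` by `te_PT`). Let `x_k = c_k x` (`k = 0..3`), prime to `m`; `κ_k, P_k, Q_k` from (GPO) for `x_k`. For `c = c_j`: `c_j x_k ≡ c_(j+k) x` modulo `m` (CON (3)), `c_4 ≡ 1`, so `∏_k Θ(pt (c_j x_k)) = ∏_(k<4) Θ(pt (c_(j+k) x))` does not depend on `j < 4`; so `∏_k κ_k P_k(ξ_j)/Q_k(ξ_j)` does not depend on `j`,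
and with `P, Q` from (PRD) (exponents `1`): `P(ξ_j) Q(ξ_0) = P(ξ_0) Q(ξ_j)`. (DST (2)), (LAG (3)): `v(dlg P Q ξ_0)² ≤ v 2`. So `Σ_k muX emb(x_k) dlX(pt x_k)/u = dlg P Q (ξ_0) et(P)` has `v(..)² ≤ v 2`. `emb x_k - emb x = emb x N k emb del`, `v ≤ v(4)` (`n ≥ 2`), `v(muX dlX(pt x_k)/u) ≤ 1` by (1), so `v(emb x Σ_k muX dlX(pt x_k)/u)² ≤ max (v 2) (v(4)²) = v 2`. -/
def Sd_ORB : Prop :=
  ∀ (A B : ℤ) (V : ValuationSubring ℂ) (n f a m : ℕ), SetE A B V n f a m →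
    ∀ (ι : Type) (R : Reps A B (2 * f) ι) (u e a1 a3 : ℂ), GoodT V (R.L R.i0) u e a1 a3 →
    ∀ (i : ι) (H : Finset ℂ), IsHalf (R.L i) (a : ℂ) H →
    ∀ x : OO A B, IsCoprime x ((m : ℕ) : OO A B) →
      V.valuation (muX R i * dlX (R.L i) a (pt R m i x) / u) ≤ 1 ∧
      ∀ y : ℕ → OO A B,
        (∀ k < 4, y k - cc (2 ^ n * f * a) ((k : OO A B) * del) * x ∈ idl m) →
        V.valuation ((∑ k ∈ Finset.range 4, muX R i * dlX (R.L i) a (pt R m i (y k))) / u) ^ 2 ≤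
          V.valuation (2 : ℂ)

/-! ## The sets `XX` -/

/-- (GLC) the automorphisms `1 + k N del` are trivial on `D`.

Uses Sd_CON. PROOF. `InCyc` for `s`: `AutC.fix`; `AutC.triv` with `m' = idl (2 f)` (`c - 1 ∈ (4 f) ≤ (2 f)`, `2 f ∣ m a`); `z^(2^(n+2)) = 1`: `s z = z^(1 + 2^(n+2) j) = z` (`AutC.zeta` with `M = 2^(n+2)`, CON (2)). -/
def Sd_GLC : Prop :=
  ∀ (A B : ℤ) (V : ValuationSubring ℂ) (n f a m : ℕ), SetE A B V n f a m →
    ∀ D : IntermediateField ℚ ℂ, InCyc A B f (2 ^ (n + 2)) D → ∀ (k : ℕ) (s : ℂ ≃+* ℂ),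
      AutC (idl (m * a)) (cc (2 ^ n * f * a) ((k : OO A B) * del)) s → ∀ y ∈ D, s y = y

/-- (XXS) stability of `XX` under `-1` and under `c`.

PROOF. Let `q = (i, X) ∈ XX`, `x = out X`, `σ` as in `XX`. (1) `out (-X) ≡ -x` modulo `m`: prime to `m`; `xn` is even and periodic, `pt R m i` of two elements which are congruent modulo `m` differ by an element of `L_i` (`te_PT` or directly: `om_i N(b_i) emb y`, `N(b_i) ∈ b_i`): `Hits` for the same `σ`. (2) `σ' = σ.trans s` (first `σ`): `FixK`, `ExtC` (`s` is trivial on `D`),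
`kap (R.L i) = s (σ ..)` (`AutC.kap`), `s (xn L_i (pt R m i x)) = xn L_i (emb c * pt R m i x) = xn L_i (pt R m i x')`, `x' = out (c X) ≡ c x`; `emb c * pt ∉ L_i` (`AutC.xn`; `Tor (idl (m a))` of the point: `m pt ∈ L_i`). `c x` is prime to `m`. -/
def Sd_XXS : Prop :=
  ∀ (A B : ℤ) (V : ValuationSubring ℂ) (n f a m : ℕ), SetE A B V n f a m →
    ∀ (ι : Type) (R : Reps A B (2 * f) ι) (D : IntermediateField ℚ ℂ) (h : kk A B ≤ D),
    letI := algC h
    ∀ (τ : D ≃ₐ[kk A B] D), ∀ q ∈ XX R m h τ, (q.1, -q.2) ∈ XX R m h τ ∧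
      ∀ (c : OO A B) (s : ℂ ≃+* ℂ), IsCoprime c ((m : ℕ) : OO A B) → AutC (idl (m * a)) c s →
        (∀ y ∈ D, s y = y) → (q.1, Ideal.Quotient.mk (idl (A := A) (B := B) m) c * q.2) ∈ XX R m h τ

/-- (HEQ) sums and products of even functions over half systems.

Uses Sd_XXS. PROOF. `S` is in bijection with `S'`: `q ↦ q` if `q ∈ S'`, `q ↦ (q.1, -q.2)` otherwise (`cov`, `dis`; `Finset.prod_bij'`). `XX` is the disjoint union of `S` and its image under `-1` (`sub`, `cov`, `dis`, XXS): `finsum_mem_coe_finset`. -/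
def Sd_HEQ : Prop :=
  ∀ (A B : ℤ) (V : ValuationSubring ℂ) (n f a m : ℕ), SetE A B V n f a m →
    ∀ (ι : Type) (R : Reps A B (2 * f) ι) (D : IntermediateField ℚ ℂ) (h : kk A B ≤ D),
    letI := algC h
    ∀ (τ : D ≃ₐ[kk A B] D) (S : Finset (ι × (OO A B ⧸ idl (A := A) (B := B) m))),
      HalfS R m h τ S → ∀ F : ι × (OO A B ⧸ idl (A := A) (B := B) m) → ℂ,
      (∀ q ∈ XX R m h τ, F (q.1, -q.2) = F q) →
      (∀ S', HalfS R m h τ S' → ∏ q ∈ S, F q = ∏ q ∈ S', F q) ∧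
      ∑ᶠ q ∈ XX R m h τ, F q = 2 * ∑ q ∈ S, F q

/-- (HAL) half systems which are stable under `1 + N del`.

Uses Sd_CON, Sd_XXS. PROOF. `XX` is finite (`ι` and `O/m` are finite). For `X ∈ O/m` let `r(X) ∈ O/(f)` be the class of `out X` (`f ∣ m`): `r(-X) = -r(X)`, `r(c X) = r(X)` (`c - 1 ∈ (4 f) ≤ (f)`), `r(X) ≠ -r(X)` if `out X` is prime to `m` (otherwise `f ∣ 2 x`, `f` odd, so `f ∣ x` with `x` prime to `f ≥ 3`, false). Take an injection `j` of the finite (or countable) set `O/(f)` into `ℕ` and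
`S = {q ∈ XX : j(r(q.2)) < j(-r(q.2))}`. -/
def Sd_HAL : Prop :=
  ∀ (A B : ℤ) (V : ValuationSubring ℂ) (n f a m : ℕ), SetE A B V n f a m →
    ∀ (ι : Type) [Finite ι] (R : Reps A B (2 * f) ι) (D : IntermediateField ℚ ℂ)
      (h : kk A B ≤ D),
    letI := algC h
    ∀ (τ : D ≃ₐ[kk A B] D),
      (∀ q ∈ XX R m h τ, (q.1, Ideal.Quotient.mk (idl (A := A) (B := B) m) (cc (2 ^ n * f * a) del) * q.2) ∈
        XX R m h τ) →
      ∃ S : Finset (ι × (OO A B ⧸ idl (A := A) (B := B) m)), HalfS R m h τ S ∧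
        ∀ q ∈ S, (q.1, Ideal.Quotient.mk (idl (A := A) (B := B) m) (cc (2 ^ n * f * a) del) * q.2) ∈ S

/-- (PRT) a finite set with a free action of the cyclic group of order 4 is a union of orbits.

PROOF. Induction on the number of elements of `S`: for `q ∈ S` the elements `φ^[k] q`, `k < 4`, are different (`φ^[2] q ≠ q` and `φ^[4] q = q`; `φ^[1] q = q` or `φ^[3] q = q` would give `φ^[2] q = q`; `φ` is injective on `S`); remove them from `S`: the rest is stable under `φ` (if `φ r = φ^[k] q` then `r = φ^[4] r = φ^[k+3] q`). -/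
def Sd_PRT : Prop :=
  ∀ (α : Type) (S : Finset α) (φ : α → α), (∀ q ∈ S, φ q ∈ S) → (∀ q ∈ S, φ^[4] q = q) →
    (∀ q ∈ S, φ^[2] q ≠ q) →
    ∃ T ⊆ S, ∀ F : α → ℂ, ∑ q ∈ S, F q = ∑ t ∈ T, ∑ k ∈ Finset.range 4, F (φ^[k] t)

/-- (MAIN) both estimates for families of sets of pairs which are stable under `c = 1 + N del`.

Uses Sd_CON, Sd_SQR, Sd_ORB, Sd_PRT. PROOF. `φ q = (q.1, c q.2)`; `φ^[k] q = (q.1, c^k q.2)` and `c^k ≡ c_k := cc N (k del)` modulo `m` (CON (3), induction), `c_4 ≡ 1`, `φ^[2] q ≠ q` (CON (5)): (PRT) gives `T_j`. `F q = om(out q.2) muX dlX(..)/u`. `y_k = out ((φ^[k] t).2) ≡ c_k out(t.2)` modulo `m`: `om(y_k) = om(out t.2)` (`OddT.per`; `2 f ∣ m`, `c_k - 1 ∈ (4 f)`),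
`v(om(..)) ≤ 1` (`OddT.cong`, `CtxT.int`). (i) `Σ_k F(φ^[k] t) = om(out t.2) Σ_k muX dlX(pt y_k)/u`, by (ORB (2)) `v(..)² ≤ v 2`; sum over `t`. (ii) (SQR) for `X j = {(q.1, out q.2) : q ∈ S j}`: `v(Σ g_j Σ_q emb(out q.2) E q)² ≤ v(2)³`, `E q = muX dlX/u`, `v(E q) ≤ 1` (ORB (1)). The difference to the claim is `Σ_j g_j Σ_(t ∈ T_j) D_t`,
`D_t = Σ_k (om(y_k) - emb(y_k)) E(φ^[k] t) = (om(x) - emb(x)) Σ_k E(φ^[k] t) - Σ_k (emb(y_k) - emb(x)) E(φ^[k] t)`, `x = out t.2`: `v(first)² ≤ v(2)² v(2)` (`OddT.cong`, ORB (2)), `v(second) ≤ v(4)` (`y_k - x ∈ (4)`). -/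
def Sd_MAIN : Prop :=
  ∀ (A B : ℤ) (V : ValuationSubring ℂ) (n f a m : ℕ), SetE A B V n f a m →
    ∀ (ι : Type) (R : Reps A B (2 * f) ι) (u e a1 a3 : ℂ), GoodT V (R.L R.i0) u e a1 a3 →
    ∀ (H : ι → Finset ℂ), (∀ i, IsHalf (R.L i) (a : ℂ) (H i)) →
    ∀ om : OO A B → ℂ, OddT f V om →
    ∀ (J : Type) [Fintype J] (S : J → Finset (ι × (OO A B ⧸ idl (A := A) (B := B) m))),
      (∀ j, ∀ q ∈ S j, IsCoprime (Quotient.out q.2 : OO A B) ((m : ℕ) : OO A B)) →
      (∀ j, ∀ q ∈ S j,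
        (q.1, Ideal.Quotient.mk (idl (A := A) (B := B) m) (cc (2 ^ n * f * a) del) * q.2) ∈ S j) →
      (∀ j, V.valuation ((∑ q ∈ S j, om (Quotient.out q.2) * muX R q.1 *
        dlX (R.L q.1) a (pt R m q.1 (Quotient.out q.2))) / u) ^ 2 ≤ V.valuation (2 : ℂ)) ∧
      ∀ g : J → ℤ,
        (∃ y ∈ RF (idl (A := A) (B := B) m),
          (∀ (k : ℕ) (s : ℂ ≃+* ℂ),
            AutC (idl (m * a)) (cc (2 ^ n * f * a) ((k : OO A B) * del)) s → s y = y) ∧
          y ^ 2 = ∏ j, (∏ q ∈ S j,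
            ThetaH (R.L q.1) (H q.1) (pt R m q.1 (Quotient.out q.2))) ^ g j) →
        V.valuation ((∑ j, (g j : ℂ) * ∑ q ∈ S j, om (Quotient.out q.2) * muX R q.1 *
          dlX (R.L q.1) a (pt R m q.1 (Quotient.out q.2))) / u) ^ 2 ≤ V.valuation (2 : ℂ) ^ 3

/-- (FIN) the final form.

Uses Sd_CTX, Sd_AUT, Sd_CON, Sd_GLC, Sd_XXS, Sd_HEQ, Sd_HAL, Sd_MAIN. PROOF. `m = lvX 2 f n = f * 4 * 2^n = 2^(n+2) f`, `a = aX 2 f = 1 + 8 f`, `f ≥ 3` (`3 absD ∣ f`), `SetE` (CTX). `c = cc N del`, `s` with `AutC (idl (m a)) c s` (AUT, CON; a normalised lattice exists: `R.nl`), trivial on `D` (GLC with `k = 1`): (XXS), (HAL): stable half systems `S τ`. `C τ = ∏_(q ∈ S τ) Θ` (HEQ; `Θ` is even and periodic, `b_TIN`).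
`TT2 = 1/2 · 2 Σ_(q ∈ S τ) om muX dlX` (HEQ: the function is even, since `om` and `dlX` are odd: `om (out (-X)) = om (-out X)` by `OddT.per`; `dlX` is odd and periodic, `b_TDL`, or `ee`). First claim: (MAIN (i)), `J = Unit`. Second claim: `J = D ≃ₐ D` (finite: `D` is contained in `RF m`; `τ ↦ C τ`), `S j := S (j τ')`, `y' = τ' y ∈ D`: `y'² = ∏ C(τ τ')^(g τ)`, because
`τ'(C τ) = τ'(τ(C 1)) = C(τ' τ) = C(τ τ')` (`Gal(D/k)` is commutative: extend to `ℂ` (`TorX.ext`), restrict to `RF m` (`TorX.comm`); see `E_MAIN.lean`, `E_FIN.lean` and `Pool/Agent/MUX/E_MAIN0.lean`), `y' ∈ D` is fixed by all `s` (GLC), (MAIN (ii)). -/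
def Sd_FIN : Prop := S2_RFIN → S2_EFIN

end

end Pool.Agent.N2E


end

section

/-!
# MUX-2N, block E2N, module XXS: stability of the sets `XX` (helper96)
-/

set_option autoImplicit false

namespace Pool.Agent.N2E

open _root_.MU3 _root_.Pool.Agent.MU3A _root_.Pool.Agent.MU3B _root_.Pool.Agent.MUX _root_.Pool.Agent.MUXU _root_.Pool.Agent.MUXE
open _root_.Pool.Agent.RI _root_.Pool.Agent.NS _root_.Pool.Agent.N2

noncomputable section

namespace XXS

/-- congruent elements give congruent points -/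
lemma pt_cong {A B : ℤ} (hr : RingE A B) {n : ℕ} {ι : Type} (R : Reps A B n ι)
    (hn : n ≠ 0) (i : ι) {m : ℕ} (hm0 : m ≠ 0) {x y : OO A B}
    (hy : x - y ∈ idl (A := A) (B := B) m) :
    pt R m i x - pt R m i y ∈ (R.L i).lattice := by
  obtain ⟨hmu0, hmuL, -, -⟩ := te_PT te_TRA A B hr n ι R hn i
  obtain ⟨t, ht⟩ := Ideal.mem_span_singleton.1 hy
  obtain ⟨φ, hφ⟩ := hr.hom
  have e1 : emb x = (m : ℂ) * emb t + emb y := by
    have : x = ((m : ℕ) : OO A B) * t + y := by rw [← ht]; ring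
    rw [this, ← hφ, ← hφ, ← hφ, map_add, map_mul, map_natCast]
  have hmc : (m : ℂ) ≠ 0 := by exact_mod_cast hm0
  have hu : R.om R.i0 * emb t ∈ (R.L R.i0).lattice := by
    rw [(R.nl R.i0).mem]
    exact ⟨t, by rw [R.b0]; trivial, rfl⟩
  have h5 := hmuL _ hu
  have hom : R.om R.i0 ≠ 0 := (R.nl R.i0).om_ne
  have e4 : muX R i * (R.om R.i0 * emb t) = pt R m i x - pt R m i y := by
    unfold muX pt
    rw [e1]
    field_simp
    ring
  rwa [e4] at h5

/-- the point of level `m` is killed by `m` -/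
lemma pt_mul {A B : ℤ} (hr : RingE A B) {n : ℕ} {ι : Type} (R : Reps A B n ι)
    (hn : n ≠ 0) (i : ι) {m : ℕ} (hm0 : m ≠ 0) (x : OO A B) :
    (m : ℂ) * pt R m i x ∈ (R.L i).lattice := by
  obtain ⟨hmu0, hmuL, -, -⟩ := te_PT te_TRA A B hr n ι R hn i
  have hmc : (m : ℂ) ≠ 0 := by exact_mod_cast hm0
  have hu : R.om R.i0 * emb x ∈ (R.L R.i0).lattice := by
    rw [(R.nl R.i0).mem]
    exact ⟨x, by rw [R.b0]; trivial, rfl⟩
  have h5 := hmuL _ hu
  have hom : R.om R.i0 ≠ 0 := (R.nl R.i0).om_ne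
  have e4 : muX R i * (R.om R.i0 * emb x) = (m : ℂ) * pt R m i x := by
    unfold muX pt
    field_simp
  rwa [e4] at h5

/-- `c x ≡ y` modulo `m` implies that `y` is prime to `m` -/
lemma cop_of {A B : ℤ} {m : ℕ} {x y : OO A B} (hx : IsCoprime x ((m : ℕ) : OO A B))
    (h : x - y ∈ idl (A := A) (B := B) m) : IsCoprime y ((m : ℕ) : OO A B) := by
  obtain ⟨t, ht⟩ := Ideal.mem_span_singleton.1 h
  have e1 : y = x + ((m : ℕ) : OO A B) * (-t) := by
    have : y = x - ((m : ℕ) : OO A B) * t := by rw [← ht]; ring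
    rw [this]; ring
  rw [e1]
  exact IsCoprime.add_mul_left_left hx _

end XXS

open _root_.Pool.Agent.N2E.XXS in
theorem td_XXS : Sd_XXS := by
  intro A B V n f a m hS ι R D h
  letI := algC h
  intro τ q hq
  have hr := hS.ctx.ring
  have hf : f ≠ 0 := by have := hS.f3; omega
  have hm0 : m ≠ 0 := by rw [hS.hm]; positivity
  have h2f : 2 * f ≠ 0 := by omega
  have hNL : NL A B (R.L q.1) := ⟨R.b q.1, R.om q.1, R.nl q.1⟩
  obtain ⟨t1, -, t3, -, t5, -, -, -, t9⟩ := te_TRA A B hr (R.L q.1) hNL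
  obtain ⟨φ, hφ⟩ := hr.hom
  obtain ⟨a1, σ, a2, a3, ⟨a4, a5, a6⟩⟩ := hq
  refine ⟨?_, ?_⟩
  · -- `-1`
    have hmk : -(Quotient.out q.2 : OO A B) - Quotient.out (-q.2) ∈
        idl (A := A) (B := B) m := by
      rw [← Ideal.Quotient.eq_zero_iff_mem, map_sub, map_neg, Ideal.Quotient.mk_out,
        Ideal.Quotient.mk_out]
      exact sub_self _
    refine ⟨cop_of a1.neg_left hmk, σ, a2, a3, a4, ?_⟩
    have e1 := pt_cong hr R h2f q.1 hm0 hmk
    have e2 : pt R m q.1 (-(Quotient.out q.2 : OO A B)) = -pt R m q.1 (Quotient.out q.2) := by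
      unfold pt
      rw [← hφ, ← hφ, map_neg]
      ring
    rw [e2] at e1
    have hnz : -(pt R m q.1 (Quotient.out q.2 : OO A B)) ∉ (R.L q.1).lattice :=
      fun h => a6 (by simpa using neg_mem h)
    obtain ⟨b1, b2⟩ := t9 _ _ e1
    obtain ⟨c1, -, c3⟩ := b2 hnz
    refine ⟨?_, fun h => hnz (b1.2 h)⟩
    rw [a5, ← c1, ← c3, neg_neg]
  · intro c s hc hs hsD
    have hmk : c * (Quotient.out q.2 : OO A B) -
        Quotient.out (Ideal.Quotient.mk (idl (A := A) (B := B) m) c * q.2) ∈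
        idl (A := A) (B := B) m := by
      rw [← Ideal.Quotient.eq_zero_iff_mem, map_sub, map_mul, Ideal.Quotient.mk_out,
        Ideal.Quotient.mk_out]
      exact sub_self _
    refine ⟨cop_of (hc.mul_left a1) hmk, σ.trans s, ?_, ?_, ?_, ?_⟩
    · show s (σ (wC A B)) = wC A B
      rw [show σ (wC A B) = wC A B from a2]
      exact hs.fix
    · intro y
      show s (σ (y : ℂ)) = _
      rw [a3 y]
      exact hsD _ (τ y).2
    · show kap (R.L q.1) = s (σ (kap (R.L R.i0)))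
      rw [← a4]
      exact (hs.kap _ hNL).symm
    · have hma : Tor (idl (A := A) (B := B) (m * a)) (R.L q.1)
          (pt R m q.1 (Quotient.out q.2 : OO A B)) := by
        rw [show idl (A := A) (B := B) (m * a) = sp ((m * a : ℕ) : OO A B) from rfl, t5]
        have e3 : emb ((m * a : ℕ) : OO A B) = (a : ℂ) * m := by
          rw [← hφ, map_natCast]
          push_cast
          ring
        rw [e3, mul_assoc]
        have h7 := nsmul_mem (pt_mul hr R h2f q.1 hm0 (Quotient.out q.2 : OO A B)) a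
        rwa [nsmul_eq_mul] at h7
      obtain ⟨d1, d2⟩ := hs.xn _ hNL _ hma a6
      have e1 := pt_cong hr R h2f q.1 hm0 hmk
      have e2 : pt R m q.1 (c * (Quotient.out q.2 : OO A B)) =
          emb c * pt R m q.1 (Quotient.out q.2) := by
        unfold pt
        rw [← hφ, ← hφ, ← hφ, map_mul]
        ring
      rw [e2] at e1
      obtain ⟨b1, b2⟩ := t9 _ _ e1
      obtain ⟨c1, -, -⟩ := b2 d1
      refine ⟨?_, fun h => d1 (b1.2 h)⟩
      show s (σ (xn (R.L R.i0) (pt R m R.i0 1))) = _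
      rw [a5, d2, c1]

end

end Pool.Agent.N2E


end

section

/-!
# MUX-2N, block E2N: module HAL, half systems which are stable under `1 + N del`
-/

set_option autoImplicit false

open Polynomial

namespace Pool.Agent.N2E

open _root_.MU3 _root_.Pool.Agent.MU3A _root_.Pool.Agent.MU3B _root_.Pool.Agent.MUX _root_.Pool.Agent.MUXU _root_.Pool.Agent.MUXE
open _root_.Pool.Agent.RI _root_.Pool.Agent.NS _root_.Pool.Agent.N2
open _root_.Pool.Agent.NSE (IntP)
open _root_.Pool.Agent.MUX2 (GRG)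
open _root_.Pool.Agent.MUXV (InK tX)

noncomputable section

namespace HAL

variable {A B : ℤ}

lemma not_unit {f : ℕ} (hf : 3 ≤ f) : ¬ IsUnit ((f : ℕ) : OO A B) := by
  intro hu
  obtain ⟨y, hy⟩ := hu.exists_right_inv
  have h1 := congrArg QuadraticAlgebra.re hy
  rw [QuadraticAlgebra.re_mul, QuadraticAlgebra.re_natCast, QuadraticAlgebra.im_natCast,
    QuadraticAlgebra.re_one] at h1
  have h2 : (f : ℤ) ∣ 1 := ⟨y.re, by linear_combination -h1⟩
  have h3 := Int.le_of_dvd one_pos h2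
  omega

lemma two_mul_notMem {f m : ℕ} (hf : 3 ≤ f) (h2 : ¬ 2 ∣ f) (hfm : f ∣ m) {x : OO A B}
    (hx : IsCoprime x ((m : ℕ) : OO A B)) : 2 * x ∉ idl (A := A) (B := B) f := by
  intro h0
  have h1 : ((f : ℕ) : OO A B) ∣ 2 * x := Ideal.mem_span_singleton.1 h0
  have hc : IsCoprime ((f : ℕ) : OO A B) 2 := by
    have h3 : Nat.Coprime f 2 := ((Nat.Prime.coprime_iff_not_dvd Nat.prime_two).2 h2).symm
    have h4 : IsCoprime (f : ℤ) ((2 : ℕ) : ℤ) := Nat.isCoprime_iff_coprime.2 h3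
    have h5 := h4.map (Int.castRingHom (OO A B))
    simpa using h5
  have h6 : ((f : ℕ) : OO A B) ∣ x := hc.dvd_of_dvd_mul_left h1
  have h7 : ((f : ℕ) : OO A B) ∣ ((m : ℕ) : OO A B) := by
    obtain ⟨k, rfl⟩ := hfm
    exact ⟨(k : OO A B), by push_cast; ring⟩
  exact not_unit hf (hx.isUnit_of_dvd' h6 h7)

end HAL

open _root_.Pool.Agent.N2E.HAL in
/-- HAL. -/
theorem td_HAL (h1 : Sd_CON) (h2 : Sd_XXS) : Sd_HAL := by
  classical
  intro A B V n f a m hS ι _ R D h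
  letI := algC h
  intro τ hst
  have hcq := hS.ctx.cq
  have hf3 := hS.f3
  have hm : m ≠ 0 := by
    rw [hS.hm]
    exact mul_ne_zero (pow_ne_zero _ two_ne_zero) (by omega)
  have hfm : f ∣ m := by
    rw [hS.hm]
    exact dvd_mul_left _ _
  have hbot : ∀ k : ℕ, k ≠ 0 → idl (A := A) (B := B) k ≠ ⊥ := by
    intro k hk h0
    rw [Ideal.span_singleton_eq_bot] at h0
    exact natCast_ne_zero' hcq hk h0
  haveI : Finite (OO A B ⧸ idl (A := A) (B := B) m) := finite_quot hcq (hbot m hm)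
  haveI : Finite (OO A B ⧸ idl (A := A) (B := B) f) := finite_quot hcq (hbot f (by omega))
  have hle : idl (A := A) (B := B) m ≤ idl (A := A) (B := B) f := by
    rw [Ideal.span_singleton_le_span_singleton]
    obtain ⟨k, hk⟩ := hfm
    exact ⟨(k : OO A B), by rw [hk]; push_cast; ring⟩
  set r : (OO A B ⧸ idl (A := A) (B := B) m) →+* (OO A B ⧸ idl (A := A) (B := B) f) :=
    Ideal.Quotient.factor hle with hr
  have hrm : ∀ x : OO A B, r (Ideal.Quotient.mk _ x) = Ideal.Quotient.mk _ x := fun x =>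
    Ideal.Quotient.factor_mk hle x
  obtain ⟨j, hj⟩ := exists_injective_nat (OO A B ⧸ idl (A := A) (B := B) f)
  set c : OO A B := cc (2 ^ n * f * a) del with hc
  have hc1 : r (Ideal.Quotient.mk _ c) = 1 := by
    rw [hrm, ← map_one (Ideal.Quotient.mk (idl (A := A) (B := B) f)), Ideal.Quotient.eq]
    have h3 := ((h1 A B V n f a m hS).1 del).2.2.2.2.1
    rw [← hc] at h3
    have h4 : idl (A := A) (B := B) (4 * f) ≤ idl (A := A) (B := B) f := by
      rw [Ideal.span_singleton_le_span_singleton]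
      exact ⟨4, by push_cast; ring⟩
    exact h4 h3
  have hrc : ∀ X, r (Ideal.Quotient.mk _ c * X) = r X := by
    intro X
    rw [map_mul, hc1, one_mul]
  have hne : ∀ q ∈ XX R m h τ, r q.2 ≠ -r q.2 := by
    intro q hq h0
    have h3 : q.2 = Ideal.Quotient.mk _ (Quotient.out q.2 : OO A B) := (Quotient.out_eq q.2).symm
    have h4 : r q.2 + r q.2 = 0 := by
      nth_rewrite 1 [h0]
      exact neg_add_cancel _
    rw [h3, hrm, ← map_add, Ideal.Quotient.eq_zero_iff_mem, ← two_mul] at h4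
    exact two_mul_notMem hf3 hS.fo hfm hq.1 h4
  have hfin : {q | q ∈ XX R m h τ ∧ j (r q.2) < j (-r q.2)}.Finite := Set.toFinite _
  have hmem : ∀ q, q ∈ hfin.toFinset ↔ q ∈ XX R m h τ ∧ j (r q.2) < j (-r q.2) := by
    intro q
    rw [Set.Finite.mem_toFinset]
    rfl
  refine ⟨hfin.toFinset, ⟨?_, ?_, ?_⟩, ?_⟩
  · intro q hq
    exact ((hmem q).1 hq).1
  · intro q hq
    have h3 : j (r q.2) ≠ j (-r q.2) := fun h4 => hne q hq (hj h4)
    rcases lt_or_gt_of_ne h3 with h4 | h4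
    · exact Or.inl ((hmem q).2 ⟨hq, h4⟩)
    · right
      refine (hmem _).2 ⟨(h2 A B V n f a m hS ι R D h τ q hq).1, ?_⟩
      change j (r (-q.2)) < j (-r (-q.2))
      rw [map_neg, neg_neg]
      exact h4
  · intro q hq h3
    have h4 := ((hmem q).1 hq).2
    have h5 : j (r (-q.2)) < j (-r (-q.2)) := ((hmem _).1 h3).2
    rw [map_neg, neg_neg] at h5
    omega
  · intro q hq
    obtain ⟨h3, h4⟩ := (hmem q).1 hq
    refine (hmem _).2 ⟨hst q h3, ?_⟩
    change j (r (Ideal.Quotient.mk _ c * q.2)) < j (-r (Ideal.Quotient.mk _ c * q.2))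
    rw [hrc]
    exact h4

end

end Pool.Agent.N2E


end

section

/-!
# MUX-2N, block E2N, module HEQ (helper4): sums and products of even functions over half systems
-/

set_option autoImplicit false

namespace Pool.Agent.N2E

open _root_.MU3 _root_.Pool.Agent.MU3A _root_.Pool.Agent.MU3B _root_.Pool.Agent.MUX _root_.Pool.Agent.MUXU _root_.Pool.Agent.MUXE
open _root_.Pool.Agent.RI _root_.Pool.Agent.NS _root_.Pool.Agent.N2

noncomputable section

namespace HEQ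

variable {α : Type} [DecidableEq α] {X : Set α} {S S' : Finset α} {ν : α → α}

lemma prod_eq (hνν : ∀ q, ν (ν q) = q) (sub : ∀ q ∈ S, q ∈ X) (cov : ∀ q ∈ X, q ∈ S ∨ ν q ∈ S)
    (dis : ∀ q ∈ S, ν q ∉ S) (sub' : ∀ q ∈ S', q ∈ X) (cov' : ∀ q ∈ X, q ∈ S' ∨ ν q ∈ S')
    (dis' : ∀ q ∈ S', ν q ∉ S') (F : α → ℂ) (hF : ∀ q ∈ X, F (ν q) = F q) :
    ∏ q ∈ S, F q = ∏ q ∈ S', F q := by
  refine Finset.prod_bij' (fun q _ => if q ∈ S' then q else ν q)
    (fun q _ => if q ∈ S then q else ν q) ?_ ?_ ?_ ?_ ?_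
  · intro q hq
    by_cases h : q ∈ S'
    · simp only [if_pos h]; exact h
    · simp only [if_neg h]; exact (cov' q (sub q hq)).resolve_left h
  · intro q hq
    by_cases h : q ∈ S
    · simp only [if_pos h]; exact h
    · simp only [if_neg h]; exact (cov q (sub' q hq)).resolve_left h
  · intro q hq
    by_cases h : q ∈ S'
    · simp only [if_pos h, if_pos hq]
    · simp only [if_neg h, if_neg (dis q hq), hνν]
  · intro q hq
    by_cases h : q ∈ S
    · simp only [if_pos h, if_pos hq]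
    · simp only [if_neg h, if_neg (dis' q hq), hνν]
  · intro q hq
    by_cases h : q ∈ S'
    · simp only [if_pos h]
    · simp only [if_neg h]; exact (hF q (sub q hq)).symm

lemma sum_eq (hνν : ∀ q, ν (ν q) = q) (hν : ∀ q ∈ X, ν q ∈ X) (sub : ∀ q ∈ S, q ∈ X)
    (cov : ∀ q ∈ X, q ∈ S ∨ ν q ∈ S) (dis : ∀ q ∈ S, ν q ∉ S) (F : α → ℂ)
    (hF : ∀ q ∈ X, F (ν q) = F q) :
    ∑ᶠ q ∈ X, F q = 2 * ∑ q ∈ S, F q := by
  have h1 : X = ((S ∪ S.image ν : Finset α) : Set α) := by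
    ext q
    rw [Finset.mem_coe, Finset.mem_union, Finset.mem_image]
    constructor
    · intro hq
      rcases cov q hq with h | h
      · exact Or.inl h
      · exact Or.inr ⟨ν q, h, hνν q⟩
    · rintro (h | ⟨p, hp, rfl⟩)
      · exact sub q h
      · exact hν p (sub p hp)
  have h2 : Disjoint S (S.image ν) := by
    rw [Finset.disjoint_left]
    intro q hq h
    obtain ⟨p, hp, rfl⟩ := Finset.mem_image.1 h
    exact dis p hp hq
  have h3 : ∑ᶠ q ∈ X, F q = ∑ q ∈ S ∪ S.image ν, F q := by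
    rw [h1, finsum_mem_coe_finset]
  rw [h3, Finset.sum_union h2, Finset.sum_image (fun x _ y _ hxy => by
    have := congrArg ν hxy
    rwa [hνν, hνν] at this), two_mul]
  congr 1
  exact Finset.sum_congr rfl fun q hq => hF q (sub q hq)

end HEQ

theorem td_HEQ (h1 : Sd_XXS) : Sd_HEQ := by
  classical
  intro A B V n f a m hS ι R D h
  letI := algC h
  intro τ S hHS F hF
  have hνν : ∀ q : ι × (OO A B ⧸ idl (A := A) (B := B) m),
      (fun q : ι × (OO A B ⧸ idl (A := A) (B := B) m) => (q.1, -q.2))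
        ((fun q : ι × (OO A B ⧸ idl (A := A) (B := B) m) => (q.1, -q.2)) q) = q := by
    intro q
    simp
  refine ⟨fun S' hS' => ?_, ?_⟩
  · exact HEQ.prod_eq (ν := fun q => (q.1, -q.2)) hνν hHS.sub hHS.cov hHS.dis hS'.sub hS'.cov
      hS'.dis F hF
  · exact HEQ.sum_eq (ν := fun q => (q.1, -q.2)) hνν
      (fun q hq => (h1 A B V n f a m hS ι R D h τ q hq).1) hHS.sub hHS.cov hHS.dis F hF

end

end Pool.Agent.N2E


end

section

/-!
# MUX-2N, block E2N, module GRT: good reduction of the Deuring model (helper72)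

Models: `Pool/Agent/NS/E_GRN.lean` (helper2) and `Pool/Agent/MUX/R2_GR2.lean` (helper46).
-/

set_option autoImplicit false

open Polynomial

namespace Pool.Agent.N2E

open _root_.MU3 _root_.Pool.Agent.MU3A _root_.Pool.Agent.MU3B _root_.Pool.Agent.MUX _root_.Pool.Agent.MUXU _root_.Pool.Agent.MUXE
open _root_.Pool.Agent.RI _root_.Pool.Agent.NS _root_.Pool.Agent.N2
open _root_.Pool.Agent.NSE (IntP)
open _root_.Pool.Agent.MUX2 (GRG)
open _root_.Pool.Agent.MUXV (InK tX)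

noncomputable section

namespace GRT

open WeierstrassCurve.Affine

theorem some_eq {W : WeierstrassCurve.Affine ℂ} {x y x' y' : ℂ} (h : W.Nonsingular x y)
    (h' : W.Nonsingular x' y') (hx : x = x') (hy : y = y') :
    Point.some x y h = Point.some x' y' h' := by
  subst hx hy
  rfl

/-- the homomorphism -/
theorem hom (L : PeriodPair) (e v a b : ℂ) (hv : v ≠ 0) (E1 : 12 * e * v ^ 2 = a ^ 2)
    (E2 : (12 * e ^ 2 - L.g₂) * v ^ 4 = 2 * a * b)
    (E3 : (4 * e ^ 3 - L.g₂ * e - L.g₃) * v ^ 6 = b ^ 2) :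
    ∃ ξ : ℂ →+ (WT a b).Point, (∀ z ∈ L.lattice, ξ z = 0) ∧
      ∀ z, z ∉ L.lattice → ∃ h, ξ z = .some ((L.weierstrassP z - e) * v ^ 2)
        ((L.derivWeierstrassP z * v ^ 3 - a * ((L.weierstrassP z - e) * v ^ 2) - b) / 2) h := by
  classical
  set P : ℂ → ℂ := L.weierstrassP with hP
  set D : ℂ → ℂ := L.derivWeierstrassP with hD
  set X : ℂ → ℂ := fun z => (P z - e) * v ^ 2 with hX0
  set Y : ℂ → ℂ := fun z => (D z * v ^ 3 - a * ((P z - e) * v ^ 2) - b) / 2 with hY0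
  have hXe : ∀ z, X z = (P z - e) * v ^ 2 := fun _ => rfl
  have hYe : ∀ z, Y z = (D z * v ^ 3 - a * ((P z - e) * v ^ 2) - b) / 2 := fun _ => rfl
  set W : WeierstrassCurve.Affine ℂ := WT a b with hW
  have w1 : W.a₁ = a := rfl
  have w2 : W.a₂ = 0 := rfl
  have w3 : W.a₃ = b := rfl
  have w4 : W.a₄ = 0 := rfl
  have w6 : W.a₆ = 0 := rfl
  -- the facts
  have hsq : ∀ z, z ∉ L.lattice → D z ^ 2 = 4 * P z ^ 3 - L.g₂ * P z - L.g₃ :=
    fun z hz => L.derivWeierstrassP_sq z hz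
  have hpar : ∀ z, P (-z) = P z ∧ D (-z) = -D z := fun z =>
    ⟨L.weierstrassP_neg z, L.derivWeierstrassP_neg z⟩
  have hper : ∀ z, ∀ u ∈ L.lattice, P (z + u) = P z ∧ D (z + u) = D z := by
    intro z u hu
    exact ⟨L.weierstrassP_add_coe z ⟨u, hu⟩, L.derivWeierstrassP_add_coe z ⟨u, hu⟩⟩
  have hinj : ∀ z z', z ∉ L.lattice → z' ∉ L.lattice → P z = P z' →
      z - z' ∈ L.lattice ∨ z + z' ∈ L.lattice := fun z z' hz hz' hx =>
    b_NEQ L z' z hz' hz hx
  have hy0 : ∀ z, z ∉ L.lattice → (D z = 0 ↔ 2 * z ∈ L.lattice) := fun z hz => b_ZER L z hz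
  have hadd := b_ADD L
  have hdbl := b_DUP L
  have hv2 : v ^ 2 ≠ 0 := pow_ne_zero 2 hv
  have hv3 : v ^ 3 ≠ 0 := pow_ne_zero 3 hv
  have ns : ∀ z, z ∉ L.lattice → W.Nonsingular (X z) (Y z) := by
    intro z hz
    rw [WeierstrassCurve.Affine.nonsingular_iff', WeierstrassCurve.Affine.equation_iff, w1, w2, w3,
      w4, w6, hXe, hYe]
    refine ⟨by
      linear_combination (v ^ 6 / 4) * hsq z hz + ((P z - e) ^ 2 * v ^ 4 / 4) * E1 +
        ((P z - e) * v ^ 2 / 4) * E2 + (1 / 4 : ℂ) * E3, ?_⟩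
    by_contra hcon
    rw [not_or, not_not, not_not] at hcon
    obtain ⟨hx, hy⟩ := hcon
    have h1 := hsq z hz
    have h2 : D z = 0 := by
      apply mul_left_cancel₀ hv3
      linear_combination hy
    rw [h2] at h1 hx
    have e2 : L.g₂ = 12 * P z ^ 2 := by
      apply mul_left_cancel₀ (pow_ne_zero 4 hv)
      linear_combination 4 * hx - 2 * ((P z - e) * v ^ 2) * E1 - E2
    have e3 : L.g₃ = -8 * P z ^ 3 := by
      linear_combination h1 - P z * e2
    apply (b_DSC L).1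
    rw [e2, e3]
    ring
  set f : ℂ → W.Point := fun z => if h : z ∈ L.lattice then 0 else Point.some _ _ (ns z h) with hf
  have hf0 : ∀ z, z ∈ L.lattice → f z = 0 := fun z hz => dif_pos hz
  have hf1 : ∀ z (hz : z ∉ L.lattice), f z = Point.some _ _ (ns z hz) := fun z hz => dif_neg hz
  have hfper : ∀ z, ∀ u ∈ L.lattice, f (z + u) = f z := by
    intro z u hu
    by_cases hz : z ∈ L.lattice
    · rw [hf0 z hz, hf0 _ (add_mem hz hu)]
    · have hzu : z + u ∉ L.lattice := fun h => hz (by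
        have := sub_mem h hu
        rwa [add_sub_cancel_right] at this)
      rw [hf1 z hz, hf1 _ hzu]
      exact some_eq _ _ (by rw [hXe, hXe, (hper z u hu).1])
        (by rw [hYe, hYe, (hper z u hu).1, (hper z u hu).2])
  have hnegY : ∀ x y : ℂ, W.negY x y = -y - a * x - b := by
    intro x y
    rw [WeierstrassCurve.Affine.negY, w1, w3]
  have hmap : ∀ z z', f (z + z') = f z + f z' := by
    intro z z'
    by_cases hz : z ∈ L.lattice
    · rw [hf0 z hz, zero_add, add_comm z z', hfper z' z hz]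
    by_cases hz' : z' ∈ L.lattice
    · rw [hf0 z' hz', add_zero, hfper z z' hz']
    by_cases hzz : z + z' ∈ L.lattice
    · rw [hf0 _ hzz, hf1 z hz, hf1 z' hz']
      have e : z = -z' + (z + z') := by ring
      have hx : P z = P z' := by
        rw [e, (hper (-z') _ hzz).1, (hpar z').1]
      have hy : D z = -D z' := by
        rw [e, (hper (-z') _ hzz).2, (hpar z').2]
      exact (Point.add_of_Y_eq (by rw [hXe, hXe, hx])
        (by rw [hnegY, hYe, hYe, hXe, hx, hy]; ring)).symm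
    by_cases hzd : z - z' ∈ L.lattice
    · have e1 : f z' = f z := by
        have := hfper z' _ hzd
        rw [← this]
        congr 1
        ring
      have e2 : f (z + z') = f (2 * z) := by
        have := hfper (z + z') _ hzd
        rw [← this]
        congr 1
        ring
      have h2z : 2 * z ∉ L.lattice := by
        intro h
        apply hzz
        have := sub_mem h hzd
        have e : z + z' = 2 * z - (z - z') := by ring
        rwa [e]
      have hy : D z ≠ 0 := fun h => h2z ((hy0 z hz).1 h)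
      have hyne : Y z ≠ W.negY (X z) (Y z) := by
        rw [hnegY, hYe, hXe]
        intro h0
        apply hy
        apply mul_left_cancel₀ hv3
        linear_combination h0
      rw [e1, e2, hf1 z hz, hf1 _ h2z, Point.add_self_of_Y_ne hyne]
      have hsl : W.slope (X z) (X z) (Y z) (Y z) =
          (6 * P z ^ 2 - L.g₂ / 2) / (2 * D z) * v - a / 2 := by
        rw [WeierstrassCurve.Affine.slope_of_Y_ne rfl hyne, hnegY, w1, w2, w4]
        have h3 : Y z - (-Y z - a * X z - b) = D z * v ^ 3 := by rw [hYe, hXe]; ring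
        rw [h3, hYe, hXe]
        have h4 : D z * v ^ 3 ≠ 0 := mul_ne_zero hy hv3
        rw [div_eq_iff h4]
        have h5 : (6 * P z ^ 2 - L.g₂ / 2) / (2 * D z) * D z = (6 * P z ^ 2 - L.g₂ / 2) / 2 := by
          field_simp
        linear_combination (-v ^ 2 * (P z - e) / 2) * E1 - (1 / 4 : ℂ) * E2 - v ^ 4 * h5
      obtain ⟨hd1, hd2⟩ := hdbl z h2z
      have hX : W.addX (X z) (X z)
          (W.slope (X z) (X z) (Y z) (Y z)) = X (2 * z) := by
        rw [WeierstrassCurve.Affine.addX, hsl, w1, w2, hXe, hXe]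
        linear_combination -(v ^ 2) * hd1 + (1 / 4 : ℂ) * E1
      apply some_eq
      · exact hX.symm
      · rw [WeierstrassCurve.Affine.addY, WeierstrassCurve.Affine.negAddY, hnegY, hX, hsl]
        rw [hYe, hYe, hXe, hXe]
        linear_combination (v ^ 3 / 2) * hd2
    · have hxne : X z ≠ X z' := by
        intro h
        have h' : P z = P z' := by
          rw [hXe, hXe] at h
          have := mul_right_cancel₀ hv2 h
          linear_combination this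
        rcases hinj z z' hz hz' h' with h3 | h3
        · exact hzd h3
        · exact hzz h3
      rw [hf1 z hz, hf1 z' hz', hf1 _ hzz, Point.add_of_X_ne hxne]
      have hsl : W.slope (X z) (X z') (Y z) (Y z') =
          (D z - D z') / (2 * (P z - P z')) * v - a / 2 := by
        rw [WeierstrassCurve.Affine.slope_of_X_ne hxne]
        have h3 : X z - X z' = (P z - P z') * v ^ 2 := by rw [hXe, hXe]; ring
        have h4 : P z - P z' ≠ 0 := by
          intro h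
          apply hxne
          rw [← sub_eq_zero, h3, h, zero_mul]
        rw [h3, hYe, hYe]
        field_simp
        ring
      obtain ⟨ha1, ha2⟩ := hadd z' z hz' hz hzz hzd
      have hX : W.addX (X z) (X z')
          (W.slope (X z) (X z') (Y z) (Y z')) = X (z + z') := by
        rw [WeierstrassCurve.Affine.addX, hsl, w1, w2, hXe, hXe, hXe]
        linear_combination -(v ^ 2) * ha1 + (1 / 4 : ℂ) * E1
      apply some_eq
      · exact hX.symm
      · rw [WeierstrassCurve.Affine.addY, WeierstrassCurve.Affine.negAddY, hnegY, hX, hsl]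
        rw [hYe, hYe, hXe, hXe]
        linear_combination (v ^ 3 / 2) * ha2
  exact ⟨⟨⟨f, hf0 0 L.lattice.zero_mem⟩, hmap⟩, fun z hz => hf0 z hz,
    fun z hz => ⟨ns z hz, hf1 z hz⟩⟩

theorem disc (a b : ℂ) : (WT a b).Δ = b * b * b * (a ^ 3 - 3 * 3 * 3 * b) := by
  have w1 : (WT a b).a₁ = a := rfl
  have w2 : (WT a b).a₂ = 0 := rfl
  have w3 : (WT a b).a₃ = b := rfl
  have w4 : (WT a b).a₄ = 0 := rfl
  have w6 : (WT a b).a₆ = 0 := rfl
  rw [WeierstrassCurve.Δ, WeierstrassCurve.b₂, WeierstrassCurve.b₄, WeierstrassCurve.b₆,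
    WeierstrassCurve.b₈, w1, w2, w3, w4, w6]
  ring

end GRT

/-- (GRT) the Deuring model has good reduction -/
theorem td_GRT (h1 : Sd_COE) : Sd_GRT := by
  intro V L u e a b hG h2
  obtain ⟨e1, e2, e3, v3, -⟩ := h1 V L u e a b hG h2
  have hu := hG.u0
  have hui : u⁻¹ ≠ 0 := inv_ne_zero hu
  have huu : u * u⁻¹ = 1 := mul_inv_cancel₀ hu
  have vb := hG.v3
  have va : V.valuation a < 1 := lt_of_le_of_lt hG.v1 h2
  obtain ⟨ξ, h0, hs⟩ := GRT.hom L e u⁻¹ a b hui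
    (by
      rw [e1, mul_assoc, ← mul_pow, huu, one_pow, mul_one])
    (by
      rw [e2, mul_assoc, ← mul_pow, huu, one_pow, mul_one])
    (by
      rw [e3, mul_assoc, ← mul_pow, huu, one_pow, mul_one])
  refine ⟨ξ, ?_, ?_, fun z hz => ?_, h0⟩
  · refine ⟨?_, ?_, ?_, ?_, ?_⟩
    · show V.valuation a ≤ 1
      exact va.le
    · show V.valuation 0 ≤ 1
      rw [map_zero]
      exact zero_le_one
    · show V.valuation b ≤ 1
      rw [vb]
    · show V.valuation 0 ≤ 1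
      rw [map_zero]
      exact zero_le_one
    · show V.valuation 0 ≤ 1
      rw [map_zero]
      exact zero_le_one
  · rw [GRT.disc]
    have h4 : V.valuation (3 * 3 * 3 * b) = 1 := by
      simp only [map_mul, v3, vb, mul_one]
    have h5 : V.valuation (a ^ 3) < 1 := by
      rw [map_pow]
      exact pow_lt_one₀ zero_le va (by norm_num)
    have h6 : V.valuation (a ^ 3 - 3 * 3 * 3 * b) = 1 := by
      have h7 : V.valuation (a ^ 3 - 3 * 3 * 3 * b) = V.valuation (3 * 3 * 3 * b) :=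
        Valuation.map_sub_eq_of_lt_right _ (by rw [h4]; exact h5)
      rw [h7, h4]
    simp only [map_mul, vb, h6, mul_one]
  · obtain ⟨hn, hx⟩ := hs z hz
    have g1 : (L.weierstrassP z - e) * u⁻¹ ^ 2 = xu L u e z := by
      unfold xu
      field_simp
    have g2 : (L.derivWeierstrassP z * u⁻¹ ^ 3 - a * ((L.weierstrassP z - e) * u⁻¹ ^ 2) - b) / 2 =
        yt L u e a b z := by
      rw [g1]
      unfold yt et
      field_simp
    have hn' : (WT a b).Nonsingular (xu L u e z) (yt L u e a b z) := by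
      rw [← g1, ← g2]; exact hn
    exact ⟨hn', hx.trans (GRT.some_eq _ _ g1 g2)⟩

end

end Pool.Agent.N2E


end

section

/-!
# MUX-2N, block E2N, module LAG (helper52): a polynomial over `V` with many zeros has a small derivative at a zero
-/

set_option autoImplicit false

open Polynomial

namespace Pool.Agent.N2E

open _root_.Pool.Agent.NSE (IntP)

namespace LAG

variable {V : ValuationSubring ℂ}

lemma iff {P : ℂ[X]} : IntP V P ↔ ∃ p : V[X], p.map (algebraMap V ℂ) = P := by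
  constructor
  · intro h
    have hl : P ∈ Polynomial.lifts (algebraMap V ℂ) := by
      rw [Polynomial.lifts_iff_coeff_lifts]
      intro n
      exact ⟨⟨P.coeff n, (V.valuation_le_one_iff _).1 (h n)⟩, rfl⟩
    obtain ⟨p, hp⟩ := (Polynomial.mem_lifts P).1 hl
    exact ⟨p, hp⟩
  · rintro ⟨p, rfl⟩ n
    rw [Polynomial.coeff_map]
    exact (V.valuation_le_one_iff _).2 (p.coeff n).2

lemma iC {c : ℂ} (hc : V.valuation c ≤ 1) : IntP V (C c) :=
  iff.2 ⟨C ⟨c, (V.valuation_le_one_iff _).1 hc⟩, by rw [Polynomial.map_C]; rfl⟩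

lemma isub {P Q : ℂ[X]} (hP : IntP V P) (hQ : IntP V Q) : IntP V (P - Q) := by
  obtain ⟨p, rfl⟩ := iff.1 hP
  obtain ⟨q, rfl⟩ := iff.1 hQ
  exact iff.2 ⟨p - q, Polynomial.map_sub _⟩

lemma imul {P Q : ℂ[X]} (hP : IntP V P) (hQ : IntP V Q) : IntP V (P * Q) := by
  obtain ⟨p, rfl⟩ := iff.1 hP
  obtain ⟨q, rfl⟩ := iff.1 hQ
  exact iff.2 ⟨p * q, Polynomial.map_mul _⟩

lemma ev {P : ℂ[X]} (hP : IntP V P) {c : ℂ} (hc : V.valuation c ≤ 1) :
    V.valuation (P.eval c) ≤ 1 := by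
  obtain ⟨p, rfl⟩ := iff.1 hP
  have h : (p.map (algebraMap V ℂ)).eval c =
      algebraMap V ℂ (p.eval ⟨c, (V.valuation_le_one_iff _).1 hc⟩) := by
    rw [Polynomial.eval_map, ← Polynomial.eval₂_at_apply]
    rfl
  rw [h]
  exact (V.valuation_le_one_iff _).2 (p.eval _).2

lemma factor {P : ℂ[X]} (hP : IntP V P) {c : ℂ} (hc : V.valuation c ≤ 1) (h0 : P.eval c = 0) :
    ∃ Q : ℂ[X], IntP V Q ∧ P = (X - C c) * Q := by
  obtain ⟨p, rfl⟩ := iff.1 hP
  have hinj : Function.Injective (algebraMap V ℂ) := fun a b h => Subtype.ext h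
  have h : (p.map (algebraMap V ℂ)).eval c =
      algebraMap V ℂ (p.eval ⟨c, (V.valuation_le_one_iff _).1 hc⟩) := by
    rw [Polynomial.eval_map, ← Polynomial.eval₂_at_apply]
    rfl
  have h1 : p.eval ⟨c, (V.valuation_le_one_iff _).1 hc⟩ = 0 := by
    apply hinj
    rw [← h, h0, map_zero]
  obtain ⟨q, hq⟩ := Polynomial.dvd_iff_isRoot.2 h1
  refine ⟨q.map (algebraMap V ℂ), iff.2 ⟨q, rfl⟩, ?_⟩
  conv_lhs => rw [hq]
  rw [Polynomial.map_mul, Polynomial.map_sub, Polynomial.map_X, Polynomial.map_C]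
  rfl

lemma factors (S : Finset ℂ) : ∀ P : ℂ[X], IntP V P → (∀ x ∈ S, V.valuation x ≤ 1) →
    (∀ x ∈ S, P.eval x = 0) → ∃ R : ℂ[X], IntP V R ∧ P = (∏ x ∈ S, (X - C x)) * R := by
  classical
  induction S using Finset.induction_on with
  | empty =>
    intro P hP _ _
    exact ⟨P, hP, by simp⟩
  | insert a S ha ih =>
    intro P hP hv h0
    obtain ⟨Q, hQ, hPQ⟩ := factor hP (hv a (Finset.mem_insert_self a S))
      (h0 a (Finset.mem_insert_self a S))
    obtain ⟨R, hR, hQR⟩ := ih Q hQ (fun x hx => hv x (Finset.mem_insert_of_mem hx)) (by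
      intro x hx
      have h1 := h0 x (Finset.mem_insert_of_mem hx)
      rw [hPQ, eval_mul, eval_sub, eval_X, eval_C] at h1
      rcases mul_eq_zero.1 h1 with h2 | h2
      · exact absurd (by rw [← sub_eq_zero.1 h2]; exact hx) ha
      · exact h2)
    refine ⟨R, hR, ?_⟩
    rw [Finset.prod_insert ha, hPQ, hQR]
    ring

lemma one (S : Finset ℂ) (x0 : ℂ) (hx : x0 ∉ S) (h0 : V.valuation x0 ≤ 1)
    (hS : ∀ x ∈ S, V.valuation x ≤ 1) (P : ℂ[X]) (hP : IntP V P) (hP0 : P.eval x0 = 0)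
    (hPS : ∀ x ∈ S, P.eval x = 0) :
    V.valuation ((derivative P).eval x0) ≤ ∏ x ∈ S, V.valuation (x0 - x) := by
  classical
  obtain ⟨R, hR, hPR⟩ := factors (insert x0 S) P hP (by
    intro x hx
    rcases Finset.mem_insert.1 hx with h | h
    · rw [h]; exact h0
    · exact hS x h) (by
    intro x hx
    rcases Finset.mem_insert.1 hx with h | h
    · rw [h]; exact hP0
    · exact hPS x h)
  rw [Finset.prod_insert hx, mul_assoc] at hPR
  have h1 : (derivative P).eval x0 = (∏ x ∈ S, (x0 - x)) * R.eval x0 := by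
    rw [hPR, derivative_mul, derivative_sub, derivative_X, derivative_C, sub_zero, one_mul,
      eval_add, eval_mul, eval_mul, eval_sub, eval_X, eval_C, sub_self, zero_mul, add_zero,
      eval_prod]
    simp
  rw [h1, map_mul, map_prod]
  calc (∏ x ∈ S, V.valuation (x0 - x)) * V.valuation (R.eval x0)
      ≤ (∏ x ∈ S, V.valuation (x0 - x)) * 1 := mul_le_mul_right (ev hR h0) _
    _ = _ := mul_one _

end LAG

open _root_.Pool.Agent.N2E.LAG in
theorem td_LAG : Sd_LAG := by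
  intro V S x0 hx h0 hS
  have two : ∀ (S : Finset ℂ), x0 ∉ S → (∀ x ∈ S, V.valuation x ≤ 1) → ∀ P : ℂ[X], IntP V P →
      (∀ x ∈ S, P.eval x = P.eval x0) →
      V.valuation ((derivative P).eval x0) ≤ ∏ x ∈ S, V.valuation (x0 - x) := by
    intro S hx hS P hP hPS
    have h1 := one S x0 hx h0 hS (P - C (P.eval x0)) (isub hP (iC (ev hP h0))) (by simp) (by
      intro x hxS
      rw [eval_sub, eval_C, hPS x hxS, sub_self])
    rwa [derivative_sub, derivative_C, sub_zero] at h1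
  refine ⟨fun P hP hP0 hPS => one S x0 hx h0 hS P hP hP0 hPS, two S hx hS, ?_, ?_⟩
  · intro P Q hP hQ hPQ
    have h1 := one S x0 hx h0 hS (C (Q.eval x0) * P - C (P.eval x0) * Q)
      (isub (imul (iC (ev hQ h0)) hP) (imul (iC (ev hP h0)) hQ)) (by
        rw [eval_sub, eval_mul, eval_mul, eval_C, eval_C]
        ring) (by
      intro x hxS
      rw [eval_sub, eval_mul, eval_mul, eval_C, eval_C]
      linear_combination hPQ x hxS)
    have h2 : (derivative (C (Q.eval x0) * P - C (P.eval x0) * Q)).eval x0 =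
        (derivative P).eval x0 * Q.eval x0 - P.eval x0 * (derivative Q).eval x0 := by
      rw [derivative_sub, derivative_C_mul, derivative_C_mul, eval_sub, eval_mul, eval_mul, eval_C,
        eval_C]
      ring
    rwa [h2] at h1
  · intro P Q h κ S' hP hQ hh hκ hx' hS' e0 eS eS'
    have h1 := one S x0 hx h0 hS (P - C κ * (h * h) * Q)
      (isub hP (imul (imul (iC hκ) (imul hh hh)) hQ)) (by
        rw [eval_sub, eval_mul, eval_mul, eval_mul, eval_C, e0]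
        ring) (by
      intro x hxS
      rw [eval_sub, eval_mul, eval_mul, eval_mul, eval_C, eS x hxS]
      ring)
    have h2 := two S' hx' hS' h hh eS'
    have h3 : (derivative P).eval x0 * Q.eval x0 - P.eval x0 * (derivative Q).eval x0 =
        2 * (derivative h).eval x0 * (κ * h.eval x0 * Q.eval x0 ^ 2) +
          (derivative (P - C κ * (h * h) * Q)).eval x0 * Q.eval x0 := by
      rw [derivative_sub, derivative_mul, derivative_C_mul, derivative_mul]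
      simp only [eval_sub, eval_mul, eval_add, eval_C]
      rw [e0]
      ring
    rw [h3]
    refine (V.valuation.map_add _ _).trans (max_le_max ?_ ?_)
    · rw [map_mul, map_mul]
      have h4 : V.valuation (κ * h.eval x0 * Q.eval x0 ^ 2) ≤ 1 := by
        rw [map_mul, map_mul, map_pow]
        exact mul_le_one' (mul_le_one' hκ (ev hh h0)) (pow_le_one' (ev hQ h0) 2)
      calc V.valuation 2 * V.valuation ((derivative h).eval x0) *
            V.valuation (κ * h.eval x0 * Q.eval x0 ^ 2)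
          ≤ V.valuation 2 * (∏ x ∈ S', V.valuation (x0 - x)) * 1 :=
            mul_le_mul' (mul_le_mul' le_rfl h2) h4
        _ = _ := mul_one _
    · rw [map_mul]
      calc V.valuation ((derivative (P - C κ * (h * h) * Q)).eval x0) * V.valuation (Q.eval x0)
          ≤ (∏ x ∈ S, V.valuation (x0 - x)) * 1 := mul_le_mul' h1 (ev hQ h0)
        _ = _ := mul_one _

end Pool.Agent.N2E


end

section

/-!
# MUX-2N, block E2N, module MUL: the isogenies `μ_i x : L_(i0) → L_i` have odd degree (adapted from `NS/E_MUL.lean` of helper83)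
-/

set_option autoImplicit false

namespace Pool.Agent.N2E

open _root_.MU3 _root_.Pool.Agent.MU3A _root_.Pool.Agent.MU3B _root_.Pool.Agent.MUX _root_.Pool.Agent.MUXU _root_.Pool.Agent.MUXE
open _root_.Pool.Agent.RI _root_.Pool.Agent.NS _root_.Pool.Agent.N2

noncomputable section

theorem td_MUL : Sd_MUL := by
  intro A B V hC n ι R _ h2n i x hx
  have h := hC.cq
  have hnl := R.nl i
  have hnl0 := R.nl R.i0
  have hom : R.om i ≠ 0 := hnl.om_ne
  have hom0 : R.om R.i0 ≠ 0 := hnl0.om_ne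
  have hN0 : nI (R.b i) ≠ 0 := nI_ne_zero h hnl.b_ne
  have hNC : ((nI (R.b i) : ℕ) : ℂ) ≠ 0 := by exact_mod_cast hN0
  have hNb : ((nI (R.b i) : ℕ) : OO A B) ∈ R.b i := nI_mem h hnl.b_ne
  have hx0 : x ≠ 0 := by
    rintro rfl
    exact hx (Ideal.zero_mem _)
  have hex : emb x ≠ 0 := _root_.Pool.Agent.MUX.emb_ne_zero h hx0
  have hmu : muX R i ≠ 0 := by
    unfold muX
    exact div_ne_zero (mul_ne_zero hom hNC) hom0
  have hL0 : ∀ z, z ∈ (R.L R.i0).lattice ↔ ∃ x : OO A B, z = R.om R.i0 * emb x := by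
    intro z
    rw [hnl0.mem, R.b0]
    simp
  have h3 : Nat.Prime 2 := Nat.prime_two
  refine ⟨mul_ne_zero hmu hex, ?_, (nm x).natAbs * nI (R.b i), ?_, ?_⟩
  · intro u hu
    obtain ⟨y, rfl⟩ := (hL0 u).1 hu
    rw [hnl.mem]
    refine ⟨(nI (R.b i) : ℕ) * (x * y), (R.b i).mul_mem_right _ hNb, ?_⟩
    rw [_root_.Pool.Agent.MUX.emb_mul h, _root_.Pool.Agent.MUX.emb_mul h, _root_.Pool.Agent.MUX.emb_natCast h]
    unfold muX
    field_simp
  · intro hd
    rcases h3.dvd_mul.1 hd with h4 | h4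
    · apply hC.nrm x hx
      exact Int.natCast_dvd.2 h4
    · have h5 : 2 ∣ Nat.gcd (nI (R.b i)) n := Nat.dvd_gcd h4 h2n
      rw [Nat.Coprime.gcd_eq_one (R.cop i)] at h5
      omega
  · intro z hz
    obtain ⟨y, -, hy⟩ := (hnl.mem _).1 hz
    rw [hL0]
    refine ⟨star x * y, ?_⟩
    have h1 : (nI (R.b i) : ℂ) * emb x * z = R.om R.i0 * emb y := by
      unfold muX at hy
      field_simp at hy
      linear_combination hy
    have h2 : (((nm x).natAbs : ℕ) : ℂ) = emb x * emb (star x) := by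
      have h6 : (((nm x).natAbs : ℕ) : ℤ) = nm x := Int.natAbs_of_nonneg (nm_nonneg h x)
      rw [← _root_.Pool.Agent.MUX.emb_mul h, mul_star, _root_.Pool.Agent.MUX.emb_intCast h, ← Int.cast_natCast, h6]
    rw [_root_.Pool.Agent.MUX.emb_mul h]
    have h7 : (((nm x).natAbs : ℕ) : ℂ) * (nI (R.b i) : ℂ) * z =
        R.om R.i0 * (emb (star x) * emb y) := by
      rw [h2]
      linear_combination (emb (star x)) * h1
    rw [← h7, Nat.cast_mul]

end

end Pool.Agent.N2E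


end

section

/-!
# MUX-2N, block E2N, module CTX: from the standing hypotheses to `CtxT` (helper12, after `NS/E_CTX.lean`)
-/

set_option autoImplicit false

namespace Pool.Agent.N2E

open _root_.MU3 _root_.Pool.Agent.MU3A _root_.Pool.Agent.MU3B _root_.Pool.Agent.MUX _root_.Pool.Agent.MUXU _root_.Pool.Agent.MUXE
open _root_.Pool.Agent.RI _root_.Pool.Agent.NS _root_.Pool.Agent.N2

noncomputable section

namespace CtxTaux

variable {A B : ℤ}

lemma mem_idl (m : ℕ) (x : OO A B) :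
    x ∈ idl (A := A) (B := B) m ↔ (m : ℤ) ∣ x.re ∧ (m : ℤ) ∣ x.im := by
  rw [Ideal.mem_span_singleton]
  constructor
  · rintro ⟨t, rfl⟩
    refine ⟨⟨t.re, ?_⟩, ⟨t.im, ?_⟩⟩
    · rw [QuadraticAlgebra.re_mul]; simp
    · rw [QuadraticAlgebra.im_mul]; simp
  · rintro ⟨⟨s, hs⟩, ⟨t, ht⟩⟩
    refine ⟨⟨s, t⟩, ?_⟩
    apply QuadraticAlgebra.ext
    · rw [QuadraticAlgebra.re_mul]; simp [hs]
    · rw [QuadraticAlgebra.im_mul]; simp [ht]

lemma emb_nat (h : CQ A B) (n : ℕ) : emb ((n : ℕ) : OO A B) = (n : ℂ) := by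
  rw [← RNGaux.eH_apply h, map_natCast]

lemma parity {a b : ℤ} (h : (2 : ℤ) ∣ a ^ 2 + a * b + b ^ 2) : (2 : ℤ) ∣ a ∧ (2 : ℤ) ∣ b := by
  have h1 : a % 2 = 0 ∨ a % 2 = 1 := by omega
  have h2 : b % 2 = 0 ∨ b % 2 = 1 := by omega
  have h3 : (a ^ 2 + a * b + b ^ 2) % 2 = ((a % 2) ^ 2 + (a % 2) * (b % 2) + (b % 2) ^ 2) % 2 :=
    (((Int.mod_modEq a 2).symm.pow 2).add
      ((Int.mod_modEq a 2).symm.mul (Int.mod_modEq b 2).symm)).add
        ((Int.mod_modEq b 2).symm.pow 2)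
  have h4 : (a ^ 2 + a * b + b ^ 2) % 2 = 0 := Int.emod_eq_zero_of_dvd h
  rw [h4] at h3
  rcases h1 with h1 | h1 <;> rcases h2 with h2 | h2 <;> rw [h1, h2] at h3 <;>
    first
      | exact ⟨Int.dvd_of_emod_eq_zero h1, Int.dvd_of_emod_eq_zero h2⟩
      | (exfalso; revert h3; decide)

lemma odd_AB (h : (8 : ℤ) ∣ B ^ 2 + 4 * A - 5) : (∃ s, B = 2 * s + 1) ∧ ∃ t, A = 2 * t + 1 := by
  obtain ⟨c, hc⟩ := h
  have hB : ∃ s, B = 2 * s + 1 := by
    rcases Int.even_or_odd B with ⟨s, hs⟩ | ⟨s, hs⟩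
    · exfalso
      have : B ^ 2 = 4 * s ^ 2 := by rw [hs]; ring
      rw [this] at hc
      omega
    · exact ⟨s, hs⟩
  refine ⟨hB, ?_⟩
  obtain ⟨s, hs⟩ := hB
  have h1 : B ^ 2 = 4 * (s * (s + 1)) + 1 := by rw [hs]; ring
  obtain ⟨r, hr⟩ := Int.even_mul_succ_self s
  rw [h1, hr] at hc
  exact ⟨c - r, by omega⟩

lemma nrm (h : (8 : ℤ) ∣ B ^ 2 + 4 * A - 5) {x : OO A B}
    (hx : x ∉ idl (A := A) (B := B) 2) : ¬ (2 : ℤ) ∣ nm x := by
  intro h1
  apply hx
  obtain ⟨⟨s, hs⟩, ⟨t, ht⟩⟩ := odd_AB h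
  have h3 : (2 : ℤ) ∣ x.re ^ 2 + x.re * x.im + x.im ^ 2 := by
    have h4 : x.re ^ 2 + x.re * x.im + x.im ^ 2 =
        nm x + 2 * (-(s * (x.re * x.im)) + (t + 1) * x.im ^ 2) := by
      unfold nm
      linear_combination (-(x.re * x.im)) * hs + x.im ^ 2 * ht
    rw [h4]
    exact dvd_add h1 (dvd_mul_right _ _)
  obtain ⟨h4, h5⟩ := parity h3
  rw [mem_idl]
  exact ⟨by exact_mod_cast h4, by exact_mod_cast h5⟩

lemma maxi (h : (8 : ℤ) ∣ B ^ 2 + 4 * A - 5) : (idl (A := A) (B := B) 2).IsMaximal := by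
  rw [Ideal.isMaximal_iff]
  refine ⟨?_, ?_⟩
  · intro h1
    rw [mem_idl] at h1
    have h2 := h1.1
    rw [QuadraticAlgebra.re_one] at h2
    norm_num at h2
  · intro J x hJ hx hxJ
    have h1 : IsCoprime (nm x) (2 : ℤ) :=
      isCoprime_comm.1 ((Int.prime_two.coprime_iff_not_dvd).2 (nrm h hx))
    obtain ⟨u, v, huv⟩ := h1
    have h2 : ((nm x : ℤ) : OO A B) ∈ J := by
      rw [← RNGaux.mul_star']
      exact J.mul_mem_right _ hxJ
    have h3 : ((2 : ℕ) : OO A B) ∈ J := hJ (Ideal.mem_span_singleton_self _)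
    have h4 := congrArg (Int.cast : ℤ → OO A B) huv
    push_cast at h4
    rw [← h4]
    refine J.add_mem (J.mul_mem_left _ h2) (J.mul_mem_left _ ?_)
    simpa using h3

lemma val_le (h : CQ A B) (V : ValuationSubring ℂ) (x : OO A B) : V.valuation (emb x) ≤ 1 := by
  rw [ValuationSubring.valuation_le_one_iff]
  have h1 : IsIntegral V (emb x) := (RNGaux.emb_int h x).tower_top
  obtain ⟨y, hy⟩ := IsIntegrallyClosed.isIntegral_iff.1 h1
  rw [← hy]
  exact y.2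

lemma val_unit (h : CQ A B) {V : ValuationSubring ℂ} (hV : OverI V (idl (A := A) (B := B) 2))
    {x : OO A B} (hx : x ∉ idl (A := A) (B := B) 2) : V.valuation (emb x) = 1 := by
  refine le_antisymm (val_le h V x) (not_lt.1 fun h1 => hx ((hV x).1 ?_))
  exact (ValuationSubring.mem_nonunits_iff V).2 h1

lemma val_emb (h : CQ A B) {V : ValuationSubring ℂ} (hV : OverI V (idl (A := A) (B := B) 2)) :
    ∀ (n : ℕ) (x : OO A B), x ≠ 0 → (nm x).toNat ≤ n →
      ∃ j : ℕ, V.valuation (emb x) = V.valuation (2 : ℂ) ^ j := by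
  intro n
  induction n with
  | zero =>
    intro x hx hn
    have := RNGaux.nm_pos h hx
    omega
  | succ n ih =>
    intro x hx hn
    by_cases h3 : x ∈ idl (A := A) (B := B) 2
    · obtain ⟨y, hy⟩ := Ideal.mem_span_singleton.1 h3
      have hy0 : y ≠ 0 := by
        rintro rfl
        rw [mul_zero] at hy
        exact hx hy
      have hnm : nm x = 4 * nm y := by
        have h4 : ((2 : ℕ) : OO A B).re = 2 := QuadraticAlgebra.re_natCast 2
        have h5 : ((2 : ℕ) : OO A B).im = 0 := QuadraticAlgebra.im_natCast 2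
        rw [hy]
        unfold nm
        rw [QuadraticAlgebra.re_mul, QuadraticAlgebra.im_mul, h4, h5]
        ring
      have hpos := RNGaux.nm_pos h hy0
      obtain ⟨j, hj⟩ := ih y hy0 (by omega)
      refine ⟨j + 1, ?_⟩
      rw [hy, ← RNGaux.eH_apply h, map_mul, RNGaux.eH_apply h, RNGaux.eH_apply h, emb_nat h,
        map_mul, hj, pow_succ, mul_comm]
      norm_num
    · exact ⟨0, by rw [pow_zero, val_unit h hV h3]⟩

lemma alg_kk (h : CQ A B) (y : ℂ) (hy : y ∈ kk A B) : IsAlgebraic ℤ y := by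
  have h1 : Algebra.IsAlgebraic ℚ (kk A B) :=
    IntermediateField.isAlgebraic_adjoin_simple (RNGaux.w_intQ h)
  have h2 : IsAlgebraic ℚ y := by
    have h3 := h1.isAlgebraic ⟨y, hy⟩
    exact h3.algebraMap
  exact (IsFractionRing.isAlgebraic_iff ℤ ℚ ℂ).2 h2

end CtxTaux

open _root_.Pool.Agent.N2E.CtxTaux in
/-- (CTX) from the standing hypotheses to `CtxT` -/
theorem td_CTX : Sd_CTX := by
  intro A B V hC hV hT hF
  obtain ⟨hF1, hF2⟩ := hF A B V hC hV hT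
  have h := hC.toCQ
  have hv2 : V.valuation (2 : ℂ) < 1 := by
    have h1 := (hV ((2 : ℕ) : OO A B)).2 (Ideal.mem_span_singleton_self _)
    rw [ValuationSubring.mem_nonunits_iff, emb_nat h] at h1
    exact_mod_cast h1
  have hv0 : V.valuation (2 : ℂ) ≠ 0 := by
    rw [Valuation.ne_zero_iff]
    norm_num
  have hR : RingE A B := te_RNG A B h
  refine
    { ring := hR
      cq := h
      two := hC.two
      v2 := hv2
      int := val_le h V
      unit := fun x hx => val_unit h hV hx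
      nat := ?_
      max := maxi hC.two
      nrm := fun x hx => nrm hC.two hx
      kval := ?_
      good := ?_
      iner := hF2 }
  · intro n hn
    rw [← emb_nat h]
    refine val_unit h hV fun h1 => hn ?_
    rw [mem_idl] at h1
    have h2 := h1.1
    rw [QuadraticAlgebra.re_natCast] at h2
    exact_mod_cast h2
  · intro y hy hy0
    obtain ⟨n, hn, hint⟩ := (alg_kk h y hy).exists_integral_multiple
    have hnk : n • y ∈ kk A B := zsmul_mem hy n
    obtain ⟨x, hx⟩ := (hR.int _ hnk).1 hint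
    have hnC : (n : ℂ) ≠ 0 := by exact_mod_cast hn
    have hxe : (n : ℂ) * y = emb x := by
      rw [← hx, zsmul_eq_mul]
    have hx0 : x ≠ 0 := by
      rintro rfl
      rw [← RNGaux.eH_apply h, map_zero] at hxe
      exact mul_ne_zero hnC hy0 hxe
    have hne : emb ((n : ℤ) : OO A B) = (n : ℂ) := by
      rw [← RNGaux.eH_apply h, map_intCast]
    have hn0 : ((n : ℤ) : OO A B) ≠ 0 := by
      intro h0
      rw [h0, ← RNGaux.eH_apply h, map_zero] at hne
      exact hnC hne.symm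
    obtain ⟨j, hj⟩ := val_emb h hV _ x hx0 le_rfl
    obtain ⟨i, hi⟩ := val_emb h hV _ ((n : ℤ) : OO A B) hn0 le_rfl
    rw [hne] at hi
    have h2 := congrArg V.valuation hxe
    rw [map_mul, hi, hj] at h2
    refine ⟨(j : ℤ) - i, ?_⟩
    rw [zpow_sub₀ hv0, zpow_natCast, zpow_natCast, ← h2]
    field_simp
  · rintro L ⟨b, om, hL⟩
    obtain ⟨u, e, a1, a3, h1, -⟩ := hF1 b L om hL
    exact ⟨u, e, a1, a3, h1⟩

end

end Pool.Agent.N2E


end

section

/-!
# MUX-2N, block E2N, module COE (helper83): the coefficients of the good model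
-/

set_option autoImplicit false

open Polynomial

namespace Pool.Agent.N2E

open _root_.MU3 _root_.Pool.Agent.MU3A _root_.Pool.Agent.MU3B _root_.Pool.Agent.MUX _root_.Pool.Agent.MUXU _root_.Pool.Agent.MUXE
open _root_.Pool.Agent.RI _root_.Pool.Agent.NS _root_.Pool.Agent.N2
open _root_.Pool.Agent.NSE (IntP)
open _root_.Pool.Agent.MUX2 (GRG)
open _root_.Pool.Agent.MUXV (InK tX)

noncomputable section

namespace COE

lemma _root_.Pool.Agent.N2E.COE.hasDeriv (L : PeriodPair) {z : ℂ} (hz : z ∉ L.lattice) :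
    HasDerivAt L.weierstrassP (L.derivWeierstrassP z) z := by
  have h1 : DifferentiableAt ℂ L.weierstrassP z :=
    L.differentiableOn_weierstrassP.differentiableAt
      (L.isClosed_lattice.isOpen_compl.mem_nhds hz)
  have h2 := h1.hasDerivAt
  rwa [L.deriv_weierstrassP] at h2

end COE

open _root_.Pool.Agent.N2E.COE in
theorem td_COE : Sd_COE := by
  intro V L u e a1 a3 hG h2
  have hu := hG.u0
  -- the polynomial identity
  have key : ∀ T : ℂ, 4 * T ^ 3 - L.g₂ * T - L.g₃ =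
      4 * (T - e) ^ 3 + u ^ 2 * (a1 * (T - e) + a3 * u ^ 2) ^ 2 := by
    intro T
    obtain ⟨z, hz, hT⟩ := b_SUR L T
    have h1 := L.derivWeierstrassP_sq z hz
    have h3 := hG.eq z hz
    rw [← hT, ← h1]
    have h4 : L.derivWeierstrassP z ^ 2 =
        (L.derivWeierstrassP z / u ^ 3) ^ 2 * u ^ 6 := by
      field_simp
    rw [h4, h3]
    field_simp
  have k0 := key 0
  have k1 := key 1
  have k2 := key (-1)
  have b1 : 12 * e = a1 ^ 2 * u ^ 2 := by
    linear_combination (1 / 2 : ℂ) * k1 + (1 / 2 : ℂ) * k2 - k0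
  have b2 : 12 * e ^ 2 - L.g₂ = 2 * a1 * a3 * u ^ 4 := by
    linear_combination (1 / 2 : ℂ) * k1 - (1 / 2 : ℂ) * k2 + 2 * e * b1
  have b3 : 4 * e ^ 3 - L.g₂ * e - L.g₃ = a3 ^ 2 * u ^ 6 := by
    linear_combination k0 + e * b2 - e ^ 2 * b1
  have hv1 : V.valuation (1 : ℂ) = 1 := map_one _
  have v3 : V.valuation (3 : ℂ) = 1 := by
    have h5 : V.valuation ((1 : ℂ) + 2) = V.valuation (1 : ℂ) :=
      Valuation.map_add_eq_of_lt_left _ (by rw [hv1]; exact h2)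
    rw [hv1] at h5
    rw [← h5]
    congr 1
    norm_num
  have hy : ∀ z, 2 * yt L u e a1 a3 z + a1 * xu L u e z + a3 = et L u z := by
    intro z
    unfold yt
    ring
  have he : ∀ z ∉ L.lattice,
      et L u z ^ 2 = 4 * xu L u e z ^ 3 + (a1 * xu L u e z + a3) ^ 2 := by
    intro z hz
    exact hG.eq z hz
  refine ⟨b1, b2, b3, v3, hy, he, ?_, ?_, ?_⟩
  · intro z hz
    have h5 := he z hz
    rw [← hy z] at h5
    linear_combination (1 / 4 : ℂ) * h5
  · intro z hz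
    have h5 := ((_root_.Pool.Agent.N2E.COE.hasDeriv L hz).sub_const e).div_const (u ^ 2)
    have h6 : L.derivWeierstrassP z / u ^ 2 = u * et L u z := by
      unfold et
      field_simp
    rw [h6] at h5
    exact h5
  · intro z
    have hx : ∀ w ∈ L.lattice, xu L u e (z + w) = xu L u e z := by
      intro w hw
      unfold xu
      rw [L.weierstrassP_add_coe z ⟨w, hw⟩]
    have ht : ∀ w ∈ L.lattice, et L u (z + w) = et L u z := by
      intro w hw
      unfold et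
      rw [L.derivWeierstrassP_add_coe z ⟨w, hw⟩]
    refine ⟨fun w hw => ⟨hx w hw, ht w hw, ?_⟩, ?_, ?_⟩
    · unfold yt
      rw [hx w hw, ht w hw]
    · unfold xu
      rw [L.weierstrassP_neg]
    · unfold et
      rw [L.derivWeierstrassP_neg]
      ring

end

end Pool.Agent.N2E


end
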