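import Mathlib
import Pool.Agent.MVF.C030
import Pool.Agent.MVF.C035
import Pool.Agent.MVF.C037

/-! Parts: MUX.StJG, MUX.J_SET, MUX.J_OMG, MUX.J_FIN, MUX.J_OMGG, NS.ZVex -/

namespace Pool.Agent.MUXJ.JFin
end Pool.Agent.MUXJ.JFin
namespace Pool.Agent.MUXJ.JSET
end Pool.Agent.MUXJ.JSET
namespace Pool.Agent.MUXJ.Omg
end Pool.Agent.MUXJ.Omg

section

/-!
# MUX, block J, general prime above `p` (helper34)

The statements of `StJX.lean` in which the hypothesis that `p` splits was used, now for any prime ideal `P` above `p`: `p = 3`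
split, inert or ramified, `p = 2` split or inert. `e` is `1` or `2`, with `p ∉ P²` if `e = 1`. The level `f` is divisible by a
given number `d` prime to `p`. The proofs are the files `J_X.lean`, with small changes.
-/

set_option autoImplicit false

open NumberField IsDedekindDomain
open scoped nonZeroDivisors Pointwise

namespace Pool.Agent.MUXJ

open _root_.MU3 _root_.Pool.Agent.MU3 _root_.Pool.Agent.MU3A _root_.Pool.Agent.MU3B _root_.Pool.Agent.RI _root_.Pool.Agent.RID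
  _root_.Pool.Agent.MUX _root_.Pool.Agent.MUXK

noncomputable section

/-- The prime `P` above `p` and the valuation ring `V` above `P`; `e = 1` means that `p` is unramified at `P`. For `p = 2` the ramified case is excluded. -/
structure AboX (p e : ℕ) (A B : ℤ) (P : Ideal (OO A B)) (V : ValuationSubring ℂ) : Prop where
  cq : CQ A B
  pp : p = 2 ∨ p = 3
  ee : e = 1 ∨ e = 2
  two : p = 2 → e = 1
  prime : P.IsPrime
  mem : ((p : ℕ) : OO A B) ∈ P
  unr : e = 1 → ((p : ℕ) : OO A B) ∉ P ^ 2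
  hV : OverI V P
  hp : (p : ℂ) ∈ V.nonunits

/-- the inputs for all pairs `K₀ ≤ K`, all levels `f` prime to `p` and divisible by `d` -/
def InpG (p d : ℕ) (A B : ℤ) (V : ValuationSubring ℂ) : Prop :=
  ∀ (f : ℕ), f ≠ 0 → ¬ p ∣ f → d ∣ f →
  ∀ (K₀ K : IntermediateField ℚ ℂ) (Bn : ℕ → IntermediateField ℚ ℂ)
    [FiniteDimensional ℚ (kk A B)] [FiniteDimensional ℚ K] [∀ n, FiniteDimensional ℚ ↥(K ⊔ Bn n)],
    SetX p (kk A B) K₀ K Bn → (∀ y ∈ K, y ∈ RF (idl (A := A) (B := B) (lvX p f 0))) →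
    (∀ y ∈ RF (⊤ : Ideal (OO A B)), y ∈ K) →
    ∀ (hk : ∀ n, kk A B ≤ K ⊔ Bn n) (hk₀ : ∀ n, kk A B ≤ K₀ ⊔ Bn n) (hkK : kk A B ≤ K₀),
    ∃ (S : Finset ℕ) (c c₀ : ℕ → ℂ) (n₁ : ℕ),
      InpX (IsLocalRing.ResidueField V) p (kk A B) K₀ K Bn hk hk₀ hkK S c c₀ n₁

/-- JRAMG: the inertia group of a field which contains the roots of unity of order `q0 p * p`.
PROOF. `J_RAM.lean`. `w = {x ∈ 𝓞 F : v x < 1}`, `w ∩ 𝓞 k = P`, the inertia group has order `e(w | P)`. The multiplicity of `w` in `p 𝓞 F` is `e(w | P) e(P | p)`, where `e(P | p)`, the multiplicity of `P` in `p O`, is `1` or `2` (`[k : ℚ] = 2`), and `1` if `p ∉ P²`; so it divides `e * e(w | P)` in all cases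
(`e = 2`: both `1` and `2` divide `2`). It is a multiple of `φ(q0 p * p) = q0 p * (p - 1)` as in `J_RAM.lean`. (That `e(P | p) ≤ 2`: `p ∉ P³`, because otherwise `nm p = p²` is divisible by the norm of `P³`, `≥ p³`; or `Σ e f = 2`.) -/
def Sj_RAMG : Prop := ∀ (p e : ℕ) (A B : ℤ) (P : Ideal (OO A B)) (V : ValuationSubring ℂ),
    AboX p e A B P V →
    ∀ (F : IntermediateField (kk A B) ℂ) [FiniteDimensional (kk A B) F] [IsGalois (kk A B) F],
    (∃ ζ ∈ F, IsPrimitiveRoot ζ (q0 p * p)) →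
    (q0 p * (p - 1)) ∣ e * Nat.card {σ : F ≃ₐ[kk A B] F //
      ∀ x : F, V.valuation (x : ℂ) ≤ 1 → V.valuation ((σ x : ℂ) - x) < 1}

/-- JLEVG: a field of degree prime to `p` over `k` is contained in a ray class field of level `f q0`.
PROOF. `J_LEV.lean`, with `f = d M'` (`M = p^j M'`, `p ∤ M'`). -/
def Sj_LEVG : Prop := ∀ (p d : ℕ) (A B : ℤ), CQ A B → p = 2 ∨ p = 3 → d ≠ 0 → ¬ p ∣ d →
    TorX A B → NLex A B →
    ∀ (K : IntermediateField ℚ ℂ) [FiniteDimensional ℚ K] (hk : kk A B ≤ K),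
    ¬ p ∣ Module.finrank (kk A B) (IntermediateField.extendScalars hk) → ∀ M : ℕ, M ≠ 0 →
    (∀ x ∈ K, x ∈ RF (idl (A := A) (B := B) M)) →
    ∃ f : ℕ, f ≠ 0 ∧ ¬ p ∣ f ∧ d ∣ f ∧
      ∀ x ∈ K, x ∈ RF (idl (A := A) (B := B) (lvX p f 0))

/-- JSETG: the large field `K`.
Uses Sj_DIR, Sj_RAMG, Sj_INJ, Sj_ROT, Sj_LDX, Sj_GAL, Sj_LEVG. PROOF. `J_SET.lean`. `2 p ∣ lvX p f 0` because `2 ∣ d ∣ f` for `p = 3` (hypothesis). The contradiction: `q0 p * (p - 1) ∣ e * |I| ∣ e * [K₁ : k]`. `p = 3`: `6 ∣ e [K₀ : k]`, `e ≤ 2`, so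
`3 ∣ [K₀ : k]`, false. `p = 2`: `e = 1`, `4 ∣ [K₁ : k]`, `[K₁ : K₀] ≤ 2`, so `2 ∣ [K₀ : k]`, false. -/
def Sj_SETG : Prop := ∀ (p e d : ℕ) (A B : ℤ) (P : Ideal (OO A B)) (V : ValuationSubring ℂ),
    AboX p e A B P V → d ≠ 0 → ¬ p ∣ d → (p = 3 → 2 ∣ d) → UnrH A B V → TorX A B → NLex A B →
    ∀ (K₀ : IntermediateField ℚ ℂ) [FiniteDimensional ℚ K₀] (hk : kk A B ≤ K₀),
    ¬ p ∣ Module.finrank (kk A B) (IntermediateField.extendScalars hk) → TorU A B K₀ →
    (∃ ω ∈ K₀, IsPrimitiveRoot ω p) →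
    ∀ (Bn : ℕ → IntermediateField ℚ ℂ), (∀ n, IsLayer p n (Bn n)) → Monotone Bn →
    ∃ (K : IntermediateField ℚ ℂ) (_ : FiniteDimensional ℚ K) (f : ℕ),
      SetX p (kk A B) K₀ K Bn ∧ f ≠ 0 ∧ ¬ p ∣ f ∧ d ∣ f ∧
      (∀ y ∈ K, y ∈ RF (idl (A := A) (B := B) (lvX p f 0))) ∧
      ∀ y ∈ RF (⊤ : Ideal (OO A B)), y ∈ K

/-- JOMGG: adjoining the `p`-th roots of unity, `p = 2, 3`.
PROOF. `J_OMG.lean` (only `CQ` and `p = 2 ∨ p = 3` are used there). -/
def Sj_OMGG : Prop := ∀ (p : ℕ) (A B : ℤ), CQ A B → p = 2 ∨ p = 3 → TorX A B → NLex A B →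
    ∀ (F : IntermediateField ℚ ℂ) [FiniteDimensional ℚ F] (hk : kk A B ≤ F), TorU A B F →
    ¬ p ∣ Module.finrank (kk A B) (IntermediateField.extendScalars hk) →
    ∃ (F₁ : IntermediateField ℚ ℂ) (h : F ≤ F₁) (_ : FiniteDimensional ℚ F₁), TorU A B F₁ ∧
      (∃ ω ∈ F₁, IsPrimitiveRoot ω p) ∧ IsGalois F (IntermediateField.extendScalars h) ∧
      ¬ p ∣ Module.finrank F (IntermediateField.extendScalars h) ∧
      ¬ p ∣ Module.finrank (kk A B) (IntermediateField.extendScalars (hk.trans h))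

/-- JFING: the main theorem for all fields, from the inputs.
Uses Sj_RES, Sj_LAY, Sj_DIR, Sj_GAL, Sj_SETG, Sj_UP, Sj_SUB, Sj_OMGG, Sj_FLD, S_MAINKX, P_SYL, P_PEX. PROOF. `J_FIN.lean`. -/
def Sj_FING : Prop := ∀ (p e d : ℕ) (A B : ℤ) (P : Ideal (OO A B)) (V : ValuationSubring ℂ),
    AboX p e A B P V → d ≠ 0 → ¬ p ∣ d → (p = 3 → 2 ∣ d) → UnrH A B V → TorX A B → NLex A B →
    InpG p d A B V →
    ∀ (F M K : IntermediateField ℚ ℂ) [FiniteDimensional ℚ M] (_ : kk A B ≤ F) (h : F ≤ M)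
    (a : ℕ), TorU A B F → IsGalois F (IntermediateField.extendScalars h) →
    Module.finrank F (IntermediateField.extendScalars h) = p ^ a → K ≤ M →
    ∃ C : ℕ, ∀ (n : ℕ) (Q : IntermediateField ℚ ℂ), IsLayer p n Q →
      padicValNat p (classNo (K ⊔ Q)) ≤ C * (n + 1) ^ C

end

end Pool.Agent.MUXJ


end

section

/-!
# MUX, block J, module SET: the large field `K`
-/

set_option autoImplicit false

open NumberField IsDedekindDomain
open scoped nonZeroDivisors Pointwise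

namespace Pool.Agent.MUXJ

open _root_.MU3 _root_.Pool.Agent.MU3 _root_.Pool.Agent.MU3A _root_.Pool.Agent.MU3B _root_.Pool.Agent.RI _root_.Pool.Agent.RID
  _root_.Pool.Agent.MUX _root_.Pool.Agent.MUXK _root_.Pool.Agent.MUXE

namespace JSET

lemma natCast_ne {A B : ℤ} (n : ℕ) (hn : n ≠ 0) : (n : OO A B) ≠ 0 := by
  intro h
  have h1 := congrArg QuadraticAlgebra.re h
  have h2 : ((n : OO A B)).re = (n : ℤ) := by simp
  rw [h2] at h1
  have h3 : (n : ℤ) = 0 := h1
  exact hn (by exact_mod_cast h3)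

lemma idl_ne {A B : ℤ} (n : ℕ) (hn : n ≠ 0) : (idl n : Ideal (OO A B)) ≠ ⊥ := by
  rw [Ne, Ideal.span_singleton_eq_bot]
  exact natCast_ne n hn

lemma idl_le {A B : ℤ} {n m : ℕ} (h : m ∣ n) : (idl n : Ideal (OO A B)) ≤ idl m := by
  rw [Ideal.span_singleton_le_span_singleton]
  obtain ⟨c, rfl⟩ := h
  exact ⟨(c : OO A B), by push_cast; ring⟩

end JSET

open _root_.Pool.Agent.MUXJ.JSET in
/-- JSET. -/
theorem t_SET (h1 : Sj_DIR) (h2 : Sj_RAM) (h3 : Sj_INJ) (h4 : Sj_ROT) (h5 : Sj_LDX) (h6 : Sj_GAL)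
    (h7 : Sj_LEV) : Sj_SET := by
  intro p A B P V hC hP hV hU T hNL K₀ _ hk hcop hTor hom Bn hlay hmono
  have hp : p.Prime := by
    rcases hC.split with h | h
    · rw [h.1]; exact Nat.prime_three
    · rw [h.1]; exact Nat.prime_two
  have hp23 : p = 2 ∨ p = 3 := by
    rcases hC.split with h | h
    · exact Or.inr h.1
    · exact Or.inl h.1
  have : Fact p.Prime := ⟨hp⟩
  obtain ⟨M, hM, hKM⟩ := h1 A B hC.toCQ T K₀ hTor
  obtain ⟨f, hf0, hfp, hfD, hf2, hKf⟩ := h7 p A B hC T hNL K₀ hk hcop M hM hKM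
  have hlv0 : lvX p f 0 ≠ 0 := by
    unfold lvX q0
    refine mul_ne_zero (mul_ne_zero hf0 ?_) (pow_ne_zero _ hp.ne_zero)
    split_ifs
    · norm_num
    · exact hp.ne_zero
  set m₀ : Ideal (OO A B) := idl (lvX p f 0) with hm₀
  have hm₀b : m₀ ≠ ⊥ := idl_ne _ hlv0
  have h2p : 2 * p ∣ lvX p f 0 := by
    unfold lvX q0
    rcases hp23 with h | h
    · subst h
      simp
    · subst h
      have h8 : (2 : ℤ) ∣ (f : ℤ) := (Dvd.intro _ rfl).trans (hf2 (by norm_num))
      have h9 : 2 ∣ f := by exact_mod_cast h8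
      obtain ⟨c, rfl⟩ := h9
      exact ⟨c, by simp; ring⟩
  have h2p0 : 2 * p ≠ 0 := mul_ne_zero two_ne_zero hp.ne_zero
  -- the root of unity
  obtain ⟨ζ, hζ⟩ : ∃ ζ : ℂ, IsPrimitiveRoot ζ (2 * p) := ⟨_, Complex.isPrimitiveRoot_exp _ h2p0⟩
  have hζm : ζ ∈ RF m₀ := by
    obtain ⟨b, L, om, hL⟩ := hNL
    have hfix : FixK A B (RingEquiv.refl ℂ) := rfl
    obtain ⟨a, -, ha⟩ := T.act m₀ hm₀b (RingEquiv.refl ℂ) hfix
    obtain ⟨b', L', om', mu, -, hact⟩ := ha b L om hL
    exact (T.zeta (2 * p) m₀ a (RingEquiv.refl ℂ) b L L' om mu hm₀b hfix h2p0 (idl_le h2p) hL hact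
      ζ hζ.pow_eq_one).1
  -- the fields
  have hkfd : FiniteDimensional ℚ (kk A B) :=
    FiniteDimensional.of_injective (IntermediateField.inclusion hk).toLinearMap
      (IntermediateField.inclusion hk).injective
  set E₀ : IntermediateField (kk A B) ℂ := IntermediateField.extendScalars hk with hE₀
  have hE₀m : E₀ ≤ RF m₀ := fun x hx => hKf x hx
  set Z : IntermediateField (kk A B) ℂ := IntermediateField.adjoin (kk A B) {ζ} with hZ
  have hZm : Z ≤ RF m₀ := by
    rw [hZ, IntermediateField.adjoin_le_iff]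
    intro x hx
    rw [Set.mem_singleton_iff] at hx
    rw [hx]
    exact hζm
  set K₁ : IntermediateField (kk A B) ℂ := E₀ ⊔ Z with hK₁
  have hK₁m : K₁ ≤ RF m₀ := sup_le hE₀m hZm
  set KK : IntermediateField (kk A B) ℂ := K₁ ⊔ RF (⊤ : Ideal (OO A B)) with hKK
  have hHm : RF (⊤ : Ideal (OO A B)) ≤ RF m₀ := T.mono ⊤ m₀ le_top
  have hKKm : KK ≤ RF m₀ := sup_le hK₁m hHm
  have hζK₁ : ζ ∈ K₁ := (le_sup_right : Z ≤ K₁) (IntermediateField.mem_adjoin_simple_self _ ζ)
  have hmfd := T.fin m₀ hm₀b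
  have hfdK₁ : FiniteDimensional (kk A B) K₁ :=
    FiniteDimensional.of_injective (IntermediateField.inclusion hK₁m).toLinearMap
      (IntermediateField.inclusion hK₁m).injective
  have hfdKK : FiniteDimensional (kk A B) KK :=
    FiniteDimensional.of_injective (IntermediateField.inclusion hKKm).toLinearMap
      (IntermediateField.inclusion hKKm).injective
  set K : IntermediateField ℚ ℂ := KK.restrictScalars ℚ with hK
  have hkK : kk A B ≤ K := fun x hx => KK.algebraMap_mem ⟨x, hx⟩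
  have hKK' : IntermediateField.extendScalars hkK = KK := SetLike.ext fun x => Iff.rfl
  have hk1 : kk A B ≤ K₁.restrictScalars ℚ := fun x hx => K₁.algebraMap_mem ⟨x, hx⟩
  have hK₁' : IntermediateField.extendScalars hk1 = K₁ := SetLike.ext fun x => Iff.rfl
  have hfdK : FiniteDimensional ℚ K := by
    have : FiniteDimensional ℚ KK := FiniteDimensional.trans ℚ (kk A B) KK
    exact this
  have hK0K : K₀ ≤ K := fun x hx =>
    (le_sup_left : K₁ ≤ KK) ((le_sup_left : E₀ ≤ K₁) (show x ∈ E₀ from hx))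
  obtain ⟨hgal0, -, hab0⟩ := h6 A B T m₀ hm₀b K₀ hk hKf
  obtain ⟨hgal, -, hab⟩ := h6 A B T m₀ hm₀b K hkK (fun x hx => hKKm hx)
  obtain ⟨hgal1, -, -⟩ := h6 A B T m₀ hm₀b (K₁.restrictScalars ℚ) hk1 (fun x hx => hK₁m hx)
  have hgalKK : IsGalois (kk A B) KK := by rw [← hKK']; exact hgal
  have hgalK₁ : IsGalois (kk A B) K₁ := by rw [← hK₁']; exact hgal1
  have hζK : ζ ∈ K := (le_sup_left : K₁ ≤ KK) hζK₁
  -- the degree of `K₁`
  have hB1 : ¬ Bn 1 ≤ K := by
    intro hB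
    have h8 := h4 p hp23 (Bn 1) K (hlay 1) hB ⟨ζ, hζK, hζ⟩
    have h9 := h2 p A B P V hC hP hV KK h8
    have h10 := h3 A B V hU T K₁ KK rfl
    have h11 := h9.trans h10
    have hEfd : FiniteDimensional (kk A B) E₀ :=
      FiniteDimensional.of_injective (IntermediateField.inclusion hE₀m).toLinearMap
        (IntermediateField.inclusion hE₀m).injective
    rcases hp23 with h | h
    · subst h
      -- `p = 2`
      have hd : Module.finrank (kk A B) E₀ ∣ Module.finrank (kk A B) K₁ :=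
        IntermediateField.finrank_dvd_of_le_right (le_sup_left : E₀ ≤ K₁)
      have hle : Module.finrank (kk A B) K₁ ≤
          Module.finrank (kk A B) E₀ * Module.finrank (kk A B) Z :=
        IntermediateField.finrank_sup_le E₀ Z
      have hZ2 : Module.finrank (kk A B) Z ≤ 2 := by
        have hζ2 : ζ ^ 2 = -1 := by
          have h12 : (ζ ^ 2) ^ 2 = 1 := by rw [← pow_mul]; exact hζ.pow_eq_one
          rcases sq_eq_one_iff.mp h12 with h13 | h13
          · exact absurd h13 (hζ.pow_ne_one_of_pos_of_lt (by norm_num) (by norm_num))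
          · exact h13
        have hint : IsIntegral (kk A B) ζ := by
          refine ⟨Polynomial.X ^ 2 + 1, ?_, ?_⟩
          · have : (Polynomial.X ^ 2 + 1 : Polynomial (kk A B)) =
                Polynomial.X ^ 2 + Polynomial.C 1 := by simp
            rw [this]
            exact Polynomial.monic_X_pow_add_C _ two_ne_zero
          · simp [hζ2]
        rw [hZ, IntermediateField.adjoin.finrank hint]
        have h13 : Polynomial.aeval ζ (Polynomial.X ^ 2 + 1 : Polynomial (kk A B)) = 0 := by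
          simp [hζ2]
        have h14 : (Polynomial.X ^ 2 + 1 : Polynomial (kk A B)) =
            Polynomial.X ^ 2 + Polynomial.C 1 := by simp
        have h15 : (Polynomial.X ^ 2 + 1 : Polynomial (kk A B)) ≠ 0 := by
          rw [h14]
          exact (Polynomial.monic_X_pow_add_C _ two_ne_zero).ne_zero
        refine (Polynomial.natDegree_le_of_dvd (minpoly.dvd _ _ h13) h15).trans ?_
        rw [h14, Polynomial.natDegree_X_pow_add_C]
      have h12 : 4 ∣ Module.finrank (kk A B) K₁ := by simpa [q0] using h11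
      have hpos : 0 < Module.finrank (kk A B) K₁ := Module.finrank_pos
      obtain ⟨b, hb⟩ := hd
      have hposE : 0 < Module.finrank (kk A B) E₀ := Module.finrank_pos
      have hb2 : b ≤ 2 := by
        have h16 : Module.finrank (kk A B) E₀ * b ≤ Module.finrank (kk A B) E₀ * 2 := by
          rw [← hb]
          exact hle.trans (Nat.mul_le_mul_left _ hZ2)
        exact Nat.le_of_mul_le_mul_left h16 hposE
      apply hcop
      rw [hb] at h12 hpos
      have hbpos : b ≠ 0 := by rintro rfl; simp at hpos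
      have hb12 : b = 1 ∨ b = 2 := by omega
      rcases hb12 with h16 | h16
      · subst h16; omega
      · subst h16; omega
    · subst h
      -- `p = 3`
      obtain ⟨ω, hω, hω3⟩ := hom
      have hζ3 : (-ζ) ^ 3 = 1 := by
        have h12 : (ζ ^ 3) ^ 2 = 1 := by rw [← pow_mul]; exact hζ.pow_eq_one
        have h13 : ζ ^ 3 = -1 := by
          rcases sq_eq_one_iff.mp h12 with h13 | h13
          · exact absurd h13 (hζ.pow_ne_one_of_pos_of_lt (by norm_num) (by norm_num))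
          · exact h13
        rw [Odd.neg_pow (by decide), h13, neg_neg]
      obtain ⟨i, -, hi⟩ := hω3.eq_pow_of_pow_eq_one hζ3
      have hζ0 : ζ ∈ K₀ := by
        have : ζ = -(ω ^ i) := by rw [hi, neg_neg]
        rw [this]
        exact neg_mem (pow_mem hω i)
      have hEK : K₁ = E₀ := by
        apply le_antisymm _ le_sup_left
        refine sup_le le_rfl ?_
        rw [hZ, IntermediateField.adjoin_le_iff]
        intro x hx
        rw [Set.mem_singleton_iff] at hx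
        rw [hx]
        exact hζ0
      apply hcop
      rw [hEK] at h11
      have h12 : 3 ∣ q0 3 * (3 - 1) := by decide
      exact h12.trans h11
  have hB10 : ¬ Bn 1 ≤ K₀ := fun h => hB1 (h.trans hK0K)
  refine ⟨K, hfdK, f, ?_, ?_, ?_, ?_⟩
  · exact
      { b0 := ⟨hk, hgal0, hab0, h5 p K₀ Bn hlay hmono hB10, hlay, hmono⟩
        b := ⟨hkK, hgal, hab, h5 p K Bn hlay hmono hB1, hlay, hmono⟩
        le := hK0K
        cop := hcop
        om := hom
        ze := ⟨ζ, hζK, hζ⟩ }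
  · exact ⟨hC, hP, hV, hf0, hfp, hfD, hf2⟩
  · exact fun y hy => hKKm hy
  · exact fun y hy => (le_sup_right : RF (⊤ : Ideal (OO A B)) ≤ KK) hy

end Pool.Agent.MUXJ


end

section

/-!
# MUX, block J, module OMG: adjoining the `p`-th roots of unity, `p = 2, 3` (helper42)
-/

set_option autoImplicit false

open NumberField IsDedekindDomain Polynomial
open scoped nonZeroDivisors Pointwise

namespace Pool.Agent.MUXJ

open _root_.MU3 _root_.Pool.Agent.MU3 _root_.Pool.Agent.MU3A _root_.Pool.Agent.MU3B _root_.Pool.Agent.RI _root_.Pool.Agent.RID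
  _root_.Pool.Agent.MUX _root_.Pool.Agent.MUXK _root_.Pool.Agent.MUXE

noncomputable section

namespace Omg

/-- a quadratic element generates a field of degree prime to 3 -/
lemma quad {F E : Type*} [Field F] [Field E] [Algebra F E] (x : E) (b c : F)
    (h : x ^ 2 + algebraMap F E b * x + algebraMap F E c = 0) :
    IsIntegral F x ∧ ¬ 3 ∣ Module.finrank F (IntermediateField.adjoin F {x}) := by
  have hpm : (X ^ 2 + C b * X + C c : F[X]).Monic := by monicity!
  have hpd : (X ^ 2 + C b * X + C c : F[X]).natDegree = 2 := by compute_degree!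
  have hp : aeval x (X ^ 2 + C b * X + C c : F[X]) = 0 := by
    simp only [map_add, map_mul, map_pow, aeval_X, aeval_C]
    exact h
  have hint : IsIntegral F x := ⟨_, hpm, hp⟩
  have hle : (minpoly F x).natDegree ≤ 2 := by
    rw [← hpd]
    exact natDegree_le_of_dvd (minpoly.dvd F x hp) hpm.ne_zero
  have hpos : 0 < (minpoly F x).natDegree := minpoly.natDegree_pos hint
  refine ⟨hint, ?_⟩
  rw [IntermediateField.adjoin.finrank hint]
  intro h3
  have := Nat.le_of_dvd hpos h3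
  omega

/-- degrees in the tower `k ≤ F ≤ F₁` -/
lemma tower {k F F₁ : IntermediateField ℚ ℂ} [FiniteDimensional ℚ F] (hk : k ≤ F) (h : F ≤ F₁) :
    Module.finrank k (IntermediateField.extendScalars (hk.trans h)) =
      Module.finrank k (IntermediateField.extendScalars hk) *
        Module.finrank F (IntermediateField.extendScalars h) := by
  have e1 := Pool.Agent.FX.fmul ℚ k (IntermediateField.extendScalars hk)
  have e2 := Pool.Agent.FX.fmul ℚ k (IntermediateField.extendScalars (hk.trans h))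
  have e3 := Pool.Agent.FX.fmul ℚ F (IntermediateField.extendScalars h)
  have e4 : Module.finrank ℚ (IntermediateField.extendScalars hk) = Module.finrank ℚ F := rfl
  have e5 : Module.finrank ℚ (IntermediateField.extendScalars (hk.trans h)) =
    Module.finrank ℚ F₁ := rfl
  have e6 : Module.finrank ℚ (IntermediateField.extendScalars h) = Module.finrank ℚ F₁ := rfl
  have e7 : 0 < Module.finrank ℚ F := Module.finrank_pos
  rw [e4] at e1
  rw [e5] at e2
  rw [e6] at e3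
  rw [← e1] at e3 e7
  rw [← e3, mul_assoc] at e2
  exact Nat.eq_of_mul_eq_mul_left (Nat.pos_of_mul_pos_right e7) e2

/-- adjoining a cube root of unity -/
lemma omega_ext (F : IntermediateField ℚ ℂ) [FiniteDimensional ℚ F] (ω : ℂ)
    (hω : IsPrimitiveRoot ω 3) (hq : ω ^ 2 + ω + 1 = 0)
    (T : IntermediateField ℚ ℂ) (hFT : F ≤ T) (hωT : ω ∈ T) :
    ∃ (F₁ : IntermediateField ℚ ℂ) (h : F ≤ F₁) (_ : FiniteDimensional ℚ F₁), F₁ ≤ T ∧ ω ∈ F₁ ∧
      IsGalois F (IntermediateField.extendScalars h) ∧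
      ¬ 3 ∣ Module.finrank F (IntermediateField.extendScalars h) := by
  obtain ⟨hint, h3⟩ := quad (F := F) ω 1 1 (by rw [map_one]; linear_combination hq)
  set E := IntermediateField.adjoin F {ω} with hE
  set F₁ := E.restrictScalars ℚ with hF₁
  have h : F ≤ F₁ := by
    intro x hx
    exact E.algebraMap_mem ⟨x, hx⟩
  have he : IntermediateField.extendScalars h = E := by
    ext x; rfl
  have hgal : IsGalois F E := by
    have hcyc : IsCyclotomicExtension {3} F E := by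
      change IsCyclotomicExtension {3} F (IntermediateField.adjoin F {ω}).toSubalgebra
      rw [IntermediateField.adjoin_simple_toSubalgebra_of_isAlgebraic hint.isAlgebraic]
      exact hω.adjoin_isCyclotomicExtension F
    exact IsCyclotomicExtension.isGalois {3} F E
  have hfd : FiniteDimensional F E := IntermediateField.adjoin.finiteDimensional hint
  have hfd1 : FiniteDimensional ℚ E := Module.Finite.trans F E
  refine ⟨F₁, h, hfd1, ?_, ?_, ?_, ?_⟩
  · have h5 : E ≤ IntermediateField.extendScalars hFT := by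
      rw [hE, IntermediateField.adjoin_simple_le_iff]
      exact hωT
    intro x hx
    exact h5 hx
  · exact IntermediateField.mem_adjoin_simple_self F ω
  · rw [he]
    exact hgal
  · rw [he]
    exact h3

/-- `O` has characteristic zero -/
lemma nat_ne {A B : ℤ} {n : ℕ} (hn : n ≠ 0) : (n : OO A B) ≠ 0 := by
  intro h
  have h1 := congrArg QuadraticAlgebra.re h
  rw [QuadraticAlgebra.re_natCast] at h1
  apply hn
  exact_mod_cast h1

lemma idl_ne {A B : ℤ} {n : ℕ} (hn : n ≠ 0) : (idl n : Ideal (OO A B)) ≠ ⊥ := by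
  rw [Ne, Ideal.span_singleton_eq_bot]
  exact nat_ne hn

lemma idl_le {A B : ℤ} {m n : ℕ} (h : m ∣ n) : (idl n : Ideal (OO A B)) ≤ idl m := by
  rw [Ideal.span_singleton_le_span_singleton]
  exact Nat.cast_dvd_cast h

end Omg

open _root_.Pool.Agent.MUXJ.Omg

/-- the module OMG -/
theorem t_OMG (h1 : Sj_DIR) : Sj_OMG := by
  intro p A B hc hT hNL F hF hk hU hp
  rcases hc.split with ⟨rfl, -⟩ | ⟨rfl, -⟩
  · obtain ⟨M, hM, hMF⟩ := h1 A B hc.toCQ hT F hU
    obtain ⟨b, L, om, hL⟩ := hNL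
    obtain ⟨ζ, hω⟩ : ∃ ζ : ℂ, IsPrimitiveRoot ζ 3 :=
      ⟨_, Complex.isPrimitiveRoot_exp 3 (by norm_num)⟩
    have hq : ζ ^ 2 + ζ + 1 = 0 := by
      have h1 := hω.pow_eq_one
      have h2 := hω.ne_one (by norm_num)
      have h3 : (ζ - 1) * (ζ ^ 2 + ζ + 1) = 0 := by linear_combination h1
      rcases mul_eq_zero.1 h3 with h4 | h4
      · exact absurd (sub_eq_zero.1 h4) h2
      · exact h4
    have hm : (idl (3 * M) : Ideal (OO A B)) ≠ ⊥ := idl_ne (by positivity)
    obtain ⟨a, -, ha⟩ := hT.act (idl (3 * M)) hm (RingEquiv.refl ℂ) rfl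
    obtain ⟨b', L', om', mu, hL', hA⟩ := ha b L om hL
    have hz := (hT.zeta 3 (idl (3 * M)) a (RingEquiv.refl ℂ) b L L' om mu hm rfl (by norm_num)
      (idl_le (Dvd.intro _ rfl)) hL hA ζ hω.pow_eq_one).1
    obtain ⟨F₁, h, hfd, hT1, hω1, hg, h3⟩ := omega_ext F ζ hω hq
      ((RF (idl (3 * M) : Ideal (OO A B))).restrictScalars ℚ)
      (fun x hx => hT.mono _ _ (idl_le (Dvd.intro_left _ rfl)) (hMF x hx)) hz
    refine ⟨F₁, h, hfd, fun x hx => ⟨_, hm, hT1 hx⟩, ⟨_, hω1, hω⟩, hg, h3, ?_⟩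
    rw [tower hk h, Nat.prime_three.dvd_mul]
    exact not_or.2 ⟨hp, h3⟩
  · refine ⟨F, le_rfl, hF, hU, ⟨-1, F.neg_mem F.one_mem, IsPrimitiveRoot.neg_one 0 (by norm_num)⟩,
      ?_, ?_, hp⟩
    · rw [IntermediateField.extendScalars_self]
      infer_instance
    · rw [IntermediateField.extendScalars_self, IntermediateField.finrank_bot]
      norm_num

end

end Pool.Agent.MUXJ


end

section

/-!
# MUX, block J, module FIN: the main theorem for all fields, from the inputs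
-/

set_option autoImplicit false

open NumberField IsDedekindDomain
open scoped nonZeroDivisors Pointwise

namespace Pool.Agent.MUXJ

open _root_.MU3 _root_.Pool.Agent.MU3 _root_.Pool.Agent.MU3A _root_.Pool.Agent.MU3B _root_.Pool.Agent.RI _root_.Pool.Agent.RID
  _root_.Pool.Agent.MUX _root_.Pool.Agent.MUXK _root_.Pool.Agent.MUXE

noncomputable section

namespace JFin

/-- the ideal of a nonzero natural number is not zero -/
lemma idl_ne_bot {A B : ℤ} {M : ℕ} (hM : M ≠ 0) : idl (A := A) (B := B) M ≠ ⊥ := by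
  rw [Ne, Ideal.span_singleton_eq_bot]
  intro h
  have h1 := congrArg QuadraticAlgebra.re h
  rw [QuadraticAlgebra.re_natCast] at h1
  exact hM (by exact_mod_cast h1)

/-- the case of a field `K₀` of degree prime to `p` over `k` with the `p`-th roots of unity -/
theorem cop (hRES : Sj_RES) (hSET : Sj_SET) (hMAIN : S_MAINKX) (p : ℕ) [Fact p.Prime]
    (A B : ℤ) (P : Ideal (OO A B)) (V : ValuationSubring ℂ) (hc : CaseP p A B) (hP : IsPN p P)
    (hV : OverI V P) (hpV : (p : ℂ) ∈ V.nonunits) (hU : UnrH A B V) (hT : TorX A B)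
    (hN : NLex A B) (hI : InpAll p A B V) (K₀ : IntermediateField ℚ ℂ) [FiniteDimensional ℚ K₀]
    (hk : kk A B ≤ K₀) (hcop : ¬ p ∣ Module.finrank (kk A B) (IntermediateField.extendScalars hk))
    (hTU : TorU A B K₀) (hω : ∃ ω ∈ K₀, IsPrimitiveRoot ω p)
    (Bn : ℕ → IntermediateField ℚ ℂ) (hlay : ∀ n, IsLayer p n (Bn n)) (hmono : Monotone Bn) :
    ∃ C : ℕ, ∀ n, padicValNat p (classNo (K₀ ⊔ Bn n)) ≤ C * (n + 1) ^ 2 := by
  obtain ⟨K, hKfd, f, hSX, hSP, hKR, hHK⟩ :=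
    hSET p A B P V hc hP hV hU hT hN K₀ hk hcop hTU hω Bn hlay hmono
  have hfk : FiniteDimensional ℚ (kk A B) :=
    Module.Finite.of_injective (IntermediateField.inclusion hk).toLinearMap
      (IntermediateField.inclusion hk).injective
  have hfB : ∀ n, FiniteDimensional ℚ ↥(K ⊔ Bn n) := fun n => by
    obtain ⟨h1, -, -⟩ := LAY_thm p n (Bn n) (hlay n)
    exact IntermediateField.finiteDimensional_sup K (Bn n)
  have hkn : ∀ n, kk A B ≤ K ⊔ Bn n := fun n => (hk.trans hSX.le).trans le_sup_left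
  have hk₀n : ∀ n, kk A B ≤ K₀ ⊔ Bn n := fun n => hk.trans le_sup_left
  obtain ⟨S, c, c₀, n₁, hInp⟩ := hI P f hSP K₀ K Bn hSX hKR hHK hkn hk₀n hk
  obtain ⟨hchar, halg⟩ := hRES p V hpV
  exact hMAIN (IsLocalRing.ResidueField V) p (kk A B) K₀ K Bn hSX hkn hk₀n hk S c c₀ n₁ hInp

end JFin

open _root_.Pool.Agent.MUXJ.JFin in
theorem t_FIN (h1 : Sj_RES) (h2 : Sj_LAY) (h3 : Sj_DIR) (h4 : Sj_GAL) (h5 : Sj_SET) (h6 : Sj_UP)
    (h7 : Sj_SUB) (h8 : Sj_OMG) (h9 : Sj_FLD) (h10 : S_MAINKX) (h11 : P_SYL) (h12 : P_PEX) :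
    Sj_FIN := by
  intro p A B P V hc hP hV hpV hU hT hN hI F M K _ hkF hFM a hTU hgal hdeg hKM
  have hpp : p = 2 ∨ p = 3 := by
    rcases hc.split with ⟨h, -⟩ | ⟨h, -⟩
    · exact Or.inr h
    · exact Or.inl h
  have hp : Fact p.Prime := by
    rcases hpp with rfl | rfl
    · exact ⟨Nat.prime_two⟩
    · exact ⟨Nat.prime_three⟩
  have hfF : FiniteDimensional ℚ F :=
    Module.Finite.of_injective (IntermediateField.inclusion hFM).toLinearMap
      (IntermediateField.inclusion hFM).injective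
  obtain ⟨-, hTot⟩ := h9 A B hc.toCQ
  obtain ⟨Bn, hlay, hmono, huniq⟩ := h2 p hpp
  obtain ⟨M₀, hM₀, hFR⟩ := h3 A B hc.toCQ hT F hTU
  obtain ⟨hgF, -, hab⟩ := h4 A B hT (idl M₀) (idl_ne_bot hM₀) F hkF hFR
  obtain ⟨F₀, hk₀, h₂, -, hn1, hg2, b, hb⟩ := h11 p (kk A B) F hkF hgF hab
  have hfF₀ : FiniteDimensional ℚ F₀ :=
    Module.Finite.of_injective (IntermediateField.inclusion h₂).toLinearMap
      (IntermediateField.inclusion h₂).injective
  have hTU₀ : TorU A B F₀ := fun x hx => hTU x (h₂ hx)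
  obtain ⟨F₁, hFF, hf1, hTU₁, hω, hgF₁, hnFF, hnF1⟩ := h8 p A B hc hT hN F₀ hk₀ hTU₀ hn1
  obtain ⟨C, hC⟩ := cop h1 h5 h10 p A B P V hc hP hV hpV hU hT hN hI F₁ (hk₀.trans hFF) hnF1
    hTU₁ hω Bn hlay hmono
  have hC0 : ∀ n, padicValNat p (classNo (F₀ ⊔ Bn n)) ≤ C * (n + 1) ^ 2 := fun n =>
    (h6 p F₀ F₁ (Bn n) n hFF (hlay n) hgF₁ hnFF).trans (hC n)
  have hE := h12 p b F₀ F Bn h₂ hg2 hb (hTot F₀ hk₀) hlay hmono ⟨C, 2, hC0⟩
  obtain ⟨C', j, hC'⟩ := h12 p a F M Bn hFM hgal hdeg (hTot F hkF) hlay hmono hE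
  obtain ⟨C₁, hC₁⟩ := h7 p K M hKM
  refine ⟨C' + C₁ + j, fun n Q hQ => ?_⟩
  have e1 := hC₁ n Q hQ
  rw [huniq n Q hQ] at e1 ⊢
  have e2 := hC' n
  have e3 : (n + 1) ^ j ≤ (n + 1) ^ (C' + C₁ + j) :=
    Nat.pow_le_pow_right (Nat.succ_pos n) (Nat.le_add_left _ _)
  have e4 : 1 ≤ (n + 1) ^ (C' + C₁ + j) := Nat.one_le_pow _ _ (Nat.succ_pos n)
  calc padicValNat p (classNo (K ⊔ Bn n)) ≤ padicValNat p (classNo (M ⊔ Bn n)) + C₁ := e1
    _ ≤ C' * (n + 1) ^ j + C₁ := by omega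
    _ ≤ C' * (n + 1) ^ (C' + C₁ + j) + C₁ * (n + 1) ^ (C' + C₁ + j) :=
        add_le_add (Nat.mul_le_mul_left _ e3) (Nat.le_mul_of_pos_right _ e4)
    _ = (C' + C₁) * (n + 1) ^ (C' + C₁ + j) := by rw [add_mul]
    _ ≤ (C' + C₁ + j) * (n + 1) ^ (C' + C₁ + j) :=
        Nat.mul_le_mul_right _ (Nat.le_add_right _ _)

end

end Pool.Agent.MUXJ


end

section

/-!
# MUX, block J, module OMGG: adjoining the `p`-th roots of unity, `p = 2, 3`, no hypothesis on the splitting of `p`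
(helper19; adapted from `J_OMG.lean`, helper42)
-/

set_option autoImplicit false

open NumberField IsDedekindDomain Polynomial
open scoped nonZeroDivisors Pointwise

namespace Pool.Agent.MUXJ

open _root_.MU3 _root_.Pool.Agent.MU3 _root_.Pool.Agent.MU3A _root_.Pool.Agent.MU3B _root_.Pool.Agent.RI _root_.Pool.Agent.RID
  _root_.Pool.Agent.MUX _root_.Pool.Agent.MUXK _root_.Pool.Agent.MUXE

noncomputable section

open _root_.Pool.Agent.MUXJ.Omg

/-- the module OMGG -/
theorem t_OMGG (h1 : Sj_DIR) : Sj_OMGG := by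
  intro p A B hc hp23 hT hNL F hF hk hU hp
  rcases hp23 with rfl | rfl
  · refine ⟨F, le_rfl, hF, hU, ⟨-1, F.neg_mem F.one_mem, IsPrimitiveRoot.neg_one 0 (by norm_num)⟩,
      ?_, ?_, hp⟩
    · rw [IntermediateField.extendScalars_self]
      infer_instance
    · rw [IntermediateField.extendScalars_self, IntermediateField.finrank_bot]
      norm_num
  · obtain ⟨M, hM, hMF⟩ := h1 A B hc hT F hU
    obtain ⟨b, L, om, hL⟩ := hNL
    obtain ⟨ζ, hω⟩ : ∃ ζ : ℂ, IsPrimitiveRoot ζ 3 :=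
      ⟨_, Complex.isPrimitiveRoot_exp 3 (by norm_num)⟩
    have hq : ζ ^ 2 + ζ + 1 = 0 := by
      have h1 := hω.pow_eq_one
      have h2 := hω.ne_one (by norm_num)
      have h3 : (ζ - 1) * (ζ ^ 2 + ζ + 1) = 0 := by linear_combination h1
      rcases mul_eq_zero.1 h3 with h4 | h4
      · exact absurd (sub_eq_zero.1 h4) h2
      · exact h4
    have hm : (idl (3 * M) : Ideal (OO A B)) ≠ ⊥ := idl_ne (by positivity)
    obtain ⟨a, -, ha⟩ := hT.act (idl (3 * M)) hm (RingEquiv.refl ℂ) rfl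
    obtain ⟨b', L', om', mu, hL', hA⟩ := ha b L om hL
    have hz := (hT.zeta 3 (idl (3 * M)) a (RingEquiv.refl ℂ) b L L' om mu hm rfl (by norm_num)
      (idl_le (Dvd.intro _ rfl)) hL hA ζ hω.pow_eq_one).1
    obtain ⟨F₁, h, hfd, hT1, hω1, hg, h3⟩ := omega_ext F ζ hω hq
      ((RF (idl (3 * M) : Ideal (OO A B))).restrictScalars ℚ)
      (fun x hx => hT.mono _ _ (idl_le (Dvd.intro_left _ rfl)) (hMF x hx)) hz
    refine ⟨F₁, h, hfd, fun x hx => ⟨_, hm, hT1 hx⟩, ⟨_, hω1, hω⟩, hg, h3, ?_⟩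
    rw [tower hk h, Nat.prime_three.dvd_mul]
    exact not_or.2 ⟨hp, h3⟩

end

end Pool.Agent.MUXJ


end

section

/-!
# MUX-NS: existence of the valuation ring above any maximal ideal, and the prime ideal `(p)` for `p = 2, 3` inert (helper36)

The proof of `vex` is that of `Pool/Agent/MUX/J_VEX.lean`.
-/

set_option autoImplicit false

open NumberField IsDedekindDomain

namespace Pool.Agent.NSZ

open _root_.MU3 _root_.Pool.Agent.MU3 _root_.Pool.Agent.MU3A _root_.Pool.Agent.MU3B _root_.Pool.Agent.RI _root_.Pool.Agent.RID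
  _root_.Pool.Agent.MUX _root_.Pool.Agent.MUXK _root_.Pool.Agent.MUXE _root_.Pool.Agent.MUXJ

noncomputable section

/-- a valuation ring above a maximal ideal -/
theorem vex {A B : ℤ} (h : MUX.CQ A B) (P : Ideal (OO A B)) (hm : P.IsMaximal) :
    ∃ V : ValuationSubring ℂ, OverI V P := by
  let φ : OO A B →+* ℂ := RNGaux.eH h
  have hφ : ∀ x, φ x = emb x := RNGaux.eH_apply h
  have hinj : ∀ x y, φ x = φ y → x = y := by
    intro x y hxy
    rw [hφ, hφ] at hxy
    exact RNGaux.emb_inj h hxy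
  let I : Ideal φ.range := P.map φ.rangeRestrict
  have hmem : ∀ y, y ∈ I ↔ ∃ x ∈ P, φ.rangeRestrict x = y := fun y =>
    Ideal.mem_map_iff_of_surjective _ φ.rangeRestrict_surjective
  have hI : I ≠ ⊤ := by
    intro hI
    have h1 : (1 : φ.range) ∈ I := by rw [hI]; trivial
    obtain ⟨x, hx, hx1⟩ := (hmem _).1 h1
    have h2 : φ x = φ 1 := by
      have := congrArg Subtype.val hx1
      rw [map_one]
      simpa using this
    rw [hinj _ _ h2] at hx
    exact hm.ne_top ((Ideal.eq_top_iff_one P).2 hx)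
  obtain ⟨V, hV, hVI⟩ := Ideal.image_subset_nonunits_valuationSubring I hI
  have hle : ∀ x : OO A B, V.valuation (emb x) ≤ 1 := by
    intro x
    rw [← hφ]
    exact (V.valuation_le_one_iff _).2 (hV ⟨x, rfl⟩)
  have hP1 : ∀ x ∈ P, emb x ∈ V.nonunits := by
    intro x hx
    rw [← hφ]
    exact hVI ⟨φ.rangeRestrict x, (hmem _).2 ⟨x, hx, rfl⟩, rfl⟩
  refine ⟨V, fun x => ⟨fun hx => ?_, hP1 x⟩⟩
  by_contra hxP
  obtain ⟨y, i, hi, hy⟩ := hm.exists_inv hxP
  have h1 : emb y * emb x + emb i = 1 := by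
    rw [← hφ, ← hφ, ← hφ, ← map_mul, ← map_add, hy, map_one]
  rw [ValuationSubring.mem_nonunits_iff] at hx
  have hi' := hP1 i hi
  rw [ValuationSubring.mem_nonunits_iff] at hi'
  have h2 : V.valuation (emb y * emb x) < 1 := by
    rw [map_mul]
    exact lt_of_le_of_lt (mul_le_of_le_one_left' (hle y)) hx
  have h3 : V.valuation (emb y * emb x + emb i) < 1 := Valuation.map_add_lt _ h2 hi'
  rw [h1, map_one] at h3
  exact lt_irrefl _ h3

lemma mem_idl {A B : ℤ} (n : ℕ) (x : OO A B) :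
    x ∈ idl (A := A) (B := B) n ↔ (n : ℤ) ∣ x.re ∧ (n : ℤ) ∣ x.im := by
  rw [Ideal.mem_span_singleton]
  constructor
  · rintro ⟨t, rfl⟩
    refine ⟨⟨t.re, ?_⟩, ⟨t.im, ?_⟩⟩
    · rw [QuadraticAlgebra.re_mul]; simp
    · rw [QuadraticAlgebra.im_mul]; simp
  · rintro ⟨⟨s, hs⟩, ⟨t, ht⟩⟩
    refine ⟨⟨s, t⟩, ?_⟩
    apply QuadraticAlgebra.ext
    · rw [QuadraticAlgebra.re_mul]; simp [hs]
    · rw [QuadraticAlgebra.im_mul]; simp [ht]

/-- if the norm of every element outside `(p)` is prime to `p` then `(p)` is maximal -/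
theorem idl_max {A B : ℤ} (p : ℕ) (hp : p.Prime)
    (h : ∀ a b : ℤ, (p : ℤ) ∣ a ^ 2 + B * a * b - A * b ^ 2 → (p : ℤ) ∣ a ∧ (p : ℤ) ∣ b) :
    (idl (A := A) (B := B) p).IsMaximal := by
  rw [Ideal.isMaximal_iff]
  refine ⟨?_, ?_⟩
  · rw [mem_idl]
    rintro ⟨h1, -⟩
    rw [QuadraticAlgebra.re_one] at h1
    have h2 : (p : ℤ) ≤ 1 := Int.le_of_dvd one_pos h1
    have h3 := hp.two_le
    omega
  · intro J x hJ hx hxJ
    have h1 : ¬ (p : ℤ) ∣ x.re ^ 2 + B * x.re * x.im - A * x.im ^ 2 := by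
      intro h2
      exact hx ((mem_idl p x).2 (h _ _ h2))
    obtain ⟨N, hN⟩ : ∃ N, N = x.re ^ 2 + B * x.re * x.im - A * x.im ^ 2 := ⟨_, rfl⟩
    rw [← hN] at h1
    have h2 : ((N : ℤ) : OO A B) ∈ J := by
      have h3 : ((N : ℤ) : OO A B) = ⟨x.re + B * x.im, -x.im⟩ * x := by
        apply QuadraticAlgebra.ext
        · rw [QuadraticAlgebra.re_mul, QuadraticAlgebra.re_intCast, hN, Int.cast_id]
          ring
        · rw [QuadraticAlgebra.im_mul, QuadraticAlgebra.im_intCast]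
          ring
      rw [h3]
      exact J.mul_mem_left _ hxJ
    have h3 : IsCoprime (p : ℤ) N := (Nat.prime_iff_prime_int.1 hp).coprime_iff_not_dvd.2 h1
    obtain ⟨s, t, hst⟩ := h3
    have h4 : ((p : ℕ) : OO A B) ∈ J := hJ (Ideal.mem_span_singleton_self _)
    have h5 : (1 : OO A B) = (s : OO A B) * ((p : ℕ) : OO A B) + (t : OO A B) * ((N : ℤ) : OO A B) := by
      have h6 := congrArg (fun z : ℤ => (z : OO A B)) hst
      push_cast at h6 ⊢
      exact h6.symm
    rw [h5]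
    exact J.add_mem (J.mul_mem_left _ h4) (J.mul_mem_left _ h2)

/-- the data `AboX` for an inert prime -/
theorem aboX {A B : ℤ} (p : ℕ) (hp : p = 2 ∨ p = 3) (hC : MUX.CQ A B)
    (hm : (idl (A := A) (B := B) p).IsMaximal) (V : ValuationSubring ℂ)
    (hV : OverI V (idl (A := A) (B := B) p)) : AboX p 1 A B (idl (A := A) (B := B) p) V := by
  have hpp : p.Prime := by
    rcases hp with rfl | rfl
    · exact Nat.prime_two
    · exact Nat.prime_three
  have h1 : ((p : ℕ) : OO A B) ∈ idl (A := A) (B := B) p := Ideal.mem_span_singleton_self _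
  refine ⟨hC, hp, Or.inl rfl, fun _ => rfl, hm.isPrime, h1, fun _ h2 => ?_, hV, ?_⟩
  · have h3 : (idl (A := A) (B := B) p) ^ 2 = idl (p ^ 2) := by
      unfold idl
      rw [Ideal.span_singleton_pow]
      push_cast
      rfl
    rw [h3, mem_idl] at h2
    obtain ⟨⟨c, hc⟩, -⟩ := h2
    rw [QuadraticAlgebra.re_natCast] at hc
    push_cast at hc
    have h4 : (p : ℤ) ≠ 0 := by exact_mod_cast hpp.ne_zero
    have h5 : (1 : ℤ) = p * c := by
      have : (p : ℤ) * 1 = p * (p * c) := by rw [mul_one]; linarith [hc]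
      exact mul_left_cancel₀ h4 this
    have h6 : (p : ℤ) ≤ 1 := Int.le_of_dvd one_pos ⟨c, h5⟩
    have h7 := hpp.two_le
    omega
  · have h2 := (hV ((p : ℕ) : OO A B)).2 h1
    have h3 : emb ((p : ℕ) : OO A B) = (p : ℂ) := by
      rw [← RNGaux.eH_apply hC, map_natCast]
    rwa [h3] at h2

end

end Pool.Agent.NSZ


end
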