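import Mathlib
import Pool.Agent.MVF.C008
import Pool.Agent.MVF.C014
import Pool.Agent.MVF.C021
import Pool.Agent.MVF.C033
import Pool.Agent.MVF.C039

/-! Parts: MUX.StXC, ME.StCE, ME.C_CJN, ME.C_TOR, ME.C_SUR, ME.C_IND, ME.C_FNG, ME.C_EXT, MUX.C_UNQ, MUX.C_RP2, MUX.C_REP, MUX.C_QNE, MUX.C_PMF, MUX.C_NRL, MUX.C_ISL, MUX.C_INV, MUX.C_GEN, MUX.C_FNG, MU3.W_LOC, MUX.C_EXA, MUX.C_DNX, MUX.C_COP, MUX.C_CMP, MUX.C_CHG, MUX.R_POL, MUX.Y_MUU, ME.X.StWX, MUX.W_THC -/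

namespace Pool.Agent.MEC.CJN
end Pool.Agent.MEC.CJN
namespace Pool.Agent.MEC.EXT
end Pool.Agent.MEC.EXT
namespace Pool.Agent.MEC.FNG
end Pool.Agent.MEC.FNG
namespace Pool.Agent.MEC.SUR
end Pool.Agent.MEC.SUR
namespace Pool.Agent.MUXC
end Pool.Agent.MUXC
namespace Pool.Agent.MUXC.CMP
end Pool.Agent.MUXC.CMP
namespace Pool.Agent.MUXC.FNG
end Pool.Agent.MUXC.FNG
namespace Pool.Agent.MUXC.REP
end Pool.Agent.MUXC.REP
namespace Pool.Agent.MUXC.RP2
end Pool.Agent.MUXC.RP2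
namespace Pool.Agent.MUXC.UNQ
end Pool.Agent.MUXC.UNQ
namespace Pool.Agent.MUXV.POL
end Pool.Agent.MUXV.POL
namespace Pool.Agent.MUXW.THC
end Pool.Agent.MUXW.THC

section

/-!
# MUX, block XC (helper51): the main theorem of complex multiplication, `TorX A B`

`O = OO A B`, `CQ A B` throughout. `XLib.lean` (namespace `Pool.Agent.MUX`) contains, WITHOUT hypotheses: `emb_mul`, `emb_add`, ..,
`emb_inj`, `emb_ne_zero`, `nm_mul`, `norm_sq_emb`, `isDomain`; ideals: `mul_cjI` (`b * cjI b = sp (nI b)`), `nI_ne_zero`, `nI_mul`,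
`mul_ne_bot`, `nI_mem` (`nI b ∈ b`), `cjI_ne_bot`, `mul_le_mul_iff` and `mul_cancel` (cancellation of a nonzero ideal), `finite_quot`;
lattices: `HasCM A B L`, `IsLI.hasCM`, `exists_isLI`, `Tor.of_mem`, `Tor.add`, `Tor.neg`, `Tor.mono`, `Tor.mul_emb`, `tor_top`,
`tor_span`, `tor_coprime` (a point killed by two coprime ideals is in `L`). Block U is in `UAll.lean` (`u_X : Su_X`), block B of MU3 in
`MU3/BAll.lean` (`b_X : St_X`), scaling is `Pool.Agent.MU3A.ta_SCP` (`MU3/A_SCP.lean`): these may be used directly.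

Every `def Sc_X : Prop` is the statement of a module which proves `theorem tc_X (h : ..) .. : Sc_X` in `Pool/Agent/MUX/C_X.lean`, namespace
`Pool.Agent.MUXC`; the hypotheses are the statements named under USES (fewer is fine). `Sxe_RNG` (StXE) is: `O` is a Dedekind domain etc.
Notation: `L[m] = {z : Tor m L z}`; `z ≡ z'` (mod `L`) means `z - z' ∈ L.lattice`; `a⁻¹L = {z : Tor a L z}`.
-/

set_option autoImplicit false

open Polynomial NumberField IsDedekindDomain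

namespace Pool.Agent.MUXC

open _root_.MU3 _root_.Pool.Agent.MU3A _root_.Pool.Agent.MU3B _root_.Pool.Agent.MUX _root_.Pool.Agent.MUXU _root_.Pool.Agent.RI
open _root_.Pool.Agent.MUXE (NL Sxe_RNG)

noncomputable section

/-! ## Ideals -/

/-- (CLF) finitely many classes of ideals.

PROOF. Let `c ≠ ⊥`, `N = nI c`, `r` = the integer part of `√N`. The `(r+1)²  > N` elements `u + v w`, `0 ≤ u, v ≤ r`, cannot be pairwise incongruent modulo
`cjI c` (`nI (cjI c) = N`): the difference of two of them is `0 ≠ y ∈ cjI c`, `nm y ≤ r² (1 + |B| + |A|) ≤ C N`, `C = 1 + |B| + |A|`. `a := {t : N t ∈ sp y * c}`: since `sp y * c ≤ cjI c * c = sp N`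
one has `sp y * c = sp N * a` (a multiple of the ideal `sp N`), and norms: `nm y N = N² nI a`, so `1 ≤ nI a ≤ C`, and `nI a ∈ a` (`nI_mem`), so `C! ∈ a`. The ideals which contain the integer `M = C! ≠ 0` are finitely many
(they correspond to ideals of the finite ring `O/(M)`: `Ideal.comap` of `Ideal.Quotient.mk` is injective on ideals and `a = comap (map a)`; `Finite (Ideal (O ⧸ sp M))`). `S` = those which are `≠ ⊥`. -/
def Sc_CLF : Prop :=
  ∀ A B : ℤ, CQ A B → ∃ S : Finset (Ideal (OO A B)), (∀ b ∈ S, b ≠ ⊥) ∧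
    ∀ c : Ideal (OO A B), c ≠ ⊥ → ∃ b ∈ S, ∃ x y : OO A B, x ≠ 0 ∧ y ≠ 0 ∧ sp x * c = sp y * b

/-- (COP) every class contains an integral ideal prime to `m`.

USES Sxe_RNG. PROOF. `O` is a Dedekind domain: `IsDedekindDomain.exists_sup_span_eq` (Mathlib, `DedekindDomain/Factorization.lean`) with `I = m * cjI c ≤ J = cjI c`, `I ≠ 0`: `y ∈ J` with `I ⊔ span {y} = J`. We may take `y ≠ 0`:
if `y = 0` then `m * cjI c = cjI c`, so `m = ⊤` and `a = c` works (with `x = y = 1`, `IsCoprime c ⊤`). As `sp y ≤ cjI c`, `sp y * c ≤ cjI c * c = sp N`, `N = nI c`, so `sp y * c = sp N * a` with the ideal `a = {t : N t ∈ sp y * c}`. Multiply by `cjI c`: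
`sp y * sp N = sp N * (a * cjI c)`, so `sp y = a * cjI c`. `m * cjI c ⊔ a * cjI c = cjI c` gives (`Ideal.sup_mul`, cancellation) `m ⊔ a = ⊤`. -/
def Sc_COP : Prop :=
  ∀ A B : ℤ, CQ A B → ∀ c m : Ideal (OO A B), c ≠ ⊥ → m ≠ ⊥ →
    ∃ (a : Ideal (OO A B)) (x y : OO A B), a ≠ ⊥ ∧ IsCoprime a m ∧ x ≠ 0 ∧ y ≠ 0 ∧
      sp x * c = sp y * a

/-! ## Lattices and ideals -/

/-- (TRO) the lattice `a⁻¹ L`.

PROOF. `L = om b`. (→) `nI a ∈ a`, so `nI a * z = om emb t`, `t ∈ b`, and for `x ∈ a`: `emb x z = om emb β`, `β ∈ b`, so `x t = nI a β`: `a * sp t ≤ sp (nI a) * b = a * (cjI a * b)`, cancel `a`: `t ∈ cjI a * b`. (←) `x ∈ a`, `t ∈ cjI a * b`: `x t ∈ a * cjI a * b = sp (nI a) * b`,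
`x t = nI a β`, `emb x z = om emb β`. -/
def Sc_TRO : Prop :=
  ∀ A B : ℤ, CQ A B → ∀ (b : Ideal (OO A B)) (L : PeriodPair) (om : ℂ), IsLI b L om →
    ∀ a : Ideal (OO A B), a ≠ ⊥ → ∀ z : ℂ,
      Tor a L z ↔ ∃ t ∈ cjI a * b, z = om * emb t / nI a

/-- (GEN) `L[m]/L` is cyclic, isomorphic to `O/m`.

USES TRO, Sxe_RNG. PROOF. `J = cjI m * b`, `I = m * J = sp (nI m) * b ≤ J`, `I ≠ ⊥`: `IsDedekindDomain.exists_sup_span_eq`: `s ∈ J`, `I ⊔ span {s} = J`. `u := om emb s/nI m` (TRO). `emb x u ∈ L` iff `x s ∈ sp (nI m) * b = m * J` (elements `nI m β`, `β ∈ b`); if `x ∈ m` this holds (`s ∈ J`); conversely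
`sp x * J = sp x * I ⊔ sp x * sp s ≤ m * J` (`I = m J` and `sp x * I ≤ m * J`), cancel `J`: `x ∈ m`. `z ∈ L[m]`: `z = om emb t/nI m`, `t ∈ J = I ⊔ span {s}`: `t = nI m β + x s`, `β ∈ b`, so `z = om emb β + emb x u`. -/
def Sc_GEN : Prop :=
  ∀ A B : ℤ, CQ A B → ∀ (b m : Ideal (OO A B)) (L : PeriodPair) (om : ℂ), IsLI b L om → m ≠ ⊥ →
    ∃ u : ℂ, Tor m L u ∧ (∀ x : OO A B, emb x * u ∈ L.lattice ↔ x ∈ m) ∧
      ∀ z : ℂ, Tor m L z → ∃ x : OO A B, z - emb x * u ∈ L.lattice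

/-- (ENO) the multipliers of `L` are the elements of `O`.

PROOF. `0 ≠ β ∈ b`; `c om emb β ∈ L`, so `c emb β = emb β'`, `β' ∈ b`. For `t ∈ b`: `c emb t = emb t'`, `t' ∈ b`, `β' t = β t'`. So `b * sp β' ≤ b * sp β`, cancel: `β' = x β`, `c = emb x`. -/
def Sc_ENO : Prop :=
  ∀ A B : ℤ, CQ A B → ∀ (b : Ideal (OO A B)) (L : PeriodPair) (om : ℂ), IsLI b L om →
    ∀ c : ℂ, (∀ z ∈ L.lattice, c * z ∈ L.lattice) → ∃ x : OO A B, c = emb x

/-- (INV) `a` is recovered from `a⁻¹ L`.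

USES TRO. PROOF. For `t ∈ cjI a * b`: `z = om emb t/nI a` is in `a⁻¹ L` (TRO), so `emb y z ∈ L`, `y t = nI a β`, `β ∈ b`: `sp y * (cjI a * b) ≤ sp (nI a) * b = a * (cjI a * b)`; cancel. -/
def Sc_INV : Prop :=
  ∀ A B : ℤ, CQ A B → ∀ (b : Ideal (OO A B)) (L : PeriodPair) (om : ℂ), IsLI b L om →
    ∀ a : Ideal (OO A B), a ≠ ⊥ → ∀ y : OO A B,
      (∀ z : ℂ, Tor a L z → emb y * z ∈ L.lattice) → y ∈ a

/-- (QCR) from an identity of ideals to lattices.

USES TRO. PROOF. `mu = om' emb u/(om emb v) ≠ 0`. (→) `mu z = om' emb y`, `y ∈ b'`: `z = om emb (v y)/emb u`. For `x ∈ a`: `v (x y) ∈ sp v * (a * b') = sp u * b`, so `v x y = u β`, `β ∈ b`, `emb x z = om emb β`. (←) (TRO): `z = om emb t/nI a`, `t ∈ cjI a * b`: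
`u t ∈ cjI a * (sp u * b) = cjI a * (sp v * (a * b')) = sp v * (sp (nI a) * b')`, so `u t = v nI a y`, `y ∈ b'`, and `mu z = om' emb y`. -/
def Sc_QCR : Prop :=
  ∀ A B : ℤ, CQ A B → ∀ (a b b' : Ideal (OO A B)) (L L' : PeriodPair) (om om' : ℂ),
    IsLI b L om → IsLI b' L' om' → a ≠ ⊥ → ∀ u v : OO A B, u ≠ 0 → v ≠ 0 →
    sp u * b = sp v * (a * b') → IsQ a L L' (om' * emb u / (om * emb v))

/-- (QEX) any two lattices are related by an ideal prime to `m`.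

USES COP, QCR. PROOF. (COP) for `c = b * cjI b'`: `sp x * (b * cjI b') = sp y * a`, `a` prime to `m`. Multiply by `b'`: `sp (x nI b') * b = sp y * (a * b')`. (QCR). -/
def Sc_QEX : Prop :=
  ∀ A B : ℤ, CQ A B → ∀ (b b' m : Ideal (OO A B)) (L L' : PeriodPair) (om om' : ℂ),
    IsLI b L om → IsLI b' L' om' → m ≠ ⊥ →
    ∃ (a : Ideal (OO A B)) (mu : ℂ), a ≠ ⊥ ∧ IsCoprime a m ∧ IsQ a L L' mu

/-- (QNE) `IsQ a L L' mu` forces `a ≠ ⊥`; `mu L ⊆ L'`; `L'` has multiplication by `O`; and `L' = mu a⁻¹ L` for `L = om b` belongs to a class.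

PROOF. `a = ⊥`: all `z` have `emb 0 z = 0 ∈ L`, so every complex number is in `L'.lattice`: but it is countable (or: `L'.ω₁/2 ∉ L'.lattice`). `z ∈ L`, `x ∈ a`: `emb x z ∈ L`, so `mu z ∈ L'`. Third: `z' = mu z ∈ L'`, `emb x (emb y z) = emb y (emb x z)`. -/
def Sc_QNE : Prop :=
  ∀ (A B : ℤ), CQ A B → ∀ (a : Ideal (OO A B)) (L L' : PeriodPair) (mu : ℂ), HasCM A B L →
    IsQ a L L' mu → a ≠ ⊥ ∧ Isg L L' mu ∧ HasCM A B L'

/-- (ISL) every lattice with multiplication by `O` belongs to an ideal.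

PROOF. `w = wC`. `w ω₁ = p ω₁ + q ω₂` with integers, `q ≠ 0` (`w` is not real: `wC_im_pos`). `q (i ω₁ + j ω₂) = (q i - j p + j w) ω₁`. So with `om = ω₁/q` every `z ∈ L` is `om emb x`, `x = ⟨q i - j p, j⟩`. `b := {x : om emb x ∈ L}` is an ideal, `q ∈ b`. -/
def Sc_ISL : Prop :=
  ∀ A B : ℤ, CQ A B → ∀ L : PeriodPair, HasCM A B L →
    ∃ (b : Ideal (OO A B)) (om : ℂ), IsLI b L om

/-- (SGQ) normalised lattices of the form `mu a⁻¹ L` are unique, `mu` up to sign.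

PROOF. `s = mu''/mu`: `z ∈ L'` iff (`z = mu t`, `t ∈ a⁻¹L`) `s z = mu'' t ∈ L''`. `ta_SCP` (`a = s`, from `L'` to `L''`): `g₂(L'') = g₂(L')/s⁴`, `g₃(L'') = g₃(L')/s⁶` (and `℘_(L'')(s z) = ℘_(L')(z)/s²`). `g₂ = -18 g₃` for both and `g₂ ≠ 0` (`b_DSC`): `s² = 1`. -/
def Sc_SGQ : Prop :=
  ∀ (A B : ℤ) (a : Ideal (OO A B)) (L L' L'' : PeriodPair) (mu mu'' : ℂ), IsQ a L L' mu →
    IsQ a L L'' mu'' → L'.g₂ = -18 * L'.g₃ → L''.g₂ = -18 * L''.g₃ →
    (mu'' = mu ∨ mu'' = -mu) ∧ (∀ z, z ∈ L'.lattice ↔ z ∈ L''.lattice) ∧ kap L' = kap L'' ∧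
      ∀ z, xn L' (mu * z) = xn L'' (mu'' * z)

/-! ## Conjugation -/

/-- (CJN) conjugates of normalised lattices.

USES Su_CJE, Su_PHI, Su_CMC, Su_DET, ISL. PROOF. `σ (emb x) = emb x` (`FixK`, integers are fixed). First part: `L'` from (CJE), `Φ` from (PHI), (CMC) with `a = emb x` (`emb x L ⊆ L`): `emb x L' ⊆ L'`, (ISL). `g₂(L') = σ g₂ = -18 σ g₃ = -18 g₃(L')`; `kap L' = (12 g₂(L') - 1)/1728 = σ (kap L)`.
Second part: `g₂(L') = (1728 kap L' + 1)/12 = σ g₂(L)`, `g₃(L') = -g₂(L')/18 = σ (g₃ L)`. Third part: `g₂`, `g₃` are determined by `kap` (normalised); (DET); `xn`, `yy` depend only on `L.lattice`: `ta_SCP` with `a = 1`. -/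
def Sc_CJN : Prop :=
  ∀ A B : ℤ, CQ A B →
    (∀ (σ : ℂ ≃+* ℂ), FixK A B σ → ∀ (b : Ideal (OO A B)) (L : PeriodPair) (om : ℂ), IsNL b L om →
      (∀ x : OO A B, σ (emb x) = emb x) ∧
      ∃ (b' : Ideal (OO A B)) (L' : PeriodPair) (om' : ℂ), IsNL b' L' om' ∧ IsCj σ L L' ∧
        kap L' = σ (kap L)) ∧
    (∀ (σ : ℂ ≃+* ℂ) (L L' : PeriodPair), L.g₂ = -18 * L.g₃ → L'.g₂ = -18 * L'.g₃ →
      kap L' = σ (kap L) → IsCj σ L L') ∧
    ∀ (L L' : PeriodPair), L.g₂ = -18 * L.g₃ → L'.g₂ = -18 * L'.g₃ → kap L = kap L' →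
      (∀ z, z ∈ L.lattice ↔ z ∈ L'.lattice) ∧ ∀ z, xn L z = xn L' z ∧ yy L z = yy L' z

/-- (PMF) `PM` in terms of `Φ`.

USES Su_EQP. PROOF. `Φ z ∈ L'` iff `z ∈ L`. If `z ∈ L`: both sides say `z' ∈ L'`. Let `z ∉ L`, `Φ z ∉ L'`. (→) `z' ∉ L'`, `xn L' z' = σ (xn L z) = xn L' (Φ z)`, the same for `yy`; (EQP). (←) `z' ∉ L'`, periodicity of `℘`, `℘'`. -/
def Sc_PMF : Prop :=
  ∀ (σ : ℂ ≃+* ℂ) (L L' : PeriodPair) (Φ : ℂ → ℂ), IsPhi σ L L' Φ → ∀ z z' : ℂ,
    PM σ L L' z z' ↔ Φ z - z' ∈ L'.lattice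

/-- (PHM) `Φ` and the action of `O`; `L[m]` is mapped to `L'[m]`.

USES Su_CMC, Su_TSN, CJN. PROOF. `emb x` is a multiplier of `L`, fixed by `σ`: (CMC): `Φ (emb x z) ≡ emb x Φ z`; (TSN). `Φ` is a homomorphism modulo `L'`: `Φ(z - z') ≡ Φ z - Φ z'` (apply `add` to `z - z'` and `z'`), so `z ≡ z'` iff `Φ z ≡ Φ z'` (`mem`). -/
def Sc_PHM : Prop :=
  ∀ A B : ℤ, CQ A B → ∀ (σ : ℂ ≃+* ℂ), FixK A B σ → ∀ (b : Ideal (OO A B)) (L L' : PeriodPair)
    (om : ℂ), IsLI b L om → IsCj σ L L' → ∀ Φ : ℂ → ℂ, IsPhi σ L L' Φ →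
    (∀ (x : OO A B) (z : ℂ), Φ (emb x * z) - emb x * Φ z ∈ L'.lattice) ∧
    (∀ (m : Ideal (OO A B)) (z : ℂ), Tor m L' (Φ z) ↔ Tor m L z) ∧
    (∀ z z' : ℂ, Φ z - Φ z' ∈ L'.lattice ↔ z - z' ∈ L.lattice) ∧
    (∀ z z' : ℂ, Φ (z - z') - (Φ z - Φ z') ∈ L'.lattice)

/-- (EXA) existence of the ideal, for one lattice (PAPER_X (1.2)).

USES QEX, QNE, GEN, CJN, PMF, PHM, Su_PHI. PROOF. (QEX): `a₀` prime to `m` and `mu₀` with `IsQ a₀ L L' mu₀`; `mu₀ L ⊆ L'`. (GEN): `u` for `L`, `m`. `Φ` (PHI; `IsCj` by CJN). Claim: every `z' ∈ L'[m]` is `≡ emb x mu₀ u` for some `x`: `z' = mu₀ z`, `m z' ⊆ L'` means `a₀ m z ⊆ L`; `1 = α + β`, `α ∈ a₀`, `β ∈ m`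
(`Ideal.isCoprime_iff_exists`); `emb α z ∈ L[m]`, so `emb α z ≡ emb x u` (mod `L`), `mu₀ emb α z ≡ emb x mu₀ u` (mod `L'`), and `emb β mu₀ z = emb β z' ∈ L'`. `Φ u ∈ L'[m]` (PHM), so `Φ u ≡ emb c mu₀ u`, `c ∈ O`. `c` is prime to `m`: `x c ∈ m` implies `emb (x c) u ∈ L`, `emb x emb c mu₀ u ∈ L'`, `emb x Φ u ∈ L'`,
`Φ(emb x u) ∈ L'`, `emb x u ∈ L`, `x ∈ m`; so multiplication by `c` is injective on the finite ring `O/m`, hence surjective: `IsCoprime (sp c) m`. If `c = 0` then `m = ⊤` and we replace `c` by `1` (everything in `L[m]` is in `L`). `a := sp c * a₀`, `mu := emb c mu₀`. `IsQ`: `mu z ∈ L'` iff `mu₀ (emb c z) ∈ L'` iff `emb x emb c z ∈ L`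
for all `x ∈ a₀` iff `z ∈ a⁻¹ L` (elements of `sp c * a₀` are `c x`). `act`: `z ∈ L[m]`, `z ≡ emb x u`; `Φ z ≡ Φ (emb x u) ≡ emb x Φ u ≡ emb x emb c mu₀ u ≡ mu z` (`mu (z - emb x u) ∈ mu L ⊆ L'`); (PMF). -/
def Sc_EXA : Prop :=
  ∀ A B : ℤ, CQ A B → ∀ (σ : ℂ ≃+* ℂ), FixK A B σ → ∀ (m b b' : Ideal (OO A B))
    (L L' : PeriodPair) (om om' : ℂ), m ≠ ⊥ → IsNL b L om → IsNL b' L' om' →
    kap L' = σ (kap L) → ∃ (a : Ideal (OO A B)) (mu : ℂ), ActI σ m a L L' mu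

/-- (IND) the ideal does not depend on the lattice (PAPER_X (1.3)).

USES QEX, QNE, CJN, PMF, PHM, Su_PHI, Su_FUN, Sy_MUC. PROOF. (QEX): `c` prime to `m`, `ν ≠ 0` with `IsQ c L M ν`. `IsCj σ L L'`, `IsCj σ M M'` (CJN), so (MUC) `IsQ c L' M' (σ ν)`. Let `nu = mu σ(ν)/ν`. `IsQ a M M' nu`: `nu z ∈ M'` iff `σ(ν) (mu z/ν) ∈ M'` iff `emb y mu (z/ν) ∈ L'` for all `y ∈ c` iff
`emb x emb y (z/ν) ∈ L` for all `y ∈ c`, `x ∈ a`, iff `emb x z = ν (emb x z/ν) ∈ M` for all `x ∈ a`. `act`: `Φ`, `Ψ` for `L → L'`, `M → M'` (PHI). Let `z ∈ M[m]`, `1 = γ + β`, `γ ∈ c`, `β ∈ m`; `w := emb γ z/ν`: `w ∈ L[m]` (`x ∈ m`: `emb x z ∈ M`, so `emb γ (emb x z/ν) ∈ L` as `ν (emb x z/ν) ∈ M`). `z - ν w = emb β z ∈ M`. (FUN) for `L → M`,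
multiplier `ν`: `Ψ(ν w) ≡ σ(ν) Φ w` (mod `M'`). `Φ w ≡ mu w` (mod `L'`; PMF, `ActI.act`), `σ(ν) L' ⊆ M'`: `Ψ z ≡ Ψ(ν w) ≡ σ(ν) mu w = nu (ν w) ≡ nu z` (mod `M'`; `nu M ⊆ M'`). (PMF). -/
def Sc_IND : Prop :=
  ∀ A B : ℤ, CQ A B → ∀ (σ : ℂ ≃+* ℂ), FixK A B σ → ∀ (m a b b' c c' : Ideal (OO A B))
    (L L' M M' : PeriodPair) (om om' omm omm' mu : ℂ), m ≠ ⊥ → IsNL b L om → IsNL b' L' om' →
    IsNL c M omm → IsNL c' M' omm' → ActI σ m a L L' mu → kap M' = σ (kap M) →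
    ∃ nu : ℂ, ActI σ m a M M' nu

/-- (ACT) the field `act` of `TorX`.

USES CJN, EXA, IND. PROOF. If there is no normalised lattice take `a = ⊤`. Otherwise take one, `L₀`, (CJN), (EXA): `a`; for every other one (CJN), (IND). -/
def Sc_ACT : Prop :=
  ∀ A B : ℤ, CQ A B → ∀ m : Ideal (OO A B), m ≠ ⊥ → ∀ σ : ℂ ≃+* ℂ, FixK A B σ →
    ∃ a : Ideal (OO A B), IsCoprime a m ∧ ∀ (b : Ideal (OO A B)) (L : PeriodPair) (om : ℂ),
      IsNL b L om → ∃ (b' : Ideal (OO A B)) (L' : PeriodPair) (om' mu : ℂ), IsNL b' L' om' ∧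
        ActI σ m a L L' mu

/-- (CMP) the field `comp` of `TorX` (PAPER_X (1.4)).

PROOF. `kap`: clear. `cop`: `IsCoprime.mul_left`. `isq`: `nu mu z ∈ L''` iff `emb y mu z ∈ L'` for all `y ∈ b` iff `emb x emb y z ∈ L` for all `x ∈ a`, `y ∈ b`, iff (`Submodule.mul_induction_on`; sums) `emb t z ∈ L` for all `t ∈ a * b`. `act`: `z ∈ L[m]`: `PM σ L L' z (mu z)`. `mu z ∈ L'[m]`: for `y ∈ m`, `x ∈ a`:
`emb x (emb y z) = emb (x y) z ∈ L`. So `PM τ L' L'' (mu z) (nu mu z)`; compose (cases). -/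
def Sc_CMP : Prop :=
  ∀ A B : ℤ, CQ A B → ∀ (m a b : Ideal (OO A B)) (σ τ : ℂ ≃+* ℂ) (L L' L'' : PeriodPair)
    (mu nu : ℂ), ActI σ m a L L' mu → ActI τ m b L' L'' nu →
    ActI (σ.trans τ) m (a * b) L L'' (nu * mu)

/-- (CHG) the field `chg` of `TorX` (PAPER_X (1.5)).

PROOF. `isq`: for `α ∈ a` there is `α' ∈ a'` with `x α = y α'`, and conversely; `(mu x/y) z ∈ L'` iff `emb α (x/y) z ∈ L` for all `α ∈ a` iff `emb α' z ∈ L` for all `α' ∈ a'`. `act`: `z ∈ L[m]`. Let `t = (x/y) z - z = (x - y)/y z`. For `α ∈ a`: (i) `emb y (emb α t) = emb α (emb (x - y) z) ∈ L`; (ii) `emb α t = emb α' z - emb α z ∈ L[m]`.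
`sp y` is prime to `m` (`y ≡ x` modulo `m`), so (`tor_coprime`) `emb α t ∈ L` for all `α ∈ a`, i.e. `mu t ∈ L'`, so `(mu x/y) z ≡ mu z` (mod `L'`). `PM σ L L' z (mu z)` implies `PM σ L L' z (mu x/y z)` (periodicity of `xn`, `yy`). -/
def Sc_CHG : Prop :=
  ∀ A B : ℤ, CQ A B → ∀ (m a a' : Ideal (OO A B)) (σ : ℂ ≃+* ℂ) (L L' : PeriodPair) (mu : ℂ)
    (x y : OO A B), m ≠ ⊥ → IsCoprime a' m → IsCoprime (sp x) m → x ≠ 0 → y ≠ 0 → x - y ∈ m →
    sp x * a = sp y * a' → (∃ (b : Ideal (OO A B)) (om : ℂ), IsNL b L om) → ActI σ m a L L' mu →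
    ActI σ m a' L L' (mu * emb x / emb y)

/-- (UNQ) the field `uniq` of `TorX` (PAPER_X (1.5)).

USES QNE, ENO, INV, GEN, Su_EQP. PROOF. `a, a' ≠ ⊥` (QNE). `c = mu'/mu`. `1 = y + β` with `y ∈ a`, `β ∈ m`; we may take `y ≠ 0` (if `y = 0` then `m = ⊤`; take any `0 ≠ y ∈ a`). (1) For `α ∈ a`, `l ∈ L`: `mu' l ∈ L'` (QNE), `mu' l = mu (c l)`, so `emb α (c l) ∈ L`: by (ENO) `c emb α = emb α₁`, and `α₁ ∈ a'`: (INV), `z ∈ a'⁻¹ L`:
`mu' z ∈ L'`, so `emb α (c z) ∈ L`. In the same way for `α' ∈ a'` `emb α'/c = emb α'₁` with `α'₁ ∈ a`. `x` := the element with `emb x = c emb y`. `x ≠ 0`. `x α = y α₁`: `sp x * a ≤ sp y * a'`, and `y α' = x α'₁`: equality. `mu' = mu emb x/emb y`. (2) `x - y ∈ m`: `u` from (GEN). `PM σ L L' u (mu u)`, `PM σ L L' u (mu' u)`: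
`mu u - mu' u ∈ L'` (both in `L'`, or (EQP) as the coordinates agree), so `emb y (u - c u) ∈ L`, i.e. `emb (y - x) u ∈ L`, `y - x ∈ m`. (3) `sp x` is prime to `m`: `x = 1 - β + (x - y)`, so `1 ∈ sp x ⊔ m` (in the case `m = ⊤` clear). -/
def Sc_UNQ : Prop :=
  ∀ A B : ℤ, CQ A B → ∀ (m a a' : Ideal (OO A B)) (σ : ℂ ≃+* ℂ) (L L' : PeriodPair)
    (mu mu' : ℂ), m ≠ ⊥ → (∃ (b : Ideal (OO A B)) (om : ℂ), IsNL b L om) → ActI σ m a L L' mu →
    ActI σ m a' L L' mu' →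
    ∃ x y : OO A B, IsCoprime (sp x) m ∧ x ≠ 0 ∧ y ≠ 0 ∧ x - y ∈ m ∧ sp x * a = sp y * a' ∧
      mu' = mu * emb x / emb y

/-- (TRV) the field `triv` of `TorX` (PAPER_X (1.6)).

USES CJN, SGQ, QNE, ENO, INV, GEN, IND. PROOF. (→) `kap L' = σ (kap L) = kap L` (`kap L ∈ RF m`), so `L'` and `L` have the same points, `xn` (CJN, third part), `IsQ a L L mu`. `mu L ⊆ L` (QNE): `mu = emb c` (ENO). `a = sp c`: `y ∈ a`: `z := l/mu`, `l ∈ L`, is in `a⁻¹ L`, so `emb y l/mu ∈ L` for all `l ∈ L`, (ENO) `emb y/emb c = emb t`, `y = c t`;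
`c ∈ a`: (INV), `z ∈ a⁻¹ L` gives `mu z ∈ L`. `u` (GEN). If `u ∈ L` then `m = ⊤`: done. Otherwise `xn L u ∈ RF m`, `xn L u = σ(xn L u) = xn L' (mu u) = xn L (emb c u)`, so (`b_NEQ`) `emb (c - 1) u ∈ L` or `emb (c + 1) u ∈ L`: `c - 1 ∈ m` or `-c - 1 ∈ m`, and `sp c = sp (-c)`.
(←) `a = sp c`, `c - 1 ∈ m`. Let `M` be any normalised lattice, `M'` its conjugate (CJN), `ActI σ m (sp c) M M' nu` (IND). `IsQ (sp c) M M (emb c)` (definition), so by (SGQ) `kap M' = kap M`, `xn M' (nu z) = xn M (emb c z)` for all `z`. So `σ (kap M) = kap M`, and for `z ∈ M[m]`, `z ∉ M`: `σ (xn M z) = xn M' (nu z) = xn M (emb c z) = xn M z`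
(`emb (c - 1) z ∈ M`). `σ` fixes `k` (`kk A B = ℚ(wC)`) and the generators of `RF m`, so it fixes `RF m` (`IntermediateField.adjoin_induction`, or `adjoin ≤` fixed field). -/
def Sc_TRV : Prop :=
  ∀ A B : ℤ, CQ A B → ∀ (m a : Ideal (OO A B)) (σ : ℂ ≃+* ℂ) (b : Ideal (OO A B))
    (L L' : PeriodPair) (om mu : ℂ), m ≠ ⊥ → FixK A B σ → IsNL b L om → ActI σ m a L L' mu →
    L'.g₂ = -18 * L'.g₃ →
    ((∀ y ∈ (RF m : IntermediateField (kk A B) ℂ), σ y = y) ↔ ∃ c : OO A B, c - 1 ∈ m ∧ a = sp c)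

/-- (NRL) `L'` is automatically normalised, if `m ≠ ⊤`.

USES GEN. PROOF. `u` from (GEN); `u ∉ L` (otherwise `1 ∈ m`). `PM σ L L' u (mu u)`: `mu u ∉ L'` and the coordinates: `g₃(L') = 4℘³ - g₂℘ - ℘'²` at `mu u` (`derivWeierstrassP_sq`), `℘_(L')(mu u) = σ(℘_L u)`, `℘'_(L')(mu u) = σ(℘'_L u)`, `g₂(L') = (1728 kap L' + 1)/12 = σ (g₂ L)`; so `g₃(L') = σ (g₃ L)`. -/
def Sc_NRL : Prop :=
  ∀ A B : ℤ, CQ A B → ∀ (m a : Ideal (OO A B)) (σ : ℂ ≃+* ℂ) (b : Ideal (OO A B))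
    (L L' : PeriodPair) (om mu : ℂ), m ≠ ⊥ → m ≠ ⊤ → IsNL b L om → ActI σ m a L L' mu →
    L'.g₂ = -18 * L'.g₃ ∧ IsCj σ L L'

/-! ## The fields `RF m` -/

/-- the generators of `RF m` -/
def genS {A B : ℤ} (m : Ideal (OO A B)) : Set ℂ :=
  {c | ∃ (b : Ideal (OO A B)) (L : PeriodPair) (om : ℂ),
    IsNL b L om ∧ (c = kap L ∨ ∃ z, Tor m L z ∧ z ∉ L.lattice ∧ c = xn L z)}

/-- (FNG) `RF m` has finitely many generators.

USES CLF, GEN, Sy_SAM. PROOF. (CLF): `S`. Every normalised lattice `L` (`IsNL b L om`) has `sp x * b = sp y * b₀`, `b₀ ∈ S`. For every `b₀ ∈ S` for which there is a normalised lattice of an ideal `b₁` with `sp x₁ * b₁ = sp y₁ * b₀` choose one, `L₁`; (SAM) (with `sp (x y₁) * b = sp (y x₁) * b₁`): `L` and `L₁` have the same points, so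
(`ta_SCP`, `a = 1`) the same `kap`, `xn`. So it is enough that for one `L` the set of the `xn L z`, `z ∈ L[m]`, is finite: `z ≡ emb x u` (GEN), and `xn L (emb x u)` depends only on the class of `x` in the finite ring `O/m` (periodicity; `emb x u ∈ L` for `x ∈ m`). -/
def Sc_FNG : Prop :=
  ∀ A B : ℤ, CQ A B → ∀ m : Ideal (OO A B), m ≠ ⊥ → (genS m).Finite

/-- (FGL) the fields `fin`, `gal` of `TorX`, and stability.

USES FNG, ACT, Su_AUT, Su_AUE. PROOF. `kk A B = ℚ(wC)` is finite over `ℚ` (`wC² = A + B wC`), and `FixK A B σ` iff `σ` is trivial on `kk A B`. (1) For `FixK A B σ`: `σ (genS m) ⊆ genS m`: (ACT): `kap L' = σ (kap L)`; `z ∈ L[m]`, `z ∉ L`: `σ (xn L z) = xn L' (mu z)`, `mu z ∉ L'`, `mu z ∈ L'[m]` (`isq`: `x ∈ a`, `y ∈ m`: `emb x emb y z ∈ L`).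
(2) `c ∈ genS m` has finitely many conjugates under the `σ` which fix `kk A B` (FNG): algebraic (AUT, `F = kk A B`). (3) `RF m = adjoin` of a finite set of algebraic numbers: finite over `kk A B`. Characteristic `0`: separable. Normal: every embedding `τ : RF m →ₐ[kk A B] ℂ` extends to `σ ∈ Aut(ℂ)` (AUE, `RF m` as a field over `ℚ` is algebraic), `FixK`, so it maps the generators into
`genS m`, so `τ.fieldRange ≤ RF m` (`IntermediateField.normal_iff_forall_fieldRange_le` as in `MU3/A_NRM.lean`). -/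
def Sc_FGL : Prop :=
  ∀ A B : ℤ, CQ A B → ∀ m : Ideal (OO A B), m ≠ ⊥ →
    FiniteDimensional (kk A B) (RF m) ∧ IsGalois (kk A B) (RF m) ∧
    ∀ σ : ℂ ≃+* ℂ, FixK A B σ → ∀ y ∈ (RF m : IntermediateField (kk A B) ℂ), σ y ∈ RF m

/-- (CMM) the field `comm` of `TorX`.

USES FGL, ACT, CMP, SGQ, Su_AUE. PROOF. Extend `σ`, `τ` to `s`, `t ∈ Aut(ℂ)` (AUE; they fix `kk A B`). (ACT): ideals `a`, `b`. For a normalised `L`: `ActI t m b L L₁ ν`, `ActI s m a L₁ L₂ mu`, so (CMP) `ActI (t.trans s) m (b * a) L L₂ (mu ν)`; and in the other order `ActI (s.trans t) m (a * b) L L₂' (ν' mu')`. `b * a = a * b`, both normalised: (SGQ) `kap L₂ = kap L₂'`,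
`xn L₂ (mu ν z) = xn L₂' (ν' mu' z)`: `s (t g) = t (s g)` for the generators `g` of `RF m`, so `σ τ = τ σ` (`AlgEquiv.ext` on `adjoin`: `IntermediateField.algHom_ext_of_eq_adjoin` or induction). -/
def Sc_CMM : Prop :=
  ∀ A B : ℤ, CQ A B → ∀ m : Ideal (OO A B), m ≠ ⊥ → ∀ σ τ : RF m ≃ₐ[kk A B] RF m,
    σ * τ = τ * σ

/-- (EXT) the fields `mono`, `ext` of `TorX`.

USES FGL, Su_AUE. PROOF. `mono`: `Tor m L z` implies `Tor m' L z` for `m' ≤ m`. `ext`: `D` is algebraic over `ℚ` (`D ≤ RF m`, finite over `kk A B`, finite over `ℚ`); (AUE) for `D` and `y ↦ (τ y : ℂ)`; `wC ∈ kk A B ≤ D` is fixed by `τ` (`algC h` is the inclusion). -/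
def Sc_EXT : Prop :=
  ∀ A B : ℤ, CQ A B → (∀ m m' : Ideal (OO A B), m' ≤ m → (RF m : IntermediateField (kk A B) ℂ) ≤ RF m') ∧
  ∀ (m : Ideal (OO A B)), m ≠ ⊥ → ∀ (D : IntermediateField ℚ ℂ) (h : kk A B ≤ D),
    (∀ y ∈ D, y ∈ (RF m : IntermediateField (kk A B) ℂ)) → letI := algC h
    ∀ τ : D ≃ₐ[kk A B] D, ∃ σ : ℂ ≃+* ℂ, FixK A B σ ∧ ExtC h τ σ

/-! ## Frobenius automorphisms -/

/-- (NEX) if one normalised lattice exists then every ideal has one.

USES Su_DET, ENO. PROOF. `L₁` = the lattice `emb b` (`exists_isLI` with `Om = 1`). `g₂(L₁) ≠ 0`: otherwise let `ρ³ = 1`, `ρ ≠ 1`; the lattice `ρ L₁` has (`ta_SCP`) `g₂ = 0`, `g₃ = g₃(L₁)/ρ⁶ = g₃(L₁)`, so (DET) `ρ L₁ = L₁`, so (ENO) `ρ = emb x`, so `ρ L₀ ⊆ L₀` and (apply it three times) `ρ L₀ = L₀`, `g₂(L₀) = g₂(L₀)/ρ⁴`, `g₂(L₀) = 0`, so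
`g₃(L₀) = 0`, against `b_DSC`. `g₃(L₁) ≠ 0`: otherwise with `i`: `g₂(i L₁) = g₂(L₁)`, `g₃(i L₁) = -g₃(L₁) = 0`, `i L₁ = L₁`, `i = emb x`, `g₃(L₀) = -g₃(L₀) = 0`, `g₂(L₀) = 0`. Let `om² = -18 g₃(L₁)/g₂(L₁)`, `om ≠ 0`; the lattice `om emb b` (`exists_isLI`) has `g₂ = g₂(L₁)/om⁴`, `g₃ = g₃(L₁)/om⁶`, so `g₂ = -18 g₃`. -/
def Sc_NEX : Prop :=
  ∀ A B : ℤ, CQ A B → ∀ (b₀ : Ideal (OO A B)) (L₀ : PeriodPair) (om₀ : ℂ), IsNL b₀ L₀ om₀ →
    ∀ b : Ideal (OO A B), b ≠ ⊥ → ∃ (L : PeriodPair) (om : ℂ), IsNL b L om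

/-- (BAD) a number `n₀` such that at all `V` where `n₀` is a unit everything is good.

USES FNG, FGL, Sq_ALU, Sx_NGR. PROOF. The set of the `kap L`, `L` normalised, is finite (`⊆ genS ⊤`); the `kap L ∈ RF ⊤` are algebraic over `ℚ` (FGL), so are `12 g₂ = 1 + 1728 kap L` and the differences. `kap L ≠ 0`, `g₂ ≠ 0`: `b_DSC`: `0 ≠ g₂³ - 27 g₃² = g₂³ - g₂²/12 = 144 kap g₂²`. `n₀` = `6 |B² + 4A|` times the product of the numbers (ALU) for the finitely many
`kap L`, `1 + 1728 kap L` and nonzero differences `kap L - kap L'`. (A product of natural numbers of valuation `1` at `V` has all factors of valuation `1`, since all natural numbers have valuation `≤ 1`.) (NGR) gives `GRn V L` (`kp L = kap L` by definition). -/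
def Sc_BAD : Prop :=
  ∀ A B : ℤ, CQ A B → ∃ n₀ : ℕ, n₀ ≠ 0 ∧ ∀ V : ValuationSubring ℂ, V.valuation (n₀ : ℂ) = 1 →
    V.valuation 2 = 1 ∧ V.valuation 3 = 1 ∧ V.valuation ((B ^ 2 + 4 * A : ℤ) : ℂ) = 1 ∧
    (∀ (b : Ideal (OO A B)) (L : PeriodPair) (om : ℂ), IsNL b L om →
      V.valuation (kap L) = 1 ∧ V.valuation (12 * L.g₂) = 1 ∧ MUXW.GRn V L) ∧
    ∀ (b b' : Ideal (OO A B)) (L L' : PeriodPair) (om om' : ℂ), IsNL b L om → IsNL b' L' om' →
      V.valuation (kap L - kap L') < 1 → kap L = kap L'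

/-- (FEX) existence of Frobenius automorphisms at a prime ideal of prime norm.

USES Sxe_RNG, `MU3` (Sv_EXT: `Pool.Agent.MU3V.v_EXT` or `tv_EXT`; Sw_LOC: `tw_LOC`). MODEL: `MU3/A_FEX.lean`. PROOF. `φ : O → 𝓞 F` (`RingE.int`). `Q 𝓞 F ≠ ⊤`: `F` is integral over `O`, lying over: `Ideal.exists_ideal_over_maximal_of_isIntegral` or: `𝓞 F` is integral over the image of `O` (every integer of `F` is integral over `ℤ`). `w` a prime of `𝓞 F` with `w ∩ O = Q`.
`Algebra.IsInvariant (𝓞 k) (𝓞 F) Gal(F/k)`, `IsArithFrobAt.exists_of_isInvariant`, residue field of `w ∩ 𝓞 k ≅ O/Q` has `q` elements (`𝓞 k = O`): `σ` with `σ x - x^q ∈ w` for `x ∈ 𝓞 F`. `V` extends `w` (EXT, with `φ` the inclusion `F → ℂ`; `F` is a number field), (LOC): `v(σ x - x^q) < 1` for `x ∈ F ∩ V`. `OverI V Q`: `emb x ∈ V.nonunits` iff `w.valuation (emb x) < 1` iff `x ∈ w ∩ O = Q`. -/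
def Sc_FEX : Prop :=
  ∀ (A B : ℤ), CQ A B → ∀ (F : IntermediateField (kk A B) ℂ) [FiniteDimensional (kk A B) F]
    [IsGalois (kk A B) F] (Q : Ideal (OO A B)) (q : ℕ), q.Prime → Q.IsPrime → nI Q = q →
    ∃ (V : ValuationSubring ℂ) (σ : F ≃ₐ[kk A B] F), OverI V Q ∧
      ∀ x : F, (x : ℂ) ∈ V → V.valuation (((σ x : F) : ℂ) - (x : ℂ) ^ q) < 1

/-- (FRO) the Frobenius of a prime of degree one acts as this prime (PAPER_X (1.7)).

USES BAD, CJN, NEX, EXA, PMF, PHM, GEN, QCR, QNE, ISL, Sq_FRX, Sq_VQI, Su_PHI, `VX.lean` (`v_X_sub`, `mem_of_nat_mul`). PROOF. `n₀` from (BAD). `q ∣ n₀` is false, `v q < 1` (VQI; `q ∈ Q`), so `v n = 1` for all integers `n` not divisible by `q`, in particular `n₀`, `nI m`, `2`, `3`, `B² + 4A`. `Q ≠ ⊥`, `Q` is maximal (`O/Q` has `q` elements). `L` normalised, `L = om b`.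
(1) a normalised `M` with `IsQ Q L M mu`: (NEX) for the ideal `cjI Q * b`: `M = om₁ (cjI Q * b)`, and `sp q * b = Q * (cjI Q * b)` (`q = nI Q`), (QCR) with `u = q`, `v = 1`. (2) `L'` = the conjugate (CJN), `Φ`. (FRX): `v(kap M - kap L^q) < 1`; `kap L ∈ RF m ∩ V`: `v(s (kap L) - kap L^q) < 1`; so `v(kap M - kap L') < 1`, `kap M = kap L'` (BAD). So we may
replace `L'` by `M`: `kap M = s (kap L)`, `IsCj s L M`. `Φ` for `L → M` (PHI). (3) (EXA) for `L, M`: `a₀, mu₀` with `ActI s m a₀ L M mu₀`, so `Φ z ≡ mu₀ z` for `z ∈ L[m]` (PMF). Let `u` be the generator (GEN). If `u ∈ L`, `m = ⊤`, put `ε = 1`. Otherwise: `u ∉ L`, `xn L u ∈ RF m`; `nI m u ∈ L` (`nI m ∈ m`), so `u` is not in the kernel of reduction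
(`mem_of_nat_mul`), `xn L u ∈ V`, and `xn M (Φ u) = s(xn L u) ≡ (xn L u)^q ≡ xn M (mu u)` modulo the maximal ideal (FRX). `Φ u`, `mu u` are in `M[m]` and not in `M` (`Φ u ∉ M`; `mu u ∈ M` would mean `u ∈ Q⁻¹ L`, `u ∈ L[m]`, `Q` prime to `m` (`q ∤ nI m`): `u ∈ L`), `Φ u ± mu u ∈ M[m]`, killed by `nI m`: if neither `Φ u - mu u` nor `Φ u + mu u` is in the kernel of reduction
then (`v_X_sub`) `v(xn M (Φ u) - xn M (mu u)) = 1`, contradiction; so (`mem_of_nat_mul`) `Φ u ≡ ε mu u` (mod `M`), `ε = ±1`. Then for all `z ∈ L[m]`, `z ≡ emb x u`: `Φ z ≡ emb x Φ u ≡ ε mu z` (PHM; `mu L ⊆ M`). So `ActI s m Q L M (ε mu)` (`IsQ Q L M (-mu)` as `M = -M`; `act` by PMF). `Q` and `m` are coprime: `q`, `nI m` are coprime integers in `Q`, `m`. -/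
def Sc_FRO : Prop :=
  ∀ A B : ℤ, CQ A B → ∃ n₀ : ℕ, n₀ ≠ 0 ∧ ∀ m : Ideal (OO A B), m ≠ ⊥ →
    ∀ (Q : Ideal (OO A B)) (q : ℕ), q.Prime → nI Q = q → ¬ q ∣ n₀ → ¬ q ∣ nI m →
    ∀ V : ValuationSubring ℂ, OverI V Q → ∀ s : ℂ ≃+* ℂ, FixK A B s →
    (∀ x : ℂ, x ∈ (RF m : IntermediateField (kk A B) ℂ) → x ∈ V →
      V.valuation (s x - x ^ q) < 1) →
    ∀ (b : Ideal (OO A B)) (L : PeriodPair) (om : ℂ), IsNL b L om →
      ∃ (b' : Ideal (OO A B)) (L' : PeriodPair) (om' mu : ℂ), IsNL b' L' om' ∧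
        ActI s m Q L L' mu

/-! ## Representatives: products of primes of degree one -/

/-- (RP1) first step: an element of `d` without common factor with `N`.

USES Sxe_RNG. PROOF. `a, d` prime to `m`, `a * d = sp t`, `N ≠ 0` an integer in `m`. `O` is Dedekind. Let `T` be the product of the finitely many prime ideals `P ∋ N` with `t ∉ P * d`. `J := m * T * d ≠ ⊥`. `IsDedekindDomain.exists_sup_span_eq` with `sp N * J ≤ J`: `μ ∈ J` with `sp N * J ⊔ span {μ} = J`. `y := t + μ`. `y ∈ d`, `y - t = μ ∈ m * d`. Let `P ∋ N` be a prime ideal and suppose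
`y ∈ P * d`. If `t ∉ P * d` then `T ≤ P`, `μ ∈ J ≤ P * d`, so `t = y - μ ∈ P * d`, contradiction. If `t ∈ P * d`: `μ ∈ P * d`, `sp N * J ≤ P * d` (`N ∈ P`, `J ≤ d`), so `J ≤ P * d`, `m * T ≤ P` (cancel `d`), so `m ≤ P` or some prime `P' ≤ P` with `P' ∣ T`, `P' = P` (maximal; `P'≠ ⊥`), against `t ∈ P * d`; so `m ≤ P`; but
`sp t = a * d ≤ P * d` gives `a ≤ P`, and `a`, `m` are coprime: contradiction. -/
def Sc_RP1 : Prop :=
  ∀ A B : ℤ, CQ A B → ∀ (a d m : Ideal (OO A B)) (t : OO A B) (N : ℕ), m ≠ ⊥ → d ≠ ⊥ → N ≠ 0 →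
    ((N : ℕ) : OO A B) ∈ m → IsCoprime a m → IsCoprime d m → t ≠ 0 → a * d = sp t →
    ∃ y ∈ d, y - t ∈ m * d ∧ ∀ P : Ideal (OO A B), P.IsPrime → P ≠ ⊥ →
      ((N : ℕ) : OO A B) ∈ P → y ∉ P * d

/-- (RP2) second step: a primitive element.

PROOF. `d` is a free `ℤ`-module of rank two (a submodule of finite index of `O = ℤ²`), basis `e₁, e₂`. `y = α e₁ + β e₂`. We may assume `β ≠ 0` (add `N e₂` to `y` if `β = 0`). For a prime number `l ∣ N`: `l` does not divide both `α` and `β`: otherwise `y ∈ sp l * d ≤ P * d` for a prime ideal `P ∋ l` (`P ∋ N`), contradiction; this is also true for the new `y`. Let `k` be the product of the prime numbers which divide `β` and neither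
`α` nor `N`; `α' = α + N k`. A prime number `l ∣ β` does not divide `α'`: if `l ∣ α`: `l ∤ N` (by the above) and `l ∤ k`; if `l ∤ α`, `l ∣ N`: clear; if `l ∤ α`, `l ∤ N`: `l ∣ k`. So `y' = α' e₁ + β e₂` is divisible in `d` by no prime number, `y' - y = N k e₁ ∈ sp N * d`, and `y' ∉ P * d` for `P ∋ N` (`sp N * d ≤ P * d`). `y' ≠ 0`. -/
def Sc_RP2 : Prop :=
  ∀ A B : ℤ, CQ A B → ∀ (d : Ideal (OO A B)) (y : OO A B) (N : ℕ), d ≠ ⊥ → N ≠ 0 → y ∈ d →
    (∀ P : Ideal (OO A B), P.IsPrime → P ≠ ⊥ → ((N : ℕ) : OO A B) ∈ P → y ∉ P * d) →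
    ∃ y' ∈ d, y' ≠ 0 ∧ y' - y ∈ sp ((N : ℕ) : OO A B) * d ∧
      (∀ P : Ideal (OO A B), P.IsPrime → P ≠ ⊥ → ((N : ℕ) : OO A B) ∈ P → y' ∉ P * d) ∧
      ∀ l : ℕ, l.Prime → y' ∉ sp ((l : ℕ) : OO A B) * d

/-- (RP3) factorisation into primes of degree one.

USES Sxe_RNG. PROOF. Induction on `nI c` (or `UniqueFactorizationMonoid` induction). `c = ⊤`: empty list. Otherwise `c ≤ Q` for a maximal ideal `Q`, `c = Q * c'` (Dedekind: `Ideal.dvd_iff_le`), `c' ≠ ⊥`. `N ∉ Q` (`hc1`). `Q ∩ ℤ = (q)`, `q` prime, `q ∤ N`; `Q ∣ sp q`, `nI (sp q) = q²`: `nI Q = q` or `q²`; in the second case `Q = sp q` (`Q * Q' = sp q`, `nI Q' = 1`, `Q' = ⊤`), against `hc2`. The hypotheses hold for `c'`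
(`c ≤ c'`: if `c' ≤ P` then `c ≤ P`), `nI c' < nI c`. -/
def Sc_RP3 : Prop :=
  ∀ A B : ℤ, CQ A B → ∀ (N : ℕ), N ≠ 0 → ∀ c : Ideal (OO A B), c ≠ ⊥ →
    (∀ P : Ideal (OO A B), P.IsPrime → P ≠ ⊥ → ((N : ℕ) : OO A B) ∈ P → ¬ c ≤ P) →
    (∀ l : ℕ, l.Prime → ¬ c ≤ sp ((l : ℕ) : OO A B)) →
    ∃ ls : List (Ideal (OO A B)), ls.prod = c ∧ ∀ Q ∈ ls, Q.IsPrime ∧ ∃ q : ℕ, q.Prime ∧
      nI Q = q ∧ ¬ q ∣ N

/-- (REP) every class modulo `m` contains a product of primes of degree one with norm prime to `n` (PAPER_X (1.8)).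

USES COP, RP1, RP2, RP3. PROOF. (COP) for `cjI a`: `sp x₀ * cjI a = sp y₀ * d`, `d ≠ ⊥` prime to `m`. Multiply by `a`: `sp (x₀ nI a) = sp y₀ * (a * d)`; so `x₀ nI a = y₀ t` for some `t ∈ O` (the generator is in `sp y₀`), `t ≠ 0`, and `a * d = sp t` (cancel `sp y₀`). `N := n * nI m ∈ m`. (RP1), (RP2): `y ∈ d`, `y ≠ 0`, `y - t ∈ m` (`N d ≤ m`).
`sp y ≤ d`, so `sp y = c * d` (Dedekind, or `c = {x : x nI d ∈ sp y * cjI d}`). `c ≠ ⊥`. `c ≤ P` implies `y ∈ P * d`; `c ≤ sp l` implies `y ∈ sp l * d`. (RP3): `c` is a product of primes of degree one with norms not dividing `N`. `sp y * a = c * (a * d) = sp t * c`. `sp t = a * d` is prime to `m`, and so is `sp y` (`y ≡ t` modulo `m`). -/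
def Sc_REP : Prop :=
  ∀ A B : ℤ, CQ A B → ∀ (m a : Ideal (OO A B)) (n : ℕ), m ≠ ⊥ → n ≠ 0 → a ≠ ⊥ → IsCoprime a m →
    ∃ (ls : List (Ideal (OO A B))) (x y : OO A B), (∀ Q ∈ ls, Q.IsPrime ∧ ∃ q : ℕ, q.Prime ∧
      nI Q = q ∧ ¬ q ∣ n ∧ ¬ q ∣ nI m) ∧ IsCoprime (sp x) m ∧ IsCoprime (sp y) m ∧ x ≠ 0 ∧
      y ≠ 0 ∧ x - y ∈ m ∧ sp x * ls.prod = sp y * a

/-- (SUR) the field `surj` of `TorX` (PAPER_X (1.9)).

USES FRO, REP, FEX, FGL, CMP, CHG, QNE, Su_AUE. PROOF. (REP) with `n = n₀` of (FRO): list `ls`. By induction on a list `ls` of such primes there is `σ`, `FixK`, such that for every normalised `L` there are a normalised `L'` and `mu` with `ActI σ m ls.prod L L' mu`: empty list: `σ = RingEquiv.refl`, `L' = L`, `mu = 1`,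
the ideal `⊤ = 1`; step: (FEX) for `F = RF m` (finite Galois by FGL), `Q`: `V`, `φ`; extend `φ` to `s ∈ Aut(ℂ)` (AUE), `FixK`; (FRO): `ActI s m Q L L₁ mu₁`; (CMP) with the `σ` of the rest. Finally (CHG) with `x, y` of (REP) from `ls.prod` to `a`. -/
def Sc_SUR : Prop :=
  ∀ A B : ℤ, CQ A B → ∀ m : Ideal (OO A B), m ≠ ⊥ → ∀ a : Ideal (OO A B), a ≠ ⊥ →
    IsCoprime a m → ∃ σ : ℂ ≃+* ℂ, FixK A B σ ∧ ∀ (b : Ideal (OO A B)) (L : PeriodPair) (om : ℂ),
      IsNL b L om → ∃ (b' : Ideal (OO A B)) (L' : PeriodPair) (om' mu : ℂ), IsNL b' L' om' ∧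
        ActI σ m a L L' mu

/-! ## Roots of unity -/

/-- (DNX) a subgroup of the Galois group which contains the Frobenius automorphisms of almost all primes of degree one.

USES Sxe_RNG, `MU3` (Stmt_DENSF = `MU3.m_DENSF MU3.finNSP` of `MU3/AVAll.lean`, Sv_EXT, Sw_LOC). MODEL: `MU3/A_DENSF.lean`. PROOF. `𝓞 (kk A B) ≅ O` (`RingE.int`). `T` = the primes of `𝓞 k` which contain `n` (finite). For `v ∉ T` of prime norm `q`: `Q` = the corresponding ideal of `O`, prime, `nI Q = q`, `q ∤ n` (otherwise `n ∈ Q`). `w` above `v`, `σ x - x^q ∈ w` for the integers: `V` extends `w` (EXT; `w ≠ ⊥`), (LOC). -/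
def Sc_DNX : Prop :=
  ∀ (A B : ℤ), CQ A B → ∀ (F : IntermediateField (kk A B) ℂ) [FiniteDimensional (kk A B) F]
    [IsGalois (kk A B) F] (H : Subgroup (F ≃ₐ[kk A B] F)) (n : ℕ), n ≠ 0 →
      (∀ (Q : Ideal (OO A B)) (q : ℕ), q.Prime → Q.IsPrime → nI Q = q → ¬ q ∣ n →
        ∀ V : ValuationSubring ℂ, OverI V Q → ∀ σ : F ≃ₐ[kk A B] F,
        (∀ x : F, (x : ℂ) ∈ V → V.valuation (((σ x : F) : ℂ) - (x : ℂ) ^ q) < 1) → σ ∈ H) → H = ⊤

/-- (NMC) the norm of the ideal modulo `M` depends only on the class.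

PROOF. Norms: `nm x * nI a = nm y * nI a'` (`nI_mul`, `nI_sp`, `nm ≥ 0`; `a, a' ≠ ⊥`). `x - y ∈ m ≤ (M)`: `nm x ≡ nm y` modulo `M` (as `CYC.nm_cong` in `MU3/A_CYC.lean`). `sp x` is prime to `m`, so to `(M)`: `x r ≡ 1` modulo `M`, so `nm x` is prime to `M`. Cancel. -/
def Sc_NMC : Prop :=
  ∀ A B : ℤ, CQ A B → ∀ (M : ℕ) (m a a' : Ideal (OO A B)) (x y : OO A B), M ≠ 0 → m ≤ idl M →
    a ≠ ⊥ → a' ≠ ⊥ → IsCoprime (sp x) m → x ≠ 0 → y ≠ 0 → x - y ∈ m → sp x * a = sp y * a' →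
    nI a ≡ nI a' [MOD M]

/-- (ZET) the field `zeta` of `TorX` (PAPER_X (1.10)).

USES FRO, DNX, FGL, ACT, CMP, UNQ, NMC, NRL, QNE, TRV, CJN, Su_AUE, Su_AUF. MODEL: `MU3/A_CYC.lean`. PROOF. It is enough to take `z = ζ` a primitive `M`-th root of unity (the others are powers). `M = 1` is clear; `M > 1`, so `m ≠ ⊤`. For `s ∈ Aut(ℂ)`, `FixK A B s`, let `P(s)`: for all `a, b, L, L', om, mu` with `IsNL b L om`, `ActI s m a L L' mu`: `s ζ = ζ ^ nI a`. (0) For a fixed `s` it is enough to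
have it for one ideal `a` with `ActI s m a L L' mu` for all normalised `L` (given another one, `ActI s m a₂ L L₂ mu₂`: `L₂` is normalised (NRL), `kap L₂ = kap L'`, same points and coordinates (CJN), so `ActI s m a₂ L L' mu₂`; (UNQ), (NMC), `ζ^M = 1`). (1) `F₁ = RF m (ζ)`: finite Galois over `k`. `H` = the set of `φ ∈ Gal(F₁/k)` such that every extension `s ∈ Aut(ℂ)` of `φ` has
`P(s)`. It is a subgroup: if `P(s)`, `P(t)` then `P(t.trans s)` by (ACT), (CMP), (0) (norms are multiplicative); an extension of a product `φ ψ` is `s ∘ t` with `t` an extension of `ψ` (AUE) and `s := (given) ∘ t⁻¹`, an extension of `φ`; `P(id)`: the ideal is `⊤`; inverses because the group is finite (or directly). (2) Frobenius: `n := n₀ M nI m`; `Q, q, V, σ` as in (DNX), `s` an extension of `σ`: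
(FRO) gives `ActI s m Q L L' mu` for all normalised `L`, and `s ζ = ζ^i`, `v(ζ^i - ζ^q) < 1`, `q ∤ M`: `∏_(j=1)^(M-1) (1 - ζ^j) = M` has valuation `1`, so `ζ^i = ζ^q = ζ^(nI Q)`: `P(s)` by (0). (3) (DNX): `H = ⊤`, so `P(s)` for all `s`, `FixK`: the second claim. (4) `ζ ∈ RF m`: (AUF) for `F = RF m` (algebraic over `ℚ`): let `s` be trivial on `RF m`. If there is no normalised lattice then
.. this case does not occur (`IsNL b L om` is given). (ACT): `a`, `L'` normalised, `ActI s m a L L' mu`; (TRV): `a = sp c`, `c - 1 ∈ m ≤ (M)`, `nI a = nm c ≡ 1` modulo `M`; `s ζ = ζ^(nI a) = ζ`. -/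
def Sc_ZET : Prop :=
  ∀ A B : ℤ, CQ A B → ∀ (M : ℕ) (m a : Ideal (OO A B)) (σ : ℂ ≃+* ℂ) (b : Ideal (OO A B))
    (L L' : PeriodPair) (om mu : ℂ), m ≠ ⊥ → FixK A B σ → M ≠ 0 → m ≤ idl M →
    IsNL b L om → ActI σ m a L L' mu → ∀ z : ℂ, z ^ M = 1 →
      z ∈ (RF m : IntermediateField (kk A B) ℂ) ∧ σ z = z ^ nI a

/-- (TOR) the contract.

USES FGL, CMM, EXT, ACT, SUR, CMP, CHG, UNQ, TRV, ZET. PROOF. Field by field. -/
def Sc_TOR : Prop := ∀ A B : ℤ, CQ A B → TorX A B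

end

end Pool.Agent.MUXC


end

section

/-!
# ME, block CE (helper58): the main theorem of complex multiplication for the exceptional fields, `TorXE A B`

The twin of `Pool/Agent/MUX/StXC.lean` for the normalisation `IsNE`. The statements of `MUX/StXC.lean` which do not depend on the normalisation
(`CLF COP TRO GEN ENO INV QCR QEX QNE ISL FEX RP1 RP2 RP3 REP DNX NMC`) are used as they are. All proofs are in `Pool/Agent/ME/C_X.lean`, namespace
`Pool.Agent.MEC`; the final theorem `c_TORE` is in `Pool/Agent/ME/CEAll.lean`.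
-/

set_option autoImplicit false

open Polynomial NumberField IsDedekindDomain

namespace Pool.Agent.MEC

open _root_.MU3 _root_.Pool.Agent.MU3A _root_.Pool.Agent.MU3B _root_.Pool.Agent.MUX _root_.Pool.Agent.MUXU _root_.Pool.Agent.RI
open _root_.Pool.Agent.ME
open _root_.Pool.Agent.MUXE (NL Sxe_RNG)
open _root_.Pool.Agent.MUXC (Sc_CLF Sc_COP Sc_TRO Sc_GEN Sc_ENO Sc_INV Sc_QCR Sc_QEX Sc_QNE Sc_ISL Sc_FEX
  Sc_RP1 Sc_RP2 Sc_RP3 Sc_REP Sc_DNX Sc_NMC)
open _root_.Pool.Agent.MUXV (GR InK tX)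

noncomputable section

/-- good reduction of `y² = x³ - (g₂/4) x - g₃/4` at `V` -/
def GRE (V : ValuationSubring ℂ) (L : PeriodPair) : Prop :=
  ∃ (W : WeierstrassCurve.Affine ℂ) (ξ : ℂ →+ W.Point), GR V W L (xnE L) (yy L) ξ

/-- the generators of `RFE m` -/
def genS {A B : ℤ} (m : Ideal (OO A B)) : Set ℂ :=
  {c | ∃ (b : Ideal (OO A B)) (L : PeriodPair) (om : ℂ),
    IsNE b L om ∧ (c = kapE L ∨ ∃ z, Tor m L z ∧ z ∉ L.lattice ∧ c = xnE L z)}

/-- all normalised lattices have the same points and the same coordinates -/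
def Sc_SGQ : Prop :=
  ∀ (A B : ℤ) (L L' : PeriodPair), NrmE A B L → NrmE A B L' →
    (∀ z, z ∈ L.lattice ↔ z ∈ L'.lattice) ∧ kapE L = kapE L' ∧
      ∀ z, xnE L z = xnE L' z ∧ yy L z = yy L' z

/-- the twin of `MUXC.Sc_CJN` -/
def Sc_CJN : Prop :=
  ∀ A B : ℤ, CQ A B →
    (∀ (σ : ℂ ≃+* ℂ), FixK A B σ → ∀ (b : Ideal (OO A B)) (L : PeriodPair) (om : ℂ), IsNE b L om →
      (∀ x : OO A B, σ (emb x) = emb x) ∧
      ∃ (b' : Ideal (OO A B)) (L' : PeriodPair) (om' : ℂ), IsNE b' L' om' ∧ IsCj σ L L' ∧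
        kapE L' = σ (kapE L)) ∧
    (∀ (σ : ℂ ≃+* ℂ) (L L' : PeriodPair), NrmE A B L → NrmE A B L' →
      kapE L' = σ (kapE L) → IsCj σ L L') ∧
    ∀ (L L' : PeriodPair), NrmE A B L → NrmE A B L' → kapE L = kapE L' →
      (∀ z, z ∈ L.lattice ↔ z ∈ L'.lattice) ∧ ∀ z, xnE L z = xnE L' z ∧ yy L z = yy L' z

/-- the twin of `MUXC.Sc_PMF` -/
def Sc_PMF : Prop :=
  ∀ (σ : ℂ ≃+* ℂ) (L L' : PeriodPair) (Φ : ℂ → ℂ), IsPhi σ L L' Φ → ∀ z z' : ℂ,
    PME σ L L' z z' ↔ Φ z - z' ∈ L'.lattice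

/-- the twin of `MUXC.Sc_PHM` -/
def Sc_PHM : Prop :=
  ∀ A B : ℤ, CQ A B → ∀ (σ : ℂ ≃+* ℂ), FixK A B σ → ∀ (b : Ideal (OO A B)) (L L' : PeriodPair)
    (om : ℂ), IsLI b L om → IsCj σ L L' → ∀ Φ : ℂ → ℂ, IsPhi σ L L' Φ →
    (∀ (x : OO A B) (z : ℂ), Φ (emb x * z) - emb x * Φ z ∈ L'.lattice) ∧
    (∀ (m : Ideal (OO A B)) (z : ℂ), Tor m L' (Φ z) ↔ Tor m L z) ∧
    (∀ z z' : ℂ, Φ z - Φ z' ∈ L'.lattice ↔ z - z' ∈ L.lattice) ∧
    (∀ z z' : ℂ, Φ (z - z') - (Φ z - Φ z') ∈ L'.lattice)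

/-- the twin of `MUXC.Sc_EXA` -/
def Sc_EXA : Prop :=
  ∀ A B : ℤ, CQ A B → ∀ (σ : ℂ ≃+* ℂ), FixK A B σ → ∀ (m b b' : Ideal (OO A B))
    (L L' : PeriodPair) (om om' : ℂ), m ≠ ⊥ → IsNE b L om → IsNE b' L' om' →
    kapE L' = σ (kapE L) → ∃ (a : Ideal (OO A B)) (mu : ℂ), _root_.Pool.Agent.ME.ActE σ m a L L' mu

/-- the twin of `MUXC.Sc_IND` -/
def Sc_IND : Prop :=
  ∀ A B : ℤ, CQ A B → ∀ (σ : ℂ ≃+* ℂ), FixK A B σ → ∀ (m a b b' c c' : Ideal (OO A B))
    (L L' M M' : PeriodPair) (om om' omm omm' mu : ℂ), m ≠ ⊥ → IsNE b L om → IsNE b' L' om' →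
    IsNE c M omm → IsNE c' M' omm' → _root_.Pool.Agent.ME.ActE σ m a L L' mu → kapE M' = σ (kapE M) →
    ∃ nu : ℂ, _root_.Pool.Agent.ME.ActE σ m a M M' nu

/-- the twin of `MUXC.Sc_ACT` -/
def Sc_ACT : Prop :=
  ∀ A B : ℤ, CQ A B → ∀ m : Ideal (OO A B), m ≠ ⊥ → ∀ σ : ℂ ≃+* ℂ, FixK A B σ →
    ∃ a : Ideal (OO A B), IsCoprime a m ∧ ∀ (b : Ideal (OO A B)) (L : PeriodPair) (om : ℂ),
      IsNE b L om → ∃ (b' : Ideal (OO A B)) (L' : PeriodPair) (om' mu : ℂ), IsNE b' L' om' ∧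
        _root_.Pool.Agent.ME.ActE σ m a L L' mu

/-- the twin of `MUXC.Sc_CMP` -/
def Sc_CMP : Prop :=
  ∀ A B : ℤ, CQ A B → ∀ (m a b : Ideal (OO A B)) (σ τ : ℂ ≃+* ℂ) (L L' L'' : PeriodPair)
    (mu nu : ℂ), _root_.Pool.Agent.ME.ActE σ m a L L' mu → _root_.Pool.Agent.ME.ActE τ m b L' L'' nu →
    _root_.Pool.Agent.ME.ActE (σ.trans τ) m (a * b) L L'' (nu * mu)

/-- the twin of `MUXC.Sc_CHG` -/
def Sc_CHG : Prop :=
  ∀ A B : ℤ, CQ A B → ∀ (m a a' : Ideal (OO A B)) (σ : ℂ ≃+* ℂ) (L L' : PeriodPair) (mu : ℂ)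
    (x y : OO A B), m ≠ ⊥ → IsCoprime a' m → IsCoprime (sp x) m → x ≠ 0 → y ≠ 0 → x - y ∈ m →
    sp x * a = sp y * a' → (∃ (b : Ideal (OO A B)) (om : ℂ), IsNE b L om) → _root_.Pool.Agent.ME.ActE σ m a L L' mu →
    _root_.Pool.Agent.ME.ActE σ m a' L L' (mu * emb x / emb y)

/-- the twin of `MUXC.Sc_UNQ` -/
def Sc_UNQ : Prop :=
  ∀ A B : ℤ, CQ A B → ∀ (m a a' : Ideal (OO A B)) (σ : ℂ ≃+* ℂ) (L L' : PeriodPair)
    (mu mu' : ℂ), m ≠ ⊥ → (∃ (b : Ideal (OO A B)) (om : ℂ), IsNE b L om) → _root_.Pool.Agent.ME.ActE σ m a L L' mu →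
    _root_.Pool.Agent.ME.ActE σ m a' L L' mu' →
    ∃ x y : OO A B, IsCoprime (sp x) m ∧ x ≠ 0 ∧ y ≠ 0 ∧ x - y ∈ m ∧ sp x * a = sp y * a' ∧
      mu' = mu * emb x / emb y

/-- the twin of `MUXC.Sc_TRV` -/
def Sc_TRV : Prop :=
  ∀ A B : ℤ, CaseE A B → ∀ (m a : Ideal (OO A B)) (σ : ℂ ≃+* ℂ) (b : Ideal (OO A B))
    (L L' : PeriodPair) (om mu : ℂ), m ≠ ⊥ → FixK A B σ → IsNE b L om → _root_.Pool.Agent.ME.ActE σ m a L L' mu →
    NrmE A B L' →
    (∃ c : OO A B, mu = emb c ∧ a = sp c ∧ (m ≤ idl 2 → c - 1 ∈ idl (A := A) (B := B) 2)) ∧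
    ((∀ y ∈ (RFE m : IntermediateField (kk A B) ℂ), σ y = y) → ∃ c : OO A B, c - 1 ∈ m ∧ a = sp c) ∧
    ((m ≤ idl 2 ∨ m = ⊤) → (∃ c : OO A B, c - 1 ∈ m ∧ a = sp c) →
      ∀ y ∈ (RFE m : IntermediateField (kk A B) ℂ), σ y = y)

/-- the twin of `MUXC.Sc_NRL` -/
def Sc_NRL : Prop :=
  ∀ A B : ℤ, CaseE A B → ∀ (m a : Ideal (OO A B)) (σ : ℂ ≃+* ℂ) (b : Ideal (OO A B))
    (L L' : PeriodPair) (om mu : ℂ), m ≠ ⊥ → m ≠ ⊤ → FixK A B σ → IsNE b L om → _root_.Pool.Agent.ME.ActE σ m a L L' mu →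
    NrmE A B L' ∧ IsCj σ L L'

/-- the twin of `MUXC.Sc_FNG` -/
def Sc_FNG : Prop :=
  ∀ A B : ℤ, CQ A B → ∀ m : Ideal (OO A B), m ≠ ⊥ → (genS m).Finite

/-- the twin of `MUXC.Sc_FGL` -/
def Sc_FGL : Prop :=
  ∀ A B : ℤ, CQ A B → ∀ m : Ideal (OO A B), m ≠ ⊥ →
    FiniteDimensional (kk A B) (RFE m) ∧ IsGalois (kk A B) (RFE m) ∧
    ∀ σ : ℂ ≃+* ℂ, FixK A B σ → ∀ y ∈ (RFE m : IntermediateField (kk A B) ℂ), σ y ∈ RFE m

/-- the twin of `MUXC.Sc_CMM` -/
def Sc_CMM : Prop :=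
  ∀ A B : ℤ, CQ A B → ∀ m : Ideal (OO A B), m ≠ ⊥ → ∀ σ τ : RFE m ≃ₐ[kk A B] RFE m,
    σ * τ = τ * σ

/-- the twin of `MUXC.Sc_EXT` -/
def Sc_EXT : Prop :=
  ∀ A B : ℤ, CQ A B → (∀ m m' : Ideal (OO A B), m' ≤ m → (RFE m : IntermediateField (kk A B) ℂ) ≤ RFE m') ∧
  ∀ (m : Ideal (OO A B)), m ≠ ⊥ → ∀ (D : IntermediateField ℚ ℂ) (h : kk A B ≤ D),
    (∀ y ∈ D, y ∈ (RFE m : IntermediateField (kk A B) ℂ)) → letI := algC h
    ∀ τ : D ≃ₐ[kk A B] D, ∃ σ : ℂ ≃+* ℂ, FixK A B σ ∧ ExtC h τ σ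

/-- every ideal has a normalised lattice -/
def Sc_NEX : Prop :=
  ∀ A B : ℤ, CaseE A B → ∀ b : Ideal (OO A B), b ≠ ⊥ → ∃ (L : PeriodPair) (om : ℂ), IsNE b L om

/-- good reduction where `2` and `3` are units -/
def Sc_BAD : Prop :=
  ∀ A B : ℤ, CaseE A B → ∀ V : ValuationSubring ℂ, V.valuation (2 : ℂ) = 1 →
    V.valuation (3 : ℂ) = 1 → ∀ L : PeriodPair, NrmE A B L → GRE V L

/-- the Frobenius congruence for a prime ideal of degree one -/
def Sc_FRX : Prop :=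
  ∀ (A B : ℤ), CaseE A B → ∀ (Q : Ideal (OO A B)) (q : ℕ), q.Prime → q ≠ 2 → q ≠ 3 →
    nI Q = q → ∀ (b b' : Ideal (OO A B)) (L M : PeriodPair) (om om' mu : ℂ),
    IsNE b L om → IsNE b' M om' → IsQ Q L M mu →
    ∀ V : ValuationSubring ℂ, OverI V Q → ∃ mu' : ℂ, IsQ Q L M mu' ∧
    ∀ z, ¬ InK V L (xnE L) z → ¬ InK V M (xnE M) (mu' * z) ∧
      V.valuation (xnE M (mu' * z) - xnE L z ^ q) < 1

/-- the twin of `MUXC.Sc_FRO` -/
def Sc_FRO : Prop :=
  ∀ A B : ℤ, CaseE A B → ∃ n₀ : ℕ, n₀ ≠ 0 ∧ ∀ m : Ideal (OO A B), m ≠ ⊥ →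
    ∀ (Q : Ideal (OO A B)) (q : ℕ), q.Prime → nI Q = q → ¬ q ∣ n₀ → ¬ q ∣ nI m →
    ∀ V : ValuationSubring ℂ, OverI V Q → ∀ s : ℂ ≃+* ℂ, FixK A B s →
    (∀ x : ℂ, x ∈ (RFE m : IntermediateField (kk A B) ℂ) → x ∈ V →
      V.valuation (s x - x ^ q) < 1) →
    ∀ (b : Ideal (OO A B)) (L : PeriodPair) (om : ℂ), IsNE b L om →
      ∃ (b' : Ideal (OO A B)) (L' : PeriodPair) (om' mu : ℂ), IsNE b' L' om' ∧
        _root_.Pool.Agent.ME.ActE s m Q L L' mu

/-- the twin of `MUXC.Sc_SUR` -/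
def Sc_SUR : Prop :=
  ∀ A B : ℤ, CaseE A B → ∀ m : Ideal (OO A B), m ≠ ⊥ → ∀ a : Ideal (OO A B), a ≠ ⊥ →
    IsCoprime a m → ∃ σ : ℂ ≃+* ℂ, FixK A B σ ∧ ∀ (b : Ideal (OO A B)) (L : PeriodPair) (om : ℂ),
      IsNE b L om → ∃ (b' : Ideal (OO A B)) (L' : PeriodPair) (om' mu : ℂ), IsNE b' L' om' ∧
        _root_.Pool.Agent.ME.ActE σ m a L L' mu

/-- the twin of `MUXC.Sc_ZET` -/
def Sc_ZET : Prop :=
  ∀ A B : ℤ, CaseE A B → ∀ (M : ℕ) (m a : Ideal (OO A B)) (σ : ℂ ≃+* ℂ) (b : Ideal (OO A B))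
    (L L' : PeriodPair) (om mu : ℂ), m ≠ ⊥ → FixK A B σ → M ≠ 0 → m ≤ idl M →
    IsNE b L om → _root_.Pool.Agent.ME.ActE σ m a L L' mu → ∀ z : ℂ, z ^ M = 1 →
      z ∈ (RFE m : IntermediateField (kk A B) ℂ) ∧ σ z = z ^ nI a

/-- the twin of `MUXC.Sc_TOR` -/
def Sc_TOR : Prop := ∀ A B : ℤ, CaseE A B → TorXE A B

end

end Pool.Agent.MEC


end

section

/-!
# ME, block CE (port of `MUX/C_X.lean`), module CJN: conjugates of normalised lattices
-/

set_option autoImplicit false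

open Polynomial NumberField IsDedekindDomain

namespace Pool.Agent.MEC

open _root_.MU3 _root_.Pool.Agent.MU3A _root_.Pool.Agent.MU3B _root_.Pool.Agent.MUX _root_.Pool.Agent.MUXU _root_.Pool.Agent.RI
open _root_.Pool.Agent.ME
open _root_.Pool.Agent.MUXE (NL Sxe_RNG)
open _root_.Pool.Agent.MUXC (Sc_CLF Sc_COP Sc_TRO Sc_GEN Sc_ENO Sc_INV Sc_QCR Sc_QEX Sc_QNE Sc_ISL Sc_FEX
  Sc_RP1 Sc_RP2 Sc_RP3 Sc_REP Sc_DNX Sc_NMC)

noncomputable section

namespace CJN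

lemma _root_.Pool.Agent.MEC.CJN.emb_fix {A B : ℤ} {σ : ℂ ≃+* ℂ} (hσ : FixK A B σ) (x : OO A B) : σ (emb x) = emb x := by
  have h : σ (wC A B) = wC A B := hσ
  unfold emb
  rw [map_add, map_mul, map_intCast, map_intCast, h]

lemma sig_g2 (A B : ℤ) (σ : ℂ ≃+* ℂ) : σ (g2E A B) = g2E A B := by
  unfold g2E
  split_ifs
  · exact map_ofNat σ 4
  · exact map_zero σ

lemma sig_g3 (A B : ℤ) (σ : ℂ ≃+* ℂ) : σ (g3E A B) = g3E A B := by
  unfold g3E
  split_ifs
  · exact map_zero σ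
  · rw [map_neg, map_ofNat]

lemma kap_eq {A B : ℤ} {L : PeriodPair} (h : NrmE A B L) : kapE L = g2E A B + g3E A B := by
  unfold kapE
  rw [h.g2, h.g3]

lemma _root_.Pool.Agent.MEC.CJN.sig_kap {A B : ℤ} (σ : ℂ ≃+* ℂ) {L : PeriodPair} (h : NrmE A B L) :
    σ (kapE L) = kapE L := by
  rw [kap_eq h, map_add, sig_g2, sig_g3]

lemma kap_same {A B : ℤ} {L L' : PeriodPair} (h : NrmE A B L) (h' : NrmE A B L') :
    kapE L = kapE L' := by
  rw [kap_eq h, kap_eq h']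

lemma _root_.Pool.Agent.MEC.CJN.isCj {A B : ℤ} {σ : ℂ ≃+* ℂ} {L L' : PeriodPair} (h : NrmE A B L) (h' : NrmE A B L') :
    IsCj σ L L' := by
  refine ⟨?_, ?_⟩
  · rw [h.g2, h'.g2, sig_g2]
  · rw [h.g3, h'.g3, sig_g3]

lemma _root_.Pool.Agent.MEC.CJN.nrm_map {A B : ℤ} {σ : ℂ ≃+* ℂ} {L L' : PeriodPair} (h : NrmE A B L) (hc : IsCj σ L L') :
    NrmE A B L' := by
  refine ⟨?_, ?_⟩
  · rw [hc.1, h.g2, sig_g2]
  · rw [hc.2, h.g3, sig_g3]

end CJN

open _root_.Pool.Agent.MEC.CJN in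
theorem tc_CJN (h1 : Su_CJE) (h2 : Su_PHI) (h3 : Su_CMC) (h4 : Su_DET) (h5 : Sc_ISL) :
    Sc_CJN := by
  intro A B hQ
  refine ⟨?_, ?_, ?_⟩
  · intro σ hσ b L om hL
    refine ⟨_root_.Pool.Agent.MEC.CJN.emb_fix hσ, ?_⟩
    obtain ⟨L', hc⟩ := h1 σ L
    obtain ⟨Φ, hΦ⟩ := h2 σ L L' hc
    have hcm : HasCM A B L := hL.toIsLI.hasCM hQ
    have hcm' : HasCM A B L' := by
      intro x
      exact (h3 σ L L' Φ (emb x) (fun w hw => hcm x w hw) (_root_.Pool.Agent.MEC.CJN.emb_fix hσ x) hc hΦ).1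
    obtain ⟨b', om', hL'⟩ := h5 A B hQ L' hcm'
    refine ⟨b', L', om', ⟨hL', _root_.Pool.Agent.MEC.CJN.nrm_map hL.nrm hc⟩, hc, ?_⟩
    rw [_root_.Pool.Agent.MEC.CJN.sig_kap σ hL.nrm]
    exact kap_same (_root_.Pool.Agent.MEC.CJN.nrm_map hL.nrm hc) hL.nrm
  · intro σ L L' h h' hk
    exact _root_.Pool.Agent.MEC.CJN.isCj h h'
  · intro L L' h h' hk
    have hc : IsCj (RingEquiv.refl ℂ) L L' := _root_.Pool.Agent.MEC.CJN.isCj h h'
    have e := h4 L L' hc.1.symm hc.2.symm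
    have e1 : ∀ z, z ∈ L.lattice ↔ z ∈ L'.lattice := fun z => by rw [e]
    obtain ⟨p1, p2, -, -⟩ := ta_SCP L L' 1 one_ne_zero (fun u => by rw [one_mul]; exact e1 u)
    refine ⟨e1, fun z => ?_⟩
    have q1 := p1 z
    have q2 := p2 z
    rw [one_mul, one_pow, div_one] at q1 q2
    unfold xnE yy
    rw [q1, q2]
    exact ⟨rfl, rfl⟩

end

end Pool.Agent.MEC


end

section

/-!
# ME, block CE (port of `MUX/C_X.lean`): the contract `TorXE`
-/

set_option autoImplicit false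

namespace Pool.Agent.MEC

open _root_.Pool.Agent.ME
open _root_.Pool.Agent.MUXC (Sc_CLF Sc_COP Sc_TRO Sc_GEN Sc_ENO Sc_INV Sc_QCR Sc_QEX Sc_QNE Sc_ISL Sc_FEX
  Sc_RP1 Sc_RP2 Sc_RP3 Sc_REP Sc_DNX Sc_NMC)
open _root_.MU3 _root_.Pool.Agent.MU3A _root_.Pool.Agent.MU3B _root_.Pool.Agent.MUX _root_.Pool.Agent.MUXU _root_.Pool.Agent.RI

theorem tc_TOR (h1 : Sc_FGL) (h2 : Sc_CMM) (h3 : Sc_EXT) (h4 : Sc_ACT) (h5 : Sc_SUR)
    (h6 : Sc_CMP) (h7 : Sc_CHG) (h8 : Sc_UNQ) (h9 : Sc_TRV) (h10 : Sc_ZET) : Sc_TOR :=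
  fun A B hE =>
    have hAB : CQ A B := hE.toCQ
    { fin := fun m hm => (h1 A B hAB m hm).1
      gal := fun m hm => (h1 A B hAB m hm).2.1
      comm := fun m hm => h2 A B hAB m hm
      mono := fun m m' h => (h3 A B hAB).1 m m' h
      ext := fun m hm D h hD τ => (h3 A B hAB).2 m hm D h hD τ
      act := fun m hm σ hσ => h4 A B hAB m hm σ hσ
      surj := fun m hm a ha hc => h5 A B hE m hm a ha hc
      comp := fun m a b σ τ L L' L'' mu nu => h6 A B hAB m a b σ τ L L' L'' mu nu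
      chg := fun m a a' σ L L' mu x y => h7 A B hAB m a a' σ L L' mu x y
      uniq := fun m a a' σ L L' mu mu' => h8 A B hAB m a a' σ L L' mu mu'
      triv := fun m a σ b L L' om mu hm hm2 hσ hL hact hL' =>
        have h := h9 A B hE m a σ b L L' om mu hm hσ hL hact hL'
        ⟨h.2.1, h.2.2 hm2⟩
      two := fun m a σ b L L' om mu hm hm2 hσ hL hact hL' => by
        obtain ⟨⟨c, h1, h2, h3⟩, -⟩ := h9 A B hE m a σ b L L' om mu hm hσ hL hact hL'
        exact ⟨c, h1, h2, h3 hm2⟩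
      zeta := fun M m a σ b L L' om mu => h10 A B hE M m a σ b L L' om mu }

end Pool.Agent.MEC


end

section

/-!
# ME, block CE (port of `MUX/C_X.lean`), module SUR: the field `surj` of `TorXE`
-/

set_option autoImplicit false

open Polynomial NumberField IsDedekindDomain

namespace Pool.Agent.MEC

open _root_.Pool.Agent.ME
open _root_.Pool.Agent.MUXC (Sc_CLF Sc_COP Sc_TRO Sc_GEN Sc_ENO Sc_INV Sc_QCR Sc_QEX Sc_QNE Sc_ISL Sc_FEX
  Sc_RP1 Sc_RP2 Sc_RP3 Sc_REP Sc_DNX Sc_NMC)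
open _root_.MU3 _root_.Pool.Agent.MU3A _root_.Pool.Agent.MU3B _root_.Pool.Agent.MUX _root_.Pool.Agent.MUXU _root_.Pool.Agent.RI

noncomputable section

namespace SUR

variable {A B : ℤ}

lemma _root_.Pool.Agent.MEC.SUR.fix_refl : FixK A B (RingEquiv.refl ℂ) := rfl

lemma _root_.Pool.Agent.MEC.SUR.fix_trans {σ τ : ℂ ≃+* ℂ} (h : FixK A B σ) (h' : FixK A B τ) : FixK A B (σ.trans τ) := by
  change τ (σ (wC A B)) = wC A B
  rw [show σ (wC A B) = wC A B from h]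
  exact h'

lemma hasCM (h : CQ A B) {b : Ideal (OO A B)} {L : PeriodPair} {om : ℂ} (hL : IsLI b L om) :
    HasCM A B L := by
  intro x z hz
  obtain ⟨y, hy, rfl⟩ := (hL.mem z).1 hz
  refine (hL.mem _).2 ⟨x * y, b.mul_mem_left x hy, ?_⟩
  rw [Pool.Agent.MUX.emb_mul h]
  ring

/-- the identity acts as the unit ideal -/
lemma _root_.Pool.Agent.MEC.SUR.act_refl (h : CQ A B) (m : Ideal (OO A B)) {b : Ideal (OO A B)} {L : PeriodPair} {om : ℂ}
    (hL : IsNE b L om) : ActE (RingEquiv.refl ℂ) m (1 : Ideal (OO A B)) L L 1 := by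
  have hcm : HasCM A B L := hasCM h hL.toIsLI
  refine ⟨rfl, isCoprime_one_left, ⟨one_ne_zero, fun z => ?_⟩, fun z _ => ?_⟩
  · rw [one_mul]
    constructor
    · intro hz x _
      exact hcm x z hz
    · intro h'
      have h1 := h' 1 (by rw [Ideal.one_eq_top]; exact Submodule.mem_top)
      rwa [Pool.Agent.MUX.emb_one h, one_mul] at h1
  · rw [one_mul]
    by_cases hz : z ∈ L.lattice
    · exact Or.inl ⟨hz, hz⟩
    · exact Or.inr ⟨hz, hz, rfl, rfl⟩

lemma int_wC (h : CQ A B) : IsIntegral ℚ (wC A B) := by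
  refine ⟨X ^ 2 - C (B : ℚ) * X - C (A : ℚ), ?_, ?_⟩
  · monicity!
  · simp only [eval₂_sub, eval₂_pow, eval₂_X, eval₂_mul, eval₂_C]
    simp only [eq_ratCast, Rat.cast_intCast]
    rw [sq, Pool.Agent.MUX.wC_sq h]
    ring

/-- extension of an automorphism of `RFE m` -/
lemma _root_.Pool.Agent.MEC.SUR.extend (hAUE : Su_AUE) (h : CQ A B) (F : IntermediateField (kk A B) ℂ)
    [FiniteDimensional (kk A B) F] (φ : F ≃ₐ[kk A B] F) :
    ∃ s : ℂ ≃+* ℂ, FixK A B s ∧ ∀ x : F, s x = (φ x : ℂ) := by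
  have hk : Algebra.IsAlgebraic ℚ (kk A B) := by
    refine IntermediateField.isAlgebraic_adjoin ?_
    intro x hx
    rw [Set.mem_singleton_iff] at hx
    rw [hx]
    exact int_wC h
  let F' : IntermediateField ℚ ℂ := IntermediateField.restrictScalars ℚ F
  have hF : Algebra.IsAlgebraic (kk A B) F := inferInstance
  have hF' : Algebra.IsAlgebraic ℚ F' := by
    have : Algebra.IsAlgebraic ℚ F := Algebra.IsAlgebraic.trans ℚ (kk A B) F
    exact this
  let τ : F' →+* ℂ := (algebraMap F ℂ).comp (φ : F →+* F)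
  obtain ⟨s, hs⟩ := hAUE F' hF' τ
  refine ⟨s, ?_, fun x => hs x⟩
  have hw : wC A B ∈ kk A B := Pool.Agent.MU3A.wC_mem A B
  have h1 := hs ⟨wC A B, F.algebraMap_mem ⟨wC A B, hw⟩⟩
  have h2 : φ (algebraMap (kk A B) F ⟨wC A B, hw⟩) = algebraMap (kk A B) F ⟨wC A B, hw⟩ :=
    φ.commutes _
  change s (wC A B) = ((φ (algebraMap (kk A B) F ⟨wC A B, hw⟩) : F) : ℂ) at h1
  rw [h2] at h1
  exact h1

end SUR

open _root_.Pool.Agent.MEC.SUR in
theorem tc_SUR (hFRO : Sc_FRO) (hREP : Sc_REP) (hFEX : Sc_FEX) (hFGL : Sc_FGL) (hCMP : Sc_CMP)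
    (hCHG : Sc_CHG) (hAUE : Su_AUE) : Sc_SUR := by
  intro A B hE m hm a ha ham
  have hC : CQ A B := hE.toCQ
  obtain ⟨n₀, hn₀, hfro⟩ := hFRO A B hE
  obtain ⟨hfin, hgal, _⟩ := hFGL A B hC m hm
  obtain ⟨ls, x, y, hls, hx, hy, hx0, hy0, hxy, hprod⟩ := hREP A B hC m a n₀ hm hn₀ ha ham
  -- one prime
  have hone : ∀ Q : Ideal (OO A B), (Q.IsPrime ∧ ∃ q : ℕ, q.Prime ∧ nI Q = q ∧ ¬ q ∣ n₀ ∧ ¬ q ∣ nI m) →
      ∃ s : ℂ ≃+* ℂ, FixK A B s ∧ ∀ (b : Ideal (OO A B)) (L : PeriodPair) (om : ℂ),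
        IsNE b L om → ∃ (b' : Ideal (OO A B)) (L' : PeriodPair) (om' mu : ℂ), IsNE b' L' om' ∧
          ActE s m Q L L' mu := by
    rintro Q ⟨hQ, q, hq, hnq, hq1, hq2⟩
    obtain ⟨V, φ, hV, hφ⟩ := hFEX A B hC (RFE m) Q q hq hQ hnq
    obtain ⟨s, hs, hsφ⟩ := _root_.Pool.Agent.MEC.SUR.extend hAUE hC (RFE m) φ
    refine ⟨s, hs, hfro m hm Q q hq hnq hq1 hq2 V hV s hs fun z hz hzV => ?_⟩
    have h1 := hφ ⟨z, hz⟩ hzV
    have h2 := hsφ ⟨z, hz⟩
    change s z = _ at h2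
    rw [h2]
    exact h1
  -- products
  have hmany : ∀ l : List (Ideal (OO A B)), (∀ Q ∈ l, Q.IsPrime ∧ ∃ q : ℕ, q.Prime ∧
      nI Q = q ∧ ¬ q ∣ n₀ ∧ ¬ q ∣ nI m) → ∃ s : ℂ ≃+* ℂ, FixK A B s ∧
      ∀ (b : Ideal (OO A B)) (L : PeriodPair) (om : ℂ), IsNE b L om →
        ∃ (b' : Ideal (OO A B)) (L' : PeriodPair) (om' mu : ℂ), IsNE b' L' om' ∧
          ActE s m l.prod L L' mu := by
    intro l
    induction l with
    | nil =>
      intro _
      refine ⟨RingEquiv.refl ℂ, _root_.Pool.Agent.MEC.SUR.fix_refl, fun b L om hL => ⟨b, L, om, 1, hL, ?_⟩⟩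
      rw [List.prod_nil]
      exact _root_.Pool.Agent.MEC.SUR.act_refl hC m hL
    | cons Q l ih =>
      intro hl
      obtain ⟨s, hs, hs'⟩ := hone Q (hl Q List.mem_cons_self)
      obtain ⟨t, ht, ht'⟩ := ih fun Q' hQ' => hl Q' (List.mem_cons_of_mem _ hQ')
      refine ⟨s.trans t, _root_.Pool.Agent.MEC.SUR.fix_trans hs ht, fun b L om hL => ?_⟩
      obtain ⟨b₁, L₁, om₁, mu₁, hL₁, h1⟩ := hs' b L om hL
      obtain ⟨b₂, L₂, om₂, mu₂, hL₂, h2⟩ := ht' b₁ L₁ om₁ hL₁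
      refine ⟨b₂, L₂, om₂, mu₂ * mu₁, hL₂, ?_⟩
      rw [List.prod_cons]
      exact hCMP A B hC m Q l.prod s t L L₁ L₂ mu₁ mu₂ h1 h2
  obtain ⟨s, hs, hs'⟩ := hmany ls hls
  refine ⟨s, hs, fun b L om hL => ?_⟩
  obtain ⟨b', L', om', mu, hL', h1⟩ := hs' b L om hL
  exact ⟨b', L', om', mu * emb x / emb y, hL',
    hCHG A B hC m ls.prod a s L L' mu x y hm ham hx hx0 hy0 hxy hprod ⟨b, om, hL⟩ h1⟩

end

end Pool.Agent.MEC


end

section

/-!
# ME, block CE (port of `MUX/C_X.lean`): the ideal does not depend on the lattice (IND)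
-/

set_option autoImplicit false

open Polynomial NumberField IsDedekindDomain

namespace Pool.Agent.MEC

open _root_.MU3 _root_.Pool.Agent.MU3A _root_.Pool.Agent.MU3B _root_.Pool.Agent.MUX _root_.Pool.Agent.MUXU _root_.Pool.Agent.RI
open _root_.Pool.Agent.ME
open _root_.Pool.Agent.MUXE (NL Sxe_RNG)
open _root_.Pool.Agent.MUXC (Sc_CLF Sc_COP Sc_TRO Sc_GEN Sc_ENO Sc_INV Sc_QCR Sc_QEX Sc_QNE Sc_ISL Sc_FEX
  Sc_RP1 Sc_RP2 Sc_RP3 Sc_REP Sc_DNX Sc_NMC)

theorem tc_IND (h1 : Sc_QEX) (h2 : Sc_QNE) (h3 : Sc_CJN) (h4 : Sc_PMF) (h5 : Su_PHI)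
    (h6 : Su_FUN) (h7 : Pool.Agent.MUXY.Sy_MUC) : Sc_IND := by
  intro A B hCQ σ hσ m a b b' c c' L L' M M' om om' omm omm' mu hm hL hL' hM hM' hact hkap
  obtain ⟨q, ν, -, hqm, hν⟩ := h1 A B hCQ b c m L M om omm hL.toIsLI hM.toIsLI hm
  have cmL : HasCM A B L := hL.toIsLI.hasCM hCQ
  have cmM : HasCM A B M := hM.toIsLI.hasCM hCQ
  obtain ⟨-, isgLM, -⟩ := h2 A B hCQ q L M ν cmL hν
  obtain ⟨-, cj2, -⟩ := h3 A B hCQ
  have hcjL : IsCj σ L L' := cj2 σ L L' hL.nrm hL'.nrm hact.kapE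
  have hcjM : IsCj σ M M' := cj2 σ M M' hM.nrm hM'.nrm hkap
  have hQ' : IsQ q L' M' (σ ν) := h7 A B hCQ σ hσ q b L M L' M' om ν hL.toIsLI hcjL hcjM hν
  obtain ⟨Φ, hΦ⟩ := h5 σ L L' hcjL
  obtain ⟨Ψ, hΨ⟩ := h5 σ M M' hcjM
  obtain ⟨isg', hfun⟩ := h6 σ L M L' M' ν Φ Ψ hν.1 isgLM hcjL hcjM hΦ hΨ
  have hν0 : ν ≠ 0 := hν.1
  have hσν : σ ν ≠ 0 := hQ'.1
  have hmu : mu ≠ 0 := hact.isq.1
  have eM : ∀ (x : OO A B) (z : ℂ), emb x * z = ν * (emb x * (z / ν)) := by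
    intro x z
    field_simp
  have hQn : IsQ a M M' (mu * σ ν / ν) := by
    refine ⟨div_ne_zero (mul_ne_zero hmu hσν) hν0, fun z => ?_⟩
    have e1 : mu * σ ν / ν * z = σ ν * (mu * (z / ν)) := by
      field_simp
    rw [e1, hQ'.2]
    constructor
    · intro hz x hx
      rw [eM, hν.2]
      intro y hy
      have h8 := hz y hy
      rw [show emb y * (mu * (z / ν)) = mu * (emb y * (z / ν)) by ring, hact.isq.2] at h8
      have h9 := h8 x hx
      rwa [show emb x * (emb y * (z / ν)) = emb y * (emb x * (z / ν)) by ring] at h9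
    · intro hz y hy
      rw [show emb y * (mu * (z / ν)) = mu * (emb y * (z / ν)) by ring, hact.isq.2]
      intro x hx
      have h8 := hz x hx
      rw [eM, hν.2] at h8
      have h9 := h8 y hy
      rwa [show emb y * (emb x * (z / ν)) = emb x * (emb y * (z / ν)) by ring] at h9
  refine ⟨mu * σ ν / ν, hkap, hact.cop, hQn, fun z hz => ?_⟩
  rw [h4 σ M M' Ψ hΨ]
  obtain ⟨γ, hγ, β, hβ, hγβ⟩ := Ideal.isCoprime_iff_exists.1 hqm
  have hone : emb γ + emb β = 1 := by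
    rw [← _root_.Pool.Agent.MUX.emb_add hCQ, hγβ, _root_.Pool.Agent.MUX.emb_one hCQ]
  -- the point `w`
  have hw : Tor m L (emb γ * (z / ν)) := by
    intro x hx
    have h8 := hz x hx
    rw [eM, hν.2] at h8
    have h9 := h8 γ hγ
    rwa [show emb γ * (emb x * (z / ν)) = emb x * (emb γ * (z / ν)) by ring] at h9
  have e2 : ν * (emb γ * (z / ν)) = emb γ * z := by
    field_simp
  have hd : z - emb γ * z ∈ M.lattice := by
    have h8 := hz β hβ
    have e3 : z - emb γ * z = emb β * z := by linear_combination z * (-hone)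
    rw [e3]
    exact h8
  have k1 := hfun (emb γ * (z / ν))
  rw [e2] at k1
  have k2 : Φ (emb γ * (z / ν)) - mu * (emb γ * (z / ν)) ∈ L'.lattice :=
    (h4 σ L L' Φ hΦ _ _).1 (hact.act _ hw)
  have k3 := isg' _ k2
  have k4 := hΨ.add (z - emb γ * z) (emb γ * z)
  rw [sub_add_cancel] at k4
  have k5 := (hΨ.mem (z - emb γ * z)).2 hd
  have k6 : mu * σ ν / ν * (z - emb γ * z) ∈ M'.lattice :=
    (hQn.2 _).2 fun x _ => cmM x _ hd
  have k7 := sub_mem (add_mem (add_mem (add_mem k4 k5) k1) k3) k6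
  refine (congrArg (fun t => t ∈ M'.lattice) ?_).mpr k7
  field_simp
  ring

end Pool.Agent.MEC


end

section

/-!
# ME, block CE (port of `MUX/C_X.lean`), module FNG (helper48): the ray class fields have finitely many generators
-/

set_option autoImplicit false

open Polynomial NumberField IsDedekindDomain

namespace Pool.Agent.MEC

open _root_.MU3 _root_.Pool.Agent.MU3A _root_.Pool.Agent.MU3B _root_.Pool.Agent.MUX _root_.Pool.Agent.MUXU _root_.Pool.Agent.RI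
open _root_.Pool.Agent.ME
open _root_.Pool.Agent.MUXE (NL Sxe_RNG)
open _root_.Pool.Agent.MUXC (Sc_CLF Sc_COP Sc_TRO Sc_GEN Sc_ENO Sc_INV Sc_QCR Sc_QEX Sc_QNE Sc_ISL Sc_FEX
  Sc_RP1 Sc_RP2 Sc_RP3 Sc_REP Sc_DNX Sc_NMC)

noncomputable section

namespace FNG

variable {A B : ℤ}

/-- the generators which come from one lattice -/
def G (m : Ideal (OO A B)) (L : PeriodPair) : Set ℂ :=
  {c | c = kapE L ∨ ∃ z, Tor m L z ∧ z ∉ L.lattice ∧ c = xnE L z}

lemma xn_per (L : PeriodPair) {z w : ℂ} (h : z - w ∈ L.lattice) : xnE L z = xnE L w := by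
  have h1 := L.weierstrassP_add_coe w ⟨z - w, h⟩
  have h2 : w + ((⟨z - w, h⟩ : L.lattice) : ℂ) = z := by
    simp
  rw [h2] at h1
  unfold xnE
  rw [h1]

lemma _root_.Pool.Agent.MEC.FNG.G_fin (hG : Sc_GEN) (h : CQ A B) {b : Ideal (OO A B)} {L : PeriodPair} {om : ℂ}
    (hL : IsLI b L om) {m : Ideal (OO A B)} (hm : m ≠ ⊥) : (G m L).Finite := by
  obtain ⟨u, -, hu2, hu3⟩ := hG A B h b m L om hL hm
  have hfin : Finite (OO A B ⧸ m) := finite_quot h hm
  have hsub : G m L ⊆ {kapE L} ∪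
      Set.range (fun q : OO A B ⧸ m => xnE L (emb (Quotient.out q) * u)) := by
    rintro c (rfl | ⟨z, hz, -, rfl⟩)
    · exact Or.inl rfl
    · right
      obtain ⟨x, hx⟩ := hu3 z hz
      refine ⟨Ideal.Quotient.mk m x, ?_⟩
      show xnE L (emb (Quotient.out (Ideal.Quotient.mk m x)) * u) = xnE L z
      apply Eq.symm
      apply xn_per
      have h1 : x - Quotient.out (Ideal.Quotient.mk m x) ∈ m := by
        rw [← Ideal.Quotient.eq]
        exact (Quotient.out_eq _).symm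
      have h2 := (hu2 _).2 h1
      rw [_root_.Pool.Agent.MUX.emb_sub h] at h2
      have h3 := L.lattice.add_mem hx h2
      have h4 : z - emb x * u + (emb x - emb (Quotient.out (Ideal.Quotient.mk m x))) * u =
          z - emb (Quotient.out (Ideal.Quotient.mk m x)) * u := by ring
      rwa [h4] at h3
  exact ((Set.finite_singleton _).union (Set.finite_range _)).subset hsub

end FNG

open _root_.Pool.Agent.MEC.FNG in
theorem tc_FNG (h2 : Sc_GEN) (h3 : Sc_SGQ) : Sc_FNG := by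
  classical
  intro A B hc m hm
  by_cases hex : ∃ (b : Ideal (OO A B)) (L : PeriodPair) (om : ℂ), IsNE b L om
  · obtain ⟨b₁, L₁, om₁, hL₁⟩ := hex
    refine (_root_.Pool.Agent.MEC.FNG.G_fin h2 hc hL₁.toIsLI hm).subset ?_
    rintro c ⟨b, L, om, hL, hcG⟩
    obtain ⟨e1, e2, e3⟩ := h3 A B L L₁ hL.nrm hL₁.nrm
    rcases hcG with rfl | ⟨z, hz, hzL, rfl⟩
    · exact Or.inl e2
    · right
      exact ⟨z, fun x hx => (e1 _).1 (hz x hx), fun h => hzL ((e1 _).2 h), (e3 z).1⟩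
  · have : genS m = ∅ := by
      rw [Set.eq_empty_iff_forall_notMem]
      rintro c ⟨b, L, om, hL, -⟩
      exact hex ⟨b, L, om, hL⟩
    rw [this]
    exact Set.finite_empty

end

end Pool.Agent.MEC


end

section

/-!
# ME, block CE (port of `MUX/C_X.lean`), module EXT: the fields `mono`, `ext` of `TorXE`
-/

set_option autoImplicit false

open Polynomial NumberField IsDedekindDomain

namespace Pool.Agent.MEC

open _root_.Pool.Agent.ME
open _root_.Pool.Agent.MUXC (Sc_CLF Sc_COP Sc_TRO Sc_GEN Sc_ENO Sc_INV Sc_QCR Sc_QEX Sc_QNE Sc_ISL Sc_FEX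
  Sc_RP1 Sc_RP2 Sc_RP3 Sc_REP Sc_DNX Sc_NMC)
open _root_.MU3 _root_.Pool.Agent.MU3A _root_.Pool.Agent.MU3B _root_.Pool.Agent.MUX _root_.Pool.Agent.MUXU _root_.Pool.Agent.RI

noncomputable section

namespace EXT

/-- `k` is finite over `ℚ` -/
theorem _root_.Pool.Agent.MEC.EXT.fin_kk {A B : ℤ} (h : CQ A B) : FiniteDimensional ℚ (kk A B) := by
  have h1 : (0 : ℝ) ≤ (absD A B : ℝ) := by
    have := h.neg
    have h0 : 0 ≤ absD A B := by
      unfold absD
      omega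
    exact_mod_cast h0
  have h2 : ((Real.sqrt (absD A B) : ℝ) : ℂ) ^ 2 = (absD A B : ℂ) := by
    rw [← Complex.ofReal_pow, Real.sq_sqrt h1]
    norm_num
  have h3 : Complex.I ^ 2 = -1 := Complex.I_sq
  have h4 : (absD A B : ℂ) = -((B : ℂ) ^ 2 + 4 * A) := by simp [absD]
  have h5 : _root_.MU3.wC A B * _root_.MU3.wC A B = A + B * _root_.MU3.wC A B := by
    unfold _root_.MU3.wC
    linear_combination (Complex.I ^ 2 / 4) * h2 + ((absD A B : ℂ) / 4) * h3 - (1 / 4) * h4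
  have h6 : IsIntegral ℤ (_root_.MU3.wC A B) := by
    refine ⟨Polynomial.X ^ 2 - Polynomial.C B * Polynomial.X - Polynomial.C A, ?_, ?_⟩
    · monicity!
    · simp only [Polynomial.eval₂_sub, Polynomial.eval₂_mul, Polynomial.eval₂_pow,
        Polynomial.eval₂_X, Polynomial.eval₂_C]
      simp only [algebraMap_int_eq, eq_intCast]
      linear_combination h5
  exact IntermediateField.adjoin.finiteDimensional h6.tower_top

end EXT

open _root_.Pool.Agent.MEC.EXT in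
/-- the fields `mono`, `ext` of `TorXE` -/
theorem tc_EXT (hF : Sc_FGL) (hA : Su_AUE) : Sc_EXT := by
  intro A B hc
  refine ⟨?_, ?_⟩
  · intro m m' hle
    refine IntermediateField.adjoin.mono _ _ _ ?_
    rintro c ⟨b, L, om, hL, hc'⟩
    refine ⟨b, L, om, hL, ?_⟩
    rcases hc' with h | ⟨z, hz, h⟩
    · exact Or.inl h
    · exact Or.inr ⟨z, fun x hx => hz x (hle hx), h⟩
  · intro m hm D h hD
    let akD : Algebra (kk A B) D := algC h
    intro τ
    have hfk := _root_.Pool.Agent.MEC.EXT.fin_kk hc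
    have hfd := (hF A B hc m hm).1
    have halg : Algebra.IsAlgebraic ℚ D := by
      constructor
      intro y
      have h1 : IsIntegral (kk A B) (⟨(y : ℂ), hD y y.2⟩ : (RFE m : IntermediateField (kk A B) ℂ)) :=
        Algebra.IsIntegral.isIntegral _
      have h2 : IsIntegral (kk A B) (y : ℂ) := h1.map (RFE m : IntermediateField (kk A B) ℂ).val
      have h3 : IsIntegral ℚ (y : ℂ) := isIntegral_trans (y : ℂ) h2
      have h4 : IsIntegral ℚ y := (isIntegral_algHom_iff D.val Subtype.val_injective).1 h3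
      exact h4.isAlgebraic
    obtain ⟨σ, hσ⟩ := hA D halg ((algebraMap D ℂ).comp (τ : D ≃+* D).toRingHom)
    have hσ' : ∀ y : D, σ (y : ℂ) = (τ y : ℂ) := fun y => hσ y
    refine ⟨σ, ?_, hσ'⟩
    have e1 : τ (algebraMap (kk A B) D ⟨wC A B, wC_mem A B⟩) =
        algebraMap (kk A B) D ⟨wC A B, wC_mem A B⟩ := τ.commutes _
    have e2 := hσ' (algebraMap (kk A B) D ⟨wC A B, wC_mem A B⟩)
    rw [e1] at e2
    exact e2

end

end Pool.Agent.MEC


end

section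

/-!
# MUX, block XC, module UNQ (helper96): uniqueness of the class of the ideal
-/

set_option autoImplicit false

namespace Pool.Agent.MUXC

open _root_.MU3 _root_.Pool.Agent.MU3A _root_.Pool.Agent.MU3B _root_.Pool.Agent.MUX _root_.Pool.Agent.MUXU _root_.Pool.Agent.RI

noncomputable section

namespace UNQ

variable {A B : ℤ}

/-- the multiplier `mu' / mu` maps `a` into `a'` -/
theorem step (h : CQ A B) (hE : Sc_ENO) (hI : Sc_INV) {b : Ideal (OO A B)} {L : PeriodPair}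
    {om : ℂ} (hL : IsLI b L om) {L' : PeriodPair} {a a' : Ideal (OO A B)} {mu mu' : ℂ}
    (hq : IsQ a L L' mu) (hq' : IsQ a' L L' mu') (hg : Isg L L' mu') (ha' : a' ≠ ⊥) :
    ∀ α ∈ a, ∃ α₁ ∈ a', mu' * emb α = mu * emb α₁ := by
  intro α hα
  have hmu := hq.1
  have e0 : ∀ z : ℂ, mu * (mu' / mu * z) = mu' * z := by
    intro z
    field_simp
  have h1 : ∀ z : ℂ, mu' * z ∈ L'.lattice → mu' / mu * emb α * z ∈ L.lattice := by
    intro z hz
    rw [← e0] at hz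
    have := (hq.2 _).1 hz α hα
    have e : mu' / mu * emb α * z = emb α * (mu' / mu * z) := by ring
    rw [e]
    exact this
  obtain ⟨α₁, hα₁⟩ := hE A B h b L om hL (mu' / mu * emb α) (fun z hz => h1 z (hg z hz))
  refine ⟨α₁, hI A B h b L om hL a' ha' α₁ ?_, ?_⟩
  · intro z hz
    rw [← hα₁]
    exact h1 z ((hq'.2 z).2 hz)
  · rw [← hα₁]
    field_simp

end UNQ

open _root_.Pool.Agent.MUXC.UNQ in
/-- (UNQ) uniqueness of the class of the ideal. -/
theorem tc_UNQ (hQ : Sc_QNE) (hE : Sc_ENO) (hI : Sc_INV) (hG : Sc_GEN) (hP : Su_EQP) :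
    Sc_UNQ := by
  intro A B h m a a' σ L L' mu mu' hm hn hA hA'
  obtain ⟨b, om, hNL⟩ := hn
  have hL := hNL.toIsLI
  have hcm := IsLI.hasCM h hL
  obtain ⟨ha, hg, -⟩ := hQ A B h a L L' mu hcm hA.isq
  obtain ⟨ha', hg', -⟩ := hQ A B h a' L L' mu' hcm hA'.isq
  have hmu := hA.isq.1
  have hmu' := hA'.isq.1
  have s1 := step h hE hI hL hA.isq hA'.isq hg' ha'
  have s2 := step h hE hI hL hA'.isq hA.isq hg ha
  have hy : ∃ y ∈ a, y ≠ 0 ∧ 1 - y ∈ m := by
    obtain ⟨y, hy, β, hβ, hyβ⟩ := Ideal.isCoprime_iff_exists.1 hA.cop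
    by_cases hy0 : y = 0
    · rw [hy0, zero_add] at hyβ
      rw [hyβ] at hβ
      have hmt : m = ⊤ := (Ideal.eq_top_iff_one m).2 hβ
      obtain ⟨y', hy', hy0'⟩ := Submodule.exists_mem_ne_zero_of_ne_bot ha
      exact ⟨y', hy', hy0', by rw [hmt]; trivial⟩
    · refine ⟨y, hy, hy0, ?_⟩
      have : 1 - y = β := by rw [← hyβ]; ring
      rw [this]
      exact hβ
  obtain ⟨y, hya, hy0, hym⟩ := hy
  obtain ⟨x, hxa, hx⟩ := s1 y hya
  have hey : emb y ≠ 0 := _root_.Pool.Agent.MUX.emb_ne_zero h hy0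
  have hx0 : x ≠ 0 := by
    rintro rfl
    rw [_root_.Pool.Agent.MUX.emb_zero h, mul_zero] at hx
    exact mul_ne_zero hmu' hey hx
  -- the difference
  have hxy : x - y ∈ m := by
    obtain ⟨u, hu, hu2, -⟩ := hG A B h b m L om hL hm
    have p1 := hA.act u hu
    have p2 := hA'.act u hu
    have hd : mu * u - mu' * u ∈ L'.lattice := by
      rcases p1 with ⟨q1, q2⟩ | ⟨q1, q2, q3, q4⟩
      · rcases p2 with ⟨-, r2⟩ | ⟨r1, -⟩
        · exact sub_mem q2 r2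
        · exact absurd q1 r1
      · rcases p2 with ⟨r1, -⟩ | ⟨-, r2, r3, r4⟩
        · exact absurd r1 q1
        · refine hP L' _ _ q2 r2 ?_ ?_
          · have := q3.symm.trans r3
            unfold xn at this
            linear_combination this
          · have := q4.symm.trans r4
            unfold yy at this
            linear_combination 2 * this
    have e1 : mu * u - mu' * u = mu * (u - mu' / mu * u) := by
      field_simp
    rw [e1] at hd
    have h3 := (hA.isq.2 _).1 hd y hya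
    have e2 : emb y * (u - mu' / mu * u) = emb (y - x) * u := by
      rw [_root_.Pool.Agent.MUX.emb_sub h]
      have e3 : mu' / mu * emb y = emb x := by
        rw [div_mul_eq_mul_div, hx]
        field_simp
      linear_combination -u * e3
    rw [e2] at h3
    have h4 := (hu2 _).1 h3
    have e5 : x - y = -(y - x) := by ring
    rw [e5]
    exact neg_mem h4
  refine ⟨x, y, ?_, hx0, hy0, hxy, ?_, ?_⟩
  · rw [Ideal.isCoprime_iff_exists]
    refine ⟨x, Ideal.mem_span_singleton_self x, 1 - x, ?_, by ring⟩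
    have e : 1 - x = (1 - y) - (x - y) := by ring
    rw [e]
    exact sub_mem hym hxy
  · apply le_antisymm
    · rw [Ideal.span_singleton_mul_le_iff]
      intro α hα
      obtain ⟨α₁, hα₁, e⟩ := s1 α hα
      rw [Ideal.mem_span_singleton_mul]
      refine ⟨α₁, hα₁, ?_⟩
      apply _root_.Pool.Agent.MUX.emb_inj h
      rw [_root_.Pool.Agent.MUX.emb_mul h, _root_.Pool.Agent.MUX.emb_mul h]
      apply mul_left_cancel₀ hmu
      linear_combination emb α * hx - emb y * e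
    · rw [Ideal.span_singleton_mul_le_iff]
      intro α hα
      obtain ⟨α₁, hα₁, e⟩ := s2 α hα
      rw [Ideal.mem_span_singleton_mul]
      refine ⟨α₁, hα₁, ?_⟩
      apply _root_.Pool.Agent.MUX.emb_inj h
      rw [_root_.Pool.Agent.MUX.emb_mul h, _root_.Pool.Agent.MUX.emb_mul h]
      apply mul_left_cancel₀ hmu
      linear_combination (-emb α₁) * hx - emb y * e
  · rw [← hx]
    field_simp

end

end Pool.Agent.MUXC


end

section

/-!
# MUX, block XC: a primitive element of an ideal (module RP2)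
-/

set_option autoImplicit false

open Polynomial NumberField IsDedekindDomain

namespace Pool.Agent.MUXC

open _root_.MU3 _root_.Pool.Agent.MU3A _root_.Pool.Agent.MU3B _root_.Pool.Agent.MUX _root_.Pool.Agent.MUXU _root_.Pool.Agent.RI
open _root_.Pool.Agent.MUXE (NL Sxe_RNG)

noncomputable section

namespace RP2

lemma shift (α β N : ℤ) (hβ : β ≠ 0)
    (h : ∀ l : ℕ, l.Prime → (l : ℤ) ∣ N → (l : ℤ) ∣ α → (l : ℤ) ∣ β → False) :
    ∃ k : ℤ, ∀ l : ℕ, l.Prime → (l : ℤ) ∣ α + N * k → (l : ℤ) ∣ β → False := by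
  classical
  set s : Finset ℕ := β.natAbs.primeFactors.filter (fun p => ¬ (p : ℤ) ∣ α) with hs
  refine ⟨∏ p ∈ s, (p : ℤ), fun l hl h1 h2 => ?_⟩
  have hlp := Nat.prime_iff_prime_int.mp hl
  by_cases h3 : (l : ℤ) ∣ α
  · have h4 : (l : ℤ) ∣ N * ∏ p ∈ s, (p : ℤ) := (dvd_add_right h3).mp h1
    rcases hlp.dvd_or_dvd h4 with h5 | h5
    · exact h l hl h5 h3 h2
    · obtain ⟨p, hp, hlp'⟩ := hlp.exists_mem_finset_dvd h5
      rw [hs, Finset.mem_filter, Nat.mem_primeFactors] at hp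
      have h6 : l ∣ p := by exact_mod_cast hlp'
      rw [(Nat.prime_dvd_prime_iff_eq hl hp.1.1).mp h6] at h3
      exact hp.2 h3
  · have h4 : l ∈ s := by
      rw [hs, Finset.mem_filter, Nat.mem_primeFactors]
      refine ⟨⟨hl, ?_, ?_⟩, h3⟩
      · exact Int.natCast_dvd.mp h2
      · exact Int.natAbs_ne_zero.mpr hβ
    have h5 : (l : ℤ) ∣ ∏ p ∈ s, (p : ℤ) := Finset.dvd_prod_of_mem (fun p : ℕ => (p : ℤ)) h4
    exact h3 ((dvd_add_left (Dvd.dvd.mul_left h5 N)).mp h1)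

variable {A B : ℤ}

/-- a prime number is in a prime ideal -/
lemma exists_prime (hQ : CQ A B) (l : ℕ) (hl : l.Prime) :
    ∃ P : Ideal (OO A B), P.IsPrime ∧ P ≠ ⊥ ∧ ((l : ℕ) : OO A B) ∈ P := by
  have h1 : sp ((l : ℕ) : OO A B) ≠ ⊤ := by
    intro h
    have h2 : (1 : OO A B) ∈ sp ((l : ℕ) : OO A B) := by rw [h]; trivial
    obtain ⟨t, ht⟩ := Ideal.mem_span_singleton.mp h2
    have h3 := congrArg nm ht
    rw [nm_mul hQ] at h3
    have h4 : nm ((l : ℕ) : OO A B) = (l : ℤ) ^ 2 := by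
      have := nm_intCast (A := A) (B := B) (l : ℤ)
      rwa [Int.cast_natCast] at this
    have h5 : nm (1 : OO A B) = 1 := by
      have := nm_intCast (A := A) (B := B) 1
      rw [Int.cast_one] at this
      rw [this]
      norm_num
    rw [h4, h5] at h3
    have h6 : (l : ℤ) ∣ 1 := ⟨l * nm t, by rw [h3]; ring⟩
    have h7 : l ∣ 1 := by exact_mod_cast h6
    exact hl.one_lt.ne' (Nat.dvd_one.mp h7)
  obtain ⟨M, hM, hle⟩ := Ideal.exists_le_maximal _ h1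
  have hmem : ((l : ℕ) : OO A B) ∈ M := hle (Ideal.mem_span_singleton_self _)
  refine ⟨M, hM.isPrime, ?_, hmem⟩
  intro h
  rw [h, Ideal.mem_bot] at hmem
  exact natCast_ne_zero' hQ hl.ne_zero hmem

end RP2

open _root_.Pool.Agent.MUXC.RP2 in
theorem tc_RP2 : Sc_RP2 := by
  intro A B hQ d y N hd hN hy hP
  obtain ⟨al, be, F, -, -, hB⟩ := MUXT.tx_BAS A B hQ.neg d hd
  have hal : al ∈ d := by
    have := hB.memb (1, 0)
    simpa using this
  have hbe : be ∈ d := by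
    have := hB.memb (0, 1)
    simpa using this
  obtain ⟨⟨α, β₀⟩, hαβ⟩ := hB.surj y hy
  simp only at hαβ
  -- the second coordinate is not zero
  obtain ⟨β, hβ, hβN⟩ : ∃ β : ℤ, β ≠ 0 ∧ (N : ℤ) ∣ β - β₀ := by
    by_cases h : β₀ = 0
    · exact ⟨N, by exact_mod_cast hN, by rw [h, sub_zero]⟩
    · exact ⟨β₀, h, by rw [sub_self]; exact dvd_zero _⟩
  obtain ⟨c, hc⟩ := hβN
  have hNd : ∀ x ∈ d, ((N : ℕ) : OO A B) * x ∈ sp ((N : ℕ) : OO A B) * d := fun x hx =>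
    Ideal.mul_mem_mul (Ideal.mem_span_singleton_self _) hx
  have hNP : ∀ P : Ideal (OO A B), ((N : ℕ) : OO A B) ∈ P → sp ((N : ℕ) : OO A B) * d ≤ P * d :=
    fun P h => Ideal.mul_mono_left ((Ideal.span_singleton_le_iff_mem _).mpr h)
  have hno : ∀ l : ℕ, l.Prime → (l : ℤ) ∣ (N : ℤ) → (l : ℤ) ∣ α → (l : ℤ) ∣ β → False := by
    intro l hl h1 h2 h3
    obtain ⟨P, hPp, hPb, hlP⟩ := exists_prime hQ l hl
    have hNP' : ((N : ℕ) : OO A B) ∈ P := by
      obtain ⟨t, ht⟩ := h1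
      have : ((N : ℕ) : OO A B) = ((l : ℕ) : OO A B) * (t : OO A B) := by
        have := congrArg (fun z : ℤ => (z : OO A B)) ht
        push_cast at this
        exact this
      rw [this]
      exact P.mul_mem_right _ hlP
    apply hP P hPp hPb hNP'
    have h4 : (l : ℤ) ∣ β₀ := by
      have : β₀ = β - N * c := by rw [← hc]; ring
      rw [this]
      exact dvd_sub h3 (Dvd.dvd.mul_right h1 _)
    obtain ⟨a', ha'⟩ := h2
    obtain ⟨b', hb'⟩ := h4
    have h5 : y = ((l : ℕ) : OO A B) * ((a' : OO A B) * al + (b' : OO A B) * be) := by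
      rw [← hαβ, ha', hb']
      push_cast
      ring
    rw [h5]
    exact Ideal.mul_mem_mul hlP (d.add_mem (d.mul_mem_left _ hal) (d.mul_mem_left _ hbe))
  obtain ⟨k, hk⟩ := shift α β N hβ hno
  set y' : OO A B := ((α + N * k : ℤ) : OO A B) * al + ((β : ℤ) : OO A B) * be with hy'
  have hy'd : y' ∈ d := d.add_mem (d.mul_mem_left _ hal) (d.mul_mem_left _ hbe)
  have hdiff : y' - y = ((N : ℕ) : OO A B) * ((k : OO A B) * al + (c : OO A B) * be) := by
    have : (β : ℤ) = β₀ + N * c := by rw [← hc]; ring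
    rw [hy', ← hαβ, this]
    push_cast
    ring
  have hdm : y' - y ∈ sp ((N : ℕ) : OO A B) * d := by
    rw [hdiff]
    exact hNd _ (d.add_mem (d.mul_mem_left _ hal) (d.mul_mem_left _ hbe))
  refine ⟨y', hy'd, ?_, hdm, ?_, ?_⟩
  · intro h
    have := hB.inj (α + N * k, β) (0, 0) (by
      show ((α + N * k : ℤ) : OO A B) * al + ((β : ℤ) : OO A B) * be =
        ((0 : ℤ) : OO A B) * al + ((0 : ℤ) : OO A B) * be
      rw [← hy', h]
      simp)
    exact hβ (congrArg Prod.snd this)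
  · intro P hPp hPb hNP' hmem
    apply hP P hPp hPb hNP'
    have : y = y' - (y' - y) := by ring
    rw [this]
    exact Ideal.sub_mem _ hmem (hNP P hNP' hdm)
  · intro l hl hmem
    obtain ⟨t, ht, hlt⟩ := Ideal.mem_span_singleton_mul.mp hmem
    obtain ⟨⟨u, w⟩, huw⟩ := hB.surj t ht
    simp only at huw
    have := hB.inj (α + N * k, β) (l * u, l * w) (by
      show ((α + N * k : ℤ) : OO A B) * al + ((β : ℤ) : OO A B) * be =
        ((l * u : ℤ) : OO A B) * al + ((l * w : ℤ) : OO A B) * be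
      rw [← hy', ← hlt, ← huw]
      push_cast
      ring)
    have e1 := congrArg Prod.fst this
    have e2 := congrArg Prod.snd this
    simp only at e1 e2
    exact hk l hl ⟨u, e1⟩ ⟨w, e2⟩

end

end Pool.Agent.MUXC


end

section

/-!
# MUX, block XC, module REP (helper91): every class modulo `m` contains a product of primes of degree one
-/

set_option autoImplicit false

namespace Pool.Agent.MUXC

open _root_.MU3 _root_.Pool.Agent.MU3A _root_.Pool.Agent.MU3B _root_.Pool.Agent.MUX _root_.Pool.Agent.MUXU _root_.Pool.Agent.RI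

noncomputable section

namespace REP

variable {A B : ℤ}

theorem sp_mul (x y : OO A B) : sp (x * y) = sp x * sp y :=
  (Ideal.span_singleton_mul_span_singleton x y).symm

theorem le1 (I J : Ideal (OO A B)) : I * J ≤ I := Ideal.mul_le_left

/-- a multiple of a nonzero ideal is divisible by it -/
theorem exists_mul (h : CQ A B) (d : Ideal (OO A B)) (hd : d ≠ ⊥) (y : OO A B) (hy : y ∈ d) :
    ∃ c : Ideal (OO A B), c * d = sp y := by
  have hN : ((nI d : ℕ) : OO A B) ≠ 0 := natCast_ne_zero' h (nI_ne_zero h hd)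
  set N : OO A B := ((nI d : ℕ) : OO A B) with hNdef
  set J : Ideal (OO A B) := sp y * cjI d with hJ
  have hJle : J ≤ sp N := by
    rw [← mul_cjI h hd]
    exact Ideal.mul_mono_left ((Ideal.span_singleton_le_iff_mem _).2 hy)
  set c : Ideal (OO A B) := Submodule.comap (LinearMap.mulLeft (OO A B) N) J with hc
  have hcJ : sp N * c = J := by
    refine le_antisymm ?_ ?_
    · rw [Ideal.span_singleton_mul_le_iff]
      intro z hz
      exact hz
    · intro z hz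
      obtain ⟨w, hw⟩ := Ideal.mem_span_singleton'.1 (hJle hz)
      rw [Ideal.mem_span_singleton_mul]
      refine ⟨w, ?_, by rw [mul_comm]; exact hw⟩
      show N * w ∈ J
      rw [mul_comm, hw]
      exact hz
  have hsp : sp N ≠ ⊥ := by
    rw [Ne, Ideal.span_singleton_eq_bot]
    exact hN
  refine ⟨c, mul_cancel h hsp ?_⟩
  rw [← mul_assoc, hcJ, hJ, mul_assoc, mul_comm (cjI d) d, mul_cjI h hd, mul_comm]

end REP

open _root_.Pool.Agent.MUXC.REP in
theorem tc_REP (h1 : Sc_COP) (h2 : Sc_RP1) (h3 : Sc_RP2) (h4 : Sc_RP3) : Sc_REP := by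
  intro A B hC m a n hm hn ha hcop
  have hdom : IsDomain (OO A B) := isDomain hC
  have hcja : cjI a ≠ ⊥ := cjI_ne_bot hC ha
  obtain ⟨d, x₀, y₀, hd, hdm, hx₀, hy₀, he⟩ := h1 A B hC (cjI a) m hcja hm
  have hNa : ((nI a : ℕ) : OO A B) ≠ 0 := natCast_ne_zero' hC (nI_ne_zero hC ha)
  -- the generator of `a * d`
  have e1 : sp (x₀ * ((nI a : ℕ) : OO A B)) = sp y₀ * (a * d) := by
    rw [sp_mul, ← mul_cjI hC ha]
    calc sp x₀ * (a * cjI a) = a * (sp x₀ * cjI a) := by rw [mul_left_comm]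
      _ = a * (sp y₀ * d) := by rw [he]
      _ = sp y₀ * (a * d) := by rw [mul_left_comm]
  have hmem : x₀ * ((nI a : ℕ) : OO A B) ∈ sp y₀ := by
    have h5 : x₀ * ((nI a : ℕ) : OO A B) ∈ sp (x₀ * ((nI a : ℕ) : OO A B)) :=
      Ideal.mem_span_singleton_self _
    rw [e1] at h5
    exact le1 (sp y₀) (a * d) h5
  obtain ⟨t, ht⟩ := Ideal.mem_span_singleton'.1 hmem
  have ht0 : t ≠ 0 := by
    intro h0
    rw [h0, zero_mul] at ht
    exact mul_ne_zero hx₀ hNa ht.symm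
  have hspy₀ : sp y₀ ≠ ⊥ := by
    rw [Ne, Ideal.span_singleton_eq_bot]
    exact hy₀
  have had : a * d = sp t := by
    refine mul_cancel hC hspy₀ ?_
    rw [← e1, ← ht, mul_comm t y₀, sp_mul]
  -- the integer `N`
  have hNm : nI m ≠ 0 := nI_ne_zero hC hm
  obtain ⟨N, hN⟩ : ∃ N : ℕ, N = n * nI m := ⟨_, rfl⟩
  have hN0 : N ≠ 0 := by rw [hN]; exact mul_ne_zero hn hNm
  have hNmem : ((N : ℕ) : OO A B) ∈ m := by
    rw [hN, Nat.cast_mul]
    exact m.mul_mem_left _ (nI_mem hC hm)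
  obtain ⟨y₁, hy₁, hy₁t, hy₁P⟩ := h2 A B hC a d m t N hm hd hN0 hNmem hcop hdm ht0 had
  obtain ⟨y, hyd, hy0, hyy, hyP, hyl⟩ := h3 A B hC d y₁ N hd hN0 hy₁ hy₁P
  have hyt : y - t ∈ m := by
    have e : y - t = (y - y₁) + (y₁ - t) := by ring
    rw [e]
    refine add_mem ?_ (le1 m d hy₁t)
    have h5 : sp ((N : ℕ) : OO A B) * d ≤ m :=
      le_trans (le1 (sp ((N : ℕ) : OO A B)) d) ((Ideal.span_singleton_le_iff_mem _).2 hNmem)
    exact h5 hyy
  obtain ⟨c, hcd⟩ := exists_mul hC d hd y hyd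
  have hc0 : c ≠ ⊥ := by
    intro h0
    rw [h0, Ideal.bot_mul] at hcd
    exact hy0 (Ideal.span_singleton_eq_bot.1 hcd.symm)
  have hyc : ∀ P : Ideal (OO A B), c ≤ P → y ∈ P * d := by
    intro P hP
    have h5 : y ∈ c * d := by
      rw [hcd]
      exact Ideal.mem_span_singleton_self y
    exact Ideal.mul_mono_left hP h5
  obtain ⟨ls, hprod, hls⟩ := h4 A B hC N hN0 c hc0
    (fun P hP hP0 hNP hle => hyP P hP hP0 hNP (hyc P hle))
    (fun l hl hle => hyl l hl (hyc _ hle))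
  have hspt : IsCoprime (sp t) m := by
    rw [← had]
    exact IsCoprime.mul_left hcop hdm
  refine ⟨ls, t, y, ?_, hspt, ?_, ht0, hy0, ?_, ?_⟩
  · intro Q hQ
    obtain ⟨hQp, q, hq, hqn, hqN⟩ := hls Q hQ
    refine ⟨hQp, q, hq, hqn, fun h5 => hqN ?_, fun h5 => hqN ?_⟩
    · rw [hN]
      exact Dvd.dvd.mul_right h5 _
    · rw [hN]
      exact Dvd.dvd.mul_left h5 _
  · obtain ⟨i, hi, j, hj, hij⟩ := Ideal.isCoprime_iff_exists.1 hspt
    obtain ⟨α, hα⟩ := Ideal.mem_span_singleton'.1 hi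
    refine Ideal.isCoprime_iff_exists.2 ⟨α * y, Ideal.mem_span_singleton'.2 ⟨α, rfl⟩,
      j - α * (y - t), sub_mem hj (m.mul_mem_left _ hyt), ?_⟩
    rw [← hij, ← hα]
    ring
  · have e : t - y = -(y - t) := by ring
    rw [e]
    exact neg_mem hyt
  · rw [hprod, ← had, ← hcd]
    ring

end

end Pool.Agent.MUXC


end

section

/-!
# MUX, block XC: module QNE, first facts on `IsQ`
-/

set_option autoImplicit false

namespace Pool.Agent.MUXC

open _root_.MU3 _root_.Pool.Agent.MU3A _root_.Pool.Agent.MU3B _root_.Pool.Agent.MUX _root_.Pool.Agent.MUXU _root_.Pool.Agent.RI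
open _root_.Pool.Agent.MUXE (NL Sxe_RNG)

noncomputable section

/-- QNE. -/
theorem tc_QNE : Sc_QNE := by
  intro A B h a L L' mu hL hq
  refine ⟨?_, ?_, hq.cm h⟩
  · rintro rfl
    have h0 := hq.1
    apply L'.ω₁_div_two_notMem_lattice
    have h1 : mu * (mu⁻¹ * (L'.ω₁ / 2)) ∈ L'.lattice := by
      refine (hq.2 _).2 fun x hx => ?_
      rw [(Submodule.mem_bot (OO A B)).1 hx, _root_.Pool.Agent.MUX.emb_zero h, zero_mul]
      exact zero_mem _
    rwa [mul_inv_cancel_left₀ h0] at h1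
  · exact fun z hz => hq.mem hL hz

end

end Pool.Agent.MUXC


end

section

/-!
# MUX, block XC, module PMF: `PM` in terms of `Φ` (helper72)
-/

set_option autoImplicit false

namespace Pool.Agent.MUXC

open _root_.MU3 _root_.Pool.Agent.MU3A _root_.Pool.Agent.MU3B _root_.Pool.Agent.MUX _root_.Pool.Agent.MUXU

theorem tc_PMF (hEQP : Su_EQP) : Sc_PMF := by
  intro σ L L' Φ hΦ z z'
  have hxn : ∀ z, z ∉ L.lattice → xn L' (Φ z) = σ (xn L z) := by
    intro z hz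
    unfold xn
    rw [hΦ.P z hz, map_sub, map_div₀, map_one, map_ofNat]
  have hyy : ∀ z, z ∉ L.lattice → yy L' (Φ z) = σ (yy L z) := by
    intro z hz
    unfold yy
    rw [hΦ.P' z hz, map_div₀, map_ofNat]
  by_cases hz : z ∈ L.lattice
  · have hΦz : Φ z ∈ L'.lattice := (hΦ.mem z).2 hz
    constructor
    · rintro (⟨-, h⟩ | ⟨h, -⟩)
      · exact sub_mem hΦz h
      · exact absurd hz h
    · intro h
      left
      refine ⟨hz, ?_⟩
      have e : z' = Φ z - (Φ z - z') := by ring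
      rw [e]
      exact sub_mem hΦz h
  · have hΦz : Φ z ∉ L'.lattice := fun h => hz ((hΦ.mem z).1 h)
    constructor
    · rintro (⟨h, -⟩ | ⟨-, hz', hx, hy⟩)
      · exact absurd h hz
      · apply hEQP L' (Φ z) z' hΦz hz'
        · have h1 : xn L' (Φ z) = xn L' z' := by rw [hxn z hz, hx]
          unfold xn at h1
          exact sub_left_injective h1
        · have h1 : yy L' (Φ z) = yy L' z' := by rw [hyy z hz, hy]
          unfold yy at h1
          linear_combination 2 * h1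
    · intro h
      have e : z' = Φ z - (Φ z - z') := by ring
      have hz' : z' ∉ L'.lattice := by
        intro h'
        apply hΦz
        have e2 : Φ z = (Φ z - z') + z' := by ring
        rw [e2]
        exact add_mem h h'
      right
      refine ⟨hz, hz', ?_, ?_⟩
      · rw [← hxn z hz, e]
        unfold xn
        rw [L'.weierstrassP_sub_coe (Φ z) ⟨Φ z - z', h⟩]
      · rw [← hyy z hz, e]
        unfold yy
        rw [L'.derivWeierstrassP_sub_coe (Φ z) ⟨Φ z - z', h⟩]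

end Pool.Agent.MUXC


end

section

/-!
# MUX, block XC, module NRL: the conjugate lattice is normalised
-/

set_option autoImplicit false

open Polynomial NumberField IsDedekindDomain

namespace Pool.Agent.MUXC

open _root_.MU3 _root_.Pool.Agent.MU3A _root_.Pool.Agent.MU3B _root_.Pool.Agent.MUX _root_.Pool.Agent.MUXU _root_.Pool.Agent.RI
open _root_.Pool.Agent.MUXE (NL Sxe_RNG)

noncomputable section

theorem tc_NRL (h1 : Sc_GEN) : Sc_NRL := by
  intro A B hQ m a σ b L L' om mu hm hmt hL hA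
  obtain ⟨u, hu, hum, -⟩ := h1 A B hQ b m L om hL.toIsLI hm
  have huL : u ∉ L.lattice := by
    intro hc
    apply hmt
    rw [Ideal.eq_top_iff_one, ← hum 1]
    have e : emb (1 : OO A B) = 1 := _root_.Pool.Agent.MUX.emb_one hQ
    rw [e, one_mul]
    exact hc
  rcases hA.act u hu with ⟨h2, -⟩ | ⟨-, huL', hx, hy⟩
  · exact absurd h2 huL
  have hg2 : L'.g₂ = σ L.g₂ := by
    have h3 := hA.kap
    unfold kap at h3
    rw [map_div₀, map_sub, map_mul, map_one, map_ofNat, map_ofNat] at h3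
    linear_combination 144 * h3
  have hP : L'.weierstrassP (mu * u) = σ (L.weierstrassP u) := by
    unfold xn at hx
    rw [map_sub, map_div₀, map_one, map_ofNat] at hx
    linear_combination -hx
  have hP' : L'.derivWeierstrassP (mu * u) = σ (L.derivWeierstrassP u) := by
    unfold yy at hy
    rw [map_div₀, map_ofNat] at hy
    linear_combination -2 * hy
  have e1 := L.derivWeierstrassP_sq u huL
  have e2 := L'.derivWeierstrassP_sq (mu * u) huL'
  have e3 := congrArg σ e1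
  have hg3 : L'.g₃ = σ L.g₃ := by
    rw [hP, hP', hg2] at e2
    simp only [map_pow, map_sub, map_mul, map_ofNat] at e3
    linear_combination e2 - e3
  refine ⟨?_, hg2, hg3⟩
  rw [hg2, hg3, hL.nrm, map_mul, map_neg, map_ofNat]

end

end Pool.Agent.MUXC


end

section

/-!
# MUX, block XC, module ISL: every lattice with multiplication by `O` belongs to an ideal
-/

set_option autoImplicit false

open Polynomial NumberField IsDedekindDomain

namespace Pool.Agent.MUXC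

open _root_.MU3 _root_.Pool.Agent.MU3A _root_.Pool.Agent.MU3B _root_.Pool.Agent.MUX _root_.Pool.Agent.MUXU _root_.Pool.Agent.RI
open _root_.Pool.Agent.MUXE (NL Sxe_RNG)

noncomputable section

/-- ISL. -/
theorem tc_ISL : Sc_ISL := by
  intro A B h L hL
  have hω1 : L.ω₁ ≠ 0 := by
    intro h0
    have h1 := L.indep.ne_zero 0
    simp only [Matrix.cons_val_zero] at h1
    exact h1 h0
  have m1 : L.ω₁ ∈ L.lattice := L.ω₁_mem_lattice
  have hw : wC A B * L.ω₁ ∈ L.lattice := by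
    have h1 := hL ⟨0, 1⟩ L.ω₁ m1
    rwa [MUX.emb_w] at h1
  obtain ⟨p, q, hpq⟩ := PeriodPair.mem_lattice.1 hw
  have hq : q ≠ 0 := by
    rintro rfl
    rw [Int.cast_zero, zero_mul, add_zero] at hpq
    have h1 := mul_right_cancel₀ hω1 hpq
    have h2 := _root_.Pool.Agent.MUX.wC_im_pos h
    rw [← h1, Complex.intCast_im] at h2
    exact lt_irrefl _ h2
  have hqC : (q : ℂ) ≠ 0 := by exact_mod_cast hq
  -- the elements of the lattice
  have key : ∀ z ∈ L.lattice, ∃ x : OO A B, z = L.ω₁ / q * emb x := by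
    intro z hz
    obtain ⟨i, j, rfl⟩ := PeriodPair.mem_lattice.1 hz
    refine ⟨⟨q * i - j * p, j⟩, ?_⟩
    have e1 : emb (⟨q * i - j * p, j⟩ : OO A B) = (q * i - j * p : ℂ) + j * wC A B := by
      simp [emb]
    rw [e1, div_mul_eq_mul_div, eq_div_iff hqC]
    linear_combination (j : ℂ) * hpq
  let b : Ideal (OO A B) :=
    { carrier := {x | L.ω₁ / q * emb x ∈ L.lattice}
      add_mem' := by
        intro x y hx hy
        change L.ω₁ / q * emb (x + y) ∈ L.lattice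
        rw [_root_.Pool.Agent.MUX.emb_add h, mul_add]
        exact add_mem hx hy
      zero_mem' := by
        change L.ω₁ / q * emb (0 : OO A B) ∈ L.lattice
        rw [_root_.Pool.Agent.MUX.emb_zero h, mul_zero]
        exact zero_mem _
      smul_mem' := by
        intro r x hx
        change L.ω₁ / q * emb (r * x) ∈ L.lattice
        rw [_root_.Pool.Agent.MUX.emb_mul h, mul_left_comm]
        exact hL r _ hx }
  have hb : ∀ x : OO A B, x ∈ b ↔ L.ω₁ / q * emb x ∈ L.lattice := fun x => Iff.rfl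
  refine ⟨b, L.ω₁ / q, ?_, div_ne_zero hω1 hqC, ?_⟩
  · intro h0
    have h1 : ((q : ℤ) : OO A B) ∈ b := by
      rw [hb, _root_.Pool.Agent.MUX.emb_intCast h, div_mul_cancel₀ _ hqC]
      exact m1
    rw [h0, Ideal.mem_bot] at h1
    have h2 := _root_.Pool.Agent.MUX.emb_intCast h q
    rw [h1, _root_.Pool.Agent.MUX.emb_zero h] at h2
    exact hqC h2.symm
  · intro z
    constructor
    · intro hz
      obtain ⟨x, hx⟩ := key z hz
      exact ⟨x, (hb x).2 (hx ▸ hz), hx⟩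
    · rintro ⟨x, hx, rfl⟩
      exact (hb x).1 hx

end

end Pool.Agent.MUXC


end

section

/-!
# MUX, block XC, module INV: `a` is recovered from `a⁻¹ L`
-/

set_option autoImplicit false

namespace Pool.Agent.MUXC

open _root_.MU3 _root_.Pool.Agent.MU3A _root_.Pool.Agent.MU3B _root_.Pool.Agent.MUX _root_.Pool.Agent.MUXU _root_.Pool.Agent.RI

theorem tc_INV (h1 : Sc_TRO) : Sc_INV := by
  intro A B hC b L om hL a ha y hy
  have hom := hL.om_ne
  have hN : ((nI a : ℕ) : ℂ) ≠ 0 := by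
    exact_mod_cast nI_ne_zero hC ha
  have hJ0 : cjI a * b ≠ ⊥ := mul_ne_bot hC (cjI_ne_bot hC ha) hL.b_ne
  have key : (cjI a * b) * sp y ≤ (cjI a * b) * a := by
    rw [Ideal.mul_le]
    intro t ht s hs
    rw [Ideal.mem_span_singleton'] at hs
    obtain ⟨r, rfl⟩ := hs
    have hz : Tor a L (om * emb t / nI a) := (h1 A B hC b L om hL a ha _).2 ⟨t, ht, rfl⟩
    obtain ⟨β, hβ, e⟩ := (hL.mem _).1 (hy _ hz)
    have e2 : t * y = ((nI a : ℕ) : OO A B) * β := by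
      apply _root_.Pool.Agent.MUX.emb_inj hC
      rw [_root_.Pool.Agent.MUX.emb_mul hC, _root_.Pool.Agent.MUX.emb_mul hC, _root_.Pool.Agent.MUX.emb_natCast hC]
      field_simp at e
      linear_combination e
    have e3 : t * (r * y) = r * (((nI a : ℕ) : OO A B) * β) := by
      rw [← e2]; ring
    rw [e3]
    apply Ideal.mul_mem_left
    have e4 : cjI a * b * a = sp ((nI a : ℕ) : OO A B) * b := by
      rw [← mul_cjI hC ha]; ring
    rw [e4]
    exact Ideal.mul_mem_mul (Ideal.mem_span_singleton_self _) hβ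
  rw [mul_le_mul_iff hC hJ0] at key
  exact key (Ideal.mem_span_singleton_self y)

end Pool.Agent.MUXC


end

section

/-!
# MUX, block XC, module GEN (helper1): `L[m] / L` is cyclic, isomorphic to `O / m`
-/

set_option autoImplicit false

open Polynomial NumberField IsDedekindDomain

namespace Pool.Agent.MUXC

open _root_.MU3 _root_.Pool.Agent.MU3A _root_.Pool.Agent.MU3B _root_.Pool.Agent.MUX _root_.Pool.Agent.MUXU _root_.Pool.Agent.RI
open _root_.Pool.Agent.MUXE (NL Sxe_RNG)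

theorem tc_GEN (h1 : Sc_TRO) (h2 : Sxe_RNG) : Sc_GEN := by
  intro A B hq b m L om hL hm
  have := (h2 A B hq).ded
  have hb := hL.b_ne
  have hom := hL.om_ne
  have hJ0 : cjI m * b ≠ ⊥ := Pool.Agent.MUX.mul_ne_bot hq (Pool.Agent.MUX.cjI_ne_bot hq hm) hb
  have hmJ : m * (cjI m * b) = sp ((nI m : ℕ) : OO A B) * b := by
    rw [← mul_assoc, Pool.Agent.MUX.mul_cjI hq hm]
  have hle : m * (cjI m * b) ≤ cjI m * b := Ideal.mul_le_right
  obtain ⟨s, hs⟩ := IsDedekindDomain.exists_sup_span_eq hle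
    (Pool.Agent.MUX.mul_ne_bot hq hm hJ0)
  have hsJ : s ∈ cjI m * b := by
    rw [← hs]
    exact Ideal.mem_sup_right (Ideal.mem_span_singleton_self s)
  have hN : ((nI m : ℕ) : ℂ) ≠ 0 := by exact_mod_cast Pool.Agent.MUX.nI_ne_zero hq hm
  refine ⟨om * emb s / nI m, (h1 A B hq b L om hL m hm _).2 ⟨s, hsJ, rfl⟩, fun x => ?_,
    fun z hz => ?_⟩
  · have e1 : emb x * (om * emb s / nI m) ∈ L.lattice ↔ x * s ∈ m * (cjI m * b) := by
      rw [hmJ, hL.mem, Ideal.mem_span_singleton_mul]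
      constructor
      · rintro ⟨β, hβ, h3⟩
        refine ⟨β, hβ, Pool.Agent.MUX.emb_inj hq ?_⟩
        rw [Pool.Agent.MUX.emb_mul hq, Pool.Agent.MUX.emb_mul hq,
          Pool.Agent.MUX.emb_natCast hq]
        apply mul_left_cancel₀ hom
        have h4 : emb x * (om * emb s / nI m) * nI m = om * emb β * nI m := by rw [h3]
        have h5 : emb x * (om * emb s / nI m) * nI m = om * (emb x * emb s) := by
          field_simp
        rw [h5] at h4
        linear_combination -h4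
      · rintro ⟨β, hβ, h3⟩
        refine ⟨β, hβ, ?_⟩
        have h4 := congrArg emb h3
        rw [Pool.Agent.MUX.emb_mul hq, Pool.Agent.MUX.emb_mul hq,
          Pool.Agent.MUX.emb_natCast hq] at h4
        apply mul_right_cancel₀ hN
        have h5 : emb x * (om * emb s / nI m) * nI m = om * (emb x * emb s) := by
          field_simp
        rw [h5]
        linear_combination -om * h4
    rw [e1]
    constructor
    · intro h3
      have h4 : (cjI m * b) * sp x ≤ (cjI m * b) * m := by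
        have h5 : (m * (cjI m * b) ⊔ Ideal.span {s}) * sp x ≤ (cjI m * b) * m := by
          rw [Ideal.sup_mul]
          refine sup_le ?_ ?_
          · rw [mul_comm (cjI m * b) m]
            exact Ideal.mul_le_left
          · rw [Ideal.span_singleton_mul_span_singleton, Ideal.span_singleton_le_iff_mem,
              mul_comm s x, mul_comm (cjI m * b) m]
            exact h3
        rwa [hs] at h5
      exact (Pool.Agent.MUX.mul_le_mul_iff hq hJ0).1 h4 (Ideal.mem_span_singleton_self x)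
    · intro h3
      exact Ideal.mul_mem_mul h3 hsJ
  · obtain ⟨t, ht, hz'⟩ := (h1 A B hq b L om hL m hm z).1 hz
    rw [← hs] at ht
    obtain ⟨t1, ht1, t2, ht2, h3⟩ := Submodule.mem_sup.1 ht
    rw [hmJ] at ht1
    obtain ⟨β, hβ, h4⟩ := Ideal.mem_span_singleton_mul.1 ht1
    obtain ⟨x, h5⟩ := Ideal.mem_span_singleton'.1 ht2
    refine ⟨x, (hL.mem _).2 ⟨β, hβ, ?_⟩⟩
    rw [hz', ← h3, ← h4, ← h5, Pool.Agent.MUX.emb_add hq, Pool.Agent.MUX.emb_mul hq,
      Pool.Agent.MUX.emb_mul hq, Pool.Agent.MUX.emb_natCast hq]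
    field_simp
    ring

end Pool.Agent.MUXC


end

section

/-!
# MUX, block XC, module FNG (helper48): the ray class fields have finitely many generators
-/

set_option autoImplicit false

open Polynomial NumberField IsDedekindDomain

namespace Pool.Agent.MUXC

open _root_.MU3 _root_.Pool.Agent.MU3A _root_.Pool.Agent.MU3B _root_.Pool.Agent.MUX _root_.Pool.Agent.MUXU _root_.Pool.Agent.RI
open _root_.Pool.Agent.MUXE (NL Sxe_RNG)

noncomputable section

namespace FNG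

variable {A B : ℤ}

/-- the generators which come from one lattice -/
def G (m : Ideal (OO A B)) (L : PeriodPair) : Set ℂ :=
  {c | c = kap L ∨ ∃ z, Tor m L z ∧ z ∉ L.lattice ∧ c = xn L z}

lemma xn_per (L : PeriodPair) {z w : ℂ} (h : z - w ∈ L.lattice) : xn L z = xn L w := by
  have h1 := L.weierstrassP_add_coe w ⟨z - w, h⟩
  have h2 : w + ((⟨z - w, h⟩ : L.lattice) : ℂ) = z := by
    simp
  rw [h2] at h1
  unfold xn
  rw [h1]

lemma G_fin (hG : Sc_GEN) (h : CQ A B) {b : Ideal (OO A B)} {L : PeriodPair} {om : ℂ}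
    (hL : IsLI b L om) {m : Ideal (OO A B)} (hm : m ≠ ⊥) : (G m L).Finite := by
  obtain ⟨u, -, hu2, hu3⟩ := hG A B h b m L om hL hm
  have hfin : Finite (OO A B ⧸ m) := finite_quot h hm
  have hsub : G m L ⊆ {kap L} ∪
      Set.range (fun q : OO A B ⧸ m => xn L (emb (Quotient.out q) * u)) := by
    rintro c (rfl | ⟨z, hz, -, rfl⟩)
    · exact Or.inl rfl
    · right
      obtain ⟨x, hx⟩ := hu3 z hz
      refine ⟨Ideal.Quotient.mk m x, ?_⟩
      show xn L (emb (Quotient.out (Ideal.Quotient.mk m x)) * u) = xn L z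
      apply Eq.symm
      apply xn_per
      have h1 : x - Quotient.out (Ideal.Quotient.mk m x) ∈ m := by
        rw [← Ideal.Quotient.eq]
        exact (Quotient.out_eq _).symm
      have h2 := (hu2 _).2 h1
      rw [_root_.Pool.Agent.MUX.emb_sub h] at h2
      have h3 := L.lattice.add_mem hx h2
      have h4 : z - emb x * u + (emb x - emb (Quotient.out (Ideal.Quotient.mk m x))) * u =
          z - emb (Quotient.out (Ideal.Quotient.mk m x)) * u := by ring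
      rwa [h4] at h3
  exact ((Set.finite_singleton _).union (Set.finite_range _)).subset hsub

lemma G_eq {L L' : PeriodPair} (hLL : ∀ z : ℂ, z ∈ L.lattice ↔ z ∈ L'.lattice)
    (m : Ideal (OO A B)) : G m L = G m L' := by
  obtain ⟨h1, -, h2, -⟩ := ta_SCP L L' 1 one_ne_zero (fun u => by rw [one_mul]; exact hLL u)
  have hk : kap L' = kap L := by
    unfold kap
    rw [h2]
    norm_num
  have hx : ∀ z, xn L' z = xn L z := by
    intro z
    have h3 := h1 z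
    unfold xn
    rw [one_mul] at h3
    rw [h3]
    norm_num
  have ht : ∀ z, Tor m L z ↔ Tor m L' z := by
    intro z
    constructor
    · intro h x hx
      exact (hLL _).1 (h x hx)
    · intro h x hx
      exact (hLL _).2 (h x hx)
  ext c
  unfold G
  simp only [Set.mem_setOf_eq, hk, hx, ht, hLL]

end FNG

open _root_.Pool.Agent.MUXC.FNG in
theorem tc_FNG (h1 : Sc_CLF) (h2 : Sc_GEN) (h3 : Pool.Agent.MUXY.Sy_SAM) : Sc_FNG := by
  classical
  intro A B hc m hm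
  obtain ⟨S, -, hS⟩ := h1 A B hc
  -- the generators from the lattices of one class
  let T : Ideal (OO A B) → Set ℂ := fun b₀ => {c | ∃ (b : Ideal (OO A B)) (L : PeriodPair) (om : ℂ)
    (x y : OO A B), IsNL b L om ∧ x ≠ 0 ∧ y ≠ 0 ∧ sp x * b = sp y * b₀ ∧ c ∈ G m L}
  have hT : ∀ b₀ : Ideal (OO A B), (T b₀).Finite := by
    intro b₀
    by_cases hex : ∃ (b : Ideal (OO A B)) (L : PeriodPair) (om : ℂ) (x y : OO A B),
        IsNL b L om ∧ x ≠ 0 ∧ y ≠ 0 ∧ sp x * b = sp y * b₀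
    · obtain ⟨b₁, L₁, om₁, x₁, y₁, hL₁, hx₁, hy₁, he₁⟩ := hex
      have hdom : IsDomain (OO A B) := isDomain hc
      refine (G_fin h2 hc hL₁.toIsLI hm).subset ?_
      rintro c ⟨b, L, om, x, y, hL, hx, hy, he, hcG⟩
      have hsp : sp (x * y₁) * b = sp (y * x₁) * b₁ := by
        have e1 : sp (x * y₁) = sp x * sp y₁ := (Ideal.span_singleton_mul_span_singleton x y₁).symm
        have e2 : sp (y * x₁) = sp y * sp x₁ := (Ideal.span_singleton_mul_span_singleton y x₁).symm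
        calc sp (x * y₁) * b = sp y₁ * (sp x * b) := by rw [e1]; ring
          _ = sp y * (sp y₁ * b₀) := by rw [he]; ring
          _ = sp (y * x₁) * b₁ := by rw [← he₁, e2]; ring
      have hLL := h3 A B hc b b₁ L L₁ om om₁ (x * y₁) (y * x₁) hL hL₁ (mul_ne_zero hx hy₁)
        (mul_ne_zero hy hx₁) hsp
      rw [← G_eq hLL m]
      exact hcG
    · have : T b₀ = ∅ := by
        rw [Set.eq_empty_iff_forall_notMem]
        rintro c ⟨b, L, om, x, y, hL, hx, hy, he, -⟩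
        exact hex ⟨b, L, om, x, y, hL, hx, hy, he⟩
      rw [this]
      exact Set.finite_empty
  have hsub : genS m ⊆ ⋃ b₀ ∈ S, T b₀ := by
    rintro c ⟨b, L, om, hL, hcG⟩
    obtain ⟨b₀, hb₀, x, y, hx, hy, he⟩ := hS b hL.b_ne
    exact Set.mem_biUnion hb₀ ⟨b, L, om, x, y, hL, hx, hy, he, hcG⟩
  exact (Set.Finite.biUnion (Finset.finite_toSet S) fun b₀ _ => hT b₀).subset hsub

end

end Pool.Agent.MUXC


end

section

/-!
# MU3, block V: congruences modulo a prime and modulo a valuation ring extending it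
-/

set_option autoImplicit false

open WeierstrassCurve Polynomial NumberField IsDedekindDomain

namespace Pool.Agent.MU3V

open _root_.MU3 _root_.Pool.Agent.MU3A _root_.Pool.Agent.MU3B _root_.Pool.Agent.MU3C

theorem tw_LOC : Sw_LOC := by
  intro A B F _ w V hVw σ q _ hσ x hx
  have hx1 : w.valuation F x ≤ 1 := (hVw x).1.mp hx
  obtain ⟨s, ⟨t, ht⟩, hst⟩ := w.exists_primeCompl_mul_eq_of_integer x hx1
  have ht' : t ∉ w.asIdeal := ht
  have hst' : x * (t : F) = (s : F) := hst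
  obtain ⟨y1, hy1, hy1'⟩ := hσ s
  obtain ⟨y2, hy2, hy2'⟩ := hσ t
  have vt : w.valuation F (t : F) = 1 := w.valuation_eq_one_iff_notMem.mpr ht'
  have vy1 : w.valuation F (y1 : F) < 1 := (w.valuation_lt_one_iff_mem y1).mpr hy1
  have vy2 : w.valuation F (y2 : F) < 1 := (w.valuation_lt_one_iff_mem y2).mpr hy2
  have vs : w.valuation F (s : F) ≤ 1 := w.valuation_le_one s
  have vtq : w.valuation F ((t : F) ^ q) = 1 := by rw [map_pow, vt, one_pow]
  have vsq : w.valuation F ((s : F) ^ q) ≤ 1 := by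
    rw [map_pow]
    exact pow_le_one' vs q
  have hσt : σ (t : F) = (y2 : F) + (t : F) ^ q := by rw [hy2']; ring
  have vσt : w.valuation F (σ (t : F)) = 1 := by
    rw [hσt, Valuation.map_add_eq_of_lt_right _ (by rw [vtq]; exact vy2), vtq]
  have hmul : σ x * σ (t : F) = σ (s : F) := by rw [← map_mul, hst']
  have key : (σ x - x ^ q) * (σ (t : F) * (t : F) ^ q) =
      (y1 : F) * (t : F) ^ q - (s : F) ^ q * (y2 : F) := by
    have e1 : σ (s : F) = (y1 : F) + (s : F) ^ q := by rw [hy1']; ring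
    have e2 : x ^ q * (t : F) ^ q = (s : F) ^ q := by rw [← mul_pow, hst']
    calc (σ x - x ^ q) * (σ (t : F) * (t : F) ^ q)
        = (σ x * σ (t : F)) * (t : F) ^ q - (x ^ q * (t : F) ^ q) * σ (t : F) := by ring
      _ = ((y1 : F) + (s : F) ^ q) * (t : F) ^ q - (s : F) ^ q * ((y2 : F) + (t : F) ^ q) := by
          rw [hmul, e1, e2, hσt]
      _ = (y1 : F) * (t : F) ^ q - (s : F) ^ q * (y2 : F) := by ring
  have vlt : w.valuation F ((y1 : F) * (t : F) ^ q - (s : F) ^ q * (y2 : F)) < 1 := by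
    refine Valuation.map_sub_lt _ ?_ ?_
    · rw [map_mul, vtq, mul_one]
      exact vy1
    · rw [map_mul]
      exact lt_of_le_of_lt (mul_le_of_le_one_left' vsq) vy2
  have vres : w.valuation F (σ x - x ^ q) < 1 := by
    rw [← key, map_mul, map_mul, vσt, vtq, mul_one, mul_one] at vlt
    exact vlt
  have hfin := (hVw (σ x - x ^ q)).2.mpr vres
  exact hfin

end Pool.Agent.MU3V


end

section

/-!
# MUX, block XC: module EXA, existence of the ideal of an automorphism, for one lattice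
-/

set_option autoImplicit false

open Polynomial NumberField IsDedekindDomain

namespace Pool.Agent.MUXC

open _root_.MU3 _root_.Pool.Agent.MU3A _root_.Pool.Agent.MU3B _root_.Pool.Agent.MUX _root_.Pool.Agent.MUXU _root_.Pool.Agent.RI
open _root_.Pool.Agent.MUXE (NL Sxe_RNG)

noncomputable section

namespace EXA

/-- an element whose multiplication is injective modulo `m` is prime to `m` -/
lemma coprime_of_inj {A B : ℤ} (hc : CQ A B) {m : Ideal (OO A B)} (hm : m ≠ ⊥) (c : OO A B)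
    (h : ∀ x : OO A B, x * c ∈ m → x ∈ m) : IsCoprime (sp c) m := by
  have hf : Finite (OO A B ⧸ m) := finite_quot hc hm
  have hinj : Function.Injective (fun q : OO A B ⧸ m => q * Ideal.Quotient.mk m c) := by
    intro q q' hq
    obtain ⟨x, rfl⟩ := Ideal.Quotient.mk_surjective q
    obtain ⟨x', rfl⟩ := Ideal.Quotient.mk_surjective q'
    have h1 : Ideal.Quotient.mk m x * Ideal.Quotient.mk m c =
        Ideal.Quotient.mk m x' * Ideal.Quotient.mk m c := hq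
    rw [← map_mul, ← map_mul, Ideal.Quotient.eq, ← sub_mul] at h1
    exact Ideal.Quotient.eq.2 (h _ h1)
  have hsurj := Finite.surjective_of_injective hinj
  obtain ⟨q, hq⟩ := hsurj 1
  obtain ⟨y, rfl⟩ := Ideal.Quotient.mk_surjective q
  have h1 : Ideal.Quotient.mk m y * Ideal.Quotient.mk m c = Ideal.Quotient.mk m 1 := by
    rw [map_one]
    exact hq
  rw [← map_mul, Ideal.Quotient.eq] at h1
  rw [Ideal.isCoprime_iff_exists]
  refine ⟨y * c, Ideal.mul_mem_left _ _ (Ideal.mem_span_singleton_self c), 1 - y * c, ?_, by ring⟩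
  have h2 := m.neg_mem h1
  rwa [neg_sub] at h2

end EXA

theorem tc_EXA (hQEX : Sc_QEX) (hGEN : Sc_GEN) (hCJN : Sc_CJN) (hPMF : Sc_PMF) (hPHM : Sc_PHM)
    (hPHI : Su_PHI) : Sc_EXA := by
  intro A B hc σ hσ m b b' L L' om om' hm hL hL' hk
  obtain ⟨a₀, mu₀, ha₀, hcop, hq⟩ := hQEX A B hc b b' m L L' om om' hL.toIsLI hL'.toIsLI hm
  have hcm : HasCM A B L := hL.toIsLI.hasCM hc
  have hcm' : HasCM A B L' := hq.cm hc
  have hmem : ∀ z ∈ L.lattice, mu₀ * z ∈ L'.lattice := fun z hz => hq.mem hcm hz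
  by_cases htop : m = ⊤
  · refine ⟨a₀, mu₀, hk, hcop, hq, ?_⟩
    intro z hz
    rw [htop, tor_top hc hcm] at hz
    exact Or.inl ⟨hz, hmem z hz⟩
  obtain ⟨u, hu1, hu2, hu3⟩ := hGEN A B hc b m L om hL.toIsLI hm
  have hcj : IsCj σ L L' := (hCJN A B hc).2.1 σ L L' hL.nrm hL'.nrm hk
  obtain ⟨Φ, hΦ⟩ := hPHI σ L L' hcj
  obtain ⟨p1, p2, p3, -⟩ := hPHM A B hc σ hσ b L L' om hL.toIsLI hcj Φ hΦ
  -- every point of level `m` of `L'` is a multiple of `mu₀ u`
  have claim : ∀ z', Tor m L' z' → ∃ x : OO A B, z' - emb x * (mu₀ * u) ∈ L'.lattice := by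
    intro z' hz'
    obtain ⟨α, hα, β, hβ, hαβ⟩ := Ideal.isCoprime_iff_exists.1 hcop
    have hmu := hq.1
    have h1 : Tor m L (emb α * (z' / mu₀)) := by
      intro t ht
      have h2 : mu₀ * (emb t * (z' / mu₀)) ∈ L'.lattice := by
        have e : mu₀ * (emb t * (z' / mu₀)) = emb t * z' := by field_simp
        rw [e]
        exact hz' t ht
      have h3 := (hq.2 _).1 h2 α hα
      have e : emb t * (emb α * (z' / mu₀)) = emb α * (emb t * (z' / mu₀)) := by ring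
      rw [e]
      exact h3
    obtain ⟨x, hx⟩ := hu3 _ h1
    refine ⟨x, ?_⟩
    have h2 := add_mem (hmem _ hx) (hz' β hβ)
    have h3 : emb α + emb β = 1 := by rw [← _root_.Pool.Agent.MUX.emb_add hc, hαβ, _root_.Pool.Agent.MUX.emb_one hc]
    have e : mu₀ * (emb α * (z' / mu₀) - emb x * u) + emb β * z' =
        z' - emb x * (mu₀ * u) := by
      have e1 : mu₀ * (emb α * (z' / mu₀) - emb x * u) = emb α * z' - emb x * (mu₀ * u) := by
        field_simp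
      rw [e1]
      linear_combination z' * h3
    rwa [e] at h2
  obtain ⟨c, hcu⟩ := claim (Φ u) ((p2 m u).2 hu1)
  -- `c` is prime to `m`
  have hinj : ∀ x : OO A B, x * c ∈ m → x ∈ m := by
    intro x hx
    have h1 := (hu2 _).2 hx
    have h2 := hmem _ h1
    have h3 := hcm' x _ hcu
    have h4 := p1 x u
    have h5 : Φ (emb x * u) ∈ L'.lattice := by
      have h6 := add_mem (add_mem h4 h3) h2
      have e : Φ (emb x * u) - emb x * Φ u + emb x * (Φ u - emb c * (mu₀ * u)) +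
          mu₀ * (emb (x * c) * u) = Φ (emb x * u) := by
        rw [_root_.Pool.Agent.MUX.emb_mul hc]
        ring
      rwa [e] at h6
    exact (hu2 x).1 ((hΦ.mem _).1 h5)
  have hcc : IsCoprime (sp c) m := EXA.coprime_of_inj hc hm c hinj
  have hc0 : c ≠ 0 := by
    rintro rfl
    apply htop
    rw [Ideal.eq_top_iff_one]
    apply hinj
    rw [mul_zero]
    exact m.zero_mem
  have hec : emb c ≠ 0 := _root_.Pool.Agent.MUX.emb_ne_zero hc hc0
  refine ⟨sp c * a₀, emb c * mu₀, hk, IsCoprime.mul_left hcc hcop,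
    ⟨mul_ne_zero hec hq.1, ?_⟩, ?_⟩
  · intro z
    have e1 : emb c * mu₀ * z = mu₀ * (emb c * z) := by ring
    rw [e1, hq.2]
    constructor
    · intro h x hx
      obtain ⟨s, hs, rfl⟩ := Ideal.mem_span_singleton_mul.1 hx
      have h1 := h s hs
      have e : emb (c * s) * z = emb s * (emb c * z) := by
        rw [_root_.Pool.Agent.MUX.emb_mul hc]
        ring
      rw [e]
      exact h1
    · intro h s hs
      have h1 := h (c * s) (Ideal.mem_span_singleton_mul.2 ⟨s, hs, rfl⟩)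
      have e : emb (c * s) * z = emb s * (emb c * z) := by
        rw [_root_.Pool.Agent.MUX.emb_mul hc]
        ring
      rwa [e] at h1
  · intro z hz
    rw [hPMF σ L L' Φ hΦ]
    obtain ⟨x, hx⟩ := hu3 z hz
    have h1 := (p3 z (emb x * u)).2 hx
    have h2 := p1 x u
    have h3 := hcm' x _ hcu
    have h4 := hmem _ (hcm c _ hx)
    have h5 := sub_mem (add_mem (add_mem h1 h2) h3) h4
    have e : Φ z - Φ (emb x * u) + (Φ (emb x * u) - emb x * Φ u) +
        emb x * (Φ u - emb c * (mu₀ * u)) - mu₀ * (emb c * (z - emb x * u)) =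
        Φ z - emb c * mu₀ * z := by ring
    rwa [e] at h5

end

end Pool.Agent.MUXC


end

section

/-!
# MUX, block XC, module DNX: a subgroup which contains the Frobenius automorphisms of almost all
primes of degree one
-/

set_option autoImplicit false

open Polynomial NumberField IsDedekindDomain

namespace Pool.Agent.MUXC

open _root_.MU3 _root_.Pool.Agent.MU3A _root_.Pool.Agent.MU3B _root_.Pool.Agent.MUX _root_.Pool.Agent.MUXU _root_.Pool.Agent.RI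
open _root_.Pool.Agent.MUXE (NL Sxe_RNG)

noncomputable section

theorem tc_DNX (h0 : Sxe_RNG) (hD : Pool.Agent.MU3.Stmt_DENSF) : Sc_DNX := by
  intro A B hAB F _ _ H n hn hyp
  obtain ⟨⟨φ, hφ⟩, hinj, -, -, hint⟩ := h0 A B hAB
  have hw0 : IsIntegral ℤ (wC A B) := by
    rw [hint _ (wC_mem A B)]
    exact ⟨⟨0, 1⟩, by simp [emb]⟩
  have hfd : FiniteDimensional ℚ (kk A B) :=
    IntermediateField.adjoin.finiteDimensional hw0.tower_top
  have hk : NumberField (kk A B) := ⟨⟩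
  have hFQ : FiniteDimensional ℚ F := FiniteDimensional.trans ℚ (kk A B) F
  have hF : NumberField F := ⟨⟩
  have hIn : ∀ x : OO A B, IsIntegral ℤ (ek x) := by
    intro x
    have h2 : IsIntegral ℤ (emb x) := (hint (emb x) (MU3A.emb_mem x)).mpr ⟨x, rfl⟩
    have h3 : algebraMap (kk A B) ℂ (ek x) = emb x := rfl
    rw [← h3] at h2
    exact (isIntegral_algebraMap_iff (FaithfulSMul.algebraMap_injective (kk A B) ℂ)).mp h2
  let e0 : OO A B →+* 𝓞 (kk A B) :=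
    { toFun := fun x => ⟨ek x, hIn x⟩
      map_one' := by
        apply RingOfIntegers.ext
        apply Subtype.ext
        change emb 1 = 1
        rw [← hφ, map_one]
      map_mul' := by
        intro a b
        apply RingOfIntegers.ext
        apply Subtype.ext
        change emb (a * b) = emb a * emb b
        rw [← hφ, ← hφ, ← hφ, map_mul]
      map_zero' := by
        apply RingOfIntegers.ext
        apply Subtype.ext
        change emb 0 = 0
        rw [← hφ, map_zero]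
      map_add' := by
        intro a b
        apply RingOfIntegers.ext
        apply Subtype.ext
        change emb (a + b) = emb a + emb b
        rw [← hφ, ← hφ, ← hφ, map_add] }
  have he0v : ∀ x : OO A B, (((e0 x : kk A B)) : ℂ) = emb x := fun x => rfl
  have hsurj : Function.Surjective e0 := by
    intro y
    have h2 : IsIntegral ℤ ((y : kk A B) : ℂ) :=
      (RingOfIntegers.isIntegral_coe y).map (Algebra.ofId (kk A B) ℂ |>.restrictScalars ℤ)
    obtain ⟨x, hx⟩ := (hint _ (y : kk A B).2).mp h2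
    refine ⟨x, ?_⟩
    apply RingOfIntegers.ext
    apply Subtype.ext
    rw [he0v, hx]
  refine hD (kk A B) F H {v : HeightOneSpectrum (𝓞 (kk A B)) | ((n : ℕ) : 𝓞 (kk A B)) ∈ v.asIdeal}
    ?_ ?_
  · have k0 : (Ideal.span {((n : ℕ) : 𝓞 (kk A B))} : Ideal (𝓞 (kk A B))) ≠ 0 := by
      rw [Ne, Ideal.zero_eq_bot, Ideal.span_singleton_eq_bot]
      exact_mod_cast hn
    refine (Ideal.finite_factors k0).subset ?_
    intro v hv
    show v.asIdeal ∣ _
    rw [Ideal.dvd_span_singleton]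
    exact hv
  · intro v hv hq w hw hwv σ hσ
    set q := Ideal.absNorm v.asIdeal with hqdef
    have hqmem : ((q : ℕ) : 𝓞 (kk A B)) ∈ v.asIdeal := Ideal.absNorm_mem v.asIdeal
    have hQp : (v.asIdeal.comap e0).IsPrime := Ideal.comap_isPrime e0 v.asIdeal
    have hcard : nI (v.asIdeal.comap e0) = q := by
      rw [hqdef, Ideal.absNorm_apply, Submodule.cardQuot_apply]
      unfold nI
      refine Nat.card_congr ?_
      refine Equiv.ofBijective (Ideal.quotientMap v.asIdeal e0 le_rfl) ⟨?_, ?_⟩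
      · exact Ideal.quotientMap_injective
      · exact Ideal.quotientMap_surjective hsurj
    have hwb : w ≠ ⊥ := by
      intro hb
      apply v.ne_bot
      rw [← hwv, hb]
      exact Ideal.comap_bot_of_injective _ (FaithfulSMul.algebraMap_injective (𝓞 (kk A B)) (𝓞 F))
    let w' : HeightOneSpectrum (𝓞 F) := ⟨w, hw, hwb⟩
    obtain ⟨V, hV⟩ := Pool.Agent.MU3V.tv_EXT F (algebraMap F ℂ) w'
    refine hyp (v.asIdeal.comap e0) q hq hQp hcard ?_ V ?_ σ ?_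
    · intro hdvd
      apply hv
      obtain ⟨t, ht⟩ := hdvd
      show ((n : ℕ) : 𝓞 (kk A B)) ∈ v.asIdeal
      rw [ht]
      push_cast
      exact Ideal.mul_mem_right _ _ hqmem
    · intro x
      rw [ValuationSubring.mem_nonunits_iff, Ideal.mem_comap, ← hwv, Ideal.mem_comap]
      have h2 := (hV (algebraMap (𝓞 F) F (algebraMap (𝓞 (kk A B)) (𝓞 F) (e0 x)))).2.1
      rw [HeightOneSpectrum.valuation_lt_one_iff_mem] at h2
      exact h2
    · refine Pool.Agent.MU3V.tw_LOC A B F w' V (fun x => ⟨(hV x).1, (hV x).2.1⟩) σ q hq.pos ?_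
      intro x
      have hx : IsIntegral ℤ (σ (x : F)) := by
        have h3 := x.isIntegral_coe
        exact h3.map (σ.toAlgHom.toRingHom.toIntAlgHom)
      refine ⟨⟨σ (x : F), hx⟩ - x ^ q, hσ x ⟨σ (x : F), hx⟩ rfl, ?_⟩
      push_cast
      rfl

end

end Pool.Agent.MUXC


end

section

/-!
# MUX, block XC: COP, every class contains an integral ideal prime to `m` (helper95)
-/

set_option autoImplicit false

open Polynomial NumberField IsDedekindDomain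

namespace Pool.Agent.MUXC

open _root_.MU3 _root_.Pool.Agent.MU3A _root_.Pool.Agent.MU3B _root_.Pool.Agent.MUX _root_.Pool.Agent.MUXU _root_.Pool.Agent.RI
open _root_.Pool.Agent.MUXE (NL Sxe_RNG)

noncomputable section

theorem tc_COP (h1 : Sxe_RNG) : Sc_COP := by
  intro A B hq c m hc hm
  have hD : IsDedekindDomain (OO A B) := (h1 A B hq).ded
  have hcj := cjI_ne_bot hq hc
  have hN : ((nI c : ℕ) : OO A B) ≠ 0 := natCast_ne_zero' hq (nI_ne_zero hq hc)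
  obtain ⟨y, hy⟩ := IsDedekindDomain.exists_sup_span_eq (I := m * cjI c) (J := cjI c)
    Ideal.mul_le_right (mul_ne_bot hq hm hcj)
  by_cases hy0 : y = 0
  · have hm1 : m = ⊤ := by
      rw [hy0, Ideal.span_singleton_zero, sup_bot_eq] at hy
      apply mul_cancel hq hcj
      rw [Ideal.mul_top, mul_comm]
      exact hy
    refine ⟨c, 1, 1, hc, ?_, one_ne_zero, one_ne_zero, rfl⟩
    rw [hm1, Ideal.isCoprime_iff_sup_eq, sup_top_eq]
  · have hle : Ideal.span {y} ≤ cjI c := by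
      calc Ideal.span {y} ≤ m * cjI c ⊔ Ideal.span {y} := le_sup_right
        _ = cjI c := hy
    obtain ⟨a, ha⟩ := Ideal.dvd_iff_le.2 hle
    have ha0 : a ≠ ⊥ := by
      rintro rfl
      rw [Ideal.mul_bot, Ideal.span_singleton_eq_bot] at ha
      exact hy0 ha
    refine ⟨a, y, ((nI c : ℕ) : OO A B), ha0, ?_, hy0, hN, ?_⟩
    · rw [Ideal.isCoprime_iff_sup_eq]
      apply mul_cancel hq hcj
      rw [Ideal.mul_sup, Ideal.mul_top, ← ha, sup_comm, mul_comm (cjI c) m]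
      exact hy
    · show Ideal.span {y} * c = sp ((nI c : ℕ) : OO A B) * a
      rw [ha, ← mul_cjI hq hc, mul_comm (cjI c * a) c, mul_assoc]

end

end Pool.Agent.MUXC


end

section

/-!
# MUX, block XC, module CMP (helper91): the field `comp` of `TorX`
-/

set_option autoImplicit false

namespace Pool.Agent.MUXC

open _root_.MU3 _root_.Pool.Agent.MU3A _root_.Pool.Agent.MU3B _root_.Pool.Agent.MUX _root_.Pool.Agent.MUXU _root_.Pool.Agent.RI

noncomputable section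

namespace CMP

/-- composition of `PM` -/
theorem pm_trans (σ τ : ℂ ≃+* ℂ) (L L' L'' : PeriodPair) (z z' z'' : ℂ) (h1 : PM σ L L' z z')
    (h2 : PM τ L' L'' z' z'') : PM (σ.trans τ) L L'' z z'' := by
  rcases h1 with ⟨a1, a2⟩ | ⟨a1, a2, a3, a4⟩
  · rcases h2 with ⟨_, b2⟩ | ⟨b1, _⟩
    · exact Or.inl ⟨a1, b2⟩
    · exact absurd a2 b1
  · rcases h2 with ⟨b1, _⟩ | ⟨_, b2, b3, b4⟩
    · exact absurd b1 a2
    · refine Or.inr ⟨a1, b2, ?_, ?_⟩
      · show τ (σ (xn L z)) = _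
        rw [a3, b3]
      · show τ (σ (yy L z)) = _
        rw [a4, b4]

end CMP

open _root_.Pool.Agent.MUXC.CMP in
theorem tc_CMP : Sc_CMP := by
  intro A B hC m a b σ τ L L' L'' mu nu h1 h2
  have key : ∀ (y : OO A B) (z : ℂ), emb y * (mu * z) ∈ L'.lattice ↔
      ∀ x ∈ a, emb (x * y) * z ∈ L.lattice := by
    intro y z
    have e : emb y * (mu * z) = mu * (emb y * z) := by ring
    rw [e, h1.isq.2]
    refine forall₂_congr fun x _ => ?_
    rw [_root_.Pool.Agent.MUX.emb_mul hC, mul_assoc]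
  refine ⟨?_, ?_, ⟨mul_ne_zero h2.isq.1 h1.isq.1, fun z => ?_⟩, fun z hz => ?_⟩
  · show kap L'' = τ (σ (kap L))
    rw [h2.kap, h1.kap]
  · exact IsCoprime.mul_left h1.cop h2.cop
  · rw [mul_assoc, h2.isq.2]
    constructor
    · intro h t ht
      refine Submodule.mul_induction_on ht (fun x hx y hy => ?_) (fun x y hx hy => ?_)
      · exact (key y z).1 (h y hy) x hx
      · rw [MUX.emb_add hC, add_mul]
        exact add_mem hx hy
    · intro h y hy
      exact (key y z).2 fun x hx => h _ (Ideal.mul_mem_mul hx hy)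
  · rw [mul_assoc]
    refine pm_trans σ τ L L' L'' z (mu * z) _ (h1.act z hz) (h2.act _ ?_)
    intro y hy
    exact (key y z).2 fun x _ => hz _ (m.mul_mem_left x hy)

end

end Pool.Agent.MUXC


end

section

/-!
# MUX, block XC, module CHG (helper28): change of the ideal in its class
-/

set_option autoImplicit false

open Polynomial NumberField IsDedekindDomain

namespace Pool.Agent.MUXC

open _root_.MU3 _root_.Pool.Agent.MU3A _root_.Pool.Agent.MU3B _root_.Pool.Agent.MUX _root_.Pool.Agent.MUXU _root_.Pool.Agent.RI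
open _root_.Pool.Agent.MUXE (NL Sxe_RNG)

noncomputable section

namespace CHG

/-- translation by a lattice vector does not change `PM` -/
lemma pm_add {σ : ℂ ≃+* ℂ} {L L' : PeriodPair} {z z' v : ℂ} (h : PM σ L L' z z')
    (hv : v ∈ L'.lattice) : PM σ L L' z (z' + v) := by
  have e1 : xn L' (z' + v) = xn L' z' := by
    unfold xn
    have := L'.weierstrassP_add_coe z' ⟨v, hv⟩
    simp only at this
    rw [this]
  have e2 : yy L' (z' + v) = yy L' z' := by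
    unfold yy
    have := L'.derivWeierstrassP_add_coe z' ⟨v, hv⟩
    simp only at this
    rw [this]
  rcases h with ⟨h1, h2⟩ | ⟨h1, h2, h3, h4⟩
  · exact Or.inl ⟨h1, add_mem h2 hv⟩
  · refine Or.inr ⟨h1, fun h5 => h2 ?_, by rw [e1, h3], by rw [e2, h4]⟩
    have := sub_mem h5 hv
    rwa [add_sub_cancel_right] at this

end CHG

/-- (CHG) the field `chg` of `TorX`. -/
theorem tc_CHG : Sc_CHG := by
  rintro A B hc m a a' σ L L' mu x y - ha' hx hx0 hy0 hxy hxa ⟨b, om, hL⟩ hact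
  have hcm : HasCM A B L := hL.toIsLI.hasCM hc
  have ex0 := _root_.Pool.Agent.MUX.emb_ne_zero hc hx0
  have ey0 := _root_.Pool.Agent.MUX.emb_ne_zero hc hy0
  have hmu := hact.isq.1
  have f1 : ∀ α ∈ a, ∃ α' ∈ a', x * α = y * α' := by
    intro α hα
    have h1 : x * α ∈ sp y * a' := by
      rw [← hxa]
      exact Ideal.mul_mem_mul (Ideal.mem_span_singleton_self x) hα
    obtain ⟨t, ht, h⟩ := Ideal.mem_span_singleton_mul.1 h1
    exact ⟨t, ht, h.symm⟩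
  have f2 : ∀ α' ∈ a', ∃ α ∈ a, x * α = y * α' := by
    intro α' hα'
    have h1 : y * α' ∈ sp x * a := by
      rw [hxa]
      exact Ideal.mul_mem_mul (Ideal.mem_span_singleton_self y) hα'
    obtain ⟨t, ht, h⟩ := Ideal.mem_span_singleton_mul.1 h1
    exact ⟨t, ht, h⟩
  have key : ∀ α α' : OO A B, x * α = y * α' → ∀ z : ℂ,
      emb α * (emb x / emb y * z) = emb α' * z := by
    intro α α' h1 z
    have h3 : emb x * emb α = emb y * emb α' := by rw [← _root_.Pool.Agent.MUX.emb_mul hc, ← _root_.Pool.Agent.MUX.emb_mul hc, h1]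
    field_simp
    linear_combination z * h3
  have hq : IsQ a' L L' (mu * emb x / emb y) := by
    refine ⟨div_ne_zero (mul_ne_zero hmu ex0) ey0, fun z => ?_⟩
    have e : mu * emb x / emb y * z = mu * (emb x / emb y * z) := by ring
    rw [e, hact.isq.2]
    constructor
    · intro h α' hα'
      obtain ⟨α, hα, h1⟩ := f2 α' hα'
      have h2 := h α hα
      rwa [key α α' h1 z] at h2
    · intro h α hα
      obtain ⟨α', hα', h1⟩ := f1 α hα
      rw [key α α' h1 z]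
      exact h α' hα'
  have hcop : IsCoprime (sp y) m := by
    obtain ⟨i, hi, j, hj, hij⟩ := Ideal.isCoprime_iff_exists.1 hx
    obtain ⟨c, rfl⟩ := Ideal.mem_span_singleton'.1 hi
    refine Ideal.isCoprime_iff_exists.2 ⟨c * y, Ideal.mem_span_singleton'.2 ⟨c, rfl⟩,
      j + c * (x - y), add_mem hj (m.mul_mem_left c hxy), ?_⟩
    linear_combination hij
  refine ⟨hact.kap, ha', hq, fun z hz => ?_⟩
  have ht : mu * (emb x / emb y * z - z) ∈ L'.lattice := by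
    rw [hact.isq.2]
    intro α hα
    obtain ⟨α', hα', h1⟩ := f1 α hα
    refine tor_coprime hc hcop (L := L) ?_ ?_
    · rw [tor_span hc hcm]
      have e : emb y * (emb α * (emb x / emb y * z - z)) = emb α * (emb (x - y) * z) := by
        rw [_root_.Pool.Agent.MUX.emb_sub hc]
        field_simp
      rw [e]
      exact hcm α _ (hz _ hxy)
    · have e : emb α * (emb x / emb y * z - z) = emb α' * z + -(emb α * z) := by
        rw [mul_sub, key α α' h1 z]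
        ring
      rw [e]
      exact (Tor.mul_emb hc hz α').add (Tor.mul_emb hc hz α).neg
  have e : mu * emb x / emb y * z = mu * z + mu * (emb x / emb y * z - z) := by ring
  rw [e]
  exact CHG.pm_add (hact.act z hz) ht

end

end Pool.Agent.MUXC


end

section

/-!
# MUX, block R: the identity of polynomials behind an isogeny (POL)
-/

set_option autoImplicit false

open Polynomial

namespace Pool.Agent.MUXV

open _root_.Pool.Agent.MU3B _root_.Pool.Agent.MUXU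

namespace POL

theorem wp_congr (L : PeriodPair) {z u : ℂ} (h : z - u ∈ L.lattice) :
    L.weierstrassP z = L.weierstrassP u := by
  have h1 := L.weierstrassP_add_coe u ⟨z - u, h⟩
  rw [← h1]
  congr 1
  simp

theorem wp_congr' (L : PeriodPair) {z u : ℂ} (h : z + u ∈ L.lattice) :
    L.weierstrassP z = L.weierstrassP u := by
  have h1 := wp_congr L (z := z) (u := -u) (by rwa [sub_neg_eq_add])
  rw [h1, L.weierstrassP_neg]

theorem ev_Q (L : PeriodPair) (c mu z : ℂ) (H : Finset ℂ) :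
    (QI L c mu H).eval (L.weierstrassP z - c) =
      mu * ∏ q ∈ H, (L.weierstrassP z - L.weierstrassP q) := by
  unfold QI
  rw [eval_mul, eval_C, eval_prod]
  congr 1
  refine Finset.prod_congr rfl fun q _ => ?_
  rw [eval_sub, eval_X, eval_C]
  ring

theorem ev_C (L : PeriodPair) (c w z : ℂ) (H : Finset ℂ) :
    (CI L c w H).eval (L.weierstrassP z - c) =
      ∏ q ∈ H, (L.weierstrassP z - L.weierstrassP (w + q)) := by
  unfold CI
  rw [eval_prod]
  refine Finset.prod_congr rfl fun q _ => ?_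
  rw [eval_sub, eval_X, eval_C]
  ring

theorem key (h1 : Su_PFI) (h2 : Sx_HRE) (L M : PeriodPair) (c mu : ℂ) (H : Finset ℂ)
    (hl : mu ≠ 0) (hL : Isg L M mu) (hH : HalfI L M mu H) (w : ℂ)
    (hw2 : 2 * w ∈ L.lattice) (hw : w ∉ L.lattice) (z : ℂ) (hz : mu * z ∉ M.lattice) :
    (M.weierstrassP (mu * z) - M.weierstrassP (mu * w)) *
        (QI L c mu H).eval (L.weierstrassP z - c) ^ 2 =
      (L.weierstrassP z - L.weierstrassP w) * (CI L c w H).eval (L.weierstrassP z - c) ^ 2 := by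
  obtain ⟨hR, hd⟩ := h2 L M mu H hH
  have hlw : mu * w ∉ M.lattice := by
    intro h3
    obtain ⟨q, hq, h4 | h4⟩ := hH.surj w h3 hw
    · apply hH.ne q hq
      have h5 : 2 * q = 2 * w - (w - q) - (w - q) := by ring
      rw [h5]
      exact sub_mem (sub_mem hw2 h4) h4
    · apply hH.ne q hq
      have h5 : 2 * q = (w + q) + (w + q) - 2 * w := by ring
      rw [h5]
      exact sub_mem (add_mem h4 h4) hw2
  have h3 := h1 L M mu _ hl hL hR w hlw z hz
  rw [Finset.prod_union hd, Finset.prod_union hd,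
    Finset.prod_image (fun a _ b _ hab => neg_injective hab),
    Finset.prod_image (fun a _ b _ hab => neg_injective hab)] at h3
  have h4 : ∏ x ∈ H, (L.weierstrassP z - L.weierstrassP (-x)) =
      ∏ x ∈ H, (L.weierstrassP z - L.weierstrassP x) := by
    refine Finset.prod_congr rfl fun q _ => ?_
    rw [L.weierstrassP_neg]
  have h5 : ∏ x ∈ H, (L.weierstrassP z - L.weierstrassP (w + -x)) =
      ∏ x ∈ H, (L.weierstrassP z - L.weierstrassP (w + x)) := by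
    refine Finset.prod_congr rfl fun q _ => ?_
    have h6 : L.weierstrassP (w + -q) = L.weierstrassP (w + q) := by
      apply wp_congr'
      have h7 : w + -q + (w + q) = 2 * w := by ring
      rwa [h7]
    rw [h6]
  rw [h4, h5] at h3
  rw [ev_Q, ev_C]
  linear_combination h3

end POL

open _root_.Pool.Agent.MUXV.POL

theorem tx_POL (h1 : Su_PFI) (h2 : Sx_HRE) : Sx_POL := by
  have h3 : St_SUR := b_SUR
  intro L M c mu H hl hL hH
  refine ⟨?_, fun w hw2 hw z hz => key h1 h2 L M c mu H hl hL hH w hw2 hw z hz⟩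
  intro w₁ w₂ hw1 hw1' hw2 hw2'
  refine Polynomial.eq_of_infinite_eval_eq _ _ ?_
  have hfin : ((↑(H.image (fun q => L.weierstrassP q - c)) : Set ℂ)ᶜ).Infinite :=
    (Finset.finite_toSet _).infinite_compl
  refine hfin.mono ?_
  intro x hx
  obtain ⟨z, hz, hzx⟩ := h3 L (x + c)
  have hx' : L.weierstrassP z - c = x := by
    rw [hzx]
    ring
  have hlz : mu * z ∉ M.lattice := by
    intro h4
    apply hx
    obtain ⟨q, hq, h5⟩ := hH.surj z h4 hz
    rw [Finset.mem_coe, Finset.mem_image]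
    refine ⟨q, hq, ?_⟩
    rw [← hx']
    rcases h5 with h5 | h5
    · rw [wp_congr L h5]
    · rw [wp_congr' L h5]
  have e1 := key h1 h2 L M c mu H hl hL hH w₁ hw1 hw1' z hlz
  have e2 := key h1 h2 L M c mu H hl hL hH w₂ hw2 hw2' z hlz
  rw [hx'] at e1 e2
  show Polynomial.eval x _ = Polynomial.eval x _
  simp only [eval_mul, eval_sub, eval_pow, eval_C, eval_X]
  have hzx' : L.weierstrassP z = x + c := hzx
  rw [hzx'] at e1 e2
  linear_combination e1 - e2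

end Pool.Agent.MUXV


end

section

/-!
# MUX, section 9, module MUU: the multiplier is unique up to sign
-/

set_option autoImplicit false

namespace Pool.Agent.MUXY

open _root_.MU3 _root_.Pool.Agent.MU3A _root_.Pool.Agent.MU3B _root_.Pool.Agent.MUXU OnePoint
open _root_.Pool.Agent.MU3F (ex)
open _root_.Pool.Agent.MUXF (Sx_ALG Sx_IDL Sx_NIM Sx_QB Sx_SMB Sx_F4 qb sumB)

noncomputable section

namespace Muu

/-- a scaling of a lattice with `g₂ = -18 g₃` onto itself is `± 1` -/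
lemma scale (L : PeriodPair) (hL : L.g₂ = -18 * L.g₃) (s : ℂ) (hs : s ≠ 0)
    (h : ∀ z : ℂ, z ∈ L.lattice ↔ s * z ∈ L.lattice) : s = 1 ∨ s = -1 := by
  obtain ⟨-, -, h2, h3⟩ := Pool.Agent.MU3A.ta_SCP L L s hs h
  have hd := (Pool.Agent.MU3B.b_DSC L).1
  have h30 : L.g₃ ≠ 0 := by
    intro h0
    apply hd
    rw [hL, h0]
    ring
  have h20 : L.g₂ ≠ 0 := by
    rw [hL]
    exact mul_ne_zero (by norm_num) h30
  have e4 : s ^ 4 = 1 := by
    rw [eq_div_iff (pow_ne_zero 4 hs)] at h2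
    exact mul_left_cancel₀ h20 (h2.trans (mul_one _).symm)
  have e6 : s ^ 6 = 1 := by
    rw [eq_div_iff (pow_ne_zero 6 hs)] at h3
    exact mul_left_cancel₀ h30 (h3.trans (mul_one _).symm)
  have e2 : s ^ 2 = 1 := by
    have h4 : s ^ 6 = s ^ 4 * s ^ 2 := by ring
    rw [e6, e4, one_mul] at h4
    exact h4.symm
  have e5 : (s - 1) * (s + 1) = 0 := by linear_combination e2
  rcases mul_eq_zero.1 e5 with e | e
  · exact Or.inl (sub_eq_zero.1 e)
  · exact Or.inr (eq_neg_of_add_eq_zero_left e)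

end Muu

/-- MUU. -/
theorem ty_MUU : Sy_MUU := by
  intro A B a L L' mu mu' hL h h'
  obtain ⟨h0, h1⟩ := h
  obtain ⟨h0', h1'⟩ := h'
  have hs : mu' / mu ≠ 0 := div_ne_zero h0' h0
  have key : ∀ z : ℂ, z ∈ L'.lattice ↔ mu' / mu * z ∈ L'.lattice := by
    intro z
    have e1 : mu * (z / mu) = z := mul_div_cancel₀ z h0
    have e2 : mu' * (z / mu) = mu' / mu * z := by ring
    rw [← e2, h1', ← h1, e1]
  rcases Muu.scale L' hL _ hs key with e | e
  · left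
    rw [div_eq_iff h0, one_mul] at e
    exact e
  · right
    rw [div_eq_iff h0] at e
    rw [e]
    ring

end

end Pool.Agent.MUXY


end

section

/-!
# MUX, block W: the elements `c`, the norm relation, the inputs of block K (helper59)

`k = kk A B`, any imaginary quadratic field (`CQ A B`), `TorX A B` = the main theorem of complex multiplication (contract with block XC). `L`, `Om`:
`IsNL ⊤ L Om`, the normalised lattice `L = Om O` (`L = R.L R.i0`). `m : OO A B`, `F_m = RF (sp m)` the ray class field, `H = RF ⊤` the Hilbert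
class field. `D` a field, `k ≤ D ≤ F_m` (`Sub D (RF (sp m))`), Galois group `D ≃ₐ[kk A B] D` for `algC h`. `Ext1 h τ σ`: `σ ∈ Gal(F_m/k)` extends `τ ∈ Gal(D/k)`.
`GD h F` = the automorphisms of `F/k` trivial on `D`. `θ ∈ F_m` with `θ = Θ_a(Om/m)`: `cW h θ = N_(F_m/D)(θ)`, `cWt h θ τ = τ(cW h θ)`.
Every `def Sy_X : Prop` is the statement of a module, which proves `theorem ty_X (h : ..) .. : Sy_X` in `Pool/Agent/MUX/W_X.lean`, namespace
`Pool.Agent.MUXW`. `cls m x` (MU3, `StV2.lean`) is the class of `x` in `O/m`.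
-/

set_option autoImplicit false

open WeierstrassCurve Polynomial NumberField IsDedekindDomain

namespace Pool.Agent.MUXW

open _root_.MU3 _root_.Pool.Agent.MU3A _root_.Pool.Agent.MU3B _root_.Pool.Agent.MU3C _root_.Pool.Agent.RI _root_.Pool.Agent.RID
open _root_.Pool.Agent.MUX _root_.Pool.Agent.ME _root_.Pool.Agent.MUXU
open _root_.Pool.Agent.MU3V (cls Sub GD)
open _root_.Pool.Agent.MUXV (GR InK tX CMO Ovr)

noncomputable section

/-! ### Definitions -/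

/-- `σ` is trivial on `H` and acts on the points of level `m` of all normalised lattices as multiplication by `a` -/
structure ActH_E {A B : ℤ} {F : IntermediateField (kk A B) ℂ} (σ : F ≃ₐ[kk A B] F)
    (m a : OO A B) : Prop where
  cop : IsCoprime a m
  kapE : ∀ (b : Ideal (OO A B)) (L : PeriodPair) (om : ℂ), IsNE b L om → ∀ h : kapE L ∈ F,
    ((σ ⟨kapE L, h⟩ : F) : ℂ) = kapE L
  ptE : ∀ (b : Ideal (OO A B)) (L : PeriodPair) (om : ℂ), IsNE b L om → ∀ z : ℂ,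
    emb m * z ∈ L.lattice → z ∉ L.lattice → emb a * z ∉ L.lattice ∧
      ∀ h : xnE L z ∈ F, ((σ ⟨xnE L z, h⟩ : F) : ℂ) = xnE L (emb a * z)

/-- `σ` is trivial on `H` -/
def TrH_E {A B : ℤ} {F : IntermediateField (kk A B) ℂ} (σ : F ≃ₐ[kk A B] F) : Prop :=
  ∀ x : F, (x : ℂ) ∈ (RFE (⊤ : Ideal (OO A B)) : IntermediateField (kk A B) ℂ) → σ x = x

/-- `D` contains `H` -/
def HasH_E (A B : ℤ) (D : IntermediateField ℚ ℂ) : Prop :=
  ∀ x : ℂ, x ∈ (RFE (⊤ : Ideal (OO A B)) : IntermediateField (kk A B) ℂ) → x ∈ D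

/-! ### From `TorX` to `ActH` -/

/-- (ACM) elementary properties of `ActH_E`.

Uses Sq_EMB, St_NEQ. PROOF. As `W_XXM.lean`, `A_ACT.lean` of MU3 (for `xx` only). (1) `z = Om/m`: `xnE L (a z) = σ(xnE L z) = xnE L (a' z)`, both arguments not in `L`, so (`b_NEQ`) `(a ∓ a') z ∈ L`, `m ∣ a ∓ a'`
(`emb x * (Om/emb m) ∈ L` iff `m ∣ x`); if `m` is a unit: trivial. (2) `xnE` is even and periodic, `emb a' * z ≡ ± emb a * z`. (3) `E[m'] ⊆ E[m]`. (4) `(σ τ)(xnE L z) = σ(xnE L (b z)) = xnE L (a b z)`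
(`b z ∈ E[m]`, `xnE L (b z) ∈ RFE (sp m) ≤ F`). (5) `RFE (sp m)` is generated over `k` by the `kapE L`, `xnE L z`. (7) `RFE ⊤` is generated by the `kapE L` (a point of level `⊤` is in `L`), and `RFE ⊤ ≤ RFE (sp m) ≤ F`.
(8) from the definitions (`RFE (sp m') ≤ RFE (sp m)`). -/
def Sy_ACM_E : Prop :=
  ∀ A B : ℤ, CQ A B → ∀ (L : PeriodPair) (Om : ℂ), IsNE (⊤ : Ideal (OO A B)) L Om →
    ∀ m : OO A B, m ≠ 0 →
    (∀ (F : IntermediateField (kk A B) ℂ) (σ : F ≃ₐ[kk A B] F) (a a' : OO A B), RFE (sp m) ≤ F →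
      ActH_E σ m a → ActH_E σ m a' → m ∣ a - a' ∨ m ∣ a + a') ∧
    (∀ (F : IntermediateField (kk A B) ℂ) (σ : F ≃ₐ[kk A B] F) (a a' : OO A B),
      m ∣ a - a' ∨ m ∣ a + a' → ActH_E σ m a → ActH_E σ m a') ∧
    (∀ (F : IntermediateField (kk A B) ℂ) (σ : F ≃ₐ[kk A B] F) (m' a : OO A B), m' ∣ m →
      ActH_E σ m a → ActH_E σ m' a) ∧
    (∀ (F : IntermediateField (kk A B) ℂ) (σ τ : F ≃ₐ[kk A B] F) (a b : OO A B),
      RFE (sp m) ≤ F → ActH_E σ m a → ActH_E τ m b → ActH_E (σ * τ) m (a * b)) ∧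
    (∀ (σ τ : (RFE (sp m) : IntermediateField (kk A B) ℂ) ≃ₐ[kk A B] RFE (sp m)) (a : OO A B),
      ActH_E σ m a → ActH_E τ m a → σ = τ) ∧
    (∀ F : IntermediateField (kk A B) ℂ, ActH_E (1 : F ≃ₐ[kk A B] F) m 1) ∧
    (∀ (F : IntermediateField (kk A B) ℂ) (σ : F ≃ₐ[kk A B] F) (a : OO A B), RFE (sp m) ≤ F →
      ActH_E σ m a → TrH_E σ) ∧
    ∀ (m' : OO A B) (σ : (RFE (sp m) : IntermediateField (kk A B) ℂ) ≃ₐ[kk A B] RFE (sp m))
      (σ' : (RFE (sp m') : IntermediateField (kk A B) ℂ) ≃ₐ[kk A B] RFE (sp m')) (a : OO A B),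
      m' ∣ m → (∀ (x : (RFE (sp m') : IntermediateField (kk A B) ℂ))
        (hx : (x : ℂ) ∈ (RFE (sp m) : IntermediateField (kk A B) ℂ)),
        ((σ ⟨x, hx⟩ : (RFE (sp m) : IntermediateField (kk A B) ℂ)) : ℂ) = (σ' x : ℂ)) →
      ActH_E σ m a → ActH_E σ' m' a

/-- (KER) the automorphisms of `F_m / H`.

Uses Su_DET, Sq_EMB. PROOF. `T : TorXE A B`. First part: extend `σ` to `s ∈ Aut(ℂ)`, `FixK` (`T.ext` for the field `D = RFE (sp m)` restricted to `ℚ`). `T.act (sp m) s`: an ideal `a`. `s` is trivial on `RFE ⊤`; `ActE s ⊤ a L L' mu` (from level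
`m`: `Tor ⊤ L z` means `z ∈ L`), so by `T.triv` for `⊤` `a = sp c`, `c` prime to `m`. For every normalised `L` there is `L'`, `mu` with `ActE s (sp m) (sp c) L L' mu`: `kapE L' = s (kapE L) = kapE L`, so `g₂`, `g₃ = -g₂/18` agree and `L'` has the
same lattice (DET). `mu z ∈ L` iff `c z ∈ L`: `u = mu/emb c` satisfies `u L = L`, so (homogeneity `Pool.Agent.MU3A.ta_SCP`) `g₂ = g₂/u⁴`, `g₃ = g₃/u⁶`, and `g₂ = -18 g₃ ≠ 0` (`b_DSC`): `u² = 1`, `mu = ± emb c`. So `σ(xnE L z) = xnE L (mu z) = xnE L (c z)`.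
Second part: `T.surj (sp m) (sp a)` gives `s`; `RFE (sp m)` is normal over `k` (`T.gal`): `s` maps it onto itself, the restriction is `σ`. For every normalised `L` there are `L'`, `mu`, `IsQ (sp a) L L' mu`: `L' = (mu/a) L` is normalised as `L` is, so `(mu/a)² = 1`
(`g₂' = g₂/u⁴`, `g₃' = g₃/u⁶`, both normalised: `u² = 1`), so `kapE L' = kapE L` and `mu = ± a`. -/
def Sy_KER_E : Prop :=
  ∀ A B : ℤ, CaseE A B → TorXE A B → ∀ m : OO A B, m ≠ 0 →
    (∀ σ : (RFE (sp m) : IntermediateField (kk A B) ℂ) ≃ₐ[kk A B] RFE (sp m), TrH_E σ →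
      ∃ a : OO A B, ActH_E σ m a) ∧
    ∀ a : OO A B, IsCoprime a m → (2 : OO A B) ∣ m → (2 : OO A B) ∣ a - 1 →
      ∃ σ : (RFE (sp m) : IntermediateField (kk A B) ℂ) ≃ₐ[kk A B] RFE (sp m), ActH_E σ m a

/-- (THG) the values of `Θ_a` at points of level `m` are in `F_m`; Galois action.

Uses THC, Su_AUE, Su_AUF, ACM. PROOF. `F = RFE (sp m)` as a field over `ℚ` is algebraic (`T.fin`, `kk A B` is finite over `ℚ`). (i) If `s ∈ Aut(ℂ)` is trivial on `F` then `s(kapE L) = kapE L`, so `s g₂ = g₂`, `s g₃ = g₃` (`g₂ = (1 + 1728 kapE)/12`, `g₃ = -g₂/18`), `IsCj s L L`,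
and `s(xnE L z) = xnE L z`: (THC) with `L' = L`, `z' = z` gives `s(Θ) = Θ`; (AUF): `Θ ∈ F`. (ii) `σ` extends to `s ∈ Aut(ℂ)` (AUE), `IsCj s L L'` from `s(kapE L) = kapE L'`, both normalised; (THC). (iii) is (ii) with `L' = L`, `z' = emb b * z`, `H' = H`. -/
def Sy_THG_E : Prop :=
  ∀ A B : ℤ, CQ A B → TorXE A B → ∀ (b₀ : Ideal (OO A B)) (L : PeriodPair) (om : ℂ), IsNE b₀ L om →
    ∀ m : OO A B, m ≠ 0 → ∀ (a : ℤ) (H : Finset ℂ), a ≠ 0 → IsHalf L a H →
    ∀ z : ℂ, emb m * z ∈ L.lattice → z ∉ L.lattice →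
    ∃ (hk : kapE L ∈ (RFE (sp m) : IntermediateField (kk A B) ℂ))
      (hx : xnE L z ∈ (RFE (sp m) : IntermediateField (kk A B) ℂ))
      (hz : ThetaH L H z ∈ (RFE (sp m) : IntermediateField (kk A B) ℂ)),
      (∀ (σ : (RFE (sp m) : IntermediateField (kk A B) ℂ) ≃ₐ[kk A B] RFE (sp m))
        (b' : Ideal (OO A B)) (L' : PeriodPair) (om' : ℂ) (H' : Finset ℂ) (z' : ℂ),
        IsNE b' L' om' → IsHalf L' a H' → z' ∉ L'.lattice →
        ((σ ⟨kapE L, hk⟩ : (RFE (sp m) : IntermediateField (kk A B) ℂ)) : ℂ) = kapE L' →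
        ((σ ⟨xnE L z, hx⟩ : (RFE (sp m) : IntermediateField (kk A B) ℂ)) : ℂ) = xnE L' z' →
        ((σ ⟨ThetaH L H z, hz⟩ : (RFE (sp m) : IntermediateField (kk A B) ℂ)) : ℂ) =
          ThetaH L' H' z') ∧
      ∀ (σ : (RFE (sp m) : IntermediateField (kk A B) ℂ) ≃ₐ[kk A B] RFE (sp m)) (b : OO A B),
        ActH_E σ m b →
        ((σ ⟨ThetaH L H z, hz⟩ : (RFE (sp m) : IntermediateField (kk A B) ℂ)) : ℂ) =
          ThetaH L H (emb b * z)

/-! ### Reduction -/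

/-- (GRB) good reduction outside finitely many primes.

Uses Sx_NGR, Sq_ALU. PROOF. `kapE L ∈ RFE ⊤`, algebraic (`T.fin ⊤`; `kk A B` is finite over `ℚ`). `12 g₂ = 1 + 1728 kapE L`. `b_DSC`: `0 ≠ g₂³ - 27 g₃² = g₂³ - g₂²/12 = 144 kapE g₂²`, so `kapE L ≠ 0`, `g₂ ≠ 0`. (ALU) for `kapE L` and `12 g₂`: `n₁`, `n₂`; `n = 6 n₁ n₂`. (NGR); `kp L = kapE L`
by definition. -/
def Sy_GRB_E : Prop :=
  ∀ A B : ℤ, CaseE A B → ∀ L : PeriodPair, NrmE A B L →
    ∃ n : ℕ, n ≠ 0 ∧ ∀ V : ValuationSubring ℂ, V.valuation (n : ℂ) = 1 →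
      V.valuation 2 = 1 ∧ V.valuation 3 = 1 ∧ MEC.GRE V L

/-- (INV) an automorphism of `F ≥ F_m` which is trivial modulo `V` acts on `E[m]` as `± 1`, if `E[m]` meets the
kernel of reduction trivially.

Uses Sq_EMB, `VX.lean`. PROOF. If `m` is a unit: clear. `z = Om/m`: `z, a z ∉ L`, both in `E[m]`, so not in the kernel of reduction, `xnE L z ∈ V ∩ F`, `xnE L (a z) = σ(xnE L z) ≡ xnE L z`; so (`v_X_sub`) `a z + z` or `a z - z` is in the kernel of reduction, hence in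
`L`: `m ∣ a ± 1`. -/
def Sy_INV_E : Prop :=
  ∀ A B : ℤ, CQ A B → ∀ (L : PeriodPair) (Om : ℂ), IsNE (⊤ : Ideal (OO A B)) L Om →
    ∀ m : OO A B, m ≠ 0 → ∀ V : ValuationSubring ℂ, MEC.GRE V L →
    (∀ z, emb m * z ∈ L.lattice → InK V L (xnE L) z → z ∈ L.lattice) →
    ∀ (F : IntermediateField (kk A B) ℂ), RFE (sp m) ≤ F → ∀ σ : F ≃ₐ[kk A B] F,
      (∀ x : F, (x : ℂ) ∈ V → V.valuation (((σ x : F) : ℂ) - (x : ℂ)) < 1) →
      ∀ a : OO A B, ActH_E σ m a → m ∣ a - 1 ∨ m ∣ a + 1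

/-- (FRH) Frobenius automorphisms which are trivial on `H`.

Uses Sq_FRX, Sq_VQI, Sq_ALU, Sq_TOR, Sq_EMB, GRB, KER, ACM, Su_DET, Sq_CYQ. PROOF. `R : RepsE`, `ι` finite: every normalised lattice `L'` has `kapE L' = kapE (R.L i)` for some `i` (`L' = om b`, `x b = y b_i`, so `L'` is homothetic to `R.L i`, both are normalised: `u² = 1` as in KER).
`n₀` = the product of the numbers of GRB for the `R.L i`, of ALU for the nonzero differences `kapE (R.L i) - kapE (R.L j)`, and of `|B² + 4A|`. Let `L = Om O`, `z = Om/m` or any point of level `m`. `T.surj (sp m) Q` (`Q` is prime to `m`: `q ∤ nm m`) gives a normalised `M` and `mu` with `IsQ Q L M mu`.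
(FRX): `kapE M ≡ (kapE L)^q ≡ σ(kapE L) = kapE L`, so `kapE M = kapE L` (the difference is `0` or a unit at `V`), `M` has the lattice `L` (DET). `mu z ∈ L` iff `x z ∈ L` for all `x ∈ Q`; `z = Om/mu`: `x/mu ∈ emb O` for `x ∈ Q`, `z = Om`: `mu = emb lam`; so `Q ⊆ (lam)`,
and `(lam) ≠ O` since `Q⁻¹ L ≠ L` (CYQ); `Q` is maximal, so `Q = (lam)`, `nm lam = q` (`nm lam > 0`, `lam ∣ q`, `nm lam ∣ q²`, and `nm lam = q²` would make `q/lam` a unit). (KER): `ActH_E σ m a`. For `z = Om/m` (`m` not a unit; otherwise trivial): `xnE L (a z) = σ(xnE L z) ≡ (xnE L z)^q ≡ xnE L (lam z)`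
(FRX; `z` is not in the kernel of reduction: TOR, `q ∤ nm m`), so `a ≡ ± lam` modulo `m` (`v_X_sub`, TOR), (ACM)(2). -/
def Sy_FRH_E : Prop :=
  ∀ A B : ℤ, CaseE A B → TorXE A B → ∀ (n : ℕ) (ι : Type) [Finite ι] (_ : RepsE A B n ι), ∃ n₀ : ℕ,
    n₀ ≠ 0 ∧ ∀ m : OO A B, m ≠ 0 → (2 : OO A B) ∣ m → ∀ (Q : Ideal (OO A B)) (q : ℕ), q.Prime → ¬ q ∣ n₀ →
    ¬ (q : ℤ) ∣ nm m → Nat.card (OO A B ⧸ Q) = q → ∀ V : ValuationSubring ℂ, Ovr Q V →
    ∀ σ : (RFE (sp m) : IntermediateField (kk A B) ℂ) ≃ₐ[kk A B] RFE (sp m),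
      (∀ x : (RFE (sp m) : IntermediateField (kk A B) ℂ), (x : ℂ) ∈ V →
        V.valuation (((σ x : (RFE (sp m) : IntermediateField (kk A B) ℂ)) : ℂ) - (x : ℂ) ^ q) < 1) →
      TrH_E σ → ∃ lam : OO A B, Q = Ideal.span {lam} ∧ nm lam = q ∧ ActH_E σ m lam

/-! ### The elements `cW` -/

/-- (HIT) every automorphism of `F_m / k` hits exactly two pairs `± (i, x)`.

Uses Sq_EMB, ACM, Su_DET. PROOF. `T : TorXE A B`, `R : RepsE A B n ι`, `L = R.L R.i0 = om O` (`R.b0`), `m` a natural number with `nI (R.b i)` prime to `m` for all `i`, `¬ m ∣ 2` in `O`, `m ≠ 0`. Extend `σ` to `s ∈ Aut(ℂ)` (`T.ext`), `T.act`: the ideal `a`, `ActE s (idl m) a L L' mu`, `L'` normalised. `R.surj` for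
`a⁻¹`-class of `L'`: `L' = mu a⁻¹ L` is homothetic to `R.L i` for one `i` (`a * c = (N)`, `c = cjI a`; `a⁻¹ = c/N`; `x c = y b_i`), so `L'` has the same lattice as `R.L i` (both normalised). So `kapE (R.L i) = s(kapE L)`, and `mu om/m` is a point of `R.L i` of exact level `m` (`ActE.act`; `z ↦ mu z` is an isomorphism
of the points of level `m`), so `± ptE R m i x` with `x` prime to `m` (the points of level `m` of `R.L i = om_i b_i` are `om_i b_i/m`, and `b_i/m b_i ≅ O/m` by `x ↦ N(b_i) x`, because `N(b_i) ∈ b_i` is prime to `m`). Uniqueness: `kapE (R.L i) = kapE (R.L j)` gives `i = j` (DET, `R.inj`); `xnE` equal gives `± x` (`b_NEQ`).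
`x ≢ -x` since `m ∤ 2`. -/
def Sy_HIT_E : Prop :=
  ∀ A B : ℤ, CaseE A B → TorXE A B → ∀ (n : ℕ) (ι : Type) (R : RepsE A B n ι) (m : ℕ), m ≠ 0 →
    (∀ i, (nI (R.b i)).Coprime m) → ¬ ((m : ℕ) : OO A B) ∣ 2 →
    ∀ s : ℂ ≃+* ℂ, FixK A B s → ∃ (i : ι) (x : OO A B), IsCoprime x ((m : ℕ) : OO A B) ∧
      HitsE R m s i x ∧ ¬ ((m : ℕ) : OO A B) ∣ 2 * x ∧
      ∀ (j : ι) (y : OO A B), HitsE R m s j y ↔
        j = i ∧ (((m : ℕ) : OO A B) ∣ y - x ∨ ((m : ℕ) : OO A B) ∣ y + x)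

/-- (CXW) the product over `XXE` is the square of `cWt`.

Uses HIT, THG, MEM. PROOF. `L = R.L R.i0`, `θ = Θ_a(ptE R m i0 1)` in `F = RFE (idl m)`. `XXE R m h τ` is the disjoint union, over the automorphisms `σ` of `F/k` which extend `τ`, of the sets `{(i, x), (i, -x)}` hit by the extensions `s` of `σ` to `ℂ` (HIT; `HitsE R m s` depends only on the restriction of `s` to `F`, and it determines this
restriction: if `s`, `s'` hit the same `(i, x)`, then `s⁻¹ s'` hits `(i0, 1)`: trivial on `kapE L`, so its ideal is principal `(c)` (DET as in KER) and `c ≡ ± 1` modulo `m`: trivial on `RFE (idl m)` by `T.triv`; both have a restriction to `F` as `F/k` is normal). By (THG) `Θ_a(ptE R m i x; L_i) = σ(θ)`, also for `-x`. -/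
def Sy_CXW_E : Prop :=
  ∀ A B : ℤ, CaseE A B → TorXE A B → ∀ (n : ℕ) (ι : Type) (R : RepsE A B n ι) (m : ℕ), m ≠ 0 →
    2 ∣ m →
    (∀ i, (nI (R.b i)).Coprime m) → ¬ ((m : ℕ) : OO A B) ∣ 2 →
    ∀ (a : ℕ) (H : ι → Finset ℂ), a ≠ 0 → a.Coprime m → (∀ i, IsHalf (R.L i) a (H i)) →
    ∀ θ : (RFE (idl m) : IntermediateField (kk A B) ℂ),
    (θ : ℂ) = ThetaH (R.L R.i0) (H R.i0) (Pool.Agent.ME.ptE R m R.i0 1) →
    ∀ (D : IntermediateField ℚ ℂ) (h : kk A B ≤ D),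
    _root_.Pool.Agent.MU3V.Sub D (RFE (idl m) : IntermediateField (kk A B) ℂ) → letI := algC h
    ∀ τ : D ≃ₐ[kk A B] D, cXE R m H h τ = cWt h θ τ ^ 2

/-- (SUC) `cW h θ` is a unit outside `S`.

Uses Sv_EXT, Sq_THU, Sq_TOR, Sq_EMB, GRB, THG, MEM. PROOF. As `W_SUC.lean` of MU3. `n₀` from GRB for `L`. `w` a prime of `D` not above `S`; extend it to `V` (EXT). `v n₀ = v a = v (nm m) = 1`: good reduction. Every factor of `cW` is `σ(Θ(u))`, `u = Om/m`; `V' = V.comap`-conjugate: let `s ∈ Aut(ℂ)` extend `σ`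
(`T.ext`, or AUE); `v(s x)` for `x ∈ ℂ` is the valuation of `s⁻¹ V`, again with `v n₀ = v a = v(nm m) = 1`, so `v(s(Θ(u))) = 1` by (THU)(1) for `s⁻¹ V`: `a u ∉ L`, in `E[m]`, not in the kernel of reduction (TOR). -/
def Sy_SUC_E : Prop :=
  ∀ A B : ℤ, CaseE A B → TorXE A B → ∀ (L : PeriodPair) (Om : ℂ), IsNE (⊤ : Ideal (OO A B)) L Om →
    ∃ n₀ : ℕ, n₀ ≠ 0 ∧ ∀ m : OO A B, m ≠ 0 → ¬ IsUnit m → ∀ (a : ℤ) (H : Finset ℂ), a ≠ 0 →
    IsCoprime (a : OO A B) m → IsHalf L a H →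
    ∀ S : Finset ℕ, (∀ p : ℕ, p.Prime → p ∣ n₀ → p ∈ S) → (∀ p : ℕ, p.Prime → (p : ℤ) ∣ a → p ∈ S) →
    (∀ p : ℕ, p.Prime → (p : ℤ) ∣ nm m → p ∈ S) →
    ∀ θ : (RFE (sp m) : IntermediateField (kk A B) ℂ), (θ : ℂ) = ThetaH L H (Om / emb m) →
    ∀ (D : IntermediateField ℚ ℂ) [FiniteDimensional ℚ D] (h : kk A B ≤ D),
      _root_.Pool.Agent.MU3V.Sub D (RFE (sp m) : IntermediateField (kk A B) ℂ) →
      ∀ c : D, (c : ℂ) = cW h θ → Pool.Agent.MU3.SU S D c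

/-- (DIS) distribution relation over `E[b]`, with constant in `H`.

Uses St_TDI, St_TIN, THG, KER, ACM, Sq_EMB. PROOF. As `W_DISI.lean` of MU3. `C = b^(2|H|) ∏_(r ∈ R) Θ(r) ≠ 0`, `R` = representatives of `E[b] - 0`. The product `∏ Θ(r)` is in `RFE (sp b)` (THG) and fixed by all automorphisms of `RFE (sp b)/k` which are trivial on `RFE ⊤`: they act as some `c` prime to `b` (KER), `σ(Θ(r)) = Θ(c r)`, and
`r ↦ c r` permutes the classes. So it is in `RFE ⊤` (Galois theory, `RFE ⊤ ≤ RFE (sp b)`). -/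
def Sy_DIS_E : Prop :=
  ∀ A B : ℤ, CaseE A B → TorXE A B → ∀ (L : PeriodPair) (Om : ℂ), IsNE (⊤ : Ideal (OO A B)) L Om →
    ∀ b : OO A B, b ≠ 0 → ∀ (a : ℤ) (H : Finset ℂ), a ≠ 0 → IsCoprime (a : OO A B) b →
    IsHalf L a H → ∃ C ∈ (RFE (⊤ : Ideal (OO A B)) : IntermediateField (kk A B) ℂ), C ≠ 0 ∧
      ∀ z, emb b * a * z ∉ L.lattice →
      ∏ᶠ t : OO A B ⧸ Ideal.span {b}, ThetaH L H (z + emb (Quotient.out t) * (Om / emb b)) =
        C * ThetaH L H (emb b * z)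

/-- (NRM) the norm from `F_(b m)` to `F_m`, for `b ∣ m`.

Uses DIS, KER, ACM, THG, St_TIN, Sq_EMB. PROOF. `b ∣ m`, so a number prime to `m` is prime to `b m`. The automorphisms of `F_(b m)/k` which are trivial on `F_m` are trivial on `H`, so they act as some `c` prime to `b m` (KER) and `c ≡ ± 1` modulo `m` (ACM)(8),(1) (compare with `1`), by (ACM)(2) `c ≡ 1` modulo `m`; conversely every `c = 1 + m t`
occurs (KER), acts trivially on `F_m` (ACM)(8), (5). As `m ∤ 2`, `c ↦ t` modulo `b` is a bijection of this group with `O/b`. `σ(Θ(Om/(b m))) = Θ(Om/(b m) + t Om/b)` (THG). (DIS) for `z = Om/(b m)` (`b a z = a Om/m ∉ L`: `m` is not a unit, `a` prime to `m`). -/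
def Sy_NRM_E : Prop :=
  ∀ A B : ℤ, CaseE A B → TorXE A B → ∀ (L : PeriodPair) (Om : ℂ), IsNE (⊤ : Ideal (OO A B)) L Om →
    ∀ m b : OO A B, m ≠ 0 → (2 : OO A B) ∣ m → b ∣ m → ¬ m ∣ 2 → ∀ (a : ℤ) (H : Finset ℂ), a ≠ 0 →
    IsCoprime (a : OO A B) m → IsHalf L a H →
    ∀ (θ : (RFE (sp m) : IntermediateField (kk A B) ℂ))
      (θ' : (RFE (sp (b * m)) : IntermediateField (kk A B) ℂ)),
    (θ : ℂ) = ThetaH L H (Om / emb m) → (θ' : ℂ) = ThetaH L H (Om / emb (b * m)) →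
    ∃ C ∈ (RFE (⊤ : Ideal (OO A B)) : IntermediateField (kk A B) ℂ), C ≠ 0 ∧
      ∏ᶠ σ : {σ : (RFE (sp (b * m)) : IntermediateField (kk A B) ℂ) ≃ₐ[kk A B] RFE (sp (b * m)) //
        ∀ x : (RFE (sp (b * m)) : IntermediateField (kk A B) ℂ),
          (x : ℂ) ∈ (RFE (sp m) : IntermediateField (kk A B) ℂ) → σ x = x},
        ((σ.1 θ' : (RFE (sp (b * m)) : IntermediateField (kk A B) ℂ)) : ℂ) = C * θ

/-- (I1) the norm relation.

Uses NRM, MEM. PROOF. `m' = b m`, `F = RFE (sp m)`, `F' = RFE (sp m')`, `D ≤ D' ≤ F'`, `D ≤ F`, `D` contains `H`. `∏_(i<p) σ^i(cW h' θ')` is the product of the `s θ'` over all `s ∈ Gal(F'/k)` whose restriction to `D'` is in `⟨σ⟩`, that is trivial on `D` (Galois correspondence: `σ` has the fixed field `D`, order `p`). On the other hand every `s ∈ GD h F'`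
restricts to an element of `GD h F` (restriction is surjective), and the fibres are the cosets of the group in (NRM): `∏_(s ∈ GD h F') s θ' = ∏_(σ ∈ GD h F) σ~(C θ) = C^(|GD h F|) ∏ σ θ`, since `C ∈ H ≤ D` is fixed (`σ~` an extension of `σ`; use an extension for every `σ`). -/
def Sy_I1_E : Prop :=
  ∀ A B : ℤ, CaseE A B → TorXE A B → ∀ (L : PeriodPair) (Om : ℂ), IsNE (⊤ : Ideal (OO A B)) L Om →
    ∀ m b : OO A B, m ≠ 0 → (2 : OO A B) ∣ m → b ∣ m → ¬ m ∣ 2 → ∀ (a : ℤ) (H : Finset ℂ), a ≠ 0 →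
    IsCoprime (a : OO A B) m → IsHalf L a H →
    ∀ (θ : (RFE (sp m) : IntermediateField (kk A B) ℂ))
      (θ' : (RFE (sp (b * m)) : IntermediateField (kk A B) ℂ)),
    (θ : ℂ) = ThetaH L H (Om / emb m) → (θ' : ℂ) = ThetaH L H (Om / emb (b * m)) →
    ∀ (D D' : IntermediateField ℚ ℂ) (h : kk A B ≤ D) (h' : kk A B ≤ D'), D ≤ D' → HasH_E A B D →
    _root_.Pool.Agent.MU3V.Sub D (RFE (sp m) : IntermediateField (kk A B) ℂ) →
    _root_.Pool.Agent.MU3V.Sub D' (RFE (sp (b * m)) : IntermediateField (kk A B) ℂ) → letI := algC h; letI := algC h'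
    ∀ (p : ℕ) (σ : D' ≃ₐ[kk A B] D'), (∀ x : D', σ x = x ↔ (x : ℂ) ∈ D) → orderOf σ = p → p ≠ 0 →
    ∀ c' : D', (c' : ℂ) = cW h' θ' →
      ∃ C ∈ (RFE (⊤ : Ideal (OO A B)) : IntermediateField (kk A B) ℂ), C ≠ 0 ∧
        ∏ i ∈ Finset.range p, (((σ ^ i) c' : D') : ℂ) = C * cW h θ

/-! ### Good primes -/

/-- (FRD) a good prime `v` of `D` (trivial decomposition group over `k`, degree one, `D` contains `H`) lies over a principal
prime `(lam)`, and `lam` is the action on `E[m]` of an automorphism of `F_m/k` trivial on `D`.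

Uses FRH, PRQ, Sw_LOC, Sv_EXT, Sa_FEX or Mathlib. PROOF. As `W_FRD.lean` of MU3. `P = v ∩ 𝓞 k`, `#𝓞 k/P = q` (it embeds in `𝓞 D/v`, `q` prime); (PRQ) gives `Q`. `F = RFE (sp m)`, `w` a prime of `𝓞 F` above `v`, `σ` an arithmetic Frobenius at `w` (`IsArithFrobAt.exists_of_isInvariant`): `σ x - x^q ∈ w` for `x ∈ 𝓞 F`. `V` extends `w` (EXT); (LOC) gives the congruence on `F ∩ V`;
`Ovr Q V`. `σ` extends some `τ` of `D` which maps `v` into itself, so `τ = 1` (`GoodPrP.free`), so `σ` is trivial on `D`, hence on `H`. (FRH). -/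
def Sy_FRD_E : Prop :=
  ∀ A B : ℤ, CaseE A B → TorXE A B → ∀ (n : ℕ) (ι : Type) [Finite ι] (_ : RepsE A B n ι), ∃ n₀ : ℕ,
    n₀ ≠ 0 ∧ ∀ (p : ℕ) (m : OO A B), m ≠ 0 → (2 : OO A B) ∣ m → ∀ (D : IntermediateField ℚ ℂ)
      [FiniteDimensional ℚ D] (h : kk A B ≤ D), HasH_E A B D →
      _root_.Pool.Agent.MU3V.Sub D (RFE (sp m) : IntermediateField (kk A B) ℂ) → letI := algC h
    ∀ (S : Finset ℕ) (v : HeightOneSpectrum (𝓞 D)) (q : ℕ),
      Pool.Agent.MUXK.GoodPrP p (kk A B) D S v q → ¬ q ∣ n₀ → ¬ (q : ℤ) ∣ nm m →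
      ∃ lam : OO A B, nm lam = q ∧
        (∃ σ ∈ GD h (RFE (sp m) : IntermediateField (kk A B) ℂ), ActH_E σ m lam) ∧
        ∀ (x : 𝓞 (kk A B)) (y : OO A B), ((x : kk A B) : ℂ) = emb y →
          (x ∈ v.asIdeal.under (𝓞 (kk A B)) ↔ lam ∣ y)

/-- (KOL) the input (I2), for every prime `p`. (helper59) -/
def Sy_KOL_E : Prop :=
  ∀ A B : ℤ, CaseE A B → TorXE A B → ∀ (n : ℕ) (ι : Type) [Finite ι] (R : RepsE A B n ι), ∃ n₀ : ℕ,
    n₀ ≠ 0 ∧ ∀ p : ℕ, p.Prime → ∀ m : OO A B, m ≠ 0 → (2 : OO A B) ∣ m → ¬ m ∣ 2 → ∀ (a : ℤ) (H : Finset ℂ),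
    a ≠ 0 → IsCoprime (a : OO A B) m → IsHalf (R.L R.i0) a H →
    ∀ S : Finset ℕ, (∀ p : ℕ, p.Prime → p ∣ n₀ → p ∈ S) → (∀ p : ℕ, p.Prime → (p : ℤ) ∣ a → p ∈ S) →
    (∀ p : ℕ, p.Prime → (p : ℤ) ∣ nm m → p ∈ S) →
    ∀ θ : (RFE (sp m) : IntermediateField (kk A B) ℂ),
    (θ : ℂ) = ThetaH (R.L R.i0) H (R.om R.i0 / emb m) →
    ∀ (D : IntermediateField ℚ ℂ) [FiniteDimensional ℚ D] [FiniteDimensional ℚ (kk A B)]
      (h : kk A B ≤ D), HasH_E A B D → _root_.Pool.Agent.MU3V.Sub D (RFE (sp m) : IntermediateField (kk A B) ℂ) →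
      letI := algC h
      ∀ c : D, (c : ℂ) = cW h θ →
        Pool.Agent.MUXK.KolInP p (kk A B) D
          {g | ∀ x : D, (x : ℂ) ∈ (RFE (⊤ : Ideal (OO A B)) : IntermediateField (kk A B) ℂ) →
            g x = x} S c

end

end Pool.Agent.MUXW


end

section

/-!
# MUX, block W, module THC: conjugation of the values of `Θ_a`
-/

set_option autoImplicit false

open WeierstrassCurve Polynomial NumberField IsDedekindDomain

namespace Pool.Agent.MUXW

open _root_.MU3 _root_.Pool.Agent.MU3A _root_.Pool.Agent.MU3B _root_.Pool.Agent.MU3C _root_.Pool.Agent.RI _root_.Pool.Agent.RID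
open _root_.Pool.Agent.MUX _root_.Pool.Agent.MUXU
open _root_.Pool.Agent.MU3V (cls Sub GD)
open _root_.Pool.Agent.MUXV (GR InK tX CMO Ovr)

noncomputable section

namespace THC

/-- `Φ` and differences -/
lemma sub_mem_iff {σ : ℂ ≃+* ℂ} {L L' : PeriodPair} {Φ : ℂ → ℂ} (hΦ : IsPhi σ L L' Φ)
    (q q' : ℂ) : Φ q - Φ q' ∈ L'.lattice ↔ q - q' ∈ L.lattice := by
  have h1 := hΦ.add (q - q') q'
  rw [sub_add_cancel] at h1
  rw [← hΦ.mem (q - q')]
  constructor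
  · intro h
    have e : Φ (q - q') = (Φ q - Φ q') - (Φ q - Φ (q - q') - Φ q') := by ring
    rw [e]
    exact sub_mem h h1
  · intro h
    have e : Φ q - Φ q' = Φ (q - q') + (Φ q - Φ (q - q') - Φ q') := by ring
    rw [e]
    exact add_mem h h1

/-- `Φ` and sums -/
lemma add_mem_iff {σ : ℂ ≃+* ℂ} {L L' : PeriodPair} {Φ : ℂ → ℂ} (hΦ : IsPhi σ L L' Φ)
    (q q' : ℂ) : Φ q + Φ q' ∈ L'.lattice ↔ q + q' ∈ L.lattice := by
  have h1 := hΦ.add q q'
  rw [← hΦ.mem (q + q')]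
  constructor
  · intro h
    have e : Φ (q + q') = (Φ q + Φ q') + (Φ (q + q') - Φ q - Φ q') := by ring
    rw [e]
    exact add_mem h h1
  · intro h
    have e : Φ q + Φ q' = Φ (q + q') - (Φ (q + q') - Φ q - Φ q') := by ring
    rw [e]
    exact sub_mem h h1

/-- an integer multiple of an element of the lattice -/
lemma int_mul_mem (L : PeriodPair) (n : ℤ) {w : ℂ} (hw : w ∈ L.lattice) :
    (n : ℂ) * w ∈ L.lattice := by
  have h := L.lattice.smul_mem n hw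
  rwa [zsmul_eq_mul] at h

/-- the image of a half system -/
lemma half {σ : ℂ ≃+* ℂ} {L L' : PeriodPair} {Φ : ℂ → ℂ} (hΦ : IsPhi σ L L' Φ)
    (hn : ∀ (n : ℤ) (z : ℂ), (n : ℂ) * Φ z ∈ L'.lattice ↔ (n : ℂ) * z ∈ L.lattice) (a : ℤ)
    (H : Finset ℂ) (hH : IsHalf L a H) : IsHalf L' a (H.image Φ) := by
  refine ⟨?_, ?_, ?_, ?_, ?_⟩
  · intro q hq
    obtain ⟨p, hp, rfl⟩ := Finset.mem_image.1 hq
    exact (hn a p).2 (hH.mem p hp)
  · intro q hq h
    obtain ⟨p, hp, rfl⟩ := Finset.mem_image.1 hq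
    have h2 := (hn 2 p).1 (by push_cast; exact h)
    push_cast at h2
    exact hH.ne p hp h2
  · intro q hq q' hq' h
    obtain ⟨p, hp, rfl⟩ := Finset.mem_image.1 hq
    obtain ⟨p', hp', rfl⟩ := Finset.mem_image.1 hq'
    rw [hH.inj p hp p' hp' ((sub_mem_iff hΦ p p').1 h)]
  · intro q hq q' hq' h
    obtain ⟨p, hp, rfl⟩ := Finset.mem_image.1 hq
    obtain ⟨p', hp', rfl⟩ := Finset.mem_image.1 hq'
    exact hH.neg p hp p' hp' ((add_mem_iff hΦ p p').1 h)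
  · intro u hu hu0
    obtain ⟨z, hz⟩ := hΦ.surj u
    have h1 : (a : ℂ) * z ∈ L.lattice := by
      rw [← hn a z]
      have e : (a : ℂ) * Φ z = (a : ℂ) * u + (a : ℂ) * (Φ z - u) := by ring
      rw [e]
      exact add_mem hu (int_mul_mem L' a hz)
    have h2 : z ∉ L.lattice := by
      intro h3
      apply hu0
      have e : u = Φ z - (Φ z - u) := by ring
      rw [e]
      exact sub_mem ((hΦ.mem z).2 h3) hz
    obtain ⟨q, hq, h4⟩ := hH.surj z h1 h2
    refine ⟨Φ q, Finset.mem_image_of_mem Φ hq, ?_⟩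
    rcases h4 with h4 | h4
    · left
      have e : u - Φ q = (Φ z - Φ q) - (Φ z - u) := by ring
      rw [e]
      exact sub_mem ((sub_mem_iff hΦ z q).2 h4) hz
    · right
      have e : u + Φ q = (Φ z + Φ q) - (Φ z - u) := by ring
      rw [e]
      exact sub_mem ((add_mem_iff hΦ z q).2 h4) hz

end THC

open _root_.Pool.Agent.MUXW.THC in
theorem ty_THC (h1 : Su_PHI) (h2 : Su_TSN) : Sy_THC := by
  intro σ L L' hc a H H' _ hH hH' z z' hz hz' hzz
  obtain ⟨Φ, hΦ⟩ := h1 σ L L' hc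
  obtain ⟨hn, -⟩ := h2 σ L L' Φ hc hΦ
  have hH2 := half hΦ hn a H hH
  have hpL : ∀ p ∈ H, p ∉ L.lattice := by
    intro p hp h
    apply hH.ne p hp
    rw [two_mul]
    exact add_mem h h
  have hΦz : Φ z ∉ L'.lattice := fun h => hz ((hΦ.mem z).1 h)
  have e1 : σ (ThetaH L H z) = ThetaH L' (H.image Φ) (Φ z) := by
    unfold ThetaH
    rw [map_prod, Finset.prod_image]
    · refine Finset.prod_congr rfl fun p hp => ?_
      rw [map_sub, hΦ.P z hz, hΦ.P p (hpL p hp)]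
    · intro p hp p' hp' h
      have h3 : Φ p - Φ p' ∈ L'.lattice := by
        have h4 : Φ p - Φ p' = 0 := sub_eq_zero.2 h
        rw [h4]
        exact zero_mem _
      exact hH.inj p hp p' hp' ((sub_mem_iff hΦ p p').1 h3)
  obtain ⟨i1, i2, i3⟩ := b_TIN L' (a : ℂ) H' (H.image Φ) hH' hH2
  obtain ⟨-, j2, j3⟩ := b_TIN L' (a : ℂ) (H.image Φ) H' hH2 hH'
  rw [e1, i1]
  have h5 : L'.weierstrassP z' = L'.weierstrassP (Φ z) := by rw [hzz, hΦ.P z hz]
  rcases b_NEQ L' (Φ z) z' hΦz hz' h5 with h6 | h6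
  · have e2 : z' = Φ z + (z' - Φ z) := by ring
    rw [e2, j3 _ _ h6]
  · have e2 : z' = -Φ z + (z' + Φ z) := by ring
    rw [e2, j3 _ _ h6, j2]

end

end Pool.Agent.MUXW


end
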