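import Mathlib
import Pool.Agent.MVF.C022
import Pool.Agent.MVF.C031
import Pool.Agent.MVF.C035
import Pool.Agent.MVF.C045

/-! Parts: MUX.C_CMM, NS.RN_VAL3, ME.X.StJX, MUX.E_NE1 -/

namespace Pool.Agent.MUXC.CMM
end Pool.Agent.MUXC.CMM
namespace Pool.Agent.MUXE.NE1
end Pool.Agent.MUXE.NE1
namespace Pool.Agent.NSR.VAL3
end Pool.Agent.NSR.VAL3

section

/-!
# MUX, block XC: module CMM, the field `comm` of `TorX`
-/

set_option autoImplicit false

open Polynomial NumberField IsDedekindDomain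

namespace Pool.Agent.MUXC

open _root_.MU3 _root_.Pool.Agent.MU3A _root_.Pool.Agent.MU3B _root_.Pool.Agent.MUX _root_.Pool.Agent.MUXU _root_.Pool.Agent.RI

noncomputable section

namespace CMM

variable {A B : ℤ}

theorem fin (h : CQ A B) : FiniteDimensional ℚ (kk A B) := by
  have h1 : IsIntegral ℚ (wC A B) := by
    refine ⟨X ^ 2 - C (B : ℚ) * X - C (A : ℚ), ?_, ?_⟩
    · monicity!
    · simp only [eval₂_sub, eval₂_mul, eval₂_pow, eval₂_X, eval₂_C]
      rw [pow_two, Pool.Agent.MUX.wC_sq h]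
      simp
  exact IntermediateField.adjoin.finiteDimensional h1

/-- automorphisms of `F / k` extend to `ℂ` -/
theorem ext (hAUE : Su_AUE) (h : CQ A B) (F : IntermediateField (kk A B) ℂ)
    [FiniteDimensional (kk A B) F] (σ : F ≃ₐ[kk A B] F) :
    ∃ s : ℂ ≃+* ℂ, FixK A B s ∧ ∀ x : F, s (x : ℂ) = ((σ x : F) : ℂ) := by
  have h2 : FiniteDimensional ℚ (kk A B) := fin h
  have h3 : FiniteDimensional ℚ F := FiniteDimensional.trans ℚ (kk A B) F
  have h4 : FiniteDimensional ℚ (F.restrictScalars ℚ) := h3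
  have hF : Algebra.IsAlgebraic ℚ (F.restrictScalars ℚ) := Algebra.IsAlgebraic.of_finite ℚ _
  obtain ⟨s, hs⟩ := hAUE (F.restrictScalars ℚ) hF
    { toFun := fun x => ((σ ⟨x.1, x.2⟩ : F) : ℂ)
      map_one' := by
        change ((σ (1 : F) : F) : ℂ) = 1
        rw [map_one]; rfl
      map_mul' := fun x y => by
        change ((σ ((⟨x.1, x.2⟩ : F) * ⟨y.1, y.2⟩) : F) : ℂ) = _
        rw [map_mul]; rfl
      map_zero' := by
        change ((σ (0 : F) : F) : ℂ) = 0
        rw [map_zero]; rfl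
      map_add' := fun x y => by
        change ((σ ((⟨x.1, x.2⟩ : F) + ⟨y.1, y.2⟩) : F) : ℂ) = _
        rw [map_add]; rfl }
  have hs' : ∀ x : F, s (x : ℂ) = ((σ x : F) : ℂ) := fun x => hs ⟨x.1, x.2⟩
  refine ⟨s, ?_, hs'⟩
  have hw : wC A B ∈ kk A B := IntermediateField.mem_adjoin_simple_self ℚ (wC A B)
  have h5 := hs' (algebraMap (kk A B) F ⟨wC A B, hw⟩)
  rw [AlgEquiv.commutes] at h5
  exact h5

end CMM

open _root_.Pool.Agent.MUXC.CMM in
theorem tc_CMM (h1 : Sc_FGL) (h2 : Sc_ACT) (h3 : Sc_CMP) (h4 : Sc_SGQ) (h5 : Su_AUE) :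
    Sc_CMM := by
  intro A B hC m hm σ τ
  have : FiniteDimensional (kk A B) (RF m) := (h1 A B hC m hm).1
  obtain ⟨s, hs, hsσ⟩ := ext h5 hC (RF m) σ
  obtain ⟨t, ht, htτ⟩ := ext h5 hC (RF m) τ
  obtain ⟨a, -, ha⟩ := h2 A B hC m hm s hs
  obtain ⟨b, -, hb⟩ := h2 A B hC m hm t ht
  -- the two orders agree on the generators
  have key : ∀ x ∈ genS (A := A) (B := B) m, s (t x) = t (s x) := by
    rintro x ⟨c, L, om, hL, hx⟩
    obtain ⟨c1, L1, om1, n1, hL1, k1⟩ := hb c L om hL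
    obtain ⟨c2, L2, om2, n2, hL2, k2⟩ := ha c1 L1 om1 hL1
    obtain ⟨c3, L3, om3, n3, hL3, k3⟩ := ha c L om hL
    obtain ⟨c4, L4, om4, n4, hL4, k4⟩ := hb c3 L3 om3 hL3
    have e1 := h3 A B hC m b a t s L L1 L2 n1 n2 k1 k2
    have e2 := h3 A B hC m a b s t L L3 L4 n3 n4 k3 k4
    rw [mul_comm a b] at e2
    obtain ⟨-, -, q1, q2⟩ := h4 A B (b * a) L L2 L4 _ _ e1.isq e2.isq hL2.nrm hL4.nrm
    rcases hx with rfl | ⟨z, hz, hzL, rfl⟩
    · have f1 := e1.kap
      have f2 := e2.kap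
      rw [RingEquiv.trans_apply] at f1 f2
      rw [← f1, ← f2, q1]
    · rcases e1.act z hz with f1 | f1
      · exact absurd f1.1 hzL
      rcases e2.act z hz with f2 | f2
      · exact absurd f2.1 hzL
      have g1 := f1.2.2.1
      have g2 := f2.2.2.1
      rw [RingEquiv.trans_apply] at g1 g2
      rw [g1, g2, q2]
  have hH : ((σ * τ : RF m ≃ₐ[kk A B] RF m) : RF m →ₐ[kk A B] RF m) =
      ((τ * σ : RF m ≃ₐ[kk A B] RF m) : RF m →ₐ[kk A B] RF m) := by
    refine IntermediateField.algHom_ext_of_eq_adjoin (kk A B) (S := RF m)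
      (s := genS (A := A) (B := B) m) rfl ?_
    intro x hx
    apply Subtype.ext
    have hx' : x ∈ (RF m : IntermediateField (kk A B) ℂ) := IntermediateField.subset_adjoin _ _ hx
    change ((σ (τ ⟨x, hx'⟩) : RF m) : ℂ) = ((τ (σ ⟨x, hx'⟩) : RF m) : ℂ)
    rw [← hsσ, ← htτ, ← htτ, ← hsσ]
    exact key x hx
  ext1 x
  exact congrArg (fun φ : RF m →ₐ[kk A B] RF m => φ x) hH

end

end Pool.Agent.MUXC


end

section

/-!
# NSR, module VAL3: the values of `RF (f)` at `V`, 3 inert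
-/

set_option autoImplicit false

open WeierstrassCurve Polynomial

namespace Pool.Agent.NSR

open _root_.MU3 _root_.Pool.Agent.MU3A _root_.Pool.Agent.MU3B _root_.Pool.Agent.RI _root_.Pool.Agent.MUX _root_.Pool.Agent.MUXU
open _root_.Pool.Agent.MUXV (GR InK tX)
open _root_.Pool.Agent.NS

noncomputable section

namespace VAL3

theorem one_notMem {A B : ℤ} {V : ValuationSubring ℂ} {P : Ideal (OO A B)} (hC : CQ A B)
    (hV : OverI V P) : (1 : OO A B) ∉ P := by
  intro h
  have h1 := (hV 1).2 h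
  rw [_root_.Pool.Agent.MUX.emb_one hC, ValuationSubring.mem_nonunits_iff, map_one] at h1
  exact lt_irrefl _ h1

theorem isPrime {A B : ℤ} {V : ValuationSubring ℂ} {P : Ideal (OO A B)} (hC : CQ A B)
    (hV : OverI V P) : P.IsPrime := by
  refine ⟨fun h => one_notMem hC hV (h ▸ Submodule.mem_top), fun {x y} hxy => ?_⟩
  have h1 := (hV _).2 hxy
  rw [_root_.Pool.Agent.MUX.emb_mul hC, ValuationSubring.mem_nonunits_iff, map_mul] at h1
  by_contra hno
  rw [not_or] at hno
  have h2 : 1 ≤ V.valuation (emb x) := by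
    rw [← not_lt, ← ValuationSubring.mem_nonunits_iff]
    exact fun h => hno.1 ((hV x).1 h)
  have h3 : 1 ≤ V.valuation (emb y) := by
    rw [← not_lt, ← ValuationSubring.mem_nonunits_iff]
    exact fun h => hno.2 ((hV y).1 h)
  exact absurd h1 (not_lt.2 (one_le_mul_of_one_le_of_one_le h2 h3))

theorem natCast_ne {A B : ℤ} (hC : CQ A B) {n : ℕ} (hn : n ≠ 0) : ((n : ℕ) : OO A B) ≠ 0 := by
  intro h
  have h1 := congrArg emb h
  rw [_root_.Pool.Agent.MUX.emb_natCast hC, _root_.Pool.Agent.MUX.emb_zero hC] at h1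
  exact hn (by exact_mod_cast h1)

theorem idl_ne {A B : ℤ} (hC : CQ A B) {n : ℕ} (hn : n ≠ 0) : idl (A := A) (B := B) n ≠ ⊥ := by
  rw [Ne, Ideal.span_singleton_eq_bot]
  exact natCast_ne hC hn

end VAL3

open _root_.Pool.Agent.NSR.VAL3 in
theorem tr_VAL3 (h1 : Sr_ALP) (h2 : Sr_UNR) (h3 : Sr_RAM) : Sr_VAL3 := by
  intro A B V hI hV hT f hf hf3 y hy hy0
  have hC : CQ A B := hI.toCQ
  obtain ⟨⟨N, hN⟩, -⟩ := h1 A B V hI hV
  have : FiniteDimensional (kk A B) (RF (idl (A := A) (B := B) f)) := hT.fin _ (idl_ne hC hf)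
  have : IsGalois (kk A B) (RF (idl (A := A) (B := B) f)) := hT.gal _ (idl_ne hC hf)
  have hmem : ((3 : ℕ) : OO A B) ∈ idl (A := A) (B := B) 3 := Ideal.mem_span_singleton_self _
  have hnot : ((3 : ℕ) : OO A B) ∉ idl (A := A) (B := B) 3 ^ 2 := by
    intro h
    rw [Ideal.span_singleton_pow, Ideal.mem_span_singleton] at h
    obtain ⟨x, hx⟩ := h
    have h4 := congrArg emb hx
    rw [_root_.Pool.Agent.MUX.emb_mul hC, emb_pow hC, _root_.Pool.Agent.MUX.emb_natCast hC] at h4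
    have h5 : emb (((3 : ℕ) : OO A B) * x) = 1 := by
      rw [_root_.Pool.Agent.MUX.emb_mul hC, _root_.Pool.Agent.MUX.emb_natCast hC]
      push_cast at h4 ⊢
      linear_combination -(1 / 3) * h4
    have h6 := (hV _).2 ((idl (A := A) (B := B) 3).mul_mem_right x hmem)
    rw [h5, ValuationSubring.mem_nonunits_iff, map_one] at h6
    exact lt_irrefl _ h6
  obtain ⟨k, hk⟩ := h3 A B V (idl 3) ((3 : ℕ) : OO A B) hC (isPrime hC hV)
    (idl_ne hC (by norm_num)) hV hmem hnot (RF (idl (A := A) (B := B) f)) (by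
      intro σ hσ
      obtain ⟨s, hs, hsσ⟩ := Pool.Agent.MUXC.CMM.ext tu_AUE hC _ σ
      have h4 := h2 A B V N hN hT f hf hf3 s hs (by
        intro z hz hvz
        have h5 := hσ ⟨z, hz⟩ hvz
        rw [← hsσ] at h5
        exact h5)
      ext z
      have h5 := h4 z z.2
      rw [hsσ] at h5
      exact h5) y hy hy0
  refine ⟨k, ?_⟩
  rw [hk, _root_.Pool.Agent.MUX.emb_natCast hC]
  norm_num

end

end Pool.Agent.NSR


end

section

/-!
# MUX, block J: the field theory of the last glue (helper34)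

From the inputs `InpX` (`StKX.lean`) for a pair `K₀ ≤ K` to the theorem for all fields. Every `def Sj_X : Prop` is the
statement of a module, which proves `theorem t_X (h : Sj_Y) ... : Sj_X` (namespace `Pool.Agent.MUXJ`, file
`Pool/Agent/MUX/J_X.lean`); the doc string contains the proof, `Uses` names the hypotheses. `k = kk A B`, `RF m` the ray
class fields (`DefsX.lean`), `H = RF ⊤`, `TorX A B` the main theorem of complex multiplication (`DefsX2.lean`). `p` is `2` or `3`; `q0 p = 4` or `3`.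
-/

set_option autoImplicit false

open NumberField IsDedekindDomain
open scoped nonZeroDivisors Pointwise

namespace Pool.Agent.MUXJ

open _root_.MU3 _root_.Pool.Agent.MU3 _root_.Pool.Agent.MU3A _root_.Pool.Agent.MU3B _root_.Pool.Agent.RI _root_.Pool.Agent.RID
  _root_.Pool.Agent.MUX _root_.Pool.Agent.ME _root_.Pool.Agent.MUXK _root_.Pool.Agent.MUXE

noncomputable section

/-! ## Definitions -/

/-- all elements of `K` are in ray class fields -/
def TorU_E (A B : ℤ) (K : IntermediateField ℚ ℂ) : Prop :=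
  ∀ x ∈ K, ∃ m : Ideal (OO A B), m ≠ ⊥ ∧ x ∈ RFE m

/-- there is a normalised lattice with complex multiplication -/
def NLex_E (A B : ℤ) : Prop := ∃ (b : Ideal (OO A B)) (L : PeriodPair) (om : ℂ), IsNE b L om

/-- the Hilbert class field `RFE ⊤` is unramified at `V`: the form of (7.2) of `PAPER_X.md` which is needed here -/
def UnrH_E (A B : ℤ) (V : ValuationSubring ℂ) : Prop :=
  ∀ σ : ℂ ≃+* ℂ, FixK A B σ →
    (∀ y ∈ RFE (⊤ : Ideal (OO A B)), y ∈ V → σ y - y ∈ V.nonunits) →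
    ∀ y ∈ RFE (⊤ : Ideal (OO A B)), σ y = y

/-! ## The prime above `p` -/

/-- JINJ: the inertia group of the composite of `K₁` with `H` injects into `Gal(K₁/k)`.
Uses `TorXE` (only `fin`, `gal`), `exists_ext` (extension of `σ` to `ℂ`: `Pool/Agent/MU3/ADefs.lean` or `IsAlgClosed.lift`, an automorphism of a subfield of `ℂ` over which `ℂ` is algebraic or not extends: `Pool/Agent/MU3/A_FEX.lean`). PROOF. The set is a subgroup `I` of `Gal(K/k)`: closed under
products: `στx - x = (σ(τx) - τx) + (τx - x)`, `v(τ x) ≤ 1`; inverses: finite group. Restriction `I → Gal(K₁/k)` is injective: let `σ ∈ I` be trivial on `K₁`. Extend `σ` to an automorphism `σ'` of `ℂ`; `σ'` is trivial on `k`; for `y ∈ RFE ⊤ ≤ K`, `v y ≤ 1`: `v(σ y - y) < 1`, so by `UnrH_E` `σ'` is trivial on `RFE ⊤`,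
and `σ` is trivial on `K₁ ⊔ RFE ⊤ = K`. So `|I|` divides `|Gal(K₁/k)| = [K₁ : k]`. -/
def Sj_INJ_E : Prop := ∀ (A B : ℤ) (V : ValuationSubring ℂ), UnrH_E A B V → TorXE A B →
    ∀ (K₁ K : IntermediateField (kk A B) ℂ) [FiniteDimensional (kk A B) K₁]
    [IsGalois (kk A B) K₁] [FiniteDimensional (kk A B) K] [IsGalois (kk A B) K],
    K = K₁ ⊔ RFE (⊤ : Ideal (OO A B)) →
    Nat.card {σ : K ≃ₐ[kk A B] K //
      ∀ x : K, V.valuation (x : ℂ) ≤ 1 → V.valuation ((σ x : ℂ) - x) < 1} ∣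
    Module.finrank (kk A B) K₁

/-! ## Layers -/

/-! ## The fields -/

/-- JDIR: a finite extension in the union of the ray class fields is in one of them, of integral level.
PROOF. `K/ℚ` is generated by finitely many elements, each in some `RFE m`; the product `m₀` of these `m` is `≠ ⊥` (`O` is a domain: `CQ`), contains a nonzero natural number `M` (the norm of an element), `idl M ≤ m₀ ≤ m`, and `mono`. -/
def Sj_DIR_E : Prop := ∀ (A B : ℤ), CQ A B → TorXE A B →
    ∀ (K : IntermediateField ℚ ℂ) [FiniteDimensional ℚ K], TorU_E A B K →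
    ∃ M : ℕ, M ≠ 0 ∧ ∀ x ∈ K, x ∈ RFE (idl (A := A) (B := B) M)

/-- JGAL: subfields of the ray class fields are abelian.
PROOF. `fin`, `gal`, `comm` of `TorXE`, as `Z_ZGAL.lean` of MU3. -/
def Sj_GAL_E : Prop := ∀ (A B : ℤ), TorXE A B → ∀ (m : Ideal (OO A B)), m ≠ ⊥ →
    ∀ (K : IntermediateField ℚ ℂ) (hk : kk A B ≤ K), (∀ x ∈ K, x ∈ RFE m) →
    IsGalois (kk A B) (IntermediateField.extendScalars hk) ∧
    FiniteDimensional (kk A B) (IntermediateField.extendScalars hk) ∧
    ∀ σ τ : (IntermediateField.extendScalars hk) ≃ₐ[kk A B] (IntermediateField.extendScalars hk),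
      σ * τ = τ * σ

/-! ## The main theorem from the inputs -/

end

end Pool.Agent.MUXJ


end

section

/-!
# MUX, block E, module NE1: the points that occur are not in the kernel of reduction
-/

set_option autoImplicit false

open WeierstrassCurve Polynomial NumberField IsDedekindDomain

namespace Pool.Agent.MUXE

open _root_.MU3 _root_.Pool.Agent.MU3A _root_.Pool.Agent.MU3B _root_.Pool.Agent.MUX _root_.Pool.Agent.MUXU _root_.Pool.Agent.RI

noncomputable section

namespace NE1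

lemma nat_mul_mem {L : PeriodPair} (c : ℕ) {w : ℂ} (hw : w ∈ L.lattice) :
    (c : ℂ) * w ∈ L.lattice := by
  have h := L.lattice.smul_mem (c : ℤ) hw
  simpa using h

lemma inEn_nat {V : ValuationSubring ℂ} {L : PeriodPair} (hG : GX V L) {w : ℂ}
    (hw : InEn V L w) (c : ℕ) : InEn V L ((c : ℂ) * w) := by
  induction c with
  | zero =>
    left
    rw [Nat.cast_zero, zero_mul]
    exact zero_mem _
  | succ c ih =>
    have h : ((c + 1 : ℕ) : ℂ) * w = (c : ℂ) * w + w := by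
      push_cast
      ring
    rw [h]
    exact hG.add _ _ ih hw

end NE1

open _root_.Pool.Agent.MUXE.NE1 in
/-- NE1. -/
theorem te_NE1 (h1 : Sxe_PA) (_h2 : Sxe_TRA) : Sxe_NE1 := by
  intro p A B P V hC L hL e m₁ a hm hpm hpa hco z hz hord
  have hG := hC.gx L hL
  obtain ⟨-, -, -, hn, -⟩ := h1 p A B P V hC
  have hp : p.Prime := by
    rcases hC.two with h | h
    · rw [h]
      exact Nat.prime_two
    · rw [h]
      exact Nat.prime_three
  have hva : V.valuation (a : ℂ) = 1 := (hn a hpa).1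
  have hvma : V.valuation ((m₁ * a : ℕ) : ℂ) = 1 := by
    refine (hn _ ?_).1
    rw [hp.dvd_mul]
    rintro (h | h)
    · exact hpm h
    · exact hpa h
  have hno : ∀ k : ℕ, k ≤ e → ((a * p ^ k : ℕ) : ℂ) * z ∉ L.lattice := by
    intro k hk hmem
    have h3 := hord _ hmem
    have h4 : m₁ ∣ a * p ^ k := (Dvd.intro_left _ rfl).trans h3
    have h5 : m₁.Coprime (p ^ k) :=
      Nat.Coprime.pow_right k ((Nat.Prime.coprime_iff_not_dvd hp).2 hpm).symm
    have h6 : m₁ ∣ a := h5.dvd_of_dvd_mul_right h4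
    have h7 : m₁ = 1 := Nat.Coprime.eq_one_of_dvd hco.symm h6
    omega
  have key : ∀ q : ℂ, (a : ℂ) * q ∈ L.lattice → ¬ InEn V L (z + q) := by
    intro q hq hE
    have hE' := inEn_nat hG hE (p ^ e)
    have hmem : ((m₁ * a : ℕ) : ℂ) * (((p ^ e : ℕ) : ℂ) * (z + q)) ∈ L.lattice := by
      have h3 := add_mem (nat_mul_mem a hz) (nat_mul_mem (p ^ e * m₁) hq)
      have h4 : ((m₁ * a : ℕ) : ℂ) * (((p ^ e : ℕ) : ℂ) * (z + q)) =
          (a : ℂ) * (((p ^ e * m₁ : ℕ) : ℂ) * z) + ((p ^ e * m₁ : ℕ) : ℂ) * ((a : ℂ) * q) := by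
        push_cast
        ring
      rw [h4]
      exact h3
    have hz' := hG.tor _ _ hE' hvma hmem
    have h5 := sub_mem (nat_mul_mem a hz') (nat_mul_mem (p ^ e) hq)
    refine hno e le_rfl ?_
    have h6 : ((a * p ^ e : ℕ) : ℂ) * z =
        (a : ℂ) * (((p ^ e : ℕ) : ℂ) * (z + q)) - ((p ^ e : ℕ) : ℂ) * ((a : ℂ) * q) := by
      push_cast
      ring
    rw [h6]
    exact h5
  refine ⟨?_, ?_, ?_⟩
  · have h3 := key 0 (by rw [mul_zero]; exact zero_mem _)
    rwa [add_zero] at h3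
  · have h3 := hno 0 (Nat.zero_le _)
    rwa [pow_zero, mul_one] at h3
  · intro q hq hqL
    refine ⟨?_, key q hq, ?_⟩
    · intro hE
      exact hqL (hG.tor _ _ hE hva hq)
    · rw [sub_eq_add_neg]
      refine key (-q) ?_
      rw [mul_neg]
      exact neg_mem hq

end

end Pool.Agent.MUXE


end
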