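import Mathlib
import Pool.Agent.MVF.C041
import Pool.Agent.MVF.C044
import Pool.Agent.MVF.C046

/-! Parts: ME2.Defs3, NS.E_BAS, MUX.K_NILXX, ME.X.StJG, ME2.Defs4, MUX.HY_VAL -/

namespace Pool.Agent.MUXK.K_NILXX
end Pool.Agent.MUXK.K_NILXX
namespace Pool.Agent.NSE.BAS
end Pool.Agent.NSE.BAS

section

/-!
# ME2: `p = 2` for the exceptional field `ℚ(√-3)` (`2` is inert): definitions and final statements of the blocks (helper34)

Twin of `Pool/Agent/N2/DefsT.lean` in the frame of `Pool/Agent/ME/DefsE.lean` (helper21), `(A, B) = (-1, 1)`, `w = exp(2 π i/6)`. The normalised lattice `L = Om O` has `(g₂, g₃) = (0, -4)`, the curve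
`y² = x³ + 1`, `x = ℘`, `y = ℘'/2`; the points of order two are rational over `k`, all levels are even. `O^* → (O/2)^*` is onto; the pairs `(i, x)` of `XXE` have `x ≡ 1` modulo `2`.
Good supersingular model at `V | 2` (`GoodT` of `DefsT.lean`, it depends only on the lattice): the points of order three have `x = 0` or `x³ = -4`, so `u² = ℘(w2) - ℘(w1)` has additive valuation `2/3`,
`u² ∈ RFE (3)`; for `e = 0`: `u⁶ = -4`, `a1 = 0`, `a3² = -1`.
For odd `f` divisible by `3` the field `RFE (2 f)` is the ray class field modulo `2 f`; its inertia group at `V` has order three and acts faithfully on `u² = -4^(1/3)`: an automorphism of the inertia group which fixes the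
`x`-coordinates of the points of order three is trivial. The values of `v` on `RFE (2 f)` are in `(1/3) ℤ`. For characters `e` with `e(ζ x) = ζ e(x)` (`ζ ∈ O^*`) the sum of `e(x) ee(x Om/m)` over the `x ≡ 1` modulo `2` is `1/3` of the
sum over all `x`; `3` is a unit at `V`.

* `SetT3` : standing hypotheses. `f` odd, divisible by `9`.
* `TT2E`, `InCycE`, `HalfSE` : twins of `TT2`, `InCyc`, `HalfS`.
* `T3_RFIN`, `T3_EFIN`, `T3_TYF`, `T3_GPT`, `T3_HFIN` : twins of `S2_RFIN`, `S2_EFIN`, `S2_TYF`, `S2_GPT`, `S2_HFIN`; `S2_KEY0` is used as it is.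
-/

set_option autoImplicit false

namespace Pool.Agent.ME2

open _root_.MU3 _root_.Pool.Agent.MU3A _root_.Pool.Agent.MU3B _root_.Pool.Agent.RI _root_.Pool.Agent.MUX _root_.Pool.Agent.MUXE
  _root_.Pool.Agent.MuSym _root_.Pool.Agent.MUXH _root_.Pool.Agent.NS OnePoint
open _root_.Pool.Agent.ME hiding ActE
open _root_.Pool.Agent.N2 (GoodT et yt WT IsTei2 OddT PTq)

noncomputable section

/-- `D = -3`, `2` is inert: the standing hypotheses -/
structure SetT3 (A B : ℤ) (V : ValuationSubring ℂ) (f : ℕ) : Prop where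
  case : CaseE A B
  hB : B = 1
  hV : OverI V (idl (A := A) (B := B) 2)
  f0 : f ≠ 0
  fp : ¬ 2 ∣ f
  fD : 3 * absD A B ∣ (f : ℤ)

section
variable {A B : ℤ} {n : ℕ} {ι : Type}

/-- half systems of `XXE` modulo `x ↦ -x` -/
structure HalfSE (R : RepsE A B n ι) (m : ℕ) {D : IntermediateField ℚ ℂ} (h : kk A B ≤ D)
    (τ : letI := algC h; D ≃ₐ[kk A B] D)
    (S : Finset (ι × (OO A B ⧸ idl (A := A) (B := B) m))) : Prop where
  sub : ∀ q ∈ S, q ∈ XXE R m h τ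
  cov : ∀ q ∈ XXE R m h τ, q ∈ S ∨ (q.1, -q.2) ∈ S
  dis : ∀ q ∈ S, (q.1, -q.2) ∉ S

/-- `T(τ)` with the weights `om` -/
def TT2E (R : RepsE A B n ι) (om : OO A B → ℂ) (m a : ℕ) {D : IntermediateField ℚ ℂ}
    (h : kk A B ≤ D) (τ : letI := algC h; D ≃ₐ[kk A B] D) : ℂ :=
  1 / 2 * ∑ᶠ q ∈ XXE R m h τ, om (Quotient.out q.2) * muXE R q.1 *
    dlX (R.L q.1) a (ptE R m q.1 (Quotient.out q.2))

end

/-- every automorphism which is trivial on `RFE (4 f)` and on the `M`-th roots of unity is trivial on `D` -/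
def InCycE (A B : ℤ) (f M : ℕ) (D : IntermediateField ℚ ℂ) : Prop :=
  ∀ σ : ℂ ≃+* ℂ, FixK A B σ → (∀ y ∈ RFE (idl (A := A) (B := B) (lvX 2 f 0)), σ y = y) →
    (∀ z : ℂ, z ^ M = 1 → σ z = z) → ∀ y ∈ D, σ y = y

/-! ## Final statements of the blocks -/

/-- (RFIN) the reduction of the normalised lattice, and uniqueness in the form: an automorphism in the inertia group of
`RFE (idl (2 f))` (`f` odd, divisible by `3`) which fixes the `x`-coordinates of the points of order three is trivial on `RFE (idl (2 f))`. -/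
def T3_RFIN : Prop :=
  ∀ (A B : ℤ) (V : ValuationSubring ℂ), CaseE A B → B = 1 →
    OverI V (idl (A := A) (B := B) 2) → TorXE A B →
    (∀ (b : Ideal (OO A B)) (L : PeriodPair) (om : ℂ), IsNE b L om →
      ∃ u e a1 a3 : ℂ, GoodT V L u e a1 a3 ∧ u ^ 2 ∈ RFE (idl (A := A) (B := B) 3) ∧
        e ∈ RFE (idl (A := A) (B := B) 3)) ∧
    ∀ f : ℕ, f ≠ 0 → ¬ 2 ∣ f → 3 ∣ f → ∀ σ : ℂ ≃+* ℂ, FixK A B σ →
      (∀ y ∈ RFE (idl (A := A) (B := B) (2 * f)), y ∈ V → σ y - y ∈ V.nonunits) →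
      (∀ y ∈ RFE (idl (A := A) (B := B) 3), σ y = y) →
      ∀ y ∈ RFE (idl (A := A) (B := B) (2 * f)), σ y = y

/-- (EFIN) the improved criterion: `v(T(τ)/u) ≥ 1/2`, and `v ≥ 3/2` at squares. `C` is a conjugate family, products of
`Θ_a` over half systems of `XXE`. -/
def T3_EFIN : Prop :=
  ∀ (A B : ℤ) (V : ValuationSubring ℂ) (f : ℕ), SetT3 A B V f → TorXE A B →
    ∀ (ι : Type) [Fintype ι] (R : RepsE A B (2 * f) ι) (u e a1 a3 : ℂ),
    GoodT V (R.L R.i0) u e a1 a3 → ∀ om : OO A B → ℂ, OddT f V om →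
    ∀ n : ℕ, 2 ≤ n →
    ∀ (H : ι → Finset ℂ), (∀ i, IsHalf (R.L i) (aX 2 f : ℂ) (H i)) →
    ∀ (D : IntermediateField ℚ ℂ) (h : kk A B ≤ D),
      (∀ y ∈ D, y ∈ RFE (idl (A := A) (B := B) (lvX 2 f n))) → InCycE A B f (2 ^ (n + 2)) D →
    letI := algC h
    ∀ (C : (D ≃ₐ[kk A B] D) → ℂ),
    (∀ τ : D ≃ₐ[kk A B] D, ∃ y : D, (y : ℂ) = C 1 ∧ ((τ y : D) : ℂ) = C τ) →
    (∀ τ : D ≃ₐ[kk A B] D, ∃ S, HalfSE R (lvX 2 f n) h τ S ∧
      C τ = ∏ q ∈ S, ThetaH (R.L q.1) (H q.1) (ptE R (lvX 2 f n) q.1 (Quotient.out q.2))) →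
    (∀ τ : D ≃ₐ[kk A B] D,
      V.valuation (TT2E R om (lvX 2 f n) (aX 2 f) h τ / u) ^ 2 ≤ V.valuation (2 : ℂ)) ∧
    ∀ g : (D ≃ₐ[kk A B] D) → ℤ,
      (∃ y ∈ D, y ^ 2 = ∏ᶠ τ : D ≃ₐ[kk A B] D, C τ ^ g τ) →
      ∀ τ' : D ≃ₐ[kk A B] D,
        V.valuation ((∑ᶠ τ : D ≃ₐ[kk A B] D, (g τ : ℂ) *
          TT2E R om (lvX 2 f n) (aX 2 f) h (τ * τ')) / u) ^ 2 ≤ V.valuation (2 : ℂ) ^ 3

/-- (TYF) the type of the values: all values `PhiKE/(u om)` are in `pi KI`, `v` is unramified on the field `KI`, and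
`v(pi)³ v(2)^i = 1` with `i ≤ 2`. -/
def T3_TYF : Prop :=
  ∀ (A B : ℤ) (V : ValuationSubring ℂ) (f : ℕ), SetT3 A B V f → TorXE A B →
    ∀ (ι : Type) [Fintype ι] (R : RepsE A B (2 * f) ι) (u el a1 a3 : ℂ),
    GoodT V (R.L R.i0) u el a1 a3 →
    ∀ e : OO A B → ℂ, IsEIE (idl (A := A) (B := B) (2 * f)) e → ∀ r : ℕ, ¬ 2 ∣ r →
    (∀ x, e x ≠ 0 → e x ^ (2 * r) = 1) → ∀ kk : ι → ℂ, (∀ i, kk i ^ (2 * r) = 1) →
    ∃ (pi : ℂ) (KI : Subfield ℂ) (i : ℕ), i ≤ 2 ∧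
      (∀ x y, ∃ w ∈ KI, PhiKE R e kk x y / (u * R.om R.i0) = pi * w) ∧
      (∀ w ∈ KI, V.valuation w < 1 → V.valuation w ≤ V.valuation (2 : ℂ)) ∧
      V.valuation pi ^ 3 * V.valuation (2 : ℂ) ^ i = 1

/-- (GPT) Theorem G for the translates `P_(1/16)` and `P_(1/4, 1/16)` of `P = PhiKE R e kk / (u om_(i0))`: the first coefficients are
`3 (1 - ζ_16)` (`v = 1/8`) and `3 (1 - i)(1 - ζ_16)` (`v = 5/8`). -/
def T3_GPT : Prop :=
  ∀ (A B : ℤ) (V : ValuationSubring ℂ) (f : ℕ), SetT3 A B V f → TorXE A B →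
    ∀ (ι : Type) [Fintype ι] (R : RepsE A B (2 * f) ι) (u el a1 a3 : ℂ),
    GoodT V (R.L R.i0) u el a1 a3 →
    ∀ e : OO A B → ℂ, IsEIE (idl (A := A) (B := B) (2 * f)) e → ∀ r : ℕ, r ≠ 0 →
    (∀ x, e x ≠ 0 → e x ^ r = 1) → ∀ kk : ι → ℂ, V.valuation (kk R.i0) = 1 →
    ∀ N' : ℕ, N' ≠ 0 → absD A B * ((2 * f : ℕ) : ℤ) ^ 2 ∣ (N' : ℤ) →
    (∃ a b c d : ℤ, a * d - b * c = 1 ∧ (N' : ℤ) ∣ c ∧ (N' : ℤ) ∣ d - 1 ∧
      V.valuation (2 : ℂ) ≤ V.valuation (PTq 16 (fun x y => PhiKE R e kk x y / (u * R.om R.i0)) ∞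
        (mob a b c d ∞)) ^ 8) ∧
    ∃ a b c d : ℤ, a * d - b * c = 1 ∧ (N' : ℤ) ∣ c ∧ (N' : ℤ) ∣ d - 1 ∧
      V.valuation (2 : ℂ) ^ 5 ≤ V.valuation (PTq 16 (PTq 4
        (fun x y => PhiKE R e kk x y / (u * R.om R.i0))) ∞ (mob a b c d ∞)) ^ 8

/-- (HFIN) the character sums: for infinitely many levels `v < 3/2`. -/
def T3_HFIN : Prop :=
  ∀ (A B : ℤ) (V : ValuationSubring ℂ) (f : ℕ), SetT3 A B V f → TorXE A B →
    ∀ (ι : Type) [Fintype ι] (R : RepsE A B (2 * f) ι) (u el a1 a3 : ℂ),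
    GoodT V (R.L R.i0) u el a1 a3 →
    ∀ e : OO A B → ℂ, IsEIE (idl (A := A) (B := B) (2 * f)) e → ∀ r : ℕ, ¬ 2 ∣ r →
    (∀ x, e x ≠ 0 → e x ^ (2 * r) = 1) → ∀ kk : ι → ℂ, (∀ i, kk i ^ (2 * r) = 1) →
    ∀ n₀ : ℕ, ∃ n, n₀ ≤ n ∧
      V.valuation (2 : ℂ) ^ 3 < V.valuation ((1 / 2 * ∑ j ∈ Finset.range 2, (-1) ^ (1 - j) *
        (STXE R (lvX 2 f n) (2 ^ (n + 2)) (aX 2 f) e kk (5 ^ j) +
          STXE R (lvX 2 f n) (2 ^ (n + 2)) (aX 2 f) e kk (-(5 ^ j)))) / u) ^ 2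

end

end Pool.Agent.ME2


end

section

/-!
# MUX-NS, block EN, module BAS: totally ramified over unramified
-/

set_option autoImplicit false

namespace Pool.Agent.NSE

namespace BAS

/-- valuation of a sum of elements of different valuations -/
theorem sum_max {E Γ : Type} [Field E] [LinearOrderedCommGroupWithZero Γ] (v : Valuation E Γ)
    {ι : Type} [DecidableEq ι] (s : Finset ι) (f : ι → E)
    (h : ∀ i ∈ s, ∀ j ∈ s, i ≠ j → f i ≠ 0 → f j ≠ 0 → v (f i) ≠ v (f j)) :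
    ∀ i ∈ s, v (f i) ≤ v (∑ j ∈ s, f j) := by
  intro i hi
  by_cases h0 : f i = 0
  · rw [h0, map_zero]; exact zero_le
  obtain ⟨j, hj, hmax⟩ := s.exists_max_image (fun k => v (f k)) ⟨i, hi⟩
  have hfi : v (f i) ≠ 0 := (Valuation.ne_zero_iff v).2 h0
  have hfj : v (f j) ≠ 0 := fun h1 => hfi (le_antisymm (h1 ▸ hmax i hi) zero_le)
  have hj0 : f j ≠ 0 := (Valuation.ne_zero_iff v).1 hfj
  have key : v (∑ k ∈ s, f k) = v (f j) := by
    refine Valuation.map_sum_eq_of_lt v hj ?_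
    intro k hk
    obtain ⟨hk1, hk2⟩ := Finset.mem_sdiff.1 hk
    rw [Finset.mem_singleton] at hk2
    by_cases hk0 : f k = 0
    · rw [hk0, map_zero]; exact zero_lt_iff.2 hfj
    · exact lt_of_le_of_ne (hmax k hk1) (h k hk1 j hj hk2 hk0 hj0)
  rw [key]
  exact hmax i hi

end BAS

open _root_.Pool.Agent.NSE.BAS in
/-- (BAS) -/
theorem te_BAS : Se_BAS := by
  intro K E Γ _ _ _ _ v M₀ M _ _ N p π hM hN hfin hp0 hp1 hval hπ hvπ w hwM hw
  have hvp0 : v p ≠ 0 := (Valuation.ne_zero_iff v).2 hp0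
  have hρ0 : v π ≠ 0 := by
    intro h
    rw [h, zero_pow hN.ne'] at hvπ
    exact hvp0 hvπ.symm
  have hρ1 : v π < 1 := by
    by_contra h
    have h1 : (1 : Γ) ≤ v π ^ N := one_le_pow₀ (not_lt.1 h)
    rw [hvπ] at h1
    exact absurd hp1 (not_lt.2 h1)
  have hmono : StrictAnti (fun j : ℤ => v π ^ j) :=
    zpow_right_strictAnti₀ (zero_lt_iff.2 hρ0) hρ1
  -- the linear map
  let T : (Fin N → M₀) →ₗ[K] M :=
    { toFun := fun a => ∑ i, IntermediateField.inclusion hM (a i) * (⟨π, hπ⟩ : M) ^ (i : ℕ)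
      map_add' := fun a b => by
        simp only [Pi.add_apply, map_add, add_mul, Finset.sum_add_distrib]
      map_smul' := fun c a => by
        simp only [Pi.smul_apply, map_smul, smul_mul_assoc, RingHom.id_apply, Finset.smul_sum] }
  have hTc : ∀ a : Fin N → M₀, ((T a : M) : E) = ∑ i, ((a i : M₀) : E) * π ^ (i : ℕ) := by
    intro a
    change ((∑ i, IntermediateField.inclusion hM (a i) * (⟨π, hπ⟩ : M) ^ (i : ℕ) : M) : E) = _
    push_cast
    rfl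
  have hterm : ∀ (a : Fin N → M₀) (i : Fin N), ((a i : M₀) : E) ≠ 0 → ∃ k : ℤ,
      v ((a i : M₀) : E) = v π ^ (N * k) ∧
      v (((a i : M₀) : E) * π ^ (i : ℕ)) = v π ^ (N * k + (i : ℕ) : ℤ) := by
    intro a i h
    obtain ⟨k, hk⟩ := hval _ (a i).2 h
    have h1 : v ((a i : M₀) : E) = v π ^ ((N : ℤ) * k) := by
      rw [hk, ← hvπ, zpow_mul, zpow_natCast]
    refine ⟨k, h1, ?_⟩
    rw [map_mul, map_pow, h1, zpow_add₀ hρ0, zpow_natCast]
  have hmax : ∀ (a : Fin N → M₀) (i : Fin N),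
      v (((a i : M₀) : E) * π ^ (i : ℕ)) ≤ v ((T a : M) : E) := by
    intro a i
    rw [hTc]
    refine sum_max v Finset.univ (fun i : Fin N => ((a i : M₀) : E) * π ^ (i : ℕ)) ?_ i
      (Finset.mem_univ i)
    intro i _ j _ hij hi hj he
    obtain ⟨k, -, hk⟩ := hterm a i (left_ne_zero_of_mul hi)
    obtain ⟨l, -, hl⟩ := hterm a j (left_ne_zero_of_mul hj)
    change v (((a i : M₀) : E) * π ^ (i : ℕ)) = v (((a j : M₀) : E) * π ^ (j : ℕ)) at he
    rw [hk, hl] at he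
    have h1 : (N : ℤ) * k + (i : ℕ) = N * l + (j : ℕ) := hmono.injective he
    have h2 := i.2
    have h3 := j.2
    apply hij
    apply Fin.ext
    have h4 : ((i : ℕ) : ℤ) = ((N : ℤ) * k + (i : ℕ)) % N := by
      rw [Int.mul_add_emod_self_left, Int.emod_eq_of_lt (by positivity) (by exact_mod_cast h2)]
    have h5 : ((j : ℕ) : ℤ) = ((N : ℤ) * l + (j : ℕ)) % N := by
      rw [Int.mul_add_emod_self_left, Int.emod_eq_of_lt (by positivity) (by exact_mod_cast h3)]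
    have h6 : ((i : ℕ) : ℤ) = ((j : ℕ) : ℤ) := by rw [h4, h5, h1]
    exact_mod_cast h6
  have hπ0 : π ≠ 0 := (Valuation.ne_zero_iff v).1 hρ0
  have hinj : Function.Injective T := by
    rw [injective_iff_map_eq_zero]
    intro a ha
    funext i
    have h1 := hmax a i
    rw [ha] at h1
    have h2 : v (((0 : M) : M) : E) = 0 := by
      rw [ZeroMemClass.coe_zero, map_zero]
    rw [h2] at h1
    have h3 : ((a i : M₀) : E) * π ^ (i : ℕ) = 0 := by
      by_contra h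
      exact (Valuation.ne_zero_iff v).2 h (le_antisymm h1 zero_le)
    rcases mul_eq_zero.1 h3 with h4 | h4
    · exact Subtype.ext h4
    · exact absurd h4 (pow_ne_zero _ hπ0)
  have hsurj : Function.Surjective T := by
    have h1 : Module.finrank K (Fin N → M₀) = N * Module.finrank K M₀ := by
      rw [Module.finrank_pi_fintype]
      simp
    have h2 := LinearMap.finrank_le_finrank_of_injective hinj
    exact (LinearMap.injective_iff_surjective_of_finrank_eq_finrank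
      (le_antisymm h2 (by rw [h1]; exact hfin))).1 hinj
  obtain ⟨a, ha⟩ := hsurj ⟨w, hwM⟩
  have hva : ∀ i, v ((a i : M₀) : E) ≤ 1 := by
    intro i
    by_cases h0 : ((a i : M₀) : E) = 0
    · rw [h0, map_zero]; exact zero_le_one
    obtain ⟨k, hk1, hk2⟩ := hterm a i h0
    have h1 := hmax a i
    rw [ha, hk2] at h1
    have h2 : v π ^ ((N : ℤ) * k + (i : ℕ)) ≤ v π ^ (0 : ℤ) := by
      rw [zpow_zero]; exact h1.trans hw
    have h3 : 0 ≤ (N : ℤ) * k + (i : ℕ) := hmono.le_iff_ge.1 h2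
    have h4 : 0 ≤ k := by
      by_contra hk
      have h5 : k ≤ -1 := by omega
      have h6 : (N : ℤ) * k ≤ N * (-1) := mul_le_mul_of_nonneg_left h5 (by positivity)
      have h7 := i.2
      have h8 : ((i : ℕ) : ℤ) < N := by exact_mod_cast h7
      linarith
    rw [hk1, ← zpow_zero (v π)]
    exact hmono.le_iff_ge.2 (by positivity)
  refine ⟨a, hva, ?_⟩
  rw [← hTc a, ha]

end Pool.Agent.NSE


end

section

/-!
# MUX, module NILXX: the relation for one prime and one eigenfunctional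
-/

set_option autoImplicit false

open NumberField IsDedekindDomain Finset
open scoped nonZeroDivisors Pointwise

namespace Pool.Agent.MUXK

open _root_.Pool.Agent.MU3 _root_.Pool.Agent.RI _root_.Pool.Agent.RID

namespace K_NILXX

/-- An automorphism fixing the prime ideal fixes the fractional ideal. -/
lemma fix_vJ {k L : Type} [Field k] [Field L] [NumberField L] [Algebra k L] (g : L ≃ₐ[k] L)
    (v : HeightOneSpectrum (𝓞 L)) (h : g • v.asIdeal = v.asIdeal) : g • vJ v = vJ v := by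
  apply Units.ext
  ext x
  rw [RI.mem_smul]
  show g.symm x ∈ (v.asIdeal : FractionalIdeal (𝓞 L)⁰ L) ↔
    x ∈ (v.asIdeal : FractionalIdeal (𝓞 L)⁰ L)
  rw [FractionalIdeal.mem_coeIdeal, FractionalIdeal.mem_coeIdeal]
  constructor
  · rintro ⟨y, hy, hx⟩
    refine ⟨g • y, ?_, ?_⟩
    · rw [← h]; exact Ideal.smul_mem_pointwise_smul_iff.mpr hy
    · show g (algebraMap (𝓞 L) L y) = x
      rw [hx]; exact g.apply_symm_apply x
  · rintro ⟨y, hy, hx⟩
    refine ⟨g⁻¹ • y, ?_, ?_⟩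
    · have : g • (g⁻¹ • y) ∈ g • v.asIdeal := by rw [smul_inv_smul, h]; exact hy
      exact Ideal.smul_mem_pointwise_smul_iff.mp this
    · show g.symm (algebraMap (𝓞 L) L y) = g.symm x
      rw [hx]

lemma fix_SJ {k L : Type} [Field k] [Field L] [NumberField L] [Algebra k L] (S : Finset ℕ)
    (g : L ≃ₐ[k] L)
    (h : ∀ v : HeightOneSpectrum (𝓞 L), Above S v → g • v.asIdeal = v.asIdeal) (s : J L)
    (hs : s ∈ SJ S L) : g • s = s := by
  unfold SJ at hs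
  induction hs using Subgroup.closure_induction with
  | mem x hx => obtain ⟨v, hv, rfl⟩ := hx; exact fix_vJ g v (h v hv)
  | one => exact smul_one g
  | mul x y _ _ hx hy => rw [smul_mul', hx, hy]
  | inv x _ hx => rw [smul_inv', hx]

/-- The congruence for `h⁻¹ c` modulo `lam` gives the one for `c` modulo `h lam`. -/
lemma tr {k L : Type} [Field k] [Field L] [NumberField L] [Algebra k L] (h : L ≃ₐ[k] L)
    (c : (𝓞 L)ˣ) (e b : ℕ) (a : ℤ) (I : Ideal (𝓞 L))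
    (hh : ((h⁻¹ • c : (𝓞 L)ˣ) : 𝓞 L) ^ e - (a : 𝓞 L) ^ b ∈ I) :
    (c : 𝓞 L) ^ e - (a : 𝓞 L) ^ b ∈ h • I := by
  have h1 : h • (((h⁻¹ • c : (𝓞 L)ˣ) : 𝓞 L) ^ e - (a : 𝓞 L) ^ b) ∈ h • I :=
    Ideal.smul_mem_pointwise_smul_iff.mpr hh
  have h2 : ((h⁻¹ • c : (𝓞 L)ˣ) : 𝓞 L) = h⁻¹ • (c : 𝓞 L) := rfl
  have h3 : h • (a : 𝓞 L) = (a : 𝓞 L) :=
    map_intCast (MulSemiringAction.toRingHom (L ≃ₐ[k] L) (𝓞 L) h) a
  rw [smul_sub, smul_pow', smul_pow', h2, smul_inv_smul, h3] at h1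
  exact h1

section grp

variable {G : Type} [Group G] {p n : ℕ} [Fact p.Prime] (γ : G)

/-- `γ ^ i` for `i` modulo `p ^ n`. -/
def gz {G : Type} [Group G] (p n : ℕ) (γ : G) (i : ZMod (p ^ n)) : G := γ ^ i.val

lemma gz_cast (ho : orderOf γ = p ^ n) (k : ℕ) : gz p n γ (k : ZMod (p ^ n)) = γ ^ k := by
  unfold gz
  rw [ZMod.val_natCast, ← ho, pow_mod_orderOf]

lemma gz_add (ho : orderOf γ = p ^ n) (i j : ZMod (p ^ n)) :
    gz p n γ (i + j) = gz p n γ i * gz p n γ j := by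
  unfold gz
  rw [ZMod.val_add, ← pow_add]
  conv_lhs => rw [show (i.val + j.val) % p ^ n = (i.val + j.val) % orderOf γ by rw [ho]]
  rw [pow_mod_orderOf]

lemma gz_zero : gz p n γ 0 = 1 := by
  unfold gz
  rw [ZMod.val_zero, pow_zero]

lemma gz_neg (ho : orderOf γ = p ^ n) (i : ZMod (p ^ n)) : gz p n γ (-i) = (gz p n γ i)⁻¹ := by
  apply eq_inv_of_mul_eq_one_left
  rw [← gz_add γ ho, neg_add_cancel, gz_zero]

lemma gz_bij (D : Subgroup G) (hc : (Nat.card D).Coprime p) (ho : orderOf γ = p ^ n)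
    (hg : ∀ h : G, ∃ δ ∈ D, ∃ i : ℕ, h = δ * γ ^ i) :
    Function.Bijective (fun s : D × ZMod (p ^ n) => (s.1 : G) * gz p n γ s.2) := by
  constructor
  · rintro ⟨δ, i⟩ ⟨δ', i'⟩ h
    simp only at h
    have h1 : (δ' : G)⁻¹ * δ = gz p n γ (i' - i) := by
      rw [sub_eq_add_neg, gz_add γ ho, gz_neg γ ho, inv_mul_eq_iff_eq_mul, ← mul_assoc, ← h,
        mul_assoc, mul_inv_cancel, mul_one]
    have h2 : orderOf (δ'⁻¹ * δ) ∣ Nat.card D := orderOf_dvd_natCard _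
    have h3 : orderOf (gz p n γ (i' - i)) ∣ p ^ n := by
      have := orderOf_pow_dvd (x := γ) (i' - i).val
      rw [ho] at this
      exact this
    have h4 : orderOf (gz p n γ (i' - i)) = 1 := by
      rw [← h1] at h3 ⊢
      have h5 : orderOf ((δ' : G)⁻¹ * δ) = orderOf (δ'⁻¹ * δ) := by
        rw [← Subgroup.orderOf_coe]; rfl
      rw [h5] at h3 ⊢
      have h6 : (Nat.card D).Coprime (p ^ n) := Nat.Coprime.pow_right n hc
      exact Nat.eq_one_of_dvd_coprimes h6 h2 h3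
    rw [orderOf_eq_one_iff] at h4
    have h7 : (i' - i) = 0 := by
      have h8 : γ ^ (i' - i).val = 1 := h4
      have h9 : orderOf γ ∣ (i' - i).val := orderOf_dvd_of_pow_eq_one h8
      rw [ho] at h9
      have h10 := Nat.eq_zero_of_dvd_of_lt h9 (ZMod.val_lt _)
      exact (ZMod.val_eq_zero _).mp h10
    have h8 : δ' = δ := by
      rw [h4, inv_mul_eq_one] at h1
      exact Subtype.ext h1
    rw [h8, sub_eq_zero.mp h7]
  · intro h
    obtain ⟨δ, hδ, i, hi⟩ := hg h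
    refine ⟨(⟨δ, hδ⟩, (i : ZMod (p ^ n))), ?_⟩
    simp only [gz_cast γ ho]
    exact hi.symm

end grp

lemma f_prod {I F ι : Type} [CommGroup I] [Field F] (f : I → F)
    (hf : ∀ x y, f (x * y) = f x + f y) (s : Finset ι) (x : ι → I) :
    f (∏ i ∈ s, x i) = ∑ i ∈ s, f (x i) := by
  have h1 : f 1 = 0 := by
    have := hf 1 1
    rw [mul_one] at this
    linear_combination -this
  classical
  induction s using Finset.induction_on with
  | empty => rw [prod_empty, sum_empty, h1]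
  | insert a s ha ih => rw [prod_insert ha, sum_insert ha, hf, ih]

lemma f_pow {I F : Type} [CommGroup I] [Field F] (f : I → F)
    (hf : ∀ x y, f (x * y) = f x + f y) (x : I) (n : ℕ) : f (x ^ n) = n * f x := by
  induction n with
  | zero =>
    rw [pow_zero, Nat.cast_zero, zero_mul]
    have := hf 1 1
    rw [mul_one] at this
    linear_combination -this
  | succ n ih => rw [pow_succ, hf, ih]; push_cast; ring

/-- The value of `lg` on the unit `sUnit`. -/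
lemma lg_sUnit {p : ℕ} [Fact p.Prime] {k L F : Type} [Field k] [Field L] [NumberField L] [Algebra k L] [Field F]
    [CharP F p]
    (D : Subgroup (L ≃ₐ[k] L)) [Fintype D] (γ : L ≃ₐ[k] L) (m n : ℕ) (χ : D →* Fˣ)
    (θ : F →+ ZMod p) (c : (𝓞 L)ˣ) (lg : (𝓞 L)ˣ →* Multiplicative (ZMod p)) :
    Multiplicative.toAdd (lg (sUnitP p D γ m n χ θ c)) =
      θ (∑ δ : D, ((χ δ)⁻¹ : Fˣ) * ∑ i ∈ range (p ^ (n - m)),
        ZMod.castHom (dvd_refl p) F
          (Multiplicative.toAdd (lg ((δ : L ≃ₐ[k] L) • (γ ^ (p ^ m)) ^ i • c)))) := by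
  unfold sUnitP
  rw [map_prod, toAdd_prod, map_sum]
  refine sum_congr rfl fun δ _ => ?_
  rw [map_pow, toAdd_pow, ng_apply, smul_prod', map_prod, toAdd_prod,
    ← map_sum (ZMod.castHom (dvd_refl p) F)]
  set z : ZMod p := ∑ i ∈ range (p ^ (n - m)),
    Multiplicative.toAdd (lg ((δ : L ≃ₐ[k] L) • (γ ^ (p ^ m)) ^ i • c)) with hz
  have h1 : ZMod.castHom (dvd_refl p) F z = ((z.val : ℕ) : F) := by
    conv_lhs => rw [← ZMod.natCast_zmod_val z]
    rw [map_natCast]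
  rw [h1, mul_comm, ← nsmul_eq_mul, map_nsmul, nsmul_eq_mul, nsmul_eq_mul,
    ZMod.natCast_zmod_val, ZMod.natCast_zmod_val, mul_comm]

end K_NILXX

open _root_.Pool.Agent.MUXK.K_NILXX in
theorem t_NILXX (h1 : S_ALGX) (h2 : S_LGX) : S_NILXX := by
  intro p _ F _ _ k L _ _ _ _ _ _ n m m₀ γ D _ hT hmn S hfix c χ θ f hf hprin hχ lam q hgood hK hncube j
  obtain ⟨a, lg, ha1, ha2, hlg, hcube⟩ := h2 p L lam q hgood.prime
    (dvd_trans (dvd_mul_left p 2) hgood.dvd) hgood.card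
  set g₀ : L ≃ₐ[k] L := γ ^ (p ^ m₀) with hg₀
  -- the function f'
  let f' : J L → F := fun x => f (g₀ • x) - f x
  have hf' : ∀ x y, f' (x * y) = f' x + f' y := by
    intro x y
    simp only [f', smul_mul', hf]
    ring
  have hcomm : ∀ (σ τ : L ≃ₐ[k] L) (x : J L), σ • τ • x = τ • σ • x := by
    intro σ τ x
    rw [← mul_smul, hT.comm, mul_smul]
  have hf'χ : ∀ (δ : D) (x : J L), f' ((δ : L ≃ₐ[k] L) • x) = (χ δ : F) * f' x := by
    intro δ x
    simp only [f']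
    rw [hcomm, hχ, hχ]
    ring
  have hf'prin : ∀ (σ : L ≃ₐ[k] L) (κ : Lˣ), f' (σ • prin κ) = 0 := by
    intro σ κ
    simp only [f']
    rw [smul_prin, smul_prin, hprin _ ⟨_, rfl⟩, hprin _ ⟨_, rfl⟩, sub_zero]
  have hf'S : ∀ (σ : L ≃ₐ[k] L) (s : J L), s ∈ SJ S L → f' (σ • s) = 0 := by
    intro σ s hs
    simp only [f']
    rw [hcomm, fix_SJ S g₀ hfix s hs, sub_self]
  have h3 : (p : F) = 0 := CharP.cast_eq_zero F p
  -- the exponents
  let b : (L ≃ₐ[k] L) → ℕ := fun h => (Multiplicative.toAdd (lg (h⁻¹ • c))).val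
  obtain ⟨κ, I, s, hs, hrel⟩ := hK a ha1 ha2 b
    (fun h => tr h c _ _ a _ (hlg (h⁻¹ • c)))
  have hsum : ∀ σ : L ≃ₐ[k] L, ∑ h : L ≃ₐ[k] L, (b h : F) * f' (σ • h • vJ lam) = 0 := by
    intro σ
    have e1 : f' (σ • ∏ h : L ≃ₐ[k] L, (h • vJ lam) ^ b h) =
        ∑ h : L ≃ₐ[k] L, (b h : F) * f' (σ • h • vJ lam) := by
      rw [smul_prod', f_prod f' hf']
      refine sum_congr rfl fun h _ => ?_
      rw [smul_pow', f_pow f' hf']
    rw [← e1, hrel, smul_mul', smul_mul', smul_pow', hf', hf', f_pow f' hf', hf'prin, hf'S _ _ hs]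
    push_cast
    rw [h3]
    ring
  -- the function x and the coefficients
  let x : ZMod (p ^ n) → F := fun i => f' (gz p n γ i • vJ lam)
  let β : ZMod (p ^ n) → F := fun i => ∑ δ : D, (χ δ : F) * (b ((δ : L ≃ₐ[k] L) * gz p n γ i) : F)
  have hbij := gz_bij γ D hT.cop hT.ord hT.gen
  have hA : ∀ j, ∑ i, β i * x (i + j) = 0 := by
    intro j
    rw [← hsum (gz p n γ j)]
    rw [← hbij.sum_comp (fun h : L ≃ₐ[k] L => (b h : F) * f' (gz p n γ j • h • vJ lam))]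
    rw [Fintype.sum_prod_type_right]
    refine sum_congr rfl fun i _ => ?_
    simp only [β, x]
    rw [sum_mul]
    refine sum_congr rfl fun δ _ => ?_
    have e2 : gz p n γ j • ((δ : L ≃ₐ[k] L) * gz p n γ i) • vJ lam =
        (δ : L ≃ₐ[k] L) • gz p n γ (i + j) • vJ lam := by
      rw [← mul_smul, ← mul_smul, gz_add γ hT.ord]
      congr 1
      rw [hT.comm (gz p n γ j), mul_assoc]
    rw [e2, hf'χ]
    ring
  have hB : (∑ i ∈ range (p ^ (n - m)), β (-((p ^ m * i : ℕ) : ZMod (p ^ n)))) ≠ 0 := by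
    intro h0
    have hne : lg (sUnitP p D γ m n χ θ c) ≠ 1 := by
      intro h
      obtain ⟨v, hv⟩ := hcube _ h
      exact hncube v hv
    apply hne
    have e3 := lg_sUnit D γ m n χ θ c lg
    have e4 : (∑ δ : D, ((χ δ)⁻¹ : Fˣ) * ∑ i ∈ range (p ^ (n - m)),
        ZMod.castHom (dvd_refl p) F
          (Multiplicative.toAdd (lg ((δ : L ≃ₐ[k] L) • (γ ^ (p ^ m)) ^ i • c)))) = (0 : F) := by
      rw [← h0]
      simp only [β]
      rw [sum_comm]
      rw [← Equiv.sum_comp (Equiv.inv D)]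
      refine sum_congr rfl fun δ _ => ?_
      rw [mul_sum]
      refine sum_congr rfl fun i _ => ?_
      simp only [Equiv.inv_apply, map_inv, inv_inv, b]
      congr 1
      have e5 : ((δ : L ≃ₐ[k] L) * gz p n γ (-((p ^ m * i : ℕ) : ZMod (p ^ n))))⁻¹ • c =
          ((δ⁻¹ : D) : L ≃ₐ[k] L) • (γ ^ (p ^ m)) ^ i • c := by
        rw [gz_neg γ hT.ord, gz_cast γ hT.ord, mul_inv_rev, inv_inv, hT.comm, mul_smul, pow_mul]
        rfl
      rw [e5]
      set z := Multiplicative.toAdd (lg (((δ⁻¹ : D) : L ≃ₐ[k] L) • (γ ^ (p ^ m)) ^ i • c))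
      conv_lhs => rw [← ZMod.natCast_zmod_val z]
      rw [map_natCast]
    rw [e4, map_zero] at e3
    exact e3
  have hfin := h1 p F m n hmn β x hA hB (j : ZMod (p ^ n))
  rw [← Nat.cast_add] at hfin
  simp only [x, f'] at hfin
  rw [gz_cast γ hT.ord, gz_cast γ hT.ord, pow_add, mul_smul, hcomm g₀ (γ ^ j), hcomm g₀ (γ ^ j)]
    at hfin
  linear_combination hfin

end Pool.Agent.MUXK


end

section

/-!
# MUX, block J, general prime above `p` (helper34)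

The statements of `StJX.lean` in which the hypothesis that `p` splits was used, now for any prime ideal `P` above `p`: `p = 3`
split, inert or ramified, `p = 2` split or inert. `e` is `1` or `2`, with `p ∉ P²` if `e = 1`. The level `f` is divisible by a
given number `d` prime to `p`. The proofs are the files `J_X.lean`, with small changes.
-/

set_option autoImplicit false

open NumberField IsDedekindDomain
open scoped nonZeroDivisors Pointwise

namespace Pool.Agent.MUXJ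

open _root_.MU3 _root_.Pool.Agent.MU3 _root_.Pool.Agent.MU3A _root_.Pool.Agent.MU3B _root_.Pool.Agent.RI _root_.Pool.Agent.RID
  _root_.Pool.Agent.MUX _root_.Pool.Agent.ME _root_.Pool.Agent.MUXK

noncomputable section

/-- the inputs for all pairs `K₀ ≤ K`, all levels `f` prime to `p` and divisible by `d` -/
def InpG_E (p d : ℕ) (A B : ℤ) (V : ValuationSubring ℂ) : Prop :=
  ∀ (f : ℕ), f ≠ 0 → ¬ p ∣ f → d ∣ f →
  ∀ (K₀ K : IntermediateField ℚ ℂ) (Bn : ℕ → IntermediateField ℚ ℂ)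
    [FiniteDimensional ℚ (kk A B)] [FiniteDimensional ℚ K] [∀ n, FiniteDimensional ℚ ↥(K ⊔ Bn n)],
    SetX p (kk A B) K₀ K Bn → (∀ y ∈ K, y ∈ RFE (idl (A := A) (B := B) (lvX p f 0))) →
    (∀ y ∈ RFE (⊤ : Ideal (OO A B)), y ∈ K) →
    ∀ (hk : ∀ n, kk A B ≤ K ⊔ Bn n) (hk₀ : ∀ n, kk A B ≤ K₀ ⊔ Bn n) (hkK : kk A B ≤ K₀),
    ∃ (S : Finset ℕ) (c c₀ : ℕ → ℂ) (n₁ : ℕ),
      InpX (IsLocalRing.ResidueField V) p (kk A B) K₀ K Bn hk hk₀ hkK S c c₀ n₁

/-- JLEVG: a field of degree prime to `p` over `k` is contained in a ray class field of level `f q0`.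
PROOF. `J_LEV.lean`, with `f = d M'` (`M = p^j M'`, `p ∤ M'`). -/
def Sj_LEVG_E : Prop := ∀ (p d : ℕ) (A B : ℤ), CQ A B → p = 2 ∨ p = 3 → d ≠ 0 → ¬ p ∣ d →
    (p = 3 → 2 ∣ d) →
    TorXE A B → NLex_E A B →
    ∀ (K : IntermediateField ℚ ℂ) [FiniteDimensional ℚ K] (hk : kk A B ≤ K),
    ¬ p ∣ Module.finrank (kk A B) (IntermediateField.extendScalars hk) → ∀ M : ℕ, M ≠ 0 →
    (∀ x ∈ K, x ∈ RFE (idl (A := A) (B := B) M)) →
    ∃ f : ℕ, f ≠ 0 ∧ ¬ p ∣ f ∧ d ∣ f ∧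
      ∀ x ∈ K, x ∈ RFE (idl (A := A) (B := B) (lvX p f 0))

/-- JSETG: the large field `K`.
Uses Sj_DIR_E, Sj_RAMG, Sj_INJ_E, Sj_ROT, Sj_LDX, Sj_GAL_E, Sj_LEVG_E. PROOF. `J_SET.lean`. `2 p ∣ lvX p f 0` because `2 ∣ d ∣ f` for `p = 3` (hypothesis). The contradiction: `q0 p * (p - 1) ∣ e * |I| ∣ e * [K₁ : k]`. `p = 3`: `6 ∣ e [K₀ : k]`, `e ≤ 2`, so
`3 ∣ [K₀ : k]`, false. `p = 2`: `e = 1`, `4 ∣ [K₁ : k]`, `[K₁ : K₀] ≤ 2`, so `2 ∣ [K₀ : k]`, false. -/
def Sj_SETG_E : Prop := ∀ (p e d : ℕ) (A B : ℤ) (P : Ideal (OO A B)) (V : ValuationSubring ℂ),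
    AboX p e A B P V → d ≠ 0 → ¬ p ∣ d → (p = 3 → 2 ∣ d) → UnrH_E A B V → TorXE A B → NLex_E A B →
    ∀ (K₀ : IntermediateField ℚ ℂ) [FiniteDimensional ℚ K₀] (hk : kk A B ≤ K₀),
    ¬ p ∣ Module.finrank (kk A B) (IntermediateField.extendScalars hk) → TorU_E A B K₀ →
    (∃ ω ∈ K₀, IsPrimitiveRoot ω p) →
    ∀ (Bn : ℕ → IntermediateField ℚ ℂ), (∀ n, IsLayer p n (Bn n)) → Monotone Bn →
    ∃ (K : IntermediateField ℚ ℂ) (_ : FiniteDimensional ℚ K) (f : ℕ),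
      SetX p (kk A B) K₀ K Bn ∧ f ≠ 0 ∧ ¬ p ∣ f ∧ d ∣ f ∧
      (∀ y ∈ K, y ∈ RFE (idl (A := A) (B := B) (lvX p f 0))) ∧
      ∀ y ∈ RFE (⊤ : Ideal (OO A B)), y ∈ K

/-- JOMGG: adjoining the `p`-th roots of unity, `p = 2, 3`.
PROOF. `J_OMG.lean` (only `CQ` and `p = 2 ∨ p = 3` are used there). -/
def Sj_OMGG_E : Prop := ∀ (p : ℕ) (A B : ℤ), CQ A B → p = 2 ∨ p = 3 → TorXE A B → NLex_E A B →
    ∀ (F : IntermediateField ℚ ℂ) [FiniteDimensional ℚ F] (hk : kk A B ≤ F), TorU_E A B F →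
    ¬ p ∣ Module.finrank (kk A B) (IntermediateField.extendScalars hk) →
    ∃ (F₁ : IntermediateField ℚ ℂ) (h : F ≤ F₁) (_ : FiniteDimensional ℚ F₁), TorU_E A B F₁ ∧
      (∃ ω ∈ F₁, IsPrimitiveRoot ω p) ∧ IsGalois F (IntermediateField.extendScalars h) ∧
      ¬ p ∣ Module.finrank F (IntermediateField.extendScalars h) ∧
      ¬ p ∣ Module.finrank (kk A B) (IntermediateField.extendScalars (hk.trans h))

/-- JFING: the main theorem for all fields, from the inputs.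
Uses Sj_RES, Sj_LAY, Sj_DIR_E, Sj_GAL_E, Sj_SETG_E, Sj_UP, Sj_SUB, Sj_OMGG_E, Sj_FLD, S_MAINKX, P_SYL, P_PEX. PROOF. `J_FIN.lean`. -/
def Sj_FING_E : Prop := ∀ (p e d : ℕ) (A B : ℤ) (P : Ideal (OO A B)) (V : ValuationSubring ℂ),
    AboX p e A B P V → d ≠ 0 → ¬ p ∣ d → (p = 3 → 2 ∣ d) → UnrH_E A B V → TorXE A B → NLex_E A B →
    InpG_E p d A B V →
    ∀ (F M K : IntermediateField ℚ ℂ) [FiniteDimensional ℚ M] (_ : kk A B ≤ F) (h : F ≤ M)
    (a : ℕ), TorU_E A B F → IsGalois F (IntermediateField.extendScalars h) →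
    Module.finrank F (IntermediateField.extendScalars h) = p ^ a → K ≤ M →
    ∃ C : ℕ, ∀ (n : ℕ) (Q : IntermediateField ℚ ℂ), IsLayer p n Q →
      padicValNat p (classNo (K ⊔ Q)) ≤ C * (n + 1) ^ C

end

end Pool.Agent.MUXJ


end

section

/-!
# ME2: `p = 2` for the exceptional field `ℚ(i)` (`2` is ramified): definitions and final statements of the blocks (helper77)

Twin of `Pool/Agent/N2/DefsR2.lean` (case `A ≡ 3` modulo 4, `dR A = 2`) in the frame of `Pool/Agent/ME/DefsE.lean`, `(A, B) = (-1, 0)`, `w = i`, `P = (1 + i)`. The normalised lattice `L = Om O` has `(g₂, g₃) = (4, 0)`,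
the curve `y² = x³ - x`, `x = ℘`, `y = ℘'/2`, `x(i z) = -x(z)`. The points of order two are rational over `k`, all levels are even, `O^* → (O/2)^*` is onto, the pairs of `XXE` have `x ≡ 1` modulo 2. Class number one.
Good supersingular model at `V | 2` (`GoodQ` of `DefsR2.lean`, it depends only on the lattice): `u² = ℘(w2) - ℘(w1) ∈ RFE (3)`, `v(u)² = v 2` (multiplicatively) since `g₂³ = 64 = u¹² a3³ (a1³ - 27 a3)`. For odd `f` divisible by 3 the field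
`RFE (2 f)` is the ray class field modulo `2 f`; its inertia group at `V` has order two, acts as `x ↦ -x` on the `x`-coordinates of the points of order three (`x² = 1 ± 2/√3`) and is faithful on them; the values of `v` on `RFE (2 f)` are in `(1/4) ℤ`.
`K = K₀` (the degree of `K₀ / k` is odd, `i ∈ k`, `√2 ∉ K₀`), so the degrees are as in `SetX` (no shift): `InpG_E 2 d`.

The characters: `e (ζ x) = ζ e x` for the four units (`IsEIE`), `e = e0 κ`, `e0` of odd order, trivial on the units, `κ` a character of `(O/q₁)^*` with values in `μ_4`, `κ ζ = ζ` (`q₁` a prime of degree one above `q₁ ≡ 5` modulo 8, for instance 5). `r` odd: `e^(4 r) = 1`. `i ≡ 1` modulo `m_V`.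
THE FACTOR 1/2: the sum over `x ≡ 1` modulo 2 is `1/2` of the sum over all `x`; so `1/2 * ∑ (ST(25^j) + ST(-(25^j)))` of `DefsR2.lean` becomes `1/4 * ∑ ..` (`ST` for all `x`), and `PhiKE/2` (first coefficient `kk i0`) takes the place of `PhiK`. The numbers are those of `DefsR2.lean` for `dR A = 2`:
EFIN `5/4`, `7/4` (for sums over `XXE` with the factor `1/2`, `TT2E`); TYF: `PhiKE/(u om)` in `pi KI`; GPT: `v(PhiKE_(1/8, 1/32)/2) < 0`; HFIN: `v(1/4 ∑ ..) < 7/4`.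

* `SetT4` : standing hypotheses. `f` odd, divisible by 3.
* `KapF4`, `OddF4` : twins of `KapF`, `OddF`; `OddQ`, `GoodQ` are used as they are, `HalfSE`, `TT2E`, `InCycE` are in `Defs3.lean`.
* `T4_KAP`, `T4_RFIN`, `T4_EFIN`, `T4_TYF`, `T4_GPT`, `T4_HFIN`, `T4_INPG` : twins of `SQ_KAP`, ..; `S2_KEY0` is used as it is.
-/

set_option autoImplicit false

namespace Pool.Agent.ME2

open _root_.MU3 _root_.Pool.Agent.MU3A _root_.Pool.Agent.MU3B _root_.Pool.Agent.RI _root_.Pool.Agent.MUX _root_.Pool.Agent.MUXE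
  _root_.Pool.Agent.MuSym _root_.Pool.Agent.MUXH _root_.Pool.Agent.NS _root_.Pool.Agent.MUXK _root_.Pool.Agent.MUXJ OnePoint
open _root_.Pool.Agent.ME hiding ActE
open _root_.Pool.Agent.N2 (GoodQ et yt WT OddQ dR PTq)

noncomputable section

/-- `D = -4`: a character modulo `f` with values in `μ_4`, the identity on the units -/
structure KapF4 {A B : ℤ} (f : ℕ) (κ : OO A B → ℂ) : Prop where
  one : κ 1 = 1
  mul : ∀ x y, κ (x * y) = κ x * κ y
  unit : ∀ z : OO A B, IsUnit z → κ z = emb z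
  per : ∀ x y, x - y ∈ idl (A := A) (B := B) f → κ x = κ y
  pow : ∀ x, IsCoprime (sp x) (idl (A := A) (B := B) f) → κ x ^ 4 = 1

/-- `D = -4`, `2 = P²`: the standing hypotheses -/
structure SetT4 (A B : ℤ) (P : Ideal (OO A B)) (V : ValuationSubring ℂ) (f : ℕ) : Prop where
  case : CaseE A B
  hB : B = 0
  hP : IsPN 2 P
  hV : OverI V P
  f0 : f ≠ 0
  fp : ¬ 2 ∣ f
  fD : 3 * absD A B ∣ 8 * (f : ℤ)
  kap : ∃ κ : OO A B → ℂ, KapF4 f κ

/-- the characters: `e (ζ x) = ζ e x`, extended by zero to the elements not prime to `2 f`, of conductor dividing `f` -/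
structure OddF4 {A B : ℤ} (f : ℕ) (e : OO A B → ℂ) : Prop extends
    IsEIE (idl (A := A) (B := B) (2 * f)) e where
  cond : ∀ x y, IsCoprime x ((2 * f : ℕ) : OO A B) → IsCoprime y ((2 * f : ℕ) : OO A B) →
    x - y ∈ idl (A := A) (B := B) f → e x = e y

/-! ## Final statements of the blocks -/

/-- (KAP) the level `d` (`15`). -/
def T4_KAP : Prop :=
  ∀ A B : ℤ, CaseE A B → B = 0 → ∃ d : ℕ, d ≠ 0 ∧ ¬ 2 ∣ d ∧ 3 * absD A B ∣ 8 * (d : ℤ) ∧
    ∃ κ : OO A B → ℂ, KapF4 d κ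

/-- (RFIN, helper77) the reduction of the normalised lattices; an automorphism in the inertia group of `RFE (idl (2 f))` (`f` odd, divisible by 3) acts on the
`x`-coordinates of the points of order three as `1` or as `-1`, and if it fixes them it is trivial on `RFE (idl (2 f))`. -/
def T4_RFIN : Prop :=
  ∀ (A B : ℤ) (P : Ideal (OO A B)) (V : ValuationSubring ℂ), CaseE A B → B = 0 → IsPN 2 P →
    OverI V P → TorXE A B →
    (∀ (b : Ideal (OO A B)) (L : PeriodPair) (om : ℂ), IsNE b L om →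
      ∃ u e a1 a3 : ℂ, GoodQ V L u e a1 a3 ∧ u ^ 2 ∈ RFE (idl (A := A) (B := B) 3) ∧
        e ∈ RFE (idl (A := A) (B := B) 3)) ∧
    ∀ f : ℕ, f ≠ 0 → ¬ 2 ∣ f → 3 ∣ f → ∀ σ : ℂ ≃+* ℂ, FixK A B σ →
      (∀ y ∈ RFE (idl (A := A) (B := B) (2 * f)), y ∈ V → σ y - y ∈ V.nonunits) →
      ((∀ y ∈ RFE (idl (A := A) (B := B) 3), σ y = y) →
        ∀ y ∈ RFE (idl (A := A) (B := B) (2 * f)), σ y = y) ∧
      ((∀ y ∈ RFE (idl (A := A) (B := B) 3), σ y = y) ∨
        ∀ (b : Ideal (OO A B)) (L : PeriodPair) (om : ℂ), IsNE b L om →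
          ∀ w ∉ L.lattice, 3 * w ∈ L.lattice → σ (L.weierstrassP w) = -L.weierstrassP w)

/-- (EFIN) the criterion: additively `v(T(τ)/u) ≥ 5/4`, and `v ≥ 7/4` at squares (`dR A = 2`). `C` is a conjugate family,
products of `Θ_a` over half systems of `XXE`. -/
def T4_EFIN : Prop :=
  ∀ (A B : ℤ) (P : Ideal (OO A B)) (V : ValuationSubring ℂ) (f : ℕ), SetT4 A B P V f →
    TorXE A B → ∀ (ι : Type) [Fintype ι] (R : RepsE A B (2 * f) ι) (u e a1 a3 : ℂ),
    GoodQ V (R.L R.i0) u e a1 a3 → ∀ om : OO A B → ℂ, OddQ f V om →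
    ∀ n : ℕ, 5 ≤ n →
    ∀ (H : ι → Finset ℂ), (∀ i, IsHalf (R.L i) (aX 2 f : ℂ) (H i)) →
    ∀ (D : IntermediateField ℚ ℂ) (h : kk A B ≤ D),
      (∀ y ∈ D, y ∈ RFE (idl (A := A) (B := B) (lvX 2 f n))) → InCycE A B f (2 ^ (n + 2)) D →
    letI := algC h
    ∀ (C : (D ≃ₐ[kk A B] D) → ℂ),
    (∀ τ : D ≃ₐ[kk A B] D, ∃ y : D, (y : ℂ) = C 1 ∧ ((τ y : D) : ℂ) = C τ) →
    (∀ τ : D ≃ₐ[kk A B] D, ∃ S, HalfSE R (lvX 2 f n) h τ S ∧
      C τ = ∏ q ∈ S, ThetaH (R.L q.1) (H q.1) (ptE R (lvX 2 f n) q.1 (Quotient.out q.2))) →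
    (∀ τ : D ≃ₐ[kk A B] D,
      V.valuation (TT2E R om (lvX 2 f n) (aX 2 f) h τ / u) ^ 4 ≤
        V.valuation (2 : ℂ) ^ (2 * dR A + 1)) ∧
    ∀ g : (D ≃ₐ[kk A B] D) → ℤ,
      (∃ y ∈ D, y ^ 2 = ∏ᶠ τ : D ≃ₐ[kk A B] D, C τ ^ g τ) →
      ∀ τ' : D ≃ₐ[kk A B] D,
        V.valuation ((∑ᶠ τ : D ≃ₐ[kk A B] D, (g τ : ℂ) *
          TT2E R om (lvX 2 f n) (aX 2 f) h (τ * τ')) / u) ^ 4 ≤
            V.valuation (2 : ℂ) ^ (2 * dR A + 3)

/-- (TYF) the values: `PhiKE/(u om)` is in `pi KI`, `pi` a unit, the values of `v` on `KI` are in `(1/2) ℤ`; the same `pi`, `KI`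
for all `kk`. -/
def T4_TYF : Prop :=
  ∀ (A B : ℤ) (P : Ideal (OO A B)) (V : ValuationSubring ℂ) (f : ℕ), SetT4 A B P V f →
    TorXE A B → ∀ (ι : Type) [Fintype ι] (R : RepsE A B (2 * f) ι) (u el a1 a3 : ℂ),
    GoodQ V (R.L R.i0) u el a1 a3 →
    ∀ e : OO A B → ℂ, OddF4 f e → ∀ r : ℕ, ¬ 2 ∣ r → (∀ x, e x ≠ 0 → e x ^ (4 * r) = 1) →
    ∃ (pi : ℂ) (KI : Subfield ℂ),
      (∀ kk : ι → ℂ, (∀ i, kk i = 0 ∨ kk i ^ (4 * r) = 1) →
        ∀ x y, ∃ w ∈ KI, PhiKE R e kk x y / (u * R.om R.i0) = pi * w) ∧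
      (∀ w ∈ KI, V.valuation w < 1 → V.valuation w ^ 2 ≤ V.valuation (2 : ℂ)) ∧
      (∃ w ∈ KI, V.valuation w ^ 2 = V.valuation (2 : ℂ)) ∧ V.valuation pi = 1

/-- (GPT) Theorem G+ for the translate `P_(1/8, 1/32)` of `P = PhiKE R e kk / (2 u om_(i0))`: first coefficient `(1 - ζ_8)(1 - ζ_32)`,
`v = 5/16 < 1/3`. -/
def T4_GPT : Prop :=
  ∀ (A B : ℤ) (P : Ideal (OO A B)) (V : ValuationSubring ℂ) (f : ℕ), SetT4 A B P V f →
    TorXE A B → ∀ (ι : Type) [Fintype ι] (R : RepsE A B (2 * f) ι) (u el a1 a3 : ℂ),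
    GoodQ V (R.L R.i0) u el a1 a3 →
    ∀ e : OO A B → ℂ, IsEIE (idl (A := A) (B := B) (2 * f)) e → ∀ r : ℕ, r ≠ 0 →
    (∀ x, e x ≠ 0 → e x ^ r = 1) → ∀ kk : ι → ℂ, V.valuation (kk R.i0) = 1 →
    ∀ N' : ℕ, N' ≠ 0 → absD A B * ((2 * f : ℕ) : ℤ) ^ 2 ∣ (N' : ℤ) →
    ∃ a b c d : ℤ, a * d - b * c = 1 ∧ (N' : ℤ) ∣ c ∧ (N' : ℤ) ∣ d - 1 ∧
      V.valuation (2 : ℂ) < V.valuation (PTq 32 (PTq 8
        (fun x y => PhiKE R e kk x y / (u * R.om R.i0))) ∞ (mob a b c d ∞))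

/-- (HFIN) the character sums: for infinitely many levels `v < 7/4`. -/
def T4_HFIN : Prop :=
  ∀ (A B : ℤ) (P : Ideal (OO A B)) (V : ValuationSubring ℂ) (f : ℕ), SetT4 A B P V f →
    TorXE A B → ∀ (ι : Type) [Fintype ι] (R : RepsE A B (2 * f) ι) (u el a1 a3 : ℂ),
    GoodQ V (R.L R.i0) u el a1 a3 →
    ∀ e : OO A B → ℂ, OddF4 f e → ∀ r : ℕ, ¬ 2 ∣ r → (∀ x, e x ≠ 0 → e x ^ (4 * r) = 1) →
    ∀ kk : ι → ℂ, (∀ i, kk i ^ (4 * r) = 1) →
    ∀ n₀ : ℕ, ∃ n, n₀ ≤ n ∧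
      V.valuation (2 : ℂ) ^ (2 * dR A + 3) <
        V.valuation ((1 / 4 * ∑ j ∈ Finset.range 2, (-1) ^ (1 - j) *
        (STXE R (lvX 2 f n) (2 ^ (n + 2)) (aX 2 f) e kk (25 ^ j) +
          STXE R (lvX 2 f n) (2 ^ (n + 2)) (aX 2 f) e kk (-(25 ^ j)))) / u) ^ 4

/-- (INPG) the inputs of block J. -/
def T4_INPG : Prop :=
  ∀ (A B : ℤ) (P : Ideal (OO A B)) (V : ValuationSubring ℂ) (d : ℕ), CaseE A B → B = 0 →
    IsPN 2 P → OverI V P → TorXE A B → d ≠ 0 → ¬ 2 ∣ d → 3 * absD A B ∣ 8 * (d : ℤ) →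
    (∃ κ : OO A B → ℂ, KapF4 d κ) → InpG_E 2 d A B V

/-- (JFIN) blocks K and J: the main theorem from the inputs. `K = K₀` in `InpG_E`. (`UnrH_E` is trivial: `RFE ⊤ = k`.) -/
def T4_JFIN : Prop :=
  ∀ (A B : ℤ) (P : Ideal (OO A B)) (V : ValuationSubring ℂ) (d : ℕ), CaseE A B → B = 0 →
    IsPN 2 P → OverI V P → d ≠ 0 → ¬ 2 ∣ d → TorXE A B → NLex_E A B → InpG_E 2 d A B V →
    ∀ (F M K : IntermediateField ℚ ℂ) [FiniteDimensional ℚ M] (_ : kk A B ≤ F) (h : F ≤ M)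
    (a : ℕ), TorU_E A B F → IsGalois F (IntermediateField.extendScalars h) →
    Module.finrank F (IntermediateField.extendScalars h) = 2 ^ a → K ≤ M →
    ∃ C : ℕ, ∀ (n : ℕ) (Q : IntermediateField ℚ ℂ), IsLayer 2 n Q →
      padicValNat 2 (classNo (K ⊔ Q)) ≤ C * (n + 1) ^ C

end

end Pool.Agent.ME2


end

section

/-!
# MUX, block HY, module VAL: elementary valuations
-/

set_option autoImplicit false

namespace Pool.Agent.MUXHY

open _root_.MU3 _root_.Pool.Agent.MU3A _root_.Pool.Agent.MU3B _root_.Pool.Agent.MU3F _root_.Pool.Agent.MUX _root_.Pool.Agent.MUXH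
  _root_.Pool.Agent.MuSym OnePoint
open scoped ComplexConjugate

noncomputable section

namespace Val

theorem int_mem (V : ValuationSubring ℂ) (n : ℤ) : (n : ℂ) ∈ V := by
  have h := V.zsmul_mem (V.one_mem) n
  rwa [zsmul_eq_mul, mul_one] at h

theorem int_le (V : ValuationSubring ℂ) (n : ℤ) : V.valuation (n : ℂ) ≤ 1 :=
  (ValuationSubring.valuation_le_one_iff _ _).2 (int_mem V n)

theorem add_lt {V : ValuationSubring ℂ} {x y : ℂ} (hx : V.valuation x < 1)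
    (hy : V.valuation y < 1) : V.valuation (x + y) < 1 :=
  lt_of_le_of_lt (V.valuation.map_add x y) (max_lt hx hy)

theorem mul_lt {V : ValuationSubring ℂ} {x y : ℂ} (hx : V.valuation x ≤ 1)
    (hy : V.valuation y < 1) : V.valuation (x * y) < 1 := by
  rw [map_mul]
  exact lt_of_le_of_lt (mul_le_of_le_one_left' hx) hy

theorem int_one {V : ValuationSubring ℂ} {p : ℕ} (hp : p.Prime) (h3 : V.valuation (p : ℂ) < 1)
    (n : ℤ) (hn : ¬ (p : ℤ) ∣ n) : V.valuation (n : ℂ) = 1 := by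
  refine le_antisymm (int_le V n) (not_lt.1 fun hlt => ?_)
  have hc : IsCoprime (p : ℤ) n :=
    ((Nat.prime_iff_prime_int.1 hp).coprime_iff_not_dvd).2 hn
  obtain ⟨a, b, hab⟩ := hc
  have h1 : V.valuation ((a : ℂ) * (p : ℂ) + (b : ℂ) * (n : ℂ)) < 1 :=
    add_lt (mul_lt (int_le V a) h3) (mul_lt (int_le V b) hlt)
  have h2 : (a : ℂ) * (p : ℂ) + (b : ℂ) * (n : ℂ) = 1 := by exact_mod_cast hab
  rw [h2, map_one] at h1
  exact lt_irrefl _ h1

theorem root_one (V : ValuationSubring ℂ) (r : ℕ) (z : ℂ) (hr : r ≠ 0) (hz : z ^ r = 1) :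
    V.valuation z = 1 := by
  have h : V.valuation z ^ r = 1 := by rw [← map_pow, hz, map_one]
  exact (pow_eq_one_iff_of_nonneg zero_le hr).1 h

/-- the elements of `O` are integral -/
theorem emb_mem {A B : ℤ} (h : MUXF.CQ A B) (V : ValuationSubring ℂ) (x : OO A B) :
    emb x ∈ V := by
  have hw : wC A B ∈ V := by
    rw [← ValuationSubring.valuation_le_one_iff]
    by_contra hc
    push Not at hc
    have e := congrArg V.valuation (MUXF.AlgX.wC_sq h)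
    have h1 : V.valuation ((A : ℂ) + B * wC A B) ≤ V.valuation (wC A B) := by
      refine le_trans (V.valuation.map_add _ _) (max_le ?_ ?_)
      · exact le_trans (int_le V A) hc.le
      · rw [map_mul]
        exact mul_le_of_le_one_left' (int_le V B)
    rw [← e, map_mul] at h1
    have h2 : V.valuation (wC A B) < V.valuation (wC A B) * V.valuation (wC A B) := by
      conv_lhs => rw [← one_mul (V.valuation (wC A B))]
      exact mul_lt_mul_of_pos_right hc (lt_trans zero_lt_one hc)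
    exact absurd h1 (not_le.2 h2)
  exact add_mem (int_mem V _) (mul_mem (int_mem V _) hw)

end Val

theorem ty_VAL : Sy_VAL := by
  intro p A B P V f hS
  have hQ : MUXF.CQ A B := toCQ hS.case.toCQ
  have hp : p.Prime := by
    rcases hS.case.split with ⟨rfl, -⟩ | ⟨rfl, -⟩
    · exact Nat.prime_three
    · exact Nat.prime_two
  have hpv : V.valuation (p : ℂ) < 1 := by
    have h1 := (hS.hV _).2 hS.hP.mem
    have h2 : emb ((p : ℕ) : OO A B) = (p : ℂ) := by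
      have h3 := MUXF.AlgX.emb_intCast hQ (p : ℤ)
      rw [Int.cast_natCast, Int.cast_natCast] at h3
      exact h3
    rw [h2] at h1
    exact (ValuationSubring.mem_nonunits_iff _).1 h1
  have hle : ∀ x : OO A B, V.valuation (emb x) ≤ 1 := fun x =>
    (ValuationSubring.valuation_le_one_iff _ _).2 (Val.emb_mem hQ V x)
  have hpf : ¬ (p : ℤ) ∣ (f : ℤ) := fun h => hS.fp (Int.natCast_dvd_natCast.1 h)
  have hpD : ¬ (p : ℤ) ∣ absD A B := fun h => hpf (h.trans hS.fD)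
  refine ⟨hp, hpv, hle, ?_, Val.int_le V, Val.int_one hp hpv, Val.root_one V, ?_, ?_, ?_, hpD⟩
  · intro x
    constructor
    · intro h hx
      have h1 := (hS.hV x).2 hx
      have h2 : V.valuation (emb x) < 1 := (ValuationSubring.mem_nonunits_iff _).1 h1
      rw [h] at h2
      exact lt_irrefl _ h2
    · intro hx
      refine le_antisymm (hle x) (not_lt.1 fun hlt => hx ?_)
      exact (hS.hV x).1 ((ValuationSubring.mem_nonunits_iff _).2 hlt)
  · have h := Val.int_one hp hpv (f : ℤ) hpf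
    rwa [Int.cast_natCast] at h
  · exact Val.int_one hp hpv _ hpD
  · exact MUXF.AlgX.absD_pos hQ

end

end Pool.Agent.MUXHY


end
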