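import Mathlib
import Pool.Agent.MVF.C030

/-! Parts: RI.COUNTEXT, RI.COUNTACT, RID.P_ALG2, RI.CL, RID.P_CYC, RID.P_STEPC -/

namespace Pool.Agent.RI.CL
end Pool.Agent.RI.CL
namespace Pool.Agent.RI.COUNTACT
end Pool.Agent.RI.COUNTACT
namespace Pool.Agent.RI.COUNTEXT
end Pool.Agent.RI.COUNTEXT
namespace Pool.Agent.RID.ALG2
end Pool.Agent.RID.ALG2
namespace Pool.Agent.RID.CYC
end Pool.Agent.RID.CYC
namespace Pool.Agent.RID.STEPC
end Pool.Agent.RID.STEPC

section

/-!
# Relative Iwasawa theorem: COUNTEXT, exponents of the extended ideal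
-/

open NumberField IsDedekindDomain
open scoped nonZeroDivisors

namespace Pool.Agent.RI

namespace COUNTEXT

/-- The exponent of a nonzero integral ideal is a multiplicity. -/
lemma count_coe_eq (K : Type) [Field K] [NumberField K] (v : HeightOneSpectrum (𝓞 K))
    {J : Ideal (𝓞 K)} (hJ : J ≠ ⊥) :
    FractionalIdeal.count K v (J : FractionalIdeal (𝓞 K)⁰ K) =
      ((multiplicity v.asIdeal J : ℕ) : ℤ) := by
  classical
  rw [FractionalIdeal.count_coe K v hJ, Ideal.count_associates_factors_eq hJ v.isPrime v.ne_bot,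
    HeightOneSpectrum.count_normalizedFactors_eq_multiplicity hJ]

/-- Exponents of the extension of a nonzero integral ideal. -/
lemma count_map (K L : Type) [Field K] [NumberField K] [Field L] [NumberField L]
    [Algebra K L] (v : HeightOneSpectrum (𝓞 K)) (w : HeightOneSpectrum (𝓞 L))
    (h : w.asIdeal.under (𝓞 K) = v.asIdeal) {J : Ideal (𝓞 K)} (hJ : J ≠ ⊥) :
    FractionalIdeal.count L w
        ((J.map (algebraMap (𝓞 K) (𝓞 L)) : Ideal (𝓞 L)) : FractionalIdeal (𝓞 L)⁰ L) =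
      (w.asIdeal.ramificationIdx (𝓞 K) : ℤ) *
        FractionalIdeal.count K v (J : FractionalIdeal (𝓞 K)⁰ K) := by
  have hlies : w.asIdeal.LiesOver v.asIdeal := ⟨h.symm⟩
  have hJ' : J.map (algebraMap (𝓞 K) (𝓞 L)) ≠ ⊥ := Ideal.map_ne_bot_of_ne_bot hJ
  have hw : w.asIdeal.IsPrime := w.isPrime
  rw [count_coe_eq L w hJ', count_coe_eq K v hJ]
  have h1 := Ideal.IsDedekindDomain.emultiplicity_map_eq_ramificationIdx'_mul (v := v.asIdeal)
    (w := w.asIdeal) (I := J) hJ v.irreducible w.irreducible w.ne_bot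
  rw [Ideal.ramificationIdx'_eq_ramificationIdx v.asIdeal w.asIdeal v.ne_bot] at h1
  have fv : FiniteMultiplicity v.asIdeal J :=
    FiniteMultiplicity.of_prime_left v.prime hJ
  have fw : FiniteMultiplicity w.asIdeal (J.map (algebraMap (𝓞 K) (𝓞 L))) :=
    FiniteMultiplicity.of_prime_left w.prime hJ'
  rw [fv.emultiplicity_eq_multiplicity, fw.emultiplicity_eq_multiplicity] at h1
  have h2 : multiplicity w.asIdeal (J.map (algebraMap (𝓞 K) (𝓞 L))) =
      w.asIdeal.ramificationIdx (𝓞 K) * multiplicity v.asIdeal J := by exact_mod_cast h1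
  rw [h2]
  push_cast
  rfl

end COUNTEXT

open _root_.Pool.Agent.RI.COUNTEXT in
/-- COUNTEXT: exponents of the extended ideal. -/
theorem COUNTEXT_thm : COUNTEXT := by
  intro K L _ _ _ _ _ v w h c
  obtain ⟨a, I, ha, haI⟩ := FractionalIdeal.exists_eq_spanSingleton_mul
    (c : FractionalIdeal (𝓞 K)⁰ K)
  have hc : (c : FractionalIdeal (𝓞 K)⁰ K) ≠ 0 := c.ne_zero
  have hI : I ≠ ⊥ := FractionalIdeal.ideal_factor_ne_zero hc haI
  have ha' : algebraMap (𝓞 K) K a ≠ 0 := by
    rw [Ne, map_eq_zero_iff _ (IsFractionRing.injective (𝓞 K) K)]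
    exact ha
  have hs : Ideal.span {a} ≠ ⊥ := by
    rw [Ne, Ideal.span_singleton_eq_bot]
    exact ha
  -- `(a) c = I`
  have e1 : ((Ideal.span {a} : Ideal (𝓞 K)) : FractionalIdeal (𝓞 K)⁰ K) * c = I := by
    rw [haI, ← mul_assoc, FractionalIdeal.coeIdeal_span_singleton,
      FractionalIdeal.spanSingleton_mul_spanSingleton, mul_inv_cancel₀ ha',
      FractionalIdeal.spanSingleton_one, one_mul]
  have e2 : (((Ideal.span {a} : Ideal (𝓞 K)).map (algebraMap (𝓞 K) (𝓞 L)) : Ideal (𝓞 L)) :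
      FractionalIdeal (𝓞 L)⁰ L) * (ext K L c : J L) =
      ((I.map (algebraMap (𝓞 K) (𝓞 L)) : Ideal (𝓞 L)) : FractionalIdeal (𝓞 L)⁰ L) := by
    rw [← FractionalIdeal.extendedHom_coeIdeal_eq_map (K := K),
      ← FractionalIdeal.extendedHom_coeIdeal_eq_map (K := K), ← e1, map_mul]
    rfl
  have hs' : ((Ideal.span {a} : Ideal (𝓞 K)) : FractionalIdeal (𝓞 K)⁰ K) ≠ 0 :=
    FractionalIdeal.coeIdeal_ne_zero.mpr hs
  have hs'' : (((Ideal.span {a} : Ideal (𝓞 K)).map (algebraMap (𝓞 K) (𝓞 L)) : Ideal (𝓞 L)) :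
      FractionalIdeal (𝓞 L)⁰ L) ≠ 0 :=
    FractionalIdeal.coeIdeal_ne_zero.mpr (Ideal.map_ne_bot_of_ne_bot hs)
  have f1 := congrArg (FractionalIdeal.count K v) e1
  have f2 := congrArg (FractionalIdeal.count L w) e2
  rw [FractionalIdeal.count_mul K v hs' hc] at f1
  rw [FractionalIdeal.count_mul L w hs'' (Units.ne_zero _), count_map K L v w h hs,
    count_map K L v w h hI, ← f1, mul_add] at f2
  exact add_left_cancel f2

end Pool.Agent.RI


end

section

/-!
# Relative Iwasawa theorem: exponents of the conjugate ideal (COUNTACT)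
-/

open NumberField IsDedekindDomain
open scoped nonZeroDivisors Pointwise

namespace Pool.Agent.RI

namespace COUNTACT

variable {F K : Type} [Field F] [Field K] [NumberField K] [Algebra F K]

open Classical in
lemma count_ideal (σ : K ≃ₐ[F] K) (v w : HeightOneSpectrum (𝓞 K))
    (h : w.asIdeal = σ • v.asIdeal) (I : Ideal (𝓞 K)) (hI : I ≠ 0) :
    (Associates.mk w.asIdeal).count (Associates.mk (σ • I)).factors =
      (Associates.mk v.asIdeal).count (Associates.mk I).factors := by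
  have hI' : σ • I ≠ 0 := by
    intro h0
    apply hI
    have h1 : σ⁻¹ • (σ • I) = σ⁻¹ • (0 : Ideal (𝓞 K)) := by rw [h0]
    rwa [inv_smul_smul, smul_zero] at h1
  have key : ∀ k : ℕ, k ≤ (Associates.mk w.asIdeal).count (Associates.mk (σ • I)).factors ↔
      k ≤ (Associates.mk v.asIdeal).count (Associates.mk I).factors := by
    intro k
    rw [← Associates.prime_pow_dvd_iff_le (Associates.mk_ne_zero.2 hI') w.associates_irreducible,
      ← Associates.prime_pow_dvd_iff_le (Associates.mk_ne_zero.2 hI) v.associates_irreducible,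
      ← Associates.mk_pow, ← Associates.mk_pow, Associates.mk_le_mk_iff_dvd,
      Associates.mk_le_mk_iff_dvd, Ideal.dvd_iff_le, Ideal.dvd_iff_le, h, ← smul_pow',
      Ideal.pointwise_smul_le_pointwise_smul_iff]
  exact le_antisymm ((key _).1 le_rfl) ((key _).2 le_rfl)

lemma coe_smul_int (σ : K ≃ₐ[F] K) (a : 𝓞 K) :
    algebraMap (𝓞 K) K (σ • a) = σ (algebraMap (𝓞 K) K a) := rfl

lemma span_smul (σ : K ≃ₐ[F] K) (a : 𝓞 K) :
    Ideal.span {σ • a} = σ • (Ideal.span {a} : Ideal (𝓞 K)) := by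
  rw [Ideal.smul_closure, Set.smul_set_singleton]

lemma smul_frac (σ : K ≃ₐ[F] K) (c : J K) (a : 𝓞 K) (I : Ideal (𝓞 K))
    (hc : (c : FractionalIdeal (𝓞 K)⁰ K) =
      FractionalIdeal.spanSingleton (𝓞 K)⁰ (algebraMap (𝓞 K) K a)⁻¹ * I) :
    ((σ • c : J K) : FractionalIdeal (𝓞 K)⁰ K) =
      FractionalIdeal.spanSingleton (𝓞 K)⁰ (algebraMap (𝓞 K) K (σ • a))⁻¹ *
        ((σ • I : Ideal (𝓞 K)) : FractionalIdeal (𝓞 K)⁰ K) := by
  ext x
  rw [mem_smul, hc, FractionalIdeal.mem_singleton_mul, FractionalIdeal.mem_singleton_mul]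
  constructor
  · rintro ⟨y, hy, hxy⟩
    obtain ⟨z, hz, rfl⟩ := (FractionalIdeal.mem_coeIdeal _).1 hy
    refine ⟨algebraMap (𝓞 K) K (σ • z), (FractionalIdeal.mem_coeIdeal _).2
      ⟨σ • z, Ideal.smul_mem_pointwise_smul σ z I hz, rfl⟩, ?_⟩
    have := congrArg σ hxy
    rw [AlgEquiv.apply_symm_apply, map_mul, map_inv₀] at this
    exact this
  · rintro ⟨y, hy, hxy⟩
    obtain ⟨z, hz, rfl⟩ := (FractionalIdeal.mem_coeIdeal _).1 hy
    refine ⟨algebraMap (𝓞 K) K (σ⁻¹ • z), (FractionalIdeal.mem_coeIdeal _).2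
      ⟨σ⁻¹ • z, Ideal.mem_pointwise_smul_iff_inv_smul_mem.1 hz, rfl⟩, ?_⟩
    have := congrArg σ.symm hxy
    rw [map_mul, map_inv₀, coe_smul_int, AlgEquiv.symm_apply_apply] at this
    exact this

end COUNTACT

open _root_.Pool.Agent.RI.COUNTACT in
theorem COUNTACT_thm : COUNTACT := by
  classical
  intro F K _ _ _ _ σ v w h c
  obtain ⟨a, I, ha, hc⟩ := FractionalIdeal.exists_eq_spanSingleton_mul
    (c : FractionalIdeal (𝓞 K)⁰ K)
  have hc0 : (c : FractionalIdeal (𝓞 K)⁰ K) ≠ 0 := c.ne_zero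
  have hc1 : ((σ • c : J K) : FractionalIdeal (𝓞 K)⁰ K) ≠ 0 := (σ • c : J K).ne_zero
  have hI : I ≠ 0 := by
    rintro rfl
    apply hc0
    rw [hc]
    simp
  have ha' : (Ideal.span {a} : Ideal (𝓞 K)) ≠ 0 := by
    simpa using ha
  rw [FractionalIdeal.count_well_defined K v hc0 hc,
    FractionalIdeal.count_well_defined K w hc1 (smul_frac σ c a I hc), span_smul,
    count_ideal σ v w h I hI, count_ideal σ v w h _ ha']

end Pool.Agent.RI


end

section

/-!
# ALG2: the kernel of the norm to the previous layer is killed by `p` if the rank is small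
-/

open Finset Polynomial

namespace Pool.Agent.RID

namespace ALG2

lemma phi_pos (p m : ℕ) [hp : Fact p.Prime] : 0 < p ^ m * (p - 1) :=
  Nat.mul_pos (pow_pos hp.out.pos m) (Nat.sub_pos_of_lt hp.out.one_lt)

/-- `∑_{j < p} X ^ (p ^ m j) = (X - 1) ^ φ + p h`, `h(1) = 1`. -/
lemma poly (p m : ℕ) [hp : Fact p.Prime] :
    ∃ h h₁ : ℤ[X], (∑ j ∈ range p, X ^ (p ^ m * j) : ℤ[X]) =
      (X - 1) ^ (p ^ m * (p - 1)) + C (p : ℤ) * h ∧ h = 1 + (X - 1) * h₁ := by
  have h0 : (C (p : ℤ) : ℤ[X]) ∣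
      (∑ j ∈ range p, X ^ (p ^ m * j) : ℤ[X]) - (X - 1) ^ (p ^ m * (p - 1)) := by
    rw [Polynomial.C_dvd_iff_dvd_coeff]
    intro i
    have h1 : ((∑ j ∈ range p, X ^ (p ^ m * j) : ℤ[X]) - (X - 1) ^ (p ^ m * (p - 1))).map
        (Int.castRingHom (ZMod p)) = 0 := by
      have h2 := Polynomial.cyclotomic_prime_pow_eq_geom_sum (R := ZMod p) (n := m) hp.out
      have h3 := Polynomial.cyclotomic_mul_prime_pow_eq (ZMod p) (p := p) (m := 1)
        (fun h => hp.out.one_lt.ne' (Nat.dvd_one.1 h)) (k := m + 1) (Nat.succ_pos m)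
      rw [mul_one, h2, cyclotomic_one] at h3
      have h4 : p ^ (m + 1) - p ^ (m + 1 - 1) = p ^ m * (p - 1) := by
        rw [Nat.add_sub_cancel, Nat.mul_sub, mul_one, pow_succ]
      rw [h4] at h3
      rw [Polynomial.map_sub, Polynomial.map_pow, Polynomial.map_sub, Polynomial.map_one,
        Polynomial.map_sum, Polynomial.map_X, ← h3, sub_eq_zero]
      refine Finset.sum_congr rfl fun j _ => ?_
      rw [Polynomial.map_pow, Polynomial.map_X, pow_mul]
    have h5 := congrArg (fun q : (ZMod p)[X] => q.coeff i) h1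
    simp only [Polynomial.coeff_map, Polynomial.coeff_zero] at h5
    exact (ZMod.intCast_zmod_eq_zero_iff_dvd _ _).1 h5
  obtain ⟨h, hh⟩ := h0
  have h1 : h.eval 1 = 1 := by
    have h2 := congrArg (Polynomial.eval 1) hh
    rw [Polynomial.eval_sub, Polynomial.eval_mul, Polynomial.eval_C, Polynomial.eval_pow,
      Polynomial.eval_sub, Polynomial.eval_one, Polynomial.eval_X, sub_self,
      zero_pow (phi_pos p m).ne', sub_zero, Polynomial.eval_finsetSum] at h2
    have h3 : ∑ j ∈ range p, Polynomial.eval 1 (X ^ (p ^ m * j) : ℤ[X]) = (p : ℤ) := by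
      simp
    rw [h3] at h2
    have h4 : (p : ℤ) ≠ 0 := by exact_mod_cast hp.out.ne_zero
    have h5 : (p : ℤ) * (h.eval 1) = p * 1 := by rw [mul_one]; exact h2.symm
    exact mul_left_cancel₀ h4 h5
  have h2 : (X - C 1 : ℤ[X]) ∣ h - 1 := by
    rw [Polynomial.dvd_iff_isRoot]
    simp [h1]
  obtain ⟨h₁, hh₁⟩ := h2
  refine ⟨h, h₁, ?_, ?_⟩
  · rw [← hh]; ring
  · rw [Polynomial.C_1] at hh₁
    rw [← hh₁]; ring

section

variable {A : Type} [AddCommGroup A]

lemma mul_ap (f g : AddMonoid.End A) (x : A) : (f * g) x = f (g x) := rfl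

/-- `T^M y = 0` and `h(γ) y = 0` give `y = 0`. -/
lemma inj (γ : AddMonoid.End A) (h h₁ : ℤ[X]) (hh : h = 1 + (X - 1) * h₁) (M : ℕ) (y : A)
    (hT : ((γ - 1) ^ M : AddMonoid.End A) y = 0) (hy : (aeval γ h : AddMonoid.End A) y = 0) :
    y = 0 := by
  obtain ⟨q, hq⟩ : h ∣ 1 ^ M - (1 - h) ^ M := by
    have h2 := sub_dvd_pow_sub_pow (1 : ℤ[X]) (1 - h) M
    rwa [sub_sub_cancel] at h2
  have h3 : (1 : ℤ[X]) = q * h + (-h₁) ^ M * (X - 1) ^ M := by
    have h4 : (1 - h) = -h₁ * (X - 1) := by rw [hh]; ring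
    rw [h4, mul_pow, one_pow] at hq
    rw [mul_comm q h, ← hq]; ring
  have h5 := congrArg (fun r : ℤ[X] => (aeval γ r : AddMonoid.End A) y) h3
  simp only [map_one, map_add, map_mul, map_pow, map_sub, aeval_X] at h5
  rw [AddMonoid.End.one_apply] at h5
  rw [h5]
  show ((aeval γ q : AddMonoid.End A) * aeval γ h) y +
    (((aeval γ (-h₁) : AddMonoid.End A)) ^ M * (γ - 1) ^ M) y = 0
  rw [mul_ap, mul_ap, hy, hT, map_zero, map_zero, add_zero]

variable (p m v : ℕ) (γ : AddMonoid.End A)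

/-- The norm element. -/
def nu : AddMonoid.End A := ∑ j ∈ range p, γ ^ (p ^ m * j)

/-- The elements killed by the norm and by `p ^ v`. -/
def KK : AddSubgroup A where
  carrier := {x | nu p m γ x = 0 ∧ p ^ v • x = 0}
  add_mem' := by
    rintro a b ⟨ha, ha'⟩ ⟨hb, hb'⟩
    exact ⟨by rw [map_add, ha, hb, add_zero], by rw [smul_add, ha', hb', add_zero]⟩
  zero_mem' := ⟨map_zero _, smul_zero _⟩
  neg_mem' := by
    rintro a ⟨ha, ha'⟩
    exact ⟨by rw [map_neg, ha, neg_zero], by rw [smul_neg, ha', neg_zero]⟩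

lemma mem_KK (x : A) : x ∈ KK p m v γ ↔ nu p m γ x = 0 ∧ p ^ v • x = 0 := Iff.rfl

lemma nu_eq : nu p m γ = aeval γ (∑ j ∈ range p, X ^ (p ^ m * j) : ℤ[X]) := by
  rw [map_sum]
  refine Finset.sum_congr rfl fun j _ => ?_
  rw [map_pow, aeval_X]

lemma aeval_comm (f g : ℤ[X]) (x : A) :
    (aeval γ f : AddMonoid.End A) ((aeval γ g : AddMonoid.End A) x) =
      (aeval γ g : AddMonoid.End A) ((aeval γ f : AddMonoid.End A) x) := by
  rw [← mul_ap, ← mul_ap, ← map_mul, ← map_mul, mul_comm]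

/-- `KK` is stable under the polynomials in `γ`. -/
lemma KK_stable (f : ℤ[X]) {x : A} (hx : x ∈ KK p m v γ) :
    (aeval γ f : AddMonoid.End A) x ∈ KK p m v γ := by
  rw [mem_KK] at hx ⊢
  constructor
  · have h1 := hx.1
    rw [nu_eq] at h1 ⊢
    rw [aeval_comm, h1, map_zero]
  · rw [← map_nsmul, hx.2, map_zero]

lemma T_eq : (γ - 1 : AddMonoid.End A) = aeval γ (X - 1 : ℤ[X]) := by
  rw [map_sub, aeval_X, map_one]

lemma Tpow_stable (i : ℕ) {x : A} (hx : x ∈ KK p m v γ) :
    ((γ - 1) ^ i : AddMonoid.End A) x ∈ KK p m v γ := by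
  rw [T_eq, ← map_pow]
  exact KK_stable p m v γ _ hx

/-- `T` is nilpotent on `KK`. -/
lemma nilp [hp : Fact p.Prime] {x : A} (hx : x ∈ KK p m v γ) :
    ((γ - 1) ^ (p ^ m * (p - 1) * v) : AddMonoid.End A) x = 0 := by
  obtain ⟨h, h₁, hh, -⟩ := poly p m
  set N : ℤ[X] := ∑ j ∈ range p, X ^ (p ^ m * j) with hN
  have e1 : (X - 1 : ℤ[X]) ^ (p ^ m * (p - 1)) = N - C (p : ℤ) * h := by
    rw [hh]; ring
  obtain ⟨q, hq⟩ : N ∣ (N - C (p : ℤ) * h) ^ v - (- (C (p : ℤ) * h)) ^ v := by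
    have h2 := sub_dvd_pow_sub_pow (N - C (p : ℤ) * h) (- (C (p : ℤ) * h)) v
    have h3 : N - C (p : ℤ) * h - -(C (p : ℤ) * h) = N := by ring
    rwa [h3] at h2
  have e2 : (X - 1 : ℤ[X]) ^ (p ^ m * (p - 1) * v) = q * N + (-h) ^ v * C ((p : ℤ) ^ v) := by
    rw [pow_mul, e1]
    have h4 : (N - C (p : ℤ) * h) ^ v = N * q + (- (C (p : ℤ) * h)) ^ v := by
      rw [← hq]; ring
    rw [h4, C_pow]
    have h5 : (-(C (p : ℤ) * h)) ^ v = (-h) ^ v * C (p : ℤ) ^ v := by
      rw [← mul_pow]; congr 1; ring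
    rw [h5]; ring
  rw [mem_KK, nu_eq, ← hN] at hx
  rw [T_eq, ← map_pow, e2, map_add, map_mul, map_mul]
  show ((aeval γ q : AddMonoid.End A) * aeval γ N) x +
    ((aeval γ ((-h) ^ v) : AddMonoid.End A) * aeval γ (C ((p : ℤ) ^ v))) x = 0
  rw [mul_ap, mul_ap, hx.1, map_zero, zero_add]
  have h6 : (aeval γ (C ((p : ℤ) ^ v)) : AddMonoid.End A) x = p ^ v • x := by
    rw [aeval_C]
    have h7 : (algebraMap ℤ (AddMonoid.End A)) ((p : ℤ) ^ v) =
        ((p ^ v : ℕ) : AddMonoid.End A) := by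
      rw [algebraMap_int_eq]
      push_cast
      simp
    rw [h7]
    rfl
  rw [h6, hx.2, map_zero]

/-- `KK ∩ ker T^φ` is killed by `p`. -/
lemma kill [hp : Fact p.Prime] {x : A} (hx : x ∈ KK p m v γ)
    (hT : ((γ - 1) ^ (p ^ m * (p - 1)) : AddMonoid.End A) x = 0) : p • x = 0 := by
  obtain ⟨h, h₁, hh, hh1⟩ := poly p m
  refine inj γ h h₁ hh1 (p ^ m * (p - 1) * v) (p • x) ?_ ?_
  · rw [map_nsmul, nilp p m v γ hx, smul_zero]
  · have h2 := hx.1
    rw [nu_eq, hh, map_add, map_mul, map_pow, ← T_eq] at h2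
    have h3 : ((γ - 1) ^ (p ^ m * (p - 1)) : AddMonoid.End A) x +
        ((aeval γ (C (p : ℤ)) : AddMonoid.End A) * aeval γ h) x = 0 := h2
    rw [hT, zero_add, mul_ap] at h3
    have h6 : ∀ y : A, (aeval γ (C (p : ℤ)) : AddMonoid.End A) y = p • y := by
      intro y
      rw [aeval_C]
      have h7 : (algebraMap ℤ (AddMonoid.End A)) (p : ℤ) = ((p : ℕ) : AddMonoid.End A) := by
        rw [algebraMap_int_eq]
        simp
      rw [h7]
      rfl
    rw [h6] at h3
    rw [map_nsmul]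
    exact h3

/-- `V = KK[p]`. -/
def VV : AddSubgroup A where
  carrier := {x | x ∈ KK p m v γ ∧ p • x = 0}
  add_mem' := by
    rintro a b ⟨ha, ha'⟩ ⟨hb, hb'⟩
    exact ⟨add_mem ha hb, by rw [smul_add, ha', hb', add_zero]⟩
  zero_mem' := ⟨zero_mem _, smul_zero _⟩
  neg_mem' := by
    rintro a ⟨ha, ha'⟩
    exact ⟨neg_mem ha, by rw [smul_neg, ha', neg_zero]⟩

lemma T_VV {x : A} (hx : x ∈ VV p m v γ) : (γ - 1 : AddMonoid.End A) x ∈ VV p m v γ := by
  refine ⟨?_, ?_⟩
  · have h1 := Tpow_stable p m v γ 1 hx.1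
    rwa [pow_one] at h1
  · rw [← map_nsmul, hx.2, map_zero]

/-- `T` on `V`. -/
def TV : AddMonoid.End (VV p m v γ) where
  toFun x := ⟨(γ - 1 : AddMonoid.End A) (x : A), T_VV p m v γ x.2⟩
  map_zero' := Subtype.ext (map_zero _)
  map_add' x y := Subtype.ext (map_add (γ - 1 : AddMonoid.End A) (x : A) y)

lemma TV_pow (i : ℕ) (y : VV p m v γ) : (((TV p m v γ ^ i) y : VV p m v γ) : A) =
    ((γ - 1) ^ i : AddMonoid.End A) (y : A) := by
  induction i generalizing y with
  | zero => rfl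
  | succ i ih =>
    rw [pow_succ, mul_ap, ih, pow_succ, mul_ap]
    rfl

/-- A nilpotent operator on a finite vector space. -/
lemma nil_lin [hp : Fact p.Prime] (W : Type) [AddCommGroup W] [Module (ZMod p) W]
    [Module.Finite (ZMod p) W] (F : W →ₗ[ZMod p] W) (M : ℕ)
    (hM : ∀ y, (F ^ M : Module.End (ZMod p) W) y = 0) (y : W) :
    (F ^ padicValNat p (Nat.card W) : Module.End (ZMod p) W) y = 0 := by
  have hcard : Nat.card W = p ^ Module.finrank (ZMod p) W := by
    have h1 := Module.natCard_eq_pow_finrank (K := ZMod p) (V := W)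
    rwa [Nat.card_zmod] at h1
  obtain ⟨k, hk, hk'⟩ := Module.End.exists_ker_pow_eq_ker_pow_succ F
  have h3 := Module.End.ker_pow_constant hk' M
  have h4 : y ∈ LinearMap.ker (F ^ k) := by
    rw [h3, LinearMap.mem_ker, pow_add, Module.End.mul_apply, hM, map_zero]
  rw [LinearMap.mem_ker] at h4
  rw [hcard, padicValNat.prime_pow]
  have h5 : Module.finrank (ZMod p) W = (Module.finrank (ZMod p) W - k) + k := by omega
  rw [h5, pow_add, Module.End.mul_apply, h4, map_zero]

lemma lin_pow (W : Type) [AddCommGroup W] [Module (ZMod p) W] (f : AddMonoid.End W) (i : ℕ)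
    (y : W) : ((AddMonoidHom.toZModLinearMap p (f : W →+ W)) ^ i : Module.End (ZMod p) W) y =
      (f ^ i : AddMonoid.End W) y := by
  induction i generalizing y with
  | zero => rfl
  | succ i ih =>
    rw [pow_succ, Module.End.mul_apply, ih, pow_succ, mul_ap]
    rfl

/-- A nilpotent operator on an elementary abelian group of order `p ^ k` has `k`-th power `0`. -/
lemma nil_mod [hp : Fact p.Prime] (W : Type) [AddCommGroup W] [Finite W] [Module (ZMod p) W]
    (f : AddMonoid.End W) (M : ℕ) (hM : f ^ M = 0) :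
    f ^ padicValNat p (Nat.card W) = 0 := by
  have i2 : Module.Finite (ZMod p) W := Module.Finite.of_finite
  ext y
  rw [← lin_pow p W f]
  exact nil_lin p W (AddMonoidHom.toZModLinearMap p (f : W →+ W)) M
    (fun y => by rw [lin_pow p W f, hM]; rfl) y

/-- A nilpotent operator on an elementary abelian group of order `p ^ k` has `k`-th power `0`. -/
lemma nil_pow [hp : Fact p.Prime] (W : Type) [AddCommGroup W] [Finite W]
    (hz : ∀ y : W, p • y = 0) (f : AddMonoid.End W) (M : ℕ) (hM : f ^ M = 0) :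
    f ^ padicValNat p (Nat.card W) = 0 :=
  @nil_mod p hp W _ _ (AddCommGroup.zmodModule hz) f M hM

/-- The torsion subgroup. -/
def BB : AddSubgroup A where
  carrier := {x | p • x = 0}
  add_mem' := by
    intro a b ha hb
    show p • (a + b) = 0
    rw [smul_add, show p • a = 0 from ha, show p • b = 0 from hb, add_zero]
  zero_mem' := smul_zero _
  neg_mem' := by
    intro a ha
    show p • (-a) = 0
    rw [smul_neg, show p • a = 0 from ha, neg_zero]

/-- `T^(φ-1) = 0` on `V` if the rank is small. -/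
lemma T_pow_V [hp : Fact p.Prime] [Finite A]
    (hd : padicValNat p (Nat.card (BB (A := A) p)) < p ^ m * (p - 1)) {x : A}
    (hx : x ∈ VV p m v γ) : ((γ - 1) ^ (p ^ m * (p - 1) - 1) : AddMonoid.End A) x = 0 := by
  have hM : TV p m v γ ^ (p ^ m * (p - 1) * v) = 0 := by
    ext y
    rw [TV_pow, nilp p m v γ y.2.1]
    rfl
  have h1 := nil_pow p (VV p m v γ) (fun y => Subtype.ext y.2.2) (TV p m v γ) _ hM
  have hle : VV p m v γ ≤ BB (A := A) p := fun y hy => hy.2
  have hk : padicValNat p (Nat.card (VV p m v γ)) ≤ padicValNat p (Nat.card (BB (A := A) p)) :=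
    (padicValNat_dvd_iff_le Nat.card_pos.ne').1
      (pow_padicValNat_dvd.trans (AddSubgroup.card_dvd_of_le hle))
  set k := padicValNat p (Nat.card (VV p m v γ)) with hkd
  have h2 : ((γ - 1) ^ k : AddMonoid.End A) x = 0 := by
    have h4 := TV_pow p m v γ k ⟨x, hx⟩
    rw [h1] at h4
    exact h4.symm
  have h3 : p ^ m * (p - 1) - 1 = (p ^ m * (p - 1) - 1 - k) + k := by omega
  rw [h3, pow_add, mul_ap, h2, map_zero]

/-- `KK` is killed by `p` if the rank is small. -/
lemma KK_kill [hp : Fact p.Prime] [Finite A]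
    (hd : padicValNat p (Nat.card (BB (A := A) p)) < p ^ m * (p - 1)) {x : A}
    (hx : x ∈ KK p m v γ) : p • x = 0 := by
  have hpos := phi_pos p m
  by_contra hne
  have h1 : ¬ ((γ - 1) ^ (p ^ m * (p - 1)) : AddMonoid.End A) x = 0 :=
    fun h => hne (kill p m v γ hx h)
  have h2 : ∃ N, ((γ - 1) ^ N : AddMonoid.End A) x = 0 := ⟨_, nilp p m v γ hx⟩
  classical
  set N := Nat.find h2 with hN
  have h3 : ((γ - 1) ^ N : AddMonoid.End A) x = 0 := Nat.find_spec h2
  have h4 : p ^ m * (p - 1) < N := by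
    by_contra hc
    push Not at hc
    apply h1
    have e : p ^ m * (p - 1) = (p ^ m * (p - 1) - N) + N := by omega
    rw [e, pow_add, mul_ap, h3, map_zero]
  set y := ((γ - 1) ^ (N - p ^ m * (p - 1)) : AddMonoid.End A) x with hy
  have hyK : y ∈ KK p m v γ := Tpow_stable p m v γ _ hx
  have hyT : ((γ - 1) ^ (p ^ m * (p - 1)) : AddMonoid.End A) y = 0 := by
    rw [hy, ← mul_ap, ← pow_add]
    have e : p ^ m * (p - 1) + (N - p ^ m * (p - 1)) = N := by omega
    rw [e]; exact h3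
  have h5 := T_pow_V p m v γ hd ⟨hyK, kill p m v γ hyK hyT⟩
  rw [hy, ← mul_ap, ← pow_add] at h5
  have e : p ^ m * (p - 1) - 1 + (N - p ^ m * (p - 1)) = N - 1 := by omega
  rw [e] at h5
  exact Nat.find_min h2 (m := N - 1) (by omega) h5

end

end ALG2

open _root_.Pool.Agent.RID.ALG2 in
theorem t_ALG2 : S_ALG2 := by
  intro p m hp A _ _ γ hγ hd
  have hd' : padicValNat p (Nat.card (BB (A := A) p)) < p ^ m * (p - 1) := hd
  show padicValNat p (Nat.card A) ≤ padicValNat p (Nat.card (nu p m γ : A →+ A).range) +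
    padicValNat p (Nat.card (BB (A := A) p))
  have h1 : Nat.card A = Nat.card (nu p m γ : A →+ A).ker * Nat.card (nu p m γ : A →+ A).range := by
    rw [← AddSubgroup.index_ker, AddSubgroup.card_mul_index]
  rw [h1, padicValNat.mul Nat.card_pos.ne' Nat.card_pos.ne', add_comm]
  refine Nat.add_le_add_left ?_ _
  set v := padicValNat p (Nat.card (nu p m γ : A →+ A).ker) with hv
  obtain ⟨S, hS⟩ := Sylow.exists_subgroup_card_pow_prime
    (G := Multiplicative (nu p m γ : A →+ A).ker) p (n := v) pow_padicValNat_dvd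
  have h2 : Nat.card (Subgroup.toAddSubgroup' S) = p ^ v := hS
  have h3 : Nat.card ((Subgroup.toAddSubgroup' S).map (nu p m γ : A →+ A).ker.subtype) = p ^ v := by
    rw [← h2]
    exact Nat.card_congr ((Subgroup.toAddSubgroup' S).equivMapOfInjective _
      (AddSubgroup.subtype_injective _)).symm.toEquiv
  have h4 : (Subgroup.toAddSubgroup' S).map (nu p m γ : A →+ A).ker.subtype ≤ BB (A := A) p := by
    rintro _ ⟨x, hx, rfl⟩
    show p • (x : A) = 0
    refine KK_kill p m v γ hd' ⟨x.2, ?_⟩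
    have h5 : p ^ v • (⟨x, hx⟩ : Subgroup.toAddSubgroup' S) = 0 := by
      rw [← h2]
      exact card_nsmul_eq_zero'
    have h6 := congrArg (fun z : Subgroup.toAddSubgroup' S => ((z : (nu p m γ : A →+ A).ker) : A)) h5
    exact h6
  have h5 := AddSubgroup.card_dvd_of_le h4
  rw [h3] at h5
  exact (padicValNat_dvd_iff_le Nat.card_pos.ne').1 h5

end Pool.Agent.RID


end

section

/-!
# Relative Iwasawa theorem, module CL

For `K / F` Galois of degree prime to `p`, the class numbers of `K` and `F` are divisible by the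
same power of `p` iff the relative class group has trivial `p`-part.
-/

open NumberField Finset IsDedekindDomain
open scoped nonZeroDivisors Pointwise

namespace Pool.Agent.RI

namespace CL

/-! ### The product of the conjugates of an ideal comes from `F` -/

section Norm

set_option linter.unusedSectionVars false

variable {F K : Type} [Field F] [NumberField F] [Field K] [NumberField K] [Algebra F K]

/-- A product over the group of the conjugates of a prime. -/
theorem prod_smul_prime [IsGalois F K] (P : Ideal (𝓞 K)) [P.IsPrime] (hP : P ≠ ⊥) :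
    ∃ I : Ideal (𝓞 F), I ≠ ⊥ ∧ ∏ σ : K ≃ₐ[F] K, σ • P = I.map (algebraMap (𝓞 F) (𝓞 K)) := by
  classical
  let p : Ideal (𝓞 F) := P.under (𝓞 F)
  have hPm : P.IsMaximal := Ring.DimensionLEOne.maximalOfPrime hP inferInstance
  have hp : p ≠ ⊥ := by
    intro h
    exact hP (Ideal.eq_bot_of_comap_eq_bot h)
  have hpm : p.IsMaximal := Ideal.IsMaximal.under (𝓞 F) P
  have : Finite (𝓞 F ⧸ p) := Ring.HasFiniteQuotients.finiteQuotient hp
  have hperf : PerfectField p.ResidueField := inferInstance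
  have hcard : ∀ Q ∈ (p.primesOver (𝓞 K)).toFinset,
      (univ.filter (fun σ : K ≃ₐ[F] K => σ • P = Q)).card =
        p.inertiaDegIn (𝓞 K) * Q.ramificationIdx (𝓞 F) := by
    intro Q hQ
    rw [Set.mem_toFinset] at hQ
    have : Q.IsPrime := hQ.1
    have : Q.LiesOver p := hQ.2
    obtain ⟨τ, hτ⟩ := Ideal.exists_smul_eq_of_isGaloisGroup p P Q (K ≃ₐ[F] K)
    have h1 : (univ.filter (fun σ : K ≃ₐ[F] K => σ • P = Q)).card =
        Nat.card (MulAction.stabilizer (K ≃ₐ[F] K) P) := by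
      rw [← Fintype.card_subtype, Nat.card_eq_fintype_card]
      refine Fintype.card_congr ⟨fun σ => ⟨τ⁻¹ * σ.1, ?_⟩, fun σ => ⟨τ * σ.1, ?_⟩, ?_, ?_⟩
      · rw [MulAction.mem_stabilizer_iff, mul_smul, σ.2, ← hτ, inv_smul_smul]
      · rw [mul_smul, MulAction.mem_stabilizer_iff.1 σ.2, hτ]
      · intro σ; simp
      · intro σ; simp
    rw [h1, Ideal.card_stabilizer_eq p P, Ideal.ramificationIdxIn_eq_ramificationIdx p Q (K ≃ₐ[F] K),
      mul_comm]
  refine ⟨p ^ (p.inertiaDegIn (𝓞 K)), pow_ne_zero _ hp, ?_⟩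
  rw [Ideal.map_pow, Ideal.map_algebraMap_eq_finsetProd_pow hp, ← Finset.prod_pow]
  have hmem : ∀ σ ∈ (univ : Finset (K ≃ₐ[F] K)), σ • P ∈ (p.primesOver (𝓞 K)).toFinset := by
    intro σ _
    rw [Set.mem_toFinset]
    exact ⟨inferInstance, inferInstance⟩
  rw [← Finset.prod_fiberwise_of_maps_to hmem]
  refine Finset.prod_congr rfl fun Q hQ => ?_
  rw [Finset.prod_congr rfl (g := fun _ => Q) (fun σ hσ => (Finset.mem_filter.1 hσ).2),
    Finset.prod_const, hcard Q hQ, mul_comm, pow_mul]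

/-- The product over the group of the conjugates of a nonzero ideal. -/
theorem prod_smul_ideal [IsGalois F K] (I : Ideal (𝓞 K)) :
    I ≠ ⊥ → ∃ I' : Ideal (𝓞 F), I' ≠ ⊥ ∧
      ∏ σ : K ≃ₐ[F] K, σ • I = I'.map (algebraMap (𝓞 F) (𝓞 K)) := by
  refine UniqueFactorizationMonoid.induction_on_prime I ?_ ?_ ?_
  · intro h; exact absurd rfl h
  · intro I hI _
    rw [Ideal.isUnit_iff] at hI
    refine ⟨⊤, by simp, ?_⟩
    rw [Ideal.map_top, hI, ← Ideal.one_eq_top]
    simp only [smul_one, Finset.prod_const_one]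
  · intro I P hI hP ih _
    obtain ⟨I', hI', h1⟩ := ih hI
    have hPp : P.IsPrime := Ideal.isPrime_of_prime hP
    obtain ⟨P', hP', h2⟩ := prod_smul_prime (F := F) P hP.ne_zero
    refine ⟨P' * I', mul_ne_zero hP' hI', ?_⟩
    rw [Ideal.map_mul, ← h1, ← h2, ← Finset.prod_mul_distrib]
    exact Finset.prod_congr rfl fun σ _ => smul_mul' σ P I

/-- The product of the conjugates. -/
noncomputable def nm (F K : Type) [Field F] [Field K] [NumberField K] [Algebra F K]
    [FiniteDimensional F K] : J K →* J K where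
  toFun c := ∏ σ : K ≃ₐ[F] K, σ • c
  map_one' := by simp only [smul_one, Finset.prod_const_one]
  map_mul' a b := by simp only [smul_mul', Finset.prod_mul_distrib]

theorem nm_apply (c : J K) : nm F K c = ∏ σ : K ≃ₐ[F] K, σ • c := rfl

theorem smul_mk0 (σ : K ≃ₐ[F] K) (I : (Ideal (𝓞 K))⁰) (I' : (Ideal (𝓞 K))⁰)
    (h : (I' : Ideal (𝓞 K)) = σ • (I : Ideal (𝓞 K))) :
    σ • (FractionalIdeal.mk0 K I : J K) = FractionalIdeal.mk0 K I' := by
  apply Units.ext
  ext x
  rw [mem_smul, FractionalIdeal.coe_mk0, FractionalIdeal.coe_mk0, FractionalIdeal.mem_coeIdeal,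
    FractionalIdeal.mem_coeIdeal, h]
  constructor
  · rintro ⟨y, hy, hy'⟩
    refine ⟨σ • y, Ideal.smul_mem_pointwise_smul σ y _ hy, ?_⟩
    have : algebraMap (𝓞 K) K (σ • y) = σ (algebraMap (𝓞 K) K y) := rfl
    rw [this, hy', AlgEquiv.apply_symm_apply]
  · rintro ⟨y, hy, rfl⟩
    refine ⟨σ⁻¹ • y, ?_, rfl⟩
    rwa [Ideal.mem_pointwise_smul_iff_inv_smul_mem] at hy

theorem nm_prin [IsGalois F K] (x : Kˣ) :
    nm F K (prin x) = ext F K (prin (Units.map (Algebra.norm F : K →* F) x)) := by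
  rw [ext_prin, nm_apply, Finset.prod_congr rfl (fun σ _ => smul_prin σ x), ← map_prod]
  congr 1
  apply Units.ext
  rw [Units.coe_prod]
  show _ = algebraMap F K (Algebra.norm F (x : K))
  rw [Algebra.norm_eq_prod_automorphisms]
  rfl

/-- Extended ideals are invariant. -/
theorem smul_ext (σ : K ≃ₐ[F] K) (c : J F) : σ • ext F K c = ext F K c := by
  have key : ∀ (τ : K ≃ₐ[F] K) (x : K), x ∈ (ext F K c : FractionalIdeal (𝓞 K)⁰ K) →
      τ x ∈ (ext F K c : FractionalIdeal (𝓞 K)⁰ K) := by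
    intro τ x hx
    change x ∈ FractionalIdeal.extendedHom K (𝓞 K) (c : FractionalIdeal (𝓞 F)⁰ F) at hx
    change τ x ∈ FractionalIdeal.extendedHom K (𝓞 K) (c : FractionalIdeal (𝓞 F)⁰ F)
    rw [← FractionalIdeal.mem_coe, FractionalIdeal.coe_extendedHom_eq_span] at hx ⊢
    refine Submodule.span_induction (p := fun x _ => τ x ∈ Submodule.span (𝓞 K)
      (algebraMap F K '' (c : FractionalIdeal (𝓞 F)⁰ F))) ?_ ?_ ?_ ?_ hx
    · rintro _ ⟨y, hy, rfl⟩
      apply Submodule.subset_span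
      exact ⟨y, hy, (τ.commutes y).symm⟩
    · rw [map_zero]; exact Submodule.zero_mem _
    · intro a b _ _ ha hb
      rw [map_add]; exact Submodule.add_mem _ ha hb
    · intro a b _ hb
      have : τ (a • b) = (τ • a) • τ b := by
        rw [Algebra.smul_def, Algebra.smul_def, map_mul]; rfl
      rw [this]
      exact Submodule.smul_mem _ _ hb
  apply Units.ext
  ext x
  rw [mem_smul]
  constructor
  · intro h
    have := key σ _ h
    rwa [AlgEquiv.apply_symm_apply] at this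
  · intro h
    exact key σ⁻¹ _ h

theorem nm_ext [IsGalois F K] (c : J F) :
    nm F K (ext F K c) = ext F K c ^ Module.finrank F K := by
  rw [nm_apply, Finset.prod_congr rfl (fun σ _ => smul_ext σ c), Finset.prod_const,
    Finset.card_univ, ← Nat.card_eq_fintype_card, IsGalois.card_aut_eq_finrank]

/-- The product of the conjugates of a fractional ideal comes from `F`. -/
theorem nm_mem [IsGalois F K] (c : J K) : ∃ c' : J F, ext F K c' = nm F K c := by
  have key : ∀ I : (Ideal (𝓞 K))⁰, FractionalIdeal.mk0 K I ∈ (ext F K).range.comap (nm F K) := by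
    intro I
    obtain ⟨I', hI', h⟩ := prod_smul_ideal (F := F) (I : Ideal (𝓞 K)) (nonZeroDivisors.coe_ne_zero I)
    refine ⟨FractionalIdeal.mk0 F ⟨I', mem_nonZeroDivisors_of_ne_zero hI'⟩, ?_⟩
    have hne : ∀ σ : K ≃ₐ[F] K, σ • (I : Ideal (𝓞 K)) ≠ 0 := by
      intro σ h0
      apply nonZeroDivisors.coe_ne_zero I
      rw [← inv_smul_smul σ (I : Ideal (𝓞 K)), h0]
      exact smul_zero _
    rw [nm_apply, Finset.prod_congr rfl (fun σ _ => smul_mk0 σ I
      ⟨σ • (I : Ideal (𝓞 K)), mem_nonZeroDivisors_of_ne_zero (hne σ)⟩ rfl), ← map_prod]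
    apply Units.ext
    show FractionalIdeal.extendedHom K (𝓞 K) (I' : FractionalIdeal (𝓞 F)⁰ F) = _
    rw [FractionalIdeal.extendedHom_coeIdeal_eq_map, ← h, FractionalIdeal.coe_mk0]
    congr 1
    simp
  have key2 : ∀ x : Kˣ, prin x ∈ (ext F K).range.comap (nm F K) := fun x => ⟨_, (nm_prin x).symm⟩
  show c ∈ (ext F K).range.comap (nm F K)
  obtain ⟨a, I, ha, hc⟩ := FractionalIdeal.exists_eq_spanSingleton_mul
    (c : FractionalIdeal (𝓞 K)⁰ K)
  have ha' : (algebraMap (𝓞 K) K a) ≠ 0 := by simpa using ha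
  have hI : I ≠ 0 := by
    rintro rfl
    apply c.ne_zero
    rw [hc]; simp
  have : c = (prin (Units.mk0 _ ha'))⁻¹ * FractionalIdeal.mk0 K
      ⟨I, mem_nonZeroDivisors_of_ne_zero hI⟩ := by
    rw [← map_inv]
    apply Units.ext
    rw [hc, Units.val_mul, coe_toPrincipalIdeal]
    simp
  rw [this]
  exact mul_mem (inv_mem (key2 _)) (key _)

end Norm

/-! ### Group theory -/

section Groups

theorem not_dvd_card_iff (p : ℕ) [hp : Fact p.Prime] (B : Type) [CommGroup B] [Finite B] :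
    ¬ p ∣ Nat.card B ↔ ∀ b : B, ∃ m : ℕ, m.Coprime p ∧ b ^ m = 1 := by
  constructor
  · intro h b
    exact ⟨Nat.card B, ((Nat.Prime.coprime_iff_not_dvd hp.1).2 h).symm, pow_card_eq_one'⟩
  · intro h hd
    obtain ⟨b, hb⟩ := exists_prime_orderOf_dvd_card' p hd
    obtain ⟨m, hm, hbm⟩ := h b
    have : p ∣ m := hb ▸ orderOf_dvd_of_pow_eq_one hbm
    exact (Nat.Prime.coprime_iff_not_dvd hp.1).1 hm.symm this

theorem _root_.Pool.Agent.RI.CL.abs (p : ℕ) [hp : Fact p.Prime] (A C : Type) [CommGroup A] [CommGroup C] [Finite A]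
    [Finite C] (N : A →* A) (e : C →* A) (d : ℕ) (hd : d.Coprime p)
    (h1 : ∀ c, N (e c) = e c ^ d) (h2 : ∀ a, N a ∈ e.range) (h3 : ∀ c, e c = 1 → c ^ d = 1) :
    padicValNat p (Nat.card A) = padicValNat p (Nat.card C) ↔
      ∀ a, N a = 1 → ∃ m : ℕ, m.Coprime p ∧ a ^ m = 1 := by
  have hle : N.range ≤ e.range := by
    rintro _ ⟨a, rfl⟩; exact h2 a
  have c1 : ¬ p ∣ Nat.card e.ker := by
    rw [not_dvd_card_iff]
    rintro ⟨b, hb⟩
    exact ⟨d, hd, Subtype.ext (h3 b hb)⟩
  have c2 : ¬ p ∣ Nat.card (e.range ⧸ (N.range.subgroupOf e.range)) := by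
    rw [not_dvd_card_iff]
    intro b
    obtain ⟨⟨_, c, rfl⟩, rfl⟩ := QuotientGroup.mk_surjective b
    refine ⟨d, hd, ?_⟩
    rw [← QuotientGroup.mk_pow, QuotientGroup.eq_one_iff, Subgroup.mem_subgroupOf]
    exact ⟨e c, h1 c⟩
  have e1 : Nat.card A = Nat.card N.ker * Nat.card N.range := by
    rw [← Subgroup.index_ker, Subgroup.card_mul_index]
  have e2 : Nat.card C = Nat.card e.ker * Nat.card e.range := by
    rw [← Subgroup.index_ker, Subgroup.card_mul_index]
  have e3 : Nat.card e.range = Nat.card N.range *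
      Nat.card (e.range ⧸ (N.range.subgroupOf e.range)) := by
    rw [← Subgroup.card_mul_index (N.range.subgroupOf e.range), Subgroup.index,
      Nat.card_congr (Subgroup.subgroupOfEquivOfLe hle).toEquiv]
  have pos : ∀ (X : Type) [Finite X] [Nonempty X], Nat.card X ≠ 0 := fun X _ _ => Nat.card_ne_zero.2
    ⟨inferInstance, inferInstance⟩
  rw [e1, e2, e3, padicValNat.mul (pos _) (pos _), padicValNat.mul (pos _) (mul_ne_zero (pos _)
    (pos _)), padicValNat.mul (pos _) (pos _), padicValNat.eq_zero_of_not_dvd c1,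
    padicValNat.eq_zero_of_not_dvd c2, zero_add, add_zero]
  have : (∀ a, N a = 1 → ∃ m : ℕ, m.Coprime p ∧ a ^ m = 1) ↔ ¬ p ∣ Nat.card N.ker := by
    rw [not_dvd_card_iff]
    constructor
    · rintro h ⟨a, ha⟩
      obtain ⟨m, hm, h'⟩ := h a ha
      exact ⟨m, hm, Subtype.ext h'⟩
    · intro h a ha
      obtain ⟨m, hm, h'⟩ := h ⟨a, ha⟩
      exact ⟨m, hm, congrArg Subtype.val h'⟩
  rw [this]
  constructor
  · intro h hdv
    have := one_le_padicValNat_of_dvd (pos N.ker) hdv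
    omega
  · intro h
    rw [padicValNat.eq_zero_of_not_dvd h, zero_add]

end Groups

theorem classNumber_eq (K : Type) [Field K] [NumberField K] :
    NumberField.classNumber K = Nat.card (J K ⧸ (prin (K := K)).range) := by
  rw [NumberField.classNumber, ← Nat.card_eq_fintype_card]
  exact Nat.card_congr (ClassGroup.equiv K).toEquiv

instance finite_quot (K : Type) [Field K] [NumberField K] :
    Finite (J K ⧸ (prin (K := K)).range) :=
  Finite.of_equiv _ (ClassGroup.equiv (R := 𝓞 K) K).toEquiv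

end CL

open _root_.Pool.Agent.RI.CL in
/-- Module CL. -/
theorem CL_thm : CL := by
  intro p hp F K _ _ _ _ _ _ hd
  let N : (J K ⧸ (prin (K := K)).range) →* (J K ⧸ (prin (K := K)).range) :=
    QuotientGroup.map _ _ (nm F K) (by
      rintro _ ⟨x, rfl⟩
      rw [Subgroup.mem_comap, nm_prin, ext_prin]
      exact ⟨_, rfl⟩)
  let e : (J F ⧸ (prin (K := F)).range) →* (J K ⧸ (prin (K := K)).range) :=
    QuotientGroup.map _ _ (ext F K) (by
      rintro _ ⟨x, rfl⟩
      rw [Subgroup.mem_comap, ext_prin]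
      exact ⟨_, rfl⟩)
  rw [classNumber_eq, classNumber_eq, _root_.Pool.Agent.RI.CL.abs p _ _ N e (Module.finrank F K) hd]
  · constructor
    · intro h c hc
      obtain ⟨m, hm, h'⟩ := h (QuotientGroup.mk c) (by
        show (QuotientGroup.mk (nm F K c) : J K ⧸ (prin (K := K)).range) = 1
        rw [nm_apply, hc]; rfl)
      refine ⟨m, hm, ?_⟩
      rw [← QuotientGroup.mk_pow, QuotientGroup.eq_one_iff] at h'
      obtain ⟨x, hx⟩ := h'
      exact ⟨x, hx.symm⟩
    · intro h a ha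
      obtain ⟨c, rfl⟩ := QuotientGroup.mk_surjective a
      change (QuotientGroup.mk (nm F K c) : J K ⧸ (prin (K := K)).range) = 1 at ha
      rw [QuotientGroup.eq_one_iff] at ha
      obtain ⟨y, hy⟩ := ha
      obtain ⟨c', hc'⟩ := nm_mem (F := F) c
      obtain ⟨m, hm, x, hx⟩ := h (c ^ Module.finrank F K / nm F K c) (by
        rw [← nm_apply, map_div, map_pow, ← hc', nm_ext, div_self'])
      refine ⟨Module.finrank F K * m, Nat.Coprime.mul_left hd hm, ?_⟩
      rw [← QuotientGroup.mk_pow, QuotientGroup.eq_one_iff, pow_mul]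
      refine ⟨x * y ^ m, ?_⟩
      rw [map_mul, map_pow, hy, ← hx, div_pow, div_mul_cancel]
  · intro c
    obtain ⟨c, rfl⟩ := QuotientGroup.mk_surjective c
    show (QuotientGroup.mk (nm F K (ext F K c)) : J K ⧸ (prin (K := K)).range) =
      (QuotientGroup.mk (ext F K c)) ^ _
    rw [nm_ext]; rfl
  · intro a
    obtain ⟨c, rfl⟩ := QuotientGroup.mk_surjective a
    obtain ⟨c', hc'⟩ := nm_mem (F := F) c
    refine ⟨QuotientGroup.mk c', ?_⟩
    show (QuotientGroup.mk (ext F K c') : J K ⧸ (prin (K := K)).range) =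
      QuotientGroup.mk (nm F K c)
    rw [hc']
  · intro c hc
    obtain ⟨c, rfl⟩ := QuotientGroup.mk_surjective c
    change (QuotientGroup.mk (ext F K c) : J K ⧸ (prin (K := K)).range) = 1 at hc
    rw [QuotientGroup.eq_one_iff] at hc
    obtain ⟨x, hx⟩ := hc
    rw [← QuotientGroup.mk_pow, QuotientGroup.eq_one_iff]
    refine ⟨Units.map (Algebra.norm F : K →* F) x, ?_⟩
    apply ext_injective F K
    rw [← nm_prin, hx, nm_ext, map_pow]

end Pool.Agent.RI


end

section

/-!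
# CYC: facts on `L / K` cyclic generated by `g`
-/

open NumberField Finset IsDedekindDomain
open scoped nonZeroDivisors Pointwise

namespace Pool.Agent.RID

open _root_.Pool.Agent.RI

namespace CYC

section

variable {F K L : Type} [Field F] [Field K] [Field L] [Algebra F L] [Algebra K L]

/-- `g` as an automorphism over its fixed field. -/
noncomputable def lift (g : L ≃ₐ[F] L) (h : ∀ y : K, g (algebraMap K L y) = algebraMap K L y) :
    L ≃ₐ[K] L :=
  AlgEquiv.ofRingEquiv (f := (g : L ≃+* L)) h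

lemma lift_apply (g : L ≃ₐ[F] L) (h : ∀ y : K, g (algebraMap K L y) = algebraMap K L y) (x : L) :
    lift g h x = g x := rfl

lemma lift_pow (g : L ≃ₐ[F] L) (h : ∀ y : K, g (algebraMap K L y) = algebraMap K L y) (j : ℕ)
    (x : L) : (lift g h ^ j) x = (g ^ j) x := by
  induction j generalizing x with
  | zero => rfl
  | succ j ih =>
    rw [pow_succ, pow_succ, AlgEquiv.mul_apply, AlgEquiv.mul_apply, lift_apply, ih]

lemma lift_pow_symm (g : L ≃ₐ[F] L) (h : ∀ y : K, g (algebraMap K L y) = algebraMap K L y)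
    (j : ℕ) (x : L) : (lift g h ^ j).symm x = (g ^ j).symm x := by
  rw [AlgEquiv.symm_apply_eq, lift_pow, AlgEquiv.apply_symm_apply]

lemma lift_pow_eq_one (g : L ≃ₐ[F] L) (h : ∀ y : K, g (algebraMap K L y) = algebraMap K L y)
    (j : ℕ) : lift g h ^ j = 1 ↔ g ^ j = 1 := by
  constructor
  · intro e
    ext x
    rw [← lift_pow g h, e]
    rfl
  · intro e
    ext x
    rw [lift_pow g h, e]
    rfl

lemma orderOf_lift (g : L ≃ₐ[F] L) (h : ∀ y : K, g (algebraMap K L y) = algebraMap K L y) :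
    orderOf (lift g h) = orderOf g :=
  orderOf_eq_orderOf_iff.2 (lift_pow_eq_one g h)

lemma lift_pow_units (g : L ≃ₐ[F] L) (h : ∀ y : K, g (algebraMap K L y) = algebraMap K L y)
    (j : ℕ) (x : Lˣ) : (lift g h ^ j) • x = g ^ j • x := by
  apply Units.ext
  exact lift_pow g h j x

lemma lift_pow_J [NumberField L] (g : L ≃ₐ[F] L)
    (h : ∀ y : K, g (algebraMap K L y) = algebraMap K L y)
    (j : ℕ) (b : J L) : (lift g h ^ j) • b = g ^ j • b := by
  apply Units.ext
  ext x
  rw [RI.mem_smul, RI.mem_smul, lift_pow_symm]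

lemma lift_pow_place [NumberField L] (g : L ≃ₐ[F] L)
    (h : ∀ y : K, g (algebraMap K L y) = algebraMap K L y)
    (j : ℕ) (x : InfinitePlace L) : (lift g h ^ j) • x = g ^ j • x := by
  ext y
  rw [InfinitePlace.smul_apply, InfinitePlace.smul_apply, lift_pow_symm]

end

section

variable {K L : Type} [Field K] [NumberField K] [Field L] [NumberField L] [Algebra K L]

/-- If the fixed field of `g` is `K` then the extension is Galois and `g` generates its group. -/
lemma main (g : L ≃ₐ[K] L) (h : ∀ x : L, g x = x → ∃ y : K, algebraMap K L y = x) :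
    IsGalois K L ∧ Subgroup.zpowers g = ⊤ := by
  have h1 : IntermediateField.fixedField (Subgroup.zpowers g) = ⊥ := by
    rw [eq_bot_iff]
    intro x hx
    have h2 : g x = x := hx ⟨g, Subgroup.mem_zpowers g⟩
    obtain ⟨y, hy⟩ := h x h2
    exact IntermediateField.mem_bot.2 ⟨y, hy⟩
  have h3 : IntermediateField.fixedField (⊤ : Subgroup (L ≃ₐ[K] L)) = ⊥ := by
    rw [eq_bot_iff, ← h1]
    intro x hx τ
    exact hx ⟨τ, trivial⟩
  refine ⟨IsGalois.of_fixedField_eq_bot K L h3, ?_⟩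
  rw [← IntermediateField.fixingSubgroup_fixedField (Subgroup.zpowers g), h1,
    IntermediateField.fixingSubgroup_bot]

end

end CYC

open _root_.Pool.Agent.RID.CYC in
theorem t_CYC : S_CYC := by
  intro F K L _ _ _ _ _ _ _ _ _ _ g q hg
  classical
  have hfix : ∀ y : K, g (algebraMap K L y) = algebraMap K L y := fun y =>
    (hg.fix _).2 ⟨y, rfl⟩
  set g' : L ≃ₐ[K] L := lift g hfix with hg'
  obtain ⟨hgal, htop⟩ := CYC.main g' fun x hx => (hg.fix x).1 hx
  have hord : orderOf g' = q := by rw [hg', orderOf_lift, hg.ord]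
  have hgen : ∀ τ : L ≃ₐ[K] L, τ ∈ Subgroup.zpowers g' := fun τ => by rw [htop]; trivial
  have hcard : Nat.card (L ≃ₐ[K] L) = q := by
    rw [← hord, orderOf_eq_card_of_forall_mem_zpowers hgen]
  have hfr : Module.finrank K L = q := by rw [← IsGalois.card_aut_eq_finrank, hcard]
  have hqpos : 0 < q := by rw [← hcard]; exact Nat.card_pos
  have hpow : ∀ τ : L ≃ₐ[K] L, ∃ j < q, g' ^ j = τ := by
    intro τ
    have hmem : τ ∈ Submonoid.powers g' :=
      (isOfFinOrder_of_finite g').mem_powers_iff_mem_zpowers.2 (hgen τ)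
    obtain ⟨i, hi⟩ := Submonoid.mem_powers_iff τ g' |>.1 hmem
    refine ⟨i % orderOf g', ?_, ?_⟩
    · rw [hord]; exact Nat.mod_lt _ hqpos
    · rw [pow_mod_orderOf, hi]
  have hprod : ∀ (X : Type) [CommGroup X] [MulDistribMulAction (L ≃ₐ[K] L) X] (x : X),
      ∏ i ∈ range q, g' ^ i • x = ∏ τ : L ≃ₐ[K] L, τ • x := by
    intro X _ _ x
    refine Finset.prod_bij (fun i _ => g' ^ i) (fun _ _ => mem_univ _) ?_ ?_ (fun _ _ => rfl)
    · intro a ha b hb hab
      rw [mem_range, ← hord] at ha hb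
      exact pow_injOn_Iio_orderOf ha hb hab
    · intro τ _
      obtain ⟨j, hj, hj'⟩ := hpow τ
      exact ⟨j, mem_range.2 hj, hj'⟩
  have hJ : ∀ b : J L, ng g q b = ∏ τ : L ≃ₐ[K] L, τ • b := by
    intro b
    rw [ng_apply, ← hprod]
    exact Finset.prod_congr rfl fun i _ => (lift_pow_J g hfix i b).symm
  have hU : ∀ x : Lˣ, ng g q x = ∏ τ : L ≃ₐ[K] L, τ • x := by
    intro x
    rw [ng_apply, ← hprod]
    exact Finset.prod_congr rfl fun i _ => (lift_pow_units g hfix i x).symm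
  refine ⟨hgal, hfr, ?_, ?_, ?_, ?_, hJ, hU, ?_, ?_, ?_⟩
  · intro τ
    obtain ⟨j, hj, hj'⟩ := hpow τ
    exact ⟨j, hj, fun x => by rw [← hj', lift_pow]⟩
  · intro x hx
    rw [hU] at hx
    have hN : Algebra.norm K (x : L) = 1 := by
      apply (algebraMap K L).injective
      rw [Algebra.norm_eq_prod_automorphisms, map_one]
      have h2 := congrArg (fun u : Lˣ => (u : L)) hx
      simpa using h2
    have : IsCyclic (L ≃ₐ[K] L) := ⟨g', hgen⟩
    obtain ⟨y, hy⟩ := groupCohomology.exists_div_of_norm_eq_one hgen hN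
    refine ⟨y, ?_⟩
    apply Units.ext
    rw [← hy, Units.val_div_eq_div_val]
    rfl
  · intro x hx
    have h1 : g (x : L) = x := congrArg (fun u : Lˣ => (u : L)) hx
    obtain ⟨y, hy⟩ := (hg.fix _).1 h1
    have hy0 : y ≠ 0 := by
      rintro rfl
      rw [map_zero] at hy
      exact x.ne_zero hy.symm
    exact ⟨Units.mk0 y hy0, Units.ext hy⟩
  · intro b hb τ
    obtain ⟨j, -, hj'⟩ := hpow τ
    rw [← hj']
    clear hj'
    induction j with
    | zero => rw [pow_zero, one_smul]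
    | succ j ih =>
      have h1 : g' • b = b := by
        have h2 := lift_pow_J g hfix 1 b
        rw [pow_one, pow_one] at h2
        rw [hg', h2, hb]
      rw [pow_succ, mul_smul, h1, ih]
  · intro c
    have h2 := lift_pow_J g hfix 1 (ext K L c)
    rw [pow_one, pow_one] at h2
    rw [← h2, CL.smul_ext]
  · intro c
    apply Units.ext
    exact hfix c
  · intro hc x j hx
    rw [← lift_pow_eq_one g hfix]
    rw [← lift_pow_place g hfix] at hx
    rw [Nat.card_eq_fintype_card, Nat.card_eq_fintype_card,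
      InfinitePlace.card_eq_card_isUnramifiedIn (k := K) (K := L), hfr] at hc
    have h1 := Finset.card_add_card_compl
      ({w : InfinitePlace K | w.IsUnramifiedIn L} : Finset (InfinitePlace K))
    have h2 : (({w : InfinitePlace K | w.IsUnramifiedIn L} : Finset (InfinitePlace K))ᶜ).card = 0 := by
      by_contra hne
      have h3 : q / 2 < q := Nat.div_lt_self hqpos (by norm_num)
      have h4 := Nat.mul_lt_mul_of_pos_left h3 (Nat.pos_of_ne_zero hne)
      have h5 : q * Fintype.card (InfinitePlace K) =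
          ({w : InfinitePlace K | w.IsUnramifiedIn L} : Finset (InfinitePlace K)).card * q +
          (({w : InfinitePlace K | w.IsUnramifiedIn L} : Finset (InfinitePlace K))ᶜ).card * q := by
        rw [← add_mul, h1, mul_comm]
      omega
    rw [Finset.card_eq_zero, Finset.compl_eq_empty_iff] at h2
    have h6 : (x.comap (algebraMap K L)).IsUnramifiedIn L := by
      have h7 := Finset.mem_univ (x.comap (algebraMap K L))
      rw [← h2] at h7
      simpa using h7
    rw [InfinitePlace.isUnramifiedIn_comap] at h6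
    have h8 := InfinitePlace.IsUnramified.stabilizer_eq_bot h6
    have h9 : g' ^ j ∈ MulAction.stabilizer (L ≃ₐ[K] L) x := hx
    rw [h8] at h9
    exact h9

end Pool.Agent.RID


end

section

open NumberField Finset IsDedekindDomain
open scoped nonZeroDivisors Pointwise

namespace Pool.Agent.RID

open _root_.Pool.Agent.RI

namespace STEPC

section

variable {F K L κ : Type} [Field F] [NumberField F] [Field K] [NumberField K] [Field L]
  [NumberField L] [Algebra F K] [Algebra F L] [Algebra K L] [IsScalarTower F K L]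

/-- The abstract situation for one step. -/
theorem mkAD {p a : ℕ} (hCYC : S_CYC) (hRES : S_RES) (hNUS : S_NUS) (hINVE : S_INVE)
    (l : List κ) (N' : κ → Subgroup (K ≃ₐ[F] K)) (N : κ → Subgroup (L ≃ₐ[F] L))
    (g : L ≃ₐ[F] L) (hS : Sys p F K L l N' N g a) :
    AD p (p ^ a) l (fun i => Nat.card (N i)) (fun i => (nuS (N i) : Lˣ →* Lˣ))
      (fun i => (nuS (N i) : J L →* J L)) (fun i => (nuS (N' i) : Kˣ →* Kˣ))
      (fun i => (nuS (N' i) : J K →* J K)) (prin : Lˣ →* J L) (prin : Kˣ →* J K)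
      (Units.map (algebraMap K L : K →* L)) (ext K L) g := by
  obtain ⟨_, _, _, c4, c5, _, _, _, c9, c10, _⟩ := hCYC F K L g (p ^ a) hS.cyc
  obtain ⟨_, _, n3, _, n5, n6⟩ := hNUS
  obtain ⟨q1, q2, _, _⟩ := n6 F L κ l N hS.nrm
  exact
    { cop := hS.cop
      qA := q1
      qI := q2
      gq := by rw [← hS.cyc.ord]; exact pow_orderOf_eq_one g
      dvg := fun x => (smul_prin g x).symm
      gA := fun i hi x => n3 _ _ (N i) x g (hS.nrm i hi)
      gI := fun i hi x => n3 _ _ (N i) x g (hS.nrm i hi)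
      dvν := fun i _ x => n5 F L (N i) x
      sq := fun x => ext_prin K L x
      εν := fun i hi x => (hRES F K L (N' i) (N i) (hS.mat i hi)).1 x
      ιν := fun i hi x => (hRES F K L (N' i) (N i) (hS.mat i hi)).2 x
      εinj := ext_injective K L
      gε := c9
      gι := c10
      h90 := c4
      fixA := c5
      inv := fun b hb hg => hINVE F K L κ l N g (p ^ a) hS.cyc hS.ram b hb hg
      fin := CL.finite_quot L
      fin' := CL.finite_quot K }

/-- The relative units. -/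
theorem ker_part (l : List κ) (N : κ → Subgroup (L ≃ₐ[F] L)) :
    (prin : Lˣ →* J L).ker ⊓ part l (fun i => (nuS (N i) : Lˣ →* Lˣ)) = WU l N ⊥ := by
  ext u
  constructor
  · rintro ⟨h1, h2⟩
    refine ⟨h1, ?_, h2⟩
    intro σ hσ
    rw [Subgroup.mem_bot] at hσ
    rw [hσ, one_smul]
  · rintro ⟨h1, _, h2⟩
    exact ⟨h1, h2⟩

/-- The relative units fixed by an automorphism. -/
theorem ker_fix (l : List κ) (N : κ → Subgroup (L ≃ₐ[F] L)) (h : L ≃ₐ[F] L) :
    (prin : Lˣ →* J L).ker ⊓ part l (fun i => (nuS (N i) : Lˣ →* Lˣ)) ⊓ (dg h : Lˣ →* Lˣ).ker =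
      WU l N (Subgroup.zpowers h) := by
  ext u
  constructor
  · rintro ⟨⟨h1, h2⟩, h3⟩
    have h3' : h • u = u := (mem_dg_ker h u).1 h3
    refine ⟨h1, ?_, h2⟩
    intro σ hσ
    have h4 : Subgroup.zpowers h ≤ MulAction.stabilizer (L ≃ₐ[F] L) u := by
      rw [Subgroup.zpowers_le]
      exact h3'
    exact h4 hσ
  · rintro ⟨h1, h3, h2⟩
    exact ⟨⟨h1, h2⟩, (mem_dg_ker h u).2 (h3 h (Subgroup.mem_zpowers h))⟩

end

end STEPC

open _root_.Pool.Agent.RID.STEPC in
theorem t_STEPC (hABS1 : S_ABS1) (hABS2 : S_ABS2) (hHERBQ : S_HERBQ) (hRK3 : S_RK3)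
    (hRK4 : S_RK4) (hCYC : S_CYC) (hRES : S_RES) (hNUS : S_NUS) (hINVE : S_INVE) : S_STEPC := by
  intro p a _ F K L κ _ _ _ _ _ _ _ _ _ _ l N' N g hS
  have hAD := mkAD hCYC hRES hNUS hINVE l N' N g hS
  have hgal := hS.galL
  obtain ⟨i₀, hi₀⟩ := List.exists_mem_of_ne_nil l hS.ne
  have hFG : ((prin : Lˣ →* J L).ker ⊓ part l (fun i => (nuS (N i) : Lˣ →* Lˣ))).FG := by
    rw [ker_part]
    refine (hRK3 F L κ l i₀ N ⊥ ?_).1
    intro j hj
    rcases List.mem_cons.1 hj with rfl | hj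
    · exact hS.nrm _ hi₀
    · exact hS.nrm j hj
  have hst : ∀ u ∈ (prin : Lˣ →* J L).ker ⊓ part l (fun i => (nuS (N i) : Lˣ →* Lˣ)),
      g • u ∈ (prin : Lˣ →* J L).ker ⊓ part l (fun i => (nuS (N i) : Lˣ →* Lˣ)) := by
    rintro u ⟨h1, h2⟩
    have h1' : prin u = 1 := h1
    have h2' := mem_part.1 (show u ∈ part l (fun i => (nuS (N i) : Lˣ →* Lˣ)) from h2)
    refine ⟨?_, ?_⟩
    · show prin (g • u) = 1
      rw [hAD.dvg, h1', smul_one]
    · show g • u ∈ part l (fun i => (nuS (N i) : Lˣ →* Lˣ))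
      rw [mem_part]
      intro i hi
      have h3 := hAD.gA i hi u
      rw [h2' i hi, smul_one] at h3
      exact h3.symm
  have hrk : ∀ i ≤ a, Module.finrank ℤ (Additive ↥((prin : Lˣ →* J L).ker ⊓
      part l (fun i => (nuS (N i) : Lˣ →* Lˣ)) ⊓ (dg (g ^ (p ^ i)) : Lˣ →* Lˣ).ker)) =
      p ^ i * Module.finrank ℤ (Additive ↥((prin : Lˣ →* J L).ker ⊓
      part l (fun i => (nuS (N i) : Lˣ →* Lˣ)) ⊓ (dg g : Lˣ →* Lˣ).ker)) := by
    intro i hi
    rw [ker_fix, ker_fix]
    exact hRK4 p a F K L κ l N' N g hS i hi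
  obtain ⟨hne, heq⟩ := hHERBQ p a Lˣ (L ≃ₐ[F] L) g _ hAD.gq hFG hst hrk
  have h1 := hABS1 p (p ^ a) _ _ _ _ _ _ _ _ _ _ _ _ _ _ _ _ _ hAD hne
  have h2 := hABS2 p (p ^ a) _ _ _ _ _ _ _ _ _ _ _ _ _ _ _ _ _ hAD (heq ▸ hne)
  rw [← heq] at h2
  have h3 : padicValNat p ((prin : Lˣ →* J L).range.relIndex
      (partM l (fun i => (nuS (N i) : J L →* J L)) (prin : Lˣ →* J L).range ⊓
        (prin : Lˣ →* J L).range.comap (dg g))) ≤
      padicValNat p ((prin : Kˣ →* J K).range.relIndex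
        (partM l (fun i => (nuS (N' i) : J K →* J K)) (prin : Kˣ →* J K).range)) :=
    h1.trans h2
  exact h3

end Pool.Agent.RID


end
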