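import Mathlib
import Pool.Agent.MVF.C014
import Pool.Agent.MVF.C021
import Pool.Agent.MVF.C025
import Pool.Agent.MVF.C031
import Pool.Agent.MVF.C033
import Pool.Agent.MVF.C036
import Pool.Agent.MVF.C048

/-! Parts: NS.RN_MFD, MUX.E_MAIN0, ME.X_COM, MU3.P_I3L, RI.BASE, MU3.PX_LST, MU3.PX_CHEV, MUX.E_TRB, ME.X.StWX2, MUX.E_UNR, MUX.E_BDL, MUX.E_EW, MUX.E_COP -/

namespace MU3.Chev
end MU3.Chev
namespace Pool.Agent.MU3.P_I3L
end Pool.Agent.MU3.P_I3L
namespace Pool.Agent.MUXE.COP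
end Pool.Agent.MUXE.COP
namespace Pool.Agent.NSR.MFD
end Pool.Agent.NSR.MFD

section

/-!
# MUX-NS, block RN, module MFD: a finite extension which contains all the coordinates
-/

set_option autoImplicit false

open WeierstrassCurve Polynomial

namespace Pool.Agent.NSR

open _root_.MU3 _root_.Pool.Agent.MU3A _root_.Pool.Agent.MU3B _root_.Pool.Agent.RI _root_.Pool.Agent.MUX _root_.Pool.Agent.MUXU
open _root_.Pool.Agent.MUXV (GR InK tX)
open _root_.Pool.Agent.NS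

noncomputable section

namespace MFD

variable {A B : ℤ}

lemma RF_mono {m m' : Ideal (OO A B)} (h : m ≤ m') : RF m' ≤ RF m := by
  refine IntermediateField.adjoin.mono _ _ _ ?_
  rintro c ⟨b, L, om, hb, hc | ⟨z, hz, hz', hc⟩⟩
  · exact ⟨b, L, om, hb, Or.inl hc⟩
  · exact ⟨b, L, om, hb, Or.inr ⟨z, fun x hx => hz x (h hx), hz', hc⟩⟩

lemma num_mem (K : IntermediateField (kk A B) ℂ) (n : ℕ) : (n : ℂ) ∈ K := natCast_mem K n

/-- the representative of a class of `F`-torsion points -/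
def rp (L : PeriodPair) (F i j : ℕ) : ℂ := ((i : ℂ) * L.ω₁ + (j : ℂ) * L.ω₂) / F

lemma exists_rp (L : PeriodPair) (F : ℕ) (hF : F ≠ 0) (z : ℂ) (hz : F * z ∈ L.lattice) :
    ∃ i j : ℕ, i < F ∧ j < F ∧ z - rp L F i j ∈ L.lattice := by
  obtain ⟨a, c, hac⟩ := PeriodPair.mem_lattice.1 hz
  have hF' : (F : ℤ) ≠ 0 := by exact_mod_cast hF
  have hFp : (0 : ℤ) < F := by exact_mod_cast Nat.pos_of_ne_zero hF
  have hFC : (F : ℂ) ≠ 0 := by exact_mod_cast hF
  have ea := Int.mul_ediv_add_emod a F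
  have ec := Int.mul_ediv_add_emod c F
  have a0 := Int.emod_nonneg a hF'
  have c0 := Int.emod_nonneg c hF'
  have a1 := Int.emod_lt_of_pos a hFp
  have c1 := Int.emod_lt_of_pos c hFp
  refine ⟨(a % F).toNat, (c % F).toNat, by omega, by omega, ?_⟩
  refine PeriodPair.mem_lattice.2 ⟨a / F, c / F, ?_⟩
  have h1 : (((a % F).toNat : ℕ) : ℂ) = a - F * (a / F : ℤ) := by
    have h2 : (((a % F).toNat : ℕ) : ℤ) = a - F * (a / F) := by
      rw [Int.toNat_of_nonneg a0]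
      linarith
    have h3 := congrArg (fun x : ℤ => (x : ℂ)) h2
    push_cast at h3
    push_cast
    exact h3
  have h2 : (((c % F).toNat : ℕ) : ℂ) = c - F * (c / F : ℤ) := by
    have h2 : (((c % F).toNat : ℕ) : ℤ) = c - F * (c / F) := by
      rw [Int.toNat_of_nonneg c0]
      linarith
    have h3 := congrArg (fun x : ℤ => (x : ℂ)) h2
    push_cast at h3
    push_cast
    exact h3
  unfold rp
  rw [h1, h2]
  field_simp
  linear_combination hac

lemma deriv_rp (L : PeriodPair) {z w : ℂ} (h : z - w ∈ L.lattice) :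
    L.derivWeierstrassP z = L.derivWeierstrassP w := by
  have h4 := L.derivWeierstrassP_add_coe w ⟨z - w, h⟩
  simpa using h4

end MFD

open _root_.Pool.Agent.NSR.MFD

/-- MFD. -/
theorem tr_MFD : Sr_MFD := by
  intro A B hQ hfin b L om hL u e lam hu hu2 he hlam F hF
  classical
  have hI : idl (A := A) (B := B) (2 * F) ≠ ⊥ := by
    intro h
    rw [Ideal.span_singleton_eq_bot] at h
    exact natCast_ne_zero' hQ (mul_ne_zero two_ne_zero hF) h
  have hle : idl (A := A) (B := B) (2 * F) ≤ idl (A := A) (B := B) 2 := by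
    rw [Ideal.span_singleton_le_span_singleton]
    exact ⟨(F : OO A B), by push_cast; ring⟩
  set K : IntermediateField (kk A B) ℂ := RF (idl (A := A) (B := B) (2 * F)) with hK
  have hRF : RF (idl (A := A) (B := B) 2) ≤ K := RF_mono hle
  have hfK : FiniteDimensional (kk A B) K := hfin _ hI
  have hCM : HasCM A B L := IsLI.hasCM hQ hL.toIsLI
  have hk : kap L ∈ K := IntermediateField.subset_adjoin _ _ ⟨b, L, om, hL, Or.inl rfl⟩
  have hx : ∀ z ∉ L.lattice, (F : ℂ) * z ∈ L.lattice → xn L z ∈ K := by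
    intro z hz hFz
    refine IntermediateField.subset_adjoin _ _ ⟨b, L, om, hL, Or.inr ⟨z, ?_, hz, rfl⟩⟩
    refine (tor_span hQ hCM _).2 ?_
    rw [_root_.Pool.Agent.MUX.emb_natCast hQ]
    have h1 : ((2 * F : ℕ) : ℂ) * z = F * z + F * z := by push_cast; ring
    rw [h1]
    exact add_mem hFz hFz
  have hP : ∀ z ∉ L.lattice, (F : ℂ) * z ∈ L.lattice → L.weierstrassP z ∈ K := by
    intro z hz hFz
    have h1 : L.weierstrassP z = xn L z + ((1 : ℕ) : ℂ) / ((12 : ℕ) : ℂ) := by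
      unfold xn
      push_cast
      ring
    rw [h1]
    exact add_mem (hx z hz hFz) (div_mem (num_mem K 1) (num_mem K 12))
  have hg2 : L.g₂ ∈ K := by
    have h1 : L.g₂ = (((1728 : ℕ) : ℂ) * kap L + ((1 : ℕ) : ℂ)) / ((12 : ℕ) : ℂ) := by
      unfold kap
      push_cast
      ring
    rw [h1]
    exact div_mem (add_mem (mul_mem (num_mem K _) hk) (num_mem K 1)) (num_mem K 12)
  have hg3 : L.g₃ ∈ K := by
    have h1 : L.g₃ = -(L.g₂ / ((18 : ℕ) : ℂ)) := by
      rw [hL.nrm]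
      push_cast
      ring
    rw [h1]
    exact neg_mem (div_mem hg2 (num_mem K 18))
  have hint : ∀ y ∈ K, _root_.IsIntegral (kk A B) y := by
    intro y hy
    exact (Algebra.IsIntegral.isIntegral (R := kk A B) (⟨y, hy⟩ : K)).map K.val
  have hsq : ∀ z ∉ L.lattice, (F : ℂ) * z ∈ L.lattice →
      _root_.IsIntegral (kk A B) (L.derivWeierstrassP z) := by
    intro z hz hFz
    refine IsIntegral.of_pow (n := 2) (by norm_num) (hint _ ?_)
    rw [L.derivWeierstrassP_sq z hz]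
    exact sub_mem (sub_mem (mul_mem (num_mem K 4) (pow_mem (hP z hz hFz) 3))
      (mul_mem hg2 (hP z hz hFz))) hg3
  let T : Set ℂ := {u} ∪ ((fun p : ℕ × ℕ => L.derivWeierstrassP (rp L F p.1 p.2)) ''
    {p : ℕ × ℕ | p.1 < F ∧ p.2 < F ∧ rp L F p.1 p.2 ∉ L.lattice})
  have hTfin : T.Finite := by
    refine (Set.finite_singleton u).union (Set.Finite.image _ ?_)
    refine Set.Finite.subset ((Finset.range F ×ˢ Finset.range F).finite_toSet) ?_
    rintro ⟨i, j⟩ ⟨h1, h2, -⟩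
    simp only [Finset.coe_product, Set.mem_prod, Finset.mem_coe, Finset.mem_range]
    exact ⟨h1, h2⟩
  have hFC : (F : ℂ) ≠ 0 := by exact_mod_cast hF
  have hrpF : ∀ i j : ℕ, (F : ℂ) * rp L F i j ∈ L.lattice := by
    intro i j
    refine PeriodPair.mem_lattice.2 ⟨i, j, ?_⟩
    unfold rp
    rw [mul_div_cancel₀ _ hFC]
    push_cast
    rfl
  have hTint : ∀ t ∈ T, _root_.IsIntegral (kk A B) t := by
    rintro t (ht | ⟨⟨i, j⟩, ⟨-, -, h3⟩, rfl⟩)
    · rw [Set.mem_singleton_iff.1 ht]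
      exact IsIntegral.of_pow (n := 2) (by norm_num) (hint _ (hRF hu2))
    · exact hsq _ h3 (hrpF i j)
  have : Finite T := hTfin.to_subtype
  have hTfd : FiniteDimensional (kk A B) (IntermediateField.adjoin (kk A B) T) :=
    IntermediateField.finiteDimensional_adjoin hTint
  refine ⟨K ⊔ IntermediateField.adjoin (kk A B) T, inferInstance, ?_, ?_⟩
  · exact (le_sup_left : K ≤ _) (hRF hlam)
  · intro z hz hFz
    have hKM : K ≤ K ⊔ IntermediateField.adjoin (kk A B) T := le_sup_left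
    have hTM : ∀ t ∈ T, t ∈ K ⊔ IntermediateField.adjoin (kk A B) T := fun t ht =>
      (le_sup_right : IntermediateField.adjoin (kk A B) T ≤ _)
        (IntermediateField.subset_adjoin _ _ ht)
    constructor
    · unfold xu
      exact hKM (div_mem (sub_mem (hP z hz hFz) (hRF he)) (hRF hu2))
    · obtain ⟨i, j, hi, hj, hij⟩ := exists_rp L F hF z hFz
      have hnot : rp L F i j ∉ L.lattice := by
        intro h
        have h2 := add_mem hij h
        rw [sub_add_cancel] at h2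
        exact hz h2
      have h3 : L.derivWeierstrassP z ∈ K ⊔ IntermediateField.adjoin (kk A B) T := by
        rw [deriv_rp L hij]
        exact hTM _ (Or.inr ⟨(i, j), ⟨hi, hj, hnot⟩, rfl⟩)
      unfold yu
      exact div_mem h3 (mul_mem (num_mem _ 2) (pow_mem (hTM u (Or.inl rfl)) 3))

end

end Pool.Agent.NSR


end

section

/-!
# MUX, block E, module MAIN0 (helper66)
-/

set_option autoImplicit false

namespace Pool.Agent.MUXE

open _root_.MU3 _root_.Pool.Agent.MU3A _root_.Pool.Agent.MU3B _root_.Pool.Agent.MUX _root_.Pool.Agent.MUXU _root_.Pool.Agent.RI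

noncomputable section

lemma m0_zpc {D : IntermediateField ℚ ℂ} (x : D) (k : ℤ) : ((x ^ k : D) : ℂ) = (x : ℂ) ^ k :=
  map_zpow₀ (algebraMap D ℂ) x k

/-- automorphisms of `ℂ` trivial on `k` are `k`-linear -/
lemma m0_fix {A B : ℤ} {σ : ℂ ≃+* ℂ} (hσ : FixK A B σ) : ∀ y ∈ kk A B, σ y = y := by
  intro y hy
  induction hy using IntermediateField.adjoin_induction with
  | mem x hx => rw [Set.mem_singleton_iff] at hx; rw [hx]; exact hσ
  | algebraMap x => simp
  | add x y _ _ hx hy => rw [map_add, hx, hy]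
  | inv x _ hx => rw [map_inv₀, hx]
  | mul x y _ _ hx hy => rw [map_mul, hx, hy]

/-- the Galois group of a subfield `D` of `RF m` over `k` is commutative -/
lemma m0_comm {A B : ℤ} (hT : TorX A B) (m : Ideal (OO A B)) (hm : m ≠ ⊥)
    (D : IntermediateField ℚ ℂ) (h : kk A B ≤ D) (hD : ∀ y ∈ D, y ∈ RF m) :
    letI := algC h
    ∀ τ τ' : D ≃ₐ[kk A B] D, τ * τ' = τ' * τ := by
  intro τ τ'
  letI := algC h
  haveI := hT.fin m hm
  haveI := hT.gal m hm
  obtain ⟨σ, hσ, hσ1⟩ := hT.ext m hm D h hD τ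
  obtain ⟨σ', hσ', hσ1'⟩ := hT.ext m hm D h hD τ'
  let s : ℂ ≃ₐ[kk A B] ℂ := AlgEquiv.ofRingEquiv (f := σ) (fun r => m0_fix hσ _ r.2)
  let s' : ℂ ≃ₐ[kk A B] ℂ := AlgEquiv.ofRingEquiv (f := σ') (fun r => m0_fix hσ' _ r.2)
  have e1 : ∀ y : RF m, ((s.restrictNormal (RF m) y : RF m) : ℂ) = σ y := fun y =>
    AlgEquiv.restrictNormal_commutes s (RF m) y
  have e2 : ∀ y : RF m, ((s'.restrictNormal (RF m) y : RF m) : ℂ) = σ' y := fun y =>
    AlgEquiv.restrictNormal_commutes s' (RF m) y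
  have e3 := hT.comm m hm (s.restrictNormal (RF m)) (s'.restrictNormal (RF m))
  refine AlgEquiv.ext fun z => Subtype.ext ?_
  show ((τ (τ' z) : D) : ℂ) = ((τ' (τ z) : D) : ℂ)
  have a1 : ((τ (τ' z) : D) : ℂ) = σ (σ' z) := by rw [← hσ1 (τ' z), ← hσ1' z]
  have a2 : ((τ' (τ z) : D) : ℂ) = σ' (σ z) := by rw [← hσ1' (τ z), ← hσ1 z]
  rw [a1, a2]
  have e4 : ((s.restrictNormal (RF m)) ((s'.restrictNormal (RF m)) ⟨z, hD z z.2⟩) : ℂ) =
      ((s'.restrictNormal (RF m)) ((s.restrictNormal (RF m)) ⟨z, hD z z.2⟩) : ℂ) :=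
    congrArg (fun f : RF m ≃ₐ[kk A B] RF m => ((f ⟨z, hD z z.2⟩ : RF m) : ℂ)) e3
  rw [e1, e2, e2, e1] at e4
  exact e4

lemma m0_ne (A B : ℤ) (hr : RingE A B) {m : ℕ} (hm : m ≠ 0) :
    idl (A := A) (B := B) m ≠ ⊥ := by
  obtain ⟨φ, hφ⟩ := hr.hom
  intro h
  rw [Ideal.span_singleton_eq_bot] at h
  have : φ ((m : ℕ) : OO A B) = 0 := by rw [h, map_zero]
  rw [map_natCast] at this
  exact hm (by exact_mod_cast this)

lemma m0_lv {p f n : ℕ} (hp : p = 2 ∨ p = 3) (hn : 1 ≤ n) :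
    ∃ e : ℕ, 2 ≤ e ∧ lvX p f n = p ^ e * f := by
  rcases hp with rfl | rfl
  · exact ⟨n + 2, by omega, by simp [lvX, q0]; ring⟩
  · exact ⟨n + 1, by omega, by simp [lvX, q0]; ring⟩

lemma m0_aX {p f : ℕ} (hp : p = 2 ∨ p = 3) (hf : f ≠ 0) :
    3 ≤ aX p f ∧ ¬ p ∣ aX p f ∧ (aX p f).Coprime f := by
  have hf1 : 1 ≤ f := Nat.one_le_iff_ne_zero.2 hf
  rcases hp with rfl | rfl
  · have e : aX 2 f = 1 + 2 * 4 * f := by simp [aX, q0]
    rw [e]
    refine ⟨by omega, by omega, ?_⟩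
    rw [show 1 + 2 * 4 * f = 1 + 8 * f by ring]
    simp [Nat.coprime_add_mul_right_left]
  · have e : aX 3 f = 1 + 2 * 3 * f := by simp [aX, q0]
    rw [e]
    refine ⟨by omega, by omega, ?_⟩
    rw [show 1 + 2 * 3 * f = 1 + 6 * f by ring]
    simp [Nat.coprime_add_mul_right_left]

lemma m0_f {p : ℕ} {A B : ℤ} {P : Ideal (OO A B)} {V : ValuationSubring ℂ} {f : ℕ}
    (h : SetP p A B P V f) : 2 ≤ f := by
  have h0 := h.f0
  have h1 := h.fD
  have h2 := h.case.neg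
  have hB := h.case.hB
  have h4 : absD A B ≤ (f : ℤ) := Int.le_of_dvd (by positivity) h1
  have h5 : 2 ≤ absD A B := by
    unfold absD
    rcases h.case.hB with rfl | rfl
    · simp at h2 ⊢
      omega
    · simp at h2 ⊢
      omega
  omega

theorem te_MAIN0 (h1 : Sxe_ONE) (h2 : Sxe_CTX) (h3 : Sxe_GAL) : Sxe_MAIN0 := by
  classical
  intro p A B P V f hS hr hR hT ι _ R n hn H hH c hc D hD hDF
  intro C S hC hcop hprod g hcube τ'
  letI := algC hD
  have hctx := h2 p A B P V f hS hr hR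
  have hgal := h3 A B hr hT
  obtain ⟨e, he, hlv⟩ := m0_lv (f := f) hctx.two hn
  obtain ⟨ha3, hap, haf⟩ := m0_aX hctx.two hS.f0
  have hf2 := m0_f hS
  have hp0 : p ≠ 0 := by rcases hctx.two with rfl | rfl <;> norm_num
  have hm0 : lvX p f n ≠ 0 := by rw [hlv]; exact mul_ne_zero (pow_ne_zero _ hp0) hS.f0
  have hmb := m0_ne A B hr hm0
  have := hT.fin _ hmb
  -- D is finite over k
  have := Pool.Agent.FX.fd_of_le hD hDF
  have : Finite (D ≃ₐ[kk A B] D) := inferInstance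
  letI : Fintype (D ≃ₐ[kk A B] D) := Fintype.ofFinite _
  have hcom := m0_comm hT _ hmb D hD hDF
  have hout : Function.Injective
      (fun q : ι × (OO A B ⧸ idl (A := A) (B := B) (lvX p f n)) => ((q.1, Quotient.out q.2) : ι × OO A B)) := by
    intro q q' hq
    have hq0 : ((q.1, Quotient.out q.2) : ι × OO A B) = (q'.1, Quotient.out q'.2) := hq
    have h4 : q.1 = q'.1 := (Prod.mk.inj hq0).1
    have h5 : (Quotient.out q.2 : OO A B) = Quotient.out q'.2 := (Prod.mk.inj hq0).2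
    have h6 : Ideal.Quotient.mk (idl (A := A) (B := B) (lvX p f n)) (Quotient.out q.2) =
        Ideal.Quotient.mk (idl (A := A) (B := B) (lvX p f n)) (Quotient.out q'.2) := congrArg _ h5
    rw [Ideal.Quotient.mk_out, Ideal.Quotient.mk_out] at h6
    exact Prod.ext h4 h6
  set X : (D ≃ₐ[kk A B] D) → Finset (ι × OO A B) := fun τ =>
    (S (τ * τ')).image (fun q => (q.1, Quotient.out q.2)) with hX
  have hcopX : ∀ τ : D ≃ₐ[kk A B] D, ∀ y ∈ X τ, IsCoprime y.2 ((p ^ e * f : ℕ) : OO A B) := by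
    intro τ y hy
    rw [hX] at hy
    obtain ⟨q, hq, rfl⟩ := Finset.mem_image.1 hy
    have := hcop (τ * τ') q hq
    rw [← hlv]
    exact this
  have key := h1 p A B P V hctx hgal (p * f) ι R e f (aX p f) he hf2 hS.fp ha3 hap haf
    (mul_ne_zero hp0 hS.f0) (dvd_refl _) H hH c hc (D ≃ₐ[kk A B] D) X g hcopX
  rw [← hlv] at key
  have hprodX : ∀ τ : D ≃ₐ[kk A B] D,
      ∏ y ∈ X τ, ThetaH (R.L y.1) (H y.1) (pt R (lvX p f n) y.1 y.2) = C (τ * τ') := by
    intro τ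
    rw [hX, Finset.prod_image (fun x _ y _ hxy => hout hxy), hprod (τ * τ')]
  have hsumX : ∀ τ : D ≃ₐ[kk A B] D,
      ∑ y ∈ X τ, (wP P y.2 : ℂ) * c y.1 * dlX (R.L y.1) (aX p f) (pt R (lvX p f n) y.1 y.2) =
      ∑ q ∈ S (τ * τ'), (wP P (Quotient.out q.2) : ℂ) * c q.1 *
        dlX (R.L q.1) (aX p f) (pt R (lvX p f n) q.1 (Quotient.out q.2)) := by
    intro τ
    rw [hX, Finset.sum_image (fun x _ y _ hxy => hout hxy)]
  have key2 : V.valuation (∑ τ : D ≃ₐ[kk A B] D, (g τ : ℂ) * ∑ q ∈ S (τ * τ'),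
      (wP P (Quotient.out q.2) : ℂ) * c q.1 *
        dlX (R.L q.1) (aX p f) (pt R (lvX p f n) q.1 (Quotient.out q.2))) ^ (p - 1) ≤
      V.valuation (p : ℂ) := by
    have e1 : (∑ τ : D ≃ₐ[kk A B] D, (g τ : ℂ) * ∑ q ∈ S (τ * τ'),
        (wP P (Quotient.out q.2) : ℂ) * c q.1 *
          dlX (R.L q.1) (aX p f) (pt R (lvX p f n) q.1 (Quotient.out q.2))) =
        ∑ j : D ≃ₐ[kk A B] D, (g j : ℂ) * ∑ y ∈ X j, (wP P y.2 : ℂ) * c y.1 *
        dlX (R.L y.1) (aX p f) (pt R (lvX p f n) y.1 y.2) :=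
      Finset.sum_congr rfl (fun τ _ => by rw [hsumX])
    rw [e1]
    apply key
    obtain ⟨w, hw, hwp⟩ := hcube
    rw [finprod_eq_prod_of_fintype] at hwp
    obtain ⟨y, hy1, -⟩ := hC 1
    have hyτ : ∀ τ : D ≃ₐ[kk A B] D, ((τ y : D) : ℂ) = C τ := by
      intro τ
      obtain ⟨y', hy', hy''⟩ := hC τ
      have : y' = y := Subtype.ext (hy'.trans hy1.symm)
      rw [← hy'', this]
    have hw4 : (⟨w, hw⟩ : D) ^ p = ∏ τ : D ≃ₐ[kk A B] D, (τ y) ^ g τ := by
      apply Subtype.ext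
      rw [IntermediateField.coe_prod]
      rw [show (((⟨w, hw⟩ : D) ^ p : D) : ℂ) = w ^ p from rfl, hwp]
      refine Finset.prod_congr rfl (fun τ _ => ?_)
      rw [← hyτ τ, ← m0_zpc (D := D)]
    refine ⟨(τ' ⟨w, hw⟩ : D), hDF _ (τ' ⟨w, hw⟩).2, ?_⟩
    have hw5 := congrArg τ' hw4
    rw [map_pow, map_prod] at hw5
    have hw6 := congrArg (fun y : D => (y : ℂ)) hw5
    push_cast at hw6
    rw [hw6]
    refine Finset.prod_congr rfl (fun τ _ => ?_)
    rw [hprodX, hcom τ τ', map_zpow₀, ← hyτ (τ' * τ), m0_zpc]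
    rfl
  rw [finsum_eq_sum_of_fintype, HfX, ← ValuationSubring.valuation_le_one_iff, map_div₀, map_pow]
  have hpp : V.valuation (p : ℂ) ≠ 0 := by
    rw [Valuation.ne_zero_iff]
    exact_mod_cast hp0
  exact (div_le_one₀ (zero_lt_iff.2 hpp)).2 key2

end

end Pool.Agent.MUXE


end

section

/-!
# ME, block E (helper86): the group of a subfield of `RFE m` is commutative
-/

set_option autoImplicit false

open WeierstrassCurve Polynomial NumberField IsDedekindDomain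

namespace Pool.Agent.MEE

open _root_.MU3 _root_.Pool.Agent.MU3A _root_.Pool.Agent.MU3B _root_.Pool.Agent.MUX _root_.Pool.Agent.MUXU _root_.Pool.Agent.RI
open _root_.Pool.Agent.ME hiding ActE
open _root_.Pool.Agent.MUXE (RingE m0_fix)

noncomputable section

lemma mx_comm {A B : ℤ} (hT : TorXE A B) (m : Ideal (OO A B)) (hm : m ≠ ⊥)
    (D : IntermediateField ℚ ℂ) (h : kk A B ≤ D) (hD : ∀ y ∈ D, y ∈ RFE m) :
    letI := algC h
    ∀ τ τ' : D ≃ₐ[kk A B] D, τ * τ' = τ' * τ := by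
  intro τ τ'
  letI := algC h
  haveI := hT.fin m hm
  haveI := hT.gal m hm
  obtain ⟨σ, hσ, hσ1⟩ := hT.ext m hm D h hD τ
  obtain ⟨σ', hσ', hσ1'⟩ := hT.ext m hm D h hD τ'
  let s : ℂ ≃ₐ[kk A B] ℂ := AlgEquiv.ofRingEquiv (f := σ) (fun r => m0_fix hσ _ r.2)
  let s' : ℂ ≃ₐ[kk A B] ℂ := AlgEquiv.ofRingEquiv (f := σ') (fun r => m0_fix hσ' _ r.2)
  have e1 : ∀ y : RFE m, ((s.restrictNormal (RFE m) y : RFE m) : ℂ) = σ y := fun y =>
    AlgEquiv.restrictNormal_commutes s (RFE m) y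
  have e2 : ∀ y : RFE m, ((s'.restrictNormal (RFE m) y : RFE m) : ℂ) = σ' y := fun y =>
    AlgEquiv.restrictNormal_commutes s' (RFE m) y
  have e3 := hT.comm m hm (s.restrictNormal (RFE m)) (s'.restrictNormal (RFE m))
  refine AlgEquiv.ext fun z => Subtype.ext ?_
  show ((τ (τ' z) : D) : ℂ) = ((τ' (τ z) : D) : ℂ)
  have a1 : ((τ (τ' z) : D) : ℂ) = σ (σ' z) := by rw [← hσ1 (τ' z), ← hσ1' z]
  have a2 : ((τ' (τ z) : D) : ℂ) = σ' (σ z) := by rw [← hσ1' (τ z), ← hσ1 z]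
  rw [a1, a2]
  have e4 : ((s.restrictNormal (RFE m)) ((s'.restrictNormal (RFE m)) ⟨z, hD z z.2⟩) : ℂ) =
      ((s'.restrictNormal (RFE m)) ((s.restrictNormal (RFE m)) ⟨z, hD z z.2⟩) : ℂ) :=
    congrArg (fun f : RFE m ≃ₐ[kk A B] RFE m => ((f ⟨z, hD z z.2⟩ : RFE m) : ℂ)) e3
  rw [e1, e2, e2, e1] at e4
  exact e4

end

end Pool.Agent.MEE


end

section

/-!
# MU3, module I3L: the non-cube at all levels `n ≥ m`
-/

open NumberField IsDedekindDomain Finset
open scoped nonZeroDivisors Pointwise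

namespace Pool.Agent.MU3

open _root_.Pool.Agent.RI _root_.Pool.Agent.RID

namespace P_I3L

lemma Tg_mul {k L : Type} [Field k] [Field L] [Algebra k L] (γ : L ≃ₐ[k] L) (x y : L) :
    Tg γ (x * y) = Tg γ x * Tg γ y := by
  unfold Tg
  rw [map_mul, mul_div_mul_comm]

lemma Tg_pow {k L : Type} [Field k] [Field L] [Algebra k L] (γ : L ≃ₐ[k] L) (x : L) (n : ℕ) :
    Tg γ (x ^ n) = Tg γ x ^ n := by
  unfold Tg
  rw [map_pow, div_pow]

/-- The value of `sUnit` in `L`. -/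
lemma sUnit_val {k L F : Type} [Field k] [Field L] [NumberField L] [Algebra k L] [Field F]
    (D : Subgroup (L ≃ₐ[k] L)) [Fintype D] (γ : L ≃ₐ[k] L) (m n : ℕ) (χ : D →* Fˣ)
    (θ : F →+ ZMod 3) (u : (𝓞 L)ˣ) :
    ((sUnit D γ m n χ θ u : 𝓞 L) : L) =
      ∏ δ : D, ((δ : L ≃ₐ[k] L) (∏ i ∈ range (3 ^ (n - m)), ((γ ^ (3 ^ m)) ^ i) ((u : 𝓞 L) : L))) ^
        (θ ((χ δ)⁻¹ : Fˣ)).val := by
  let ψ : (𝓞 L)ˣ →* L := (algebraMap (𝓞 L) L : 𝓞 L →* L).comp (Units.coeHom (𝓞 L))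
  have hψ : ∀ x : (𝓞 L)ˣ, ((x : 𝓞 L) : L) = ψ x := fun _ => rfl
  have hψs : ∀ (σ : L ≃ₐ[k] L) (x : (𝓞 L)ˣ), ψ (σ • x) = σ (ψ x) := fun _ _ => rfl
  rw [hψ, hψ]
  unfold sUnit
  rw [map_prod]
  refine prod_congr rfl fun δ _ => ?_
  rw [map_pow, hψs, ng_apply, map_prod]
  simp only [hψs]

lemma core {k L M F : Type} [Field k] [Field L] [NumberField L] [Field M] [Algebra k L]
    [Algebra k M] [Field F] (j : M →+* L) (r : (L ≃ₐ[k] L) →* (M ≃ₐ[k] M))
    (hr : ∀ (σ : L ≃ₐ[k] L) (x : M), j (r σ x) = σ (j x))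
    (comm : ∀ σ τ : M ≃ₐ[k] M, σ * τ = τ * σ) (γ : L ≃ₐ[k] L) (m n m₀ : ℕ)
    (hfix : ∀ x : L, (γ ^ (3 ^ m)) x = x ↔ ∃ z : M, j z = x)
    (D : Subgroup (L ≃ₐ[k] L)) [Fintype D] (D' : Subgroup (M ≃ₐ[k] M)) [Fintype D']
    (e : D ≃* D') (he : ∀ δ : D, ((e δ : D') : M ≃ₐ[k] M) = r δ)
    (cn : L) (cm : M) (hcn : cn ≠ 0) (hcm : cm ≠ 0) (C : L) (hC : C ≠ 0)
    (hCγ : ∀ σ : L ≃ₐ[k] L, σ C = C)
    (hnrm : ∏ i ∈ range (3 ^ (n - m)), (γ ^ (3 ^ m * i)) cn = C * j cm)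
    (hω : ∀ w : L, w ^ 3 = 1 → γ w = w) (u : (𝓞 L)ˣ)
    (hu : ((u : 𝓞 L) : L) = ((γ ^ (3 ^ m₀)) ^ 3) cn / cn)
    (χ : D →* Fˣ) (θ : F →+ ZMod 3)
    (hi3 : ∀ y : M, y ^ 3 ≠ ∏ δ : D', ((δ : M ≃ₐ[k] M)
      ((Tg (r γ))^[3 ^ (m₀ + 1) + 1] cm)) ^ (θ ((χ.comp e.symm.toMonoidHom δ)⁻¹ : Fˣ)).val)
    (hTN : ∃ w : M, w ≠ 0 ∧ (Tg (r γ))^[3 ^ (m₀ + 1)] cm =
      ((r γ) ^ (3 ^ (m₀ + 1))) cm / cm * w ^ 3) :
    ∀ y : L, y ^ 3 ≠ ((sUnit D γ m n χ θ u : 𝓞 L) : L) := by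
  intro y hy
  rw [sUnit_val] at hy
  set G : L ≃ₐ[k] L := (γ ^ (3 ^ m₀)) ^ 3 with hG
  have hG' : G = γ ^ (3 ^ (m₀ + 1)) := by rw [hG, ← pow_mul, pow_succ]
  set um : M := ((r γ) ^ (3 ^ (m₀ + 1))) cm / cm with hum
  have hjcm : j cm ≠ 0 := by rw [Ne, map_eq_zero]; exact hcm
  have hrG : r G = (r γ) ^ (3 ^ (m₀ + 1)) := by rw [hG', map_pow]
  -- the norm of u
  have hN : ∏ i ∈ range (3 ^ (n - m)), ((γ ^ (3 ^ m)) ^ i) ((u : 𝓞 L) : L) = j um := by
    have e1 : ∀ i ∈ range (3 ^ (n - m)), ((γ ^ (3 ^ m)) ^ i) ((u : 𝓞 L) : L) =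
        G ((γ ^ (3 ^ m * i)) cn) / (γ ^ (3 ^ m * i)) cn := by
      intro i _
      rw [hu, ← pow_mul, map_div₀]
      congr 1
      rw [← AlgEquiv.mul_apply, ← AlgEquiv.mul_apply, hG', ← pow_add, ← pow_add, add_comm]
    rw [prod_congr rfl e1, prod_div_distrib, ← map_prod, hnrm, map_mul, hCγ, ← hr, hrG,
      mul_div_mul_left _ _ hC, hum, map_div₀]
  rw [hN] at hy
  -- the element of M
  set sm : M := ∏ δ : D', ((δ : M ≃ₐ[k] M) um) ^
    (θ ((χ.comp e.symm.toMonoidHom δ)⁻¹ : Fˣ)).val with hsm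
  have hs : ∏ δ : D, ((δ : L ≃ₐ[k] L) (j um)) ^ (θ ((χ δ)⁻¹ : Fˣ)).val = j sm := by
    rw [hsm, map_prod, ← e.toEquiv.prod_comp]
    refine prod_congr rfl fun δ _ => ?_
    rw [map_pow]
    congr 1
    · rw [← hr]
      congr 1
      show (r δ) um = ((e δ : D') : M ≃ₐ[k] M) um
      rw [he]
    · show _ = (θ ((χ (e.symm (e δ)))⁻¹ : Fˣ)).val
      rw [e.symm_apply_apply]
  rw [hs] at hy
  have hum0 : um ≠ 0 := by
    rw [hum]
    exact div_ne_zero ((map_ne_zero _).mpr hcm) hcm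
  have hsm0 : sm ≠ 0 := by
    rw [hsm, prod_ne_zero_iff]
    intro δ _
    exact pow_ne_zero _ ((map_ne_zero _).mpr hum0)
  have hjsm0 : j sm ≠ 0 := (map_ne_zero _).mpr hsm0
  have hy0 : y ≠ 0 := by
    rintro rfl
    rw [zero_pow (by norm_num)] at hy
    exact hjsm0 hy.symm
  set h : L ≃ₐ[k] L := γ ^ (3 ^ m) with hh
  have hhy : h y ≠ 0 := (map_ne_zero _).mpr hy0
  have hw3 : (h y / y) ^ 3 = 1 := by
    rw [div_pow, ← map_pow, hy, (hfix (j sm)).mpr ⟨sm, rfl⟩, div_self hjsm0]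
  have hw : γ (h y / y) = h y / y := hω _ hw3
  have hcomm : ∀ x : L, h (γ x) = γ (h x) := by
    intro x
    rw [← AlgEquiv.mul_apply, ← AlgEquiv.mul_apply, hh, ← pow_succ, ← pow_succ']
  have hγy : γ y ≠ 0 := (map_ne_zero _).mpr hy0
  have ht : h (γ y / y) = γ y / y := by
    rw [map_div₀, hcomm]
    rw [map_div₀] at hw
    rw [div_eq_div_iff hγy hy0] at hw
    rw [div_eq_div_iff hhy hy0, hw, mul_comm]
  obtain ⟨t, htj⟩ := (hfix _).mp ht
  -- γ' sm / sm = t ^ 3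
  have hT : Tg (r γ) sm = t ^ 3 := by
    apply j.injective
    unfold Tg
    rw [map_div₀, hr, map_pow, htj, div_pow, ← map_pow, hy]
  have hT2 : Tg (r γ) sm = ∏ δ : D', ((δ : M ≃ₐ[k] M) (Tg (r γ) um)) ^
      (θ ((χ.comp e.symm.toMonoidHom δ)⁻¹ : Fˣ)).val := by
    unfold Tg
    rw [hsm, map_prod, ← prod_div_distrib]
    refine prod_congr rfl fun δ _ => ?_
    rw [map_pow, ← div_pow]
    congr 1
    have e2 : (δ : M ≃ₐ[k] M) ((r γ) um / um) = (δ : M ≃ₐ[k] M) ((r γ) um) / (δ : M ≃ₐ[k] M) um :=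
      map_div₀ _ _ _
    have e3 : (r γ) ((δ : M ≃ₐ[k] M) um) = (δ : M ≃ₐ[k] M) ((r γ) um) := by
      have := comm (r γ) (δ : M ≃ₐ[k] M)
      exact congrArg (fun f : M ≃ₐ[k] M => f um) this
    rw [e2, e3]
  obtain ⟨w, hw0, hTw⟩ := hTN
  have hTN' : (Tg (r γ))^[3 ^ (m₀ + 1) + 1] cm = Tg (r γ) um * (Tg (r γ) w) ^ 3 := by
    rw [Function.iterate_succ_apply', hTw, Tg_mul, Tg_pow]
  apply hi3 (t * ∏ δ : D', ((δ : M ≃ₐ[k] M) (Tg (r γ) w)) ^
      (θ ((χ.comp e.symm.toMonoidHom δ)⁻¹ : Fˣ)).val)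
  rw [hTN', mul_pow, ← hT, hT2, ← prod_pow, ← prod_mul_distrib]
  refine prod_congr rfl fun δ _ => ?_
  rw [map_mul, map_pow, mul_pow]
  congr 1
  rw [← pow_mul, ← pow_mul, mul_comm]

end P_I3L

open _root_.Pool.Agent.MU3.P_I3L in
theorem t_I3L (h0 : S_GALK) (h1 : S_RST) (h2 : S_NRM) (h3 : S_TN) : S_I3L := by
  intro F _ k K B _ _ _ hB hω hk S c n₁ hI m₀
  obtain ⟨ω, hωK, hω1⟩ := hω
  obtain ⟨n₀, hn₀⟩ := hI.i3 (3 ^ (m₀ + 1) + 1)
  obtain ⟨m, hm1, hm2⟩ : ∃ m, n₁ ≤ m ∧ n₀ ≤ m := ⟨max n₁ n₀, le_max_left _ _, le_max_right _ _⟩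
  refine ⟨m, hm1, ?_⟩
  intro n hmn
  letI := algC (hk n)
  letI := algC (hk m)
  intro γ hγ _ u hu χ
  have hsub : K ⊔ B m ≤ K ⊔ B n := sup_le_sup_left (hB.mono hmn) K
  obtain ⟨r, hr, hrγ, e, he⟩ := h1 k K B hB m n hmn (hk n) (hk m) hsub
  obtain ⟨hr1, hr2⟩ := hrγ γ hγ
  letI : Fintype (NC (hk m) (B m)) := Fintype.ofEquiv _ e.toEquiv
  obtain ⟨θ, hθ⟩ := hn₀ m hm2 (r γ) hr1 (χ.comp e.symm.toMonoidHom)
  obtain ⟨C, hCk, hC0, hC⟩ := h2 F k K B hB hk S c n₁ hI m n hm1 hmn γ hγ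
  refine ⟨θ, ?_⟩
  have hcn : (⟨c n, hI.mem n⟩ : ↥(K ⊔ B n)) ≠ 0 := by
    intro h; exact hI.ne n (congrArg Subtype.val h)
  have hcm : (⟨c m, hI.mem m⟩ : ↥(K ⊔ B m)) ≠ 0 := by
    intro h; exact hI.ne m (congrArg Subtype.val h)
  have a1 := h3 k ↥(K ⊔ B m) (r γ) (m₀ + 1) _ hcm
  have a2 := (h0 k K B hB m (hk m)).2
  have b1 : ∀ (σ : ↥(K ⊔ B n) ≃ₐ[k] ↥(K ⊔ B n)) (x : ↥(K ⊔ B m)),
      (IntermediateField.inclusion hsub : ↥(K ⊔ B m) →+* ↥(K ⊔ B n)) (r σ x) =
        σ ((IntermediateField.inclusion hsub : ↥(K ⊔ B m) →+* ↥(K ⊔ B n)) x) :=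
    fun σ x => Subtype.ext ((Pool.Agent.FX.incl_coe' hsub _).trans (hr σ x))
  have b2 : ∀ x : ↥(K ⊔ B n), (γ ^ (3 ^ m)) x = x ↔
      ∃ z : ↥(K ⊔ B m), (IntermediateField.inclusion hsub : ↥(K ⊔ B m) →+* ↥(K ⊔ B n)) z = x := by
    intro x
    rw [hr2 x]
    constructor
    · intro hx
      exact ⟨⟨x, hx⟩, rfl⟩
    · rintro ⟨z, rfl⟩
      exact Pool.Agent.FX.incl_mem' hsub z
  have b3 : algebraMap k ↥(K ⊔ B n) ⟨C, hCk⟩ ≠ 0 := by
    rw [Ne, map_eq_zero]
    intro h; exact hC0 (congrArg Subtype.val h)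
  have b4 : ∀ σ : ↥(K ⊔ B n) ≃ₐ[k] ↥(K ⊔ B n),
      σ (algebraMap k ↥(K ⊔ B n) ⟨C, hCk⟩) = algebraMap k ↥(K ⊔ B n) ⟨C, hCk⟩ :=
    fun σ => σ.commutes _
  have b5 : ∏ i ∈ range (3 ^ (n - m)), (γ ^ (3 ^ m * i)) ⟨c n, hI.mem n⟩ =
      algebraMap k ↥(K ⊔ B n) ⟨C, hCk⟩ *
        (IntermediateField.inclusion hsub : ↥(K ⊔ B m) →+* ↥(K ⊔ B n)) ⟨c m, hI.mem m⟩ :=
    Subtype.ext hC
  have b6 : ∀ w : ↥(K ⊔ B n), w ^ 3 = 1 → γ w = w := by
    intro w hw
    rw [hγ w]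
    have hw' : (w : ℂ) ^ 3 = 1 := by
      have := congrArg Subtype.val hw
      exact this
    have h4 : ((w : ℂ) - 1) * (((w : ℂ) - ω) * ((w : ℂ) + ω + 1)) = 0 := by
      linear_combination hw' - ((w : ℂ) - 1) * hω1
    rcases mul_eq_zero.mp h4 with h5 | h5
    · rw [sub_eq_zero.mp h5]; exact K.one_mem
    · rcases mul_eq_zero.mp h5 with h6 | h6
      · rw [sub_eq_zero.mp h6]; exact hωK
      · have : (w : ℂ) = -(ω + 1) := by linear_combination h6
        rw [this]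
        exact K.neg_mem (K.add_mem hωK K.one_mem)
  have a4 := core (F := F) _ r b1 a2 γ m n m₀ b2 (NC (hk n) (B n)) (NC (hk m) (B m)) e he
  have a5 := a4 ⟨c n, hI.mem n⟩ ⟨c m, hI.mem m⟩ hcn hcm _ b3 b4 b5 b6 u hu χ θ
  have a6 := a5 hθ a1
  exact a6

end Pool.Agent.MU3


end

section

/-!
# BASE: translation between class numbers and `RelTrivC`
-/

open NumberField

namespace Pool.Agent.RI

namespace BASE

lemma finDim_of_le {F K : IntermediateField ℚ ℂ} [FiniteDimensional ℚ K] (h : F ≤ K) :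
    FiniteDimensional ℚ F :=
  FiniteDimensional.of_injective (IntermediateField.inclusion h).toLinearMap
    (IntermediateField.inclusion h).toRingHom.injective

lemma classNo_eq (E : IntermediateField ℚ ℂ) [FiniteDimensional ℚ E] :
    classNo E = NumberField.classNumber E := by
  unfold classNo NumberField.classNumber
  rw [Nat.card_eq_fintype_card]

end BASE

theorem BASE_thm (hCL : CL) : BASE := by
  intro p hp F K hK h hg hd
  have hF : FiniteDimensional ℚ F := BASE.finDim_of_le h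
  letI := algC h
  have hgal : IsGalois F K := (isGalois_algC h).mpr hg
  have hcop : (Module.finrank F K).Coprime p := by
    have h1 := finrank_algC h
    rw [Nat.coprime_comm, hp.out.coprime_iff_not_dvd]
    intro h2
    apply hd
    rw [← h1]
    exact h2
  have key := hCL p F K hcop
  rw [BASE.classNo_eq K, BASE.classNo_eq F, key]
  constructor
  · intro hr
    exact ⟨h, hF, hK, hgal, hcop, hr⟩
  · rintro ⟨h', hF', hK', hr⟩
    exact hr.2.2

end Pool.Agent.RI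


end

section

/-!
# MU3, block P: LST, one step of the tower over `L`
-/

open NumberField Finset IsDedekindDomain
open scoped nonZeroDivisors Pointwise

namespace MU3

open _root_.Pool.Agent.RI _root_.Pool.Agent.RID

namespace PLst

lemma step (h1 : N_STEP) (p m : ℕ) [Fact p.Prime] (L M N : IntermediateField ℚ ℂ)
    [FiniteDimensional ℚ L] [FiniteDimensional ℚ M] [FiniteDimensional ℚ N]
    (h0 : L ≤ M) (h' : M ≤ N) (h : L ≤ N)
    (hc : letI := algC h
      letI := algC h'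
      ∃ g : N ≃ₐ[L] N, g ^ (p ^ (m + 1)) = 1 ∧ CycExt L M N (g ^ (p ^ m)) p)
    (hlt : rkp p N < p ^ m * (p - 1)) :
    padicValNat p (classNo N) ≤ padicValNat p (classNo M) + rkp p N := by
  let a1 : Algebra L N := algC h
  let a2 : Algebra M N := algC h'
  let a3 : Algebra L M := algC h0
  have t1 : IsScalarTower L M N := towerC h0 h'
  obtain ⟨g, hg, hcyc⟩ := hc
  have key := h1 p m L M N g hg hcyc hlt
  rw [BASE.classNo_eq, BASE.classNo_eq]
  exact key

end PLst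

theorem p_LST (h1 : N_STEP) (h2 : P_TOW) : P_LST := by
  intro p _ L _ B _ hlay hmono n hr
  have h : L ≤ L ⊔ B (n + 1) := le_sup_left
  have h0 : L ≤ L ⊔ B n := le_sup_left
  have h' : L ⊔ B n ≤ L ⊔ B (n + 1) := sup_le_sup_left (hmono (Nat.le_succ n)) L
  obtain ⟨m, hm, g, hg, hor⟩ := h2 p L B hlay hmono n h h'
  rcases hor with heq | hcyc
  · have e := congrArg classNo heq
    rw [e]
    exact Nat.le_add_right _ _
  · have hlt : rkp p ↥(L ⊔ B (n + 1)) < p ^ m * (p - 1) := by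
      by_contra hc
      push Not at hc
      have e1 := Nat.mul_le_mul_right (p - 1) hm
      have e2 := Nat.mul_le_mul_right (Module.finrank ℚ L) hc
      have e3 : p ^ m * Module.finrank ℚ L * (p - 1) = p ^ m * (p - 1) * Module.finrank ℚ L := by
        ring
      rw [e3] at e1
      exact absurd hr (not_lt.2 (e1.trans e2))
    exact PLst.step h1 p m L (L ⊔ B n) (L ⊔ B (n + 1)) h0 h' h ⟨g, hg, hcyc⟩ hlt

end MU3


end

section

/-!
# MU3, block P: module CHEV, the inequality for ambiguous classes (helper18)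
-/

open NumberField Finset IsDedekindDomain
open scoped nonZeroDivisors Pointwise

namespace MU3

open _root_.Pool.Agent.RI _root_.Pool.Agent.RID

namespace Chev

lemma padic_le (p : ℕ) [hp : Fact p.Prime] {m s : ℕ} (h0 : m ≠ 0) (h : m ≤ p ^ s) :
    padicValNat p m ≤ s := by
  have h1 : p ^ padicValNat p m ≤ m := Nat.le_of_dvd (Nat.pos_of_ne_zero h0) pow_padicValNat_dvd
  exact (Nat.pow_le_pow_iff_right hp.out.one_lt).1 (h1.trans h)

lemma padic_mono (p : ℕ) [Fact p.Prime] {a b : ℕ} (hb : b ≠ 0) (h : a ∣ b) :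
    padicValNat p a ≤ padicValNat p b := by
  obtain ⟨c, rfl⟩ := h
  have ha : a ≠ 0 := by rintro rfl; simp at hb
  have hc : c ≠ 0 := by rintro rfl; simp at hb
  rw [padicValNat.mul ha hc]
  omega

end Chev

open _root_.MU3.Chev in
theorem p_CHEV (h1 : N_AMBA) (h2 : N_AMBI) (h3 : P_HQE) (h4 : P_H1P) : P_CHEV := by
  intro p a hp K L _ _ _ _ _ g hg hinf S hS
  obtain ⟨-, -, -, hH90, -, -, -, -, hgext, -, -⟩ := t_CYC K K L g (p ^ a) hg
  have hgq : g ^ (p ^ a) = 1 := by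
    rw [← hg.ord]
    exact pow_orderOf_eq_one g
  set P : Subgroup (J L) := PI L with hP
  set U : Subgroup (J L) := P.comap (dg g) with hU
  set V : Subgroup (J L) := (dg g : J L →* J L).ker with hV
  set X : Subgroup (J L) := (ext K L).range with hX
  set W : Subgroup (J L) := (PI K).map (ext K L) with hW
  have hdv : ∀ x : Lˣ, (prin : Lˣ →* J L) (g • x) = g • (prin x : J L) := fun x =>
    (smul_prin g x).symm
  have hfin : Finite (J L ⧸ P) := CL.finite_quot L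
  have hPfin : P.FiniteIndex := Subgroup.finiteIndex_of_finite_quotient
  -- containments
  have hPU : P ≤ U := by
    rintro _ ⟨x, rfl⟩
    rw [hU, Subgroup.mem_comap]
    refine ⟨x / g • x, ?_⟩
    rw [map_div, hdv]
    rfl
  have hVU : V ≤ U := by
    intro b hb
    rw [hU, Subgroup.mem_comap]
    rw [hV, MonoidHom.mem_ker] at hb
    rw [hb]
    exact one_mem _
  have hXV : X ≤ V := by
    rintro _ ⟨c, rfl⟩
    rw [hV, mem_dg_ker]
    exact hgext c
  have hWX : W ≤ X := by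
    rintro _ ⟨c, -, rfl⟩
    exact ⟨c, rfl⟩
  have hWP : W ≤ P := by
    rintro _ ⟨_, ⟨x, rfl⟩, rfl⟩
    exact ⟨_, (ext_prin (K := K) (L := L) x).symm⟩
  have hWPV : W ≤ P ⊓ V := le_inf hWP (hWX.trans hXV)
  -- multiplicativity
  have m2 : P.relIndex (P ⊔ V) * (P ⊔ V).relIndex U = P.relIndex U :=
    Subgroup.relIndex_mul_relIndex P (P ⊔ V) U le_sup_left (sup_le hPU hVU)
  have e1 : P.relIndex (P ⊔ V) = P.relIndex V := by
    rw [sup_comm]
    exact Subgroup.relIndex_sup_right V P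
  have e2 : (P ⊓ V).relIndex V = P.relIndex V := Subgroup.inf_relIndex_right P V
  have m3 : W.relIndex (P ⊓ V) * (P ⊓ V).relIndex V = W.relIndex V :=
    Subgroup.relIndex_mul_relIndex W (P ⊓ V) V hWPV inf_le_right
  have m4 : W.relIndex X * X.relIndex V = W.relIndex V :=
    Subgroup.relIndex_mul_relIndex W X V hWX hXV
  have e3 : W.relIndex X = NumberField.classNumber K := by
    rw [CL.classNumber_eq K]
    have e4 : X = (⊤ : Subgroup (J K)).map (ext K L) := by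
      rw [hX, MonoidHom.range_eq_map]
    rw [e4, hW, Subgroup.relIndex_map_map_of_injective _ _ (ext_injective K L),
      Subgroup.relIndex_top_right]
    rfl
  -- units
  have d4 : (P ⊔ V).relIndex U ∣ ((UE L).map (ng g (p ^ a))).relIndex (UE L ⊓ (dg g).ker) :=
    h1 (p ^ a) Lˣ (J L) (L ≃ₐ[K] L) (prin : Lˣ →* J L) g hgq hdv hH90
  obtain ⟨k1, k2⟩ := h3 p a K L g hg hinf
  have k3 := h4 (p ^ a) K L g hg
  -- ideals
  obtain ⟨k4, k5⟩ := h2 K K L g (p ^ a) hg S hS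
  have b3 : padicValNat p (X.relIndex V) ≤ a * S.card := by
    apply padic_le p k4
    rw [pow_mul]
    exact k5
  have hcn : NumberField.classNumber K ≠ 0 := by
    rw [NumberField.classNumber]
    exact Fintype.card_ne_zero
  -- the valuations
  generalize hh0 : ((UE L).map (ng g (p ^ a))).relIndex (UE L ⊓ (dg g).ker) = h₀ at d4 k2
  have hh1 : W.relIndex (P ⊓ V) = h₀ * p ^ a := k3.trans k2.symm
  rw [← k2] at k1
  have hp0 : p ^ a ≠ 0 := pow_ne_zero _ hp.out.ne_zero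
  have hh00 : h₀ ≠ 0 := fun h => k1 (by rw [h, zero_mul])
  have n0 : P.relIndex U ≠ 0 := Subgroup.FiniteIndex.index_ne_zero
  have n1 : P.relIndex V ≠ 0 := by
    rw [← e1]
    exact Subgroup.FiniteIndex.index_ne_zero
  have n4 : (P ⊔ V).relIndex U ≠ 0 := by
    intro h
    rw [h, mul_zero] at m2
    exact n0 m2.symm
  have v1 : padicValNat p (P.relIndex U) ≤ padicValNat p (P.relIndex V) + padicValNat p h₀ := by
    rw [← m2, e1, padicValNat.mul n1 n4]
    have := padic_mono p hh00 d4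
    omega
  have v2 : padicValNat p h₀ + a + padicValNat p (P.relIndex V) =
      padicValNat p (NumberField.classNumber K) + padicValNat p (X.relIndex V) := by
    have h5 : h₀ * p ^ a * P.relIndex V = NumberField.classNumber K * X.relIndex V := by
      rw [← hh1, ← e2, m3, ← m4, e3]
    have h6 := congrArg (padicValNat p) h5
    rw [padicValNat.mul (mul_ne_zero hh00 hp0) n1, padicValNat.mul hh00 hp0,
      padicValNat.prime_pow, padicValNat.mul hcn k4] at h6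
    exact h6
  omega

end MU3


end

section

/-!
# MUX, block E: module TRB, existence of torsion points, points killed by a maximal ideal
-/

set_option autoImplicit false

namespace Pool.Agent.MUXE

open _root_.MU3 _root_.Pool.Agent.MU3A _root_.Pool.Agent.MU3B _root_.Pool.Agent.MUX _root_.Pool.Agent.MUXU _root_.Pool.Agent.RI

noncomputable section

private lemma trb_inj_MUXE_TRB {A B : ℤ} (hR : RingE A B) (x y : OO A B) (h : emb x = emb y) : x = y := by
  obtain ⟨φ, hφ⟩ := hR.hom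
  have h1 : emb (x - y) = 0 := by
    rw [← hφ, map_sub, hφ, hφ, h, sub_self]
  exact sub_eq_zero.1 (hR.inj0 _ h1)

private lemma trb_key_MUXE_TRB {A B : ℤ} (hR : RingE A B) {b : Ideal (OO A B)} {L : PeriodPair} {om : ℂ}
    (hL : IsNL b L om) (N : ℕ) (hN : 0 < N) (y t : OO A B) :
    emb t * (om * emb y / N) ∈ L.lattice ↔ t * y ∈ sp (N : OO A B) * b := by
  obtain ⟨φ, hφ⟩ := hR.hom
  have hN' : (N : ℂ) ≠ 0 := by
    have : N ≠ 0 := by omega
    exact_mod_cast this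
  have hom : om ≠ 0 := hL.om_ne
  have hNe : emb ((N : ℕ) : OO A B) = (N : ℂ) := by
    rw [← hφ, map_natCast]
  rw [hL.mem, Ideal.mem_span_singleton_mul]
  constructor
  · rintro ⟨u, hu, h⟩
    refine ⟨u, hu, ?_⟩
    apply trb_inj_MUXE_TRB hR
    rw [← hφ (N * u), ← hφ (t * y), map_mul, map_mul, hφ, hφ, hφ, hφ, hNe]
    field_simp at h
    rw [h]
  · rintro ⟨u, hu, h⟩
    refine ⟨u, hu, ?_⟩
    have h1 : (N : ℂ) * emb u = emb t * emb y := by
      rw [← hNe, ← hφ, ← hφ, ← hφ, ← hφ, ← map_mul, ← map_mul, h]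
    field_simp
    rw [← h1]

private lemma trb_cancel_MUXE_TRB {A B : ℤ} (hR : RingE A B) (I J K : Ideal (OO A B)) (hK : K ≠ ⊥)
    (h : I * K ≤ J * K) : I ≤ J := by
  have := hR.ded
  have h1 : J * K ∣ I * K := Ideal.dvd_iff_le.2 h
  exact Ideal.dvd_iff_le.1 ((mul_dvd_mul_iff_right (c := K) hK).1 h1)

private lemma trb_fac_MUXE_TRB {A B : ℤ} (hR : RingE A B) (I : Ideal (OO A B)) (N : ℕ) (hN : 0 < N)
    (h : (N : OO A B) ∈ I) : ∃ c : Ideal (OO A B), sp (N : OO A B) = I * c ∧ c ≠ ⊥ := by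
  have := hR.ded
  obtain ⟨φ, hφ⟩ := hR.hom
  have h1 : I ∣ sp (N : OO A B) := Ideal.dvd_span_singleton.2 h
  obtain ⟨c, hc⟩ := h1
  refine ⟨c, hc, ?_⟩
  rintro rfl
  rw [Ideal.mul_bot, Ideal.span_singleton_eq_bot] at hc
  have h2 : φ ((N : ℕ) : OO A B) = 0 := by rw [hc, map_zero]
  rw [map_natCast] at h2
  have : N = 0 := by exact_mod_cast h2
  omega

private lemma trb_ne_MUXE_TRB {A B : ℤ} (hR : RingE A B) (I J : Ideal (OO A B)) (hI : I ≠ ⊥) (hJ : J ≠ ⊥) :
    I * J ≠ ⊥ := by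
  have := hR.ded
  intro h
  rcases mul_eq_zero.1 (show I * J = 0 from h) with h | h
  · exact hI h
  · exact hJ h

theorem te_TRB : Sxe_TRB := by
  intro A B hR L hL
  obtain ⟨b, om, hL⟩ := hL
  have := hR.ded
  refine ⟨?_, ?_⟩
  · intro m m' hm' hlt
    obtain ⟨N, hN, hNm⟩ := hR.pos m' hm'
    obtain ⟨c, hc, hc0⟩ := trb_fac_MUXE_TRB hR m' N hN hNm
    have h1 : ¬ m * (c * b) ≤ m' * (c * b) := by
      intro h
      exact absurd (trb_cancel_MUXE_TRB hR _ _ _ (trb_ne_MUXE_TRB hR c b hc0 hL.b_ne) h) (not_le_of_gt hlt)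
    rw [Ideal.mul_le] at h1
    push Not at h1
    obtain ⟨x, hx, y, hy, hxy⟩ := h1
    have h2 : m' * (c * b) = sp (N : OO A B) * b := by rw [hc, mul_assoc]
    refine ⟨om * emb y / N, ?_, ?_⟩
    · intro t ht
      rw [trb_key_MUXE_TRB hR hL N hN, ← h2]
      exact Ideal.mul_mem_mul ht hy
    · intro h
      have h3 := h x hx
      rw [trb_key_MUXE_TRB hR hL N hN, ← h2] at h3
      exact hxy h3
  · intro Q hQ hmax z w hz hw hzL
    obtain ⟨φ, hφ⟩ := hR.hom
    obtain ⟨N, hN, hNQ⟩ := hR.pos Q hQ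
    have hN' : (N : ℂ) ≠ 0 := by
      have : N ≠ 0 := by omega
      exact_mod_cast this
    obtain ⟨c, hc, hc0⟩ := trb_fac_MUXE_TRB hR Q N hN hNQ
    have hNe : emb ((N : ℕ) : OO A B) = (N : ℂ) := by
      rw [← hφ, map_natCast]
    have hone : emb (1 : OO A B) = 1 := by rw [← hφ, map_one]
    obtain ⟨c₁, hc₁, hc₁'⟩ := (hL.mem _).1 (hz _ hNQ)
    obtain ⟨c₂, hc₂, hc₂'⟩ := (hL.mem _).1 (hw _ hNQ)
    rw [hNe] at hc₁' hc₂'
    have hz' : z = om * emb c₁ / N := by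
      field_simp
      rw [← hc₁']
      ring
    have hw' : w = om * emb c₂ / N := by
      field_simp
      rw [← hc₂']
      ring
    set K : Ideal (OO A B) := c * b with hK
    have hK0 : K ≠ ⊥ := trb_ne_MUXE_TRB hR c b hc0 hL.b_ne
    have h2 : Q * K = sp (N : OO A B) * b := by rw [hc, mul_assoc]
    have h3 : ∀ d : OO A B, (∀ q ∈ Q, q * d ∈ Q * K) → sp d ⊔ Q * K ≤ K := by
      intro d hd
      refine sup_le ?_ Ideal.mul_le_right
      apply trb_cancel_MUXE_TRB hR _ _ Q hQ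
      rw [mul_comm, mul_comm K Q, Ideal.mul_le]
      intro q hq r hr
      obtain ⟨s, rfl⟩ := Ideal.mem_span_singleton.1 hr
      have h10 : q * (d * s) = (q * d) * s := (mul_assoc _ _ _).symm
      rw [h10]
      exact Ideal.mul_mem_right _ _ (hd q hq)
    have hd1 : ∀ q ∈ Q, q * c₁ ∈ Q * K := by
      intro q hq
      rw [h2, ← trb_key_MUXE_TRB hR hL N hN, ← hz']
      exact hz q hq
    have hd2 : ∀ q ∈ Q, q * c₂ ∈ Q * K := by
      intro q hq
      rw [h2, ← trb_key_MUXE_TRB hR hL N hN, ← hw']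
      exact hw q hq
    have hn1 : c₁ ∉ Q * K := by
      intro h
      rw [h2] at h
      have h4 : (1 : OO A B) * c₁ ∈ sp (N : OO A B) * b := by rwa [one_mul]
      rw [← trb_key_MUXE_TRB hR hL N hN, ← hz', hone, one_mul] at h4
      exact hzL h4
    have h5 := h3 c₁ hd1
    have h6 := h3 c₂ hd2
    obtain ⟨J', hJ'⟩ := Ideal.dvd_iff_le.2 h5
    have h7 : Q ≤ J' := by
      apply trb_cancel_MUXE_TRB hR _ _ K hK0
      rw [mul_comm J' K, ← hJ']
      exact le_sup_right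
    have h8 : J' = ⊤ := by
      by_contra hne
      have h9 : Q = J' := hmax.eq_of_le hne h7
      apply hn1
      have h10 : Q * K = sp c₁ ⊔ Q * K := by
        rw [hJ', ← h9, mul_comm]
      rw [h10]
      exact (le_sup_left : sp c₁ ≤ _) (Ideal.mem_span_singleton_self c₁)
    have h9 : c₂ ∈ sp c₁ ⊔ Q * K := by
      rw [hJ', h8, Ideal.mul_top]
      exact h6 ((le_sup_left : sp c₂ ≤ _) (Ideal.mem_span_singleton_self c₂))
    rw [Submodule.mem_sup] at h9
    obtain ⟨u, hu, v, hv, huv⟩ := h9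
    obtain ⟨x, rfl⟩ := Ideal.mem_span_singleton.1 hu
    rw [h2, Ideal.mem_span_singleton_mul] at hv
    obtain ⟨d, hd, rfl⟩ := hv
    refine ⟨x, (hL.mem _).2 ⟨d, hd, ?_⟩⟩
    have h11 : emb c₂ = emb c₁ * emb x + N * emb d := by
      rw [← hφ c₂, ← huv, map_add, map_mul, map_mul, map_natCast, hφ, hφ, hφ]
    rw [hz', hw', h11]
    field_simp
    ring

end

end Pool.Agent.MUXE


end

section

/-!
# MUX, block W, part 2 (helper59): half systems of `XX`
-/

set_option autoImplicit false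

open WeierstrassCurve Polynomial NumberField IsDedekindDomain

namespace Pool.Agent.MUXW

open _root_.MU3 _root_.Pool.Agent.MU3A _root_.Pool.Agent.MU3B _root_.Pool.Agent.MU3C _root_.Pool.Agent.RI _root_.Pool.Agent.RID
open _root_.Pool.Agent.MUX _root_.Pool.Agent.ME _root_.Pool.Agent.MUXU
open _root_.Pool.Agent.MU3V (cls Sub GD)
open _root_.Pool.Agent.MUXV (GR InK tX CMO Ovr)

noncomputable section

/-- (CXS) `cWt h θ τ` is the product of `Θ_a` over one half of `XXE R m h τ` (block E, `p = 2` and `3`).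

Uses Sy_HIT_E, Sy_THG_E, Sy_MEM, Su_DET. PROOF. `L = R.L R.i0`, `F = RFE (idl m)`. For every automorphism `σ` of `F/k` which extends `τ` choose an extension `s ∈ Aut(ℂ/k)` of `σ` (`T.ext` for the field `F` restricted to `ℚ`, or AUE) and a pair `(i, x)` with `HitsE R m s i x` (HIT); `S` = the set of the `(i, cls x)`. `s` extends `τ` as well, so
`S ⊆ XXE R m h τ`, and `XXE R m h τ = S ∪ -S`: if `s'` extends `τ` and hits `(j, y)`, its restriction to `F` (`F/k` normal) is one of the `σ`, and `HitsE R m s' j y ↔ HitsE R m s j y` (`HitsE` only depends on the values of `s` at `kapE L`, `xnE L (ptE 1) ∈ F`), so `j = i`, `y ≡ ± x` (HIT). `(i, -x) ∉ S` and the map `σ ↦ (i, cls x)` is injective: let `s`, `s'` (for `σ`, `σ'`)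
hit `(i, x)` and `(i, ± x)`: then `t = s⁻¹ s'` fixes `kapE L` and `xnE L (ptE R m i0 1)`; `T.act` for `t`: ideal `a`, `L'`, `mu`; `kapE L' = kapE L`, both normalised: the same lattice (DET), `mu = emb c`, `a = (c)` (as in KER), `xnE L (c om/m) = xnE L (om/m)`, so `c ≡ ± 1` modulo `m` (`b_NEQ`), so `t` is trivial on `F` (`T.triv`): `σ = σ'`. If both are the same `σ` then
`x ≡ - x` modulo `m` is excluded (`¬ m ∣ 2 x`, HIT). The factor of `(i, cls x)` in the product is `Θ_a(ptE R m i x; L_i) = σ(θ)` (THG; `Θ_a` is even and periodic, `b_TIN`: the representative `Quotient.out` of the class of `x` does not matter). -/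
def Sy_CXS_E : Prop :=
  ∀ A B : ℤ, CaseE A B → TorXE A B → ∀ (n : ℕ) (ι : Type) (R : RepsE A B n ι) (m : ℕ), m ≠ 0 →
    2 ∣ m →
    (∀ i, (nI (R.b i)).Coprime m) → ¬ ((m : ℕ) : OO A B) ∣ 2 →
    ∀ (a : ℕ) (H : ι → Finset ℂ), a ≠ 0 → a.Coprime m → (∀ i, IsHalf (R.L i) a (H i)) →
    ∀ θ : (RFE (idl m) : IntermediateField (kk A B) ℂ),
    (θ : ℂ) = ThetaH (R.L R.i0) (H R.i0) (Pool.Agent.ME.ptE R m R.i0 1) →
    ∀ (D : IntermediateField ℚ ℂ) (h : kk A B ≤ D),
    _root_.Pool.Agent.MU3V.Sub D (RFE (idl m) : IntermediateField (kk A B) ℂ) → letI := algC h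
    ∀ τ : D ≃ₐ[kk A B] D, ∃ S : Finset (ι × (OO A B ⧸ idl (A := A) (B := B) m)),
      (∀ q, q ∈ XXE R m h τ ↔ q ∈ S ∨ (q.1, -q.2) ∈ S) ∧ (∀ q ∈ S, (q.1, -q.2) ∉ S) ∧
      cWt h θ τ = ∏ q ∈ S, ThetaH (R.L q.1) (H q.1)
        (Pool.Agent.ME.ptE R m q.1 (Quotient.out q.2))

end

end Pool.Agent.MUXW


end

section

/-!
# MUX, block E, module UNR: `F_(m') / k` is unramified at `V`
-/

set_option autoImplicit false

open WeierstrassCurve Polynomial NumberField IsDedekindDomain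

namespace Pool.Agent.MUXE

open _root_.MU3 _root_.Pool.Agent.MU3A _root_.Pool.Agent.MU3B _root_.Pool.Agent.MUX _root_.Pool.Agent.MUXU _root_.Pool.Agent.RI

noncomputable section

/-- `xn L z` is integral if `z` is not in the kernel of reduction -/
theorem unr_int {V : ValuationSubring ℂ} {L : PeriodPair} {z : ℂ} (h : ¬ InEn V L z) :
    V.valuation (xn L z) ≤ 1 := by
  rw [V.valuation_le_one_iff]
  by_contra hc
  exact h (Or.inr hc)

theorem te_UNR (h1 : Sxe_RAM) (h2 : Sxe_COP) (h3 : Sxe_TRA) (h4 : Sxe_FAC) : Sxe_UNR := by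
  intro p A B P V hC hG m' hm' hmP y hy hy0
  have hR := hC.ring
  obtain ⟨φ, hφ⟩ := hR.hom
  have hfin := hG.fin m' hm'
  have hgal := hG.gal m' hm'
  obtain ⟨f1, f2, f3, f4, f5⟩ := h4 A B hR
  have hone : emb (1 : OO A B) = 1 := by rw [← hφ, map_one]
  refine h1 p A B P V hC (RF m') ?_ y hy hy0
  intro σ hσ
  -- `σ` fixes the numbers `kap L`
  have hkap : ∀ L, NL A B L → ∀ h : kap L ∈ RF m', _root_.Pool.Agent.MU3A.em σ ⟨kap L, h⟩ = kap L := by
    intro L hL h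
    obtain ⟨L', hL', hk⟩ := hG.conj m' hm' (_root_.Pool.Agent.MU3A.em σ) L hL h
    have h5 := hσ ⟨kap L, h⟩ (hC.vkap L hL)
    have h6 : ((σ ⟨kap L, h⟩ : RF m') : ℂ) = kap L' := hk
    rw [h6] at h5
    rw [hk, hC.inj L' L hL' hL h5]
  -- so it fixes `RF ⊤`
  have htop : ∀ y ∈ RF (⊤ : Ideal (OO A B)), ∃ h : y ∈ RF m', _root_.Pool.Agent.MU3A.em σ ⟨y, h⟩ = y := by
    intro y hy
    refine IntermediateField.adjoin_induction (F := kk A B)
      (p := fun y _ => ∃ h : y ∈ RF m', _root_.Pool.Agent.MU3A.em σ ⟨y, h⟩ = y) ?_ ?_ ?_ ?_ ?_ hy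
    · rintro c ⟨b, L, om, hL, hc⟩
      have hNL : NL A B L := ⟨b, om, hL⟩
      rcases hc with rfl | ⟨z, hz, hz', -⟩
      · exact ⟨(f2 m' L hNL).1, hkap L hNL _⟩
      · exfalso
        have h5 := hz 1 Submodule.mem_top
        rw [hone, one_mul] at h5
        exact hz' h5
    · intro x
      exact ⟨(RF m').algebraMap_mem x, (_root_.Pool.Agent.MU3A.em σ).commutes x⟩
    · rintro x y - - ⟨hx, hx'⟩ ⟨hy, hy'⟩
      refine ⟨add_mem hx hy, ?_⟩
      have h5 := map_add (_root_.Pool.Agent.MU3A.em σ) ⟨x, hx⟩ ⟨y, hy⟩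
      rw [hx', hy'] at h5
      exact h5
    · rintro x - ⟨hx, hx'⟩
      refine ⟨inv_mem hx, ?_⟩
      have h5 := map_inv₀ (_root_.Pool.Agent.MU3A.em σ) ⟨x, hx⟩
      rw [hx'] at h5
      exact h5
    · rintro x y - - ⟨hx, hx'⟩ ⟨hy, hy'⟩
      refine ⟨mul_mem hx hy, ?_⟩
      have h5 := map_mul (_root_.Pool.Agent.MU3A.em σ) ⟨x, hx⟩ ⟨y, hy⟩
      rw [hx', hy'] at h5
      exact h5
  obtain ⟨α, -, hα⟩ := hG.ker m' ⊤ hm' le_top (_root_.Pool.Agent.MU3A.em σ) (by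
    intro y hy hyt
    obtain ⟨h, h'⟩ := htop y hyt
    exact h')
  -- `σ` fixes the numbers `xn L z`
  have hxn : ∀ L, NL A B L → ∀ z, Tor m' L z → z ∉ L.lattice → ∀ hx : xn L z ∈ RF m',
      _root_.Pool.Agent.MU3A.em σ ⟨xn L z, hx⟩ = xn L z := by
    intro L hL z hz hzL hx
    obtain ⟨-, t2, t3, -, -, -, -, -, t9⟩ := h3 A B hR L hL
    obtain ⟨-, ha⟩ := hα.2 L hL
    obtain ⟨haL, hax⟩ := ha z hz hzL
    have hcop : ∀ w, Tor m' L w → InEn V L w → w ∈ L.lattice := fun w hw hw' =>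
      h2 p A B P V hC L hL m' hm' hmP w hw hw'
    have n1 : ¬ InEn V L z := fun h => hzL (hcop z hz h)
    have n2 : ¬ InEn V L (emb α * z) := fun h => haL (hcop _ (t3 m' α z hz) h)
    have h5 := hσ ⟨xn L z, hx⟩ (unr_int n1)
    have h6 : ((σ ⟨xn L z, hx⟩ : RF m') : ℂ) = xn L (emb α * z) := hax hx
    rw [h6] at h5
    have e1 : emb α * z + z = emb (α + 1) * z := by
      rw [← hφ, ← hφ, map_add, map_one]
      ring
    have e2 : emb α * z - z = emb (α - 1) * z := by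
      rw [← hφ, ← hφ, map_sub, map_one]
      ring
    rw [hax hx]
    by_cases h7 : InEn V L (emb α * z + z)
    · have h8 : emb α * z + z ∈ L.lattice := hcop _ (by rw [e1]; exact t3 m' _ z hz) h7
      have h9 : emb α * z - -z ∈ L.lattice := by rwa [sub_neg_eq_add]
      rw [((t9 _ _ h9).2 haL).1]
      have h10 : z - z ∈ L.lattice := by rw [sub_self]; exact zero_mem _
      exact ((t9 z z h10).2 hzL).2.2
    · by_cases h8 : InEn V L (emb α * z - z)
      · have h9 : emb α * z - z ∈ L.lattice := hcop _ (by rw [e2]; exact t3 m' _ z hz) h8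
        exact ((t9 _ _ h9).2 haL).1
      · exfalso
        rw [(hC.gx L hL).sub _ _ n2 n1 h7 h8] at h5
        exact lt_irrefl _ h5
  -- conclusion
  have hcop1 : IsCoprime (sp (1 : OO A B)) m' := by
    have : sp (1 : OO A B) = 1 := by
      show Ideal.span {(1 : OO A B)} = 1
      rw [Ideal.span_singleton_one, Ideal.one_eq_top]
    rw [this]
    exact isCoprime_one_left
  have a1 : ActE (_root_.Pool.Agent.MU3A.em σ) m' (1 : OO A B) := by
    refine ⟨hcop1, fun L hL => ⟨fun h => hkap L hL h, fun z hz hzL => ?_⟩⟩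
    rw [hone, one_mul]
    exact ⟨hzL, fun hx => hxn L hL z hz hzL hx⟩
  have a2 : ActE (_root_.Pool.Agent.MU3A.em (1 : RF m' ≃ₐ[kk A B] RF m')) m' (1 : OO A B) := by
    refine ⟨hcop1, fun L hL => ⟨fun h => rfl, fun z hz hzL => ?_⟩⟩
    rw [hone, one_mul]
    exact ⟨hzL, fun hx => rfl⟩
  have heq := f3 m' (_root_.Pool.Agent.MU3A.em σ) (_root_.Pool.Agent.MU3A.em 1) 1 a1 a2
  apply AlgEquiv.ext
  intro x
  apply Subtype.ext
  exact congrArg (fun f : RF m' →ₐ[kk A B] ℂ => f x) heq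

end

end Pool.Agent.MUXE


end

section

/-!
# MUX, block E, module BDL (helper66)
-/

set_option autoImplicit false

namespace Pool.Agent.MUXE

open _root_.MU3 _root_.Pool.Agent.MU3A _root_.Pool.Agent.MU3B _root_.Pool.Agent.MUX _root_.Pool.Agent.MUXU _root_.Pool.Agent.RI

noncomputable section

lemma bdl_lv {p f n : ℕ} (hp : p = 2 ∨ p = 3) :
    ∃ e : ℕ, lvX p f n = p ^ e * f := by
  rcases hp with rfl | rfl
  · exact ⟨n + 2, by simp [lvX, q0]; ring⟩
  · exact ⟨n + 1, by simp [lvX, q0]; ring⟩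

lemma bdl_pf {p f n : ℕ} (hp : p = 2 ∨ p = 3) (hf : f ≠ 0) :
    (lvX p f n).primeFactors ⊆ (p * f).primeFactors := by
  obtain ⟨e, he⟩ := bdl_lv (f := f) (n := n) hp
  have hp0 : p ≠ 0 := by rcases hp with rfl | rfl <;> norm_num
  rw [he, Nat.primeFactors_mul (pow_ne_zero _ hp0) hf, Nat.primeFactors_mul hp0 hf]
  refine Finset.union_subset_union (fun q hq => ?_) (by rfl)
  have hq' := Nat.mem_primeFactors.1 hq
  exact Nat.mem_primeFactors.2 ⟨hq'.1, hq'.1.dvd_of_dvd_pow hq'.2.1, hp0⟩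

lemma bdl_odd {L : PeriodPair} {a : ℕ} {z l : ℂ} (hl : l ∈ L.lattice) :
    dlX L a (l - z) = -dlX L a z := by
  obtain ⟨h1, h2⟩ := b_PER L
  have hal : (a : ℂ) * l ∈ L.lattice := by
    have := nsmul_mem hl a
    simpa [nsmul_eq_mul] using this
  unfold dlX
  have e1 : ee L (l - z) = -ee L z := by
    rw [show l - z = -z + l by ring, h1 _ _ hl, h2]
  have e2 : ee L ((a : ℂ) * (l - z)) = -ee L (a * z) := by
    rw [show (a : ℂ) * (l - z) = -(a * z) + a * l by ring, h1 _ _ hal, h2]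
  rw [e1, e2]
  ring

lemma bdl_pt (h2 : Sxe_PT) {A B : ℤ} (hr : RingE A B) {n : ℕ} {ι : Type} (R : Reps A B n ι)
    (hn : n ≠ 0) (i : ι) {m : ℕ} (hm0 : m ≠ 0) {x y : OO A B}
    (hy : x + y ∈ idl (A := A) (B := B) m) :
    ∃ l ∈ (R.L i).lattice, pt R m i y = l - pt R m i x := by
  obtain ⟨hmu0, hmuL, -, -⟩ := h2 A B hr n ι R hn i
  obtain ⟨t, ht⟩ := Ideal.mem_span_singleton.1 hy
  obtain ⟨φ, hφ⟩ := hr.hom
  have e1 : emb y = (m : ℂ) * emb t - emb x := by
    have : y = ((m : ℕ) : OO A B) * t - x := by rw [← ht]; ring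
    rw [this, ← hφ, ← hφ, ← hφ, map_sub, map_mul, map_natCast]
  have hmc : (m : ℂ) ≠ 0 := by exact_mod_cast hm0
  refine ⟨R.om i * nI (R.b i) * emb t, ?_, ?_⟩
  · have hu : R.om R.i0 * emb t ∈ (R.L R.i0).lattice := by
      rw [(R.nl R.i0).mem]
      exact ⟨t, by rw [R.b0]; trivial, rfl⟩
    have h5 := hmuL _ hu
    have hom : R.om R.i0 ≠ 0 := (R.nl R.i0).om_ne
    have e4 : muX R i * (R.om R.i0 * emb t) = R.om i * nI (R.b i) * emb t := by
      unfold muX
      field_simp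
    rwa [e4] at h5
  · unfold pt
    rw [e1]
    field_simp

theorem te_BDL (h1 : Sxe_CTX) (h2 : Sxe_PT) (h3 : Sxe_NE1) (h4 : Sxe_THE) : Sxe_BDL := by
  intro p A B P V f hS hr hR ι R n H hH i x hx
  have hctx := h1 p A B P V f hS hr hR
  obtain ⟨e, he⟩ := bdl_lv (f := f) (n := n) hctx.two
  obtain ⟨ha3, hap, haf⟩ := m0_aX hctx.two hS.f0
  have hf2 := m0_f hS
  have hp0 : p ≠ 0 := by rcases hctx.two with rfl | rfl <;> norm_num
  have hm0 : lvX p f n ≠ 0 := by rw [he]; exact mul_ne_zero (pow_ne_zero _ hp0) hS.f0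
  obtain ⟨hmu0, hmuL, -, hpt⟩ := h2 A B hr (p * f) ι R (mul_ne_zero hp0 hS.f0) i
  obtain ⟨hpe, hmz, hex, -⟩ := hpt (lvX p f n) hm0 (bdl_pf hctx.two hS.f0) x
  have hNL : NL A B (R.L i) := ⟨R.b i, R.om i, R.nl i⟩
  have hne := h3 p A B P V hctx (R.L i) hNL e f (aX p f) hf2 hS.fp hap haf
    (pt R (lvX p f n) i x) (by rw [← he]; exact hmz) (fun c hc => by rw [← he]; exact hex hx c hc)
  obtain ⟨hz1, haz, hq⟩ := hne
  constructor
  · refine (h4 A B V (R.L i) (hctx.gx _ hNL) (aX p f) (H i) (by omega) (hH i)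
      (pt R (lvX p f n) i x) hz1 haz (fun q hqH => hq q ((hH i).mem q hqH) ?_)).2.1
    intro hqL
    exact (hH i).ne q hqH (by rw [two_mul]; exact add_mem hqL hqL)
  · intro y hy
    obtain ⟨l, hl, e2⟩ := bdl_pt h2 hr R (mul_ne_zero hp0 hS.f0) i hm0 hy
    rw [e2]
    exact bdl_odd hl

end

end Pool.Agent.MUXE


end

section

/-!
# MUX, block E, module EW: the final form (helper66)
-/

set_option autoImplicit false

namespace Pool.Agent.MUXE

open _root_.MU3 _root_.Pool.Agent.MU3A _root_.Pool.Agent.MU3B _root_.Pool.Agent.MUX _root_.Pool.Agent.MUXU _root_.Pool.Agent.RI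

noncomputable section

lemma ew_fin {A B : ℤ} (hT : TorX A B) (m : Ideal (OO A B)) (hm : m ≠ ⊥)
    (D : IntermediateField ℚ ℂ) (h : kk A B ≤ D) (hD : ∀ y ∈ D, y ∈ RF m) :
    letI := algC h
    Finite (D ≃ₐ[kk A B] D) := by
  letI := algC h
  have := hT.fin _ hm
  have := Pool.Agent.FX.fd_of_le h hD
  infer_instance

lemma ew_hits (h2 : Sxe_PT) (h5 : Sxe_TRA) {A B : ℤ} (hr : RingE A B) {n : ℕ} {ι : Type}
    (R : Reps A B n ι) (hn : n ≠ 0) (i : ι) {m : ℕ} (hm0 : m ≠ 0) {x y : OO A B}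
    (hy : x + y ∈ idl (A := A) (B := B) m) {σ : ℂ ≃+* ℂ} (hσ : Hits R m σ i x) :
    Hits R m σ i y := by
  obtain ⟨l, hl, e2⟩ := bdl_pt h2 hr R hn i hm0 hy
  have hNL : NL A B (R.L i) := ⟨R.b i, R.om i, R.nl i⟩
  obtain ⟨-, -, -, -, -, -, -, -, t9⟩ := h5 A B hr (R.L i) hNL
  obtain ⟨a1, a2, a3⟩ := hσ
  have hnz : -(pt R m i x) ∉ (R.L i).lattice := fun h => a3 (by simpa using neg_mem h)
  have hd : -(pt R m i x) - pt R m i y ∈ (R.L i).lattice := by
    rw [e2]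
    have : -(pt R m i x) - (l - pt R m i x) = -l := by ring
    rw [this]
    exact neg_mem hl
  obtain ⟨b1, b2⟩ := t9 _ _ hd
  obtain ⟨c1, -, c3⟩ := b2 hnz
  refine ⟨a1, ?_, fun h => hnz (b1.2 h)⟩
  rw [a2, ← c1, ← c3, neg_neg]

theorem te_EW (h0 : Sxe_MAIN0) (h1 : Sxe_CTX) (h2 : Sxe_PT) (h3 : Sxe_WI) (h4 : Sxe_MUV)
    (h5 : Sxe_TRA) (h6 : Sxe_BDL) : Sxe_EW := by
  classical
  intro p A B P V f hS hr hR hT ι _ R
  have hctx := h1 p A B P V f hS hr hR
  have hp0 : p ≠ 0 := by rcases hctx.two with rfl | rfl <;> norm_num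
  have hpf : p * f ≠ 0 := mul_ne_zero hp0 hS.f0
  refine ⟨h4 p A B P V hctx (p * f) ι R hpf (dvd_mul_right p f), ?_⟩
  obtain ⟨c, hc1, hc2⟩ := h3 p A B P V hctx (p * f) ι R hpf (dvd_mul_right p f)
  refine ⟨c, hc1, ?_⟩
  intro n hn H hH w hw D hD hDF
  intro C hC1 hCS g hcube τ'
  letI := algC hD
  obtain ⟨e, he, hlv⟩ := m0_lv (f := f) hctx.two hn
  have hm0 : lvX p f n ≠ 0 := by rw [hlv]; exact mul_ne_zero (pow_ne_zero _ hp0) hS.f0
  have hmb := m0_ne A B hr hm0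
  have hfinG := ew_fin hT _ hmb D hD hDF
  letI : Fintype (D ≃ₐ[kk A B] D) := Fintype.ofFinite _
  choose S hS1 hS2 using hCS
  have key := h0 p A B P V f hS hr hR hT ι R n hn H hH (fun i => (c i : ℂ)) hc2 D hD hDF C S hC1
    (fun τ q hq => ((hS1 τ).sub q hq).1) hS2 g hcube τ'
  -- the function summed
  set F : ι × (OO A B ⧸ idl (A := A) (B := B) (lvX p f n)) → ℂ := fun q =>
    (w (Quotient.out q.2) : ℂ) * (c q.1 : ℂ) *
      dlX (R.L q.1) (aX p f) (pt R (lvX p f n) q.1 (Quotient.out q.2)) with hF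
  have hmkout : ∀ x : OO A B ⧸ idl (A := A) (B := B) (lvX p f n),
      (Quotient.out x : OO A B) + Quotient.out (-x) ∈ idl (A := A) (B := B) (lvX p f n) := by
    intro x
    rw [← Ideal.Quotient.eq_zero_iff_mem, map_add, Ideal.Quotient.mk_out, Ideal.Quotient.mk_out]
    exact add_neg_cancel x
  have hcopneg : ∀ x : OO A B ⧸ idl (A := A) (B := B) (lvX p f n),
      IsCoprime (Quotient.out x : OO A B) ((lvX p f n : ℕ) : OO A B) →
      IsCoprime (Quotient.out (-x) : OO A B) ((lvX p f n : ℕ) : OO A B) := by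
    intro x hx
    obtain ⟨t, ht⟩ := Ideal.mem_span_singleton.1 (hmkout x)
    have e1 : (Quotient.out (-x) : OO A B) =
        -Quotient.out x + ((lvX p f n : ℕ) : OO A B) * t := by
      rw [← ht]; ring
    rw [e1]
    exact IsCoprime.add_mul_left_left hx.neg_left t
  have hwneg : ∀ x : OO A B ⧸ idl (A := A) (B := B) (lvX p f n),
      w (Quotient.out (-x)) = -w (Quotient.out x) := by
    intro x
    rw [← hw.neg]
    refine hw.per _ _ ?_
    rw [sub_neg_eq_add, add_comm]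
    exact hmkout x
  have hFneg : ∀ q : ι × (OO A B ⧸ idl (A := A) (B := B) (lvX p f n)),
      IsCoprime (Quotient.out q.2 : OO A B) ((lvX p f n : ℕ) : OO A B) →
      F (q.1, -q.2) = F q := by
    intro q hq
    have hb := (h6 p A B P V f hS hr hR ι R n H hH q.1 (Quotient.out q.2) hq).2
      (Quotient.out (-q.2)) (hmkout q.2)
    simp only [hF]
    rw [hb, hwneg]
    push_cast
    ring
  have hneg2 : ∀ q : ι × (OO A B ⧸ idl (A := A) (B := B) (lvX p f n)),
      ((q.1, - -q.2) : ι × (OO A B ⧸ idl (A := A) (B := B) (lvX p f n))) = q := by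
    intro q
    rw [neg_neg]
  have hXneg : ∀ (τ : D ≃ₐ[kk A B] D) (q : ι × (OO A B ⧸ idl (A := A) (B := B) (lvX p f n))),
      q ∈ XX R (lvX p f n) hD τ → (q.1, -q.2) ∈ XX R (lvX p f n) hD τ := by
    intro τ q hq
    obtain ⟨a1, σ, a2, a3, a4⟩ := hq
    exact ⟨hcopneg _ a1, σ, a2, a3, ew_hits h2 h5 hr R hpf q.1 hm0 (hmkout q.2) a4⟩
  have hset : ∀ τ : D ≃ₐ[kk A B] D, XX R (lvX p f n) hD τ =
      ((S τ ∪ (S τ).image (fun q => (q.1, -q.2)) :
        Finset (ι × (OO A B ⧸ idl (A := A) (B := B) (lvX p f n)))) : Set _) := by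
    intro τ
    ext q
    rw [Finset.mem_coe, Finset.mem_union, Finset.mem_image]
    constructor
    · intro hq
      rcases (hS1 τ).cov q hq with h | h
      · exact Or.inl h
      · exact Or.inr ⟨_, h, hneg2 q⟩
    · rintro (h | ⟨q', h, rfl⟩)
      · exact (hS1 τ).sub q h
      · exact hXneg τ q' ((hS1 τ).sub q' h)
  have hT2 : ∀ τ : D ≃ₐ[kk A B] D,
      TTw R (fun i => (c i : ℂ)) w (lvX p f n) (aX p f) hD τ = 2 * ∑ q ∈ S τ, F q := by
    intro τ
    have e1 : TTw R (fun i => (c i : ℂ)) w (lvX p f n) (aX p f) hD τ =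
        ∑ᶠ q ∈ XX R (lvX p f n) hD τ, F q := rfl
    rw [e1, hset τ, finsum_mem_coe_finset, Finset.sum_union, Finset.sum_image]
    · rw [two_mul]
      congr 1
      exact Finset.sum_congr rfl (fun q hq => hFneg q ((hS1 τ).sub q hq).1)
    · intro q _ q' _ hqq
      have h7 := Prod.mk.inj hqq
      exact Prod.ext h7.1 (neg_injective h7.2)
    · rw [Finset.disjoint_left]
      intro q hq hq'
      obtain ⟨q'', h7, rfl⟩ := Finset.mem_image.1 hq'
      apply (hS1 τ).dis _ hq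
      have := hneg2 q''
      rwa [← this] at h7
  -- the two sums
  have hv : ∀ k : ℤ, V.valuation (k : ℂ) ≤ 1 := fun k =>
    (ValuationSubring.valuation_le_one_iff _ _).2 (intCast_mem V k)
  have e2 : (1 / 2 * ∑ᶠ τ : D ≃ₐ[kk A B] D, (g τ : ℂ) *
      TTw R (fun i => (c i : ℂ)) w (lvX p f n) (aX p f) hD (τ * τ')) =
      ∑ τ : D ≃ₐ[kk A B] D, (g τ : ℂ) * ∑ q ∈ S (τ * τ'), F q := by
    rw [finsum_eq_sum_of_fintype, Finset.mul_sum]
    refine Finset.sum_congr rfl (fun τ _ => ?_)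
    rw [hT2]
    ring
  rw [finsum_eq_sum_of_fintype] at key
  rw [e2]
  set Y := ∑ τ : D ≃ₐ[kk A B] D, (g τ : ℂ) * ∑ q ∈ S (τ * τ'), F q with hY
  set X := ∑ τ : D ≃ₐ[kk A B] D, (g τ : ℂ) * ∑ q ∈ S (τ * τ'),
    (wP P (Quotient.out q.2) : ℂ) * (c q.1 : ℂ) *
      dlX (R.L q.1) (aX p f) (pt R (lvX p f n) q.1 (Quotient.out q.2)) with hXX
  have hd : V.valuation (Y - X) ≤ V.valuation (p : ℂ) := by
    rw [hY, hXX, ← Finset.sum_sub_distrib]
    refine Valuation.map_sum_le _ (fun τ _ => ?_)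
    rw [← mul_sub, ← Finset.sum_sub_distrib, map_mul]
    refine (mul_le_of_le_one_left' (hv _)).trans ?_
    refine Valuation.map_sum_le _ (fun q hq => ?_)
    have hqc := ((hS1 (τ * τ')).sub q hq).1
    obtain ⟨k, hk⟩ := hw.cong _ hqc
    have e3 : F q - (wP P (Quotient.out q.2) : ℂ) * (c q.1 : ℂ) *
        dlX (R.L q.1) (aX p f) (pt R (lvX p f n) q.1 (Quotient.out q.2)) =
        (p : ℂ) * ((k : ℂ) * (c q.1 : ℂ) *
        dlX (R.L q.1) (aX p f) (pt R (lvX p f n) q.1 (Quotient.out q.2))) := by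
      have e4 : (w (Quotient.out q.2) : ℂ) = wP P (Quotient.out q.2) + p * k := by
        have : w (Quotient.out q.2) = wP P (Quotient.out q.2) + p * k := by rw [← hk]; ring
        rw [this]; push_cast; ring
      simp only [hF]
      rw [e4]
      ring
    rw [e3, map_mul, map_mul, map_mul]
    have hb := (h6 p A B P V f hS hr hR ι R n H hH q.1 (Quotient.out q.2) hqc).1
    exact mul_le_of_le_one_right' (mul_le_one' (mul_le_one' (hv _) (hv _)) hb)
  have hpp : V.valuation (p : ℂ) ≠ 0 := by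
    rw [Valuation.ne_zero_iff]
    exact_mod_cast hp0
  have hX2 : V.valuation X ^ (p - 1) ≤ V.valuation (p : ℂ) := by
    have h8 := key
    rw [HfX, ← ValuationSubring.valuation_le_one_iff, map_div₀, map_pow] at h8
    exact (div_le_one₀ (zero_lt_iff.2 hpp)).1 h8
  rw [HfX, ← ValuationSubring.valuation_le_one_iff, map_div₀, map_pow]
  refine (div_le_one₀ (zero_lt_iff.2 hpp)).2 ?_
  have h9 : V.valuation Y ≤ max (V.valuation (Y - X)) (V.valuation X) := by
    have := V.valuation.map_add (Y - X) X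
    rwa [sub_add_cancel] at this
  have h10 : V.valuation (Y - X) ^ (p - 1) ≤ V.valuation (p : ℂ) := by
    have h11 : V.valuation (p : ℂ) ≤ 1 := hctx.vp.le
    have h12 : p - 1 ≠ 0 := by rcases hctx.two with rfl | rfl <;> norm_num
    calc V.valuation (Y - X) ^ (p - 1) ≤ V.valuation (p : ℂ) ^ (p - 1) := pow_le_pow_left' hd _
      _ ≤ V.valuation (p : ℂ) := by
        obtain ⟨k, hk⟩ := Nat.exists_eq_succ_of_ne_zero h12
        rw [hk, pow_succ]
        exact mul_le_of_le_one_left' (pow_le_one' h11 _)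
  rcases le_max_iff.1 h9 with h | h
  · exact (pow_le_pow_left' h _).trans h10
  · exact (pow_le_pow_left' h _).trans hX2

end

end Pool.Agent.MUXE


end

section

/-!
# MUX, block E, module COP: torsion of order prime to `P` is not in the kernel of reduction
-/

set_option autoImplicit false

open WeierstrassCurve Polynomial NumberField IsDedekindDomain

namespace Pool.Agent.MUXE

open _root_.MU3 _root_.Pool.Agent.MU3A _root_.Pool.Agent.MU3B _root_.Pool.Agent.MUX _root_.Pool.Agent.MUXU _root_.Pool.Agent.RI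

noncomputable section

namespace COP

variable {A B : ℤ} {p : ℕ} {P : Ideal (OO A B)} {V : ValuationSubring ℂ} {L : PeriodPair}

/-- points of order five -/
theorem fifth (L : PeriodPair) (a b : ℤ) (h : ¬ ((5 : ℤ) ∣ a ∧ (5 : ℤ) ∣ b)) :
    ((a : ℂ) * L.ω₁ + b * L.ω₂) / 5 ∉ L.lattice := by
  intro hm
  obtain ⟨m, n, e⟩ := PeriodPair.mem_lattice.1 hm
  have h1 := LinearIndependent.pair_iff.1 L.indep ((m : ℝ) - a / 5) ((n : ℝ) - b / 5) (by
    simp only [Complex.real_smul]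
    push_cast
    linear_combination e)
  apply h
  have h2 : (m : ℝ) * 5 = a := by have := h1.1; field_simp at this; linarith
  have h3 : (n : ℝ) * 5 = b := by have := h1.2; field_simp at this; linarith
  constructor
  · exact ⟨m, by have : m * 5 = a := by exact_mod_cast h2
                 omega⟩
  · exact ⟨n, by have : n * 5 = b := by exact_mod_cast h3
                 omega⟩

theorem fifth_mul (L : PeriodPair) (a b : ℤ) :
    ((5 : ℕ) : ℂ) * (((a : ℂ) * L.ω₁ + b * L.ω₂) / 5) ∈ L.lattice :=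
  PeriodPair.mem_lattice.2 ⟨a, b, by push_cast; ring⟩

/-- points of order five are not in the kernel of reduction -/
theorem fifth_not (G : GX V L) (h5 : V.valuation ((5 : ℕ) : ℂ) = 1) (a b : ℤ)
    (h : ¬ ((5 : ℤ) ∣ a ∧ (5 : ℤ) ∣ b)) : ¬ InEn V L (((a : ℂ) * L.ω₁ + b * L.ω₂) / 5) :=
  fun hE => fifth L a b h (G.tor _ 5 hE h5 (fifth_mul L a b))

theorem nat_mem (G : GX V L) {z : ℂ} (hz : InEn V L z) (n : ℕ) : InEn V L (n * z) := by
  induction n with
  | zero => left; simp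
  | succ n ih =>
    have h1 : ((n + 1 : ℕ) : ℂ) * z = n * z + z := by push_cast; ring
    rw [h1]
    exact G.add _ _ ih hz

theorem int_mem (G : GX V L) {z : ℂ} (hz : InEn V L z) (n : ℤ) : InEn V L (n * z) := by
  obtain ⟨m, rfl | rfl⟩ := n.eq_nat_or_neg
  · simpa using nat_mem G hz m
  · have h1 : ((-(m : ℤ) : ℤ) : ℂ) * z = -(m * z) := by push_cast; ring
    rw [h1]
    exact G.neg _ (nat_mem G hz m)

theorem lat_mem {z : ℂ} (hz : z ∈ L.lattice) : InEn V L z := Or.inl hz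

/-- (*) if all points of order `p` are in the kernel of reduction -/
theorem product (hPFI : Su_PFI) (G : GX V L) (hp : p = 2 ∨ p = 3)
    (h5 : V.valuation ((5 : ℕ) : ℂ) = 1) {R : Finset ℂ} (hR : IsRpM L L (p : ℂ) R)
    (hall : ∀ q ∈ R, InEn V L q) :
    V.valuation (p : ℂ) ^ 2 * ∏ q ∈ R, V.valuation (xn L q) = 1 := by
  have hp0 : (p : ℂ) ≠ 0 := by rcases hp with rfl | rfl <;> norm_num
  have hIsg : Isg L L (p : ℂ) := by
    intro w hw
    simpa using L.lattice.smul_mem (p : ℤ) hw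
  obtain ⟨W, hW⟩ : ∃ W : ℤ → ℤ → ℂ, W = fun (a b : ℤ) => ((a : ℂ) * L.ω₁ + b * L.ω₂) / 5 := ⟨_, rfl⟩
  have hWn : ∀ a b : ℤ, ¬ ((5 : ℤ) ∣ a ∧ (5 : ℤ) ∣ b) → ¬ InEn V L (W a b) := by
    intro a b h; rw [hW]; exact fifth_not G h5 a b h
  have hWL : ∀ a b : ℤ, ¬ ((5 : ℤ) ∣ a ∧ (5 : ℤ) ∣ b) → W a b ∉ L.lattice :=
    fun a b h hm => hWn a b h (Or.inl hm)
  have hpW : ∀ a b : ℤ, (p : ℂ) * W a b = W (p * a) (p * b) := by
    intro a b; rw [hW]; push_cast; ring
  have hsum : ∀ a b c d : ℤ, W a b + W c d = W (a + c) (b + d) := by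
    intro a b c d; rw [hW]; push_cast; ring
  have hdif : ∀ a b c d : ℤ, W a b - W c d = W (a - c) (b - d) := by
    intro a b c d; rw [hW]; push_cast; ring
  have hx : ∀ z w : ℂ, L.weierstrassP z - L.weierstrassP w = xn L z - xn L w := by
    intro z w; unfold xn; ring
  have h1 := hPFI L L (p : ℂ) R hp0 hIsg hR (W 1 0) (by
    rw [hpW]; apply hWL; rcases hp with rfl | rfl <;> omega) (W 0 1) (by
    rw [hpW]; apply hWL; rcases hp with rfl | rfl <;> omega)
  simp only [hx] at h1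
  have h2 := congrArg V.valuation h1
  rw [map_mul, map_mul, map_mul, map_pow, map_prod, map_prod] at h2
  have e1 : V.valuation (xn L ((p : ℂ) * W 0 1) - xn L ((p : ℂ) * W 1 0)) = 1 := by
    rw [hpW, hpW]
    apply G.sub
    · apply hWn; rcases hp with rfl | rfl <;> omega
    · apply hWn; rcases hp with rfl | rfl <;> omega
    · rw [hsum]; apply hWn; rcases hp with rfl | rfl <;> omega
    · rw [hdif]; apply hWn; rcases hp with rfl | rfl <;> omega
  have e2 : V.valuation (xn L (W 0 1) - xn L (W 1 0)) = 1 := by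
    apply G.sub
    · apply hWn; omega
    · apply hWn; omega
    · rw [hsum]; apply hWn; omega
    · rw [hdif]; apply hWn; omega
  have hW01 : V.valuation (xn L (W 0 1)) ≤ 1 := by
    rw [ValuationSubring.valuation_le_one_iff]
    by_contra hc
    exact hWn 0 1 (by omega) (Or.inr hc)
  have e3 : ∀ q ∈ R, V.valuation (xn L (W 0 1) - xn L q) = V.valuation (xn L q) := by
    intro q hq
    have h3 : 1 < V.valuation (xn L q) := by
      rcases hall q hq with h | h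
      · exact absurd h (hR.ne q hq)
      · rw [← not_le, ValuationSubring.valuation_le_one_iff]; exact h
    exact Valuation.map_sub_eq_of_lt_right _ (lt_of_le_of_lt hW01 h3)
  have e4 : ∀ q ∈ R, V.valuation (xn L (W 0 1) - xn L (W 1 0 + q)) = 1 := by
    intro q hq
    have hqL := hR.ne q hq
    have hqE := hall q hq
    have hW10 : ¬ InEn V L (W 1 0) := hWn 1 0 (by omega)
    obtain ⟨ht, -, -⟩ := G.par q hqE hqL
    have h3 := G.near (W 1 0) q hW10 hqE hqL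
    have h4 := G.intD _ hW10
    have h5' : V.valuation (xn L (W 1 0 + q) - xn L (W 1 0)) < 1 := by
      have h6 : xn L (W 1 0 + q) - xn L (W 1 0) =
          (xn L (W 1 0 + q) - xn L (W 1 0) - L.derivWeierstrassP (W 1 0) * tE L q) +
          L.derivWeierstrassP (W 1 0) * tE L q := by ring
      rw [h6]
      apply lt_of_le_of_lt (V.valuation.map_add _ _)
      apply max_lt
      · apply lt_of_le_of_lt h3
        exact pow_lt_one₀ zero_le ht (by norm_num)
      · rw [map_mul]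
        calc V.valuation (L.derivWeierstrassP (W 1 0)) * V.valuation (tE L q)
            ≤ 1 * V.valuation (tE L q) := mul_le_mul_left h4 _
          _ = V.valuation (tE L q) := one_mul _
          _ < 1 := ht
    have h6 : xn L (W 0 1) - xn L (W 1 0 + q) =
        (xn L (W 0 1) - xn L (W 1 0)) - (xn L (W 1 0 + q) - xn L (W 1 0)) := by ring
    rw [h6, Valuation.map_sub_eq_of_lt_left _ (by rw [e2]; exact h5'), e2]
  rw [e1, e2, Finset.prod_congr rfl e3, Finset.prod_congr rfl e4] at h2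
  simpa using h2

/-- integers represent the classes modulo `Q` -/
theorem int_rep (hPB : Sxe_PB) (hR : RingE A B) (hp : p.Prime) {Q : Ideal (OO A B)}
    (hQ : Q.IsPrime) (hPQ : sp (p : OO A B) = P * Q) (hn : nI Q = p)
    (hle : ¬ P ≤ Q) (x : OO A B) : ∃ r : ℤ, x - r ∈ Q := by
  have := hR.ded
  have hmem : (p : OO A B) ∈ Q := by
    have h1 : (p : OO A B) ∈ P * Q := by rw [← hPQ]; exact Ideal.mem_span_singleton_self _
    exact Ideal.mul_le_right h1
  have hQ0 : Q ≠ ⊥ := by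
    rintro rfl
    have h1 : (p : OO A B) = 0 := by simpa using hmem
    obtain ⟨φ, hφ⟩ := hR.hom
    have h2 : φ (p : OO A B) = 0 := by rw [h1, map_zero]
    rw [map_natCast] at h2
    exact hp.ne_zero (by exact_mod_cast h2)
  have hsq : (p : OO A B) ∉ Q ^ 2 := by
    intro h
    apply hle
    have h1 : P * Q ≤ Q * Q := by
      rw [← hPQ, ← pow_two, Ideal.span_singleton_le_iff_mem]
      exact h
    have h2 := Ideal.dvd_iff_le.2 h1
    have h3 : Q ∣ P := (mul_dvd_mul_iff_right hQ0).1 h2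
    exact Ideal.dvd_iff_le.1 h3
  obtain ⟨⟨r, hr⟩, -⟩ := hPB p A B Q hR hp hQ hmem hn hsq 1 x
  exact ⟨r, by rwa [pow_one] at hr⟩

/-- Part (1): the conjugate prime. -/
theorem main (hPA : Sxe_PA) (hPB : Sxe_PB) (hTRA : Sxe_TRA) (hTRB : Sxe_TRB) (hKER : Sxe_KER)
    (hBAC : Su_BAC) (hPFI : Su_PFI) (hC : CtxE p P V) (hL : NL A B L) {Q : Ideal (OO A B)}
    (hPQ : sp (p : OO A B) = P * Q) (hQm : Q.IsMaximal) (hn : nI Q = p) (hQP : ¬ Q ≤ P)
    (hle : ¬ P ≤ Q) {y : ℂ} (hy : Tor Q L y) (hyE : InEn V L y) : y ∈ L.lattice := by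
  by_contra hyL
  have hR := hC.ring
  have := hR.ded
  have hpp : p.Prime := by rcases hC.two with rfl | rfl <;> norm_num
  have hp0 : (p : ℂ) ≠ 0 := by exact_mod_cast hpp.ne_zero
  obtain ⟨φ, hφ⟩ := hR.hom
  have hmul : ∀ x y : OO A B, emb (x * y) = emb x * emb y := fun x y => by
    rw [← hφ, ← hφ, ← hφ, map_mul]
  have hadd : ∀ x y : OO A B, emb (x + y) = emb x + emb y := fun x y => by
    rw [← hφ, ← hφ, ← hφ, map_add]
  have hone : emb (1 : OO A B) = 1 := by rw [← hφ, map_one]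
  have hnat : ∀ n : ℕ, emb (n : OO A B) = n := fun n => by rw [← hφ, map_natCast]
  have hint : ∀ n : ℤ, emb (n : OO A B) = n := fun n => by rw [← hφ, map_intCast]
  have hne0 : ∀ I : Ideal (OO A B), (p : OO A B) ∈ I → I ≠ ⊥ := by
    rintro I hI rfl
    have h1 : (p : OO A B) = 0 := by simpa using hI
    have h2 : φ (p : OO A B) = 0 := by rw [h1, map_zero]
    rw [map_natCast] at h2
    exact hp0 (by exact_mod_cast h2)
  have hP0 : P ≠ ⊥ := hne0 P hC.mem
  have hpQ : (p : OO A B) ∈ Q := by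
    have h1 : (p : OO A B) ∈ P * Q := by rw [← hPQ]; exact Ideal.mem_span_singleton_self _
    exact Ideal.mul_le_right h1
  have hQ0 : Q ≠ ⊥ := hne0 Q hpQ
  have G := hC.gx L hL
  obtain ⟨-, -, -, hnn, hPm, hcop, -⟩ := hPA p A B P V hC
  obtain ⟨tO, tadd, tmul, tcop, tsp, tpr, tpr', tcg, tlc⟩ := hTRA A B hR L hL
  obtain ⟨tex, tgen⟩ := hTRB A B hR L hL
  have h5 : V.valuation ((5 : ℕ) : ℂ) = 1 := (hnn 5 (by
    rcases hC.two with rfl | rfl <;> omega)).1
  -- the points of `E[Q]`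
  have hQE : ∀ z, Tor Q L z → InEn V L z := by
    intro z hz
    obtain ⟨x, hx⟩ := tgen Q hQ0 hQm y z hy hz hyL
    obtain ⟨r, hr⟩ := int_rep hPB hR hpp hQm.isPrime hPQ hn hle x
    have h1 : z = (r : ℂ) * y + ((z - emb x * y) + emb (x - (r : OO A B)) * y) := by
      have h2 : emb (x - (r : OO A B)) = emb x - (r : ℂ) := by rw [← hφ, map_sub, map_intCast, hφ]
      rw [h2]; ring
    rw [h1]
    exact G.add _ _ (int_mem G hyE r) (Or.inl (add_mem hx (hy _ hr)))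
  -- the points of `E[P]`
  have hPE : ∀ z, Tor P L z → InEn V L z := by
    intro z hz
    by_cases hzL : z ∈ L.lattice
    · exact Or.inl hzL
    · exact (hKER p A B P V hC L hL z hz hzL).1
  have hPQc : IsCoprime P Q := by
    have h1 := hcop Q 1 hQP
    rw [pow_one] at h1
    exact h1.symm
  have hTp : ∀ z, (p : ℂ) * z ∈ L.lattice → InEn V L z := by
    intro z hz
    have hz' : Tor (P * Q) L z := by
      rw [← hPQ, tsp, hnat]; exact hz
    obtain ⟨a, ha, b, hb, hab⟩ := Ideal.isCoprime_iff_exists.1 hPQc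
    have h1 : z = emb a * z + emb b * z := by rw [← add_mul, ← hadd, hab, hone, one_mul]
    rw [h1]
    apply G.add
    · exact hQE _ (tpr P Q a z ha hz')
    · apply hPE
      apply tpr Q P b z hb
      rw [mul_comm]
      exact hz'
  have hIsg : Isg L L (p : ℂ) := by
    intro w hw
    simpa using L.lattice.smul_mem (p : ℤ) hw
  obtain ⟨⟨R, hRR⟩, -⟩ := hBAC.2 L L (p : ℂ) hp0 hIsg
  have hprod := product hPFI G hC.two h5 hRR (fun q hq => hTp q (hRR.mem q hq))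
  -- valuations `> 1`
  have hgt : ∀ q ∈ R, 1 < V.valuation (xn L q) := by
    intro q hq
    rcases hTp q (hRR.mem q hq) with h | h
    · exact absurd h (hRR.ne q hq)
    · rw [← not_le, ValuationSubring.valuation_le_one_iff]; exact h
  -- representatives
  have hPp : ∀ z, Tor P L z → (p : ℂ) * z ∈ L.lattice := fun z hz => by
    rw [← hnat]; exact hz _ hC.mem
  have hQp : ∀ z, Tor Q L z → (p : ℂ) * z ∈ L.lattice := fun z hz => by
    rw [← hnat]; exact hz _ hpQ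
  obtain ⟨qy, hqy, hqy'⟩ := hRR.surj y (hQp y hy) hyL
  have hqyQ : Tor Q L qy := (tcg Q y qy hqy').1 hy
  have hqyP : ¬ Tor P L qy := fun h => hRR.ne qy hqy (tcop P Q qy hPQc h hqyQ)
  obtain ⟨u, huP, huT⟩ := tex ⊤ P hP0 (lt_top_iff_ne_top.2 hPm.ne_top)
  have huL : u ∉ L.lattice := fun h => huT (fun x _ => tO x u h)
  obtain ⟨q₁, hq₁, hq₁'⟩ := hRR.surj u (hPp u huP) huL
  have hq₁P : Tor P L q₁ := (tcg P u q₁ hq₁').1 huP
  obtain ⟨-, k1⟩ := hKER p A B P V hC L hL q₁ hq₁P (hRR.ne q₁ hq₁)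
  obtain ⟨-, -, k2⟩ := G.par q₁ (hPE q₁ hq₁P) (hRR.ne q₁ hq₁)
  -- a subset with product `v(p)⁻²`, without `qy`
  have key : ∃ R' ⊆ R, qy ∉ R' ∧
      V.valuation (p : ℂ) ^ 2 * ∏ q ∈ R', V.valuation (xn L q) = 1 := by
    rcases hC.two with h2 | h3
    · refine ⟨{q₁}, by simpa using hq₁, ?_, ?_⟩
      · rw [Finset.mem_singleton]
        rintro rfl
        exact hqyP hq₁P
      · rw [Finset.prod_singleton, ← k1]
        rw [h2, show (2 - 1 : ℕ) = 1 from rfl, pow_one, mul_comm]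
        exact k2
    · have hnP : Tor P L (-u) := fun x hx => by
        rw [mul_neg]; exact neg_mem (huP x hx)
      have hnL : -u ∉ L.lattice := fun h => huL (by simpa using neg_mem h)
      obtain ⟨q₂, hq₂, hq₂'⟩ := hRR.surj (-u) (hPp _ hnP) hnL
      have hq₂P : Tor P L q₂ := (tcg P (-u) q₂ hq₂').1 hnP
      have hne : q₁ ≠ q₂ := by
        rintro rfl
        apply huL
        have h1 := sub_mem hq₁' hq₂'
        have h2 := hPp u huP
        rw [h3] at h2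
        have h4 : u = ((3 : ℕ) : ℂ) * u - (u - q₁ - (-u - q₁)) := by push_cast; ring
        rw [h4]
        exact sub_mem h2 h1
      obtain ⟨-, l1⟩ := hKER p A B P V hC L hL q₂ hq₂P (hRR.ne q₂ hq₂)
      obtain ⟨-, -, l2⟩ := G.par q₂ (hPE q₂ hq₂P) (hRR.ne q₂ hq₂)
      refine ⟨{q₁, q₂}, ?_, ?_, ?_⟩
      · intro q hq
        rw [Finset.mem_insert, Finset.mem_singleton] at hq
        rcases hq with rfl | rfl <;> assumption
      · rw [Finset.mem_insert, Finset.mem_singleton]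
        rintro (rfl | rfl)
        · exact hqyP hq₁P
        · exact hqyP hq₂P
      · rw [Finset.prod_pair hne]
        have e : (3 - 1 : ℕ) = 2 := rfl
        rw [h3, e] at k1 l1
        rw [k1] at k2
        rw [l1] at l2
        rw [h3, pow_two]
        calc V.valuation ((3 : ℕ) : ℂ) * V.valuation ((3 : ℕ) : ℂ) *
              (V.valuation (xn L q₁) * V.valuation (xn L q₂)) =
            (V.valuation (xn L q₁) * V.valuation ((3 : ℕ) : ℂ)) *
              (V.valuation (xn L q₂) * V.valuation ((3 : ℕ) : ℂ)) := by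
              rw [mul_mul_mul_comm, mul_comm (V.valuation ((3 : ℕ) : ℂ)),
                mul_comm (V.valuation ((3 : ℕ) : ℂ))]
          _ = 1 := by rw [k2, l2, one_mul]
  obtain ⟨R', hR', hqR', hpR'⟩ := key
  have hsplit := Finset.prod_sdiff (f := fun q => V.valuation (xn L q)) hR'
  rw [← hsplit, mul_left_comm, hpR', mul_one] at hprod
  have hin : qy ∈ R \ R' := Finset.mem_sdiff.2 ⟨hqy, hqR'⟩
  rw [← Finset.mul_prod_erase _ _ hin] at hprod
  have h1 : 1 ≤ ∏ q ∈ (R \ R').erase qy, V.valuation (xn L q) := by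
    apply Finset.one_le_prod'
    intro q hq
    exact (hgt q (Finset.mem_sdiff.1 (Finset.mem_of_mem_erase hq)).1).le
  have h2 := hgt qy hqy
  have h3 : V.valuation (xn L qy) * 1 ≤
      V.valuation (xn L qy) * ∏ q ∈ (R \ R').erase qy, V.valuation (xn L q) :=
    mul_le_mul_right h1 _
  rw [hprod, mul_one] at h3
  exact absurd h3 (not_le.2 h2)

end COP

open _root_.Pool.Agent.MUXE.COP in
/-- COP. -/
theorem te_COP (h1 : Sxe_PA) (h2 : Sxe_PB) (h3 : Sxe_TRA) (h4 : Sxe_TRB) (h5 : Sxe_KER)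
    (h6 : Su_BAC) (h7 : Su_PFI) : Sxe_COP := by
  intro p A B P V hC L hL m hm hmP z hz hzE
  by_contra hzL
  have hR := hC.ring
  have hpp : p.Prime := by rcases hC.two with rfl | rfl <;> norm_num
  obtain ⟨φ, hφ⟩ := hR.hom
  have hmul : ∀ x y : OO A B, emb (x * y) = emb x * emb y := fun x y => by
    rw [← hφ, ← hφ, ← hφ, map_mul]
  have hadd : ∀ x y : OO A B, emb (x + y) = emb x + emb y := fun x y => by
    rw [← hφ, ← hφ, ← hφ, map_add]
  have hone : emb (1 : OO A B) = 1 := by rw [← hφ, map_one]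
  have hnat : ∀ n : ℕ, emb (n : OO A B) = n := fun n => by rw [← hφ, map_natCast]
  have G := hC.gx L hL
  obtain ⟨-, -, -, hnn, hPm, hcop, Q, hPQ, hQm, hnQ, hQP, hle⟩ := h1 p A B P V hC
  obtain ⟨tO, tadd, tmul, tcop, tsp, tpr, tpr', tcg, tlc⟩ := h3 A B hR L hL
  obtain ⟨N, hN, hNm⟩ := hR.pos m hm
  obtain ⟨s, N₁, hN₁, hNe⟩ := Nat.exists_eq_pow_mul_and_not_dvd hN.ne' p hpp.ne_one
  -- `z₁ = N₁ z`
  have hz₁E : InEn V L ((N₁ : ℂ) * z) := nat_mem G hzE N₁
  have hz₁L : (N₁ : ℂ) * z ∉ L.lattice := fun h => hzL (G.tor z N₁ hzE (hnn N₁ hN₁).1 h)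
  have hpz : ∃ i : ℕ, ((p ^ i : ℕ) : ℂ) * ((N₁ : ℂ) * z) ∈ L.lattice := by
    refine ⟨s, ?_⟩
    have h := hz _ hNm
    rw [hnat, hNe] at h
    have e : ((p ^ s : ℕ) : ℂ) * ((N₁ : ℂ) * z) = ((p ^ s * N₁ : ℕ) : ℂ) * z := by push_cast; ring
    rw [e]
    exact h
  classical
  obtain ⟨i, hi⟩ : ∃ i, Nat.find hpz = i := ⟨_, rfl⟩
  have hi1 := Nat.find_spec hpz
  rw [hi] at hi1
  have hi0 : i ≠ 0 := by
    rintro rfl
    apply hz₁L
    simpa using hi1
  obtain ⟨j, rfl⟩ := Nat.exists_eq_succ_of_ne_zero hi0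
  have hj : ((p ^ j : ℕ) : ℂ) * ((N₁ : ℂ) * z) ∉ L.lattice :=
    Nat.find_min hpz (by rw [hi]; exact Nat.lt_succ_self j)
  obtain ⟨y, hy⟩ : ∃ y, y = ((p ^ j : ℕ) : ℂ) * ((N₁ : ℂ) * z) := ⟨_, rfl⟩
  rw [← hy] at hj
  have hpy : (p : ℂ) * y ∈ L.lattice := by
    have e : (p : ℂ) * y = ((p ^ j.succ : ℕ) : ℂ) * ((N₁ : ℂ) * z) := by
      rw [hy, Nat.succ_eq_add_one, pow_succ]; push_cast; ring
    rw [e]
    exact hi1
  have hyE : InEn V L y := by rw [hy]; exact nat_mem G hz₁E _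
  have hym : Tor m L y := by
    have e : y = emb (((p ^ j * N₁ : ℕ)) : OO A B) * z := by
      rw [hnat, hy]; push_cast; ring
    rw [e]
    exact tmul m _ z hz
  apply hj
  refine main h1 h2 h3 h4 h5 h6 h7 hC hL hPQ hQm hnQ hQP hle ?_ hyE
  intro g hg
  have hc := hcop m 1 hmP
  rw [pow_one] at hc
  obtain ⟨a, ha, b, hb, hab⟩ := Ideal.isCoprime_iff_exists.1 hc
  have e : emb g * y = emb g * (emb a * y) + emb (b * g) * y := by
    rw [hmul]
    have h : emb a + emb b = 1 := by rw [← hadd, hab, hone]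
    linear_combination (-(emb g * y)) * h
  rw [e]
  refine add_mem (tO g _ (hym a ha)) ?_
  have hbg : b * g ∈ sp (p : OO A B) := by
    rw [hPQ]; exact Ideal.mul_mem_mul hb hg
  exact (tsp (p : OO A B) y).2 (by rw [hnat]; exact hpy) _ hbg

end

end Pool.Agent.MUXE


end
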