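import Mathlib
import Pool.Agent.MVF.C034
import Pool.Agent.MVF.C043
import Pool.Agent.MVF.C047
import Pool.Agent.MVF.C049

/-! Parts: ME2.StE3, ME2.EU_GTA, ME2.EU_FIN, ME2.EU_MAIN, ME2.EU_GLC, N2.E_CON -/

namespace Pool.Agent.ME2E.FIN
end Pool.Agent.ME2E.FIN
namespace Pool.Agent.ME2E.MAIN
end Pool.Agent.ME2E.MAIN
namespace Pool.Agent.N2E.CON
end Pool.Agent.N2E.CON

section

/-!
# ME2, block E for `D = -3`, `p = 2`: the improved criterion for squares (helper34)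

Twin of `Pool/Agent/N2/StE2.lean` in the frame of `ME/DefsE.lean`, `ME/StXEE.lean` (`(A, B) = (-1, 1)`, `2` inert). The statements `Sd_LAG, PRD, COE, GRT, TPT, UNT, RAT, THT, DST, NE1, PRT` on lattices are used as they are (`Pool.Agent.N2E.td_X`).
All levels are even, `M₀ = RFE (2 f a)` has ramification index `3` at `V`.
Module: theorem `ty_X (h : ...) : Sy_X` in `Pool/Agent/ME2/EU_X.lean`, namespace `Pool.Agent.ME2E`. Ports of `Pool/Agent/N2/E_X.lean`.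
-/

set_option autoImplicit false

open Polynomial

namespace Pool.Agent.ME2E

open _root_.MU3 _root_.Pool.Agent.MU3A _root_.Pool.Agent.MU3B _root_.Pool.Agent.MUX _root_.Pool.Agent.MUXU
open _root_.Pool.Agent.RI _root_.Pool.Agent.NS
open _root_.Pool.Agent.ME hiding ActE
open _root_.Pool.Agent.MEE _root_.Pool.Agent.ME2
open _root_.Pool.Agent.MUXE (RingE)
open _root_.Pool.Agent.N2 (GoodT et yt WT IsTei2 OddT PTq)
open _root_.Pool.Agent.N2E (dlg del cc IsoT)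
open _root_.Pool.Agent.NSE (IntP)
open _root_.Pool.Agent.MUX2 (GRG)
open _root_.Pool.Agent.MUXV (InK tX)

noncomputable section

/-- the automorphism `s` of `ℂ / k` acts as the principal ideal `(c)` on level `m` -/
structure AutCE {A B : ℤ} (m : Ideal (OO A B)) (c : OO A B) (s : ℂ ≃+* ℂ) : Prop where
  fix : FixK A B s
  kapE : ∀ L, NLE A B L → s (kapE L) = kapE L
  xnE : ∀ L, NLE A B L → ∀ z, Tor m L z → z ∉ L.lattice →
    emb c * z ∉ L.lattice ∧ s (xnE L z) = xnE L (emb c * z)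
  triv : ∀ m' : Ideal (OO A B), m ≤ m' → m' ≤ idl 2 → c - 1 ∈ m' → ∀ y ∈ RFE m', s y = y
  zeta : ∀ M : ℕ, M ≠ 0 → m ≤ idl M → ∀ z : ℂ, z ^ M = 1 → s z = z ^ nI (sp c)

/-- everything on `O`, `k`, `V` and the reduction which is used -/
structure CtxU (A B : ℤ) (V : ValuationSubring ℂ) : Prop where
  ring : RingE A B
  cq : CQ A B
  two : (8 : ℤ) ∣ B ^ 2 + 4 * A - 5
  case : CaseE A B
  hB : B = 1
  v2 : V.valuation (2 : ℂ) < 1
  int : ∀ x : OO A B, V.valuation (emb x) ≤ 1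
  unit : ∀ x : OO A B, x ∉ idl (A := A) (B := B) 2 → V.valuation (emb x) = 1
  nat : ∀ n : ℕ, ¬ 2 ∣ n → V.valuation (n : ℂ) = 1
  max : (idl (A := A) (B := B) 2).IsMaximal
  nrm : ∀ x : OO A B, x ∉ idl (A := A) (B := B) 2 → ¬ (2 : ℤ) ∣ nm x
  kval : ∀ y ∈ kk A B, y ≠ 0 → ∃ k : ℤ, V.valuation y = V.valuation (2 : ℂ) ^ k
  good : ∀ L, NLE A B L → ∃ u e a1 a3 : ℂ, GoodT V L u e a1 a3
  iner : ∀ f : ℕ, f ≠ 0 → ¬ 2 ∣ f → 3 ∣ f → ∀ σ : ℂ ≃+* ℂ, FixK A B σ →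
    (∀ y ∈ RFE (idl (A := A) (B := B) (2 * f)), y ∈ V → σ y - y ∈ V.nonunits) →
    (∀ y ∈ RFE (idl (A := A) (B := B) 3), σ y = y) →
    ∀ y ∈ RFE (idl (A := A) (B := B) (2 * f)), σ y = y

/-- the hypotheses on the levels: `m = 2^(n+2) f` -/
structure SetEU (A B : ℤ) (V : ValuationSubring ℂ) (n f a m : ℕ) : Prop where
  ctx : CtxU A B V
  tor : TorXE A B
  n2 : 2 ≤ n
  f3 : 3 ≤ f
  fd : 3 ∣ f
  fo : ¬ 2 ∣ f
  a3 : 3 ≤ a
  ao : ¬ 2 ∣ a
  af : a.Coprime f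
  hm : m = 2 ^ (n + 2) * f

/-! ## The fields -/

/-- (CTX) from the standing hypotheses to `CtxU`. Model `E_CTX.lean`.

PROOF. `B² + 4A ≡ 5` modulo 8: `B = 1`, `A` odd, `nm x = re² + re im - A im²` is even only if `re` and `im` are even: `nrm`, and `O/(2)` is a field (`max`: `nm x = x star x`). `v 2 < 1`: `OverI` for `x = 2`. `int`: `emb x` is integral. `unit`: `OverI`. `nat`: `1 = 2 a + n b`. `kval`: `x = 2^j y`, `y ∉ (2)`; every element of `k` is `emb x/n`, `n` a positive integer. `good`, `iner`: `T3_RFIN`. -/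
def Sy_CTX : Prop :=
  ∀ (A B : ℤ) (V : ValuationSubring ℂ), CaseE A B → B = 1 →
    OverI V (idl (A := A) (B := B) 2) → TorXE A B → T3_RFIN → CtxU A B V

/-- (RAM) a finite Galois extension `F / k` with trivial inertia group at `V` is unramified. Model `E_RAM.lean` (with `2` in place of `3`). -/
def Sy_RAM : Prop :=
  ∀ (A B : ℤ) (V : ValuationSubring ℂ), CtxU A B V →
    ∀ (F : IntermediateField (kk A B) ℂ) [FiniteDimensional (kk A B) F] [IsGalois (kk A B) F],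
      (∀ σ : F ≃ₐ[kk A B] F, (∀ x : F, V.valuation (x : ℂ) ≤ 1 →
        V.valuation ((σ x : ℂ) - x) < 1) → σ = 1) →
      ∀ y ∈ F, y ≠ 0 → ∃ k : ℤ, V.valuation y = V.valuation (2 : ℂ) ^ k

/-- (UNR) the ramification index of `RFE (2 f)` at `V` divides `3`, if `f` is odd.

Uses Sy_RAM. PROOF. `RFE (2 f) ≤ RFE (6 f)` (`tm_FAC`), so suppose `3 ∣ f`; `F = RFE (idl (2 f))`, `RFE (3) ≤ F`. `L` a normalised lattice (if there is none then `F = k`: `CtxU.kval`), `g₂ = 0`, `g₃ = -4`. The `x`-coordinates of the points of order three are `0, t, ω t, ω² t`, `t³ = -4`, `ω ∈ k`. `I` = the automorphisms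
in the inertia group of `F`; `CtxU.iner`: `σ ∈ I` is determined by `σ t ∈ {t, ω t, ω² t}`. If all `σ ∈ I` fix `t` then `I = 1` and (RAM) applies. Otherwise there is `σ ∈ I` with `σ t = ω t`, `I = {1, σ, σ²}` on `F`; `y ∈ F`: `N = y σ y σ² y` is fixed by `I`, so `v N ∈ v(2)^ℤ` (`unfP` of `Pool/Agent/N2/T3_UNF.lean` for `N 2^k`), and `v(σ y) = v y`. -/
def Sy_UNR : Prop :=
  ∀ (A B : ℤ) (V : ValuationSubring ℂ), CtxU A B V → TorXE A B →
    ∀ f : ℕ, f ≠ 0 → ¬ 2 ∣ f → ∀ y ∈ RFE (idl (A := A) (B := B) (2 * f)), y ≠ 0 →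
      ∃ k : ℤ, V.valuation y ^ 3 = V.valuation (2 : ℂ) ^ k

/-- (DEG) the degree of `RFE (2^(j+1) f)` over `RFE (2 f)`.

PROOF. As `N2/E_DEG.lean`: `σ` trivial on `RFE (2 f)` acts as `α ≡ 1` modulo `2 f` (`GalEE.ker`): `4^j` classes modulo `2^(j+1)`. -/
def Sy_DEG : Prop :=
  ∀ (A B : ℤ) (V : ValuationSubring ℂ), CtxU A B V → GalEE A B → ∀ (j f : ℕ), f ≠ 0 → ¬ 2 ∣ f →
    Module.finrank (kk A B) (RFE (idl (A := A) (B := B) (2 ^ (j + 1) * f))) ≤
      4 ^ j * Module.finrank (kk A B) (RFE (idl (A := A) (B := B) (2 * f)))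

/-- (AUT) automorphisms of `ℂ` which act as a principal ideal.

PROOF. `s` from `TorXE.surj` for the ideal `sp c`: for every normalised `L` there are `L', mu` with `ActE s m (sp c) L L' mu`, `L'` normalised. `GalX.core` (`Pool/Agent/MUX/E_GAL.lean`): `kapE L' = kapE L`, `mu = ± emb c`, `L'` and `L` have the same lattice and `℘`. `kapE`, `xnE`: as `GalX.mk` there. `triv`: `ActE s m' (sp c) L L' mu` (`m ≤ m'`: `Tor m'` implies `Tor m`) for one
normalised `L` (if there is none then `RFE m'` is `k`; `GalX.fix`) and `TorXE.triv`. `zeta`: `TorXE.zeta` (`L` normalised exists by hypothesis). -/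
def Sy_AUT : Prop :=
  ∀ (A B : ℤ), CaseE A B → RingE A B → TorXE A B → (∃ L, NLE A B L) →
    ∀ (m : Ideal (OO A B)), m ≠ ⊥ → m ≤ idl (A := A) (B := B) 2 → ∀ c : OO A B, c ≠ 0 →
      IsCoprime (sp c) m → c - 1 ∈ idl (A := A) (B := B) 2 → ∃ s : ℂ ≃+* ℂ, AutCE m c s

/-- (GTA) the automorphism acts on `Θ_a`.

PROOF. `ThetaH L H z = ∏ (xnE L z - xnE L q)`; `s (xnE L z) = xnE L (emb c * z)`, `s (xnE L q) = xnE L (emb c * q) = xnE L q`, because `a q ∈ L` (so `Tor m L q`, `tm_TRA`), `q ∉ L` (`IsHalf.ne`), and `(c - 1) q ∈ L` (`c - 1 = y a`). -/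
def Sy_GTA : Prop :=
  ∀ (A B : ℤ), RingE A B → ∀ L, NLE A B L → ∀ (a : ℕ) (H : Finset ℂ), IsHalf L (a : ℂ) H →
    ∀ (m : Ideal (OO A B)), m ≤ idl a → ∀ (c : OO A B) (s : ℂ ≃+* ℂ), AutCE m c s →
      c - 1 ∈ idl a → ∀ z, Tor m L z → z ∉ L.lattice →
        s (ThetaH L H z) = ThetaH L H (emb c * z)

/-- (CON) the elements `c = 1 + N b`, `N = 2^n f a`.

PROOF. (1) `c ≡ 1` modulo `2`, `f`, `a`, so `c` is prime to `m a = 2^(n+2) f a` and not `0`; `4 f ∣ N`, `f a ∣ N`. (2) `del = 2 w - B`, `B` odd. `del` has trace `0` and norm `-D`, `D = B² + 4 A`: `nm (1 + t del) = 1 - t² D` for integers `t`; `t = N k` and `2^(n+2) ∣ N²` (`2 n ≥ n + 2`). `nI (sp x) = |nm x|` (`IDL` of `Pool/Agent/MUX/StXF.lean`, or `Algebra.norm`; look for it in `MUX/`), `nm x ≥ 0`.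
(3) `c_k c_l - c_(k+l) = N² k l D` and `m a ∣ N²`. (4) `N = m a/4`. (5) `c_2 x - x = 2 N del x`; `m ∣ 2 N del x` gives `2 ∣ a del x` in `O`, and `(2)` is a prime ideal which does not contain `a`, `del`, `x`. (6) `(om/m) N δ k = k emb del (a om/4)`. `4 R ∈ L` and `2 R ∉ L` for `R = emb del (a om/4)`: `L = om emb O`, `emb` injective. (7) `L = om emb O`: `Y = om emb b'/4`, take `b = a b'`, `a² ≡ 1` modulo 4. -/
def Sy_CON : Prop :=
  ∀ (A B : ℤ) (V : ValuationSubring ℂ) (n f a m : ℕ), SetEU A B V n f a m →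
    (∀ b : OO A B, IsCoprime (sp (cc (2 ^ n * f * a) b)) (idl (m * a)) ∧
      IsCoprime (cc (2 ^ n * f * a) b) ((m : ℕ) : OO A B) ∧
      cc (2 ^ n * f * a) b ≠ 0 ∧ cc (2 ^ n * f * a) b - 1 ∈ idl (2 * (f * a)) ∧
      cc (2 ^ n * f * a) b - 1 ∈ idl (4 * f) ∧ cc (2 ^ n * f * a) b - 1 ∈ idl a) ∧
    ((del : OO A B) ∉ idl (A := A) (B := B) 2 ∧
      ∀ k : ℕ, ∃ j : ℕ, nI (sp (cc (2 ^ n * f * a) ((k : OO A B) * del))) =
        1 + 2 ^ (n + 2) * j) ∧
    (∀ k l : ℕ, cc (2 ^ n * f * a) ((k : OO A B) * del) * cc (2 ^ n * f * a) ((l : OO A B) * del) -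
      cc (2 ^ n * f * a) (((k + l : ℕ) : OO A B) * del) ∈ idl (m * a)) ∧
    (cc (2 ^ n * f * a) (((4 : ℕ) : OO A B) * del) - 1 ∈ idl (m * a)) ∧
    (∀ x : OO A B, IsCoprime x ((m : ℕ) : OO A B) →
      cc (2 ^ n * f * a) (((2 : ℕ) : OO A B) * del) * x - x ∉ idl m) ∧
    ∀ (L : PeriodPair) (om : ℂ), IsNE (⊤ : Ideal (OO A B)) L om →
      (∀ b : OO A B, emb (cc (2 ^ n * f * a) b) * (om / m) = om / m + emb b * (a * om / 4)) ∧
      (∀ k : ℕ, emb ((k : OO A B) * del) * (a * om / 4) = k * (emb (del : OO A B) * (a * om / 4))) ∧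
      4 * (emb (del : OO A B) * (a * om / 4)) ∈ L.lattice ∧
      2 * (emb (del : OO A B) * (a * om / 4)) ∉ L.lattice ∧
      ∀ Y, 4 * Y ∈ L.lattice → ∃ b : OO A B, Y - emb b * (a * om / 4) ∈ L.lattice

/-- (SIG) integral elements of the ray class field are polynomials in `x(P)`, `P = om/m`. Model `E_SIG.lean`.

Uses Sd_COE, Sd_GRT, Sd_TPT, Sy_UNR, Sy_DEG, Se_BAS (`Pool.Agent.NSE`). PROOF. `M = RFE (m a)`, `M₀ = RFE (2 f a)`, `m a = 2^(n+2) (f a)`. `GoodT.tor`: `e = ℘ w1`, `u² = ℘ w2 - ℘ w1`, `3 w_i ∈ L`: `e, u² ∈ RFE (3) ≤ M₀` (`3 ∣ f`; `xnE L w_i = ℘ w_i - 1/12`, `tm_FAC`). `k` with `2^(n+2) k ≡ 1` modulo `f`, `P₀ = 2^(n+2) k P`, `P₁ = P - P₀`: `f P₀ ∈ L`,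
`2 P₀ ∉ L` (`f ≥ 3` odd, `k` prime to `f`), `2^(n+2) P₁ ∈ L`, `2^(n+1) P₁ ∉ L` (`1 - 2^(n+2) k` is odd). `P₀, 2 P₀ ∉ InK` (TPT (1)), so `v(2 y + a1 x + a3) = 1` at `P₀` (`gv_DX`). `π = x(P) - x(P₀)`: `gnear`: `v(π) = v(t(P₁))`, so `v(π)^(3·4^(n+1)) = v 2` (TPT (2), `j = n + 1`). (BAS) with `N = 3·4^(n+1)` (DEG with `j = n + 1`, `f := f a`; UNR; `tm_GAL`): `w = Σ a_i π^i`,
`a_i ∈ M₀`, `v a_i ≤ 1`. `h = Σ C(a_i) (X - C(x P₀))^i`. `s` is trivial on `M₀` (`AutCE.triv`, `c - 1 ∈ (2 f a)`), so on `a_i`, `e`, `u²`, `x(P₀)`, and `s(xnE L P) = xnE L (emb c * P)`: `s(x P) = x(emb c * P)` (`x = (xnE + 1/12 - e)/u²`). -/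
def Sy_SIG : Prop :=
  ∀ (A B : ℤ) (V : ValuationSubring ℂ) (n f a m : ℕ), SetEU A B V n f a m →
    ∀ (L : PeriodPair) (om u e a1 a3 : ℂ), IsNE (⊤ : Ideal (OO A B)) L om →
    GoodT V L u e a1 a3 →
    ∀ w ∈ RFE (idl (A := A) (B := B) (m * a)), V.valuation w ≤ 1 →
    ∃ h : ℂ[X], IntP V h ∧ w = h.eval (xu L u e (om / m)) ∧
      ∀ (c : OO A B) (s : ℂ ≃+* ℂ), AutCE (idl (m * a)) c s → c - 1 ∈ idl (2 * (f * a)) →
        s w = h.eval (xu L u e (emb c * (om / m)))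

/-! ## The points -/

/-- (MUL) the isogenies `μ_i x : L_(i0) → L_i` have odd degree. Model `E_MUL.lean`. -/
def Sy_MUL : Prop :=
  ∀ (A B : ℤ) (V : ValuationSubring ℂ), CtxU A B V → ∀ (n : ℕ) (ι : Type) (R : RepsE A B n ι),
    n ≠ 0 → 2 ∣ n → ∀ (i : ι) (x : OO A B), x ∉ idl (A := A) (B := B) 2 →
      muXE R i * emb x ≠ 0 ∧ Isg (R.L R.i0) (R.L i) (muXE R i * emb x) ∧
      ∃ N : ℕ, ¬ 2 ∣ N ∧ ∀ z, muXE R i * emb x * z ∈ (R.L i).lattice →
        (N : ℂ) * z ∈ (R.L R.i0).lattice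

/-- (GPO) the values of `Θ_a` at the points `(i, x)` as rational functions over `V` of `x(P)`.

Uses Sd_COE, Sd_GRT, Sd_THT, Sd_NE1, Sy_MUL, Sy_UNR. PROOF. `μ = muXE R i * emb x`, a model `u', e', a1', a3'` of `R.L i` (`CtxU.good`), `IsoT` by (MUL). `P, Q` from (THT); `κ = (u'²)^|H|`. `|H|` is even (`b_HRE`: `2 |H| + 1 = a²`, `a` odd, so `8 ∣ a² - 1`), `u'² = xnE w2 - xnE w1 ∈ RFE (3)` (`GoodT.tor`), so `v(u'²)³` is a power of `v 2` (UNR), and `3 ∣ |H|` (`3 ∤ a`). `IsCoprime (c x) m`: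
`ptE R m i (c x) = μ (emb c om_0/m)` has exact order `m` (`tm_PT`; `m.primeFactors ⊆ (2 f).primeFactors`), so (NE1) applies (`j = n + 2`), and (THT) with `z = emb c * (om_0/m)`. `v(et) ≤ 1`: `et = 2 y + a1 x + a3`, `z ∉ InK` (`gInt_Y`). -/
def Sy_GPO : Prop :=
  ∀ (A B : ℤ) (V : ValuationSubring ℂ) (n f a m : ℕ), SetEU A B V n f a m →
    ∀ (ι : Type) (R : RepsE A B (2 * f) ι) (u e a1 a3 : ℂ), GoodT V (R.L R.i0) u e a1 a3 →
    ∀ (i : ι) (H : Finset ℂ), IsHalf (R.L i) (a : ℂ) H →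
    ∀ x : OO A B, x ∉ idl (A := A) (B := B) 2 →
    ∃ (κ : ℂ) (k : ℤ) (P Q : ℂ[X]), IntP V P ∧ IntP V Q ∧
      V.valuation κ = (V.valuation (2 : ℂ) ^ k) ^ 2 ∧
      ∀ c : OO A B, IsCoprime (c * x) ((m : ℕ) : OO A B) →
        V.valuation (xu (R.L R.i0) u e (emb c * (R.om R.i0 / m))) ≤ 1 ∧
        V.valuation (et (R.L R.i0) u (emb c * (R.om R.i0 / m))) ≤ 1 ∧
        V.valuation (P.eval (xu (R.L R.i0) u e (emb c * (R.om R.i0 / m)))) = 1 ∧
        V.valuation (Q.eval (xu (R.L R.i0) u e (emb c * (R.om R.i0 / m)))) = 1 ∧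
        ThetaH (R.L i) H (ptE R m i (c * x)) *
            Q.eval (xu (R.L R.i0) u e (emb c * (R.om R.i0 / m))) =
          κ * P.eval (xu (R.L R.i0) u e (emb c * (R.om R.i0 / m))) ∧
        muXE R i * emb x * dlX (R.L i) a (ptE R m i (c * x)) / u =
          dlg P Q (xu (R.L R.i0) u e (emb c * (R.om R.i0 / m))) *
            et (R.L R.i0) u (emb c * (R.om R.i0 / m))

/-! ## The two estimates -/

/-- (SQR) squares, for products over arbitrary finite families of points `(i, x)`.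

Uses Sd_LAG, Sd_PRD, Sd_COE, Sd_DST, Sy_AUT, Sy_GTA, Sy_CON, Sy_SIG, Sd_NE1, Sy_GPO. PROOF. `N = 2^n f a`, `c_b = cc N b`, `P = om_0/m`, `P, 2 P ∉ InK` (NE1; exact order `m`: `tm_PT` for `i0`, `x = 1`). The elements `q = (i, x)` of all `X j`: `κ_q, k_q, P_q, Q_q` from (GPO) (`x` is prime to `m`, so not in `(2)`). `v(y)² = ∏ v(κ_q)^(g_j) = v(2)^(2 K)`, `K = Σ g_j k_q`
(GPO with `c = 1`): `v(y) = v(2)^K` (`y ≠ 0`), `w = y/2^K ∈ RFE m ≤ RFE (m a)`, `v w = 1`. (SIG): `h`. For `b ∈ O` let `s_b` be an automorphism with `AutCE (idl (m a)) c_b s_b` (AUT, CON), `ξ_b = xu (emb c_b * P) = xu (P + emb b * (a om_0/4))`. `s_b(Θ(z)) = Θ(emb c_b z) = Θ(ptE R m i (c_b x))` (GTA) and (GPO) with `c = c_b`: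
`s_b(y)² = ∏ (κ_q P_q(ξ_b)/Q_q(ξ_b))^(g_j) = κ₀ P(ξ_b)/Q(ξ_b)`, `κ₀ = ∏ κ_q^(g_j)`, `v κ₀ = v(2)^(2K)`, with `P, Q` from (PRD) for the finite family of the `(j, q)` (`J := Σ j, X j`, or the finset `Finset.univ.sigma X`), `T = {ξ_b}`. `s_b(y) = 2^K h(ξ_b)` (SIG; `2^K` is rational). So `P(ξ_b) = κ h(ξ_b)² Q(ξ_b)`, `κ = 4^K/κ₀`, `v κ = 1`, for all `b ∈ O`, in particular at `ξ_0 = xu P`.
(DST (1)): `S`; its elements are `xu (P + Y)`, `4 Y ∈ L`, `Y ≡ emb b (a om_0/4)` (CON), so they are some `ξ_b`. (DST (2)) with `R = emb del (a om_0/4)`: `S'`; its elements are `xu (P + k R) = ξ_(k del)`, and `h(ξ_(k del)) = s w = w = h(ξ_0)` since `s y = y` by hypothesis. (LAG (4)): `v(P' Q - P Q')² ≤ max (v(2)² v(2)) (v(2)⁴) ≤ v(2)³` at `ξ_0`, so `v(dlg P Q ξ_0)² ≤ v(2)³`.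
The sum is `Σ g_j emb x muXE dlX/u = Σ g_j dlg P_q Q_q (ξ_0) et(P) = dlg P Q (ξ_0) et(P)` (GPO with `c = 1`: `emb 1 = 1`, `1 * x = x`; PRD), `v(et P) ≤ 1`. -/
def Sy_SQR : Prop :=
  ∀ (A B : ℤ) (V : ValuationSubring ℂ) (n f a m : ℕ), SetEU A B V n f a m →
    ∀ (ι : Type) (R : RepsE A B (2 * f) ι) (u e a1 a3 : ℂ), GoodT V (R.L R.i0) u e a1 a3 →
    ∀ (H : ι → Finset ℂ), (∀ i, IsHalf (R.L i) (a : ℂ) (H i)) →
    ∀ (J : Type) [Fintype J] (X : J → Finset (ι × OO A B)) (g : J → ℤ),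
      (∀ j, ∀ q ∈ X j, IsCoprime q.2 ((m : ℕ) : OO A B)) →
      (∃ y ∈ RFE (idl (A := A) (B := B) m),
        (∀ (k : ℕ) (s : ℂ ≃+* ℂ),
          AutCE (idl (m * a)) (cc (2 ^ n * f * a) ((k : OO A B) * del)) s → s y = y) ∧
        y ^ 2 = ∏ j, (∏ q ∈ X j, ThetaH (R.L q.1) (H q.1) (ptE R m q.1 q.2)) ^ g j) →
      V.valuation ((∑ j, (g j : ℂ) * ∑ q ∈ X j, emb q.2 * muXE R q.1 *
        dlX (R.L q.1) a (ptE R m q.1 q.2)) / u) ^ 2 ≤ V.valuation (2 : ℂ) ^ 3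

/-- (ORB) the sum over one orbit of `1 + N del`, `N = 2^n f a`.

Uses Sd_LAG, Sd_PRD, Sd_COE, Sd_DST, Sy_CON, Sd_NE1, Sy_GPO. PROOF. `c_k = cc N (k del)`, `P = om_0/m`, `ξ_j = xu (emb c_j P) = xu (P + j R)`, `R = emb del (a om_0/4)` (CON). (1) (GPO) with `c = 1`: `v(muXE emb x dlX/u) ≤ 1` (`P, Q` over `V` with unit values at `ξ_0 ∈ V`), `v(emb x) = 1` (`CtxU.unit`; `x` is prime to `m`, so not in `(2)`).
(2) `Θ` and `dlX` at `ptE R m i x` depend only on `x` modulo `m` (periodic: `b_TIN`, `b_TDL`; `ptE` by `tm_PT`). Let `x_k = c_k x` (`k = 0..3`), prime to `m`; `κ_k, P_k, Q_k` from (GPO) for `x_k`. For `c = c_j`: `c_j x_k ≡ c_(j+k) x` modulo `m` (CON (3)), `c_4 ≡ 1`, so `∏_k Θ(ptE (c_j x_k)) = ∏_(k<4) Θ(ptE (c_(j+k) x))` does not depend on `j < 4`; so `∏_k κ_k P_k(ξ_j)/Q_k(ξ_j)` does not depend on `j`,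
and with `P, Q` from (PRD) (exponents `1`): `P(ξ_j) Q(ξ_0) = P(ξ_0) Q(ξ_j)`. (DST (2)), (LAG (3)): `v(dlg P Q ξ_0)² ≤ v 2`. So `Σ_k muXE emb(x_k) dlX(ptE x_k)/u = dlg P Q (ξ_0) et(P)` has `v(..)² ≤ v 2`. `emb x_k - emb x = emb x N k emb del`, `v ≤ v(4)` (`n ≥ 2`), `v(muXE dlX(ptE x_k)/u) ≤ 1` by (1), so `v(emb x Σ_k muXE dlX(ptE x_k)/u)² ≤ max (v 2) (v(4)²) = v 2`. -/
def Sy_ORB : Prop :=
  ∀ (A B : ℤ) (V : ValuationSubring ℂ) (n f a m : ℕ), SetEU A B V n f a m →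
    ∀ (ι : Type) (R : RepsE A B (2 * f) ι) (u e a1 a3 : ℂ), GoodT V (R.L R.i0) u e a1 a3 →
    ∀ (i : ι) (H : Finset ℂ), IsHalf (R.L i) (a : ℂ) H →
    ∀ x : OO A B, IsCoprime x ((m : ℕ) : OO A B) →
      V.valuation (muXE R i * dlX (R.L i) a (ptE R m i x) / u) ≤ 1 ∧
      ∀ y : ℕ → OO A B,
        (∀ k < 4, y k - cc (2 ^ n * f * a) ((k : OO A B) * del) * x ∈ idl m) →
        V.valuation ((∑ k ∈ Finset.range 4, muXE R i * dlX (R.L i) a (ptE R m i (y k))) / u) ^ 2 ≤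
          V.valuation (2 : ℂ)

/-! ## The sets `XXE` -/

/-- (GLC) the automorphisms `1 + k N del` are trivial on `D`.

Uses Sy_CON. PROOF. `InCycE` for `s`: `AutCE.fix`; `AutCE.triv` with `m' = idl (2 f)` (`c - 1 ∈ (4 f) ≤ (2 f)`, `2 f ∣ m a`); `z^(2^(n+2)) = 1`: `s z = z^(1 + 2^(n+2) j) = z` (`AutCE.zeta` with `M = 2^(n+2)`, CON (2)). -/
def Sy_GLC : Prop :=
  ∀ (A B : ℤ) (V : ValuationSubring ℂ) (n f a m : ℕ), SetEU A B V n f a m →
    ∀ D : IntermediateField ℚ ℂ, InCycE A B f (2 ^ (n + 2)) D → ∀ (k : ℕ) (s : ℂ ≃+* ℂ),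
      AutCE (idl (m * a)) (cc (2 ^ n * f * a) ((k : OO A B) * del)) s → ∀ y ∈ D, s y = y

/-- (XXS) stability of `XXE` under `-1` and under `c`.

PROOF. Let `q = (i, X) ∈ XXE`, `x = out X`, `σ` as in `XXE`. (1) `out (-X) ≡ -x` modulo `m`: prime to `m`; `xnE` is even and periodic, `ptE R m i` of two elements which are congruent modulo `m` differ by an element of `L_i` (`tm_PT` or directly: `om_i N(b_i) emb y`, `N(b_i) ∈ b_i`): `HitsE` for the same `σ`. (2) `σ' = σ.trans s` (first `σ`): `FixK`, `ExtC` (`s` is trivial on `D`),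
`kapE (R.L i) = s (σ ..)` (`AutCE.kapE`), `s (xnE L_i (ptE R m i x)) = xnE L_i (emb c * ptE R m i x) = xnE L_i (ptE R m i x')`, `x' = out (c X) ≡ c x`; `emb c * ptE ∉ L_i` (`AutCE.xnE`; `Tor (idl (m a))` of the point: `m ptE ∈ L_i`). `c x` is prime to `m`. -/
def Sy_XXS : Prop :=
  ∀ (A B : ℤ) (V : ValuationSubring ℂ) (n f a m : ℕ), SetEU A B V n f a m →
    ∀ (ι : Type) (R : RepsE A B (2 * f) ι) (D : IntermediateField ℚ ℂ) (h : kk A B ≤ D),
    letI := algC h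
    ∀ (τ : D ≃ₐ[kk A B] D), ∀ q ∈ XXE R m h τ, (q.1, -q.2) ∈ XXE R m h τ ∧
      ∀ (c : OO A B) (s : ℂ ≃+* ℂ), IsCoprime c ((m : ℕ) : OO A B) → AutCE (idl (m * a)) c s →
        (∀ y ∈ D, s y = y) → (q.1, Ideal.Quotient.mk (idl (A := A) (B := B) m) c * q.2) ∈ XXE R m h τ

/-- (HEQ) sums and products of even functions over half systems.

Uses Sy_XXS. PROOF. `S` is in bijection with `S'`: `q ↦ q` if `q ∈ S'`, `q ↦ (q.1, -q.2)` otherwise (`cov`, `dis`; `Finset.prod_bij'`). `XXE` is the disjoint union of `S` and its image under `-1` (`sub`, `cov`, `dis`, XXS): `finsum_mem_coe_finset`. -/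
def Sy_HEQ : Prop :=
  ∀ (A B : ℤ) (V : ValuationSubring ℂ) (n f a m : ℕ), SetEU A B V n f a m →
    ∀ (ι : Type) (R : RepsE A B (2 * f) ι) (D : IntermediateField ℚ ℂ) (h : kk A B ≤ D),
    letI := algC h
    ∀ (τ : D ≃ₐ[kk A B] D) (S : Finset (ι × (OO A B ⧸ idl (A := A) (B := B) m))),
      HalfSE R m h τ S → ∀ F : ι × (OO A B ⧸ idl (A := A) (B := B) m) → ℂ,
      (∀ q ∈ XXE R m h τ, F (q.1, -q.2) = F q) →
      (∀ S', HalfSE R m h τ S' → ∏ q ∈ S, F q = ∏ q ∈ S', F q) ∧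
      ∑ᶠ q ∈ XXE R m h τ, F q = 2 * ∑ q ∈ S, F q

/-- (HAL) half systems which are stable under `1 + N del`.

Uses Sy_CON, Sy_XXS. PROOF. `XXE` is finite (`ι` and `O/m` are finite). For `X ∈ O/m` let `r(X) ∈ O/(f)` be the class of `out X` (`f ∣ m`): `r(-X) = -r(X)`, `r(c X) = r(X)` (`c - 1 ∈ (4 f) ≤ (f)`), `r(X) ≠ -r(X)` if `out X` is prime to `m` (otherwise `f ∣ 2 x`, `f` odd, so `f ∣ x` with `x` prime to `f ≥ 3`, false). Take an injection `j` of the finite (or countable) set `O/(f)` into `ℕ` and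
`S = {q ∈ XXE : j(r(q.2)) < j(-r(q.2))}`. -/
def Sy_HAL : Prop :=
  ∀ (A B : ℤ) (V : ValuationSubring ℂ) (n f a m : ℕ), SetEU A B V n f a m →
    ∀ (ι : Type) [Finite ι] (R : RepsE A B (2 * f) ι) (D : IntermediateField ℚ ℂ)
      (h : kk A B ≤ D),
    letI := algC h
    ∀ (τ : D ≃ₐ[kk A B] D),
      (∀ q ∈ XXE R m h τ, (q.1, Ideal.Quotient.mk (idl (A := A) (B := B) m) (cc (2 ^ n * f * a) del) * q.2) ∈
        XXE R m h τ) →
      ∃ S : Finset (ι × (OO A B ⧸ idl (A := A) (B := B) m)), HalfSE R m h τ S ∧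
        ∀ q ∈ S, (q.1, Ideal.Quotient.mk (idl (A := A) (B := B) m) (cc (2 ^ n * f * a) del) * q.2) ∈ S

/-- (MAIN) both estimates for families of sets of pairs which are stable under `c = 1 + N del`.

Uses Sy_CON, Sy_SQR, Sy_ORB, Sd_PRT. PROOF. `φ q = (q.1, c q.2)`; `φ^[k] q = (q.1, c^k q.2)` and `c^k ≡ c_k := cc N (k del)` modulo `m` (CON (3), induction), `c_4 ≡ 1`, `φ^[2] q ≠ q` (CON (5)): (PRT) gives `T_j`. `F q = om(out q.2) muXE dlX(..)/u`. `y_k = out ((φ^[k] t).2) ≡ c_k out(t.2)` modulo `m`: `om(y_k) = om(out t.2)` (`OddT.per`; `2 f ∣ m`, `c_k - 1 ∈ (4 f)`),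
`v(om(..)) ≤ 1` (`OddT.cong`, `CtxU.int`). (i) `Σ_k F(φ^[k] t) = om(out t.2) Σ_k muXE dlX(ptE y_k)/u`, by (ORB (2)) `v(..)² ≤ v 2`; sum over `t`. (ii) (SQR) for `X j = {(q.1, out q.2) : q ∈ S j}`: `v(Σ g_j Σ_q emb(out q.2) E q)² ≤ v(2)³`, `E q = muXE dlX/u`, `v(E q) ≤ 1` (ORB (1)). The difference to the claim is `Σ_j g_j Σ_(t ∈ T_j) D_t`,
`D_t = Σ_k (om(y_k) - emb(y_k)) E(φ^[k] t) = (om(x) - emb(x)) Σ_k E(φ^[k] t) - Σ_k (emb(y_k) - emb(x)) E(φ^[k] t)`, `x = out t.2`: `v(first)² ≤ v(2)² v(2)` (`OddT.cong`, ORB (2)), `v(second) ≤ v(4)` (`y_k - x ∈ (4)`). -/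
def Sy_MAIN : Prop :=
  ∀ (A B : ℤ) (V : ValuationSubring ℂ) (n f a m : ℕ), SetEU A B V n f a m →
    ∀ (ι : Type) (R : RepsE A B (2 * f) ι) (u e a1 a3 : ℂ), GoodT V (R.L R.i0) u e a1 a3 →
    ∀ (H : ι → Finset ℂ), (∀ i, IsHalf (R.L i) (a : ℂ) (H i)) →
    ∀ om : OO A B → ℂ, OddT f V om →
    ∀ (J : Type) [Fintype J] (S : J → Finset (ι × (OO A B ⧸ idl (A := A) (B := B) m))),
      (∀ j, ∀ q ∈ S j, IsCoprime (Quotient.out q.2 : OO A B) ((m : ℕ) : OO A B)) →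
      (∀ j, ∀ q ∈ S j,
        (q.1, Ideal.Quotient.mk (idl (A := A) (B := B) m) (cc (2 ^ n * f * a) del) * q.2) ∈ S j) →
      (∀ j, V.valuation ((∑ q ∈ S j, om (Quotient.out q.2) * muXE R q.1 *
        dlX (R.L q.1) a (ptE R m q.1 (Quotient.out q.2))) / u) ^ 2 ≤ V.valuation (2 : ℂ)) ∧
      ∀ g : J → ℤ,
        (∃ y ∈ RFE (idl (A := A) (B := B) m),
          (∀ (k : ℕ) (s : ℂ ≃+* ℂ),
            AutCE (idl (m * a)) (cc (2 ^ n * f * a) ((k : OO A B) * del)) s → s y = y) ∧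
          y ^ 2 = ∏ j, (∏ q ∈ S j,
            ThetaH (R.L q.1) (H q.1) (ptE R m q.1 (Quotient.out q.2))) ^ g j) →
        V.valuation ((∑ j, (g j : ℂ) * ∑ q ∈ S j, om (Quotient.out q.2) * muXE R q.1 *
          dlX (R.L q.1) a (ptE R m q.1 (Quotient.out q.2))) / u) ^ 2 ≤ V.valuation (2 : ℂ) ^ 3

/-- (FIN) the final form.

Uses Sy_CTX, Sy_AUT, Sy_CON, Sy_GLC, Sy_XXS, Sy_HEQ, Sy_HAL, Sy_MAIN. PROOF. `m = lvX 2 f n = f * 4 * 2^n = 2^(n+2) f`, `a = aX 2 f = 1 + 8 f`, `f ≥ 3` (`3 absD ∣ f`), `SetEU` (CTX). `c = cc N del`, `s` with `AutCE (idl (m a)) c s` (AUT, CON; a normalised lattice exists: `R.nl`), trivial on `D` (GLC with `k = 1`): (XXS), (HAL): stable half systems `S τ`. `C τ = ∏_(q ∈ S τ) Θ` (HEQ; `Θ` is even and periodic, `b_TIN`).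
`TT2E = 1/2 · 2 Σ_(q ∈ S τ) om muXE dlX` (HEQ: the function is even, since `om` and `dlX` are odd: `om (out (-X)) = om (-out X)` by `OddT.per`; `dlX` is odd and periodic, `b_TDL`, or `ee`). First claim: (MAIN (i)), `J = Unit`. Second claim: `J = D ≃ₐ D` (finite: `D` is contained in `RFE m`; `τ ↦ C τ`), `S j := S (j τ')`, `y' = τ' y ∈ D`: `y'² = ∏ C(τ τ')^(g τ)`, because
`τ'(C τ) = τ'(τ(C 1)) = C(τ' τ) = C(τ τ')` (`Gal(D/k)` is commutative: extend to `ℂ` (`TorXE.ext`), restrict to `RFE m` (`TorXE.comm`); see `E_MAIN.lean`, `E_FIN.lean` and `Pool/Agent/MUX/E_MAIN0.lean`), `y' ∈ D` is fixed by all `s` (GLC), (MAIN (ii)). -/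
def Sy_FIN : Prop := T3_RFIN → T3_EFIN

end

end Pool.Agent.ME2E


end

section

/-!
# MUX-2N, block E2N, module GTA: automorphisms of `ℂ` act on `Θ_a(z)` (helper95; after `MUX/E_GTH.lean`)
-/

set_option autoImplicit false

open Polynomial

namespace Pool.Agent.ME2E

open _root_.MU3 _root_.Pool.Agent.MU3A _root_.Pool.Agent.MU3B _root_.Pool.Agent.MUX _root_.Pool.Agent.MUXU
open _root_.Pool.Agent.RI _root_.Pool.Agent.NS
open _root_.Pool.Agent.ME hiding ActE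
open _root_.Pool.Agent.MEE _root_.Pool.Agent.ME2
open _root_.Pool.Agent.MUXE (RingE)
open _root_.Pool.Agent.N2 (GoodT et yt WT IsTei2 OddT PTq)
open _root_.Pool.Agent.N2E (dlg del cc IsoT Sd_LAG Sd_PRD Sd_COE Sd_GRT Sd_TPT Sd_UNT Sd_RAT Sd_THT Sd_DST Sd_NE1 Sd_PRT)

noncomputable section

/-- (GTA) the automorphism acts on `Θ_a` -/
theorem ty_GTA : Sy_GTA := by
  intro A B hR L hL a H hH m hm c s hs hac z hz hzL
  obtain ⟨t1, -, -, -, -, -, -, -, t9⟩ := tm_TRA A B hR L hL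
  obtain ⟨φ, hφ⟩ := hR.hom
  have emul : ∀ x y : OO A B, emb (x * y) = emb x * emb y := by
    intro x y
    rw [← hφ, ← hφ, ← hφ, map_mul]
  have eadd : ∀ x y : OO A B, emb (x + y) = emb x + emb y := by
    intro x y
    rw [← hφ, ← hφ, ← hφ, map_add]
  have eone : emb (1 : OO A B) = 1 := by rw [← hφ, map_one]
  have enat : ∀ n : ℕ, emb (n : OO A B) = n := by
    intro n
    rw [← hφ, map_natCast]
  have hgen : ∀ x ∈ sp (a : OO A B), ∃ k : OO A B, x = k * (a : OO A B) := by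
    intro x hx
    obtain ⟨k, hk⟩ := Ideal.mem_span_singleton'.1 hx
    exact ⟨k, hk.symm⟩
  have hq : ∀ q ∈ H, Tor m L q ∧ q ∉ L.lattice := by
    intro q hqH
    constructor
    · intro x hx
      obtain ⟨k, hk⟩ := hgen x (hm hx)
      rw [hk, emul, enat, mul_assoc]
      exact t1 k _ (hH.mem q hqH)
    · intro h0
      refine hH.ne q hqH ?_
      rw [two_mul]
      exact add_mem h0 h0
  have hcq : ∀ q ∈ H, xnE L (emb c * q) = xnE L q := by
    intro q hqH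
    obtain ⟨k, hk⟩ := hgen _ hac
    have h2 : q - emb c * q ∈ L.lattice := by
      have h3 : c = 1 + k * (a : OO A B) := by rw [← hk]; ring
      have h4 : q - emb c * q = -(emb k * ((a : ℂ) * q)) := by
        rw [h3, eadd, eone, emul, enat]
        ring
      rw [h4]
      exact neg_mem (t1 k _ (hH.mem q hqH))
    exact (((t9 q (emb c * q) h2).2 (hq q hqH).2).1).symm
  have hTh : ∀ z, ThetaH L H z = ∏ q ∈ H, (xnE L z - xnE L q) := by
    intro z
    unfold ThetaH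
    refine Finset.prod_congr rfl fun q _ => ?_
    unfold xnE
    ring
  rw [hTh, hTh, map_prod]
  refine Finset.prod_congr rfl fun q hqH => ?_
  rw [map_sub, (hs.xnE L hL z hz hzL).2, (hs.xnE L hL q (hq q hqH).1 (hq q hqH).2).2, hcq q hqH]

end

end Pool.Agent.ME2E


end

section

/-!
# MUX-2N, block E2N, module FIN: the final form (helper71)
-/

set_option autoImplicit false

namespace Pool.Agent.ME2E

open _root_.MU3 _root_.Pool.Agent.MU3A _root_.Pool.Agent.MU3B _root_.Pool.Agent.MUX _root_.Pool.Agent.MUXU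
open _root_.Pool.Agent.RI _root_.Pool.Agent.NS
open _root_.Pool.Agent.ME hiding ActE
open _root_.Pool.Agent.MEE _root_.Pool.Agent.ME2
open _root_.Pool.Agent.MUXE (RingE)
open _root_.Pool.Agent.N2 (GoodT et yt WT IsTei2 OddT PTq)
open _root_.Pool.Agent.N2E (dlg del cc IsoT Sd_LAG Sd_PRD Sd_COE Sd_GRT Sd_TPT Sd_UNT Sd_RAT Sd_THT Sd_DST Sd_NE1 Sd_PRT)

noncomputable section

namespace FIN

lemma _root_.Pool.Agent.ME2E.FIN.fn_f {A B : ℤ} {V : ValuationSubring ℂ} {f : ℕ} (h : SetT3 A B V f) : 3 ≤ f ∧ 3 ∣ f := by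
  have h1 : (3 : ℤ) ∣ (f : ℤ) := (dvd_mul_right 3 (absD A B)).trans h.fD
  have h2 : 3 ∣ f := by exact_mod_cast h1
  exact ⟨Nat.le_of_dvd (Nat.pos_of_ne_zero h.f0) h2, h2⟩

/-- `Θ` is even and periodic -/
lemma _root_.Pool.Agent.ME2E.FIN.fn_theta {L : PeriodPair} {a : ℂ} {H : Finset ℂ} (hH : IsHalf L a H) {z l : ℂ}
    (hl : l ∈ L.lattice) : ThetaH L H (l - z) = ThetaH L H z := by
  obtain ⟨-, h1, h2⟩ := b_TIN L a H H hH hH
  rw [show l - z = -z + l by ring, h2 _ _ hl, h1]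

lemma _root_.Pool.Agent.ME2E.FIN.fn_mkout {A B : ℤ} {m : ℕ} (x : OO A B ⧸ idl (A := A) (B := B) m) :
    (Quotient.out x : OO A B) + Quotient.out (-x) ∈ idl (A := A) (B := B) m := by
  rw [← Ideal.Quotient.eq_zero_iff_mem, map_add, Ideal.Quotient.mk_out, Ideal.Quotient.mk_out]
  exact add_neg_cancel x

end FIN

lemma bdl_pt (h2 : Sme_PT) {A B : ℤ} (hr : RingE A B) {n : ℕ} {ι : Type} (R : RepsE A B n ι)
    (hn : n ≠ 0) (i : ι) {m : ℕ} (hm0 : m ≠ 0) {x y : OO A B}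
    (hy : x + y ∈ idl (A := A) (B := B) m) :
    ∃ l ∈ (R.L i).lattice, ptE R m i y = l - ptE R m i x := by
  obtain ⟨hmu0, hmuL, -, -⟩ := h2 A B hr n ι R hn i
  obtain ⟨t, ht⟩ := Ideal.mem_span_singleton.1 hy
  obtain ⟨φ, hφ⟩ := hr.hom
  have e1 : emb y = (m : ℂ) * emb t - emb x := by
    have : y = ((m : ℕ) : OO A B) * t - x := by rw [← ht]; ring
    rw [this, ← hφ, ← hφ, ← hφ, map_sub, map_mul, map_natCast]
  have hmc : (m : ℂ) ≠ 0 := by exact_mod_cast hm0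
  refine ⟨R.om i * nI (R.b i) * emb t, ?_, ?_⟩
  · have hu : R.om R.i0 * emb t ∈ (R.L R.i0).lattice := by
      rw [(R.nl R.i0).mem]
      exact ⟨t, by rw [R.b0]; trivial, rfl⟩
    have h5 := hmuL _ hu
    have hom : R.om R.i0 ≠ 0 := (R.nl R.i0).om_ne
    have e4 : muXE R i * (R.om R.i0 * emb t) = R.om i * nI (R.b i) * emb t := by
      unfold muXE
      field_simp
    rwa [e4] at h5
  · unfold ptE
    rw [e1]
    field_simp

lemma ew_fin {A B : ℤ} (hT : TorXE A B) (m : Ideal (OO A B)) (hm : m ≠ ⊥)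
    (D : IntermediateField ℚ ℂ) (h : kk A B ≤ D) (hD : ∀ y ∈ D, y ∈ RFE m) :
    letI := algC h
    Finite (D ≃ₐ[kk A B] D) := by
  letI := algC h
  have := hT.fin _ hm
  have := Pool.Agent.FX.fd_of_le h hD
  infer_instance

open _root_.Pool.Agent.ME2E.FIN in
theorem ty_FIN (h1 : Sy_CTX) (h2 : Sy_AUT) (h3 : Sy_CON) (h4 : Sy_GLC) (h5 : Sy_XXS)
    (h6 : Sy_HEQ) (h7 : Sy_HAL) (h8 : Sy_MAIN) : Sy_FIN := by
  classical
  intro hR A B V f hS hT ι _ R u e a1 a3 hG om hom n hn H hH D hD hDF hCyc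
  letI := algC hD
  intro C hC hCS
  obtain ⟨hf3, hf3'⟩ := _root_.Pool.Agent.ME2E.FIN.fn_f hS
  obtain ⟨ha3, hao, haf⟩ := MUXE.m0_aX (p := 2) (Or.inl rfl) hS.f0
  have hctx := h1 A B V hS.case hS.hB hS.hV hT hR
  have hr := hctx.ring
  have hm : lvX 2 f n = 2 ^ (n + 2) * f := by
    simp [lvX, q0]
    ring
  have hm0 : lvX 2 f n ≠ 0 := by
    rw [hm]
    exact mul_ne_zero (pow_ne_zero _ (by norm_num)) hS.f0
  have ha0 : aX 2 f ≠ 0 := by omega
  have h2f : 2 * f ≠ 0 := by omega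
  have hE : SetEU A B V n f (aX 2 f) (lvX 2 f n) :=
    ⟨hctx, hT, hn, hf3, hf3', hS.fp, ha3, hao, haf, hm⟩
  have hmb := MUXE.m0_ne A B hr hm0
  have hmab := MUXE.m0_ne A B hr (mul_ne_zero hm0 ha0)
  generalize haa : aX 2 f = a at *
  generalize hmm : lvX 2 f n = m at *
  -- the automorphism
  obtain ⟨hc, -⟩ := h3 A B V n f a m hE
  obtain ⟨hc1, hc2, hc3, hc4, -⟩ := hc (del : OO A B)
  have hma2 : idl (A := A) (B := B) (m * a) ≤ idl 2 := by
    rw [Ideal.span_singleton_le_span_singleton, hm]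
    exact ⟨((2 ^ (n + 1) * f * a : ℕ) : OO A B), by push_cast; ring⟩
  have hc5 : cc (2 ^ n * f * a) (del : OO A B) - 1 ∈ idl (A := A) (B := B) 2 := by
    obtain ⟨t, ht⟩ := Ideal.mem_span_singleton'.1 hc4
    refine Ideal.mem_span_singleton'.2 ⟨t * ((f * a : ℕ) : OO A B), ?_⟩
    rw [← ht]
    push_cast
    ring
  obtain ⟨s, hs⟩ := h2 A B hS.case hr hT ⟨R.L R.i0, R.b R.i0, R.om R.i0, R.nl R.i0⟩ _ hmab hma2 _
    hc3 hc1 hc5
  have hs1 : AutCE (idl (A := A) (B := B) (m * a))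
      (cc (2 ^ n * f * a) (((1 : ℕ) : OO A B) * del)) s := by
    rw [Nat.cast_one, one_mul]
    exact hs
  have hsD : ∀ y ∈ D, s y = y := h4 A B V n f a m hE D hCyc 1 s hs1
  have hXc : ∀ τ : D ≃ₐ[kk A B] D, ∀ q ∈ XXE R m hD τ,
      (q.1, Ideal.Quotient.mk (idl (A := A) (B := B) m) (cc (2 ^ n * f * a) del) * q.2) ∈
        XXE R m hD τ := fun τ q hq =>
    (h5 A B V n f a m hE ι R D hD τ q hq).2 _ s hc2 hs hsD
  choose S hS1 hS2 using fun τ : D ≃ₐ[kk A B] D => h7 A B V n f a m hE ι R D hD τ (hXc τ)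
  choose S' hS1' hS2' using hCS
  -- products
  have hprod : ∀ τ : D ≃ₐ[kk A B] D, C τ = ∏ q ∈ S τ,
      ThetaH (R.L q.1) (H q.1) (ptE R m q.1 (Quotient.out q.2)) := by
    intro τ
    rw [hS2' τ]
    refine (h6 A B V n f a m hE ι R D hD τ (S' τ) (hS1' τ)
      (fun q => ThetaH (R.L q.1) (H q.1) (ptE R m q.1 (Quotient.out q.2))) ?_).1 (S τ) (hS1 τ)
    intro q hq
    obtain ⟨l, hl, e2⟩ := bdl_pt (tm_PT tm_TRA) hr R h2f q.1 hm0 (_root_.Pool.Agent.ME2E.FIN.fn_mkout q.2)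
    show ThetaH (R.L q.1) (H q.1) (ptE R m q.1 (Quotient.out (-q.2))) = _
    rw [e2]
    exact _root_.Pool.Agent.ME2E.FIN.fn_theta (hH q.1) hl
  -- sums
  have hsum : ∀ τ : D ≃ₐ[kk A B] D, TT2E R om m a hD τ = ∑ q ∈ S τ, om (Quotient.out q.2) *
      muXE R q.1 * dlX (R.L q.1) a (ptE R m q.1 (Quotient.out q.2)) := by
    intro τ
    have e1 := (h6 A B V n f a m hE ι R D hD τ (S τ) (hS1 τ)
      (fun q => om (Quotient.out q.2) * muXE R q.1 *
        dlX (R.L q.1) a (ptE R m q.1 (Quotient.out q.2))) (by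
      intro q hq
      obtain ⟨l, hl, e2⟩ := bdl_pt (tm_PT tm_TRA) hr R h2f q.1 hm0 (_root_.Pool.Agent.ME2E.FIN.fn_mkout q.2)
      show om (Quotient.out (-q.2)) * muXE R q.1 *
        dlX (R.L q.1) a (ptE R m q.1 (Quotient.out (-q.2))) = _
      have e3 : om (Quotient.out (-q.2)) = -om (Quotient.out q.2) := by
        rw [← hom.neg]
        refine hom.per _ _ ?_
        have e4 : (Quotient.out (-q.2) : OO A B) - -Quotient.out q.2 =
            Quotient.out q.2 + Quotient.out (-q.2) := by ring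
        rw [e4]
        obtain ⟨t, ht⟩ := Ideal.mem_span_singleton.1 (_root_.Pool.Agent.ME2E.FIN.fn_mkout q.2)
        rw [ht]
        refine Ideal.mem_span_singleton.2 ?_
        refine Dvd.dvd.mul_right ?_ t
        rw [hm]
        have e5 : 2 * f ∣ 2 ^ (n + 2) * f := Dvd.intro (2 ^ (n + 1)) (by ring)
        exact_mod_cast Nat.cast_dvd_cast (α := OO A B) e5
      rw [e2, MUXE.bdl_odd hl, e3]
      ring)).2
    unfold TT2E
    rw [e1]
    ring
  have hcop : ∀ τ : D ≃ₐ[kk A B] D, ∀ q ∈ S τ,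
      IsCoprime (Quotient.out q.2 : OO A B) ((m : ℕ) : OO A B) :=
    fun τ q hq => ((hS1 τ).sub q hq).1
  constructor
  · intro τ
    rw [hsum τ]
    exact (h8 A B V n f a m hE ι R u e a1 a3 hG H hH om hom Unit (fun _ => S τ)
      (fun _ => hcop τ) (fun _ => hS2 τ)).1 ()
  · intro g hsq τ'
    have hfinG : Finite (D ≃ₐ[kk A B] D) := ew_fin hT _ hmb D hD hDF
    letI : Fintype (D ≃ₐ[kk A B] D) := Fintype.ofFinite _
    have hcom := mx_comm hT _ hmb D hD hDF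
    have key := (h8 A B V n f a m hE ι R u e a1 a3 hG H hH om hom (D ≃ₐ[kk A B] D)
      (fun τ => S (τ * τ')) (fun τ => hcop (τ * τ')) (fun τ => hS2 (τ * τ'))).2 g
    rw [finsum_eq_sum_of_fintype]
    have e1 : (∑ τ : D ≃ₐ[kk A B] D, (g τ : ℂ) * TT2E R om m a hD (τ * τ')) =
        ∑ τ : D ≃ₐ[kk A B] D, (g τ : ℂ) * ∑ q ∈ S (τ * τ'), om (Quotient.out q.2) *
          muXE R q.1 * dlX (R.L q.1) a (ptE R m q.1 (Quotient.out q.2)) :=
      Finset.sum_congr rfl (fun τ _ => by rw [hsum])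
    rw [e1]
    apply key
    obtain ⟨v, hv, hvp⟩ := hsq
    rw [finprod_eq_prod_of_fintype] at hvp
    obtain ⟨y, hy1, -⟩ := hC 1
    have hyτ : ∀ τ : D ≃ₐ[kk A B] D, ((τ y : D) : ℂ) = C τ := by
      intro τ
      obtain ⟨y', hy', hy''⟩ := hC τ
      have : y' = y := Subtype.ext (hy'.trans hy1.symm)
      rw [← hy'', this]
    have hw4 : (⟨v, hv⟩ : D) ^ 2 = ∏ τ : D ≃ₐ[kk A B] D, (τ y) ^ g τ := by
      apply Subtype.ext
      rw [IntermediateField.coe_prod]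
      rw [show (((⟨v, hv⟩ : D) ^ 2 : D) : ℂ) = v ^ 2 from rfl, hvp]
      refine Finset.prod_congr rfl (fun τ _ => ?_)
      rw [← hyτ τ, ← MUXE.m0_zpc (D := D)]
    refine ⟨(τ' ⟨v, hv⟩ : D), hDF _ (τ' ⟨v, hv⟩).2, ?_, ?_⟩
    · intro k s' hs'
      exact h4 A B V n f a m hE D hCyc k s' hs' _ (τ' ⟨v, hv⟩).2
    · have hw5 := congrArg τ' hw4
      rw [map_pow, map_prod] at hw5
      have hw6 := congrArg (fun y : D => (y : ℂ)) hw5
      push_cast at hw6
      rw [hw6]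
      refine Finset.prod_congr rfl (fun τ _ => ?_)
      rw [← hprod, hcom τ τ', map_zpow₀, ← hyτ (τ' * τ), MUXE.m0_zpc]
      rfl

end

end Pool.Agent.ME2E


end

section

/-!
# MUX-2N, block E2N, module MAIN: both estimates for families of sets stable under `1 + N del`
-/

set_option autoImplicit false

open Polynomial

namespace Pool.Agent.ME2E

open _root_.MU3 _root_.Pool.Agent.MU3A _root_.Pool.Agent.MU3B _root_.Pool.Agent.MUX _root_.Pool.Agent.MUXU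
open _root_.Pool.Agent.RI _root_.Pool.Agent.NS
open _root_.Pool.Agent.ME hiding ActE
open _root_.Pool.Agent.MEE _root_.Pool.Agent.ME2
open _root_.Pool.Agent.MUXE (RingE)
open _root_.Pool.Agent.N2 (GoodT et yt WT IsTei2 OddT PTq)
open _root_.Pool.Agent.N2E (dlg del cc IsoT Sd_LAG Sd_PRD Sd_COE Sd_GRT Sd_TPT Sd_UNT Sd_RAT Sd_THT Sd_DST Sd_NE1 Sd_PRT)
open _root_.Pool.Agent.NSE (IntP)
open _root_.Pool.Agent.MUX2 (GRG)
open _root_.Pool.Agent.MUXV (InK tX)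

noncomputable section

namespace MAIN

lemma _root_.Pool.Agent.ME2E.MAIN.sq_add (V : ValuationSubring ℂ) (c : V.ValueGroup) (x y : ℂ)
    (hx : V.valuation x ^ 2 ≤ c) (hy : V.valuation y ^ 2 ≤ c) : V.valuation (x + y) ^ 2 ≤ c := by
  rcases le_total (V.valuation x) (V.valuation y) with h | h
  · exact (pow_le_pow_left' ((V.valuation.map_add x y).trans (max_le h le_rfl)) 2).trans hy
  · exact (pow_le_pow_left' ((V.valuation.map_add x y).trans (max_le le_rfl h)) 2).trans hx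

lemma _root_.Pool.Agent.ME2E.MAIN.sq_sum (V : ValuationSubring ℂ) (c : V.ValueGroup) {α : Type} (s : Finset α) (F : α → ℂ)
    (h : ∀ i ∈ s, V.valuation (F i) ^ 2 ≤ c) : V.valuation (∑ i ∈ s, F i) ^ 2 ≤ c := by
  classical
  induction s using Finset.induction_on with
  | empty => simp
  | insert i s hi ih =>
    rw [Finset.sum_insert hi]
    exact _root_.Pool.Agent.ME2E.MAIN.sq_add V c _ _ (h i (Finset.mem_insert_self _ _))
      (ih fun j hj => h j (Finset.mem_insert_of_mem hj))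

lemma _root_.Pool.Agent.ME2E.MAIN.sq_mul (V : ValuationSubring ℂ) (c : V.ValueGroup) (a x : ℂ) (ha : V.valuation a ≤ 1)
    (hx : V.valuation x ^ 2 ≤ c) : V.valuation (a * x) ^ 2 ≤ c := by
  rw [map_mul, mul_pow]
  calc V.valuation a ^ 2 * V.valuation x ^ 2 ≤ 1 * V.valuation x ^ 2 :=
        mul_le_mul_left (pow_le_one' ha 2) _
    _ = V.valuation x ^ 2 := one_mul _
    _ ≤ c := hx

lemma _root_.Pool.Agent.ME2E.MAIN.v_int (V : ValuationSubring ℂ) (g : ℤ) : V.valuation (g : ℂ) ≤ 1 :=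
  (V.valuation_le_one_iff _).2 (intCast_mem V g)

/-- the map `φ` -/
def _root_.Pool.Agent.ME2E.MAIN.ph {A B : ℤ} {m : ℕ} {ι : Type} (c : OO A B)
    (q : ι × (OO A B ⧸ idl (A := A) (B := B) m)) :
    ι × (OO A B ⧸ idl (A := A) (B := B) m) :=
  (q.1, Ideal.Quotient.mk (idl (A := A) (B := B) m) c * q.2)

lemma _root_.Pool.Agent.ME2E.MAIN.ph_iter {A B : ℤ} {m : ℕ} {ι : Type} (c : OO A B) (k : ℕ)
    (q : ι × (OO A B ⧸ idl (A := A) (B := B) m)) :
    (_root_.Pool.Agent.ME2E.MAIN.ph c)^[k] q = (q.1, Ideal.Quotient.mk (idl (A := A) (B := B) m) c ^ k * q.2) := by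
  induction k with
  | zero => simp
  | succ k ih =>
    rw [Function.iterate_succ_apply', ih]
    unfold _root_.Pool.Agent.ME2E.MAIN.ph
    simp only [pow_succ]
    congr 1
    ring

lemma _root_.Pool.Agent.ME2E.MAIN.dvd_mem {A B : ℤ} {M N : ℕ} (h : M ∣ N) (x : OO A B) (hx : x ∈ idl (A := A) (B := B) N) :
    x ∈ idl (A := A) (B := B) M := by
  rw [Ideal.mem_span_singleton] at hx ⊢
  exact (_root_.map_dvd (Nat.castRingHom (OO A B)) h).trans hx

end MAIN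

open _root_.Pool.Agent.ME2E.MAIN in
theorem ty_MAIN (hCON : Sy_CON) (hSQR : Sy_SQR) (hORB : Sy_ORB) (hPRT : Sd_PRT) : Sy_MAIN := by
  classical
  intro A B V n f a m hSet ι R u e a1 a3 hG H hH om hom J _ S hcop hst
  obtain ⟨k1, -, k3, k4, k5, -⟩ := hCON A B V n f a m hSet
  have hC := hSet.ctx
  have hm := hSet.hm
  set N : ℕ := 2 ^ n * f * a with hN
  set ck : ℕ → OO A B := fun k => cc N ((k : OO A B) * del) with hck
  set c : OO A B := cc N del with hc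
  -- divisibilities
  have d1 : m ∣ m * a := dvd_mul_right m a
  have d2 : 2 * f ∣ m := by
    rw [hm]
    exact Nat.mul_dvd_mul (dvd_pow_self 2 (by omega)) dvd_rfl
  have d3 : 4 ∣ m := by
    rw [hm]
    exact Dvd.dvd.mul_right (by rw [pow_add]; exact dvd_mul_left _ _) f
  have d4 : 2 * f ∣ 4 * f := Nat.mul_dvd_mul (by norm_num) dvd_rfl
  have d5 : 4 ∣ 4 * f := dvd_mul_right 4 f
  -- powers of c
  have hc1 : ck 1 = c := by simp [hck, hc]
  have hpow : ∀ k, Ideal.Quotient.mk (idl (A := A) (B := B) m) c ^ k =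
      Ideal.Quotient.mk (idl (A := A) (B := B) m) (ck k) := by
    intro k
    induction k with
    | zero => simp [hck, cc]
    | succ k ih =>
      rw [pow_succ, ih, ← hc1, ← map_mul]
      exact Ideal.Quotient.eq.2 (_root_.Pool.Agent.ME2E.MAIN.dvd_mem d1 _ (k3 k 1))
  have hit : ∀ (k : ℕ) (q : ι × (OO A B ⧸ idl (A := A) (B := B) m)), (_root_.Pool.Agent.ME2E.MAIN.ph c)^[k] q =
      (q.1, Ideal.Quotient.mk (idl (A := A) (B := B) m) (ck k) * q.2) := by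
    intro k q
    rw [_root_.Pool.Agent.ME2E.MAIN.ph_iter, hpow]
  have hout : ∀ q : OO A B ⧸ idl (A := A) (B := B) m,
      Ideal.Quotient.mk (idl (A := A) (B := B) m) (Quotient.out q) = q := fun q =>
    Quotient.out_eq q
  -- the partition
  have hpart : ∀ j, ∃ T ⊆ S j, ∀ F : ι × (OO A B ⧸ idl (A := A) (B := B) m) → ℂ,
      ∑ q ∈ S j, F q = ∑ t ∈ T, ∑ k ∈ Finset.range 4, F ((_root_.Pool.Agent.ME2E.MAIN.ph c)^[k] t) := by
    intro j
    refine hPRT _ (S j) (_root_.Pool.Agent.ME2E.MAIN.ph c) (hst j) ?_ ?_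
    · intro q hq
      rw [hit]
      have h1 : Ideal.Quotient.mk (idl (A := A) (B := B) m) (ck 4) = 1 := by
        rw [← map_one (Ideal.Quotient.mk (idl (A := A) (B := B) m)), Ideal.Quotient.eq]
        exact _root_.Pool.Agent.ME2E.MAIN.dvd_mem d1 _ k4
      rw [h1, one_mul]
    · intro q hq h
      rw [hit, Prod.ext_iff] at h
      have h2 := h.2
      simp only at h2
      refine k5 (Quotient.out q.2) (hcop j q hq) ?_
      rw [← Ideal.Quotient.eq, map_mul, hout]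
      exact h2
  choose T hTS hT using hpart
  -- points in the orbits
  have hmemS : ∀ (j : J) (k : ℕ), ∀ t ∈ S j, (_root_.Pool.Agent.ME2E.MAIN.ph c)^[k] t ∈ S j := by
    intro j k
    induction k with
    | zero => intro t ht; exact ht
    | succ k ih =>
      intro t ht
      rw [Function.iterate_succ_apply']
      exact hst j _ (ih t ht)
  set y : ι × (OO A B ⧸ idl (A := A) (B := B) m) → ℕ → OO A B :=
    fun t k => Quotient.out ((_root_.Pool.Agent.ME2E.MAIN.ph c)^[k] t).2 with hy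
  have hy1 : ∀ t k, y t k - ck k * Quotient.out t.2 ∈ idl (A := A) (B := B) m := by
    intro t k
    refine Ideal.Quotient.eq.1 ?_
    rw [map_mul, hout, hit, hout]
  have hck1 : ∀ k, ck k - 1 ∈ idl (A := A) (B := B) (4 * f) := fun k => (k1 _).2.2.2.2.1
  have hy4 : ∀ t k, y t k - Quotient.out t.2 ∈ idl (A := A) (B := B) 4 := by
    intro t k
    have h1 := _root_.Pool.Agent.ME2E.MAIN.dvd_mem d3 _ (hy1 t k)
    have h2 := _root_.Pool.Agent.ME2E.MAIN.dvd_mem d5 _ (hck1 k)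
    have h3 := Ideal.add_mem _ h1 (Ideal.mul_mem_right (Quotient.out t.2) _ h2)
    have h4 : y t k - ck k * Quotient.out t.2 + (ck k - 1) * Quotient.out t.2 =
      y t k - Quotient.out t.2 := by ring
    rwa [h4] at h3
  have hy2 : ∀ t k, y t k - Quotient.out t.2 ∈ idl (A := A) (B := B) (2 * f) := by
    intro t k
    have h1 := _root_.Pool.Agent.ME2E.MAIN.dvd_mem d2 _ (hy1 t k)
    have h2 := _root_.Pool.Agent.ME2E.MAIN.dvd_mem d4 _ (hck1 k)
    have h3 := Ideal.add_mem _ h1 (Ideal.mul_mem_right (Quotient.out t.2) _ h2)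
    have h4 : y t k - ck k * Quotient.out t.2 + (ck k - 1) * Quotient.out t.2 =
      y t k - Quotient.out t.2 := by ring
    rwa [h4] at h3
  have hom1 : ∀ t k, om (y t k) = om (Quotient.out t.2) := fun t k => hom.per _ _ (hy2 t k)
  -- the values
  have hv2 : V.valuation (2 : ℂ) < 1 := hC.v2
  have hcop2 : ∀ x : OO A B, IsCoprime x ((m : ℕ) : OO A B) →
      IsCoprime x ((2 * f : ℕ) : OO A B) := by
    intro x hx
    exact hx.of_isCoprime_of_dvd_right (_root_.map_dvd (Nat.castRingHom (OO A B)) d2)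
  have hcong : ∀ x : OO A B, IsCoprime x ((m : ℕ) : OO A B) →
      V.valuation (om x - emb x) ≤ V.valuation (2 : ℂ) := fun x hx => hom.cong x (hcop2 x hx)
  have hom2 : ∀ x : OO A B, IsCoprime x ((m : ℕ) : OO A B) → V.valuation (om x) ≤ 1 := by
    intro x hx
    have h1 : om x = (om x - emb x) + emb x := by ring
    rw [h1]
    exact (V.valuation.map_add _ _).trans (max_le ((hcong x hx).trans hv2.le) (hC.int x))
  set E : ι × (OO A B ⧸ idl (A := A) (B := B) m) → ℂ := fun q =>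
    muXE R q.1 * dlX (R.L q.1) a (ptE R m q.1 (Quotient.out q.2)) / u with hE
  have hE1 : ∀ (j : J), ∀ q ∈ S j, V.valuation (E q) ≤ 1 := by
    intro j q hq
    exact (hORB A B V n f a m hSet ι R u e a1 a3 hG q.1 (H q.1) (hH q.1) (Quotient.out q.2)
      (hcop j q hq)).1
  have hEo : ∀ (j : J), ∀ t ∈ S j,
      V.valuation (∑ k ∈ Finset.range 4, E ((_root_.Pool.Agent.ME2E.MAIN.ph c)^[k] t)) ^ 2 ≤ V.valuation (2 : ℂ) := by
    intro j t ht
    have h1 := (hORB A B V n f a m hSet ι R u e a1 a3 hG t.1 (H t.1) (hH t.1) (Quotient.out t.2)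
      (hcop j t ht)).2 (y t) (fun k _ => hy1 t k)
    rw [Finset.sum_div] at h1
    have h2 : ∑ k ∈ Finset.range 4, E ((_root_.Pool.Agent.ME2E.MAIN.ph c)^[k] t) =
        ∑ k ∈ Finset.range 4, muXE R t.1 * dlX (R.L t.1) a (ptE R m t.1 (y t k)) / u := by
      refine Finset.sum_congr rfl fun k _ => ?_
      have h3 : ((_root_.Pool.Agent.ME2E.MAIN.ph c)^[k] t).1 = t.1 := by rw [hit]
      show muXE R ((_root_.Pool.Agent.ME2E.MAIN.ph c)^[k] t).1 * dlX (R.L ((_root_.Pool.Agent.ME2E.MAIN.ph c)^[k] t).1) a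
        (ptE R m ((_root_.Pool.Agent.ME2E.MAIN.ph c)^[k] t).1 (y t k)) / u = _
      rw [h3]
    rw [h2]
    exact h1
  constructor
  · -- the first estimate
    intro j
    have h1 : (∑ q ∈ S j, om (Quotient.out q.2) * muXE R q.1 *
        dlX (R.L q.1) a (ptE R m q.1 (Quotient.out q.2))) / u =
        ∑ q ∈ S j, om (Quotient.out q.2) * E q := by
      rw [Finset.sum_div]
      refine Finset.sum_congr rfl fun q _ => ?_
      rw [hE]
      ring
    rw [h1, hT j]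
    refine _root_.Pool.Agent.ME2E.MAIN.sq_sum V _ _ _ fun t ht => ?_
    have h2 : ∑ k ∈ Finset.range 4,
        om (Quotient.out ((_root_.Pool.Agent.ME2E.MAIN.ph c)^[k] t).2) * E ((_root_.Pool.Agent.ME2E.MAIN.ph c)^[k] t) =
        om (Quotient.out t.2) * ∑ k ∈ Finset.range 4, E ((_root_.Pool.Agent.ME2E.MAIN.ph c)^[k] t) := by
      rw [Finset.mul_sum]
      refine Finset.sum_congr rfl fun k _ => ?_
      have h3 := hom1 t k
      simp only [hy] at h3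
      rw [h3]
    rw [h2]
    exact _root_.Pool.Agent.ME2E.MAIN.sq_mul V _ _ _ (hom2 _ (hcop j t (hTS j ht))) (hEo j t (hTS j ht))
  · -- the second estimate
    intro g hyy
    obtain ⟨w, hw1, hw2, hw3⟩ := hyy
    set io : ι × (OO A B ⧸ idl (A := A) (B := B) m) → ι × OO A B :=
      fun q => (q.1, Quotient.out q.2) with hio
    have hinj : Function.Injective io := by
      rintro ⟨i, q⟩ ⟨i', q'⟩ h
      simp only [hio, Prod.mk.injEq] at h
      obtain ⟨h1, h2⟩ := h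
      have h3 := congrArg (Ideal.Quotient.mk (idl (A := A) (B := B) m)) h2
      rw [hout, hout] at h3
      rw [h1, h3]
    have hsq := hSQR A B V n f a m hSet ι R u e a1 a3 hG H hH J (fun j => (S j).image io) g
      (by
        intro j q hq
        rw [Finset.mem_image] at hq
        obtain ⟨q', hq', rfl⟩ := hq
        exact hcop j q' hq')
      ⟨w, hw1, hw2, by
        rw [hw3]
        refine Finset.prod_congr rfl fun j _ => ?_
        rw [Finset.prod_image fun x _ z _ h => hinj h]⟩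
    have h0 : ∀ j, ∑ q ∈ (S j).image io, emb q.2 * muXE R q.1 *
        dlX (R.L q.1) a (ptE R m q.1 q.2) = ∑ q ∈ S j, emb (Quotient.out q.2) * muXE R q.1 *
        dlX (R.L q.1) a (ptE R m q.1 (Quotient.out q.2)) := by
      intro j
      rw [Finset.sum_image fun x _ z _ h => hinj h]
    simp only [h0] at hsq
    -- the difference
    have hdiff : (∑ j, (g j : ℂ) * ∑ q ∈ S j, om (Quotient.out q.2) * muXE R q.1 *
          dlX (R.L q.1) a (ptE R m q.1 (Quotient.out q.2))) / u =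
        (∑ j, (g j : ℂ) * ∑ q ∈ S j, emb (Quotient.out q.2) * muXE R q.1 *
          dlX (R.L q.1) a (ptE R m q.1 (Quotient.out q.2))) / u +
        ∑ j, (g j : ℂ) * ∑ t ∈ T j, ∑ k ∈ Finset.range 4,
          (om (Quotient.out ((_root_.Pool.Agent.ME2E.MAIN.ph c)^[k] t).2) - emb (Quotient.out ((_root_.Pool.Agent.ME2E.MAIN.ph c)^[k] t).2)) *
            E ((_root_.Pool.Agent.ME2E.MAIN.ph c)^[k] t) := by
      have h1 : ∀ j, ∑ t ∈ T j, ∑ k ∈ Finset.range 4,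
          (om (Quotient.out ((_root_.Pool.Agent.ME2E.MAIN.ph c)^[k] t).2) - emb (Quotient.out ((_root_.Pool.Agent.ME2E.MAIN.ph c)^[k] t).2)) *
            E ((_root_.Pool.Agent.ME2E.MAIN.ph c)^[k] t) = ∑ q ∈ S j, (om (Quotient.out q.2) - emb (Quotient.out q.2)) *
            E q := fun j => (hT j fun q => (om (Quotient.out q.2) - emb (Quotient.out q.2)) *
            E q).symm
      simp only [h1]
      rw [Finset.sum_div, Finset.sum_div, ← Finset.sum_add_distrib]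
      refine Finset.sum_congr rfl fun j _ => ?_
      rw [mul_div_assoc, mul_div_assoc, ← mul_add, Finset.sum_div, Finset.sum_div,
        ← Finset.sum_add_distrib]
      congr 1
      refine Finset.sum_congr rfl fun q _ => ?_
      rw [hE]
      ring
    rw [hdiff]
    refine _root_.Pool.Agent.ME2E.MAIN.sq_add V _ _ _ hsq (_root_.Pool.Agent.ME2E.MAIN.sq_sum V _ _ _ fun j _ => _root_.Pool.Agent.ME2E.MAIN.sq_mul V _ _ _ (_root_.Pool.Agent.ME2E.MAIN.v_int V _)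
      (_root_.Pool.Agent.ME2E.MAIN.sq_sum V _ _ _ fun t ht => ?_))
    have hts := hTS j ht
    have h1 : ∑ k ∈ Finset.range 4,
        (om (Quotient.out ((_root_.Pool.Agent.ME2E.MAIN.ph c)^[k] t).2) - emb (Quotient.out ((_root_.Pool.Agent.ME2E.MAIN.ph c)^[k] t).2)) *
          E ((_root_.Pool.Agent.ME2E.MAIN.ph c)^[k] t) =
        (om (Quotient.out t.2) - emb (Quotient.out t.2)) *
          ∑ k ∈ Finset.range 4, E ((_root_.Pool.Agent.ME2E.MAIN.ph c)^[k] t) +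
        ∑ k ∈ Finset.range 4, -emb (y t k - Quotient.out t.2) * E ((_root_.Pool.Agent.ME2E.MAIN.ph c)^[k] t) := by
      rw [Finset.mul_sum, ← Finset.sum_add_distrib]
      refine Finset.sum_congr rfl fun k _ => ?_
      have h3 := hom1 t k
      have h4 : emb (y t k - Quotient.out t.2) = emb (y t k) - emb (Quotient.out t.2) :=
        Pool.Agent.MUX.emb_sub hC.cq _ _
      rw [h4]
      show (om (y t k) - emb (y t k)) * _ = _
      rw [h3]
      ring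
    rw [h1]
    refine _root_.Pool.Agent.ME2E.MAIN.sq_add V _ _ _ ?_ (_root_.Pool.Agent.ME2E.MAIN.sq_sum V _ _ _ fun k _ => ?_)
    · rw [map_mul, mul_pow, pow_succ (V.valuation (2 : ℂ)) 2]
      exact mul_le_mul' (pow_le_pow_left' (hcong _ (hcop j t hts)) 2) (hEo j t hts)
    · have h5 := hy4 t k
      rw [Ideal.mem_span_singleton] at h5
      obtain ⟨z, hz⟩ := h5
      have h6 : V.valuation (emb (y t k - Quotient.out t.2)) ≤ V.valuation (2 : ℂ) ^ 2 := by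
        rw [hz, Pool.Agent.MUX.emb_mul hC.cq, map_mul]
        have h7 : (emb ((4 : ℕ) : OO A B) : ℂ) = 2 ^ 2 := by
          rw [Pool.Agent.MUX.emb_natCast hC.cq]
          norm_num
        rw [h7, map_pow]
        calc V.valuation (2 : ℂ) ^ 2 * V.valuation (emb z) ≤ V.valuation (2 : ℂ) ^ 2 * 1 :=
              mul_le_mul_right (hC.int z) _
          _ = _ := mul_one _
      have h8 : V.valuation (-emb (y t k - Quotient.out t.2) * E ((_root_.Pool.Agent.ME2E.MAIN.ph c)^[k] t)) ≤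
          V.valuation (2 : ℂ) ^ 2 := by
        rw [map_mul, Valuation.map_neg]
        calc V.valuation (emb (y t k - Quotient.out t.2)) * V.valuation (E ((_root_.Pool.Agent.ME2E.MAIN.ph c)^[k] t)) ≤
            V.valuation (2 : ℂ) ^ 2 * 1 := mul_le_mul' h6 (hE1 j _ (hmemS j k t hts))
          _ = _ := mul_one _
      calc V.valuation (-emb (y t k - Quotient.out t.2) * E ((_root_.Pool.Agent.ME2E.MAIN.ph c)^[k] t)) ^ 2 ≤
          (V.valuation (2 : ℂ) ^ 2) ^ 2 := pow_le_pow_left' h8 2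
        _ = V.valuation (2 : ℂ) ^ 3 * V.valuation (2 : ℂ) := by
          rw [← pow_mul, ← pow_succ]
        _ ≤ V.valuation (2 : ℂ) ^ 3 * 1 := mul_le_mul_right hv2.le _
        _ = _ := mul_one _

end

end Pool.Agent.ME2E


end

section

/-!
# MUX-2N, block E2N: module GLC, the automorphisms `1 + k N del` are trivial on `D`
-/

set_option autoImplicit false

open Polynomial

namespace Pool.Agent.ME2E

open _root_.MU3 _root_.Pool.Agent.MU3A _root_.Pool.Agent.MU3B _root_.Pool.Agent.MUX _root_.Pool.Agent.MUXU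
open _root_.Pool.Agent.RI _root_.Pool.Agent.NS
open _root_.Pool.Agent.ME hiding ActE
open _root_.Pool.Agent.MEE _root_.Pool.Agent.ME2
open _root_.Pool.Agent.MUXE (RingE)
open _root_.Pool.Agent.N2 (GoodT et yt WT IsTei2 OddT PTq)
open _root_.Pool.Agent.N2E (dlg del cc IsoT Sd_LAG Sd_PRD Sd_COE Sd_GRT Sd_TPT Sd_UNT Sd_RAT Sd_THT Sd_DST Sd_NE1 Sd_PRT)

noncomputable section

namespace GLC

lemma idl_le {A B : ℤ} {m n : ℕ} (h : n ∣ m) :
    idl (A := A) (B := B) m ≤ idl (A := A) (B := B) n := by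
  obtain ⟨c, rfl⟩ := h
  rw [Ideal.span_singleton_le_span_singleton]
  exact ⟨(c : OO A B), by push_cast; ring⟩

end GLC

/-- GLC. -/
theorem ty_GLC (h1 : Sy_CON) : Sy_GLC := by
  intro A B V n f a m hE D hD k s hs y hy
  obtain ⟨c1, ⟨-, c2⟩, -⟩ := h1 A B V n f a m hE
  obtain ⟨-, -, -, -, c4, -⟩ := c1 ((k : OO A B) * del)
  obtain ⟨j, hj⟩ := c2 k
  have h4 : lvX 2 f 0 = 4 * f := by
    unfold lvX q0
    norm_num
    ring
  have hm := hE.hm
  refine hD s hs.fix ?_ ?_ y hy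
  · refine hs.triv (idl (lvX 2 f 0)) (GLC.idl_le ?_) (GLC.idl_le ?_) ?_
    · rw [h4, hm]
      exact ⟨2 ^ n * a, by ring⟩
    · rw [h4]
      exact ⟨2 * f, by ring⟩
    · rw [h4]
      exact c4
  · intro z hz
    have h5 := hs.zeta (2 ^ (n + 2)) (pow_ne_zero _ two_ne_zero)
      (GLC.idl_le ⟨f * a, by rw [hm]; ring⟩) z hz
    rw [h5, hj, pow_add, pow_one, pow_mul, hz, one_pow, mul_one]

end

end Pool.Agent.ME2E


end

section

/-!
# MUX-2N, block E2N: module CON (helper47), the elements `c = 1 + N b`, `N = 2^n f a`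
-/

set_option autoImplicit false

open Polynomial

namespace Pool.Agent.N2E

open _root_.MU3 _root_.Pool.Agent.MU3A _root_.Pool.Agent.MU3B _root_.Pool.Agent.MUX _root_.Pool.Agent.MUXU _root_.Pool.Agent.MUXE
open _root_.Pool.Agent.RI _root_.Pool.Agent.NS _root_.Pool.Agent.N2

noncomputable section

namespace CON

variable {A B : ℤ} {V : ValuationSubring ℂ} {n f a m : ℕ}

/-- numbers -/
theorem nums (h : SetE A B V n f a m) :
    m * a = 4 * (2 ^ n * f * a) ∧ (∃ r, 2 ^ n * f * a = 2 * r) ∧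
      (∃ r, 2 ^ n * f * a = f * a * r) ∧ (∃ r, 2 ^ n * f * a = 4 * f * r) ∧
      (∃ r, 2 ^ n * f * a = a * r) ∧
      (∃ r, (2 ^ n * f * a) ^ 2 = 2 ^ (n + 2) * r) ∧ (∃ r, (2 ^ n * f * a) ^ 2 = m * a * r) ∧
      2 * (2 ^ n * f * a) * 2 = m * a ∧ 2 ∣ m := by
  obtain ⟨k, rfl⟩ : ∃ k, n = k + 2 := ⟨n - 2, by have := h.n2; omega⟩
  have h1 := h.hm
  have h5 : (2 : ℕ) ^ (k + 2 + 2) = 16 * 2 ^ k := by ring
  have h7 : (2 : ℕ) ^ (k + 2) = 4 * 2 ^ k := by ring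
  rw [h1, h5, h7]
  refine ⟨by ring, ⟨2 * 2 ^ k * f * a, by ring⟩, ⟨4 * 2 ^ k, by ring⟩, ⟨2 ^ k * a, by ring⟩,
    ⟨4 * 2 ^ k * f, by ring⟩, ⟨2 ^ k * f ^ 2 * a ^ 2, by ring⟩, ⟨2 ^ k * f * a, by ring⟩,
    by ring, ⟨8 * 2 ^ k * f, by ring⟩⟩

theorem mpos (h : SetE A B V n f a m) : m ≠ 0 := by
  have h1 := h.f3
  rw [h.hm]
  positivity

theorem cast_dvd_mem {d e : ℕ} (h : ∃ r, e = d * r) (b : OO A B) :
    ((e : ℕ) : OO A B) * b ∈ idl (A := A) (B := B) d := by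
  obtain ⟨r, rfl⟩ := h
  rw [Ideal.mem_span_singleton]
  exact ⟨(r : OO A B) * b, by push_cast; ring⟩

theorem cc_sub (N : ℕ) (b : OO A B) : cc N b - 1 = (N : OO A B) * b := by
  unfold cc
  ring

theorem coprime_of {N M : ℕ} (h : ∃ r, N ^ 2 = M * r) (b : OO A B) :
    IsCoprime (cc N b) ((M : ℕ) : OO A B) := by
  have h1 : IsCoprime (cc N b) ((N : ℕ) : OO A B) := by
    refine ⟨1, -b, ?_⟩
    unfold cc
    ring
  have h2 : IsCoprime (cc N b) (((N : ℕ) : OO A B) ^ 2) := h1.pow_right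
  obtain ⟨r, hr⟩ := h
  have h3 : ((N : ℕ) : OO A B) ^ 2 = ((M : ℕ) : OO A B) * (r : OO A B) := by
    exact_mod_cast congrArg (fun x : ℕ => (x : OO A B)) hr
  rw [h3] at h2
  exact h2.of_mul_right_left

theorem cc_ne {N : ℕ} (h : ∃ r, N = 2 * r) (b : OO A B) : cc N b ≠ 0 := by
  intro h0
  have h1 := congrArg QuadraticAlgebra.re h0
  have h2 : (cc N b).re = 1 + (N : ℤ) * b.re := by
    unfold cc
    simp only [QuadraticAlgebra.re_add, QuadraticAlgebra.re_one, QuadraticAlgebra.re_mul,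
      QuadraticAlgebra.re_natCast, QuadraticAlgebra.im_natCast]
    ring
  rw [h2, QuadraticAlgebra.re_zero] at h1
  obtain ⟨r, rfl⟩ := h
  have h3 : (2 : ℤ) ∣ 1 := ⟨-(r * b.re), by push_cast at h1; linarith⟩
  norm_num at h3

theorem nI_of (hq : CQ A B) {c : OO A B} (hc : c ≠ 0) {M : ℕ} (h : (M : ℤ) ∣ nm c - 1) :
    ∃ j : ℕ, nI (sp c) = 1 + M * j := by
  obtain ⟨j, hj⟩ := h
  have h1 : 0 ≤ nm c := nm_nonneg hq c
  rw [nI_sp hq hc]
  by_cases hM : M = 0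
  · refine ⟨0, ?_⟩
    subst hM
    simp only [Nat.cast_zero, zero_mul] at hj
    have : nm c = 1 := by linarith
    rw [this]
    simp
  have hM' : (0 : ℤ) < M := by exact_mod_cast Nat.pos_of_ne_zero hM
  have hj0 : 0 ≤ j := by
    by_contra hneg
    push Not at hneg
    have h2 : nm c ≠ 0 := fun h => hc ((nm_eq_zero hq).1 h)
    have : (M : ℤ) * j < 0 := mul_neg_of_pos_of_neg hM' hneg
    omega
  refine ⟨j.natAbs, ?_⟩
  zify
  rw [abs_of_nonneg h1, abs_of_nonneg hj0]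
  linarith

theorem B1 (h : CtxT A B V) : B = 1 := by
  rcases h.cq.hB with hB | hB
  · exfalso
    obtain ⟨k, hk⟩ := h.two
    rw [hB] at hk
    omega
  · exact hB

theorem del_nmem (h : CtxT A B V) : (del : OO A B) ∉ idl (A := A) (B := B) 2 := by
  intro h0
  rw [Ideal.mem_span_singleton] at h0
  obtain ⟨y, hy⟩ := h0
  have h1 := congrArg QuadraticAlgebra.re hy
  have h2 : (del : OO A B).re = -B := rfl
  have hB := B1 h
  rw [h2] at h1
  simp only [QuadraticAlgebra.re_mul, QuadraticAlgebra.re_natCast, QuadraticAlgebra.im_natCast]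
    at h1
  push_cast at h1
  have h3 : -B = 2 * y.re := by linarith
  omega

theorem coprime_mem {x : OO A B} {M : ℕ} (h : CtxT A B V) (hx : IsCoprime x ((M : ℕ) : OO A B))
    (hM : 2 ∣ M) : x ∉ idl (A := A) (B := B) 2 := by
  intro hxP
  obtain ⟨u, v, huv⟩ := hx
  obtain ⟨r, rfl⟩ := hM
  have h1 : ((2 * r : ℕ) : OO A B) ∈ idl (A := A) (B := B) 2 := by
    rw [Ideal.mem_span_singleton]
    exact ⟨(r : OO A B), by push_cast; ring⟩
  have h2 : (1 : OO A B) ∈ idl (A := A) (B := B) 2 := by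
    rw [← huv]
    exact Ideal.add_mem _ (Ideal.mul_mem_left _ _ hxP) (Ideal.mul_mem_left _ _ h1)
  exact h.max.ne_top ((Ideal.eq_top_iff_one _).2 h2)

/-- `a del x` is not divisible by 2 -/
theorem adx (h : CtxT A B V) (ha : ¬ 2 ∣ a) {x : OO A B} (hx : x ∉ idl (A := A) (B := B) 2)
    (y : OO A B) : (a : OO A B) * del * x ≠ 2 * y := by
  intro h0
  have h1 : V.valuation (emb ((a : OO A B) * del * x)) = V.valuation (emb (2 * y)) := by
    rw [h0]
  have h5 : emb (2 : OO A B) = 2 := by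
    have := _root_.Pool.Agent.MUX.emb_natCast h.cq 2
    exact_mod_cast this
  rw [_root_.Pool.Agent.MUX.emb_mul h.cq, _root_.Pool.Agent.MUX.emb_mul h.cq, _root_.Pool.Agent.MUX.emb_natCast h.cq, map_mul, map_mul, h.nat a ha, one_mul,
    h.unit _ (del_nmem h), one_mul, h.unit x hx, _root_.Pool.Agent.MUX.emb_mul h.cq, h5, map_mul] at h1
  have h7 : V.valuation (2 : ℂ) * V.valuation (emb y) ≤ V.valuation (2 : ℂ) :=
    mul_le_of_le_one_right' (h.int y)
  rw [← h1] at h7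
  exact absurd h.v2 (not_lt.2 h7)

end CON

open _root_.Pool.Agent.N2E.CON in
theorem td_CON : Sd_CON := by
  intro A B V n f a m h
  obtain ⟨e1, e2, e3, e4, e5, e6, e7, e8, e9⟩ := nums h
  have hq := h.ctx.cq
  have hdom : IsDomain (OO A B) := isDomain hq
  have hm := mpos h
  have hmN : ∃ r, (2 ^ n * f * a) ^ 2 = m * r := by
    obtain ⟨r, hr⟩ := e7
    exact ⟨a * r, by rw [hr]; ring⟩
  refine ⟨fun b => ⟨?_, ?_, ?_, ?_, ?_, ?_⟩, ⟨?_, ?_⟩, ?_, ?_, ?_, ?_⟩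
  · rw [Ideal.isCoprime_span_singleton_iff]
    exact coprime_of e7 b
  · exact coprime_of hmN b
  · exact cc_ne e2 b
  · rw [cc_sub]
    exact cast_dvd_mem e3 b
  · rw [cc_sub]
    exact cast_dvd_mem e4 b
  · rw [cc_sub]
    exact cast_dvd_mem e5 b
  · exact del_nmem h.ctx
  · intro k
    refine nI_of hq (cc_ne e2 _) (M := 2 ^ (n + 2)) ?_
    obtain ⟨r, hr⟩ := e6
    have hd1 : (del : OO A B).re = -B := rfl
    have hd2 : (del : OO A B).im = 2 := rfl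
    have h1 : nm (cc (2 ^ n * f * a) ((k : OO A B) * del)) - 1 =
        -(B ^ 2 + 4 * A) * (((2 ^ n * f * a : ℕ) : ℤ)) ^ 2 * (k : ℤ) ^ 2 := by
      unfold cc nm
      simp only [QuadraticAlgebra.re_add, QuadraticAlgebra.im_add, QuadraticAlgebra.re_one,
        QuadraticAlgebra.im_one, QuadraticAlgebra.re_mul, QuadraticAlgebra.im_mul,
        QuadraticAlgebra.re_natCast, QuadraticAlgebra.im_natCast, hd1, hd2]
      ring
    rw [h1]
    have h2 : (((2 ^ n * f * a : ℕ) : ℤ)) ^ 2 = (2 ^ (n + 2) : ℕ) * (r : ℤ) := by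
      exact_mod_cast hr
    rw [h2]
    exact ⟨-(B ^ 2 + 4 * A) * r * k ^ 2, by ring⟩
  · intro k l
    have h1 : cc (2 ^ n * f * a) ((k : OO A B) * del) * cc (2 ^ n * f * a) ((l : OO A B) * del) -
        cc (2 ^ n * f * a) (((k + l : ℕ) : OO A B) * del) =
        (((2 ^ n * f * a) ^ 2 : ℕ) : OO A B) * ((k : OO A B) * (l : OO A B) * del * del) := by
      unfold cc
      push_cast
      ring
    rw [h1]
    exact cast_dvd_mem e7 _
  · have h1 : cc (2 ^ n * f * a) (((4 : ℕ) : OO A B) * del) - 1 =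
        ((m * a : ℕ) : OO A B) * del := by
      rw [cc_sub, e1]
      push_cast
      ring
    rw [h1]
    exact cast_dvd_mem ⟨1, by ring⟩ _
  · intro x hx hmem
    have hxP := coprime_mem h.ctx hx e9
    have h1 : cc (2 ^ n * f * a) (((2 : ℕ) : OO A B) * del) * x - x =
        ((2 * (2 ^ n * f * a) : ℕ) : OO A B) * (del * x) := by
      unfold cc
      push_cast
      ring
    rw [h1, Ideal.mem_span_singleton] at hmem
    obtain ⟨y, hy⟩ := hmem
    have h2 : ((m : ℕ) : OO A B) * ((a : OO A B) * del * x) = ((m : ℕ) : OO A B) * (2 * y) := by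
      have h3 : ((2 * (2 ^ n * f * a) * 2 : ℕ) : OO A B) = ((m * a : ℕ) : OO A B) := by rw [e8]
      push_cast at h3 hy
      linear_combination 2 * hy - (del * x) * h3
    exact adx h.ctx h.ao hxP y (mul_left_cancel₀ (natCast_ne_zero' hq hm) h2)
  · intro L om hL
    have ham := hL.mem
    have hmc : (m : ℂ) ≠ 0 := by exact_mod_cast hm
    have hNm : ((2 ^ n * f * a : ℕ) : ℂ) * 4 = m * a := by
      have : ((m * a : ℕ) : ℂ) = ((4 * (2 ^ n * f * a) : ℕ) : ℂ) := by rw [e1]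
      push_cast at this ⊢
      linear_combination -this
    have hom := hL.om_ne
    refine ⟨?_, ?_, ?_, ?_, ?_⟩
    · intro b
      unfold cc
      rw [_root_.Pool.Agent.MUX.emb_add hq, _root_.Pool.Agent.MUX.emb_one hq, _root_.Pool.Agent.MUX.emb_mul hq, _root_.Pool.Agent.MUX.emb_natCast hq]
      field_simp
      linear_combination (emb b) * hNm
    · intro k
      rw [_root_.Pool.Agent.MUX.emb_mul hq, _root_.Pool.Agent.MUX.emb_natCast hq]
      ring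
    · rw [ham]
      refine ⟨(a : OO A B) * del, trivial, ?_⟩
      rw [_root_.Pool.Agent.MUX.emb_mul hq, _root_.Pool.Agent.MUX.emb_natCast hq]
      ring
    · intro h0
      rw [ham] at h0
      obtain ⟨y, -, hy⟩ := h0
      have h1 : om * (a * emb (del : OO A B) * emb (1 : OO A B) - 2 * emb y) = 0 := by
        rw [_root_.Pool.Agent.MUX.emb_one hq]
        linear_combination 2 * hy
      have h2 := (mul_eq_zero.1 h1).resolve_left hom
      have h5 : emb (2 : OO A B) = 2 := by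
        have := _root_.Pool.Agent.MUX.emb_natCast hq 2
        exact_mod_cast this
      have h1n : (1 : OO A B) ∉ idl (A := A) (B := B) 2 := fun h3 =>
        h.ctx.max.ne_top ((Ideal.eq_top_iff_one _).2 h3)
      refine adx h.ctx h.ao h1n y ?_
      apply _root_.Pool.Agent.MUX.emb_inj hq
      rw [_root_.Pool.Agent.MUX.emb_mul hq, _root_.Pool.Agent.MUX.emb_mul hq, _root_.Pool.Agent.MUX.emb_mul hq, _root_.Pool.Agent.MUX.emb_natCast hq, h5]
      linear_combination h2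
    · intro Y hY
      obtain ⟨b', -, hb'⟩ := (ham _).1 hY
      obtain ⟨r, hr⟩ : ∃ r : ℤ, (a : ℤ) ^ 2 = 1 + 4 * r := by
        have h1 : a % 2 = 1 := by
          have := h.ao
          omega
        obtain ⟨s, hs⟩ : ∃ s, a = 2 * s + 1 := ⟨a / 2, by omega⟩
        refine ⟨(s : ℤ) ^ 2 + s, ?_⟩
        rw [hs]
        push_cast
        ring
      refine ⟨(a : OO A B) * b', ?_⟩
      rw [ham]
      refine ⟨((-r : ℤ) : OO A B) * b', trivial, ?_⟩
      rw [_root_.Pool.Agent.MUX.emb_mul hq, _root_.Pool.Agent.MUX.emb_mul hq, _root_.Pool.Agent.MUX.emb_natCast hq, _root_.Pool.Agent.MUX.emb_intCast hq]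
      have h2 : (a : ℂ) ^ 2 = 1 + 4 * (r : ℂ) := by exact_mod_cast congrArg (fun x : ℤ => (x : ℂ)) hr
      push_cast
      linear_combination (1 / 4 : ℂ) * hb' - (emb b' * om / 4) * h2

end

end Pool.Agent.N2E


end
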