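import Mathlib
import Pool.Agent.MVF.C014
import Pool.Agent.MVF.C024
import Pool.Agent.MVF.C042

/-! Parts: MUX.G_XSUB, MUX.G_DIF, MUX.G_NEAR, MUX.VG, MUX.R2_E12, MUX.R2_NRM, MUX.R3_IN3, MUX.R3_TRI, MUX.R2_IN2, MUX.E_GXG -/

section

/-!
# MUX, block VG, modules SING and XSUB (helper65)

A singular point of the reduction makes the discriminant a non-unit; reduction is injective.
-/

set_option autoImplicit false

namespace Pool.Agent.MUXG

open WeierstrassCurve _root_.Pool.Agent.MU3.Val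

theorem tg_SING : S_SING := by
  intro F _ Γ₀ _ v W hW x y hx hy he h1 h2
  have hN : ∀ n : ℕ, v (n : F) ≤ 1 := v_nat v
  have i4 : v (4 : F) ≤ 1 := by have := hN 4; simpa using this
  have i8 : v (8 : F) ≤ 1 := by have := hN 8; simpa using this
  have i27 : v (27 : F) ≤ 1 := by have := hN 27; simpa using this
  have i9 : v (9 : F) ≤ 1 := by have := hN 9; simpa using this
  have i2 := v_two v
  have i3 := v_three v
  have m : ∀ {a b : F}, v a ≤ 1 → v b ≤ 1 → v (a * b) ≤ 1 := fun ha hb => v_mul_le_right ha hb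
  have ml : ∀ {a b : F}, v a ≤ 1 → v b < 1 → v (a * b) < 1 := by
    intro a b ha hb
    rw [map_mul]
    exact lt_of_le_of_lt (mul_le_of_le_one_left' ha) hb
  set A2 : F := W.a₂ + 3 * x with hA2
  set A3 : F := 2 * y + W.a₁ * x + W.a₃ with hA3
  set A4 : F := 3 * x ^ 2 + 2 * W.a₂ * x + W.a₄ - W.a₁ * y with hA4
  have he' := (W.equation_iff x y).1 he
  have key : W.Δ = -(W.a₁ ^ 2 + 4 * A2) ^ 2 * (-(W.a₁ * (A3 * A4)) + A2 * (A3 * A3) - A4 * A4) -
      8 * ((2 * A4 + W.a₁ * A3) * ((2 * A4 + W.a₁ * A3) * (2 * A4 + W.a₁ * A3))) -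
      27 * ((A3 * A3) * (A3 * A3)) +
      9 * ((W.a₁ ^ 2 + 4 * A2) * ((2 * A4 + W.a₁ * A3) * (A3 * A3))) := by
    have h6 : W.a₆ = y ^ 2 + W.a₁ * x * y + W.a₃ * y - x ^ 3 - W.a₂ * x ^ 2 - W.a₄ * x := by
      linear_combination -he'
    rw [WeierstrassCurve.Δ, WeierstrassCurve.b₂, WeierstrassCurve.b₄, WeierstrassCurve.b₆,
      WeierstrassCurve.b₈, h6, hA2, hA3, hA4]
    ring
  have vb2 : v (W.a₁ ^ 2 + 4 * A2) ≤ 1 := by
    refine v_add_le ?_ (m i4 ?_)
    · rw [map_pow]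
      exact pow_le_one' hW.a1 2
    · exact v_add_le hW.a2 (m i3 hx)
  have vA2 : v A2 ≤ 1 := v_add_le hW.a2 (m i3 hx)
  have vb4 : v (2 * A4 + W.a₁ * A3) < 1 := v.map_add_lt (ml i2 h2) (ml hW.a1 h1)
  have v33 : v (A3 * A3) < 1 := ml h1.le h1
  have vb8 : v (-(W.a₁ * (A3 * A4)) + A2 * (A3 * A3) - A4 * A4) < 1 := by
    refine v.map_sub_lt (v.map_add_lt ?_ (ml vA2 v33)) (ml h2.le h2)
    rw [Valuation.map_neg]
    exact ml hW.a1 (ml h1.le h2)
  rw [key]
  refine v.map_add_lt (v.map_sub_lt (v.map_sub_lt ?_ ?_) ?_) ?_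
  · refine ml ?_ vb8
    rw [Valuation.map_neg, map_pow]
    exact pow_le_one' vb2 2
  · exact ml i8 (ml vb4.le (ml vb4.le vb4))
  · exact ml i27 (ml v33.le v33)
  · exact ml i9 (ml vb2 (ml vb4.le v33))

/-- a root of a monic quadratic polynomial with integral coefficients is integral -/
theorem int_of_quad {F : Type} [Field F] {Γ₀ : Type} [LinearOrderedCommGroupWithZero Γ₀]
    {v : Valuation F Γ₀} {l a : F} (ha : v a ≤ 1) (h : v (l ^ 2 + a * l) ≤ 1) : v l ≤ 1 := by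
  by_contra hc
  push Not at hc
  have h1 : v (a * l) ≤ v l := by
    rw [map_mul]
    exact mul_le_of_le_one_left' ha
  have h2 : v l < v (l ^ 2) := by
    rw [map_pow, pow_two]
    exact lt_mul_of_one_lt_right (zero_lt_one.trans hc) hc
  have h3 : v (l ^ 2 + a * l) = v (l ^ 2) := v.map_add_eq_of_lt_left (lt_of_le_of_lt h1 h2)
  rw [h3] at h
  exact absurd (h2.trans_le h) (not_lt.2 hc.le)

/-- the slope of the line through `P`, `Q` is integral if `P + Q` is not near infinity -/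
theorem slope_intG {F : Type} [Field F] [DecidableEq F] {Γ₀ : Type}
    [LinearOrderedCommGroupWithZero Γ₀] {v : Valuation F Γ₀} {W : Affine F} (hW : IntG v W)
    {x₁ y₁ x₂ y₂ : F} (h₁ : W.Nonsingular x₁ y₁)
    (h₂ : W.Nonsingular x₂ y₂) (hx₁ : v x₁ ≤ 1) (hx₂ : v x₂ ≤ 1) (hx : x₁ ≠ x₂)
    (hE : ¬ InE v (Affine.Point.some x₁ y₁ h₁ + Affine.Point.some x₂ y₂ h₂)) :
    v (y₁ - y₂) ≤ v (x₁ - x₂) := by
  rw [Affine.Point.add_of_X_ne hx] at hE
  have hE' : ¬ 1 < v (W.addX x₁ x₂ (W.slope x₁ x₂ y₁ y₂)) := hE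
  rw [Affine.slope_of_X_ne hx] at hE'
  push Not at hE'
  rw [Affine.addX] at hE'
  have hd : x₁ - x₂ ≠ 0 := sub_ne_zero.2 hx
  have hd0 : v (x₁ - x₂) ≠ 0 := (Valuation.ne_zero_iff v).2 hd
  have h3 : v (((y₁ - y₂) / (x₁ - x₂)) ^ 2 + W.a₁ * ((y₁ - y₂) / (x₁ - x₂))) ≤ 1 := by
    have e : ((y₁ - y₂) / (x₁ - x₂)) ^ 2 + W.a₁ * ((y₁ - y₂) / (x₁ - x₂)) =
      (((y₁ - y₂) / (x₁ - x₂)) ^ 2 +
      W.a₁ * ((y₁ - y₂) / (x₁ - x₂)) - W.a₂ - x₁ - x₂) + W.a₂ + x₁ + x₂ := by ring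
    rw [e]
    exact v_add_le (v_add_le (v_add_le hE' hW.a2) hx₁) hx₂
  have h4 : v ((y₁ - y₂) / (x₁ - x₂)) ≤ 1 := int_of_quad hW.a1 h3
  rw [map_div₀] at h4
  exact (div_le_one₀ (zero_lt_iff.2 hd0)).1 h4

theorem tg_XSUB (h1 : S_VAL) (h2 : S_SING) : S_XSUB := by
  intro F _ _ Γ₀ _ v W hW hD x₁ y₁ x₂ y₂ h₁ h₂ hE₁ hE₂ hp hm
  have hx₁ : v x₁ ≤ 1 := not_lt.1 hE₁
  have hx₂ : v x₂ ≤ 1 := not_lt.1 hE₂
  have hy₁ : v y₁ ≤ 1 := (h1 F Γ₀ v W hW x₁ y₁ h₁).1 hx₁
  have hx : x₁ ≠ x₂ := by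
    intro hx
    rcases Affine.Y_eq_of_X_eq h₁.1 h₂.1 hx with hy | hy
    · apply hm
      have : Affine.Point.some x₁ y₁ h₁ = Affine.Point.some x₂ y₂ h₂ := by
        subst hx; subst hy; rfl
      rw [this, sub_self]
      exact inE_zero
    · apply hp
      rw [Affine.Point.add_of_Y_eq hx hy]
      exact inE_zero
  refine le_antisymm (v_sub_le hx₁ hx₂) ?_
  by_contra hc
  push Not at hc
  have s1 := slope_intG hW h₁ h₂ hx₁ hx₂ hx hp
  have s2 : v (y₁ + y₂ + W.a₁ * x₂ + W.a₃) ≤ v (x₁ - x₂) := by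
    rw [sub_eq_add_neg, Affine.Point.neg_some] at hm
    have s := slope_intG hW h₁ ((W.nonsingular_neg x₂ y₂).2 h₂) hx₁ hx₂ hx hm
    rw [Affine.negY] at s
    have e : y₁ - (-y₂ - W.a₁ * x₂ - W.a₃) = y₁ + y₂ + W.a₁ * x₂ + W.a₃ := by ring
    rwa [e] at s
  have hd : x₁ - x₂ ≠ 0 := sub_ne_zero.2 hx
  have hd0 : (0 : Γ₀) < v (x₁ - x₂) := zero_lt_iff.2 ((Valuation.ne_zero_iff v).2 hd)
  have hy : v (2 * y₁ + W.a₁ * x₁ + W.a₃) < 1 := by
    have e : v (2 * y₁ + W.a₁ * x₁ + W.a₃) ≤ v (x₁ - x₂) := by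
      rw [show 2 * y₁ + W.a₁ * x₁ + W.a₃ = (y₁ - y₂) + (y₁ + y₂ + W.a₁ * x₂ + W.a₃) +
        W.a₁ * (x₁ - x₂) by ring]
      exact v_add_le (v_add_le s1 s2) (v_mul_le_right hW.a1 le_rfl)
    exact lt_of_le_of_lt e hc
  have e₁ := (W.equation_iff x₁ y₁).1 h₁.1
  have e₂ := (W.equation_iff x₂ y₂).1 h₂.1
  have hg : v (x₁ ^ 2 + x₁ * x₂ + x₂ ^ 2 + W.a₂ * (x₁ + x₂) + W.a₄ - W.a₁ * y₁) ≤
      v (x₁ - x₂) := by
    have e : (y₁ - y₂) * (y₁ + y₂ + W.a₁ * x₂ + W.a₃) =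
        (x₁ - x₂) * (x₁ ^ 2 + x₁ * x₂ + x₂ ^ 2 + W.a₂ * (x₁ + x₂) + W.a₄ - W.a₁ * y₁) := by
      linear_combination e₁ - e₂
    have h3 : v ((y₁ - y₂) * (y₁ + y₂ + W.a₁ * x₂ + W.a₃)) ≤ v (x₁ - x₂) * v (x₁ - x₂) :=
      v_mul_le s1 s2
    rw [e, map_mul] at h3
    exact le_of_mul_le_mul_left h3 hd0
  have hfin : v W.Δ < 1 := by
    refine h2 F Γ₀ v W hW x₁ y₁ hx₁ hy₁ h₁.1 hy ?_
    rw [show 3 * x₁ ^ 2 + 2 * W.a₂ * x₁ + W.a₄ - W.a₁ * y₁ =
      (x₁ - x₂) * (2 * x₁ + x₂ + W.a₂) +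
      (x₁ ^ 2 + x₁ * x₂ + x₂ ^ 2 + W.a₂ * (x₁ + x₂) + W.a₄ - W.a₁ * y₁) by ring]
    refine lt_of_le_of_lt (v_add_le (r := v (x₁ - x₂)) ?_ hg) hc
    rw [map_mul]
    refine mul_le_of_le_one_right' ?_
    exact v_add_le (v_add_le (v_mul_le_right (v_two v) hx₁) hx₂) hW.a2
  rw [hD] at hfin
  exact lt_irrefl _ hfin

end Pool.Agent.MUXG


end

section

/-!
# MUX, block VG: the invariant differential is integral (helper77)

`F` a field with a valuation `v` and a derivation `D` with `v (D u) ≤ v u`, `W` an integral Weierstrass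
equation with unit discriminant and constant coefficients, `(x, y)` a point, `g = D x / (2 y + a₁ x + a₃)`.
Then `v g ≤ 1`. Also: `2 y + a₁ x + a₃` is a unit unless `2 P` is in the kernel of reduction.
-/

set_option autoImplicit false

namespace Pool.Agent.MUXG

open WeierstrassCurve _root_.Pool.Agent.MU3.Val

/-- `D` is a derivation of the field `F` which does not increase the valuation -/
structure DerV {F : Type} [Field F] {Γ₀ : Type} [LinearOrderedCommGroupWithZero Γ₀]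
    (v : Valuation F Γ₀) (D : F → F) : Prop where
  add : ∀ x y, D (x + y) = D x + D y
  mul : ∀ x y, D (x * y) = D x * y + x * D y
  le : ∀ x, v (D x) ≤ v x

/-- THE INVARIANT DIFFERENTIAL IS INTEGRAL. -/
theorem dif_int {F : Type} [Field F] {Γ₀ : Type} [LinearOrderedCommGroupWithZero Γ₀]
    (v : Valuation F Γ₀) (D : F → F) (hD : DerV v D) (W : Affine F) (hW : IntG v W)
    (hΔ : v W.Δ = 1) (x y g : F) (h : W.Nonsingular x y)
    (hx : D x = (2 * y + W.a₁ * x + W.a₃) * g)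
    (hy : D y = (3 * x ^ 2 + 2 * W.a₂ * x + W.a₄ - W.a₁ * y) * g) : v g ≤ 1 := by
  have hval := tg_VAL F Γ₀ v W hW x y h
  have heq := (W.equation_iff x y).1 h.1
  have d0 : D 0 = 0 := by
    have := hD.add 0 0
    rw [add_zero] at this
    exact (left_eq_add.1 this)
  rcases le_or_gt (v x) 1 with hx1 | hx1
  · -- integral point
    have hy1 := hval.1 hx1
    by_contra hg
    push Not at hg
    have hg0 : v g ≠ 0 := (zero_lt_one.trans hg).ne'
    have k1 : v (2 * y + W.a₁ * x + W.a₃) < 1 := by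
      by_contra hc
      push Not at hc
      have h1 : v (D x) ≤ 1 := (hD.le x).trans hx1
      rw [hx, map_mul] at h1
      exact absurd h1 (not_le.2 (lt_of_lt_of_le hg (le_mul_of_one_le_left' hc)))
    have k2 : v (3 * x ^ 2 + 2 * W.a₂ * x + W.a₄ - W.a₁ * y) < 1 := by
      by_contra hc
      push Not at hc
      have h1 : v (D y) ≤ 1 := (hD.le y).trans hy1
      rw [hy, map_mul] at h1
      exact absurd h1 (not_le.2 (lt_of_lt_of_le hg (le_mul_of_one_le_left' hc)))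
    have := tg_SING F Γ₀ v W hW x y hx1 hy1 h.1 k1 k2
    rw [hΔ] at this
    exact lt_irrefl _ this
  · -- point near infinity
    obtain ⟨hy0, ht1, ht0, hw, hxt⟩ := hval.2 hx1
    set t := -(x / y) with ht
    set w := -(1 / y) with hwd
    have hxe : x = t / w := by
      rw [ht, hwd]; field_simp
    have hyw : y * w = -1 := by rw [hwd]; field_simp
    have hty : t * y = -x := by rw [ht]; field_simp
    -- derivative of `t`
    have dt : D t * y = -D x - t * D y := by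
      have h1 := hD.mul t y
      rw [hty] at h1
      have h2 : D (-x) = -D x := by
        have := hD.add (-x) x
        rw [neg_add_cancel, d0] at this
        linear_combination -this
      rw [h2] at h1
      linear_combination -h1
    -- the formula
    have key : D t = (1 - (W.a₁ * t + W.a₂ * t ^ 2 + 2 * W.a₃ * w + 2 * W.a₄ * t * w +
        3 * W.a₆ * w ^ 2)) * g := by
      have h3 : D t * y ^ 3 = (1 - (W.a₁ * t + W.a₂ * t ^ 2 + 2 * W.a₃ * w + 2 * W.a₄ * t * w +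
        3 * W.a₆ * w ^ 2)) * g * y ^ 3 := by
        have e1 : D t * y ^ 3 = (-D x * y - (t * y) * D y) * y := by
          linear_combination (y ^ 2) * dt
        have e2 : (1 - (W.a₁ * t + W.a₂ * t ^ 2 + 2 * W.a₃ * w + 2 * W.a₄ * t * w +
            3 * W.a₆ * w ^ 2)) * g * y ^ 3 = (y ^ 2 - W.a₁ * (t * y) * y - W.a₂ * (t * y) ^ 2 -
            2 * W.a₃ * (y * w) * y - 2 * W.a₄ * (t * y) * (y * w) - 3 * W.a₆ * (y * w) ^ 2) *
              (y * g) := by
          ring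
        rw [e1, e2, hty, hyw, hx, hy]
        linear_combination (-3 * y * g) * heq
      have hy3 : y ^ 3 ≠ 0 := pow_ne_zero 3 hy0
      exact mul_right_cancel₀ hy3 h3
    have hwlt : v w < 1 := by
      rw [hw]; exact pow_lt_one₀ zero_le ht1 (by norm_num)
    have hN : ∀ {a b : F} {r : Γ₀}, v a ≤ 1 → v b ≤ r → v (a * b) ≤ r :=
      fun ha hb => v_mul_le_right ha hb
    have htw : v w ≤ v t := by
      rw [hw]
      calc v t ^ 3 ≤ v t ^ 1 := pow_le_pow_right_of_le_one' ht1.le (by norm_num)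
        _ = v t := pow_one _
    have ht2 : v (t ^ 2) ≤ v t := by
      rw [map_pow]
      calc v t ^ 2 ≤ v t ^ 1 := pow_le_pow_right_of_le_one' ht1.le (by norm_num)
        _ = v t := pow_one _
    have hw2 : v (w ^ 2) ≤ v t := by
      rw [map_pow]
      calc v w ^ 2 ≤ v w ^ 1 := pow_le_pow_right_of_le_one' hwlt.le (by norm_num)
        _ = v w := pow_one _
        _ ≤ v t := htw
    have hfw : v (W.a₁ * t + W.a₂ * t ^ 2 + 2 * W.a₃ * w + 2 * W.a₄ * t * w +
        3 * W.a₆ * w ^ 2) < 1 := by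
      refine lt_of_le_of_lt ?_ ht1
      refine v_add_le (v_add_le (v_add_le (v_add_le (hN hW.a1 le_rfl) (hN hW.a2 ht2)) ?_) ?_) ?_
      · exact hN (hN (v_two v) hW.a3) htw
      · refine hN (hN (hN (v_two v) hW.a4) ht1.le) htw
      · exact hN (hN (v_three v) hW.a6) hw2
    have hu : v (1 - (W.a₁ * t + W.a₂ * t ^ 2 + 2 * W.a₃ * w + 2 * W.a₄ * t * w +
        3 * W.a₆ * w ^ 2)) = 1 := v.map_one_sub_of_lt hfw
    have h5 : v (D t) = v g := by rw [key, map_mul, hu, one_mul]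
    rw [← h5]
    exact (hD.le t).trans ht1.le

/-- `2 y + a₁ x + a₃` is a unit unless `2 P` is in the kernel of reduction. -/
theorem v_dx_unit {F : Type} [Field F] [DecidableEq F] {Γ₀ : Type}
    [LinearOrderedCommGroupWithZero Γ₀]
    (v : Valuation F Γ₀) (W : Affine F) (hW : IntG v W) (hΔ : v W.Δ = 1) {x y : F}
    (h : W.Nonsingular x y) (hE : ¬ InE v (Affine.Point.some x y h))
    (h2P : ¬ InE v (Affine.Point.some x y h + Affine.Point.some x y h)) :
    v (2 * y + W.a₁ * x + W.a₃) = 1 := by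
  have hx : v x ≤ 1 := not_lt.1 hE
  have hy1 := (tg_VAL F Γ₀ v W hW x y h).1 hx
  have hle : v (2 * y + W.a₁ * x + W.a₃) ≤ 1 :=
    v_add_le (v_add_le (v_mul_le_right (v_two v) hy1) (v_mul_le_right hW.a1 hx)) hW.a3
  refine le_antisymm hle ?_
  by_contra hc
  push Not at hc
  have hyn : y ≠ W.negY x y := by
    intro hy
    apply h2P
    rw [Affine.Point.add_self_of_Y_eq hy]
    exact inE_zero
  have e0 : y - W.negY x y = 2 * y + W.a₁ * x + W.a₃ := by
    rw [Affine.negY]; ring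
  have hne : 2 * y + W.a₁ * x + W.a₃ ≠ 0 := by
    rw [← e0]; exact sub_ne_zero.2 hyn
  rw [Affine.Point.add_self_of_Y_ne hyn] at h2P
  have h2P' : ¬ 1 < v (W.addX x x (W.slope x x y y)) := h2P
  rw [Affine.slope_of_Y_ne rfl hyn, e0] at h2P'
  push Not at h2P'
  rw [Affine.addX] at h2P'
  set l := (3 * x ^ 2 + 2 * W.a₂ * x + W.a₄ - W.a₁ * y) / (2 * y + W.a₁ * x + W.a₃) with hl
  have hl1 : v l ≤ 1 := by
    by_contra hc2
    push Not at hc2
    have h3 : v (l ^ 2 + W.a₁ * l) ≤ 1 := by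
      have e : l ^ 2 + W.a₁ * l = (l ^ 2 + W.a₁ * l - W.a₂ - x - x) + W.a₂ + x + x := by ring
      rw [e]
      exact v_add_le (v_add_le (v_add_le h2P' hW.a2) hx) hx
    have h4 : v (W.a₁ * l) < v (l ^ 2) := by
      rw [map_pow]
      refine lt_of_le_of_lt (v_mul_le_right hW.a1 le_rfl) ?_
      calc v l = v l ^ 1 := (pow_one _).symm
        _ < v l ^ 2 := pow_lt_pow_right₀ hc2 (by norm_num)
    rw [v.map_add_eq_of_lt_left h4, map_pow] at h3
    exact absurd h3 (not_le.2 (one_lt_pow₀ hc2 (by norm_num)))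
  have h5 : 3 * x ^ 2 + 2 * W.a₂ * x + W.a₄ - W.a₁ * y = l * (2 * y + W.a₁ * x + W.a₃) := by
    rw [hl, div_mul_cancel₀ _ hne]
  have h6 : v (3 * x ^ 2 + 2 * W.a₂ * x + W.a₄ - W.a₁ * y) < 1 := by
    rw [h5, map_mul]
    exact lt_of_le_of_lt (mul_le_of_le_one_left' hl1) hc
  have := tg_SING F Γ₀ v W hW x y hx hy1 h.1 hc h6
  rw [hΔ] at this
  exact lt_irrefl _ this

end Pool.Agent.MUXG


end

section

/-!
# MUX, block VG: translation by a point near infinity, general Weierstrass form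

`P = (x₁, y₁)` integral, `Q` in the kernel of reduction, `z = zc Q = -x(Q)/y(Q)`. Then
`x(P + Q) = x(P) + (2 y(P) + a₁ x(P) + a₃) z` modulo `z²` and `y(P + Q) = y(P)` modulo `z`.
-/

set_option autoImplicit false

namespace Pool.Agent.MUXG

open WeierstrassCurve _root_.Pool.Agent.MU3.Val

theorem tg_NEAR (h1 : S_VAL) : S_NEAR := by
  intro F _ _ Γ₀ _ v W hW x₁ y₁ x₂ y₂ h₁ h₂ hP hQ
  have hx₁ : v x₁ ≤ 1 := not_lt.1 hP
  have hx₂ : 1 < v x₂ := hQ
  have hy₁ : v y₁ ≤ 1 := (h1 F Γ₀ v W hW x₁ y₁ h₁).1 hx₁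
  obtain ⟨hy₂, hz, hz0, hw, hxz⟩ := (h1 F Γ₀ v W hW x₂ y₂ h₂).2 hx₂
  have e₂ := (W.equation_iff x₂ y₂).1 h₂.1
  have e₁ := (W.equation_iff x₁ y₁).1 h₁.1
  have hx : x₁ ≠ x₂ := by
    intro h
    rw [h] at hx₁
    exact absurd hx₁ (not_le.2 hx₂)
  have hadd := Affine.Point.add_of_X_ne hx (h₁ := h₁) (h₂ := h₂)
  have hsl := Affine.slope_of_X_ne (W := W) (y₁ := y₁) (y₂ := y₂) hx
  set l := W.slope x₁ x₂ y₁ y₂ with hl
  have h₃ := Affine.nonsingular_add h₁ h₂ (fun h => hx h.1)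
  rw [← hl] at h₃
  set z := -(x₂ / y₂) with hzd
  set w := 1 / y₂ with hwd
  have hw' : v w = v z ^ 3 := by
    have := hw
    rw [Valuation.map_neg] at this
    exact this
  have hzw : z = -(x₂ * w) := by rw [hzd, hwd]; ring
  have hyw : y₂ * w = 1 := by rw [hwd]; field_simp
  set D := x₂ - x₁ with hDd
  have hD : v D = v x₂ := by
    rw [hDd, sub_eq_add_neg]
    apply v.map_add_eq_of_lt_left
    rw [Valuation.map_neg]
    exact lt_of_le_of_lt hx₁ hx₂
  have hx20 : (0 : Γ₀) < v x₂ := zero_lt_one.trans hx₂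
  have hD0 : D ≠ 0 := sub_ne_zero.2 (Ne.symm hx)
  have hlD : l * D = y₂ - y₁ := by
    rw [hsl, hDd]
    have : x₁ - x₂ ≠ 0 := sub_ne_zero.2 hx
    field_simp
    ring
  have hx₃ : W.addX x₁ x₂ l = l ^ 2 + W.a₁ * l - W.a₂ - x₁ - x₂ := by
    rw [Affine.addX]
  have hy₃ : W.addY x₁ x₂ y₁ l = -(l * (W.addX x₁ x₂ l - x₁) + y₁) -
      W.a₁ * W.addX x₁ x₂ l - W.a₃ := by
    rw [Affine.addY, Affine.negAddY, Affine.negY]
  have hzle : v z ≤ 1 := hz.le
  have i2 := v_two v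
  have i3 := v_three v
  have m : ∀ {a b : F} {r : Γ₀}, v a ≤ 1 → v b ≤ r → v (a * b) ≤ r :=
    fun ha hb => v_mul_le_right ha hb
  obtain ⟨B, hB⟩ : ∃ B : F, B = 2 * y₁ + W.a₁ * x₁ + W.a₃ := ⟨_, rfl⟩
  have hB1 : v B ≤ 1 := by
    rw [hB]
    exact v_add_le (v_add_le (m i2 hy₁) (m hW.a1 hx₁)) hW.a3
  -- the numerator
  set N := -(B * ((W.a₂ * x₂ ^ 2 + W.a₄ * x₂ + W.a₆) * w - W.a₁ * x₂ - W.a₃)) +
    B * (z * (x₁ * (2 * x₂) - x₁ ^ 2)) + W.a₄ * x₂ + W.a₆ + y₁ ^ 2 - W.a₁ * (y₁ * x₂) +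
    W.a₁ * (x₁ * y₁) + 3 * (x₁ ^ 2 * x₂) - 2 * x₁ ^ 3 + 2 * (W.a₂ * (x₁ * x₂)) -
    W.a₂ * x₁ ^ 2 with hN
  have key : (W.addX x₁ x₂ l - x₁ - B * z) * D ^ 2 = N := by
    have e3 : (W.addX x₁ x₂ l - x₁ - B * z) * D ^ 2 =
        (l * D) ^ 2 + W.a₁ * (l * D) * D - D ^ 2 * (W.a₂ + 2 * x₁ + x₂ + B * z) := by
      rw [hx₃]; ring
    rw [e3, hlD, hN, hzw, hDd]
    have e4 : y₂ ^ 2 = x₂ ^ 3 + W.a₂ * x₂ ^ 2 + W.a₄ * x₂ + W.a₆ - W.a₁ * x₂ * y₂ - W.a₃ * y₂ := by
      linear_combination e₂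
    linear_combination (1 - B * w) * e₂ + (B * (y₂ + W.a₁ * x₂ + W.a₃)) * hyw + y₂ * hB
  have hX1 : (1 : Γ₀) ≤ v x₂ := hx₂.le
  have p1 : v (x₁ ^ 2) ≤ 1 := by rw [map_pow]; exact pow_le_one' hx₁ 2
  have p2 : v (x₁ ^ 3) ≤ 1 := by rw [map_pow]; exact pow_le_one' hx₁ 3
  have hNv : v N ≤ v x₂ := by
    have t1 : v ((W.a₂ * x₂ ^ 2 + W.a₄ * x₂ + W.a₆) * w) ≤ v x₂ := by
      have b1 : v (W.a₂ * x₂ ^ 2 + W.a₄ * x₂ + W.a₆) ≤ v x₂ ^ 2 := by
        have b2 : v x₂ ≤ v x₂ ^ 2 := by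
          calc v x₂ = v x₂ ^ 1 := (pow_one _).symm
            _ ≤ v x₂ ^ 2 := pow_le_pow_right₀ hX1 (by norm_num)
        refine v_add_le (v_add_le (m hW.a2 (by rw [map_pow])) (m hW.a4 b2)) ?_
        exact hW.a6.trans (one_le_pow₀ hX1)
      rw [map_mul, hw']
      refine (mul_le_mul' b1 le_rfl).trans ?_
      calc v x₂ ^ 2 * v z ^ 3 = v x₂ * (v x₂ * v z ^ 2) * v z := by
            rw [pow_succ (v z) 2, pow_two (v x₂)]
            simp only [mul_assoc]
        _ = v x₂ * v z := by rw [hxz, mul_one]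
        _ ≤ v x₂ := mul_le_of_le_one_right' hzle
    have t2 : v ((W.a₂ * x₂ ^ 2 + W.a₄ * x₂ + W.a₆) * w - W.a₁ * x₂ - W.a₃) ≤ v x₂ :=
      v_sub_le (v_sub_le t1 (m hW.a1 le_rfl)) (hW.a3.trans hX1)
    have t3 : v (z * (x₁ * (2 * x₂) - x₁ ^ 2)) ≤ v x₂ :=
      m hzle (v_sub_le (m hx₁ (m i2 le_rfl)) (p1.trans hX1))
    have t4 : v (y₁ ^ 2) ≤ v x₂ := by
      rw [map_pow]; exact (pow_le_one' hy₁ 2).trans hX1
    rw [hN]
    refine v_sub_le (v_add_le (v_sub_le (v_add_le (v_add_le (v_sub_le (v_add_le (v_add_le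
      (v_add_le (v_add_le ?_ (m hB1 t3)) (m hW.a4 le_rfl)) (hW.a6.trans hX1)) t4)
      (m hW.a1 (m hy₁ le_rfl))) ((m hW.a1 (m hx₁ hy₁)).trans hX1))
      (m i3 (m p1 le_rfl))) ((m i2 p2).trans hX1)) (m i2 (m hW.a2 (m hx₁ le_rfl))))
      ((m hW.a2 p1).trans hX1)
    rw [Valuation.map_neg]
    exact m hB1 t2
  have c1 : v (W.addX x₁ x₂ l - x₁ - B * z) ≤ v z ^ 2 := by
    have h4 : v (W.addX x₁ x₂ l - x₁ - B * z) * v x₂ ^ 2 ≤ v x₂ := by
      rw [← hD, ← map_pow, ← map_mul, key, hD]; exact hNv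
    have h5 : v (W.addX x₁ x₂ l - x₁ - B * z) * v x₂ ≤ v z ^ 2 * v x₂ := by
      have : v (W.addX x₁ x₂ l - x₁ - B * z) * v x₂ * v x₂ ≤ v z ^ 2 * v x₂ * v x₂ := by
        rw [mul_assoc, ← pow_two, mul_comm (v z ^ 2), hxz, one_mul]; exact h4
      exact le_of_mul_le_mul_right this hx20
    exact le_of_mul_le_mul_right h5 hx20
  have hz21 : v z ^ 2 ≤ v z := by
    rw [pow_two]; exact mul_le_of_le_one_right' hzle
  have c2 : v (W.addX x₁ x₂ l - x₁) ≤ v z := by
    have e : W.addX x₁ x₂ l - x₁ = (W.addX x₁ x₂ l - x₁ - B * z) + B * z := by ring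
    rw [e]
    exact v_add_le (c1.trans hz21) (m hB1 le_rfl)
  have c3 : v (l * z + 1) ≤ v z ^ 2 := by
    have e : (l * z + 1) * D = -x₁ - y₁ * z := by
      have e5 : (l * z + 1) * D = (l * D) * z + D := by ring
      rw [e5, hlD, hDd, hzw]
      linear_combination (-x₂) * hyw
    have h4 : v (l * z + 1) * v x₂ ≤ 1 := by
      rw [← hD, ← map_mul, e]
      exact v_sub_le (by rw [Valuation.map_neg]; exact hx₁) (m hy₁ hzle)
    have h5 : v (l * z + 1) * v x₂ ≤ v z ^ 2 * v x₂ := by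
      rw [mul_comm (v z ^ 2), hxz]; exact h4
    exact le_of_mul_le_mul_right h5 hx20
  have c4 : v l * v z = 1 := by
    have hz2lt : v z ^ 2 < 1 := pow_lt_one₀ zero_le hz (by norm_num)
    have e : l * z = -1 + (l * z + 1) := by ring
    rw [← map_mul, e, v.map_add_eq_of_lt_left, Valuation.map_neg, map_one]
    rw [Valuation.map_neg, map_one]
    exact lt_of_le_of_lt c3 hz2lt
  have c5 : v (W.addY x₁ x₂ y₁ l - y₁) ≤ v z := by
    have e : W.addY x₁ x₂ y₁ l - y₁ = -(l * (W.addX x₁ x₂ l - x₁ - B * z)) -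
        B * (l * z + 1) - W.a₁ * (W.addX x₁ x₂ l - x₁) := by
      rw [hy₃]
      linear_combination hB
    rw [e]
    refine v_sub_le (v_sub_le ?_ (m hB1 (c3.trans hz21))) (m hW.a1 c2)
    rw [Valuation.map_neg, map_mul]
    calc v l * v (W.addX x₁ x₂ l - x₁ - B * z) ≤ v l * v z ^ 2 := mul_le_mul' le_rfl c1
      _ = (v l * v z) * v z := by rw [pow_two, mul_assoc]
      _ = v z := by rw [c4, one_mul]
  rw [← hB]
  refine ⟨W.addX x₁ x₂ l, W.addY x₁ x₂ y₁ l, h₃, hadd, ?_, c1, c2, c5⟩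
  show ¬ 1 < v (W.addX x₁ x₂ l)
  rw [not_lt, show W.addX x₁ x₂ l = (W.addX x₁ x₂ l - x₁) + x₁ by ring]
  exact v_add_le (c2.trans hzle) hx₁

end Pool.Agent.MUXG


end

section

/-!
# MUX, block VG: the valuation lemmas for the points `ξ(z)`, `z ∈ ℂ`, of any elliptic curve with good
reduction, general Weierstrass form (helper77)

The version of `VX.lean` (helper59) in all residue characteristics: `GRG` (defined in `StR2.lean`) instead of
`GR`. The kernel of reduction `InK V L X` and the parameter `tX X Y z = -X z / Y z` are those of `VX.lean`.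
Changes: `v_tX_add` is additive to SECOND order; `near` has `DX = 2 Y + a₁ X + a₃`.
-/

set_option autoImplicit false

open WeierstrassCurve

namespace Pool.Agent.MUX2

open _root_.Pool.Agent.MU3.Val _root_.Pool.Agent.MUXV _root_.Pool.Agent.MUXG

noncomputable section

section
variable {V : ValuationSubring ℂ} {W : WeierstrassCurve.Affine ℂ} {L : PeriodPair}
  {X Y : ℂ → ℂ} {ξ : ℂ →+ W.Point}

lemma gInE_iff (G : GRG V W L X Y ξ) (z : ℂ) : InE V.valuation (ξ z) ↔ InK V L X z := by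
  by_cases hz : z ∈ L.lattice
  · rw [G.zero z hz]
    exact ⟨fun _ => Or.inl hz, fun _ => inE_zero⟩
  · obtain ⟨h1, e⟩ := G.some z hz
    rw [e]
    show 1 < V.valuation (X z) ↔ _
    unfold InK
    rw [← not_le, ValuationSubring.valuation_le_one_iff]
    tauto

lemma gZc (G : GRG V W L X Y ξ) {z : ℂ} (hz : z ∉ L.lattice) : zc (ξ z) = tX X Y z := by
  obtain ⟨h1, e⟩ := G.some z hz
  rw [e]; rfl

lemma gInt_Y (G : GRG V W L X Y ξ) {z : ℂ}
    (hz : ¬ InK V L X z) : V.valuation (Y z) ≤ 1 := by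
  obtain ⟨h1, h3⟩ := int_X hz
  obtain ⟨h4, e⟩ := G.some z h1
  exact (tg_VAL ℂ _ V.valuation W G.int _ _ h4).1 h3

lemma gInK_add (G : GRG V W L X Y ξ) {z w : ℂ}
    (hz : InK V L X z) (hw : InK V L X w) : InK V L X (z + w) := by
  classical
  rw [← gInE_iff G] at hz hw ⊢
  rw [map_add]
  exact (tg_ADD tg_VAL tg_NEG ℂ _ V.valuation W G.int _ _ hz hw).1

lemma gInK_neg (G : GRG V W L X Y ξ) {z : ℂ}
    (hz : InK V L X z) : InK V L X (-z) := by
  rw [← gInE_iff G] at hz ⊢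
  rw [map_neg]
  exact inE_neg hz

lemma gInK_sub (G : GRG V W L X Y ξ) {z w : ℂ}
    (hz : InK V L X z) (hw : InK V L X w) : InK V L X (z - w) := by
  rw [sub_eq_add_neg]
  exact gInK_add G hz (gInK_neg G hw)

lemma gInK_nat (G : GRG V W L X Y ξ) {z : ℂ}
    (hz : InK V L X z) (n : ℕ) : InK V L X (n * z) := by
  induction n with
  | zero => simpa using inK_zero
  | succ n ih =>
    have : ((n + 1 : ℕ) : ℂ) * z = n * z + z := by push_cast; ring
    rw [this]
    exact gInK_add G ih hz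

lemma gInK_int (G : GRG V W L X Y ξ) {z : ℂ}
    (hz : InK V L X z) (n : ℤ) : InK V L X (n * z) := by
  obtain ⟨m, rfl | rfl⟩ := n.eq_nat_or_neg
  · simpa using gInK_nat G hz m
  · have : ((-(m : ℤ) : ℤ) : ℂ) * z = -(m * z) := by push_cast; ring
    rw [this]
    exact gInK_neg G (gInK_nat G hz m)

/-- congruence modulo the kernel of reduction -/
lemma gInK_congr (G : GRG V W L X Y ξ) {z w : ℂ}
    (hzw : InK V L X (z - w)) : InK V L X z ↔ InK V L X w := by
  constructor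
  · intro hz
    have := gInK_sub G hz hzw
    rwa [sub_sub_cancel] at this
  · intro hw
    have := gInK_add G hzw hw
    rwa [sub_add_cancel] at this

lemma gv_tX_lt (G : GRG V W L X Y ξ) {z : ℂ}
    (hz : InK V L X z) (hL : z ∉ L.lattice) :
    V.valuation (tX X Y z) < 1 ∧ V.valuation (tX X Y z) ≠ 0 ∧
      V.valuation (X z) * V.valuation (tX X Y z) ^ 2 = 1 := by
  obtain ⟨h1, e⟩ := G.some z hL
  have h3 := (gInE_iff G z).2 hz
  rw [e] at h3
  obtain ⟨-, h4, h5, -, h6⟩ := (tg_VAL ℂ _ V.valuation W G.int _ _ h1).2 h3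
  exact ⟨h4, h5, h6⟩

/-- additivity of the parameter to second order -/
lemma gv_tX_add (G : GRG V W L X Y ξ) {z w : ℂ}
    (hz : InK V L X z) (hw : InK V L X w) (hzL : z ∉ L.lattice) (hwL : w ∉ L.lattice)
    (hzw : z + w ∉ L.lattice) :
    V.valuation (tX X Y (z + w) - tX X Y z - tX X Y w) ≤
      (max (V.valuation (tX X Y z)) (V.valuation (tX X Y w))) ^ 2 := by
  classical
  rw [← gInE_iff G] at hz hw
  have h3 := (tg_ADD tg_VAL tg_NEG ℂ _ V.valuation W G.int _ _ hz hw).2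
  rwa [← map_add, gZc G hzL, gZc G hwL, gZc G hzw] at h3

/-- the parameter of the opposite point -/
lemma gv_tX_neg (G : GRG V W L X Y ξ) {z : ℂ} (hz : InK V L X z) (hzL : z ∉ L.lattice) :
    V.valuation (tX X Y (-z)) = V.valuation (tX X Y z) ∧
    V.valuation (tX X Y (-z) + tX X Y z) ≤ V.valuation (tX X Y z) ^ 2 := by
  rw [← gInE_iff G] at hz
  have h3 := (tg_NEG ℂ _ V.valuation W G.int _ hz).2.2
  have hn : -z ∉ L.lattice := fun h => hzL (by simpa using neg_mem h)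
  rwa [← map_neg, gZc G hzL, gZc G hn] at h3

/-- the coordinate function on the points of the kernel of reduction, with value `0` at `0` -/
lemma gzc_nsmul (G : GRG V W L X Y ξ) {z : ℂ} (hz : InK V L X z) (n : ℕ) :
    V.valuation (zc (ξ (n * z)) - n * zc (ξ z)) ≤ V.valuation (zc (ξ z)) ^ 2 ∧
      V.valuation (zc (ξ (n * z))) ≤ V.valuation (zc (ξ z)) := by
  classical
  have hlt : V.valuation (zc (ξ z)) < 1 :=
    (tg_NEG ℂ _ V.valuation W G.int _ ((gInE_iff G z).2 hz)).1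
  have hsq : V.valuation (zc (ξ z)) ^ 2 ≤ V.valuation (zc (ξ z)) := by
    rw [pow_two]; exact mul_le_of_le_one_right' hlt.le
  induction n with
  | zero =>
    have h0 : ξ ((0 : ℕ) * z) = 0 := by simp
    rw [h0, zc_zero]
    simp
  | succ n ih =>
    obtain ⟨ih1, ih2⟩ := ih
    have e : ((n + 1 : ℕ) : ℂ) * z = n * z + z := by push_cast; ring
    have h3 := (tg_ADD tg_VAL tg_NEG ℂ _ V.valuation W G.int _ _
      ((gInE_iff G _).2 (gInK_nat G hz n)) ((gInE_iff G z).2 hz)).2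
    rw [max_eq_right ih2] at h3
    rw [e, map_add]
    have h4 : V.valuation (zc (ξ (n * z) + ξ z) - ((n + 1 : ℕ) : ℂ) * zc (ξ z)) ≤
        V.valuation (zc (ξ z)) ^ 2 := by
      have e2 : zc (ξ (n * z) + ξ z) - ((n + 1 : ℕ) : ℂ) * zc (ξ z) =
          (zc (ξ (n * z) + ξ z) - zc (ξ (n * z)) - zc (ξ z)) +
            (zc (ξ (n * z)) - n * zc (ξ z)) := by push_cast; ring
      rw [e2]
      exact v_add_le h3 ih1
    refine ⟨h4, ?_⟩
    have e3 : zc (ξ (n * z) + ξ z) = (zc (ξ (n * z) + ξ z) - ((n + 1 : ℕ) : ℂ) * zc (ξ z)) +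
        ((n + 1 : ℕ) : ℂ) * zc (ξ z) := by ring
    rw [e3]
    exact v_add_le (h4.trans hsq) (v_mul_le_right (v_nat _ _) le_rfl)

/-- the parameter of a multiple -/
lemma gv_zc_nat (G : GRG V W L X Y ξ) {z : ℂ}
    (hz : InK V L X z) {n : ℕ} (hn : V.valuation (n : ℂ) = 1) :
    V.valuation (zc (ξ (n * z))) = V.valuation (zc (ξ z)) := by
  have hlt : V.valuation (zc (ξ z)) < 1 :=
    (tg_NEG ℂ _ V.valuation W G.int _ ((gInE_iff G z).2 hz)).1
  obtain ⟨h1, h2⟩ := gzc_nsmul G hz n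
  by_cases h0 : V.valuation (zc (ξ z)) = 0
  · rw [h0] at h2 ⊢
    exact le_antisymm h2 zero_le
  · have h4 : V.valuation (zc (ξ z)) ^ 2 < V.valuation (zc (ξ z)) := by
      rw [pow_two]
      exact mul_lt_of_lt_one_right (zero_lt_iff.2 h0) hlt
    have e : zc (ξ (n * z)) = n * zc (ξ z) + (zc (ξ (n * z)) - n * zc (ξ z)) := by ring
    have h5 : V.valuation (n * zc (ξ z)) = V.valuation (zc (ξ z)) := by rw [map_mul, hn, one_mul]
    rw [e, V.valuation.map_add_eq_of_lt_left, h5]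
    rw [h5]
    exact lt_of_le_of_lt h1 h4

/-- the parameter of a multiple -/
lemma gv_tX_nat (G : GRG V W L X Y ξ) {z : ℂ}
    (hz : InK V L X z) {n : ℕ} (hn : V.valuation (n : ℂ) = 1) (hzL : z ∉ L.lattice)
    (hnL : n * z ∉ L.lattice) :
    V.valuation (tX X Y (n * z)) = V.valuation (tX X Y z) := by
  have h3 := gv_zc_nat G hz hn
  rwa [gZc G hzL, gZc G hnL] at h3

/-- no torsion prime to the residue characteristic in the kernel of reduction -/
lemma gmem_of_nat_mul (G : GRG V W L X Y ξ) {z : ℂ}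
    (hz : InK V L X z) {n : ℕ} (hn : V.valuation (n : ℂ) = 1)
    (hnL : n * z ∈ L.lattice) : z ∈ L.lattice := by
  by_contra hzL
  have h3 := gv_zc_nat G hz hn
  rw [G.zero _ hnL, zc_zero, map_zero, gZc G hzL] at h3
  exact (gv_tX_lt G hz hzL).2.1 h3.symm

/-- the difference of the `x`-coordinates is a unit -/
lemma gv_X_sub (G : GRG V W L X Y ξ) {z w : ℂ}
    (hz : ¬ InK V L X z) (hw : ¬ InK V L X w) (hp : ¬ InK V L X (z + w))
    (hm : ¬ InK V L X (z - w)) : V.valuation (X z - X w) = 1 := by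
  classical
  obtain ⟨h3, e3⟩ := G.some z (int_X hz).1
  obtain ⟨h4, e4⟩ := G.some w (int_X hw).1
  rw [← gInE_iff G] at hz hw hp hm
  rw [map_add] at hp
  rw [map_sub] at hm
  rw [e3] at hz hp hm
  rw [e4] at hw hp hm
  exact tg_XSUB tg_VAL tg_SING ℂ _ V.valuation W G.int G.disc _ _ _ _ h3 h4 hz hw hp hm

/-- `DX = 2Y + a₁X + a₃` is a unit at `z` unless `2 z` is in the kernel of reduction -/
lemma gv_DX (G : GRG V W L X Y ξ) {z : ℂ} (hz : ¬ InK V L X z) (h2 : ¬ InK V L X (2 * z)) :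
    V.valuation (2 * Y z + W.a₁ * X z + W.a₃) = 1 := by
  classical
  obtain ⟨h3, e3⟩ := G.some z (int_X hz).1
  rw [← gInE_iff G] at hz h2
  rw [two_mul, map_add, e3] at h2
  rw [e3] at hz
  exact v_dx_unit V.valuation W G.int G.disc h3 hz h2

/-- addition of a point in the kernel of reduction -/
lemma gnear (G : GRG V W L X Y ξ) {z w : ℂ}
    (hz : ¬ InK V L X z) (hw : InK V L X w) (hwL : w ∉ L.lattice) :
    ¬ InK V L X (z + w) ∧
    V.valuation (X (z + w) - X z - (2 * Y z + W.a₁ * X z + W.a₃) * tX X Y w) ≤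
      V.valuation (tX X Y w) ^ 2 ∧
    V.valuation (X (z + w) - X z) ≤ V.valuation (tX X Y w) ∧
    V.valuation (Y (z + w) - Y z) ≤ V.valuation (tX X Y w) := by
  classical
  have hzw : ¬ InK V L X (z + w) := by
    rw [gInK_congr G (w := z) (by rwa [add_sub_cancel_left])]
    exact hz
  refine ⟨hzw, ?_⟩
  obtain ⟨h3, e3⟩ := G.some z (int_X hz).1
  obtain ⟨h4, e4⟩ := G.some w hwL
  obtain ⟨h5, e5⟩ := G.some (z + w) (int_X hzw).1
  rw [← gInE_iff G] at hz hw
  rw [e3] at hz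
  rw [e4] at hw
  obtain ⟨x₃, y₃, h₃, e, -, i1, i2, i3⟩ :=
    tg_NEAR tg_VAL ℂ _ V.valuation W G.int _ _ _ _ h3 h4 hz hw
  rw [← e3, ← e4, ← map_add, e5] at e
  obtain ⟨rfl, rfl⟩ : X (z + w) = x₃ ∧ Y (z + w) = y₃ := by
    simpa using e
  exact ⟨i1, i2, i3⟩

/-- `x` modulo the maximal ideal depends only on the reduction -/
lemma gnear_lt (G : GRG V W L X Y ξ) {z w : ℂ}
    (hz : ¬ InK V L X z) (hw : InK V L X w) :
    V.valuation (X (z + w) - X z) < 1 ∧ V.valuation (Y (z + w) - Y z) < 1 := by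
  by_cases hwL : w ∈ L.lattice
  · have h3 := G.zero w hwL
    obtain ⟨h4, e4⟩ := G.some z (int_X hz).1
    have hzw : z + w ∉ L.lattice := fun h5 => (int_X hz).1 (by
      have := sub_mem h5 hwL; rwa [add_sub_cancel_right] at this)
    obtain ⟨h5, e5⟩ := G.some (z + w) hzw
    rw [map_add, h3, add_zero, e4] at e5
    obtain ⟨e6, e7⟩ : X z = X (z + w) ∧ Y z = Y (z + w) := by simpa using e5
    rw [← e6, ← e7, sub_self, sub_self, map_zero]
    exact ⟨zero_lt_one, zero_lt_one⟩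
  · obtain ⟨-, -, h3, h4⟩ := gnear G hz hw hwL
    have h5 := (gv_tX_lt G hw hwL).1
    exact ⟨h3.trans_lt h5, h4.trans_lt h5⟩

end

end

end Pool.Agent.MUX2


end

section

/-!
# MUX, block R2, module E12: the kernel of reduction and the ideals (helper42)
-/

set_option autoImplicit false

namespace Pool.Agent.MUX2

open _root_.MU3 _root_.Pool.Agent.MU3A _root_.Pool.Agent.MU3B _root_.Pool.Agent.MUX _root_.Pool.Agent.MUXU _root_.Pool.Agent.MUXV
  WeierstrassCurve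

noncomputable section

namespace E12

/-! ## Algebra of `O` -/

section
variable {A B : ℤ}

lemma absD_pos (h : CQ A B) : 0 < absD A B := by
  have := h.neg
  unfold absD
  omega

lemma wC_sq' (h : CQ A B) : wC A B * wC A B = A + B * wC A B := by
  have h1 : (0 : ℝ) ≤ (absD A B : ℝ) := by exact_mod_cast (absD_pos h).le
  have h2 : ((Real.sqrt (absD A B) : ℝ) : ℂ) ^ 2 = (absD A B : ℂ) := by
    rw [← Complex.ofReal_pow, Real.sq_sqrt h1]
    norm_num
  have h3 : Complex.I ^ 2 = -1 := Complex.I_sq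
  have h4 : (absD A B : ℂ) = -((B : ℂ) ^ 2 + 4 * A) := by simp [absD]
  unfold wC
  linear_combination (Complex.I ^ 2 / 4) * h2 + ((absD A B : ℂ) / 4) * h3 - (1 / 4) * h4

/-- `emb` as a ring homomorphism -/
def eH (h : CQ A B) : OO A B →+* ℂ :=
  (QuadraticAlgebra.lift (R := ℤ) (a := A) (b := B) (A := ℂ)
    ⟨wC A B, by simpa [zsmul_eq_mul] using wC_sq' h⟩).toRingHom

lemma eH_apply (h : CQ A B) (x : OO A B) : eH h x = emb x := by
  simp [eH, emb, QuadraticAlgebra.lift, zsmul_eq_mul]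

lemma emb_mul (h : CQ A B) (x y : OO A B) : emb (x * y) = emb x * emb y := by
  simpa only [eH_apply] using map_mul (eH h) x y

lemma emb_add (h : CQ A B) (x y : OO A B) : emb (x + y) = emb x + emb y := by
  simpa only [eH_apply] using map_add (eH h) x y

lemma emb_one (h : CQ A B) : emb (1 : OO A B) = 1 := by
  simpa only [eH_apply] using map_one (eH h)

lemma emb_zero (h : CQ A B) : emb (0 : OO A B) = 0 := by
  simpa only [eH_apply] using map_zero (eH h)

lemma emb_nat (h : CQ A B) (n : ℕ) : emb (n : OO A B) = n := by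
  simpa only [eH_apply] using map_natCast (eH h) n

lemma mul_star' (x : OO A B) : x * star x = ((nm x : ℤ) : OO A B) := by
  ext
  · simp only [nm, QuadraticAlgebra.re_mul, QuadraticAlgebra.re_star, QuadraticAlgebra.im_star,
      QuadraticAlgebra.re_intCast, Int.cast_id]
    ring
  · simp only [QuadraticAlgebra.im_mul, QuadraticAlgebra.re_star, QuadraticAlgebra.im_star,
      QuadraticAlgebra.im_intCast]
    ring

lemma four_nm (x : OO A B) :
    4 * nm x = (2 * x.re + B * x.im) ^ 2 + absD A B * x.im ^ 2 := by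
  unfold nm absD
  ring

lemma nm_pos (h : CQ A B) {x : OO A B} (hx : x ≠ 0) : 0 < nm x := by
  have h1 := four_nm x
  have h2 := absD_pos h
  by_contra h0
  have h3 : 0 ≤ absD A B * x.im ^ 2 := mul_nonneg h2.le (sq_nonneg _)
  have h4 := sq_nonneg (2 * x.re + B * x.im)
  have h5 : absD A B * x.im ^ 2 = 0 := by omega
  have h6 : x.im = 0 := by
    rcases mul_eq_zero.1 h5 with h | h
    · omega
    · simpa using h
  have h7 : (2 * x.re + B * x.im) ^ 2 = 0 := by omega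
  have h8 : 2 * x.re + B * x.im = 0 := by simpa using h7
  rw [h6, mul_zero, add_zero] at h8
  have h9 : x.re = 0 := by omega
  exact hx (QuadraticAlgebra.ext h9 h6)

/-- `2` splits only for `B = 1`, `A` even -/
lemma B_one (h : CQ A B) (h8 : (8 : ℤ) ∣ B ^ 2 + 4 * A - 1) : B = 1 ∧ (2 : ℤ) ∣ A := by
  rcases h.hB with rfl | rfl <;> omega

lemma one_nmem {P : Ideal (OO A B)} (hP : P.IsPrime) : (1 : OO A B) ∉ P :=
  fun h => hP.ne_top ((Ideal.eq_top_iff_one P).2 h)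

lemma two_mul_mem {P : Ideal (OO A B)} (h2 : (2 : OO A B) ∈ P) {a : ℤ} (ha : (2 : ℤ) ∣ a) :
    (a : OO A B) ∈ P := by
  obtain ⟨c, rfl⟩ := ha
  push_cast
  exact P.mul_mem_right _ h2

lemma int_mem_iff {P : Ideal (OO A B)} (hP : P.IsPrime) (h2 : (2 : OO A B) ∈ P) (a : ℤ) :
    (a : OO A B) ∈ P ↔ (2 : ℤ) ∣ a := by
  refine ⟨fun h => ?_, two_mul_mem h2⟩
  by_contra h0
  have h1 : (2 : ℤ) ∣ a - 1 := by omega
  have h3 := P.sub_mem h (two_mul_mem h2 h1)
  push_cast at h3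
  exact one_nmem hP (by simpa using h3)

/-- the two primes of norm two -/
lemma primes2 (h : CQ A B) (h8 : (8 : ℤ) ∣ B ^ 2 + 4 * A - 1) {P : Ideal (OO A B)}
    (hP : IsPN 2 P) :
    (∀ x : OO A B, x ∈ P ↔ (2 : ℤ) ∣ x.re) ∨ (∀ x : OO A B, x ∈ P ↔ (2 : ℤ) ∣ x.re + x.im) := by
  obtain ⟨hB, hA⟩ := B_one h h8
  subst hB
  have h2 : (2 : OO A 1) ∈ P := by simpa using hP.mem
  have hw : (⟨0, 1⟩ : OO A 1) * ⟨-1, 1⟩ ∈ P := by
    have : (⟨0, 1⟩ : OO A 1) * ⟨-1, 1⟩ = ((A : ℤ) : OO A 1) := by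
      ext
      · simp
      · simp
    rw [this]
    exact two_mul_mem h2 hA
  rcases hP.prime.mem_or_mem hw with h0 | h0
  · refine Or.inl fun x => ?_
    have hx : x = ((x.re : ℤ) : OO A 1) + ((x.im : ℤ) : OO A 1) * ⟨0, 1⟩ := by
      ext
      · simp
      · simp
    rw [← int_mem_iff hP.prime h2]
    conv_lhs => rw [hx]
    exact Ideal.add_mem_iff_left _ (P.mul_mem_left _ h0)
  · refine Or.inr fun x => ?_
    have hx : x = ((x.re + x.im : ℤ) : OO A 1) + ((x.im : ℤ) : OO A 1) * ⟨-1, 1⟩ := by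
      ext
      · simp
      · simp
    rw [← int_mem_iff hP.prime h2]
    conv_lhs => rw [hx]
    exact Ideal.add_mem_iff_left _ (P.mul_mem_left _ h0)

lemma mem_span2 {x : OO A B} (h1 : (2 : ℤ) ∣ x.re) (h2 : (2 : ℤ) ∣ x.im) :
    x ∈ Ideal.span {(2 : OO A B)} := by
  obtain ⟨a, ha⟩ := h1
  obtain ⟨b, hb⟩ := h2
  rw [Ideal.mem_span_singleton]
  refine ⟨⟨a, b⟩, ?_⟩
  have h3 : (2 : OO A B) = ((2 : ℤ) : OO A B) := by norm_num
  ext
  · rw [h3]; simp only [QuadraticAlgebra.re_mul, QuadraticAlgebra.re_intCast,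
      QuadraticAlgebra.im_intCast, Int.cast_id]; rw [ha]; ring
  · rw [h3]; simp only [QuadraticAlgebra.im_mul, QuadraticAlgebra.re_intCast,
      QuadraticAlgebra.im_intCast, Int.cast_id]; rw [hb]; ring

lemma mul_span2 (h : CQ A B) (h8 : (8 : ℤ) ∣ B ^ 2 + 4 * A - 1) {x y : OO A B}
    (hx : (2 : ℤ) ∣ x.re) (hy : (2 : ℤ) ∣ y.re + y.im) : x * y ∈ Ideal.span {(2 : OO A B)} := by
  obtain ⟨hB, hA⟩ := B_one h h8
  subst hB
  obtain ⟨a, ha⟩ := hA
  obtain ⟨b, hb⟩ := hx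
  obtain ⟨c, hc⟩ := hy
  refine mem_span2 ⟨b * y.re + a * x.im * y.im, ?_⟩ ⟨b * y.im + x.im * c, ?_⟩
  · simp only [QuadraticAlgebra.re_mul]
    rw [hb]
    linear_combination (x.im * y.im) * ha
  · simp only [QuadraticAlgebra.im_mul]
    rw [hb]
    linear_combination x.im * hc

/-- the product of the two primes above `2` -/
lemma pq_two (h : CQ A B) (h8 : (8 : ℤ) ∣ B ^ 2 + 4 * A - 1) {P Q : Ideal (OO A B)}
    (hP : IsPN 2 P) (hQ : IsPN 2 Q) (hPQ : P ≠ Q) : P * Q ≤ Ideal.span {(2 : OO A B)} := by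
  rcases primes2 h h8 hP with h1 | h1 <;> rcases primes2 h h8 hQ with h2 | h2
  · exact absurd (Ideal.ext fun x => (h1 x).trans (h2 x).symm) hPQ
  · exact Ideal.mul_le.2 fun x hx y hy => mul_span2 h h8 ((h1 x).1 hx) ((h2 y).1 hy)
  · refine Ideal.mul_le.2 fun x hx y hy => ?_
    rw [mul_comm]
    exact mul_span2 h h8 ((h2 y).1 hy) ((h1 x).1 hx)
  · exact absurd (Ideal.ext fun x => (h1 x).trans (h2 x).symm) hPQ

/-! ## Lattices -/

lemma cm (h : CQ A B) {b : Ideal (OO A B)} {L : PeriodPair} {om : ℂ} (hL : IsNL b L om)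
    {z : ℂ} (hz : z ∈ L.lattice) (x : OO A B) : emb x * z ∈ L.lattice := by
  obtain ⟨y, hy, rfl⟩ := (hL.mem z).1 hz
  refine (hL.mem _).2 ⟨x * y, b.mul_mem_left _ hy, ?_⟩
  rw [emb_mul h]
  ring

/-- a point killed by a power of `Q` has a multiple killed by `Q` -/
lemma tor_desc (h : CQ A B) {L : PeriodPair} (Q : Ideal (OO A B)) : ∀ (i : ℕ) (z : ℂ), Tor (Q ^ i) L z → z ∉ L.lattice →
      ∃ c : OO A B, emb c * z ∉ L.lattice ∧ Tor Q L (emb c * z) := by
  intro i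
  induction i with
  | zero =>
    intro z hz hzL
    exfalso
    apply hzL
    have h1 := hz 1 (by simp)
    rwa [emb_one h, one_mul] at h1
  | succ i ih =>
    intro z hz hzL
    by_cases h1 : Tor Q L z
    · exact ⟨1, by rwa [emb_one h, one_mul], by rwa [emb_one h, one_mul]⟩
    · unfold Tor at h1
      push Not at h1
      obtain ⟨q, hq, hqz⟩ := h1
      obtain ⟨c, hc1, hc2⟩ := ih (emb q * z) (fun x hx => by
        have h2 := hz (x * q) (by rw [pow_succ]; exact Ideal.mul_mem_mul hx hq)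
        rwa [emb_mul h, mul_assoc] at h2) hqz
      refine ⟨c * q, ?_, ?_⟩
      · rwa [emb_mul h, mul_assoc]
      · rwa [emb_mul h, mul_assoc]

/-- the second part -/
lemma part2 (h3 : S2_GR2) (h4 : S2_IT2) (hc : CQ A B) (h8 : (8 : ℤ) ∣ B ^ 2 + 4 * A - 1)
    {P Q : Ideal (OO A B)} {V : ValuationSubring ℂ} (hP : IsPN 2 P) (hQ : IsPN 2 Q) (hPQ : P ≠ Q)
    (hV : Above2 P V) {b : Ideal (OO A B)} {L : PeriodPair} {om : ℂ} (hL : IsNL b L om)
    (g1 : V.valuation (kap L) = 1) (g2 : V.valuation (1 + 1728 * kap L) = 1)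
    (g4 : ∀ w, w ∉ L.lattice → Tor Q L w → V.valuation (par L w) = 1 ∧
      V.valuation (xn L w) = V.valuation 2)
    {m : Ideal (OO A B)} {u : ℂ} (hm : m ≠ ⊥) (hco : IsCoprime m P) (hT : Tor m L u)
    (hK : InEn V L u) : u ∈ L.lattice := by
  obtain ⟨ξ, G⟩ := h3 V L hL.nrm g1 g2
  obtain ⟨x, hx, hx0⟩ := Submodule.exists_mem_ne_zero_of_ne_bot hm
  have hN := nm_pos hc hx0
  obtain ⟨i, n, hn, hNn⟩ := Nat.exists_eq_two_pow_mul_odd (n := (nm x).toNat) (by omega)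
  have hNm : ((2 : OO A B) ^ i * (n : OO A B)) ∈ m := by
    have e1 : (2 : OO A B) ^ i * (n : OO A B) = x * star x := by
      rw [mul_star']
      have e2 : nm x = (((2 ^ i * n : ℕ)) : ℤ) := by rw [← hNn]; omega
      rw [e2]
      push_cast
      rfl
    rw [e1]
    exact m.mul_mem_right _ hx
  have hnq : ∀ q ∈ Q ^ i, (n : OO A B) * q ∈ m := by
    intro q hq
    obtain ⟨a, ha, c, hc', hac⟩ := Ideal.isCoprime_iff_exists.1 (hco.pow_right (n := i))
    have e1 : (n : OO A B) * q = (n : OO A B) * q * a + (n : OO A B) * (c * q) := by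
      linear_combination (-((n : OO A B) * q)) * hac
    rw [e1]
    refine m.add_mem (m.mul_mem_left _ ha) ?_
    have e2 : c * q ∈ Ideal.span {(2 : OO A B) ^ i} := by
      have h5 : (P * Q) ^ i ≤ (Ideal.span {(2 : OO A B)}) ^ i :=
        Ideal.pow_right_mono (pq_two hc h8 hP hQ hPQ) i
      rw [Ideal.span_singleton_pow, mul_pow] at h5
      exact h5 (Ideal.mul_mem_mul hc' hq)
    obtain ⟨d, hd⟩ := Ideal.mem_span_singleton.1 e2
    rw [hd, ← mul_assoc, mul_comm (n : OO A B)]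
    exact m.mul_mem_right _ hNm
  have hTn : Tor (Q ^ i) L ((n : ℂ) * u) := by
    intro q hq
    have h5 := hT _ (hnq q hq)
    rw [emb_mul hc, emb_nat hc] at h5
    have e3 : emb q * ((n : ℂ) * u) = (n : ℂ) * emb q * u := by ring
    rw [e3]
    exact h5
  have hvn : V.valuation (n : ℂ) = 1 := by
    have h5 : ((n : ℤ) : OO A B) ∉ P := by
      rw [int_mem_iff hP.prime (by simpa using hP.mem)]
      obtain ⟨k, hk⟩ := hn
      omega
    have h6 := hV.one _ h5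
    rw [Int.cast_natCast, emb_nat hc] at h6
    exact h6
  by_contra hu
  have hK' : InK V L (xn L) u := hK
  have hnu : (n : ℂ) * u ∉ L.lattice := fun h5 => hu (gmem_of_nat_mul G hK' hvn h5)
  obtain ⟨c, hc1, hc2⟩ := tor_desc hc Q i _ hTn hnu
  have hcne : emb c ≠ 0 := by
    intro h5
    rw [h5, zero_mul] at hc1
    exact hc1 L.lattice.zero_mem
  have h6 := (h4 V L L (1 / 12) (1 / 12) (emb c) (y2 L) (y2 L) ⟨_, ξ, G⟩ ⟨_, ξ, G⟩ hcne
    (fun w hw => cm hc hL hw c)).2 ((n : ℂ) * u) (gInK_nat G hK' n)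
  rcases h6 with h6 | h6
  · exact hc1 h6
  · apply h6
    rw [← ValuationSubring.valuation_le_one_iff]
    have h7 := (g4 _ hc1 hc2).2
    have h8' : V.valuation (xn L (emb c * ((n : ℂ) * u))) ≤ 1 := by
      rw [h7]
      exact hV.two.le
    exact h8'

end

/-! ## Valuations -/

section
variable {Γ : Type*} [LinearOrderedCommGroupWithZero Γ] (v : Valuation ℂ Γ)

lemma vadd {x y : ℂ} (h : v x < v y) : v (x + y) = v y := Valuation.map_add_eq_of_lt_right v h

/-- the main lemma -/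
lemma key {X x m2 b0 a1 a0 : ℂ} {θ : Γ} (h0 : θ ≠ 0) (h1 : θ < 1) (hm : v m2 = θ ^ 2)
    (hb : v b0 = 1) (ha1 : v a1 < 1) (ha0 : v a0 < 1)
    (hE : X * (m2 * x + b0) = x ^ 2 + a1 * x + a0) (hX : 1 < v X) (hX2 : v X * θ ^ 2 ≤ 1) :
    v x ^ 2 = v X := by
  have hθ : θ ^ 2 < 1 := pow_lt_one₀ zero_le h1 two_ne_zero
  have hθ0 : θ ^ 2 ≠ 0 := pow_ne_zero 2 h0
  have hE' := congrArg v hE
  rw [map_mul] at hE'
  rcases le_or_gt (v x) 1 with ha | ha
  · exfalso
    have e1 : v (m2 * x + b0) = 1 := by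
      rw [vadd v, hb]
      rw [map_mul, hm, hb]
      exact lt_of_le_of_lt (mul_le_of_le_one_right zero_le ha) hθ
    rw [e1, mul_one] at hE'
    have e2 : v (x ^ 2 + a1 * x + a0) ≤ 1 := by
      refine v.map_add_le (v.map_add_le ?_ ?_) ha0.le
      · rw [map_pow]
        exact pow_le_one₀ zero_le ha
      · rw [map_mul]
        exact mul_le_one' ha1.le ha
    rw [hE'] at hX
    exact absurd e2 (not_le.2 hX)
  · have hx0 : 0 < v x := lt_trans zero_lt_one ha
    have ha2 : v x < v x ^ 2 := by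
      rw [pow_two]
      exact lt_mul_of_one_lt_left hx0 ha
    have e1 : v (x ^ 2 + a1 * x + a0) = v x ^ 2 := by
      have e2 : x ^ 2 + a1 * x + a0 = (a1 * x + a0) + x ^ 2 := by ring
      rw [e2, vadd v, map_pow]
      rw [map_pow]
      refine v.map_add_lt ?_ ?_
      · rw [map_mul]
        exact lt_trans (mul_lt_of_lt_one_left hx0 ha1) ha2
      · exact lt_trans (lt_trans ha0 ha) ha2
    rw [e1] at hE'
    rcases lt_trichotomy (θ ^ 2 * v x) 1 with h | h | h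
    · have e3 : v (m2 * x + b0) = 1 := by
        rw [vadd v, hb]
        rw [map_mul, hm, hb]
        exact h
      rw [e3, mul_one] at hE'
      exact hE'.symm
    · exfalso
      have e3 : v (m2 * x + b0) ≤ 1 := by
        refine v.map_add_le ?_ hb.le
        rw [map_mul, hm, h]
      have e4 : v x ^ 2 ≤ v X := by
        rw [← hE']
        exact mul_le_of_le_one_right zero_le e3
      have e5 : v X ≤ v x := by
        rw [← h, mul_comm] at hX2
        exact le_of_mul_le_mul_left hX2 (zero_lt_iff.2 hθ0)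
      exact absurd (lt_of_lt_of_le ha2 e4) (not_lt.2 e5)
    · exfalso
      have e3 : v (m2 * x + b0) = θ ^ 2 * v x := by
        rw [add_comm, vadd v, map_mul, hm]
        rw [map_mul, hm, hb]
        exact h
      rw [e3, ← mul_assoc] at hE'
      have e4 : v X * θ ^ 2 = v x := by
        have : v X * θ ^ 2 * v x = v x * v x := by rw [hE', pow_two]
        exact mul_right_cancel₀ hx0.ne' this
      rw [e4] at hX2
      exact absurd ha (not_lt.2 hX2)

/-- the numbers of `(NRM)` -/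
lemma nums (h2 : v 2 < 1) {s : ℂ} (hs : v s = v 2 ^ 12) :
    v (s + 16) = v 2 ^ 4 ∧ v (s - 8) = v 2 ^ 3 ∧ v (s - 512) = v 2 ^ 9 ∧ v (s + 256) = v 2 ^ 8 ∧
      v (s + 64) = v 2 ^ 6 := by
  have h0 : (0 : Γ) < v 2 := zero_lt_iff.2 (by simp)
  have hp : ∀ {k : ℕ}, k < 12 → v 2 ^ 12 < v 2 ^ k := fun hk =>
    pow_lt_pow_right_of_lt_one₀ h0 h2 hk
  have e16 : v 16 = v 2 ^ 4 := by rw [← map_pow]; norm_num
  have e8 : v (-8) = v 2 ^ 3 := by rw [Valuation.map_neg, ← map_pow]; norm_num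
  have e512 : v (-512) = v 2 ^ 9 := by rw [Valuation.map_neg, ← map_pow]; norm_num
  have e256 : v 256 = v 2 ^ 8 := by rw [← map_pow]; norm_num
  have e64 : v 64 = v 2 ^ 6 := by rw [← map_pow]; norm_num
  refine ⟨?_, ?_, ?_, ?_, ?_⟩
  · rw [vadd v, e16]; rw [hs, e16]; exact hp (by norm_num)
  · rw [sub_eq_add_neg, vadd v, e8]; rw [hs, e8]; exact hp (by norm_num)
  · rw [sub_eq_add_neg, vadd v, e512]; rw [hs, e512]; exact hp (by norm_num)
  · rw [vadd v, e256]; rw [hs, e256]; exact hp (by norm_num)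
  · rw [vadd v, e64]; rw [hs, e64]; exact hp (by norm_num)

lemma nums2 (h2 : v 2 < 1) {s : ℂ} (hs : v s = v 2 ^ 12) (q1 : s - 8 ≠ 0) (q2 : s + 256 ≠ 0)
    (q3 : s + 64 ≠ 0) {m2 e t c : ℂ}
    (hm2 : m2 = (s + 16) * (s - 512) / ((s - 8) * (s + 256))) (he : e = 2 / (s - 8))
    (ht : t = (s + 16) ^ 2 / ((s - 8) ^ 2 * (s + 64))) (hc : c = (1 - m2) / 12) :
    v m2 = v 2 ^ 2 ∧ v (-(m2 * e)) = 1 ∧ v (c - e) < 1 ∧ v (t - c * e) < 1 := by
  obtain ⟨n1, n2, n3, n4, n5⟩ := nums v h2 hs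
  have h0 : v 2 ≠ 0 := by simp
  have h0' : (0 : Γ) < v 2 := zero_lt_iff.2 h0
  have k1 : v m2 = v 2 ^ 2 := by
    rw [hm2, map_div₀, map_mul, map_mul, n1, n2, n3, n4, ← pow_add, ← pow_add, div_eq_iff
      (pow_ne_zero _ h0), ← pow_add]
  have k2 : v e * v 2 ^ 2 = 1 := by
    rw [he, map_div₀, n2, div_mul_eq_mul_div, div_eq_one_iff_eq (pow_ne_zero _ h0), pow_succ' _ 2]
  have k3 : c - e = 60 * s / ((s - 8) * (s + 256)) := by
    rw [hc, hm2, he]
    field_simp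
    ring
  have k4 : t - c * e = s * (s ^ 2 + 164 * s + (-512)) / ((s - 8) ^ 2 * (s + 64) * (s + 256)) := by
    rw [hc, hm2, he, ht]
    field_simp
    ring
  have hn : ∀ n : ℕ, v (n : ℂ) ≤ 1 := fun n => Pool.Agent.MU3.Val.v_nat v n
  refine ⟨k1, ?_, ?_, ?_⟩
  · rw [Valuation.map_neg, map_mul, k1, mul_comm, k2]
  · rw [k3, map_div₀, map_mul, map_mul, n2, n4, hs, ← pow_add]
    rw [div_lt_one₀ (pow_pos h0' _)]
    refine lt_of_le_of_lt (mul_le_of_le_one_left zero_le (by exact_mod_cast hn 60)) ?_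
    exact pow_lt_pow_right_of_lt_one₀ h0' h2 (by norm_num)
  · rw [k4, map_div₀, map_mul, map_mul, map_mul, map_pow, n2, n4, n5, hs, ← pow_mul, ← pow_add,
      ← pow_add]
    rw [div_lt_one₀ (pow_pos h0' _)]
    have e1 : v (s ^ 2 + 164 * s + (-512)) ≤ v 2 ^ 9 := by
      refine v.map_add_le (v.map_add_le ?_ ?_) ?_
      · rw [map_pow, hs, ← pow_mul]
        exact pow_le_pow_of_le_one zero_le h2.le (by norm_num)
      · rw [map_mul, hs]
        refine (mul_le_of_le_one_left zero_le (by exact_mod_cast hn 164)).trans ?_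
        exact pow_le_pow_of_le_one zero_le h2.le (by norm_num)
      · rw [Valuation.map_neg, ← map_pow]
        norm_num
    refine lt_of_le_of_lt (mul_le_mul_right e1 _) ?_
    rw [← pow_add]
    exact pow_lt_pow_right_of_lt_one₀ h0' h2 (by norm_num)

end

/-! ## The first part -/

section
variable {A B : ℤ}

lemma tor_lat (h : CQ A B) {b : Ideal (OO A B)} {L : PeriodPair} {om : ℂ} (hL : IsNL b L om)
    {z : ℂ} (hz : z ∈ L.lattice) (m : Ideal (OO A B)) : Tor m L z := fun x _ => cm h hL hz x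

lemma tor_le {m m' : Ideal (OO A B)} (h : m ≤ m') {L : PeriodPair} {z : ℂ} (hz : Tor m' L z) :
    Tor m L z := fun x hx => hz x (h hx)

lemma tor_mul (h : CQ A B) {m m' : Ideal (OO A B)} {L : PeriodPair} {z : ℂ}
    (hz : ∀ x ∈ m, ∀ y ∈ m', emb (x * y) * z ∈ L.lattice) : Tor (m * m') L z := by
  intro x hx
  refine Submodule.mul_induction_on hx hz fun x y hx hy => ?_
  rw [emb_add h, add_mul]
  exact L.lattice.add_mem hx hy

/-- the induction step -/
lemma step {L M : PeriodPair} {mu w : ℂ} (h1 : S2_NRM) (hT : Two L M mu w)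
    (hL : L.g₂ = -18 * L.g₃) (hM : M.g₂ = -18 * M.g₃) (V : ValuationSubring ℂ)
    (h2 : V.valuation 2 < 1) (hs : V.valuation (par L w) = V.valuation 2 ^ 12) {u : ℂ}
    (hu : mu * u ∉ M.lattice) (hX : 1 < V.valuation (xn M (mu * u)))
    (hX2 : V.valuation (xn M (mu * u)) * V.valuation 2 ^ 2 ≤ 1) :
    V.valuation (xn L u) ^ 2 = V.valuation (xn M (mu * u)) := by
  obtain ⟨q0, q1, q2, q3, q4, q5, q6, he, -, -, hm2, hx⟩ := h1 L M mu w hT hL hM
  obtain ⟨hne, hE⟩ := hx u hu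
  obtain ⟨k1, k2, k3, k4⟩ := nums2 V.valuation h2 hs q1 q4 q2 hm2 he rfl rfl
  refine key V.valuation (by simp) h2 k1 k2 k3 k4 ?_ hX hX2
  have e1 : mu ^ 2 * xn M (mu * u) * (xn L u - xn L w) = xn L u * (xn L u - xn L w) +
      (par L w + 16) ^ 2 / ((par L w - 8) ^ 2 * (par L w + 64)) +
        (1 - mu ^ 2) / 12 * (xn L u - xn L w) := by
    rw [hE, add_mul, add_mul, div_mul_cancel₀ _ hne]
  linear_combination e1

/-- the first part -/
lemma part1 (h1 : S2_NRM) (h2 : S2_GD2) (h5 : S2_CH2) (hc : CaseP 2 A B)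
    (h8 : (8 : ℤ) ∣ B ^ 2 + 4 * A - 1) (hF : LatFacts A B)
    {P Q : Ideal (OO A B)} {V : ValuationSubring ℂ} (hP : IsPN 2 P) (hQ : IsPN 2 Q) (hPQ : P ≠ Q)
    (hV : Above2 P V) : ∀ (j : ℕ) (b : Ideal (OO A B)) (L : PeriodPair) (om u : ℂ), IsNL b L om →
      Tor (P ^ (j + 1)) L u → ¬ Tor (P ^ j) L u →
      V.valuation (xn L u) ^ (2 ^ j) * V.valuation 2 ^ 2 = 1 := by
  have h0 : V.valuation 2 ≠ 0 := by simp
  have hθ : V.valuation (2 : ℂ) ^ 2 < 1 := pow_lt_one₀ zero_le hV.two two_ne_zero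
  intro j
  induction j with
  | zero =>
    intro b L om u hL hT hT'
    have g := (h2 A B hc h8 hF P Q V hP hQ hPQ hV b L om hL).2.2.1 u
      (fun hu => hT' (tor_lat hc.toCQ hL hu _)) (by simpa using hT)
    simpa using g.2
  | succ j ih =>
    intro b L om u hL hT hT'
    obtain ⟨-, -, N, mu, w, -, -, hN0, hNL, hIQ, hTwo, hTor, -, -, -, -⟩ :=
      h5 A B hc h8 hF P hP b L om hL
    obtain ⟨b1, om1, hN1⟩ := hNL 1
    have t0 := hTwo 0
    have i0 := hIQ 0
    have r0 := hTor 0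
    rw [hN0] at t0 i0 r0
    have hs := ((h2 A B hc h8 hF P Q V hP hQ hPQ hV b L om hL).2.2.1 (w 0) t0.w_ne r0).1
    have hT1 : Tor (P ^ (j + 1)) (N 1) (mu 0 * u) := by
      intro x hx
      have e1 : emb x * (mu 0 * u) = mu 0 * (emb x * u) := by ring
      rw [e1, i0.2]
      intro y hy
      rw [← mul_assoc, ← emb_mul hc.toCQ]
      refine hT _ ?_
      rw [pow_succ']
      exact Ideal.mul_mem_mul hy hx
    have hT1' : ¬ Tor (P ^ j) (N 1) (mu 0 * u) := by
      intro hh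
      apply hT'
      rw [pow_succ']
      refine tor_mul hc.toCQ fun x hx y hy => ?_
      have e1 := hh y hy
      have e2 : emb y * (mu 0 * u) = mu 0 * (emb y * u) := by ring
      rw [e2, i0.2] at e1
      have e3 := e1 x hx
      rwa [← mul_assoc, ← emb_mul hc.toCQ] at e3
    have hu1 : mu 0 * u ∉ (N 1).lattice := by
      intro hh
      rw [i0.2] at hh
      exact hT' (tor_le (Ideal.pow_le_self (Nat.succ_ne_zero j)) hh)
    have g := ih b1 (N 1) om1 (mu 0 * u) hN1 hT1 hT1'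
    have hX : 1 < V.valuation (xn (N 1) (mu 0 * u)) := by
      by_contra hh
      rw [not_lt] at hh
      have e1 := mul_le_of_le_one_left (a := V.valuation (xn (N 1) (mu 0 * u)) ^ 2 ^ j)
        (b := V.valuation 2 ^ 2) zero_le (pow_le_one₀ zero_le hh)
      rw [g] at e1
      exact absurd hθ (not_lt.2 e1)
    have hX2 : V.valuation (xn (N 1) (mu 0 * u)) * V.valuation 2 ^ 2 ≤ 1 := by
      rw [← g]
      refine mul_le_mul_left ?_ _
      exact le_self_pow₀ hX.le (by positivity)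
    have hk := step h1 t0 hL.nrm hN1.nrm V hV.two hs hu1 hX hX2
    rw [pow_succ', pow_mul, hk]
    exact g

end

end E12

/-- the module E12 -/
theorem t2_E12 (h1 : S2_NRM) (h2 : S2_GD2) (h3 : S2_GR2) (h4 : S2_IT2) (h5 : S2_CH2) :
    S2_E12 := by
  intro A B hc h8 hF P Q V hP hQ hPQ hV b L om hL
  obtain ⟨g1, g2, -, g4, -, -⟩ := h2 A B hc h8 hF P Q V hP hQ hPQ hV b L om hL
  exact ⟨fun j u => E12.part1 h1 h2 h5 hc h8 hF hP hQ hPQ hV j b L om u hL,
    fun m u hm hco hT hK => E12.part2 h3 h4 hc.toCQ h8 hP hQ hPQ hV hL g1 g2 g4 hm hco hT hK⟩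

end

end Pool.Agent.MUX2


end

section

/-!
# MUX, block R2, module NRM (helper83): normalised lattices and points of order two
-/

set_option autoImplicit false

namespace Pool.Agent.MUX2

open _root_.MU3 _root_.Pool.Agent.MU3A _root_.Pool.Agent.MU3B _root_.Pool.Agent.MUX _root_.Pool.Agent.MUXU WeierstrassCurve

noncomputable section

/-- `κ ≠ 0`, `g₂ = (1 + 1728 κ)/12`, `g₂ ≠ 0` for a normalised lattice -/
theorem nrm_kap (L : PeriodPair) (h : L.g₂ = -18 * L.g₃) :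
    kap L ≠ 0 ∧ L.g₂ = (1 + 1728 * kap L) / 12 ∧ L.g₃ = -(1 + 1728 * kap L) / 216 ∧
      L.g₂ ≠ 0 ∧ L.g₃ ≠ 0 := by
  have hd := (b_DSC L).1
  have hg : L.g₂ = (1 + 1728 * kap L) / 12 := by
    unfold kap
    ring
  have hg3 : L.g₃ = -(1 + 1728 * kap L) / 216 := by
    have : L.g₃ = -L.g₂ / 18 := by
      rw [h]
      ring
    rw [this, hg]
    ring
  have h3 : L.g₃ ≠ 0 := by
    intro h0
    apply hd
    rw [h, h0]
    ring
  have h2 : L.g₂ ≠ 0 := by
    rw [h]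
    exact mul_ne_zero (by norm_num) h3
  refine ⟨?_, hg, hg3, h2, h3⟩
  intro h0
  apply hd
  rw [hg, hg3, h0]
  norm_num

theorem t2_PAR : S2_PAR := by
  intro L w hw h2w hn
  obtain ⟨hk, hg2, hg3, -, -⟩ := nrm_kap L hn
  have hz : L.derivWeierstrassP w = 0 := (b_ZER L w hw).2 h2w
  have hsq := L.derivWeierstrassP_sq w hw
  rw [hz] at hsq
  have hcub : xn L w ^ 3 + xn L w ^ 2 / 4 - 36 * kap L * xn L w - kap L = 0 := by
    have he : L.weierstrassP w = xn L w + 1 / 12 := by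
      unfold xn
      ring
    rw [he, hg2, hg3] at hsq
    linear_combination (-1 / 4) * hsq
  have hx : xn L w ≠ 0 := by
    intro h0
    rw [h0] at hcub
    apply hk
    linear_combination -hcub
  have hs8 : par L w - 8 = 2 / xn L w := by
    unfold par
    ring
  have hs8' : par L w - 8 ≠ 0 := by
    rw [hs8]
    exact div_ne_zero two_ne_zero hx
  have hxs : xn L w = 2 / (par L w - 8) := by
    rw [hs8]
    field_simp
  have h36 : 36 * xn L w + 1 ≠ 0 := by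
    intro h0
    have h1 : xn L w = -1 / 36 := by linear_combination (1 / 36) * h0
    rw [h1] at hcub
    have : (8 : ℂ) / 36 ^ 3 * 1 = 0 := by linear_combination hcub
    norm_num at this
  have hs64 : par L w + 64 ≠ 0 := by
    intro h0
    apply h36
    rw [hxs]
    have : par L w = -64 := by linear_combination h0
    rw [this]
    norm_num
  have hkap : kap L = par L w / ((par L w - 8) ^ 2 * (par L w + 64)) := by
    rw [eq_div_iff (mul_ne_zero (pow_ne_zero 2 hs8') hs64)]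
    rw [hxs] at hcub
    field_simp at hcub
    linear_combination (-1 / 4 : ℂ) * hcub
  refine ⟨?_, hs8', hs64, hk, hxs, hkap⟩
  intro h0
  apply hk
  rw [hkap, h0, zero_div]

theorem t2_NRM (h1 : S2_VEL) : S2_NRM := by
  intro L M mu w hT hL hM
  obtain ⟨hs, hs8, hs64, hk, hx, hkap⟩ := t2_PAR L w hT.w_ne hT.w2 hL
  obtain ⟨-, hg2, -, hg2n, -⟩ := nrm_kap L hL
  obtain ⟨-, -, -, hM2, hM3⟩ := nrm_kap M hM
  obtain ⟨-, hv2, hv3, hv⟩ := h1 L M mu w hT
  have hmu := hT.mu_ne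
  set s : ℂ := par L w with hsdef
  have he : L.weierstrassP w = (s + 16) / (12 * (s - 8)) := by
    have h0 : L.weierstrassP w = xn L w + 1 / 12 := by
      unfold xn
      ring
    rw [h0, hx]
    field_simp
    ring
  have hg : L.g₂ = (s + 16) ^ 3 / (12 * (s - 8) ^ 2 * (s + 64)) := by
    rw [hg2, hkap]
    field_simp
    ring
  have hs16 : s + 16 ≠ 0 := by
    intro h0
    apply hg2n
    rw [hg, h0]
    simp
  have hA : mu ^ 4 * M.g₂ = (s + 16) ^ 2 * (s + 256) / (12 * (s - 8) ^ 2 * (s + 64)) := by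
    rw [hv2, he, hg]
    field_simp
    ring
  have hB : mu ^ 6 * M.g₃ =
      -((s + 16) ^ 3 * (s - 512)) / (216 * (s - 8) ^ 3 * (s + 64)) := by
    rw [hv3, he, hg]
    field_simp
    ring
  have hs256 : s + 256 ≠ 0 := by
    intro h0
    apply mul_ne_zero (pow_ne_zero 4 hmu) hM2
    rw [hA, h0]
    simp
  have hs512 : s - 512 ≠ 0 := by
    intro h0
    apply mul_ne_zero (pow_ne_zero 6 hmu) hM3
    rw [hB, h0]
    simp
  have hmu2 : mu ^ 2 = (s + 16) * (s - 512) / ((s - 8) * (s + 256)) := by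
    have h5 : mu ^ 2 * (mu ^ 4 * M.g₂) = -18 * (mu ^ 6 * M.g₃) := by
      rw [hM]
      ring
    rw [hA, hB] at h5
    have h6 : (s + 16) ^ 2 * (s + 256) / (12 * (s - 8) ^ 2 * (s + 64)) ≠ 0 :=
      div_ne_zero (mul_ne_zero (pow_ne_zero 2 hs16) hs256)
        (mul_ne_zero (mul_ne_zero (by norm_num) (pow_ne_zero 2 hs8)) hs64)
    apply mul_right_cancel₀ h6
    rw [h5]
    field_simp
    ring
  have hM2' : M.g₂ = (s + 256) ^ 3 / (12 * (s - 512) ^ 2 * (s + 64)) := by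
    have h7 : (mu ^ 2) ^ 2 * M.g₂ = mu ^ 4 * M.g₂ := by ring
    rw [hA, hmu2] at h7
    have h8 : ((s + 16) * (s - 512) / ((s - 8) * (s + 256))) ^ 2 ≠ 0 :=
      pow_ne_zero 2 (div_ne_zero (mul_ne_zero hs16 hs512) (mul_ne_zero hs8 hs256))
    apply mul_left_cancel₀ h8
    rw [h7]
    field_simp
  refine ⟨hs, hs8, hs64, hs16, hs256, hs512, hk, hx, hkap, ?_, hmu2, fun z hz => ?_⟩
  · unfold kap
    rw [hM2']
    field_simp
    ring
  · obtain ⟨hne, -, hp, -⟩ := hv z hz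
    have h9 : xn L z - xn L w = L.weierstrassP z - L.weierstrassP w := by
      unfold xn
      ring
    have ht : 3 * L.weierstrassP w ^ 2 - L.g₂ / 4 = (s + 16) ^ 2 / ((s - 8) ^ 2 * (s + 64)) := by
      rw [he, hg]
      field_simp
      ring
    refine ⟨by rw [h9]; exact hne, ?_⟩
    rw [h9, ← ht]
    have h10 : mu ^ 2 * xn M (mu * z) = mu ^ 2 * M.weierstrassP (mu * z) - mu ^ 2 / 12 := by
      unfold xn
      ring
    rw [h10, hp]
    unfold xn
    ring

end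

end Pool.Agent.MUX2


end

section

/-!
# MUX, block R3, module IN3: different lattices have incongruent kappa modulo V   (helper18)
-/

set_option autoImplicit false

namespace Pool.Agent.MUX3

open _root_.MU3 _root_.Pool.Agent.MU3A _root_.Pool.Agent.MU3B _root_.Pool.Agent.MUX _root_.Pool.Agent.MUXU _root_.Pool.Agent.MUX2
open WeierstrassCurve

noncomputable section

/-- `1/κ = J(s) - 1728` -/
theorem in3_inv (k s : ℂ) (s0 : s ≠ 0) (sq : q3 s ≠ 0)
    (hk : k = s / q3 s ^ 2) : (s + 27) * (s + 3) ^ 3 / s = 1 / k + 1728 := by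
  rw [hk]
  have e : (s + 27) * (s + 3) ^ 3 = q3 s ^ 2 + 1728 * s := by
    unfold q3
    ring
  rw [e]
  field_simp

theorem t3_IN3 (h1 : S3_CH3) (h2 : S3_GD3) (h3 : S3_CIN) (h4 : Su_DET) (h5 : S3_PAR) :
    S3_IN3 := by
  intro A B hc h8 hL P Q V hP hQ hPQ hV b b' L L' om om' hn hn' hlt
  have key : ∀ (b : Ideal (OO A B)) (L : PeriodPair) (om : ℂ), IsNL b L om →
      ∃ (h : ℕ) (s : ℕ → ℂ), 0 < h ∧ Rec3 s ∧ (∀ i, s (i + h) = s i) ∧
        (∀ i, V.valuation (s i) = 1) ∧ kap L ≠ 0 ∧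
        kap L = s 0 / q3 (s 0) ^ 2 ∧
        (s 0 + 27) * (s 0 + 3) ^ 3 / s 0 = 1 / kap L + 1728 := by
    intro b L om hn
    obtain ⟨h, y, N, mu, u, hpos, -, hN0, hNL, -, hThree, hTor, -, hRec, hper, -⟩ :=
      h1 A B hc h8 hL Q hQ b L om hn
    refine ⟨h, fun i => par3 (N i) (u i), hpos, hRec, hper, ?_, ?_⟩
    · intro i
      obtain ⟨b₁, om₁, hb₁⟩ := hNL i
      exact ((h2 A B hc h8 hL P Q V hP hQ hPQ hV b₁ (N i) om₁ hb₁).2.2.2.1 (u i)
        (hThree i).u_ne (hTor i)).1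
    · have hw := hThree 0
      rw [hN0] at hw
      obtain ⟨s0, sq, -, -, k0, -, hk⟩ := h5 L (u 0) hw.u_ne hw.u3 hn.nrm
      refine ⟨k0, ?_, ?_⟩
      · show kap L = par3 (N 0) (u 0) / q3 (par3 (N 0) (u 0)) ^ 2
        rw [hN0]
        exact hk
      · show (par3 (N 0) (u 0) + 27) * (par3 (N 0) (u 0) + 3) ^ 3 / par3 (N 0) (u 0) =
          1 / kap L + 1728
        rw [hN0]
        exact in3_inv _ _ s0 sq hk
  obtain ⟨h, s, hpos, hRec, hper, hu, hk0, hk, hJ⟩ := key b L om hn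
  obtain ⟨h', s', hpos', hRec', hper', hu', hk0', hk', hJ'⟩ := key b' L' om' hn'
  have hvk := (h2 A B hc h8 hL P Q V hP hQ hPQ hV b L om hn).1
  have hvk' := (h2 A B hc h8 hL P Q V hP hQ hPQ hV b' L' om' hn').1
  have hval : V.valuation ((s 0 + 27) * (s 0 + 3) ^ 3 / s 0 -
      (s' 0 + 27) * (s' 0 + 3) ^ 3 / s' 0) < 1 := by
    rw [hJ, hJ']
    have e : 1 / kap L + 1728 - (1 / kap L' + 1728) =
        -(kap L - kap L') / (kap L * kap L') := by
      field_simp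
      ring
    rw [e, map_div₀, Valuation.map_neg, map_mul, hvk, hvk', mul_one, div_one]
    exact hlt
  have hs : s 0 = s' 0 :=
    h3 V s s' h h' hV.three hRec hRec' hpos hpos' hper hper' hu hu' hval
  have hkk : kap L = kap L' := by rw [hk, hk', hs]
  obtain ⟨-, a2, a3, -, -⟩ := nrm_kap L hn.nrm
  obtain ⟨-, b2, b3, -, -⟩ := nrm_kap L' hn'.nrm
  exact h4 L L' (by rw [a2, b2, hkk]) (by rw [a3, b3, hkk])

end

end Pool.Agent.MUX3


end

section

/-!
# MUX, block R3, module TRI: points of order three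
-/

set_option autoImplicit false

namespace Pool.Agent.MUX3

open _root_.MU3 _root_.Pool.Agent.MU3A _root_.Pool.Agent.MU3B _root_.Pool.Agent.MUX _root_.Pool.Agent.MUXU _root_.Pool.Agent.MUX2
open WeierstrassCurve

noncomputable section

theorem t3_TRI : S3_TRI := by
  intro L u hu h3
  have h2 : 2 * u ∉ L.lattice := by
    intro h
    apply hu
    have := sub_mem h3 h
    have e : 3 * u - 2 * u = u := by ring
    rwa [e] at this
  have hd : L.derivWeierstrassP u ≠ 0 := fun h => h2 ((b_ZER L u hu).1 h)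
  refine ⟨hd, ?_⟩
  have hP : L.weierstrassP (2 * u) = L.weierstrassP u := by
    have h := L.weierstrassP_add_coe (-u) ⟨3 * u, h3⟩
    have e : -u + ((⟨3 * u, h3⟩ : L.lattice) : ℂ) = 2 * u := by
      show -u + 3 * u = 2 * u
      ring
    rw [e, L.weierstrassP_neg] at h
    exact h
  have hD := (b_DUP L u h2).1
  rw [hP] at hD
  have hsq := L.derivWeierstrassP_sq u hu
  rw [div_pow, eq_div_iff (pow_ne_zero 2 (mul_ne_zero two_ne_zero hd))] at hD
  linear_combination hD - 12 * L.weierstrassP u * hsq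

end

end Pool.Agent.MUX3


end

section

/-!
# MUX, block R2, module IN2: different lattices have incongruent kappa modulo V   (helper50)
-/

set_option autoImplicit false

namespace Pool.Agent.MUX2

open _root_.MU3 _root_.Pool.Agent.MU3A _root_.Pool.Agent.MU3B _root_.Pool.Agent.MUX _root_.Pool.Agent.MUXU WeierstrassCurve

noncomputable section

/-- `1/κ = J(s) - 1728` -/
theorem in2_inv (k s : ℂ) (s0 : s ≠ 0) (s8 : s - 8 ≠ 0) (s64 : s + 64 ≠ 0)
    (hk : k = s / ((s - 8) ^ 2 * (s + 64))) : (s + 16) ^ 3 / s = 1 / k + 1728 := by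
  rw [hk]
  field_simp
  ring

theorem t2_IN2 (h1 : S2_CH2) (h2 : S2_GD2) (h3 : S2_CIN) (h4 : Su_DET) : S2_IN2 := by
  intro A B hc h8 hL P Q V hP hQ hPQ hV b b' L L' om om' hn hn' hlt
  have key : ∀ (b : Ideal (OO A B)) (L : PeriodPair) (om : ℂ), IsNL b L om →
      ∃ (h : ℕ) (s : ℕ → ℂ), 0 < h ∧ Rec s ∧ (∀ i, s (i + h) = s i) ∧
        (∀ i, V.valuation (s i) = 1) ∧ kap L ≠ 0 ∧
        kap L = s 0 / ((s 0 - 8) ^ 2 * (s 0 + 64)) ∧
        (s 0 + 16) ^ 3 / s 0 = 1 / kap L + 1728 := by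
    intro b L om hn
    obtain ⟨h, y, N, mu, w, hpos, -, hN0, hNL, -, hTwo, hTor, -, hRec, hper, -⟩ :=
      h1 A B hc h8 hL Q hQ b L om hn
    refine ⟨h, fun i => par (N i) (w i), hpos, hRec, hper, ?_, ?_⟩
    · intro i
      obtain ⟨b₁, om₁, hb₁⟩ := hNL i
      exact ((h2 A B hc h8 hL P Q V hP hQ hPQ hV b₁ (N i) om₁ hb₁).2.2.2.1 (w i)
        (hTwo i).w_ne (hTor i)).1
    · have hw := hTwo 0
      rw [hN0] at hw
      obtain ⟨s0, s8, s64, k0, -, hk⟩ := t2_PAR L (w 0) hw.w_ne hw.w2 hn.nrm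
      refine ⟨k0, ?_, ?_⟩
      · show kap L = par (N 0) (w 0) / ((par (N 0) (w 0) - 8) ^ 2 * (par (N 0) (w 0) + 64))
        rw [hN0]
        exact hk
      · show (par (N 0) (w 0) + 16) ^ 3 / par (N 0) (w 0) = 1 / kap L + 1728
        rw [hN0]
        exact in2_inv _ _ s0 s8 s64 hk
  obtain ⟨h, s, hpos, hRec, hper, hu, hk0, hk, hJ⟩ := key b L om hn
  obtain ⟨h', s', hpos', hRec', hper', hu', hk0', hk', hJ'⟩ := key b' L' om' hn'
  have hvk := (h2 A B hc h8 hL P Q V hP hQ hPQ hV b L om hn).1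
  have hvk' := (h2 A B hc h8 hL P Q V hP hQ hPQ hV b' L' om' hn').1
  have hval : V.valuation ((s 0 + 16) ^ 3 / s 0 - (s' 0 + 16) ^ 3 / s' 0) < 1 := by
    rw [hJ, hJ']
    have e : 1 / kap L + 1728 - (1 / kap L' + 1728) =
        -(kap L - kap L') / (kap L * kap L') := by
      field_simp
      ring
    rw [e, map_div₀, Valuation.map_neg, map_mul, hvk, hvk', mul_one, div_one]
    exact hlt
  have hs : s 0 = s' 0 :=
    h3 V s s' h h' hV.two hRec hRec' hpos hpos' hper hper' hu hu' hval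
  have hkk : kap L = kap L' := by rw [hk, hk', hs]
  obtain ⟨-, a2, a3, -, -⟩ := nrm_kap L hn.nrm
  obtain ⟨-, b2, b3, -, -⟩ := nrm_kap L' hn'.nrm
  exact h4 L L' (by rw [a2, b2, hkk]) (by rw [a3, b3, hkk])

end

end Pool.Agent.MUX2


end

section

/-!
# MUX, block E: `GX` from `GRG` (helper66)
-/

set_option autoImplicit false

namespace Pool.Agent.MUXE

open WeierstrassCurve
open _root_.MU3 _root_.Pool.Agent.MU3A _root_.Pool.Agent.MU3B _root_.Pool.Agent.MUX _root_.Pool.Agent.MUXU _root_.Pool.Agent.RI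
open _root_.Pool.Agent.MUX2 _root_.Pool.Agent.MUXV _root_.Pool.Agent.MU3.Val

noncomputable section

lemma gxg_t (L : PeriodPair) (z : ℂ) : tE L z = tX (xn L) (y2 L) z := by
  unfold tE tX y2 yy
  congr 2
  ring

lemma gxg_D (L : PeriodPair) (z : ℂ) :
    L.derivWeierstrassP z = 2 * y2 L z + (1 : ℂ) * xn L z + 0 := by
  unfold y2 yy
  ring

/-- good reduction in the form `GX` -/
theorem gx_of_grg (V : ValuationSubring ℂ) (L : PeriodPair) (ξ : ℂ →+ (W2 (kap L)).Point)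
    (G : GRG V (W2 (kap L)) L (xn L) (y2 L) ξ) : GX V L := by
  have hI : ∀ z, InEn V L z ↔ InK V L (xn L) z := fun z => Iff.rfl
  refine ⟨?_, ?_, ?_, ?_, ?_, ?_, ?_, ?_, ?_, ?_, ?_⟩
  · intro z w hz hw
    exact gInK_add G hz hw
  · intro z hz
    exact gInK_neg G hz
  · intro z hz hL
    rw [gxg_t]
    exact gv_tX_lt G hz hL
  · intro z w hz hw hzL hwL hzw
    rw [gxg_t, gxg_t, gxg_t]
    exact gv_tX_add G hz hw hzL hwL hzw
  · intro z hz hL
    rw [gxg_t, gxg_t]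
    exact (gv_tX_neg G hz hL).2
  · intro z hz hL
    obtain ⟨h1, h2, h3⟩ := gv_tX_lt G hz hL
    obtain ⟨hns, -⟩ := G.some z hL
    have heq := (WeierstrassCurve.Affine.equation_iff _ _).1 hns.1
    have hk4 : V.valuation (-36 * kap L) ≤ 1 := G.int.a4
    have hk6 : V.valuation (-kap L) ≤ 1 := G.int.a6
    rw [gxg_t]
    set x := xn L z with hx
    set y := y2 L z with hy
    have hW1 : (W2 (kap L)).a₁ = 1 := rfl
    have hW2 : (W2 (kap L)).a₂ = 0 := rfl
    have hW3 : (W2 (kap L)).a₃ = 0 := rfl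
    have hW4 : (W2 (kap L)).a₄ = -36 * kap L := rfl
    have hW6 : (W2 (kap L)).a₆ = -kap L := rfl
    rw [hW1, hW2, hW3, hW4, hW6] at heq
    have ht : tX (xn L) (y2 L) z = -(x / y) := rfl
    rw [ht] at h1 h2 h3 ⊢
    have hy0 : y ≠ 0 := by
      intro h
      rw [h] at h2
      simp at h2
    have hx0 : x ≠ 0 := by
      intro h
      rw [h] at h2
      simp at h2
    set t := -(x / y) with htt
    have ht0 : t ≠ 0 := by
      intro h
      rw [h] at h2
      simp at h2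
    have hyt : y = -(x / t) := by
      rw [htt]; field_simp
    -- x t^2 - 1 = -t + (36 k x + k)/y^2
    have e1 : x * t ^ 2 - 1 = -t + (-(-36 * kap L) * x * t ^ 2 + -(-kap L) * t ^ 2) / x ^ 2 := by
      have e2 : x ^ 3 = y ^ 2 + x * y - (-36 * kap L) * x - (-kap L) := by linear_combination -heq
      rw [hyt] at e2
      field_simp at e2 ⊢
      linear_combination e2
    rw [e1]
    have hvx0 : V.valuation x ≠ 0 := by rw [Valuation.ne_zero_iff]; exact hx0
    have hvx : V.valuation x = (V.valuation t ^ 2)⁻¹ := eq_inv_of_mul_eq_one_left h3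
    have hxinv : V.valuation (x ^ 2)⁻¹ = V.valuation t ^ 4 := by
      rw [map_inv₀, map_pow, hvx, inv_pow, inv_inv, ← pow_mul]
    have ht1 : V.valuation t ≤ 1 := h1.le
    refine v_add_le (by rw [Valuation.map_neg]) ?_
    rw [div_eq_mul_inv, map_mul, hxinv]
    have b1 : V.valuation (-(-36 * kap L) * x * t ^ 2) ≤ 1 := by
      rw [show -(-36 * kap L) * x * t ^ 2 = -(-36 * kap L) * (x * t ^ 2) by ring, map_mul,
        Valuation.map_neg, map_mul (V.valuation) x, map_pow, h3, mul_one]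
      exact hk4
    have b2 : V.valuation (-(-kap L) * t ^ 2) ≤ 1 := by
      rw [map_mul, Valuation.map_neg, map_pow]
      exact mul_le_one' hk6 (pow_le_one' ht1 2)
    have b3 := v_add_le b1 b2
    calc _ ≤ 1 * V.valuation t ^ 4 := mul_le_mul_left b3 _
      _ ≤ V.valuation t := by
        rw [one_mul, show V.valuation t ^ 4 = V.valuation t ^ 3 * V.valuation t from pow_succ _ 3]
        exact mul_le_of_le_one_left' (pow_le_one' ht1 3)
  · intro z n hz hn hnL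
    exact gmem_of_nat_mul G hz hn hnL
  · intro z w hz hw hp hm
    exact gv_X_sub G hz hw hp hm
  · intro z hz
    rw [gxg_D]
    have h1 := gInt_Y G hz
    have h2 := (int_X hz).2
    rw [add_zero, one_mul]
    refine v_add_le ?_ h2
    rw [map_mul]
    exact mul_le_one' (by simpa using v_nat V.valuation 2) h1
  · intro z hz h2
    rw [gxg_D]
    exact gv_DX G hz (by rw [two_mul]; exact h2)
  · intro z w hz hw hL
    rw [gxg_D, gxg_t]
    exact (gnear G hz hw hL).2.1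

end

end Pool.Agent.MUXE


end
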