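import Mathlib
import Pool.Agent.MVF.C014
import Pool.Agent.MVF.C033
import Pool.Agent.MVF.C041
import Pool.Agent.MVF.C042

/-! Parts: N2.StR, N2.R_ALC, N2.R_TP2, N2.R_CHT, N2.R_TRA, N2.R_TOR, N2.R_RFQ, N2.R_RFN, N2.R_HPD, N2.R_FLD, N2.R_CMQ, N2.R_DEF, N2.R_ALB -/

namespace Pool.Agent.N2R.ALBaux
end Pool.Agent.N2R.ALBaux
namespace Pool.Agent.N2R.ALC
end Pool.Agent.N2R.ALC
namespace Pool.Agent.N2R.CHT
end Pool.Agent.N2R.CHT
namespace Pool.Agent.N2R.HPDaux
end Pool.Agent.N2R.HPDaux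
namespace Pool.Agent.N2R.TP2
end Pool.Agent.N2R.TP2

section

/-!
# MUX-2N, block R: reduction of CM curves at the places above 2, 2 not split in `k` (helper77)

`V` a valuation ring of `ℂ`, `v = V.valuation`, `v 2 < 1`, `v 3 = 1`. Deuring form: `X z = xu L u e z = (℘ z - e)/u²`,
`Y z = yt L u e a c z = (℘' z/u³ - a X - c)/2`: the coordinates of the lattice `u L` on `WT a c : Y² + a X Y + c Y = X³` (`xu`: `NS/DefsN.lean`; `yt`, `WT`, `et`, `GoodT`: `N2/DefsT.lean`; `yt` unfolds to this formula); `e = ℘(w)`, `w` of order three,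
`X(w) = Y(w) = 0`. This is the version for `2` of helper58's block RN (`Pool/Agent/NS/StRN.lean`, files `Pool/Agent/NS/RN_X.lean`): most modules are adaptations of
these files. `GRG` (good reduction, general Weierstrass form) is defined in `MUX/StR2.lean`; its lemmas (`gInE_iff`, `gInK_add`, `gInK_congr`, `gInt_Y`, `gv_tX_lt`,
`gv_tX_add`, `gv_tX_nat`, `gmem_of_nat_mul`, `gv_X_sub`, `gv_DX`, `gnear`, `gnear_lt`) are in `Pool/Agent/MUX/VG.lean` (namespace `Pool.Agent.MUX2`; proved). `InK`, `tX`: `MUX/StVX.lean`.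
The theorems `Pool.Agent.MU3B.b_X : St_X` (`MU3/BAll.lean`), block U (`MUX/UAll.lean`, `u_X : Su_X`) may be used directly.

Every `def Sr_X : Prop` is the statement of a module which proves `theorem tr_X (h : Sr_Y) .. : Sr_X` in `Pool/Agent/N2/R_X.lean`, namespace
`Pool.Agent.N2R`. Facts on `emb`, ideals, `Tor` for `CQ A B` without hypotheses: `Pool/Agent/MUX/XLib.lean` (helper51). Everything except VL2 holds
for `2` inert and for `2` ramified (structure `CtxB`).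
-/

set_option autoImplicit false

open WeierstrassCurve Polynomial

namespace Pool.Agent.N2R

open _root_.MU3 _root_.Pool.Agent.MU3A _root_.Pool.Agent.MU3B _root_.Pool.Agent.RI _root_.Pool.Agent.MUX _root_.Pool.Agent.MUXU
open _root_.Pool.Agent.MUXV (InK tX)
open _root_.Pool.Agent.MUX2 (GRG)
open _root_.Pool.Agent.NS (xu)
open _root_.Pool.Agent.N2 (WT yt et GoodT CaseT)

noncomputable section

/-- the lattice `u L` is in Deuring form -/
structure Deu (L : PeriodPair) (u e a c : ℂ) : Prop where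
  u0 : u ≠ 0
  eq : ∀ z ∉ L.lattice, (L.derivWeierstrassP z / u ^ 3) ^ 2 =
    4 * xu L u e z ^ 3 + (a * xu L u e z + c) ^ 2

lemma _root_.Pool.Agent.N2.GoodT.deu {V : ValuationSubring ℂ} {L : PeriodPair} {u e a c : ℂ}
    (h : GoodT V L u e a c) : Deu L u e a c := ⟨h.u0, h.eq⟩

/-- the point of order three `(0, 0)` -/
structure IsW (L : PeriodPair) (u e c w : ℂ) : Prop where
  ne : w ∉ L.lattice
  three : 3 * w ∈ L.lattice
  P : L.weierstrassP w = e
  D : L.derivWeierstrassP w = u ^ 3 * c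

/-- the multiplier `α = 1 + 3 β` -/
def alB {A B : ℤ} (β : OO A B) : ℂ := 1 + 3 * emb β

/-- `V` lies above 2, and 2 does not split: there is `β` with `v 2 < v β`, and `α = 1 + 3 β` of odd norm `N` -/
structure CtxB (A B : ℤ) (V : ValuationSubring ℂ) (β : OO A B) (N : ℕ) : Prop where
  cq : CQ A B
  v2 : V.valuation (2 : ℂ) < 1
  v3 : V.valuation (3 : ℂ) = 1
  vb : V.valuation (2 : ℂ) < V.valuation (emb β)
  nrm : ∃ α' : OO A B, (N : ℂ) = emb α' * alB β
  odd : Odd N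
  one : 1 < N
  vN : V.valuation (N : ℂ) = 1

/-! ## The Deuring form -/

/-- (DEF) facts on the Deuring form.

MODEL: `NS/RN_LGF.lean`. PROOF. `℘'(z)² = 4 (℘ - e)³ + u² a² (℘ - e)² + 2 a c u⁴ (℘ - e) + u⁶ c²` (`Deu.eq` times `u⁶`) and `= 4℘³ - g₂℘ - g₃` (`derivWeierstrassP_sq`) for all `z ∉ L`; `℘` takes every value (`b_SUR`): the two polynomials agree at `0, 1, -1, 2`, so they have the same
coefficients: `12 e = u² a²`, `g₂ = 12 e² - 2 a c u⁴`, `g₃ = 4 e³ - g₂ e - c² u⁶`. Insert `e = a²u²/12`. Discriminant: `g₂³ - 27 g₃² = u¹² c³ (a³ - 27 c)` (`ring`), not zero (`b_DSC`). `w`: `b_DSC` (second part) with `x = e`, `y = u³ c`. `2 w ∉ L` as `℘' w ≠ 0` (`b_ZER`); `b_DUP`: `℘(2w) = -2e + (℘''/℘')²/4`,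
`℘'' = 6e² - g₂/2 = a c u⁴`, so `℘(2w) = -2e + a²u²/4 = e = ℘(w)`, and `b_NEQ`: `3 w ∈ L` (`w = 2w - w ∉ L`). Last: `3 z ∈ L` and `2 z ∉ L` (else `z ∈ L`), `℘(2z) = ℘(z)`, so (DUP) `(6℘² - g₂/2)² = 12 ℘ ℘'²`; with `℘ = u²X + e`: `(6X² + a²X + ac)² = (12X + a²)(4X³ + (aX + c)²)`, and the difference of the
sides is `4X(3X³ + a²X² + 3acX + 3c²)`. -/
def Sr_DEF : Prop :=
  ∀ (L : PeriodPair) (u e a c : ℂ), Deu L u e a c →
    12 * e = u ^ 2 * a ^ 2 ∧ c ≠ 0 ∧ a ^ 3 ≠ 27 * c ∧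
    L.g₂ = u ^ 4 * (a ^ 4 - 24 * a * c) / 12 ∧
    L.g₃ = -(u ^ 6 * (a ^ 6 - 36 * a ^ 3 * c + 216 * c ^ 2)) / 216 ∧
    (∃ w, IsW L u e c w) ∧
    ∀ z, z ∉ L.lattice → 3 * z ∈ L.lattice → xu L u e z = 0 ∨
      3 * xu L u e z ^ 3 + a ^ 2 * xu L u e z ^ 2 + 3 * a * c * xu L u e z + 3 * c ^ 2 = 0

/-- (HPD) a Deuring form with integral coefficients, one of them a unit; `v 3 = 1`.

Uses DEF. MODEL: `NS/RN_HPD.lean`. PROOF. `p₁ = ω₁/3`, `p₂ = ω₂/3`, `p₃ = (ω₁ + ω₂)/3`, `p₄ = (ω₁ - ω₂)/3`: not in `L`, `3 p_i ∈ L`, `p_i ± p_j ∉ L` (`i ≠ j`): the `℘(p_i)` are four different numbers (`b_NEQ`). Let `(w₁, w₂)` be a pair of two of the `p_i` with `v(℘(w₂) - ℘(w₁))` maximal and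
`w₃, w₄` the two others: `v(℘(w_i) - ℘(w₁)) ≤ v(℘(w₂) - ℘(w₁))`. `u` a square root of `℘(w₂) - ℘(w₁) ≠ 0`, `e = ℘(w₁)`, `c = ℘'(w₁)/u³`, `a = (6e² - g₂/2)/(℘'(w₁) u)` (`℘'(w₁) ≠ 0`: `b_ZER`, `2 w₁ ∉ L`). `℘(2w₁) = ℘(w₁)` (`3 w₁ ∈ L`, periodicity, even) and `b_DUP` give `12 e ℘'(w₁)² = (6e² - g₂/2)²`,
so `12 e = a²u²`, `6e² - g₂/2 = a c u⁴`, and `4x³ - g₂x - g₃ = 4(x-e)³ + 12e(x-e)² + (12e² - g₂)(x-e) + ℘'(w₁)²` is `u⁶ (4X³ + (aX + c)²)`: `Deu`. The numbers `1 = X(w₂)`, `x₃ = X(w₃)`, `x₄ = X(w₄)` are different, not `0`, so (DEF) they are the three roots of `3X³ + a²X² + 3acX + 3c²`: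
`a² = -3(1 + x₃ + x₄)`, `c² = -x₃x₄`, both in `V`. `X = 1`: `3 + a² + 3ac + 3c² = 0`, so not both `v a < 1`, `v c < 1`. -/
def Sr_HPD : Prop :=
  ∀ (V : ValuationSubring ℂ) (L : PeriodPair), V.valuation (3 : ℂ) = 1 →
    ∃ w₁ w₂ u a c : ℂ, IsW L u (L.weierstrassP w₁) c w₁ ∧
    (w₂ ∉ L.lattice ∧ 3 * w₂ ∈ L.lattice) ∧ L.weierstrassP w₂ ≠ L.weierstrassP w₁ ∧
    u ^ 2 = L.weierstrassP w₂ - L.weierstrassP w₁ ∧
    Deu L u (L.weierstrassP w₁) a c ∧ V.valuation a ≤ 1 ∧ V.valuation c ≤ 1 ∧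
    (V.valuation a = 1 ∨ V.valuation c = 1)

/-- (NRC) the normalisation `c = 1`.

PROOF. `l³ = c` (`IsAlgClosed`), `l ≠ 0` (`c ≠ 0`, DEF). `u₁ = u l`, `a₁ = a/l`: `X₁ = X/l²`, `(℘'/u₁³)² = (4X³ + (aX + c)²)/c² = 4 X₁³ + (a₁X₁ + 1)²` (`c² = l⁶`). `Y₁ = Y/l³`. `v l = 1` if `v c = 1`. -/
def Sr_NRC : Prop :=
  ∀ (V : ValuationSubring ℂ) (L : PeriodPair) (u e a c : ℂ), Deu L u e a c → V.valuation c = 1 →
    ∃ l : ℂ, l ≠ 0 ∧ l ^ 3 = c ∧ V.valuation l = 1 ∧ Deu L (u * l) e (a / l) 1 ∧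
      ∀ z, xu L (u * l) e z = xu L u e z / l ^ 2 ∧
        yt L (u * l) e (a / l) 1 z = yt L u e a c z / l ^ 3

/-- (XIT) the group isomorphism.

Uses DEF. MODEL: `MUX/R2_GR2.lean` (`GR2.hom`, the same with `a₁ = 1`, `a₃ = 0`; `b_ADD`, `b_DUP` with `℘ = u²X + e`, `℘' = u³ (2Y + aX + c)`), or `NS/RN_XIL.lean` and a change of variables. Nonsingular: `Δ ≠ 0` (`WeierstrassCurve.Affine.equation_iff_nonsingular_of_Δ_ne_zero` or by hand),
`(WT a c).Δ = c³ (a³ - 27 c)`. Kernel: `ξ z ≠ 0` for `z ∉ L`. Surjective: for `(x, y)` on `WT a c` put `p = u²x + e`, `d = u³(2y + ax + c)`; `d² = 4p³ - g₂p - g₃` (DEF), and `b_DSC` (second part) gives `z ∉ L` with `℘ z = p`, `℘' z = d`. -/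
def Sr_XIT : Prop :=
  ∀ (L : PeriodPair) (u e a c : ℂ), Deu L u e a c →
    ∃ ξ : ℂ →+ (WT a c).Point, (∀ z, ξ z = 0 ↔ z ∈ L.lattice) ∧ Function.Surjective ξ ∧
      ∀ z ∉ L.lattice, ∃ h, ξ z = Affine.Point.some (xu L u e z) (yt L u e a c z) h

/-- (TOR) points of order `n` with `v n = 1` have integral coordinates (no hypothesis on the discriminant!).

Uses XIT. MODEL: `NS/RN_TOR.lean`. PROOF. `WT a c` has coefficients in `V` (`IntG`, `MUX/StVG.lean`). The lemmas `gInE_iff`, `gInK_add`, `gInK_nat`, `gv_tX_lt`, `gzc_nsmul`, `gv_zc_nat`, `gmem_of_nat_mul` of `MUX/VG.lean` do not use `GRG.disc`: repeat their proofs with `int`, `some`, `zero` only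
(or use the theorems `tg_VAL`, `tg_NEG`, `tg_ADD` of `MUX/G_VAL.lean`, `G_ADD.lean`, which need only `IntG`). So if `z` is in the kernel of reduction and `n z ∈ L`, then `z ∈ L`. Otherwise `v(X z) ≤ 1`, and `tg_VAL`: `v(Y z) ≤ 1`. -/
def Sr_TOR : Prop :=
  ∀ (V : ValuationSubring ℂ) (L : PeriodPair) (u e a c : ℂ), V.valuation a ≤ 1 →
    V.valuation c ≤ 1 → Deu L u e a c → ∀ (n : ℕ), V.valuation (n : ℂ) = 1 →
    ∀ z ∉ L.lattice, n * z ∈ L.lattice →
      V.valuation (xu L u e z) ≤ 1 ∧ V.valuation (yt L u e a c z) ≤ 1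

/-- (TRA) translation by the point `w = (0, 0)` of order three.

Uses XIT (or `b_ADD` directly). PROOF. `Y(w) = 0`, `X(w) = 0`. `X z ≠ 0` (`b_NEQ`: `z ± w ∉ L`). Addition on `WT a c`: `X(z + w) = l² + a l - X z`, `l = Y z/X z`, so `X(z + w) X² = Y² + aXY - X³ = -c Y`. `Y(-z) = -Y - aX - c`, `X(-z) = X z`: `X(z - w) X² = X(-z + w) X² = c (Y + aX + c)`. So
`X(z+w) X(z-w) X⁴ = -c² Y (Y + aX + c) = -c² X³`. -/
def Sr_TRA : Prop :=
  ∀ (L : PeriodPair) (u e a c w : ℂ), Deu L u e a c → IsW L u e c w →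
    ∀ z, z ∉ L.lattice → z + w ∉ L.lattice → z - w ∉ L.lattice →
      xu L u e z ≠ 0 ∧ xu L u e (z + w) * xu L u e z ^ 2 = -(c * yt L u e a c z) ∧
      xu L u e z * xu L u e (z + w) * xu L u e (z - w) = -c ^ 2

/-! ## Complex multiplication -/

/-- (CMQ) the quadratic identity: complex multiplication by `α = 1 + 3β` at the point `w` of order three.

Uses DEF. MODEL: `NS/RN_CMI.lean`. PROOF. `α L ⊆ L` (`emb x * (om emb y) = om emb (x y)`). `α w - w = emb β (3 w) ∈ L`, so `℘(α w) = ℘(w) = e` and `α w ∉ L`. `b_CMX` with `a = α`, `z = w`: `α² e = e + Σ (℘(w + q) - ℘(q))`. `℘(w+q) - ℘(q) = u² (X(w+q) - X(q))`, `12 e = u²a²` (DEF). -/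
def Sr_CMQ : Prop :=
  ∀ (A B : ℤ) (b : Ideal (OO A B)) (L : PeriodPair) (om : ℂ), CQ A B → IsLI b L om →
    ∀ u e a c w : ℂ, Deu L u e a c → IsW L u e c w →
    ∀ (β : OO A B) (R : Finset ℂ), IsReps L (alB β) R →
      a ^ 2 * (alB β ^ 2 - 1) = 12 * ∑ q ∈ R, (xu L u e (w + q) - xu L u e q)

/-- (CML) the linear identity.

Uses DEF, `u_ISO`, `u_DER`, `u_PFI`-type factorisation. PROOF. `α = alB β ≠ 0` (`1 = -3β` impossible), `Isg L L α`, `IsRpM L L α R`. `u_ISO` with `M = L`, `μ = α`: `A₀` monic of degree `|R| + 1`, `B₀ = C(α²) ∏ (X - ℘ q)`, `OdeP`, `IsoP`. All evaluations at `X = e`. `β₀ = B₀(e) ≠ 0` (`IsoP.ker`, `α w ≡ w ∉ L`), `A₀(e) = e β₀`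
(`IsoP.P`, `℘(αw) = e`). `S := ∏ (X - ℘(w + q))`. (i) `A₀ - C e * B₀ = (X - C e) * S`: both sides are monic of degree `|R| + 1`; `u_PFI` (for `w`, all `z`) says they agree at all `℘ z`, `α z ∉ L`, and `℘` takes every value (infinitely many `z` with `α z ∉ L`; `b_SUR`). (ii) Put `D = A₀'B₀ - A₀B₀'`. `D(e) = S(e) β₀` (derivative of (i)), and (`u_DER`, `z = w`)
`α ℘'(αw) β₀² = D(e) ℘'(w)`, `℘'(αw) = ℘'(w) ≠ 0`: `D(e) = α β₀²`, so `S(e) = α β₀`. (iii) `D'(e) = A₀''(e)β₀ - eβ₀B₀''(e) = β₀ (A₀ - eB₀)''(e) = 2 β₀ S'(e)`. (iv) `P(X) = 4X³ - g₂X - g₃`: `P(e) = u⁶c²`, `P'(e) = 12e² - g₂ = 2acu⁴` (DEF). OdeP: `D² P = α² G`, `G = 4A₀³B₀ - g₂A₀B₀³ - g₃B₀⁴`. Derivative at `e`: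
`2DD'P + D²P' = α² (4 β₀³ B₀'(e) P(e) + β₀³ P'(e) (A₀'(e) - e B₀'(e)))` and `A₀'(e) - eB₀'(e) = S(e)`. Insert and divide by `α β₀³ ..`: `4 P(e) (S'(e)/S(e) - B₀'(e)/β₀) = (α - 1) P'(e)`. (v) `S'(e)/S(e) = Σ 1/(e - ℘(w+q)) = -Σ 1/(u² X(w+q))`, `B₀'(e)/β₀ = -Σ 1/(u² X(q))` (`Polynomial.eval_derivative_div_..` or logarithmic derivative of a product, `Finset.sum`):
`4 c² u⁴ (Σ 1/X(q) - Σ 1/X(w+q)) = (α - 1) 2 a c u⁴`. (The `X(q)`, `X(w + q)` are not `0`: `q ± w ∉ L` as `α w ∉ L`; `q`, `q + 2w ∉ L` since `2αw ≡ 2w ∉ L`.) -/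
def Sr_CML : Prop :=
  ∀ (A B : ℤ) (b : Ideal (OO A B)) (L : PeriodPair) (om : ℂ), CQ A B → IsLI b L om →
    ∀ u e a c w : ℂ, Deu L u e a c → IsW L u e c w →
    ∀ (β : OO A B) (R : Finset ℂ), IsReps L (alB β) R →
      a * (alB β - 1) = 2 * c * ∑ q ∈ R, (1 / xu L u e q - 1 / xu L u e (w + q))

/-- (ALB) the multiplier, 2 inert: `D = B² + 4A ≡ 5` modulo 8, i.e. `B = 1`, `A` odd (`CQ`: `B = 0` or `1`).

MODEL: `NS/RN_ALP.lean`. PROOF. `β = ⟨0, 1⟩`. `v 2 < 1`: `2 ∈ idl 2`, `OverI`. `v 3 = 1`: `3 ∉ idl 2`, `v 3 ≤ 1`. `v(emb x) = 1` for `x ∉ idl 2`: so `v(emb β) = 1`. `α = 1 + 3w`, `α' = 1 + 3(B - w)`: `α'α = 1 + 3B - 9A = 4 - 9A`, odd, `≥ 13` (`A ≤ -1`); `v N = 1` (`N = 2k + 1`). `D = -3` (`A = -1`) is allowed. -/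
def Sr_ALB : Prop :=
  ∀ (A B : ℤ) (V : ValuationSubring ℂ), CQ A B → (8 : ℤ) ∣ B ^ 2 + 4 * A - 5 →
    OverI V (idl (A := A) (B := B) 2) →
    ∃ (β : OO A B) (N : ℕ), CtxB A B V β N ∧ V.valuation (emb β) = 1

/-- (ALC) the multiplier, 2 ramified: `B = 0`, `P` the prime over 2.

MODEL: `NS/RN_ALR.lean`. PROOF. `B = 0` (`B = 1` gives an odd discriminant), `w² = A`, `A` squarefree, `A ≤ -1`, `A ≢ 0, 1` modulo 4. `A` even: `β = ⟨0, 1⟩`, `nm β = -A = 2 (odd)`, `v(emb β)² = v(A) = v 2`, `α'α = (1 - 3w)(1 + 3w) = 1 - 9A` odd, `≥ 10`. `A` odd, `A ≡ 3` modulo 4: `β = 1 + w`, `nm β = 1 - A = 2 (odd)`, `β² = 1 + A + 2w = 2 ((1+A)/2 + w)`, and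
`(1+A)/2` is even, `w` is a unit (`w² = A` odd), so `v(β²) = v 2`. `α = 4 + 3w`, `α' = 4 - 3w`, `N = 16 - 9A` odd. `v 2 < v β` as `(v β)² = v 2 < 1`. -/
def Sr_ALC : Prop :=
  ∀ (A B : ℤ) (V : ValuationSubring ℂ) (P : Ideal (OO A B)), CQ A B → (2 : ℤ) ∣ B ^ 2 + 4 * A →
    OverI V P → ((2 : ℕ) : OO A B) ∈ P →
    ∃ (β : OO A B) (N : ℕ), CtxB A B V β N ∧ V.valuation (emb β) ^ 2 = V.valuation (2 : ℂ)

/-- (RED) SUPERSINGULAR REDUCTION.

Uses CMQ, TOR, DEF, `u_BAC` (representatives). MODEL: `NS/RN_RED.lean`. PROOF. `w` from DEF. For `q ∈ R`: `N q = emb α' (α q) ∈ L`, `v N = 1`, so `v(X q) ≤ 1` (TOR); `w + q ∉ L` (else `α w ∈ L`, but `α w - w ∈ L`), `(3 N : ℕ)(w + q) ∈ L`, `v(3N) = 1`: `v(X(w + q)) ≤ 1`. (CMQ): `v(a)² v(α² - 1) ≤ v 12 = v(2)²`. `α² - 1 = 3 emb β (2 + 3 emb β)`, `v 2 < v β`: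
`v(α² - 1) = v(β)²`. So `v a v β ≤ v 2` (squares in a linearly ordered group with zero: `pow_le_pow_left₀`/`lt_of_pow_lt_pow_left₀`), `v a < 1` (else `v β ≤ v 2`), so `v c = 1`. -/
def Sr_RED : Prop :=
  ∀ (A B : ℤ) (V : ValuationSubring ℂ) (β : OO A B) (N : ℕ), CtxB A B V β N →
    ∀ (b : Ideal (OO A B)) (L : PeriodPair) (om : ℂ), IsLI b L om → ∀ u e a c : ℂ, Deu L u e a c →
    V.valuation a ≤ 1 → V.valuation c ≤ 1 → (V.valuation a = 1 ∨ V.valuation c = 1) →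
    V.valuation a * V.valuation (emb β) ≤ V.valuation (2 : ℂ) ∧
      V.valuation a < 1 ∧ V.valuation c = 1

/-- (GRT) good reduction in the sense of `MUX/VG.lean`.

Uses XIT. PROOF. `IntG` is clear. `(WT a c).Δ = c³ (a³ - 27c)` (`ring` after unfolding `b₂, b₄, b₆, b₈`), `v(27) = v(3)³ = 1`, `v(a³) < 1`. -/
def Sr_GRT : Prop :=
  ∀ (V : ValuationSubring ℂ) (L : PeriodPair) (u e a c : ℂ), V.valuation (3 : ℂ) = 1 →
    V.valuation a < 1 → V.valuation c = 1 → Deu L u e a c →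
    ∃ ξ : ℂ →+ (WT a c).Point, GRG V (WT a c) L (xu L u e) (yt L u e a c) ξ ∧
      Function.Surjective ξ

/-! ## Uniqueness of the curve with complex multiplication -/

/-- (CHT) addition formulas in Deuring form.

Uses XIT. MODEL: `NS/RN_CHT.lean`. PROOF. `b_NEQ`, `b_ADD`, `b_DUP` (`℘ = u² X + e`, `℘' = u³ (2 Y + a X + c)`), or from `XIT` and the formulas for the addition of points of `WT a c` (`Affine.Point.add_some`, `slope`). `2 z ∉ L`: `℘' z ≠ 0` (`b_ZER`). -/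
def Sr_CHT : Prop :=
  ∀ (L : PeriodPair) (u e a c : ℂ), Deu L u e a c →
    (∀ z w, z ∉ L.lattice → w ∉ L.lattice → z + w ∉ L.lattice → z - w ∉ L.lattice →
      xu L u e z - xu L u e w ≠ 0 ∧
      xu L u e (z + w) = ((yt L u e a c z - yt L u e a c w) / (xu L u e z - xu L u e w)) ^ 2 +
        a * ((yt L u e a c z - yt L u e a c w) / (xu L u e z - xu L u e w)) -
        xu L u e z - xu L u e w ∧
      yt L u e a c (z + w) = -(yt L u e a c z +
        (yt L u e a c z - yt L u e a c w) / (xu L u e z - xu L u e w) *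
          (xu L u e (z + w) - xu L u e z)) - a * xu L u e (z + w) - c) ∧
    ∀ z, 2 * z ∉ L.lattice → 2 * yt L u e a c z + a * xu L u e z + c ≠ 0 ∧
      xu L u e (2 * z) = ((3 * xu L u e z ^ 2 - a * yt L u e a c z) /
          (2 * yt L u e a c z + a * xu L u e z + c)) ^ 2 +
        a * ((3 * xu L u e z ^ 2 - a * yt L u e a c z) /
          (2 * yt L u e a c z + a * xu L u e z + c)) - 2 * xu L u e z ∧
      yt L u e a c (2 * z) = -(yt L u e a c z + (3 * xu L u e z ^ 2 - a * yt L u e a c z) /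
          (2 * yt L u e a c z + a * xu L u e z + c) * (xu L u e (2 * z) - xu L u e z)) -
        a * xu L u e (2 * z) - c

/-- (CLO) torsion points of close curves are close. `c = 1`, `δ = a' - a`.

Uses GRT, CHT. MODEL: `NS/RN_CLO.lean` (with `VG.lean` instead of `VX.lean`; `2 Y` is replaced by `DX = 2 Y + a X + 1`, `DX(q) = ℘'(q)/u³`). PROOF. `X, Y` on `L`, `X', Y'` on `L'`, both have good reduction (GRT; `v a' < 1` too). For `0 < k < n`: `k q, k q'` are not in the kernel of reduction (`gmem_of_nat_mul`: `n (k q) ∈ L`), `2 q` also not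
(`n ≥ 3` is odd), so `v(DX q) = v(DX' q') = 1` (`gv_DX`). (1) `f = X'(q')`, `g = Y'(q')`: `g² + a f g + g - f³ = -δ f g`. Choose `y` with `y² + a f y + y = f³`; the other root is `y₂ = -(a f + 1) - y`, `(g - y)(g - y₂) = -δ f g`, and the sum of the two factors is `2g + a f + 1 = DX'(q') - δ f`, a unit, so one factor is a unit: replace `y` by `y₂` if necessary, then
`v(g - y) ≤ v δ`. `(f, y)` is a point of `WT a 1` (nonsingular), so by surjectivity of `ξ` there is `z ∉ L` with `X z = f`, `Y z = y`. (2) `v(X z - X q) < 1`, so (`gv_X_sub`) `z - q` or `z + q` is in the kernel of reduction; if `z + q` is, then `v(Y z - Y(-q)) < 1` (`gnear_lt` for `z = -q + (z + q)`), `Y(-q) = -Y q - a X q - 1`: with `v(Y z - Y q) < 1`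
this gives `v(DX q) < 1`, a contradiction. So `s := z - q` is in the kernel. (3) Claim, for `1 ≤ k ≤ n - 1`: `v(X(k z) - X'(k q')) ≤ v δ` and `v(Y(k z) - Y'(k q')) ≤ v δ`. `k z = k q + k s` is not in the kernel. `k = 1`: (1). `k = 2`: duplication (CHT), the denominators `DX z`, `DX' q'` are units, all numbers are in `V`, and differences of
`a`, `X`, `Y` are in `δV`. `k → k + 1`, `2 ≤ k ≤ n - 2`: addition (CHT) of `k z` and `z`; `X(k z) - X z` is a unit (`gv_X_sub`), the same for `k q'`, `q'`. (4) `k = n - 1`: `(n-1) q' = n q' - q'`, so `X'((n-1)q') = X'(q') = X z`. `(n - 1) z = -z + n z`, `n z = n q + n s`, `n q ∈ L`, so `X((n-1) z) = X(-z + n s)`. If `s ∈ L` then `X z = X q`, `Y z = Y q`,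
done. Otherwise `n s ∉ L` and `v(tX(n s)) = v(tX s) =: r` (`gv_tX_nat`), `0 < r < 1`. (`gnear`) `v(X(-z + n s) - X(-z) - DX(-z) tX(n s)) ≤ r²`, `v(DX(-z)) = 1`, so `v(X((n-1)z) - X z) = r`. By (3) `r ≤ v δ`. (`gnear`) for `z = q + s`: `v(X z - X q) ≤ r ≤ v δ`, `v(Y z - Y q) ≤ r ≤ v δ`, and `X z = X'(q')`, `v(Y z - Y'(q')) ≤ v δ`. -/
def Sr_CLO : Prop :=
  ∀ (V : ValuationSubring ℂ) (L L' : PeriodPair) (u e a u' e' a' : ℂ),
    V.valuation (3 : ℂ) = 1 → Deu L u e a 1 → Deu L' u' e' a' 1 → V.valuation a < 1 →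
    V.valuation (a' - a) < 1 → ∀ (n : ℕ), Odd n → 1 < n → V.valuation (n : ℂ) = 1 →
    ∀ q q' : ℂ, (∀ k : ℕ, 0 < k → k < n → k * q ∉ L.lattice ∧ k * q' ∉ L'.lattice) →
      n * q ∈ L.lattice → n * q' ∈ L'.lattice →
      V.valuation (xu L' u' e' q' - xu L u e q) < 1 →
      V.valuation (yt L' u' e' a' 1 q' - yt L u e a 1 q) < 1 →
      V.valuation (xu L' u' e' q' - xu L u e q) ≤ V.valuation (a' - a) ∧
      V.valuation (yt L' u' e' a' 1 q' - yt L u e a 1 q) ≤ V.valuation (a' - a)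

/-- (UNQ) an automorphism in the inertia group fixes `a` (`c = 1`). (Deformations of a supersingular curve with complex multiplication.)

Uses DEF, RED, TOR, TRA, CML, CLO, `u_BAC`, `u_CJE`, `u_PHI`, `u_TSN` (block U). MODEL: `NS/RN_UNQ.lean`. PROOF. `L'` with `IsCj σ L L'` (`u_CJE`), `Φ` with `IsPhi σ L L' Φ` (`u_PHI`); `u' = σ u`, `e' = σ e`, `a' = σ a`: `Deu L' u' e' a' 1`, `xu L' u' e' (Φ z) = σ (xu L u e z)`, `yt L' u' e' a' 1 (Φ z) = σ (yt L u e a 1 z)`. `δ = a' - a`, suppose `δ ≠ 0`.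
`w` (DEF), `R` representatives of `α = alB β`. `σ α = α` (`FixK`). (RED) with `c = 1`: `v a < 1`. Let `q ∈ R`, `n` its exact order in `ℂ/L` (`UNQ.order` of the MODEL): `n ∣ N`, odd, `v n = 1`, `1 < n`; `q' = Φ q` has the exact order `n`. (CLO) (hypothesis for `q`): `v(σ(X q) - X q) ≤ v δ`, `v(σ(Y q) - Y q) ≤ v δ`. `w ± q ∉ L`; (TRA) `X(q) X(q+w) X(q-w) = -1`, all in `V` (TOR; `3N`
kills `q ± w`), so `X q` is a unit; `Y(q)(Y(q) + aX(q) + 1) = X(q)³` with both factors in `V`, so `Y q` is a unit; (TRA) `1/X(w + q) = -X(q)²/Y(q)`. So `v(σ t - t) ≤ v δ` for `t = 1/X q` and for `t = X(q)²/Y(q)` (units which are congruent). Apply `σ` to (CML): `a (α - 1) = 2 Σ (1/X q + X(q)²/Y(q))`, and subtract: `δ (α - 1) = 2 Σ (σ t_q - t_q)`,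
`v δ v(3β) ≤ v 2 v δ`: contradiction to `CtxB.vb`. -/
def Sr_UNQ : Prop :=
  ∀ (A B : ℤ) (V : ValuationSubring ℂ) (β : OO A B) (N : ℕ), CtxB A B V β N →
    ∀ (b : Ideal (OO A B)) (L : PeriodPair) (om : ℂ), IsLI b L om → ∀ u e a : ℂ, Deu L u e a 1 →
    V.valuation a ≤ 1 → ∀ σ : ℂ ≃+* ℂ, FixK A B σ → V.valuation (σ a - a) < 1 →
    (∀ z ∉ L.lattice, N * z ∈ L.lattice → V.valuation (σ (xu L u e z) - xu L u e z) < 1 ∧
      V.valuation (σ (yt L u e a 1 z) - yt L u e a 1 z) < 1) →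
    σ a = a

/-- (EQL) then `σ` fixes all invariants of a normalised lattice.

Uses DEF. MODEL: `NS/RN_EQL.lean`. PROOF. `c = 1`: `g₂ = u⁴ P/12`, `g₃ = -u⁶ Q/216`, `P = a⁴ - 24a`, `Q = a⁶ - 36a³ + 216`. `g₂ = -18 g₃`, not both zero (`b_DSC`), so both are not zero, `P, Q ≠ 0`, `u⁴P = u⁶Q`, `u² = P/Q`. So `σ(u²) = u²`; `e = u²a²/12`, `g₂`, `g₃`, `kap = (12 g₂ - 1)/1728` are rational functions of `a`, `u²`. -/
def Sr_EQL : Prop :=
  ∀ (L : PeriodPair) (u e a : ℂ), Deu L u e a 1 → L.g₂ = -18 * L.g₃ →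
    ∀ σ : ℂ ≃+* ℂ, σ a = a →
      σ (u ^ 2) = u ^ 2 ∧ σ e = e ∧ σ L.g₂ = L.g₂ ∧ σ L.g₃ = L.g₃ ∧ σ (kap L) = kap L

/-- (FXL) and it fixes the `x`-coordinates of the points of order prime to 2.

Uses UNQ, EQL, RED, GRT, TOR, block U. MODEL: `NS/RN_FXL.lean` (with `gv_X_sub`, `gmem_of_nat_mul`). -/
def Sr_FXL : Prop :=
  ∀ (A B : ℤ) (V : ValuationSubring ℂ) (β : OO A B) (N : ℕ), CtxB A B V β N →
    ∀ (b : Ideal (OO A B)) (L : PeriodPair) (om : ℂ), IsNL b L om → ∀ u e a : ℂ, Deu L u e a 1 →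
    V.valuation a ≤ 1 → ∀ F : ℕ, N ∣ F → V.valuation (F : ℂ) = 1 → ∀ σ : ℂ ≃+* ℂ, FixK A B σ →
    V.valuation (σ a - a) < 1 →
    (∀ z ∉ L.lattice, F * z ∈ L.lattice → V.valuation (σ (xu L u e z) - xu L u e z) < 1 ∧
      V.valuation (σ (yt L u e a 1 z) - yt L u e a 1 z) < 1) →
    σ (kap L) = kap L ∧ ∀ z ∉ L.lattice, F * z ∈ L.lattice → σ (xn L z) = xn L z

/-! ## Fields -/

/-- (LIF) lifting of elements of the inertia group.

MODEL: `NS/RN_LIF.lean` word for word, with 2 instead of 3. -/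
def Sr_LIF : Prop :=
  ∀ (A B : ℤ) (V : ValuationSubring ℂ), CQ A B → V.valuation (2 : ℂ) < 1 →
    ∀ (F₁ M : IntermediateField (kk A B) ℂ), FiniteDimensional (kk A B) F₁ →
    IsGalois (kk A B) F₁ → FiniteDimensional (kk A B) M → ∀ σ : ℂ ≃+* ℂ, FixK A B σ →
    (∀ y ∈ F₁, V.valuation y ≤ 1 → V.valuation (σ y - y) < 1) →
    ∃ σ' : ℂ ≃+* ℂ, FixK A B σ' ∧ (∀ y ∈ F₁, σ' y = σ y) ∧
      ∀ y ∈ M, V.valuation y ≤ 1 → V.valuation (σ' y - y) < 1

/-- (MFD) a finite extension which contains all the coordinates.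

Uses DEF. MODEL: `NS/RN_MFD.lean`. PROOF. `w` (DEF): `e = ℘(w) = xn L w + 1/12 ∈ RF (idl 3)` (`Tor (idl 3) L w`), `(u³)² = ℘'(w)² = 4e³ - g₂e - g₃ ∈ RF (idl 3)` (`g₂ = (1 + 1728κ)/12`, `g₃ = -g₂/18`, `κ = kap L ∈ RF`), so `u` is algebraic over `k`; `a²u² = 12e`: `a` too. `RF (idl F)` is finite dimensional and contains `xn L z`, `F z ∈ L`; `℘'(z)` is
algebraic (square root). `M = RF(idl (3F)) ⊔ k(u, a, ℘'(z) : z ∈ a finite set of representatives)`, `xu = (xn + 1/12 - e)/u²`, `yt = (℘'/u³ - a xu - 1)/2`. -/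
def Sr_MFD : Prop :=
  ∀ (A B : ℤ), CQ A B → (∀ m : Ideal (OO A B), m ≠ ⊥ → FiniteDimensional (kk A B) (RF m)) →
    ∀ (b : Ideal (OO A B)) (L : PeriodPair) (om : ℂ), IsNL b L om → ∀ u e a : ℂ, Deu L u e a 1 →
    ∀ F : ℕ, F ≠ 0 →
    ∃ M : IntermediateField (kk A B) ℂ, FiniteDimensional (kk A B) M ∧ a ∈ M ∧
      ∀ z ∉ L.lattice, F * z ∈ L.lattice → xu L u e z ∈ M ∧ yt L u e a 1 z ∈ M

/-- (UNR) inertia groups are trivial; every `V` with `CtxB`.

Uses HPD, RED, NRC, TOR, LIF, MFD, FXL. MODEL: `NS/RN_UNR.lean` (with `v f = 1` for `f` odd: `f = 2k + 1`). (HPD), (RED): `v c = 1`, (NRC): `Deu L u' e a' 1` with `v a' ≤ 1`. -/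
def Sr_UNR : Prop :=
  ∀ (A B : ℤ) (V : ValuationSubring ℂ) (β : OO A B) (N : ℕ), CtxB A B V β N → TorX A B →
    ∀ f : ℕ, Odd f → ∀ σ : ℂ ≃+* ℂ, FixK A B σ →
      (∀ y ∈ RF (idl (A := A) (B := B) f), V.valuation y ≤ 1 → V.valuation (σ y - y) < 1) →
      ∀ y ∈ RF (idl (A := A) (B := B) f), σ y = y

/-- (VL2) the values of `RF (f)` at `V`, `f` odd; 2 inert, and 2 ramified.

Uses ALB, ALC, UNR, `Sr_RAM` of block RN (`Pool.Agent.NSR.tr_RAM`). MODEL: `NS/RN_VAL3.lean`. PROOF. First part: `P = idl 2` is prime (`OverI`), `2 ∈ P`, `2 ∉ P²` (`4 ∤ 2`). Second part: `P` prime (`OverI`), `ϖ = β` of the proof of ALC (`v(β)² = v 2`): `ϖ ∈ P` as `v ϖ < 1`, `ϖ ∉ P²`: `v x ≤ v ϖ` for all `x ∈ P` (`x² ..`: `P = (2, ϖ)`; or `v(x)² ≤ v 2` since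
`nm x` is even and `v(star x) = v(x)` for `x` in `P`); simplest: for `x = ⟨i, j⟩`, `A` even: `x ∈ P` iff `i` even, `v(emb x) ≤ max(v 2, v w)`; `A` odd: `x = i + j w = (i - j) + j(1 + w)`, `x ∈ P` iff `i - j` even. So `v y ≤ (v ϖ)² < v ϖ` for `y ∈ P²`. Then `tr_RAM`. -/
def Sr_VL2 : Prop :=
  (∀ (A B : ℤ) (V : ValuationSubring ℂ), CQ A B → (8 : ℤ) ∣ B ^ 2 + 4 * A - 5 →
    OverI V (idl (A := A) (B := B) 2) → TorX A B →
    ∀ f : ℕ, Odd f → ∀ y ∈ RF (idl (A := A) (B := B) f), y ≠ 0 →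
      ∃ k : ℤ, V.valuation y = V.valuation (2 : ℂ) ^ k) ∧
  ∀ (A B : ℤ) (V : ValuationSubring ℂ) (P : Ideal (OO A B)), CQ A B → (2 : ℤ) ∣ B ^ 2 + 4 * A →
    OverI V P → ((2 : ℕ) : OO A B) ∈ P → TorX A B →
    ∀ f : ℕ, Odd f → ∀ y ∈ RF (idl (A := A) (B := B) f), y ≠ 0 →
      ∃ k : ℤ, V.valuation y ^ 2 = V.valuation (2 : ℂ) ^ k

/-! ## Points of order a power of 2 -/

/-- (DU2) duplication. `X(2z) (4X³ + (aX + c)²) = X⁴ - acX² - 2c²X`.

Uses CHT. PROOF. `2 z ∉ L`: CHT, `D = 2Y + aX + c`, `D² = 4X³ + (aX + c)²` (`Deu.eq`), `Y² + aXY + cY = X³`: multiply `X(2z) = l² + al - 2X` by `D²`: `(3X² - aY)² + a(3X² - aY)D - 2XD² = X⁴ - acX² - 2c²X` modulo the equation of `Y` (`linear_combination`). `2 z ∈ L`: `℘' z = 0` (`b_ZER`) and `Deu.eq`. -/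
def Sr_DU2 : Prop :=
  ∀ (L : PeriodPair) (u e a c : ℂ), Deu L u e a c → ∀ z ∉ L.lattice,
    (2 * z ∈ L.lattice → 4 * xu L u e z ^ 3 + (a * xu L u e z + c) ^ 2 = 0) ∧
    (2 * z ∉ L.lattice → xu L u e (2 * z) * (4 * xu L u e z ^ 3 + (a * xu L u e z + c) ^ 2) =
      xu L u e z ^ 4 - a * c * xu L u e z ^ 2 - 2 * c ^ 2 * xu L u e z)

/-- (TP2) valuations of the points of order a power of 2 (height two), 2 inert.

Uses DU2. PROOF. `θ = v 2 < 1`, `v a ≤ θ`, `v c = 1`, `x = X z`, `t = v x`. `j = 0`: if `t ≤ 1` then `v(4x³ + (ax+c)²) = v(c²) = 1`: contradiction. So `t > 1`; if `θt ≥ 1`: `v((ax+c)²) ≤ θ²t² < θ²t³ = v(4x³)`, contradiction; so `θt < 1`, `v(ax + c) = 1`, `θ²t³ = 1`. Induction: `z` of exact order `2^(j+1)`, `j ≥ 1`, so `2 z ∉ L` has exact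
order `2^j`, `b = v(X(2z)) > 1`, `b^(3·4^(j-1)) θ² = 1`, so `b³θ² ≤ 1`. `D = 4x³ + (ax+c)²`. If `t ≤ 1`: `v D = 1`, so `b ≤ 1`: contradiction. So `t > 1` and the right side of DU2 has valuation `t⁴`. If `θ²t³ ≥ 1`: `v D ≤ θ²t³` (`θ²t² ≤ θ²t³`), `t⁴ ≤ bθ²t³`, `t ≤ bθ²`, `t³ ≤ b³θ⁶ ≤ θ⁴ < 1`: contradiction. So `θ²t³ < 1`, `θt < 1`, `v D = 1`, `b = t⁴`. -/
def Sr_TP2 : Prop :=
  ∀ (V : ValuationSubring ℂ) (L : PeriodPair) (u e a c : ℂ), V.valuation (2 : ℂ) < 1 →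
    V.valuation a ≤ V.valuation (2 : ℂ) → V.valuation c = 1 → Deu L u e a c →
    ∀ (j : ℕ) (z : ℂ), 2 ^ (j + 1) * z ∈ L.lattice → 2 ^ j * z ∉ L.lattice →
      1 < V.valuation (xu L u e z) ∧
        V.valuation (xu L u e z) ^ (3 * 4 ^ j) * V.valuation (2 : ℂ) ^ 2 = 1

/-! ## Isogenies -/

/-- (SCL) the scaled lattice.

Uses GRT. MODEL: `NS/RN_SCL.lean` or the end of `NS/RN_ISO.lean`. PROOF. `L₁ = u L` (`u_SCX`), `ta_SCP` (`MU3/A_X.lean`): `℘_(L₁)(u z) = ℘(z)/u²`, `℘'_(L₁)(u z) = ℘'(z)/u³`. `GRG` for `L₁`, `X₁ = ℘ - e/u²`, `Y₁ z = Y(z/u)`, `ξ₁(z) = ξ(z/u)`: `X₁(z) = X(z/u)`. -/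
def Sr_SCL : Prop :=
  ∀ (V : ValuationSubring ℂ) (L : PeriodPair) (u e a c : ℂ), V.valuation (3 : ℂ) = 1 →
    V.valuation a < 1 → V.valuation c = 1 → Deu L u e a c →
    ∃ L₁ : PeriodPair, (∀ z, z ∈ L.lattice ↔ u * z ∈ L₁.lattice) ∧
      (∀ z, L₁.weierstrassP (u * z) = L.weierstrassP z / u ^ 2) ∧
      (∀ z, L₁.derivWeierstrassP (u * z) = L.derivWeierstrassP z / u ^ 3) ∧
      ∃ (W : WeierstrassCurve.Affine ℂ) (Y₁ : ℂ → ℂ) (ξ : ℂ →+ W.Point),
        GRG V W L₁ (fun z => L₁.weierstrassP z - e / u ^ 2) Y₁ ξ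

/-- (ISO) integral formulas for an isogeny of odd degree between lattices in good Deuring form. `ν = mu u'/u` is the multiplier `u L → u' M`.

Uses SCL, TOR, `u_ISO`, `u_DER`, `u_PFI` (block U), `S2_IT2` (`Pool.Agent.MUX2.r2_IT2`, `MUX/R2All.lean`). MODEL: `NS/RN_ISO.lean`. PROOF. `v ν ≤ 1`: `r2_IT2` for the lattices `u L`, `u' M` (SCL) and the multiplier `ν`. The dual isogeny `n/ν : u'M → u L` (`n (z/mu) ∈ L` for `z ∈ M`) also: `v(n/ν) ≤ 1`, `v n = 1`: `v ν = 1`.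
`u_ISO` gives `A₀` monic of degree `#R + 1`, `IsoP` with `B₀ = C(mu²) ∏ (X - ℘ q)`. Substitute `℘ = u² X + e`: `A = u^(-2(#R+1)) (A₀(u² X + e) - e' B₀(u² X + e))`, `B = C(ν²) ∏_(q ∈ R) (X - X_q)`; `X_M(mu z) B(X z) = A(X z)`, `A` monic of degree `#R + 1`. `X_q ∈ V` (`n q ∈ L`, TOR), so `B ∈ V[X]`. Let `l > n + 2` be a prime (odd, `v l = 1`),
`w = ω₁/l`: `l w ∈ L`, `w ∉ L`, `mu w ∉ M` (else `n w ∈ L`, and `n, l` are coprime). (PFI) for all `z`: `A(x) - X_M(mu w) B(x) = (x - X w) ∏_(q ∈ R) (x - X(w + q))` for infinitely many `x = X z`, so as polynomials; `w + q ∉ L` is killed by `l n`, `X(w + q) ∈ V`; `mu w` is killed by `l`, `X_M(mu w) ∈ V` (TOR). So `A ∈ V[X]`. Derivative: `u_DER`. -/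
def Sr_ISO : Prop :=
  ∀ (V : ValuationSubring ℂ) (L M : PeriodPair) (u e a c u' e' a' c' mu : ℂ) (n : ℕ),
    V.valuation (2 : ℂ) < 1 → V.valuation (3 : ℂ) = 1 → Deu L u e a c → Deu M u' e' a' c' →
    V.valuation a < 1 → V.valuation c = 1 → V.valuation a' < 1 → V.valuation c' = 1 →
    mu ≠ 0 → Isg L M mu → Odd n →
    (∀ z, mu * z ∈ M.lattice → n * z ∈ L.lattice) → ∀ R : Finset ℂ, IsRpM L M mu R →
    V.valuation (mu * u' / u) = 1 ∧ (∀ q ∈ R, V.valuation (xu L u e q) ≤ 1) ∧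
    ∃ A : ℂ[X], A.Monic ∧ A.natDegree = R.card + 1 ∧ (∀ i, V.valuation (A.coeff i) ≤ 1) ∧
      ∀ z, mu * z ∉ M.lattice →
        xu M u' e' (mu * z) *
            (C ((mu * u' / u) ^ 2) * ∏ q ∈ R, (X - C (xu L u e q))).eval (xu L u e z) =
          A.eval (xu L u e z) ∧
        mu * u' / u * (M.derivWeierstrassP (mu * z) / u' ^ 3) *
            (C ((mu * u' / u) ^ 2) * ∏ q ∈ R, (X - C (xu L u e q))).eval (xu L u e z) ^ 2 =
          (derivative A * (C ((mu * u' / u) ^ 2) * ∏ q ∈ R, (X - C (xu L u e q))) -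
            A * derivative (C ((mu * u' / u) ^ 2) * ∏ q ∈ R, (X - C (xu L u e q)))).eval
              (xu L u e z) * (L.derivWeierstrassP z / u ^ 3)

/-- (FLD) the field of definition of the data of (HPD).

Uses DEF. PROOF. `℘(w₁), ℘(w₂) ∈ RF (idl 3)` (`xn L w + 1/12`, `Tor (idl 3) L w`; `Pool.Agent.NSR.xn_mem_two` of `NS/RN_RFIN.lean` is the model), `g₂ = (1 + 1728 kap)/12`, `kap L ∈ RF`. `u² = ℘(w₂) - ℘(w₁)`, `a² = 12 e/u²`, `a c = (12e² - g₂)/(2 u⁴)` (from DEF), `c² = (4e³ - g₂e - g₃)/(u²)³` (`Deu.eq` at `w₁`, or DEF), `g₃ = -g₂/18`. -/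
def Sr_FLD : Prop :=
  ∀ (A B : ℤ) (b : Ideal (OO A B)) (L : PeriodPair) (om : ℂ), CQ A B → IsNL b L om →
    ∀ u e a c w₁ w₂ : ℂ, Deu L u e a c → IsW L u e c w₁ → w₂ ∉ L.lattice → 3 * w₂ ∈ L.lattice →
    u ^ 2 = L.weierstrassP w₂ - L.weierstrassP w₁ →
    u ^ 2 ∈ RF (idl (A := A) (B := B) 3) ∧ e ∈ RF (idl (A := A) (B := B) 3) ∧
      a ^ 2 ∈ RF (idl (A := A) (B := B) 3) ∧ a * c ∈ RF (idl (A := A) (B := B) 3) ∧
      c ^ 2 ∈ RF (idl (A := A) (B := B) 3)

/-- (RFN) the final statement `Pool.Agent.N2.S2_RFIN` of the block.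

Uses ALB, HPD, RED, FLD, UNR. MODEL: `NS/RN_RFIN.lean`. PROOF. `CaseT`: `8 ∣ B² + 4A - 5`. (ALB): `CtxB` with `v β = 1`. (HPD): `w₁, w₂, u, a, c`; (RED): `v a ≤ v 2`, `v c = 1`; `w₂ ± w₁ ∉ L` since `℘(w₂) ≠ ℘(w₁)` (periodicity). (FLD), (UNR) (`f` odd). The module proves
`theorem tr_RFN (h1 : Sr_ALB) (h2 : Sr_HPD) (h3 : Sr_RED) (h4 : Sr_FLD) (h5 : Sr_UNR) : Pool.Agent.N2.S2_RFIN`. -/
def Sr_RFN : Prop := Pool.Agent.N2.S2_RFIN

end

end Pool.Agent.N2R


end

section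

/-!
# MUX-2N, block R2N, module ALC: the multiplier `α = 1 + 3 β`, 2 ramified
-/

set_option autoImplicit false

open WeierstrassCurve Polynomial

namespace Pool.Agent.N2R

open _root_.MU3 _root_.Pool.Agent.MU3A _root_.Pool.Agent.MU3B _root_.Pool.Agent.RI _root_.Pool.Agent.MUX _root_.Pool.Agent.MUXU
open _root_.Pool.Agent.MUXV (InK tX)
open _root_.Pool.Agent.MUX2 (GRG)
open _root_.Pool.Agent.NS (xu)
open _root_.Pool.Agent.N2 (WT yt et GoodT CaseT)

noncomputable section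

namespace ALC

variable {A B : ℤ} {V : ValuationSubring ℂ}

lemma v_int (V : ValuationSubring ℂ) (n : ℤ) : V.valuation (n : ℂ) ≤ 1 :=
  (V.valuation_le_one_iff _).2 (intCast_mem V n)

lemma wC_mem (h : CQ A B) (V : ValuationSubring ℂ) : wC A B ∈ V := by
  rcases V.mem_or_inv_mem (wC A B) with h1 | h1
  · exact h1
  · have h0 : wC A B ≠ 0 := _root_.Pool.Agent.MUX.wC_ne_zero h
    have h2 : wC A B = (A : ℂ) * (wC A B)⁻¹ + (B : ℂ) := by
      have h3 := _root_.Pool.Agent.MUX.wC_sq h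
      field_simp
      linear_combination h3
    rw [h2]
    exact add_mem (mul_mem (intCast_mem V A) h1) (intCast_mem V B)

lemma v_emb (h : CQ A B) (V : ValuationSubring ℂ) (x : OO A B) : V.valuation (emb x) ≤ 1 := by
  refine (V.valuation_le_one_iff _).2 ?_
  unfold emb
  exact add_mem (intCast_mem V _) (mul_mem (intCast_mem V _) (wC_mem h V))

lemma v_odd (h2 : V.valuation (2 : ℂ) < 1) {n : ℤ} (hn : ¬ (2 : ℤ) ∣ n) :
    V.valuation (n : ℂ) = 1 := by
  refine le_antisymm (v_int V n) (not_lt.1 fun hlt => ?_)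
  obtain ⟨k, hk⟩ : ∃ k : ℤ, n = 2 * k + 1 := ⟨n / 2, by omega⟩
  have h3 : (n : ℂ) - 2 * (k : ℂ) = 1 := by
    rw [hk]; push_cast; ring
  have h4 : V.valuation (2 * (k : ℂ)) < 1 := by
    rw [map_mul]
    exact lt_of_le_of_lt (mul_le_of_le_one_right' (v_int V k)) h2
  have h6 := Valuation.map_sub_lt V.valuation hlt h4
  rw [h3, map_one] at h6
  exact lt_irrefl _ h6

lemma emb_mul_star (h : CQ A B) (x : OO A B) : emb x * emb (star x) = ((nm x : ℤ) : ℂ) := by
  rw [← _root_.Pool.Agent.MUX.emb_mul h, mul_star, _root_.Pool.Agent.MUX.emb_intCast h]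

lemma v_unit (h : CQ A B) (h2 : V.valuation (2 : ℂ) < 1) {x : OO A B} (hx : ¬ (2 : ℤ) ∣ nm x) :
    V.valuation (emb x) = 1 := by
  have h1 := congrArg V.valuation (emb_mul_star h x)
  rw [map_mul, v_odd h2 hx] at h1
  refine le_antisymm (v_emb h V x) (not_lt.1 fun hlt => ?_)
  have h3 : V.valuation (emb x) * V.valuation (emb (star x)) < 1 :=
    lt_of_le_of_lt (mul_le_of_le_one_right' (v_emb h V (star x))) hlt
  rw [h1] at h3
  exact lt_irrefl _ h3

/-- assembling the structure -/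
lemma mk (h : CQ A B) (h2 : V.valuation (2 : ℂ) < 1) (β α' : OO A B) (n : ℤ) (hn : 1 < n)
    (hodd : ¬ (2 : ℤ) ∣ n) (hnm : (n : ℂ) = emb α' * alB β)
    (hβ : V.valuation (emb β) ^ 2 = V.valuation (2 : ℂ)) :
    ∃ (β : OO A B) (N : ℕ), CtxB A B V β N ∧ V.valuation (emb β) ^ 2 = V.valuation (2 : ℂ) := by
  obtain ⟨N, hN⟩ : ∃ N : ℕ, (N : ℤ) = n := ⟨n.toNat, by omega⟩
  have hNC : (N : ℂ) = (n : ℂ) := by
    rw [← hN]
    push_cast
    rfl
  have h3 : V.valuation (3 : ℂ) = 1 := by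
    have := v_odd (V := V) h2 (n := 3) (by norm_num)
    simpa using this
  have h20 : V.valuation (2 : ℂ) ≠ 0 := by
    rw [Ne, map_eq_zero]
    norm_num
  refine ⟨β, N, ⟨h, h2, h3, ?_, ⟨α', ?_⟩, ?_, by omega, ?_⟩, hβ⟩
  · rw [← not_le]
    intro hle
    have h1 : V.valuation (2 : ℂ) ≤ V.valuation (2 : ℂ) * V.valuation (2 : ℂ) := by
      calc V.valuation (2 : ℂ) = V.valuation (emb β) * V.valuation (emb β) := by
            rw [← sq, hβ]
        _ ≤ V.valuation (2 : ℂ) * V.valuation (2 : ℂ) := mul_le_mul' hle hle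
    have h4 : V.valuation (2 : ℂ) * V.valuation (2 : ℂ) < V.valuation (2 : ℂ) * 1 :=
      (mul_lt_mul_iff_right₀ (zero_lt_iff.2 h20)).2 h2
    rw [mul_one] at h4
    exact absurd h1 (not_le.2 h4)
  · rw [hNC]; exact hnm
  · rw [← Int.odd_coe_nat, hN]
    exact Int.not_even_iff_odd.1 fun he => hodd he.two_dvd
  · rw [hNC]
    exact v_odd h2 hodd

end ALC

open _root_.Pool.Agent.N2R.ALC in
theorem tr_ALC : Sr_ALC := by
  intro A B V P hQ hD hV hP
  have hv2 : V.valuation (2 : ℂ) < 1 := by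
    have h1 := (hV _).2 hP
    rw [MUX.emb_natCast hQ] at h1
    have h2 := (ValuationSubring.mem_nonunits_iff V).1 h1
    simpa using h2
  have hw := MUX.wC_sq hQ
  have hneg := hQ.neg
  rcases hQ.hB with hB | hB
  swap
  · subst hB
    omega
  subst hB
  obtain ⟨hsq, h4⟩ := hQ.fund0 rfl
  have hw' : wC A 0 * wC A 0 = (A : ℂ) := by
    rw [hw]
    push_cast
    ring
  by_cases hA : (2 : ℤ) ∣ A
  · obtain ⟨a, ha⟩ := hA
    have h2a : ¬ (2 : ℤ) ∣ a := by
      rintro ⟨c, hc⟩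
      have h2 := hsq 2 ⟨c, by rw [ha, hc]; ring⟩
      exact absurd (Int.isUnit_iff.1 h2) (by norm_num)
    refine ALC.mk hQ hv2 ⟨0, 1⟩ ⟨1, -3⟩ (1 - 9 * A) (by omega) (by omega) ?_ ?_
    · unfold alB emb
      push_cast
      linear_combination (9 : ℂ) * hw'
    · rw [MUX.emb_w, sq, ← map_mul, hw', ha]
      push_cast
      rw [map_mul, v_odd hv2 h2a, mul_one]
  · obtain ⟨k, hk⟩ : ∃ k : ℤ, A + 1 = 4 * k := ⟨(A + 1) / 4, by omega⟩
    refine ALC.mk hQ hv2 ⟨1, 1⟩ ⟨4, -3⟩ (16 - 9 * A) (by omega) (by omega) ?_ ?_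
    · unfold alB emb
      push_cast
      linear_combination (9 : ℂ) * hw'
    · have hu : V.valuation (emb (⟨2 * k, 1⟩ : OO A 0)) = 1 := by
        refine v_unit hQ hv2 ?_
        have h8 : nm (⟨2 * k, 1⟩ : OO A 0) = 4 * k ^ 2 - A := by
          unfold nm
          simp only
          ring
        rw [h8]
        omega
      have h5 : ((A : ℤ) : ℂ) + 1 = 4 * (k : ℂ) := by exact_mod_cast hk
      have h6 : emb (⟨1, 1⟩ : OO A 0) * emb (⟨1, 1⟩ : OO A 0) =
          2 * emb (⟨2 * k, 1⟩ : OO A 0) := by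
        unfold emb
        push_cast
        linear_combination hw' + h5
      rw [sq, ← map_mul, h6, map_mul, hu, mul_one]

end

end Pool.Agent.N2R


end

section

/-!
# MUX-2N, block R2N, module TP2: the points of order a power of 2, 2 inert
-/

set_option autoImplicit false

namespace Pool.Agent.N2R

open _root_.MU3 _root_.Pool.Agent.MU3A _root_.Pool.Agent.MU3B _root_.Pool.Agent.RI _root_.Pool.Agent.MUX _root_.Pool.Agent.MUXU
open _root_.Pool.Agent.NS (xu)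

noncomputable section

namespace TP2

variable {V : ValuationSubring ℂ} {x a c : ℂ}

lemma vc (ha : V.valuation a ≤ V.valuation (2 : ℂ))
    (hc : V.valuation c = 1) (hx : V.valuation (2 : ℂ) * V.valuation x < 1) :
    V.valuation (a * x + c) = 1 := by
  rw [← hc]
  apply Valuation.map_add_eq_of_lt_right
  rw [map_mul, hc]
  exact lt_of_le_of_lt (mul_le_mul_left ha _) hx

lemma v4 : V.valuation (4 * x ^ 3) = V.valuation (2 : ℂ) ^ 2 * V.valuation x ^ 3 := by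
  rw [show (4 : ℂ) * x ^ 3 = 2 ^ 2 * x ^ 3 by norm_num, map_mul, map_pow, map_pow]

lemma vD (ha : V.valuation a ≤ V.valuation (2 : ℂ))
    (hc : V.valuation c = 1) (hx : V.valuation (2 : ℂ) * V.valuation x < 1)
    (hx3 : V.valuation (2 : ℂ) ^ 2 * V.valuation x ^ 3 < 1) :
    V.valuation (4 * x ^ 3 + (a * x + c) ^ 2) = 1 := by
  have h1 : V.valuation ((a * x + c) ^ 2) = 1 := by rw [map_pow, vc ha hc hx, one_pow]
  rw [← h1]
  apply Valuation.map_add_eq_of_lt_right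
  rw [v4, h1]
  exact hx3

lemma small (h2 : V.valuation (2 : ℂ) < 1) (hx : V.valuation x ≤ 1) :
    V.valuation (2 : ℂ) * V.valuation x < 1 ∧
      V.valuation (2 : ℂ) ^ 2 * V.valuation x ^ 3 < 1 := by
  constructor
  · calc V.valuation (2 : ℂ) * V.valuation x ≤ V.valuation (2 : ℂ) * 1 :=
        mul_le_mul_right hx _
      _ < 1 := by rw [mul_one]; exact h2
  · calc V.valuation (2 : ℂ) ^ 2 * V.valuation x ^ 3 ≤ V.valuation (2 : ℂ) ^ 2 * 1 :=
        mul_le_mul_right (pow_le_one' hx 3) _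
      _ < 1 := by rw [mul_one]; exact pow_lt_one₀ zero_le h2 two_ne_zero

/-- the linear term for `1 ≤ θ t` -/
lemma vle (ha : V.valuation a ≤ V.valuation (2 : ℂ)) (hc : V.valuation c = 1)
    (hx : 1 ≤ V.valuation (2 : ℂ) * V.valuation x) :
    V.valuation ((a * x + c) ^ 2) ≤ V.valuation (2 : ℂ) ^ 2 * V.valuation x ^ 2 := by
  rw [map_pow, ← mul_pow]
  apply pow_le_pow_left₀ zero_le
  apply Valuation.map_add_le
  · rw [map_mul]
    exact mul_le_mul_left ha _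
  · rw [hc]
    exact hx

lemma two_pos : 0 < V.valuation (2 : ℂ) := by
  rw [zero_lt_iff]
  exact (Valuation.ne_zero_iff _).2 two_ne_zero

lemma pow_lt_aux {t : V.ValueGroup} (ht : 1 < t) :
    V.valuation (2 : ℂ) ^ 2 * t ^ 2 < V.valuation (2 : ℂ) ^ 2 * t ^ 3 :=
  mul_lt_mul_of_pos_left (pow_lt_pow_right₀ ht (by norm_num)) (pow_pos two_pos 2)

/-- the points of order two -/
lemma base (h2 : V.valuation (2 : ℂ) < 1) (ha : V.valuation a ≤ V.valuation (2 : ℂ))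
    (hc : V.valuation c = 1) (h : 4 * x ^ 3 + (a * x + c) ^ 2 = 0) :
    1 < V.valuation x ∧ V.valuation x ^ 3 * V.valuation (2 : ℂ) ^ 2 = 1 := by
  have ht : 1 < V.valuation x := by
    by_contra ht
    obtain ⟨h3, h4⟩ := small h2 (not_lt.1 ht)
    have h5 := vD ha hc h3 h4
    rw [h, map_zero] at h5
    exact zero_ne_one h5
  refine ⟨ht, ?_⟩
  have h6 : V.valuation (4 * x ^ 3) = V.valuation ((a * x + c) ^ 2) := by
    rw [show 4 * x ^ 3 = -((a * x + c) ^ 2) by linear_combination h, Valuation.map_neg]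
  rw [v4] at h6
  have h7 : V.valuation (2 : ℂ) * V.valuation x < 1 := by
    by_contra h7
    have h8 := vle ha hc (not_lt.1 h7)
    rw [← h6] at h8
    exact absurd (pow_lt_aux ht) (not_lt.2 h8)
  rw [mul_comm, h6, map_pow, vc ha hc h7, one_pow]

/-- halving -/
lemma step {b : ℂ} (h2 : V.valuation (2 : ℂ) < 1) (ha : V.valuation a ≤ V.valuation (2 : ℂ))
    (hc : V.valuation c = 1) (hb : 1 < V.valuation b)
    (hb3 : V.valuation b ^ 3 * V.valuation (2 : ℂ) ^ 2 ≤ 1)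
    (h : b * (4 * x ^ 3 + (a * x + c) ^ 2) = x ^ 4 - a * c * x ^ 2 - 2 * c ^ 2 * x) :
    1 < V.valuation x ∧ V.valuation b = V.valuation x ^ 4 := by
  have v0 := two_pos (V := V)
  have e1 : V.valuation (a * c * x ^ 2) ≤ V.valuation (2 : ℂ) * V.valuation x ^ 2 := by
    rw [map_mul, map_mul, hc, mul_one, map_pow]
    exact mul_le_mul_left ha _
  have e2 : V.valuation (2 * c ^ 2 * x) = V.valuation (2 : ℂ) * V.valuation x := by
    rw [map_mul, map_mul, map_pow, hc, one_pow, mul_one]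
  have hv := congrArg V.valuation h
  rw [map_mul] at hv
  have ht : 1 < V.valuation x := by
    by_contra ht
    have ht := not_lt.1 ht
    obtain ⟨h3, h4⟩ := small h2 ht
    rw [vD ha hc h3 h4, mul_one] at hv
    have h5 : V.valuation (x ^ 4 - a * c * x ^ 2 - 2 * c ^ 2 * x) ≤ 1 := by
      apply Valuation.map_sub_le
      · apply Valuation.map_sub_le
        · rw [map_pow]
          exact pow_le_one' ht 4
        · refine e1.trans ?_
          calc V.valuation (2 : ℂ) * V.valuation x ^ 2 ≤ V.valuation (2 : ℂ) * 1 :=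
              mul_le_mul_right (pow_le_one' ht 2) _
            _ ≤ 1 := by rw [mul_one]; exact h2.le
      · rw [e2]
        exact h3.le
    rw [← hv] at h5
    exact absurd hb (not_lt.2 h5)
  refine ⟨ht, ?_⟩
  set t := V.valuation x with htd
  set θ := V.valuation (2 : ℂ) with hθ
  have t0 : 0 < t := lt_trans zero_lt_one ht
  have e3 : V.valuation (x ^ 4 - a * c * x ^ 2 - 2 * c ^ 2 * x) = t ^ 4 := by
    have h5 : V.valuation (x ^ 4 - a * c * x ^ 2) = t ^ 4 := by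
      rw [Valuation.map_sub_eq_of_lt_left, map_pow]
      rw [map_pow]
      refine lt_of_le_of_lt e1 ?_
      calc θ * t ^ 2 ≤ 1 * t ^ 2 := mul_le_mul_left h2.le _
        _ = t ^ 2 := one_mul _
        _ < t ^ 4 := pow_lt_pow_right₀ ht (by norm_num)
    rw [Valuation.map_sub_eq_of_lt_left, h5]
    rw [e2, h5]
    calc θ * t ≤ 1 * t := mul_le_mul_left h2.le _
      _ = t ^ 1 := by rw [one_mul, pow_one]
      _ < t ^ 4 := pow_lt_pow_right₀ ht (by norm_num)
  rw [e3] at hv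
  have h7 : θ ^ 2 * t ^ 3 < 1 := by
    by_contra h7
    have h7 := not_lt.1 h7
    have h8 : V.valuation (4 * x ^ 3 + (a * x + c) ^ 2) ≤ θ ^ 2 * t ^ 3 := by
      apply Valuation.map_add_le
      · rw [v4]
      · rcases le_or_gt 1 (θ * t) with h9 | h9
        · exact (vle ha hc h9).trans (pow_lt_aux ht).le
        · rw [map_pow, vc ha hc h9, one_pow]
          exact h7
    have h9 : t ^ 4 ≤ V.valuation b * (θ ^ 2 * t ^ 3) := by
      rw [← hv]
      exact mul_le_mul_right h8 _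
    have h10 : t ≤ V.valuation b * θ ^ 2 := by
      have h11 : t * t ^ 3 ≤ (V.valuation b * θ ^ 2) * t ^ 3 := by
        calc t * t ^ 3 = t ^ 4 := by rw [pow_succ' t 3]
          _ ≤ V.valuation b * (θ ^ 2 * t ^ 3) := h9
          _ = (V.valuation b * θ ^ 2) * t ^ 3 := by rw [mul_assoc]
      exact le_of_mul_le_mul_right h11 (pow_pos t0 3)
    have h12 : t ^ 3 ≤ (V.valuation b ^ 3 * θ ^ 2) * θ ^ 4 := by
      calc t ^ 3 ≤ (V.valuation b * θ ^ 2) ^ 3 := pow_le_pow_left₀ zero_le h10 3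
        _ = (V.valuation b ^ 3 * θ ^ 2) * θ ^ 4 := by
            rw [mul_pow, ← pow_mul, mul_assoc, ← pow_add]
    have h13 : (V.valuation b ^ 3 * θ ^ 2) * θ ^ 4 ≤ 1 * θ ^ 4 := mul_le_mul_left hb3 _
    have h14 : θ ^ 4 < 1 := pow_lt_one₀ zero_le h2 (by norm_num)
    have h15 : 1 < t ^ 3 := one_lt_pow₀ ht (by norm_num)
    rw [one_mul] at h13
    exact absurd (lt_of_lt_of_le h15 (h12.trans h13)) (not_lt.2 h14.le)
  have h8 : θ * t < 1 := by
    by_contra h8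
    have h9 : 1 ≤ θ ^ 2 * t ^ 2 := by
      rw [← mul_pow]
      exact one_le_pow₀ (not_lt.1 h8)
    exact absurd (h9.trans (pow_lt_aux ht).le) (not_le.2 h7)
  rw [vD ha hc h8 h7, mul_one] at hv
  exact hv

end TP2

open _root_.Pool.Agent.N2R.TP2 in
theorem tr_TP2 (h : Sr_DU2) : Sr_TP2 := by
  intro V L u e a c h2 ha hc hD j
  induction j with
  | zero =>
    intro z hz hz0
    rw [pow_zero, one_mul] at hz0
    rw [zero_add, pow_one] at hz
    obtain ⟨h3, h4⟩ := base h2 ha hc ((h L u e a c hD z hz0).1 hz)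
    exact ⟨h3, by rw [pow_zero, mul_one]; exact h4⟩
  | succ j ih =>
    intro z hz hz0
    have hz1 : z ∉ L.lattice := by
      intro h1
      apply hz0
      have h3 := L.lattice.nsmul_mem h1 (2 ^ (j + 1))
      rw [nsmul_eq_mul] at h3
      exact_mod_cast h3
    have hz2 : 2 * z ∉ L.lattice := by
      intro h1
      apply hz0
      have h3 := L.lattice.nsmul_mem h1 (2 ^ j)
      rw [nsmul_eq_mul] at h3
      have h4 : (2 : ℂ) ^ (j + 1) * z = ((2 ^ j : ℕ) : ℂ) * (2 * z) := by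
        push_cast
        ring
      rw [h4]
      exact h3
    have h5 := ih (2 * z) (by
      have h4 : (2 : ℂ) ^ (j + 1) * (2 * z) = 2 ^ (j + 1 + 1) * z := by ring
      rw [h4]
      exact hz) (by
      have h4 : (2 : ℂ) ^ j * (2 * z) = 2 ^ (j + 1) * z := by ring
      rw [h4]
      exact hz0)
    obtain ⟨hb, hb2⟩ := h5
    have hb3 : V.valuation (xu L u e (2 * z)) ^ 3 * V.valuation (2 : ℂ) ^ 2 ≤ 1 := by
      rw [← hb2]
      apply mul_le_mul_left
      apply pow_le_pow_right₀ hb.le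
      have := Nat.one_le_pow j 4 (by norm_num)
      omega
    obtain ⟨h6, h7⟩ := step h2 ha hc hb hb3 ((h L u e a c hD z hz1).2 hz2)
    refine ⟨h6, ?_⟩
    rw [h7, ← pow_mul] at hb2
    rw [← hb2]
    congr 2
    rw [pow_succ]
    ring

end

end Pool.Agent.N2R


end

section

/-!
# MUX-2N, block R, module CHT: addition formulas in Deuring form (helper91)

Model: `Pool/Agent/NS/RN_CHT.lean` (helper80). `℘ = u² X + e`, `℘' = u³ T`, `2 Y = T - a X - c`;
the slope of the chord (tangent) in Deuring form is `m = M / u - a / 2`, `M` the slope of `b_ADD`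
(`b_DUP`).
-/

set_option autoImplicit false

open WeierstrassCurve Polynomial

namespace Pool.Agent.N2R

open _root_.MU3 _root_.Pool.Agent.MU3A _root_.Pool.Agent.MU3B _root_.Pool.Agent.RI _root_.Pool.Agent.MUX _root_.Pool.Agent.MUXU
open _root_.Pool.Agent.MUXV (InK tX)
open _root_.Pool.Agent.MUX2 (GRG)
open _root_.Pool.Agent.NS (xu)
open _root_.Pool.Agent.N2 (WT yt et GoodT CaseT)

noncomputable section

namespace CHT

/-- the algebra: from the Weierstrass form (slope `M`) to the Deuring form (`m = M / u - a / 2`) -/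
lemma alg_x {u e a P Q S M m : ℂ} (hu : u ≠ 0) (he : 12 * e = u ^ 2 * a ^ 2)
    (hS : S + P + Q = M ^ 2) (hm : m = M / u - a / 2) :
    (S - e) / u ^ 2 = m ^ 2 + a * m - (P - e) / u ^ 2 - (Q - e) / u ^ 2 := by
  have hS' : S = M ^ 2 - P - Q := by linear_combination hS
  have he' : e = u ^ 2 * a ^ 2 / 12 := by linear_combination he / 12
  rw [hm, hS', he']
  field_simp
  ring

lemma alg_y {u e a c P S P' S' M m : ℂ} (hu : u ≠ 0) (hS : S' + P' = -2 * M * (S - P))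
    (hm : m = M / u - a / 2) :
    (S' / u ^ 3 - a * ((S - e) / u ^ 2) - c) / 2 =
      -((P' / u ^ 3 - a * ((P - e) / u ^ 2) - c) / 2 +
        m * ((S - e) / u ^ 2 - (P - e) / u ^ 2)) - a * ((S - e) / u ^ 2) - c := by
  have hS' : S' = -2 * M * (S - P) - P' := by linear_combination hS
  rw [hm, hS']
  field_simp
  ring

end CHT

open _root_.Pool.Agent.N2R.CHT in
theorem tr_CHT (hDEF : Sr_DEF) : Sr_CHT := by
  intro L u e a c hL
  obtain ⟨he, -, -, hg2, -, -, -⟩ := hDEF L u e a c hL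
  have hu : u ≠ 0 := hL.u0
  refine ⟨fun z w hz hw hzw hzmw => ?_, fun z h2z => ?_⟩
  · obtain ⟨h1, h2⟩ := b_ADD L w z hw hz hzw hzmw
    have hne : L.weierstrassP z - L.weierstrassP w ≠ 0 := by
      intro h0
      rcases b_NEQ L w z hw hz (sub_eq_zero.1 h0) with h | h
      · exact hzmw h
      · exact hzw h
    have hXX : xu L u e z - xu L u e w = (L.weierstrassP z - L.weierstrassP w) / u ^ 2 := by
      unfold xu
      ring
    have hm : (yt L u e a c z - yt L u e a c w) / (xu L u e z - xu L u e w) =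
        (L.derivWeierstrassP z - L.derivWeierstrassP w) /
          (2 * (L.weierstrassP z - L.weierstrassP w)) / u - a / 2 := by
      have hYY : yt L u e a c z - yt L u e a c w =
          ((L.derivWeierstrassP z - L.derivWeierstrassP w) / u ^ 3 -
            a * (xu L u e z - xu L u e w)) / 2 := by
        unfold yt et
        ring
      rw [hYY, hXX]
      field_simp
    refine ⟨?_, ?_, ?_⟩
    · rw [hXX]
      exact div_ne_zero hne (pow_ne_zero 2 hu)
    · exact alg_x hu he h1 hm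
    · exact alg_y (e := e) hu h2 hm
  · obtain ⟨h1, h2⟩ := b_DUP L z h2z
    have hz : z ∉ L.lattice := by
      intro h
      apply h2z
      rw [two_mul]
      exact add_mem h h
    have hne : L.derivWeierstrassP z ≠ 0 := fun h0 => h2z ((b_ZER L z hz).1 h0)
    have hTT : 2 * yt L u e a c z + a * xu L u e z + c = L.derivWeierstrassP z / u ^ 3 := by
      unfold yt et
      ring
    have hy : 2 * yt L u e a c z + a * xu L u e z + c ≠ 0 := by
      rw [hTT]
      exact div_ne_zero hne (pow_ne_zero 3 hu)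
    have hT : u ^ 4 * (6 * xu L u e z ^ 2 + a ^ 2 * xu L u e z + a * c) =
        6 * L.weierstrassP z ^ 2 - L.g₂ / 2 := by
      have hx : L.weierstrassP z = u ^ 2 * xu L u e z + e := by
        unfold xu
        field_simp
        ring
      have he' : e = u ^ 2 * a ^ 2 / 12 := by linear_combination he / 12
      rw [hg2, hx, he']
      ring
    have hm : (3 * xu L u e z ^ 2 - a * yt L u e a c z) /
        (2 * yt L u e a c z + a * xu L u e z + c) =
        (6 * L.weierstrassP z ^ 2 - L.g₂ / 2) / (2 * L.derivWeierstrassP z) / u - a / 2 := by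
      rw [← hT]
      have h3 : 3 * xu L u e z ^ 2 - a * yt L u e a c z =
          ((6 * xu L u e z ^ 2 + a ^ 2 * xu L u e z + a * c) -
            a * (L.derivWeierstrassP z / u ^ 3)) / 2 := by
        rw [← hTT]
        ring
      rw [h3, hTT]
      field_simp
    refine ⟨hy, ?_, ?_⟩
    · have h1' : L.weierstrassP (2 * z) + L.weierstrassP z + L.weierstrassP z =
          ((6 * L.weierstrassP z ^ 2 - L.g₂ / 2) / (2 * L.derivWeierstrassP z)) ^ 2 := by
        rw [← h1]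
        ring
      have h4 := alg_x hu he h1' hm
      unfold xu at h4 ⊢
      rw [h4]
      ring
    · exact alg_y (e := e) hu h2 hm

end

end Pool.Agent.N2R


end

section

/-!
# MUX-2N, block R, module TRA (helper52): translation by the point of order three `(0, 0)`
-/

set_option autoImplicit false

namespace Pool.Agent.N2R

open _root_.MU3 _root_.Pool.Agent.MU3A _root_.Pool.Agent.MU3B _root_.Pool.Agent.RI _root_.Pool.Agent.MUX _root_.Pool.Agent.MUXU
open _root_.Pool.Agent.NS (xu)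
open _root_.Pool.Agent.N2 (WT yt et GoodT CaseT)

theorem tr_TRA (h : Sr_DEF) : Sr_TRA := by
  intro L u e a c w hd hw z hz hzw hzw'
  obtain ⟨h12, -, -, -, -, -, -⟩ := h L u e a c hd
  have hu := hd.u0
  have hX0 : L.weierstrassP z - e ≠ 0 := by
    intro h0
    rcases b_NEQ L w z hw.ne hz (by rw [hw.P]; linear_combination h0) with h1 | h1
    · exact hzw' h1
    · exact hzw h1
  have hX : xu L u e z ≠ 0 := div_ne_zero hX0 (pow_ne_zero 2 hu)
  -- the curve equation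
  have heq := hd.eq z hz
  -- addition
  have hP : ∀ y, L.weierstrassP y = u ^ 2 * xu L u e y + e := by
    intro y
    unfold xu
    field_simp
    ring
  have hD : L.derivWeierstrassP z = u ^ 3 * (2 * yt L u e a c z + a * xu L u e z + c) := by
    unfold yt et
    field_simp
    ring
  have hE : yt L u e a c z ^ 2 + a * xu L u e z * yt L u e a c z + c * yt L u e a c z =
      xu L u e z ^ 3 := by
    have h1 : L.derivWeierstrassP z / u ^ 3 = 2 * yt L u e a c z + a * xu L u e z + c := by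
      rw [hD]
      field_simp
    rw [h1] at heq
    linear_combination heq / 4
  have hneg : -w ∉ L.lattice := fun h0 => hw.ne (by simpa using neg_mem h0)
  have key : ∀ Q s : ℂ, Q ∉ L.lattice → z + Q ∉ L.lattice → z - Q ∉ L.lattice →
      L.weierstrassP Q = e → L.derivWeierstrassP Q = u ^ 3 * s →
      4 * xu L u e (z + Q) * xu L u e z ^ 2 =
        (2 * yt L u e a c z + a * xu L u e z + c - s) ^ 2 - 4 * xu L u e z ^ 3 -
          a ^ 2 * xu L u e z ^ 2 := by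
    intro Q s hQ h1 h2 hPQ hDQ
    have h3 := (b_ADD L Q z hQ hz h1 h2).1
    rw [hPQ, hDQ, hD, hP (z + Q), hP z] at h3
    have h4 : (u ^ 3 * (2 * yt L u e a c z + a * xu L u e z + c) - u ^ 3 * s) /
        (2 * (u ^ 2 * xu L u e z + e - e)) =
        u * (2 * yt L u e a c z + a * xu L u e z + c - s) / (2 * xu L u e z) := by
      field_simp
      ring
    rw [h4] at h3
    have h5 : u ^ 2 * (4 * xu L u e (z + Q) * xu L u e z ^ 2) =
        u ^ 2 * ((2 * yt L u e a c z + a * xu L u e z + c - s) ^ 2 - 4 * xu L u e z ^ 3 -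
          a ^ 2 * xu L u e z ^ 2) := by
      have h6 : (u ^ 2 * xu L u e (z + Q) + e + (u ^ 2 * xu L u e z + e) + e) *
          (4 * xu L u e z ^ 2) =
          u ^ 2 * (2 * yt L u e a c z + a * xu L u e z + c - s) ^ 2 := by
        rw [h3]
        field_simp
        ring
      linear_combination h6 - xu L u e z ^ 2 * h12
    exact mul_left_cancel₀ (pow_ne_zero 2 hu) h5
  have k1 := key w c hw.ne hzw hzw' hw.P hw.D
  have k2 := key (-w) (-c) hneg (by simpa [sub_eq_add_neg] using hzw')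
    (by simpa [sub_neg_eq_add] using hzw)
    (by rw [PeriodPair.weierstrassP_neg, hw.P])
    (by rw [PeriodPair.derivWeierstrassP_neg, hw.D]; ring)
  rw [← sub_eq_add_neg] at k2
  have r1 : xu L u e (z + w) * xu L u e z ^ 2 = -(c * yt L u e a c z) := by
    linear_combination k1 / 4 + hE
  refine ⟨hX, r1, ?_⟩
  have r2 : xu L u e (z - w) * xu L u e z ^ 2 =
      c * (yt L u e a c z + a * xu L u e z + c) := by
    linear_combination k2 / 4 + hE
  have r3 : xu L u e z ^ 3 * (xu L u e z * xu L u e (z + w) * xu L u e (z - w)) =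
      xu L u e z ^ 3 * (-c ^ 2) := by
    have : xu L u e z ^ 3 * (xu L u e z * xu L u e (z + w) * xu L u e (z - w)) =
        (xu L u e (z + w) * xu L u e z ^ 2) * (xu L u e (z - w) * xu L u e z ^ 2) := by ring
    rw [this, r1, r2]
    linear_combination -c ^ 2 * hE
  exact mul_left_cancel₀ (pow_ne_zero 3 hX) r3

end Pool.Agent.N2R


end

section

/-!
# MUX-2N, block R, module TOR: points of order prime to the residue characteristic have integral
coordinates (helper83)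
-/

set_option autoImplicit false

open WeierstrassCurve Polynomial

namespace Pool.Agent.N2R

open _root_.MU3 _root_.Pool.Agent.MU3A _root_.Pool.Agent.MU3B _root_.Pool.Agent.RI _root_.Pool.Agent.MUX _root_.Pool.Agent.MUXU
open _root_.Pool.Agent.MUXV (InK tX)
open _root_.Pool.Agent.MUX2 (GRG)
open _root_.Pool.Agent.NS (xu)
open _root_.Pool.Agent.N2 (WT yt et GoodT CaseT)

noncomputable section

namespace TOR

open _root_.Pool.Agent.MU3.Val _root_.Pool.Agent.MUXG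

variable {V : ValuationSubring ℂ} {W : WeierstrassCurve.Affine ℂ}

/-- multiples of a point in the kernel of reduction -/
lemma zc_nsmul (hW : IntG V.valuation W) {P : W.Point} (hP : InE V.valuation P) (n : ℕ) :
    InE V.valuation (n • P) ∧
    V.valuation (zc (n • P) - n * zc P) ≤ V.valuation (zc P) ^ 2 ∧
      V.valuation (zc (n • P)) ≤ V.valuation (zc P) := by
  classical
  have hlt : V.valuation (zc P) < 1 := (tg_NEG ℂ _ V.valuation W hW _ hP).1
  have hsq : V.valuation (zc P) ^ 2 ≤ V.valuation (zc P) := by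
    rw [pow_two]; exact mul_le_of_le_one_right' hlt.le
  induction n with
  | zero =>
    rw [zero_nsmul, zc_zero]
    refine ⟨inE_zero, ?_, ?_⟩
    · simp
    · simp
  | succ n ih =>
    obtain ⟨ih0, ih1, ih2⟩ := ih
    have h3 := tg_ADD tg_VAL tg_NEG ℂ _ V.valuation W hW _ _ ih0 hP
    rw [max_eq_right ih2] at h3
    rw [succ_nsmul]
    have h4 : V.valuation (zc (n • P + P) - ((n + 1 : ℕ) : ℂ) * zc P) ≤
        V.valuation (zc P) ^ 2 := by
      have e2 : zc (n • P + P) - ((n + 1 : ℕ) : ℂ) * zc P =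
          (zc (n • P + P) - zc (n • P) - zc P) + (zc (n • P) - n * zc P) := by push_cast; ring
      rw [e2]
      exact v_add_le h3.2 ih1
    refine ⟨h3.1, h4, ?_⟩
    have e3 : zc (n • P + P) = (zc (n • P + P) - ((n + 1 : ℕ) : ℂ) * zc P) +
        ((n + 1 : ℕ) : ℂ) * zc P := by ring
    rw [e3]
    exact v_add_le (h4.trans hsq) (v_mul_le_right (v_nat _ _) le_rfl)

/-- no torsion of order `n`, `v n = 1`, in the kernel of reduction -/
lemma eq_zero (hW : IntG V.valuation W) {P : W.Point} (hP : InE V.valuation P) {n : ℕ}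
    (hn : V.valuation (n : ℂ) = 1) (h : n • P = 0) : P = 0 := by
  obtain ⟨hlt, h0, -⟩ := tg_NEG ℂ _ V.valuation W hW _ hP
  obtain ⟨-, h1, -⟩ := zc_nsmul hW hP n
  rw [h, zc_zero, zero_sub, Valuation.map_neg, map_mul, hn, one_mul] at h1
  apply h0
  by_contra hne
  have h4 : V.valuation (zc P) ^ 2 < V.valuation (zc P) := by
    rw [pow_two]
    exact mul_lt_of_lt_one_right (zero_lt_iff.2 hne) hlt
  exact absurd h1 (not_le.2 h4)

end TOR

/-- Points of order `n` with `v n = 1` have integral coordinates. -/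
theorem tr_TOR (h : Sr_XIT) : Sr_TOR := by
  intro V L u e a c ha hc hD n hn z hz hnz
  obtain ⟨ξ, hker, -, hsome⟩ := h L u e a c hD
  have hint : Pool.Agent.MUXG.IntG V.valuation (WT a c) := by
    have h0 : V.valuation (0 : ℂ) ≤ 1 := by rw [map_zero]; exact zero_le_one
    exact ⟨ha, h0, hc, h0, h0⟩
  obtain ⟨hns, e1⟩ := hsome z hz
  have hX : V.valuation (xu L u e z) ≤ 1 := by
    by_contra hcon
    rw [not_le] at hcon
    have hE : Pool.Agent.MU3.Val.InE V.valuation (ξ z) := by rw [e1]; exact hcon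
    have h0 := TOR.eq_zero hint hE hn
      (by rw [← map_nsmul, nsmul_eq_mul]; exact (hker _).2 hnz)
    exact hz ((hker z).1 h0)
  exact ⟨hX, (Pool.Agent.MUXG.tg_VAL ℂ _ V.valuation (WT a c) hint _ _ hns).1 hX⟩

end

end Pool.Agent.N2R


end

section

/-!
# MUX-2R, block R2N (helper77): the final statement `SQ_RFIN`, `2` ramified
-/

set_option autoImplicit false

namespace Pool.Agent.N2R

open _root_.MU3 _root_.Pool.Agent.MU3A _root_.Pool.Agent.MU3B _root_.Pool.Agent.RI _root_.Pool.Agent.MUX _root_.Pool.Agent.MUXU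
open _root_.Pool.Agent.N2 (GoodQ CaseR2 SQ_RFIN)

noncomputable section

theorem tr_RFQ (h1 : Sr_ALC) (h2 : Sr_HPD) (h3 : Sr_RED) (h4 : Sr_FLD) (h5 : Sr_UNR) :
    SQ_RFIN := by
  intro A B P V hI hP hV hT
  obtain ⟨β, N, hN, hβ⟩ := h1 A B V P hI.toCQ hI.two hV hP.mem
  refine ⟨fun b L om hL => ?_, fun f hf0 hf2 σ hσ hin y hy => ?_⟩
  · obtain ⟨w₁, w₂, u, a, c, hw1, ⟨hw2, hw23⟩, hne, hu, hdeu, ha, hc, hac⟩ := h2 V L hN.v3
    obtain ⟨r1, -, r3⟩ := h3 A B V β N hN b L om hL.toIsLI _ _ _ _ hdeu ha hc hac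
    have r2 : V.valuation a ^ 2 ≤ V.valuation (2 : ℂ) := by
      have h2p : (0 : V.ValueGroup) < V.valuation (2 : ℂ) :=
        zero_lt_iff.2 ((Valuation.ne_zero_iff _).2 two_ne_zero)
      have e1 : V.valuation a ^ 2 * V.valuation (2 : ℂ) ≤
          V.valuation (2 : ℂ) * V.valuation (2 : ℂ) := by
        have e2 := pow_le_pow_left₀ zero_le r1 2
        rw [mul_pow, hβ, sq (V.valuation (2 : ℂ))] at e2
        exact e2
      exact le_of_mul_le_mul_right e1 h2p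
    obtain ⟨k1, k2, -⟩ := h4 A B b L om hN.cq hL _ _ _ _ _ _ hdeu hw1 hw2 hw23 hu
    refine ⟨u, _, a, c, ⟨hdeu.u0, ⟨w₁, w₂, hw1.three, hw23, hw1.ne, hw2, ?_, ?_, rfl, hu⟩,
      hdeu.eq, r2, r3⟩, k1, k2⟩
    · intro h
      apply hne
      have h6 := L.weierstrassP_add_coe w₁ ⟨w₂ - w₁, h⟩
      rw [← h6]
      congr 1
      show w₂ = w₁ + (w₂ - w₁)
      ring
    · intro h
      apply hne
      have h6 := L.weierstrassP_add_coe (-w₁) ⟨w₂ + w₁, h⟩
      rw [← L.weierstrassP_neg w₁, ← h6]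
      congr 1
      show w₂ = -w₁ + (w₂ + w₁)
      ring
  · refine h5 A B V β N hN hT f (Nat.odd_iff.2 (by omega)) σ hσ (fun y hy hyv => ?_) y hy
    rw [← ValuationSubring.mem_nonunits_iff]
    exact hin y hy ((ValuationSubring.valuation_le_one_iff _ _).1 hyv)

end

end Pool.Agent.N2R


end

section

/-!
# MUX-2N, block R2N, module RFN (helper4): the final statement of the block
-/

set_option autoImplicit false

namespace Pool.Agent.N2R

open _root_.MU3 _root_.Pool.Agent.MU3A _root_.Pool.Agent.MU3B _root_.Pool.Agent.RI _root_.Pool.Agent.MUX _root_.Pool.Agent.MUXU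
open _root_.Pool.Agent.N2 (GoodT CaseT S2_RFIN)

noncomputable section

theorem tr_RFN (h1 : Sr_ALB) (h2 : Sr_HPD) (h3 : Sr_RED) (h4 : Sr_FLD) (h5 : Sr_UNR) :
    Sr_RFN := by
  intro A B V hI hV hT
  obtain ⟨β, N, hN, hβ⟩ := h1 A B V hI.toCQ hI.two hV
  refine ⟨fun b L om hL => ?_, fun f hf0 hf2 σ hσ hin y hy => ?_⟩
  · obtain ⟨w₁, w₂, u, a, c, hw1, ⟨hw2, hw23⟩, hne, hu, hdeu, ha, hc, hac⟩ := h2 V L hN.v3
    obtain ⟨r1, -, r3⟩ := h3 A B V β N hN b L om hL.toIsLI _ _ _ _ hdeu ha hc hac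
    rw [hβ, mul_one] at r1
    obtain ⟨k1, k2, -⟩ := h4 A B b L om hN.cq hL _ _ _ _ _ _ hdeu hw1 hw2 hw23 hu
    refine ⟨u, _, a, c, ⟨hdeu.u0, ⟨w₁, w₂, hw1.three, hw23, hw1.ne, hw2, ?_, ?_, rfl, hu⟩,
      hdeu.eq, r1, r3⟩, k1, k2⟩
    · intro h
      apply hne
      have h6 := L.weierstrassP_add_coe w₁ ⟨w₂ - w₁, h⟩
      rw [← h6]
      congr 1
      show w₂ = w₁ + (w₂ - w₁)
      ring
    · intro h
      apply hne
      have h6 := L.weierstrassP_add_coe (-w₁) ⟨w₂ + w₁, h⟩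
      rw [← L.weierstrassP_neg w₁, ← h6]
      congr 1
      show w₂ = -w₁ + (w₂ + w₁)
      ring
  · refine h5 A B V β N hN hT f (Nat.odd_iff.2 (by omega)) σ hσ (fun y hy hyv => ?_) y hy
    rw [← ValuationSubring.mem_nonunits_iff]
    exact hin y hy ((ValuationSubring.valuation_le_one_iff _ _).1 hyv)

end

end Pool.Agent.N2R


end

section

/-!
# MUX-2N, block R2N, module HPD: a Deuring form with integral coefficients
-/

set_option autoImplicit false

open WeierstrassCurve Polynomial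

namespace Pool.Agent.N2R

open _root_.MU3 _root_.Pool.Agent.MU3A _root_.Pool.Agent.MU3B _root_.Pool.Agent.RI _root_.Pool.Agent.MUX _root_.Pool.Agent.MUXU
open _root_.Pool.Agent.MUXV (InK tX)
open _root_.Pool.Agent.MUX2 (GRG)
open _root_.Pool.Agent.NS (xu)
open _root_.Pool.Agent.N2 (WT yt et GoodT CaseT)

noncomputable section

namespace HPDaux

/-- the four points of order three, up to the sign -/
def pm : Fin 4 → ℤ × ℤ := ![(1, 0), (0, 1), (1, 1), (1, -1)]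

def pz (L : PeriodPair) (q : ℤ × ℤ) : ℂ := ((q.1 : ℂ) * L.ω₁ + (q.2 : ℂ) * L.ω₂) / 3

lemma pz_mem {L : PeriodPair} {q : ℤ × ℤ} (h : pz L q ∈ L.lattice) :
    (3 : ℤ) ∣ q.1 ∧ (3 : ℤ) ∣ q.2 := by
  obtain ⟨m, n, e⟩ := PeriodPair.mem_lattice.mp h
  have h1 := LinearIndependent.pair_iff.mp L.indep (3 * m - q.1) (3 * n - q.2) (by
    unfold pz at e
    simp only [Complex.real_smul]
    push_cast
    linear_combination 3 * e)
  obtain ⟨h2, h3⟩ := h1
  refine ⟨⟨m, ?_⟩, ⟨n, ?_⟩⟩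
  · have h4 : ((q.1 : ℤ) : ℝ) = ((3 * m : ℤ) : ℝ) := by
      push_cast
      linarith
    exact_mod_cast h4
  · have h4 : ((q.2 : ℤ) : ℝ) = ((3 * n : ℤ) : ℝ) := by
      push_cast
      linarith
    exact_mod_cast h4

lemma pz_three (L : PeriodPair) (q : ℤ × ℤ) : 3 * pz L q ∈ L.lattice := by
  have h : 3 * pz L q = (q.1 : ℂ) * L.ω₁ + (q.2 : ℂ) * L.ω₂ := by
    unfold pz
    ring
  rw [h]
  exact PeriodPair.mem_lattice.mpr ⟨q.1, q.2, rfl⟩

lemma pz_sub (L : PeriodPair) (q r : ℤ × ℤ) : pz L q - pz L r = pz L (q.1 - r.1, q.2 - r.2) := by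
  unfold pz
  push_cast
  ring

lemma pz_add (L : PeriodPair) (q r : ℤ × ℤ) : pz L q + pz L r = pz L (q.1 + r.1, q.2 + r.2) := by
  unfold pz
  push_cast
  ring

lemma pm_ne : ∀ i : Fin 4, ¬ ((3 : ℤ) ∣ (pm i).1 ∧ (3 : ℤ) ∣ (pm i).2) := by decide

lemma pm_sub : ∀ i j : Fin 4, i ≠ j →
    ¬ ((3 : ℤ) ∣ (pm i).1 - (pm j).1 ∧ (3 : ℤ) ∣ (pm i).2 - (pm j).2) := by decide

lemma pm_add : ∀ i j : Fin 4, i ≠ j →
    ¬ ((3 : ℤ) ∣ (pm i).1 + (pm j).1 ∧ (3 : ℤ) ∣ (pm i).2 + (pm j).2) := by decide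

lemma others : ∀ i j : Fin 4, i ≠ j → ∃ k l : Fin 4, k ≠ i ∧ k ≠ j ∧ l ≠ i ∧ l ≠ j ∧ k ≠ l := by
  decide

lemma P_inj (L : PeriodPair) {i j : Fin 4} (hij : i ≠ j) :
    L.weierstrassP (pz L (pm i)) ≠ L.weierstrassP (pz L (pm j)) := by
  intro h
  rcases b_NEQ L (pz L (pm j)) (pz L (pm i)) (fun h => pm_ne j (pz_mem h))
    (fun h => pm_ne i (pz_mem h)) h with h1 | h1
  · rw [pz_sub] at h1
    exact pm_sub i j hij (pz_mem h1)
  · rw [pz_add] at h1
    exact pm_add i j hij (pz_mem h1)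

/-- the data of a point of order three -/
lemma data {L : PeriodPair} {w : ℂ} (hw : w ∉ L.lattice) (h3 : 3 * w ∈ L.lattice) :
    L.derivWeierstrassP w ≠ 0 ∧ 12 * L.weierstrassP w * L.derivWeierstrassP w ^ 2 =
      (6 * L.weierstrassP w ^ 2 - L.g₂ / 2) ^ 2 := by
  have h2 : 2 * w ∉ L.lattice := fun h2 => hw (by
    have h4 : w = 3 * w - 2 * w := by ring
    rw [h4]
    exact sub_mem h3 h2)
  have hd : L.derivWeierstrassP w ≠ 0 := fun h0 => h2 ((b_ZER L w hw).1 h0)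
  refine ⟨hd, ?_⟩
  have hp : L.weierstrassP (2 * w) = L.weierstrassP w := by
    have h4 : 2 * w = -w + 3 * w := by ring
    rw [h4]
    exact (L.weierstrassP_add_coe (-w) ⟨3 * w, h3⟩).trans (L.weierstrassP_neg w)
  have h5 := (b_DUP L w h2).1
  rw [hp] at h5
  have h6 : L.weierstrassP w + 2 * L.weierstrassP w = 3 * L.weierstrassP w := by ring
  rw [h6] at h5
  have h7 : (6 * L.weierstrassP w ^ 2 - L.g₂ / 2) / (2 * L.derivWeierstrassP w) *
      (2 * L.derivWeierstrassP w) = 6 * L.weierstrassP w ^ 2 - L.g₂ / 2 :=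
    div_mul_cancel₀ _ (mul_ne_zero two_ne_zero hd)
  rw [← h7, mul_pow, ← h5]
  ring

lemma deu {L : PeriodPair} {w u : ℂ} (hw : w ∉ L.lattice) (h3 : 3 * w ∈ L.lattice)
    (hu : u ≠ 0) : Deu L u (L.weierstrassP w)
      ((6 * L.weierstrassP w ^ 2 - L.g₂ / 2) / (L.derivWeierstrassP w * u))
      (L.derivWeierstrassP w / u ^ 3) := by
  obtain ⟨hd, h1⟩ := data hw h3
  refine ⟨hu, fun z hz => ?_⟩
  have h4 := L.derivWeierstrassP_sq z hz
  have h5 := L.derivWeierstrassP_sq w hw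
  unfold xu
  generalize L.derivWeierstrassP z = D at *
  generalize L.weierstrassP z = X at *
  generalize L.derivWeierstrassP w = d at *
  generalize L.weierstrassP w = p at *
  have e1 : (6 * p ^ 2 - L.g₂ / 2) / (d * u) * ((X - p) / u ^ 2) + d / u ^ 3 =
      ((6 * p ^ 2 - L.g₂ / 2) * (X - p) + d ^ 2) / (d * u ^ 3) := by
    field_simp
  have e2 : (D / u ^ 3) ^ 2 = D ^ 2 / u ^ 6 := by
    rw [div_pow]
    ring
  have e3 : 4 * ((X - p) / u ^ 2) ^ 3 = 4 * (X - p) ^ 3 / u ^ 6 := by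
    rw [div_pow]
    ring
  have e4 : (((6 * p ^ 2 - L.g₂ / 2) * (X - p) + d ^ 2) / (d * u ^ 3)) ^ 2 =
      (12 * p * (X - p) ^ 2 + 2 * (6 * p ^ 2 - L.g₂ / 2) * (X - p) + d ^ 2) / u ^ 6 := by
    rw [div_pow, div_eq_div_iff (pow_ne_zero 2 (mul_ne_zero hd (pow_ne_zero 3 hu)))
      (pow_ne_zero 6 hu)]
    linear_combination (-(X - p) ^ 2 * u ^ 6) * h1
  rw [e1, e2, e3, e4, h4, ← add_div]
  congr 1
  rw [h5]
  ring

end HPDaux

open _root_.Pool.Agent.N2R.HPDaux in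
theorem tr_HPD (hDEF : Sr_DEF) : Sr_HPD := by
  intro V L hv3
  obtain ⟨⟨i, j⟩, -, hmax⟩ := Finset.exists_max_image (Finset.univ : Finset (Fin 4 × Fin 4))
    (fun q => V.valuation (L.weierstrassP (pz L (pm q.2)) - L.weierstrassP (pz L (pm q.1))))
    ⟨(0, 1), Finset.mem_univ _⟩
  have hmax' : ∀ k l : Fin 4,
      V.valuation (L.weierstrassP (pz L (pm l)) - L.weierstrassP (pz L (pm k))) ≤
      V.valuation (L.weierstrassP (pz L (pm j)) - L.weierstrassP (pz L (pm i))) :=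
    fun k l => hmax (k, l) (Finset.mem_univ _)
  have hij : i ≠ j := by
    rintro rfl
    have h1 := hmax' 0 1
    rw [sub_self, map_zero, le_zero_iff, map_eq_zero, sub_eq_zero] at h1
    exact P_inj L (by decide) h1
  obtain ⟨k, l, hki, hkj, hli, hlj, hkl⟩ := others i j hij
  have hne : L.weierstrassP (pz L (pm j)) - L.weierstrassP (pz L (pm i)) ≠ 0 :=
    sub_ne_zero.2 (P_inj L hij.symm)
  obtain ⟨u, hu⟩ := IsAlgClosed.exists_pow_nat_eq
    (L.weierstrassP (pz L (pm j)) - L.weierstrassP (pz L (pm i))) (by norm_num : 0 < 2)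
  have hu0 : u ≠ 0 := by
    rintro rfl
    apply hne
    rw [← hu]
    ring
  have hw : pz L (pm i) ∉ L.lattice := fun h => pm_ne i (pz_mem h)
  have h3 := pz_three L (pm i)
  obtain ⟨hd, -⟩ := data hw h3
  have hD := deu hw h3 hu0
  obtain ⟨-, hc0, -, -, -, -, hroot⟩ := hDEF L _ _ _ _ hD
  set a : ℂ := (6 * L.weierstrassP (pz L (pm i)) ^ 2 - L.g₂ / 2) /
    (L.derivWeierstrassP (pz L (pm i)) * u) with ha
  set c : ℂ := L.derivWeierstrassP (pz L (pm i)) / u ^ 3 with hc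
  have hx : ∀ m : Fin 4, m ≠ i →
      xu L u (L.weierstrassP (pz L (pm i))) (pz L (pm m)) ≠ 0 ∧
      3 * xu L u (L.weierstrassP (pz L (pm i))) (pz L (pm m)) ^ 3 +
        a ^ 2 * xu L u (L.weierstrassP (pz L (pm i))) (pz L (pm m)) ^ 2 +
        3 * a * c * xu L u (L.weierstrassP (pz L (pm i))) (pz L (pm m)) + 3 * c ^ 2 = 0 := by
    intro m hm
    have h0 : xu L u (L.weierstrassP (pz L (pm i))) (pz L (pm m)) ≠ 0 := by
      unfold xu
      exact div_ne_zero (sub_ne_zero.2 (P_inj L hm)) (pow_ne_zero 2 hu0)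
    exact ⟨h0, (hroot _ (fun h => pm_ne m (pz_mem h)) (pz_three L _)).resolve_left h0⟩
  have hxv : ∀ m : Fin 4, V.valuation (xu L u (L.weierstrassP (pz L (pm i))) (pz L (pm m))) ≤
      1 := by
    intro m
    unfold xu
    rw [hu, map_div₀]
    exact div_le_one_of_le₀ (hmax' i m) zero_le
  have hxj : xu L u (L.weierstrassP (pz L (pm i))) (pz L (pm j)) = 1 := by
    unfold xu
    rw [hu, div_self hne]
  have hxinj : ∀ m n : Fin 4, m ≠ n → xu L u (L.weierstrassP (pz L (pm i))) (pz L (pm m)) ≠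
      xu L u (L.weierstrassP (pz L (pm i))) (pz L (pm n)) := by
    intro m n hmn h
    unfold xu at h
    rw [div_left_inj' (pow_ne_zero 2 hu0)] at h
    exact P_inj L hmn (sub_left_inj.1 h)
  have hj := (hx j hij.symm).2
  rw [hxj] at hj
  have hk := (hx k hki).2
  have hl := (hx l hli).2
  have hkj' := hxinj k j hkj
  have hlj' := hxinj l j hlj
  rw [hxj] at hkj' hlj'
  have hkl' := hxinj k l hkl
  have hvk := hxv k
  have hvl := hxv l
  generalize xu L u (L.weierstrassP (pz L (pm i))) (pz L (pm k)) = x at *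
  generalize xu L u (L.weierstrassP (pz L (pm i))) (pz L (pm l)) = y at *
  have q1 : 3 * (x ^ 2 + x + 1) + a ^ 2 * (x + 1) + 3 * a * c = 0 := by
    have : (x - 1) * (3 * (x ^ 2 + x + 1) + a ^ 2 * (x + 1) + 3 * a * c) = 0 := by
      linear_combination hk - hj
    exact (mul_eq_zero.1 this).resolve_left (sub_ne_zero.2 hkj')
  have q2 : 3 * (y ^ 2 + y + 1) + a ^ 2 * (y + 1) + 3 * a * c = 0 := by
    have : (y - 1) * (3 * (y ^ 2 + y + 1) + a ^ 2 * (y + 1) + 3 * a * c) = 0 := by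
      linear_combination hl - hj
    exact (mul_eq_zero.1 this).resolve_left (sub_ne_zero.2 hlj')
  have q3 : 3 * (x + y + 1) + a ^ 2 = 0 := by
    have : (x - y) * (3 * (x + y + 1) + a ^ 2) = 0 := by
      linear_combination q1 - q2
    exact (mul_eq_zero.1 this).resolve_left (sub_ne_zero.2 hkl')
  have q4 : c ^ 2 = -(x * y) := by
    have h5 : 3 * (c ^ 2 + x * y) = 0 := by
      linear_combination hj - q1 + x * q3
    have h6 := (mul_eq_zero.1 h5).resolve_left (by norm_num)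
    linear_combination h6
  have ha2 : a ^ 2 = -(3 * (x + y + 1)) := by linear_combination q3
  have sqle : ∀ t : ℂ, V.valuation (t ^ 2) ≤ 1 → V.valuation t ≤ 1 := by
    intro t ht
    by_contra hcon
    rw [not_le] at hcon
    rw [map_pow] at ht
    exact absurd ht (not_le.2 (one_lt_pow₀ hcon two_ne_zero))
  have hva : V.valuation a ≤ 1 := by
    apply sqle
    rw [ha2, Valuation.map_neg, map_mul, hv3, one_mul]
    exact Valuation.map_add_le _ (Valuation.map_add_le _ hvk hvl) (map_one _).le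
  have hvc : V.valuation c ≤ 1 := by
    apply sqle
    rw [q4, Valuation.map_neg, map_mul]
    exact mul_le_one' hvk hvl
  refine ⟨pz L (pm i), pz L (pm j), u, a, c, ⟨hw, h3, rfl, ?_⟩,
    ⟨fun h => pm_ne j (pz_mem h), pz_three L _⟩, P_inj L hij.symm, hu, hD, hva, hvc, ?_⟩
  · rw [hc]
    field_simp
  · by_contra hcon
    rw [not_or] at hcon
    have hva1 := lt_of_le_of_ne hva hcon.1
    have hvc1 := lt_of_le_of_ne hvc hcon.2
    have h5 : (3 : ℂ) = -(a * a + 3 * (a * c) + 3 * (c * c)) := by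
      linear_combination hj
    have h6 : V.valuation (a * a + 3 * (a * c) + 3 * (c * c)) < 1 := by
      refine Valuation.map_add_lt _ (Valuation.map_add_lt _ ?_ ?_) ?_
      · rw [map_mul]
        exact mul_lt_one_of_lt_of_le hva1 hva
      · rw [map_mul, hv3, one_mul, map_mul]
        exact mul_lt_one_of_lt_of_le hva1 hvc
      · rw [map_mul, hv3, one_mul, map_mul]
        exact mul_lt_one_of_lt_of_le hvc1 hvc
    have h7 := congrArg V.valuation h5
    rw [hv3, Valuation.map_neg] at h7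
    rw [← h7] at h6
    exact lt_irrefl _ h6

end

end Pool.Agent.N2R


end

section

/-!
# MUX-2N, block R, module FLD (helper50): the field of definition
-/

set_option autoImplicit false

open WeierstrassCurve Polynomial

namespace Pool.Agent.N2R

open _root_.MU3 _root_.Pool.Agent.MU3A _root_.Pool.Agent.MU3B _root_.Pool.Agent.RI _root_.Pool.Agent.MUX _root_.Pool.Agent.MUXU
open _root_.Pool.Agent.MUXV (InK tX)
open _root_.Pool.Agent.MUX2 (GRG)
open _root_.Pool.Agent.NS (xu)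
open _root_.Pool.Agent.N2 (WT yt et GoodT CaseT)

noncomputable section

theorem xn_mem_three {A B : ℤ} (hc : CQ A B) {b : Ideal (OO A B)} {L : PeriodPair} {om : ℂ}
    (h : IsNL b L om) {w : ℂ} (hw : w ∉ L.lattice) (hw2 : 3 * w ∈ L.lattice) :
    L.weierstrassP w ∈ RF (idl (A := A) (B := B) 3) := by
  have h1 : xn L w ∈ RF (idl (A := A) (B := B) 3) := by
    refine IntermediateField.subset_adjoin _ _ ⟨b, L, om, h, Or.inr ⟨w, ?_, hw, rfl⟩⟩
    intro x hx
    obtain ⟨y, rfl⟩ := Ideal.mem_span_singleton'.1 hx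
    have h2 : emb (y * ((3 : ℕ) : OO A B)) = emb y * 3 := by
      rw [_root_.Pool.Agent.MUX.emb_mul hc]
      congr 1
      have := map_natCast (Pool.Agent.MUX.embHom hc) 3
      rw [Pool.Agent.MUX.embHom_apply] at this
      rw [this]
      norm_num
    rw [h2, mul_assoc]
    exact h.toIsLI.hasCM hc y _ hw2
  have h3 : L.weierstrassP w = xn L w + ((1 / 12 : ℚ) : ℂ) := by
    unfold xn
    push_cast
    ring
  rw [h3]
  refine add_mem h1 ?_
  exact SubfieldClass.ratCast_mem _ _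

theorem tr_FLD (h1 : Sr_DEF) : Sr_FLD := by
  intro A B b L om hc hL u e a c w₁ w₂ hd hw hw2 hw3 hu
  obtain ⟨e12, hc0, -, hg2, hg3, -, -⟩ := h1 L u e a c hd
  have hu0 := hd.u0
  have m1 := xn_mem_three hc hL hw.ne hw.three
  have m2 := xn_mem_three hc hL hw2 hw3
  have me : e ∈ RF (idl (A := A) (B := B) 3) := hw.P ▸ m1
  have mu2 : u ^ 2 ∈ RF (idl (A := A) (B := B) 3) := hu ▸ sub_mem m2 m1
  have mr : ∀ r : ℚ, (r : ℂ) ∈ RF (idl (A := A) (B := B) 3) := fun r =>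
    SubfieldClass.ratCast_mem _ _
  have mk : kap L ∈ RF (idl (A := A) (B := B) 3) :=
    IntermediateField.subset_adjoin _ _ ⟨b, L, om, hL, Or.inl rfl⟩
  have mg2 : L.g₂ ∈ RF (idl (A := A) (B := B) 3) := by
    have : L.g₂ = ((1 / 12 : ℚ) : ℂ) + ((144 : ℚ) : ℂ) * kap L := by
      unfold kap
      push_cast
      ring
    rw [this]
    exact add_mem (mr _) (mul_mem (mr _) mk)
  have mg3 : L.g₃ ∈ RF (idl (A := A) (B := B) 3) := by
    have : L.g₃ = ((-1 / 18 : ℚ) : ℂ) * L.g₂ := by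
      rw [hL.nrm]
      push_cast
      ring
    rw [this]
    exact mul_mem (mr _) mg2
  have ma2 : a ^ 2 ∈ RF (idl (A := A) (B := B) 3) := by
    have : a ^ 2 = ((12 : ℚ) : ℂ) * e / u ^ 2 := by
      rw [eq_div_iff (pow_ne_zero 2 hu0)]
      push_cast
      linear_combination -e12
    rw [this]
    exact div_mem (mul_mem (mr _) me) mu2
  have mac : a * c ∈ RF (idl (A := A) (B := B) 3) := by
    have : a * c = ((1 / 24 : ℚ) : ℂ) * ((a ^ 2) ^ 2 - ((12 : ℚ) : ℂ) * L.g₂ / (u ^ 2) ^ 2) := by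
      rw [hg2]
      push_cast
      field_simp
      ring
    rw [this]
    exact mul_mem (mr _) (sub_mem (pow_mem ma2 2) (div_mem (mul_mem (mr _) mg2) (pow_mem mu2 2)))
  refine ⟨mu2, me, ma2, mac, ?_⟩
  have : c ^ 2 = ((1 / 216 : ℚ) : ℂ) * (((-216 : ℚ) : ℂ) * L.g₃ / (u ^ 2) ^ 3 - (a ^ 2) ^ 3 +
      ((36 : ℚ) : ℂ) * (a ^ 2 * (a * c))) := by
    rw [hg3]
    push_cast
    field_simp
    ring
  rw [this]
  exact mul_mem (mr _) (add_mem (sub_mem (div_mem (mul_mem (mr _) mg3) (pow_mem mu2 3))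
    (pow_mem ma2 3)) (mul_mem (mr _) (mul_mem ma2 mac)))

end

end Pool.Agent.N2R


end

section

/-!
# MUX-2N, block R2N: complex multiplication by `1 + 3 β` at a point of order three (CMQ)
-/

set_option autoImplicit false

open WeierstrassCurve Polynomial

namespace Pool.Agent.N2R

open _root_.MU3 _root_.Pool.Agent.MU3A _root_.Pool.Agent.MU3B _root_.Pool.Agent.RI _root_.Pool.Agent.MUX _root_.Pool.Agent.MUXU
open _root_.Pool.Agent.NS (xu)

theorem tr_CMQ (h : Sr_DEF) : Sr_CMQ := by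
  intro A B b L om hcq hL u e a c w hdeu hw β R hR
  obtain ⟨h3e, -⟩ := h L u e a c hdeu
  have hu0 : u ≠ 0 := hdeu.u0
  have hCM := hL.hasCM hcq
  have hβ : alB β = emb (1 + (β + β + β)) := by
    have h1 : (1 : OO A B).re = 1 := rfl
    have h2 : (1 : OO A B).im = 0 := rfl
    unfold alB
    simp only [emb, QuadraticAlgebra.re_add, QuadraticAlgebra.im_add, h1, h2]
    push_cast
    ring
  have hα : ∀ z ∈ L.lattice, alB β * z ∈ L.lattice := fun z hz => by
    rw [hβ]; exact hCM _ z hz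
  have ha0 : alB β ≠ 0 := by
    rw [hβ]
    refine MUX.emb_ne_zero hcq ?_
    intro h0
    have h1 := congrArg QuadraticAlgebra.re h0
    have h3 : (1 : OO A B).re = 1 := rfl
    have h4 : (0 : OO A B).re = 0 := rfl
    simp only [QuadraticAlgebra.re_add, h3, h4] at h1
    omega
  have hdiff : alB β * w - w ∈ L.lattice := by
    have h1 : alB β * w - w = emb β * (3 * w) := by
      unfold alB; ring
    rw [h1]
    exact hCM _ _ hw.three
  have haw : alB β * w ∉ L.lattice := by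
    intro h1
    have h2 := L.lattice.sub_mem h1 hdiff
    rw [sub_sub_cancel] at h2
    exact hw.ne h2
  have hper : L.weierstrassP (alB β * w) = L.weierstrassP w := by
    have h1 := L.weierstrassP_add_coe w ⟨_, hdiff⟩
    rw [← h1]
    congr 1
    show alB β * w = w + (alB β * w - w)
    ring
  have key := b_CMX L (alB β) R ha0 hα hR w haw
  rw [hper, hw.P] at key
  have hsum : ∑ q ∈ R, (xu L u e (w + q) - xu L u e q) =
      (∑ q ∈ R, (L.weierstrassP (w + q) - L.weierstrassP q)) / u ^ 2 := by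
    rw [Finset.sum_div]
    refine Finset.sum_congr rfl (fun q _ => ?_)
    unfold xu
    ring
  have hs : ∑ q ∈ R, (L.weierstrassP (w + q) - L.weierstrassP q) = alB β ^ 2 * e - e := by
    rw [key]; ring
  rw [hsum, hs]
  field_simp
  linear_combination (1 - alB β ^ 2) * h3e

end Pool.Agent.N2R


end

section

/-!
# MUX-2N, block R2N, module DEF: facts on the Deuring form
-/

set_option autoImplicit false

open WeierstrassCurve Polynomial

namespace Pool.Agent.N2R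

open _root_.MU3 _root_.Pool.Agent.MU3A _root_.Pool.Agent.MU3B _root_.Pool.Agent.RI _root_.Pool.Agent.MUX _root_.Pool.Agent.MUXU
open _root_.Pool.Agent.MUXV (InK tX)
open _root_.Pool.Agent.MUX2 (GRG)
open _root_.Pool.Agent.NS (xu)
open _root_.Pool.Agent.N2 (WT yt et GoodT CaseT)

noncomputable section

/-- DEF. -/
theorem tr_DEF : Sr_DEF := by
  intro L u e a c h
  have hu := h.u0
  have key : ∀ x : ℂ, 4 * x ^ 3 - L.g₂ * x - L.g₃ =
      4 * (x - e) ^ 3 + u ^ 2 * a ^ 2 * (x - e) ^ 2 + 2 * a * c * u ^ 4 * (x - e) +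
        u ^ 6 * c ^ 2 := by
    intro x
    obtain ⟨z, hz, rfl⟩ := b_SUR L x
    rw [← L.derivWeierstrassP_sq z hz]
    have h1 := h.eq z hz
    unfold xu at h1
    set P := L.weierstrassP z
    set D := L.derivWeierstrassP z
    have h2 : D ^ 2 = u ^ 6 * (D / u ^ 3) ^ 2 := by
      field_simp
    rw [h2, h1]
    field_simp
    ring
  have k0 := key 0
  have k1 := key 1
  have k2 := key (-1)
  have hs : 12 * e = u ^ 2 * a ^ 2 := by
    linear_combination (-1) * k0 + (1 / 2) * k1 + (1 / 2) * k2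
  have he : e = u ^ 2 * a ^ 2 / 12 := by
    rw [eq_div_iff (by norm_num)]
    linear_combination hs
  have hg2' : L.g₂ = 12 * e ^ 2 - 2 * a * c * u ^ 4 := by
    linear_combination (-1 / 2) * k1 + (1 / 2) * k2 - 2 * e * hs
  have hg3' : L.g₃ = 4 * e ^ 3 - L.g₂ * e - u ^ 6 * c ^ 2 := by
    linear_combination (-1) * key e
  have hg2 : L.g₂ = u ^ 4 * (a ^ 4 - 24 * a * c) / 12 := by
    rw [hg2', he]
    ring
  have hg3 : L.g₃ = -(u ^ 6 * (a ^ 6 - 36 * a ^ 3 * c + 216 * c ^ 2)) / 216 := by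
    rw [hg3', hg2, he]
    ring
  have hD := (b_DSC L).1
  have hc : c ≠ 0 := by
    rintro rfl
    apply hD
    rw [hg2, hg3]
    ring
  refine ⟨hs, hc, ?_, hg2, hg3, ?_, ?_⟩
  · intro h3
    apply hD
    have h4 : c = a ^ 3 / 27 := by
      rw [eq_div_iff (by norm_num)]
      linear_combination -h3
    rw [hg2, hg3, h4]
    ring
  · obtain ⟨w, hw, hwe, hw'⟩ := (b_DSC L).2 e (u ^ 3 * c) (by rw [key e]; ring)
    refine ⟨w, hw, ?_, hwe, hw'⟩
    have hd0 : L.derivWeierstrassP w ≠ 0 := by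
      rw [hw']
      exact mul_ne_zero (pow_ne_zero 3 hu) hc
    have h2w : 2 * w ∉ L.lattice := fun h2 => hd0 ((b_ZER L w hw).2 h2)
    have h3 := (b_DUP L w h2w).1
    rw [hwe, hw'] at h3
    have h4 : (6 * e ^ 2 - L.g₂ / 2) / (2 * (u ^ 3 * c)) = a * u / 2 := by
      rw [hg2', div_eq_div_iff (mul_ne_zero two_ne_zero (mul_ne_zero (pow_ne_zero 3 hu) hc))
        two_ne_zero]
      ring
    rw [h4] at h3
    have h5 : L.weierstrassP (2 * w) = L.weierstrassP w := by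
      rw [hwe]
      linear_combination h3 - (1 / 4) * hs
    rcases b_NEQ L w (2 * w) hw h2w h5 with h6 | h6
    · exact absurd (by rwa [show 2 * w - w = w by ring] at h6) hw
    · rwa [show 2 * w + w = 3 * w by ring] at h6
  · intro z hz h3z
    have h2z : 2 * z ∉ L.lattice := by
      intro h2
      apply hz
      have := sub_mem h3z h2
      rwa [show 3 * z - 2 * z = z by ring] at this
    have e1 : L.weierstrassP (2 * z) = L.weierstrassP z := by
      have h1 := L.weierstrassP_add_coe (-z) ⟨3 * z, h3z⟩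
      have h2 : -z + ((⟨3 * z, h3z⟩ : L.lattice) : ℂ) = 2 * z := by
        simp only
        ring
      rw [h2, L.weierstrassP_neg] at h1
      exact h1
    have hd0 : L.derivWeierstrassP z ≠ 0 := fun h0 => h2z ((b_ZER L z hz).1 h0)
    have h3 := (b_DUP L z h2z).1
    rw [e1, div_pow, eq_div_iff (pow_ne_zero 2 (mul_ne_zero two_ne_zero hd0))] at h3
    have h4 := L.derivWeierstrassP_sq z hz
    have h5 := key (L.weierstrassP z)
    have hX : L.weierstrassP z = u ^ 2 * xu L u e z + e := by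
      unfold xu
      field_simp
      ring
    set P := L.weierstrassP z
    set D := L.derivWeierstrassP z
    set X := xu L u e z
    have h6 : D ^ 2 = 4 * (P - e) ^ 3 + u ^ 2 * a ^ 2 * (P - e) ^ 2 +
        2 * a * c * u ^ 4 * (P - e) + u ^ 6 * c ^ 2 := by
      rw [h4, ← h5]
    have h7 : D ^ 2 = u ^ 6 * (4 * X ^ 3 + (a * X + c) ^ 2) := by
      rw [h6, hX]
      ring
    have h8 : 12 * P * D ^ 2 = (6 * P ^ 2 - L.g₂ / 2) ^ 2 := by
      linear_combination h3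
    have h9 : 6 * P ^ 2 - L.g₂ / 2 = u ^ 4 * (6 * X ^ 2 + a ^ 2 * X + a * c) := by
      rw [hg2', hX]
      linear_combination u ^ 2 * X * hs
    have h10 : 12 * P = u ^ 2 * (12 * X + a ^ 2) := by
      rw [hX]
      linear_combination hs
    rw [h9, h10, h7] at h8
    have h11 : u ^ 8 * (4 * (X * (3 * X ^ 3 + a ^ 2 * X ^ 2 + 3 * a * c * X + 3 * c ^ 2))) =
        0 := by
      linear_combination h8
    rcases mul_eq_zero.1 h11 with h12 | h12
    · exact absurd h12 (pow_ne_zero 8 hu)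
    rcases mul_eq_zero.1 h12 with h13 | h13
    · norm_num at h13
    exact mul_eq_zero.1 h13

end

end Pool.Agent.N2R


end

section

/-!
# MUX-2N, block R, module ALB: the multiplier `α = 1 + 3 β`, `2` inert

`β = w`. `v (emb x) = 1` for `x` not divisible by `2`; so `3`, `w` and the odd norm `N = 1 + 3 B - 9 A` are units at `V`.
-/

set_option autoImplicit false

open WeierstrassCurve Polynomial

namespace Pool.Agent.N2R

open _root_.MU3 _root_.Pool.Agent.MU3A _root_.Pool.Agent.MU3B _root_.Pool.Agent.RI _root_.Pool.Agent.MUX _root_.Pool.Agent.MUXU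

noncomputable section

namespace ALBaux

lemma wC_int {A B : ℤ} (hc : CQ A B) : _root_.IsIntegral ℤ (wC A B) := by
  refine ⟨Polynomial.X ^ 2 - Polynomial.C B * Polynomial.X - Polynomial.C A, ?_, ?_⟩
  · monicity!
  · have := _root_.Pool.Agent.MUX.wC_sq hc
    simp only [Polynomial.eval₂_sub, Polynomial.eval₂_mul, Polynomial.eval₂_pow,
      Polynomial.eval₂_X, Polynomial.eval₂_C]
    simp only [algebraMap_int_eq, eq_intCast]
    linear_combination this

lemma emb_mem_V {A B : ℤ} (hc : CQ A B) (V : ValuationSubring ℂ) (x : OO A B) : emb x ∈ V := by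
  have h1 : wC A B ∈ V := by
    have h2 : _root_.IsIntegral V (wC A B) := (wC_int hc).tower_top
    obtain ⟨y, hy⟩ := IsIntegrallyClosed.isIntegral_iff.1 h2
    rw [← hy]
    exact y.2
  have h3 : ∀ n : ℤ, (n : ℂ) ∈ V := fun n => intCast_mem V.toSubring n
  exact V.add_mem _ _ (h3 _) (V.mul_mem _ _ (h3 _) h1)

/-- the elements of `idl 2` are multiples of `2` -/
lemma mem2 {A B : ℤ} {x : OO A B} (hx : x ∈ idl (A := A) (B := B) 2) :
    (2 : ℤ) ∣ x.re ∧ (2 : ℤ) ∣ x.im := by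
  obtain ⟨y, hy⟩ := Ideal.mem_span_singleton.1 hx
  have e2 : ((2 : ℕ) : OO A B) = ⟨2, 0⟩ := by
    ext
    · exact QuadraticAlgebra.re_natCast 2
    · exact QuadraticAlgebra.im_natCast 2
  rw [e2] at hy
  refine ⟨⟨y.re, ?_⟩, ⟨y.im, ?_⟩⟩
  · rw [hy]
    simp
  · rw [hy]
    simp

/-- `v (emb x) = 1` for `x` not divisible by `2` -/
lemma v_one {A B : ℤ} {V : ValuationSubring ℂ} (hc : CQ A B)
    (hV : OverI V (idl (A := A) (B := B) 2)) {x : OO A B}
    (hx : ¬ ((2 : ℤ) ∣ x.re ∧ (2 : ℤ) ∣ x.im)) : V.valuation (emb x) = 1 := by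
  refine le_antisymm ((V.valuation_le_one_iff _).2 (emb_mem_V hc V x)) (not_lt.1 fun h => hx ?_)
  exact mem2 ((hV x).1 (V.mem_nonunits_iff.2 h))

end ALBaux

open _root_.Pool.Agent.N2R.ALBaux

/-- (ALB) the multiplier, `2` inert -/
theorem tr_ALB : Sr_ALB := by
  intro A B V hc h8 hV
  have hw : wC A B * wC A B = A + B * wC A B := _root_.Pool.Agent.MUX.wC_sq hc
  have v2 : V.valuation (2 : ℂ) < 1 := by
    have h1 : emb ((2 : ℕ) : OO A B) ∈ V.nonunits := (hV _).2 (Ideal.mem_span_singleton_self _)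
    rw [_root_.Pool.Agent.MUX.emb_natCast hc] at h1
    exact_mod_cast V.mem_nonunits_iff.1 h1
  have v3 : V.valuation (3 : ℂ) = 1 := by
    have h1 : V.valuation (emb (⟨3, 0⟩ : OO A B)) = 1 := v_one hc hV (by
      intro h
      have := h.1
      simp only at this
      omega)
    have h2 : emb (⟨3, 0⟩ : OO A B) = 3 := by simp [emb]
    rwa [h2] at h1
  have vw : V.valuation (emb (⟨0, 1⟩ : OO A B)) = 1 := v_one hc hV (by
    intro h
    have := h.2
    simp only at this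
    omega)
  -- `B = 1`, `A` odd and negative
  have hneg := hc.neg
  have hB : B = 1 := by
    rcases hc.hB with h | h
    · exfalso
      subst h
      omega
    · exact h
  have hA : A % 2 = 1 ∧ A < 0 := by
    subst hB
    omega
  have hpos : 1 < 1 + 3 * B - 9 * A := by
    subst hB
    omega
  have hN : (((1 + 3 * B - 9 * A).toNat : ℕ) : ℤ) = 1 + 3 * B - 9 * A :=
    Int.toNat_of_nonneg (by omega)
  have hNC : (((1 + 3 * B - 9 * A).toNat : ℕ) : ℂ) = 1 + 3 * B - 9 * A := by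
    have := congrArg (fun n : ℤ => (n : ℂ)) hN
    push_cast at this
    exact this
  have eal : alB (⟨0, 1⟩ : OO A B) = 1 + 3 * wC A B := by
    rw [alB, MUX.emb_w]
  have eal' : emb (⟨1 + 3 * B, -3⟩ : OO A B) = 1 + 3 * B - 3 * wC A B := by
    simp [emb]
    ring
  refine ⟨⟨0, 1⟩, (1 + 3 * B - 9 * A).toNat, ?_, vw⟩
  exact
    { cq := hc
      v2 := v2
      v3 := v3
      vb := by
        rw [vw]
        exact v2
      nrm := ⟨⟨1 + 3 * B, -3⟩, by
        rw [hNC, eal, eal']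
        linear_combination 9 * hw⟩
      odd := by
        rw [Nat.odd_iff]
        omega
      one := by omega
      vN := by
        have h1 : V.valuation (emb (⟨1 + 3 * B - 9 * A, 0⟩ : OO A B)) = 1 := v_one hc hV (by
          intro h
          have := h.1
          simp only at this
          omega)
        have h2 : emb (⟨1 + 3 * B - 9 * A, 0⟩ : OO A B) = 1 + 3 * B - 9 * A := by simp [emb]
        rw [hNC, ← h2]
        exact h1 }

end

end Pool.Agent.N2R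


end
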