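import Mathlib
import Pool.Agent.MVF.C008
import Pool.Agent.MVF.C014

/-! Parts: MUX.U_ISO, MUX.U_CMC -/

namespace Pool.Agent.MUXU.ISO19
end Pool.Agent.MUXU.ISO19

section

/-!
# MUX, block U: module ISO (helper19)

The addition theorem is not used: an even elliptic function with prescribed poles is a polynomial
in the function of Weierstrass (`poly`), applied to the product of `M.weierstrassP (μ z)` with the
candidate for the denominator.
-/

set_option autoImplicit false

namespace Pool.Agent.MUXU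

open Filter Topology Polynomial
open _root_.Pool.Agent.MU3B

namespace ISO19

theorem hasD (L : PeriodPair) {z : ℂ} (hz : z ∉ L.lattice) :
    HasDerivAt L.weierstrassP (L.derivWeierstrassP z) z := Pool.Agent.MU3A.PFG18.hasD L hz

theorem cont (L : PeriodPair) {z : ℂ} (hz : z ∉ L.lattice) : ContinuousAt L.weierstrassP z :=
  (hasD L hz).continuousAt

theorem per (L : PeriodPair) (x v : ℂ) (hv : v ∈ L.lattice) :
    L.weierstrassP (x + v) = L.weierstrassP x := L.weierstrassP_add_coe x ⟨v, hv⟩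

theorem per' (L : PeriodPair) (x v : ℂ) (hv : v ∈ L.lattice) :
    L.weierstrassP (x - v) = L.weierstrassP x := L.weierstrassP_sub_coe x ⟨v, hv⟩

theorem limP (L : PeriodPair) (c : ℂ) :
    Tendsto (fun s => s ^ 2 * (L.weierstrassP s - c)) (𝓝[≠] 0) (𝓝 1) :=
  Pool.Agent.MU3A.PFG18.lim1 L c

theorem tpn (p : ℂ) : Tendsto (fun z : ℂ => z - p) (𝓝[≠] p) (𝓝[≠] 0) := by
  refine tendsto_nhdsWithin_iff.2 ⟨?_, ?_⟩
  · have := (by fun_prop : Continuous fun z : ℂ => z - p).tendsto p
    rw [sub_self] at this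
    exact this.mono_left nhdsWithin_le_nhds
  · filter_upwards [self_mem_nhdsWithin] with z hz
    exact sub_ne_zero.2 hz

theorem t0 (p : ℂ) : Tendsto (fun z : ℂ => z - p) (𝓝[≠] p) (𝓝 0) :=
  (tpn p).mono_right nhdsWithin_le_nhds

theorem limq (M : PeriodPair) (μ q : ℂ) (hμ : μ ≠ 0) (hq : μ * q ∈ M.lattice) :
    Tendsto (fun z => (z - q) ^ 2 * M.weierstrassP (μ * z)) (𝓝[≠] q) (𝓝 (1 / μ ^ 2)) := by
  have h := (Pool.Agent.MU3A.PFG18.lim M μ hμ 0).comp (tpn q)
  refine h.congr fun z => ?_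
  simp only [Function.comp_apply, sub_zero]
  rw [mul_sub, per' M _ _ hq]

/-- points near `p` avoid `q + L` -/
theorem near (L : PeriodPair) (p q : ℂ) : ∀ᶠ z in 𝓝[≠] p, z - q ∉ L.lattice := by
  have h1 : Tendsto (fun z : ℂ => z - q) (𝓝[≠] p) (𝓝 (p - q)) :=
    ((by fun_prop : Continuous fun z : ℂ => z - q).tendsto p).mono_left nhdsWithin_le_nhds
  filter_upwards [h1 (L.compl_lattice_sdiff_singleton_mem_nhds (p - q)), self_mem_nhdsWithin] with z
    hz hz0 hL
  refine hz ⟨hL, fun h => hz0 ?_⟩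
  have h2 : z - q = p - q := h
  exact sub_left_injective h2

theorem near0 (L : PeriodPair) (p : ℂ) : ∀ᶠ z in 𝓝[≠] p, z ∉ L.lattice := by
  filter_upwards [near L p 0] with z hz
  rwa [sub_zero] at hz

theorem nearP (L : PeriodPair) (p : ℂ) (P : Finset ℂ) :
    ∀ᶠ z in 𝓝[≠] p, ∀ q ∈ P, z - q ∉ L.lattice := by
  rw [Filter.eventually_all_finset]
  intro q _
  exact near L p q

/-- an even function with limit `0` at `0` vanishes to order two -/
theorem evenLim (f : ℂ → ℂ) (hd : ∀ᶠ z in 𝓝[≠] (0 : ℂ), DifferentiableAt ℂ f z)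
    (he : ∀ z, f (-z) = f z) (h0 : Tendsto f (𝓝[≠] 0) (𝓝 0)) :
    ∃ c, Tendsto (fun z => f z / z ^ 2) (𝓝[≠] 0) (𝓝 c) := by
  classical
  obtain ⟨g, hg⟩ : ∃ g : ℂ → ℂ, g = Function.update f 0 0 := ⟨_, rfl⟩
  have hg0 : g 0 = 0 := by rw [hg, Function.update_self]
  have hgn : ∀ z, z ≠ 0 → g z = f z := fun z hz => by rw [hg, Function.update_of_ne hz]
  have hge : ∀ z, g (-z) = g z := by
    intro z
    by_cases hz : z = 0
    · rw [hz, neg_zero]
    · rw [hgn z hz, hgn (-z) (neg_ne_zero.2 hz), he]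
  have hgd : ∀ᶠ z in 𝓝[≠] (0 : ℂ), DifferentiableAt ℂ g z := by
    filter_upwards [hd, self_mem_nhdsWithin] with z hz hz0
    refine hz.congr_of_eventuallyEq ?_
    filter_upwards [isOpen_ne.mem_nhds hz0] with w hw
    exact hgn w hw
  have hgc : ContinuousAt g 0 := by
    rw [hg, continuousAt_update_same]
    exact h0
  have hga := Complex.analyticAt_of_differentiable_on_punctured_nhds_of_continuousAt hgd hgc
  have hgda : HasDerivAt g (deriv g 0) 0 := hga.differentiableAt.hasDerivAt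
  have hg' : deriv g 0 = 0 := by
    have h1 : HasDerivAt (fun z : ℂ => g (-z)) (deriv g 0 * (-1)) 0 := by
      have h2 : HasDerivAt (fun z : ℂ => -z) (-1) 0 := hasDerivAt_neg 0
      have h3 : HasDerivAt g (deriv g 0) (-0) := by rw [neg_zero]; exact hgda
      exact HasDerivAt.comp 0 h3 h2
    have h4 : (fun z : ℂ => g (-z)) = g := funext hge
    rw [h4] at h1
    have h5 := h1.unique hgda
    linear_combination (-1 / 2 : ℂ) * h5
  obtain ⟨p, hp⟩ := hga
  have h1 : AnalyticAt ℂ (dslope g 0) 0 := ⟨_, hp.has_fpower_series_dslope_fslope⟩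
  have h2 : ContinuousAt (dslope (dslope g 0) 0) 0 := continuousAt_dslope_same.2 h1.differentiableAt
  refine ⟨_, (h2.tendsto.mono_left nhdsWithin_le_nhds).congr' ?_⟩
  filter_upwards [self_mem_nhdsWithin] with z hz
  have hz' : z ≠ 0 := hz
  rw [dslope_of_ne _ hz', slope_def_field, dslope_same, hg', dslope_of_ne _ hz', slope_def_field,
    hg0, hgn z hz', sub_zero, sub_zero, sub_zero, div_div, ← pow_two]

/-- EVEN elliptic functions with a pole at `0` only (and removable singularities at `P`) -/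
theorem poly (L : PeriodPair) : ∀ (n : ℕ) (f : ℂ → ℂ) (P : Finset ℂ) (c : ℂ),
    (∀ z, ∀ v ∈ L.lattice, f (z + v) = f z) → (∀ z, f (-z) = f z) →
    (∀ p ∈ P, p ∉ L.lattice) →
    (∀ z, z ∉ L.lattice → (∀ p ∈ P, z - p ∉ L.lattice) → DifferentiableAt ℂ f z) →
    (∀ p ∈ P, Tendsto (fun z => (z - p) * f z) (𝓝[≠] p) (𝓝 0)) →
    Tendsto (fun z => z ^ (2 * n) * f z) (𝓝[≠] 0) (𝓝 c) →
    ∃ A : ℂ[X], A.natDegree ≤ n ∧ A.coeff n = c ∧
      ∀ z, z ∉ L.lattice → (∀ p ∈ P, z - p ∉ L.lattice) → f z = A.eval (L.weierstrassP z) := by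
  classical
  intro n
  induction n with
  | zero =>
    intro f P c hper hev hP hd hl h0
    simp only [Nat.mul_zero, pow_zero, one_mul] at h0
    obtain ⟨c', hc'⟩ := b_LIO L f (insert 0 P) hper
      (fun z hz => hd z (by
        have := hz 0 (Finset.mem_insert_self _ _)
        rwa [sub_zero] at this) fun p hp => hz p (Finset.mem_insert_of_mem hp))
      (by
        intro p hp
        rw [Finset.mem_insert] at hp
        rcases hp with rfl | hp
        · have h1 := (t0 0).mul h0
          rwa [zero_mul] at h1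
        · exact hl p hp)
    have hcc : c' = c := by
      have hev : ∀ᶠ z in 𝓝[≠] (0 : ℂ), f z = c' := by
        filter_upwards [nearP L 0 (insert 0 P)] with z hz
        exact hc' z hz
      have h4 : Tendsto f (𝓝[≠] 0) (𝓝 c') := (tendsto_congr' hev).2 tendsto_const_nhds
      exact tendsto_nhds_unique h4 h0
    refine ⟨C c, by simp, by simp, fun z hz hz' => ?_⟩
    rw [eval_C, ← hcc]
    refine hc' z fun p hp => ?_
    rw [Finset.mem_insert] at hp
    rcases hp with rfl | hp
    · rwa [sub_zero]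
    · exact hz' p hp
  | succ n ih =>
    intro f P c hper hev hP hd hl h0
    obtain ⟨g, hg⟩ : ∃ g : ℂ → ℂ, g = fun z => f z - c * L.weierstrassP z ^ (n + 1) := ⟨_, rfl⟩
    have hgz : ∀ z, g z = f z - c * L.weierstrassP z ^ (n + 1) := fun z => by rw [hg]
    have gper : ∀ z, ∀ v ∈ L.lattice, g (z + v) = g z := by
      intro z v hv
      rw [hgz, hgz, hper z v hv, per L z v hv]
    have gev : ∀ z, g (-z) = g z := by
      intro z
      rw [hgz, hgz, hev, L.weierstrassP_neg]
    have gd : ∀ z, z ∉ L.lattice → (∀ p ∈ P, z - p ∉ L.lattice) → DifferentiableAt ℂ g z := by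
      intro z hz hz'
      rw [hg]
      exact (hd z hz hz').sub (((hasD L hz).differentiableAt.pow (n + 1)).const_mul c)
    have gl : ∀ p ∈ P, Tendsto (fun z => (z - p) * g z) (𝓝[≠] p) (𝓝 0) := by
      intro p hp
      have h1 : Tendsto (fun z => c * L.weierstrassP z ^ (n + 1)) (𝓝[≠] p)
          (𝓝 (c * L.weierstrassP p ^ (n + 1))) :=
        ((continuousAt_const.mul ((cont L (hP p hp)).pow (n + 1))).tendsto).mono_left
          nhdsWithin_le_nhds
      have h2 := (t0 p).mul h1
      rw [zero_mul] at h2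
      have h3 := (hl p hp).sub h2
      rw [sub_zero] at h3
      refine h3.congr fun z => ?_
      rw [hgz]
      ring
    have g0 : Tendsto (fun z => z ^ (2 * (n + 1)) * g z) (𝓝[≠] 0) (𝓝 0) := by
      have h1 := ((limP L 0).pow (n + 1)).const_mul c
      have h2 := h0.sub h1
      rw [one_pow, mul_one, sub_self] at h2
      refine h2.congr fun z => ?_
      rw [hgz, sub_zero, mul_pow, ← pow_mul]
      ring
    obtain ⟨c', hc'⟩ := evenLim (fun z => z ^ (2 * (n + 1)) * g z)
      (by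
        filter_upwards [near0 L 0, nearP L 0 P] with z hz hz'
        exact (differentiableAt_pow _).mul (gd z hz hz'))
      (by
        intro z
        rw [gev, Even.neg_pow (even_two_mul (n + 1))])
      g0
    have g1 : Tendsto (fun z => z ^ (2 * n) * g z) (𝓝[≠] 0) (𝓝 c') := by
      refine hc'.congr' ?_
      filter_upwards [self_mem_nhdsWithin] with z hz
      have hz' : z ≠ 0 := hz
      have e : z ^ (2 * (n + 1)) * g z = z ^ (2 * n) * g z * z ^ 2 := by ring
      rw [e, mul_div_assoc, div_self (pow_ne_zero 2 hz'), mul_one]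
    obtain ⟨A, hA1, hA2, hA3⟩ := ih g P c' gper gev hP gd gl g1
    refine ⟨A + C c * X ^ (n + 1), ?_, ?_, ?_⟩
    · refine (natDegree_add_le _ _).trans (max_le (by omega) (natDegree_C_mul_X_pow_le _ _))
    · rw [coeff_add, coeff_eq_zero_of_natDegree_lt (by omega), coeff_C_mul_X_pow, if_pos rfl,
        zero_add]
    · intro z hz hz'
      have h1 := hA3 z hz hz'
      rw [hgz] at h1
      rw [eval_add, ← h1]
      simp

/-! ## The product -/

/-- points outside the translates of `L` by the representatives -/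
theorem out {L M : PeriodPair} {μ : ℂ} {R : Finset ℂ} (hL : Isg L M μ) (hR : IsRpM L M μ R)
    (z : ℂ) (hz : z ∉ L.lattice) :
    (∀ q ∈ R, z - q ∉ L.lattice) ↔ μ * z ∉ M.lattice := by
  constructor
  · intro h h1
    obtain ⟨q, hq, h2⟩ := hR.surj z h1 hz
    exact h q hq h2
  · intro h q hq h1
    refine h ?_
    have h2 := M.lattice.add_mem (hL _ h1) (hR.mem q hq)
    have e : μ * (z - q) + μ * q = μ * z := by ring
    rwa [e] at h2

/-- the denominator without the factor `μ²` -/
noncomputable def bf (L : PeriodPair) (R : Finset ℂ) (z : ℂ) : ℂ :=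
  ∏ q ∈ R, (L.weierstrassP z - L.weierstrassP q)

theorem bf_per (L : PeriodPair) (R : Finset ℂ) (z v : ℂ) (hv : v ∈ L.lattice) :
    bf L R (z + v) = bf L R z := by
  unfold bf
  rw [per L z v hv]

theorem bf_neg (L : PeriodPair) (R : Finset ℂ) (z : ℂ) : bf L R (-z) = bf L R z := by
  unfold bf
  rw [L.weierstrassP_neg]

theorem bf_cont (L : PeriodPair) (R : Finset ℂ) {z : ℂ} (hz : z ∉ L.lattice) :
    ContinuousAt (bf L R) z := by
  unfold bf
  exact tendsto_finsetProd R fun q _ => ((cont L hz).sub continuousAt_const)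

theorem bf_diff (L : PeriodPair) (R : Finset ℂ) {z : ℂ} (hz : z ∉ L.lattice) :
    DifferentiableAt ℂ (bf L R) z := by
  unfold bf
  exact DifferentiableAt.fun_finsetProd fun q _ => ((hasD L hz).differentiableAt.sub_const _)

theorem bf_lim0 (L : PeriodPair) (R : Finset ℂ) :
    Tendsto (fun z => z ^ (2 * R.card) * bf L R z) (𝓝[≠] 0) (𝓝 1) := by
  have h := tendsto_finsetProd (f := fun q s => s ^ 2 * (L.weierstrassP s - L.weierstrassP q))
    (a := fun _ => (1 : ℂ)) (x := 𝓝[≠] (0 : ℂ)) R fun q _ => limP L _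
  rw [Finset.prod_const_one] at h
  refine h.congr fun z => ?_
  unfold bf
  rw [Finset.prod_mul_distrib, Finset.prod_const, ← pow_mul]

/-- the slope at `p` -/
theorem slopeP (L : PeriodPair) {p : ℂ} (hp : p ∉ L.lattice) :
    Tendsto (fun z => (L.weierstrassP z - L.weierstrassP p) / (z - p)) (𝓝[≠] p)
      (𝓝 (L.derivWeierstrassP p)) := by
  have h := (hasDerivAt_iff_tendsto_slope.1 (hasD L hp))
  refine h.congr fun z => ?_
  rw [slope_def_field]

theorem contP (L : PeriodPair) {p : ℂ} (hp : p ∉ L.lattice) :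
    Tendsto (fun z => (L.weierstrassP z - L.weierstrassP p)) (𝓝[≠] p) (𝓝 0) := by
  have h : Tendsto (fun z => (L.weierstrassP z - L.weierstrassP p)) (𝓝 p)
      (𝓝 (L.weierstrassP p - L.weierstrassP p)) :=
    ((cont L hp).sub continuousAt_const).tendsto
  rw [sub_self] at h
  exact h.mono_left nhdsWithin_le_nhds

/-- the structure of the product near a representative -/
theorem struct {L M : PeriodPair} {μ : ℂ} {R : Finset ℂ} (hR : IsRpM L M μ R) {p : ℂ}
    (hp : p ∈ R) :
    (2 * p ∈ L.lattice ∧ L.derivWeierstrassP p = 0 ∧ ∃ R' ⊆ R, p ∉ R' ∧ R = insert p R' ∧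
      ∀ q ∈ R', L.weierstrassP p ≠ L.weierstrassP q) ∨
    (L.derivWeierstrassP p ≠ 0 ∧ ∃ p' ∈ R, ∃ R' ⊆ R, p' ≠ p ∧ L.weierstrassP p' = L.weierstrassP p ∧
      p ∉ insert p' R' ∧ p' ∉ R' ∧ R = insert p (insert p' R') ∧
      ∀ q ∈ R', L.weierstrassP p ≠ L.weierstrassP q) := by
  classical
  by_cases h2 : 2 * p ∈ L.lattice
  · left
    refine ⟨h2, (b_ZER L p (hR.ne p hp)).2 h2, R.erase p, Finset.erase_subset _ _,
      Finset.notMem_erase _ _, (Finset.insert_erase hp).symm, ?_⟩
    intro q hq h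
    rw [Finset.mem_erase] at hq
    rcases b_NEQ L q p (hR.ne q hq.2) (hR.ne p hp) h with h1 | h1
    · exact hq.1 (hR.inj p hp q hq.2 h1).symm
    · have h3 := L.lattice.sub_mem h2 h1
      have e : 2 * p - (p + q) = p - q := by ring
      rw [e] at h3
      exact hq.1 (hR.inj p hp q hq.2 h3).symm
  · right
    obtain ⟨p', hp', h3⟩ := hR.surj (-p) (by rw [mul_neg]; exact M.lattice.neg_mem (hR.mem p hp))
      (fun h => hR.ne p hp (by
        have := L.lattice.neg_mem h
        rwa [neg_neg] at this))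
    have hne : p' ≠ p := by
      intro h
      rw [h] at h3
      have h4 := L.lattice.neg_mem h3
      have e : -(-p - p) = 2 * p := by ring
      rw [e] at h4
      exact h2 h4
    have hP : L.weierstrassP p' = L.weierstrassP p := by
      rw [← L.weierstrassP_neg p, ← per L p' _ h3]
      congr 1
      ring
    refine ⟨fun h => h2 ((b_ZER L p (hR.ne p hp)).1 h), p', hp', (R.erase p).erase p',
      (Finset.erase_subset _ _).trans (Finset.erase_subset _ _), hne, hP, ?_,
      Finset.notMem_erase _ _, ?_, ?_⟩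
    · rw [Finset.insert_erase (Finset.mem_erase.2 ⟨hne, hp'⟩)]
      exact Finset.notMem_erase _ _
    · rw [Finset.insert_erase (Finset.mem_erase.2 ⟨hne, hp'⟩), Finset.insert_erase hp]
    · intro q hq h
      rw [Finset.mem_erase, Finset.mem_erase] at hq
      rcases b_NEQ L q p (hR.ne q hq.2.2) (hR.ne p hp) h with h1 | h1
      · exact hq.2.1 (hR.inj p hp q hq.2.2 h1).symm
      · have h4 := L.lattice.add_mem h1 h3
        have e : p + q + (-p - p') = q - p' := by ring
        rw [e] at h4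
        exact hq.1 (hR.inj q hq.2.2 p' hp' h4)

theorem bf_ne {L : PeriodPair} {R' : Finset ℂ} {p : ℂ}
    (h : ∀ q ∈ R', L.weierstrassP p ≠ L.weierstrassP q) : bf L R' p ≠ 0 := by
  unfold bf
  exact Finset.prod_ne_zero_iff.2 fun q hq => sub_ne_zero.2 (h q hq)

theorem bf_tend (L : PeriodPair) (R' : Finset ℂ) {p : ℂ} (hp : p ∉ L.lattice) :
    Tendsto (bf L R') (𝓝[≠] p) (𝓝 (bf L R' p)) :=
  (bf_cont L R' hp).tendsto.mono_left nhdsWithin_le_nhds

/-- the product vanishes to order two -/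
theorem bf_lim {L M : PeriodPair} {μ : ℂ} {R : Finset ℂ} (hR : IsRpM L M μ R) {p : ℂ}
    (hp : p ∈ R) : Tendsto (fun z => bf L R z / (z - p)) (𝓝[≠] p) (𝓝 0) := by
  have hpL := hR.ne p hp
  rcases struct hR hp with ⟨_, hz, R', _, hn, he, _⟩ | ⟨_, p', _, R', _, hne, hPp, hn, hn', he, _⟩
  · have h1 := (slopeP L hpL).mul (bf_tend L R' hpL)
    rw [hz, zero_mul] at h1
    refine h1.congr fun z => ?_
    rw [he]
    unfold bf
    rw [Finset.prod_insert hn]
    ring
  · have h1 := ((slopeP L hpL).mul (contP L hpL)).mul (bf_tend L R' hpL)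
    rw [mul_zero, zero_mul] at h1
    refine h1.congr fun z => ?_
    rw [he]
    unfold bf
    rw [Finset.prod_insert hn, Finset.prod_insert hn', hPp]
    ring

/-- the numerator -/
theorem exA {L M : PeriodPair} {μ : ℂ} {R : Finset ℂ} (hμ : μ ≠ 0) (hL : Isg L M μ)
    (hR : IsRpM L M μ R) :
    ∃ A : ℂ[X], A.natDegree ≤ R.card + 1 ∧ A.coeff (R.card + 1) = 1 ∧
      ∀ z, z ∉ L.lattice → μ * z ∉ M.lattice →
        M.weierstrassP (μ * z) * (μ ^ 2 * bf L R z) = A.eval (L.weierstrassP z) := by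
  obtain ⟨f, hf⟩ : ∃ f : ℂ → ℂ, f = fun z => M.weierstrassP (μ * z) * (μ ^ 2 * bf L R z) := ⟨_, rfl⟩
  have hfz : ∀ z, f z = M.weierstrassP (μ * z) * (μ ^ 2 * bf L R z) := fun z => by rw [hf]
  obtain ⟨A, hA1, hA2, hA3⟩ := poly L (R.card + 1) f R 1
    (by
      intro z v hv
      rw [hfz, hfz, mul_add, per M _ _ (hL v hv), bf_per L R z v hv])
    (by
      intro z
      rw [hfz, hfz, mul_neg, M.weierstrassP_neg, bf_neg])
    (fun p hp => hR.ne p hp)
    (by
      intro z hz hz'
      have h1 : μ * z ∉ M.lattice := (out hL hR z hz).1 hz'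
      have d1 : DifferentiableAt ℂ (fun z => M.weierstrassP (μ * z)) z :=
        DifferentiableAt.comp z (hasD M h1).differentiableAt
          (by fun_prop : DifferentiableAt ℂ (fun z : ℂ => μ * z) z)
      rw [hf]
      exact d1.mul ((bf_diff L R hz).const_mul _))
    (by
      intro p hp
      have h1 := (limq M μ p hμ (hR.mem p hp)).mul ((bf_lim hR hp).const_mul (μ ^ 2))
      rw [mul_zero, mul_zero] at h1
      refine h1.congr' ?_
      filter_upwards [self_mem_nhdsWithin] with z hz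
      have hz' : z - p ≠ 0 := sub_ne_zero.2 hz
      rw [hfz]
      field_simp)
    (by
      have h1 := ((Pool.Agent.MU3A.PFG18.lim M μ hμ 0).mul (bf_lim0 L R)).const_mul (μ ^ 2)
      have e : μ ^ 2 * (1 / μ ^ 2 * 1) = 1 := by field_simp
      rw [e] at h1
      refine h1.congr fun z => ?_
      rw [hfz, sub_zero]
      ring)
  refine ⟨A, hA1, hA2, fun z hz hz' => ?_⟩
  rw [← hA3 z hz ((out hL hR z hz).2 hz'), hfz]

theorem evA (L : PeriodPair) (A : ℂ[X]) {p : ℂ} (hp : p ∉ L.lattice) :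
    Tendsto (fun z => A.eval (L.weierstrassP z)) (𝓝[≠] p) (𝓝 (A.eval (L.weierstrassP p))) := by
  have h1 : ContinuousAt (fun z => A.eval (L.weierstrassP z)) p :=
    ContinuousAt.comp_of_eq (g := fun x => A.eval x) A.continuous.continuousAt (cont L hp) rfl
  exact h1.tendsto.mono_left nhdsWithin_le_nhds

/-- the numerator does not vanish at the zeros of the denominator -/
theorem A_ne {L M : PeriodPair} {μ : ℂ} {R : Finset ℂ} (hμ : μ ≠ 0) (hL : Isg L M μ)
    (hR : IsRpM L M μ R) {A : ℂ[X]}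
    (hA : ∀ z, z ∉ L.lattice → μ * z ∉ M.lattice →
        M.weierstrassP (μ * z) * (μ ^ 2 * bf L R z) = A.eval (L.weierstrassP z))
    {p : ℂ} (hp : p ∈ R) : A.eval (L.weierstrassP p) ≠ 0 := by
  have hpL := hR.ne p hp
  have hlim := limq M μ p hμ (hR.mem p hp)
  have hev : ∀ᶠ z in 𝓝[≠] p, M.weierstrassP (μ * z) * (μ ^ 2 * bf L R z) =
      A.eval (L.weierstrassP z) := by
    filter_upwards [near0 L p, nearP L p R] with z h1 h2
    exact hA z h1 ((out hL hR z h1).1 h2)
  rcases struct hR hp with ⟨_, hz, R', _, hn, he, hne⟩ | ⟨hz, p', _, R', _, _, hPp, hn, hn', he, hne⟩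
  · intro h0
    obtain ⟨A₂, hA₂⟩ := dvd_iff_isRoot.2 h0
    have h1 : Tendsto (fun z => (z - p) ^ 2 * M.weierstrassP (μ * z) * (μ ^ 2 * bf L R' z)) (𝓝[≠] p)
        (𝓝 (1 / μ ^ 2 * (μ ^ 2 * bf L R' p))) :=
      hlim.mul ((bf_tend L R' hpL).const_mul _)
    have h2 : Tendsto (fun z => (z - p) ^ 2 * A₂.eval (L.weierstrassP z)) (𝓝[≠] p)
        (𝓝 (0 ^ 2 * A₂.eval (L.weierstrassP p))) :=
      ((t0 p).pow 2).mul (evA L A₂ hpL)
    have h3 : ∀ᶠ z in 𝓝[≠] p, (z - p) ^ 2 * A₂.eval (L.weierstrassP z) =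
        (z - p) ^ 2 * M.weierstrassP (μ * z) * (μ ^ 2 * bf L R' z) := by
      filter_upwards [hev, near0 L p, near L p p, near L p (-p)] with z g1 g2 g3 g4
      have g5 : L.weierstrassP z - L.weierstrassP p ≠ 0 := by
        intro h
        rcases b_NEQ L p z hpL g2 (sub_eq_zero.1 h) with h | h
        · exact g3 h
        · rw [sub_neg_eq_add] at g4
          exact g4 h
      have g6 : bf L R z = (L.weierstrassP z - L.weierstrassP p) * bf L R' z := by
        rw [he]
        unfold bf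
        rw [Finset.prod_insert hn]
      rw [g6, hA₂, eval_mul, eval_sub, eval_X, eval_C] at g1
      have g7 : M.weierstrassP (μ * z) * (μ ^ 2 * bf L R' z) = A₂.eval (L.weierstrassP z) := by
        apply mul_left_cancel₀ g5
        rw [← g1]
        ring
      rw [← g7]
      ring
    have h4 := tendsto_nhds_unique (h1.congr' (h3.mono fun z hz => hz.symm)) h2
    have h5 : bf L R' p = 0 := by
      have e : 1 / μ ^ 2 * (μ ^ 2 * bf L R' p) = bf L R' p := by field_simp
      rw [e] at h4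
      rw [h4]
      ring
    exact bf_ne hne h5
  · have h1 : Tendsto (fun z => (z - p) ^ 2 * M.weierstrassP (μ * z) *
        (μ ^ 2 * (((L.weierstrassP z - L.weierstrassP p) / (z - p)) ^ 2 * bf L R' z))) (𝓝[≠] p)
        (𝓝 (1 / μ ^ 2 * (μ ^ 2 * (L.derivWeierstrassP p ^ 2 * bf L R' p)))) :=
      hlim.mul ((((slopeP L hpL).pow 2).mul (bf_tend L R' hpL)).const_mul _)
    have h3 : ∀ᶠ z in 𝓝[≠] p, (z - p) ^ 2 * M.weierstrassP (μ * z) *
        (μ ^ 2 * (((L.weierstrassP z - L.weierstrassP p) / (z - p)) ^ 2 * bf L R' z)) =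
        A.eval (L.weierstrassP z) := by
      filter_upwards [hev, self_mem_nhdsWithin] with z g1 hz
      have hz' : z - p ≠ 0 := sub_ne_zero.2 hz
      have g6 : bf L R z = (L.weierstrassP z - L.weierstrassP p) *
          ((L.weierstrassP z - L.weierstrassP p) * bf L R' z) := by
        rw [he]
        unfold bf
        rw [Finset.prod_insert hn, Finset.prod_insert hn', hPp]
      rw [← g1, g6]
      field_simp
    have h4 := tendsto_nhds_unique (h1.congr' h3) (evA L A hpL)
    rw [← h4]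
    have e : 1 / μ ^ 2 * (μ ^ 2 * (L.derivWeierstrassP p ^ 2 * bf L R' p)) =
        L.derivWeierstrassP p ^ 2 * bf L R' p := by field_simp
    rw [e]
    exact mul_ne_zero (pow_ne_zero 2 hz) (bf_ne hne)

theorem evB (L : PeriodPair) (μ : ℂ) (R : Finset ℂ) (z : ℂ) :
    (C (μ ^ 2) * ∏ q ∈ R, (X - C (L.weierstrassP q))).eval (L.weierstrassP z) =
      μ ^ 2 * bf L R z := by
  rw [eval_mul, eval_C, eval_prod]
  simp only [eval_sub, eval_X, eval_C]
  rfl

theorem ker {L M : PeriodPair} {μ : ℂ} {R : Finset ℂ} (hμ : μ ≠ 0) (hL : Isg L M μ)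
    (hR : IsRpM L M μ R) (z : ℂ) (hz : z ∉ L.lattice) :
    μ * z ∈ M.lattice ↔ μ ^ 2 * bf L R z = 0 := by
  constructor
  · intro h
    obtain ⟨q, hq, h2⟩ := hR.surj z h hz
    have h3 : L.weierstrassP z = L.weierstrassP q := by
      rw [← per L q _ h2]
      congr 1
      ring
    have h4 : bf L R z = 0 :=
      Finset.prod_eq_zero (f := fun q => L.weierstrassP z - L.weierstrassP q) hq
        (sub_eq_zero.2 h3)
    rw [h4, mul_zero]
  · intro h
    have h1 : bf L R z = 0 := (mul_eq_zero.1 h).resolve_left (pow_ne_zero 2 hμ)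
    unfold bf at h1
    obtain ⟨q, hq, h2⟩ := Finset.prod_eq_zero_iff.1 h1
    rcases b_NEQ L q z (hR.ne q hq) hz (sub_eq_zero.1 h2) with h3 | h3
    · have h4 := M.lattice.add_mem (hL _ h3) (hR.mem q hq)
      have e : μ * (z - q) + μ * q = μ * z := by ring
      rwa [e] at h4
    · have h4 := M.lattice.sub_mem (hL _ h3) (hR.mem q hq)
      have e : μ * (z + q) - μ * q = μ * z := by ring
      rwa [e] at h4

theorem isoP {L M : PeriodPair} {μ : ℂ} {R : Finset ℂ} (hμ : μ ≠ 0) (hL : Isg L M μ)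
    (hR : IsRpM L M μ R) {A : ℂ[X]}
    (hA : ∀ z, z ∉ L.lattice → μ * z ∉ M.lattice →
        M.weierstrassP (μ * z) * (μ ^ 2 * bf L R z) = A.eval (L.weierstrassP z)) :
    IsoP L M μ A (C (μ ^ 2) * ∏ q ∈ R, (X - C (L.weierstrassP q))) := by
  refine ⟨?_, ?_, ?_⟩
  · refine IsCoprime.mul_right ?_ ?_
    · have hu : IsUnit (C (μ ^ 2) : ℂ[X]) := isUnit_C.2 (pow_ne_zero 2 hμ).isUnit
      exact (isCoprime_one_right (x := A)).of_isCoprime_of_dvd_right hu.dvd
    · refine IsCoprime.prod_right fun q hq => ?_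
      refine IsCoprime.symm ((irreducible_X_sub_C _).coprime_iff_not_dvd.2 fun h => ?_)
      exact A_ne hμ hL hR hA hq (dvd_iff_isRoot.1 h)
  · intro z hz
    rw [evB]
    exact ker hμ hL hR z hz
  · intro z hz hz'
    rw [evB]
    exact hA z hz hz'

/-! ## The differential equation -/

theorem ode_pt {L M : PeriodPair} {μ : ℂ} {A B : ℂ[X]} (h : IsoP L M μ A B) (z : ℂ)
    (hz : z ∉ L.lattice) (hz' : μ * z ∉ M.lattice) :
    μ * M.derivWeierstrassP (μ * z) * B.eval (L.weierstrassP z) ^ 2 =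
      (derivative A * B - A * derivative B).eval (L.weierstrassP z) * L.derivWeierstrassP z := by
  have dA : ∀ Q : ℂ[X], HasDerivAt (fun x => Q.eval (L.weierstrassP x))
      ((derivative Q).eval (L.weierstrassP z) * L.derivWeierstrassP z) z := fun Q =>
    HasDerivAt.comp z (Q.hasDerivAt (L.weierstrassP z)) (hasD L hz)
  have dM : HasDerivAt (fun x => M.weierstrassP (μ * x)) (M.derivWeierstrassP (μ * z) * μ) z := by
    have h4 : HasDerivAt (fun x : ℂ => μ * x) μ z := by
      simpa using (hasDerivAt_id z).const_mul μ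
    exact HasDerivAt.comp z (hasD M hz') h4
  have d1 := dM.mul (dA B)
  have d2 := dA A
  have hU : ∀ᶠ x in 𝓝 z, x ∉ L.lattice ∧ μ * x ∉ M.lattice := by
    refine Filter.Eventually.and ?_ ?_
    · exact L.isClosed_lattice.isOpen_compl.mem_nhds hz
    · exact (by fun_prop : Continuous fun x : ℂ => μ * x).continuousAt.eventually
        (M.isClosed_lattice.isOpen_compl.mem_nhds hz')
  have d3 : HasDerivAt (fun x => A.eval (L.weierstrassP x))
      (M.derivWeierstrassP (μ * z) * μ * B.eval (L.weierstrassP z) +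
        M.weierstrassP (μ * z) * ((derivative B).eval (L.weierstrassP z) *
          L.derivWeierstrassP z)) z := by
    refine d1.congr_of_eventuallyEq ?_
    filter_upwards [hU] with x hx
    exact (h.P x hx.1 hx.2).symm
  have h5 := d3.unique d2
  have h6 := h.P z hz hz'
  rw [eval_sub, eval_mul, eval_mul]
  linear_combination (B.eval (L.weierstrassP z)) * h5 -
    ((derivative B).eval (L.weierstrassP z) * L.derivWeierstrassP z) * h6

theorem ode_of {L M : PeriodPair} {μ : ℂ} {A B : ℂ[X]} (h : IsoP L M μ A B) (hB : B ≠ 0) :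
    OdeP L.g₂ L.g₃ M.g₂ M.g₃ μ A B := by
  refine mul_right_cancel₀ hB ?_
  refine Polynomial.funext fun x => ?_
  obtain ⟨z, hz, rfl⟩ := b_SUR L x
  by_cases hb : B.eval (L.weierstrassP z) = 0
  · have hm : ∀ T : ℂ[X], (T * B).eval (L.weierstrassP z) = 0 := fun T => by
      rw [eval_mul, hb, mul_zero]
    rw [hm, hm]
  · have hz' : μ * z ∉ M.lattice := fun h1 => hb ((h.ker z hz).1 h1)
    have h1 := ode_pt h z hz hz'
    have h2 := L.derivWeierstrassP_sq z hz
    have h3 := M.derivWeierstrassP_sq (μ * z) hz'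
    have h4 := h.P z hz hz'
    rw [eval_mul, eval_mul (q := B)]
    congr 1
    rw [eval_mul, eval_pow, eval_mul, eval_C]
    have e1 : (4 * X ^ 3 - C L.g₂ * X - C L.g₃ : ℂ[X]).eval (L.weierstrassP z) =
        L.derivWeierstrassP z ^ 2 := by
      rw [h2]
      simp
    have e2 : (4 * A ^ 3 * B - C M.g₂ * A * B ^ 3 - C M.g₃ * B ^ 4).eval (L.weierstrassP z) =
        M.derivWeierstrassP (μ * z) ^ 2 * B.eval (L.weierstrassP z) ^ 4 := by
      rw [h3]
      simp only [eval_sub, eval_mul, eval_pow, eval_C, eval_ofNat]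
      rw [← h4]
      ring
    rw [e1, e2, ← mul_pow, ← h1]
    ring

end ISO19

open _root_.Pool.Agent.MUXU.ISO19 in
theorem tu_ISO : Su_ISO := by
  intro L M μ R hμ hL hR
  obtain ⟨A, hA1, hA2, hA3⟩ := exA hμ hL hR
  have hiso := isoP hμ hL hR hA3
  refine ⟨A, monic_of_natDegree_le_of_coeff_eq_one _ hA1 hA2, ?_, ?_, hiso⟩
  · refine le_antisymm hA1 (le_natDegree_of_ne_zero ?_)
    rw [hA2]
    exact one_ne_zero
  · refine ode_of hiso (mul_ne_zero (C_ne_zero.2 (pow_ne_zero 2 hμ)) ?_)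
    exact Finset.prod_ne_zero_iff.2 fun q _ => X_sub_C_ne_zero _

end Pool.Agent.MUXU


end

section

/-!
# MUX, block U: conjugation and complex multiplication (CMC)
-/

set_option autoImplicit false

namespace Pool.Agent.MUXU

open _root_.Pool.Agent.MU3B

theorem tu_CMC (h1 : Su_FUN) : Su_CMC := by
  intro σ L L' Φ a hI hσ hC hΦ
  by_cases ha : a = 0
  · subst ha
    refine ⟨fun w _ => ?_, fun z => ?_⟩
    · rw [zero_mul]
      exact L'.lattice.zero_mem
    · rw [zero_mul, zero_mul, sub_zero]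
      exact (hΦ.mem 0).2 L.lattice.zero_mem
  · have h := h1 σ L L L' L' a Φ Φ ha hI hC hC hΦ hΦ
    rw [hσ] at h
    exact h

end Pool.Agent.MUXU


end
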