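import Mathlib
import Pool.Agent.MVF.C008
import Pool.Agent.MVF.C014

/-! Parts: MUX.U_PHI, MUX.U_PFI, MUX.U_JSU, MUX.U_GSL, MUX.U_DET -/

namespace Pool.Agent.MUXU.JSUaux
end Pool.Agent.MUXU.JSUaux
namespace Pool.Agent.MUXU.PHI
end Pool.Agent.MUXU.PHI

section

/-!
# MUX, block U: conjugation of points (PHI)
-/

set_option autoImplicit false

namespace Pool.Agent.MUXU

open WeierstrassCurve.Affine

noncomputable section

namespace PHI

/-- the map of points given by a ring homomorphism -/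
def pm (W : WeierstrassCurve.Affine ℂ) (f : ℂ →+* ℂ) :
    W.Point →+ (WeierstrassCurve.map W f).toAffine.Point where
  toFun P := match P with
    | 0 => 0
    | .some x y h => .some (f x) (f y) ((WeierstrassCurve.Affine.map_nonsingular (W := W) f.injective x y).mpr h)
  map_zero' := rfl
  map_add' := by
    rintro (_ | ⟨x₁, y₁, h₁⟩) (_ | ⟨x₂, y₂, h₂⟩)
    any_goals rfl
    by_cases hxy : x₁ = x₂ ∧ y₁ = W.negY x₂ y₂
    · rw [Point.add_of_Y_eq hxy.left hxy.right,
        Point.add_of_Y_eq (congr_arg _ hxy.left) <| by rw [hxy.right, map_negY]]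
    · simpa only [Point.add_some hxy, ← map_addX, ← map_addY, ← map_slope] using!
        (Point.add_some fun h ↦ hxy ⟨f.injective h.1, f.injective (map_negY f x₂ y₂ ▸ h).2⟩).symm

theorem cj (W W' : WeierstrassCurve.Affine ℂ) (σ : ℂ ≃+* ℂ)
    (hW : W' = (WeierstrassCurve.map W (σ : ℂ →+* ℂ)).toAffine) :
    ∃ s : W.Point →+ W'.Point, Function.Bijective s ∧
      ∀ x y h, ∃ h', s (.some x y h) = .some (σ x) (σ y) h' := by
  subst hW
  refine ⟨pm W (σ : ℂ →+* ℂ), ⟨?_, ?_⟩, fun x y h => ⟨_, rfl⟩⟩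
  · rw [injective_iff_map_eq_zero]
    rintro (_ | ⟨x, y, h⟩) hP
    · rfl
    · exact absurd hP (by intro h'; cases h')
  · rintro (_ | ⟨x, y, h⟩)
    · exact ⟨0, rfl⟩
    · have e1 : (σ : ℂ →+* ℂ) (σ.symm x) = x := σ.apply_symm_apply x
      have e2 : (σ : ℂ →+* ℂ) (σ.symm y) = y := σ.apply_symm_apply y
      have h' : W.Nonsingular (σ.symm x) (σ.symm y) := by
        rw [← WeierstrassCurve.Affine.map_nonsingular (W := W) (f := (σ : ℂ →+* ℂ)) (σ : ℂ →+* ℂ).injective, e1, e2]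
        exact h
      refine ⟨.some (σ.symm x) (σ.symm y) h', ?_⟩
      show Point.some ((σ : ℂ →+* ℂ) (σ.symm x)) ((σ : ℂ →+* ℂ) (σ.symm y)) _ = _
      congr 1

end PHI

open _root_.Pool.Agent.MUXU.PHI in
theorem tu_PHI (h1 : Su_XIL) : Su_PHI := by
  intro σ L L' hc
  obtain ⟨ξ, hk, hs, hx⟩ := h1 L
  obtain ⟨ξ', hk', hs', hx'⟩ := h1 L'
  have hW : EL L' = (WeierstrassCurve.map (EL L) (σ : ℂ →+* ℂ)).toAffine := by
    unfold EL
    rw [hc.1, hc.2]
    simp only [WeierstrassCurve.map, WeierstrassCurve.toAffine]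
    have h4 : σ 4 = 4 := map_ofNat σ 4
    congr 1 <;> simp [h4]
  obtain ⟨s, hb, hsm⟩ := cj (EL L) (EL L') σ hW
  choose Φ hΦ using fun z => hs' (s (ξ z))
  have hmem : ∀ z, Φ z ∈ L'.lattice ↔ z ∈ L.lattice := by
    intro z
    rw [← hk', hΦ, ← hk]
    exact map_eq_zero_iff s hb.1
  have key : ∀ z, z ∉ L.lattice → L'.weierstrassP (Φ z) = σ (L.weierstrassP z) ∧
      L'.derivWeierstrassP (Φ z) / 2 = σ (L.derivWeierstrassP z / 2) := by
    intro z hz
    have hz' : Φ z ∉ L'.lattice := fun h => hz ((hmem z).1 h)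
    obtain ⟨h, e⟩ := hx z hz
    obtain ⟨h', e'⟩ := hx' (Φ z) hz'
    obtain ⟨h'', e''⟩ := hsm _ _ h
    have := hΦ z
    rw [e, e', e''] at this
    exact Point.some.inj this
  refine ⟨Φ, hmem, fun z w => ?_, fun u => ?_, fun z hz => (key z hz).1, fun z hz => ?_⟩
  · rw [← hk', map_sub, map_sub, hΦ, hΦ, hΦ, map_add, map_add]
    abel
  · obtain ⟨P, hP⟩ := hb.2 (ξ' u)
    obtain ⟨z, hz⟩ := hs P
    refine ⟨z, ?_⟩
    rw [← hk', map_sub, hΦ, hz, hP, sub_self]
  · have h2 := (key z hz).2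
    rw [map_div₀, map_ofNat] at h2
    exact (div_left_inj' (two_ne_zero' ℂ)).1 h2

end

end Pool.Agent.MUXU


end

section

/-!
# MUX, block U: the product formula of an isogeny (helper84)
-/

set_option autoImplicit false

open Filter Topology Polynomial UpperHalfPlane
open scoped Real

namespace Pool.Agent.MUXU

open _root_.Pool.Agent.MU3B

noncomputable section

namespace PFI

theorem per (M : PeriodPair) {x y : ℂ} (h : x - y ∈ M.lattice) :
    M.weierstrassP x = M.weierstrassP y := by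
  have h1 := M.weierstrassP_add_coe y ⟨x - y, h⟩
  have h2 : y + (x - y) = x := by ring
  simp only [h2] at h1
  exact h1

/-- the generic case -/
theorem gen (h1 : Su_ISO) (L M : PeriodPair) (μ : ℂ) (R : Finset ℂ) (hμ : μ ≠ 0)
    (hI : Isg L M μ) (hR : IsRpM L M μ R) (w : ℂ) (hw : μ * w ∉ M.lattice)
    (hw2 : 2 * (μ * w) ∉ M.lattice) (z : ℂ) (hz : μ * z ∉ M.lattice) :
    μ ^ 2 * (M.weierstrassP (μ * z) - M.weierstrassP (μ * w)) *
        ∏ q ∈ R, (L.weierstrassP z - L.weierstrassP q) =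
      (L.weierstrassP z - L.weierstrassP w) *
        ∏ q ∈ R, (L.weierstrassP z - L.weierstrassP (w + q)) := by
  obtain ⟨A, hAm, hAd, -, hiso⟩ := h1 L M μ R hμ hI hR
  set B : ℂ[X] := C (μ ^ 2) * ∏ q ∈ R, (X - C (L.weierstrassP q)) with hB
  set c : ℂ := M.weierstrassP (μ * w) with hc
  have h0 : (0 : ℂ) ∉ R := fun h => hR.ne 0 h (zero_mem _)
  have hmem : ∀ q ∈ insert 0 R, μ * q ∈ M.lattice := by
    intro q hq
    rcases Finset.mem_insert.1 hq with rfl | hq
    · rw [mul_zero]; exact zero_mem _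
    · exact hR.mem q hq
  have hnL : ∀ q ∈ insert 0 R, w + q ∉ L.lattice := by
    intro q hq h
    have h2 := hI _ h
    rw [mul_add] at h2
    exact hw ((Submodule.add_mem_iff_left _ (hmem q hq)).1 h2)
  have hinj : Set.InjOn (fun q => L.weierstrassP (w + q)) (insert 0 R : Finset ℂ) := by
    intro q hq q' hq' h
    have hq : q ∈ insert 0 R := hq
    have hq' : q' ∈ insert 0 R := hq'
    rcases b_NEQ L (w + q') (w + q) (hnL q' hq') (hnL q hq) h with h2 | h2
    · have h3 : q - q' ∈ L.lattice := by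
        have h4 : w + q - (w + q') = q - q' := by ring
        rwa [h4] at h2
      rcases Finset.mem_insert.1 hq with rfl | hq1
      · rcases Finset.mem_insert.1 hq' with rfl | hq1'
        · rfl
        · exfalso
          rw [zero_sub] at h3
          exact hR.ne q' hq1' (neg_mem_iff.1 h3)
      · rcases Finset.mem_insert.1 hq' with rfl | hq1'
        · exfalso
          rw [sub_zero] at h3
          exact hR.ne q hq1 h3
        · exact hR.inj q hq1 q' hq1' h3
    · exfalso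
      have h3 := hI _ h2
      have h4 : μ * (w + q + (w + q')) = 2 * (μ * w) + (μ * q + μ * q') := by ring
      rw [h4] at h3
      exact hw2 ((Submodule.add_mem_iff_left _ (add_mem (hmem q hq) (hmem q' hq'))).1 h3)
  set s : Finset ℂ := (insert 0 R).image (fun q => L.weierstrassP (w + q)) with hs
  have hsc : s.card = R.card + 1 := by
    rw [hs, Finset.card_image_of_injOn hinj, Finset.card_insert_of_notMem h0]
  set P : ℂ[X] := ∏ q ∈ insert 0 R, (X - C (L.weierstrassP (w + q))) with hP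
  have hPm : P.Monic := monic_prod_of_monic _ _ fun q _ => monic_X_sub_C _
  have hPd : P.natDegree = R.card + 1 := by
    rw [hP, natDegree_prod_of_monic _ _ fun q _ => monic_X_sub_C _]
    simp [Finset.card_insert_of_notMem h0]
  have hBd : B.natDegree ≤ R.card := by
    rw [hB]
    refine (natDegree_C_mul_le _ _).trans ?_
    rw [natDegree_prod_of_monic _ _ fun q _ => monic_X_sub_C _]
    simp
  have hcB : (C c * B).natDegree < A.natDegree := by
    rw [hAd]
    exact lt_of_le_of_lt ((natDegree_C_mul_le _ _).trans hBd) (Nat.lt_succ_self _)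
  have hFm : (A - C c * B).Monic :=
    hAm.sub_of_left (degree_lt_degree hcB)
  have hFd : (A - C c * B).natDegree = R.card + 1 := by
    rw [natDegree_sub_eq_left_of_natDegree_lt hcB, hAd]
  have hlt : ((A - C c * B) - P).degree < (s.card : WithBot ℕ) := by
    rw [hsc]
    have h2 : (A - C c * B).degree = P.degree := by
      rw [degree_eq_natDegree hFm.ne_zero, degree_eq_natDegree hPm.ne_zero, hFd, hPd]
    have h3 := degree_sub_lt_left h2 hFm.ne_zero (by rw [hFm.leadingCoeff, hPm.leadingCoeff])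
    rw [degree_eq_natDegree hFm.ne_zero, hFd] at h3
    exact_mod_cast h3
  have heq : A - C c * B = P := by
    refine eq_of_degree_sub_lt_of_eval_finset_eq s hlt ?_
    intro x hx
    obtain ⟨q, hq, rfl⟩ := Finset.mem_image.1 hx
    have h2 : P.eval (L.weierstrassP (w + q)) = 0 := by
      rw [hP, eval_prod]
      exact Finset.prod_eq_zero hq (by simp)
    have h3 : μ * (w + q) ∉ M.lattice := by
      rw [mul_add]
      exact fun h => hw ((Submodule.add_mem_iff_left _ (hmem q hq)).1 h)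
    have h4 := hiso.P (w + q) (hnL q hq) h3
    have h5 : M.weierstrassP (μ * (w + q)) = c := by
      rw [hc]
      refine per M ?_
      have h6 : μ * (w + q) - μ * w = μ * q := by ring
      rw [h6]
      exact hmem q hq
    rw [h5] at h4
    show (A - C c * B).eval (L.weierstrassP (w + q)) = P.eval (L.weierstrassP (w + q))
    rw [h2, eval_sub, eval_mul, eval_C, h4, sub_self]
  have hzL : z ∉ L.lattice := fun h => hz (hI _ h)
  have h7 := congrArg (eval (L.weierstrassP z)) heq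
  have h8 := hiso.P z hzL hz
  rw [eval_sub, eval_mul, eval_C, ← h8, hP, eval_prod, Finset.prod_insert h0] at h7
  simp only [eval_sub, eval_X, eval_C, add_zero] at h7
  rw [← h7, hB, eval_mul, eval_C, eval_prod]
  simp only [eval_sub, eval_X, eval_C]
  ring

end PFI

/-- The product formula of an isogeny. -/
theorem tu_PFI (h1 : Su_ISO) : Su_PFI := by
  intro L M μ R hμ hI hR w hw z hz
  by_cases hw2 : 2 * (μ * w) ∉ M.lattice
  · exact PFI.gen h1 L M μ R hμ hI hR w hw hw2 z hz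
  push Not at hw2
  set F : ℂ → ℂ := fun w' => μ ^ 2 * (M.weierstrassP (μ * z) - M.weierstrassP (μ * w')) *
        ∏ q ∈ R, (L.weierstrassP z - L.weierstrassP q) -
      (L.weierstrassP z - L.weierstrassP w') *
        ∏ q ∈ R, (L.weierstrassP z - L.weierstrassP (w' + q)) with hF
  have hcM : ContinuousAt (fun w' : ℂ => M.weierstrassP (μ * w')) w :=
    ContinuousAt.comp (f := fun w' : ℂ => μ * w') (g := M.weierstrassP)
      (M.analyticOnNhd_weierstrassP (μ * w) hw).continuousAt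
      (continuous_const.mul continuous_id).continuousAt
  have hcL : ∀ q : ℂ, μ * q ∈ M.lattice →
      ContinuousAt (fun w' : ℂ => L.weierstrassP (w' + q)) w := by
    intro q hq
    have h2 : w + q ∉ L.lattice := by
      intro h
      have h2 := hI _ h
      rw [mul_add] at h2
      exact hw ((Submodule.add_mem_iff_left _ hq).1 h2)
    exact ContinuousAt.comp (f := fun w' : ℂ => w' + q) (g := L.weierstrassP)
      (L.analyticOnNhd_weierstrassP (w + q) h2).continuousAt
      (continuous_id.add continuous_const).continuousAt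
  have hcL0 : ContinuousAt (fun w' : ℂ => L.weierstrassP w') w := by
    have h2 := hcL 0 (by rw [mul_zero]; exact zero_mem _)
    simpa using h2
  have hFc : ContinuousAt F w := by
    refine ContinuousAt.sub ?_ ?_
    · exact (continuousAt_const.mul (continuousAt_const.sub hcM)).mul continuousAt_const
    · refine (continuousAt_const.sub hcL0).mul ?_
      exact tendsto_finsetProd R fun q hq => continuousAt_const.sub (hcL q (hR.mem q hq))
  have hev : ∀ᶠ w' in 𝓝[≠] w, F w' = 0 := by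
    have e1 : ∀ᶠ w' in 𝓝 w, μ * w' ∉ M.lattice := by
      have h2 : ContinuousAt (fun w' : ℂ => μ * w') w :=
        (continuous_const.mul continuous_id).continuousAt
      exact h2 (M.isClosed_lattice.isOpen_compl.mem_nhds hw)
    have e2 : ∀ᶠ w' in 𝓝 w, 2 * (μ * w') ∈ ((M.lattice : Set ℂ) \ {2 * (μ * w)})ᶜ := by
      have h2 : ContinuousAt (fun w' : ℂ => 2 * (μ * w')) w :=
        (continuous_const.mul (continuous_const.mul continuous_id)).continuousAt
      exact h2 (M.compl_lattice_sdiff_singleton_mem_nhds _)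
    filter_upwards [e1.filter_mono nhdsWithin_le_nhds, e2.filter_mono nhdsWithin_le_nhds,
      self_mem_nhdsWithin] with w' h2 h3 h4
    have h5 : 2 * (μ * w') ∉ M.lattice := by
      intro h
      refine h3 ⟨h, ?_⟩
      intro h6
      have h6 : 2 * (μ * w') = 2 * (μ * w) := h6
      have h7 : μ * w' = μ * w := mul_left_cancel₀ two_ne_zero h6
      exact h4 (mul_left_cancel₀ hμ h7)
    exact sub_eq_zero.2 (PFI.gen h1 L M μ R hμ hI hR w' h2 h5 z hz)
  have h6 : Tendsto F (𝓝[≠] w) (𝓝 (F w)) := hFc.tendsto.mono_left nhdsWithin_le_nhds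
  have h7 : Tendsto F (𝓝[≠] w) (𝓝 0) :=
    (tendsto_congr' hev).2 tendsto_const_nhds
  exact sub_eq_zero.1 (tendsto_nhds_unique h6 h7)

end

end Pool.Agent.MUXU


end

section

/-!
# MUX, block U: (JSU), `j` takes every value
-/

set_option autoImplicit false

open Filter Topology Polynomial UpperHalfPlane
open scoped Real

namespace Pool.Agent.MUXU

open _root_.Pool.Agent.MU3B

noncomputable section

namespace JSUaux

/-- the discriminant -/
def Dl (τ : ℍ) : ℂ := (LT τ).g₂ ^ 3 - 27 * (LT τ).g₃ ^ 2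

/-- the absolute invariant -/
def F (τ : ℍ) : ℂ := (LT τ).g₂ ^ 3 / Dl τ

theorem Dl_ne (τ : ℍ) : Dl τ ≠ 0 := sub_ne_zero.2 (b_DSC (LT τ)).1

theorem F_gsl (h : Su_GSL) (τ : ℍ) :
    ∃ τ' : ℍ, |τ'.re| ≤ 1 / 2 ∧ 1 ≤ ‖(τ' : ℂ)‖ ∧ F τ = F τ' := by
  obtain ⟨τ', u, hu, h1, h2, h3, h4⟩ := h τ
  refine ⟨τ', h1, h2, ?_⟩
  have hd : Dl τ = u ^ 12 * Dl τ' := by
    unfold Dl
    rw [h3, h4]
    ring
  unfold F
  rw [hd, h3]
  have h5 := Dl_ne τ'
  have h6 : u ^ 12 ≠ 0 := pow_ne_zero _ hu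
  field_simp

theorem lim_g (h : Su_LIM) : Tendsto (fun τ : ℍ => (LT τ).g₂ ^ 3) atImInfty
    (𝓝 ((4 * (π : ℂ) ^ 4 / 3) ^ 3)) := h.1.pow 3

theorem lim_D (h : Su_LIM) : Tendsto Dl atImInfty (𝓝 0) := by
  have h1 := (h.1.pow 3).sub ((h.2.pow 2).const_mul 27)
  have h2 : (4 * (π : ℂ) ^ 4 / 3) ^ 3 - 27 * (8 * (π : ℂ) ^ 6 / 27) ^ 2 = 0 := by ring
  rw [h2] at h1
  exact h1

/-- `|F|` is large near `i∞` -/
theorem F_large (h : Su_LIM) (R : ℝ) : ∃ Y : ℝ, ∀ τ : ℍ, Y ≤ τ.im → R < ‖F τ‖ := by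
  have hπ : (0 : ℝ) < ‖((4 * (π : ℂ) ^ 4 / 3) ^ 3)‖ := by
    rw [norm_pos_iff]
    have : (π : ℂ) ≠ 0 := by exact_mod_cast Real.pi_ne_zero
    exact pow_ne_zero _ (div_ne_zero (mul_ne_zero (by norm_num) (pow_ne_zero _ this))
      (by norm_num))
  have h1 := (lim_g h).norm
  have h2 : Tendsto (fun τ => (|R| + 1) * ‖Dl τ‖) atImInfty (𝓝 0) := by
    have := (lim_D h).norm.const_mul (|R| + 1)
    simpa using this
  have h3 := h2.eventually_lt h1 hπ
  rw [Filter.Eventually, UpperHalfPlane.atImInfty_mem] at h3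
  obtain ⟨Y, hY⟩ := h3
  refine ⟨Y, fun τ hτ => ?_⟩
  have h4 : (|R| + 1) * ‖Dl τ‖ < ‖(LT τ).g₂ ^ 3‖ := hY τ hτ
  have h5 : 0 < ‖Dl τ‖ := norm_pos_iff.2 (Dl_ne τ)
  unfold F
  rw [norm_div, lt_div_iff₀ h5]
  refine lt_of_le_of_lt ?_ h4
  apply mul_le_mul_of_nonneg_right _ h5.le
  linarith [le_abs_self R]

/-- the half plane -/
def U : Set ℂ := {z | 0 < z.im}

theorem U_open : IsOpen U := isOpen_lt continuous_const Complex.continuous_im

theorem U_conn : IsPreconnected U := (convex_halfSpace_im_gt 0).isPreconnected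

theorem F_diff (h : Su_GHO) : DifferentiableOn ℂ (fun z => F (ofComplex z)) U := by
  unfold F Dl
  apply DifferentiableOn.div (h.1.pow 3)
    ((h.1.pow 3).sub ((h.2.pow 2).const_mul 27))
  intro z _
  exact Dl_ne (ofComplex z)

theorem ofC (τ : ℍ) : ofComplex (τ : ℂ) = τ := ofComplex_apply τ

/-- the compact set -/
def KY (Y : ℝ) : Set ℂ := {z | |z.re| ≤ 1 / 2 ∧ 1 ≤ ‖z‖ ∧ 0 ≤ z.im ∧ z.im ≤ Y}

theorem KY_sub (Y : ℝ) : KY Y ⊆ U := by
  rintro z ⟨h1, h2, h3, _⟩
  rcases eq_or_lt_of_le h3 with h | h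
  · exfalso
    have h4 : ‖z‖ ≤ |z.re| + |z.im| := Complex.norm_le_abs_re_add_abs_im z
    rw [← h] at h4
    simp at h4
    linarith
  · exact h

theorem KY_compact (Y : ℝ) : IsCompact (KY Y) := by
  apply Metric.isCompact_of_isClosed_isBounded
  · have e : KY Y = ({z : ℂ | |z.re| ≤ 1 / 2} ∩ {z : ℂ | 1 ≤ ‖z‖}) ∩
        ({z : ℂ | 0 ≤ z.im} ∩ {z : ℂ | z.im ≤ Y}) := by
      ext z
      constructor
      · rintro ⟨h1, h2, h3, h4⟩
        exact ⟨⟨h1, h2⟩, h3, h4⟩
      · rintro ⟨⟨h1, h2⟩, h3, h4⟩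
        exact ⟨h1, h2, h3, h4⟩
    rw [e]
    exact ((isClosed_le Complex.continuous_re.abs continuous_const).inter
      (isClosed_le continuous_const continuous_norm)).inter
      ((isClosed_le continuous_const Complex.continuous_im).inter
      (isClosed_le Complex.continuous_im continuous_const))
  · rw [Metric.isBounded_iff_subset_closedBall 0]
    refine ⟨1 / 2 + |Y|, fun z hz => ?_⟩
    rw [mem_closedBall_zero_iff]
    obtain ⟨h1, _, h3, h4⟩ := hz
    have h5 : ‖z‖ ≤ |z.re| + |z.im| := Complex.norm_le_abs_re_add_abs_im z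
    rw [abs_of_nonneg h3] at h5
    linarith [le_abs_self Y]

end JSUaux

open _root_.Pool.Agent.MUXU.JSUaux in
theorem tu_JSU (h1 : Su_LIM) (h2 : Su_GHO) (h3 : Su_GSL) : Su_JSU := by
  set f : ℂ → ℂ := fun z => F (ofComplex z) with hf
  have hdiff : DifferentiableOn ℂ f U := F_diff h2
  have hIU : ((I : ℍ) : ℂ) ∈ U := (I : ℍ).im_pos
  have himg : ∀ τ : ℍ, F τ ∈ f '' U := fun τ => ⟨τ, τ.im_pos, by rw [hf]; simp only [ofC]⟩
  -- the image is open
  have hopen : IsOpen (f '' U) := by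
    rcases (hdiff.analyticOnNhd U_open).is_constant_or_isOpen U_conn with hc | ho
    · exfalso
      obtain ⟨w, hw⟩ := hc
      obtain ⟨Y, hY⟩ := F_large h1 ‖w‖
      set τ : ℍ := ⟨⟨0, |Y| + 1⟩, by positivity⟩ with hτ
      have h4 := hY τ (by
        change Y ≤ |Y| + 1
        linarith [le_abs_self Y])
      have h5 := hw (τ : ℂ) τ.im_pos
      rw [hf] at h5
      simp only [ofC] at h5
      rw [h5] at h4
      exact lt_irrefl _ h4
    · exact ho U (le_refl _) U_open
  -- the image is closed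
  have hclosed : IsClosed (f '' U) := by
    rw [← closure_subset_iff_isClosed]
    intro t ht
    obtain ⟨Y, hY⟩ := F_large h1 (‖t‖ + 1)
    have hK : IsClosed (f '' KY Y) :=
      ((KY_compact Y).image_of_continuousOn (hdiff.continuousOn.mono (KY_sub Y))).isClosed
    have hmem : t ∈ closure (f '' KY Y) := by
      rw [Metric.mem_closure_iff] at ht ⊢
      intro ε hε
      obtain ⟨b, hb, hbt⟩ := ht (min ε 1) (lt_min hε one_pos)
      refine ⟨b, ?_, lt_of_lt_of_le hbt (min_le_left _ _)⟩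
      obtain ⟨z, hz, rfl⟩ := hb
      obtain ⟨τ', h4, h5, h6⟩ := F_gsl h3 (ofComplex z)
      refine ⟨τ', ⟨h4, h5, τ'.im_pos.le, ?_⟩, ?_⟩
      · by_contra hcon
        have h7 := hY τ' (not_le.1 hcon).le
        rw [← h6] at h7
        have h8 : dist t (f z) < 1 := lt_of_lt_of_le hbt (min_le_right _ _)
        rw [dist_eq_norm] at h8
        have h9 : ‖f z‖ ≤ ‖t‖ + ‖t - f z‖ := by
          have := norm_sub_le t (t - f z)
          rwa [sub_sub_cancel] at this
        have h10 : ‖t‖ + 1 < ‖f z‖ := h7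
        linarith
      · rw [hf]
        simp only [ofC]
        exact h6.symm
    rw [hK.closure_eq] at hmem
    obtain ⟨z, hz, hzt⟩ := hmem
    exact ⟨z, KY_sub Y hz, hzt⟩
  have huniv : f '' U = Set.univ :=
    IsClopen.eq_univ ⟨hclosed, hopen⟩ ⟨_, himg I⟩
  intro t
  have ht : t ∈ f '' U := by rw [huniv]; trivial
  obtain ⟨z, _, hzt⟩ := ht
  refine ⟨ofComplex z, ?_⟩
  have h4 : (LT (ofComplex z)).g₂ ^ 3 / Dl (ofComplex z) = t := hzt
  rw [div_eq_iff (Dl_ne _)] at h4
  exact h4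

end

end Pool.Agent.MUXU


end

section

/-!
# MUX, block U, GSL: every `τ` is equivalent to a point of the fundamental domain
-/

set_option autoImplicit false

open UpperHalfPlane

namespace Pool.Agent.MUXU

open _root_.Pool.Agent.MU3A

/-- every `τ` is equivalent to a point of the fundamental domain, with the same `j` -/
theorem tu_GSL : Su_GSL := by
  intro τ
  obtain ⟨γ, hγ⟩ := ModularGroup.exists_smul_mem_fd τ
  have hdet : (γ 0 0 : ℂ) * γ 1 1 - γ 0 1 * γ 1 0 = 1 := by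
    have h := γ.det_coe
    rw [Matrix.det_fin_two] at h
    exact_mod_cast h
  have ha : ((γ 1 0 : ℤ) : ℂ) * (τ : ℂ) + ((γ 1 1 : ℤ) : ℂ) ≠ 0 := by
    have h := UpperHalfPlane.denom_ne_zero (γ : GL (Fin 2) ℝ) τ
    simpa [UpperHalfPlane.denom] using h
  have hτ' : (((γ • τ : ℍ)) : ℂ) * (γ 1 0 * (τ : ℂ) + γ 1 1) = γ 0 0 * (τ : ℂ) + γ 0 1 := by
    rw [UpperHalfPlane.coe_specialLinearGroup_apply]
    simp only [algebraMap_int_eq, eq_intCast, Complex.ofReal_intCast]
    rw [div_mul_cancel₀ _ ha]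
  set a : ℂ := γ 1 0 * (τ : ℂ) + γ 1 1 with hadef
  have hlat : ∀ u : ℂ, u ∈ (LT (γ • τ)).lattice ↔ a * u ∈ (LT τ).lattice := by
    intro u
    rw [PeriodPair.mem_lattice, PeriodPair.mem_lattice]
    show (∃ m n : ℤ, (m : ℂ) * 1 + n * ((γ • τ : ℍ) : ℂ) = u) ↔
      ∃ m n : ℤ, (m : ℂ) * 1 + n * (τ : ℂ) = a * u
    constructor
    · rintro ⟨m, n, h⟩
      refine ⟨m * γ 1 1 + n * γ 0 1, m * γ 1 0 + n * γ 0 0, ?_⟩
      rw [← h]
      push_cast
      linear_combination (-(n : ℂ)) * hτ' + (m : ℂ) * hadef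
    · rintro ⟨m, n, h⟩
      refine ⟨m * γ 0 0 - n * γ 0 1, n * γ 1 1 - m * γ 1 0, ?_⟩
      apply mul_left_cancel₀ ha
      rw [← h]
      push_cast
      linear_combination ((n : ℂ) * γ 1 1 - m * γ 1 0) * hτ' +
        ((m : ℂ) * γ 0 0 - n * γ 0 1) * hadef + ((m : ℂ) + n * (τ : ℂ)) * hdet
  obtain ⟨-, -, h2, h3⟩ := ta_SCP (LT (γ • τ)) (LT τ) a ha hlat
  refine ⟨γ • τ, a⁻¹, inv_ne_zero ha, hγ.2, ?_, ?_, ?_⟩
  · have h := hγ.1
    rw [Complex.normSq_eq_norm_sq] at h
    nlinarith [norm_nonneg (((γ • τ : ℍ)) : ℂ)]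
  · rw [h2, inv_pow, div_eq_inv_mul]
  · rw [h3, inv_pow, div_eq_inv_mul]

end Pool.Agent.MUXU


end

section

/-!
# MUX, block U, module DET: the invariants determine the lattice
-/

set_option autoImplicit false

open Polynomial

namespace Pool.Agent.MUXU

open _root_.Pool.Agent.MU3B

namespace DET

theorem ode (a b : ℂ) : OdeP a b a b 1 X 1 := by
  unfold OdeP
  simp only [derivative_X, derivative_one, mul_one, mul_zero, sub_zero, one_pow, one_mul, map_one]

theorem incl (h1 : Su_ODE) (L M : PeriodPair) (h2 : L.g₂ = M.g₂) (h3 : L.g₃ = M.g₃) :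
    L.lattice ≤ M.lattice := by
  have h : OdeP L.g₂ L.g₃ M.g₂ M.g₃ 1 X 1 := by
    rw [h2, h3]
    exact ode _ _
  have h4 := (h1 L M 1 X 1 one_ne_zero isCoprime_one_right (by simp) h).1
  intro w hw
  have h5 := h4 w hw
  rwa [one_mul] at h5

end DET

/-- (DET) -/
theorem tu_DET (h1 : Su_ODE) : Su_DET := fun L M h2 h3 =>
  le_antisymm (DET.incl h1 L M h2 h3) (DET.incl h1 M L h2.symm h3.symm)

end Pool.Agent.MUXU


end
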