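import Mathlib
import Pool.Agent.MVF.C030

/-! Parts: RI.HERB, RID.P_HQ3 -/

namespace Pool.Agent.RI.HERB
end Pool.Agent.RI.HERB
namespace Pool.Agent.RID.HQ3
end Pool.Agent.RID.HQ3

section

/-!
# Fixed points and norms for an automorphism of prime order
-/

namespace Pool.Agent.RI

namespace HERB

open Finset

/-- `g - 1` for an endomorphism `g` of an abelian group. -/
def dif {M : Type*} [AddCommGroup M] (g : AddMonoid.End M) : M →+ M := (g - 1 : AddMonoid.End M)

theorem exists_poly (p : ℕ) [hp : Fact p.Prime] : ∃ h : Polynomial ℤ,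
    (Polynomial.X - 1) ^ (p - 1) = ∑ i ∈ range p, Polynomial.X ^ i + Polynomial.C (p : ℤ) * h := by
  have h1 : Polynomial.map (Int.castRingHom (ZMod p))
      ((Polynomial.X - 1) ^ (p - 1) - ∑ i ∈ range p, Polynomial.X ^ i : Polynomial ℤ) = 0 := by
    have h2 := Polynomial.cyclotomic_mul_prime_eq_pow_of_not_dvd (ZMod p) (n := 1) (p := p)
      (fun h => hp.out.one_lt.not_ge (Nat.le_of_dvd one_pos h))
    rw [one_mul, Polynomial.cyclotomic_one, Polynomial.cyclotomic_prime] at h2
    rw [Polynomial.map_sub, Polynomial.map_pow, Polynomial.map_sub, Polynomial.map_X,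
      Polynomial.map_one, ← h2, Polynomial.map_sum, sub_eq_zero]
    refine Finset.sum_congr rfl fun i _ => ?_
    rw [Polynomial.map_pow, Polynomial.map_X]
  have h2 : Polynomial.C (p : ℤ) ∣
      ((Polynomial.X - 1) ^ (p - 1) - ∑ i ∈ range p, Polynomial.X ^ i : Polynomial ℤ) := by
    rw [Polynomial.C_dvd_iff_dvd_coeff]
    intro i
    have h3 := congrArg (fun q => Polynomial.coeff q i) h1
    simp only [Polynomial.coeff_map, Polynomial.coeff_zero] at h3
    exact (ZMod.intCast_zmod_eq_zero_iff_dvd _ p).mp (by simpa using h3)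
  obtain ⟨h, hh⟩ := h2
  exact ⟨h, by rw [← hh]; ring⟩

theorem index_pow {M : Type*} [AddCommGroup M] (f : AddMonoid.End M)
    (hf : Function.Injective f) (k : ℕ) :
    (AddMonoidHom.range (f ^ k)).index = (AddMonoidHom.range f).index ^ k := by
  induction k with
  | zero =>
    rw [pow_zero, pow_zero, AddSubgroup.index_eq_one]
    rw [eq_top_iff]
    intro x _
    exact ⟨x, rfl⟩
  | succ k ih =>
    have h1 : AddMonoidHom.range (f ^ (k + 1)) = (AddMonoidHom.range (f ^ k)).map f := by
      ext x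
      constructor
      · rintro ⟨y, rfl⟩
        exact ⟨(f ^ k) y, ⟨y, rfl⟩, by rw [pow_succ']; rfl⟩
      · rintro ⟨_, ⟨y, rfl⟩, rfl⟩
        exact ⟨y, by rw [pow_succ']; rfl⟩
    rw [h1, AddSubgroup.index_map_of_injective _ hf, ih, pow_succ]

theorem finite_torsion (M : Type*) [AddCommGroup M] [Module.Finite ℤ M] :
    Finite (AddCommGroup.torsion M) := by
  have h1 : Module.Finite ℤ (AddSubgroup.toIntSubmodule (AddCommGroup.torsion M)) := inferInstance
  have h2 : Module.IsTorsion ℤ (AddSubgroup.toIntSubmodule (AddCommGroup.torsion M)) := by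
    rintro ⟨x, hx⟩
    obtain ⟨n, hn, hx'⟩ := isOfFinAddOrder_iff_nsmul_eq_zero.mp hx
    refine ⟨⟨(n : ℤ), mem_nonZeroDivisors_of_ne_zero (by exact_mod_cast hn.ne')⟩, ?_⟩
    apply Subtype.ext
    change ((n : ℤ) : ℤ) • x = 0
    rw [natCast_zsmul, hx']
  have h3 : Finite (AddSubgroup.toIntSubmodule (AddCommGroup.torsion M)) :=
    Module.finite_of_fg_torsion _ h2
  exact h3

/-- The index of the image of an endomorphism with finite kernel. -/
theorem index_range_eq {M : Type*} [AddCommGroup M] [Module.Finite ℤ M] (f : M →+ M)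
    (hf : f.ker ≤ AddCommGroup.torsion M) :
    f.range.index = Nat.card f.ker *
      (f.range.map (QuotientAddGroup.mk' (AddCommGroup.torsion M))).index := by
  obtain ⟨T, hT⟩ : ∃ T : AddSubgroup M, T = AddCommGroup.torsion M := ⟨_, rfl⟩
  have hfin : Finite T := by
    rw [hT]
    exact finite_torsion M
  rw [← hT]
  have hfT' : ∀ x ∈ T, f x ∈ T := by
    intro x hx
    rw [hT] at hx ⊢
    exact AddCommGroup.le_comap_torsion f hx
  have hfT : ∀ x : T, (f.comp T.subtype) x ∈ T := fun x => hfT' x x.2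
  have h1 : (f.range.map (QuotientAddGroup.mk' T)).index = (f.range ⊔ T).index := by
    rw [AddSubgroup.index_map, QuotientAddGroup.ker_mk',
      AddMonoidHom.range_eq_top.mpr (QuotientAddGroup.mk'_surjective T), AddSubgroup.index_top,
      mul_one]
  have h2 : f.range.relIndex (f.range ⊔ T) * (f.range ⊔ T).index = f.range.index :=
    AddSubgroup.relIndex_mul_index le_sup_left
  have h3 : f.range.addSubgroupOf T = ((f.comp T.subtype).codRestrict T hfT).range := by
    ext ⟨x, hx⟩
    rw [AddSubgroup.mem_addSubgroupOf]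
    constructor
    · rintro ⟨y, hy⟩
      have hyT : y ∈ T := by
        have hx' := hx
        rw [hT] at hx'
        obtain ⟨n, hn, hnx⟩ := isOfFinAddOrder_iff_nsmul_eq_zero.mp hx'
        have h4 : n • y ∈ AddCommGroup.torsion M := by
          apply hf
          rw [AddMonoidHom.mem_ker, map_nsmul, hy]
          exact hnx
        obtain ⟨m, hm, hmy⟩ := isOfFinAddOrder_iff_nsmul_eq_zero.mp h4
        rw [hT]
        refine isOfFinAddOrder_iff_nsmul_eq_zero.mpr ⟨m * n, Nat.mul_pos hm hn, ?_⟩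
        rw [mul_nsmul']
        exact hmy
      exact ⟨⟨y, hyT⟩, Subtype.ext hy⟩
    · rintro ⟨y, hy⟩
      exact ⟨y, congrArg Subtype.val hy⟩
  have h4 : f.range.relIndex T = Nat.card f.ker := by
    rw [AddSubgroup.relIndex, h3, AddSubgroup.index_range]
    refine Nat.card_congr ⟨fun y => ⟨(y : T), ?_⟩, fun y => ⟨⟨(y : M), ?_⟩, ?_⟩, ?_, ?_⟩
    · have h5 := y.2
      rw [AddMonoidHom.mem_ker] at h5 ⊢
      exact congrArg Subtype.val h5
    · rw [hT]
      exact hf y.2
    · rw [AddMonoidHom.mem_ker]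
      exact Subtype.ext y.2
    · intro y
      rfl
    · intro y
      rfl
  rw [h1, ← h2, AddSubgroup.relIndex_sup_left, h4]

/-- The quotient by the torsion subgroup. -/
abbrev Fq (M : Type*) [AddCommGroup M] : Type _ := M ⧸ AddCommGroup.torsion M

instance finite_Fq (M : Type*) [AddCommGroup M] [Module.Finite ℤ M] : Module.Finite ℤ (Fq M) :=
  Module.Finite.of_surjective (QuotientAddGroup.mk' (AddCommGroup.torsion M)).toIntLinearMap
    (QuotientAddGroup.mk'_surjective _)

instance free_Fq (M : Type*) [AddCommGroup M] [Module.Finite ℤ M] : Module.Free ℤ (Fq M) := by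
  have : IsAddTorsionFree (Fq M) := inferInstance
  exact Module.free_of_finite_type_torsion_free'

theorem rank_nullity {M M' : Type*} [AddCommGroup M] [Module.Finite ℤ M] [AddCommGroup M']
    (f : M →+ M') : Module.finrank ℤ f.range + Module.finrank ℤ f.ker = Module.finrank ℤ M := by
  have h := Submodule.finrank_quotient_add_finrank (LinearMap.ker f.toIntLinearMap)
  rw [← h, (LinearMap.quotKerEquivRange f.toIntLinearMap).finrank_eq]
  rfl

theorem finrank_Fq (M : Type*) [AddCommGroup M] [Module.Finite ℤ M] :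
    Module.finrank ℤ (Fq M) = Module.finrank ℤ M := by
  have h1 : Module.finrank ℤ
      (LinearMap.range (QuotientAddGroup.mk' (AddCommGroup.torsion M)).toIntLinearMap) +
      Module.finrank ℤ
        (LinearMap.ker (QuotientAddGroup.mk' (AddCommGroup.torsion M)).toIntLinearMap) =
      Module.finrank ℤ M := rank_nullity (QuotientAddGroup.mk' (AddCommGroup.torsion M))
  have h2 : LinearMap.range (QuotientAddGroup.mk' (AddCommGroup.torsion M)).toIntLinearMap = ⊤ :=
    LinearMap.range_eq_top.mpr (QuotientAddGroup.mk'_surjective _)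
  have h3 : Module.finrank ℤ
      (LinearMap.ker (QuotientAddGroup.mk' (AddCommGroup.torsion M)).toIntLinearMap) = 0 := by
    rw [Module.finrank_eq_zero_iff_isTorsion]
    rintro ⟨x, hx⟩
    have hx' : x ∈ AddCommGroup.torsion M := by
      rw [← QuotientAddGroup.ker_mk' (AddCommGroup.torsion M)]
      exact hx
    obtain ⟨n, hn, hx''⟩ := isOfFinAddOrder_iff_nsmul_eq_zero.mp hx'
    refine ⟨⟨(n : ℤ), mem_nonZeroDivisors_of_ne_zero (by exact_mod_cast hn.ne')⟩, ?_⟩
    apply Subtype.ext
    change ((n : ℤ) : ℤ) • x = 0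
    rw [natCast_zsmul, hx'']
  rw [h2, h3, add_zero, finrank_top] at h1
  exact h1

theorem index_nsmul (M : Type*) [AddCommGroup M] [Module.Finite ℤ M] (p : ℕ) [hp : NeZero p] :
    (nsmulAddMonoidHom p : M →+ M).range.index =
      Nat.card (nsmulAddMonoidHom p : M →+ M).ker * p ^ Module.finrank ℤ M := by
  rw [index_range_eq]
  · congr 1
    rw [← finrank_Fq M, ← ModN.natCard_eq (Fq M) p, AddSubgroup.index_eq_card]
    have h1 : (nsmulAddMonoidHom p : M →+ M).range.map
        (QuotientAddGroup.mk' (AddCommGroup.torsion M)) =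
        (LinearMap.range (LinearMap.lsmul ℤ (Fq M) (p : ℤ))).toAddSubgroup := by
      ext x
      constructor
      · rintro ⟨_, ⟨y, rfl⟩, rfl⟩
        refine ⟨QuotientAddGroup.mk' (AddCommGroup.torsion M) y, ?_⟩
        rw [LinearMap.lsmul_apply, natCast_zsmul]
        exact (map_nsmul (QuotientAddGroup.mk' (AddCommGroup.torsion M)) p y).symm
      · rintro ⟨y, rfl⟩
        obtain ⟨z, rfl⟩ := QuotientAddGroup.mk'_surjective (AddCommGroup.torsion M) y
        refine ⟨p • z, ⟨z, rfl⟩, ?_⟩
        rw [LinearMap.lsmul_apply, natCast_zsmul]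
        exact map_nsmul (QuotientAddGroup.mk' (AddCommGroup.torsion M)) p z
    rw [h1]
    rfl
  · intro x hx
    exact isOfFinAddOrder_iff_nsmul_eq_zero.mpr ⟨p, Nat.pos_of_ne_zero hp.out, hx⟩

theorem sum_apply {M ι : Type*} [AddCommGroup M] (s : Finset ι) (f : ι → AddMonoid.End M)
    (x : M) : (∑ i ∈ s, f i) x = ∑ i ∈ s, f i x := by
  classical
  induction s using Finset.induction_on with
  | empty => rfl
  | insert a s ha ih =>
    rw [Finset.sum_insert ha, Finset.sum_insert ha, ← ih]
    rfl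

theorem fix_nsmul {M : Type*} [AddCommGroup M] (g : AddMonoid.End M) (p : ℕ) (x : M)
    (h1 : (∑ i ∈ range p, g ^ i) x = 0) (h2 : g x = x) : p • x = 0 := by
  rw [← h1, sum_apply]
  have h3 : ∀ i : ℕ, (g ^ i) x = x := by
    intro i
    induction i with
    | zero => rfl
    | succ i ih =>
      rw [pow_succ]
      change (g ^ i) (g x) = x
      rw [h2, ih]
  rw [Finset.sum_congr rfl fun i _ => h3 i, Finset.sum_const, Finset.card_range]

theorem nsmul_mem_range {B : Type*} [AddCommGroup B] (g : AddMonoid.End B) (p : ℕ)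
    (x : B) (hx : (∑ i ∈ range p, g ^ i) x = 0) : p • x ∈ (dif g).range := by
  have h1 : p • x = -∑ i ∈ range p, (g ^ i - 1) x := by
    have h2 : ∑ i ∈ range p, (g ^ i - 1) x = (∑ i ∈ range p, g ^ i) x - p • x := by
      rw [sum_apply]
      have h3 : ∀ i ∈ range p, (g ^ i - 1) x = (g ^ i) x - x := fun i _ => rfl
      rw [Finset.sum_congr rfl h3, Finset.sum_sub_distrib, Finset.sum_const, Finset.card_range]
    rw [h2, hx]
    simp
  rw [h1]
  refine neg_mem (sum_mem fun i _ => ?_)
  rw [← mul_geom_sum]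
  exact ⟨_, rfl⟩

theorem card_ker_ne_zero {M : Type*} [AddCommGroup M] [Module.Finite ℤ M] (f : M →+ M)
    (hf : f.ker ≤ AddCommGroup.torsion M) : Nat.card f.ker ≠ 0 := by
  have h1 := finite_torsion M
  have h2 : Finite f.ker := Finite.of_injective _ (AddSubgroup.inclusion_injective hf)
  exact Nat.card_pos.ne'

theorem nsmul_ker_le {M : Type*} [AddCommGroup M] (p : ℕ) [hp : NeZero p] :
    (nsmulAddMonoidHom p : M →+ M).ker ≤ AddCommGroup.torsion M := fun _ hx =>
  isOfFinAddOrder_iff_nsmul_eq_zero.mpr ⟨p, Nat.pos_of_ne_zero hp.out, hx⟩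

theorem key {B : Type*} [AddCommGroup B] [Module.Finite ℤ B] (g : AddMonoid.End B) (p r : ℕ)
    [hp : Fact p.Prime] (hN : ∑ i ∈ range p, g ^ i = 0)
    (hr : Module.finrank ℤ B = (p - 1) * r) :
    p ^ r * Nat.card (dif g).ker ≤ (dif g).range.index ∧ (dif g).range.index ≠ 0 := by
  have : NeZero p := ⟨hp.out.ne_zero⟩
  have hkerB : (dif g).ker ≤ AddCommGroup.torsion B := by
    intro x hx
    have h2 : g x = x := by
      rw [AddMonoidHom.mem_ker] at hx
      exact sub_eq_zero.mp hx
    exact isOfFinAddOrder_iff_nsmul_eq_zero.mpr ⟨p, hp.out.pos, fix_nsmul g p x (by rw [hN]; rfl) h2⟩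
  obtain ⟨T, hT⟩ : ∃ T : AddSubgroup B, T = AddCommGroup.torsion B := ⟨_, rfl⟩
  obtain ⟨k, hk⟩ : ∃ k : AddMonoid.End (Fq B), k = QuotientAddGroup.map
      (AddCommGroup.torsion B) (AddCommGroup.torsion B) g (AddCommGroup.le_comap_torsion g) :=
    ⟨_, rfl⟩
  obtain ⟨q, hq⟩ : ∃ q : B →+ Fq B, q = QuotientAddGroup.mk' (AddCommGroup.torsion B) := ⟨_, rfl⟩
  have hqs : Function.Surjective q := by
    rw [hq]
    exact QuotientAddGroup.mk'_surjective _
  have hkq : ∀ x, k (q x) = q (g x) := by
    intro x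
    rw [hk, hq]
    rfl
  have hkqi : ∀ (i : ℕ) x, (k ^ i) (q x) = q ((g ^ i) x) := by
    intro i
    induction i with
    | zero => exact fun x => rfl
    | succ i ih =>
      intro x
      rw [pow_succ, pow_succ]
      change (k ^ i) (k (q x)) = q ((g ^ i) (g x))
      rw [hkq, ih]
  have hNk : ∑ i ∈ range p, k ^ i = 0 := by
    apply AddMonoidHom.ext
    intro y
    obtain ⟨x, rfl⟩ := hqs y
    change (∑ i ∈ range p, k ^ i) (q x) = 0
    rw [sum_apply, Finset.sum_congr rfl fun i _ => hkqi i x, ← map_sum, ← sum_apply, hN]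
    exact map_zero q
  obtain ⟨h, hh⟩ := exists_poly p
  have hpow : (k - 1) ^ (p - 1) = (p : AddMonoid.End (Fq B)) * Polynomial.aeval k h := by
    have h1 := congrArg (Polynomial.aeval k) hh
    simp only [map_pow, map_sub, map_add, map_sum, map_mul, Polynomial.aeval_X, map_one,
      Polynomial.aeval_C] at h1
    rw [h1, hNk, zero_add]
    simp
  have hinj : Function.Injective (dif k) := by
    rw [injective_iff_map_eq_zero]
    intro x hx
    have h1 : k x = x := sub_eq_zero.mp hx
    have h2 := fix_nsmul k p x (by rw [hNk]; rfl) h1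
    exact (nsmul_eq_zero_iff.mp h2).resolve_right hp.out.ne_zero
  have hmap : (dif g).range.map q = (dif k).range := by
    ext y
    constructor
    · rintro ⟨_, ⟨x, rfl⟩, rfl⟩
      refine ⟨q x, ?_⟩
      change k (q x) - q x = q (g x - x)
      rw [hkq, map_sub]
    · rintro ⟨y, rfl⟩
      obtain ⟨x, rfl⟩ := hqs y
      refine ⟨g x - x, ⟨x, rfl⟩, ?_⟩
      change q (g x - x) = k (q x) - q x
      rw [hkq, map_sub]
  have hidx := index_range_eq (dif g) hkerB
  rw [← hq, hmap] at hidx
  have hfin : (dif g).range.index ≠ 0 := by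
    have h1 : (nsmulAddMonoidHom p : B →+ B).range ≤ (dif g).range := by
      rintro _ ⟨x, rfl⟩
      exact nsmul_mem_range g p x (by rw [hN]; rfl)
    have h2 := AddSubgroup.index_dvd_of_le h1
    intro h3
    rw [h3, zero_dvd_iff, index_nsmul] at h2
    rcases mul_eq_zero.mp h2 with h4 | h4
    · exact card_ker_ne_zero _ (nsmul_ker_le p) h4
    · exact pow_ne_zero _ hp.out.ne_zero h4
  have hdvd : p ^ r ∣ (dif k).range.index := by
    have h1 : AddMonoidHom.range (((k - 1 : AddMonoid.End (Fq B)) ^ (p - 1) :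
        AddMonoid.End (Fq B)) : Fq B →+ Fq B) ≤ (nsmulAddMonoidHom p : Fq B →+ Fq B).range := by
      rintro _ ⟨x, rfl⟩
      rw [hpow]
      refine ⟨Polynomial.aeval k h x, ?_⟩
      change p • _ = (p : AddMonoid.End (Fq B)) (Polynomial.aeval k h x)
      rw [AddMonoid.End.natCast_apply]
    have h2 := AddSubgroup.index_dvd_of_le h1
    have h4 := index_pow (k - 1 : AddMonoid.End (Fq B)) hinj (p - 1)
    rw [index_nsmul, h4, finrank_Fq, hr, mul_comm (p - 1) r, pow_mul] at h2
    have h3 := (Dvd.intro_left _ rfl).trans h2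
    exact (Nat.pow_dvd_pow_iff (Nat.sub_ne_zero_of_lt hp.out.one_lt)).mp h3
  refine ⟨?_, hfin⟩
  rw [hidx, mul_comm]
  refine Nat.mul_le_mul_left _ (Nat.le_of_dvd (Nat.pos_of_ne_zero fun h0 => hfin ?_) hdvd)
  rw [hidx, h0, mul_zero]

/-- Let `g` be an automorphism of order `p` of a finitely generated abelian group `E`, whose
rank is `p` times the rank of the group of fixed points. If each element of norm `0` is of the form
`g y - y`, then each fixed element is a norm. -/
theorem main_add (E : Type*) [AddCommGroup E] [Module.Finite ℤ E] (g : AddMonoid.End E) (p : ℕ)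
    [hp : Fact p.Prime] (hg : g ^ p = 1)
    (hrank : Module.finrank ℤ E = p * Module.finrank ℤ (dif g).ker)
    (hH : ∀ x, ∑ i ∈ range p, (g ^ i) x = 0 → ∃ y, g y - y = x) :
    ∀ x, g x = x → ∃ y, ∑ i ∈ range p, (g ^ i) y = x := by
  have : NeZero p := ⟨hp.out.ne_zero⟩
  obtain ⟨N, hN⟩ : ∃ N : E →+ E, N = (∑ i ∈ range p, g ^ i : AddMonoid.End E) := ⟨_, rfl⟩
  have hNapp : ∀ x, N x = ∑ i ∈ range p, (g ^ i) x := by
    intro x
    rw [hN]
    exact sum_apply _ _ _
  obtain ⟨A, hA⟩ : ∃ A : AddSubgroup E, A = (dif g).ker := ⟨_, rfl⟩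
  obtain ⟨B, hB⟩ : ∃ B : AddSubgroup E, B = N.ker := ⟨_, rfl⟩
  have memA : ∀ x, x ∈ A ↔ g x = x := by
    intro x
    rw [hA, AddMonoidHom.mem_ker]
    exact sub_eq_zero
  have memB : ∀ x, x ∈ B ↔ N x = 0 := by
    intro x
    rw [hB, AddMonoidHom.mem_ker]
  have hgN : ∀ x, g (N x) = N x := by
    intro x
    have h1 : (g - 1) * ∑ i ∈ range p, g ^ i = 0 := by
      rw [mul_geom_sum, hg, sub_self]
    have h2 : ((g - 1) * ∑ i ∈ range p, g ^ i : AddMonoid.End E) x = 0 := by
      rw [h1]
      rfl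
    rw [hN]
    exact sub_eq_zero.mp h2
  have hNg : ∀ x, N (g x) = N x := by
    intro x
    have h1 : (∑ i ∈ range p, g ^ i) * (g - 1) = 0 := by
      rw [geom_sum_mul, hg, sub_self]
    have h2 : ((∑ i ∈ range p, g ^ i) * (g - 1) : AddMonoid.End E) x = 0 := by
      rw [h1]
      rfl
    have h3 : N (g x - x) = 0 := by
      rw [hN]
      exact h2
    rw [map_sub] at h3
    exact sub_eq_zero.mp h3
  have hNA : ∀ x ∈ A, N x = p • x := by
    intro x hx
    rw [memA] at hx
    have h3 : ∀ i : ℕ, (g ^ i) x = x := by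
      intro i
      induction i with
      | zero => rfl
      | succ i ih =>
        rw [pow_succ]
        change (g ^ i) (g x) = x
        rw [hx, ih]
    rw [hNapp, Finset.sum_congr rfl fun i _ => h3 i, Finset.sum_const, Finset.card_range]
  -- the restricted norm
  obtain ⟨N', hN'⟩ : ∃ N' : E →+ A, ∀ x, (N' x : E) = N x :=
    ⟨N.codRestrict A fun x => (memA _).mpr (hgN x), fun x => rfl⟩
  obtain ⟨t', ht'⟩ : ∃ t' : E →+ B, ∀ x, (t' x : E) = g x - x :=
    ⟨(dif g).codRestrict B fun x => (memB _).mpr (by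
      change N (g x - x) = 0
      rw [map_sub, hNg, sub_self]), fun x => rfl⟩
  have hgB : ∀ x ∈ B, g x ∈ B := by
    intro x hx
    rw [memB] at hx ⊢
    rw [hNg, hx]
  obtain ⟨gB, hgB'⟩ : ∃ gB : AddMonoid.End B, ∀ x, (gB x : E) = g x :=
    ⟨((g : E →+ E).comp B.subtype).codRestrict B fun x => hgB x x.2, fun x => rfl⟩
  have hgBi : ∀ (i : ℕ) (x : B), ((gB ^ i) x : E) = (g ^ i) x := by
    intro i
    induction i with
    | zero => exact fun x => rfl
    | succ i ih =>
      intro x
      rw [pow_succ, pow_succ]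
      change (((gB ^ i) (gB x) : B) : E) = (g ^ i) (g x)
      rw [ih, hgB']
  have hNB : ∑ i ∈ range p, gB ^ i = 0 := by
    apply AddMonoidHom.ext
    intro x
    apply Subtype.ext
    change (((∑ i ∈ range p, gB ^ i) x : B) : E) = 0
    rw [sum_apply, AddSubgroup.val_finsetSum, Finset.sum_congr rfl fun i _ => hgBi i x,
      ← hNapp]
    exact (memB _).mp x.2
  -- ranks
  have hrB : Module.finrank ℤ B = (p - 1) * Module.finrank ℤ A := by
    have h1 := rank_nullity (dif g)
    have h2 : (dif g).range = B := by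
      ext x
      constructor
      · rintro ⟨y, rfl⟩
        have h2 : (dif g) y = t' y := (ht' y).symm
        rw [h2]
        exact (t' y).2
      · intro hx
        obtain ⟨y, hy⟩ := hH x (by rw [← hNapp]; exact (memB x).mp hx)
        exact ⟨y, hy⟩
    rw [h2, ← hA, hrank, ← hA] at h1
    obtain ⟨q, hq⟩ : ∃ q, p = q + 1 := ⟨p - 1, by have := hp.out.pos; omega⟩
    have h3 : p * Module.finrank ℤ A = (p - 1) * Module.finrank ℤ A + Module.finrank ℤ A := by
      rw [hq]
      simp only [Nat.add_sub_cancel]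
      ring
    omega
  have hfB : Module.Finite ℤ B :=
    (inferInstance : Module.Finite ℤ (AddSubgroup.toIntSubmodule B))
  have hfA : Module.Finite ℤ A :=
    (inferInstance : Module.Finite ℤ (AddSubgroup.toIntSubmodule A))
  have hkey := key gB p (Module.finrank ℤ A) hNB hrB
  have hnA := index_nsmul A p
  have hc : Nat.card (nsmulAddMonoidHom p : A →+ A).ker = Nat.card (dif gB).ker := by
    refine Nat.card_congr ⟨fun x => ⟨⟨((x : A) : E), ?_⟩, ?_⟩, fun x => ⟨⟨((x : B) : E), ?_⟩, ?_⟩,
      ?_, ?_⟩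
    · rw [memB, hNA _ x.1.2]
      exact congrArg Subtype.val x.2
    · rw [AddMonoidHom.mem_ker]
      apply Subtype.ext
      change (gB _ : E) - _ = 0
      rw [hgB', sub_eq_zero]
      exact (memA _).mp x.1.2
    · rw [memA, ← hgB']
      exact congrArg Subtype.val (sub_eq_zero.mp x.2)
    · rw [AddMonoidHom.mem_ker]
      apply Subtype.ext
      have h1 : g ((x : B) : E) = (x : B) := by
        rw [← hgB']
        exact congrArg Subtype.val (sub_eq_zero.mp x.2)
      change p • ((x : B) : E) = 0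
      rw [← hNA _ ((memA _).mpr h1)]
      exact (memB _).mp x.1.2
    · intro x
      rfl
    · intro x
      rfl
  have h1 : (A.map N').index = (A ⊔ B).index * N'.range.index := by
    rw [AddSubgroup.index_map]
    congr 3
    ext x
    rw [AddMonoidHom.mem_ker, memB, ← hN']
    exact ⟨fun h => congrArg Subtype.val h, fun h => Subtype.ext h⟩
  have h2 : (B.map t').index = (B ⊔ A).index := by
    rw [AddSubgroup.index_map]
    have h3 : t'.range = ⊤ := by
      rw [AddMonoidHom.range_eq_top]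
      intro x
      obtain ⟨y, hy⟩ := hH x (by rw [← hNapp]; exact (memB _).mp x.2)
      exact ⟨y, Subtype.ext (by rw [ht', hy])⟩
    rw [h3, AddSubgroup.index_top, mul_one]
    congr 2
    ext x
    rw [AddMonoidHom.mem_ker, memA]
    constructor
    · intro h
      have h4 := congrArg Subtype.val h
      rw [ht'] at h4
      exact sub_eq_zero.mp h4
    · intro h
      apply Subtype.ext
      rw [ht', h, sub_self]
      rfl
  have h3 : A.map N' = (nsmulAddMonoidHom p : A →+ A).range := by
    ext x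
    constructor
    · rintro ⟨y, hy, rfl⟩
      refine ⟨⟨y, hy⟩, Subtype.ext ?_⟩
      rw [hN', hNA y hy]
      rfl
    · rintro ⟨y, rfl⟩
      refine ⟨y, y.2, Subtype.ext ?_⟩
      rw [hN', hNA _ y.2]
      rfl
  have h4 : B.map t' = (dif gB).range := by
    ext x
    constructor
    · rintro ⟨y, hy, rfl⟩
      refine ⟨⟨y, hy⟩, Subtype.ext ?_⟩
      rw [ht']
      change (gB ⟨y, hy⟩ : E) - y = g y - y
      rw [hgB']
    · rintro ⟨y, rfl⟩
      refine ⟨y, y.2, Subtype.ext ?_⟩
      rw [ht']
      change g y - y = (gB y : E) - y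
      rw [hgB']
  rw [h3, hnA, hc] at h1
  rw [h4, sup_comm B A] at h2
  rw [h2] at hkey
  have h5 : N'.range.index = 1 := by
    have h6 : Nat.card (dif gB).ker * p ^ Module.finrank ℤ A ≠ 0 := by
      refine mul_ne_zero ?_ (pow_ne_zero _ hp.out.ne_zero)
      rw [← hc]
      exact card_ker_ne_zero _ (nsmul_ker_le p)
    have h7 : (A ⊔ B).index * N'.range.index ≤ (A ⊔ B).index * 1 := by
      rw [← h1, mul_one, mul_comm]
      exact hkey.1
    have h8 := Nat.le_of_mul_le_mul_left h7 (Nat.pos_of_ne_zero hkey.2)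
    have h9 : N'.range.index ≠ 0 := by
      intro h0
      rw [h0, mul_zero] at h1
      exact h6 h1
    omega
  intro x hx
  have h6 : (⟨x, (memA x).mpr hx⟩ : A) ∈ N'.range := by
    rw [AddSubgroup.index_eq_one.mp h5]
    exact AddSubgroup.mem_top _
  obtain ⟨y, hy⟩ := h6
  refine ⟨y, ?_⟩
  rw [← hNapp, ← hN', hy]

end HERB

open _root_.Pool.Agent.RI.HERB Finset in
theorem HERB_thm : HERB := by
  intro p hp A G _ _ _ g E E' hg hfg hst hE' hH hr
  have : Group.FG E := (Group.fg_iff_subgroup_fg E).mpr hfg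
  have hfin : Module.Finite ℤ (Additive E) := Module.Finite.iff_addGroup_fg.mpr inferInstance
  obtain ⟨k, hk⟩ : ∃ k : AddMonoid.End (Additive E), ∀ x : E,
      ((k (Additive.ofMul x)).toMul : A) = g • (x : A) :=
    ⟨MonoidHom.toAdditive (((MulDistribMulAction.toMonoidHom A g).comp E.subtype).codRestrict E
      fun x => hst x x.2), fun x => rfl⟩
  have hki : ∀ (i : ℕ) (x : E), (((k ^ i) (Additive.ofMul x)).toMul : A) = g ^ i • (x : A) := by
    intro i
    induction i with
    | zero =>
      intro x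
      rw [pow_zero, pow_zero, one_smul]
      rfl
    | succ i ih =>
      intro x
      rw [pow_succ, pow_succ, mul_smul, ← hk x]
      exact ih (k (Additive.ofMul x)).toMul
  have hsum : ∀ x : E, (((∑ i ∈ range p, (k ^ i) (Additive.ofMul x) : Additive E)).toMul : A) =
      ∏ i ∈ range p, g ^ i • (x : A) := by
    intro x
    rw [toMul_sum, Subgroup.val_finsetProd]
    exact Finset.prod_congr rfl fun i _ => hki i x
  have hkp : k ^ p = 1 := by
    apply AddMonoidHom.ext
    intro x
    apply Additive.toMul.injective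
    apply Subtype.ext
    have h1 := hki p x.toMul
    rw [hg, one_smul] at h1
    exact h1
  have hrk : Module.finrank ℤ (dif k).ker = Module.finrank ℤ (Additive E') := by
    have e : (dif k).ker ≃+ Additive E' :=
      { toFun := fun x => Additive.ofMul ⟨((x : Additive E).toMul : A), (hE' _).mpr
          ⟨(x : Additive E).toMul.2, by
            have h1 : k (x : Additive E) = x := sub_eq_zero.mp x.2
            rw [← hk]
            exact congrArg (fun z : Additive E => (z.toMul : A)) h1⟩⟩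
        invFun := fun x => ⟨Additive.ofMul ⟨(x.toMul : A), ((hE' _).mp x.toMul.2).1⟩, by
          rw [AddMonoidHom.mem_ker]
          change k _ - _ = 0
          rw [sub_eq_zero]
          apply Additive.toMul.injective
          apply Subtype.ext
          rw [hk]
          exact ((hE' _).mp x.toMul.2).2⟩
        left_inv := fun x => rfl
        right_inv := fun x => rfl
        map_add' := fun x y => rfl }
    exact e.toIntLinearEquiv.finrank_eq
  have hmain := main_add (Additive E) k p hkp (by rw [hrk]; exact hr) (by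
    intro x hx
    obtain ⟨v, hv, hv'⟩ := hH (x.toMul : A) x.toMul.2 (by
      rw [← hsum]
      exact congrArg (fun z : Additive E => (z.toMul : A)) hx)
    refine ⟨Additive.ofMul (⟨v, hv⟩⁻¹ : E), ?_⟩
    apply Additive.toMul.injective
    apply Subtype.ext
    change ((k (Additive.ofMul (⟨v, hv⟩⁻¹ : E))).toMul : A) / ((⟨v, hv⟩⁻¹ : E) : A) = _
    rw [hk, hv']
    change g • v⁻¹ / v⁻¹ = v / g • v
    rw [smul_inv', div_eq_mul_inv, inv_inv, div_eq_mul_inv, mul_comm])
  intro e he
  obtain ⟨h1, h2⟩ := (hE' e).mp he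
  obtain ⟨y, hy⟩ := hmain (Additive.ofMul ⟨e, h1⟩) (by
    apply Additive.toMul.injective
    apply Subtype.ext
    rw [hk]
    exact h2)
  refine ⟨y.toMul, y.toMul.2, ?_⟩
  have h3 := hsum y.toMul
  rw [← h3]
  exact (congrArg (fun z : Additive E => (z.toMul : A)) hy).symm

end Pool.Agent.RI


end

section

/-!
# Module HQ3: Herbrand quotient one, torsion free case
-/

set_option autoImplicit false

open NumberField Finset

namespace Pool.Agent.RID

open _root_.Pool.Agent.RI

namespace HQ3

/-- the index of a direct sum of subgroups -/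
theorem relIndex_sup {X : Type} [AddCommGroup X] (A₁ A₂ B₁ B₂ : AddSubgroup X)
    (h1 : B₁ ≤ A₁) (h2 : B₂ ≤ A₂) (hd : A₁ ⊓ A₂ = ⊥) :
    (B₁ ⊔ B₂).relIndex (A₁ ⊔ A₂) = B₁.relIndex A₁ * B₂.relIndex A₂ := by
  have key : ∀ (A A' B B' : AddSubgroup X), B ≤ A → B' ≤ A' → A ⊓ A' = ⊥ →
      (B ⊔ B').relIndex (A ⊔ B') = B.relIndex A := by
    intro A A' B B' hB hB' hAA
    have e1 : A ⊔ B' = A ⊔ (B ⊔ B') := by
      rw [← sup_assoc, sup_eq_left.2 hB]
    rw [e1, AddSubgroup.relIndex_sup_right, ← AddSubgroup.inf_relIndex_right]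
    have e2 : (B ⊔ B') ⊓ A = B := by
      apply le_antisymm
      · rintro x ⟨hx, hxA⟩
        obtain ⟨b, hb, b', hb', rfl⟩ := AddSubgroup.mem_sup.1 hx
        have hz : b' ∈ A ⊓ A' := by
          refine ⟨?_, hB' hb'⟩
          have := A.sub_mem hxA (hB hb)
          rwa [add_sub_cancel_left] at this
        rw [hAA, AddSubgroup.mem_bot] at hz
        rw [hz, add_zero]
        exact hb
      · exact le_inf le_sup_left hB
    rw [e2]
  have hle1 : B₁ ⊔ B₂ ≤ A₁ ⊔ B₂ := sup_le_sup_right h1 _
  have hle2 : A₁ ⊔ B₂ ≤ A₁ ⊔ A₂ := sup_le_sup_left h2 _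
  rw [← AddSubgroup.relIndex_mul_relIndex _ _ _ hle1 hle2, key A₁ A₂ B₁ B₂ h1 h2 hd]
  congr 1
  have := key A₂ A₁ B₂ A₁ h2 le_rfl (by rw [inf_comm]; exact hd)
  rw [sup_comm A₁ B₂, sup_comm A₁ A₂]
  exact this

/-- restriction of an endomorphism -/
theorem restr {X : Type} [AddCommGroup X] (γ : AddMonoid.End X) (Z : AddSubgroup X)
    (hZ : ∀ z ∈ Z, γ z ∈ Z) :
    ∃ γ' : AddMonoid.End Z, ∀ (i : ℕ) (z : Z), (((γ' ^ i) z : Z) : X) = (γ ^ i) z := by
  refine ⟨(AddMonoidHom.comp (γ : X →+ X) Z.subtype).codRestrict Z fun y => hZ y y.2, ?_⟩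
  intro i
  induction i with
  | zero => intro y; rw [pow_zero, pow_zero]; rfl
  | succ i ih =>
    intro y
    rw [pow_succ, pow_succ]
    exact ih _

theorem restr_sum {X : Type} [AddCommGroup X] (γ : AddMonoid.End X) (Z : AddSubgroup X)
    (γ' : AddMonoid.End Z) (h : ∀ (i : ℕ) (z : Z), (((γ' ^ i) z : Z) : X) = (γ ^ i) z)
    (s : Finset ℕ) (e : ℕ → ℕ) (z : Z) :
    (((∑ j ∈ s, γ' ^ (e j) : AddMonoid.End Z) z : Z) : X) =
      (∑ j ∈ s, γ ^ (e j) : AddMonoid.End X) z := by
  rw [HERB.sum_apply, HERB.sum_apply, AddSubgroup.val_finsetSum]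
  exact Finset.sum_congr rfl fun i _ => h _ z

theorem restr_sub {X : Type} [AddCommGroup X] (γ : AddMonoid.End X) (Z : AddSubgroup X)
    (γ' : AddMonoid.End Z) (h : ∀ (i : ℕ) (z : Z), (((γ' ^ i) z : Z) : X) = (γ ^ i) z)
    (m : ℕ) (z : Z) :
    (((γ' ^ m - 1 : AddMonoid.End Z) z : Z) : X) = (γ ^ m - 1 : AddMonoid.End X) z := by
  have h1 : (γ' ^ m - 1 : AddMonoid.End Z) z = (γ' ^ m) z - z := rfl
  have h2 : (γ ^ m - 1 : AddMonoid.End X) z = (γ ^ m) z - z := rfl
  rw [h1, h2, AddSubgroup.coe_sub, h]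

theorem restr_sub1 {X : Type} [AddCommGroup X] (γ : AddMonoid.End X) (Z : AddSubgroup X)
    (γ' : AddMonoid.End Z) (h : ∀ (i : ℕ) (z : Z), (((γ' ^ i) z : Z) : X) = (γ ^ i) z)
    (z : Z) :
    (((γ' - 1 : AddMonoid.End Z) z : Z) : X) = (γ - 1 : AddMonoid.End X) z := by
  have := restr_sub γ Z γ' h 1 z
  rwa [pow_one, pow_one] at this

/-- finrank of a subgroup seen inside a larger one -/
theorem finrank_of {X : Type} [AddCommGroup X] (K Z : AddSubgroup X) (h : K ≤ Z)
    (K' : AddSubgroup Z) (hK : ∀ z : Z, z ∈ K' ↔ (z : X) ∈ K) :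
    Module.finrank ℤ K' = Module.finrank ℤ K := by
  have e : K' = K.addSubgroupOf Z := by
    ext z
    rw [hK, AddSubgroup.mem_addSubgroupOf]
  rw [e]
  exact (AddSubgroup.addSubgroupOfEquivOfLe h).toIntLinearEquiv.finrank_eq

/-- relative index of two endomorphisms of a subgroup -/
theorem relIndex_of {X : Type} [AddCommGroup X] (Z : AddSubgroup X) (f h : X →+ X)
    (f' h' : Z →+ Z) (hf : ∀ z : Z, ((f' z : Z) : X) = f z) (hh : ∀ z : Z, ((h' z : Z) : X) = h z) :
    f'.range.relIndex h'.ker = (Z.map f).relIndex (Z ⊓ h.ker) := by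
  rw [← AddSubgroup.relIndex_map_map_of_injective _ _ (f := Z.subtype) Subtype.val_injective]
  congr 1
  · ext x
    constructor
    · rintro ⟨_, ⟨z, rfl⟩, rfl⟩
      exact ⟨z, z.2, (hf z).symm⟩
    · rintro ⟨z, hz, rfl⟩
      exact ⟨f' ⟨z, hz⟩, ⟨_, rfl⟩, hf ⟨z, hz⟩⟩
  · ext x
    constructor
    · rintro ⟨z, hz, rfl⟩
      refine ⟨z.2, ?_⟩
      have h1 : h' z = 0 := hz
      change h (z : X) = 0
      rw [← hh, h1]
      rfl
    · rintro ⟨hz, hk⟩
      refine ⟨⟨x, hz⟩, ?_, rfl⟩
      change h' ⟨x, hz⟩ = 0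
      apply Subtype.ext
      rw [hh]
      exact hk

theorem index_of {X : Type} [AddCommGroup X] (Z : AddSubgroup X) (f : X →+ X)
    (f' : Z →+ Z) (hf : ∀ z : Z, ((f' z : Z) : X) = f z) :
    f'.range.index = (Z.map f).relIndex Z := by
  have h := relIndex_of Z f (0 : X →+ X) f' (0 : Z →+ Z) hf (fun _ => rfl)
  have e1 : (0 : Z →+ Z).ker = ⊤ := by
    ext; simp
  have e2 : (0 : X →+ X).ker = ⊤ := by
    ext; simp
  rw [e1, e2, inf_top_eq, AddSubgroup.relIndex_top_right] at h
  exact h

theorem geom_mul {R : Type} [Ring R] (x : R) (m k : ℕ) :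
    ∑ j ∈ range (m * k), x ^ j = (∑ j ∈ range m, x ^ j) * ∑ i ∈ range k, x ^ (m * i) := by
  induction k with
  | zero => simp
  | succ k ih =>
    rw [Nat.mul_succ, Finset.sum_range_add, ih, Finset.sum_range_succ _ k, mul_add,
      Finset.sum_mul _ _ (x ^ (m * k))]
    congr 1
    apply Finset.sum_congr rfl
    intro j _
    rw [← pow_add, add_comm]

end HQ3

open _root_.Pool.Agent.RID.HQ3 in
theorem t_HQ3 (hHQ1 : S_HQ1) (hHQ2 : S_HQ2) : S_HQ3 := by
  intro p a hp
  have hp0 : p ≠ 0 := hp.out.ne_zero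
  have : NeZero p := ⟨hp0⟩
  induction a with
  | zero =>
    intro X _ _ _ γ hγ _
    rw [pow_zero, pow_one] at hγ
    subst hγ
    have e1 : (∑ j ∈ range (p ^ 0), (1 : AddMonoid.End X) ^ j) = 1 := by simp
    have e2 : AddMonoidHom.ker (1 - 1 : AddMonoid.End X) = ⊤ := by
      rw [sub_self]
      ext x
      simp only [AddSubgroup.mem_top, iff_true]
      rfl
    have e3 : AddMonoidHom.range (1 : AddMonoid.End X) = ⊤ := by
      rw [eq_top_iff]
      intro x _
      exact ⟨x, rfl⟩
    have e4 : AddMonoidHom.ker (1 : AddMonoid.End X) = ⊥ := by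
      rw [eq_bot_iff]
      intro x hx
      exact hx
    rw [e1, e2, e3, e4]
    simp
  | succ a ih =>
    intro X _ _ _ γ hγ hr
    obtain ⟨r, hrr⟩ : ∃ r, r = Module.finrank ℤ (AddMonoidHom.ker (γ - 1 : AddMonoid.End X)) :=
      ⟨_, rfl⟩
    rw [← hrr] at hr
    have htf : ∀ x : X, p • x = 0 → x = 0 := by
      intro x hx
      have := (smul_eq_zero (r := (p : ℤ)) (m := x)).1 (by rw [natCast_zsmul]; exact hx)
      exact this.resolve_left (by exact_mod_cast hp0)
    obtain ⟨D, hD⟩ : ∃ D : AddMonoid.End X, D = γ - 1 := ⟨_, rfl⟩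
    obtain ⟨δ, hδ⟩ : ∃ δ : AddMonoid.End X, δ = γ ^ (p ^ a) := ⟨_, rfl⟩
    obtain ⟨Φ, hΦ⟩ : ∃ Φ : AddMonoid.End X, Φ = ∑ j ∈ range p, γ ^ (p ^ a * j) := ⟨_, rfl⟩
    obtain ⟨Na, hNa⟩ : ∃ Na : AddMonoid.End X, Na = ∑ j ∈ range (p ^ a), γ ^ j := ⟨_, rfl⟩
    obtain ⟨N, hN⟩ : ∃ N : AddMonoid.End X, N = ∑ j ∈ range (p ^ (a + 1)), γ ^ j := ⟨_, rfl⟩
    have hNe : N = Na * Φ := by
      rw [hN, hNa, hΦ, pow_succ, geom_mul]
    have hΦδ : Φ = ∑ j ∈ range p, δ ^ j := by
      rw [hΦ, hδ]
      exact Finset.sum_congr rfl fun j _ => by rw [pow_mul]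
    have hcomm : ∀ (s : Finset ℕ) (e : ℕ → ℕ), Commute (∑ j ∈ s, γ ^ (e j)) γ := fun s e =>
      Commute.sum_left _ _ _ fun j _ => (Commute.refl γ).pow_left _
    have hΦc : ∀ x, Φ (γ x) = γ (Φ x) := by
      intro x
      have := hcomm (range p) (fun j => p ^ a * j)
      rw [← hΦ] at this
      exact congrArg (fun u : AddMonoid.End X => u x) this.eq
    have hδc : ∀ x, δ (γ x) = γ (δ x) := by
      intro x
      rw [hδ]
      exact congrArg (fun u : AddMonoid.End X => u x) ((Commute.refl γ).pow_left _).eq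
    have hNac : Na * Φ = Φ * Na := by
      rw [hNa, hΦ]
      apply Commute.sum_left
      intro j _
      apply Commute.sum_right
      intro i _
      exact Commute.pow_pow (Commute.refl γ) _ _
    have hD0 : ∀ x, D x = 0 ↔ γ x = x := by
      intro x
      rw [hD]
      exact sub_eq_zero
    have hDN : D * N = 0 := by
      rw [hD, hN, mul_geom_sum, hγ, sub_self]
    have hND : N * D = 0 := by
      rw [hD, hN, geom_sum_mul, hγ, sub_self]
    have hδΦ : ∀ x, δ (Φ x) = Φ x := by
      intro x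
      have h1 : (δ - 1) * Φ = 0 := by
        rw [hΦδ, mul_geom_sum, hδ, ← pow_mul, ← pow_succ, hγ, sub_self]
      have h2 := congrArg (fun u : AddMonoid.End X => u x) h1
      exact sub_eq_zero.1 h2
    have hΦfix : ∀ x, δ x = x → Φ x = p • x := by
      intro x hx
      have h3 : ∀ i : ℕ, (δ ^ i) x = x := by
        intro i
        induction i with
        | zero => rfl
        | succ i ih =>
          rw [pow_succ]
          change (δ ^ i) (δ x) = x
          rw [hx, ih]
      rw [hΦδ, HERB.sum_apply, Finset.sum_congr rfl fun i _ => h3 i, Finset.sum_const,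
        Finset.card_range]
    have hγδ : ∀ x, γ x = x → δ x = x := by
      intro x hx
      have h3 : ∀ i : ℕ, (γ ^ i) x = x := by
        intro i
        induction i with
        | zero => rfl
        | succ i ih =>
          rw [pow_succ]
          change (γ ^ i) (γ x) = x
          rw [hx, ih]
      rw [hδ]
      exact h3 _
    -- the two parts
    obtain ⟨X₁, hX₁⟩ : ∃ X₁ : AddSubgroup X, X₁ = AddMonoidHom.ker (δ - 1 : AddMonoid.End X) :=
      ⟨_, rfl⟩
    obtain ⟨X₂, hX₂⟩ : ∃ X₂ : AddSubgroup X, X₂ = AddMonoidHom.ker Φ := ⟨_, rfl⟩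
    have mem₁ : ∀ x, x ∈ X₁ ↔ δ x = x := by
      intro x
      rw [hX₁, AddMonoidHom.mem_ker]
      exact sub_eq_zero
    have mem₂ : ∀ x, x ∈ X₂ ↔ Φ x = 0 := by
      intro x
      rw [hX₂]
      exact Iff.rfl
    have hdis : X₁ ⊓ X₂ = ⊥ := by
      rw [eq_bot_iff]
      rintro x ⟨h1, h2⟩
      have h1' := (mem₁ x).1 h1
      have h2' := (mem₂ x).1 h2
      rw [AddSubgroup.mem_bot]
      apply htf
      rw [← hΦfix x h1', h2']
    have hpY : ∀ x, p • x ∈ X₁ ⊔ X₂ := by
      intro x
      have e : p • x = Φ x + (p • x - Φ x) := (add_sub_cancel _ _).symm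
      rw [e]
      apply AddSubgroup.add_mem_sup
      · exact (mem₁ _).2 (hδΦ x)
      · rw [mem₂, map_sub, map_nsmul, hΦfix (Φ x) (hδΦ x), sub_self]
    obtain ⟨Y, hY⟩ : ∃ Y : AddSubgroup X, Y = X₁ ⊔ X₂ := ⟨_, rfl⟩
    have hYi : Y.index ≠ 0 := by
      have h1 : (nsmulAddMonoidHom p : X →+ X).range ≤ Y := by
        rintro _ ⟨x, rfl⟩
        rw [hY]
        exact hpY x
      have h2 : (nsmulAddMonoidHom p : X →+ X).range.index ≠ 0 := by
        rw [HERB.index_nsmul]
        apply mul_ne_zero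
        · exact HERB.card_ker_ne_zero _ (HERB.nsmul_ker_le p)
        · exact pow_ne_zero _ hp0
      intro h3
      apply h2
      have h4 := AddSubgroup.index_dvd_of_le h1
      rw [h3] at h4
      exact Nat.eq_zero_of_zero_dvd h4
    have hst₁ : ∀ z ∈ X₁, γ z ∈ X₁ := by
      intro z hz
      rw [mem₁] at hz ⊢
      rw [hδc, hz]
    have hst₂ : ∀ z ∈ X₂, γ z ∈ X₂ := by
      intro z hz
      rw [mem₂] at hz ⊢
      rw [hΦc, hz, map_zero]
    -- finiteness and freeness of subgroups
    have hfin : ∀ Z : AddSubgroup X, Module.Finite ℤ Z := by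
      intro Z
      have h1 : Module.Finite ℤ (AddSubgroup.toIntSubmodule Z) := inferInstance
      exact h1
    have hfree : ∀ Z : AddSubgroup X, Module.Free ℤ Z := by
      intro Z
      have h1 : Module.Free ℤ (AddSubgroup.toIntSubmodule Z) := inferInstance
      exact h1
    have := hfin
    have := hfree
    -- ranks
    have rk₁ : Module.finrank ℤ X₁ = p ^ a * r := by
      rw [hX₁, hδ]
      exact hr a (Nat.le_succ a)
    have rkX : Module.finrank ℤ X = p ^ (a + 1) * r := by
      rw [← hr (a + 1) le_rfl, hγ]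
      have e : AddMonoidHom.ker (1 - 1 : AddMonoid.End X) = ⊤ := by
        rw [sub_self]
        ext x
        simp only [AddSubgroup.mem_top, iff_true]
        rfl
      rw [e]
      exact (AddSubgroup.topEquiv (G := X)).toIntLinearEquiv.finrank_eq.symm
    have rk₂ : Module.finrank ℤ X₂ = p ^ a * (p - 1) * r := by
      have h1 := HERB.rank_nullity (Φ : X →+ X)
      have h2 : Module.finrank ℤ (AddMonoidHom.range (Φ : X →+ X)) = Module.finrank ℤ X₁ := by
        apply le_antisymm
        · have hle : AddMonoidHom.range (Φ : X →+ X) ≤ X₁ := by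
            rintro _ ⟨x, rfl⟩
            exact (mem₁ _).2 (hδΦ x)
          have := hfin X₁
          exact LinearMap.finrank_le_finrank_of_injective
            (f := (AddSubgroup.inclusion hle).toIntLinearMap)
            (AddSubgroup.inclusion_injective hle)
        · have := hfin (AddMonoidHom.range (Φ : X →+ X))
          let j : X₁ →+ AddMonoidHom.range (Φ : X →+ X) :=
            ((Φ : X →+ X).comp X₁.subtype).codRestrict _ fun x => ⟨x, rfl⟩
          refine LinearMap.finrank_le_finrank_of_injective (f := j.toIntLinearMap) ?_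
          change Function.Injective j
          rw [injective_iff_map_eq_zero]
          intro x hx
          have h3 : Φ (x : X) = 0 := congrArg Subtype.val hx
          rw [hΦfix x ((mem₁ _).1 x.2)] at h3
          exact Subtype.ext (htf _ h3)
      rw [h2, rk₁, rkX] at h1
      have h3 : Module.finrank ℤ (AddMonoidHom.ker (Φ : X →+ X)) = Module.finrank ℤ X₂ := by
        rw [hX₂]
      rw [h3] at h1
      have h4 : p ^ (a + 1) * r = p ^ a * r + p ^ a * (p - 1) * r := by
        obtain ⟨k, hk⟩ : ∃ k, p = k + 1 := ⟨p - 1, (Nat.succ_pred_eq_of_ne_zero hp0).symm⟩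
        rw [pow_succ, hk, Nat.add_sub_cancel]
        ring
      omega
    -- the two restrictions
    obtain ⟨γ₁, hγ₁⟩ := restr γ X₁ hst₁
    obtain ⟨γ₂, hγ₂⟩ := restr γ X₂ hst₂
    have hfr₁ := hfree X₁
    have hfi₁ := hfin X₁
    have hfr₂ := hfree X₂
    have hfi₂ := hfin X₂
    have ih1 := ih X₁ γ₁ (by
      apply AddMonoidHom.ext
      intro z
      apply Subtype.ext
      have h1 := hγ₁ (p ^ a) z
      rw [← hδ] at h1
      exact h1.trans ((mem₁ _).1 z.2)) (by
      have hk : ∀ i ≤ a, Module.finrank ℤ (AddMonoidHom.ker (γ₁ ^ (p ^ i) - 1 : AddMonoid.End X₁)) =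
          Module.finrank ℤ (AddMonoidHom.ker (γ ^ (p ^ i) - 1 : AddMonoid.End X)) := by
        intro i hi
        apply finrank_of _ X₁
        · intro x hx
          have hx' : (γ ^ (p ^ i)) x = x := sub_eq_zero.1 hx
          rw [mem₁, hδ]
          obtain ⟨k, hk⟩ : ∃ k, p ^ a = p ^ i * k := pow_dvd_pow p hi
          rw [hk, pow_mul]
          have h3 : ∀ j : ℕ, ((γ ^ (p ^ i)) ^ j) x = x := by
            intro j
            induction j with
            | zero => rfl
            | succ j ih =>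
              rw [pow_succ]
              change ((γ ^ (p ^ i)) ^ j) ((γ ^ (p ^ i)) x) = x
              rw [hx', ih]
          exact h3 k
        · intro z
          have h1 := restr_sub γ X₁ γ₁ hγ₁ (p ^ i) z
          constructor
          · intro h
            have h2 : (γ₁ ^ (p ^ i) - 1 : AddMonoid.End X₁) z = 0 := h
            rw [h2] at h1
            exact h1.symm
          · intro h
            have h2 : (γ ^ (p ^ i) - 1 : AddMonoid.End X) z = 0 := h
            rw [h2] at h1
            exact Subtype.ext h1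
      intro i hi
      rw [hk i hi, hr i (hi.trans (Nat.le_succ a))]
      have h0 := hk 0 (Nat.zero_le a)
      rw [pow_zero, pow_one, pow_one] at h0
      rw [h0, ← hrr])
    have ix2 := hHQ2 p a r X₂ γ₂ (by
      apply AddMonoidHom.ext
      intro z
      apply Subtype.ext
      have h1 := restr_sum γ X₂ γ₂ hγ₂ (range p) (fun j => p ^ a * j) z
      rw [← hΦ] at h1
      exact h1.trans ((mem₂ _).1 z.2)) rk₂
    rw [index_of X₂ (D : X →+ X) (γ₂ - 1 : AddMonoid.End X₂) (by
      intro z
      rw [hD]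
      exact restr_sub1 γ X₂ γ₂ hγ₂ z)] at ix2
    obtain ⟨ih2, ih3⟩ := ih1
    have eD : ∀ z : X₁, (((γ₁ - 1 : AddMonoid.End X₁) z : X₁) : X) = D z := by
      intro z
      rw [hD]
      exact restr_sub1 γ X₁ γ₁ hγ₁ z
    have eN : ∀ z : X₁, (((∑ j ∈ range (p ^ a), γ₁ ^ j : AddMonoid.End X₁) z : X₁) : X) = Na z := by
      intro z
      rw [hNa]
      exact restr_sum γ X₁ γ₁ hγ₁ _ (fun j => j) z
    rw [relIndex_of X₁ (Na : X →+ X) (D : X →+ X) _ _ eN eD] at ih2 ih3
    rw [relIndex_of X₁ (D : X →+ X) (Na : X →+ X) _ _ eD eN] at ih3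
    -- `Y`
    have hNx₁ : ∀ x ∈ X₁, N x = p • Na x := by
      intro x hx
      rw [hNe]
      change Na (Φ x) = p • Na x
      rw [hΦfix x ((mem₁ x).1 hx), map_nsmul]
    have hNx₂ : ∀ x ∈ X₂, N x = 0 := by
      intro x hx
      rw [hNe]
      change Na (Φ x) = 0
      rw [(mem₂ x).1 hx, map_zero]
    have hker₁ : AddMonoidHom.ker (D : X →+ X) ≤ X₁ := by
      intro x hx
      exact (mem₁ x).2 (hγδ x ((hD0 x).1 hx))
    have hYker : Y ⊓ AddMonoidHom.ker (D : X →+ X) = AddMonoidHom.ker (D : X →+ X) := by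
      rw [inf_eq_right, hY]
      exact hker₁.trans le_sup_left
    have hX₁ker : X₁ ⊓ AddMonoidHom.ker (D : X →+ X) = AddMonoidHom.ker (D : X →+ X) :=
      inf_eq_right.2 hker₁
    rw [hX₁ker] at ih2 ih3
    have hinjp : Function.Injective (nsmulAddMonoidHom p : X →+ X) := by
      rw [injective_iff_map_eq_zero]
      intro x hx
      exact htf x hx
    have hYN : Y.map (N : X →+ X) = (X₁.map (Na : X →+ X)).map (nsmulAddMonoidHom p : X →+ X) := by
      ext x
      constructor
      · rintro ⟨y, hy, rfl⟩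
        rw [hY] at hy
        obtain ⟨u, hu, v, hv, rfl⟩ := AddSubgroup.mem_sup.1 hy
        refine ⟨Na u, ⟨u, hu, rfl⟩, ?_⟩
        have e1 : N (u + v) = p • Na u := by
          rw [map_add, hNx₁ u hu, hNx₂ v hv, add_zero]
        exact e1.symm
      · rintro ⟨_, ⟨u, hu, rfl⟩, rfl⟩
        refine ⟨u, ?_, ?_⟩
        · rw [hY]
          exact AddSubgroup.mem_sup_left hu
        · exact hNx₁ u hu
    have hNaD : X₁.map (Na : X →+ X) ≤ AddMonoidHom.ker (D : X →+ X) := by
      rintro _ ⟨u, hu, rfl⟩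
      rw [AddMonoidHom.mem_ker]
      apply htf
      have h1 : D (N u) = 0 := congrArg (fun v : AddMonoid.End X => v u) hDN
      rw [hNx₁ u hu, map_nsmul] at h1
      exact h1
    have hpker : ((AddMonoidHom.ker (D : X →+ X)).map (nsmulAddMonoidHom p : X →+ X)).relIndex
        (AddMonoidHom.ker (D : X →+ X)) = p ^ r := by
      have := hfin (AddMonoidHom.ker (D : X →+ X))
      have h1 := HERB.index_nsmul (AddMonoidHom.ker (D : X →+ X)) p
      rw [index_of (AddMonoidHom.ker (D : X →+ X)) (nsmulAddMonoidHom p : X →+ X)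
        (nsmulAddMonoidHom p) (fun _ => rfl)] at h1
      rw [h1]
      have h2 : (nsmulAddMonoidHom p : AddMonoidHom.ker (D : X →+ X) →+ _).ker = ⊥ := by
        rw [eq_bot_iff]
        intro x hx
        have hx' : p • x = 0 := hx
        rw [AddSubgroup.mem_bot]
        apply Subtype.ext
        exact htf _ (congrArg Subtype.val hx')
      rw [h2, AddSubgroup.card_bot, one_mul, hrr, hD]
    have i0 : (Y.map (N : X →+ X)).relIndex (Y ⊓ AddMonoidHom.ker (D : X →+ X)) =
        (X₁.map (Na : X →+ X)).relIndex (AddMonoidHom.ker (D : X →+ X)) * p ^ r := by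
      rw [hYker, hYN, ← AddSubgroup.relIndex_mul_relIndex _
        ((AddMonoidHom.ker (D : X →+ X)).map (nsmulAddMonoidHom p : X →+ X)) _
        (AddSubgroup.map_mono hNaD) ?_, hpker,
        AddSubgroup.relIndex_map_map_of_injective _ _ hinjp]
      rintro _ ⟨u, hu, rfl⟩
      exact AddSubgroup.nsmul_mem _ hu p
    have i1 : (Y.map (D : X →+ X)).relIndex (Y ⊓ AddMonoidHom.ker (N : X →+ X)) =
        (X₁.map (D : X →+ X)).relIndex (X₁ ⊓ AddMonoidHom.ker (Na : X →+ X)) * p ^ r := by
      have e1 : Y.map (D : X →+ X) = X₁.map (D : X →+ X) ⊔ X₂.map (D : X →+ X) := by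
        rw [hY, AddSubgroup.map_sup]
      have e2 : Y ⊓ AddMonoidHom.ker (N : X →+ X) = (X₁ ⊓ AddMonoidHom.ker (Na : X →+ X)) ⊔ X₂ := by
        ext x
        constructor
        · rintro ⟨hx, hk⟩
          rw [hY] at hx
          obtain ⟨u, hu, v, hv, rfl⟩ := AddSubgroup.mem_sup.1 hx
          apply AddSubgroup.add_mem_sup _ hv
          refine ⟨hu, ?_⟩
          have hk' : N (u + v) = 0 := hk
          rw [map_add, hNx₁ u hu, hNx₂ v hv, add_zero] at hk'
          exact htf _ hk'
        · intro hx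
          obtain ⟨u, hu, v, hv, rfl⟩ := AddSubgroup.mem_sup.1 hx
          refine ⟨?_, ?_⟩
          · rw [hY]
            exact AddSubgroup.add_mem_sup hu.1 hv
          · have hu2 : Na u = 0 := hu.2
            change N (u + v) = 0
            rw [map_add, hNx₁ u hu.1, hNx₂ v hv, add_zero, hu2, smul_zero]
      rw [e1, e2, relIndex_sup, ix2]
      · rintro _ ⟨u, hu, rfl⟩
        refine ⟨?_, ?_⟩
        · have : D u = γ u - u := by rw [hD]; rfl
          change D u ∈ X₁
          rw [this]
          exact AddSubgroup.sub_mem _ (hst₁ u hu) hu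
        · change Na (D u) = 0
          apply htf
          have h1 : N (D u) = 0 := congrArg (fun v : AddMonoid.End X => v u) hND
          have h2 : D u ∈ X₁ := by
            have : D u = γ u - u := by rw [hD]; rfl
            rw [this]
            exact AddSubgroup.sub_mem _ (hst₁ u hu) hu
          rw [hNx₁ _ h2] at h1
          exact h1
      · rintro _ ⟨u, hu, rfl⟩
        have : D u = γ u - u := by rw [hD]; rfl
        change D u ∈ X₂
        rw [this]
        exact AddSubgroup.sub_mem _ (hst₂ u hu) hu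
      · rw [eq_bot_iff, ← hdis]
        exact inf_le_inf_right _ inf_le_left
    have hfin1 := hHQ1 X (D : X →+ X) (N : X →+ X) Y hYi
      (by
        intro y hy
        rw [hY] at hy ⊢
        obtain ⟨u, hu, v, hv, rfl⟩ := AddSubgroup.mem_sup.1 hy
        have e : (D : X →+ X) (u + v) = (γ u - u) + (γ v - v) := by
          rw [map_add, hD]; rfl
        have h1 := AddSubgroup.add_mem_sup (AddSubgroup.sub_mem _ (hst₁ u hu) hu)
          (AddSubgroup.sub_mem _ (hst₂ v hv) hv)
        rw [← e] at h1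
        exact h1)
      (by
        intro y hy
        have h1 : (N : X →+ X) y ∈ Y.map (N : X →+ X) := ⟨y, hy, rfl⟩
        rw [hYN] at h1
        obtain ⟨z, hz, hz'⟩ := h1
        have h2 : (nsmulAddMonoidHom p : X →+ X) z ∈ Y := by
          rw [hY]
          exact hpY z
        rw [hz'] at h2
        exact h2)
      (fun x => congrArg (fun v : AddMonoid.End X => v x) hDN)
      (fun x => congrArg (fun v : AddMonoid.End X => v x) hND)
      (by
        rw [i0]
        exact mul_ne_zero ih2 (pow_ne_zero _ hp0))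
      (by rw [i0, i1, ih3])
    rw [← hN, ← hD]
    exact hfin1

end Pool.Agent.RID


end
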