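import Mathlib
import Pool.Agent.MVF.C014
import Pool.Agent.MVF.C038
import Pool.Agent.MVF.C055

/-! Parts: MUX.U_ODE, MUX.U_LIM, MUX.U_GHO, RID.P_HQ2, MUX.HX_FLD -/

namespace Pool.Agent.MUXU.LIM
end Pool.Agent.MUXU.LIM
namespace Pool.Agent.MUXU.ODE43
end Pool.Agent.MUXU.ODE43
namespace Pool.Agent.RID.HQ2
end Pool.Agent.RID.HQ2

section

/-!
# MUX, block U: module ODE (helper43)

A rational solution of the differential equation with a pole at infinity is an isogeny.
-/

set_option autoImplicit false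

namespace Pool.Agent.MUXU

open Filter Topology Polynomial
open _root_.Pool.Agent.MU3B

namespace ODE43

theorem wper (L : PeriodPair) (x v : ℂ) (hv : v ∈ L.lattice) :
    L.weierstrassP (x + v) = L.weierstrassP x := L.weierstrassP_add_coe x ⟨v, hv⟩

theorem wder (L : PeriodPair) {z : ℂ} (hz : z ∉ L.lattice) :
    HasDerivAt L.weierstrassP (L.derivWeierstrassP z) z := by
  have h := (L.analyticOnNhd_weierstrassP z hz).differentiableAt.hasDerivAt
  rwa [L.deriv_weierstrassP] at h

theorem out_ev (L : PeriodPair) {z : ℂ} (hz : z ∉ L.lattice) : ∀ᶠ x in 𝓝 z, x ∉ L.lattice :=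
  L.isClosed_lattice.isOpen_compl.mem_nhds hz

theorem out_punct (L : PeriodPair) (w : ℂ) : ∀ᶠ x in 𝓝[≠] w, x ∉ L.lattice := by
  have h2 : ∀ᶠ z in 𝓝[≠] w, z ∈ ((L.lattice : Set ℂ) \ {w})ᶜ :=
    nhdsWithin_le_nhds (L.compl_lattice_sdiff_singleton_mem_nhds w)
  filter_upwards [h2, self_mem_nhdsWithin] with z hz hz0
  exact fun hL => hz ⟨hL, hz0⟩

theorem wpole (L : PeriodPair) {w : ℂ} (hw : w ∈ L.lattice) :
    Tendsto L.weierstrassP (𝓝[≠] w) (Bornology.cobounded ℂ) :=
  tendsto_cobounded_of_meromorphicOrderAt_neg (by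
    rw [L.order_weierstrassP w hw]
    decide)

theorem bne {B : ℂ[X]} (hB : B ≠ 0) : ∀ᶠ x in Bornology.cobounded ℂ, B.eval x ≠ 0 := by
  have h := (Bornology.le_cofinite ℂ) (eventually_cofinite_not_isRoot hB)
  filter_upwards [h] with x hx
  exact hx

theorem ratinf {A B : ℂ[X]} (hB : B ≠ 0) (h : B.natDegree < A.natDegree) :
    Tendsto (fun x => A.eval x / B.eval x) (Bornology.cobounded ℂ) (Bornology.cobounded ℂ) := by
  rw [← tendsto_norm_atTop_iff_cobounded]
  refine tendsto_atTop.2 fun b => ?_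
  have hd : B.degree < A.degree := degree_lt_degree h
  have hc : (0 : ℝ) < (|b| + 1)⁻¹ := inv_pos.2 (by positivity)
  filter_upwards [(isLittleO_cobounded_of_degree_lt hd).bound hc, bne hB] with x h1 h2
  have h3 : 0 < ‖B.eval x‖ := norm_pos_iff.2 h2
  rw [norm_div, le_div_iff₀ h3]
  have h4 : (|b| + 1) * ‖B.eval x‖ ≤ ‖A.eval x‖ := by
    have h5 := mul_le_mul_of_nonneg_left h1 (by positivity : (0 : ℝ) ≤ |b| + 1)
    rwa [← mul_assoc, mul_inv_cancel₀ (by positivity), one_mul] at h5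
  have h5 : b * ‖B.eval x‖ ≤ (|b| + 1) * ‖B.eval x‖ :=
    mul_le_mul_of_nonneg_right ((le_abs_self b).trans (by linarith)) h3.le
  linarith

/-- the exceptional set -/
def NN (L : PeriodPair) (B : ℂ[X]) : Set ℂ :=
  {z : ℂ | z ∈ L.lattice ∨ B.eval (L.weierstrassP z) = 0}

theorem mem_NN {L : PeriodPair} {B : ℂ[X]} {z : ℂ} :
    z ∈ NN L B ↔ z ∈ L.lattice ∨ B.eval (L.weierstrassP z) = 0 := Iff.rfl

theorem not_mem_NN {L : PeriodPair} {B : ℂ[X]} {z : ℂ} :
    z ∉ NN L B ↔ z ∉ L.lattice ∧ B.eval (L.weierstrassP z) ≠ 0 := by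
  rw [mem_NN, not_or]

theorem NN_count (L : PeriodPair) {B : ℂ[X]} (hB : B ≠ 0) : (NN L B).Countable := by
  classical
  have hL : (L.lattice : Set ℂ).Countable := by
    have : Countable L.lattice := L.latticeEquivProd.injective.countable
    exact Set.to_countable _
  have h1 : ∀ x : ℂ, {z : ℂ | z ∉ L.lattice ∧ L.weierstrassP z = x}.Countable := by
    intro x
    by_cases hx : ∃ Q, Q ∉ L.lattice ∧ L.weierstrassP Q = x
    · obtain ⟨Q, hQ, rfl⟩ := hx
      refine Set.Countable.mono ?_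
        ((hL.image (fun v => v + Q)).union (hL.image (fun v => v - Q)))
      rintro z ⟨hz, hz2⟩
      rcases b_NEQ L Q z hQ hz hz2 with h | h
      · exact Or.inl ⟨z - Q, h, by ring⟩
      · exact Or.inr ⟨z + Q, h, by ring⟩
    · refine Set.Countable.mono ?_ Set.countable_empty
      rintro z ⟨hz, hz2⟩
      exact hx ⟨z, hz, hz2⟩
  have h2 : (⋃ x ∈ (B.roots.toFinset : Set ℂ),
      {z : ℂ | z ∉ L.lattice ∧ L.weierstrassP z = x}).Countable :=
    (Finset.countable_toSet _).biUnion fun x _ => h1 x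
  refine (hL.union h2).mono ?_
  intro z hz
  rcases mem_NN.1 hz with h | h
  · exact Or.inl h
  · by_cases hzL : z ∈ L.lattice
    · exact Or.inl hzL
    · refine Or.inr (Set.mem_iUnion₂.2 ⟨L.weierstrassP z, ?_, hzL, rfl⟩)
      rw [Finset.mem_coe, Multiset.mem_toFinset, mem_roots hB]
      exact h

theorem ccomp (L : PeriodPair) (B : ℂ[X]) {z : ℂ} (hz : z ∉ L.lattice) :
    ContinuousAt (fun x => B.eval (L.weierstrassP x)) z :=
  ContinuousAt.comp (f := L.weierstrassP) (g := fun x => B.eval x)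
    B.continuous.continuousAt (wder L hz).continuousAt

theorem NN_ev {L : PeriodPair} {B : ℂ[X]} {z : ℂ} (hz : z ∉ NN L B) :
    ∀ᶠ x in 𝓝 z, x ∉ NN L B := by
  obtain ⟨h1, h2⟩ := not_mem_NN.1 hz
  filter_upwards [out_ev L h1, (ccomp L B h1).eventually_ne h2] with x h3 h4
  exact not_mem_NN.2 ⟨h3, h4⟩

theorem NN_closed (L : PeriodPair) (B : ℂ[X]) : IsClosed (NN L B) := by
  rw [← isOpen_compl_iff, isOpen_iff_mem_nhds]
  intro z hz
  exact NN_ev hz

/-- punctured neighbourhoods avoid the exceptional set -/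
theorem NN_punct (L : PeriodPair) {B : ℂ[X]} (hB : B ≠ 0) (w : ℂ) :
    ∀ᶠ x in 𝓝[≠] w, x ∉ NN L B := by
  by_cases hw : w ∈ L.lattice
  · filter_upwards [out_punct L w, (wpole L hw).eventually (bne hB)] with x h1 h2
    exact not_mem_NN.2 ⟨h1, h2⟩
  · have han : AnalyticAt ℂ (fun x => B.eval (L.weierstrassP x)) w := by
      have h1 := L.analyticOnNhd_weierstrassP w hw
      have h2 : AnalyticAt ℂ (fun x : ℂ => B.eval x) (L.weierstrassP w) := by
        rw [Complex.analyticAt_iff_eventually_differentiableAt]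
        exact Eventually.of_forall fun x => B.differentiable x
      exact h2.comp h1
    rcases han.eventually_eq_zero_or_eventually_ne_zero with h | h
    · exfalso
      have hd : Dense (NN L B)ᶜ := (NN_count L hB).dense_compl ℝ
      rw [Metric.eventually_nhds_iff_ball] at h
      obtain ⟨ε, hε, h⟩ := h
      obtain ⟨x, hx1, hx2⟩ := hd.exists_mem_open Metric.isOpen_ball
        (⟨w, Metric.mem_ball_self hε⟩ : (Metric.ball w ε).Nonempty)
      exact hx1 (mem_NN.2 (Or.inr (h x hx2)))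
    · filter_upwards [out_punct L w, h] with x h1 h2
      exact not_mem_NN.2 ⟨h1, h2⟩

/-- the rational function -/
noncomputable def ff (L : PeriodPair) (A B : ℂ[X]) (z : ℂ) : ℂ :=
  A.eval (L.weierstrassP z) / B.eval (L.weierstrassP z)

theorem ff_der (L : PeriodPair) (A B : ℂ[X]) {z : ℂ} (hz : z ∉ NN L B) :
    HasDerivAt (ff L A B) ((derivative A * B - A * derivative B).eval (L.weierstrassP z) /
      B.eval (L.weierstrassP z) ^ 2 * L.derivWeierstrassP z) z := by
  obtain ⟨h1, h2⟩ := not_mem_NN.1 hz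
  have hA := (A.hasDerivAt (L.weierstrassP z)).comp z (wder L h1)
  have hB := (B.hasDerivAt (L.weierstrassP z)).comp z (wder L h1)
  have h3 := hA.div hB h2
  have e : (derivative A * B - A * derivative B).eval (L.weierstrassP z) /
      B.eval (L.weierstrassP z) ^ 2 * L.derivWeierstrassP z =
      ((derivative A).eval (L.weierstrassP z) * L.derivWeierstrassP z *
        ((fun x => B.eval x) ∘ L.weierstrassP) z - ((fun x => A.eval x) ∘ L.weierstrassP) z *
        ((derivative B).eval (L.weierstrassP z) * L.derivWeierstrassP z)) /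
        ((fun x => B.eval x) ∘ L.weierstrassP) z ^ 2 := by
    simp only [Function.comp_apply, eval_sub, eval_mul]
    ring
  rw [e]
  exact h3

theorem ff_ode {L M : PeriodPair} {μ : ℂ} {A B : ℂ[X]}
    (hO : OdeP L.g₂ L.g₃ M.g₂ M.g₃ μ A B) {z : ℂ} (hz : z ∉ NN L B) :
    deriv (ff L A B) z ^ 2 =
      μ ^ 2 * (4 * ff L A B z ^ 3 - M.g₂ * ff L A B z - M.g₃) := by
  obtain ⟨h1, h2⟩ := not_mem_NN.1 hz
  rw [(ff_der L A B hz).deriv, mul_pow, L.derivWeierstrassP_sq z h1]
  have h3 := congrArg (eval (L.weierstrassP z)) hO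
  simp only [eval_mul, eval_pow, eval_sub, eval_X, eval_C, eval_ofNat] at h3
  unfold ff
  simp only [eval_mul, eval_sub]
  have e : ((eval (L.weierstrassP z) (derivative A) * eval (L.weierstrassP z) B -
        eval (L.weierstrassP z) A * eval (L.weierstrassP z) (derivative B)) /
        eval (L.weierstrassP z) B ^ 2) ^ 2 *
        (4 * L.weierstrassP z ^ 3 - L.g₂ * L.weierstrassP z - L.g₃) =
      ((eval (L.weierstrassP z) (derivative A) * eval (L.weierstrassP z) B -
        eval (L.weierstrassP z) A * eval (L.weierstrassP z) (derivative B)) ^ 2 *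
        (4 * L.weierstrassP z ^ 3 - L.g₂ * L.weierstrassP z - L.g₃)) /
        eval (L.weierstrassP z) B ^ 4 := by
    field_simp
  rw [e, h3]
  field_simp

theorem key {M : PeriodPair} {μ c w : ℂ} {f : ℂ → ℂ} {N : Set ℂ}
    (hf : ∀ z ∉ N, μ * z + c ∉ M.lattice → f z = M.weierstrassP (μ * z + c))
    (hN : ∀ᶠ z in 𝓝[≠] w, z ∉ N) (hinf : Tendsto f (𝓝[≠] w) (Bornology.cobounded ℂ)) :
    μ * w + c ∈ M.lattice := by
  by_contra hc
  have hlin : ContinuousAt (fun z : ℂ => μ * z + c) w := by fun_prop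
  have hcont : ContinuousAt (fun z => M.weierstrassP (μ * z + c)) w :=
    ContinuousAt.comp (f := fun z : ℂ => μ * z + c) (g := M.weierstrassP)
      (wder M hc).continuousAt hlin
  have hev : ∀ᶠ z in 𝓝[≠] w, μ * z + c ∉ M.lattice :=
    nhdsWithin_le_nhds (hlin.eventually (out_ev M hc))
  have h1 : Tendsto f (𝓝[≠] w) (𝓝 (M.weierstrassP (μ * w + c))) := by
    refine (hcont.tendsto.mono_left nhdsWithin_le_nhds).congr' ?_
    filter_upwards [hN, hev] with z h1 h2
    exact (hf z h1 h2).symm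
  exact not_tendsto_nhds_of_tendsto_atTop (tendsto_norm_atTop_iff_cobounded.2 hinf) _ h1.norm

theorem ff_inf_lattice (L : PeriodPair) {A B : ℂ[X]} (hB : B ≠ 0)
    (h : B.natDegree < A.natDegree) {w : ℂ} (hw : w ∈ L.lattice) :
    Tendsto (ff L A B) (𝓝[≠] w) (Bornology.cobounded ℂ) :=
  (ratinf hB h).comp (wpole L hw)

theorem ff_inf_root (L : PeriodPair) {A B : ℂ[X]} (hB : B ≠ 0) {w : ℂ} (hw : w ∉ L.lattice)
    (h0 : B.eval (L.weierstrassP w) = 0) (hA : A.eval (L.weierstrassP w) ≠ 0) :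
    Tendsto (ff L A B) (𝓝[≠] w) (Bornology.cobounded ℂ) := by
  have h1 : Tendsto (fun x => B.eval (L.weierstrassP x)) (𝓝[≠] w) (𝓝[≠] 0) := by
    rw [tendsto_nhdsWithin_iff]
    constructor
    · have := (ccomp L B hw).tendsto
      rw [h0] at this
      exact this.mono_left nhdsWithin_le_nhds
    · filter_upwards [NN_punct L hB w] with x hx
      exact (not_mem_NN.1 hx).2
  have h2 : Tendsto (fun x => (B.eval (L.weierstrassP x))⁻¹) (𝓝[≠] w)
      (Bornology.cobounded ℂ) := tendsto_inv₀_nhdsNE_zero.comp h1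
  have h3 : Tendsto (fun x => A.eval (L.weierstrassP x)) (𝓝[≠] w)
      (𝓝 (A.eval (L.weierstrassP w))) :=
    (ccomp L A hw).tendsto.mono_left nhdsWithin_le_nhds
  rw [← tendsto_norm_atTop_iff_cobounded] at h2 ⊢
  have h4 := Tendsto.pos_mul_atTop (norm_pos_iff.2 hA) h3.norm h2
  refine h4.congr fun x => ?_
  rw [ff, div_eq_mul_inv, norm_mul]

end ODE43

open _root_.Pool.Agent.MUXU.ODE43 in
theorem tu_ODE (h1 : Su_LOC) : Su_ODE := by
  intro L M μ A B hμ hcop hdeg hO
  have hB : B ≠ 0 := by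
    rintro rfl
    rw [isCoprime_zero_right] at hcop
    have := natDegree_eq_zero_of_isUnit hcop
    rw [this] at hdeg
    exact absurd hdeg (Nat.not_lt_zero _)
  have hode : ∀ z ∉ NN L B, deriv (ff L A B) z ^ 2 =
      μ ^ 2 * (4 * ff L A B z ^ 3 - M.g₂ * ff L A B z - M.g₃) := fun z hz => ff_ode hO hz
  have hdiff : DifferentiableOn ℂ (ff L A B) (NN L B)ᶜ := fun z hz =>
    (ff_der L A B hz).differentiableAt.differentiableWithinAt
  -- a point with nonzero derivative
  have hz0 : ∃ z₀ ∉ NN L B, deriv (ff L A B) z₀ ≠ 0 := by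
    by_contra hcon
    push Not at hcon
    have hinf := ff_inf_lattice L hB hdeg (L.lattice.zero_mem)
    rw [← tendsto_norm_atTop_iff_cobounded] at hinf
    have hb := (tendsto_atTop.1 hinf (max 1 ((‖M.g₂‖ + ‖M.g₃‖) / 4) + 1)).and
      (NN_punct L hB 0)
    obtain ⟨x, hx1, hx2⟩ := hb.exists
    have h2 := hode x hx2
    rw [hcon x hx2] at h2
    have h3 : 4 * ff L A B x ^ 3 - M.g₂ * ff L A B x - M.g₃ = 0 := by
      have h4 : μ ^ 2 * (4 * ff L A B x ^ 3 - M.g₂ * ff L A B x - M.g₃) = 0 := by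
        rw [← h2]; ring
      exact (mul_eq_zero.1 h4).resolve_left (pow_ne_zero 2 hμ)
    have h4 : 4 * ff L A B x ^ 3 = M.g₂ * ff L A B x + M.g₃ := by linear_combination h3
    have h5 : 4 * ‖ff L A B x‖ ^ 3 ≤ ‖M.g₂‖ * ‖ff L A B x‖ + ‖M.g₃‖ := by
      have h6 := congrArg norm h4
      rw [norm_mul, norm_pow] at h6
      have h7 := norm_add_le (M.g₂ * ff L A B x) M.g₃
      rw [norm_mul] at h7
      have h8 : ‖(4 : ℂ)‖ = 4 := by norm_num
      rw [h8] at h6
      linarith
    obtain ⟨t, ht⟩ : ∃ t : ℝ, t = ‖ff L A B x‖ := ⟨_, rfl⟩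
    rw [← ht] at h5 hx1
    have t1 : 1 ≤ t := by linarith [le_max_left (1 : ℝ) ((‖M.g₂‖ + ‖M.g₃‖) / 4)]
    have t2 : (‖M.g₂‖ + ‖M.g₃‖) / 4 < t := by
      linarith [le_max_right (1 : ℝ) ((‖M.g₂‖ + ‖M.g₃‖) / 4)]
    have g2 := norm_nonneg M.g₂
    have g3 := norm_nonneg M.g₃
    have t3 : 4 * t ^ 3 ≤ (‖M.g₂‖ + ‖M.g₃‖) * t := by nlinarith
    have t4 : (‖M.g₂‖ + ‖M.g₃‖) * t < 4 * t * t := by nlinarith
    have t5 : 4 * t * t ≤ 4 * t ^ 3 := by nlinarith [mul_pos (by linarith : 0 < t) (by linarith : 0 < t)]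
    linarith
  obtain ⟨z₀, hz0, hz0'⟩ := hz0
  obtain ⟨c, hc⟩ := h1 M μ (NN L B) (ff L A B) z₀ hμ (NN_count L hB) (NN_closed L B) hdiff hode
    hz0 hz0'
  -- the constant is in the lattice
  have hcM : c ∈ M.lattice := by
    have := key hc (NN_punct L hB 0) (ff_inf_lattice L hB hdeg L.lattice.zero_mem)
    rwa [mul_zero, zero_add] at this
  have hcl : ∀ w, μ * w + c ∈ M.lattice → μ * w ∈ M.lattice := by
    intro w hw
    have := M.lattice.sub_mem hw hcM
    rwa [add_sub_cancel_right] at this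
  have hf : ∀ z ∉ NN L B, μ * z ∉ M.lattice → ff L A B z = M.weierstrassP (μ * z) := by
    intro z hz hz2
    rw [hc z hz fun h => hz2 (hcl z h), wper M _ _ hcM]
  have hroot : ∀ z, z ∉ L.lattice → B.eval (L.weierstrassP z) = 0 → μ * z ∈ M.lattice := by
    intro z hz hz2
    refine hcl z (key hc (NN_punct L hB z) (ff_inf_root L hB hz hz2 fun hA => ?_))
    obtain ⟨a, b, hab⟩ := hcop
    have := congrArg (eval (L.weierstrassP z)) hab
    rw [eval_add, eval_mul, eval_mul, hA, hz2, mul_zero, mul_zero, add_zero, eval_one] at this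
    exact zero_ne_one this
  have hreg : ∀ z, z ∉ NN L B → μ * z ∉ M.lattice := by
    intro z hz hmem
    have hlin : Tendsto (fun x : ℂ => μ * x) (𝓝[≠] z) (𝓝[≠] (μ * z)) := by
      rw [tendsto_nhdsWithin_iff]
      constructor
      · exact ((continuous_const.mul continuous_id).tendsto z).mono_left nhdsWithin_le_nhds
      · filter_upwards [self_mem_nhdsWithin] with x hx h
        exact hx (mul_left_cancel₀ hμ h)
    have g1 : Tendsto (fun x => M.weierstrassP (μ * x)) (𝓝[≠] z) (Bornology.cobounded ℂ) :=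
      (wpole M hmem).comp hlin
    have g2 : Tendsto (ff L A B) (𝓝[≠] z) (Bornology.cobounded ℂ) := by
      refine g1.congr' ?_
      filter_upwards [NN_punct L hB z, hlin.eventually (out_punct M (μ * z))] with x x1 x2
      exact (hf x x1 x2).symm
    have g3 : Tendsto (ff L A B) (𝓝[≠] z) (𝓝 (ff L A B z)) :=
      (ff_der L A B hz).continuousAt.tendsto.mono_left nhdsWithin_le_nhds
    exact not_tendsto_nhds_of_tendsto_atTop (tendsto_norm_atTop_iff_cobounded.2 g2) _ g3.norm
  refine ⟨fun w hw => ?_, hcop, fun z hz => ⟨fun h => ?_, hroot z hz⟩, fun z hz hz2 => ?_⟩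
  · exact hcl w (key hc (NN_punct L hB w) (ff_inf_lattice L hB hdeg hw))
  · by_contra hne
    exact hreg z (not_mem_NN.2 ⟨hz, hne⟩) h
  · have hne : B.eval (L.weierstrassP z) ≠ 0 := fun h => hz2 (hroot z hz h)
    rw [← hf z (not_mem_NN.2 ⟨hz, hne⟩) hz2, ff, div_mul_cancel₀ _ hne]

end Pool.Agent.MUXU


end

section

/-!
# MUX, block U, module LIM (helper95): the limits of `g₂(τ)` and `g₃(τ)`
-/

set_option autoImplicit false

namespace Pool.Agent.MUXU

open Filter Topology UpperHalfPlane EisensteinSeries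
open scoped Real

noncomputable section

namespace LIM

theorem G_eq (τ : ℍ) (k : ℕ) : (LT τ).G k = ∑' v : Fin 2 → ℤ, eisSummand k v τ := by
  unfold PeriodPair.G
  rw [← (LT τ).latticeEquivProd.symm.toEquiv.tsum_eq, ← (Equiv.prodComm ℤ ℤ).tsum_eq,
    ← (finTwoArrowEquiv ℤ).tsum_eq]
  refine tsum_congr fun v => ?_
  have h1 := (LT τ).latticeEquiv_symm_apply (v 1, v 0)
  have h2 : ((LT τ).latticeEquivProd.symm.toEquiv ((Equiv.prodComm ℤ ℤ)
      (finTwoArrowEquiv ℤ v)) : (LT τ).lattice) = (LT τ).latticeEquivProd.symm (v 1, v 0) := rfl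
  rw [h2, h1, eisSummand, zpow_neg, zpow_natCast]
  congr 2
  change (v 1 : ℂ) * 1 + (v 0 : ℂ) * (τ : ℂ) = _
  ring

theorem E_tend {k : ℕ} (hk : 3 ≤ k) (hk2 : Even k) :
    Tendsto (fun τ : ℍ => ModularForm.E hk τ) atImInfty (𝓝 1) := by
  obtain ⟨c, hc, h1⟩ := ModularFormClass.exp_decay_sub_atImInfty' (ModularForm.E hk)
  have hv : valueAtInfty (ModularForm.E hk) = 1 := by
    rw [← E_qExpansion_coeff_zero hk hk2]
    exact (UpperHalfPlane.qExpansion_coeff_zero one_pos
      (ModularFormClass.analyticAt_cuspFunction_zero (ModularForm.E hk) one_pos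
        one_mem_strictPeriods_SL)
      (SlashInvariantFormClass.periodic_comp_ofComplex (ModularForm.E hk)
        one_mem_strictPeriods_SL)).symm
  rw [hv] at h1
  have h2 : Tendsto (fun τ : ℍ => Real.exp (-c * τ.im)) atImInfty (𝓝 0) := by
    refine Real.tendsto_exp_atBot.comp ?_
    exact (tendsto_comap (f := UpperHalfPlane.im)).const_mul_atTop_of_neg (neg_lt_zero.2 hc)
  have h3 := (h1.trans_tendsto h2).add_const 1
  simpa using h3

theorem G_tend {k : ℕ} (hk : 3 ≤ k) (hk2 : Even k) :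
    Tendsto (fun τ : ℍ => (LT τ).G k) atImInfty (𝓝 (2 * riemannZeta k)) := by
  have h1 : ∀ τ : ℍ, (LT τ).G k = 2 * riemannZeta k * ModularForm.E hk τ := by
    intro τ
    rw [G_eq, tsum_eisSummand_eq_riemannZeta_mul_eisensteinSeries hk]
    have h2 : ModularForm.E hk τ = (1 / 2 : ℂ) • eisensteinSeriesSIF (N := 1) 0 k τ := rfl
    rw [h2, eisensteinSeriesSIF_apply 0 k τ, smul_eq_mul]
    ring
  simp only [h1]
  simpa using (E_tend hk hk2).const_mul (2 * riemannZeta k)

theorem zeta_six : riemannZeta 6 = (π : ℂ) ^ 6 / 945 := by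
  have h1 := riemannZeta_two_mul_nat (k := 3) (by norm_num)
  have h5 : bernoulli' 5 = 0 := bernoulli'_eq_zero_of_odd (by decide) (by norm_num)
  have h6 : bernoulli' 6 = 1 / 42 := by
    rw [bernoulli'_def]
    norm_num [Finset.sum_range_succ, Finset.sum_range_zero, h5, Nat.choose]
  have h7 : bernoulli 6 = 1 / 42 := by
    rw [bernoulli_eq_bernoulli'_of_ne_one (by norm_num), h6]
  norm_num [h7, Nat.factorial] at h1
  rw [h1]
  ring

end LIM

open _root_.Pool.Agent.MUXU.LIM in
theorem tu_LIM : Su_LIM := by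
  constructor
  · have h := (G_tend (k := 4) (by norm_num) (by decide)).const_mul (60 : ℂ)
    have e : (60 : ℂ) * (2 * riemannZeta (4 : ℕ)) = 4 * (π : ℂ) ^ 4 / 3 := by
      push_cast
      rw [riemannZeta_four]
      ring
    rw [e] at h
    exact h
  · have h := (G_tend (k := 6) (by norm_num) (by decide)).const_mul (140 : ℂ)
    have e : (140 : ℂ) * (2 * riemannZeta (6 : ℕ)) = 8 * (π : ℂ) ^ 6 / 27 := by
      push_cast
      rw [zeta_six]
      ring
    rw [e] at h
    exact h

end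

end Pool.Agent.MUXU


end

section

/-!
# MUX, block U, module GHO (helper9): `g₂(τ)` and `g₃(τ)` are holomorphic
-/

set_option autoImplicit false

namespace Pool.Agent.MUXU

open Filter Topology UpperHalfPlane EisensteinSeries
open scoped Real

noncomputable section

namespace GHO

theorem G_eq_E (τ : ℍ) {k : ℕ} (hk : 3 ≤ k) :
    (LT τ).G k = 2 * riemannZeta k * ModularForm.E hk τ := by
  rw [LIM.G_eq, tsum_eisSummand_eq_riemannZeta_mul_eisensteinSeries hk]
  have h2 : ModularForm.E hk τ = (1 / 2 : ℂ) • eisensteinSeriesSIF (N := 1) 0 k τ := rfl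
  rw [h2, eisensteinSeriesSIF_apply 0 k τ, smul_eq_mul]
  ring

theorem G_diff {k : ℕ} (hk : 3 ≤ k) :
    DifferentiableOn ℂ (fun z : ℂ => (LT (ofComplex z)).G k) {z | 0 < z.im} := by
  have h1 : (fun z : ℂ => (LT (ofComplex z)).G k) =
      fun z => 2 * riemannZeta k * ((ModularForm.E hk : ℍ → ℂ) ∘ ofComplex) z := by
    funext z
    exact G_eq_E _ hk
  rw [h1]
  refine DifferentiableOn.const_mul ?_ _
  exact UpperHalfPlane.mdifferentiable_iff.1 (ModularFormClass.holo (ModularForm.E hk))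

end GHO

theorem tu_GHO : Su_GHO :=
  ⟨(GHO.G_diff (k := 4) (by norm_num)).const_mul (60 : ℂ),
    (GHO.G_diff (k := 6) (by norm_num)).const_mul (140 : ℂ)⟩

end

end Pool.Agent.MUXU


end

section

/-!
HQ2: the index of `(γ - 1) X` if `X` is torsion free and killed by a cyclotomic polynomial in `γ`.
-/

set_option autoImplicit false

open Finset

namespace Pool.Agent.RID

namespace HQ2

open Polynomial

theorem poly_pow (p i : ℕ) [hp : Fact p.Prime] : ∃ h : Polynomial ℤ,
    ∑ j ∈ range p, (X : Polynomial ℤ) ^ (p ^ i * j) = (X - 1) ^ (p ^ i * (p - 1)) + C (p : ℤ) * h := by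
  have h1 : Polynomial.map (Int.castRingHom (ZMod p))
      (∑ j ∈ range p, (X : Polynomial ℤ) ^ (p ^ i * j) - (X - 1) ^ (p ^ i * (p - 1))) = 0 := by
    have h2 := Polynomial.cyclotomic_mul_prime_pow_eq (ZMod p) (m := 1) (k := i + 1)
      (fun h => hp.out.one_lt.not_ge (Nat.le_of_dvd one_pos h)) (Nat.succ_pos i)
    rw [mul_one, Polynomial.cyclotomic_one, Polynomial.cyclotomic_prime_pow_eq_geom_sum hp.out] at h2
    have e : p ^ (i + 1) - p ^ (i + 1 - 1) = p ^ i * (p - 1) := by
      rw [Nat.add_sub_cancel, pow_succ, Nat.mul_sub, mul_one]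
    rw [e] at h2
    rw [Polynomial.map_sub, Polynomial.map_pow, Polynomial.map_sub, Polynomial.map_X,
      Polynomial.map_one, ← h2, Polynomial.map_sum, sub_eq_zero]
    refine Finset.sum_congr rfl fun j _ => ?_
    rw [Polynomial.map_pow, Polynomial.map_X, pow_mul]
  have h2 : C (p : ℤ) ∣
      (∑ j ∈ range p, (X : Polynomial ℤ) ^ (p ^ i * j) - (X - 1) ^ (p ^ i * (p - 1))) := by
    rw [Polynomial.C_dvd_iff_dvd_coeff]
    intro j
    have h3 := congrArg (fun q => Polynomial.coeff q j) h1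
    simp only [Polynomial.coeff_map, Polynomial.coeff_zero] at h3
    exact (ZMod.intCast_zmod_eq_zero_iff_dvd _ p).mp (by simpa using h3)
  obtain ⟨h, hh⟩ := h2
  exact ⟨h, by rw [← hh]; ring⟩

theorem poly_one (p i : ℕ) [hp : Fact p.Prime] : ∃ h h₁ : Polynomial ℤ,
    ∑ j ∈ range p, (X : Polynomial ℤ) ^ (p ^ i * j) =
      (X - 1) ^ (p ^ i * (p - 1)) + C (p : ℤ) * h ∧ h = 1 + (X - 1) * h₁ := by
  obtain ⟨h, hh⟩ := poly_pow p i
  have hφ : p ^ i * (p - 1) ≠ 0 :=
    Nat.mul_ne_zero (pow_ne_zero _ hp.out.ne_zero) (Nat.sub_ne_zero_of_lt hp.out.one_lt)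
  have h1 := congrArg (Polynomial.eval 1) hh
  simp only [Polynomial.eval_finsetSum, Polynomial.eval_pow, Polynomial.eval_X, one_pow,
    Finset.sum_const, Finset.card_range, Polynomial.eval_add, Polynomial.eval_sub,
    Polynomial.eval_one, sub_self, zero_pow hφ, zero_add, Polynomial.eval_mul,
    Polynomial.eval_C, nsmul_eq_mul, mul_one] at h1
  have hp0 : (p : ℤ) ≠ 0 := by exact_mod_cast hp.out.ne_zero
  have h2 : Polynomial.eval 1 h = 1 := by
    have h3 : (p : ℤ) * Polynomial.eval 1 h = p * 1 := by rw [← h1, mul_one]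
    exact mul_left_cancel₀ hp0 h3
  have h4 : (X - C 1 : Polynomial ℤ) ∣ h - 1 := by
    rw [Polynomial.dvd_iff_isRoot, Polynomial.IsRoot.def, Polynomial.eval_sub, h2,
      Polynomial.eval_one, sub_self]
  obtain ⟨h₁, h5⟩ := h4
  refine ⟨h, h₁, hh, ?_⟩
  rw [Polynomial.C_1] at h5
  rw [← h5]
  ring

end HQ2

open _root_.Pool.Agent.RID.HQ2 in
theorem t_HQ2 : S_HQ2 := by
  intro p i r hp X _ _ _ γ hN hr
  have : NeZero p := ⟨hp.out.ne_zero⟩
  have hφ : p ^ i * (p - 1) ≠ 0 :=
    Nat.mul_ne_zero (pow_ne_zero _ hp.out.ne_zero) (Nat.sub_ne_zero_of_lt hp.out.one_lt)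
  set φ := p ^ i * (p - 1) with hφd
  obtain ⟨h, h₁, hh, hh1⟩ := poly_one p i
  rw [← hφd] at hh
  have htf : ∀ x : X, p • x = 0 → x = 0 := by
    intro x hx
    have := (smul_eq_zero (r := (p : ℤ)) (m := x)).1 (by rw [natCast_zsmul]; exact hx)
    exact this.resolve_left (by exact_mod_cast hp.out.ne_zero)
  -- `T ^ φ = - p h(γ)`
  have hP : Polynomial.aeval γ (∑ j ∈ range p, (Polynomial.X : Polynomial ℤ) ^ (p ^ i * j)) = 0 := by
    rw [map_sum, ← hN]
    exact Finset.sum_congr rfl fun j _ => by rw [map_pow, Polynomial.aeval_X]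
  have hT : (γ - 1) ^ φ = -((p : AddMonoid.End X) * Polynomial.aeval γ h) := by
    rw [hh, map_add, map_pow, map_sub, Polynomial.aeval_X, map_one, map_mul,
      Polynomial.aeval_C] at hP
    rw [← sub_eq_zero, sub_neg_eq_add, ← hP]
    simp
  have hcast : ∀ x : X, (p : AddMonoid.End X) x = p • x := fun x =>
    AddMonoid.End.natCast_apply p x
  -- injectivity
  have hinj : Function.Injective (γ - 1 : AddMonoid.End X) := by
    rw [injective_iff_map_eq_zero]
    intro x hx
    have h1 : γ x = x := sub_eq_zero.mp hx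
    have h2 : ∀ k : ℕ, (γ ^ k) x = x := by
      intro k
      induction k with
      | zero => rfl
      | succ k ih =>
        rw [pow_succ]
        change (γ ^ k) (γ x) = x
        rw [h1, ih]
    apply htf
    have h3 : (∑ j ∈ range p, γ ^ (p ^ i * j)) x = 0 := by rw [hN]; rfl
    rw [RI.HERB.sum_apply, Finset.sum_congr rfl fun j _ => h2 _, Finset.sum_const,
      Finset.card_range] at h3
    exact h3
  have hpinj : Function.Injective (nsmulAddMonoidHom p : X →+ X) := by
    rw [injective_iff_map_eq_zero]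
    exact fun x hx => htf x hx
  have hpidx : (nsmulAddMonoidHom p : X →+ X).range.index = p ^ (φ * r) := by
    rw [RI.HERB.index_nsmul, hr]
    have : (nsmulAddMonoidHom p : X →+ X).ker = ⊥ := (AddMonoidHom.ker_eq_bot_iff _).2 hpinj
    rw [this, AddSubgroup.card_bot, one_mul]
  -- the index of the image of `T`
  have hdvd : (AddMonoidHom.range (γ - 1 : AddMonoid.End X)).index ∣ p ^ (φ * r) := by
    rw [← hpidx]
    apply AddSubgroup.index_dvd_of_le
    rintro _ ⟨x, rfl⟩
    -- `p = P(1) - P(γ)`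
    obtain ⟨q, hq⟩ : (Polynomial.X - Polynomial.C 1 : Polynomial ℤ) ∣
        Polynomial.C (p : ℤ) - ∑ j ∈ range p, (Polynomial.X : Polynomial ℤ) ^ (p ^ i * j) := by
      rw [Polynomial.dvd_iff_isRoot, Polynomial.IsRoot.def]
      simp [Polynomial.eval_finsetSum]
    have h3 := congrArg (Polynomial.aeval γ) hq
    rw [map_sub, hP, sub_zero, map_mul, map_sub, Polynomial.aeval_X, Polynomial.aeval_C,
      Polynomial.aeval_C, map_one] at h3
    refine ⟨Polynomial.aeval γ q x, ?_⟩
    have h4 := congrArg (fun f : AddMonoid.End X => f x) h3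
    simp only [map_natCast] at h4
    change (γ - 1 : AddMonoid.End X) (Polynomial.aeval γ q x) = p • x
    rw [← hcast x]
    have h5 : ((γ - 1) * Polynomial.aeval γ q : AddMonoid.End X) x =
        (γ - 1 : AddMonoid.End X) (Polynomial.aeval γ q x) := rfl
    rw [← h5, ← h4]
  obtain ⟨k, hk, hk'⟩ := (Nat.dvd_prime_pow hp.out).1 hdvd
  have hpow := RI.HERB.index_pow (γ - 1) hinj φ
  set H : AddSubgroup X := AddMonoidHom.range (Polynomial.aeval γ h : AddMonoid.End X) with hH
  have hmap : AddMonoidHom.range ((γ - 1) ^ φ : AddMonoid.End X) =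
      H.map (nsmulAddMonoidHom p : X →+ X) := by
    ext x
    constructor
    · rintro ⟨y, rfl⟩
      refine ⟨-(Polynomial.aeval γ h y), neg_mem ⟨y, rfl⟩, ?_⟩
      rw [hT]
      change p • (-(Polynomial.aeval γ h y)) = -((p : AddMonoid.End X) (Polynomial.aeval γ h y))
      rw [hcast, smul_neg]
    · rintro ⟨_, ⟨y, rfl⟩, rfl⟩
      refine ⟨-y, ?_⟩
      rw [hT]
      change -((p : AddMonoid.End X) (Polynomial.aeval γ h (-y))) = p • (Polynomial.aeval γ h y)
      rw [hcast, map_neg, smul_neg, neg_neg]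
  rw [hmap, AddSubgroup.index_map_of_injective _ hpinj, hpidx, hk'] at hpow
  have hHdvd : H.index ∣ p ^ (k * φ) := by
    rw [pow_mul, ← hpow]
    exact Dvd.intro _ rfl
  obtain ⟨m, -, hm⟩ := (Nat.dvd_prime_pow hp.out).1 hHdvd
  -- surjectivity modulo `p`
  have hsur : ∀ x : X, ∃ y, x - p • y ∈ H := by
    intro x
    set N : Polynomial ℤ := -((Polynomial.X - 1) * h₁) with hNd
    have e1 : h = 1 - N := by rw [hh1, hNd]; ring
    have e2 : (1 : Polynomial ℤ) - N ^ φ = (1 - N) * ∑ j ∈ range φ, N ^ j := by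
      rw [mul_comm]
      exact (geom_sum_mul_neg N φ).symm
    have e3 : N ^ φ = (-h₁) ^ φ *
        (∑ j ∈ range p, (Polynomial.X : Polynomial ℤ) ^ (p ^ i * j) - Polynomial.C (p : ℤ) * h) := by
      rw [hh, add_sub_cancel_right, hNd, neg_eq_neg_one_mul, mul_pow, mul_pow,
        neg_eq_neg_one_mul h₁, mul_pow]
      ring
    have e4 : (1 : Polynomial ℤ) = h * ∑ j ∈ range φ, N ^ j + N ^ φ := by
      rw [e1, ← e2]
      ring
    have e5 := congrArg (Polynomial.aeval γ) e4
    rw [map_add, e3, map_mul, map_mul, map_sub, hP, map_mul, Polynomial.aeval_C, map_one] at e5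
    have e6 := congrArg (fun f : AddMonoid.End X => f x) e5
    set S := Polynomial.aeval γ (∑ j ∈ range φ, N ^ j) with hS
    set K := Polynomial.aeval γ ((-h₁) ^ φ) with hK
    refine ⟨-(K (Polynomial.aeval γ h x)), ?_⟩
    refine ⟨S x, ?_⟩
    have e7 : x = Polynomial.aeval γ h (S x) + K (-(p • (Polynomial.aeval γ h x))) := by
      have e8 : (1 : AddMonoid.End X) x = x := rfl
      rw [← e8]
      refine e6.trans ?_
      change Polynomial.aeval γ h (S x) + K ((0 - (algebraMap ℤ (AddMonoid.End X) (p : ℤ)) *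
        Polynomial.aeval γ h : AddMonoid.End X) x) = _
      congr 2
      rw [zero_sub, map_natCast]
      change -((p : AddMonoid.End X) (Polynomial.aeval γ h x)) = _
      rw [hcast]
      rfl
    change Polynomial.aeval γ h (S x) = x - p • (-(K (Polynomial.aeval γ h x)))
    rw [smul_neg, sub_neg_eq_add, ← map_nsmul]
    nth_rewrite 2 [e7]
    rw [map_neg]
    abel
  have hall : ∀ (j : ℕ) (x : X), ∃ y, x - p ^ j • y ∈ H := by
    intro j
    induction j with
    | zero => exact fun x => ⟨x, by simp⟩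
    | succ j ih =>
      intro x
      obtain ⟨y, hy⟩ := ih x
      obtain ⟨z, hz⟩ := hsur y
      refine ⟨z, ?_⟩
      have e : x - p ^ (j + 1) • z = (x - p ^ j • y) + p ^ j • (y - p • z) := by
        rw [smul_sub, smul_smul, pow_succ]
        abel
      rw [e]
      exact add_mem hy (nsmul_mem hz _)
  have htop : H = ⊤ := by
    rw [eq_top_iff]
    intro x _
    obtain ⟨y, hy⟩ := hall m x
    have h3 : p ^ m • y ∈ H := by
      rw [← hm]
      exact H.nsmul_index_mem y
    have := add_mem hy h3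
    rwa [sub_add_cancel] at this
  rw [htop, AddSubgroup.index_top, one_mul, ← pow_mul] at hpow
  have h5 := Nat.pow_right_injective hp.out.two_le hpow
  rw [hk']
  congr 1
  rw [mul_comm φ r] at h5
  exact (Nat.eq_of_mul_eq_mul_right (Nat.pos_of_ne_zero hφ) h5).symm

end Pool.Agent.RID


end

section

/-!
# MUX, block HX: module FLD, all values are in a number field
-/

set_option autoImplicit false

namespace Pool.Agent.MUXH

open _root_.MU3 _root_.Pool.Agent.MuSym OnePoint

theorem tx_FLD (hMAX : Sx_MAX) : Sx_FLD := by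
  intro p V N₀ s₀ h a nu P s hH
  obtain ⟨T, hT⟩ := hH.fin
  obtain ⟨_, S₀, hS₀, hS⟩ := hMAX V T {z | ∃ x y, z = P 0 x y}
    (by rintro _ ⟨x, y, rfl⟩; exact hT x y) ⟨P 0 ∞ ∞, ∞, ∞, rfl⟩
  have hint : ∀ z ∈ insert a (S₀ : Set ℂ), IsIntegral ℚ z := by
    intro z hz
    rcases Set.mem_insert_iff.1 hz with rfl | hz
    · exact hH.alga.isIntegral
    · obtain ⟨x, y, rfl⟩ := hS₀ hz
      exact (hH.alg x y).isIntegral
  have hfin : Finite (insert a (S₀ : Set ℂ) : Set ℂ) :=
    (Set.Finite.insert a S₀.finite_toSet).to_subtype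
  refine ⟨IntermediateField.adjoin ℚ (insert a (S₀ : Set ℂ)),
    IntermediateField.finiteDimensional_adjoin hint,
    IntermediateField.subset_adjoin ℚ _ (Set.mem_insert _ _), ?_⟩
  intro i
  induction i with
  | zero =>
    intro x y
    have hmem : P 0 x y ∈ AddSubgroup.closure (S₀ : Set ℂ) := hS ⟨x, y, rfl⟩
    refine AddSubgroup.closure_induction ?_ ?_ ?_ ?_ hmem
    · intro z hz
      exact IntermediateField.subset_adjoin ℚ _ (Set.mem_insert_of_mem _ hz)
    · exact IntermediateField.zero_mem _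
    · intro z w _ _ hz hw
      exact IntermediateField.add_mem _ hz hw
    · intro z _ hz
      exact IntermediateField.neg_mem _ hz
  | succ i ih =>
    intro x y
    rw [← hH.hec i x y]
    unfold hecke
    rw [hH.nup, zero_mul, add_zero]
    exact IntermediateField.sum_mem _ fun j _ => ih _ _

end Pool.Agent.MUXH


end
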