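import Mathlib
import Pool.Agent.MVF.C032
import Pool.Agent.MVF.C033
import Pool.Agent.MVF.C035
import Pool.Agent.MVF.C042
import Pool.Agent.MVF.C053
import Pool.Agent.MVF.C054
import Pool.Agent.MVF.C056

/-! Parts: MUX.U_XIL, MUX.U_UNI, MUX.U_TSN, MUX.U_FUN, MUX.U_CJE, MUX.UAll, ME.X_FAC, MUX.E_TP, NS.TR_ACF -/

namespace Pool.Agent.MUXE.TP
end Pool.Agent.MUXE.TP
namespace Pool.Agent.MUXU.FUN
end Pool.Agent.MUXU.FUN
namespace Pool.Agent.MUXU.XIL
end Pool.Agent.MUXU.XIL
namespace Pool.Agent.NSTR.ACF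
end Pool.Agent.NSTR.ACF

section

/-!
# MUX, block U, module XIL (helper95): the group isomorphism `ℂ/L ≅ E(ℂ)`
-/

set_option autoImplicit false

namespace Pool.Agent.MUXU

open _root_.Pool.Agent.MU3B

noncomputable section

namespace XIL

open WeierstrassCurve.Affine

theorem some_eq {W : WeierstrassCurve.Affine ℂ} {x y x' y' : ℂ} (h : W.Nonsingular x y)
    (h' : W.Nonsingular x' y') (hx : x = x') (hy : y = y') :
    Point.some x y h = Point.some x' y' h' := by
  subst hx hy
  rfl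

end XIL

open _root_.Pool.Agent.MUXU.XIL WeierstrassCurve.Affine in
theorem tu_XIL : Su_XIL := by
  classical
  intro L
  set P : ℂ → ℂ := L.weierstrassP with hP
  set D : ℂ → ℂ := L.derivWeierstrassP with hD
  set W : WeierstrassCurve.Affine ℂ := EL L with hW
  have w1 : W.a₁ = 0 := rfl
  have w2 : W.a₂ = 0 := rfl
  have w3 : W.a₃ = 0 := rfl
  have w4 : W.a₄ = -L.g₂ / 4 := rfl
  have w6 : W.a₆ = -L.g₃ / 4 := rfl
  -- the facts
  have hsq : ∀ z, z ∉ L.lattice → D z ^ 2 = 4 * P z ^ 3 - L.g₂ * P z - L.g₃ :=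
    fun z hz => L.derivWeierstrassP_sq z hz
  have hpar : ∀ z, P (-z) = P z ∧ D (-z) = -D z := fun z =>
    ⟨L.weierstrassP_neg z, L.derivWeierstrassP_neg z⟩
  have hper : ∀ z, ∀ u ∈ L.lattice, P (z + u) = P z ∧ D (z + u) = D z := by
    intro z u hu
    exact ⟨L.weierstrassP_add_coe z ⟨u, hu⟩, L.derivWeierstrassP_add_coe z ⟨u, hu⟩⟩
  have hinj : ∀ z z', z ∉ L.lattice → z' ∉ L.lattice → P z = P z' →
      z - z' ∈ L.lattice ∨ z + z' ∈ L.lattice := fun z z' hz hz' hx =>
    b_NEQ L z' z hz' hz hx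
  have hy0 : ∀ z, z ∉ L.lattice → (D z = 0 ↔ 2 * z ∈ L.lattice) := fun z hz => b_ZER L z hz
  have hadd := b_ADD L
  have hdbl := b_DUP L
  have ns : ∀ z, z ∉ L.lattice → W.Nonsingular (P z) (D z / 2) := by
    intro z hz
    rw [WeierstrassCurve.Affine.nonsingular_iff', WeierstrassCurve.Affine.equation_iff, w1, w2, w3,
      w4, w6]
    refine ⟨by linear_combination (1 / 4) * hsq z hz, ?_⟩
    by_contra hcon
    rw [not_or, not_not, not_not] at hcon
    obtain ⟨hx, hy⟩ := hcon
    have h1 := hsq z hz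
    have h2 : D z = 0 := by linear_combination hy
    rw [h2] at h1
    have e2 : L.g₂ = 12 * P z ^ 2 := by linear_combination 4 * hx
    have e3 : L.g₃ = -8 * P z ^ 3 := by
      linear_combination h1 - P z * e2
    apply (b_DSC L).1
    rw [e2, e3]
    ring
  set f : ℂ → W.Point := fun z => if h : z ∈ L.lattice then 0 else Point.some _ _ (ns z h) with hf
  have hf0 : ∀ z, z ∈ L.lattice → f z = 0 := fun z hz => dif_pos hz
  have hf1 : ∀ z (hz : z ∉ L.lattice), f z = Point.some _ _ (ns z hz) := fun z hz => dif_neg hz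
  have hfper : ∀ z, ∀ u ∈ L.lattice, f (z + u) = f z := by
    intro z u hu
    by_cases hz : z ∈ L.lattice
    · rw [hf0 z hz, hf0 _ (add_mem hz hu)]
    · have hzu : z + u ∉ L.lattice := fun h => hz (by
        have := sub_mem h hu
        rwa [add_sub_cancel_right] at this)
      rw [hf1 z hz, hf1 _ hzu]
      exact some_eq _ _ (hper z u hu).1 (by rw [(hper z u hu).2])
  have hnegY : ∀ x y : ℂ, W.negY x y = -y := by
    intro x y
    rw [WeierstrassCurve.Affine.negY, w1, w3]
    ring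
  have hmap : ∀ z z', f (z + z') = f z + f z' := by
    intro z z'
    by_cases hz : z ∈ L.lattice
    · rw [hf0 z hz, zero_add, add_comm z z', hfper z' z hz]
    by_cases hz' : z' ∈ L.lattice
    · rw [hf0 z' hz', add_zero, hfper z z' hz']
    by_cases hzz : z + z' ∈ L.lattice
    · rw [hf0 _ hzz, hf1 z hz, hf1 z' hz']
      have e : z = -z' + (z + z') := by ring
      have hx : P z = P z' := by
        rw [e, (hper (-z') _ hzz).1, (hpar z').1]
      have hy : D z = -D z' := by
        rw [e, (hper (-z') _ hzz).2, (hpar z').2]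
      exact (Point.add_of_Y_eq hx (by rw [hnegY, hy]; ring)).symm
    by_cases hzd : z - z' ∈ L.lattice
    · have e1 : f z' = f z := by
        have := hfper z' _ hzd
        rw [← this]
        congr 1
        ring
      have e2 : f (z + z') = f (2 * z) := by
        have := hfper (z + z') _ hzd
        rw [← this]
        congr 1
        ring
      have h2z : 2 * z ∉ L.lattice := by
        intro h
        apply hzz
        have := sub_mem h hzd
        have e : z + z' = 2 * z - (z - z') := by ring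
        rwa [e]
      have hy : D z ≠ 0 := fun h => h2z ((hy0 z hz).1 h)
      have hyne : D z / 2 ≠ W.negY (P z) (D z / 2) := by
        rw [hnegY]
        intro h0
        apply hy
        linear_combination h0
      rw [e1, e2, hf1 z hz, hf1 _ h2z, Point.add_self_of_Y_ne hyne]
      have hsl : W.slope (P z) (P z) (D z / 2) (D z / 2) =
          (6 * P z ^ 2 - L.g₂ / 2) / (2 * D z) := by
        rw [WeierstrassCurve.Affine.slope_of_Y_ne rfl hyne, hnegY, w1, w2, w4]
        have h3 : D z / 2 - -(D z / 2) = D z := by ring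
        rw [h3]
        field_simp
        ring
      obtain ⟨hd1, hd2⟩ := hdbl z h2z
      have hX : W.addX (P z) (P z)
          (W.slope (P z) (P z) (D z / 2) (D z / 2)) = P (2 * z) := by
        rw [WeierstrassCurve.Affine.addX, hsl, w1, w2]
        linear_combination -hd1
      apply some_eq
      · exact hX.symm
      · rw [WeierstrassCurve.Affine.addY, WeierstrassCurve.Affine.negAddY, hnegY, hX, hsl]
        linear_combination (1 / 2) * hd2
    · have hxne : P z ≠ P z' := by
        intro h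
        rcases hinj z z' hz hz' h with h3 | h3
        · exact hzd h3
        · exact hzz h3
      rw [hf1 z hz, hf1 z' hz', hf1 _ hzz, Point.add_of_X_ne hxne]
      have hsl : W.slope (P z) (P z') (D z / 2) (D z' / 2) =
          (D z - D z') / (2 * (P z - P z')) := by
        rw [WeierstrassCurve.Affine.slope_of_X_ne hxne]
        have h3 : P z - P z' ≠ 0 := sub_ne_zero.2 hxne
        field_simp
      obtain ⟨ha1, ha2⟩ := hadd z' z hz' hz hzz hzd
      have hX : W.addX (P z) (P z')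
          (W.slope (P z) (P z') (D z / 2) (D z' / 2)) = P (z + z') := by
        rw [WeierstrassCurve.Affine.addX, hsl, w1, w2]
        linear_combination -ha1
      apply some_eq
      · exact hX.symm
      · rw [WeierstrassCurve.Affine.addY, WeierstrassCurve.Affine.negAddY, hnegY, hX, hsl]
        linear_combination (1 / 2) * ha2
  refine ⟨⟨⟨f, hf0 0 L.lattice.zero_mem⟩, hmap⟩, ?_, ?_, ?_⟩
  · intro z
    constructor
    · intro h
      by_contra hz
      have h3 : f z = 0 := h
      rw [hf1 z hz] at h3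
      exact Point.some_ne_zero _ h3
    · exact fun hz => hf0 z hz
  · intro Q
    rcases Q with _ | ⟨x, y, h⟩
    · exact ⟨0, hf0 0 L.lattice.zero_mem⟩
    · have h3 := (WeierstrassCurve.Affine.equation_iff x y).1 h.1
      rw [w1, w2, w3, w4, w6] at h3
      obtain ⟨z, hz, hx, hy⟩ := (b_DSC L).2 x (2 * y) (by linear_combination 4 * h3)
      refine ⟨z, ?_⟩
      have h4 : f z = Point.some x y h := by
        rw [hf1 z hz]
        exact some_eq _ _ hx (by rw [hD, hy]; ring)
      exact h4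
  · intro z hz
    exact ⟨ns z hz, hf1 z hz⟩

end

end Pool.Agent.MUXU


end

section

/-!
# MUX, block U, module UNI: uniformisation   (helper4)
-/

set_option autoImplicit false

open Filter Topology Polynomial UpperHalfPlane
open scoped Real

namespace Pool.Agent.MUXU

open _root_.Pool.Agent.MU3B

noncomputable section

/-- the lattice `u L` -/
def uniScale (L : PeriodPair) (u : ℂ) (hu : u ≠ 0) : PeriodPair where
  ω₁ := u * L.ω₁
  ω₂ := u * L.ω₂
  indep := by
    have h := L.indep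
    rw [LinearIndependent.pair_iff] at h ⊢
    intro s t hst
    refine h s t ?_
    have h1 : u * (s • L.ω₁ + t • L.ω₂) = 0 := by
      rw [← hst]
      simp only [Complex.real_smul]
      ring
    rcases mul_eq_zero.1 h1 with h2 | h2
    · exact absurd h2 hu
    · exact h2

theorem uniScale_mem (L : PeriodPair) (u : ℂ) (hu : u ≠ 0) (w : ℂ) :
    w ∈ L.lattice ↔ u * w ∈ (uniScale L u hu).lattice := by
  rw [PeriodPair.mem_lattice, PeriodPair.mem_lattice]
  constructor
  · rintro ⟨m, n, rfl⟩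
    exact ⟨m, n, by simp only [uniScale]; ring⟩
  · rintro ⟨m, n, h⟩
    refine ⟨m, n, ?_⟩
    have h1 : u * (m * L.ω₁ + n * L.ω₂) = u * w := by
      rw [← h]
      simp only [uniScale]
      ring
    exact mul_left_cancel₀ hu h1

theorem uni_root (x : ℂ) (n : ℕ) (hn : n ≠ 0) : ∃ s : ℂ, s ^ n = x := by
  obtain ⟨s, hs⟩ := IsAlgClosed.exists_pow_nat_eq x (Nat.pos_of_ne_zero hn)
  exact ⟨s, hs⟩

theorem tu_UNI (h1 : Su_JSU) : Su_UNI := by
  intro a b hab
  obtain ⟨τ, hτ⟩ := h1 (a ^ 3 / (a ^ 3 - 27 * b ^ 2))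
  have hd : a ^ 3 - 27 * b ^ 2 ≠ 0 := sub_ne_zero.2 hab
  have hD := (b_DSC (LT τ)).1
  set g := (LT τ).g₂ with hg
  set h := (LT τ).g₃ with hh
  have e1 : g ^ 3 * b ^ 2 = a ^ 3 * h ^ 2 := by
    rw [div_mul_eq_mul_div, eq_div_iff hd] at hτ
    have : 27 * (g ^ 3 * b ^ 2) = 27 * (a ^ 3 * h ^ 2) := by linear_combination -hτ
    exact mul_left_cancel₀ (by norm_num : (27 : ℂ) ≠ 0) this
  have hs : ∃ s : ℂ, s ≠ 0 ∧ s ^ 2 * g = a ∧ s ^ 3 * h = b := by
    by_cases hg0 : g = 0
    · have hh0 : h ≠ 0 := by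
        intro h0
        apply hD
        rw [hg0, h0]
        ring
      have ha : a = 0 := by
        rw [hg0] at e1
        have : a ^ 3 * h ^ 2 = 0 := by rw [← e1]; ring
        rcases mul_eq_zero.1 this with h2 | h2
        · exact pow_eq_zero_iff (by norm_num) |>.1 h2
        · exact absurd (pow_eq_zero_iff (by norm_num) |>.1 h2) hh0
      have hb : b ≠ 0 := by
        intro h0
        apply hab
        rw [ha, h0]
        ring
      obtain ⟨s, hs⟩ := uni_root (b / h) 3 (by norm_num)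
      refine ⟨s, ?_, ?_, ?_⟩
      · intro h0
        rw [h0] at hs
        have : b / h = 0 := by rw [← hs]; ring
        exact (div_ne_zero hb hh0) this
      · rw [hg0, ha, mul_zero]
      · rw [hs, div_mul_cancel₀ _ hh0]
    · by_cases hh0 : h = 0
      · have hb : b = 0 := by
          rw [hh0] at e1
          have : g ^ 3 * b ^ 2 = 0 := by rw [e1]; ring
          rcases mul_eq_zero.1 this with h2 | h2
          · exact absurd (pow_eq_zero_iff (by norm_num) |>.1 h2) hg0
          · exact pow_eq_zero_iff (by norm_num) |>.1 h2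
        have ha : a ≠ 0 := by
          intro h0
          apply hab
          rw [hb, h0]
          ring
        obtain ⟨s, hs⟩ := uni_root (a / g) 2 (by norm_num)
        refine ⟨s, ?_, ?_, ?_⟩
        · intro h0
          rw [h0] at hs
          have : a / g = 0 := by rw [← hs]; ring
          exact (div_ne_zero ha hg0) this
        · rw [hs, div_mul_cancel₀ _ hg0]
        · rw [hh0, hb, mul_zero]
      · have ha : a ≠ 0 := by
          intro h0
          have hb : b = 0 := by
            rw [h0] at e1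
            have : g ^ 3 * b ^ 2 = 0 := by rw [e1]; ring
            rcases mul_eq_zero.1 this with h2 | h2
            · exact absurd (pow_eq_zero_iff (by norm_num) |>.1 h2) hg0
            · exact pow_eq_zero_iff (by norm_num) |>.1 h2
          apply hab
          rw [h0, hb]
          ring
        have hb : b ≠ 0 := by
          intro h0
          rw [h0] at e1
          have : a ^ 3 * h ^ 2 = 0 := by rw [← e1]; ring
          rcases mul_eq_zero.1 this with h2 | h2
          · exact ha (pow_eq_zero_iff (by norm_num) |>.1 h2)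
          · exact absurd (pow_eq_zero_iff (by norm_num) |>.1 h2) hh0
        refine ⟨b / h * (g / a), mul_ne_zero (div_ne_zero hb hh0) (div_ne_zero hg0 ha), ?_, ?_⟩
        · field_simp
          linear_combination e1
        · field_simp
          linear_combination e1
  obtain ⟨s, hs0, hs2, hs3⟩ := hs
  obtain ⟨u, hu⟩ := uni_root s⁻¹ 2 (by norm_num)
  have hu0 : u ≠ 0 := by
    intro h0
    rw [h0] at hu
    have : s⁻¹ = 0 := by rw [← hu]; ring
    exact inv_ne_zero hs0 this
  obtain ⟨-, -, k2, k3⟩ := Pool.Agent.MU3A.ta_SCP (LT τ) (uniScale (LT τ) u hu0) u hu0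
    (uniScale_mem (LT τ) u hu0)
  refine ⟨uniScale (LT τ) u hu0, ?_, ?_⟩
  · rw [k2, ← hg, ← hs2]
    have e4 : u ^ 4 = (s ^ 2)⁻¹ := by
      rw [show u ^ 4 = (u ^ 2) ^ 2 by ring, hu, inv_pow]
    rw [e4, div_inv_eq_mul]
    ring
  · rw [k3, ← hh, ← hs3]
    have e6 : u ^ 6 = (s ^ 3)⁻¹ := by
      rw [show u ^ 6 = (u ^ 2) ^ 3 by ring, hu, inv_pow]
    rw [e6, div_inv_eq_mul]
    ring

end

end Pool.Agent.MUXU


end

section

/-!
# MUX, block U, module TSN: torsion under conjugation
-/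

set_option autoImplicit false

open Filter Topology Polynomial UpperHalfPlane
open scoped Real

namespace Pool.Agent.MUXU

open _root_.Pool.Agent.MU3B

noncomputable section

namespace TSN

theorem key (h1 : Su_CMC) (σ : ℂ ≃+* ℂ) (L L' : PeriodPair) (Φ : ℂ → ℂ) (hc : IsCj σ L L')
    (hΦ : IsPhi σ L L' Φ) (a z : ℂ) (ha : Isg L L a) (hs : σ a = a) :
    a * Φ z ∈ L'.lattice ↔ a * z ∈ L.lattice := by
  have h2 := (h1 σ L L' Φ a ha hs hc hΦ).2 z
  rw [← hΦ.mem (a * z)]
  constructor
  · intro h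
    have e : Φ (a * z) = (Φ (a * z) - a * Φ z) + a * Φ z := by ring
    rw [e]
    exact L'.lattice.add_mem h2 h
  · intro h
    have e : a * Φ z = Φ (a * z) - (Φ (a * z) - a * Φ z) := by ring
    rw [e]
    exact L'.lattice.sub_mem h h2

end TSN

theorem tu_TSN (h1 : Su_CMC) : Su_TSN := by
  intro σ L L' Φ hc hΦ
  refine ⟨fun n z => ?_, fun a z ha hs => TSN.key h1 σ L L' Φ hc hΦ a z ha hs⟩
  refine TSN.key h1 σ L L' Φ hc hΦ n z ?_ (map_intCast σ n)
  intro w hw
  have h := L.lattice.smul_mem n hw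
  rwa [zsmul_eq_mul] at h

end

end Pool.Agent.MUXU


end

section

/-!
# MUX, block U: module FUN (helper26)
-/

set_option autoImplicit false

open Polynomial

namespace Pool.Agent.MUXU

open _root_.Pool.Agent.MU3B

noncomputable section

namespace FUN

theorem ev (σ : ℂ ≃+* ℂ) (p : ℂ[X]) (x : ℂ) :
    (p.map (σ : ℂ →+* ℂ)).eval (σ x) = σ (p.eval x) := by
  rw [eval_map]
  exact eval₂_at_apply (σ : ℂ →+* ℂ) x

theorem ode_map (σ : ℂ ≃+* ℂ) {a b c d μ : ℂ} {A B : ℂ[X]} (h : OdeP a b c d μ A B) :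
    OdeP (σ a) (σ b) (σ c) (σ d) (σ μ) (A.map (σ : ℂ →+* ℂ)) (B.map (σ : ℂ →+* ℂ)) := by
  unfold OdeP at h ⊢
  have h1 := congrArg (Polynomial.map (σ : ℂ →+* ℂ)) h
  simp only [Polynomial.map_mul, Polynomial.map_sub, Polynomial.map_pow, Polynomial.map_C,
    Polynomial.map_X, Polynomial.map_ofNat, RingHom.coe_coe, map_pow] at h1
  simp only [Polynomial.derivative_map]
  rw [h1]
  simp

theorem dmap (σ : ℂ ≃+* ℂ) (A B : ℂ[X]) :
    derivative (A.map (σ : ℂ →+* ℂ)) * B.map (σ : ℂ →+* ℂ) -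
      A.map (σ : ℂ →+* ℂ) * derivative (B.map (σ : ℂ →+* ℂ)) =
      (derivative A * B - A * derivative B).map (σ : ℂ →+* ℂ) := by
  rw [Polynomial.map_sub, Polynomial.map_mul, Polynomial.map_mul, derivative_map, derivative_map]

end FUN

open _root_.Pool.Agent.MUXU.FUN in
theorem tu_FUN (h1 : Su_BAC) (h2 : Su_ODE) (h3 : Su_ISO) (h4 : Su_DER) (h5 : Su_EQP) : Su_FUN := by
  intro σ L M L' M' μ Φ Ψ hμ hI hL hM hΦ hΨ
  obtain ⟨R, hR⟩ := (h1.2 L M μ hμ hI).1
  obtain ⟨A, hAm, hAd, hO, hP⟩ := h3 L M μ R hμ hI hR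
  set B : ℂ[X] := C (μ ^ 2) * ∏ q ∈ R, (X - C (L.weierstrassP q)) with hB
  have hσμ : σ μ ≠ 0 := (_root_.map_ne_zero σ).2 hμ
  have hdeg : (B.map (σ : ℂ →+* ℂ)).natDegree < (A.map (σ : ℂ →+* ℂ)).natDegree := by
    rw [natDegree_map, natDegree_map, hAd, hB]
    have h6 : (∏ q ∈ R, (X - C (L.weierstrassP q))).natDegree ≤ R.card := by
      refine (natDegree_prod_le _ _).trans ?_
      simp
    have h7 := natDegree_C_mul_le (μ ^ 2) (∏ q ∈ R, (X - C (L.weierstrassP q)))
    omega
  have hcop : IsCoprime (A.map (σ : ℂ →+* ℂ)) (B.map (σ : ℂ →+* ℂ)) :=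
    hP.cop.map (mapRingHom (σ : ℂ →+* ℂ))
  have hO' : OdeP L'.g₂ L'.g₃ M'.g₂ M'.g₃ (σ μ) (A.map (σ : ℂ →+* ℂ)) (B.map (σ : ℂ →+* ℂ)) := by
    rw [hL.1, hL.2, hM.1, hM.2]
    exact ode_map σ hO
  obtain ⟨hI', hP'⟩ := h2 L' M' (σ μ) _ _ hσμ hcop hdeg hO'
  refine ⟨hI', fun z => ?_⟩
  by_cases hz : z ∈ L.lattice
  · exact sub_mem ((hΨ.mem _).2 (hI z hz)) (hI' _ ((hΦ.mem z).2 hz))
  · have hΦz : Φ z ∉ L'.lattice := fun h => hz ((hΦ.mem z).1 h)
    have hBe : (B.map (σ : ℂ →+* ℂ)).eval (L'.weierstrassP (Φ z)) = σ (B.eval (L.weierstrassP z)) := by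
      rw [hΦ.P z hz, ev]
    by_cases hμz : μ * z ∈ M.lattice
    · have h6 : B.eval (L.weierstrassP z) = 0 := (hP.ker z hz).1 hμz
      have h7 : σ μ * Φ z ∈ M'.lattice := (hP'.ker _ hΦz).2 (by rw [hBe, h6, map_zero])
      exact sub_mem ((hΨ.mem _).2 hμz) h7
    · have h6 : B.eval (L.weierstrassP z) ≠ 0 := fun h => hμz ((hP.ker z hz).2 h)
      have h6' : (B.map (σ : ℂ →+* ℂ)).eval (L'.weierstrassP (Φ z)) ≠ 0 := by
        rw [hBe]
        exact (_root_.map_ne_zero σ).2 h6
      have h7 : σ μ * Φ z ∉ M'.lattice := fun h => h6' ((hP'.ker _ hΦz).1 h)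
      have h8 : Ψ (μ * z) ∉ M'.lattice := fun h => hμz ((hΨ.mem _).1 h)
      refine h5 M' _ _ h8 h7 ?_ ?_
      · have e1 := hP'.P _ hΦz h7
        have e2 := congrArg σ (hP.P z hz hμz)
        rw [map_mul, ← hΨ.P _ hμz, ← hBe] at e2
        have e3 : (A.map (σ : ℂ →+* ℂ)).eval (L'.weierstrassP (Φ z)) = σ (A.eval (L.weierstrassP z)) := by
          rw [hΦ.P z hz, ev]
        rw [e3, ← e2] at e1
        exact (mul_right_cancel₀ h6' e1).symm
      · have e1 := h4 L' M' (σ μ) _ _ hP' (Φ z) hΦz h7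
        have e2 := congrArg σ (h4 L M μ A B hP z hz hμz)
        rw [map_mul, map_mul, map_pow, map_mul, ← hΨ.P' _ hμz, ← hBe, ← hΦ.P' z hz] at e2
        have e3 : (derivative (A.map (σ : ℂ →+* ℂ)) * B.map (σ : ℂ →+* ℂ) -
            A.map (σ : ℂ →+* ℂ) * derivative (B.map (σ : ℂ →+* ℂ))).eval (L'.weierstrassP (Φ z)) =
            σ ((derivative A * B - A * derivative B).eval (L.weierstrassP z)) := by
          rw [hΦ.P z hz, dmap, ev]
        rw [e3, ← e2] at e1
        have e4 := mul_right_cancel₀ (pow_ne_zero 2 h6') e1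
        exact (mul_left_cancel₀ hσμ e4).symm

end

end Pool.Agent.MUXU


end

section

/-!
# MUX, block U, module CJE: the conjugate lattice exists   (helper50)
-/

set_option autoImplicit false

open Filter Topology Polynomial UpperHalfPlane
open scoped Real

namespace Pool.Agent.MUXU

open _root_.Pool.Agent.MU3B

noncomputable section

theorem tu_CJE (h1 : Su_UNI) : Su_CJE := by
  intro σ L
  refine h1 (σ L.g₂) (σ L.g₃) ?_
  intro h
  apply (b_DSC L).1
  apply σ.injective
  rw [map_pow, map_mul, map_pow, map_ofNat]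
  exact h

end

end Pool.Agent.MUXU


end

section

/-! # Block U of the project MUX, assembled

`StU.lean` states the analytic base of the project for an arbitrary imaginary quadratic field; the
files `U_*.lean` prove the statements. This file puts them together: `u_X : Su_X` for every name `X`
of block U, without hypotheses. -/

namespace Pool.Agent.MUXU

theorem u_BAS : Su_BAS := tu_BAS
theorem u_BAC : Su_BAC := tu_BAC u_BAS
theorem u_LIM : Su_LIM := tu_LIM
theorem u_GHO : Su_GHO := tu_GHO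
theorem u_GSL : Su_GSL := tu_GSL
theorem u_JSU : Su_JSU := tu_JSU u_LIM u_GHO u_GSL
theorem u_UNI : Su_UNI := tu_UNI u_JSU
theorem u_SCX : Su_SCX := tu_SCX
theorem u_LOC : Su_LOC := tu_LOC
theorem u_ODE : Su_ODE := tu_ODE u_LOC
theorem u_DET : Su_DET := tu_DET u_ODE
theorem u_ISO : Su_ISO := tu_ISO
theorem u_DER : Su_DER := tu_DER
theorem u_PFI : Su_PFI := tu_PFI u_ISO
theorem u_XIL : Su_XIL := tu_XIL
theorem u_EQP : Su_EQP := tu_EQP
theorem u_PHI : Su_PHI := tu_PHI u_XIL
theorem u_CJE : Su_CJE := tu_CJE u_UNI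
theorem u_FUN : Su_FUN := tu_FUN u_BAC u_ODE u_ISO u_DER u_EQP
theorem u_CMC : Su_CMC := tu_CMC u_FUN
theorem u_IDC : Su_IDC := tu_IDC u_FUN u_CMC
theorem u_TSN : Su_TSN := tu_TSN u_CMC
theorem u_AUE : Su_AUE := tu_AUE
theorem u_AUT : Su_AUT := tu_AUT
theorem u_AUF : Su_AUF := tu_AUF u_AUE u_AUT

end Pool.Agent.MUXU


end

section

/-!
# MUX, block E, module FAC: formal properties of the fields `RFE m`
-/

set_option autoImplicit false

open WeierstrassCurve Polynomial NumberField IsDedekindDomain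

namespace Pool.Agent.MEE

open _root_.MU3 _root_.Pool.Agent.MU3A _root_.Pool.Agent.MU3B _root_.Pool.Agent.MUX _root_.Pool.Agent.MUXU _root_.Pool.Agent.RI
open _root_.Pool.Agent.ME hiding ActE
open _root_.Pool.Agent.MUXE (RingE)

noncomputable section

namespace FAC

variable {A B : ℤ}

lemma kap_mem (m : Ideal (OO A B)) (L : PeriodPair) (hL : NLE A B L) : kapE L ∈ RFE m := by
  obtain ⟨b, om, hb⟩ := hL
  exact IntermediateField.subset_adjoin _ _ ⟨b, L, om, hb, Or.inl rfl⟩

lemma x_mem (m : Ideal (OO A B)) (L : PeriodPair) (hL : NLE A B L) (z : ℂ) (hz : Tor m L z)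
    (hz' : z ∉ L.lattice) : xnE L z ∈ RFE m := by
  obtain ⟨b, om, hb⟩ := hL
  exact IntermediateField.subset_adjoin _ _ ⟨b, L, om, hb, Or.inr ⟨z, hz, hz', rfl⟩⟩

lemma tor_mono {m m' : Ideal (OO A B)} (h : m ≤ m') {L : PeriodPair} {z : ℂ}
    (hz : Tor m' L z) : Tor m L z := fun x hx => hz x (h hx)

lemma mono {m m' : Ideal (OO A B)} (h : m ≤ m') : RFE m' ≤ RFE m := by
  refine IntermediateField.adjoin.mono _ _ _ ?_
  rintro c ⟨b, L, om, hb, hc | ⟨z, hz, hz', hc⟩⟩
  · exact ⟨b, L, om, hb, Or.inl hc⟩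
  · exact ⟨b, L, om, hb, Or.inr ⟨z, tor_mono h hz, hz', hc⟩⟩

/-- Two embeddings which agree on the generators are equal. -/
lemma ext (m : Ideal (OO A B)) (σ τ : RFE m →ₐ[kk A B] ℂ)
    (h1 : ∀ L (hL : NLE A B L), σ ⟨kapE L, kap_mem m L hL⟩ = τ ⟨kapE L, kap_mem m L hL⟩)
    (h2 : ∀ L (hL : NLE A B L) (z : ℂ) (hz : Tor m L z) (hz' : z ∉ L.lattice),
      σ ⟨xnE L z, x_mem m L hL z hz hz'⟩ = τ ⟨xnE L z, x_mem m L hL z hz hz'⟩) : σ = τ := by
  refine IntermediateField.algHom_ext_of_eq_adjoin (kk A B) (S := RFE m) rfl ?_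
  rintro x ⟨b, L, om, hb, hc | ⟨z, hz, hz', hc⟩⟩
  · subst hc
    exact h1 L ⟨b, om, hb⟩
  · subst hc
    exact h2 L ⟨b, om, hb⟩ z hz hz'

end FAC

/-- FAC. -/
theorem tm_FAC (h1 : Sme_TRA) : Sme_FAC := by
  intro A B hR
  obtain ⟨φ, hφ⟩ := hR.hom
  have esub : ∀ x y : OO A B, emb (x - y) = emb x - emb y := by
    intro x y
    rw [← hφ, ← hφ, ← hφ, map_sub]
  have eadd : ∀ x y : OO A B, emb (x + y) = emb x + emb y := by
    intro x y
    rw [← hφ, ← hφ, ← hφ, map_add]
  have eone : emb (1 : OO A B) = 1 := by rw [← hφ, map_one]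
  refine ⟨fun m m' h => FAC.mono h, fun m L hL => ⟨FAC.kap_mem m L hL, fun z hz hz' =>
    FAC.x_mem m L hL z hz hz'⟩, ?_, ?_, ?_⟩
  · intro m σ τ α hσ hτ
    refine FAC.ext m σ τ (fun L hL => ?_) (fun L hL z hz hz' => ?_)
    · rw [(hσ.2 L hL).1, (hτ.2 L hL).1]
    · rw [((hσ.2 L hL).2 z hz hz').2, ((hτ.2 L hL).2 z hz hz').2]
  · intro m m' hmm σ α hσ hα y hy hy'
    have h2 : σ.comp (IntermediateField.inclusion (FAC.mono hmm)) = (RFE m').val := by
      refine FAC.ext m' _ _ (fun L hL => ?_) (fun L hL z hz hz' => ?_)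
      · exact (hσ.2 L hL).1 _
      · have h3 := ((hσ.2 L hL).2 z (FAC.tor_mono hmm hz) hz').2
          (FAC.x_mem m L hL z (FAC.tor_mono hmm hz) hz')
        obtain ⟨-, -, -, -, -, -, -, -, t9⟩ := h1 A B hR L hL
        have h4 : z - emb α * z ∈ L.lattice := by
          have h5 := hz _ hα
          rw [esub, eone, sub_mul, one_mul] at h5
          have h6 := neg_mem h5
          rwa [neg_sub] at h6
        have h7 := ((t9 z (emb α * z) h4).2 hz').1
        exact h3.trans h7.symm
    exact DFunLike.congr_fun h2 ⟨y, hy'⟩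
  · intro m F σ α β hαβ hσ
    have hcop : IsCoprime (sp β) m := by
      obtain ⟨x, hx, y, hy, hxy⟩ := Ideal.isCoprime_iff_exists.1 hσ.1
      obtain ⟨c, rfl⟩ := Ideal.mem_span_singleton'.1 hx
      rcases hαβ with h | h
      · refine Ideal.isCoprime_iff_exists.2 ⟨c * β, Ideal.mem_span_singleton'.2 ⟨c, rfl⟩,
          c * (α - β) + y, add_mem (m.mul_mem_left c h) hy, ?_⟩
        rw [← hxy]
        ring
      · refine Ideal.isCoprime_iff_exists.2 ⟨-c * β, Ideal.mem_span_singleton'.2 ⟨-c, rfl⟩,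
          c * (α + β) + y, add_mem (m.mul_mem_left c h) hy, ?_⟩
        rw [← hxy]
        ring
    refine ⟨hcop, fun L hL => ⟨(hσ.2 L hL).1, fun z hz hz' => ?_⟩⟩
    obtain ⟨h2, h3⟩ := (hσ.2 L hL).2 z hz hz'
    obtain ⟨-, -, -, -, -, -, -, -, t9⟩ := h1 A B hR L hL
    rcases hαβ with h | h
    · have h4 : emb α * z - emb β * z ∈ L.lattice := by
        have h5 := hz _ h
        rwa [esub, sub_mul] at h5
      obtain ⟨h6, h7⟩ := t9 _ _ h4
      exact ⟨fun h8 => h2 (h6.2 h8), fun hx => by rw [h3 hx, (h7 h2).1]⟩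
    · have h4 : emb α * z - -(emb β * z) ∈ L.lattice := by
        have h5 := hz _ h
        rw [eadd, add_mul] at h5
        rwa [sub_neg_eq_add]
      obtain ⟨h6, h7⟩ := t9 _ _ h4
      have h8 : emb β * z ∉ L.lattice := by
        intro h9
        exact h2 (h6.2 (neg_mem h9))
      refine ⟨h8, fun hx => ?_⟩
      rw [h3 hx, (h7 h2).1]
      exact ((t9 (emb β * z) (emb β * z) (by rw [sub_self]; exact zero_mem _)).2 h8).2.2

end

end Pool.Agent.MEE


end

section

/-!
# MUX, block E: the parameter of a point of exact order `P^(j+1)` (TP)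
-/

set_option autoImplicit false

open WeierstrassCurve Polynomial NumberField IsDedekindDomain

namespace Pool.Agent.MUXE

open _root_.MU3 _root_.Pool.Agent.MU3A _root_.Pool.Agent.MU3B _root_.Pool.Agent.MUX _root_.Pool.Agent.MUXU _root_.Pool.Agent.RI

noncomputable section

namespace TP

theorem fifth (L : PeriodPair) : L.ω₁ / 5 ∉ L.lattice := by
  intro hm
  have e : L.ω₁ / 5 = ((1 / 5 : ℚ) : ℂ) * L.ω₁ + ((0 : ℚ) : ℂ) * L.ω₂ := by
    push_cast
    ring
  rw [e, PeriodPair.mul_ω₁_add_mul_ω₂_mem_lattice] at hm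
  have h1 : ((((1 / 5 : ℚ)).num : ℤ) : ℚ) = (1 / 5 : ℚ) := (Rat.den_eq_one_iff _).1 hm.1
  have h2 : (1 : ℚ) = 5 * ((((1 / 5 : ℚ)).num : ℤ) : ℚ) := by
    rw [h1]
    norm_num
  have h3 : (1 : ℤ) = 5 * ((1 / 5 : ℚ)).num := by exact_mod_cast h2
  omega

/-- the valuation of a difference, first case -/
theorem sub_of_lt {Γ : Type*} [LinearOrderedCommGroupWithZero Γ] (v : Valuation ℂ Γ) {a b : ℂ}
    (h : v b < v a) : v (a - b) = v a :=
  Valuation.map_sub_eq_of_lt_left v h

theorem sub_of_gt {Γ : Type*} [LinearOrderedCommGroupWithZero Γ] (v : Valuation ℂ Γ) {a b : ℂ}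
    (h : v a < v b) : v (a - b) = v b := by
  rw [Valuation.map_sub_swap]
  exact sub_of_lt v h

/-- The numerical part of the induction step. -/
theorem num {Γ : Type*} [LinearOrderedCommGroupWithZero Γ] (v : Valuation ℂ Γ) (p k : ℕ)
    (hp : 2 ≤ p) (hk : k ≠ 0)
    (R : Finset ℂ) (hR : R.card = p - 1) (mu y y1 x x1 : ℂ) (xq xw : ℂ → ℂ) (T π : Γ)
    (hπ0 : π ≠ 0) (hπ : π < 1) (hmu : v mu = π)
    (hT : π ^ 2 * T ^ (p - 1) = 1) (hT1 : 1 < T)
    (hq : ∀ q ∈ R, v (xq q) = T) (hw : ∀ q ∈ R, v (xw q) ≤ 1) (hx1 : v x1 ≤ 1) (hy1 : v y1 ≤ 1)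
    (hy : 1 < v y) (hyk : π ^ 2 * v y ^ ((p - 1) * k) = 1)
    (pf : mu ^ 2 * (y - y1) * ∏ q ∈ R, (x - xq q) = (x - x1) * ∏ q ∈ R, (x - xw q)) :
    1 < v x ∧ v x ^ p = v y := by
  have hp1 : p - 1 ≠ 0 := by omega
  have hp2 : p - 1 + 1 = p := by omega
  -- `v y ≤ T`
  have hyT : v y ≤ T := by
    have e : T ^ (p - 1) = (v y ^ k) ^ (p - 1) := by
      rw [← pow_mul, mul_comm k]
      have h1 : π ^ 2 * T ^ (p - 1) = π ^ 2 * v y ^ ((p - 1) * k) := by rw [hT, hyk]
      exact mul_left_cancel₀ (pow_ne_zero 2 hπ0) h1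
    have e1 : T = v y ^ k := (pow_left_inj₀ zero_le zero_le hp1).1 e
    rw [e1]
    exact le_self_pow₀ hy.le hk
  have pv := congrArg v pf
  rw [map_mul, map_mul, map_pow, map_mul, hmu, map_prod, map_prod,
    sub_of_lt v (lt_of_le_of_lt hy1 hy)] at pv
  have hπ2 : π ^ 2 < 1 := pow_lt_one₀ zero_le hπ two_ne_zero
  -- `v x > 1`
  have hX : 1 < v x := by
    by_contra hc
    have hc' : v x ≤ 1 := not_lt.1 hc
    have e1 : ∏ q ∈ R, v (x - xq q) = T ^ (p - 1) := by
      rw [Finset.prod_congr rfl (fun q hqR => ?_), Finset.prod_const, hR]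
      rw [sub_of_gt v (by rw [hq q hqR]; exact lt_of_le_of_lt hc' hT1), hq q hqR]
    have e2 : v (x - x1) ≤ 1 := le_trans (v.map_sub _ _) (max_le hc' hx1)
    have e3 : ∏ q ∈ R, v (x - xw q) ≤ 1 :=
      Finset.prod_le_one' fun q hqR => le_trans (v.map_sub _ _) (max_le hc' (hw q hqR))
    rw [e1, mul_right_comm, hT, one_mul] at pv
    have e4 : v (x - x1) * ∏ q ∈ R, v (x - xw q) ≤ 1 := mul_le_one' e2 e3
    rw [← pv] at e4
    exact absurd e4 (not_le.2 hy)
  refine ⟨hX, ?_⟩
  have eR : v (x - x1) * ∏ q ∈ R, v (x - xw q) = v x ^ p := by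
    rw [sub_of_lt v (lt_of_le_of_lt hx1 hX), Finset.prod_congr rfl
      (fun q hqR => sub_of_lt v (lt_of_le_of_lt (hw q hqR) hX)), Finset.prod_const, hR, mul_comm,
      ← pow_succ, hp2]
  rw [eR] at pv
  rcases lt_trichotomy (v x) T with hlt | heq | hgt
  · have e1 : ∏ q ∈ R, v (x - xq q) = T ^ (p - 1) := by
      rw [Finset.prod_congr rfl (fun q hqR => ?_), Finset.prod_const, hR]
      rw [sub_of_gt v (by rw [hq q hqR]; exact hlt), hq q hqR]
    rw [e1, mul_right_comm, hT, one_mul] at pv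
    exact pv.symm
  · exfalso
    have e1 : ∏ q ∈ R, v (x - xq q) ≤ T ^ (p - 1) := by
      rw [← hR, ← Finset.prod_const]
      refine Finset.prod_le_prod' fun q hqR => le_trans (v.map_sub _ _) (max_le heq.le ?_)
      rw [hq q hqR]
    have e2 : v x ^ p ≤ v y := by
      rw [← pv]
      calc π ^ 2 * v y * ∏ q ∈ R, v (x - xq q) ≤ π ^ 2 * v y * T ^ (p - 1) :=
            mul_le_mul_right e1 _
        _ = v y := by rw [mul_right_comm, hT, one_mul]
    have e3 : T ^ p ≤ T := by
      rw [heq] at e2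
      exact le_trans e2 hyT
    have e4 : T < T ^ p := lt_self_pow₀ hT1 (by omega)
    exact absurd e3 (not_le.2 e4)
  · exfalso
    have hx0 : v x ≠ 0 := fun h0 => by
      rw [h0] at hX
      exact absurd hX (not_lt.2 zero_le)
    have e1 : ∏ q ∈ R, v (x - xq q) = v x ^ (p - 1) := by
      rw [Finset.prod_congr rfl (fun q hqR => ?_), Finset.prod_const, hR]
      exact sub_of_lt v (by rw [hq q hqR]; exact hgt)
    rw [e1] at pv
    have e2 : v x ^ p = v x * v x ^ (p - 1) := by
      rw [mul_comm, ← pow_succ, hp2]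
    rw [e2] at pv
    have e3 : π ^ 2 * v y = v x := mul_right_cancel₀ (pow_ne_zero _ hx0) pv
    have hy0 : 0 < v y := lt_trans zero_lt_one hy
    have e4 : π ^ 2 * v y < v y := by
      calc π ^ 2 * v y < 1 * v y := mul_lt_mul_of_pos_right hπ2 hy0
        _ = v y := one_mul _
    rw [e3] at e4
    exact absurd (lt_trans hgt e4) (not_lt.2 hyT)

end TP

open _root_.Pool.Agent.MUXE.TP in
theorem te_TP (h1 : Sxe_PA) (h2 : Sxe_TRA) (h3 : Sxe_TRB) (h4 : Sxe_KER) (h5 : Su_BAC)
    (h6 : Su_PFI) : Sxe_TP := by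
  intro p A B P V h j
  obtain ⟨-, pa2, pa3, pa4, pa5, pa6, -⟩ := h1 p A B P V h
  obtain ⟨φ, hφ⟩ := h.ring.hom
  have embn : ∀ n : ℕ, emb ((n : ℕ) : OO A B) = n := fun n => by rw [← hφ, map_natCast]
  have hPbot : P ≠ ⊥ := by
    intro h0
    have h6 := h.mem
    rw [h0, Ideal.mem_bot] at h6
    have h7 := embn p
    rw [h6, ← hφ, map_zero] at h7
    apply pa3
    rw [← h7, map_zero]
  have hp5 : ¬ p ∣ 5 := by
    rcases h.two with rfl | rfl <;> omega
  obtain ⟨hv5, h5P⟩ := pa4 5 hp5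
  have hp2 : 2 ≤ p := by
    rcases h.two with rfl | rfl <;> omega
  induction j with
  | zero =>
    intro L hL z hz hz0
    obtain ⟨tra1, -⟩ := h2 A B h.ring L hL
    have hzL : z ∉ L.lattice := fun h7 => hz0 fun x _ => tra1 x z h7
    rw [zero_add, pow_one] at hz
    obtain ⟨k1, k2⟩ := h4 p A B P V h L hL z hz hzL
    refine ⟨k1, hzL, ?_⟩
    rw [pow_zero, mul_one]
    exact k2
  | succ j ih =>
    intro L hL z hz hz0
    obtain ⟨tra1, tra2, tra3, tra4, tra5, tra6, tra7, tra8, tra9⟩ := h2 A B h.ring L hL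
    obtain ⟨L', μ, hL', hQ⟩ := h.exq L hL
    have hμ : μ ≠ 0 := hQ.1
    have hvμ : V.valuation μ = V.valuation (p : ℂ) := h.mul L L' μ hL hL' hQ
    have g := h.gx L hL
    have g' := h.gx L' hL'
    have hTor : ∀ z, μ * z ∈ L'.lattice ↔ Tor P L z := hQ.2
    have hIsg : Isg L L' μ := fun w hw => (hTor w).2 (fun x _ => tra1 x w hw)
    obtain ⟨⟨R, hR⟩, -⟩ := h5.2 L L' μ hμ hIsg
    -- `E₁` is a subgroup which contains the lattice
    have inl : ∀ z, z ∈ L.lattice → InEn V L z := fun z hz => Or.inl hz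
    have inadd := g.add
    have inneg := g.neg
    have insub : ∀ z w, InEn V L z → InEn V L w → InEn V L (z - w) := fun z w hz hw => by
      rw [sub_eq_add_neg]
      exact inadd _ _ hz (inneg _ hw)
    have inV : ∀ (M : PeriodPair) (z : ℂ), ¬ InEn V M z → V.valuation (xn M z) ≤ 1 := by
      intro M z hz
      rw [ValuationSubring.valuation_le_one_iff]
      by_contra h6
      exact hz (Or.inr h6)
    have in1 : ∀ (M : PeriodPair) (z : ℂ), InEn V M z → z ∉ M.lattice →
        1 < V.valuation (xn M z) := by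
      intro M z hz hzM
      rcases hz with h6 | h6
      · exact absurd h6 hzM
      · by_contra h7
        exact h6 ((V.valuation_le_one_iff _).1 (not_lt.1 h7))
    -- the point of order 5
    have o1 := L.ω₁_mem_lattice
    have f1 : ((5 : ℕ) : ℂ) * (L.ω₁ / 5) ∈ L.lattice := by
      convert o1 using 1; push_cast; ring
    have n1 := fifth L
    set w1 : ℂ := L.ω₁ / 5 with hw1
    have i1 : ¬ InEn V L w1 := fun hin => n1 (g.tor w1 5 hin hv5 f1)
    have m1 : μ * w1 ∉ L'.lattice := by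
      intro h7
      have h8 : Tor P L w1 := (hTor w1).1 h7
      have h9 : Tor (sp ((5 : ℕ) : OO A B)) L w1 := by
        rw [tra5, embn]
        exact f1
      have h10 : ¬ sp ((5 : ℕ) : OO A B) ≤ P := by
        rw [Ideal.span_singleton_le_iff_mem]
        exact h5P
      have h11 := pa6 _ 1 h10
      rw [pow_one] at h11
      exact n1 (tra4 _ _ w1 h11 h9 h8)
    have i1' : ¬ InEn V L' (μ * w1) := by
      intro hin
      refine m1 (g'.tor _ 5 hin hv5 ?_)
      have h7 := hIsg _ f1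
      rwa [show μ * (((5 : ℕ) : ℂ) * w1) = ((5 : ℕ) : ℂ) * (μ * w1) by ring] at h7
    -- the point `z' = μ z`
    have hz1 : Tor (P ^ (j + 1)) L' (μ * z) := by
      intro x hx
      have h7 : Tor P L (emb x * z) := by
        apply tra6 (P ^ (j + 1)) P x z hx
        rw [← pow_succ]
        exact hz
      have h8 := (hTor _).2 h7
      rwa [show μ * (emb x * z) = emb x * (μ * z) by ring] at h8
    have hz2 : ¬ Tor (P ^ j) L' (μ * z) := by
      intro h7
      apply hz0
      rw [pow_succ]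
      apply tra7
      intro x hx
      have h8 := h7 x hx
      rw [show emb x * (μ * z) = μ * (emb x * z) by ring] at h8
      exact (hTor _).1 h8
    obtain ⟨y1, y2, y3⟩ := ih L' hL' (μ * z) hz1 hz2
    have hzL : z ∉ L.lattice := fun h7 => hz0 fun x _ => tra1 x z h7
    -- the representatives
    have torR : ∀ q ∈ R, Tor P L q := fun q hq => (hTor q).1 (hR.mem q hq)
    have hRk : ∀ q ∈ R, InEn V L q ∧ V.valuation (tE L q) ^ (p - 1) = V.valuation (p : ℂ) :=
      fun q hq => h4 p A B P V h L hL q (torR q hq) (hR.ne q hq)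
    have hRx : ∀ q ∈ R, V.valuation (p : ℂ) ^ 2 * V.valuation (xn L q) ^ (p - 1) = 1 := by
      intro q hq
      obtain ⟨-, -, h7⟩ := g.par q (hRk q hq).1 (hR.ne q hq)
      rw [← (hRk q hq).2, ← pow_mul, mul_comm (p - 1) 2, pow_mul, ← mul_pow, mul_comm, h7, one_pow]
    -- congruence of the points of `E[P]`
    have cong : ∀ q q', Tor P L q → Tor P L q' → q ∉ L.lattice → q' ∉ L.lattice →
        q' - q ∈ L.lattice ∨ q' + q ∈ L.lattice := by
      intro q q' hq hq' hqL hqL'
      obtain ⟨x, hx⟩ := (h3 A B h.ring L hL).2 P hPbot pa5 q q' hq hq' hqL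
      by_cases hxP : x ∈ P
      · exfalso
        apply hqL'
        have := add_mem hx (hq x hxP)
        rwa [sub_add_cancel] at this
      · rcases (pa2 x hxP).2 with h6 | h6
        · left
          have h7 := add_mem hx (hq _ h6)
          rw [← hφ (x - 1), map_sub, map_one, hφ] at h7
          convert h7 using 1
          ring
        · right
          have h7 := add_mem hx (hq _ h6)
          rw [← hφ (x + 1), map_add, map_one, hφ] at h7
          convert h7 using 1
          ring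
    have pq : ∀ q, Tor P L q → (p : ℂ) * q ∈ L.lattice := by
      intro q hq
      have := hq _ h.mem
      rwa [embn] at this
    -- `R` is not empty and has `p - 1` elements
    obtain ⟨q0', hq0', hq0L'⟩ : ∃ q, Tor P L q ∧ q ∉ L.lattice := by
      obtain ⟨q, k1, k2⟩ := (h3 A B h.ring L hL).1 ⊤ P hPbot pa5.ne_top.lt_top
      exact ⟨q, k1, fun h7 => k2 fun x _ => tra1 x q h7⟩
    obtain ⟨q0, hq0R, -⟩ := hR.surj q0' ((hTor q0').2 hq0') hq0L'
    have hq0L := hR.ne q0 hq0R
    have hq0T := torR q0 hq0R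
    have hcard : R.card = p - 1 := by
      have hpq := pq q0 hq0T
      rcases h.two with hp | hp
      · have : R = {q0} := by
          refine Finset.eq_singleton_iff_unique_mem.2 ⟨hq0R, fun q hq => ?_⟩
          rcases cong q0 q hq0T (torR q hq) hq0L (hR.ne q hq) with h6 | h6
          · exact hR.inj q hq q0 hq0R h6
          · apply hR.inj q hq q0 hq0R
            rw [hp] at hpq
            have h7 := sub_mem h6 hpq
            convert h7 using 1
            push_cast
            ring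
        rw [this, hp, Finset.card_singleton]
      · have hnT : Tor P L (-q0) := fun x hx => by
          rw [mul_neg]
          exact neg_mem (hq0T x hx)
        have hnL : -q0 ∉ L.lattice := fun h6 => hq0L (by simpa using neg_mem h6)
        obtain ⟨q1, hq1R, hq1⟩ := hR.surj (-q0) ((hTor _).2 hnT) hnL
        have hne : q0 ≠ q1 := by
          rintro rfl
          apply hq0L
          rw [hp] at hpq
          have h7 := add_mem hq1 hpq
          convert h7 using 1
          push_cast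
          ring
        have : R = {q0, q1} := by
          ext q
          rw [Finset.mem_insert, Finset.mem_singleton]
          constructor
          · intro hq
            rcases cong q0 q hq0T (torR q hq) hq0L (hR.ne q hq) with h6 | h6
            · exact Or.inl (hR.inj q hq q0 hq0R h6)
            · right
              apply hR.inj q hq q1 hq1R
              have h7 := add_mem h6 hq1
              convert h7 using 1
              ring
          · rintro (rfl | rfl)
            · exact hq0R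
            · exact hq1R
        rw [this, hp, Finset.card_pair hne]
    have hp1 : p - 1 ≠ 0 := by omega
    have hRT : ∀ q ∈ R, V.valuation (xn L q) = V.valuation (xn L q0) := by
      intro q hq
      have h7 : V.valuation (p : ℂ) ^ 2 * V.valuation (xn L q) ^ (p - 1) =
          V.valuation (p : ℂ) ^ 2 * V.valuation (xn L q0) ^ (p - 1) := by
        rw [hRx q hq, hRx q0 hq0R]
      exact (pow_left_inj₀ zero_le zero_le hp1).1
        (mul_left_cancel₀ (pow_ne_zero 2 pa3) h7)
    -- the product formula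
    have pf := h6 L L' μ R hμ hIsg hR w1 m1 z y2
    have xd : ∀ (M : PeriodPair) (a b : ℂ),
        M.weierstrassP a - M.weierstrassP b = xn M a - xn M b := by
      intro M a b
      unfold xn
      ring
    simp only [xd] at pf
    obtain ⟨-, -, par'⟩ := g'.par (μ * z) y1 y2
    have hyk : V.valuation (p : ℂ) ^ 2 *
        V.valuation (xn L' (μ * z)) ^ ((p - 1) * p ^ j) = 1 := by
      rw [← y3, ← pow_mul, mul_comm ((p - 1) * p ^ j) 2, pow_mul, ← mul_pow, mul_comm, par',
        one_pow]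
    obtain ⟨X1, X2⟩ := num V.valuation p (p ^ j) hp2 (pow_ne_zero _ (by omega)) R hcard μ
      (xn L' (μ * z)) (xn L' (μ * w1)) (xn L z) (xn L w1) (fun q => xn L q)
      (fun q => xn L (w1 + q)) (V.valuation (xn L q0)) (V.valuation (p : ℂ)) pa3 h.vp hvμ
      (hRx q0 hq0R) (in1 L q0 (hRk q0 hq0R).1 hq0L) hRT
      (fun q hq => inV L _ fun hin => i1 (by
        have := insub _ _ hin (hRk q hq).1
        rwa [add_sub_cancel_right] at this))
      (inV L _ i1) (inV L' _ i1') (in1 L' _ y1 y2) hyk pf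
    have hzE : InEn V L z := by
      by_contra hc
      exact absurd X1 (not_lt.2 (inV L _ hc))
    refine ⟨hzE, hzL, ?_⟩
    obtain ⟨-, -, par⟩ := g.par z hzE hzL
    have e1 : V.valuation (tE L z) ^ p = V.valuation (tE L' (μ * z)) := by
      have e2 : (V.valuation (tE L z) ^ p) ^ 2 = V.valuation (tE L' (μ * z)) ^ 2 := by
        have hy0 : V.valuation (xn L' (μ * z)) ≠ 0 := by
          intro h0
          rw [h0, zero_mul] at par'
          exact zero_ne_one par'
        apply mul_left_cancel₀ hy0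
        rw [par', ← X2, ← pow_mul, mul_comm p 2, pow_mul, ← mul_pow, par, one_pow]
      exact (pow_left_inj₀ zero_le zero_le two_ne_zero).1 e2
    calc V.valuation (tE L z) ^ ((p - 1) * p ^ (j + 1))
        = (V.valuation (tE L z) ^ p) ^ ((p - 1) * p ^ j) := by
          rw [← pow_mul]
          congr 1
          ring
      _ = V.valuation (p : ℂ) := by rw [e1, y3]

end

end Pool.Agent.MUXE


end

section

/-!
# MUX-NS, block TR, module ACF (helper73): the number `c` and the signs `d_i`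
-/

set_option autoImplicit false

namespace Pool.Agent.NSTR

open _root_.MU3 _root_.Pool.Agent.MU3A _root_.Pool.Agent.MU3B _root_.Pool.Agent.RI _root_.Pool.Agent.MUX _root_.Pool.Agent.MUXU
open OnePoint _root_.Pool.Agent.NS _root_.Pool.Agent.NSRD
open _root_.Pool.Agent.MUXV (GR InK)
open _root_.Pool.Agent.NSE (su ru)
open _root_.Pool.Agent.NST (KIn ActT)
open _root_.Pool.Agent.MUXY (ActN Dn Sy_MUU Sy_BRI)

noncomputable section

namespace ACF

variable {A B : ℤ}

lemma idl_le {a b : ℕ} (h : a ∣ b) :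
    idl (A := A) (B := B) b ≤ idl (A := A) (B := B) a := by
  obtain ⟨k, rfl⟩ := h
  rw [Ideal.span_singleton_le_span_singleton]
  exact ⟨((k : ℕ) : OO A B), by push_cast; rfl⟩

end ACF

open _root_.Pool.Agent.NSTR.ACF in
theorem tw_ACF (h1 : Sy_MUU) (h2 : Sy_BRI) : Sw_ACF := by
  intro A B hC T n ι R m m' hm hdvd σ hσ hfix
  have hm' : m' ≠ 0 := by
    rintro rfl
    exact hm (Nat.eq_zero_of_zero_dvd hdvd)
  have hI : idl (A := A) (B := B) m ≠ ⊥ := by
    rw [Ne, Ideal.span_singleton_eq_bot]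
    exact natCast_ne_zero' hC hm
  have hI' : idl (A := A) (B := B) m' ≠ ⊥ := by
    rw [Ne, Ideal.span_singleton_eq_bot]
    exact natCast_ne_zero' hC hm'
  have hle : idl (A := A) (B := B) m ≤ idl (A := A) (B := B) m' := idl_le hdvd
  obtain ⟨a, hcop, ha⟩ := T.act (idl m) hI σ hσ
  obtain ⟨b₀, L₀, om₀, mu₀, hL₀, hA₀⟩ := ha _ _ _ (R.nl R.i0)
  have hA' : ActI σ (idl m') a (R.L R.i0) L₀ mu₀ := by
    refine ⟨hA₀.kap, ?_, hA₀.isq, fun z hz => hA₀.act z fun x hx => hz x (hle hx)⟩
    have h3 := hcop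
    rw [Ideal.isCoprime_iff_sup_eq] at h3 ⊢
    rw [eq_top_iff, ← h3]
    exact sup_le_sup_left hle a
  obtain ⟨c, hc1, hca⟩ := (T.triv (idl m') a σ _ _ _ _ mu₀ hI' hσ (R.nl R.i0) hA' hL₀.nrm).1 hfix
  subst hca
  have hc0 : c ≠ 0 := by
    rintro rfl
    obtain ⟨hmu, hq⟩ := hA₀.isq
    refine L₀.ω₁_div_two_notMem_lattice ?_
    have h5 := (hq (L₀.ω₁ / 2 / mu₀)).2 (by
      intro x hx
      obtain ⟨y, rfl⟩ := Ideal.mem_span_singleton'.1 hx
      rw [mul_zero]
      have e0 : emb (0 : OO A B) = 0 := Pool.Agent.MUX.emb_zero hC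
      rw [e0, zero_mul]
      exact Submodule.zero_mem _)
    rwa [mul_div_cancel₀ _ hmu] at h5
  have key : ∀ i, ∃ d : ℤ, (d = 1 ∨ d = -1) ∧
      ActN σ m (sp c) (R.L i) (R.L i) ((d : ℂ) * emb c) := by
    intro i
    obtain ⟨b', L', om', mu, hL', hA⟩ := ha _ _ _ (R.nl i)
    have hk : kap L' = kap (R.L i) := by
      rw [hA.kap]
      exact hfix _ (IntermediateField.subset_adjoin _ _ ⟨R.b i, R.L i, R.om i, R.nl i, Or.inl rfl⟩)
    have hg2 : L'.g₂ = (R.L i).g₂ := by
      unfold kap at hk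
      linear_combination (1728 / 12) * hk
    have hg3 : L'.g₃ = (R.L i).g₃ := by
      have e1 := hL'.nrm
      have e2 := (R.nl i).nrm
      rw [hg2, e2] at e1
      linear_combination (1 / 18) * e1
    have hlat : L'.lattice = (R.L i).lattice := u_DET L' (R.L i) hg2 hg3
    have hN : ActN σ m (sp c) (R.L i) (R.L i) mu :=
      h2 A B hC σ m (sp c) (R.b i) b' (R.L i) L' (R.L i) (R.om i) om' mu (R.nl i) hL' hA
        (fun z => by rw [hlat])
    have hq1 : IsQ (sp c) (R.L i) (R.L i) mu := ⟨hN.ne, hN.isq⟩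
    have hCM : HasCM A B (R.L i) := (R.nl i).toIsLI.hasCM hC
    have hq2 : IsQ (sp c) (R.L i) (R.L i) (emb c) := by
      refine ⟨_root_.Pool.Agent.MUX.emb_ne_zero hC hc0, fun z => ⟨fun hz x hx => ?_, fun hz => ?_⟩⟩
      · obtain ⟨y, rfl⟩ := Ideal.mem_span_singleton'.1 hx
        rw [_root_.Pool.Agent.MUX.emb_mul hC, mul_assoc]
        exact hCM y _ hz
      · exact hz c (Ideal.mem_span_singleton_self c)
    rcases h1 A B (sp c) (R.L i) (R.L i) (emb c) mu (R.nl i).nrm hq2 hq1 with h | h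
    · refine ⟨1, Or.inl rfl, ?_⟩
      have e : (((1 : ℤ) : ℂ)) * emb c = mu := by rw [h]; push_cast; ring
      rw [e]
      exact hN
    · refine ⟨-1, Or.inr rfl, ?_⟩
      have e : (((-1 : ℤ) : ℂ)) * emb c = mu := by rw [h]; push_cast; ring
      rw [e]
      exact hN
  choose d hd hact using key
  refine ⟨c, d, hc1, hcop, hσ, hd, hact, fun z hz => ?_⟩
  exact (T.zeta m (idl m) (sp c) σ _ _ _ _ mu₀ hI hσ hm le_rfl (R.nl R.i0) hA₀ z hz).2

end

end Pool.Agent.NSTR


end
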