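import Mathlib
import Pool.Agent.MVF.C034
import Pool.Agent.MVF.C043
import Pool.Agent.MVF.C051
import Pool.Agent.MVF.C052
import Pool.Agent.MVF.C057

/-! Parts: N2.StER2, N2.V_XXS, N2.V_GLC, N2.V_NE1, N2.V_UNT, N2.V_COE, N2.R_CLO, N2.R_CML, N2.T3_PRM -/

namespace Pool.Agent.N2R.CLO
end Pool.Agent.N2R.CLO
namespace Pool.Agent.N2R.CML
end Pool.Agent.N2R.CML
namespace Pool.Agent.N2V.COE
end Pool.Agent.N2V.COE
namespace Pool.Agent.N2V.NE1
end Pool.Agent.N2V.NE1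
namespace Pool.Agent.N2V.UNT
end Pool.Agent.N2V.UNT

section

/-!
# MUX-2R, block ER2: squares and logarithmic derivatives, `2` ramified in `k` (helper59; form (B) of helper66)

`2 = P²` in `k`, `D ≠ -4` (`CaseR2`, `Pool/Agent/N2/DefsR2.lean`; so `B = 0`, `A = D/4` squarefree, `A ≡ 2` or `3` modulo 4: `CaseR2.b0`, `CaseR2.mod`), `w0 = √A = ⟨0, 1⟩`, `d = dR A` is 2 if `A ≡ 3` modulo 4 and 3 if `A ≡ 2`. `V` a valuation ring of `ℂ` above `P`, `v = V.valuation` (multiplicative: `v x ≤ v 2` means `x ∈ 2 V`). In the text `ord` is the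
additive valuation with `ord 2 = 1` (`v x ^ 2 = v 2` means `ord x = 1/2`). TWO LEVELS: `m = 2^(n+2) f` for the sets `XX` and the points `pt R m i x` of `ℂ/L_i`, and `m' = 2^(n+1) f` (`m = 2 m'`) for the fields: `D ≤ RF (m')`. `G_(i,x) = ∏_(l < 4) Θ(pt R m i (x + m' bb l))`, `F_(i,x) = Σ_(l < 4) dlX(..)`
(`bb l` runs over `O/2`) depend only on `x` modulo `m'` (DS2: they are `K_i Θ(pt R m' i x)` and `2 dlX(pt R m' i x)`). `L, M` are lattices with a model `GoodQ V L u e a1 a3`: `x = xu L u e = (℘ - e)/u²`, `y = yt L u e a1 a3`, `et L u = ℘'/u³ = 2 y + a1 x + a3`, `y² + a1 x y + a3 y = x³`,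
`et² = 4 x³ + (a1 x + a3)²`, `(v a1)² ≤ v 2`, `v a3 = 1`. `InK V L x z` (`Pool/Agent/MUX/VX.lean`): `z` is zero or in the kernel of reduction; `tX x y z = -x z/y z`. All lemmas of `Pool/Agent/MUX/VG.lean` hold (GRT).

IDEA: exactly as for `2` inert (`StE2.lean`; the finished files `Pool/Agent/N2/E_X.lean` are the models) with `m'` instead of `m`. Everything is a function of ONE number `ξ = x(Q)`, `Q = om/m'` (`L_0 = om emb O`). The `G_(i,x)` are rational functions over `V` of `ξ` (THT, GPO), an integral element `w` of the ray class field `RF (m' a)` is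
a polynomial over `V` in `ξ` (SIG), and the automorphism `c = 1 + N b`, `N = NN n f a = 2^(n-1) f a`, sends `Q` to `Q + Y`, `Y = emb b (a om/4)` any point with `4 Y ∈ L`. Points of exact order `P^(j+1)`: `ord t = 1/2^(j+1)` (TPU). The sum of `ord t(Y)` over the 15 points `Y` of `E[4] - 0` is 2.
The automorphisms `c_k = 1 + k N w0`, `k < 4`, are trivial on `D`; `Y = k w0 (a om/4)`: for `d = 2` points of exact order `P⁴, P², P⁴`, for `d = 3` of exact order `P³, P, P³`: the sum of `ord t(Y)` is `λ = 3/8`, `3/4`, i.e. `λ = 3 (d - 1)/8` (DST). (SQR) squares: `ord ≥ 1 + min(2, 1 + λ)`, (ORB) orbits: `ord ≥ 1 + λ`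
(the first `1` from the factor 2 in `F_(i,x)`), (MAIN) the weights `om x ≡ 1` instead of `emb x ≡ 1` modulo `P`: `ord ≥ 1/2 + 1 + λ`.

Every statement is a `def Sv_X : Prop`; the module N2V_X proves `theorem tv_X (h : ...) : Sv_X` in `Pool/Agent/N2/V_X.lean`, namespace `Pool.Agent.N2V`, with the statements named under `Uses` as hypotheses (drop those which are not needed; others may be added if they do not
depend on this one). Usable: `Pool.Agent.MU3B.b_X : St_X`, `Pool.Agent.MU3A.ta_SCP`, `Pool.Agent.MUXU.u_X : Su_X`, `Pool.Agent.MUXE.te_RNG`, `te_TRA`, `te_TRB`, `te_FAC te_TRA`, `te_GTH te_TRA`, `te_PT te_TRA`, `te_GAL` (`Pool/Agent/MUX/E_GAL.lean`), `Pool.Agent.NSE.te_BAS`, and the finished theorems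
`Pool.Agent.N2E.td_X : Sd_X` of the inert case which do not mention `GoodT`, `CtxT`: LAG, PRD, AUT, GTA. If the text says PORT, copy the finished proof `Pool/Agent/N2/E_X.lean` of the inert case and change `GoodT` to `GoodQ` (`(v a1)² ≤ v 2`, so `v a1 < 1`), `CtxT`, `SetE` to `CtxU`, `SetV`.
-/

set_option autoImplicit false

open Polynomial

namespace Pool.Agent.N2V

open _root_.MU3 _root_.Pool.Agent.MU3A _root_.Pool.Agent.MU3B _root_.Pool.Agent.MUX _root_.Pool.Agent.MUXU _root_.Pool.Agent.MUXE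
open _root_.Pool.Agent.RI _root_.Pool.Agent.NS _root_.Pool.Agent.N2
open _root_.Pool.Agent.NSE (IntP)
open _root_.Pool.Agent.MUX2 (GRG)
open _root_.Pool.Agent.MUXV (InK tX)
open _root_.Pool.Agent.N2E (dlg AutC cc)

noncomputable section

/-! ## Definitions -/

/-- an isogeny of odd degree between lattices with good models -/
structure IsoU (V : ValuationSubring ℂ) (L M : PeriodPair) (u e a1 a3 u' e' a1' a3' μ : ℂ) :
    Prop where
  gL : GoodQ V L u e a1 a3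
  gM : GoodQ V M u' e' a1' a3'
  v2 : V.valuation (2 : ℂ) < 1
  mu0 : μ ≠ 0
  isg : Isg L M μ
  odd : ∃ N : ℕ, ¬ 2 ∣ N ∧ ∀ z, μ * z ∈ M.lattice → (N : ℂ) * z ∈ L.lattice

/-- everything on `O`, `k`, `P`, `V` and the reduction which is used -/
structure CtxU (A B : ℤ) (P : Ideal (OO A B)) (V : ValuationSubring ℂ) : Prop where
  ring : RingE A B
  cq : CQ A B
  B0 : B = 0
  mod : A % 4 = 2 ∨ A % 4 = 3
  v2 : V.valuation (2 : ℂ) < 1
  int : ∀ x : OO A B, V.valuation (emb x) ≤ 1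
  unit : ∀ x : OO A B, x ∉ P → V.valuation (emb x) = 1
  nat : ∀ n : ℕ, ¬ 2 ∣ n → V.valuation (n : ℂ) = 1
  max : P.IsMaximal
  one : ∀ x : OO A B, x ∉ P → x - 1 ∈ P
  nrm : ∀ x : OO A B, x ∉ P → ¬ (2 : ℤ) ∣ nm x
  pi : ∃ ϖ : OO A B, V.valuation (emb ϖ) ^ 2 = V.valuation (2 : ℂ)
  w0 : V.valuation (emb (⟨0, 1⟩ : OO A B)) ^ 2 = V.valuation (2 : ℂ) ^ (dR A - 2)
  /-- the powers of `P`, with the valuation -/
  pw : ∀ (k : ℕ) (x : OO A B), x ∈ P ^ k ↔
    V.valuation (emb x) ^ 2 ≤ V.valuation (2 : ℂ) ^ k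
  /-- divisibility by `2^k`, with the valuation -/
  dv : ∀ (k : ℕ) (x : OO A B), x ∈ idl (A := A) (B := B) (2 ^ k) ↔
    V.valuation (emb x) ≤ V.valuation (2 : ℂ) ^ k
  good : ∀ L, NL A B L → ∃ u e a1 a3 : ℂ, GoodQ V L u e a1 a3
  val : ∀ f : ℕ, f ≠ 0 → ¬ 2 ∣ f → ∀ y ∈ RF (idl (A := A) (B := B) f), y ≠ 0 →
    ∃ k : ℤ, V.valuation y ^ 2 = V.valuation (2 : ℂ) ^ k
  exq : ∀ (L : PeriodPair), NL A B L → ∃ (N : PeriodPair) (nu : ℂ), NL A B N ∧ IsQ P L N nu

/-- the hypotheses on the levels: `m = 2^(n+2) f` (points, sets `XX`), `m' = 2^(n+1) f` (fields) -/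
structure SetV (A B : ℤ) (P : Ideal (OO A B)) (V : ValuationSubring ℂ) (n f a m m' : ℕ) :
    Prop where
  ctx : CtxU A B P V
  tor : TorX A B
  n5 : 5 ≤ n
  f3 : 3 ≤ f
  fd : 3 ∣ f
  fo : ¬ 2 ∣ f
  a3 : 3 ≤ a
  ao : ¬ 2 ∣ a
  af : a.Coprime f
  hm : m = 2 ^ (n + 2) * f
  hm' : m' = 2 ^ (n + 1) * f

/-- `N = 2^(n-1) f a`, a quarter of `m' a` -/
def NN (n f a : ℕ) : ℕ := 2 ^ (n - 1) * f * a

/-- `√A` -/
def w0 {A B : ℤ} : OO A B := ⟨0, 1⟩

/-- representatives of `O/2` for `l < 4` -/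
def bb {A B : ℤ} (l : ℕ) : OO A B := ⟨(l % 2 : ℕ), (l / 2 : ℕ)⟩

/-- the product over one fibre -/
def GFib {A B : ℤ} {n : ℕ} {ι : Type} (R : Reps A B n ι) (H : ι → Finset ℂ) (m m' : ℕ) (i : ι)
    (x : OO A B) : ℂ :=
  ∏ l ∈ Finset.range 4, ThetaH (R.L i) (H i) (pt R m i (x + (m' : OO A B) * bb l))

/-- the sum over one fibre -/
def FFib {A B : ℤ} {n : ℕ} {ι : Type} (R : Reps A B n ι) (a m m' : ℕ) (i : ι)
    (x : OO A B) : ℂ :=
  ∑ l ∈ Finset.range 4, dlX (R.L i) a (pt R m i (x + (m' : OO A B) * bb l))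

/-! ## The good model -/

/-- (COE) PORT of `Sd_COE` (`E_COE.lean`). -/
def Sv_COE : Prop :=
  ∀ (V : ValuationSubring ℂ) (L : PeriodPair) (u e a1 a3 : ℂ), GoodQ V L u e a1 a3 →
    V.valuation (2 : ℂ) < 1 →
    12 * e = a1 ^ 2 * u ^ 2 ∧ 12 * e ^ 2 - L.g₂ = 2 * a1 * a3 * u ^ 4 ∧
    4 * e ^ 3 - L.g₂ * e - L.g₃ = a3 ^ 2 * u ^ 6 ∧ V.valuation (3 : ℂ) = 1 ∧
    V.valuation a1 < 1 ∧
    (∀ z, 2 * yt L u e a1 a3 z + a1 * xu L u e z + a3 = et L u z) ∧
    (∀ z ∉ L.lattice, et L u z ^ 2 = 4 * xu L u e z ^ 3 + (a1 * xu L u e z + a3) ^ 2) ∧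
    (∀ z ∉ L.lattice, yt L u e a1 a3 z ^ 2 + a1 * xu L u e z * yt L u e a1 a3 z +
      a3 * yt L u e a1 a3 z = xu L u e z ^ 3) ∧
    (∀ z ∉ L.lattice, HasDerivAt (xu L u e) (u * et L u z) z) ∧
    ∀ z, (∀ w ∈ L.lattice, xu L u e (z + w) = xu L u e z ∧ et L u (z + w) = et L u z ∧
        yt L u e a1 a3 (z + w) = yt L u e a1 a3 z) ∧
      xu L u e (-z) = xu L u e z ∧ et L u (-z) = -et L u z

/-- (GRT) PORT of `Sd_GRT` (`E_GRT.lean`), and points of odd order (`Sd_TPT`, first part). Uses Sv_COE. -/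
def Sv_GRT : Prop :=
  ∀ (V : ValuationSubring ℂ) (L : PeriodPair) (u e a1 a3 : ℂ), GoodQ V L u e a1 a3 →
    V.valuation (2 : ℂ) < 1 →
    (∃ ξ : ℂ →+ (WT a1 a3).Point, GRG V (WT a1 a3) L (xu L u e) (yt L u e a1 a3) ξ) ∧
    ∀ (N : ℕ), ¬ 2 ∣ N → V.valuation (N : ℂ) = 1 ∧ ∀ z : ℂ, (N : ℂ) * z ∈ L.lattice →
      InK V L (xu L u e) z → z ∈ L.lattice

/-- (UNT) PORT of `Sd_UNT` (`E_UNT.lean`). Uses Sv_COE, Sv_GRT, Su_BAC, Su_PFI. -/
def Sv_UNT : Prop :=
  ∀ (V : ValuationSubring ℂ) (L M : PeriodPair) (u e a1 a3 u' e' a1' a3' μ : ℂ),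
    IsoU V L M u e a1 a3 u' e' a1' a3' μ → V.valuation (μ * u' / u) = 1

/-- (RAT) PORT of `Sd_RAT` (`E_RAT.lean`). Uses Sv_COE, Sv_GRT, Sv_UNT, Su_BAC, Su_PFI. -/
def Sv_RAT : Prop :=
  ∀ (V : ValuationSubring ℂ) (L M : PeriodPair) (u e a1 a3 u' e' a1' a3' μ : ℂ),
    IsoU V L M u e a1 a3 u' e' a1' a3' μ →
    ∃ P Q : ℂ[X], IntP V P ∧ IntP V Q ∧
      (∀ z, μ * z ∉ M.lattice →
        xu M u' e' (μ * z) * Q.eval (xu L u e z) = P.eval (xu L u e z) ∧
        (μ * u' / u) * et M u' (μ * z) * Q.eval (xu L u e z) ^ 2 =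
          et L u z * (derivative P * Q - P * derivative Q).eval (xu L u e z)) ∧
      (∀ z, InK V L (xu L u e) z → InK V M (xu M u' e') (μ * z)) ∧
      ∀ z, ¬ InK V M (xu M u' e') (μ * z) → ¬ InK V L (xu L u e) z ∧
        V.valuation (Q.eval (xu L u e z)) = 1

/-- (THT) PORT of `Sd_THT` (`E_THT.lean`). Uses Sv_COE, Sv_GRT, Sv_RAT. -/
def Sv_THT : Prop :=
  ∀ (V : ValuationSubring ℂ) (L M : PeriodPair) (u e a1 a3 u' e' a1' a3' μ : ℂ),
    IsoU V L M u e a1 a3 u' e' a1' a3' μ → ∀ (a : ℕ) (H : Finset ℂ), a ≠ 0 →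
    IsHalf M (a : ℂ) H →
    ∃ P Q : ℂ[X], IntP V P ∧ IntP V Q ∧
      ∀ z, ¬ InK V M (xu M u' e') (μ * z) → (a : ℂ) * (μ * z) ∉ M.lattice →
      (∀ q ∈ H, ¬ InK V M (xu M u' e') q ∧ ¬ InK V M (xu M u' e') (μ * z + q) ∧
        ¬ InK V M (xu M u' e') (μ * z - q)) →
      ¬ InK V L (xu L u e) z ∧
      V.valuation (P.eval (xu L u e z)) = 1 ∧ V.valuation (Q.eval (xu L u e z)) = 1 ∧
      ThetaH M H (μ * z) * Q.eval (xu L u e z) = (u' ^ 2) ^ H.card * P.eval (xu L u e z) ∧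
      μ * dlX M a (μ * z) / u = dlg P Q (xu L u e z) * et L u z

/-- (NE1) PORT of `Sd_NE1` (`E_NE1.lean`). Uses Sv_GRT. PROOF. Let `g = 2^j`. `g z` is killed by `f`; if `z + q ∈ InK` then `g a (z + q) = a g z ∈ InK` (`gInK` lemmas: multiples), killed by `f`, so it is in `L`, and the hypothesis (exactly: `c z ∈ L` implies `f ∣ c`) gives `f ∣ g a`, `f ∣ 1`. The same for `z`, `2 z` (`f ∣ 2 g a`). -/
def Sv_NE1 : Prop :=
  ∀ (V : ValuationSubring ℂ) (L : PeriodPair) (u e a1 a3 : ℂ), GoodQ V L u e a1 a3 →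
    V.valuation (2 : ℂ) < 1 → ∀ (j f a : ℕ), 3 ≤ f → ¬ 2 ∣ f → ¬ 2 ∣ a → a.Coprime f →
      ∀ z : ℂ, ((2 ^ j * f : ℕ) : ℂ) * z ∈ L.lattice →
        (∀ c : ℕ, (c : ℂ) * z ∈ L.lattice → f ∣ c) →
        ¬ InK V L (xu L u e) z ∧ ¬ InK V L (xu L u e) (2 * z) ∧ (a : ℂ) * z ∉ L.lattice ∧
        ∀ q : ℂ, (a : ℂ) * q ∈ L.lattice → q ∉ L.lattice → ¬ InK V L (xu L u e) q ∧
          ¬ InK V L (xu L u e) (z + q) ∧ ¬ InK V L (xu L u e) (z - q)

/-! ## Points of order a power of 2 -/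

/-- (PVI) the valuation of the multiplier of an isogeny whose kernel is in the kernel of reduction.

Uses Sv_COE, Sv_GRT, Su_PFI. PROOF. (As `Sf_PIS`, `Pool/Agent/NS/F_PIS.lean`.) `l ≠ l'` primes `> 3` (`5`, `7`), `w = ω₁/l`, `z = ω₁/l'`. Let `s` be a point of odd order, `s ∉ L`, and `q = 0` or `q ∈ R`: `s ∉ InK V L` (GRT), so `s + q ∉ InK V L` (`gInK_add`, `q ∈ InK`), and `ν s ∉ N` (otherwise
`s ≡ q` modulo `L` for some `q ∈ R` (`IsRpM.surj`), `s ∈ InK`), so `ν s ∉ InK V N` (GRT). Apply this to `w`, `z`, `z ± w`. (PFI) in the coordinates (`℘ = u² x + e`): `(ν u'/u)² (x'(ν z) - x'(ν w)) ∏_(q ∈ R) (x z - x q) = (x z - x w) ∏_(q ∈ R) (x z - x(w + q))`; `x'(ν z) - x'(ν w)`, `x z - x w`,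
`x z - x(w + q)` are units (`gv_X_sub`), and `v(x z - x q) = v(x q)` as `v(x z) ≤ 1 < v(x q)` (`q ∈ InK`, `q ∉ L`). -/
def Sv_PVI : Prop :=
  ∀ (V : ValuationSubring ℂ) (L N : PeriodPair) (u e a1 a3 u' e' a1' a3' nu : ℂ),
    GoodQ V L u e a1 a3 → GoodQ V N u' e' a1' a3' → V.valuation (2 : ℂ) < 1 → nu ≠ 0 →
    Isg L N nu → ∀ R : Finset ℂ, IsRpM L N nu R → (∀ q ∈ R, InK V L (xu L u e) q) →
    V.valuation (nu * u' / u) ^ 2 * ∏ q ∈ R, V.valuation (xu L u e q) = 1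

/-- (TWO) the points of order a power of two are in the kernel of reduction; the points of order two and four.

Uses Sv_COE, Sv_GRT, Sv_PVI, `Pool.Agent.N2R.Sr_DU2` (proved: `tr_DU2`, `Pool/Agent/N2/R_DU2.lean`; or `b_DUP`), Su_BAC. PROOF. (1) `2 z ∈ L`, `z ∉ L`: `℘'(z) = 0` (`b_ZER`), `et = 0`, so `4 x³ + (a1 x + a3)² = 0`, `T = v x`. `T ≤ 1`: `v(a1 x + a3) = 1` (`v a1 < 1`), `v(4 x³) < 1`, false: `T > 1`, `z ∈ InK`. `v(2) T > 1`:
`v((a1 x + a3)²) ≤ max (v(a1)² T²) 1 ≤ max (v(2) T²) 1`, but `v(4 x³) = v(2) T² (v(2) T) > v(2) T²` and `v(4 x³) = (v(2) T)² T > 1`, false. (2) Induction on `j`; `2 z ∉ L`: `2 z ∈ InK` by induction, `v(x(2z)) > 1`; if `v(x z) ≤ 1` then in `x(2z) (4 x³ + (a1 x + a3)²) = x⁴ - a1 a3 x² - 2 a3² x` the factor is a unit and the right side is in `V`, false.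
(3) (PVI) for `N = L`, `ν = 2` and `ν = 4` (`u' = u`): `v(2)² ∏ v(x q) = 1`, `v(4)² ∏ v(x q) = 1`. -/
def Sv_TWO : Prop :=
  ∀ (V : ValuationSubring ℂ) (L : PeriodPair) (u e a1 a3 : ℂ), GoodQ V L u e a1 a3 →
    V.valuation (2 : ℂ) < 1 →
    (∀ z, 2 * z ∈ L.lattice → z ∉ L.lattice → 1 < V.valuation (xu L u e z) ∧
      V.valuation (2 : ℂ) * V.valuation (xu L u e z) ≤ 1) ∧
    (∀ (j : ℕ) (z : ℂ), 2 ^ j * z ∈ L.lattice → InK V L (xu L u e) z) ∧
    (∀ R : Finset ℂ, IsRpM L L 2 R →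
      V.valuation (2 : ℂ) ^ 2 * ∏ q ∈ R, V.valuation (xu L u e q) = 1) ∧
    ∀ R : Finset ℂ, IsRpM L L 4 R →
      V.valuation (2 : ℂ) ^ 4 * ∏ q ∈ R, V.valuation (xu L u e q) = 1

/-- (PST) one step `L → N = ν P⁻¹ L`.

Uses Sv_TWO, Sv_PVI, Su_BAC. PROOF. `q ∈ Tor P L`, `q ∉ L`: `2 ∈ P` (`pw`, `k = 1`), so `2 q ∈ L`, `q ∈ InK`, `v(2) v(x q) ≤ 1` (TWO). Let `R` be representatives of the nonzero classes of `{z : ν z ∈ N} = {z : Tor P L z}` (BAC). `E[P]` has two elements: `q, q' ∉ L` in `E[P]` are congruent modulo `L`: by `te_TRB` (2) (`P` maximal) `q' ≡ emb x q`, `x ∉ P`,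
and `x - 1 ∈ P` (`one`). And `E[P] ≠ 0` (`te_TRB`, or: otherwise (PVI) with `R = ∅` gives `v(ν u'/u) = 1` in what follows). So `R = {q}` or `R = ∅`, and in both cases (PVI) and (TWO) give `v 2 ≤ v(ν u'/u)²` (*). Let `N'`, `ν'` be a second step (`exq` for `N`; `good`): `v 2 ≤ v(ν' u''/u')²`. The composition
`ν ν' : L → N'` has the kernel `{z : emb p (emb p' z) ∈ L for all p, p' ∈ P} = {z : 2 z ∈ L}`: `←`: `p p' ∈ P ^ 2`, `p p' = 2 y` (`pw`, `dv`: `v(p p') ≤ v 2`, so `p p' ∈ (2)`); `→`: `2 ∈ P ^ 2 = P * P` (`pw`) is a sum of products `p p'` (`Submodule.mul_induction_on`). So there is `R` with `IsRpM L L 2 R` (BAC) and `IsRpM L N' (ν ν') R`: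
(PVI), (TWO (3)): `v(ν ν' u''/u)² = v(2)²`, and `(ν u'/u)(ν' u''/u') = ν ν' u''/u`. So both factors in (*) are equal to `v 2`, in particular `R = {q}`, `v(2) v(x q) = 1` (PVI). -/
def Sv_PST : Prop :=
  ∀ (A B : ℤ) (P : Ideal (OO A B)) (V : ValuationSubring ℂ), CtxU A B P V →
    ∀ (L N : PeriodPair) (nu u e a1 a3 u' e' a1' a3' : ℂ), NL A B L → NL A B N → IsQ P L N nu →
      GoodQ V L u e a1 a3 → GoodQ V N u' e' a1' a3' →
      V.valuation (nu * u' / u) ^ 2 = V.valuation (2 : ℂ) ∧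
      ∃ q, Tor P L q ∧ q ∉ L.lattice ∧ IsRpM L N nu {q} ∧
        V.valuation (2 : ℂ) * V.valuation (xu L u e q) = 1

/-- (TPU) the points of exact order `P^(j+1)`.

Uses Sv_COE, Sv_GRT, Sv_TWO, Sv_PST, Su_PFI. PROOF. Claim: `1 < v(x z)`, `v(x z)^(2^j) v(2) = 1`; then `v(t z)² v(x z) = 1` (`gv_tX_lt`) gives `v(t z)^(2^(j+1)) = v 2`. Induction on `j`, for all lattices; `j = 0`: (PST) (`Tor (P^0) L z` iff `z ∈ L`; `z ≡ q` by `IsRpM.surj`, `ν z ∈ N`).
Step (as `Sf_TPR`, `StER.lean`): `Tor (P^(j+2)) L z`, not `Tor (P^(j+1)) L z`. `N`, `ν` (`exq`), `u', ..` (`good`), `z' = ν z`: `Tor (P^(j+1)) N z'`, not `Tor (P^j) N z'` (`emb x (ν z) ∈ N` iff `emb p (emb x z) ∈ L` for all `p ∈ P`; `P ^ (j+1) = P * P ^ j`), so `Y = v(x' z') > 1`, `Y^(2^j) v(2) = 1`. `q` from (PST), `T = v(x q)`, `v(2) T = 1`, `T > 1`,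
so `Y ≤ T` (`Y^(2^j) = T`). `w = ω₁/5`: `w, w + q ∉ InK V L`, `ν w ∉ InK V N` (see PVI). (PFI): `(ν u'/u)² (x'(z') - x'(ν w)) (x z - x q) = (x z - x w)(x z - x(w + q))`, `v(ν u'/u)² = v 2`, `v(x'(z') - x'(ν w)) = Y`. If `v(x z) ≤ 1`: left side `v(2) Y T = Y > 1`, right side `≤ 1`: false. So
`X = v(x z) > 1`, right side `X²`. `X > T`: `v(2) Y X = X²`, `X = v(2) Y ≤ v(2) T = 1`: false. `X = T`: `X² ≤ v(2) Y T = Y ≤ T = X`, false. So `X < T`: `v(2) Y T = X²`, `X² = Y`. -/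
def Sv_TPU : Prop :=
  ∀ (A B : ℤ) (P : Ideal (OO A B)) (V : ValuationSubring ℂ), CtxU A B P V →
    ∀ (j : ℕ) (L : PeriodPair) (u e a1 a3 : ℂ), NL A B L → GoodQ V L u e a1 a3 →
      ∀ z, Tor (P ^ (j + 1)) L z → ¬ Tor (P ^ j) L z → InK V L (xu L u e) z ∧ z ∉ L.lattice ∧
        V.valuation (tX (xu L u e) (yt L u e a1 a3) z) ^ (2 ^ (j + 1)) = V.valuation (2 : ℂ)

/-- (DST) the distances. Model: `E_DST.lean`.

Uses Sv_COE, Sv_GRT, Sv_TWO, Sv_TPU, Su_BAC. PROOF. For `Y ∈ InK`, `Y ∉ L`: `gnear` and `gv_DX` (`2 Q ∉ InK`): `Q + Y ∉ InK` and `v(x(Q + Y) - x Q) = v(t Y)`. If `x(Q + Y) = x(Q + Y')`, `Y, Y' ∈ InK`, then `Y ≡ Y'` (`b_NEQ`; `2 Q ≡ -Y - Y'` is impossible). (1) `R` with `IsRpM L L 4 R` (BAC), in `InK` (TWO (2)), `S` = the `x(Q + q)`, `q ∈ R`;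
`v(t q)² v(x q) = 1` (`gv_tX_lt`), so (TWO (3)) `(∏ v(t q))² = v(2)⁴`. (2) `S = {x(Q + Y), x(Q + 2 Y), x(Q + 3 Y)}`. `d = 2` or `3`. `Y` and `3 Y` have exact order `P^(6-d)` (`3` is prime to `P`), `2 Y` has exact order `P^(4-d)`: `emb x (2 Y) ∈ L` iff `2 x ∈ ..`: `Tor (P^(4-d)) L (2 Y)` because `2 P^(4-d) ⊆ P^(6-d)` (`pw`);
not `Tor (P^(3-d)) L (2 Y)`: every `x ∈ P^(5-d)` is `2 y` with `y ∈ P^(3-d)` (`dv`, `pw`), so it would give `Tor (P^(5-d)) L Y` (`d = 2`: `x ∈ P³`, `y ∈ P`; `d = 3`: `x ∈ P²`, `y ∈ P^0`). (TPU), `d = 2`: `α = v(t Y) = v(t(3 Y))`, `α^16 = v 2`, `β = v(t(2 Y))`, `β⁴ = v 2`: `(α β α)^8 = v(2)³`. `d = 3`: `α^8 = v 2`, `β² = v 2`: `(α β α)^8 = v(2)^6`. -/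
def Sv_DST : Prop :=
  ∀ (A B : ℤ) (P : Ideal (OO A B)) (V : ValuationSubring ℂ), CtxU A B P V →
    ∀ (L : PeriodPair) (u e a1 a3 : ℂ), NL A B L → GoodQ V L u e a1 a3 →
    ∀ Q : ℂ, ¬ InK V L (xu L u e) Q → ¬ InK V L (xu L u e) (2 * Q) →
    (∃ S : Finset ℂ, xu L u e Q ∉ S ∧
      (∀ x ∈ S, V.valuation x ≤ 1 ∧ ∃ Y, 4 * Y ∈ L.lattice ∧ x = xu L u e (Q + Y)) ∧
      ∏ x ∈ S, V.valuation (xu L u e Q - x) ≤ V.valuation (2 : ℂ) ^ 2) ∧
    ∀ Y, Tor (P ^ (6 - dR A)) L Y → ¬ Tor (P ^ (5 - dR A)) L Y →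
      ∃ S : Finset ℂ, xu L u e Q ∉ S ∧
        (∀ x ∈ S, V.valuation x ≤ 1 ∧ ∃ k : ℕ, k < 4 ∧ x = xu L u e (Q + k * Y)) ∧
        (∏ x ∈ S, V.valuation (xu L u e Q - x)) ^ 8 ≤ V.valuation (2 : ℂ) ^ (3 * (dR A - 1))

/-- (DS2) the distribution relation for multiplication by 2.

Uses Su_PFI. PROOF. `R` represents `ω₁/2`, `ω₂/2`, `(ω₁ + ω₂)/2`, so it has 3 elements (see the proof of `td_DST`). `℘ h ≠ ℘ q`: `b_NEQ`, `2 (h ± q) ∉ L`. `h ∈ H`: `2 h ∉ L` (`IsHalf.ne`), (PFI) for `M = L`, `μ = 2`, at the points `z := h`, `w := z`: `4 (℘(2h) - ℘(2z)) ∏_(q ∈ R) (℘ h - ℘ q) = (℘ h - ℘ z) ∏_(q ∈ R) (℘ h - ℘(z + q))`; `R` has 3 elements, so `(℘ z - ℘ h) ∏_(q ∈ R) (℘(z + q) - ℘ h) = -4 (℘(2z) - ℘(2h)) ∏_(q ∈ R) (℘ h - ℘ q)`.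
Product over `h ∈ H`: `∏_(h) (℘(2z) - ℘(2h)) = Θ(2z)`: `{2 h}` is a half system too (`a` odd) and `Θ` does not depend on the half system (`b_TIN`). The logarithmic derivatives (`b_TDL`: `Θ` has the derivative `Θ dlX`, where `a z ∉ L`; see the proofs of `Sf_DIS`, `Pool/Agent/NS/F_DIS.lean`): all of `z`, `z + q`, `2 z` are not killed by `a` (`2 a z ∉ L`), both sides are analytic near `z`. -/
def Sv_DS2 : Prop :=
  ∀ (L : PeriodPair) (R : Finset ℂ), IsRpM L L 2 R → ∀ (a : ℕ) (H : Finset ℂ), ¬ 2 ∣ a →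
    IsHalf L (a : ℂ) H → R.card = 3 ∧
    (∏ h ∈ H, ∏ q ∈ R, (L.weierstrassP h - L.weierstrassP q)) ≠ 0 ∧
    ∀ z : ℂ, (a : ℂ) * (2 * z) ∉ L.lattice →
      ThetaH L H z * ∏ q ∈ R, ThetaH L H (z + q) =
        (-4) ^ H.card * (∏ h ∈ H, ∏ q ∈ R, (L.weierstrassP h - L.weierstrassP q)) *
          ThetaH L H (2 * z) ∧
      dlX L a z + ∑ q ∈ R, dlX L a (z + q) = 2 * dlX L a (2 * z)

/-! ## The fields -/

/-- (CTX) from the standing hypotheses to `CtxU`. Models: `E_CTX.lean`, `Pool/Agent/N2/R_ALC.lean` (the arithmetic of `2 = P²`), `Pool/Agent/NS/F_CTX.lean` (3 ramified).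

PROOF. `B = 0` (`CaseR2.b0`), `A ≡ 2, 3` modulo 4 (`CaseR2.mod`), `emb w0 ² = A`. `2 ∈ P`, `v 2 < 1`. `int`, `unit`, `nat`: as in the inert case (`OverI`). `ϖ = w0` (`A` even), `ϖ = 1 + w0` (`A` odd): `v(emb ϖ)² = v 2` (see `R_ALC.lean`: `A = 2 (odd)`;
`(1 + w0)² = 2 ((1 + A)/2 + w0)` with `(1 + A)/2` even, `w0` a unit). `w0`: `v(w0)² = v A`, `= 1` for `A` odd, `= v 2` for `A ≡ 2` modulo 4. KEY: for `x = ⟨r, s⟩`: `x = (r - s) + s (1 + w0)` (`A` odd), `r + s w0` (`A` even): `x = i + s ϖ`, `i` an integer. `v(emb x) = 1` if `i` is odd, `v(emb x)² = v 2` if `i` is even and `s` odd, `v(emb x) ≤ v 2` if both are even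
(`v(i) ≤ v 2`, `v(s ϖ)² = v 2 > v(2)²`: strictly different). So `x ∈ P` iff `i` is even; `x ∉ P` gives `x - 1 ∈ P`; `x ∈ (2)` iff `v(emb x) ≤ v 2` iff `v(emb x)² ≤ v(2)²`; `dv` by induction (`x = 2 y`). `pw`: `x ∈ P ^ k → v(emb x)² ≤ v(2)^k`: `Submodule.pow_induction_on_left'` or induction with `Submodule.mul_induction_on`. Conversely by induction on `k`
(two steps): `k = 0` clear; `k = 1`: `v(emb x) < 1`, `x ∈ P`; `k + 2`: `v(emb x)² ≤ v(2)²`, `x = 2 y`, `y ∈ P ^ k`, and `2 ∈ P ^ 2` because `ϖ² = 2 (unit)`: `A` even: `A = ϖ²`, `4 ∈ P ^ 2`, `gcd(A, 4) = 2`; `A` odd: `ϖ² - (1 + A) = 2 w0`, `4 ∣ 1 + A`, so `2 w0 ∈ P²`, `2 A = w0 (2 w0) ∈ P²`, `gcd(2A, 4) = 2`. `max`: `O/P` has two elements. `nrm`: `nm x = r² - A s²`.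
`exq`: `TorX.surj` for `m = ⊤`, `a = P`. `good`, `val` are hypotheses. -/
def Sv_CTX : Prop :=
  ∀ (A B : ℤ) (P : Ideal (OO A B)) (V : ValuationSubring ℂ), CaseR2 A B → IsPN 2 P →
    OverI V P → TorX A B → (∀ L, NL A B L → ∃ u e a1 a3 : ℂ, GoodQ V L u e a1 a3) →
    (∀ f : ℕ, Odd f → ∀ y ∈ RF (idl (A := A) (B := B) f), y ≠ 0 →
      ∃ k : ℤ, V.valuation y ^ 2 = V.valuation (2 : ℂ) ^ k) → CtxU A B P V

/-- (DEG) the degree of `RF (2^(j+1) f)` over `RF (f)`. Model `E_DEG.lean`.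

PROOF. As there: at most `4^(j+1)/2 = 2·4^j` classes modulo `2^(j+1)` of elements `⟨r, s⟩` not in `P` (`i` odd in the notation of (CTX): `r - s` odd for `A` odd, `r` odd for `A` even). -/
def Sv_DEG : Prop :=
  ∀ (A B : ℤ) (P : Ideal (OO A B)) (V : ValuationSubring ℂ), CtxU A B P V → GalE A B →
    ∀ (j f : ℕ), f ≠ 0 → ¬ 2 ∣ f →
    Module.finrank (kk A B) (RF (idl (A := A) (B := B) (2 ^ (j + 1) * f))) ≤
      (2 * 4 ^ j) * Module.finrank (kk A B) (RF (idl (A := A) (B := B) f))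

/-- (CON) the elements `c = 1 + N b`, `N = NN n f a = 2^(n-1) f a`. Model `E_CON.lean`.

PROOF. `m' a = 4 N`, `m = 2 m'`. (1) `n - 1 ≥ 2`: `c ≡ 1` modulo `4 f`, `a`; so `c` is prime to `m a` and not 0. (2) `nm (1 + t w0) = 1 - t² A` (`B = 0`) for integers `t`, `≥ 1`, `t = N k`, `2^(n+2) ∣ N²` (`2 (n - 1) ≥ n + 2`). `nm (1 + m' b) = (1 + m' b₁)² - m'² b₂² A`, `b = ⟨b₁, b₂⟩`: `2 m' = m` and `m'²` are divisible by `2^(n+2)`; it is `> 0`. `nI (sp x) = |nm x|` (see `E_CON.lean`).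
(3) `c_k c_l - c_(k+l) = N² k l A`, `m a ∣ N²`. (4) `c_4 - 1 = 4 N w0 = m' a w0`. (5) `c_2 x - x = 2 N w0 x`; if it is in `(m')` then `2 ∣ a w0 x`: `v(a w0 x)² = v(w0)² ≥ v 2 > v(2)²` (`CtxU.w0`, `unit`; `x` is prime to `m` so `∉ P`), contradiction to `dv`. (6) `N/m' = a/4`. `R = emb w0 (a om/4)`: `emb x R ∈ L = om emb O` iff `4 ∣ a w0 x` iff (`dv`) `v(x)² v(w0)² ≤ v(2)⁴` iff
`v(x)² ≤ v(2)^(6-d)` iff `x ∈ P^(6-d)` (`pw`); and `P^(5-d)` is not contained in `P^(6-d)` (powers of `ϖ`). (7) `L = om emb O`: `Y = om emb b'/4`, take `b = a b'`, `a² ≡ 1` modulo 4. -/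
def Sv_CON : Prop :=
  ∀ (A B : ℤ) (P : Ideal (OO A B)) (V : ValuationSubring ℂ) (n f a m m' : ℕ),
    SetV A B P V n f a m m' →
    (∀ b : OO A B, IsCoprime (sp (cc (NN n f a) b)) (idl (m * a)) ∧
      IsCoprime (cc (NN n f a) b) ((m : ℕ) : OO A B) ∧
      cc (NN n f a) b ≠ 0 ∧ cc (NN n f a) b - 1 ∈ idl (f * a) ∧
      cc (NN n f a) b - 1 ∈ idl (4 * f) ∧ cc (NN n f a) b - 1 ∈ idl a) ∧
    ((∀ k : ℕ, ∃ j : ℕ, nI (sp (cc (NN n f a) ((k : OO A B) * w0))) = 1 + 2 ^ (n + 2) * j) ∧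
      ∀ b : OO A B, ∃ j : ℕ, nI (sp (cc m' b)) = 1 + 2 ^ (n + 2) * j) ∧
    (∀ k l : ℕ, cc (NN n f a) ((k : OO A B) * w0) * cc (NN n f a) ((l : OO A B) * w0) -
      cc (NN n f a) (((k + l : ℕ) : OO A B) * w0) ∈ idl (m * a)) ∧
    (cc (NN n f a) (((4 : ℕ) : OO A B) * w0) - 1 = ((m' * a : ℕ) : OO A B) * w0) ∧
    (∀ x : OO A B, IsCoprime x ((m : ℕ) : OO A B) →
      cc (NN n f a) (((2 : ℕ) : OO A B) * w0) * x - x ∉ idl m') ∧
    ∀ (L : PeriodPair) (om : ℂ), IsNL (⊤ : Ideal (OO A B)) L om →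
      (∀ b : OO A B, emb (cc (NN n f a) b) * (om / m') = om / m' + emb b * (a * om / 4)) ∧
      (∀ k : ℕ, emb ((k : OO A B) * w0) * (a * om / 4) =
        k * (emb (w0 : OO A B) * (a * om / 4))) ∧
      Tor (P ^ (6 - dR A)) L (emb (w0 : OO A B) * (a * om / 4)) ∧
      ¬ Tor (P ^ (5 - dR A)) L (emb (w0 : OO A B) * (a * om / 4)) ∧
      ∀ Y, 4 * Y ∈ L.lattice → ∃ b : OO A B, Y - emb b * (a * om / 4) ∈ L.lattice

/-- (SIG) integral elements of the ray class field are polynomials in `x(Q)`, `Q = om/m'`. PORT of `Sd_SIG` (`E_SIG.lean`).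

Uses Sv_COE, Sv_GRT, Sv_TPU, Sv_DEG, `te_BAS`. PROOF. As there with `m' = 2^(n+1) f` for `m`: `P₁` is a point with `Tor (P^(2n+2)) L P₁`, not `Tor (P^(2n+1)) L P₁` (`P₁ = β om/2^(n+1)`, `β` odd, so `emb x P₁ ∈ L` iff `x ∈ (2^(n+1))` iff (`dv`, `pw`) `x ∈ P^(2n+2)`), so `v(t P₁)^(2^(2n+2)) = v 2` (TPU), `v(π)^(2·4^n) = v(emb ϖ)` (squares; `CtxU.pi`).
(BAS) with `N = 2·4^n`, `p = emb ϖ` (DEG with `j = n`; `CtxU.val`: `v y ² = v(2)^k = (v(emb ϖ)^k)²`). -/
def Sv_SIG : Prop :=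
  ∀ (A B : ℤ) (P : Ideal (OO A B)) (V : ValuationSubring ℂ) (n f a m m' : ℕ),
    SetV A B P V n f a m m' →
    ∀ (L : PeriodPair) (om u e a1 a3 : ℂ), IsNL (⊤ : Ideal (OO A B)) L om →
    GoodQ V L u e a1 a3 →
    ∀ w ∈ RF (idl (A := A) (B := B) (m' * a)), V.valuation w ≤ 1 →
    ∃ h : ℂ[X], IntP V h ∧ w = h.eval (xu L u e (om / m')) ∧
      ∀ (c : OO A B) (s : ℂ ≃+* ℂ), AutC (idl (m * a)) c s → c - 1 ∈ idl (f * a) →
        s w = h.eval (xu L u e (emb c * (om / m')))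

/-! ## The points -/

/-- (MUL) the isogenies `μ_i x : L_(i0) → L_i` have odd degree. PORT of `Sd_MUL` (`E_MUL.lean`). -/
def Sv_MUL : Prop :=
  ∀ (A B : ℤ) (P : Ideal (OO A B)) (V : ValuationSubring ℂ), CtxU A B P V →
    ∀ (n : ℕ) (ι : Type) (R : Reps A B n ι),
    n ≠ 0 → 2 ∣ n → ∀ (i : ι) (x : OO A B), x ∉ P →
      muX R i * emb x ≠ 0 ∧ Isg (R.L R.i0) (R.L i) (muX R i * emb x) ∧
      ∃ N : ℕ, ¬ 2 ∣ N ∧ ∀ z, muX R i * emb x * z ∈ (R.L i).lattice →
        (N : ℂ) * z ∈ (R.L R.i0).lattice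

/-- (FIB) the fibres: `G_(i,x)` and `F_(i,x)` in terms of the point `pt R m' i x`.

Uses Sv_GRT, Sv_TWO, Sv_DS2, Su_BAC, `te_PT`. PROOF. `pt R m i (x + m' b) = pt R m i x + N(b_i) om_i emb b/2` (`m = 2 m'`), `2 pt R m i x = pt R m' i x`. The four points `z_l = N(b_i) om_i emb (bb l)/2` represent `{z : 2 z ∈ L_i}/L_i`: `2 z_l ∈ L_i` (`N(b_i) ∈ b_i`); `z = om_i emb y/2`, `y ∈ b_i`: `N(b_i)` is odd: `y ≡ N(b_i) y'` modulo `2 b_i`, `y' = y N(b_i)`
(`N(b_i)² ≡ 1` modulo 2), and `y' ≡ bb l` modulo 2 for exactly one `l < 4`, `N(b_i) (y' - bb l) ∈ 2 b_i`. Different `l`: if `N(b_i) (bb l - bb l') ∈ 2 b_i` then `2 ∣ bb l - bb l'` (`N(b_i)` odd, `b_i` contained in `O`). So with `R' = {z_1, z_2, z_3}` `IsRpM L_i L_i 2 R'`, and (DS2) for `z = pt R m i x` (`a pt R m' i x ∉ L_i`). `κ = (-4)^|H| ∏∏(℘ h - ℘ q)`: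
`℘ h - ℘ q = u'² (x h - x q)`, `v(x h - x q) = v(x q)` (`h ∉ InK` of odd order, `q ∈ InK`), `∏_(q ∈ R') v(x q) v(2)² = 1` (TWO (3)): `v κ = (v(2)² v(u'²)³ v(2)⁻²)^|H| = v(u'²)^(3|H|)`. The points `pt R m i (x + m' b)` only matter modulo `L_i`: `m b' ∈ (m)`. -/
def Sv_FIB : Prop :=
  ∀ (A B : ℤ) (P : Ideal (OO A B)) (V : ValuationSubring ℂ) (n f a m m' : ℕ),
    SetV A B P V n f a m m' →
    ∀ (ι : Type) (R : Reps A B (2 * f) ι) (H : ι → Finset ℂ) (i : ι),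
    IsHalf (R.L i) (a : ℂ) (H i) →
    ∃ κ : ℂ, κ ≠ 0 ∧
      (∀ u' e' a1' a3' : ℂ, GoodQ V (R.L i) u' e' a1' a3' →
        V.valuation κ = V.valuation (u' ^ 2) ^ (3 * (H i).card)) ∧
      ∀ x : OO A B, IsCoprime x ((m : ℕ) : OO A B) →
        GFib R H m m' i x = κ * ThetaH (R.L i) (H i) (pt R m' i x) ∧
        FFib R a m m' i x = 2 * dlX (R.L i) a (pt R m' i x) ∧
        (∀ y : OO A B, y - x ∈ idl (A := A) (B := B) m' →
          GFib R H m m' i y = GFib R H m m' i x ∧ FFib R a m m' i y = FFib R a m m' i x)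

/-- (GPO) the fibres as rational functions over `V` of `x(Q)`, `Q = om_0/m'`. Model: `E_GPO.lean`.

Uses Sv_COE, Sv_GRT, Sv_THT, Sv_NE1, Sv_MUL, Sv_FIB. PROOF. `E_GPO.lean` with `m'` for `m` gives `P, Q` with `Θ(pt R m' i (c x)) Q(ξ) = (u'²)^|H| P(ξ)` and `μ dlX(pt R m' i (c x))/u = dlg P Q (ξ) et`, `μ = muX R i * emb x`. Multiply by the constants of (FIB): `κ := κ_FIB (u'²)^|H|`, `v κ = v(u'²)^(4|H|)`, `v(u'²)² = v(2)^k` (`CtxU.val`: `u'² ∈ RF (3)`), so `v κ = (v(2)^(k |H|))²`. -/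
def Sv_GPO : Prop :=
  ∀ (A B : ℤ) (P : Ideal (OO A B)) (V : ValuationSubring ℂ) (n f a m m' : ℕ),
    SetV A B P V n f a m m' →
    ∀ (ι : Type) (R : Reps A B (2 * f) ι) (u e a1 a3 : ℂ), GoodQ V (R.L R.i0) u e a1 a3 →
    ∀ (H : ι → Finset ℂ) (i : ι), IsHalf (R.L i) (a : ℂ) (H i) →
    ∀ x : OO A B, x ∉ P →
    ∃ (κ : ℂ) (k : ℤ) (Pq Qr : ℂ[X]), IntP V Pq ∧ IntP V Qr ∧
      V.valuation κ = (V.valuation (2 : ℂ) ^ k) ^ 2 ∧
      ∀ c : OO A B, IsCoprime (c * x) ((m : ℕ) : OO A B) →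
        V.valuation (xu (R.L R.i0) u e (emb c * (R.om R.i0 / m'))) ≤ 1 ∧
        V.valuation (et (R.L R.i0) u (emb c * (R.om R.i0 / m'))) ≤ 1 ∧
        V.valuation (Pq.eval (xu (R.L R.i0) u e (emb c * (R.om R.i0 / m')))) = 1 ∧
        V.valuation (Qr.eval (xu (R.L R.i0) u e (emb c * (R.om R.i0 / m')))) = 1 ∧
        GFib R H m m' i (c * x) * Qr.eval (xu (R.L R.i0) u e (emb c * (R.om R.i0 / m'))) =
          κ * Pq.eval (xu (R.L R.i0) u e (emb c * (R.om R.i0 / m'))) ∧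
        muX R i * emb x * FFib R a m m' i (c * x) / u =
          2 * dlg Pq Qr (xu (R.L R.i0) u e (emb c * (R.om R.i0 / m'))) *
            et (R.L R.i0) u (emb c * (R.om R.i0 / m'))

/-! ## The two estimates -/

/-- (SQR) squares, for products over arbitrary finite families of fibres `(i, x)`. Model: `E_SQR.lean`.

Uses Sd_LAG, Sd_PRD, Sv_COE, Sv_DST, Sd_AUT, Sd_GTA, Sv_CON, Sv_SIG, Sv_NE1, Sv_FIB, Sv_GPO. PROOF. `E_SQR.lean` with `m'` for `m`, `NN n f a` for `2^n f a`, `GFib`, `FFib`. The automorphisms `s_b` with `AutC (idl (m a)) c_b s_b`: `s_b(Θ(pt R m i z)) = Θ(emb c_b pt R m i z) = Θ(pt R m i (c_b z))` (GTA), `c_b (x + m' bb l) = c_b x + m' (c_b bb l)` and `c_b bb l ≡ bb l` modulo 2, so modulo `m`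
`c_b (x + m' bb l) ≡ c_b x + m' bb l`: `s_b(G_(i,x)) = G_(i, c_b x)`. So `P(ξ_b) = κ h(ξ_b)² Q(ξ_b)` for all `b ∈ O`; `S` from (DST (1)): `∏ ≤ v(2)²`, `S'` from (DST (2)) with `Y = emb w0 (a om_0/4)`: `(∏_(S'))^8 ≤ v(2)^(3(d-1))`, `h` is constant on `S'` as `s y = y` by hypothesis. (LAG (4)): `v(P' Q - P Q')^8 ≤ max (v(2)^8 v(2)^(3(d-1))) (v(2)^16) = v(2)^(3 d + 5)`
(`3 d + 5 ≤ 16`), and the sum is `2 dlg P Q (ξ_0) et(Q)`: `v^8 ≤ v(2)^(3 d + 13)`. -/
def Sv_SQR : Prop :=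
  ∀ (A B : ℤ) (P : Ideal (OO A B)) (V : ValuationSubring ℂ) (n f a m m' : ℕ),
    SetV A B P V n f a m m' →
    ∀ (ι : Type) (R : Reps A B (2 * f) ι) (u e a1 a3 : ℂ), GoodQ V (R.L R.i0) u e a1 a3 →
    ∀ (H : ι → Finset ℂ), (∀ i, IsHalf (R.L i) (a : ℂ) (H i)) →
    ∀ (J : Type) [Fintype J] (X : J → Finset (ι × OO A B)) (g : J → ℤ),
      (∀ j, ∀ q ∈ X j, IsCoprime q.2 ((m : ℕ) : OO A B)) →
      (∃ y ∈ RF (idl (A := A) (B := B) m'),
        (∀ (k : ℕ) (s : ℂ ≃+* ℂ),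
          AutC (idl (m * a)) (cc (NN n f a) ((k : OO A B) * w0)) s → s y = y) ∧
        y ^ 2 = ∏ j, (∏ q ∈ X j, GFib R H m m' q.1 q.2) ^ g j) →
      V.valuation ((∑ j, (g j : ℂ) * ∑ q ∈ X j, emb q.2 * muX R q.1 *
        FFib R a m m' q.1 q.2) / u) ^ 8 ≤ V.valuation (2 : ℂ) ^ (3 * dR A + 13)

/-- (ORB) the sum over one orbit of `1 + N w0`. Model: `E_ORB.lean`.

Uses Sd_LAG, Sd_PRD, Sv_COE, Sv_DST, Sv_CON, Sv_NE1, Sv_FIB, Sv_GPO. PROOF. `E_ORB.lean` with `m'`, `GFib`, `FFib`: (1) (GPO) with `c = 1`: the factor 2. (2) `x_k = c_k x`, `c_j x_k ≡ c_(j+k) x` modulo `m'`, `c_4 ≡ 1` modulo `m'` (CON), `G` depends only on the class modulo `m'` (FIB): `∏_k G_(i, c_j x_k)` does not depend on `j < 4`. (DST (2)), (LAG (3)): `v(dlg P Q ξ_0)^8 ≤ v(2)^(3(d-1))`, times 2.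
`emb x_k - emb x = emb x N k emb w0`, `v ≤ v(4)`. -/
def Sv_ORB : Prop :=
  ∀ (A B : ℤ) (P : Ideal (OO A B)) (V : ValuationSubring ℂ) (n f a m m' : ℕ),
    SetV A B P V n f a m m' →
    ∀ (ι : Type) (R : Reps A B (2 * f) ι) (u e a1 a3 : ℂ), GoodQ V (R.L R.i0) u e a1 a3 →
    ∀ (H : ι → Finset ℂ) (i : ι), IsHalf (R.L i) (a : ℂ) (H i) →
    ∀ x : OO A B, IsCoprime x ((m : ℕ) : OO A B) →
      V.valuation (muX R i * FFib R a m m' i x / u) ≤ V.valuation (2 : ℂ) ∧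
      ∀ y : ℕ → OO A B,
        (∀ k < 4, y k - cc (NN n f a) ((k : OO A B) * w0) * x ∈ idl m') →
        V.valuation ((∑ k ∈ Finset.range 4, muX R i * FFib R a m m' i (y k)) / u) ^ 8 ≤
          V.valuation (2 : ℂ) ^ (3 * dR A + 5)

/-! ## The sets `XX` -/

/-- (GLC) the automorphisms `1 + k N w0` and `1 + m' b` are trivial on `D`, and `D ≤ RF (m')`. Model: `E_GLC.lean`.

Uses Sv_CON, `te_GAL`. PROOF. As `E_GLC.lean` (`m' b ∈ (4 f)`). Last part: `y ∈ D`, so `y ∈ RF (m)`; it is fixed by all `σ ∈ Gal(RF (m)/k)` which are trivial on `RF (m')`: extend `σ` to `s ∈ Aut(ℂ)` (`TorX.ext` for `RF m` as a field over `ℚ`), `FixK`; `s` is trivial on `RF (4 f) ≤ RF (m')`; `TorX.act` (`m`): `ActI s (idl m) a' L L' mu`, and for `idl m'`: `TorX.triv`: `a' = sp c`, `c - 1 ∈ (m')`,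
so `c = 1 + m' b`, `s z = z^(nI a') = z` for `z^(2^(n+2)) = 1` (`TorX.zeta`, CON (2)). `InCyc`: `s y = y`. Galois theory: `RF m/k` is Galois, `y` is in the fixed field of `Gal(RF m/RF m')`, which is `RF m'` (see `E_SIG`-type arguments in `Pool/Agent/NS/F_RP1.lean` or `IsGalois.fixedField_fixingSubgroup`). -/
def Sv_GLC : Prop :=
  ∀ (A B : ℤ) (P : Ideal (OO A B)) (V : ValuationSubring ℂ) (n f a m m' : ℕ),
    SetV A B P V n f a m m' →
    ∀ D : IntermediateField ℚ ℂ, InCyc A B f (2 ^ (n + 2)) D →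
    (∀ (k : ℕ) (s : ℂ ≃+* ℂ),
      AutC (idl (m * a)) (cc (NN n f a) ((k : OO A B) * w0)) s → ∀ y ∈ D, s y = y) ∧
    (∀ (b : OO A B) (s : ℂ ≃+* ℂ), AutC (idl (m * a)) (cc m' b) s → ∀ y ∈ D, s y = y) ∧
    ((∀ y ∈ D, y ∈ RF (idl (A := A) (B := B) m)) →
      (∃ L, NL A B L) → ∀ y ∈ D, y ∈ RF (idl (A := A) (B := B) m'))

/-- (XXS) stability of `XX` under `-1` and under `c`. PORT of `Sd_XXS` (`E_XXS.lean`). -/
def Sv_XXS : Prop :=
  ∀ (A B : ℤ) (P : Ideal (OO A B)) (V : ValuationSubring ℂ) (n f a m m' : ℕ),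
    SetV A B P V n f a m m' →
    ∀ (ι : Type) (R : Reps A B (2 * f) ι) (D : IntermediateField ℚ ℂ) (h : kk A B ≤ D),
    letI := algC h
    ∀ (τ : D ≃ₐ[kk A B] D), ∀ q ∈ XX R m h τ, (q.1, -q.2) ∈ XX R m h τ ∧
      ∀ (c : OO A B) (s : ℂ ≃+* ℂ), IsCoprime c ((m : ℕ) : OO A B) → AutC (idl (m * a)) c s →
        (∀ y ∈ D, s y = y) →
          (q.1, Ideal.Quotient.mk (idl (A := A) (B := B) m) c * q.2) ∈ XX R m h τ

/-- (HEQ) sums and products of even functions over half systems. PORT of `Sd_HEQ` (`E_HEQ.lean`). Uses Sv_XXS. -/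
def Sv_HEQ : Prop :=
  ∀ (A B : ℤ) (P : Ideal (OO A B)) (V : ValuationSubring ℂ) (n f a m m' : ℕ),
    SetV A B P V n f a m m' →
    ∀ (ι : Type) (R : Reps A B (2 * f) ι) (D : IntermediateField ℚ ℂ) (h : kk A B ≤ D),
    letI := algC h
    ∀ (τ : D ≃ₐ[kk A B] D) (S : Finset (ι × (OO A B ⧸ idl (A := A) (B := B) m))),
      HalfS R m h τ S → ∀ F : ι × (OO A B ⧸ idl (A := A) (B := B) m) → ℂ,
      (∀ q ∈ XX R m h τ, F (q.1, -q.2) = F q) →
      (∀ S', HalfS R m h τ S' → ∏ q ∈ S, F q = ∏ q ∈ S', F q) ∧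
      ∑ᶠ q ∈ XX R m h τ, F q = 2 * ∑ q ∈ S, F q

/-- (HAL) half systems which are stable under `1 + N w0` and under the translations by `m' b`. Model: `E_HAL.lean`.

Uses Sv_CON, Sv_XXS. PROOF. `S = {q ∈ XX : j(r(q.2)) < j(-r(q.2))}` as in `E_HAL.lean`, `r` the class modulo `f` (`f` divides `c - 1` and `m'`); `(q.1, q.2 + m' b) ∈ XX` by hypothesis. -/
def Sv_HAL : Prop :=
  ∀ (A B : ℤ) (P : Ideal (OO A B)) (V : ValuationSubring ℂ) (n f a m m' : ℕ),
    SetV A B P V n f a m m' →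
    ∀ (ι : Type) [Finite ι] (R : Reps A B (2 * f) ι) (D : IntermediateField ℚ ℂ)
      (h : kk A B ≤ D),
    letI := algC h
    ∀ (τ : D ≃ₐ[kk A B] D),
      (∀ q ∈ XX R m h τ, (q.1, Ideal.Quotient.mk (idl (A := A) (B := B) m) (cc (NN n f a) w0) *
        q.2) ∈ XX R m h τ) →
      (∀ q ∈ XX R m h τ, ∀ b : OO A B, (q.1, q.2 +
        Ideal.Quotient.mk (idl (A := A) (B := B) m) ((m' : OO A B) * b)) ∈ XX R m h τ) →
      ∃ S : Finset (ι × (OO A B ⧸ idl (A := A) (B := B) m)), HalfS R m h τ S ∧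
        (∀ q ∈ S, (q.1, Ideal.Quotient.mk (idl (A := A) (B := B) m) (cc (NN n f a) w0) * q.2) ∈ S) ∧
        ∀ q ∈ S, ∀ b : OO A B, (q.1, q.2 +
          Ideal.Quotient.mk (idl (A := A) (B := B) m) ((m' : OO A B) * b)) ∈ S

/-- (COS) a stable set is a union of orbits of 16 elements.

Uses Sv_CON. PROOF. `c_k = cc N (k w0)`. Strong induction on the number of elements of `S`: if `S` is not empty take `q ∈ S`, `x = out q.2` (prime to `m` by hypothesis). The 16 elements `q_(k,l) = (q.1, mk (c_k x + m' bb l))`, `k, l < 4`, are in `S`: `(q.1, mk c_1 ^ k * q.2) ∈ S` by induction, `c_1^k ≡ c_k` modulo `m` (CON (3), induction), and the translations. They are different: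
`c_k x + m' bb l ≡ c_k' x + m' bb l'` modulo `m`; modulo `m'`: `c_k x ≡ c_k' x`; if `k ≠ k'`, say `k < k'`: multiply by `c_(4-k)`: `c_4 x ≡ c_(4 + k' - k) x`, `x ≡ c_(k'-k) x` modulo `m'` (CON (3), (4)), and doubling (multiply by `c_(k'-k)`) `x ≡ c_(2(k'-k)) x` gives for odd `k' - k` again `x ≡ c_2 x` (use `c_4 ≡ 1`), and for `k' - k = 2` directly: contradiction to CON (5).
So `k = k'` and `m' (bb l - bb l') ∈ (m)`, `2 ∣ bb l - bb l'`, `l = l'`. Let `S' = S` without these 16 elements; it is stable: the map `q ↦ (q.1, mk c_1 * q.2)` is injective on `S` and maps the 16 elements onto themselves (`c_1 c_k ≡ c_(k+1)`, `c_1 m' bb l ≡ m' bb l` modulo `m`, `c_4 x ≡ x + m' (a w0 x)` is in the set with `k = 0`), and the translations are permutations with inverse `-b`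
(`b + bb l ≡ bb l'` modulo 2). `T` = the one for `S'`, together with `(q.1, x)`. -/
def Sv_COS : Prop :=
  ∀ (A B : ℤ) (P : Ideal (OO A B)) (V : ValuationSubring ℂ) (n f a m m' : ℕ),
    SetV A B P V n f a m m' →
    ∀ (ι : Type) (S : Finset (ι × (OO A B ⧸ idl (A := A) (B := B) m))),
      (∀ q ∈ S, IsCoprime (Quotient.out q.2 : OO A B) ((m : ℕ) : OO A B)) →
      (∀ q ∈ S, (q.1, Ideal.Quotient.mk (idl (A := A) (B := B) m) (cc (NN n f a) w0) * q.2) ∈ S) →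
      (∀ q ∈ S, ∀ b : OO A B, (q.1, q.2 +
        Ideal.Quotient.mk (idl (A := A) (B := B) m) ((m' : OO A B) * b)) ∈ S) →
      ∃ T : Finset (ι × OO A B), (∀ t ∈ T, IsCoprime t.2 ((m : ℕ) : OO A B)) ∧
        (∀ F : ι × (OO A B ⧸ idl (A := A) (B := B) m) → ℂ, ∑ q ∈ S, F q =
          ∑ t ∈ T, ∑ k ∈ Finset.range 4, ∑ l ∈ Finset.range 4,
            F (t.1, Ideal.Quotient.mk _ (cc (NN n f a) ((k : OO A B) * w0) * t.2 +
              (m' : OO A B) * bb l))) ∧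
        ∀ F : ι × (OO A B ⧸ idl (A := A) (B := B) m) → ℂ, ∏ q ∈ S, F q =
          ∏ t ∈ T, ∏ k ∈ Finset.range 4, ∏ l ∈ Finset.range 4,
            F (t.1, Ideal.Quotient.mk _ (cc (NN n f a) ((k : OO A B) * w0) * t.2 +
              (m' : OO A B) * bb l))

/-- (MAIN) both estimates for families of sets of pairs which are stable under `c = 1 + N w0` and the translations by `m' b`. Model: `E_MAIN.lean`.

Uses Sv_CON, Sv_SQR, Sv_ORB, Sv_COS, Sv_FIB. PROOF. `c_k = cc N (k w0)`, `T_j` from (COS). `F q = om(out q.2) muX dlX(..)/u`; for `q = (i, mk y)`: `out ≡ y` modulo `m`, so `om(out) = om y` (`OddQ.per`, `2 f ∣ m`) and `dlX(pt R m i out) = dlX(pt R m i y)` (periodic: `b_TDL`/`ee`, `te_PT`; the same for `Θ`); for `y = c_k t.2 + m' bb l`: `om y = om t.2` (`2 f ∣ m'`, `c_k - 1 ∈ (4 f)`).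
So the sum over the orbit of `t` is `om(t.2) Σ_k muX FFib(c_k t.2)/u`. `v(om x)  ≤ 1`. (i) (ORB (2)). (ii) (SQR) for `X j = {(t.1, c_k t.2) : t ∈ T_j, k < 4}` (injective by the argument in (COS); or write the product over `T_j × range 4` and use (SQR) with `J' = J × Fin 4`, `X (j, k) = {(t.1, c_k t.2) : t ∈ T_j}`, where `t ↦ (t.1, c_k t.2)` is injective: `c_k ≠ 0`, `O` a domain):
`v(Σ g_j Σ_q emb(q.2) E q)^8 ≤ v(2)^(3d+13)`, `E q = muX FFib/u`, `v(E q) ≤ v 2` (ORB (1)). The difference to the claim is `Σ_j g_j Σ_(t ∈ T_j) D_t`, `D_t = (om(x) - emb(x)) Σ_k E(c_k x) - Σ_k (emb(c_k x) - emb x) E(c_k x)`, `x = t.2`: `v(om x - emb x)² ≤ v 2` (`OddQ.cong`; `x - 1 ∈ P`, `pw`), so the first term has `v^8 ≤ v(2)^4 v(2)^(3d+5)`;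
the second `v ≤ v(4) v(2)`, `v^8 ≤ v(2)^24`. -/
def Sv_MAIN : Prop :=
  ∀ (A B : ℤ) (P : Ideal (OO A B)) (V : ValuationSubring ℂ) (n f a m m' : ℕ),
    SetV A B P V n f a m m' →
    ∀ (ι : Type) (R : Reps A B (2 * f) ι) (u e a1 a3 : ℂ), GoodQ V (R.L R.i0) u e a1 a3 →
    ∀ (H : ι → Finset ℂ), (∀ i, IsHalf (R.L i) (a : ℂ) (H i)) →
    ∀ om : OO A B → ℂ, OddQ f V om →
    ∀ (J : Type) [Fintype J] (S : J → Finset (ι × (OO A B ⧸ idl (A := A) (B := B) m))),
      (∀ j, ∀ q ∈ S j, IsCoprime (Quotient.out q.2 : OO A B) ((m : ℕ) : OO A B)) →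
      (∀ j, ∀ q ∈ S j,
        (q.1, Ideal.Quotient.mk (idl (A := A) (B := B) m) (cc (NN n f a) w0) * q.2) ∈ S j) →
      (∀ j, ∀ q ∈ S j, ∀ b : OO A B, (q.1, q.2 +
        Ideal.Quotient.mk (idl (A := A) (B := B) m) ((m' : OO A B) * b)) ∈ S j) →
      (∀ j, V.valuation ((∑ q ∈ S j, om (Quotient.out q.2) * muX R q.1 *
        dlX (R.L q.1) a (pt R m q.1 (Quotient.out q.2))) / u) ^ 8 ≤
          V.valuation (2 : ℂ) ^ (3 * dR A + 5)) ∧
      ∀ g : J → ℤ,
        (∃ y ∈ RF (idl (A := A) (B := B) m'),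
          (∀ (k : ℕ) (s : ℂ ≃+* ℂ),
            AutC (idl (m * a)) (cc (NN n f a) ((k : OO A B) * w0)) s → s y = y) ∧
          y ^ 2 = ∏ j, (∏ q ∈ S j,
            ThetaH (R.L q.1) (H q.1) (pt R m q.1 (Quotient.out q.2))) ^ g j) →
        V.valuation ((∑ j, (g j : ℂ) * ∑ q ∈ S j, om (Quotient.out q.2) * muX R q.1 *
          dlX (R.L q.1) a (pt R m q.1 (Quotient.out q.2))) / u) ^ 8 ≤
            V.valuation (2 : ℂ) ^ (3 * dR A + 9)

/-- (FIN) the final form. Model: `E_FIN.lean`.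

The second hypothesis is the second part of `Sr_VL2` (proved: `Pool.Agent.N2R.tr_VL2`).

Uses Sv_CTX, Sd_AUT, Sv_CON, Sv_GLC, Sv_XXS, Sv_HEQ, Sv_HAL, Sv_MAIN. PROOF. `m = lvX 2 f n = f * 4 * 2^n = 2^(n+2) f`, `m' = 2^(n+1) f`, `a = aX 2 f = 1 + 8 f`, `f ≥ 3`, `3 ∣ f`, `SetV` (CTX). (GLC): the automorphisms `c_1` and `1 + m' b` are trivial on `D`, `D ≤ RF (m')`. Stability of `XX` under `c_1`: (AUT), (XXS). Under translations: `q ∈ XX`, `b`: `x = out q.2` is prime to 2,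
so there is `b'` with `b' x ≡ b` modulo 2 (`IsCoprime`), `c = cc m' b'`: `mk c * q.2 = q.2 + mk (m' b)` (`m = 2 m'`), `c` is prime to `m a`.. (`c ≡ 1` modulo `m'`; prime to `a`: replace `b'` by `b' a a'`, `a a' ≡ 1` modulo 2; then `c ≡ 1` modulo `m' a`). (HAL): stable half systems `S τ`. `C τ = ∏_(q ∈ S τ) Θ` (HEQ). `TT2 = 1/2 · 2 Σ_(q ∈ S τ) om muX dlX` (HEQ). First claim: (MAIN (i)):
`v^8 ≤ v(2)^(3d+5) ≤ v(2)^(4d+2)` (`3 d + 5 ≥ 4 d + 2` as `d ≤ 3`), take square roots (`pow_le_pow_left₀` for squares: `(v^4)² ≤ (v(2)^(2d+1))²`). Second claim: as in `E_FIN.lean`, (MAIN (ii)): `v^8 ≤ v(2)^(3d+9) ≤ v(2)^(4d+6)`. -/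
def Sv_FIN : Prop :=
  SQ_RFIN →
  (∀ (A B : ℤ) (V : ValuationSubring ℂ) (P : Ideal (OO A B)), CQ A B → (2 : ℤ) ∣ B ^ 2 + 4 * A →
    OverI V P → ((2 : ℕ) : OO A B) ∈ P → TorX A B →
    ∀ f : ℕ, Odd f → ∀ y ∈ RF (idl (A := A) (B := B) f), y ≠ 0 →
      ∃ k : ℤ, V.valuation y ^ 2 = V.valuation (2 : ℂ) ^ k) → SQ_EFIN

end

end Pool.Agent.N2V


end

section

/-!
# MUX-2R, block ER2, module XXS: stability of the sets `XX` (helper72)

Port of `Pool/Agent/N2/E_XXS.lean` (helper96).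
-/

set_option autoImplicit false

namespace Pool.Agent.N2V

open _root_.MU3 _root_.Pool.Agent.MU3A _root_.Pool.Agent.MU3B _root_.Pool.Agent.MUX _root_.Pool.Agent.MUXU _root_.Pool.Agent.MUXE
open _root_.Pool.Agent.RI _root_.Pool.Agent.NS _root_.Pool.Agent.N2
open _root_.Pool.Agent.N2E (AutC)
open _root_.Pool.Agent.N2E.XXS (pt_cong pt_mul cop_of)

noncomputable section

/-- (XXS) stability of `XX` under `-1` and under `c` -/
theorem tv_XXS : Sv_XXS := by
  intro A B P V n f a m m' hS ι R D h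
  letI := algC h
  intro τ q hq
  have hr := hS.ctx.ring
  have hf : f ≠ 0 := by have := hS.f3; omega
  have hm0 : m ≠ 0 := by rw [hS.hm]; positivity
  have h2f : 2 * f ≠ 0 := by omega
  have hNL : NL A B (R.L q.1) := ⟨R.b q.1, R.om q.1, R.nl q.1⟩
  obtain ⟨t1, -, t3, -, t5, -, -, -, t9⟩ := te_TRA A B hr (R.L q.1) hNL
  obtain ⟨φ, hφ⟩ := hr.hom
  obtain ⟨a1, σ, a2, a3, ⟨a4, a5, a6⟩⟩ := hq
  refine ⟨?_, ?_⟩
  · -- `-1`
    have hmk : -(Quotient.out q.2 : OO A B) - Quotient.out (-q.2) ∈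
        idl (A := A) (B := B) m := by
      rw [← Ideal.Quotient.eq_zero_iff_mem, map_sub, map_neg, Ideal.Quotient.mk_out,
        Ideal.Quotient.mk_out]
      exact sub_self _
    refine ⟨cop_of a1.neg_left hmk, σ, a2, a3, a4, ?_⟩
    have e1 := pt_cong hr R h2f q.1 hm0 hmk
    have e2 : pt R m q.1 (-(Quotient.out q.2 : OO A B)) = -pt R m q.1 (Quotient.out q.2) := by
      unfold pt
      rw [← hφ, ← hφ, map_neg]
      ring
    rw [e2] at e1
    have hnz : -(pt R m q.1 (Quotient.out q.2 : OO A B)) ∉ (R.L q.1).lattice :=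
      fun h => a6 (by simpa using neg_mem h)
    obtain ⟨b1, b2⟩ := t9 _ _ e1
    obtain ⟨c1, -, c3⟩ := b2 hnz
    refine ⟨?_, fun h => hnz (b1.2 h)⟩
    rw [a5, ← c1, ← c3, neg_neg]
  · intro c s hc hs hsD
    have hmk : c * (Quotient.out q.2 : OO A B) -
        Quotient.out (Ideal.Quotient.mk (idl (A := A) (B := B) m) c * q.2) ∈
        idl (A := A) (B := B) m := by
      rw [← Ideal.Quotient.eq_zero_iff_mem, map_sub, map_mul, Ideal.Quotient.mk_out,
        Ideal.Quotient.mk_out]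
      exact sub_self _
    refine ⟨cop_of (hc.mul_left a1) hmk, σ.trans s, ?_, ?_, ?_, ?_⟩
    · show s (σ (wC A B)) = wC A B
      rw [show σ (wC A B) = wC A B from a2]
      exact hs.fix
    · intro y
      show s (σ (y : ℂ)) = _
      rw [a3 y]
      exact hsD _ (τ y).2
    · show kap (R.L q.1) = s (σ (kap (R.L R.i0)))
      rw [← a4]
      exact (hs.kap _ hNL).symm
    · have hma : Tor (idl (A := A) (B := B) (m * a)) (R.L q.1)
          (pt R m q.1 (Quotient.out q.2 : OO A B)) := by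
        rw [show idl (A := A) (B := B) (m * a) = sp ((m * a : ℕ) : OO A B) from rfl, t5]
        have e3 : emb ((m * a : ℕ) : OO A B) = (a : ℂ) * m := by
          rw [← hφ, map_natCast]
          push_cast
          ring
        rw [e3, mul_assoc]
        have h7 := nsmul_mem (pt_mul hr R h2f q.1 hm0 (Quotient.out q.2 : OO A B)) a
        rwa [nsmul_eq_mul] at h7
      obtain ⟨d1, d2⟩ := hs.xn _ hNL _ hma a6
      have e1 := pt_cong hr R h2f q.1 hm0 hmk
      have e2 : pt R m q.1 (c * (Quotient.out q.2 : OO A B)) =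
          emb c * pt R m q.1 (Quotient.out q.2) := by
        unfold pt
        rw [← hφ, ← hφ, ← hφ, map_mul]
        ring
      rw [e2] at e1
      obtain ⟨b1, b2⟩ := t9 _ _ e1
      obtain ⟨c1, -, -⟩ := b2 d1
      refine ⟨?_, fun h => d1 (b1.2 h)⟩
      show s (σ (xn (R.L R.i0) (pt R m R.i0 1))) = _
      rw [a5, d2, c1]

end

end Pool.Agent.N2V


end

section

/-!
# MUX-2R, block ER2: module GLC, the automorphisms `1 + k N w0` and `1 + m' b` are trivial on `D`,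
and `D ≤ RF (m')` (helper64)
-/

set_option autoImplicit false

open Polynomial

namespace Pool.Agent.N2V

open _root_.MU3 _root_.Pool.Agent.MU3A _root_.Pool.Agent.MU3B _root_.Pool.Agent.MUX _root_.Pool.Agent.MUXU _root_.Pool.Agent.MUXE
open _root_.Pool.Agent.RI _root_.Pool.Agent.NS _root_.Pool.Agent.N2
open _root_.Pool.Agent.NSE (IntP)
open _root_.Pool.Agent.MUX2 (GRG)
open _root_.Pool.Agent.MUXV (InK tX)
open _root_.Pool.Agent.N2E (dlg AutC cc)

noncomputable section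

namespace GLC

lemma idl_le {A B : ℤ} {m n : ℕ} (h : n ∣ m) :
    idl (A := A) (B := B) m ≤ idl (A := A) (B := B) n := by
  obtain ⟨c, rfl⟩ := h
  rw [Ideal.span_singleton_le_span_singleton]
  exact ⟨(c : OO A B), by push_cast; ring⟩

lemma lv4 (f : ℕ) : lvX 2 f 0 = 4 * f := by
  unfold lvX q0
  norm_num
  ring

end GLC

/-- GLC. -/
theorem tv_GLC (h1 : Sv_CON) : Sv_GLC := by
  intro A B P V n f a m m' hE D hD
  obtain ⟨c1, ⟨c2, c2'⟩, -⟩ := h1 A B P V n f a m m' hE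
  have hm := hE.hm
  have hm' := hE.hm'
  have hp : 2 ^ (n + 2) ≠ 0 := pow_ne_zero _ two_ne_zero
  have hone : ∀ (j : ℕ) (z : ℂ), z ^ 2 ^ (n + 2) = 1 → z ^ (1 + 2 ^ (n + 2) * j) = z := by
    intro j z hz
    rw [pow_add, pow_one, pow_mul, hz, one_pow, mul_one]
  have d4 : 4 * f ∣ m' := ⟨2 ^ (n - 1), by
    obtain ⟨n', rfl⟩ : ∃ n', n = n' + 1 := ⟨n - 1, by have := hE.n5; omega⟩
    rw [hm']
    simp only [Nat.add_sub_cancel]
    ring⟩
  have dm : m' ∣ m := ⟨2, by rw [hm, hm']; ring⟩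
  have dma : 4 * f ∣ m * a := (d4.trans dm).trans (dvd_mul_right _ _)
  have dz : 2 ^ (n + 2) ∣ m * a := ⟨f * a, by rw [hm]; ring⟩
  have hb4 : ∀ b : OO A B, cc m' b - 1 ∈ idl (A := A) (B := B) (4 * f) := by
    intro b
    have e1 : cc m' b - 1 = (m' : OO A B) * b := by
      unfold cc
      ring
    rw [e1]
    exact Ideal.mul_mem_right _ _ (GLC.idl_le d4 (Ideal.mem_span_singleton_self _))
  refine ⟨?_, ?_, ?_⟩
  · intro k s hs y hy
    obtain ⟨-, -, -, -, c4, -⟩ := c1 ((k : OO A B) * w0)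
    obtain ⟨j, hj⟩ := c2 k
    refine hD s hs.fix ?_ ?_ y hy
    · refine hs.triv (idl (lvX 2 f 0)) (GLC.idl_le ?_) ?_
      · rw [GLC.lv4]; exact dma
      · rw [GLC.lv4]; exact c4
    · intro z hz
      rw [hs.zeta (2 ^ (n + 2)) hp (GLC.idl_le dz) z hz, hj]
      exact hone j z hz
  · intro b s hs y hy
    obtain ⟨j, hj⟩ := c2' b
    refine hD s hs.fix ?_ ?_ y hy
    · refine hs.triv (idl (lvX 2 f 0)) (GLC.idl_le ?_) ?_
      · rw [GLC.lv4]; exact dma
      · rw [GLC.lv4]; exact hb4 b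
    · intro z hz
      rw [hs.zeta (2 ^ (n + 2)) hp (GLC.idl_le dz) z hz, hj]
      exact hone j z hz
  · intro hDm hNL y hy
    have T := hE.tor
    have hR := hE.ctx.ring
    obtain ⟨φ, hφ⟩ := hR.hom
    have hn0 : ∀ n : ℕ, n ≠ 0 → idl (A := A) (B := B) n ≠ ⊥ := by
      intro n hn h0
      have h4 : ((n : ℕ) : OO A B) ∈ idl (A := A) (B := B) n := Ideal.mem_span_singleton_self _
      rw [h0, Ideal.mem_bot] at h4
      have h5 : φ ((n : ℕ) : OO A B) = ((n : ℕ) : ℂ) := map_natCast φ _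
      rw [h4, map_zero] at h5
      exact hn (by exact_mod_cast h5.symm)
    have hf0 : f ≠ 0 := by have := hE.f3; omega
    have hm0 : m ≠ 0 := by rw [hm]; exact mul_ne_zero hp hf0
    have hm'0 : m' ≠ 0 := by rw [hm']; exact mul_ne_zero (pow_ne_zero _ two_ne_zero) hf0
    have i0 := hn0 m hm0
    have i0' := hn0 m' hm'0
    have hmm : idl (A := A) (B := B) m ≤ idl (A := A) (B := B) m' := GLC.idl_le dm
    have hF : RF (idl (A := A) (B := B) m') ≤ RF (idl (A := A) (B := B) m) :=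
      T.mono _ _ hmm
    haveI := T.fin _ i0
    haveI := T.gal _ i0
    set E : IntermediateField (kk A B) (RF (idl (A := A) (B := B) m)) :=
      IntermediateField.restrict hF with hEd
    have key : (⟨y, hDm y hy⟩ : RF (idl (A := A) (B := B) m)) ∈ E := by
      rw [← IsGalois.fixedField_fixingSubgroup E, IntermediateField.mem_fixedField_iff]
      intro σ hσ
      obtain ⟨s, hs, hs1⟩ := Pool.Agent.MUXE.GalX.extd T i0 (_root_.Pool.Agent.MU3A.em σ)
      have htr : ∀ x ∈ RF (idl (A := A) (B := B) m'), s x = x := by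
        intro x hx
        have hx' := hF hx
        have h4 : (⟨x, hx'⟩ : RF (idl (A := A) (B := B) m)) ∈ E :=
          (IntermediateField.mem_restrict hF _).2 hx
        have h5 := (IntermediateField.mem_fixingSubgroup_iff E _).1 hσ ⟨x, hx'⟩ h4
        rw [← hs1 ⟨x, hx'⟩]
        exact congrArg Subtype.val h5
      obtain ⟨L, b₀, om, hL⟩ := hNL
      obtain ⟨c, ha, ha'⟩ := T.act _ i0 s hs
      obtain ⟨b', L', om', mu, hL', hA⟩ := ha' b₀ L om hL
      have hA' : ActI s (idl (A := A) (B := B) m') c L L' mu := by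
        refine ⟨hA.kap, ?_, hA.isq, fun z hz => hA.act z fun x hx => hz x (hmm hx)⟩
        rw [Ideal.isCoprime_iff_sup_eq] at ha ⊢
        rw [eq_top_iff, ← ha]
        exact sup_le_sup_left hmm c
      obtain ⟨x, hx1, hx⟩ := (T.triv _ c s b₀ L L' om mu i0' hs hL hA' hL'.nrm).1 htr
      obtain ⟨b, hb⟩ := Ideal.mem_span_singleton'.1 hx1
      have hxc : x = cc m' b := by
        unfold cc
        linear_combination -hb
      obtain ⟨j, hj⟩ := c2' b
      have hsy : s y = y := by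
        refine hD s hs ?_ ?_ y hy
        · intro x hx
          refine htr x (T.mono _ _ (GLC.idl_le ?_) hx)
          rw [GLC.lv4]
          exact d4
        · intro z hz
          have h6 := (T.zeta (2 ^ (n + 2)) _ c s b₀ L L' om mu i0 hs hp
            (GLC.idl_le (dvd_trans ⟨f, by rw [hm]⟩ dvd_rfl)) hL hA z hz).2
          rw [h6, hx, hxc, hj]
          exact hone j z hz
      apply Subtype.ext
      show _root_.Pool.Agent.MU3A.em σ ⟨y, hDm y hy⟩ = y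
      rw [hs1]
      exact hsy
    exact (IntermediateField.mem_restrict hF _).1 key

end

end Pool.Agent.N2V


end

section

/-!
# MUX-2R, block ER2, module NE1: the points that occur are not in the kernel of reduction
-/

set_option autoImplicit false

namespace Pool.Agent.N2V

open _root_.MU3 _root_.Pool.Agent.MU3A _root_.Pool.Agent.MU3B _root_.Pool.Agent.MUX _root_.Pool.Agent.MUXU _root_.Pool.Agent.MUXE
open _root_.Pool.Agent.RI _root_.Pool.Agent.NS _root_.Pool.Agent.N2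
open _root_.Pool.Agent.MUX2 (GRG gInK_nat)
open _root_.Pool.Agent.MUXV (InK tX)

noncomputable section

namespace NE1

lemma _root_.Pool.Agent.N2V.NE1.nat_mul_mem {L : PeriodPair} (c : ℕ) {w : ℂ} (hw : w ∈ L.lattice) :
    (c : ℂ) * w ∈ L.lattice := by
  have h := L.lattice.smul_mem (c : ℤ) hw
  simpa using h

end NE1

open _root_.Pool.Agent.N2V.NE1 in
/-- NE1. -/
theorem tv_NE1 (h1 : Sv_GRT) : Sv_NE1 := by
  intro V L u e a1 a3 hg hv j f a hf hpf hpa hco z hz hord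
  obtain ⟨⟨ξ, hG⟩, htor⟩ := h1 V L u e a1 a3 hg hv
  have hp : Nat.Prime 2 := Nat.prime_two
  have hcf : ∀ k : ℕ, f.Coprime (2 ^ k) := fun k =>
    Nat.Coprime.pow_right k ((Nat.Prime.coprime_iff_not_dvd hp).2 hpf).symm
  have hno : ∀ k : ℕ, k ≤ j → ((a * 2 ^ k : ℕ) : ℂ) * z ∉ L.lattice := by
    intro k hk hmem
    have h4 : f ∣ a * 2 ^ k := hord _ hmem
    have h6 : f ∣ a := (hcf k).dvd_of_dvd_mul_right h4
    have h7 : f = 1 := Nat.Coprime.eq_one_of_dvd hco.symm h6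
    omega
  have hfa : ¬ 2 ∣ f * a := by
    rw [hp.dvd_mul]
    rintro (h | h)
    · exact hpf h
    · exact hpa h
  have key : ∀ q : ℂ, (a : ℂ) * q ∈ L.lattice → ¬ InK V L (xu L u e) (z + q) := by
    intro q hq hE
    have hE' := gInK_nat hG hE (2 ^ j)
    have hmem : ((f * a : ℕ) : ℂ) * (((2 ^ j : ℕ) : ℂ) * (z + q)) ∈ L.lattice := by
      have h3 := add_mem (_root_.Pool.Agent.N2V.NE1.nat_mul_mem a hz) (_root_.Pool.Agent.N2V.NE1.nat_mul_mem (2 ^ j * f) hq)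
      have h4 : ((f * a : ℕ) : ℂ) * (((2 ^ j : ℕ) : ℂ) * (z + q)) =
          (a : ℂ) * (((2 ^ j * f : ℕ) : ℂ) * z) + ((2 ^ j * f : ℕ) : ℂ) * ((a : ℂ) * q) := by
        push_cast
        ring
      rw [h4]
      exact h3
    have hz' := (htor _ hfa).2 _ hmem hE'
    have h5 := sub_mem (_root_.Pool.Agent.N2V.NE1.nat_mul_mem a hz') (_root_.Pool.Agent.N2V.NE1.nat_mul_mem (2 ^ j) hq)
    refine hno j le_rfl ?_
    have h6 : ((a * 2 ^ j : ℕ) : ℂ) * z =
        (a : ℂ) * (((2 ^ j : ℕ) : ℂ) * (z + q)) - ((2 ^ j : ℕ) : ℂ) * ((a : ℂ) * q) := by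
      push_cast
      ring
    rw [h6]
    exact h5
  refine ⟨?_, ?_, ?_, ?_⟩
  · have h3 := key 0 (by rw [mul_zero]; exact zero_mem _)
    rwa [add_zero] at h3
  · intro hE
    have hE' := gInK_nat hG hE (2 ^ j)
    have hmem : ((f : ℕ) : ℂ) * (((2 ^ j : ℕ) : ℂ) * (2 * z)) ∈ L.lattice := by
      have h3 := _root_.Pool.Agent.N2V.NE1.nat_mul_mem 2 hz
      have h4 : ((f : ℕ) : ℂ) * (((2 ^ j : ℕ) : ℂ) * (2 * z)) =
          ((2 : ℕ) : ℂ) * (((2 ^ j * f : ℕ) : ℂ) * z) := by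
        push_cast
        ring
      rw [h4]
      exact h3
    have h5 := (htor _ hpf).2 _ hmem hE'
    have h6 : ((2 ^ (j + 1) : ℕ) : ℂ) * z ∈ L.lattice := by
      have h7 : ((2 ^ (j + 1) : ℕ) : ℂ) * z = ((2 ^ j : ℕ) : ℂ) * (2 * z) := by
        push_cast
        ring
      rw [h7]
      exact h5
    have h8 : f ∣ 2 ^ (j + 1) := hord _ h6
    have h9 : f = 1 := Nat.Coprime.eq_one_of_dvd (hcf (j + 1)) h8
    omega
  · have h3 := hno 0 (Nat.zero_le _)
    rwa [pow_zero, mul_one] at h3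
  · intro q hq hqL
    refine ⟨?_, key q hq, ?_⟩
    · intro hE
      exact hqL ((htor a hpa).2 _ hq hE)
    · rw [sub_eq_add_neg]
      refine key (-q) ?_
      rw [mul_neg]
      exact neg_mem hq

end

end Pool.Agent.N2V


end

section

/-!
# MUX-2R, block ER2, module UNT (helper84): the multiplier of an isogeny of odd degree is a unit

Model: `Pool/Agent/N2/E_UNT.lean` (helper76), `Pool/Agent/NS/E_UNT.lean` (helper48).
-/

set_option autoImplicit false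

open Polynomial

namespace Pool.Agent.N2V

open _root_.MU3 _root_.Pool.Agent.MU3A _root_.Pool.Agent.MU3B _root_.Pool.Agent.MUX _root_.Pool.Agent.MUXU _root_.Pool.Agent.MUXE
open _root_.Pool.Agent.RI _root_.Pool.Agent.NS _root_.Pool.Agent.N2
open _root_.Pool.Agent.NSE (IntP)
open _root_.Pool.Agent.MUX2 (GRG)
open _root_.Pool.Agent.MUXV (InK tX)

noncomputable section

namespace UNT

theorem _root_.Pool.Agent.N2V.UNT.frac (L : PeriodPair) (a : ℤ) (b : ℕ) (hb : b ≠ 0)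
    (hm : (a : ℂ) * (L.ω₁ / b) ∈ L.lattice) : (b : ℤ) ∣ a := by
  have e : (a : ℂ) * (L.ω₁ / b) = ((a / b : ℚ) : ℂ) * L.ω₁ + ((0 : ℚ) : ℂ) * L.ω₂ := by
    push_cast
    ring
  rw [e, PeriodPair.mul_ω₁_add_mul_ω₂_mem_lattice] at hm
  have h1 : ((((a / b : ℚ)).num : ℤ) : ℚ) = (a / b : ℚ) := (Rat.den_eq_one_iff _).1 hm.1
  have hb' : (b : ℚ) ≠ 0 := by exact_mod_cast hb
  refine ⟨((a / b : ℚ)).num, ?_⟩
  have h2 : (a : ℚ) = b * ((((a / b : ℚ)).num : ℤ) : ℚ) := by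
    rw [h1]
    field_simp
  exact_mod_cast h2

/-- multiples by integers -/
theorem _root_.Pool.Agent.N2V.UNT.zmul (L : PeriodPair) (n : ℤ) {z : ℂ} (hz : z ∈ L.lattice) : (n : ℂ) * z ∈ L.lattice := by
  rw [← zsmul_eq_mul]
  exact zsmul_mem hz n

end UNT

open _root_.Pool.Agent.N2V.UNT in
theorem tv_UNT (h2 : Sv_GRT) : Sv_UNT := by
  intro V L M u e a1 a3 u' e' a1' a3' μ hI0
  have hL := hI0.gL
  have hM := hI0.gM
  have hv3 := hI0.v2
  have hμ := hI0.mu0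
  have hI := hI0.isg
  obtain ⟨N, hN3, hN⟩ := hI0.odd
  obtain ⟨⟨ξ, grL⟩, tL⟩ := h2 V L u e a1 a3 hL hv3
  obtain ⟨⟨ξ', grM⟩, tM⟩ := h2 V M u' e' a1' a3' hM hv3
  have hN0 : N ≠ 0 := by
    rintro rfl
    exact hN3 (dvd_zero 2)
  obtain ⟨⟨R, hR⟩, -⟩ := u_BAC.2 L M μ hμ hI
  -- the two primes
  obtain ⟨l, hl1, hl⟩ := Nat.exists_infinite_primes (3 * N + 1)
  obtain ⟨l', hl1', hl'⟩ := Nat.exists_infinite_primes (l + 1)
  have hNpos : 0 < N := Nat.pos_of_ne_zero hN0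
  have hll : l ≠ l' := by omega
  have h3l : ¬ 2 ∣ l := by
    intro h
    have := (Nat.prime_dvd_prime_iff_eq Nat.prime_two hl).1 h
    omega
  have h3l' : ¬ 2 ∣ l' := by
    intro h
    have := (Nat.prime_dvd_prime_iff_eq Nat.prime_two hl').1 h
    omega
  have hlN : ¬ l ∣ N := fun h => by
    have := Nat.le_of_dvd hNpos h
    omega
  have hlN' : ¬ l' ∣ N := fun h => by
    have := Nat.le_of_dvd hNpos h
    omega
  have h3n : ¬ 2 ∣ N * l * l' := by
    intro h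
    rcases Nat.prime_two.dvd_mul.1 h with h | h
    · rcases Nat.prime_two.dvd_mul.1 h with h | h
      · exact hN3 h
      · exact h3l h
    · exact h3l' h
  have h3m : ¬ 2 ∣ l * l' := by
    intro h
    rcases Nat.prime_two.dvd_mul.1 h with h | h
    · exact h3l h
    · exact h3l' h
  have hl0 : (l : ℂ) ≠ 0 := by exact_mod_cast hl.ne_zero
  have hl0' : (l' : ℂ) ≠ 0 := by exact_mod_cast hl'.ne_zero
  set w : ℂ := L.ω₁ / l with hw
  set z : ℂ := L.ω₁ / l' with hz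
  have o1 := L.ω₁_mem_lattice
  have lw : (l : ℂ) * w ∈ L.lattice := by
    rw [hw, mul_div_cancel₀ _ hl0]
    exact o1
  have lz : (l' : ℂ) * z ∈ L.lattice := by
    rw [hz, mul_div_cancel₀ _ hl0']
    exact o1
  -- the combinations of `z` and `w` are not in the lattice, even after multiplication by `N`
  have comb : ∀ a b : ℤ, ¬ ((l' : ℤ) ∣ a ∧ (l : ℤ) ∣ b) →
      (N : ℂ) * ((a : ℂ) * z + (b : ℂ) * w) ∉ L.lattice := by
    intro a b hab hm
    apply hab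
    have e1 : (N : ℂ) * ((a : ℂ) * z + (b : ℂ) * w) =
        ((N * (a * l + b * l') : ℤ) : ℂ) * (L.ω₁ / ((l * l' : ℕ) : ℂ)) := by
      rw [hz, hw]
      push_cast
      field_simp
    rw [e1] at hm
    have h5 := _root_.Pool.Agent.N2V.UNT.frac L _ _ (Nat.mul_ne_zero hl.ne_zero hl'.ne_zero) hm
    have hlz : Prime (l : ℤ) := Nat.prime_iff_prime_int.1 hl
    have hlz' : Prime (l' : ℤ) := Nat.prime_iff_prime_int.1 hl'
    have hNl : ¬ (l : ℤ) ∣ (N : ℤ) := fun h => hlN (by exact_mod_cast h)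
    have hNl' : ¬ (l' : ℤ) ∣ (N : ℤ) := fun h => hlN' (by exact_mod_cast h)
    have hd1 : (l : ℤ) ∣ a * l + b * l' := by
      have : (l : ℤ) ∣ (N : ℤ) * (a * l + b * l') := Dvd.dvd.trans ⟨(l' : ℤ), by push_cast; ring⟩ h5
      exact (hlz.dvd_or_dvd this).resolve_left hNl
    have hd2 : (l' : ℤ) ∣ a * l + b * l' := by
      have : (l' : ℤ) ∣ (N : ℤ) * (a * l + b * l') := Dvd.dvd.trans ⟨(l : ℤ), by push_cast; ring⟩ h5
      exact (hlz'.dvd_or_dvd this).resolve_left hNl'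
    have hne1 : ¬ (l : ℤ) ∣ (l' : ℤ) := fun h =>
      hll ((Nat.prime_dvd_prime_iff_eq hl hl').1 (by exact_mod_cast h))
    have hne2 : ¬ (l' : ℤ) ∣ (l : ℤ) := fun h =>
      hll ((Nat.prime_dvd_prime_iff_eq hl' hl).1 (by exact_mod_cast h)).symm
    constructor
    · have : (l' : ℤ) ∣ a * l := (dvd_add_left (Dvd.intro_left b rfl)).1 hd2
      exact (hlz'.dvd_or_dvd this).resolve_right hne2
    · have : (l : ℤ) ∣ b * l' := (dvd_add_right (Dvd.intro_left a rfl)).1 hd1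
      exact (hlz.dvd_or_dvd this).resolve_right hne1
  have one_not : ∀ k : ℕ, k.Prime → ∀ s : ℤ, s = 1 ∨ s = -1 → ¬ (k : ℤ) ∣ s := by
    intro k hk s hs h
    have h6 : (k : ℤ) ∣ 1 := by
      rcases hs with rfl | rfl
      · exact h
      · exact (dvd_neg.1 h)
    have h7 : k ∣ 1 := by exact_mod_cast h6
    exact hk.one_lt.ne' (Nat.dvd_one.1 h7)
  -- points of `L`
  have ptL : ∀ (a b c : ℤ) (q : ℂ), (N : ℂ) * q ∈ L.lattice →
      ¬ ((l' : ℤ) ∣ a ∧ (l : ℤ) ∣ b) →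
      ¬ InK V L (xu L u e) ((a : ℂ) * z + (b : ℂ) * w + (c : ℂ) * q) := by
    intro a b c q hq hab hin
    have hm := (tL (N * l * l') h3n).2 _ (by
      have e1 : ((N * l * l' : ℕ) : ℂ) * ((a : ℂ) * z + (b : ℂ) * w + (c : ℂ) * q) =
          ((N * l * a : ℤ) : ℂ) * ((l' : ℂ) * z) + ((N * l' * b : ℤ) : ℂ) * ((l : ℂ) * w) +
            ((l * l' * c : ℤ) : ℂ) * ((N : ℂ) * q) := by
        push_cast
        ring
      rw [e1]
      exact add_mem (add_mem (_root_.Pool.Agent.N2V.UNT.zmul L _ lz) (_root_.Pool.Agent.N2V.UNT.zmul L _ lw)) (_root_.Pool.Agent.N2V.UNT.zmul L _ hq)) hin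
    apply comb a b hab
    have e2 : (N : ℂ) * ((a : ℂ) * z + (b : ℂ) * w) =
        ((N : ℤ) : ℂ) * ((a : ℂ) * z + (b : ℂ) * w + (c : ℂ) * q) -
          ((c : ℤ) : ℂ) * ((N : ℂ) * q) := by
      push_cast
      ring
    rw [e2]
    exact sub_mem (_root_.Pool.Agent.N2V.UNT.zmul L _ hm) (_root_.Pool.Agent.N2V.UNT.zmul L _ hq)
  -- points of `M`
  have ptM : ∀ (a b : ℤ), ¬ ((l' : ℤ) ∣ a ∧ (l : ℤ) ∣ b) →
      μ * ((a : ℂ) * z + (b : ℂ) * w) ∉ M.lattice ∧
      ¬ InK V M (xu M u' e') (μ * ((a : ℂ) * z + (b : ℂ) * w)) := by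
    intro a b hab
    have h4 : μ * ((a : ℂ) * z + (b : ℂ) * w) ∉ M.lattice := fun h => comb a b hab (hN _ h)
    refine ⟨h4, fun hin => h4 ((tM (l * l') h3m).2 _ ?_ hin)⟩
    have e1 : ((l * l' : ℕ) : ℂ) * (μ * ((a : ℂ) * z + (b : ℂ) * w)) =
        μ * (((l * a : ℤ) : ℂ) * ((l' : ℂ) * z) + ((l' * b : ℤ) : ℂ) * ((l : ℂ) * w)) := by
      push_cast
      ring
    rw [e1]
    exact hI _ (add_mem (_root_.Pool.Agent.N2V.UNT.zmul L _ lz) (_root_.Pool.Agent.N2V.UNT.zmul L _ lw))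
  have hz1 : ∀ b : ℤ, ∀ s : ℤ, s = 1 ∨ s = -1 → ¬ ((l' : ℤ) ∣ s ∧ (l : ℤ) ∣ b) := fun b s hs h =>
    one_not l' hl' s hs h.1
  have hw1 : ∀ a : ℤ, ∀ s : ℤ, s = 1 ∨ s = -1 → ¬ ((l' : ℤ) ∣ a ∧ (l : ℤ) ∣ s) := fun a s hs h =>
    one_not l hl s hs h.2
  have hN00 : (N : ℂ) * 0 ∈ L.lattice := by rw [mul_zero]; exact L.lattice.zero_mem
  obtain ⟨mz, iz⟩ := ptM 1 0 (hz1 0 1 (Or.inl rfl))
  obtain ⟨mw, iw⟩ := ptM 0 1 (hw1 0 1 (Or.inl rfl))
  obtain ⟨-, ip⟩ := ptM 1 1 (hz1 1 1 (Or.inl rfl))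
  obtain ⟨-, im⟩ := ptM 1 (-1) (hz1 (-1) 1 (Or.inl rfl))
  have ez : ((1 : ℤ) : ℂ) * z + ((0 : ℤ) : ℂ) * w = z := by push_cast; ring
  have ew : ((0 : ℤ) : ℂ) * z + ((1 : ℤ) : ℂ) * w = w := by push_cast; ring
  have ep : μ * (((1 : ℤ) : ℂ) * z + ((1 : ℤ) : ℂ) * w) = μ * z + μ * w := by push_cast; ring
  have em' : μ * (((1 : ℤ) : ℂ) * z + ((-1 : ℤ) : ℂ) * w) = μ * z - μ * w := by push_cast; ring
  rw [ez] at mz iz
  rw [ew] at mw iw
  rw [ep] at ip
  rw [em'] at im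
  -- the product formula
  have pf := u_PFI L M μ R hμ hI hR w mw z mz
  have hu0 : u ^ 2 ≠ 0 := pow_ne_zero _ hL.u0
  have hu0' : u' ^ 2 ≠ 0 := pow_ne_zero _ hM.u0
  have dL : ∀ a b : ℂ, L.weierstrassP a - L.weierstrassP b =
      u ^ 2 * (xu L u e a - xu L u e b) := by
    intro a b
    unfold xu
    rw [← sub_div, mul_div_cancel₀ _ hu0]
    ring
  have dM : ∀ a b : ℂ, M.weierstrassP a - M.weierstrassP b =
      u' ^ 2 * (xu M u' e' a - xu M u' e' b) := by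
    intro a b
    unfold xu
    rw [← sub_div, mul_div_cancel₀ _ hu0']
    ring
  have vM : V.valuation (M.weierstrassP (μ * z) - M.weierstrassP (μ * w)) =
      V.valuation (u' ^ 2) := by
    rw [dM, map_mul, Pool.Agent.MUX2.gv_X_sub grM iz iw ip im, mul_one]
  have ptL' : ∀ (a b c : ℤ) (q p : ℂ), (N : ℂ) * q ∈ L.lattice →
      ¬ ((l' : ℤ) ∣ a ∧ (l : ℤ) ∣ b) → p = (a : ℂ) * z + (b : ℂ) * w + (c : ℂ) * q →
      ¬ InK V L (xu L u e) p := by
    intro a b c q p hq hab hp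
    rw [hp]
    exact ptL a b c q hq hab
  have jz : ¬ InK V L (xu L u e) z :=
    ptL' 1 0 0 0 z hN00 (hz1 0 1 (Or.inl rfl)) (by push_cast; ring)
  have vL : V.valuation (L.weierstrassP z - L.weierstrassP w) = V.valuation (u ^ 2) := by
    rw [dL, map_mul, Pool.Agent.MUX2.gv_X_sub grL jz
      (ptL' 0 1 0 0 w hN00 (hw1 0 1 (Or.inl rfl)) (by push_cast; ring))
      (ptL' 1 1 0 0 _ hN00 (hz1 1 1 (Or.inl rfl)) (by push_cast; ring))
      (ptL' 1 (-1) 0 0 _ hN00 (hz1 (-1) 1 (Or.inl rfl)) (by push_cast; ring)), mul_one]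
  have vq : ∀ q ∈ R, V.valuation (L.weierstrassP z - L.weierstrassP q) =
      V.valuation (u ^ 2) := by
    intro q hq
    have hNq := hN q (hR.mem q hq)
    have jq : ¬ InK V L (xu L u e) q := fun h => hR.ne q hq ((tL N hN3).2 q hNq h)
    rw [dL, map_mul, Pool.Agent.MUX2.gv_X_sub grL jz jq
      (ptL' 1 0 1 q _ hNq (hz1 0 1 (Or.inl rfl)) (by push_cast; ring))
      (ptL' 1 0 (-1) q _ hNq (hz1 0 1 (Or.inl rfl)) (by push_cast; ring)), mul_one]
  have vwq : ∀ q ∈ R, V.valuation (L.weierstrassP z - L.weierstrassP (w + q)) =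
      V.valuation (u ^ 2) := by
    intro q hq
    have hNq := hN q (hR.mem q hq)
    rw [dL, map_mul, Pool.Agent.MUX2.gv_X_sub grL jz
      (ptL' 0 1 1 q _ hNq (hw1 0 1 (Or.inl rfl)) (by push_cast; ring))
      (ptL' 1 1 1 q _ hNq (hz1 1 1 (Or.inl rfl)) (by push_cast; ring))
      (ptL' 1 (-1) (-1) q _ hNq (hz1 (-1) 1 (Or.inl rfl)) (by push_cast; ring)), mul_one]
  have pv := congrArg V.valuation pf
  rw [map_mul, map_mul, map_mul, map_prod, map_prod, vM, vL, Finset.prod_congr rfl vq,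
    Finset.prod_congr rfl vwq, Finset.prod_const] at pv
  have hT0 : V.valuation (u ^ 2) ^ R.card ≠ 0 := pow_ne_zero _ ((_root_.map_ne_zero _).2 hu0)
  have h6 : V.valuation (μ ^ 2) * V.valuation (u' ^ 2) = V.valuation (u ^ 2) :=
    mul_right_cancel₀ hT0 pv
  have h7 : V.valuation (μ * u' / u) ^ 2 = 1 := by
    rw [← map_pow, div_pow, mul_pow, map_div₀, map_mul, h6]
    exact div_self ((_root_.map_ne_zero _).2 hu0)
  rcases lt_trichotomy (V.valuation (μ * u' / u)) 1 with h | h | h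
  · exact absurd h7 (pow_lt_one₀ zero_le h two_ne_zero).ne
  · exact h
  · exact absurd h7 (one_lt_pow₀ h two_ne_zero).ne'

end

end Pool.Agent.N2V


end

section

/-!
# MUX-2R, block ER2, module COE (helper73; port of `E_COE.lean`, helper83): the coefficients of the good model
-/

set_option autoImplicit false

open Polynomial

namespace Pool.Agent.N2V

open _root_.MU3 _root_.Pool.Agent.MU3A _root_.Pool.Agent.MU3B _root_.Pool.Agent.MUX _root_.Pool.Agent.MUXU _root_.Pool.Agent.MUXE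
open _root_.Pool.Agent.RI _root_.Pool.Agent.NS _root_.Pool.Agent.N2
open _root_.Pool.Agent.NSE (IntP)
open _root_.Pool.Agent.MUX2 (GRG)
open _root_.Pool.Agent.MUXV (InK tX)

noncomputable section

namespace COE

lemma _root_.Pool.Agent.N2V.COE.hasDeriv (L : PeriodPair) {z : ℂ} (hz : z ∉ L.lattice) :
    HasDerivAt L.weierstrassP (L.derivWeierstrassP z) z := by
  have h1 : DifferentiableAt ℂ L.weierstrassP z :=
    L.differentiableOn_weierstrassP.differentiableAt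
      (L.isClosed_lattice.isOpen_compl.mem_nhds hz)
  have h2 := h1.hasDerivAt
  rwa [L.deriv_weierstrassP] at h2

end COE

open _root_.Pool.Agent.N2V.COE in
theorem tv_COE : Sv_COE := by
  intro V L u e a1 a3 hG h2
  have hu := hG.u0
  -- the polynomial identity
  have key : ∀ T : ℂ, 4 * T ^ 3 - L.g₂ * T - L.g₃ =
      4 * (T - e) ^ 3 + u ^ 2 * (a1 * (T - e) + a3 * u ^ 2) ^ 2 := by
    intro T
    obtain ⟨z, hz, hT⟩ := b_SUR L T
    have h1 := L.derivWeierstrassP_sq z hz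
    have h3 := hG.eq z hz
    rw [← hT, ← h1]
    have h4 : L.derivWeierstrassP z ^ 2 =
        (L.derivWeierstrassP z / u ^ 3) ^ 2 * u ^ 6 := by
      field_simp
    rw [h4, h3]
    field_simp
  have k0 := key 0
  have k1 := key 1
  have k2 := key (-1)
  have b1 : 12 * e = a1 ^ 2 * u ^ 2 := by
    linear_combination (1 / 2 : ℂ) * k1 + (1 / 2 : ℂ) * k2 - k0
  have b2 : 12 * e ^ 2 - L.g₂ = 2 * a1 * a3 * u ^ 4 := by
    linear_combination (1 / 2 : ℂ) * k1 - (1 / 2 : ℂ) * k2 + 2 * e * b1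
  have b3 : 4 * e ^ 3 - L.g₂ * e - L.g₃ = a3 ^ 2 * u ^ 6 := by
    linear_combination k0 + e * b2 - e ^ 2 * b1
  have hv1 : V.valuation (1 : ℂ) = 1 := map_one _
  have v3 : V.valuation (3 : ℂ) = 1 := by
    have h5 : V.valuation ((1 : ℂ) + 2) = V.valuation (1 : ℂ) :=
      Valuation.map_add_eq_of_lt_left _ (by rw [hv1]; exact h2)
    rw [hv1] at h5
    rw [← h5]
    congr 1
    norm_num
  have hy : ∀ z, 2 * yt L u e a1 a3 z + a1 * xu L u e z + a3 = et L u z := by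
    intro z
    unfold yt
    ring
  have he : ∀ z ∉ L.lattice,
      et L u z ^ 2 = 4 * xu L u e z ^ 3 + (a1 * xu L u e z + a3) ^ 2 := by
    intro z hz
    exact hG.eq z hz
  have va1 : V.valuation a1 < 1 := by
    by_contra hc
    have hc1 : 1 ≤ V.valuation a1 := not_lt.mp hc
    have hc2 : (1 : V.ValueGroup) ≤ V.valuation a1 ^ 2 := one_le_pow₀ hc1
    exact absurd (lt_of_le_of_lt (hc2.trans hG.v1) h2) (lt_irrefl _)
  refine ⟨b1, b2, b3, v3, va1, hy, he, ?_, ?_, ?_⟩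
  · intro z hz
    have h5 := he z hz
    rw [← hy z] at h5
    linear_combination (1 / 4 : ℂ) * h5
  · intro z hz
    have h5 := ((_root_.Pool.Agent.N2V.COE.hasDeriv L hz).sub_const e).div_const (u ^ 2)
    have h6 : L.derivWeierstrassP z / u ^ 2 = u * et L u z := by
      unfold et
      field_simp
    rw [h6] at h5
    exact h5
  · intro z
    have hx : ∀ w ∈ L.lattice, xu L u e (z + w) = xu L u e z := by
      intro w hw
      unfold xu
      rw [L.weierstrassP_add_coe z ⟨w, hw⟩]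
    have ht : ∀ w ∈ L.lattice, et L u (z + w) = et L u z := by
      intro w hw
      unfold et
      rw [L.derivWeierstrassP_add_coe z ⟨w, hw⟩]
    refine ⟨fun w hw => ⟨hx w hw, ht w hw, ?_⟩, ?_, ?_⟩
    · unfold yt
      rw [hx w hw, ht w hw]
    · unfold xu
      rw [L.weierstrassP_neg]
    · unfold et
      rw [L.derivWeierstrassP_neg]
      ring

end

end Pool.Agent.N2V


end

section

/-!
# MUX-2N, block R, module CLO (helper85): torsion points of close curves are close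

Adapted from `Pool/Agent/NS/RN_CLO.lean` (helper58).
-/

set_option autoImplicit false

open WeierstrassCurve Polynomial

namespace Pool.Agent.N2R

open _root_.MU3 _root_.Pool.Agent.MU3A _root_.Pool.Agent.MU3B _root_.Pool.Agent.RI _root_.Pool.Agent.MUX _root_.Pool.Agent.MUXU
open _root_.Pool.Agent.MUXV _root_.Pool.Agent.MU3.Val
open _root_.Pool.Agent.MUX2
open _root_.Pool.Agent.NS (xu)
open _root_.Pool.Agent.N2 (WT yt et GoodT CaseT)

noncomputable section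

namespace CLO

section cg

variable {Γ₀ : Type} [LinearOrderedCommGroupWithZero Γ₀] {v : Valuation ℂ Γ₀} {d : Γ₀}

/-- congruence modulo `d` -/
def Cg (v : Valuation ℂ Γ₀) (d : Γ₀) (a b : ℂ) : Prop := v (a - b) ≤ d

theorem Cg.add {a b a' b' : ℂ} (h : Cg v d a b) (h' : Cg v d a' b') :
    Cg v d (a + a') (b + b') := by
  unfold Cg at *
  rw [show a + a' - (b + b') = (a - b) + (a' - b') by ring]
  exact v_add_le h h'

theorem Cg.sub {a b a' b' : ℂ} (h : Cg v d a b) (h' : Cg v d a' b') :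
    Cg v d (a - a') (b - b') := by
  unfold Cg at *
  rw [show a - a' - (b - b') = (a - b) - (a' - b') by ring]
  exact v_sub_le h h'

theorem Cg.neg {a b : ℂ} (h : Cg v d a b) : Cg v d (-a) (-b) := by
  unfold Cg at *
  rw [show -a - -b = -(a - b) by ring, Valuation.map_neg]
  exact h

theorem Cg.mul {a b a' b' : ℂ} (h : Cg v d a b) (h' : Cg v d a' b') (ha' : v a' ≤ 1)
    (hb : v b ≤ 1) : Cg v d (a * a') (b * b') := by
  unfold Cg at *
  rw [show a * a' - b * b' = a' * (a - b) + b * (a' - b') by ring]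
  exact v_add_le (v_mul_le_right ha' h) (v_mul_le_right hb h')

theorem Cg.refl (a : ℂ) : Cg v d a a := by
  unfold Cg
  rw [sub_self, map_zero]
  exact zero_le

theorem Cg.div {a b a' b' : ℂ} (h : Cg v d a b) (h' : Cg v d a' b') (ha' : v a' = 1)
    (hb' : v b' = 1) (hb : v b ≤ 1) : Cg v d (a / a') (b / b') := by
  unfold Cg at *
  have h1 : a' ≠ 0 := by
    rintro rfl
    rw [map_zero] at ha'
    exact zero_ne_one ha'
  have h2 : b' ≠ 0 := by
    rintro rfl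
    rw [map_zero] at hb'
    exact zero_ne_one hb'
  rw [show a / a' - b / b' = (b' * (a - b) - b * (a' - b')) / (a' * b') by field_simp; ring,
    map_div₀, map_mul, ha', hb', one_mul, div_one]
  exact v_sub_le (v_mul_le_right hb'.le h) (v_mul_le_right hb h')

theorem v_div_le {a b : ℂ} (ha : v a ≤ 1) (hb : v b = 1) : v (a / b) ≤ 1 := by
  rw [map_div₀, hb, div_one]
  exact ha

end cg

variable {V : ValuationSubring ℂ} {L : PeriodPair} {X Y : ℂ → ℂ} {a : ℂ}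
  {ξ : ℂ →+ (WT a 1).Point}

theorem dx_unit (G : GRG V (WT a 1) L X Y ξ) {z : ℂ} (hz : ¬ InK V L X z)
    (h2 : ¬ InK V L X (2 * z)) : V.valuation (2 * Y z + a * X z + 1) = 1 := by
  have h3 := gv_DX G hz h2
  simpa [WT] using h3

theorem X_neg (G : GRG V (WT a 1) L X Y ξ) {z : ℂ} (hz : z ∉ L.lattice) :
    X (-z) = X z ∧ Y (-z) = -Y z - a * X z - 1 := by
  obtain ⟨h3, e3⟩ := G.some z hz
  have hz' : -z ∉ L.lattice := fun h => hz (by simpa using neg_mem h)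
  obtain ⟨h4, e4⟩ := G.some (-z) hz'
  rw [map_neg, e3, Affine.Point.neg_some] at e4
  obtain ⟨e5, e6⟩ : X z = X (-z) ∧ (WT a 1).negY (X z) (Y z) = Y (-z) := by simpa using e4
  refine ⟨e5.symm, ?_⟩
  rw [← e6, Affine.negY]
  simp only [WT]

theorem X_add_mem (G : GRG V (WT a 1) L X Y ξ) {z w : ℂ} (hz : z ∉ L.lattice)
    (hw : w ∈ L.lattice) : X (z + w) = X z ∧ Y (z + w) = Y z := by
  have h3 := G.zero w hw
  obtain ⟨h4, e4⟩ := G.some z hz
  have hzw : z + w ∉ L.lattice := fun h5 => hz (by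
    have := sub_mem h5 hw; rwa [add_sub_cancel_right] at this)
  obtain ⟨h5, e5⟩ := G.some (z + w) hzw
  rw [map_add, h3, add_zero, e4] at e5
  obtain ⟨e6, e7⟩ : X z = X (z + w) ∧ Y z = Y (z + w) := by simpa using e5
  exact ⟨e6.symm, e7.symm⟩

theorem curve_eq (G : GRG V (WT a 1) L X Y ξ) {z : ℂ} (hz : z ∉ L.lattice) :
    Y z ^ 2 + a * X z * Y z + Y z = X z ^ 3 := by
  obtain ⟨h3, -⟩ := G.some z hz
  have h4 := (Affine.equation_iff _ _).1 h3.1
  simp only [WT] at h4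
  linear_combination h4

end CLO

open _root_.Pool.Agent.N2R.CLO in
theorem tr_CLO (h1 : Sr_GRT) (h2 : Sr_CHT) : Sr_CLO := by
  intro V L L' u e a u' e' a' v3 hL hL' va hδ n hodd hn1 vn q q' hq hnq hnq' hx hy
  have va' : V.valuation a' < 1 := by
    rw [show a' = a + (a' - a) by ring]
    exact lt_of_le_of_lt (V.valuation.map_add _ _) (max_lt va hδ)
  obtain ⟨ξ, G, hsurj⟩ := h1 V L u e a 1 v3 va (map_one _) hL
  obtain ⟨ξ', G', -⟩ := h1 V L' u' e' a' 1 v3 va' (map_one _) hL'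
  obtain ⟨cadd, cdup⟩ := h2 L u e a 1 hL
  obtain ⟨cadd', cdup'⟩ := h2 L' u' e' a' 1 hL'
  set X : ℂ → ℂ := xu L u e with hX
  set Y : ℂ → ℂ := yt L u e a 1 with hY
  set X' : ℂ → ℂ := xu L' u' e' with hX'
  set Y' : ℂ → ℂ := yt L' u' e' a' 1 with hY'
  set d := V.valuation (a' - a) with hd
  have hd1 : d ≤ 1 := hδ.le
  have hn3 : 2 < n := by
    obtain ⟨m, hm⟩ := hodd
    omega
  -- the multiples of `q`, `q'`
  have hk : ∀ k : ℕ, 0 < k → k < n → ¬ InK V L X (k * q) := by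
    intro k hk0 hkn h
    refine (hq k hk0 hkn).1 (gmem_of_nat_mul G h vn ?_)
    rw [show (n : ℂ) * (k * q) = (k : ℕ) • (n * q) by rw [nsmul_eq_mul]; ring]
    exact nsmul_mem hnq k
  have hk' : ∀ k : ℕ, 0 < k → k < n → ¬ InK V L' X' (k * q') := by
    intro k hk0 hkn h
    refine (hq k hk0 hkn).2 (gmem_of_nat_mul G' h vn ?_)
    rw [show (n : ℂ) * (k * q') = (k : ℕ) • (n * q') by rw [nsmul_eq_mul]; ring]
    exact nsmul_mem hnq' k
  have kq : ¬ InK V L X q := by simpa using hk 1 one_pos (by omega)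
  have kq' : ¬ InK V L' X' q' := by simpa using hk' 1 one_pos (by omega)
  have k2q : ¬ InK V L X (2 * q) := by simpa using hk 2 (by omega) hn3
  have k2q' : ¬ InK V L' X' (2 * q') := by simpa using hk' 2 (by omega) hn3
  have vD : V.valuation (2 * Y q + a * X q + 1) = 1 := dx_unit G kq k2q
  have vD' : V.valuation (2 * Y' q' + a' * X' q' + 1) = 1 := dx_unit G' kq' k2q'
  have vX : V.valuation (X q) ≤ 1 := (int_X kq).2
  have vX' : V.valuation (X' q') ≤ 1 := (int_X kq').2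
  have vY' : V.valuation (Y' q') ≤ 1 := gInt_Y G' kq'
  -- the nearby point on the first curve
  have heq' : Y' q' ^ 2 + a' * X' q' * Y' q' + Y' q' = X' q' ^ 3 := curve_eq G' (int_X kq').1
  obtain ⟨y, hy1, hy2⟩ : ∃ y : ℂ, y ^ 2 + a * X' q' * y + y = X' q' ^ 3 ∧
      V.valuation (y - Y' q') ≤ d := by
    obtain ⟨r, hr0⟩ := IsAlgClosed.exists_pow_nat_eq ((a * X' q' + 1) ^ 2 + 4 * X' q' ^ 3)
      (n := 2) (by norm_num)
    have hprod : V.valuation (Y' q' - (-(a * X' q' + 1) + r) / 2) *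
        V.valuation (Y' q' - (-(a * X' q' + 1) - r) / 2) ≤ d := by
      rw [← map_mul, show (Y' q' - (-(a * X' q' + 1) + r) / 2) *
        (Y' q' - (-(a * X' q' + 1) - r) / 2) =
        -((X' q' * Y' q') * (a' - a)) by linear_combination heq' - hr0 / 4,
        Valuation.map_neg, map_mul, ← hd]
      exact mul_le_of_le_one_left' (by rw [map_mul]; exact mul_le_one' vX' vY')
    have hsum : V.valuation (2 * Y' q' + a * X' q' + 1) = 1 := by
      rw [show 2 * Y' q' + a * X' q' + 1 =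
        (2 * Y' q' + a' * X' q' + 1) + -(X' q' * (a' - a)) by ring,
        Valuation.map_add_eq_of_lt_left, vD']
      rw [Valuation.map_neg, vD', map_mul, ← hd]
      exact lt_of_le_of_lt (mul_le_of_le_one_left' vX') hδ
    rcases le_or_gt 1 (V.valuation (Y' q' - (-(a * X' q' + 1) - r) / 2)) with h | h
    · refine ⟨(-(a * X' q' + 1) + r) / 2, by linear_combination hr0 / 4, ?_⟩
      rw [Valuation.map_sub_swap]
      exact le_trans (le_mul_of_one_le_right' h) hprod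
    · refine ⟨(-(a * X' q' + 1) - r) / 2, by linear_combination hr0 / 4, ?_⟩
      have h3 : V.valuation (Y' q' - (-(a * X' q' + 1) + r) / 2) = 1 := by
        rw [show Y' q' - (-(a * X' q' + 1) + r) / 2 = (2 * Y' q' + a * X' q' + 1) +
          -(Y' q' - (-(a * X' q' + 1) - r) / 2) by ring,
          Valuation.map_add_eq_of_lt_left, hsum]
        rw [Valuation.map_neg, hsum]
        exact h
      rw [h3, one_mul] at hprod
      rw [Valuation.map_sub_swap]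
      exact hprod
  have hΔ : (WT a 1).Δ ≠ 0 := by
    intro h
    have := G.disc
    rw [h, map_zero] at this
    exact zero_ne_one this
  have hns : (WT a 1).Nonsingular (X' q') y := by
    refine (Affine.equation_iff_nonsingular_of_Δ_ne_zero hΔ).1 ?_
    rw [Affine.equation_iff]
    simp only [WT]
    linear_combination hy1
  obtain ⟨z, hz⟩ := hsurj (Affine.Point.some (X' q') y hns)
  have hzL : z ∉ L.lattice := by
    intro h
    rw [G.zero z h] at hz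
    exact absurd hz.symm (by simp)
  obtain ⟨hXz, hYz⟩ : X z = X' q' ∧ Y z = y := by
    obtain ⟨h3, e3⟩ := G.some z hzL
    rw [hz] at e3
    obtain ⟨e4, e5⟩ : X' q' = X z ∧ y = Y z := by simpa using e3
    exact ⟨e4.symm, e5.symm⟩
  have kz : ¬ InK V L X z := by
    unfold InK
    push Not
    refine ⟨hzL, ?_⟩
    rw [← ValuationSubring.valuation_le_one_iff, hXz]
    exact vX'
  have vYz : V.valuation (Y z) ≤ 1 := gInt_Y G kz
  -- `z - q` is in the kernel of reduction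
  have hx2 : V.valuation (X z - X q) < 1 := by rw [hXz]; exact hx
  have hy3 : V.valuation (Y z - Y q) < 1 := by
    rw [hYz, show y - Y q = (y - Y' q') + (Y' q' - Y q) by ring]
    exact lt_of_le_of_lt (V.valuation.map_add _ _) (max_lt (lt_of_le_of_lt hy2 hδ) hy)
  have ks : InK V L X (z - q) := by
    by_contra hc
    by_cases hp : InK V L X (z + q)
    · have hnq2 : ¬ InK V L X (-q) := fun h => kq (by simpa using gInK_neg G h)
      have h3 := (gnear_lt G hnq2 hp).2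
      rw [show -q + (z + q) = z by ring, (X_neg G (int_X kq).1).2] at h3
      have h4 : V.valuation (2 * Y q + a * X q + 1) < 1 := by
        rw [show 2 * Y q + a * X q + 1 = (Y z - (-Y q - a * X q - 1)) - (Y z - Y q) by ring]
        exact lt_of_le_of_lt (V.valuation.map_sub _ _) (max_lt h3 hy3)
      rw [vD] at h4
      exact lt_irrefl _ h4
    · have h3 := gv_X_sub G kz kq hp hc
      rw [h3] at hx2
      exact lt_irrefl _ hx2
  set s := z - q with hs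
  have hzs : z = q + s := by rw [hs]; ring
  have hkz : ∀ k : ℕ, 0 < k → k < n → ¬ InK V L X (k * z) := by
    intro k hk0 hkn h
    refine hk k hk0 hkn ?_
    rw [← gInK_congr G (z := k * z) (w := k * q)]
    · exact h
    · rw [← mul_sub, ← hs]
      exact gInK_nat G ks k
  have k2z : ¬ InK V L X (2 * z) := by simpa using hkz 2 (by omega) hn3
  have vDz : V.valuation (2 * Y z + a * X z + 1) = 1 := dx_unit G kz k2z
  -- the chain
  have key : ∀ k : ℕ, 0 < k → k < n →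
      Cg V.valuation d (X (k * z)) (X' (k * q')) ∧ Cg V.valuation d (Y (k * z)) (Y' (k * q')) := by
    have c1 : Cg V.valuation d (X z) (X' q') := by rw [hXz]; exact Cg.refl _
    have c1y : Cg V.valuation d (Y z) (Y' q') := by rw [hYz]; exact hy2
    have ca : Cg V.valuation d a a' := by
      unfold Cg
      rw [Valuation.map_sub_swap]
    intro k
    induction k with
    | zero => intro h; exact absurd h (lt_irrefl 0)
    | succ k ih =>
      intro _ hkn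
      rcases Nat.eq_zero_or_pos k with rfl | hk0
      · simp only [zero_add, Nat.cast_one, one_mul]
        exact ⟨c1, c1y⟩
      obtain ⟨ih1, ih2⟩ := ih hk0 (by omega)
      rcases Nat.eq_or_lt_of_le (Nat.succ_le_of_lt hk0) with hk1 | hk1
      · -- duplication
        have hk1' : k = 1 := hk1.symm
        subst hk1'
        have e2 : (((1 + 1 : ℕ) : ℕ) : ℂ) = 2 := by norm_num
        rw [e2]
        obtain ⟨-, f1, f2⟩ := cdup z (int_X k2z).1
        obtain ⟨-, f1', f2'⟩ := cdup' q' (int_X k2q').1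
        have vn1 : V.valuation (3 * X z ^ 2 - a * Y z) ≤ 1 := by
          refine v_sub_le ?_ ?_
          · exact v_mul_le_right (v_three _) (by
              rw [map_pow]; exact pow_le_one' (int_X kz).2 2)
          · exact v_mul_le_right va.le vYz
        have vn1' : V.valuation (3 * X' q' ^ 2 - a' * Y' q') ≤ 1 := by
          refine v_sub_le ?_ ?_
          · exact v_mul_le_right (v_three _) (by
              rw [map_pow]; exact pow_le_one' vX' 2)
          · exact v_mul_le_right va'.le vY'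
        have cn : Cg V.valuation d (3 * X z ^ 2 - a * Y z) (3 * X' q' ^ 2 - a' * Y' q') := by
          refine Cg.sub ?_ (Cg.mul ca c1y vYz va'.le)
          rw [pow_two, pow_two]
          refine Cg.mul (Cg.refl _) (Cg.mul c1 c1 (int_X kz).2 vX') ?_ (v_three _)
          rw [map_mul]
          exact mul_le_one' (int_X kz).2 (int_X kz).2
        have cd : Cg V.valuation d (2 * Y z + a * X z + 1) (2 * Y' q' + a' * X' q' + 1) :=
          Cg.add (Cg.add (Cg.mul (Cg.refl _) c1y vYz (v_two _))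
            (Cg.mul ca c1 (int_X kz).2 va'.le)) (Cg.refl _)
        have cm := Cg.div cn cd vDz vD' vn1'
        have vm := v_div_le vn1 vDz
        have vm' := v_div_le vn1' vD'
        set m := (3 * X z ^ 2 - a * Y z) / (2 * Y z + a * X z + 1) with hm
        set m' := (3 * X' q' ^ 2 - a' * Y' q') / (2 * Y' q' + a' * X' q' + 1) with hm'
        have cX : Cg V.valuation d (X (2 * z)) (X' (2 * q')) := by
          rw [f1, f1', pow_two, pow_two]
          exact Cg.sub (Cg.add (Cg.mul cm cm vm vm') (Cg.mul ca cm vm va'.le))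
            (Cg.mul (Cg.refl _) c1 (int_X kz).2 (v_two _))
        refine ⟨cX, ?_⟩
        rw [f2, f2']
        refine Cg.sub (Cg.sub (Cg.neg (Cg.add c1y (Cg.mul cm (Cg.sub cX c1) ?_ vm')))
          (Cg.mul ca cX (int_X k2z).2 va'.le)) (Cg.refl _)
        exact v_sub_le (int_X k2z).2 (int_X kz).2
      · -- addition
        have hk2 : 2 ≤ k := hk1
        have nz : z ∉ L.lattice := hzL
        have kkz := hkz k hk0 (by omega)
        have kkq := hk' k hk0 (by omega)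
        have e1 : ((k + 1 : ℕ) : ℂ) * z = k * z + z := by push_cast; ring
        have e1' : ((k + 1 : ℕ) : ℂ) * q' = k * q' + q' := by push_cast; ring
        have e2 : k * z - z = ((k - 1 : ℕ) : ℂ) * z := by
          rw [Nat.cast_sub (by omega)]; push_cast; ring
        have e2' : k * q' - q' = ((k - 1 : ℕ) : ℂ) * q' := by
          rw [Nat.cast_sub (by omega)]; push_cast; ring
        have kp := hkz (k + 1) (by omega) hkn
        have km := hkz (k - 1) (by omega) (by omega)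
        have kp' := hk' (k + 1) (by omega) hkn
        have km' := hk' (k - 1) (by omega) (by omega)
        rw [e1] at kp ⊢
        rw [e1'] at kp' ⊢
        rw [← e2] at km
        rw [← e2'] at km'
        obtain ⟨-, f1, f2⟩ := cadd (k * z) z (int_X kkz).1 nz (int_X kp).1 (int_X km).1
        obtain ⟨-, f1', f2'⟩ := cadd' (k * q') q' (int_X kkq).1 (int_X kq').1 (int_X kp').1
          (int_X km').1
        have vd := gv_X_sub G kkz kz kp km
        have vd' := gv_X_sub G' kkq kq' kp' km'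
        have cd : Cg V.valuation d (X (k * z) - X z) (X' (k * q') - X' q') := Cg.sub ih1 c1
        have cn : Cg V.valuation d (Y (k * z) - Y z) (Y' (k * q') - Y' q') := Cg.sub ih2 c1y
        have vn1 : V.valuation (Y (k * z) - Y z) ≤ 1 := v_sub_le (gInt_Y G kkz) vYz
        have vn1' : V.valuation (Y' (k * q') - Y' q') ≤ 1 := v_sub_le (gInt_Y G' kkq) vY'
        have cm := Cg.div cn cd vd vd' vn1'
        have vm := v_div_le vn1 vd
        have vm' := v_div_le vn1' vd'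
        set m := (Y (k * z) - Y z) / (X (k * z) - X z) with hm
        set m' := (Y' (k * q') - Y' q') / (X' (k * q') - X' q') with hm'
        have cX : Cg V.valuation d (X (k * z + z)) (X' (k * q' + q')) := by
          rw [f1, f1', pow_two, pow_two]
          exact Cg.sub (Cg.sub (Cg.add (Cg.mul cm cm vm vm') (Cg.mul ca cm vm va'.le)) ih1) c1
        refine ⟨cX, ?_⟩
        rw [f2, f2']
        exact Cg.sub (Cg.sub (Cg.neg (Cg.add ih2 (Cg.mul cm (Cg.sub cX ih1)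
          (v_sub_le (int_X kp).2 (int_X kkz).2) vm'))) (Cg.mul ca cX (int_X kp).2 va'.le))
          (Cg.refl _)
  -- the end
  obtain ⟨kX, -⟩ := key (n - 1) (by omega) (by omega)
  have e3 : ((n - 1 : ℕ) : ℂ) * q' = -q' + n * q' := by
    rw [Nat.cast_sub (by omega)]; push_cast; ring
  have e4 : ((n - 1 : ℕ) : ℂ) * z = (-z + n * s) + n * q := by
    rw [Nat.cast_sub (by omega), hzs]; push_cast; ring
  have nq' : -q' ∉ L'.lattice := fun h => (int_X kq').1 (by simpa using neg_mem h)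
  rw [e3, (X_add_mem G' nq' hnq').1, (X_neg G' (int_X kq').1).1, ← hXz] at kX
  have knz : ¬ InK V L X (-z) := fun h => kz (by simpa using gInK_neg G h)
  have kns : InK V L X (n * s) := gInK_nat G ks n
  have knzs : ¬ InK V L X (-z + n * s) := fun h => knz (by
    have := gInK_sub G h kns
    rwa [add_sub_cancel_right] at this)
  rw [e4, (X_add_mem G (int_X knzs).1 hnq).1, ← (X_neg G hzL).1] at kX
  by_cases hsL : s ∈ L.lattice
  · have h5 : X z = X q ∧ Y z = Y q := by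
      rw [hzs]
      exact X_add_mem G (int_X kq).1 hsL
    refine ⟨?_, ?_⟩
    · rw [← hXz, h5.1, sub_self, map_zero]
      exact zero_le
    · rw [← h5.2, hYz, Valuation.map_sub_swap]
      exact hy2
  · have hnsL : n * s ∉ L.lattice := fun h => hsL (gmem_of_nat_mul G ks vn h)
    have hr := gv_tX_nat G ks vn hsL hnsL
    obtain ⟨r1, r0, -⟩ := gv_tX_lt G ks hsL
    obtain ⟨-, i1, -, -⟩ := gnear G knz kns hnsL
    obtain ⟨-, -, i2, i3⟩ := gnear G kq ks hsL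
    rw [hr] at i1
    set r := V.valuation (tX X Y s) with hrdef
    have e5 : 2 * Y (-z) + (WT a 1).a₁ * X (-z) + (WT a 1).a₃ = -(2 * Y z + a * X z + 1) := by
      rw [(X_neg G hzL).2, (X_neg G hzL).1]
      simp only [WT]
      ring
    rw [e5] at i1
    have h5 : V.valuation (-(2 * Y z + a * X z + 1) * tX X Y (n * s)) = r := by
      rw [map_mul, Valuation.map_neg, vDz, one_mul, hr]
    have hr2 : r ^ 2 < r := by
      rw [pow_two]
      exact mul_lt_of_lt_one_right (zero_lt_iff.2 r0) r1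
    have h6 : V.valuation (X (-z + n * s) - X (-z)) = r := by
      rw [show X (-z + n * s) - X (-z) =
        (X (-z + n * s) - X (-z) - -(2 * Y z + a * X z + 1) * tX X Y (n * s)) +
        -(2 * Y z + a * X z + 1) * tX X Y (n * s) by ring, Valuation.map_add_eq_of_lt_right, h5]
      rw [h5]
      exact lt_of_le_of_lt i1 hr2
    unfold Cg at kX
    rw [h6] at kX
    rw [← hzs] at i2 i3
    refine ⟨?_, ?_⟩
    · rw [← hXz]
      exact i2.trans kX
    · rw [show Y' q' - Y q = (Y z - Y q) - (y - Y' q') by rw [hYz]; ring]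
      exact v_sub_le (i3.trans kX) hy2

end

end Pool.Agent.N2R


end

section

/-!
# MUX-2N, block R: module CML (the linear identity of complex multiplication at a point of order three)
-/

set_option autoImplicit false

open WeierstrassCurve Polynomial

namespace Pool.Agent.N2R

open _root_.MU3 _root_.Pool.Agent.MU3A _root_.Pool.Agent.MU3B _root_.Pool.Agent.RI _root_.Pool.Agent.MUX _root_.Pool.Agent.MUXU
open _root_.Pool.Agent.MUXV (InK tX)
open _root_.Pool.Agent.MUX2 (GRG)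
open _root_.Pool.Agent.NS (xu)
open _root_.Pool.Agent.N2 (WT yt et GoodT CaseT)

noncomputable section

namespace CML

lemma ode_der {a b c d mu : ℂ} {A B : ℂ[X]} (h : OdeP a b c d mu A B) (e : ℂ) :
    2 * ((derivative A).eval e * B.eval e - A.eval e * (derivative B).eval e) *
        ((derivative (derivative A)).eval e * B.eval e -
          A.eval e * (derivative (derivative B)).eval e) * (4 * e ^ 3 - a * e - b) +
      ((derivative A).eval e * B.eval e - A.eval e * (derivative B).eval e) ^ 2 *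
        (12 * e ^ 2 - a) =
    mu ^ 2 * (12 * A.eval e ^ 2 * (derivative A).eval e * B.eval e +
      4 * A.eval e ^ 3 * (derivative B).eval e -
      c * ((derivative A).eval e * B.eval e ^ 3 +
        3 * A.eval e * B.eval e ^ 2 * (derivative B).eval e) -
      4 * d * B.eval e ^ 3 * (derivative B).eval e) := by
  unfold OdeP at h
  have h1 := congrArg (fun p : ℂ[X] => eval e (derivative p)) h
  simp only [derivative_mul, derivative_sub, derivative_pow, derivative_X,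
    derivative_C, derivative_ofNat, eval_mul, eval_add, eval_sub, eval_pow, eval_C, eval_X,
    eval_ofNat, eval_one, eval_zero, Nat.cast_ofNat, map_ofNat] at h1
  norm_num at h1
  linear_combination h1

lemma cancel_eval {P₁ P₂ P₃ : ℂ[X]} (h3 : P₃ ≠ 0)
    (h : ∀ x, P₁.eval x * P₃.eval x = P₂.eval x * P₃.eval x) : P₁ = P₂ := by
  refine mul_right_cancel₀ h3 (Polynomial.funext fun x => ?_)
  rw [eval_mul, eval_mul]
  exact h x

lemma alg {e u a c α B0 B1 B2 S1 A0 A1 A2 g2 g3 : ℂ} (hα : α ≠ 0) (hB0 : B0 ≠ 0) (hc : c ≠ 0)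
    (hu : u ≠ 0) (hA0 : A0 = e * B0) (hA1 : A1 - e * B1 = α * B0) (hA2 : A2 - e * B2 = 2 * S1)
    (hP : 4 * e ^ 3 - g2 * e - g3 = u ^ 6 * c ^ 2) (hP' : 12 * e ^ 2 - g2 = 2 * a * c * u ^ 4)
    (hod : 2 * (A1 * B0 - A0 * B1) * (A2 * B0 - A0 * B2) * (4 * e ^ 3 - g2 * e - g3) +
      (A1 * B0 - A0 * B1) ^ 2 * (12 * e ^ 2 - g2) =
      α ^ 2 * (12 * A0 ^ 2 * A1 * B0 + 4 * A0 ^ 3 * B1 - g2 * (A1 * B0 ^ 3 +
        3 * A0 * B0 ^ 2 * B1) - 4 * g3 * B0 ^ 3 * B1)) :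
    2 * u ^ 2 * c * (S1 - α * B1) = α * B0 * a * (α - 1) := by
  have h1 : A1 = α * B0 + e * B1 := by linear_combination hA1
  have h2 : A2 = 2 * S1 + e * B2 := by linear_combination hA2
  have h3 : g2 = 12 * e ^ 2 - 2 * a * c * u ^ 4 := by linear_combination -hP'
  have h4 : g3 = 4 * e ^ 3 - g2 * e - u ^ 6 * c ^ 2 := by linear_combination -hP
  subst hA0 h1 h2 h3
  subst h4
  have h5 : 2 * α * B0 ^ 3 * c * u ^ 4 ≠ 0 :=
    mul_ne_zero (mul_ne_zero (mul_ne_zero (mul_ne_zero two_ne_zero hα) (pow_ne_zero 3 hB0)) hc)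
      (pow_ne_zero 4 hu)
  refine mul_left_cancel₀ h5 ?_
  linear_combination hod

/-- the logarithmic derivative of a product of linear factors -/
lemma log_der (R : Finset ℂ) (f : ℂ → ℂ) (e : ℂ)
    (h : (∏ q ∈ R, (X - C (f q)) : ℂ[X]).eval e ≠ 0) :
    (derivative (∏ q ∈ R, (X - C (f q)) : ℂ[X])).eval e =
      (∏ q ∈ R, (X - C (f q)) : ℂ[X]).eval e * ∑ q ∈ R, 1 / (e - f q) := by
  classical
  rw [derivative_prod_finset, eval_finsetSum, Finset.mul_sum]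
  refine Finset.sum_congr rfl fun q hq => ?_
  have h1 : (∏ q ∈ R, (X - C (f q)) : ℂ[X]).eval e =
      (e - f q) * (∏ q ∈ R.erase q, (X - C (f q)) : ℂ[X]).eval e := by
    rw [← Finset.mul_prod_erase R _ hq, eval_mul]
    simp
  have h2 : e - f q ≠ 0 := by
    intro h0
    apply h
    rw [h1, h0, zero_mul]
  rw [h1, eval_mul]
  simp only [derivative_sub, derivative_X, derivative_C, sub_zero, eval_one, mul_one]
  field_simp

end CML

open _root_.Pool.Agent.N2R.CML in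
theorem tr_CML (h : Sr_DEF) : Sr_CML := by
  intro A B b L om hcq hL u e a c w hdeu hw β R hR
  obtain ⟨h12, hc0, -, hg2, -, -, -⟩ := h L u e a c hdeu
  have hu0 : u ≠ 0 := hdeu.u0
  have hCM := hL.hasCM hcq
  have hal : alB β = emb (1 + ((3 : ℕ) : OO A B) * β) := by
    rw [MUX.emb_add hcq, MUX.emb_mul hcq, MUX.emb_one hcq, MUX.emb_natCast hcq]
    unfold alB
    norm_num
  have hα : Isg L L (alB β) := by
    intro z hz
    rw [hal]
    exact hCM _ z hz
  have ha0 : alB β ≠ 0 := by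
    rw [hal]
    refine MUX.emb_ne_zero hcq ?_
    intro h0
    have h1 := congrArg QuadraticAlgebra.re h0
    rw [QuadraticAlgebra.re_add, QuadraticAlgebra.re_one, QuadraticAlgebra.re_mul,
      QuadraticAlgebra.re_natCast, QuadraticAlgebra.im_natCast, QuadraticAlgebra.re_zero] at h1
    push_cast at h1
    simp only [mul_zero, zero_mul, add_zero] at h1
    omega
  have hRM : IsRpM L L (alB β) R := ⟨hR.mem, hR.ne, hR.inj, hR.surj⟩
  have hdiff : alB β * w - w ∈ L.lattice := by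
    have h1 : alB β * w - w = emb β * (3 * w) := by
      unfold alB
      ring
    rw [h1]
    exact hCM _ _ hw.three
  have haw : alB β * w ∉ L.lattice := by
    intro h1
    have h2 := L.lattice.sub_mem h1 hdiff
    rw [sub_sub_cancel] at h2
    exact hw.ne h2
  have heq : alB β * w = w + (alB β * w - w) := by ring
  have hperP : L.weierstrassP (alB β * w) = e := by
    have h1 := L.weierstrassP_add_coe w ⟨_, hdiff⟩
    rw [heq, ← hw.P, ← h1]
  have hperD : L.derivWeierstrassP (alB β * w) = u ^ 3 * c := by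
    have h1 := L.derivWeierstrassP_add_coe w ⟨_, hdiff⟩
    rw [heq, ← hw.D, ← h1]
  obtain ⟨A₀, hA0, hdeg, hode, hiso⟩ := u_ISO L L (alB β) R ha0 hα hRM
  have hpfi := u_PFI L L (alB β) R ha0 hα hRM w haw
  set α : ℂ := alB β with hαd
  have hB0e : (C (α ^ 2) * ∏ q ∈ R, (X - C (L.weierstrassP q)) : ℂ[X]).eval e ≠ 0 := by
    intro h0
    exact haw ((hiso.ker w hw.ne).2 (by rw [hw.P]; exact h0))
  have hPe : (∏ q ∈ R, (X - C (L.weierstrassP q)) : ℂ[X]).eval e ≠ 0 := by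
    intro h0
    apply hB0e
    rw [eval_mul, h0, mul_zero]
  -- the factorisation
  have hid : A₀ - C e * (C (α ^ 2) * ∏ q ∈ R, (X - C (L.weierstrassP q))) =
      (X - C e) * ∏ q ∈ R, (X - C (L.weierstrassP (w + q))) := by
    have hm : (∏ q ∈ R, (X - C (L.weierstrassP q)) : ℂ[X]) ≠ 0 :=
      (monic_prod_of_monic _ _ (fun q _ => monic_X_sub_C _)).ne_zero
    refine cancel_eval hm fun x => ?_
    obtain ⟨z, hz, hzx⟩ := b_SUR L x
    by_cases hmz : α * z ∈ L.lattice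
    · obtain ⟨q, hq, hqz⟩ := hR.surj z hmz hz
      have h5 : (∏ q ∈ R, (X - C (L.weierstrassP q)) : ℂ[X]).eval x = 0 := by
        rw [eval_prod]
        refine Finset.prod_eq_zero hq ?_
        rw [eval_sub, eval_X, eval_C, ← hzx]
        have h6 : L.weierstrassP z = L.weierstrassP q := by
          have h7 := L.weierstrassP_add_coe q ⟨z - q, hqz⟩
          rw [← h7]
          congr 1
          simp
        rw [h6, sub_self]
      rw [h5, mul_zero, mul_zero]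
    · congr 1
      have h5 := hpfi z hmz
      have h6 := hiso.P z hz hmz
      rw [hperP, hw.P, hzx] at h5
      rw [hzx] at h6
      rw [eval_sub, ← h6]
      simp only [eval_mul, eval_C, eval_prod, eval_sub, eval_X]
      linear_combination h5
  have hAe : A₀.eval e = e * (C (α ^ 2) * ∏ q ∈ R, (X - C (L.weierstrassP q)) : ℂ[X]).eval e := by
    have h1 := hiso.P w hw.ne haw
    rw [hperP, hw.P] at h1
    exact h1.symm
  have hder := u_DER L L α A₀ _ hiso w hw.ne haw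
  rw [hperD, hw.D, hw.P] at hder
  have hod := ode_der hode e
  -- values of the derivatives of the products
  have hB0' : (derivative (C (α ^ 2) * ∏ q ∈ R, (X - C (L.weierstrassP q)) : ℂ[X])).eval e =
      (C (α ^ 2) * ∏ q ∈ R, (X - C (L.weierstrassP q)) : ℂ[X]).eval e *
        ∑ q ∈ R, 1 / (e - L.weierstrassP q) := by
    rw [derivative_C_mul, eval_mul, log_der R _ e hPe, eval_mul, eval_C, mul_assoc]
  set B₀ : ℂ[X] := C (α ^ 2) * ∏ q ∈ R, (X - C (L.weierstrassP q)) with hB0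
  clear_value B₀
  have d1 := congrArg (fun p : ℂ[X] => eval e (derivative p)) hid
  have d2 := congrArg (fun p : ℂ[X] => eval e (derivative (derivative p))) hid
  have hSlog := log_der R (fun q => L.weierstrassP (w + q)) e
  set S : ℂ[X] := ∏ q ∈ R, (X - C (L.weierstrassP (w + q))) with hS
  clear_value S
  simp only [derivative_mul, derivative_sub, derivative_add, derivative_X, derivative_C,
    eval_mul, eval_add, eval_sub, eval_C, eval_X, sub_zero, sub_self,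
    zero_mul, zero_add, one_mul, add_zero] at d1 d2
  have hS0 : S.eval e = α * B₀.eval e := by
    have h1 : (u ^ 3 * c) * B₀.eval e ≠ 0 :=
      mul_ne_zero (mul_ne_zero (pow_ne_zero 3 hu0) hc0) hB0e
    refine mul_left_cancel₀ h1 ?_
    simp only [eval_sub, eval_mul] at hder
    rw [hAe] at hder
    linear_combination (-1 : ℂ) * hder - u ^ 3 * c * B₀.eval e * d1
  have hSne : S.eval e ≠ 0 := by
    rw [hS0]
    exact mul_ne_zero ha0 hB0e
  have hS' := hSlog hSne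
  have hPw : 4 * e ^ 3 - L.g₂ * e - L.g₃ = u ^ 6 * c ^ 2 := by
    have h1 := L.derivWeierstrassP_sq w hw.ne
    rw [hw.D, hw.P] at h1
    linear_combination -h1
  have hPw' : 12 * e ^ 2 - L.g₂ = 2 * a * c * u ^ 4 := by
    rw [hg2]
    linear_combination (e + u ^ 2 * a ^ 2 / 12) * h12
  have e1 : (derivative A₀).eval e - e * (derivative B₀).eval e = α * B₀.eval e := by
    rw [← hS0]
    linear_combination d1
  have e2 : (derivative (derivative A₀)).eval e - e * (derivative (derivative B₀)).eval e =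
      2 * (derivative S).eval e := by
    linear_combination d2
  have key := alg ha0 hB0e hc0 hu0 hAe e1 e2 hPw hPw' hod
  have hxe : ∀ z, e - L.weierstrassP z = -(u ^ 2 * xu L u e z) := by
    intro z
    unfold xu
    field_simp
    ring
  have hs : ∀ g : ℂ → ℂ, ∑ q ∈ R, 1 / (e - L.weierstrassP (g q)) =
      -(∑ q ∈ R, 1 / xu L u e (g q)) / u ^ 2 := by
    intro g
    rw [← Finset.sum_neg_distrib, Finset.sum_div]
    refine Finset.sum_congr rfl fun q _ => ?_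
    rw [hxe, one_div, one_div, inv_neg, mul_inv]
    ring
  have hs1 := hs (fun q => q)
  have hs2 := hs (fun q => w + q)
  rw [hs1] at hB0'
  rw [hs2, hS0] at hS'
  rw [hB0', hS'] at key
  rw [Finset.sum_sub_distrib]
  have h1 : α * B₀.eval e ≠ 0 := mul_ne_zero ha0 hB0e
  refine mul_left_cancel₀ h1 ?_
  field_simp at key ⊢
  linear_combination -key

end

end Pool.Agent.N2R


end

section

/-!
# MUX-2R, block T (helper4): the prime ideal `P` above `2`, `2` ramified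

A generator `ϖ` of `P` at `V`: `w` (`A` even), `1 + w` (`A` odd). `ϖ ∈ P`, `ϖ ∉ P²`, `v(ϖ)² = v 2`.
-/

set_option autoImplicit false

namespace Pool.Agent.N2T

open _root_.MU3 _root_.Pool.Agent.MU3A _root_.Pool.Agent.MU3B _root_.Pool.Agent.RI _root_.Pool.Agent.MUX _root_.Pool.Agent.MUXU
open OnePoint _root_.Pool.Agent.NS _root_.Pool.Agent.N2 _root_.Pool.Agent.NST

noncomputable section

section
variable {A B : ℤ} {P : Ideal (OO A B)} {V : ValuationSubring ℂ}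

lemma r_v2 (hQ : CQ A B) (hP : IsPN 2 P) (hV : OverI V P) : V.valuation (2 : ℂ) < 1 := by
  have h3 := (hV _).2 hP.mem
  rw [ValuationSubring.mem_nonunits_iff, MUX.emb_natCast hQ] at h3
  exact_mod_cast h3

/-- integers -/
lemma r_int (h2 : V.valuation (2 : ℂ) < 1) (n : ℤ) : V.valuation (n : ℂ) ≤ 1 ∧
    (2 ∣ n → V.valuation (n : ℂ) ≤ V.valuation (2 : ℂ)) ∧
    (¬ 2 ∣ n → V.valuation (n : ℂ) = 1) := by
  have h1 : ∀ n : ℤ, V.valuation (n : ℂ) ≤ 1 := fun n =>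
    (V.valuation_le_one_iff _).2 (intCast_mem V n)
  refine ⟨h1 n, ?_, ?_⟩
  · rintro ⟨k, rfl⟩
    push_cast
    rw [map_mul]
    exact mul_le_of_le_one_right' (h1 k)
  · intro hn
    refine le_antisymm (h1 n) (not_lt.1 fun h3 => ?_)
    obtain ⟨k, hk⟩ : ∃ k, n = 2 * k + 1 := ⟨n / 2, by omega⟩
    have h4 : V.valuation (1 : ℂ) < 1 := by
      have e1 : (1 : ℂ) = (n : ℂ) - 2 * (k : ℂ) := by rw [hk]; push_cast; ring
      rw [e1]
      refine lt_of_le_of_lt (V.valuation.map_sub _ _) (max_lt h3 ?_)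
      rw [map_mul]
      exact mul_lt_one_of_lt_of_le h2 (h1 k)
    rw [map_one] at h4
    exact lt_irrefl _ h4

/-- the elements of `P` -/
lemma r_mem (hC : CaseR2 A B) (hV : OverI V P) (h2 : V.valuation (2 : ℂ) < 1)
    (hw : V.valuation (wC A B) ≤ 1) {x : OO A B} (hx : x ∈ P) :
    V.valuation (emb x) ^ 2 ≤ V.valuation (2 : ℂ) := by
  have hQ : CQ A B := hC.toCQ
  have hB := hC.b0
  have hxv : V.valuation (emb x) < 1 := by
    have := (hV x).2 hx
    rwa [ValuationSubring.mem_nonunits_iff] at this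
  have hint : ∀ y : OO A B, V.valuation (emb y) ≤ 1 := by
    intro y
    unfold emb
    refine (V.valuation.map_add _ _).trans (max_le (r_int h2 _).1 ?_)
    rw [map_mul]
    exact mul_le_one' (r_int h2 _).1 hw
  have hs := MUX.mul_star x
  have hs2 : emb x * emb (star x) = ((nm x : ℤ) : ℂ) := by
    rw [← MUX.emb_mul hQ, hs, MUX.emb_intCast hQ]
  have hn : V.valuation ((nm x : ℤ) : ℂ) ≤ V.valuation (2 : ℂ) := by
    apply (r_int h2 _).2.1
    by_contra h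
    have h3 := (r_int (V := V) h2 _).2.2 h
    rw [← hs2, map_mul] at h3
    exact absurd h3 (mul_lt_one_of_lt_of_le hxv (hint _)).ne
  have hd : V.valuation (emb x - emb (star x)) ≤ V.valuation (2 : ℂ) := by
    have h3 : emb x - emb (star x) = 2 * ((x.im : ℂ) * wC A B) := by
      have hB' : (B : ℂ) = 0 := by rw [hB]; norm_num
      unfold emb
      rw [QuadraticAlgebra.re_star, QuadraticAlgebra.im_star]
      push_cast
      linear_combination (-(x.im : ℂ)) * hB'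
    rw [h3, map_mul, map_mul]
    exact mul_le_of_le_one_right' (mul_le_one' (r_int h2 _).1 hw)
  rcases eq_or_ne (V.valuation (emb x)) (V.valuation (emb (star x))) with h3 | h3
  · rw [pow_two]
    nth_rewrite 2 [h3]
    rw [← map_mul, hs2]
    exact hn
  · have h4 : V.valuation (emb x) ≤ V.valuation (2 : ℂ) := by
      rcases lt_or_gt_of_ne h3 with h5 | h5
      · rw [Valuation.map_sub_eq_of_lt_right _ h5] at hd
        exact h5.le.trans hd
      · rw [Valuation.map_sub_eq_of_lt_left _ h5] at hd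
        exact hd
    rw [pow_two]
    exact (mul_le_of_le_one_right' hxv.le).trans h4

/-- the uniformiser -/
lemma r_unif (hC : CaseR2 A B) (hP : IsPN 2 P) (hV : OverI V P) :
    ∃ ϖ : OO A B, ϖ ∈ P ∧ ϖ ∉ P ^ 2 ∧ V.valuation (emb ϖ) ^ 2 = V.valuation (2 : ℂ) := by
  have hQ : CQ A B := hC.toCQ
  have hB := hC.b0
  have h2 := r_v2 hQ hP hV
  have hv2 : V.valuation (2 : ℂ) ≠ 0 := (Valuation.ne_zero_iff _).2 two_ne_zero
  have hwC : wC A B * wC A B = A := by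
    rw [MUX.wC_sq hQ, hB]
    push_cast
    ring
  have hw2 : V.valuation (wC A B) ^ 2 = V.valuation (A : ℂ) := by
    rw [← map_pow, pow_two, hwC]
  have hw : V.valuation (wC A B) ≤ 1 := by
    by_contra h
    push Not at h
    have h3 := (r_int (V := V) h2 A).1
    rw [← hw2] at h3
    exact absurd h3 (not_le.2 (one_lt_pow₀ h two_ne_zero))
  obtain ⟨ϖ, hϖ⟩ : ∃ ϖ : OO A B, V.valuation (emb ϖ) ^ 2 = V.valuation (2 : ℂ) := by
    rcases hC.mod with hA | hA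
    · refine ⟨⟨0, 1⟩, ?_⟩
      rw [MUX.emb_w, hw2]
      obtain ⟨k, hk⟩ : ∃ k, A = 2 * (2 * k + 1) := ⟨A / 4, by omega⟩
      have h3 : ¬ (2 : ℤ) ∣ 2 * k + 1 := by omega
      have h4 := (r_int (V := V) h2 _).2.2 h3
      rw [hk]
      push_cast at h4 ⊢
      rw [map_mul, h4, mul_one]
    · refine ⟨⟨1, 1⟩, ?_⟩
      have hA1 : ¬ (2 : ℤ) ∣ A := by omega
      have hw1 : V.valuation (wC A B) = 1 := by
        have h3 := (r_int (V := V) h2 _).2.2 hA1
        rw [← hw2] at h3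
        exact (pow_eq_one_iff.1 h3).resolve_right (by norm_num)
      obtain ⟨k, hk⟩ : ∃ k, A = 2 * (2 * k) - 1 := ⟨(A + 1) / 4, by omega⟩
      have h3 : emb (⟨1, 1⟩ : OO A B) ^ 2 = 2 * (wC A B + ((2 * k : ℤ) : ℂ)) := by
        have h4 : (A : ℂ) = 2 * (2 * k) - 1 := by rw [hk]; push_cast; ring
        unfold emb
        push_cast
        linear_combination hwC + h4
      rw [← map_pow, h3, map_mul]
      have h5 : V.valuation (wC A B + ((2 * k : ℤ) : ℂ)) = 1 := by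
        have h6 : V.valuation ((2 * k : ℤ) : ℂ) < V.valuation (wC A B) := by
          rw [hw1]
          exact lt_of_le_of_lt ((r_int h2 _).2.1 (Dvd.intro _ rfl)) h2
        rw [Valuation.map_add_eq_of_lt_left _ h6, hw1]
      rw [h5, mul_one]
  refine ⟨ϖ, ?_, ?_, hϖ⟩
  · rw [← hV, ValuationSubring.mem_nonunits_iff]
    by_contra h
    push Not at h
    have h3 := one_le_pow₀ h (n := 2)
    rw [hϖ] at h3
    exact absurd h2 (not_lt.2 h3)
  · intro h
    have key : ∀ x ∈ P ^ 2, V.valuation (emb x) ≤ V.valuation (2 : ℂ) := by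
      intro x hx
      rw [pow_two] at hx
      refine Submodule.mul_induction_on hx ?_ ?_
      · intro a ha b hb
        rw [MUX.emb_mul hQ, map_mul]
        have h3 := r_mem hC hV h2 hw ha
        have h4 := r_mem hC hV h2 hw hb
        have h5 : (V.valuation (emb a) * V.valuation (emb b)) ^ 2 ≤ V.valuation (2 : ℂ) ^ 2 := by
          rw [mul_pow, pow_two (V.valuation (2 : ℂ))]
          exact mul_le_mul' h3 h4
        exact (pow_le_pow_iff_left₀ zero_le zero_le two_ne_zero).1 h5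
      · intro a b ha hb
        rw [MUX.emb_add hQ]
        exact (V.valuation.map_add _ _).trans (max_le ha hb)
    have h3 := pow_le_pow_left₀ zero_le (key ϖ h) 2
    rw [hϖ, pow_two] at h3
    have h4 : V.valuation (2 : ℂ) * V.valuation (2 : ℂ) < V.valuation (2 : ℂ) := by
      calc V.valuation (2 : ℂ) * V.valuation (2 : ℂ) < 1 * V.valuation (2 : ℂ) :=
            mul_lt_mul_of_pos_right h2 (zero_lt_iff.2 hv2)
        _ = V.valuation (2 : ℂ) := one_mul _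
    exact absurd h3 (not_le.2 h4)

end

end

end Pool.Agent.N2T


end
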