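import Mathlib.GroupTheory.FiniteAbelian.Duality
import Mathlib.GroupTheory.PGroup
import Mathlib.NumberTheory.RamificationInertia.Valuation
import Pool.Agent.MVF.C002
import Pool.Agent.MVF.C022
import Pool.Agent.MVF.C033

/-! Parts: NS.T_GLC, VB.Defs, VB.StVB, VB.V_TCQ, VB.V_LIM, VB.V_SPN, VB.V_UIX, VB.V_CGP, VB.V_VD2, VB.V_DGR, VB.V_FRC -/

namespace Pool.Agent.VB.DGRa
end Pool.Agent.VB.DGRa
namespace Pool.Agent.VB.LIMa
end Pool.Agent.VB.LIMa
namespace Pool.Agent.VB.SPN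
end Pool.Agent.VB.SPN
namespace Pool.Agent.VB.VD2
end Pool.Agent.VB.VD2

section

/-!
# MUX-NS, block TN, module GLC: a finite Galois extension of `k` which contains given numbers
-/

set_option autoImplicit false

namespace Pool.Agent.NST

open _root_.MU3 _root_.Pool.Agent.MU3A _root_.Pool.Agent.MU3B _root_.Pool.Agent.RI _root_.Pool.Agent.MUX _root_.Pool.Agent.MUXU
open OnePoint _root_.Pool.Agent.NS

noncomputable section

namespace GLC

/-- a finite extension inside `ℂ` is contained in a finite Galois extension inside `ℂ` -/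
lemma exists_galois {K : IntermediateField ℚ ℂ} (M : IntermediateField K ℂ)
    [FiniteDimensional K M] :
    ∃ F : IntermediateField K ℂ, FiniteDimensional K F ∧ IsGalois K F ∧ M ≤ F := by
  have hn : IsNormalClosure K M (IntermediateField.normalClosure K M ℂ) :=
    Algebra.IsAlgebraic.isNormalClosure_normalClosure fun x => IsAlgClosed.splits _
  have hN : Normal K (IntermediateField.normalClosure K M ℂ) := hn.normal
  exact ⟨IntermediateField.normalClosure K M ℂ, inferInstance, ⟨⟩, M.le_normalClosure⟩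

end GLC

theorem nt_GLC : Nt_GLC := by
  intro A B _ E hE T hT ha
  have hi : ∀ t ∈ T, IsIntegral (kk A B) t := fun t ht =>
    ((ha t ht).tower_top (kk A B)).isIntegral
  have hTf : Finite T := hT
  have hM : FiniteDimensional (kk A B) (IntermediateField.adjoin (kk A B) T) :=
    IntermediateField.finiteDimensional_adjoin hi
  have hS : FiniteDimensional (kk A B)
      ((E ⊔ IntermediateField.adjoin (kk A B) T : IntermediateField (kk A B) ℂ)) :=
    IntermediateField.finiteDimensional_sup E _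
  obtain ⟨F, h1, h2, h3⟩ := GLC.exists_galois (E ⊔ IntermediateField.adjoin (kk A B) T)
  exact ⟨F, h1, h2, le_sup_left.trans h3, fun t ht =>
    (le_sup_right.trans h3) (IntermediateField.subset_adjoin (kk A B) T ht)⟩

end

end Pool.Agent.NST


end

section

/-!
# VB: unramified extensions of degree `p` of the cyclotomic `ℤ_p`-extension: definitions (helper51)

All fields are subfields of `ℂ` (`IntermediateField ℚ ℂ`), also infinite algebraic extensions of `ℚ`. Galois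
groups and inertia groups are described by automorphisms `σ : ℂ ≃+* ℂ` and valuation rings `V` of `ℂ`:

* `Fixes L σ`: `σ x = x` for `x ∈ L`.
* `Inr V M σ`: `σ x - x` is a nonunit of `V` for all `x ∈ M ∩ V`: `σ` is in the inertia group of `V` on `M`.
* `TI V L M`: an automorphism which fixes `L` and is in the inertia group of `V` on `M` is trivial on `M`: the
  inertia group of `V` in `M / L` is trivial. `UNR L M`: this holds for all `V`: `M / L` is unramified (`M / L` Galois).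
* `Nrm L M`: `M` is stable under the automorphisms which fix `L` (for algebraic `M / L`: normal).
* `cR L M`, `cI V L M`: the number of restrictions to `M` of the automorphisms which fix `L` (and are inert).
* `adj L y = L(y)`. `InD p L x`: `x ∈ L`, `x ≠ 0` and `L(x^(1/p)) / L` is unramified.
* `UM p E`: the set of all unramified Galois extensions `M / E` of degree `p`.
* `Tow p F B n₁ γ`: the tower `F_j = F B_(n₁+j)`, `γ^(p^j)` generates `Gal(F_∞ / F_j)`, the primes above `p` are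
  totally ramified, the others are unramified.

The group structure of `ℂ ≃+* ℂ` is `(σ * τ) x = σ (τ x)`.
-/

set_option autoImplicit false

open NumberField IsDedekindDomain
open scoped nonZeroDivisors Pointwise

namespace Pool.Agent.VB

open _root_.Pool.Agent.RI

noncomputable section

/-! ## Automorphisms -/

/-- `σ` fixes all elements of `L` -/
def Fixes (L : IntermediateField ℚ ℂ) (σ : ℂ ≃+* ℂ) : Prop := ∀ x ∈ L, σ x = x

/-- `σ` is in the inertia group of `V` on `M` -/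
def Inr (V : ValuationSubring ℂ) (M : IntermediateField ℚ ℂ) (σ : ℂ ≃+* ℂ) : Prop :=
  ∀ x ∈ M, x ∈ V → σ x - x ∈ V.nonunits

/-- the inertia group of `V` in `M / L` is trivial -/
def TI (V : ValuationSubring ℂ) (L M : IntermediateField ℚ ℂ) : Prop :=
  ∀ σ : ℂ ≃+* ℂ, Fixes L σ → Inr V M σ → Fixes M σ

/-- all inertia groups are trivial -/
def UNR (L M : IntermediateField ℚ ℂ) : Prop := ∀ V : ValuationSubring ℂ, TI V L M

/-- `M` is stable under all automorphisms that fix `L` -/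
def Nrm (L M : IntermediateField ℚ ℂ) : Prop := ∀ σ : ℂ ≃+* ℂ, Fixes L σ → ∀ x ∈ M, σ x ∈ M

/-- the number of restrictions to `M` of the automorphisms that fix `L` -/
def cR (L M : IntermediateField ℚ ℂ) : ℕ :=
  Nat.card {f : M → ℂ // ∃ σ : ℂ ≃+* ℂ, Fixes L σ ∧ ∀ x : M, f x = σ x}

/-- the order of the inertia group of `V` in `M / L` -/
def cI (V : ValuationSubring ℂ) (L M : IntermediateField ℚ ℂ) : ℕ :=
  Nat.card {f : M → ℂ // ∃ σ : ℂ ≃+* ℂ, Fixes L σ ∧ Inr V M σ ∧ ∀ x : M, f x = σ x}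

/-- the elements fixed by `σ` -/
def FixF (σ : ℂ ≃+* ℂ) : IntermediateField ℚ ℂ :=
  { carrier := {x | σ x = x}
    mul_mem' := fun {a b} (ha : σ a = a) (hb : σ b = b) => by
      show σ (a * b) = a * b
      rw [map_mul, ha, hb]
    one_mem' := map_one σ
    add_mem' := fun {a b} (ha : σ a = a) (hb : σ b = b) => by
      show σ (a + b) = a + b
      rw [map_add, ha, hb]
    zero_mem' := map_zero σ
    algebraMap_mem' := fun r => by
      show σ ((r : ℚ) : ℂ) = ((r : ℚ) : ℂ)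
      exact map_ratCast σ r
    inv_mem' := fun a (ha : σ a = a) => by
      show σ a⁻¹ = a⁻¹
      rw [map_inv₀, ha] }

lemma mem_FixF {σ : ℂ ≃+* ℂ} {x : ℂ} : x ∈ FixF σ ↔ σ x = x := Iff.rfl

lemma fixes_iff {L : IntermediateField ℚ ℂ} {σ : ℂ ≃+* ℂ} : Fixes L σ ↔ L ≤ FixF σ := Iff.rfl

lemma fixes_mono {L L' : IntermediateField ℚ ℂ} (h : L ≤ L') {σ : ℂ ≃+* ℂ} (hσ : Fixes L' σ) :
    Fixes L σ := fun x hx => hσ x (h hx)

lemma fixes_bot (σ : ℂ ≃+* ℂ) : Fixes ⊥ σ := fixes_iff.2 bot_le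

lemma fixes_sup {L L' : IntermediateField ℚ ℂ} {σ : ℂ ≃+* ℂ} (h : Fixes L σ) (h' : Fixes L' σ) :
    Fixes (L ⊔ L') σ := fixes_iff.2 (sup_le (fixes_iff.1 h) (fixes_iff.1 h'))

lemma fixes_iSup {B : ℕ → IntermediateField ℚ ℂ} {σ : ℂ ≃+* ℂ} (h : ∀ n, Fixes (B n) σ) :
    Fixes (⨆ n, B n) σ := fixes_iff.2 (iSup_le fun n => fixes_iff.1 (h n))

lemma fixes_one (L : IntermediateField ℚ ℂ) : Fixes L 1 := fun _ _ => rfl

lemma fixes_mul {L : IntermediateField ℚ ℂ} {σ τ : ℂ ≃+* ℂ} (h : Fixes L σ) (h' : Fixes L τ) :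
    Fixes L (σ * τ) := fun x hx => by
  show σ (τ x) = x
  rw [h' x hx, h x hx]

lemma fixes_inv {L : IntermediateField ℚ ℂ} {σ : ℂ ≃+* ℂ} (h : Fixes L σ) : Fixes L σ⁻¹ :=
  fun x hx => by
  show σ.symm x = x
  rw [RingEquiv.symm_apply_eq]
  exact (h x hx).symm

lemma fixes_pow {L : IntermediateField ℚ ℂ} {σ : ℂ ≃+* ℂ} (h : Fixes L σ) (n : ℕ) :
    Fixes L (σ ^ n) := by
  induction n with
  | zero => exact fixes_one L
  | succ n ih => rw [pow_succ]; exact fixes_mul ih h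

/-! ## Inertia -/

lemma nonunits_sub {V : ValuationSubring ℂ} {a b : ℂ} (ha : a ∈ V.nonunits) (hb : b ∈ V.nonunits) :
    a - b ∈ V.nonunits := by
  rw [ValuationSubring.mem_nonunits_iff] at *
  exact (Valuation.map_sub _ a b).trans_lt (max_lt ha hb)

lemma nonunits_add {V : ValuationSubring ℂ} {a b : ℂ} (ha : a ∈ V.nonunits) (hb : b ∈ V.nonunits) :
    a + b ∈ V.nonunits := by
  rw [ValuationSubring.mem_nonunits_iff] at *
  exact (Valuation.map_add _ a b).trans_lt (max_lt ha hb)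

lemma nonunits_mul {V : ValuationSubring ℂ} {a b : ℂ} (ha : a ∈ V) (hb : b ∈ V.nonunits) :
    a * b ∈ V.nonunits := by
  rw [ValuationSubring.mem_nonunits_iff] at *
  rw [map_mul]
  exact lt_of_le_of_lt (mul_le_of_le_one_left' ((V.valuation_le_one_iff a).2 ha)) hb

lemma nonunits_le {V : ValuationSubring ℂ} {a : ℂ} (ha : a ∈ V.nonunits) : a ∈ V := by
  rw [ValuationSubring.mem_nonunits_iff] at ha
  exact (V.valuation_le_one_iff a).1 ha.le

lemma inr_mono {V : ValuationSubring ℂ} {M M' : IntermediateField ℚ ℂ} (h : M' ≤ M)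
    {σ : ℂ ≃+* ℂ} (hσ : Inr V M σ) : Inr V M' σ := fun x hx hV => hσ x (h hx) hV

/-- inertia groups are closed under products -/
lemma inr_mul {V : ValuationSubring ℂ} {M : IntermediateField ℚ ℂ} {σ τ : ℂ ≃+* ℂ}
    (hσ : Inr V M σ) (hτ : Inr V M τ) (h : ∀ x ∈ M, τ x ∈ M) : Inr V M (σ * τ) := by
  intro x hx hV
  have h1 := hτ x hx hV
  have h2 : τ x ∈ V := by
    have : τ x = (τ x - x) + x := by ring
    rw [this]
    exact V.add_mem _ _ (nonunits_le h1) hV
  have h3 := hσ (τ x) (h x hx) h2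
  have h4 : (σ * τ) x - x = (σ (τ x) - τ x) + (τ x - x) := by
    show σ (τ x) - x = _
    ring
  rw [h4]
  exact nonunits_add h3 h1

lemma inr_one (V : ValuationSubring ℂ) (M : IntermediateField ℚ ℂ) : Inr V M 1 := by
  intro x _ _
  show x - x ∈ V.nonunits
  rw [sub_self, ValuationSubring.mem_nonunits_iff, map_zero]
  exact zero_lt_one

/-- inertia groups are closed under inverses -/
lemma inr_inv {V : ValuationSubring ℂ} {M : IntermediateField ℚ ℂ} {τ : ℂ ≃+* ℂ}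
    (hτ : Inr V M τ) (h : ∀ x ∈ M, (τ⁻¹ : ℂ ≃+* ℂ) x ∈ M) : Inr V M τ⁻¹ := by
  intro x hx hV
  set y := (τ⁻¹ : ℂ ≃+* ℂ) x with hy
  have hτy : τ y = x := τ.apply_symm_apply x
  have hyM : y ∈ M := h x hx
  have hyV : y ∈ V := by
    by_contra hn
    have hy0 : y ≠ 0 := by
      rintro h0
      rw [h0] at hn
      exact hn V.zero_mem
    have h1 : y⁻¹ ∈ V.nonunits := by
      rw [ValuationSubring.mem_nonunits_iff, map_inv₀]
      rw [← V.valuation_le_one_iff, not_le] at hn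
      exact inv_lt_one_of_one_lt₀ hn
    have h2 := hτ y⁻¹ (M.inv_mem hyM) (nonunits_le h1)
    rw [map_inv₀, hτy] at h2
    have h3 : x⁻¹ ∈ V.nonunits := by
      have : x⁻¹ = (x⁻¹ - y⁻¹) + y⁻¹ := by ring
      rw [this]
      exact nonunits_add h2 h1
    have h4 := nonunits_mul hV h3
    have hx0 : x ≠ 0 := by
      rintro rfl
      rw [map_zero] at hy
      exact hy0 hy
    rw [mul_inv_cancel₀ hx0, ValuationSubring.mem_nonunits_iff, map_one] at h4
    exact lt_irrefl _ h4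
  have h5 := hτ y hyM hyV
  rw [hτy] at h5
  have h6 : y - x = 0 - (x - y) := by ring
  rw [h6]
  refine nonunits_sub ?_ h5
  rw [ValuationSubring.mem_nonunits_iff, map_zero]
  exact zero_lt_one

lemma inr_pow {V : ValuationSubring ℂ} {M : IntermediateField ℚ ℂ} {σ : ℂ ≃+* ℂ}
    (hσ : Inr V M σ) (h : ∀ x ∈ M, σ x ∈ M) (n : ℕ) : Inr V M (σ ^ n) := by
  induction n with
  | zero => exact inr_one V M
  | succ n ih => rw [pow_succ]; exact inr_mul ih hσ h

/-- base change -/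
lemma ti_base {V : ValuationSubring ℂ} {L M L' : IntermediateField ℚ ℂ} (h : TI V L M)
    (hL : L ≤ L') : TI V L' (L' ⊔ M) := fun σ hσ hI =>
  fixes_sup hσ (h σ (fixes_mono hL hσ) (inr_mono le_sup_right hI))

/-- compositum -/
lemma ti_sup {V : ValuationSubring ℂ} {L M M' : IntermediateField ℚ ℂ} (h : TI V L M)
    (h' : TI V L M') : TI V L (M ⊔ M') := fun σ hσ hI =>
  fixes_sup (h σ hσ (inr_mono le_sup_left hI)) (h' σ hσ (inr_mono le_sup_right hI))

lemma ti_self (V : ValuationSubring ℂ) (L : IntermediateField ℚ ℂ) : TI V L L :=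
  fun _ hσ _ => hσ

/-! ## Normality -/

/-- the elements mapped to `N` by `σ` -/
def PreF (σ : ℂ ≃+* ℂ) (N : IntermediateField ℚ ℂ) : IntermediateField ℚ ℂ :=
  { carrier := {x | σ x ∈ N}
    mul_mem' := fun {a b} (ha : σ a ∈ N) (hb : σ b ∈ N) => by
      show σ (a * b) ∈ N
      rw [map_mul]
      exact mul_mem ha hb
    one_mem' := by
      show σ 1 ∈ N
      rw [map_one]
      exact one_mem N
    add_mem' := fun {a b} (ha : σ a ∈ N) (hb : σ b ∈ N) => by
      show σ (a + b) ∈ N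
      rw [map_add]
      exact add_mem ha hb
    zero_mem' := by
      show σ 0 ∈ N
      rw [map_zero]
      exact zero_mem N
    algebraMap_mem' := fun r => by
      show σ ((r : ℚ) : ℂ) ∈ N
      rw [map_ratCast σ r]
      exact N.algebraMap_mem r
    inv_mem' := fun a (ha : σ a ∈ N) => by
      show σ a⁻¹ ∈ N
      rw [map_inv₀]
      exact inv_mem ha }

lemma mem_PreF {σ : ℂ ≃+* ℂ} {N : IntermediateField ℚ ℂ} {x : ℂ} : x ∈ PreF σ N ↔ σ x ∈ N :=
  Iff.rfl

lemma nrm_self (L : IntermediateField ℚ ℂ) : Nrm L L := fun σ hσ x hx => by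
  rw [hσ x hx]
  exact hx

lemma nrm_mono {L L' M : IntermediateField ℚ ℂ} (h : L ≤ L') (hM : Nrm L M) : Nrm L' M :=
  fun σ hσ => hM σ (fixes_mono h hσ)

lemma nrm_sup {L M M' : IntermediateField ℚ ℂ} (h : Nrm L M) (h' : Nrm L M') :
    Nrm L (M ⊔ M') := by
  intro σ hσ
  have h1 : M ⊔ M' ≤ PreF σ (M ⊔ M') :=
    sup_le (fun x hx => (le_sup_left : M ≤ M ⊔ M') (h σ hσ x hx))
      (fun x hx => (le_sup_right : M' ≤ M ⊔ M') (h' σ hσ x hx))
  exact fun x hx => h1 hx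

/-! ## Kummer extensions -/

/-- `L(y)` -/
def adj (L : IntermediateField ℚ ℂ) (y : ℂ) : IntermediateField ℚ ℂ :=
  L ⊔ IntermediateField.adjoin ℚ {y}

lemma le_adj (L : IntermediateField ℚ ℂ) (y : ℂ) : L ≤ adj L y := le_sup_left

lemma mem_adj (L : IntermediateField ℚ ℂ) (y : ℂ) : y ∈ adj L y :=
  (le_sup_right : _ ≤ adj L y) (IntermediateField.mem_adjoin_simple_self ℚ y)

lemma adj_le {L M : IntermediateField ℚ ℂ} {y : ℂ} (h : L ≤ M) (hy : y ∈ M) : adj L y ≤ M :=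
  sup_le h (IntermediateField.adjoin_le_iff.2 (Set.singleton_subset_iff.2 hy))

lemma fixes_adj {L : IntermediateField ℚ ℂ} {y : ℂ} {σ : ℂ ≃+* ℂ} (h : Fixes L σ)
    (hy : σ y = y) : Fixes (adj L y) σ := fixes_iff.2 (adj_le (fixes_iff.1 h) hy)

/-- `L(y)` is stable if all conjugates of `y` are in `L(y)` -/
lemma nrm_adj {L : IntermediateField ℚ ℂ} {y : ℂ}
    (h : ∀ σ : ℂ ≃+* ℂ, Fixes L σ → σ y ∈ adj L y) : Nrm L (adj L y) := by
  intro σ hσ
  have h1 : adj L y ≤ PreF σ (adj L y) := adj_le (fun x hx => by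
    rw [mem_PreF, hσ x hx]
    exact le_adj L y hx) (h σ hσ)
  exact fun x hx => h1 hx

/-- `x ∈ L`, `x ≠ 0` and `L(x^(1/p)) / L` is unramified -/
def InD (p : ℕ) (L : IntermediateField ℚ ℂ) (x : ℂ) : Prop :=
  x ∈ L ∧ x ≠ 0 ∧ ∀ y : ℂ, y ^ p = x → UNR L (adj L y)

/-- the `p`-th powers of the nonzero elements of `L` -/
def PL (p : ℕ) (L : IntermediateField ℚ ℂ) : Subgroup ℂˣ where
  carrier := {x | ∃ t : ℂˣ, (t : ℂ) ∈ L ∧ t ^ p = x}
  mul_mem' := by
    rintro a b ⟨t, ht, rfl⟩ ⟨u, hu, rfl⟩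
    exact ⟨t * u, by rw [Units.val_mul]; exact mul_mem ht hu, mul_pow t u p⟩
  one_mem' := ⟨1, one_mem L, one_pow p⟩
  inv_mem' := by
    rintro a ⟨t, ht, rfl⟩
    exact ⟨t⁻¹, by rw [Units.val_inv_eq_inv_val]; exact inv_mem ht, inv_pow t p⟩

/-- totally complex -/
def TCx (L : IntermediateField ℚ ℂ) : Prop :=
  ∀ φ : L →+* ℂ, ∃ x : L, (starRingEnd ℂ) (φ x) ≠ φ x

lemma tcx_mono {L M : IntermediateField ℚ ℂ} (h : L ≤ M) (hL : TCx L) : TCx M := by
  intro φ
  obtain ⟨x, hx⟩ := hL (φ.comp (IntermediateField.inclusion h : L →+* M))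
  exact ⟨IntermediateField.inclusion h x, hx⟩

/-- the unramified Galois extensions of `E` of degree `p` -/
def UM (p : ℕ) (E : IntermediateField ℚ ℂ) : Set (IntermediateField ℚ ℂ) :=
  {M | ∃ h : E ≤ M, IsGalois E (IntermediateField.extendScalars h) ∧
    Module.finrank E (IntermediateField.extendScalars h) = p ∧ UNR E M}

/-- `F_∞ = F ⊔ ⋃ B n` -/
def Finf (F : IntermediateField ℚ ℂ) (B : ℕ → IntermediateField ℚ ℂ) : IntermediateField ℚ ℂ :=
  F ⊔ ⨆ n, B n

lemma le_Finf (F : IntermediateField ℚ ℂ) (B : ℕ → IntermediateField ℚ ℂ) (n : ℕ) :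
    F ⊔ B n ≤ Finf F B := sup_le_sup_left (le_iSup B n) F

/-- the tower `F_j = F B_(n₁+j)` -/
structure Tow (p : ℕ) (F : IntermediateField ℚ ℂ) (B : ℕ → IntermediateField ℚ ℂ) (n₁ : ℕ)
    (γ : ℂ ≃+* ℂ) : Prop where
  fd : ∀ n, FiniteDimensional ℚ ↥(F ⊔ B n)
  fdB : ∀ n, FiniteDimensional ℚ (B n)
  lay : ∀ n, IsLayer p n (B n)
  mono : Monotone B
  nrm : ∀ n, Nrm ⊥ (B n)
  zeta : ∃ ζ ∈ F, IsPrimitiveRoot ζ p
  fix : ∀ j, Fixes (F ⊔ B (n₁ + j)) (γ ^ p ^ j)
  gen : ∀ j m, j ≤ m → ∀ σ : ℂ ≃+* ℂ, Fixes (F ⊔ B (n₁ + j)) σ →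
    ∃ i : ℕ, ∀ x ∈ F ⊔ B (n₁ + m), σ x = (γ ^ (p ^ j * i)) x
  deg : ∀ j, Module.finrank ℚ ↥(F ⊔ B (n₁ + j)) = Module.finrank ℚ ↥(F ⊔ B n₁) * p ^ j
  tot : ∀ V : ValuationSubring ℂ, (p : ℂ) ∈ V.nonunits → ∀ (j m : ℕ) (σ : ℂ ≃+* ℂ),
    Fixes (F ⊔ B (n₁ + j)) σ → Inr V (F ⊔ B (n₁ + m)) σ
  unl : ∀ V : ValuationSubring ℂ, (p : ℂ) ∉ V.nonunits → ∀ j m : ℕ,
    TI V (F ⊔ B (n₁ + j)) (F ⊔ B (n₁ + m))

end

end Pool.Agent.VB


end

section

/-!
# VB: statements (helper51)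

`F` a number field (subfield of `ℂ`), `B n` the layers of the cyclotomic `ℤ_p`-extension of `ℚ`, `F_∞ = Finf F B`. MAIN THEOREM
(`Sb_FNP`, `Sb_RED`): if `v_p h(F' B_n)` is bounded by a polynomial in `n` for a totally complex finite `F' ⊇ F` with `μ_p ⊆ F'`,
then `F_∞` has only finitely many unramified Galois extensions of degree `p`. So `X / p X` is finite, `X` the Galois
group of the maximal unramified abelian pro-`p` extension of `F_∞`: `μ = 0`.

Every `def Sb_X : Prop` is the statement of a module; it is proved as `theorem tb_X (h : Sb_Y) .. : Sb_X` in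
`Pool/Agent/VB/V_X.lean`, namespace `Pool.Agent.VB`, where the `Sb_Y` are the statements named after USES (or fewer). Theorems
which are on main may be cited. ALWAYS AVAILABLE: (AUE) `Pool.Agent.MUXU.u_AUE` (`MUX/UAll.lean`): a ring homomorphism `F → ℂ`,
`F/ℚ` algebraic, extends to an automorphism of `ℂ`; (AUF) `u_AUF`: an element of `ℂ` fixed by all automorphisms which fix `F`
(`F/ℚ` algebraic) is in `F`. The group operation of `ℂ ≃+* ℂ` is `(σ * τ) x = σ (τ x)`. Lemmas on `Fixes`, `Inr`, `TI`,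
`adj`: `Defs.lean`.

PLAN. (1) inertia groups: `cI` is multiplicative (MUL). (2) the tower (TOW). (3) Kummer theory: `D_j` = the `x ∈ F_j` with
`F_j(x^(1/p)) / F_j` unramified. If `F_m(x^(1/p)) / F_m` is unramified, `x ∈ F_j`, `m > j`, then `x ∈ D_(j+1)` (VD2). (4)
`|D_j / F_j^p| ≤ p^(v_p h(F_j) + 1)` (CNT): the first inequality (FIQ of block HB) and densities. (5) `A = ⋃ D_j / F_∞^p`, `γ` acts,
`|A^(γ^(p^j))| ≤ p^(v_p h(F_(j+1)) + 1) < 2^(p^j)` for one `j`, so `A` is finite (ABS).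
-/

set_option autoImplicit false

open NumberField IsDedekindDomain Filter Topology
open scoped nonZeroDivisors Pointwise

namespace Pool.Agent.VB

open _root_.Pool.Agent.RI _root_.Pool.Agent.MU3 _root_.Pool.Agent.Lib_helper28.FROB

/-! ## 1. Inertia groups -/

/-- (FRC) the elements of `M ∩ V` are fractions; it suffices to test inertia on integers.

PROOF. (1) `P = {a ∈ 𝓞 M : a ∈ V.nonunits}` is a prime ideal of `𝓞 M` (integral elements are in `V`: valuation rings are integrally closed). Let `x ∈ M ∩ V`, `x ≠ 0`. If `P = 0`: `x = s/t` with `s, t ∈ 𝓞 M`, `t ≠ 0`, so `t ∉ V.nonunits`. If `P ≠ 0`, `w` the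
prime `P` (`HeightOneSpectrum`): if `w(x) ≤ 1` then `x = s/t` with `t ∉ P` (localization at `P`; compare `w_LOC` in `MU3/AVAll.lean` and its proof). If `w(x) > 1` then `x⁻¹ = s/t` with `s ∈ P`, `t ∉ P`: `t` is a unit of `V`, so `x⁻¹ ∈ V.nonunits`, but `x ∈ V`:
`1 = x x⁻¹ ∈ V.nonunits`, a contradiction. (2) `x = s/t`, `σ t - t ∈ V.nonunits`, so `σ t ∈ V`, `σ t ∉ V.nonunits`; `σ x - x = ((σ s - s) t - s (σ t - t)) / (t σ t)`, the numerator is in `V.nonunits`, the denominator is a unit of `V`. -/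
def Sb_FRC : Prop := ∀ (M : IntermediateField ℚ ℂ) [FiniteDimensional ℚ M]
    (V : ValuationSubring ℂ),
    (∀ x ∈ M, x ∈ V → ∃ s t : 𝓞 M, ((t : M) : ℂ) ∉ V.nonunits ∧
      x = ((s : M) : ℂ) / ((t : M) : ℂ)) ∧
    ∀ σ : ℂ ≃+* ℂ, (∀ x : 𝓞 M, σ ((x : M) : ℂ) - ((x : M) : ℂ) ∈ V.nonunits) → Inr V M σ

/-- (CRD) the numbers `cR`, `cI`.

PROOF. The restrictions to `M` of the automorphisms which fix `L` are the ring homomorphisms `M → ℂ` which are the identity on `L` (AUE: `M/ℚ` is algebraic), i.e. the elements of `M →ₐ[L] ℂ` for the algebra structure `algC h` on `M`: there are `[M : L]` (`AlgHom.card`, characteristic 0).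
`[M : ℚ] = [L : ℚ][M : L]` (`finrank_algC`, tower law). `cI` is the number of elements of a subset which contains the inclusion (the restriction of `1`); it is `1` iff the inclusion is the only element iff `TI V L M`. -/
def Sb_CRD : Prop := ∀ (L M : IntermediateField ℚ ℂ) [FiniteDimensional ℚ M] (h : L ≤ M),
    Module.finrank ℚ M = Module.finrank ℚ L * cR L M ∧ 0 < cR L M ∧
    Module.finrank L (IntermediateField.extendScalars h) = cR L M ∧
    Finite {f : M → ℂ // ∃ σ : ℂ ≃+* ℂ, Fixes L σ ∧ ∀ x : M, f x = σ x} ∧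
    ∀ V : ValuationSubring ℂ, 0 < cI V L M ∧ cI V L M ≤ cR L M ∧ (cI V L M = 1 ↔ TI V L M) ∧
      ((∀ σ : ℂ ≃+* ℂ, Fixes L σ → Inr V M σ) → cI V L M = cR L M)

/-- (NRM) normal extensions (also infinite ones).

PROOF. `→`: `σ` fixes `L`, `x ∈ M`: `σ x` is a root of the minimal polynomial of `x` over `L`, which splits in `M`. `←`: `M/L` is algebraic, separable (characteristic 0). For `x ∈ M` and a root `z` in `ℂ` of the minimal polynomial of `x` over `L` the homomorphism `L(x) → ℂ`, `x ↦ z`, extends to an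
automorphism `σ` of `ℂ` (AUE for `L(x)`, algebraic over `ℚ`), which fixes `L`: `z = σ x ∈ M`. So the polynomial splits in `M`. -/
def Sb_NRM : Prop := ∀ (L M : IntermediateField ℚ ℂ), Algebra.IsAlgebraic ℚ M → ∀ h : L ≤ M,
    (IsGalois L (IntermediateField.extendScalars h) ↔ Nrm L M)

/-- (CIR) the order of the inertia group is the ramification index.

USES FRC, NRM. PROOF. `G = Gal(M/L)` (`M ≃ₐ[L] M` with `algC h`, `isGalois_algC`). The set counted by `cI V L M` is in bijection with `{τ ∈ G : ∀ x ∈ 𝓞 M, τ x - x ∈ P}` (restriction: `Nrm`; extension: AUE; FRC (2)), which is `P.asIdeal.inertia G`. Mathlib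
`Ideal.card_inertia_eq_ramificationIdxIn` (`NumberTheory/RamificationInertia/Galois.lean`; the residue fields are finite, so perfect) and `Ideal.ramificationIdxIn_eq_ramificationIdx`. Compare `J_RAM.lean`/`J_INJ.lean` in `Pool/Agent/MUX`. -/
def Sb_CIR : Prop := ∀ (V : ValuationSubring ℂ) (L M : IntermediateField ℚ ℂ)
    [FiniteDimensional ℚ M] (h : L ≤ M), Nrm L M → ∀ P : HeightOneSpectrum (𝓞 M),
    (∀ x : 𝓞 M, x ∈ P.asIdeal ↔ ((x : M) : ℂ) ∈ V.nonunits) →
    letI := algC h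
    cI V L M = P.asIdeal.ramificationIdx (𝓞 L)

/-- (MUL) the orders of the inertia groups are multiplicative; trivial inertia in a subextension.

USES FRC, CRD, CIR. PROOF. `Nrm M' M` follows from `Nrm L M`. `P = {x ∈ 𝓞 M : x ∈ V.nonunits}`, a prime ideal. Case `P = 0`: `M ⊆ V` (`x = s/t`, `t ∉ V.nonunits`, so `t⁻¹ ∈ V`); `M ∩ V.nonunits = 0`, so an inert `σ` which maps `M` to `M` is trivial on `M`: all three numbers are `1` (CRD).
Case `P ≠ 0`: (CIR) for `M/L`, `M/M'` with `P` and for `M'/L` with `P' = P ∩ 𝓞 M'` (it is `≠ 0` as it contains the integer `absNorm P`), `Ideal.ramificationIdx_tower`. The second part: `cI V L M = 1` implies `cI V L M' = 1` (CRD). -/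
def Sb_MUL : Prop := ∀ (V : ValuationSubring ℂ) (L M' M : IntermediateField ℚ ℂ)
    [FiniteDimensional ℚ M], L ≤ M' → M' ≤ M → Nrm L M' → Nrm L M →
    cI V L M = cI V M' M * cI V L M' ∧ (TI V L M → TI V L M')

/-- (UNR) unramified in the sense of block HB.

USES CIR, CRD. PROOF. `w` a prime of `𝓞 M` above `v`; (EXT) `MU3X.v_EXT` (`MU3/AVAll.lean`) with the inclusion `M → ℂ` gives `V` with `V.valuation x < 1 ↔ w.valuation M x < 1`, so `x ∈ w ↔ x ∈ V.nonunits` for `x ∈ 𝓞 M`. `TI V L M`: `cI = 1`, so `e = 1` (CIR). `Ideal.ramificationIdx'_eq_ramificationIdx`,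
`HeightOneSpectrum.valuation_liesOver`: `ord w (iu x) = e ord v x` (see `Pool/Agent/HB/H_ORN.lean`). -/
def Sb_UNR : Prop := ∀ (L M : IntermediateField ℚ ℂ) [FiniteDimensional ℚ L]
    [FiniteDimensional ℚ M] (h : L ≤ M), Nrm L M → UNR L M →
    letI := algC h
    ∀ v : HeightOneSpectrum (𝓞 L), Pool.Agent.HB.Unr L M v

/-! ## 2. The tower -/

/-- (CYQ) ramification in the layers.

USES FRC, NRM, MUL. PROOF. `B ≤ C = ℚ(ζ)`, `ζ` a primitive root of unity of order `p^m`. (1) `p ∈ V.nonunits`: `(ζ - 1)^(p^m) ∈ p ℤ[ζ]`, so `ζ - 1 ∈ V.nonunits`, and all `ζ^i - 1`. `𝓞 C = ℤ[ζ]` (`IsCyclotomicExtension.Rat.isIntegralClosure_adjoin_singleton_of_prime_pow`): `x = Σ a_i ζ^i`,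
`σ ζ = ζ^a`, `σ x - x = Σ a_i (ζ^(a i) - ζ^i) ∈ V.nonunits`. FRC (2): `Inr V C σ`, so `Inr V B σ`. (2) `p ∉ V.nonunits`. `TI V ⊥ C`: `σ` inert on `C`: `σ ζ - ζ = ζ (ζ^(a-1) - 1) ∈ V.nonunits`, `ζ` is a unit of `V`. If `η = ζ^(a-1) ≠ 1`: `η` is a primitive root of order `p^i`, `i ≥ 1`, and
`1 - η` divides `p` in `ℤ[η] ⊆ V` (`∏ (1 - η^b) = p`: `Polynomial.eval_one_cyclotomic_prime_pow`), so `p ∈ V.nonunits`, a contradiction. So `σ ζ = ζ`. (MUL) for `⊥ ≤ B ≤ C` (`C/ℚ` and `B/ℚ` are Galois: `LAY_thm`; NRM). -/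
def Sb_CYQ : Prop := ∀ (p n : ℕ) [Fact p.Prime] (B : IntermediateField ℚ ℂ), IsLayer p n B →
    ∀ V : ValuationSubring ℂ, ((p : ℂ) ∈ V.nonunits → ∀ σ : ℂ ≃+* ℂ, Inr V B σ) ∧
      ((p : ℂ) ∉ V.nonunits → TI V ⊥ B)

/-- (DEG) the degrees of the layers.

PROOF. `LAY_thm`, `t_LAYC` (`RID/P_LAYC.lean`): `B m / ℚ` is cyclic of degree `p^m`, so its subfields are the `B i`, `i ≤ m` (one for each degree; compare `MUX/J_LDX.lean`). If `B (n+1) ≤ F ⊔ B n` for all `n` then `F ⊔ B n = F ⊔ B 0 = F` for all `n`, `p^n = [B n : ℚ] ≤ [F : ℚ]` for all `n`: false. So there is `n₀` with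
`¬ B (n₀+1) ≤ E₀ = F ⊔ B n₀`. For `m ≥ n₀`: `E₀ ∩ B m` contains `B n₀` and is one of the `B i`, not `⊇ B (n₀+1)`, so it is `B n₀`, `[E₀ ⊔ B m : E₀] = [B m : E₀ ∩ B m] = p^(m-n₀)`, `E₀ ⊔ B m = F ⊔ B m`. Divide. -/
def Sb_DEG : Prop := ∀ (p : ℕ) [Fact p.Prime] (F : IntermediateField ℚ ℂ)
    [FiniteDimensional ℚ F] (B : ℕ → IntermediateField ℚ ℂ), (∀ n, IsLayer p n (B n)) →
    Monotone B → ∃ n₀ : ℕ, ∀ n m : ℕ, n₀ ≤ n → n ≤ m →
      Module.finrank ℚ ↥(F ⊔ B m) = Module.finrank ℚ ↥(F ⊔ B n) * p ^ (m - n)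

/-- (GAM) a topological generator.

USES CRD, NRM. PROOF. `F_m = F ⊔ B (n₁+m)`, `G_m = Gal(F_m / F_0)`: the restriction to `B (n₁+m)` is injective, so `G_m` is cyclic (`t_LAYC`) of order `p^m`. `F_1 ≠ F_0`: by AUF there is `γ` which fixes `F_0` and not `F_1`. Let `g = γ|F_m`, `m ≥ 1`. The elements of `G_m` which fix `F_1` form a
subgroup of index `p` of the cyclic group `G_m` of order `p^m`, it consists of the `p`-th powers, `g` is not in it; so `g` generates `G_m`, of order `p^m`: `γ^(p^m)` fixes `F_m`. If `σ` fixes `F_j`, `j ≤ m`: `σ = γ^a` on `F_m`, `γ^a` fixes `F_j`, the order of `γ|F_j` is `p^j`, so `a = p^j i`. (All automorphisms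
of `F_m/F_0` are restrictions: AUE.) -/
def Sb_GAM : Prop := ∀ (p : ℕ) [Fact p.Prime] (F : IntermediateField ℚ ℂ)
    [FiniteDimensional ℚ F] (B : ℕ → IntermediateField ℚ ℂ), (∀ n, IsLayer p n (B n)) →
    Monotone B → ∀ n₁ : ℕ,
    (∀ j, Module.finrank ℚ ↥(F ⊔ B (n₁ + j)) = Module.finrank ℚ ↥(F ⊔ B n₁) * p ^ j) →
    ∃ γ : ℂ ≃+* ℂ, (∀ j, Fixes (F ⊔ B (n₁ + j)) (γ ^ p ^ j)) ∧
      ∀ j m, j ≤ m → ∀ σ : ℂ ≃+* ℂ, Fixes (F ⊔ B (n₁ + j)) σ →
        ∃ i : ℕ, ∀ x ∈ F ⊔ B (n₁ + m), σ x = (γ ^ (p ^ j * i)) x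

/-- (TOT) total ramification above `p`.

USES MUL, CRD, NRM, CYQ. PROOF. `F̃` = the normal closure of `F` in `ℂ` (finite over `ℚ`, `Nrm ⊥ F̃`), `[F̃ : ℚ] ≤ p^(n₀)`. Let `m > n ≥ n₀` (for `m ≤ n` trivial), `N = F̃ ⊔ B m`. (MUL) for `⊥ ≤ B m ≤ N`, (CYQ), (CRD): `cI V ⊥ N ≥ cI V ⊥ (B m) = cR ⊥ (B m) = p^m`. (MUL) for `⊥ ≤ F̃ ≤ N`:
`cI V ⊥ N = cI V F̃ N * cI V ⊥ F̃ ≤ cI V F̃ N * p^(n₀)`. So `cI V F̃ N ≥ p^(m-n₀)`. `H` = the restrictions to `B m` of the automorphisms which fix `F̃` and are inert on `N`: a subgroup (`inr_mul`, `inr_inv`) of `Gal(B m/ℚ)`, which is cyclic of order `p^m` (`t_LAYC`), of order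
`cI V F̃ N` (on `N` such a `σ'` is determined by its restriction to `B m`). The subgroup of the elements which fix `B n` has order `p^(m-n) ∣ |H|`, so it is contained in `H` (cyclic group). So for `σ` which fixes `F ⊔ B n` there is `σ'` as above with `σ' = σ` on `B m`, and on `F ≤ F̃`; so on
`F ⊔ B m`, where `σ'` is inert. -/
def Sb_TOT : Prop := ∀ (p : ℕ) [Fact p.Prime] (F : IntermediateField ℚ ℂ)
    [FiniteDimensional ℚ F] (B : ℕ → IntermediateField ℚ ℂ), (∀ n, IsLayer p n (B n)) →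
    Monotone B → ∃ n₀ : ℕ, ∀ n m : ℕ, n₀ ≤ n → ∀ V : ValuationSubring ℂ,
      (p : ℂ) ∈ V.nonunits → ∀ σ : ℂ ≃+* ℂ, Fixes (F ⊔ B n) σ → Inr V (F ⊔ B m) σ

/-- (TOW) the tower exists.

USES DEG, GAM, TOT, CYQ, NRM. PROOF. `n₁` = the maximum of the numbers of DEG and TOT, `γ` from GAM. `nrm`: `B n/ℚ` is Galois (`LAY_thm`, NRM). `unl`: `σ` fixes `F ⊔ B _` and is inert on `F ⊔ B m`, so on `B m` (`inr_mono`), it fixes `⊥`, so it fixes `B m` (CYQ), and `F`. -/
def Sb_TOW : Prop := ∀ (p : ℕ) [Fact p.Prime] (F : IntermediateField ℚ ℂ)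
    [FiniteDimensional ℚ F] (B : ℕ → IntermediateField ℚ ℂ), (∀ n, IsLayer p n (B n)) →
    Monotone B → (∃ ζ ∈ F, IsPrimitiveRoot ζ p) → ∃ (n₁ : ℕ) (γ : ℂ ≃+* ℂ), Tow p F B n₁ γ

/-- (LIM) `F_∞` is the union of the layers.

PROOF. (1) The union of the directed family `F ⊔ B n` is a field (`IntermediateField.mem_iSup_of_directed`, `F ⊔ ⨆ B n = ⨆ (F ⊔ B n)`). (2) the same for `adj (F ⊔ B n) y`. (3) every element of `F_∞` is in some `F ⊔ B n`, finite over `ℚ`, so algebraic. (4) finitely many elements are in one layer. -/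
def Sb_LIM : Prop := ∀ (F : IntermediateField ℚ ℂ) (B : ℕ → IntermediateField ℚ ℂ),
    Monotone B →
    (∀ x ∈ Finf F B, ∃ n : ℕ, x ∈ F ⊔ B n) ∧
    (∀ y, ∀ x ∈ adj (Finf F B) y, ∃ n : ℕ, x ∈ adj (F ⊔ B n) y) ∧
    ((∀ n, FiniteDimensional ℚ ↥(F ⊔ B n)) → Algebra.IsAlgebraic ℚ (Finf F B))

/-! ## 3. Kummer theory -/

/-- (DGR) the elements with unramified `p`-th root.

USES MUL. PROOF. `ζ ∈ L`: for `σ` which fixes `L` and `y^p ∈ L`: `σ y = η y`, `η^p = 1`, `η ∈ L` (a power of `ζ`): so `adj L y` is `Nrm`, finite over `ℚ`. (1) `y^p = t^p`: `y = η t ∈ L`, `adj L y = L`, `TI V L L` is trivial. (2) `y^p = x x'`, `y₁^p = x` (exists in `ℂ`), `y₂ = y / y₁`, `y₂^p = x'`,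
`N = adj L y₁ ⊔ adj L y₂ ∋ y`: `TI V L N` (`ti_sup`), (MUL) second part for `L ≤ adj L y ≤ N`. (3) `adj L y⁻¹ = adj L y`. (4) `adj L' y = L' ⊔ adj L y`, `ti_base`. (5) `y^p = σ x`, `y₁ = σ⁻¹ y`, `y₁^p = x`, `V' = V.comap σ` (`a ∈ V' ↔ σ a ∈ V`, `a ∈ V'.nonunits ↔ σ a ∈ V.nonunits`): if `τ` fixes `L` and is inert for `V` on
`adj L y` then `σ⁻¹ τ σ` fixes `L` and is inert for `V'` on `adj L y₁` (`σ` maps `adj L y₁` to `adj L y`), so it fixes `y₁`: `τ y = y`. -/
def Sb_DGR : Prop := ∀ (p : ℕ) [Fact p.Prime] (L : IntermediateField ℚ ℂ)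
    [FiniteDimensional ℚ L], (∃ ζ ∈ L, IsPrimitiveRoot ζ p) →
    (∀ t ∈ L, t ≠ 0 → InD p L (t ^ p)) ∧
    (∀ x x' : ℂ, InD p L x → InD p L x' → InD p L (x * x')) ∧
    (∀ x : ℂ, InD p L x → InD p L x⁻¹) ∧
    (∀ L' : IntermediateField ℚ ℂ, L ≤ L' → ∀ x : ℂ, InD p L x → InD p L' x) ∧
    ∀ σ : ℂ ≃+* ℂ, (∀ x ∈ L, σ x ∈ L) → (∀ x ∈ L, (σ⁻¹ : ℂ ≃+* ℂ) x ∈ L) →
      ∀ x : ℂ, InD p L x → InD p L (σ x)

/-- (VD2) descent of unramifiedness in the tower.

USES MUL, CRD. PROOF. `F_i = F ⊔ B (n₁+i)`, `N = adj F_m y`, finite over `ℚ`; `Nrm F_i N` for `j ≤ i ≤ m` (`σ y = η y`, `η ∈ F`; `Tow.nrm`), also `Nrm F_i F_m`, `Nrm F_(j+1) E`, `E = adj F_(j+1) y ≤ N`. CLAIM: if `σ` fixes `F_(j+1)` and is inert on `N` then `σ y = y`. Given this: the sets counted by `cI V F_(j+1) N` and `cI V E N` are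
equal, (MUL) for `F_(j+1) ≤ E ≤ N` gives `cI V F_(j+1) E = 1`, so `TI V F_(j+1) E`. Proof of the claim. `p ∉ V.nonunits`: `Tow.unl`: `σ` fixes `F_m`, so by hypothesis `N ∋ y`. `p ∈ V.nonunits`: (MUL) for `F_j ≤ F_m ≤ N`, `Tow.tot`, (CRD): `cI V F_j N = cI V F_m N * cI V F_j F_m = cR F_j F_m`. The restriction to `F_m` of the
automorphisms which fix `F_j` and are inert on `N` is injective (two of them, `σ, τ`, equal on `F_m`: `τ⁻¹ σ` fixes `F_m` and is inert on `N`, so it fixes `N`), the numbers are equal, so it is surjective: there is `τ` which fixes `F_j`, is inert on `N`, and is equal to `γ^(p^j)` on `F_m`. `Tow.gen`: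
`σ = γ^(p^(j+1) i) = τ^(p i)` on `F_m` (`F_m` is stable). `τ^(-p i) σ` fixes `F_m` and is inert on `N`, so `σ y = τ^(p i) y`. `τ y = η y`, `η ∈ F`, `η^p = 1`: `τ^p y = η^p y = y`. So `σ y = y`. -/
def Sb_VD2 : Prop := ∀ (p : ℕ) [Fact p.Prime] (F : IntermediateField ℚ ℂ)
    (B : ℕ → IntermediateField ℚ ℂ) (n₁ : ℕ) (γ : ℂ ≃+* ℂ), Tow p F B n₁ γ →
    ∀ (j m : ℕ) (x y : ℂ) (V : ValuationSubring ℂ), x ∈ F ⊔ B (n₁ + j) → x ≠ 0 → y ^ p = x →
    j + 1 ≤ m → TI V (F ⊔ B (n₁ + m)) (adj (F ⊔ B (n₁ + m)) y) →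
    TI V (F ⊔ B (n₁ + (j + 1))) (adj (F ⊔ B (n₁ + (j + 1))) y)

/-- (VD1) from `F_∞` to the layers.

USES VD2, LIM. PROOF. `F_i = F ⊔ B (n₁+i)`. `y'^p = x`: `y' = η y`, `η ∈ F`, `adj F_(j+1) y' = adj F_(j+1) y`. Let `V` be given. By AUF (`F_∞/ℚ` is algebraic: LIM) there is `ρ` which fixes `F_∞`, `ρ y ≠ y`. `ρ` is not inert on `adj F_∞ y`: there is `z ∈ adj F_∞ y`, `z ∈ V`, `ρ z - z ∉ V.nonunits`. `z ∈ adj F_m y` for some `m ≥ j+1` (LIM, monotone).
`TI V F_m (adj F_m y)`: let `σ` fix `F_m` and be inert on `adj F_m y`; if `σ y = η y`, `η ≠ 1`, then `ρ y = η^k y` for some `k` (`η` generates the group of `p`-th roots of unity), `σ^k = ρ` on `adj F_m y` (both fix `F_m`), `σ^k` is inert (`inr_pow`; `adj F_m y` is stable): `ρ z - z ∈ V.nonunits`, a contradiction. (VD2). -/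
def Sb_VD1 : Prop := ∀ (p : ℕ) [Fact p.Prime] (F : IntermediateField ℚ ℂ)
    (B : ℕ → IntermediateField ℚ ℂ) (n₁ : ℕ) (γ : ℂ ≃+* ℂ), Tow p F B n₁ γ →
    ∀ (j : ℕ) (x y : ℂ), x ∈ F ⊔ B (n₁ + j) → x ≠ 0 → y ^ p = x → y ∉ Finf F B →
    UNR (Finf F B) (adj (Finf F B) y) → InD p (F ⊔ B (n₁ + (j + 1))) x

/-- (KUF) Galois extensions of degree `p` are Kummer extensions.

PROOF. The group has prime order `p`, it is cyclic; Mathlib `FieldTheory/KummerExtension.lean` (`exists_root_adjoin_eq_top_of_isCyclic`): `M = E(y)`, `y^p ∈ E`; `y ∉ E` as the degree is `p > 1`. `adj E y` and `IntermediateField.adjoin E {y}` have the same elements. -/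
def Sb_KUF : Prop := ∀ (p : ℕ) [Fact p.Prime] (E M : IntermediateField ℚ ℂ) (h : E ≤ M),
    (∃ ζ ∈ E, IsPrimitiveRoot ζ p) → IsGalois E (IntermediateField.extendScalars h) →
    Module.finrank E (IntermediateField.extendScalars h) = p →
    ∃ y : ℂ, y ^ p ∈ E ∧ y ∉ E ∧ M = adj E y

/-- (KDX) Kummer descent.

USES NRM. PROOF. `F_i = F ⊔ B (n₁+i)`, `g = γ^(p^j)`, `q = p^(m-j)`, `g^q = γ^(p^m)` fixes `F_m`. `n = ∏_(i<q) g^i w`: `n^p = ∏ g^i (g z / z) = g^q z / z = 1`. `g|F_(m+1)` generates the cyclic group `Gal(F_(m+1)/F_j)` of order `p q` (`Tow.gen`, `Tow.deg`, NRM), and `∏_(i < p q) g^i w = n^p = 1` (`g^q w = w`). Hilbert 90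
(`t_CYC` in `RID/P_CYC.lean` for the fields `F_j`, `F_j`, `F_(m+1)`, or `groupCohomology.exists_div_of_norm_eq_one`): `w = g u / u`, `u ∈ F_(m+1)`, `u ≠ 0`. `x = z / u^p`: `g x = z w^p / (g u)^p = x`, `x ∈ F_(m+1)`. Every `σ` which fixes `F_j` is a power of `g` on `F_(m+1)`, so it fixes `x`: `x ∈ F_j` (AUF). (`w ≠ 0` as `z ≠ 0`.) -/
def Sb_KDX : Prop := ∀ (p : ℕ) [Fact p.Prime] (F : IntermediateField ℚ ℂ)
    (B : ℕ → IntermediateField ℚ ℂ) (n₁ : ℕ) (γ : ℂ ≃+* ℂ), Tow p F B n₁ γ →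
    ∀ (j m : ℕ) (z w : ℂ), j ≤ m → z ∈ F ⊔ B (n₁ + m) → z ≠ 0 → w ∈ F ⊔ B (n₁ + m) →
    (γ ^ p ^ j) z = z * w ^ p →
    ∃ x ∈ F ⊔ B (n₁ + j), ∃ u ∈ F ⊔ B (n₁ + (m + 1)), u ≠ 0 ∧ z = x * u ^ p

/-- (KFI) when two Kummer extensions are equal.

PROOF. Some `σ` which fixes `L` has `σ y ≠ y` (AUF), `σ y = η y`, `η` a primitive `p`-th root of unity in `L`. `σ y' = η^j y'` for some `j < p` (`y' ≠ 0`, `(σ y'/y')^p = 1`). `t = y' / y^j` is fixed by `σ`, so by all `τ` which fix `L` (`τ y = η^k y = σ^k y`, so `τ = σ^k` on `adj L y ∋ y'`), so `t ∈ L` (AUF) and `x' = x^j t^p`. -/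
def Sb_KFI : Prop := ∀ (p : ℕ) [Fact p.Prime] (L : IntermediateField ℚ ℂ)
    [FiniteDimensional ℚ L], (∃ ζ ∈ L, IsPrimitiveRoot ζ p) → ∀ (x x' : ℂˣ) (y y' : ℂ),
    (x : ℂ) ∈ L → (x' : ℂ) ∈ L → y ^ p = x → y' ^ p = x' → y ∉ L → y' ∈ adj L y →
    ∃ j < p, x' / x ^ j ∈ PL p L

/-! ## 4. Algebra -/

/-- (ABS) an abelian group of exponent `p` with an automorphism.

PROOF. `A = D / P` is killed by `p`, `T = s - 1` acts on it. `T^(p^m) = s^(p^m) - 1` on `A` (`T^p = s^p - 1`: the binomial coefficients are divisible by `p`; induction; signs: `(-1)^p = -1` in characteristic `p`). `K_i = ker (T^i)` (as a subgroup of `D` containing `P`), `K_0 = P`, `K_i ≤ K_(i+1)`, `K_(p^n) = K`. If `K_i ≠ K_(i+1)` for all `i < p^n` then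
`|K/P| = ∏ [K_(i+1) : K_i] ≥ 2^(p^n)`: false. So `K_i = K_(i+1)` for some `i < p^n`, and then `K_l = K_i` for all `l ≥ i` (`x ∈ K_(i+2)`: `T x ∈ K_(i+1) = K_i`, `x ∈ K_(i+1)`). Every `x ∈ D` is in some `K_(p^m)`: `D ≤ K_i ≤ K`. -/
def Sb_ABS : Prop := ∀ (G : Type) [CommGroup G] (p : ℕ) [Fact p.Prime] (s : G →* G)
    (D P : Subgroup G), P ≤ D → (∀ x ∈ D, s x ∈ D) → (∀ x ∈ P, s x ∈ P) →
    (∀ x ∈ D, x ^ p ∈ P) → (∀ x ∈ D, ∃ m : ℕ, (⇑s)^[p ^ m] x / x ∈ P) →
    ∀ (n : ℕ) (K : Subgroup G), (∀ x, x ∈ K ↔ x ∈ D ∧ (⇑s)^[p ^ n] x / x ∈ P) →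
    P.relIndex K ≠ 0 → P.relIndex K < 2 ^ (p ^ n) → P.relIndex D ≠ 0

/-- (CGP) the number of subgroups of index `p`.

PROOF. For `U` of index `p` there is a homomorphism `χ_U : A → ℂˣ` with kernel `U` (`A/U` is cyclic of order `p`), `χ_U^p = 1`. Different `U` have different `χ_U`. `Hom(A, ℂˣ) ≅ A` (`CommGroup.monoidHom_mulEquiv_of_hasEnoughRootsOfUnity`), so the number of `χ` with `χ^p = 1` is the number of `a ∈ A` with `a^p = 1`, the order of a subgroup of
exponent `p`, a power of `p` which divides `|A|`. -/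
def Sb_CGP : Prop := ∀ (A : Type) [CommGroup A] [Finite A] (p : ℕ) [Fact p.Prime]
    (T : Finset (Subgroup A)), (∀ U ∈ T, U.index = p) →
    T.card ≤ p ^ padicValNat p (Nat.card A)

/-- (GRO) growth.

PROOF. `2^(p^j)` grows faster than `p^(C (n₁+j+2)^C + 1)`: `p^(...) ≤ 2^(p (C (n₁+j+2)^C + 1))`, and `p (C (n₁+j+2)^C + 1) < p^j` for large `j`. -/
def Sb_GRO : Prop := ∀ (p C n₁ : ℕ), p.Prime →
    ∃ j : ℕ, p ^ (C * (n₁ + j + 2) ^ C + 1) < 2 ^ (p ^ j)

/-! ## 5. Densities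

`x s v = N(v)^(-s)`, `cl L v` the class of `v`, `spl L N v` the number of primes of `N` above `v` with the norm of `v`,
`HB.Deg1 L M v`: some prime of `M` above `v` has the norm of `v`. -/

/-- (IDX) = `S_IDX` of `MUX/StKX.lean`: `k_IDX` in `MUX/KAllX.lean`. -/
def Sb_IDX : Prop := ∀ (L : Type) [Field L] [NumberField L] (B : Set (HeightOneSpectrum (𝓞 L)))
    (c : ℝ), 0 < c →
    (∃ C : ℝ, ∀ᶠ s : ℝ in 𝓝[>] 1,
      c * Real.log (1 / (s - 1)) - C ≤ ∑' v, Set.indicator B (x s) v) →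
    ∀ U : Subgroup (ClassGroup (𝓞 L)), (∀ v ∈ B, cl L v ∈ U) → (U.index : ℝ) * c ≤ 1

/-- (DLB) the primes with a degree one prime above have density at least `1 / [M : L]`.

PROOF. `isBigO_sum` (for `M`): `∑_w x s w ≥ log (1/(s-1)) - C`. The `w` whose norm is not a prime number contribute `O(1)` (`m_DEG2`, `MU3/MDEG2.lean`). If `N w` is a prime number, `v = w ∩ L`: `N w = (N v)^f`, `N v ≠ 1`, so `N v = N w` and `v ∈ B = {v | Deg1 L M v}`. At most `[M : L]` primes `w` lie above a given `v`. So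
`∑_(w, N w prime) x s w ≤ [M : L] ∑_(v ∈ B) x s v` (sum over the fibres; compare `MU3/MSPLS.lean`). -/
def Sb_DLB : Prop := ∀ (L M : Type) [Field L] [NumberField L] [Field M] [NumberField M]
    [Algebra L M], ∃ C : ℝ, ∀ᶠ s : ℝ in 𝓝[>] 1,
      Real.log (1 / (s - 1)) - C ≤ (Module.finrank L M : ℝ) *
        ∑' v, Set.indicator {v : HeightOneSpectrum (𝓞 L) | Pool.Agent.HB.Deg1 L M v} (x s) v

/-- (UIX) the index is at most `p`.

USES IDX, DLB. PROOF. `B = {v | Deg1 L M v} \ S`, `∑_B x ≥ (1/p) log (1/(s-1)) - C` (DLB; `x s v ≤ 1`, `S` finite). IDX with `c = 1/p`. -/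
def Sb_UIX : Prop := ∀ (L M : Type) [Field L] [NumberField L] [Field M] [NumberField M]
    [Algebra L M] (p : ℕ), p.Prime → Module.finrank L M = p →
    ∀ (U : Subgroup (ClassGroup (𝓞 L))) (S : Finset (HeightOneSpectrum (𝓞 L))),
    (∀ v ∉ S, Pool.Agent.HB.Deg1 L M v → cl L v ∈ U) → U.index ≤ p

/-- (SPN) primes which split completely in `M` and `M'` split completely in `N = M M'`.

PROOF. `W` a prime of `N` above `v`, `w = W ∩ M`. `e(w|v) = 1` (`Unr`: `valuation_liesOver` with a uniformizer `x` of `v`: `e ord v x = ord w (iu x) = ord v x`), `f(w|v) = 1` (`Deg1` gives one prime with `f = 1`, all `f` are equal: Galois). So the stabilizer of `w` in `Gal(M/L)` is trivial (order `e f`: `Ideal.card_stabilizer_eq`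
in `NumberTheory/RamificationInertia/Galois.lean`). If `σ ∈ Gal(N/L)`, `σ W = W`, then the restriction of `σ` to `M` fixes `w`, so it is trivial, the same for `M'`: `σ = 1`. So the stabilizer of `W` is trivial: `e(W|v) = f(W|v) = 1`, `N W = N v` and there are `|Gal(N/L)| = [N : L]` primes above `v`. -/
def Sb_SPN : Prop := ∀ (L M M' N : Type) [Field L] [NumberField L] [Field M] [NumberField M]
    [Field M'] [NumberField M'] [Field N] [NumberField N] [Algebra L M] [Algebra L M']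
    [Algebra L N] [Algebra M N] [Algebra M' N] [IsScalarTower L M N] [IsScalarTower L M' N]
    [IsGalois L M] [IsGalois L M'] [IsGalois L N],
    (∀ σ : N ≃ₐ[L] N, (∀ z : M, σ (algebraMap M N z) = algebraMap M N z) →
      (∀ z : M', σ (algebraMap M' N z) = algebraMap M' N z) → σ = 1) →
    ∀ v : HeightOneSpectrum (𝓞 L), Pool.Agent.HB.Unr L M v → Pool.Agent.HB.Unr L M' v →
    Pool.Agent.HB.Deg1 L M v → Pool.Agent.HB.Deg1 L M' v → Module.finrank L N ≤ spl L N v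

/-- (INA) two different unramified extensions do not have the same group `U`.

USES IDX, DLB, SPN. PROOF. `B, B'` = the `v` with `Deg1 L M v`, `Deg1 L M' v`. `∑_B x, ∑_B' x ≥ Λ/p - C`, `Λ = log (1/(s-1))` (DLB), `∑_(B ∩ B') x ≤ Λ/p² + C` (SPN, `m_SPLS` in `MU3/MSPLS.lean` with `m = p²`). So for `B₀ = (B ∪ B') \ S`: `∑_(B₀) x ≥ (2/p - 1/p²) Λ - C'`, all classes of `B₀` are in `U`; (IDX): `U.index (2/p - 1/p²) ≤ 1`, but
`U.index ≥ p` and `p (2/p - 1/p²) = 2 - 1/p > 1`. -/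
def Sb_INA : Prop := ∀ (L M M' N : Type) [Field L] [NumberField L] [Field M] [NumberField M]
    [Field M'] [NumberField M'] [Field N] [NumberField N] [Algebra L M] [Algebra L M']
    [Algebra L N] [Algebra M N] [Algebra M' N] [IsScalarTower L M N] [IsScalarTower L M' N]
    [IsGalois L M] [IsGalois L M'] [IsGalois L N] (p : ℕ), p.Prime →
    (∀ σ : N ≃ₐ[L] N, (∀ z : M, σ (algebraMap M N z) = algebraMap M N z) →
      (∀ z : M', σ (algebraMap M' N z) = algebraMap M' N z) → σ = 1) →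
    Module.finrank L M = p → Module.finrank L M' = p → Module.finrank L N = p ^ 2 →
    (∀ v : HeightOneSpectrum (𝓞 L), Pool.Agent.HB.Unr L M v) →
    (∀ v : HeightOneSpectrum (𝓞 L), Pool.Agent.HB.Unr L M' v) →
    ∀ (U : Subgroup (ClassGroup (𝓞 L))) (S : Finset (HeightOneSpectrum (𝓞 L))), p ≤ U.index →
    (∀ v ∉ S, Pool.Agent.HB.Deg1 L M v → cl L v ∈ U) →
    (∀ v ∉ S, Pool.Agent.HB.Deg1 L M' v → cl L v ∈ U) → False

/-- (FQI) = `Sh_FIQ` of `HB/StHB.lean` (the theorem will be `th_FIQ ..`, in a file `HB/HAll.lean` or so). -/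
def Sb_FQI : Prop := ∀ (k K : Type) [Field k] [NumberField k] [Field K] [NumberField K]
    [Algebra k K] (l m : ℕ) (σ : K ≃ₐ[k] K), l.Prime → Pool.Agent.HB.Cyc (l ^ m) σ →
    Pool.Agent.HB.TC k → (∀ v : HeightOneSpectrum (𝓞 k), Pool.Agent.HB.Unr k K v) →
    ∃ (U : Subgroup (ClassGroup (𝓞 k))) (S : Finset (HeightOneSpectrum (𝓞 k))),
      l ^ m ≤ U.index ∧ ∀ v ∉ S, Pool.Agent.HB.Deg1 k K v →
        ClassGroup.mk0 ⟨v.asIdeal, mem_nonZeroDivisors_of_ne_zero v.ne_bot⟩ ∈ U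

/-- (FQC) the group of an unramified extension of degree `p`.

USES FQI, UIX, UNR, NRM, CRD. PROOF. `M/L` is Galois (NRM, `isGalois_algC`) of prime degree `p` (CRD, `finrank_algC`), its group is cyclic: a generator `σ` gives `Cyc (p^1) σ`. `TC L`: an infinite place comes from an embedding `φ`, not real by `TCx`. `Unr`: UNR. (FQI) gives `U`, `S`, `p ≤ U.index`; (UIX): `U.index ≤ p`. -/
def Sb_FQC : Prop := ∀ (p : ℕ) [Fact p.Prime] (L M : IntermediateField ℚ ℂ)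
    [FiniteDimensional ℚ L] [FiniteDimensional ℚ M] (h : L ≤ M), TCx L → Nrm L M →
    cR L M = p → UNR L M →
    ∃ (U : Subgroup (ClassGroup (𝓞 L))) (S : Finset (HeightOneSpectrum (𝓞 L))), U.index = p ∧
      (letI := algC h; ∀ v ∉ S, Pool.Agent.HB.Deg1 L M v → cl L v ∈ U)

/-- (INJ) the group determines the extension.

USES INA, UNR, NRM, CRD. PROOF. Suppose `M ≠ M'`. `N = M ⊔ M'`, with the algebra structures `algC` (`towerC`), all Galois (NRM; `Nrm L N`). An automorphism of `N/L` which is trivial on `M` and `M'` is trivial (`fixes_sup`). `[N : L] = p²`: `M ∩ M' = L` (it is between `L` and `M`, degree `p` prime, `M ≠ M'`); `[N : M] = [M' : M ∩ M'] = p`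
(or: the restriction `Gal(N/L) → Gal(M/L) × Gal(M'/L)` is injective; `[N : L] ≤ p²`, it is divisible by `p`, and `N ≠ M`: `[N : M] > 1` divides..., use the degree formula for a Galois extension `M'/L`). (INA). -/
def Sb_INJ : Prop := ∀ (p : ℕ) [Fact p.Prime] (L M M' : IntermediateField ℚ ℂ)
    [FiniteDimensional ℚ L] [FiniteDimensional ℚ M] [FiniteDimensional ℚ M'] (h : L ≤ M)
    (h' : L ≤ M'), Nrm L M → Nrm L M' → cR L M = p → cR L M' = p → UNR L M → UNR L M' →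
    ∀ (U : Subgroup (ClassGroup (𝓞 L))) (S : Finset (HeightOneSpectrum (𝓞 L))), U.index = p →
    (letI := algC h; ∀ v ∉ S, Pool.Agent.HB.Deg1 L M v → cl L v ∈ U) →
    (letI := algC h'; ∀ v ∉ S, Pool.Agent.HB.Deg1 L M' v → cl L v ∈ U) → M = M'

/-- (CNT) the number of elements with unramified `p`-th root, modulo `p`-th powers.

USES FQC, INJ, CGP, KFI, CRD. PROOF. At most one `x ∈ T` is in `PL p L`. Let `x ∈ T' = T \ PL p L`, `y^p = x`, `y ∉ L`. `M_x = adj L y`: `Nrm L M_x` (`σ y = η y`), finite over `ℚ`, `cR L M_x = p` (some `σ` has `σ y = η y`, `η ≠ 1`, its powers give `p` different restrictions; a restriction is determined by `σ y / y`, a `p`-th root of unity), `UNR L M_x` (`InD`).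
(FQC): `U_x`, `S_x`, `U_x.index = p`. If `U_x = U_x'`, `x, x' ∈ T'`, then `M_x = M_x'` (INJ with `S = S_x ∪ S_x'`), so `x' / x^j ∈ PL p L` for some `j < p` (KFI), `j ≠ 0` as `x' ∉ PL`; and `x', x''` with the same `j` are equal (`x'/x'' ∈ PL`). So the fibres of `x ↦ U_x` have at most `p - 1` elements, and there are at most
`r = p^(v_p h)` different `U_x` (CGP; `classNo L = Nat.card (ClassGroup (𝓞 L))`). `|T| ≤ 1 + (p - 1) r ≤ p r`. -/
def Sb_CNT : Prop := ∀ (p : ℕ) [Fact p.Prime] (L : IntermediateField ℚ ℂ)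
    [FiniteDimensional ℚ L], TCx L → (∃ ζ ∈ L, IsPrimitiveRoot ζ p) → ∀ T : Finset ℂˣ,
    (∀ x ∈ T, InD p L (x : ℂ)) → (∀ x ∈ T, ∀ x' ∈ T, x ≠ x' → x / x' ∉ PL p L) →
    T.card ≤ p ^ (padicValNat p (classNo L) + 1)

/-! ## 6. Assembly -/

/-- (BND) the elements which are invariant under `γ^(p^j)` modulo `p`-th powers.

USES KDX, VD2, DGR, CNT, LIM. PROOF. `F_i = F ⊔ B (n₁+i)`. `x ∈ T`: there is `m ≥ j` with `InD p F_m x`, `w ∈ F_m` (LIM, DGR (4), monotone). (KDX): `x = x₀ u^p`, `x₀ ∈ F_j`, `u ∈ F_(m+1)`. `x₀ = x (u⁻¹)^p` satisfies `InD p F_(m+1) x₀` (DGR). (VD2) for all `y` with `y^p = x₀` and all `V` (with `m+1` for `m`): `InD p F_(j+1) x₀`. If `x₀, x₀'` belong to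
`x, x' ∈ T`, `x ≠ x'`, then `x₀ / x₀' ∉ PL p F_(j+1)`, since otherwise `x/x' = (x₀/x₀') (u/u')^p ∈ PL p F_∞`. In particular the `x₀` are different. (CNT) for `L = F_(j+1)` and the set of the `x₀`. -/
def Sb_BND : Prop := ∀ (p : ℕ) [Fact p.Prime] (F : IntermediateField ℚ ℂ)
    (B : ℕ → IntermediateField ℚ ℂ) (n₁ : ℕ) (γ : ℂ ≃+* ℂ), Tow p F B n₁ γ → TCx F →
    ∀ (j : ℕ) (T : Finset ℂˣ),
    (∀ x ∈ T, (∃ m : ℕ, InD p (F ⊔ B (n₁ + m)) (x : ℂ)) ∧
      ∃ w ∈ Finf F B, (γ ^ p ^ j) (x : ℂ) = (x : ℂ) * w ^ p) →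
    (∀ x ∈ T, ∀ x' ∈ T, x ≠ x' → x / x' ∉ PL p (Finf F B)) →
    T.card ≤ p ^ (padicValNat p (classNo (F ⊔ B (n₁ + (j + 1)))) + 1)

/-- (FNP) the main theorem for a field with `p`-th roots of unity.

USES TOW, LIM, DGR, BND, ABS, GRO, VD1, KUF. PROOF. `n₁, γ` (TOW), `F_i = F ⊔ B (n₁+i)`, `D = {x ∈ ℂˣ : InD p F_i x for some i}`, a subgroup (DGR, monotone), `P = PL p F_∞ ≤ D` (LIM, DGR (1)), `D^p ≤ P` (`D ⊆ F_∞`), `s = Units.map γ`: `s D ≤ D` (DGR (5): `F_i` is stable under `γ` and `γ⁻¹`: `Tow.fix 0`, `Tow.nrm`), `s P ≤ P`; `x ∈ D`, `x ∈ F_m`: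
`s^(p^m) x = x` (`Tow.fix`). `j` from GRO (with `C` the constant of the bound): `p^(v_p h(F_(j+1)) + 1) ≤ p^(C (n₁+j+2)^C + 1) < 2^(p^j)`. `K = {x ∈ D : s^(p^j) x / x ∈ P}`: by (BND) every finite set of elements of `K` which are pairwise inequivalent modulo `P` has less than `2^(p^j)` elements, so `[K : P]` is finite and `< 2^(p^j)`. (ABS): `D/P` is
finite. Let `M ∈ UM p F_∞`: (KUF) `M = adj F_∞ y`, `y^p ∈ F_∞`, `y ∉ F_∞`; `y^p ∈ F_i` for some `i` (LIM), `x = y^p ∈ D` (VD1). If `M, M'` give `x, x'` with `x' / x = t^p ∈ P`, then `y' = η t y` with `η ∈ F`, so `M' = M`. So `UM p F_∞` is finite. -/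
def Sb_FNP : Prop := ∀ (p : ℕ) [Fact p.Prime] (F : IntermediateField ℚ ℂ)
    [FiniteDimensional ℚ F] (B : ℕ → IntermediateField ℚ ℂ), (∀ n, IsLayer p n (B n)) →
    Monotone B → TCx F → (∃ ζ ∈ F, IsPrimitiveRoot ζ p) →
    (∃ C : ℕ, ∀ n : ℕ, padicValNat p (classNo (F ⊔ B n)) ≤ C * (n + 1) ^ C) →
    (UM p (Finf F B)).Finite

/-- (RED) from `F'` to `F ≤ F'`.

USES NRM. PROOF. `E = Finf F B ≤ E' = Finf F' B = F' ⊔ E`, `[E' : E]` is finite (`F'/ℚ` finite). Let `M ∈ UM p E`, `M'' = M ⊔ E'`. `M''/E'` is Galois, restriction to `M` embeds its group in `Gal(M/E)`, of order `p`: so `M'' = E'` or `[M'' : E'] = p`, and `UNR E' M''` (`ti_base`; `E' ⊔ M`): `M'' ∈ UM p E'`. So `M` is an intermediate field of `M''/E` with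
`M'' ∈ {E'} ∪ UM p E'`, a finite set; `M''/E` is finite and separable, so it has finitely many intermediate fields (`Field.exists_primitive_element`, `Field.finite_intermediateField_of_exists_primitive_element`, applied to `IntermediateField E M''`). -/
def Sb_RED : Prop := ∀ (p : ℕ) [Fact p.Prime] (F F' : IntermediateField ℚ ℂ)
    [FiniteDimensional ℚ F'] (B : ℕ → IntermediateField ℚ ℂ),
    (∀ n, FiniteDimensional ℚ (B n)) → Monotone B → F ≤ F' → (UM p (Finf F' B)).Finite →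
    (UM p (Finf F B)).Finite

/-- (TCQ) imaginary quadratic fields and their extensions are totally complex.

PROOF. `k = ℚ(z)`, `z` not real, `z² + b z + c = 0` with rational `b, c`, the roots are `z` and its complex conjugate; an embedding `φ : M → ℂ` maps `z` to one of them, which is not real. -/
def Sb_TCQ : Prop := ∀ (k M : IntermediateField ℚ ℂ), Module.finrank ℚ k = 2 →
    (∃ z ∈ k, (starRingEnd ℂ) z ≠ z) → k ≤ M → TCx M

end Pool.Agent.VB


end

section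

/-!
# VB: extensions of imaginary quadratic fields are totally complex (helper83)
-/

set_option autoImplicit false

namespace Pool.Agent.VB

theorem tb_TCQ : Sb_TCQ := by
  intro k M hk hz hkM φ
  obtain ⟨z, hzk, hzr⟩ := hz
  have : FiniteDimensional ℚ k := FiniteDimensional.of_finrank_pos (by omega)
  let P : Polynomial ℚ := minpoly ℚ (⟨z, hzk⟩ : k)
  have hPm : P.Monic := minpoly.monic (IsIntegral.of_finite ℚ _)
  have hdeg : P.natDegree ≤ 2 := hk ▸ minpoly.natDegree_le (⟨z, hzk⟩ : k)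
  have h0 : Polynomial.aeval (⟨z, hzk⟩ : k) P = 0 := minpoly.aeval ℚ _
  have h1 : Polynomial.aeval z P = 0 := by
    have h := Polynomial.aeval_algHom_apply k.val (⟨z, hzk⟩ : k) P
    rw [h0, map_zero] at h
    exact h
  have h2 : Polynomial.aeval ((starRingEnd ℂ) z) P = 0 := by
    have h := Polynomial.aeval_algHom_apply (starRingEnd ℂ).toRatAlgHom z P
    rw [h1, map_zero] at h
    exact h
  have h3' : Polynomial.aeval (⟨z, hkM hzk⟩ : M) P = 0 := by
    have h := Polynomial.aeval_algHom_apply (IntermediateField.inclusion hkM) (⟨z, hzk⟩ : k) P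
    rw [h0, map_zero] at h
    exact h
  have h3 : Polynomial.aeval (φ ⟨z, hkM hzk⟩) P = 0 := by
    have h := Polynomial.aeval_algHom_apply φ.toRatAlgHom (⟨z, hkM hzk⟩ : M) P
    rw [h3', map_zero] at h
    exact h
  refine ⟨⟨z, hkM hzk⟩, fun hw => ?_⟩
  have hw1 : φ ⟨z, hkM hzk⟩ ≠ z := fun h => hzr (by rw [h] at hw; exact hw)
  have hw2 : φ ⟨z, hkM hzk⟩ ≠ (starRingEnd ℂ) z := fun h => hzr (by
    rw [h, Complex.conj_conj] at hw; exact hw.symm)
  have hne : P.map (algebraMap ℚ ℂ) ≠ 0 := (hPm.map _).ne_zero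
  have hmem : ∀ y : ℂ, Polynomial.aeval y P = 0 → y ∈ (P.map (algebraMap ℚ ℂ)).roots := by
    intro y hy
    rw [Polynomial.mem_roots hne, Polynomial.IsRoot.def, Polynomial.eval_map_algebraMap]
    exact hy
  have hcard : ({z, (starRingEnd ℂ) z, φ ⟨z, hkM hzk⟩} : Finset ℂ).card = 3 := by
    rw [Finset.card_eq_three]
    exact ⟨_, _, _, fun h => hzr h.symm, fun h => hw1 h.symm, fun h => hw2 h.symm, rfl⟩
  have hle : ({z, (starRingEnd ℂ) z, φ ⟨z, hkM hzk⟩} : Finset ℂ).card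
      ≤ (P.map (algebraMap ℚ ℂ)).natDegree := by
    refine Polynomial.card_le_degree_of_subset_roots ?_
    intro y hy
    have hy' : y ∈ ({z, (starRingEnd ℂ) z, φ ⟨z, hkM hzk⟩} : Finset ℂ) := hy
    simp only [Finset.mem_insert, Finset.mem_singleton] at hy'
    rcases hy' with rfl | rfl | rfl
    · exact hmem _ h1
    · exact hmem _ h2
    · exact hmem _ h3
  rw [hcard, Polynomial.natDegree_map] at hle
  omega

end Pool.Agent.VB


end

section

set_option autoImplicit false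

namespace Pool.Agent.VB

namespace LIMa

/-- membership in the union of a monotone sequence of fields -/
lemma mem_iSup_mono {A : ℕ → IntermediateField ℚ ℂ} (hA : Monotone A) {x : ℂ} :
    x ∈ (⨆ n, A n) ↔ ∃ n, x ∈ A n := by
  have h := IntermediateField.coe_iSup_of_directed (t := A) (hA.directed_le)
  constructor
  · intro hx
    have hx' : x ∈ ((⨆ n, A n : IntermediateField ℚ ℂ) : Set ℂ) := hx
    rw [h] at hx'
    simpa using hx'
  · rintro ⟨n, hn⟩
    exact (le_iSup A n) hn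

lemma mono_sup {B : ℕ → IntermediateField ℚ ℂ} (hB : Monotone B) (F : IntermediateField ℚ ℂ) :
    Monotone fun n => F ⊔ B n := fun _ _ h => sup_le_sup_left (hB h) F

lemma mono_adj {A : ℕ → IntermediateField ℚ ℂ} (hA : Monotone A) (y : ℂ) :
    Monotone fun n => adj (A n) y := fun _ _ h => sup_le_sup_right (hA h) _

lemma finf_le (F : IntermediateField ℚ ℂ) (B : ℕ → IntermediateField ℚ ℂ) :
    Finf F B ≤ ⨆ n, F ⊔ B n :=
  sup_le (le_trans le_sup_left (le_iSup (fun n => F ⊔ B n) 0))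
    (iSup_le fun n => le_trans le_sup_right (le_iSup (fun n => F ⊔ B n) n))

lemma adj_finf_le (F : IntermediateField ℚ ℂ) (B : ℕ → IntermediateField ℚ ℂ) (y : ℂ) :
    adj (Finf F B) y ≤ ⨆ n, adj (F ⊔ B n) y := by
  refine adj_le (le_trans (finf_le F B) (iSup_mono fun n => le_adj _ y)) ?_
  exact (le_iSup (fun n => adj (F ⊔ B n) y) 0) (mem_adj _ y)

end LIMa

open _root_.Pool.Agent.VB.LIMa in
theorem tb_LIM : Sb_LIM := by
  intro F B hB
  have h1 : ∀ x ∈ Finf F B, ∃ n : ℕ, x ∈ F ⊔ B n := fun x hx =>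
    (mem_iSup_mono (mono_sup hB F)).1 (finf_le F B hx)
  refine ⟨h1, fun y x hx => (mem_iSup_mono (mono_adj (mono_sup hB F) y)).1
    (adj_finf_le F B y hx), ?_⟩
  intro hfd
  refine ⟨fun x => ?_⟩
  obtain ⟨n, hn⟩ := h1 x.1 x.2
  haveI := hfd n
  have h2 : IsIntegral ℚ (⟨x.1, hn⟩ : ↥(F ⊔ B n)) := IsIntegral.of_finite ℚ _
  have h3 : IsIntegral ℚ (x.1 : ℂ) := h2.map (F ⊔ B n).val
  have h4 : IsAlgebraic ℚ (x.1 : ℂ) := h3.isAlgebraic
  exact (isAlgebraic_algHom_iff (Finf F B).val (Finf F B).val.injective).1 h4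

end Pool.Agent.VB


end

section

/-!
# VB: module SPN (helper80)

Primes which split completely in `M` and `M'` split completely in `N = M M'`.
-/

set_option autoImplicit false

open NumberField IsDedekindDomain
open scoped nonZeroDivisors Pointwise

namespace Pool.Agent.VB

open _root_.Pool.Agent.MU3

namespace SPN

/-- residue fields are perfect -/
lemma perf {L : Type} [Field L] [NumberField L] (v : HeightOneSpectrum (𝓞 L)) :
    PerfectField v.asIdeal.ResidueField := by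
  have := v.isMaximal
  have := v.isPrime
  have : Finite (𝓞 L ⧸ v.asIdeal) := Ideal.finiteQuotientOfFreeOfNeBot v.asIdeal v.ne_bot
  have : Finite v.asIdeal.ResidueField :=
    Finite.of_surjective (algebraMap (𝓞 L ⧸ v.asIdeal) v.asIdeal.ResidueField)
      (Ideal.bijective_algebraMap_quotient_residueField v.asIdeal).2
  infer_instance

lemma one_lt_absNorm {L : Type} [Field L] [NumberField L] (v : HeightOneSpectrum (𝓞 L)) :
    1 < Ideal.absNorm v.asIdeal := by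
  have h1 : Ideal.absNorm v.asIdeal ≠ 0 := by
    rw [Ne, Ideal.absNorm_eq_zero_iff]
    exact v.ne_bot
  have h2 : Ideal.absNorm v.asIdeal ≠ 1 := by
    rw [Ne, Ideal.absNorm_eq_one_iff]
    exact v.isPrime.ne_top
  omega

/-- the ramification index is one -/
lemma ram_one {L M : Type} [Field L] [NumberField L] [Field M] [NumberField M] [Algebra L M]
    (v : HeightOneSpectrum (𝓞 L)) (hU : Pool.Agent.HB.Unr L M v) (w : HeightOneSpectrum (𝓞 M))
    (hw : Pool.Agent.HB.Lies L M v w) : w.asIdeal.ramificationIdx (𝓞 L) = 1 := by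
  have hl : w.asIdeal.LiesOver v.asIdeal := ⟨hw.symm⟩
  have hp := w.isPrime
  rw [← Ideal.ramificationIdx'_eq_ramificationIdx v.asIdeal w.asIdeal v.ne_bot]
  obtain ⟨π, hπ⟩ := v.valuation_exists_uniformizer L
  have hπ0 : π ≠ 0 := by
    rintro rfl
    rw [map_zero] at hπ
    exact WithZero.coe_ne_zero hπ.symm
  have h1 := HeightOneSpectrum.valuation_liesOver (K := L) M v w π
  have h2 := hU w hw (Units.mk0 π hπ0)
  have h3 : Pool.Agent.HB.ord v (Units.mk0 π hπ0) = 1 := by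
    unfold Pool.Agent.HB.ord
    rw [Units.val_mk0, hπ, WithZero.log_exp, neg_neg]
  have h4 : Pool.Agent.HB.ord w (Pool.Agent.HB.iu L M (Units.mk0 π hπ0)) =
      (v.asIdeal.ramificationIdx' w.asIdeal : ℤ) := by
    unfold Pool.Agent.HB.ord
    have h5 : ((Pool.Agent.HB.iu L M (Units.mk0 π hπ0) : Mˣ) : M) = algebraMap L M π := rfl
    rw [h5, ← h1, hπ, WithZero.log_pow, WithZero.log_exp, nsmul_eq_mul]
    ring
  rw [h4, h3] at h2
  exact_mod_cast h2

/-- the stabilizer of a prime above a completely split prime is trivial -/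
lemma stab_one {L M : Type} [Field L] [NumberField L] [Field M] [NumberField M] [Algebra L M]
    [IsGalois L M] (v : HeightOneSpectrum (𝓞 L)) (hU : Pool.Agent.HB.Unr L M v)
    (hD : Pool.Agent.HB.Deg1 L M v) (w : HeightOneSpectrum (𝓞 M))
    (hw : Pool.Agent.HB.Lies L M v w) (τ : M ≃ₐ[L] M) (hτ : τ • w.asIdeal = w.asIdeal) :
    τ = 1 := by
  have hl : w.asIdeal.LiesOver v.asIdeal := ⟨hw.symm⟩
  have hp := w.isPrime
  have hv := v.isPrime
  have := perf v
  obtain ⟨w0, hw0, hn⟩ := hD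
  have hl0 : w0.asIdeal.LiesOver v.asIdeal := ⟨hw0.symm⟩
  have hp0 := w0.isPrime
  have hc := Ideal.card_stabilizer_eq (G := M ≃ₐ[L] M) v.asIdeal w.asIdeal
  rw [Ideal.ramificationIdxIn_eq_ramificationIdx v.asIdeal w.asIdeal (M ≃ₐ[L] M),
    Ideal.inertiaDegIn_eq_inertiaDeg v.asIdeal w0.asIdeal (M ≃ₐ[L] M), ram_one v hU w hw,
    one_mul] at hc
  have h1 := Ideal.absNorm_pow_inertiaDeg v.asIdeal w0.asIdeal
  rw [hn] at h1
  have h2 : w0.asIdeal.inertiaDeg (𝓞 L) = 1 := by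
    have h3 := one_lt_absNorm v
    have h4 : Ideal.absNorm v.asIdeal ^ w0.asIdeal.inertiaDeg (𝓞 L) =
        Ideal.absNorm v.asIdeal ^ 1 := by rw [h1, pow_one]
    exact Nat.pow_right_injective h3 h4
  rw [h2, Nat.card_eq_one_iff_unique] at hc
  have h5 := hc.1
  exact congrArg Subtype.val (Subsingleton.elim
    (⟨τ, hτ⟩ : MulAction.stabilizer (M ≃ₐ[L] M) w.asIdeal) 1)

/-- the restriction of an automorphism in the decomposition group -/
lemma restr {L M N : Type} [Field L] [NumberField L] [Field M] [NumberField M]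
    [Field N] [NumberField N] [Algebra L M] [Algebra L N] [Algebra M N] [IsScalarTower L M N]
    [IsGalois L M] (v : HeightOneSpectrum (𝓞 L)) (hU : Pool.Agent.HB.Unr L M v)
    (hD : Pool.Agent.HB.Deg1 L M v) (W : HeightOneSpectrum (𝓞 N))
    (hW : Pool.Agent.HB.Lies L N v W) (σ : N ≃ₐ[L] N) (hσ : σ • W.asIdeal = W.asIdeal) (z : M) :
    σ (algebraMap M N z) = algebraMap M N z := by
  set w : HeightOneSpectrum (𝓞 M) := W.under (𝓞 M) with hwd
  have hwW : w.asIdeal = W.asIdeal.under (𝓞 M) := rfl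
  have hw : Pool.Agent.HB.Lies L M v w := by
    unfold Pool.Agent.HB.Lies at hW ⊢
    rw [hwW, ← hW, Ideal.under_under]
  have hc : ∀ x : M, algebraMap M N ((σ.restrictNormal M) x) = σ (algebraMap M N x) :=
    fun x => AlgEquiv.restrictNormal_commutes σ M x
  have hcO : ∀ x : 𝓞 M, algebraMap (𝓞 M) (𝓞 N) ((σ.restrictNormal M) • x) =
      σ • (algebraMap (𝓞 M) (𝓞 N) x) := by
    intro x
    apply RingOfIntegers.ext
    exact hc x
  have hmem : ∀ x : 𝓞 M, x ∈ w.asIdeal ↔ algebraMap (𝓞 M) (𝓞 N) x ∈ W.asIdeal := by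
    intro x
    rw [hwW, Ideal.under, Ideal.mem_comap]
  have hst : (σ.restrictNormal M) • w.asIdeal = w.asIdeal := by
    ext x
    have h1 : x = (σ.restrictNormal M) • ((σ.restrictNormal M)⁻¹ • x) := by
      rw [smul_inv_smul]
    constructor
    · intro hx
      rw [h1, Ideal.smul_mem_pointwise_smul_iff, hmem] at hx
      rw [h1, hmem, hcO, ← hσ, Ideal.smul_mem_pointwise_smul_iff]
      exact hx
    · intro hx
      rw [h1, hmem, hcO, ← hσ, Ideal.smul_mem_pointwise_smul_iff] at hx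
      rw [h1, Ideal.smul_mem_pointwise_smul_iff, hmem]
      exact hx
  have h2 := stab_one v hU hD w hw _ hst
  rw [← hc z, h2]
  rfl

end SPN

open _root_.Pool.Agent.VB.SPN in
theorem tb_SPN : Sb_SPN := by
  intro L M M' N _ _ _ _ _ _ _ _ _ _ _ _ _ _ _ _ _ _ hone v hU hU' hD hD'
  have hv := v.isPrime
  have := perf v
  have hvm := v.isMaximal
  -- a prime above `v`
  obtain ⟨P, hPm, hPl⟩ := Ideal.exists_maximal_ideal_liesOver_of_isIntegral v.asIdeal (S := 𝓞 N)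
  have hP0 : P ≠ ⊥ := Ideal.ne_bot_of_liesOver_of_ne_bot v.ne_bot P
  let W : HeightOneSpectrum (𝓞 N) := ⟨P, hPm.isPrime, hP0⟩
  have hW : Pool.Agent.HB.Lies L N v W := hPl.over.symm
  have hPp := hPm.isPrime
  -- the stabilizer is trivial
  have hst : ∀ σ : N ≃ₐ[L] N, σ • P = P → σ = 1 := by
    intro σ hσ
    exact hone σ (restr v hU hD W hW σ hσ) (restr v hU' hD' W hW σ hσ)
  have hc := Ideal.card_stabilizer_eq (G := N ≃ₐ[L] N) v.asIdeal P
  have h1 : Nat.card (MulAction.stabilizer (N ≃ₐ[L] N) P) = 1 := by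
    rw [Nat.card_eq_one_iff_unique]
    refine ⟨⟨fun a b => ?_⟩, ⟨1⟩⟩
    exact Subtype.ext ((hst a.1 a.2).trans (hst b.1 b.2).symm)
  rw [h1] at hc
  have h2 : Ideal.inertiaDegIn v.asIdeal (𝓞 N) = 1 := Nat.eq_one_of_mul_eq_one_left hc.symm
  -- norms
  have hnorm : ∀ Q : Ideal (𝓞 N), Q.IsPrime → Q.LiesOver v.asIdeal →
      Ideal.absNorm Q = Ideal.absNorm v.asIdeal := by
    intro Q hQ hQl
    have h3 := Ideal.absNorm_pow_inertiaDeg v.asIdeal Q
    rw [Ideal.inertiaDegIn_eq_inertiaDeg v.asIdeal Q (N ≃ₐ[L] N)] at h2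
    rw [h2, pow_one] at h3
    exact h3.symm
  -- the orbit
  have hne : ∀ σ : N ≃ₐ[L] N, σ • P ≠ ⊥ := fun σ =>
    Ideal.ne_bot_of_liesOver_of_ne_bot v.ne_bot (σ • P)
  let f : (N ≃ₐ[L] N) → {w : HeightOneSpectrum (𝓞 N) //
      w.asIdeal.under (𝓞 L) = v.asIdeal ∧ Ideal.absNorm w.asIdeal = Ideal.absNorm v.asIdeal} :=
    fun σ => ⟨⟨σ • P, inferInstance, hne σ⟩,
      (Ideal.LiesOver.over (P := σ • P) (p := v.asIdeal)).symm,
      hnorm (σ • P) inferInstance inferInstance⟩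
  have hinj : Function.Injective f := by
    intro σ τ h
    have h3 : σ • P = τ • P := congrArg (fun w => w.1.asIdeal) h
    have h4 : (τ⁻¹ * σ) • P = P := by
      rw [mul_smul, h3, inv_smul_smul]
    have h5 := hst _ h4
    rw [inv_mul_eq_one] at h5
    exact h5.symm
  have hfin : Finite {w : HeightOneSpectrum (𝓞 N) //
      w.asIdeal.under (𝓞 L) = v.asIdeal ∧ Ideal.absNorm w.asIdeal = Ideal.absNorm v.asIdeal} := by
    have h3 := IsDedekindDomain.primesOver_finite v.asIdeal (𝓞 N)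
    have h4 : Finite (v.asIdeal.primesOver (𝓞 N)) := h3
    refine Finite.of_injective (β := v.asIdeal.primesOver (𝓞 N))
      (fun w => ⟨w.1.asIdeal, w.1.isPrime, ⟨w.2.1.symm⟩⟩) ?_
    intro a b hab
    have h5 : a.1.asIdeal = b.1.asIdeal := congrArg Subtype.val hab
    exact Subtype.ext (HeightOneSpectrum.ext h5)
  rw [← IsGalois.card_aut_eq_finrank]
  exact Nat.card_le_card_of_injective f hinj

end Pool.Agent.VB


end

section

/-!
# Module VB_UIX: the index is at most `p`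
-/

set_option autoImplicit false

open NumberField IsDedekindDomain Filter Topology
open scoped nonZeroDivisors Pointwise

namespace Pool.Agent.VB

open _root_.Pool.Agent.RI _root_.Pool.Agent.MU3 _root_.Pool.Agent.Lib_helper28.FROB

theorem tb_UIX (hI : Sb_IDX) (hD : Sb_DLB) : Sb_UIX := by
  intro L M _ _ _ _ _ p hp hdeg U S hU
  classical
  set D : Set (HeightOneSpectrum (𝓞 L)) := {v | Pool.Agent.HB.Deg1 L M v} with hDdef
  have hp0 : (0 : ℝ) < p := by exact_mod_cast hp.pos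
  obtain ⟨C, hC⟩ := hD L M
  have key : ∃ C' : ℝ, ∀ᶠ s : ℝ in 𝓝[>] 1,
      (1 / (p : ℝ)) * Real.log (1 / (s - 1)) - C' ≤
        ∑' v, Set.indicator (D \ (S : Set (HeightOneSpectrum (𝓞 L)))) (x s) v := by
    refine ⟨C / p + S.card, ?_⟩
    filter_upwards [hC, self_mem_nhdsWithin] with s hs hs1
    have hs1' : 1 < s := hs1
    have hsum := summable_x (K := L) hs1'
    have h1 : Summable (Set.indicator (D \ (S : Set (HeightOneSpectrum (𝓞 L)))) (x s)) :=
      hsum.indicator _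
    have h2 : Summable (Set.indicator D (x s)) := hsum.indicator _
    have h3 : Summable (Set.indicator (S : Set (HeightOneSpectrum (𝓞 L))) (x s)) :=
      hsum.indicator _
    have h4 : ∑' v, Set.indicator D (x s) v ≤
        ∑' v, Set.indicator (D \ (S : Set (HeightOneSpectrum (𝓞 L)))) (x s) v +
          ∑' v, Set.indicator (S : Set (HeightOneSpectrum (𝓞 L))) (x s) v := by
      rw [← h1.tsum_add h3]
      refine h2.tsum_le_tsum (fun v => ?_) (h1.add h3)
      have h0 := (x_pos s v).le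
      by_cases hv : v ∈ D <;> by_cases hv' : v ∈ S <;> simp [hv, hv', h0]
    have h5 : ∑' v, Set.indicator (S : Set (HeightOneSpectrum (𝓞 L))) (x s) v ≤ S.card := by
      rw [tsum_eq_sum (s := S) (fun v hv => by simp [hv])]
      have h6 : ∀ v ∈ S, Set.indicator (S : Set (HeightOneSpectrum (𝓞 L))) (x s) v ≤ 1 := by
        intro v hv
        rw [Set.indicator_of_mem (by exact_mod_cast hv)]
        have := x_le (s := s) hs1'.le v
        linarith
      refine (Finset.sum_le_sum h6).trans ?_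
      simp
    rw [hdeg] at hs
    have h7 : Real.log (1 / (s - 1)) - C ≤ (p : ℝ) *
        (∑' v, Set.indicator (D \ (S : Set (HeightOneSpectrum (𝓞 L)))) (x s) v + S.card) :=
      hs.trans (mul_le_mul_of_nonneg_left (h4.trans (by linarith)) hp0.le)
    have h8 : (Real.log (1 / (s - 1)) - C) / p ≤
        ∑' v, Set.indicator (D \ (S : Set (HeightOneSpectrum (𝓞 L)))) (x s) v + S.card := by
      rw [div_le_iff₀ hp0]
      linarith
    have h9 : (Real.log (1 / (s - 1)) - C) / p =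
        (1 / (p : ℝ)) * Real.log (1 / (s - 1)) - C / p := by ring
    linarith
  have h := hI L (D \ (S : Set (HeightOneSpectrum (𝓞 L)))) (1 / (p : ℝ)) (by positivity) key U
    (fun v hv => hU v (by simpa using hv.2) hv.1)
  have h' : (U.index : ℝ) ≤ p := by
    rw [mul_one_div, div_le_one hp0] at h
    exact h
  exact_mod_cast h'

end Pool.Agent.VB


end

section

/-!
# VB, module CGP (helper14): the number of subgroups of index `p`
-/

set_option autoImplicit false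

namespace Pool.Agent.VB

namespace CGP

section

variable {A : Type} [CommGroup A] [Finite A]

/-- a character whose kernel is a given subgroup of index `p` -/
theorem exists_char (p : ℕ) [Fact p.Prime] (U : Subgroup A) (hU : U.index = p) :
    ∃ χ : A →* ℂˣ, χ.ker = U := by
  have hcard : Nat.card (A ⧸ U) = p := hU
  have hp1 : 1 < Nat.card (A ⧸ U) := by
    rw [hcard]
    exact (Fact.out : p.Prime).one_lt
  have hnt : Nontrivial (A ⧸ U) := Finite.one_lt_card_iff_nontrivial.1 hp1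
  obtain ⟨a, ha⟩ := exists_ne (1 : A ⧸ U)
  obtain ⟨φ, hφ⟩ := CommGroup.exists_apply_ne_one_of_hasEnoughRootsOfUnity (A ⧸ U) ℂ ha
  have hker : φ.ker = ⊥ := by
    have hpr : (Nat.card (A ⧸ U)).Prime := by rw [hcard]; exact Fact.out
    have hs : IsSimpleGroup (A ⧸ U) := isSimpleGroup_of_prime_card (p := p) hcard
    rcases hs.eq_bot_or_eq_top_of_normal φ.ker inferInstance with h | h
    · exact h
    · exfalso
      apply hφ
      have : a ∈ φ.ker := by rw [h]; exact Subgroup.mem_top a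
      exact this
  refine ⟨φ.comp (QuotientGroup.mk' U), ?_⟩
  rw [← MonoidHom.comap_ker, hker]
  ext x
  rw [Subgroup.mem_comap, Subgroup.mem_bot]
  exact QuotientGroup.eq_one_iff x

/-- the `p`-torsion is small -/
theorem card_tors (p : ℕ) [Fact p.Prime] (K : Subgroup A) (hKp : ∀ x ∈ K, x ^ p = 1) :
    Nat.card K ≤ p ^ padicValNat p (Nat.card A) := by
  have hp : p.Prime := Fact.out
  have hpg : IsPGroup p K := by
    intro x
    refine ⟨1, ?_⟩
    rw [pow_one]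
    exact Subtype.ext (hKp x.1 x.2)
  obtain ⟨n, hn⟩ := (IsPGroup.iff_card).1 hpg
  have hd : p ^ n ∣ Nat.card A := hn ▸ Subgroup.card_subgroup_dvd_card K
  rw [hn]
  exact Nat.pow_le_pow_right hp.pos
    ((padicValNat_dvd_iff_le (Nat.card_pos (α := A)).ne').1 hd)

/-- a character with kernel of index `p` is killed by `p` -/
theorem char_pow (p : ℕ) [Fact p.Prime] (χ : A →* ℂˣ) (hU : χ.ker.index = p) :
    χ ^ p = 1 := by
  apply MonoidHom.ext
  intro a
  have h1 : a ^ p ∈ χ.ker := by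
    have h2 := Subgroup.pow_index_mem (H := χ.ker) a
    rwa [hU] at h2
  have h3 : χ (a ^ p) = 1 := h1
  rw [MonoidHom.pow_apply, ← map_pow, h3, MonoidHom.one_apply]

end

/-- every subgroup of index `p` gets an element of the `p`-torsion, injectively -/
theorem exists_inj (A : Type) [CommGroup A] [Finite A] (p : ℕ) [Fact p.Prime] :
    ∃ f : Subgroup A → A, (∀ U : Subgroup A, U.index = p → f U ^ p = 1) ∧
      ∀ U V : Subgroup A, U.index = p → V.index = p → f U = f V → U = V := by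
  classical
  have e := (CommGroup.monoidHom_mulEquiv_of_hasEnoughRootsOfUnity A ℂ).some
  have h : ∀ U : Subgroup A, ∃ χ : A →* ℂˣ, U.index = p → χ.ker = U := by
    intro U
    by_cases hU : U.index = p
    · obtain ⟨χ, hχ⟩ := exists_char p U hU
      exact ⟨χ, fun _ => hχ⟩
    · exact ⟨1, fun h => absurd h hU⟩
  choose χ hχ using h
  refine ⟨fun U => e (χ U), ?_, ?_⟩
  · intro U hU
    have h1 : χ U ^ p = 1 := char_pow p (χ U) (by rw [hχ U hU]; exact hU)
    have h2 : e (χ U) ^ p = e (χ U ^ p) := (map_pow e (χ U) p).symm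
    rw [h2, h1]
    exact map_one e
  · intro U V hU hV hUV
    have h1 : χ U = χ V := e.injective hUV
    rw [← hχ U hU, ← hχ V hV, h1]

end CGP

theorem tb_CGP : Sb_CGP := by
  intro A _ _ p _ T hT
  classical
  obtain ⟨f, hf1, hf2⟩ := CGP.exists_inj A p
  have hinj : Set.InjOn f T := by
    intro U hU V hV h
    exact hf2 U V (hT U hU) (hT V hV) h
  have h1 : (T.image f).card = T.card := Finset.card_image_of_injOn hinj
  have h2 : ((T.image f : Finset A) : Set A) ⊆ ((powMonoidHom p : A →* A).ker : Set A) := by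
    intro x hx
    obtain ⟨U, hU, rfl⟩ := Finset.mem_image.1 (Finset.mem_coe.1 hx)
    exact hf1 U (hT U hU)
  have h3 : (T.image f).card ≤ Nat.card ((powMonoidHom p : A →* A).ker) := by
    have h4 := Set.ncard_le_ncard h2 (Set.toFinite _)
    rw [Set.ncard_coe_finset] at h4
    exact h4
  rw [← h1]
  exact h3.trans (CGP.card_tors p _ fun x hx => hx)

end Pool.Agent.VB


end

section

/-!
# VD2: descent of unramifiedness in the tower (helper84)
-/

set_option autoImplicit false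

namespace Pool.Agent.VB

open _root_.Pool.Agent.RI

namespace VD2

/-- a `p`-th root of unity is in every field which contains `ζ` -/
lemma root_mem {p : ℕ} [Fact p.Prime] {F : IntermediateField ℚ ℂ} {ζ : ℂ} (hζ : ζ ∈ F)
    (hp : IsPrimitiveRoot ζ p) {η : ℂ} (h : η ^ p = 1) : η ∈ F := by
  have : NeZero p := ⟨(Fact.out : p.Prime).ne_zero⟩
  obtain ⟨i, -, rfl⟩ := hp.eq_pow_of_pow_eq_one h
  exact pow_mem hζ i

lemma pow_act {F : IntermediateField ℚ ℂ} {σ : ℂ ≃+* ℂ} (hσ : Fixes F σ) {η y : ℂ} (hη : η ∈ F)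
    (h : σ y = η * y) (k : ℕ) : (σ ^ k) y = η ^ k * y := by
  induction k with
  | zero =>
    rw [pow_zero, pow_zero, one_mul]
    rfl
  | succ k ih =>
    have e1 : (σ ^ (k + 1)) y = (σ ^ k) (σ y) := by
      rw [pow_succ]
      rfl
    rw [e1, h, map_mul, ih, fixes_pow hσ k η hη]
    ring

/-- powers of two automorphisms which agree on a stable field agree -/
lemma pow_agree {K : IntermediateField ℚ ℂ} {σ τ : ℂ ≃+* ℂ} (h : ∀ x ∈ K, σ x = τ x)
    (hs : ∀ x ∈ K, τ x ∈ K) (k : ℕ) : ∀ x ∈ K, (σ ^ k) x = (τ ^ k) x := by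
  induction k with
  | zero =>
    intro x _
    rw [pow_zero, pow_zero]
  | succ k ih =>
    intro x hx
    have e1 : (σ ^ (k + 1)) x = (σ ^ k) (σ x) := by
      rw [pow_succ]
      rfl
    have e2 : (τ ^ (k + 1)) x = (τ ^ k) (τ x) := by
      rw [pow_succ]
      rfl
    rw [e1, e2, h x hx, ih _ (hs x hx)]

/-- two automorphisms which agree on a field -/
lemma agree_fix {K : IntermediateField ℚ ℂ} {σ τ : ℂ ≃+* ℂ} (h : ∀ x ∈ K, σ x = τ x) :
    Fixes K (τ⁻¹ * σ) := by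
  intro x hx
  show τ.symm (σ x) = x
  rw [h x hx]
  exact τ.symm_apply_apply x

lemma agree_of_fix {K : IntermediateField ℚ ℂ} {σ τ : ℂ ≃+* ℂ} (h : Fixes K (τ⁻¹ * σ)) :
    ∀ x ∈ K, σ x = τ x := by
  intro x hx
  have h3 : τ.symm (σ x) = x := h x hx
  have h4 : τ (τ.symm (σ x)) = σ x := τ.apply_symm_apply _
  rw [h3] at h4
  exact h4.symm

end VD2

open _root_.Pool.Agent.VB.VD2 in
theorem tb_VD2 (hMUL : Sb_MUL) (hCRD : Sb_CRD) : Sb_VD2 := by
  intro p hpf F B n₁ γ hT j m x y V hx hx0 hy hjm hTI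
  have hp0 : p ≠ 0 := (Fact.out : p.Prime).ne_zero
  obtain ⟨ζ, hζF, hζ⟩ := hT.zeta
  have hy0 : y ≠ 0 := by
    rintro rfl
    rw [zero_pow hp0] at hy
    exact hx0 hy.symm
  have hfj := hT.fd (n₁ + j)
  have hfm := hT.fd (n₁ + m)
  have h01 : F ⊔ B (n₁ + j) ≤ F ⊔ B (n₁ + (j + 1)) := sup_le_sup_left (hT.mono (by omega)) F
  have h1m : F ⊔ B (n₁ + (j + 1)) ≤ F ⊔ B (n₁ + m) := sup_le_sup_left (hT.mono (by omega)) F
  have hF0 : F ≤ F ⊔ B (n₁ + j) := le_sup_left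
  have hgen := hT.gen (j + 1) m hjm
  have htot : (p : ℂ) ∈ V.nonunits → ∀ σ : ℂ ≃+* ℂ, Fixes (F ⊔ B (n₁ + j)) σ →
      Inr V (F ⊔ B (n₁ + m)) σ := fun h σ hσ => hT.tot V h j m σ hσ
  have hunl : (p : ℂ) ∉ V.nonunits → TI V (F ⊔ B (n₁ + (j + 1))) (F ⊔ B (n₁ + m)) :=
    fun h => hT.unl V h (j + 1) m
  have hfix : Fixes (F ⊔ B (n₁ + j)) (γ ^ p ^ j) := hT.fix j
  have hnF : Nrm (F ⊔ B (n₁ + j)) (F ⊔ B (n₁ + m)) := by
    refine nrm_sup ?_ (nrm_mono bot_le (hT.nrm _))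
    exact nrm_mono hF0 (nrm_self F)
  generalize F ⊔ B (n₁ + j) = L₀ at *
  generalize F ⊔ B (n₁ + (j + 1)) = L₁ at *
  generalize F ⊔ B (n₁ + m) = Lm at *
  have h0m : L₀ ≤ Lm := h01.trans h1m
  -- the field `N`
  have hyi : IsIntegral ℚ y := by
    have h1 : IsIntegral ℚ x := by
      have h2 : IsIntegral ℚ (⟨x, hx⟩ : L₀) := Algebra.IsIntegral.isIntegral _
      exact h2.map (IntermediateField.val L₀)
    rw [← hy] at h1
    exact h1.of_pow (Nat.pos_of_ne_zero hp0)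
  have hfy : FiniteDimensional ℚ (IntermediateField.adjoin ℚ {y}) :=
    IntermediateField.adjoin.finiteDimensional hyi
  have hfN : FiniteDimensional ℚ ↥(adj Lm y) := IntermediateField.finiteDimensional_sup _ _
  have hroot : ∀ τ : ℂ ≃+* ℂ, Fixes L₀ τ → (τ y / y) ^ p = 1 := by
    intro τ hτ
    rw [div_pow, ← map_pow, hy, hτ x hx, div_self hx0]
  have hrF : ∀ τ : ℂ ≃+* ℂ, Fixes L₀ τ → τ y / y ∈ F := fun τ hτ => root_mem hζF hζ (hroot τ hτ)
  have hye : ∀ τ : ℂ ≃+* ℂ, τ y = (τ y / y) * y := fun τ => by field_simp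
  have hnadj : ∀ K : IntermediateField ℚ ℂ, F ≤ K → Nrm L₀ K → Nrm L₀ (adj K y) := by
    intro K hFK hK σ hσ
    have h1 : adj K y ≤ PreF σ (adj K y) := by
      refine adj_le (fun z hz => ?_) ?_
      · rw [mem_PreF]
        exact le_adj K y (hK σ hσ z hz)
      · rw [mem_PreF, hye σ]
        exact mul_mem (le_adj K y (hFK (hrF σ hσ))) (mem_adj K y)
    exact fun z hz => h1 hz
  have hnN : Nrm L₀ (adj Lm y) := hnadj Lm (hF0.trans h0m) hnF
  have hmN : Lm ≤ adj Lm y := le_adj Lm y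
  -- the claim
  have claim : ∀ σ : ℂ ≃+* ℂ, Fixes L₁ σ → Inr V (adj Lm y) σ → σ y = y := by
    intro σ hσ hI
    by_cases hV : (p : ℂ) ∈ V.nonunits
    · -- the numbers
      have c1 := (hMUL V L₀ Lm (adj Lm y) h0m hmN hnF hnN).1
      have c2 : cI V Lm (adj Lm y) = 1 := ((hCRD Lm (adj Lm y) hmN).2.2.2.2 V).2.2.1.2 hTI
      have c3 : cI V L₀ Lm = cR L₀ Lm := ((hCRD L₀ Lm h0m).2.2.2.2 V).2.2.2 (htot hV)
      have hfin := (hCRD L₀ Lm h0m).2.2.2.1
      have hfin2 := (hCRD L₀ (adj Lm y) (h0m.trans hmN)).2.2.2.1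
      rw [c2, one_mul, c3] at c1
      -- the restriction map
      let ρ : {f : ↥(adj Lm y) → ℂ // ∃ σ : ℂ ≃+* ℂ, Fixes L₀ σ ∧ Inr V (adj Lm y) σ ∧
          ∀ z : ↥(adj Lm y), f z = σ z} →
          {f : Lm → ℂ // ∃ σ : ℂ ≃+* ℂ, Fixes L₀ σ ∧ ∀ z : Lm, f z = σ z} := fun f =>
        ⟨fun z => f.1 ⟨z.1, hmN z.2⟩, by
          obtain ⟨τ, h1, -, h3⟩ := f.2
          exact ⟨τ, h1, fun z => h3 ⟨z.1, hmN z.2⟩⟩⟩
      have hρ : Function.Injective ρ := by
        intro f g hfg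
        obtain ⟨τ, t1, t2, t3⟩ := f.2
        obtain ⟨κ, k1, k2, k3⟩ := g.2
        have e1 : ∀ z ∈ Lm, τ z = κ z := by
          intro z hz
          have e2 := congrFun (congrArg Subtype.val hfg) ⟨z, hz⟩
          have e3 : f.1 ⟨z, hmN hz⟩ = g.1 ⟨z, hmN hz⟩ := e2
          rw [t3, k3] at e3
          exact e3
        have e4 : Fixes (adj Lm y) (κ⁻¹ * τ) := by
          refine hTI _ (agree_fix e1) ?_
          exact inr_mul (inr_inv k2 (hnN κ⁻¹ (fixes_inv k1))) t2 (hnN τ t1)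
        have e5 := agree_of_fix e4
        refine Subtype.ext (funext fun z => ?_)
        rw [t3, k3]
        exact e5 z z.2
      have hbij : Function.Bijective ρ := by
        have := hfin
        have hcard : Nat.card {f : ↥(adj Lm y) → ℂ // ∃ σ : ℂ ≃+* ℂ, Fixes L₀ σ ∧
            Inr V (adj Lm y) σ ∧ ∀ z : ↥(adj Lm y), f z = σ z} =
            Nat.card {f : Lm → ℂ // ∃ σ : ℂ ≃+* ℂ, Fixes L₀ σ ∧ ∀ z : Lm, f z = σ z} := c1
        exact (Nat.bijective_iff_injective_and_card ρ).2 ⟨hρ, hcard⟩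
      obtain ⟨f, hf⟩ := hbij.2 ⟨fun z => (γ ^ p ^ j) z, γ ^ p ^ j, hfix, fun _ => rfl⟩
      obtain ⟨τ, t1, t2, t3⟩ := f.2
      have hτ : ∀ z ∈ Lm, τ z = (γ ^ p ^ j) z := by
        intro z hz
        have e2 := congrFun (congrArg Subtype.val hf) ⟨z, hz⟩
        have e3 : f.1 ⟨z, hmN hz⟩ = (γ ^ p ^ j) z := e2
        rw [t3] at e3
        exact e3
      obtain ⟨i, hi⟩ := hgen σ hσ
      have hpw : γ ^ (p ^ (j + 1) * i) = (γ ^ p ^ j) ^ (p * i) := by
        rw [← pow_mul]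
        congr 1
        ring
      have hστ : ∀ z ∈ Lm, σ z = (τ ^ (p * i)) z := by
        intro z hz
        rw [hi z hz, hpw]
        exact (pow_agree hτ (hnF _ hfix) (p * i) z hz).symm
      have hτpN : ∀ z ∈ adj Lm y, (τ ^ (p * i)) z ∈ adj Lm y :=
        hnN _ (fixes_pow t1 _)
      have hIτ : Inr V (adj Lm y) (τ ^ (p * i)) := inr_pow t2 (hnN τ t1) (p * i)
      have e4 : Fixes (adj Lm y) ((τ ^ (p * i))⁻¹ * σ) := by
        refine hTI _ (agree_fix hστ) ?_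
        exact inr_mul (inr_inv hIτ (hnN _ (fixes_inv (fixes_pow t1 _)))) hI
          (hnN σ (fixes_mono h01 hσ))
      have e5 := agree_of_fix e4 y (mem_adj Lm y)
      rw [e5, pow_act (fixes_mono hF0 t1) (hrF τ t1) (hye τ) (p * i), pow_mul, hroot τ t1,
        one_pow, one_mul]
    · exact hTI σ (hunl hV σ hσ (inr_mono hmN hI)) hI y (mem_adj Lm y)
  -- the conclusion
  have hEN : adj L₁ y ≤ adj Lm y := adj_le (h1m.trans hmN) (mem_adj Lm y)
  have h1E : L₁ ≤ adj L₁ y := le_adj L₁ y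
  have hnE : Nrm L₁ (adj L₁ y) := by
    refine nrm_adj fun σ hσ => ?_
    rw [hye σ]
    exact mul_mem (le_adj _ _ (h01 (hF0 (hrF σ (fixes_mono h01 hσ))))) (mem_adj _ _)
  have d1 := (hMUL V L₁ (adj L₁ y) (adj Lm y) h1E hEN hnE (nrm_mono h01 hnN)).1
  have d2 : cI V L₁ (adj Lm y) = cI V (adj L₁ y) (adj Lm y) := by
    unfold cI
    refine Nat.card_congr (Equiv.subtypeEquivRight fun f => ?_)
    constructor
    · rintro ⟨σ, s1, s2, s3⟩
      exact ⟨σ, fixes_adj s1 (claim σ s1 s2), s2, s3⟩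
    · rintro ⟨σ, s1, s2, s3⟩
      exact ⟨σ, fixes_mono h1E s1, s2, s3⟩
  have d3 : 0 < cI V (adj L₁ y) (adj Lm y) := ((hCRD (adj L₁ y) (adj Lm y) hEN).2.2.2.2 V).1
  have hfE : FiniteDimensional ℚ ↥(adj L₁ y) :=
    FiniteDimensional.of_injective (IntermediateField.inclusion hEN).toLinearMap
      (IntermediateField.inclusion hEN).injective
  refine ((hCRD L₁ (adj L₁ y) h1E).2.2.2.2 V).2.2.1.1 ?_
  rw [d2] at d1
  have d4 : cI V (adj L₁ y) (adj Lm y) * 1 =
      cI V (adj L₁ y) (adj Lm y) * cI V L₁ (adj L₁ y) := by rw [mul_one]; exact d1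
  exact (Nat.eq_of_mul_eq_mul_left d3 d4).symm

end Pool.Agent.VB


end

section

set_option autoImplicit false

namespace Pool.Agent.VB

namespace DGRa

/-- all `p`-th roots of unity are in `L` -/
lemma root_mem {p : ℕ} [Fact p.Prime] {L : IntermediateField ℚ ℂ}
    (hz : ∃ ζ ∈ L, IsPrimitiveRoot ζ p) {η : ℂ} (h : η ^ p = 1) : η ∈ L := by
  obtain ⟨ζ, hζ, hp⟩ := hz
  haveI : NeZero p := ⟨(Fact.out : p.Prime).ne_zero⟩
  obtain ⟨i, _, rfl⟩ := hp.eq_pow_of_pow_eq_one h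
  exact pow_mem hζ i

lemma nrm_kum {p : ℕ} [Fact p.Prime] {L : IntermediateField ℚ ℂ}
    (hz : ∃ ζ ∈ L, IsPrimitiveRoot ζ p) {y : ℂ} (hy : y ^ p ∈ L) (hy0 : y ≠ 0) :
    Nrm L (adj L y) := by
  refine nrm_adj fun σ hσ => ?_
  have h1 : (σ y / y) ^ p = 1 := by
    rw [div_pow, ← map_pow, hσ _ hy, div_self (pow_ne_zero p hy0)]
  have h2 : σ y / y ∈ L := root_mem hz h1
  have h3 : σ y = (σ y / y) * y := by field_simp
  rw [h3]
  exact mul_mem (le_adj L y h2) (mem_adj L y)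

lemma fd_adj {p : ℕ} [Fact p.Prime] {L : IntermediateField ℚ ℂ} [FiniteDimensional ℚ L]
    {y : ℂ} (hy : y ^ p ∈ L) : FiniteDimensional ℚ (adj L y) := by
  have h1 : IsIntegral ℚ (⟨y ^ p, hy⟩ : L) := IsIntegral.of_finite ℚ _
  have h2 : IsIntegral ℚ (y ^ p : ℂ) := h1.map L.val
  have h3 : IsIntegral ℚ y := IsIntegral.of_pow (Fact.out : p.Prime).pos h2
  haveI := IntermediateField.adjoin.finiteDimensional h3
  unfold adj
  infer_instance

lemma adj_self {L : IntermediateField ℚ ℂ} {y : ℂ} (hy : y ∈ L) : adj L y = L :=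
  le_antisymm (adj_le le_rfl hy) (le_adj L y)

lemma mem_nu {V : ValuationSubring ℂ} {a : ℂ} (ha : a ≠ 0) : a ∈ V.nonunits ↔ a⁻¹ ∉ V := by
  rw [ValuationSubring.mem_nonunits_iff, ← V.valuation_le_one_iff, map_inv₀, not_le]
  have h0 : 0 < V.valuation a := by
    rw [zero_lt_iff, Valuation.ne_zero_iff]
    exact ha
  exact (one_lt_inv₀ h0).symm

lemma nu_comap {V : ValuationSubring ℂ} (σ : ℂ ≃+* ℂ) {a : ℂ} :
    a ∈ (V.comap (σ : ℂ →+* ℂ)).nonunits ↔ σ a ∈ V.nonunits := by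
  by_cases ha : a = 0
  · subst ha
    rw [map_zero]
    constructor
    · intro _
      rw [ValuationSubring.mem_nonunits_iff, map_zero]
      exact zero_lt_one
    · intro _
      rw [ValuationSubring.mem_nonunits_iff, map_zero]
      exact zero_lt_one
  · have hb : σ a ≠ 0 := fun h => ha (by rwa [map_eq_zero_iff σ σ.injective] at h)
    rw [mem_nu ha, mem_nu hb, ValuationSubring.mem_comap, ← map_inv₀]
    rfl

lemma mem_supl {A B : IntermediateField ℚ ℂ} {x : ℂ} (h : x ∈ A) : x ∈ A ⊔ B :=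
  (le_sup_left : A ≤ A ⊔ B) h

lemma mem_supr {A B : IntermediateField ℚ ℂ} {x : ℂ} (h : x ∈ B) : x ∈ A ⊔ B :=
  (le_sup_right : B ≤ A ⊔ B) h

lemma fd_sup {A B : IntermediateField ℚ ℂ} (hA : FiniteDimensional ℚ A)
    (hB : FiniteDimensional ℚ B) : FiniteDimensional ℚ ↥(A ⊔ B) := by
  infer_instance

/-- descent of trivial inertia to a Kummer subextension -/
lemma ti_desc (hM : Sb_MUL) {p : ℕ} [Fact p.Prime] {L : IntermediateField ℚ ℂ}
    (hz : ∃ ζ ∈ L, IsPrimitiveRoot ζ p) {y : ℂ} (hy : y ^ p ∈ L) (hy0 : y ≠ 0)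
    (N : IntermediateField ℚ ℂ) (hfd : FiniteDimensional ℚ N) (hLN : L ≤ N) (hyN : y ∈ N)
    (hN : Nrm L N) (V : ValuationSubring ℂ) (hT : TI V L N) : TI V L (adj L y) :=
  (hM V L (adj L y) N (le_adj L y) (adj_le hLN hyN) (nrm_kum hz hy hy0) hN).2 hT

lemma ind_mul (hM : Sb_MUL) {p : ℕ} [hp : Fact p.Prime] {L : IntermediateField ℚ ℂ}
    [FiniteDimensional ℚ L] (hz : ∃ ζ ∈ L, IsPrimitiveRoot ζ p) (x x' : ℂ)
    (h1 : InD p L x) (h2 : InD p L x') : InD p L (x * x') := by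
  obtain ⟨hx, hx0, hxU⟩ := h1
  obtain ⟨hx', hx0', hxU'⟩ := h2
  have hp0 : 0 < p := hp.out.pos
  refine ⟨mul_mem hx hx', mul_ne_zero hx0 hx0', fun y hy V => ?_⟩
  obtain ⟨y₁, hy₁⟩ := IsAlgClosed.exists_pow_nat_eq x hp0
  have hy₁0 : y₁ ≠ 0 := by
    rintro rfl
    rw [zero_pow hp0.ne'] at hy₁
    exact hx0 hy₁.symm
  have hy0 : y ≠ 0 := by
    rintro rfl
    rw [zero_pow hp0.ne'] at hy
    exact mul_ne_zero hx0 hx0' hy.symm
  obtain ⟨y₂, hy2⟩ : ∃ y₂ : ℂ, y₂ = y / y₁ := ⟨_, rfl⟩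
  have hy₂ : y₂ ^ p = x' := by
    rw [hy2, div_pow, hy, hy₁, mul_div_cancel_left₀ _ hx0]
  have hy₂0 : y₂ ≠ 0 := by
    rw [hy2]
    exact div_ne_zero hy0 hy₁0
  have hyy : y = y₁ * y₂ := by
    rw [hy2]
    field_simp
  have f1 : y₁ ^ p ∈ L := by rw [hy₁]; exact hx
  have f2 : y₂ ^ p ∈ L := by rw [hy₂]; exact hx'
  have f3 : y ^ p ∈ L := by rw [hy]; exact mul_mem hx hx'
  have hyN : y ∈ adj L y₁ ⊔ adj L y₂ := by
    rw [hyy]
    exact mul_mem (mem_supl (mem_adj L y₁)) (mem_supr (mem_adj L y₂))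
  exact ti_desc hM hz f3 hy0 (adj L y₁ ⊔ adj L y₂) (fd_sup (fd_adj f1) (fd_adj f2))
    (le_trans (le_adj L y₁) le_sup_left) hyN (nrm_sup (nrm_kum hz f1 hy₁0) (nrm_kum hz f2 hy₂0))
    V (ti_sup (hxU y₁ hy₁ V) (hxU' y₂ hy₂ V))

lemma ind_base {p : ℕ} {L L' : IntermediateField ℚ ℂ} (hLL : L ≤ L') (x : ℂ)
    (h : InD p L x) : InD p L' x := by
  obtain ⟨hx, hx0, hxU⟩ := h
  refine ⟨hLL hx, hx0, fun y hy V => ?_⟩
  have h1 : adj L' y = L' ⊔ adj L y :=
    le_antisymm (adj_le le_sup_left (mem_supr (mem_adj L y)))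
      (sup_le (le_adj L' y) (adj_le (le_trans hLL (le_adj L' y)) (mem_adj L' y)))
  rw [h1]
  exact ti_base (hxU y hy V) hLL

lemma ind_inv {p : ℕ} {L : IntermediateField ℚ ℂ} (x : ℂ)
    (h : InD p L x) : InD p L x⁻¹ := by
  obtain ⟨hx, hx0, hxU⟩ := h
  refine ⟨inv_mem hx, inv_ne_zero hx0, fun y hy V => ?_⟩
  have h1 : (y⁻¹) ^ p = x := by rw [inv_pow, hy, inv_inv]
  have h2 : adj L y = adj L y⁻¹ := by
    refine le_antisymm (adj_le (le_adj L _) ?_) (adj_le (le_adj L _) (inv_mem (mem_adj L y)))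
    have := inv_mem (mem_adj L y⁻¹)
    rwa [inv_inv] at this
  rw [h2]
  exact hxU _ h1 V

end DGRa

open _root_.Pool.Agent.VB.DGRa in
theorem tb_DGR (hM : Sb_MUL) : Sb_DGR := by
  intro p hp L hL hz
  have hp0 : 0 < p := hp.out.pos
  refine ⟨?_, ?_, ?_, ?_, ?_⟩
  · intro t ht ht0
    refine ⟨pow_mem ht p, pow_ne_zero p ht0, fun y hy V => ?_⟩
    have h1 : (y / t) ^ p = 1 := by rw [div_pow, hy, div_self (pow_ne_zero p ht0)]
    have h2 : y = (y / t) * t := by field_simp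
    have h3 : y ∈ L := by
      rw [h2]
      exact mul_mem (root_mem hz h1) ht
    rw [adj_self h3]
    exact ti_self V L
  · exact ind_mul hM hz
  · exact ind_inv
  · exact fun L' hLL x hx => ind_base hLL x hx
  · rintro σ hσ hσi x ⟨hx, hx0, hxU⟩
    refine ⟨hσ x hx, fun h => hx0 (by rwa [map_eq_zero_iff σ σ.injective] at h),
      fun y hy V τ hτ hI => ?_⟩
    have e1 : σ ((σ⁻¹ : ℂ ≃+* ℂ) y) = y := σ.apply_symm_apply y
    have hy₁ : ((σ⁻¹ : ℂ ≃+* ℂ) y) ^ p = x := by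
      rw [← map_pow, hy]
      exact σ.symm_apply_apply x
    have hsub : adj L ((σ⁻¹ : ℂ ≃+* ℂ) y) ≤ PreF σ (adj L y) := by
      refine adj_le (fun z hz' => ?_) ?_
      · rw [mem_PreF]
        exact le_adj L y (hσ z hz')
      · rw [mem_PreF, e1]
        exact mem_adj L y
    have hρL : Fixes L (σ⁻¹ * τ * σ) := by
      intro z hz'
      show σ.symm (τ (σ z)) = z
      rw [hτ _ (hσ z hz'), σ.symm_apply_apply]
    have hρI : Inr (V.comap (σ : ℂ →+* ℂ)) (adj L ((σ⁻¹ : ℂ ≃+* ℂ) y)) (σ⁻¹ * τ * σ) := by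
      intro z hz' hzV
      rw [nu_comap, map_sub]
      have h1 : σ ((σ⁻¹ * τ * σ : ℂ ≃+* ℂ) z) = τ (σ z) := by
        show σ (σ.symm (τ (σ z))) = _
        rw [σ.apply_symm_apply]
      rw [h1]
      exact hI (σ z) (hsub hz') hzV
    have h3 := hxU _ hy₁ (V.comap (σ : ℂ →+* ℂ)) _ hρL hρI _ (mem_adj L _)
    have h4 : τ y = y := by
      have h5 : σ.symm (τ (σ ((σ⁻¹ : ℂ ≃+* ℂ) y))) = (σ⁻¹ : ℂ ≃+* ℂ) y := h3
      rw [e1] at h5
      have h6 := congrArg σ h5
      rw [σ.apply_symm_apply, e1] at h6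
      exact h6
    exact fixes_adj hτ h4

end Pool.Agent.VB


end

section

/-!
# VB: (FRC) the elements of `M ∩ V` are fractions; inertia may be tested on integers (helper46)
-/

set_option autoImplicit false

open NumberField IsDedekindDomain

namespace Pool.Agent.VB

/-- integral elements are in `V` -/
lemma frc_int (M : IntermediateField ℚ ℂ) (V : ValuationSubring ℂ) (a : 𝓞 M) :
    ((a : M) : ℂ) ∈ V := by
  have h0 : IsIntegral ℤ (a : M) := RingOfIntegers.isIntegral_coe a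
  have h1 : IsIntegral ℤ ((a : M) : ℂ) := h0.map (M.val.restrictScalars ℤ)
  have h2 : IsIntegral V ((a : M) : ℂ) := h1.tower_top
  obtain ⟨y, hy⟩ := IsIntegrallyClosed.isIntegral_iff.1 h2
  rw [← hy]
  exact y.2

/-- the prime of `V` in `𝓞 M` -/
noncomputable def frcP (M : IntermediateField ℚ ℂ) (V : ValuationSubring ℂ) : Ideal (𝓞 M) where
  carrier := {a | ((a : M) : ℂ) ∈ V.nonunits}
  add_mem' := by
    intro a b ha hb
    show (((a + b : 𝓞 M) : M) : ℂ) ∈ V.nonunits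
    have : (((a + b : 𝓞 M) : M) : ℂ) = ((a : M) : ℂ) + ((b : M) : ℂ) := by push_cast; rfl
    rw [this]
    exact nonunits_add ha hb
  zero_mem' := by
    show (((0 : 𝓞 M) : M) : ℂ) ∈ V.nonunits
    have : (((0 : 𝓞 M) : M) : ℂ) = 0 := by push_cast; rfl
    rw [this, ValuationSubring.mem_nonunits_iff, map_zero]
    exact zero_lt_one
  smul_mem' := by
    intro a b hb
    show (((a * b : 𝓞 M) : M) : ℂ) ∈ V.nonunits
    have : (((a * b : 𝓞 M) : M) : ℂ) = ((a : M) : ℂ) * ((b : M) : ℂ) := by push_cast; rfl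
    rw [this]
    exact nonunits_mul (frc_int M V a) hb

lemma mem_frcP {M : IntermediateField ℚ ℂ} {V : ValuationSubring ℂ} {a : 𝓞 M} :
    a ∈ frcP M V ↔ ((a : M) : ℂ) ∈ V.nonunits := Iff.rfl

lemma nonunits_of_mul {V : ValuationSubring ℂ} {a b : ℂ} (ha : a ∈ V) (hb : b ∈ V)
    (h : a * b ∈ V.nonunits) : a ∈ V.nonunits ∨ b ∈ V.nonunits := by
  rw [ValuationSubring.mem_nonunits_iff] at *
  rw [ValuationSubring.mem_nonunits_iff]
  rw [map_mul] at h
  have h1 := (V.valuation_le_one_iff a).2 ha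
  have h2 := (V.valuation_le_one_iff b).2 hb
  by_contra hc
  push Not at hc
  have e1 : V.valuation a = 1 := le_antisymm h1 hc.1
  have e2 : V.valuation b = 1 := le_antisymm h2 hc.2
  rw [e1, e2, mul_one] at h
  exact lt_irrefl _ h

lemma frcP_prime (M : IntermediateField ℚ ℂ) (V : ValuationSubring ℂ) : (frcP M V).IsPrime := by
  constructor
  · rw [Ideal.ne_top_iff_one]
    intro h
    rw [mem_frcP] at h
    have : (((1 : 𝓞 M) : M) : ℂ) = 1 := by push_cast; rfl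
    rw [this, ValuationSubring.mem_nonunits_iff, map_one] at h
    exact lt_irrefl _ h
  · intro a b h
    rw [mem_frcP] at h
    have : (((a * b : 𝓞 M) : M) : ℂ) = ((a : M) : ℂ) * ((b : M) : ℂ) := by push_cast; rfl
    rw [this] at h
    exact nonunits_of_mul (frc_int M V a) (frc_int M V b) h

/-- (1) fractions -/
lemma frc_one (M : IntermediateField ℚ ℂ) [FiniteDimensional ℚ M] (V : ValuationSubring ℂ)
    (x : ℂ) (hx : x ∈ M) (hV : x ∈ V) : ∃ s t : 𝓞 M, ((t : M) : ℂ) ∉ V.nonunits ∧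
      x = ((s : M) : ℂ) / ((t : M) : ℂ) := by
  have : NumberField M := ⟨⟩
  by_cases hP : frcP M V = ⊥
  · obtain ⟨s, t, ht, hst⟩ := IsFractionRing.div_surjective (A := 𝓞 M) (⟨x, hx⟩ : M)
    have ht0 : t ≠ 0 := nonZeroDivisors.ne_zero ht
    refine ⟨s, t, ?_, ?_⟩
    · intro h
      have h1 : t ∈ frcP M V := h
      rw [hP, Ideal.mem_bot] at h1
      exact ht0 h1
    · have h2 : (((s : M) / (t : M) : M) : ℂ) = x := congrArg (Subtype.val) hst
      rw [← h2]
      push_cast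
      rfl
  · let w : HeightOneSpectrum (𝓞 M) := ⟨frcP M V, frcP_prime M V, hP⟩
    have hw : ∀ a : 𝓞 M, a ∈ w.asIdeal ↔ ((a : M) : ℂ) ∈ V.nonunits := fun a => Iff.rfl
    by_cases hx1 : w.valuation M (⟨x, hx⟩ : M) ≤ 1
    · obtain ⟨s, ⟨t, ht⟩, hst⟩ := w.exists_primeCompl_mul_eq_of_integer (⟨x, hx⟩ : M) hx1
      have ht' : t ∉ w.asIdeal := ht
      have hst' : (⟨x, hx⟩ : M) * (t : M) = (s : M) := hst
      refine ⟨s, t, fun h => ht' ((hw t).2 h), ?_⟩
      have h0 : ((t : M) : ℂ) ≠ 0 := by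
        intro h
        apply ht'
        rw [hw, h, ValuationSubring.mem_nonunits_iff, map_zero]
        exact zero_lt_one
      rw [eq_div_iff h0]
      exact congrArg (Subtype.val) hst'
    · exfalso
      push Not at hx1
      have hx0 : (⟨x, hx⟩ : M) ≠ 0 := by
        intro h
        rw [h, map_zero] at hx1
        exact absurd hx1 (not_lt.2 zero_le_one)
      have hx0' : x ≠ 0 := fun h => hx0 (Subtype.ext h)
      have hi : w.valuation M (⟨x, hx⟩ : M)⁻¹ < 1 := by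
        rw [map_inv₀]
        exact inv_lt_one_of_one_lt₀ hx1
      obtain ⟨s, ⟨t, ht⟩, hst⟩ := w.exists_primeCompl_mul_eq_of_integer (⟨x, hx⟩ : M)⁻¹ hi.le
      have ht' : t ∉ w.asIdeal := ht
      have hst' : (⟨x, hx⟩ : M)⁻¹ * (t : M) = (s : M) := hst
      have vt : w.valuation M (t : M) = 1 := w.valuation_eq_one_iff_notMem.mpr ht'
      have vs : w.valuation M (s : M) < 1 := by
        rw [← hst', map_mul, vt, mul_one]
        exact hi
      have hs : s ∈ w.asIdeal := (w.valuation_lt_one_iff_mem s).mp vs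
      have hsV : ((s : M) : ℂ) ∈ V.nonunits := (hw s).1 hs
      have htV : ((t : M) : ℂ) ∉ V.nonunits := fun h => ht' ((hw t).2 h)
      have e1 : x⁻¹ * ((t : M) : ℂ) = ((s : M) : ℂ) := congrArg (Subtype.val) hst'
      have e2 : ((t : M) : ℂ) = x * ((s : M) : ℂ) := by
        rw [← e1, ← mul_assoc, mul_inv_cancel₀ hx0', one_mul]
      exact htV (e2 ▸ nonunits_mul hV hsV)

theorem tb_FRC : Sb_FRC := by
  intro M _ V
  refine ⟨fun x hx hV => frc_one M V x hx hV, ?_⟩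
  intro σ hσ x hx hV
  obtain ⟨s, t, ht, hst⟩ := frc_one M V x hx hV
  set S : ℂ := ((s : M) : ℂ) with hS
  set T : ℂ := ((t : M) : ℂ) with hT
  have hSV : S ∈ V := frc_int M V s
  have hTV : T ∈ V := frc_int M V t
  have h1 : σ S - S ∈ V.nonunits := hσ s
  have h2 : σ T - T ∈ V.nonunits := hσ t
  have hT0 : T ≠ 0 := by
    intro h
    apply ht
    rw [h, ValuationSubring.mem_nonunits_iff, map_zero]
    exact zero_lt_one
  have hσT0 : σ T ≠ 0 := by
    rw [Ne, map_eq_zero_iff σ σ.injective]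
    exact hT0
  have vT : V.valuation T = 1 := by
    rw [ValuationSubring.mem_nonunits_iff, not_lt] at ht
    exact le_antisymm ((V.valuation_le_one_iff T).2 hTV) ht
  have vσT : V.valuation (σ T) = 1 := by
    rw [ValuationSubring.mem_nonunits_iff] at h2
    have : σ T = (σ T - T) + T := by ring
    rw [this, Valuation.map_add_eq_of_lt_right _ (by rw [vT]; exact h2), vT]
  have key : σ x - x = ((σ S - S) * T - S * (σ T - T)) / (T * σ T) := by
    rw [hst, map_div₀]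
    field_simp
    ring
  have hnum : (σ S - S) * T - S * (σ T - T) ∈ V.nonunits := by
    refine nonunits_sub ?_ (nonunits_mul hSV h2)
    rw [mul_comm]
    exact nonunits_mul hTV h1
  rw [key, ValuationSubring.mem_nonunits_iff, map_div₀, map_mul, vT, vσT, mul_one, div_one]
  rw [ValuationSubring.mem_nonunits_iff] at hnum
  exact hnum

end Pool.Agent.VB


end
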