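import Mathlib
import Pool.Agent.MVF.C012
import Pool.Agent.MVF.C030

/-! Parts: RID.P_GCC -/

namespace Pool.Agent.RID.GCC
end Pool.Agent.RID.GCC

section

/-!
# Decomposition fields and the growth of class groups: module GCC
-/

open NumberField Finset IsDedekindDomain
open scoped nonZeroDivisors Pointwise

namespace Pool.Agent.RID

open _root_.Pool.Agent.RI

namespace GCC

/-- The subfield `D` of `L` as an extension of `F`. -/
noncomputable def sub {F L : IntermediateField ℚ ℂ} (h : F ≤ L) (D : IntermediateField ℚ ℂ)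
    (hD : F ≤ D) : letI := algC h
    IntermediateField F L :=
  letI := algC h
  { carrier := {x | (x : ℂ) ∈ D}
    mul_mem' := by
      rintro a b ha hb
      exact mul_mem (S := IntermediateField ℚ ℂ) ha hb
    add_mem' := by
      rintro a b ha hb
      exact add_mem (S := IntermediateField ℚ ℂ) ha hb
    algebraMap_mem' := fun r => hD r.2
    inv_mem' := by
      intro a ha
      have h1 : ((a⁻¹ : L) : ℂ) = (a : ℂ)⁻¹ := rfl
      show ((a⁻¹ : L) : ℂ) ∈ D
      rw [h1]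
      exact inv_mem (S := IntermediateField ℚ ℂ) ha }

lemma _root_.Pool.Agent.RID.GCC.mem_sub {F L : IntermediateField ℚ ℂ} (h : F ≤ L) (D : IntermediateField ℚ ℂ)
    (hD : F ≤ D) (x : L) : letI := algC h
    x ∈ sub h D hD ↔ (x : ℂ) ∈ D := Iff.rfl

lemma finrank_sub {F L : IntermediateField ℚ ℂ} (h : F ≤ L) (D : IntermediateField ℚ ℂ)
    (hD : F ≤ D) (hDL : D ≤ L) : letI := algC h
    Module.finrank F (sub h D hD) = Module.finrank F (IntermediateField.extendScalars hD) := by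
  let _ := algC h
  exact Pool.Agent.FX.finrank_of_val (F := F) L.val.toRingHom (fun _ => rfl) (sub h D hD)
    (IntermediateField.extendScalars hD) (fun _ => Iff.rfl) (fun y hy => ⟨⟨y, hDL hy⟩, rfl⟩)

/-- An automorphism of `M / F` that fixes `M'`, as an automorphism of `M / M'`. -/
noncomputable def lft {F M' M : IntermediateField ℚ ℂ} (hM : F ≤ M) (h₂ : M' ≤ M) :
    letI := algC hM
    ∀ (τ : M ≃ₐ[F] M), (∀ x : M, (x : ℂ) ∈ M' → τ x = x) →
      ((IntermediateField.extendScalars h₂) ≃ₐ[M'] (IntermediateField.extendScalars h₂)) :=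
  letI := algC hM
  fun τ hτ =>
  { toFun := fun x => ⟨(τ ⟨x.1, x.2⟩ : M).1, (τ ⟨x.1, x.2⟩ : M).2⟩
    invFun := fun x => ⟨(τ.symm ⟨x.1, x.2⟩ : M).1, (τ.symm ⟨x.1, x.2⟩ : M).2⟩
    left_inv := fun x => by
      apply Subtype.ext
      show ((τ.symm (τ ⟨x.1, x.2⟩) : M) : ℂ) = x.1
      rw [AlgEquiv.symm_apply_apply]
    right_inv := fun x => by
      apply Subtype.ext
      show ((τ (τ.symm ⟨x.1, x.2⟩) : M) : ℂ) = x.1
      rw [AlgEquiv.apply_symm_apply]
    map_mul' := fun x y => by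
      apply Subtype.ext
      show ((τ (⟨x.1, x.2⟩ * ⟨y.1, y.2⟩) : M) : ℂ) = _
      rw [map_mul]
      rfl
    map_add' := fun x y => by
      apply Subtype.ext
      show ((τ (⟨x.1, x.2⟩ + ⟨y.1, y.2⟩) : M) : ℂ) = _
      rw [map_add]
      rfl
    commutes' := fun r => by
      apply Subtype.ext
      show ((τ ⟨(r : ℂ), h₂ r.2⟩ : M) : ℂ) = (r : ℂ)
      rw [hτ ⟨(r : ℂ), h₂ r.2⟩ r.2] }

/-- The degree of `K N` for `F ≤ N ≤ M`. -/
lemma deg {p : ℕ} [Fact p.Prime] {F K M : IntermediateField ℚ ℂ}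
    [FiniteDimensional ℚ K] [FiniteDimensional ℚ M]
    {l : List (IntermediateField ℚ ℂ)} (hCD : CD p F K M l)
    (N : IntermediateField ℚ ℂ) [FiniteDimensional ℚ N] (hFN : F ≤ N) (hNM : N ≤ M)
    (hFKN : F ≤ K ⊔ N) :
    Module.finrank F (IntermediateField.extendScalars hFKN) =
      Module.finrank F (IntermediateField.extendScalars hCD.hK) *
        Module.finrank F (IntermediateField.extendScalars hFN) := by
  have hpr : p.Prime := Fact.out
  have hFK : F ≤ K := hCD.hK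
  have hFM : F ≤ M := hCD.hM
  obtain ⟨a, ha⟩ := hCD.degM
  let aFK : Algebra F K := algC hFK
  let aFN : Algebra F N := algC hFN
  let aFM : Algebra F M := algC hFM
  let aNM : Algebra N M := algC hNM
  let aFL₁ : Algebra F ↥(K ⊔ N) := algC hFKN
  have hKKN : K ≤ K ⊔ N := le_sup_left
  have hNKN : N ≤ K ⊔ N := le_sup_right
  let aKL₁ : Algebra K ↥(K ⊔ N) := algC hKKN
  let aNL₁ : Algebra N ↥(K ⊔ N) := algC hNKN
  have t0 := towerC hFN hNM
  have t1 := towerC hFK hKKN
  have t2 := towerC hFN hNKN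
  have e0 : Module.finrank F N * Module.finrank N M = Module.finrank F M :=
    Pool.Agent.FX.fmul _ _ _
  have e1 : Module.finrank F K * Module.finrank K ↥(K ⊔ N) =
      Module.finrank F ↥(K ⊔ N) := Pool.Agent.FX.fmul _ _ _
  have e2 : Module.finrank F N * Module.finrank N ↥(K ⊔ N) =
      Module.finrank F ↥(K ⊔ N) := Pool.Agent.FX.fmul _ _ _
  have e3 := (BCH_thm.1 F K N N (K ⊔ N) hFK hNKN (sup_of_le_right hFN).symm rfl hCD.gK).2
  rw [← finrank_algC, ← finrank_algC] at e3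
  have hcop : (Module.finrank F K).Coprime (Module.finrank F N) := by
    have h1 : Module.finrank F N ∣ p ^ a := by
      rw [← ha, ← finrank_algC]
      exact ⟨_, e0.symm⟩
    have h2 : (Module.finrank F K).Coprime (p ^ a) := by
      apply Nat.Coprime.pow_right
      apply Nat.Coprime.symm
      rw [Nat.Prime.coprime_iff_not_dvd hpr]
      have := hCD.copK
      rw [← finrank_algC] at this
      exact this
    exact Nat.Coprime.coprime_dvd_right h1 h2
  rw [← finrank_algC, ← finrank_algC, ← finrank_algC]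
  apply Nat.dvd_antisymm
  · rw [← e2, mul_comm (Module.finrank F N)]
    exact Nat.mul_dvd_mul_right e3 _
  · apply Nat.Coprime.mul_dvd_of_dvd_of_dvd hcop
    · exact ⟨_, e1.symm⟩
    · exact ⟨_, e2.symm⟩

lemma degM {F M' M : IntermediateField ℚ ℂ} (hFM : F ≤ M) (h₁ : F ≤ M') (h₂ : M' ≤ M) :
    Module.finrank F (IntermediateField.extendScalars h₁) *
      Module.finrank M' (IntermediateField.extendScalars h₂) =
      Module.finrank F (IntermediateField.extendScalars hFM) := by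
  let aFM' : Algebra F M' := algC h₁
  let aFM : Algebra F M := algC hFM
  let aM'M : Algebra M' M := algC h₂
  have t0 := towerC h₁ h₂
  have e0 : Module.finrank F M' * Module.finrank M' M = Module.finrank F M :=
    Pool.Agent.FX.fmul _ _ _
  rw [← finrank_algC, ← finrank_algC, ← finrank_algC]
  exact e0

/-- An automorphism of `K M` that is trivial on `K` and on `M`. -/
lemma triv {F K M : IntermediateField ℚ ℂ} (h : F ≤ K ⊔ M) : letI := algC h
    ∀ σ : ↥(K ⊔ M) ≃ₐ[F] ↥(K ⊔ M), (∀ x : ↥(K ⊔ M), (x : ℂ) ∈ K → σ x = x) →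
      (∀ x : ↥(K ⊔ M), (x : ℂ) ∈ M → σ x = x) → σ = 1 := by
  let aFL : Algebra F ↥(K ⊔ M) := algC h
  intro σ h2 h1
  have hML : M ≤ K ⊔ M := le_sup_right
  have hKL : K ≤ K ⊔ M := le_sup_left
  let S : IntermediateField ℚ ℂ :=
    { carrier := {z | ∃ hz : z ∈ K ⊔ M, σ ⟨z, hz⟩ = ⟨z, hz⟩}
      mul_mem' := by
        rintro u v ⟨hu, hu'⟩ ⟨hv, hv'⟩
        refine ⟨mul_mem hu hv, ?_⟩
        have : (⟨u * v, mul_mem hu hv⟩ : ↥(K ⊔ M)) = ⟨u, hu⟩ * ⟨v, hv⟩ := rfl
        rw [this, map_mul, hu', hv']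
      add_mem' := by
        rintro u v ⟨hu, hu'⟩ ⟨hv, hv'⟩
        refine ⟨add_mem hu hv, ?_⟩
        have : (⟨u + v, add_mem hu hv⟩ : ↥(K ⊔ M)) = ⟨u, hu⟩ + ⟨v, hv⟩ := rfl
        rw [this, map_add, hu', hv']
      algebraMap_mem' := by
        intro r
        refine ⟨IntermediateField.algebraMap_mem _ r, ?_⟩
        exact h2 _ (IntermediateField.algebraMap_mem K r)
      inv_mem' := by
        rintro u ⟨hu, hu'⟩
        refine ⟨inv_mem hu, ?_⟩
        have : (⟨u⁻¹, inv_mem hu⟩ : ↥(K ⊔ M)) = (⟨u, hu⟩ : ↥(K ⊔ M))⁻¹ := rfl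
        rw [this, map_inv₀, hu'] }
  have hKS : K ≤ S := fun z hz => ⟨hKL hz, h2 ⟨z, hKL hz⟩ hz⟩
  have hMS : M ≤ S := fun z hz => ⟨hML hz, h1 ⟨z, hML hz⟩ hz⟩
  have hLS : K ⊔ M ≤ S := sup_le hKS hMS
  apply AlgEquiv.ext
  intro x
  obtain ⟨_, hx⟩ := hLS x.2
  exact hx

/-- The group of the automorphisms of `K M` that fix `K M'` is cyclic. -/
lemma cyc {F K M' M : IntermediateField ℚ ℂ} [FiniteDimensional ℚ K] [FiniteDimensional ℚ M]
    (hFM : F ≤ M) (h₂ : M' ≤ M)
    (hcyc : IsCyclic ((IntermediateField.extendScalars h₂) ≃ₐ[M']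
      (IntermediateField.extendScalars h₂))) (h : F ≤ K ⊔ M)
    (gM : IsGalois F (IntermediateField.extendScalars hFM)) : letI := algC h
    ∀ H : Subgroup (↥(K ⊔ M) ≃ₐ[F] ↥(K ⊔ M)),
      (∀ σ ∈ H, ∀ x : ↥(K ⊔ M), (x : ℂ) ∈ K ⊔ M' → σ x = x) → IsCyclic H := by
  let aFL : Algebra F ↥(K ⊔ M) := algC h
  intro H hfix
  have hML : M ≤ K ⊔ M := le_sup_right
  have hKL₁ : K ≤ K ⊔ M' := le_sup_left
  have hM'L₁ : M' ≤ K ⊔ M' := le_sup_right
  let aFM : Algebra F M := algC hFM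
  let aML : Algebra M ↥(K ⊔ M) := algC hML
  have t3 := towerC hFM hML
  have gM : IsGalois F M := (isGalois_algC hFM).2 gM
  have hres : ∀ (σ : ↥(K ⊔ M) ≃ₐ[F] ↥(K ⊔ M)) (x : M),
      ((σ.restrictNormal M x : M) : ℂ) =
        ((σ ⟨(x : ℂ), hML x.2⟩ : ↥(K ⊔ M)) : ℂ) := by
    intro σ x
    have h2 := AlgEquiv.restrictNormal_commutes σ M x
    exact congrArg Subtype.val h2
  have hfixM : ∀ (σ : ↥(K ⊔ M) ≃ₐ[F] ↥(K ⊔ M)), σ ∈ H → ∀ x : M, (x : ℂ) ∈ M' →
      (σ.restrictNormal M) x = x := by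
    intro σ hσ x hx
    apply Subtype.ext
    rw [hres, hfix σ hσ ⟨(x : ℂ), hML x.2⟩ (hM'L₁ hx)]
  have hlft : ∀ (τ : M ≃ₐ[F] M) (hτ : ∀ x : M, (x : ℂ) ∈ M' → τ x = x)
      (x : IntermediateField.extendScalars h₂),
      ((lft hFM h₂ τ hτ x : IntermediateField.extendScalars h₂) : ℂ) =
        ((τ ⟨x.1, x.2⟩ : M) : ℂ) := fun _ _ _ => rfl
  let φ : H →* ((IntermediateField.extendScalars h₂) ≃ₐ[M']
      (IntermediateField.extendScalars h₂)) :=
    { toFun := fun σ => lft hFM h₂ ((σ : ↥(K ⊔ M) ≃ₐ[F] ↥(K ⊔ M)).restrictNormal M)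
        (hfixM σ.1 σ.2)
      map_one' := by
        apply AlgEquiv.ext
        intro x
        apply Subtype.ext
        rw [hlft, hres]
        rfl
      map_mul' := by
        intro σ τ
        apply AlgEquiv.ext
        intro x
        apply Subtype.ext
        rw [hlft, AlgEquiv.mul_apply, hlft, hres, hres]
        have e1 : (⟨((((τ : ↥(K ⊔ M) ≃ₐ[F] ↥(K ⊔ M)).restrictNormal M) ⟨x.1, x.2⟩ : M) : ℂ),
            hML (Subtype.prop _)⟩ : ↥(K ⊔ M)) =
            (τ : ↥(K ⊔ M) ≃ₐ[F] ↥(K ⊔ M)) ⟨x.1, hML x.2⟩ := by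
          apply Subtype.ext
          exact hres _ ⟨x.1, x.2⟩
        exact congrArg (fun z : ↥(K ⊔ M) =>
          (((σ : ↥(K ⊔ M) ≃ₐ[F] ↥(K ⊔ M)) z : ↥(K ⊔ M)) : ℂ)) e1.symm }
  have hφ : Function.Injective φ := by
    rw [injective_iff_map_eq_one]
    intro σ hσ
    apply Subtype.ext
    apply triv h
    · intro x hx
      exact hfix σ.1 σ.2 x (hKL₁ hx)
    · intro x hx
      apply Subtype.ext
      have h3 := hres (σ : ↥(K ⊔ M) ≃ₐ[F] ↥(K ⊔ M)) ⟨x.1, hx⟩
      have h4 := hlft _ (hfixM σ.1 σ.2) ⟨x.1, hx⟩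
      have h5 : ((φ σ ⟨x.1, hx⟩ : IntermediateField.extendScalars h₂) : ℂ) = x.1 := by
        rw [hσ]
        rfl
      exact (h3.symm.trans h4.symm).trans h5
  exact isCyclic_of_injective φ hφ

/-- A generator of a cyclic group of automorphisms. -/
lemma gen {F L : Type} [Field F] [Field L] [Algebra F L] [FiniteDimensional F L] [IsGalois F L]
    (A : IntermediateField F L) (hc : IsCyclic A.fixingSubgroup) (d : ℕ)
    (hd : Module.finrank F L = Module.finrank F A * d) :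
    ∃ g : L ≃ₐ[F] L, orderOf g = d ∧ ∀ x, g x = x ↔ x ∈ A := by
  have c0 : Nat.card A.fixingSubgroup * Module.finrank F A = Module.finrank F L := by
    rw [IsGalois.card_fixingSubgroup_eq_finrank, mul_comm]
    exact Pool.Agent.FX.fmul F A _
  have hApos : 0 < Module.finrank F A := Module.finrank_pos
  have hcard : Nat.card A.fixingSubgroup = d := by
    apply Nat.eq_of_mul_eq_mul_right hApos
    rw [c0, hd, mul_comm]
  obtain ⟨⟨g, hgm⟩, hg⟩ := hc.exists_generator
  have hz : Subgroup.zpowers g = A.fixingSubgroup := by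
    apply le_antisymm
    · rw [Subgroup.zpowers_le]
      exact hgm
    · intro σ hσ
      obtain ⟨j, hj⟩ := hg ⟨σ, hσ⟩
      refine ⟨j, ?_⟩
      have := congrArg Subtype.val hj
      simpa using this
  refine ⟨g, ?_, ?_⟩
  · rw [← Nat.card_zpowers, hz, hcard]
  · intro x
    have hA : IntermediateField.fixedField A.fixingSubgroup = A :=
      IsGalois.fixedField_fixingSubgroup A
    have e1 : x ∈ IntermediateField.fixedField A.fixingSubgroup ↔ g x = x := by
      rw [← hz]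
      constructor
      · intro h
        exact h ⟨_, Subgroup.mem_zpowers _⟩
      · intro h τ
        obtain ⟨τ, j, rfl⟩ := τ
        have h5 : g ∈ MulAction.stabilizer (L ≃ₐ[F] L) x := h
        exact zpow_mem h5 j
    rw [← e1, hA]

end GCC

open _root_.Pool.Agent.RID.GCC in
theorem t_GCC : S_GCC := by
  intro p _ F K M' M _ _ _ l hCD h₁ h₂ hcyc h
  let aFL : Algebra F ↥(K ⊔ M) := algC h
  have fdF : FiniteDimensional ℚ F := FiniteDimensional.of_injective
    (IntermediateField.inclusion h₁).toLinearMap (IntermediateField.inclusion h₁).injective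
  have hFK : F ≤ K := hCD.hK
  have hFM : F ≤ M := hCD.hM
  have hFL₁ : F ≤ K ⊔ M' := hFK.trans le_sup_left
  have hL₁L : K ⊔ M' ≤ K ⊔ M := sup_le_sup_left h₂ K
  have gL : IsGalois F ↥(K ⊔ M) :=
    (isGalois_algC h).2 (BCH_thm.2 F K M hFK hFM h hCD.gK hCD.gM)
  have fdL : FiniteDimensional F ↥(K ⊔ M) := by
    have h1 : FiniteDimensional ℚ ↥(K ⊔ M) := inferInstance
    exact Module.Finite.of_restrictScalars_finite ℚ F _
  have d1 := deg hCD M hFM le_rfl h
  have d2 := deg hCD M' h₁ h₂ hFL₁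
  have d3 := degM hFM h₁ h₂
  have c1 : Module.finrank F (sub h (K ⊔ M') hFL₁) =
      Module.finrank F (IntermediateField.extendScalars hFK) *
        Module.finrank F (IntermediateField.extendScalars h₁) := by
    rw [← d2]
    exact finrank_sub h (K ⊔ M') hFL₁ hL₁L
  have c2 : Module.finrank F ↥(K ⊔ M) =
      Module.finrank F (IntermediateField.extendScalars hFK) *
        Module.finrank F (IntermediateField.extendScalars hFM) := by
    rw [← d1]
    exact finrank_algC h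
  have hc : IsCyclic (sub h (K ⊔ M') hFL₁).fixingSubgroup :=
    cyc hFM h₂ hcyc h hCD.gM _ (fun σ hσ x hx =>
      (IntermediateField.mem_fixingSubgroup_iff (sub h (K ⊔ M') hFL₁) σ).1 hσ x hx)
  obtain ⟨g, hg1, hg2⟩ := gen (sub h (K ⊔ M') hFL₁) hc _ (by rw [c2, c1, ← d3, mul_assoc])
  exact ⟨g, hg1, fun x => (hg2 x).trans (_root_.Pool.Agent.RID.GCC.mem_sub h (K ⊔ M') hFL₁ x)⟩

end Pool.Agent.RID


end
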