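import Mathlib
import Pool.Agent.MVF.C023
import Pool.Agent.MVF.C031
import Pool.Agent.MVF.C057
import Pool.Agent.MVF.C059
import Pool.Agent.MVF.C060

/-! Parts: NS.E_UNT, NS.E_RAT, MU3.P_THDJ, MU3.P_ALGS, MU3.P_RAMK, MUX.K_TWX, MUX.K_RAMX, VB.V_CRD -/

namespace Pool.Agent.MU3.P_ALGS
end Pool.Agent.MU3.P_ALGS
namespace Pool.Agent.MU3.P_RAMK
end Pool.Agent.MU3.P_RAMK
namespace Pool.Agent.MU3.P_THDJ
end Pool.Agent.MU3.P_THDJ
namespace Pool.Agent.MUXK.K_TWX
end Pool.Agent.MUXK.K_TWX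
namespace Pool.Agent.NSE.RAT
end Pool.Agent.NSE.RAT
namespace Pool.Agent.NSE.UNT
end Pool.Agent.NSE.UNT
namespace Pool.Agent.VB.CRD
end Pool.Agent.VB.CRD

section

/-!
# MUX-NS, block EN, module UNT (helper48): the multiplier of an isogeny of degree prime to 3 is a unit
-/

set_option autoImplicit false

open Polynomial

namespace Pool.Agent.NSE

open _root_.MU3 _root_.Pool.Agent.MU3A _root_.Pool.Agent.MU3B _root_.Pool.Agent.MUX _root_.Pool.Agent.MUXU _root_.Pool.Agent.MUXE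
open _root_.Pool.Agent.RI _root_.Pool.Agent.NS
open _root_.Pool.Agent.MUXV (GR InK tX)

noncomputable section

namespace UNT

theorem frac (L : PeriodPair) (a : ℤ) (b : ℕ) (hb : b ≠ 0)
    (hm : (a : ℂ) * (L.ω₁ / b) ∈ L.lattice) : (b : ℤ) ∣ a := by
  have e : (a : ℂ) * (L.ω₁ / b) = ((a / b : ℚ) : ℂ) * L.ω₁ + ((0 : ℚ) : ℂ) * L.ω₂ := by
    push_cast
    ring
  rw [e, PeriodPair.mul_ω₁_add_mul_ω₂_mem_lattice] at hm
  have h1 : ((((a / b : ℚ)).num : ℤ) : ℚ) = (a / b : ℚ) := (Rat.den_eq_one_iff _).1 hm.1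
  have hb' : (b : ℚ) ≠ 0 := by exact_mod_cast hb
  refine ⟨((a / b : ℚ)).num, ?_⟩
  have h2 : (a : ℚ) = b * ((((a / b : ℚ)).num : ℤ) : ℚ) := by
    rw [h1]
    field_simp
  exact_mod_cast h2

/-- multiples by integers -/
theorem zmul (L : PeriodPair) (n : ℤ) {z : ℂ} (hz : z ∈ L.lattice) : (n : ℂ) * z ∈ L.lattice := by
  rw [← zsmul_eq_mul]
  exact zsmul_mem hz n

end UNT

open _root_.Pool.Agent.NSE.UNT in
theorem te_UNT (h2 : Se_GRN) (h3 : Se_TPN) : Se_UNT := by
  intro V L M u e lam u' e' lam' μ N hL hM hv3 hμ hI hN3 hN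
  obtain ⟨ξ, grL⟩ := h2 V L u e lam hL hv3
  obtain ⟨ξ', grM⟩ := h2 V M u' e' lam' hM hv3
  have tL := (h3 V L u e lam hL hv3).1
  have tM := (h3 V M u' e' lam' hM hv3).1
  have hN0 : N ≠ 0 := by
    rintro rfl
    exact hN3 (dvd_zero 3)
  obtain ⟨⟨R, hR⟩, -⟩ := u_BAC.2 L M μ hμ hI
  -- the two primes
  obtain ⟨l, hl1, hl⟩ := Nat.exists_infinite_primes (3 * N + 1)
  obtain ⟨l', hl1', hl'⟩ := Nat.exists_infinite_primes (l + 1)
  have hNpos : 0 < N := Nat.pos_of_ne_zero hN0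
  have hll : l ≠ l' := by omega
  have h3l : ¬ 3 ∣ l := by
    intro h
    have := (Nat.prime_dvd_prime_iff_eq Nat.prime_three hl).1 h
    omega
  have h3l' : ¬ 3 ∣ l' := by
    intro h
    have := (Nat.prime_dvd_prime_iff_eq Nat.prime_three hl').1 h
    omega
  have hlN : ¬ l ∣ N := fun h => by
    have := Nat.le_of_dvd hNpos h
    omega
  have hlN' : ¬ l' ∣ N := fun h => by
    have := Nat.le_of_dvd hNpos h
    omega
  have h3n : ¬ 3 ∣ N * l * l' := by
    intro h
    rcases Nat.prime_three.dvd_mul.1 h with h | h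
    · rcases Nat.prime_three.dvd_mul.1 h with h | h
      · exact hN3 h
      · exact h3l h
    · exact h3l' h
  have h3m : ¬ 3 ∣ l * l' := by
    intro h
    rcases Nat.prime_three.dvd_mul.1 h with h | h
    · exact h3l h
    · exact h3l' h
  have hl0 : (l : ℂ) ≠ 0 := by exact_mod_cast hl.ne_zero
  have hl0' : (l' : ℂ) ≠ 0 := by exact_mod_cast hl'.ne_zero
  set w : ℂ := L.ω₁ / l with hw
  set z : ℂ := L.ω₁ / l' with hz
  have o1 := L.ω₁_mem_lattice
  have lw : (l : ℂ) * w ∈ L.lattice := by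
    rw [hw, mul_div_cancel₀ _ hl0]
    exact o1
  have lz : (l' : ℂ) * z ∈ L.lattice := by
    rw [hz, mul_div_cancel₀ _ hl0']
    exact o1
  -- the combinations of `z` and `w` are not in the lattice, even after multiplication by `N`
  have comb : ∀ a b : ℤ, ¬ ((l' : ℤ) ∣ a ∧ (l : ℤ) ∣ b) →
      (N : ℂ) * ((a : ℂ) * z + (b : ℂ) * w) ∉ L.lattice := by
    intro a b hab hm
    apply hab
    have e1 : (N : ℂ) * ((a : ℂ) * z + (b : ℂ) * w) =
        ((N * (a * l + b * l') : ℤ) : ℂ) * (L.ω₁ / ((l * l' : ℕ) : ℂ)) := by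
      rw [hz, hw]
      push_cast
      field_simp
    rw [e1] at hm
    have h5 := frac L _ _ (Nat.mul_ne_zero hl.ne_zero hl'.ne_zero) hm
    have hlz : Prime (l : ℤ) := Nat.prime_iff_prime_int.1 hl
    have hlz' : Prime (l' : ℤ) := Nat.prime_iff_prime_int.1 hl'
    have hNl : ¬ (l : ℤ) ∣ (N : ℤ) := fun h => hlN (by exact_mod_cast h)
    have hNl' : ¬ (l' : ℤ) ∣ (N : ℤ) := fun h => hlN' (by exact_mod_cast h)
    have hd1 : (l : ℤ) ∣ a * l + b * l' := by
      have : (l : ℤ) ∣ (N : ℤ) * (a * l + b * l') := Dvd.dvd.trans ⟨(l' : ℤ), by push_cast; ring⟩ h5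
      exact (hlz.dvd_or_dvd this).resolve_left hNl
    have hd2 : (l' : ℤ) ∣ a * l + b * l' := by
      have : (l' : ℤ) ∣ (N : ℤ) * (a * l + b * l') := Dvd.dvd.trans ⟨(l : ℤ), by push_cast; ring⟩ h5
      exact (hlz'.dvd_or_dvd this).resolve_left hNl'
    have hne1 : ¬ (l : ℤ) ∣ (l' : ℤ) := fun h =>
      hll ((Nat.prime_dvd_prime_iff_eq hl hl').1 (by exact_mod_cast h))
    have hne2 : ¬ (l' : ℤ) ∣ (l : ℤ) := fun h =>
      hll ((Nat.prime_dvd_prime_iff_eq hl' hl).1 (by exact_mod_cast h)).symm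
    constructor
    · have : (l' : ℤ) ∣ a * l := (dvd_add_left (Dvd.intro_left b rfl)).1 hd2
      exact (hlz'.dvd_or_dvd this).resolve_right hne2
    · have : (l : ℤ) ∣ b * l' := (dvd_add_right (Dvd.intro_left a rfl)).1 hd1
      exact (hlz.dvd_or_dvd this).resolve_right hne1
  have one_not : ∀ k : ℕ, k.Prime → ∀ s : ℤ, s = 1 ∨ s = -1 → ¬ (k : ℤ) ∣ s := by
    intro k hk s hs h
    have h6 : (k : ℤ) ∣ 1 := by
      rcases hs with rfl | rfl
      · exact h
      · exact (dvd_neg.1 h)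
    have h7 : k ∣ 1 := by exact_mod_cast h6
    exact hk.one_lt.ne' (Nat.dvd_one.1 h7)
  -- points of `L`
  have ptL : ∀ (a b c : ℤ) (q : ℂ), (N : ℂ) * q ∈ L.lattice →
      ¬ ((l' : ℤ) ∣ a ∧ (l : ℤ) ∣ b) →
      ¬ InK V L (xu L u e) ((a : ℂ) * z + (b : ℂ) * w + (c : ℂ) * q) := by
    intro a b c q hq hab hin
    have hm := (tL (N * l * l') h3n).2 _ (by
      have e1 : ((N * l * l' : ℕ) : ℂ) * ((a : ℂ) * z + (b : ℂ) * w + (c : ℂ) * q) =
          ((N * l * a : ℤ) : ℂ) * ((l' : ℂ) * z) + ((N * l' * b : ℤ) : ℂ) * ((l : ℂ) * w) +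
            ((l * l' * c : ℤ) : ℂ) * ((N : ℂ) * q) := by
        push_cast
        ring
      rw [e1]
      exact add_mem (add_mem (zmul L _ lz) (zmul L _ lw)) (zmul L _ hq)) hin
    apply comb a b hab
    have e2 : (N : ℂ) * ((a : ℂ) * z + (b : ℂ) * w) =
        ((N : ℤ) : ℂ) * ((a : ℂ) * z + (b : ℂ) * w + (c : ℂ) * q) -
          ((c : ℤ) : ℂ) * ((N : ℂ) * q) := by
      push_cast
      ring
    rw [e2]
    exact sub_mem (zmul L _ hm) (zmul L _ hq)
  -- points of `M`
  have ptM : ∀ (a b : ℤ), ¬ ((l' : ℤ) ∣ a ∧ (l : ℤ) ∣ b) →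
      μ * ((a : ℂ) * z + (b : ℂ) * w) ∉ M.lattice ∧
      ¬ InK V M (xu M u' e') (μ * ((a : ℂ) * z + (b : ℂ) * w)) := by
    intro a b hab
    have h4 : μ * ((a : ℂ) * z + (b : ℂ) * w) ∉ M.lattice := fun h => comb a b hab (hN _ h)
    refine ⟨h4, fun hin => h4 ((tM (l * l') h3m).2 _ ?_ hin)⟩
    have e1 : ((l * l' : ℕ) : ℂ) * (μ * ((a : ℂ) * z + (b : ℂ) * w)) =
        μ * (((l * a : ℤ) : ℂ) * ((l' : ℂ) * z) + ((l' * b : ℤ) : ℂ) * ((l : ℂ) * w)) := by
      push_cast
      ring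
    rw [e1]
    exact hI _ (add_mem (zmul L _ lz) (zmul L _ lw))
  have hz1 : ∀ b : ℤ, ∀ s : ℤ, s = 1 ∨ s = -1 → ¬ ((l' : ℤ) ∣ s ∧ (l : ℤ) ∣ b) := fun b s hs h =>
    one_not l' hl' s hs h.1
  have hw1 : ∀ a : ℤ, ∀ s : ℤ, s = 1 ∨ s = -1 → ¬ ((l' : ℤ) ∣ a ∧ (l : ℤ) ∣ s) := fun a s hs h =>
    one_not l hl s hs h.2
  have hN00 : (N : ℂ) * 0 ∈ L.lattice := by rw [mul_zero]; exact L.lattice.zero_mem
  obtain ⟨mz, iz⟩ := ptM 1 0 (hz1 0 1 (Or.inl rfl))
  obtain ⟨mw, iw⟩ := ptM 0 1 (hw1 0 1 (Or.inl rfl))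
  obtain ⟨-, ip⟩ := ptM 1 1 (hz1 1 1 (Or.inl rfl))
  obtain ⟨-, im⟩ := ptM 1 (-1) (hz1 (-1) 1 (Or.inl rfl))
  have ez : ((1 : ℤ) : ℂ) * z + ((0 : ℤ) : ℂ) * w = z := by push_cast; ring
  have ew : ((0 : ℤ) : ℂ) * z + ((1 : ℤ) : ℂ) * w = w := by push_cast; ring
  have ep : μ * (((1 : ℤ) : ℂ) * z + ((1 : ℤ) : ℂ) * w) = μ * z + μ * w := by push_cast; ring
  have em' : μ * (((1 : ℤ) : ℂ) * z + ((-1 : ℤ) : ℂ) * w) = μ * z - μ * w := by push_cast; ring
  rw [ez] at mz iz
  rw [ew] at mw iw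
  rw [ep] at ip
  rw [em'] at im
  -- the product formula
  have pf := u_PFI L M μ R hμ hI hR w mw z mz
  have hu0 : u ^ 2 ≠ 0 := pow_ne_zero _ hL.u0
  have hu0' : u' ^ 2 ≠ 0 := pow_ne_zero _ hM.u0
  have dL : ∀ a b : ℂ, L.weierstrassP a - L.weierstrassP b =
      u ^ 2 * (xu L u e a - xu L u e b) := by
    intro a b
    unfold xu
    rw [← sub_div, mul_div_cancel₀ _ hu0]
    ring
  have dM : ∀ a b : ℂ, M.weierstrassP a - M.weierstrassP b =
      u' ^ 2 * (xu M u' e' a - xu M u' e' b) := by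
    intro a b
    unfold xu
    rw [← sub_div, mul_div_cancel₀ _ hu0']
    ring
  have vM : V.valuation (M.weierstrassP (μ * z) - M.weierstrassP (μ * w)) =
      V.valuation (u' ^ 2) := by
    rw [dM, map_mul, Pool.Agent.MUXV.v_X_sub grM iz iw ip im, mul_one]
  have ptL' : ∀ (a b c : ℤ) (q p : ℂ), (N : ℂ) * q ∈ L.lattice →
      ¬ ((l' : ℤ) ∣ a ∧ (l : ℤ) ∣ b) → p = (a : ℂ) * z + (b : ℂ) * w + (c : ℂ) * q →
      ¬ InK V L (xu L u e) p := by
    intro a b c q p hq hab hp
    rw [hp]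
    exact ptL a b c q hq hab
  have jz : ¬ InK V L (xu L u e) z :=
    ptL' 1 0 0 0 z hN00 (hz1 0 1 (Or.inl rfl)) (by push_cast; ring)
  have vL : V.valuation (L.weierstrassP z - L.weierstrassP w) = V.valuation (u ^ 2) := by
    rw [dL, map_mul, Pool.Agent.MUXV.v_X_sub grL jz
      (ptL' 0 1 0 0 w hN00 (hw1 0 1 (Or.inl rfl)) (by push_cast; ring))
      (ptL' 1 1 0 0 _ hN00 (hz1 1 1 (Or.inl rfl)) (by push_cast; ring))
      (ptL' 1 (-1) 0 0 _ hN00 (hz1 (-1) 1 (Or.inl rfl)) (by push_cast; ring)), mul_one]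
  have vq : ∀ q ∈ R, V.valuation (L.weierstrassP z - L.weierstrassP q) =
      V.valuation (u ^ 2) := by
    intro q hq
    have hNq := hN q (hR.mem q hq)
    have jq : ¬ InK V L (xu L u e) q := fun h => hR.ne q hq ((tL N hN3).2 q hNq h)
    rw [dL, map_mul, Pool.Agent.MUXV.v_X_sub grL jz jq
      (ptL' 1 0 1 q _ hNq (hz1 0 1 (Or.inl rfl)) (by push_cast; ring))
      (ptL' 1 0 (-1) q _ hNq (hz1 0 1 (Or.inl rfl)) (by push_cast; ring)), mul_one]
  have vwq : ∀ q ∈ R, V.valuation (L.weierstrassP z - L.weierstrassP (w + q)) =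
      V.valuation (u ^ 2) := by
    intro q hq
    have hNq := hN q (hR.mem q hq)
    rw [dL, map_mul, Pool.Agent.MUXV.v_X_sub grL jz
      (ptL' 0 1 1 q _ hNq (hw1 0 1 (Or.inl rfl)) (by push_cast; ring))
      (ptL' 1 1 1 q _ hNq (hz1 1 1 (Or.inl rfl)) (by push_cast; ring))
      (ptL' 1 (-1) (-1) q _ hNq (hz1 (-1) 1 (Or.inl rfl)) (by push_cast; ring)), mul_one]
  have pv := congrArg V.valuation pf
  rw [map_mul, map_mul, map_mul, map_prod, map_prod, vM, vL, Finset.prod_congr rfl vq,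
    Finset.prod_congr rfl vwq, Finset.prod_const] at pv
  have hT0 : V.valuation (u ^ 2) ^ R.card ≠ 0 := pow_ne_zero _ ((_root_.map_ne_zero _).2 hu0)
  have h6 : V.valuation (μ ^ 2) * V.valuation (u' ^ 2) = V.valuation (u ^ 2) :=
    mul_right_cancel₀ hT0 pv
  have h7 : V.valuation (μ * u' / u) ^ 2 = 1 := by
    rw [← map_pow, div_pow, mul_pow, map_div₀, map_mul, h6]
    exact div_self ((_root_.map_ne_zero _).2 hu0)
  rcases lt_trichotomy (V.valuation (μ * u' / u)) 1 with h | h | h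
  · exact absurd h7 (pow_lt_one₀ zero_le h two_ne_zero).ne
  · exact h
  · exact absurd h7 (one_lt_pow₀ h two_ne_zero).ne'

end

end Pool.Agent.NSE


end

section

/-!
# MUX-NS, block EN, module RAT (helper50): the isogeny as a rational function over V
-/

set_option autoImplicit false

open Filter Topology Polynomial

namespace Pool.Agent.NSE

open _root_.MU3 _root_.Pool.Agent.MU3A _root_.Pool.Agent.MU3B _root_.Pool.Agent.MUX _root_.Pool.Agent.MUXU _root_.Pool.Agent.MUXE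
open _root_.Pool.Agent.RI _root_.Pool.Agent.NS
open _root_.Pool.Agent.MUXV (GR InK tX)

noncomputable section

namespace RAT

variable {V : ValuationSubring ℂ}

theorem iff_mem {P : ℂ[X]} : IntP V P ↔ ∀ i, P.coeff i ∈ V :=
  forall_congr' fun _ => V.valuation_le_one_iff _

theorem int_add {P Q : ℂ[X]} (hP : IntP V P) (hQ : IntP V Q) : IntP V (P + Q) := by
  rw [iff_mem] at *
  intro i
  rw [coeff_add]
  exact add_mem (hP i) (hQ i)

theorem int_mul {P Q : ℂ[X]} (hP : IntP V P) (hQ : IntP V Q) : IntP V (P * Q) := by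
  rw [iff_mem] at *
  intro i
  rw [coeff_mul]
  exact sum_mem fun x _ => mul_mem (hP _) (hQ _)

theorem int_C {a : ℂ} (ha : V.valuation a ≤ 1) : IntP V (C a) := by
  rw [iff_mem]
  intro i
  rw [coeff_C]
  split_ifs
  · exact (V.valuation_le_one_iff _).1 ha
  · exact zero_mem V

theorem int_XC {a : ℂ} (ha : V.valuation a ≤ 1) : IntP V (X - C a) := by
  have h1 : IntP V (C (-a)) := int_C (by rwa [Valuation.map_neg])
  have h2 : IntP V (X : ℂ[X]) := by
    rw [iff_mem]
    intro i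
    rw [coeff_X]
    split_ifs
    · exact one_mem V
    · exact zero_mem V
  have e : (X - C a : ℂ[X]) = X + C (-a) := by
    rw [C_neg, sub_eq_add_neg]
  rw [e]
  exact int_add h2 h1

theorem int_prod (R : Finset ℂ) (f : ℂ → ℂ) (h : ∀ q ∈ R, V.valuation (f q) ≤ 1) :
    IntP V (∏ q ∈ R, (X - C (f q))) := by
  classical
  induction R using Finset.induction_on with
  | empty =>
    rw [Finset.prod_empty, ← C_1]
    exact int_C (by rw [map_one])
  | insert a S ha ih =>
    rw [Finset.prod_insert ha]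
    exact int_mul (int_XC (h a (Finset.mem_insert_self _ _)))
      (ih fun q hq => h q (Finset.mem_insert_of_mem hq))

end RAT

open _root_.Pool.Agent.NSE.RAT _root_.Pool.Agent.NSE.UNT in
theorem te_RAT (h1 : Se_COE) (h3 : Se_TPN) (h4 : Se_UNT) : Se_RAT := by
  intro V L M u e lam u' e' lam' μ N hL hM hv3 hμ hI hN3 hN
  have hν := h4 V L M u e lam u' e' lam' μ N hL hM hv3 hμ hI hN3 hN
  have tL := (h3 V L u e lam hL hv3).1
  have tM := (h3 V M u' e' lam' hM hv3).1
  obtain ⟨-, -, -, -, -, -, -, dL, -⟩ := h1 V L u e lam hL hv3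
  obtain ⟨-, -, -, -, -, -, -, dM, -⟩ := h1 V M u' e' lam' hM hv3
  have hN0 : N ≠ 0 := by
    rintro rfl
    exact hN3 (dvd_zero 3)
  have hNpos : 0 < N := Nat.pos_of_ne_zero hN0
  obtain ⟨⟨R, hR⟩, -⟩ := u_BAC.2 L M μ hμ hI
  obtain ⟨l, hl1, hl⟩ := Nat.exists_infinite_primes (3 * N + 1)
  have h3l : ¬ 3 ∣ l := by
    intro h
    have := (Nat.prime_dvd_prime_iff_eq Nat.prime_three hl).1 h
    omega
  have hlN : ¬ l ∣ N := fun h => by
    have := Nat.le_of_dvd hNpos h
    omega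
  have h3m : ¬ 3 ∣ N * l := by
    intro h
    rcases Nat.prime_three.dvd_mul.1 h with h | h
    · exact hN3 h
    · exact h3l h
  have hl0 : (l : ℂ) ≠ 0 := by exact_mod_cast hl.ne_zero
  set w : ℂ := L.ω₁ / l with hw
  have lw : (l : ℂ) * w ∈ L.lattice := by
    rw [hw, mul_div_cancel₀ _ hl0]
    exact L.ω₁_mem_lattice
  have Nw : (N : ℂ) * w ∉ L.lattice := by
    intro hm
    have e1 : (N : ℂ) * w = ((N : ℤ) : ℂ) * (L.ω₁ / (l : ℂ)) := by
      rw [hw]
      push_cast
      ring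
    rw [e1] at hm
    have h5 := frac L _ _ hl.ne_zero hm
    exact hlN (by exact_mod_cast h5)
  have jw : ¬ InK V L (xu L u e) w := fun h => Nw (by
    have := zmul L N ((tL l h3l).2 w lw h)
    simpa using this)
  have jq : ∀ q ∈ R, ¬ InK V L (xu L u e) q := fun q hq h =>
    hR.ne q hq ((tL N hN3).2 q (hN q (hR.mem q hq)) h)
  have jwq : ∀ q ∈ R, ¬ InK V L (xu L u e) (w + q) := by
    intro q hq h
    have hNq := hN q (hR.mem q hq)
    have hm := (tL (N * l) h3m).2 (w + q) (by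
      have e1 : ((N * l : ℕ) : ℂ) * (w + q) = ((N : ℤ) : ℂ) * ((l : ℂ) * w) +
          ((l : ℤ) : ℂ) * ((N : ℂ) * q) := by
        push_cast
        ring
      rw [e1]
      exact add_mem (zmul L _ lw) (zmul L _ hNq)) h
    apply Nw
    have e2 : (N : ℂ) * w = ((N : ℤ) : ℂ) * (w + q) - (N : ℂ) * q := by
      push_cast
      ring
    rw [e2]
    exact sub_mem (zmul L _ hm) hNq
  have mw : μ * w ∉ M.lattice := fun h => Nw (hN w h)
  have jM : ¬ InK V M (xu M u' e') (μ * w) := fun h => mw ((tM l h3l).2 _ (by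
    have e1 : (l : ℂ) * (μ * w) = μ * ((l : ℂ) * w) := by ring
    rw [e1]
    exact hI _ lw) h)
  have vq : ∀ q ∈ R, V.valuation (xu L u e q) ≤ 1 := fun q hq =>
    (Pool.Agent.MUXV.int_X (jq q hq)).2
  have vwq : ∀ q ∈ R, V.valuation (xu L u e (w + q)) ≤ 1 := fun q hq =>
    (Pool.Agent.MUXV.int_X (jwq q hq)).2
  have vw : V.valuation (xu L u e w) ≤ 1 := (Pool.Agent.MUXV.int_X jw).2
  have vc : V.valuation (xu M u' e' (μ * w)) ≤ 1 := (Pool.Agent.MUXV.int_X jM).2
  set c : ℂ := xu M u' e' (μ * w) with hc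
  set ν : ℂ := μ * u' / u with hνd
  have hν0 : ν ^ 2 ≠ 0 := by
    apply pow_ne_zero
    intro h0
    rw [h0, map_zero] at hν
    exact zero_ne_one hν
  have vν : V.valuation (ν ^ 2) ≤ 1 := by rw [map_pow, hν, one_pow]
  set A : ℂ[X] := ∏ q ∈ R, (X - C (xu L u e q)) with hA
  set B : ℂ[X] := ∏ q ∈ R, (X - C (xu L u e (w + q))) with hB
  have mA : A.Monic := monic_prod_of_monic _ _ fun q _ => monic_X_sub_C _
  have mB : B.Monic := monic_prod_of_monic _ _ fun q _ => monic_X_sub_C _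
  have nA : A.natDegree = R.card := by
    rw [hA, natDegree_prod_of_monic _ _ fun q _ => monic_X_sub_C _]
    simp
  have nB : B.natDegree = R.card := by
    rw [hB, natDegree_prod_of_monic _ _ fun q _ => monic_X_sub_C _]
    simp
  set Q : ℂ[X] := C (ν ^ 2) * A with hQ
  have nQ : Q.natDegree = R.card := by rw [hQ, natDegree_C_mul hν0, nA]
  set T : ℂ[X] := (X - C (xu L u e w)) * B with hT
  have mT : T.Monic := (monic_X_sub_C _).mul mB
  have nT : T.natDegree = R.card + 1 := by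
    rw [hT, (monic_X_sub_C _).natDegree_mul mB, natDegree_X_sub_C, nB, add_comm]
  have hlt : (C c * Q).natDegree < T.natDegree := by
    rw [nT]
    calc (C c * Q).natDegree ≤ Q.natDegree := natDegree_C_mul_le _ _
      _ < R.card + 1 := by rw [nQ]; exact Nat.lt_succ_self _
  have iQ : IntP V Q := int_mul (int_C vν) (int_prod R _ vq)
  -- the first identity
  have hu0 : u ^ 2 ≠ 0 := pow_ne_zero _ hL.u0
  have hu0' : u' ^ 2 ≠ 0 := pow_ne_zero _ hM.u0
  have eL : ∀ a b : ℂ, L.weierstrassP a - L.weierstrassP b =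
      u ^ 2 * (xu L u e a - xu L u e b) := by
    intro a b
    unfold xu
    rw [← sub_div, mul_div_cancel₀ _ hu0]
    ring
  have eM : ∀ a b : ℂ, M.weierstrassP a - M.weierstrassP b =
      u' ^ 2 * (xu M u' e' a - xu M u' e' b) := by
    intro a b
    unfold xu
    rw [← sub_div, mul_div_cancel₀ _ hu0']
    ring
  have id1 : ∀ z, μ * z ∉ M.lattice →
      xu M u' e' (μ * z) * Q.eval (xu L u e z) = (C c * Q + T).eval (xu L u e z) := by
    intro z hz
    have pf := u_PFI L M μ R hμ hI hR w mw z hz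
    have p1 : ∏ q ∈ R, (L.weierstrassP z - L.weierstrassP q) =
        (u ^ 2) ^ R.card * A.eval (xu L u e z) := by
      rw [hA, eval_prod, ← Finset.prod_const, ← Finset.prod_mul_distrib]
      refine Finset.prod_congr rfl fun q _ => ?_
      rw [eL, eval_sub, eval_X, eval_C]
    have p2 : ∏ q ∈ R, (L.weierstrassP z - L.weierstrassP (w + q)) =
        (u ^ 2) ^ R.card * B.eval (xu L u e z) := by
      rw [hB, eval_prod, ← Finset.prod_const, ← Finset.prod_mul_distrib]
      refine Finset.prod_congr rfl fun q _ => ?_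
      rw [eL, eval_sub, eval_X, eval_C]
    rw [p1, p2, eM, eL] at pf
    have hpow : (u ^ 2) ^ R.card ≠ 0 := pow_ne_zero _ hu0
    have q1 : ν ^ 2 * (xu M u' e' (μ * z) - c) * A.eval (xu L u e z) =
        (xu L u e z - xu L u e w) * B.eval (xu L u e z) := by
      apply mul_left_cancel₀ (mul_ne_zero hu0 hpow)
      rw [hνd]
      have e3 : u ^ 2 * (u ^ 2) ^ R.card * ((μ * u' / u) ^ 2 * (xu M u' e' (μ * z) - c) *
          A.eval (xu L u e z)) = μ ^ 2 * (u' ^ 2 * (xu M u' e' (μ * z) - c)) *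
          ((u ^ 2) ^ R.card * A.eval (xu L u e z)) := by
        have hu : u ≠ 0 := hL.u0
        field_simp
      rw [e3, pf]
      ring
    simp only [hQ, hT, eval_add, eval_mul, eval_C, eval_sub, eval_X]
    rw [← q1]
    ring
  refine ⟨C c * Q + T, Q, int_add (int_mul (int_C vc) iQ) (int_mul (int_XC vw)
    (int_prod R _ vwq)), iQ, mT.add_of_right (degree_lt_degree hlt), ?_, ?_, ?_⟩
  · rw [natDegree_add_eq_right_of_natDegree_lt hlt, nT, nQ]
  · rw [hQ, leadingCoeff_mul, leadingCoeff_C, mA.leadingCoeff, mul_one]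
  · intro z hz
    refine ⟨id1 z hz, ?_⟩
    have hzL : z ∉ L.lattice := fun h => hz (hI z h)
    have hev : ∀ᶠ t in 𝓝 z, xu M u' e' (μ * t) * Q.eval (xu L u e t) =
        (C c * Q + T).eval (xu L u e t) := by
      have e2 : ∀ᶠ t in 𝓝 z, μ * t ∉ M.lattice := by
        have hcont : ContinuousAt (fun t : ℂ => μ * t) z := by fun_prop
        exact hcont.eventually_mem ((M.isClosed_lattice.isOpen_compl).mem_nhds hz)
      filter_upwards [e2] with t ht
      exact id1 t ht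
    have hxL := dL z hzL
    have hxM := dM (μ * z) hz
    have hM' : HasDerivAt (fun t : ℂ => xu M u' e' (μ * t))
        (2 * u' * yu M u' (μ * z) * μ) z := by
      have h5 : HasDerivAt (fun t : ℂ => μ * t) μ z := by
        simpa using (hasDerivAt_id z).const_mul μ
      exact HasDerivAt.comp z hxM h5
    have hB' : HasDerivAt (fun t : ℂ => Q.eval (xu L u e t))
        ((derivative Q).eval (xu L u e z) * (2 * u * yu L u z)) z :=
      HasDerivAt.comp z (Q.hasDerivAt (xu L u e z)) hxL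
    have hA' : HasDerivAt (fun t : ℂ => (C c * Q + T).eval (xu L u e t))
        ((derivative (C c * Q + T)).eval (xu L u e z) * (2 * u * yu L u z)) z :=
      HasDerivAt.comp z ((C c * Q + T).hasDerivAt (xu L u e z)) hxL
    have heq := (hM'.mul hB').unique (hA'.congr_of_eventuallyEq hev)
    have hid := id1 z hz
    have hu : u ≠ 0 := hL.u0
    generalize C c * Q + T = P at *
    simp only [eval_sub, eval_mul]
    have h2u : (2 * u : ℂ) ≠ 0 := mul_ne_zero two_ne_zero hu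
    apply mul_left_cancel₀ h2u
    rw [hνd]
    have e5 : 2 * u * (μ * u' / u * yu M u' (μ * z) * Q.eval (xu L u e z) ^ 2) =
        2 * u' * yu M u' (μ * z) * μ * Q.eval (xu L u e z) ^ 2 := by
      field_simp
    rw [e5]
    linear_combination (Q.eval (xu L u e z)) * heq -
      (derivative Q).eval (xu L u e z) * (2 * u * yu L u z) * hid

end

end Pool.Agent.NSE


end

section

/-!
# MU3, section 3, module THDJ
-/

open NumberField IsDedekindDomain Finset
open scoped nonZeroDivisors Pointwise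

namespace Pool.Agent.MU3

open _root_.Pool.Agent.RI _root_.Pool.Agent.RID

namespace P_THDJ

variable {L : Type} [Field L] [NumberField L]

theorem fin_above {S : Finset ℕ} (hS : ∀ p ∈ S, p.Prime) :
    {v : HeightOneSpectrum (𝓞 L) | Above S v}.Finite := by
  have h1 : {v : HeightOneSpectrum (𝓞 L) | Above S v} ⊆
      ⋃ p ∈ S, {v : HeightOneSpectrum (𝓞 L) | (p : 𝓞 L) ∈ v.asIdeal} := by
    rintro v ⟨p, hp, hv⟩
    exact Set.mem_biUnion hp hv
  refine Set.Finite.subset (Set.Finite.biUnion S.finite_toSet ?_) h1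
  intro p hp
  have h0 : (Ideal.span {(p : 𝓞 L)}) ≠ 0 := by
    intro h
    have h2 : (p : 𝓞 L) = 0 := Ideal.span_singleton_eq_bot.1 h
    exact (hS p hp).ne_zero (by exact_mod_cast h2)
  refine (Ideal.finite_factors h0).subset ?_
  intro v hv
  have hv' : (p : 𝓞 L) ∈ v.asIdeal := hv
  change v.asIdeal ∣ Ideal.span {(p : 𝓞 L)}
  rw [Ideal.dvd_iff_le, Ideal.span_singleton_le_iff_mem]
  exact hv'

theorem equiv_cl (v : HeightOneSpectrum (𝓞 L)) :
    ClassGroup.equiv L (cl L v) =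
      QuotientGroup.mk' (toPrincipalIdeal (𝓞 L) L).range (vJ v) := by
  unfold cl
  rw [ClassGroup.equiv_mk0]
  congr 1

end P_THDJ

open _root_.Pool.Agent.MU3.P_THDJ in
theorem t_THDJ (h1 : Stmt_THD) : S_THDJ := by
  intro L _ _ ζ t hζ ht S hS U hU hcond
  set q := QuotientGroup.mk' (toPrincipalIdeal (𝓞 L) L).range with hq
  set H : Subgroup (ClassGroup (𝓞 L)) :=
    (U.map q).comap (ClassGroup.equiv L).toMonoidHom with hH
  have hHtop : H = ⊤ := by
    refine h1 L ζ (t : 𝓞 L) hζ ht {v | Above S v} (fin_above hS) H ?_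
    intro v hv hpr _ _ hcube
    have hnotin : Ideal.absNorm v.asIdeal ∉ S := by
      intro hmem
      exact hv ⟨_, hmem, Ideal.absNorm_mem v.asIdeal⟩
    have hcard : Nat.card (𝓞 L ⧸ v.asIdeal) = Ideal.absNorm v.asIdeal := by
      rw [Ideal.absNorm_apply, Submodule.cardQuot_apply]
    have h2 := hcond v (Ideal.absNorm v.asIdeal) hpr hnotin hcard hcube
    rw [hH, Subgroup.mem_comap]
    change ClassGroup.equiv L (cl L v) ∈ U.map q
    rw [equiv_cl]
    exact Subgroup.mem_map_of_mem q h2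
  rw [eq_top_iff]
  intro x _
  have h2 : (ClassGroup.equiv L).symm (q x) ∈ H := by
    rw [hHtop]
    exact Subgroup.mem_top _
  rw [hH, Subgroup.mem_comap] at h2
  have h3 : q x ∈ U.map q := by
    have h4 : (ClassGroup.equiv L).toMonoidHom ((ClassGroup.equiv L).symm (q x)) = q x :=
      (ClassGroup.equiv L).apply_symm_apply _
    rw [h4] at h2
    exact h2
  obtain ⟨u, hu, hux⟩ := h3
  have h5 : u⁻¹ * x ∈ (toPrincipalIdeal (𝓞 L) L).range := by
    have := (QuotientGroup.eq (s := (toPrincipalIdeal (𝓞 L) L).range) (a := u) (b := x)).1 hux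
    exact this
  have h6 : u⁻¹ * x ∈ U := hU h5
  have h7 : u * (u⁻¹ * x) ∈ U := U.mul_mem hu h6
  rwa [mul_inv_cancel_left] at h7

end Pool.Agent.MU3


end

section

/-!
# MU3_ALGS: cyclic relations in characteristic `3`
-/

open NumberField IsDedekindDomain Finset
open scoped nonZeroDivisors Pointwise

namespace Pool.Agent.MU3

namespace P_ALGS

open Polynomial

variable {F : Type} [Field F]

/-- the shift -/
noncomputable def sh (F : Type) [Field F] (N : ℕ) : (ZMod N → F) →ₗ[F] (ZMod N → F) :=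
  LinearMap.funLeft F F (fun j => j + 1)

theorem sh_pow (N k : ℕ) (y : ZMod N → F) (j : ZMod N) :
    ((sh F N ^ k) y) j = y (j + k) := by
  induction k generalizing y with
  | zero => simp
  | succ k ih =>
    rw [pow_succ, Module.End.mul_apply, ih]
    unfold sh
    rw [LinearMap.funLeft_apply]
    push_cast
    rw [add_assoc]

theorem act_X_pow (N k : ℕ) (y : ZMod N → F) (j : ZMod N) :
    (aeval (sh F N) ((X : F[X]) ^ k) y) j = y (j + k) := by
  rw [map_pow, aeval_X, sh_pow]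

/-- the polynomial of a function -/
noncomputable def po (N : ℕ) [NeZero N] (β : ZMod N → F) : F[X] :=
  ∑ l : ZMod N, C (β l) * X ^ l.val

theorem aeval_po (N : ℕ) [NeZero N] (β y : ZMod N → F) (j : ZMod N) :
    (aeval (sh F N) (po N β) y) j = ∑ l, β l * y (j + l) := by
  unfold po
  rw [map_sum, LinearMap.sum_apply, Finset.sum_apply]
  refine sum_congr rfl fun l _ => ?_
  rw [map_mul, aeval_C, Module.End.mul_apply, Module.algebraMap_end_apply, Pi.smul_apply,
    act_X_pow, smul_eq_mul, ZMod.natCast_zmod_val]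

end P_ALGS

open _root_.Pool.Agent.MU3.P_ALGS Polynomial

theorem t_ALGS : S_ALGS := by
  intro F _ _ m n hmn β x hβ hne j
  classical
  haveI : Fact (Nat.Prime 3) := ⟨Nat.prime_three⟩
  haveI : NeZero (3 ^ n) := ⟨pow_ne_zero n (by norm_num)⟩
  set T := sh F (3 ^ n) with hT
  set P := po (3 ^ n) β with hP
  have hPx : aeval T P x = 0 := by
    funext i
    rw [hP, hT, aeval_po]
    simp only [Pi.zero_apply]
    rw [← hβ i]
    exact sum_congr rfl fun l _ => by rw [add_comm i l]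
  have hfr : ∀ k : ℕ, (X - C (1 : F)) ^ (3 ^ k) = X ^ (3 ^ k) - 1 := by
    intro k
    rw [sub_pow_char_pow, C_1, one_pow]
  have hact : ∀ y : ZMod (3 ^ n) → F, aeval T ((X - C (1 : F)) ^ (3 ^ n)) y = 0 := by
    intro y
    funext i
    rw [hfr, map_sub, map_one, LinearMap.sub_apply, Pi.sub_apply, hT, act_X_pow]
    simp
  set g := EuclideanDomain.gcd P ((X - C (1 : F)) ^ (3 ^ n)) with hg
  have hgx : aeval T g x = 0 := by
    rw [hg, EuclideanDomain.gcd_eq_gcd_ab, map_add, LinearMap.add_apply, mul_comm P,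
      mul_comm ((X - C (1 : F)) ^ (3 ^ n)), map_mul, map_mul, Module.End.mul_apply,
      Module.End.mul_apply, hPx, hact]
    simp
  obtain ⟨v, hv, hass⟩ := (dvd_prime_pow (prime_X_sub_C (1 : F)) (3 ^ n)).1
    (EuclideanDomain.gcd_dvd_right P ((X - C (1 : F)) ^ (3 ^ n)))
  have hvx : aeval T ((X - C (1 : F)) ^ v) x = 0 := by
    obtain ⟨c, hc⟩ := hass.dvd
    rw [hc, mul_comm, map_mul, Module.End.mul_apply, ← hg, hgx, map_zero]
  have hvP : (X - C (1 : F)) ^ v ∣ P :=
    hass.symm.dvd.trans (EuclideanDomain.gcd_dvd_left P ((X - C (1 : F)) ^ (3 ^ n)))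
  by_cases hvm : v ≤ 3 ^ m
  · have h1 : aeval T ((X - C (1 : F)) ^ (3 ^ m)) x = 0 := by
      obtain ⟨c, hc⟩ := pow_dvd_pow (X - C (1 : F)) hvm
      rw [hc, mul_comm, map_mul, Module.End.mul_apply, hvx, map_zero]
    have h2 := congrFun h1 j
    rw [hfr, map_sub, map_one, LinearMap.sub_apply, Pi.sub_apply, hT, act_X_pow] at h2
    simp only [Module.End.one_apply, Pi.zero_apply] at h2
    exact sub_eq_zero.1 h2
  · exfalso
    push Not at hvm
    apply hne
    obtain ⟨R, hR⟩ := (pow_dvd_pow (X - C (1 : F)) hvm.le).trans hvP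
    have hle : 3 ^ m ≤ 3 ^ n := Nat.pow_le_pow_right (by norm_num) hmn
    have hgeo : ∑ i ∈ range (3 ^ (n - m)), ((X : F[X]) ^ (3 ^ m)) ^ i =
        (X - C (1 : F)) ^ (3 ^ n - 3 ^ m) := by
      have h1 : (X : F[X]) ^ (3 ^ m) - 1 ≠ 0 := by
        rw [← hfr]
        exact pow_ne_zero _ (X_sub_C_ne_zero 1)
      apply mul_left_cancel₀ h1
      rw [mul_geom_sum, ← pow_mul, ← pow_add, Nat.add_sub_cancel' hmn, ← hfr, ← hfr, ← pow_add,
        Nat.add_sub_cancel' hle]
    have hz : ∀ y : ZMod (3 ^ n) → F,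
        aeval T (P * ∑ i ∈ range (3 ^ (n - m)), ((X : F[X]) ^ (3 ^ m)) ^ i) y = 0 := by
      intro y
      rw [hgeo, hR, mul_right_comm, ← pow_add, Nat.add_sub_cancel' hle, map_mul,
        Module.End.mul_apply, hact]
    have h0 := congrFun (hz (Pi.single 0 1)) 0
    rw [map_mul, Module.End.mul_apply, hP, hT, aeval_po] at h0
    simp only [Pi.zero_apply, zero_add] at h0
    rw [← h0]
    have h3 : ∀ l : ZMod (3 ^ n), (aeval (sh F (3 ^ n)) (∑ i ∈ range (3 ^ (n - m)), ((X : F[X]) ^ (3 ^ m)) ^ i)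
        (Pi.single 0 1)) l = ∑ i ∈ range (3 ^ (n - m)),
          if l = -((3 ^ m * i : ℕ) : ZMod (3 ^ n)) then 1 else 0 := by
      intro l
      rw [map_sum, LinearMap.sum_apply, Finset.sum_apply]
      refine sum_congr rfl fun i _ => ?_
      rw [← pow_mul, act_X_pow, Pi.single_apply]
      congr 1
      rw [eq_iff_iff, add_eq_zero_iff_eq_neg]
    simp only [h3, mul_sum]
    rw [sum_comm]
    refine sum_congr rfl fun i _ => ?_
    simp

end Pool.Agent.MU3


end

section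

/-!
# MU3, module RAMK: `K_n / k` is unramified outside a finite set independent of `n`
-/

open NumberField IsDedekindDomain
open scoped nonZeroDivisors Pointwise

namespace Pool.Agent.MU3

open _root_.Pool.Agent.RI _root_.Pool.Agent.RID

namespace P_RAMK

/-- Only finitely many primes ramify. -/
lemma fin_ram (k K : Type) [Field k] [NumberField k] [Field K] [NumberField K] [Algebra k K] :
    {v : HeightOneSpectrum (𝓞 K) | v.asIdeal.ramificationIdx (𝓞 k) ≠ 1}.Finite := by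
  have hne : differentIdeal (𝓞 k) (𝓞 K) ≠ 0 := differentIdeal_ne_bot
  refine (Ideal.finite_factors hne).subset ?_
  intro v hv
  by_contra hnd
  apply hv
  have h1 : Algebra.IsUnramifiedAt (𝓞 k) v.asIdeal := not_dvd_differentIdeal_iff.1 hnd
  exact Ideal.ramificationIdx_eq_one_of_isUnramifiedAt

/-- Every prime contains a prime number. -/
lemma exists_prime (K : Type) [Field K] [NumberField K] (v : HeightOneSpectrum (𝓞 K)) :
    ∃ q : ℕ, q.Prime ∧ (q : 𝓞 K) ∈ v.asIdeal := by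
  obtain ⟨q, hq⟩ := CharP.exists (𝓞 K ⧸ v.asIdeal)
  have hfin : Finite (𝓞 K ⧸ v.asIdeal) := Ideal.finiteQuotientOfFreeOfNeBot _ v.ne_bot
  have hprime : v.asIdeal.IsPrime := v.isPrime
  refine ⟨q, CharP.char_is_prime (𝓞 K ⧸ v.asIdeal) q, ?_⟩
  rw [← Ideal.Quotient.eq_zero_iff_mem, map_natCast]
  exact CharP.cast_eq_zero _ _

/-- The tower. -/
lemma tower (k K L : Type) [Field k] [NumberField k] [Field K] [NumberField K] [Field L]
    [NumberField L] [Algebra k K] [Algebra k L] [Algebra K L] [IsScalarTower k K L]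
    (v : HeightOneSpectrum (𝓞 L)) (w : HeightOneSpectrum (𝓞 K))
    (hw : v.asIdeal.under (𝓞 K) = w.asIdeal) :
    v.asIdeal.ramificationIdx (𝓞 k) =
      w.asIdeal.ramificationIdx (𝓞 k) * v.asIdeal.ramificationIdx (𝓞 K) := by
  have h1 : v.asIdeal.LiesOver w.asIdeal := ⟨hw.symm⟩
  exact Ideal.ramificationIdx_tower w.asIdeal v.asIdeal

end P_RAMK

open _root_.Pool.Agent.MU3.P_RAMK in
/-- RAMK. -/
theorem t_RAMK (h1 : _root_.MU3.N_RAMP) : S_RAMK := by
  classical
  intro k K B _ _ _ hB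
  let a1 : Algebra k K := algC hB.hk
  have hfin := fin_ram k K
  choose f hf using exists_prime K
  refine ⟨insert 3 (hfin.toFinset.image f), by simp, ?_, ?_⟩
  · intro p hp
    rcases Finset.mem_insert.1 hp with rfl | hp
    · norm_num
    · obtain ⟨v, -, rfl⟩ := Finset.mem_image.1 hp
      exact (hf v).1
  · intro S hS n h v hv
    let a2 : Algebra K ↥(K ⊔ B n) := algC (le_sup_left : K ≤ K ⊔ B n)
    let a3 : Algebra k ↥(K ⊔ B n) := algC h
    have tow : IsScalarTower k K ↥(K ⊔ B n) := towerC hB.hk le_sup_left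
    have : Fact (Nat.Prime 3) := ⟨Nat.prime_three⟩
    have hprime : v.asIdeal.IsPrime := v.isPrime
    have hvne : v.asIdeal.under (𝓞 K) ≠ ⊥ := by
      intro h0
      exact v.ne_bot (Ideal.eq_bot_of_comap_eq_bot h0)
    let w : HeightOneSpectrum (𝓞 K) := ⟨v.asIdeal.under (𝓞 K), inferInstance, hvne⟩
    have hdown : ∀ q : ℕ, (q : 𝓞 K) ∈ w.asIdeal → (q : 𝓞 ↥(K ⊔ B n)) ∈ v.asIdeal := by
      intro q hq
      have h2 : algebraMap (𝓞 K) (𝓞 ↥(K ⊔ B n)) (q : 𝓞 K) ∈ v.asIdeal := hq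
      rwa [map_natCast] at h2
    have e1 : v.asIdeal.ramificationIdx (𝓞 K) = 1 := by
      by_contra hne
      have h3 := h1 3 n K (B n) (hB.lay n) v hne
      exact hv ⟨3, hS (by simp), hdown 3 h3⟩
    have e2 : w.asIdeal.ramificationIdx (𝓞 k) = 1 := by
      by_contra hne
      refine hv ⟨f w, hS ?_, hdown _ (hf w).2⟩
      exact Finset.mem_insert_of_mem (Finset.mem_image_of_mem f (hfin.mem_toFinset.2 hne))
    have e3 := tower k K ↥(K ⊔ B n) v w rfl
    rw [e1, e2] at e3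
    exact e3

end Pool.Agent.MU3


end

section

/-!
# MUX, block K, module TWX (helper95): the structure of `Gal(K_n / k)`
-/

set_option autoImplicit false

open NumberField IsDedekindDomain Finset
open scoped nonZeroDivisors Pointwise

namespace Pool.Agent.MUXK

open _root_.Pool.Agent.MU3 _root_.Pool.Agent.RI _root_.Pool.Agent.RID

namespace K_TWX

/-- The group generated by an automorphism with fixed field `A`. -/
lemma zp {F L : Type} [Field F] [Field L] [Algebra F L] [FiniteDimensional F L]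
    (γ : L ≃ₐ[F] L) (A : IntermediateField F L) (hA : ∀ x, γ x = x ↔ x ∈ A) :
    A.fixingSubgroup = Subgroup.zpowers γ := by
  have hfix : ∀ (δ : L ≃ₐ[F] L) (x : L),
      x ∈ IntermediateField.fixedField (Subgroup.zpowers δ) ↔ δ x = x := by
    intro δ x
    constructor
    · intro h
      exact h ⟨δ, Subgroup.mem_zpowers δ⟩
    · intro h τ
      obtain ⟨τ, j, rfl⟩ := τ
      have h5 : δ ∈ MulAction.stabilizer (L ≃ₐ[F] L) x := h
      exact zpow_mem h5 j
  have hAf : IntermediateField.fixedField (Subgroup.zpowers γ) = A := by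
    ext x
    rw [hfix, hA]
  rw [← hAf, IntermediateField.fixingSubgroup_fixedField]

/-- The order of `NC` divides `[K : k]`. -/
lemma card_NC {k K B : IntermediateField ℚ ℂ} [FiniteDimensional ℚ K] (hk : k ≤ K)
    (gal : IsGalois k (IntermediateField.extendScalars hk)) (h : k ≤ K ⊔ B) :
    letI := algC h
    Nat.card (NC h B) ∣ Module.finrank k (IntermediateField.extendScalars hk) := by
  let akL : Algebra k ↥(K ⊔ B) := algC h
  let akK : Algebra k K := algC hk
  have hKL : K ≤ K ⊔ B := le_sup_left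
  let aKL : Algebra K ↥(K ⊔ B) := algC hKL
  have t0 := towerC hk hKL
  have gK : IsGalois k K := (isGalois_algC hk).2 gal
  have fdK := Pool.Agent.FX.fd k K
  have hres : ∀ (σ : ↥(K ⊔ B) ≃ₐ[k] ↥(K ⊔ B)) (x : K),
      ((σ.restrictNormal K x : K) : ℂ) =
        ((σ ⟨(x : ℂ), hKL x.2⟩ : ↥(K ⊔ B)) : ℂ) := by
    intro σ x
    have h2 := AlgEquiv.restrictNormal_commutes σ K x
    exact Pool.Agent.FX.coe_comm hKL σ x _ h2
  let f : (NC h B) →* (K ≃ₐ[k] K) :=
    (AlgEquiv.restrictNormalHom K : (↥(K ⊔ B) ≃ₐ[k] ↥(K ⊔ B)) →* (K ≃ₐ[k] K)).comp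
      (NC h B).subtype
  have hf : Function.Injective f := by
    rw [injective_iff_map_eq_one]
    intro σ hσ
    apply Subtype.ext
    apply GCC.triv h
    · intro x hx
      apply Subtype.ext
      have h3 := hres (σ : ↥(K ⊔ B) ≃ₐ[k] ↥(K ⊔ B)) ⟨x.1, hx⟩
      have h4 : (σ : ↥(K ⊔ B) ≃ₐ[k] ↥(K ⊔ B)).restrictNormal K = 1 := hσ
      rw [h4] at h3
      exact h3.symm
    · intro x hx
      exact σ.2 x hx
  have h1 : Nat.card (NC h B) ∣ Nat.card (K ≃ₐ[k] K) := Subgroup.card_dvd_of_injective f hf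
  rw [IsGalois.card_aut_eq_finrank, finrank_algC hk] at h1
  exact h1

/-- `NC` and `γ` generate the group. -/
lemma gener {p : ℕ} [Fact p.Prime] {n : ℕ} {k K B : IntermediateField ℚ ℂ} [FiniteDimensional ℚ ↥(K ⊔ B)]
    (hB : IsLayer p n B) (h : k ≤ K ⊔ B) :
    letI := algC h
    ∀ γ : ↥(K ⊔ B) ≃ₐ[k] ↥(K ⊔ B), (∀ x : ↥(K ⊔ B), γ x = x ↔ (x : ℂ) ∈ K) →
      orderOf γ = p ^ n → ∀ σ : ↥(K ⊔ B) ≃ₐ[k] ↥(K ⊔ B), ∃ δ ∈ NC h B, ∃ i : ℕ, σ = δ * γ ^ i := by
  let akL : Algebra k ↥(K ⊔ B) := algC h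
  intro γ hγ hord σ
  obtain ⟨hfB, hGB, -⟩ := LAY_thm p n B hB
  have hBL : B ≤ K ⊔ B := le_sup_right
  let aBL : Algebra B ↥(K ⊔ B) := algC hBL
  have hT : IsScalarTower ℚ B ↥(K ⊔ B) := IsScalarTower.of_algebraMap_eq fun x => by
    apply Subtype.ext
    rw [eq_ratCast, eq_ratCast, map_ratCast]
  have hT' : IsScalarTower ℚ k ↥(K ⊔ B) := IsScalarTower.of_algebraMap_eq fun x => by
    apply Subtype.ext
    rw [eq_ratCast, eq_ratCast, map_ratCast]
  let r : (↥(K ⊔ B) ≃ₐ[k] ↥(K ⊔ B)) →* (B ≃ₐ[ℚ] B) :=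
    (AlgEquiv.restrictNormalHom (F := ℚ) (K₁ := ↥(K ⊔ B)) B).comp (AlgEquiv.restrictScalarsHom ℚ)
  have hr : ∀ τ : ↥(K ⊔ B) ≃ₐ[k] ↥(K ⊔ B), r τ = 1 → ∀ x : ↥(K ⊔ B), (x : ℂ) ∈ B → τ x = x := by
    intro τ hτ x hx
    have h1 := AlgEquiv.restrictNormal_commutes (AlgEquiv.restrictScalars ℚ τ) B ⟨x.1, hx⟩
    have h2 : (AlgEquiv.restrictScalars ℚ τ).restrictNormal B = 1 := hτ
    rw [h2, AlgEquiv.one_apply] at h1
    exact h1.symm
  have hK : ∀ j : ℤ, ∀ x : ↥(K ⊔ B), (x : ℂ) ∈ K → (γ ^ j) x = x := by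
    intro j x hx
    have h5 : γ ∈ MulAction.stabilizer (↥(K ⊔ B) ≃ₐ[k] ↥(K ⊔ B)) x := (hγ x).2 hx
    exact zpow_mem h5 j
  have hinj : Function.Injective (r.comp (Subgroup.zpowers γ).subtype) := by
    rw [injective_iff_map_eq_one]
    rintro ⟨τ, j, rfl⟩ hτ
    apply Subtype.ext
    apply GCC.triv h
    · exact hK j
    · exact hr _ hτ
  have hcard : Nat.card (Subgroup.zpowers γ) = Nat.card (B ≃ₐ[ℚ] B) := by
    rw [Nat.card_zpowers, hord, IsGalois.card_aut_eq_finrank, hB.1]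
  have hbij := (Nat.bijective_iff_injective_and_card _).2 ⟨hinj, hcard⟩
  obtain ⟨⟨z, hz⟩, hz2⟩ := hbij.2 (r σ)
  have hfin : IsOfFinOrder γ := by
    rw [← orderOf_pos_iff, hord]
    exact pow_pos (Fact.out : p.Prime).pos n
  obtain ⟨i, hi⟩ := (hfin.mem_powers_iff_mem_zpowers).2 hz
  have hi' : γ ^ i = z := hi
  have hz3 : r z = r σ := hz2
  refine ⟨σ * z⁻¹, ?_, i, ?_⟩
  · have h6 : r (σ * z⁻¹) = 1 := by rw [map_mul, map_inv, hz3, mul_inv_cancel]
    exact hr _ h6
  · rw [hi', inv_mul_cancel_right]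

end K_TWX

open _root_.Pool.Agent.MUXK.K_TWX in
theorem t_TWX (h1 : S_GALX) (h2 : S_GENX) : S_TWX := by
  intro p _ k K B _ _ hB hcop n h
  let akL : Algebra k ↥(K ⊔ B n) := algC h
  intro γ hγ
  obtain ⟨hG, hc⟩ := h1 p k K B hB n h
  have fdL := Pool.Agent.FX.fd k ↥(K ⊔ B n)
  obtain ⟨g, hg1, hg2, -⟩ := h2 p k K B hB.hk hB.deg hB.lay hB.mono n h
  have hord : orderOf γ = p ^ n := by
    have e1 := zp γ (GCC.sub h K hB.hk) (fun x => (hγ x).trans (GCC.mem_sub h K hB.hk x).symm)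
    have e2 := zp g (GCC.sub h K hB.hk) (fun x => (hg2 x).trans (GCC.mem_sub h K hB.hk x).symm)
    rw [← Nat.card_zpowers, ← e1, e2, Nat.card_zpowers, hg1]
  refine ⟨hc, hord, ?_, ?_⟩
  · have h3 : Nat.Coprime p (Module.finrank k (IntermediateField.extendScalars hB.hk)) :=
      (Nat.Prime.coprime_iff_not_dvd Fact.out).2 hcop
    exact (Nat.Coprime.coprime_dvd_right (card_NC hB.hk hB.gal h) h3).symm
  · exact gener (hB.lay n) h γ hγ hord

end Pool.Agent.MUXK


end

section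

/-!
# MUX, module RAMX: `K_n / k` is unramified outside a finite set independent of `n` (any `p`)
-/

set_option autoImplicit false

open NumberField IsDedekindDomain
open scoped nonZeroDivisors Pointwise

namespace Pool.Agent.MUXK

open _root_.Pool.Agent.MU3 _root_.Pool.Agent.RI _root_.Pool.Agent.RID _root_.Pool.Agent.MU3.P_RAMK

/-- RAMX. -/
theorem t_RAMX : S_RAMX := by
  classical
  intro p hp k K B _ _ _ hB
  have h1 : _root_.MU3.N_RAMP := _root_.MU3.n_RAMP
  let a1 : Algebra k K := algC hB.hk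
  have hfin := fin_ram k K
  choose f hf using exists_prime K
  refine ⟨insert 2 (insert p (hfin.toFinset.image f)), by simp, by simp, ?_, ?_⟩
  · intro q hq
    rcases Finset.mem_insert.1 hq with rfl | hq
    · exact Nat.prime_two
    · rcases Finset.mem_insert.1 hq with rfl | hq
      · exact hp.out
      · obtain ⟨v, -, rfl⟩ := Finset.mem_image.1 hq
        exact (hf v).1
  · intro S hS n h v hv
    let a2 : Algebra K ↥(K ⊔ B n) := algC (le_sup_left : K ≤ K ⊔ B n)
    let a3 : Algebra k ↥(K ⊔ B n) := algC h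
    have tow : IsScalarTower k K ↥(K ⊔ B n) := towerC hB.hk le_sup_left
    have hprime : v.asIdeal.IsPrime := v.isPrime
    have hvne : v.asIdeal.under (𝓞 K) ≠ ⊥ := by
      intro h0
      exact v.ne_bot (Ideal.eq_bot_of_comap_eq_bot h0)
    let w : HeightOneSpectrum (𝓞 K) := ⟨v.asIdeal.under (𝓞 K), inferInstance, hvne⟩
    have hdown : ∀ q : ℕ, (q : 𝓞 K) ∈ w.asIdeal → (q : 𝓞 ↥(K ⊔ B n)) ∈ v.asIdeal := by
      intro q hq
      have h2 : algebraMap (𝓞 K) (𝓞 ↥(K ⊔ B n)) (q : 𝓞 K) ∈ v.asIdeal := hq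
      rwa [map_natCast] at h2
    have e1 : v.asIdeal.ramificationIdx (𝓞 K) = 1 := by
      by_contra hne
      have h3 := h1 p n K (B n) (hB.lay n) v hne
      exact hv ⟨p, hS (by simp), hdown p h3⟩
    have e2 : w.asIdeal.ramificationIdx (𝓞 k) = 1 := by
      by_contra hne
      refine hv ⟨f w, hS ?_, hdown _ (hf w).2⟩
      exact Finset.mem_insert_of_mem (Finset.mem_insert_of_mem
        (Finset.mem_image_of_mem f (hfin.mem_toFinset.2 hne)))
    have e3 := tower k K ↥(K ⊔ B n) v w rfl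
    rw [e1, e2] at e3
    exact e3

end Pool.Agent.MUXK


end

section

/-!
# VB, module CRD: the numbers `cR`, `cI` (helper55)
-/

set_option autoImplicit false

open NumberField IsDedekindDomain
open scoped nonZeroDivisors Pointwise

namespace Pool.Agent.VB

open _root_.Pool.Agent.RI _root_.Pool.Agent.MU3

namespace CRD

/-- the restrictions to `M` of the automorphisms which fix `L` -/
abbrev RT (L M : IntermediateField ℚ ℂ) : Type :=
  {f : M → ℂ // ∃ σ : ℂ ≃+* ℂ, Fixes L σ ∧ ∀ x : M, f x = σ x}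

/-- the restrictions to `M` of the inert automorphisms which fix `L` -/
abbrev IT (V : ValuationSubring ℂ) (L M : IntermediateField ℚ ℂ) : Type :=
  {f : M → ℂ // ∃ σ : ℂ ≃+* ℂ, Fixes L σ ∧ Inr V M σ ∧ ∀ x : M, f x = σ x}

/-- restrictions are homomorphisms -/
noncomputable def toHom {L M : IntermediateField ℚ ℂ} (h : L ≤ M) (f : RT L M) :
    IntermediateField.extendScalars h →ₐ[L] ℂ where
  toFun := fun x => f.1 ⟨x.1, x.2⟩
  map_one' := by
    obtain ⟨σ, -, hσ⟩ := f.2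
    rw [hσ]
    exact map_one σ
  map_zero' := by
    obtain ⟨σ, -, hσ⟩ := f.2
    rw [hσ]
    exact map_zero σ
  map_mul' := by
    intro x y
    obtain ⟨σ, -, hσ⟩ := f.2
    rw [hσ, hσ, hσ]
    exact map_mul σ _ _
  map_add' := by
    intro x y
    obtain ⟨σ, -, hσ⟩ := f.2
    rw [hσ, hσ, hσ]
    exact map_add σ _ _
  commutes' := by
    intro x
    obtain ⟨σ, h1, hσ⟩ := f.2
    rw [hσ]
    exact h1 _ x.2

lemma exists_ext {L M : IntermediateField ℚ ℂ} [FiniteDimensional ℚ M] (h : L ≤ M)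
    (g : IntermediateField.extendScalars h →ₐ[L] ℂ) :
    ∃ σ : ℂ ≃+* ℂ, Fixes L σ ∧ ∀ x : M, g ⟨x.1, x.2⟩ = σ x := by
  let e : M →+* IntermediateField.extendScalars h :=
    { toFun := fun x => ⟨x.1, x.2⟩
      map_one' := rfl
      map_zero' := rfl
      map_mul' := fun _ _ => rfl
      map_add' := fun _ _ => rfl }
  obtain ⟨σ, hσ⟩ := Pool.Agent.MUXU.tu_AUE M inferInstance ((g : _ →+* ℂ).comp e)
  refine ⟨σ, ?_, fun x => (hσ x).symm⟩
  intro x hx
  have h1 := hσ ⟨x, h hx⟩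
  have h2 : ((g : _ →+* ℂ).comp e) ⟨x, h hx⟩ = algebraMap L ℂ ⟨x, hx⟩ :=
    g.commutes ⟨x, hx⟩
  rw [h2] at h1
  exact h1

/-- the restrictions are the homomorphisms over `L` -/
noncomputable def equivHom {L M : IntermediateField ℚ ℂ} [FiniteDimensional ℚ M] (h : L ≤ M) :
    RT L M ≃ (IntermediateField.extendScalars h →ₐ[L] ℂ) where
  toFun := toHom h
  invFun := fun g => ⟨fun x => g ⟨x.1, x.2⟩, exists_ext h g⟩
  left_inv := fun _ => rfl
  right_inv := fun _ => rfl

end CRD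

open _root_.Pool.Agent.VB.CRD

theorem tb_CRD : Sb_CRD := by
  intro L M hfd h
  have hL : FiniteDimensional ℚ L :=
    FiniteDimensional.of_injective (IntermediateField.inclusion h).toLinearMap
      (IntermediateField.inclusion h).injective
  -- tower law
  have htow : Module.finrank ℚ M =
      Module.finrank ℚ L * Module.finrank L (IntermediateField.extendScalars h) := by
    rw [← finrank_algC h]
    let := algC h
    have hs : IsScalarTower ℚ L M := IsScalarTower.of_algebraMap_eq fun x => rfl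
    exact (Pool.Agent.FX.fmul ℚ L M).symm
  have hpos : 0 < Module.finrank ℚ M := Module.finrank_pos
  have hEpos : 0 < Module.finrank L (IntermediateField.extendScalars h) := by
    rcases Nat.eq_zero_or_pos (Module.finrank L (IntermediateField.extendScalars h)) with h0 | h0
    · rw [h0, mul_zero] at htow
      omega
    · exact h0
  have hEfd : FiniteDimensional L (IntermediateField.extendScalars h) :=
    FiniteDimensional.of_finrank_pos hEpos
  have hcard : Nat.card (RT L M) = Module.finrank L (IntermediateField.extendScalars h) := by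
    rw [Nat.card_congr (equivHom h), Nat.card_eq_fintype_card]
    exact AlgHom.card L (IntermediateField.extendScalars h) ℂ
  have hfin : Finite (RT L M) := Finite.of_equiv _ (equivHom h).symm
  have hcR : cR L M = Module.finrank L (IntermediateField.extendScalars h) := hcard
  refine ⟨by rw [hcR]; exact htow, by rw [hcR]; exact hEpos, hcR.symm, hfin, ?_⟩
  intro V
  let ι : IT V L M → RT L M := fun f => ⟨f.1, by
    obtain ⟨σ, h1, -, h3⟩ := f.2
    exact ⟨σ, h1, h3⟩⟩
  have hι : Function.Injective ι := by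
    intro f g hfg
    apply Subtype.ext
    exact congrArg (fun t : RT L M => t.1) hfg
  have hfinI : Finite (IT V L M) := Finite.of_injective ι hι
  let one : IT V L M := ⟨fun x => (x : ℂ), 1, fixes_one L, inr_one V M, fun _ => rfl⟩
  have hne : Nonempty (IT V L M) := ⟨one⟩
  refine ⟨Nat.card_pos, Nat.card_le_card_of_injective ι hι, ⟨?_, ?_⟩, ?_⟩
  · intro h1 σ hσ hI x hx
    have hsub : Subsingleton (IT V L M) := (Nat.card_eq_one_iff_unique.1 h1).1
    have h2 : (⟨fun x => σ x, σ, hσ, hI, fun _ => rfl⟩ : IT V L M) = one :=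
      Subsingleton.elim _ _
    have h3 := congrArg (fun t : IT V L M => t.1 ⟨x, hx⟩) h2
    exact h3
  · intro hT
    apply Nat.card_eq_one_iff_unique.2
    refine ⟨⟨?_⟩, hne⟩
    have key : ∀ f : IT V L M, f = one := by
      intro f
      obtain ⟨σ, h1, h2, h3⟩ := f.2
      apply Subtype.ext
      funext x
      rw [h3 x]
      exact hT σ h1 h2 x x.2
    intro f g
    rw [key f, key g]
  · intro hall
    apply Nat.card_congr
    exact
      { toFun := ι
        invFun := fun f => ⟨f.1, by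
          obtain ⟨σ, h1, h3⟩ := f.2
          exact ⟨σ, h1, hall σ h1, h3⟩⟩
        left_inv := fun _ => rfl
        right_inv := fun _ => rfl }

end Pool.Agent.VB


end
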