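import Mathlib
import Pool.Agent.MVF.C049
import Pool.Agent.MVF.C058
import Pool.Agent.MVF.C061

/-! Parts: N2.E_ORB, N2.V_FIN, N2.V_MAIN, N2.V_DS2, N2.V_DST, N2.E_THT, N2.V_THT, N2.E_PRD, N2.E_RAT -/

namespace Pool.Agent.N2E.ORB
end Pool.Agent.N2E.ORB
namespace Pool.Agent.N2E.PRD
end Pool.Agent.N2E.PRD
namespace Pool.Agent.N2V.DS2
end Pool.Agent.N2V.DS2
namespace Pool.Agent.N2V.DST
end Pool.Agent.N2V.DST
namespace Pool.Agent.N2V.FIN
end Pool.Agent.N2V.FIN
namespace Pool.Agent.N2V.MAIN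
end Pool.Agent.N2V.MAIN

section

/-!
# MUX-2N, block E2N: module ORB, the sum over one orbit of `1 + N del`

`c_k = 1 + N k del`, `N = 2^n f a`, `P = om_0/m`, `ξ_j = x(P + j R)`. The product of the values of `Θ_a` over the orbit is the same rational function over `V` at the
four points `ξ_j`, and it takes the same value at them: its logarithmic derivative is small (`LAG`, `DST`).
-/

set_option autoImplicit false

open Polynomial

namespace Pool.Agent.N2E

open _root_.MU3 _root_.Pool.Agent.MU3A _root_.Pool.Agent.MU3B _root_.Pool.Agent.MUX _root_.Pool.Agent.MUXU _root_.Pool.Agent.MUXE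
open _root_.Pool.Agent.RI _root_.Pool.Agent.NS _root_.Pool.Agent.N2
open _root_.Pool.Agent.NSE (IntP)
open _root_.Pool.Agent.MUX2 (GRG)
open _root_.Pool.Agent.MUXV (InK tX)

noncomputable section

namespace ORB

lemma pf (n f : ℕ) (hf : f ≠ 0) : (2 ^ (n + 2) * f).primeFactors ⊆ (2 * f).primeFactors := by
  intro p hp
  have h := Nat.mem_primeFactors.1 hp
  rw [Nat.mem_primeFactors]
  refine ⟨h.1, ?_, by omega⟩
  rcases (Nat.Prime.dvd_mul h.1).1 h.2.1 with h2 | h2
  · exact (h.1.dvd_of_dvd_pow h2).mul_right _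
  · exact h2.mul_left _

variable {V : ValuationSubring ℂ}

/-- the values of a polynomial over `V` -/
lemma ev {P : ℂ[X]} (hP : IntP V P) {x : ℂ} (hx : V.valuation x ≤ 1) :
    V.valuation (P.eval x) ≤ 1 := by
  rw [eval_eq_sum_range]
  refine Valuation.map_sum_le _ fun i _ => ?_
  rw [map_mul, map_pow]
  exact mul_le_one' (hP i) (pow_le_one' hx _)

lemma der {P : ℂ[X]} (hP : IntP V P) : IntP V (derivative P) := fun i => by
  rw [coeff_derivative, map_mul]
  refine mul_le_one' (hP _) ?_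
  have h : ((i : ℂ) + 1) = ((i + 1 : ℕ) : ℂ) := by push_cast; rfl
  rw [h]
  exact (V.valuation_le_one_iff _).2 (natCast_mem V.toSubring _)

/-- the logarithmic derivative and its numerator -/
lemma v_dlg {P Q : ℂ[X]} {x : ℂ} (hP : V.valuation (P.eval x) = 1)
    (hQ : V.valuation (Q.eval x) = 1) : V.valuation (dlg P Q x) =
    V.valuation ((derivative P).eval x * Q.eval x - P.eval x * (derivative Q).eval x) := by
  unfold dlg
  rw [map_div₀, map_mul (V.valuation) (P.eval x), hP, hQ, one_mul, div_one]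

lemma v_dlg_le {P Q : ℂ[X]} {x : ℂ} (hP : IntP V P) (hQ : IntP V Q) (hx : V.valuation x ≤ 1)
    (hP1 : V.valuation (P.eval x) = 1) (hQ1 : V.valuation (Q.eval x) = 1) :
    V.valuation (dlg P Q x) ≤ 1 := by
  rw [v_dlg hP1 hQ1]
  refine (Valuation.map_sub _ _ _).trans (max_le ?_ ?_)
  · rw [map_mul]
    exact mul_le_one' (ev (der hP) hx) hQ1.le
  · rw [map_mul]
    exact mul_le_one' hP1.le (ev (der hQ) hx)

/-- `dlX` is periodic -/
lemma dlX_per (L : PeriodPair) (a : ℕ) {z w : ℂ} (h : z - w ∈ L.lattice) :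
    dlX L a z = dlX L a w := by
  obtain ⟨h1, -⟩ := b_PER L
  unfold dlX
  have e1 : ee L z = ee L w := by
    have := h1 w (z - w) h
    rwa [add_sub_cancel] at this
  have e2 : ee L (a * z) = ee L (a * w) := by
    have h2 : (a : ℂ) * (z - w) ∈ L.lattice := by
      have := nsmul_mem h a
      rwa [nsmul_eq_mul] at this
    have := h1 (a * w) _ h2
    have e : (a : ℂ) * w + a * (z - w) = a * z := by ring
    rwa [e] at this
  rw [e1, e2]

/-- `Θ` is periodic -/
lemma th_per (L : PeriodPair) (a : ℂ) {H : Finset ℂ} (hH : IsHalf L a H) {z w : ℂ}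
    (h : z - w ∈ L.lattice) : ThetaH L H z = ThetaH L H w := by
  have := (b_TIN L a H H hH hH).2.2 w (z - w) h
  rwa [add_sub_cancel] at this

end ORB

open _root_.Pool.Agent.N2E.ORB

/-- (ORB) the sum over one orbit of `1 + N del` -/
theorem td_ORB (h1 : Sd_LAG) (h2 : Sd_PRD) (h4 : Sd_DST) (h5 : Sd_CON) (h6 : Sd_NE1)
    (h7 : Sd_GPO) : Sd_ORB := by
  intro A B V n f a m hE ι R u e a1 a3 hg i H hH x hx
  have hc : CQ A B := hE.ctx.cq
  have hv2 := hE.ctx.v2
  have hf0 : f ≠ 0 := by have := hE.f3; omega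
  have hm0 : m ≠ 0 := by
    rw [hE.hm]
    positivity
  have hmC : (m : ℂ) ≠ 0 := by exact_mod_cast hm0
  have hpf : m.primeFactors ⊆ (2 * f).primeFactors := by
    rw [hE.hm]
    exact pf n f hf0
  have h2m : 2 ∣ m := by
    rw [hE.hm]
    exact ((dvd_pow_self 2 (by omega)).mul_right _)
  -- facts on the points
  obtain ⟨-, -, -, hPT⟩ := te_PT te_TRA A B hE.ctx.ring (2 * f) ι R (by omega) i
  obtain ⟨-, -, -, hPT0⟩ := te_PT te_TRA A B hE.ctx.ring (2 * f) ι R (by omega) R.i0
  -- elements prime to `m` are units at `V`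
  have hunit : ∀ y : OO A B, IsCoprime y ((m : ℕ) : OO A B) →
      y ∉ idl (A := A) (B := B) 2 := by
    intro y hy hy2
    obtain ⟨s, t, hst⟩ := hy
    have hmax := hE.ctx.max.ne_top
    apply hmax
    rw [Ideal.eq_top_iff_one, ← hst]
    refine Ideal.add_mem _ (Ideal.mul_mem_left _ _ hy2) (Ideal.mul_mem_left _ _ ?_)
    obtain ⟨m', hm'⟩ := h2m
    rw [Ideal.mem_span_singleton]
    exact ⟨(m' : OO A B), by rw [hm']; push_cast; rfl⟩
  -- points congruent modulo `m`
  have hpt : ∀ y y' : OO A B, y - y' ∈ idl (A := A) (B := B) m →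
      pt R m i y - pt R m i y' ∈ (R.L i).lattice := by
    intro y y' hy
    obtain ⟨t, ht⟩ := Ideal.mem_span_singleton.1 hy
    have h8 := (hPT m hm0 hpf t).2.1
    have e1 : pt R m i y - pt R m i y' = (m : ℂ) * pt R m i t := by
      have e2 : emb y - emb y' = (m : ℂ) * emb t := by
        rw [← MUX.emb_sub hc, ht, MUX.emb_mul hc, MUX.emb_natCast hc]
      unfold pt
      field_simp
      linear_combination (R.om i * nI (R.b i)) * e2
    rw [e1]
    exact h8
  -- (1)
  have part1 : ∀ y : OO A B, IsCoprime y ((m : ℕ) : OO A B) →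
      V.valuation (muX R i * dlX (R.L i) a (pt R m i y) / u) ≤ 1 := by
    intro y hy
    obtain ⟨κ, k, P, Q, hP, hQ, -, hc1⟩ := h7 A B V n f a m hE ι R u e a1 a3 hg i H hH y
      (hunit y hy)
    obtain ⟨q1, q2, q3, q4, -, q6⟩ := hc1 1 (by rwa [one_mul])
    rw [one_mul] at q6
    have e1 : V.valuation (emb y) = 1 := hE.ctx.unit y (hunit y hy)
    have e2 : V.valuation (muX R i * emb y * dlX (R.L i) a (pt R m i y) / u) ≤ 1 := by
      rw [q6, map_mul]
      exact mul_le_one' (v_dlg_le hP hQ q1 q3 q4) q2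
    have e3 : muX R i * emb y * dlX (R.L i) a (pt R m i y) / u =
        emb y * (muX R i * dlX (R.L i) a (pt R m i y) / u) := by ring
    rwa [e3, map_mul, e1, one_mul] at e2
  refine ⟨part1 x hx, ?_⟩
  -- (2)
  intro y hy
  obtain ⟨c1, -, c3, c4, -, c6⟩ := h5 A B V n f a m hE
  have hom : IsNL (⊤ : Ideal (OO A B)) (R.L R.i0) (R.om R.i0) := by
    have := R.nl R.i0
    rwa [R.b0] at this
  obtain ⟨d1, d2, d3, d4, -⟩ := c6 (R.L R.i0) (R.om R.i0) hom
  set N : ℕ := 2 ^ n * f * a with hN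
  set L0 := R.L R.i0 with hL0
  set om := R.om R.i0 with hom0
  set c : ℕ → OO A B := fun k => cc N ((k : OO A B) * del) with hcdef
  have hcc : ∀ k, IsCoprime (c k) ((m : ℕ) : OO A B) := fun k => (c1 _).2.1
  have hc0 : c 0 = 1 := by
    simp [hcdef, cc]
  have hmma : idl (A := A) (B := B) (m * a) ≤ idl (A := A) (B := B) m := by
    refine Ideal.span_singleton_le_span_singleton.2 ⟨(a : OO A B), ?_⟩
    push_cast
    rfl
  -- the points `P + k R`
  set Rp : ℂ := emb (del : OO A B) * (a * om / 4) with hRp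
  have hck : ∀ k : ℕ, emb (c k) * (om / m) = om / m + k * Rp := by
    intro k
    rw [hcdef]
    simp only
    rw [d1, d2]
  have hP0 : ∀ c : ℕ, (c : ℂ) * (om / m) ∈ L0.lattice → 2 ^ (n + 2) * f ∣ c := by
    intro c hcL
    have h8 := ((hPT0 m hm0 hpf 1).2.2.2 ((c : ℕ) : OO A B)).1 (by
      rw [MUX.emb_natCast hc]
      exact hcL)
    obtain ⟨z, hz⟩ := h8
    have h9 := congrArg QuadraticAlgebra.re hz
    have h10 : (c : ℤ) = (m : ℤ) * z.re := by simpa using h9
    rw [← hE.hm]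
    exact Int.natCast_dvd_natCast.1 ⟨z.re, h10⟩
  have hmP : ((2 ^ (n + 2) * f : ℕ) : ℂ) * (om / m) ∈ L0.lattice := by
    rw [← hE.hm, mul_div_cancel₀ _ hmC]
    refine (hom.mem _).2 ⟨1, trivial, ?_⟩
    rw [MUX.emb_one hc, mul_one]
  obtain ⟨nk1, nk2, -⟩ := h6 V L0 u e a1 a3 hg hv2 (n + 2) f a hE.f3 hE.fo hE.ao hE.af (om / m)
    hmP hP0
  obtain ⟨S, hS1, hS2, hS3⟩ := (h4 V L0 u e a1 a3 hg hv2 (om / m) nk1 nk2).2 Rp d3 d4
  -- the data for `x_k = c_k x`
  have hxk : ∀ k, IsCoprime (c k * x) ((m : ℕ) : OO A B) := fun k => (hcc k).mul_left hx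
  have data := fun k : ℕ => h7 A B V n f a m hE ι R u e a1 a3 hg i H hH (c k * x)
    (hunit _ (hxk k))
  choose κ kk P Q hP hQ hκ hdat using data
  set ξ : ℕ → ℂ := fun j => xu L0 u e (om / m + j * Rp) with hξ
  have hξ0 : ξ 0 = xu L0 u e (om / m) := by
    rw [hξ]
    simp
  have D : ∀ j k : ℕ, V.valuation (ξ j) ≤ 1 ∧
      V.valuation ((P k).eval (ξ j)) = 1 ∧ V.valuation ((Q k).eval (ξ j)) = 1 ∧
      ThetaH (R.L i) H (pt R m i (c j * (c k * x))) * (Q k).eval (ξ j) =
        κ k * (P k).eval (ξ j) := by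
    intro j k
    obtain ⟨q1, -, q3, q4, q5, -⟩ := hdat k (c j) ((hcc j).mul_left (hxk k))
    rw [hck] at q1 q3 q4 q5
    exact ⟨q1, q3, q4, q5⟩
  -- the product of the values of `Θ` does not depend on `j`
  set Th : ℕ → ℂ := fun r => ThetaH (R.L i) H (pt R m i (c r * x)) with hTh
  have hcong : ∀ j k : ℕ, c j * (c k * x) - c (j + k) * x ∈ idl (A := A) (B := B) m := by
    intro j k
    have h8 := Ideal.mul_mem_left _ x (hmma (c3 j k))
    have h9 : x * (c j * c k - c (j + k)) = c j * (c k * x) - c (j + k) * x := by ring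
    have h10 : x * (cc N ((j : OO A B) * del) * cc N ((k : OO A B) * del) -
        cc N (((j + k : ℕ) : OO A B) * del)) = x * (c j * c k - c (j + k)) := rfl
    rw [h10, h9] at h8
    exact h8
  have hTjk : ∀ j k : ℕ, ThetaH (R.L i) H (pt R m i (c j * (c k * x))) = Th (j + k) :=
    fun j k => th_per _ _ hH (hpt _ _ (hcong j k))
  have hT4 : ∀ r : ℕ, Th (r + 4) = Th r := by
    intro r
    have h8 : c (r + 4) * x - c r * x ∈ idl (A := A) (B := B) m := by
      have h9 := hmma (c3 r 4)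
      have h10 := hmma c4
      have h11 : (c (r + 4) - c r) = -(c r * c 4 - c (r + 4)) + c r * (c 4 - 1) := by ring
      have h12 : c (r + 4) * x - c r * x = x * (c (r + 4) - c r) := by ring
      rw [h12, h11]
      refine Ideal.mul_mem_left _ _ (Ideal.add_mem _ (neg_mem h9) (Ideal.mul_mem_left _ _ h10))
    exact th_per _ _ hH (hpt _ _ h8)
  have hprod : ∀ j, j < 4 → ∏ k ∈ Finset.range 4, Th (j + k) = ∏ k ∈ Finset.range 4, Th k := by
    intro j hj
    have e4 := hT4 0
    have e5 := hT4 1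
    have e6 := hT4 2
    simp only [Finset.prod_range_succ, Finset.prod_range_zero, one_mul]
    norm_num at e4 e5 e6
    interval_cases j
    · simp
    · norm_num
      rw [e4]
      ring
    · norm_num
      rw [e4, e5]
      ring
    · norm_num
      rw [e4, e5, e6]
      ring
  have hκ0 : ∀ k, κ k ≠ 0 := by
    intro k h0
    have h8 := hκ k
    rw [h0, map_zero] at h8
    have h9 : V.valuation (2 : ℂ) ≠ 0 := (Valuation.ne_zero_iff _).2 two_ne_zero
    exact pow_ne_zero 2 (zpow_ne_zero (kk k) h9) h8.symm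
  -- the products of the rational functions
  obtain ⟨P', Q', hP', hQ', hPQ⟩ := h2 V ℕ (Finset.range 4) P Q (fun _ => 1)
    (ξ '' {j | j < 4}) (fun k _ => ⟨hP k, hQ k, by
      rintro _ ⟨j, -, rfl⟩
      exact ⟨(D j k).2.1, (D j k).2.2.1⟩⟩)
  have hne : ∀ {w : ℂ}, V.valuation w = 1 → w ≠ 0 := fun {w} hw h0 => by
    rw [h0, map_zero] at hw
    exact zero_ne_one hw
  have hval : ∀ j, j < 4 → P'.eval (ξ j) * ∏ k ∈ Finset.range 4, κ k =
      Q'.eval (ξ j) * ∏ k ∈ Finset.range 4, Th k := by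
    intro j hj
    obtain ⟨-, -, q3, -⟩ := hPQ (ξ j) ⟨j, hj, rfl⟩
    simp only [zpow_one] at q3
    have e1 : (∏ k ∈ Finset.range 4, Th k) * ∏ k ∈ Finset.range 4, (Q k).eval (ξ j) =
        (∏ k ∈ Finset.range 4, κ k) * ∏ k ∈ Finset.range 4, (P k).eval (ξ j) := by
      rw [← hprod j hj, ← Finset.prod_mul_distrib, ← Finset.prod_mul_distrib]
      refine Finset.prod_congr rfl fun k _ => ?_
      rw [← hTjk]
      exact (D j k).2.2.2
    have e2 : (∏ k ∈ Finset.range 4, (Q k).eval (ξ j)) ≠ 0 :=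
      Finset.prod_ne_zero_iff.2 fun k _ => hne (D j k).2.2.1
    apply mul_right_cancel₀ e2
    linear_combination (∏ k ∈ Finset.range 4, κ k) * q3 - Q'.eval (ξ j) * e1
  have hKK : (∏ k ∈ Finset.range 4, κ k) ≠ 0 := Finset.prod_ne_zero_iff.2 fun k _ => hκ0 k
  have hcross : ∀ j, j < 4 → P'.eval (ξ j) * Q'.eval (ξ 0) = P'.eval (ξ 0) * Q'.eval (ξ j) := by
    intro j hj
    apply mul_right_cancel₀ hKK
    linear_combination Q'.eval (ξ 0) * hval j hj - Q'.eval (ξ j) * hval 0 (by norm_num)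
  -- `LAG`
  obtain ⟨p1, p2, -, p4⟩ := hPQ (ξ 0) ⟨0, by norm_num, rfl⟩
  have hS1' : ξ 0 ∉ S := by
    rw [hξ0]
    exact hS1
  have hlag := (h1 V S (ξ 0) hS1' (D 0 0).1 (fun s hs => (hS2 s hs).1)).2.2.1 P' Q' hP' hQ' (by
    intro s hs
    obtain ⟨-, k, hk, rfl⟩ := hS2 s hs
    exact hcross k hk)
  have hdl : V.valuation (dlg P' Q' (ξ 0)) ^ 2 ≤ V.valuation (2 : ℂ) := by
    rw [v_dlg p1 p2]
    refine (pow_le_pow_left₀ zero_le hlag 2).trans ?_
    rw [hξ0]
    exact hS3
  -- the sum with the weights `emb x_k`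
  have hsum : ∑ k ∈ Finset.range 4, muX R i * emb (c k * x) *
      dlX (R.L i) a (pt R m i (c k * x)) / u = dlg P' Q' (ξ 0) * et L0 u (om / m) := by
    rw [p4, Finset.sum_mul]
    refine Finset.sum_congr rfl fun k _ => ?_
    obtain ⟨-, -, -, -, -, q6⟩ := hdat k 1 (by rw [one_mul]; exact hxk k)
    rw [one_mul, MUX.emb_one hc, one_mul] at q6
    rw [q6, hξ0]
    push_cast
    ring
  have het : V.valuation (et L0 u (om / m)) ≤ 1 := by
    obtain ⟨-, q2, -⟩ := hdat 0 1 (by rw [one_mul]; exact hxk 0)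
    rwa [MUX.emb_one hc, one_mul] at q2
  have hsum2 : V.valuation (∑ k ∈ Finset.range 4, muX R i * emb (c k * x) *
      dlX (R.L i) a (pt R m i (c k * x)) / u) ^ 2 ≤ V.valuation (2 : ℂ) := by
    rw [hsum, map_mul, mul_pow]
    exact (mul_le_of_le_one_right' (pow_le_one' het 2)).trans hdl
  -- replace the weights by `emb x`
  have v4 : V.valuation (4 : ℂ) = V.valuation (2 : ℂ) ^ 2 := by
    rw [← map_pow]
    norm_num
  have hdiff : V.valuation (∑ k ∈ Finset.range 4, (emb (c k * x) - emb x) *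
      (muX R i * dlX (R.L i) a (pt R m i (c k * x)) / u)) ≤ V.valuation (4 : ℂ) := by
    refine Valuation.map_sum_le _ fun k _ => ?_
    rw [map_mul]
    have e1 : V.valuation (emb (c k * x) - emb x) ≤ V.valuation (4 : ℂ) := by
      have e2 : c k * x - x = ((4 : ℕ) : OO A B) * (((2 ^ (n - 2) * f * a : ℕ) : OO A B) *
          ((k : OO A B) * del) * x) := by
        have e3 : N = 4 * (2 ^ (n - 2) * f * a) := by
          rw [hN]
          have e4 : 2 ^ n = 4 * 2 ^ (n - 2) := by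
            have := hE.n2
            obtain ⟨n', rfl⟩ := Nat.exists_eq_add_of_le this
            rw [Nat.add_sub_cancel_left, pow_add]
            norm_num
          rw [e4]
          ring
        have e5 : c k = 1 + ((N : ℕ) : OO A B) * ((k : OO A B) * del) := rfl
        rw [e5, e3]
        push_cast
        ring
      rw [← MUX.emb_sub hc, e2, MUX.emb_mul hc, MUX.emb_natCast hc, map_mul]
      push_cast
      exact mul_le_of_le_one_right' (hE.ctx.int _)
    exact (mul_le_mul' e1 (part1 _ (hxk k))).trans (by rw [mul_one])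
  have key : emb x * ((∑ k ∈ Finset.range 4, muX R i * dlX (R.L i) a (pt R m i (y k))) / u) =
      (∑ k ∈ Finset.range 4, muX R i * emb (c k * x) *
        dlX (R.L i) a (pt R m i (c k * x)) / u) -
      ∑ k ∈ Finset.range 4, (emb (c k * x) - emb x) *
        (muX R i * dlX (R.L i) a (pt R m i (c k * x)) / u) := by
    rw [← Finset.sum_sub_distrib, Finset.sum_div, Finset.mul_sum]
    refine Finset.sum_congr rfl fun k hk => ?_
    rw [dlX_per (R.L i) a (hpt _ _ (hy k (Finset.mem_range.1 hk)))]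
    show emb x * (muX R i * dlX (R.L i) a (pt R m i (c k * x)) / u) = _
    ring
  have vx : V.valuation (emb x) = 1 := hE.ctx.unit x (hunit x hx)
  have e7 : V.valuation ((∑ k ∈ Finset.range 4, muX R i *
      dlX (R.L i) a (pt R m i (y k))) / u) = V.valuation (emb x *
      ((∑ k ∈ Finset.range 4, muX R i * dlX (R.L i) a (pt R m i (y k))) / u)) := by
    rw [map_mul, vx, one_mul]
  rw [e7, key]
  have e8 := Valuation.map_sub V.valuation (∑ k ∈ Finset.range 4, muX R i * emb (c k * x) *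
        dlX (R.L i) a (pt R m i (c k * x)) / u)
      (∑ k ∈ Finset.range 4, (emb (c k * x) - emb x) *
        (muX R i * dlX (R.L i) a (pt R m i (c k * x)) / u))
  refine (pow_le_pow_left₀ zero_le e8 2).trans ?_
  rcases le_total (V.valuation (∑ k ∈ Finset.range 4, muX R i * emb (c k * x) *
        dlX (R.L i) a (pt R m i (c k * x)) / u))
      (V.valuation (∑ k ∈ Finset.range 4, (emb (c k * x) - emb x) *
        (muX R i * dlX (R.L i) a (pt R m i (c k * x)) / u))) with h | h
  · rw [max_eq_right h]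
    refine (pow_le_pow_left₀ zero_le hdiff 2).trans ?_
    rw [v4, ← pow_mul]
    exact pow_le_of_le_one zero_le hv2.le (by norm_num)
  · rw [max_eq_left h]
    exact hsum2

end

end Pool.Agent.N2E


end

section

/-!
# MUX-2R, block ER2, module FIN: the final form (helper25)
-/

set_option autoImplicit false

open Polynomial

namespace Pool.Agent.N2V

open _root_.MU3 _root_.Pool.Agent.MU3A _root_.Pool.Agent.MU3B _root_.Pool.Agent.MUX _root_.Pool.Agent.MUXU _root_.Pool.Agent.MUXE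
open _root_.Pool.Agent.RI _root_.Pool.Agent.NS _root_.Pool.Agent.N2
open _root_.Pool.Agent.N2E (dlg AutC cc)

noncomputable section

namespace FIN

lemma out_neg {A B : ℤ} {m : ℕ} (q : OO A B ⧸ idl (A := A) (B := B) m) :
    (Quotient.out (-q) : OO A B) - -(Quotient.out q : OO A B) ∈ idl (A := A) (B := B) m := by
  rw [← Ideal.Quotient.eq_zero_iff_mem, map_sub, map_neg, Ideal.Quotient.mk_out,
    Ideal.Quotient.mk_out]
  exact sub_self _

lemma dlX_neg (L : PeriodPair) (a : ℕ) (z : ℂ) : dlX L a (-z) = -dlX L a z := by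
  obtain ⟨-, h1⟩ := b_PER L
  unfold dlX
  rw [h1, show (a : ℂ) * -z = -(a * z) by ring, h1]
  ring

lemma finite_quot (A B : ℤ) (hr : RingE A B) {m : ℕ} (hm : m ≠ 0) :
    Finite (OO A B ⧸ idl (A := A) (B := B) m) := by
  haveI := hr.ded
  exact Ideal.finiteQuotientOfFreeOfNeBot _ (m0_ne A B hr hm)

/-- from the eighth to the fourth power -/
lemma half_pow {G : Type} [LinearOrderedCommGroupWithZero G] {x c : G} (hc : c ≤ 1) {i j : ℕ}
    (hij : 2 * j ≤ i) (h : x ^ 8 ≤ c ^ i) : x ^ 4 ≤ c ^ j := by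
  have h1 : (x ^ 4) ^ 2 ≤ (c ^ j) ^ 2 := by
    rw [← pow_mul, ← pow_mul]
    refine h.trans ?_
    rw [Nat.mul_comm j 2]
    exact pow_le_pow_right_of_le_one' hc hij
  exact (pow_le_pow_iff_left₀ zero_le' zero_le' two_ne_zero).1 h1

end FIN

open _root_.Pool.Agent.N2V.FIN in
/-- (FIN) the final form -/
theorem tv_FIN (hCTX : Sv_CTX) (hAUT : N2E.Sd_AUT) (hCON : Sv_CON) (hGLC : Sv_GLC)
    (hXXS : Sv_XXS) (hHEQ : Sv_HEQ) (hHAL : Sv_HAL) (hMAIN : Sv_MAIN) : Sv_FIN := by
  classical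
  intro hRF hVL A B P V f hS hT ι _ R u e a1 a3 hG om hom n hn H hH D h hD hcyc
  letI := algC h
  intro C hC1 hC2
  have hcq : CQ A B := hS.case.toCQ
  have hr : RingE A B := te_RNG A B hcq
  -- the levels
  obtain ⟨ha3, hao, haf⟩ := m0_aX (p := 2) (f := f) (Or.inl rfl) hS.f0
  have hlv : lvX 2 f n = 2 ^ (n + 2) * f := by
    simp [lvX, q0]; ring
  have h3f : 3 ∣ f := by
    have h1 : (3 : ℤ) ∣ 8 * (f : ℤ) := (dvd_mul_right _ _).trans hS.fD
    omega
  have hf3 : 3 ≤ f := Nat.le_of_dvd (Nat.pos_of_ne_zero hS.f0) h3f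
  have hred := hRF A B P V hS.case hS.hP hS.hV hT
  have hgood : ∀ L, NL A B L → ∃ u e a1 a3 : ℂ, GoodQ V L u e a1 a3 := by
    rintro L ⟨b, omL, hL⟩
    obtain ⟨u', e', a1', a3', h1, -⟩ := hred.1 b L omL hL
    exact ⟨u', e', a1', a3', h1⟩
  have hctx : CtxU A B P V := hCTX A B P V hS.case hS.hP hS.hV hT hgood
    (hVL A B V P hcq hS.case.two hS.hV hS.hP.mem hT)
  set m : ℕ := lvX 2 f n with hm
  set a : ℕ := aX 2 f with ha
  set m' : ℕ := 2 ^ (n + 1) * f with hm'
  have hSet : SetV A B P V n f a m m' :=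
    { ctx := hctx, tor := hT, n5 := hn, f3 := hf3, fd := h3f, fo := hS.fp, a3 := ha3, ao := hao,
      af := haf, hm := hlv, hm' := rfl }
  have hm0 : m ≠ 0 := by
    rw [hlv]; exact mul_ne_zero (pow_ne_zero _ two_ne_zero) hS.f0
  have ha0 : a ≠ 0 := by omega
  have hmm : m = 2 * m' := by rw [hlv, hm', pow_succ 2 (n + 1)]; ring
  have h2m : 2 * f ∣ m := by
    rw [hlv]
    exact Nat.mul_dvd_mul (dvd_pow_self 2 (by omega)) dvd_rfl
  have hmb := m0_ne A B hr hm0
  have hmab := m0_ne A B hr (mul_ne_zero hm0 ha0)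
  have hnl : ∃ L, NL A B L := ⟨R.L R.i0, R.b R.i0, R.om R.i0, R.nl R.i0⟩
  obtain ⟨g1, g2, g3⟩ := hGLC A B P V n f a m m' hSet D hcyc
  have hD' := g3 hD hnl
  obtain ⟨k1, -, -, -, -, -⟩ := hCON A B P V n f a m m' hSet
  -- the automorphisms
  have haut : ∀ b : OO A B, ∃ s : ℂ ≃+* ℂ, AutC (idl (m * a)) (cc (NN n f a) b) s := fun b =>
    hAUT A B hr hT hnl _ hmab _ (k1 b).2.2.1 (k1 b).1
  have hstc : ∀ τ : D ≃ₐ[kk A B] D, ∀ q ∈ XX R m h τ,
      (q.1, Ideal.Quotient.mk (idl (A := A) (B := B) m) (cc (NN n f a) w0) * q.2) ∈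
        XX R m h τ := by
    intro τ q hq
    obtain ⟨s, hs⟩ := haut w0
    have e1 : ((1 : ℕ) : OO A B) * w0 = w0 := by rw [Nat.cast_one, one_mul]
    refine (hXXS A B P V n f a m m' hSet ι R D h τ q hq).2 _ s (k1 w0).2.1 hs ?_
    exact g1 1 s (by rw [e1]; exact hs)
  have hstt : ∀ τ : D ≃ₐ[kk A B] D, ∀ q ∈ XX R m h τ, ∀ b : OO A B, (q.1, q.2 +
      Ideal.Quotient.mk (idl (A := A) (B := B) m) ((m' : OO A B) * b)) ∈ XX R m h τ := by
    intro τ q hq b
    have hx : IsCoprime (Quotient.out q.2 : OO A B) ((m : ℕ) : OO A B) := hq.1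
    have hx2 : IsCoprime (Quotient.out q.2 : OO A B) ((2 : ℕ) : OO A B) :=
      hx.of_isCoprime_of_dvd_right (_root_.map_dvd (Nat.castRingHom (OO A B))
        (⟨m', hmm⟩ : 2 ∣ m))
    obtain ⟨v, w, hvw⟩ := hx2
    obtain ⟨k, hk⟩ : ∃ k, a = 2 * k + 1 := ⟨(a - 1) / 2, by omega⟩
    set x : OO A B := Quotient.out q.2 with hxd
    set b' : OO A B := (a : OO A B) * v * b with hb'
    have e2 : cc m' b' = cc (NN n f a) (4 * (v * b)) := by
      unfold cc NN
      have h1 : (m' : OO A B) * (a : OO A B) =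
          ((2 ^ (n - 1) * f * a : ℕ) : OO A B) * 4 := by
        have h2 : m' * a = 2 ^ (n - 1) * f * a * 4 := by
          rw [hm']
          obtain ⟨n', rfl⟩ : ∃ n', n = n' + 1 := ⟨n - 1, by omega⟩
          rw [Nat.add_sub_cancel]
          ring
        exact_mod_cast congrArg (Nat.cast : ℕ → OO A B) h2
      rw [hb']
      linear_combination (v * b) * h1
    obtain ⟨s, hs⟩ := haut (4 * (v * b))
    rw [← e2] at hs
    have h4 := (hXXS A B P V n f a m m' hSet ι R D h τ q hq).2 (cc m' b') s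
      (by rw [e2]; exact (k1 _).2.1) hs (g2 b' s hs)
    have e3 : Ideal.Quotient.mk (idl (A := A) (B := B) m) (cc m' b') * q.2 =
        q.2 + Ideal.Quotient.mk (idl (A := A) (B := B) m) ((m' : OO A B) * b) := by
      have h5 : q.2 = Ideal.Quotient.mk (idl (A := A) (B := B) m) x :=
        (Ideal.Quotient.mk_out q.2).symm
      rw [h5, ← map_mul, ← map_add, Ideal.Quotient.eq, Ideal.mem_span_singleton]
      refine ⟨(k : OO A B) * b - (a : OO A B) * b * w, ?_⟩
      have h6 : (a : OO A B) = 2 * (k : OO A B) + 1 := by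
        exact_mod_cast congrArg (Nat.cast : ℕ → OO A B) hk
      have h7 : (m : OO A B) = 2 * (m' : OO A B) := by
        exact_mod_cast congrArg (Nat.cast : ℕ → OO A B) hmm
      have h8 : v * x + w * 2 = 1 := by
        have := hvw
        push_cast at this
        exact this
      unfold cc
      rw [hb', h7]
      linear_combination (m' * a * b) * h8 + (m' * b) * h6
    rw [e3] at h4
    exact h4
  -- the half systems
  have hhal := fun τ : D ≃ₐ[kk A B] D =>
    hHAL A B P V n f a m m' hSet ι R D h τ (hstc τ) (hstt τ)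
  choose S hS1 hS2 hS3 using hhal
  -- the two functions
  have hpt : ∀ (i : ι) (y y' : OO A B), y - y' ∈ idl (A := A) (B := B) m →
      pt R m i y - pt R m i y' ∈ (R.L i).lattice := fun i y y' hy =>
    N2E.XXS.pt_cong hr R (by have := hS.f0; omega) i hm0 hy
  have hptn : ∀ (i : ι) (y : OO A B), pt R m i (-y) = -pt R m i y := by
    intro i y
    have h1 : emb (-y) = -emb y := by
      obtain ⟨φ, hφ⟩ := hr.hom
      rw [← hφ, ← hφ, map_neg]
    unfold pt
    rw [h1]
    ring
  set F : ι × (OO A B ⧸ idl (A := A) (B := B) m) → ℂ := fun q =>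
    ThetaH (R.L q.1) (H q.1) (pt R m q.1 (Quotient.out q.2)) with hF
  set G : ι × (OO A B ⧸ idl (A := A) (B := B) m) → ℂ := fun q =>
    om (Quotient.out q.2) * muX R q.1 *
      dlX (R.L q.1) a (pt R m q.1 (Quotient.out q.2)) with hGd
  have hFn : ∀ q, F (q.1, -q.2) = F q := by
    intro q
    have h1 := hpt q.1 _ _ (out_neg q.2)
    rw [hptn] at h1
    show ThetaH (R.L q.1) (H q.1) (pt R m q.1 (Quotient.out (-q.2))) = _
    rw [N2E.ORB.th_per (R.L q.1) (a : ℂ) (hH q.1) h1]
    exact (b_TIN (R.L q.1) a (H q.1) (H q.1) (hH q.1) (hH q.1)).2.1 _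
  have hGn : ∀ q, G (q.1, -q.2) = G q := by
    intro q
    have h1 := hpt q.1 _ _ (out_neg q.2)
    rw [hptn] at h1
    show om (Quotient.out (-q.2)) * muX R q.1 *
      dlX (R.L q.1) a (pt R m q.1 (Quotient.out (-q.2))) = _
    have h2 : om (Quotient.out (-q.2)) = -om (Quotient.out q.2) := by
      rw [← hom.neg]
      apply hom.per
      have h3 := out_neg q.2
      rw [Ideal.mem_span_singleton] at h3 ⊢
      exact (_root_.map_dvd (Nat.castRingHom (OO A B)) h2m).trans h3
    rw [N2E.ORB.dlX_per (R.L q.1) a h1, dlX_neg, h2]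
    show _ = om (Quotient.out q.2) * muX R q.1 *
      dlX (R.L q.1) a (pt R m q.1 (Quotient.out q.2))
    ring
  have hCS : ∀ τ : D ≃ₐ[kk A B] D, C τ = ∏ q ∈ S τ, F q := by
    intro τ
    obtain ⟨S0, hS0, hC0⟩ := hC2 τ
    rw [hC0]
    exact ((hHEQ A B P V n f a m m' hSet ι R D h τ S0 hS0 F (fun q _ => hFn q)).1 (S τ)
      (hS1 τ))
  have hTT : ∀ τ : D ≃ₐ[kk A B] D, TT2 R om m a h τ = ∑ q ∈ S τ, G q := by
    intro τ
    have h1 := (hHEQ A B P V n f a m m' hSet ι R D h τ (S τ) (hS1 τ) G (fun q _ => hGn q)).2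
    unfold TT2
    rw [show (∑ᶠ q ∈ XX R m h τ, om (Quotient.out q.2) * muX R q.1 *
      dlX (R.L q.1) a (pt R m q.1 (Quotient.out q.2))) = ∑ᶠ q ∈ XX R m h τ, G q from rfl, h1]
    ring
  -- the Galois group is finite and commutative
  haveI := hT.fin _ hmb
  have := Pool.Agent.FX.fd_of_le h hD
  haveI : Finite (D ≃ₐ[kk A B] D) := inferInstance
  letI : Fintype (D ≃ₐ[kk A B] D) := Fintype.ofFinite _
  have hcom := m0_comm hT _ hmb D h hD
  have hcop : ∀ (τ : D ≃ₐ[kk A B] D), ∀ q ∈ S τ,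
      IsCoprime (Quotient.out q.2 : OO A B) ((m : ℕ) : OO A B) := fun τ q hq =>
    ((hS1 τ).sub q hq).1
  have hv2 : V.valuation (2 : ℂ) ≤ 1 := hctx.v2.le
  have hd3 : dR A ≤ 3 := by unfold dR; split <;> omega
  refine ⟨fun τ => ?_, ?_⟩
  · have key := (hMAIN A B P V n f a m m' hSet ι R u e a1 a3 hG H hH om hom
      (D ≃ₐ[kk A B] D) S hcop hS2 hS3).1 τ
    rw [hTT]
    exact half_pow hv2 (by omega) key
  · intro g hsq τ'
    have key := (hMAIN A B P V n f a m m' hSet ι R u e a1 a3 hG H hH om hom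
      (D ≃ₐ[kk A B] D) (fun τ => S (τ * τ')) (fun τ => hcop _) (fun τ => hS2 _)
      (fun τ => hS3 _)).2 g
    rw [finsum_eq_sum_of_fintype]
    have e1 : (∑ τ : D ≃ₐ[kk A B] D, (g τ : ℂ) * TT2 R om m a h (τ * τ')) =
        ∑ τ : D ≃ₐ[kk A B] D, (g τ : ℂ) * ∑ q ∈ S (τ * τ'), G q :=
      Finset.sum_congr rfl fun τ _ => by rw [hTT]
    rw [e1]
    refine half_pow hv2 (i := 3 * dR A + 9) (by omega) (key ?_)
    obtain ⟨w, hw, hwp⟩ := hsq
    rw [finprod_eq_prod_of_fintype] at hwp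
    obtain ⟨y, hy1, -⟩ := hC1 1
    have hyτ : ∀ τ : D ≃ₐ[kk A B] D, ((τ y : D) : ℂ) = C τ := by
      intro τ
      obtain ⟨y', hy', hy''⟩ := hC1 τ
      have : y' = y := Subtype.ext (hy'.trans hy1.symm)
      rw [← hy'', this]
    have hw4 : (⟨w, hw⟩ : D) ^ 2 = ∏ τ : D ≃ₐ[kk A B] D, (τ y) ^ g τ := by
      apply Subtype.ext
      rw [IntermediateField.coe_prod]
      rw [show (((⟨w, hw⟩ : D) ^ 2 : D) : ℂ) = w ^ 2 from rfl, hwp]
      refine Finset.prod_congr rfl (fun τ _ => ?_)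
      rw [← hyτ τ, ← m0_zpc (D := D)]
    refine ⟨(τ' ⟨w, hw⟩ : D), hD' _ (τ' ⟨w, hw⟩).2, fun k s hs => g1 k s hs _ (τ' ⟨w, hw⟩).2,
      ?_⟩
    have hw5 := congrArg τ' hw4
    rw [map_pow, map_prod] at hw5
    have hw6 := congrArg (fun y : D => (y : ℂ)) hw5
    push_cast at hw6
    rw [hw6]
    refine Finset.prod_congr rfl (fun τ _ => ?_)
    rw [show (∏ q ∈ S (τ * τ'), ThetaH (R.L q.1) (H q.1)
      (pt R m q.1 (Quotient.out q.2))) = C (τ * τ') from (hCS _).symm,
      hcom τ τ', map_zpow₀, ← hyτ (τ' * τ), m0_zpc]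
    rfl

end

end Pool.Agent.N2V


end

section

/-!
# MUX-2R, block ER2, module MAIN: both estimates for families of sets stable under `1 + N w0` and the translations by `m' b`
-/

set_option autoImplicit false

open Polynomial

namespace Pool.Agent.N2V

open _root_.MU3 _root_.Pool.Agent.MU3A _root_.Pool.Agent.MU3B _root_.Pool.Agent.MUX _root_.Pool.Agent.MUXU _root_.Pool.Agent.MUXE
open _root_.Pool.Agent.RI _root_.Pool.Agent.NS _root_.Pool.Agent.N2
open _root_.Pool.Agent.NSE (IntP)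
open _root_.Pool.Agent.MUX2 (GRG)
open _root_.Pool.Agent.MUXV (InK tX)
open _root_.Pool.Agent.N2E (dlg AutC cc)

noncomputable section

namespace MAIN

lemma p8_add (V : ValuationSubring ℂ) (c : V.ValueGroup) (x y : ℂ)
    (hx : V.valuation x ^ 8 ≤ c) (hy : V.valuation y ^ 8 ≤ c) : V.valuation (x + y) ^ 8 ≤ c := by
  rcases le_total (V.valuation x) (V.valuation y) with h | h
  · exact (pow_le_pow_left' ((V.valuation.map_add x y).trans (max_le h le_rfl)) 8).trans hy
  · exact (pow_le_pow_left' ((V.valuation.map_add x y).trans (max_le le_rfl h)) 8).trans hx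

lemma p8_sum (V : ValuationSubring ℂ) (c : V.ValueGroup) {α : Type} (s : Finset α) (F : α → ℂ)
    (h : ∀ i ∈ s, V.valuation (F i) ^ 8 ≤ c) : V.valuation (∑ i ∈ s, F i) ^ 8 ≤ c := by
  classical
  induction s using Finset.induction_on with
  | empty => simp
  | insert i s hi ih =>
    rw [Finset.sum_insert hi]
    exact p8_add V c _ _ (h i (Finset.mem_insert_self _ _))
      (ih fun j hj => h j (Finset.mem_insert_of_mem hj))

lemma p8_mul (V : ValuationSubring ℂ) (c : V.ValueGroup) (a x : ℂ) (ha : V.valuation a ≤ 1)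
    (hx : V.valuation x ^ 8 ≤ c) : V.valuation (a * x) ^ 8 ≤ c := by
  rw [map_mul, mul_pow]
  calc V.valuation a ^ 8 * V.valuation x ^ 8 ≤ 1 * V.valuation x ^ 8 :=
        mul_le_mul_left (pow_le_one' ha 8) _
    _ = V.valuation x ^ 8 := one_mul _
    _ ≤ c := hx

lemma _root_.Pool.Agent.N2V.MAIN.v_int (V : ValuationSubring ℂ) (g : ℤ) : V.valuation (g : ℂ) ≤ 1 :=
  (V.valuation_le_one_iff _).2 (intCast_mem V g)

lemma _root_.Pool.Agent.N2V.MAIN.dvd_mem {A B : ℤ} {M N : ℕ} (h : M ∣ N) (x : OO A B) (hx : x ∈ idl (A := A) (B := B) N) :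
    x ∈ idl (A := A) (B := B) M := by
  rw [Ideal.mem_span_singleton] at hx ⊢
  exact (_root_.map_dvd (Nat.castRingHom (OO A B)) h).trans hx

end MAIN

open _root_.Pool.Agent.N2V.MAIN in
theorem tv_MAIN (hCON : Sv_CON) (hSQR : Sv_SQR) (hORB : Sv_ORB) (hCOS : Sv_COS) : Sv_MAIN := by
  classical
  intro A B P V n f a m m' hSet ι R u e a1 a3 hG H hH om hom J _ S hcop hst htr
  obtain ⟨k1, -, -, -, -, -⟩ := hCON A B P V n f a m m' hSet
  have hC := hSet.ctx
  have hcq : CQ A B := hC.cq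
  have hm := hSet.hm
  have hm' := hSet.hm'
  have hf0 : f ≠ 0 := by have := hSet.f3; omega
  have hm0 : m ≠ 0 := by
    rw [hm]
    positivity
  have hmC : (m : ℂ) ≠ 0 := by exact_mod_cast hm0
  have hpf : m.primeFactors ⊆ (2 * f).primeFactors := by
    rw [hm]
    exact Pool.Agent.N2E.ORB.pf n f hf0
  set N : ℕ := NN n f a with hN
  set ck : ℕ → OO A B := fun k => cc N ((k : OO A B) * w0) with hck
  -- divisibilities
  have d1 : 2 * f ∣ m' := by
    rw [hm']
    exact Nat.mul_dvd_mul (dvd_pow_self 2 (by omega)) dvd_rfl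
  have d0 : m' ∣ m := by
    rw [hm, hm']
    exact Nat.mul_dvd_mul (pow_dvd_pow 2 (by omega)) dvd_rfl
  have d2 : 2 * f ∣ m := d1.trans d0
  have d4 : 2 * f ∣ 4 * f := Nat.mul_dvd_mul (by norm_num) dvd_rfl
  have d5 : 4 ∣ 4 * f := dvd_mul_right 4 f
  have d6 : 2 ∣ m := (dvd_mul_right 2 f).trans d2
  -- the orbits
  have hcos := fun j => hCOS A B P V n f a m m' hSet ι (S j) (hcop j) (hst j) (htr j)
  choose T hTc hTs hTp using hcos
  -- representatives
  have hout1 : ∀ y : OO A B,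
      (Quotient.out (Ideal.Quotient.mk (idl (A := A) (B := B) m) y) : OO A B) - y ∈
        idl (A := A) (B := B) m := by
    intro y
    refine Ideal.Quotient.eq.1 ?_
    exact Quotient.out_eq _
  have hck1 : ∀ k, ck k - 1 ∈ idl (A := A) (B := B) (4 * f) := fun k => (k1 _).2.2.2.2.1
  have hck0 : ∀ k, ck k ≠ 0 := fun k => (k1 _).2.2.1
  have hckc : ∀ k, IsCoprime (ck k) ((m : ℕ) : OO A B) := fun k => (k1 _).2.1
  have hom1 : ∀ (x : OO A B) (k l : ℕ), om (Quotient.out (Ideal.Quotient.mk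
      (idl (A := A) (B := B) m) (ck k * x + (m' : OO A B) * bb l))) = om x := by
    intro x k l
    apply hom.per
    have h1 := _root_.Pool.Agent.N2V.MAIN.dvd_mem d2 _ (hout1 (ck k * x + (m' : OO A B) * bb l))
    have h2 : (m' : OO A B) * bb l ∈ idl (A := A) (B := B) (2 * f) :=
      _root_.Pool.Agent.N2V.MAIN.dvd_mem d1 _ (Ideal.mul_mem_right _ _ (Ideal.mem_span_singleton_self _))
    have h3 : (ck k - 1) * x ∈ idl (A := A) (B := B) (2 * f) :=
      _root_.Pool.Agent.N2V.MAIN.dvd_mem d4 _ (Ideal.mul_mem_right _ _ (hck1 k))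
    have h4 := Ideal.add_mem _ (Ideal.add_mem _ h1 h2) h3
    have h5 : (Quotient.out (Ideal.Quotient.mk (idl (A := A) (B := B) m)
        (ck k * x + (m' : OO A B) * bb l)) : OO A B) -
        (ck k * x + (m' : OO A B) * bb l) + (m' : OO A B) * bb l + (ck k - 1) * x =
        (Quotient.out (Ideal.Quotient.mk (idl (A := A) (B := B) m)
        (ck k * x + (m' : OO A B) * bb l)) : OO A B) - x := by ring
    rwa [h5] at h4
  -- points congruent modulo `m`
  have hpt : ∀ (i : ι) (y y' : OO A B), y - y' ∈ idl (A := A) (B := B) m →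
      pt R m i y - pt R m i y' ∈ (R.L i).lattice := by
    intro i y y' hy
    obtain ⟨-, -, -, hPT⟩ := te_PT te_TRA A B hC.ring (2 * f) ι R (by omega) i
    obtain ⟨t, ht⟩ := Ideal.mem_span_singleton.1 hy
    have h8 := (hPT m hm0 hpf t).2.1
    have e1 : pt R m i y - pt R m i y' = (m : ℂ) * pt R m i t := by
      have e2 : emb y - emb y' = (m : ℂ) * emb t := by
        rw [← MUX.emb_sub hcq, ht, MUX.emb_mul hcq, MUX.emb_natCast hcq]
      unfold pt
      field_simp
      linear_combination (R.om i * nI (R.b i)) * e2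
    rw [e1]
    exact h8
  have hdl : ∀ (i : ι) (y : OO A B), dlX (R.L i) a (pt R m i (Quotient.out
      (Ideal.Quotient.mk (idl (A := A) (B := B) m) y))) = dlX (R.L i) a (pt R m i y) :=
    fun i y => Pool.Agent.N2E.ORB.dlX_per (R.L i) a (hpt i _ _ (hout1 y))
  have hth : ∀ (i : ι) (y : OO A B), ThetaH (R.L i) (H i) (pt R m i (Quotient.out
      (Ideal.Quotient.mk (idl (A := A) (B := B) m) y))) =
      ThetaH (R.L i) (H i) (pt R m i y) :=
    fun i y => Pool.Agent.N2E.ORB.th_per (R.L i) (a : ℂ) (hH i) (hpt i _ _ (hout1 y))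
  -- the values
  have hv2 : V.valuation (2 : ℂ) < 1 := hC.v2
  have hcop2 : ∀ x : OO A B, IsCoprime x ((m : ℕ) : OO A B) →
      IsCoprime x ((2 * f : ℕ) : OO A B) := by
    intro x hx
    exact hx.of_isCoprime_of_dvd_right (_root_.map_dvd (Nat.castRingHom (OO A B)) d2)
  have h2P : ((2 : ℕ) : OO A B) ∈ P := by
    have h1 := (hC.pw 1 ((2 : ℕ) : OO A B)).2 (by
      rw [MUX.emb_natCast hcq, pow_one, pow_two]
      push_cast
      exact mul_le_of_le_one_left' hv2.le)
    rwa [pow_one] at h1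
  have hnP : ∀ x : OO A B, IsCoprime x ((m : ℕ) : OO A B) → x ∉ P := by
    intro x hx hxP
    obtain ⟨s, t, hst⟩ := hx
    apply hC.max.ne_top
    rw [Ideal.eq_top_iff_one, ← hst]
    refine Ideal.add_mem _ (Ideal.mul_mem_left _ _ hxP) (Ideal.mul_mem_left _ _ ?_)
    obtain ⟨q, hq⟩ := d6
    rw [hq, Nat.cast_mul]
    exact P.mul_mem_right _ h2P
  have hsq1 : ∀ x : OO A B, IsCoprime x ((m : ℕ) : OO A B) →
      V.valuation (om x - emb x) ^ 2 ≤ V.valuation (2 : ℂ) := by
    intro x hx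
    have h1 := hom.cong x (hcop2 x hx)
    have h2 : V.valuation (1 - emb x) ^ 2 ≤ V.valuation (2 : ℂ) := by
      have h3 := hC.one x (hnP x hx)
      have h4 := (hC.pw 1 (x - 1)).1 (by rwa [pow_one])
      rw [pow_one, MUX.emb_sub hcq, MUX.emb_one hcq] at h4
      rwa [Valuation.map_sub_swap] at h4
    have h5 : om x - emb x = (om x - 1) + (1 - emb x) := by ring
    rw [h5]
    rcases le_total (V.valuation (om x - 1)) (V.valuation (1 - emb x)) with h | h
    · exact (pow_le_pow_left' ((V.valuation.map_add _ _).trans (max_le h le_rfl)) 2).trans h2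
    · exact (pow_le_pow_left' ((V.valuation.map_add _ _).trans (max_le le_rfl h)) 2).trans h1
  have hom2 : ∀ x : OO A B, IsCoprime x ((m : ℕ) : OO A B) → V.valuation (om x) ≤ 1 := by
    intro x hx
    have h1 : om x = (om x - emb x) + emb x := by ring
    rw [h1]
    refine (V.valuation.map_add _ _).trans (max_le ?_ (hC.int x))
    by_contra h
    push Not at h
    exact absurd ((hsq1 x hx).trans_lt hv2) (not_lt.2 (one_lt_pow₀ h two_ne_zero).le)
  set E : ι → OO A B → ℂ := fun i y => muX R i * FFib R a m m' i y / u with hE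
  have hcx : ∀ (x : OO A B) (k : ℕ), IsCoprime x ((m : ℕ) : OO A B) →
      IsCoprime (ck k * x) ((m : ℕ) : OO A B) := fun x k hx => (hckc k).mul_left hx
  have hE1 : ∀ (i : ι) (x : OO A B), IsCoprime x ((m : ℕ) : OO A B) →
      V.valuation (E i x) ≤ V.valuation (2 : ℂ) := fun i x hx =>
    (hORB A B P V n f a m m' hSet ι R u e a1 a3 hG (H) i (hH i) x hx).1
  have hEo : ∀ (i : ι) (x : OO A B), IsCoprime x ((m : ℕ) : OO A B) →
      V.valuation (∑ k ∈ Finset.range 4, E i (ck k * x)) ^ 8 ≤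
        V.valuation (2 : ℂ) ^ (3 * dR A + 5) := by
    intro i x hx
    have h1 := (hORB A B P V n f a m m' hSet ι R u e a1 a3 hG (H) i (hH i) x hx).2
      (fun k => ck k * x) (fun k _ => by
        have h2 : ck k * x - cc (NN n f a) ((k : OO A B) * w0) * x = 0 := sub_self _
        rw [h2]
        exact Ideal.zero_mem _)
    rw [Finset.sum_div] at h1
    exact h1
  -- the sum over an orbit
  have hsum : ∀ j, (∑ q ∈ S j, om (Quotient.out q.2) * muX R q.1 *
      dlX (R.L q.1) a (pt R m q.1 (Quotient.out q.2))) / u =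
      ∑ t ∈ T j, om t.2 * ∑ k ∈ Finset.range 4, E t.1 (ck k * t.2) := by
    intro j
    rw [hTs j (fun q => om (Quotient.out q.2) * muX R q.1 *
      dlX (R.L q.1) a (pt R m q.1 (Quotient.out q.2))), Finset.sum_div]
    refine Finset.sum_congr rfl fun t _ => ?_
    rw [Finset.sum_div, Finset.mul_sum]
    refine Finset.sum_congr rfl fun k _ => ?_
    have h1 : ∀ l, om (Quotient.out (Ideal.Quotient.mk (idl (A := A) (B := B) m)
        (cc (NN n f a) ((k : OO A B) * w0) * t.2 + (m' : OO A B) * bb l))) * muX R t.1 *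
        dlX (R.L t.1) a (pt R m t.1 (Quotient.out (Ideal.Quotient.mk
          (idl (A := A) (B := B) m)
          (cc (NN n f a) ((k : OO A B) * w0) * t.2 + (m' : OO A B) * bb l)))) =
        om t.2 * muX R t.1 * dlX (R.L t.1) a (pt R m t.1 (ck k * t.2 +
          (m' : OO A B) * bb l)) := by
      intro l
      rw [hdl]
      have := hom1 t.2 k l
      simp only [hck] at this ⊢
      rw [this]
    simp only [h1]
    rw [← Finset.mul_sum, hE]
    simp only [FFib]
    ring
  constructor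
  · -- the first estimate
    intro j
    rw [hsum j]
    exact p8_sum V _ _ _ fun t ht => p8_mul V _ _ _ (hom2 _ (hTc j t ht))
      (hEo t.1 t.2 (hTc j t ht))
  · -- the second estimate
    intro g hyy
    obtain ⟨w, hw1, hw2, hw3⟩ := hyy
    have hdom : IsDomain (OO A B) := MUX.isDomain hcq
    have hinj : ∀ k, Function.Injective (fun t : ι × OO A B => (t.1, ck k * t.2)) := by
      rintro k ⟨i, x⟩ ⟨i', x'⟩ h
      simp only [Prod.mk.injEq] at h
      rw [h.1, mul_left_cancel₀ (hck0 k) h.2]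
    have hprod : ∀ j, ∏ q ∈ S j, ThetaH (R.L q.1) (H q.1) (pt R m q.1 (Quotient.out q.2)) =
        ∏ k : Fin 4, ∏ t ∈ T j, GFib R H m m' t.1 (ck k * t.2) := by
      intro j
      rw [hTp j (fun q => ThetaH (R.L q.1) (H q.1) (pt R m q.1 (Quotient.out q.2))),
        Finset.prod_comm' (t' := Finset.range 4) (s' := fun _ => T j)
          (fun x y => by simp), Finset.prod_range]
      refine Finset.prod_congr rfl fun k _ => Finset.prod_congr rfl fun t _ => ?_
      simp only [hth]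
      rfl
    have hsq := hSQR A B P V n f a m m' hSet ι R u e a1 a3 hG H hH (J × Fin 4)
      (fun p => (T p.1).image (fun t : ι × OO A B => (t.1, ck p.2 * t.2))) (fun p => g p.1)
      (by
        rintro ⟨j, k⟩ q hq
        simp only [Finset.mem_image] at hq
        obtain ⟨t, ht, rfl⟩ := hq
        exact hcx _ _ (hTc j t ht))
      ⟨w, hw1, hw2, by
        rw [hw3, Fintype.prod_prod_type]
        refine Finset.prod_congr rfl fun j _ => ?_
        rw [hprod j, ← Finset.prod_zpow]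
        refine Finset.prod_congr rfl fun k _ => ?_
        rw [Finset.prod_image fun x _ z _ h => hinj k h]⟩
    have h0 : ∑ p : J × Fin 4, (g p.1 : ℂ) *
        ∑ q ∈ (T p.1).image (fun t : ι × OO A B => (t.1, ck p.2 * t.2)),
          emb q.2 * muX R q.1 * FFib R a m m' q.1 q.2 =
        ∑ j, (g j : ℂ) * ∑ t ∈ T j, ∑ k ∈ Finset.range 4,
          emb (ck k * t.2) * muX R t.1 * FFib R a m m' t.1 (ck k * t.2) := by
      rw [Fintype.sum_prod_type]
      refine Finset.sum_congr rfl fun j _ => ?_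
      rw [Finset.sum_comm, Finset.sum_range, Finset.mul_sum]
      refine Finset.sum_congr rfl fun k _ => ?_
      rw [Finset.sum_image fun x _ z _ h => hinj k h]
    rw [h0] at hsq
    -- the difference
    have hdiff : (∑ j, (g j : ℂ) * ∑ q ∈ S j, om (Quotient.out q.2) * muX R q.1 *
          dlX (R.L q.1) a (pt R m q.1 (Quotient.out q.2))) / u =
        (∑ j, (g j : ℂ) * ∑ t ∈ T j, ∑ k ∈ Finset.range 4,
          emb (ck k * t.2) * muX R t.1 * FFib R a m m' t.1 (ck k * t.2)) / u +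
        ∑ j, (g j : ℂ) * ∑ t ∈ T j, ((om t.2 - emb t.2) *
            ∑ k ∈ Finset.range 4, E t.1 (ck k * t.2) +
          ∑ k ∈ Finset.range 4, -emb ((ck k - 1) * t.2) * E t.1 (ck k * t.2)) := by
      rw [Finset.sum_div, Finset.sum_div, ← Finset.sum_add_distrib]
      refine Finset.sum_congr rfl fun j _ => ?_
      rw [mul_div_assoc, mul_div_assoc, ← mul_add, hsum j, Finset.sum_div,
        ← Finset.sum_add_distrib]
      congr 1
      refine Finset.sum_congr rfl fun t _ => ?_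
      rw [Finset.mul_sum, Finset.mul_sum, Finset.sum_div, ← Finset.sum_add_distrib,
        ← Finset.sum_add_distrib]
      refine Finset.sum_congr rfl fun k _ => ?_
      have h4 : emb ((ck k - 1) * t.2) = emb (ck k * t.2) - emb t.2 := by
        rw [← MUX.emb_sub hcq]
        congr 1
        ring
      rw [h4, hE]
      ring
    rw [hdiff]
    have hle13 : V.valuation (2 : ℂ) ^ (3 * dR A + 13) ≤ V.valuation (2 : ℂ) ^ (3 * dR A + 9) :=
      pow_le_pow_right_of_le_one' hv2.le (by omega)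
    refine p8_add V _ _ _ (hsq.trans hle13) (p8_sum V _ _ _ fun j _ => p8_mul V _ _ _
      (_root_.Pool.Agent.N2V.MAIN.v_int V _) (p8_sum V _ _ _ fun t ht => ?_))
    have hts := hTc j t ht
    refine p8_add V _ _ _ ?_ (p8_sum V _ _ _ fun k _ => ?_)
    · rw [map_mul, mul_pow]
      have h1 : V.valuation (om t.2 - emb t.2) ^ 8 ≤ V.valuation (2 : ℂ) ^ 4 := by
        have h2 := pow_le_pow_left' (hsq1 _ hts) 4
        rwa [← pow_mul] at h2
      calc V.valuation (om t.2 - emb t.2) ^ 8 *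
            V.valuation (∑ k ∈ Finset.range 4, E t.1 (ck k * t.2)) ^ 8 ≤
          V.valuation (2 : ℂ) ^ 4 * V.valuation (2 : ℂ) ^ (3 * dR A + 5) :=
            mul_le_mul' h1 (hEo _ _ hts)
        _ = V.valuation (2 : ℂ) ^ (3 * dR A + 9) := by
            rw [← pow_add]
            congr 1
            ring
    · have h5 := _root_.Pool.Agent.N2V.MAIN.dvd_mem d5 _ (Ideal.mul_mem_right t.2 _ (hck1 k))
      rw [Ideal.mem_span_singleton] at h5
      obtain ⟨z, hz⟩ := h5
      have h6 : V.valuation (emb ((ck k - 1) * t.2)) ≤ V.valuation (2 : ℂ) ^ 2 := by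
        rw [hz, MUX.emb_mul hcq, map_mul]
        have h7 : (emb ((4 : ℕ) : OO A B) : ℂ) = 2 ^ 2 := by
          rw [MUX.emb_natCast hcq]
          norm_num
        rw [h7, map_pow]
        exact mul_le_of_le_one_right' (hC.int z)
      have h8 : V.valuation (-emb ((ck k - 1) * t.2) * E t.1 (ck k * t.2)) ≤
          V.valuation (2 : ℂ) ^ 3 := by
        rw [map_mul, Valuation.map_neg, pow_succ (V.valuation (2 : ℂ)) 2]
        exact mul_le_mul' h6 (hE1 _ _ (hcx _ _ hts))
      calc V.valuation (-emb ((ck k - 1) * t.2) * E t.1 (ck k * t.2)) ^ 8 ≤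
          (V.valuation (2 : ℂ) ^ 3) ^ 8 := pow_le_pow_left' h8 8
        _ = V.valuation (2 : ℂ) ^ 24 := by rw [← pow_mul]
        _ ≤ V.valuation (2 : ℂ) ^ (3 * dR A + 9) :=
          pow_le_pow_right_of_le_one' hv2.le (by
            unfold dR
            split_ifs <;> omega)

end

end Pool.Agent.N2V


end

section

/-!
# MUX-2R, block ER2: module DS2, the distribution relation for multiplication by 2 (helper44)
-/

set_option autoImplicit false

open Polynomial

namespace Pool.Agent.N2V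

open _root_.MU3 _root_.Pool.Agent.MU3A _root_.Pool.Agent.MU3B _root_.Pool.Agent.MUX _root_.Pool.Agent.MUXU _root_.Pool.Agent.MUXE
open _root_.Pool.Agent.RI _root_.Pool.Agent.NS _root_.Pool.Agent.N2

noncomputable section

namespace DS2

theorem nat_mul {M : PeriodPair} (k : ℕ) {w : ℂ} (h : w ∈ M.lattice) :
    (k : ℂ) * w ∈ M.lattice := by
  have := nsmul_mem h k
  rwa [nsmul_eq_mul] at this

theorem two_mem {M : PeriodPair} {w : ℂ} (h : w ∈ M.lattice) : 2 * w ∈ M.lattice := by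
  have := nat_mul (M := M) 2 h
  exact_mod_cast this

theorem cop_mem {M : PeriodPair} {a : ℕ} (ha : ¬ 2 ∣ a) {w : ℂ} (h2 : 2 * w ∈ M.lattice)
    (h : (a : ℂ) * w ∈ M.lattice) : w ∈ M.lattice := by
  obtain ⟨k, hk⟩ : ∃ k, a = 2 * k + 1 := ⟨a / 2, by omega⟩
  have e : w = (a : ℂ) * w - (k : ℂ) * (2 * w) := by
    rw [hk]
    push_cast
    ring
  rw [e]
  exact sub_mem h (nat_mul k h2)

/-- the half system `2 H` -/
theorem half {L : PeriodPair} {a : ℕ} (ha : ¬ 2 ∣ a) {H : Finset ℂ}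
    (hH : IsHalf L (a : ℂ) H) : IsHalf L (a : ℂ) (H.image fun h => 2 * h) := by
  refine ⟨?_, ?_, ?_, ?_, ?_⟩
  · intro q hq
    obtain ⟨h, hh, rfl⟩ := Finset.mem_image.1 hq
    rw [mul_left_comm]
    exact two_mem (hH.mem h hh)
  · intro q hq h2
    obtain ⟨h, hh, rfl⟩ := Finset.mem_image.1 hq
    refine hH.ne h hh (cop_mem ha h2 ?_)
    rw [mul_left_comm]
    exact two_mem (hH.mem h hh)
  · intro q hq q' hq' h2
    obtain ⟨h, hh, rfl⟩ := Finset.mem_image.1 hq
    obtain ⟨h', hh', rfl⟩ := Finset.mem_image.1 hq'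
    have : h = h' := by
      refine hH.inj h hh h' hh' (cop_mem ha ?_ ?_)
      · rw [mul_sub]; exact h2
      · rw [mul_sub]; exact sub_mem (hH.mem h hh) (hH.mem h' hh')
    rw [this]
  · intro q hq q' hq' h2
    obtain ⟨h, hh, rfl⟩ := Finset.mem_image.1 hq
    obtain ⟨h', hh', rfl⟩ := Finset.mem_image.1 hq'
    refine hH.neg h hh h' hh' (cop_mem ha ?_ ?_)
    · rw [mul_add]; exact h2
    · rw [mul_add]; exact add_mem (hH.mem h hh) (hH.mem h' hh')
  · intro z hz hzL
    obtain ⟨k, hk⟩ : ∃ k, a = 2 * k + 1 := ⟨a / 2, by omega⟩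
    have e1 : z = 2 * (((k + 1 : ℕ) : ℂ) * z) - (a : ℂ) * z := by
      rw [hk]
      push_cast
      ring
    have h1 : (a : ℂ) * (((k + 1 : ℕ) : ℂ) * z) ∈ L.lattice := by
      rw [mul_left_comm]
      exact nat_mul _ hz
    have h2 : ((k + 1 : ℕ) : ℂ) * z ∉ L.lattice := by
      intro h
      refine hzL ?_
      rw [e1]
      exact sub_mem (two_mem h) hz
    obtain ⟨h, hh, h9⟩ := hH.surj _ h1 h2
    refine ⟨2 * h, Finset.mem_image_of_mem _ hh, ?_⟩
    rcases h9 with h9 | h9
    · left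
      have e : z - 2 * h = 2 * (((k + 1 : ℕ) : ℂ) * z - h) - (a : ℂ) * z := by
        linear_combination e1
      rw [e]
      exact sub_mem (two_mem h9) hz
    · right
      have e : z + 2 * h = 2 * (((k + 1 : ℕ) : ℂ) * z + h) - (a : ℂ) * z := by
        linear_combination e1
      rw [e]
      exact sub_mem (two_mem h9) hz

/-- logarithmic derivatives of a product -/
theorem dprod (S : Finset ℂ) (F : ℂ → ℂ → ℂ) (c : ℂ → ℂ) (z : ℂ)
    (h : ∀ s ∈ S, HasDerivAt (F s) (c s * F s z) z) :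
    HasDerivAt (fun x => ∏ s ∈ S, F s x) ((∑ s ∈ S, c s) * ∏ s ∈ S, F s z) z := by
  classical
  induction S using Finset.induction_on with
  | empty => simpa using hasDerivAt_const z (1 : ℂ)
  | insert s S hs ih =>
    have h1 := (h s (Finset.mem_insert_self s S)).mul
      (ih fun t ht => h t (Finset.mem_insert_of_mem ht))
    have e : (fun x => ∏ t ∈ insert s S, F t x) = (F s) * fun x => ∏ t ∈ S, F t x := by
      funext x
      rw [Finset.prod_insert hs]
      rfl
    rw [e, Finset.sum_insert hs, Finset.prod_insert hs]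
    refine h1.congr_deriv ?_
    ring

end DS2

open _root_.Pool.Agent.N2V.DS2 in
theorem tv_DS2 : Sv_DS2 := by
  intro L R hR a H ha hH
  have h20 : (2 : ℂ) ≠ 0 := two_ne_zero
  have hisg : Isg L L 2 := fun w hw => two_mem hw
  have ha0 : a ≠ 0 := by
    rintro rfl
    exact ha (dvd_zero 2)
  have ha0' : (a : ℂ) ≠ 0 := by exact_mod_cast ha0
  have hcard : R.card = 3 := by
    have h1 := b_NUM L 2 R h20 (fun w hw => two_mem hw) ⟨hR.mem, hR.ne, hR.inj, hR.surj⟩
    rw [Complex.norm_ofNat] at h1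
    have h2 : ((R.card : ℕ) : ℝ) = 3 := by linarith
    exact_mod_cast h2
  have hC0 : (∏ h ∈ H, ∏ q ∈ R, (L.weierstrassP h - L.weierstrassP q)) ≠ 0 := by
    rw [Finset.prod_ne_zero_iff]
    intro h hh
    rw [Finset.prod_ne_zero_iff]
    intro q hq h0
    have hhL : h ∉ L.lattice := fun h1 => hH.ne h hh (two_mem h1)
    rcases b_NEQ L q h (hR.ne q hq) hhL (sub_eq_zero.1 h0) with h1 | h1
    · refine hH.ne h hh ?_
      have e : 2 * h = 2 * (h - q) + 2 * q := by ring
      rw [e]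
      exact add_mem (two_mem h1) (hR.mem q hq)
    · refine hH.ne h hh ?_
      have e : 2 * h = 2 * (h + q) - 2 * q := by ring
      rw [e]
      exact sub_mem (two_mem h1) (hR.mem q hq)
  refine ⟨hcard, hC0, ?_⟩
  have hH2 := half ha hH
  have hprod : ∀ z : ℂ, (a : ℂ) * (2 * z) ∉ L.lattice →
      ThetaH L H z * ∏ q ∈ R, ThetaH L H (z + q) =
        (-4) ^ H.card * (∏ h ∈ H, ∏ q ∈ R, (L.weierstrassP h - L.weierstrassP q)) *
          ThetaH L H (2 * z) := by
    intro z hz
    have hz2 : 2 * z ∉ L.lattice := fun h => hz (nat_mul a h)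
    have e1 : ThetaH L H (2 * z) =
        ∏ h ∈ H, (L.weierstrassP (2 * z) - L.weierstrassP (2 * h)) := by
      rw [← (b_TIN L a _ _ hH2 hH).1 (2 * z), ThetaH,
        Finset.prod_image fun x _ y _ h => mul_left_cancel₀ h20 h]
    rw [e1]
    simp only [ThetaH]
    rw [Finset.prod_comm, ← Finset.prod_mul_distrib, ← Finset.prod_const,
      ← Finset.prod_mul_distrib, ← Finset.prod_mul_distrib]
    refine Finset.prod_congr rfl fun h hh => ?_
    have h1 := u_PFI L L 2 R h20 hisg hR z hz2 h (hH.ne h hh)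
    have h2 : ∏ q ∈ R, (L.weierstrassP (z + q) - L.weierstrassP h) =
        -∏ q ∈ R, (L.weierstrassP h - L.weierstrassP (z + q)) := by
      have h3 : ∀ q ∈ R, (L.weierstrassP (z + q) - L.weierstrassP h) =
          (-1) * (L.weierstrassP h - L.weierstrassP (z + q)) := fun q _ => by ring
      rw [Finset.prod_congr rfl h3, Finset.prod_mul_distrib, Finset.prod_const, hcard]
      ring
    rw [h2]
    linear_combination -h1
  intro z hz
  refine ⟨hprod z hz, ?_⟩
  have hna : ((‖(a : ℂ)‖ ^ 2 : ℝ) : ℂ) = (a : ℂ) ^ 2 := by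
    rw [Complex.norm_natCast]; push_cast; ring
  have hz0 : (a : ℂ) * z ∉ L.lattice := by
    intro h
    refine hz ?_
    rw [mul_left_comm]
    exact two_mem h
  have hzq : ∀ q ∈ R, (a : ℂ) * (z + q) ∉ L.lattice := by
    intro q hq h
    refine hz ?_
    have e : (a : ℂ) * (2 * z) = 2 * ((a : ℂ) * (z + q)) - (a : ℂ) * (2 * q) := by ring
    rw [e]
    exact sub_mem (two_mem h) (nat_mul a (hR.mem q hq))
  have d0 : HasDerivAt (ThetaH L H) (dlX L a z * ThetaH L H z) z := by
    have h1 := (b_TDL L a H ha0' (fun w hw => nat_mul a hw) hH z hz0).2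
    rw [hna] at h1
    exact h1
  have d1 : ∀ q ∈ R, HasDerivAt (fun x => ThetaH L H (x + q))
      (dlX L a (z + q) * ThetaH L H (z + q)) z := by
    intro q hq
    have h1 := (b_TDL L a H ha0' (fun w hw => nat_mul a hw) hH (z + q) (hzq q hq)).2
    rw [hna] at h1
    exact h1.comp_add_const z _
  have d2 : HasDerivAt (fun x => ThetaH L H (2 * x))
      (2 * dlX L a (2 * z) * ThetaH L H (2 * z)) z := by
    have h1 := (b_TDL L a H ha0' (fun w hw => nat_mul a hw) hH (2 * z) hz).2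
    rw [hna] at h1
    have h2 : HasDerivAt (fun x : ℂ => 2 * x) 2 z := by
      simpa using (hasDerivAt_id z).const_mul (2 : ℂ)
    refine (HasDerivAt.comp z h1 h2).congr_deriv ?_
    unfold dlX; ring
  have d3 : HasDerivAt (fun x => ThetaH L H x * ∏ q ∈ R, ThetaH L H (x + q))
      ((dlX L a z + ∑ q ∈ R, dlX L a (z + q)) *
        (ThetaH L H z * ∏ q ∈ R, ThetaH L H (z + q))) z := by
    have h1 := d0.mul (dprod R (fun q x => ThetaH L H (x + q)) (fun q => dlX L a (z + q)) z d1)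
    refine h1.congr_deriv ?_
    ring
  have hopen : IsOpen {x : ℂ | (a : ℂ) * (2 * x) ∉ L.lattice} := by
    have h1 : IsClosed {x : ℂ | (a : ℂ) * (2 * x) ∈ L.lattice} :=
      L.isClosed_lattice.preimage (by fun_prop : Continuous fun x : ℂ => (a : ℂ) * (2 * x))
    exact h1.isOpen_compl
  have hev : (fun x => ThetaH L H x * ∏ q ∈ R, ThetaH L H (x + q)) =ᶠ[nhds z]
      fun x => (-4) ^ H.card * (∏ h ∈ H, ∏ q ∈ R, (L.weierstrassP h - L.weierstrassP q)) *
        ThetaH L H (2 * x) := by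
    filter_upwards [hopen.mem_nhds hz] with x hx
    exact hprod x hx
  have d4 := (d2.const_mul ((-4) ^ H.card *
    (∏ h ∈ H, ∏ q ∈ R, (L.weierstrassP h - L.weierstrassP q)))).congr_of_eventuallyEq hev
  have h5 := d3.unique d4
  rw [hprod z hz] at h5
  have hz1 : 2 * z ∉ L.lattice := fun h => hz (nat_mul a h)
  have h6 : ThetaH L H (2 * z) ≠ 0 := by
    intro h0
    exact hz ((b_TNZ L a H (fun w hw => nat_mul a hw) hH (2 * z) hz1).1 h0)
  have h7 : (-4) ^ H.card * (∏ h ∈ H, ∏ q ∈ R, (L.weierstrassP h - L.weierstrassP q)) *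
      ThetaH L H (2 * z) ≠ 0 :=
    mul_ne_zero (mul_ne_zero (pow_ne_zero _ (by norm_num)) hC0) h6
  refine mul_right_cancel₀ h7 ?_
  rw [h5]; ring

end

end Pool.Agent.N2V


end

section

/-!
# MUX-2R, block ER2: module DST, the distances
-/

set_option autoImplicit false

open Polynomial

namespace Pool.Agent.N2V

open _root_.MU3 _root_.Pool.Agent.MU3A _root_.Pool.Agent.MU3B _root_.Pool.Agent.MUX _root_.Pool.Agent.MUXU _root_.Pool.Agent.MUXE
open _root_.Pool.Agent.RI _root_.Pool.Agent.NS _root_.Pool.Agent.N2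
open _root_.Pool.Agent.NSE (IntP)
open _root_.Pool.Agent.MUX2 (GRG)
open _root_.Pool.Agent.MUXV (InK tX)
open _root_.Pool.Agent.N2E (dlg AutC cc)

noncomputable section

namespace DST

section
variable {V : ValuationSubring ℂ} {W : WeierstrassCurve.Affine ℂ} {L : PeriodPair}
  {X Y : ℂ → ℂ} {ξ : ℂ →+ W.Point}

lemma _root_.Pool.Agent.N2V.DST.dist (G : GRG V W L X Y ξ) {Q w : ℂ} (hQ : ¬ InK V L X Q) (h2 : ¬ InK V L X (2 * Q))
    (hw : InK V L X w) (hwL : w ∉ L.lattice) :
    ¬ InK V L X (Q + w) ∧ V.valuation (X Q - X (Q + w)) = V.valuation (tX X Y w) := by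
  obtain ⟨n1, n2, -, -⟩ := Pool.Agent.MUX2.gnear G hQ hw hwL
  obtain ⟨t1, t2, -⟩ := Pool.Agent.MUX2.gv_tX_lt G hw hwL
  have hD := Pool.Agent.MUX2.gv_DX G hQ h2
  refine ⟨n1, ?_⟩
  set s : ℂ := (2 * Y Q + W.a₁ * X Q + W.a₃) * tX X Y w with hs
  have hvs : V.valuation s = V.valuation (tX X Y w) := by rw [hs, map_mul, hD, one_mul]
  have hlt : V.valuation (X (Q + w) - X Q - s) < V.valuation s := by
    rw [hvs]
    refine lt_of_le_of_lt n2 ?_
    rw [sq]
    exact mul_lt_of_lt_one_left (zero_lt_iff.2 t2) t1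
  have e : X (Q + w) - X Q = s + (X (Q + w) - X Q - s) := by ring
  rw [← hvs, Valuation.map_sub_swap, e]
  exact Valuation.map_add_eq_of_lt_left _ hlt

end

lemma inj {V : ValuationSubring ℂ} {W : WeierstrassCurve.Affine ℂ} {L : PeriodPair}
    {Y : ℂ → ℂ} {ξ : ℂ →+ W.Point} {u e : ℂ} (hu : u ≠ 0)
    (G : GRG V W L (xu L u e) Y ξ) {Q w w' : ℂ} (hQ : ¬ InK V L (xu L u e) Q)
    (h2 : ¬ InK V L (xu L u e) (2 * Q)) (hw : InK V L (xu L u e) w)
    (hw' : InK V L (xu L u e) w') (h : xu L u e (Q + w) = xu L u e (Q + w')) :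
    w - w' ∈ L.lattice := by
  have k1 : ∀ v, InK V L (xu L u e) v → Q + v ∉ L.lattice := by
    intro v hv hL
    apply hQ
    have h3 : InK V L (xu L u e) (Q + v) := Or.inl hL
    have h4 := Pool.Agent.MUX2.gInK_sub G h3 hv
    rwa [add_sub_cancel_right] at h4
  have h5 : L.weierstrassP (Q + w) = L.weierstrassP (Q + w') := by
    unfold xu at h
    have hu2 : u ^ 2 ≠ 0 := pow_ne_zero _ hu
    have h6 := (div_left_inj' hu2).1 h
    linear_combination h6
  rcases b_NEQ L (Q + w') (Q + w) (k1 w' hw') (k1 w hw) h5 with h6 | h6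
  · have e1 : Q + w - (Q + w') = w - w' := by ring
    rwa [e1] at h6
  · exfalso
    apply h2
    have h7 : InK V L (xu L u e) (Q + w + (Q + w')) := Or.inl h6
    have h8 := Pool.Agent.MUX2.gInK_sub G h7 (Pool.Agent.MUX2.gInK_add G hw hw')
    have e1 : Q + w + (Q + w') - (w + w') = 2 * Q := by ring
    rwa [e1] at h8

section ord

variable {A B : ℤ} {P : Ideal (OO A B)} {V : ValuationSubring ℂ}

lemma emb_two (h : CQ A B) (x : OO A B) : emb (2 * x) = 2 * emb x := by
  rw [_root_.Pool.Agent.MUX.emb_mul h]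
  have := _root_.Pool.Agent.MUX.emb_natCast (A := A) (B := B) h 2
  push_cast at this
  rw [this]

/-- `x ∈ P^k` implies `2 x ∈ P^(k+2)` -/
lemma two_mem (hC : CtxU A B P V) {k : ℕ} {x : OO A B} (hx : x ∈ P ^ k) :
    2 * x ∈ P ^ (k + 2) := by
  have h1 := (hC.pw k x).1 hx
  rw [hC.pw, emb_two hC.cq, map_mul, mul_pow, mul_comm, pow_add]
  exact mul_le_mul_left h1 _

/-- `x ∈ P^(k+2)` is `2 y`, `y ∈ P^k` -/
lemma half_mem (hC : CtxU A B P V) {k : ℕ} {x : OO A B} (hx : x ∈ P ^ (k + 2)) :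
    ∃ y ∈ P ^ k, x = 2 * y := by
  have h1 := (hC.pw (k + 2) x).1 hx
  have hv0 : V.valuation (2 : ℂ) ≠ 0 := (Valuation.ne_zero_iff _).2 two_ne_zero
  have h2 : V.valuation (2 : ℂ) ^ (k + 2) ≤ V.valuation (2 : ℂ) ^ 2 :=
    pow_le_pow_of_le_one zero_le hC.v2.le (Nat.le_add_left _ _)
  have h3 : V.valuation (emb x) ≤ V.valuation (2 : ℂ) ^ 1 := by
    rw [pow_one]
    exact (pow_le_pow_iff_left₀ zero_le zero_le two_ne_zero).1 (h1.trans h2)
  have h4 := (hC.dv 1 x).2 h3
  obtain ⟨y, hy⟩ := Ideal.mem_span_singleton.1 h4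
  have h5 : x = 2 * y := by
    rw [hy]
    push_cast
    ring
  refine ⟨y, ?_, h5⟩
  rw [hC.pw]
  rw [h5, emb_two hC.cq, map_mul, mul_pow, mul_comm, pow_add] at h1
  exact le_of_mul_le_mul_right h1 (zero_lt_iff.2 (pow_ne_zero _ hv0))

end ord

end DST

open _root_.Pool.Agent.N2V.DST in
/-- DST. -/
theorem tv_DST (h1 : Sv_GRT) (h2 : Sv_TWO) (h3 : Sv_TPU) : Sv_DST := by
  classical
  intro A B P V hC L u e a1 a3 hNL hG Q hQ h2Q
  have hv2 := hC.v2
  have hu := hG.u0
  obtain ⟨ξ, G⟩ := (h1 V L u e a1 a3 hG hv2).1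
  obtain ⟨-, w2, -, w4⟩ := h2 V L u e a1 a3 hG hv2
  have hzero : InK V L (xu L u e) 0 := Or.inl (zero_mem _)
  constructor
  · -- all points of order 4
    have hI : Isg L L 4 := by
      intro w hw
      have := L.lattice.smul_mem (4 : ℤ) hw
      rwa [zsmul_eq_mul, Int.cast_ofNat] at this
    obtain ⟨R, hR⟩ := (u_BAC.2 L L 4 (by norm_num) hI).1
    have hK : ∀ q ∈ R, InK V L (xu L u e) q := by
      intro q hq
      apply w2 2
      have := hR.mem q hq
      norm_num
      exact this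
    have hinj : Set.InjOn (fun q => xu L u e (Q + q)) (R : Set ℂ) := by
      intro q hq q' hq' h
      exact hR.inj q hq q' hq' (inj hu G hQ h2Q (hK q hq) (hK q' hq') h)
    refine ⟨R.image fun q => xu L u e (Q + q), ?_, ?_, ?_⟩
    · intro h
      obtain ⟨q, hq, h4⟩ := Finset.mem_image.1 h
      have h5 : xu L u e (Q + q) = xu L u e (Q + 0) := by rw [add_zero]; exact h4
      have h6 := inj hu G hQ h2Q (hK q hq) hzero h5
      rw [sub_zero] at h6
      exact hR.ne q hq h6
    · intro x hx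
      obtain ⟨q, hq, rfl⟩ := Finset.mem_image.1 hx
      exact ⟨(Pool.Agent.MUXV.int_X (_root_.Pool.Agent.N2V.DST.dist G hQ h2Q (hK q hq) (hR.ne q hq)).1).2, q,
        hR.mem q hq, rfl⟩
    · rw [Finset.prod_image hinj]
      have e1 : ∏ q ∈ R, V.valuation (xu L u e Q - xu L u e (Q + q)) =
          ∏ q ∈ R, V.valuation (tX (xu L u e) (yt L u e a1 a3) q) :=
        Finset.prod_congr rfl fun q hq => (_root_.Pool.Agent.N2V.DST.dist G hQ h2Q (hK q hq) (hR.ne q hq)).2
      rw [e1]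
      have e2 : (∏ q ∈ R, V.valuation (xu L u e q)) *
          (∏ q ∈ R, V.valuation (tX (xu L u e) (yt L u e a1 a3) q)) ^ 2 = 1 := by
        rw [← Finset.prod_pow, ← Finset.prod_mul_distrib]
        exact Finset.prod_eq_one fun q hq =>
          (Pool.Agent.MUX2.gv_tX_lt G (hK q hq) (hR.ne q hq)).2.2
      have e3 := w4 R hR
      have hne : ∏ q ∈ R, V.valuation (xu L u e q) ≠ 0 := by
        intro h0
        rw [h0, zero_mul] at e2
        exact zero_ne_one e2
      have e4 : (∏ q ∈ R, V.valuation (tX (xu L u e) (yt L u e a1 a3) q)) ^ 2 =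
          (V.valuation (2 : ℂ) ^ 2) ^ 2 := by
        apply mul_left_cancel₀ hne
        rw [e2, ← pow_mul, mul_comm, e3]
      exact ((pow_left_inj₀ zero_le zero_le two_ne_zero).1 e4).le
  · -- the orbit
    intro Y hY hY'
    have hd : dR A = 2 ∨ dR A = 3 := by
      unfold dR
      by_cases h : A % 4 = 3
      · exact Or.inl (if_pos h)
      · exact Or.inr (if_neg h)
    have hd2 : 2 ≤ dR A := by omega
    have hd3 : dR A ≤ 3 := by omega
    have em : ∀ (x : OO A B) (z : ℂ), emb (2 * x) * z = emb x * (2 * z) := by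
      intro x z
      rw [emb_two hC.cq]
      ring
    -- the point `Y`
    have j1 : 6 - dR A = (5 - dR A) + 1 := by omega
    have t1 : Tor (P ^ (5 - dR A + 1)) L Y := by rw [← j1]; exact hY
    obtain ⟨k1, l1, o1⟩ := h3 A B P V hC (5 - dR A) L u e a1 a3 hNL hG Y t1 hY'
    -- the point `3 Y`
    have t3 : Tor (P ^ (5 - dR A + 1)) L (3 * Y) := by
      intro x hx
      have h4 := L.lattice.smul_mem (3 : ℤ) (t1 x hx)
      rw [zsmul_eq_mul, Int.cast_ofNat] at h4
      have e5 : emb x * (3 * Y) = 3 * (emb x * Y) := by ring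
      rwa [e5]
    have t3' : ¬ Tor (P ^ (5 - dR A)) L (3 * Y) := by
      intro h4
      apply hY'
      intro x hx
      have h5 := h4 x hx
      have h6 : 2 * x ∈ P ^ (5 - dR A + 1) :=
        Ideal.pow_le_pow_right (by omega) (two_mem hC hx)
      have h7 := t1 _ h6
      have h8 := sub_mem h5 h7
      have e5 : emb x * (3 * Y) - emb (2 * x) * Y = emb x * Y := by
        rw [emb_two hC.cq]
        ring
      rwa [e5] at h8
    obtain ⟨k3, l3, o3⟩ := h3 A B P V hC (5 - dR A) L u e a1 a3 hNL hG (3 * Y) t3 t3'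
    -- the point `2 Y`
    have t2 : Tor (P ^ (3 - dR A + 1)) L (2 * Y) := by
      intro x hx
      rw [← em]
      apply t1
      have h6 := two_mem hC hx
      have e5 : 3 - dR A + 1 + 2 = 5 - dR A + 1 := by omega
      rwa [e5] at h6
    have t2' : ¬ Tor (P ^ (3 - dR A)) L (2 * Y) := by
      intro h4
      apply hY'
      intro x hx
      have e5 : 5 - dR A = 3 - dR A + 2 := by omega
      rw [e5] at hx
      obtain ⟨y, hy, rfl⟩ := half_mem hC hx
      rw [em]
      exact h4 y hy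
    obtain ⟨k2, l2, o2⟩ := h3 A B P V hC (3 - dR A) L u e a1 a3 hNL hG (2 * Y) t2 t2'
    have hkK : ∀ k : ℕ, InK V L (xu L u e) (k * Y) := fun k => Pool.Agent.MUX2.gInK_nat G k1 k
    have hinj : Set.InjOn (fun k : ℕ => xu L u e (Q + k * Y))
        (({1, 2, 3} : Finset ℕ) : Set ℕ) := by
      have key : ∀ k k' : ℕ, k < k' → (k' = 2 ∨ k' = 3) → (k = 1 ∨ k = 2) →
          xu L u e (Q + k * Y) ≠ xu L u e (Q + k' * Y) := by
        intro k k' hlt hk' hk h
        have h4 := inj hu G hQ h2Q (hkK k) (hkK k') h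
        have h5 := neg_mem h4
        rcases hk' with rfl | rfl <;> rcases hk with rfl | rfl
        · apply l1
          have e5 : -(((1 : ℕ) : ℂ) * Y - ((2 : ℕ) : ℂ) * Y) = Y := by push_cast; ring
          rwa [e5] at h5
        · omega
        · apply l2
          have e5 : -(((1 : ℕ) : ℂ) * Y - ((3 : ℕ) : ℂ) * Y) = 2 * Y := by push_cast; ring
          rwa [e5] at h5
        · apply l1
          have e5 : -(((2 : ℕ) : ℂ) * Y - ((3 : ℕ) : ℂ) * Y) = Y := by push_cast; ring
          rwa [e5] at h5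
      intro k hk k' hk' h
      simp only [Finset.coe_insert, Finset.coe_singleton, Set.mem_insert_iff,
        Set.mem_singleton_iff] at hk hk'
      rcases lt_trichotomy k k' with h4 | h4 | h4
      · exact absurd h (key k k' h4 (by omega) (by omega))
      · exact h4
      · exact absurd h.symm (key k' k h4 (by omega) (by omega))
    have hnL : ∀ k ∈ ({1, 2, 3} : Finset ℕ), (k : ℂ) * Y ∉ L.lattice := by
      intro k hk
      simp only [Finset.mem_insert, Finset.mem_singleton] at hk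
      rcases hk with rfl | rfl | rfl
      · push_cast
        rw [one_mul]
        exact l1
      · push_cast
        exact l2
      · push_cast
        exact l3
    refine ⟨({1, 2, 3} : Finset ℕ).image fun k : ℕ => xu L u e (Q + k * Y), ?_, ?_, ?_⟩
    · intro h
      obtain ⟨k, hk, h4⟩ := Finset.mem_image.1 h
      have h5 : xu L u e (Q + k * Y) = xu L u e (Q + 0) := by rw [add_zero]; exact h4
      have h6 := inj hu G hQ h2Q (hkK k) hzero h5
      rw [sub_zero] at h6
      exact hnL k hk h6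
    · intro x hx
      obtain ⟨k, hk, rfl⟩ := Finset.mem_image.1 hx
      refine ⟨(Pool.Agent.MUXV.int_X (_root_.Pool.Agent.N2V.DST.dist G hQ h2Q (hkK k) (hnL k hk)).1).2, k, ?_, rfl⟩
      simp only [Finset.mem_insert, Finset.mem_singleton] at hk
      omega
    · rw [Finset.prod_image hinj]
      have e1 : ∏ k ∈ ({1, 2, 3} : Finset ℕ), V.valuation (xu L u e Q - xu L u e (Q + k * Y)) =
          ∏ k ∈ ({1, 2, 3} : Finset ℕ), V.valuation (tX (xu L u e) (yt L u e a1 a3) (k * Y)) :=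
        Finset.prod_congr rfl fun k hk => (_root_.Pool.Agent.N2V.DST.dist G hQ h2Q (hkK k) (hnL k hk)).2
      rw [e1, Finset.prod_insert (by decide), Finset.prod_insert (by decide),
        Finset.prod_singleton]
      push_cast
      rw [one_mul]
      set α := V.valuation (tX (xu L u e) (yt L u e a1 a3) Y)
      set β := V.valuation (tX (xu L u e) (yt L u e a1 a3) (2 * Y))
      set γ := V.valuation (tX (xu L u e) (yt L u e a1 a3) (3 * Y))
      set v := V.valuation (2 : ℂ)
      rcases hd with hd | hd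
      · rw [hd] at o1 o2 o3 ⊢
        norm_num at o1 o2 o3 ⊢
        -- `α^16 = v`, `γ^16 = v`, `β^4 = v`
        have e6 : (α * γ) ^ 8 = v := by
          apply (pow_left_inj₀ zero_le zero_le two_ne_zero).1
          rw [← pow_mul, mul_pow]
          norm_num
          rw [o1, o3, sq]
        have e7 : (α * (β * γ)) ^ 8 = (α * γ) ^ 8 * (β ^ 4) ^ 2 := by
          rw [← pow_mul]
          norm_num
          rw [← mul_pow]
          congr 1
          rw [mul_assoc, mul_comm γ β]
        rw [e7, e6, o2, ← pow_succ']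
      · rw [hd] at o1 o2 o3 ⊢
        norm_num at o1 o2 o3 ⊢
        -- `α^8 = v`, `γ^8 = v`, `β^2 = v`
        have e7 : (α * (β * γ)) ^ 8 = α ^ 8 * ((β ^ 2) ^ 4 * γ ^ 8) := by
          rw [mul_pow, mul_pow, ← pow_mul]
        rw [e7, o1, o2, o3, ← pow_succ, ← pow_succ']

end

end Pool.Agent.N2V


end

section

/-!
# MUX-2N, block E2N: module THT (helper58), the functions `z ↦ Θ_a(μ z)` as rational functions of `x`
-/

set_option autoImplicit false

open Polynomial

namespace Pool.Agent.N2E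

open _root_.MU3 _root_.Pool.Agent.MU3A _root_.Pool.Agent.MU3B _root_.Pool.Agent.MUX _root_.Pool.Agent.MUXU _root_.Pool.Agent.MUXE
open _root_.Pool.Agent.RI _root_.Pool.Agent.NS _root_.Pool.Agent.N2
open _root_.Pool.Agent.NSE (IntP)
open _root_.Pool.Agent.MUX2 (GRG gv_X_sub)
open _root_.Pool.Agent.MUXV (InK tX)

noncomputable section

namespace THT

lemma dlg_mul {P P' Q Q' : ℂ[X]} {x : ℂ} (h1 : P.eval x ≠ 0) (h2 : P'.eval x ≠ 0)
    (h3 : Q.eval x ≠ 0) (h4 : Q'.eval x ≠ 0) :
    dlg (P * P') (Q * Q') x = dlg P Q x + dlg P' Q' x := by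
  unfold dlg
  simp only [derivative_mul, eval_mul, eval_add]
  field_simp
  ring

lemma dlg_prod {J : Type} (s : Finset J) (F : J → ℂ[X]) (Q : ℂ[X]) {x : ℂ}
    (h1 : ∀ j ∈ s, (F j).eval x ≠ 0) (h2 : Q.eval x ≠ 0) :
    dlg (∏ j ∈ s, F j) (Q ^ s.card) x = ∑ j ∈ s, dlg (F j) Q x := by
  classical
  induction s using Finset.induction_on with
  | empty => simp [dlg]
  | insert a s ha ih =>
    rw [Finset.prod_insert ha, Finset.card_insert_of_notMem ha, pow_succ', Finset.sum_insert ha,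
      dlg_mul (h1 a (Finset.mem_insert_self _ _)), ih fun j hj => h1 j (Finset.mem_insert_of_mem hj)]
    · rw [eval_prod]
      exact Finset.prod_ne_zero_iff.2 fun j hj => h1 j (Finset.mem_insert_of_mem hj)
    · exact h2
    · rw [eval_pow]
      exact pow_ne_zero _ h2

end THT

/-- (THT) the functions `z ↦ Θ_a(μ z)` on `L` as rational functions of `x` over `V`. -/
theorem td_THT (h2 : Sd_GRT) (h3 : Sd_RAT) : Sd_THT := by
  intro V L M u e a1 a3 u' e' a1' a3' μ hI a H ha hH
  obtain ⟨P, Q, iP, iQ, r1, -, r3⟩ := h3 V L M u e a1 a3 u' e' a1' a3' μ hI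
  obtain ⟨ξ, G⟩ := h2 V M u' e' a1' a3' hI.gM hI.v2
  have hu' : u' ≠ 0 := hI.gM.u0
  have hu : u ≠ 0 := hI.gL.u0
  by_cases hq : ∀ q ∈ H, ¬ InK V M (xu M u' e') q
  swap
  · refine ⟨0, 0, fun i => by simp, fun i => by simp, fun z _ _ h => ?_⟩
    exact absurd (fun q hq' => (h q hq').1) hq
  refine ⟨∏ q ∈ H, (P - C (xu M u' e' q) * Q), Q ^ H.card, ?_, ?_, ?_⟩
  · refine NSER.ALG.iprod _ _ fun q hq' => NSER.ALG.sub iP (NSER.ALG.mul (NSER.ALG.iC ?_) iQ)
    exact (MUXV.int_X (hq q hq')).2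
  · rw [← Finset.prod_const]
    exact NSER.ALG.iprod _ _ fun q _ => iQ
  intro z hz haz hqq
  obtain ⟨r4, r5⟩ := r3 z hz
  have hzM : μ * z ∉ M.lattice := fun h => hz (Or.inl h)
  obtain ⟨r6, r7⟩ := r1 z hzM
  have hcv : ∀ q ∈ H, V.valuation (xu M u' e' (μ * z) - xu M u' e' q) = 1 := fun q hq' =>
    gv_X_sub G hz (hqq q hq').1 (hqq q hq').2.1 (hqq q hq').2.2
  have hc0 : ∀ q ∈ H, xu M u' e' (μ * z) - xu M u' e' q ≠ 0 := fun q hq' h0 => by
    have := hcv q hq'
    rw [h0, map_zero] at this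
    exact zero_ne_one this
  set x := xu L u e z with hx
  have hQ0 : Q.eval x ≠ 0 := fun h0 => by
    rw [h0, map_zero] at r5
    exact zero_ne_one r5
  have hF : ∀ q, (P - C (xu M u' e' q) * Q).eval x =
      (xu M u' e' (μ * z) - xu M u' e' q) * Q.eval x := by
    intro q
    rw [eval_sub, eval_mul, eval_C, ← r6]
    ring
  have hF0 : ∀ q ∈ H, (P - C (xu M u' e' q) * Q).eval x ≠ 0 := fun q hq' => by
    rw [hF]
    exact mul_ne_zero (hc0 q hq') hQ0
  have hx' : ∀ w q, M.weierstrassP w - M.weierstrassP q =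
      u' ^ 2 * (xu M u' e' w - xu M u' e' q) := by
    intro w q
    unfold xu
    field_simp
    ring
  have hnat : ∀ w ∈ M.lattice, (a : ℂ) * w ∈ M.lattice := by
    intro w hw
    have := M.lattice.smul_mem (a : ℤ) hw
    rwa [zsmul_eq_mul, Int.cast_natCast] at this
  have hdl : ∑ q ∈ H, M.derivWeierstrassP (μ * z) /
      (M.weierstrassP (μ * z) - M.weierstrassP q) = dlX M a (μ * z) := by
    have h8 := (b_TDL M (a : ℂ) H (Nat.cast_ne_zero.2 ha) hnat hH (μ * z) haz).1
    unfold dlX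
    have h9 : ((‖(a : ℂ)‖ ^ 2 : ℝ) : ℂ) = (a : ℂ) ^ 2 := by
      rw [Complex.norm_natCast]; push_cast; rfl
    rw [h9] at h8
    exact h8
  refine ⟨r4, ?_, ?_, ?_, ?_⟩
  · rw [eval_prod, map_prod]
    refine Finset.prod_eq_one fun q hq' => ?_
    rw [hF, map_mul, hcv q hq', r5, one_mul]
  · rw [eval_pow, map_pow, r5, one_pow]
  · rw [eval_prod, eval_pow, Finset.prod_congr rfl fun q _ => hF q, Finset.prod_mul_distrib,
      Finset.prod_const]
    unfold ThetaH
    rw [Finset.prod_congr rfl fun q _ => hx' (μ * z) q, Finset.prod_mul_distrib,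
      Finset.prod_const]
    ring
  · rw [THT.dlg_prod _ _ _ hF0 hQ0, Finset.sum_mul, ← hdl, Finset.mul_sum, Finset.sum_div]
    refine Finset.sum_congr rfl fun q hq' => ?_
    have h5 := hc0 q hq'
    have h6 : M.derivWeierstrassP (μ * z) = u' ^ 3 * et M u' (μ * z) := by
      unfold et
      field_simp
    unfold dlg
    have h7 : (derivative (P - C (xu M u' e' q) * Q)).eval x * Q.eval x -
        (P - C (xu M u' e' q) * Q).eval x * (derivative Q).eval x =
        (derivative P * Q - P * derivative Q).eval x := by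
      simp only [derivative_sub, derivative_mul, derivative_C, eval_sub, eval_mul, eval_C,
        eval_add, eval_zero]
      ring
    rw [h7, hF, hx', h6]
    rw [div_mul_eq_mul_div, mul_comm ((derivative P * Q - P * derivative Q).eval x), ← r7]
    field_simp

end

end Pool.Agent.N2E


end

section

/-!
# MUX-2R, block ER2: module THT, the functions `z ↦ Θ_a(μ z)` as rational functions of `x` (port of `E_THT.lean`)
-/

set_option autoImplicit false

open Polynomial

namespace Pool.Agent.N2V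

open _root_.MU3 _root_.Pool.Agent.MU3A _root_.Pool.Agent.MU3B _root_.Pool.Agent.MUX _root_.Pool.Agent.MUXU _root_.Pool.Agent.MUXE
open _root_.Pool.Agent.RI _root_.Pool.Agent.NS _root_.Pool.Agent.N2
open _root_.Pool.Agent.NSE (IntP)
open _root_.Pool.Agent.MUX2 (GRG gv_X_sub)
open _root_.Pool.Agent.MUXV (InK tX)
open _root_.Pool.Agent.N2E (dlg)

noncomputable section

/-- (THT) the functions `z ↦ Θ_a(μ z)` on `L` as rational functions of `x` over `V`. -/
theorem tv_THT (h2 : Sv_GRT) (h3 : Sv_RAT) : Sv_THT := by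
  intro V L M u e a1 a3 u' e' a1' a3' μ hI a H ha hH
  obtain ⟨P, Q, iP, iQ, r1, -, r3⟩ := h3 V L M u e a1 a3 u' e' a1' a3' μ hI
  obtain ⟨⟨ξ, G⟩, -⟩ := h2 V M u' e' a1' a3' hI.gM hI.v2
  have hu' : u' ≠ 0 := hI.gM.u0
  have hu : u ≠ 0 := hI.gL.u0
  by_cases hq : ∀ q ∈ H, ¬ InK V M (xu M u' e') q
  swap
  · refine ⟨0, 0, fun i => by simp, fun i => by simp, fun z _ _ h => ?_⟩
    exact absurd (fun q hq' => (h q hq').1) hq
  refine ⟨∏ q ∈ H, (P - C (xu M u' e' q) * Q), Q ^ H.card, ?_, ?_, ?_⟩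
  · refine NSER.ALG.iprod _ _ fun q hq' => NSER.ALG.sub iP (NSER.ALG.mul (NSER.ALG.iC ?_) iQ)
    exact (MUXV.int_X (hq q hq')).2
  · rw [← Finset.prod_const]
    exact NSER.ALG.iprod _ _ fun q _ => iQ
  intro z hz haz hqq
  obtain ⟨r4, r5⟩ := r3 z hz
  have hzM : μ * z ∉ M.lattice := fun h => hz (Or.inl h)
  obtain ⟨r6, r7⟩ := r1 z hzM
  have hcv : ∀ q ∈ H, V.valuation (xu M u' e' (μ * z) - xu M u' e' q) = 1 := fun q hq' =>
    gv_X_sub G hz (hqq q hq').1 (hqq q hq').2.1 (hqq q hq').2.2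
  have hc0 : ∀ q ∈ H, xu M u' e' (μ * z) - xu M u' e' q ≠ 0 := fun q hq' h0 => by
    have := hcv q hq'
    rw [h0, map_zero] at this
    exact zero_ne_one this
  set x := xu L u e z with hx
  have hQ0 : Q.eval x ≠ 0 := fun h0 => by
    rw [h0, map_zero] at r5
    exact zero_ne_one r5
  have hF : ∀ q, (P - C (xu M u' e' q) * Q).eval x =
      (xu M u' e' (μ * z) - xu M u' e' q) * Q.eval x := by
    intro q
    rw [eval_sub, eval_mul, eval_C, ← r6]
    ring
  have hF0 : ∀ q ∈ H, (P - C (xu M u' e' q) * Q).eval x ≠ 0 := fun q hq' => by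
    rw [hF]
    exact mul_ne_zero (hc0 q hq') hQ0
  have hx' : ∀ w q, M.weierstrassP w - M.weierstrassP q =
      u' ^ 2 * (xu M u' e' w - xu M u' e' q) := by
    intro w q
    unfold xu
    field_simp
    ring
  have hnat : ∀ w ∈ M.lattice, (a : ℂ) * w ∈ M.lattice := by
    intro w hw
    have := M.lattice.smul_mem (a : ℤ) hw
    rwa [zsmul_eq_mul, Int.cast_natCast] at this
  have hdl : ∑ q ∈ H, M.derivWeierstrassP (μ * z) /
      (M.weierstrassP (μ * z) - M.weierstrassP q) = dlX M a (μ * z) := by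
    have h8 := (b_TDL M (a : ℂ) H (Nat.cast_ne_zero.2 ha) hnat hH (μ * z) haz).1
    unfold dlX
    have h9 : ((‖(a : ℂ)‖ ^ 2 : ℝ) : ℂ) = (a : ℂ) ^ 2 := by
      rw [Complex.norm_natCast]; push_cast; rfl
    rw [h9] at h8
    exact h8
  refine ⟨r4, ?_, ?_, ?_, ?_⟩
  · rw [eval_prod, map_prod]
    refine Finset.prod_eq_one fun q hq' => ?_
    rw [hF, map_mul, hcv q hq', r5, one_mul]
  · rw [eval_pow, map_pow, r5, one_pow]
  · rw [eval_prod, eval_pow, Finset.prod_congr rfl fun q _ => hF q, Finset.prod_mul_distrib,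
      Finset.prod_const]
    unfold ThetaH
    rw [Finset.prod_congr rfl fun q _ => hx' (μ * z) q, Finset.prod_mul_distrib,
      Finset.prod_const]
    ring
  · rw [Pool.Agent.N2E.THT.dlg_prod _ _ _ hF0 hQ0, Finset.sum_mul, ← hdl, Finset.mul_sum, Finset.sum_div]
    refine Finset.sum_congr rfl fun q hq' => ?_
    have h5 := hc0 q hq'
    have h6 : M.derivWeierstrassP (μ * z) = u' ^ 3 * et M u' (μ * z) := by
      unfold et
      field_simp
    unfold dlg
    have h7 : (derivative (P - C (xu M u' e' q) * Q)).eval x * Q.eval x -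
        (P - C (xu M u' e' q) * Q).eval x * (derivative Q).eval x =
        (derivative P * Q - P * derivative Q).eval x := by
      simp only [derivative_sub, derivative_mul, derivative_C, eval_sub, eval_mul, eval_C,
        eval_add, eval_zero]
      ring
    rw [h7, hF, hx', h6]
    rw [div_mul_eq_mul_div, mul_comm ((derivative P * Q - P * derivative Q).eval x), ← r7]
    field_simp

end

end Pool.Agent.N2V


end

section

/-!
# MUX-2N, block E2N, module PRD: products of rational functions over a valuation ring (helper48)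
-/

set_option autoImplicit false

open Polynomial

namespace Pool.Agent.N2E

open _root_.MU3 _root_.Pool.Agent.MU3A _root_.Pool.Agent.MU3B _root_.Pool.Agent.MUX _root_.Pool.Agent.MUXU _root_.Pool.Agent.MUXE
open _root_.Pool.Agent.RI _root_.Pool.Agent.NS _root_.Pool.Agent.N2
open _root_.Pool.Agent.NSE (IntP)

namespace PRD

variable {V : ValuationSubring ℂ}

theorem ne0 {z : ℂ} (h : V.valuation z = 1) : z ≠ 0 := by
  rintro rfl
  rw [map_zero] at h
  exact zero_ne_one h

theorem int_one : IntP V (1 : ℂ[X]) := fun i => by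
  rw [coeff_one]
  split_ifs
  · rw [map_one]
  · rw [map_zero]; exact zero_le_one

theorem int_mul {P Q : ℂ[X]} (hP : IntP V P) (hQ : IntP V Q) : IntP V (P * Q) := fun i => by
  rw [coeff_mul]
  refine V.valuation.map_sum_le fun k _ => ?_
  rw [map_mul]
  exact mul_le_one' (hP _) (hQ _)

theorem int_pow {P : ℂ[X]} (hP : IntP V P) (k : ℕ) : IntP V (P ^ k) := by
  induction k with
  | zero => rw [pow_zero]; exact int_one
  | succ k ih => rw [pow_succ]; exact int_mul ih hP

theorem dlg_mul {A B A' B' : ℂ[X]} {x : ℂ} (hA : A.eval x ≠ 0) (hB : B.eval x ≠ 0)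
    (hA' : A'.eval x ≠ 0) (hB' : B'.eval x ≠ 0) :
    dlg (A * A') (B * B') x = dlg A B x + dlg A' B' x := by
  unfold dlg
  rw [derivative_mul, derivative_mul, eval_mul, eval_mul, eval_add, eval_add, eval_mul, eval_mul,
    eval_mul, eval_mul]
  field_simp
  ring

theorem dlg_one (x : ℂ) : dlg 1 1 x = 0 := by
  unfold dlg
  rw [derivative_one, eval_zero]
  ring

theorem dlg_pow {A B : ℂ[X]} {x : ℂ} (hA : A.eval x ≠ 0) (hB : B.eval x ≠ 0) (k : ℕ) :
    dlg (A ^ k) (B ^ k) x = k * dlg A B x := by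
  induction k with
  | zero => rw [pow_zero, pow_zero, dlg_one, Nat.cast_zero, zero_mul]
  | succ k ih =>
    rw [pow_succ, pow_succ, dlg_mul (by rw [eval_pow]; exact pow_ne_zero _ hA)
      (by rw [eval_pow]; exact pow_ne_zero _ hB) hA hB, ih]
    push_cast
    ring

theorem dlg_swap (A B : ℂ[X]) (x : ℂ) : dlg B A x = -dlg A B x := by
  unfold dlg
  rw [mul_comm (A.eval x) (B.eval x), ← neg_div]
  congr 1
  ring

/-- one factor -/
theorem one_factor {P Q : ℂ[X]} (g : ℤ) {T : Set ℂ} (hP : IntP V P) (hQ : IntP V Q)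
    (h : ∀ x ∈ T, V.valuation (P.eval x) = 1 ∧ V.valuation (Q.eval x) = 1) :
    ∃ A B : ℂ[X], IntP V A ∧ IntP V B ∧ ∀ x ∈ T,
      V.valuation (A.eval x) = 1 ∧ V.valuation (B.eval x) = 1 ∧
      A.eval x * Q.eval x ^ g = B.eval x * P.eval x ^ g ∧ dlg A B x = (g : ℂ) * dlg P Q x := by
  rcases Int.eq_nat_or_neg g with ⟨k, rfl | rfl⟩
  · refine ⟨P ^ k, Q ^ k, int_pow hP k, int_pow hQ k, fun x hx => ?_⟩
    obtain ⟨h1, h2⟩ := h x hx
    refine ⟨by rw [eval_pow, map_pow, h1, one_pow], by rw [eval_pow, map_pow, h2, one_pow], ?_, ?_⟩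
    · rw [eval_pow, eval_pow, zpow_natCast, zpow_natCast, mul_comm]
    · rw [dlg_pow (ne0 h1) (ne0 h2), Int.cast_natCast]
  · refine ⟨Q ^ k, P ^ k, int_pow hQ k, int_pow hP k, fun x hx => ?_⟩
    obtain ⟨h1, h2⟩ := h x hx
    refine ⟨by rw [eval_pow, map_pow, h2, one_pow], by rw [eval_pow, map_pow, h1, one_pow], ?_, ?_⟩
    · rw [eval_pow, eval_pow, zpow_neg, zpow_neg, zpow_natCast, zpow_natCast,
        mul_inv_cancel₀ (pow_ne_zero _ (ne0 h2)), mul_inv_cancel₀ (pow_ne_zero _ (ne0 h1))]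
    · rw [dlg_pow (ne0 h2) (ne0 h1), dlg_swap P Q]
      push_cast
      ring

end PRD

open _root_.Pool.Agent.N2E.PRD in
theorem td_PRD : Sd_PRD := by
  classical
  intro V J s P Q g T
  induction s using Finset.induction_on with
  | empty =>
    intro _
    refine ⟨1, 1, int_one, int_one, fun x _ => ⟨?_, ?_, ?_, ?_⟩⟩
    · rw [eval_one, map_one]
    · rw [eval_one, map_one]
    · rw [Finset.prod_empty, Finset.prod_empty]
    · rw [Finset.sum_empty, dlg_one]
  | insert j s hj ih =>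
    intro h
    obtain ⟨A, B, hA, hB, hAB⟩ := ih fun i hi => h i (Finset.mem_insert_of_mem hi)
    obtain ⟨hP, hQ, hu⟩ := h j (Finset.mem_insert_self j s)
    obtain ⟨A', B', hA', hB', hAB'⟩ := one_factor (g j) hP hQ hu
    refine ⟨A' * A, B' * B, int_mul hA' hA, int_mul hB' hB, fun x hx => ?_⟩
    obtain ⟨a1, b1, e1, d1⟩ := hAB x hx
    obtain ⟨a2, b2, e2, d2⟩ := hAB' x hx
    refine ⟨by rw [eval_mul, map_mul, a1, a2, one_mul], by rw [eval_mul, map_mul, b1, b2, one_mul],
      ?_, ?_⟩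
    · rw [Finset.prod_insert hj, Finset.prod_insert hj, eval_mul, eval_mul]
      calc A'.eval x * A.eval x * ((Q j).eval x ^ g j * ∏ i ∈ s, (Q i).eval x ^ g i)
          = (A'.eval x * (Q j).eval x ^ g j) * (A.eval x * ∏ i ∈ s, (Q i).eval x ^ g i) := by ring
        _ = (B'.eval x * (P j).eval x ^ g j) * (B.eval x * ∏ i ∈ s, (P i).eval x ^ g i) := by
          rw [e1, e2]
        _ = _ := by ring
    · rw [Finset.sum_insert hj, dlg_mul (ne0 a2) (ne0 b2) (ne0 a1) (ne0 b1), d1, d2]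

end Pool.Agent.N2E


end

section

/-!
# MUX-2N, block E2N, module RAT (helper20): the isogeny as a rational function over V
-/

set_option autoImplicit false

open Filter Topology Polynomial

namespace Pool.Agent.N2E

open _root_.MU3 _root_.Pool.Agent.MU3A _root_.Pool.Agent.MU3B _root_.Pool.Agent.MUX _root_.Pool.Agent.MUXU _root_.Pool.Agent.MUXE
open _root_.Pool.Agent.RI _root_.Pool.Agent.NS _root_.Pool.Agent.N2
open _root_.Pool.Agent.NSE (IntP)
open _root_.Pool.Agent.MUX2 (GRG)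
open _root_.Pool.Agent.MUXV (InK tX int_X)
open _root_.Pool.Agent.MUX2 (gInK_congr gv_X_sub)

noncomputable section

open _root_.Pool.Agent.NSE.RAT _root_.Pool.Agent.NSE.UNT in
theorem td_RAT (h1 : Sd_COE) (h2 : Sd_GRT) (h3 : Sd_TPT) (h4 : Sd_UNT) : Sd_RAT := by
  intro V L M u e a1 a3 u' e' a1' a3' μ hiso
  have hν := h4 V L M u e a1 a3 u' e' a1' a3' μ hiso
  have hL := hiso.gL
  have hM := hiso.gM
  have hv2 := hiso.v2
  have hμ := hiso.mu0
  have hI := hiso.isg
  obtain ⟨N, hN2, hN⟩ := hiso.odd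
  have tL := (h3 V L u e a1 a3 hL hv2).1
  have tM := (h3 V M u' e' a1' a3' hM hv2).1
  obtain ⟨ξ, grL⟩ := h2 V L u e a1 a3 hL hv2
  obtain ⟨ξ', grM⟩ := h2 V M u' e' a1' a3' hM hv2
  obtain ⟨-, -, -, -, -, -, -, dL, -⟩ := h1 V L u e a1 a3 hL hv2
  obtain ⟨-, -, -, -, -, -, -, dM, -⟩ := h1 V M u' e' a1' a3' hM hv2
  have hN0 : N ≠ 0 := by
    rintro rfl
    exact hN2 (dvd_zero 2)
  have hNpos : 0 < N := Nat.pos_of_ne_zero hN0
  obtain ⟨⟨R, hR⟩, -⟩ := u_BAC.2 L M μ hμ hI
  obtain ⟨l, hl1, hl⟩ := Nat.exists_infinite_primes (3 * N + 1)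
  have h2l : ¬ 2 ∣ l := by
    intro h
    have := (Nat.prime_dvd_prime_iff_eq Nat.prime_two hl).1 h
    omega
  have hlN : ¬ l ∣ N := fun h => by
    have := Nat.le_of_dvd hNpos h
    omega
  have h2m : ¬ 2 ∣ N * l := by
    intro h
    rcases Nat.prime_two.dvd_mul.1 h with h | h
    · exact hN2 h
    · exact h2l h
  have hl0 : (l : ℂ) ≠ 0 := by exact_mod_cast hl.ne_zero
  set w : ℂ := L.ω₁ / l with hw
  have lw : (l : ℂ) * w ∈ L.lattice := by
    rw [hw, mul_div_cancel₀ _ hl0]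
    exact L.ω₁_mem_lattice
  have Nw : (N : ℂ) * w ∉ L.lattice := by
    intro hm
    have e1 : (N : ℂ) * w = ((N : ℤ) : ℂ) * (L.ω₁ / (l : ℂ)) := by
      rw [hw]
      push_cast
      ring
    rw [e1] at hm
    have h5 := frac L _ _ hl.ne_zero hm
    exact hlN (by exact_mod_cast h5)
  have jw : ¬ InK V L (xu L u e) w := fun h => Nw (by
    have := zmul L N ((tL l h2l).2 w lw h)
    simpa using this)
  have jq : ∀ q ∈ R, ¬ InK V L (xu L u e) q := fun q hq h =>
    hR.ne q hq ((tL N hN2).2 q (hN q (hR.mem q hq)) h)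
  have jwq : ∀ q ∈ R, ¬ InK V L (xu L u e) (w + q) := by
    intro q hq h
    have hNq := hN q (hR.mem q hq)
    have hm := (tL (N * l) h2m).2 (w + q) (by
      have e1 : ((N * l : ℕ) : ℂ) * (w + q) = ((N : ℤ) : ℂ) * ((l : ℂ) * w) +
          ((l : ℤ) : ℂ) * ((N : ℂ) * q) := by
        push_cast
        ring
      rw [e1]
      exact add_mem (zmul L _ lw) (zmul L _ hNq)) h
    apply Nw
    have e2 : (N : ℂ) * w = ((N : ℤ) : ℂ) * (w + q) - (N : ℂ) * q := by
      push_cast
      ring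
    rw [e2]
    exact sub_mem (zmul L _ hm) hNq
  have mw : μ * w ∉ M.lattice := fun h => Nw (hN w h)
  have jM : ¬ InK V M (xu M u' e') (μ * w) := fun h => mw ((tM l h2l).2 _ (by
    have e1 : (l : ℂ) * (μ * w) = μ * ((l : ℂ) * w) := by ring
    rw [e1]
    exact hI _ lw) h)
  have vq : ∀ q ∈ R, V.valuation (xu L u e q) ≤ 1 := fun q hq => (int_X (jq q hq)).2
  have vwq : ∀ q ∈ R, V.valuation (xu L u e (w + q)) ≤ 1 := fun q hq => (int_X (jwq q hq)).2
  have vw : V.valuation (xu L u e w) ≤ 1 := (int_X jw).2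
  have vc : V.valuation (xu M u' e' (μ * w)) ≤ 1 := (int_X jM).2
  set c : ℂ := xu M u' e' (μ * w) with hc
  set ν : ℂ := μ * u' / u with hνd
  have vν1 : V.valuation (ν ^ 2) = 1 := by rw [map_pow, hν, one_pow]
  have hν0 : ν ^ 2 ≠ 0 := by
    apply pow_ne_zero
    intro h0
    rw [h0, map_zero] at hν
    exact zero_ne_one hν
  have vν : V.valuation (ν ^ 2) ≤ 1 := vν1.le
  set A : ℂ[X] := ∏ q ∈ R, (X - C (xu L u e q)) with hA
  set B : ℂ[X] := ∏ q ∈ R, (X - C (xu L u e (w + q))) with hB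
  set Q : ℂ[X] := C (ν ^ 2) * A with hQ
  set T : ℂ[X] := (X - C (xu L u e w)) * B with hT
  have iQ : IntP V Q := int_mul (int_C vν) (int_prod R _ vq)
  have evA : ∀ z, A.eval z = ∏ q ∈ R, (z - xu L u e q) := by
    intro z
    rw [hA, eval_prod]
    refine Finset.prod_congr rfl fun q _ => ?_
    rw [eval_sub, eval_X, eval_C]
  have evB : ∀ z, B.eval z = ∏ q ∈ R, (z - xu L u e (w + q)) := by
    intro z
    rw [hB, eval_prod]
    refine Finset.prod_congr rfl fun q _ => ?_
    rw [eval_sub, eval_X, eval_C]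
  -- the first identity
  have hu0 : u ^ 2 ≠ 0 := pow_ne_zero _ hL.u0
  have hu0' : u' ^ 2 ≠ 0 := pow_ne_zero _ hM.u0
  have eL : ∀ a b : ℂ, L.weierstrassP a - L.weierstrassP b =
      u ^ 2 * (xu L u e a - xu L u e b) := by
    intro a b
    unfold xu
    rw [← sub_div, mul_div_cancel₀ _ hu0]
    ring
  have eM : ∀ a b : ℂ, M.weierstrassP a - M.weierstrassP b =
      u' ^ 2 * (xu M u' e' a - xu M u' e' b) := by
    intro a b
    unfold xu
    rw [← sub_div, mul_div_cancel₀ _ hu0']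
    ring
  have id0 : ∀ z, μ * z ∉ M.lattice →
      ν ^ 2 * (xu M u' e' (μ * z) - c) * A.eval (xu L u e z) =
        (xu L u e z - xu L u e w) * B.eval (xu L u e z) := by
    intro z hz
    have pf := u_PFI L M μ R hμ hI hR w mw z hz
    have p1 : ∏ q ∈ R, (L.weierstrassP z - L.weierstrassP q) =
        (u ^ 2) ^ R.card * A.eval (xu L u e z) := by
      rw [evA, ← Finset.prod_const, ← Finset.prod_mul_distrib]
      exact Finset.prod_congr rfl fun q _ => eL _ _
    have p2 : ∏ q ∈ R, (L.weierstrassP z - L.weierstrassP (w + q)) =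
        (u ^ 2) ^ R.card * B.eval (xu L u e z) := by
      rw [evB, ← Finset.prod_const, ← Finset.prod_mul_distrib]
      exact Finset.prod_congr rfl fun q _ => eL _ _
    rw [p1, p2, eM, eL] at pf
    have hpow : (u ^ 2) ^ R.card ≠ 0 := pow_ne_zero _ hu0
    apply mul_left_cancel₀ (mul_ne_zero hu0 hpow)
    rw [hνd]
    have e3 : u ^ 2 * (u ^ 2) ^ R.card * ((μ * u' / u) ^ 2 * (xu M u' e' (μ * z) - c) *
        A.eval (xu L u e z)) = μ ^ 2 * (u' ^ 2 * (xu M u' e' (μ * z) - c)) *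
        ((u ^ 2) ^ R.card * A.eval (xu L u e z)) := by
      have hu : u ≠ 0 := hL.u0
      field_simp
    rw [e3, pf]
    ring
  have id1 : ∀ z, μ * z ∉ M.lattice →
      xu M u' e' (μ * z) * Q.eval (xu L u e z) = (C c * Q + T).eval (xu L u e z) := by
    intro z hz
    have q1 := id0 z hz
    simp only [hQ, hT, eval_add, eval_mul, eval_C, eval_sub, eval_X]
    rw [← q1]
    ring
  -- the kernel of reduction
  have ker : ∀ z, InK V L (xu L u e) z → InK V M (xu M u' e') (μ * z) := by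
    intro z hz
    by_cases hzM : μ * z ∈ M.lattice
    · exact Or.inl hzM
    have hzL : z ∉ L.lattice := fun h => hzM (hI z h)
    have hx : 1 < V.valuation (xu L u e z) := by
      rcases hz with h | h
      · exact absurd h hzL
      · rw [← ValuationSubring.valuation_le_one_iff] at h
        exact not_le.1 h
    have hsub : ∀ a : ℂ, V.valuation a ≤ 1 →
        V.valuation (xu L u e z - a) = V.valuation (xu L u e z) := fun a ha =>
      Valuation.map_sub_eq_of_lt_left _ (lt_of_le_of_lt ha hx)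
    have q1 := congrArg V.valuation (id0 z hzM)
    rw [map_mul, map_mul, vν1, one_mul, map_mul, evA, evB, map_prod, map_prod,
      Finset.prod_congr rfl fun q hq => hsub _ (vq q hq),
      Finset.prod_congr rfl fun q hq => hsub _ (vwq q hq), hsub _ vw, Finset.prod_const] at q1
    have hne : V.valuation (xu L u e z) ^ R.card ≠ 0 :=
      pow_ne_zero _ (ne_of_gt (lt_trans zero_lt_one hx))
    have q2 := mul_right_cancel₀ hne q1
    refine Or.inr fun h => ?_
    rw [← ValuationSubring.valuation_le_one_iff] at h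
    have h6 : V.valuation (xu M u' e' (μ * z) - c) ≤ 1 :=
      (Valuation.map_sub _ _ _).trans (max_le h vc)
    rw [q2] at h6
    exact absurd hx (not_lt.2 h6)
  refine ⟨C c * Q + T, Q, int_add (int_mul (int_C vc) iQ) (int_mul (int_XC vw)
    (int_prod R _ vwq)), iQ, ?_, ker, ?_⟩
  · intro z hz
    refine ⟨id1 z hz, ?_⟩
    have hzL : z ∉ L.lattice := fun h => hz (hI z h)
    have hev : ∀ᶠ t in 𝓝 z, xu M u' e' (μ * t) * Q.eval (xu L u e t) =
        (C c * Q + T).eval (xu L u e t) := by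
      have e2 : ∀ᶠ t in 𝓝 z, μ * t ∉ M.lattice := by
        have hcont : ContinuousAt (fun t : ℂ => μ * t) z := by fun_prop
        exact hcont.eventually_mem ((M.isClosed_lattice.isOpen_compl).mem_nhds hz)
      filter_upwards [e2] with t ht
      exact id1 t ht
    have hxL := dL z hzL
    have hxM := dM (μ * z) hz
    have hM' : HasDerivAt (fun t : ℂ => xu M u' e' (μ * t))
        (u' * et M u' (μ * z) * μ) z := by
      have h5 : HasDerivAt (fun t : ℂ => μ * t) μ z := by
        simpa using (hasDerivAt_id z).const_mul μ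
      exact HasDerivAt.comp z hxM h5
    have hB' : HasDerivAt (fun t : ℂ => Q.eval (xu L u e t))
        ((derivative Q).eval (xu L u e z) * (u * et L u z)) z :=
      HasDerivAt.comp z (Q.hasDerivAt (xu L u e z)) hxL
    have hA' : HasDerivAt (fun t : ℂ => (C c * Q + T).eval (xu L u e t))
        ((derivative (C c * Q + T)).eval (xu L u e z) * (u * et L u z)) z :=
      HasDerivAt.comp z ((C c * Q + T).hasDerivAt (xu L u e z)) hxL
    have heq := (hM'.mul hB').unique (hA'.congr_of_eventuallyEq hev)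
    have hid := id1 z hz
    have hu : u ≠ 0 := hL.u0
    generalize C c * Q + T = P at *
    simp only [eval_sub, eval_mul]
    apply mul_left_cancel₀ hu
    rw [hνd]
    have e5 : u * (μ * u' / u * et M u' (μ * z) * Q.eval (xu L u e z) ^ 2) =
        u' * et M u' (μ * z) * μ * Q.eval (xu L u e z) ^ 2 := by
      field_simp
    rw [e5]
    linear_combination (Q.eval (xu L u e z)) * heq -
      (derivative Q).eval (xu L u e z) * (u * et L u z) * hid
  · intro z hz
    have hzK : ¬ InK V L (xu L u e) z := fun h => hz (ker z h)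
    refine ⟨hzK, ?_⟩
    have hadd : ∀ q : ℂ, μ * q ∈ M.lattice → ¬ InK V L (xu L u e) (z + q) := by
      intro q hq h
      apply hz
      have h7 := ker _ h
      refine (gInK_congr grM (z := μ * (z + q)) (w := μ * z) (Or.inl ?_)).1 h7
      have e8 : μ * (z + q) - μ * z = μ * q := by ring
      rw [e8]
      exact hq
    rw [hQ, eval_mul, eval_C, evA, map_mul, vν1, one_mul, map_prod]
    apply Finset.prod_eq_one
    intro q hq
    have hμq := hR.mem q hq
    refine gv_X_sub grL hzK (jq q hq) (hadd q hμq) ?_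
    have h9 := hadd (-q) (by
      have e9 : μ * -q = -(μ * q) := by ring
      rw [e9]
      exact neg_mem hμq)
    rwa [← sub_eq_add_neg] at h9

end

end Pool.Agent.N2E


end
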