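import Mathlib
import Pool.Agent.MVF.C041

/-! Parts: MUX.E_FAC, NS.E_SIG, MUX.E_PA, MUX.E_KER, MUX.E_GAM -/

namespace Pool.Agent.MUXE.KER
end Pool.Agent.MUXE.KER
namespace Pool.Agent.MUXE.PA
end Pool.Agent.MUXE.PA
namespace Pool.Agent.NSE.SIG
end Pool.Agent.NSE.SIG

section

/-!
# MUX, block E, module FAC: formal properties of the fields `RF m`
-/

set_option autoImplicit false

open WeierstrassCurve Polynomial NumberField IsDedekindDomain

namespace Pool.Agent.MUXE

open _root_.MU3 _root_.Pool.Agent.MU3A _root_.Pool.Agent.MU3B _root_.Pool.Agent.MUX _root_.Pool.Agent.MUXU _root_.Pool.Agent.RI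

noncomputable section

namespace FAC

variable {A B : ℤ}

lemma kap_mem (m : Ideal (OO A B)) (L : PeriodPair) (hL : NL A B L) : kap L ∈ RF m := by
  obtain ⟨b, om, hb⟩ := hL
  exact IntermediateField.subset_adjoin _ _ ⟨b, L, om, hb, Or.inl rfl⟩

lemma x_mem (m : Ideal (OO A B)) (L : PeriodPair) (hL : NL A B L) (z : ℂ) (hz : Tor m L z)
    (hz' : z ∉ L.lattice) : xn L z ∈ RF m := by
  obtain ⟨b, om, hb⟩ := hL
  exact IntermediateField.subset_adjoin _ _ ⟨b, L, om, hb, Or.inr ⟨z, hz, hz', rfl⟩⟩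

lemma tor_mono {m m' : Ideal (OO A B)} (h : m ≤ m') {L : PeriodPair} {z : ℂ}
    (hz : Tor m' L z) : Tor m L z := fun x hx => hz x (h hx)

lemma mono {m m' : Ideal (OO A B)} (h : m ≤ m') : RF m' ≤ RF m := by
  refine IntermediateField.adjoin.mono _ _ _ ?_
  rintro c ⟨b, L, om, hb, hc | ⟨z, hz, hz', hc⟩⟩
  · exact ⟨b, L, om, hb, Or.inl hc⟩
  · exact ⟨b, L, om, hb, Or.inr ⟨z, tor_mono h hz, hz', hc⟩⟩

/-- Two embeddings which agree on the generators are equal. -/
lemma ext (m : Ideal (OO A B)) (σ τ : RF m →ₐ[kk A B] ℂ)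
    (h1 : ∀ L (hL : NL A B L), σ ⟨kap L, kap_mem m L hL⟩ = τ ⟨kap L, kap_mem m L hL⟩)
    (h2 : ∀ L (hL : NL A B L) (z : ℂ) (hz : Tor m L z) (hz' : z ∉ L.lattice),
      σ ⟨xn L z, x_mem m L hL z hz hz'⟩ = τ ⟨xn L z, x_mem m L hL z hz hz'⟩) : σ = τ := by
  refine IntermediateField.algHom_ext_of_eq_adjoin (kk A B) (S := RF m) rfl ?_
  rintro x ⟨b, L, om, hb, hc | ⟨z, hz, hz', hc⟩⟩
  · subst hc
    exact h1 L ⟨b, om, hb⟩
  · subst hc
    exact h2 L ⟨b, om, hb⟩ z hz hz'

end FAC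

/-- FAC. -/
theorem te_FAC (h1 : Sxe_TRA) : Sxe_FAC := by
  intro A B hR
  obtain ⟨φ, hφ⟩ := hR.hom
  have esub : ∀ x y : OO A B, emb (x - y) = emb x - emb y := by
    intro x y
    rw [← hφ, ← hφ, ← hφ, map_sub]
  have eadd : ∀ x y : OO A B, emb (x + y) = emb x + emb y := by
    intro x y
    rw [← hφ, ← hφ, ← hφ, map_add]
  have eone : emb (1 : OO A B) = 1 := by rw [← hφ, map_one]
  refine ⟨fun m m' h => FAC.mono h, fun m L hL => ⟨FAC.kap_mem m L hL, fun z hz hz' =>
    FAC.x_mem m L hL z hz hz'⟩, ?_, ?_, ?_⟩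
  · intro m σ τ α hσ hτ
    refine FAC.ext m σ τ (fun L hL => ?_) (fun L hL z hz hz' => ?_)
    · rw [(hσ.2 L hL).1, (hτ.2 L hL).1]
    · rw [((hσ.2 L hL).2 z hz hz').2, ((hτ.2 L hL).2 z hz hz').2]
  · intro m m' hmm σ α hσ hα y hy hy'
    have h2 : σ.comp (IntermediateField.inclusion (FAC.mono hmm)) = (RF m').val := by
      refine FAC.ext m' _ _ (fun L hL => ?_) (fun L hL z hz hz' => ?_)
      · exact (hσ.2 L hL).1 _
      · have h3 := ((hσ.2 L hL).2 z (FAC.tor_mono hmm hz) hz').2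
          (FAC.x_mem m L hL z (FAC.tor_mono hmm hz) hz')
        obtain ⟨-, -, -, -, -, -, -, -, t9⟩ := h1 A B hR L hL
        have h4 : z - emb α * z ∈ L.lattice := by
          have h5 := hz _ hα
          rw [esub, eone, sub_mul, one_mul] at h5
          have h6 := neg_mem h5
          rwa [neg_sub] at h6
        have h7 := ((t9 z (emb α * z) h4).2 hz').1
        exact h3.trans h7.symm
    exact DFunLike.congr_fun h2 ⟨y, hy'⟩
  · intro m F σ α β hαβ hσ
    have hcop : IsCoprime (sp β) m := by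
      obtain ⟨x, hx, y, hy, hxy⟩ := Ideal.isCoprime_iff_exists.1 hσ.1
      obtain ⟨c, rfl⟩ := Ideal.mem_span_singleton'.1 hx
      rcases hαβ with h | h
      · refine Ideal.isCoprime_iff_exists.2 ⟨c * β, Ideal.mem_span_singleton'.2 ⟨c, rfl⟩,
          c * (α - β) + y, add_mem (m.mul_mem_left c h) hy, ?_⟩
        rw [← hxy]
        ring
      · refine Ideal.isCoprime_iff_exists.2 ⟨-c * β, Ideal.mem_span_singleton'.2 ⟨-c, rfl⟩,
          c * (α + β) + y, add_mem (m.mul_mem_left c h) hy, ?_⟩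
        rw [← hxy]
        ring
    refine ⟨hcop, fun L hL => ⟨(hσ.2 L hL).1, fun z hz hz' => ?_⟩⟩
    obtain ⟨h2, h3⟩ := (hσ.2 L hL).2 z hz hz'
    obtain ⟨-, -, -, -, -, -, -, -, t9⟩ := h1 A B hR L hL
    rcases hαβ with h | h
    · have h4 : emb α * z - emb β * z ∈ L.lattice := by
        have h5 := hz _ h
        rwa [esub, sub_mul] at h5
      obtain ⟨h6, h7⟩ := t9 _ _ h4
      exact ⟨fun h8 => h2 (h6.2 h8), fun hx => by rw [h3 hx, (h7 h2).1]⟩
    · have h4 : emb α * z - -(emb β * z) ∈ L.lattice := by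
        have h5 := hz _ h
        rw [eadd, add_mul] at h5
        rwa [sub_neg_eq_add]
      obtain ⟨h6, h7⟩ := t9 _ _ h4
      have h8 : emb β * z ∉ L.lattice := by
        intro h9
        exact h2 (h6.2 (neg_mem h9))
      refine ⟨h8, fun hx => ?_⟩
      rw [h3 hx, (h7 h2).1]
      exact ((t9 (emb β * z) (emb β * z) (by rw [sub_self]; exact zero_mem _)).2 h8).2.2

end

end Pool.Agent.MUXE


end

section

/-!
# MUX-NS, block EN, module SIG: `Y ↦ σ_Y(w)` for `w` in the ray class field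
-/

set_option autoImplicit false

open Polynomial

namespace Pool.Agent.NSE

open _root_.MU3 _root_.Pool.Agent.MU3A _root_.Pool.Agent.MU3B _root_.Pool.Agent.MUX _root_.Pool.Agent.MUXU _root_.Pool.Agent.MUXE
open _root_.Pool.Agent.RI _root_.Pool.Agent.NS
open _root_.Pool.Agent.MUXV (GR InK tX)

noncomputable section

namespace SIG

variable {A B : ℤ}

/-- rational multiples of `om` in the lattice `om O` -/
theorem rat_mem (hR : RingE A B) {L : PeriodPair} {om : ℂ} (hL : IsNL (⊤ : Ideal (OO A B)) L om)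
    (a : ℤ) {b : ℕ} (hb : b ≠ 0) : (a : ℂ) / b * om ∈ L.lattice ↔ (b : ℤ) ∣ a := by
  obtain ⟨φ, hφ⟩ := hR.hom
  have hb0 : (b : ℂ) ≠ 0 := by exact_mod_cast hb
  rw [hL.mem]
  constructor
  · rintro ⟨x, -, hx⟩
    have h1 : (a : ℂ) = b * emb x := by
      have h2 : (a : ℂ) / b = emb x := by
        apply mul_right_cancel₀ hL.om_ne
        rw [hx, mul_comm]
      rw [← h2]
      field_simp
    have h3 : emb ((b : OO A B) * x - (a : OO A B)) = 0 := by
      rw [← hφ, map_sub, map_mul, map_natCast, map_intCast, hφ, h1, sub_self]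
    have h4 := hR.inj0 _ h3
    have h5 := congrArg QuadraticAlgebra.re h4
    have re_nat : ∀ n : ℕ, ((n : ℕ) : OO A B).re = n := fun n => rfl
    have im_nat : ∀ n : ℕ, ((n : ℕ) : OO A B).im = 0 := fun n => rfl
    have re_int : ∀ n : ℤ, ((n : ℤ) : OO A B).re = n := fun n => rfl
    rw [QuadraticAlgebra.re_sub, QuadraticAlgebra.re_mul, re_nat, im_nat, re_int] at h5
    refine ⟨x.re, ?_⟩
    have h6 : (b : ℤ) * x.re + A * 0 * x.im - a = 0 := h5
    linarith
  · rintro ⟨c, rfl⟩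
    refine ⟨(c : OO A B), Submodule.mem_top, ?_⟩
    rw [← hφ, map_intCast]
    push_cast
    field_simp

/-- polynomials over `V` -/
theorem intP_iff {V : ValuationSubring ℂ} {P : ℂ[X]} :
    IntP V P ↔ P ∈ Polynomial.liftsRing (algebraMap V ℂ) := by
  rw [← Polynomial.lifts_iff_liftsRing, Polynomial.lifts_iff_coeff_lifts]
  refine forall_congr' fun i => ?_
  rw [ValuationSubring.valuation_le_one_iff]
  constructor
  · intro h
    exact ⟨⟨_, h⟩, rfl⟩
  · rintro ⟨c, hc⟩
    rw [← hc]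
    exact c.2

theorem intP_sum {V : ValuationSubring ℂ} {N : ℕ} (a : Fin N → ℂ) (c : ℂ)
    (ha : ∀ i, V.valuation (a i) ≤ 1) (hc : V.valuation c ≤ 1) :
    IntP V (∑ i, C (a i) * (X - C c) ^ (i : ℕ)) := by
  have hC : ∀ b : ℂ, V.valuation b ≤ 1 → C b ∈ Polynomial.liftsRing (algebraMap V ℂ) := by
    intro b hb
    rw [← intP_iff]
    intro i
    rw [coeff_C]
    split_ifs
    · exact hb
    · rw [map_zero]; exact zero_le
  rw [intP_iff]
  refine sum_mem fun i _ => mul_mem (hC _ (ha i)) (pow_mem (sub_mem ?_ (hC _ hc)) _)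
  rw [← intP_iff]
  intro i
  rw [coeff_X]
  split_ifs
  · rw [map_one]
  · rw [map_zero]; exact zero_le

end SIG

open _root_.Pool.Agent.NSE.SIG in
theorem te_SIG (h1 : Se_ALG) (h2 : Se_PRO) (h3 : Se_GRN) (h4 : Se_LEG) (h5 : Se_PTS)
    (h6 : Se_TPN) (h7 : Se_ADD) (h8 : Se_UNR) (h9 : Se_DEG) (h10 : Se_BAS) : Se_SIG := by
  intro A B V hC hT hG L om u e lam hL hgood n f a hn hf h2f h3f ha h3a w hw hvw
  have hR := hC.ring
  obtain ⟨φ, hφ⟩ := hR.hom
  have hmul : ∀ x y : OO A B, emb (x * y) = emb x * emb y := fun x y => by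
    rw [← hφ, map_mul, hφ, hφ]
  have hadd : ∀ x y : OO A B, emb (x + y) = emb x + emb y := fun x y => by
    rw [← hφ, map_add, hφ, hφ]
  have hone : emb (1 : OO A B) = 1 := by rw [← hφ, map_one]
  have hnat : ∀ k : ℕ, emb ((k : ℕ) : OO A B) = k := fun k => by rw [← hφ, map_natCast]
  have hLn : NL A B L := ⟨⊤, om, hL⟩
  have hom0 := hL.om_ne
  have hv3 := hC.v3
  have hf0 : f ≠ 0 := by omega
  have hfa0 : f * a ≠ 0 := Nat.mul_ne_zero hf0 ha
  have h3fa : ¬ 3 ∣ f * a := fun h => by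
    rcases (Nat.Prime.dvd_mul (by norm_num)).1 h with h | h
    · exact h3f h
    · exact h3a h
  have hm0' : 3 ^ (n + 1) * f * a ≠ 0 := by positivity
  have hne : ∀ k : ℕ, k ≠ 0 → idl (A := A) (B := B) k ≠ ⊥ := by
    intro k hk h
    rw [Ideal.span_singleton_eq_bot] at h
    apply hk
    have h' := hnat k
    rw [h, ← hφ, map_zero] at h'
    exact_mod_cast h'.symm
  -- the fields
  have hmm : idl (A := A) (B := B) (3 ^ (n + 1) * f * a) ≤ idl (f * a) := by
    rw [Ideal.span_singleton_le_span_singleton]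
    refine ⟨((3 ^ (n + 1) : ℕ) : OO A B), ?_⟩
    push_cast; ring
  obtain ⟨c1, c2, c3, c4, c5⟩ := Pool.Agent.MUXE.te_FAC Pool.Agent.MUXE.te_TRA A B hR
  have hle := c1 _ _ hmm
  obtain ⟨ξ, G⟩ := h3 V L u e lam hgood hv3
  obtain ⟨hP, -⟩ := h5 V L u e lam hgood hv3
  obtain ⟨t1, t2⟩ := h6 V L u e lam hgood hv3
  obtain ⟨w₁, w₂, hw₁, hw₁L, hw₂, hw₂L, he, hu2, hxw⟩ := h4 V L u e lam hgood hv3
  -- torsion points
  have hTor : ∀ (k : ℕ) (z : ℂ), (k : ℂ) * z ∈ L.lattice → Tor (idl (A := A) (B := B) k) L z := by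
    intro k z hz x hx
    obtain ⟨y, rfl⟩ := Ideal.mem_span_singleton'.1 hx
    rw [hmul, hnat, mul_assoc]
    obtain ⟨c, -, hc⟩ := (hL.mem _).1 hz
    exact (hL.mem _).2 ⟨y * c, Submodule.mem_top, by rw [hc, hmul]; ring⟩
  have hint : ∀ (k : ℤ) (z : ℂ), z ∈ L.lattice → (k : ℂ) * z ∈ L.lattice := by
    intro k z hz
    simpa [zsmul_eq_mul] using L.lattice.smul_mem k hz
  obtain ⟨f', hf'⟩ := h2f
  have htwo : ∀ z : ℂ, 2 * z ∈ L.lattice → Tor (idl (A := A) (B := B) (f * a)) L z := by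
    intro z hz
    apply hTor
    have h11 := hint ((f' * a : ℕ) : ℤ) _ hz
    have h12 : ((f * a : ℕ) : ℂ) * z = (((f' * a : ℕ) : ℤ) : ℂ) * (2 * z) := by
      rw [hf']; push_cast; ring
    rw [h12]; exact h11
  have hx1 : xn L w₁ ∈ RF (idl (A := A) (B := B) (f * a)) := (c2 _ L hLn).2 _ (htwo _ hw₁) hw₁L
  have hx2 : xn L w₂ ∈ RF (idl (A := A) (B := B) (f * a)) := (c2 _ L hLn).2 _ (htwo _ hw₂) hw₂L
  have heM : e ∈ RF (idl (A := A) (B := B) (f * a)) := by
    have h11 : e = xn L w₁ + ((1 / 12 : ℚ) : ℂ) := by rw [← he]; unfold xn; push_cast; ring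
    rw [h11]
    refine add_mem hx1 ?_
    exact SubfieldClass.ratCast_mem _ _
  have huM : u ^ 2 ∈ RF (idl (A := A) (B := B) (f * a)) := by
    have h11 : u ^ 2 = xn L w₂ - xn L w₁ := by rw [← hu2]; unfold xn; ring
    rw [h11]
    exact sub_mem hx2 hx1
  -- the points
  have hcop : IsCoprime ((3 ^ (n + 1) : ℕ) : ℤ) (f : ℤ) := by
    rw [Nat.isCoprime_iff_coprime]
    exact Nat.Coprime.pow_left _ ((Nat.Prime.coprime_iff_not_dvd (by norm_num)).2 h3f)
  obtain ⟨α, β, hαβ⟩ := hcop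
  push_cast at hαβ
  obtain ⟨P₀, hP₀⟩ : ∃ z, z = (α : ℂ) / (f : ℕ) * om := ⟨_, rfl⟩
  obtain ⟨P₁, hP₁⟩ : ∃ z, z = (β : ℂ) / ((3 ^ (n + 1) : ℕ) : ℂ) * om := ⟨_, rfl⟩
  obtain ⟨Pt, hPt⟩ : ∃ z, z = om / ((3 ^ (n + 1) * f : ℕ) : ℂ) := ⟨_, rfl⟩
  have hfc : (f : ℂ) ≠ 0 := by exact_mod_cast hf0
  have h3c : (3 : ℂ) ^ (n + 1) ≠ 0 := pow_ne_zero _ (by norm_num)
  have hsum : P₀ + P₁ = Pt := by
    have h11 : (α : ℂ) * 3 ^ (n + 1) + β * f = 1 := by exact_mod_cast hαβ
    rw [hP₀, hP₁, hPt]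
    push_cast
    field_simp
    linear_combination h11
  have hfP₀ : (f : ℂ) * P₀ ∈ L.lattice := by
    have h11 : (f : ℂ) * P₀ = (((f : ℤ) * α : ℤ) : ℂ) / ((f : ℕ) : ℂ) * om := by
      rw [hP₀]; push_cast; ring
    rw [h11, rat_mem hR hL _ hf0]
    exact dvd_mul_right _ _
  have h2P₀ : 2 * P₀ ∉ L.lattice := by
    have h11 : 2 * P₀ = ((2 * α : ℤ) : ℂ) / ((f : ℕ) : ℂ) * om := by
      rw [hP₀]; push_cast; ring
    rw [h11, rat_mem hR hL _ hf0]
    intro h12
    have h13 : IsCoprime (f : ℤ) α := ⟨β, 3 ^ (n + 1), by linear_combination hαβ⟩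
    have h14 := h13.dvd_of_dvd_mul_right h12
    have h15 := Int.le_of_dvd (by norm_num) h14
    omega
  have hP₀L : P₀ ∉ L.lattice := fun h => h2P₀ (by rw [two_mul]; exact add_mem h h)
  have hP₀E : ¬ InK V L (xu L u e) P₀ := fun h => hP₀L ((t1 f h3f).2 P₀ hfP₀ h)
  have h2P₀E : ¬ InK V L (xu L u e) (2 * P₀) := fun h => h2P₀ ((t1 f h3f).2 _ (by
    have h11 : (f : ℂ) * (2 * P₀) = f * P₀ + f * P₀ := by ring
    rw [h11]; exact add_mem hfP₀ hfP₀) h)
  have h3P₁ : (3 : ℂ) ^ (n + 1) * P₁ ∈ L.lattice := by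
    have h11 : (3 : ℂ) ^ (n + 1) * P₁ =
        ((((3 ^ (n + 1) : ℕ) : ℤ) * β : ℤ) : ℂ) / ((3 ^ (n + 1) : ℕ) : ℂ) * om := by
      rw [hP₁]; push_cast; ring
    rw [h11, rat_mem hR hL _ (by positivity)]
    exact dvd_mul_right _ _
  have h3P₁' : (3 : ℂ) ^ n * P₁ ∉ L.lattice := by
    have h11 : (3 : ℂ) ^ n * P₁ = (β : ℂ) / ((3 : ℕ) : ℂ) * om := by
      rw [hP₁]; push_cast; field_simp; ring
    rw [h11, rat_mem hR hL _ (by norm_num)]
    intro h12
    have h13 : (3 : ℤ) ∣ 1 := by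
      rw [← hαβ]
      refine dvd_add (Dvd.dvd.mul_left (dvd_pow_self 3 (Nat.succ_ne_zero n)) _)
        (Dvd.dvd.mul_right ?_ _)
      exact_mod_cast h12
    omega
  obtain ⟨hP₁E, hxP₁, hP₁v⟩ := t2 n P₁ h3P₁ h3P₁'
  have hP₁L : P₁ ∉ L.lattice := fun h => h3P₁' (by
    have := hint (3 ^ n) _ h
    push_cast at this
    exact this)
  obtain ⟨hPE, -⟩ := Pool.Agent.MUXV.near G hP₀E hP₁E hP₁L
  rw [hsum] at hPE
  have hPL : Pt ∉ L.lattice := fun h => hPE (Or.inl h)
  -- the uniformiser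
  obtain ⟨π, hπ⟩ : ∃ z, z = xu L u e Pt - xu L u e P₀ := ⟨_, rfl⟩
  have hvπ : V.valuation π ^ (8 * 9 ^ n) = V.valuation (3 : ℂ) := by
    have h11 := (Pool.Agent.MUXV.tq_YUN V (WL lam) L (xu L u e) (yu L u) ξ G P₀ hP₀E h2P₀E).2 P₁
      hP₁E hP₁L
    rw [hsum, ← hπ] at h11
    obtain ⟨-, h12, h13⟩ := Pool.Agent.MUXV.v_tX_lt G hP₁E hP₁L
    have h14 : V.valuation (su L u e P₁) = V.valuation (tX (xu L u e) (yu L u) P₁) ^ 2 := by
      unfold su
      rw [map_inv₀]
      exact inv_eq_of_mul_eq_one_right h13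
    rw [h14, ← pow_mul] at hP₁v
    rw [h11, ← hP₁v]
    congr 1
    ring
  have hPM : xn L Pt ∈ RF (idl (A := A) (B := B) (3 ^ (n + 1) * f * a)) := by
    refine (c2 _ L hLn).2 _ (hTor _ _ ?_) hPL
    have h11 : ((3 ^ (n + 1) * f * a : ℕ) : ℂ) * Pt = ((a : ℤ) : ℂ) / ((1 : ℕ) : ℂ) * om := by
      rw [hPt]; push_cast; field_simp
    rw [h11, rat_mem hR hL _ one_ne_zero]
    exact ⟨a, by simp⟩
  have hP₀M : xn L P₀ ∈ RF (idl (A := A) (B := B) (f * a)) := by
    refine (c2 _ L hLn).2 _ (hTor _ _ ?_) hP₀L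
    have h11 : ((f * a : ℕ) : ℂ) * P₀ = ((a : ℤ) : ℂ) * (f * P₀) := by push_cast; ring
    rw [h11]
    exact hint _ _ hfP₀
  have hxx : ∀ z : ℂ, xu L u e z = (xn L z + ((1 / 12 : ℚ) : ℂ) - e) / u ^ 2 := by
    intro z; unfold xu xn; push_cast; ring
  have hx0M : xu L u e P₀ ∈ RF (idl (A := A) (B := B) (f * a)) := by
    rw [hxx]
    exact div_mem (sub_mem (add_mem hP₀M (SubfieldClass.ratCast_mem _ _)) heM) huM
  have hxPM : xu L u e Pt ∈ RF (idl (A := A) (B := B) (3 ^ (n + 1) * f * a)) := by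
    rw [hxx]
    exact div_mem (sub_mem (add_mem hPM (SubfieldClass.ratCast_mem _ _)) (hle heM)) (hle huM)
  have hπM : π ∈ RF (idl (A := A) (B := B) (3 ^ (n + 1) * f * a)) := by
    rw [hπ]; exact sub_mem hxPM (hle hx0M)
  have := hG.fin _ (hne _ hfa0)
  have := hG.fin _ (hne _ hm0')
  have hdeg := h9 A B V hC hG n (f * a) hfa0 h3fa
  rw [← mul_assoc] at hdeg
  obtain ⟨c, hc1, hc2⟩ := h10 (kk A B) ℂ V.ValueGroup V.valuation
    (RF (idl (A := A) (B := B) (f * a))) (RF (idl (A := A) (B := B) (3 ^ (n + 1) * f * a)))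
    (8 * 9 ^ n) 3 π hle (by positivity) hdeg (by norm_num) hv3
    (h8 A B V hC hT (f * a) hfa0 h3fa) hπM hvπ w hw hvw
  -- the function
  have hvx0 : V.valuation (xu L u e P₀) ≤ 1 := (Pool.Agent.MUXV.int_X hP₀E).2
  obtain ⟨Pol, hPol⟩ : ∃ Q : ℂ[X], Q = ∑ i : Fin (8 * 9 ^ n),
    C ((c i : ℂ)) * (X - C (xu L u e P₀)) ^ (i : ℕ) := ⟨_, rfl⟩
  have hPolI : IntP V Pol := by
    rw [hPol]; exact intP_sum _ _ hc1 hvx0
  have hPolE : ∀ t : ℂ, Pol.eval t =
      ∑ i : Fin (8 * 9 ^ n), (c i : ℂ) * (t - xu L u e P₀) ^ (i : ℕ) := by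
    intro t
    rw [hPol, eval_finsetSum]
    refine Finset.sum_congr rfl fun i _ => ?_
    simp
  have hPolw : Pol.eval (xu L u e Pt) = w := by rw [hPolE, ← hπ, ← hc2]
  have hRep := (h2 V (E3 L) (su L u e) (ru L u e) _ _ hP).1 _ _ _ Pol
    (h7 V L u e lam hgood hv3 Pt hPE) hPolI
  have hβ := ((h1 V (E3 L) (su L u e) (ru L u e) _ _ hP).2.2.2.2.2.2.2.1 _ _ _ hRep).2.1
  rw [hPolw] at hRep
  refine ⟨_, _, hβ, hRep, ?_⟩
  intro y _ σ hσ hw'
  have hc4 : ∀ (t : ℂ) (ht : t ∈ RF (idl (A := A) (B := B) (3 ^ (n + 1) * f * a))),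
      t ∈ RF (idl (A := A) (B := B) (f * a)) → (σ ⟨t, ht⟩ : ℂ) = t := by
    intro t ht ht'
    refine c4 _ _ hmm (_root_.Pool.Agent.MU3A.em σ) _ hσ ?_ t ht ht'
    rw [Ideal.mem_span_singleton']
    refine ⟨((3 ^ n : ℕ) : OO A B) * y, ?_⟩
    push_cast; ring
  have hemb3 : emb (1 + ((3 ^ n * f * a : ℕ) : OO A B) * y) * Pt = Pt + emb y * (a * om / 3) := by
    rw [hadd, hone, hmul, hnat, hPt]
    push_cast
    field_simp
    ring
  have hTorPt : Tor (idl (A := A) (B := B) (3 ^ (n + 1) * f * a)) L Pt := by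
    refine hTor _ _ ?_
    have h11 : ((3 ^ (n + 1) * f * a : ℕ) : ℂ) * Pt = ((a : ℤ) : ℂ) / ((1 : ℕ) : ℂ) * om := by
      rw [hPt]; push_cast; field_simp
    rw [h11, rat_mem hR hL _ one_ne_zero]
    exact ⟨a, by simp⟩
  have hσx : (σ ⟨xn L Pt, hPM⟩ : ℂ) = xn L (Pt + emb y * (a * om / 3)) := by
    rw [← hemb3]
    exact ((hσ.2 L hLn).2 Pt hTorPt hPL).2 hPM
  have hrat : ∀ q : ℚ, ((q : RF (idl (A := A) (B := B) (3 ^ (n + 1) * f * a))) : ℂ) = (q : ℂ) := by
    intro q; rfl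
  have hσπ : (σ ⟨π, hπM⟩ : ℂ) = xu L u e (Pt + emb y * (a * om / 3)) - xu L u e P₀ := by
    have h11 : (⟨π, hπM⟩ : RF (idl (A := A) (B := B) (3 ^ (n + 1) * f * a))) =
        (⟨xn L Pt, hPM⟩ + (((1 / 12 : ℚ)) : RF (idl (A := A) (B := B) (3 ^ (n + 1) * f * a))) -
          ⟨e, hle heM⟩) / ⟨u ^ 2, hle huM⟩ - ⟨xu L u e P₀, hle hx0M⟩ := by
      apply Subtype.ext
      show π = _
      rw [hπ, hxx Pt]
      rfl
    rw [h11, map_sub, map_div₀, map_sub, map_add, map_ratCast]
    show ((σ ⟨xn L Pt, hPM⟩ : ℂ) + ((1 / 12 : ℚ) : ℂ) - (σ ⟨e, hle heM⟩ : ℂ)) /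
      (σ ⟨u ^ 2, hle huM⟩ : ℂ) - (σ ⟨xu L u e P₀, hle hx0M⟩ : ℂ) = _
    rw [hσx, hc4 _ _ heM, hc4 _ _ huM, hc4 _ _ hx0M, ← hxx]
  have hww : (⟨w, hw'⟩ : RF (idl (A := A) (B := B) (3 ^ (n + 1) * f * a))) =
      ∑ i : Fin (8 * 9 ^ n), ⟨(c i : ℂ), hle (c i).2⟩ * ⟨π, hπM⟩ ^ (i : ℕ) := by
    apply Subtype.ext
    rw [IntermediateField.coe_sum]
    show w = _
    rw [hc2]
    rfl
  rw [hww, map_sum]
  show _ = Pol.eval (xu L u e (Pt + emb y * (a * om / 3)))
  rw [hPolE, IntermediateField.coe_sum]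
  refine Finset.sum_congr rfl fun i _ => ?_
  rw [map_mul, map_pow]
  show (σ ⟨(c i : ℂ), hle (c i).2⟩ : ℂ) * (σ ⟨π, hπM⟩ : ℂ) ^ (i : ℕ) = _
  rw [hc4 _ _ (c i).2, hσπ]

end

end Pool.Agent.NSE


end

section

/-!
# MUX, block E, module PA: the prime `P`, first part
-/

set_option autoImplicit false

open WeierstrassCurve Polynomial NumberField IsDedekindDomain

namespace Pool.Agent.MUXE

open _root_.MU3 _root_.Pool.Agent.MU3A _root_.Pool.Agent.MU3B _root_.Pool.Agent.MUX _root_.Pool.Agent.MUXU _root_.Pool.Agent.RI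

noncomputable section

namespace PA

variable {A B : ℤ}

lemma sq_eq (x : OO A B) :
    x * x = ((2 * x.re + B * x.im : ℤ) : OO A B) * x - ((nm x : ℤ) : OO A B) := by
  have key : ∀ t n : ℤ, t = 2 * x.re + B * x.im → n = nm x →
      x * x = (t : OO A B) * x - (n : OO A B) := by
    intro t n ht hn
    unfold nm at hn
    apply QuadraticAlgebra.ext
    · simp only [QuadraticAlgebra.re_mul, QuadraticAlgebra.re_sub, QuadraticAlgebra.re_intCast,
        QuadraticAlgebra.im_intCast, Int.cast_id]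
      rw [ht, hn]
      ring
    · simp only [QuadraticAlgebra.im_mul, QuadraticAlgebra.im_sub, QuadraticAlgebra.re_intCast,
        QuadraticAlgebra.im_intCast, Int.cast_id]
      rw [ht]
      ring
  exact key _ _ rfl rfl

lemma val_le (h : RingE A B) (V : ValuationSubring ℂ) (x : OO A B) : V.valuation (emb x) ≤ 1 := by
  obtain ⟨φ, hφ⟩ := h.hom
  rw [← hφ, ValuationSubring.valuation_le_one_iff]
  by_contra hx
  have h1 := congrArg φ (sq_eq x)
  rw [map_mul, map_sub, map_mul, map_intCast, map_intCast] at h1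
  rcases V.mem_or_inv_mem (φ x) with h2 | h2
  · exact hx h2
  · have h0 : φ x ≠ 0 := by
      intro h0
      rw [h0] at hx
      exact hx V.zero_mem
    apply hx
    have h3 : φ x = ((2 * x.re + B * x.im : ℤ) : ℂ) - ((nm x : ℤ) : ℂ) * (φ x)⁻¹ := by
      field_simp
      linear_combination h1
    rw [h3]
    exact sub_mem (intCast_mem V _) (mul_mem (intCast_mem V _) h2)

lemma isMaximal {p : ℕ} (hp : p.Prime) {P : Ideal (OO A B)} (hP : P.IsPrime) (hn : nI P = p) :
    P.IsMaximal := by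
  have hfin : Finite (OO A B ⧸ P) := by
    apply Nat.finite_of_card_ne_zero
    change nI P ≠ 0
    rw [hn]
    exact hp.ne_zero
  exact Ideal.Quotient.maximal_of_isField P (Finite.isField_of_domain (OO A B ⧸ P))

lemma cls {p : ℕ} (hp : p = 2 ∨ p = 3) {P : Ideal (OO A B)} (hP : P.IsPrime) (hn : nI P = p)
    {x : OO A B} (hx : x ∉ P) : x - 1 ∈ P ∨ x + 1 ∈ P := by
  have hpp : p.Prime := by
    rcases hp with rfl | rfl
    · exact Nat.prime_two
    · exact Nat.prime_three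
  have hfin : Finite (OO A B ⧸ P) := by
    apply Nat.finite_of_card_ne_zero
    change nI P ≠ 0
    rw [hn]
    exact hpp.ne_zero
  have hmax := isMaximal hpp hP hn
  let _ := Ideal.Quotient.field P
  have : Fintype (OO A B ⧸ P) := Fintype.ofFinite _
  have hc : Fintype.card (OO A B ⧸ P) = p := by
    rw [← Nat.card_eq_fintype_card]
    exact hn
  have h0 : Ideal.Quotient.mk P x ≠ 0 := by
    rw [Ne, Ideal.Quotient.eq_zero_iff_mem]
    exact hx
  have h1 := FiniteField.pow_card_sub_one_eq_one (Ideal.Quotient.mk P x) h0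
  rw [hc, ← map_pow, ← map_one (Ideal.Quotient.mk P), Ideal.Quotient.eq] at h1
  rcases hp with rfl | rfl
  · left
    simpa using h1
  · have h2 : (x - 1) * (x + 1) ∈ P := by
      have e : (x - 1) * (x + 1) = x ^ (3 - 1) - 1 := by ring
      rw [e]
      exact h1
    exact hP.mem_or_mem h2

end PA

open _root_.Pool.Agent.MUXE.PA in
theorem te_PA : Sxe_PA := by
  intro p A B P V h
  have hpp : p.Prime := by
    rcases h.two with rfl | rfl
    · exact Nat.prime_two
    · exact Nat.prime_three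
  have hmax : P.IsMaximal := isMaximal hpp h.prime h.norm
  obtain ⟨φ, hφ⟩ := h.ring.hom
  have hded : IsDedekindDomain (OO A B) := h.ring.ded
  have hv1 : ∀ x : OO A B, x ∉ P → V.valuation (emb x) = 1 := by
    intro x hx
    rcases cls h.two h.prime h.norm hx with h1 | h1
    · have h2 := h.vP _ h1
      rw [← hφ, map_sub, map_one] at h2
      rw [← hφ]
      have h3 : V.valuation (1 + (φ x - 1)) = V.valuation 1 :=
        Valuation.map_add_eq_of_lt_left _ (by rwa [map_one])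
      rwa [add_sub_cancel, map_one] at h3
    · have h2 := h.vP _ h1
      rw [← hφ, map_add, map_one] at h2
      rw [← hφ]
      have h3 : V.valuation (-1 + (φ x + 1)) = V.valuation (-1) :=
        Valuation.map_add_eq_of_lt_left _ (by rwa [Valuation.map_neg, map_one])
      rwa [neg_add_cancel_comm_assoc, Valuation.map_neg, map_one] at h3
  have hn : ∀ n : ℕ, ¬ p ∣ n → (n : OO A B) ∉ P := by
    intro n hn hnP
    have hco : IsCoprime (p : ℤ) (n : ℤ) := by
      rw [Nat.isCoprime_iff_coprime]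
      exact (Nat.Prime.coprime_iff_not_dvd hpp).2 hn
    obtain ⟨r, s, hrs⟩ := hco
    apply h.prime.ne_top
    rw [Ideal.eq_top_iff_one]
    have h1 : ((r * (p : ℤ) + s * (n : ℤ) : ℤ) : OO A B) ∈ P := by
      push_cast
      exact P.add_mem (P.mul_mem_left _ h.mem) (P.mul_mem_left _ hnP)
    rw [hrs, Int.cast_one] at h1
    exact h1
  have hcop : ∀ (m : Ideal (OO A B)) (j : ℕ), ¬ m ≤ P → IsCoprime m (P ^ j) := by
    intro m j hm
    apply IsCoprime.pow_right
    rw [Ideal.isCoprime_iff_sup_eq]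
    by_contra hne
    have h1 : m ⊔ P = P := (hmax.eq_of_le hne le_sup_right).symm
    exact hm (h1 ▸ le_sup_left)
  refine ⟨val_le h.ring V, fun x hx => ⟨hv1 x hx, cls h.two h.prime h.norm hx⟩, ?_,
    fun n hn' => ⟨?_, hn n hn'⟩, hmax, hcop, ?_⟩
  · rw [Ne, map_eq_zero]
    exact_mod_cast hpp.ne_zero
  · have h1 := hv1 _ (hn n hn')
    rwa [← hφ, map_natCast] at h1
  · have hle : sp (p : OO A B) ≤ P := by
      rw [Ideal.span_singleton_le_iff_mem]
      exact h.mem
    obtain ⟨Q, hQ⟩ := Ideal.dvd_iff_le.2 hle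
    have hmul : nI (sp (p : OO A B)) = nI P * nI Q := by
      change Ideal.absNorm (sp (p : OO A B)) = Ideal.absNorm P * Ideal.absNorm Q
      rw [hQ, map_mul]
    have hsp : nI (sp (p : OO A B)) = p ^ 2 := by
      change Ideal.absNorm (sp (p : OO A B)) = p ^ 2
      rw [Ideal.absNorm_span_singleton, ← map_natCast (algebraMap ℤ (OO A B)),
        Algebra.norm_algebraMap, QuadraticAlgebra.finrank_eq_two, Int.natAbs_pow, Int.natAbs_natCast]
    have hQn : nI Q = p := by
      rw [hsp, h.norm, pow_two] at hmul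
      exact (Nat.eq_of_mul_eq_mul_left hpp.pos hmul).symm
    have hQp : Q.IsPrime := Ideal.isPrime_of_irreducible_absNorm (by
      change Irreducible (nI Q)
      rw [hQn]
      exact hpp)
    have hQm : Q.IsMaximal := isMaximal hpp hQp hQn
    have hne : P ≠ Q := by
      intro e
      apply h.split
      rw [← e, ← pow_two] at hQ
      rw [← hQ]
      exact Ideal.mem_span_singleton_self _
    exact ⟨Q, hQ, hQm, hQn, fun h1 => hne (hQm.eq_of_le h.prime.ne_top h1).symm,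
      fun h1 => hne (hmax.eq_of_le hQp.ne_top h1)⟩

end

end Pool.Agent.MUXE


end

section

/-!
# MUX, block E: the points of `E[P]` are in the kernel of reduction (KER)
-/

set_option autoImplicit false

open WeierstrassCurve Polynomial NumberField IsDedekindDomain

namespace Pool.Agent.MUXE

open _root_.MU3 _root_.Pool.Agent.MU3A _root_.Pool.Agent.MU3B _root_.Pool.Agent.MUX _root_.Pool.Agent.MUXU _root_.Pool.Agent.RI

noncomputable section

namespace KER

theorem fifth (L : PeriodPair) (a b : ℤ) (h : ¬ ((5 : ℤ) ∣ a ∧ (5 : ℤ) ∣ b)) :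
    (a : ℂ) * (L.ω₁ / 5) + b * (L.ω₂ / 5) ∉ L.lattice := by
  intro hm
  apply h
  have e : (a : ℂ) * (L.ω₁ / 5) + b * (L.ω₂ / 5) =
      ((a / 5 : ℚ) : ℂ) * L.ω₁ + ((b / 5 : ℚ) : ℂ) * L.ω₂ := by
    push_cast
    ring
  rw [e, PeriodPair.mul_ω₁_add_mul_ω₂_mem_lattice] at hm
  have key : ∀ c : ℤ, ((c / 5 : ℚ)).den = 1 → (5 : ℤ) ∣ c := by
    intro c hc
    refine ⟨((c / 5 : ℚ)).num, ?_⟩
    have h1 : ((((c / 5 : ℚ)).num : ℤ) : ℚ) = (c / 5 : ℚ) := (Rat.den_eq_one_iff _).1 hc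
    have h2 : (c : ℚ) = 5 * ((((c / 5 : ℚ)).num : ℤ) : ℚ) := by
      rw [h1]
      ring
    exact_mod_cast h2
  exact ⟨key a hm.1, key b hm.2⟩

end KER

open _root_.Pool.Agent.MUXE.KER in
theorem te_KER (h1 : Sxe_PA) (h2 : Sxe_TRA) (h3 : Sxe_TRB) (h4 : Su_BAC) (h5 : Su_PFI) :
    Sxe_KER := by
  intro p A B P V h L hL z0 hz0 hz0L
  obtain ⟨-, pa2, pa3, pa4, pa5, pa6, -⟩ := h1 p A B P V h
  obtain ⟨tra1, tra2, tra3, tra4, tra5, -, -, tra8, tra9⟩ := h2 A B h.ring L hL
  obtain ⟨L', μ, hL', hQ⟩ := h.exq L hL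
  have hμ : μ ≠ 0 := hQ.1
  have hvμ : V.valuation μ = V.valuation (p : ℂ) := h.mul L L' μ hL hL' hQ
  obtain ⟨φ, hφ⟩ := h.ring.hom
  have embn : ∀ n : ℕ, emb ((n : ℕ) : OO A B) = n := fun n => by rw [← hφ, map_natCast]
  have g := h.gx L hL
  have g' := h.gx L' hL'
  have hTor : ∀ z, μ * z ∈ L'.lattice ↔ Tor P L z := hQ.2
  have hIsg : Isg L L' μ := fun w hw => (hTor w).2 (fun x _ => tra1 x w hw)
  obtain ⟨⟨R, hR⟩, -⟩ := h4.2 L L' μ hμ hIsg
  have hp5 : ¬ p ∣ 5 := by
    rcases h.two with rfl | rfl <;> omega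
  obtain ⟨hv5, h5P⟩ := pa4 5 hp5
  have hPbot : P ≠ ⊥ := by
    intro h0
    have h6 := h.mem
    rw [h0, Ideal.mem_bot] at h6
    have h7 := embn p
    rw [h6, ← hφ, map_zero] at h7
    apply pa3
    rw [← h7, map_zero]
  -- `E₁` is a subgroup which contains the lattice
  have inl : ∀ z, z ∈ L.lattice → InEn V L z := fun z hz => Or.inl hz
  have inadd := g.add
  have inneg := g.neg
  have insub : ∀ z w, InEn V L z → InEn V L w → InEn V L (z - w) := fun z w hz hw => by
    rw [sub_eq_add_neg]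
    exact inadd _ _ hz (inneg _ hw)
  have inmul : ∀ (n : ℕ) z, InEn V L z → InEn V L (n * z) := by
    intro n z hz
    induction n with
    | zero => exact inl _ (by simp)
    | succ n ih =>
      push_cast
      rw [add_mul, one_mul]
      exact inadd _ _ ih hz
  have inV : ∀ (M : PeriodPair) (z : ℂ), ¬ InEn V M z → xn M z ∈ V := by
    intro M z hz
    by_contra h6
    exact hz (Or.inr h6)
  -- points of order 5
  have ord5 : ∀ z : ℂ, ((5 : ℕ) : ℂ) * z ∈ L.lattice → z ∉ L.lattice → ¬ InEn V L z := fun z hz hzL hin =>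
    hzL (g.tor z 5 hin hv5 hz)
  have ord5' : ∀ z : ℂ, ((5 : ℕ) : ℂ) * z ∈ L.lattice → z ∉ L.lattice →
      μ * z ∉ L'.lattice ∧ ¬ InEn V L' (μ * z) := by
    intro z hz hzL
    have h6 : μ * z ∉ L'.lattice := by
      intro h7
      have h8 : Tor P L z := (hTor z).1 h7
      have h9 : Tor (sp ((5 : ℕ) : OO A B)) L z := by
        rw [tra5, embn]
        exact hz
      have h10 : ¬ sp ((5 : ℕ) : OO A B) ≤ P := by
        rw [Ideal.span_singleton_le_iff_mem]
        exact h5P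
      have h11 := pa6 _ 1 h10
      rw [pow_one] at h11
      exact hzL (tra4 _ _ z h11 h9 h8)
    refine ⟨h6, fun hin => h6 (g'.tor _ 5 hin hv5 ?_)⟩
    have h7 := hIsg _ hz
    rwa [show μ * (((5 : ℕ) : ℂ) * z) = ((5 : ℕ) : ℂ) * (μ * z) by ring] at h7
  set w1 : ℂ := L.ω₁ / 5 with hw1
  set w2 : ℂ := L.ω₂ / 5 with hw2
  have o1 := L.ω₁_mem_lattice
  have o2 := L.ω₂_mem_lattice
  have f1 : ((5 : ℕ) : ℂ) * w1 ∈ L.lattice := by
    rw [hw1]; convert o1 using 1; push_cast; ring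
  have f2 : ((5 : ℕ) : ℂ) * w2 ∈ L.lattice := by
    rw [hw2]; convert o2 using 1; push_cast; ring
  have fa : ((5 : ℕ) : ℂ) * (w2 + w1) ∈ L.lattice := by
    rw [mul_add]; exact add_mem f2 f1
  have fs : ((5 : ℕ) : ℂ) * (w2 - w1) ∈ L.lattice := by
    rw [mul_sub]; exact sub_mem f2 f1
  have n1 : w1 ∉ L.lattice := by
    have := fifth L 1 0 (by omega)
    simpa using this
  have n2 : w2 ∉ L.lattice := by
    have := fifth L 0 1 (by omega)
    simpa using this
  have na : w2 + w1 ∉ L.lattice := by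
    have := fifth L 1 1 (by omega)
    simpa [add_comm] using this
  have ns : w2 - w1 ∉ L.lattice := by
    have := fifth L (-1) 1 (by omega)
    intro h6
    apply this
    convert h6 using 1
    push_cast
    ring
  -- the product formula
  obtain ⟨m1, i1⟩ := ord5' w1 f1 n1
  obtain ⟨m2, i2⟩ := ord5' w2 f2 n2
  obtain ⟨-, ia⟩ := ord5' _ fa na
  obtain ⟨-, is⟩ := ord5' _ fs ns
  have pf := h5 L L' μ R hμ hIsg hR w1 m1 w2 m2
  have xd : ∀ (M : PeriodPair) (a b : ℂ), M.weierstrassP a - M.weierstrassP b = xn M a - xn M b := by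
    intro M a b
    unfold xn
    ring
  simp only [xd] at pf
  have pv := congrArg V.valuation pf
  rw [map_mul, map_mul, map_pow, map_mul] at pv
  have u1 : V.valuation (xn L' (μ * w2) - xn L' (μ * w1)) = 1 := by
    refine g'.sub _ _ i2 i1 ?_ ?_
    · rw [← mul_add]; exact ia
    · rw [← mul_sub]; exact is
  have u2 : V.valuation (xn L w2 - xn L w1) = 1 :=
    g.sub _ _ (ord5 _ f2 n2) (ord5 _ f1 n1) (ord5 _ fa na) (ord5 _ fs ns)
  rw [u1, u2, mul_one, one_mul, hvμ] at pv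
  -- congruence of the points of `E[P]`
  have cong : ∀ q q', Tor P L q → Tor P L q' → q ∉ L.lattice → q' ∉ L.lattice →
      q' - q ∈ L.lattice ∨ q' + q ∈ L.lattice := by
    intro q q' hq hq' hqL hqL'
    obtain ⟨x, hx⟩ := (h3 A B h.ring L hL).2 P hPbot pa5 q q' hq hq' hqL
    by_cases hxP : x ∈ P
    · exfalso
      apply hqL'
      have := add_mem hx (hq x hxP)
      rwa [sub_add_cancel] at this
    · rcases (pa2 x hxP).2 with h6 | h6
      · left
        have h7 := add_mem hx (hq _ h6)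
        rw [← hφ (x - 1), map_sub, map_one, hφ] at h7
        convert h7 using 1
        ring
      · right
        have h7 := add_mem hx (hq _ h6)
        rw [← hφ (x + 1), map_add, map_one, hφ] at h7
        convert h7 using 1
        ring
  have pq : ∀ q, Tor P L q → (p : ℂ) * q ∈ L.lattice := by
    intro q hq
    have := hq _ h.mem
    rwa [embn] at this
  have torR : ∀ q ∈ R, Tor P L q := fun q hq => (hTor q).1 (hR.mem q hq)
  -- all points are in `E₁`
  have allin : ∀ q, Tor P L q → q ∉ L.lattice → InEn V L q := by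
    intro q0 hq0 hq0L
    by_contra hne
    have hnone : ∀ q, Tor P L q → q ∉ L.lattice → ¬ InEn V L q := by
      intro q hq hqL hin
      apply hne
      rcases cong q q0 hq hq0 hqL hq0L with h6 | h6
      · have := inadd _ _ (inl _ h6) hin
        rwa [sub_add_cancel] at this
      · have := insub _ _ (inl _ h6) hin
        rwa [add_sub_cancel_right] at this
    have five : ∀ q, Tor P L q → q ∉ L.lattice → ¬ InEn V L ((5 : ℕ) * q) := by
      intro q hq hqL hin
      apply hnone q hq hqL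
      have hpq := pq q hq
      rcases h.two with hp | hp
      · rw [hp] at hpq
        have h6 := insub _ _ hin (inmul 2 _ (inl _ hpq))
        convert h6 using 1
        push_cast
        ring
      · rw [hp] at hpq
        have h6 := insub _ _ (inmul 2 _ hin) (inmul 3 _ (inl _ hpq))
        convert h6 using 1
        push_cast
        ring
    have hR1 : ∀ q ∈ R, V.valuation (xn L w2 - xn L (w1 + q)) = 1 := by
      intro q hq
      have hqT := torR q hq
      have hqL := hR.ne q hq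
      have h50 := five q hqT hqL
      refine g.sub _ _ (ord5 _ f2 n2) ?_ ?_ ?_
      · intro hin
        apply h50
        have h6 := insub _ _ (inmul 5 _ hin) (inl _ f1)
        convert h6 using 1
        ring
      · intro hin
        apply h50
        have h6 := insub _ _ (insub _ _ (inmul 5 _ hin) (inl _ f1)) (inl _ f2)
        convert h6 using 1
        ring
      · intro hin
        apply h50
        have h6 := insub _ _ (insub _ _ (inl _ f2) (inl _ f1)) (inmul 5 _ hin)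
        convert h6 using 1
        ring
    have hprod : V.valuation (∏ q ∈ R, (xn L w2 - xn L (w1 + q))) = 1 := by
      rw [map_prod]
      exact Finset.prod_eq_one hR1
    have hle : V.valuation (∏ q ∈ R, (xn L w2 - xn L q)) ≤ 1 := by
      rw [ValuationSubring.valuation_le_one_iff]
      refine prod_mem fun q hq => ?_
      exact sub_mem (inV L _ (ord5 _ f2 n2)) (inV L _ (hnone q (torR q hq) (hR.ne q hq)))
    rw [hprod] at pv
    have hlt : V.valuation (p : ℂ) ^ 2 * V.valuation (∏ q ∈ R, (xn L w2 - xn L q)) < 1 :=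
      mul_lt_one_of_nonneg_of_lt_one_left zero_le (pow_lt_one₀ zero_le h.vp two_ne_zero) hle
    rw [pv] at hlt
    exact lt_irrefl _ hlt
  refine ⟨allin z0 hz0 hz0L, ?_⟩
  -- the second part
  have hRin : ∀ q ∈ R, InEn V L q := fun q hq => allin q (torR q hq) (hR.ne q hq)
  have hR1 : ∀ q ∈ R, V.valuation (xn L w2 - xn L (w1 + q)) = 1 := by
    intro q hq
    have hn := g.near w1 q (ord5 _ f1 n1) (hRin q hq) (hR.ne q hq)
    have ht := (g.par q (hRin q hq) (hR.ne q hq)).1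
    have hD := g.intD w1 (ord5 _ f1 n1)
    have h6 : V.valuation (xn L (w1 + q) - xn L w1) < 1 := by
      have h7 : xn L (w1 + q) - xn L w1 =
          (xn L (w1 + q) - xn L w1 - L.derivWeierstrassP w1 * tE L q) +
            L.derivWeierstrassP w1 * tE L q := by ring
      rw [h7]
      refine lt_of_le_of_lt (V.valuation.map_add _ _) (max_lt ?_ ?_)
      · exact lt_of_le_of_lt hn (pow_lt_one₀ zero_le ht two_ne_zero)
      · rw [map_mul, mul_comm]
        exact mul_lt_one_of_nonneg_of_lt_one_left zero_le ht hD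
    have h8 : xn L w2 - xn L (w1 + q) = (xn L w2 - xn L w1) - (xn L (w1 + q) - xn L w1) := by ring
    rw [h8, Valuation.map_sub_eq_of_lt_left]
    · exact u2
    · rw [u2]; exact h6
  have hR2 : ∀ q ∈ R, V.valuation (xn L w2 - xn L q) = V.valuation (xn L q) := by
    intro q hq
    have hx2 : V.valuation (xn L w2) ≤ 1 := (V.valuation_le_one_iff _).2 (inV L _ (ord5 _ f2 n2))
    have hxq : 1 < V.valuation (xn L q) := by
      rcases hRin q hq with h6 | h6
      · exact absurd h6 (hR.ne q hq)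
      · by_contra h7
        exact h6 ((V.valuation_le_one_iff _).1 (not_lt.1 h7))
    rw [Valuation.map_sub_swap, Valuation.map_sub_eq_of_lt_left]
    exact lt_of_le_of_lt hx2 hxq
  obtain ⟨q0, hq0R, hq0z⟩ := hR.surj z0 ((hTor z0).2 hz0) hz0L
  have hq0L := hR.ne q0 hq0R
  have hq0T := torR q0 hq0R
  have hxeq : ∀ q ∈ R, xn L q = xn L q0 := by
    intro q hq
    rcases cong q0 q hq0T (torR q hq) hq0L (hR.ne q hq) with h6 | h6
    · exact ((tra9 _ _ h6).2 (hR.ne q hq)).1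
    · have h7 : q - -q0 ∈ L.lattice := by rwa [sub_neg_eq_add]
      have h8 := ((tra9 _ _ h7).2 (hR.ne q hq)).1
      have h9 : q0 - q0 ∈ L.lattice := by rw [sub_self]; exact zero_mem _
      rw [h8]
      exact ((tra9 _ _ h9).2 hq0L).2.2
  have hcard : R.card = p - 1 := by
    have hpq := pq q0 hq0T
    rcases h.two with hp | hp
    · have : R = {q0} := by
        refine Finset.eq_singleton_iff_unique_mem.2 ⟨hq0R, fun q hq => ?_⟩
        rcases cong q0 q hq0T (torR q hq) hq0L (hR.ne q hq) with h6 | h6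
        · exact hR.inj q hq q0 hq0R h6
        · apply hR.inj q hq q0 hq0R
          rw [hp] at hpq
          have h7 := sub_mem h6 hpq
          convert h7 using 1
          push_cast
          ring
      rw [this, hp, Finset.card_singleton]
    · have hnT : Tor P L (-q0) := fun x hx => by
        rw [mul_neg]
        exact neg_mem (hq0T x hx)
      have hnL : -q0 ∉ L.lattice := fun h6 => hq0L (by simpa using neg_mem h6)
      obtain ⟨q1, hq1R, hq1⟩ := hR.surj (-q0) ((hTor _).2 hnT) hnL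
      have hne : q0 ≠ q1 := by
        rintro rfl
        apply hq0L
        rw [hp] at hpq
        have h7 := add_mem hq1 hpq
        convert h7 using 1
        push_cast
        ring
      have : R = {q0, q1} := by
        ext q
        rw [Finset.mem_insert, Finset.mem_singleton]
        constructor
        · intro hq
          rcases cong q0 q hq0T (torR q hq) hq0L (hR.ne q hq) with h6 | h6
          · exact Or.inl (hR.inj q hq q0 hq0R h6)
          · right
            apply hR.inj q hq q1 hq1R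
            have h7 := add_mem h6 hq1
            convert h7 using 1
            ring
        · rintro (rfl | rfl)
          · exact hq0R
          · exact hq1R
      rw [this, hp, Finset.card_pair hne]
  have hfin : V.valuation (p : ℂ) ^ 2 * V.valuation (xn L q0) ^ (p - 1) = 1 := by
    have h6 : V.valuation (∏ q ∈ R, (xn L w2 - xn L (w1 + q))) = 1 := by
      rw [map_prod]
      exact Finset.prod_eq_one hR1
    have h7 : V.valuation (∏ q ∈ R, (xn L w2 - xn L q)) = V.valuation (xn L q0) ^ (p - 1) := by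
      rw [map_prod, Finset.prod_congr rfl (fun q hq => (hR2 q hq).trans (by rw [hxeq q hq])),
        Finset.prod_const, hcard]
    rw [h6, h7] at pv
    exact pv
  obtain ⟨-, ht0, hpar⟩ := g.par q0 (hRin q0 hq0R) hq0L
  have htz : tE L z0 = tE L q0 := ((tra9 _ _ hq0z).2 hz0L).2.1
  rw [htz]
  rcases h.two with hp | hp
  · subst hp
    norm_num at hfin ⊢
    have h6 : V.valuation (tE L q0) ^ 2 = V.valuation (2 : ℂ) ^ 2 := by
      calc V.valuation (tE L q0) ^ 2
          = (V.valuation (2 : ℂ) ^ 2 * V.valuation (xn L q0)) * V.valuation (tE L q0) ^ 2 := by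
            rw [hfin, one_mul]
        _ = V.valuation (2 : ℂ) ^ 2 * (V.valuation (xn L q0) * V.valuation (tE L q0) ^ 2) := by
            rw [mul_assoc]
        _ = V.valuation (2 : ℂ) ^ 2 := by rw [hpar, mul_one]
    exact (pow_left_inj₀ zero_le zero_le two_ne_zero).1 h6
  · subst hp
    norm_num at hfin ⊢
    have h6 : (V.valuation (tE L q0) ^ 2) ^ 2 = V.valuation (3 : ℂ) ^ 2 := by
      calc (V.valuation (tE L q0) ^ 2) ^ 2
          = (V.valuation (3 : ℂ) ^ 2 * V.valuation (xn L q0) ^ 2) *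
              (V.valuation (tE L q0) ^ 2) ^ 2 := by
            rw [hfin, one_mul]
        _ = V.valuation (3 : ℂ) ^ 2 *
              (V.valuation (xn L q0) * V.valuation (tE L q0) ^ 2) ^ 2 := by
            rw [mul_assoc, mul_pow]
        _ = V.valuation (3 : ℂ) ^ 2 := by rw [hpar, one_pow, mul_one]
    exact (pow_left_inj₀ zero_le zero_le two_ne_zero).1 h6

end

end Pool.Agent.MUXE


end

section

/-!
# MUX, block E, module GAM: the ideal `M'` and the element `γ`
-/

set_option autoImplicit false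

open WeierstrassCurve Polynomial NumberField IsDedekindDomain

namespace Pool.Agent.MUXE

open _root_.MU3 _root_.Pool.Agent.MU3A _root_.Pool.Agent.MU3B _root_.Pool.Agent.MUX _root_.Pool.Agent.MUXU _root_.Pool.Agent.RI

noncomputable section

theorem te_GAM (h1 : Sxe_PA) : Sxe_GAM := by
  intro p A B P V h n m₁ a hm₁ ha hpm hpa
  obtain ⟨-, -, -, hn, -, -, Q, hQ, -, -, hQP, -⟩ := h1 p A B P V h
  have hpp : p.Prime := by
    rcases h.two with rfl | rfl
    · exact Nat.prime_two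
    · exact Nat.prime_three
  obtain ⟨φ, hφ⟩ := h.ring.hom
  have hded : IsDedekindDomain (OO A B) := h.ring.ded
  have hPp : P.IsPrime := h.prime
  have hcast : ∀ k : ℕ, k ≠ 0 → (k : OO A B) ≠ 0 := by
    intro k hk h0
    have h2 := congrArg φ h0
    rw [map_natCast, map_zero] at h2
    exact hk (by exact_mod_cast h2)
  have hmain : sp ((p ^ (n + 1) * m₁ * a : ℕ) : OO A B) =
      P ^ (n + 1) * (Q ^ (n + 1) * sp ((m₁ * a : ℕ) : OO A B)) := by
    rw [← mul_assoc, ← mul_pow, ← hQ, Ideal.span_singleton_pow,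
      Ideal.span_singleton_mul_span_singleton]
    congr 2
    push_cast
    ring
  have hne : sp ((p ^ (n + 1) * m₁ * a : ℕ) : OO A B) ≠ ⊥ := by
    rw [Ne, Ideal.span_singleton_eq_bot]
    exact hcast _ (mul_ne_zero (mul_ne_zero (pow_ne_zero _ hpp.ne_zero) hm₁) ha)
  have hP0 : P ≠ ⊥ := by
    intro h0
    apply hne
    rw [hmain, h0, pow_succ, Ideal.mul_bot, Ideal.bot_mul]
  have hMP : ¬ Q ^ (n + 1) * sp ((m₁ * a : ℕ) : OO A B) ≤ P := by
    intro hle
    rcases hPp.mul_le.1 hle with h2 | h2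
    · exact hQP (hPp.le_of_pow_le h2)
    · rw [Ideal.span_singleton_le_iff_mem] at h2
      refine (hn _ ?_).2 h2
      intro hd
      rcases hpp.dvd_mul.1 hd with h3 | h3
      · exact hpm h3
      · exact hpa h3
  have hnot : ¬ P ^ n * (Q ^ (n + 1) * sp ((m₁ * a : ℕ) : OO A B)) ≤ P ^ (n + 1) := by
    intro hle
    apply hMP
    rw [← Ideal.dvd_iff_le, pow_succ] at hle
    rw [← Ideal.dvd_iff_le]
    exact (mul_dvd_mul_iff_left (pow_ne_zero n (by rwa [Ideal.zero_eq_bot]))).1 hle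
  obtain ⟨γ, hγ, hγP⟩ := Set.not_subset.1 hnot
  refine ⟨Q ^ (n + 1) * sp ((m₁ * a : ℕ) : OO A B), γ, hmain, ?_, hMP, ?_, hγ, ?_, ?_, ?_⟩
  · intro h0
    apply hne
    rw [hmain, h0, Ideal.mul_bot]
  · refine Ideal.mul_le_right.trans ?_
    rw [Ideal.span_singleton_le_iff_mem, Ideal.mem_span_singleton]
    push_cast
    exact dvd_mul_left _ _
  · exact Ideal.mul_le_right hγ
  · intro hc
    apply hγP
    have h2 : ((p ^ (n + 1) * m₁ : ℕ) : OO A B) ∈ P ^ (n + 1) := by
      push_cast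
      exact Ideal.mul_mem_right _ _ (Ideal.pow_mem_pow h.mem _)
    exact (Ideal.span_singleton_le_iff_mem (P ^ (n + 1))).2 h2 hc
  · intro x hx
    rw [hmain, pow_succ', mul_assoc]
    exact Ideal.mul_mem_mul hx hγ

end

end Pool.Agent.MUXE


end
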