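import Mathlib
import Pool.Agent.MVF.C049
import Pool.Agent.MVF.C058
import Pool.Agent.MVF.C063

/-! Parts: N2.V_GPO, N2.V_PST, N2.E_SQR, N2.E_GPO, N2.E_DEG -/

namespace Pool.Agent.N2E.DEG
end Pool.Agent.N2E.DEG
namespace Pool.Agent.N2E.GPO
end Pool.Agent.N2E.GPO
namespace Pool.Agent.N2E.SQR
end Pool.Agent.N2E.SQR
namespace Pool.Agent.N2V.GPO
end Pool.Agent.N2V.GPO
namespace Pool.Agent.N2V.PST
end Pool.Agent.N2V.PST

section

/-!
# MUX-2R, block ER2, module GPO (helper96)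

The fibres as rational functions over `V` of `x(Q)`, `Q = om_0/m'`.
Model: `Pool/Agent/N2/E_GPO.lean` (helper89).
-/

set_option autoImplicit false

open Polynomial

namespace Pool.Agent.N2V

open _root_.MU3 _root_.Pool.Agent.MU3A _root_.Pool.Agent.MU3B _root_.Pool.Agent.MUX _root_.Pool.Agent.MUXU _root_.Pool.Agent.MUXE
open _root_.Pool.Agent.RI _root_.Pool.Agent.NS _root_.Pool.Agent.N2
open _root_.Pool.Agent.NSE (IntP)
open _root_.Pool.Agent.MUX2 (GRG)
open _root_.Pool.Agent.MUXV (InK tX)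
open _root_.Pool.Agent.N2E (dlg AutC cc)

noncomputable section

namespace GPO

/-- `v(u²)²` is a power of `v 2` -/
lemma _root_.Pool.Agent.N2V.GPO.usq {A B : ℤ} {P : Ideal (OO A B)} {V : ValuationSubring ℂ} (hC : CtxU A B P V)
    {L : PeriodPair} {u e a1 a3 : ℂ} (hL : NL A B L)
    (hg : GoodQ V L u e a1 a3) :
    ∃ k : ℤ, V.valuation (u ^ 2) ^ 2 = V.valuation (2 : ℂ) ^ k := by
  obtain ⟨w₁, w₂, h1, h2, h1', h2', -, -, -, hu⟩ := hg.tor
  have hring := hC.ring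
  obtain ⟨φ, hφ⟩ := hring.hom
  have e3 : emb ((3 : ℕ) : OO A B) = 3 := by rw [← hφ, map_natCast]; norm_num
  obtain ⟨-, hx, -⟩ := te_FAC te_TRA A B hring
  have hsp := (te_TRA A B hring L hL).2.2.2.2.1
  have m1 : xn L w₁ ∈ RF (idl (A := A) (B := B) 3) :=
    (hx _ L hL).2 w₁ ((hsp _ _).2 (by rw [e3]; exact h1)) h1'
  have m2 : xn L w₂ ∈ RF (idl (A := A) (B := B) 3) :=
    (hx _ L hL).2 w₂ ((hsp _ _).2 (by rw [e3]; exact h2)) h2'
  have e4 : u ^ 2 = xn L w₂ - xn L w₁ := by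
    rw [hu, xn, xn]
    ring
  refine hC.val 3 (by norm_num) (by norm_num) _ ?_ (pow_ne_zero 2 hg.u0)
  rw [e4]
  exact sub_mem m2 m1

end GPO

open _root_.Pool.Agent.N2V.GPO in
/-- (GPO) the fibres as rational functions over `V` of `x(Q)`, `Q = om_0/m'`. -/
theorem tv_GPO (h2 : Sv_GRT) (h3 : Sv_THT) (h4 : Sv_NE1) (h5 : Sv_MUL) (h6 : Sv_FIB) :
    Sv_GPO := by
  intro A B P V n f a m m' hS ι R u e a1 a3 hgood H i hH x hx
  have hC := hS.ctx
  have hf3 := hS.f3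
  have hf := hS.fo
  have hpa := hS.ao
  have ha0 : a ≠ 0 := by have := hS.a3; omega
  have hring := hC.ring
  obtain ⟨φ, hφ⟩ := hring.hom
  have emul : ∀ x y : OO A B, emb (x * y) = emb x * emb y := fun x y => by
    rw [← hφ, map_mul, hφ, hφ]
  obtain ⟨κ₀, hκ0, hκv, hκ⟩ := h6 A B P V n f a m m' hS ι R H i hH
  have hmm : m = 2 * m' := by rw [hS.hm, hS.hm']; ring
  have hdvd : ((m' : ℕ) : OO A B) ∣ ((m : ℕ) : OO A B) := by
    rw [hmm]
    push_cast
    exact dvd_mul_left _ _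
  have hm' := hS.hm'
  obtain ⟨hmu, hisg, hodd⟩ := h5 A B P V hC (2 * f) ι R (by omega) (dvd_mul_right _ _) i x hx
  have hm0 : m' ≠ 0 := by rw [hm']; exact mul_ne_zero (by positivity) (by omega)
  have hmf : m'.primeFactors ⊆ (2 * f).primeFactors := by
    rw [hm', Nat.primeFactors_mul (by positivity) (by omega), Nat.primeFactors_pow _ (by omega),
      Nat.primeFactors_mul (by norm_num) (by omega)]
  obtain ⟨-, -, -, hpt⟩ := te_PT te_TRA A B hring (2 * f) ι R (by omega) i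
  obtain ⟨u', e', a1', a3', hg'⟩ := hC.good (R.L i) ⟨_, _, R.nl i⟩
  have hI : IsoU V (R.L R.i0) (R.L i) u e a1 a3 u' e' a1' a3' (muX R i * emb x) :=
    ⟨hgood, hg', hC.v2, hmu, hisg, hodd⟩
  obtain ⟨Pq, Qr, hP, hQ, hPQ⟩ :=
    h3 V (R.L R.i0) (R.L i) u e a1 a3 u' e' a1' a3' _ hI a (H i) ha0 hH
  obtain ⟨k, hk⟩ := _root_.Pool.Agent.N2V.GPO.usq hC ⟨_, _, R.nl i⟩ hg'
  refine ⟨κ₀ * (u' ^ 2) ^ (H i).card, k * (H i).card, Pq, Qr, hP, hQ, ?_, ?_⟩
  · rw [map_mul, map_pow, hκv _ _ _ _ hg', ← pow_add, zpow_mul, ← hk, zpow_natCast,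
      ← pow_mul, ← pow_mul]
    congr 1
    ring
  intro c hc
  obtain ⟨hG, hF, -⟩ := hκ (c * x) hc
  have hc' : IsCoprime (c * x) ((m' : ℕ) : OO A B) := hc.of_isCoprime_of_dvd_right hdvd
  obtain ⟨hz, hzm, hzo, -⟩ := hpt m' hm0 hmf (c * x)
  obtain ⟨hzK, -, hza, hzq⟩ := h4 V (R.L i) u' e' a1' a3' hg' hC.v2 (n + 1) f a hf3 hf hpa
    hS.af _ (by rw [← hm']; exact hzm) (fun c' hc0 => by
      have := hzo hc' c' hc0
      rw [hm'] at this
      exact (dvd_mul_left _ _).trans this)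
  have ez : muX R i * emb x * (emb c * (R.om R.i0 / m')) =
      pt R m' i (c * x) := by
    rw [hz, emul]
    ring
  obtain ⟨k1, k2, k3, k4, k5⟩ := hPQ (emb c * (R.om R.i0 / m'))
    (by rw [ez]; exact hzK) (by rw [ez]; exact hza) (fun q hq => by
      rw [ez]
      exact hzq q (hH.mem q hq) (fun hqL => hH.ne q hq (by
        have hqq := add_mem hqL hqL
        rwa [← two_mul] at hqq)))
  rw [ez] at k4 k5
  obtain ⟨⟨ξ, G⟩, -⟩ := h2 V (R.L R.i0) u e a1 a3 hgood hC.v2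
  have vx := (Pool.Agent.MUXV.int_X k1).2
  have vy := Pool.Agent.MUX2.gInt_Y G k1
  have v2 : V.valuation (2 : ℂ) ≤ 1 := hC.v2.le
  have va1 : V.valuation a1 ≤ 1 := by
    by_contra h
    push Not at h
    have h1 : 1 < V.valuation a1 ^ 2 := one_lt_pow₀ h (by norm_num)
    exact absurd (hgood.v1.trans v2) (not_le.2 h1)
  have e1 : et (R.L R.i0) u (emb c * (R.om R.i0 / m')) =
      2 * yt (R.L R.i0) u e a1 a3 (emb c * (R.om R.i0 / m')) +
        a1 * xu (R.L R.i0) u e (emb c * (R.om R.i0 / m')) + a3 := by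
    rw [yt]
    ring
  have ve : V.valuation (et (R.L R.i0) u (emb c * (R.om R.i0 / m'))) ≤ 1 := by
    rw [e1]
    refine (Valuation.map_add _ _ _).trans (max_le ?_ hgood.v3.le)
    refine (Valuation.map_add _ _ _).trans (max_le ?_ ?_)
    · rw [map_mul]
      exact mul_le_one' v2 vy
    · rw [map_mul]
      exact mul_le_one' va1 vx
  refine ⟨vx, ve, k2, k3, ?_, ?_⟩
  · rw [hG, mul_assoc, k4]
    ring
  · rw [hF]
    have e5 : muX R i * emb x * (2 * dlX (R.L i) a (pt R m' i (c * x))) / u =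
        2 * (muX R i * emb x * dlX (R.L i) a (pt R m' i (c * x)) / u) := by ring
    rw [e5, k5]
    ring

end

end Pool.Agent.N2V


end

section

/-!
# MUX-2R, block ER2: one step `L → N = ν P⁻¹ L` (PST), `2 = P²` ramified in `k` (helper78)

The kernel of one step has one nonzero class, which gives a lower bound for the multiplier; the
composition of two steps has the kernel of multiplication by `2`, so both bounds are equalities.
-/

set_option autoImplicit false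

open Polynomial

namespace Pool.Agent.N2V

open _root_.MU3 _root_.Pool.Agent.MU3A _root_.Pool.Agent.MU3B _root_.Pool.Agent.MUX _root_.Pool.Agent.MUXU _root_.Pool.Agent.MUXE
open _root_.Pool.Agent.RI _root_.Pool.Agent.NS _root_.Pool.Agent.N2
open _root_.Pool.Agent.NSE (IntP)
open _root_.Pool.Agent.MUX2 (GRG)
open _root_.Pool.Agent.MUXV (InK tX)
open _root_.Pool.Agent.N2E (dlg AutC cc)

noncomputable section

namespace PST

variable {A B : ℤ} {P : Ideal (OO A B)} {V : ValuationSubring ℂ}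

/-- `2 ∈ P` -/
theorem two_mem (h : CtxU A B P V) : ((2 : ℕ) : OO A B) ∈ P := by
  obtain ⟨φ, hφ⟩ := h.ring.hom
  have embn : ∀ n : ℕ, emb ((n : ℕ) : OO A B) = n := fun n => by rw [← hφ, map_natCast]
  have h1 := (h.pw 1 ((2 : ℕ) : OO A B)).2 (by
    rw [embn, pow_one]
    push_cast
    have h2 : V.valuation (2 : ℂ) ≤ 1 := h.v2.le
    calc V.valuation (2 : ℂ) ^ 2 = V.valuation (2 : ℂ) * V.valuation (2 : ℂ) := pow_two _
      _ ≤ V.valuation (2 : ℂ) * 1 := mul_le_mul_right h2 _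
      _ = V.valuation (2 : ℂ) := mul_one _)
  rwa [pow_one] at h1

/-- the first part of one step -/
theorem step (hTWO : Sv_TWO) (hPVI : Sv_PVI) (hBAC : Su_BAC) (h : CtxU A B P V)
    {L N : PeriodPair} {nu u e a1 a3 u' e' a1' a3' : ℂ} (hL : NL A B L) (hQ : IsQ P L N nu)
    (hg : GoodQ V L u e a1 a3) (hg' : GoodQ V N u' e' a1' a3') :
    ∃ q, Tor P L q ∧ q ∉ L.lattice ∧ IsRpM L N nu {q} ∧
      V.valuation (nu * u' / u) ^ 2 * V.valuation (xu L u e q) = 1 ∧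
      V.valuation (2 : ℂ) ≤ V.valuation (nu * u' / u) ^ 2 := by
  obtain ⟨φ, hφ⟩ := h.ring.hom
  have embn : ∀ n : ℕ, emb ((n : ℕ) : OO A B) = n := fun n => by rw [← hφ, map_natCast]
  have mem2 := two_mem h
  have hPbot : P ≠ ⊥ := by
    intro h0
    rw [h0, Ideal.mem_bot] at mem2
    have h9 := embn 2
    rw [mem2, ← hφ, map_zero] at h9
    norm_num at h9
  obtain ⟨tra1, -⟩ := te_TRA A B h.ring L hL
  have hν : nu ≠ 0 := hQ.1
  have hTor : ∀ z, nu * z ∈ N.lattice ↔ Tor P L z := hQ.2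
  have hIsg : Isg L N nu := fun w hw => (hTor w).2 (fun x _ => tra1 x w hw)
  obtain ⟨⟨R, hR⟩, -⟩ := hBAC.2 L N nu hν hIsg
  have torR : ∀ q ∈ R, Tor P L q := fun q hq => (hTor q).1 (hR.mem q hq)
  obtain ⟨two1, two2, -, -⟩ := hTWO V L u e a1 a3 hg h.v2
  have tor2 : ∀ q, Tor P L q → 2 * q ∈ L.lattice := by
    intro q hq
    have := hq _ mem2
    rw [embn] at this
    exact_mod_cast this
  have cong : ∀ q q', Tor P L q → Tor P L q' → q ∉ L.lattice → q' ∉ L.lattice →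
      q' - q ∈ L.lattice := by
    intro q q' hq hq' hqL hqL'
    obtain ⟨x, hx⟩ := (te_TRB A B h.ring L hL).2 P hPbot h.max q q' hq hq' hqL
    by_cases hxP : x ∈ P
    · exfalso
      apply hqL'
      have := add_mem hx (hq x hxP)
      rwa [sub_add_cancel] at this
    · have h9 := add_mem hx (hq _ (h.one x hxP))
      rw [← hφ (x - 1), map_sub, map_one, hφ] at h9
      convert h9 using 1
      ring
  obtain ⟨q0', hq0', hq0L'⟩ : ∃ q, Tor P L q ∧ q ∉ L.lattice := by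
    obtain ⟨q, k1, k2⟩ := (te_TRB A B h.ring L hL).1 ⊤ P hPbot h.max.ne_top.lt_top
    exact ⟨q, k1, fun h8 => k2 fun x _ => tra1 x q h8⟩
  obtain ⟨q0, hq0R, -⟩ := hR.surj q0' ((hTor q0').2 hq0') hq0L'
  have hq0L := hR.ne q0 hq0R
  have hq0T := torR q0 hq0R
  have hR1 : R = {q0} := by
    ext q
    rw [Finset.mem_singleton]
    constructor
    · intro hq
      exact hR.inj q hq q0 hq0R (cong q0 q hq0T (torR q hq) hq0L (hR.ne q hq))
    · rintro rfl
      exact hq0R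
  rw [hR1] at hR
  obtain ⟨t1, t2⟩ := two1 q0 (tor2 q0 hq0T) hq0L
  have p1 := hPVI V L N u e a1 a3 u' e' a1' a3' nu hg hg' h.v2 hν hIsg {q0} hR (by
    intro q hq
    rw [Finset.mem_singleton] at hq
    rw [hq]
    refine two2 1 q0 ?_
    rw [pow_one]
    exact tor2 q0 hq0T)
  rw [Finset.prod_singleton] at p1
  refine ⟨q0, hq0T, hq0L, hR, p1, ?_⟩
  have hX : 0 < V.valuation (xu L u e q0) := lt_trans zero_lt_one t1
  rw [← p1] at t2
  exact le_of_mul_le_mul_right t2 hX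

end PST

open _root_.Pool.Agent.N2V.PST in
theorem tv_PST (hTWO : Sv_TWO) (hPVI : Sv_PVI) (hBAC : Su_BAC) : Sv_PST := by
  intro A B P V h L N nu u e a1 a3 u' e' a1' a3' hL hN hQ hg hg'
  obtain ⟨φ, hφ⟩ := h.ring.hom
  have embn : ∀ n : ℕ, emb ((n : ℕ) : OO A B) = n := fun n => by rw [← hφ, map_natCast]
  have hv0 : V.valuation (2 : ℂ) ≠ 0 := (Valuation.ne_zero_iff _).2 (by norm_num)
  obtain ⟨q, s1, s2, s3, s4, s5⟩ := step hTWO hPVI hBAC h hL hQ hg hg'
  obtain ⟨N', nu', hN', hQ'⟩ := h.exq N hN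
  obtain ⟨u'', e'', a1'', a3'', hg''⟩ := h.good N' hN'
  obtain ⟨-, -, -, -, -, r5⟩ := step hTWO hPVI hBAC h hN hQ' hg' hg''
  obtain ⟨tra1, tra2, tra3, tra4, tra5, tra6, tra7, -⟩ := te_TRA A B h.ring L hL
  have hu' := hg'.u0
  -- the kernel of the composition
  have ker : ∀ z, nu * nu' * z ∈ N'.lattice ↔ 2 * z ∈ L.lattice := by
    intro z
    rw [show nu * nu' * z = nu' * (nu * z) by ring, hQ'.2 (nu * z)]
    constructor
    · intro hz
      have h1 : Tor (P * P) L z := by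
        apply tra7
        intro x hx
        have h2 := hz x hx
        rw [show emb x * (nu * z) = nu * (emb x * z) by ring] at h2
        exact (hQ.2 _).1 h2
      have h3 : ((2 : ℕ) : OO A B) ∈ P * P := by
        rw [← pow_two]
        refine (h.pw 2 _).2 ?_
        rw [embn]
        push_cast
        exact le_rfl
      have h4 := h1 _ h3
      rw [embn] at h4
      exact_mod_cast h4
    · intro hz x hx
      rw [show emb x * (nu * z) = nu * (emb x * z) by ring]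
      refine (hQ.2 _).2 fun p hp => ?_
      have h1 : p * x ∈ P ^ 2 := by
        rw [pow_two]
        exact Ideal.mul_mem_mul hp hx
      have h2 : p * x ∈ idl (A := A) (B := B) (2 ^ 1) := by
        refine (h.dv 1 _).2 ?_
        rw [pow_one]
        exact (pow_le_pow_iff_left₀ zero_le zero_le two_ne_zero).1 ((h.pw 2 _).1 h1)
      unfold idl at h2
      rw [Ideal.mem_span_singleton] at h2
      obtain ⟨y, hy⟩ := h2
      have h3 : emb p * (emb x * z) = emb y * (2 * z) := by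
        have h4 : emb (p * x) = emb p * emb x := by rw [← hφ, map_mul, hφ, hφ]
        rw [← mul_assoc, ← h4, hy, ← hφ, map_mul, hφ y]
        push_cast
        rw [map_ofNat]
        ring
      rw [h3]
      exact tra1 y _ hz
  have hIsg2 : Isg L L 2 := by
    intro w hw
    rw [two_mul]
    exact add_mem hw hw
  have hIsg' : Isg L N' (nu * nu') := fun w hw => (ker w).2 (hIsg2 w hw)
  obtain ⟨⟨R, hR⟩, -⟩ := hBAC.2 L L 2 (by norm_num) hIsg2
  have hR' : IsRpM L N' (nu * nu') R :=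
    ⟨fun q hq => (ker q).2 (hR.mem q hq), hR.ne, hR.inj, fun z hz => hR.surj z ((ker z).1 hz)⟩
  obtain ⟨-, two2, two3, -⟩ := hTWO V L u e a1 a3 hg h.v2
  have p1 := hPVI V L N' u e a1 a3 u'' e'' a1'' a3'' (nu * nu') hg hg'' h.v2
    (mul_ne_zero hQ.1 hQ'.1) hIsg' R hR' (fun q hq => two2 1 q (by
      rw [pow_one]
      exact hR.mem q hq))
  have p2 := two3 R hR
  have hprod : ∏ q ∈ R, V.valuation (xu L u e q) ≠ 0 := by
    intro h0
    rw [h0, mul_zero] at p2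
    exact zero_ne_one p2
  have p3 : V.valuation (nu * nu' * u'' / u) ^ 2 = V.valuation (2 : ℂ) ^ 2 :=
    mul_right_cancel₀ hprod (p1.trans p2.symm)
  have e1 : nu * nu' * u'' / u = (nu * u' / u) * (nu' * u'' / u') := by
    field_simp
  rw [e1, map_mul, mul_pow] at p3
  have key : V.valuation (nu * u' / u) ^ 2 = V.valuation (2 : ℂ) := by
    refine le_antisymm ?_ s5
    have h1 : V.valuation (nu * u' / u) ^ 2 * V.valuation (2 : ℂ) ≤
        V.valuation (2 : ℂ) * V.valuation (2 : ℂ) := by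
      calc V.valuation (nu * u' / u) ^ 2 * V.valuation (2 : ℂ)
          ≤ V.valuation (nu * u' / u) ^ 2 * V.valuation (nu' * u'' / u') ^ 2 :=
            mul_le_mul_right r5 _
        _ = V.valuation (2 : ℂ) ^ 2 := p3
        _ = V.valuation (2 : ℂ) * V.valuation (2 : ℂ) := pow_two _
    exact le_of_mul_le_mul_right h1 (zero_lt_iff.2 hv0)
  refine ⟨key, q, s1, s2, s3, ?_⟩
  rw [← key]
  exact s4

end

end Pool.Agent.N2V


end

section

/-!
# MUX-2N, block E2N, module SQR: the improved criterion for squares (helper42)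
-/

set_option autoImplicit false

open Polynomial

namespace Pool.Agent.N2E

open _root_.MU3 _root_.Pool.Agent.MU3A _root_.Pool.Agent.MU3B _root_.Pool.Agent.MUX _root_.Pool.Agent.MUXU _root_.Pool.Agent.MUXE
open _root_.Pool.Agent.RI _root_.Pool.Agent.NS _root_.Pool.Agent.N2
open _root_.Pool.Agent.NSE (IntP)
open _root_.Pool.Agent.MUX2 (GRG)
open _root_.Pool.Agent.MUXV (InK tX)

noncomputable section

namespace SQR

lemma v2_ne (V : ValuationSubring ℂ) : V.valuation (2 : ℂ) ≠ 0 :=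
  (Valuation.ne_zero_iff _).2 (by norm_num)

/-- squares of powers of `v(2)` -/
def Sb (V : ValuationSubring ℂ) (x : ℂ) : Prop :=
  ∃ k : ℤ, V.valuation x = (V.valuation (2 : ℂ) ^ k) ^ 2

lemma Sb.one (V : ValuationSubring ℂ) : Sb V 1 := ⟨0, by simp⟩

lemma Sb.mul {V : ValuationSubring ℂ} {x y : ℂ} (hx : Sb V x) (hy : Sb V y) : Sb V (x * y) := by
  obtain ⟨k, hk⟩ := hx
  obtain ⟨l, hl⟩ := hy
  exact ⟨k + l, by rw [map_mul, hk, hl, zpow_add₀ (v2_ne V), mul_pow]⟩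

lemma Sb.zpow {V : ValuationSubring ℂ} {x : ℂ} (hx : Sb V x) (g : ℤ) : Sb V (x ^ g) := by
  obtain ⟨k, hk⟩ := hx
  exact ⟨k * g, by rw [map_zpow₀, hk, pow_two, mul_zpow, ← pow_two, zpow_mul]⟩

lemma prodZ {J κ : Type} [Fintype J] (X : J → Finset κ) (g : J → ℤ) (F : κ → ℂ) :
    ∏ j, (∏ q ∈ X j, F q) ^ g j = ∏ p ∈ Finset.univ.sigma X, F p.2 ^ g p.1 := by
  rw [Finset.prod_sigma]
  exact Finset.prod_congr rfl fun j _ => (Finset.prod_zpow _ _ _).symm

lemma not_two {A B : ℤ} {V : ValuationSubring ℂ} (hC : CtxT A B V) {n f : ℕ} {x : OO A B}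
    (hx : IsCoprime x ((2 ^ (n + 2) * f : ℕ) : OO A B)) : x ∉ idl (A := A) (B := B) 2 := by
  intro h
  apply hC.max.ne_top
  rw [Ideal.eq_top_iff_one]
  obtain ⟨b1, b2, hb⟩ := hx
  rw [← hb]
  refine add_mem (Ideal.mul_mem_left _ _ h) (Ideal.mul_mem_left _ _ ?_)
  exact Ideal.mem_span_singleton.2 ⟨((2 ^ (n + 1) * f : ℕ) : OO A B), by push_cast; ring⟩

/-- the base point has exact order `m` -/
lemma base {A B : ℤ} (hring : RingE A B) {L : PeriodPair} {om : ℂ}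
    (hL : IsNL (⊤ : Ideal (OO A B)) L om) {m : ℕ} (hm : m ≠ 0) :
    (m : ℂ) * (om / m) ∈ L.lattice ∧ ∀ c : ℕ, (c : ℂ) * (om / m) ∈ L.lattice → m ∣ c := by
  obtain ⟨φ, hφ⟩ := hring.hom
  have hm' : (m : ℂ) ≠ 0 := by exact_mod_cast hm
  refine ⟨?_, fun c hc => ?_⟩
  · rw [mul_div_cancel₀ _ hm']
    exact (hL.mem _).2 ⟨1, trivial, by rw [← hφ, map_one, mul_one]⟩
  · obtain ⟨x, -, hx⟩ := (hL.mem _).1 hc
    have hom := hL.om_ne
    have h1 : emb ((c : ℕ) : OO A B) = emb (((m : ℕ) : OO A B) * x) := by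
      rw [← hφ, ← hφ, map_mul, map_natCast, map_natCast, hφ]
      apply mul_left_cancel₀ hom
      rw [mul_div_assoc', div_eq_iff hm'] at hx
      linear_combination hx
    have h2 : ((c : ℕ) : OO A B) = ((m : ℕ) : OO A B) * x := by
      rw [← sub_eq_zero]
      apply hring.inj0
      rw [← hφ, map_sub, hφ, hφ, h1, sub_self]
    have h3 := congrArg QuadraticAlgebra.re h2
    simp at h3
    exact Int.natCast_dvd_natCast.1 ⟨_, h3⟩

end SQR

open _root_.Pool.Agent.N2E.SQR in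
theorem td_SQR (h1 : Sd_LAG) (h2 : Sd_PRD) (h3 : Sd_COE) (h4 : Sd_DST) (h5 : Sd_AUT) (h6 : Sd_GTA)
    (h7 : Sd_CON) (h8 : Sd_SIG) (h9 : Sd_NE1) (h10 : Sd_GPO) : Sd_SQR := by
  intro A B V n f a m hS ι R u e a1 a3 hgood H hH J _ X g hX ⟨y, hy, hinv, hy2⟩
  have hC := hS.ctx
  have hring := hC.ring
  obtain ⟨φ, hφ⟩ := hring.hom
  have emul : ∀ x y : OO A B, emb (x * y) = emb x * emb y := fun x y => by
    rw [← hφ, map_mul, hφ, hφ]
  have eone : emb (1 : OO A B) = 1 := by rw [← hφ, map_one]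
  have enat : ∀ n : ℕ, emb ((n : ℕ) : OO A B) = n := fun n => by rw [← hφ, map_natCast]
  have hf3 := hS.f3
  have ha3 := hS.a3
  have hm0 : m ≠ 0 := by
    rw [hS.hm]
    exact mul_ne_zero (by positivity) (by omega)
  have hNL0 : IsNL (⊤ : Ideal (OO A B)) (R.L R.i0) (R.om R.i0) := by
    have := R.nl R.i0
    rwa [R.b0] at this
  obtain ⟨c1, -, -, -, -, c7⟩ := h7 A B V n f a m hS
  obtain ⟨c71, c72, c73, c74, c75⟩ := c7 (R.L R.i0) (R.om R.i0) hNL0
  obtain ⟨ξ, hξ⟩ : ∃ ξ : OO A B → ℂ, ∀ b, ξ b = xu (R.L R.i0) u e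
      (emb (cc (2 ^ n * f * a) b) * (R.om R.i0 / m)) := ⟨_, fun _ => rfl⟩
  have hc0 : cc (2 ^ n * f * a) (0 : OO A B) = 1 := by rw [cc, mul_zero, add_zero]
  have hξ0 : ξ 0 = xu (R.L R.i0) u e (R.om R.i0 / m) := by rw [hξ, hc0, eone, one_mul]
  -- the rational functions
  have hG : ∀ q : ι × OO A B, ∃ (κ : ℂ) (k : ℤ) (P Q : ℂ[X]), q.2 ∉ idl (A := A) (B := B) 2 →
      IntP V P ∧ IntP V Q ∧ V.valuation κ = (V.valuation (2 : ℂ) ^ k) ^ 2 ∧
      ∀ c : OO A B, IsCoprime (c * q.2) ((m : ℕ) : OO A B) →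
        V.valuation (xu (R.L R.i0) u e (emb c * (R.om R.i0 / m))) ≤ 1 ∧
        V.valuation (et (R.L R.i0) u (emb c * (R.om R.i0 / m))) ≤ 1 ∧
        V.valuation (P.eval (xu (R.L R.i0) u e (emb c * (R.om R.i0 / m)))) = 1 ∧
        V.valuation (Q.eval (xu (R.L R.i0) u e (emb c * (R.om R.i0 / m)))) = 1 ∧
        ThetaH (R.L q.1) (H q.1) (pt R m q.1 (c * q.2)) *
            Q.eval (xu (R.L R.i0) u e (emb c * (R.om R.i0 / m))) =
          κ * P.eval (xu (R.L R.i0) u e (emb c * (R.om R.i0 / m))) ∧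
        muX R q.1 * emb q.2 * dlX (R.L q.1) a (pt R m q.1 (c * q.2)) / u =
          dlg P Q (xu (R.L R.i0) u e (emb c * (R.om R.i0 / m))) *
            et (R.L R.i0) u (emb c * (R.om R.i0 / m)) := by
    intro q
    by_cases hq : q.2 ∈ idl (A := A) (B := B) 2
    · exact ⟨0, 0, 0, 0, fun h => absurd hq h⟩
    · obtain ⟨κ, k, P, Q, h⟩ := h10 A B V n f a m hS ι R u e a1 a3 hgood q.1 (H q.1) (hH q.1)
        q.2 hq
      exact ⟨κ, k, P, Q, fun _ => h⟩
  choose κ k P Q hG using hG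
  have hq2 : ∀ j, ∀ q ∈ X j, q.2 ∉ idl (A := A) (B := B) 2 := fun j q hq =>
    not_two hC (n := n) (f := f) (by
      have := hX j q hq
      rwa [hS.hm] at this)
  have hGb := fun j q (hq : q ∈ X j) (b : OO A B) =>
    (hG q (hq2 j q hq)).2.2.2 (cc (2 ^ n * f * a) b) (((c1 b).2.1).mul_left (hX j q hq))
  obtain ⟨κ1, k1, P1, Q1, -, -, -, hG1⟩ := h10 A B V n f a m hS ι R u e a1 a3 hgood R.i0 (H R.i0)
    (hH R.i0) 1 (not_two hC (n := n) (f := f) isCoprime_one_left)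
  have vξ : ∀ b, V.valuation (ξ b) ≤ 1 := fun b => by
    rw [hξ]
    exact (hG1 _ (by rw [mul_one]; exact (c1 b).2.1)).1
  have vet : V.valuation (et (R.L R.i0) u (R.om R.i0 / m)) ≤ 1 := by
    have := (hG1 1 (by rw [mul_one]; exact isCoprime_one_left)).2.1
    rwa [eone, one_mul] at this
  -- the product
  obtain ⟨P', Q', hP', hQ', hPQ⟩ := h2 V (Σ _ : J, ι × OO A B) (Finset.univ.sigma X)
    (fun p => P p.2) (fun p => Q p.2) (fun p => g p.1) (Set.range ξ) (by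
      intro p hp
      have hp' := (Finset.mem_sigma.1 hp).2
      refine ⟨(hG _ (hq2 _ _ hp')).1, (hG _ (hq2 _ _ hp')).2.1, ?_⟩
      rintro _ ⟨b, rfl⟩
      have := hGb _ _ hp' b
      rw [hξ]
      exact ⟨this.2.2.1, this.2.2.2.1⟩)
  have hPb := fun b => hPQ (ξ b) ⟨b, rfl⟩
  obtain ⟨κ0, hκ0⟩ : ∃ κ0 : ℂ, κ0 = ∏ p ∈ Finset.univ.sigma X, κ p.2 ^ g p.1 := ⟨_, rfl⟩
  have hW : ∀ b : OO A B, (∏ j, (∏ q ∈ X j, ThetaH (R.L q.1) (H q.1)
      (pt R m q.1 (cc (2 ^ n * f * a) b * q.2))) ^ g j) * Q'.eval (ξ b) =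
      κ0 * P'.eval (ξ b) := by
    intro b
    obtain ⟨p1, p2, p3, -⟩ := hPb b
    have hne : ∏ p ∈ Finset.univ.sigma X, (Q p.2).eval (ξ b) ^ g p.1 ≠ 0 := by
      refine Finset.prod_ne_zero_iff.2 fun p hp => zpow_ne_zero _ fun h0 => ?_
      have := (hGb _ _ (Finset.mem_sigma.1 hp).2 b).2.2.2.1
      rw [← hξ, h0, map_zero] at this
      exact zero_ne_one this
    have h11 : (∏ p ∈ Finset.univ.sigma X, ThetaH (R.L p.2.1) (H p.2.1)
        (pt R m p.2.1 (cc (2 ^ n * f * a) b * p.2.2)) ^ g p.1) *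
        ∏ p ∈ Finset.univ.sigma X, (Q p.2).eval (ξ b) ^ g p.1 =
        κ0 * ∏ p ∈ Finset.univ.sigma X, (P p.2).eval (ξ b) ^ g p.1 := by
      rw [hκ0, ← Finset.prod_mul_distrib, ← Finset.prod_mul_distrib]
      refine Finset.prod_congr rfl fun p hp => ?_
      have := (hGb _ _ (Finset.mem_sigma.1 hp).2 b).2.2.2.2.1
      rw [← hξ] at this
      rw [← mul_zpow, ← mul_zpow, this]
    rw [prodZ X g (fun q => ThetaH (R.L q.1) (H q.1) (pt R m q.1 (cc (2 ^ n * f * a) b * q.2)))]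
    apply mul_right_cancel₀ hne
    linear_combination (Q'.eval (ξ b)) * h11 - κ0 * p3
  have hκS : Sb V κ0 := by
    rw [hκ0]
    exact Finset.prod_induction _ (Sb V) (fun _ _ => Sb.mul) (Sb.one V) fun p hp =>
      Sb.zpow ⟨_, (hG _ (hq2 _ _ (Finset.mem_sigma.1 hp).2)).2.2.1⟩ _
  obtain ⟨K, hK⟩ := hκS
  have hW0 := hW 0
  simp only [hc0, one_mul] at hW0
  rw [← hy2] at hW0
  have vy : V.valuation y = V.valuation (2 : ℂ) ^ K := by
    have h12 := congrArg V.valuation hW0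
    rw [map_mul, map_mul, (hPb 0).1, (hPb 0).2.1, mul_one, mul_one, map_pow, hK] at h12
    exact (pow_left_inj₀ zero_le zero_le (by norm_num)).1 h12
  have h2K : (2 : ℂ) ^ K ≠ 0 := zpow_ne_zero _ (by norm_num)
  obtain ⟨w, hw⟩ : ∃ w : ℂ, w = y / 2 ^ K := ⟨_, rfl⟩
  have hyw : y = w * 2 ^ K := by rw [hw, div_mul_cancel₀ _ h2K]
  have vw : V.valuation w = 1 := by
    rw [hw, map_div₀, map_zpow₀, vy, div_self (zpow_ne_zero _ (v2_ne V))]
  have hwM : w ∈ RF (idl (A := A) (B := B) (m * a)) := by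
    rw [hw]
    refine div_mem ((te_FAC te_TRA A B hring).1 _ _ ?_ hy) (zpow_mem (ofNat_mem _ 2) K)
    rw [Ideal.span_singleton_le_span_singleton]
    exact ⟨(a : OO A B), by push_cast; ring⟩
  obtain ⟨h, hh, hwh, hsh⟩ := h8 A B V n f a m hS (R.L R.i0) (R.om R.i0) u e a1 a3 hNL0 hgood w
    hwM vw.le
  -- the automorphisms
  have hbot : idl (A := A) (B := B) (m * a) ≠ ⊥ := by
    intro h0
    rw [Ideal.span_singleton_eq_bot] at h0
    have h11 := congrArg emb h0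
    rw [enat, ← hφ 0, map_zero] at h11
    have h12 : m * a ≠ 0 := mul_ne_zero hm0 (by omega)
    exact h12 (by exact_mod_cast h11)
  have hs : ∀ b : OO A B, ∃ s : ℂ ≃+* ℂ, AutC (idl (m * a)) (cc (2 ^ n * f * a) b) s := fun b =>
    h5 A B hring hS.tor ⟨_, ⟨_, _, hNL0⟩⟩ _ hbot _ (c1 b).2.2.1 (c1 b).1
  have hmf : m.primeFactors ⊆ (2 * f).primeFactors := by
    rw [hS.hm, Nat.primeFactors_mul (by positivity) (by omega), Nat.primeFactors_pow _ (by omega),
      Nat.primeFactors_mul (by norm_num) (by omega)]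
  have hm2 : 2 ≤ m := by
    rw [hS.hm]
    have : 0 < 2 ^ n := by positivity
    rw [pow_add]
    nlinarith
  have hsy : ∀ (b : OO A B) (s : ℂ ≃+* ℂ), AutC (idl (m * a)) (cc (2 ^ n * f * a) b) s →
      s w = h.eval (ξ b) ∧ (s y) ^ 2 = ∏ j, (∏ q ∈ X j, ThetaH (R.L q.1) (H q.1)
        (pt R m q.1 (cc (2 ^ n * f * a) b * q.2))) ^ g j ∧ s y = s w * 2 ^ K := by
    intro b s hs
    refine ⟨?_, ?_, ?_⟩
    · rw [hξ]
      exact hsh _ _ hs (c1 b).2.2.2.1
    · rw [← map_pow, hy2, map_prod]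
      refine Finset.prod_congr rfl fun j _ => ?_
      rw [map_zpow₀, map_prod]
      congr 1
      refine Finset.prod_congr rfl fun q hq => ?_
      obtain ⟨-, -, -, hpt⟩ := te_PT te_TRA A B hring (2 * f) ι R (by omega) q.1
      obtain ⟨-, hzm, hzo, -⟩ := hpt m hm0 hmf q.2
      have hNLi : NL A B (R.L q.1) := ⟨_, _, R.nl q.1⟩
      have hzL : pt R m q.1 q.2 ∉ (R.L q.1).lattice := by
        intro h0
        have := hzo (hX j q hq) 1 (by rwa [Nat.cast_one, one_mul])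
        have := Nat.le_of_dvd one_pos this
        omega
      have hzT : Tor (idl (A := A) (B := B) (m * a)) (R.L q.1) (pt R m q.1 q.2) := by
        refine ((te_TRA A B hring _ hNLi).2.2.2.2.1 _ _).2 ?_
        rw [enat]
        have h1 := nsmul_mem hzm a
        rw [nsmul_eq_mul] at h1
        have h2 : ((m * a : ℕ) : ℂ) * pt R m q.1 q.2 = (a : ℂ) * ((m : ℂ) * pt R m q.1 q.2) := by
          push_cast
          ring
        rw [h2]
        exact h1
      rw [h6 A B hring _ hNLi a (H q.1) (hH q.1) (idl (A := A) (B := B) (m * a)) (by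
        rw [Ideal.span_singleton_le_span_singleton]
        exact ⟨((m : ℕ) : OO A B), by push_cast; ring⟩) _ s hs (c1 b).2.2.2.2.2 _ hzT hzL]
      congr 1
      rw [pt, pt, emul]
      ring
    · rw [hyw, map_mul, map_zpow₀, map_ofNat]
  have hκne : κ0 ≠ 0 := by
    intro h0
    rw [h0, map_zero] at hK
    exact (pow_ne_zero 2 (zpow_ne_zero K (v2_ne V))) hK.symm
  have key : ∀ b, P'.eval (ξ b) = ((2 ^ K) ^ 2 / κ0) * h.eval (ξ b) ^ 2 * Q'.eval (ξ b) := by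
    intro b
    obtain ⟨s, hs⟩ := hs b
    obtain ⟨s1, s2, s3⟩ := hsy b s hs
    have h11 := hW b
    rw [← s2, s3, s1] at h11
    field_simp
    linear_combination -h11
  have vκ : V.valuation ((2 ^ K) ^ 2 / κ0) = 1 := by
    rw [map_div₀, map_pow, map_zpow₀, hK, div_self (pow_ne_zero 2 (zpow_ne_zero K (v2_ne V)))]
  -- the distances
  obtain ⟨hz1, hz2⟩ := base hring hNL0 hm0
  obtain ⟨i1, i2, -⟩ := h9 V (R.L R.i0) u e a1 a3 hgood hC.v2 (n + 2) f a hS.f3 hS.fo hS.ao hS.af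
    (R.om R.i0 / m) (by rw [← hS.hm]; exact hz1) (by rw [← hS.hm]; exact hz2)
  obtain ⟨⟨S, hS0, hS1, hS2⟩, hS'⟩ := h4 V (R.L R.i0) u e a1 a3 hgood hC.v2 _ i1 i2
  obtain ⟨S', hS0', hS1', hS2'⟩ := hS' _ c73 c74
  obtain ⟨-, -, -, -, -, -, -, -, hper⟩ := h3 V (R.L R.i0) u e a1 a3 hgood hC.v2
  have hSb : ∀ x ∈ S, ∃ b, x = ξ b := by
    intro x hx
    obtain ⟨Y, hY, rfl⟩ := (hS1 x hx).2
    obtain ⟨b, hb⟩ := c75 Y hY
    refine ⟨b, ?_⟩
    rw [hξ, c71 b, ← ((hper (R.om R.i0 / m + emb b * (a * R.om R.i0 / 4))).1 _ hb).1]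
    congr 1
    ring
  have hSh : ∀ x ∈ S', h.eval x = h.eval (xu (R.L R.i0) u e (R.om R.i0 / m)) := by
    intro x hx
    obtain ⟨k', -, rfl⟩ := (hS1' x hx).2
    obtain ⟨s, hs⟩ := hs ((k' : OO A B) * del)
    have hk : xu (R.L R.i0) u e (R.om R.i0 / m + k' * (emb (del : OO A B) *
        (a * R.om R.i0 / 4))) = ξ ((k' : OO A B) * del) := by
      rw [hξ, c71, c72]
    obtain ⟨s1, -, s3⟩ := hsy _ s hs
    have s4 := hinv k' s hs
    rw [hk, ← s1, ← hwh]
    apply mul_right_cancel₀ h2K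
    rw [← s3, s4]
    exact hyw
  have hLag := (h1 V S _ hS0 (by rw [← hξ0]; exact vξ 0) (fun x hx => (hS1 x hx).1)).2.2.2 P' Q' h
    ((2 ^ K) ^ 2 / κ0) S' hP' hQ' hh vκ.le hS0' (fun x hx => (hS1' x hx).1)
    (by rw [← hξ0]; exact key 0)
    (fun x hx => by obtain ⟨b, rfl⟩ := hSb x hx; exact key b) hSh
  have hdl : V.valuation (dlg P' Q' (ξ 0)) ^ 2 ≤ V.valuation (2 : ℂ) ^ 3 := by
    rw [dlg, map_div₀, map_mul, (hPb 0).1, (hPb 0).2.1, mul_one, div_one, hξ0]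
    refine (pow_le_pow_left' hLag 2).trans ?_
    rcases le_total (V.valuation (2 : ℂ) * ∏ x ∈ S', V.valuation
      (xu (R.L R.i0) u e (R.om R.i0 / m) - x)) (∏ x ∈ S, V.valuation
      (xu (R.L R.i0) u e (R.om R.i0 / m) - x)) with h11 | h11
    · rw [max_eq_right h11]
      refine (pow_le_pow_left' hS2 2).trans ?_
      rw [← pow_mul]
      exact pow_le_pow_right_of_le_one' hC.v2.le (by norm_num)
    · rw [max_eq_left h11, mul_pow, pow_succ (V.valuation (2 : ℂ)) 2]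
      exact mul_le_mul' le_rfl hS2'
  have hsum : (∑ j, (g j : ℂ) * ∑ q ∈ X j, emb q.2 * muX R q.1 *
      dlX (R.L q.1) a (pt R m q.1 q.2)) / u =
      dlg P' Q' (ξ 0) * et (R.L R.i0) u (R.om R.i0 / m) := by
    rw [(hPb 0).2.2.2, Finset.sum_sigma, Finset.sum_mul, Finset.sum_div]
    refine Finset.sum_congr rfl fun j _ => ?_
    rw [Finset.mul_sum, Finset.sum_div, Finset.sum_mul]
    refine Finset.sum_congr rfl fun q hq => ?_
    have h12 := (hGb j q hq 0).2.2.2.2.2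
    rw [← hξ, hc0, eone, one_mul, one_mul] at h12
    rw [mul_assoc (g j : ℂ), ← h12]
    ring
  rw [hsum, map_mul, mul_pow]
  exact (mul_le_mul' hdl (pow_le_one' vet 2)).trans (mul_one _).le

end

end Pool.Agent.N2E


end

section

/-!
# MUX-2N, block E2N, module GPO (helper89)

The values of `Θ_a` at the points `(i, x)` as rational functions over `V` of `x(P)`.
Model: the lemma `point` of `Pool/Agent/NS/E_ONE.lean` (helper76).
-/

set_option autoImplicit false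

open Polynomial

namespace Pool.Agent.N2E

open _root_.MU3 _root_.Pool.Agent.MU3A _root_.Pool.Agent.MU3B _root_.Pool.Agent.MUX _root_.Pool.Agent.MUXU _root_.Pool.Agent.MUXE
open _root_.Pool.Agent.RI _root_.Pool.Agent.NS _root_.Pool.Agent.N2
open _root_.Pool.Agent.NSE (IntP)
open _root_.Pool.Agent.MUX2 (GRG)
open _root_.Pool.Agent.MUXV (InK tX)

noncomputable section

namespace GPO

/-- `|H|` is even if `a` is odd -/
lemma card2 {L : PeriodPair} {a : ℕ} {H : Finset ℂ} (ha : a ≠ 0) (h2 : ¬ 2 ∣ a)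
    (hH : IsHalf L (a : ℂ) H) : 2 ∣ H.card := by
  obtain ⟨-, -, h⟩ := b_HRE L a H (by exact_mod_cast ha) (fun w hw => by
    have := nsmul_mem hw a
    rwa [nsmul_eq_mul] at this) hH
  have h1 : 2 * H.card + 1 = a ^ 2 := by
    rw [Complex.norm_natCast] at h
    exact_mod_cast h
  have h3 : a ^ 2 % 4 = 1 := by
    rw [Nat.pow_mod]
    have h4 : a % 4 = 1 ∨ a % 4 = 3 := by omega
    rcases h4 with h4 | h4 <;> rw [h4]
  omega

/-- `v(u²)` is a power of `v 2` -/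
lemma usq (h7 : Sd_UNR) {A B : ℤ} {V : ValuationSubring ℂ} (hC : CtxT A B V)
    (hT : TorX A B) {L : PeriodPair} {u e a1 a3 : ℂ} (hL : NL A B L)
    (hg : GoodT V L u e a1 a3) :
    ∃ k : ℤ, V.valuation (u ^ 2) = V.valuation (2 : ℂ) ^ k := by
  obtain ⟨w₁, w₂, h1, h2, h1', h2', -, -, -, hu⟩ := hg.tor
  have hring := hC.ring
  obtain ⟨φ, hφ⟩ := hring.hom
  have e3 : emb ((3 : ℕ) : OO A B) = 3 := by rw [← hφ, map_natCast]; norm_num
  obtain ⟨-, hx, -⟩ := te_FAC te_TRA A B hring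
  have hsp := (te_TRA A B hring L hL).2.2.2.2.1
  have m1 : xn L w₁ ∈ RF (idl (A := A) (B := B) 3) :=
    (hx _ L hL).2 w₁ ((hsp _ _).2 (by rw [e3]; exact h1)) h1'
  have m2 : xn L w₂ ∈ RF (idl (A := A) (B := B) 3) :=
    (hx _ L hL).2 w₂ ((hsp _ _).2 (by rw [e3]; exact h2)) h2'
  have e4 : u ^ 2 = xn L w₂ - xn L w₁ := by
    rw [hu, xn, xn]
    ring
  refine h7 A B V hC hT 3 (by norm_num) (by norm_num) _ ?_ (pow_ne_zero 2 hg.u0)
  rw [e4]
  exact sub_mem m2 m1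

end GPO

open _root_.Pool.Agent.N2E.GPO in
/-- (GPO) the values of `Θ_a` at the points `(i, x)`. -/
theorem td_GPO (h2 : Sd_GRT) (h3 : Sd_THT) (h4 : Sd_NE1) (h5 : Sd_MUL)
    (h6 : Sd_UNR) : Sd_GPO := by
  intro A B V n f a m hS ι R u e a1 a3 hgood i H hH x hx
  have hC := hS.ctx
  have hT := hS.tor
  have hf3 := hS.f3
  have hf := hS.fo
  have hpa := hS.ao
  have ha0 : a ≠ 0 := by have := hS.a3; omega
  have hring := hC.ring
  obtain ⟨φ, hφ⟩ := hring.hom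
  have emul : ∀ x y : OO A B, emb (x * y) = emb x * emb y := fun x y => by
    rw [← hφ, map_mul, hφ, hφ]
  obtain rfl := hS.hm
  obtain ⟨hmu, hisg, hodd⟩ := h5 A B V hC (2 * f) ι R (by omega) (dvd_mul_right _ _) i x hx
  have hm0 : 2 ^ (n + 2) * f ≠ 0 := mul_ne_zero (by positivity) (by omega)
  have hmf : (2 ^ (n + 2) * f).primeFactors ⊆ (2 * f).primeFactors := by
    rw [Nat.primeFactors_mul (by positivity) (by omega), Nat.primeFactors_pow _ (by omega),
      Nat.primeFactors_mul (by norm_num) (by omega)]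
  obtain ⟨-, -, -, hpt⟩ := te_PT te_TRA A B hring (2 * f) ι R (by omega) i
  obtain ⟨u', e', a1', a3', hg'⟩ := hC.good (R.L i) ⟨_, _, R.nl i⟩
  have hI : IsoT V (R.L R.i0) (R.L i) u e a1 a3 u' e' a1' a3' (muX R i * emb x) :=
    ⟨hgood, hg', hC.v2, hmu, hisg, hodd⟩
  obtain ⟨P, Q, hP, hQ, hPQ⟩ := h3 V (R.L R.i0) (R.L i) u e a1 a3 u' e' a1' a3' _ hI a H ha0 hH
  obtain ⟨k, hk⟩ := usq h6 hC hT ⟨_, _, R.nl i⟩ hg'
  obtain ⟨t, ht⟩ := card2 ha0 hpa hH
  refine ⟨(u' ^ 2) ^ H.card, k * t, P, Q, hP, hQ, ?_, ?_⟩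
  · rw [map_pow, hk, ht, ← zpow_natCast, ← zpow_natCast, ← zpow_mul, ← zpow_mul]
    congr 1
    push_cast
    ring
  intro c hc
  obtain ⟨hz, hzm, hzo, -⟩ := hpt (2 ^ (n + 2) * f) hm0 hmf (c * x)
  obtain ⟨hzK, -, hza, hzq⟩ := h4 V (R.L i) u' e' a1' a3' hg' hC.v2 (n + 2) f a hf3 hf hpa
    hS.af _ hzm (hzo hc)
  have ez : muX R i * emb x * (emb c * (R.om R.i0 / (2 ^ (n + 2) * f : ℕ))) =
      pt R (2 ^ (n + 2) * f) i (c * x) := by
    rw [hz, emul]
    ring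
  obtain ⟨k1, k2, k3, k4, k5⟩ := hPQ (emb c * (R.om R.i0 / (2 ^ (n + 2) * f : ℕ)))
    (by rw [ez]; exact hzK) (by rw [ez]; exact hza) (fun q hq => by
      rw [ez]
      exact hzq q (hH.mem q hq) (fun hqL => hH.ne q hq (by
        have hqq := add_mem hqL hqL
        rwa [← two_mul] at hqq)))
  rw [ez] at k4 k5
  obtain ⟨ξ, G⟩ := h2 V (R.L R.i0) u e a1 a3 hgood hC.v2
  have vx := (Pool.Agent.MUXV.int_X k1).2
  have vy := Pool.Agent.MUX2.gInt_Y G k1
  have v2 : V.valuation (2 : ℂ) ≤ 1 := hC.v2.le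
  have e1 : et (R.L R.i0) u (emb c * (R.om R.i0 / (2 ^ (n + 2) * f : ℕ))) =
      2 * yt (R.L R.i0) u e a1 a3 (emb c * (R.om R.i0 / (2 ^ (n + 2) * f : ℕ))) +
        a1 * xu (R.L R.i0) u e (emb c * (R.om R.i0 / (2 ^ (n + 2) * f : ℕ))) + a3 := by
    rw [yt]
    ring
  have ve : V.valuation (et (R.L R.i0) u (emb c * (R.om R.i0 / (2 ^ (n + 2) * f : ℕ)))) ≤ 1 := by
    rw [e1]
    refine (Valuation.map_add _ _ _).trans (max_le ?_ hgood.v3.le)
    refine (Valuation.map_add _ _ _).trans (max_le ?_ ?_)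
    · rw [map_mul]
      exact mul_le_one' v2 vy
    · rw [map_mul]
      exact mul_le_one' (hgood.v1.trans v2) vx
  exact ⟨vx, ve, k2, k3, k4, k5⟩

end

end Pool.Agent.N2E


end

section

/-!
# MUX-2N, block E2N, module DEG: the degree of `RF (2^(j+1) f)` over `RF (f)` (helper92)

The proof of `Pool/Agent/NS/E_DEG.lean` with `2` instead of `3`.
-/

set_option autoImplicit false

open Polynomial

namespace Pool.Agent.N2E

open _root_.MU3 _root_.Pool.Agent.MU3A _root_.Pool.Agent.MU3B _root_.Pool.Agent.MUX _root_.Pool.Agent.MUXU _root_.Pool.Agent.MUXE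
open _root_.Pool.Agent.RI _root_.Pool.Agent.NS _root_.Pool.Agent.N2

noncomputable section

namespace DEG

lemma mem_idl_of {A B : ℤ} (n : ℕ) (x : OO A B) (h1 : (n : ℤ) ∣ x.re) (h2 : (n : ℤ) ∣ x.im) :
    x ∈ idl (A := A) (B := B) n := by
  obtain ⟨a, ha⟩ := h1
  obtain ⟨b, hb⟩ := h2
  rw [Ideal.mem_span_singleton]
  refine ⟨⟨a, b⟩, ?_⟩
  ext <;> simp [ha, hb]

/-- the pairs modulo `2^(j+1)` which are not divisible by `2` -/
def box (j : ℕ) : Finset (ℕ × ℕ) :=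
  (Finset.range (2 ^ (j + 1)) ×ˢ Finset.range (2 ^ (j + 1))) \
    ((Finset.range (2 ^ j) ×ˢ Finset.range (2 ^ j)).image fun q => (2 * q.1, 2 * q.2))

lemma card_box (j : ℕ) : (box j).card = 3 * 4 ^ j := by
  unfold box
  rw [Finset.card_sdiff_of_subset, Finset.card_image_of_injective]
  · simp only [Finset.card_product, Finset.card_range]
    have h1 : 2 ^ (j + 1) * 2 ^ (j + 1) = 4 * 4 ^ j := by
      rw [← mul_pow, pow_succ]; norm_num [mul_comm]
    have h2 : 2 ^ j * 2 ^ j = 4 ^ j := by rw [← mul_pow]; norm_num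
    rw [h1, h2]
    omega
  · rintro ⟨a, b⟩ ⟨c, d⟩ h
    simp only [Prod.mk.injEq] at h ⊢
    omega
  · intro q hq
    simp only [Finset.mem_image, Finset.mem_product, Finset.mem_range] at hq ⊢
    obtain ⟨q', ⟨h1, h2⟩, rfl⟩ := hq
    rw [pow_succ]
    constructor <;> simp only <;> omega

/-- the class of an element -/
def cls {A B : ℤ} (j : ℕ) (x : OO A B) : ℕ × ℕ :=
  ((x.re % (2 ^ (j + 1) : ℕ)).toNat, (x.im % (2 ^ (j + 1) : ℕ)).toNat)

lemma cls_mem {A B : ℤ} (j : ℕ) (x : OO A B) (hx : x ∉ idl (A := A) (B := B) 2) :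
    cls j x ∈ box j := by
  have hN : (0 : ℤ) < ((2 ^ (j + 1) : ℕ) : ℤ) := by positivity
  have h1 := Int.emod_nonneg x.re hN.ne'
  have h2 := Int.emod_lt_of_pos x.re hN
  have h3 := Int.emod_nonneg x.im hN.ne'
  have h4 := Int.emod_lt_of_pos x.im hN
  unfold box cls
  rw [Finset.mem_sdiff]
  constructor
  · simp only [Finset.mem_product, Finset.mem_range]
    omega
  · intro h
    simp only [Finset.mem_image, Finset.mem_product, Finset.mem_range, Prod.mk.injEq] at h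
    obtain ⟨q, -, e1, e2⟩ := h
    apply hx
    have h5 : (2 : ℤ) ∣ ((2 ^ (j + 1) : ℕ) : ℤ) := by
      push_cast
      exact dvd_pow_self 2 (by omega)
    have h6 := Int.emod_add_mul_ediv x.re ((2 ^ (j + 1) : ℕ) : ℤ)
    have h7 := Int.emod_add_mul_ediv x.im ((2 ^ (j + 1) : ℕ) : ℤ)
    apply mem_idl_of
    · rw [← h6]
      refine dvd_add ?_ (dvd_mul_of_dvd_left (by exact_mod_cast h5) _)
      push_cast
      exact ⟨q.1, by push_cast at e1 h1 ⊢; omega⟩
    · rw [← h7]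
      refine dvd_add ?_ (dvd_mul_of_dvd_left (by exact_mod_cast h5) _)
      push_cast
      exact ⟨q.2, by push_cast at e2 h3 ⊢; omega⟩

lemma cls_inj {A B : ℤ} (j : ℕ) (x y : OO A B) (h : cls j x = cls j y) :
    x - y ∈ idl (A := A) (B := B) (2 ^ (j + 1)) := by
  have hN : (0 : ℤ) < ((2 ^ (j + 1) : ℕ) : ℤ) := by positivity
  have h1 := Int.emod_nonneg x.re hN.ne'
  have h2 := Int.emod_nonneg y.re hN.ne'
  have h3 := Int.emod_nonneg x.im hN.ne'
  have h4 := Int.emod_nonneg y.im hN.ne'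
  unfold cls at h
  rw [Prod.mk.injEq] at h
  obtain ⟨e1, e2⟩ := h
  have e3 : x.re % ((2 ^ (j + 1) : ℕ) : ℤ) = y.re % ((2 ^ (j + 1) : ℕ) : ℤ) := by omega
  have e4 : x.im % ((2 ^ (j + 1) : ℕ) : ℤ) = y.im % ((2 ^ (j + 1) : ℕ) : ℤ) := by omega
  apply mem_idl_of
  · show ((2 ^ (j + 1) : ℕ) : ℤ) ∣ x.re - y.re
    exact Int.ModEq.dvd (Int.ModEq.symm e3)
  · show ((2 ^ (j + 1) : ℕ) : ℤ) ∣ x.im - y.im
    exact Int.ModEq.dvd (Int.ModEq.symm e4)

end DEG

open _root_.Pool.Agent.N2E.DEG in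
theorem td_DEG : Sd_DEG := by
  classical
  intro A B V hC hG j f hf h3f
  have hR := hC.ring
  obtain ⟨f1, -, f3, -, f5⟩ := Pool.Agent.MUXE.te_FAC Pool.Agent.MUXE.te_TRA A B hR
  -- ideals
  set m : Ideal (OO A B) := idl (A := A) (B := B) (2 ^ (j + 1) * f) with hm
  set m' : Ideal (OO A B) := idl (A := A) (B := B) f with hm'
  have hmm' : m ≤ m' := Ideal.span_singleton_le_span_singleton.2
    (by push_cast; exact Dvd.intro_left _ rfl)
  have hm3 : m ≤ idl (A := A) (B := B) 2 := Ideal.span_singleton_le_span_singleton.2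
    (by
      push_cast
      exact dvd_mul_of_dvd_left (dvd_pow_self _ (by omega)) _)
  have hm0 : m ≠ ⊥ := by
    intro h0
    have h4 : (((2 ^ (j + 1) * f : ℕ)) : OO A B) ∈ m := Ideal.mem_span_singleton_self _
    rw [h0, Ideal.mem_bot] at h4
    obtain ⟨φ, hφ⟩ := hR.hom
    have h5 : φ (((2 ^ (j + 1) * f : ℕ)) : OO A B) = ((2 ^ (j + 1) * f : ℕ) : ℂ) := map_natCast φ _
    rw [h4, map_zero] at h5
    have h6 : (2 ^ (j + 1) * f : ℕ) = 0 := by exact_mod_cast h5.symm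
    exact (mul_ne_zero (pow_ne_zero _ (by norm_num)) hf) h6
  have hcop : IsCoprime (((2 ^ (j + 1) : ℕ)) : OO A B) ((f : ℕ) : OO A B) := by
    have h4 : Nat.Coprime (2 ^ (j + 1)) f :=
      Nat.Coprime.pow_left _ ((Nat.Prime.coprime_iff_not_dvd Nat.prime_two).2 h3f)
    have h5 := (Nat.isCoprime_iff_coprime.2 h4).intCast (R := OO A B)
    simpa using h5
  have hinf : ∀ x : OO A B, x ∈ idl (A := A) (B := B) (2 ^ (j + 1)) → x ∈ m' → x ∈ m := by
    intro x h4 h5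
    rw [Ideal.mem_span_singleton] at h4 h5
    rw [hm, Ideal.mem_span_singleton, Nat.cast_mul]
    exact hcop.mul_dvd h4 h5
  -- fields
  have hF : RF m' ≤ RF m := f1 m m' hmm'
  haveI := hG.fin m hm0
  haveI := hG.gal m hm0
  rw [← Pool.Agent.FX.card_fix hF]
  refine Nat.mul_le_mul_right _ ?_
  -- the kernel
  have hker : ∀ σ : Pool.Agent.FX.Fix (RF m') (RF m), ∃ α : OO A B, α - 1 ∈ m' ∧
      ActE (_root_.Pool.Agent.MU3A.em σ.1) m α := by
    intro σ
    refine hG.ker m m' hm0 hmm' (_root_.Pool.Agent.MU3A.em σ.1) ?_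
    intro y hy hy'
    exact σ.2 y hy hy'
  choose α hα1 hα2 using hker
  have hα3 : ∀ σ, α σ ∉ idl (A := A) (B := B) 2 := by
    intro σ hσ
    have h4 := (hα2 σ).1
    have h5 : sp (α σ) ≤ idl (A := A) (B := B) 2 := (Ideal.span_singleton_le_iff_mem _).2 hσ
    have h7 : sp (α σ) ⊔ m = ⊤ := Ideal.isCoprime_iff_sup_eq.1 h4
    have h8 : (⊤ : Ideal (OO A B)) ≤ idl (A := A) (B := B) 2 := h7 ▸ sup_le h5 hm3
    exact hC.max.ne_top (top_le_iff.1 h8)
  have hinj : ∀ σ τ, α σ - α τ ∈ idl (A := A) (B := B) (2 ^ (j + 1)) → σ = τ := by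
    intro σ τ h
    have h4 : α σ - α τ ∈ m' := by
      have := sub_mem (hα1 σ) (hα1 τ)
      rwa [sub_sub_sub_cancel_right] at this
    have h5 : α σ - α τ ∈ m := hinf _ h h4
    have h6 := f5 m (RF m) (_root_.Pool.Agent.MU3A.em σ.1) (α σ) (α τ) (Or.inl h5) (hα2 σ)
    have h7 := f3 m _ _ _ h6 (hα2 τ)
    exact Pool.Agent.FX.fix_ext fun x => DFunLike.congr_fun h7 x
  have hcard : Nat.card (Pool.Agent.FX.Fix (RF m') (RF m)) ≤ Nat.card (box j) := by
    refine Nat.card_le_card_of_injective (fun σ => ⟨cls j (α σ), cls_mem j _ (hα3 σ)⟩) ?_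
    intro σ τ h
    exact hinj _ _ (cls_inj j _ _ (congrArg Subtype.val h))
  refine hcard.trans (le_of_eq ?_)
  rw [Nat.card_eq_fintype_card, Fintype.card_coe, card_box]

end

end Pool.Agent.N2E


end
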