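import Mathlib
import Pool.Agent.MVF.C047
import Pool.Agent.MVF.C058
import Pool.Agent.MVF.C061
import Pool.Agent.MVF.C063

/-! Parts: N2.V_COS, N2.V_RAT, N2.V_GRT, N2.E_SIG, N2.E_UNT -/

namespace Pool.Agent.N2E.UNT
end Pool.Agent.N2E.UNT

section

/-!
# MUX-2R, block ER2: COS, a stable set is a union of orbits of 16 elements
-/

set_option autoImplicit false

namespace Pool.Agent.N2V

open _root_.MU3 _root_.Pool.Agent.MU3A _root_.Pool.Agent.MU3B _root_.Pool.Agent.MUX _root_.Pool.Agent.MUXU _root_.Pool.Agent.MUXE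
open _root_.Pool.Agent.RI _root_.Pool.Agent.NS _root_.Pool.Agent.N2
open _root_.Pool.Agent.NSE (IntP)
open _root_.Pool.Agent.MUX2 (GRG)
open _root_.Pool.Agent.MUXV (InK tX)
open _root_.Pool.Agent.N2E (dlg AutC cc)

noncomputable section

namespace COS

/-- a finite set which is a union of classes -/
theorem classes {α : Type} [DecidableEq α] (O : α → Finset α) (S : Finset α)
    (h1 : ∀ q ∈ S, q ∈ O q) (h2 : ∀ q ∈ S, O q ⊆ S) (h3 : ∀ q ∈ S, ∀ r ∈ O q, O r = O q) :
    ∃ T : Finset α, T ⊆ S ∧ (∀ t ∈ T, ∀ t' ∈ T, t ≠ t' → Disjoint (O t) (O t')) ∧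
      T.biUnion O = S := by
  classical
  let rep : Finset α → Option α := fun U => if h : U.Nonempty then some h.choose else none
  have hrep : ∀ q ∈ S, ∃ t, rep (O q) = some t ∧ t ∈ O q := by
    intro q hq
    have hne : (O q).Nonempty := ⟨q, h1 q hq⟩
    exact ⟨hne.choose, dif_pos hne, hne.choose_spec⟩
  let T : Finset α := S.filter fun t => rep (O t) = some t
  refine ⟨T, Finset.filter_subset _ _, ?_, ?_⟩
  · intro t ht t' ht' hne
    obtain ⟨hS, hr⟩ := Finset.mem_filter.1 ht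
    obtain ⟨hS', hr'⟩ := Finset.mem_filter.1 ht'
    rw [Finset.disjoint_left]
    intro y hy hy'
    apply hne
    have e : O t = O t' := (h3 t hS y hy).symm.trans (h3 t' hS' y hy')
    rw [e, hr'] at hr
    exact (Option.some_injective _ hr).symm
  · ext q
    rw [Finset.mem_biUnion]
    constructor
    · rintro ⟨t, ht, hq⟩
      exact h2 t (Finset.mem_filter.1 ht).1 hq
    · intro hq
      obtain ⟨t, ht1, ht2⟩ := hrep q hq
      have e : O t = O q := h3 q hq t ht2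
      refine ⟨t, Finset.mem_filter.2 ⟨h2 q hq ht2, ?_⟩, ?_⟩
      · rw [e]
        exact ht1
      · rw [e]
        exact h1 q hq

variable {A B : ℤ}

theorem red (b : OO A B) : ∃ l < 4, ∃ y : OO A B, b = bb l + (y + y) := by
  have e1 : b.re % 2 = 0 ∨ b.re % 2 = 1 := by omega
  have e2 : b.im % 2 = 0 ∨ b.im % 2 = 1 := by omega
  rcases e1 with e1 | e1 <;> rcases e2 with e2 | e2
  · refine ⟨0, by norm_num, ⟨b.re / 2, b.im / 2⟩, ?_⟩
    apply QuadraticAlgebra.ext <;> simp [bb] <;> omega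
  · refine ⟨2, by norm_num, ⟨b.re / 2, b.im / 2⟩, ?_⟩
    apply QuadraticAlgebra.ext <;> simp [bb] <;> omega
  · refine ⟨1, by norm_num, ⟨b.re / 2, b.im / 2⟩, ?_⟩
    apply QuadraticAlgebra.ext <;> simp [bb] <;> omega
  · refine ⟨3, by norm_num, ⟨b.re / 2, b.im / 2⟩, ?_⟩
    apply QuadraticAlgebra.ext <;> simp [bb] <;> omega

theorem bb_inj {m' : ℕ} (hm : m' ≠ 0) {l l' : ℕ} (hl : l < 4) (hl' : l' < 4) {y : OO A B}
    (h : (m' : OO A B) * bb l - (m' : OO A B) * bb l' = ((2 * m' : ℕ) : OO A B) * y) : l = l' := by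
  have hm' : (m' : ℤ) ≠ 0 := by exact_mod_cast hm
  have h1 := congrArg QuadraticAlgebra.re h
  have h2 := congrArg QuadraticAlgebra.im h
  simp only [QuadraticAlgebra.re_sub, QuadraticAlgebra.im_sub, QuadraticAlgebra.re_mul,
    QuadraticAlgebra.im_mul, QuadraticAlgebra.re_natCast, QuadraticAlgebra.im_natCast, zero_mul,
    mul_zero, add_zero, bb] at h1 h2
  push_cast at h1 h2
  have h3 : ((l : ℤ) % 2) - ((l' : ℤ) % 2) = 2 * y.re := by
    apply mul_left_cancel₀ hm'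
    linear_combination h1
  have h4 : ((l : ℤ) / 2) - ((l' : ℤ) / 2) = 2 * y.im := by
    apply mul_left_cancel₀ hm'
    linear_combination h2
  omega

end COS

theorem tv_COS (hCON : Sv_CON) : Sv_COS := by
  classical
  intro A B P V n f a m m' hS ι S hcop hst1 hst2
  obtain ⟨-, -, c3, c4, c5, -⟩ := hCON A B P V n f a m m' hS
  set N : ℕ := NN n f a with hN
  let π := Ideal.Quotient.mk (idl (A := A) (B := B) m)
  let C : ℕ → (OO A B ⧸ idl (A := A) (B := B) m) := fun k => π (cc N ((k : OO A B) * w0))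
  let T : OO A B → (OO A B ⧸ idl (A := A) (B := B) m) := fun b => π ((m' : OO A B) * b)
  have hm2 : m = 2 * m' := by
    rw [hS.hm, hS.hm', pow_succ 2 (n + 1)]
    ring
  have hm0 : m' ≠ 0 := by
    rw [hS.hm']
    have := hS.f3
    positivity
  have mem_m : ∀ x : OO A B, x ∈ idl (A := A) (B := B) m ↔ ∃ y, x = ((m : ℕ) : OO A B) * y :=
    fun x => Ideal.mem_span_singleton
  have hπ : ∀ x y : OO A B, π x = π y ↔ ∃ z, x - y = ((m : ℕ) : OO A B) * z := by
    intro x y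
    rw [← mem_m]
    exact Ideal.Quotient.eq
  -- multiplicativity
  have hle : ∀ x : OO A B, x ∈ idl (A := A) (B := B) (m * a) → x ∈ idl (A := A) (B := B) m := by
    intro x hx
    obtain ⟨y, rfl⟩ := Ideal.mem_span_singleton.1 hx
    refine Ideal.mem_span_singleton.2 ⟨(a : OO A B) * y, ?_⟩
    push_cast
    ring
  have hC : ∀ k l, C k * C l = C (k + l) := by
    intro k l
    show π _ * π _ = π _
    rw [← map_mul]
    exact Ideal.Quotient.eq.2 (hle _ (c3 k l))
  have hC0 : C 0 = 1 := by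
    show π (cc N (((0 : ℕ) : OO A B) * w0)) = 1
    rw [Nat.cast_zero, zero_mul]
    unfold cc
    rw [mul_zero, add_zero, map_one]
  have hC4 : C 4 = 1 + T ((a : OO A B) * w0) := by
    show π _ = 1 + π _
    rw [← map_one π, ← map_add]
    congr 1
    have := c4
    push_cast at this ⊢
    linear_combination this
  have hT : ∀ b b', T (b + b') = T b + T b' := by
    intro b b'
    show π _ = π _ + π _
    rw [← map_add]
    congr 1
    ring
  have hT2 : ∀ y, T (y + y) = 0 := by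
    intro y
    show π _ = 0
    rw [← map_zero π, hπ]
    refine ⟨y, ?_⟩
    rw [hm2]
    push_cast
    ring
  have hNev : ∃ N' : ℕ, N = 2 * N' := by
    refine ⟨2 ^ (n - 2) * f * a, ?_⟩
    rw [hN]
    unfold NN
    have h5 := hS.n5
    have : n - 1 = (n - 2) + 1 := by omega
    rw [this, pow_succ]
    ring
  have hCT : ∀ k b, C k * T b = T b := by
    intro k b
    obtain ⟨N', hN'⟩ := hNev
    show π _ * π _ = π _
    rw [← map_mul, hπ]
    refine ⟨(N' : OO A B) * ((k : OO A B) * w0) * b, ?_⟩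
    unfold cc
    rw [hN', hm2]
    push_cast
    ring
  have hTm : ∀ b y, T b * π y = T (b * y) := by
    intro b y
    show π _ * π _ = π _
    rw [← map_mul]
    congr 1
    ring
  -- normal form
  have nfT : ∀ b, ∃ l < 4, T b = T (bb l) := by
    intro b
    obtain ⟨l, hl, y, hy⟩ := COS.red b
    refine ⟨l, hl, ?_⟩
    rw [hy, hT, hT2, add_zero]
  have nf : ∀ K : ℕ, ∀ (b : OO A B) (x : OO A B), ∃ k < 4, ∃ l < 4,
      C K * π x + T b = C k * π x + T (bb l) := by
    intro K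
    induction K using Nat.strong_induction_on with
    | _ K ih =>
      intro b x
      rcases Nat.lt_or_ge K 4 with h | h
      · obtain ⟨l, hl, e⟩ := nfT b
        exact ⟨K, h, l, hl, by rw [e]⟩
      · obtain ⟨J, rfl⟩ : ∃ J, K = 4 + J := ⟨K - 4, by omega⟩
        obtain ⟨k, hk, l, hl, e⟩ := ih J (by omega) ((a : OO A B) * w0 * x + b) x
        refine ⟨k, hk, l, hl, ?_⟩
        rw [← e, ← hC, hC4, hT, ← hTm ((a : OO A B) * w0) x]
        have : (1 + T ((a : OO A B) * w0)) * C J * π x =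
            C J * π x + C J * T ((a : OO A B) * w0) * π x := by ring
        rw [this, hCT]
        ring
  -- the orbits
  let φ : ι × (OO A B ⧸ idl (A := A) (B := B) m) → ℕ × ℕ →
      ι × (OO A B ⧸ idl (A := A) (B := B) m) := fun q j => (q.1, C j.1 * q.2 + T (bb j.2))
  let R : Finset (ℕ × ℕ) := Finset.range 4 ×ˢ Finset.range 4
  let O : ι × (OO A B ⧸ idl (A := A) (B := B) m) →
      Finset (ι × (OO A B ⧸ idl (A := A) (B := B) m)) := fun q => R.image (φ q)
  have hRm : ∀ j, j ∈ R ↔ j.1 < 4 ∧ j.2 < 4 := by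
    intro j
    simp only [R, Finset.mem_product, Finset.mem_range]
  have hCS : ∀ k, ∀ q ∈ S, ((q.1, C k * q.2) : ι × (OO A B ⧸ idl (A := A) (B := B) m)) ∈ S := by
    intro k
    induction k with
    | zero =>
      intro q hq
      rw [hC0, one_mul]
      exact hq
    | succ k ih =>
      intro q hq
      have h1 := hst1 _ (ih q hq)
      have e : C (k + 1) * q.2 = π (cc N w0) * (C k * q.2) := by
        rw [add_comm k 1, ← hC, mul_assoc]
        congr 1
        show π _ = π _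
        rw [Nat.cast_one, one_mul]
      rw [e]
      exact h1
  have hφS : ∀ q ∈ S, ∀ j, φ q j ∈ S := fun q hq j => hst2 _ (hCS j.1 q hq) (bb j.2)
  have hbb0 : T (bb 0) = 0 := by
    show π _ = 0
    have : (bb 0 : OO A B) = 0 := by
      unfold bb
      apply QuadraticAlgebra.ext <;> simp
    rw [this, mul_zero, map_zero]
  have hφ0 : ∀ q, φ q (0, 0) = q := by
    intro q
    show (q.1, C 0 * q.2 + T (bb 0)) = q
    rw [hC0, one_mul, hbb0, add_zero]
  -- injectivity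
  have key : ∀ x : OO A B, IsCoprime x ((m : ℕ) : OO A B) → ∀ k k' : ℕ, k < k' → k' < 4 →
      ∀ b b' : OO A B, C k * π x + T b ≠ C k' * π x + T b' := by
    intro x hx k k' hkk hk4 b b' h
    -- everything modulo `m'`
    let π' := Ideal.Quotient.mk (idl (A := A) (B := B) m')
    let D : ℕ → (OO A B ⧸ idl (A := A) (B := B) m') := fun k => π' (cc N ((k : OO A B) * w0))
    have hle' : ∀ x : OO A B, x ∈ idl (A := A) (B := B) m → x ∈ idl (A := A) (B := B) m' := by
      intro x hx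
      obtain ⟨y, rfl⟩ := Ideal.mem_span_singleton.1 hx
      refine Ideal.mem_span_singleton.2 ⟨2 * y, ?_⟩
      rw [hm2]
      push_cast
      ring
    have hD : ∀ k l, D k * D l = D (k + l) := by
      intro k l
      show π' _ * π' _ = π' _
      rw [← map_mul]
      exact Ideal.Quotient.eq.2 (hle' _ (hle _ (c3 k l)))
    have hD4 : D 4 = 1 := by
      show π' _ = 1
      rw [← map_one π']
      refine Ideal.Quotient.eq.2 ?_
      rw [c4]
      refine Ideal.mem_span_singleton.2 ⟨(a : OO A B) * w0, ?_⟩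
      push_cast
      ring
    have e1 : D k * π' x = D k' * π' x := by
      have h1 : π (cc N ((k : OO A B) * w0) * x + (m' : OO A B) * b) =
          π (cc N ((k' : OO A B) * w0) * x + (m' : OO A B) * b') := by
        rw [map_add, map_add, map_mul, map_mul]
        exact h
      obtain ⟨z, hz⟩ := (hπ _ _).1 h1
      show π' _ * π' _ = π' _ * π' _
      rw [← map_mul, ← map_mul]
      refine Ideal.Quotient.eq.2 (Ideal.mem_span_singleton.2 ⟨2 * z - b + b', ?_⟩)
      rw [hm2] at hz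
      push_cast at hz
      linear_combination hz
    have e2 : π' x = D (k' - k) * π' x := by
      have h1 := congrArg (fun t => D (4 - k) * t) e1
      simp only [← mul_assoc, hD] at h1
      have h2 : 4 - k + k = 4 := by omega
      have h3 : 4 - k + k' = 4 + (k' - k) := by omega
      rw [h2, h3, ← hD, hD4, one_mul, one_mul] at h1
      exact h1
    have e3 : π' x = D 2 * π' x := by
      have hj : k' - k = 1 ∨ k' - k = 2 ∨ k' - k = 3 := by omega
      rcases hj with hj | hj | hj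
      · rw [hj] at e2
        calc π' x = D 1 * π' x := e2
          _ = D 1 * (D 1 * π' x) := congrArg (fun t => D 1 * t) e2
          _ = D 2 * π' x := by rw [← mul_assoc, hD]
      · rw [hj] at e2
        exact e2
      · rw [hj] at e2
        calc π' x = D 3 * π' x := e2
          _ = D 3 * (D 3 * π' x) := congrArg (fun t => D 3 * t) e2
          _ = D 2 * π' x := by
            rw [← mul_assoc, hD, show 3 + 3 = 4 + 2 from rfl, ← hD, hD4, one_mul]
    refine c5 x hx ?_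
    have e4 : π' (cc N (((2 : ℕ) : OO A B) * w0) * x) = π' x := by
      rw [map_mul]
      exact e3.symm
    exact Ideal.Quotient.eq.1 e4
  have hπout : ∀ y : OO A B ⧸ idl (A := A) (B := B) m, π (Quotient.out y) = y := fun y =>
    Ideal.Quotient.mk_out y
  have hinj : ∀ q ∈ S, Set.InjOn (φ q) (R : Set (ℕ × ℕ)) := by
    intro q hq j hj j' hj' h
    obtain ⟨h1, h2⟩ := (hRm j).1 hj
    obtain ⟨h1', h2'⟩ := (hRm j').1 hj'
    have h3 : C j.1 * q.2 + T (bb j.2) = C j'.1 * q.2 + T (bb j'.2) := congrArg Prod.snd h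
    have hx := hcop q hq
    rw [← hπout q.2] at h3
    rcases lt_trichotomy j.1 j'.1 with h4 | h4 | h4
    · exact absurd h3 (key _ hx _ _ h4 h1' _ _)
    · rw [h4] at h3
      have h5 := add_left_cancel h3
      obtain ⟨z, hz⟩ := (hπ _ _).1 h5
      rw [hm2] at hz
      exact Prod.ext h4 (COS.bb_inj hm0 h2 h2' hz)
    · exact absurd h3.symm (key _ hx _ _ h4 h1 _ _)
  have hcard : ∀ q ∈ S, (O q).card = R.card := fun q hq => Finset.card_image_of_injOn (hinj q hq)
  have hOS : ∀ q ∈ S, O q ⊆ S := by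
    intro q hq r hr
    obtain ⟨j, -, rfl⟩ := Finset.mem_image.1 hr
    exact hφS q hq j
  have hO3 : ∀ q ∈ S, ∀ r ∈ O q, O r = O q := by
    intro q hq r hr
    have hrS := hOS q hq hr
    refine Finset.eq_of_subset_of_card_le ?_ (by rw [hcard q hq, hcard r hrS])
    intro s hs
    obtain ⟨j, -, rfl⟩ := Finset.mem_image.1 hr
    obtain ⟨i, -, rfl⟩ := Finset.mem_image.1 hs
    obtain ⟨k, hk, l, hl, e⟩ := nf (i.1 + j.1) (bb j.2 + bb i.2) (Quotient.out q.2)
    rw [hπout] at e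
    refine Finset.mem_image.2 ⟨(k, l), (hRm _).2 ⟨hk, hl⟩, ?_⟩
    show (q.1, C k * q.2 + T (bb l)) = (q.1, C i.1 * (C j.1 * q.2 + T (bb j.2)) + T (bb i.2))
    rw [← e, ← hC, hT, mul_add, hCT]
    congr 1
    ring
  obtain ⟨U, hUS, hdis, hun⟩ := COS.classes O S
    (fun q hq => Finset.mem_image.2 ⟨(0, 0), (hRm _).2 ⟨by norm_num, by norm_num⟩, hφ0 q⟩)
    hOS hO3
  let ψ : ι × (OO A B ⧸ idl (A := A) (B := B) m) → ι × OO A B := fun q => (q.1, Quotient.out q.2)
  have hψ : Set.InjOn ψ (U : Set _) := by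
    intro q _ q' _ h
    have h0 : ψ q = ψ q' := h
    have h1 : (ψ q).1 = (ψ q').1 := congrArg Prod.fst h0
    have h2 : (ψ q).2 = (ψ q').2 := congrArg Prod.snd h0
    have h3 : (Quotient.out q.2 : OO A B) = Quotient.out q'.2 := h2
    refine Prod.ext h1 ?_
    rw [← hπout q.2, ← hπout q'.2, h3]
  have hval : ∀ (q : ι × (OO A B ⧸ idl (A := A) (B := B) m)) (k l : ℕ),
      (((ψ q).1, Ideal.Quotient.mk (idl (A := A) (B := B) m)
        (cc N ((k : OO A B) * w0) * (ψ q).2 + (m' : OO A B) * bb l)) :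
        ι × (OO A B ⧸ idl (A := A) (B := B) m)) = φ q (k, l) := by
    intro q k l
    refine Prod.ext rfl ?_
    show π _ = C k * q.2 + T (bb l)
    rw [map_add, map_mul]
    show C k * π (Quotient.out q.2) + T (bb l) = _
    rw [hπout]
  refine ⟨U.image ψ, ?_, ?_, ?_⟩
  · intro t ht
    obtain ⟨q, hq, rfl⟩ := Finset.mem_image.1 ht
    exact hcop q (hUS hq)
  · intro F
    rw [Finset.sum_image hψ, ← hun, Finset.sum_biUnion (by
      intro t ht t' ht' hne
      exact hdis t ht t' ht' hne)]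
    refine Finset.sum_congr rfl fun q hq => ?_
    rw [Finset.sum_image (hinj q (hUS hq)), Finset.sum_product]
    refine Finset.sum_congr rfl fun k _ => Finset.sum_congr rfl fun l _ => ?_
    rw [hval]
  · intro F
    rw [Finset.prod_image hψ, ← hun, Finset.prod_biUnion (by
      intro t ht t' ht' hne
      exact hdis t ht t' ht' hne)]
    refine Finset.prod_congr rfl fun q hq => ?_
    rw [Finset.prod_image (hinj q (hUS hq)), Finset.prod_product]
    refine Finset.prod_congr rfl fun k _ => Finset.prod_congr rfl fun l _ => ?_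
    rw [hval]

end

end Pool.Agent.N2V


end

section

/-!
# MUX-2R, block ER2, module RAT (helper26): the isogeny as a rational function over V
-/

set_option autoImplicit false

open Filter Topology Polynomial

namespace Pool.Agent.N2V

open _root_.MU3 _root_.Pool.Agent.MU3A _root_.Pool.Agent.MU3B _root_.Pool.Agent.MUX _root_.Pool.Agent.MUXU _root_.Pool.Agent.MUXE
open _root_.Pool.Agent.RI _root_.Pool.Agent.NS _root_.Pool.Agent.N2
open _root_.Pool.Agent.NSE (IntP)
open _root_.Pool.Agent.MUX2 (GRG)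
open _root_.Pool.Agent.MUXV (InK tX int_X)
open _root_.Pool.Agent.MUX2 (gInK_congr gv_X_sub)

noncomputable section

open _root_.Pool.Agent.NSE.RAT _root_.Pool.Agent.NSE.UNT in
theorem tv_RAT (h1 : Sv_COE) (h2 : Sv_GRT) (h4 : Sv_UNT) : Sv_RAT := by
  intro V L M u e a1 a3 u' e' a1' a3' μ hiso
  have hν := h4 V L M u e a1 a3 u' e' a1' a3' μ hiso
  have hL := hiso.gL
  have hM := hiso.gM
  have hv2 := hiso.v2
  have hμ := hiso.mu0
  have hI := hiso.isg
  obtain ⟨N, hN2, hN⟩ := hiso.odd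
  obtain ⟨⟨ξ, grL⟩, tL⟩ := h2 V L u e a1 a3 hL hv2
  obtain ⟨⟨ξ', grM⟩, tM⟩ := h2 V M u' e' a1' a3' hM hv2
  obtain ⟨-, -, -, -, -, -, -, -, dL, -⟩ := h1 V L u e a1 a3 hL hv2
  obtain ⟨-, -, -, -, -, -, -, -, dM, -⟩ := h1 V M u' e' a1' a3' hM hv2
  have hN0 : N ≠ 0 := by
    rintro rfl
    exact hN2 (dvd_zero 2)
  have hNpos : 0 < N := Nat.pos_of_ne_zero hN0
  obtain ⟨⟨R, hR⟩, -⟩ := u_BAC.2 L M μ hμ hI
  obtain ⟨l, hl1, hl⟩ := Nat.exists_infinite_primes (3 * N + 1)
  have h2l : ¬ 2 ∣ l := by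
    intro h
    have := (Nat.prime_dvd_prime_iff_eq Nat.prime_two hl).1 h
    omega
  have hlN : ¬ l ∣ N := fun h => by
    have := Nat.le_of_dvd hNpos h
    omega
  have h2m : ¬ 2 ∣ N * l := by
    intro h
    rcases Nat.prime_two.dvd_mul.1 h with h | h
    · exact hN2 h
    · exact h2l h
  have hl0 : (l : ℂ) ≠ 0 := by exact_mod_cast hl.ne_zero
  set w : ℂ := L.ω₁ / l with hw
  have lw : (l : ℂ) * w ∈ L.lattice := by
    rw [hw, mul_div_cancel₀ _ hl0]
    exact L.ω₁_mem_lattice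
  have Nw : (N : ℂ) * w ∉ L.lattice := by
    intro hm
    have e1 : (N : ℂ) * w = ((N : ℤ) : ℂ) * (L.ω₁ / (l : ℂ)) := by
      rw [hw]
      push_cast
      ring
    rw [e1] at hm
    have h5 := frac L _ _ hl.ne_zero hm
    exact hlN (by exact_mod_cast h5)
  have jw : ¬ InK V L (xu L u e) w := fun h => Nw (by
    have := zmul L N ((tL l h2l).2 w lw h)
    simpa using this)
  have jq : ∀ q ∈ R, ¬ InK V L (xu L u e) q := fun q hq h =>
    hR.ne q hq ((tL N hN2).2 q (hN q (hR.mem q hq)) h)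
  have jwq : ∀ q ∈ R, ¬ InK V L (xu L u e) (w + q) := by
    intro q hq h
    have hNq := hN q (hR.mem q hq)
    have hm := (tL (N * l) h2m).2 (w + q) (by
      have e1 : ((N * l : ℕ) : ℂ) * (w + q) = ((N : ℤ) : ℂ) * ((l : ℂ) * w) +
          ((l : ℤ) : ℂ) * ((N : ℂ) * q) := by
        push_cast
        ring
      rw [e1]
      exact add_mem (zmul L _ lw) (zmul L _ hNq)) h
    apply Nw
    have e2 : (N : ℂ) * w = ((N : ℤ) : ℂ) * (w + q) - (N : ℂ) * q := by
      push_cast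
      ring
    rw [e2]
    exact sub_mem (zmul L _ hm) hNq
  have mw : μ * w ∉ M.lattice := fun h => Nw (hN w h)
  have jM : ¬ InK V M (xu M u' e') (μ * w) := fun h => mw ((tM l h2l).2 _ (by
    have e1 : (l : ℂ) * (μ * w) = μ * ((l : ℂ) * w) := by ring
    rw [e1]
    exact hI _ lw) h)
  have vq : ∀ q ∈ R, V.valuation (xu L u e q) ≤ 1 := fun q hq => (int_X (jq q hq)).2
  have vwq : ∀ q ∈ R, V.valuation (xu L u e (w + q)) ≤ 1 := fun q hq => (int_X (jwq q hq)).2
  have vw : V.valuation (xu L u e w) ≤ 1 := (int_X jw).2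
  have vc : V.valuation (xu M u' e' (μ * w)) ≤ 1 := (int_X jM).2
  set c : ℂ := xu M u' e' (μ * w) with hc
  set ν : ℂ := μ * u' / u with hνd
  have vν1 : V.valuation (ν ^ 2) = 1 := by rw [map_pow, hν, one_pow]
  have hν0 : ν ^ 2 ≠ 0 := by
    apply pow_ne_zero
    intro h0
    rw [h0, map_zero] at hν
    exact zero_ne_one hν
  have vν : V.valuation (ν ^ 2) ≤ 1 := vν1.le
  set A : ℂ[X] := ∏ q ∈ R, (X - C (xu L u e q)) with hA
  set B : ℂ[X] := ∏ q ∈ R, (X - C (xu L u e (w + q))) with hB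
  set Q : ℂ[X] := C (ν ^ 2) * A with hQ
  set T : ℂ[X] := (X - C (xu L u e w)) * B with hT
  have iQ : IntP V Q := int_mul (int_C vν) (int_prod R _ vq)
  have evA : ∀ z, A.eval z = ∏ q ∈ R, (z - xu L u e q) := by
    intro z
    rw [hA, eval_prod]
    refine Finset.prod_congr rfl fun q _ => ?_
    rw [eval_sub, eval_X, eval_C]
  have evB : ∀ z, B.eval z = ∏ q ∈ R, (z - xu L u e (w + q)) := by
    intro z
    rw [hB, eval_prod]
    refine Finset.prod_congr rfl fun q _ => ?_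
    rw [eval_sub, eval_X, eval_C]
  -- the first identity
  have hu0 : u ^ 2 ≠ 0 := pow_ne_zero _ hL.u0
  have hu0' : u' ^ 2 ≠ 0 := pow_ne_zero _ hM.u0
  have eL : ∀ a b : ℂ, L.weierstrassP a - L.weierstrassP b =
      u ^ 2 * (xu L u e a - xu L u e b) := by
    intro a b
    unfold xu
    rw [← sub_div, mul_div_cancel₀ _ hu0]
    ring
  have eM : ∀ a b : ℂ, M.weierstrassP a - M.weierstrassP b =
      u' ^ 2 * (xu M u' e' a - xu M u' e' b) := by
    intro a b
    unfold xu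
    rw [← sub_div, mul_div_cancel₀ _ hu0']
    ring
  have id0 : ∀ z, μ * z ∉ M.lattice →
      ν ^ 2 * (xu M u' e' (μ * z) - c) * A.eval (xu L u e z) =
        (xu L u e z - xu L u e w) * B.eval (xu L u e z) := by
    intro z hz
    have pf := u_PFI L M μ R hμ hI hR w mw z hz
    have p1 : ∏ q ∈ R, (L.weierstrassP z - L.weierstrassP q) =
        (u ^ 2) ^ R.card * A.eval (xu L u e z) := by
      rw [evA, ← Finset.prod_const, ← Finset.prod_mul_distrib]
      exact Finset.prod_congr rfl fun q _ => eL _ _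
    have p2 : ∏ q ∈ R, (L.weierstrassP z - L.weierstrassP (w + q)) =
        (u ^ 2) ^ R.card * B.eval (xu L u e z) := by
      rw [evB, ← Finset.prod_const, ← Finset.prod_mul_distrib]
      exact Finset.prod_congr rfl fun q _ => eL _ _
    rw [p1, p2, eM, eL] at pf
    have hpow : (u ^ 2) ^ R.card ≠ 0 := pow_ne_zero _ hu0
    apply mul_left_cancel₀ (mul_ne_zero hu0 hpow)
    rw [hνd]
    have e3 : u ^ 2 * (u ^ 2) ^ R.card * ((μ * u' / u) ^ 2 * (xu M u' e' (μ * z) - c) *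
        A.eval (xu L u e z)) = μ ^ 2 * (u' ^ 2 * (xu M u' e' (μ * z) - c)) *
        ((u ^ 2) ^ R.card * A.eval (xu L u e z)) := by
      have hu : u ≠ 0 := hL.u0
      field_simp
    rw [e3, pf]
    ring
  have id1 : ∀ z, μ * z ∉ M.lattice →
      xu M u' e' (μ * z) * Q.eval (xu L u e z) = (C c * Q + T).eval (xu L u e z) := by
    intro z hz
    have q1 := id0 z hz
    simp only [hQ, hT, eval_add, eval_mul, eval_C, eval_sub, eval_X]
    rw [← q1]
    ring
  -- the kernel of reduction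
  have ker : ∀ z, InK V L (xu L u e) z → InK V M (xu M u' e') (μ * z) := by
    intro z hz
    by_cases hzM : μ * z ∈ M.lattice
    · exact Or.inl hzM
    have hzL : z ∉ L.lattice := fun h => hzM (hI z h)
    have hx : 1 < V.valuation (xu L u e z) := by
      rcases hz with h | h
      · exact absurd h hzL
      · rw [← ValuationSubring.valuation_le_one_iff] at h
        exact not_le.1 h
    have hsub : ∀ a : ℂ, V.valuation a ≤ 1 →
        V.valuation (xu L u e z - a) = V.valuation (xu L u e z) := fun a ha =>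
      Valuation.map_sub_eq_of_lt_left _ (lt_of_le_of_lt ha hx)
    have q1 := congrArg V.valuation (id0 z hzM)
    rw [map_mul, map_mul, vν1, one_mul, map_mul, evA, evB, map_prod, map_prod,
      Finset.prod_congr rfl fun q hq => hsub _ (vq q hq),
      Finset.prod_congr rfl fun q hq => hsub _ (vwq q hq), hsub _ vw, Finset.prod_const] at q1
    have hne : V.valuation (xu L u e z) ^ R.card ≠ 0 :=
      pow_ne_zero _ (ne_of_gt (lt_trans zero_lt_one hx))
    have q2 := mul_right_cancel₀ hne q1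
    refine Or.inr fun h => ?_
    rw [← ValuationSubring.valuation_le_one_iff] at h
    have h6 : V.valuation (xu M u' e' (μ * z) - c) ≤ 1 :=
      (Valuation.map_sub _ _ _).trans (max_le h vc)
    rw [q2] at h6
    exact absurd hx (not_lt.2 h6)
  refine ⟨C c * Q + T, Q, int_add (int_mul (int_C vc) iQ) (int_mul (int_XC vw)
    (int_prod R _ vwq)), iQ, ?_, ker, ?_⟩
  · intro z hz
    refine ⟨id1 z hz, ?_⟩
    have hzL : z ∉ L.lattice := fun h => hz (hI z h)
    have hev : ∀ᶠ t in 𝓝 z, xu M u' e' (μ * t) * Q.eval (xu L u e t) =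
        (C c * Q + T).eval (xu L u e t) := by
      have e2 : ∀ᶠ t in 𝓝 z, μ * t ∉ M.lattice := by
        have hcont : ContinuousAt (fun t : ℂ => μ * t) z := by fun_prop
        exact hcont.eventually_mem ((M.isClosed_lattice.isOpen_compl).mem_nhds hz)
      filter_upwards [e2] with t ht
      exact id1 t ht
    have hxL := dL z hzL
    have hxM := dM (μ * z) hz
    have hM' : HasDerivAt (fun t : ℂ => xu M u' e' (μ * t))
        (u' * et M u' (μ * z) * μ) z := by
      have h5 : HasDerivAt (fun t : ℂ => μ * t) μ z := by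
        simpa using (hasDerivAt_id z).const_mul μ
      exact HasDerivAt.comp z hxM h5
    have hB' : HasDerivAt (fun t : ℂ => Q.eval (xu L u e t))
        ((derivative Q).eval (xu L u e z) * (u * et L u z)) z :=
      HasDerivAt.comp z (Q.hasDerivAt (xu L u e z)) hxL
    have hA' : HasDerivAt (fun t : ℂ => (C c * Q + T).eval (xu L u e t))
        ((derivative (C c * Q + T)).eval (xu L u e z) * (u * et L u z)) z :=
      HasDerivAt.comp z ((C c * Q + T).hasDerivAt (xu L u e z)) hxL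
    have heq := (hM'.mul hB').unique (hA'.congr_of_eventuallyEq hev)
    have hid := id1 z hz
    have hu : u ≠ 0 := hL.u0
    generalize C c * Q + T = P at *
    simp only [eval_sub, eval_mul]
    apply mul_left_cancel₀ hu
    rw [hνd]
    have e5 : u * (μ * u' / u * et M u' (μ * z) * Q.eval (xu L u e z) ^ 2) =
        u' * et M u' (μ * z) * μ * Q.eval (xu L u e z) ^ 2 := by
      field_simp
    rw [e5]
    linear_combination (Q.eval (xu L u e z)) * heq -
      (derivative Q).eval (xu L u e z) * (u * et L u z) * hid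
  · intro z hz
    have hzK : ¬ InK V L (xu L u e) z := fun h => hz (ker z h)
    refine ⟨hzK, ?_⟩
    have hadd : ∀ q : ℂ, μ * q ∈ M.lattice → ¬ InK V L (xu L u e) (z + q) := by
      intro q hq h
      apply hz
      have h7 := ker _ h
      refine (gInK_congr grM (z := μ * (z + q)) (w := μ * z) (Or.inl ?_)).1 h7
      have e8 : μ * (z + q) - μ * z = μ * q := by ring
      rw [e8]
      exact hq
    rw [hQ, eval_mul, eval_C, evA, map_mul, vν1, one_mul, map_prod]
    apply Finset.prod_eq_one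
    intro q hq
    have hμq := hR.mem q hq
    refine gv_X_sub grL hzK (jq q hq) (hadd q hμq) ?_
    have h9 := hadd (-q) (by
      have e9 : μ * -q = -(μ * q) := by ring
      rw [e9]
      exact neg_mem hμq)
    rwa [← sub_eq_add_neg] at h9

end

end Pool.Agent.N2V


end

section

/-!
# MUX-2R, block ER2, module GRT: good reduction of the Deuring model, points of odd order

Port of `Pool/Agent/N2/E_GRT.lean` and of the first part of `Pool/Agent/N2/E_TPT.lean`.
-/

set_option autoImplicit false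

open Polynomial

namespace Pool.Agent.N2V

open _root_.MU3 _root_.Pool.Agent.MU3A _root_.Pool.Agent.MU3B _root_.Pool.Agent.MUX _root_.Pool.Agent.MUXU _root_.Pool.Agent.MUXE
open _root_.Pool.Agent.RI _root_.Pool.Agent.NS _root_.Pool.Agent.N2
open _root_.Pool.Agent.NSE (IntP)
open _root_.Pool.Agent.MUX2 (GRG)
open _root_.Pool.Agent.MUXV (InK tX)
open _root_.Pool.Agent.N2E (dlg AutC cc)

noncomputable section

namespace GRT

theorem v_int (V : ValuationSubring ℂ) (a : ℤ) : V.valuation (a : ℂ) ≤ 1 :=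
  (V.valuation_le_one_iff _).2 (intCast_mem V a)

/-- odd integers are units at `V` -/
theorem v_nat (V : ValuationSubring ℂ) (h2 : V.valuation (2 : ℂ) < 1) (N : ℕ) (hN : ¬ 2 ∣ N) :
    V.valuation (N : ℂ) = 1 := by
  obtain ⟨k, hk⟩ : ∃ k : ℕ, N = 2 * k + 1 := ⟨N / 2, by omega⟩
  refine le_antisymm ?_ (not_lt.1 fun hlt => ?_)
  · have := v_int V (N : ℤ)
    rwa [Int.cast_natCast] at this
  · have h3 : V.valuation ((2 : ℂ) * (k : ℂ)) < 1 := by
      rw [map_mul]
      have := v_int V (k : ℤ)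
      rw [Int.cast_natCast] at this
      exact lt_of_le_of_lt (mul_le_of_le_one_right' this) h2
    have h4 := Valuation.map_sub_lt V.valuation hlt h3
    have h5 : (N : ℂ) - 2 * (k : ℂ) = 1 := by
      rw [hk]
      push_cast
      ring
    rw [h5, map_one] at h4
    exact lt_irrefl _ h4

end GRT

/-- (GRT) the Deuring model has good reduction; points of odd order -/
theorem tv_GRT (h1 : Sv_COE) : Sv_GRT := by
  intro V L u e a b hG h2
  obtain ⟨e1, e2, e3, v3, va, -⟩ := h1 V L u e a b hG h2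
  have hu := hG.u0
  have hui : u⁻¹ ≠ 0 := inv_ne_zero hu
  have huu : u * u⁻¹ = 1 := mul_inv_cancel₀ hu
  have vb := hG.v3
  obtain ⟨ξ, h0, hs⟩ := Pool.Agent.N2E.GRT.hom L e u⁻¹ a b hui
    (by
      rw [e1, mul_assoc, ← mul_pow, huu, one_pow, mul_one])
    (by
      rw [e2, mul_assoc, ← mul_pow, huu, one_pow, mul_one])
    (by
      rw [e3, mul_assoc, ← mul_pow, huu, one_pow, mul_one])
  have G : GRG V (WT a b) L (xu L u e) (yt L u e a b) ξ := by
    refine ⟨?_, ?_, fun z hz => ?_, h0⟩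
    · refine ⟨?_, ?_, ?_, ?_, ?_⟩
      · show V.valuation a ≤ 1
        exact va.le
      · show V.valuation 0 ≤ 1
        rw [map_zero]
        exact zero_le_one
      · show V.valuation b ≤ 1
        rw [vb]
      · show V.valuation 0 ≤ 1
        rw [map_zero]
        exact zero_le_one
      · show V.valuation 0 ≤ 1
        rw [map_zero]
        exact zero_le_one
    · rw [Pool.Agent.N2E.GRT.disc]
      have h4 : V.valuation (3 * 3 * 3 * b) = 1 := by
        simp only [map_mul, v3, vb, mul_one]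
      have h5 : V.valuation (a ^ 3) < 1 := by
        rw [map_pow]
        exact pow_lt_one₀ zero_le va (by norm_num)
      have h6 : V.valuation (a ^ 3 - 3 * 3 * 3 * b) = 1 := by
        have h7 : V.valuation (a ^ 3 - 3 * 3 * 3 * b) = V.valuation (3 * 3 * 3 * b) :=
          Valuation.map_sub_eq_of_lt_right _ (by rw [h4]; exact h5)
        rw [h7, h4]
      simp only [map_mul, vb, h6, mul_one]
    · obtain ⟨hn, hx⟩ := hs z hz
      have g1 : (L.weierstrassP z - e) * u⁻¹ ^ 2 = xu L u e z := by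
        unfold xu
        field_simp
      have g2 : (L.derivWeierstrassP z * u⁻¹ ^ 3 - a * ((L.weierstrassP z - e) * u⁻¹ ^ 2) - b) / 2 =
          yt L u e a b z := by
        rw [g1]
        unfold yt et
        field_simp
      have hn' : (WT a b).Nonsingular (xu L u e z) (yt L u e a b z) := by
        rw [← g1, ← g2]; exact hn
      exact ⟨hn', hx.trans (Pool.Agent.N2E.GRT.some_eq _ _ g1 g2)⟩
  exact ⟨⟨ξ, G⟩, fun N hN => ⟨GRT.v_nat V h2 N hN, fun z hz hK =>
    Pool.Agent.MUX2.gmem_of_nat_mul G hK (GRT.v_nat V h2 N hN) hz⟩⟩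

end

end Pool.Agent.N2V


end

section

/-!
# MUX-2N, block E2N, module SIG: integral elements of the ray class field are polynomials in `x(P)` (model `NS/E_SIG.lean`)
-/

set_option autoImplicit false

open Polynomial

namespace Pool.Agent.N2E

open _root_.MU3 _root_.Pool.Agent.MU3A _root_.Pool.Agent.MU3B _root_.Pool.Agent.MUX _root_.Pool.Agent.MUXU _root_.Pool.Agent.MUXE
open _root_.Pool.Agent.RI _root_.Pool.Agent.NS _root_.Pool.Agent.N2
open _root_.Pool.Agent.NSE (IntP)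
open _root_.Pool.Agent.NSE.SIG (rat_mem intP_sum)
open _root_.Pool.Agent.MUX2 (GRG)
open _root_.Pool.Agent.MUXV (InK tX)

noncomputable section

theorem td_SIG (h1 : Sd_COE) (h2 : Sd_GRT) (h3 : Sd_TPT) (h4 : Sd_UNR) (h5 : Sd_DEG) :
    Sd_SIG := by
  intro A B V n f a m S L om u e a1 a3 hL hgood w hw hvw
  obtain ⟨hC, hT, hn, hf, h3f, h2f, -, h2a, -, rfl⟩ := S
  have hR := hC.ring
  have hG : GalE A B := te_GAL A B hR hT
  obtain ⟨φ, hφ⟩ := hR.hom
  have hmul : ∀ x y : OO A B, emb (x * y) = emb x * emb y := fun x y => by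
    rw [← hφ, map_mul, hφ, hφ]
  have hnat : ∀ k : ℕ, emb ((k : ℕ) : OO A B) = k := fun k => by rw [← hφ, map_natCast]
  have hLn : NL A B L := ⟨⊤, om, hL⟩
  have hom0 := hL.om_ne
  have hv2 := hC.v2
  have hf0 : f ≠ 0 := by omega
  have ha : a ≠ 0 := by rintro rfl; exact h2a (dvd_zero 2)
  have hfa0 : f * a ≠ 0 := Nat.mul_ne_zero hf0 ha
  have h2fa : ¬ 2 ∣ f * a := fun h => by
    rcases (Nat.Prime.dvd_mul (by norm_num)).1 h with h | h
    · exact h2f h
    · exact h2a h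
  have hm0' : 2 ^ (n + 2) * f * a ≠ 0 := by positivity
  have hne : ∀ k : ℕ, k ≠ 0 → idl (A := A) (B := B) k ≠ ⊥ := by
    intro k hk h
    rw [Ideal.span_singleton_eq_bot] at h
    apply hk
    have h' := hnat k
    rw [h, ← hφ, map_zero] at h'
    exact_mod_cast h'.symm
  -- the fields
  have hmm : idl (A := A) (B := B) (2 ^ (n + 2) * f * a) ≤ idl (f * a) := by
    rw [Ideal.span_singleton_le_span_singleton]
    refine ⟨((2 ^ (n + 2) : ℕ) : OO A B), ?_⟩
    push_cast; ring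
  obtain ⟨c1, c2, c3, c4, c5⟩ := Pool.Agent.MUXE.te_FAC Pool.Agent.MUXE.te_TRA A B hR
  have hle := c1 _ _ hmm
  obtain ⟨ξ, G⟩ := h2 V L u e a1 a3 hgood hv2
  obtain ⟨t1, t2⟩ := h3 V L u e a1 a3 hgood hv2
  obtain ⟨w₁, w₂, hw₁, hw₂, hw₁L, hw₂L, -, -, he, hu2⟩ := hgood.tor
  -- torsion points
  have hTor : ∀ (k : ℕ) (z : ℂ), (k : ℂ) * z ∈ L.lattice → Tor (idl (A := A) (B := B) k) L z := by
    intro k z hz x hx
    obtain ⟨y, rfl⟩ := Ideal.mem_span_singleton'.1 hx
    rw [hmul, hnat, mul_assoc]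
    obtain ⟨c, -, hc⟩ := (hL.mem _).1 hz
    exact (hL.mem _).2 ⟨y * c, Submodule.mem_top, by rw [hc, hmul]; ring⟩
  have hint : ∀ (k : ℤ) (z : ℂ), z ∈ L.lattice → (k : ℂ) * z ∈ L.lattice := by
    intro k z hz
    simpa [zsmul_eq_mul] using L.lattice.smul_mem k hz
  obtain ⟨f', hf'⟩ := h3f
  have hthree : ∀ z : ℂ, 3 * z ∈ L.lattice → Tor (idl (A := A) (B := B) (f * a)) L z := by
    intro z hz
    apply hTor
    have h11 := hint ((f' * a : ℕ) : ℤ) _ hz
    have h12 : ((f * a : ℕ) : ℂ) * z = (((f' * a : ℕ) : ℤ) : ℂ) * (3 * z) := by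
      rw [hf']; push_cast; ring
    rw [h12]; exact h11
  have hx1 : xn L w₁ ∈ RF (idl (A := A) (B := B) (f * a)) :=
    (c2 _ L hLn).2 _ (hthree _ hw₁) hw₁L
  have hx2 : xn L w₂ ∈ RF (idl (A := A) (B := B) (f * a)) :=
    (c2 _ L hLn).2 _ (hthree _ hw₂) hw₂L
  have heM : e ∈ RF (idl (A := A) (B := B) (f * a)) := by
    have h11 : e = xn L w₁ + ((1 / 12 : ℚ) : ℂ) := by rw [he]; unfold xn; push_cast; ring
    rw [h11]
    refine add_mem hx1 ?_
    exact SubfieldClass.ratCast_mem _ _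
  have huM : u ^ 2 ∈ RF (idl (A := A) (B := B) (f * a)) := by
    have h11 : u ^ 2 = xn L w₂ - xn L w₁ := by rw [hu2]; unfold xn; ring
    rw [h11]
    exact sub_mem hx2 hx1
  -- the points
  have hcop : IsCoprime ((2 ^ (n + 2) : ℕ) : ℤ) (f : ℤ) := by
    rw [Nat.isCoprime_iff_coprime]
    exact Nat.Coprime.pow_left _ ((Nat.Prime.coprime_iff_not_dvd (by norm_num)).2 h2f)
  obtain ⟨α, β, hαβ⟩ := hcop
  push_cast at hαβ
  obtain ⟨P₀, hP₀⟩ : ∃ z, z = (α : ℂ) / (f : ℕ) * om := ⟨_, rfl⟩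
  obtain ⟨P₁, hP₁⟩ : ∃ z, z = (β : ℂ) / ((2 ^ (n + 2) : ℕ) : ℂ) * om := ⟨_, rfl⟩
  obtain ⟨Pt, hPt⟩ : ∃ z, z = om / ((2 ^ (n + 2) * f : ℕ) : ℂ) := ⟨_, rfl⟩
  rw [← hPt]
  have hfc : (f : ℂ) ≠ 0 := by exact_mod_cast hf0
  have h2c : (2 : ℂ) ^ (n + 2) ≠ 0 := pow_ne_zero _ (by norm_num)
  have hsum : P₀ + P₁ = Pt := by
    have h11 : (α : ℂ) * 2 ^ (n + 2) + β * f = 1 := by exact_mod_cast hαβ
    rw [hP₀, hP₁, hPt]
    push_cast
    field_simp
    linear_combination h11
  have hfP₀ : (f : ℂ) * P₀ ∈ L.lattice := by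
    have h11 : (f : ℂ) * P₀ = (((f : ℤ) * α : ℤ) : ℂ) / ((f : ℕ) : ℂ) * om := by
      rw [hP₀]; push_cast; ring
    rw [h11, rat_mem hR hL _ hf0]
    exact dvd_mul_right _ _
  have h2P₀ : 2 * P₀ ∉ L.lattice := by
    have h11 : 2 * P₀ = ((2 * α : ℤ) : ℂ) / ((f : ℕ) : ℂ) * om := by
      rw [hP₀]; push_cast; ring
    rw [h11, rat_mem hR hL _ hf0]
    intro h12
    have h13 : IsCoprime (f : ℤ) α := ⟨β, 2 ^ (n + 2), by linear_combination hαβ⟩
    have h14 := h13.dvd_of_dvd_mul_right h12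
    have h15 := Int.le_of_dvd (by norm_num) h14
    omega
  have hP₀L : P₀ ∉ L.lattice := fun h => h2P₀ (by rw [two_mul]; exact add_mem h h)
  have hP₀E : ¬ InK V L (xu L u e) P₀ := fun h => hP₀L ((t1 f h2f).2 P₀ hfP₀ h)
  have h2P₀E : ¬ InK V L (xu L u e) (2 * P₀) := fun h => h2P₀ ((t1 f h2f).2 _ (by
    have h11 : (f : ℂ) * (2 * P₀) = f * P₀ + f * P₀ := by ring
    rw [h11]; exact add_mem hfP₀ hfP₀) h)
  have h2P₁ : (2 : ℂ) ^ (n + 1 + 1) * P₁ ∈ L.lattice := by
    have h11 : (2 : ℂ) ^ (n + 1 + 1) * P₁ =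
        ((((2 ^ (n + 2) : ℕ) : ℤ) * β : ℤ) : ℂ) / ((2 ^ (n + 2) : ℕ) : ℂ) * om := by
      rw [hP₁]; push_cast; ring
    rw [h11, rat_mem hR hL _ (by positivity)]
    exact dvd_mul_right _ _
  have h2P₁' : (2 : ℂ) ^ (n + 1) * P₁ ∉ L.lattice := by
    have h11 : (2 : ℂ) ^ (n + 1) * P₁ = (β : ℂ) / ((2 : ℕ) : ℂ) * om := by
      rw [hP₁]; push_cast; field_simp; ring
    rw [h11, rat_mem hR hL _ (by norm_num)]
    intro h12
    have h13 : (2 : ℤ) ∣ 1 := by
      rw [← hαβ]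
      refine dvd_add (Dvd.dvd.mul_left (dvd_pow_self 2 (Nat.succ_ne_zero (n + 1))) _)
        (Dvd.dvd.mul_right ?_ _)
      exact_mod_cast h12
    omega
  obtain ⟨hP₁E, hP₁L, hP₁v⟩ := t2 (n + 1) P₁ h2P₁ h2P₁'
  obtain ⟨hPE, hnr, -, -⟩ := Pool.Agent.MUX2.gnear G hP₀E hP₁E hP₁L
  have hDX := Pool.Agent.MUX2.gv_DX G hP₀E h2P₀E
  rw [hsum] at hPE hnr
  have hPL : Pt ∉ L.lattice := fun h => hPE (Or.inl h)
  -- the uniformiser
  obtain ⟨π, hπ⟩ : ∃ z, z = xu L u e Pt - xu L u e P₀ := ⟨_, rfl⟩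
  have hvπ : V.valuation π ^ (3 * 4 ^ (n + 1)) = V.valuation (2 : ℂ) := by
    obtain ⟨h12, h12', -⟩ := Pool.Agent.MUX2.gv_tX_lt G hP₁E hP₁L
    have h13 : V.valuation (tX (xu L u e) (yt L u e a1 a3) P₁) ^ 2 <
        V.valuation (tX (xu L u e) (yt L u e a1 a3) P₁) := by
      rw [pow_two]
      exact mul_lt_of_lt_one_right (zero_lt_iff.2 h12') h12
    rw [← hπ] at hnr
    have h14 : V.valuation ((2 * yt L u e a1 a3 P₀ + (WT a1 a3).a₁ * xu L u e P₀ +
        (WT a1 a3).a₃) * tX (xu L u e) (yt L u e a1 a3) P₁) =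
        V.valuation (tX (xu L u e) (yt L u e a1 a3) P₁) := by
      rw [map_mul, hDX, one_mul]
    have h15 : V.valuation π = V.valuation (tX (xu L u e) (yt L u e a1 a3) P₁) := by
      have h16 := Valuation.map_add_eq_of_lt_left V.valuation
        (x := (2 * yt L u e a1 a3 P₀ + (WT a1 a3).a₁ * xu L u e P₀ +
          (WT a1 a3).a₃) * tX (xu L u e) (yt L u e a1 a3) P₁)
        (y := π - (2 * yt L u e a1 a3 P₀ + (WT a1 a3).a₁ * xu L u e P₀ +
          (WT a1 a3).a₃) * tX (xu L u e) (yt L u e a1 a3) P₁)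
        (by rw [h14]; exact lt_of_le_of_lt hnr h13)
      rw [add_sub_cancel, h14] at h16
      exact h16
    rw [h15]
    exact hP₁v
  have hTorPt : Tor (idl (A := A) (B := B) (2 ^ (n + 2) * f * a)) L Pt := by
    refine hTor _ _ ?_
    have h11 : ((2 ^ (n + 2) * f * a : ℕ) : ℂ) * Pt = ((a : ℤ) : ℂ) / ((1 : ℕ) : ℂ) * om := by
      rw [hPt]; push_cast; field_simp
    rw [h11, rat_mem hR hL _ one_ne_zero]
    exact ⟨a, by simp⟩
  have hPM : xn L Pt ∈ RF (idl (A := A) (B := B) (2 ^ (n + 2) * f * a)) :=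
    (c2 _ L hLn).2 _ hTorPt hPL
  have hP₀M : xn L P₀ ∈ RF (idl (A := A) (B := B) (f * a)) := by
    refine (c2 _ L hLn).2 _ (hTor _ _ ?_) hP₀L
    have h11 : ((f * a : ℕ) : ℂ) * P₀ = ((a : ℤ) : ℂ) * (f * P₀) := by push_cast; ring
    rw [h11]
    exact hint _ _ hfP₀
  have hxx : ∀ z : ℂ, xu L u e z = (xn L z + 1 / 12 - e) / u ^ 2 := by
    intro z; unfold xu xn; ring
  have h12M : ∀ m' : Ideal (OO A B), (1 / 12 : ℂ) ∈ RF m' := by
    intro m'
    have h11 : (1 / 12 : ℂ) = ((1 / 12 : ℚ) : ℂ) := by push_cast; ring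
    rw [h11]
    exact SubfieldClass.ratCast_mem _ _
  have hx0M : xu L u e P₀ ∈ RF (idl (A := A) (B := B) (f * a)) := by
    rw [hxx]
    exact div_mem (sub_mem (add_mem hP₀M (h12M _)) heM) huM
  have hxPM : xu L u e Pt ∈ RF (idl (A := A) (B := B) (2 ^ (n + 2) * f * a)) := by
    rw [hxx]
    exact div_mem (sub_mem (add_mem hPM (h12M _)) (hle heM)) (hle huM)
  have hπM : π ∈ RF (idl (A := A) (B := B) (2 ^ (n + 2) * f * a)) := by
    rw [hπ]; exact sub_mem hxPM (hle hx0M)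
  have := hG.fin _ (hne _ hfa0)
  have := hG.fin _ (hne _ hm0')
  have hdeg := h5 A B V hC hG (n + 1) (f * a) hfa0 h2fa
  rw [← mul_assoc] at hdeg
  obtain ⟨c, hc1, hc2⟩ := Pool.Agent.NSE.te_BAS (kk A B) ℂ V.ValueGroup V.valuation
    (RF (idl (A := A) (B := B) (f * a))) (RF (idl (A := A) (B := B) (2 ^ (n + 2) * f * a)))
    (3 * 4 ^ (n + 1)) 2 π hle (by positivity) hdeg (by norm_num) hv2
    (h4 A B V hC hT (f * a) hfa0 h2fa) hπM hvπ w hw hvw
  -- the function
  have hvx0 : V.valuation (xu L u e P₀) ≤ 1 := (Pool.Agent.MUXV.int_X hP₀E).2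
  obtain ⟨Pol, hPol⟩ : ∃ Q : ℂ[X], Q = ∑ i : Fin (3 * 4 ^ (n + 1)),
    C ((c i : ℂ)) * (X - C (xu L u e P₀)) ^ (i : ℕ) := ⟨_, rfl⟩
  have hPolI : IntP V Pol := by
    rw [hPol]; exact intP_sum _ _ hc1 hvx0
  have hPolE : ∀ t : ℂ, Pol.eval t =
      ∑ i : Fin (3 * 4 ^ (n + 1)), (c i : ℂ) * (t - xu L u e P₀) ^ (i : ℕ) := by
    intro t
    rw [hPol, eval_finsetSum]
    refine Finset.sum_congr rfl fun i _ => ?_
    simp
  have hPolw : w = Pol.eval (xu L u e Pt) := by rw [hPolE, ← hπ, ← hc2]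
  refine ⟨Pol, hPolI, hPolw, ?_⟩
  intro x s hs hx
  have hsM : ∀ y ∈ RF (idl (A := A) (B := B) (f * a)), s y = y := hs.triv _ hmm hx
  have hsx : s (xu L u e Pt) = xu L u e (emb x * Pt) := by
    rw [hxx, map_div₀, map_sub, map_add, (hs.xn L hLn Pt hTorPt hPL).2, hsM _ (h12M _), hsM _ heM,
      hsM _ huM, ← hxx]
  rw [hPolw, hPolE, hPolE, map_sum]
  refine Finset.sum_congr rfl fun i _ => ?_
  rw [map_mul, map_pow, map_sub, hsM _ (c i).2, hsx, hsM _ hx0M]

end

end Pool.Agent.N2E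


end

section

/-!
# MUX-2N, block E2N, module UNT (helper76): the multiplier of an isogeny of odd degree is a unit

Model: `Pool/Agent/NS/E_UNT.lean` (helper48).
-/

set_option autoImplicit false

open Polynomial

namespace Pool.Agent.N2E

open _root_.MU3 _root_.Pool.Agent.MU3A _root_.Pool.Agent.MU3B _root_.Pool.Agent.MUX _root_.Pool.Agent.MUXU _root_.Pool.Agent.MUXE
open _root_.Pool.Agent.RI _root_.Pool.Agent.NS _root_.Pool.Agent.N2
open _root_.Pool.Agent.NSE (IntP)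
open _root_.Pool.Agent.MUX2 (GRG)
open _root_.Pool.Agent.MUXV (InK tX)

noncomputable section

namespace UNT

theorem _root_.Pool.Agent.N2E.UNT.frac (L : PeriodPair) (a : ℤ) (b : ℕ) (hb : b ≠ 0)
    (hm : (a : ℂ) * (L.ω₁ / b) ∈ L.lattice) : (b : ℤ) ∣ a := by
  have e : (a : ℂ) * (L.ω₁ / b) = ((a / b : ℚ) : ℂ) * L.ω₁ + ((0 : ℚ) : ℂ) * L.ω₂ := by
    push_cast
    ring
  rw [e, PeriodPair.mul_ω₁_add_mul_ω₂_mem_lattice] at hm
  have h1 : ((((a / b : ℚ)).num : ℤ) : ℚ) = (a / b : ℚ) := (Rat.den_eq_one_iff _).1 hm.1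
  have hb' : (b : ℚ) ≠ 0 := by exact_mod_cast hb
  refine ⟨((a / b : ℚ)).num, ?_⟩
  have h2 : (a : ℚ) = b * ((((a / b : ℚ)).num : ℤ) : ℚ) := by
    rw [h1]
    field_simp
  exact_mod_cast h2

/-- multiples by integers -/
theorem _root_.Pool.Agent.N2E.UNT.zmul (L : PeriodPair) (n : ℤ) {z : ℂ} (hz : z ∈ L.lattice) : (n : ℂ) * z ∈ L.lattice := by
  rw [← zsmul_eq_mul]
  exact zsmul_mem hz n

end UNT

open _root_.Pool.Agent.N2E.UNT in
theorem td_UNT (h2 : Sd_GRT) (h3 : Sd_TPT) : Sd_UNT := by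
  intro V L M u e a1 a3 u' e' a1' a3' μ hI0
  have hL := hI0.gL
  have hM := hI0.gM
  have hv3 := hI0.v2
  have hμ := hI0.mu0
  have hI := hI0.isg
  obtain ⟨N, hN3, hN⟩ := hI0.odd
  obtain ⟨ξ, grL⟩ := h2 V L u e a1 a3 hL hv3
  obtain ⟨ξ', grM⟩ := h2 V M u' e' a1' a3' hM hv3
  have tL := (h3 V L u e a1 a3 hL hv3).1
  have tM := (h3 V M u' e' a1' a3' hM hv3).1
  have hN0 : N ≠ 0 := by
    rintro rfl
    exact hN3 (dvd_zero 2)
  obtain ⟨⟨R, hR⟩, -⟩ := u_BAC.2 L M μ hμ hI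
  -- the two primes
  obtain ⟨l, hl1, hl⟩ := Nat.exists_infinite_primes (3 * N + 1)
  obtain ⟨l', hl1', hl'⟩ := Nat.exists_infinite_primes (l + 1)
  have hNpos : 0 < N := Nat.pos_of_ne_zero hN0
  have hll : l ≠ l' := by omega
  have h3l : ¬ 2 ∣ l := by
    intro h
    have := (Nat.prime_dvd_prime_iff_eq Nat.prime_two hl).1 h
    omega
  have h3l' : ¬ 2 ∣ l' := by
    intro h
    have := (Nat.prime_dvd_prime_iff_eq Nat.prime_two hl').1 h
    omega
  have hlN : ¬ l ∣ N := fun h => by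
    have := Nat.le_of_dvd hNpos h
    omega
  have hlN' : ¬ l' ∣ N := fun h => by
    have := Nat.le_of_dvd hNpos h
    omega
  have h3n : ¬ 2 ∣ N * l * l' := by
    intro h
    rcases Nat.prime_two.dvd_mul.1 h with h | h
    · rcases Nat.prime_two.dvd_mul.1 h with h | h
      · exact hN3 h
      · exact h3l h
    · exact h3l' h
  have h3m : ¬ 2 ∣ l * l' := by
    intro h
    rcases Nat.prime_two.dvd_mul.1 h with h | h
    · exact h3l h
    · exact h3l' h
  have hl0 : (l : ℂ) ≠ 0 := by exact_mod_cast hl.ne_zero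
  have hl0' : (l' : ℂ) ≠ 0 := by exact_mod_cast hl'.ne_zero
  set w : ℂ := L.ω₁ / l with hw
  set z : ℂ := L.ω₁ / l' with hz
  have o1 := L.ω₁_mem_lattice
  have lw : (l : ℂ) * w ∈ L.lattice := by
    rw [hw, mul_div_cancel₀ _ hl0]
    exact o1
  have lz : (l' : ℂ) * z ∈ L.lattice := by
    rw [hz, mul_div_cancel₀ _ hl0']
    exact o1
  -- the combinations of `z` and `w` are not in the lattice, even after multiplication by `N`
  have comb : ∀ a b : ℤ, ¬ ((l' : ℤ) ∣ a ∧ (l : ℤ) ∣ b) →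
      (N : ℂ) * ((a : ℂ) * z + (b : ℂ) * w) ∉ L.lattice := by
    intro a b hab hm
    apply hab
    have e1 : (N : ℂ) * ((a : ℂ) * z + (b : ℂ) * w) =
        ((N * (a * l + b * l') : ℤ) : ℂ) * (L.ω₁ / ((l * l' : ℕ) : ℂ)) := by
      rw [hz, hw]
      push_cast
      field_simp
    rw [e1] at hm
    have h5 := _root_.Pool.Agent.N2E.UNT.frac L _ _ (Nat.mul_ne_zero hl.ne_zero hl'.ne_zero) hm
    have hlz : Prime (l : ℤ) := Nat.prime_iff_prime_int.1 hl
    have hlz' : Prime (l' : ℤ) := Nat.prime_iff_prime_int.1 hl'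
    have hNl : ¬ (l : ℤ) ∣ (N : ℤ) := fun h => hlN (by exact_mod_cast h)
    have hNl' : ¬ (l' : ℤ) ∣ (N : ℤ) := fun h => hlN' (by exact_mod_cast h)
    have hd1 : (l : ℤ) ∣ a * l + b * l' := by
      have : (l : ℤ) ∣ (N : ℤ) * (a * l + b * l') := Dvd.dvd.trans ⟨(l' : ℤ), by push_cast; ring⟩ h5
      exact (hlz.dvd_or_dvd this).resolve_left hNl
    have hd2 : (l' : ℤ) ∣ a * l + b * l' := by
      have : (l' : ℤ) ∣ (N : ℤ) * (a * l + b * l') := Dvd.dvd.trans ⟨(l : ℤ), by push_cast; ring⟩ h5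
      exact (hlz'.dvd_or_dvd this).resolve_left hNl'
    have hne1 : ¬ (l : ℤ) ∣ (l' : ℤ) := fun h =>
      hll ((Nat.prime_dvd_prime_iff_eq hl hl').1 (by exact_mod_cast h))
    have hne2 : ¬ (l' : ℤ) ∣ (l : ℤ) := fun h =>
      hll ((Nat.prime_dvd_prime_iff_eq hl' hl).1 (by exact_mod_cast h)).symm
    constructor
    · have : (l' : ℤ) ∣ a * l := (dvd_add_left (Dvd.intro_left b rfl)).1 hd2
      exact (hlz'.dvd_or_dvd this).resolve_right hne2
    · have : (l : ℤ) ∣ b * l' := (dvd_add_right (Dvd.intro_left a rfl)).1 hd1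
      exact (hlz.dvd_or_dvd this).resolve_right hne1
  have one_not : ∀ k : ℕ, k.Prime → ∀ s : ℤ, s = 1 ∨ s = -1 → ¬ (k : ℤ) ∣ s := by
    intro k hk s hs h
    have h6 : (k : ℤ) ∣ 1 := by
      rcases hs with rfl | rfl
      · exact h
      · exact (dvd_neg.1 h)
    have h7 : k ∣ 1 := by exact_mod_cast h6
    exact hk.one_lt.ne' (Nat.dvd_one.1 h7)
  -- points of `L`
  have ptL : ∀ (a b c : ℤ) (q : ℂ), (N : ℂ) * q ∈ L.lattice →
      ¬ ((l' : ℤ) ∣ a ∧ (l : ℤ) ∣ b) →
      ¬ InK V L (xu L u e) ((a : ℂ) * z + (b : ℂ) * w + (c : ℂ) * q) := by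
    intro a b c q hq hab hin
    have hm := (tL (N * l * l') h3n).2 _ (by
      have e1 : ((N * l * l' : ℕ) : ℂ) * ((a : ℂ) * z + (b : ℂ) * w + (c : ℂ) * q) =
          ((N * l * a : ℤ) : ℂ) * ((l' : ℂ) * z) + ((N * l' * b : ℤ) : ℂ) * ((l : ℂ) * w) +
            ((l * l' * c : ℤ) : ℂ) * ((N : ℂ) * q) := by
        push_cast
        ring
      rw [e1]
      exact add_mem (add_mem (_root_.Pool.Agent.N2E.UNT.zmul L _ lz) (_root_.Pool.Agent.N2E.UNT.zmul L _ lw)) (_root_.Pool.Agent.N2E.UNT.zmul L _ hq)) hin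
    apply comb a b hab
    have e2 : (N : ℂ) * ((a : ℂ) * z + (b : ℂ) * w) =
        ((N : ℤ) : ℂ) * ((a : ℂ) * z + (b : ℂ) * w + (c : ℂ) * q) -
          ((c : ℤ) : ℂ) * ((N : ℂ) * q) := by
      push_cast
      ring
    rw [e2]
    exact sub_mem (_root_.Pool.Agent.N2E.UNT.zmul L _ hm) (_root_.Pool.Agent.N2E.UNT.zmul L _ hq)
  -- points of `M`
  have ptM : ∀ (a b : ℤ), ¬ ((l' : ℤ) ∣ a ∧ (l : ℤ) ∣ b) →
      μ * ((a : ℂ) * z + (b : ℂ) * w) ∉ M.lattice ∧
      ¬ InK V M (xu M u' e') (μ * ((a : ℂ) * z + (b : ℂ) * w)) := by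
    intro a b hab
    have h4 : μ * ((a : ℂ) * z + (b : ℂ) * w) ∉ M.lattice := fun h => comb a b hab (hN _ h)
    refine ⟨h4, fun hin => h4 ((tM (l * l') h3m).2 _ ?_ hin)⟩
    have e1 : ((l * l' : ℕ) : ℂ) * (μ * ((a : ℂ) * z + (b : ℂ) * w)) =
        μ * (((l * a : ℤ) : ℂ) * ((l' : ℂ) * z) + ((l' * b : ℤ) : ℂ) * ((l : ℂ) * w)) := by
      push_cast
      ring
    rw [e1]
    exact hI _ (add_mem (_root_.Pool.Agent.N2E.UNT.zmul L _ lz) (_root_.Pool.Agent.N2E.UNT.zmul L _ lw))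
  have hz1 : ∀ b : ℤ, ∀ s : ℤ, s = 1 ∨ s = -1 → ¬ ((l' : ℤ) ∣ s ∧ (l : ℤ) ∣ b) := fun b s hs h =>
    one_not l' hl' s hs h.1
  have hw1 : ∀ a : ℤ, ∀ s : ℤ, s = 1 ∨ s = -1 → ¬ ((l' : ℤ) ∣ a ∧ (l : ℤ) ∣ s) := fun a s hs h =>
    one_not l hl s hs h.2
  have hN00 : (N : ℂ) * 0 ∈ L.lattice := by rw [mul_zero]; exact L.lattice.zero_mem
  obtain ⟨mz, iz⟩ := ptM 1 0 (hz1 0 1 (Or.inl rfl))
  obtain ⟨mw, iw⟩ := ptM 0 1 (hw1 0 1 (Or.inl rfl))
  obtain ⟨-, ip⟩ := ptM 1 1 (hz1 1 1 (Or.inl rfl))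
  obtain ⟨-, im⟩ := ptM 1 (-1) (hz1 (-1) 1 (Or.inl rfl))
  have ez : ((1 : ℤ) : ℂ) * z + ((0 : ℤ) : ℂ) * w = z := by push_cast; ring
  have ew : ((0 : ℤ) : ℂ) * z + ((1 : ℤ) : ℂ) * w = w := by push_cast; ring
  have ep : μ * (((1 : ℤ) : ℂ) * z + ((1 : ℤ) : ℂ) * w) = μ * z + μ * w := by push_cast; ring
  have em' : μ * (((1 : ℤ) : ℂ) * z + ((-1 : ℤ) : ℂ) * w) = μ * z - μ * w := by push_cast; ring
  rw [ez] at mz iz
  rw [ew] at mw iw
  rw [ep] at ip
  rw [em'] at im
  -- the product formula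
  have pf := u_PFI L M μ R hμ hI hR w mw z mz
  have hu0 : u ^ 2 ≠ 0 := pow_ne_zero _ hL.u0
  have hu0' : u' ^ 2 ≠ 0 := pow_ne_zero _ hM.u0
  have dL : ∀ a b : ℂ, L.weierstrassP a - L.weierstrassP b =
      u ^ 2 * (xu L u e a - xu L u e b) := by
    intro a b
    unfold xu
    rw [← sub_div, mul_div_cancel₀ _ hu0]
    ring
  have dM : ∀ a b : ℂ, M.weierstrassP a - M.weierstrassP b =
      u' ^ 2 * (xu M u' e' a - xu M u' e' b) := by
    intro a b
    unfold xu
    rw [← sub_div, mul_div_cancel₀ _ hu0']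
    ring
  have vM : V.valuation (M.weierstrassP (μ * z) - M.weierstrassP (μ * w)) =
      V.valuation (u' ^ 2) := by
    rw [dM, map_mul, Pool.Agent.MUX2.gv_X_sub grM iz iw ip im, mul_one]
  have ptL' : ∀ (a b c : ℤ) (q p : ℂ), (N : ℂ) * q ∈ L.lattice →
      ¬ ((l' : ℤ) ∣ a ∧ (l : ℤ) ∣ b) → p = (a : ℂ) * z + (b : ℂ) * w + (c : ℂ) * q →
      ¬ InK V L (xu L u e) p := by
    intro a b c q p hq hab hp
    rw [hp]
    exact ptL a b c q hq hab
  have jz : ¬ InK V L (xu L u e) z :=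
    ptL' 1 0 0 0 z hN00 (hz1 0 1 (Or.inl rfl)) (by push_cast; ring)
  have vL : V.valuation (L.weierstrassP z - L.weierstrassP w) = V.valuation (u ^ 2) := by
    rw [dL, map_mul, Pool.Agent.MUX2.gv_X_sub grL jz
      (ptL' 0 1 0 0 w hN00 (hw1 0 1 (Or.inl rfl)) (by push_cast; ring))
      (ptL' 1 1 0 0 _ hN00 (hz1 1 1 (Or.inl rfl)) (by push_cast; ring))
      (ptL' 1 (-1) 0 0 _ hN00 (hz1 (-1) 1 (Or.inl rfl)) (by push_cast; ring)), mul_one]
  have vq : ∀ q ∈ R, V.valuation (L.weierstrassP z - L.weierstrassP q) =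
      V.valuation (u ^ 2) := by
    intro q hq
    have hNq := hN q (hR.mem q hq)
    have jq : ¬ InK V L (xu L u e) q := fun h => hR.ne q hq ((tL N hN3).2 q hNq h)
    rw [dL, map_mul, Pool.Agent.MUX2.gv_X_sub grL jz jq
      (ptL' 1 0 1 q _ hNq (hz1 0 1 (Or.inl rfl)) (by push_cast; ring))
      (ptL' 1 0 (-1) q _ hNq (hz1 0 1 (Or.inl rfl)) (by push_cast; ring)), mul_one]
  have vwq : ∀ q ∈ R, V.valuation (L.weierstrassP z - L.weierstrassP (w + q)) =
      V.valuation (u ^ 2) := by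
    intro q hq
    have hNq := hN q (hR.mem q hq)
    rw [dL, map_mul, Pool.Agent.MUX2.gv_X_sub grL jz
      (ptL' 0 1 1 q _ hNq (hw1 0 1 (Or.inl rfl)) (by push_cast; ring))
      (ptL' 1 1 1 q _ hNq (hz1 1 1 (Or.inl rfl)) (by push_cast; ring))
      (ptL' 1 (-1) (-1) q _ hNq (hz1 (-1) 1 (Or.inl rfl)) (by push_cast; ring)), mul_one]
  have pv := congrArg V.valuation pf
  rw [map_mul, map_mul, map_mul, map_prod, map_prod, vM, vL, Finset.prod_congr rfl vq,
    Finset.prod_congr rfl vwq, Finset.prod_const] at pv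
  have hT0 : V.valuation (u ^ 2) ^ R.card ≠ 0 := pow_ne_zero _ ((_root_.map_ne_zero _).2 hu0)
  have h6 : V.valuation (μ ^ 2) * V.valuation (u' ^ 2) = V.valuation (u ^ 2) :=
    mul_right_cancel₀ hT0 pv
  have h7 : V.valuation (μ * u' / u) ^ 2 = 1 := by
    rw [← map_pow, div_pow, mul_pow, map_div₀, map_mul, h6]
    exact div_self ((_root_.map_ne_zero _).2 hu0)
  rcases lt_trichotomy (V.valuation (μ * u' / u)) 1 with h | h | h
  · exact absurd h7 (pow_lt_one₀ zero_le h two_ne_zero).ne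
  · exact h
  · exact absurd h7 (one_lt_pow₀ h two_ne_zero).ne'

end

end Pool.Agent.N2E


end
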