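import Mathlib
import Pool.Agent.MVF.C012
import Pool.Agent.MVF.C023
import Pool.Agent.MVF.C030

/-! Parts: RID.P_GCP, RID.P_LAYC, MU3.P_GALK -/

namespace Pool.Agent.MU3.P_GALK
end Pool.Agent.MU3.P_GALK
namespace Pool.Agent.RID.GCP
end Pool.Agent.RID.GCP

section

/-!
# Decomposition fields and the growth of class groups: module GCP
-/

open NumberField Finset IsDedekindDomain
open scoped nonZeroDivisors Pointwise

namespace Pool.Agent.RID

open _root_.Pool.Agent.RI

namespace GCP

/-- The fixed field of a power of an automorphism. -/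
lemma cyc_fixed {F L : Type} [Field F] [Field L] [Algebra F L] [FiniteDimensional F L]
    [IsGalois F L] (γ : L ≃ₐ[F] L) (A B : IntermediateField F L) (q : ℕ)
    (hA : ∀ x, γ x = x ↔ x ∈ A) (hAB : A ≤ B)
    (hd : Module.finrank F B = Module.finrank F A * q) : ∀ x, (γ ^ q) x = x ↔ x ∈ B := by
  classical
  have hq : 0 < q := by
    rcases Nat.eq_zero_or_pos q with h | h
    · rw [h, mul_zero] at hd
      exact absurd hd (Module.finrank_pos (R := F) (M := B)).ne'
    · exact h
  -- powers and fixed elements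
  have hfix : ∀ (δ : L ≃ₐ[F] L) (x : L),
      x ∈ IntermediateField.fixedField (Subgroup.zpowers δ) ↔ δ x = x := by
    intro δ x
    constructor
    · intro h
      exact h ⟨δ, Subgroup.mem_zpowers δ⟩
    · intro h τ
      obtain ⟨τ, j, rfl⟩ := τ
      have h5 : δ ∈ MulAction.stabilizer (L ≃ₐ[F] L) x := h
      exact zpow_mem h5 j
  have hAf : IntermediateField.fixedField (Subgroup.zpowers γ) = A := by
    ext x
    rw [hfix, hA]
  have hAs : A.fixingSubgroup = Subgroup.zpowers γ := by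
    rw [← hAf, IntermediateField.fixingSubgroup_fixedField]
  have hle : B.fixingSubgroup ≤ Subgroup.zpowers γ := by
    rw [← hAs]
    exact IntermediateField.fixingSubgroup_antitone hAB
  have c1 : Nat.card (Subgroup.zpowers γ) * Module.finrank F A = Module.finrank F L := by
    rw [← hAs, IsGalois.card_fixingSubgroup_eq_finrank, mul_comm]
    exact Pool.Agent.FX.fmul F A L
  have c2 : Nat.card B.fixingSubgroup * Module.finrank F B = Module.finrank F L := by
    rw [IsGalois.card_fixingSubgroup_eq_finrank, mul_comm]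
    exact Pool.Agent.FX.fmul F B L
  have hApos : 0 < Module.finrank F A := Module.finrank_pos
  have hord : orderOf γ = q * Nat.card B.fixingSubgroup := by
    rw [← Nat.card_zpowers]
    apply Nat.eq_of_mul_eq_mul_right hApos
    rw [c1, ← c2, hd]
    ring
  have hcpos : 0 < Nat.card B.fixingSubgroup := Nat.card_pos
  have hord' : orderOf (γ ^ q) = Nat.card B.fixingSubgroup := by
    rw [orderOf_pow_of_dvd hq.ne' ⟨_, hord⟩, hord, Nat.mul_div_cancel_left _ hq]
  have hsub : B.fixingSubgroup ≤ Subgroup.zpowers (γ ^ q) := by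
    intro σ hσ
    obtain ⟨j, hj⟩ := hle hσ
    have hj' : γ ^ j = σ := hj
    have h1 : σ ^ Nat.card B.fixingSubgroup = 1 := by
      have := pow_card_eq_one' (x := (⟨σ, hσ⟩ : B.fixingSubgroup))
      exact congrArg Subtype.val this
    rw [← hj', ← zpow_natCast, ← zpow_mul, ← orderOf_dvd_iff_zpow_eq_one, hord] at h1
    push_cast at h1
    have h2 : (q : ℤ) ∣ j := by
      have h3 : (Nat.card B.fixingSubgroup : ℤ) ≠ 0 := by exact_mod_cast hcpos.ne'
      exact Int.dvd_of_mul_dvd_mul_right h3 h1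
    obtain ⟨i, rfl⟩ := h2
    rw [← hj', zpow_mul, zpow_natCast]
    exact Subgroup.zpow_mem_zpowers _ _
  have heq : B.fixingSubgroup = Subgroup.zpowers (γ ^ q) := by
    apply Subgroup.eq_of_le_of_card_ge hsub
    rw [Nat.card_zpowers, hord']
  intro x
  rw [← hfix, ← heq, IsGalois.fixedField_fixingSubgroup]

/-- The subfield `D` of `L` as an extension of `F`. -/
noncomputable def sub {F L : IntermediateField ℚ ℂ} (h : F ≤ L) (D : IntermediateField ℚ ℂ)
    (hD : F ≤ D) : letI := algC h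
    IntermediateField F L :=
  letI := algC h
  { carrier := {x | (x : ℂ) ∈ D}
    mul_mem' := by
      rintro a b ha hb
      exact mul_mem (S := IntermediateField ℚ ℂ) ha hb
    add_mem' := by
      rintro a b ha hb
      exact add_mem (S := IntermediateField ℚ ℂ) ha hb
    algebraMap_mem' := fun r => hD r.2
    inv_mem' := by
      intro a ha
      have h1 : ((a⁻¹ : L) : ℂ) = (a : ℂ)⁻¹ := rfl
      show ((a⁻¹ : L) : ℂ) ∈ D
      rw [h1]
      exact inv_mem (S := IntermediateField ℚ ℂ) ha }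

lemma _root_.Pool.Agent.RID.GCP.mem_sub {F L : IntermediateField ℚ ℂ} (h : F ≤ L) (D : IntermediateField ℚ ℂ)
    (hD : F ≤ D) (x : L) : letI := algC h
    x ∈ sub h D hD ↔ (x : ℂ) ∈ D := Iff.rfl

lemma finrank_sub {F L : IntermediateField ℚ ℂ} (h : F ≤ L) (D : IntermediateField ℚ ℂ)
    (hD : F ≤ D) (hDL : D ≤ L) : letI := algC h
    Module.finrank F (sub h D hD) = Module.finrank F (IntermediateField.extendScalars hD) := by
  let _ := algC h
  exact Pool.Agent.FX.finrank_of_val (F := F) L.val.toRingHom (fun _ => rfl) (sub h D hD)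
    (IntermediateField.extendScalars hD) (fun _ => Iff.rfl) (fun y hy => ⟨⟨y, hDL hy⟩, rfl⟩)

end GCP

open _root_.Pool.Agent.RID.GCP in
theorem t_GCP : S_GCP := by
  intro p n _ F K M₁ M _ _ _ l hCD h₁ hM₁M hd h
  let aFL : Algebra F ↥(K ⊔ M) := algC h
  intro γ hγ
  have hpr : p.Prime := Fact.out
  obtain ⟨hBCH1, hBCH2⟩ := BCH_thm
  have fdF : FiniteDimensional ℚ F := FiniteDimensional.of_injective
    (IntermediateField.inclusion h₁).toLinearMap (IntermediateField.inclusion h₁).injective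
  have hFK : F ≤ K := hCD.hK
  have hFM : F ≤ M := hCD.hM
  have hFL₁ : F ≤ K ⊔ M₁ := hFK.trans le_sup_left
  have hKL₁ : K ≤ K ⊔ M₁ := le_sup_left
  have hM₁L₁ : M₁ ≤ K ⊔ M₁ := le_sup_right
  have hL₁L : K ⊔ M₁ ≤ K ⊔ M := sup_le_sup_left hM₁M K
  have gL : IsGalois F ↥(K ⊔ M) :=
    (isGalois_algC h).2 (hBCH2 F K M hFK hFM h hCD.gK hCD.gM)
  have fdL : FiniteDimensional F ↥(K ⊔ M) := by
    have h1 : FiniteDimensional ℚ ↥(K ⊔ M) := inferInstance
    exact Module.Finite.of_restrictScalars_finite ℚ F _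
  -- degrees
  have hdeg : Module.finrank F (IntermediateField.extendScalars hFL₁) =
      Module.finrank F (IntermediateField.extendScalars hFK) * p ^ n := by
    let aFK : Algebra F K := algC hFK
    let aFM₁ : Algebra F M₁ := algC h₁
    let aFL₁ : Algebra F ↥(K ⊔ M₁) := algC hFL₁
    let aKL₁ : Algebra K ↥(K ⊔ M₁) := algC hKL₁
    let aM₁L₁ : Algebra M₁ ↥(K ⊔ M₁) := algC hM₁L₁
    have t1 := towerC hFK hKL₁
    have t2 := towerC h₁ hM₁L₁
    have e1 : Module.finrank F K * Module.finrank K ↥(K ⊔ M₁) =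
        Module.finrank F ↥(K ⊔ M₁) := Pool.Agent.FX.fmul _ _ _
    have e2 : Module.finrank F M₁ * Module.finrank M₁ ↥(K ⊔ M₁) =
        Module.finrank F ↥(K ⊔ M₁) := Pool.Agent.FX.fmul _ _ _
    have e3 := (hBCH1 F K M₁ M₁ (K ⊔ M₁) hFK hM₁L₁ (sup_of_le_right h₁).symm rfl hCD.gK).2
    rw [← finrank_algC, ← finrank_algC] at e3
    have hdp : Module.finrank F M₁ = p ^ n := (finrank_algC h₁).trans hd
    have hcop : (Module.finrank F K).Coprime (p ^ n) := by
      apply Nat.Coprime.pow_right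
      apply Nat.Coprime.symm
      rw [Nat.Prime.coprime_iff_not_dvd hpr]
      have := hCD.copK
      rw [← finrank_algC] at this
      exact this
    rw [← finrank_algC, ← finrank_algC]
    apply Nat.dvd_antisymm
    · rw [← e2, hdp, mul_comm]
      exact Nat.mul_dvd_mul_right e3 _
    · apply Nat.Coprime.mul_dvd_of_dvd_of_dvd hcop
      · exact ⟨_, e1.symm⟩
      · rw [← hdp]
        exact ⟨_, e2.symm⟩
  have key := cyc_fixed γ (sub h K hFK) (sub h (K ⊔ M₁) hFL₁) (p ^ n)
    (fun x => (hγ x).trans (_root_.Pool.Agent.RID.GCP.mem_sub h K hFK x).symm)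
    (fun x hx => (le_sup_left : K ≤ K ⊔ M₁) hx)
    (by rw [finrank_sub h K hFK le_sup_left, finrank_sub h (K ⊔ M₁) hFL₁ hL₁L, hdeg])
  intro x
  exact (key x).trans (_root_.Pool.Agent.RID.GCP.mem_sub h (K ⊔ M₁) hFL₁ x)

end Pool.Agent.RID


end

section

/-!
# LAYC: the layers are cyclic
-/

open NumberField Polynomial

namespace Pool.Agent.RID

open _root_.Pool.Agent.RI

namespace LAYC

/-- The quotient of `(ℤ/2^(k+2))ˣ` by `±1` is cyclic. -/
lemma cyc_two (k : ℕ) {H : Type} [Group H] (f : (ZMod (2 ^ (k + 2)))ˣ →* H)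
    (hf : Function.Surjective f) (h1 : f (-1) = 1) : IsCyclic H := by
  have h5 : IsUnit (5 : ZMod (2 ^ (k + 2))) := by
    rw [show (5 : ZMod (2 ^ (k + 2))) = ((5 : ℕ) : ZMod (2 ^ (k + 2))) by norm_num,
      ZMod.isUnit_iff_coprime]
    apply Nat.Coprime.pow_right
    norm_num
  set u := h5.unit with hu
  have hou : orderOf u = 2 ^ k := by
    rw [← orderOf_injective _ Units.coeHom_injective u, Units.coeHom_apply, hu, IsUnit.unit_spec]
    exact ZMod.orderOf_five k
  have hcardG : Nat.card (ZMod (2 ^ (k + 2)))ˣ = 2 ^ (k + 1) := by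
    rw [Nat.card_eq_fintype_card, ZMod.card_units_eq_totient,
      Nat.totient_prime_pow_succ Nat.prime_two]
    simp
  have hind : (Subgroup.zpowers u).index = 2 := by
    have h := Subgroup.card_mul_index (Subgroup.zpowers u)
    rw [Nat.card_zpowers, hou, hcardG] at h
    have h' : 2 ^ k * (Subgroup.zpowers u).index = 2 ^ k * 2 := by rw [h]; ring
    exact Nat.eq_of_mul_eq_mul_left (by positivity) h'
  have hdvd : 4 ∣ 2 ^ (k + 2) := ⟨2 ^ k, by ring⟩
  have hker : Subgroup.zpowers u ≤ (ZMod.unitsMap hdvd).ker := by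
    rw [Subgroup.zpowers_le, MonoidHom.mem_ker]
    apply Units.ext
    rw [ZMod.unitsMap_val, hu, IsUnit.unit_spec]
    have : ((5 : ZMod (2 ^ (k + 2))).cast : ZMod 4) = 5 := by
      have := ZMod.cast_natCast hdvd (R := ZMod 4) 5
      simpa using this
    rw [this]
    rfl
  have hneg : (-1 : (ZMod (2 ^ (k + 2)))ˣ) ∉ Subgroup.zpowers u := by
    intro hmem
    have h := hker hmem
    rw [MonoidHom.mem_ker] at h
    have h' := congrArg (fun x : (ZMod 4)ˣ => (x : ZMod 4)) h
    simp only [ZMod.unitsMap_val, Units.val_one, Units.val_neg] at h'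
    have h2 : ((-1 : ZMod (2 ^ (k + 2))).cast : ZMod 4) = -1 := by
      rw [ZMod.cast_neg hdvd, ZMod.cast_one hdvd]
    rw [h2] at h'
    exact absurd h' (by decide)
  refine ⟨⟨f u, fun y => ?_⟩⟩
  obtain ⟨x, rfl⟩ := hf y
  by_cases hx : x ∈ Subgroup.zpowers u
  · obtain ⟨j, rfl⟩ := hx
    exact ⟨j, by simp⟩
  · have h := (Subgroup.mul_mem_iff_of_index_two hind (a := -1) (b := x)).2
      ⟨fun h => absurd h hneg, fun h => absurd h hx⟩
    obtain ⟨j, hj⟩ := h
    refine ⟨j, ?_⟩
    have : f (-1 * x) = f x := by rw [map_mul, h1, one_mul]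
    rw [← this, ← hj]
    simp

/-- The quotient of `(ℤ/p^m)ˣ` by `±1` is cyclic. -/
lemma cyc_units (p m : ℕ) [hp : Fact p.Prime] {H : Type} [Group H] (f : (ZMod (p ^ m))ˣ →* H)
    (hf : Function.Surjective f) (h1 : f (-1) = 1) : IsCyclic H := by
  by_cases h2 : p = 2
  · subst h2
    rcases m with _ | _ | k
    · have : IsCyclic (ZMod (2 ^ 0))ˣ := (ZMod.isCyclic_units_two_pow_iff 0).2 (by norm_num)
      exact isCyclic_of_surjective f hf
    · have : IsCyclic (ZMod (2 ^ (0 + 1)))ˣ := (ZMod.isCyclic_units_two_pow_iff 1).2 (by norm_num)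
      exact isCyclic_of_surjective f hf
    · exact cyc_two k f hf h1
  · have := ZMod.isCyclic_units_of_prime_pow p hp.out h2 m
    exact isCyclic_of_surjective f hf

/-- A subfield of a cyclotomic field of prime power order on which the inversion of the roots of
unity is trivial is cyclic. -/
lemma gen {F E : Type} [Field F] [Field E] [Algebra F E] (p m : ℕ) [hp : Fact p.Prime]
    (hirr : Irreducible (cyclotomic (p ^ m) F)) {r : E} (hr : IsPrimitiveRoot r (p ^ m))
    (c : E →ₐ[F] E) (hc : c r = r⁻¹) (B : IntermediateField F E)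
    (hB : B ≤ IntermediateField.adjoin F {z : E | z ^ (p ^ m) = 1})
    (hcB : ∀ x ∈ B, c x = x) : IsCyclic (B ≃ₐ[F] B) := by
  have hN : p ^ m ≠ 0 := pow_ne_zero m hp.out.ne_zero
  have : NeZero (p ^ m) := ⟨hN⟩
  have hBab := LAY.isAbelian_of_le (p ^ m) hN ⟨r, hr⟩ B hB
  have hBG := hBab.toIsGalois
  have hBn := hBG.to_normal
  set C := IntermediateField.adjoin F {z : E | z ^ (p ^ m) = 1} with hC
  have hcyc : IsCyclotomicExtension {p ^ m} F C := by
    have h := IntermediateField.isCyclotomicExtension_adjoin_of_exists_isPrimitiveRoot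
      ({p ^ m} : Set ℕ) F E (fun n hn _ => by
        rw [Set.mem_singleton_iff] at hn
        rw [hn]
        exact ⟨r, hr⟩)
    have hset : {x : E | ∃ n ∈ ({p ^ m} : Set ℕ), n ≠ 0 ∧ x ^ n = 1} =
        {z : E | z ^ (p ^ m) = 1} := by
      ext x
      simp [hp.out.ne_zero]
    rw [hset] at h
    exact h
  have : IsGalois F C := IsCyclotomicExtension.isGalois {p ^ m} F C
  have hcz : ∀ z : E, z ^ (p ^ m) = 1 → c z = z⁻¹ := by
    intro z hz
    obtain ⟨i, _, rfl⟩ := hr.eq_pow_of_pow_eq_one hz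
    rw [map_pow, hc, inv_pow]
  set e := IsCyclotomicExtension.autEquivPow C hirr with he
  let _ : Algebra B C := (IntermediateField.inclusion hB).toRingHom.toAlgebra
  have := Pool.Agent.FX.tower F B C fun x => rfl
  let ρ : (C ≃ₐ[F] C) →* (B ≃ₐ[F] B) := AlgEquiv.restrictNormalHom B
  have hρ : Function.Surjective ρ := AlgEquiv.restrictNormalHom_surjective C
  refine cyc_units p m (ρ.comp e.symm.toMonoidHom) (hρ.comp e.symm.surjective) ?_
  set σ := e.symm (-1) with hσ
  -- `σ` is the restriction of `c`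
  have hσr : ∀ x : C, ((σ x : C) : E) = c (x : E) := by
    have hζ := IsCyclotomicExtension.zeta_spec (p ^ m) F C
    have h1 : (C.val.comp (σ : C →ₐ[F] C)) = c.comp C.val := by
      apply (hζ.powerBasis F).algHom_ext
      rw [IsPrimitiveRoot.powerBasis_gen]
      set z := IsCyclotomicExtension.zeta (p ^ m) F C with hz
      have hσz : σ z = z ^ ((-1 : (ZMod (p ^ m))ˣ) : ZMod (p ^ m)).val := by
        rw [hσ, he, IsCyclotomicExtension.autEquivPow_symm_apply]
        have h2 := hζ.pow_of_coprime _ (ZMod.val_coe_unit_coprime (-1 : (ZMod (p ^ m))ˣ))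
        have key : ∀ h3, (hζ.powerBasis F).equivOfMinpoly (h2.powerBasis F) h3 z =
            z ^ ((-1 : (ZMod (p ^ m))ˣ) : ZMod (p ^ m)).val := by
          intro h3
          have key := (hζ.powerBasis F).equivOfMinpoly_gen (h2.powerBasis F) h3
          rw [hζ.powerBasis_gen F, h2.powerBasis_gen F] at key
          exact key
        exact key _
      have hzz : (z : E) ^ (p ^ m) = 1 := by
        have := congrArg (fun x : C => (x : E)) hζ.pow_eq_one
        simpa using this
      have hz0 : (z : E) ≠ 0 := by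
        intro h0
        rw [h0, zero_pow hN] at hzz
        exact zero_ne_one hzz
      change ((σ z : C) : E) = c (z : E)
      rw [hσz, hcz _ hzz]
      apply eq_inv_of_mul_eq_one_left
      have hd : p ^ m ∣ ((-1 : (ZMod (p ^ m))ˣ) : ZMod (p ^ m)).val + 1 := by
        rw [← ZMod.natCast_eq_zero_iff, Nat.cast_add, ZMod.natCast_val, ZMod.cast_id]
        simp
      obtain ⟨q, hq⟩ := hd
      have h4 : ((z ^ ((-1 : (ZMod (p ^ m))ˣ) : ZMod (p ^ m)).val : C) : E) * (z : E) =
          (z : E) ^ (((-1 : (ZMod (p ^ m))ˣ) : ZMod (p ^ m)).val + 1) := by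
        rw [pow_succ]
        push_cast
        rfl
      rw [h4, hq, pow_mul, hzz, one_pow]
    intro x
    exact DFunLike.congr_fun h1 x
  change ρ σ = 1
  ext x
  have h1 := AlgEquiv.restrictNormal_commutes σ B x
  have h2 : ((algebraMap B C ((ρ σ) x) : C) : E) = c (x : E) := by
    rw [show ρ σ = σ.restrictNormal B from rfl, h1, hσr]
    rfl
  have h3 : ((algebraMap B C ((ρ σ) x) : C) : E) = (((ρ σ) x : B) : E) := rfl
  rw [← h3, h2, hcB _ x.2]
  rfl

/-- Independence of the algebra structure over `ℚ`. -/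
lemma transport {B : Type} [Field B] (a b : Algebra ℚ B)
    (h : IsCyclic (@AlgEquiv ℚ B B _ _ _ a a)) : IsCyclic (@AlgEquiv ℚ B B _ _ _ b b) := by
  have e : b = a := Subsingleton.elim b a
  subst e
  exact h

end LAYC

theorem t_LAYC : S_LAYC := by
  intro p n hp B hB
  obtain ⟨hdeg, hreal, m, hle⟩ := hB
  have hN : p ^ m ≠ 0 := pow_ne_zero m hp.out.ne_zero
  have hr := Complex.isPrimitiveRoot_exp _ hN
  set r := Complex.exp (2 * Real.pi * Complex.I / ((p ^ m : ℕ) : ℂ)) with hrdef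
  have hirr : Irreducible (cyclotomic (p ^ m) ℚ) :=
    cyclotomic.irreducible_rat (Nat.pos_of_ne_zero hN)
  have key := LAYC.gen (F := ℚ) (E := ℂ) p m hirr hr
    ((Complex.conjAe.toAlgHom).restrictScalars ℚ) (by
      change (starRingEnd ℂ) r = r⁻¹
      have h1 : ‖r‖ = 1 := hr.norm'_eq_one hN
      rw [Complex.inv_def, Complex.normSq_eq_norm_sq, h1]
      simp) B hle (fun x hx => hreal x hx)
  exact LAYC.transport _ _ key

end Pool.Agent.RID


end

section

/-!
# MU3_GALK: `K_n / k` is Galois with abelian group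
-/

open NumberField IsDedekindDomain Finset
open scoped nonZeroDivisors Pointwise

namespace Pool.Agent.MU3

open _root_.Pool.Agent.RI _root_.Pool.Agent.RID

namespace P_GALK

/-- the layers over the bottom field -/
theorem bot_gal {B : IntermediateField ℚ ℂ} (hG : IsGalois ℚ B) :
    IsGalois ↥(⊥ : IntermediateField ℚ ℂ)
      (IntermediateField.extendScalars (bot_le : (⊥ : IntermediateField ℚ ℂ) ≤ B)) := by
  let e : B ≃ₐ[ℚ] (IntermediateField.extendScalars
      (bot_le : (⊥ : IntermediateField ℚ ℂ) ≤ B)) :=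
    { toFun := fun x => ⟨x.1, x.2⟩
      invFun := fun x => ⟨x.1, x.2⟩
      left_inv := fun _ => rfl
      right_inv := fun _ => rfl
      map_mul' := fun _ _ => rfl
      map_add' := fun _ _ => rfl
      commutes' := fun _ => rfl }
  have : IsGalois ℚ (IntermediateField.extendScalars
      (bot_le : (⊥ : IntermediateField ℚ ℂ) ≤ B)) := IsGalois.of_algEquiv e
  exact IsGalois.tower_top_of_isGalois ℚ _ _

theorem transp {k X Y : IntermediateField ℚ ℂ} (e : X = Y) (hX : k ≤ X) (hY : k ≤ Y)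
    (h : IsGalois k (IntermediateField.extendScalars hX)) :
    IsGalois k (IntermediateField.extendScalars hY) := by
  subst e
  exact h

/-- two automorphisms of `K B / k` which commute on `K` and on `B` commute -/
theorem comm_of {k K B : IntermediateField ℚ ℂ} (h : k ≤ K ⊔ B) :
    letI := algC h
    ∀ σ τ : ↥(K ⊔ B) ≃ₐ[k] ↥(K ⊔ B),
      (∀ x : ↥(K ⊔ B), (x : ℂ) ∈ K → σ (τ x) = τ (σ x)) →
      (∀ x : ↥(K ⊔ B), (x : ℂ) ∈ B → σ (τ x) = τ (σ x)) → σ * τ = τ * σ := by
  letI := algC h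
  intro σ τ h1 h2
  have hQ : ∀ (ρ : ↥(K ⊔ B) ≃ₐ[k] ↥(K ⊔ B)) (r : ℚ), ρ (r : ↥(K ⊔ B)) = r := fun ρ r =>
    map_ratCast ρ r
  let T : IntermediateField ℚ ℂ :=
    { carrier := {z | ∃ hz : z ∈ K ⊔ B, σ (τ ⟨z, hz⟩) = τ (σ ⟨z, hz⟩)}
      mul_mem' := by
        rintro a b ⟨ha, ha'⟩ ⟨hb, hb'⟩
        refine ⟨mul_mem ha hb, ?_⟩
        have e : (⟨a * b, mul_mem ha hb⟩ : ↥(K ⊔ B)) = ⟨a, ha⟩ * ⟨b, hb⟩ := rfl
        rw [e, map_mul, map_mul, map_mul, map_mul, ha', hb']
      add_mem' := by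
        rintro a b ⟨ha, ha'⟩ ⟨hb, hb'⟩
        refine ⟨add_mem ha hb, ?_⟩
        have e : (⟨a + b, add_mem ha hb⟩ : ↥(K ⊔ B)) = ⟨a, ha⟩ + ⟨b, hb⟩ := rfl
        rw [e, map_add, map_add, map_add, map_add, ha', hb']
      algebraMap_mem' := by
        intro r
        refine ⟨algebraMap_mem _ r, ?_⟩
        have e : (⟨algebraMap ℚ ℂ r, algebraMap_mem _ r⟩ : ↥(K ⊔ B)) = (r : ↥(K ⊔ B)) := by
          apply Subtype.ext
          simp
        rw [e, hQ, hQ, hQ]
      inv_mem' := by
        rintro a ⟨ha, ha'⟩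
        refine ⟨inv_mem ha, ?_⟩
        have e : (⟨a⁻¹, inv_mem ha⟩ : ↥(K ⊔ B)) = (⟨a, ha⟩)⁻¹ := rfl
        rw [e, map_inv₀, map_inv₀, map_inv₀, map_inv₀, ha'] }
  have hT : K ⊔ B ≤ T := by
    apply sup_le
    · intro a ha
      exact ⟨(le_sup_left : K ≤ K ⊔ B) ha, h1 _ ha⟩
    · intro b hb
      exact ⟨(le_sup_right : B ≤ K ⊔ B) hb, h2 _ hb⟩
  ext x
  obtain ⟨hz, hx⟩ := hT x.2
  exact congrArg _ hx

/-- commuting on a normal subfield with abelian group -/
theorem comm_on {F E L : Type} [Field F] [Field E] [Field L] [Algebra F E] [Algebra F L]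
    [Algebra E L] [IsScalarTower F E L] [Normal F E] (hab : ∀ a b : E ≃ₐ[F] E, a * b = b * a)
    (σ τ : L ≃ₐ[F] L) (x : E) :
    σ (τ (algebraMap E L x)) = τ (σ (algebraMap E L x)) := by
  rw [← AlgEquiv.restrictNormal_commutes τ E x, ← AlgEquiv.restrictNormal_commutes σ E,
    ← AlgEquiv.restrictNormal_commutes σ E x, ← AlgEquiv.restrictNormal_commutes τ E]
  have h := congrArg (fun ρ : E ≃ₐ[F] E => ρ x) (hab (σ.restrictNormal E) (τ.restrictNormal E))
  exact congrArg _ h

end P_GALK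

open _root_.Pool.Agent.MU3.P_GALK

theorem t_GALK : S_GALK := by
  intro k K B fdK fdKB hB n h
  letI aL : Algebra k ↥(K ⊔ B n) := algC h
  haveI : Fact (Nat.Prime 3) := ⟨Nat.prime_three⟩
  obtain ⟨fdB, hGB, -⟩ := LAY_thm 3 n (B n) (hB.lay n)
  have hcyc : IsCyclic (B n ≃ₐ[ℚ] B n) := t_LAYC 3 n (B n) (hB.lay n)
  have fdk : FiniteDimensional ℚ k := FiniteDimensional.of_injective
    (IntermediateField.inclusion hB.hk).toLinearMap
    (IntermediateField.inclusion hB.hk).toRingHom.injective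
  refine ⟨?_, ?_⟩
  · have h1 := BCH_thm.1 ⊥ (B n) k k (k ⊔ B n) bot_le le_sup_left (bot_sup_eq k).symm
      (sup_comm k (B n)) (bot_gal hGB)
    have hfM : FiniteDimensional ℚ ↥(k ⊔ B n) := IntermediateField.finiteDimensional_sup k (B n)
    have h2 := BCH_thm.2 k K (k ⊔ B n) hB.hk le_sup_left (hB.hk.trans le_sup_left) hB.gal h1.1
    have e : K ⊔ (k ⊔ B n) = K ⊔ B n := by
      rw [← sup_assoc, sup_eq_left.2 hB.hk]
    exact (isGalois_algC h).2 (transp e _ h h2)
  · intro σ τ
    refine comm_of h σ τ ?_ ?_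
    · intro x hx
      letI aK : Algebra k K := algC hB.hk
      letI aKL : Algebra K ↥(K ⊔ B n) := algC le_sup_left
      haveI : IsScalarTower k K ↥(K ⊔ B n) := towerC hB.hk le_sup_left
      haveI : IsGalois k K := (isGalois_algC hB.hk).2 hB.gal
      have hab : ∀ a b : K ≃ₐ[k] K, a * b = b * a := by
        intro a b
        have h1 := hB.ab ((extEquiv hB.hk).symm.autCongr a) ((extEquiv hB.hk).symm.autCongr b)
        rw [← map_mul, ← map_mul] at h1
        exact (extEquiv hB.hk).symm.autCongr.injective h1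
      exact comm_on hab σ τ (⟨(x : ℂ), hx⟩ : K)
    · intro x hx
      letI aBL : Algebra (B n) ↥(K ⊔ B n) := algC le_sup_right
      haveI : IsScalarTower ℚ (B n) ↥(K ⊔ B n) := IsScalarTower.of_algebraMap_eq (fun _ => rfl)
      haveI : IsScalarTower ℚ k ↥(K ⊔ B n) := IsScalarTower.of_algebraMap_eq (fun _ => rfl)
      have hab : ∀ a b : B n ≃ₐ[ℚ] B n, a * b = b * a := by
        intro a b
        obtain ⟨g, hg⟩ := hcyc.exists_generator
        obtain ⟨i, rfl⟩ := hg a
        obtain ⟨j, rfl⟩ := hg b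
        exact zpow_mul_comm g i j
      exact comm_on hab (σ.restrictScalars ℚ) (τ.restrictScalars ℚ) (⟨(x : ℂ), hx⟩ : B n)

end Pool.Agent.MU3


end
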