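import Mathlib

/-! Parts: MU3.QDefs, MU3.StQ, MU3.Q_INT, MU3.Q_MR, MU3.Q_JB, MU3.Q_L1, MU3.Q_QA, MU3.Q_WQ, MU3.Q_EXP, MU3.Q_ODE, MU3.Q_EV, MU3.Q_E4, MU3.Q_POLE, MU3.Q_NF, MU3.Q_PFIN, MU3.Q_PORD, MU3.Q_QE, MU3.Q_LA -/

namespace Pool.Agent.MU3Q.EV
end Pool.Agent.MU3Q.EV
namespace Pool.Agent.MU3Q.EXP50
end Pool.Agent.MU3Q.EXP50
namespace Pool.Agent.MU3Q.INT
end Pool.Agent.MU3Q.INT
namespace Pool.Agent.MU3Q.JB
end Pool.Agent.MU3Q.JB
namespace Pool.Agent.MU3Q.L118
end Pool.Agent.MU3Q.L118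
namespace Pool.Agent.MU3Q.LA45
end Pool.Agent.MU3Q.LA45
namespace Pool.Agent.MU3Q.NFaux
end Pool.Agent.MU3Q.NFaux
namespace Pool.Agent.MU3Q.ODE
end Pool.Agent.MU3Q.ODE
namespace Pool.Agent.MU3Q.PFIN50
end Pool.Agent.MU3Q.PFIN50
namespace Pool.Agent.MU3Q.POLE
end Pool.Agent.MU3Q.POLE
namespace Pool.Agent.MU3Q.QA
end Pool.Agent.MU3Q.QA
namespace Pool.Agent.MU3Q.WQ
end Pool.Agent.MU3Q.WQ

section

/-!
# MU3, block WQ (helper58): weak q-expansion principle with bounded denominators. Definitions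

Functions on the upper half plane `ℍ`, group `SL(2, ℤ)`. `K` is a subfield of `ℂ`, `V` a valuation
subring of `ℂ`; `PP K V` is the set of the power series with coefficients in `K ∩ V`.
-/

set_option autoImplicit false

namespace Pool.Agent.MU3Q

open UpperHalfPlane ModularForm EisensteinSeries
open scoped MatrixGroups

noncomputable section

/-- holomorphic functions on the upper half plane -/
def Hol (F : ℍ → ℂ) : Prop := DifferentiableOn ℂ (F ∘ ofComplex) {z : ℂ | 0 < z.im}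

/-- at most a pole at `i ∞`: `Δ ^ m F` is bounded at `i ∞` for some `m` -/
def Grow (F : ℍ → ℂ) : Prop :=
  ∃ m : ℕ, IsBoundedAtImInfty (fun τ : ℍ => ModularForm.discriminant τ ^ m * F τ)

/-- the function `j / 1 = E₄³ / Δ` -/
def jf (τ : ℍ) : ℂ := E₄ τ ^ 3 / ModularForm.discriminant τ

/-- the local parameter `q = exp (2 π i τ)` -/
def qq (τ : ℍ) : ℂ := Complex.exp (2 * Real.pi * Complex.I * (τ : ℂ))

/-- meromorphic on the upper half plane and at `i ∞` (with some width `M`) -/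
def Mer (X : ℍ → ℂ) : Prop :=
  MeromorphicOn (X ∘ ofComplex) {z : ℂ | 0 < z.im} ∧
    ∃ (M : ℕ) (g : ℂ → ℂ) (Y : ℝ), 0 < M ∧ MeromorphicAt g 0 ∧
      ∀ τ : ℍ, Y < τ.im → X τ = g (Complex.exp (2 * Real.pi * Complex.I * (τ : ℂ) / M))

/-- `F` is given by the power series `u` in `q` on the whole upper half plane -/
def QS (F : ℍ → ℂ) (u : PowerSeries ℂ) : Prop :=
  ∀ τ : ℍ, HasSum (fun n : ℕ => PowerSeries.coeff n u * qq τ ^ n) (F τ)

/-- power series with coefficients in `K ∩ V` -/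
def PP (K : Subfield ℂ) (V : ValuationSubring ℂ) : Set (PowerSeries ℂ) :=
  {u | ∀ n, PowerSeries.coeff n u ∈ K ∧ PowerSeries.coeff n u ∈ V}

/-- complex linear combinations of elements of `PP K V` -/
def RS (K : Subfield ℂ) (V : ValuationSubring ℂ) : Submodule ℂ (PowerSeries ℂ) :=
  Submodule.span ℂ (PP K V)

/-- the Eisenstein series of weight 4: sum of `(x₀ τ + x₁)⁻⁴` over `x ≡ v mod N`, `x ≠ 0` -/
def Gv (N : ℕ) (v : Fin 2 → ZMod N) (τ : ℍ) : ℂ := by
  classical
  exact ∑' x : Fin 2 → ℤ,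
    if (∀ i, ((x i : ℤ) : ZMod N) = v i) then ((x 0 : ℂ) * (τ : ℂ) + (x 1 : ℂ)) ^ (-4 : ℤ) else 0

/-- weight 0 version `E_v E₄² / Δ` -/
def ev (N : ℕ) (v : Fin 2 → ZMod N) (τ : ℍ) : ℂ :=
  Gv N v τ * E₄ τ ^ 2 / ModularForm.discriminant τ

/-- the row vector `v` times the matrix `γ` -/
def vm {N : ℕ} (v : Fin 2 → ZMod N) (γ : SL(2, ℤ)) : Fin 2 → ZMod N :=
  fun j => v 0 * ((γ 0 j : ℤ) : ZMod N) + v 1 * ((γ 1 j : ℤ) : ZMod N)

/-- the vector `(0, 1)` -/
def v01 (N : ℕ) : Fin 2 → ZMod N := ![0, 1]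

/-- the polynomial `T` in two variables evaluated at `(j τ, e)` -/
def ej (T : Polynomial (Polynomial ℂ)) (τ : ℍ) (e : ℂ) : ℂ := Polynomial.evalEval (jf τ) e T

/-- the formal derivation `θ = q d/dq` -/
def thetaD (S : PowerSeries ℂ) : PowerSeries ℂ :=
  PowerSeries.mk fun n => (n : ℂ) * PowerSeries.coeff n S

end

end Pool.Agent.MU3Q


end

section

/-!
# MU3, block WQ (helper58): statements, proofs in words in the doc strings

A module proves `theorem t_X : St_X` in namespace `Pool.Agent.MU3Q` (hypotheses `(h : St_Y)` for the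
statements named as inputs). `Δ = ModularForm.discriminant` is nowhere zero on `ℍ`.
-/

set_option autoImplicit false

namespace Pool.Agent.MU3Q

open UpperHalfPlane ModularForm EisensteinSeries
open scoped MatrixGroups

noncomputable section

/-- (LA) descent of a linear relation from `ℂ` to `K`, with bounded denominators.

PROOF. `A' = Σ c_i u_i`, `B' = Σ d_j v_j` finite sums with `u_i, v_j ∈ PP K V`
(`Submodule.mem_span_set'` or induction). Choose `n₀` with `a₀ = coeff n₀ A' ≠ 0` and a `K`-linear map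
`l : ℂ → K` with `l a₀ ≠ 0` (`Module.forall_dual_apply_eq_zero_iff`, `K` a field). Let `A''` and `B''` have the
coefficients `l (coeff n A')`, `l (coeff n B')`. As the coefficients of `S` are in `K`,
`coeff n (A'' S) = Σ l(A'_a) S_b = l (Σ A'_a S_b) = l (B'_n)`, so `A'' S = B''`, `A'' ≠ 0`, and
`A'' = Σ l(c_i) u_i`, `B'' = Σ l(d_j) v_j`. For `x ∈ K` there is `q ∈ K ∩ V`, `q ≠ 0`, with `q x ∈ V` (`q = 1` if
`x ∈ V`, else `q = x⁻¹`); multiply by the product of these `q` for the finitely many `l(c_i)`, `l(d_j)`. -/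
def St_LA : Prop :=
  ∀ (K : Subfield ℂ) (V : ValuationSubring ℂ) (S A' B' : PowerSeries ℂ),
    (∀ n, PowerSeries.coeff n S ∈ K) → A' ∈ RS K V → B' ∈ RS K V → A' ≠ 0 → A' * S = B' →
    ∃ A ∈ PP K V, ∃ B ∈ PP K V, A ≠ 0 ∧ A * S = B

/-- (RM) `RS K V` is closed under products and contains `1`.

PROOF. `PP K V` is closed under products (`coeff_mul`: finite sums of products) and contains `1`;
`Submodule.span_induction` twice (or `Submodule.span_mul_span`). -/
def St_RM : Prop :=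
  ∀ (K : Subfield ℂ) (V : ValuationSubring ℂ), (1 : PowerSeries ℂ) ∈ RS K V ∧
    ∀ u ∈ RS K V, ∀ v ∈ RS K V, u * v ∈ RS K V

/-- (QA) algebra of convergent `q`-series: product, sum, scalar multiple, uniqueness.

PROOF. A power series `u` with `Summable (coeff n u * qq τ ^ n)` for all `τ ∈ ℍ` converges absolutely for
all `τ` (compare with `τ' = ` half of the imaginary part: `|q| < |q'| < 1`, bounded terms times a
geometric series; or `HasFPowerSeriesOnBall`; or simply: summable in `ℂ` is absolutely summable,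
`Summable.norm`). Product: Cauchy product (`tsum_mul_tsum_eq_tsum_sum_antidiagonal_of_summable_norm`,
`PowerSeries.coeff_mul`). Uniqueness: the function `q ↦ Σ coeff n u q^n` is analytic at `0` with this
power series; two of them agree for `0 < |q| < exp (-2 π Y)` (`q = qq τ`, `Y < im τ`: every such `q` is of this
form), so their coefficients agree (`HasFPowerSeriesAt.eq_formalMultilinearSeries` after
`HasFPowerSeriesAt.congr`, or compare the difference at its first non zero coefficient: divide by `q^m`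
and let `q → 0`). -/
def St_QA : Prop :=
  (∀ F G u v, QS F u → QS G v → QS (fun τ => F τ * G τ) (u * v)) ∧
  (∀ F G u v, QS F u → QS G v → QS (fun τ => F τ + G τ) (u + v)) ∧
  (∀ F u (c : ℂ), QS F u → QS (fun τ => c * F τ) (c • u)) ∧
  QS (fun _ => 1) 1 ∧
  (∀ (F : ℍ → ℂ) (u v : PowerSeries ℂ) (Y : ℝ),
    (∀ τ : ℍ, Y < τ.im → HasSum (fun n : ℕ => PowerSeries.coeff n u * qq τ ^ n) (F τ)) →
    (∀ τ : ℍ, Y < τ.im → HasSum (fun n : ℕ => PowerSeries.coeff n v * qq τ ^ n) (F τ)) → u = v)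

/-- (QE) `E₄` and `1728 Δ = E₄³ - E₆²` have `q`-expansions with coefficients in `ℤ`.

PROOF. `E_qExpansion_coeff` (with `bernoulli 4 = -1/30`, `bernoulli 6 = 1/42`, as in
`E₄_qExpansion_coeff_one`): coefficients `1, 240 σ₃(n)` and `1, -504 σ₅(n)`, integers;
`ModularForm.hasSum_qExpansion` with `h = 1` (`one_mem_strictPeriods_SL`), `𝕢 1 τ = qq τ`.
`ModularForm.discriminant_eq_E₄_cube_sub_E₆_sq`; `St_QA` for the products. Integers are in every subfield
and in every valuation ring. -/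
def St_QE : Prop :=
  ∃ u4 uD : PowerSeries ℂ, (∀ K V, u4 ∈ PP K V ∧ uD ∈ PP K V) ∧ QS (fun τ => E₄ τ) u4 ∧
    QS (fun τ => 1728 * ModularForm.discriminant τ) uD

/-- (L1) A holomorphic `SL(2, ℤ)`-invariant function with at most a pole at `i ∞` is a polynomial in `j`.

PROOF. Induction on `m` with `Δ^m F` bounded at `i ∞`. `G = Δ^m F` is a modular form of level one and weight
`12 m` (`ModularForm 𝒮ℒ (12 m)`: `F` is invariant, `Δ` has weight 12; boundedness at all cusps from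
`i ∞`, as in the proof of `CuspForm.discriminantEquiv` in Mathlib). `m = 0`: constant
(`ModularFormClass.levelOne_weight_zero_const`). `m + 1`: let `c` be the coefficient `0` of the `q`-expansion of
`G`; `G - c E₄^(3 (m+1))` has constant coefficient `0`, so it is a cusp form (`isCuspForm_iff_coeffZero_eq_zero`,
`toCuspForm`) and `Δ^m (F - c j^(m+1)) = (G - c E₄^(3(m+1))) / Δ` is bounded at `i ∞`
(`CuspForm.discriminantEquiv` is a modular form). Apply the induction hypothesis to `F - c j^(m+1)`. -/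
def St_L1 : Prop :=
  ∀ F : ℍ → ℂ, Hol F → (∀ (γ : SL(2, ℤ)) (τ : ℍ), F (γ • τ) = F τ) → Grow F →
    ∃ P : Polynomial ℂ, ∀ τ, F τ = P.eval (jf τ)

/-- (JB) `jf` is holomorphic, invariant, and `D (j)` is not identically zero near `i ∞`; `Hol` and `Grow`
are closed under sums and products; `Hol` functions form an integral domain.

PROOF. `E₄`, `Δ` modular forms of weight 4, 12 (`SlashInvariantForm` equation), `Δ ≠ 0`. `Δ j = E₄³` tends to `1`
and `Δ` tends to `0` at `i ∞` (cusp form), so `|j|` tends to infinity and `D (j τ) ≠ 0` for `im τ > Y`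
(finitely many roots). `Δ` is bounded at `i ∞`, so `m` can be increased in `Grow`. Domain: if
`F G = 0` with `F τ₀ ≠ 0`, then `G = 0` near `τ₀` and so everywhere (`AnalyticOnNhd.eqOn_zero_of_preconnected...`
on the convex set `{0 < im z}`). Last item: a finite product by induction. -/
def St_JB : Prop :=
  Hol jf ∧ Grow jf ∧ (∀ (γ : SL(2, ℤ)) (τ : ℍ), jf (γ • τ) = jf τ) ∧
  (∀ D : Polynomial ℂ, D ≠ 0 → ∃ Y : ℝ, ∀ τ : ℍ, Y < τ.im → D.eval (jf τ) ≠ 0) ∧
  (∀ F G, Hol F → Hol G → Hol (fun τ => F τ + G τ) ∧ Hol (fun τ => F τ * G τ)) ∧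
  (∀ F G, Grow F → Grow G → Grow (fun τ => F τ + G τ) ∧ Grow (fun τ => F τ * G τ)) ∧
  (∀ c : ℂ, Hol (fun _ => c) ∧ Grow (fun _ => c)) ∧
  (∀ F G, Hol F → Hol G → (∀ τ, F τ * G τ = 0) → (∀ τ, F τ = 0) ∨ (∀ τ, G τ = 0)) ∧
  (∀ (F : ℍ → ℂ) (Y : ℝ), Hol F → (∀ τ : ℍ, Y < τ.im → F τ = 0) → ∀ τ, F τ = 0)

/-- (INT) Lagrange interpolation over the conjugates. Inputs: `St_L1`, `St_JB`.

PROOF. Let `𝒜` be the subring of `ℍ → ℂ` of the functions with `Hol` and `Grow` (`St_JB`). For `i` let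
`J_i = {j : e_j ≠ e_i}` and
`N(X) = Σ_i y_i ∏_(j ∈ J_i) (X - e_j)`, `P(X) = Σ_i ∏_(j ∈ J_i) (X - e_j)` in `𝒜[X]`.
For `γ ∈ SL(2, ℤ)` the ring homomorphism `F ↦ F ∘ γ` maps `N` to `N` and `P` to `P` (reindex by `σ`; `e_j ≠ e_i`
iff `e_(σ j) ≠ e_(σ i)` because `τ ↦ γ τ` is a bijection). So the coefficients of `N` and `P` are
`SL(2, ℤ)`-invariant elements of `𝒜`, polynomials in `j` by `St_L1`: this gives `R` and `T` with
`ej R τ x = N(τ)(x)`, `ej T τ x = P(τ)(x)`. At `x = e_(i0)(τ)` the terms with `e_i ≠ e_(i0)` vanish (the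
factor `j = i0`), and for the others `J_i = J_(i0)`, `y_i = y_(i0)`. So with `m ≥ 1` the number of `i` with
`e_i = e_(i0)` and `Q = ∏_(j ∈ J_(i0)) (e_(i0) - e_j)` we get `N = m y_(i0) Q`, `P = m Q` at `e_(i0)`. `Q` is not
identically zero by `St_JB` (each factor is not identically zero). -/
def St_INT : Prop :=
  ∀ (ι : Type) [Fintype ι] (e y : ι → ℍ → ℂ),
    (∀ i, Hol (e i) ∧ Grow (e i) ∧ Hol (y i) ∧ Grow (y i)) →
    (∀ γ : SL(2, ℤ), ∃ σ : Equiv.Perm ι, ∀ i τ, e i (γ • τ) = e (σ i) τ ∧ y i (γ • τ) = y (σ i) τ) →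
    (∀ i j, e i = e j → y i = y j) → ∀ i0 : ι, ∃ T R : Polynomial (Polynomial ℂ),
      (∀ τ, y i0 τ * ej T τ (e i0 τ) = ej R τ (e i0 τ)) ∧ ∃ τ, ej T τ (e i0 τ) ≠ 0

/-- (PFIN) finitely many poles in the fundamental domain.

PROOF. By the second part of `Mer`: `g` is analytic on a punctured neighbourhood of `0`
(`MeromorphicAt.eventually_analyticAt`), so `X ∘ ofComplex` is analytic at all points with `im > Y'`
(composition with `exp`); no poles there (`AnalyticAt.meromorphicOrderAt_nonneg`). The set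
`{z : im z ≤ Y', |re z| ≤ 1/2, 1 ≤ |z|}` is compact and contained in the upper half plane (`im z ≥ √3/2`). The poles
of a meromorphic function have no accumulation point in its domain (near every point `z₀` of the domain the
function is analytic at all points of a punctured neighbourhood, `MeromorphicAt.eventually_analyticAt`), so a
compact subset contains finitely many (`IsCompact.elim_nhds_subcover`, or
`Set.Infinite.exists_accPt_of_subset_isCompact`). -/
def St_PFIN : Prop :=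
  ∀ X : ℍ → ℂ, Mer X →
    {τ : ℍ | τ ∈ ModularGroup.fd ∧ meromorphicOrderAt (X ∘ ofComplex) (τ : ℂ) < 0}.Finite

/-- (PORD) the order is invariant under Moebius transformations.

PROOF. `(fun τ => X (γ • τ)) ∘ ofComplex` is, on the upper half plane (an open set), the composition of
`X ∘ ofComplex` with `z ↦ (a z + b)/(c z + d)`, which is analytic with non zero derivative
`(c z + d)⁻²`, so the order is the same (`meromorphicOrderAt_comp_of_deriv_ne_zero` if available, otherwise: write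
`X ∘ ofComplex = (w - w₀)^n g(w)` near `w₀ = γ z₀` and `γ z - γ z₀ = (z - z₀) h(z)`, `h(z₀) ≠ 0`); use
`meromorphicOrderAt_congr`. -/
def St_PORD : Prop :=
  ∀ (X : ℍ → ℂ) (γ : SL(2, ℤ)), MeromorphicOn (X ∘ ofComplex) {z : ℂ | 0 < z.im} →
    MeromorphicOn ((fun τ : ℍ => X (γ • τ)) ∘ ofComplex) {z : ℂ | 0 < z.im} ∧
    ∀ τ : ℍ, meromorphicOrderAt ((fun τ : ℍ => X (γ • τ)) ∘ ofComplex) (τ : ℂ) =
      meromorphicOrderAt (X ∘ ofComplex) ((γ • τ : ℍ) : ℂ)

/-- The normal form of a meromorphic function on the upper half plane. -/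
def nf (X : ℍ → ℂ) (τ : ℍ) : ℂ := toMeromorphicNFOn (X ∘ ofComplex) {z : ℂ | 0 < z.im} (τ : ℂ)

/-- (NF) removable singularities.

PROOF. With `U = {0 < im z}` and `f = toMeromorphicNFOn (X ∘ ofComplex) U`: `f` is in normal form on `U`
(`meromorphicNFOn_toMeromorphicNFOn`), of order `≥ 0` (`meromorphicOrderAt_toMeromorphicNFOn`), so analytic on `U`
(`MeromorphicNFAt.meromorphicOrderAt_nonneg_iff_analyticAt`): first claim. Second: `f = X ∘ ofComplex` on a
punctured neighbourhood of every point of `U` (`toMeromorphicNFOn_eqOn_codiscrete` or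
`toMeromorphicNFOn_eq_self_on_nhdsNE`); so `nf (X ∘ γ)` and `nf X ∘ γ` agree on a punctured neighbourhood of every
point; both are continuous, so they agree. Third: the same argument, `f` and `X ∘ ofComplex` are both
continuous at the point. -/
def St_NF : Prop :=
  (∀ X : ℍ → ℂ, MeromorphicOn (X ∘ ofComplex) {z : ℂ | 0 < z.im} →
    (∀ τ : ℍ, 0 ≤ meromorphicOrderAt (X ∘ ofComplex) (τ : ℂ)) →
    Hol (nf X) ∧ (∀ τ : ℍ, AnalyticAt ℂ (X ∘ ofComplex) (τ : ℂ) → nf X τ = X τ)) ∧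
  (∀ (X X' : ℍ → ℂ) (γ : SL(2, ℤ)), MeromorphicOn (X ∘ ofComplex) {z : ℂ | 0 < z.im} →
    (∀ τ : ℍ, 0 ≤ meromorphicOrderAt (X ∘ ofComplex) (τ : ℂ)) →
    (∀ τ : ℍ, X (γ • τ) = X' τ) → ∀ τ : ℍ, nf X (γ • τ) = nf X' τ)

/-- (POLE) a common denominator. Inputs: `St_PFIN`, `St_PORD`, `St_NF`, `St_JB`.

PROOF. Let `B` be the finite set of the pairs `(i, τ')` with `τ'` in the fundamental domain and
`ord_(τ') X_i < 0` (`St_PFIN`) and `D = ∏_((i, τ') ∈ B) (T - j(τ'))^(- ord_(τ') X_i)`, `D ≠ 0`. Claim: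
`D(j) X_i` has order `≥ 0` at every `τ`. Let `τ = γ τ'` with `τ'` in the fundamental domain
(`ModularGroup.exists_smul_mem_fd`) and `X_i ∘ γ = X_k`. By `St_PORD` `ord_τ X_i = ord_(τ') X_k`. If this is
negative then `(k, τ') ∈ B`; `j - j(τ')` vanishes at `τ` (`j(γ τ') = j(τ')`) so has order `≥ 1` there, and
`D(j)` has order `≥ - ord_τ X_i` at `τ` (the other factors are analytic). Put
`y_i = nf (D(j) X_i)`. `Hol`: `St_NF`. Equivariance: `St_NF` (`D(j)` is invariant). For `im τ > Y`: `X_i` is analytic at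
`τ` (it is `g (exp (2 π i τ / M))` with `g` analytic on a punctured disc) so `y_i = D(j) X_i`. `Grow`: near
`i ∞`, `|g(q)| ≤ C |q|^(-m)` for `0 < |q| < r` (`g` is meromorphic at `0`), and
`|Δ(τ)| ≤ C exp (-2 π im τ)` (`exp_decay_isBigO_discriminant` or the `q`-expansion), so
`Δ^m X_i` is bounded at `i ∞`, and `D(j)` has `Grow`. -/
def St_POLE : Prop :=
  ∀ (ι : Type) [Fintype ι] (X : ι → ℍ → ℂ), (∀ i, Mer (X i)) →
    (∀ (γ : SL(2, ℤ)) (i : ι), ∃ k, ∀ τ, X i (γ • τ) = X k τ) →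
    ∃ D : Polynomial ℂ, D ≠ 0 ∧ ∃ y : ι → ℍ → ℂ, (∀ i, Hol (y i) ∧ Grow (y i)) ∧
      (∀ (γ : SL(2, ℤ)) (i k : ι), (∀ τ, X i (γ • τ) = X k τ) → ∀ τ, y i (γ • τ) = y k τ) ∧
      ∃ Y : ℝ, ∀ (i : ι) (τ : ℍ), Y < τ.im → y i τ = D.eval (jf τ) * X i τ

/-- (E1) the Eisenstein series `Gv` is holomorphic and bounded at `i ∞`.

PROOF. As in Mathlib for `eisensteinSeries` (files EisensteinSeries/UniformConvergence, MDifferentiable,
IsBoundedAtImInfty): on vertical strips `|re τ| ≤ A`, `im τ ≥ B` the term is bounded by `C |x|^(-4)`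
(`EisensteinSeries.summand_bound_of_mem_verticalStrip`), summable over `Fin 2 → ℤ`
(`EisensteinSeries.summable_one_div_norm_rpow`). Holomorphic: `differentiableOn_tsum_of_summable_norm` on small
discs. Bounded for `im τ ≥ 1`: `Gv` is invariant under `τ ↦ τ + N`, so one may assume `|re τ| ≤ N`; or the
bound of the summand. The term `x = 0` (if `v = 0`) is `0 ^ (-4) = 0`. -/
def St_E1 : Prop :=
  ∀ (N : ℕ) (v : Fin 2 → ZMod N), 0 < N → Hol (Gv N v) ∧ IsBoundedAtImInfty (Gv N v)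

/-- (E2) transformation of `Gv`.

PROOF. `x₀ (γ τ) + x₁ = (c τ + d)⁻¹ ((x₀ a + x₁ c) τ + (x₀ b + x₁ d))`; reindex by the bijection `x ↦ x γ` of
`Fin 2 → ℤ`, which maps `x ≡ v` to `x γ ≡ v γ` (`Equiv.tsum_eq`). -/
def St_E2 : Prop :=
  ∀ (N : ℕ) (v : Fin 2 → ZMod N) (γ : SL(2, ℤ)) (τ : ℍ),
    Gv N v (γ • τ) = (((γ 1 0 : ℤ) : ℂ) * (τ : ℂ) + ((γ 1 1 : ℤ) : ℂ)) ^ 4 * Gv N (vm v γ) τ

/-- (E3) the stabiliser of `Gv N (0, 1)` is `± Γ₁(N)`.

PROOF. Let `τ = i t`, `t → ∞`: `Gv N v (i t)` tends to the sum of the terms with `x₀ = 0`, i.e. to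
`s(v) = Σ_(n ≡ v₁ mod N) n⁻⁴` if `v₀ = 0` and to `0` otherwise (dominated convergence
`tendsto_tsum_of_dominated_convergence` for `t ≥ 1`: `|x₀ i t + x₁|² ≥ x₀² + x₁²`, and
`Σ (x₀² + x₁²)^(-2)` is summable). For `v = (0, 1)` the limit is `≥ 1` (term `n = 1`). If `vm v01 γ = (c, d)` with
`c ≠ 0` mod `N` the limit is `0`. If `c = 0` and `d ≠ ± 1` mod `N`, all `n ≡ d` mod `N` have `|n| ≥ 2` (`n = 0` has
the term `0`), so the limit is `≤ 2 Σ_(n ≥ 2) n⁻⁴ ≤ 2 Σ_(n ≥ 2) 1/(4 n (n - 1)) = 1/2 < 1`. -/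
def St_E3 : Prop :=
  ∀ (N : ℕ) (γ : SL(2, ℤ)), 0 < N → Gv N (vm (v01 N) γ) = Gv N (v01 N) →
    vm (v01 N) γ = v01 N ∨ vm (v01 N) γ = -v01 N

/-- (E4) `q`-expansion of `Gv N (0, 1)` up to its constant term and a factor.

PROOF. Terms with `x₀ = 0`: a constant `κ`. For `m ≥ 1`: `Σ_(n ≡ 1 mod N) (m N τ + n)⁻⁴ =
N⁻⁴ Σ_(l ∈ ℤ) (z + l)⁻⁴` with `z = (m N τ + 1)/N = m τ + 1/N ∈ ℍ`, `= N⁻⁴ ((2 π i)^4/3!) Σ_(r ≥ 1) r³ ζ^r q^(r m)`,
`ζ = exp (2 π i / N)` (Lipschitz: `EisensteinSeries.qExpansion_identity` or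
`EisensteinSeries.qExpansion_identity_pnat` in Mathlib). For `x₀ = - m N`:
the same with `ζ⁻¹` (`(-m N τ + n)⁻⁴ = (m N τ - n)⁻⁴`, `- n ≡ -1`). So with
`b_n = Σ_(r ∣ n) r³ (ζ^r + ζ^(-r))` (`b_0 = 0`): `Gv = κ + c Σ b_n q^n`, `c = N⁻⁴ (2 π)^4 / 6`
(reorder the absolutely convergent double sum over `m, r` by `n = m r`). `b_n` is in `K` and is integral over `ℤ`, so
in `V` (`ζ` is a root of unity: if `ζ ∉ V` then `ζ⁻¹ = ζ^(N-1)`... use that valuation rings are integrally closed, or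
`ζ ∈ V` or `ζ⁻¹ ∈ V`, and `ζ^(-1) = ζ^(N-1)`, `ζ = (ζ⁻¹)^(N-1)`). -/
def St_E4 : Prop :=
  ∀ N : ℕ, 0 < N → ∃ (κ c : ℂ) (b : PowerSeries ℂ),
    (∀ (K : Subfield ℂ) (V : ValuationSubring ℂ),
      Complex.exp (2 * Real.pi * Complex.I / N) ∈ K → b ∈ PP K V) ∧
    QS (Gv N (v01 N)) (PowerSeries.C κ + c • b)

/-- (EV) the weight 0 functions `ev`. Inputs: `St_E1`, `St_E2`, `St_E3`, `St_JB`.

PROOF. `Δ ≠ 0`, `Δ ev = Gv E₄²` is bounded at `i ∞`; the weights `4 + 8 - 12 = 0` cancel in the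
transformation. If `ev N (vm v01 γ) = ev N v01` as functions then `(Gv - Gv') E₄² = 0`, `E₄` is not identically
zero (its limit at `i ∞` is 1), so `Gv = Gv'` by the domain property in `St_JB`. -/
def St_EV : Prop :=
  ∀ N : ℕ, 0 < N → (∀ v, Hol (ev N v) ∧ Grow (ev N v)) ∧
    (∀ v (γ : SL(2, ℤ)) (τ : ℍ), ev N v (γ • τ) = ev N (vm v γ) τ) ∧
    ∀ γ : SL(2, ℤ), ev N (vm (v01 N) γ) = ev N (v01 N) →
      vm (v01 N) γ = v01 N ∨ vm (v01 N) γ = -v01 N

/-- (MR) `1 / (℘ (W) + c)` is meromorphic if `W` is a power series in `exp (2 π i τ / N)`.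

PROOF. `W τ = C + φ(q_N)`, `q_N = exp (2 π i τ / N)`, `φ(q) = Σ w_n q^(n+1)`, a power series which converges on the
unit disc (every `q ≠ 0` of the disc is some `q_N(τ)`), so analytic there. `℘` is meromorphic on `ℂ` (Mathlib,
Analysis/SpecialFunctions/Elliptic/Weierstrass), so `u ↦ (℘ u + c)⁻¹` is, and
`g(q) = (℘ (C + φ(q)) + c)⁻¹` is meromorphic at every point of the disc
(`MeromorphicAt.comp_analyticAt`), `X = g ∘ q_N`. -/
def St_MR : Prop :=
  ∀ (L : PeriodPair) (c0 : ℂ) (W : ℍ → ℂ) (C : ℂ) (w : ℕ → ℂ) (N : ℕ), 0 < N →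
    (∀ τ : ℍ, HasSum (fun n : ℕ => w n *
      Complex.exp (2 * Real.pi * Complex.I * (τ : ℂ) / N) ^ (n + 1)) (W τ - C)) →
    Mer (fun τ => (L.weierstrassP (W τ) + c0)⁻¹)

/-- (ODE) the power series of `1 / x(Z)`.

PROOF. Near `u = 0`: `℘(u) = u⁻² + h(u)`, `h` analytic (Mathlib: `weierstrassPExcept`), so
`(℘(u) + c0)⁻¹ = s(u) := u² / (1 + u² (h(u) + c0))` for `u ≠ 0` small (lattice points other than `0` are away), `s`
analytic at `0`, `s(0) = s'(0) = 0`, `s''(0)/2 = 1`. `φ(q) = Σ z_n q^n` is analytic at `0`, `φ(0) = 0`, `φ'(0) = z_1 ≠ 0`, so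
`φ(q) ≠ 0` for small `q ≠ 0`. Let `S` be the Taylor series of `s ∘ φ` at `0`: last claim. Coefficients 0, 1, 2:
`s(φ(q)) = φ(q)² (1 + O(q²))`. Differential equation: for `u ∉ L`, `s' = - ℘'/(℘ + c0)²`, so
`s'² = ℘'² / x⁴ = 4 (x³ + a2 x² + a4 x + a6) / x⁴ = 4 s (1 + a2 s + a4 s² + a6 s³)`, `x = 1/s`. With
`F = s ∘ φ`: `(q F')² = 4 F (1 + a2 F + a4 F² + a6 F³) (q φ')²` for small `q ≠ 0`, so also at `0`, and analytic
functions with equal germs have equal Taylor series (the Taylor series of `q F'` is `thetaD`, of a product the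
product). -/
def St_ODE : Prop :=
  ∀ (L : PeriodPair) (c0 a2 a4 a6 : ℂ),
    (∀ u : ℂ, u ∉ L.lattice → L.derivWeierstrassP u ^ 2 / 4 =
      (L.weierstrassP u + c0) ^ 3 + a2 * (L.weierstrassP u + c0) ^ 2 +
        a4 * (L.weierstrassP u + c0) + a6) →
    ∀ (Z : ℍ → ℂ) (z : PowerSeries ℂ), QS Z z → PowerSeries.coeff 0 z = 0 →
      PowerSeries.coeff 1 z ≠ 0 →
    ∃ S : PowerSeries ℂ, PowerSeries.coeff 0 S = 0 ∧ PowerSeries.coeff 1 S = 0 ∧
      PowerSeries.coeff 2 S = PowerSeries.coeff 1 z ^ 2 ∧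
      thetaD S ^ 2 = 4 * S * (1 + a2 • S + a4 • S ^ 2 + a6 • S ^ 3) * thetaD z ^ 2 ∧
      ∃ Y : ℝ, ∀ τ : ℍ, Y < τ.im →
        HasSum (fun n : ℕ => PowerSeries.coeff n S * qq τ ^ n) ((L.weierstrassP (Z τ) + c0)⁻¹)

/-- (ODEK) the coefficients of a solution of the differential equation are in `K`.

PROOF. Strong induction on `n`; `n ≤ 2` is clear. For `n ≥ 3` compare the coefficients of `q^(n+2)`: on the left
`(θS)²` has `2 * (2 S_2) (n S_n) + ` (terms with `S_m`, `2 < m < n`), on the right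
`4 S (θz)² (1 + ...)` has `4 S_n z_1² + ` (polynomial in `S_m`, `m < n`, `z_m`, `a_i` with coefficients in `ℤ`). The
coefficient of `S_n` is `4 n z_1² - 4 z_1² = 4 (n - 1) z_1² ≠ 0` in the difference. To organise this: let `S'` be the
series with coefficients of `S` below `n` and `0` from `n` on; `S = S' + S_n q^n + O(q^(n+1))`; all coefficients of
expressions in `S'` are in `K`, and modulo `q^(n+3)` the left side is `(θS')² + 4 n S_2 S_n q^(n+2)`, the right side
is the right side for `S'` plus `4 S_n z_1² q^(n+2)` (because `S = O(q²)`, `θz = z_1 q + ...`). -/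
def St_ODEK : Prop :=
  ∀ (K : Subfield ℂ) (a2 a4 a6 : ℂ) (z S : PowerSeries ℂ), a2 ∈ K → a4 ∈ K → a6 ∈ K →
    (∀ n, PowerSeries.coeff n z ∈ K) → PowerSeries.coeff 0 z = 0 → PowerSeries.coeff 1 z ≠ 0 →
    PowerSeries.coeff 0 S = 0 → PowerSeries.coeff 1 S = 0 →
    PowerSeries.coeff 2 S = PowerSeries.coeff 1 z ^ 2 →
    thetaD S ^ 2 = 4 * S * (1 + a2 • S + a4 • S ^ 2 + a6 • S ^ 3) * thetaD z ^ 2 →
    ∀ n, PowerSeries.coeff n S ∈ K

/-- (EXP) `Δ^M` times a polynomial in `j` and `ev N v01` has a `q`-series in `RS K V`.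
Inputs: `St_RM`, `St_QA`, `St_QE`, `St_E4`.

PROOF. `T = Σ t_(a b) X^a Y^b` (`X = j`, `Y = e = ev N v01`); let `M` be larger than all `a + b`. Then
`Δ^M j^a e^b = E₄^(3 a + 2 b) Gv^b Δ^(M - a - b)`, and `E₄`, `1728 Δ`, `Gv` have `q`-series in `RS K V` (`κ • 1 + c • b`); use
closure under products and linear combinations. Conclusion for all `M` large. -/
def St_EXP : Prop :=
  ∀ (N : ℕ) (K : Subfield ℂ) (V : ValuationSubring ℂ), 0 < N →
    Complex.exp (2 * Real.pi * Complex.I / N) ∈ K → ∀ T : Polynomial (Polynomial ℂ),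
    ∃ M₀ : ℕ, ∀ M : ℕ, M₀ ≤ M → ∃ u ∈ RS K V,
      QS (fun τ => ModularForm.discriminant τ ^ M * ej T τ (ev N (v01 N) τ)) u

/-- (WQ) THE THEOREM. Inputs: all of the above.

PROOF. Let `X τ = (℘ (Z τ) + c0)⁻¹`. Index set `ι = {v : Fin 2 → ZMod N // ∃ γ, v = vm v01 γ}`, finite. For `v ∈ ι`
choose `γ_v` with `v = vm v01 γ_v` and put `X_v τ = X (γ_v τ)`; it does not depend on the choice of `γ_v`, because
`vm v01 γ = vm v01 γ'` implies that `γ' γ⁻¹` has bottom row `≡ (0, 1)` mod `N`, so is in `Γ₁(N)` and `X` is invariant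
(`℘` is periodic). In the same way `X_v = X_(-v)` as `-1` acts trivially on `ℍ`. `X_v (γ τ) = X_(vγ) τ`, the same
permutation as for `ev N v`. `St_MR` gives `Mer (X_v)`; `St_POLE`: `D`, `y`. For `v, v'` with `ev N v = ev N v'`:
`v = v01 γ`, `v' = v01 γ'`, so `ev N (v01 γ' γ⁻¹) = ev N v01`, `v01 γ' γ⁻¹ = ± v01`, `v' = ± v`, so `X_v = X_v'` and
`y_v = y_v'` (`St_POLE` with `γ = 1`). `St_INT` at `i0 = v01`: `y T(j, e) = R(j, e)`, `T(j,e) ≢ 0`. For `im τ > Y`:
`X · D(j) T(j, e) = R(j, e)`, `X = Σ S_n q^n` (`St_ODE`; for `γ = 1` one may take `C = 0`). Multiply by `Δ^M`: with `St_EXP` for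
`D T` and for `R`, uniqueness in `St_QA` (product of the two absolutely convergent series for `im τ > Y`) gives
`A' S = B'`, `A', B' ∈ RS K V`; `A' ≠ 0` since `Δ^M D(j) T(j,e)` is not identically zero (`St_JB`: domain). `S` has
coefficients in `K` (`St_ODEK`). Conclude by `St_LA`. -/
def St_WQ : Prop :=
  ∀ (K : Subfield ℂ) (V : ValuationSubring ℂ) (N : ℕ) (L : PeriodPair) (c0 a2 a4 a6 : ℂ)
    (Z : ℍ → ℂ) (z : PowerSeries ℂ), 0 < N → Complex.exp (2 * Real.pi * Complex.I / N) ∈ K →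
    a2 ∈ K → a4 ∈ K → a6 ∈ K →
    (∀ u : ℂ, u ∉ L.lattice → L.derivWeierstrassP u ^ 2 / 4 =
      (L.weierstrassP u + c0) ^ 3 + a2 * (L.weierstrassP u + c0) ^ 2 +
        a4 * (L.weierstrassP u + c0) + a6) →
    (∀ n, PowerSeries.coeff n z ∈ K) → PowerSeries.coeff 0 z = 0 → PowerSeries.coeff 1 z ≠ 0 →
    QS Z z →
    (∀ γ : SL(2, ℤ), ∃ (C : ℂ) (w : ℕ → ℂ), ∀ τ : ℍ, HasSum (fun n : ℕ => w n *
      Complex.exp (2 * Real.pi * Complex.I * (τ : ℂ) / N) ^ (n + 1)) (Z (γ • τ) - C)) →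
    (∀ γ ∈ CongruenceSubgroup.Gamma1 N, ∀ τ : ℍ, Z (γ • τ) - Z τ ∈ L.lattice) →
    ∃ S : PowerSeries ℂ, (∀ n, PowerSeries.coeff n S ∈ K) ∧
      PowerSeries.coeff 0 S = 0 ∧ PowerSeries.coeff 1 S = 0 ∧
      PowerSeries.coeff 2 S = PowerSeries.coeff 1 z ^ 2 ∧
      thetaD S ^ 2 = 4 * S * (1 + a2 • S + a4 • S ^ 2 + a6 • S ^ 3) * thetaD z ^ 2 ∧
      ∃ A ∈ PP K V, ∃ B ∈ PP K V, A ≠ 0 ∧ A * S = B

end

end Pool.Agent.MU3Q


end

section

/-!
# MU3, block WQ, module INT: Lagrange interpolation over the conjugates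
-/

set_option autoImplicit false

namespace Pool.Agent.MU3Q

open UpperHalfPlane ModularForm EisensteinSeries
open scoped MatrixGroups

noncomputable section

namespace INT

open Polynomial

/-- the ring of holomorphic functions with at most a pole at infinity -/
def AA (hJB : St_JB) : Subring (ℍ → ℂ) where
  carrier := {F | Hol F ∧ Grow F}
  mul_mem' := fun {F G} hF hG =>
    ⟨(hJB.2.2.2.2.1 F G hF.1 hG.1).2, (hJB.2.2.2.2.2.1 F G hF.2 hG.2).2⟩
  one_mem' := hJB.2.2.2.2.2.2.1 1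
  add_mem' := fun {F G} hF hG =>
    ⟨(hJB.2.2.2.2.1 F G hF.1 hG.1).1, (hJB.2.2.2.2.2.1 F G hF.2 hG.2).1⟩
  zero_mem' := hJB.2.2.2.2.2.2.1 0
  neg_mem' := fun {F} hF => by
    have h1 := hJB.2.2.2.2.2.2.1 (-1)
    have h2 : (-F) = fun τ => (-1 : ℂ) * F τ := by
      funext τ
      simp
    rw [h2]
    exact ⟨(hJB.2.2.2.2.1 _ F h1.1 hF.1).2, (hJB.2.2.2.2.2.1 _ F h1.2 hF.2).2⟩

/-- evaluation at a point -/
def evA (hJB : St_JB) (τ : ℍ) : AA hJB →+* ℂ :=
  (Pi.evalRingHom (fun _ : ℍ => ℂ) τ).comp (AA hJB).subtype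

theorem evA_apply (hJB : St_JB) (τ : ℍ) (F : AA hJB) : evA hJB τ F = (F : ℍ → ℂ) τ := rfl

theorem interp (hL1 : St_L1) (hJB : St_JB) {ι : Type} [Fintype ι] [DecidableEq ι]
    (e w : ι → ℍ → ℂ) (he : ∀ i, Hol (e i) ∧ Grow (e i)) (hw : ∀ i, Hol (w i) ∧ Grow (w i))
    (J : ι → Finset ι) (hJ : ∀ i j, j ∈ J i ↔ e j ≠ e i)
    (hγ : ∀ γ : SL(2, ℤ), ∃ σ : Equiv.Perm ι, ∀ i τ, e i (γ • τ) = e (σ i) τ ∧
      w i (γ • τ) = w (σ i) τ) :
    ∃ R : Polynomial (Polynomial ℂ), ∀ τ x,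
      ej R τ x = ∑ i, w i τ * ∏ j ∈ J i, (x - e j τ) := by
  let e' : ι → AA hJB := fun i => ⟨e i, he i⟩
  let w' : ι → AA hJB := fun i => ⟨w i, hw i⟩
  let N : (AA hJB)[X] := ∑ i, C (w' i) * ∏ j ∈ J i, (X - C (e' j))
  have hNm : ∀ τ : ℍ, N.map (evA hJB τ) = ∑ i, C (w i τ) * ∏ j ∈ J i, (X - C (e j τ)) := by
    intro τ
    change (∑ i, C (w' i) * ∏ j ∈ J i, (X - C (e' j)) : (AA hJB)[X]).map (evA hJB τ) = _
    rw [Polynomial.map_sum]
    refine Finset.sum_congr rfl fun i _ => ?_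
    rw [Polynomial.map_mul, Polynomial.map_C, Polynomial.map_prod]
    congr 1
    refine Finset.prod_congr rfl fun j _ => ?_
    rw [Polynomial.map_sub, Polynomial.map_X, Polynomial.map_C]
    rfl
  have hinv : ∀ (γ : SL(2, ℤ)) (τ : ℍ), N.map (evA hJB (γ • τ)) = N.map (evA hJB τ) := by
    intro γ τ
    obtain ⟨σ, hσ⟩ := hγ γ
    rw [hNm, hNm]
    conv_rhs => rw [← Equiv.sum_comp σ]
    refine Finset.sum_congr rfl fun i _ => ?_
    rw [(hσ i τ).2]
    congr 1
    have h1 : J (σ i) = (J i).map σ.toEmbedding := by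
      ext j
      rw [Finset.mem_map_equiv, hJ, hJ, not_iff_not]
      have h2 : ∀ k τ, e (σ k) τ = e k (γ • τ) := fun k τ => ((hσ k τ).1).symm
      constructor
      · intro h
        funext t
        have h3 := congrFun h (γ⁻¹ • t)
        rw [h2, smul_inv_smul] at h3
        have h4 : e j (γ⁻¹ • t) = e (σ.symm j) t := by
          rw [← Equiv.apply_symm_apply σ j, h2, smul_inv_smul, Equiv.apply_symm_apply]
        rw [← h3, h4]
      · intro h
        funext t
        rw [h2, ← h, ← h2, Equiv.apply_symm_apply]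
    rw [h1, Finset.prod_map]
    refine Finset.prod_congr rfl fun j _ => ?_
    rw [(hσ j τ).1]
    rfl
  have hcoef : ∀ n, ∃ P : Polynomial ℂ, ∀ τ, (N.coeff n : ℍ → ℂ) τ = P.eval (jf τ) := by
    intro n
    refine hL1 _ (N.coeff n).2.1 ?_ (N.coeff n).2.2
    intro γ τ
    have h1 := congrArg (fun p : ℂ[X] => p.coeff n) (hinv γ τ)
    simp only [Polynomial.coeff_map] at h1
    exact h1
  choose P hP using hcoef
  refine ⟨∑ n ∈ Finset.range (N.natDegree + 1), Polynomial.monomial n (P n), fun τ x => ?_⟩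
  have h1 : ∑ i, w i τ * ∏ j ∈ J i, (x - e j τ) = (N.map (evA hJB τ)).eval x := by
    rw [hNm, Polynomial.eval_finsetSum]
    refine Finset.sum_congr rfl fun i _ => ?_
    rw [Polynomial.eval_mul, Polynomial.eval_C, Polynomial.eval_prod]
    congr 1
    refine Finset.prod_congr rfl fun j _ => ?_
    rw [Polynomial.eval_sub, Polynomial.eval_X, Polynomial.eval_C]
  rw [h1, Polynomial.eval_map, Polynomial.eval₂_eq_sum_range]
  unfold ej Polynomial.evalEval
  rw [Polynomial.eval_finsetSum, Polynomial.eval_finsetSum]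
  refine Finset.sum_congr rfl fun n _ => ?_
  rw [Polynomial.eval_monomial, Polynomial.eval_mul, Polynomial.eval_pow, Polynomial.eval_C,
    ← hP, evA_apply]

theorem prod_ne (hJB : St_JB) {ι : Type} [DecidableEq ι] (s : Finset ι) (f : ι → ℍ → ℂ)
    (hf : ∀ i ∈ s, Hol (f i) ∧ ¬ ∀ τ, f i τ = 0) :
    Hol (fun τ => ∏ i ∈ s, f i τ) ∧ ¬ ∀ τ, ∏ i ∈ s, f i τ = 0 := by
  induction s using Finset.induction_on with
  | empty =>
    refine ⟨?_, ?_⟩
    · simpa using (hJB.2.2.2.2.2.2.1 1).1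
    · intro h
      have := h UpperHalfPlane.I
      simp at this
  | insert a s ha ih =>
    obtain ⟨h1, h2⟩ := ih fun i hi => hf i (Finset.mem_insert_of_mem hi)
    obtain ⟨h3, h4⟩ := hf a (Finset.mem_insert_self _ _)
    have h5 : (fun τ => ∏ i ∈ insert a s, f i τ) = fun τ => f a τ * ∏ i ∈ s, f i τ := by
      funext τ
      rw [Finset.prod_insert ha]
    refine ⟨?_, ?_⟩
    · rw [h5]; exact (hJB.2.2.2.2.1 _ _ h3 h1).2
    · intro h
      rcases hJB.2.2.2.2.2.2.2.1 _ _ h3 h1 (fun τ => by rw [← h τ, Finset.prod_insert ha]) with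
        h6 | h6
      · exact h4 h6
      · exact h2 h6

end INT

open _root_.Pool.Agent.MU3Q.INT in
theorem t_INT (hL1 : St_L1) (hJB : St_JB) : St_INT := by
  classical
  intro ι _ e y hey hγ hyy i0
  let J : ι → Finset ι := fun i => Finset.univ.filter fun j => e j ≠ e i
  have hJ : ∀ i j, j ∈ J i ↔ e j ≠ e i := fun i j => by simp [J]
  obtain ⟨R, hR⟩ := interp hL1 hJB e y (fun i => ⟨(hey i).1, (hey i).2.1⟩)
    (fun i => ⟨(hey i).2.2.1, (hey i).2.2.2⟩) J hJ hγ
  obtain ⟨T, hT⟩ := interp hL1 hJB e (fun _ _ => 1) (fun i => ⟨(hey i).1, (hey i).2.1⟩)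
    (fun _ => hJB.2.2.2.2.2.2.1 1) J hJ (fun γ => by
      obtain ⟨σ, hσ⟩ := hγ γ
      exact ⟨σ, fun i τ => ⟨(hσ i τ).1, rfl⟩⟩)
  have hzero : ∀ i, e i ≠ e i0 → ∀ τ, ∏ j ∈ J i, (e i0 τ - e j τ) = 0 := by
    intro i hi τ
    exact Finset.prod_eq_zero ((hJ i i0).2 (Ne.symm hi)) (sub_self _)
  refine ⟨T, R, fun τ => ?_, ?_⟩
  · rw [hR, hT, Finset.mul_sum]
    refine Finset.sum_congr rfl fun i _ => ?_
    by_cases h : e i = e i0
    · rw [hyy i i0 h, one_mul]
    · rw [hzero i h τ]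
      ring
  · have hsub : ∀ j ∈ J i0, Hol (fun τ => e i0 τ - e j τ) ∧ ¬ ∀ τ, e i0 τ - e j τ = 0 := by
      intro j hj
      constructor
      · have h1 := (hJB.2.2.2.2.1 (fun _ => -1) (e j) (hJB.2.2.2.2.2.2.1 (-1)).1 (hey j).1).2
        have h2 := (hJB.2.2.2.2.1 (e i0) _ (hey i0).1 h1).1
        have h3 : (fun τ => e i0 τ - e j τ) = fun τ => e i0 τ + -1 * e j τ := by
          funext τ
          ring
        rw [h3]
        exact h2
      · intro h
        exact ((hJ i0 j).1 hj) (funext fun τ => (sub_eq_zero.1 (h τ)).symm)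
    obtain ⟨-, h1⟩ := prod_ne hJB (J i0) (fun j τ => e i0 τ - e j τ) hsub
    obtain ⟨τ, hτ⟩ := not_forall.1 h1
    refine ⟨τ, ?_⟩
    rw [hT]
    have h2 : ∀ i, (1 : ℂ) * ∏ j ∈ J i, (e i0 τ - e j τ) =
        if e i = e i0 then ∏ j ∈ J i0, (e i0 τ - e j τ) else 0 := by
      intro i
      by_cases h : e i = e i0
      · rw [if_pos h, one_mul]
        have : J i = J i0 := by
          ext j
          rw [hJ, hJ, h]
        rw [this]
      · rw [if_neg h, hzero i h τ, mul_zero]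
    rw [Finset.sum_congr rfl fun i _ => h2 i, Finset.sum_ite, Finset.sum_const_zero, add_zero,
      Finset.sum_const, nsmul_eq_mul]
    refine mul_ne_zero ?_ hτ
    have h3 : i0 ∈ Finset.univ.filter fun i => e i = e i0 := by simp
    have h4 : 0 < (Finset.univ.filter fun i => e i = e i0).card := Finset.card_pos.2 ⟨i0, h3⟩
    exact_mod_cast h4.ne'

end

end Pool.Agent.MU3Q


end

section

/-!
# MU3, block WQ, module MR: `1 / (℘ (W) + c)` is meromorphic
-/

set_option autoImplicit false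

namespace Pool.Agent.MU3Q

open UpperHalfPlane ModularForm EisensteinSeries
open scoped MatrixGroups

namespace Q_MR

/-- the norm of the local parameter -/
lemma norm_q (N : ℕ) (z : ℂ) :
    ‖Complex.exp (2 * Real.pi * Complex.I * z / N)‖ = Real.exp (-(2 * Real.pi * z.im / N)) := by
  rw [Complex.norm_exp]
  congr 1
  have h : (2 * (Real.pi : ℂ) * Complex.I * z / (N : ℂ)) =
      ((2 * Real.pi / N : ℝ) : ℂ) * (Complex.I * z) := by
    push_cast
    ring
  rw [h, Complex.re_ofReal_mul]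
  simp only [Complex.mul_re, Complex.I_re, Complex.I_im, zero_mul, one_mul, zero_sub]
  ring

lemma summable_norm (W : ℍ → ℂ) (C : ℂ) (w : ℕ → ℂ) (N : ℕ) (hN : 0 < N)
    (h : ∀ τ : ℍ, HasSum (fun n : ℕ => w n *
      Complex.exp (2 * Real.pi * Complex.I * (τ : ℂ) / N) ^ (n + 1)) (W τ - C))
    (r : ℝ) (hr0 : 0 < r) (hr1 : r < 1) : Summable (fun n : ℕ => ‖w n‖ * r ^ (n + 1)) := by
  have hN' : (0 : ℝ) < N := by exact_mod_cast hN
  have hlog : Real.log r < 0 := Real.log_neg hr0 hr1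
  obtain ⟨t, ht, hte⟩ : ∃ t : ℝ, 0 < t ∧ -(2 * Real.pi * t / N) = Real.log r := by
    refine ⟨-(N * Real.log r) / (2 * Real.pi), ?_, ?_⟩
    · apply div_pos _ (by positivity)
      have := mul_neg_of_pos_of_neg hN' hlog
      linarith
    · have := Real.pi_pos.ne'
      field_simp
  have him : (Complex.I * (t : ℂ)).im = t := by simp
  have hτ := (h ⟨Complex.I * (t : ℂ), by rw [him]; exact ht⟩).summable.norm
  refine hτ.congr ?_
  intro n
  rw [norm_mul, norm_pow, Q_MR.norm_q]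
  congr 2
  change Real.exp (-(2 * Real.pi * (Complex.I * (t : ℂ)).im / N)) = r
  rw [him, hte, Real.exp_log hr0]

lemma analytic (w : ℕ → ℂ)
    (h : ∀ r : ℝ, 0 < r → r < 1 → Summable (fun n : ℕ => ‖w n‖ * r ^ (n + 1)))
    (q : ℂ) (hq : ‖q‖ < 1) : AnalyticAt ℂ (fun x : ℂ => ∑' n : ℕ, w n * x ^ (n + 1)) q := by
  obtain ⟨r, hr1, hr2⟩ := exists_between hq
  have hr0 : 0 < r := (norm_nonneg q).trans_lt hr1
  have hd : DifferentiableOn ℂ (fun x : ℂ => ∑' n : ℕ, w n * x ^ (n + 1)) (Metric.ball 0 r) := by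
    apply Complex.differentiableOn_tsum_of_summable_norm (h r hr0 hr2)
    · intro n
      fun_prop
    · exact Metric.isOpen_ball
    · intro n x hx
      rw [norm_mul, norm_pow]
      have hx' : ‖x‖ ≤ r := by
        rw [Metric.mem_ball, dist_zero_right] at hx
        exact hx.le
      gcongr
  exact hd.analyticAt (Metric.isOpen_ball.mem_nhds (by
    rw [Metric.mem_ball, dist_zero_right]
    exact hr1))

end Q_MR

theorem t_MR : St_MR := by
  intro L c0 W C w N hN h
  have hN' : (0 : ℝ) < N := by exact_mod_cast hN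
  have hs := Q_MR.summable_norm W C w N hN h
  have han := Q_MR.analytic w hs
  have hmer : ∀ q : ℂ, ‖q‖ < 1 →
      MeromorphicAt (fun x : ℂ => (L.weierstrassP (C + ∑' n : ℕ, w n * x ^ (n + 1)) + c0)⁻¹) q := by
    intro q hq
    have h1 : AnalyticAt ℂ (fun x : ℂ => C + ∑' n : ℕ, w n * x ^ (n + 1)) q :=
      analyticAt_const.add (han q hq)
    have h2 : MeromorphicAt (L.weierstrassP ∘ fun x : ℂ => C + ∑' n : ℕ, w n * x ^ (n + 1)) q :=
      (L.meromorphic_weierstrassP _).comp_analyticAt h1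
    exact (h2.add (MeromorphicAt.const c0 q)).inv
  have hval : ∀ τ : ℍ, W τ = C + ∑' n : ℕ, w n *
      Complex.exp (2 * Real.pi * Complex.I * (τ : ℂ) / N) ^ (n + 1) := by
    intro τ
    rw [(h τ).tsum_eq]
    ring
  have hlt : ∀ z : ℂ, 0 < z.im → ‖Complex.exp (2 * Real.pi * Complex.I * z / N)‖ < 1 := by
    intro z hz
    rw [Q_MR.norm_q, Real.exp_lt_one_iff]
    have : 0 < 2 * Real.pi * z.im / N := by positivity
    linarith
  refine ⟨?_, N, _, 0, hN, hmer 0 (by simp), ?_⟩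
  · intro z hz
    have hz' : 0 < z.im := hz
    have h1 : AnalyticAt ℂ (fun x : ℂ => Complex.exp (2 * Real.pi * Complex.I * x / N)) z := by
      fun_prop
    have h2 := MeromorphicAt.comp_analyticAt (f := fun x : ℂ =>
      (L.weierstrassP (C + ∑' n : ℕ, w n * x ^ (n + 1)) + c0)⁻¹)
      (g := fun x : ℂ => Complex.exp (2 * Real.pi * Complex.I * x / N)) (x := z)
      (hmer _ (hlt z hz')) h1
    apply h2.congr
    have hopen : {x : ℂ | 0 < x.im} ∈ nhds z :=
      (isOpen_lt continuous_const Complex.continuous_im).mem_nhds hz'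
    filter_upwards [nhdsWithin_le_nhds hopen] with x hx
    have hx' : 0 < x.im := hx
    simp only [Function.comp_apply]
    rw [hval, ofComplex_apply_of_im_pos hx']
  · intro τ _
    simp only
    rw [hval τ]

end Pool.Agent.MU3Q


end

section

/-!
# MU3, block WQ: the function `j`, closure properties of `Hol` and `Grow`
-/

set_option autoImplicit false

namespace Pool.Agent.MU3Q

open UpperHalfPlane ModularForm EisensteinSeries
open scoped MatrixGroups Topology

namespace JB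

theorem hol_of_mf {k : ℤ} {F : Type*} [FunLike F ℍ ℂ] [ModularFormClass F 𝒮ℒ k] (f : F) :
    Hol f := UpperHalfPlane.mdifferentiable_iff.mp (ModularFormClass.holo f)

theorem hol_disc : Hol ModularForm.discriminant :=
  UpperHalfPlane.mdifferentiable_iff.mp (CuspFormClass.holo CuspForm.discriminant)

theorem isBounded_disc : IsBoundedAtImInfty ModularForm.discriminant :=
  discriminant_isZeroAtImInfty.isBoundedAtImInfty

theorem tendsto_E4 : Filter.Tendsto (fun τ : ℍ => E₄ τ) atImInfty (𝓝 1) := by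
  have h1 : AnalyticAt ℂ (cuspFunction 1 E₄) 0 :=
    ModularFormClass.analyticAt_cuspFunction_zero E₄ one_pos one_mem_strictPeriods_SL
  have h2 : cuspFunction 1 E₄ 0 = 1 := by
    have h3 := E_qExpansion_coeff_zero (k := 4) (by norm_num) (by decide)
    rw [qExpansion_coeff] at h3
    simpa using h3
  have h4 : (cuspFunction 1 E₄ ∘ fun τ : ℍ => Function.Periodic.qParam 1 τ) = E₄ := by
    funext τ
    exact SlashInvariantFormClass.eq_cuspFunction E₄ τ one_mem_strictPeriods_SL one_ne_zero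
  have h5 := h1.continuousAt.tendsto.comp (qParam_tendsto_atImInfty one_pos)
  rw [h4, h2] at h5
  exact h5

theorem bounded_add {F G : ℍ → ℂ} (hF : IsBoundedAtImInfty F) (hG : IsBoundedAtImInfty G) :
    IsBoundedAtImInfty (fun τ => F τ + G τ) := hF.add hG

theorem bounded_mul {F G : ℍ → ℂ} (hF : IsBoundedAtImInfty F) (hG : IsBoundedAtImInfty G) :
    IsBoundedAtImInfty (fun τ => F τ * G τ) := hF.mul hG

theorem bounded_pow {F : ℍ → ℂ} (hF : IsBoundedAtImInfty F) (n : ℕ) :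
    IsBoundedAtImInfty (fun τ => F τ ^ n) := by
  induction n with
  | zero =>
    simp only [pow_zero]
    exact Filter.const_boundedAtFilter _ _
  | succ n ih =>
    simp only [pow_succ]
    exact bounded_mul ih hF

theorem isOpen_U : IsOpen {z : ℂ | 0 < z.im} := isOpen_lt continuous_const Complex.continuous_im

theorem preconn_U : IsPreconnected {z : ℂ | 0 < z.im} :=
  (convex_halfSpace_im_gt 0).isPreconnected

theorem analytic_of_hol {F : ℍ → ℂ} (hF : Hol F) :
    AnalyticOnNhd ℂ (F ∘ ofComplex) {z : ℂ | 0 < z.im} := hF.analyticOnNhd isOpen_U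

theorem apply_coe (F : ℍ → ℂ) (τ : ℍ) : (F ∘ ofComplex) (τ : ℂ) = F τ := by
  rw [Function.comp_apply, ofComplex_apply]

theorem zero_of_eqOn {F : ℍ → ℂ} (h : Set.EqOn (F ∘ ofComplex) 0 {z : ℂ | 0 < z.im}) (τ : ℍ) :
    F τ = 0 := by
  rw [← apply_coe F τ]
  exact h τ.im_pos

theorem hol_jf : Hol jf := by
  have h1 := hol_of_mf E₄
  have h2 := hol_disc
  have h3 : DifferentiableOn ℂ (fun z => (E₄ ∘ ofComplex) z ^ 3 /
      (ModularForm.discriminant ∘ ofComplex) z) {z : ℂ | 0 < z.im} :=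
    (h1.pow 3).div h2 (fun z _ => discriminant_ne_zero _)
  exact h3

theorem grow_jf : Grow jf := by
  refine ⟨1, ?_⟩
  have h1 : (fun τ : ℍ => ModularForm.discriminant τ ^ 1 * jf τ) = fun τ => E₄ τ ^ 3 := by
    funext τ
    have := discriminant_ne_zero τ
    unfold jf
    field_simp
  rw [h1]
  exact bounded_pow (ModularFormClass.bdd_at_infty E₄) 3

theorem inv_jf (γ : SL(2, ℤ)) (τ : ℍ) : jf (γ • τ) = jf τ := by
  have hγ : (Matrix.SpecialLinearGroup.mapGL ℝ γ) ∈ 𝒮ℒ := ⟨γ, rfl⟩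
  have h1 : E₄ (γ • τ) = (denom (Matrix.SpecialLinearGroup.mapGL ℝ γ) τ) ^ (4 : ℤ) * E₄ τ :=
    SlashInvariantForm.slash_action_eqn'' E₄ hγ τ
  have h2 : CuspForm.discriminant (γ • τ) =
      (denom (Matrix.SpecialLinearGroup.mapGL ℝ γ) τ) ^ (12 : ℤ) * CuspForm.discriminant τ :=
    SlashInvariantForm.slash_action_eqn'' CuspForm.discriminant hγ τ
  rw [CuspForm.coe_discriminant] at h2
  have h3 : denom (Matrix.SpecialLinearGroup.mapGL ℝ γ) τ ≠ 0 := denom_ne_zero _ _
  have h4 := discriminant_ne_zero τ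
  unfold jf
  rw [h1, h2]
  rw [div_eq_div_iff (mul_ne_zero (zpow_ne_zero _ h3) h4) h4]
  have h5 : (denom (Matrix.SpecialLinearGroup.mapGL ℝ γ) τ) ^ (12 : ℤ) =
      ((denom (Matrix.SpecialLinearGroup.mapGL ℝ γ) τ) ^ (4 : ℤ)) ^ 3 := by
    rw [← zpow_natCast, ← zpow_mul]
    norm_num
  rw [h5]
  ring

theorem tendsto_jf : Filter.Tendsto (fun τ : ℍ => ‖jf τ‖) atImInfty Filter.atTop := by
  have h1 : Filter.Tendsto (fun τ : ℍ => ‖E₄ τ ^ 3‖) atImInfty (𝓝 1) := by
    have := (tendsto_E4.pow 3).norm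
    simpa using this
  have h2 : Filter.Tendsto (fun τ : ℍ => ‖ModularForm.discriminant τ‖) atImInfty (𝓝[>] 0) := by
    rw [tendsto_nhdsWithin_iff]
    refine ⟨?_, Filter.Eventually.of_forall fun τ => norm_pos_iff.mpr (discriminant_ne_zero τ)⟩
    have h3 : Filter.Tendsto ModularForm.discriminant atImInfty (𝓝 0) :=
      discriminant_isZeroAtImInfty
    simpa using h3.norm
  have h3 := h1.pos_mul_atTop one_pos h2.inv_tendsto_nhdsGT_zero
  refine h3.congr fun τ => ?_
  simp only [Pi.inv_apply, jf, div_eq_mul_inv, norm_mul, norm_inv]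

theorem poly_ne (D : Polynomial ℂ) (hD : D ≠ 0) :
    ∃ Y : ℝ, ∀ τ : ℍ, Y < τ.im → D.eval (jf τ) ≠ 0 := by
  have h1 : ∃ R : ℝ, ∀ z : ℂ, D.eval z = 0 → ‖z‖ ≤ R := by
    obtain ⟨R, hR⟩ := (D.roots.toFinset.finite_toSet.isBounded).exists_norm_le
    exact ⟨R, fun z hz => hR z (by simpa [hD] using hz)⟩
  obtain ⟨R, hR⟩ := h1
  have h2 := tendsto_jf.eventually_gt_atTop R
  obtain ⟨A, hA⟩ := (atImInfty_mem _).mp h2
  refine ⟨A, fun τ hτ h0 => ?_⟩
  have h3 := hA τ hτ.le
  have h4 := hR _ h0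
  exact absurd h3 (not_lt.mpr h4)

end JB

open _root_.Pool.Agent.MU3Q.JB in
theorem t_JB : St_JB := by
  refine ⟨hol_jf, grow_jf, inv_jf, poly_ne, ?_, ?_, ?_, ?_, ?_⟩
  · intro F G hF hG
    exact ⟨DifferentiableOn.add hF hG, DifferentiableOn.mul hF hG⟩
  · rintro F G ⟨m, hF⟩ ⟨n, hG⟩
    refine ⟨⟨m + n, ?_⟩, ⟨m + n, ?_⟩⟩
    · have h1 : (fun τ : ℍ => ModularForm.discriminant τ ^ (m + n) * (F τ + G τ)) =
          fun τ => ModularForm.discriminant τ ^ n * (ModularForm.discriminant τ ^ m * F τ) +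
            ModularForm.discriminant τ ^ m * (ModularForm.discriminant τ ^ n * G τ) := by
        funext τ
        ring
      rw [h1]
      exact bounded_add (bounded_mul (bounded_pow isBounded_disc n) hF)
        (bounded_mul (bounded_pow isBounded_disc m) hG)
    · have h1 : (fun τ : ℍ => ModularForm.discriminant τ ^ (m + n) * (F τ * G τ)) =
          fun τ => (ModularForm.discriminant τ ^ m * F τ) *
            (ModularForm.discriminant τ ^ n * G τ) := by
        funext τ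
        ring
      rw [h1]
      exact bounded_mul hF hG
  · intro c
    refine ⟨differentiableOn_const c, 0, ?_⟩
    simp only [pow_zero, one_mul]
    exact Filter.const_boundedAtFilter _ _
  · intro F G hF hG h
    have h1 : ∀ z ∈ {z : ℂ | 0 < z.im}, ((F ∘ ofComplex) * (G ∘ ofComplex) : ℂ → ℂ) z = 0 :=
      fun z _ => h (ofComplex z)
    rcases AnalyticOnNhd.eq_zero_or_eq_zero_of_mul_eq_zero (analytic_of_hol hF)
      (analytic_of_hol hG) h1 preconn_U with h2 | h2
    · exact Or.inl (zero_of_eqOn h2)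
    · exact Or.inr (zero_of_eqOn h2)
  · intro F Y hF h
    refine zero_of_eqOn ?_
    have hY : 0 < max Y 0 + 1 := by positivity
    let z₀ : ℂ := ((max Y 0 + 1 : ℝ) : ℂ) * Complex.I
    have hz₀ : z₀.im = max Y 0 + 1 := by simp [z₀]
    refine (analytic_of_hol hF).eqOn_zero_of_preconnected_of_eventuallyEq_zero preconn_U
      (z₀ := z₀) (by rw [Set.mem_ofPred_eq, hz₀]; exact hY) ?_
    have h1 : {z : ℂ | max Y 0 < z.im} ∈ 𝓝 z₀ := by
      refine (isOpen_lt continuous_const Complex.continuous_im).mem_nhds ?_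
      rw [Set.mem_ofPred_eq, hz₀]
      linarith
    filter_upwards [h1] with z hz
    have hz' : 0 < z.im := lt_of_le_of_lt (le_max_right _ _) hz
    have h2 := h ⟨z, hz'⟩ (lt_of_le_of_lt (le_max_left _ _) hz)
    rw [Function.comp_apply, ofComplex_apply_of_im_pos hz']
    exact h2

end Pool.Agent.MU3Q


end

section

/-!
# MU3, block WQ: module L1 (helper18)
-/

set_option autoImplicit false

namespace Pool.Agent.MU3Q

open UpperHalfPlane ModularForm EisensteinSeries ModularFormClass OnePoint Filter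
open scoped MatrixGroups

noncomputable section

namespace L118

/-- A level one modular form of weight `12 m` is `Δ ^ m P(j)`. -/
theorem main (m : ℕ) : ∀ G : ModularForm 𝒮ℒ (12 * (m : ℤ)), ∃ P : Polynomial ℂ,
    ∀ τ, G τ = ModularForm.discriminant τ ^ m * P.eval (jf τ) := by
  induction m with
  | zero =>
    intro G
    obtain ⟨c, hc⟩ := levelOne_weight_zero_const
      (ModularForm.mcast (b := 0) (by simp) G : ModularForm 𝒮ℒ 0)
    refine ⟨Polynomial.C c, fun τ => ?_⟩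
    have h1 : G τ = c := congrFun hc τ
    rw [h1, pow_zero, one_mul, Polynomial.eval_C]
  | succ m ih =>
    intro G
    let g : ModularForm 𝒮ℒ (12 * ((m + 1 : ℕ) : ℤ)) :=
      ModularForm.mcast (by push_cast; ring) (E₄.pow (3 * (m + 1)))
    have hg0 : (qExpansion 1 g).coeff 0 = 1 := by
      have h1 : qExpansion 1 g = (qExpansion 1 E₄) ^ (3 * (m + 1)) :=
        ModularForm.qExpansion_pow one_pos one_mem_strictPeriods_SL E₄ (3 * (m + 1))
      rw [h1, PowerSeries.coeff_zero_eq_constantCoeff_apply, map_pow,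
        ← PowerSeries.coeff_zero_eq_constantCoeff_apply, E_qExpansion_coeff_zero _ ⟨2, rfl⟩,
        one_pow]
    have hc := sub_smul_isCuspForm G g hg0
    obtain ⟨c, hcd⟩ : ∃ c, c = (qExpansion 1 G).coeff 0 := ⟨_, rfl⟩
    rw [← hcd, isCuspForm_iff_coeffZero_eq_zero] at hc
    obtain ⟨P, hP⟩ := ih (ModularForm.mcast (by push_cast; ring)
      (CuspForm.discriminantEquiv (toCuspForm (G - c • g) hc)))
    refine ⟨P + Polynomial.C c * Polynomial.X ^ (m + 1), fun τ => ?_⟩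
    have h1 : (G τ - c * E₄ τ ^ (3 * (m + 1))) / ModularForm.discriminant τ =
        ModularForm.discriminant τ ^ m * P.eval (jf τ) := by
      rw [← hP τ]
      rw [ModularForm.mcast_apply, CuspForm.discriminantEquiv_apply, toCuspForm_apply]
      congr 1
      show G τ - c * E₄ τ ^ (3 * (m + 1)) = (G - c • g) τ
      have h2 : (G - c • g) τ = G τ - c * g τ := rfl
      rw [h2]
      have h3 : g τ = E₄ τ ^ (3 * (m + 1)) := by
        show (E₄.pow (3 * (m + 1))) τ = _
        rw [ModularForm.coe_pow]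
        rfl
      rw [h3]
    have hΔ := ModularForm.discriminant_ne_zero τ
    rw [div_eq_iff hΔ] at h1
    have h2 : ModularForm.discriminant τ ^ (m + 1) * jf τ ^ (m + 1) = E₄ τ ^ (3 * (m + 1)) := by
      rw [← mul_pow, jf, mul_div_cancel₀ _ hΔ, ← pow_mul]
    simp only [Polynomial.eval_add, Polynomial.eval_mul, Polynomial.eval_C, Polynomial.eval_pow,
      Polynomial.eval_X]
    linear_combination h1 - c * h2

/-- The modular form `Δ ^ m F`. -/
theorem slash (m : ℕ) (F : ℍ → ℂ) (hF : ∀ (γ : SL(2, ℤ)) (τ : ℍ), F (γ • τ) = F τ)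
    (γ : SL(2, ℤ)) : (fun τ => ModularForm.discriminant τ ^ m * F τ) ∣[(12 * (m : ℤ))] γ =
      fun τ => ModularForm.discriminant τ ^ m * F τ := by
  ext z
  have h := congrFun (SlashInvariantForm.slash_action_generators_SL2Z discriminant_S_invariant
    discriminant_T_invariant γ) z
  rw [SL_slash_apply] at h
  rw [SL_slash_apply, hF]
  show ModularForm.discriminant (γ • z) ^ m * F z * _ = ModularForm.discriminant z ^ m * F z
  rw [← h, mul_pow]
  have e : (denom γ z ^ (-(12 : ℤ))) ^ m = denom γ z ^ (-(12 * (m : ℤ))) := by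
    rw [← zpow_natCast, ← zpow_mul, neg_mul]
  rw [e]
  ring

def mk (m : ℕ) (F : ℍ → ℂ) (hH : Hol F) (hF : ∀ (γ : SL(2, ℤ)) (τ : ℍ), F (γ • τ) = F τ)
    (hb : IsBoundedAtImInfty (fun τ : ℍ => ModularForm.discriminant τ ^ m * F τ)) :
    ModularForm 𝒮ℒ (12 * (m : ℤ)) where
  toFun τ := ModularForm.discriminant τ ^ m * F τ
  slash_action_eq' := fun _ ⟨γ, hγ⟩ => hγ ▸ slash m F hF γ
  holo' := by
    rw [UpperHalfPlane.mdifferentiable_iff]
    have h1 := UpperHalfPlane.mdifferentiable_iff.1 CuspForm.discriminant.holo'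
    exact (h1.pow m).mul hH
  bdd_at_cusps' {c} hc := by
    rw [Subgroup.IsArithmetic.isCusp_iff_isCusp_SL2Z] at hc
    rw [isBoundedAt_iff_forall_SL2Z hc]
    intro γ _
    rw [slash m F hF γ]
    exact hb

end L118

open _root_.Pool.Agent.MU3Q.L118 in
theorem t_L1 : St_L1 := by
  intro F hH hF hG
  obtain ⟨m, hb⟩ := hG
  obtain ⟨P, hP⟩ := main m (mk m F hH hF hb)
  refine ⟨P, fun τ => ?_⟩
  have h1 : ModularForm.discriminant τ ^ m * F τ =
      ModularForm.discriminant τ ^ m * P.eval (jf τ) := hP τ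
  exact mul_left_cancel₀ (pow_ne_zero m (ModularForm.discriminant_ne_zero τ)) h1

end

end Pool.Agent.MU3Q


end

section

/-!
# MU3, block WQ, module QA: algebra of convergent `q`-series
-/

set_option autoImplicit false

namespace Pool.Agent.MU3Q

open UpperHalfPlane ModularForm EisensteinSeries Filter Topology
open scoped MatrixGroups

noncomputable section

namespace QA

/-- the point `i t` -/
def pt (t : ℝ) (ht : 0 < t) : ℍ := ⟨t * Complex.I, by simpa using ht⟩

theorem pt_im (t : ℝ) (ht : 0 < t) : (pt t ht).im = t := by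
  change ((t : ℂ) * Complex.I).im = t
  simp

theorem qq_pt (t : ℝ) (ht : 0 < t) : qq (pt t ht) = ((Real.exp (-(2 * Real.pi * t)) : ℝ) : ℂ) := by
  unfold qq
  rw [Complex.ofReal_exp]
  congr 1
  change 2 * (Real.pi : ℂ) * Complex.I * ((t : ℂ) * Complex.I) = _
  push_cast
  linear_combination (2 * (Real.pi : ℂ) * t) * Complex.I_sq

/-- a real variable version of the uniqueness -/
theorem uniq_real (w : ℕ → ℂ) (T : ℝ)
    (h : ∀ t : ℝ, T ≤ t →
      HasSum (fun n : ℕ => w n * ((Real.exp (-(2 * Real.pi * t)) : ℝ) : ℂ) ^ n) 0) :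
    ∀ n, w n = 0 := by
  intro m
  induction m using Nat.strong_induction_on with
  | _ m ih =>
  have hs : ∀ t : ℝ, T ≤ t →
      HasSum (fun k : ℕ => w (k + m) * ((Real.exp (-(2 * Real.pi * t)) : ℝ) : ℂ) ^ k) 0 := by
    intro t ht
    have h1 := (hasSum_nat_add_iff' m).2 (h t ht)
    have h2 : ∑ i ∈ Finset.range m, w i * ((Real.exp (-(2 * Real.pi * t)) : ℝ) : ℂ) ^ i = 0 := by
      refine Finset.sum_eq_zero fun i hi => ?_
      rw [ih i (Finset.mem_range.1 hi), zero_mul]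
    rw [h2, sub_zero] at h1
    have h3 := h1.mul_right ((((Real.exp (-(2 * Real.pi * t)) : ℝ) : ℂ) ^ m)⁻¹)
    rw [zero_mul] at h3
    have hne : ((Real.exp (-(2 * Real.pi * t)) : ℝ) : ℂ) ≠ 0 :=
      Complex.ofReal_ne_zero.2 (Real.exp_pos _).ne'
    have h4 : (fun k : ℕ => w (k + m) * ((Real.exp (-(2 * Real.pi * t)) : ℝ) : ℂ) ^ k) =
        fun k : ℕ => w (k + m) * ((Real.exp (-(2 * Real.pi * t)) : ℝ) : ℂ) ^ (k + m) *
          ((((Real.exp (-(2 * Real.pi * t)) : ℝ) : ℂ) ^ m)⁻¹) := by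
      funext k
      rw [pow_add]
      field_simp
    rw [h4]
    exact h3
  have hlim : Tendsto (fun t : ℝ => ∑' k : ℕ,
      w (k + m) * ((Real.exp (-(2 * Real.pi * t)) : ℝ) : ℂ) ^ k) atTop
      (𝓝 (∑' k : ℕ, if k = 0 then w (0 + m) else 0)) := by
    refine tendsto_tsum_of_dominated_convergence
      (bound := fun k => ‖w (k + m) * ((Real.exp (-(2 * Real.pi * T)) : ℝ) : ℂ) ^ k‖) ?_ ?_ ?_
    · exact (hs T le_rfl).summable.norm
    · intro k
      rcases Nat.eq_zero_or_pos k with rfl | hk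
      · simp only [pow_zero, mul_one, if_true]
        exact tendsto_const_nhds
      · rw [if_neg hk.ne']
        have h5 : Tendsto (fun t : ℝ => Real.exp (-(2 * Real.pi * t))) atTop (𝓝 0) := by
          refine Real.tendsto_exp_atBot.comp ?_
          have : Tendsto (fun t : ℝ => 2 * Real.pi * t) atTop atTop :=
            tendsto_id.const_mul_atTop (by positivity)
          exact tendsto_neg_atTop_atBot.comp this
        have h6 : Tendsto (fun t : ℝ => ((Real.exp (-(2 * Real.pi * t)) : ℝ) : ℂ)) atTop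
            (𝓝 0) := by
          have := (Complex.continuous_ofReal.tendsto 0).comp h5
          rw [Complex.ofReal_zero] at this
          exact this
        have h7 := (h6.pow k).const_mul (w (k + m))
        rw [zero_pow hk.ne', mul_zero] at h7
        exact h7
    · filter_upwards [eventually_ge_atTop T] with t ht k
      rw [norm_mul, norm_mul, norm_pow, norm_pow]
      refine mul_le_mul_of_nonneg_left (pow_le_pow_left₀ (norm_nonneg _) ?_ k) (norm_nonneg _)
      rw [Complex.norm_real, Complex.norm_real, Real.norm_eq_abs, Real.norm_eq_abs,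
        abs_of_pos (Real.exp_pos _), abs_of_pos (Real.exp_pos _)]
      refine Real.exp_le_exp.2 ?_
      have hpi := Real.pi_pos
      nlinarith
  rw [tsum_ite_eq, zero_add] at hlim
  have hzero : Tendsto (fun t : ℝ => ∑' k : ℕ,
      w (k + m) * ((Real.exp (-(2 * Real.pi * t)) : ℝ) : ℂ) ^ k) atTop (𝓝 0) := by
    refine tendsto_const_nhds.congr' ?_
    filter_upwards [eventually_ge_atTop T] with t ht
    exact (hs t ht).tsum_eq.symm
  exact tendsto_nhds_unique hlim hzero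

end QA

open _root_.Pool.Agent.MU3Q.QA

theorem t_QA : St_QA := by
  refine ⟨?_, ?_, ?_, ?_, ?_⟩
  · intro F G u v hF hG τ
    have h1 := (hF τ).summable.norm
    have h2 := (hG τ).summable.norm
    have h3 := (summable_norm_sum_mul_antidiagonal_of_summable_norm h1 h2).of_norm.hasSum
    rw [← tsum_mul_tsum_eq_tsum_sum_antidiagonal_of_summable_norm h1 h2, (hF τ).tsum_eq,
      (hG τ).tsum_eq] at h3
    have h4 : (fun n : ℕ => PowerSeries.coeff n (u * v) * qq τ ^ n) = fun n =>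
        ∑ kl ∈ Finset.HasAntidiagonal.antidiagonal n, PowerSeries.coeff kl.1 u * qq τ ^ kl.1 *
          (PowerSeries.coeff kl.2 v * qq τ ^ kl.2) := by
      funext n
      rw [PowerSeries.coeff_mul, Finset.sum_mul]
      refine Finset.sum_congr rfl fun kl hkl => ?_
      rw [← Finset.HasAntidiagonal.mem_antidiagonal.1 hkl, pow_add]
      ring
    rw [h4]
    exact h3
  · intro F G u v hF hG τ
    have h1 := (hF τ).add (hG τ)
    have h2 : (fun n : ℕ => PowerSeries.coeff n (u + v) * qq τ ^ n) = fun n =>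
        PowerSeries.coeff n u * qq τ ^ n + PowerSeries.coeff n v * qq τ ^ n := by
      funext n
      rw [map_add, add_mul]
    rw [h2]
    exact h1
  · intro F u c hF τ
    have h1 := (hF τ).mul_left c
    have h2 : (fun n : ℕ => PowerSeries.coeff n (c • u) * qq τ ^ n) = fun n =>
        c * (PowerSeries.coeff n u * qq τ ^ n) := by
      funext n
      rw [map_smul, smul_eq_mul, mul_assoc]
    rw [h2]
    exact h1
  · intro τ
    have h2 : (fun n : ℕ => PowerSeries.coeff n (1 : PowerSeries ℂ) * qq τ ^ n) = fun n =>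
        if n = 0 then (1 : ℂ) else 0 := by
      funext n
      rw [PowerSeries.coeff_one]
      split_ifs with h
      · rw [h, pow_zero, mul_one]
      · rw [zero_mul]
    rw [h2]
    exact hasSum_ite_eq 0 1
  · intro F u v Y hu hv
    have h1 : ∀ n, PowerSeries.coeff n u - PowerSeries.coeff n v = 0 := by
      refine uniq_real (fun n => PowerSeries.coeff n u - PowerSeries.coeff n v) (max Y 0 + 1) ?_
      intro t ht
      have ht0 : 0 < t := by
        have := le_max_right Y 0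
        linarith
      have htY : Y < (pt t ht0).im := by
        rw [pt_im]
        have := le_max_left Y 0
        linarith
      have h2 := (hu _ htY).sub (hv _ htY)
      rw [sub_self, qq_pt] at h2
      have h3 : (fun n : ℕ => (PowerSeries.coeff n u - PowerSeries.coeff n v) *
          ((Real.exp (-(2 * Real.pi * t)) : ℝ) : ℂ) ^ n) = fun n =>
          PowerSeries.coeff n u * ((Real.exp (-(2 * Real.pi * t)) : ℝ) : ℂ) ^ n -
          PowerSeries.coeff n v * ((Real.exp (-(2 * Real.pi * t)) : ℝ) : ℂ) ^ n := by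
        funext n
        rw [sub_mul]
      rw [h3]
      exact h2
    ext n
    exact sub_eq_zero.1 (h1 n)

end

end Pool.Agent.MU3Q


end

section

/-!
# MU3, block WQ: the final assembly
-/

set_option autoImplicit false

namespace Pool.Agent.MU3Q

open UpperHalfPlane ModularForm EisensteinSeries
open scoped MatrixGroups

namespace WQ

lemma vm_mul {N : ℕ} (v : Fin 2 → ZMod N) (γ γ' : SL(2, ℤ)) : vm (vm v γ) γ' = vm v (γ * γ') := by
  funext j
  simp only [vm, Matrix.SpecialLinearGroup.coe_mul, Matrix.mul_apply, Fin.sum_univ_two]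
  push_cast
  ring

lemma vm_one {N : ℕ} (v : Fin 2 → ZMod N) : vm v 1 = v := by
  funext j
  fin_cases j <;> simp [vm]

lemma vm_neg {N : ℕ} (v : Fin 2 → ZMod N) (γ : SL(2, ℤ)) : vm v (-γ) = -vm v γ := by
  funext j
  simp only [vm, Matrix.SpecialLinearGroup.coe_neg, Matrix.neg_apply, Pi.neg_apply]
  push_cast
  ring

lemma neg_vm {N : ℕ} (v : Fin 2 → ZMod N) (γ : SL(2, ℤ)) : vm (-v) γ = -vm v γ := by
  funext j
  simp only [vm, Pi.neg_apply]
  ring

lemma mem_Gamma1 {N : ℕ} {γ : SL(2, ℤ)} (h : vm (v01 N) γ = v01 N) :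
    γ ∈ CongruenceSubgroup.Gamma1 N := by
  have h0 := congrFun h 0
  have h1 := congrFun h 1
  simp only [vm, v01, Matrix.cons_val_zero, Matrix.cons_val_one, zero_mul, one_mul, zero_add]
    at h0 h1
  rw [CongruenceSubgroup.Gamma1_mem]
  have hdet := γ.det_coe
  rw [Matrix.det_fin_two] at hdet
  have hdet' := congrArg (fun x : ℤ => (x : ZMod N)) hdet
  simp only [Int.cast_sub, Int.cast_mul, Int.cast_one] at hdet'
  refine ⟨?_, h1, h0⟩
  rw [h0, h1] at hdet'
  simpa using hdet'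

/-- Cauchy product of two convergent series at one point. -/
lemma hasSum_mul {u v : PowerSeries ℂ} {q a b : ℂ}
    (hu : HasSum (fun n : ℕ => PowerSeries.coeff n u * q ^ n) a)
    (hv : HasSum (fun n : ℕ => PowerSeries.coeff n v * q ^ n) b) :
    HasSum (fun n : ℕ => PowerSeries.coeff n (u * v) * q ^ n) (a * b) := by
  have h1 := hu.summable.norm
  have h2 := hv.summable.norm
  have h3 := (summable_norm_sum_mul_antidiagonal_of_summable_norm h1 h2).of_norm.hasSum
  rw [← tsum_mul_tsum_eq_tsum_sum_antidiagonal_of_summable_norm h1 h2, hu.tsum_eq, hv.tsum_eq] at h3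
  refine h3.congr_fun fun n => ?_
  rw [PowerSeries.coeff_mul, Finset.sum_mul]
  refine Finset.sum_congr rfl fun p hp => ?_
  have := Finset.HasAntidiagonal.mem_antidiagonal.1 hp
  rw [← this, pow_add]
  ring

/-- `ej` of a constant times a polynomial. -/
lemma ej_C_mul (D : Polynomial ℂ) (T : Polynomial (Polynomial ℂ)) (τ : ℍ) (e : ℂ) :
    ej (Polynomial.C D * T) τ e = D.eval (jf τ) * ej T τ e := by
  simp [ej, Polynomial.evalEval]

lemma hol_sub_poly (hJB : St_JB) (D : Polynomial ℂ) : Hol (fun τ => D.eval (jf τ)) := by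
  obtain ⟨hj, -, -, -, hH, -, hc, -, -⟩ := hJB
  induction D using Polynomial.induction_on' with
  | add p q hp hq =>
    simp only [Polynomial.eval_add]
    exact (hH _ _ hp hq).1
  | monomial n a =>
    simp only [Polynomial.eval_monomial]
    refine (hH _ _ (hc a).1 ?_).2
    induction n with
    | zero => simpa using (hc 1).1
    | succ n ih =>
      simp only [pow_succ]
      exact (hH _ _ ih hj).2

lemma hol_ej (hJB : St_JB) (T : Polynomial (Polynomial ℂ)) {e : ℍ → ℂ} (he : Hol e) :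
    Hol (fun τ => ej T τ (e τ)) := by
  have hJB' := hJB
  obtain ⟨hj, -, -, -, hH, -, hc, -, -⟩ := hJB
  induction T using Polynomial.induction_on' with
  | add p q hp hq =>
    have : (fun τ => ej (p + q) τ (e τ)) = fun τ => ej p τ (e τ) + ej q τ (e τ) := by
      funext τ
      simp [ej, Polynomial.evalEval]
    rw [this]
    exact (hH _ _ hp hq).1
  | monomial n a =>
    have : (fun τ => ej (Polynomial.monomial n a) τ (e τ)) =
        fun τ => a.eval (jf τ) * e τ ^ n := by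
      funext τ
      simp [ej, Polynomial.evalEval, Polynomial.eval_monomial]
    rw [this]
    refine (hH _ _ (hol_sub_poly hJB' a) ?_).2
    clear this
    induction n with
    | zero => simpa using (hc 1).1
    | succ n ih =>
      simp only [pow_succ]
      exact (hH _ _ ih he).2

end WQ

open _root_.Pool.Agent.MU3Q.WQ in
theorem t_WQ (hLA : St_LA) (hJB : St_JB) (hQA : St_QA) (hINT : St_INT) (hPOLE : St_POLE)
    (hEV : St_EV) (hMR : St_MR) (hODE : St_ODE) (hODEK : St_ODEK) (hEXP : St_EXP) : St_WQ := by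
  classical
  intro K V N L c0 a2 a4 a6 Z z hN hζ ha2 ha4 ha6 hcurve hzK hz0 hz1 hZ hC hΓ
  have : NeZero N := ⟨hN.ne'⟩
  obtain ⟨S, hS0, hS1, hS2, hSode, Y1, hS⟩ := hODE L c0 a2 a4 a6 hcurve Z z hZ hz0 hz1
  have hSK := hODEK K a2 a4 a6 z S ha2 ha4 ha6 hzK hz0 hz1 hS0 hS1 hS2 hSode
  refine ⟨S, hSK, hS0, hS1, hS2, hSode, ?_⟩
  set X : ℍ → ℂ := fun τ => (L.weierstrassP (Z τ) + c0)⁻¹ with hXdef
  -- invariance
  have hXinv : ∀ γ ∈ CongruenceSubgroup.Gamma1 N, ∀ τ : ℍ, X (γ • τ) = X τ := by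
    intro γ hγ τ
    have h1 := hΓ γ hγ τ
    have h2 : Z (γ • τ) = Z τ + ((⟨_, h1⟩ : L.lattice) : ℂ) :=
      (add_sub_cancel (Z τ) (Z (γ • τ))).symm
    change (L.weierstrassP (Z (γ • τ)) + c0)⁻¹ = (L.weierstrassP (Z τ) + c0)⁻¹
    rw [h2, L.weierstrassP_add_coe]
  have hXeq : ∀ γ γ' : SL(2, ℤ), vm (v01 N) γ = vm (v01 N) γ' → ∀ τ, X (γ • τ) = X (γ' • τ) := by
    intro γ γ' h τ
    have h1 : vm (v01 N) (γ * γ'⁻¹) = v01 N := by
      rw [← vm_mul, h, vm_mul, mul_inv_cancel, vm_one]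
    have h2 := hXinv _ (mem_Gamma1 h1) (γ' • τ)
    rw [← h2, ← mul_smul, inv_mul_cancel_right]
  have hXneg : ∀ γ γ' : SL(2, ℤ), vm (v01 N) γ = -vm (v01 N) γ' →
      ∀ τ, X (γ • τ) = X (γ' • τ) := by
    intro γ γ' h τ
    have h1 : vm (v01 N) γ = vm (v01 N) (-γ') := by rw [vm_neg, h]
    rw [hXeq _ _ h1, ModularGroup.SL_neg_smul]
  -- the family
  let ι : Type := {v : Fin 2 → ZMod N // ∃ γ : SL(2, ℤ), v = vm (v01 N) γ}
  have : Fintype ι := Fintype.ofFinite ι
  let g : ι → SL(2, ℤ) := fun v => v.2.choose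
  have hg : ∀ v : ι, v.1 = vm (v01 N) (g v) := fun v => v.2.choose_spec
  let mv : SL(2, ℤ) → ι → ι := fun γ v => ⟨vm v.1 γ, g v * γ, by rw [← vm_mul, ← hg]⟩
  have hmv : ∀ (γ : SL(2, ℤ)) (v : ι), (mv γ v).1 = vm v.1 γ := fun γ v => rfl
  let pm : SL(2, ℤ) → Equiv.Perm ι := fun γ =>
    { toFun := mv γ
      invFun := mv γ⁻¹
      left_inv := fun v => Subtype.ext (by rw [hmv, hmv, vm_mul, mul_inv_cancel, vm_one])
      right_inv := fun v => Subtype.ext (by rw [hmv, hmv, vm_mul, inv_mul_cancel, vm_one]) }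
  let Xv : ι → ℍ → ℂ := fun v τ => X (g v • τ)
  have hXv : ∀ (γ : SL(2, ℤ)) (v : ι) (τ : ℍ), Xv v (γ • τ) = Xv (pm γ v) τ := by
    intro γ v τ
    change X (g v • (γ • τ)) = X (g (mv γ v) • τ)
    rw [← mul_smul]
    apply hXeq
    rw [← vm_mul, ← hg, ← hg]
  obtain ⟨D, hD0, y, hy, hyeq, Y0, hY0⟩ := hPOLE ι Xv (fun v => by
      obtain ⟨C, w, hw⟩ := hC (g v)
      exact hMR L c0 (fun τ => Z (g v • τ)) C w N hN hw)
    (fun γ v => ⟨pm γ v, hXv γ v⟩)
  obtain ⟨hev1, hev2, hev3⟩ := hEV N hN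
  let i0 : ι := ⟨v01 N, 1, (vm_one _).symm⟩
  obtain ⟨T, R, hTR, τ0, hτ0⟩ := hINT ι (fun v => ev N v.1) y
    (fun v => ⟨(hev1 _).1, (hev1 _).2, (hy v).1, (hy v).2⟩)
    (fun γ => ⟨pm γ, fun v τ => ⟨hev2 _ _ _, hyeq γ v (pm γ v) (hXv γ v) τ⟩⟩)
    (fun v v' h => by
      have h1 : ev N (vm (v01 N) (g v * (g v')⁻¹)) = ev N (v01 N) := by
        funext τ
        have h2 : ev N v.1 ((g v')⁻¹ • τ) = ev N v'.1 ((g v')⁻¹ • τ) := by
          have := congrFun h ((g v')⁻¹ • τ)
          exact this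
        rw [hev2, hev2, hg v, hg v', vm_mul, vm_mul, mul_inv_cancel, vm_one] at h2
        exact h2
      have h3 : ∀ τ, X (g v • τ) = X (g v' • τ) := by
        rcases hev3 _ h1 with h | h
        · apply hXeq
          have := congrArg (fun u => vm u (g v')) h
          simpa only [vm_mul, inv_mul_cancel_right] using this
        · apply hXneg
          have := congrArg (fun u => vm u (g v')) h
          simpa only [vm_mul, inv_mul_cancel_right, neg_vm] using this
      funext τ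
      have h4 := hyeq 1 v v' (fun τ => by
        rw [one_smul]
        exact h3 τ) τ
      rwa [one_smul] at h4) i0
  have hX0 : ∀ τ, Xv i0 τ = X τ := by
    intro τ
    have := hXeq (g i0) 1 (by rw [← hg, vm_one]) τ
    rwa [one_smul] at this
  obtain ⟨M1, hM1⟩ := hEXP N K V hN hζ (Polynomial.C D * T)
  obtain ⟨M2, hM2⟩ := hEXP N K V hN hζ R
  obtain ⟨uA, huA, hA⟩ := hM1 (max M1 M2) (le_max_left _ _)
  obtain ⟨uB, huB, hB⟩ := hM2 (max M1 M2) (le_max_right _ _)
  set M := max M1 M2 with hM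
  have hrel : uA * S = uB := by
    refine hQA.2.2.2.2 (fun τ => ModularForm.discriminant τ ^ M * ej R τ (ev N (v01 N) τ)) _ _
      (max Y0 Y1) (fun τ hτ => ?_) (fun τ _ => hB τ)
    have h1 := hasSum_mul (hA τ) (hS τ (lt_of_le_of_lt (le_max_right _ _) hτ))
    have h2 : ModularForm.discriminant τ ^ M *
        ej (Polynomial.C D * T) τ (ev N (v01 N) τ) * (L.weierstrassP (Z τ) + c0)⁻¹ =
        ModularForm.discriminant τ ^ M * ej R τ (ev N (v01 N) τ) := by
      have h3 := hTR τ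
      rw [hY0 i0 τ (lt_of_le_of_lt (le_max_left _ _) hτ), hX0] at h3
      have h4 : ej R τ (ev N (v01 N) τ) =
          D.eval (jf τ) * X τ * ej T τ (ev N (v01 N) τ) := h3.symm
      rw [h4, ej_C_mul]
      ring
    rw [← h2]
    exact h1
  have hne : uA ≠ 0 := by
    intro h0
    have h1 : ∀ τ, ej (Polynomial.C D * T) τ (ev N (v01 N) τ) = 0 := by
      intro τ
      have h2 := hA τ
      rw [h0] at h2
      simp only [map_zero, zero_mul] at h2
      have h3 := h2.unique hasSum_zero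
      exact (mul_eq_zero.1 h3).resolve_left (pow_ne_zero _ (ModularForm.discriminant_ne_zero τ))
    obtain ⟨Y2, hY2⟩ := hJB.2.2.2.1 D hD0
    have h4 : ∀ τ : ℍ, Y2 < τ.im → ej T τ (ev N (v01 N) τ) = 0 := by
      intro τ hτ
      have h5 := h1 τ
      rw [ej_C_mul] at h5
      exact (mul_eq_zero.1 h5).resolve_left (hY2 τ hτ)
    exact hτ0 (hJB.2.2.2.2.2.2.2.2 (fun τ => ej T τ (ev N (v01 N) τ)) Y2
      (hol_ej hJB T (hev1 _).1) h4 τ0)
  exact hLA K V S uA uB hSK huA huB hne hrel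

end Pool.Agent.MU3Q


end

section

/-!
# MU3, block WQ: module EXP (helper50)
-/

set_option autoImplicit false

namespace Pool.Agent.MU3Q

open UpperHalfPlane ModularForm EisensteinSeries
open scoped MatrixGroups

noncomputable section

namespace EXP50

/-- `F` has a `q`-series in `RS K V`. -/
def PR (K : Subfield ℂ) (V : ValuationSubring ℂ) (F : ℍ → ℂ) : Prop :=
  ∃ u ∈ RS K V, QS F u

/-- `Δ ^ M F` has a `q`-series in `RS K V` for all large `M`. -/
def QR (K : Subfield ℂ) (V : ValuationSubring ℂ) (F : ℍ → ℂ) : Prop :=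
  ∃ M₀ : ℕ, ∀ M : ℕ, M₀ ≤ M → PR K V (fun τ => ModularForm.discriminant τ ^ M * F τ)

section

variable {K : Subfield ℂ} {V : ValuationSubring ℂ}

theorem PR.congr {F G : ℍ → ℂ} (h : PR K V F) (hFG : ∀ τ, F τ = G τ) : PR K V G := by
  have e : F = G := funext hFG
  rwa [← e]

theorem PR.mul (hRM : St_RM) (hQA : St_QA) {F G : ℍ → ℂ} (hF : PR K V F) (hG : PR K V G) :
    PR K V (fun τ => F τ * G τ) := by
  obtain ⟨u, hu, hFu⟩ := hF
  obtain ⟨v, hv, hGv⟩ := hG
  exact ⟨u * v, (hRM K V).2 u hu v hv, hQA.1 F G u v hFu hGv⟩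

theorem PR.add (hQA : St_QA) {F G : ℍ → ℂ} (hF : PR K V F) (hG : PR K V G) :
    PR K V (fun τ => F τ + G τ) := by
  obtain ⟨u, hu, hFu⟩ := hF
  obtain ⟨v, hv, hGv⟩ := hG
  exact ⟨u + v, (RS K V).add_mem hu hv, hQA.2.1 F G u v hFu hGv⟩

theorem PR.smul (hQA : St_QA) {F : ℍ → ℂ} (hF : PR K V F) (c : ℂ) :
    PR K V (fun τ => c * F τ) := by
  obtain ⟨u, hu, hFu⟩ := hF
  exact ⟨c • u, (RS K V).smul_mem c hu, hQA.2.2.1 F u c hFu⟩

theorem PR.one (hRM : St_RM) (hQA : St_QA) : PR K V (fun _ => 1) :=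
  ⟨1, (hRM K V).1, hQA.2.2.2.1⟩

theorem PR.pow (hRM : St_RM) (hQA : St_QA) {F : ℍ → ℂ} (hF : PR K V F) (n : ℕ) :
    PR K V (fun τ => F τ ^ n) := by
  induction n with
  | zero => exact (PR.one hRM hQA).congr fun τ => (pow_zero _).symm
  | succ n ih => exact (ih.mul hRM hQA hF).congr fun τ => (pow_succ _ _).symm

theorem QR.add (hQA : St_QA) {F G : ℍ → ℂ} (hF : QR K V F) (hG : QR K V G) :
    QR K V (fun τ => F τ + G τ) := by
  obtain ⟨M₀, h1⟩ := hF
  obtain ⟨M₁, h2⟩ := hG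
  refine ⟨max M₀ M₁, fun M hM => ?_⟩
  refine ((h1 M ((le_max_left _ _).trans hM)).add hQA
    (h2 M ((le_max_right _ _).trans hM))).congr fun τ => ?_
  ring

theorem QR.mul (hRM : St_RM) (hQA : St_QA) {F G : ℍ → ℂ} (hF : QR K V F) (hG : QR K V G) :
    QR K V (fun τ => F τ * G τ) := by
  obtain ⟨M₀, h1⟩ := hF
  obtain ⟨M₁, h2⟩ := hG
  refine ⟨M₀ + M₁, fun M hM => ?_⟩
  obtain ⟨N, rfl⟩ := Nat.exists_eq_add_of_le hM
  refine ((h1 M₀ le_rfl).mul hRM hQA (h2 (M₁ + N) (Nat.le_add_right _ _))).congr fun τ => ?_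
  ring

end

end EXP50

open _root_.Pool.Agent.MU3Q.EXP50 in
theorem t_EXP (hRM : St_RM) (hQA : St_QA) (hQE : St_QE) (hE4 : St_E4) : St_EXP := by
  intro N K V hN hζ T
  obtain ⟨u4, uD, hPP, hu4, huD⟩ := hQE
  obtain ⟨κ, c, b, hb, hG⟩ := hE4 N hN
  have p4 : PR K V (fun τ => E₄ τ) := ⟨u4, Submodule.subset_span (hPP K V).1, hu4⟩
  have pD : PR K V (fun τ => ModularForm.discriminant τ) := by
    have h1 : PR K V (fun τ => 1728 * ModularForm.discriminant τ) :=
      ⟨uD, Submodule.subset_span (hPP K V).2, huD⟩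
    refine (h1.smul hQA (1 / 1728)).congr fun τ => ?_
    ring
  have pG : PR K V (Gv N (v01 N)) := by
    refine ⟨_, ?_, hG⟩
    apply (RS K V).add_mem
    · have e : (PowerSeries.C κ : PowerSeries ℂ) = κ • 1 := by
        rw [PowerSeries.smul_eq_C_mul, mul_one]
      rw [e]
      exact (RS K V).smul_mem κ (hRM K V).1
    · exact (RS K V).smul_mem c (Submodule.subset_span (hb K V hζ))
  have pDM : ∀ M : ℕ, PR K V (fun τ => ModularForm.discriminant τ ^ M) :=
    fun M => pD.pow hRM hQA M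
  have qc : ∀ x : ℂ, QR K V (fun _ => x) := by
    intro x
    refine ⟨0, fun M _ => ((pDM M).smul hQA x).congr fun τ => ?_⟩
    ring
  have qj : QR K V (fun τ => jf τ) := by
    refine ⟨1, fun M hM => ?_⟩
    obtain ⟨m, rfl⟩ := Nat.exists_eq_add_of_le hM
    refine ((pDM m).mul hRM hQA (p4.pow hRM hQA 3)).congr fun τ => ?_
    have hD := ModularForm.discriminant_ne_zero τ
    simp only [jf, pow_add, pow_one]
    field_simp
  have qe : QR K V (fun τ => ev N (v01 N) τ) := by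
    refine ⟨1, fun M hM => ?_⟩
    obtain ⟨m, rfl⟩ := Nat.exists_eq_add_of_le hM
    refine ((pDM m).mul hRM hQA (pG.mul hRM hQA (p4.pow hRM hQA 2))).congr fun τ => ?_
    have hD := ModularForm.discriminant_ne_zero τ
    simp only [ev, pow_add, pow_one]
    field_simp
  have qpow : ∀ (F : ℍ → ℂ), QR K V F → ∀ n : ℕ, QR K V (fun τ => F τ ^ n) := by
    intro F hF n
    induction n with
    | zero =>
      have h := qc 1
      have e : (fun τ : ℍ => F τ ^ 0) = fun _ => 1 := by funext τ; exact pow_zero _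
      rw [e]
      exact h
    | succ n ih =>
      have h := QR.mul hRM hQA ih hF
      have e : (fun τ : ℍ => F τ ^ (n + 1)) = fun τ => F τ ^ n * F τ := by
        funext τ; exact pow_succ _ _
      rw [e]
      exact h
  have qp : ∀ p : Polynomial ℂ, QR K V (fun τ => p.eval (jf τ)) := by
    intro p
    induction p using Polynomial.induction_on' with
    | add p q hp hq =>
      have h := QR.add hQA hp hq
      have e : (fun τ : ℍ => (p + q).eval (jf τ)) = fun τ => p.eval (jf τ) + q.eval (jf τ) := by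
        funext τ; exact Polynomial.eval_add
      rw [e]
      exact h
    | monomial n a =>
      have h := QR.mul hRM hQA (qc a) (qpow _ qj n)
      have e : (fun τ : ℍ => (Polynomial.monomial n a).eval (jf τ)) = fun τ => a * jf τ ^ n := by
        funext τ; exact Polynomial.eval_monomial
      rw [e]
      exact h
  have qT : QR K V (fun τ => ej T τ (ev N (v01 N) τ)) := by
    induction T using Polynomial.induction_on' with
    | add p q hp hq =>
      have h := QR.add hQA hp hq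
      have e : (fun τ : ℍ => ej (p + q) τ (ev N (v01 N) τ)) =
          fun τ => ej p τ (ev N (v01 N) τ) + ej q τ (ev N (v01 N) τ) := by
        funext τ; exact Polynomial.evalEval_add _ _ _ _
      rw [e]
      exact h
    | monomial n a =>
      have h := QR.mul hRM hQA (qp a) (qpow _ qe n)
      have e : (fun τ : ℍ => ej (Polynomial.monomial n a) τ (ev N (v01 N) τ)) =
          fun τ => a.eval (jf τ) * ev N (v01 N) τ ^ n := by
        funext τ
        rw [ej, ← Polynomial.C_mul_X_pow_eq_monomial, Polynomial.evalEval_mul,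
          Polynomial.evalEval_C, Polynomial.evalEval_pow, Polynomial.evalEval_X]
      rw [e]
      exact h
  exact qT

end

end Pool.Agent.MU3Q


end

section

/-!
# Module MU3Q_ODE: the power series of `1 / x(Z)` and its differential equation
-/

set_option autoImplicit false

namespace Pool.Agent.MU3Q

open UpperHalfPlane ModularForm EisensteinSeries
open scoped MatrixGroups Topology

noncomputable section

namespace ODE

open Filter

/-- `S` is the Taylor series of `f` at `0` -/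
def Ser (f : ℂ → ℂ) (S : PowerSeries ℂ) : Prop :=
  ∀ᶠ q in 𝓝 (0 : ℂ), HasSum (fun n : ℕ => PowerSeries.coeff n S * q ^ n) (f q)

theorem ser_iff {f : ℂ → ℂ} {S : PowerSeries ℂ} : Ser f S ↔
    HasFPowerSeriesAt f (FormalMultilinearSeries.ofScalars ℂ (fun n => PowerSeries.coeff n S)) 0 := by
  rw [hasFPowerSeriesAt_iff]
  unfold Ser
  simp only [zero_add, FormalMultilinearSeries.coeff_ofScalars, smul_eq_mul, mul_comm]

theorem Ser.analyticAt {f : ℂ → ℂ} {S : PowerSeries ℂ} (h : Ser f S) : AnalyticAt ℂ f 0 :=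
  ⟨_, ser_iff.1 h⟩

theorem Ser.unique {f : ℂ → ℂ} {S T : PowerSeries ℂ} (h : Ser f S) (h' : Ser f T) : S = T := by
  have h1 := HasFPowerSeriesAt.eq_formalMultilinearSeries (ser_iff.1 h) (ser_iff.1 h')
  ext n
  have h2 := congrArg (fun p => FormalMultilinearSeries.coeff p n) h1
  simpa [FormalMultilinearSeries.coeff_ofScalars] using h2

theorem Ser.congr {f g : ℂ → ℂ} {S : PowerSeries ℂ} (h : Ser f S) (hfg : ∀ᶠ q in 𝓝 0, f q = g q) :
    Ser g S := by
  unfold Ser at *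
  filter_upwards [h, hfg] with q h1 h2
  rwa [← h2]

theorem Ser.zero_eq {f : ℂ → ℂ} {S : PowerSeries ℂ} (h : Ser f S) : f 0 = PowerSeries.coeff 0 S := by
  have h1 := h.self_of_nhds
  have h2 : HasSum (fun n : ℕ => PowerSeries.coeff n S * (0 : ℂ) ^ n) (PowerSeries.coeff 0 S) := by
    have := hasSum_single (f := fun n : ℕ => PowerSeries.coeff n S * (0 : ℂ) ^ n) 0
      (fun n hn => by simp [hn])
    simpa using this
  exact h1.unique h2

theorem Ser.add {f g : ℂ → ℂ} {S T : PowerSeries ℂ} (hf : Ser f S) (hg : Ser g T) :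
    Ser (fun q => f q + g q) (S + T) := by
  unfold Ser at *
  filter_upwards [hf, hg] with q h1 h2
  have := h1.add h2
  simpa only [map_add, add_mul] using this

theorem Ser.mul {f g : ℂ → ℂ} {S T : PowerSeries ℂ} (hf : Ser f S) (hg : Ser g T) :
    Ser (fun q => f q * g q) (S * T) := by
  unfold Ser at *
  filter_upwards [hf, hg] with q h1 h2
  have n1 := h1.summable.norm
  have n2 := h2.summable.norm
  have h3 := (summable_norm_sum_mul_antidiagonal_of_summable_norm n1 n2).of_norm.hasSum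
  rw [← tsum_mul_tsum_eq_tsum_sum_antidiagonal_of_summable_norm n1 n2, h1.tsum_eq,
    h2.tsum_eq] at h3
  have e : (fun n : ℕ => PowerSeries.coeff n (S * T) * q ^ n) = fun n : ℕ =>
      ∑ kl ∈ Finset.HasAntidiagonal.antidiagonal n, PowerSeries.coeff kl.1 S * q ^ kl.1 *
        (PowerSeries.coeff kl.2 T * q ^ kl.2) := by
    funext n
    rw [PowerSeries.coeff_mul, Finset.sum_mul]
    refine Finset.sum_congr rfl fun p hp => ?_
    have : p.1 + p.2 = n := Finset.HasAntidiagonal.mem_antidiagonal.1 hp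
    rw [← this, pow_add]
    ring
  rw [e]
  exact h3

theorem Ser.const (c : ℂ) : Ser (fun _ => c) (PowerSeries.C c) := by
  unfold Ser
  refine Eventually.of_forall fun q => ?_
  have := hasSum_single (f := fun n : ℕ => PowerSeries.coeff n (PowerSeries.C c) * q ^ n) 0
    (fun n hn => by simp [PowerSeries.coeff_C, hn])
  simpa using this

theorem Ser.id : Ser (fun q => q) PowerSeries.X := by
  unfold Ser
  refine Eventually.of_forall fun q => ?_
  have := hasSum_single (f := fun n : ℕ => PowerSeries.coeff n (PowerSeries.X : PowerSeries ℂ) *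
    q ^ n) 1 (fun n hn => by simp [PowerSeries.coeff_X, hn])
  simpa using this

theorem Ser.smul {f : ℂ → ℂ} {S : PowerSeries ℂ} (c : ℂ) (hf : Ser f S) :
    Ser (fun q => c * f q) (c • S) := by
  have := (Ser.const c).mul hf
  rwa [← PowerSeries.smul_eq_C_mul] at this

theorem ex_ser {f : ℂ → ℂ} (h : AnalyticAt ℂ f 0) : Ser f (PowerSeries.mk fun n =>
    iteratedDeriv n f 0 / n.factorial) := by
  rw [ser_iff]
  simpa only [PowerSeries.coeff_mk] using h.hasFPowerSeriesAt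

theorem Ser.deriv {f : ℂ → ℂ} {S : PowerSeries ℂ} (hf : Ser f S) :
    Ser (deriv f) (PowerSeries.mk fun n => ((n : ℂ) + 1) * PowerSeries.coeff (n + 1) S) := by
  have h1 := ex_ser hf.analyticAt
  have h2 := ex_ser hf.analyticAt.deriv
  have h3 := hf.unique h1
  convert h2 using 2
  funext n
  rw [h3, PowerSeries.coeff_mk, iteratedDeriv_succ', Nat.factorial_succ]
  have : ((n : ℂ) + 1) ≠ 0 := by exact_mod_cast Nat.succ_ne_zero n
  have h5 : ((n.factorial : ℕ) : ℂ) ≠ 0 := by exact_mod_cast Nat.factorial_ne_zero n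
  push_cast
  field_simp

theorem Ser.theta {f : ℂ → ℂ} {S : PowerSeries ℂ} (hf : Ser f S) :
    Ser (fun q => q * _root_.deriv f q) (thetaD S) := by
  have h := Ser.id.mul hf.deriv
  convert h using 1
  ext n
  unfold thetaD
  rw [PowerSeries.coeff_mk]
  cases n with
  | zero => simp
  | succ n =>
    rw [PowerSeries.coeff_succ_X_mul, PowerSeries.coeff_mk]
    push_cast
    ring

/-! ### The function `s` -/

/-- `u² / (1 + u² (h(u) + c0))` -/
def sf (L : PeriodPair) (c0 : ℂ) (u : ℂ) : ℂ :=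
  u ^ 2 / (1 + u ^ 2 * (L.weierstrassPExcept 0 u + c0))

theorem sf_analytic (L : PeriodPair) (c0 : ℂ) : AnalyticAt ℂ (sf L c0) 0 := by
  unfold sf
  have h := L.analyticAt_weierstrassPExcept 0
  refine AnalyticAt.div (by fun_prop) ?_ (by simp)
  exact analyticAt_const.add ((analyticAt_id.pow 2).mul (h.add analyticAt_const))

theorem wp_eq (L : PeriodPair) (u : ℂ) :
    L.weierstrassP u = L.weierstrassPExcept 0 u + 1 / u ^ 2 := by
  have h := L.weierstrassPExcept_def ⟨0, L.lattice.zero_mem⟩ u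
  simp only [sub_zero] at h
  rw [h]
  ring

theorem sf_eq (L : PeriodPair) (c0 u : ℂ) (hu : u ≠ 0) :
    sf L c0 u = (L.weierstrassP u + c0)⁻¹ := by
  unfold sf
  rw [wp_eq L u]
  have : L.weierstrassPExcept 0 u + 1 / u ^ 2 + c0 =
      (1 + u ^ 2 * (L.weierstrassPExcept 0 u + c0)) / u ^ 2 := by
    field_simp
    ring
  rw [this, inv_div]

/-- the differential equation of `s` -/
theorem sf_ode (L : PeriodPair) (c0 a2 a4 a6 : ℂ)
    (hrel : ∀ u : ℂ, u ∉ L.lattice → L.derivWeierstrassP u ^ 2 / 4 =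
      (L.weierstrassP u + c0) ^ 3 + a2 * (L.weierstrassP u + c0) ^ 2 +
        a4 * (L.weierstrassP u + c0) + a6) :
    ∀ᶠ u in 𝓝 (0 : ℂ), deriv (sf L c0) u ^ 2 =
      4 * sf L c0 u * (1 + a2 * sf L c0 u + a4 * sf L c0 u ^ 2 + a6 * sf L c0 u ^ 3) := by
  have hs := sf_analytic L c0
  have hA : AnalyticAt ℂ (fun u => deriv (sf L c0) u ^ 2) 0 := hs.deriv.pow 2
  have hB : AnalyticAt ℂ (fun u => 4 * sf L c0 u * (1 + a2 * sf L c0 u + a4 * sf L c0 u ^ 2 +
      a6 * sf L c0 u ^ 3)) 0 := by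
    fun_prop
  refine (hA.frequently_eq_iff_eventually_eq hB).1 (Eventually.frequently ?_)
  -- the denominator does not vanish
  have hden : ∀ᶠ u in 𝓝 (0 : ℂ), 1 + u ^ 2 * (L.weierstrassPExcept 0 u + c0) ≠ 0 := by
    have hc : ContinuousAt (fun u => 1 + u ^ 2 * (L.weierstrassPExcept 0 u + c0)) 0 := by
      have h := (L.analyticAt_weierstrassPExcept 0).continuousAt
      exact continuousAt_const.add ((continuousAt_id.pow 2).mul (h.add continuousAt_const))
    exact hc.eventually_ne (by simp)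
  have hlat : ∀ᶠ u in 𝓝[≠] (0 : ℂ), u ∉ L.lattice := by
    have h1 := L.compl_lattice_sdiff_singleton_mem_nhds 0
    filter_upwards [nhdsWithin_le_nhds h1, self_mem_nhdsWithin] with u hu hu0 hul
    exact hu ⟨hul, hu0⟩
  filter_upwards [nhdsWithin_le_nhds hden, hlat, self_mem_nhdsWithin] with u h1 h2 h3
  have hu0 : u ≠ 0 := h3
  have hx : L.weierstrassP u + c0 ≠ 0 := by
    have h4 := sf_eq L c0 u hu0
    intro h5
    rw [h5, inv_zero] at h4
    unfold sf at h4
    rw [div_eq_zero_iff] at h4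
    rcases h4 with h4 | h4
    · exact hu0 (pow_eq_zero_iff (two_ne_zero) |>.1 h4)
    · exact h1 h4
  have hev : sf L c0 =ᶠ[𝓝 u] fun v => (L.weierstrassP v + c0)⁻¹ := by
    filter_upwards [isOpen_ne.mem_nhds hu0] with v hv
    exact sf_eq L c0 v hv
  have hdw : HasDerivAt L.weierstrassP (L.derivWeierstrassP u) u := by
    have h5 : DifferentiableAt ℂ L.weierstrassP u :=
      (L.analyticOnNhd_weierstrassP u h2).differentiableAt
    have h6 := h5.hasDerivAt
    rwa [L.deriv_weierstrassP] at h6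
  have hd : deriv (sf L c0) u = -L.derivWeierstrassP u / (L.weierstrassP u + c0) ^ 2 := by
    rw [hev.deriv_eq]
    exact ((hdw.add_const c0).inv hx).deriv
  have hr := hrel u h2
  rw [hd, sf_eq L c0 u hu0]
  have hr' : L.derivWeierstrassP u ^ 2 = 4 * ((L.weierstrassP u + c0) ^ 3 +
      a2 * (L.weierstrassP u + c0) ^ 2 + a4 * (L.weierstrassP u + c0) + a6) := by
    linear_combination 4 * hr
  rw [div_pow, neg_sq, hr']
  field_simp

end ODE

open _root_.Pool.Agent.MU3Q.ODE Filter in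
theorem t_ODE : St_ODE := by
  intro L c0 a2 a4 a6 hrel Z z hZ hz0 hz1
  -- the function `φ`
  set φ : ℂ → ℂ := fun q => ∑' n : ℕ, PowerSeries.coeff n z * q ^ n with hφdef
  have hφZ : ∀ τ : ℍ, φ (qq τ) = Z τ := fun τ => (hZ τ).tsum_eq
  have hφ : Ser φ z := by
    have h1 := (hZ UpperHalfPlane.I).summable
    set q0 : ℝ := ‖qq UpperHalfPlane.I‖ with hq0
    have hq0pos : 0 < q0 := norm_pos_iff.2 (Complex.exp_ne_zero _)
    obtain ⟨C, hC⟩ : ∃ C : ℝ, ∀ n : ℕ, ‖PowerSeries.coeff n z * qq UpperHalfPlane.I ^ n‖ ≤ C := by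
      obtain ⟨C, hC⟩ := (h1.tendsto_atTop_zero.norm).bddAbove_range
      exact ⟨C, fun n => hC ⟨n, rfl⟩⟩
    unfold Ser
    filter_upwards [Metric.ball_mem_nhds (0 : ℂ) hq0pos] with q hq
    rw [Metric.mem_ball, dist_zero_right] at hq
    have hr : ‖q‖ / q0 < 1 := (div_lt_one hq0pos).2 hq
    have h2 : Summable (fun n : ℕ => PowerSeries.coeff n z * q ^ n) := by
      refine Summable.of_norm_bounded (g := fun n : ℕ => C * (‖q‖ / q0) ^ n)
        ((summable_geometric_of_lt_one (by positivity) hr).mul_left C) (fun n => ?_)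
      have h3 := hC n
      rw [norm_mul, norm_pow, ← hq0] at h3
      rw [norm_mul, norm_pow, div_pow]
      calc ‖PowerSeries.coeff n z‖ * ‖q‖ ^ n
          = (‖PowerSeries.coeff n z‖ * q0 ^ n) * (‖q‖ ^ n / q0 ^ n) := by
            field_simp
        _ ≤ C * (‖q‖ ^ n / q0 ^ n) := mul_le_mul_of_nonneg_right h3 (by positivity)
    exact h2.hasSum
  have hφ0 : φ 0 = 0 := by rw [hφ.zero_eq, hz0]
  have hs := sf_analytic L c0
  have hs' : AnalyticAt ℂ (sf L c0) (φ 0) := by rwa [hφ0]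
  -- the composition
  set F : ℂ → ℂ := fun q => sf L c0 (φ q) with hFdef
  have hFan : AnalyticAt ℂ F 0 := hs'.comp hφ.analyticAt
  have hF := ex_ser hFan
  set S : PowerSeries ℂ := PowerSeries.mk fun n => iteratedDeriv n F 0 / n.factorial with hSdef
  -- the low coefficients
  obtain ⟨z', hz'⟩ : (PowerSeries.X : PowerSeries ℂ) ∣ z := by
    rw [PowerSeries.X_dvd_iff, ← PowerSeries.coeff_zero_eq_constantCoeff_apply, hz0]
  have hz'1 : PowerSeries.coeff 0 z' = PowerSeries.coeff 1 z := by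
    rw [hz']
    have := PowerSeries.coeff_succ_X_mul 0 z'
    rw [← this]
  have hk : AnalyticAt ℂ (fun q => 1 / (1 + φ q ^ 2 * (L.weierstrassPExcept 0 (φ q) + c0))) 0 := by
    have h1 : AnalyticAt ℂ (L.weierstrassPExcept 0) (φ 0) := by
      rw [hφ0]
      exact L.analyticAt_weierstrassPExcept 0
    have h2 := h1.comp hφ.analyticAt
    refine AnalyticAt.div analyticAt_const ?_ (by simp [hφ0])
    exact analyticAt_const.add ((hφ.analyticAt.pow 2).mul (h2.add analyticAt_const))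
  have hK := ex_ser hk
  set K : PowerSeries ℂ := PowerSeries.mk fun n => iteratedDeriv n
    (fun q => 1 / (1 + φ q ^ 2 * (L.weierstrassPExcept 0 (φ q) + c0))) 0 / n.factorial with hKdef
  have hK0 : PowerSeries.coeff 0 K = 1 := by
    rw [← hK.zero_eq, hφ0]
    simp
  have hSK : S = PowerSeries.X ^ 2 * (z' ^ 2 * K) := by
    have h1 := (hφ.mul hφ).mul hK
    have h2 : Ser F (z * z * K) := by
      refine h1.congr (Eventually.of_forall fun q => ?_)
      simp only [hFdef, sf]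
      ring
    rw [hF.unique h2, hz']
    ring
  refine ⟨S, ?_, ?_, ?_, ?_, ?_⟩
  · rw [hSK, PowerSeries.coeff_X_pow_mul']
    simp
  · rw [hSK, PowerSeries.coeff_X_pow_mul']
    simp
  · rw [hSK, PowerSeries.coeff_X_pow_mul']
    have : (2 : ℕ) ≤ 2 := le_rfl
    rw [if_pos this, Nat.sub_self, PowerSeries.coeff_zero_eq_constantCoeff_apply, map_mul, map_pow,
      ← PowerSeries.coeff_zero_eq_constantCoeff_apply, ← PowerSeries.coeff_zero_eq_constantCoeff_apply,
      hK0, hz'1, mul_one]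
  · -- the differential equation
    have hode := sf_ode L c0 a2 a4 a6 hrel
    have htend : Tendsto φ (𝓝 0) (𝓝 0) := by
      have := hφ.analyticAt.continuousAt.tendsto
      rwa [hφ0] at this
    have e1 := htend.eventually hode
    have e2 := htend.eventually hs.eventually_analyticAt
    have e3 := hφ.analyticAt.eventually_analyticAt
    have hL : Ser (fun q => (q * deriv F q) * (q * deriv F q)) (thetaD S * thetaD S) :=
      hF.theta.mul hF.theta
    have hR : Ser (fun q => (4 * F q) * (1 + a2 * F q + a4 * (F q * F q) +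
        a6 * (F q * F q * F q)) * ((q * deriv φ q) * (q * deriv φ q)))
        ((PowerSeries.C 4 * S) * (PowerSeries.C 1 + a2 • S + a4 • (S * S) + a6 • (S * S * S)) *
          (thetaD z * thetaD z)) := by
      exact (((Ser.const 4).mul hF).mul (((((Ser.const 1).add (hF.smul a2)).add
        ((hF.mul hF).smul a4))).add (((hF.mul hF).mul hF).smul a6))).mul (hφ.theta.mul hφ.theta)
    have hL' : Ser (fun q => (4 * F q) * (1 + a2 * F q + a4 * (F q * F q) +
        a6 * (F q * F q * F q)) * ((q * deriv φ q) * (q * deriv φ q))) (thetaD S * thetaD S) := by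
      refine hL.congr ?_
      filter_upwards [e1, e2, e3] with q h1 h2 h3
      have h4 : deriv F q = deriv (sf L c0) (φ q) * deriv φ q := by
        have := deriv_comp q h2.differentiableAt h3.differentiableAt
        exact this
      rw [h4]
      have h5 : F q = sf L c0 (φ q) := rfl
      rw [h5]
      linear_combination (q * deriv φ q) ^ 2 * h1
    have h6 := hL'.unique hR
    have h7 : (PowerSeries.C (4 : ℂ)) = (4 : PowerSeries ℂ) := map_ofNat _ 4
    have h8 : (PowerSeries.C (1 : ℂ)) = (1 : PowerSeries ℂ) := map_one _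
    rw [h7, h8] at h6
    rw [sq, h6, sq, sq, pow_succ S 2, sq]
  · -- the values
    have hne : ∀ᶠ q in 𝓝[≠] (0 : ℂ), φ q ≠ 0 := by
      rcases hφ.analyticAt.eventually_eq_zero_or_eventually_ne_zero with h | h
      · exfalso
        have h1 : Ser φ (PowerSeries.C 0) :=
          (Ser.const 0).congr (h.mono fun q hq => hq.symm)
        have h2 := hφ.unique h1
        apply hz1
        rw [h2]
        simp
      · exact h
    have hev : ∀ᶠ q in 𝓝[≠] (0 : ℂ), HasSum (fun n : ℕ => PowerSeries.coeff n S * q ^ n)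
        ((L.weierstrassP (φ q) + c0)⁻¹) := by
      filter_upwards [hne, nhdsWithin_le_nhds hF] with q h1 h2
      rw [← sf_eq L c0 (φ q) h1]
      exact h2
    rw [eventually_nhdsWithin_iff, Metric.eventually_nhds_iff] at hev
    obtain ⟨ε, hε, hev⟩ := hev
    refine ⟨-(Real.log ε) / (2 * Real.pi), fun τ hτ => ?_⟩
    have hqn : ‖qq τ‖ < ε := by
      unfold qq
      rw [Complex.norm_exp]
      have h1 : (2 * (Real.pi : ℂ) * Complex.I * (τ : ℂ)).re = -(2 * Real.pi * τ.im) := by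
        simp [Complex.mul_re, Complex.mul_im]
      rw [h1]
      have hpi : 0 < 2 * Real.pi := by positivity
      rw [div_lt_iff₀ hpi] at hτ
      rw [← Real.lt_log_iff_exp_lt hε]
      linarith
    have h2 := hev (y := qq τ) (by rwa [dist_zero_right]) (Complex.exp_ne_zero _)
    rwa [hφZ τ] at h2

end

end Pool.Agent.MU3Q


end

section

/-!
# MU3, block WQ: the weight 0 functions `ev`
-/

set_option autoImplicit false

namespace Pool.Agent.MU3Q

open UpperHalfPlane ModularForm EisensteinSeries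
open scoped MatrixGroups

namespace EV

lemma E4_slash (γ : SL(2, ℤ)) (τ : ℍ) :
    E₄ (γ • τ) = (((γ 1 0 : ℤ) : ℂ) * (τ : ℂ) + ((γ 1 1 : ℤ) : ℂ)) ^ 4 * E₄ τ := by
  have h := SlashInvariantForm.slash_action_eqn' E₄
    (γ := (γ : GL (Fin 2) ℝ)) (Set.mem_range_self γ) τ
  have h2 : ((γ : GL (Fin 2) ℝ) • τ) = γ • τ := rfl
  rw [h2] at h
  rw [h]
  norm_cast

lemma D_slash (γ : SL(2, ℤ)) (τ : ℍ) :
    discriminant (γ • τ) =
      (((γ 1 0 : ℤ) : ℂ) * (τ : ℂ) + ((γ 1 1 : ℤ) : ℂ)) ^ 12 * discriminant τ := by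
  have h := SlashInvariantForm.slash_action_eqn' CuspForm.discriminant
    (γ := (γ : GL (Fin 2) ℝ)) (Set.mem_range_self γ) τ
  have h2 : ((γ : GL (Fin 2) ℝ) • τ) = γ • τ := rfl
  rw [h2] at h
  have h3 : ∀ τ : ℍ, CuspForm.discriminant τ = discriminant τ := fun τ => rfl
  rw [h3, h3] at h
  rw [h]
  norm_cast

lemma den_ne (γ : SL(2, ℤ)) (τ : ℍ) :
    (((γ 1 0 : ℤ) : ℂ) * (τ : ℂ) + ((γ 1 1 : ℤ) : ℂ)) ≠ 0 := by
  have h := UpperHalfPlane.denom_ne_zero (γ : GL (Fin 2) ℝ) τ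
  rw [ModularGroup.denom_apply] at h
  exact_mod_cast h

lemma hol_E4 : Hol (fun τ => E₄ τ) := UpperHalfPlane.mdifferentiable_iff.1 E₄.holo'

lemma hol_D : Hol (fun τ => discriminant τ) :=
  UpperHalfPlane.mdifferentiable_iff.1 CuspForm.discriminant.holo'

lemma hol_ev {N : ℕ} {v : Fin 2 → ZMod N} (h : Hol (Gv N v)) : Hol (ev N v) := by
  have h1 : DifferentiableOn ℂ (fun z => (Gv N v ∘ ofComplex) z *
      ((fun τ => E₄ τ) ∘ ofComplex) z ^ 2 / ((fun τ => discriminant τ) ∘ ofComplex) z)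
      {z : ℂ | 0 < z.im} :=
    (h.mul (hol_E4.pow 2)).div hol_D (fun z _ => discriminant_ne_zero _)
  exact h1

lemma bdd_ev {N : ℕ} {v : Fin 2 → ZMod N} (h : IsBoundedAtImInfty (Gv N v)) : Grow (ev N v) := by
  refine ⟨1, ?_⟩
  have h4 : IsBoundedAtImInfty (fun τ => E₄ τ) := ModularFormClass.bdd_at_infty E₄
  have h5 : (fun τ : ℍ => discriminant τ ^ 1 * ev N v τ) =
      (Gv N v) * ((fun τ => E₄ τ) * (fun τ => E₄ τ)) := by
    funext τ
    simp only [pow_one, ev, Pi.mul_apply]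
    field_simp [discriminant_ne_zero τ]
  rw [h5]
  exact h.mul (h4.mul h4)

end EV

open _root_.Pool.Agent.MU3Q.EV in
theorem t_EV (hE1 : St_E1) (hE2 : St_E2) (hE3 : St_E3) (hJB : St_JB) : St_EV := by
  intro N hN
  have htr : ∀ v (γ : SL(2, ℤ)) (τ : ℍ), ev N v (γ • τ) = ev N (vm v γ) τ := by
    intro v γ τ
    unfold ev
    rw [hE2, E4_slash, D_slash]
    have h1 := den_ne γ τ
    have h2 := discriminant_ne_zero τ
    field_simp
  refine ⟨fun v => ⟨hol_ev (hE1 N v hN).1, bdd_ev (hE1 N v hN).2⟩, htr, fun γ h => ?_⟩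
  apply hE3 N γ hN
  have hdom := hJB.2.2.2.2.2.2.2.1
  have hadd := hJB.2.2.2.2.1
  have hc := hJB.2.2.2.2.2.2.1
  set F : ℍ → ℂ := fun τ => Gv N (vm (v01 N) γ) τ + (-1) * Gv N (v01 N) τ with hF
  have hFh : Hol F :=
    (hadd _ _ (hE1 N (vm (v01 N) γ) hN).1 (hadd _ _ (hc (-1)).1 (hE1 N (v01 N) hN).1).2).1
  have hG : Hol (fun τ => E₄ τ * E₄ τ) := (hadd _ _ hol_E4 hol_E4).2
  have hz : ∀ τ, F τ * (E₄ τ * E₄ τ) = 0 := by
    intro τ
    have h1 := congrFun h τ
    unfold ev at h1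
    have h2 := discriminant_ne_zero τ
    rw [div_left_inj' h2] at h1
    rw [hF]
    linear_combination h1
  rcases hdom F _ hFh hG hz with h1 | h1
  · funext τ
    have := h1 τ
    rw [hF] at this
    linear_combination this
  · exfalso
    have h3 : (E₄ : ModularForm 𝒮ℒ 4) = 0 := by
      ext τ
      have := h1 τ
      simpa using this
    exact E_ne_zero _ ⟨2, rfl⟩ h3

end Pool.Agent.MU3Q


end

section

/-!
# MU3, E4 (helper69): the `q`-expansion of `Gv N (0, 1)`
-/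

set_option autoImplicit false

namespace Pool.Agent.MU3Q

open UpperHalfPlane ModularForm EisensteinSeries
open scoped MatrixGroups Real

namespace E4

/-- Lambert series -/
theorem lam (ξ q : ℂ) (hξ : ‖ξ‖ = 1) (hq : ‖q‖ < 1) :
    HasSum (fun n : ℕ => (∑ r ∈ n.divisors, (r : ℂ) ^ 3 * ξ ^ r) * q ^ n)
      (∑' m : ℕ+, ∑' r : ℕ+, ((r : ℕ) : ℂ) ^ 3 * (ξ ^ (r : ℕ) * q ^ ((m : ℕ) * (r : ℕ)))) := by
  set F : ℕ+ × ℕ+ → ℂ := fun p =>
    ((p.2 : ℕ) : ℂ) ^ 3 * (ξ ^ (p.2 : ℕ) * q ^ ((p.1 : ℕ) * (p.2 : ℕ))) with hFd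
  have hF : Summable F := by
    refine Summable.of_norm_bounded (summable_prod_mul_pow 3 hq).norm ?_
    intro p
    rw [hFd]
    simp only [norm_mul, norm_pow, hξ, one_pow, one_mul]
    exact le_rfl
  have h1 : HasSum F (∑' m : ℕ+, ∑' r : ℕ+,
      ((r : ℕ) : ℂ) ^ 3 * (ξ ^ (r : ℕ) * q ^ ((m : ℕ) * (r : ℕ)))) := by
    have h2 := hF.hasSum
    rw [hF.tsum_prod] at h2
    exact h2
  have h3 := (sigmaAntidiagonalEquivProd.hasSum_iff.2 h1).sigma
    (g := fun n : ℕ+ => (∑ r ∈ (n : ℕ).divisors, (r : ℂ) ^ 3 * ξ ^ r) * q ^ (n : ℕ)) (by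
      intro n
      have h4 : (∑ r ∈ (n : ℕ).divisors, (r : ℂ) ^ 3 * ξ ^ r) * q ^ (n : ℕ) =
          ∑ c : Nat.divisorsAntidiagonal (n : ℕ), (F ∘ sigmaAntidiagonalEquivProd) ⟨n, c⟩ := by
        have h5 : ∀ c : Nat.divisorsAntidiagonal (n : ℕ),
            (F ∘ sigmaAntidiagonalEquivProd) ⟨n, c⟩ =
              (fun x : ℕ × ℕ => (x.2 : ℂ) ^ 3 * ξ ^ x.2 * q ^ (n : ℕ)) c.1 := by
          intro c
          have h6 := (Nat.mem_divisorsAntidiagonal.1 c.2).1
          simp only [Function.comp_apply, hFd, sigmaAntidiagonalEquivProd,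
            divisorsAntidiagonalFactors, Equiv.coe_fn_mk, PNat.mk_coe]
          rw [h6]
          ring
        rw [Finset.sum_congr rfl (fun c _ => h5 c), Finset.univ_eq_attach,
          Finset.sum_attach (n : ℕ).divisorsAntidiagonal
            (fun x : ℕ × ℕ => (x.2 : ℂ) ^ 3 * ξ ^ x.2 * q ^ (n : ℕ)),
          Nat.sum_divisorsAntidiagonal' (fun _ j => (j : ℂ) ^ 3 * ξ ^ j * q ^ (n : ℕ)),
          Finset.sum_mul]
      rw [h4]
      exact hasSum_fintype _)
  have h7 := (hasSum_pnat_iff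
    (f := fun n : ℕ => (∑ r ∈ n.divisors, (r : ℂ) ^ 3 * ξ ^ r) * q ^ n)).1 h3
  simpa using h7

/-- the summand -/
noncomputable def g (N : ℕ) (τ : ℍ) (p : ℤ × ℤ) : ℂ :=
  (((p.1 : ℂ) * N) * (τ : ℂ) + (1 + (p.2 : ℂ) * N)) ^ (-4 : ℤ)

/-- the parametrisation -/
def e (N : ℕ) (p : ℤ × ℤ) : Fin 2 → ℤ := ![p.1 * N, 1 + p.2 * N]

theorem e_inj (N : ℕ) (hN : 0 < N) : Function.Injective (e N) := by
  intro p p' h
  have h0 := congrFun h 0
  have h1 := congrFun h 1
  have hN' : (N : ℤ) ≠ 0 := by exact_mod_cast hN.ne'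
  simp only [e, Matrix.cons_val_zero, Matrix.cons_val_one] at h0 h1
  refine Prod.ext ?_ ?_
  · exact mul_right_cancel₀ hN' h0
  · exact mul_right_cancel₀ hN' (add_left_cancel h1)

theorem summ (N : ℕ) (hN : 0 < N) (τ : ℍ) : Summable (g N τ) := by
  have h1 := (summable_eisSummand (k := 4) (by norm_num) τ).comp_injective (e_inj N hN)
  refine h1.congr ?_
  intro p
  simp only [Function.comp_apply, eisSummand, e, g, Matrix.cons_val_zero, Matrix.cons_val_one]
  push_cast
  rfl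

theorem Gv_eq (N : ℕ) (hN : 0 < N) (τ : ℍ) : Gv N (v01 N) τ = ∑' p : ℤ × ℤ, g N τ p := by
  classical
  have h0 : Gv N (v01 N) τ = ∑' x : Fin 2 → ℤ,
    if (∀ i, ((x i : ℤ) : ZMod N) = v01 N i) then
      ((x 0 : ℂ) * (τ : ℂ) + (x 1 : ℂ)) ^ (-4 : ℤ) else 0 := by
    unfold Gv
    refine tsum_congr ?_
    intro x
    congr
  rw [h0, ← (e_inj N hN).tsum_eq]
  · refine tsum_congr ?_
    intro p
    have h1 : ∀ i, ((e N p i : ℤ) : ZMod N) = v01 N i := by
      intro i
      fin_cases i <;> simp [e, v01]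
    rw [if_pos h1]
    simp only [e, g, Matrix.cons_val_zero, Matrix.cons_val_one]
    push_cast
    rfl
  · intro x hx
    have h1 : ∀ i, ((x i : ℤ) : ZMod N) = v01 N i := by
      by_contra h2
      exact hx (if_neg h2)
    have h3 := h1 0
    have h4 := h1 1
    simp only [v01, Matrix.cons_val_zero, Matrix.cons_val_one] at h3 h4
    rw [ZMod.intCast_zmod_eq_zero_iff_dvd] at h3
    have h5 : ((x 1 - 1 : ℤ) : ZMod N) = 0 := by
      push_cast
      rw [h4, sub_self]
    rw [ZMod.intCast_zmod_eq_zero_iff_dvd] at h5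
    obtain ⟨a, ha⟩ := h3
    obtain ⟨b, hb⟩ := h5
    refine ⟨(a, b), ?_⟩
    ext i
    fin_cases i
    · simp only [e, Fin.zero_eta, Matrix.cons_val_zero]
      rw [ha, mul_comm]
    · change 1 + b * (N : ℤ) = x 1
      linarith

/-- the Lipschitz formula with a real shift -/
theorem lip (τ : ℍ) (m : ℕ+) (s : ℝ) :
    ∑' l : ℤ, 1 / (((m : ℕ) : ℂ) * (τ : ℂ) + s + l) ^ 4 =
      ((-2 * π * Complex.I) ^ 4 / (Nat.factorial 3 : ℂ)) *
        ∑' r : ℕ+, ((r : ℕ) : ℂ) ^ 3 * (Complex.exp (2 * π * Complex.I * s) ^ (r : ℕ) *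
          qq τ ^ ((m : ℕ) * (r : ℕ))) := by
  have him : 0 < (((m : ℕ) : ℂ) * (τ : ℂ) + s).im := by
    have h1 : (((m : ℕ) : ℂ) * (τ : ℂ) + s).im = ((m : ℕ) : ℝ) * τ.im := by
      simp
    rw [h1]
    have h2 : (0 : ℝ) < ((m : ℕ) : ℝ) := by exact_mod_cast m.pos
    exact mul_pos h2 τ.im_pos
  have h3 := EisensteinSeries.qExpansion_identity_pnat (k := 3) (by norm_num)
    ⟨((m : ℕ) : ℂ) * (τ : ℂ) + s, him⟩
  have h4 : (((⟨((m : ℕ) : ℂ) * (τ : ℂ) + s, him⟩ : ℍ) : ℂ)) = ((m : ℕ) : ℂ) * (τ : ℂ) + s := rfl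
  rw [h4] at h3
  refine h3.trans ?_
  congr 1
  refine tsum_congr ?_
  intro r
  congr 1
  have h5 : Complex.exp (2 * π * Complex.I * (((m : ℕ) : ℂ) * (τ : ℂ) + s)) =
      Complex.exp (2 * π * Complex.I * s) * qq τ ^ (m : ℕ) := by
    rw [qq, ← Complex.exp_nat_mul, ← Complex.exp_add]
    congr 1
    ring
  rw [h5, mul_pow, ← pow_mul]

/-- the constant -/
noncomputable def c0 (N : ℕ) : ℂ :=
  (N : ℂ) ^ (-4 : ℤ) * ((-2 * π * Complex.I) ^ 4 / (Nat.factorial 3 : ℂ))

theorem inv4 (X : ℂ) : X ^ (-4 : ℤ) = 1 / X ^ 4 := by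
  rw [zpow_neg, one_div]
  norm_cast

theorem pos (N : ℕ) (hN : 0 < N) (τ : ℍ) (m : ℕ+) :
    ∑' l : ℤ, g N τ (((m : ℕ) : ℤ), l) = c0 N *
        ∑' r : ℕ+, ((r : ℕ) : ℂ) ^ 3 * (Complex.exp (2 * π * Complex.I / N) ^ (r : ℕ) *
          qq τ ^ ((m : ℕ) * (r : ℕ))) := by
  have hN' : (N : ℂ) ≠ 0 := by exact_mod_cast hN.ne'
  have h1 := lip τ m (1 / N)
  have h2 : 2 * π * Complex.I * (((1 / N : ℝ)) : ℂ) = 2 * π * Complex.I / N := by
    push_cast
    ring
  rw [h2] at h1
  rw [c0, mul_assoc, ← h1, ← tsum_mul_left]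
  refine tsum_congr ?_
  intro l
  have h3 : (((m : ℕ) : ℤ) : ℂ) * N * (τ : ℂ) + (1 + (l : ℂ) * N) =
      (N : ℂ) * (((m : ℕ) : ℂ) * (τ : ℂ) + ((1 / N : ℝ) : ℂ) + l) := by
    push_cast
    field_simp
    ring
  rw [g, h3, mul_zpow, inv4 (((m : ℕ) : ℂ) * (τ : ℂ) + ((1 / N : ℝ) : ℂ) + l)]

theorem neg (N : ℕ) (hN : 0 < N) (τ : ℍ) (m : ℕ+) :
    ∑' l : ℤ, g N τ (-((m : ℕ) : ℤ), l) = c0 N *
        ∑' r : ℕ+, ((r : ℕ) : ℂ) ^ 3 * ((Complex.exp (2 * π * Complex.I / N))⁻¹ ^ (r : ℕ) *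
          qq τ ^ ((m : ℕ) * (r : ℕ))) := by
  have hN' : (N : ℂ) ≠ 0 := by exact_mod_cast hN.ne'
  have h1 := lip τ m (-(1 / N))
  have h2 : 2 * π * Complex.I * (((-(1 / N) : ℝ)) : ℂ) = -(2 * π * Complex.I / N) := by
    push_cast
    ring
  rw [h2, Complex.exp_neg] at h1
  rw [c0, mul_assoc, ← h1, ← tsum_mul_left, ← tsum_comp_neg]
  refine tsum_congr ?_
  intro l
  have h3 : ((-((m : ℕ) : ℤ) : ℤ) : ℂ) * N * (τ : ℂ) + (1 + (((-l) : ℤ) : ℂ) * N) =
      (-(N : ℂ)) * (((m : ℕ) : ℂ) * (τ : ℂ) + ((-(1 / N) : ℝ) : ℂ) + l) := by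
    push_cast
    field_simp
    ring
  rw [g, h3, mul_zpow, inv4 (((m : ℕ) : ℂ) * (τ : ℂ) + ((-(1 / N) : ℝ) : ℂ) + l)]
  have h4 : (-(N : ℂ)) ^ (-4 : ℤ) = (N : ℂ) ^ (-4 : ℤ) := by
    rw [Even.neg_zpow (by decide)]
  rw [h4]

/-- the coefficients -/
noncomputable def bb (N : ℕ) (n : ℕ) : ℂ :=
  ∑ r ∈ n.divisors, (r : ℂ) ^ 3 * Complex.exp (2 * π * Complex.I / N) ^ r +
    ∑ r ∈ n.divisors, (r : ℂ) ^ 3 * (Complex.exp (2 * π * Complex.I / N))⁻¹ ^ r

theorem mem (N : ℕ) (hN : 0 < N) (K : Subfield ℂ) (V : ValuationSubring ℂ)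
    (hK : Complex.exp (2 * Real.pi * Complex.I / N) ∈ K) (n : ℕ) : bb N n ∈ K ∧ bb N n ∈ V := by
  set ζ := Complex.exp (2 * Real.pi * Complex.I / N) with hζ
  have hN' : (N : ℂ) ≠ 0 := by exact_mod_cast hN.ne'
  have h1 : ζ ^ N = 1 := by
    rw [hζ, ← Complex.exp_nat_mul, mul_div_cancel₀ _ hN', Complex.exp_two_pi_mul_I]
  have h2 : ζ * ζ ^ (N - 1) = 1 := by
    rw [← pow_succ', Nat.sub_add_cancel hN, h1]
  have h3 : ζ⁻¹ = ζ ^ (N - 1) := inv_eq_of_mul_eq_one_right h2
  have h4 : ζ ∈ V ∧ ζ⁻¹ ∈ V := by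
    rcases V.mem_or_inv_mem ζ with h | h
    · exact ⟨h, by rw [h3]; exact pow_mem h _⟩
    · refine ⟨?_, h⟩
      have h5 : ζ = ζ⁻¹ ^ (N - 1) := by
        rw [inv_pow, ← h3, inv_inv]
      rw [h5]
      exact pow_mem h _
  constructor
  · refine add_mem (sum_mem ?_) (sum_mem ?_)
    · intro r _
      exact mul_mem (pow_mem (natCast_mem K r) 3) (pow_mem hK r)
    · intro r _
      exact mul_mem (pow_mem (natCast_mem K r) 3) (pow_mem (inv_mem hK) r)
  · refine add_mem (sum_mem ?_) (sum_mem ?_)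
    · intro r _
      exact mul_mem (pow_mem (natCast_mem V r) 3) (pow_mem h4.1 r)
    · intro r _
      exact mul_mem (pow_mem (natCast_mem V r) 3) (pow_mem h4.2 r)

end E4

theorem t_E4 : St_E4 := by
  intro N hN
  refine ⟨∑' l : ℤ, (1 + (l : ℂ) * N) ^ (-4 : ℤ), E4.c0 N, PowerSeries.mk (E4.bb N), ?_, ?_⟩
  · intro K V hK n
    rw [PowerSeries.coeff_mk]
    exact E4.mem N hN K V hK n
  · intro τ
    have hq : ‖qq τ‖ < 1 := norm_exp_two_pi_I_lt_one τ
    have hN' : (N : ℂ) ≠ 0 := by exact_mod_cast hN.ne'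
    have hζ : ‖Complex.exp (2 * π * Complex.I / N)‖ = 1 := by
      have h1 : (2 * π * Complex.I / N : ℂ) = ((2 * π / N : ℝ) : ℂ) * Complex.I := by
        push_cast
        ring
      rw [h1, Complex.norm_exp_ofReal_mul_I]
    have h1 := E4.lam _ (qq τ) hζ hq
    have h2 := E4.lam (Complex.exp (2 * π * Complex.I / N))⁻¹ (qq τ)
      (by rw [norm_inv, hζ, inv_one]) hq
    have h3 := (h1.add h2).mul_left (E4.c0 N)
    have h4 : HasSum (fun n : ℕ => if n = 0 then (∑' l : ℤ, (1 + (l : ℂ) * N) ^ (-4 : ℤ)) else 0)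
        (∑' l : ℤ, (1 + (l : ℂ) * N) ^ (-4 : ℤ)) := by
      have := hasSum_ite_eq (0 : ℕ) (∑' l : ℤ, (1 + (l : ℂ) * N) ^ (-4 : ℤ))
      exact this
    have h5 := h4.add h3
    have h6 := E4.summ N hN τ
    have h7 : Gv N (v01 N) τ = (∑' l : ℤ, (1 + (l : ℂ) * N) ^ (-4 : ℤ)) +
        E4.c0 N * ((∑' m : ℕ+, ∑' r : ℕ+, ((r : ℕ) : ℂ) ^ 3 *
          (Complex.exp (2 * π * Complex.I / N) ^ (r : ℕ) * qq τ ^ ((m : ℕ) * (r : ℕ)))) +
          ∑' m : ℕ+, ∑' r : ℕ+, ((r : ℕ) : ℂ) ^ 3 *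
          ((Complex.exp (2 * π * Complex.I / N))⁻¹ ^ (r : ℕ) *
            qq τ ^ ((m : ℕ) * (r : ℕ)))) := by
      rw [E4.Gv_eq N hN τ, h6.tsum_prod, tsum_int_eq_zero_add_tsum_pnat h6.prod]
      simp only [E4.pos N hN τ, E4.neg N hN τ, tsum_mul_left]
      rw [add_assoc, ← mul_add]
      congr 1
      refine tsum_congr ?_
      intro l
      rw [E4.g]
      simp
    rw [h7]
    refine h5.congr_fun ?_
    intro n
    rw [map_add, map_smul, PowerSeries.coeff_mk, PowerSeries.coeff_C, smul_eq_mul, E4.bb]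
    split_ifs with h8
    · rw [h8]
      simp
    · ring

end Pool.Agent.MU3Q


end

section

/-!
# MU3, block WQ, module POLE: a common denominator
-/

set_option autoImplicit false

namespace Pool.Agent.MU3Q

open UpperHalfPlane ModularForm EisensteinSeries Filter
open scoped MatrixGroups Topology

noncomputable section

namespace POLE

lemma UU_mem (τ : ℍ) : {z : ℂ | 0 < z.im} ∈ 𝓝 (τ : ℂ) :=
  (isOpen_lt continuous_const Complex.continuous_im).mem_nhds τ.2

lemma Hol.analyticAt {F : ℍ → ℂ} (hF : Hol F) (τ : ℍ) : AnalyticAt ℂ (F ∘ ofComplex) (τ : ℂ) :=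
  DifferentiableOn.analyticAt hF (UU_mem τ)

lemma exists_Y_norm_lt (M : ℕ) (hM : 0 < M) (r : ℝ) (hr : 0 < r) :
    ∃ Y : ℝ, ∀ z : ℂ, Y < z.im →
      ‖Complex.exp (2 * Real.pi * Complex.I * z / M)‖ < r := by
  have hM' : (0 : ℝ) < M := by exact_mod_cast hM
  refine ⟨-(Real.log r) * M / (2 * Real.pi), ?_⟩
  intro z hz
  have h1 : (2 * Real.pi * Complex.I * z / M).re = -(2 * Real.pi * z.im / M) := by
    have : (2 * Real.pi * Complex.I * z / M) = ((2 * Real.pi / M : ℝ) : ℂ) * (Complex.I * z) := by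
      push_cast; ring
    rw [this, Complex.re_ofReal_mul]
    simp
    ring
  rw [Complex.norm_exp, h1, ← Real.lt_log_iff_exp_lt hr]
  rw [div_lt_iff₀ (by positivity)] at hz
  have h2 : 2 * Real.pi * z.im / M * M = z.im * (2 * Real.pi) := by
    field_simp
  by_contra hcon
  push Not at hcon
  have h3 : 2 * Real.pi * z.im / M * M ≤ -Real.log r * M := by
    refine mul_le_mul_of_nonneg_right ?_ hM'.le
    linarith
  linarith

/-- near `i ∞` the function is analytic -/
lemma Mer.analyticAt {X : ℍ → ℂ} (hX : Mer X) :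
    ∃ Y : ℝ, ∀ τ : ℍ, Y < τ.im → AnalyticAt ℂ (X ∘ ofComplex) (τ : ℂ) := by
  obtain ⟨-, M, g, Y, hM, hg, hgX⟩ := hX
  have h1 := hg.eventually_analyticAt
  rw [eventually_nhdsWithin_iff, Metric.eventually_nhds_iff] at h1
  obtain ⟨r, hr, h1⟩ := h1
  obtain ⟨Y', hY'⟩ := exists_Y_norm_lt M hM r hr
  refine ⟨max Y Y', fun τ hτ => ?_⟩
  have h2 : AnalyticAt ℂ g (Complex.exp (2 * Real.pi * Complex.I * (τ : ℂ) / M)) := by
    refine h1 ?_ (Complex.exp_ne_zero _)
    rw [dist_zero_right]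
    exact hY' _ (lt_of_le_of_lt (le_max_right _ _) hτ)
  have h3 : AnalyticAt ℂ (fun z : ℂ => g (Complex.exp (2 * Real.pi * Complex.I * z / M)))
      (τ : ℂ) := by
    refine AnalyticAt.fun_comp (f := fun z : ℂ => Complex.exp (2 * Real.pi * Complex.I * z / M)) h2 ?_
    fun_prop
  refine h3.congr ?_
  have h4 : {z : ℂ | Y < z.im} ∈ 𝓝 (τ : ℂ) :=
    (isOpen_lt continuous_const Complex.continuous_im).mem_nhds
      (lt_of_le_of_lt (le_max_left _ _) hτ)
  filter_upwards [h4, UU_mem τ] with z hz hz0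
  have h5 := hgX ⟨z, hz0⟩ hz
  rw [Function.comp_apply, ofComplex_apply_of_im_pos hz0, h5]

/-- at most a pole at `i ∞` -/
lemma Mer.grow {X : ℍ → ℂ} (hX : Mer X) : Grow X := by
  obtain ⟨-, M, g, Y, hM, ⟨n, hn⟩, hgX⟩ := hX
  have hM' : (0 : ℝ) < M := by exact_mod_cast hM
  have hM1 : (1 : ℝ) ≤ M := by exact_mod_cast hM
  -- the function `z ^ n g z` is bounded near `0`
  have h1 := hn.continuousAt
  obtain ⟨r, hr, h2⟩ := Metric.continuousAt_iff.1 h1 1 one_pos
  set C : ℝ := ‖(fun z : ℂ => (z - 0) ^ n • g z) 0‖ + 1 with hC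
  have h3 : ∀ z : ℂ, ‖z‖ < r → ‖z ^ n * g z‖ ≤ C := by
    intro z hz
    have h4 := h2 (by rwa [dist_zero_right])
    rw [dist_eq_norm] at h4
    have h5 := norm_le_insert' ((z - 0) ^ n • g z) ((0 - 0 : ℂ) ^ n • g 0)
    have h6 : (z - 0) ^ n • g z = z ^ n * g z := by
      simp
    have h7 : C = ‖(0 - 0 : ℂ) ^ n • g 0‖ + 1 := hC
    rw [← h6, h7]
    linarith
  obtain ⟨Y', hY'⟩ := exists_Y_norm_lt M hM r hr
  -- decay of the discriminant
  have h7 : ModularForm.discriminant =O[atImInfty] fun τ => Real.exp (-2 * Real.pi * τ.im / 1) := by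
    have := CuspFormClass.exp_decay_atImInfty (h := 1) CuspForm.discriminant one_pos
      one_mem_strictPeriods_SL
    rwa [CuspForm.coe_discriminant] at this
  obtain ⟨c, hc⟩ := Asymptotics.isBigO_iff.1 h7
  have hc' : ∀ᶠ τ in atImInfty, ‖ModularForm.discriminant τ‖ ≤
      |c| * Real.exp (-2 * Real.pi * τ.im) := by
    filter_upwards [hc] with τ hτ
    rw [div_one, Real.norm_of_nonneg (Real.exp_pos _).le] at hτ
    exact hτ.trans (mul_le_mul_of_nonneg_right (le_abs_self c) (Real.exp_pos _).le)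
  refine ⟨n, ?_⟩
  rw [IsBoundedAtImInfty, BoundedAtFilter, Asymptotics.isBigO_iff]
  refine ⟨|c| ^ n * C, ?_⟩
  have h8 : ∀ᶠ τ : ℍ in atImInfty, max (max Y Y') 0 < τ.im := by
    rw [Filter.Eventually, atImInfty_mem]
    exact ⟨max (max Y Y') 0 + 1, fun z hz => by
      have : max (max Y Y') 0 < z.im := by linarith
      exact this⟩
  filter_upwards [hc', h8] with τ hτ hτY
  have hY1 : Y < τ.im := lt_of_le_of_lt ((le_max_left _ _).trans (le_max_left _ _)) hτY
  have hY2 : Y' < τ.im := lt_of_le_of_lt ((le_max_right _ _).trans (le_max_left _ _)) hτY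
  have hq := h3 _ (hY' (τ : ℂ) hY2)
  set q : ℂ := Complex.exp (2 * Real.pi * Complex.I * (τ : ℂ) / M) with hqdef
  have hq0 : q ≠ 0 := Complex.exp_ne_zero _
  have hqn : ‖q‖ = Real.exp (-(2 * Real.pi * τ.im / M)) := by
    have h1 : (2 * Real.pi * Complex.I * (τ : ℂ) / M).re = -(2 * Real.pi * τ.im / M) := by
      have : (2 * Real.pi * Complex.I * (τ : ℂ) / M) =
          ((2 * Real.pi / M : ℝ) : ℂ) * (Complex.I * (τ : ℂ)) := by
        push_cast; ring
      rw [this, Complex.re_ofReal_mul]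
      simp
      ring
    rw [hqdef, Complex.norm_exp, h1]
  have hle : Real.exp (-2 * Real.pi * τ.im) ≤ ‖q‖ := by
    rw [hqn, Real.exp_le_exp]
    have h9 : 2 * Real.pi * τ.im / M ≤ 2 * Real.pi * τ.im := by
      refine div_le_self ?_ hM1
      have := τ.im_pos
      positivity
    linarith
  have hΔ : ‖ModularForm.discriminant τ‖ ≤ |c| * ‖q‖ :=
    hτ.trans (mul_le_mul_of_nonneg_left hle (abs_nonneg c))
  rw [hgX τ hY1]
  have h10 : ‖ModularForm.discriminant τ ^ n * g q‖ ≤ (|c| * ‖q‖) ^ n * ‖g q‖ := by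
    rw [norm_mul, norm_pow]
    gcongr
  have h11 : (|c| * ‖q‖) ^ n * ‖g q‖ = |c| ^ n * ‖q ^ n * g q‖ := by
    rw [norm_mul, norm_pow]; ring
  simp only [Pi.one_apply, norm_one, mul_one]
  calc ‖ModularForm.discriminant τ ^ n * g q‖ ≤ |c| ^ n * ‖q ^ n * g q‖ := h10.trans h11.le
    _ ≤ |c| ^ n * C := mul_le_mul_of_nonneg_left hq (by positivity)

/-- the order of a polynomial in an analytic function -/
lemma ord_ge {F : ℂ → ℂ} {z : ℂ} (hF : AnalyticAt ℂ F z) (E : Polynomial ℂ) (n : ℕ) :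
    (n : WithTop ℤ) ≤ meromorphicOrderAt
      (fun w => ((Polynomial.X - Polynomial.C (F z)) ^ n * E).eval (F w)) z := by
  have hpol : ∀ P : Polynomial ℂ, AnalyticAt ℂ (fun w => P.eval (F w)) z := fun P =>
    (AnalyticAt.aeval_polynomial hF P).congr (by
      filter_upwards with w
      simp [Polynomial.coe_aeval_eq_eval])
  induction n with
  | zero =>
    simpa using (hpol E).meromorphicOrderAt_nonneg
  | succ n ih =>
    have h1 : AnalyticAt ℂ (fun w => F w - F z) z := hF.sub analyticAt_const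
    have h2 : 0 < meromorphicOrderAt (fun w => F w - F z) z := by
      rw [← tendsto_zero_iff_meromorphicOrderAt_pos h1.meromorphicAt]
      have h3 : Tendsto (fun w => F w - F z) (𝓝 z) (𝓝 (F z - F z)) := h1.continuousAt
      rw [sub_self] at h3
      exact h3.mono_left nhdsWithin_le_nhds
    have h3 : (1 : WithTop ℤ) ≤ meromorphicOrderAt (fun w => F w - F z) z := by
      generalize meromorphicOrderAt (fun w => F w - F z) z = t at h2
      cases t with
      | top => exact le_top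
      | coe k =>
        have : (0 : ℤ) < k := by exact_mod_cast h2
        exact_mod_cast this
    have h4 : (fun w => ((Polynomial.X - Polynomial.C (F z)) ^ (n + 1) * E).eval (F w)) =
        fun w => (F w - F z) * (((Polynomial.X - Polynomial.C (F z)) ^ n * E).eval (F w)) := by
      funext w
      simp only [Polynomial.eval_mul, Polynomial.eval_pow, Polynomial.eval_sub,
        Polynomial.eval_X, Polynomial.eval_C]
      ring
    rw [h4, fun_meromorphicOrderAt_mul h1.meromorphicAt (hpol _).meromorphicAt]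
    have h5 := add_le_add h3 ih
    refine le_trans (le_of_eq ?_) h5
    push_cast
    rw [add_comm]

end POLE

open _root_.Pool.Agent.MU3Q.POLE in
theorem t_POLE (hfin : St_PFIN) (hord : St_PORD) (hnf : St_NF) (hjb : St_JB) : St_POLE := by
  classical
  intro ι _ X hX hperm
  obtain ⟨hjH, hjG, hjinv, -, -, hGop, hcst, -, -⟩ := hjb
  obtain ⟨hnf1, hnf2⟩ := hnf
  have hjan : ∀ τ : ℍ, AnalyticAt ℂ (jf ∘ ofComplex) (τ : ℂ) := fun τ => Hol.analyticAt hjH τ
  -- the poles in the fundamental domain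
  have hB : ∀ i, {τ : ℍ | τ ∈ ModularGroup.fd ∧
      meromorphicOrderAt (X i ∘ ofComplex) (τ : ℂ) < 0}.Finite := fun i => hfin (X i) (hX i)
  let B : ι → Finset ℍ := fun i => (hB i).toFinset
  let m : ι → ℍ → ℕ := fun i τ => (-(meromorphicOrderAt (X i ∘ ofComplex) (τ : ℂ)).untop₀).toNat
  let D : Polynomial ℂ := ∏ i, ∏ τ ∈ B i, (Polynomial.X - Polynomial.C (jf τ)) ^ m i τ
  have hD : D ≠ 0 := Finset.prod_ne_zero_iff.2 fun i _ => Finset.prod_ne_zero_iff.2 fun τ _ =>
    pow_ne_zero _ (Polynomial.X_sub_C_ne_zero _)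
  have hDdvd : ∀ i, ∀ τ ∈ B i, (Polynomial.X - Polynomial.C (jf τ)) ^ m i τ ∣ D := by
    intro i τ hτ
    exact (Finset.dvd_prod_of_mem (fun τ => (Polynomial.X - Polynomial.C (jf τ)) ^ m i τ) hτ).trans
      (Finset.dvd_prod_of_mem
        (fun i => ∏ τ ∈ B i, (Polynomial.X - Polynomial.C (jf τ)) ^ m i τ) (Finset.mem_univ i))
  have hDan : ∀ (P : Polynomial ℂ) (τ : ℍ),
      AnalyticAt ℂ (fun z => P.eval ((jf ∘ ofComplex) z)) (τ : ℂ) := by
    intro P τ
    refine (AnalyticAt.aeval_polynomial (hjan τ) P).congr ?_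
    filter_upwards with w
    simp [Polynomial.coe_aeval_eq_eval]
  let W : ι → ℍ → ℂ := fun i τ => D.eval (jf τ) * X i τ
  have hWeq : ∀ i, W i ∘ ofComplex = fun z => D.eval ((jf ∘ ofComplex) z) *
      (X i ∘ ofComplex) z := fun i => rfl
  have hWmer : ∀ i, MeromorphicOn (W i ∘ ofComplex) {z : ℂ | 0 < z.im} := by
    intro i z hz
    rw [hWeq]
    exact (hDan D ⟨z, hz⟩).meromorphicAt.mul ((hX i).1 z hz)
  have hWord : ∀ i (τ : ℍ), 0 ≤ meromorphicOrderAt (W i ∘ ofComplex) (τ : ℂ) := by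
    intro i τ
    have hXm : MeromorphicAt (X i ∘ ofComplex) (τ : ℂ) := (hX i).1 _ τ.2
    rw [hWeq, fun_meromorphicOrderAt_mul (hDan D τ).meromorphicAt hXm]
    rcases le_or_gt 0 (meromorphicOrderAt (X i ∘ ofComplex) (τ : ℂ)) with h0 | h0
    · exact add_nonneg (hDan D τ).meromorphicOrderAt_nonneg h0
    · obtain ⟨g, hg⟩ := ModularGroup.exists_smul_mem_fd τ
      obtain ⟨k, hk⟩ := hperm g⁻¹ i
      have h1 := (hord (X i) g⁻¹ (hX i).1).2 (g • τ)
      have h2 : (fun τ : ℍ => X i (g⁻¹ • τ)) = X k := funext hk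
      rw [h2, inv_smul_smul] at h1
      have h3 : g • τ ∈ B k := by
        simp only [B, Set.Finite.mem_toFinset, Set.mem_ofPred_eq]
        exact ⟨hg, by rw [h1]; exact h0⟩
      obtain ⟨E, hE⟩ := hDdvd k _ h3
      have h4 : jf (g • τ) = (jf ∘ ofComplex) (τ : ℂ) := by
        rw [hjinv, Function.comp_apply, ofComplex_apply]
      rw [h4] at hE
      have h5 := ord_ge (hjan τ) E (m k (g • τ))
      rw [← hE] at h5
      have h6 : meromorphicOrderAt (X i ∘ ofComplex) (τ : ℂ) =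
          ((-(m k (g • τ) : ℤ) : ℤ) : WithTop ℤ) := by
        simp only [m]
        rw [h1]
        generalize meromorphicOrderAt (X i ∘ ofComplex) (τ : ℂ) = t at h0
        cases t with
        | top => exact absurd h0 (by simp)
        | coe n =>
          have h7 : n < 0 := by exact_mod_cast h0
          rw [WithTop.untop₀_coe, Int.toNat_of_nonneg (by omega), neg_neg]
      rw [h6]
      have h7 := add_le_add h5 (le_refl (((-(m k (g • τ) : ℤ) : ℤ) : WithTop ℤ)))
      refine le_trans (le_of_eq ?_) h7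
      have h8 : ((m k (g • τ) : ℕ) : WithTop ℤ) = (((m k (g • τ) : ℕ) : ℤ) : WithTop ℤ) := by
        push_cast; rfl
      rw [h8, ← WithTop.coe_add, add_neg_cancel]
      rfl
  -- growth of polynomials in `j`
  have hDG : ∀ P : Polynomial ℂ, Grow (fun τ => P.eval (jf τ)) := by
    intro P
    induction P using Polynomial.induction_on with
    | C a => simpa using (hcst a).2
    | add p q hp hq =>
      have := (hGop _ _ hp hq).1
      simpa using this
    | monomial n a h =>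
      have := (hGop _ _ h hjG).2
      refine this.imp fun k hk => ?_
      refine hk.congr_left fun τ => ?_
      simp only [Polynomial.eval_mul, Polynomial.eval_C, Polynomial.eval_pow, Polynomial.eval_X]
      ring
  -- analytic near `i ∞`
  choose Yi hYi using fun i => Mer.analyticAt (hX i)
  have hY : ∃ Y : ℝ, ∀ i, Yi i ≤ Y := by
    refine ⟨∑ i, |Yi i|, fun i => (le_abs_self _).trans ?_⟩
    exact Finset.single_le_sum (f := fun i => |Yi i|) (fun j _ => abs_nonneg _) (Finset.mem_univ i)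
  obtain ⟨Y, hY⟩ := hY
  have hyW : ∀ (i : ι) (τ : ℍ), Y < τ.im → nf (W i) τ = D.eval (jf τ) * X i τ := by
    intro i τ hτ
    refine (hnf1 (W i) (hWmer i) (hWord i)).2 τ ?_
    rw [hWeq]
    exact (hDan D τ).mul (hYi i τ (lt_of_le_of_lt (hY i) hτ))
  refine ⟨D, hD, fun i => nf (W i), fun i => ⟨(hnf1 (W i) (hWmer i) (hWord i)).1, ?_⟩, ?_, Y, hyW⟩
  · obtain ⟨k, hk⟩ := (hGop _ _ (hDG D) (Mer.grow (hX i))).2
    refine ⟨k, ?_⟩
    rw [isBoundedAtImInfty_iff] at hk ⊢
    obtain ⟨M, A, hMA⟩ := hk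
    refine ⟨M, max A (Y + 1), fun z hz => ?_⟩
    have hz1 : Y < z.im := by have := le_max_right A (Y + 1); linarith
    change ‖ModularForm.discriminant z ^ k * nf (W i) z‖ ≤ M
    rw [hyW i z hz1]
    exact hMA z (le_trans (le_max_left _ _) hz)
  · intro γ i k hik τ
    refine hnf2 (W i) (W k) γ (hWmer i) (hWord i) ?_ τ
    intro σ
    simp only [W]
    rw [hjinv, hik]

end

end Pool.Agent.MU3Q


end

section

/-!
# MU3, block WQ, module NF: removable singularities on the upper half plane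
-/

set_option autoImplicit false

namespace Pool.Agent.MU3Q

open UpperHalfPlane ModularForm EisensteinSeries Filter Topology
open scoped MatrixGroups

noncomputable section

namespace NFaux

/-- the upper half plane as a subset of `ℂ` -/
abbrev U : Set ℂ := {z : ℂ | 0 < z.im}

lemma ofC_coe {z : ℂ} (hz : 0 < z.im) : ((ofComplex z : ℍ) : ℂ) = z := by
  rw [ofComplex_apply_of_im_pos hz]

lemma isOpenU : IsOpen U := isOpen_lt continuous_const Complex.continuous_im

lemma contAt_ofComplex {z : ℂ} (hz : 0 < z.im) : ContinuousAt (ofComplex : ℂ → ℍ) z :=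
  (mdifferentiableAt_ofComplex hz).continuousAt

/-- the normal form is analytic -/
lemma analytic {X : ℍ → ℂ} (hX : MeromorphicOn (X ∘ ofComplex) U)
    (ho : ∀ τ : ℍ, 0 ≤ meromorphicOrderAt (X ∘ ofComplex) (τ : ℂ)) :
    ∀ z ∈ U, AnalyticAt ℂ (toMeromorphicNFOn (X ∘ ofComplex) U) z := by
  intro z hz
  have h1 := meromorphicNFOn_toMeromorphicNFOn (X ∘ ofComplex) U hz
  rw [← h1.meromorphicOrderAt_nonneg_iff_analyticAt, meromorphicOrderAt_toMeromorphicNFOn hX hz]
  exact ho ⟨z, hz⟩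

end NFaux

open _root_.Pool.Agent.MU3Q.NFaux

theorem t_NF (hP : St_PORD) : St_NF := by
  refine ⟨?_, ?_⟩
  · intro X hX ho
    refine ⟨?_, ?_⟩
    · have h1 : DifferentiableOn ℂ (toMeromorphicNFOn (X ∘ ofComplex) U) U := fun z hz =>
        (analytic hX ho z hz).differentiableAt.differentiableWithinAt
      refine h1.congr fun z hz => ?_
      change nf X (ofComplex z) = _
      unfold nf
      rw [ofC_coe hz]
    · intro τ hτ
      have hm : (τ : ℂ) ∈ U := τ.im_pos
      unfold nf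
      rw [toMeromorphicNFOn_eq_toMeromorphicNFAt hX hm,
        toMeromorphicNFAt_eq_self.2 hτ.meromorphicNFAt]
      simp
  · intro X X' γ hX ho hXX' τ
    have hX'eq : X' = fun τ : ℍ => X (γ • τ) := funext fun σ => (hXX' σ).symm
    obtain ⟨hm', ho'⟩ := hP X γ hX
    rw [← hX'eq] at hm' ho'
    have ho'' : ∀ τ : ℍ, 0 ≤ meromorphicOrderAt (X' ∘ ofComplex) (τ : ℂ) := fun σ => by
      rw [ho' σ]
      exact ho (γ • σ)
    have hτ : (τ : ℂ) ∈ U := τ.im_pos
    have hγτ : ((γ • τ : ℍ) : ℂ) ∈ U := (γ • τ).im_pos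
    set f := toMeromorphicNFOn (X ∘ ofComplex) U with hf
    set f' := toMeromorphicNFOn (X' ∘ ofComplex) U with hf'
    have hact : Continuous fun σ : ℍ => γ • σ :=
      continuous_const_smul (γ : GL (Fin 2) ℝ)
    have hg : ContinuousAt (fun z : ℂ => ((γ • (ofComplex z) : ℍ) : ℂ)) (τ : ℂ) := by
      have h1 : ContinuousAt (fun z : ℂ => (γ • (ofComplex z) : ℍ)) (τ : ℂ) :=
        hact.continuousAt.comp (contAt_ofComplex hτ)
      exact continuous_coe.continuousAt.comp h1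
    have hgτ : ((γ • (ofComplex (τ : ℂ)) : ℍ) : ℂ) = ((γ • τ : ℍ) : ℂ) := by
      rw [ofComplex_apply]
    have hc1 : ContinuousAt (fun z : ℂ => f ((γ • (ofComplex z) : ℍ) : ℂ)) (τ : ℂ) := by
      have h1 : ContinuousAt f ((γ • (ofComplex (τ : ℂ)) : ℍ) : ℂ) := by
        rw [hgτ]
        exact (analytic hX ho _ hγτ).continuousAt
      exact ContinuousAt.comp (f := fun z : ℂ => ((γ • (ofComplex z) : ℍ) : ℂ)) h1 hg
    have hc2 : ContinuousAt f' (τ : ℂ) := (analytic hm' ho'' _ hτ).continuousAt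
    have he2 : ∀ᶠ z in 𝓝[≠] (τ : ℂ), f' z = (X' ∘ ofComplex) z :=
      hm'.toMeromorphicNFOn_eq_self_on_nhdsNE hτ
    have he1 : ∀ᶠ z in 𝓝[≠] ((γ • τ : ℍ) : ℂ), f z = (X ∘ ofComplex) z :=
      hX.toMeromorphicNFOn_eq_self_on_nhdsNE hγτ
    have hU : ∀ᶠ z in 𝓝[≠] (τ : ℂ), z ∈ U :=
      nhdsWithin_le_nhds (isOpenU.mem_nhds hτ)
    have htend : Tendsto (fun z : ℂ => ((γ • (ofComplex z) : ℍ) : ℂ)) (𝓝[≠] (τ : ℂ))
        (𝓝[≠] ((γ • τ : ℍ) : ℂ)) := by
      refine tendsto_nhdsWithin_iff.2 ⟨?_, ?_⟩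
      · have h1 := hg.tendsto
        simp only [hgτ] at h1
        exact h1.mono_left nhdsWithin_le_nhds
      · filter_upwards [hU, self_mem_nhdsWithin] with z hz hzne
        intro hcon
        apply hzne
        have h1 : γ • (ofComplex z) = γ • τ := UpperHalfPlane.ext hcon
        have h2 : ofComplex z = τ := smul_left_cancel γ h1
        have h3 := congrArg (fun σ : ℍ => (σ : ℂ)) h2
        simp only [ofC_coe hz] at h3
        exact h3
    have hee : (fun z : ℂ => f ((γ • (ofComplex z) : ℍ) : ℂ)) =ᶠ[𝓝[≠] (τ : ℂ)] f' := by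
      filter_upwards [htend.eventually he1, he2] with z h1 h2
      rw [h1, h2]
      change X (ofComplex ((γ • (ofComplex z) : ℍ) : ℂ)) = X' (ofComplex z)
      rw [ofComplex_apply, hXX']
    have hl1 : Tendsto (fun z : ℂ => f ((γ • (ofComplex z) : ℍ) : ℂ)) (𝓝[≠] (τ : ℂ))
        (𝓝 (f ((γ • τ : ℍ) : ℂ))) := by
      have h1 := hc1.tendsto
      simp only [hgτ] at h1
      exact h1.mono_left nhdsWithin_le_nhds
    have hl2 : Tendsto f' (𝓝[≠] (τ : ℂ)) (𝓝 (f' (τ : ℂ))) :=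
      hc2.tendsto.mono_left nhdsWithin_le_nhds
    exact tendsto_nhds_unique_of_eventuallyEq hl1 hl2 hee

end

end Pool.Agent.MU3Q


end

section

/-!
# MU3, block WQ: module PFIN (helper50)
-/

set_option autoImplicit false

namespace Pool.Agent.MU3Q

open UpperHalfPlane ModularForm EisensteinSeries Filter Topology
open scoped MatrixGroups

noncomputable section

namespace PFIN50

/-- No poles near `i ∞`. -/
theorem no_poles (X : ℍ → ℂ) (hX : Mer X) :
    ∃ Y : ℝ, ∀ τ : ℍ, Y < τ.im → 0 ≤ meromorphicOrderAt (X ∘ ofComplex) (τ : ℂ) := by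
  obtain ⟨-, M, g, Y, hM, hg, hXg⟩ := hX
  have h1 := hg.eventually_analyticAt
  rw [eventually_nhdsWithin_iff, Metric.eventually_nhds_iff] at h1
  obtain ⟨r, hr, h1⟩ := h1
  have hMpos : (0 : ℝ) < M := by exact_mod_cast hM
  have hM0 : (M : ℂ) ≠ 0 := by exact_mod_cast hM.ne'
  -- choice of the height
  set Y' : ℝ := max Y (-(M / (2 * Real.pi)) * Real.log r) with hY'
  refine ⟨Y', fun τ hτ => ?_⟩
  have hτ1 : Y < τ.im := (le_max_left _ _).trans_lt hτ
  have hτ2 : -(M / (2 * Real.pi)) * Real.log r < τ.im := (le_max_right _ _).trans_lt hτ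
  have hq : ∀ z : ℂ, ‖Complex.exp (2 * Real.pi * Complex.I * z / M)‖ =
      Real.exp (-(2 * Real.pi * z.im / M)) := by
    intro z
    rw [Complex.norm_exp]
    congr 1
    have e : 2 * Real.pi * Complex.I * z / M = ((2 * Real.pi / M : ℝ) : ℂ) * (Complex.I * z) := by
      push_cast
      ring
    rw [e, Complex.re_ofReal_mul]
    simp only [Complex.mul_re, Complex.I_re, Complex.I_im, zero_mul, one_mul, zero_sub]
    ring
  have hlt : ‖Complex.exp (2 * Real.pi * Complex.I * (τ : ℂ) / M)‖ < r := by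
    rw [hq]
    have h3 : -(2 * Real.pi * (τ : ℂ).im / M) < Real.log r := by
      have h4 : 0 < 2 * Real.pi := by positivity
      have h5 : (τ : ℂ).im = τ.im := rfl
      rw [h5]
      have h6 : -(Real.log r) < 2 * Real.pi * τ.im / M := by
        rw [lt_div_iff₀ hMpos]
        have h7 := mul_lt_mul_of_pos_left hτ2 h4
        have h8 : 2 * Real.pi * (-(M / (2 * Real.pi)) * Real.log r) = -(Real.log r) * M := by
          field_simp
        linarith
      linarith
    calc Real.exp (-(2 * Real.pi * (τ : ℂ).im / M)) < Real.exp (Real.log r) :=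
          Real.exp_lt_exp.2 h3
      _ = r := Real.exp_log hr
  have han : AnalyticAt ℂ g (Complex.exp (2 * Real.pi * Complex.I * (τ : ℂ) / M)) := by
    apply h1
    · rw [dist_zero_right]
      exact hlt
    · exact Complex.exp_ne_zero _
  have han2 : AnalyticAt ℂ (fun z : ℂ => g (Complex.exp (2 * Real.pi * Complex.I * z / M)))
      (τ : ℂ) := by
    apply AnalyticAt.fun_comp (f := fun z : ℂ => Complex.exp (2 * Real.pi * Complex.I * z / M)) han
    fun_prop (disch := exact hM0)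
  have hev : X ∘ ofComplex =ᶠ[𝓝 (τ : ℂ)]
      fun z : ℂ => g (Complex.exp (2 * Real.pi * Complex.I * z / M)) := by
    have hopen : IsOpen {z : ℂ | max Y 0 < z.im} := isOpen_lt continuous_const Complex.continuous_im
    have hmem : (τ : ℂ) ∈ {z : ℂ | max Y 0 < z.im} := max_lt hτ1 τ.im_pos
    filter_upwards [hopen.mem_nhds hmem] with z hz
    have hz1 : Y < z.im := (le_max_left _ _).trans_lt hz
    have hz0 : 0 < z.im := (le_max_right _ _).trans_lt hz
    have e : ofComplex z = ⟨z, hz0⟩ := ofComplex_apply_of_im_pos hz0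
    rw [Function.comp_apply, e]
    exact hXg ⟨z, hz0⟩ hz1
  rw [meromorphicOrderAt_congr (hev.filter_mono nhdsWithin_le_nhds)]
  exact han2.meromorphicOrderAt_nonneg

end PFIN50

open _root_.Pool.Agent.MU3Q.PFIN50 in
theorem t_PFIN : St_PFIN := by
  intro X hX
  obtain ⟨Y, hY⟩ := no_poles X hX
  have hm := hX.1
  by_contra hinf
  rw [← Set.Infinite] at hinf
  set S : Set ℍ :=
    {τ : ℍ | τ ∈ ModularGroup.fd ∧ meromorphicOrderAt (X ∘ ofComplex) (τ : ℂ) < 0} with hS
  have hinf2 : ((fun τ : ℍ => (τ : ℂ)) '' S).Infinite :=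
    hinf.image (fun a _ b _ h => UpperHalfPlane.ext h)
  set K : Set ℂ := {z : ℂ | |z.re| ≤ 1 / 2 ∧ 1 / 2 ≤ z.im ∧ z.im ≤ Y} with hK
  have hKc : IsCompact K := by
    apply Metric.isCompact_of_isClosed_isBounded
    · have e : K = {z : ℂ | |z.re| ≤ 1 / 2} ∩ ({z : ℂ | 1 / 2 ≤ z.im} ∩ {z : ℂ | z.im ≤ Y}) := rfl
      rw [e]
      exact (isClosed_le Complex.continuous_re.abs continuous_const).inter
        ((isClosed_le continuous_const Complex.continuous_im).inter
          (isClosed_le Complex.continuous_im continuous_const))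
    · rw [isBounded_iff_forall_norm_le]
      refine ⟨1 / 2 + |Y|, fun z hz => ?_⟩
      obtain ⟨h1, h2, h3⟩ := hz
      have h4 := Complex.norm_le_abs_re_add_abs_im z
      have h5 : |z.im| ≤ |Y| := by
        rw [abs_of_pos (by linarith : (0 : ℝ) < z.im)]
        exact h3.trans (le_abs_self Y)
      linarith
  have hsub : (fun τ : ℍ => (τ : ℂ)) '' S ⊆ K := by
    rintro _ ⟨τ, ⟨hfd, hord⟩, rfl⟩
    have h1 : |τ.re| ≤ 1 / 2 := hfd.2
    have h2 : 1 ≤ Complex.normSq (τ : ℂ) := hfd.1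
    have h3 : ¬ Y < τ.im := fun h => absurd (hY τ h) (not_le.2 hord)
    have h4 := τ.im_pos
    have h5 : Complex.normSq (τ : ℂ) = τ.re * τ.re + τ.im * τ.im := Complex.normSq_apply _
    have h6 := abs_le.1 h1
    refine ⟨h1, ?_, not_lt.1 h3⟩
    change 1 / 2 ≤ τ.im
    nlinarith [h6.1, h6.2]
  obtain ⟨z, hzK, hacc⟩ := hinf2.exists_accPt_of_subset_isCompact hKc hsub
  rw [accPt_iff_frequently_nhdsNE] at hacc
  have hz0 : 0 < z.im := by
    have := hzK.2.1
    linarith
  have h1 := (hm z hz0).eventually_analyticAt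
  obtain ⟨w, hw, hw2⟩ := (hacc.and_eventually h1).exists
  obtain ⟨τ, ⟨-, hord⟩, rfl⟩ := hw
  exact absurd hw2.meromorphicOrderAt_nonneg (not_le.2 hord)

end

end Pool.Agent.MU3Q


end

section

/-!
# MU3, block WQ, module PORD: the order is invariant under Moebius transformations
-/

set_option autoImplicit false

namespace Pool.Agent.MU3Q

open UpperHalfPlane ModularForm EisensteinSeries
open scoped MatrixGroups

theorem t_PORD : St_PORD := by
  intro X γ hX
  have hdet : 0 < (Matrix.SpecialLinearGroup.mapGL ℝ γ).det.val := by simp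
  have key : (fun τ : ℍ => X (γ • τ)) ∘ ofComplex =
      (X ∘ ofComplex) ∘ (fun z : ℂ => ((Matrix.SpecialLinearGroup.mapGL ℝ γ • ofComplex z : ℍ) : ℂ)) := by
    funext z
    simp only [Function.comp_apply, ofComplex_apply]
    rfl
  refine ⟨?_, ?_⟩
  · intro z hz
    have hz' : 0 < z.im := hz
    have ha := _root_.UpperHalfPlane.analyticAt_smul hdet ⟨z, hz'⟩
    rw [key]
    apply MeromorphicAt.comp_analyticAt _ ha
    apply hX
    exact UpperHalfPlane.im_pos _
  · intro τ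
    exact meromorphicOrderAt_comp_smul hdet

end Pool.Agent.MU3Q


end

section

/-!
# MU3, block WQ, module QE: integral q-expansions of `E₄` and `1728 Δ`
-/

set_option autoImplicit false

namespace Pool.Agent.MU3Q

open UpperHalfPlane ModularForm EisensteinSeries
open scoped MatrixGroups

noncomputable section

/-- the integral power series of `E₄` -/
def qe4 : PowerSeries ℤ :=
  PowerSeries.mk fun n => if n = 0 then 1 else 240 * (ArithmeticFunction.sigma 3 n : ℤ)

/-- the integral power series of `E₆` -/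
def qe6 : PowerSeries ℤ :=
  PowerSeries.mk fun n => if n = 0 then 1 else -504 * (ArithmeticFunction.sigma 5 n : ℤ)

theorem qe_PP (K : Subfield ℂ) (V : ValuationSubring ℂ) (w : PowerSeries ℤ) :
    PowerSeries.map (Int.castRingHom ℂ) w ∈ PP K V := by
  intro n
  rw [PowerSeries.coeff_map]
  exact ⟨by simpa using intCast_mem K _, by simpa using intCast_mem V _⟩

theorem qe_map4 : PowerSeries.map (Int.castRingHom ℂ) qe4 = qExpansion 1 E₄ := by
  ext n
  rw [PowerSeries.coeff_map, E_qExpansion_coeff _ ⟨2, rfl⟩, qe4, PowerSeries.coeff_mk]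
  by_cases hn : n = 0
  · simp [hn]
  · norm_num [hn, show bernoulli 4 = -1 / 30 by decide +kernel]

theorem qe_map6 : PowerSeries.map (Int.castRingHom ℂ) qe6 = qExpansion 1 E₆ := by
  ext n
  rw [PowerSeries.coeff_map, E_qExpansion_coeff _ ⟨3, rfl⟩, qe6, PowerSeries.coeff_mk]
  by_cases hn : n = 0
  · simp [hn]
  · norm_num [hn, show bernoulli 6 = 1 / 42 by decide +kernel]

theorem qe_qq (τ : ℍ) : Function.Periodic.qParam 1 (τ : ℂ) = qq τ := by
  simp [Function.Periodic.qParam, qq]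

theorem qe_QS4 : QS (fun τ => E₄ τ) (qExpansion 1 E₄) := by
  intro τ
  have h := ModularForm.hasSum_qExpansion (h := 1) E₄ one_pos one_mem_strictPeriods_SL τ
  rw [qe_qq] at h
  exact h

theorem qe_QS6 : QS (fun τ => E₆ τ) (qExpansion 1 E₆) := by
  intro τ
  have h := ModularForm.hasSum_qExpansion (h := 1) E₆ one_pos one_mem_strictPeriods_SL τ
  rw [qe_qq] at h
  exact h

theorem t_QE (hQA : St_QA) : St_QE := by
  obtain ⟨hmul, hadd, hsm, -, -⟩ := hQA
  refine ⟨PowerSeries.map (Int.castRingHom ℂ) qe4,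
    PowerSeries.map (Int.castRingHom ℂ) (qe4 * qe4 * qe4 - qe6 * qe6),
    fun K V => ⟨qe_PP K V _, qe_PP K V _⟩, ?_, ?_⟩
  · rw [qe_map4]; exact qe_QS4
  · rw [map_sub, map_mul, map_mul, map_mul, qe_map4, qe_map6]
    have h4 := qe_QS4
    have h6 := qe_QS6
    have a := hmul _ _ _ _ (hmul _ _ _ _ h4 h4) h4
    have b := hsm _ _ (-1) (hmul _ _ _ _ h6 h6)
    have c := hadd _ _ _ _ a b
    rw [neg_one_smul, ← sub_eq_add_neg] at c
    convert! c using 1
    funext τ
    rw [ModularForm.discriminant_eq_E₄_cube_sub_E₆_sq]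
    ring

end

end Pool.Agent.MU3Q


end

section

/-!
# MU3, block WQ: module LA (helper45)
-/

set_option autoImplicit false

namespace Pool.Agent.MU3Q

namespace LA45

/-- apply a `K`-linear map to the coefficients -/
noncomputable def app {K : Subfield ℂ} (l : ℂ →ₗ[K] K) (u : PowerSeries ℂ) : PowerSeries ℂ :=
  PowerSeries.mk fun n => ((l (PowerSeries.coeff n u) : K) : ℂ)

theorem coeff_app {K : Subfield ℂ} (l : ℂ →ₗ[K] K) (u : PowerSeries ℂ) (n : ℕ) :
    PowerSeries.coeff n (app l u) = ((l (PowerSeries.coeff n u) : K) : ℂ) := by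
  unfold app
  rw [PowerSeries.coeff_mk]

theorem l_mul {K : Subfield ℂ} (l : ℂ →ₗ[K] K) (x s : ℂ) (hs : s ∈ K) :
    ((l (x * s) : K) : ℂ) = ((l x : K) : ℂ) * s := by
  have h1 : x * s = (⟨s, hs⟩ : K) • x := by
    rw [mul_comm]
    rfl
  rw [h1, map_smul, smul_eq_mul]
  push_cast
  rw [mul_comm]

theorem app_mul {K : Subfield ℂ} (l : ℂ →ₗ[K] K) (u S : PowerSeries ℂ)
    (hS : ∀ n, PowerSeries.coeff n S ∈ K) : app l (u * S) = app l u * S := by
  ext n
  rw [coeff_app, PowerSeries.coeff_mul, PowerSeries.coeff_mul, map_sum]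
  push_cast
  refine Finset.sum_congr rfl fun x _ => ?_
  rw [coeff_app, l_mul l _ _ (hS x.2)]

theorem exists_q {K : Subfield ℂ} {V : ValuationSubring ℂ} (x : ℂ) (hx : x ∈ K) :
    ∃ q : ℂ, q ∈ K ∧ q ∈ V ∧ q ≠ 0 ∧ q * x ∈ V := by
  by_cases h : x ∈ V
  · exact ⟨1, K.one_mem, V.one_mem, one_ne_zero, by rwa [one_mul]⟩
  · have h0 : x ≠ 0 := by
      rintro rfl
      exact h V.zero_mem
    have h1 : x⁻¹ ∈ V := (V.mem_or_inv_mem x).resolve_left h
    exact ⟨x⁻¹, K.inv_mem hx, h1, inv_ne_zero h0, by rw [inv_mul_cancel₀ h0]; exact V.one_mem⟩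

theorem bdd {K : Subfield ℂ} {V : ValuationSubring ℂ} (l : ℂ →ₗ[K] K) (u : PowerSeries ℂ)
    (hu : u ∈ RS K V) : ∀ c : ℂ, ∃ q : ℂ, q ∈ K ∧ q ∈ V ∧ q ≠ 0 ∧
      ∀ n, q * ((l (c * PowerSeries.coeff n u) : K) : ℂ) ∈ V := by
  unfold RS at hu
  induction hu using Submodule.span_induction with
  | mem u hu =>
    intro c
    obtain ⟨q, hqK, hqV, hq0, hq⟩ := exists_q (V := V) ((l c : K) : ℂ) (l c).2
    refine ⟨q, hqK, hqV, hq0, fun n => ?_⟩
    rw [l_mul l c _ (hu n).1, ← mul_assoc]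
    exact V.mul_mem _ _ hq (hu n).2
  | zero =>
    intro c
    refine ⟨1, K.one_mem, V.one_mem, one_ne_zero, fun n => ?_⟩
    rw [map_zero, mul_zero, map_zero]
    simp
  | add u v _ _ hu hv =>
    intro c
    obtain ⟨q, hqK, hqV, hq0, hq⟩ := hu c
    obtain ⟨q', hqK', hqV', hq0', hq'⟩ := hv c
    refine ⟨q * q', K.mul_mem hqK hqK', V.mul_mem _ _ hqV hqV', mul_ne_zero hq0 hq0', fun n => ?_⟩
    rw [map_add, mul_add, map_add]
    push_cast
    have e : q * q' * (((l (c * PowerSeries.coeff n u) : K) : ℂ) +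
        ((l (c * PowerSeries.coeff n v) : K) : ℂ)) =
        q' * (q * ((l (c * PowerSeries.coeff n u) : K) : ℂ)) +
        q * (q' * ((l (c * PowerSeries.coeff n v) : K) : ℂ)) := by ring
    rw [e]
    exact V.add_mem _ _ (V.mul_mem _ _ hqV' (hq n)) (V.mul_mem _ _ hqV (hq' n))
  | smul a u _ hu =>
    intro c
    obtain ⟨q, hqK, hqV, hq0, hq⟩ := hu (c * a)
    refine ⟨q, hqK, hqV, hq0, fun n => ?_⟩
    have e : c * PowerSeries.coeff n (a • u) = c * a * PowerSeries.coeff n u := by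
      rw [PowerSeries.coeff_smul, smul_eq_mul, mul_assoc]
    rw [e]
    exact hq n

end LA45

open _root_.Pool.Agent.MU3Q.LA45 in
/-- (LA) -/
theorem t_LA : St_LA := by
  intro K V S A' B' hS hA hB hA0 hAB
  obtain ⟨n₀, hn₀⟩ : ∃ n, PowerSeries.coeff n A' ≠ 0 := by
    by_contra hc
    push Not at hc
    exact hA0 (PowerSeries.ext fun n => by rw [hc n, map_zero])
  obtain ⟨l, hl⟩ : ∃ l : ℂ →ₗ[K] K, l (PowerSeries.coeff n₀ A') ≠ 0 := by
    by_contra hc
    push Not at hc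
    exact hn₀ ((Module.forall_dual_apply_eq_zero_iff K (PowerSeries.coeff n₀ A')).1 hc)
  obtain ⟨q, hqK, hqV, hq0, hq⟩ := bdd l A' hA 1
  obtain ⟨q', hqK', hqV', hq0', hq'⟩ := bdd l B' hB 1
  refine ⟨(q * q') • app l A', fun n => ⟨?_, ?_⟩, (q * q') • app l B', fun n => ⟨?_, ?_⟩, ?_, ?_⟩
  · rw [PowerSeries.coeff_smul, smul_eq_mul, coeff_app]
    exact K.mul_mem (K.mul_mem hqK hqK') (l _).2
  · rw [PowerSeries.coeff_smul, smul_eq_mul, coeff_app]
    have h1 := hq n
    rw [one_mul] at h1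
    rw [mul_comm q q', mul_assoc]
    exact V.mul_mem _ _ hqV' h1
  · rw [PowerSeries.coeff_smul, smul_eq_mul, coeff_app]
    exact K.mul_mem (K.mul_mem hqK hqK') (l _).2
  · rw [PowerSeries.coeff_smul, smul_eq_mul, coeff_app]
    have h1 := hq' n
    rw [one_mul] at h1
    rw [mul_assoc]
    exact V.mul_mem _ _ hqV h1
  · intro h
    have h1 := congrArg (PowerSeries.coeff n₀) h
    rw [PowerSeries.coeff_smul, smul_eq_mul, coeff_app, map_zero, mul_eq_zero] at h1
    rcases h1 with h1 | h1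
    · exact mul_ne_zero hq0 hq0' h1
    · exact hl (Subtype.ext h1)
  · rw [smul_mul_assoc, ← app_mul l A' S hS, hAB]

end Pool.Agent.MU3Q


end
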