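import Mathlib
import Pool.Agent.MVF.C021
import Pool.Agent.MVF.C025
import Pool.Agent.MVF.C026
import Pool.Agent.MVF.C031
import Pool.Agent.MVF.C035
import Pool.Agent.MVF.C037
import Pool.Agent.MVF.C039
import Pool.Agent.MVF.C040
import Pool.Agent.MVF.C066
import Pool.Agent.MVF.C067

/-! Parts: NS.RN_RAM, MU3.Q_ODEK, MUX.StWX2, MUX.I_TSH, MU3.I_ILAY, MUX.I_CHI, MUX.K_NCP, MUX.J_ROT, MUX.J_RAM, MUX.J_LDX -/

namespace Pool.Agent.MU3I.Ilay
end Pool.Agent.MU3I.Ilay
namespace Pool.Agent.MUXI.TSH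
end Pool.Agent.MUXI.TSH
namespace Pool.Agent.MUXJ.JRAM
end Pool.Agent.MUXJ.JRAM
namespace Pool.Agent.MUXJ.Rot
end Pool.Agent.MUXJ.Rot

section

/-!
# MUX-NS, block RN, module RAM (helper44): a finite Galois extension with trivial inertia group is
unramified. The argument is that of `Pool/Agent/MUX/E_RAM.lean` (helper72).
-/

set_option autoImplicit false

open WeierstrassCurve Polynomial NumberField IsDedekindDomain

namespace Pool.Agent.NSR

open _root_.MU3 _root_.Pool.Agent.MU3A _root_.Pool.Agent.MU3B _root_.Pool.Agent.RI _root_.Pool.Agent.MUX _root_.Pool.Agent.MUXU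
open _root_.Pool.Agent.MUXV (GR InK tX)
open _root_.Pool.Agent.NS

noncomputable section

open _root_.Pool.Agent.MUXE.RamE _root_.Pool.Agent.MU3E.RAM in
theorem tr_RAM : Sr_RAM := by
  intro A B V P ϖ hCQ hPp hP0 hV hϖ hϖ2 F _ _ htriv y hy hy0
  obtain ⟨⟨φ, hφ⟩, hinj, hded, hpos, hint⟩ := Pool.Agent.MUXE.te_RNG A B hCQ
  have hlt : ∀ x : OO A B, V.valuation (emb x) < 1 ↔ x ∈ P := fun x =>
    (ValuationSubring.mem_nonunits_iff (A := V)).symm.trans (hV x)
  have hϖ0 : ϖ ≠ 0 := by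
    rintro rfl
    exact hϖ2 (Ideal.zero_mem _)
  have hw0 : _root_.IsIntegral ℤ (wC A B) := by
    rw [hint _ (wC_mem A B)]
    exact ⟨⟨0, 1⟩, by simp [emb]⟩
  have hfd : FiniteDimensional ℚ (kk A B) :=
    IntermediateField.adjoin.finiteDimensional hw0.tower_top
  have hk : NumberField (kk A B) := ⟨⟩
  have hFQ : FiniteDimensional ℚ F := FiniteDimensional.trans ℚ (kk A B) F
  have hF : NumberField F := ⟨⟩
  have hIn : ∀ x : OO A B, _root_.IsIntegral ℤ (ek x) := by
    intro x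
    have h2 : _root_.IsIntegral ℤ (emb x) := (hint (emb x) (_root_.Pool.Agent.MU3A.emb_mem x)).mpr ⟨x, rfl⟩
    have h3 : algebraMap (kk A B) ℂ (ek x) = emb x := rfl
    rw [← h3] at h2
    exact (isIntegral_algebraMap_iff (FaithfulSMul.algebraMap_injective (kk A B) ℂ)).mp h2
  -- the ring isomorphism
  let e : OO A B →+* 𝓞 (kk A B) :=
    { toFun := fun x => ⟨ek x, hIn x⟩
      map_one' := by
        apply RingOfIntegers.ext
        apply Subtype.ext
        change emb 1 = 1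
        rw [← hφ, map_one]
      map_mul' := by
        intro a b
        apply RingOfIntegers.ext
        apply Subtype.ext
        change emb (a * b) = emb a * emb b
        rw [← hφ, ← hφ, ← hφ, map_mul]
      map_zero' := by
        apply RingOfIntegers.ext
        apply Subtype.ext
        change emb 0 = 0
        rw [← hφ, map_zero]
      map_add' := by
        intro a b
        apply RingOfIntegers.ext
        apply Subtype.ext
        change emb (a + b) = emb a + emb b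
        rw [← hφ, ← hφ, ← hφ, map_add] }
  have he : ∀ x, (((e x : 𝓞 (kk A B)) : kk A B) : ℂ) = emb x := fun x => rfl
  have hesurj : Function.Surjective e := by
    intro x
    have h2 : _root_.IsIntegral ℤ ((x : kk A B) : ℂ) :=
      (RingOfIntegers.isIntegral_coe x).map (Algebra.ofId (kk A B) ℂ |>.restrictScalars ℤ)
    obtain ⟨z, hz⟩ := (hint _ (x : kk A B).2).mp h2
    refine ⟨z, ?_⟩
    apply RingOfIntegers.ext
    apply Subtype.ext
    rw [he, hz]
  have heinj : Function.Injective e := by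
    rw [injective_iff_map_eq_zero]
    intro x hx
    apply hinj
    rw [← he, hx]
    rfl
  have hϖne : emb ϖ ≠ 0 := fun h => hϖ0 (hinj ϖ h)
  have hcoe : algebraMap F ℂ ((algebraMap (𝓞 (kk A B)) (𝓞 F) (e ϖ) : 𝓞 F) : F) = emb ϖ := rfl
  obtain ⟨w, hw⟩ := exists_prime (V := V) (algebraMap F ℂ)
    (z := algebraMap (𝓞 (kk A B)) (𝓞 F) (e ϖ)) (by
      intro h
      apply hϖne
      rw [← hcoe, h]
      exact map_zero _) (by
      rw [hcoe]
      exact (hlt ϖ).2 hϖ)
  have hcomap : (w.asIdeal.under (𝓞 (kk A B))).comap e = P := by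
    ext z
    have hxw : z ∈ (w.asIdeal.under (𝓞 (kk A B))).comap e ↔ V.valuation (emb z) < 1 := by
      exact hw (algebraMap (𝓞 (kk A B)) (𝓞 F) (e z))
    rw [hxw]
    exact hlt z
  have hmap : P.map e = w.asIdeal.under (𝓞 (kk A B)) := by
    rw [← hcomap]
    exact Ideal.map_comap_of_surjective e hesurj _
  have hq1 : e ϖ ∈ w.asIdeal.under (𝓞 (kk A B)) := by
    rw [← hmap]
    exact Ideal.mem_map_of_mem e hϖ
  have hq2 : e ϖ ∉ (w.asIdeal.under (𝓞 (kk A B))) ^ 2 := by
    rw [← hmap, ← Ideal.map_pow, Ideal.mem_map_iff_of_surjective e hesurj]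
    rintro ⟨z, hz, hz2⟩
    rw [heinj hz2] at hz
    exact hϖ2 hz
  have hord := unramP (algebraMap F ℂ) hw hq1 hq2 (by
    intro σ hσ
    apply htriv σ
    intro x hx
    exact hσ x hx)
  obtain ⟨n, hn⟩ := pow_unif (algebraMap F ℂ) hw hord (x := (⟨y, hy⟩ : F))
    (fun h => hy0 (congrArg Subtype.val h))
  refine ⟨n, ?_⟩
  have h5 : (algebraMap F ℂ) (algebraMap (kk A B) F ((e ϖ : 𝓞 (kk A B)) : kk A B)) = emb ϖ := rfl
  rw [h5] at hn
  exact hn

end

end Pool.Agent.NSR


end

section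

/-!
# MU3, block WQ: module ODEK, the coefficients of a solution of the differential equation
-/

set_option autoImplicit false

namespace Pool.Agent.MU3Q

open PowerSeries

noncomputable section

namespace Q_ODEK

/-- The power series with coefficients in `K`. -/
def KS (K : Subfield ℂ) : Subring (PowerSeries ℂ) := (PowerSeries.map K.subtype).range

lemma mem_KS (K : Subfield ℂ) (u : PowerSeries ℂ) :
    u ∈ KS K ↔ ∀ n, PowerSeries.coeff n u ∈ K := by
  constructor
  · rintro ⟨v, rfl⟩ n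
    rw [PowerSeries.coeff_map]
    exact (PowerSeries.coeff n v).2
  · intro h
    refine ⟨PowerSeries.mk fun n => (⟨PowerSeries.coeff n u, h n⟩ : K), ?_⟩
    ext n
    rw [PowerSeries.coeff_map, PowerSeries.coeff_mk]
    rfl

lemma coeff_thetaD (S : PowerSeries ℂ) (n : ℕ) :
    PowerSeries.coeff n (thetaD S) = (n : ℂ) * PowerSeries.coeff n S := by
  rw [thetaD, PowerSeries.coeff_mk]

lemma thetaD_mem {K : Subfield ℂ} {u : PowerSeries ℂ} (hu : u ∈ KS K) : thetaD u ∈ KS K := by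
  rw [mem_KS] at *
  intro n
  rw [coeff_thetaD]
  exact mul_mem (natCast_mem K n) (hu n)

lemma C_mem {K : Subfield ℂ} {a : ℂ} (ha : a ∈ K) : PowerSeries.C a ∈ KS K := by
  rw [mem_KS]
  intro n
  rw [PowerSeries.coeff_C]
  split_ifs
  · exact ha
  · exact zero_mem K

lemma step (K : Subfield ℂ) (a2 a4 a6 : ℂ) (z S : PowerSeries ℂ) (h2 : a2 ∈ K) (h4 : a4 ∈ K)
    (h6 : a6 ∈ K) (hz : ∀ n, PowerSeries.coeff n z ∈ K)
    (hz1 : PowerSeries.coeff 1 z ≠ 0) (hS0 : PowerSeries.coeff 0 S = 0)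
    (hS1 : PowerSeries.coeff 1 S = 0)
    (hS2 : PowerSeries.coeff 2 S = PowerSeries.coeff 1 z ^ 2)
    (hode : thetaD S ^ 2 = 4 * S * (1 + a2 • S + a4 • S ^ 2 + a6 • S ^ 3) * thetaD z ^ 2)
    (k : ℕ) (ih : ∀ m < k + 3, PowerSeries.coeff m S ∈ K) : PowerSeries.coeff (k + 3) S ∈ K := by
  set S' : PowerSeries ℂ := PowerSeries.mk fun m => if m < k + 3 then PowerSeries.coeff m S else 0
    with hS'
  have cS' : ∀ m, PowerSeries.coeff m S' = if m < k + 3 then PowerSeries.coeff m S else 0 :=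
    fun m => PowerSeries.coeff_mk _ _
  have hS'K : S' ∈ KS K := by
    rw [mem_KS]
    intro m
    rw [cS']
    split_ifs with h
    · exact ih m h
    · exact zero_mem K
  -- decompositions
  obtain ⟨R, hR⟩ : (X : PowerSeries ℂ) ^ (k + 3) ∣ S - S' := by
    rw [PowerSeries.X_pow_dvd_iff]
    intro m hm
    rw [map_sub, cS', if_pos hm, sub_self]
  have hR0 : PowerSeries.constantCoeff R = PowerSeries.coeff (k + 3) S := by
    have h := congrArg (PowerSeries.coeff (0 + (k + 3))) hR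
    rw [PowerSeries.coeff_X_pow_mul, map_sub, zero_add, cS', if_neg (lt_irrefl _), sub_zero] at h
    rw [h, PowerSeries.coeff_zero_eq_constantCoeff_apply]
  obtain ⟨Q, hQ⟩ : (X : PowerSeries ℂ) ^ (k + 3) ∣ thetaD S - thetaD S' := by
    rw [PowerSeries.X_pow_dvd_iff]
    intro m hm
    rw [map_sub, coeff_thetaD, coeff_thetaD, cS', if_pos hm, sub_self]
  have hQ0 : PowerSeries.constantCoeff Q = ((k + 3 : ℕ) : ℂ) * PowerSeries.coeff (k + 3) S := by
    have h := congrArg (PowerSeries.coeff (0 + (k + 3))) hQ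
    rw [PowerSeries.coeff_X_pow_mul, map_sub, zero_add, coeff_thetaD, coeff_thetaD, cS',
      if_neg (lt_irrefl _), mul_zero, sub_zero] at h
    rw [h, PowerSeries.coeff_zero_eq_constantCoeff_apply]
  obtain ⟨T, hT⟩ : (X : PowerSeries ℂ) ^ 2 ∣ thetaD S' := by
    rw [PowerSeries.X_pow_dvd_iff]
    intro m hm
    rw [coeff_thetaD, cS', if_pos (by omega)]
    rcases (show m = 0 ∨ m = 1 by omega) with rfl | rfl
    · rw [hS0, mul_zero]
    · rw [hS1, mul_zero]
  have hT0 : PowerSeries.constantCoeff T = 2 * PowerSeries.coeff 1 z ^ 2 := by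
    have h := congrArg (PowerSeries.coeff (0 + 2)) hT
    rw [PowerSeries.coeff_X_pow_mul, zero_add, coeff_thetaD, cS', if_pos (by omega), hS2] at h
    rw [← PowerSeries.coeff_zero_eq_constantCoeff_apply, ← h]
    norm_num
  obtain ⟨W, hW⟩ : (X : PowerSeries ℂ) ^ 1 ∣ thetaD z := by
    rw [PowerSeries.X_pow_dvd_iff]
    intro m hm
    obtain rfl : m = 0 := by omega
    rw [coeff_thetaD, Nat.cast_zero, zero_mul]
  have hW0 : PowerSeries.constantCoeff W = PowerSeries.coeff 1 z := by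
    have h := congrArg (PowerSeries.coeff (0 + 1)) hW
    rw [PowerSeries.coeff_X_pow_mul, zero_add, coeff_thetaD] at h
    rw [← PowerSeries.coeff_zero_eq_constantCoeff_apply, ← h]
    norm_num
  have hSc : PowerSeries.constantCoeff S = 0 := by
    rw [← PowerSeries.coeff_zero_eq_constantCoeff_apply, hS0]
  have hS'c : PowerSeries.constantCoeff S' = 0 := by
    rw [← PowerSeries.coeff_zero_eq_constantCoeff_apply, cS', if_pos (by omega), hS0]
  simp only [PowerSeries.smul_eq_C_mul] at hode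
  set G : PowerSeries ℂ := 1 + C a2 * (S + S') + C a4 * (S ^ 2 + S * S' + S' ^ 2) +
    C a6 * (S ^ 3 + S ^ 2 * S' + S * S' ^ 2 + S' ^ 3) with hG
  have hG0 : PowerSeries.constantCoeff G = 1 := by
    rw [hG]
    simp [hSc, hS'c]
  have key : thetaD S' ^ 2 -
      4 * S' * (1 + C a2 * S' + C a4 * S' ^ 2 + C a6 * S' ^ 3) * thetaD z ^ 2 =
      X ^ (k + 5) * (4 * R * G * W ^ 2 - 2 * Q * T - X ^ (k + 1) * Q ^ 2) := by
    have e1 : thetaD S = thetaD S' + X ^ (k + 3) * Q := by rw [← hQ]; ring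
    have e2 : thetaD S' ^ 2 = thetaD S ^ 2 - 2 * (X ^ (k + 3) * Q) * (X ^ 2 * T) -
        (X ^ (k + 3) * Q) ^ 2 := by
      rw [← hT, e1]
      ring
    have e3 : 4 * S' * (1 + C a2 * S' + C a4 * S' ^ 2 + C a6 * S' ^ 3) =
        4 * S * (1 + C a2 * S + C a4 * S ^ 2 + C a6 * S ^ 3) - 4 * (X ^ (k + 3) * R) * G := by
      rw [← hR, hG]
      ring
    rw [e2, e3, hode, hW]
    ring
  have hmem : thetaD S' ^ 2 -
      4 * S' * (1 + C a2 * S' + C a4 * S' ^ 2 + C a6 * S' ^ 3) * thetaD z ^ 2 ∈ KS K := by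
    have hzK : z ∈ KS K := (mem_KS K z).2 hz
    have h4K : (4 : PowerSeries ℂ) ∈ KS K := by
      have := natCast_mem (KS K) 4
      simpa using this
    exact sub_mem (pow_mem (thetaD_mem hS'K) 2) (mul_mem (mul_mem (mul_mem h4K hS'K)
      (add_mem (add_mem (add_mem (one_mem _) (mul_mem (C_mem h2) hS'K))
        (mul_mem (C_mem h4) (pow_mem hS'K 2))) (mul_mem (C_mem h6) (pow_mem hS'K 3))))
      (pow_mem (thetaD_mem hzK) 2))
  rw [key] at hmem
  have hc := (mem_KS K _).1 hmem (0 + (k + 5))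
  rw [PowerSeries.coeff_X_pow_mul, PowerSeries.coeff_zero_eq_constantCoeff_apply] at hc
  have hval : PowerSeries.constantCoeff (4 * R * G * W ^ 2 - 2 * Q * T - X ^ (k + 1) * Q ^ 2) =
      -(4 * ((k : ℂ) + 2) * PowerSeries.coeff 1 z ^ 2) * PowerSeries.coeff (k + 3) S := by
    have e4 : PowerSeries.constantCoeff (4 : PowerSeries ℂ) = 4 := by
      have := map_natCast (PowerSeries.constantCoeff (R := ℂ)) 4
      simpa using this
    have e5 : PowerSeries.constantCoeff (2 : PowerSeries ℂ) = 2 := by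
      have := map_natCast (PowerSeries.constantCoeff (R := ℂ)) 2
      simpa using this
    rw [map_sub, map_sub, map_mul, map_mul, map_mul, map_mul, map_mul, map_mul, map_pow,
      map_pow, map_pow, e4, e5, hR0, hG0, hW0, hQ0, hT0, PowerSeries.constantCoeff_X,
      zero_pow (by omega)]
    push_cast
    ring
  rw [hval] at hc
  have hne : -(4 * ((k : ℂ) + 2) * PowerSeries.coeff 1 z ^ 2) ≠ 0 := by
    have hk : (k : ℂ) + 2 ≠ 0 := by
      have : ((k + 2 : ℕ) : ℂ) ≠ 0 := Nat.cast_ne_zero.2 (by omega)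
      push_cast at this
      exact this
    exact neg_ne_zero.2 (mul_ne_zero (mul_ne_zero (by norm_num) hk) (pow_ne_zero 2 hz1))
  have hcK : -(4 * ((k : ℂ) + 2) * PowerSeries.coeff 1 z ^ 2) ∈ K := by
    have h1 : ((4 : ℕ) : ℂ) ∈ K := natCast_mem K 4
    have h3 : (k : ℂ) + ((2 : ℕ) : ℂ) ∈ K := add_mem (natCast_mem K k) (natCast_mem K 2)
    push_cast at h1 h3
    exact neg_mem (mul_mem (mul_mem h1 h3) (pow_mem (hz 1) 2))
  have hfin := K.div_mem hc hcK
  rwa [mul_div_cancel_left₀ _ hne] at hfin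

end Q_ODEK

/-- ODEK. -/
theorem t_ODEK : St_ODEK := by
  intro K a2 a4 a6 z S h2 h4 h6 hz _ hz1 hS0 hS1 hS2 hode n
  induction n using Nat.strong_induction_on with
  | _ n ih =>
    rcases (show n = 0 ∨ n = 1 ∨ n = 2 ∨ ∃ k, n = k + 3 by
      rcases Nat.lt_or_ge n 3 with h | h
      · omega
      · exact Or.inr (Or.inr (Or.inr ⟨n - 3, by omega⟩))) with rfl | rfl | rfl | ⟨k, rfl⟩
    · rw [hS0]; exact zero_mem K
    · rw [hS1]; exact zero_mem K
    · rw [hS2]; exact pow_mem (hz 1) 2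
    · exact Q_ODEK.step K a2 a4 a6 z S h2 h4 h6 hz hz1 hS0 hS1 hS2 hode k ih

end

end Pool.Agent.MU3Q


end

section

/-!
# MUX, block W, part 2 (helper59): half systems of `XX`
-/

set_option autoImplicit false

open WeierstrassCurve Polynomial NumberField IsDedekindDomain

namespace Pool.Agent.MUXW

open _root_.MU3 _root_.Pool.Agent.MU3A _root_.Pool.Agent.MU3B _root_.Pool.Agent.MU3C _root_.Pool.Agent.RI _root_.Pool.Agent.RID
open _root_.Pool.Agent.MUX _root_.Pool.Agent.MUXU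
open _root_.Pool.Agent.MU3V (cls Sub GD)
open _root_.Pool.Agent.MUXV (GR InK tX CMO Ovr)

noncomputable section

/-- (CXS) `cWt h θ τ` is the product of `Θ_a` over one half of `XX R m h τ` (block E, `p = 2` and `3`).

Uses Sy_HIT, Sy_THG, Sy_MEM, Su_DET. PROOF. `L = R.L R.i0`, `F = RF (idl m)`. For every automorphism `σ` of `F/k` which extends `τ` choose an extension `s ∈ Aut(ℂ/k)` of `σ` (`T.ext` for the field `F` restricted to `ℚ`, or AUE) and a pair `(i, x)` with `Hits R m s i x` (HIT); `S` = the set of the `(i, cls x)`. `s` extends `τ` as well, so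
`S ⊆ XX R m h τ`, and `XX R m h τ = S ∪ -S`: if `s'` extends `τ` and hits `(j, y)`, its restriction to `F` (`F/k` normal) is one of the `σ`, and `Hits R m s' j y ↔ Hits R m s j y` (`Hits` only depends on the values of `s` at `kap L`, `xn L (pt 1) ∈ F`), so `j = i`, `y ≡ ± x` (HIT). `(i, -x) ∉ S` and the map `σ ↦ (i, cls x)` is injective: let `s`, `s'` (for `σ`, `σ'`)
hit `(i, x)` and `(i, ± x)`: then `t = s⁻¹ s'` fixes `kap L` and `xn L (pt R m i0 1)`; `T.act` for `t`: ideal `a`, `L'`, `mu`; `kap L' = kap L`, both normalised: the same lattice (DET), `mu = emb c`, `a = (c)` (as in KER), `xn L (c om/m) = xn L (om/m)`, so `c ≡ ± 1` modulo `m` (`b_NEQ`), so `t` is trivial on `F` (`T.triv`): `σ = σ'`. If both are the same `σ` then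
`x ≡ - x` modulo `m` is excluded (`¬ m ∣ 2 x`, HIT). The factor of `(i, cls x)` in the product is `Θ_a(pt R m i x; L_i) = σ(θ)` (THG; `Θ_a` is even and periodic, `b_TIN`: the representative `Quotient.out` of the class of `x` does not matter). -/
def Sy_CXS : Prop :=
  ∀ A B : ℤ, CQ A B → TorX A B → ∀ (n : ℕ) (ι : Type) (R : Reps A B n ι) (m : ℕ), m ≠ 0 →
    (∀ i, (nI (R.b i)).Coprime m) → ¬ ((m : ℕ) : OO A B) ∣ 2 →
    ∀ (a : ℕ) (H : ι → Finset ℂ), a ≠ 0 → a.Coprime m → (∀ i, IsHalf (R.L i) a (H i)) →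
    ∀ θ : (RF (idl m) : IntermediateField (kk A B) ℂ),
    (θ : ℂ) = ThetaH (R.L R.i0) (H R.i0) (Pool.Agent.MUX.pt R m R.i0 1) →
    ∀ (D : IntermediateField ℚ ℂ) (h : kk A B ≤ D),
    _root_.Pool.Agent.MU3V.Sub D (RF (idl m) : IntermediateField (kk A B) ℂ) → letI := algC h
    ∀ τ : D ≃ₐ[kk A B] D, ∃ S : Finset (ι × (OO A B ⧸ idl (A := A) (B := B) m)),
      (∀ q, q ∈ _root_.Pool.Agent.MUX.XX R m h τ ↔ q ∈ S ∨ (q.1, -q.2) ∈ S) ∧ (∀ q ∈ S, (q.1, -q.2) ∉ S) ∧
      cWt h θ τ = ∏ q ∈ S, ThetaH (R.L q.1) (H q.1)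
        (Pool.Agent.MUX.pt R m q.1 (Quotient.out q.2))

end

end Pool.Agent.MUXW


end

section

/-!
# MUX, block IX: the sums of the logarithmic derivatives (TSH)
-/

set_option autoImplicit false

namespace Pool.Agent.MUXI

open _root_.MU3 _root_.Pool.Agent.MU3 _root_.Pool.Agent.MU3A _root_.Pool.Agent.MU3B _root_.Pool.Agent.RI _root_.Pool.Agent.RID
  _root_.Pool.Agent.MUX _root_.Pool.Agent.MUXE _root_.Pool.Agent.MUXK
open _root_.Pool.Agent.MU3I (w3 zt)

noncomputable section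

namespace TSH

variable {A B : ℤ}

/-- periodic functions -/
def Per (m : OO A B) (F : OO A B → ℂ) : Prop := ∀ x y, x - y ∈ Ideal.span {m} → F x = F y

lemma sumMod_mul {m a : OO A B} (ha : IsCoprime a m) {F : OO A B → ℂ} (hF : Per m F) :
    sumMod m (fun x => F (a * x)) = sumMod m F := by
  obtain ⟨u, v, huv⟩ := ha
  have h1 : Ideal.Quotient.mk (Ideal.span {m}) a * Ideal.Quotient.mk (Ideal.span {m}) u = 1 := by
    rw [← map_mul, ← map_one (Ideal.Quotient.mk (Ideal.span {m})), Ideal.Quotient.eq,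
      Ideal.mem_span_singleton]
    exact ⟨-v, by linear_combination huv⟩
  let e : (OO A B ⧸ Ideal.span {m}) ≃ (OO A B ⧸ Ideal.span {m}) :=
    (Units.mkOfMulEqOne _ _ h1).mulLeft
  unfold sumMod
  rw [← finsum_comp_equiv (f := fun q : OO A B ⧸ Ideal.span {m} => F (Quotient.out q)) e]
  refine finsum_congr fun q => ?_
  refine hF _ _ ?_
  rw [← Ideal.Quotient.eq, map_mul, Ideal.Quotient.mk_out]
  have h2 : Ideal.Quotient.mk (Ideal.span {m}) (Quotient.out (e q)) = e q :=
    Ideal.Quotient.mk_out _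
  rw [h2]
  rfl

lemma sumMod_sub {m : OO A B} (_ : Finite (OO A B ⧸ Ideal.span {m})) (F F' : OO A B → ℂ) :
    sumMod m (fun x => F x - F' x) = sumMod m F - sumMod m F' := by
  unfold sumMod
  exact finsum_sub_distrib (Set.toFinite _) (Set.toFinite _)

lemma sumMod_cmul {m : OO A B} (c : ℂ) (F : OO A B → ℂ) :
    sumMod m (fun x => c * F x) = c * sumMod m F := by
  unfold sumMod
  exact (mul_finsum _ _).symm

lemma nat_dvd_iff (n : ℕ) (x : OO A B) :
    ((n : ℕ) : OO A B) ∣ x ↔ (n : ℤ) ∣ x.re ∧ (n : ℤ) ∣ x.im := by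
  constructor
  · rintro ⟨t, rfl⟩
    refine ⟨⟨t.re, ?_⟩, ⟨t.im, ?_⟩⟩
    · rw [QuadraticAlgebra.re_mul]; simp
    · rw [QuadraticAlgebra.im_mul]; simp
  · rintro ⟨⟨s, hs⟩, ⟨t, ht⟩⟩
    refine ⟨⟨s, t⟩, ?_⟩
    apply QuadraticAlgebra.ext
    · rw [QuadraticAlgebra.re_mul]; simp [hs]
    · rw [QuadraticAlgebra.im_mul]; simp [ht]

lemma nm_per (N : ℕ) {x y : OO A B} (h : x - y ∈ idl (A := A) (B := B) N) :
    (N : ℤ) ∣ nm x - nm y := by
  rw [Ideal.mem_span_singleton, nat_dvd_iff, QuadraticAlgebra.re_sub, QuadraticAlgebra.im_sub] at h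
  obtain ⟨⟨s, hs⟩, ⟨t, ht⟩⟩ := h
  have h1 : x.re = y.re + N * s := by linarith
  have h2 : x.im = y.im + N * t := by linarith
  refine ⟨2 * y.re * s + N * s ^ 2 + B * (y.re * t + s * y.im + N * s * t) -
    A * (2 * y.im * t + N * t ^ 2), ?_⟩
  unfold nm
  rw [h1, h2]
  ring

lemma cop_nat (p f n : ℕ) (hpq : p ∣ q0 p) : (aX p f).Coprime (lvX p f n) := by
  unfold aX lvX
  have h0 : (1 + 2 * q0 p * f).Coprime (q0 p) := by
    have h1 : 1 + 2 * q0 p * f = 1 + (2 * f) * q0 p := by ring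
    rw [h1, Nat.coprime_add_mul_right_left]
    exact Nat.coprime_one_left _
  refine Nat.Coprime.mul_right (Nat.Coprime.mul_right ?_ h0) (Nat.Coprime.pow_right _ ?_)
  · rw [Nat.coprime_add_mul_right_left]
    exact Nat.coprime_one_left f
  · exact Nat.Coprime.coprime_dvd_right hpq h0

end TSH

open _root_.Pool.Agent.MUXI.TSH in
theorem ti_TSH (h1 : Si_PTP) (h2 : Si_PQF) (h3 : Pool.Agent.MUXF.Sx_ALG) : Si_TSH := by
  intro p A B P V f hS ι R n e he i t
  have hCQ : CQ A B := hS.case.toCQ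
  obtain ⟨alg1, alg2, alg3, alg4, -⟩ := h3 A B (Pool.Agent.MUXY.cqF hCQ)
  obtain ⟨-, -, -, pq4, -⟩ := h2 p A B P V f hS
  have hpq : p ∣ q0 p := by
    unfold q0
    split_ifs with h
    · rw [h]; norm_num
    · exact dvd_rfl
  have hp0 : p ≠ 0 := by
    rcases hS.case.split with h | h
    · rw [h.1]; norm_num
    · rw [h.1]; norm_num
  have hq0 : q0 p ≠ 0 := by
    unfold q0
    split_ifs with h
    · norm_num
    · exact hp0
  have hm0 : lvX p f n ≠ 0 := mul_ne_zero (mul_ne_zero hS.f0 hq0) (pow_ne_zero _ hp0)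
  obtain ⟨ptp1, ptp2⟩ := h1 A B hCQ (p * f) ι R (lvX p f n) hm0 i
  have hmO : ((lvX p f n : ℕ) : OO A B) ≠ 0 := by
    intro h0
    have h5 := (alg3 (lvX p f n : ℤ)).1
    rw [Int.cast_natCast, h0, (alg2 0).1.2 rfl] at h5
    apply hm0
    exact_mod_cast h5.symm
  have hfin : Finite (OO A B ⧸ Ideal.span {((lvX p f n : ℕ) : OO A B)}) := by
    apply alg4
    rw [Ne, Ideal.span_singleton_eq_bot]
    exact hmO
  have hmM : lvX p f n = f * (q0 p * p ^ n) := by unfold lvX; ring
  have hcN := cop_nat p f n hpq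
  have hcZ : IsCoprime ((aX p f : ℕ) : ℤ) ((lvX p f n : ℕ) : ℤ) :=
    Nat.isCoprime_iff_coprime.2 hcN
  have hcO : IsCoprime ((aX p f : ℕ) : OO A B) ((lvX p f n : ℕ) : OO A B) := by
    have h5 := hcZ.map (Int.castRingHom (OO A B))
    simpa using h5
  -- the ideal `idl f * cjI P`
  have hpc : ((p : ℕ) : OO A B) ∈ cjI P := by
    have h5 : ((p : ℕ) : OO A B) ∈ P * cjI P := by
      rw [pq4]
      exact Ideal.mem_span_singleton_self _
    have h6 : P * cjI P ≤ cjI P := Ideal.mul_le_right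
    exact h6 h5
  have hqc : ((q0 p : ℕ) : OO A B) ∈ cjI P := by
    obtain ⟨c, hc⟩ := hpq
    rw [hc, Nat.cast_mul]
    exact Ideal.mul_mem_right _ _ hpc
  have hle : idl (A := A) (B := B) (lvX p f n) ≤ idl f * cjI P := by
    rw [Ideal.span_singleton_le_iff_mem, hmM, Nat.cast_mul]
    have h7 : (f : OO A B) ∈ idl (A := A) (B := B) f :=
      Ideal.mem_span_singleton_self ((f : ℕ) : OO A B)
    have h6 : ((q0 p * p ^ n : ℕ) : OO A B) ∈ cjI P := by
      rw [Nat.cast_mul]
      exact (cjI P).mul_mem_right _ hqc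
    exact Ideal.mul_mem_mul h7 h6
  have hea : ∀ x, e (((aX p f : ℕ) : OO A B) * x) = e x := by
    intro x
    rw [he.mul, he.per ((aX p f : ℕ) : OO A B) 1, he.one, one_mul]
    have h5 : ((aX p f : ℕ) : OO A B) - 1 = (f : OO A B) * ((q0 p : OO A B) * 2) := by
      unfold aX
      push_cast
      ring
    rw [h5]
    have h6 : (q0 p : OO A B) * 2 ∈ cjI P := (cjI P).mul_mem_right 2 hqc
    have h7 : (f : OO A B) ∈ idl (A := A) (B := B) f :=
      Ideal.mem_span_singleton_self ((f : ℕ) : OO A B)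
    exact Ideal.mul_mem_mul h7 h6
  -- the summands
  set F0 : ℤ → OO A B → ℂ := fun c x =>
    if ((q0 p * p ^ n : ℕ) : ℤ) ∣ nm x * nI (R.b i) - c then
      e x * ee (R.L i) (pt R (lvX p f n) i x) else 0 with hF0
  have hMm : ((q0 p * p ^ n : ℕ) : ℤ) ∣ ((lvX p f n : ℕ) : ℤ) :=
    ⟨f, by rw [hmM]; push_cast; ring⟩
  have hper : ∀ c, Per ((lvX p f n : ℕ) : OO A B) (F0 c) := by
    intro c x y hxy
    have h5 : ((q0 p * p ^ n : ℕ) : ℤ) ∣ nm x * nI (R.b i) - nm y * nI (R.b i) := by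
      rw [← sub_mul]
      exact (hMm.trans (nm_per _ hxy)).mul_right _
    have h6 : ((q0 p * p ^ n : ℕ) : ℤ) ∣ nm x * nI (R.b i) - c ↔
        ((q0 p * p ^ n : ℕ) : ℤ) ∣ nm y * nI (R.b i) - c := by
      constructor
      · intro h7
        have := dvd_sub h7 h5
        rwa [sub_sub_sub_cancel_left, show nm y * (nI (R.b i) : ℤ) - c =
          nm y * (nI (R.b i) : ℤ) - c from rfl] at this
      · intro h7
        have := dvd_add h5 h7
        rwa [sub_add_sub_cancel] at this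
    simp only [hF0]
    rw [he.per x y (hle hxy), (ptp1 x y hxy).2.1]
    by_cases h7 : ((q0 p * p ^ n : ℕ) : ℤ) ∣ nm x * nI (R.b i) - c
    · rw [if_pos h7, if_pos (h6.1 h7)]
    · rw [if_neg h7, if_neg (fun h8 => h7 (h6.2 h8))]
  have hcop2 : IsCoprime ((q0 p * p ^ n : ℕ) : ℤ) ((aX p f : ℤ) ^ 2) := by
    have h5 := (hcZ.of_isCoprime_of_dvd_right hMm).symm
    exact h5.pow_right
  have hnma : ∀ x : OO A B, nm (((aX p f : ℕ) : OO A B) * x) = (aX p f : ℤ) ^ 2 * nm x := by
    intro x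
    have h5 := (alg3 (aX p f : ℤ)).2
    rw [Int.cast_natCast] at h5
    rw [(alg1 _ _).2.2, h5]
  have hdv : ∀ x : OO A B, ((q0 p * p ^ n : ℕ) : ℤ) ∣
      nm (((aX p f : ℕ) : OO A B) * x) * nI (R.b i) - (aX p f : ℤ) ^ 2 * t ↔
      ((q0 p * p ^ n : ℕ) : ℤ) ∣ nm x * nI (R.b i) - t := by
    intro x
    rw [hnma, show (aX p f : ℤ) ^ 2 * nm x * (nI (R.b i) : ℤ) - (aX p f : ℤ) ^ 2 * t =
      (aX p f : ℤ) ^ 2 * (nm x * (nI (R.b i) : ℤ) - t) by ring]
    exact ⟨fun h => hcop2.dvd_of_dvd_mul_left h, fun h => h.mul_left _⟩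
  have hS1 : ∀ c, SnX R (lvX p f n) (q0 p * p ^ n) e i c =
      muX R i * sumMod ((lvX p f n : ℕ) : OO A B) (F0 c) := fun c => rfl
  have hS2 : sumMod ((lvX p f n : ℕ) : OO A B) (F0 ((aX p f : ℤ) ^ 2 * t)) =
      sumMod ((lvX p f n : ℕ) : OO A B)
        (fun x => F0 ((aX p f : ℤ) ^ 2 * t) (((aX p f : ℕ) : OO A B) * x)) :=
    (sumMod_mul hcO (hper _)).symm
  rw [hS1, hS1, hS2]
  have key : sumMod ((lvX p f n : ℕ) : OO A B) (fun x =>
      if ((q0 p * p ^ n : ℕ) : ℤ) ∣ nm x * nI (R.b i) - t then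
        e x * dlX (R.L i) (aX p f) (pt R (lvX p f n) i x) else 0) =
      (aX p f : ℂ) * sumMod ((lvX p f n : ℕ) : OO A B)
        (fun x => F0 ((aX p f : ℤ) ^ 2 * t) (((aX p f : ℕ) : OO A B) * x)) -
      (aX p f : ℂ) ^ 2 * sumMod ((lvX p f n : ℕ) : OO A B) (F0 t) := by
    rw [← sumMod_cmul, ← sumMod_cmul, ← sumMod_sub hfin]
    congr 1
    funext x
    simp only [hF0]
    by_cases h7 : ((q0 p * p ^ n : ℕ) : ℤ) ∣ nm x * nI (R.b i) - t
    · rw [if_pos h7, if_pos ((hdv x).2 h7), if_pos h7, hea, ← ptp2]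
      unfold dlX
      ring
    · rw [if_neg h7, if_neg (fun h8 => h7 ((hdv x).1 h8)), if_neg h7]
      ring
  rw [key]
  ring

end

end Pool.Agent.MUXI


end

section

/-!
# MU3, block I, module ILAY: the layer is the real subfield of `ℚ(ζ)`
-/

set_option autoImplicit false

open NumberField Polynomial

namespace Pool.Agent.MU3I

open _root_.Pool.Agent.RI _root_.Pool.Agent.RID

namespace Ilay

/-- subgroups of the same order of a cyclic group are equal -/
lemma sub_eq {G : Type*} [Group G] [Finite G] [IsCyclic G] (S T : Subgroup G)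
    (h : Nat.card S = Nat.card T) : S = T := by
  classical
  have : Fintype G := Fintype.ofFinite G
  have key : ∀ S : Subgroup G, (S : Set G) = {x : G | x ^ Nat.card S = 1} := by
    intro S
    have h1 : (S : Set G) ⊆ {x : G | x ^ Nat.card S = 1} := by
      intro x hx
      have h2 := pow_card_eq_one' (G := S) (x := ⟨x, hx⟩)
      exact congrArg (Subtype.val : S → G) h2
    refine Set.eq_of_subset_of_ncard_le h1 ?_ (Set.toFinite _)
    have h3 := IsCyclic.card_pow_eq_one_le (α := G) (n := Nat.card S) Nat.card_pos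
    have h4 : {x : G | x ^ Nat.card S = 1}.ncard =
        (Finset.univ.filter fun x : G => x ^ Nat.card S = 1).card := by
      rw [← Set.ncard_coe_finset]
      congr 1
      ext x
      simp
    rw [h4]
    refine h3.trans (le_of_eq ?_)
    rfl
  apply SetLike.coe_injective
  rw [key S, key T, h]

/-- subfields of the same degree of a cyclic extension are equal -/
lemma uniq {F E : Type*} [Field F] [Field E] [Algebra F E] (B R D : IntermediateField F E)
    (hB : B ≤ D) (hR : R ≤ D) [FiniteDimensional F D] [IsGalois F D] [IsCyclic (D ≃ₐ[F] D)]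
    (h : Module.finrank F B = Module.finrank F R) : B = R := by
  set B' := IntermediateField.restrict hB with hB'
  set R' := IntermediateField.restrict hR with hR'
  have hb : Module.finrank F B' = Module.finrank F B :=
    (Pool.Agent.FX.fre (IntermediateField.restrictAlgEquiv hB)).symm
  have hr : Module.finrank F R' = Module.finrank F R :=
    (Pool.Agent.FX.fre (IntermediateField.restrictAlgEquiv hR)).symm
  have h1 := Pool.Agent.FX.fmul F B' D
  have h2 := Pool.Agent.FX.fmul F R' D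
  rw [hb, h, ← hr, ← h2] at h1
  have h3 : 0 < Module.finrank F R' := Module.finrank_pos
  have h4 := Nat.eq_of_mul_eq_mul_left h3 h1
  rw [← IsGalois.card_fixingSubgroup_eq_finrank, ← IsGalois.card_fixingSubgroup_eq_finrank] at h4
  have h5 := sub_eq _ _ h4
  have h6 : B' = R' := by
    rw [← IsGalois.fixedField_fixingSubgroup B', ← IsGalois.fixedField_fixingSubgroup R', h5]
  rw [← IntermediateField.lift_restrict hB, ← IntermediateField.lift_restrict hR]
  exact congrArg _ h6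

/-- the degree of the field of `ζ + ζ⁻¹` -/
lemma deg {F E : Type*} [Field F] [Field E] [Algebra F E] (ζ : E) (d : ℕ) (hζ : ζ ≠ 0)
    (h : Module.finrank F (IntermediateField.adjoin F {ζ}) = d * 2)
    (hn : ζ ∉ IntermediateField.adjoin F {ζ + ζ⁻¹}) :
    Module.finrank F (IntermediateField.adjoin F {ζ + ζ⁻¹}) = d := by
  set R := IntermediateField.adjoin F {ζ + ζ⁻¹} with hR
  set a : R := ⟨ζ + ζ⁻¹, IntermediateField.mem_adjoin_simple_self F _⟩ with ha
  have hpm : (X ^ 2 - C a * X + 1 : R[X]).Monic := by monicity!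
  have hpd : (X ^ 2 - C a * X + 1 : R[X]).natDegree = 2 := by compute_degree!
  have hp : aeval ζ (X ^ 2 - C a * X + 1 : R[X]) = 0 := by
    have e : algebraMap R E a = ζ + ζ⁻¹ := rfl
    simp only [map_add, map_sub, map_mul, map_pow, aeval_X, aeval_C, map_one, e]
    field_simp
    ring
  have hint : IsIntegral R ζ := ⟨_, hpm, hp⟩
  have hle : (minpoly R ζ).natDegree ≤ 2 := by
    rw [← hpd]
    exact natDegree_le_of_dvd (minpoly.dvd R ζ hp) hpm.ne_zero
  have hpos : 0 < (minpoly R ζ).natDegree := minpoly.natDegree_pos hint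
  have hne : (minpoly R ζ).natDegree ≠ 1 := by
    intro h1
    rw [minpoly.natDegree_eq_one_iff] at h1
    obtain ⟨y, hy⟩ := h1
    apply hn
    rw [← hy]
    exact y.2
  have h2 : Module.finrank R (IntermediateField.adjoin R {ζ}) = 2 := by
    rw [IntermediateField.adjoin.finrank hint]
    omega
  have h3 : (IntermediateField.adjoin R {ζ}).restrictScalars F = IntermediateField.adjoin F {ζ} := by
    rw [hR, IntermediateField.adjoin_adjoin_left]
    apply le_antisymm
    · rw [IntermediateField.adjoin_le_iff]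
      rintro x (hx | hx)
      · rw [Set.mem_singleton_iff.1 hx]
        have := IntermediateField.mem_adjoin_simple_self F ζ
        exact add_mem this (inv_mem this)
      · rw [Set.mem_singleton_iff.1 hx]
        exact IntermediateField.mem_adjoin_simple_self F ζ
    · exact IntermediateField.adjoin.mono F _ _ Set.subset_union_right
  have h4 := Pool.Agent.FX.fmul F R (IntermediateField.adjoin R {ζ})
  have h5 : Module.finrank F (IntermediateField.adjoin R {ζ}) =
      Module.finrank F (IntermediateField.adjoin F {ζ}) := by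
    rw [← h3]
    rfl
  rw [h2, h5, h] at h4
  omega

/-- the elements fixed by an endomorphism -/
lemma fix_sup {F E : Type*} [Field F] [Field E] [Algebra F E] (c : E →ₐ[F] E)
    (B R : IntermediateField F E) (hB : ∀ x ∈ B, c x = x) (hR : ∀ x ∈ R, c x = x) :
    ∀ x ∈ B ⊔ R, c x = x := by
  let T : IntermediateField F E := (AlgHom.equalizer c (AlgHom.id F E)).toIntermediateField
    (fun x hx => by
      have hx' : c x = x := hx
      show c x⁻¹ = x⁻¹
      rw [map_inv₀, hx'])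
  have h : B ⊔ R ≤ T := sup_le (fun x hx => hB x hx) (fun x hx => hR x hx)
  intro x hx
  exact h hx

lemma zt_prim (M : ℕ) (hM : M ≠ 0) : IsPrimitiveRoot (zt M) M := Complex.isPrimitiveRoot_exp M hM

lemma conj_root {z : ℂ} {N : ℕ} (hN : N ≠ 0) (hz : z ^ N = 1) : (starRingEnd ℂ) z = z⁻¹ := by
  have h1 : ‖z‖ = 1 := Complex.norm_eq_one_of_pow_eq_one hz hN
  rw [Complex.inv_def, Complex.normSq_eq_norm_sq, h1]
  simp

end Ilay

open _root_.Pool.Agent.MU3I.Ilay in
theorem t_ILAY : St_ILAY := by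
  intro n B hB
  obtain ⟨hdeg, hreal, m, hle⟩ := hB
  have hp : Fact (Nat.Prime 3) := ⟨Nat.prime_three⟩
  set j := max m (n + 1) with hj
  have hN : 3 ^ j ≠ 0 := pow_ne_zero _ (by norm_num)
  have hM : 3 ^ (n + 1) ≠ 0 := pow_ne_zero _ (by norm_num)
  set ζ := zt (3 ^ (n + 1)) with hζ
  have hζp : IsPrimitiveRoot ζ (3 ^ (n + 1)) := zt_prim _ hM
  have hζ0 : ζ ≠ 0 := hζp.ne_zero hM
  have hζc : (starRingEnd ℂ) ζ = ζ⁻¹ := conj_root hM hζp.pow_eq_one
  -- the fields are contained in the cyclotomic field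
  have hBj : B ≤ IntermediateField.adjoin ℚ {z : ℂ | z ^ (3 ^ j) = 1} := by
    refine hle.trans (IntermediateField.adjoin.mono _ _ _ ?_)
    intro z hz
    have hz' : z ^ 3 ^ m = 1 := hz
    obtain ⟨t, ht⟩ := pow_dvd_pow 3 (le_max_left m (n + 1))
    show z ^ 3 ^ j = 1
    rw [hj, ht, pow_mul, hz', one_pow]
  set R := IntermediateField.adjoin ℚ {ζ + ζ⁻¹} with hR
  have hζj : ζ ∈ IntermediateField.adjoin ℚ {z : ℂ | z ^ (3 ^ j) = 1} := by
    apply IntermediateField.subset_adjoin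
    obtain ⟨t, ht⟩ := pow_dvd_pow 3 (le_max_right m (n + 1))
    show ζ ^ 3 ^ j = 1
    rw [hj, ht, pow_mul, hζp.pow_eq_one, one_pow]
  have hRj : R ≤ IntermediateField.adjoin ℚ {z : ℂ | z ^ (3 ^ j) = 1} := by
    rw [hR, IntermediateField.adjoin_simple_le_iff]
    exact add_mem hζj (inv_mem hζj)
  set c : ℂ →ₐ[ℚ] ℂ := (Complex.conjAe.toAlgHom).restrictScalars ℚ with hc
  have hcz : ∀ z : ℂ, c z = (starRingEnd ℂ) z := fun z => rfl
  have hRr : ∀ x ∈ R, c x = x := by
    have hRR : R ≤ (AlgHom.equalizer c (AlgHom.id ℚ ℂ)).toIntermediateField (fun x hx => by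
        have hx' : c x = x := hx
        show c x⁻¹ = x⁻¹
        rw [map_inv₀, hx']) := by
      rw [hR, IntermediateField.adjoin_simple_le_iff]
      show c (ζ + ζ⁻¹) = ζ + ζ⁻¹
      rw [map_add, map_inv₀, hcz, hζc, inv_inv, add_comm]
    exact fun x hx => hRR hx
  have hfix := fix_sup c B R (fun x hx => hreal x hx) hRr
  have hBR : B ⊔ R ≤ IntermediateField.adjoin ℚ {z : ℂ | z ^ (3 ^ j) = 1} := sup_le hBj hRj
  have hab := LAY.isAbelian_of_le (F := ℚ) (E := ℂ) (3 ^ j) hN
    ⟨_, Complex.isPrimitiveRoot_exp _ hN⟩ (B ⊔ R) hBR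
  have hG := hab.toIsGalois
  have hirr : Irreducible (cyclotomic (3 ^ j) ℚ) :=
    cyclotomic.irreducible_rat (Nat.pos_of_ne_zero hN)
  have hcyc := LAYC.gen (F := ℚ) (E := ℂ) 3 j hirr (Complex.isPrimitiveRoot_exp _ hN) c (by
    rw [hcz]
    exact conj_root hN (Complex.isPrimitiveRoot_exp _ hN).pow_eq_one) (B ⊔ R) hBR hfix
  -- the degree
  have hdR : Module.finrank ℚ R = 3 ^ n := by
    apply deg ζ (3 ^ n) hζ0
    · have hint : IsIntegral ℚ ζ := (hζp.isIntegral (Nat.pos_of_ne_zero hM)).tower_top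
      rw [IntermediateField.adjoin.finrank hint,
        ← cyclotomic_eq_minpoly_rat hζp (Nat.pos_of_ne_zero hM), natDegree_cyclotomic,
        Nat.totient_prime_pow_succ Nat.prime_three]
    · intro h1
      have h2 := hRr _ h1
      rw [hcz, hζc] at h2
      have h3 : ζ ^ 2 = 1 := by
        rw [pow_two]
        nth_rewrite 1 [← h2]
        exact inv_mul_cancel₀ hζ0
      have h4 := hζp.dvd_of_pow_eq_one 2 h3
      have h5 : 3 ∣ 2 := (dvd_pow_self 3 (Nat.succ_ne_zero n)).trans h4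
      omega
  have : FiniteDimensional ℚ B := Module.finite_of_finrank_pos (by rw [hdeg]; positivity)
  have : FiniteDimensional ℚ R := Module.finite_of_finrank_pos (by rw [hdR]; positivity)
  have hfd : FiniteDimensional ℚ ↥(B ⊔ R) := IntermediateField.finiteDimensional_sup B R
  exact uniq B R (B ⊔ R) le_sup_left le_sup_right (hdeg.trans hdR.symm)

end Pool.Agent.MU3I


end

section

/-!
# MUX, block IX, module CHI: characters with values in the residue field

The same proof as `Pool/Agent/MU3/I_ICHI.lean`, with `3` replaced by the prime `p`.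
-/

set_option autoImplicit false

namespace Pool.Agent.MUXI

open _root_.Pool.Agent.MU3I (ichi_mem_unitGroup ichiRed ichiRed_coe ichi_mem)

noncomputable section

namespace CHI

theorem ne (p : ℕ) (V : ValuationSubring ℂ) (hC : CharP (IsLocalRing.ResidueField V) p) (n : ℕ)
    (hn : ¬ p ∣ n) : (n : IsLocalRing.ResidueField V) ≠ 0 := by
  intro h
  exact hn ((CharP.cast_eq_zero_iff _ p n).1 h)

theorem red_inj (p : ℕ) (V : ValuationSubring ℂ) (hC : CharP (IsLocalRing.ResidueField V) p)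
    (n : ℕ) (hn : n ≠ 0) (hpn : ¬ p ∣ n) : Function.Injective (ichiRed V n hn) := by
  rw [injective_iff_map_eq_one]
  intro z hz
  by_contra hne
  have hzV := ichi_mem V hn z
  have h1 : IsLocalRing.residue V ⟨((z : ℂˣ) : ℂ), hzV⟩ = 1 := by
    rw [← ichiRed_coe V n hn z hzV, hz]
    rfl
  have hzn : ((z : ℂˣ) : ℂ) ^ n = 1 := by
    have := z.2
    rw [mem_rootsOfUnity] at this
    rw [← Units.val_pow_eq_pow_val, this]
    rfl
  have hz1 : ((z : ℂˣ) : ℂ) ≠ 1 := by
    intro h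
    apply hne
    apply Subtype.ext
    apply Units.ext
    exact h
  have hg : ∑ i ∈ Finset.range n, ((z : ℂˣ) : ℂ) ^ i = 0 := by
    have := mul_neg_geom_sum ((z : ℂˣ) : ℂ) n
    rw [hzn, sub_self] at this
    rcases mul_eq_zero.1 this with h | h
    · exact absurd (sub_eq_zero.1 h).symm hz1
    · exact h
  have hgV : ∑ i ∈ Finset.range n, (⟨((z : ℂˣ) : ℂ), hzV⟩ : V) ^ i = 0 := by
    apply Subtype.ext
    simp only [AddSubmonoidClass.coe_finsetSum, SubmonoidClass.coe_pow]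
    exact hg
  have := congrArg (IsLocalRing.residue V) hgV
  rw [map_sum, map_zero] at this
  simp only [map_pow, h1, one_pow, Finset.sum_const, Finset.card_range, nsmul_eq_mul,
    mul_one] at this
  exact ne p V hC n hpn this

theorem red_bij (p : ℕ) (V : ValuationSubring ℂ) (hC : CharP (IsLocalRing.ResidueField V) p)
    (n : ℕ) (hn : n ≠ 0) (hpn : ¬ p ∣ n) : Function.Bijective (ichiRed V n hn) := by
  haveI : NeZero n := ⟨hn⟩
  refine (red_inj p V hC n hn hpn).bijective_of_nat_card_le ?_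
  rw [Complex.card_rootsOfUnity n]
  exact card_rootsOfUnity _ n

/-- some linear form separates -/
theorem theta (p : ℕ) [Fact p.Prime] (V : ValuationSubring ℂ)
    (hC : CharP (IsLocalRing.ResidueField V) p) (Δ : Type) [Group Δ]
    [Fintype Δ] (hpn : ¬ p ∣ Fintype.card Δ) (χ : Δ →* (IsLocalRing.ResidueField V)ˣ) :
    ∃ θ : IsLocalRing.ResidueField V →+ ZMod p,
      (∑ δ : Δ, ((θ ((χ δ)⁻¹ : (IsLocalRing.ResidueField V)ˣ)).val : IsLocalRing.ResidueField V) *
        ((χ δ : (IsLocalRing.ResidueField V)ˣ) : IsLocalRing.ResidueField V)) ≠ 0 := by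
  classical
  haveI := hC
  letI : Algebra (ZMod p) (IsLocalRing.ResidueField V) := ZMod.algebra _ p
  by_contra hcon
  push Not at hcon
  set b := Module.Basis.ofVectorSpace (ZMod p) (IsLocalRing.ResidueField V) with hb
  have hval : ∀ (a : ZMod p) (x : IsLocalRing.ResidueField V),
      ((a.val : ℕ) : IsLocalRing.ResidueField V) * x = a • x := by
    intro a x
    rw [Algebra.smul_def]
    congr 1
    rw [← ZMod.natCast_zmod_val a, map_natCast, ZMod.natCast_zmod_val]
  apply ne p V hC _ hpn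
  set S : Finset _ := Finset.univ.biUnion fun δ : Δ =>
    (b.repr (((χ δ)⁻¹ : (IsLocalRing.ResidueField V)ˣ) : IsLocalRing.ResidueField V)).support
    with hS
  have hrep : ∀ δ : Δ, (((χ δ)⁻¹ : (IsLocalRing.ResidueField V)ˣ) : IsLocalRing.ResidueField V) =
      ∑ i ∈ S, (b.coord i (((χ δ)⁻¹ : (IsLocalRing.ResidueField V)ˣ) :
        IsLocalRing.ResidueField V)) • b i := by
    intro δ
    conv_lhs => rw [← b.linearCombination_repr
      (((χ δ)⁻¹ : (IsLocalRing.ResidueField V)ˣ) : IsLocalRing.ResidueField V)]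
    rw [Finsupp.linearCombination_apply, Finsupp.sum]
    refine Finset.sum_subset ?_ ?_
    · intro i hi
      rw [hS, Finset.mem_biUnion]
      exact ⟨δ, Finset.mem_univ _, hi⟩
    · intro i _ hi
      rw [Finsupp.notMem_support_iff] at hi
      rw [hi, zero_smul]
  calc ((Fintype.card Δ : ℕ) : IsLocalRing.ResidueField V)
      = ∑ δ : Δ, (((χ δ)⁻¹ : (IsLocalRing.ResidueField V)ˣ) : IsLocalRing.ResidueField V) *
          ((χ δ : (IsLocalRing.ResidueField V)ˣ) : IsLocalRing.ResidueField V) := by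
        simp
    _ = ∑ δ : Δ, (∑ i ∈ S, (b.coord i (((χ δ)⁻¹ : (IsLocalRing.ResidueField V)ˣ) :
          IsLocalRing.ResidueField V)) • b i) *
          ((χ δ : (IsLocalRing.ResidueField V)ˣ) : IsLocalRing.ResidueField V) := by
        refine Finset.sum_congr rfl fun δ _ => ?_
        rw [← hrep δ]
    _ = ∑ i ∈ S, b i * ∑ δ : Δ, (b.coord i (((χ δ)⁻¹ : (IsLocalRing.ResidueField V)ˣ) :
          IsLocalRing.ResidueField V)) •
          ((χ δ : (IsLocalRing.ResidueField V)ˣ) : IsLocalRing.ResidueField V) := by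
        simp_rw [Finset.sum_mul, Finset.mul_sum]
        rw [Finset.sum_comm]
        refine Finset.sum_congr rfl fun i _ => Finset.sum_congr rfl fun δ _ => ?_
        rw [smul_mul_assoc, mul_smul_comm]
    _ = 0 := by
        refine Finset.sum_eq_zero fun i _ => ?_
        have := hcon (b.coord i).toAddMonoidHom
        simp_rw [hval] at this
        rw [show (∑ δ : Δ, (b.coord i (((χ δ)⁻¹ : (IsLocalRing.ResidueField V)ˣ) :
          IsLocalRing.ResidueField V)) •
          ((χ δ : (IsLocalRing.ResidueField V)ˣ) : IsLocalRing.ResidueField V)) = 0 from this,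
          mul_zero]

end CHI

theorem ti_CHI : Si_CHI := by
  intro p _ V hpV hC _ Δ _ _ hcomm hpn χ
  obtain ⟨θ, hθ⟩ := CHI.theta p V hC Δ hpn χ
  have hn : Fintype.card Δ ≠ 0 := Fintype.card_ne_zero
  set n := Fintype.card Δ with hndef
  -- the character in the roots of unity of the residue field
  have hχ : ∀ δ, χ δ ∈ rootsOfUnity n (IsLocalRing.ResidueField V) := by
    intro δ
    rw [mem_rootsOfUnity, ← map_pow, hndef, pow_card_eq_one, map_one]
  let χ' : Δ →* rootsOfUnity n (IsLocalRing.ResidueField V) := χ.codRestrict _ hχ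
  let E : rootsOfUnity n ℂ ≃* rootsOfUnity n (IsLocalRing.ResidueField V) :=
    MulEquiv.ofBijective (ichiRed V n hn) (CHI.red_bij p V hC n hn hpn)
  refine ⟨(rootsOfUnity n ℂ).subtype.comp (E.symm.toMonoidHom.comp χ'), θ, ?_⟩
  intro hmem
  apply hθ
  have hV : ∀ δ : Δ, (((E.symm (χ' δ) : rootsOfUnity n ℂ) : ℂˣ) : ℂ) ∈ V := fun δ =>
    ichi_mem V hn _
  have hres : ∀ δ : Δ, IsLocalRing.residue V ⟨_, hV δ⟩ =
      ((χ δ : (IsLocalRing.ResidueField V)ˣ) : IsLocalRing.ResidueField V) := by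
    intro δ
    rw [← ichiRed_coe V n hn]
    have : ichiRed V n hn (E.symm (χ' δ)) = χ' δ := E.apply_symm_apply (χ' δ)
    rw [this]
    rfl
  have hsum : ((∑ δ : Δ, (((θ ((χ δ)⁻¹ : (IsLocalRing.ResidueField V)ˣ)).val : ℕ) : V) *
      (⟨_, hV δ⟩ : V) : V) : ℂ) ∈ V.nonunits := by
    rw [AddSubmonoidClass.coe_finsetSum]
    have he : ∀ δ : Δ, (((((θ ((χ δ)⁻¹ : (IsLocalRing.ResidueField V)ˣ)).val : ℕ) : V) *
      (⟨_, hV δ⟩ : V) : V) : ℂ) = ((θ ((χ δ)⁻¹ : (IsLocalRing.ResidueField V)ˣ)).val : ℂ) *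
        ((((rootsOfUnity n ℂ).subtype.comp (E.symm.toMonoidHom.comp χ')) δ : ℂˣ) : ℂ) := by
      intro δ
      rfl
    simp_rw [he]
    exact hmem
  rw [ValuationSubring.coe_mem_nonunits_iff] at hsum
  have h4 := (IsLocalRing.residue_eq_zero_iff _).2 hsum
  rw [map_sum] at h4
  simp only [map_mul, map_natCast, hres] at h4
  exact h4

end

end Pool.Agent.MUXI


end

section

/-!
# MUX, block K, module NCP: powers in a larger abelian extension
-/

set_option autoImplicit false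

open NumberField IsDedekindDomain Finset Filter Topology
open scoped nonZeroDivisors Pointwise

namespace Pool.Agent.MUXK

open _root_.Pool.Agent.MU3 _root_.Pool.Agent.RI _root_.Pool.Agent.RID _root_.Pool.Agent.Lib_helper28.FROB

/-- NCP. -/
theorem t_NCP : S_NCP := by
  intro p hp k L M _ _ _ _ _ _ _ _ _ _ _ _ hab γ ω hω hγω s hs y hy
  have : IsGalois L M := IsGalois.tower_top_of_isGalois k L M
  have : FiniteDimensional L M := FiniteDimensional.right k L M
  have hp0 : p ≠ 0 := hp.out.ne_zero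
  obtain ⟨γ', hγ'⟩ := AlgEquiv.restrictNormalHom_surjective (F := k) (K₁ := L) M γ
  have hc : ∀ x : L, γ' (algebraMap L M x) = algebraMap L M (γ x) := by
    intro x
    have h1 := AlgEquiv.restrictNormal_commutes γ' L x
    have h2 : γ'.restrictNormal L = γ := hγ'
    rw [h2] at h1
    exact h1.symm
  have hs' : algebraMap L M s ≠ 0 := by
    rw [Ne, map_eq_zero]
    exact hs
  have hy0 : y ≠ 0 := by
    rintro rfl
    rw [zero_pow hp0] at hy
    exact hs' hy.symm
  have hfix : ∀ τ : M ≃ₐ[L] M, τ (γ' y / y) = γ' y / y := by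
    intro τ
    have h1 : (τ y / y) ^ p = 1 := by
      rw [div_pow, ← map_pow, hy, AlgEquiv.commutes, div_self hs']
    have hωM : IsPrimitiveRoot (algebraMap L M ω) p :=
      hω.map_of_injective (algebraMap L M).injective
    have : NeZero p := ⟨hp0⟩
    obtain ⟨i, -, hi⟩ := hωM.eq_pow_of_pow_eq_one h1
    have hτ : τ y = y * algebraMap L M (ω ^ i) := by
      rw [map_pow, hi, mul_div_cancel₀ _ hy0]
    have hcomm : τ (γ' y) = γ' (τ y) := by
      have h2 := hab (τ.restrictScalars k) γ'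
      exact DFunLike.congr_fun h2 y
    have hωi : algebraMap L M (ω ^ i) ≠ 0 := by
      rw [Ne, map_eq_zero]
      exact pow_ne_zero _ (hω.ne_zero hp0)
    rw [map_div₀, hcomm, hτ, map_mul, hc, map_pow, hγω, mul_div_mul_right _ _ hωi]
  obtain ⟨t, ht⟩ := (IsGalois.mem_range_algebraMap_iff_fixed (F := L) (γ' y / y)).2 hfix
  refine ⟨t, (algebraMap L M).injective ?_⟩
  rw [map_pow, ht, div_pow, ← map_pow, hy, hc, map_div₀]

end Pool.Agent.MUXK


end

section

/-!
# MUX, block J: module ROT, the first layer and the roots of unity of order `2 p`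
-/

set_option autoImplicit false

open NumberField IsDedekindDomain

namespace Pool.Agent.MUXJ

open _root_.MU3 _root_.Pool.Agent.MU3 _root_.Pool.Agent.MU3A _root_.Pool.Agent.MU3B _root_.Pool.Agent.RI _root_.Pool.Agent.RID
  _root_.Pool.Agent.MUX _root_.Pool.Agent.MUXK _root_.Pool.Agent.MUXE

noncomputable section

namespace Rot

open _root_.Pool.Agent.MU3I

/-- the field of `ζ + ζ⁻¹`, `ζ` of order `8`, is a first layer -/
lemma lay2 : IsLayer 2 1 (IntermediateField.adjoin ℚ {zt 8 + (zt 8)⁻¹}) := by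
  have hM : (8 : ℕ) ≠ 0 := by norm_num
  set ζ := zt 8 with hζ
  have hζp : IsPrimitiveRoot ζ 8 := Ilay.zt_prim _ hM
  have hζ0 : ζ ≠ 0 := hζp.ne_zero hM
  have hζc : (starRingEnd ℂ) ζ = ζ⁻¹ := Ilay.conj_root hM hζp.pow_eq_one
  set R := IntermediateField.adjoin ℚ {ζ + ζ⁻¹} with hR
  set c : ℂ →ₐ[ℚ] ℂ := (Complex.conjAe.toAlgHom).restrictScalars ℚ with hc
  have hcz : ∀ z : ℂ, c z = (starRingEnd ℂ) z := fun z => rfl
  have hRr : ∀ x ∈ R, c x = x := by
    have hRR : R ≤ (AlgHom.equalizer c (AlgHom.id ℚ ℂ)).toIntermediateField (fun x hx => by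
        have hx' : c x = x := hx
        show c x⁻¹ = x⁻¹
        rw [map_inv₀, hx']) := by
      rw [hR, IntermediateField.adjoin_simple_le_iff]
      show c (ζ + ζ⁻¹) = ζ + ζ⁻¹
      rw [map_add, map_inv₀, hcz, hζc, inv_inv, add_comm]
    exact fun x hx => hRR hx
  refine ⟨?_, fun z hz => hRr z hz, 3, ?_⟩
  · rw [pow_one]
    apply Ilay.deg ζ 2 hζ0
    · have hint : IsIntegral ℚ ζ := (hζp.isIntegral (Nat.pos_of_ne_zero hM)).tower_top
      rw [IntermediateField.adjoin.finrank hint,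
        ← Polynomial.cyclotomic_eq_minpoly_rat hζp (Nat.pos_of_ne_zero hM),
        Polynomial.natDegree_cyclotomic]
      decide
    · intro h1
      have h2 := hRr _ h1
      rw [hcz, hζc] at h2
      have h3 : ζ ^ 2 = 1 := by
        rw [pow_two]
        nth_rewrite 1 [← h2]
        exact inv_mul_cancel₀ hζ0
      have h4 := hζp.dvd_of_pow_eq_one 2 h3
      omega
  · have hζj : ζ ∈ IntermediateField.adjoin ℚ {z : ℂ | z ^ (2 ^ 3) = 1} := by
      apply IntermediateField.subset_adjoin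
      show ζ ^ 2 ^ 3 = 1
      norm_num
      exact hζp.pow_eq_one
    rw [hR, IntermediateField.adjoin_simple_le_iff]
    exact add_mem hζj (inv_mem hζj)

end Rot

open _root_.Pool.Agent.MUXJ.Rot _root_.Pool.Agent.MU3I in
theorem t_ROT (h1 : Sj_LAY) : Sj_ROT := by
  intro p hp B K hB hBK hζ
  obtain ⟨η, hηK, hη⟩ := hζ
  rcases hp with rfl | rfl
  · -- `p = 2`
    obtain ⟨Bn, -, -, hu⟩ := h1 2 (Or.inl rfl)
    have hBR : B = IntermediateField.adjoin ℚ {zt 8 + (zt 8)⁻¹} :=
      (hu 1 B hB).trans (hu 1 _ lay2).symm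
    have hM : (8 : ℕ) ≠ 0 := by norm_num
    have hζp : IsPrimitiveRoot (zt 8) 8 := Ilay.zt_prim _ hM
    have hζ0 : zt 8 ≠ 0 := hζp.ne_zero hM
    refine ⟨zt 8, ?_, by simpa [q0] using hζp⟩
    have ht : zt 8 + (zt 8)⁻¹ ∈ K := by
      apply hBK
      rw [hBR]
      exact IntermediateField.mem_adjoin_simple_self ℚ _
    have h4 : zt 8 ^ 4 = -1 := by
      have h8 : (zt 8 ^ 4) ^ 2 = 1 := by rw [← pow_mul]; exact hζp.pow_eq_one
      rcases sq_eq_one_iff.1 h8 with h | h
      · exact absurd (hζp.dvd_of_pow_eq_one 4 h) (by norm_num)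
      · exact h
    have hi : zt 8 ^ 2 ∈ K := by
      have h5 : (zt 8 ^ 2) ^ (2 * 2) = 1 := by rw [← pow_mul]; exact hζp.pow_eq_one
      have : NeZero (2 * 2) := ⟨by norm_num⟩
      obtain ⟨i, -, hi⟩ := hη.eq_pow_of_pow_eq_one h5
      rw [← hi]
      exact pow_mem hηK i
    have h6 : zt 8 = (zt 8 + (zt 8)⁻¹) * (1 + zt 8 ^ 2) * (2 : ℂ)⁻¹ := by
      have h7 : zt 8 * (zt 8 + (zt 8)⁻¹) = zt 8 ^ 2 + 1 := by
        rw [mul_add, mul_inv_cancel₀ hζ0, pow_two]
      have h8 : zt 8 * (zt 8) = zt 8 * ((zt 8 + (zt 8)⁻¹) * (1 + zt 8 ^ 2) * (2 : ℂ)⁻¹) := by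
        linear_combination (-(1 + zt 8 ^ 2) * (2 : ℂ)⁻¹) * h7 - (2 : ℂ)⁻¹ * h4
      exact mul_left_cancel₀ hζ0 h8
    rw [h6]
    refine mul_mem (mul_mem ht (add_mem (one_mem K) hi)) (inv_mem ?_)
    exact ofNat_mem K 2
  · -- `p = 3`
    have hBR := t_ILAY 1 B hB
    norm_num at hBR
    have hM : (9 : ℕ) ≠ 0 := by norm_num
    have hζp : IsPrimitiveRoot (zt 9) 9 := Ilay.zt_prim _ hM
    have hζ0 : zt 9 ≠ 0 := hζp.ne_zero hM
    refine ⟨zt 9, ?_, by simpa [q0] using hζp⟩
    have ht : zt 9 + (zt 9)⁻¹ ∈ K := by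
      apply hBK
      rw [hBR]
      exact IntermediateField.mem_adjoin_simple_self ℚ _
    have hω : zt 9 ^ 3 ∈ K := by
      have h5 : (zt 9 ^ 3) ^ (2 * 3) = 1 := by
        rw [← pow_mul, show 3 * (2 * 3) = 9 * 2 from rfl, pow_mul, hζp.pow_eq_one, one_pow]
      have : NeZero (2 * 3) := ⟨by norm_num⟩
      obtain ⟨i, -, hi⟩ := hη.eq_pow_of_pow_eq_one h5
      rw [← hi]
      exact pow_mem hηK i
    have h7 : zt 9 ^ 3 - (zt 9 ^ 3)⁻¹ = (zt 9 - (zt 9)⁻¹) * ((zt 9 + (zt 9)⁻¹) ^ 2 - 1) := by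
      field_simp
      ring
    have h8 : zt 9 ^ 3 - (zt 9 ^ 3)⁻¹ ≠ 0 := by
      intro h
      have h9 : zt 9 ^ 3 ≠ 0 := pow_ne_zero _ hζ0
      have h10 : (zt 9 ^ 3) * (zt 9 ^ 3) = 1 := by
        nth_rewrite 2 [sub_eq_zero.1 h]
        exact mul_inv_cancel₀ h9
      have h11 : zt 9 ^ 6 = 1 := by
        rw [← h10]
        ring
      exact absurd (hζp.dvd_of_pow_eq_one 6 h11) (by norm_num)
    have h9 : (zt 9 + (zt 9)⁻¹) ^ 2 - 1 ≠ 0 := by
      intro h
      rw [h, mul_zero] at h7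
      exact h8 h7
    have h10 : zt 9 = ((zt 9 + (zt 9)⁻¹) +
        (zt 9 ^ 3 - (zt 9 ^ 3)⁻¹) / ((zt 9 + (zt 9)⁻¹) ^ 2 - 1)) * (2 : ℂ)⁻¹ := by
      rw [h7, mul_div_cancel_right₀ _ h9]
      ring
    rw [h10]
    refine mul_mem (add_mem ht (div_mem (sub_mem hω (inv_mem hω)) (sub_mem (pow_mem ht 2) (one_mem K))))
      (inv_mem ?_)
    exact ofNat_mem K 2

end

end Pool.Agent.MUXJ


end

section

/-!
# MUX, block J, module RAM (helper48): the order of the inertia group of a field with many roots of unity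
-/

set_option autoImplicit false

open NumberField IsDedekindDomain
open scoped nonZeroDivisors Pointwise

namespace Pool.Agent.MUXJ

open _root_.MU3 _root_.Pool.Agent.MU3 _root_.Pool.Agent.MU3A _root_.Pool.Agent.MU3B _root_.Pool.Agent.RI _root_.Pool.Agent.RID
  _root_.Pool.Agent.MUX _root_.Pool.Agent.MUXK _root_.Pool.Agent.MUXE

noncomputable section

namespace JRAM

open Ideal _root_.Pool.Agent.MU3E.RAM _root_.Pool.Agent.MUXE.RamE

section galois

variable {V : ValuationSubring ℂ} {k F : Type} [Field k] [NumberField k] [Field F] [NumberField F]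
  [Algebra k F] [IsGalois k F] (io : F →+* ℂ)

omit [NumberField k] [IsGalois k F] in
/-- the inertia group of the prime below `V` is the inertia group at `V` -/
theorem mem_inertia {w : HeightOneSpectrum (𝓞 F)}
    (hw : ∀ x : 𝓞 F, x ∈ w.asIdeal ↔ V.valuation (io x) < 1) (σ : F ≃ₐ[k] F) :
    σ ∈ w.asIdeal.inertia (F ≃ₐ[k] F) ↔ ∀ x : F, V.valuation (io x) ≤ 1 →
      V.valuation (io (σ x) - io x) < 1 := by
  have hcoe : ∀ y : 𝓞 F, ((σ • y : 𝓞 F) : F) = σ (y : F) := fun y => rfl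
  constructor
  · intro hσ x hx
    obtain ⟨n, d, hnd⟩ := w.exists_primeCompl_mul_eq_of_integer x (le_ord io hw hx)
    have hσ1 : ∀ y : 𝓞 F, σ • y - y ∈ w.asIdeal := hσ
    have hd1 : V.valuation (io ((d : 𝓞 F) : F)) = 1 := val_notMem io hw (x := d) d.2
    have hσd : (σ • (d : 𝓞 F) : 𝓞 F) ∉ w.asIdeal := by
      intro h
      have h2 := w.asIdeal.sub_mem h (hσ1 (d : 𝓞 F))
      rw [sub_sub_cancel] at h2
      exact d.2 h2
    have hd2 : V.valuation (io (σ ((d : 𝓞 F) : F))) = 1 := val_notMem io hw hσd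
    have hd0 : ((d : 𝓞 F) : F) ≠ 0 := by
      intro h
      rw [h, map_zero, map_zero] at hd1
      exact zero_ne_one hd1
    have hσd0 : σ ((d : 𝓞 F) : F) ≠ 0 := (map_ne_zero σ).2 hd0
    have hn := (hw _).1 (hσ1 n)
    have hd3 := (hw _).1 (hσ1 (d : 𝓞 F))
    have hnd' : x * ((d : 𝓞 F) : F) = ((n : 𝓞 F) : F) := hnd
    have hnd2 : σ x * σ ((d : 𝓞 F) : F) = σ ((n : 𝓞 F) : F) := by rw [← map_mul, hnd']
    have e1 : io (σ x) - io x = ((io (σ ((n : 𝓞 F) : F)) - io ((n : 𝓞 F) : F)) * io ((d : 𝓞 F) : F)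
        - io ((n : 𝓞 F) : F) * (io (σ ((d : 𝓞 F) : F)) - io ((d : 𝓞 F) : F)))
          / (io ((d : 𝓞 F) : F) * io (σ ((d : 𝓞 F) : F))) := by
      have i1 : io ((d : 𝓞 F) : F) ≠ 0 := (map_ne_zero io).2 hd0
      have i2 : io (σ ((d : 𝓞 F) : F)) ≠ 0 := (map_ne_zero io).2 hσd0
      rw [← hnd2, ← hnd', map_mul, map_mul]
      field_simp
      ring
    rw [e1, map_div₀, map_mul V.valuation (io ((d : 𝓞 F) : F)), hd1, hd2, one_mul, div_one]
    refine lt_of_le_of_lt (V.valuation.map_sub _ _) (max_lt ?_ ?_)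
    · rw [map_mul, hd1, mul_one]
      have : V.valuation (io (((σ • n - n : 𝓞 F)) : F)) < 1 := hn
      rwa [show (((σ • n - n : 𝓞 F)) : F) = σ ((n : 𝓞 F) : F) - ((n : 𝓞 F) : F) from by
        rw [← hcoe]; exact map_sub (algebraMap (𝓞 F) F) _ _, map_sub] at this
    · rw [map_mul]
      have : V.valuation (io (((σ • (d : 𝓞 F) - (d : 𝓞 F) : 𝓞 F)) : F)) < 1 := hd3
      rw [show (((σ • (d : 𝓞 F) - (d : 𝓞 F) : 𝓞 F)) : F)
          = σ ((d : 𝓞 F) : F) - ((d : 𝓞 F) : F) from by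
        rw [← hcoe]; exact map_sub (algebraMap (𝓞 F) F) _ _, map_sub] at this
      exact mul_lt_one_of_nonneg_of_lt_one_right (int_le io n) zero_le this
  · intro hσ y
    refine (hw _).2 ?_
    have h1 := hσ (y : F) (int_le io y)
    rw [show (((σ • y - y : 𝓞 F)) : F) = σ (y : F) - (y : F) from by
        rw [← hcoe]; exact map_sub (algebraMap (𝓞 F) F) _ _, map_sub]
    exact h1

/-- the value of an element of the prime below which is not in its square is given by the order of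
the inertia group. -/
theorem val_card {w : HeightOneSpectrum (𝓞 F)}
    (hw : ∀ x : 𝓞 F, x ∈ w.asIdeal ↔ V.valuation (io x) < 1)
    {q : 𝓞 k} (hq1 : q ∈ w.asIdeal.under (𝓞 k)) (hq2 : q ∉ (w.asIdeal.under (𝓞 k)) ^ 2) :
    w.valuation F (algebraMap k F q) = WithZero.exp (-1 : ℤ) ^
      Nat.card {σ : F ≃ₐ[k] F // ∀ x : F, V.valuation (io x) ≤ 1 →
        V.valuation (io (σ x) - io x) < 1} := by
  set p : Ideal (𝓞 k) := w.asIdeal.under (𝓞 k) with hp
  have hlo : w.asIdeal.LiesOver p := ⟨rfl⟩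
  have hwp : w.asIdeal.IsPrime := w.isPrime
  have hpp : p.IsPrime := Ideal.IsPrime.under (𝓞 k) w.asIdeal
  have hp0 : p ≠ ⊥ := (w.under (𝓞 k)).ne_bot
  have hfin : Finite (𝓞 k ⧸ p) := Ideal.finiteQuotientOfFreeOfNeBot p hp0
  have hmax : p.IsMaximal := hpp.isMaximal hp0
  have hfr : Finite p.ResidueField :=
    Finite.of_surjective (algebraMap (𝓞 k ⧸ p) p.ResidueField)
      (Ideal.bijective_algebraMap_quotient_residueField p).2
  have h1 := Ideal.card_inertia_eq_ramificationIdxIn (G := F ≃ₐ[k] F) p w.asIdeal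
  have hcard : Nat.card {σ : F ≃ₐ[k] F // ∀ x : F, V.valuation (io x) ≤ 1 →
        V.valuation (io (σ x) - io x) < 1} = Nat.card (w.asIdeal.inertia (F ≃ₐ[k] F)) :=
    Nat.card_congr (Equiv.subtypeEquivRight fun σ => (mem_inertia io hw σ).symm)
  rw [Ideal.ramificationIdxIn_eq_ramificationIdx p w.asIdeal (F ≃ₐ[k] F)] at h1
  have h2 : p.ramificationIdx' w.asIdeal = Nat.card (w.asIdeal.inertia (F ≃ₐ[k] F)) := by
    rw [Ideal.ramificationIdx'_eq_ramificationIdx' p w.asIdeal
      (Ideal.map_ne_bot_of_ne_bot hp0), ← h1]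
  set v : HeightOneSpectrum (𝓞 k) := ⟨p, hpp, hp0⟩ with hv
  have hlo' : w.asIdeal.LiesOver v.asIdeal := ⟨rfl⟩
  have h3 := HeightOneSpectrum.valuation_liesOver (K := k) F v w (algebraMap (𝓞 k) k q)
  rw [h2, HeightOneSpectrum.valuation_of_algebraMap,
    intVal_one v (q := q) hq1 hq2] at h3
  rw [hcard]
  exact h3.symm

end galois

section cyclo

variable {F : Type} [Field F] [NumberField F] (w : HeightOneSpectrum (𝓞 F))

omit [NumberField F] in
theorem root_int {x : F} {n : ℕ} (hn : 0 < n) (hx : x ^ n = 1) : IsIntegral ℤ x :=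
  IsIntegral.of_pow hn (by rw [hx]; exact isIntegral_one)

theorem root_le {x : F} {n : ℕ} (hn : 0 < n) (hx : x ^ n = 1) : w.valuation F x ≤ 1 :=
  w.valuation_le_one (K := F) (⟨x, root_int hn hx⟩ : 𝓞 F)

theorem one_sub_pow_le {x : F} {n : ℕ} (hn : 0 < n) (hx : x ^ n = 1) (i : ℕ) :
    w.valuation F (1 - x ^ i) ≤ w.valuation F (1 - x) := by
  rw [← mul_neg_geom_sum, map_mul]
  refine mul_le_of_le_one_right' ?_
  refine Valuation.map_sum_le _ fun j _ => ?_
  rw [map_pow]
  exact pow_le_one' (root_le w hn hx) j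

theorem prim_eq {x y : F} {n : ℕ} (hn : 0 < n) (hx : IsPrimitiveRoot x n)
    (hy : IsPrimitiveRoot y n) : w.valuation F (1 - x) = w.valuation F (1 - y) := by
  have : NeZero n := ⟨hn.ne'⟩
  apply le_antisymm
  · obtain ⟨i, -, hi⟩ := hy.eq_pow_of_pow_eq_one hx.pow_eq_one
    rw [← hi]
    exact one_sub_pow_le w hn hy.pow_eq_one i
  · obtain ⟨i, -, hi⟩ := hx.eq_pow_of_pow_eq_one hy.pow_eq_one
    rw [← hi]
    exact one_sub_pow_le w hn hx.pow_eq_one i

/-- the value of `p` in a field with a root of unity of order `p^(k + 1)` -/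
theorem val_p {p k : ℕ} (hp : p.Prime) {ζ : F} (hζ : IsPrimitiveRoot ζ (p ^ (k + 1))) :
    w.valuation F (p : F) = w.valuation F (1 - ζ) ^ (p ^ (k + 1)).totient := by
  have hf : Fact p.Prime := ⟨hp⟩
  have h1 := Polynomial.eval_one_cyclotomic_prime_pow (R := F) (p := p) k
  have hn : 0 < p ^ (k + 1) := pow_pos hp.pos _
  rw [Polynomial.cyclotomic_eq_prod_X_sub_primitiveRoots hζ, Polynomial.eval_prod] at h1
  simp only [Polynomial.eval_sub, Polynomial.eval_X, Polynomial.eval_C] at h1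
  rw [← h1, map_prod, ← hζ.card_primitiveRoots]
  refine Finset.prod_eq_pow_card fun μ hμ => ?_
  rw [mem_primitiveRoots hn] at hμ
  exact prim_eq w hn hμ hζ

end cyclo

theorem tot_eq {p : ℕ} (hp : p = 3 ∨ p = 2) :
    ∃ k, q0 p * p = p ^ (k + 1) ∧ (p ^ (k + 1)).totient = q0 p * (p - 1) := by
  rcases hp with rfl | rfl
  · exact ⟨1, by simp [q0], by simp [q0]; decide⟩
  · exact ⟨2, by simp [q0], by simp [q0]; decide⟩

end JRAM

open _root_.Pool.Agent.MUXJ.JRAM _root_.Pool.Agent.MU3E.RAM in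
theorem t_RAM : Sj_RAM := by
  intro p A B P V hC hP hV F _ _ ⟨ζ, hζF, hζ⟩
  have hp23 : p = 3 ∨ p = 2 := by
    rcases hC.split with h | h
    · exact Or.inl h.1
    · exact Or.inr h.1
  have hp : p.Prime := by
    rcases hp23 with rfl | rfl
    · exact Nat.prime_three
    · exact Nat.prime_two
  have hd : (p : ℤ) ∣ B ^ 2 + 4 * A - 1 := by
    rcases hC.split with ⟨rfl, h⟩ | ⟨rfl, h⟩
    · exact_mod_cast h
    · exact Dvd.dvd.trans ⟨4, by norm_num⟩ h
  have hsplit : ((p : ℕ) : OO A B) ∉ P ^ 2 := CtxX.not_sq hp hd hP.norm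
  obtain ⟨⟨φ, hφ⟩, hinj, hded, hpos, hint⟩ := te_RNG A B hC.toCQ
  have hw0 : IsIntegral ℤ (wC A B) := by
    rw [hint _ (wC_mem A B)]
    exact ⟨⟨0, 1⟩, by simp [emb]⟩
  have hfd : FiniteDimensional ℚ (kk A B) :=
    IntermediateField.adjoin.finiteDimensional hw0.tower_top
  have hk : NumberField (kk A B) := ⟨⟩
  have hFQ : FiniteDimensional ℚ F := FiniteDimensional.trans ℚ (kk A B) F
  have hF : NumberField F := ⟨⟩
  have hIn : ∀ x : OO A B, IsIntegral ℤ (ek x) := by
    intro x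
    have h2 : IsIntegral ℤ (emb x) := (hint (emb x) (_root_.Pool.Agent.MU3A.emb_mem x)).mpr ⟨x, rfl⟩
    have h3 : algebraMap (kk A B) ℂ (ek x) = emb x := rfl
    rw [← h3] at h2
    exact (isIntegral_algebraMap_iff (FaithfulSMul.algebraMap_injective (kk A B) ℂ)).mp h2
  -- the ring isomorphism
  let e : OO A B →+* 𝓞 (kk A B) :=
    { toFun := fun x => ⟨ek x, hIn x⟩
      map_one' := by
        apply RingOfIntegers.ext
        apply Subtype.ext
        change emb 1 = 1
        rw [← hφ, map_one]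
      map_mul' := by
        intro a b
        apply RingOfIntegers.ext
        apply Subtype.ext
        change emb (a * b) = emb a * emb b
        rw [← hφ, ← hφ, ← hφ, map_mul]
      map_zero' := by
        apply RingOfIntegers.ext
        apply Subtype.ext
        change emb 0 = 0
        rw [← hφ, map_zero]
      map_add' := by
        intro a b
        apply RingOfIntegers.ext
        apply Subtype.ext
        change emb (a + b) = emb a + emb b
        rw [← hφ, ← hφ, ← hφ, map_add] }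
  have he : ∀ x, (((e x : 𝓞 (kk A B)) : kk A B) : ℂ) = emb x := fun x => rfl
  have hesurj : Function.Surjective e := by
    intro x
    have h2 : IsIntegral ℤ ((x : kk A B) : ℂ) :=
      (RingOfIntegers.isIntegral_coe x).map (Algebra.ofId (kk A B) ℂ |>.restrictScalars ℤ)
    obtain ⟨z, hz⟩ := (hint _ (x : kk A B).2).mp h2
    refine ⟨z, ?_⟩
    apply RingOfIntegers.ext
    apply Subtype.ext
    rw [he, hz]
  have heinj : Function.Injective e := by
    rw [injective_iff_map_eq_zero]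
    intro x hx
    apply hinj
    rw [← he, hx]
    rfl
  have hpC : emb ((p : ℕ) : OO A B) = (p : ℂ) := by rw [← hφ, map_natCast]
  have hpne : (p : ℂ) ≠ 0 := by exact_mod_cast hp.ne_zero
  have hvP : ∀ x : OO A B, V.valuation (emb x) < 1 ↔ x ∈ P := fun x => by
    rw [← hV x, ValuationSubring.mem_nonunits_iff]
  obtain ⟨w, hw⟩ := exists_prime (V := V) (algebraMap F ℂ)
    (z := ((p : ℕ) : 𝓞 F)) (by
      intro h
      have h1 := congrArg (fun t : 𝓞 F => algebraMap F ℂ (t : F)) h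
      have h2 : ((p : ℕ) : ℂ) = 0 := by
        simpa using h1
      exact hpne h2) (by
      have h2 : (algebraMap F ℂ) ((((p : ℕ) : 𝓞 F)) : F) = (p : ℂ) := by simp
      rw [h2, ← hpC, hvP]
      exact hP.mem)
  have hcomap : (w.asIdeal.under (𝓞 (kk A B))).comap e = P := by
    ext z
    have hxw : z ∈ (w.asIdeal.under (𝓞 (kk A B))).comap e ↔ V.valuation (emb z) < 1 := by
      exact hw (algebraMap (𝓞 (kk A B)) (𝓞 F) (e z))
    rw [hxw, hvP]
  have hmap : P.map e = w.asIdeal.under (𝓞 (kk A B)) := by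
    rw [← hcomap]
    exact Ideal.map_comap_of_surjective e hesurj _
  have hep : e ((p : ℕ) : OO A B) = ((p : ℕ) : 𝓞 (kk A B)) := map_natCast e p
  have hq1 : ((p : ℕ) : 𝓞 (kk A B)) ∈ w.asIdeal.under (𝓞 (kk A B)) := by
    rw [← hmap, ← hep]
    exact Ideal.mem_map_of_mem e hP.mem
  have hq2 : ((p : ℕ) : 𝓞 (kk A B)) ∉ (w.asIdeal.under (𝓞 (kk A B))) ^ 2 := by
    rw [← hmap, ← Ideal.map_pow, ← hep, Ideal.mem_map_iff_of_surjective e hesurj]
    rintro ⟨z, hz, hz2⟩
    rw [heinj hz2] at hz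
    exact hsplit hz
  have hord := val_card (k := kk A B) (algebraMap F ℂ) hw hq1 hq2
  obtain ⟨m, hm1, hm2⟩ := tot_eq hp23
  have hζ' : IsPrimitiveRoot (⟨ζ, hζF⟩ : F) (p ^ (m + 1)) := by
    rw [hm1] at hζ
    exact IsPrimitiveRoot.of_map_of_injective (f := algebraMap F ℂ) hζ
      (FaithfulSMul.algebraMap_injective F ℂ)
  have hcy := val_p w hp hζ'
  have hpF : (algebraMap (kk A B) F (((p : ℕ) : 𝓞 (kk A B)) : kk A B)) = (p : F) := by
    simp
  rw [hpF, hcy, hm2] at hord
  change q0 p * (p - 1) ∣ Nat.card {σ : F ≃ₐ[kk A B] F // ∀ x : F,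
    V.valuation ((algebraMap F ℂ) x) ≤ 1 →
      V.valuation ((algebraMap F ℂ) (σ x) - (algebraMap F ℂ) x) < 1}
  set N := Nat.card {σ : F ≃ₐ[kk A B] F // ∀ x : F,
    V.valuation ((algebraMap F ℂ) x) ≤ 1 →
      V.valuation ((algebraMap F ℂ) (σ x) - (algebraMap F ℂ) x) < 1} with hN
  have h0 : w.valuation F (1 - (⟨ζ, hζF⟩ : F)) ≠ 0 := by
    intro h0
    rw [h0] at hord
    have h5 : (WithZero.exp (-1 : ℤ)) ^ N ≠ (0 : WithZero (Multiplicative ℤ)) :=
      pow_ne_zero _ WithZero.exp_ne_zero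
    apply h5
    rw [← hord]
    apply zero_pow
    rw [← hm2]
    exact (Nat.totient_pos.2 (pow_pos hp.pos _)).ne'
  rw [← WithZero.exp_log h0, ← WithZero.exp_nsmul, ← WithZero.exp_nsmul, WithZero.exp_inj,
    nsmul_eq_mul, nsmul_eq_mul] at hord
  have h6 : ((q0 p * (p - 1) : ℕ) : ℤ) ∣ (N : ℤ) :=
    ⟨-WithZero.log (w.valuation F (1 - (⟨ζ, hζF⟩ : F))), by linear_combination hord⟩
  exact_mod_cast h6

end

end Pool.Agent.MUXJ


end

section

/-!
# MUX, block J: LDX, linear disjointness from the layers (helper95)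
-/

set_option autoImplicit false

open NumberField IsDedekindDomain
open scoped nonZeroDivisors Pointwise

namespace Pool.Agent.MUXJ

open _root_.MU3 _root_.Pool.Agent.MU3 _root_.Pool.Agent.MU3A _root_.Pool.Agent.MU3B _root_.Pool.Agent.RI _root_.Pool.Agent.RID
  _root_.Pool.Agent.MUX _root_.Pool.Agent.MUXK _root_.Pool.Agent.MUXE

noncomputable section

/-- the statement over an arbitrary base field -/
theorem ldx_gen {F E : Type*} [Field F] [Field E] [Algebra F E] (p : ℕ) (hp : p.Prime)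
    (K : IntermediateField F E) (B : ℕ → IntermediateField F E) (hK : FiniteDimensional F K)
    (hd : ∀ n, Module.finrank F (B n) = p ^ n) (hG : ∀ n, IsGalois F (B n))
    (hC : ∀ n, IsCyclic ((B n) ≃ₐ[F] (B n))) (hmono : Monotone B) (hnot : ¬ B 1 ≤ K) (n : ℕ) :
    Module.finrank F ↥(K ⊔ B n) = Module.finrank F K * p ^ n := by
  have := hG n
  have := hC n
  have hdeg := hd n
  have hfin : FiniteDimensional F (B n) :=
    Module.finite_of_finrank_pos (by rw [hdeg]; exact pow_pos hp.pos n)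
  have hdvd : Module.finrank F ↥(K ⊓ B n) ∣ p ^ n := by
    rw [← hdeg]
    exact IntermediateField.finrank_dvd_of_le_right inf_le_right
  obtain ⟨i, hi, hie⟩ := (Nat.dvd_prime_pow hp).1 hdvd
  have heq : K ⊓ B n = B i :=
    MU3I.Ilay.uniq (K ⊓ B n) (B i) (B n) inf_le_right (hmono hi) (hie.trans (hd i).symm)
  have hi0 : i = 0 := by
    by_contra h0
    apply hnot
    calc B 1 ≤ B i := hmono (Nat.one_le_iff_ne_zero.2 h0)
      _ = K ⊓ B n := heq.symm
      _ ≤ K := inf_le_left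
  rw [hi0, pow_zero] at hie
  have hbot : B n ⊓ K = ⊥ := by
    rw [inf_comm]
    exact IntermediateField.finrank_eq_one_iff.1 hie
  have hdis : (B n).LinearDisjoint K := IntermediateField.LinearDisjoint.of_inf_eq_bot hbot
  rw [sup_comm, hdis.finrank_sup, hdeg, mul_comm]

theorem t_LDX : Sj_LDX := by
  intro p hp K B hK hB hmono hnot n
  have key : ∀ (D : IntermediateField ℚ ℂ) (a b : Algebra ℚ D), @IsGalois ℚ _ D _ a →
      @IsGalois ℚ _ D _ b := by
    intro D a b h
    rw [Subsingleton.elim b a]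
    exact h
  have key2 : ∀ (D : IntermediateField ℚ ℂ) (a b : Algebra ℚ D),
      IsCyclic (@AlgEquiv ℚ D D _ _ _ a a) → IsCyclic (@AlgEquiv ℚ D D _ _ _ b b) := by
    intro D a b h
    have e : b = a := Subsingleton.elim b a
    subst e
    exact h
  exact ldx_gen (F := ℚ) (E := ℂ) p hp.out K B hK (fun n => (hB n).1)
    (fun n => key _ _ _ (LAY_thm p n (B n) (hB n)).2.1)
    (fun n => key2 _ _ _ (t_LAYC p n (B n) (hB n))) hmono hnot n

end

end Pool.Agent.MUXJ


end
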