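import Mathlib
import Pool.Agent.MVF.C050
import Pool.Agent.MVF.C062
import Pool.Agent.MVF.C064
import Pool.Agent.MVF.C065
import Pool.Agent.MVF.C068

/-! Parts: N2.V_MUL, N2.E_TPT, N2.V_TWO, N2.E_GTA, N2.E_AUT, ME2.EU_CTX, N2.E_FIN, N2.E_MAIN, N2.E_PRT, N2.E_GLC, N2.E_NE1, N2.E_UNR, N2.E_RAM, N2.E_DST, N2.EAll -/

namespace Pool.Agent.ME2E.CtxTaux
end Pool.Agent.ME2E.CtxTaux
namespace Pool.Agent.N2E.DST
end Pool.Agent.N2E.DST
namespace Pool.Agent.N2E.FIN
end Pool.Agent.N2E.FIN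
namespace Pool.Agent.N2E.MAIN
end Pool.Agent.N2E.MAIN
namespace Pool.Agent.N2E.NE1
end Pool.Agent.N2E.NE1
namespace Pool.Agent.N2E.TPT
end Pool.Agent.N2E.TPT
namespace Pool.Agent.N2V.TWO
end Pool.Agent.N2V.TWO

section

/-!
# MUX-2R, block ER2, module MUL: the isogenies `μ_i x : L_(i0) → L_i` have odd degree (port of `N2/E_MUL.lean`, adapted from `NS/E_MUL.lean` of helper83)
-/

set_option autoImplicit false

namespace Pool.Agent.N2V

open _root_.MU3 _root_.Pool.Agent.MU3A _root_.Pool.Agent.MU3B _root_.Pool.Agent.MUX _root_.Pool.Agent.MUXU _root_.Pool.Agent.MUXE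
open _root_.Pool.Agent.RI _root_.Pool.Agent.NS _root_.Pool.Agent.N2

noncomputable section

theorem tv_MUL : Sv_MUL := by
  intro A B P V hC n ι R _ h2n i x hx
  have h := hC.cq
  have hnl := R.nl i
  have hnl0 := R.nl R.i0
  have hom : R.om i ≠ 0 := hnl.om_ne
  have hom0 : R.om R.i0 ≠ 0 := hnl0.om_ne
  have hN0 : nI (R.b i) ≠ 0 := nI_ne_zero h hnl.b_ne
  have hNC : ((nI (R.b i) : ℕ) : ℂ) ≠ 0 := by exact_mod_cast hN0
  have hNb : ((nI (R.b i) : ℕ) : OO A B) ∈ R.b i := nI_mem h hnl.b_ne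
  have hx0 : x ≠ 0 := by
    rintro rfl
    exact hx (Ideal.zero_mem _)
  have hex : emb x ≠ 0 := _root_.Pool.Agent.MUX.emb_ne_zero h hx0
  have hmu : muX R i ≠ 0 := by
    unfold muX
    exact div_ne_zero (mul_ne_zero hom hNC) hom0
  have hL0 : ∀ z, z ∈ (R.L R.i0).lattice ↔ ∃ x : OO A B, z = R.om R.i0 * emb x := by
    intro z
    rw [hnl0.mem, R.b0]
    simp
  have h3 : Nat.Prime 2 := Nat.prime_two
  refine ⟨mul_ne_zero hmu hex, ?_, (nm x).natAbs * nI (R.b i), ?_, ?_⟩
  · intro u hu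
    obtain ⟨y, rfl⟩ := (hL0 u).1 hu
    rw [hnl.mem]
    refine ⟨(nI (R.b i) : ℕ) * (x * y), (R.b i).mul_mem_right _ hNb, ?_⟩
    rw [_root_.Pool.Agent.MUX.emb_mul h, _root_.Pool.Agent.MUX.emb_mul h, _root_.Pool.Agent.MUX.emb_natCast h]
    unfold muX
    field_simp
  · intro hd
    rcases h3.dvd_mul.1 hd with h4 | h4
    · apply hC.nrm x hx
      exact Int.natCast_dvd.2 h4
    · have h5 : 2 ∣ Nat.gcd (nI (R.b i)) n := Nat.dvd_gcd h4 h2n
      rw [Nat.Coprime.gcd_eq_one (R.cop i)] at h5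
      omega
  · intro z hz
    obtain ⟨y, -, hy⟩ := (hnl.mem _).1 hz
    rw [hL0]
    refine ⟨star x * y, ?_⟩
    have h1 : (nI (R.b i) : ℂ) * emb x * z = R.om R.i0 * emb y := by
      unfold muX at hy
      field_simp at hy
      linear_combination hy
    have h2 : (((nm x).natAbs : ℕ) : ℂ) = emb x * emb (star x) := by
      have h6 : (((nm x).natAbs : ℕ) : ℤ) = nm x := Int.natAbs_of_nonneg (nm_nonneg h x)
      rw [← _root_.Pool.Agent.MUX.emb_mul h, mul_star, _root_.Pool.Agent.MUX.emb_intCast h, ← Int.cast_natCast, h6]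
    rw [_root_.Pool.Agent.MUX.emb_mul h]
    have h7 : (((nm x).natAbs : ℕ) : ℂ) * (nI (R.b i) : ℂ) * z =
        R.om R.i0 * (emb (star x) * emb y) := by
      rw [h2]
      linear_combination (emb (star x)) * h1
    rw [← h7, Nat.cast_mul]

end

end Pool.Agent.N2V


end

section

/-!
# MUX-2N, block E2N, module TPT: torsion points

The valuations of `x` at the points of order a power of two are computed from the duplication
formula, with the lemmas `CHT.alg_x` (`R_CHT.lean`) and `TP2.base`, `TP2.step` (`R_TP2.lean`).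
-/

set_option autoImplicit false

open Polynomial

namespace Pool.Agent.N2E

open _root_.MU3 _root_.Pool.Agent.MU3A _root_.Pool.Agent.MU3B _root_.Pool.Agent.MUX _root_.Pool.Agent.MUXU _root_.Pool.Agent.MUXE
open _root_.Pool.Agent.RI _root_.Pool.Agent.NS _root_.Pool.Agent.N2
open _root_.Pool.Agent.NSE (IntP)
open _root_.Pool.Agent.MUX2 (GRG)
open _root_.Pool.Agent.MUXV (InK tX)

noncomputable section

namespace TPT

theorem v_int (V : ValuationSubring ℂ) (a : ℤ) : V.valuation (a : ℂ) ≤ 1 :=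
  (V.valuation_le_one_iff _).2 (intCast_mem V a)

/-- odd integers are units at `V` -/
theorem v_nat (V : ValuationSubring ℂ) (h2 : V.valuation (2 : ℂ) < 1) (N : ℕ) (hN : ¬ 2 ∣ N) :
    V.valuation (N : ℂ) = 1 := by
  obtain ⟨k, hk⟩ : ∃ k : ℕ, N = 2 * k + 1 := ⟨N / 2, by omega⟩
  refine le_antisymm ?_ (not_lt.1 fun hlt => ?_)
  · have := v_int V (N : ℤ)
    rwa [Int.cast_natCast] at this
  · have h3 : V.valuation ((2 : ℂ) * (k : ℂ)) < 1 := by
      rw [map_mul]
      have := v_int V (k : ℤ)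
      rw [Int.cast_natCast] at this
      exact lt_of_le_of_lt (mul_le_of_le_one_right' this) h2
    have h4 := Valuation.map_sub_lt V.valuation hlt h3
    have h5 : (N : ℂ) - 2 * (k : ℂ) = 1 := by
      rw [hk]
      push_cast
      ring
    rw [h5, map_one] at h4
    exact lt_irrefl _ h4

/-- duplication in Deuring form -/
theorem dup {L : PeriodPair} {u e a c : ℂ} (hu : u ≠ 0)
    (hD : ∀ z ∉ L.lattice, et L u z ^ 2 = 4 * xu L u e z ^ 3 + (a * xu L u e z + c) ^ 2)
    (he : 12 * e = a ^ 2 * u ^ 2) (hg2 : 12 * e ^ 2 - L.g₂ = 2 * a * c * u ^ 4)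
    {z : ℂ} (hz : z ∉ L.lattice) :
    (2 * z ∈ L.lattice → 4 * xu L u e z ^ 3 + (a * xu L u e z + c) ^ 2 = 0) ∧
    (2 * z ∉ L.lattice → xu L u e (2 * z) * (4 * xu L u e z ^ 3 + (a * xu L u e z + c) ^ 2) =
      xu L u e z ^ 4 - a * c * xu L u e z ^ 2 - 2 * c ^ 2 * xu L u e z) := by
  have hE := hD z hz
  refine ⟨fun h2 => ?_, fun h2z => ?_⟩
  · have h0 : L.derivWeierstrassP z = 0 := (b_ZER L z hz).2 h2
    rw [← hE]
    unfold et
    rw [h0]
    simp
  · obtain ⟨h1, -⟩ := b_DUP L z h2z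
    have hne : L.derivWeierstrassP z ≠ 0 := fun h0 => h2z ((b_ZER L z hz).1 h0)
    have hTT : 2 * yt L u e a c z + a * xu L u e z + c = et L u z := by
      unfold yt
      ring
    have hy : et L u z ≠ 0 := by
      unfold et
      exact div_ne_zero hne (pow_ne_zero 3 hu)
    have hT : u ^ 4 * (6 * xu L u e z ^ 2 + a ^ 2 * xu L u e z + a * c) =
        6 * L.weierstrassP z ^ 2 - L.g₂ / 2 := by
      have hx : L.weierstrassP z = u ^ 2 * xu L u e z + e := by
        unfold xu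
        field_simp
        ring
      have he' : e = a ^ 2 * u ^ 2 / 12 := by linear_combination he / 12
      have hg : L.g₂ = 12 * e ^ 2 - 2 * a * c * u ^ 4 := by linear_combination -hg2
      rw [hg, hx, he']
      ring
    have hm : (3 * xu L u e z ^ 2 - a * yt L u e a c z) / et L u z =
        (6 * L.weierstrassP z ^ 2 - L.g₂ / 2) / (2 * L.derivWeierstrassP z) / u - a / 2 := by
      rw [← hT]
      have h3 : 3 * xu L u e z ^ 2 - a * yt L u e a c z =
          ((6 * xu L u e z ^ 2 + a ^ 2 * xu L u e z + a * c) - a * et L u z) / 2 := by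
        rw [← hTT]
        ring
      rw [h3]
      unfold et
      field_simp
    have h1' : L.weierstrassP (2 * z) + L.weierstrassP z + L.weierstrassP z =
        ((6 * L.weierstrassP z ^ 2 - L.g₂ / 2) / (2 * L.derivWeierstrassP z)) ^ 2 := by
      rw [← h1]
      ring
    have he2 : 12 * e = u ^ 2 * a ^ 2 := by linear_combination he
    have h4 := Pool.Agent.N2R.CHT.alg_x hu he2 h1' hm
    have h5 : xu L u e (2 * z) = ((3 * xu L u e z ^ 2 - a * yt L u e a c z) / et L u z) ^ 2 +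
        a * ((3 * xu L u e z ^ 2 - a * yt L u e a c z) / et L u z) - 2 * xu L u e z := by
      calc xu L u e (2 * z) = (L.weierstrassP (2 * z) - e) / u ^ 2 := rfl
        _ = _ := h4
        _ = _ := by
          unfold xu
          ring
    rw [h5, ← hTT]
    rw [← hTT] at hy hE
    generalize xu L u e z = X at *
    generalize yt L u e a c z = Y at *
    have e1 : (3 * X ^ 2 - a * Y) / (2 * Y + a * X + c) * (2 * Y + a * X + c) =
        3 * X ^ 2 - a * Y := div_mul_cancel₀ _ hy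
    generalize (3 * X ^ 2 - a * Y) / (2 * Y + a * X + c) = l at *
    rw [← hE]
    have e2 : (l ^ 2 + a * l - 2 * X) * (2 * Y + a * X + c) ^ 2 =
        (3 * X ^ 2 - a * Y) ^ 2 + a * (3 * X ^ 2 - a * Y) * (2 * Y + a * X + c) -
          2 * X * (2 * Y + a * X + c) ^ 2 := by
      rw [← e1]
      ring
    rw [e2]
    linear_combination (-(a ^ 2) / 4 - 2 * X) * hE

end TPT

open _root_.Pool.Agent.N2E.TPT _root_.Pool.Agent.N2R.TP2 in
theorem td_TPT (h1 : Sd_COE) (h2 : Sd_GRT) : Sd_TPT := by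
  intro V L u e a1 a3 hG hv2
  obtain ⟨ξ, G⟩ := h2 V L u e a1 a3 hG hv2
  obtain ⟨he, hg2, -, -, -, hD, -, -, -⟩ := h1 V L u e a1 a3 hG hv2
  refine ⟨fun N hN => ⟨v_nat V hv2 N hN, fun z hz hK =>
    Pool.Agent.MUX2.gmem_of_nat_mul G hK (v_nat V hv2 N hN) hz⟩, ?_⟩
  have key : ∀ (j : ℕ) (z : ℂ), 2 ^ (j + 1) * z ∈ L.lattice → 2 ^ j * z ∉ L.lattice →
      z ∉ L.lattice ∧ 1 < V.valuation (xu L u e z) ∧
        V.valuation (xu L u e z) ^ (3 * 4 ^ j) * V.valuation (2 : ℂ) ^ 2 = 1 := by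
    intro j
    induction j with
    | zero =>
      intro z hz hz0
      rw [pow_zero, one_mul] at hz0
      rw [zero_add, pow_one] at hz
      obtain ⟨h3, h4⟩ := base hv2 hG.v1 hG.v3 ((dup hG.u0 hD he hg2 hz0).1 hz)
      exact ⟨hz0, h3, by rw [pow_zero, mul_one]; exact h4⟩
    | succ j ih =>
      intro z hz hz0
      have hz1 : z ∉ L.lattice := by
        intro h1
        apply hz0
        have h3 := L.lattice.nsmul_mem h1 (2 ^ (j + 1))
        rw [nsmul_eq_mul] at h3
        exact_mod_cast h3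
      have hz2 : 2 * z ∉ L.lattice := by
        intro h1
        apply hz0
        have h3 := L.lattice.nsmul_mem h1 (2 ^ j)
        rw [nsmul_eq_mul] at h3
        have h4 : (2 : ℂ) ^ (j + 1) * z = ((2 ^ j : ℕ) : ℂ) * (2 * z) := by
          push_cast
          ring
        rw [h4]
        exact h3
      obtain ⟨-, hb, hb2⟩ := ih (2 * z) (by
        have h4 : (2 : ℂ) ^ (j + 1) * (2 * z) = 2 ^ (j + 1 + 1) * z := by ring
        rw [h4]
        exact hz) (by
        have h4 : (2 : ℂ) ^ j * (2 * z) = 2 ^ (j + 1) * z := by ring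
        rw [h4]
        exact hz0)
      have hb3 : V.valuation (xu L u e (2 * z)) ^ 3 * V.valuation (2 : ℂ) ^ 2 ≤ 1 := by
        rw [← hb2]
        apply mul_le_mul_left
        apply pow_le_pow_right₀ hb.le
        have := Nat.one_le_pow j 4 (by norm_num)
        omega
      obtain ⟨h6, h7⟩ := step hv2 hG.v1 hG.v3 hb hb3 ((dup hG.u0 hD he hg2 hz1).2 hz2)
      refine ⟨hz1, h6, ?_⟩
      rw [h7, ← pow_mul] at hb2
      rw [← hb2]
      congr 2
      rw [pow_succ]
      ring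
  intro j z hz hz0
  obtain ⟨hzL, hx, hx2⟩ := key j z hz hz0
  have hK : InK V L (xu L u e) z := Or.inr fun hin =>
    absurd hx (not_lt.2 ((V.valuation_le_one_iff _).2 hin))
  refine ⟨hK, hzL, ?_⟩
  obtain ⟨-, -, h3⟩ := Pool.Agent.MUX2.gv_tX_lt G hK hzL
  refine (pow_left_inj₀ zero_le zero_le two_ne_zero).1 ?_
  have h4 : V.valuation (xu L u e z) ^ (3 * 4 ^ j) ≠ 0 :=
    pow_ne_zero _ (ne_of_gt (lt_trans zero_lt_one hx))
  apply mul_left_cancel₀ h4
  rw [hx2]
  calc V.valuation (xu L u e z) ^ (3 * 4 ^ j) *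
        (V.valuation (tX (xu L u e) (yt L u e a1 a3) z) ^ (3 * 4 ^ j)) ^ 2
      = (V.valuation (xu L u e z) *
          V.valuation (tX (xu L u e) (yt L u e a1 a3) z) ^ 2) ^ (3 * 4 ^ j) := by
        rw [mul_pow, ← pow_mul, ← pow_mul (V.valuation (tX (xu L u e) (yt L u e a1 a3) z)) 2,
          mul_comm (3 * 4 ^ j) 2]
    _ = 1 := by rw [h3, one_pow]

end

end Pool.Agent.N2E


end

section

/-!
# MUX-2R, block ER2, module TWO: points of order a power of two (helper42)
-/

set_option autoImplicit false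

open Polynomial

namespace Pool.Agent.N2V

open _root_.MU3 _root_.Pool.Agent.MU3A _root_.Pool.Agent.MU3B _root_.Pool.Agent.MUX _root_.Pool.Agent.MUXU _root_.Pool.Agent.MUXE
open _root_.Pool.Agent.RI _root_.Pool.Agent.NS _root_.Pool.Agent.N2
open _root_.Pool.Agent.NSE (IntP)
open _root_.Pool.Agent.MUX2 (GRG)
open _root_.Pool.Agent.MUXV (InK tX)
open _root_.Pool.Agent.N2E (dlg AutC cc)

noncomputable section

namespace TWO

/-- `a1 x + a3` is a unit if `x` is integral -/
lemma unit_lin {V : ValuationSubring ℂ} {a1 a3 x : ℂ} (h1 : V.valuation a1 < 1)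
    (h3 : V.valuation a3 = 1) (hx : V.valuation x ≤ 1) : V.valuation (a1 * x + a3) = 1 := by
  have h4 : V.valuation (a1 * x) < V.valuation a3 := by
    rw [map_mul, h3]
    exact (mul_le_of_le_one_right' hx).trans_lt h1
  rw [Valuation.map_add_eq_of_lt_right _ h4, h3]

/-- the zeros of the two-division polynomial -/
lemma base {V : ValuationSubring ℂ} {a1 a3 x : ℂ} (h2 : V.valuation (2 : ℂ) < 1)
    (h1 : V.valuation a1 ^ 2 ≤ V.valuation (2 : ℂ)) (h1' : V.valuation a1 < 1)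
    (h3 : V.valuation a3 = 1) (he : 4 * x ^ 3 + (a1 * x + a3) ^ 2 = 0) :
    1 < V.valuation x ∧ V.valuation (2 : ℂ) * V.valuation x ≤ 1 := by
  have h4 : (a1 * x + a3) ^ 2 = -(2 ^ 2 * x ^ 3) := by linear_combination he
  have h5 := congrArg V.valuation h4
  rw [Valuation.map_neg, map_mul, map_pow, map_pow, map_pow] at h5
  have hT : 1 < V.valuation x := by
    by_contra hcon
    have hx := not_lt.1 hcon
    rw [unit_lin h1' h3 hx, one_pow] at h5
    have h6 : V.valuation (2 : ℂ) ^ 2 * V.valuation x ^ 3 < 1 :=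
      (mul_le_of_le_one_right' (pow_le_one' hx 3)).trans_lt (pow_lt_one₀ zero_le h2 two_ne_zero)
    rw [← h5] at h6
    exact lt_irrefl _ h6
  refine ⟨hT, ?_⟩
  by_contra hcon
  have hc := not_le.1 hcon
  have hT0 : 0 < V.valuation x := lt_trans zero_lt_one hT
  have h20 : 0 < V.valuation (2 : ℂ) := by
    rw [zero_lt_iff]
    exact (Valuation.ne_zero_iff _).2 (by norm_num)
  -- the two bounds
  have h6 : V.valuation (2 : ℂ) * V.valuation x ^ 2 <
      V.valuation (2 : ℂ) ^ 2 * V.valuation x ^ 3 := by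
    have h7 : 0 < V.valuation (2 : ℂ) * V.valuation x ^ 2 := mul_pos h20 (pow_pos hT0 2)
    calc V.valuation (2 : ℂ) * V.valuation x ^ 2
        = V.valuation (2 : ℂ) * V.valuation x ^ 2 * 1 := (mul_one _).symm
      _ < V.valuation (2 : ℂ) * V.valuation x ^ 2 * (V.valuation (2 : ℂ) * V.valuation x) :=
          mul_lt_mul_of_pos_left hc h7
      _ = V.valuation (2 : ℂ) ^ 2 * V.valuation x ^ 3 := by
          rw [mul_mul_mul_comm, ← pow_two, ← pow_succ]
  have h8 : 1 < V.valuation (2 : ℂ) ^ 2 * V.valuation x ^ 3 := by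
    calc (1 : V.ValueGroup) < V.valuation (2 : ℂ) * V.valuation x := hc
      _ < V.valuation (2 : ℂ) * V.valuation x ^ 2 := by
          rw [pow_two]
          refine mul_lt_mul_of_pos_left ?_ h20
          calc V.valuation x = V.valuation x * 1 := (mul_one _).symm
            _ < V.valuation x * V.valuation x := mul_lt_mul_of_pos_left hT hT0
      _ < _ := h6
  have h9 : V.valuation (a1 * x + a3) ^ 2 < V.valuation (2 : ℂ) ^ 2 * V.valuation x ^ 3 := by
    rcases le_total (V.valuation (a1 * x)) (V.valuation a3) with h10 | h10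
    · have h11 := (Valuation.map_add V.valuation (a1 * x) a3).trans (max_le h10 le_rfl)
      rw [h3] at h11
      exact (pow_le_one' h11 2).trans_lt h8
    · have h11 := (Valuation.map_add V.valuation (a1 * x) a3).trans (max_le le_rfl h10)
      rw [map_mul] at h11
      refine (pow_le_pow_left' h11 2).trans_lt ?_
      rw [mul_pow]
      exact (mul_le_mul' h1 le_rfl).trans_lt h6
  rw [h5] at h9
  exact lt_irrefl _ h9

end TWO

open _root_.Pool.Agent.N2V.TWO in
theorem tv_TWO (h1 : Sv_COE) (h2 : Sv_PVI) : Sv_TWO := by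
  intro V L u e a1 a3 hG hv2
  obtain ⟨he, hg2, -, -, ha1, -, hD, -, -, -⟩ := h1 V L u e a1 a3 hG hv2
  have hdup := fun z (hz : z ∉ L.lattice) =>
    Pool.Agent.N2E.TPT.dup (L := L) (u := u) (e := e) (a := a1) (c := a3) hG.u0 hD he hg2 hz
  have p1 : ∀ z, 2 * z ∈ L.lattice → z ∉ L.lattice → 1 < V.valuation (xu L u e z) ∧
      V.valuation (2 : ℂ) * V.valuation (xu L u e z) ≤ 1 := fun z hz hzL =>
    base hv2 hG.v1 ha1 hG.v3 ((hdup z hzL).1 hz)
  have p2 : ∀ (j : ℕ) (z : ℂ), 2 ^ j * z ∈ L.lattice → InK V L (xu L u e) z := by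
    intro j
    induction j with
    | zero =>
      intro z hz
      rw [pow_zero, one_mul] at hz
      exact Or.inl hz
    | succ j ih =>
      intro z hz
      by_cases hzL : z ∈ L.lattice
      · exact Or.inl hzL
      refine Or.inr fun hin => ?_
      have hx := (V.valuation_le_one_iff _).2 hin
      by_cases h2z : 2 * z ∈ L.lattice
      · exact absurd (p1 z h2z hzL).1 (not_lt.2 hx)
      have h3 : (2 : ℂ) ^ j * (2 * z) ∈ L.lattice := by
        have h4 : (2 : ℂ) ^ j * (2 * z) = 2 ^ (j + 1) * z := by ring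
        rw [h4]
        exact hz
      rcases ih _ h3 with h4 | h4
      · exact h2z h4
      have h5 : 1 < V.valuation (xu L u e (2 * z)) := not_le.1 fun h6 =>
        h4 ((V.valuation_le_one_iff _).1 h6)
      have h6 := congrArg V.valuation ((hdup z hzL).2 h2z)
      have h7 : V.valuation (4 * xu L u e z ^ 3 + (a1 * xu L u e z + a3) ^ 2) = 1 := by
        have h8 : V.valuation ((a1 * xu L u e z + a3) ^ 2) = 1 := by
          rw [map_pow, unit_lin ha1 hG.v3 hx, one_pow]
        have h9 : V.valuation (4 * xu L u e z ^ 3) <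
            V.valuation ((a1 * xu L u e z + a3) ^ 2) := by
          have h10 : (4 : ℂ) = 2 * 2 := by norm_num
          rw [h8, h10, map_mul, map_mul, map_pow]
          exact (mul_le_of_le_one_right' (pow_le_one' hx 3)).trans_lt
            ((mul_le_of_le_one_right' hv2.le).trans_lt hv2)
        rw [Valuation.map_add_eq_of_lt_right _ h9, h8]
      rw [map_mul, h7, mul_one] at h6
      rw [h6] at h5
      refine absurd h5 (not_lt.2 ?_)
      have ha1V : a1 ∈ V := (V.valuation_le_one_iff _).1 ha1.le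
      have ha3V : a3 ∈ V := (V.valuation_le_one_iff _).1 hG.v3.le
      have h2V : (2 : ℂ) ∈ V := (V.valuation_le_one_iff _).1 hv2.le
      refine (V.valuation_le_one_iff _).2 ?_
      exact sub_mem (sub_mem (pow_mem hin 4) (mul_mem (mul_mem ha1V ha3V) (pow_mem hin 2)))
        (mul_mem (mul_mem h2V (pow_mem ha3V 2)) hin)
  refine ⟨p1, p2, fun R hR => ?_, fun R hR => ?_⟩
  · have h3 := h2 V L L u e a1 a3 u e a1 a3 2 hG hG hv2 (by norm_num) (fun w hw => by
      have := nsmul_mem hw 2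
      rw [nsmul_eq_mul] at this
      exact_mod_cast this) R hR (fun q hq => p2 1 q (by
        rw [pow_one]
        exact hR.mem q hq))
    rw [mul_div_cancel_right₀ _ hG.u0] at h3
    exact h3
  · have h3 := h2 V L L u e a1 a3 u e a1 a3 4 hG hG hv2 (by norm_num) (fun w hw => by
      have := nsmul_mem hw 4
      rw [nsmul_eq_mul] at this
      exact_mod_cast this) R hR (fun q hq => p2 2 q (by
        have h4 : (2 : ℂ) ^ 2 = 4 := by norm_num
        rw [h4]
        exact hR.mem q hq))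
    rw [mul_div_cancel_right₀ _ hG.u0] at h3
    have h4 : V.valuation (4 : ℂ) = V.valuation (2 : ℂ) ^ 2 := by
      rw [← map_pow]
      norm_num
    rw [h4, ← pow_mul] at h3
    exact h3

end

end Pool.Agent.N2V


end

section

/-!
# MUX-2N, block E2N, module GTA: automorphisms of `ℂ` act on `Θ_a(z)` (helper95; after `MUX/E_GTH.lean`)
-/

set_option autoImplicit false

open Polynomial

namespace Pool.Agent.N2E

open _root_.MU3 _root_.Pool.Agent.MU3A _root_.Pool.Agent.MU3B _root_.Pool.Agent.MUX _root_.Pool.Agent.MUXU _root_.Pool.Agent.MUXE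
open _root_.Pool.Agent.RI _root_.Pool.Agent.NS _root_.Pool.Agent.N2

noncomputable section

/-- (GTA) the automorphism acts on `Θ_a` -/
theorem td_GTA : Sd_GTA := by
  intro A B hR L hL a H hH m hm c s hs hac z hz hzL
  obtain ⟨t1, -, -, -, -, -, -, -, t9⟩ := te_TRA A B hR L hL
  obtain ⟨φ, hφ⟩ := hR.hom
  have emul : ∀ x y : OO A B, emb (x * y) = emb x * emb y := by
    intro x y
    rw [← hφ, ← hφ, ← hφ, map_mul]
  have eadd : ∀ x y : OO A B, emb (x + y) = emb x + emb y := by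
    intro x y
    rw [← hφ, ← hφ, ← hφ, map_add]
  have eone : emb (1 : OO A B) = 1 := by rw [← hφ, map_one]
  have enat : ∀ n : ℕ, emb (n : OO A B) = n := by
    intro n
    rw [← hφ, map_natCast]
  have hgen : ∀ x ∈ sp (a : OO A B), ∃ k : OO A B, x = k * (a : OO A B) := by
    intro x hx
    obtain ⟨k, hk⟩ := Ideal.mem_span_singleton'.1 hx
    exact ⟨k, hk.symm⟩
  have hq : ∀ q ∈ H, Tor m L q ∧ q ∉ L.lattice := by
    intro q hqH
    constructor
    · intro x hx
      obtain ⟨k, hk⟩ := hgen x (hm hx)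
      rw [hk, emul, enat, mul_assoc]
      exact t1 k _ (hH.mem q hqH)
    · intro h0
      refine hH.ne q hqH ?_
      rw [two_mul]
      exact add_mem h0 h0
  have hcq : ∀ q ∈ H, xn L (emb c * q) = xn L q := by
    intro q hqH
    obtain ⟨k, hk⟩ := hgen _ hac
    have h2 : q - emb c * q ∈ L.lattice := by
      have h3 : c = 1 + k * (a : OO A B) := by rw [← hk]; ring
      have h4 : q - emb c * q = -(emb k * ((a : ℂ) * q)) := by
        rw [h3, eadd, eone, emul, enat]
        ring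
      rw [h4]
      exact neg_mem (t1 k _ (hH.mem q hqH))
    exact (((t9 q (emb c * q) h2).2 (hq q hqH).2).1).symm
  have hTh : ∀ z, ThetaH L H z = ∏ q ∈ H, (xn L z - xn L q) := by
    intro z
    unfold ThetaH
    refine Finset.prod_congr rfl fun q _ => ?_
    unfold xn
    ring
  rw [hTh, hTh, map_prod]
  refine Finset.prod_congr rfl fun q hqH => ?_
  rw [map_sub, (hs.xn L hL z hz hzL).2, (hs.xn L hL q (hq q hqH).1 (hq q hqH).2).2, hcq q hqH]

end

end Pool.Agent.N2E


end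

section

/-!
# MUX-2N, block E2N, module AUT: automorphisms of `ℂ` which act as a principal ideal. Model:
`Pool/Agent/MUX/E_GAL.lean` (helper44), whose lemmas are used
-/

set_option autoImplicit false

open Polynomial

namespace Pool.Agent.N2E

open _root_.MU3 _root_.Pool.Agent.MU3A _root_.Pool.Agent.MU3B _root_.Pool.Agent.MUX _root_.Pool.Agent.MUXU _root_.Pool.Agent.MUXE
open _root_.Pool.Agent.RI _root_.Pool.Agent.NS _root_.Pool.Agent.N2
open _root_.Pool.Agent.NSE (IntP)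
open _root_.Pool.Agent.MUX2 (GRG)
open _root_.Pool.Agent.MUXV (InK tX)

noncomputable section

/-- (AUT) -/
theorem td_AUT : Sd_AUT := by
  intro A B hR T hN m hm c hc0 hc
  obtain ⟨s, hs, hact⟩ := T.surj m hm (sp c)
    (fun h => hc0 (Ideal.span_singleton_eq_bot.1 h)) hc
  obtain ⟨L₀, b₀, om₀, hL₀⟩ := hN
  obtain ⟨b₁, L₁, om₁, mu₁, hL₁, hA₁⟩ := hact b₀ L₀ om₀ hL₀
  refine ⟨s, hs, ?_, ?_, ?_, ?_⟩
  · rintro L ⟨b, om, hL⟩
    obtain ⟨b', L', om', mu, hL', hA⟩ := hact b L om hL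
    rw [← hA.kap, (GalX.core hR hL hL' hA.isq).1]
  · rintro L ⟨b, om, hL⟩ z hz hz'
    obtain ⟨b', L', om', mu, hL', hA⟩ := hact b L om hL
    obtain ⟨h1, h2, h3, h4⟩ := GalX.core hR hL hL' hA.isq
    rcases hA.act z hz with ⟨h5, -⟩ | ⟨-, h6, h7, -⟩
    · exact absurd h5 hz'
    · rw [← h3] at h6
      have h8 : emb c * z ∉ L.lattice := by
        rcases h2 with h | h
        · rw [← h]
          exact h6
        · intro h9
          apply h6
          rw [h, neg_mul]
          exact neg_mem h9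
      refine ⟨h8, ?_⟩
      rw [h7]
      unfold xn
      rw [h4]
      rcases h2 with h | h
      · rw [h]
      · rw [h, neg_mul, L.weierstrassP_neg]
  · intro m' hmm hc1 y hy
    have hm' : m' ≠ ⊥ := by
      intro h0
      exact hm (le_bot_iff.1 (h0 ▸ hmm))
    have hA' : ActI s m' (sp c) L₀ L₁ mu₁ := by
      refine ⟨hA₁.kap, ?_, hA₁.isq, fun z hz => hA₁.act z fun x hx => hz x (hmm hx)⟩
      rw [Ideal.isCoprime_iff_sup_eq] at hc ⊢
      rw [eq_top_iff, ← hc]
      exact sup_le_sup_left hmm _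
    exact (T.triv m' (sp c) s b₀ L₀ L₁ om₀ mu₁ hm' hs hL₀ hA' hL₁.nrm).2 ⟨c, hc1, rfl⟩ y hy
  · intro M hM hmM z hz
    exact (T.zeta M m (sp c) s b₀ L₀ L₁ om₀ mu₁ hm hs hM hmM hL₀ hA₁ z hz).2

end

end Pool.Agent.N2E


end

section

/-!
# MUX-2N, block E2N, module CTX: from the standing hypotheses to `CtxU` (helper12, after `NS/E_CTX.lean`)
-/

set_option autoImplicit false

namespace Pool.Agent.ME2E

open _root_.MU3 _root_.Pool.Agent.MU3A _root_.Pool.Agent.MU3B _root_.Pool.Agent.MUX _root_.Pool.Agent.MUXU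
open _root_.Pool.Agent.RI _root_.Pool.Agent.NS
open _root_.Pool.Agent.ME hiding ActE
open _root_.Pool.Agent.MEE _root_.Pool.Agent.ME2
open _root_.Pool.Agent.MUXE (RingE)
open _root_.Pool.Agent.N2 (GoodT et yt WT IsTei2 OddT PTq)
open _root_.Pool.Agent.N2E (dlg del cc IsoT Sd_LAG Sd_PRD Sd_COE Sd_GRT Sd_TPT Sd_UNT Sd_RAT Sd_THT Sd_DST Sd_NE1 Sd_PRT)

noncomputable section

namespace CtxTaux

variable {A B : ℤ}

lemma _root_.Pool.Agent.ME2E.CtxTaux.mem_idl (m : ℕ) (x : OO A B) :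
    x ∈ idl (A := A) (B := B) m ↔ (m : ℤ) ∣ x.re ∧ (m : ℤ) ∣ x.im := by
  rw [Ideal.mem_span_singleton]
  constructor
  · rintro ⟨t, rfl⟩
    refine ⟨⟨t.re, ?_⟩, ⟨t.im, ?_⟩⟩
    · rw [QuadraticAlgebra.re_mul]; simp
    · rw [QuadraticAlgebra.im_mul]; simp
  · rintro ⟨⟨s, hs⟩, ⟨t, ht⟩⟩
    refine ⟨⟨s, t⟩, ?_⟩
    apply QuadraticAlgebra.ext
    · rw [QuadraticAlgebra.re_mul]; simp [hs]
    · rw [QuadraticAlgebra.im_mul]; simp [ht]

lemma _root_.Pool.Agent.ME2E.CtxTaux.emb_nat (h : CQ A B) (n : ℕ) : emb ((n : ℕ) : OO A B) = (n : ℂ) := by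
  rw [← MUXE.RNGaux.eH_apply h, map_natCast]

lemma parity {a b : ℤ} (h : (2 : ℤ) ∣ a ^ 2 + a * b + b ^ 2) : (2 : ℤ) ∣ a ∧ (2 : ℤ) ∣ b := by
  have h1 : a % 2 = 0 ∨ a % 2 = 1 := by omega
  have h2 : b % 2 = 0 ∨ b % 2 = 1 := by omega
  have h3 : (a ^ 2 + a * b + b ^ 2) % 2 = ((a % 2) ^ 2 + (a % 2) * (b % 2) + (b % 2) ^ 2) % 2 :=
    (((Int.mod_modEq a 2).symm.pow 2).add
      ((Int.mod_modEq a 2).symm.mul (Int.mod_modEq b 2).symm)).add
        ((Int.mod_modEq b 2).symm.pow 2)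
  have h4 : (a ^ 2 + a * b + b ^ 2) % 2 = 0 := Int.emod_eq_zero_of_dvd h
  rw [h4] at h3
  rcases h1 with h1 | h1 <;> rcases h2 with h2 | h2 <;> rw [h1, h2] at h3 <;>
    first
      | exact ⟨Int.dvd_of_emod_eq_zero h1, Int.dvd_of_emod_eq_zero h2⟩
      | (exfalso; revert h3; decide)

lemma odd_AB (h : (8 : ℤ) ∣ B ^ 2 + 4 * A - 5) : (∃ s, B = 2 * s + 1) ∧ ∃ t, A = 2 * t + 1 := by
  obtain ⟨c, hc⟩ := h
  have hB : ∃ s, B = 2 * s + 1 := by
    rcases Int.even_or_odd B with ⟨s, hs⟩ | ⟨s, hs⟩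
    · exfalso
      have : B ^ 2 = 4 * s ^ 2 := by rw [hs]; ring
      rw [this] at hc
      omega
    · exact ⟨s, hs⟩
  refine ⟨hB, ?_⟩
  obtain ⟨s, hs⟩ := hB
  have h1 : B ^ 2 = 4 * (s * (s + 1)) + 1 := by rw [hs]; ring
  obtain ⟨r, hr⟩ := Int.even_mul_succ_self s
  rw [h1, hr] at hc
  exact ⟨c - r, by omega⟩

lemma nrm (h : (8 : ℤ) ∣ B ^ 2 + 4 * A - 5) {x : OO A B}
    (hx : x ∉ idl (A := A) (B := B) 2) : ¬ (2 : ℤ) ∣ nm x := by
  intro h1
  apply hx
  obtain ⟨⟨s, hs⟩, ⟨t, ht⟩⟩ := odd_AB h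
  have h3 : (2 : ℤ) ∣ x.re ^ 2 + x.re * x.im + x.im ^ 2 := by
    have h4 : x.re ^ 2 + x.re * x.im + x.im ^ 2 =
        nm x + 2 * (-(s * (x.re * x.im)) + (t + 1) * x.im ^ 2) := by
      unfold nm
      linear_combination (-(x.re * x.im)) * hs + x.im ^ 2 * ht
    rw [h4]
    exact dvd_add h1 (dvd_mul_right _ _)
  obtain ⟨h4, h5⟩ := parity h3
  rw [_root_.Pool.Agent.ME2E.CtxTaux.mem_idl]
  exact ⟨by exact_mod_cast h4, by exact_mod_cast h5⟩

lemma _root_.Pool.Agent.ME2E.CtxTaux.maxi (h : (8 : ℤ) ∣ B ^ 2 + 4 * A - 5) : (idl (A := A) (B := B) 2).IsMaximal := by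
  rw [Ideal.isMaximal_iff]
  refine ⟨?_, ?_⟩
  · intro h1
    rw [_root_.Pool.Agent.ME2E.CtxTaux.mem_idl] at h1
    have h2 := h1.1
    rw [QuadraticAlgebra.re_one] at h2
    norm_num at h2
  · intro J x hJ hx hxJ
    have h1 : IsCoprime (nm x) (2 : ℤ) :=
      isCoprime_comm.1 ((Int.prime_two.coprime_iff_not_dvd).2 (nrm h hx))
    obtain ⟨u, v, huv⟩ := h1
    have h2 : ((nm x : ℤ) : OO A B) ∈ J := by
      rw [← MUXE.RNGaux.mul_star']
      exact J.mul_mem_right _ hxJ
    have h3 : ((2 : ℕ) : OO A B) ∈ J := hJ (Ideal.mem_span_singleton_self _)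
    have h4 := congrArg (Int.cast : ℤ → OO A B) huv
    push_cast at h4
    rw [← h4]
    refine J.add_mem (J.mul_mem_left _ h2) (J.mul_mem_left _ ?_)
    simpa using h3

lemma _root_.Pool.Agent.ME2E.CtxTaux.val_le (h : CQ A B) (V : ValuationSubring ℂ) (x : OO A B) : V.valuation (emb x) ≤ 1 := by
  rw [ValuationSubring.valuation_le_one_iff]
  have h1 : IsIntegral V (emb x) := (MUXE.RNGaux.emb_int h x).tower_top
  obtain ⟨y, hy⟩ := IsIntegrallyClosed.isIntegral_iff.1 h1
  rw [← hy]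
  exact y.2

lemma _root_.Pool.Agent.ME2E.CtxTaux.val_unit (h : CQ A B) {V : ValuationSubring ℂ} (hV : OverI V (idl (A := A) (B := B) 2))
    {x : OO A B} (hx : x ∉ idl (A := A) (B := B) 2) : V.valuation (emb x) = 1 := by
  refine le_antisymm (_root_.Pool.Agent.ME2E.CtxTaux.val_le h V x) (not_lt.1 fun h1 => hx ((hV x).1 ?_))
  exact (ValuationSubring.mem_nonunits_iff V).2 h1

lemma _root_.Pool.Agent.ME2E.CtxTaux.val_emb (h : CQ A B) {V : ValuationSubring ℂ} (hV : OverI V (idl (A := A) (B := B) 2)) :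
    ∀ (n : ℕ) (x : OO A B), x ≠ 0 → (nm x).toNat ≤ n →
      ∃ j : ℕ, V.valuation (emb x) = V.valuation (2 : ℂ) ^ j := by
  intro n
  induction n with
  | zero =>
    intro x hx hn
    have := MUXE.RNGaux.nm_pos h hx
    omega
  | succ n ih =>
    intro x hx hn
    by_cases h3 : x ∈ idl (A := A) (B := B) 2
    · obtain ⟨y, hy⟩ := Ideal.mem_span_singleton.1 h3
      have hy0 : y ≠ 0 := by
        rintro rfl
        rw [mul_zero] at hy
        exact hx hy
      have hnm : nm x = 4 * nm y := by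
        have h4 : ((2 : ℕ) : OO A B).re = 2 := QuadraticAlgebra.re_natCast 2
        have h5 : ((2 : ℕ) : OO A B).im = 0 := QuadraticAlgebra.im_natCast 2
        rw [hy]
        unfold nm
        rw [QuadraticAlgebra.re_mul, QuadraticAlgebra.im_mul, h4, h5]
        ring
      have hpos := MUXE.RNGaux.nm_pos h hy0
      obtain ⟨j, hj⟩ := ih y hy0 (by omega)
      refine ⟨j + 1, ?_⟩
      rw [hy, ← MUXE.RNGaux.eH_apply h, map_mul, MUXE.RNGaux.eH_apply h, MUXE.RNGaux.eH_apply h, _root_.Pool.Agent.ME2E.CtxTaux.emb_nat h,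
        map_mul, hj, pow_succ, mul_comm]
      norm_num
    · exact ⟨0, by rw [pow_zero, _root_.Pool.Agent.ME2E.CtxTaux.val_unit h hV h3]⟩

lemma _root_.Pool.Agent.ME2E.CtxTaux.alg_kk (h : CQ A B) (y : ℂ) (hy : y ∈ kk A B) : IsAlgebraic ℤ y := by
  have h1 : Algebra.IsAlgebraic ℚ (kk A B) :=
    IntermediateField.isAlgebraic_adjoin_simple (MUXE.RNGaux.w_intQ h)
  have h2 : IsAlgebraic ℚ y := by
    have h3 := h1.isAlgebraic ⟨y, hy⟩
    exact h3.algebraMap
  exact (IsFractionRing.isAlgebraic_iff ℤ ℚ ℂ).2 h2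

end CtxTaux

open _root_.Pool.Agent.ME2E.CtxTaux in
/-- (CTX) from the standing hypotheses to `CtxU` -/
theorem ty_CTX : Sy_CTX := by
  intro A B V hC hB hV hT hF
  obtain ⟨hF1, hF2⟩ := hF A B V hC hB hV hT
  have h := hC.toCQ
  have h8 : (8 : ℤ) ∣ B ^ 2 + 4 * A - 5 := by
    rw [hC.hA, hB]
    norm_num
  have hv2 : V.valuation (2 : ℂ) < 1 := by
    have h1 := (hV ((2 : ℕ) : OO A B)).2 (Ideal.mem_span_singleton_self _)
    rw [ValuationSubring.mem_nonunits_iff, _root_.Pool.Agent.ME2E.CtxTaux.emb_nat h] at h1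
    exact_mod_cast h1
  have hv0 : V.valuation (2 : ℂ) ≠ 0 := by
    rw [Valuation.ne_zero_iff]
    norm_num
  have hR : RingE A B := MUXE.te_RNG A B h
  refine
    { ring := hR
      cq := h
      two := h8
      case := hC
      hB := hB
      v2 := hv2
      int := _root_.Pool.Agent.ME2E.CtxTaux.val_le h V
      unit := fun x hx => _root_.Pool.Agent.ME2E.CtxTaux.val_unit h hV hx
      nat := ?_
      max := _root_.Pool.Agent.ME2E.CtxTaux.maxi h8
      nrm := fun x hx => nrm h8 hx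
      kval := ?_
      good := ?_
      iner := hF2 }
  · intro n hn
    rw [← _root_.Pool.Agent.ME2E.CtxTaux.emb_nat h]
    refine _root_.Pool.Agent.ME2E.CtxTaux.val_unit h hV fun h1 => hn ?_
    rw [_root_.Pool.Agent.ME2E.CtxTaux.mem_idl] at h1
    have h2 := h1.1
    rw [QuadraticAlgebra.re_natCast] at h2
    exact_mod_cast h2
  · intro y hy hy0
    obtain ⟨n, hn, hint⟩ := (_root_.Pool.Agent.ME2E.CtxTaux.alg_kk h y hy).exists_integral_multiple
    have hnk : n • y ∈ kk A B := zsmul_mem hy n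
    obtain ⟨x, hx⟩ := (hR.int _ hnk).1 hint
    have hnC : (n : ℂ) ≠ 0 := by exact_mod_cast hn
    have hxe : (n : ℂ) * y = emb x := by
      rw [← hx, zsmul_eq_mul]
    have hx0 : x ≠ 0 := by
      rintro rfl
      rw [← MUXE.RNGaux.eH_apply h, map_zero] at hxe
      exact mul_ne_zero hnC hy0 hxe
    have hne : emb ((n : ℤ) : OO A B) = (n : ℂ) := by
      rw [← MUXE.RNGaux.eH_apply h, map_intCast]
    have hn0 : ((n : ℤ) : OO A B) ≠ 0 := by
      intro h0
      rw [h0, ← MUXE.RNGaux.eH_apply h, map_zero] at hne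
      exact hnC hne.symm
    obtain ⟨j, hj⟩ := _root_.Pool.Agent.ME2E.CtxTaux.val_emb h hV _ x hx0 le_rfl
    obtain ⟨i, hi⟩ := _root_.Pool.Agent.ME2E.CtxTaux.val_emb h hV _ ((n : ℤ) : OO A B) hn0 le_rfl
    rw [hne] at hi
    have h2 := congrArg V.valuation hxe
    rw [map_mul, hi, hj] at h2
    refine ⟨(j : ℤ) - i, ?_⟩
    rw [zpow_sub₀ hv0, zpow_natCast, zpow_natCast, ← h2]
    field_simp
  · rintro L ⟨b, om, hL⟩
    obtain ⟨u, e, a1, a3, h1, -⟩ := hF1 b L om hL
    exact ⟨u, e, a1, a3, h1⟩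

end

end Pool.Agent.ME2E


end

section

/-!
# MUX-2N, block E2N, module FIN: the final form (helper71)
-/

set_option autoImplicit false

namespace Pool.Agent.N2E

open _root_.MU3 _root_.Pool.Agent.MU3A _root_.Pool.Agent.MU3B _root_.Pool.Agent.MUX _root_.Pool.Agent.MUXU _root_.Pool.Agent.MUXE
open _root_.Pool.Agent.RI _root_.Pool.Agent.NS _root_.Pool.Agent.N2

noncomputable section

namespace FIN

lemma fn_f {A B : ℤ} {V : ValuationSubring ℂ} {f : ℕ} (h : SetT A B V f) : 3 ≤ f ∧ 3 ∣ f := by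
  have h1 : (3 : ℤ) ∣ (f : ℤ) := (dvd_mul_right 3 (absD A B)).trans h.fD
  have h2 : 3 ∣ f := by exact_mod_cast h1
  exact ⟨Nat.le_of_dvd (Nat.pos_of_ne_zero h.f0) h2, h2⟩

/-- `Θ` is even and periodic -/
lemma fn_theta {L : PeriodPair} {a : ℂ} {H : Finset ℂ} (hH : IsHalf L a H) {z l : ℂ}
    (hl : l ∈ L.lattice) : ThetaH L H (l - z) = ThetaH L H z := by
  obtain ⟨-, h1, h2⟩ := b_TIN L a H H hH hH
  rw [show l - z = -z + l by ring, h2 _ _ hl, h1]

lemma fn_mkout {A B : ℤ} {m : ℕ} (x : OO A B ⧸ idl (A := A) (B := B) m) :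
    (Quotient.out x : OO A B) + Quotient.out (-x) ∈ idl (A := A) (B := B) m := by
  rw [← Ideal.Quotient.eq_zero_iff_mem, map_add, Ideal.Quotient.mk_out, Ideal.Quotient.mk_out]
  exact add_neg_cancel x

end FIN

open _root_.Pool.Agent.N2E.FIN in
theorem td_FIN (h1 : Sd_CTX) (h2 : Sd_AUT) (h3 : Sd_CON) (h4 : Sd_GLC) (h5 : Sd_XXS)
    (h6 : Sd_HEQ) (h7 : Sd_HAL) (h8 : Sd_MAIN) : Sd_FIN := by
  classical
  intro hR A B V f hS hT ι _ R u e a1 a3 hG om hom n hn H hH D hD hDF hCyc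
  letI := algC hD
  intro C hC hCS
  obtain ⟨hf3, hf3'⟩ := fn_f hS
  obtain ⟨ha3, hao, haf⟩ := m0_aX (p := 2) (Or.inl rfl) hS.f0
  have hctx := h1 A B V hS.case hS.hV hT hR
  have hr := hctx.ring
  have hm : lvX 2 f n = 2 ^ (n + 2) * f := by
    simp [lvX, q0]
    ring
  have hm0 : lvX 2 f n ≠ 0 := by
    rw [hm]
    exact mul_ne_zero (pow_ne_zero _ (by norm_num)) hS.f0
  have ha0 : aX 2 f ≠ 0 := by omega
  have h2f : 2 * f ≠ 0 := by omega
  have hE : SetE A B V n f (aX 2 f) (lvX 2 f n) :=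
    ⟨hctx, hT, hn, hf3, hf3', hS.fp, ha3, hao, haf, hm⟩
  have hmb := m0_ne A B hr hm0
  have hmab := m0_ne A B hr (mul_ne_zero hm0 ha0)
  generalize haa : aX 2 f = a at *
  generalize hmm : lvX 2 f n = m at *
  -- the automorphism
  obtain ⟨hc, -⟩ := h3 A B V n f a m hE
  obtain ⟨hc1, hc2, hc3, -⟩ := hc (del : OO A B)
  obtain ⟨s, hs⟩ := h2 A B hr hT ⟨R.L R.i0, R.b R.i0, R.om R.i0, R.nl R.i0⟩ _ hmab _ hc3 hc1
  have hs1 : AutC (idl (A := A) (B := B) (m * a))
      (cc (2 ^ n * f * a) (((1 : ℕ) : OO A B) * del)) s := by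
    rw [Nat.cast_one, one_mul]
    exact hs
  have hsD : ∀ y ∈ D, s y = y := h4 A B V n f a m hE D hCyc 1 s hs1
  have hXc : ∀ τ : D ≃ₐ[kk A B] D, ∀ q ∈ XX R m hD τ,
      (q.1, Ideal.Quotient.mk (idl (A := A) (B := B) m) (cc (2 ^ n * f * a) del) * q.2) ∈
        XX R m hD τ := fun τ q hq =>
    (h5 A B V n f a m hE ι R D hD τ q hq).2 _ s hc2 hs hsD
  choose S hS1 hS2 using fun τ : D ≃ₐ[kk A B] D => h7 A B V n f a m hE ι R D hD τ (hXc τ)
  choose S' hS1' hS2' using hCS
  -- products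
  have hprod : ∀ τ : D ≃ₐ[kk A B] D, C τ = ∏ q ∈ S τ,
      ThetaH (R.L q.1) (H q.1) (pt R m q.1 (Quotient.out q.2)) := by
    intro τ
    rw [hS2' τ]
    refine (h6 A B V n f a m hE ι R D hD τ (S' τ) (hS1' τ)
      (fun q => ThetaH (R.L q.1) (H q.1) (pt R m q.1 (Quotient.out q.2))) ?_).1 (S τ) (hS1 τ)
    intro q hq
    obtain ⟨l, hl, e2⟩ := bdl_pt (te_PT te_TRA) hr R h2f q.1 hm0 (fn_mkout q.2)
    show ThetaH (R.L q.1) (H q.1) (pt R m q.1 (Quotient.out (-q.2))) = _
    rw [e2]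
    exact fn_theta (hH q.1) hl
  -- sums
  have hsum : ∀ τ : D ≃ₐ[kk A B] D, TT2 R om m a hD τ = ∑ q ∈ S τ, om (Quotient.out q.2) *
      muX R q.1 * dlX (R.L q.1) a (pt R m q.1 (Quotient.out q.2)) := by
    intro τ
    have e1 := (h6 A B V n f a m hE ι R D hD τ (S τ) (hS1 τ)
      (fun q => om (Quotient.out q.2) * muX R q.1 *
        dlX (R.L q.1) a (pt R m q.1 (Quotient.out q.2))) (by
      intro q hq
      obtain ⟨l, hl, e2⟩ := bdl_pt (te_PT te_TRA) hr R h2f q.1 hm0 (fn_mkout q.2)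
      show om (Quotient.out (-q.2)) * muX R q.1 *
        dlX (R.L q.1) a (pt R m q.1 (Quotient.out (-q.2))) = _
      have e3 : om (Quotient.out (-q.2)) = -om (Quotient.out q.2) := by
        rw [← hom.neg]
        refine hom.per _ _ ?_
        have e4 : (Quotient.out (-q.2) : OO A B) - -Quotient.out q.2 =
            Quotient.out q.2 + Quotient.out (-q.2) := by ring
        rw [e4]
        obtain ⟨t, ht⟩ := Ideal.mem_span_singleton.1 (fn_mkout q.2)
        rw [ht]
        refine Ideal.mem_span_singleton.2 ?_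
        refine Dvd.dvd.mul_right ?_ t
        rw [hm]
        have e5 : 2 * f ∣ 2 ^ (n + 2) * f := Dvd.intro (2 ^ (n + 1)) (by ring)
        exact_mod_cast Nat.cast_dvd_cast (α := OO A B) e5
      rw [e2, bdl_odd hl, e3]
      ring)).2
    unfold TT2
    rw [e1]
    ring
  have hcop : ∀ τ : D ≃ₐ[kk A B] D, ∀ q ∈ S τ,
      IsCoprime (Quotient.out q.2 : OO A B) ((m : ℕ) : OO A B) :=
    fun τ q hq => ((hS1 τ).sub q hq).1
  constructor
  · intro τ
    rw [hsum τ]
    exact (h8 A B V n f a m hE ι R u e a1 a3 hG H hH om hom Unit (fun _ => S τ)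
      (fun _ => hcop τ) (fun _ => hS2 τ)).1 ()
  · intro g hsq τ'
    have hfinG : Finite (D ≃ₐ[kk A B] D) := ew_fin hT _ hmb D hD hDF
    letI : Fintype (D ≃ₐ[kk A B] D) := Fintype.ofFinite _
    have hcom := m0_comm hT _ hmb D hD hDF
    have key := (h8 A B V n f a m hE ι R u e a1 a3 hG H hH om hom (D ≃ₐ[kk A B] D)
      (fun τ => S (τ * τ')) (fun τ => hcop (τ * τ')) (fun τ => hS2 (τ * τ'))).2 g
    rw [finsum_eq_sum_of_fintype]
    have e1 : (∑ τ : D ≃ₐ[kk A B] D, (g τ : ℂ) * TT2 R om m a hD (τ * τ')) =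
        ∑ τ : D ≃ₐ[kk A B] D, (g τ : ℂ) * ∑ q ∈ S (τ * τ'), om (Quotient.out q.2) *
          muX R q.1 * dlX (R.L q.1) a (pt R m q.1 (Quotient.out q.2)) :=
      Finset.sum_congr rfl (fun τ _ => by rw [hsum])
    rw [e1]
    apply key
    obtain ⟨v, hv, hvp⟩ := hsq
    rw [finprod_eq_prod_of_fintype] at hvp
    obtain ⟨y, hy1, -⟩ := hC 1
    have hyτ : ∀ τ : D ≃ₐ[kk A B] D, ((τ y : D) : ℂ) = C τ := by
      intro τ
      obtain ⟨y', hy', hy''⟩ := hC τ
      have : y' = y := Subtype.ext (hy'.trans hy1.symm)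
      rw [← hy'', this]
    have hw4 : (⟨v, hv⟩ : D) ^ 2 = ∏ τ : D ≃ₐ[kk A B] D, (τ y) ^ g τ := by
      apply Subtype.ext
      rw [IntermediateField.coe_prod]
      rw [show (((⟨v, hv⟩ : D) ^ 2 : D) : ℂ) = v ^ 2 from rfl, hvp]
      refine Finset.prod_congr rfl (fun τ _ => ?_)
      rw [← hyτ τ, ← m0_zpc (D := D)]
    refine ⟨(τ' ⟨v, hv⟩ : D), hDF _ (τ' ⟨v, hv⟩).2, ?_, ?_⟩
    · intro k s' hs'
      exact h4 A B V n f a m hE D hCyc k s' hs' _ (τ' ⟨v, hv⟩).2
    · have hw5 := congrArg τ' hw4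
      rw [map_pow, map_prod] at hw5
      have hw6 := congrArg (fun y : D => (y : ℂ)) hw5
      push_cast at hw6
      rw [hw6]
      refine Finset.prod_congr rfl (fun τ _ => ?_)
      rw [← hprod, hcom τ τ', map_zpow₀, ← hyτ (τ' * τ), m0_zpc]
      rfl

end

end Pool.Agent.N2E


end

section

/-!
# MUX-2N, block E2N, module MAIN: both estimates for families of sets stable under `1 + N del`
-/

set_option autoImplicit false

open Polynomial

namespace Pool.Agent.N2E

open _root_.MU3 _root_.Pool.Agent.MU3A _root_.Pool.Agent.MU3B _root_.Pool.Agent.MUX _root_.Pool.Agent.MUXU _root_.Pool.Agent.MUXE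
open _root_.Pool.Agent.RI _root_.Pool.Agent.NS _root_.Pool.Agent.N2
open _root_.Pool.Agent.NSE (IntP)
open _root_.Pool.Agent.MUX2 (GRG)
open _root_.Pool.Agent.MUXV (InK tX)

noncomputable section

namespace MAIN

lemma sq_add (V : ValuationSubring ℂ) (c : V.ValueGroup) (x y : ℂ)
    (hx : V.valuation x ^ 2 ≤ c) (hy : V.valuation y ^ 2 ≤ c) : V.valuation (x + y) ^ 2 ≤ c := by
  rcases le_total (V.valuation x) (V.valuation y) with h | h
  · exact (pow_le_pow_left' ((V.valuation.map_add x y).trans (max_le h le_rfl)) 2).trans hy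
  · exact (pow_le_pow_left' ((V.valuation.map_add x y).trans (max_le le_rfl h)) 2).trans hx

lemma sq_sum (V : ValuationSubring ℂ) (c : V.ValueGroup) {α : Type} (s : Finset α) (F : α → ℂ)
    (h : ∀ i ∈ s, V.valuation (F i) ^ 2 ≤ c) : V.valuation (∑ i ∈ s, F i) ^ 2 ≤ c := by
  classical
  induction s using Finset.induction_on with
  | empty => simp
  | insert i s hi ih =>
    rw [Finset.sum_insert hi]
    exact sq_add V c _ _ (h i (Finset.mem_insert_self _ _))
      (ih fun j hj => h j (Finset.mem_insert_of_mem hj))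

lemma sq_mul (V : ValuationSubring ℂ) (c : V.ValueGroup) (a x : ℂ) (ha : V.valuation a ≤ 1)
    (hx : V.valuation x ^ 2 ≤ c) : V.valuation (a * x) ^ 2 ≤ c := by
  rw [map_mul, mul_pow]
  calc V.valuation a ^ 2 * V.valuation x ^ 2 ≤ 1 * V.valuation x ^ 2 :=
        mul_le_mul_left (pow_le_one' ha 2) _
    _ = V.valuation x ^ 2 := one_mul _
    _ ≤ c := hx

lemma v_int (V : ValuationSubring ℂ) (g : ℤ) : V.valuation (g : ℂ) ≤ 1 :=
  (V.valuation_le_one_iff _).2 (intCast_mem V g)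

/-- the map `φ` -/
def ph {A B : ℤ} {m : ℕ} {ι : Type} (c : OO A B)
    (q : ι × (OO A B ⧸ idl (A := A) (B := B) m)) :
    ι × (OO A B ⧸ idl (A := A) (B := B) m) :=
  (q.1, Ideal.Quotient.mk (idl (A := A) (B := B) m) c * q.2)

lemma ph_iter {A B : ℤ} {m : ℕ} {ι : Type} (c : OO A B) (k : ℕ)
    (q : ι × (OO A B ⧸ idl (A := A) (B := B) m)) :
    (ph c)^[k] q = (q.1, Ideal.Quotient.mk (idl (A := A) (B := B) m) c ^ k * q.2) := by
  induction k with
  | zero => simp
  | succ k ih =>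
    rw [Function.iterate_succ_apply', ih]
    unfold ph
    simp only [pow_succ]
    congr 1
    ring

lemma dvd_mem {A B : ℤ} {M N : ℕ} (h : M ∣ N) (x : OO A B) (hx : x ∈ idl (A := A) (B := B) N) :
    x ∈ idl (A := A) (B := B) M := by
  rw [Ideal.mem_span_singleton] at hx ⊢
  exact (_root_.map_dvd (Nat.castRingHom (OO A B)) h).trans hx

end MAIN

open _root_.Pool.Agent.N2E.MAIN in
theorem td_MAIN (hCON : Sd_CON) (hSQR : Sd_SQR) (hORB : Sd_ORB) (hPRT : Sd_PRT) : Sd_MAIN := by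
  classical
  intro A B V n f a m hSet ι R u e a1 a3 hG H hH om hom J _ S hcop hst
  obtain ⟨k1, -, k3, k4, k5, -⟩ := hCON A B V n f a m hSet
  have hC := hSet.ctx
  have hm := hSet.hm
  set N : ℕ := 2 ^ n * f * a with hN
  set ck : ℕ → OO A B := fun k => cc N ((k : OO A B) * del) with hck
  set c : OO A B := cc N del with hc
  -- divisibilities
  have d1 : m ∣ m * a := dvd_mul_right m a
  have d2 : 2 * f ∣ m := by
    rw [hm]
    exact Nat.mul_dvd_mul (dvd_pow_self 2 (by omega)) dvd_rfl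
  have d3 : 4 ∣ m := by
    rw [hm]
    exact Dvd.dvd.mul_right (by rw [pow_add]; exact dvd_mul_left _ _) f
  have d4 : 2 * f ∣ 4 * f := Nat.mul_dvd_mul (by norm_num) dvd_rfl
  have d5 : 4 ∣ 4 * f := dvd_mul_right 4 f
  -- powers of c
  have hc1 : ck 1 = c := by simp [hck, hc]
  have hpow : ∀ k, Ideal.Quotient.mk (idl (A := A) (B := B) m) c ^ k =
      Ideal.Quotient.mk (idl (A := A) (B := B) m) (ck k) := by
    intro k
    induction k with
    | zero => simp [hck, cc]
    | succ k ih =>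
      rw [pow_succ, ih, ← hc1, ← map_mul]
      exact Ideal.Quotient.eq.2 (dvd_mem d1 _ (k3 k 1))
  have hit : ∀ (k : ℕ) (q : ι × (OO A B ⧸ idl (A := A) (B := B) m)), (ph c)^[k] q =
      (q.1, Ideal.Quotient.mk (idl (A := A) (B := B) m) (ck k) * q.2) := by
    intro k q
    rw [ph_iter, hpow]
  have hout : ∀ q : OO A B ⧸ idl (A := A) (B := B) m,
      Ideal.Quotient.mk (idl (A := A) (B := B) m) (Quotient.out q) = q := fun q =>
    Quotient.out_eq q
  -- the partition
  have hpart : ∀ j, ∃ T ⊆ S j, ∀ F : ι × (OO A B ⧸ idl (A := A) (B := B) m) → ℂ,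
      ∑ q ∈ S j, F q = ∑ t ∈ T, ∑ k ∈ Finset.range 4, F ((ph c)^[k] t) := by
    intro j
    refine hPRT _ (S j) (ph c) (hst j) ?_ ?_
    · intro q hq
      rw [hit]
      have h1 : Ideal.Quotient.mk (idl (A := A) (B := B) m) (ck 4) = 1 := by
        rw [← map_one (Ideal.Quotient.mk (idl (A := A) (B := B) m)), Ideal.Quotient.eq]
        exact dvd_mem d1 _ k4
      rw [h1, one_mul]
    · intro q hq h
      rw [hit, Prod.ext_iff] at h
      have h2 := h.2
      simp only at h2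
      refine k5 (Quotient.out q.2) (hcop j q hq) ?_
      rw [← Ideal.Quotient.eq, map_mul, hout]
      exact h2
  choose T hTS hT using hpart
  -- points in the orbits
  have hmemS : ∀ (j : J) (k : ℕ), ∀ t ∈ S j, (ph c)^[k] t ∈ S j := by
    intro j k
    induction k with
    | zero => intro t ht; exact ht
    | succ k ih =>
      intro t ht
      rw [Function.iterate_succ_apply']
      exact hst j _ (ih t ht)
  set y : ι × (OO A B ⧸ idl (A := A) (B := B) m) → ℕ → OO A B :=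
    fun t k => Quotient.out ((ph c)^[k] t).2 with hy
  have hy1 : ∀ t k, y t k - ck k * Quotient.out t.2 ∈ idl (A := A) (B := B) m := by
    intro t k
    refine Ideal.Quotient.eq.1 ?_
    rw [map_mul, hout, hit, hout]
  have hck1 : ∀ k, ck k - 1 ∈ idl (A := A) (B := B) (4 * f) := fun k => (k1 _).2.2.2.2.1
  have hy4 : ∀ t k, y t k - Quotient.out t.2 ∈ idl (A := A) (B := B) 4 := by
    intro t k
    have h1 := dvd_mem d3 _ (hy1 t k)
    have h2 := dvd_mem d5 _ (hck1 k)
    have h3 := Ideal.add_mem _ h1 (Ideal.mul_mem_right (Quotient.out t.2) _ h2)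
    have h4 : y t k - ck k * Quotient.out t.2 + (ck k - 1) * Quotient.out t.2 =
      y t k - Quotient.out t.2 := by ring
    rwa [h4] at h3
  have hy2 : ∀ t k, y t k - Quotient.out t.2 ∈ idl (A := A) (B := B) (2 * f) := by
    intro t k
    have h1 := dvd_mem d2 _ (hy1 t k)
    have h2 := dvd_mem d4 _ (hck1 k)
    have h3 := Ideal.add_mem _ h1 (Ideal.mul_mem_right (Quotient.out t.2) _ h2)
    have h4 : y t k - ck k * Quotient.out t.2 + (ck k - 1) * Quotient.out t.2 =
      y t k - Quotient.out t.2 := by ring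
    rwa [h4] at h3
  have hom1 : ∀ t k, om (y t k) = om (Quotient.out t.2) := fun t k => hom.per _ _ (hy2 t k)
  -- the values
  have hv2 : V.valuation (2 : ℂ) < 1 := hC.v2
  have hcop2 : ∀ x : OO A B, IsCoprime x ((m : ℕ) : OO A B) →
      IsCoprime x ((2 * f : ℕ) : OO A B) := by
    intro x hx
    exact hx.of_isCoprime_of_dvd_right (_root_.map_dvd (Nat.castRingHom (OO A B)) d2)
  have hcong : ∀ x : OO A B, IsCoprime x ((m : ℕ) : OO A B) →
      V.valuation (om x - emb x) ≤ V.valuation (2 : ℂ) := fun x hx => hom.cong x (hcop2 x hx)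
  have hom2 : ∀ x : OO A B, IsCoprime x ((m : ℕ) : OO A B) → V.valuation (om x) ≤ 1 := by
    intro x hx
    have h1 : om x = (om x - emb x) + emb x := by ring
    rw [h1]
    exact (V.valuation.map_add _ _).trans (max_le ((hcong x hx).trans hv2.le) (hC.int x))
  set E : ι × (OO A B ⧸ idl (A := A) (B := B) m) → ℂ := fun q =>
    muX R q.1 * dlX (R.L q.1) a (pt R m q.1 (Quotient.out q.2)) / u with hE
  have hE1 : ∀ (j : J), ∀ q ∈ S j, V.valuation (E q) ≤ 1 := by
    intro j q hq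
    exact (hORB A B V n f a m hSet ι R u e a1 a3 hG q.1 (H q.1) (hH q.1) (Quotient.out q.2)
      (hcop j q hq)).1
  have hEo : ∀ (j : J), ∀ t ∈ S j,
      V.valuation (∑ k ∈ Finset.range 4, E ((ph c)^[k] t)) ^ 2 ≤ V.valuation (2 : ℂ) := by
    intro j t ht
    have h1 := (hORB A B V n f a m hSet ι R u e a1 a3 hG t.1 (H t.1) (hH t.1) (Quotient.out t.2)
      (hcop j t ht)).2 (y t) (fun k _ => hy1 t k)
    rw [Finset.sum_div] at h1
    have h2 : ∑ k ∈ Finset.range 4, E ((ph c)^[k] t) =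
        ∑ k ∈ Finset.range 4, muX R t.1 * dlX (R.L t.1) a (pt R m t.1 (y t k)) / u := by
      refine Finset.sum_congr rfl fun k _ => ?_
      have h3 : ((ph c)^[k] t).1 = t.1 := by rw [hit]
      show muX R ((ph c)^[k] t).1 * dlX (R.L ((ph c)^[k] t).1) a
        (pt R m ((ph c)^[k] t).1 (y t k)) / u = _
      rw [h3]
    rw [h2]
    exact h1
  constructor
  · -- the first estimate
    intro j
    have h1 : (∑ q ∈ S j, om (Quotient.out q.2) * muX R q.1 *
        dlX (R.L q.1) a (pt R m q.1 (Quotient.out q.2))) / u =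
        ∑ q ∈ S j, om (Quotient.out q.2) * E q := by
      rw [Finset.sum_div]
      refine Finset.sum_congr rfl fun q _ => ?_
      rw [hE]
      ring
    rw [h1, hT j]
    refine sq_sum V _ _ _ fun t ht => ?_
    have h2 : ∑ k ∈ Finset.range 4,
        om (Quotient.out ((ph c)^[k] t).2) * E ((ph c)^[k] t) =
        om (Quotient.out t.2) * ∑ k ∈ Finset.range 4, E ((ph c)^[k] t) := by
      rw [Finset.mul_sum]
      refine Finset.sum_congr rfl fun k _ => ?_
      have h3 := hom1 t k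
      simp only [hy] at h3
      rw [h3]
    rw [h2]
    exact sq_mul V _ _ _ (hom2 _ (hcop j t (hTS j ht))) (hEo j t (hTS j ht))
  · -- the second estimate
    intro g hyy
    obtain ⟨w, hw1, hw2, hw3⟩ := hyy
    set io : ι × (OO A B ⧸ idl (A := A) (B := B) m) → ι × OO A B :=
      fun q => (q.1, Quotient.out q.2) with hio
    have hinj : Function.Injective io := by
      rintro ⟨i, q⟩ ⟨i', q'⟩ h
      simp only [hio, Prod.mk.injEq] at h
      obtain ⟨h1, h2⟩ := h
      have h3 := congrArg (Ideal.Quotient.mk (idl (A := A) (B := B) m)) h2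
      rw [hout, hout] at h3
      rw [h1, h3]
    have hsq := hSQR A B V n f a m hSet ι R u e a1 a3 hG H hH J (fun j => (S j).image io) g
      (by
        intro j q hq
        rw [Finset.mem_image] at hq
        obtain ⟨q', hq', rfl⟩ := hq
        exact hcop j q' hq')
      ⟨w, hw1, hw2, by
        rw [hw3]
        refine Finset.prod_congr rfl fun j _ => ?_
        rw [Finset.prod_image fun x _ z _ h => hinj h]⟩
    have h0 : ∀ j, ∑ q ∈ (S j).image io, emb q.2 * muX R q.1 *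
        dlX (R.L q.1) a (pt R m q.1 q.2) = ∑ q ∈ S j, emb (Quotient.out q.2) * muX R q.1 *
        dlX (R.L q.1) a (pt R m q.1 (Quotient.out q.2)) := by
      intro j
      rw [Finset.sum_image fun x _ z _ h => hinj h]
    simp only [h0] at hsq
    -- the difference
    have hdiff : (∑ j, (g j : ℂ) * ∑ q ∈ S j, om (Quotient.out q.2) * muX R q.1 *
          dlX (R.L q.1) a (pt R m q.1 (Quotient.out q.2))) / u =
        (∑ j, (g j : ℂ) * ∑ q ∈ S j, emb (Quotient.out q.2) * muX R q.1 *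
          dlX (R.L q.1) a (pt R m q.1 (Quotient.out q.2))) / u +
        ∑ j, (g j : ℂ) * ∑ t ∈ T j, ∑ k ∈ Finset.range 4,
          (om (Quotient.out ((ph c)^[k] t).2) - emb (Quotient.out ((ph c)^[k] t).2)) *
            E ((ph c)^[k] t) := by
      have h1 : ∀ j, ∑ t ∈ T j, ∑ k ∈ Finset.range 4,
          (om (Quotient.out ((ph c)^[k] t).2) - emb (Quotient.out ((ph c)^[k] t).2)) *
            E ((ph c)^[k] t) = ∑ q ∈ S j, (om (Quotient.out q.2) - emb (Quotient.out q.2)) *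
            E q := fun j => (hT j fun q => (om (Quotient.out q.2) - emb (Quotient.out q.2)) *
            E q).symm
      simp only [h1]
      rw [Finset.sum_div, Finset.sum_div, ← Finset.sum_add_distrib]
      refine Finset.sum_congr rfl fun j _ => ?_
      rw [mul_div_assoc, mul_div_assoc, ← mul_add, Finset.sum_div, Finset.sum_div,
        ← Finset.sum_add_distrib]
      congr 1
      refine Finset.sum_congr rfl fun q _ => ?_
      rw [hE]
      ring
    rw [hdiff]
    refine sq_add V _ _ _ hsq (sq_sum V _ _ _ fun j _ => sq_mul V _ _ _ (v_int V _)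
      (sq_sum V _ _ _ fun t ht => ?_))
    have hts := hTS j ht
    have h1 : ∑ k ∈ Finset.range 4,
        (om (Quotient.out ((ph c)^[k] t).2) - emb (Quotient.out ((ph c)^[k] t).2)) *
          E ((ph c)^[k] t) =
        (om (Quotient.out t.2) - emb (Quotient.out t.2)) *
          ∑ k ∈ Finset.range 4, E ((ph c)^[k] t) +
        ∑ k ∈ Finset.range 4, -emb (y t k - Quotient.out t.2) * E ((ph c)^[k] t) := by
      rw [Finset.mul_sum, ← Finset.sum_add_distrib]
      refine Finset.sum_congr rfl fun k _ => ?_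
      have h3 := hom1 t k
      have h4 : emb (y t k - Quotient.out t.2) = emb (y t k) - emb (Quotient.out t.2) :=
        Pool.Agent.MUX.emb_sub hC.cq _ _
      rw [h4]
      show (om (y t k) - emb (y t k)) * _ = _
      rw [h3]
      ring
    rw [h1]
    refine sq_add V _ _ _ ?_ (sq_sum V _ _ _ fun k _ => ?_)
    · rw [map_mul, mul_pow, pow_succ (V.valuation (2 : ℂ)) 2]
      exact mul_le_mul' (pow_le_pow_left' (hcong _ (hcop j t hts)) 2) (hEo j t hts)
    · have h5 := hy4 t k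
      rw [Ideal.mem_span_singleton] at h5
      obtain ⟨z, hz⟩ := h5
      have h6 : V.valuation (emb (y t k - Quotient.out t.2)) ≤ V.valuation (2 : ℂ) ^ 2 := by
        rw [hz, Pool.Agent.MUX.emb_mul hC.cq, map_mul]
        have h7 : (emb ((4 : ℕ) : OO A B) : ℂ) = 2 ^ 2 := by
          rw [Pool.Agent.MUX.emb_natCast hC.cq]
          norm_num
        rw [h7, map_pow]
        calc V.valuation (2 : ℂ) ^ 2 * V.valuation (emb z) ≤ V.valuation (2 : ℂ) ^ 2 * 1 :=
              mul_le_mul_right (hC.int z) _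
          _ = _ := mul_one _
      have h8 : V.valuation (-emb (y t k - Quotient.out t.2) * E ((ph c)^[k] t)) ≤
          V.valuation (2 : ℂ) ^ 2 := by
        rw [map_mul, Valuation.map_neg]
        calc V.valuation (emb (y t k - Quotient.out t.2)) * V.valuation (E ((ph c)^[k] t)) ≤
            V.valuation (2 : ℂ) ^ 2 * 1 := mul_le_mul' h6 (hE1 j _ (hmemS j k t hts))
          _ = _ := mul_one _
      calc V.valuation (-emb (y t k - Quotient.out t.2) * E ((ph c)^[k] t)) ^ 2 ≤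
          (V.valuation (2 : ℂ) ^ 2) ^ 2 := pow_le_pow_left' h8 2
        _ = V.valuation (2 : ℂ) ^ 3 * V.valuation (2 : ℂ) := by
          rw [← pow_mul, ← pow_succ]
        _ ≤ V.valuation (2 : ℂ) ^ 3 * 1 := mul_le_mul_right hv2.le _
        _ = _ := mul_one _

end

end Pool.Agent.N2E


end

section

/-!
# MUX-2N, block E2N (helper15): PRT, a finite set with a free action of the cyclic group of order 4
-/

set_option autoImplicit false

namespace Pool.Agent.N2E

noncomputable section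

namespace PRT

variable {α : Type} {S : Finset α} {φ : α → α}

theorem it_mem (h1 : ∀ q ∈ S, φ q ∈ S) (k : ℕ) : ∀ r ∈ S, φ^[k] r ∈ S := by
  induction k with
  | zero => intro r hr; exact hr
  | succ k ih => intro r hr; rw [Function.iterate_succ_apply]; exact ih _ (h1 r hr)

theorem inj (h4 : ∀ q ∈ S, φ^[4] q = q) {k : ℕ} (hk : k ≤ 4) {a b : α} (ha : a ∈ S) (hb : b ∈ S)
    (h : φ^[k] a = φ^[k] b) : a = b := by
  have e : ∀ c, φ^[4 - k] (φ^[k] c) = φ^[4] c := by
    intro c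
    rw [← Function.iterate_add_apply, Nat.sub_add_cancel hk]
  rw [← h4 a ha, ← h4 b hb, ← e a, ← e b, h]

theorem ne_it (h1 : ∀ q ∈ S, φ q ∈ S) (h4 : ∀ q ∈ S, φ^[4] q = q) (h2 : ∀ q ∈ S, φ^[2] q ≠ q)
    {q : α} (hq : q ∈ S) {d : ℕ} (hd1 : 1 ≤ d) (hd3 : d ≤ 3) : φ^[d] q ≠ q := by
  intro h
  have hc : d = 1 ∨ d = 2 ∨ d = 3 := by omega
  rcases hc with rfl | rfl | rfl
  · apply h2 q hq
    rw [show (2 : ℕ) = 1 + 1 from rfl, Function.iterate_add_apply, h, h]
  · exact h2 q hq h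
  · have h5 : φ^[1] q = q := by
      have h6 := h4 q hq
      rw [show (4 : ℕ) = 1 + 3 from rfl, Function.iterate_add_apply, h] at h6
      exact h6
    apply h2 q hq
    rw [show (2 : ℕ) = 1 + 1 from rfl, Function.iterate_add_apply, h5, h5]

theorem injOn (h1 : ∀ q ∈ S, φ q ∈ S) (h4 : ∀ q ∈ S, φ^[4] q = q) (h2 : ∀ q ∈ S, φ^[2] q ≠ q)
    {q : α} (hq : q ∈ S) : Set.InjOn (fun k => φ^[k] q) (Finset.range 4 : Finset ℕ) := by
  have key : ∀ i j : ℕ, i < j → j < 4 → φ^[i] q = φ^[j] q → False := by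
    intro i j hij hj h
    have e : φ^[j] q = φ^[i] (φ^[j - i] q) := by
      rw [← Function.iterate_add_apply, Nat.add_sub_cancel' hij.le]
    rw [e] at h
    have h5 := inj h4 (by omega : i ≤ 4) hq (it_mem h1 (j - i) q hq) h
    exact ne_it h1 h4 h2 hq (by omega : 1 ≤ j - i) (by omega) h5.symm
  intro i hi j hj h
  have hi' : i < 4 := by simpa using hi
  have hj' : j < 4 := by simpa using hj
  rcases lt_trichotomy i j with h5 | h5 | h5
  · exact (key i j h5 hj' h).elim
  · exact h5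
  · exact (key j i h5 hi' h.symm).elim

end PRT

theorem td_PRT : Sd_PRT := by
  classical
  intro α S φ
  induction hn : S.card using Nat.strong_induction_on generalizing S with
  | _ n ih =>
    intro h1 h4 h2
    rcases S.eq_empty_or_nonempty with rfl | ⟨q, hq⟩
    · exact ⟨∅, Finset.Subset.refl _, fun F => by simp⟩
    · set O : Finset α := (Finset.range 4).image (fun k => φ^[k] q) with hO
      have hinj := PRT.injOn h1 h4 h2 hq
      have hqO : q ∈ O := Finset.mem_image.2 ⟨0, by simp, rfl⟩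
      have hOS : O ⊆ S := by
        intro r hr
        obtain ⟨k, -, rfl⟩ := Finset.mem_image.1 hr
        exact PRT.it_mem h1 k q hq
      have hsub : S \ O ⊆ S := Finset.sdiff_subset
      have hst : ∀ r ∈ S \ O, φ r ∈ S \ O := by
        intro r hr
        obtain ⟨hr1, hr2⟩ := Finset.mem_sdiff.1 hr
        refine Finset.mem_sdiff.2 ⟨h1 r hr1, fun h => hr2 ?_⟩
        obtain ⟨k, hk, hk2⟩ := Finset.mem_image.1 h
        have hk' : k < 4 := Finset.mem_range.1 hk
        have e1 : r = φ^[k + 3] q := by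
          have e2 : φ^[4] r = φ^[3] (φ r) := by
            rw [show (4 : ℕ) = 3 + 1 from rfl, Function.iterate_add_apply]; rfl
          rw [← h4 r hr1, e2, ← hk2, ← Function.iterate_add_apply, Nat.add_comm]
        rcases Nat.eq_zero_or_pos k with h0 | h0
        · rw [h0] at e1
          exact Finset.mem_image.2 ⟨3, by simp, e1.symm⟩
        · have e3 : φ^[k + 3] q = φ^[k - 1] (φ^[4] q) := by
            rw [← Function.iterate_add_apply]
            congr 1
            omega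
          rw [h4 q hq] at e3
          exact Finset.mem_image.2 ⟨k - 1, Finset.mem_range.2 (by omega), (e1.trans e3).symm⟩
      have hlt : (S \ O).card < n := by
        rw [← hn]
        exact Finset.card_lt_card ⟨hsub, fun h => (Finset.mem_sdiff.1 (h hq)).2 hqO⟩
      obtain ⟨T, hT, hF⟩ := ih _ hlt (S \ O) rfl hst (fun r hr => h4 r (hsub hr))
        (fun r hr => h2 r (hsub hr))
      have hqT : q ∉ T := fun h => (Finset.mem_sdiff.1 (hT h)).2 hqO
      refine ⟨insert q T, Finset.insert_subset hq (hT.trans hsub), fun F => ?_⟩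
      rw [Finset.sum_insert hqT, ← hF F, ← Finset.sum_sdiff hOS, hO, Finset.sum_image hinj,
        add_comm]

end

end Pool.Agent.N2E


end

section

/-!
# MUX-2N, block E2N: module GLC, the automorphisms `1 + k N del` are trivial on `D`
-/

set_option autoImplicit false

open Polynomial

namespace Pool.Agent.N2E

open _root_.MU3 _root_.Pool.Agent.MU3A _root_.Pool.Agent.MU3B _root_.Pool.Agent.MUX _root_.Pool.Agent.MUXU _root_.Pool.Agent.MUXE
open _root_.Pool.Agent.RI _root_.Pool.Agent.NS _root_.Pool.Agent.N2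

noncomputable section

namespace GLC

lemma idl_le {A B : ℤ} {m n : ℕ} (h : n ∣ m) :
    idl (A := A) (B := B) m ≤ idl (A := A) (B := B) n := by
  obtain ⟨c, rfl⟩ := h
  rw [Ideal.span_singleton_le_span_singleton]
  exact ⟨(c : OO A B), by push_cast; ring⟩

end GLC

/-- GLC. -/
theorem td_GLC (h1 : Sd_CON) : Sd_GLC := by
  intro A B V n f a m hE D hD k s hs y hy
  obtain ⟨c1, ⟨-, c2⟩, -⟩ := h1 A B V n f a m hE
  obtain ⟨-, -, -, -, c4, -⟩ := c1 ((k : OO A B) * del)
  obtain ⟨j, hj⟩ := c2 k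
  have h4 : lvX 2 f 0 = 4 * f := by
    unfold lvX q0
    norm_num
    ring
  have hm := hE.hm
  refine hD s hs.fix ?_ ?_ y hy
  · refine hs.triv (idl (lvX 2 f 0)) (GLC.idl_le ?_) ?_
    · rw [h4, hm]
      exact ⟨2 ^ n * a, by ring⟩
    · rw [h4]
      exact c4
  · intro z hz
    have h5 := hs.zeta (2 ^ (n + 2)) (pow_ne_zero _ two_ne_zero)
      (GLC.idl_le ⟨f * a, by rw [hm]; ring⟩) z hz
    rw [h5, hj, pow_add, pow_one, pow_mul, hz, one_pow, mul_one]

end

end Pool.Agent.N2E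


end

section

/-!
# MUX-2N, block E2N, module NE1: the points that occur are not in the kernel of reduction
-/

set_option autoImplicit false

namespace Pool.Agent.N2E

open _root_.MU3 _root_.Pool.Agent.MU3A _root_.Pool.Agent.MU3B _root_.Pool.Agent.MUX _root_.Pool.Agent.MUXU _root_.Pool.Agent.MUXE
open _root_.Pool.Agent.RI _root_.Pool.Agent.NS _root_.Pool.Agent.N2
open _root_.Pool.Agent.MUX2 (GRG gInK_nat)
open _root_.Pool.Agent.MUXV (InK tX)

noncomputable section

namespace NE1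

lemma _root_.Pool.Agent.N2E.NE1.nat_mul_mem {L : PeriodPair} (c : ℕ) {w : ℂ} (hw : w ∈ L.lattice) :
    (c : ℂ) * w ∈ L.lattice := by
  have h := L.lattice.smul_mem (c : ℤ) hw
  simpa using h

end NE1

open _root_.Pool.Agent.N2E.NE1 in
/-- NE1. -/
theorem td_NE1 (h1 : Sd_GRT) (h2 : Sd_TPT) : Sd_NE1 := by
  intro V L u e a1 a3 hg hv j f a hf hpf hpa hco z hz hord
  obtain ⟨ξ, hG⟩ := h1 V L u e a1 a3 hg hv
  obtain ⟨htor, -⟩ := h2 V L u e a1 a3 hg hv
  have hp : Nat.Prime 2 := Nat.prime_two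
  have hcf : ∀ k : ℕ, f.Coprime (2 ^ k) := fun k =>
    Nat.Coprime.pow_right k ((Nat.Prime.coprime_iff_not_dvd hp).2 hpf).symm
  have hno : ∀ k : ℕ, k ≤ j → ((a * 2 ^ k : ℕ) : ℂ) * z ∉ L.lattice := by
    intro k hk hmem
    have h3 := hord _ hmem
    have h4 : f ∣ a * 2 ^ k := (Dvd.intro_left _ rfl).trans h3
    have h6 : f ∣ a := (hcf k).dvd_of_dvd_mul_right h4
    have h7 : f = 1 := Nat.Coprime.eq_one_of_dvd hco.symm h6
    omega
  have hfa : ¬ 2 ∣ f * a := by
    rw [hp.dvd_mul]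
    rintro (h | h)
    · exact hpf h
    · exact hpa h
  have key : ∀ q : ℂ, (a : ℂ) * q ∈ L.lattice → ¬ InK V L (xu L u e) (z + q) := by
    intro q hq hE
    have hE' := gInK_nat hG hE (2 ^ j)
    have hmem : ((f * a : ℕ) : ℂ) * (((2 ^ j : ℕ) : ℂ) * (z + q)) ∈ L.lattice := by
      have h3 := add_mem (_root_.Pool.Agent.N2E.NE1.nat_mul_mem a hz) (_root_.Pool.Agent.N2E.NE1.nat_mul_mem (2 ^ j * f) hq)
      have h4 : ((f * a : ℕ) : ℂ) * (((2 ^ j : ℕ) : ℂ) * (z + q)) =
          (a : ℂ) * (((2 ^ j * f : ℕ) : ℂ) * z) + ((2 ^ j * f : ℕ) : ℂ) * ((a : ℂ) * q) := by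
        push_cast
        ring
      rw [h4]
      exact h3
    have hz' := (htor _ hfa).2 _ hmem hE'
    have h5 := sub_mem (_root_.Pool.Agent.N2E.NE1.nat_mul_mem a hz') (_root_.Pool.Agent.N2E.NE1.nat_mul_mem (2 ^ j) hq)
    refine hno j le_rfl ?_
    have h6 : ((a * 2 ^ j : ℕ) : ℂ) * z =
        (a : ℂ) * (((2 ^ j : ℕ) : ℂ) * (z + q)) - ((2 ^ j : ℕ) : ℂ) * ((a : ℂ) * q) := by
      push_cast
      ring
    rw [h6]
    exact h5
  refine ⟨?_, ?_, ?_, ?_⟩
  · have h3 := key 0 (by rw [mul_zero]; exact zero_mem _)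
    rwa [add_zero] at h3
  · intro hE
    have hE' := gInK_nat hG hE (2 ^ j)
    have hmem : ((f : ℕ) : ℂ) * (((2 ^ j : ℕ) : ℂ) * (2 * z)) ∈ L.lattice := by
      have h3 := _root_.Pool.Agent.N2E.NE1.nat_mul_mem 2 hz
      have h4 : ((f : ℕ) : ℂ) * (((2 ^ j : ℕ) : ℂ) * (2 * z)) =
          ((2 : ℕ) : ℂ) * (((2 ^ j * f : ℕ) : ℂ) * z) := by
        push_cast
        ring
      rw [h4]
      exact h3
    have h5 := (htor _ hpf).2 _ hmem hE'
    have h6 : ((2 ^ (j + 1) : ℕ) : ℂ) * z ∈ L.lattice := by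
      have h7 : ((2 ^ (j + 1) : ℕ) : ℂ) * z = ((2 ^ j : ℕ) : ℂ) * (2 * z) := by
        push_cast
        ring
      rw [h7]
      exact h5
    have h8 : f ∣ 2 ^ (j + 1) := (Dvd.intro_left _ rfl).trans (hord _ h6)
    have h9 : f = 1 := Nat.Coprime.eq_one_of_dvd (hcf (j + 1)) h8
    omega
  · have h3 := hno 0 (Nat.zero_le _)
    rwa [pow_zero, mul_one] at h3
  · intro q hq hqL
    refine ⟨?_, key q hq, ?_⟩
    · intro hE
      exact hqL ((htor a hpa).2 _ hq hE)
    · rw [sub_eq_add_neg]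
      refine key (-q) ?_
      rw [mul_neg]
      exact neg_mem hq

end

end Pool.Agent.N2E


end

section

/-!
# MUX-2N, block E2N, module UNR: `RF (f)` is unramified at `V` if `f` is odd (helper94, from
`Pool/Agent/NS/E_UNR.lean`)
-/

set_option autoImplicit false

open Polynomial

namespace Pool.Agent.N2E

open _root_.MU3 _root_.Pool.Agent.MU3A _root_.Pool.Agent.MU3B _root_.Pool.Agent.MUX _root_.Pool.Agent.MUXU _root_.Pool.Agent.MUXE
open _root_.Pool.Agent.RI _root_.Pool.Agent.NS _root_.Pool.Agent.N2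

noncomputable section

namespace UNR

/-- extension of an automorphism of `RF m` to `ℂ` (as `CXW.extn` in `W_CXW.lean` of MUX) -/
lemma extn {A B : ℤ} (hT : TorX A B) {m : Ideal (OO A B)} (hm : m ≠ ⊥)
    (σ : (RF m : IntermediateField (kk A B) ℂ) ≃ₐ[kk A B] RF m) :
    ∃ s : ℂ ≃+* ℂ, FixK A B s ∧ ∀ y : (RF m : IntermediateField (kk A B) ℂ),
      s y = ((σ y : (RF m : IntermediateField (kk A B) ℂ)) : ℂ) := by
  let D : IntermediateField ℚ ℂ :=
    (RF m : IntermediateField (kk A B) ℂ).restrictScalars ℚ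
  have hkD : kk A B ≤ D := fun x hx =>
    (RF m : IntermediateField (kk A B) ℂ).algebraMap_mem ⟨x, hx⟩
  letI := algC hkD
  let f : D ≃+* D :=
    { toFun := fun y => σ y
      invFun := fun y => σ.symm y
      left_inv := fun y => σ.symm_apply_apply y
      right_inv := fun y => σ.apply_symm_apply y
      map_mul' := fun x y => map_mul σ x y
      map_add' := fun x y => map_add σ x y }
  let τ : D ≃ₐ[kk A B] D := AlgEquiv.ofRingEquiv (f := f) (fun r => σ.commutes r)
  obtain ⟨s, hs, h1⟩ := hT.ext m hm D hkD (fun y hy => hy) τ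
  exact ⟨s, hs, fun y => h1 ⟨y, y.2⟩⟩

lemma idl_ne {A B : ℤ} {f : ℕ} (hf : f ≠ 0) : idl (A := A) (B := B) f ≠ ⊥ := by
  intro h
  rw [Ideal.span_singleton_eq_bot] at h
  have h1 := congrArg QuadraticAlgebra.re h
  rw [QuadraticAlgebra.re_natCast, QuadraticAlgebra.re_zero] at h1
  exact hf (by exact_mod_cast h1)

end UNR

/-- UNR. -/
theorem td_UNR (h : Sd_RAM) : Sd_UNR := by
  intro A B V hC hT f hf hf2
  have hm : idl (A := A) (B := B) f ≠ ⊥ := UNR.idl_ne hf
  have := hT.fin _ hm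
  have := hT.gal _ hm
  refine h A B V hC (RF (idl (A := A) (B := B) f)) ?_
  intro σ hσ
  obtain ⟨s, hs, hsv⟩ := UNR.extn hT hm σ
  have h1 : ∀ y ∈ (RF (idl (A := A) (B := B) f) : IntermediateField (kk A B) ℂ), y ∈ V →
      s y - y ∈ V.nonunits := by
    intro y hy hyV
    have h2 := hσ ⟨y, hy⟩ ((V.valuation_le_one_iff y).2 hyV)
    rw [ValuationSubring.mem_nonunits_iff, hsv ⟨y, hy⟩]
    exact h2
  have h2 := hC.iner f hf hf2 s hs h1
  apply AlgEquiv.ext
  intro y
  apply Subtype.ext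
  rw [← hsv]
  exact h2 y y.2

end

end Pool.Agent.N2E


end

section

/-!
# MUX-2N, block E2N: module RAM (helper28), from `RN_RAM.lean` with `P = (2)`, `ϖ = 2` (model: `NS/E_RAM.lean`)
-/

set_option autoImplicit false

open Polynomial

namespace Pool.Agent.N2E

open _root_.MU3 _root_.Pool.Agent.MU3A _root_.Pool.Agent.MU3B _root_.Pool.Agent.MUX _root_.Pool.Agent.MUXU _root_.Pool.Agent.MUXE
open _root_.Pool.Agent.RI _root_.Pool.Agent.NS _root_.Pool.Agent.N2

theorem td_RAM : Sd_RAM := by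
  intro A B V hC F _ _ htriv y hy hy0
  obtain ⟨⟨φ, hφ⟩, hinj, -, -, -⟩ := hC.ring
  have h2e : emb (((2 : ℕ) : OO A B)) = (2 : ℂ) := by
    rw [← hφ, map_natCast]
    norm_num
  have h2ne : (2 : ℂ) ≠ 0 := by norm_num
  have hmul : ∀ z : OO A B, emb (((2 : ℕ) : OO A B) * z) = 2 * emb z := by
    intro z
    rw [← hφ, map_mul, hφ, hφ, h2e]
  have hlt : ∀ z : OO A B, V.valuation (emb (((2 : ℕ) : OO A B) * z)) < 1 := by
    intro z
    rw [hmul, map_mul]
    exact mul_lt_one_of_lt_of_le hC.v2 (hC.int z)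
  have hmem2 : ((2 : ℕ) : OO A B) ∈ idl (A := A) (B := B) 2 := Ideal.mem_span_singleton_self _
  have h20 : ((2 : ℕ) : OO A B) ≠ 0 := by
    intro h
    have h1 := congrArg emb h
    rw [h2e, ← hφ 0, map_zero] at h1
    exact h2ne h1
  have hP0 : idl (A := A) (B := B) 2 ≠ ⊥ := by
    intro h
    rw [h] at hmem2
    exact h20 (by simpa using hmem2)
  have hOver : OverI V (idl (A := A) (B := B) 2) := by
    intro x
    rw [ValuationSubring.mem_nonunits_iff]
    constructor
    · intro h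
      by_contra hx
      rw [hC.unit x hx] at h
      exact lt_irrefl _ h
    · intro h
      obtain ⟨z, rfl⟩ := Ideal.mem_span_singleton'.mp h
      rw [mul_comm]
      exact hlt z
  have hsq : ((2 : ℕ) : OO A B) ∉ (idl (A := A) (B := B) 2) ^ 2 := by
    intro h
    rw [Ideal.span_singleton_pow] at h
    obtain ⟨z, hz⟩ := Ideal.mem_span_singleton'.mp h
    have h1 := congrArg emb hz
    have h2 : emb (z * ((2 : ℕ) : OO A B) ^ 2) = emb z * 4 := by
      rw [← hφ, map_mul, map_pow, hφ, hφ, h2e]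
      norm_num
    rw [h2, h2e] at h1
    have h4 : (1 : ℂ) = 2 * emb z := by linear_combination (-1 / 2 : ℂ) * h1
    have h5 := congrArg V.valuation h4
    rw [map_one, map_mul] at h5
    have h6 := mul_lt_one_of_lt_of_le hC.v2 (hC.int z)
    rw [← h5] at h6
    exact lt_irrefl _ h6
  obtain ⟨k, hk⟩ := Pool.Agent.NSR.tr_RAM A B V (idl (A := A) (B := B) 2) ((2 : ℕ) : OO A B) hC.cq
    hC.max.isPrime hP0 hOver hmem2 hsq F htriv y hy hy0
  exact ⟨k, by rw [hk, h2e]⟩

end Pool.Agent.N2E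


end

section

/-!
# MUX-2N, block E2N, module DST: the distances (helper81)
-/

set_option autoImplicit false

open Polynomial

namespace Pool.Agent.N2E

open _root_.MU3 _root_.Pool.Agent.MU3A _root_.Pool.Agent.MU3B _root_.Pool.Agent.MUX _root_.Pool.Agent.MUXU _root_.Pool.Agent.MUXE
open _root_.Pool.Agent.RI _root_.Pool.Agent.NS _root_.Pool.Agent.N2
open _root_.Pool.Agent.NSE (IntP)
open _root_.Pool.Agent.MUX2 (GRG)
open _root_.Pool.Agent.MUXV (InK tX)

noncomputable section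

namespace DST

/-- the quarter points -/
def qp (L : PeriodPair) (p : ℕ × ℕ) : ℂ := ((p.1 : ℂ) * L.ω₁ + (p.2 : ℂ) * L.ω₂) / 4

lemma mem_om1 (L : PeriodPair) : L.ω₁ ∈ L.lattice :=
  L.mem_lattice.2 ⟨1, 0, by simp⟩

lemma mem_om2 (L : PeriodPair) : L.ω₂ ∈ L.lattice :=
  L.mem_lattice.2 ⟨0, 1, by simp⟩

lemma four_qp (L : PeriodPair) (p : ℕ × ℕ) : 4 * qp L p ∈ L.lattice := by
  refine L.mem_lattice.2 ⟨p.1, p.2, ?_⟩
  unfold qp
  push_cast
  ring

/-- the coordinates of a lattice point -/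
lemma coord (L : PeriodPair) (N a b : ℤ)
    (h : ((a : ℂ) * L.ω₁ + (b : ℂ) * L.ω₂) ∈ L.lattice.map
      (LinearMap.mulLeft ℤ (N : ℂ))) : N ∣ a ∧ N ∣ b := by
  obtain ⟨y, hy, h1⟩ := h
  obtain ⟨m, n, rfl⟩ := L.mem_lattice.1 hy
  have h2 : (((N * m - a : ℤ) : ℝ)) • L.ω₁ + (((N * n - b : ℤ) : ℝ)) • L.ω₂ = 0 := by
    simp only [LinearMap.mulLeft_apply] at h1
    simp only [Complex.real_smul]
    push_cast
    linear_combination h1
  obtain ⟨h3, h4⟩ := LinearIndependent.pair_iff.1 L.indep _ _ h2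
  have h5 : N * m - a = 0 := by exact_mod_cast h3
  have h6 : N * n - b = 0 := by exact_mod_cast h4
  exact ⟨⟨m, by omega⟩, ⟨n, by omega⟩⟩

lemma coord4 (L : PeriodPair) (a b : ℤ)
    (h : ((a : ℂ) * L.ω₁ + (b : ℂ) * L.ω₂) / 4 ∈ L.lattice) : 4 ∣ a ∧ 4 ∣ b := by
  refine coord L 4 a b ⟨_, h, ?_⟩
  simp only [LinearMap.mulLeft_apply]
  push_cast
  ring

lemma qp_inj (L : PeriodPair) (p q : ℕ × ℕ) (hp : p.1 < 4 ∧ p.2 < 4) (hq : q.1 < 4 ∧ q.2 < 4)
    (h : qp L p - qp L q ∈ L.lattice) : p = q := by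
  have h1 : (((p.1 : ℤ) - q.1 : ℤ) * L.ω₁ + ((p.2 : ℤ) - q.2 : ℤ) * L.ω₂) / 4 ∈ L.lattice := by
    have e : (((p.1 : ℤ) - q.1 : ℤ) * L.ω₁ + ((p.2 : ℤ) - q.2 : ℤ) * L.ω₂) / 4 =
        qp L p - qp L q := by
      unfold qp
      push_cast
      ring
    rw [e]
    exact h
  obtain ⟨h2, h3⟩ := coord4 L _ _ h1
  ext <;> omega

lemma qp_two (L : PeriodPair) (p : ℕ × ℕ) :
    2 * qp L p ∈ L.lattice ↔ p.1 % 2 = 0 ∧ p.2 % 2 = 0 := by
  constructor
  · intro h
    have h1 : (((2 * p.1 : ℕ) : ℤ) * L.ω₁ + ((2 * p.2 : ℕ) : ℤ) * L.ω₂) / 4 ∈ L.lattice := by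
      have e : (((2 * p.1 : ℕ) : ℤ) * L.ω₁ + ((2 * p.2 : ℕ) : ℤ) * L.ω₂) / 4 =
          2 * qp L p := by
        unfold qp
        push_cast
        ring
      rw [e]
      exact h
    obtain ⟨h2, h3⟩ := coord4 L _ _ h1
    omega
  · rintro ⟨h1, h2⟩
    obtain ⟨a, ha⟩ : ∃ a, p.1 = 2 * a := ⟨p.1 / 2, by omega⟩
    obtain ⟨b, hb⟩ : ∃ b, p.2 = 2 * b := ⟨p.2 / 2, by omega⟩
    refine L.mem_lattice.2 ⟨(a : ℤ), (b : ℤ), ?_⟩
    unfold qp
    rw [ha, hb]
    push_cast
    ring

section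
variable {V : ValuationSubring ℂ} {W : WeierstrassCurve.Affine ℂ} {L : PeriodPair}
  {X Y : ℂ → ℂ} {ξ : ℂ →+ W.Point}

/-- the distance of `X (P + w)` and `X P` -/
lemma dist (G : GRG V W L X Y ξ) {P w : ℂ} (hP : ¬ InK V L X P) (h2P : ¬ InK V L X (2 * P))
    (hw : InK V L X w) (hwL : w ∉ L.lattice) :
    ¬ InK V L X (P + w) ∧ V.valuation (X P - X (P + w)) = V.valuation (tX X Y w) := by
  obtain ⟨h1, h2, -, -⟩ := MUX2.gnear G hP hw hwL
  obtain ⟨h3, h4, -⟩ := MUX2.gv_tX_lt G hw hwL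
  have h5 := MUX2.gv_DX G hP h2P
  refine ⟨h1, ?_⟩
  have h6 : V.valuation ((2 * Y P + W.a₁ * X P + W.a₃) * tX X Y w) =
      V.valuation (tX X Y w) := by rw [map_mul, h5, one_mul]
  have h7 : V.valuation (tX X Y w) ^ 2 < V.valuation (tX X Y w) := by
    rw [pow_two]
    exact mul_lt_of_lt_one_right (zero_lt_iff.2 h4) h3
  have e : X P - X (P + w) = -((2 * Y P + W.a₁ * X P + W.a₃) * tX X Y w +
      (X (P + w) - X P - (2 * Y P + W.a₁ * X P + W.a₃) * tX X Y w)) := by ring
  rw [e, Valuation.map_neg, V.valuation.map_add_eq_of_lt_left, h6]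
  rw [h6]
  exact lt_of_le_of_lt h2 h7

end

end DST

open _root_.Pool.Agent.N2E.DST in
theorem td_DST (h1 : Sd_COE) (h2 : Sd_GRT) (h3 : Sd_TPT) : Sd_DST := by
  classical
  intro V L u e a1 a3 hG hv2 P hP h2P
  obtain ⟨-, -, -, -, -, -, -, -, hper⟩ := h1 V L u e a1 a3 hG hv2
  obtain ⟨ξ, G⟩ := h2 V L u e a1 a3 hG hv2
  obtain ⟨-, htp⟩ := h3 V L u e a1 a3 hG hv2
  set X : ℂ → ℂ := xu L u e with hX
  set Y : ℂ → ℂ := yt L u e a1 a3 with hY
  have hv0 : V.valuation (2 : ℂ) ≠ 0 := by simp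
  -- the valuation of a torsion point
  have hord2 : ∀ w : ℂ, 2 * w ∈ L.lattice → w ∉ L.lattice →
      InK V L X w ∧ V.valuation (tX X Y w) ^ 3 = V.valuation (2 : ℂ) := by
    intro w hw hwL
    obtain ⟨h4, -, h5⟩ := htp 0 w (by simpa using hw) (by simpa using hwL)
    exact ⟨h4, by simpa using h5⟩
  have hord4 : ∀ w : ℂ, 4 * w ∈ L.lattice → 2 * w ∉ L.lattice →
      InK V L X w ∧ V.valuation (tX X Y w) ^ 12 = V.valuation (2 : ℂ) := by
    intro w hw hwL
    obtain ⟨h4, -, h5⟩ := htp 1 w (by norm_num; exact hw) (by simpa using hwL)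
    exact ⟨h4, by simpa using h5⟩
  have hInK : ∀ w : ℂ, 4 * w ∈ L.lattice → InK V L X w := by
    intro w hw
    by_cases h : w ∈ L.lattice
    · exact Or.inl h
    by_cases h' : 2 * w ∈ L.lattice
    · exact (hord2 w h' h).1
    · exact (hord4 w hw h').1
  have hroot : ∀ (n : ℕ) (x y : V.ValueGroup), n ≠ 0 → x ^ n = y ^ n → x = y := by
    intro n x y hn hxy
    exact (pow_left_inj₀ zero_le zero_le hn).1 hxy
  -- the main computation
  have key : ∀ β : V.ValueGroup, β ^ 12 = V.valuation (2 : ℂ) → ∀ w : ℂ, 4 * w ∈ L.lattice →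
      w ∉ L.lattice → ¬ InK V L X (P + w) ∧
      V.valuation (X P - X (P + w)) = β ^ (if 2 * w ∈ L.lattice then 4 else 1) := by
    intro β hβ w hw hwL
    obtain ⟨h4, h5⟩ := dist G hP h2P (hInK w hw) hwL
    refine ⟨h4, ?_⟩
    rw [h5]
    by_cases h : 2 * w ∈ L.lattice
    · rw [if_pos h]
      refine hroot 3 _ _ (by norm_num) ?_
      rw [(hord2 w h hwL).2, ← pow_mul, ← hβ]
    · rw [if_neg h]
      refine hroot 12 _ _ (by norm_num) ?_
      rw [(hord4 w hw h).2, pow_one, ← hβ]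
  have inj : ∀ w w' : ℂ, 4 * w ∈ L.lattice → 4 * w' ∈ L.lattice → X (P + w) = X (P + w') →
      w - w' ∈ L.lattice := by
    intro w w' hw hw' hXX
    have hk := hInK w hw
    have hk' := hInK w' hw'
    have hn : ∀ v : ℂ, InK V L X v → P + v ∉ L.lattice := by
      intro v hv hvL
      refine hP ?_
      rw [MUX2.gInK_congr G (w := -v) (by
        rw [sub_neg_eq_add]
        exact Or.inl hvL)]
      exact MUX2.gInK_neg G hv
    have hwp : L.weierstrassP (P + w) = L.weierstrassP (P + w') := by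
      have h4 : (L.weierstrassP (P + w) - e) / u ^ 2 = (L.weierstrassP (P + w') - e) / u ^ 2 := hXX
      have hu : u ^ 2 ≠ 0 := pow_ne_zero 2 hG.u0
      rw [div_left_inj' hu] at h4
      linear_combination h4
    rcases b_NEQ L (P + w') (P + w) (hn w' hk') (hn w hk) hwp with h4 | h4
    · have e1 : w - w' = P + w - (P + w') := by ring
      rw [e1]
      exact h4
    · exfalso
      refine h2P ?_
      rw [MUX2.gInK_congr G (w := -(w + w')) (by
        have e1 : 2 * P - -(w + w') = P + w + (P + w') := by ring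
        rw [e1]
        exact Or.inl h4)]
      exact MUX2.gInK_neg G (MUX2.gInK_add G hk hk')
  -- the general form
  have gen : ∀ (β : V.ValueGroup), β ^ 12 = V.valuation (2 : ℂ) → ∀ (ι : Type) (I : Finset ι)
      (f : ι → ℂ), (∀ i ∈ I, 4 * f i ∈ L.lattice ∧ f i ∉ L.lattice) →
      (∀ i ∈ I, ∀ j ∈ I, f i - f j ∈ L.lattice → i = j) →
      ∃ S : Finset ℂ, X P ∉ S ∧ (∀ x ∈ S, V.valuation x ≤ 1 ∧ ∃ i ∈ I, x = X (P + f i)) ∧
        ∏ x ∈ S, V.valuation (X P - x) =
          β ^ (∑ i ∈ I, if 2 * f i ∈ L.lattice then 4 else 1) := by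
    intro β hβ ι I f hI hinj
    have hβ0 : β ≠ 0 := by
      rintro rfl
      rw [zero_pow (by norm_num)] at hβ
      exact hv0 hβ.symm
    refine ⟨I.image (fun i => X (P + f i)), ?_, ?_, ?_⟩
    · intro h4
      obtain ⟨i, hi, h5⟩ := Finset.mem_image.1 h4
      have h6 := (key β hβ (f i) (hI i hi).1 (hI i hi).2).2
      rw [h5, sub_self, map_zero] at h6
      exact pow_ne_zero _ hβ0 h6.symm
    · intro x hx
      obtain ⟨i, hi, rfl⟩ := Finset.mem_image.1 hx
      refine ⟨(MUXV.int_X (key β hβ (f i) (hI i hi).1 (hI i hi).2).1).2, i, hi, rfl⟩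
    · rw [Finset.prod_image, ← Finset.prod_pow_eq_pow_sum]
      · exact Finset.prod_congr rfl fun i hi => (key β hβ (f i) (hI i hi).1 (hI i hi).2).2
      · intro i hi j hj hij
        exact hinj i hi j hj (inj _ _ (hI i hi).1 (hI j hj).1 hij)
  constructor
  · -- the 15 points
    set β : V.ValueGroup := V.valuation (tX X Y (qp L (0, 1))) with hβd
    have h01 : 2 * qp L (0, 1) ∉ L.lattice := by
      rw [qp_two]
      simp
    have hβ : β ^ 12 = V.valuation (2 : ℂ) := (hord4 _ (four_qp L _) h01).2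
    set I : Finset (ℕ × ℕ) := (Finset.range 4 ×ˢ Finset.range 4).erase (0, 0) with hI
    have hz : qp L (0, 0) = 0 := by simp [qp]
    obtain ⟨S, h4, h5, h6⟩ := gen β hβ (ℕ × ℕ) I (qp L) (by
        intro p hp
        refine ⟨four_qp L p, fun h => ?_⟩
        rw [hI, Finset.mem_erase, Finset.mem_product, Finset.mem_range, Finset.mem_range] at hp
        refine hp.1 (qp_inj L p (0, 0) hp.2 (by norm_num) ?_)
        rw [hz, sub_zero]
        exact h) (by
        intro p hp q hq h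
        rw [hI, Finset.mem_erase, Finset.mem_product, Finset.mem_range, Finset.mem_range] at hp hq
        exact qp_inj L p q hp.2 hq.2 h)
    refine ⟨S, h4, ?_, ?_⟩
    · intro x hx
      obtain ⟨h7, p, -, h8⟩ := h5 x hx
      exact ⟨h7, qp L p, four_qp L p, h8⟩
    · rw [h6]
      have e1 : (∑ p ∈ I, if 2 * qp L p ∈ L.lattice then 4 else 1) =
          ∑ p ∈ I, if p.1 % 2 = 0 ∧ p.2 % 2 = 0 then 4 else 1 := by
        refine Finset.sum_congr rfl fun p _ => ?_
        simp only [qp_two]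
      have e2 : (∑ p ∈ I, if p.1 % 2 = 0 ∧ p.2 % 2 = 0 then 4 else 1) = 24 := by
        rw [hI]
        decide
      rw [e1, e2, ← hβ, ← pow_mul]
  · intro R hR h2R
    have hRL : R ∉ L.lattice := fun h => h2R (by
      rw [two_mul]
      exact add_mem h h)
    set β : V.ValueGroup := V.valuation (tX X Y R) with hβd
    have hβ : β ^ 12 = V.valuation (2 : ℂ) := (hord4 _ hR h2R).2
    have h4R : ∀ k : ℕ, 4 * ((k : ℂ) * R) ∈ L.lattice := by
      intro k
      have e1 : 4 * ((k : ℂ) * R) = k • (4 * R) := by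
        rw [nsmul_eq_mul]
        ring
      rw [e1]
      exact nsmul_mem hR k
    have h3R : 3 * R ∉ L.lattice := fun h => hRL (by
      have e1 : R = 4 * R - 3 * R := by ring
      rw [e1]
      exact sub_mem hR h)
    obtain ⟨S, h4, h5, h6⟩ := gen β hβ ℕ {1, 2, 3} (fun k => (k : ℂ) * R) (by
        intro k hk
        refine ⟨h4R k, ?_⟩
        simp only [Finset.mem_insert, Finset.mem_singleton] at hk
        rcases hk with rfl | rfl | rfl
        · simpa using hRL
        · simpa using h2R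
        · simpa using h3R) (by
        have hlt : ∀ i ∈ ({1, 2, 3} : Finset ℕ), ∀ j ∈ ({1, 2, 3} : Finset ℕ), j < i →
            (i : ℂ) * R - (j : ℂ) * R ∉ L.lattice := by
          intro i hi j hj hij
          have e1 : (i : ℂ) * R - (j : ℂ) * R = ((i - j : ℕ) : ℂ) * R := by
            rw [Nat.cast_sub hij.le]
            ring
          rw [e1]
          simp only [Finset.mem_insert, Finset.mem_singleton] at hi hj
          have h7 : i - j = 1 ∨ i - j = 2 := by omega
          rcases h7 with h7 | h7 <;> rw [h7]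
          · simpa using hRL
          · simpa using h2R
        intro i hi j hj h
        rcases lt_trichotomy i j with h7 | h7 | h7
        · exfalso
          refine hlt j hj i hi h7 ?_
          have := neg_mem h
          rwa [neg_sub] at this
        · exact h7
        · exact absurd h (hlt i hi j hj h7))
    refine ⟨S, h4, ?_, ?_⟩
    · intro x hx
      obtain ⟨h7, k, hk, h8⟩ := h5 x hx
      refine ⟨h7, k, ?_, h8⟩
      simp only [Finset.mem_insert, Finset.mem_singleton] at hk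
      omega
    · have h2' : 2 * (((2 : ℕ) : ℂ) * R) ∈ L.lattice := by
        have e1 : 2 * (((2 : ℕ) : ℂ) * R) = 4 * R := by
          push_cast
          ring
        rw [e1]
        exact hR
      have h3' : 2 * (((3 : ℕ) : ℂ) * R) ∉ L.lattice := fun h => h2R (by
        have e1 : 2 * R = 2 * (((3 : ℕ) : ℂ) * R) - 4 * R := by
          push_cast
          ring
        rw [e1]
        exact sub_mem h hR)
      have h1' : 2 * (((1 : ℕ) : ℂ) * R) ∉ L.lattice := by simpa using h2R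
      have e1 : (∑ k ∈ ({1, 2, 3} : Finset ℕ),
          if 2 * ((k : ℂ) * R) ∈ L.lattice then 4 else 1) = 6 := by
        rw [Finset.sum_insert (by decide), Finset.sum_insert (by decide), Finset.sum_singleton,
          if_neg h1', if_pos h2', if_neg h3']
        norm_num
      rw [h6, e1, ← hβ, ← pow_mul]

end

end Pool.Agent.N2E


end

section

/-! # Block E2N of the project MUX-2N, assembled

`StE2.lean` states the improved criterion for squares (`2` inert in `k`); the files `E_*.lean` prove the statements. Here they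
are put together: `d_X : Sd_X` without hypotheses, and `d_EFIN` gives `S2_EFIN` from `S2_RFIN`. -/

namespace Pool.Agent.N2E

open _root_.Pool.Agent.N2

theorem d_LAG : Sd_LAG := td_LAG
theorem d_PRD : Sd_PRD := td_PRD
theorem d_COE : Sd_COE := td_COE
theorem d_GRT : Sd_GRT := td_GRT d_COE
theorem d_TPT : Sd_TPT := td_TPT d_COE d_GRT
theorem d_UNT : Sd_UNT := td_UNT d_GRT d_TPT
theorem d_RAT : Sd_RAT := td_RAT d_COE d_GRT d_TPT d_UNT
theorem d_THT : Sd_THT := td_THT d_GRT d_RAT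
theorem d_DST : Sd_DST := td_DST d_COE d_GRT d_TPT
theorem d_CTX : Sd_CTX := td_CTX
theorem d_RAM : Sd_RAM := td_RAM
theorem d_UNR : Sd_UNR := td_UNR d_RAM
theorem d_DEG : Sd_DEG := td_DEG
theorem d_AUT : Sd_AUT := td_AUT
theorem d_GTA : Sd_GTA := td_GTA
theorem d_CON : Sd_CON := td_CON
theorem d_SIG : Sd_SIG := td_SIG d_COE d_GRT d_TPT d_UNR d_DEG
theorem d_NE1 : Sd_NE1 := td_NE1 d_GRT d_TPT
theorem d_MUL : Sd_MUL := td_MUL
theorem d_GPO : Sd_GPO := td_GPO d_GRT d_THT d_NE1 d_MUL d_UNR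
theorem d_SQR : Sd_SQR := td_SQR d_LAG d_PRD d_COE d_DST d_AUT d_GTA d_CON d_SIG d_NE1 d_GPO
theorem d_ORB : Sd_ORB := td_ORB d_LAG d_PRD d_DST d_CON d_NE1 d_GPO
theorem d_GLC : Sd_GLC := td_GLC d_CON
theorem d_XXS : Sd_XXS := td_XXS
theorem d_HEQ : Sd_HEQ := td_HEQ d_XXS
theorem d_HAL : Sd_HAL := td_HAL d_CON d_XXS
theorem d_PRT : Sd_PRT := td_PRT
theorem d_MAIN : Sd_MAIN := td_MAIN d_CON d_SQR d_ORB d_PRT
theorem d_FIN : Sd_FIN := td_FIN d_CTX d_AUT d_CON d_GLC d_XXS d_HEQ d_HAL d_MAIN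

/-- block E2N -/
theorem d_EFIN (h : S2_RFIN) : S2_EFIN := d_FIN h

end Pool.Agent.N2E


end
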