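import Mathlib
import Pool.Agent.MVF.C001
import Pool.Agent.MVF.C006
import Pool.Agent.MVF.C013
import Pool.Agent.MVF.C023

/-! Parts: MUX.K_TNX, MUX.K_I3X, MU3.A_M11 -/

namespace Pool.Agent.MU3A.M11
end Pool.Agent.MU3A.M11
namespace Pool.Agent.MUXK.I3X19
end Pool.Agent.MUXK.I3X19

section

/-!
# MUX, TNX: `T ^ (p ^ j) = γ ^ (p ^ j) - 1` modulo `p`-th powers
-/

namespace Pool.Agent.MUXK.K_TNX

open _root_.Pool.Agent.MU3

variable {k L : Type} [Field k] [Field L] [Algebra k L]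

theorem Tg_mul (γ : L ≃ₐ[k] L) (x y : L) : Tg γ (x * y) = Tg γ x * Tg γ y := by
  unfold Tg
  rw [map_mul, mul_div_mul_comm]

theorem Tg_pow (γ : L ≃ₐ[k] L) (x : L) (n : ℕ) : Tg γ (x ^ n) = Tg γ x ^ n := by
  unfold Tg
  rw [map_pow, div_pow]

theorem Tg_ne (γ : L ≃ₐ[k] L) {x : L} (hx : x ≠ 0) : Tg γ x ≠ 0 :=
  div_ne_zero ((map_ne_zero γ).2 hx) hx

theorem iter_ne (γ : L ≃ₐ[k] L) (n : ℕ) {x : L} (hx : x ≠ 0) : (Tg γ)^[n] x ≠ 0 := by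
  induction n generalizing x with
  | zero => exact hx
  | succ n ih =>
    rw [Function.iterate_succ_apply]
    exact ih (Tg_ne γ hx)

theorem iter_mul (γ : L ≃ₐ[k] L) (n : ℕ) (x y : L) :
    (Tg γ)^[n] (x * y) = (Tg γ)^[n] x * (Tg γ)^[n] y := by
  induction n generalizing x y with
  | zero => rfl
  | succ n ih => rw [Function.iterate_succ_apply, Function.iterate_succ_apply,
      Function.iterate_succ_apply, Tg_mul, ih]

theorem iter_pow (γ : L ≃ₐ[k] L) (n m : ℕ) (x : L) :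
    (Tg γ)^[n] (x ^ m) = (Tg γ)^[n] x ^ m := by
  induction n generalizing x with
  | zero => rfl
  | succ n ih => rw [Function.iterate_succ_apply, Function.iterate_succ_apply, Tg_pow, ih]

/-- The action of `γ` on the additive group of the units. -/
noncomputable def act (γ : L ≃ₐ[k] L) : Module.End ℤ (Additive Lˣ) :=
  (MonoidHom.toAdditive (Units.map (γ : L →* L))).toIntLinearMap

theorem act_apply (γ : L ≃ₐ[k] L) (u : Additive Lˣ) :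
    (((act γ u).toMul : Lˣ) : L) = γ ((u.toMul : Lˣ) : L) := rfl

theorem act_pow (γ : L ≃ₐ[k] L) (n : ℕ) (u : Additive Lˣ) :
    ((((act γ ^ n) u).toMul : Lˣ) : L) = (γ ^ n) ((u.toMul : Lˣ) : L) := by
  induction n generalizing u with
  | zero => rfl
  | succ n ih =>
    rw [pow_succ', Module.End.mul_apply, act_apply, ih, pow_succ']
    rfl

theorem sub_act (γ : L ≃ₐ[k] L) (u : Additive Lˣ) :
    ((((act γ - 1) u).toMul : Lˣ) : L) = Tg γ ((u.toMul : Lˣ) : L) := by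
  have h : (act γ - 1) u = act γ u - u := rfl
  rw [h, toMul_sub, Units.val_div_eq_div_val, act_apply]
  rfl

theorem sub_act_pow (γ : L ≃ₐ[k] L) (n : ℕ) (u : Additive Lˣ) :
    (((((act γ - 1) ^ n) u).toMul : Lˣ) : L) = (Tg γ)^[n] ((u.toMul : Lˣ) : L) := by
  induction n generalizing u with
  | zero => rfl
  | succ n ih =>
    rw [pow_succ', Module.End.mul_apply, sub_act, ih, Function.iterate_succ_apply']

/-- `(X - 1)^p = X^p - 1 + p h`. -/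
theorem ring_id {R : Type} [Ring R] (p : ℕ) (hp : p.Prime) (g : R) :
    ∃ h : R, (g - 1) ^ p = g ^ p - 1 + p * h := by
  have h1 : Commute g (-1 : R) := (Commute.one_right g).neg_right
  have h2 := h1.add_pow_prime_eq hp
  rw [← sub_eq_add_neg] at h2
  rcases hp.eq_two_or_odd' with h3 | h3
  · subst h3
    refine ⟨1 - g, ?_⟩
    have : (g - 1) ^ 2 = g ^ 2 - 2 * g + 1 := by noncomm_ring
    rw [this]
    push_cast
    noncomm_ring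
  · rw [h3.neg_one_pow] at h2
    exact ⟨g * -1 * ∑ k ∈ Finset.Ioo 0 p, g ^ (k - 1) * (-1) ^ (p - k - 1) *
      ((p.choose k / p : ℕ) : R), by rw [h2, sub_eq_add_neg]; simp only [mul_assoc]⟩

theorem step (p : ℕ) (hp : p.Prime) (γ : L ≃ₐ[k] L) {x : L} (hx : x ≠ 0) :
    ∃ w : L, w ≠ 0 ∧ (Tg γ)^[p] x = Tg (γ ^ p) x * w ^ p := by
  obtain ⟨h, hh⟩ := ring_id p hp (act γ)
  set u : Additive Lˣ := Additive.ofMul (Units.mk0 x hx) with hu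
  have hux : ((u.toMul : Lˣ) : L) = x := rfl
  refine ⟨((h u).toMul : Lˣ), Units.ne_zero _, ?_⟩
  have h1 := sub_act_pow γ p u
  rw [hux] at h1
  rw [← h1, hh]
  have h2 : (act γ ^ p - 1 + (p : Module.End ℤ (Additive Lˣ)) * h) u =
      ((act γ ^ p) u - u) + p • (h u) := by
    rw [LinearMap.add_apply, Module.End.mul_apply, ← nsmul_one, LinearMap.smul_apply]
    rfl
  rw [h2, toMul_add, toMul_sub, toMul_nsmul, Units.val_mul, Units.val_div_eq_div_val, act_pow,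
    Units.val_pow_eq_pow_val, hux]
  rfl

/-- `f` multiplicative, `f x = T x` up to `p`-th powers: the same for the iterates -/
theorem iter (p : ℕ) (hp : p.Prime) (γ : L ≃ₐ[k] L) (n : ℕ) {x : L} (hx : x ≠ 0) :
    ∃ w : L, w ≠ 0 ∧ ((Tg γ)^[p])^[n] x = (Tg (γ ^ p))^[n] x * w ^ p := by
  induction n with
  | zero => exact ⟨1, one_ne_zero, by simp⟩
  | succ n ih =>
    obtain ⟨w, hw, hw'⟩ := ih
    have h1 : (Tg (γ ^ p))^[n] x ≠ 0 := iter_ne _ _ hx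
    obtain ⟨v, hv, hv'⟩ := step p hp γ h1
    refine ⟨v * (Tg γ)^[p] w, mul_ne_zero hv (iter_ne _ _ hw), ?_⟩
    have h3 : (Tg (γ ^ p))^[n + 1] x = Tg (γ ^ p) ((Tg (γ ^ p))^[n] x) :=
      Function.iterate_succ_apply' _ _ _
    rw [Function.iterate_succ_apply' (Tg γ)^[p] n x, hw', h3, iter_mul, iter_pow, hv']
    ring

end Pool.Agent.MUXK.K_TNX

namespace Pool.Agent.MUXK

open _root_.Pool.Agent.MU3

/-- `T ^ (p ^ j) = γ ^ (p ^ j) - 1` modulo `p`-th powers -/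
theorem t_TNX : S_TNX := by
  intro p hpf k L _ _ _ γ j
  have hp : p.Prime := hpf.out
  induction j generalizing γ with
  | zero =>
    intro x _
    exact ⟨1, one_ne_zero, by simp [Tg]⟩
  | succ j ih =>
    intro x hx
    obtain ⟨w, hw, hw'⟩ := ih (γ ^ p) x hx
    obtain ⟨v, hv, hv'⟩ := K_TNX.iter p hp γ (p ^ j) hx
    refine ⟨w * v, mul_ne_zero hw hv, ?_⟩
    rw [pow_succ', Function.iterate_mul, hv', hw', ← pow_mul, ← pow_succ']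
    ring

end Pool.Agent.MUXK


end

section

/-!
# MUX, block K: module I3X (helper19; model `MU3/P_I3L.lean`)
-/

set_option autoImplicit false

open NumberField IsDedekindDomain Finset
open scoped nonZeroDivisors Pointwise

namespace Pool.Agent.MUXK

open _root_.Pool.Agent.MU3 _root_.Pool.Agent.RI _root_.Pool.Agent.RID

namespace I3X19

theorem Tg_mul {k L : Type} [Field k] [Field L] [Algebra k L] (γ : L ≃ₐ[k] L) (x y : L) :
    Tg γ (x * y) = Tg γ x * Tg γ y := by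
  unfold Tg
  rw [map_mul, mul_div_mul_comm]

theorem Tg_pow {k L : Type} [Field k] [Field L] [Algebra k L] (γ : L ≃ₐ[k] L) (x : L) (n : ℕ) :
    Tg γ (x ^ n) = Tg γ x ^ n := by
  unfold Tg
  rw [map_pow, div_pow]

/-- The value of `sUnitP` in `L`. -/
theorem sUnit_val {k L F : Type} [Field k] [Field L] [NumberField L] [Algebra k L] [Field F]
    (p : ℕ) (D : Subgroup (L ≃ₐ[k] L)) [Fintype D] (γ : L ≃ₐ[k] L) (m n : ℕ) (χ : D →* Fˣ)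
    (θ : F →+ ZMod p) (u : (𝓞 L)ˣ) :
    ((sUnitP p D γ m n χ θ u : 𝓞 L) : L) =
      ∏ δ : D, ((δ : L ≃ₐ[k] L) (∏ i ∈ range (p ^ (n - m)), ((γ ^ (p ^ m)) ^ i) ((u : 𝓞 L) : L))) ^
        (θ ((χ δ)⁻¹ : Fˣ)).val := by
  let ψ : (𝓞 L)ˣ →* L := (algebraMap (𝓞 L) L : 𝓞 L →* L).comp (Units.coeHom (𝓞 L))
  have hψ : ∀ x : (𝓞 L)ˣ, ((x : 𝓞 L) : L) = ψ x := fun _ => rfl
  have hψs : ∀ (σ : L ≃ₐ[k] L) (x : (𝓞 L)ˣ), ψ (σ • x) = σ (ψ x) := fun _ _ => rfl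
  rw [hψ, hψ]
  unfold sUnitP
  rw [map_prod]
  refine prod_congr rfl fun δ _ => ?_
  rw [map_pow, hψs, ng_apply, map_prod]
  simp only [hψs]

/-- `T` of a product of conjugates -/
theorem Tg_prod {k M F : Type} [Field k] [Field M] [Algebra k M] [Field F] (p : ℕ)
    (comm : ∀ σ τ : M ≃ₐ[k] M, σ * τ = τ * σ) (g : M ≃ₐ[k] M) (D : Subgroup (M ≃ₐ[k] M))
    [Fintype D] (χ : D →* Fˣ) (θ : F →+ ZMod p) (x : M) :
    Tg g (∏ δ : D, ((δ : M ≃ₐ[k] M) x) ^ (θ ((χ δ)⁻¹ : Fˣ)).val) =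
      ∏ δ : D, ((δ : M ≃ₐ[k] M) (Tg g x)) ^ (θ ((χ δ)⁻¹ : Fˣ)).val := by
  unfold Tg
  rw [map_prod, ← prod_div_distrib]
  refine prod_congr rfl fun δ _ => ?_
  rw [map_pow, ← div_pow]
  congr 1
  have e2 : (δ : M ≃ₐ[k] M) (g x / x) = (δ : M ≃ₐ[k] M) (g x) / (δ : M ≃ₐ[k] M) x :=
    map_div₀ _ _ _
  have e3 : g ((δ : M ≃ₐ[k] M) x) = (δ : M ≃ₐ[k] M) (g x) :=
    congrArg (fun f : M ≃ₐ[k] M => f x) (comm g (δ : M ≃ₐ[k] M))
  rw [e2, e3]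

theorem core {k L M F : Type} [Field k] [Field L] [NumberField L] [Field M] [Algebra k L]
    [Algebra k M] [Field F] (p : ℕ) (hp : p ≠ 0) (j : M →+* L)
    (r : (L ≃ₐ[k] L) →* (M ≃ₐ[k] M))
    (hr : ∀ (σ : L ≃ₐ[k] L) (x : M), j (r σ x) = σ (j x))
    (comm : ∀ σ τ : M ≃ₐ[k] M, σ * τ = τ * σ) (γ : L ≃ₐ[k] L) (m n m₀ : ℕ)
    (hfix : ∀ x : L, (γ ^ (p ^ m)) x = x ↔ ∃ z : M, j z = x)
    (D : Subgroup (L ≃ₐ[k] L)) [Fintype D] (D' : Subgroup (M ≃ₐ[k] M)) [Fintype D']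
    (e : D ≃* D') (he : ∀ δ : D, ((e δ : D') : M ≃ₐ[k] M) = r δ)
    (cn : L) (cm : M) (hcm : cm ≠ 0) (C : L) (hC : C ≠ 0)
    (hCγ : ∀ i : ℕ, (γ ^ i) C = C)
    (hnrm : ∏ i ∈ range (p ^ (n - m)), (γ ^ (p ^ m * i)) cn = C * j cm)
    (hω : ∀ w : L, w ^ p = 1 → γ w = w) (u : (𝓞 L)ˣ)
    (hu : ((u : 𝓞 L) : L) = ((γ ^ (p ^ m₀)) ^ p) cn / cn)
    (χ : D →* Fˣ) (θ : F →+ ZMod p)
    (hi3 : ∀ y : M, y ^ p ≠ ∏ δ : D', ((δ : M ≃ₐ[k] M)
      ((Tg (r γ))^[p ^ (m₀ + 1) + 2] cm)) ^ (θ ((χ.comp e.symm.toMonoidHom δ)⁻¹ : Fˣ)).val)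
    (hTN : ∃ w : M, w ≠ 0 ∧ (Tg (r γ))^[p ^ (m₀ + 1)] cm =
      ((r γ) ^ (p ^ (m₀ + 1))) cm / cm * w ^ p) :
    ((sUnitP p D γ m n χ θ u : 𝓞 L) : L) ≠ 0 ∧
    ∀ y : L, y ^ p ≠ γ ((sUnitP p D γ m n χ θ u : 𝓞 L) : L) /
      ((sUnitP p D γ m n χ θ u : 𝓞 L) : L) := by
  rw [sUnit_val]
  set G : L ≃ₐ[k] L := (γ ^ (p ^ m₀)) ^ p with hG
  have hG' : G = γ ^ (p ^ (m₀ + 1)) := by rw [hG, ← pow_mul, pow_succ]
  set um : M := ((r γ) ^ (p ^ (m₀ + 1))) cm / cm with hum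
  have hjcm : j cm ≠ 0 := by rw [Ne, map_eq_zero]; exact hcm
  have hrG : r G = (r γ) ^ (p ^ (m₀ + 1)) := by rw [hG', map_pow]
  -- the norm of u
  have hN : ∏ i ∈ range (p ^ (n - m)), ((γ ^ (p ^ m)) ^ i) ((u : 𝓞 L) : L) = j um := by
    have e1 : ∀ i ∈ range (p ^ (n - m)), ((γ ^ (p ^ m)) ^ i) ((u : 𝓞 L) : L) =
        G ((γ ^ (p ^ m * i)) cn) / (γ ^ (p ^ m * i)) cn := by
      intro i _
      rw [hu, ← pow_mul, map_div₀]
      congr 1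
      rw [← AlgEquiv.mul_apply, ← AlgEquiv.mul_apply, hG', ← pow_add, ← pow_add, add_comm]
    have hGC : G C = C := by rw [hG']; exact hCγ _
    rw [prod_congr rfl e1, prod_div_distrib, ← map_prod, hnrm, map_mul, hGC, ← hr, hrG,
      mul_div_mul_left _ _ hC, hum, map_div₀]
  rw [hN]
  -- the element of M
  set sm : M := ∏ δ : D', ((δ : M ≃ₐ[k] M) um) ^
    (θ ((χ.comp e.symm.toMonoidHom δ)⁻¹ : Fˣ)).val with hsm
  have hs : ∏ δ : D, ((δ : L ≃ₐ[k] L) (j um)) ^ (θ ((χ δ)⁻¹ : Fˣ)).val = j sm := by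
    rw [hsm, map_prod, ← e.toEquiv.prod_comp]
    refine prod_congr rfl fun δ _ => ?_
    rw [map_pow]
    congr 1
    · rw [← hr]
      congr 1
      show (r δ) um = ((e δ : D') : M ≃ₐ[k] M) um
      rw [he]
    · show _ = (θ ((χ (e.symm (e δ)))⁻¹ : Fˣ)).val
      rw [e.symm_apply_apply]
  rw [hs]
  have hum0 : um ≠ 0 := by
    rw [hum]
    exact div_ne_zero ((map_ne_zero _).mpr hcm) hcm
  have hsm0 : sm ≠ 0 := by
    rw [hsm, prod_ne_zero_iff]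
    intro δ _
    exact pow_ne_zero _ ((map_ne_zero _).mpr hum0)
  have hjsm0 : j sm ≠ 0 := (map_ne_zero _).mpr hsm0
  refine ⟨hjsm0, fun y hy => ?_⟩
  -- `y ^ p = j (T sm)`
  have hjT : ∀ x : M, γ (j x) / j x = j (Tg (r γ) x) := by
    intro x
    unfold Tg
    rw [map_div₀, hr]
  rw [hjT] at hy
  have hTs0 : Tg (r γ) sm ≠ 0 := div_ne_zero ((map_ne_zero _).mpr hsm0) hsm0
  have hjTs0 : j (Tg (r γ) sm) ≠ 0 := (map_ne_zero _).mpr hTs0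
  have hy0 : y ≠ 0 := by
    rintro rfl
    rw [zero_pow hp] at hy
    exact hjTs0 hy.symm
  set h : L ≃ₐ[k] L := γ ^ (p ^ m) with hh
  have hhy : h y ≠ 0 := (map_ne_zero _).mpr hy0
  have hw3 : (h y / y) ^ p = 1 := by
    rw [div_pow, ← map_pow, hy, (hfix (j (Tg (r γ) sm))).mpr ⟨_, rfl⟩, div_self hjTs0]
  have hw : γ (h y / y) = h y / y := hω _ hw3
  have hcomm : ∀ x : L, h (γ x) = γ (h x) := by
    intro x
    rw [← AlgEquiv.mul_apply, ← AlgEquiv.mul_apply, hh, ← pow_succ, ← pow_succ']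
  have hγy : γ y ≠ 0 := (map_ne_zero _).mpr hy0
  have ht : h (γ y / y) = γ y / y := by
    rw [map_div₀, hcomm]
    rw [map_div₀] at hw
    rw [div_eq_div_iff hγy hy0] at hw
    rw [div_eq_div_iff hhy hy0, hw, mul_comm]
  obtain ⟨t, htj⟩ := (hfix _).mp ht
  -- T (T sm) = t ^ p
  have hT : Tg (r γ) (Tg (r γ) sm) = t ^ p := by
    apply j.injective
    rw [map_pow, htj, div_pow, ← map_pow, hy, hjT]
  obtain ⟨w, hw0, hTw⟩ := hTN
  have hTN' : (Tg (r γ))^[p ^ (m₀ + 1) + 2] cm =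
      Tg (r γ) (Tg (r γ) um) * (Tg (r γ) (Tg (r γ) w)) ^ p := by
    rw [Function.iterate_succ_apply', Function.iterate_succ_apply', hTw, Tg_mul, Tg_pow, Tg_mul,
      Tg_pow]
  apply hi3 (t * ∏ δ : D', ((δ : M ≃ₐ[k] M) (Tg (r γ) (Tg (r γ) w))) ^
      (θ ((χ.comp e.symm.toMonoidHom δ)⁻¹ : Fˣ)).val)
  rw [hTN', mul_pow, ← hT, hsm, Tg_prod p comm, Tg_prod p comm, ← prod_pow, ← prod_mul_distrib]
  refine prod_congr rfl fun δ _ => ?_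
  rw [map_mul, map_pow, mul_pow]
  congr 1
  rw [← pow_mul, ← pow_mul, mul_comm]

/-- transport of the automorphism group along an equality of fields -/
theorem transp (k E E' : IntermediateField ℚ ℂ) (h : E = E') (h1 : k ≤ E) (h2 : k ≤ E') :
    letI := algC h1
    letI := algC h2
    ∃ t : (E ≃ₐ[k] E) ≃* (E' ≃ₐ[k] E'), ∀ (σ : E ≃ₐ[k] E) (x : E') (x' : E), (x' : ℂ) = x →
      ((σ x' : E) : ℂ) = (t σ x : E') := by
  subst h
  let _ := algC h1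
  refine ⟨MulEquiv.refl _, fun σ x x' hx => ?_⟩
  have e : x' = x := Subtype.ext hx
  rw [e]
  rfl

theorem B0 {p : ℕ} {B : ℕ → IntermediateField ℚ ℂ} (h : IsLayer p 0 (B 0)) : B 0 = ⊥ := by
  have h1 := h.1
  rw [pow_zero] at h1
  exact IntermediateField.finrank_eq_one_iff.1 h1

/-- restriction to `K₀` is an isomorphism `NC (B n) ≃ Gal(K₀ / k)` -/
theorem restr (h1 : S_RSX) (p : ℕ) [Fact p.Prime] (k K₀ : IntermediateField ℚ ℂ)
    (B : ℕ → IntermediateField ℚ ℂ) [FiniteDimensional ℚ K₀]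
    [∀ n, FiniteDimensional ℚ ↥(K₀ ⊔ B n)] (hB : BasX p k K₀ B)
    (hcop : ¬ p ∣ Module.finrank k (IntermediateField.extendScalars hB.hk))
    (hkK : k ≤ K₀) (n : ℕ) (h : k ≤ K₀ ⊔ B n) :
    letI := algC hkK
    letI := algC h
    ∃ ρ : NC h (B n) ≃* (↥K₀ ≃ₐ[k] ↥K₀), ∀ (δ : NC h (B n)) (x : ↥K₀) (x' : ↥(K₀ ⊔ B n)),
      (x' : ℂ) = x →
      (((δ : ↥(K₀ ⊔ B n) ≃ₐ[k] ↥(K₀ ⊔ B n)) x' : ↥(K₀ ⊔ B n)) : ℂ) = (ρ δ x : ↥K₀) := by
  let _ := algC hkK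
  let _ := algC h
  have hb : B 0 = ⊥ := B0 (hB.lay 0)
  have hE : K₀ ⊔ B 0 = K₀ := by rw [hb, sup_bot_eq]
  have h' : k ≤ K₀ ⊔ B 0 := hkK.trans le_sup_left
  have hmn : K₀ ⊔ B 0 ≤ K₀ ⊔ B n := sup_le_sup_left (hB.mono (Nat.zero_le n)) K₀
  let _ := algC h'
  obtain ⟨r, hr, _, e, he⟩ := h1 p k K₀ B hB hcop 0 n (Nat.zero_le n) h h' hmn
  obtain ⟨t, ht⟩ := transp k (K₀ ⊔ B 0) K₀ hE h' hkK
  have htop : NC h' (B 0) = ⊤ := by
    rw [eq_top_iff]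
    intro σ _ x hx
    have hx' : (x : ℂ) ∈ (⊥ : IntermediateField ℚ ℂ) := hb.le hx
    obtain ⟨q, hq⟩ := IntermediateField.mem_bot.1 hx'
    have hq' : x = algebraMap ℚ ↥(K₀ ⊔ B 0) q := Subtype.ext hq.symm
    rw [hq']
    have h4 : algebraMap ℚ ↥(K₀ ⊔ B 0) q = ((q : ℚ) : ↥(K₀ ⊔ B 0)) := eq_ratCast _ q
    rw [h4]
    exact map_ratCast σ q
  refine ⟨(e.trans (MulEquiv.subgroupCongr htop)).trans (Subgroup.topEquiv.trans t), ?_⟩
  intro δ x x' hx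
  have hx2 : (x : ℂ) ∈ K₀ ⊔ B 0 := by rw [hE]; exact x.2
  have e1 : x' = ⟨((⟨x, hx2⟩ : ↥(K₀ ⊔ B 0)) : ℂ), hmn hx2⟩ := Subtype.ext hx
  have e2 := ht (r (δ : ↥(K₀ ⊔ B n) ≃ₐ[k] ↥(K₀ ⊔ B n))) x ⟨x, hx2⟩ rfl
  have e3 := hr (δ : ↥(K₀ ⊔ B n) ≃ₐ[k] ↥(K₀ ⊔ B n)) ⟨x, hx2⟩
  rw [e1, ← e3, e2]
  have e4 : ((e.trans (MulEquiv.subgroupCongr htop)).trans (Subgroup.topEquiv.trans t)) δ =
      t ((e δ : NC h' (B 0)) : ↥(K₀ ⊔ B 0) ≃ₐ[k] ↥(K₀ ⊔ B 0)) := rfl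
  rw [e4, he]

end I3X19

open _root_.Pool.Agent.MUXK.I3X19 in
theorem t_I3X (h1 : S_RSX) (h2 : S_NRX) (h3 : S_TNX) (h4 : S_NCP) (h5 : S_GALX) : S_I3X := by
  intro F _ p _ k K₀ K B _ _ _ _ hX hk hk₀ hh hkK S c c₀ n₁ hI m₀
  have hp0 : p ≠ 0 := (Fact.out : p.Prime).ne_zero
  have hfin : FiniteDimensional ℚ K₀ :=
    FiniteDimensional.of_injective (IntermediateField.inclusion hX.le).toLinearMap
      (IntermediateField.inclusion hX.le).injective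
  obtain ⟨ω, hωK, hω1⟩ := hX.om
  let _ := algC hkK
  have htow : IsScalarTower ℚ k K₀ := IsScalarTower.of_algebraMap_eq fun x => rfl
  have hfin2 : FiniteDimensional k K₀ := Pool.Agent.FX.fright ℚ k K₀
  have hfin3 : Finite (↥K₀ ≃ₐ[k] ↥K₀) := inferInstance
  have hfin4 : Finite ((↥K₀ ≃ₐ[k] ↥K₀) →* Fˣ) := inferInstance
  choose μ hμ1 hμ2 using fun χ : (↥K₀ ≃ₐ[k] ↥K₀) →* Fˣ => hI.i3 χ (p ^ (m₀ + 1) + 2) n₁
  obtain ⟨m₁, hm₁⟩ := (Set.finite_range μ).bddAbove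
  have hm₁' : ∀ χ, μ χ ≤ m₁ := fun χ => hm₁ (Set.mem_range_self χ)
  refine ⟨m₁, (hμ1 1).trans (hm₁' 1), ?_⟩
  intro n hmn
  let _ := algC (hk₀ n)
  let _ := algC (hh n)
  let _ := algC (hk n)
  intro γ hγ _ u hu χ
  obtain ⟨ρn, hρn⟩ := restr h1 p k K₀ B hX.b0 hX.cop hkK n (hk₀ n)
  obtain ⟨ψ, hψ⟩ : ∃ ψ : (↥K₀ ≃ₐ[k] ↥K₀) →* Fˣ, ∀ δ, ψ (ρn δ) = χ δ :=
    ⟨χ.comp ρn.symm.toMonoidHom, fun δ => by
      show χ (ρn.symm (ρn δ)) = χ δ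
      rw [ρn.symm_apply_apply]⟩
  have hm1 := hμ1 ψ
  have hm2 := hμ2 ψ
  have hm3 := hm₁' ψ
  obtain ⟨m, hm⟩ : ∃ m, m = μ ψ := ⟨_, rfl⟩
  rw [← hm] at hm1 hm2 hm3
  refine ⟨m, hm3, ?_⟩
  let _ := algC (hk₀ m)
  have hmn' : m ≤ n := hm3.trans hmn
  have hsub : K₀ ⊔ B m ≤ K₀ ⊔ B n := sup_le_sup_left (hX.b0.mono hmn') K₀
  obtain ⟨r, hr, hrγ, e, he⟩ := h1 p k K₀ B hX.b0 hX.cop m n hmn' (hk₀ n) (hk₀ m) hsub
  obtain ⟨ρm, hρm⟩ := restr h1 p k K₀ B hX.b0 hX.cop hkK m (hk₀ m)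
  obtain ⟨hr1, hr2⟩ := hrγ γ hγ
  let _ : Fintype (NC (hk₀ m) (B m)) := Fintype.ofEquiv _ e.toEquiv
  obtain ⟨θ, hθ0⟩ := hm2 (r γ) hr1 (fun δ => ρm δ) hρm
  have hρ : ∀ δ, ρm (e δ) = ρn δ := by
    intro δ
    refine AlgEquiv.ext fun x => Subtype.ext ?_
    have hx1 : (x : ℂ) ∈ K₀ ⊔ B m := le_sup_left (a := K₀) x.2
    rw [← hρm (e δ) x ⟨x, hx1⟩ rfl, ← hρn δ x ⟨x, hsub hx1⟩ rfl, he]
    exact hr _ ⟨x, hx1⟩
  have hχ : ∀ δ, ψ (ρm δ) = (χ.comp e.symm.toMonoidHom) δ := by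
    intro δ
    show ψ (ρm δ) = χ (e.symm δ)
    rw [← hψ, ← hρ, e.apply_symm_apply]
  have hθ : ∀ y : ↥(K₀ ⊔ B m), y ^ p ≠ ∏ δ : NC (hk₀ m) (B m),
      ((δ : ↥(K₀ ⊔ B m) ≃ₐ[k] ↥(K₀ ⊔ B m)) ((Tg (r γ))^[p ^ (m₀ + 1) + 2] ⟨c₀ m, hI.mem₀ m⟩)) ^
        (θ (((χ.comp e.symm.toMonoidHom) δ)⁻¹ : Fˣ)).val := by
    intro y hy
    refine hθ0 y (hy.trans ?_)
    exact prod_congr rfl fun δ _ => by rw [hχ]
  obtain ⟨C, hCk, hC0, hC⟩ := h2 F p k K₀ K B hX hk hk₀ hkK S c c₀ n₁ hI m n hm1 hmn' γ hγ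
  refine ⟨θ, ?_⟩
  have hc0 : ∀ i, c₀ i ≠ 0 := by
    intro i
    let _ := algC (hk i)
    rw [hI.norm i]
    refine finprod_induction (p := fun x : ℂ => x ≠ 0) one_ne_zero (fun x y hx hy => mul_ne_zero hx hy)
      fun g hg => ?_
    have h6 := (map_eq_zero ((g : NC (hk i) (K₀ ⊔ B i)) : ↥(K ⊔ B i) ≃ₐ[k] ↥(K ⊔ B i))).1
      (Subtype.ext hg)
    exact hI.ne i (congrArg Subtype.val h6)
  have hcm : (⟨c₀ m, hI.mem₀ m⟩ : ↥(K₀ ⊔ B m)) ≠ 0 := by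
    intro h; exact hc0 m (congrArg Subtype.val h)
  have a1 := h3 p k ↥(K₀ ⊔ B m) (r γ) (m₀ + 1) _ hcm
  have a2 := (h5 p k K₀ B hX.b0 m (hk₀ m)).2
  have b1 : ∀ (σ : ↥(K₀ ⊔ B n) ≃ₐ[k] ↥(K₀ ⊔ B n)) (x : ↥(K₀ ⊔ B m)),
      (IntermediateField.inclusion hsub : ↥(K₀ ⊔ B m) →+* ↥(K₀ ⊔ B n)) (r σ x) =
        σ ((IntermediateField.inclusion hsub : ↥(K₀ ⊔ B m) →+* ↥(K₀ ⊔ B n)) x) :=
    fun σ x => Subtype.ext ((Pool.Agent.FX.incl_coe' hsub _).trans (hr σ x))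
  have b2 : ∀ x : ↥(K₀ ⊔ B n), (γ ^ (p ^ m)) x = x ↔
      ∃ z : ↥(K₀ ⊔ B m),
        (IntermediateField.inclusion hsub : ↥(K₀ ⊔ B m) →+* ↥(K₀ ⊔ B n)) z = x := by
    intro x
    rw [hr2 x]
    constructor
    · intro hx
      exact ⟨⟨x, hx⟩, rfl⟩
    · rintro ⟨z, rfl⟩
      exact Pool.Agent.FX.incl_mem' hsub z
  have hK₀n : K₀ ≤ K₀ ⊔ B n := le_sup_left
  have b3 : (⟨C, hK₀n hCk⟩ : ↥(K₀ ⊔ B n)) ≠ 0 := by
    intro h; exact hC0 (congrArg Subtype.val h)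
  have b4 : ∀ i : ℕ, (γ ^ i) (⟨C, hK₀n hCk⟩ : ↥(K₀ ⊔ B n)) = ⟨C, hK₀n hCk⟩ := by
    intro i
    have h6 : γ (⟨C, hK₀n hCk⟩ : ↥(K₀ ⊔ B n)) = ⟨C, hK₀n hCk⟩ := (hγ _).2 hCk
    induction i with
    | zero => rw [pow_zero, AlgEquiv.one_apply]
    | succ i ih => rw [pow_succ, AlgEquiv.mul_apply, h6, ih]
  have b5 : ∏ i ∈ range (p ^ (n - m)), (γ ^ (p ^ m * i)) ⟨c₀ n, hI.mem₀ n⟩ =
      ⟨C, hK₀n hCk⟩ *
        (IntermediateField.inclusion hsub : ↥(K₀ ⊔ B m) →+* ↥(K₀ ⊔ B n)) ⟨c₀ m, hI.mem₀ m⟩ :=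
    Subtype.ext hC
  have b6 : ∀ w : ↥(K₀ ⊔ B n), w ^ p = 1 → γ w = w := by
    intro w hw
    rw [hγ w]
    have hw' : (w : ℂ) ^ p = 1 := congrArg Subtype.val hw
    have : NeZero p := ⟨hp0⟩
    obtain ⟨i, _, hi⟩ := hω1.eq_pow_of_pow_eq_one hw'
    rw [← hi]
    exact K₀.pow_mem hωK i
  have a4 := core (F := F) p hp0 _ r b1 a2 γ m n m₀ b2 (NC (hk₀ n) (B n)) (NC (hk₀ m) (B m)) e he
  have a5 := a4 ⟨c₀ n, hI.mem₀ n⟩ ⟨c₀ m, hI.mem₀ m⟩ hcm _ b3 b4 b5 b6 u hu χ θ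
  obtain ⟨a6, a7⟩ := a5 hθ a1
  intro y hy
  have hst := Pool.Agent.FX.tower k ↥(K₀ ⊔ B n) ↥(K ⊔ B n) fun x => rfl
  have hg1 := (h5 p k K₀ B hX.b0 n (hk₀ n)).1
  obtain ⟨hg2, hg3⟩ := h5 p k K B hX.b n (hk n)
  have hωn : ω ∈ K₀ ⊔ B n := hK₀n hωK
  have hω2 : IsPrimitiveRoot (⟨ω, hωn⟩ : ↥(K₀ ⊔ B n)) p := by
    refine IsPrimitiveRoot.of_map_of_injective (f := (K₀ ⊔ B n).val) ?_
      (K₀ ⊔ B n).val.injective
    exact hω1
  obtain ⟨t, ht⟩ := h4 p k ↥(K₀ ⊔ B n) ↥(K ⊔ B n) hg3 γ ⟨ω, hωn⟩ hω2 ((hγ _).2 hωK) _ a6 y hy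
  exact a7 t ht

end Pool.Agent.MUXK


end

section

/-!
# MU3, block A: module M11 (helper50)
-/

set_option autoImplicit false

namespace Pool.Agent.MU3A

open _root_.MU3 _root_.Pool.Agent.MU3B Polynomial NumberField

noncomputable section

namespace M11

/-- Vieta. -/
theorem vieta {a b c e1 e2 e3 : ℂ} (h1 : e1 ^ 3 + a * e1 ^ 2 + b * e1 + c = 0)
    (h2 : e2 ^ 3 + a * e2 ^ 2 + b * e2 + c = 0) (h3 : e3 ^ 3 + a * e3 ^ 2 + b * e3 + c = 0)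
    (h12 : e1 ≠ e2) (h13 : e1 ≠ e3) (h23 : e2 ≠ e3) :
    a = -(e1 + e2 + e3) ∧ b = e1 * e2 + e1 * e3 + e2 * e3 ∧ c = -(e1 * e2 * e3) := by
  have d12 : e1 - e2 ≠ 0 := sub_ne_zero.2 h12
  have d13 : e1 - e3 ≠ 0 := sub_ne_zero.2 h13
  have d23 : e2 - e3 ≠ 0 := sub_ne_zero.2 h23
  have k12 : e1 ^ 2 + e1 * e2 + e2 ^ 2 + a * (e1 + e2) + b = 0 := by
    apply mul_left_cancel₀ d12
    linear_combination h1 - h2
  have k13 : e1 ^ 2 + e1 * e3 + e3 ^ 2 + a * (e1 + e3) + b = 0 := by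
    apply mul_left_cancel₀ d13
    linear_combination h1 - h3
  have k : e1 + e2 + e3 + a = 0 := by
    apply mul_left_cancel₀ d23
    linear_combination k12 - k13
  have ha : a = -(e1 + e2 + e3) := by linear_combination k
  have hb : b = e1 * e2 + e1 * e3 + e2 * e3 := by
    rw [ha] at k12
    linear_combination k12
  refine ⟨ha, hb, ?_⟩
  rw [ha, hb] at h1
  linear_combination h1

/-- The halving formula. -/
theorem half {a b c e1 e2 e3 x y : ℂ} (ha : a = -(e1 + e2 + e3))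
    (hb : b = e1 * e2 + e1 * e3 + e2 * e3) (hc : c = -(e1 * e2 * e3)) (hy : y ≠ 0)
    (heq : y ^ 2 = x ^ 3 + a * x ^ 2 + b * x + c)
    (h : e1 = ((3 * x ^ 2 + 2 * a * x + b) / (2 * y)) ^ 2 - a - 2 * x) :
    (x - e1) ^ 2 = (e1 - e2) * (e1 - e3) := by
  have h2 : (e1 + a + 2 * x) * (4 * y ^ 2) = (3 * x ^ 2 + 2 * a * x + b) ^ 2 := by
    have h3 : e1 + a + 2 * x = ((3 * x ^ 2 + 2 * a * x + b) / (2 * y)) ^ 2 := by
      linear_combination h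
    rw [h3]
    field_simp
    ring
  rw [heq, ha, hb, hc] at h2
  have h4 : ((x - e1) ^ 2 - (e1 - e2) * (e1 - e3)) ^ 2 = 0 := by
    linear_combination -h2
  have h5 := pow_eq_zero_iff (two_ne_zero) |>.1 h4
  linear_combination h5

/-- The algebraic part. -/
theorem alg {k : Type} [Field k] [Algebra k ℂ] (F : IntermediateField k ℂ)
    {δ e1 e2 e3 p1 p2 p3 y : ℂ} (hδ : δ ^ 2 = -11)
    (ha : δ = -(e1 + e2 + e3)) (hb : -3 = e1 * e2 + e1 * e3 + e2 * e3)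
    (hc : -δ / 4 = -(e1 * e2 * e3)) (h12 : e1 ≠ e2) (h13 : e1 ≠ e3) (h23 : e2 ≠ e3)
    (m1 : e1 ∈ F) (m2 : e2 ∈ F) (m3 : e3 ∈ F) (n1 : p1 ∈ F) (n2 : p2 ∈ F) (n3 : p3 ∈ F)
    (r1 : (p1 - e1) ^ 2 = (e1 - e2) * (e1 - e3)) (r2 : (p2 - e2) ^ 2 = (e2 - e1) * (e2 - e3))
    (r3 : (p3 - e3) ^ 2 = (e3 - e1) * (e3 - e2))
    (hy : y ^ 2 = (p1 - e1) * (p1 - e2) * (p1 - e3)) : y ∈ F := by
  have d12 : e1 - e2 ≠ 0 := sub_ne_zero.2 h12
  have d13 : e1 - e3 ≠ 0 := sub_ne_zero.2 h13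
  have d23 : e2 - e3 ≠ 0 := sub_ne_zero.2 h23
  have q1 : p1 - e1 ∈ F := sub_mem n1 m1
  have q2 : p2 - e2 ∈ F := sub_mem n2 m2
  have q3 : p3 - e3 ∈ F := sub_mem n3 m3
  set d : ℂ := (e1 - e2) * (e2 - e3) * (e3 - e1) with hd
  have d0 : d ≠ 0 := by
    rw [hd]
    refine mul_ne_zero (mul_ne_zero d12 d23) ?_
    intro h
    apply d13
    linear_combination -h
  have hdF : d ∈ F := mul_mem (mul_mem (sub_mem m1 m2) (sub_mem m2 m3)) (sub_mem m3 m1)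
  -- the discriminant
  have hdisc : d ^ 2 = 1 / 16 := by
    have g : d ^ 2 = (-(e1 + e2 + e3)) ^ 2 * (e1 * e2 + e1 * e3 + e2 * e3) ^ 2 -
        4 * (e1 * e2 + e1 * e3 + e2 * e3) ^ 3 -
        4 * (-(e1 + e2 + e3)) ^ 3 * (-(e1 * e2 * e3)) - 27 * (-(e1 * e2 * e3)) ^ 2 +
        18 * (-(e1 + e2 + e3)) * (e1 * e2 + e1 * e3 + e2 * e3) * (-(e1 * e2 * e3)) := by
      rw [hd]; ring
    rw [← ha, ← hb, ← hc] at g
    rw [g]
    linear_combination (δ ^ 2 + 9 - 11 - 27 / 16 + 54 / 4) * hδ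
  have hfac : (d - 1 / 4) * (d + 1 / 4) = 0 := by linear_combination hdisc
  -- a square root of `-1`
  set i : ℂ := (p1 - e1) * (p2 - e2) * (p3 - e3) / d with hi
  have hiF : i ∈ F := div_mem (mul_mem (mul_mem q1 q2) q3) hdF
  have hi2 : i ^ 2 = -1 := by
    rw [hi, div_pow, mul_pow, mul_pow, r1, r2, r3, div_eq_iff (pow_ne_zero 2 d0), hd]
    ring
  -- a square root of `d`
  have hhalf : (1 / 2 : ℂ) ∈ F := by
    have h1 : (1 : ℂ) ∈ F := one_mem F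
    have h2 : (2 : ℂ) ∈ F := by
      have := add_mem h1 h1
      rwa [one_add_one_eq_two] at this
    exact div_mem h1 h2
  obtain ⟨s, hsF, hs⟩ : ∃ s ∈ F, s ^ 2 = d := by
    rcases mul_eq_zero.1 hfac with h | h
    · refine ⟨1 / 2, hhalf, ?_⟩
      linear_combination -h
    · refine ⟨i * (1 / 2), mul_mem hiF hhalf, ?_⟩
      rw [mul_pow, hi2]
      linear_combination -h
  have r20 : p2 - e2 ≠ 0 := by
    intro h
    rw [h] at r2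
    have h3 : (e2 - e1) * (e2 - e3) = 0 := by rw [← r2]; ring
    rcases mul_eq_zero.1 h3 with h4 | h4
    · exact d12 (by linear_combination -h4)
    · exact d23 h4
  set β : ℂ := s / (p2 - e2) with hβ
  have hβF : β ∈ F := div_mem hsF q2
  have hβ2 : β ^ 2 = e1 - e3 := by
    rw [hβ, div_pow, hs, r2, div_eq_iff (by
      refine mul_ne_zero ?_ d23
      intro h
      apply d12
      linear_combination -h), hd]
    ring
  have hβ0 : β ≠ 0 := by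
    intro h
    rw [h] at hβ2
    apply d13
    rw [← hβ2]
    ring
  set α : ℂ := (p1 - e1) / β with hα
  have hαF : α ∈ F := div_mem q1 hβF
  have hα2 : α ^ 2 = e1 - e2 := by
    rw [hα, div_pow, r1, hβ2, div_eq_iff d13]
  have hαβ : α * β = p1 - e1 := by
    rw [hα, div_mul_cancel₀ _ hβ0]
  have hy2 : (y - (p1 - e1) * (α + β)) * (y + (p1 - e1) * (α + β)) = 0 := by
    have e12 : p1 - e2 = α * β + α ^ 2 := by rw [hαβ, hα2]; ring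
    have e13 : p1 - e3 = α * β + β ^ 2 := by rw [hαβ, hβ2]; ring
    rw [e12, e13] at hy
    have h3 : (y - (p1 - e1) * (α + β)) * (y + (p1 - e1) * (α + β)) =
        y ^ 2 - (p1 - e1) ^ 2 * (α + β) ^ 2 := by ring
    rw [h3, hy, ← hαβ]
    ring
  have hmem : (p1 - e1) * (α + β) ∈ F := mul_mem q1 (add_mem hαF hβF)
  rcases mul_eq_zero.1 hy2 with h | h
  · have : y = (p1 - e1) * (α + β) := by linear_combination h
    rw [this]
    exact hmem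
  · have : y = -((p1 - e1) * (α + β)) := by linear_combination h
    rw [this]
    exact neg_mem hmem

/-- Divisibility by two. -/
theorem two_dvd {x : OO (-3) 1} (h : (2 : OO (-3) 1) ∣ x) : (2 : ℤ) ∣ x.re ∧ (2 : ℤ) ∣ x.im := by
  obtain ⟨y, rfl⟩ := h
  rw [two_mul]
  refine ⟨⟨y.re, ?_⟩, ⟨y.im, ?_⟩⟩
  · rw [QuadraticAlgebra.re_add]; ring
  · rw [QuadraticAlgebra.im_add]; ring

end M11

open _root_.Pool.Agent.MU3A.M11 in
theorem ta_M11 (h1 : Sa_EQN) (h2 : Sa_LAW) : Sa_M11 := by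
  intro L Om hL
  have hc : Case (-3) 1 := Or.inr ⟨rfl, rfl⟩
  obtain ⟨heq, -, -, -, hinj, -, hy0, -, -⟩ := h1 (-3) 1 L Om hc hL
  obtain ⟨-, hdbl⟩ := h2 (-3) 1 L Om hc hL
  have e2n : emb (2 : OO (-3) 1) = 2 := by
    have := emb_natCast hc 2
    push_cast at this
    exact this
  have e4n : emb (4 : OO (-3) 1) = 4 := by
    have := emb_natCast hc 4
    push_cast at this
    exact this
  have h20 : (2 : OO (-3) 1) ≠ 0 := by
    intro h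
    rw [h, emb_zero hc] at e2n
    norm_num at e2n
  -- the constants
  set δ : ℂ := emb (a2 (-3) 1) with hδ
  have hδw : δ = 2 * wC (-3) 1 - 1 := by
    rw [hδ, a2]
    simp [emb]
    ring
  have hδ2 : δ ^ 2 = -11 := by
    have h3 := wC_sq hc
    rw [hδw]
    push_cast at h3
    linear_combination 4 * h3
  have h4c : emb (a4 (-3) 1) = -3 := by
    rw [a4]
    have := emb_intCast hc (-3)
    push_cast at this
    simpa using this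
  have h6c : emb (a6 (-3) 1) = -δ := by
    rw [a6, hδw]
    simp [emb]
    ring
  rw [h4c] at hdbl
  rw [h4c, h6c] at heq
  -- points of order two and four
  set T : OO (-3) 1 → ℂ := fun x => emb x * (Om / 2) with hT
  set P : OO (-3) 1 → ℂ := fun x => emb x * (Om / 4) with hP
  have hTmem : ∀ x, T x ∈ L.lattice ↔ (2 : OO (-3) 1) ∣ x := by
    intro x
    have h3 := hL.toIsLat.mul_div_mem_iff hc h20 x
    rw [e2n] at h3
    exact h3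
  have hPT : ∀ x, 2 * P x = T x := by
    intro x
    simp only [hP, hT]
    ring
  have hPnot : ∀ x, ¬ (2 : OO (-3) 1) ∣ x → P x ∉ L.lattice := by
    intro x hx h
    apply hx
    rw [← hTmem, ← hPT, two_mul]
    exact add_mem h h
  have h4P : ∀ x, emb (4 : OO (-3) 1) * P x ∈ L.lattice := by
    intro x
    rw [e4n, hL.mem]
    refine ⟨x, ?_⟩
    simp only [hP]
    ring
  have h4T : ∀ x, emb (4 : OO (-3) 1) * T x ∈ L.lattice := by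
    intro x
    rw [e4n, hL.mem]
    refine ⟨x + x, ?_⟩
    rw [emb_add hc]
    simp only [hT]
    ring
  have hxT : ∀ x, ¬ (2 : OO (-3) 1) ∣ x → xx (-3) 1 L (T x) ∈ XF L (4 : OO (-3) 1) := by
    intro x hx
    exact IntermediateField.subset_adjoin _ _ ⟨T x, h4T x, fun h => hx ((hTmem x).1 h), rfl⟩
  have hxP : ∀ x, ¬ (2 : OO (-3) 1) ∣ x → xx (-3) 1 L (P x) ∈ XF L (4 : OO (-3) 1) := by
    intro x hx
    exact IntermediateField.subset_adjoin _ _ ⟨P x, h4P x, hPnot x hx, rfl⟩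
  have hroot : ∀ x, ¬ (2 : OO (-3) 1) ∣ x → xx (-3) 1 L (T x) ^ 3 + δ * xx (-3) 1 L (T x) ^ 2 +
      (-3) * xx (-3) 1 L (T x) + -δ / 4 = 0 := by
    intro x hx
    have hTx : T x ∉ L.lattice := fun h => hx ((hTmem x).1 h)
    have h3 : yy L (T x) = 0 := by
      rw [hy0 (T x) hTx, hL.mem]
      refine ⟨x, ?_⟩
      simp only [hT]
      ring
    have h4 := heq (T x) hTx
    rw [h3] at h4
    linear_combination -h4
  have hne : ∀ x x', ¬ (2 : OO (-3) 1) ∣ x → ¬ (2 : OO (-3) 1) ∣ x' →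
      ¬ (2 : OO (-3) 1) ∣ x - x' → ¬ (2 : OO (-3) 1) ∣ x + x' →
      xx (-3) 1 L (T x) ≠ xx (-3) 1 L (T x') := by
    intro x x' hx hx' hd hs h
    rcases hinj (T x) (T x') (fun h => hx ((hTmem x).1 h)) (fun h => hx' ((hTmem x').1 h)) h with
      h3 | h3
    · apply hd
      rw [← hTmem]
      have e : T (x - x') = T x - T x' := by
        simp only [hT]
        rw [emb_sub hc]
        ring
      rwa [e]
    · apply hs
      rw [← hTmem]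
      have e : T (x + x') = T x + T x' := by
        simp only [hT]
        rw [emb_add hc]
        ring
      rwa [e]
  have hyne : ∀ x, ¬ (2 : OO (-3) 1) ∣ x → yy L (P x) ≠ 0 := by
    intro x hx h
    have h3 := (hy0 (P x) (hPnot x hx)).1 h
    rw [hPT] at h3
    exact hx ((hTmem x).1 h3)
  have hx1 : ¬ (2 : OO (-3) 1) ∣ ⟨1, 0⟩ := fun h => by
    have := (two_dvd h).1
    norm_num at this
  have hx2 : ¬ (2 : OO (-3) 1) ∣ ⟨0, 1⟩ := fun h => by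
    have := (two_dvd h).2
    norm_num at this
  have hx3 : ¬ (2 : OO (-3) 1) ∣ ⟨1, 1⟩ := fun h => by
    have := (two_dvd h).2
    norm_num at this
  have h12 := hne ⟨1, 0⟩ ⟨0, 1⟩ hx1 hx2
    (fun h => by have := (two_dvd h).1; norm_num at this)
    (fun h => by have := (two_dvd h).1; norm_num at this)
  have h13 := hne ⟨1, 0⟩ ⟨1, 1⟩ hx1 hx3
    (fun h => by have := (two_dvd h).2; norm_num at this)
    (fun h => by have := (two_dvd h).2; norm_num at this)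
  have h23 := hne ⟨0, 1⟩ ⟨1, 1⟩ hx2 hx3
    (fun h => by have := (two_dvd h).1; norm_num at this)
    (fun h => by have := (two_dvd h).1; norm_num at this)
  obtain ⟨va, vb, vc⟩ := vieta (hroot _ hx1) (hroot _ hx2) (hroot _ hx3) h12 h13 h23
  have hhalf : ∀ x, ¬ (2 : OO (-3) 1) ∣ x →
      xx (-3) 1 L (T x) = ((3 * xx (-3) 1 L (P x) ^ 2 + 2 * δ * xx (-3) 1 L (P x) + -3) /
        (2 * yy L (P x))) ^ 2 - δ - 2 * xx (-3) 1 L (P x) := by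
    intro x hx
    have h3 := (hdbl (P x) (by rw [hPT]; exact fun h => hx ((hTmem x).1 h))).1
    rw [hPT] at h3
    exact h3
  have r1 := half va vb vc (hyne _ hx1) (heq _ (hPnot _ hx1)) (hhalf _ hx1)
  have r2 := half (a := δ) (b := -3) (c := -δ / 4) (e1 := xx (-3) 1 L (T ⟨0, 1⟩))
    (e2 := xx (-3) 1 L (T ⟨1, 0⟩)) (e3 := xx (-3) 1 L (T ⟨1, 1⟩))
    (by linear_combination va) (by linear_combination vb) (by linear_combination vc)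
    (hyne _ hx2) (heq _ (hPnot _ hx2)) (hhalf _ hx2)
  have r3 := half (a := δ) (b := -3) (c := -δ / 4) (e1 := xx (-3) 1 L (T ⟨1, 1⟩))
    (e2 := xx (-3) 1 L (T ⟨1, 0⟩)) (e3 := xx (-3) 1 L (T ⟨0, 1⟩))
    (by linear_combination va) (by linear_combination vb) (by linear_combination vc)
    (hyne _ hx3) (heq _ (hPnot _ hx3)) (hhalf _ hx3)
  have hOm : Om / 4 = P ⟨1, 0⟩ := by
    have : emb (⟨1, 0⟩ : OO (-3) 1) = 1 := by simp [emb]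
    simp only [hP]
    rw [this, one_mul]
  rw [hOm]
  apply alg (XF L (4 : OO (-3) 1)) hδ2 va vb vc h12 h13 h23 (hxT _ hx1) (hxT _ hx2) (hxT _ hx3)
    (hxP _ hx1) (hxP _ hx2) (hxP _ hx3) r1 r2 r3
  rw [heq _ (hPnot _ hx1)]
  linear_combination (xx (-3) 1 L (P ⟨1, 0⟩)) ^ 2 * va + xx (-3) 1 L (P ⟨1, 0⟩) * vb + vc

end

end Pool.Agent.MU3A


end
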