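import Mathlib
import Pool.Agent.MVF.C014
import Pool.Agent.MVF.C021
import Pool.Agent.MVF.C025
import Pool.Agent.MVF.C033
import Pool.Agent.MVF.C035
import Pool.Agent.MVF.C037
import Pool.Agent.MVF.C039
import Pool.Agent.MVF.C070

/-! Parts: MUX.StZX, NS.StIN, MUX.HY_PRX, MUX.I_EPS3, MUX.Z_LVX, NS.I_INP, MUX.I_TH, NS.I_XMX, NS.I_SUB, NS.I_LEM1, MUX.I_PQF, MUX.Kap2, MUX.I_XMX, MU3.P_EIG, MU3.P_M0, MUX.K_M0X, MUX.K_KNM, MUX.J_VEX, MUX.Z_THN -/

namespace Pool.Agent.MUXI.EPS3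
end Pool.Agent.MUXI.EPS3
namespace Pool.Agent.MUXI.PQFaux
end Pool.Agent.MUXI.PQFaux
namespace Pool.Agent.MUXI.TH
end Pool.Agent.MUXI.TH
namespace Pool.Agent.MUXK.K_KNM
end Pool.Agent.MUXK.K_KNM
namespace Pool.Agent.MUXZ.LVX
end Pool.Agent.MUXZ.LVX
namespace Pool.Agent.MUXZ.THN
end Pool.Agent.MUXZ.THN
namespace Pool.Agent.NSI.IxSUB
end Pool.Agent.NSI.IxSUB
namespace Pool.Agent.NSI.Xmx
end Pool.Agent.NSI.Xmx

section

/-!
# MUX, last glue (helper3): from blocks W, E, I to the inputs `InpAll` of block J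

`D_n = K ⊔ B n`, `m_n = lvX p f n = f q0 p^n`, `θ_n = Θ_a(om/m_n) ∈ RF m_n`, `a = aX p f`, `c n = cW θ_n` = the norm of `θ_n` to
`K B_n`, `c₀ n` = the norm to `K₀ B_n`. Every `def Sz_X : Prop` is the statement of a module `MUXZ_X`: `theorem tz_X (h : ..) .. : Sz_X` in
`Pool/Agent/MUX/Z_X.lean`, namespace `Pool.Agent.MUXZ`.
-/

set_option autoImplicit false

open NumberField IsDedekindDomain

namespace Pool.Agent.MUXZ

open _root_.MU3 _root_.Pool.Agent.MU3 _root_.Pool.Agent.MU3A _root_.Pool.Agent.MU3B _root_.Pool.Agent.RI _root_.Pool.Agent.RID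
  _root_.Pool.Agent.MUX _root_.Pool.Agent.MUXK _root_.Pool.Agent.MUXJ _root_.Pool.Agent.MUXW
open _root_.Pool.Agent.MU3V (Sub GD)

noncomputable section

/-- (LVX) elementary properties of the levels.

PROOF. `lvX p f n = f * q0 p * p ^ n`, `q0 2 = 4`, `q0 3 = 3`; `p = 3` or `p = 2` (`case.split`), `f ≠ 0`. `m = lvX p f n ≥ 3`: in `O`, `2 = m y` gives `4 = m² nm y` (`nm` is multiplicative, `nm (m : O) = m²`), so `m² ∣ 4`, false; `m` is not a unit (`nm`). `a = 1 + 2 q0 f`: a prime number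
dividing `m` divides `q0 f` (`p ∣ q0`), so not `a`. `nm (m : O) = m²`; the prime divisors of `m` divide `p f`. -/
def Sz_LVX : Prop :=
  ∀ (p : ℕ) (A B : ℤ) (P : Ideal (OO A B)) (V : ValuationSubring ℂ) (f : ℕ)
    (_ : SetP p A B P V f) (n : ℕ),
    lvX p f n ≠ 0 ∧ lvX p f (n + 1) = p * lvX p f n ∧ p ∣ lvX p f n ∧
    ¬ ((lvX p f n : ℕ) : OO A B) ∣ 2 ∧ ¬ IsUnit ((lvX p f n : ℕ) : OO A B) ∧
    Odd (aX p f) ∧ (aX p f).Coprime (lvX p f n) ∧
    IsCoprime ((aX p f : ℤ) : OO A B) ((lvX p f n : ℕ) : OO A B) ∧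
    (∀ q : ℕ, q.Prime → (q : ℤ) ∣ nm ((lvX p f n : ℕ) : OO A B) → q ∣ p * f) ∧
    ∀ k : ℕ, k.Coprime (p * f) → k.Coprime (lvX p f n)

/-- (LVF) the fields `K B_n` are in the ray class fields of level `m_n`.

Uses Sj_LAY. PROOF. `F = (RF (idl (lvX p f n))).restrictScalars ℚ`. `K ≤ F`: `T.mono` (`lvX p f n` is a multiple of `lvX p f 0`). `M = q0 p * p ^ n`, `ζ = exp (2 π i/M)`: `ζ ∈ F` by `T.zeta` (`lvX p f n ∈ idl M`; `T.act` for `RingEquiv.refl ℂ` and the lattice of `NLex` gives the `ActI` needed). The field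
`ℚ(ζ + ζ⁻¹)` is a layer `IsLayer p n` (see the proof of Sj_LAY; `p = 3`: `t_ILAY`, `Z_ZLAY.lean` of MU3), so it is `Bn` (uniqueness in Sj_LAY): `Bn ≤ F`. -/
def Sz_LVF : Prop :=
  ∀ (p : ℕ) (A B : ℤ) (_ : CaseP p A B) (_ : TorX A B) (_ : NLex A B) (f : ℕ) (_ : f ≠ 0)
    (K : IntermediateField ℚ ℂ)
    (_ : ∀ y ∈ K, y ∈ RF (idl (A := A) (B := B) (lvX p f 0))) (n : ℕ)
    (Bn : IntermediateField ℚ ℂ) (_ : IsLayer p n Bn),
    ∀ y ∈ K ⊔ Bn, y ∈ RF (idl (A := A) (B := B) (lvX p f n))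

/-- (THN) the half systems and the values `θ`.

Uses `Pool.Agent.MU3B.b_HAL`, Sy_THG. PROOF. Half systems for `a` on `R.L i`: HAL (`a` odd: `a z ∈ L`, `2 z ∈ L` give `z = a z - ((a - 1)/2) (2 z) ∈ L`). THG for `L = R.L R.i0`, `z = pt R m R.i0 1 = om/m` (`nI ⊤ = 1`, `emb 1 = 1`, `emb (m : O) = m`): `emb m * z = om ∈ L`, `z ∉ L` as `m` is not a unit. `θ ≠ 0`: `Θ_a(z) = 0`
only for `a z ∈ L` (`b_TNZ`), and `a om/m = om emb x` means `a = m x`, impossible as `a` is prime to `m` and `m` is not a unit. -/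
def Sz_THN : Prop :=
  ∀ (A B : ℤ) (_ : CQ A B) (_ : TorX A B) (n : ℕ) (ι : Type) (R : Reps A B n ι) (a : ℕ)
    (_ : Odd a), ∃ H : ι → Finset ℂ, (∀ i, IsHalf (R.L i) a (H i)) ∧
      ∀ m : ℕ, m ≠ 0 → ¬ IsUnit ((m : ℕ) : OO A B) → a.Coprime m →
        ∃ θ : (RF (idl (A := A) (B := B) m) : IntermediateField (kk A B) ℂ),
          (θ : ℂ) = ThetaH (R.L R.i0) (H R.i0) (pt R m R.i0 1) ∧
          (θ : ℂ) = ThetaH (R.L R.i0) (H R.i0) (R.om R.i0 / emb ((m : ℕ) : OO A B)) ∧ θ ≠ 0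

/-- The fields of `InpX` which do not concern the character sums: everything except `i3`. -/
structure InpW (p : ℕ) (k K₀ K : IntermediateField ℚ ℂ) (B : ℕ → IntermediateField ℚ ℂ)
    [FiniteDimensional ℚ k] [∀ n, FiniteDimensional ℚ ↥(K ⊔ B n)] (hk : ∀ n, k ≤ K ⊔ B n)
    (hk₀ : ∀ n, k ≤ K₀ ⊔ B n) (S : Finset ℕ) (c c₀ : ℕ → ℂ) (n₁ : ℕ) : Prop where
  mem : ∀ n, c n ∈ K ⊔ B n
  ne : ∀ n, c n ≠ 0
  mem₀ : ∀ n, c₀ n ∈ K₀ ⊔ B n
  norm : ∀ n, letI := algC (hk n)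
    c₀ n = ∏ᶠ g : NC (hk n) (K₀ ⊔ B n), (((g : ↥(K ⊔ B n) ≃ₐ[k] ↥(K ⊔ B n)) ⟨c n, mem n⟩ :
      ↥(K ⊔ B n)) : ℂ)
  prime : ∀ ℓ ∈ S, ℓ.Prime
  su : ∀ n, n₁ ≤ n → SU S ↥(K ⊔ B n) ⟨c n, mem n⟩
  nrm : ∀ n, n₁ ≤ n →
    letI := algC (hk (n + 1))
    ∀ σ : ↥(K ⊔ B (n + 1)) ≃ₐ[k] ↥(K ⊔ B (n + 1)),
      (∀ x : ↥(K ⊔ B (n + 1)), σ x = x ↔ (x : ℂ) ∈ K ⊔ B n) →
      ∃ C ∈ K, C ≠ 0 ∧ ∏ i ∈ Finset.range p,
        (((σ ^ i) ⟨c (n + 1), mem (n + 1)⟩ : ↥(K ⊔ B (n + 1))) : ℂ) = C * c n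
  kol : ∀ n, n₁ ≤ n →
    letI := algC (hk n)
    KolInP p k ↥(K ⊔ B n) {g | ∀ x : ↥(K ⊔ B n), (x : ℂ) ∈ K → g x = x} S ⟨c n, mem n⟩

/-- the choice of `θ_n` at all levels -/
structure ThN {A B : ℤ} {ι : Type} (p f : ℕ) (R : Reps A B (p * f) ι) (H : ι → Finset ℂ)
    (θ : ∀ n : ℕ, (RF (idl (A := A) (B := B) (lvX p f n)) : IntermediateField (kk A B) ℂ)) :
    Prop where
  half : ∀ i, IsHalf (R.L i) (aX p f : ℕ) (H i)
  pt : ∀ n, (θ n : ℂ) = ThetaH (R.L R.i0) (H R.i0) (pt R (lvX p f n) R.i0 1)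
  om : ∀ n, (θ n : ℂ) =
    ThetaH (R.L R.i0) (H R.i0) (R.om R.i0 / emb ((lvX p f n : ℕ) : OO A B))
  ne : ∀ n, θ n ≠ 0

/-- (INW) the inputs from block W.

Uses LVX, LVF, Sy_MEM, Sy_TOW, Sy_SUC, Sy_I1, Sy_KOL. PROOF. `T : TorX A B`; `idl m = sp ((m : ℕ) : O)` by definition. `RF (idl m_n)` is finite, Galois, abelian over `k` (`T.fin`, `T.gal`, `T.comm`). `Sub (K ⊔ Bn n) (RF (idl m_n))`, `Sub (K₀ ⊔ Bn n) ..` (LVF, for `K` and `K₀ ≤ K`; `NLex` from `R.nl R.i0`). `mem`, `ne`, `mem₀`: MEM (`cW = cWt 1`).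
`norm`: TOW. `S` = the prime divisors of `n₀ n₀' a p f` (`n₀` from SUC for `L = R.L R.i0` — `IsNL ⊤` by `R.b0`, `R.nl R.i0` —, `n₀'` from KOL for `R`, `a = aX p f`), `n₁ = 0`. `su`: SUC with `m = m_n`. `kol`: KOL (`HasH A B (K ⊔ Bn n)`: `RF ⊤ ≤ K`) and `KolInP.mono` (`KDefsP.lean`): an automorphism which is trivial on `K` is trivial on
`RF ⊤`. `nrm`: I1 with `m = m_n`, `b = p` (`b ∣ m`, `m_(n+1) = p m_n`: rewrite the level, e.g. generalise `θ` along the equality `lvX p f (n+1) = p * lvX p f n`, and `((p * m : ℕ) : O) = (p : O) * m`), `D = K ⊔ Bn n`, `D' = K ⊔ Bn (n + 1)`, `HasH A B D`; `orderOf σ = p`: the fixed field of `σ` is `K ⊔ Bn n`, and `[K ⊔ Bn (n+1) : K ⊔ Bn n] = p` by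
`hS.b.deg` (Artin: `IntermediateField.finrank_fixedField_eq_card` for the group generated by `σ`; see also `S_GENX`, `S_GALX` of `StKX.lean`). The constant `C ∈ RF ⊤ ≤ K`. -/
def Sz_INW : Prop :=
  ∀ (p : ℕ) (A B : ℤ) (P : Ideal (OO A B)) (V : ValuationSubring ℂ) (f : ℕ)
    (_ : SetP p A B P V f) (_ : TorX A B) (ι : Type) [Finite ι] (R : Reps A B (p * f) ι)
    (H : ι → Finset ℂ)
    (θ : ∀ n : ℕ, (RF (idl (A := A) (B := B) (lvX p f n)) : IntermediateField (kk A B) ℂ))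
    (_ : ThN p f R H θ)
    (K₀ K : IntermediateField ℚ ℂ) (Bn : ℕ → IntermediateField ℚ ℂ)
    [FiniteDimensional ℚ (kk A B)] [FiniteDimensional ℚ K] [∀ n, FiniteDimensional ℚ ↥(K ⊔ Bn n)]
    (_ : SetX p (kk A B) K₀ K Bn) (_ : ∀ y ∈ K, y ∈ RF (idl (A := A) (B := B) (lvX p f 0)))
    (_ : ∀ y ∈ RF (⊤ : Ideal (OO A B)), y ∈ K)
    (hk : ∀ n, kk A B ≤ K ⊔ Bn n) (hk₀ : ∀ n, kk A B ≤ K₀ ⊔ Bn n),
    ∃ S : Finset ℕ, InpW p (kk A B) K₀ K Bn hk hk₀ S (fun n => cW (hk n) (θ n))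
      (fun n => cW (hk₀ n) (θ n)) 0

end

end Pool.Agent.MUXZ


end

section

/-!
# MUX-NS, block IN (helper36): from the results of blocks E, H to the input (I3) of block K

`PAPER_NS.md`, section 1. Every statement is a `def Sn_X : Prop`; a module proves `theorem tn_X (h : ..) ... : Sn_X`
in the file `Pool/Agent/NS/I_X.lean`, namespace `Pool.Agent.NSI`; the hypotheses are the statements named under USES
(fewer is fine). The statements are general where this costs nothing: `SetL p A B f` (`p = 2` or `3`, no condition on the decomposition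
of `p`), so they contain the statements of `Pool/Agent/MUX/StIX.lean` (`Si_X`, proved in `Pool/Agent/MUX/I_X.lean`) and can be used in the
ramified case. The modules IAF, IAG, RPR, HIT, ARF, XXF, LAY, GAM, BIJ, PTP, CHI, GEN of `StIX.lean` are used as they are.
-/

set_option autoImplicit false

namespace Pool.Agent.NSI

open _root_.MU3 _root_.Pool.Agent.MU3 _root_.Pool.Agent.MU3A _root_.Pool.Agent.MU3B _root_.Pool.Agent.RI _root_.Pool.Agent.RID
  _root_.Pool.Agent.MUX _root_.Pool.Agent.MUXK _root_.Pool.Agent.MUXI _root_.Pool.Agent.NS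
open _root_.Pool.Agent.MU3I (w3 zt)

noncomputable section

/-! ## Definitions -/

/-- the common part of `SetP`, `SetN`: no condition on the decomposition of `p` in `k` -/
structure SetL (p : ℕ) (A B : ℤ) (f : ℕ) : Prop where
  cq : CQ A B
  hp : p = 2 ∨ p = 3
  f0 : f ≠ 0
  fp : ¬ p ∣ f

lemma setL_P {p : ℕ} {A B : ℤ} {P : Ideal (OO A B)} {V : ValuationSubring ℂ} {f : ℕ}
    (h : SetP p A B P V f) : SetL p A B f :=
  ⟨h.case.toCQ, h.case.split.elim (fun h => Or.inr h.1) (fun h => Or.inl h.1), h.f0, h.fp⟩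

lemma setL_N {A B : ℤ} {V : ValuationSubring ℂ} {f : ℕ} (h : SetN A B V f) : SetL 3 A B f :=
  ⟨h.case.toCQ, Or.inr rfl, h.f0, h.fp⟩

/-- the weights `kk_i = kp_i c_i / mu_i`, times `w3 (N b_i)` if `s = -1`; `c : ι → ℂ` (`kkX` of `StIX.lean` has `c : ι → ℤ`) -/
def kkC {A B : ℤ} {n₀ : ℕ} {ι : Type} (R : Reps A B n₀ ι) (kp c : ι → ℂ) (s : ℤ) (i : ι) : ℂ :=
  kp i * c i / muX R i * (if s = 1 then 1 else (w3 (nI (R.b i)) : ℂ))

/-- the input from block E for one field `D` -/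
structure EInpN {A B : ℤ} (V : ValuationSubring ℂ) (f : ℕ) {ι : Type}
    (R : Reps A B (3 * f) ι) (u : ℂ) (n : ℕ) {D : IntermediateField ℚ ℂ} (h : kk A B ≤ D)
    (C : (letI := algC h; D ≃ₐ[kk A B] D) → ℂ) : Prop where
  ne : C (letI := algC h; 1) ≠ 0
  conj : letI := algC h
    ∀ τ : D ≃ₐ[kk A B] D, ∃ y : D, (y : ℂ) = C 1 ∧ ((τ y : D) : ℂ) = C τ
  ew : letI := algC h
    ∀ w : OO A B → ℂ, IsTei V w → ∀ g : (D ≃ₐ[kk A B] D) → ℤ,
      (∃ y ∈ D, y ^ 3 = ∏ᶠ τ : D ≃ₐ[kk A B] D, C τ ^ g τ) → ∀ τ' : D ≃ₐ[kk A B] D,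
        V.valuation ((∑ᶠ τ : D ≃ₐ[kk A B] D, (g τ : ℂ) *
          TTN R w (lvX 3 f n) (aX 3 f) h (τ * τ')) / u) ≤ V.valuation (3 : ℂ)

/-- the norm relation between the levels -/
def NrRel (p : ℕ) (k K : IntermediateField ℚ ℂ) (B : ℕ → IntermediateField ℚ ℂ)
    (hk : ∀ n, k ≤ K ⊔ B n) (c₀ : ℕ → ℂ) (mem : ∀ n, c₀ n ∈ K ⊔ B n) (n₁ : ℕ) : Prop :=
  ∀ m n : ℕ, n₁ ≤ m → m ≤ n →
    letI := algC (hk n)
    ∀ γ : ↥(K ⊔ B n) ≃ₐ[k] ↥(K ⊔ B n), (∀ x : ↥(K ⊔ B n), γ x = x ↔ (x : ℂ) ∈ K) →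
    ∃ C ∈ K, C ≠ 0 ∧ ((∏ i ∈ Finset.range (p ^ (n - m)), (γ ^ (p ^ m * i)) ⟨c₀ n, mem n⟩ :
      ↥(K ⊔ B n)) : ℂ) = C * c₀ m

/-- the statement of (I3) for the character `χ`, the operator `T^N` and one level `n` -/
def I3At (F : Type) [Field F] (p : ℕ) (k K : IntermediateField ℚ ℂ)
    (B : ℕ → IntermediateField ℚ ℂ) (hkK : k ≤ K)
    (χ : (letI := algC hkK; (↥K ≃ₐ[k] ↥K) →* Fˣ)) (N n : ℕ) (hk : k ≤ K ⊔ B n) (c : ℂ)
    (mem : c ∈ K ⊔ B n) : Prop :=
  letI := algC hk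
  letI := algC hkK
    ∀ γ : ↥(K ⊔ B n) ≃ₐ[k] ↥(K ⊔ B n), (∀ x : ↥(K ⊔ B n), γ x = x ↔ (x : ℂ) ∈ K) →
    ∀ [Fintype (NC hk (B n))] (r : NC hk (B n) → (↥K ≃ₐ[k] ↥K)),
    (∀ (δ : NC hk (B n)) (x : ↥K) (x' : ↥(K ⊔ B n)), (x' : ℂ) = x →
      (((δ : ↥(K ⊔ B n) ≃ₐ[k] ↥(K ⊔ B n)) x' : ↥(K ⊔ B n)) : ℂ) = (r δ x : ↥K)) →
    ∃ θ : F →+ ZMod p, ∀ y : ↥(K ⊔ B n), y ^ p ≠ ∏ δ : NC hk (B n),
      ((δ : ↥(K ⊔ B n) ≃ₐ[k] ↥(K ⊔ B n)) ((Tg γ)^[N] ⟨c, mem⟩)) ^
        (θ ((χ (r δ))⁻¹ : Fˣ)).val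

/-! ## Characters -/

/-- (EPS) the sign function, the odd character, the sign `s` and the type `i`.

USES Sx_ALG (and what you like of `StIX.lean`). PROOF. `lvX 3 f 0 = f * 3 * 3^0`. Let `k*` be the set of the `x ≡ 1` modulo `f`, `x ∉ (3)`. As `3 ∤ f`, every class of `O/3` contains elements `≡ 1` modulo `f` (CRT with integers `a f + b 3 = 1`), and for `x, x' ∈ k*` with
`x ≡ x'` modulo `3` one has `x ≡ x'` modulo `3 f`. So `e0` on `k*` is a character of `(O/3)^*`, the multiplicative group of a field with nine elements (`3` is prime in `O`: `CaseI.three`, `O/3 = F_3[w]`, the discriminant is not a square modulo `3`), cyclic of order 8.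
`w` is injective on it (`w x = 1` gives `v(1 - emb x) ≤ v(3) < 1`, so `1 - x ∈ (3)` by `OverI`), so every character of it is a power `w^j`, `0 ≤ j ≤ 7` (e.g. `y` a generator; `e0(y)^8 = 1`, and `w y` is a primitive 8th root of unity, so `e0 y = (w y)^j`). `w3 (nm x) = (w x)^4` for `x ∉ (3)`: `x̄ ≡ x^3` modulo `3`
(Frobenius: `w̄ = B - w`; or check the nine classes), so `nm x = x x̄ ≡ x^4` modulo `3`, both sides are `± 1` and congruent modulo `3` (`IsTei.cong`), and `v(2) = 1`. `s = 1` if `j + 1 ∈ {4, .., 7}`, `i = j + 1`; otherwise `s = -1`, `i = j + 5` (`j = 0, 1, 2`) or `i = 4` (`j = 7`).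
`e x = e0 x * w x * (if s = 1 then 1 else w3 (nm x))`: `e (-1) = w (-1) = -1` (`w (-1)^2 = 1`, `w (-1) ≡ -1` modulo 3). `supp`: `w x ≠ 0` for `x ∉ (3)` (`pow`), and `x` is prime to `3 f` iff ...; the support of `e0` is given. Last formula: `w3 (nm x)^2 = 1`. -/
def Sn_EPS : Prop :=
  ∀ (A B : ℤ) (V : ValuationSubring ℂ) (f : ℕ) (_ : SetN A B V f) (w : OO A B → ℂ)
    (_ : IsTei V w) (e0 : OO A B → ℂ) (r : ℕ)
    (_ : e0 1 = 1) (_ : e0 (-1) = 1) (_ : ∀ x y, e0 (x * y) = e0 x * e0 y)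
    (_ : ∀ x y, x - y ∈ idl (A := A) (B := B) (lvX 3 f 0) → e0 x = e0 y)
    (_ : ∀ x, e0 x ≠ 0 ↔ IsCoprime x ((lvX 3 f 0 : ℕ) : OO A B))
    (_ : ∀ x, e0 x ≠ 0 → e0 x ^ r = 1),
    ∃ (e : OO A B → ℂ) (s : ℤ) (i : ℕ), IsEI (idl (A := A) (B := B) (3 * f)) e ∧
      (s = 1 ∨ s = -1) ∧ 4 ≤ i ∧ i ≤ 7 ∧
      (∀ x, x - 1 ∈ idl (A := A) (B := B) f → x ∉ idl (A := A) (B := B) 3 → e x = w x ^ i) ∧
      (∀ x, e x ≠ 0 → e x ^ (8 * r) = 1) ∧
      ∀ x, IsCoprime x ((lvX 3 f 0 : ℕ) : OO A B) →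
        e0 x * w x = e x * (if s = 1 then 1 else (w3 (nm x) : ℂ))

/-- (TEI) existence of the Teichmueller character.

PROOF. `O/3` is a field with nine elements (see EPS), `(O/3)^*` is cyclic of order 8, generated by the class of `y`. The polynomial `X^8 - 1` has in `ℂ` the eight roots `ζ^j`, `ζ = exp(2 π i/8)`; `∏_j (emb y - ζ^j) = emb y ^ 8 - 1 = emb (y^8 - 1) ∈ 3 emb O`, so `v(emb y - ζ^j) < 1` for some `j`. Not enough: we need `v ≤ v(3)`: the differences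
`ζ^j - ζ^l`, `j ≠ l`, are units at `V` (their product, `∏_(j ≠ l) (1 - ζ^..)`, divides a power of 2, and `v(2) = 1` since `v(3) < 1`), so exactly one factor is `< 1`, the others are units (`v = 1`), and `v(emb y - ζ^j) = v(emb y^8 - 1) ≤ v(3)`. Put `ω = ζ^j` and `w x = ω^k` if `x ≡ y^k` modulo `3`, `0` if `x ∈ (3)`. `ω^8 = 1`: well defined,
multiplicative. `cong`: `emb x - ω^k = emb(x - y^k) + (emb y ^k - ω^k)`, and `0` for `x ∈ (3)`: `v(emb x) ≤ v(3)` as `x = 3 x'`, `emb x' ∈ V` (`emb O ⊆ V`: `OverI` gives it: if `emb x' ∉ V` then `emb x'` is ... use that `emb x'` is integral over `ℤ`, or `x'` satisfies `x'^2 = t x' - n`). -/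
def Sn_TEI : Prop :=
  ∀ (A B : ℤ) (V : ValuationSubring ℂ), CaseI A B → OverI V (idl (A := A) (B := B) 3) →
    ∃ w : OO A B → ℂ, IsTei V w

/-- (FOU) Fourier transform on `Δ`, for any set `Q` of complex numbers with the properties used.

PROOF. The proof of `Si_FOU` (`StIX.lean`, model `Pool/Agent/MU3/I_IFOU.lean`), which uses only these properties of `HfX p V` (integers are in `V`). -/
def Sn_FOU : Prop :=
  ∀ (V : ValuationSubring ℂ) (Q : ℂ → Prop) (_ : Q 0) (_ : ∀ x y, Q x → Q y → Q (x + y))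
    (_ : ∀ v x, v ∈ V → Q x → Q (v * x)) (_ : ∀ v x, v ∉ V.nonunits → Q (v * x) → Q x)
    (G : Type) [Group G] [Finite G] (_ : ∀ σ τ : G, σ * τ = τ * σ)
    (γ : G) (Δ : Subgroup G) [Fintype Δ] (T : G → ℂ) (b : Δ → ℤ) (N : ℕ) (c : ℕ → ℤ)
    (X : Δ →* ℂˣ) (_ : (∑ δ : Δ, (b δ : ℂ) * (X δ : ℂ)) ∉ V.nonunits)
    (_ : ∀ τ' : G, Q (∑ δ : Δ, ∑ j ∈ Finset.range (N + 1),
      (b δ : ℂ) * (c j : ℂ) * T ((δ : G) * γ ^ j * τ'))),
    Q (∑ j ∈ Finset.range (N + 1), (c j : ℂ) *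
      ∑ δ : Δ, (((X δ)⁻¹ : ℂˣ) : ℂ) * T (γ ^ j * (δ : G)))

/-! ## Statements of `StIX.lean` without a condition on `p` -/

/-- (E0) the characters `e0` and `kp` attached to a character of `Gal(K/k)`, `K ≤ RF (f q0)`.

USES Si_ARF, Sx_NIM. `Pool/Agent/MUX/I_E0.lean` with `SetL` (the same proof; `Si_E0` follows with `setL_P`). -/
def Sn_E0 : Prop :=
  ∀ (p : ℕ) (A B : ℤ) (f : ℕ),
    SetL p A B f → TorX A B → ∀ (ι : Type) (R : Reps A B (p * f) ι)
    (K : IntermediateField ℚ ℂ) (hK : kk A B ≤ K),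
    (∀ y ∈ K, y ∈ RF (idl (A := A) (B := B) (lvX p f 0))) → letI := algC hK
    ∀ (_ : IsGalois (kk A B) K) (X : (K ≃ₐ[kk A B] K) →* ℂˣ) (r : ℕ) (_ : ∀ τ, X τ ^ r = 1),
    ∃ (e0 : OO A B → ℂ) (kp : ι → ℂ), e0 1 = 1 ∧ e0 (-1) = 1 ∧ (∀ x y, e0 (x * y) = e0 x * e0 y) ∧
      (∀ x y, x - y ∈ idl (A := A) (B := B) (lvX p f 0) → e0 x = e0 y) ∧
      (∀ x, e0 x ≠ 0 ↔ IsCoprime x ((lvX p f 0 : ℕ) : OO A B)) ∧
      (∀ x, e0 x ≠ 0 → e0 x ^ r = 1) ∧ (∀ i, kp i ^ r = 1) ∧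
      ∀ (τ : K ≃ₐ[kk A B] K) (i : ι) (x : OO A B), IsCoprime x ((lvX p f 0 : ℕ) : OO A B) →
        AR hK (idl (lvX p f 0)) τ (sp x * cjI (R.b i)) → (((X τ)⁻¹ : ℂˣ) : ℂ) = kp i * e0 x

/-- (SUB) `K B_n ≤ RF (lvX p f n)`.

USES Si_LAY, Si_IAF. `Pool/Agent/MUX/I_SUB.lean` with `SetL`. -/
def Sn_SUB : Prop :=
  ∀ (p : ℕ) (A B : ℤ) (f : ℕ), SetL p A B f → TorX A B →
    (∃ (b : Ideal (OO A B)) (L : PeriodPair) (om : ℂ), IsNL b L om) →
    ∀ (K : IntermediateField ℚ ℂ), (∀ y ∈ K, y ∈ RF (idl (A := A) (B := B) (lvX p f 0))) →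
    ∀ (n : ℕ) (Bn : IntermediateField ℚ ℂ), IsLayer p n Bn →
    ∀ y ∈ K ⊔ Bn, y ∈ RF (idl (A := A) (B := B) (lvX p f n))

/-- (XMX) the sets `XX` satisfy `XM`.

USES Si_XXF, Si_ARF, Si_LAY, Sx_ALG, Sx_NIM. The proof of `Si_XMX` with `SetL`. -/
def Sn_XMX : Prop :=
  ∀ (p : ℕ) (A B : ℤ) (f : ℕ),
    SetL p A B f → TorX A B → ∀ (ι : Type) (R : Reps A B (p * f) ι)
    (K Bn : IntermediateField ℚ ℂ) (n : ℕ) (h : kk A B ≤ K ⊔ Bn), IsLayer p n Bn →
    (∀ y ∈ K ⊔ Bn, y ∈ RF (idl (A := A) (B := B) (lvX p f n))) → letI := algC h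
    ∀ (_ : IsGalois (kk A B) ↥(K ⊔ Bn)) (γ : ↥(K ⊔ Bn) ≃ₐ[kk A B] ↥(K ⊔ Bn)),
    (∀ x : ↥(K ⊔ Bn), (x : ℂ) = zt (q0 p * p ^ n) + (zt (q0 p * p ^ n))⁻¹ →
        ((γ x : ↥(K ⊔ Bn)) : ℂ) =
          zt (q0 p * p ^ n) ^ (1 + q0 p) + (zt (q0 p * p ^ n) ^ (1 + q0 p))⁻¹) →
    XM R p f n γ (NC h Bn) (fun τ => XX R (lvX p f n) h τ)

/-- (TSH) the sums of the logarithmic derivatives; `e` modulo any ideal `g ∣ f q0`.

USES Si_PTP, Sx_ALG. `Pool/Agent/MUX/I_TSH.lean` with `SetL` and `idl f * cjI P` replaced by `g`; there the only facts used are `idl (lvX p f n) ≤ g`, which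
follows from the hypothesis on `g`, and `aX p f - 1 = 2 q0 f ∈ g`, the same. -/
def Sn_TSH : Prop :=
  ∀ (p : ℕ) (A B : ℤ) (f : ℕ),
    SetL p A B f → ∀ g : Ideal (OO A B), idl (A := A) (B := B) (lvX p f 0) ≤ g →
    ∀ (ι : Type) (R : Reps A B (p * f) ι) (n : ℕ) (e : OO A B → ℂ),
    IsEI g e → ∀ (i : ι) (t : ℤ),
    muX R i * sumMod ((lvX p f n : ℕ) : OO A B) (fun x =>
      if ((q0 p * p ^ n : ℕ) : ℤ) ∣ nm x * nI (R.b i) - t then
        e x * dlX (R.L i) (aX p f) (pt R (lvX p f n) i x) else 0) =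
      (aX p f : ℂ) * SnX R (lvX p f n) (q0 p * p ^ n) e i ((aX p f : ℤ) ^ 2 * t) -
        (aX p f : ℂ) ^ 2 * SnX R (lvX p f n) (q0 p * p ^ n) e i t

/-- (TH) the sums `That_j`; `e` modulo any ideal `g ∣ f q0`, weights `w`, `c` with complex values.

USES TSH, Si_PTP, Sx_ALG, Sx_NIM. The proof of `Si_TH` (`StIX.lean`); `Si_TH` is the case `g = idl f * cjI P`. In that proof only the following is used on `w`: it is periodic modulo the level; on `e`: `g ≤ idl f` (so `e x ≠ 0` implies that `x` is prime to `f`). -/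
def Sn_TH : Prop :=
  ∀ (p : ℕ) (A B : ℤ) (f : ℕ),
    SetL p A B f → ∀ g : Ideal (OO A B), idl (A := A) (B := B) (lvX p f 0) ≤ g → g ≤ idl f →
    ∀ (ι : Type) [Fintype ι] (R : Reps A B (p * f) ι) (n : ℕ) (G : Type)
    [Group G] [Finite G] (γ : G) (Δ : Subgroup G) [Fintype Δ]
    (X : G → Set (ι × (OO A B ⧸ idl (A := A) (B := B) (lvX p f n)))), XM R p f n γ Δ X →
    ∀ (χ : Δ →* ℂˣ) (e0 : OO A B → ℂ) (kp c : ι → ℂ) (w : OO A B → ℂ) (e : OO A B → ℂ)
    (s : ℤ),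
    (∀ x y, x - y ∈ idl (A := A) (B := B) (lvX p f n) → e0 x = e0 y) →
    (∀ x y, x - y ∈ idl (A := A) (B := B) (lvX p f n) → w x = w y) →
    IsEI g e → s = 1 ∨ s = -1 → (p = 2 → s = 1) →
    (∀ x, IsCoprime x ((lvX p f 0 : ℕ) : OO A B) →
        e0 x * w x = e x * (if s = 1 then 1 else (w3 (nm x) : ℂ))) →
    (∀ (δ : Δ) (j : ℕ), ∀ q ∈ X (γ ^ j * (δ : G)),
      (((χ δ)⁻¹ : ℂˣ) : ℂ) = kp q.1 * e0 (Quotient.out q.2)) →
    ∀ j : ℕ,
    ∑ δ : Δ, (((χ δ)⁻¹ : ℂˣ) : ℂ) * ∑ᶠ q ∈ X (γ ^ j * (δ : G)), w (Quotient.out q.2) *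
        c q.1 * dlX (R.L q.1) (aX p f) (pt R (lvX p f n) q.1 (Quotient.out q.2)) =
      STX R (lvX p f n) (q0 p * p ^ n) (aX p f) e (kkC R kp c s) ((1 + (q0 p : ℤ)) ^ j) +
        s * STX R (lvX p f n) (q0 p * p ^ n) (aX p f) e (kkC R kp c s) (-(1 + (q0 p : ℤ)) ^ j)

/-! ## One level is enough -/

/-- (NR1) the norm relation for `c₀`, one step, from `InpW` (`Pool/Agent/MUX/StZX.lean`: `InpX` without `i3`).

`Pool/Agent/MUX/K_NR1.lean` (helper73), the same proof. -/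
def Sn_NR1 : Prop := ∀ (p : ℕ) [Fact p.Prime]
    (k K₀ K : IntermediateField ℚ ℂ) (B : ℕ → IntermediateField ℚ ℂ)
    [FiniteDimensional ℚ k] [FiniteDimensional ℚ K] [∀ n, FiniteDimensional ℚ ↥(K ⊔ B n)]
    [∀ n, FiniteDimensional ℚ ↥(K₀ ⊔ B n)], SetX p k K₀ K B →
    ∀ (hk : ∀ n, k ≤ K ⊔ B n) (hk₀ : ∀ n, k ≤ K₀ ⊔ B n) (S : Finset ℕ) (c c₀ : ℕ → ℂ) (n₁ : ℕ)
    (hI : Pool.Agent.MUXZ.InpW p k K₀ K B hk hk₀ S c c₀ n₁), ∀ n, n₁ ≤ n →
    letI := algC (hk₀ (n + 1))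
    ∀ σ : ↥(K₀ ⊔ B (n + 1)) ≃ₐ[k] ↥(K₀ ⊔ B (n + 1)),
      (∀ x : ↥(K₀ ⊔ B (n + 1)), σ x = x ↔ (x : ℂ) ∈ K₀ ⊔ B n) →
      ∃ C ∈ K₀, C ≠ 0 ∧ ∏ i ∈ Finset.range p,
        (((σ ^ i) ⟨c₀ (n + 1), hI.mem₀ (n + 1)⟩ : ↥(K₀ ⊔ B (n + 1))) : ℂ) = C * c₀ n

/-- (NRX) the norm relation from `K₀_n` to `K₀_m`.

USES NR1, S_RSX. `Pool/Agent/MUX/K_NRX.lean` (helper61), the same proof. -/
def Sn_NRX : Prop := ∀ (p : ℕ) [Fact p.Prime]
    (k K₀ K : IntermediateField ℚ ℂ) (B : ℕ → IntermediateField ℚ ℂ)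
    [FiniteDimensional ℚ k] [FiniteDimensional ℚ K] [∀ n, FiniteDimensional ℚ ↥(K ⊔ B n)]
    [∀ n, FiniteDimensional ℚ ↥(K₀ ⊔ B n)], SetX p k K₀ K B →
    ∀ (hk : ∀ n, k ≤ K ⊔ B n) (hk₀ : ∀ n, k ≤ K₀ ⊔ B n) (S : Finset ℕ) (c c₀ : ℕ → ℂ) (n₁ : ℕ)
    (hI : Pool.Agent.MUXZ.InpW p k K₀ K B hk hk₀ S c c₀ n₁),
    NrRel p k K₀ B hk₀ c₀ hI.mem₀ n₁

/-- (LEM1) one level is enough.

USES S_GALX, S_RSX. Module of helper36. -/
def Sn_LEM1 : Prop := ∀ (F : Type) [Field F] (p : ℕ) [Fact p.Prime]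
    (k K : IntermediateField ℚ ℂ) (B : ℕ → IntermediateField ℚ ℂ)
    [FiniteDimensional ℚ K] [∀ n, FiniteDimensional ℚ ↥(K ⊔ B n)] (hB : BasX p k K B)
    (_ : ¬ p ∣ Module.finrank k (IntermediateField.extendScalars hB.hk))
    (_ : ∃ ω ∈ K, IsPrimitiveRoot ω p)
    (hk : ∀ n, k ≤ K ⊔ B n) (hkK : k ≤ K) (c₀ : ℕ → ℂ) (mem : ∀ n, c₀ n ∈ K ⊔ B n)
    (_ : ∀ n, c₀ n ≠ 0) (n₁ : ℕ) (_ : NrRel p k K B hk c₀ mem n₁)
    (χ : (letI := algC hkK; (↥K ≃ₐ[k] ↥K) →* Fˣ)),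
    (∀ n₀ : ℕ, ∃ n, n₀ ≤ n ∧ I3At F p k K B hkK χ 1 n (hk n) (c₀ n) (mem n)) →
    ∀ N n₀ : ℕ, ∃ n, n₀ ≤ n ∧ I3At F p k K B hkK χ N n (hk n) (c₀ n) (mem n)

/-! ## The result -/

/-- (I3) one level, `T`. Module of helper36.

USES Sj_RES, Si_CHI, FOU, St_ITG, EPS, TEI, E0, Si_ARF, Si_XXF, SUB, Si_GAM, XMX, Si_BIJ, TH, Si_GEN, `Sn_HFIN`, S_GALX. -/
def Sn_I31 : Prop :=
  ∀ (A B : ℤ) (V : ValuationSubring ℂ) (f : ℕ), SetN A B V f → TorX A B →
    ∀ (ι : Type) [Fintype ι] (R : Reps A B (3 * f) ι) (u el lam : ℂ),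
    GoodN V (R.L R.i0) u el lam →
    ∀ (K : IntermediateField ℚ ℂ) (Bn : ℕ → IntermediateField ℚ ℂ)
    [FiniteDimensional ℚ K] [∀ n, FiniteDimensional ℚ ↥(K ⊔ Bn n)]
    (hB : BasX 3 (kk A B) K Bn)
    (_ : ¬ 3 ∣ Module.finrank (kk A B) (IntermediateField.extendScalars hB.hk))
    (_ : ∀ y ∈ K, y ∈ RF (idl (A := A) (B := B) (lvX 3 f 0)))
    (hk : ∀ n, kk A B ≤ K ⊔ Bn n) (hkK : kk A B ≤ K)
    (C : ∀ n, (letI := algC (hk n); ↥(K ⊔ Bn n) ≃ₐ[kk A B] ↥(K ⊔ Bn n)) → ℂ)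
    (_ : ∀ n, 1 ≤ n → EInpN V f R u n (hk n) (C n)) (c₀ : ℕ → ℂ)
    (mem : ∀ n, c₀ n ∈ K ⊔ Bn n) (_ : ∀ n, 1 ≤ n → c₀ n = C n (letI := algC (hk n); 1))
    (χ : (letI := algC hkK; (↥K ≃ₐ[kk A B] ↥K) →* (IsLocalRing.ResidueField V)ˣ)) (n₀ : ℕ),
    ∃ n, n₀ ≤ n ∧ I3At (IsLocalRing.ResidueField V) 3 (kk A B) K Bn hkK χ 1 n (hk n) (c₀ n) (mem n)

/-- THE RESULT of block IN: the inputs of block K. Module of helper36.

USES I31, LEM1, NRX. -/
def Sn_INP : Prop :=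
  ∀ (A B : ℤ) (V : ValuationSubring ℂ) (f : ℕ), SetN A B V f → TorX A B →
    ∀ (ι : Type) [Fintype ι] (R : Reps A B (3 * f) ι) (u el lam : ℂ),
    GoodN V (R.L R.i0) u el lam →
    ∀ (K₀ K : IntermediateField ℚ ℂ) (Bn : ℕ → IntermediateField ℚ ℂ)
    [FiniteDimensional ℚ (kk A B)] [FiniteDimensional ℚ K] [∀ n, FiniteDimensional ℚ ↥(K ⊔ Bn n)]
    (_ : SetX 3 (kk A B) K₀ K Bn)
    (_ : ∀ y ∈ K₀, y ∈ RF (idl (A := A) (B := B) (lvX 3 f 0)))
    (hk : ∀ n, kk A B ≤ K ⊔ Bn n) (hk₀ : ∀ n, kk A B ≤ K₀ ⊔ Bn n) (hkK : kk A B ≤ K₀)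
    (S : Finset ℕ) (c c₀ : ℕ → ℂ) (n₁ : ℕ)
    (_ : Pool.Agent.MUXZ.InpW 3 (kk A B) K₀ K Bn hk hk₀ S c c₀ n₁)
    (C : ∀ n, (letI := algC (hk₀ n); ↥(K₀ ⊔ Bn n) ≃ₐ[kk A B] ↥(K₀ ⊔ Bn n)) → ℂ)
    (_ : ∀ n, 1 ≤ n → EInpN V f R u n (hk₀ n) (C n))
    (_ : ∀ n, 1 ≤ n → c₀ n = C n (letI := algC (hk₀ n); 1)),
    InpX (IsLocalRing.ResidueField V) 3 (kk A B) K₀ K Bn hk hk₀ hkK S c c₀ n₁

end

end Pool.Agent.NSI


end

section

/-!
# MUX, block H, bridge: the projector with integral coefficients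
-/

set_option autoImplicit false

namespace Pool.Agent.MUXHY

open _root_.MU3 _root_.Pool.Agent.MU3A _root_.Pool.Agent.MU3B _root_.Pool.Agent.MU3F _root_.Pool.Agent.MUX _root_.Pool.Agent.MUXH
  _root_.Pool.Agent.MuSym OnePoint
open scoped ComplexConjugate

namespace Prx

lemma ex_pow (q : ℕ) (hq : q ≠ 0) (k : ℤ) : ex ((k : ℚ) / q) ^ q = 1 := by
  unfold ex
  rw [← Complex.exp_nat_mul, Complex.exp_eq_one_iff]
  refine ⟨k, ?_⟩
  have h : (q : ℂ) ≠ 0 := Nat.cast_ne_zero.2 hq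
  push_cast
  field_simp

lemma val_le (V : ValuationSubring ℂ)
    (hr : ∀ (r : ℕ) (z : ℂ), r ≠ 0 → z ^ r = 1 → V.valuation z = 1) (q : ℕ) (hq : q ≠ 0)
    (hv : V.valuation (q : ℂ) = 1) (φ : ℤ → ℂ) (hφ : ∀ n, φ n = 0 ∨ φ n = 1) (t : ℕ) :
    V.valuation ((1 / q) * ∑ n ∈ Finset.range q, φ n * ex (-(t * n) / q)) ≤ 1 := by
  have h1 : V.valuation (1 / (q : ℂ)) = 1 := by rw [map_div₀, map_one, hv, div_one]
  rw [map_mul, h1, one_mul]
  refine Valuation.map_sum_le _ fun n _ => ?_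
  rw [map_mul]
  have h2 : V.valuation (ex (-((t : ℚ) * n) / q)) = 1 := by
    refine hr q _ hq ?_
    have h3 : (-((t : ℚ) * n) / q) = ((-((t : ℤ) * n) : ℤ) : ℚ) / q := by push_cast; ring
    rw [h3]
    exact ex_pow q hq _
  rw [h2, mul_one]
  rcases hφ n with h | h
  · rw [h, map_zero]; exact zero_le
  · rw [h, map_one]

lemma sgn_PP {A B : ℤ} {n : ℕ} {ι : Type} [Fintype ι] (R : Reps A B n ι) (P : Ideal (OO A B))
    (e : OO A B → ℂ) (kk : ι → ℂ) (s : ℂ) (x y : OnePoint ℚ) :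
    sgnPart s (PP R P e kk 0) x y =
      (∑ c, kk c / e ((nI (R.b c) : ℕ) : OO A B) * sgnPart s (PhiI (R.b c) e) x y) /
        R.om R.i0 := by
  unfold sgnPart PP
  simp only [pow_zero, mul_one]
  rw [← mul_div_assoc, ← add_div, Finset.mul_sum, ← Finset.sum_add_distrib]
  congr 1
  refine Finset.sum_congr rfl fun c _ => ?_
  ring

end Prx

theorem ty_PRX (h1 : Sy_VAL) (h2 : Sy_IDE) (h3 : MUXF.Sx_PHX) (h4 : MUXF.Sx_PRJ) : Sy_PRX := by
  intro p A B P V f hS ι _ R e he kk s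
  obtain ⟨-, -, -, -, -, -, hr, -, hvD, hD, -⟩ := h1 p A B P V f hS
  obtain ⟨-, -, -, -, hg, -, -, hgD, -, -⟩ := h2 p A B P V f hS
  obtain ⟨φ, hφ, hper, hφ2⟩ := h3 A B (toCQ hS.case.toCQ)
  have hqD : (((absD A B).toNat : ℕ) : ℤ) = absD A B := Int.toNat_of_nonneg hD.le
  have hq : (absD A B).toNat ≠ 0 := by omega
  have hv : V.valuation (((absD A B).toNat : ℕ) : ℂ) = 1 := by
    have h5 : (((absD A B).toNat : ℕ) : ℂ) = ((absD A B : ℤ) : ℂ) := by
      rw [← Int.cast_natCast (R := ℂ) (absD A B).toNat, hqD]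
    rw [h5]; exact hvD
  refine ⟨(absD A B).toNat, fun t => (1 / ((absD A B).toNat : ℂ)) *
    ∑ n ∈ Finset.range (absD A B).toNat, φ n * ex (-(t * n) / (absD A B).toNat), hq,
    fun t => Prx.val_le V hr _ hq hv φ hφ t, fun x y => ?_⟩
  have key : ∀ c, ∑ t ∈ Finset.range (absD A B).toNat, ((1 / ((absD A B).toNat : ℂ)) *
      ∑ n ∈ Finset.range (absD A B).toNat, φ n * ex (-(t * n) / (absD A B).toNat)) *
      sgnPart s (PhiI (R.b c) e) (mob (absD A B).toNat t 0 (absD A B).toNat x)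
        (mob (absD A B).toNat t 0 (absD A B).toNat y) = PhiI (R.b c) e x y := by
    intro c
    exact h4 A B (toCQ hS.case.toCQ) (R.b c) _ e (R.nl c).b_ne hg (toEI he) _ φ hq
      (fun n => by rw [hqD]; exact hper n)
      (hφ2 (R.b c) _ e (R.nl c).b_ne (toEI he) hgD) s x y
  have e1 : PP R P e kk 0 x y = (∑ c, kk c / e ((nI (R.b c) : ℕ) : OO A B) *
      PhiI (R.b c) e x y) / R.om R.i0 := by
    unfold PP
    simp only [pow_zero, mul_one]
  rw [e1]
  simp only [Prx.sgn_PP]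
  simp only [← mul_div_assoc]
  rw [← Finset.sum_div]
  congr 1
  simp only [Finset.mul_sum (s := (Finset.univ : Finset ι))]
  rw [Finset.sum_comm]
  refine Finset.sum_congr rfl fun c _ => ?_
  rw [← key c, Finset.mul_sum]
  refine Finset.sum_congr rfl fun t _ => ?_
  ring

end Pool.Agent.MUXHY


end

section

/-!
# MUX, block IX: module EPS3, the sign function, the odd character and the sign `s` for `p = 3`
-/

set_option autoImplicit false

namespace Pool.Agent.MUXI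

open _root_.MU3 _root_.Pool.Agent.MU3 _root_.Pool.Agent.MU3A _root_.Pool.Agent.MU3B _root_.Pool.Agent.RI _root_.Pool.Agent.RID
  _root_.Pool.Agent.MUX _root_.Pool.Agent.MUXE _root_.Pool.Agent.MUXK
open _root_.Pool.Agent.MU3I (w3 zt)

noncomputable section

namespace EPS3

variable {A B : ℤ}

/-- `O / Q` has the classes `0, 1, -1` -/
structure QI (Q : Ideal (OO A B)) : Prop where
  rep : ∀ x : OO A B, ∃ n : ℤ, x - n ∈ Q
  int : ∀ n : ℤ, (n : OO A B) ∈ Q ↔ (3 : ℤ) ∣ n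

lemma w3_mul (a b : ℤ) : w3 (a * b) = w3 a * w3 b := by
  have ha : a % 3 = 0 ∨ a % 3 = 1 ∨ a % 3 = 2 := by omega
  have hb : b % 3 = 0 ∨ b % 3 = 1 ∨ b % 3 = 2 := by omega
  unfold w3
  rcases ha with ha | ha | ha <;> rcases hb with hb | hb | hb <;>
    simp [Int.mul_emod, ha, hb]

lemma w3_ne (a : ℤ) : w3 a ≠ 0 ↔ ¬ (3 : ℤ) ∣ a := by
  have ha : a % 3 = 0 ∨ a % 3 = 1 ∨ a % 3 = 2 := by omega
  unfold w3
  rcases ha with ha | ha | ha
  · simp [ha]
    omega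
  · simp [ha]
    omega
  · simp [ha]
    omega

lemma w3_sq {a : ℤ} (h : ¬ (3 : ℤ) ∣ a) : w3 a ^ 2 = 1 := by
  have ha : a % 3 = 1 ∨ a % 3 = 2 := by omega
  unfold w3
  rcases ha with ha | ha <;> simp [ha]

lemma w3_neg (a : ℤ) : w3 (-a) = -w3 a := by
  have h : w3 (-1) = -1 := by decide
  rw [← neg_one_mul, w3_mul, h, neg_one_mul]

section qi

variable {Q : Ideal (OO A B)}

lemma mem_iff (hq : QI Q) {x : OO A B} {n : ℤ} (h : x - n ∈ Q) : x ∈ Q ↔ (3 : ℤ) ∣ n := by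
  rw [← hq.int]
  constructor
  · intro h'
    have := Q.sub_mem h' h
    rwa [sub_sub_cancel] at this
  · intro h'
    have := Q.add_mem h h'
    rwa [sub_add_cancel] at this

lemma wP_eq (hq : QI Q) {x : OO A B} {n : ℤ} (h : x - n ∈ Q) : wP Q x = w3 n := by
  have h0 : x ∈ Q ↔ (3 : ℤ) ∣ n := mem_iff hq h
  have h1 : x - 1 ∈ Q ↔ (3 : ℤ) ∣ n - 1 := by
    apply mem_iff hq
    have e : x - 1 - ((n - 1 : ℤ) : OO A B) = x - n := by
      push_cast
      ring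
    rwa [e]
  unfold wP w3
  by_cases c0 : x ∈ Q
  · have := h0.1 c0
    have r1 : ¬ n % 3 = 1 := by omega
    have r2 : ¬ n % 3 = 2 := by omega
    rw [if_pos c0, if_neg r1, if_neg r2]
  · have c0' : ¬ (3 : ℤ) ∣ n := fun h => c0 (h0.2 h)
    rw [if_neg c0]
    by_cases c1 : x - 1 ∈ Q
    · have := h1.1 c1
      have r1 : n % 3 = 1 := by omega
      rw [if_pos c1, if_pos r1]
    · have c1' : ¬ (3 : ℤ) ∣ n - 1 := fun h => c1 (h1.2 h)
      have r1 : ¬ n % 3 = 1 := by omega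
      have r2 : n % 3 = 2 := by omega
      rw [if_neg c1, if_neg r1, if_pos r2]

lemma wP_mul (hq : QI Q) (x y : OO A B) : wP Q (x * y) = wP Q x * wP Q y := by
  obtain ⟨n, hn⟩ := hq.rep x
  obtain ⟨m, hm⟩ := hq.rep y
  have h : x * y - ((n * m : ℤ) : OO A B) ∈ Q := by
    have e : x * y - ((n * m : ℤ) : OO A B) = x * (y - m) + m * (x - n) := by
      push_cast
      ring
    rw [e]
    exact Q.add_mem (Q.mul_mem_left _ hm) (Q.mul_mem_left _ hn)
  rw [wP_eq hq h, wP_eq hq hn, wP_eq hq hm, w3_mul]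

lemma wP_per (hq : QI Q) {x y : OO A B} (h : x - y ∈ Q) : wP Q x = wP Q y := by
  obtain ⟨m, hm⟩ := hq.rep y
  have h' : x - m ∈ Q := by
    have := Q.add_mem h hm
    have e : x - y + (y - m) = x - m := by ring
    rwa [e] at this
  rw [wP_eq hq h', wP_eq hq hm]

lemma wP_neg (hq : QI Q) (x : OO A B) : wP Q (-x) = -wP Q x := by
  obtain ⟨n, hn⟩ := hq.rep x
  have h : -x - ((-n : ℤ) : OO A B) ∈ Q := by
    have e : -x - ((-n : ℤ) : OO A B) = -(x - n) := by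
      push_cast
      ring
    rw [e]
    exact Q.neg_mem hn
  rw [wP_eq hq h, wP_eq hq hn, w3_neg]

lemma wP_ne (hq : QI Q) (x : OO A B) : wP Q x ≠ 0 ↔ x ∉ Q := by
  obtain ⟨n, hn⟩ := hq.rep x
  rw [wP_eq hq hn, w3_ne, mem_iff hq hn]

lemma wP_sq (hq : QI Q) {x : OO A B} (h : x ∉ Q) : wP Q x ^ 2 = 1 := by
  obtain ⟨n, hn⟩ := hq.rep x
  rw [mem_iff hq hn] at h
  rw [wP_eq hq hn, w3_sq h]

lemma cases (hq : QI Q) {x : OO A B} (h : x ∉ Q) :
    (x - 1 ∈ Q ∧ wP Q x = 1) ∨ (x + 1 ∈ Q ∧ wP Q x = -1) := by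
  by_cases c1 : x - 1 ∈ Q
  · left
    refine ⟨c1, ?_⟩
    unfold wP
    rw [if_neg h, if_pos c1]
  · right
    refine ⟨?_, ?_⟩
    · obtain ⟨n, hn⟩ := hq.rep x
      have c1' : ¬ (3 : ℤ) ∣ n - 1 := by
        intro h3
        apply c1
        have := Q.add_mem hn ((hq.int _).2 h3)
        have e : x - n + ((n - 1 : ℤ) : OO A B) = x - 1 := by
          push_cast
          ring
        rwa [e] at this
      rw [mem_iff hq hn] at h
      have h3 : (3 : ℤ) ∣ n + 1 := by omega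
      have := Q.add_mem hn ((hq.int _).2 h3)
      have e : x - n + ((n + 1 : ℤ) : OO A B) = x + 1 := by
        push_cast
        ring
      rwa [e] at this
    · unfold wP
      rw [if_neg h, if_neg c1]

end qi

lemma mem_cj {P : Ideal (OO A B)} {x : OO A B} : x ∈ cjI P ↔ star x ∈ P := Iff.rfl

lemma qi_cj {P : Ideal (OO A B)} (hq : QI P) : QI (cjI P) := by
  refine ⟨fun x => ?_, fun n => ?_⟩
  · obtain ⟨n, hn⟩ := hq.rep (star x)
    refine ⟨n, ?_⟩
    rw [mem_cj, star_sub, star_intCast]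
    exact hn
  · rw [mem_cj, star_intCast]
    exact hq.int n

lemma w3_nm {P : Ideal (OO A B)} (hp : QI P) (x : OO A B)
    (hx : x * star x = ((nm x : ℤ) : OO A B)) : w3 (nm x) = wP P x * wP (cjI P) x := by
  obtain ⟨n, hn⟩ := hp.rep x
  obtain ⟨m, hm⟩ := (qi_cj hp).rep x
  rw [wP_eq hp hn, wP_eq (qi_cj hp) hm, ← w3_mul]
  have h1 : star x - m ∈ P := by
    rw [mem_cj, star_sub, star_intCast] at hm
    exact hm
  have h2 : ((nm x : ℤ) : OO A B) - ((n * m : ℤ) : OO A B) ∈ P := by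
    rw [← hx]
    have e : x * star x - ((n * m : ℤ) : OO A B) = star x * (x - n) + n * (star x - m) := by
      push_cast
      ring
    rw [e]
    exact P.add_mem (P.mul_mem_left _ hn) (P.mul_mem_left _ h1)
  have h3 : ((nm x : ℤ) : OO A B) - ((nm x : ℤ) : OO A B) ∈ P := by
    rw [sub_self]
    exact P.zero_mem
  rw [← wP_eq hp h2, ← wP_eq hp h3]

lemma cop_congr {g : Ideal (OO A B)} {x y : OO A B} (h : x - y ∈ g)
    (hx : IsCoprime (sp x) g) : IsCoprime (sp y) g := by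
  rw [Ideal.isCoprime_iff_exists] at hx ⊢
  obtain ⟨i, hi, j, hj, hij⟩ := hx
  obtain ⟨c, rfl⟩ := Ideal.mem_span_singleton'.1 hi
  refine ⟨c * y, Ideal.mem_span_singleton'.2 ⟨c, rfl⟩, c * (x - y) + j,
    g.add_mem (g.mul_mem_left _ h) hj, ?_⟩
  rw [← hij]
  ring

end EPS3

open _root_.Pool.Agent.MUXI.EPS3 in
/-- EPS3. -/
theorem ti_EPS3 (h1 : Si_PQF) (h2 : Pool.Agent.MUXF.Sx_ALG) : Si_EPS3 := by
  intro A B P V f hset e0 h01 hm1 hmul hper hsupp
  obtain ⟨hcl, h1P, hint, hPP, -, hfP, -, hcop, -, -⟩ := h1 3 A B P V f hset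
  have hnm : ∀ x : OO A B, x * star x = ((nm x : ℤ) : OO A B) := fun x =>
    ((h2 A B (Pool.Agent.MUXY.cqF hset.case.toCQ)).2.1 x).2.2.2.2.1
  have q1 : QI P := by
    refine ⟨fun x => ?_, fun n => ?_⟩
    · rcases hcl x with h | h | h
      · exact ⟨0, by simpa using h⟩
      · exact ⟨1, by simpa using h⟩
      · exact ⟨-1, by simpa using h⟩
    · exact hint n
  have q2 : QI (cjI P) := qi_cj q1
  have h3P : (3 : OO A B) ∈ P := by
    have := (hint 3).2 (by norm_num)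
    exact_mod_cast this
  have hlvP : ∀ n : ℕ, ∀ z ∈ idl (A := A) (B := B) (lvX 3 f n), z ∈ P := by
    intro n z hz
    obtain ⟨c, rfl⟩ := Ideal.mem_span_singleton'.1 hz
    apply P.mul_mem_left
    have e : ((lvX 3 f n : ℕ) : OO A B) = ((f : OO A B) * 3 ^ n) * 3 := by
      unfold lvX q0
      push_cast
      ring
    rw [e]
    exact P.mul_mem_left _ h3P
  refine ⟨fun n => ?_, ?_⟩
  · constructor
    · intro x y h
      exact wP_per q1 (hlvP n _ h)
    · intro x hx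
      rcases cases q1 ((hcop n x).1 hx).1 with h | h
      · exact Or.inl h.2
      · exact Or.inr h.2
    · exact wP_neg q1
    · intro x hx
      rw [sub_self]
      exact dvd_zero _
  · have hsc : ∀ x : OO A B, e0 x ≠ 0 ↔ x ∉ P ∧ IsCoprime (sp x) (idl f * cjI P) := fun x =>
      (hsupp x).trans (hcop 0 x)
    -- the ideal `g`
    have hPc : IsCoprime P (cjI P) := (h1 3 A B P V f hset).2.2.2.2.1
    have hlev : idl (A := A) (B := B) (lvX 3 f 0) = (idl f * cjI P) * P := by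
      have e : ((lvX 3 f 0 : ℕ) : OO A B) = (f : OO A B) * ((3 : ℕ) : OO A B) := by
        unfold lvX q0
        push_cast
        ring
      rw [mul_assoc, mul_comm (cjI P) P, hPP]
      change Ideal.span {((lvX 3 f 0 : ℕ) : OO A B)} = _
      rw [e, ← Ideal.span_singleton_mul_span_singleton]
    have hgP : IsCoprime (idl f * cjI P) P := IsCoprime.mul_left hfP hPc.symm
    set g : Ideal (OO A B) := idl f * cjI P with hg
    have hgc : g ≤ cjI P := Ideal.mul_le_right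
    obtain ⟨a, ha, b, hb, hab⟩ := Ideal.isCoprime_iff_exists.1 hgP
    have hmem : ∀ z : OO A B, z ∈ g → z ∈ P → z ∈ idl (A := A) (B := B) (lvX 3 f 0) := by
      intro z hz1 hz2
      rw [hlev]
      have e : z = a * z + z * b := by
        linear_combination (-z) * hab
      rw [e]
      exact Ideal.add_mem _ (Ideal.mul_mem_mul ha hz2) (Ideal.mul_mem_mul hz1 hb)
    set T : OO A B → OO A B := fun x => x * b + a with hT
    have hT1 : T 1 = 1 := by
      rw [hT]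
      linear_combination hab
    have Tg : ∀ x, T x - x ∈ g := by
      intro x
      have e : T x - x = (1 - x) * a := by
        rw [hT]
        linear_combination x * hab
      rw [e]
      exact g.mul_mem_left _ ha
    have Tp : ∀ x, T x - 1 ∈ P := by
      intro x
      have e : T x - 1 = (x - 1) * b := by
        rw [hT]
        linear_combination hab
      rw [e]
      exact P.mul_mem_left _ hb
    have TP : ∀ x, T x ∉ P := by
      intro x hx
      apply h1P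
      have := P.sub_mem hx (Tp x)
      rwa [sub_sub_cancel] at this
    have hesupp : ∀ x, e0 (T x) ≠ 0 ↔ IsCoprime (sp x) g := by
      intro x
      rw [hsc]
      constructor
      · exact fun h => cop_congr (Tg x) h.2
      · intro h
        refine ⟨TP x, cop_congr ?_ h⟩
        rw [← neg_sub]
        exact g.neg_mem (Tg x)
    have eper : ∀ x y, x - y ∈ g → e0 (T x) = e0 (T y) := by
      intro x y h
      apply hper
      apply hmem
      · have e : T x - T y = b * (x - y) := by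
          rw [hT]
          ring
        rw [e]
        exact g.mul_mem_left _ h
      · have e : T x - T y = (x - y) * b := by
          rw [hT]
          ring
        rw [e]
        exact P.mul_mem_left _ hb
    have emul : ∀ x y, e0 (T (x * y)) = e0 (T x) * e0 (T y) := by
      intro x y
      rw [← hmul]
      apply hper
      apply hmem
      · have e : T (x * y) - T x * T y = (T (x * y) - x * y) - (T x * (T y - y) + y * (T x - x)) := by
          ring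
        rw [e]
        exact g.sub_mem (Tg _) (g.add_mem (g.mul_mem_left _ (Tg y)) (g.mul_mem_left _ (Tg x)))
      · have e : T (x * y) - T x * T y = (T (x * y) - 1) - (T x * (T y - 1) + (T x - 1)) := by
          ring
        rw [e]
        exact P.sub_mem (Tp _) (P.add_mem (P.mul_mem_left _ (Tp y)) (Tp x))
    have hη : e0 (T (-1)) ^ 2 = 1 := by
      rw [sq, ← emul, neg_one_mul, neg_neg, hT1, h01]
    have f1 : ∀ x, x - 1 ∈ P → e0 x = e0 (T x) := by
      intro x hx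
      apply hper
      apply hmem
      · rw [← neg_sub]
        exact g.neg_mem (Tg x)
      · have e : x - T x = (x - 1) - (T x - 1) := by ring
        rw [e]
        exact P.sub_mem hx (Tp x)
    have f2 : ∀ x, x + 1 ∈ P → e0 x = e0 (T (-1)) * e0 (T x) := by
      intro x hx
      have e1 : e0 (-x) = e0 x := by
        rw [← neg_one_mul, hmul, hm1, one_mul]
      have e2 : -x - 1 ∈ P := by
        have e : -x - 1 = -(x + 1) := by ring
        rw [e]
        exact P.neg_mem hx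
      rw [← e1, f1 _ e2, ← emul, neg_one_mul]
    have npbx : ∀ x, IsCoprime (sp x) g → x ∉ cjI P := by
      intro x hx hd
      rw [Ideal.isCoprime_iff_exists] at hx
      obtain ⟨i, hi, j, hj, hij⟩ := hx
      obtain ⟨c, rfl⟩ := Ideal.mem_span_singleton'.1 hi
      have h3 : (1 : OO A B) ∈ cjI P := by
        rw [← hij]
        exact Ideal.add_mem _ (Ideal.mul_mem_left _ _ hd) (hgc hj)
      rw [mem_cj, star_one] at h3
      exact h1P h3
    rcases mul_self_eq_one_iff.1 ((sq _).symm.trans hη) with hη1 | hη1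
    · -- case `η = 1`
      refine ⟨fun x => e0 (T x) * (wP (cjI P) x : ℂ), -1, ?_, Or.inr rfl, ?_⟩
      · constructor
        · have h3 : wP (cjI P) (1 : OO A B) = 1 := by
            have h4 : (1 : OO A B) - ((1 : ℤ) : OO A B) ∈ cjI P := by
              push_cast
              rw [sub_self]
              exact Ideal.zero_mem _
            rw [wP_eq q2 h4]
            decide
          change e0 (T 1) * (wP (cjI P) (1 : OO A B) : ℂ) = 1
          rw [h3, hT1, h01]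
          norm_num
        · intro x y
          change e0 (T (x * y)) * (wP (cjI P) (x * y) : ℂ) = _
          rw [emul, wP_mul q2]
          push_cast
          ring
        · intro x y h
          change e0 (T x) * (wP (cjI P) x : ℂ) = e0 (T y) * (wP (cjI P) y : ℂ)
          rw [eper x y h, wP_per q2 (hgc h)]
        · intro x
          change e0 (T x) * (wP (cjI P) x : ℂ) ≠ 0 ↔ _
          rw [mul_ne_zero_iff, hesupp]
          constructor
          · exact fun h => h.1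
          · intro h
            refine ⟨h, ?_⟩
            have := (wP_ne q2 x).2 (npbx x h)
            exact_mod_cast this
        · have h3 : wP (cjI P) (-1 : OO A B) = -1 := by
            have h4 : (-1 : OO A B) - ((-1 : ℤ) : OO A B) ∈ cjI P := by
              push_cast
              rw [sub_self]
              exact Ideal.zero_mem _
            rw [wP_eq q2 h4]
            decide
          change e0 (T (-1)) * (wP (cjI P) (-1 : OO A B) : ℂ) = -1
          rw [h3, hη1]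
          norm_num
      · intro x hx
        obtain ⟨hxP, hxg⟩ := (hcop 0 x).1 hx
        have h3 : (wP (cjI P) x : ℂ) ^ 2 = 1 := by
          have := wP_sq q2 (npbx x hxg)
          exact_mod_cast this
        have h4 : e0 x = e0 (T x) := by
          rcases cases q1 hxP with ⟨h5, -⟩ | ⟨h5, -⟩
          · exact f1 x h5
          · rw [f2 x h5, hη1, one_mul]
        rw [if_neg (by norm_num), w3_nm q1 x (hnm x), h4]
        push_cast
        linear_combination (-(e0 (T x) * (wP P x : ℂ))) * h3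
    · -- case `η = -1`
      refine ⟨fun x => e0 (T x), 1, ?_, Or.inl rfl, ?_⟩
      · constructor
        · change e0 (T 1) = 1
          rw [hT1, h01]
        · exact emul
        · exact eper
        · exact hesupp
        · exact hη1
      · intro x hx
        obtain ⟨hxP, hxg⟩ := (hcop 0 x).1 hx
        rw [if_pos rfl, mul_one]
        rcases cases q1 hxP with ⟨h5, h6⟩ | ⟨h5, h6⟩
        · rw [h6, f1 x h5]
          norm_num
        · rw [h6, f2 x h5, hη1]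
          push_cast
          ring

end

end Pool.Agent.MUXI


end

section

/-!
# MUX, last glue: module LVX, elementary properties of the levels
-/

set_option autoImplicit false

open NumberField IsDedekindDomain

namespace Pool.Agent.MUXZ

open _root_.MU3 _root_.Pool.Agent.MU3 _root_.Pool.Agent.MU3A _root_.Pool.Agent.MU3B _root_.Pool.Agent.RI _root_.Pool.Agent.RID
  _root_.Pool.Agent.MUX _root_.Pool.Agent.MUXK _root_.Pool.Agent.MUXJ _root_.Pool.Agent.MUXW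
open _root_.Pool.Agent.MU3V (Sub GD)

namespace LVX

lemma q0_dvd (p : ℕ) : q0 p ∣ p ^ 2 := by
  unfold q0
  split_ifs with h
  · subst h; norm_num
  · exact dvd_pow_self _ two_ne_zero

lemma dvd_q0 (p : ℕ) : p ∣ q0 p := by
  unfold q0
  split_ifs with h
  · subst h; norm_num
  · exact dvd_rfl

lemma not_dvd {A B : ℤ} (m : ℕ) (k : ℕ) (hk : 0 < k) (hm : k < m) :
    ¬ ((m : ℕ) : OO A B) ∣ ((k : ℕ) : OO A B) := by
  rintro ⟨y, hy⟩
  have h1 := congrArg QuadraticAlgebra.re hy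
  have h2 : ((m : OO A B) * y).re = (m : ℤ) * y.re := by simp
  have h3 : ((k : ℕ) : OO A B).re = (k : ℤ) := by simp
  rw [h2, h3] at h1
  have h4 : (m : ℤ) ∣ (k : ℤ) := Dvd.intro _ h1.symm
  have h5 : m ∣ k := by exact_mod_cast h4
  exact absurd (Nat.le_of_dvd hk h5) (by omega)

end LVX

open _root_.Pool.Agent.MUXZ.LVX in
theorem tz_LVX : Sz_LVX := by
  intro p A B P V f hS n
  have hp : p.Prime := by
    rcases hS.case.split with h | h
    · rw [h.1]; exact Nat.prime_three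
    · rw [h.1]; exact Nat.prime_two
  have hf : 0 < f := Nat.pos_of_ne_zero hS.f0
  have hq3 : 3 ≤ q0 p := by
    unfold q0
    split_ifs with h
    · norm_num
    · have := hp.two_le
      omega
  have hm3 : 3 ≤ lvX p f n := by
    unfold lvX
    have h1 : 1 ≤ p ^ n := Nat.one_le_pow _ _ hp.pos
    calc 3 ≤ q0 p := hq3
      _ = 1 * q0 p * 1 := by ring
      _ ≤ f * q0 p * p ^ n := Nat.mul_le_mul (Nat.mul_le_mul hf le_rfl) h1
  have hcop : (aX p f).Coprime (lvX p f n) := by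
    have h1 : (aX p f).Coprime f := by
      unfold aX
      rw [Nat.coprime_add_mul_right_left]
      exact Nat.coprime_one_left _
    have h2 : (aX p f).Coprime (q0 p) := by
      have h3 : aX p f = 1 + (2 * f) * q0 p := by unfold aX; ring
      rw [h3, Nat.coprime_add_mul_right_left]
      exact Nat.coprime_one_left _
    have h4 : (aX p f).Coprime (p ^ n) := (h2.coprime_dvd_right (dvd_q0 p)).pow_right n
    exact (h1.mul_right h2).mul_right h4
  refine ⟨by omega, ?_, ?_, ?_, ?_, ?_, hcop, ?_, ?_, ?_⟩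
  · unfold lvX; ring
  · unfold lvX
    exact ((dvd_q0 p).mul_left f).mul_right _
  · have h1 := not_dvd (A := A) (B := B) (lvX p f n) 2 (by norm_num) (by omega)
    exact_mod_cast h1
  · intro h
    have h1 := not_dvd (A := A) (B := B) (lvX p f n) 1 (by norm_num) (by omega)
    rw [Nat.cast_one] at h1
    exact h1 (isUnit_iff_dvd_one.mp h)
  · exact ⟨q0 p * f, by unfold aX; ring⟩
  · have h1 : IsCoprime ((aX p f : ℕ) : ℤ) ((lvX p f n : ℕ) : ℤ) := Nat.isCoprime_iff_coprime.mpr hcop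
    have h2 := h1.map (Int.castRingHom (OO A B))
    simpa using h2
  · intro q hq hd
    have h1 : nm ((lvX p f n : ℕ) : OO A B) = ((lvX p f n : ℕ) : ℤ) ^ 2 := by
      simp [nm]
    rw [h1] at hd
    have h2 : q ∣ lvX p f n ^ 2 := by exact_mod_cast hd
    have h3 : q ∣ lvX p f n := hq.dvd_of_dvd_pow h2
    unfold lvX at h3
    rcases hq.dvd_mul.mp h3 with h4 | h4
    · rcases hq.dvd_mul.mp h4 with h5 | h5
      · exact h5.mul_left p
      · exact (hq.dvd_of_dvd_pow (h5.trans (q0_dvd p))).mul_right f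
    · exact (hq.dvd_of_dvd_pow h4).mul_right f
  · intro k hk
    have h1 : k.Coprime p := Nat.Coprime.coprime_mul_right_right hk
    have h2 : k.Coprime f := Nat.Coprime.coprime_mul_left_right hk
    have h3 : k.Coprime (q0 p) := (h1.pow_right 2).coprime_dvd_right (q0_dvd p)
    exact (h2.mul_right h3).mul_right (h1.pow_right n)

end Pool.Agent.MUXZ


end

section

/-!
# MUX-NS, block IN, module INP (helper36): the inputs of block K
-/

set_option autoImplicit false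

namespace Pool.Agent.NSI

open _root_.MU3 _root_.Pool.Agent.MU3 _root_.Pool.Agent.MU3A _root_.Pool.Agent.MU3B _root_.Pool.Agent.RI _root_.Pool.Agent.RID
  _root_.Pool.Agent.MUX _root_.Pool.Agent.MUXK _root_.Pool.Agent.MUXI _root_.Pool.Agent.NS

noncomputable section

namespace INP

/-- a subfield of a finite-dimensional field is finite-dimensional -/
lemma fd {E E' : IntermediateField ℚ ℂ} [FiniteDimensional ℚ E'] (h : E ≤ E') :
    FiniteDimensional ℚ E :=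
  FiniteDimensional.of_injective (IntermediateField.inclusion h).toLinearMap
    (IntermediateField.inclusion h).injective

lemma c_ne {p : ℕ} {k K₀ K : IntermediateField ℚ ℂ} {B : ℕ → IntermediateField ℚ ℂ}
    [FiniteDimensional ℚ k] [∀ n, FiniteDimensional ℚ ↥(K ⊔ B n)] {hk : ∀ n, k ≤ K ⊔ B n}
    {hk₀ : ∀ n, k ≤ K₀ ⊔ B n} {S : Finset ℕ} {c c₀ : ℕ → ℂ} {n₁ : ℕ}
    (hI : Pool.Agent.MUXZ.InpW p k K₀ K B hk hk₀ S c c₀ n₁) (i : ℕ) : c₀ i ≠ 0 := by
  let _ := algC (hk i)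
  rw [hI.norm i]
  refine finprod_induction (p := fun x : ℂ => x ≠ 0) one_ne_zero
    (fun x y hx hy => mul_ne_zero hx hy) fun g hg => ?_
  have h6 := (map_eq_zero ((g : NC (hk i) (K₀ ⊔ B i)) : ↥(K ⊔ B i) ≃ₐ[k] ↥(K ⊔ B i))).1
    (Subtype.ext hg)
  exact hI.ne i (congrArg Subtype.val h6)

end INP

/-- (INP) the inputs of block K -/
theorem tn_INP (h1 : Sn_I31) (h2 : Sn_LEM1) (h3 : Sn_NRX) : Sn_INP := by
  intro A B V f hS hTor ι iι R u el lam hG K₀ K Bn ik iK iKB hX hKT hk hk₀ hkK S c c₀ n₁ hW C hE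
    hc₀
  have iP : Fact (Nat.Prime 3) := ⟨Nat.prime_three⟩
  have iK₀ : FiniteDimensional ℚ K₀ := INP.fd hX.le
  have iKB₀ : ∀ n, FiniteDimensional ℚ ↥(K₀ ⊔ Bn n) := fun n =>
    INP.fd (E' := K ⊔ Bn n) (sup_le_sup_right hX.le _)
  have hNr := h3 3 (kk A B) K₀ K Bn hX hk hk₀ S c c₀ n₁ hW
  have hI3 : ∀ (χ : (letI := algC hkK; (↥K₀ ≃ₐ[kk A B] ↥K₀) →*
      (IsLocalRing.ResidueField V)ˣ)) (N n₀ : ℕ), ∃ n, n₀ ≤ n ∧
      I3At (IsLocalRing.ResidueField V) 3 (kk A B) K₀ Bn hkK χ N n (hk₀ n) (c₀ n)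
        (hW.mem₀ n) := by
    intro χ N n₀
    refine h2 (IsLocalRing.ResidueField V) 3 (kk A B) K₀ Bn hX.b0 hX.cop hX.om hk₀ hkK c₀ hW.mem₀
      (INP.c_ne hW) n₁ hNr χ (fun n₀ => ?_) N n₀
    exact h1 A B V f hS hTor ι R u el lam hG K₀ Bn hX.b0 hX.cop hKT hk₀ hkK C hE c₀ hW.mem₀ hc₀ χ n₀
  exact
    { mem := hW.mem
      ne := hW.ne
      mem₀ := hW.mem₀
      norm := hW.norm
      prime := hW.prime
      su := hW.su
      nrm := hW.nrm
      kol := hW.kol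
      i3 := hI3 }

end

end Pool.Agent.NSI


end

section

/-!
# MUX, block IX: module TH, the sums `That_j`
-/

set_option autoImplicit false

namespace Pool.Agent.MUXI

open _root_.MU3 _root_.Pool.Agent.MU3 _root_.Pool.Agent.MU3A _root_.Pool.Agent.MU3B _root_.Pool.Agent.RI _root_.Pool.Agent.RID
  _root_.Pool.Agent.MUX _root_.Pool.Agent.MUXE _root_.Pool.Agent.MUXK
open _root_.Pool.Agent.MU3I (w3 zt)

noncomputable section

namespace TH

section

variable {A B : ℤ}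

lemma nat_dvd_iff (n : ℕ) (x : OO A B) :
    ((n : ℕ) : OO A B) ∣ x ↔ (n : ℤ) ∣ x.re ∧ (n : ℤ) ∣ x.im := by
  constructor
  · rintro ⟨t, rfl⟩
    refine ⟨⟨t.re, ?_⟩, ⟨t.im, ?_⟩⟩
    · rw [QuadraticAlgebra.re_mul]; simp
    · rw [QuadraticAlgebra.im_mul]; simp
  · rintro ⟨⟨s, hs⟩, ⟨t, ht⟩⟩
    refine ⟨⟨s, t⟩, ?_⟩
    apply QuadraticAlgebra.ext
    · rw [QuadraticAlgebra.re_mul]; simp [hs]
    · rw [QuadraticAlgebra.im_mul]; simp [ht]

lemma mk_eq_iff (m x y : OO A B) :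
    Ideal.Quotient.mk (Ideal.span {m}) x = Ideal.Quotient.mk (Ideal.span {m}) y ↔ m ∣ x - y := by
  rw [Ideal.Quotient.eq, Ideal.mem_span_singleton]

lemma finR (n : ℕ) (hn : n ≠ 0) : Finite (OO A B ⧸ Ideal.span {((n : ℕ) : OO A B)}) := by
  have : NeZero n := ⟨hn⟩
  refine Finite.of_injective (fun q : OO A B ⧸ Ideal.span {((n : ℕ) : OO A B)} =>
    (((Quotient.out q).re : ZMod n), ((Quotient.out q).im : ZMod n))) ?_
  intro q q' h
  simp only [Prod.mk.injEq] at h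
  rw [← Ideal.Quotient.mk_out q, ← Ideal.Quotient.mk_out q', mk_eq_iff, nat_dvd_iff]
  refine ⟨?_, ?_⟩
  · rw [QuadraticAlgebra.re_sub, ← ZMod.intCast_zmod_eq_zero_iff_dvd, Int.cast_sub, sub_eq_zero]
    exact h.1
  · rw [QuadraticAlgebra.im_sub, ← ZMod.intCast_zmod_eq_zero_iff_dvd, Int.cast_sub, sub_eq_zero]
    exact h.2

lemma mul_star_nm (x : OO A B) : x * star x = ((nm x : ℤ) : OO A B) := by
  have h : nm x = QuadraticAlgebra.norm x := by
    rw [QuadraticAlgebra.norm_def]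
    unfold nm
    ring
  rw [h, ← QuadraticAlgebra.algebraMap_norm_eq_mul_star]
  simp

end

/-! ### Sums -/

open Classical in
/-- a sum over disjoint sets -/
lemma sum_disj {Q D : Type} [Finite Q] [Fintype D] (S : D → Set Q)
    (hS : ∀ q d d', q ∈ S d → q ∈ S d' → d = d') (c : D → ℂ) (H E : Q → ℂ)
    (hc : ∀ d, ∀ q ∈ S d, c d = E q) :
    ∑ d : D, c d * ∑ᶠ q ∈ S d, H q = ∑ᶠ q : Q, if ∃ d, q ∈ S d then E q * H q else 0 := by
  have : Fintype Q := Fintype.ofFinite Q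
  have h1 : ∀ d : D, c d * ∑ᶠ q ∈ S d, H q = ∑ q : Q, if q ∈ S d then c d * H q else 0 := by
    intro d
    rw [finsum_mem_def, finsum_eq_sum_of_fintype, Finset.mul_sum]
    refine Finset.sum_congr rfl fun q _ => ?_
    by_cases hq : q ∈ S d
    · rw [Set.indicator_of_mem hq, if_pos hq]
    · rw [Set.indicator_of_notMem hq, if_neg hq, mul_zero]
  rw [Finset.sum_congr rfl fun d _ => h1 d, Finset.sum_comm, finsum_eq_sum_of_fintype]
  refine Finset.sum_congr rfl fun q _ => ?_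
  by_cases hx : ∃ d, q ∈ S d
  · obtain ⟨d0, h0⟩ := hx
    rw [if_pos ⟨d0, h0⟩, Finset.sum_eq_single d0, if_pos h0, hc d0 q h0]
    · intro d _ hd
      rw [if_neg]
      intro h2
      exact hd (hS q _ _ h2 h0)
    · intro h2
      exact absurd (Finset.mem_univ _) h2
  · rw [if_neg hx]
    refine Finset.sum_eq_zero fun d _ => ?_
    rw [if_neg (fun h2 => hx ⟨d, h2⟩)]

/-- a sum over pairs -/
lemma sum_pairs {ι Q : Type} [Fintype ι] [Finite Q] (G : ι × Q → ℂ) :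
    ∑ᶠ q : ι × Q, G q = ∑ i : ι, ∑ᶠ x : Q, G (i, x) := by
  have : Fintype Q := Fintype.ofFinite Q
  rw [finsum_eq_sum_of_fintype, Fintype.sum_prod_type]
  refine Finset.sum_congr rfl fun i _ => ?_
  rw [finsum_eq_sum_of_fintype]

lemma comb_sum {Q : Type} [Finite Q] (k s : ℂ) (F F' G : Q → ℂ)
    (h : ∀ x, G x = k * (F x + s * F' x)) :
    ∑ᶠ x : Q, G x = k * (∑ᶠ x : Q, F x + s * ∑ᶠ x : Q, F' x) := by
  have : Fintype Q := Fintype.ofFinite Q
  rw [finsum_eq_sum_of_fintype, finsum_eq_sum_of_fintype, finsum_eq_sum_of_fintype,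
    Finset.mul_sum, ← Finset.sum_add_distrib, Finset.mul_sum]
  exact Finset.sum_congr rfl fun x _ => h x

/-! ### The sets -/

section

variable {A B : ℤ} {p f n : ℕ} {ι : Type} {R : Reps A B (p * f) ι} {G : Type} [Group G]
  {γ : G} {Δ : Subgroup G} {X : G → Set (ι × (OO A B ⧸ idl (A := A) (B := B) (lvX p f n)))}

lemma mem_iff (hM : XM R p f n γ Δ X)
    (q : ι × (OO A B ⧸ idl (A := A) (B := B) (lvX p f n))) (j : ℕ) :
    (∃ δ : Δ, q ∈ X (γ ^ j * (δ : G))) ↔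
      IsCoprime (Quotient.out q.2 : OO A B) ((lvX p f n : ℕ) : OO A B) ∧
      (((q0 p * p ^ n : ℕ) : ℤ) ∣ nm (Quotient.out q.2) * nI (R.b q.1) - (1 + (q0 p : ℤ)) ^ j ∨
      ((q0 p * p ^ n : ℕ) : ℤ) ∣ nm (Quotient.out q.2) * nI (R.b q.1) + (1 + (q0 p : ℤ)) ^ j) := by
  constructor
  · rintro ⟨δ, hδ⟩
    refine ⟨hM.cop _ _ hδ, (hM.nrm q _ hδ j).1 ?_⟩
    rw [hM.comm (γ ^ j) δ, mul_inv_cancel_right]
    exact δ.2
  · rintro ⟨hc, hC⟩
    obtain ⟨τ, hτ⟩ := hM.ex q hc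
    have h1 := (hM.nrm q τ hτ j).2 hC
    refine ⟨⟨_, h1⟩, ?_⟩
    have h2 : γ ^ j * (τ * (γ ^ j)⁻¹) = τ := by
      rw [hM.comm (γ ^ j), inv_mul_cancel_right]
    rw [h2]
    exact hτ

end

/-! ### Arithmetic -/

lemma q0_cases {p : ℕ} {A B : ℤ} (h : CaseP p A B) : (p = 3 ∧ q0 p = 3) ∨ (p = 2 ∧ q0 p = 4) := by
  rcases h.split with ⟨rfl, -⟩ | ⟨rfl, -⟩
  · exact Or.inl ⟨rfl, rfl⟩
  · exact Or.inr ⟨rfl, rfl⟩

lemma pow_mod (g : ℕ) (j : ℕ) : (g : ℤ) ∣ (1 + (g : ℤ)) ^ j - 1 := by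
  have h := sub_dvd_pow_sub_pow (1 + (g : ℤ)) 1 j
  rw [one_pow, add_sub_cancel_left] at h
  exact h

lemma w3_mul_eq {x y : ℤ} (h : (3 : ℤ) ∣ x * y - 1) : w3 x = w3 y := by
  have h1 : x % 3 = 0 ∨ x % 3 = 1 ∨ x % 3 = 2 := by omega
  have h2 : y % 3 = 0 ∨ y % 3 = 1 ∨ y % 3 = 2 := by omega
  have h3 : (x * y) % 3 = (x % 3) * (y % 3) % 3 := Int.mul_emod x y 3
  unfold w3
  rcases h1 with h1 | h1 | h1 <;> rcases h2 with h2 | h2 | h2 <;> rw [h1, h2] at h3 ⊢ <;>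
    simp at h3 ⊢ <;> omega

lemma w3_mul_neg {x y : ℤ} (h : (3 : ℤ) ∣ x * y + 1) : w3 x = -w3 y := by
  have h1 : x % 3 = 0 ∨ x % 3 = 1 ∨ x % 3 = 2 := by omega
  have h2 : y % 3 = 0 ∨ y % 3 = 1 ∨ y % 3 = 2 := by omega
  have h3 : (x * y) % 3 = (x % 3) * (y % 3) % 3 := Int.mul_emod x y 3
  unfold w3
  rcases h1 with h1 | h1 | h1 <;> rcases h2 with h2 | h2 | h2 <;> rw [h1, h2] at h3 ⊢ <;>
    simp at h3 ⊢ <;> omega

/-! ### One summand -/

open Classical in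
lemma term {p : ℕ} {A B : ℤ} {P : Ideal (OO A B)} {V : ValuationSubring ℂ} {f : ℕ}
    (hS : SetP p A B P V f) (h3 : Si_PQF) (n : ℕ) {e0 e : OO A B → ℂ} {w : OO A B → ℤ} {s : ℤ}
    (hE : IsEI (idl f * cjI P) e) (hs : s = 1 ∨ s = -1) (hs2 : p = 2 → s = 1)
    (hes : ∀ x, IsCoprime x ((lvX p f 0 : ℕ) : OO A B) →
        e0 x * (w x : ℂ) = e x * (if s = 1 then 1 else (w3 (nm x) : ℂ)))
    (N : ℕ) (j : ℕ) (kp d : ℂ) (c : ℤ) (x : OO A B) :
    (if IsCoprime x ((lvX p f n : ℕ) : OO A B) ∧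
      (((q0 p * p ^ n : ℕ) : ℤ) ∣ nm x * N - (1 + (q0 p : ℤ)) ^ j ∨
      ((q0 p * p ^ n : ℕ) : ℤ) ∣ nm x * N + (1 + (q0 p : ℤ)) ^ j) then
      (kp * e0 x) * ((w x : ℂ) * (c : ℂ) * d) else 0) =
    (kp * c * (if s = 1 then 1 else (w3 N : ℂ))) *
      ((if ((q0 p * p ^ n : ℕ) : ℤ) ∣ nm x * N - (1 + (q0 p : ℤ)) ^ j then e x * d else 0) +
      s * (if ((q0 p * p ^ n : ℕ) : ℤ) ∣ nm x * N - -(1 + (q0 p : ℤ)) ^ j then e x * d else 0)) := by
  obtain ⟨-, -, hint, -, -, -, -, hcop, -, -⟩ := h3 p A B P V f hS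
  set t : ℤ := (1 + (q0 p : ℤ)) ^ j with ht
  have ht1 : (q0 p : ℤ) ∣ t - 1 := pow_mod _ _
  have hM : (q0 p : ℤ) ∣ ((q0 p * p ^ n : ℕ) : ℤ) := ⟨(p : ℤ) ^ n, by push_cast; ring⟩
  have hpq : (p : ℤ) ∣ (q0 p : ℤ) := by
    rcases q0_cases hS.case with ⟨h4, h5⟩ | ⟨h4, h5⟩
    · rw [h4, show q0 3 = 3 from rfl]
    · rw [h4, show q0 2 = 4 from rfl]; norm_num
  have hp2 : (p : ℤ) = 3 ∨ (p : ℤ) = 2 := by
    rcases q0_cases hS.case with ⟨h4, h5⟩ | ⟨h4, h5⟩
    · rw [h4]; left; rfl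
    · rw [h4]; right; rfl
  have hq2 : (q0 p : ℤ) = 3 ∨ (q0 p : ℤ) = 4 := by
    rcases q0_cases hS.case with ⟨h4, h5⟩ | ⟨h4, h5⟩
    · rw [h5]; left; rfl
    · rw [h5]; right; rfl
  -- not prime to the level, then `e x = 0`
  have hzero : ∀ u : ℤ, (p : ℤ) ∣ nm x * N - u → ¬ (p : ℤ) ∣ u →
      ¬ IsCoprime x ((lvX p f n : ℕ) : OO A B) → e x = 0 := by
    intro u hu hnu hnc
    by_contra h0
    apply hnc
    rw [hcop n x]
    refine ⟨?_, (hE.supp x).1 h0⟩
    intro hx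
    have h1 : ((nm x : ℤ) : OO A B) ∈ P := by
      rw [← mul_star_nm]
      exact P.mul_mem_right _ hx
    rw [hint] at h1
    apply hnu
    have h2 : (p : ℤ) ∣ nm x * N := h1.mul_right _
    have h4 := dvd_sub h2 hu
    rwa [sub_sub_cancel] at h4
  have hlv : IsCoprime x ((lvX p f n : ℕ) : OO A B) →
      IsCoprime x ((lvX p f 0 : ℕ) : OO A B) := by
    intro h1
    refine h1.of_isCoprime_of_dvd_right ⟨((p ^ n : ℕ) : OO A B), ?_⟩
    unfold lvX
    push_cast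
    ring
  have hnt : ¬ (p : ℤ) ∣ t := by
    intro h1
    have h2 := hpq.trans ht1
    have h4 := dvd_sub h1 h2
    rw [sub_sub_cancel] at h4
    rcases hp2 with h5 | h5 <;> rw [h5] at h4 <;> omega
  have hnt' : ¬ (p : ℤ) ∣ -t := fun h1 => hnt ((dvd_neg).1 h1)
  have hnb : ((q0 p * p ^ n : ℕ) : ℤ) ∣ nm x * N - t →
      ¬ ((q0 p * p ^ n : ℕ) : ℤ) ∣ nm x * N - -t := by
    intro h1 h2
    have h4 := hM.trans (dvd_sub h2 h1)
    have h5 : nm x * N - -t - (nm x * N - t) = 2 * (t - 1) + 2 := by ring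
    rw [h5] at h4
    have h6 := (Int.dvd_add_right (ht1.mul_left 2)).1 h4
    rcases hq2 with h7 | h7 <;> rw [h7] at h6 <;> omega
  by_cases h1 : ((q0 p * p ^ n : ℕ) : ℤ) ∣ nm x * N - t
  · rw [if_pos h1, if_neg (hnb h1), mul_zero, add_zero]
    by_cases hc : IsCoprime x ((lvX p f n : ℕ) : OO A B)
    · rw [if_pos ⟨hc, Or.inl h1⟩]
      have h2 := hes x (hlv hc)
      have h4 : (if s = 1 then 1 else (w3 (nm x) : ℂ)) = (if s = 1 then 1 else (w3 N : ℂ)) := by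
        by_cases hs1 : s = 1
        · rw [if_pos hs1, if_pos hs1]
        · rw [if_neg hs1, if_neg hs1]
          rcases q0_cases hS.case with ⟨h5, h6⟩ | ⟨h5, h6⟩
          · have h7 := dvd_add (hM.trans h1) ht1
            rw [sub_add_sub_cancel, h6] at h7
            rw [w3_mul_eq (by exact_mod_cast h7)]
          · exact absurd (hs2 h5) hs1
      rw [h4] at h2
      linear_combination (kp * c * d) * h2
    · rw [if_neg (fun h2 => hc h2.1), hzero t ((hpq.trans hM).trans h1) hnt hc, zero_mul, mul_zero]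
  · by_cases h2 : ((q0 p * p ^ n : ℕ) : ℤ) ∣ nm x * N - -t
    · rw [if_neg h1, if_pos h2, zero_add]
      have h2' : ((q0 p * p ^ n : ℕ) : ℤ) ∣ nm x * N + t := by
        rwa [sub_neg_eq_add] at h2
      by_cases hc : IsCoprime x ((lvX p f n : ℕ) : OO A B)
      · rw [if_pos ⟨hc, Or.inr h2'⟩]
        have h3 := hes x (hlv hc)
        have h4 : (if s = 1 then 1 else (w3 (nm x) : ℂ)) =
            (if s = 1 then 1 else (w3 N : ℂ)) * s := by
          rcases hs with hs1 | hs1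
          · rw [if_pos hs1, if_pos hs1, hs1]; simp
          · have hs3 : s ≠ 1 := by rw [hs1]; decide
            rw [if_neg hs3, if_neg hs3]
            rcases q0_cases hS.case with ⟨h5, h6⟩ | ⟨h5, h6⟩
            · have h7 := dvd_sub (hM.trans h2') ht1
              rw [show nm x * N + t - (t - 1) = nm x * N + 1 by ring, h6] at h7
              rw [w3_mul_neg (by exact_mod_cast h7), hs1]
              push_cast
              ring
            · exact absurd (hs2 h5) hs3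
        rw [h4] at h3
        linear_combination (kp * c * d) * h3
      · rw [if_neg (fun h3 => hc h3.1), hzero (-t) ((hpq.trans hM).trans h2) hnt' hc, zero_mul,
          mul_zero, mul_zero]
    · rw [if_neg h1, if_neg h2, if_neg]
      · ring
      · rintro ⟨-, h4 | h4⟩
        · exact h1 h4
        · apply h2
          rwa [sub_neg_eq_add]

lemma q0_ne {p : ℕ} {A B : ℤ} (h : CaseP p A B) : q0 p ≠ 0 := by
  rcases q0_cases h with ⟨-, h5⟩ | ⟨-, h5⟩ <;> rw [h5] <;> norm_num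

lemma lvX_ne {p : ℕ} {A B : ℤ} {P : Ideal (OO A B)} {V : ValuationSubring ℂ} {f : ℕ}
    (hS : SetP p A B P V f) (n : ℕ) : lvX p f n ≠ 0 := by
  have hp : p ≠ 0 := by
    rcases q0_cases hS.case with ⟨h5, -⟩ | ⟨h5, -⟩ <;> rw [h5] <;> norm_num
  unfold lvX
  exact mul_ne_zero (mul_ne_zero hS.f0 (q0_ne hS.case)) (pow_ne_zero _ hp)

lemma muX_ne {p : ℕ} {A B : ℤ} {P : Ideal (OO A B)} {V : ValuationSubring ℂ} {f : ℕ}
    (hS : SetP p A B P V f) {ι : Type} (R : Reps A B (p * f) ι) (i : ι) : muX R i ≠ 0 := by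
  have h1 : nI (R.b i) ≠ 0 := by
    intro h0
    have h2 := R.cop i
    rw [h0, Nat.coprime_zero_left] at h2
    have h3 : p = 1 := Nat.eq_one_of_mul_eq_one_right h2
    rcases q0_cases hS.case with ⟨h5, -⟩ | ⟨h5, -⟩ <;> omega
  unfold muX
  refine div_ne_zero (mul_ne_zero (R.nl i).om_ne ?_) (R.nl R.i0).om_ne
  exact_mod_cast h1

end TH

open _root_.Pool.Agent.MUXI.TH in
/-- (TH) the sums `That_j` -/
theorem ti_TH (h1 : Si_TSH) (h3 : Si_PQF) : Si_TH := by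
  classical
  intro p A B P V f hS ι _ R n G _ _ γ Δ _ X hM χ e0 kp c w e s _ _ hE hs hs2 hes hχ j
  have hfin : Finite (OO A B ⧸ idl (A := A) (B := B) (lvX p f n)) := finR _ (lvX_ne hS n)
  rw [sum_disj (fun δ : Δ => X (γ ^ j * (δ : G)))
    (fun q δ δ' h2 h4 => Subtype.ext (mul_left_cancel (hM.uniq q _ _ h2 h4)))
    (fun δ => (((χ δ)⁻¹ : ℂˣ) : ℂ)) _ (fun q => kp q.1 * e0 (Quotient.out q.2))
    (fun δ q hq => hχ δ j q hq)]
  have hind : ∀ q : ι × (OO A B ⧸ idl (A := A) (B := B) (lvX p f n)),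
      (if ∃ δ : Δ, q ∈ X (γ ^ j * (δ : G)) then
        kp q.1 * e0 (Quotient.out q.2) * ((w (Quotient.out q.2) : ℂ) *
        (c q.1 : ℂ) * dlX (R.L q.1) (aX p f) (pt R (lvX p f n) q.1 (Quotient.out q.2))) else 0) =
      kp q.1 * c q.1 * (if s = 1 then 1 else (w3 (nI (R.b q.1)) : ℂ)) *
      ((if ((q0 p * p ^ n : ℕ) : ℤ) ∣ nm (Quotient.out q.2) * nI (R.b q.1) -
          (1 + (q0 p : ℤ)) ^ j then
        e (Quotient.out q.2) * dlX (R.L q.1) (aX p f)
          (pt R (lvX p f n) q.1 (Quotient.out q.2)) else 0) +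
      s * (if ((q0 p * p ^ n : ℕ) : ℤ) ∣ nm (Quotient.out q.2) * nI (R.b q.1) -
          -(1 + (q0 p : ℤ)) ^ j then
        e (Quotient.out q.2) * dlX (R.L q.1) (aX p f)
          (pt R (lvX p f n) q.1 (Quotient.out q.2)) else 0)) := by
    intro q
    rw [if_congr (mem_iff hM q j) rfl rfl]
    exact term hS h3 n hE hs hs2 hes _ j _ _ _ _
  rw [finsum_congr hind, sum_pairs]
  unfold STX
  rw [Finset.mul_sum, ← Finset.sum_add_distrib]
  refine Finset.sum_congr rfl fun i _ => ?_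
  have hT := h1 p A B P V f hS ι R n e hE i ((1 + (q0 p : ℤ)) ^ j)
  have hT' := h1 p A B P V f hS ι R n e hE i (-(1 + (q0 p : ℤ)) ^ j)
  rw [comb_sum (kp i * c i * (if s = 1 then 1 else (w3 (nI (R.b i)) : ℂ))) (s : ℂ) _ _ _
    (fun x => rfl), ← hT, ← hT']
  have hmu := muX_ne hS R i
  unfold kkX sumMod
  field_simp

end

end Pool.Agent.MUXI


end

section

/-!
# MUX-NS, block IN: module XMX, the sets `XX` satisfy `XM` (no condition on the decomposition of `p`)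
-/

set_option autoImplicit false

namespace Pool.Agent.NSI

open _root_.MU3 _root_.Pool.Agent.MU3 _root_.Pool.Agent.MU3A _root_.Pool.Agent.MU3B _root_.Pool.Agent.RI _root_.Pool.Agent.RID
  _root_.Pool.Agent.MUX _root_.Pool.Agent.MUXK _root_.Pool.Agent.MUXI _root_.Pool.Agent.NS
open _root_.Pool.Agent.MU3I (w3 zt)

noncomputable section

namespace Xmx

/-- the numbers `ζ^u + ζ^(-u)` -/
lemma pm {ζ : ℂ} {M : ℕ} (hM : M ≠ 0) (hζ : IsPrimitiveRoot ζ M) (u v : ℕ) :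
    ζ ^ u + (ζ ^ u)⁻¹ = ζ ^ v + (ζ ^ v)⁻¹ ↔
      (M : ℤ) ∣ (u : ℤ) - v ∨ (M : ℤ) ∣ (u : ℤ) + v := by
  have h0 : ζ ≠ 0 := hζ.ne_zero hM
  have hu : ζ ^ u ≠ 0 := pow_ne_zero _ h0
  have hv : ζ ^ v ≠ 0 := pow_ne_zero _ h0
  have e1 : (M : ℤ) ∣ (u : ℤ) - v ↔ ζ ^ u = ζ ^ v := by
    rw [← hζ.zpow_eq_one_iff_dvd, zpow_sub₀ h0, zpow_natCast, zpow_natCast, div_eq_one_iff_eq hv]
  have e2 : (M : ℤ) ∣ (u : ℤ) + v ↔ ζ ^ u * ζ ^ v = 1 := by
    rw [← hζ.zpow_eq_one_iff_dvd, zpow_add₀ h0, zpow_natCast, zpow_natCast]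
  rw [e1, e2]
  constructor
  · intro h
    have h1 : (ζ ^ u - ζ ^ v) * (ζ ^ u * ζ ^ v - 1) = 0 := by
      field_simp at h
      linear_combination h
    rcases mul_eq_zero.1 h1 with h2 | h2
    · exact Or.inl (sub_eq_zero.1 h2)
    · exact Or.inr (sub_eq_zero.1 h2)
  · rintro (h | h)
    · rw [h]
    · have h1 : ζ ^ u = (ζ ^ v)⁻¹ := eq_inv_of_mul_eq_one_left h
      rw [h1, inv_inv, add_comm]

/-- powers of `± g` -/
lemma pw (M c g : ℤ) (h : M ∣ c - g ∨ M ∣ c + g) (j : ℕ) :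
    M ∣ c ^ j - g ^ j ∨ M ∣ c ^ j + g ^ j := by
  rcases h with h | h
  · exact Or.inl (h.trans (sub_dvd_pow_sub_pow c g j))
  · have h1 : M ∣ c ^ j - (-g) ^ j := by
      refine dvd_trans ?_ (sub_dvd_pow_sub_pow c (-g) j)
      rwa [sub_neg_eq_add]
    rcases Nat.even_or_odd j with hj | hj
    · rw [hj.neg_pow] at h1
      exact Or.inl h1
    · rw [hj.neg_pow, sub_neg_eq_add] at h1
      exact Or.inr h1

lemma pm_iff (M N a b : ℤ) (h : M ∣ a - b ∨ M ∣ a + b) :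
    (M ∣ N - a ∨ M ∣ N + a) ↔ (M ∣ N - b ∨ M ∣ N + b) := by
  constructor
  · rintro (h1 | h1)
    · rcases h with h | h
      · left
        have := dvd_add h1 h
        rwa [sub_add_sub_cancel] at this
      · right
        have := dvd_add h1 h
        rwa [show N - a + (a + b) = N + b by ring] at this
    · rcases h with h | h
      · right
        have := dvd_sub h1 h
        rwa [show N + a - (a - b) = N + b by ring] at this
      · left
        have := dvd_sub h1 h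
        rwa [show N + a - (a + b) = N - b by ring] at this
  · rintro (h1 | h1)
    · rcases h with h | h
      · left
        have := dvd_sub h1 h
        rwa [show N - b - (a - b) = N - a by ring] at this
      · right
        have := dvd_add h1 h
        rwa [show N - b + (a + b) = N + a by ring] at this
    · rcases h with h | h
      · right
        have := dvd_add h1 h
        rwa [show N + b + (a - b) = N + a by ring] at this
      · left
        have := dvd_sub h1 h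
        rwa [show N + b - (a + b) = N - a by ring] at this

/-- two homomorphisms which agree on `z` agree on `ℚ(z)` -/
theorem eqB {B D : IntermediateField ℚ ℂ} {z : ℂ} (hB : B = IntermediateField.adjoin ℚ {z})
    (φ ψ : D →+* ℂ) (hz : z ∈ D)
    (h2 : φ ⟨z, hz⟩ = ψ ⟨z, hz⟩) (y : D) (hy : (y : ℂ) ∈ B) : φ y = ψ y := by
  let S : IntermediateField ℚ ℂ :=
    { carrier := {y | ∃ hy : y ∈ D, φ ⟨y, hy⟩ = ψ ⟨y, hy⟩}
      mul_mem' := by
        rintro a b ⟨ha, ha'⟩ ⟨hb, hb'⟩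
        refine ⟨mul_mem ha hb, ?_⟩
        have h3 : (⟨a * b, mul_mem ha hb⟩ : D) = ⟨a, ha⟩ * ⟨b, hb⟩ := rfl
        rw [h3, map_mul, map_mul, ha', hb']
      one_mem' := ⟨one_mem D, by
        have h3 : (⟨1, one_mem D⟩ : D) = 1 := rfl
        rw [h3, map_one, map_one]⟩
      add_mem' := by
        rintro a b ⟨ha, ha'⟩ ⟨hb, hb'⟩
        refine ⟨add_mem ha hb, ?_⟩
        have h3 : (⟨a + b, add_mem ha hb⟩ : D) = ⟨a, ha⟩ + ⟨b, hb⟩ := rfl
        rw [h3, map_add, map_add, ha', hb']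
      zero_mem' := ⟨zero_mem D, by
        have h3 : (⟨0, zero_mem D⟩ : D) = 0 := rfl
        rw [h3, map_zero, map_zero]⟩
      algebraMap_mem' := by
        intro q
        refine ⟨D.algebraMap_mem q, ?_⟩
        have h3 : (⟨algebraMap ℚ ℂ q, D.algebraMap_mem q⟩ : D) = (q : D) := by
          apply Subtype.ext
          simp
        rw [h3, map_ratCast, map_ratCast]
      inv_mem' := by
        rintro a ⟨ha, ha'⟩
        refine ⟨inv_mem ha, ?_⟩
        have h3 : (⟨a⁻¹, inv_mem ha⟩ : D) = (⟨a, ha⟩ : D)⁻¹ := rfl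
        rw [h3, map_inv₀, map_inv₀, ha'] }
  have h4 : B ≤ S := by
    rw [hB, IntermediateField.adjoin_simple_le_iff]
    exact ⟨hz, h2⟩
  obtain ⟨_, h6⟩ := h4 hy
  exact h6

lemma q0_facts {p : ℕ} (hp : p = 2 ∨ p = 3) : 3 ≤ q0 p ∧ ∀ k : ℕ, k.Coprime p → k.Coprime (q0 p) := by
  rcases hp with rfl | rfl
  · refine ⟨by simp [q0], fun k hk => ?_⟩
    have : q0 2 = 2 ^ 2 := by simp [q0]
    rw [this]
    exact hk.pow_right 2
  · refine ⟨by simp [q0], fun k hk => ?_⟩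
    have : q0 3 = 3 := by simp [q0]
    rwa [this]

lemma natCast_not_unit {A B : ℤ} {m : ℕ} (hm : 2 ≤ m) (z : OO A B) :
    ((m : ℕ) : OO A B) * z ≠ 1 := by
  intro h
  have h1 := congrArg QuadraticAlgebra.re h
  simp only [QuadraticAlgebra.re_mul, QuadraticAlgebra.re_natCast, QuadraticAlgebra.im_natCast,
    QuadraticAlgebra.re_one, mul_zero, zero_mul, add_zero] at h1
  have h2 : (m : ℤ) ∣ 1 := ⟨z.re, h1.symm⟩
  have h3 : m ∣ 1 := by exact_mod_cast h2
  have := Nat.le_of_dvd one_pos h3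
  omega

lemma nI_top {A B : ℤ} : nI (⊤ : Ideal (OO A B)) = 1 := by
  unfold nI
  have : Subsingleton (OO A B ⧸ (⊤ : Ideal (OO A B))) := Ideal.Quotient.subsingleton_iff.2 rfl
  exact Nat.card_of_subsingleton 0

lemma nI_pow {A B : ℤ} (hc : CQ A B) {c : Ideal (OO A B)} (hc0 : c ≠ ⊥) (j : ℕ) :
    c ^ j ≠ ⊥ ∧ nI (c ^ j) = nI c ^ j := by
  induction j with
  | zero =>
    rw [pow_zero, pow_zero, Ideal.one_eq_top]
    refine ⟨?_, nI_top⟩
    intro h
    have h1 : (1 : OO A B) ∈ (⊤ : Ideal (OO A B)) := trivial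
    rw [h, Ideal.mem_bot] at h1
    have := natCast_ne_zero' hc (n := 1) one_ne_zero
    rw [Nat.cast_one] at this
    exact this h1
  | succ j ih =>
    rw [pow_succ, pow_succ]
    exact ⟨mul_ne_bot hc ih.1 hc0, by rw [nI_mul hc ih.1 hc0, ih.2]⟩

end Xmx

open _root_.Pool.Agent.NSI.Xmx in
theorem tn_XMX (h1 : Si_XXF) (h2 : Si_ARF) (h3 : Si_LAY) : Sn_XMX := by
  intro p A B f hS hT ι R K Bn n h hLay hD
  let aD : Algebra (kk A B) ↥(K ⊔ Bn) := algC h
  intro hG γ hγ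
  have hQ := hS.cq
  obtain ⟨hq3, hqc⟩ := q0_facts hS.hp
  have hp0 : 0 < p := by rcases hS.hp with h | h <;> omega
  have hf1 : 1 ≤ f := Nat.one_le_iff_ne_zero.2 hS.f0
  have hpn : 1 ≤ p ^ n := Nat.one_le_pow _ _ hp0
  set m : ℕ := lvX p f n with hm
  set M : ℕ := q0 p * p ^ n with hM
  have hmM : m = f * M := by rw [hm, hM, lvX, mul_assoc]
  have hM3 : 3 ≤ M := by
    rw [hM]
    calc 3 = 3 * 1 := rfl
      _ ≤ q0 p * p ^ n := Nat.mul_le_mul hq3 hpn
  have hm3 : 3 ≤ m := by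
    rw [hmM]
    calc 3 = 1 * 3 := rfl
      _ ≤ f * M := Nat.mul_le_mul hf1 hM3
  have hm2 : 2 ≤ m := by omega
  have hM0 : M ≠ 0 := by omega
  have hm0 : idl (A := A) (B := B) m ≠ ⊥ := by
    rw [Ne, Ideal.span_singleton_eq_bot]
    exact natCast_ne_zero' hQ (by omega)
  have hcop : ∀ i, (nI (R.b i)).Coprime m := by
    intro i
    have h4 := R.cop i
    have h5 : (nI (R.b i)).Coprime p := h4.coprime_mul_right_right
    have h6 : (nI (R.b i)).Coprime f := h4.coprime_mul_left_right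
    rw [hmM, hM]
    exact h6.mul_right ((hqc _ h5).mul_right (h5.pow_right n))
  have hNL : ∃ (b : Ideal (OO A B)) (L : PeriodPair) (om : ℂ), IsNL b L om :=
    ⟨_, _, _, R.nl R.i0⟩
  obtain ⟨a1, -, a3, a4, a5, -, a7⟩ := h2 A B hQ hT hNL (idl m) hm0 (K ⊔ Bn) h hD hG
  obtain ⟨x1, x2⟩ := h1 A B hQ hT (p * f) ι R m hm2 hcop (K ⊔ Bn) h hD hG
  have hcomm : ∀ σ τ : ↥(K ⊔ Bn) ≃ₐ[kk A B] ↥(K ⊔ Bn), σ * τ = τ * σ := by
    intro σ τ
    obtain ⟨a, -, ha⟩ := a3 σ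
    obtain ⟨b, -, hb⟩ := a3 τ
    have h5 := a5 σ τ a b ha hb
    have h6 := a5 τ σ b a hb ha
    refine a4 _ _ _ _ h5 h6 ⟨1, 1, ?_, ?_, ?_, ?_, ?_⟩
    · have := natCast_ne_zero' hQ (n := 1) one_ne_zero
      rwa [Nat.cast_one] at this
    · have := natCast_ne_zero' hQ (n := 1) one_ne_zero
      rwa [Nat.cast_one] at this
    · rw [sp, Ideal.span_singleton_one, ← Ideal.one_eq_top]
      exact isCoprime_one_left
    · rw [sub_self]
      exact Ideal.zero_mem _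
    · rw [mul_comm a b]
  have hcopr : ∀ τ, ∀ q ∈ XX R m h τ,
      IsCoprime (Quotient.out q.2 : OO A B) ((m : ℕ) : OO A B) := fun τ q hq => hq.1
  refine ⟨hcomm, hcopr, fun q hq => (x2 q hq).1,
    fun q τ τ' hq hq' => (x2 q (hcopr τ q hq)).2 τ τ' hq hq', ?_⟩
  intro q τ hq j
  set ζ : ℂ := zt M with hζd
  have hζ : IsPrimitiveRoot ζ M := Complex.isPrimitiveRoot_exp M hM0
  have hζM : ζ ^ M = 1 := hζ.pow_eq_one
  have hBn : Bn = IntermediateField.adjoin ℚ {ζ + ζ⁻¹} := h3 p n hS.hp Bn hLay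
  have htB : ζ + ζ⁻¹ ∈ Bn := by
    rw [hBn]
    exact IntermediateField.mem_adjoin_simple_self ℚ _
  have htD : ζ + ζ⁻¹ ∈ K ⊔ Bn := (le_sup_right : Bn ≤ K ⊔ Bn) htB
  set y : ↥(K ⊔ Bn) := ⟨ζ + ζ⁻¹, htD⟩ with hy
  have hle : idl (A := A) (B := B) m ≤ idl M := by
    rw [Ideal.span_singleton_le_span_singleton, hmM]
    push_cast
    exact dvd_mul_left _ _
  -- the ideal of `τ`
  set x : OO A B := Quotient.out q.2 with hx
  have hxc : IsCoprime x ((m : ℕ) : OO A B) := hcopr τ q hq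
  have hqe : (q.1, Ideal.Quotient.mk (idl (A := A) (B := B) m) x) = q := by
    have h5 : Ideal.Quotient.mk (idl (A := A) (B := B) m) x = q.2 := Quotient.out_eq q.2
    rw [h5]
  have hAR : AR h (idl m) τ (sp x * cjI (R.b q.1)) := by
    refine (x1 τ q.1 x hxc).1 ?_
    rw [hqe]
    exact hq
  have hx0 : x ≠ 0 := by
    intro h0
    rw [h0, isCoprime_zero_left] at hxc
    obtain ⟨z, hz⟩ := hxc.exists_right_inv
    exact natCast_not_unit hm2 z hz
  have hb0 : R.b q.1 ≠ ⊥ := (R.nl q.1).b_ne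
  have hspx : sp x ≠ ⊥ := by
    rwa [Ne, Ideal.span_singleton_eq_bot]
  have hN : ((nI (sp x * cjI (R.b q.1)) : ℕ) : ℤ) = nm x * nI (R.b q.1) := by
    rw [nI_mul hQ hspx (cjI_ne_bot hQ hb0), nI_sp hQ hx0, nI_cjI hQ hb0]
    push_cast
    rw [abs_of_nonneg (nm_nonneg hQ x)]
  have e1 := a7 M τ _ ζ y hM0 hle hAR hζM rfl
  -- the ideal of `γ`
  obtain ⟨c, hcc, hc⟩ := a3 γ
  have hc0 : c ≠ ⊥ := by
    rintro rfl
    have h5 : IsUnit (idl (A := A) (B := B) m) := isCoprime_zero_left.1 hcc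
    rw [Ideal.isUnit_iff, Ideal.eq_top_iff_one] at h5
    obtain ⟨z, hz⟩ := Ideal.mem_span_singleton.1 h5
    exact natCast_not_unit hm2 z hz.symm
  have hARj : ∀ j : ℕ, AR h (idl m) (γ ^ j) (c ^ j) := by
    intro j
    induction j with
    | zero =>
      rw [pow_zero, pow_zero, Ideal.one_eq_top]
      exact a1
    | succ j ih =>
      rw [pow_succ, pow_succ]
      exact a5 _ _ _ _ ih hc
  have e2 := a7 M (γ ^ j) _ ζ y hM0 hle (hARj j) hζM rfl
  rw [(nI_pow hQ hc0 j).2] at e2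
  have e3 := a7 M γ _ ζ y hM0 hle hc hζM rfl
  have e4 := hγ y rfl
  rw [e3] at e4
  have e5 := (pm hM0 hζ _ _).1 e4
  have e6 := pw (M : ℤ) (nI c : ℤ) ((1 + q0 p : ℕ) : ℤ) e5 j
  -- the condition on `τ`
  have key : τ * (γ ^ j)⁻¹ ∈ NC h Bn ↔
      ((τ y : ↥(K ⊔ Bn)) : ℂ) = (((γ ^ j) y : ↥(K ⊔ Bn)) : ℂ) := by
    rw [hcomm τ (γ ^ j)⁻¹]
    constructor
    · intro hmem
      have h5 : ((γ ^ j)⁻¹ * τ) y = y := hmem y htB
      have h6 : τ y = (γ ^ j) y := by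
        have h7 : (γ ^ j) (((γ ^ j)⁻¹ * τ) y) = (γ ^ j) y := by rw [h5]
        rwa [← AlgEquiv.mul_apply, mul_inv_cancel_left] at h7
      rw [h6]
    · intro he
      have h5 : ∀ z : ↥(K ⊔ Bn), (z : ℂ) ∈ Bn → τ z = (γ ^ j) z := by
        intro z hz
        let φ : ↥(K ⊔ Bn) →+* ℂ := (algebraMap ↥(K ⊔ Bn) ℂ).comp (τ : ↥(K ⊔ Bn) →+* ↥(K ⊔ Bn))
        let ψ : ↥(K ⊔ Bn) →+* ℂ :=
          (algebraMap ↥(K ⊔ Bn) ℂ).comp ((γ ^ j : ↥(K ⊔ Bn) ≃ₐ[kk A B] ↥(K ⊔ Bn)) :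
            ↥(K ⊔ Bn) →+* ↥(K ⊔ Bn))
        exact Subtype.ext (eqB hBn φ ψ htD he z hz)
      intro z hz
      have h6 := h5 z hz
      show (γ ^ j)⁻¹ (τ z) = z
      rw [h6, ← AlgEquiv.mul_apply, inv_mul_cancel]
      rfl
  rw [key, e1, e2, pm hM0 hζ]
  rw [hN]
  push_cast
  push_cast at e6
  exact pm_iff (M : ℤ) _ _ _ e6

end

end Pool.Agent.NSI


end

section

/-!
# Module SUB of block IN: the fields `K B_n` are contained in the ray class fields
(the proof of `Pool/Agent/MUX/I_SUB.lean`, with `SetL`)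
-/

set_option autoImplicit false

namespace Pool.Agent.NSI

open _root_.MU3 _root_.Pool.Agent.MU3 _root_.Pool.Agent.MU3A _root_.Pool.Agent.MU3B _root_.Pool.Agent.RI _root_.Pool.Agent.RID
  _root_.Pool.Agent.MUX _root_.Pool.Agent.MUXK _root_.Pool.Agent.MUXI _root_.Pool.Agent.NS
open _root_.Pool.Agent.MU3I (w3 zt)

namespace IxSUB

theorem zt_pow (M : ℕ) (h : M ≠ 0) : zt M ^ M = 1 := by
  unfold Pool.Agent.MU3I.zt
  exact (Complex.isPrimitiveRoot_exp M h).pow_eq_one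

theorem q0_ne {p : ℕ} (h : p = 2 ∨ p = 3) : q0 p ≠ 0 := by
  rcases h with rfl | rfl <;> simp [q0]

theorem idl_ne {A B : ℤ} {M : ℕ} (h : M ≠ 0) : idl (A := A) (B := B) M ≠ ⊥ := by
  rw [ne_eq, Ideal.span_singleton_eq_bot]
  exact_mod_cast h

theorem idl_le {A B : ℤ} {M N : ℕ} (h : M ∣ N) : idl (A := A) (B := B) N ≤ idl M := by
  rw [Ideal.span_singleton_le_span_singleton]
  obtain ⟨c, rfl⟩ := h
  exact ⟨c, by push_cast; ring⟩

end IxSUB

open _root_.Pool.Agent.NSI.IxSUB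

/-- Module SUB. -/
theorem tn_SUB (h1 : Si_LAY) (h2 : Si_IAF) : Sn_SUB := by
  intro p A B f hS hT hL K hK n Bn hlay
  have hp : p = 2 ∨ p = 3 := hS.hp
  have hp0 : p ≠ 0 := by rcases hp with rfl | rfl <;> norm_num
  have hM : q0 p * p ^ n ≠ 0 := Nat.mul_ne_zero (IxSUB.q0_ne hp) (pow_ne_zero n hp0)
  have hlv : lvX p f n = f * (q0 p * p ^ n) := by unfold lvX; ring
  have hlv0 : lvX p f n ≠ 0 := by
    rw [hlv]; exact Nat.mul_ne_zero hS.f0 hM
  have hm := IxSUB.idl_ne (A := A) (B := B) hlv0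
  have hle : idl (A := A) (B := B) (lvX p f n) ≤ idl (q0 p * p ^ n) :=
    IxSUB.idl_le ⟨f, by rw [hlv]; ring⟩
  have hle0 : idl (A := A) (B := B) (lvX p f n) ≤ idl (lvX p f 0) :=
    IxSUB.idl_le ⟨p ^ n, by unfold lvX; ring⟩
  obtain ⟨i1, -, -, -, -, -, -, i8⟩ := h2 A B hS.cq hT hL _ hm
  obtain ⟨a, ha⟩ := i1 (RingEquiv.refl ℂ) rfl
  have hz := (i8 (q0 p * p ^ n) (RingEquiv.refl ℂ) a (zt (q0 p * p ^ n)) hM hle ha
    (IxSUB.zt_pow _ hM)).1
  have hBn : Bn ≤ IntermediateField.restrictScalars ℚ (RF (idl (A := A) (B := B) (lvX p f n))) := by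
    rw [h1 p n hp Bn hlay, IntermediateField.adjoin_le_iff]
    intro x hx
    rw [Set.mem_singleton_iff] at hx
    rw [hx]
    exact add_mem hz (inv_mem hz)
  have hK' : K ≤ IntermediateField.restrictScalars ℚ (RF (idl (A := A) (B := B) (lvX p f n))) := by
    intro x hx
    exact hT.mono _ _ hle0 (hK x hx)
  intro y hy
  exact (sup_le hK' hBn) hy

end Pool.Agent.NSI


end

section

/-!
# MUX-NS, block IN, module LEM1: one level is enough (helper36)

`(γ - 1)^(p^n - p^m)` is congruent modulo `p` to the norm from `K_n` to `K_m`.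
-/

set_option autoImplicit false

open NumberField IsDedekindDomain Finset
open scoped nonZeroDivisors Pointwise

namespace Pool.Agent.NSI

open _root_.Pool.Agent.MU3 _root_.Pool.Agent.RI _root_.Pool.Agent.RID _root_.Pool.Agent.MUXK

namespace LEM1

open Polynomial in
/-- the identity modulo `p` -/
theorem poly_zmod (p : ℕ) [hp : Fact p.Prime] (m n : ℕ) (hmn : m ≤ n) :
    ((X : (ZMod p)[X]) - 1) ^ (p ^ n - p ^ m) = ∑ i ∈ range (p ^ (n - m)), X ^ (p ^ m * i) := by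
  obtain ⟨t, rfl⟩ := Nat.exists_eq_add_of_le hmn
  rw [Nat.add_sub_cancel_left]
  have h1 : p ^ (m + t) - p ^ m = p ^ m * (p ^ t - 1) := by
    rw [pow_add, Nat.mul_sub, mul_one]
  have hq : 1 ≤ p ^ t := Nat.one_le_pow _ _ hp.out.pos
  have h2 : ((X : (ZMod p)[X]) - 1) ^ p ^ m = X ^ p ^ m - 1 := by
    rw [sub_pow_char_pow, one_pow]
  rw [h1, pow_mul, h2]
  have hY : (X : (ZMod p)[X]) ^ p ^ m - 1 ≠ 0 := by
    have h3 := Polynomial.X_pow_sub_C_ne_zero (R := ZMod p) (pow_pos hp.out.pos m) 1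
    rwa [map_one] at h3
  apply mul_right_cancel₀ hY
  rw [← pow_succ, Nat.sub_add_cancel hq, sub_pow_char_pow, one_pow]
  have h4 : ∑ i ∈ range (p ^ t), (X : (ZMod p)[X]) ^ (p ^ m * i) =
      ∑ i ∈ range (p ^ t), ((X : (ZMod p)[X]) ^ p ^ m) ^ i := by
    refine Finset.sum_congr rfl fun i _ => ?_
    rw [pow_mul]
  rw [h4, geom_sum_mul]

open Polynomial in
/-- the identity over `ℤ` -/
theorem poly_id (p : ℕ) [hp : Fact p.Prime] (m n : ℕ) (hmn : m ≤ n) :
    ∃ H : ℤ[X], ((X : ℤ[X]) - 1) ^ (p ^ n - p ^ m) =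
      ∑ i ∈ range (p ^ (n - m)), X ^ (p ^ m * i) + C (p : ℤ) * H := by
  have h1 : C (p : ℤ) ∣ ((X : ℤ[X]) - 1) ^ (p ^ n - p ^ m) -
      ∑ i ∈ range (p ^ (n - m)), X ^ (p ^ m * i) := by
    rw [Polynomial.C_dvd_iff_dvd_coeff]
    intro i
    rw [← ZMod.intCast_zmod_eq_zero_iff_dvd]
    have h2 : Polynomial.map (Int.castRingHom (ZMod p)) (((X : ℤ[X]) - 1) ^ (p ^ n - p ^ m) -
      ∑ i ∈ range (p ^ (n - m)), X ^ (p ^ m * i)) = 0 := by
      rw [Polynomial.map_sub, Polynomial.map_pow, Polynomial.map_sub, Polynomial.map_X,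
        Polynomial.map_one, Polynomial.map_sum]
      simp only [Polynomial.map_pow, Polynomial.map_X]
      rw [poly_zmod p m n hmn, sub_self]
    have h3 := congrArg (fun q => Polynomial.coeff q i) h2
    simp only [Polynomial.coeff_map, Polynomial.coeff_zero] at h3
    exact h3
  obtain ⟨H, hH⟩ := h1
  exact ⟨H, by rw [← hH]; ring⟩

section
variable {k L : Type} [Field k] [Field L] [Algebra k L]

/-- `T ^ (p ^ n - p ^ m)` is the norm modulo `p`-th powers -/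
theorem norm_id (p : ℕ) [hp : Fact p.Prime] (γ : L ≃ₐ[k] L) (m n : ℕ) (hmn : m ≤ n) {x : L}
    (hx : x ≠ 0) :
    ∃ w : L, w ≠ 0 ∧ (Tg γ)^[p ^ n - p ^ m] x =
      (∏ i ∈ range (p ^ (n - m)), (γ ^ (p ^ m * i)) x) * w ^ p := by
  obtain ⟨H, hH⟩ := poly_id p m n hmn
  have h1 := congrArg (Polynomial.aeval (K_TNX.act γ)) hH
  rw [map_pow, map_sub, Polynomial.aeval_X, map_one, map_add, map_sum, map_mul,
    Polynomial.aeval_C] at h1
  simp only [map_pow, Polynomial.aeval_X] at h1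
  set u : Additive Lˣ := Additive.ofMul (Units.mk0 x hx) with hu
  have hux : ((u.toMul : Lˣ) : L) = x := rfl
  refine ⟨((((Polynomial.aeval (K_TNX.act γ)) H) u).toMul : Lˣ), Units.ne_zero _, ?_⟩
  have h2 := K_TNX.sub_act_pow γ (p ^ n - p ^ m) u
  rw [hux] at h2
  rw [← h2, h1]
  have h3 : (∑ i ∈ range (p ^ (n - m)), K_TNX.act γ ^ (p ^ m * i) +
      (algebraMap ℤ (Module.End ℤ (Additive Lˣ))) (p : ℤ) *
        (Polynomial.aeval (K_TNX.act γ)) H) u =
      (∑ i ∈ range (p ^ (n - m)), (K_TNX.act γ ^ (p ^ m * i)) u) +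
        p • ((Polynomial.aeval (K_TNX.act γ)) H u) := by
    rw [LinearMap.add_apply, LinearMap.sum_apply, Module.End.mul_apply,
      Module.algebraMap_end_apply, natCast_zsmul]
  rw [h3, toMul_add, toMul_nsmul, Units.val_mul, Units.val_pow_eq_pow_val]
  congr 1
  have h4 : ((((∑ i ∈ range (p ^ (n - m)), (K_TNX.act γ ^ (p ^ m * i)) u).toMul : Lˣ)) : L) =
      ∏ i ∈ range (p ^ (n - m)), ((((K_TNX.act γ ^ (p ^ m * i)) u).toMul : Lˣ) : L) := by
    rw [toMul_sum, Units.coe_prod]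
  rw [h4]
  refine Finset.prod_congr rfl fun i _ => ?_
  rw [K_TNX.act_pow, hux]

theorem Tg_prod (comm : ∀ σ τ : L ≃ₐ[k] L, σ * τ = τ * σ) (g : L ≃ₐ[k] L)
    (D : Subgroup (L ≃ₐ[k] L)) [Fintype D] (b : D → ℕ) (x : L) :
    Tg g (∏ δ : D, ((δ : L ≃ₐ[k] L) x) ^ b δ) = ∏ δ : D, ((δ : L ≃ₐ[k] L) (Tg g x)) ^ b δ := by
  unfold Tg
  rw [map_prod, ← prod_div_distrib]
  refine prod_congr rfl fun δ _ => ?_
  rw [map_pow, ← div_pow]
  congr 1
  have e2 : (δ : L ≃ₐ[k] L) (g x / x) = (δ : L ≃ₐ[k] L) (g x) / (δ : L ≃ₐ[k] L) x :=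
    map_div₀ _ _ _
  have e3 : g ((δ : L ≃ₐ[k] L) x) = (δ : L ≃ₐ[k] L) (g x) :=
    congrArg (fun f : L ≃ₐ[k] L => f x) (comm g (δ : L ≃ₐ[k] L))
  rw [e2, e3]

theorem Tg_prod_iter (comm : ∀ σ τ : L ≃ₐ[k] L, σ * τ = τ * σ) (g : L ≃ₐ[k] L)
    (D : Subgroup (L ≃ₐ[k] L)) [Fintype D] (b : D → ℕ) (i : ℕ) (x : L) :
    (Tg g)^[i] (∏ δ : D, ((δ : L ≃ₐ[k] L) x) ^ b δ) =
      ∏ δ : D, ((δ : L ≃ₐ[k] L) ((Tg g)^[i] x)) ^ b δ := by
  induction i generalizing x with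
  | zero => rfl
  | succ i ih =>
    rw [Function.iterate_succ_apply, Tg_prod comm, ih, Function.iterate_succ_apply]

theorem core {M : Type} [Field M] [Algebra k M] (p : ℕ) [hp : Fact p.Prime] (j : M →+* L)
    (r : (L ≃ₐ[k] L) →* (M ≃ₐ[k] M))
    (hr : ∀ (σ : L ≃ₐ[k] L) (x : M), j (r σ x) = σ (j x))
    (comm : ∀ σ τ : L ≃ₐ[k] L, σ * τ = τ * σ) (γ : L ≃ₐ[k] L) (m n N : ℕ) (hmn : m ≤ n)
    (hN : N ≤ p ^ n - p ^ m)
    (hfix : ∀ x : L, (γ ^ (p ^ m)) x = x ↔ ∃ z : M, j z = x)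
    (D : Subgroup (L ≃ₐ[k] L)) [Fintype D] (D' : Subgroup (M ≃ₐ[k] M)) [Fintype D']
    (e : D ≃* D') (he : ∀ δ : D, ((e δ : D') : M ≃ₐ[k] M) = r δ)
    (cn : L) (hcn : cn ≠ 0) (cm : M) (hcm : cm ≠ 0) (C : L) (hC : C ≠ 0)
    (hCγ : γ C = C)
    (hnrm : ∏ i ∈ range (p ^ (n - m)), (γ ^ (p ^ m * i)) cn = C * j cm)
    (hω : ∀ w : L, w ^ p = 1 → γ w = w) (b : D → ℕ) (b' : D' → ℕ)
    (hb : ∀ δ, b δ = b' (e δ)) (y : L)
    (hy : y ^ p = ∏ δ : D, ((δ : L ≃ₐ[k] L) ((Tg γ)^[N] cn)) ^ b δ) :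
    ∃ t : M, t ^ p = ∏ δ : D', ((δ : M ≃ₐ[k] M) (Tg (r γ) cm)) ^ b' δ := by
  have hp0 : p ≠ 0 := hp.out.ne_zero
  -- apply `T ^ (Q - N)`
  obtain ⟨i, hi⟩ := Nat.exists_eq_add_of_le hN
  have hy1 : ((Tg γ)^[i] y) ^ p =
      ∏ δ : D, ((δ : L ≃ₐ[k] L) ((Tg γ)^[p ^ n - p ^ m] cn)) ^ b δ := by
    rw [← K_TNX.iter_pow, hy, Tg_prod_iter comm, ← Function.iterate_add_apply, hi, Nat.add_comm i N]
  obtain ⟨w, hw0, hw⟩ := norm_id p γ m n hmn hcn
  rw [hnrm] at hw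
  rw [hw] at hy1
  set y1 : L := (Tg γ)^[i] y with hy1d
  set W : L := ∏ δ : D, ((δ : L ≃ₐ[k] L) w) ^ b δ with hW
  have hW0 : W ≠ 0 := by
    rw [hW, prod_ne_zero_iff]
    intro δ _
    exact pow_ne_zero _ ((_root_.map_ne_zero _).mpr hw0)
  set s : L := ∏ δ : D, ((δ : L ≃ₐ[k] L) (C * j cm)) ^ b δ with hs
  have hjcm : j cm ≠ 0 := (_root_.map_ne_zero _).mpr hcm
  have hs0 : s ≠ 0 := by
    rw [hs, prod_ne_zero_iff]
    intro δ _
    exact pow_ne_zero _ ((_root_.map_ne_zero _).mpr (mul_ne_zero hC hjcm))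
  have hy2 : (y1 / W) ^ p = s := by
    rw [div_pow, div_eq_iff (pow_ne_zero _ hW0), hy1, hW, hs, ← prod_pow, ← prod_mul_distrib]
    refine prod_congr rfl fun δ _ => ?_
    rw [map_mul _ (C * j cm) (w ^ p), map_pow, mul_pow]
    congr 1
    rw [← pow_mul, ← pow_mul, mul_comm]
  set y2 : L := y1 / W with hy2d
  have hy20 : y2 ≠ 0 := by
    intro h
    rw [h, zero_pow hp0] at hy2
    exact hs0 hy2.symm
  -- `T s`
  have hCTg : Tg γ (C * j cm) = j (Tg (r γ) cm) := by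
    unfold Tg
    rw [map_mul, hCγ, mul_div_mul_left _ _ hC, map_div₀, hr]
  have hTs : Tg γ s = j (∏ δ : D', ((δ : M ≃ₐ[k] M) (Tg (r γ) cm)) ^ b' δ) := by
    rw [hs, Tg_prod comm, hCTg, map_prod, ← e.toEquiv.prod_comp]
    refine prod_congr rfl fun δ _ => ?_
    rw [map_pow, hb δ]
    congr 1
    rw [← hr]
    congr 1
    show (r δ) _ = ((e δ : D') : M ≃ₐ[k] M) _
    rw [he]
  -- `h` fixes `s`
  set h : L ≃ₐ[k] L := γ ^ (p ^ m) with hh
  have hhC : h C = C := by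
    have h5 : ∀ i : ℕ, (γ ^ i) C = C := by
      intro i
      induction i with
      | zero => rfl
      | succ i ih => rw [pow_succ, AlgEquiv.mul_apply, hCγ, ih]
    exact h5 _
  have hhj : ∀ z : M, h (j z) = j z := fun z => (hfix _).2 ⟨z, rfl⟩
  have hhδ : ∀ δ : D, h ((δ : L ≃ₐ[k] L) (C * j cm)) = (δ : L ≃ₐ[k] L) (C * j cm) := by
    intro δ
    have e3 : h ((δ : L ≃ₐ[k] L) (C * j cm)) = (δ : L ≃ₐ[k] L) (h (C * j cm)) :=
      congrArg (fun f : L ≃ₐ[k] L => f (C * j cm)) (comm h (δ : L ≃ₐ[k] L))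
    rw [e3, map_mul, hhC, hhj]
  have hhs : h s = s := by
    rw [hs, map_prod]
    refine prod_congr rfl fun δ _ => ?_
    rw [map_pow, hhδ]
  have hhy : h y2 ≠ 0 := (_root_.map_ne_zero _).mpr hy20
  have hw3 : (h y2 / y2) ^ p = 1 := by
    rw [div_pow, ← map_pow, hy2, hhs, div_self hs0]
  have hwγ : γ (h y2 / y2) = h y2 / y2 := hω _ hw3
  have hcomm : ∀ x : L, h (γ x) = γ (h x) := fun x =>
    congrArg (fun f : L ≃ₐ[k] L => f x) (comm h γ)
  have hγy : γ y2 ≠ 0 := (_root_.map_ne_zero _).mpr hy20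
  have ht : h (Tg γ y2) = Tg γ y2 := by
    unfold Tg
    rw [map_div₀, hcomm]
    rw [map_div₀] at hwγ
    rw [div_eq_div_iff hγy hy20] at hwγ
    rw [div_eq_div_iff hhy hy20, hwγ, mul_comm]
  obtain ⟨t, htj⟩ := (hfix _).mp ht
  refine ⟨t, ?_⟩
  apply j.injective
  rw [map_pow, htj, ← hTs, ← hy2, K_TNX.Tg_pow]

end

/-- the inclusion -/
theorem incl {E E' : IntermediateField ℚ ℂ} (h : E ≤ E') :
    ∃ j : E →+* E', ∀ z, ((j z : E') : ℂ) = z :=
  ⟨(IntermediateField.inclusion h).toRingHom, fun _ => rfl⟩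

end LEM1

/-- (LEM1) one level is enough -/
theorem tn_LEM1 (h1 : S_GALX) (h2 : S_RSX) : Sn_LEM1 := by
  intro F _ p hp k K B _ _ hB hcop hom hk hkK c₀ mem hne n₁ hN χ h3 N n₀
  obtain ⟨m, hm1, hm2⟩ := h3 n₁
  have hpos : 0 < p := hp.out.pos
  obtain ⟨n, hn⟩ : ∃ n, n = m + (N + n₀) := ⟨_, rfl⟩
  refine ⟨n, by omega, ?_⟩
  have hmn : m ≤ n := by omega
  have hQ : N ≤ p ^ n - p ^ m := by
    have e1 : p ^ n - p ^ m = p ^ m * (p ^ (N + n₀) - 1) := by
      rw [hn, pow_add, Nat.mul_sub, mul_one]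
    have e2 : 1 ≤ p ^ m := Nat.one_le_pow _ _ hpos
    have e3 : N + n₀ < p ^ (N + n₀) := Nat.lt_pow_self hp.out.one_lt
    rw [e1]
    calc N ≤ 1 * (p ^ (N + n₀) - 1) := by omega
      _ ≤ p ^ m * (p ^ (N + n₀) - 1) := Nat.mul_le_mul_right _ e2
  let _ := algC (hk n)
  let _ := algC (hk m)
  let _ := algC hkK
  intro γ hγ _ r hr
  have hsub : K ⊔ B m ≤ K ⊔ B n := sup_le_sup_left (hB.mono hmn) K
  obtain ⟨r', hr', hrγ, e, he⟩ := h2 p k K B hB hcop m n hmn (hk n) (hk m) hsub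
  obtain ⟨ρm, hρm⟩ := I3X19.restr h2 p k K B hB hcop hkK m (hk m)
  obtain ⟨hr1, hr2⟩ := hrγ γ hγ
  let _ : Fintype (NC (hk m) (B m)) := Fintype.ofEquiv _ e.toEquiv
  obtain ⟨θ, hθ⟩ := hm2 (r' γ) hr1 (fun δ => ρm δ) hρm
  have hρ : ∀ δ, ρm (e δ) = r δ := by
    intro δ
    refine AlgEquiv.ext fun x => Subtype.ext ?_
    have hx1 : (x : ℂ) ∈ K ⊔ B m := le_sup_left (a := K) x.2
    rw [← hρm (e δ) x ⟨x, hx1⟩ rfl, ← hr δ x ⟨x, hsub hx1⟩ rfl, he]
    exact hr' _ ⟨x, hx1⟩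
  refine ⟨θ, fun y hy => ?_⟩
  obtain ⟨ω, hωK, hω1⟩ := hom
  obtain ⟨C, hCk, hC0, hC⟩ := hN m n hm1 hmn γ hγ
  have hKn : K ≤ K ⊔ B n := le_sup_left
  obtain ⟨j, hj⟩ := LEM1.incl hsub
  have hj' : ∀ z : ↥(K ⊔ B m), j z = ⟨z, hsub z.2⟩ := fun z => Subtype.ext (hj z)
  have b1 : ∀ (σ : ↥(K ⊔ B n) ≃ₐ[k] ↥(K ⊔ B n)) (x : ↥(K ⊔ B m)), j (r' σ x) = σ (j x) := by
    intro σ x
    apply Subtype.ext
    rw [hj, hr', hj']
  have b2 : ∀ x : ↥(K ⊔ B n), (γ ^ (p ^ m)) x = x ↔ ∃ z : ↥(K ⊔ B m), j z = x := by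
    intro x
    rw [hr2 x]
    constructor
    · intro hx
      exact ⟨⟨x, hx⟩, Subtype.ext (hj _)⟩
    · rintro ⟨z, rfl⟩
      rw [hj]
      exact z.2
  have b3 : (⟨C, hKn hCk⟩ : ↥(K ⊔ B n)) ≠ 0 := by
    intro h; exact hC0 (congrArg Subtype.val h)
  have b4 : γ (⟨C, hKn hCk⟩ : ↥(K ⊔ B n)) = ⟨C, hKn hCk⟩ := (hγ _).2 hCk
  have b5 : ∏ i ∈ range (p ^ (n - m)), (γ ^ (p ^ m * i)) ⟨c₀ n, mem n⟩ =
      ⟨C, hKn hCk⟩ * j ⟨c₀ m, mem m⟩ := by
    apply Subtype.ext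
    rw [hC, hj']
    rfl
  have b6 : ∀ w : ↥(K ⊔ B n), w ^ p = 1 → γ w = w := by
    intro w hw
    rw [hγ w]
    have hw' : (w : ℂ) ^ p = 1 := congrArg Subtype.val hw
    have : NeZero p := ⟨hpos.ne'⟩
    obtain ⟨i, _, hi⟩ := hω1.eq_pow_of_pow_eq_one hw'
    rw [← hi]
    exact K.pow_mem hωK i
  have b7 : (⟨c₀ n, mem n⟩ : ↥(K ⊔ B n)) ≠ 0 := by
    intro h; exact hne n (congrArg Subtype.val h)
  have b8 : (⟨c₀ m, mem m⟩ : ↥(K ⊔ B m)) ≠ 0 := by
    intro h; exact hne m (congrArg Subtype.val h)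
  obtain ⟨t, ht⟩ := LEM1.core (M := ↥(K ⊔ B m)) p
    j r' b1
    (h1 p k K B hB n (hk n)).2 γ m n N hmn hQ b2 (NC (hk n) (B n)) (NC (hk m) (B m)) e he
    ⟨c₀ n, mem n⟩ b7 ⟨c₀ m, mem m⟩ b8 ⟨C, hKn hCk⟩ b3 b4 b5 b6
    (fun δ => (θ ((χ (r δ))⁻¹ : Fˣ)).val) (fun δ => (θ ((χ (ρm δ))⁻¹ : Fˣ)).val)
    (fun δ => by rw [hρ]) y hy
  refine hθ t (ht.trans ?_)
  refine prod_congr rfl fun δ _ => ?_
  rw [Function.iterate_one]

end Pool.Agent.NSI


end

section

/-!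
# MUX, block IX: the ideals `P`, `cjI P`, `(f)` (module PQF)
-/

set_option autoImplicit false

namespace Pool.Agent.MUXI

open _root_.MU3 _root_.Pool.Agent.MU3 _root_.Pool.Agent.MU3A _root_.Pool.Agent.MU3B _root_.Pool.Agent.RI _root_.Pool.Agent.RID
  _root_.Pool.Agent.MUX _root_.Pool.Agent.MUXE _root_.Pool.Agent.MUXK
open _root_.Pool.Agent.MU3I (w3 zt)

noncomputable section

namespace PQFaux

variable {A B : ℤ}

lemma int_dvd (n c : ℤ) : ((n : ℤ) : OO A B) ∣ ((c : ℤ) : OO A B) ↔ n ∣ c := by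
  constructor
  · rintro ⟨y, hy⟩
    have h1 := congrArg QuadraticAlgebra.re hy
    simp at h1
    exact ⟨y.re, h1⟩
  · rintro ⟨y, rfl⟩
    exact ⟨(y : OO A B), by push_cast; ring⟩

lemma re_int (c : ℤ) : ((c : ℤ) : OO A B).re = c := by simp

lemma im_int (c : ℤ) : ((c : ℤ) : OO A B).im = 0 := by simp

lemma trace (y : OO A B) : ∃ t : ℤ, y + star y = ((t : ℤ) : OO A B) := by
  refine ⟨2 * y.re + B * y.im, ?_⟩
  apply QuadraticAlgebra.ext
  · rw [re_int, QuadraticAlgebra.re_add, QuadraticAlgebra.re_star]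
    ring
  · rw [im_int, QuadraticAlgebra.im_add, QuadraticAlgebra.im_star]
    ring

lemma star_int (c : ℤ) : star ((c : ℤ) : OO A B) = (c : OO A B) := by simp

lemma mem_cjI (P : Ideal (OO A B)) (x : OO A B) : x ∈ cjI P ↔ star x ∈ P := Iff.rfl

lemma cop_mono {R : Type} [CommRing R] {I J K : Ideal R} (h : IsCoprime I J) (hJK : J ≤ K) :
    IsCoprime I K := by
  rw [Ideal.isCoprime_iff_exists] at h ⊢
  obtain ⟨i, hi, j, hj, hij⟩ := h
  exact ⟨i, hi, j, hJK hj, hij⟩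

end PQFaux

open _root_.Pool.Agent.MUXI.PQFaux in
theorem ti_PQF (h2 : Pool.Agent.MUXF.Sx_IDL) : Si_PQF := by
  intro p A B P V f hS
  have hpp : p = 3 ∨ p = 2 := by
    rcases hS.case.split with h | h
    · exact Or.inl h.1
    · exact Or.inr h.1
  have hprime : p.Prime := by
    rcases hpp with rfl | rfl <;> norm_num
  have hPp : P.IsPrime := hS.hP.prime
  have hpP : ((p : ℕ) : OO A B) ∈ P := hS.hP.mem
  have h1P : (1 : OO A B) ∉ P := fun h => hPp.ne_top ((Ideal.eq_top_iff_one P).2 h)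
  have hp0 : p ≠ 0 := hprime.ne_zero
  -- integers in `P`
  have hint : ∀ c : ℤ, (c : OO A B) ∈ P ↔ (p : ℤ) ∣ c := by
    intro c
    constructor
    · intro hc
      by_contra hpc
      have hcop : IsCoprime (p : ℤ) c :=
        (Int.prime_iff_natAbs_prime.2 (by simpa using hprime)).coprime_iff_not_dvd.2 hpc
      obtain ⟨u, v, huv⟩ := hcop
      apply h1P
      have h3 : ((u : ℤ) : OO A B) * (p : ℕ) + (v : ℤ) * (c : ℤ) = 1 := by
        have := congrArg (Int.cast : ℤ → OO A B) huv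
        push_cast at this
        exact this
      rw [← h3]
      exact P.add_mem (P.mul_mem_left _ hpP) (P.mul_mem_left _ hc)
    · rintro ⟨y, rfl⟩
      push_cast
      exact P.mul_mem_right _ hpP
  -- `P ≠ ⊥`
  have hPb : P ≠ ⊥ := by
    rintro rfl
    rw [Ideal.mem_bot] at hpP
    have h3 : ((p : ℤ) : OO A B) = 0 := by exact_mod_cast hpP
    have h4 := congrArg QuadraticAlgebra.re h3
    rw [re_int] at h4
    simp at h4
    exact hp0 h4
  have hnorm : Nat.card (OO A B ⧸ P) = p := hS.hP.norm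
  -- every class modulo `P` contains an integer
  have hcls : ∀ x : OO A B, ∃ c : Fin p, x - ((c : ℕ) : OO A B) ∈ P := by
    have hfin : Finite (OO A B ⧸ P) := Nat.finite_of_card_ne_zero (by rw [hnorm]; exact hp0)
    let φ : Fin p → OO A B ⧸ P := fun c => Ideal.Quotient.mk P ((c : ℕ) : OO A B)
    have hφ : Function.Injective φ := by
      intro c c' hcc
      have h3 : ((c : ℕ) : OO A B) - ((c' : ℕ) : OO A B) ∈ P := Ideal.Quotient.eq.1 hcc
      have h4 : (((c : ℕ) - (c' : ℕ) : ℤ) : OO A B) ∈ P := by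
        push_cast
        exact h3
      rw [hint] at h4
      obtain ⟨y, hy⟩ := h4
      have hc := c.2
      have hc' := c'.2
      have hy0 : y = 0 := by
        by_contra hne
        rcases lt_or_gt_of_ne hne with h | h <;> nlinarith
      rw [hy0] at hy
      apply Fin.ext
      omega
    have hb := hφ.bijective_of_nat_card_le (by rw [hnorm]; simp)
    intro x
    obtain ⟨c, hc⟩ := hb.2 (Ideal.Quotient.mk P x)
    exact ⟨c, Ideal.Quotient.eq.1 hc.symm⟩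
  have hthree : ∀ x : OO A B, x ∈ P ∨ x - 1 ∈ P ∨ x + 1 ∈ P := by
    intro x
    obtain ⟨c, hc⟩ := hcls x
    have hc2 := c.2
    obtain ⟨c', hc'⟩ : ∃ c' : ℕ, c' = (c : ℕ) := ⟨_, rfl⟩
    rw [← hc'] at hc
    have hc3 : c' = 0 ∨ c' = 1 ∨ (c' = 2 ∧ p = 3) := by omega
    rcases hc3 with rfl | rfl | ⟨rfl, rfl⟩
    · left; simpa using hc
    · right; left; simpa using hc
    · right; right
      have h3 := P.add_mem hc hpP
      have h4 : x - ((2 : ℕ) : OO A B) + ((3 : ℕ) : OO A B) = x + 1 := by push_cast; ring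
      rwa [h4] at h3
  -- the product
  have hPQ : P * cjI P = idl (A := A) (B := B) p := by
    have h3 := (h2 A B ⟨hS.case.hB, hS.case.neg, hS.case.fund1, hS.case.fund0⟩ P hPb).2
    have h4 : MUXF.nI P = p := hnorm
    rw [h4] at h3
    exact h3
  -- coprime
  have hcop : IsCoprime P (cjI P) := by
    obtain ⟨c, hc⟩ := hcls (⟨0, 1⟩ : OO A B)
    obtain ⟨k, hk⟩ : ∃ k : ℤ, k = ((c : ℕ) : ℤ) := ⟨_, rfl⟩
    have hc' : (⟨0, 1⟩ : OO A B) - ((k : ℤ) : OO A B) ∈ P := by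
      rw [hk]
      simpa using hc
    set y : OO A B := (⟨0, 1⟩ : OO A B) - ((k : ℤ) : OO A B) with hy
    have hyre : y.re = -k := by simp [hy]
    have hyim : y.im = 1 := by simp [hy]
    have hnm : y * star y = ((k ^ 2 - B * k - A : ℤ) : OO A B) := by
      apply QuadraticAlgebra.ext
      · rw [re_int, QuadraticAlgebra.re_mul, QuadraticAlgebra.re_star, QuadraticAlgebra.im_star,
          hyre, hyim]
        ring
      · rw [im_int, QuadraticAlgebra.im_mul, QuadraticAlgebra.re_star, QuadraticAlgebra.im_star,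
          hyre, hyim]
        ring
    have hdvd : (p : ℤ) ∣ k ^ 2 - B * k - A := by
      rw [← hint, ← hnm]
      exact P.mul_mem_right _ hc'
    have htr : y + star y = ((B - 2 * k : ℤ) : OO A B) := by
      apply QuadraticAlgebra.ext
      · rw [re_int, QuadraticAlgebra.re_add, QuadraticAlgebra.re_star, hyre, hyim]
        ring
      · rw [im_int, QuadraticAlgebra.im_add, QuadraticAlgebra.im_star]
        ring
    have hpD : (p : ℤ) ∣ B ^ 2 + 4 * A - 1 := by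
      rcases hS.case.split with ⟨rfl, h⟩ | ⟨rfl, h⟩
      · exact_mod_cast h
      · exact (by norm_num : ((2 : ℕ) : ℤ) ∣ 8).trans h
    -- `B - 2 k` is prime to `p`
    have hu : (p : ℤ) ∣ (B - 2 * k) ^ 2 - 1 := by
      have h3 : (B - 2 * k) ^ 2 - 1 = (B ^ 2 + 4 * A - 1) + 4 * (k ^ 2 - B * k - A) := by ring
      rw [h3]
      exact dvd_add hpD (hdvd.mul_left _)
    obtain ⟨r, hr⟩ := hu
    rw [Ideal.isCoprime_iff_exists]
    refine ⟨((B - 2 * k : ℤ) : OO A B) * y - ((r : ℤ) : OO A B) * ((p : ℕ) : OO A B), ?_,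
      ((B - 2 * k : ℤ) : OO A B) * star y, ?_, ?_⟩
    · exact P.sub_mem (P.mul_mem_left _ hc') (P.mul_mem_left _ hpP)
    · refine (cjI P).mul_mem_left _ ?_
      rw [mem_cjI, star_star]
      exact hc'
    · have h4 : ((((B - 2 * k) ^ 2 - 1 : ℤ)) : OO A B) = (((p : ℤ) * r : ℤ) : OO A B) := by
        rw [hr]
      push_cast at h4 htr ⊢
      linear_combination ((B : OO A B) - 2 * k) * htr + h4
  have hpQ : ((p : ℕ) : OO A B) ∈ cjI P := by
    rw [mem_cjI]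
    have h3 : star ((p : ℕ) : OO A B) = ((p : ℕ) : OO A B) := by simp
    rw [h3]
    exact hpP
  -- `(f)`
  have hfp : IsCoprime (f : ℤ) (p : ℤ) := by
    rw [Nat.isCoprime_iff_coprime]
    exact ((Nat.Prime.coprime_iff_not_dvd hprime).2 hS.fp).symm
  obtain ⟨u, v, huv⟩ := hfp
  have huv' : ((u : ℤ) : OO A B) * (f : ℕ) + (v : ℤ) * (p : ℕ) = 1 := by
    have := congrArg (Int.cast : ℤ → OO A B) huv
    push_cast at this
    exact this
  have hfI : ∀ I : Ideal (OO A B), ((p : ℕ) : OO A B) ∈ I →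
      IsCoprime (idl (A := A) (B := B) f) I := by
    intro I hI
    rw [Ideal.isCoprime_iff_exists]
    exact ⟨_, Ideal.mul_mem_left _ _ (Ideal.subset_span rfl), _, I.mul_mem_left _ hI, huv'⟩
  have hfP := hfI P hpP
  have hfQ := hfI (cjI P) hpQ
  have hq0 : q0 p = p ∨ q0 p = p ^ 2 := by
    rcases hpp with rfl | rfl <;> simp [q0]
  have hpow : ∀ n : ℕ, ∃ k : ℕ, q0 p * p ^ n = p ^ (k + 1) := by
    intro n
    rcases hq0 with h | h
    · exact ⟨n, by rw [h]; ring⟩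
    · exact ⟨n + 1, by rw [h]; ring⟩
  have h8 : ∀ (n : ℕ) (x : OO A B), IsCoprime x ((lvX p f n : ℕ) : OO A B) ↔
      x ∉ P ∧ IsCoprime (sp x) (idl f * cjI P) := by
    intro n x
    obtain ⟨k, hk⟩ := hpow n
    have hlv : ((lvX p f n : ℕ) : OO A B) = ((f : ℕ) : OO A B) * ((p : ℕ) : OO A B) ^ (k + 1) := by
      unfold lvX
      rw [mul_assoc, hk]
      push_cast
      ring
    rw [hlv]
    constructor
    · intro h
      constructor
      · intro hx
        obtain ⟨a, b, hab⟩ := h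
        apply h1P
        rw [← hab]
        refine P.add_mem (P.mul_mem_left _ hx) (P.mul_mem_left _ (P.mul_mem_left _ ?_))
        rw [pow_succ]
        exact P.mul_mem_left _ hpP
      · have h3 : IsCoprime (sp x)
            (sp (((f : ℕ) : OO A B) * ((p : ℕ) : OO A B) ^ (k + 1))) :=
          (Ideal.isCoprime_span_singleton_iff _ _).2 h
        refine cop_mono h3 ?_
        rw [Ideal.span_singleton_le_iff_mem]
        refine Ideal.mul_mem_mul (Ideal.subset_span rfl) ?_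
        rw [pow_succ]
        exact (cjI P).mul_mem_left _ hpQ
    · rintro ⟨hx, h⟩
      have h3 : IsCoprime (sp x) (sp ((f : ℕ) : OO A B)) := cop_mono h Ideal.mul_le_left
      have h4 : IsCoprime (sp x) (cjI P) := cop_mono h Ideal.mul_le_right
      have h5 : IsCoprime (sp x) P := by
        rw [Ideal.isCoprime_iff_exists]
        rcases hthree x with h6 | h6 | h6
        · exact absurd h6 hx
        · exact ⟨x, Ideal.subset_span rfl, _, P.neg_mem h6, by ring⟩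
        · exact ⟨-x, neg_mem (Ideal.subset_span rfl), _, h6, by ring⟩
      have h6 : IsCoprime (sp x) (sp ((p : ℕ) : OO A B)) := by
        have := h5.mul_right h4
        rwa [hPQ] at this
      have h7 : IsCoprime x ((p : ℕ) : OO A B) := (Ideal.isCoprime_span_singleton_iff _ _).1 h6
      have h8 : IsCoprime x ((f : ℕ) : OO A B) := (Ideal.isCoprime_span_singleton_iff _ _).1 h3
      exact h8.mul_right (h7.pow_right)
  have h9 : ∀ x : OO A B, IsCoprime (sp x) (idl f * cjI P) → ∃ x' : OO A B,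
      x' - x ∈ idl f * cjI P ∧ IsCoprime x' ((lvX p f 0 : ℕ) : OO A B) := by
    intro x hx
    have h3 : IsCoprime (idl (A := A) (B := B) f * cjI P) P := hfP.mul_left hcop.symm
    rw [Ideal.isCoprime_iff_exists] at h3
    obtain ⟨a, ha, b, hb, hab⟩ := h3
    have h4 : x + a * (1 - x) - x ∈ idl (A := A) (B := B) f * cjI P := by
      have : x + a * (1 - x) - x = a * (1 - x) := by ring
      rw [this]
      exact Ideal.mul_mem_right _ _ ha
    refine ⟨x + a * (1 - x), h4, (h8 0 _).2 ⟨?_, ?_⟩⟩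
    · intro h5
      apply h1P
      have h6 : (1 : OO A B) = (x + a * (1 - x)) + (1 - x) * b := by
        linear_combination (x - 1) * hab
      rw [h6]
      exact P.add_mem h5 (P.mul_mem_left _ hb)
    · rw [Ideal.isCoprime_iff_exists] at hx ⊢
      obtain ⟨i, hi, j, hj, hij⟩ := hx
      obtain ⟨r, rfl⟩ := Ideal.mem_span_singleton.1 hi
      refine ⟨(x + a * (1 - x)) * r, Ideal.mul_mem_right _ _ (Ideal.subset_span rfl),
        j - (x + a * (1 - x) - x) * r, Ideal.sub_mem _ hj (Ideal.mul_mem_right _ _ h4), ?_⟩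
      linear_combination hij
  refine ⟨hthree, h1P, hint, hPQ, hcop, hfP, hfQ, h8, h9, ?_⟩
  -- the case `p = 2`
  rintro rfl
  have h4P : ((4 : ℤ) : OO A B) ∈ P ^ 2 := by
    have h3 : ((4 : ℤ) : OO A B) = ((2 : ℕ) : OO A B) * ((2 : ℕ) : OO A B) := by
      push_cast
      norm_num
    rw [h3, pow_two]
    exact Ideal.mul_mem_mul hpP hpP
  have hstarP : ∀ x ∈ P ^ 2, star x ∈ (cjI P) ^ 2 := by
    intro x hx
    have h3 : P ^ 2 ≤ ((cjI P) ^ 2).comap (starRingEnd (OO A B)) := by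
      rw [pow_two, Ideal.mul_le]
      intro r hr s hs
      rw [Ideal.mem_comap, map_mul, pow_two]
      refine Ideal.mul_mem_mul ?_ ?_
      · change star r ∈ cjI P
        rw [mem_cjI, star_star]
        exact hr
      · change star s ∈ cjI P
        rw [mem_cjI, star_star]
        exact hs
    exact h3 hx
  have hcop2 : IsCoprime (P ^ 2) ((cjI P) ^ 2) := hcop.pow
  have hint2 : ∀ c : ℤ, (c : OO A B) ∈ P ^ 2 ↔ (4 : ℤ) ∣ c := by
    intro c
    constructor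
    · intro hc
      have h3 : (c : OO A B) ∈ (cjI P) ^ 2 := by
        have := hstarP _ hc
        rwa [star_int] at this
      have h5 : (c : OO A B) ∈ P ^ 2 * (cjI P) ^ 2 := by
        rw [Ideal.mul_eq_inf_of_coprime (Ideal.isCoprime_iff_sup_eq.1 hcop2)]
        exact ⟨hc, h3⟩
      rw [← mul_pow, hPQ, Ideal.span_singleton_pow, Ideal.mem_span_singleton] at h5
      have h6 : ((2 : ℕ) : OO A B) ^ 2 = ((4 : ℤ) : OO A B) := by
        push_cast
        norm_num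
      rw [h6, int_dvd] at h5
      exact h5
    · rintro ⟨y, rfl⟩
      rw [Int.cast_mul]
      exact Ideal.mul_mem_right _ _ h4P
  refine ⟨?_, hint2⟩
  intro x hx
  obtain ⟨a, ha, b, hb, hab⟩ := Ideal.isCoprime_iff_exists.1 hcop2
  obtain ⟨t, ht⟩ := trace (x * b)
  have hsb : star (x * b) ∈ P ^ 2 := by
    have h3 : star b ∈ P ^ 2 := by
      have h5 : (cjI P) ^ 2 ≤ (P ^ 2).comap (starRingEnd (OO A B)) := by
        rw [pow_two, Ideal.mul_le]
        intro r hr s hs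
        rw [Ideal.mem_comap, map_mul, pow_two]
        exact Ideal.mul_mem_mul hr hs
      exact h5 hb
    rw [star_mul']
    exact Ideal.mul_mem_left _ _ h3
  have hxt : x - ((t : ℤ) : OO A B) ∈ P ^ 2 := by
    have h3 : x - ((t : ℤ) : OO A B) = x * a - star (x * b) := by
      rw [← ht]
      linear_combination (-x) * hab
    rw [h3]
    exact Ideal.sub_mem _ (Ideal.mul_mem_left _ _ ha) hsb
  have hP2 : P ^ 2 ≤ P := Ideal.pow_le_self (by norm_num)
  have htodd : ¬ ((2 : ℕ) : ℤ) ∣ t := by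
    intro h3
    apply hx
    have h5 := P.add_mem (hP2 hxt) ((hint t).2 h3)
    rwa [sub_add_cancel] at h5
  have ht4 : (4 : ℤ) ∣ t - 1 ∨ (4 : ℤ) ∣ t + 1 := by
    push_cast at htodd
    omega
  rcases ht4 with h3 | h3
  · left
    have h5 := Ideal.add_mem _ hxt ((hint2 _).2 h3)
    have h6 : x - ((t : ℤ) : OO A B) + ((t - 1 : ℤ) : OO A B) = x - 1 := by push_cast; ring
    rwa [h6] at h5
  · right
    have h5 := Ideal.add_mem _ hxt ((hint2 _).2 h3)
    have h6 : x - ((t : ℤ) : OO A B) + ((t + 1 : ℤ) : OO A B) = x + 1 := by push_cast; ring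
    rwa [h6] at h5

end

end Pool.Agent.MUXI


end

section

/-!
# MUX at p = 2: the quadratic character `κ₀` (helper77)

`CaseP 2 A B`: `D = 1 + 4 A ≡ 1` modulo 8 is negative, so a prime number `q ≡ 3` modulo 4 divides `D`; `O` maps onto
`ℤ/q` by `w ↦ 1/2`, and `κ₀` is the quadratic character of the image: an odd character of `(O/|D|)^*` with
values `±1`. `eps_two`: for an even character `e0` of odd order modulo `4 f` the product `e0 κ₀` is an odd character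
modulo `f`.
-/

set_option autoImplicit false

namespace Pool.Agent.MUX2

open _root_.MU3 _root_.Pool.Agent.MU3A _root_.Pool.Agent.MU3B _root_.Pool.Agent.MUX

noncomputable section

/-- an odd character of `(O/|D|)^*` with values `±1` -/
structure KapD (A B : ℤ) (κ : OO A B → ℤ) : Prop where
  one : κ 1 = 1
  mul : ∀ x y, κ (x * y) = κ x * κ y
  neg : κ (-1) = -1
  per : ∀ x y, x - y ∈ idl (A := A) (B := B) (absD A B).toNat → κ x = κ y
  unit : ∀ x, IsCoprime (sp x) (idl (A := A) (B := B) (absD A B).toNat) → κ x = 1 ∨ κ x = -1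

/-- a number congruent to 3 modulo 4 has a prime factor congruent to 3 modulo 4 -/
theorem exists_three_mod_four {n : ℕ} (hn : n % 4 = 3) : ∃ q : ℕ, q.Prime ∧ q % 4 = 3 ∧ q ∣ n := by
  induction n using Nat.strong_induction_on with
  | _ n ih =>
    have h1 : n ≠ 1 := by rintro rfl; norm_num at hn
    obtain ⟨q, hq, hqn⟩ := Nat.exists_prime_and_dvd h1
    by_cases h3 : q % 4 = 3
    · exact ⟨q, hq, h3, hqn⟩
    · obtain ⟨m, rfl⟩ := hqn
      have hq2 : q % 2 = 1 := by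
        rcases hq.eq_two_or_odd with h | h
        · subst h; omega
        · exact h
      have hq1 : q % 4 = 1 := by omega
      have hm : m % 4 = 3 := by
        have h5 : (q * m) % 4 = ((q % 4) * (m % 4)) % 4 := Nat.mul_mod _ _ _
        rw [hq1, one_mul, hn, Nat.mod_mod] at h5
        exact h5.symm
      have hm0 : 0 < m := by
        rcases Nat.eq_zero_or_pos m with h | h
        · subst h; norm_num at hm
        · exact h
      have hlt : m < q * m := by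
        have := hq.two_le
        nlinarith
      obtain ⟨q', h5, h6, h7⟩ := ih m hlt hm
      exact ⟨q', h5, h6, h7.trans (dvd_mul_left m q)⟩

/-- existence of `κ₀` -/
theorem kap_exists {A B : ℤ} (hC : CaseP 2 A B) : ∃ κ : OO A B → ℤ, KapD A B κ := by
  have h8 : (8 : ℤ) ∣ B ^ 2 + 4 * A - 1 := by
    rcases hC.split with h | h
    · exact absurd h.1 (by norm_num)
    · exact h.2
  have hB : B = 1 := by
    rcases hC.hB with h | h
    · subst h
      obtain ⟨c, hc⟩ := h8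
      omega
    · exact h
  subst hB
  have hneg := hC.neg
  have habs : absD A 1 = -(1 + 4 * A) := by simp [absD]
  have hpos : 0 < absD A 1 := by rw [habs]; omega
  have hmod : ((absD A 1).toNat) % 4 = 3 := by
    rw [habs] at hpos ⊢
    obtain ⟨c, hc⟩ := h8
    omega
  obtain ⟨q, hq, hq3, hqd⟩ := exists_three_mod_four hmod
  have : Fact q.Prime := ⟨hq⟩
  have hq2 : q ≠ 2 := by rintro rfl; norm_num at hq3
  have hD : ((1 + 4 * A : ℤ) : ZMod q) = 0 := by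
    have h1 : (q : ℤ) ∣ absD A 1 := by
      have : ((absD A 1).toNat : ℤ) = absD A 1 := Int.toNat_of_nonneg hpos.le
      rw [← this]; exact_mod_cast hqd
    rw [habs, dvd_neg] at h1
    exact (ZMod.intCast_zmod_eq_zero_iff_dvd _ _).2 h1
  have h20 : (2 : ZMod q) ≠ 0 := by
    intro h
    have h2 : ((2 : ℕ) : ZMod q) = 0 := by exact_mod_cast h
    rw [ZMod.natCast_eq_zero_iff] at h2
    exact hq2 ((Nat.prime_dvd_prime_iff_eq hq Nat.prime_two).1 h2)
  have hw : (2 : ZMod q)⁻¹ * (2 : ZMod q)⁻¹ = (A : ZMod q) + (2 : ZMod q)⁻¹ := by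
    have h1 : (1 : ZMod q) + 4 * (A : ZMod q) = 0 := by
      have := hD; push_cast at this; exact this
    field_simp
    linear_combination -h1
  -- the homomorphism `w ↦ 1/2`
  let φ : OO A 1 → ZMod q := fun x => (x.re : ZMod q) + (x.im : ZMod q) * (2 : ZMod q)⁻¹
  have φmul : ∀ x y, φ (x * y) = φ x * φ y := by
    intro x y
    simp only [φ, QuadraticAlgebra.re_mul, QuadraticAlgebra.im_mul]
    push_cast
    linear_combination (-(x.im : ZMod q) * (y.im : ZMod q)) * hw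
  have r1 : (1 : OO A 1).re = 1 := rfl
  have i1 : (1 : OO A 1).im = 0 := rfl
  have φone : φ 1 = 1 := by
    simp only [φ, r1, i1]; push_cast; ring
  have φneg : φ (-1) = -1 := by
    simp only [φ, QuadraticAlgebra.re_neg, QuadraticAlgebra.im_neg, r1, i1]; push_cast; ring
  have φsub : ∀ x y, φ (x - y) = φ x - φ y := by
    intro x y
    simp only [φ, QuadraticAlgebra.re_sub, QuadraticAlgebra.im_sub]
    push_cast; ring
  have φadd : ∀ x y, φ (x + y) = φ x + φ y := by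
    intro x y
    simp only [φ, QuadraticAlgebra.re_add, QuadraticAlgebra.im_add]
    push_cast; ring
  have φD : ∀ x, x ∈ idl (A := A) (B := 1) (absD A 1).toNat → φ x = 0 := by
    intro x hx
    obtain ⟨c, rfl⟩ := Ideal.mem_span_singleton'.1 hx
    rw [φmul]
    have h1 : φ (((absD A 1).toNat : ℕ) : OO A 1) = 0 := by
      have h2 : ((((absD A 1).toNat : ℕ) : OO A 1)).re = ((absD A 1).toNat : ℤ) := by simp
      have h3 : ((((absD A 1).toNat : ℕ) : OO A 1)).im = 0 := by simp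
      simp only [φ, h2, h3]
      have : (((absD A 1).toNat : ℕ) : ZMod q) = 0 := (ZMod.natCast_eq_zero_iff _ _).2 hqd
      push_cast
      rw [this]; ring
    rw [h1, mul_zero]
  refine ⟨fun x => quadraticChar (ZMod q) (φ x), ⟨?_, ?_, ?_, ?_, ?_⟩⟩
  · simp only [φone, map_one]
  · intro x y; simp only [φmul, map_mul]
  · simp only [φneg]
    rw [quadraticChar_neg_one (by rw [ZMod.ringChar_zmod_n]; exact hq2), ZMod.card]
    exact ZMod.χ₄_nat_three_mod_four hq3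
  · intro x y hxy
    have h1 := φD _ hxy
    rw [φsub, sub_eq_zero] at h1
    simp only [h1]
  · intro x hx
    have h1 : φ x ≠ 0 := by
      intro h0
      obtain ⟨a, ha, b, hb, hab⟩ := Ideal.isCoprime_iff_exists.1 hx
      obtain ⟨c, rfl⟩ := Ideal.mem_span_singleton'.1 ha
      have h2 : φ (c * x + b) = 1 := by rw [hab, φone]
      rw [φadd, φmul, h0, mul_zero, zero_add, φD b hb] at h2
      exact zero_ne_one h2
    exact quadraticChar_dichotomy h1

/-! ### The character `e0 κ₀` -/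

lemma idl_mem {A B : ℤ} (m : ℕ) (x : OO A B) : x ∈ idl (A := A) (B := B) m ↔
    ∃ c : OO A B, x = c * ((m : ℕ) : OO A B) := by
  rw [Ideal.mem_span_singleton']
  exact ⟨fun ⟨c, hc⟩ => ⟨c, hc.symm⟩, fun ⟨c, hc⟩ => ⟨c, hc.symm⟩⟩

lemma cop_top {A B : ℤ} (I : Ideal (OO A B)) : IsCoprime (⊤ : Ideal (OO A B)) I :=
  Ideal.isCoprime_iff_sup_eq.2 (by simp)

lemma cop_congr {A B : ℤ} {I : Ideal (OO A B)} {x y : OO A B} (h : x - y ∈ I)
    (hx : IsCoprime (sp x) I) : IsCoprime (sp y) I := by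
  obtain ⟨a, ha, b, hb, hab⟩ := Ideal.isCoprime_iff_exists.1 hx
  obtain ⟨c, rfl⟩ := Ideal.mem_span_singleton'.1 ha
  refine Ideal.isCoprime_iff_exists.2 ⟨c * y, Ideal.mul_mem_left _ c
    (Ideal.mem_span_singleton_self y), c * (x - y) + b, add_mem (Ideal.mul_mem_left _ c h) hb, ?_⟩
  rw [← hab]; ring

lemma cop_mul {A B : ℤ} {I : Ideal (OO A B)} {x y : OO A B} :
    IsCoprime (sp (x * y)) I ↔ IsCoprime (sp x) I ∧ IsCoprime (sp y) I := by
  have : sp (x * y) = sp x * sp y := by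
    rw [sp, sp, sp, Ideal.span_singleton_mul_span_singleton]
  rw [this, IsCoprime.mul_left_iff]

lemma cop_mono {A B : ℤ} {I J : Ideal (OO A B)} {x : OO A B} (hIJ : I ≤ J)
    (hx : IsCoprime (sp x) I) : IsCoprime (sp x) J := by
  obtain ⟨a, ha, b, hb, hab⟩ := Ideal.isCoprime_iff_exists.1 hx
  exact Ideal.isCoprime_iff_exists.2 ⟨a, ha, b, hIJ hb, hab⟩

/-- in the case `p = 2` an element prime to `2` is congruent to `1` modulo `2` -/
lemma one_mod_two {A : ℤ} (hA : A % 2 = 0) {u : OO A 1}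
    (hu : IsCoprime (sp u) (idl (A := A) (B := 1) 2)) : ∃ t : OO A 1, u = 1 + 2 * t := by
  obtain ⟨a, ha, b, hb, hab⟩ := Ideal.isCoprime_iff_exists.1 hu
  obtain ⟨c, rfl⟩ := Ideal.mem_span_singleton'.1 ha
  obtain ⟨d, rfl⟩ := Ideal.mem_span_singleton'.1 hb
  have h1 := congrArg QuadraticAlgebra.re hab
  have h2 := congrArg QuadraticAlgebra.im hab
  have t1 : (((2 : ℕ) : OO A 1)).re = 2 := rfl
  have t2 : (((2 : ℕ) : OO A 1)).im = 0 := rfl
  have r1 : (1 : OO A 1).re = 1 := rfl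
  have i1 : (1 : OO A 1).im = 0 := rfl
  simp only [QuadraticAlgebra.re_add, QuadraticAlgebra.re_mul, QuadraticAlgebra.im_add,
    QuadraticAlgebra.im_mul, t1, t2, r1, i1] at h1 h2
  obtain ⟨A', hA'⟩ : ∃ A', A = 2 * A' := ⟨A / 2, by omega⟩
  subst hA'
  have e0 : c.re * u.re = 1 - 2 * (A' * c.im * u.im + d.re) := by linear_combination h1
  have e1 : (c.re + c.im) * (u.re + u.im) = 1 - 2 * (A' * c.im * u.im + d.re) -
      2 * d.im := by linear_combination h1 + h2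
  have o0 : u.re % 2 = 1 := by
    rcases Int.emod_two_eq_zero_or_one u.re with h | h
    · obtain ⟨k, hk⟩ : ∃ k, u.re = 2 * k := ⟨u.re / 2, by omega⟩
      rw [hk] at e0
      have : 2 * (c.re * k) = 1 - 2 * (A' * c.im * u.im + d.re) := by linear_combination e0
      omega
    · exact h
  have o1 : (u.re + u.im) % 2 = 1 := by
    rcases Int.emod_two_eq_zero_or_one (u.re + u.im) with h | h
    · obtain ⟨k, hk⟩ : ∃ k, u.re + u.im = 2 * k := ⟨(u.re + u.im) / 2, by omega⟩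
      rw [hk] at e1
      have : 2 * ((c.re + c.im) * k) = 1 - 2 * (A' * c.im * u.im + d.re) - 2 * d.im := by
        linear_combination e1
      omega
    · exact h
  refine ⟨⟨(u.re - 1) / 2, u.im / 2⟩, ?_⟩
  have s1 : (2 : OO (2 * A') 1).re = 2 := rfl
  have s2 : (2 : OO (2 * A') 1).im = 0 := rfl
  have r1' : (1 : OO (2 * A') 1).re = 1 := rfl
  have i1' : (1 : OO (2 * A') 1).im = 0 := rfl
  apply QuadraticAlgebra.ext
  · simp only [QuadraticAlgebra.re_add, QuadraticAlgebra.re_mul, s1, s2, r1']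
    omega
  · simp only [QuadraticAlgebra.im_add, QuadraticAlgebra.im_mul, s1, s2, i1']
    omega

/-- THE CHARACTER AT `p = 2`: an even character `e0` of odd order modulo `4 f`, times `κ₀`, is an odd character
modulo `f`. -/
theorem eps_two {A B : ℤ} {P : Ideal (OO A B)} {V : ValuationSubring ℂ} {f : ℕ}
    (hS : SetP 2 A B P V f) {κ : OO A B → ℤ} (hκ : KapD A B κ) (e0 : OO A B → ℂ) (r : ℕ)
    (hr : ¬ 2 ∣ r) (one : e0 1 = 1)
    (mul : ∀ x y, IsCoprime (sp x) (idl (A := A) (B := B) (2 * f)) →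
      IsCoprime (sp y) (idl (A := A) (B := B) (2 * f)) → e0 (x * y) = e0 x * e0 y)
    (per : ∀ x y, x - y ∈ idl (A := A) (B := B) (4 * f) → e0 x = e0 y)
    (pow : ∀ x, IsCoprime (sp x) (idl (A := A) (B := B) (2 * f)) → e0 x ^ r = 1) :
    ∃ e : OO A B → ℂ, IsEI (idl f * cjI P) e ∧
      (∀ x, IsCoprime (sp x) (idl (A := A) (B := B) (2 * f)) → e0 x * (κ x : ℂ) = e x) ∧
      ∀ x, e x ≠ 0 → e x ^ (2 * r) = 1 := by
  classical
  have h8 : (8 : ℤ) ∣ B ^ 2 + 4 * A - 1 := by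
    rcases hS.case.split with h | h
    · exact absurd h.1 (by norm_num)
    · exact h.2
  have hB : B = 1 := by
    rcases hS.case.hB with h | h
    · subst h
      obtain ⟨c, hc⟩ := h8
      omega
    · exact h
  subst hB
  have hA : A % 2 = 0 := by
    obtain ⟨c, hc⟩ := h8
    omega
  have hfodd : f % 2 = 1 := by
    have := hS.fp
    omega
  -- Bezout
  obtain ⟨u, v, huv⟩ : ∃ u v : ℤ, u * f + v * 4 = 1 := by
    have hc : IsCoprime (f : ℤ) 4 := by
      rw [Int.isCoprime_iff_gcd_eq_one, show (4 : ℤ) = ((4 : ℕ) : ℤ) by norm_num,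
        Int.gcd_natCast_natCast]
      have h1 : Nat.Coprime f 2 := by
        rw [Nat.coprime_comm]
        exact (Nat.Prime.coprime_iff_not_dvd Nat.prime_two).2 hS.fp
      exact Nat.Coprime.pow_right 2 h1
    obtain ⟨a, b, hab⟩ := hc
    exact ⟨a, b, hab⟩
  set α : OO A 1 := ((u * f : ℤ) : OO A 1) with hα
  set β : OO A 1 := ((v * 4 : ℤ) : OO A 1) with hβ
  have hαβ : α + β = 1 := by
    rw [hα, hβ, ← Int.cast_add, huv, Int.cast_one]
  have hα1 : α = (u : OO A 1) * ((f : ℕ) : OO A 1) := by rw [hα]; push_cast; ring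
  have hβ1 : β = (v : OO A 1) * 4 := by rw [hβ]; push_cast; ring
  set T : OO A 1 → OO A 1 := fun x => β * x + α with hT
  have T1 : T 1 = 1 := by simp only [hT]; linear_combination hαβ
  have Tmul : ∀ x y, T (x * y) - T x * T y ∈ idl (A := A) (B := 1) (4 * f) := by
    intro x y
    rw [idl_mem]
    refine ⟨(u : OO A 1) * v * (x * y - x - y + 1), ?_⟩
    have hβ2 : β = 1 - α := by linear_combination hαβ
    have e1 : T (x * y) - T x * T y = α * β * (x * y - x - y + 1) := by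
      simp only [hT]; rw [hβ2]; ring
    rw [e1, hα1, hβ1]; push_cast; ring
  have Tf : ∀ x, T x - x ∈ idl (A := A) (B := 1) f := by
    intro x
    rw [idl_mem]
    refine ⟨(u : OO A 1) * (1 - x), ?_⟩
    have e1 : T x - x = α * (1 - x) := by
      simp only [hT]; linear_combination x * hαβ
    rw [e1, hα1]; ring
  have Tper : ∀ x y, x - y ∈ idl (A := A) (B := 1) f → T x - T y ∈
      idl (A := A) (B := 1) (4 * f) := by
    intro x y h
    obtain ⟨c, hc⟩ := (idl_mem f _).1 h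
    rw [idl_mem]
    refine ⟨(v : OO A 1) * c, ?_⟩
    have e1 : T x - T y = β * (x - y) := by simp only [hT]; ring
    rw [e1, hc, hβ1]; push_cast; ring
  have T2 : ∀ x, IsCoprime (sp (T x)) (idl (A := A) (B := 1) 2) := by
    intro x
    refine Ideal.isCoprime_iff_exists.2 ⟨T x, Ideal.mem_span_singleton_self _,
      2 * (-(2 * v * (x - 1))), ?_, ?_⟩
    · rw [idl_mem]; exact ⟨-(2 * v * (x - 1)), by push_cast; ring⟩
    · simp only [hT]
      have hα2 : α = 1 - β := by linear_combination hαβ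
      rw [hα2, hβ1]; ring
  have idlmul : ∀ x : OO A 1, IsCoprime (sp x) (idl (A := A) (B := 1) (2 * f)) ↔
      IsCoprime (sp x) (idl (A := A) (B := 1) 2) ∧ IsCoprime (sp x) (idl (A := A) (B := 1) f) := by
    intro x
    have : idl (A := A) (B := 1) (2 * f) = idl 2 * idl f := by
      simp only [idl]
      rw [Ideal.span_singleton_mul_span_singleton]; push_cast; ring_nf
    rw [this, IsCoprime.mul_right_iff]
  have Tcop : ∀ x, IsCoprime (sp x) (idl (A := A) (B := 1) f) →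
      IsCoprime (sp (T x)) (idl (A := A) (B := 1) (2 * f)) := by
    intro x hx
    rw [idlmul]
    refine ⟨T2 x, cop_congr ?_ hx⟩
    have := Tf x
    rw [← neg_sub]
    exact neg_mem this
  have idl4 : idl (A := A) (B := 1) (4 * f) ≤ idl (2 * f) := by
    intro x hx
    obtain ⟨c, rfl⟩ := (idl_mem _ _).1 hx
    rw [idl_mem]
    exact ⟨2 * c, by push_cast; ring⟩
  -- odd order
  have sq_one : ∀ z : ℂ, z ^ 2 = 1 → z ^ r = 1 → z = 1 := by
    intro z h2 h3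
    obtain ⟨k, hk⟩ : ∃ k, r = 2 * k + 1 := ⟨r / 2, by omega⟩
    rw [hk, pow_succ, pow_mul, h2, one_pow, one_mul] at h3
    exact h3
  have uno : ∀ w : OO A 1, IsCoprime (sp w) (idl (A := A) (B := 1) (2 * f)) →
      w - 1 ∈ idl (A := A) (B := 1) f → e0 w = 1 := by
    intro w hw hw1
    apply sq_one _ _ (pow w hw)
    rw [pow_two, ← mul w w hw hw, ← one]
    apply per
    obtain ⟨t, ht⟩ := one_mod_two hA ((idlmul w).1 hw).1
    obtain ⟨c, hc⟩ := (idl_mem _ _).1 hw1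
    rw [idl_mem]
    refine ⟨(u : OO A 1) * (t + t ^ 2) + v * (c * (w + 1)), ?_⟩
    have huv' : (u : OO A 1) * ((f : ℕ) : OO A 1) + v * 4 = 1 := by
      have := congrArg (fun z : ℤ => (z : OO A 1)) huv
      push_cast at this
      exact this
    have e4 : w * w - 1 = 4 * (t + t ^ 2) := by rw [ht]; ring
    have ef : w * w - 1 = c * ((f : ℕ) : OO A 1) * (w + 1) := by
      linear_combination (w + 1) * hc
    have : w * w - 1 = ((u : OO A 1) * ((f : ℕ) : OO A 1) + v * 4) * (w * w - 1) := by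
      rw [huv', one_mul]
    rw [this, add_mul]
    nth_rw 1 [e4]
    rw [ef]
    push_cast; ring
  have hcj : (((2 : ℕ) : OO A 1)) ∈ cjI P := by
    show star (((2 : ℕ) : OO A 1)) ∈ P
    have : star (((2 : ℕ) : OO A 1)) = ((2 : ℕ) : OO A 1) := by
      rw [star_natCast]
    rw [this]
    exact hS.hP.mem
  have hle : idl (A := A) (B := 1) (2 * f) ≤ idl f * cjI P := by
    intro x hx
    obtain ⟨c, rfl⟩ := (idl_mem _ _).1 hx
    have : c * ((2 * f : ℕ) : OO A 1) = (c * ((f : ℕ) : OO A 1)) * ((2 : ℕ) : OO A 1) := by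
      push_cast; ring
    rw [this]
    exact Ideal.mul_mem_mul ((idl_mem _ _).2 ⟨c, rfl⟩) hcj
  have hlef : idl (A := A) (B := 1) f * cjI P ≤ idl f := Ideal.mul_le_left
  have habs : 0 < absD A 1 := by
    have := hS.case.neg
    unfold absD
    omega
  have hfD : idl (A := A) (B := 1) f ≤ idl (absD A 1).toNat := by
    intro x hx
    obtain ⟨c, rfl⟩ := (idl_mem _ _).1 hx
    have h1 := hS.fD
    have h2 : ((absD A 1).toNat : ℤ) = absD A 1 := Int.toNat_of_nonneg habs.le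
    rw [← h2] at h1
    have h3 : (absD A 1).toNat ∣ f := by exact_mod_cast h1
    obtain ⟨d, hd⟩ := h3
    rw [idl_mem]
    refine ⟨c * d, ?_⟩
    conv_lhs => rw [hd]
    push_cast; ring
  refine ⟨fun x => if IsCoprime (sp x) (idl f * cjI P) then e0 (T x) * (κ x : ℂ) else 0,
    ⟨?_, ?_, ?_, ?_, ?_⟩, ?_, ?_⟩
  · have h1 : IsCoprime (sp (1 : OO A 1)) (idl f * cjI P) := by
      simp only [sp, Ideal.span_singleton_one]
      exact cop_top _
    simp only [h1, if_true, T1, one, hκ.one]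
    norm_num
  · intro x y
    by_cases hx : IsCoprime (sp x) (idl f * cjI P)
    · by_cases hy : IsCoprime (sp y) (idl f * cjI P)
      · have hxy : IsCoprime (sp (x * y)) (idl f * cjI P) := cop_mul.2 ⟨hx, hy⟩
        simp only [hx, hy, hxy, if_true]
        rw [per _ _ (Tmul x y), mul _ _ (Tcop x (cop_mono hlef hx)) (Tcop y (cop_mono hlef hy)),
          hκ.mul]
        push_cast; ring
      · have hxy : ¬ IsCoprime (sp (x * y)) (idl f * cjI P) := fun h => hy (cop_mul.1 h).2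
        simp only [hy, hxy, if_false, mul_zero]
    · have hxy : ¬ IsCoprime (sp (x * y)) (idl f * cjI P) := fun h => hx (cop_mul.1 h).1
      simp only [hx, hxy, if_false, zero_mul]
  · intro x y hxy
    have h1 : IsCoprime (sp x) (idl f * cjI P) ↔ IsCoprime (sp y) (idl f * cjI P) := by
      refine ⟨cop_congr hxy, cop_congr ?_⟩
      rw [← neg_sub]; exact neg_mem hxy
    by_cases hx : IsCoprime (sp x) (idl f * cjI P)
    · have hy := h1.1 hx
      simp only [hx, hy, if_true]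
      rw [per _ _ (Tper x y (hlef hxy)), hκ.per x y (hfD (hlef hxy))]
    · have hy : ¬ IsCoprime (sp y) (idl f * cjI P) := fun h => hx (h1.2 h)
      simp only [hx, hy, if_false]
  · intro x
    constructor
    · intro h
      by_contra hx
      apply h
      simp only [hx, if_false]
    · intro hx
      simp only [hx, if_true]
      refine mul_ne_zero ?_ ?_
      · intro h0
        have h1 := pow (T x) (Tcop x (cop_mono hlef hx))
        rw [h0] at h1
        rcases Nat.eq_zero_or_pos r with h2 | h2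
        · exact hr (h2 ▸ dvd_zero 2)
        · rw [zero_pow (by omega)] at h1
          exact zero_ne_one h1
      · rcases hκ.unit x (cop_mono hfD (cop_mono hlef hx)) with h | h
        · rw [h]; norm_num
        · rw [h]; norm_num
  · have h1 : IsCoprime (sp (-1 : OO A 1)) (idl f * cjI P) := by
      have : sp (-1 : OO A 1) = ⊤ := by
        simp only [sp, Ideal.span_singleton_neg, Ideal.span_singleton_one]
      rw [this]
      exact cop_top _
    have h2 : e0 (T (-1)) = 1 := by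
      have hc := Tcop (-1) (cop_mono hlef h1)
      apply sq_one _ _ (pow _ hc)
      rw [pow_two, ← mul _ _ hc hc]
      have h3 := Tmul (-1) (-1)
      rw [show (-1 : OO A 1) * -1 = 1 by ring, T1] at h3
      rw [← one]
      apply per
      rw [← neg_sub]; exact neg_mem h3
    simp only [h1, if_true, h2, hκ.neg]
    norm_num
  · intro x hx
    have h1 : IsCoprime (sp x) (idl f * cjI P) := cop_mono hle hx
    simp only [h1, if_true]
    congr 1
    have hxf := ((idlmul x).1 hx).2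
    -- an inverse modulo `4 f`
    have hx4 : IsCoprime (sp x) (idl (A := A) (B := 1) (4 * f)) := by
      have : idl (A := A) (B := 1) (4 * f) = idl 2 * (idl 2 * idl f) := by
        simp only [idl]
        rw [Ideal.span_singleton_mul_span_singleton, Ideal.span_singleton_mul_span_singleton]
        push_cast; ring_nf
      rw [this, IsCoprime.mul_right_iff, IsCoprime.mul_right_iff]
      exact ⟨((idlmul x).1 hx).1, ((idlmul x).1 hx).1, hxf⟩
    obtain ⟨a, ha, b, hb, hab⟩ := Ideal.isCoprime_iff_exists.1 hx4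
    obtain ⟨y, rfl⟩ := Ideal.mem_span_singleton'.1 ha
    have hxy : x * y - 1 ∈ idl (A := A) (B := 1) (4 * f) := by
      have : x * y - 1 = -b := by linear_combination hab
      rw [this]; exact neg_mem hb
    have hy : IsCoprime (sp y) (idl (A := A) (B := 1) (2 * f)) := by
      have h3 : IsCoprime (sp (x * y)) (idl (A := A) (B := 1) (2 * f)) := by
        refine cop_congr (x := 1) ?_ ?_
        · rw [← neg_sub]; exact neg_mem (idl4 hxy)
        · simp only [sp, Ideal.span_singleton_one]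
          exact cop_top _
      exact (cop_mul.1 h3).2
    have hTx := Tcop x hxf
    have h4 : e0 (T x * y) = 1 := by
      apply uno _ (cop_mul.2 ⟨hTx, hy⟩)
      have h5 : T x * y - 1 = (T x - x) * y + (x * y - 1) := by ring
      rw [h5]
      refine add_mem (Ideal.mul_mem_right _ _ (Tf x)) ?_
      have h6 : idl (A := A) (B := 1) (4 * f) ≤ idl f := by
        intro z hz
        obtain ⟨c, rfl⟩ := (idl_mem _ _).1 hz
        rw [idl_mem]; exact ⟨c * 4, by push_cast; ring⟩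
      exact h6 hxy
    have h5 : e0 (x * y) = 1 := by rw [per _ _ hxy, one]
    rw [mul _ _ hTx hy] at h4
    rw [mul _ _ hx hy] at h5
    have hy0 : e0 y ≠ 0 := by
      intro h0
      rw [h0, mul_zero] at h4
      exact zero_ne_one h4
    exact mul_right_cancel₀ hy0 (h5.trans h4.symm)
  · intro x hx
    by_cases h1 : IsCoprime (sp x) (idl f * cjI P)
    · simp only [h1, if_true]
      rw [mul_pow, pow_mul', pow (T x) (Tcop x (cop_mono hlef h1)), one_pow, one_mul, pow_mul]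
      rcases hκ.unit x (cop_mono hfD (cop_mono hlef h1)) with h | h
      · rw [h]; norm_num
      · rw [h]; norm_num
    · exfalso
      apply hx
      simp only [h1, if_false]

end

end Pool.Agent.MUX2


end

section

/-!
# MUX, block IX: module XMX, the sets `XX` satisfy `XM`

The general version (no condition on the decomposition of `p`) is helper84's `Pool.Agent.NSI.tn_XMX`.
-/

set_option autoImplicit false

namespace Pool.Agent.MUXI

open _root_.MU3 _root_.Pool.Agent.MU3 _root_.Pool.Agent.MU3A _root_.Pool.Agent.MU3B _root_.Pool.Agent.RI _root_.Pool.Agent.RID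
  _root_.Pool.Agent.MUX _root_.Pool.Agent.MUXK
open _root_.Pool.Agent.MU3I (w3 zt)

noncomputable section

theorem ti_XMX (h1 : Si_XXF) (h2 : Si_ARF) (h3 : Si_LAY) : Si_XMX := by
  intro p A B P V f hS hT ι R K Bn n h hL hy hG γ hγ
  exact Pool.Agent.NSI.tn_XMX h1 h2 h3 p A B f (Pool.Agent.NSI.setL_P hS) hT ι R K Bn n h hL hy hG γ hγ

end

end Pool.Agent.MUXI


end

section

/-!
# MU3: enough eigenfunctionals
-/

set_option autoImplicit false

namespace Pool.Agent.MU3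

namespace P_EIG

open Finset

theorem exists_g (F : Type) [Field F] [CharP F 3] (I : Type) [CommGroup I] (P : Subgroup I)
    (h3 : ∀ x : I, x ^ 3 ∈ P) (v : I) (hv : v ∉ P) :
    ∃ g : I → F, (∀ x y, g (x * y) = g x + g y) ∧ (∀ x ∈ P, g x = 0) ∧ g v ≠ 0 := by
  have hz : ∀ x : Additive (I ⧸ P), 3 • x = 0 := by
    intro x
    obtain ⟨y, hy⟩ := QuotientGroup.mk_surjective (Additive.toMul x)
    have h1 : ((y ^ 3 : I) : I ⧸ P) = 1 := (QuotientGroup.eq_one_iff _).mpr (h3 y)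
    have h2 : Additive.toMul (3 • x) = 1 := by
      rw [toMul_nsmul, ← hy]
      exact h1
    exact h2
  let : Module (ZMod 3) (Additive (I ⧸ P)) := AddCommGroup.zmodModule hz
  have hv' : Additive.ofMul (v : I ⧸ P) ≠ 0 := by
    intro h
    exact hv ((QuotientGroup.eq_one_iff v).mp h)
  have : Fact (Nat.Prime 3) := ⟨Nat.prime_three⟩
  obtain ⟨φ, hφ⟩ : ∃ φ : Module.Dual (ZMod 3) (Additive (I ⧸ P)),
      φ (Additive.ofMul (v : I ⧸ P)) ≠ 0 := by
    by_contra hcon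
    push Not at hcon
    exact hv' ((Module.forall_dual_apply_eq_zero_iff (ZMod 3) _).mp hcon)
  refine ⟨fun x => ZMod.castHom (dvd_refl 3) F (φ (Additive.ofMul (x : I ⧸ P))), ?_, ?_, ?_⟩
  · intro x y
    have : Additive.ofMul ((x * y : I) : I ⧸ P) =
        Additive.ofMul (x : I ⧸ P) + Additive.ofMul (y : I ⧸ P) := rfl
    simp only [this, map_add]
  · intro x hx
    have : Additive.ofMul (x : I ⧸ P) = 0 := (QuotientGroup.eq_one_iff x).mpr hx
    simp only [this, map_zero]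
  · intro h
    exact hφ ((map_eq_zero_iff _ (RingHom.injective (ZMod.castHom (dvd_refl 3) F))).mp h)

theorem natCast_ne (F : Type) [Field F] [CharP F 3] (n : ℕ) (h : n.Coprime 3) :
    (n : F) ≠ 0 := by
  intro h0
  have h1 : 3 ∣ n := (CharP.cast_eq_zero_iff F 3 n).mp h0
  have h2 : 3 ∣ Nat.gcd n 3 := Nat.dvd_gcd h1 dvd_rfl
  rw [h] at h2
  exact absurd h2 (by decide)

theorem main (F : Type) [Field F] [CharP F 3] [IsAlgClosed F] (D I : Type) [CommGroup D]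
    [Finite D] [CommGroup I] [MulDistribMulAction D I] (hc : (Nat.card D).Coprime 3)
    (P : Subgroup I) (hP : ∀ g : D, ∀ x ∈ P, g • x ∈ P) (h3 : ∀ x : I, x ^ 3 ∈ P) (v : I)
    (hv : v ∉ P) :
    ∃ (χ : D →* Fˣ) (f : I → F), (∀ x y, f (x * y) = f x + f y) ∧ (∀ x ∈ P, f x = 0) ∧
      (∀ (δ : D) (x : I), f (δ • x) = (χ δ : F) * f x) ∧ f v ≠ 0 := by
  classical
  have : Fintype D := Fintype.ofFinite D
  obtain ⟨g, g1, g2, g3⟩ := exists_g F I P h3 v hv
  have hexp : ((Monoid.exponent D : ℕ) : F) ≠ 0 := by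
    refine natCast_ne F _ (Nat.Coprime.coprime_dvd_left ?_ hc)
    exact Group.exponent_dvd_nat_card
  have : NeZero ((Monoid.exponent D : ℕ) : F) := ⟨hexp⟩
  have : HasEnoughRootsOfUnity F (Monoid.exponent D) := inferInstance
  have hfin : Finite (D →* Fˣ) :=
    Finite.of_equiv D (CommGroup.monoidHom_mulEquiv_of_hasEnoughRootsOfUnity D F).some.symm.toEquiv
  have : Fintype (D →* Fˣ) := Fintype.ofFinite _
  have hcard : (Fintype.card (D →* Fˣ) : F) ≠ 0 := by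
    rw [← Nat.card_eq_fintype_card, CommGroup.card_monoidHom_of_hasEnoughRootsOfUnity]
    exact natCast_ne F _ hc
  have horth : ∀ δ : D, δ ≠ 1 → ∑ χ : D →* Fˣ, (((χ δ)⁻¹ : Fˣ) : F) = 0 := by
    intro δ hδ
    obtain ⟨φ, hφ⟩ := CommGroup.exists_apply_ne_one_of_hasEnoughRootsOfUnity D F hδ
    have h1 : ∑ χ : D →* Fˣ, (((χ δ)⁻¹ : Fˣ) : F) =
        ∑ χ : D →* Fˣ, ((((φ * χ) δ)⁻¹ : Fˣ) : F) :=
      (Fintype.sum_equiv (Equiv.mulLeft φ) _ _ (fun _ => rfl)).symm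
    have h2 : ∑ χ : D →* Fˣ, ((((φ * χ) δ)⁻¹ : Fˣ) : F) =
        (((φ δ)⁻¹ : Fˣ) : F) * ∑ χ : D →* Fˣ, (((χ δ)⁻¹ : Fˣ) : F) := by
      rw [Finset.mul_sum]
      refine Finset.sum_congr rfl fun χ _ => ?_
      rw [MonoidHom.mul_apply, mul_inv, Units.val_mul]
    have h3 : (1 - (((φ δ)⁻¹ : Fˣ) : F)) * ∑ χ : D →* Fˣ, (((χ δ)⁻¹ : Fˣ) : F) = 0 := by
      rw [sub_mul, one_mul, ← h2, ← h1, sub_self]
    rcases mul_eq_zero.mp h3 with h | h
    · exfalso
      apply hφ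
      have h4 : (((φ δ)⁻¹ : Fˣ) : F) = ((1 : Fˣ) : F) := by
        rw [Units.val_one]
        linear_combination -h
      have h5 := Units.ext h4
      exact inv_eq_one.mp h5
    · exact h
  by_contra hcon
  push Not at hcon
  have hf : ∀ χ : D →* Fˣ, ∑ δ : D, (((χ δ)⁻¹ : Fˣ) : F) * g (δ • v) = 0 := by
    intro χ
    refine hcon χ (fun x => ∑ δ : D, (((χ δ)⁻¹ : Fˣ) : F) * g (δ • x)) ?_ ?_ ?_
    · intro x y
      simp only [smul_mul', g1, mul_add, Finset.sum_add_distrib]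
    · intro x hx
      exact Finset.sum_eq_zero fun δ _ => by rw [g2 _ (hP δ x hx), mul_zero]
    · intro δ x
      rw [Finset.mul_sum]
      refine Fintype.sum_equiv (Equiv.mulRight δ) _ _ fun ε => ?_
      simp only [Equiv.coe_mulRight, map_mul, mul_inv, Units.val_mul, smul_smul]
      have : ((χ δ : Fˣ) : F) * (((χ δ)⁻¹ : Fˣ) : F) = 1 := Units.mul_inv _
      linear_combination -((((χ ε)⁻¹ : Fˣ) : F) * g ((ε * δ) • x)) * this
  have hsum : ∑ χ : D →* Fˣ, ∑ δ : D, (((χ δ)⁻¹ : Fˣ) : F) * g (δ • v) = 0 :=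
    Finset.sum_eq_zero fun χ _ => hf χ
  rw [Finset.sum_comm] at hsum
  rw [Finset.sum_eq_single (1 : D)] at hsum
  · simp only [map_one, inv_one, Units.val_one, one_mul, one_smul, Finset.sum_const,
      nsmul_eq_mul, Finset.card_univ] at hsum
    exact (mul_ne_zero hcard g3) hsum
  · intro δ _ hδ
    rw [← Finset.sum_mul, horth δ hδ, zero_mul]
  · intro h
    exact absurd (Finset.mem_univ _) h

end P_EIG

theorem t_EIG : S_EIG := by
  intro F _ _ _ G I _ _ _ D _ hcomm hcop P hP h3 v hv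
  let : CommGroup D :=
    { (inferInstance : Group D) with
      mul_comm := fun a b => Subtype.ext (hcomm a a.2 b b.2) }
  exact P_EIG.main F D I hcop P (fun g x hx => hP g x hx) h3 v hv

end Pool.Agent.MU3


end

section

/-!
# MU3, M0 (helper69): a bounded power of `γ` fixes all primes above `S`
-/

set_option autoImplicit false

open NumberField IsDedekindDomain
open scoped nonZeroDivisors Pointwise

namespace Pool.Agent.MU3

namespace P_M0

variable {k L : Type} [Field k] [Field L] [NumberField L] [Algebra k L]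

omit [NumberField L] in
theorem mem_smul (g : L ≃ₐ[k] L) (I : Ideal (𝓞 L)) (x : 𝓞 L) :
    x ∈ g • I ↔ g⁻¹ • x ∈ I :=
  Ideal.mem_pointwise_smul_iff_inv_smul_mem

theorem nat_smul (g : L ≃ₐ[k] L) (l : ℕ) : g • (l : 𝓞 L) = (l : 𝓞 L) := by
  exact map_natCast (MulSemiringAction.toRingHom (L ≃ₐ[k] L) (𝓞 L) g) l

theorem prime_smul (g : L ≃ₐ[k] L) (I : Ideal (𝓞 L)) (hI : I.IsPrime) : (g • I).IsPrime := by
  have h : g • I = I.comap (MulSemiringAction.toRingHom (L ≃ₐ[k] L) (𝓞 L) g⁻¹) := by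
    ext x
    rw [mem_smul, Ideal.mem_comap]
    rfl
  rw [h]
  exact Ideal.comap_isPrime _ _

/-- the prime `g v` -/
noncomputable def act (l : ℕ) (hl : l ≠ 0) (g : L ≃ₐ[k] L)
    (v : {v : HeightOneSpectrum (𝓞 L) // (l : 𝓞 L) ∈ v.asIdeal}) :
    {v : HeightOneSpectrum (𝓞 L) // (l : 𝓞 L) ∈ v.asIdeal} :=
  have hm : (l : 𝓞 L) ∈ g • v.1.asIdeal := by
    rw [mem_smul, nat_smul]
    exact v.2
  ⟨⟨g • v.1.asIdeal, prime_smul g _ v.1.isPrime, by
    intro h
    rw [h, Ideal.mem_bot] at hm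
    exact hl (by exact_mod_cast hm)⟩, hm⟩

theorem fin (l : ℕ) (hl : l ≠ 0) :
    Finite {v : HeightOneSpectrum (𝓞 L) // (l : 𝓞 L) ∈ v.asIdeal} := by
  have h1 : (Ideal.span {(l : 𝓞 L)}) ≠ 0 := by
    intro h
    rw [Ideal.zero_eq_bot, Ideal.span_singleton_eq_bot] at h
    exact hl (by exact_mod_cast h)
  have h2 := Ideal.finite_factors h1
  have h3 : {v : HeightOneSpectrum (𝓞 L) | (l : 𝓞 L) ∈ v.asIdeal}.Finite := by
    refine Set.Finite.subset h2 ?_
    intro v hv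
    exact Ideal.dvd_span_singleton.2 hv
  exact h3.to_subtype

theorem aux (γ : L ≃ₐ[k] L) (n C l : ℕ) (hl : l ≠ 0) (hγ : orderOf γ = 3 ^ n)
    (hC : Nat.card {v : HeightOneSpectrum (𝓞 L) // (l : 𝓞 L) ∈ v.asIdeal} ≤ C)
    (v : HeightOneSpectrum (𝓞 L)) (hv : (l : 𝓞 L) ∈ v.asIdeal) :
    γ ^ (3 ^ C) • v.asIdeal = v.asIdeal := by
  haveI := fin (L := L) l hl
  rw [MulAction.pow_smul_eq_iff_minimalPeriod_dvd]
  set d := Function.minimalPeriod (fun I : Ideal (𝓞 L) => γ • I) v.asIdeal with hd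
  have h1 : d ∣ 3 ^ n := by
    rw [hd, ← MulAction.pow_smul_eq_iff_minimalPeriod_dvd, ← hγ, pow_orderOf_eq_one, one_smul]
  obtain ⟨i, _, hi⟩ := (Nat.dvd_prime_pow Nat.prime_three).1 h1
  have h2 : d ≤ C := by
    refine le_trans ?_ hC
    have h3 : Function.Injective (fun a : Fin d => act l hl (γ ^ (a : ℕ)) ⟨v, hv⟩) := by
      intro a b hab
      have h4 : γ ^ (a : ℕ) • v.asIdeal = γ ^ (b : ℕ) • v.asIdeal := by
        have h5 := congrArg (fun w => w.1.asIdeal) hab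
        exact h5
      have h6 := Function.iterate_injOn_Iio_minimalPeriod
        (f := fun I : Ideal (𝓞 L) => γ • I) (x := v.asIdeal)
      refine Fin.ext (h6 (Set.mem_Iio.2 a.2) (Set.mem_Iio.2 b.2) ?_)
      simp only [smul_iterate]
      exact h4
    have h7 := Nat.card_le_card_of_injective _ h3
    rwa [Nat.card_fin] at h7
  rw [hi]
  refine pow_dvd_pow 3 ?_
  have h8 : i < 3 ^ i := Nat.lt_pow_self (by norm_num)
  omega

end P_M0

theorem t_M0 (h1 : S_PRB) (h2 : S_TWK) : S_M0 := by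
  intro k K B _ _ hB S hS
  classical
  have h3 : ∀ l : ℕ, ∃ C : ℕ, l ∈ S → ∀ n,
      Nat.card {v : HeightOneSpectrum (𝓞 ↥(K ⊔ B n)) // (l : 𝓞 ↥(K ⊔ B n)) ∈ v.asIdeal} ≤ C := by
    intro l
    by_cases hl : l ∈ S
    · obtain ⟨C, hC⟩ := h1 3 K B hB.lay l (hS l hl)
      exact ⟨C, fun _ => hC⟩
    · exact ⟨0, fun h => absurd h hl⟩
  choose C hC using h3
  refine ⟨S.sup C, ?_⟩
  intro n h
  letI := Pool.Agent.RI.algC h
  intro γ hγ v hv
  obtain ⟨l, hl, hlv⟩ := hv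
  have h4 := (h2 k K B hB n h γ hγ).ord
  exact P_M0.aux γ n (S.sup C) l (hS l hl).ne_zero h4
    (le_trans (hC l hl n) (Finset.le_sup hl)) v hlv

end Pool.Agent.MU3


end

section

/-!
# MUX, block K, module M0X (helper72): a bounded power fixes all primes above `S`
-/

set_option autoImplicit false

open NumberField IsDedekindDomain
open scoped nonZeroDivisors Pointwise

namespace Pool.Agent.MUXK

open _root_.Pool.Agent.MU3 _root_.Pool.Agent.RI

namespace K_M0X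

variable {k L : Type} [Field k] [Field L] [NumberField L] [Algebra k L]

theorem aux (p : ℕ) [Fact p.Prime] (γ : L ≃ₐ[k] L) (n C l : ℕ) (hl : l ≠ 0)
    (hγ : γ ^ (p ^ n) = 1)
    (hC : Nat.card {v : HeightOneSpectrum (𝓞 L) // (l : 𝓞 L) ∈ v.asIdeal} ≤ C)
    (v : HeightOneSpectrum (𝓞 L)) (hv : (l : 𝓞 L) ∈ v.asIdeal) :
    γ ^ (p ^ C) • v.asIdeal = v.asIdeal := by
  haveI := P_M0.fin (L := L) l hl
  rw [MulAction.pow_smul_eq_iff_minimalPeriod_dvd]
  set d := Function.minimalPeriod (fun I : Ideal (𝓞 L) => γ • I) v.asIdeal with hd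
  have h1 : d ∣ p ^ n := by
    rw [hd, ← MulAction.pow_smul_eq_iff_minimalPeriod_dvd, hγ, one_smul]
  obtain ⟨i, _, hi⟩ := (Nat.dvd_prime_pow (Fact.out : p.Prime)).1 h1
  have h2 : d ≤ C := by
    refine le_trans ?_ hC
    have h3 : Function.Injective (fun a : Fin d => P_M0.act l hl (γ ^ (a : ℕ)) ⟨v, hv⟩) := by
      intro a b hab
      have h4 : γ ^ (a : ℕ) • v.asIdeal = γ ^ (b : ℕ) • v.asIdeal := by
        have h5 := congrArg (fun w => w.1.asIdeal) hab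
        exact h5
      have h6 := Function.iterate_injOn_Iio_minimalPeriod
        (f := fun I : Ideal (𝓞 L) => γ • I) (x := v.asIdeal)
      refine Fin.ext (h6 (Set.mem_Iio.2 a.2) (Set.mem_Iio.2 b.2) ?_)
      simp only [smul_iterate]
      exact h4
    have h7 := Nat.card_le_card_of_injective _ h3
    rwa [Nat.card_fin] at h7
  rw [hi]
  refine pow_dvd_pow p ?_
  have h8 : i < p ^ i := Nat.lt_pow_self (Fact.out : p.Prime).one_lt
  omega

end K_M0X

theorem t_M0X (h1 : S_PRB) (h2 : S_GENX) : S_M0X := by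
  intro p _ k K B _ _ hB S hS
  classical
  have h3 : ∀ l : ℕ, ∃ C : ℕ, l ∈ S → ∀ n,
      Nat.card {v : HeightOneSpectrum (𝓞 ↥(K ⊔ B n)) // (l : 𝓞 ↥(K ⊔ B n)) ∈ v.asIdeal} ≤ C := by
    intro l
    by_cases hl : l ∈ S
    · obtain ⟨C, hC⟩ := h1 p K B hB.lay l (hS l hl)
      exact ⟨C, fun _ => hC⟩
    · exact ⟨0, fun h => absurd h hl⟩
  choose C hC using h3
  refine ⟨S.sup C, ?_⟩
  intro n h
  letI := Pool.Agent.RI.algC h
  intro γ hγ v hv
  obtain ⟨l, hl, hlv⟩ := hv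
  obtain ⟨g, hg1, hg2, -⟩ := h2 p k K B hB.hk hB.deg hB.lay hB.mono n h
  haveI : IsScalarTower ℚ k ↥(K ⊔ B n) := IsScalarTower.of_algebraMap_eq (fun _ => rfl)
  haveI : FiniteDimensional k ↥(K ⊔ B n) := FiniteDimensional.right ℚ k ↥(K ⊔ B n)
  have h5 : γ ∈ Subgroup.zpowers g := by
    rw [← IntermediateField.fixingSubgroup_fixedField (Subgroup.zpowers g)]
    rw [IntermediateField.mem_fixingSubgroup_iff]
    intro x hx
    refine hγ x ((hg2 x).1 ?_)
    exact (IntermediateField.mem_fixedField_iff _ _).1 hx g (Subgroup.mem_zpowers g)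
  have h4 : γ ^ (p ^ n) = 1 := by
    obtain ⟨i, rfl⟩ := Subgroup.mem_zpowers_iff.1 h5
    rw [← zpow_natCast, ← zpow_mul, mul_comm, zpow_mul, zpow_natCast, ← hg1, pow_orderOf_eq_one,
      one_zpow]
  exact K_M0X.aux p γ n (S.sup C) l (hS l hl).ne_zero h4
    (le_trans (hC l hl n) (Finset.le_sup hl)) v hlv

end Pool.Agent.MUXK


end

section

/-!
# MUX, KNM: the norm step (helper20)

The Kolyvagin relations at the primes of degree one of `M`, pushed down to `L` by the norm.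
-/

set_option autoImplicit false

open NumberField IsDedekindDomain Finset
open scoped nonZeroDivisors Pointwise

namespace Pool.Agent.MUXK

open _root_.Pool.Agent.MU3 _root_.Pool.Agent.RI

namespace K_KNM

/-- An integer in a prime with `q` residue classes is divisible by `q`. -/
theorem dvd_of_mem {L : Type} [Field L] [NumberField L] (lam : HeightOneSpectrum (𝓞 L)) {q : ℕ}
    (hq : q.Prime) (hcard : Nat.card (𝓞 L ⧸ lam.asIdeal) = q) (z : ℤ)
    (hz : (z : 𝓞 L) ∈ lam.asIdeal) : (q : ℤ) ∣ z := by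
  have hmax : lam.asIdeal.IsMaximal := lam.isMaximal
  let _ : Field (𝓞 L ⧸ lam.asIdeal) := Ideal.Quotient.field lam.asIdeal
  have hfin : Finite (𝓞 L ⧸ lam.asIdeal) :=
    Nat.finite_of_card_ne_zero (by rw [hcard]; exact hq.ne_zero)
  have : Fintype (𝓞 L ⧸ lam.asIdeal) := Fintype.ofFinite _
  have : Fact q.Prime := ⟨hq⟩
  have : CharP (𝓞 L ⧸ lam.asIdeal) q :=
    charP_of_card_eq_prime (by rw [← Nat.card_eq_fintype_card, hcard])
  rw [← CharP.intCast_eq_zero_iff (𝓞 L ⧸ lam.asIdeal) q,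
    ← map_intCast (Ideal.Quotient.mk lam.asIdeal)]
  exact Ideal.Quotient.eq_zero_iff_mem.2 hz

theorem mem_of_dvd {L : Type} [Field L] [NumberField L] (lam : HeightOneSpectrum (𝓞 L)) {q : ℕ}
    (hcard : Nat.card (𝓞 L ⧸ lam.asIdeal) = q) (z : ℤ)
    (hz : (q : ℤ) ∣ z) : (z : 𝓞 L) ∈ lam.asIdeal := by
  obtain ⟨t, rfl⟩ := hz
  have h1 : (q : 𝓞 L) ∈ lam.asIdeal := by
    rw [← Ideal.Quotient.eq_zero_iff_mem, map_natCast, ← hcard]
    have := card_nsmul_eq_zero' (G := 𝓞 L ⧸ lam.asIdeal) (x := 1)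
    simpa using this
  push_cast
  exact lam.asIdeal.mul_mem_right _ h1

theorem exists_core (κ : Type) [Field κ] [Finite κ] {p q : ℕ} (hp : p.Prime)
    (hpq : p ∣ q - 1) (hcard : Nat.card κ = q) (α x : κ) (h1 : α ^ p = 1) (h2 : α ≠ 1)
    (hx : IsUnit x) : ∃ i : ℕ, x ^ ((q - 1) / p) = α ^ i := by
  have : Fintype κ := Fintype.ofFinite κ
  have : NeZero p := ⟨hp.ne_zero⟩
  have : Fact p.Prime := ⟨hp⟩
  have h3 : IsPrimitiveRoot α p := IsPrimitiveRoot.iff_orderOf.2 (orderOf_eq_prime h1 h2)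
  have h4 : (x ^ ((q - 1) / p)) ^ p = 1 := by
    rw [← pow_mul, Nat.div_mul_cancel hpq, ← hcard, Nat.card_eq_fintype_card]
    exact FiniteField.pow_card_sub_one_eq_one x hx.ne_zero
  obtain ⟨i, -, hi⟩ := h3.eq_pow_of_pow_eq_one h4
  exact ⟨i, hi.symm⟩

/-- The `(q - 1) / p`-th power of a unit is a power of `a` modulo a prime of degree one. -/
theorem exists_exp {M : Type} [Field M] [NumberField M] (w : HeightOneSpectrum (𝓞 M)) {p q : ℕ}
    (hp : p.Prime) (hq : q.Prime) (hpq : p ∣ q - 1)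
    (hcard : Nat.card (𝓞 M ⧸ w.asIdeal) = q) (a : ℤ) (ha : (q : ℤ) ∣ a ^ p - 1)
    (ha1 : ¬ (q : ℤ) ∣ a - 1) (u : (𝓞 M)ˣ) :
    ∃ b : ℕ, (u : 𝓞 M) ^ ((q - 1) / p) - (a : 𝓞 M) ^ b ∈ w.asIdeal := by
  have hmax : w.asIdeal.IsMaximal := w.isMaximal
  have hfin : Finite (𝓞 M ⧸ w.asIdeal) :=
    Nat.finite_of_card_ne_zero (by rw [hcard]; exact hq.ne_zero)
  have h1 : (Ideal.Quotient.mk w.asIdeal (a : 𝓞 M)) ^ p = 1 := by
    rw [← map_pow, ← sub_eq_zero, ← map_one (Ideal.Quotient.mk w.asIdeal), ← map_sub,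
      Ideal.Quotient.eq_zero_iff_mem]
    have := mem_of_dvd w hcard _ ha
    push_cast at this
    exact this
  have h2 : Ideal.Quotient.mk w.asIdeal (a : 𝓞 M) ≠ 1 := by
    intro h
    apply ha1
    apply dvd_of_mem w hq hcard
    rw [← Ideal.Quotient.eq_zero_iff_mem]
    push_cast
    rw [map_sub, h, map_one, sub_self]
  let : Field (𝓞 M ⧸ w.asIdeal) := Ideal.Quotient.field w.asIdeal
  obtain ⟨i, hi⟩ := exists_core (𝓞 M ⧸ w.asIdeal) hp hpq hcard
    (Ideal.Quotient.mk w.asIdeal (a : 𝓞 M)) (Ideal.Quotient.mk w.asIdeal (u : 𝓞 M)) h1 h2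
    (u.isUnit.map (Ideal.Quotient.mk w.asIdeal))
  refine ⟨i, ?_⟩
  rw [← Ideal.Quotient.eq_zero_iff_mem, map_sub, map_pow, map_pow, sub_eq_zero]
  exact hi

/-- Exponents of `a` modulo `q` are determined modulo `p`. -/
theorem modEq {L : Type} [Field L] [NumberField L] (lam : HeightOneSpectrum (𝓞 L)) {p q : ℕ}
    (hp : p.Prime) (hq : q.Prime)
    (hcard : Nat.card (𝓞 L ⧸ lam.asIdeal) = q) (a : ℤ) (ha : (q : ℤ) ∣ a ^ p - 1)
    (ha1 : ¬ (q : ℤ) ∣ a - 1) (i j : ℕ) (h : (a : 𝓞 L) ^ i - (a : 𝓞 L) ^ j ∈ lam.asIdeal) :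
    i ≡ j [MOD p] := by
  have hmax : lam.asIdeal.IsMaximal := lam.isMaximal
  let _ : Field (𝓞 L ⧸ lam.asIdeal) := Ideal.Quotient.field lam.asIdeal
  have : Fact p.Prime := ⟨hp⟩
  set κ := 𝓞 L ⧸ lam.asIdeal with hκ
  set f : 𝓞 L →+* κ := Ideal.Quotient.mk lam.asIdeal with hf
  have h1 : (f (a : 𝓞 L)) ^ p = 1 := by
    rw [← map_pow, ← sub_eq_zero, ← map_one f, ← map_sub, hf, Ideal.Quotient.eq_zero_iff_mem]
    have := mem_of_dvd lam hcard _ ha
    push_cast at this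
    exact this
  have h2 : f (a : 𝓞 L) ≠ 1 := by
    intro h
    apply ha1
    apply dvd_of_mem lam hq hcard
    rw [← Ideal.Quotient.eq_zero_iff_mem, ← hf]
    push_cast
    rw [map_sub, h, map_one, sub_self]
  have h3 : orderOf (f (a : 𝓞 L)) = p := orderOf_eq_prime h1 h2
  have h4 : IsOfFinOrder (f (a : 𝓞 L)) := isOfFinOrder_iff_pow_eq_one.2 ⟨p, hp.pos, h1⟩
  have h5 : f (a : 𝓞 L) ^ i = f (a : 𝓞 L) ^ j := by
    rw [← sub_eq_zero, ← map_pow, ← map_pow, ← map_sub, hf]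
    exact Ideal.Quotient.eq_zero_iff_mem.2 h
  have h6 := h4.pow_eq_pow_iff_modEq.1 h5
  rwa [h3] at h6

section

set_option linter.unusedSectionVars false

variable {k L M : Type} [Field k] [NumberField k] [Field L] [NumberField L] [Field M]
  [NumberField M] [Algebra k L] [Algebra L M] [Algebra k M] [IsScalarTower k L M]
  [IsGalois k L] [IsGalois k M]

/-- An automorphism of `M / k` which is trivial on `L`. -/
noncomputable def lift (g : M ≃ₐ[k] M) (hg : ∀ x : L, g (algebraMap L M x) = algebraMap L M x) :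
    M ≃ₐ[L] M := AlgEquiv.ofRingEquiv (f := (g : M ≃+* M)) hg

theorem smul_alg (h : M ≃ₐ[k] M) (x : 𝓞 L) :
    h • (algebraMap (𝓞 L) (𝓞 M) x) =
      algebraMap (𝓞 L) (𝓞 M) ((AlgEquiv.restrictNormalHom L h) • x) := by
  apply RingOfIntegers.ext
  exact (AlgEquiv.restrictNormal_commutes h L (x : L)).symm

/-- The norm of a unit. -/
theorem norm_prod (u : (𝓞 M)ˣ) (u₀ : (𝓞 L)ˣ)
    (hu : ((u₀ : 𝓞 L) : L) = Algebra.norm L ((u : 𝓞 M) : M)) :
    algebraMap (𝓞 L) (𝓞 M) (u₀ : 𝓞 L) =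
      ∏ ν : M ≃ₐ[L] M, (ν.restrictScalars k) • (u : 𝓞 M) := by
  have : IsGalois L M := IsGalois.tower_top_of_isGalois k L M
  apply RingOfIntegers.ext
  have h1 : ((algebraMap (𝓞 L) (𝓞 M) (u₀ : 𝓞 L) : 𝓞 M) : M) = algebraMap L M ((u₀ : 𝓞 L) : L) :=
    rfl
  rw [h1, hu, Algebra.norm_eq_prod_automorphisms]
  change _ = algebraMap (𝓞 M) M (∏ ν : M ≃ₐ[L] M, (ν.restrictScalars k) • (u : 𝓞 M))
  rw [map_prod]
  rfl

open Classical in
/-- The sum over a fibre of the restriction. -/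
theorem sum_fibre (b : (M ≃ₐ[k] M) → ℕ) (h : M ≃ₐ[k] M) :
    ∑ ν : M ≃ₐ[L] M, b ((ν.restrictScalars k)⁻¹ * h) =
      ∑ g ∈ univ.filter (fun g : M ≃ₐ[k] M => AlgEquiv.restrictNormalHom L g =
        AlgEquiv.restrictNormalHom L h), b g := by
  refine Finset.sum_bij (fun ν _ => (ν.restrictScalars k)⁻¹ * h) ?_ ?_ ?_ ?_
  · intro ν _
    rw [mem_filter]
    refine ⟨mem_univ _, ?_⟩
    rw [map_mul, map_inv]
    have h1 : AlgEquiv.restrictNormalHom L (ν.restrictScalars k) = 1 := by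
      ext x
      apply (algebraMap L M).injective
      have h2 := AlgEquiv.restrictNormal_commutes (ν.restrictScalars k) L x
      change algebraMap L M ((AlgEquiv.restrictNormal (ν.restrictScalars k) L) x) = _
      rw [h2]
      exact ν.commutes x
    rw [h1, inv_one, one_mul]
  · intro ν _ ν' _ he
    have h1 := mul_right_cancel he
    exact AlgEquiv.restrictScalars_injective k (inv_injective h1)
  · intro g hg
    rw [mem_filter] at hg
    have h1 : AlgEquiv.restrictNormalHom L (h * g⁻¹) = 1 := by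
      rw [map_mul, map_inv, hg.2, mul_inv_cancel]
    have h2 : ∀ x : L, (h * g⁻¹) (algebraMap L M x) = algebraMap L M x := by
      intro x
      have h3 := AlgEquiv.restrictNormal_commutes (h * g⁻¹) L x
      rw [← h3]
      change algebraMap L M ((AlgEquiv.restrictNormalHom L (h * g⁻¹)) x) = _
      rw [h1]
      rfl
    refine ⟨lift (h * g⁻¹) h2, mem_univ _, ?_⟩
    have h3 : (lift (h * g⁻¹) h2).restrictScalars k = h * g⁻¹ := by
      ext x
      rfl
    rw [h3, mul_inv_rev, inv_inv, mul_assoc, inv_mul_cancel, mul_one]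
  · intro ν _
    rfl

open Classical in
/-- The congruence for the norm. -/
theorem cong (w : HeightOneSpectrum (𝓞 M)) (lam : HeightOneSpectrum (𝓞 L))
    (hw : w.asIdeal.under (𝓞 L) = lam.asIdeal) (m : ℕ) (a : ℤ) (b : (M ≃ₐ[k] M) → ℕ)
    (u : (𝓞 M)ˣ) (u₀ : (𝓞 L)ˣ)
    (hu : ((u₀ : 𝓞 L) : L) = Algebra.norm L ((u : 𝓞 M) : M))
    (hb : ∀ h : M ≃ₐ[k] M, (u : 𝓞 M) ^ m - (a : 𝓞 M) ^ b h ∈ h • w.asIdeal)
    (h : M ≃ₐ[k] M) :
    (u₀ : 𝓞 L) ^ m - (a : 𝓞 L) ^ (∑ g ∈ univ.filter (fun g : M ≃ₐ[k] M =>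
      AlgEquiv.restrictNormalHom L g = AlgEquiv.restrictNormalHom L h), b g) ∈
      (AlgEquiv.restrictNormalHom L h) • lam.asIdeal := by
  have h1 : ∀ ν : M ≃ₐ[L] M, ((ν.restrictScalars k) • (u : 𝓞 M)) ^ m -
      (a : 𝓞 M) ^ b ((ν.restrictScalars k)⁻¹ * h) ∈ h • w.asIdeal := by
    intro ν
    have h2 := hb ((ν.restrictScalars k)⁻¹ * h)
    rw [Ideal.mem_pointwise_smul_iff_inv_smul_mem] at h2 ⊢
    rw [mul_inv_rev, inv_inv, mul_smul] at h2
    have h3 : (ν.restrictScalars k) • ((u : 𝓞 M) ^ m -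
        (a : 𝓞 M) ^ b ((ν.restrictScalars k)⁻¹ * h)) =
        ((ν.restrictScalars k) • (u : 𝓞 M)) ^ m -
        (a : 𝓞 M) ^ b ((ν.restrictScalars k)⁻¹ * h) := by
      rw [smul_sub, smul_pow', smul_pow']
      congr 2
      exact map_intCast (MulSemiringAction.toRingHom (M ≃ₐ[k] M) (𝓞 M) (ν.restrictScalars k)) a
    rw [← h3]
    exact h2
  have h4 : (∏ ν : M ≃ₐ[L] M, (ν.restrictScalars k) • (u : 𝓞 M)) ^ m -
      (a : 𝓞 M) ^ (∑ ν : M ≃ₐ[L] M, b ((ν.restrictScalars k)⁻¹ * h)) ∈ h • w.asIdeal := by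
    rw [← Ideal.Quotient.eq, ← Finset.prod_pow, ← Finset.prod_pow_eq_pow_sum, map_prod, map_prod]
    refine Finset.prod_congr rfl (fun ν _ => ?_)
    exact Ideal.Quotient.eq.2 (h1 ν)
  rw [sum_fibre, ← norm_prod u u₀ hu, Ideal.mem_pointwise_smul_iff_inv_smul_mem] at h4
  rw [Ideal.mem_pointwise_smul_iff_inv_smul_mem, ← hw]
  change algebraMap (𝓞 L) (𝓞 M) _ ∈ w.asIdeal
  rw [← map_inv, ← smul_alg]
  rw [map_sub, map_pow, map_pow, map_intCast]
  exact h4

end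

end K_KNM

open _root_.Pool.Agent.MUXK.K_KNM in
theorem t_KNM (h1 : S_NRJ) (h2 : S_STABX) : S_KNM := by
  classical
  intro p hpf k L M _ _ _ _ _ _ _ _ _ _ _ _ hab S ζ hζ h2S hpS hS hram u u₀ hu hK lam q hgood
    hAb a ha ha1 b₀ hb₀
  have hp : p.Prime := hpf.out
  obtain ⟨w, hw, hwc⟩ := hAb
  have hq := hgood.prime
  have hgw : GoodPrP p k M S w q := by
    refine h2 p k M M S ζ hζ h2S hpS hS hram w q hq hgood.notin hwc ⟨w, ?_, hwc⟩
    ext x
    exact iff_of_eq (congrArg (fun y => y ∈ w.asIdeal) (RingOfIntegers.ext rfl))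
  have hpq : p ∣ q - 1 := (dvd_mul_left p 2).trans hgw.dvd
  have hex : ∀ h : M ≃ₐ[k] M, ∃ b : ℕ,
      (u : 𝓞 M) ^ ((q - 1) / p) - (a : 𝓞 M) ^ b ∈ h • w.asIdeal := by
    intro h
    obtain ⟨b, hb⟩ := exists_exp w hp hq hpq hwc a ha ha1
      (Units.map (MulSemiringAction.toRingHom (M ≃ₐ[k] M) (𝓞 M) h⁻¹ : 𝓞 M →* 𝓞 M) u)
    refine ⟨b, ?_⟩
    rw [Ideal.mem_pointwise_smul_iff_inv_smul_mem, smul_sub, smul_pow', smul_pow']
    have h3 : h⁻¹ • ((a : ℤ) : 𝓞 M) = (a : 𝓞 M) :=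
      map_intCast (MulSemiringAction.toRingHom (M ≃ₐ[k] M) (𝓞 M) h⁻¹) a
    rw [h3]
    exact hb
  choose b hb using hex
  obtain ⟨κ, I, s, hs, he⟩ := hK w q hgw a ha ha1 b hb
  obtain ⟨N, hN1, hN2, hN3⟩ := h1 k L M
  set r : (M ≃ₐ[k] M) →* (L ≃ₐ[k] L) := AlgEquiv.restrictNormalHom L with hr
  have hrs : Function.Surjective r := AlgEquiv.restrictNormalHom_surjective M
  have hNw : N (vJ w) = vJ lam :=
    (hN2 w lam hw).2 (by rw [hwc, hgood.card])
  have hNh : ∀ h : M ≃ₐ[k] M, N (h • vJ w) = r h • vJ lam := by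
    intro h
    rw [hN3 h (r h) (fun x => AlgEquiv.restrictNormal_commutes h L x) (vJ w), hNw]
  have hNs : N s ∈ SJ S L := by
    have h3 : SJ S M ≤ (SJ S L).comap N := by
      unfold SJ
      rw [Subgroup.closure_le]
      rintro _ ⟨v', hv', rfl⟩
      rw [SetLike.mem_coe, Subgroup.mem_comap]
      set v : HeightOneSpectrum (𝓞 L) :=
        ⟨v'.asIdeal.under (𝓞 L), inferInstance, Ideal.under_ne_bot (𝓞 L) v'.ne_bot⟩ with hv
      obtain ⟨f, hf⟩ := (hN2 v' v rfl).1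
      rw [hf]
      apply Subgroup.pow_mem
      apply Subgroup.subset_closure
      refine ⟨v, ?_, rfl⟩
      obtain ⟨ℓ, hℓ, hm⟩ := hv'
      refine ⟨ℓ, hℓ, ?_⟩
      change algebraMap (𝓞 L) (𝓞 M) (ℓ : 𝓞 L) ∈ v'.asIdeal
      rw [map_natCast]
      exact hm
    exact h3 hs
  set B : (L ≃ₐ[k] L) → ℕ := fun h₀ => ∑ g ∈ univ.filter (fun g : M ≃ₐ[k] M => r g = h₀), b g
    with hB
  have hBc : ∀ h₀ : L ≃ₐ[k] L, b₀ h₀ ≡ B h₀ [MOD p] := by
    intro h₀
    obtain ⟨h, rfl⟩ := hrs h₀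
    have h3 := cong w lam hw ((q - 1) / p) a b u u₀ hu hb h
    have h4 := hb₀ (r h)
    have h5 := (r h • lam.asIdeal).sub_mem h3 h4
    have h6 : (a : 𝓞 L) ^ b₀ (r h) - (a : 𝓞 L) ^ B (r h) ∈ r h • lam.asIdeal := by
      convert h5 using 1
      simp only [hB, hr]
      ring
    rw [Ideal.mem_pointwise_smul_iff_inv_smul_mem, smul_sub, smul_pow', smul_pow'] at h6
    have h7 : (r h)⁻¹ • ((a : ℤ) : 𝓞 L) = (a : 𝓞 L) :=
      map_intCast (MulSemiringAction.toRingHom (L ≃ₐ[k] L) (𝓞 L) (r h)⁻¹) a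
    rw [h7] at h6
    exact modEq lam hp hq hgood.card a ha ha1 _ _ h6
  have hBd : ∀ h₀ : L ≃ₐ[k] L, ∃ c : ℤ, (b₀ h₀ : ℤ) = B h₀ + p * c := by
    intro h₀
    obtain ⟨c, hc⟩ := (Nat.modEq_iff_dvd.1 (hBc h₀).symm)
    exact ⟨c, by linarith⟩
  choose c hc using hBd
  have hprod : ∏ h₀ : L ≃ₐ[k] L, (h₀ • vJ lam) ^ B h₀ =
      prin (Units.map (Algebra.norm L : M →* L) κ) * (N I) ^ p * N s := by
    have h3 := congrArg N he
    rw [map_mul, map_mul, map_pow, hN1, map_prod] at h3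
    rw [← h3, ← Finset.prod_fiberwise univ (fun h : M ≃ₐ[k] M => r h)]
    refine Finset.prod_congr rfl (fun h₀ _ => ?_)
    rw [hB]
    simp only
    rw [← Finset.prod_pow_eq_pow_sum]
    refine Finset.prod_congr rfl (fun g hg => ?_)
    rw [map_pow, hNh, (mem_filter.1 hg).2]
  refine ⟨Units.map (Algebra.norm L : M →* L) κ,
    N I * ∏ h₀ : L ≃ₐ[k] L, (h₀ • vJ lam) ^ c h₀, N s, hNs, ?_⟩
  have h3 : ∏ h₀ : L ≃ₐ[k] L, (h₀ • vJ lam) ^ b₀ h₀ =
      (∏ h₀ : L ≃ₐ[k] L, (h₀ • vJ lam) ^ B h₀) *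
        (∏ h₀ : L ≃ₐ[k] L, (h₀ • vJ lam) ^ c h₀) ^ p := by
    rw [← Finset.prod_pow, ← Finset.prod_mul_distrib]
    refine Finset.prod_congr rfl (fun h₀ _ => ?_)
    rw [← zpow_natCast, hc h₀, zpow_add, zpow_natCast, mul_comm (p : ℤ) (c h₀), zpow_mul,
      zpow_natCast]
  rw [h3, hprod, mul_pow]
  exact mul_right_comm _ _ _ |>.trans (by rw [mul_assoc (prin _) (N I ^ p) _])

end Pool.Agent.MUXK


end

section

/-!
# Module MUXJ_VEX (helper25): existence of `P` and `V`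
-/

set_option autoImplicit false

open NumberField IsDedekindDomain
open scoped nonZeroDivisors Pointwise

namespace Pool.Agent.MUXJ

open _root_.MU3 _root_.Pool.Agent.MU3 _root_.Pool.Agent.MU3A _root_.Pool.Agent.MU3B _root_.Pool.Agent.RI _root_.Pool.Agent.RID
  _root_.Pool.Agent.MUX _root_.Pool.Agent.MUXK _root_.Pool.Agent.MUXE

noncomputable section

namespace Vex

/-- the integer `A + B - 1` is divisible by `p` -/
theorem dvd {p : ℕ} {A B : ℤ} (h : CaseP p A B) : (p : ℤ) ∣ A + B - 1 := by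
  rcases h.split with ⟨rfl, h3⟩ | ⟨rfl, h8⟩
  · rcases h.hB with hB | hB <;> subst hB
    · push_cast; omega
    · push_cast; omega
  · rcases h.hB with hB | hB <;> subst hB
    · push_cast; omega
    · push_cast; omega

theorem prime {p : ℕ} {A B : ℤ} (h : CaseP p A B) : p.Prime := by
  rcases h.split with ⟨rfl, -⟩ | ⟨rfl, -⟩ <;> norm_num

/-- the homomorphism `O → ℤ/p` which maps `w` to `B - 1` -/
def psi (p : ℕ) (A B : ℤ) (h : CaseP p A B) : OO A B →+* ZMod p :=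
  (QuadraticAlgebra.lift (R := ℤ) (a := A) (b := B) (A := ZMod p)
    ⟨((B - 1 : ℤ) : ZMod p), by
      have h1 : ((A + B - 1 : ℤ) : ZMod p) = 0 := (ZMod.intCast_zmod_eq_zero_iff_dvd _ _).2
        (dvd h)
      push_cast at h1
      simp only [zsmul_eq_mul, mul_one]
      push_cast
      linear_combination -h1⟩).toRingHom

theorem main (p : ℕ) (A B : ℤ) (h : CaseP p A B) (P : Ideal (OO A B)) (hP : IsPN p P)
    (hm : P.IsMaximal) : ∃ V : ValuationSubring ℂ, OverI V P ∧ (p : ℂ) ∈ V.nonunits := by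
  let φ : OO A B →+* ℂ := RNGaux.eH h.toCQ
  have hφ : ∀ x, φ x = emb x := RNGaux.eH_apply h.toCQ
  have hinj : ∀ x y, φ x = φ y → x = y := by
    intro x y hxy
    rw [hφ, hφ] at hxy
    exact RNGaux.emb_inj h.toCQ hxy
  let I : Ideal φ.range := P.map φ.rangeRestrict
  have hmem : ∀ y, y ∈ I ↔ ∃ x ∈ P, φ.rangeRestrict x = y := fun y =>
    Ideal.mem_map_iff_of_surjective _ φ.rangeRestrict_surjective
  have hI : I ≠ ⊤ := by
    intro hI
    have h1 : (1 : φ.range) ∈ I := by rw [hI]; trivial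
    obtain ⟨x, hx, hx1⟩ := (hmem _).1 h1
    have h2 : φ x = φ 1 := by
      have := congrArg Subtype.val hx1
      rw [map_one]
      simpa using this
    rw [hinj _ _ h2] at hx
    exact hm.ne_top ((Ideal.eq_top_iff_one P).2 hx)
  obtain ⟨V, hV, hVI⟩ := Ideal.image_subset_nonunits_valuationSubring I hI
  have hle : ∀ x : OO A B, V.valuation (emb x) ≤ 1 := by
    intro x
    rw [← hφ]
    exact (V.valuation_le_one_iff _).2 (hV ⟨x, rfl⟩)
  have hP1 : ∀ x ∈ P, emb x ∈ V.nonunits := by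
    intro x hx
    rw [← hφ]
    exact hVI ⟨φ.rangeRestrict x, (hmem _).2 ⟨x, hx, rfl⟩, rfl⟩
  have hO : OverI V P := by
    intro x
    refine ⟨fun hx => ?_, hP1 x⟩
    by_contra hxP
    obtain ⟨y, i, hi, hy⟩ := hm.exists_inv hxP
    have h1 : emb y * emb x + emb i = 1 := by
      rw [← hφ, ← hφ, ← hφ, ← map_mul, ← map_add, hy, map_one]
    rw [ValuationSubring.mem_nonunits_iff] at hx
    have hi' := hP1 i hi
    rw [ValuationSubring.mem_nonunits_iff] at hi'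
    have h2 : V.valuation (emb y * emb x) < 1 := by
      rw [map_mul]
      exact lt_of_le_of_lt (mul_le_of_le_one_left' (hle y)) hx
    have h3 : V.valuation (emb y * emb x + emb i) < 1 := Valuation.map_add_lt _ h2 hi'
    rw [h1, map_one] at h3
    exact lt_irrefl _ h3
  refine ⟨V, hO, ?_⟩
  have h4 : emb ((p : ℕ) : OO A B) = (p : ℂ) := by
    rw [← hφ, map_natCast]
  rw [← h4]
  exact (hO _).2 hP.mem

end Vex

theorem t_VEX : Sj_VEX := by
  intro p A B h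
  haveI : Fact p.Prime := ⟨Vex.prime h⟩
  let ψ := Vex.psi p A B h
  have hsurj : Function.Surjective ψ := ZMod.ringHom_surjective ψ
  have hmax : (RingHom.ker ψ).IsMaximal := RingHom.ker_isMaximal_of_surjective ψ hsurj
  have hP : IsPN p (RingHom.ker ψ) := by
    refine ⟨hmax.isPrime, ?_, ?_⟩
    · rw [RingHom.mem_ker, map_natCast, CharP.cast_eq_zero]
    · unfold MUX.nI
      rw [Nat.card_congr (RingHom.quotientKerEquivOfSurjective hsurj).toEquiv, Nat.card_zmod]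
  obtain ⟨V, hV, hpV⟩ := Vex.main p A B h _ hP hmax
  exact ⟨_, V, hP, hV, hpV⟩

end

end Pool.Agent.MUXJ


end

section

/-!
# MUX, last glue, module THN: half systems and the values `θ` (helper2)
-/

set_option autoImplicit false

namespace Pool.Agent.MUXZ

open _root_.MU3 _root_.Pool.Agent.MU3 _root_.Pool.Agent.MU3A _root_.Pool.Agent.MU3B _root_.Pool.Agent.RI _root_.Pool.Agent.RID
  _root_.Pool.Agent.MUX _root_.Pool.Agent.MUXK _root_.Pool.Agent.MUXJ _root_.Pool.Agent.MUXW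

noncomputable section

namespace THN

/-- lattices are stable under natural numbers -/
lemma nat_mul_mem (L : PeriodPair) {z : ℂ} (hz : z ∈ L.lattice) (n : ℕ) : (n : ℂ) * z ∈ L.lattice := by
  have h := L.lattice.nsmul_mem hz n
  rwa [nsmul_eq_mul] at h

/-- half systems for an odd number -/
lemma half (L : PeriodPair) {a : ℕ} (ha : Odd a) : ∃ H : Finset ℂ, IsHalf L a H := by
  obtain ⟨k, hk⟩ := ha
  refine b_HAL L (a : ℂ) ?_ (fun w hw => nat_mul_mem L hw a) (fun z h1 h2 => ?_)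
  · have : a ≠ 0 := by omega
    exact_mod_cast this
  · have h3 := nat_mul_mem L h2 k
    have h4 := L.lattice.sub_mem h1 h3
    convert h4 using 1
    rw [hk]
    push_cast
    ring

end THN

open _root_.Pool.Agent.MUXZ.THN _root_.Pool.Agent.MUXF.AlgX in
theorem tz_THN (hT : Sy_THG) : Sz_THN := by
  intro A B hC T n ι R a ha
  have hF : Pool.Agent.MUXF.CQ A B := ⟨hC.hB, hC.neg, hC.fund1, hC.fund0⟩
  have hdom := _root_.Pool.Agent.MUXF.AlgX.isDomain hF
  choose H hH using fun i => half (R.L i) ha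
  refine ⟨H, hH, fun m hm hmu hcop => ?_⟩
  have hNL := R.nl R.i0
  have hom := hNL.om_ne
  have hmC : (m : ℂ) ≠ 0 := by exact_mod_cast hm
  have ha0 : a ≠ 0 := by
    obtain ⟨k, hk⟩ := ha
    omega
  have embN : ∀ k : ℕ, emb ((k : ℕ) : OO A B) = k := by
    intro k
    have := _root_.Pool.Agent.MUXF.AlgX.emb_intCast hF (k : ℤ)
    simpa using this
  have emb1 : emb (1 : OO A B) = 1 := by
    have := _root_.Pool.Agent.MUXF.AlgX.emb_intCast hF 1
    simpa using this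
  have hm0 : ((m : ℕ) : OO A B) ≠ 0 := by
    intro h
    have h1 := embN m
    rw [h, _root_.Pool.Agent.MUXF.AlgX.emb_zero hF] at h1
    exact hmC h1.symm
  have hL1 : ∀ z : ℂ, z ∈ (R.L R.i0).lattice ↔ ∃ x : OO A B, z = R.om R.i0 * emb x := by
    intro z
    rw [hNL.mem, R.b0]
    simp
  have hpt : pt R m R.i0 1 = R.om R.i0 / emb ((m : ℕ) : OO A B) := by
    unfold pt
    have h1 : nI (⊤ : Ideal (OO A B)) = 1 := by
      unfold nI
      have : Subsingleton (OO A B ⧸ (⊤ : Ideal (OO A B))) := Ideal.Quotient.subsingleton_iff.2 rfl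
      exact Nat.card_unique
    rw [R.b0, h1, emb1, embN]
    push_cast
    ring
  set z : ℂ := R.om R.i0 / emb ((m : ℕ) : OO A B) with hz
  have hz' : z = R.om R.i0 / m := by rw [hz, embN]
  have h1 : emb ((m : ℕ) : OO A B) * z ∈ (R.L R.i0).lattice := by
    refine (hL1 _).2 ⟨1, ?_⟩
    rw [emb1, embN, hz']
    field_simp
  have h2 : z ∉ (R.L R.i0).lattice := by
    intro h
    obtain ⟨x, hx⟩ := (hL1 _).1 h
    apply hmu
    refine IsUnit.of_mul_eq_one x (_root_.Pool.Agent.MUXF.AlgX.emb_inj hF ?_)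
    rw [_root_.Pool.Agent.MUXF.AlgX.emb_mul hF, embN, emb1]
    rw [hz'] at hx
    field_simp at hx
    linear_combination -hx
  obtain ⟨-, -, hmem, -⟩ := hT A B hC T (R.b R.i0) (R.L R.i0) (R.om R.i0) hNL
    ((m : ℕ) : OO A B) hm0 (a : ℤ) (H R.i0) (by exact_mod_cast ha0)
    (by rw [Int.cast_natCast]; exact hH R.i0) z h1 h2
  refine ⟨⟨ThetaH (R.L R.i0) (H R.i0) z, hmem⟩, ?_, rfl, ?_⟩
  · rw [hpt]
  · intro h0
    have h3 : ThetaH (R.L R.i0) (H R.i0) z = 0 := congrArg Subtype.val h0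
    rw [b_TNZ (R.L R.i0) (a : ℂ) (H R.i0) (fun w hw => nat_mul_mem _ hw a) (hH R.i0) z h2] at h3
    obtain ⟨x, hx⟩ := (hL1 _).1 h3
    have h4 : ((a : ℕ) : OO A B) = ((m : ℕ) : OO A B) * x := by
      apply _root_.Pool.Agent.MUXF.AlgX.emb_inj hF
      rw [_root_.Pool.Agent.MUXF.AlgX.emb_mul hF, embN, embN]
      rw [hz'] at hx
      field_simp at hx
      linear_combination hx
    apply hmu
    obtain ⟨u, v, huv⟩ : IsCoprime ((a : ℕ) : ℤ) ((m : ℕ) : ℤ) := Nat.isCoprime_iff_coprime.2 hcop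
    have h5 : ((u : ℤ) : OO A B) * ((a : ℕ) : OO A B) + ((v : ℤ) : OO A B) * ((m : ℕ) : OO A B) =
        1 := by
      have := congrArg (fun k : ℤ => ((k : ℤ) : OO A B)) huv
      simpa using this
    refine IsUnit.of_mul_eq_one (((u : ℤ) : OO A B) * x + ((v : ℤ) : OO A B)) ?_
    rw [← h5, h4]
    ring

end

end Pool.Agent.MUXZ


end
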