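import Mathlib
import Pool.Agent.MVF.C007
import Pool.Agent.MVF.C019
import Pool.Agent.MVF.C067

/-! Parts: MU3.A2Val, MUX.StGX, NS.StGN, MUX.N_FK, MUX.N_BIN, MUX.N_GD, MUX.N_RET, MUX.N_NFE, MUX.N_GV, MUX.N_FGG, MUX.N_DSI -/

namespace Pool.Agent.MUXN
end Pool.Agent.MUXN
namespace Pool.Agent.MUXN.FGG
end Pool.Agent.MUXN.FGG
namespace Pool.Agent.MUXN.GD
end Pool.Agent.MUXN.GD
namespace Pool.Agent.MUXN.GvX
end Pool.Agent.MUXN.GvX
namespace Pool.Agent.MUXN.NBin
end Pool.Agent.MUXN.NBin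

section

/-! # MU3, block A2, part 8: a valuation ring of `ℂ` restricted to a number field -/

set_option autoImplicit false

open _root_.MU3 NumberField

namespace Pool.Agent.MU3A2

section Basic

variable {V : ValuationSubring ℂ}

theorem V_le {x : ℂ} : x ∈ V ↔ V.valuation x ≤ 1 := (V.valuation_le_one_iff x).symm

theorem V_lt {x : ℂ} : x ∈ V.nonunits ↔ V.valuation x < 1 := V.mem_nonunits_iff

theorem V_of_nonunit {x : ℂ} (h : x ∈ V.nonunits) : x ∈ V := V_le.2 (V_lt.1 h).le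

/-- an element integral over `ℤ` is in `V`. -/
theorem mem_of_integral {x : ℂ} (hx : IsIntegral ℤ x) : x ∈ V := by
  have h2 : IsIntegral V x := hx.tower_top
  obtain ⟨y, hy⟩ := IsIntegrallyClosed.isIntegral_iff.1 h2
  rw [← hy]
  exact y.2

theorem one_notMem : (1 : ℂ) ∉ V.nonunits := by
  rw [V_lt, map_one]
  exact lt_irrefl _

theorem nonunit_mul {x y : ℂ} (hx : x ∈ V) (hy : y ∈ V.nonunits) : x * y ∈ V.nonunits := by
  rw [V_lt, map_mul]
  exact mul_lt_one_of_nonneg_of_lt_one_right (V_le.1 hx) zero_le (V_lt.1 hy)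

theorem int_mem (n : ℤ) : (n : ℂ) ∈ V := intCast_mem V.toSubring n

/-- an integer prime to `3` is a unit of `V` when `3` is a nonunit. -/
theorem inv_mem_of_coprime (h3 : (3 : ℂ) ∈ V.nonunits) {n : ℤ} (hn : IsCoprime n 3) :
    ((n : ℂ))⁻¹ ∈ V := by
  have hnn : (n : ℂ) ∉ V.nonunits := by
    intro h
    obtain ⟨a, b, hab⟩ := hn
    have h1 : (a : ℂ) * n + b * 3 = 1 := by exact_mod_cast congrArg (fun z : ℤ => (z : ℂ)) hab
    have h2 := V.nonunits.add_mem (nonunit_mul (int_mem a) h) (nonunit_mul (int_mem b) h3)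
    rw [h1] at h2
    exact one_notMem h2
  rw [ValuationSubring.mem_nonunits_iff_or] at hnn
  push Not at hnn
  exact hnn.2

end Basic

section Unif

variable {V : ValuationSubring ℂ} {K : Type*} [Field K] [NumberField K] (io : K →+* ℂ)

/-- the nonzero elements of a number field are powers of one element times units of `V`. -/
theorem exists_unif (h3 : (3 : ℂ) ∈ V.nonunits) :
    ∃ ρ : K, ρ ≠ 0 ∧ io ρ ∈ V.nonunits ∧
      ∀ y : K, y ≠ 0 → ∃ (e : ℤ) (u : K), y = ρ ^ e * u ∧ io u ∈ V ∧ (io u)⁻¹ ∈ V := by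
  have hint : ∀ x : 𝓞 K, io x ∈ V := fun x =>
    mem_of_integral ((RingOfIntegers.isIntegral_coe x).map io.toIntAlgHom)
  set f : 𝓞 K →+* V := (io.comp (algebraMap (𝓞 K) K)).codRestrict V.toSubring hint with hf
  set P : Ideal (𝓞 K) := (IsLocalRing.maximalIdeal V).comap f with hP
  have hmem : ∀ x : 𝓞 K, x ∈ P ↔ io x ∈ V.nonunits := by
    intro x
    rw [hP, Ideal.mem_comap, ← ValuationSubring.coe_mem_nonunits_iff]
    rfl
  have hPp : P.IsPrime := Ideal.comap_isPrime f _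
  have h3P : (3 : 𝓞 K) ∈ P := by
    rw [hmem]
    have : io ((3 : 𝓞 K) : K) = 3 := by
      rw [show ((3 : 𝓞 K) : K) = 3 from map_ofNat _ 3, map_ofNat]
    rw [this]
    exact h3
  have hPb : P ≠ ⊥ := by
    intro h
    rw [h, Ideal.mem_bot] at h3P
    have h3K := congrArg (algebraMap (𝓞 K) K) h3P
    rw [map_ofNat, map_zero] at h3K
    exact (by norm_num : (3 : K) ≠ 0) h3K
  have hPm : P.IsMaximal := hPp.isMaximal hPb
  have hlt : P ^ 2 < P := by
    have := Ideal.pow_right_strictAnti P hPb hPp.ne_top (show 1 < 2 by norm_num)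
    simpa using this
  obtain ⟨ρ, hρP, hρ2⟩ := SetLike.exists_of_lt hlt
  have hρ0 : ρ ≠ 0 := fun h => hρ2 (by rw [h]; exact zero_mem _)
  obtain ⟨J, hJ⟩ : P ∣ Ideal.span {ρ} := by
    rw [Ideal.dvd_iff_le, Ideal.span_singleton_le_iff_mem]
    exact hρP
  have hJP : ¬ J ≤ P := by
    intro h
    apply hρ2
    have h1 : Ideal.span {ρ} ≤ P ^ 2 := by
      rw [hJ, pow_two]
      exact Ideal.mul_mono_right h
    exact h1 (Ideal.mem_span_singleton_self ρ)
  obtain ⟨z, hzJ, hzP⟩ := SetLike.not_le_iff_exists.1 hJP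
  have hdiv : ∀ x ∈ P, ∃ w, x * z = ρ * w := by
    intro x hx
    have h1 : x * z ∈ Ideal.span {ρ} := by
      rw [hJ]
      exact Ideal.mul_mem_mul hx hzJ
    obtain ⟨w, hw⟩ := Ideal.mem_span_singleton.1 h1
    exact ⟨w, hw⟩
  have key : ∀ m : ℕ, ∀ a : 𝓞 K, a ∉ P ^ (m + 1) → ∃ (k : ℕ) (a' : 𝓞 K), a' ∉ P ∧
      a * z ^ k = ρ ^ k * a' := by
    intro m
    induction m with
    | zero =>
      intro a ha
      exact ⟨0, a, by simpa using ha, by simp⟩
    | succ m ih =>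
      intro a ha
      by_cases haP : a ∈ P
      · obtain ⟨w, hw⟩ := hdiv a haP
        have hw' : w ∉ P ^ (m + 1) := by
          intro h
          apply ha
          have h1 : z * a ∈ P ^ (m + 1 + 1) := by
            rw [mul_comm, hw, pow_succ' P]
            exact Ideal.mul_mem_mul hρP h
          exact (Ideal.IsMaximal.mul_mem_pow P h1).resolve_left hzP
        obtain ⟨k, a', ha', hk⟩ := ih w hw'
        refine ⟨k + 1, a', ha', ?_⟩
        rw [pow_succ' z, ← mul_assoc, hw, pow_succ' ρ, mul_assoc, hk, mul_assoc]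
      · exact ⟨0, a, haP, by simp⟩
  have key2 : ∀ a : 𝓞 K, a ≠ 0 → ∃ (k : ℕ) (a' : 𝓞 K), a' ∉ P ∧ a * z ^ k = ρ ^ k * a' := by
    intro a ha
    by_contra hcon
    have h1 : ∀ m, a ∈ P ^ m := by
      intro m
      rcases m with _ | m
      · simp
      · by_contra h
        exact hcon (key m a h)
    have h2 : a ∈ ⨅ i, P ^ i := by
      rw [Ideal.mem_iInf]
      exact h1
    rw [Ideal.iInf_pow_eq_bot_of_isDomain P hPp.ne_top, Ideal.mem_bot] at h2
    exact ha h2
  have hunit : ∀ a : 𝓞 K, a ∉ P → (a : K) ≠ 0 ∧ io a ∈ V ∧ (io a)⁻¹ ∈ V := by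
    intro a ha
    rw [hmem, ValuationSubring.mem_nonunits_iff_or] at ha
    push Not at ha
    exact ⟨fun h => ha.1 (by rw [h, map_zero]), hint a, ha.2⟩
  refine ⟨(ρ : K), fun h => hρ0 (by exact_mod_cast h), (hmem ρ).1 hρP, ?_⟩
  intro y hy
  obtain ⟨a, b, hb, hab⟩ := IsFractionRing.div_surjective (A := 𝓞 K) y
  have hb0 : b ≠ 0 := nonZeroDivisors.ne_zero hb
  have ha0 : a ≠ 0 := by
    rintro rfl
    rw [map_zero, zero_div] at hab
    exact hy hab.symm
  obtain ⟨k, a', ha', hk⟩ := key2 a ha0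
  obtain ⟨n, b', hb', hn⟩ := key2 b hb0
  obtain ⟨hz0, hz1, hz2⟩ := hunit z hzP
  obtain ⟨ha'0, ha'1, ha'2⟩ := hunit a' ha'
  obtain ⟨hb'0, hb'1, hb'2⟩ := hunit b' hb'
  have hρK : (ρ : K) ≠ 0 := fun h => hρ0 (by exact_mod_cast h)
  have hk' : (a : K) * (z : K) ^ k = (ρ : K) ^ k * (a' : K) := by exact_mod_cast hk
  have hn' : (b : K) * (z : K) ^ n = (ρ : K) ^ n * (b' : K) := by exact_mod_cast hn
  have hbK : (b : K) ≠ 0 := fun h => hb0 (by exact_mod_cast h)
  refine ⟨(k : ℤ) - n, (z : K) ^ n * ((z : K) ^ k)⁻¹ * (a' : K) * (b' : K)⁻¹, ?_, ?_, ?_⟩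
  · rw [← hab, zpow_sub₀ hρK, zpow_natCast, zpow_natCast]
    have e1 : (algebraMap (𝓞 K) K a) = (a : K) := rfl
    have e2 : (algebraMap (𝓞 K) K b) = (b : K) := rfl
    rw [e1, e2]
    have hzk : (z : K) ^ k ≠ 0 := pow_ne_zero _ hz0
    have hρn : (ρ : K) ^ n ≠ 0 := pow_ne_zero _ hρK
    rw [div_eq_iff hbK]
    field_simp
    linear_combination ((ρ : K) ^ n * (b' : K)) * hk' - ((ρ : K) ^ k * (a' : K)) * hn'
  · simp only [map_mul, map_inv₀, map_pow]
    exact V.mul_mem _ _ (V.mul_mem _ _ (V.mul_mem _ _ (V.toSubring.pow_mem hz1 n)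
      (by rw [← inv_pow]; exact V.toSubring.pow_mem hz2 k)) ha'1) hb'2
  · simp only [map_mul, map_inv₀, map_pow, mul_inv, inv_inv]
    exact V.mul_mem _ _ (V.mul_mem _ _ (V.mul_mem _ _
      (by rw [← inv_pow]; exact V.toSubring.pow_mem hz2 n) (V.toSubring.pow_mem hz1 k)) ha'2) hb'1

end Unif

end Pool.Agent.MU3A2


end

section

/-!
# MUX, block G (helper3): the symbol is not zero modulo `V` on closed cycles. No Honda theory

`PAPER_X.md` section 10, for `p = 2` and `p = 3` (nothing here depends on `p` except through `V`). Every statement is a `def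
Sg_X : Prop`; the module `MUXN_X` proves `theorem tg_X (h : Sg_Y) ... : Sg_X` in `Pool/Agent/MUX/N_X.lean`, namespace
`Pool.Agent.MUXN`; hypotheses are exactly the statements named under `Uses`. `St_WQ`, `St_QA`, ... of `StQ.lean` are
unconditional (`Pool/Agent/MU3/Q_ALL.lean`).
`v = V.valuation`, `v x ≤ 1` iff `x ∈ V` (`ValuationSubring.valuation_le_one_iff`), `v x < 1` iff `x ∈ V.nonunits`.
-/

set_option autoImplicit false

namespace Pool.Agent.MUXN

open _root_.MU3 _root_.Pool.Agent.MU3A _root_.Pool.Agent.MU3B _root_.Pool.Agent.MU3Q _root_.Pool.Agent.MUX _root_.Pool.Agent.MuSym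
  OnePoint UpperHalfPlane
open scoped MatrixGroups

noncomputable section

/-! ## The Gauss lemma -/

/-- (GV) abstract Gauss lemma: if `dX = (2Y + a₁X + a₃) g` on a curve with good reduction, then `g` is integral.

PROOF. `v(2) = 1` or `v(3) = 1` (`3 - 2 = 1`). Apply `D` to the equation: `(2Y + a₁X + a₃) DY = (3X² + 2a₂X + a₄ - a₁Y) DX`, so with `T = 2Y + a₁X + a₃ ≠ 0`:
`DY = S g`, `S = 3X² + 2a₂X + a₄ - a₁Y`. (1) `v X > 1`: then `v Y > 1`, `v(Y)² = v(X)³` (compare the terms of the equation: `v(Y) > v(X) > 1`, because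
`v(Y)² > v(X)²` ...: if `v Y ≤ v X` the right side `v(X)³` would be larger than every term on the left). If `v 2 = 1`: `v T = v Y`, `v g = v(DX)/v(Y) ≤ v(X)/v(Y) < 1`.
If `v 3 = 1`: `v S = v(X)²` (`v Y < v(X)²` as `v(Y)² = v(X)³ < v(X)⁴`), `v g = v(DY)/v(X)² ≤ v(Y)/v(X)² < 1`. (2) `v X ≤ 1`: `v Y ≤ 1` (monic equation). Reduce to
the residue field of the valuation subring of `v` (`Valuation.valuationSubring`): the reduced curve has `Δ ≠ 0`, so the reduced point is nonsingular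
(`WeierstrassCurve.Affine.equation_iff_nonsingular` / `nonsingular_of_Δ_ne_zero`), so `v T = 1` or `v S = 1` (the partial derivatives are `S` up to sign and `T`). So
`v g = v(DX) ≤ 1` or `v g = v(DY) ≤ 1`. -/
def Sg_GV : Prop :=
  ∀ (E Γ : Type) [Field E] [LinearOrderedCommGroupWithZero Γ] (v : Valuation E Γ)
    (D : Derivation ℤ E E) (_ : ∀ x, v (D x) ≤ v x) (W : WeierstrassCurve.Affine E)
    (_ : D W.a₁ = 0 ∧ D W.a₂ = 0 ∧ D W.a₃ = 0 ∧ D W.a₄ = 0 ∧ D W.a₆ = 0)
    (_ : v W.a₁ ≤ 1 ∧ v W.a₂ ≤ 1 ∧ v W.a₃ ≤ 1 ∧ v W.a₄ ≤ 1 ∧ v W.a₆ ≤ 1) (_ : v W.Δ = 1)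
    (X Y g : E) (_ : W.Equation X Y) (_ : 2 * Y + W.a₁ * X + W.a₃ ≠ 0)
    (_ : D X = (2 * Y + W.a₁ * X + W.a₃) * g), v g ≤ 1

/-- (GD) the fraction field of `O⟦q⟧`: the Gauss valuation and the derivation `q d/dq`.

PROOF. `R = O⟦q⟧` is a domain, `ϖ` a uniformiser of `O`; `C ϖ` is prime in `R` (`R/(C ϖ)` is `(O/ϖ)⟦q⟧`, a domain: the kernel of
`PowerSeries.map (residue map)` is `(C ϖ)`), and `emultiplicity (C ϖ) r ≠ ⊤` for `r ≠ 0` (a coefficient `≠ 0` is divisible by a bounded power of `ϖ`). Valuation on `R` with values in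
`WithZero (Multiplicative ℤ)` from `multiplicity_addValuation` (or by hand: `exp(-n)` if `C ϖ^n` divides `r` exactly), support `0`, extended to the fraction field by
`Valuation.extendToLocalization`. `v(C c)` as stated: by definition (`c = ϖ^n unit`), third property: `v f ≤ v(C c)` means `C c ∣ f` for `f ∈ R`. Derivation: `θ : R → R` (coefficients `n f_n`) is a derivation; the ring
homomorphism `R → DualNumber E`, `r ↦ r + θ(r) ε` maps nonzero elements to units (`TrivSqZeroExt.isUnit_iff_isUnit_fst` or similar), so it extends to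
`φ : E → DualNumber E` (`IsLocalization.lift`), `fst (φ x) = x` (uniqueness of the lift), `D x = snd (φ x)`. `D(a/b) = (b θ a - a θ b)/b²`, `v(θ a) ≤ v a` (`C ϖ^n ∣ a` implies `C ϖ^n ∣ θ a`), so
`v(D x) ≤ v x`. -/
def Sg_GD : Prop :=
  ∀ (O : Type) [CommRing O] [IsDomain O] [IsDiscreteValuationRing O],
    ∃ (v : Valuation (FractionRing (PowerSeries O)) (WithZero (Multiplicative ℤ)))
      (D : Derivation ℤ (FractionRing (PowerSeries O)) (FractionRing (PowerSeries O))),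
      (∀ f : PowerSeries O, v (algebraMap _ _ f) ≤ 1) ∧
      (∀ u : O, IsUnit u → v (algebraMap _ _ (PowerSeries.C u)) = 1) ∧
      (∀ (f : PowerSeries O) (c : O), c ≠ 0 →
        v (algebraMap _ _ f) ≤ v (algebraMap _ _ (PowerSeries.C c)) → PowerSeries.C c ∣ f) ∧
      (∀ x, v (D x) ≤ v x) ∧
      ∀ f : PowerSeries O, D (algebraMap _ _ f) =
        algebraMap _ _ (PowerSeries.mk fun n => (n : O) * PowerSeries.coeff n f)

/-- (GP) the Gauss lemma for power series. `th f = q df/dq`. `x = A/B`, `g = G/c`.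

Uses Sg_GV, Sg_GD. PROOF. `E` the fraction field (characteristic `≠ 2` by `h2 : (2 : O) ≠ 0`), `v`, `D` from GD. `X = A/B`, `g = G/C c ≠ 0` (if `G = 0` clear), `DX = (B th A - A th B)/B² ≠ 0`,
`T = DX/g ≠ 0`, `Y = (T - a₁X - a₃)/2`. The hypothesis divided by `B⁴ C(c)² g² ...` says `T² = 4X³ + b₂X² + 2b₄X + b₆`, which is the Weierstrass equation for `(X, Y)`
(`b₂ = a₁² + 4a₂`, `b₄ = 2a₄ + a₁a₃`, `b₆ = a₃² + 4a₆`). `D` kills constants (`C a`). GV: `v g ≤ 1`, i.e. `v G ≤ v(C c)`. -/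
def Sg_GP : Prop :=
  ∀ (O : Type) [CommRing O] [IsDomain O] [IsDiscreteValuationRing O] (_ : (2 : O) ≠ 0)
    (W : WeierstrassCurve O) (_ : IsUnit W.Δ) (th : PowerSeries O → PowerSeries O)
    (_ : ∀ f n, PowerSeries.coeff n (th f) = (n : O) * PowerSeries.coeff n f)
    (P Q G : PowerSeries O) (c : O) (_ : c ≠ 0) (_ : Q ≠ 0) (_ : Q * th P - P * th Q ≠ 0)
    (_ : PowerSeries.C c ^ 2 * (Q * th P - P * th Q) ^ 2 =
      Q * (4 * P ^ 3 + PowerSeries.C W.b₂ * P ^ 2 * Q + 2 * PowerSeries.C W.b₄ * P * Q ^ 2 +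
        PowerSeries.C W.b₆ * Q ^ 3) * G ^ 2),
    PowerSeries.C c ∣ G

/-- (DV) a valuation ring of a number field above `p` is a discrete valuation ring.

PROOF. `K` as a number field, `W = V.comap (K → ℂ)`. `𝓞 K ≤ W` (`W` is integrally closed), `P = {x ∈ 𝓞 K : x ∈ W.nonunits}` is a prime ideal, `≠ ⊥` (it contains `p`). `W` is the localization of
`𝓞 K` at `P` (`Pool/Agent/MU3/G_G6a.lean` for the same argument: every `y ∈ W` is `x/z` with `x, z ∈ 𝓞 K`, `z ∉ P`), so a discrete valuation ring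
(`IsLocalization.AtPrime.isDiscreteValuationRing_of_dedekind_domain`). -/
def Sg_DV : Prop :=
  ∀ (K : Subfield ℂ) [NumberField K] (V : ValuationSubring ℂ) (p : ℕ) (_ : p.Prime)
    (_ : (p : ℂ) ∈ V.nonunits), IsDiscreteValuationRing (V.comap K.subtype)

/-- (BIN) integrality of a series whose integral is a modular point of a curve with good reduction.
`L` is a normalised lattice with good reduction at `V` (`κ`, `1 + 1728 κ` units), `Z = Σ z_n q^n` is a holomorphic function on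
`ℍ` with periods under `Γ₁(N)` in `L`, `z_n ∈ K`, `n z_n` with bounded denominators. Then `n z_n ∈ V` for all `n`; here only `n = 1`.

Uses St_WQ, Sg_GP, Sg_DV. PROOF. If `z_1 = 0`: clear. Otherwise St_WQ with `c0 = -1/12`, `a2 = 1/4`, `a4 = -36 κ`, `a6 = -κ` (`κ = kap L`; the equation is `derivWeierstrassP_sq` and `g₂ = -18 g₃`; the coefficients are
in `K`) gives `S`, `A, B ∈ PP K V`, `A ≠ 0`, `A S = B`; `S ≠ 0` as `coeff 2 S = z_1² ≠ 0`, so `B ≠ 0`. Let `O = V.comap K.subtype` (DV), regard `A`, `B` as power series over `O` (`P := A`, `Q := B`), `G = c θz` for the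
`c` of the hypothesis, `W = ⟨1, 0, 0, -36κ, -κ⟩` over `O`: `b₂ = 1`, `b₄ = -72κ`, `b₆ = -4κ`, `Δ = κ (1 + 1728 κ)²` (check by `ring`), a unit; `4(x³ + x²/4 - 36κx - κ) = 4x³ + b₂x² + 2b₄x + b₆`. From `S = B/A` and the equation of WQ:
`θS = (A θB - B θA)/A²`, so `(A θB - B θA)² = B (4A³ + A²B - 144κ AB² - 4κB³) (θz)²`; times `c²`. `A θB - B θA ≠ 0`: `θS ≠ 0` as `2 z_1² ≠ 0`. GP: `c ∣ G`, so `θz = G/c` has coefficients in `V`. -/
def Sg_BIN : Prop :=
  ∀ (K : Subfield ℂ) [NumberField K] (V : ValuationSubring ℂ) (p : ℕ) (_ : p.Prime)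
    (_ : (p : ℂ) ∈ V.nonunits) (N : ℕ) (_ : 0 < N)
    (_ : Complex.exp (2 * Real.pi * Complex.I / N) ∈ K) (L : PeriodPair)
    (_ : L.g₂ = -18 * L.g₃) (_ : kap L ∈ K) (_ : V.valuation (kap L) = 1)
    (_ : V.valuation (1 + 1728 * kap L) = 1) (Z : ℍ → ℂ) (z : PowerSeries ℂ) (_ : QS Z z)
    (_ : ∀ n, PowerSeries.coeff n z ∈ K) (_ : PowerSeries.coeff 0 z = 0)
    (_ : ∃ c ∈ K, c ≠ 0 ∧ c ∈ V ∧ ∀ n : ℕ, c * (n * PowerSeries.coeff n z) ∈ V)
    (_ : ∀ γ : SL(2, ℤ), ∃ (C : ℂ) (w : ℕ → ℂ), ∀ τ : ℍ, HasSum (fun n : ℕ => w n *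
      Complex.exp (2 * Real.pi * Complex.I * (τ : ℂ) / N) ^ (n + 1)) (Z (γ • τ) - C))
    (_ : ∀ γ ∈ CongruenceSubgroup.Gamma1 N, ∀ τ : ℍ, Z (γ • τ) - Z τ ∈ L.lattice),
    PowerSeries.coeff 1 z ∈ V

/-! ## The form is determined by its periods -/

/-- (ZL) a form whose integral is invariant under `Γ₁(N)` is zero.

Uses St_QA, St_JB. PROOF. `ι = {v : Fin 2 → ZMod N // ∃ γ, v = vm (v01 N) γ}`, finite (as in `St_WQ`); `Z_v τ = Z (γ_v τ)` does not depend on the choice of `γ_v` (bottom row `≡ (0,1)`: `Γ₁(N)`), `Z_v (γ τ) = Z_(v γ) τ`.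
The coefficients of `∏_v (T - Z_v τ)` are invariant under `SL(2, ℤ)`, holomorphic (`Z` is: a convergent power series in `q`) and bounded at `i ∞` (by the expansions `C + Σ w_n q_N^(n+1)`, which tend to `C` for
`im τ → ∞`), so constant (`ModularFormClass.levelOne_weight_zero_const`, as in `Pool/Agent/MU3/Q_L1.lean`). So `Z τ` is a root of a fixed monic polynomial: `Z` is a continuous function on the connected space `ℍ` with finitely many values, so constant.
`St_QA` (uniqueness): `z` is the constant series, and its constant coefficient is `0`. -/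
def Sg_ZL : Prop :=
  ∀ (N : ℕ) (_ : 0 < N) (Z : ℍ → ℂ) (z : PowerSeries ℂ) (_ : QS Z z)
    (_ : PowerSeries.coeff 0 z = 0)
    (_ : ∀ γ : SL(2, ℤ), ∃ (C : ℂ) (w : ℕ → ℂ), ∀ τ : ℍ, HasSum (fun n : ℕ => w n *
      Complex.exp (2 * Real.pi * Complex.I * (τ : ℂ) / N) ^ (n + 1)) (Z (γ • τ) - C))
    (_ : ∀ γ ∈ CongruenceSubgroup.Gamma1 N, ∀ τ : ℍ, Z (γ • τ) = Z τ), z = 0

/-! ## Descent -/

/-- (DSI) integral reduced basis of a subspace.

PROOF. Induction on `dim X`. `X = 0`: `J = ∅`. Otherwise choose `x ∈ X`, `x ≠ 0`, and `i` with `v(x_i)` maximal, scale to `x_i = 1`, so `x_l ∈ V` for all `l`. `X' = {y ∈ X : y_i = 0}` has dimension one less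
(`x ∉ X'`, `X = X' + ℂ x`). `J'`, `e'` for `X'`; `i ∉ J'` (`e'_j` has `i`-coordinate `0`). `J = J' ∪ {i}`, `e_j = e'_j` for `j ∈ J'`, `e_i = x - Σ_(j ∈ J') x_j e'_j`. -/
def Sg_DSI : Prop :=
  ∀ (V : ValuationSubring ℂ) (r : ℕ) (X : Submodule ℂ (Fin r → ℂ)),
    ∃ (J : Finset (Fin r)) (e : Fin r → (Fin r → ℂ)),
      (∀ j ∈ J, e j ∈ X ∧ (∀ i, e j i ∈ V) ∧ ∀ j' ∈ J, e j j' = if j = j' then 1 else 0) ∧
      ∀ x ∈ X, x = ∑ j ∈ J, x j • e j

/-- (DSC) descent: if `X` is stable under the automorphisms of `ℂ` which are trivial on `k`, the basis is rational over `k`.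

Uses Sg_DSI. PROOF. `J`, `e` from DSI. For `σ` the vector `σ(e_j) ∈ X` has the same coordinates in `J` (`σ 0 = 0`, `σ 1 = 1`), so it is `e_j`: all coordinates of `e_j` are fixed by all `σ`, so in `k`. -/
def Sg_DSC : Prop :=
  ∀ (k : Set ℂ) (_ : ∀ x : ℂ, (∀ σ : ℂ ≃+* ℂ, (∀ a ∈ k, σ a = a) → σ x = x) → x ∈ k)
    (V : ValuationSubring ℂ) (r : ℕ) (X : Submodule ℂ (Fin r → ℂ))
    (_ : ∀ σ : ℂ ≃+* ℂ, (∀ a ∈ k, σ a = a) → ∀ x ∈ X, (fun i => σ (x i)) ∈ X),
    ∃ (J : Finset (Fin r)) (e : Fin r → (Fin r → ℂ)),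
      (∀ j ∈ J, e j ∈ X ∧ (∀ i, e j i ∈ k ∧ e j i ∈ V) ∧ ∀ j' ∈ J, e j j' = if j = j' then 1 else 0) ∧
      ∀ x ∈ X, x = ∑ j ∈ J, x j • e j

/-- (LOC) common denominator at `P` of elements of `k ∩ V`.

PROOF. One element `y ∈ k ∩ V`: `y = emb a/emb b` with `a, b ∈ O`, `b ≠ 0` (`kk A B` is the fraction field of `emb O`: `y = s + t w` with rational `s`, `t`). `O` is a Dedekind domain (helper51's `XRing`, or `CQ`); let `I = {t ∈ O : t a ∈ (b)}`, an
ideal. If `I ≤ P` we get a contradiction: localise at `P`: `O_P` is a discrete valuation ring, `V ∩ k ⊇ O_P` has the same maximal ideal contracted (`OverI`), `y ∈ V`. If `y ∉ O_P` then `y⁻¹ ∈ P O_P`, `y⁻¹ = emb c/emb t`, `t ∉ P`, `c ∈ P`, so `y⁻¹ ∈ V.nonunits`, contradiction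
to `y ∈ V`. So `y ∈ O_P`, `y = emb c/emb t`, `t ∉ P`. Finitely many: product of the `t` (`P` is prime). (Without Dedekind theory: `IsPN` and `CQ` give `P P̄ = (l)`; see `Pool/Agent/MU3/G_G5a.lean` for the principal case.) -/
def Sg_LOC : Prop :=
  ∀ (A B : ℤ) (_ : CQ A B) (l : ℕ) (_ : l.Prime) (P : Ideal (OO A B)) (_ : IsPN l P)
    (V : ValuationSubring ℂ) (_ : OverI V P) (S : Finset ℂ)
    (_ : ∀ y ∈ S, y ∈ kk A B ∧ y ∈ V),
    ∃ t : OO A B, t ∉ P ∧ ∀ y ∈ S, ∃ c : OO A B, emb t * y = emb c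

/-- (FK) the fixed field of the automorphisms over `k` is `k`.

Uses `Su_AUF` (`StU.lean`, proved in `U_AUF.lean`). PROOF. AUF for `F = kk A B` (algebraic over `ℚ`: generated by `wC A B`, a root of `X² - B X - A`; `wC_sq`). `σ` is trivial on `kk A B` iff `FixK A B σ`
(`kk A B = ℚ(w)`; `IntermediateField.adjoin_induction`, `σ` is trivial on `ℚ`). -/
def Sg_FK : Prop :=
  ∀ (A B : ℤ) (_ : CQ A B), (∀ σ : ℂ ≃+* ℂ, FixK A B σ ↔ ∀ a ∈ kk A B, σ a = a) ∧
    ∀ x : ℂ, (∀ σ : ℂ ≃+* ℂ, FixK A B σ → σ x = x) → x ∈ kk A B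

/-- (FGG) finitely many elements of `Γ₁(N)` determine every homomorphism to `ℂ`.

PROOF. `Γ₁(N)` is finitely generated (`Pool/Agent/MU3/G_G6c.lean`: finite index in `SL(2, ℤ)`, `SpecialLinearGroup.SL2Z_generators`, `Subgroup.fg_of_index_ne_zero`). A homomorphism with values in the additive subgroup `M` on generators has all values in `M`
(`ρ(h⁻¹) = -ρ(h)`). -/
def Sg_FGG : Prop :=
  ∀ (N : ℕ) (_ : 0 < N), ∃ (r : ℕ) (h : Fin r → SL(2, ℤ)),
    (∀ i, h i ∈ CongruenceSubgroup.Gamma1 N) ∧ ∀ (ρ : SL(2, ℤ) → ℂ)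
      (_ : ∀ g ∈ CongruenceSubgroup.Gamma1 N, ∀ g' ∈ CongruenceSubgroup.Gamma1 N,
        ρ (g * g') = ρ g + ρ g') (M : AddSubgroup ℂ) (_ : ∀ i, ρ (h i) ∈ M),
      ∀ g ∈ CongruenceSubgroup.Gamma1 N, ρ g ∈ M

/-- (NFE) a number field in `ℂ` containing finitely many given algebraic numbers.

PROOF. `IntermediateField.adjoin ℚ S` is finite dimensional (`IntermediateField.finiteDimensional_adjoin` or the argument of `Pool/Agent/MU3/G_GTH.lean`, `exists_K`), `.toSubfield`. -/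
def Sg_NFE : Prop :=
  ∀ S : Finset ℂ, (∀ x ∈ S, IsAlgebraic ℚ x) →
    ∃ K : Subfield ℂ, NumberField K ∧ ∀ x ∈ S, x ∈ K

/-- (RET) a linear system over a subfield which is solvable in `ℂ` is solvable in the subfield.

PROOF. `ℂ` is a vector space over `K`; `K ⊆ ℂ` has a complement, so there is a `K`-linear `l : ℂ → K` with `l 1 = 1` (`LinearMap.exists_leftInverse_of_injective` for `K → ℂ`). Apply `l` to the equations: `y' = l ∘ y`. -/
def Sg_RET : Prop :=
  ∀ (K : Subfield ℂ) (ι : Type) [Fintype ι] (r : ℕ) (P : ι → Fin r → ℂ) (w : Fin r → ℂ)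
    (_ : ∀ c i, P c i ∈ K) (_ : ∀ i, w i ∈ K) (y : ι → ℂ) (_ : ∀ i, ∑ c, y c * P c i = w i),
    ∃ y' : ι → ℂ, (∀ c, y' c ∈ K) ∧ ∀ i, ∑ c, y' c * P c i = w i

/-! ## The theorem -/

/-- The data for Theorem G: `E` a finite set of characters, stable under `Aut(ℂ / k)` up to the choice of the class. -/
structure GDat {A B : ℤ} {n : ℕ} {ι : Type} (R : Reps A B n ι) (E : Set (OO A B → ℂ))
    (N' : ℕ) : Prop where
  fin : E.Finite
  pos : 0 < N'
  add : ∀ e ∈ E, ∀ i, ∀ x y z : OnePoint ℚ,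
    PhiI (R.b i) e x y + PhiI (R.b i) e y z = PhiI (R.b i) e x z
  inv : ∀ e ∈ E, ∀ i, ∀ a b c d : ℤ, a * d - b * c = 1 → (N' : ℤ) ∣ c → (N' : ℤ) ∣ d - 1 →
    ∀ x y : OnePoint ℚ, PhiI (R.b i) e (mob a b c d x) (mob a b c d y) = PhiI (R.b i) e x y
  per : ∀ e ∈ E, ∀ i, ∀ a b c d : ℤ, a * d - b * c = 1 → (N' : ℤ) ∣ c → (N' : ℤ) ∣ d - 1 →
    ∀ τ : ℂ, 0 < τ.im → thetaIntI (R.b i) e ((a * τ + b) / (c * τ + d)) =
      thetaIntI (R.b i) e τ + PhiI (R.b i) e ∞ (mob a b c d ∞)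
  cusp : ∀ e ∈ E, ∀ i, ∀ a b c d : ℤ, a * d - b * c = 1 → ∃ (C : ℂ) (w : ℕ → ℂ), ∀ τ : ℂ,
    0 < τ.im → HasSum (fun n : ℕ => w n *
      Complex.exp (2 * Real.pi * Complex.I * τ / N') ^ (n + 1))
      (thetaIntI (R.b i) e ((a * τ + b) / (c * τ + d)) - C)
  qexp : ∀ e ∈ E, ∀ i, ∃ α : ℕ → ℂ, (∀ n, IsIntegral ℤ (α n)) ∧
    (∃ K : Subfield ℂ, NumberField K ∧ ∀ n, α n ∈ K) ∧ (i = R.i0 → α 1 = 1) ∧
    (i ≠ R.i0 → α 1 = 0) ∧ ∀ τ : ℂ, 0 < τ.im → HasSum (fun n : ℕ => α n / n *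
      Complex.exp (2 * Real.pi * Complex.I * τ) ^ n) (thetaIntI (R.b i) e τ)
  rat : ∀ σ : ℂ ≃+* ℂ, FixK A B σ → ∀ e ∈ E, ∀ i, ∃ e' ∈ E, ∃ (j : ι) (u : ℂ),
    ∀ x y : OnePoint ℚ, σ (PhiI (R.b i) e x y / R.om i) = u * (PhiI (R.b j) e' x y / R.om j)
  alg : ∀ e ∈ E, ∀ i, ∀ x y : OnePoint ℚ, IsAlgebraic ℚ (PhiI (R.b i) e x y / R.om i)
  algo : ∀ i, IsAlgebraic ℚ (R.om i / R.om R.i0)

/-- (GJ) the forms `g_j`: every vector of the descended basis comes from a form whose first coefficient is in `V`.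

`h` as in FGG. `Per(ψ) = (ψ ∞ (h_l ∞)/Om)_l`, `Om = om_(i0)`. Uses Sg_BIN, Sg_RET, Sg_NFE, Sg_LOC, Sg_FGG. PROOF. Let `w = Per(Σ_(i,e) y_(i,e) Phi_(i,e))` have coordinates in `k ∩ V`. Number field `K` (NFE) containing: all `Phi_(i,e) ∞ (h_l ∞)/Om`
(`alg`, `algo`, product), `w`'s coordinates (in `k`, algebraic), `kap (L_(i0))` (`halg`), `exp(2πi/N')`, and the fields of the coefficients `α` (`qexp`; finitely many `(i, e)`; each a number field: finitely many generators, primitive element or `FiniteDimensional` basis). RET: `y' ∈ K`.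
`t` from LOC for the coordinates of `w` (`t ∉ P`, `emb t * w_l ∈ emb O`). `Z τ = emb t Σ y'_(i,e) thetaIntI (b_i) e τ`, `z_n = emb t Σ y' α_(i,e)(n)/n ∈ K` (`z_0 = 0`: `α 0 / 0 = 0`). `QS Z z`, expansions at the cusps: finite sums of `qexp`, `cusp` (`γ • τ = (aτ+b)/(cτ+d)`,
`UpperHalfPlane.specialLinearGroup_apply` or as in `Pool/Agent/MU3/G_GTH.lean`). Periods: for `γ ∈ Γ₁(N')` `Z(γ τ) - Z τ = emb t Σ y' Phi_(i,e) ∞ (γ ∞) = emb t Om ρ(γ)`, `ρ(γ) = Σ y' Phi ∞ (γ ∞)/Om` is additive on `Γ₁(N')` (`add`, `inv`: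
`ρ(g g') = ρ(g) + ρ(g')` as `Phi ∞ (g g' ∞) = Phi ∞ (g ∞) + Phi (g ∞) (g g' ∞)`), `emb t ρ(h_l) = emb t w_l ∈ emb O`, so `emb t ρ(γ) ∈ emb O` for all `γ` (FGG with `M` = the subgroup of the `x` with `emb t x ∈ emb O`), and `Om emb O` is the lattice of `L_(i0)` (`nl`, `b0`).
Denominators: `c = ` product of elements of `K ∩ V` killing the denominators of the `y'` (as in `St_LA`: `q ≠ 0`, `q ∈ K ∩ V`, `q y' ∈ V`), `α n ∈ V` (integral over `ℤ`). BIN: `z_1 = emb t Σ y'_(i,e) α_(i,e)(1) ∈ V` and `v(emb t) = 1` (`t ∉ P`, `OverI`; `emb t ∈ V`). `α_(i,e)(1) = 1` for `i = i0`, `0` otherwise. -/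
def Sg_GJ : Prop :=
  ∀ (A B : ℤ) (_ : CQ A B) (n : ℕ) (ι : Type) [Fintype ι] (R : Reps A B n ι)
    (E : Set (OO A B → ℂ)) [Fintype E] (N' : ℕ) (_ : GDat R E N') (l : ℕ) (_ : l.Prime)
    (P : Ideal (OO A B)) (_ : IsPN l P) (V : ValuationSubring ℂ) (_ : OverI V P)
    (_ : IsAlgebraic ℚ (kap (R.L R.i0))) (_ : V.valuation (kap (R.L R.i0)) = 1)
    (_ : V.valuation (1 + 1728 * kap (R.L R.i0)) = 1) (r : ℕ) (h : Fin r → SL(2, ℤ))
    (_ : ∀ i, h i ∈ CongruenceSubgroup.Gamma1 N')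
    (_ : ∀ (ρ : SL(2, ℤ) → ℂ) (_ : ∀ g ∈ CongruenceSubgroup.Gamma1 N',
        ∀ g' ∈ CongruenceSubgroup.Gamma1 N', ρ (g * g') = ρ g + ρ g') (M : AddSubgroup ℂ)
      (_ : ∀ i, ρ (h i) ∈ M), ∀ g ∈ CongruenceSubgroup.Gamma1 N', ρ g ∈ M)
    (w : Fin r → ℂ) (_ : ∀ i, w i ∈ kk A B ∧ w i ∈ V) (y : ι × E → ℂ)
    (_ : ∀ l', ∑ c : ι × E, y c * (PhiI (R.b c.1) (c.2 : OO A B → ℂ) ∞
      (mob (h l' 0 0) (h l' 0 1) (h l' 1 0) (h l' 1 1) ∞) / R.om R.i0) = w l'),
    ∃ y' : ι × E → ℂ, (∀ l', ∑ c : ι × E, y' c * (PhiI (R.b c.1) (c.2 : OO A B → ℂ) ∞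
      (mob (h l' 0 0) (h l' 0 1) (h l' 1 0) (h l' 1 1) ∞) / R.om R.i0) = w l') ∧
      ∑ e : E, y' (R.i0, e) ∈ V

/-- (GTHX) THEOREM G.

Uses Sg_GJ, Sg_DSC, Sg_ZL, Sg_FK, Sg_FGG. PROOF. `Om = om_(i0)`. Suppose that `PhiK R e kk ∞ (h ∞)/Om ∈ V.nonunits` for all `h ∈ Γ₁(N')`. `h_1, .., h_r` from FGG. `X` = the set of the vectors `Per(ψ)`, `ψ = Σ_(i,e') y_(i,e') Phi_(i,e')` (`y : ι × E → ℂ`): a subspace, stable under `σ` with `FixK σ`:
`σ(Phi_(i,e')(x,y)/Om) = σ(Phi_(i,e')/om_i) σ(om_i/Om) = u (Phi_(j,e'')/om_j) σ(om_i/Om)`, a multiple of `Phi_(j,e'')/Om` (`rat`). DSC with `k = kk A B` (FK): `J`, `e_j = Per(ψ_j)` with coordinates in `k ∩ V`. GJ: we may take the coefficients `y'_j` of `ψ_j` with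
`β_j := Σ_e' y'_j(i0, e') ∈ V`. `x = Per(Σ_i kk_i Phi_(i,e))` has all coordinates in `V.nonunits`, `x = Σ_j x_j e_j`. So `ψ = Σ_i kk_i Phi_(i,e) - Σ_j x_j ψ_j` has `Per(ψ) = 0`, and by FGG (`M = 0`; additivity as in GJ) `ψ ∞ (γ ∞) = 0` for all `γ ∈ Γ₁(N')`.
`Z` = the same combination of the `thetaIntI`: invariant under `Γ₁(N')` (`per`), power series `z` (`qexp`, `z_0 = 0`), expansions at the cusps (`cusp`). ZL: `z = 0`; the coefficient `1` is `kk_(i0) - Σ_j x_j β_j = 0`. So `kk_(i0) ∈ V.nonunits`: contradiction. -/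
def Sg_GTHX : Prop :=
  ∀ (A B : ℤ) (_ : CQ A B) (n : ℕ) (ι : Type) [Fintype ι] (R : Reps A B n ι)
    (E : Set (OO A B → ℂ)) (N' : ℕ) (_ : GDat R E N') (l : ℕ) (_ : l.Prime)
    (P : Ideal (OO A B)) (_ : IsPN l P) (V : ValuationSubring ℂ) (_ : OverI V P)
    (_ : IsAlgebraic ℚ (kap (R.L R.i0))) (_ : V.valuation (kap (R.L R.i0)) = 1)
    (_ : V.valuation (1 + 1728 * kap (R.L R.i0)) = 1) (e : OO A B → ℂ) (_ : e ∈ E)
    (kk : ι → ℂ) (_ : kk R.i0 ∉ V.nonunits),
    ∃ a b c d : ℤ, a * d - b * c = 1 ∧ (N' : ℤ) ∣ c ∧ (N' : ℤ) ∣ d - 1 ∧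
      PhiK R e kk ∞ (mob a b c d ∞) / R.om R.i0 ∉ V.nonunits

/-- (GFIN) THEOREM G, final statement, input of block H. The weights `kk` are arbitrary complex numbers, `kk_(i0)` is not
in the maximal ideal. (Its module is the glue of GTHX with the blocks XT, XF, F6X and XR; it is not open yet.) -/
def Sg_GFIN : Prop :=
  ∀ (p : ℕ) (A B : ℤ) (P : Ideal (OO A B)) (V : ValuationSubring ℂ) (f : ℕ)
    (_ : SetP p A B P V f) (ι : Type) [Fintype ι] (R : Reps A B (p * f) ι) (e : OO A B → ℂ)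
    (_ : IsEI (idl f * cjI P) e) (r : ℕ) (_ : ¬ p ∣ r) (_ : ∀ x, e x ≠ 0 → e x ^ r = 1)
    (N' : ℕ) (_ : N' ≠ 0) (_ : absD A B * (p * f) ^ 2 ∣ (N' : ℤ)) (kk : ι → ℂ)
    (_ : kk R.i0 ∉ V.nonunits),
    ∃ a b c d : ℤ, a * d - b * c = 1 ∧ (N' : ℤ) ∣ c ∧ (N' : ℤ) ∣ d - 1 ∧
      PhiK R e kk ∞ (mob a b c d ∞) / R.om R.i0 ∉ V.nonunits

end

end Pool.Agent.MUXN


end

section

/-!
# NS, block GN (helper6): Theorem G for a finite family of symbols with an abstract index set, Legendre form at `V`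

As `MUX/StGX.lean`, with three changes: the family is indexed by an arbitrary finite type `J` (needed for the translates
`PhiI (x + t, y + t)`), the lattice `L' = Om' O` is in Legendre form (`GoodN V L' 1 e lam`), and `V ∩ O` is any prime at which `k` is
unramified in the form `LocN`.
-/

set_option autoImplicit false

namespace Pool.Agent.NSG

open _root_.MU3 _root_.Pool.Agent.MU3A _root_.Pool.Agent.MU3B _root_.Pool.Agent.MU3Q _root_.Pool.Agent.MUX _root_.Pool.Agent.NS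
  _root_.Pool.Agent.MUXN _root_.Pool.Agent.MuSym OnePoint UpperHalfPlane
open scoped MatrixGroups

noncomputable section

/-- The data for Theorem G: a finite family of symbols `Ψ j` with primitives `Θ j` of the forms, first coefficients `α₁ j`, period `om`. -/
structure GDatN (A B : ℤ) (J : Type) (Ψ : J → OnePoint ℚ → OnePoint ℚ → ℂ) (Θ : J → ℂ → ℂ)
    (α₁ : J → ℂ) (om : ℂ) (N' : ℕ) : Prop where
  pos : 0 < N'
  add : ∀ j, ∀ x y z : OnePoint ℚ, Ψ j x y + Ψ j y z = Ψ j x z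
  inv : ∀ j, ∀ a b c d : ℤ, a * d - b * c = 1 → (N' : ℤ) ∣ c → (N' : ℤ) ∣ d - 1 →
    ∀ x y : OnePoint ℚ, Ψ j (mob a b c d x) (mob a b c d y) = Ψ j x y
  per : ∀ j, ∀ a b c d : ℤ, a * d - b * c = 1 → (N' : ℤ) ∣ c → (N' : ℤ) ∣ d - 1 →
    ∀ τ : ℂ, 0 < τ.im → Θ j ((a * τ + b) / (c * τ + d)) = Θ j τ + Ψ j ∞ (mob a b c d ∞)
  cusp : ∀ j, ∀ a b c d : ℤ, a * d - b * c = 1 → ∃ (C : ℂ) (w : ℕ → ℂ), ∀ τ : ℂ,
    0 < τ.im → HasSum (fun n : ℕ => w n *
      Complex.exp (2 * Real.pi * Complex.I * τ / N') ^ (n + 1))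
      (Θ j ((a * τ + b) / (c * τ + d)) - C)
  qexp : ∀ j, ∃ α : ℕ → ℂ, (∀ n, IsIntegral ℤ (α n)) ∧
    (∃ K : Subfield ℂ, NumberField K ∧ ∀ n, α n ∈ K) ∧ α 1 = α₁ j ∧
    ∀ τ : ℂ, 0 < τ.im → HasSum (fun n : ℕ => α n / n *
      Complex.exp (2 * Real.pi * Complex.I * τ) ^ n) (Θ j τ)
  rat : ∀ σ : ℂ ≃+* ℂ, FixK A B σ → ∀ j, ∃ (j' : J) (u : ℂ),
    ∀ x y : OnePoint ℚ, σ (Ψ j x y / om) = u * (Ψ j' x y / om)
  alg : ∀ j, ∀ x y : OnePoint ℚ, IsAlgebraic ℚ (Ψ j x y / om)

/-- common denominators prime to `V` of elements of `k ∩ V` -/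
def LocN (A B : ℤ) (V : ValuationSubring ℂ) : Prop :=
  ∀ S : Finset ℂ, (∀ y ∈ S, y ∈ kk A B ∧ y ∈ V) →
    ∃ t : OO A B, V.valuation (emb t) = 1 ∧ ∀ y ∈ S, ∃ c : OO A B, emb t * y = emb c

/-- the lattice is `om O` and in Legendre form with good reduction -/
structure LegN (A B : ℤ) (V : ValuationSubring ℂ) (L' : PeriodPair) (om e lam : ℂ) : Prop where
  om0 : om ≠ 0
  mem : ∀ z : ℂ, z ∈ L'.lattice ↔ ∃ x : OO A B, z = om * emb x
  eq : ∀ z ∉ L'.lattice, L'.derivWeierstrassP z ^ 2 / 4 =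
    (L'.weierstrassP z - e) * (L'.weierstrassP z - e - 1) * (L'.weierstrassP z - e - lam)
  alg : IsAlgebraic ℚ lam
  v1 : V.valuation lam = 1
  v2 : V.valuation (1 - lam) = 1

/-- (GJ) every vector of the descended basis comes from a form whose first coefficient is in `V`. -/
def Sn_GJ : Prop :=
  ∀ (A B : ℤ) (_ : CQ A B) (J : Type) [Fintype J] (Ψ : J → OnePoint ℚ → OnePoint ℚ → ℂ)
    (Θ : J → ℂ → ℂ) (α₁ : J → ℂ) (om : ℂ) (N' : ℕ) (_ : GDatN A B J Ψ Θ α₁ om N')
    (V : ValuationSubring ℂ) (p : ℕ) (_ : p.Prime) (_ : (p : ℂ) ∈ V.nonunits)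
    (_ : V.valuation (2 : ℂ) = 1) (_ : LocN A B V) (L' : PeriodPair) (e lam : ℂ)
    (_ : LegN A B V L' om e lam) (r : ℕ) (h : Fin r → SL(2, ℤ))
    (_ : ∀ i, h i ∈ CongruenceSubgroup.Gamma1 N')
    (_ : ∀ (ρ : SL(2, ℤ) → ℂ) (_ : ∀ g ∈ CongruenceSubgroup.Gamma1 N',
        ∀ g' ∈ CongruenceSubgroup.Gamma1 N', ρ (g * g') = ρ g + ρ g') (M : AddSubgroup ℂ)
      (_ : ∀ i, ρ (h i) ∈ M), ∀ g ∈ CongruenceSubgroup.Gamma1 N', ρ g ∈ M)
    (w : Fin r → ℂ) (_ : ∀ i, w i ∈ kk A B ∧ w i ∈ V) (y : J → ℂ)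
    (_ : ∀ l', ∑ c : J, y c * (Ψ c ∞
      (mob (h l' 0 0) (h l' 0 1) (h l' 1 0) (h l' 1 1) ∞) / om) = w l'),
    ∃ y' : J → ℂ, (∀ l', ∑ c : J, y' c * (Ψ c ∞
      (mob (h l' 0 0) (h l' 0 1) (h l' 1 0) (h l' 1 1) ∞) / om) = w l') ∧
      ∑ c : J, y' c * α₁ c ∈ V

/-- (GTH) THEOREM G. -/
def Sn_GTH : Prop :=
  ∀ (A B : ℤ) (_ : CQ A B) (J : Type) [Fintype J] (Ψ : J → OnePoint ℚ → OnePoint ℚ → ℂ)
    (Θ : J → ℂ → ℂ) (α₁ : J → ℂ) (om : ℂ) (N' : ℕ) (_ : GDatN A B J Ψ Θ α₁ om N')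
    (V : ValuationSubring ℂ) (p : ℕ) (_ : p.Prime) (_ : (p : ℂ) ∈ V.nonunits)
    (_ : V.valuation (2 : ℂ) = 1) (_ : LocN A B V) (L' : PeriodPair) (e lam : ℂ)
    (_ : LegN A B V L' om e lam) (kk : J → ℂ) (_ : ∑ j, kk j * α₁ j ∉ V.nonunits),
    ∃ a b c d : ℤ, a * d - b * c = 1 ∧ (N' : ℤ) ∣ c ∧ (N' : ℤ) ∣ d - 1 ∧
      (∑ j, kk j * Ψ j ∞ (mob a b c d ∞)) / om ∉ V.nonunits

end

end Pool.Agent.NSG


end

section

/-!
# MUX, block G: the fixed field of the automorphisms over `k` is `k`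
-/

set_option autoImplicit false

namespace Pool.Agent.MUXN

open _root_.MU3 _root_.Pool.Agent.MU3A _root_.Pool.Agent.MU3B _root_.Pool.Agent.MU3Q _root_.Pool.Agent.MUX _root_.Pool.Agent.MuSym
  OnePoint UpperHalfPlane

namespace FK

variable {A B : ℤ}

lemma absD_pos (h : CQ A B) : 0 < absD A B := by
  have := h.neg
  unfold absD
  omega

lemma wC_sq' (h : CQ A B) : wC A B * wC A B = A + B * wC A B := by
  have h1 : (0 : ℝ) ≤ (absD A B : ℝ) := by exact_mod_cast (absD_pos h).le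
  have h2 : ((Real.sqrt (absD A B) : ℝ) : ℂ) ^ 2 = (absD A B : ℂ) := by
    rw [← Complex.ofReal_pow, Real.sq_sqrt h1]
    norm_num
  have h3 : Complex.I ^ 2 = -1 := Complex.I_sq
  have h4 : (absD A B : ℂ) = -((B : ℂ) ^ 2 + 4 * A) := by simp [absD]
  unfold wC
  linear_combination (Complex.I ^ 2 / 4) * h2 + ((absD A B : ℂ) / 4) * h3 - (1 / 4) * h4

open Polynomial in
lemma isIntegral_wC (h : CQ A B) : IsIntegral ℚ (wC A B) := by
  refine ⟨X ^ 2 - C (B : ℚ) * X - C (A : ℚ), ?_, ?_⟩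
  · monicity!
  · simp only [eval₂_sub, eval₂_pow, eval₂_X, eval₂_mul, eval₂_C]
    simp only [eq_ratCast, Rat.cast_intCast]
    rw [sq, wC_sq' h]
    ring

lemma isAlgebraic_kk (h : CQ A B) : Algebra.IsAlgebraic ℚ (kk A B) := by
  refine IntermediateField.isAlgebraic_adjoin ?_
  intro x hx
  rw [Set.mem_singleton_iff] at hx
  rw [hx]
  exact isIntegral_wC h

lemma fix_iff (A B : ℤ) (σ : ℂ ≃+* ℂ) : FixK A B σ ↔ ∀ a ∈ kk A B, σ a = a := by
  constructor
  · intro h a ha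
    induction ha using IntermediateField.adjoin_induction with
    | mem x hx =>
      rw [Set.mem_singleton_iff] at hx
      rw [hx]
      exact h
    | algebraMap q =>
      rw [eq_ratCast]
      exact map_ratCast σ q
    | add x y _ _ hx hy => rw [map_add, hx, hy]
    | inv x _ hx => rw [map_inv₀, hx]
    | mul x y _ _ hx hy => rw [map_mul, hx, hy]
  · intro h
    exact h _ (wC_mem A B)

end FK

theorem tg_FK (h : Pool.Agent.MUXU.Su_AUF) : Sg_FK := by
  intro A B hc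
  refine ⟨FK.fix_iff A B, fun x hx => ?_⟩
  exact h (kk A B) (FK.isAlgebraic_kk hc) x fun σ hσ => hx σ ((FK.fix_iff A B σ).2 hσ)

end Pool.Agent.MUXN


end

section

/-!
# MUX, block G, module BIN: integrality of a series whose integral is a modular point (helper76)
-/

set_option autoImplicit false

namespace Pool.Agent.MUXN

open _root_.MU3 _root_.Pool.Agent.MU3A _root_.Pool.Agent.MU3B _root_.Pool.Agent.MU3Q _root_.Pool.Agent.MUX _root_.Pool.Agent.MuSym
  OnePoint UpperHalfPlane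
open scoped MatrixGroups

noncomputable section

namespace NBin

/-- `θ = q d/dq` is a derivation -/
theorem thetaD_mul (f g : PowerSeries ℂ) : thetaD (f * g) = thetaD f * g + f * thetaD g := by
  ext n
  rw [map_add]
  simp only [thetaD, PowerSeries.coeff_mk, PowerSeries.coeff_mul]
  rw [Finset.mul_sum, ← Finset.sum_add_distrib]
  refine Finset.sum_congr rfl fun x hx => ?_
  rw [← Finset.HasAntidiagonal.mem_antidiagonal.1 hx]
  push_cast
  ring

variable (K : Subfield ℂ) (V : ValuationSubring ℂ)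

/-- the inclusion of the valuation ring of `K` in `ℂ` -/
def io : ↥(V.comap K.subtype) →+* ℂ := K.subtype.comp (V.comap K.subtype).subtype

theorem io_inj : Function.Injective (io K V) := fun _ _ h => Subtype.ext (Subtype.ext h)

variable {K V}

/-- an element of `K ∩ V` -/
def el (x : ℂ) (h : x ∈ K) (h' : x ∈ V) : ↥(V.comap K.subtype) := ⟨⟨x, h⟩, h'⟩

theorem io_el {x : ℂ} (h : x ∈ K) (h' : x ∈ V) : io K V (el x h h') = x := rfl

theorem io_mem (x : ↥(V.comap K.subtype)) : io K V x ∈ V := x.2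

theorem el_unit {x : ℂ} (h : x ∈ K) (h' : x ∈ V) (hv : V.valuation x = 1) :
    IsUnit (el x h h') := by
  have hx0 : x ≠ 0 := by
    rintro rfl
    rw [map_zero] at hv
    exact zero_ne_one hv
  have hi : V.valuation x⁻¹ = 1 := by rw [map_inv₀, hv, inv_one]
  have hiV : x⁻¹ ∈ V := (V.valuation_le_one_iff _).1 hi.le
  refine IsUnit.of_mul_eq_one (el x⁻¹ (K.inv_mem h) hiV) (io_inj K V ?_)
  rw [map_mul, map_one, io_el, io_el, mul_inv_cancel₀ hx0]

/-- a power series with coefficients in `K ∩ V` -/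
def lft (f : PowerSeries ℂ) (hf : f ∈ PP K V) : PowerSeries ↥(V.comap K.subtype) :=
  PowerSeries.mk fun n => el (PowerSeries.coeff n f) (hf n).1 (hf n).2

theorem map_lft {f : PowerSeries ℂ} (hf : f ∈ PP K V) : PowerSeries.map (io K V) (lft f hf) = f := by
  ext n
  rw [PowerSeries.coeff_map, lft, PowerSeries.coeff_mk, io_el]

/-- the curve over a ring -/
def Wk {O : Type} [CommRing O] (κ : O) : WeierstrassCurve O := ⟨1, 0, 0, -36 * κ, -κ⟩

section Wk

variable {O : Type} [CommRing O] (κ : O)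

theorem Wk_Δ : (Wk κ).Δ = κ * (1 + 1728 * κ) ^ 2 := by
  simp only [Wk, WeierstrassCurve.Δ, WeierstrassCurve.b₂, WeierstrassCurve.b₄,
    WeierstrassCurve.b₆, WeierstrassCurve.b₈]
  ring

theorem Wk_b₂ : (Wk κ).b₂ = 1 := by
  simp only [Wk, WeierstrassCurve.b₂]
  ring

theorem Wk_b₄ : (Wk κ).b₄ = -72 * κ := by
  simp only [Wk, WeierstrassCurve.b₄]
  ring

theorem Wk_b₆ : (Wk κ).b₆ = -4 * κ := by
  simp only [Wk, WeierstrassCurve.b₆]
  ring

/-- the theta operator over a ring -/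
def tth (f : PowerSeries O) : PowerSeries O := PowerSeries.mk fun n => (n : O) * PowerSeries.coeff n f

theorem map_tth (ι : O →+* ℂ) (f : PowerSeries O) :
    PowerSeries.map ι (tth f) = thetaD (PowerSeries.map ι f) := by
  ext n
  rw [PowerSeries.coeff_map, tth, thetaD, PowerSeries.coeff_mk, PowerSeries.coeff_mk,
    PowerSeries.coeff_map, map_mul, map_natCast]

theorem mapι_inj {ι : O →+* ℂ} (hι : Function.Injective ι) :
    Function.Injective (PowerSeries.map ι) := by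
  intro f g h
  ext n
  apply hι
  have := congrArg (PowerSeries.coeff n) h
  rwa [PowerSeries.coeff_map, PowerSeries.coeff_map] at this

theorem pull {ι : O →+* ℂ} (hι : Function.Injective ι) (c : O) (P Q G : PowerSeries O)
    (h : PowerSeries.C (ι c) ^ 2 * (PowerSeries.map ι Q * thetaD (PowerSeries.map ι P) -
        PowerSeries.map ι P * thetaD (PowerSeries.map ι Q)) ^ 2 =
      PowerSeries.map ι Q * (4 * PowerSeries.map ι P ^ 3 +
        PowerSeries.C 1 * PowerSeries.map ι P ^ 2 * PowerSeries.map ι Q +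
        2 * PowerSeries.C (-72 * ι κ) * PowerSeries.map ι P * PowerSeries.map ι Q ^ 2 +
        PowerSeries.C (-4 * ι κ) * PowerSeries.map ι Q ^ 3) * PowerSeries.map ι G ^ 2) :
    PowerSeries.C c ^ 2 * (Q * tth P - P * tth Q) ^ 2 =
      Q * (4 * P ^ 3 + PowerSeries.C (Wk κ).b₂ * P ^ 2 * Q + 2 * PowerSeries.C (Wk κ).b₄ * P * Q ^ 2 +
        PowerSeries.C (Wk κ).b₆ * Q ^ 3) * G ^ 2 := by
  apply mapι_inj hι
  rw [Wk_b₂, Wk_b₄, Wk_b₆]
  simp only [map_mul, map_pow, map_sub, map_add, map_tth, map_ofNat]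
  rw [PowerSeries.map_C, PowerSeries.map_C]
  refine Eq.trans h ?_
  have e1 : PowerSeries.map ι (PowerSeries.C (-72)) = -72 := by
    rw [PowerSeries.map_C, map_neg, map_ofNat, map_neg, map_ofNat]
  have e2 : PowerSeries.map ι (PowerSeries.C (-4)) = -4 := by
    rw [PowerSeries.map_C, map_neg, map_ofNat, map_neg, map_ofNat]
  have e3 : PowerSeries.map ι (PowerSeries.C κ) = PowerSeries.C (ι κ) := PowerSeries.map_C _ _
  have e4 : (PowerSeries.C (-72 * ι κ) : PowerSeries ℂ) = -72 * PowerSeries.C (ι κ) := by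
    rw [map_mul, map_neg, map_ofNat]
  have e5 : (PowerSeries.C (-4 * ι κ) : PowerSeries ℂ) = -4 * PowerSeries.C (ι κ) := by
    rw [map_mul, map_neg, map_ofNat]
  rw [e1, e2, e3, e4, e5]
  simp only [map_one]

end Wk

end NBin

open _root_.Pool.Agent.MUXN.NBin in
theorem tg_BIN (hWQ : St_WQ) (hGP : Sg_GP) (hDV : Sg_DV) : Sg_BIN := by
  intro K _ V p hp hpV N hN hζ L hL hκK hκ hκ' Z z hQS hzK hz0 hden hcusp hper
  by_cases h1 : PowerSeries.coeff 1 z = 0
  · rw [h1]
    exact V.zero_mem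
  have hκV : kap L ∈ V := (V.valuation_le_one_iff _).1 hκ.le
  have hDVR := hDV K V p hp hpV
  obtain ⟨c, hcK, hc0, hcV, hcz⟩ := hden
  have h4 : (4 : ℂ) ∈ K := by exact_mod_cast natCast_mem K 4
  have h36 : (-36 : ℂ) ∈ K := by exact_mod_cast intCast_mem K (-36)
  obtain ⟨S, -, -, -, S2, ode, A, hA, B, hB, hA0, hAS⟩ := hWQ K V N L (-1 / 12) (1 / 4)
    (-36 * kap L) (-kap L) Z z hN hζ (K.div_mem K.one_mem h4) (K.mul_mem h36 hκK)
    (K.neg_mem hκK) (by
      intro u hu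
      have hg3 : L.g₃ = -L.g₂ / 18 := by rw [hL]; ring
      rw [L.derivWeierstrassP_sq u hu, hg3, kap]
      ring) hzK hz0 h1 hQS hcusp hper
  have hS0 : S ≠ 0 := by
    rintro rfl
    rw [map_zero] at S2
    exact h1 (pow_eq_zero_iff two_ne_zero |>.1 S2.symm)
  have hB0 : B ≠ 0 := by
    rw [← hAS]
    exact mul_ne_zero hA0 hS0
  have hthS : thetaD S ≠ 0 := by
    intro h
    have h2 := congrArg (PowerSeries.coeff 2) h
    rw [map_zero, thetaD, PowerSeries.coeff_mk, S2] at h2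
    have h3 : PowerSeries.coeff 1 z ^ 2 ≠ 0 := pow_ne_zero 2 h1
    rcases mul_eq_zero.1 h2 with h5 | h5
    · norm_num at h5
    · exact h3 h5
  -- the wronskian
  have hW1 : A * thetaD B - B * thetaD A = A ^ 2 * thetaD S := by
    rw [← hAS, thetaD_mul]
    ring
  have hG : PowerSeries.C c * thetaD z ∈ PP K V := by
    intro n
    rw [PowerSeries.coeff_C_mul, thetaD, PowerSeries.coeff_mk]
    exact ⟨K.mul_mem hcK (K.mul_mem (natCast_mem K n) (hzK n)), hcz n⟩
  have hode : PowerSeries.C c ^ 2 * (B * thetaD A - A * thetaD B) ^ 2 =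
      B * (4 * A ^ 3 + PowerSeries.C 1 * A ^ 2 * B + 2 * PowerSeries.C (-72 * kap L) * A * B ^ 2 +
        PowerSeries.C (-4 * kap L) * B ^ 3) * (PowerSeries.C c * thetaD z) ^ 2 := by
    have e1 : (B * thetaD A - A * thetaD B) ^ 2 = A ^ 4 * thetaD S ^ 2 := by
      calc (B * thetaD A - A * thetaD B) ^ 2 = (A * thetaD B - B * thetaD A) ^ 2 := by ring
        _ = _ := by rw [hW1]; ring
    have c14 : (4 : PowerSeries ℂ) * PowerSeries.C (1 / 4 : ℂ) = 1 := by
      rw [← map_ofNat (PowerSeries.C : ℂ →+* PowerSeries ℂ) 4, ← map_mul]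
      norm_num
    have c36 : PowerSeries.C (-36 * kap L : ℂ) = -36 * PowerSeries.C (kap L) := by
      rw [map_mul, map_neg, map_ofNat]
    have c72 : PowerSeries.C (-72 * kap L : ℂ) = -72 * PowerSeries.C (kap L) := by
      rw [map_mul, map_neg, map_ofNat]
    have c4 : PowerSeries.C (-4 * kap L : ℂ) = -4 * PowerSeries.C (kap L) := by
      rw [map_mul, map_neg, map_ofNat]
    rw [e1, ode, ← hAS, PowerSeries.smul_eq_C_mul, PowerSeries.smul_eq_C_mul,
      PowerSeries.smul_eq_C_mul, map_neg, c36, c72, c4, map_one]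
    linear_combination (PowerSeries.C c ^ 2 * A ^ 4 * S ^ 2 * thetaD z ^ 2) * c14
  -- the ring
  have hu : IsUnit (Wk (el (kap L) hκK hκV)).Δ := by
    rw [Wk_Δ]
    have h5 : (1 + 1728 * kap L : ℂ) ∈ K :=
      K.add_mem K.one_mem (K.mul_mem (by exact_mod_cast natCast_mem K 1728) hκK)
    have h6 : (1 + 1728 * kap L : ℂ) ∈ V := (V.valuation_le_one_iff _).1 hκ'.le
    have h7 : (1 + 1728 * el (kap L) hκK hκV) = el (1 + 1728 * kap L) h5 h6 := by
      apply io_inj K V
      rw [io_el, map_add, map_mul, map_one, map_ofNat, io_el]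
    rw [h7]
    exact (el_unit hκK hκV hκ).mul ((el_unit h5 h6 hκ').pow 2)
  have h20 : (2 : ↥(V.comap K.subtype)) ≠ 0 := by
    intro h
    have := congrArg (io K V) h
    rw [map_ofNat, map_zero] at this
    norm_num at this
  have hdvd := hGP ↥(V.comap K.subtype) h20 (Wk (el (kap L) hκK hκV)) hu tth
    (fun f n => by rw [tth, PowerSeries.coeff_mk]) (lft A hA)
    (lft B hB) (lft _ hG) (el c hcK hcV) (by
      intro h
      have := congrArg (io K V) h
      rw [io_el, map_zero] at this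
      exact hc0 this) (by
      intro h
      have := congrArg (PowerSeries.map (io K V)) h
      rw [map_lft, map_zero] at this
      exact hB0 this) (by
      intro h
      have := congrArg (PowerSeries.map (io K V)) h
      rw [map_sub, map_mul, map_mul, map_tth, map_tth, map_lft, map_lft, map_zero] at this
      have h8 : A ^ 2 * thetaD S = 0 := by
        rw [← hW1]
        linear_combination -this
      exact mul_ne_zero (pow_ne_zero 2 hA0) hthS h8) (by
      apply pull _ (io_inj K V)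
      rw [map_lft, map_lft, map_lft]
      exact hode)
  obtain ⟨G', hG'⟩ := hdvd
  have h9 := congrArg (PowerSeries.coeff 1) hG'
  rw [PowerSeries.coeff_C_mul] at h9
  have h10 := congrArg (io K V) h9
  rw [map_mul, io_el, lft, PowerSeries.coeff_mk, io_el, PowerSeries.coeff_C_mul, thetaD,
    PowerSeries.coeff_mk, Nat.cast_one, one_mul] at h10
  rw [mul_left_cancel₀ hc0 h10]
  exact io_mem _

end

end Pool.Agent.MUXN


end

section

/-!
# MUX, block G, module GD (helper7): the fraction field of the power series over a discrete valuation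
ring: the Gauss valuation and the derivation `q d/dq`
-/

set_option autoImplicit false

namespace Pool.Agent.MUXN

noncomputable section

namespace GD

open PowerSeries

section val

variable {O : Type} [CommRing O] [IsDomain O]

omit [IsDomain O] in
theorem C_dvd_iff (c : O) (f : PowerSeries O) : C c ∣ f ↔ ∀ n, c ∣ coeff n f := by
  constructor
  · rintro ⟨g, rfl⟩ n
    rw [coeff_C_mul]
    exact dvd_mul_right _ _
  · intro h
    choose g hg using h
    refine ⟨mk g, ?_⟩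
    ext n
    rw [coeff_C_mul, coeff_mk, hg]

omit [IsDomain O] in
theorem C_prime {ϖ : O} (h : Prime ϖ) : Prime (C ϖ : PowerSeries O) := by
  have hI : (Ideal.span {ϖ}).IsPrime := (Ideal.span_singleton_prime h.ne_zero).2 h
  have key : ∀ f : PowerSeries O, C ϖ ∣ f ↔ map (Ideal.Quotient.mk (Ideal.span {ϖ})) f = 0 := by
    intro f
    rw [C_dvd_iff]
    constructor
    · intro hf
      ext n
      rw [coeff_map, map_zero, Ideal.Quotient.eq_zero_iff_mem, Ideal.mem_span_singleton]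
      exact hf n
    · intro hf n
      have h1 := congrArg (coeff n) hf
      rw [coeff_map, map_zero, Ideal.Quotient.eq_zero_iff_mem, Ideal.mem_span_singleton] at h1
      exact h1
  refine ⟨?_, ?_, ?_⟩
  · intro h0
    apply h.ne_zero
    have := congrArg constantCoeff h0
    simpa using this
  · intro hu
    apply h.not_isUnit
    have := hu.map constantCoeff
    simpa using this
  · intro a b hab
    rw [key, map_mul, mul_eq_zero] at hab
    rw [key, key]
    exact hab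

variable [IsDiscreteValuationRing O]

theorem fin {ϖ : O} (h : Prime ϖ) {f : PowerSeries O} (hf : f ≠ 0) :
    FiniteMultiplicity (C ϖ) f := by
  obtain ⟨n, hn⟩ : ∃ n, coeff n f ≠ 0 := by
    by_contra hcon
    push Not at hcon
    exact hf (by ext n; rw [hcon n, map_zero])
  obtain ⟨k, hk⟩ := FiniteMultiplicity.of_not_isUnit h.not_isUnit hn
  refine ⟨k, fun hdvd => hk ?_⟩
  rw [← map_pow, C_dvd_iff] at hdvd
  exact hdvd n

open Classical in
/-- the Gauss valuation on the power series -/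
def vR (ϖ : O) (h : Prime ϖ) : Valuation (PowerSeries O) (WithZero (Multiplicative ℤ)) where
  toFun f := if f = 0 then 0 else WithZero.exp (-(multiplicity (C ϖ) f : ℤ))
  map_zero' := by simp
  map_one' := by
    have h1 : multiplicity (C ϖ : PowerSeries O) 1 = 0 :=
      multiplicity_eq_zero.2 (C_prime h).not_dvd_one
    rw [if_neg one_ne_zero, h1]
    simp
  map_mul' a b := by
    by_cases ha : a = 0
    · simp [ha]
    by_cases hb : b = 0
    · simp [hb]
    have hab := mul_ne_zero ha hb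
    rw [if_neg hab, if_neg ha, if_neg hb, multiplicity_mul (C_prime h) (fin h hab),
      ← WithZero.exp_add]
    congr 1
    push_cast
    ring
  map_add_le_max' a b := by
    by_cases ha : a = 0
    · simp [ha]
    by_cases hb : b = 0
    · simp [hb]
    by_cases hab : a + b = 0
    · rw [if_pos hab]
      exact zero_le
    rw [if_neg hab, if_neg ha, if_neg hb, le_max_iff, WithZero.exp_le_exp, WithZero.exp_le_exp]
    have h1 : min (multiplicity (C ϖ) a) (multiplicity (C ϖ) b) ≤ multiplicity (C ϖ) (a + b) := by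
      apply (fin h hab).le_multiplicity_of_pow_dvd
      apply dvd_add
      · exact ((fin h ha).pow_dvd_iff_le_multiplicity).2 (min_le_left _ _)
      · exact ((fin h hb).pow_dvd_iff_le_multiplicity).2 (min_le_right _ _)
    rcases min_le_iff.1 h1 with h2 | h2
    · left; omega
    · right; omega

theorem vR_apply (ϖ : O) (h : Prime ϖ) {f : PowerSeries O} (hf : f ≠ 0) :
    vR ϖ h f = WithZero.exp (-(multiplicity (C ϖ) f : ℤ)) := by
  classical
  change (if f = 0 then 0 else WithZero.exp (-(multiplicity (C ϖ) f : ℤ))) = _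
  rw [if_neg hf]

theorem vR_ne (ϖ : O) (h : Prime ϖ) {f : PowerSeries O} (hf : f ≠ 0) : vR ϖ h f ≠ 0 := by
  rw [vR_apply ϖ h hf]
  exact WithZero.exp_ne_zero

theorem vR_le (ϖ : O) (h : Prime ϖ) (f : PowerSeries O) (n : ℕ) :
    vR ϖ h f ≤ WithZero.exp (-(n : ℤ)) ↔ C ϖ ^ n ∣ f := by
  by_cases hf : f = 0
  · simp [hf]
  rw [vR_apply ϖ h hf, WithZero.exp_le_exp, (fin h hf).pow_dvd_iff_le_multiplicity]
  omega

theorem vR_le_one (ϖ : O) (h : Prime ϖ) (f : PowerSeries O) : vR ϖ h f ≤ 1 := by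
  have := (vR_le ϖ h f 0).2 (by simp)
  simpa using this

theorem vR_C (ϖ : O) (h : Prime ϖ) : vR ϖ h (C ϖ) = WithZero.exp (-1 : ℤ) := by
  have h1 : (C ϖ : PowerSeries O) ≠ 0 := (C_prime h).ne_zero
  rw [vR_apply ϖ h h1]
  have h2 : multiplicity (C ϖ : PowerSeries O) (C ϖ) = 1 := multiplicity_self
  rw [h2]
  rfl

theorem vR_unit (ϖ : O) (h : Prime ϖ) (u : O) (hu : IsUnit u) : vR ϖ h (C u) = 1 := by
  obtain ⟨u, rfl⟩ := hu
  have h1 : vR ϖ h (C (u : O)) * vR ϖ h (C ((u⁻¹ : Oˣ) : O)) = 1 := by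
    rw [← map_mul, ← map_mul, Units.mul_inv, map_one, map_one]
  refine le_antisymm (vR_le_one ϖ h _) ?_
  calc (1 : WithZero (Multiplicative ℤ)) = vR ϖ h (C (u : O)) * vR ϖ h (C ((u⁻¹ : Oˣ) : O)) :=
        h1.symm
    _ ≤ vR ϖ h (C (u : O)) * 1 := mul_le_mul_right (vR_le_one ϖ h _) _
    _ = vR ϖ h (C (u : O)) := mul_one _

theorem vR_dvd (ϖ : O) (h : Prime ϖ) (f : PowerSeries O) (c : O) (hc : c ≠ 0)
    (hv : vR ϖ h f ≤ vR ϖ h (C c)) : C c ∣ f := by
  obtain ⟨n, u, rfl⟩ := IsDiscreteValuationRing.eq_unit_mul_pow_irreducible hc h.irreducible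
  rw [map_mul, map_mul, vR_unit ϖ h _ u.isUnit, one_mul, map_pow, map_pow, vR_C ϖ h,
    ← WithZero.exp_nsmul] at hv
  have h1 : C ϖ ^ n ∣ f := by
    rw [← vR_le ϖ h]
    convert hv using 2
    simp
  rw [map_mul, map_pow]
  exact (IsUnit.mul_left_dvd (u.isUnit.map (C : O →+* PowerSeries O))).2 h1

end val

section der

variable (O : Type) [CommRing O] [IsDomain O]

abbrev Fr := FractionRing (PowerSeries O)

/-- `q d/dq` on the power series -/
def th : Derivation O (PowerSeries O) (PowerSeries O) :=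
  (X : PowerSeries O) • PowerSeries.derivative O

omit [IsDomain O] in
theorem th_coeff (f : PowerSeries O) (n : ℕ) : coeff n (th O f) = (n : O) * coeff n f := by
  change coeff n ((X : PowerSeries O) * PowerSeries.derivative O f) = _
  cases n with
  | zero => simp
  | succ n =>
    rw [coeff_succ_X_mul, coeff_derivative]
    push_cast
    ring

omit [IsDomain O] in
theorem th_eq (f : PowerSeries O) :
    th O f = PowerSeries.mk fun n => (n : O) * PowerSeries.coeff n f := by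
  ext n
  rw [th_coeff, coeff_mk]

omit [IsDomain O] in
theorem fet : Algebra.FormallyEtale (PowerSeries O) (Fr O) :=
  Algebra.FormallyEtale.of_isLocalization (nonZeroDivisors (PowerSeries O))

/-- the extension to the fraction field -/
def ddO : Derivation O (Fr O) (Fr O) :=
  have : Algebra.FormallyEtale (PowerSeries O) (Fr O) := fet O
  ((LinearMap.liftBaseChange (Fr O)
    (((Algebra.linearMap (PowerSeries O) (Fr O)).compDer (th O)).liftKaehlerDifferential)).comp
      (KaehlerDifferential.tensorKaehlerEquivOfFormallyEtale O (PowerSeries O)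
        (Fr O)).symm.toLinearMap).compDer (KaehlerDifferential.D O (Fr O))

theorem ddO_alg (f : PowerSeries O) :
    ddO O (algebraMap _ _ f) = algebraMap (PowerSeries O) (Fr O) (th O f) := by
  have : Algebra.FormallyEtale (PowerSeries O) (Fr O) := fet O
  change (LinearMap.liftBaseChange (Fr O)
    (((Algebra.linearMap (PowerSeries O) (Fr O)).compDer (th O)).liftKaehlerDifferential))
      ((KaehlerDifferential.tensorKaehlerEquivOfFormallyEtale O (PowerSeries O)
        (Fr O)).symm (KaehlerDifferential.D O (Fr O) (algebraMap _ _ f))) = _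
  rw [KaehlerDifferential.tensorKaehlerEquivOfFormallyEtale_symm_D_algebraMap]
  simp

/-- the same as a derivation over `ℤ` -/
def dd : Derivation ℤ (Fr O) (Fr O) := (ddO O).restrictScalars ℤ

theorem dd_alg (f : PowerSeries O) :
    dd O (algebraMap _ _ f) = algebraMap (PowerSeries O) (Fr O) (th O f) := ddO_alg O f

end der

end GD

open _root_.Pool.Agent.MUXN.GD PowerSeries in
/-- GD. -/
theorem tg_GD : Sg_GD := by
  intro O _ _ _
  obtain ⟨ϖ, hϖ⟩ := IsDiscreteValuationRing.exists_irreducible O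
  have h : Prime ϖ := hϖ.prime
  have hS : nonZeroDivisors (PowerSeries O) ≤ (vR ϖ h).supp.primeCompl := by
    intro s hs hs'
    exact vR_ne ϖ h (nonZeroDivisors.ne_zero hs) hs'
  set v := (vR ϖ h).extendToLocalization hS (FractionRing (PowerSeries O)) with hv
  have hva : ∀ f : PowerSeries O, v (algebraMap _ _ f) = vR ϖ h f := fun f =>
    Valuation.extendToLocalization_apply_map_apply _ _ _ f
  refine ⟨v, dd O, ?_, ?_, ?_, ?_, ?_⟩
  · intro f
    rw [hva]
    exact vR_le_one ϖ h f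
  · intro u hu
    rw [hva]
    exact vR_unit ϖ h u hu
  · intro f c hc hfc
    rw [hva, hva] at hfc
    exact vR_dvd ϖ h f c hc hfc
  · have hth : ∀ f : PowerSeries O, v (dd O (algebraMap _ _ f)) ≤ v (algebraMap _ _ f) := by
      intro f
      rw [dd_alg, hva, hva]
      by_cases hf : f = 0
      · simp [hf]
      rw [vR_apply ϖ h hf, vR_le, ← map_pow, C_dvd_iff]
      intro n
      rw [th_coeff]
      have h1 : C ϖ ^ multiplicity (C ϖ) f ∣ f := pow_multiplicity_dvd _ _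
      rw [← map_pow, C_dvd_iff] at h1
      exact (h1 n).mul_left _
    intro x
    obtain ⟨a, b, hb, rfl⟩ := IsFractionRing.div_surjective (A := PowerSeries O) x
    have hb0 : algebraMap (PowerSeries O) (FractionRing (PowerSeries O)) b ≠ 0 :=
      IsFractionRing.to_map_ne_zero_of_mem_nonZeroDivisors hb
    set x := algebraMap (PowerSeries O) (FractionRing (PowerSeries O)) a /
      algebraMap (PowerSeries O) (FractionRing (PowerSeries O)) b with hx
    have hxb : algebraMap (PowerSeries O) (FractionRing (PowerSeries O)) a =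
      x * algebraMap (PowerSeries O) (FractionRing (PowerSeries O)) b := by
      rw [hx]
      field_simp
    have h1 := hth a
    have h2 := hth b
    rw [hxb, Derivation.leibniz, smul_eq_mul, smul_eq_mul] at h1
    have hvb : v (algebraMap (PowerSeries O) (FractionRing (PowerSeries O)) b) ≠ 0 :=
      (Valuation.ne_zero_iff v).2 hb0
    have h3 : v (algebraMap (PowerSeries O) (FractionRing (PowerSeries O)) b * dd O x) ≤
        v (x * algebraMap (PowerSeries O) (FractionRing (PowerSeries O)) b) := by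
      have h4 : algebraMap (PowerSeries O) (FractionRing (PowerSeries O)) b * dd O x =
          (x * dd O (algebraMap (PowerSeries O) (FractionRing (PowerSeries O)) b) +
            algebraMap (PowerSeries O) (FractionRing (PowerSeries O)) b * dd O x) -
          x * dd O (algebraMap (PowerSeries O) (FractionRing (PowerSeries O)) b) := by ring
      rw [h4]
      refine (Valuation.map_sub _ _ _).trans (max_le h1 ?_)
      rw [map_mul, map_mul]
      exact mul_le_mul_right h2 _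
    rw [map_mul, map_mul, mul_comm] at h3
    exact le_of_mul_le_mul_right h3 (zero_lt_iff.2 hvb)
  · intro f
    rw [dd_alg, th_eq]

end

end Pool.Agent.MUXN


end

section

/-!
# MUX, block G: module RET, linear systems over a subfield
-/

set_option autoImplicit false

namespace Pool.Agent.MUXN

theorem tg_RET : Sg_RET := by
  intro K ι _ r P w hP hw y hy
  obtain ⟨l, hl⟩ := LinearMap.exists_leftInverse_of_injective (Algebra.linearMap K ℂ)
    (LinearMap.ker_eq_bot.mpr (algebraMap K ℂ).injective)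
  have hl' : ∀ x : K, l (x : ℂ) = x := fun x => by
    have := LinearMap.congr_fun hl x
    exact this
  refine ⟨fun c => ((l (y c) : K) : ℂ), fun c => (l (y c)).2, fun i => ?_⟩
  have h1 : ∀ c, ((l (y c) : K) : ℂ) * P c i = ((l (y c * P c i) : K) : ℂ) := by
    intro c
    have h2 : y c * P c i = (⟨P c i, hP c i⟩ : K) • y c := by
      rw [Algebra.smul_def, mul_comm]; rfl
    rw [h2, map_smul, smul_eq_mul, mul_comm]
    rfl
  have h3 : ∑ c, ((l (y c) : K) : ℂ) * P c i = ((l (∑ c, y c * P c i) : K) : ℂ) := by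
    rw [Finset.sum_congr rfl fun c _ => h1 c, map_sum]
    simp
  show ∑ c, ((l (y c) : K) : ℂ) * P c i = w i
  rw [h3, hy i]
  have h4 : l (w i) = ⟨w i, hw i⟩ := hl' ⟨w i, hw i⟩
  rw [h4]

end Pool.Agent.MUXN


end

section

/-!
# MUX, block G, module NFE: a number field in `ℂ` containing finitely many given algebraic numbers
-/

set_option autoImplicit false

namespace Pool.Agent.MUXN

theorem tg_NFE : Sg_NFE := by
  intro S hS
  have hfd : FiniteDimensional ℚ (IntermediateField.adjoin ℚ (S : Set ℂ)) :=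
    IntermediateField.finiteDimensional_adjoin (fun x hx => (hS x hx).isIntegral)
  refine ⟨(IntermediateField.adjoin ℚ (S : Set ℂ)).toSubfield, ?_, ?_⟩
  · have h4 : NumberField (IntermediateField.adjoin ℚ (S : Set ℂ)) := ⟨⟩
    exact h4
  · intro x hx
    exact IntermediateField.subset_adjoin ℚ _ hx

end Pool.Agent.MUXN


end

section

/-!
# MUX, block G, module GV (helper96): the abstract Gauss lemma
-/

set_option autoImplicit false

namespace Pool.Agent.MUXN

noncomputable section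

namespace GvX

variable {E Γ : Type} [Field E] [LinearOrderedCommGroupWithZero Γ] (v : Valuation E Γ)

/-- Nonsingular reduction: one of the two derivatives is a unit. -/
theorem unit_TS (W : WeierstrassCurve.Affine E)
    (ha : v W.a₁ ≤ 1 ∧ v W.a₂ ≤ 1 ∧ v W.a₃ ≤ 1 ∧ v W.a₄ ≤ 1 ∧ v W.a₆ ≤ 1) (hΔ : v W.Δ = 1)
    (X Y : E) (hX : v X ≤ 1) (hY : v Y ≤ 1) (h : W.Equation X Y) :
    v (2 * Y + W.a₁ * X + W.a₃) = 1 ∨ v (3 * X ^ 2 + 2 * W.a₂ * X + W.a₄ - W.a₁ * Y) = 1 := by
  obtain ⟨h1, h2, h3, h4, h6⟩ := ha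
  let W' : WeierstrassCurve.Affine v.valuationSubring :=
    ⟨⟨W.a₁, h1⟩, ⟨W.a₂, h2⟩, ⟨W.a₃, h3⟩, ⟨W.a₄, h4⟩, ⟨W.a₆, h6⟩⟩
  let X' : v.valuationSubring := ⟨X, hX⟩
  let Y' : v.valuationSubring := ⟨Y, hY⟩
  have hI := Valuation.valuationSubring.integers v
  have hE : W'.Equation X' Y' := by
    rw [WeierstrassCurve.Affine.equation_iff]
    apply Subtype.ext
    exact (WeierstrassCurve.Affine.equation_iff _ _).1 h
  have hE2 := hE.map (IsLocalRing.residue v.valuationSubring)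
  have hΔ' : (W'.map (IsLocalRing.residue v.valuationSubring)).Δ ≠ 0 := by
    rw [WeierstrassCurve.map_Δ, IsLocalRing.residue_ne_zero_iff_isUnit,
      hI.isUnit_iff_valuation_eq_one]
    exact hΔ
  have hN := (WeierstrassCurve.Affine.equation_iff_nonsingular_of_Δ_ne_zero hΔ').1 hE2
  rw [WeierstrassCurve.Affine.nonsingular_iff'] at hN
  rcases hN.2 with h7 | h7
  · right
    have h8 : IsLocalRing.residue v.valuationSubring
        (W'.a₁ * Y' - (3 * X' ^ 2 + 2 * W'.a₂ * X' + W'.a₄)) ≠ 0 := by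
      intro h0
      apply h7
      rw [← h0]
      simp [map_ofNat]
    rw [IsLocalRing.residue_ne_zero_iff_isUnit, hI.isUnit_iff_valuation_eq_one] at h8
    have h9 : algebraMap v.valuationSubring E
        (W'.a₁ * Y' - (3 * X' ^ 2 + 2 * W'.a₂ * X' + W'.a₄)) =
        -(3 * X ^ 2 + 2 * W.a₂ * X + W.a₄ - W.a₁ * Y) := by
      show W.a₁ * Y - (3 * X ^ 2 + 2 * W.a₂ * X + W.a₄) = _
      ring
    rw [h9, Valuation.map_neg] at h8
    exact h8
  · left
    have h8 : IsLocalRing.residue v.valuationSubring (2 * Y' + W'.a₁ * X' + W'.a₃) ≠ 0 := by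
      intro h0
      apply h7
      rw [← h0]
      simp [map_ofNat]
    rw [IsLocalRing.residue_ne_zero_iff_isUnit, hI.isUnit_iff_valuation_eq_one] at h8
    exact h8

variable {v}

theorem le_mul {a b : E} {c : Γ} (ha : v a ≤ 1) (hb : v b ≤ c) : v (a * b) ≤ c := by
  rw [map_mul]
  calc v a * v b ≤ 1 * c := mul_le_mul' ha hb
    _ = c := one_mul c

end GvX

open _root_.Pool.Agent.MUXN.GvX in
/-- The abstract Gauss lemma. -/
theorem tg_GV : Sg_GV := by
  intro E Γ _ _ v D hD W hDa ha hΔ X Y g hE hT hDX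
  obtain ⟨d1, d2, d3, d4, d6⟩ := hDa
  have ha' := ha
  obtain ⟨h1, h2, h3, h4, h6⟩ := ha
  obtain ⟨T, hTdef⟩ : ∃ T, T = 2 * Y + W.a₁ * X + W.a₃ := ⟨_, rfl⟩
  obtain ⟨S, hSdef⟩ : ∃ S, S = 3 * X ^ 2 + 2 * W.a₂ * X + W.a₄ - W.a₁ * Y := ⟨_, rfl⟩
  rw [← hTdef] at hT hDX
  have hEq := (WeierstrassCurve.Affine.equation_iff _ _).1 hE
  -- the derivative of `Y`
  have hDY : D Y = S * g := by
    have e1 := congrArg D hEq
    simp only [map_add, Derivation.leibniz, Derivation.leibniz_pow, smul_eq_mul, nsmul_eq_mul,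
      d1, d2, d3, d4, d6] at e1
    have e2 : T * D Y = S * D X := by
      rw [hTdef, hSdef]
      push_cast at e1
      linear_combination e1
    rw [hDX] at e2
    have e3 : T * D Y = T * (S * g) := by rw [e2]; ring
    exact mul_left_cancel₀ hT e3
  have n1 : ∀ n : ℕ, v (n : E) ≤ 1 := by
    intro n
    induction n with
    | zero => simp
    | succ n ih =>
      push_cast
      exact v.map_add_le ih (le_of_eq v.map_one)
  have v2 : v (2 : E) ≤ 1 := by exact_mod_cast n1 2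
  have v3 : v (3 : E) ≤ 1 := by exact_mod_cast n1 3
  have v23 : v (2 : E) = 1 ∨ v (3 : E) = 1 := by
    by_contra hcon
    push Not at hcon
    have i2 := lt_of_le_of_ne v2 hcon.1
    have i3 := lt_of_le_of_ne v3 hcon.2
    have i4 : v ((3 : E) - 2) < 1 := v.map_sub_lt i3 i2
    have i5 : ((3 : E) - 2) = 1 := by norm_num
    rw [i5, v.map_one] at i4
    exact lt_irrefl _ i4
  rcases le_or_gt (v X) 1 with hX | hX
  · -- integral point
    have hY : v Y ≤ 1 := by
      by_contra hY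
      push Not at hY
      have i1 : v (W.a₁ * X * Y) < v (Y ^ 2) := by
        have : v (W.a₁ * X * Y) ≤ v Y := by
          rw [mul_assoc]
          exact le_mul h1 (le_mul hX le_rfl)
        refine lt_of_le_of_lt this ?_
        rw [map_pow]
        calc v Y = v Y ^ 1 := (pow_one _).symm
          _ < v Y ^ 2 := pow_lt_pow_right₀ hY (by norm_num)
      have i2 : v (W.a₃ * Y) < v (Y ^ 2) := by
        refine lt_of_le_of_lt (le_mul h3 le_rfl) ?_
        rw [map_pow]
        calc v Y = v Y ^ 1 := (pow_one _).symm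
          _ < v Y ^ 2 := pow_lt_pow_right₀ hY (by norm_num)
      have i3 : v (Y ^ 2 + W.a₁ * X * Y + W.a₃ * Y) = v (Y ^ 2) := by
        rw [add_assoc]
        exact v.map_add_eq_of_lt_left (v.map_add_lt i1 i2)
      have i4 : v (X ^ 3 + W.a₂ * X ^ 2 + W.a₄ * X + W.a₆) ≤ 1 := by
        have j1 : ∀ n : ℕ, v (X ^ n) ≤ 1 := fun n => by
          rw [map_pow]; exact pow_le_one' hX n
        exact v.map_add_le (v.map_add_le (v.map_add_le (j1 3) (le_mul h2 (j1 2)))
          (le_mul h4 hX)) h6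
      rw [← hEq, i3, map_pow] at i4
      exact absurd (one_lt_pow₀ hY (by norm_num : (2 : ℕ) ≠ 0)) (not_lt.2 i4)
    rcases unit_TS v W ha' hΔ X Y hX hY hE with h | h
    · have i1 := hD X
      rw [hDX, map_mul, hTdef, h, one_mul] at i1
      exact i1.trans hX
    · have i1 := hD Y
      rw [hDY, map_mul, hSdef, h, one_mul] at i1
      exact i1.trans hY
  · -- not integral
    have hX0 : 0 < v X := lt_trans zero_lt_one hX
    have p12 : v X < v X ^ 2 := by
      calc v X = v X ^ 1 := (pow_one _).symm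
        _ < v X ^ 2 := pow_lt_pow_right₀ hX (by norm_num)
    have p23 : v X ^ 2 < v X ^ 3 := pow_lt_pow_right₀ hX (by norm_num)
    have i1 : v (X ^ 3 + W.a₂ * X ^ 2 + W.a₄ * X + W.a₆) = v X ^ 3 := by
      have j1 : v (W.a₂ * X ^ 2 + W.a₄ * X + W.a₆) ≤ v X ^ 2 :=
        v.map_add_le (v.map_add_le (le_mul h2 (le_of_eq (map_pow _ _ _)))
          ((le_mul h4 le_rfl).trans p12.le)) ((h6.trans hX.le).trans p12.le)
      have j2 : X ^ 3 + W.a₂ * X ^ 2 + W.a₄ * X + W.a₆ =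
          X ^ 3 + (W.a₂ * X ^ 2 + W.a₄ * X + W.a₆) := by ring
      rw [j2, v.map_add_eq_of_lt_left (by rw [map_pow]; exact j1.trans_lt p23), map_pow]
    have hXY : v X < v Y := by
      by_contra hcon
      push Not at hcon
      have j1 : v (Y ^ 2 + W.a₁ * X * Y + W.a₃ * Y) ≤ v X ^ 2 := by
        refine v.map_add_le (v.map_add_le ?_ ?_) ?_
        · rw [map_pow]; exact pow_le_pow_left' hcon 2
        · rw [mul_assoc]
          refine le_mul h1 ?_
          rw [map_mul, pow_two]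
          exact mul_le_mul' le_rfl hcon
        · exact (le_mul h3 le_rfl).trans (hcon.trans p12.le)
      rw [hEq, i1] at j1
      exact absurd p23 (not_lt.2 j1)
    have hY : 1 < v Y := hX.trans hXY
    have hY0 : 0 < v Y := lt_trans zero_lt_one hY
    have q12 : v Y < v Y ^ 2 := by
      calc v Y = v Y ^ 1 := (pow_one _).symm
        _ < v Y ^ 2 := pow_lt_pow_right₀ hY (by norm_num)
    have i2 : v (Y ^ 2 + W.a₁ * X * Y + W.a₃ * Y) = v Y ^ 2 := by
      have j1 : v (W.a₁ * X * Y) < v (Y ^ 2) := by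
        rw [mul_assoc]
        refine lt_of_le_of_lt (le_mul h1 le_rfl) ?_
        rw [map_mul, map_pow, pow_two]
        exact mul_lt_mul_of_pos_right hXY hY0
      have j2 : v (W.a₃ * Y) < v (Y ^ 2) := by
        refine lt_of_le_of_lt (le_mul h3 le_rfl) ?_
        rw [map_pow]
        exact q12
      rw [add_assoc, v.map_add_eq_of_lt_left (v.map_add_lt j1 j2), map_pow]
    have i3 : v Y ^ 2 = v X ^ 3 := by rw [← i2, hEq, i1]
    rcases v23 with h | h
    · have i4 : v T = v Y := by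
        have j1 : v (2 * Y) = v Y := by rw [map_mul, h, one_mul]
        have j2 : v (W.a₁ * X + W.a₃) < v (2 * Y) := by
          rw [j1]
          exact lt_of_le_of_lt (v.map_add_le (le_mul h1 le_rfl) (h3.trans hX.le)) hXY
        rw [hTdef, add_assoc, v.map_add_eq_of_lt_left j2, j1]
      have i5 := hD X
      rw [hDX, map_mul, i4] at i5
      by_contra hcon
      push Not at hcon
      have i6 : v Y < v Y * v g := by
        calc v Y = v Y * 1 := (mul_one _).symm
          _ < v Y * v g := mul_lt_mul_of_pos_left hcon hY0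
      exact absurd (i6.trans_le i5) (not_lt.2 hXY.le)
    · have hYX : v Y < v X ^ 2 := by
        by_contra hcon
        push Not at hcon
        have j1 : (v X ^ 2) ^ 2 ≤ v Y ^ 2 := pow_le_pow_left' hcon 2
        rw [i3, ← pow_mul] at j1
        exact absurd (pow_lt_pow_right₀ hX (by norm_num : 3 < 2 * 2)) (not_lt.2 j1)
      have i4 : v S = v X ^ 2 := by
        have j1 : v (3 * X ^ 2) = v X ^ 2 := by rw [map_mul, h, one_mul, map_pow]
        have j2 : v (2 * W.a₂ * X + W.a₄ - W.a₁ * Y) < v (3 * X ^ 2) := by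
          rw [j1]
          refine v.map_sub_lt (v.map_add_lt ?_ ?_) ?_
          · rw [mul_assoc]
            exact lt_of_le_of_lt (le_mul v2 (le_mul h2 le_rfl)) p12
          · exact lt_of_le_of_lt (h4.trans hX.le) p12
          · exact lt_of_le_of_lt (le_mul h1 le_rfl) hYX
        have j3 : S = 3 * X ^ 2 + (2 * W.a₂ * X + W.a₄ - W.a₁ * Y) := by rw [hSdef]; ring
        rw [j3, v.map_add_eq_of_lt_left j2, j1]
      have i5 := hD Y
      rw [hDY, map_mul, i4] at i5
      by_contra hcon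
      push Not at hcon
      have hX20 : 0 < v X ^ 2 := pow_pos hX0 2
      have i6 : v X ^ 2 < v X ^ 2 * v g := by
        calc v X ^ 2 = v X ^ 2 * 1 := (mul_one _).symm
          _ < v X ^ 2 * v g := mul_lt_mul_of_pos_left hcon hX20
      exact absurd (i6.trans_le i5) (not_lt.2 hYX.le)

end

end Pool.Agent.MUXN


end

section

/-!
# MUX, block G, module FGG: finitely many elements of `Γ₁(N)` determine every homomorphism to `ℂ`
-/

set_option autoImplicit false

namespace Pool.Agent.MUXN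

open scoped MatrixGroups

noncomputable section

namespace FGG

theorem fgSL : Group.FG SL(2, ℤ) := by
  rw [Group.fg_iff]
  exact ⟨{ModularGroup.S, ModularGroup.T}, SpecialLinearGroup.SL2Z_generators, by simp⟩

theorem fg1 (N : ℕ) (hN : N ≠ 0) : Group.FG (CongruenceSubgroup.Gamma1 N) := by
  have : NeZero N := ⟨hN⟩
  have := fgSL
  exact Subgroup.fg_of_index_ne_zero _

end FGG

open _root_.Pool.Agent.MUXN.FGG in
theorem tg_FGG : Sg_FGG := by
  intro N hN
  obtain ⟨S, hS⟩ := (fg1 N hN.ne').out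
  refine ⟨S.card, fun i => ((S.equivFin.symm i).1 : SL(2, ℤ)), fun i => (S.equivFin.symm i).1.2, ?_⟩
  intro ρ hρ M hM g hg
  have h1 : ρ 1 = 0 := by
    have h := hρ 1 (one_mem _) 1 (one_mem _)
    rw [mul_one] at h
    exact left_eq_add.1 h
  have hmem : (⟨g, hg⟩ : CongruenceSubgroup.Gamma1 N) ∈ Subgroup.closure
      (S : Set (CongruenceSubgroup.Gamma1 N)) := hS ▸ Subgroup.mem_top _
  have key : ∀ x : CongruenceSubgroup.Gamma1 N, x ∈ Subgroup.closure
      (S : Set (CongruenceSubgroup.Gamma1 N)) → ρ (x : SL(2, ℤ)) ∈ M := by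
    intro x hx
    induction hx using Subgroup.closure_induction with
    | mem x hx =>
      have h2 := hM (S.equivFin ⟨x, hx⟩)
      simpa using h2
    | one =>
      have h3 : ρ ((1 : CongruenceSubgroup.Gamma1 N) : SL(2, ℤ)) = 0 := h1
      rw [h3]
      exact zero_mem _
    | mul x z _ _ hx hz =>
      have h3 : ρ ((x * z : CongruenceSubgroup.Gamma1 N) : SL(2, ℤ)) = ρ x + ρ z :=
        hρ x x.2 z z.2
      rw [h3]
      exact add_mem hx hz
    | inv x _ hx =>
      have h3 := hρ x x.2 (x⁻¹ : CongruenceSubgroup.Gamma1 N) (x⁻¹).2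
      have h4 : (x : SL(2, ℤ)) * ((x⁻¹ : CongruenceSubgroup.Gamma1 N) : SL(2, ℤ)) = 1 := by
        rw [← Subgroup.coe_mul, mul_inv_cancel]
        rfl
      rw [h4, h1] at h3
      have h5 : ρ ((x⁻¹ : CongruenceSubgroup.Gamma1 N) : SL(2, ℤ)) = -ρ x :=
        eq_neg_of_add_eq_zero_right h3.symm
      rw [h5]
      exact neg_mem hx
  exact key ⟨g, hg⟩ hmem

end

end Pool.Agent.MUXN


end

section

/-!
# MUX, block G, module DSI (helper95): integral reduced basis of a subspace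
-/

set_option autoImplicit false

namespace Pool.Agent.MUXN

noncomputable section

namespace DSI

theorem main (V : ValuationSubring ℂ) (r : ℕ) (n : ℕ) : ∀ (X : Submodule ℂ (Fin r → ℂ)),
    Module.finrank ℂ X = n → ∃ (J : Finset (Fin r)) (e : Fin r → (Fin r → ℂ)),
      (∀ j ∈ J, e j ∈ X ∧ (∀ i, e j i ∈ V) ∧ ∀ j' ∈ J, e j j' = if j = j' then 1 else 0) ∧
      ∀ x ∈ X, x = ∑ j ∈ J, x j • e j := by
  classical
  induction n using Nat.strong_induction_on with
  | _ n ih =>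
    intro X hX
    by_cases hbot : X = ⊥
    · refine ⟨∅, 0, fun j hj => absurd hj (Finset.notMem_empty j), fun x hx => ?_⟩
      rw [hbot, Submodule.mem_bot] at hx
      rw [hx, Finset.sum_empty]
    obtain ⟨x₀, hx₀, hne⟩ := Submodule.exists_mem_ne_zero_of_ne_bot hbot
    obtain ⟨l, hl⟩ := Function.ne_iff.1 hne
    obtain ⟨i, -, hi⟩ := Finset.exists_max_image Finset.univ (fun j => V.valuation (x₀ j))
      ⟨l, Finset.mem_univ l⟩
    have hi0 : x₀ i ≠ 0 := by
      intro h0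
      have h1 := hi l (Finset.mem_univ l)
      rw [h0, map_zero] at h1
      exact hl ((Valuation.zero_iff _).1 (le_antisymm h1 zero_le))
    -- the scaled vector
    set x : Fin r → ℂ := (x₀ i)⁻¹ • x₀ with hx
    have hxX : x ∈ X := X.smul_mem _ hx₀
    have hxi : x i = 1 := by
      rw [hx, Pi.smul_apply, smul_eq_mul, inv_mul_cancel₀ hi0]
    have hxV : ∀ j, x j ∈ V := by
      intro j
      rw [← ValuationSubring.valuation_le_one_iff, hx, Pi.smul_apply, smul_eq_mul, map_mul,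
        map_inv₀]
      have h1 := hi j (Finset.mem_univ j)
      have h2 : V.valuation (x₀ i) ≠ 0 := (Valuation.ne_zero_iff _).2 hi0
      calc (V.valuation (x₀ i))⁻¹ * V.valuation (x₀ j)
          ≤ (V.valuation (x₀ i))⁻¹ * V.valuation (x₀ i) := mul_le_mul_right h1 _
        _ = 1 := inv_mul_cancel₀ h2
    -- the smaller space
    set X' : Submodule ℂ (Fin r → ℂ) :=
      X ⊓ LinearMap.ker (LinearMap.proj i : (Fin r → ℂ) →ₗ[ℂ] ℂ) with hX'
    have hmem : ∀ y, y ∈ X' ↔ y ∈ X ∧ y i = 0 := by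
      intro y
      rw [hX', Submodule.mem_inf, LinearMap.mem_ker]
      rfl
    have hlt : X' < X := by
      refine lt_of_le_of_ne inf_le_left fun h => ?_
      have h1 := hxX
      rw [← h, hmem, hxi] at h1
      exact one_ne_zero h1.2
    have hfr : Module.finrank ℂ X' < n := hX ▸ Submodule.finrank_lt_finrank_of_lt hlt
    obtain ⟨J', e', he', hs'⟩ := ih _ hfr X' rfl
    have hiJ : i ∉ J' := by
      intro h
      obtain ⟨h1, -, h2⟩ := he' i h
      have h3 := h2 i h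
      rw [if_pos rfl, ((hmem _).1 h1).2] at h3
      exact one_ne_zero h3.symm
    set ei : Fin r → ℂ := x - ∑ j ∈ J', x j • e' j with hei
    have heiX : ei ∈ X := X.sub_mem hxX (X.sum_mem fun j hj =>
      X.smul_mem _ ((hmem _).1 (he' j hj).1).1)
    have heival : ∀ k, ei k = x k - ∑ j ∈ J', x j * e' j k := by
      intro k
      rw [hei, Pi.sub_apply, Finset.sum_apply]
      rfl
    obtain ⟨e, hei', hej⟩ : ∃ e : Fin r → (Fin r → ℂ), e i = ei ∧ ∀ j ∈ J', e j = e' j :=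
      ⟨fun j => if j = i then ei else e' j, if_pos rfl,
        fun j hj => if_neg (fun h : j = i => hiJ (h ▸ hj))⟩
    refine ⟨insert i J', e, ?_, ?_⟩
    · intro j hj
      rcases Finset.mem_insert.1 hj with rfl | hj
      · rw [hei']
        refine ⟨heiX, ?_, ?_⟩
        · intro k
          rw [heival]
          exact sub_mem (hxV k) (sum_mem fun j hj => mul_mem (hxV j) ((he' j hj).2.1 k))
        · intro j' hj'
          rw [heival]
          rcases Finset.mem_insert.1 hj' with rfl | hj'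
          · rw [if_pos rfl, hxi, Finset.sum_eq_zero, sub_zero]
            intro j hj
            rw [((hmem _).1 (he' j hj).1).2, mul_zero]
          · have hne' : j ≠ j' := fun h => hiJ (h ▸ hj')
            rw [if_neg hne', Finset.sum_eq_single j']
            · rw [(he' j' hj').2.2 j' hj', if_pos rfl, mul_one, sub_self]
            · intro k hk hkj
              rw [(he' k hk).2.2 j' hj', if_neg hkj, mul_zero]
            · exact fun h => absurd hj' h
      · have hji : j ≠ i := fun h => hiJ (h ▸ hj)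
        obtain ⟨h1, h2, h3⟩ := he' j hj
        rw [hej j hj]
        refine ⟨((hmem _).1 h1).1, h2, ?_⟩
        intro j' hj'
        rcases Finset.mem_insert.1 hj' with rfl | hj'
        · rw [if_neg hji]
          exact ((hmem _).1 h1).2
        · exact h3 j' hj'
    · intro y hy
      rw [Finset.sum_insert hiJ, hei']
      have h1 : ∑ j ∈ J', y j • e j = ∑ j ∈ J', y j • e' j := by
        refine Finset.sum_congr rfl fun j hj => ?_
        rw [hej j hj]
      rw [h1]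
      have h2 : y - y i • x ∈ X' := by
        rw [hmem]
        refine ⟨X.sub_mem hy (X.smul_mem _ hxX), ?_⟩
        rw [Pi.sub_apply, Pi.smul_apply, hxi, smul_eq_mul, mul_one, sub_self]
      have h3 := hs' _ h2
      have h4 : ∑ j ∈ J', (y - y i • x) j • e' j =
          ∑ j ∈ J', y j • e' j - y i • ∑ j ∈ J', x j • e' j := by
        rw [Finset.smul_sum, ← Finset.sum_sub_distrib]
        refine Finset.sum_congr rfl fun j _ => ?_
        rw [Pi.sub_apply, Pi.smul_apply, sub_smul, smul_eq_mul, mul_smul]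
      rw [h4] at h3
      rw [hei, smul_sub]
      have h5 := sub_eq_iff_eq_add.1 h3
      conv_lhs => rw [h5]
      abel

end DSI

theorem tg_DSI : Sg_DSI := fun V r X => DSI.main V r _ X rfl

end

end Pool.Agent.MUXN


end
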