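import Mathlib
import Pool.Agent.MVF.C023
import Pool.Agent.MVF.C029
import Pool.Agent.MVF.C059
import Pool.Agent.MVF.C072

/-! Parts: MUX.Y_MAP, MUX.N_ZL, MUX.N_DSC, MU3.P_TN, MU3.N_FIN, VB.V_RED, VB.V_KUF -/

namespace MU3.Fin4
end MU3.Fin4
namespace Pool.Agent.MUXN.N_ZL
end Pool.Agent.MUXN.N_ZL
namespace Pool.Agent.VB.REDa
end Pool.Agent.VB.REDa

section

/-!
# MUX, section 9: module MAP (the map `x ↦ (mu om / om') x` from `b` to `c`)
-/

set_option autoImplicit false

namespace Pool.Agent.MUXY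

open _root_.MU3 _root_.Pool.Agent.MU3A _root_.Pool.Agent.MU3B _root_.Pool.Agent.MUXU OnePoint
open _root_.Pool.Agent.MU3F (ex)
open _root_.Pool.Agent.MUXF (Sx_ALG Sx_IDL Sx_NIM Sx_QB Sx_SMB Sx_F4 qb sumB)

noncomputable section

theorem ty_MAP (h1 : Sx_ALG) (h2 : Sx_NIM) : Sy_MAP := by
  intro A B hC σ m a b c L L' om om' mu hb hc hact
  obtain ⟨a1, a2, a3, -, -⟩ := h1 A B hC
  obtain ⟨-, -, n3, -⟩ := h2 A B hC
  have hmul : ∀ x y : OO A B, emb (x * y) = emb x * emb y := fun x y => (a1 x y).1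
  have hadd : ∀ x y : OO A B, emb (x + y) = emb x + emb y := fun x y => (a1 x y).2.1
  have hsub : ∀ x y : OO A B, emb (x - y) = emb x - emb y := by
    intro x y
    have h := hadd (x - y) y
    rw [sub_add_cancel] at h
    rw [h]
    ring
  have hinj : ∀ u v : OO A B, om' * emb u = om' * emb v → u = v := by
    intro u v h
    have e1 : emb u = emb v := mul_left_cancel₀ hc.om_ne h
    have e2 : emb (u - v) = 0 := by rw [hsub, e1, sub_self]
    exact sub_eq_zero.1 ((a2 (u - v)).1.1 e2)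
  have hex : ∀ x ∈ b, ∃ y : OO A B, y ∈ c ∧ om' * emb y = mu * om * emb x := by
    intro x hx
    have hm : mu * (om * emb x) ∈ L'.lattice := by
      rw [hact.isq]
      intro y hy
      rw [hb.mem]
      refine ⟨y * x, b.mul_mem_left y hx, ?_⟩
      rw [hmul]
      ring
    obtain ⟨y, hy, e⟩ := (hc.mem _).1 hm
    exact ⟨y, hy, by rw [← e]; ring⟩
  choose! f hf using hex
  refine ⟨f, fun x hx => (hf x hx).1, fun x hx => (hf x hx).2, ?_, ?_, ?_, ?_⟩
  · intro x hx y hy
    apply hinj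
    rw [(hf _ (b.add_mem hx hy)).2, hadd, hadd, mul_add, mul_add, (hf x hx).2, (hf y hy).2]
  · intro x hx y hy
    apply hinj
    rw [(hf _ (b.sub_mem hx hy)).2, hsub, hsub, mul_sub, mul_sub, (hf x hx).2, (hf y hy).2]
  · intro x hx r
    apply hinj
    rw [(hf _ (b.mul_mem_left r hx)).2, hmul, hmul]
    have e := (hf x hx).2
    linear_combination (-(emb r)) * e
  · intro x hx
    have hn := (n3 b hb.b_ne).2.2.2
    apply hinj
    rw [hmul, hmul]
    have e := (hf x hx).2
    have e' := (hf _ hn).2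
    linear_combination (emb ((MUXF.nI b : ℕ) : OO A B)) * e - (emb x) * e'

end

end Pool.Agent.MUXY


end

section

/-!
# MUXN_ZL: a form whose integral is invariant under `Γ₁(N)` is zero

Instead of the coefficients of `∏_v (T - Z_v)` only the norm `F = ∏_v Z_v` is used: it is invariant under
`SL(2, ℤ)`, holomorphic and bounded at `i ∞`, so constant, and the constant is `0`, since the factor `Z`
itself tends to the constant coefficient `0` of `z`. So one factor is identically zero.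
-/

set_option autoImplicit false

namespace Pool.Agent.MUXN

open _root_.MU3 _root_.Pool.Agent.MU3A _root_.Pool.Agent.MU3B _root_.Pool.Agent.MU3Q _root_.Pool.Agent.MUX _root_.Pool.Agent.MuSym
  OnePoint UpperHalfPlane ModularForm ModularFormClass EisensteinSeries
open scoped MatrixGroups Topology

namespace N_ZL

lemma hol_tendsto (W : ℍ → ℂ) (C : ℂ) (w : ℕ → ℂ) (N : ℕ) (hN : 0 < N)
    (h : ∀ τ : ℍ, HasSum (fun n : ℕ => w n *
      Complex.exp (2 * Real.pi * Complex.I * (τ : ℂ) / N) ^ (n + 1)) (W τ - C)) :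
    Hol W ∧ Filter.Tendsto W atImInfty (𝓝 C) := by
  have hN' : (0 : ℝ) < N := by exact_mod_cast hN
  have hs := Q_MR.summable_norm W C w N hN h
  have han := Q_MR.analytic w hs
  have hval : ∀ τ : ℍ, W τ = C + ∑' n : ℕ, w n *
      Complex.exp (2 * Real.pi * Complex.I * (τ : ℂ) / N) ^ (n + 1) := by
    intro τ
    rw [(h τ).tsum_eq]
    ring
  have hlt : ∀ z : ℂ, 0 < z.im → ‖Complex.exp (2 * Real.pi * Complex.I * z / N)‖ < 1 := by
    intro z hz
    rw [Q_MR.norm_q, Real.exp_lt_one_iff]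
    have : 0 < 2 * Real.pi * z.im / N := by positivity
    linarith
  constructor
  · intro z hz
    have hz' : 0 < z.im := hz
    have h1 : AnalyticAt ℂ (fun x : ℂ => Complex.exp (2 * Real.pi * Complex.I * x / N)) z := by
      fun_prop
    have h2 : AnalyticAt ℂ (fun x : ℂ => C + ∑' n : ℕ, w n *
        Complex.exp (2 * Real.pi * Complex.I * x / N) ^ (n + 1)) z :=
      analyticAt_const.add (AnalyticAt.comp' (g := fun x : ℂ => ∑' n : ℕ, w n * x ^ (n + 1))
        (han _ (hlt z hz')) h1)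
    have hopen : {x : ℂ | 0 < x.im} ∈ nhds z :=
      (isOpen_lt continuous_const Complex.continuous_im).mem_nhds hz'
    have h3 : W ∘ ofComplex =ᶠ[nhds z] (fun x : ℂ => C + ∑' n : ℕ, w n *
        Complex.exp (2 * Real.pi * Complex.I * x / N) ^ (n + 1)) := by
      filter_upwards [hopen] with x hx
      have hx' : 0 < x.im := hx
      simp only [Function.comp_apply]
      rw [hval, ofComplex_apply_of_im_pos hx']
    exact (h2.congr h3.symm).differentiableAt.differentiableWithinAt
  · have h0 : Filter.Tendsto (fun x : ℂ => C + ∑' n : ℕ, w n * x ^ (n + 1)) (𝓝 0) (𝓝 C) := by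
      have h4 : ContinuousAt (fun x : ℂ => C + ∑' n : ℕ, w n * x ^ (n + 1)) 0 :=
        (analyticAt_const.add (han 0 (by simp))).continuousAt
      have h5 : (C + ∑' n : ℕ, w n * (0 : ℂ) ^ (n + 1)) = C := by simp
      have h6 := h4.tendsto
      rw [h5] at h6
      exact h6
    have h7 := h0.comp (qParam_tendsto_atImInfty (h := N) hN')
    refine h7.congr fun τ => ?_
    rw [hval τ]
    simp [Function.comp_apply, Function.Periodic.qParam]

end N_ZL

open _root_.Pool.Agent.MUXN.N_ZL in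
theorem tg_ZL : Sg_ZL := by
  classical
  intro N hN Z z hZ hz0 hC hΓ
  have : NeZero N := ⟨hN.ne'⟩
  -- the limit of `Z`
  have hZlim : Filter.Tendsto Z atImInfty (𝓝 0) := by
    refine (hol_tendsto Z 0 (fun n => PowerSeries.coeff (n + 1) z) 1 one_pos fun τ => ?_).2
    have h1 := (hasSum_nat_add_iff (f := fun n : ℕ => PowerSeries.coeff n z * qq τ ^ n) 1
      (g := Z τ)).2 (by simpa [hz0] using hZ τ)
    rw [sub_zero]
    refine h1.congr_fun fun n => ?_
    simp [qq]
  have hZeq : ∀ γ γ' : SL(2, ℤ), vm (v01 N) γ = vm (v01 N) γ' → ∀ τ, Z (γ • τ) = Z (γ' • τ) := by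
    intro γ γ' h τ
    have h1 : vm (v01 N) (γ * γ'⁻¹) = v01 N := by
      rw [← WQ.vm_mul, h, WQ.vm_mul, mul_inv_cancel, WQ.vm_one]
    have h2 := hΓ _ (WQ.mem_Gamma1 h1) (γ' • τ)
    rw [← h2, ← mul_smul, inv_mul_cancel_right]
  -- the family
  let ι : Type := {v : Fin 2 → ZMod N // ∃ γ : SL(2, ℤ), v = vm (v01 N) γ}
  have : Fintype ι := Fintype.ofFinite ι
  let g : ι → SL(2, ℤ) := fun v => v.2.choose
  have hg : ∀ v : ι, v.1 = vm (v01 N) (g v) := fun v => v.2.choose_spec
  let mv : SL(2, ℤ) → ι → ι := fun γ v => ⟨vm v.1 γ, g v * γ, by rw [← WQ.vm_mul, ← hg]⟩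
  have hmv : ∀ (γ : SL(2, ℤ)) (v : ι), (mv γ v).1 = vm v.1 γ := fun γ v => rfl
  let pm : SL(2, ℤ) → Equiv.Perm ι := fun γ =>
    { toFun := mv γ
      invFun := mv γ⁻¹
      left_inv := fun v => Subtype.ext (by
        rw [hmv, hmv, WQ.vm_mul, mul_inv_cancel, WQ.vm_one])
      right_inv := fun v => Subtype.ext (by
        rw [hmv, hmv, WQ.vm_mul, inv_mul_cancel, WQ.vm_one]) }
  let Zv : ι → ℍ → ℂ := fun v τ => Z (g v • τ)
  have hZv : ∀ (γ : SL(2, ℤ)) (v : ι) (τ : ℍ), Zv v (γ • τ) = Zv (pm γ v) τ := by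
    intro γ v τ
    change Z (g v • (γ • τ)) = Z (g (mv γ v) • τ)
    rw [← mul_smul]
    apply hZeq
    rw [← WQ.vm_mul, ← hg, ← hg]
  have hlim : ∀ v : ι, Hol (Zv v) ∧ ∃ C : ℂ, Filter.Tendsto (Zv v) atImInfty (𝓝 C) := by
    intro v
    obtain ⟨C, w, hw⟩ := hC (g v)
    have h1 := hol_tendsto (Zv v) C w N hN hw
    exact ⟨h1.1, C, h1.2⟩
  choose hHol C hCt using hlim
  let i0 : ι := ⟨v01 N, 1, (WQ.vm_one _).symm⟩
  have hi0 : Zv i0 = Z := by
    funext τ
    have := hZeq (g i0) 1 (by rw [← hg, WQ.vm_one]) τ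
    rwa [one_smul] at this
  have hC0 : C i0 = 0 := by
    have h1 := hCt i0
    rw [hi0] at h1
    exact tendsto_nhds_unique h1 hZlim
  -- the norm
  have hFlim : Filter.Tendsto (fun τ => ∏ v, Zv v τ) atImInfty (𝓝 0) := by
    have h1 : Filter.Tendsto (fun τ => ∏ v, Zv v τ) atImInfty (𝓝 (∏ v, C v)) :=
      tendsto_finsetProd _ fun v _ => hCt v
    rwa [Finset.prod_eq_zero (Finset.mem_univ i0) hC0] at h1
  have hFinv : ∀ (γ : SL(2, ℤ)) (τ : ℍ), ∏ v, Zv v (γ • τ) = ∏ v, Zv v τ := by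
    intro γ τ
    rw [← Equiv.prod_comp (pm γ) (fun v => Zv v τ)]
    exact Finset.prod_congr rfl fun v _ => hZv γ v τ
  by_cases hex : ∃ v : ι, ∀ τ, Zv v τ = 0
  · obtain ⟨v, hv⟩ := hex
    have hZ0 : ∀ τ, Z τ = 0 := by
      intro τ
      have h1 : Z (g v • ((g v)⁻¹ • τ)) = 0 := hv ((g v)⁻¹ • τ)
      rwa [smul_inv_smul] at h1
    refine t_QA.2.2.2.2 Z z 0 0 (fun τ _ => hZ τ) (fun τ _ => ?_)
    rw [hZ0 τ]
    simp only [map_zero, zero_mul]
    exact hasSum_zero
  · exfalso
    obtain ⟨hFh, hFn⟩ := INT.prod_ne t_JB Finset.univ Zv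
      (fun v _ => ⟨hHol v, fun h => hex ⟨v, h⟩⟩)
    have hb : IsBoundedAtImInfty (fun τ : ℍ => ModularForm.discriminant τ ^ 0 * ∏ v, Zv v τ) := by
      simp only [pow_zero, one_mul]
      exact hFlim.isBigO_one ℝ
    obtain ⟨c, hc⟩ := levelOne_weight_zero_const
      (ModularForm.mcast (b := 0) (by simp)
        (L118.mk 0 (fun τ => ∏ v, Zv v τ) hFh hFinv hb) : ModularForm 𝒮ℒ 0)
    have hFc : ∀ τ, ∏ v, Zv v τ = c := by
      intro τ
      have h1 := congrFun hc τ
      have h2 : ModularForm.discriminant τ ^ 0 * ∏ v, Zv v τ = c := h1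
      rwa [pow_zero, one_mul] at h2
    have hc0 : c = 0 := by
      have h1 : Filter.Tendsto (fun _ : ℍ => c) atImInfty (𝓝 0) := hFlim.congr hFc
      exact tendsto_nhds_unique tendsto_const_nhds h1
    exact hFn fun τ => by rw [hFc τ, hc0]

end Pool.Agent.MUXN


end

section

/-!
# MUX, block G: descent of a subspace (DSC)
-/

set_option autoImplicit false

namespace Pool.Agent.MUXN

theorem tg_DSC (h : Sg_DSI) : Sg_DSC := by
  intro k hk V r X hX
  obtain ⟨J, e, he, hsum⟩ := h V r X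
  refine ⟨J, e, fun j hj => ⟨(he j hj).1, fun i => ⟨?_, (he j hj).2.1 i⟩, (he j hj).2.2⟩, hsum⟩
  refine hk _ (fun σ hσ => ?_)
  have h1 : (fun i => σ (e j i)) ∈ X := hX σ hσ _ (he j hj).1
  have h2 := hsum _ h1
  have h3 := hsum _ (he j hj).1
  have h4 : (fun i => σ (e j i)) = e j := by
    rw [h2]
    conv_rhs => rw [h3]
    refine Finset.sum_congr rfl (fun j' hj' => ?_)
    congr 1
    show σ (e j j') = e j j'
    rw [(he j hj).2.2 j' hj']
    split <;> simp
  exact congrFun h4 i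

end Pool.Agent.MUXN


end

section

/-!
# MU3, TN: `T ^ (3 ^ j) = γ ^ (3 ^ j) - 1` modulo cubes
-/

namespace Pool.Agent.MU3.P_TN

open _root_.Pool.Agent.MU3

variable {k L : Type} [Field k] [Field L] [Algebra k L]

theorem Tg_mul (γ : L ≃ₐ[k] L) (x y : L) : Tg γ (x * y) = Tg γ x * Tg γ y := by
  unfold Tg
  rw [map_mul, mul_div_mul_comm]

theorem Tg_pow (γ : L ≃ₐ[k] L) (x : L) (n : ℕ) : Tg γ (x ^ n) = Tg γ x ^ n := by
  unfold Tg
  rw [map_pow, div_pow]

theorem Tg_ne (γ : L ≃ₐ[k] L) {x : L} (hx : x ≠ 0) : Tg γ x ≠ 0 :=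
  div_ne_zero ((map_ne_zero γ).2 hx) hx

theorem iter_ne (γ : L ≃ₐ[k] L) (n : ℕ) {x : L} (hx : x ≠ 0) : (Tg γ)^[n] x ≠ 0 := by
  induction n generalizing x with
  | zero => exact hx
  | succ n ih =>
    rw [Function.iterate_succ_apply]
    exact ih (Tg_ne γ hx)

theorem three (γ : L ≃ₐ[k] L) {x : L} (hx : x ≠ 0) :
    ∃ w : L, w ≠ 0 ∧ (Tg γ)^[3] x = Tg (γ ^ 3) x * w ^ 3 := by
  have h1 : γ x ≠ 0 := (map_ne_zero γ).2 hx
  have h2 : γ (γ x) ≠ 0 := (map_ne_zero γ).2 h1
  refine ⟨γ x / γ (γ x), div_ne_zero h1 h2, ?_⟩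
  have h3 : (γ ^ 3) x = γ (γ (γ x)) := rfl
  have h4 : (Tg γ)^[3] x = Tg γ (Tg γ (Tg γ x)) := rfl
  rw [h4]
  unfold Tg
  rw [h3]
  simp only [map_div₀]
  have h5 : γ (γ (γ x)) ≠ 0 := (map_ne_zero γ).2 h2
  field_simp

/-- `f` multiplicative, `f x = T x` up to cubes: the same for the iterates -/
theorem iter (γ : L ≃ₐ[k] L) (n : ℕ) {x : L} (hx : x ≠ 0) :
    ∃ w : L, w ≠ 0 ∧ ((Tg γ)^[3])^[n] x = (Tg (γ ^ 3))^[n] x * w ^ 3 := by
  induction n with
  | zero => exact ⟨1, one_ne_zero, by simp⟩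
  | succ n ih =>
    obtain ⟨w, hw, hw'⟩ := ih
    have h1 : (Tg (γ ^ 3))^[n] x ≠ 0 := iter_ne _ _ hx
    obtain ⟨v, hv, hv'⟩ := three γ h1
    refine ⟨v * Tg γ (Tg γ (Tg γ w)), mul_ne_zero hv (Tg_ne γ (Tg_ne γ (Tg_ne γ hw))), ?_⟩
    have h2 : ∀ y : L, (Tg γ)^[3] y = Tg γ (Tg γ (Tg γ y)) := fun _ => rfl
    have h3 : (Tg (γ ^ 3))^[n + 1] x = Tg (γ ^ 3) ((Tg (γ ^ 3))^[n] x) :=
      Function.iterate_succ_apply' _ _ _
    rw [Function.iterate_succ_apply' (Tg γ)^[3] n x, hw', h3, h2, Tg_mul, Tg_mul, Tg_mul, Tg_pow, Tg_pow, Tg_pow, ← h2 ((Tg (γ ^ 3))^[n] x), hv']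
    ring

end Pool.Agent.MU3.P_TN

namespace Pool.Agent.MU3

/-- `T ^ (3 ^ j) = γ ^ (3 ^ j) - 1` modulo cubes -/
theorem t_TN : S_TN := by
  intro k L _ _ _ γ j
  induction j generalizing γ with
  | zero =>
    intro x _
    exact ⟨1, one_ne_zero, by simp [Tg]⟩
  | succ j ih =>
    intro x hx
    obtain ⟨w, hw, hw'⟩ := ih (γ ^ 3) x hx
    obtain ⟨v, hv, hv'⟩ := P_TN.iter γ (3 ^ j) hx
    refine ⟨w * v, mul_ne_zero hw hv, ?_⟩
    rw [pow_succ', Function.iterate_mul, hv', hw', ← pow_mul, ← pow_succ']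
    ring

end Pool.Agent.MU3


end

section

/-!
# MU3N_FIN: the result of section 4 (helper3)
-/

open NumberField Finset IsDedekindDomain
open scoped nonZeroDivisors Pointwise

namespace MU3

open _root_.Pool.Agent.RI _root_.Pool.Agent.RID

namespace Fin4

lemma finS (p : ℕ) [hp : Fact p.Prime] (K : Type) [Field K] [NumberField K] :
    ∃ S : Finset (HeightOneSpectrum (𝓞 K)), ∀ v : HeightOneSpectrum (𝓞 K),
      (p : 𝓞 K) ∈ v.asIdeal → v ∈ S := by
  have h0 : (Ideal.span {(p : 𝓞 K)} : Ideal (𝓞 K)) ≠ 0 := by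
    rw [Ne, Ideal.zero_eq_bot, Ideal.span_singleton_eq_bot]
    exact_mod_cast hp.out.ne_zero
  have h1 := Ideal.finite_factors h0
  refine ⟨h1.toFinset, fun v hv => ?_⟩
  rw [Set.Finite.mem_toFinset, Set.mem_setOf_eq, Ideal.dvd_span_singleton]
  exact hv

lemma classNo_eq (E : IntermediateField ℚ ℂ) [FiniteDimensional ℚ E] :
    classNo E = NumberField.classNumber E := by
  rw [classNo, NumberField.classNumber, Nat.card_eq_fintype_card]

end Fin4

open _root_.MU3.Fin4 in
theorem n_FIN (hAMB : N_AMB) (hNILR : N_NILR) (hSTEP : N_STEP) (hNUM : N_NUM) (hGAL : N_GAL)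
    (hRAMP : N_RAMP) : N_FIN := by
  intro p l _ k K _ B hk _ hcop hB hmono hyp
  obtain ⟨S, hS⟩ := finS p K
  haveI : FiniteDimensional ℚ k :=
    FiniteDimensional.of_injective (IntermediateField.inclusion hk).toLinearMap
      (IntermediateField.inclusion hk).injective
  set c₀ := padicValNat p (NumberField.classNumber K) with hc₀
  set c₁ := S.card + NumberField.Units.rank K + 1 with hc₁
  apply hNUM p l c₀ c₁ (fun n => padicValNat p (classNo (K ⊔ B n)))
    (fun n => rkp p ↥(K ⊔ B n))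
  · intro n
    letI aKL := algC (le_sup_left : K ≤ K ⊔ B n)
    letI akK := algC hk
    letI akL := algC (hk.trans le_sup_left : k ≤ K ⊔ B n)
    haveI : IsScalarTower k K ↥(K ⊔ B n) := towerC hk le_sup_left
    obtain ⟨g, ord, fix, -⟩ := hGAL p k K B hk hcop hB hmono n (hk.trans le_sup_left)
    have hcyc : CycExt k K ↥(K ⊔ B n) g (p ^ n) := by
      refine ⟨ord, fun x => ?_⟩
      rw [fix x]
      constructor
      · intro hx
        exact ⟨⟨(x : ℂ), hx⟩, rfl⟩
      · rintro ⟨y, rfl⟩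
        exact Pool.Agent.FX.incl_mem _ y
    have h1 := hAMB p n k K ↥(K ⊔ B n) g hcyc S (by
      intro w hw
      have h2 := hRAMP p n K (B n) (hB n) w hw
      have hne : w.asIdeal.under (𝓞 K) ≠ ⊥ := by
        intro h0
        rw [h0, Ideal.mem_bot] at h2
        have : p ≠ 0 := (Fact.out : p.Prime).ne_zero
        exact this (by exact_mod_cast h2)
      haveI := w.isPrime
      exact ⟨⟨w.asIdeal.under (𝓞 K), inferInstance, hne⟩, hS _ h2, rfl⟩)
    have h3 := hNILR p l k ↥(K ⊔ B n) g (hyp n _ g fix)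
    exact h3.trans (Nat.mul_le_mul_left l h1)
  · intro m hlt
    have hle : K ⊔ B m ≤ K ⊔ B (m + 1) := sup_le_sup_left (hmono (Nat.le_succ m)) K
    letI akM := algC (hk.trans le_sup_left : k ≤ K ⊔ B m)
    letI aML := algC hle
    letI akL := algC (hk.trans le_sup_left : k ≤ K ⊔ B (m + 1))
    haveI : IsScalarTower k ↥(K ⊔ B m) ↥(K ⊔ B (m + 1)) := towerC _ hle
    obtain ⟨g, ord, -, hm⟩ := hGAL p k K B hk hcop hB hmono (m + 1) (hk.trans le_sup_left)
    obtain ⟨ord', fix'⟩ := hm m (Nat.le_succ m)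
    have hcyc : CycExt k ↥(K ⊔ B m) ↥(K ⊔ B (m + 1)) (g ^ (p ^ m)) p := by
      refine ⟨by rw [ord']; simp, fun x => ?_⟩
      rw [fix' x]
      constructor
      · intro hx
        exact ⟨⟨(x : ℂ), hx⟩, rfl⟩
      · rintro ⟨y, rfl⟩
        exact Pool.Agent.FX.incl_mem _ y
    have hg1 : g ^ (p ^ (m + 1)) = 1 := by
      rw [← ord]
      exact pow_orderOf_eq_one g
    have h4 := hSTEP p m k ↥(K ⊔ B m) ↥(K ⊔ B (m + 1)) g hg1 hcyc hlt
    show padicValNat p (classNo (K ⊔ B (m + 1))) ≤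
      padicValNat p (classNo (K ⊔ B m)) + rkp p ↥(K ⊔ B (m + 1))
    rw [classNo_eq, classNo_eq]
    exact h4

end MU3


end

section

/-!
# VB, module RED (helper85): from `F'` to `F ≤ F'`
-/

set_option autoImplicit false

open IntermediateField

namespace Pool.Agent.VB

open _root_.Pool.Agent.RI

namespace REDa

/-- `F'_∞ / F_∞` is finite -/
lemma fd_ext (F F' : IntermediateField ℚ ℂ) [FiniteDimensional ℚ F']
    (B : ℕ → IntermediateField ℚ ℂ) (h : Finf F B ≤ Finf F' B) :
    FiniteDimensional (Finf F B) (extendScalars h) := by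
  obtain ⟨α, hα⟩ := Field.exists_primitive_element ℚ F'
  have h1 : IsIntegral ℚ (α : ℂ) := (IsIntegral.of_finite ℚ α).map F'.val
  have hint : IsIntegral (Finf F B) (α : ℂ) := h1.tower_top
  haveI : FiniteDimensional (Finf F B) (Finf F B)⟮(α : ℂ)⟯ := adjoin.finiteDimensional hint
  have hle : extendScalars h ≤ (Finf F B)⟮(α : ℂ)⟯ := by
    rw [extendScalars_le_iff]
    have hE : Finf F B ≤ ((Finf F B)⟮(α : ℂ)⟯).restrictScalars ℚ := fun x hx =>
      ((Finf F B)⟮(α : ℂ)⟯).algebraMap_mem ⟨x, hx⟩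
    refine sup_le ?_ (le_trans le_sup_right hE)
    intro x hx
    have h2 : (⟨x, hx⟩ : F') ∈ ℚ⟮α⟯ := by rw [hα]; trivial
    have h3 : ℚ⟮α⟯ ≤ (((Finf F B)⟮(α : ℂ)⟯).restrictScalars ℚ).comap F'.val := by
      rw [adjoin_le_iff, Set.singleton_subset_iff]
      exact mem_adjoin_simple_self (Finf F B) (α : ℂ)
    exact h3 h2
  exact FiniteDimensional.of_injective (inclusion hle).toLinearMap (inclusion hle).injective

lemma tower {E D M : IntermediateField ℚ ℂ} (h : E ≤ D) (h' : D ≤ M) :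
    Module.finrank E (extendScalars h) * Module.finrank D (extendScalars h') =
      Module.finrank E (extendScalars (h.trans h')) := by
  letI := algC h
  letI := algC h'
  letI := algC (h.trans h')
  haveI := towerC h h'
  rw [← finrank_algC h, ← finrank_algC h', ← finrank_algC (h.trans h')]
  exact Pool.Agent.FX.fmul E D M

lemma deg_sup {E E' M : IntermediateField ℚ ℂ} (h : E ≤ M) (h' : E ≤ E')
    [FiniteDimensional E (extendScalars h')] [IsGalois E (extendScalars h)]
    [FiniteDimensional E (extendScalars h)] (hinf : E' ⊓ M ≤ E) :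
    Module.finrank E' (extendScalars (le_sup_left : E' ≤ E' ⊔ M)) =
      Module.finrank E (extendScalars h) := by
  have h1 : extendScalars h ⊓ extendScalars h' = ⊥ := by
    rw [eq_bot_iff]
    intro x hx
    rw [mem_inf] at hx
    rw [mem_bot]
    exact ⟨⟨x, hinf ⟨hx.2, hx.1⟩⟩, rfl⟩
  have h2 := (LinearDisjoint.of_inf_eq_bot h1).finrank_sup
  rw [sup_comm, extendScalars_sup] at h2
  have h3 := tower h' (le_sup_left : E' ≤ E' ⊔ M)
  rw [h2, mul_comm (Module.finrank E (extendScalars h))] at h3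
  exact Nat.eq_of_mul_eq_mul_left Module.finrank_pos h3

lemma alg_of_fd {E M : IntermediateField ℚ ℂ} (hE : Algebra.IsAlgebraic ℚ E) (h : E ≤ M)
    [FiniteDimensional E (extendScalars h)] : Algebra.IsAlgebraic ℚ M := by
  refine ⟨fun x => ?_⟩
  have h1 : IsAlgebraic E (⟨x.1, x.2⟩ : extendScalars h) := Algebra.IsAlgebraic.isAlgebraic _
  have h2 : IsAlgebraic E (x.1 : ℂ) := h1.algHom (extendScalars h).val
  have h3 : IsAlgebraic ℚ (x.1 : ℂ) := IsAlgebraic.restrictScalars ℚ h2
  exact (isAlgebraic_algHom_iff M.val M.val.injective).1 h3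

/-- finitely many intermediate fields -/
lemma fin_between {E N : IntermediateField ℚ ℂ} (h : E ≤ N)
    [FiniteDimensional E (extendScalars h)] : {M | E ≤ M ∧ M ≤ N}.Finite := by
  haveI : Finite (IntermediateField E (extendScalars h)) :=
    Field.finite_intermediateField_of_exists_primitive_element E (extendScalars h)
      (Field.exists_primitive_element E (extendScalars h))
  have : Set.Finite (Set.range fun K : IntermediateField E (extendScalars h) =>
      ((lift K).restrictScalars ℚ : IntermediateField ℚ ℂ)) := Set.finite_range _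
  refine this.subset ?_
  rintro M ⟨h1, h2⟩
  refine ⟨restrict (show extendScalars h1 ≤ extendScalars h from h2), ?_⟩
  show (lift (restrict _)).restrictScalars ℚ = M
  rw [lift_restrict]
  rfl

end REDa

open _root_.Pool.Agent.VB.REDa in
theorem tb_RED (hN : Sb_NRM) : Sb_RED := by
  intro p _ F F' _ B hB hmono hFF hfin
  have hp : p.Prime := Fact.out
  have hEE : Finf F B ≤ Finf F' B := sup_le_sup_right hFF _
  haveI hfd := fd_ext F F' B hEE
  have hfdF' : ∀ n, FiniteDimensional ℚ ↥(F' ⊔ B n) := fun n => by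
    haveI := hB n
    infer_instance
  have halg' : Algebra.IsAlgebraic ℚ (Finf F' B) := (tb_LIM F' B hmono).2.2 hfdF'
  have halg : Algebra.IsAlgebraic ℚ (Finf F B) := by
    refine ⟨fun x => ?_⟩
    have h1 : IsAlgebraic ℚ (⟨x.1, hEE x.2⟩ : Finf F' B) := halg'.isAlgebraic _
    have h2 : IsAlgebraic ℚ (x.1 : ℂ) := h1.algHom (Finf F' B).val
    exact (isAlgebraic_algHom_iff (Finf F B).val (Finf F B).val.injective).1 h2
  set E := Finf F B with hEdef
  set E' := Finf F' B with hE'def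
  have key : ∀ M ∈ UM p E, E' ⊔ M ∈ insert E' (UM p E') := by
    rintro M ⟨h, hg, hdeg, hunr⟩
    haveI := hg
    haveI : FiniteDimensional E (extendScalars h) :=
      FiniteDimensional.of_finrank_pos (by rw [hdeg]; exact hp.pos)
    have halgM := alg_of_fd halg h
    have hnrm : Nrm E M := (hN E M halgM h).1 hg
    by_cases hle : M ≤ E'
    · left
      exact sup_eq_left.2 hle
    · right
      have hinf : E' ⊓ M ≤ E := by
        have h1 : E ≤ E' ⊓ M := le_inf hEE h
        have h2 : E' ⊓ M ≤ M := inf_le_right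
        have h3 := tower h1 h2
        rw [hdeg] at h3
        have h4 : Module.finrank E (extendScalars h1) ∣ p := ⟨_, h3.symm⟩
        rcases (Nat.dvd_prime hp).1 h4 with h5 | h5
        · have h6 : extendScalars h1 = ⊥ := finrank_eq_one_iff.1 h5
          intro x hx
          have h7 : x ∈ extendScalars h1 := hx
          rw [h6, mem_bot] at h7
          obtain ⟨y, rfl⟩ := h7
          exact y.2
        · exfalso
          have h6 : extendScalars h1 = extendScalars h :=
            eq_of_le_of_finrank_eq (fun x hx => hx.2) (by rw [h5, hdeg])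
          apply hle
          intro x hx
          have h7 : x ∈ extendScalars h1 := by rw [h6]; exact hx
          exact h7.1
      have hd := deg_sup h hEE hinf
      haveI : FiniteDimensional E' (extendScalars (le_sup_left : E' ≤ E' ⊔ M)) :=
        FiniteDimensional.of_finrank_pos (by rw [hd, hdeg]; exact hp.pos)
      refine ⟨le_sup_left, ?_, by rw [hd, hdeg], fun V => ti_base (hunr V) hEE⟩
      exact (hN E' (E' ⊔ M) (alg_of_fd halg' le_sup_left) le_sup_left).2
        (nrm_sup (nrm_self E') (nrm_mono hEE hnrm))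
  have hcov : UM p E ⊆ ⋃ N ∈ insert E' (UM p E'), {M | M ∈ UM p E ∧ E' ⊔ M = N} := by
    intro M hM
    simp only [Set.mem_iUnion]
    exact ⟨E' ⊔ M, key M hM, hM, rfl⟩
  refine (Set.Finite.biUnion (hfin.insert E') ?_).subset hcov
  intro N _
  by_cases hne : ∃ M₀, M₀ ∈ UM p E ∧ E' ⊔ M₀ = N
  · obtain ⟨M₀, ⟨h, hg, hdeg, -⟩, rfl⟩ := hne
    haveI : FiniteDimensional E (extendScalars h) :=
      FiniteDimensional.of_finrank_pos (by rw [hdeg]; exact hp.pos)
    haveI : FiniteDimensional E (extendScalars (le_sup_of_le_left hEE : E ≤ E' ⊔ M₀)) := by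
      rw [← extendScalars_sup hEE h]
      infer_instance
    refine (fin_between (le_sup_of_le_left hEE : E ≤ E' ⊔ M₀)).subset ?_
    rintro M ⟨⟨h1, -, -, -⟩, h2⟩
    exact ⟨h1, h2 ▸ le_sup_right⟩
  · convert Set.finite_empty
    ext M
    constructor
    · intro hM
      exact hne ⟨M, hM⟩
    · intro hM
      exact hM.elim

end Pool.Agent.VB


end

section

/-!
# VB: (KUF) Galois extensions of degree `p` are Kummer extensions
-/

set_option autoImplicit false

open NumberField IntermediateField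

namespace Pool.Agent.VB

theorem tb_KUF : Sb_KUF := by
  intro p hp E M h hζ hG hd
  haveI := hG
  have hpos : 0 < Module.finrank E (IntermediateField.extendScalars h) := by
    rw [hd]; exact hp.out.pos
  haveI : FiniteDimensional E (IntermediateField.extendScalars h) :=
    FiniteDimensional.of_finrank_pos hpos
  have hK : (primitiveRoots (Module.finrank E (IntermediateField.extendScalars h)) E).Nonempty := by
    obtain ⟨ζ, hζE, hζ⟩ := hζ
    refine ⟨⟨ζ, hζE⟩, ?_⟩
    rw [mem_primitiveRoots hpos, hd]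
    exact IsPrimitiveRoot.of_map_of_injective (f := E.val) hζ E.val.injective
  have hc : Nat.card (IntermediateField.extendScalars h ≃ₐ[E] IntermediateField.extendScalars h)
      = p := by
    rw [IsGalois.card_aut_eq_finrank, hd]
  haveI : IsCyclic (IntermediateField.extendScalars h ≃ₐ[E] IntermediateField.extendScalars h) :=
    isCyclic_of_prime_card hc
  obtain ⟨α, ⟨b, hb⟩, htop⟩ := exists_root_adjoin_eq_top_of_isCyclic E
    (IntermediateField.extendScalars h) hK
  rw [hd] at hb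
  have hαM : (α : ℂ) ∈ M := α.2
  refine ⟨(α : ℂ), ?_, ?_, ?_⟩
  · have h1 : ((α ^ p : IntermediateField.extendScalars h) : ℂ) = (b : ℂ) := by
      rw [← hb]; rfl
    have h2 : (α : ℂ) ^ p = (b : ℂ) := by
      rw [← h1]; rfl
    rw [h2]
    exact b.2
  · intro hE
    have h1 : α ∈ (⊥ : IntermediateField E (IntermediateField.extendScalars h)) :=
      IntermediateField.mem_bot.2 ⟨⟨(α : ℂ), hE⟩, rfl⟩
    have h2 : (⊤ : IntermediateField E (IntermediateField.extendScalars h)) = ⊥ := by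
      rw [← htop, IntermediateField.adjoin_simple_eq_bot_iff]
      exact h1
    have h3 : Module.finrank E (⊤ : IntermediateField E (IntermediateField.extendScalars h)) = 1 := by
      rw [h2]; exact IntermediateField.finrank_bot
    rw [IntermediateField.finrank_top'] at h3
    rw [hd] at h3
    exact hp.out.one_lt.ne' h3
  · apply le_antisymm
    · intro x hx
      have hx' : (⟨x, hx⟩ : IntermediateField.extendScalars h) ∈
          (E⟮α⟯ : IntermediateField E (IntermediateField.extendScalars h)) := by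
        rw [htop]; exact IntermediateField.mem_top
      have key : ∀ z : IntermediateField.extendScalars h,
          z ∈ (E⟮α⟯ : IntermediateField E (IntermediateField.extendScalars h)) →
          (z : ℂ) ∈ adj E (α : ℂ) := by
        intro z hz
        induction hz using IntermediateField.adjoin_induction with
        | mem a ha =>
          rw [Set.mem_singleton_iff] at ha
          rw [ha]
          exact mem_adj E _
        | algebraMap a => exact le_adj E _ a.2
        | add a b _ _ ha hb => exact add_mem ha hb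
        | inv a _ ha => exact inv_mem ha
        | mul a b _ _ ha hb => exact mul_mem ha hb
      exact key _ hx'
    · exact adj_le h hαM

end Pool.Agent.VB


end
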