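import Mathlib
import Pool.Agent.MVF.C006
import Pool.Agent.MVF.C009
import Pool.Agent.MVF.C013
import Pool.Agent.MVF.C020

/-! Parts: MU3.G_G0, MU3.A_CYC, MU3.G_G2, MU3.G_G7, MU3.A_ROO, MU3.N_NIL, MU3.A_PID, MU3.A_FR3 -/

namespace MU3.Nil
end MU3.Nil
namespace Pool.Agent.MU3A.CYC
end Pool.Agent.MU3A.CYC
namespace Pool.Agent.MU3A.FR3
end Pool.Agent.MU3A.FR3
namespace Pool.Agent.MU3G.G0
end Pool.Agent.MU3G.G0
namespace Pool.Agent.MU3G.G7
end Pool.Agent.MU3G.G7

section

/-!
# MU3, block G: arithmetic of the ring `O` (G0)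
-/

set_option autoImplicit false

namespace Pool.Agent.MU3G

open _root_.MU3

namespace G0

variable {A B : ℤ}

theorem nm_eq (x : OO A B) : nm x = QuadraticAlgebra.norm x := by
  rw [QuadraticAlgebra.norm_def]
  unfold nm
  ring

theorem nm_mul (x y : OO A B) : nm (x * y) = nm x * nm y := by
  rw [nm_eq, nm_eq, nm_eq, map_mul]

theorem nm_star (x : OO A B) : nm (star x) = nm x := by
  rw [nm_eq, nm_eq, QuadraticAlgebra.norm_star]

theorem four_nm (x : OO A B) :
    4 * nm x = (2 * x.re + B * x.im) ^ 2 + absD A B * x.im ^ 2 := by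
  unfold nm absD
  ring

theorem absD_bd (h : Case A B) : 8 ≤ absD A B ∧ absD A B ≤ 11 := by
  rcases h with ⟨rfl, rfl⟩ | ⟨rfl, rfl⟩ <;> norm_num [absD]

theorem nm_nonneg (h : Case A B) (x : OO A B) : 0 ≤ nm x := by
  have h1 := four_nm x
  have h2 := (absD_bd h).1
  nlinarith [sq_nonneg (2 * x.re + B * x.im), sq_nonneg x.im,
    mul_nonneg (by linarith : (0 : ℤ) ≤ absD A B) (sq_nonneg x.im)]

theorem nm_zero (h : Case A B) {x : OO A B} (hx : nm x = 0) : x = 0 := by
  have h1 := four_nm x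
  have h2 := (absD_bd h).1
  rw [hx] at h1
  have h3 : x.im ^ 2 = 0 := by
    nlinarith [sq_nonneg (2 * x.re + B * x.im), sq_nonneg x.im]
  have h4 : x.im = 0 := by simpa using h3
  rw [h4] at h1
  have h5 : x.re ^ 2 = 0 := by nlinarith
  have h6 : x.re = 0 := by simpa using h5
  exact QuadraticAlgebra.ext h6 h4

theorem nm_pos (h : Case A B) {x : OO A B} (hx : x ≠ 0) : 0 < nm x :=
  lt_of_le_of_ne (nm_nonneg h x) (fun h1 => hx (nm_zero h h1.symm))

theorem dom (h : Case A B) : IsDomain (OO A B) := by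
  have : NoZeroDivisors (OO A B) := by
    constructor
    intro x y hxy
    have h1 : nm x * nm y = 0 := by
      rw [← nm_mul, hxy]
      simp [nm]
    rcases mul_eq_zero.1 h1 with h2 | h2
    · exact Or.inl (nm_zero h h2)
    · exact Or.inr (nm_zero h h2)
  exact NoZeroDivisors.to_isDomain _

/-- rounding -/
theorem round_aux (T N : ℤ) (hN : 0 < N) : ∃ m : ℤ, -N ≤ T - 2 * N * m ∧ T - 2 * N * m ≤ N := by
  refine ⟨(T + N) / (2 * N), ?_, ?_⟩
  · have h1 := Int.emod_nonneg (T + N) (by omega : 2 * N ≠ 0)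
    have h2 := Int.emod_add_mul_ediv (T + N) (2 * N)
    linarith
  · have h1 := Int.emod_lt_of_pos (T + N) (by omega : 0 < 2 * N)
    have h2 := Int.emod_add_mul_ediv (T + N) (2 * N)
    linarith

theorem euclid (h : Case A B) (x y : OO A B) (hy : y ≠ 0) : ∃ q, nm (x - q * y) < nm y := by
  have hN := nm_pos h hy
  set N := nm y with hNdef
  set z := x * star y with hz
  obtain ⟨n, hn1, hn2⟩ := round_aux (2 * z.im) N hN
  obtain ⟨m, hm1, hm2⟩ := round_aux (2 * z.re + B * (z.im - N * n)) N hN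
  refine ⟨⟨m, n⟩, ?_⟩
  have h1 : (x - ⟨m, n⟩ * y) * star y = ⟨z.re - N * m, z.im - N * n⟩ := by
    have h2 : y * star y = algebraMap ℤ (OO A B) N := by
      rw [hNdef, nm_eq, QuadraticAlgebra.algebraMap_norm_eq_mul_star]
    rw [sub_mul, mul_assoc, h2, ← hz]
    ext <;> simp <;> ring
  have h3 : nm (x - ⟨m, n⟩ * y) * N = nm (⟨z.re - N * m, z.im - N * n⟩ : OO A B) := by
    rw [← h1, nm_mul, nm_star]
  have h4 := four_nm (⟨z.re - N * m, z.im - N * n⟩ : OO A B)
  rw [← h3] at h4
  simp only at h4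
  have h5 := (absD_bd h).2
  have h5' := (absD_bd h).1
  have h6 : (2 * (z.re - N * m) + B * (z.im - N * n)) ^ 2 ≤ N ^ 2 := by
    have h7 : 2 * (z.re - N * m) + B * (z.im - N * n) =
      2 * z.re + B * (z.im - N * n) - 2 * N * m := by ring
    rw [h7]
    exact sq_le_sq' hm1 hm2
  have h8 : (2 * (z.im - N * n)) ^ 2 ≤ N ^ 2 := by
    have h7 : 2 * (z.im - N * n) = 2 * z.im - 2 * N * n := by ring
    rw [h7]
    exact sq_le_sq' hn1 hn2
  have h9 : absD A B * (z.im - N * n) ^ 2 ≤ 11 * (z.im - N * n) ^ 2 :=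
    mul_le_mul_of_nonneg_right h5 (sq_nonneg _)
  by_contra hcon
  have h10 : N ≤ nm (x - ⟨m, n⟩ * y) := not_lt.1 hcon
  have h11 : N * N ≤ nm (x - ⟨m, n⟩ * y) * N := mul_le_mul_of_nonneg_right h10 hN.le
  nlinarith

theorem pid (h : Case A B) : IsPrincipalIdealRing (OO A B) := by
  constructor
  intro I
  by_cases hI : I = ⊥
  · rw [hI]
    exact bot_isPrincipal
  · obtain ⟨x0, hx0, hx0'⟩ := Submodule.exists_mem_ne_zero_of_ne_bot hI
    have hex : ∃ n : ℕ, ∃ x ∈ I, x ≠ 0 ∧ nm x = (n : ℤ) :=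
      ⟨(nm x0).toNat, x0, hx0, hx0', (Int.toNat_of_nonneg (nm_nonneg h x0)).symm⟩
    classical
    obtain ⟨a, ha, ha0, han⟩ := Nat.find_spec hex
    have hmin := fun n => @Nat.find_min _ _ hex n
    refine ⟨a, ?_⟩
    apply le_antisymm
    · intro x hx
      obtain ⟨q, hq⟩ := euclid h x a ha0
      have h1 : x - q * a ∈ I := I.sub_mem hx (I.mul_mem_left q ha)
      by_cases h2 : x - q * a = 0
      · rw [sub_eq_zero.1 h2]
        exact Submodule.mem_span_singleton.2 ⟨q, rfl⟩
      · exfalso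
        have h3 := nm_nonneg h (x - q * a)
        have h4 : (nm (x - q * a)).toNat < Nat.find hex := by
          have h5 := Int.toNat_of_nonneg h3
          omega
        exact hmin _ h4 ⟨x - q * a, h1, h2, (Int.toNat_of_nonneg h3).symm⟩
    · rw [Submodule.span_singleton_le_iff_mem]
      exact ha

theorem unit_iff (x : OO A B) : IsUnit x ↔ IsUnit (nm x) := by
  rw [nm_eq]
  exact QuadraticAlgebra.isUnit_iff_norm_isUnit

theorem prime_of_three (h : Case A B) {z : OO A B} (hz : nm z = 3) : Prime z := by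
  have := dom h
  have := pid h
  rw [← irreducible_iff_prime]
  constructor
  · intro hu
    rw [unit_iff, hz] at hu
    exact Int.prime_three.not_isUnit hu
  · intro x y hxy
    have h1 : (3 : ℤ) = nm x * nm y := by
      rw [← nm_mul, ← hxy, hz]
    rcases Int.prime_three.irreducible.isUnit_or_isUnit h1 with h2 | h2
    · exact Or.inl ((unit_iff x).2 h2)
    · exact Or.inr ((unit_iff y).2 h2)

theorem one_re : (1 : OO A B).re = 1 := rfl

theorem one_im : (1 : OO A B).im = 0 := rfl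

theorem cop (h : Case A B) : IsCoprime (ppi A B) (star (ppi A B)) := by
  rcases h with ⟨rfl, rfl⟩ | ⟨rfl, rfl⟩
  · refine ⟨star (ppi (-2) 0) - 1, -1, ?_⟩
    ext <;> simp [ppi, one_re, one_im]
  · refine ⟨1, 1, ?_⟩
    ext <;> simp [ppi, one_re, one_im]

theorem units (h : Case A B) (x : OO A B) : IsUnit x ↔ x = 1 ∨ x = -1 := by
  constructor
  · intro hu
    rw [unit_iff, Int.isUnit_iff] at hu
    have h0 := nm_nonneg h x
    have h1 : nm x = 1 := by omega
    have h2 := four_nm x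
    have h3 := (absD_bd h).1
    rw [h1] at h2
    have h4 : x.im ^ 2 = 0 := by
      nlinarith [sq_nonneg (2 * x.re + B * x.im), sq_nonneg x.im]
    have h5 : x.im = 0 := by simpa using h4
    rw [h5] at h2
    have h6 : x.re ^ 2 = 1 := by nlinarith
    have h8 : (x.re - 1) * (x.re + 1) = 0 := by
      linear_combination h6
    rcases mul_eq_zero.1 h8 with h7 | h7
    · left
      exact QuadraticAlgebra.ext (by rw [one_re]; linarith) (by rw [one_im]; exact h5)
    · right
      exact QuadraticAlgebra.ext (by rw [QuadraticAlgebra.re_neg, one_re]; linarith)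
        (by rw [QuadraticAlgebra.im_neg, one_im]; linarith)
  · rintro (h1 | h1)
    · rw [h1]
      exact isUnit_one
    · rw [h1]
      exact isUnit_one.neg

theorem emb_star (x : OO A B) : emb (star x) = (starRingEnd ℂ) (emb x) := by
  unfold emb wC
  simp only [QuadraticAlgebra.re_star, QuadraticAlgebra.im_star, map_add, map_mul, map_div₀,
    Complex.conj_I, Complex.conj_ofReal, map_ofNat, map_intCast]
  push_cast
  ring

theorem emb_norm (h : Case A B) (x : OO A B) :
    (nm x : ℂ) = emb x * (starRingEnd ℂ) (emb x) := by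
  rw [← emb_star, ← embHom_apply h, ← embHom_apply h, ← map_mul,
    ← QuadraticAlgebra.algebraMap_norm_eq_mul_star, ← nm_eq, embHom_apply]
  simp [emb]

end G0

open _root_.Pool.Agent.MU3G.G0

theorem t_G0 : St_G0 := by
  intro A B h
  refine ⟨dom h, pid h, prime_of_three h (nm_ppi h),
    prime_of_three h (by rw [nm_star, nm_ppi h]), cop h, units h, ?_, emb_norm h, emb_star,
    nm_mul⟩
  intro x
  constructor
  · intro hx
    have h1 := emb_norm h x
    rw [hx, zero_mul] at h1
    exact nm_zero h (by exact_mod_cast h1)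
  · intro hx
    rw [hx]
    simp [emb]

end Pool.Agent.MU3G


end

section

/-!
# MU3, block A: (CYC)
-/

set_option autoImplicit false

namespace Pool.Agent.MU3A

open _root_.MU3 _root_.Pool.Agent.MU3B Polynomial NumberField _root_.Pool.Agent.MU3G

namespace CYC

variable {A B : ℤ}

theorem nm_cong (M : ℕ) {a b : OO A B} (h : (M : OO A B) ∣ a - b) :
    (M : ℤ) ∣ nm a - nm b := by
  obtain ⟨c, hc⟩ := h
  have h1 : a = b + (M : OO A B) * c := by linear_combination hc
  have hre : a.re = b.re + M * c.re := by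
    rw [h1]
    simp
  have him : a.im = b.im + M * c.im := by
    rw [h1]
    simp
  refine ⟨2 * b.re * c.re + M * c.re ^ 2 + B * (b.re * c.im + b.im * c.re + M * c.re * c.im) -
    A * (2 * b.im * c.im + M * c.im ^ 2), ?_⟩
  unfold nm
  rw [hre, him]
  ring

theorem pow_cong (hc : Case A B) {M : ℕ} {a b : OO A B} (h : (M : OO A B) ∣ a - b)
    {G : Type} [Monoid G] [IsLeftCancelMul G] {z : G} (hz : z ^ M = 1) :
    z ^ (nm a).toNat = z ^ (nm b).toNat := by
  apply pow_eq_pow_of_modEq (n := M) _ hz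
  have h1 := nm_cong M h
  have h2 := Int.toNat_of_nonneg (G0.nm_nonneg hc a)
  have h3 := Int.toNat_of_nonneg (G0.nm_nonneg hc b)
  rw [← Int.natCast_modEq_iff, h2, h3]
  exact (Int.modEq_iff_dvd.2 h1).symm

theorem cpow_cong (hc : Case A B) {M : ℕ} {a b : OO A B} (h : (M : OO A B) ∣ a - b)
    {z : ℂ} (hz : z ^ M = 1) : z ^ (nm a).toNat = z ^ (nm b).toNat := by
  rcases Nat.eq_zero_or_pos M with h0 | h0
  · have h1 : a = b := by
      rw [h0] at h
      simpa [sub_eq_zero] using h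
    rw [h1]
  · have hu : IsUnit z := by
      rw [isUnit_iff_ne_zero]
      rintro rfl
      rw [zero_pow h0.ne'] at hz
      exact zero_ne_one hz
    obtain ⟨u, rfl⟩ := hu
    have h2 : u ^ M = 1 := by
      ext
      push_cast
      exact hz
    have h3 := pow_cong hc h h2
    have h4 := congrArg (fun u : ℂˣ => (u : ℂ)) h3
    simpa using h4

theorem toNat_mul (hc : Case A B) (a b : OO A B) :
    (nm (a * b)).toNat = (nm a).toNat * (nm b).toNat := by
  rw [G0.nm_mul, Int.toNat_mul (G0.nm_nonneg hc a) (G0.nm_nonneg hc b)]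

theorem nm_one : nm (1 : OO A B) = 1 := by
  unfold nm
  rw [G0.one_re, G0.one_im]
  ring

theorem emb_quad (h : Case A B) (x : OO A B) :
    emb x * ((2 * x.re + B * x.im : ℤ) - emb x) = (nm x : ℂ) := by
  have h1 := wC_sq h
  unfold emb nm
  push_cast
  linear_combination (-(x.im : ℂ) ^ 2) * h1

/-- the Frobenius automorphism on the roots of unity -/
theorem frob_root (hc : Case A B) {F : IntermediateField (kk A B) ℂ} (w : Ideal (𝓞 F))
    (hw : w.IsPrime) {lam : OO A B} {q : ℕ} (hq : q.Prime) (hlam : nm lam = q)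
    (hab : Abv w lam) {σ : F ≃ₐ[kk A B] F} (hσ : IsFrQ w q σ) {M : ℕ} (hM : M ≠ 0)
    (hqM : ¬ q ∣ M) (z : F) (hz : z ^ M = 1) : σ z = z ^ q := by
  have hprim : IsPrimitiveRoot z (orderOf z) := IsPrimitiveRoot.orderOf z
  set N := orderOf z with hN
  have hNM : N ∣ M := orderOf_dvd_of_pow_eq_one hz
  have hN0 : N ≠ 0 := fun h => hM (by rw [h, zero_dvd_iff] at hNM; exact hNM)
  haveI : NeZero N := ⟨hN0⟩
  have hint : IsIntegral ℤ z := hprim.isIntegral (Nat.pos_of_ne_zero hN0)
  set Z : 𝓞 F := ⟨z, hint⟩ with hZ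
  have hZz : (Z : F) = z := rfl
  have hprimZ : IsPrimitiveRoot Z N := by
    apply IsPrimitiveRoot.of_map_of_injective (f := algebraMap (𝓞 F) F) _
      RingOfIntegers.coe_injective
    exact hprim
  obtain ⟨i, -, hi⟩ := hprim.eq_pow_of_pow_eq_one (ξ := σ z) (by
    rw [← map_pow, hprim.pow_eq_one, map_one])
  obtain ⟨y, hy, hyz⟩ := hσ Z
  have hy2 : y = Z ^ i - Z ^ q := by
    apply RingOfIntegers.coe_injective
    rw [map_sub, map_pow, map_pow]
    change (y : F) = z ^ i - z ^ q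
    rw [hyz, hi, hZz]
  by_contra hne
  rw [← hi] at hne
  -- the exponent of the quotient
  set j := (i + (N - q % N)) % N with hj
  have hqN : q % N < N := Nat.mod_lt _ (Nat.pos_of_ne_zero hN0)
  have hZj : Z ^ q * Z ^ j = Z ^ i := by
    rw [← pow_add]
    apply pow_eq_pow_of_modEq (n := N) _ hprimZ.pow_eq_one
    have h1 : q + j ≡ q % N + (i + (N - q % N)) [MOD N] :=
      Nat.ModEq.add (Nat.mod_modEq q N).symm (Nat.mod_modEq _ N)
    have h2 : q % N + (i + (N - q % N)) = i + N := by omega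
    rw [h2] at h1
    exact h1.trans (by simp [Nat.ModEq])
  have hj0 : j ≠ 0 := by
    intro h0
    rw [h0, pow_zero, mul_one] at hZj
    apply hne
    have := congrArg (fun x : 𝓞 F => (x : F)) hZj
    simp only [map_pow] at this
    exact this.symm
  have hjN : j < N := Nat.mod_lt _ (Nat.pos_of_ne_zero hN0)
  have hZu : IsUnit Z := hprimZ.isUnit hN0
  have h1 : 1 - Z ^ j ∈ w := by
    have h2 : Z ^ q * (Z ^ j - 1) ∈ w := by
      rw [mul_sub, mul_one, hZj, ← hy2]
      exact hy
    rcases hw.mem_or_mem h2 with h3 | h3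
    · exact absurd (w.eq_top_of_isUnit_mem h3 (hZu.pow q)) hw.ne_top
    · rw [← neg_sub]
      exact w.neg_mem h3
  have h2 : (N : 𝓞 F) ∈ w := by
    obtain ⟨n, hn⟩ := Nat.exists_eq_succ_of_ne_zero hN0
    obtain ⟨k, hk⟩ := Nat.exists_eq_succ_of_ne_zero hj0
    have h3 : IsPrimitiveRoot Z (n + 1) := by
      rw [hn] at hprimZ
      exact hprimZ
    have h4 := h3.prod_one_sub_pow_eq_order
    have h5 : (N : 𝓞 F) = (n : 𝓞 F) + 1 := by
      rw [hn]
      push_cast
      rfl
    rw [h5, ← h4]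
    refine w.mem_of_dvd (Finset.dvd_prod_of_mem (fun k => 1 - Z ^ (k + 1))
      (Finset.mem_range.2 (by omega : k < n))) ?_
    rw [hk] at h1
    exact h1
  have h3 : (q : 𝓞 F) ∈ w := by
    obtain ⟨l, hl, hle⟩ := hab
    have h4 : l * (((2 * lam.re + B * lam.im : ℤ) : 𝓞 F) - l) = (q : 𝓞 F) := by
      apply RingOfIntegers.coe_injective
      apply Subtype.ext
      have h5 := emb_quad hc lam
      rw [← hle, hlam] at h5
      rw [map_mul, map_sub, map_intCast, map_natCast]
      push_cast at h5 ⊢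
      exact h5
    rw [← h4]
    exact w.mul_mem_right _ hl
  have hcop : Nat.Coprime q N := by
    rw [hq.coprime_iff_not_dvd]
    exact fun h => hqM (h.trans hNM)
  have h4 : (1 : 𝓞 F) ∈ w := by
    have h5 := Nat.gcd_eq_gcd_ab q N
    rw [hcop.gcd_eq_one] at h5
    have h6 : (1 : 𝓞 F) = (q : 𝓞 F) * ((Nat.gcdA q N : ℤ) : 𝓞 F) +
        (N : 𝓞 F) * ((Nat.gcdB q N : ℤ) : 𝓞 F) := by
      have := congrArg (fun t : ℤ => (t : 𝓞 F)) h5
      simpa using this
    rw [h6]
    exact w.add_mem (w.mul_mem_right _ h3) (w.mul_mem_right _ h2)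
  exact hw.ne_top ((Ideal.eq_top_iff_one _).2 h4)

/-- the main step -/
theorem key (h1 : Sa_FROB) (h2 : Sa_DENSF) (h3 : Sa_ACT) {L : PeriodPair} {Om : ℂ}
    (hc : Case A B) (hL : IsCM A B L Om) {M : ℕ} (hM : M ≠ 0) {ζ : ℂ} (hζ : ζ ^ M = 1)
    (F : IntermediateField (kk A B) ℂ) [FiniteDimensional (kk A B) F] [IsGalois (kk A B) F]
    (hab : ∀ σ τ : F ≃ₐ[kk A B] F, σ * τ = τ * σ) (hF : TF L (M : OO A B) ≤ F) (hζF : ζ ∈ F)
    (σ : F ≃ₐ[kk A B] F) : ∃ a : OO A B, Act L (em σ) (M : OO A B) a ∧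
      (σ ⟨ζ, hζF⟩ : ℂ) = ζ ^ (nm a).toNat := by
  have hM0 : (M : OO A B) ≠ 0 := by
    intro h0
    have := congrArg emb h0
    rw [emb_natCast hc, emb_zero hc] at this
    exact hM (by exact_mod_cast this)
  obtain ⟨a1, a2, a3, a4, a5, a6, a7, a8⟩ := h3 A B L Om hc hL (M : OO A B) hM0
  obtain ⟨n, hn, hfr⟩ := h1 A B L Om hc hL
  let S : Submonoid (F ≃ₐ[kk A B] F) :=
    { carrier := {σ | ∃ a : OO A B, Act L (em σ) (M : OO A B) a ∧
        (σ ⟨ζ, hζF⟩ : ℂ) = ζ ^ (nm a).toNat}
      one_mem' := ⟨1, a7 F hF, by simp [nm_one]⟩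
      mul_mem' := by
        rintro s t ⟨a, ha, ha'⟩ ⟨b, hb, hb'⟩
        refine ⟨a * b, a4 F s t a b hF ha hb, ?_⟩
        have h5 : t ⟨ζ, hζF⟩ = (⟨ζ, hζF⟩ : F) ^ (nm b).toNat := by
          apply Subtype.ext
          rw [hb']
          simp
        rw [AlgEquiv.mul_apply, h5, map_pow]
        push_cast
        rw [ha', ← pow_mul, toNat_mul hc] }
  let H : Subgroup (F ≃ₐ[kk A B] F) :=
    { S with
      inv_mem' := by
        intro s hs
        have hcard : s ^ (Nat.card (F ≃ₐ[kk A B] F)) = 1 := pow_card_eq_one'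
        have hpos : 0 < Nat.card (F ≃ₐ[kk A B] F) := Nat.card_pos
        have h5 : s⁻¹ = s ^ (Nat.card (F ≃ₐ[kk A B] F) - 1) := by
          apply inv_eq_of_mul_eq_one_left
          rw [← pow_succ, Nat.sub_add_cancel hpos, hcard]
        rw [h5]
        exact S.pow_mem hs _ }
  have hH : H = ⊤ := by
    apply h2 A B hc F hab H (M * n) (mul_ne_zero hM hn)
    intro lam q hq hlam hqn w hw hwl s hs
    have hqM : ¬ q ∣ M := fun h => hqn (h.mul_right n)
    have hqn' : ¬ q ∣ n := fun h => hqn (h.mul_left M)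
    have hqM2 : ¬ (q : ℤ) ∣ nm (M : OO A B) := by
      rw [G0.nm_eq, QuadraticAlgebra.norm_natCast]
      intro h
      apply hqM
      have h5 : (q : ℤ) ∣ (M : ℤ) := (Nat.prime_iff_prime_int.1 hq).dvd_of_dvd_pow h
      exact_mod_cast h5
    have h5 := frob_root hc w hw hq hlam hwl hs hM hqM ⟨ζ, hζF⟩ (by
      apply Subtype.ext
      simpa using hζ)
    have h6 : (s ⟨ζ, hζF⟩ : ℂ) = ζ ^ q := by
      rw [h5]
      simp
    rcases hfr lam q hq hlam hqn' (M : OO A B) hM0 hqM2 F hF w hw hwl s hs with h7 | h7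
    · refine ⟨lam, h7, ?_⟩
      rw [h6, hlam]
      simp
    · refine ⟨-lam, h7, ?_⟩
      have h8 : nm (-lam) = nm lam := by
        unfold nm
        simp
      rw [h6, h8, hlam]
      simp
  have h4 : σ ∈ H := by
    rw [hH]
    trivial
  exact h4

/-- `k(ζ)` is a finite Galois extension -/
theorem adj_gal {M : ℕ} (hM : M ≠ 0) {ζ : ℂ} (hζ : ζ ^ M = 1) :
    FiniteDimensional (kk A B) (IntermediateField.adjoin (kk A B) {ζ}) ∧
      Normal (kk A B) (IntermediateField.adjoin (kk A B) {ζ}) := by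
  have hprim : IsPrimitiveRoot ζ (orderOf ζ) := IsPrimitiveRoot.orderOf ζ
  have hNM : orderOf ζ ∣ M := orderOf_dvd_of_pow_eq_one hζ
  have hN0 : orderOf ζ ≠ 0 := fun h => hM (by rw [h, zero_dvd_iff] at hNM; exact hNM)
  haveI : NeZero (orderOf ζ) := ⟨hN0⟩
  have hint : IsIntegral (kk A B) ζ := hprim.isIntegral (Nat.pos_of_ne_zero hN0) |>.tower_top
  have hcy : IsCyclotomicExtension {orderOf ζ} (kk A B)
      (IntermediateField.adjoin (kk A B) {ζ}) := by
    change IsCyclotomicExtension {orderOf ζ} (kk A B)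
      (IntermediateField.adjoin (kk A B) {ζ}).toSubalgebra
    rw [IntermediateField.adjoin_simple_toSubalgebra_of_isAlgebraic hint.isAlgebraic]
    exact hprim.adjoin_isCyclotomicExtension (kk A B)
  have := IsCyclotomicExtension.isGalois {orderOf ζ} (kk A B)
    (IntermediateField.adjoin (kk A B) {ζ})
  exact ⟨IntermediateField.adjoin.finiteDimensional hint, inferInstance⟩

/-- commutativity of the Galois group of `F_M (ζ)` -/
theorem _root_.Pool.Agent.MU3A.CYC.comm (h3 : Sa_ACT) (h5 : Sa_GAL) {L : PeriodPair} {Om : ℂ}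
    (hc : Case A B) (hL : IsCM A B L Om) {M : ℕ} (hM : M ≠ 0) {ζ : ℂ} (hζ : ζ ^ M = 1)
    (F : IntermediateField (kk A B) ℂ)
    (hFdef : F = TF L (M : OO A B) ⊔ IntermediateField.adjoin (kk A B) {ζ})
    (σ τ : F ≃ₐ[kk A B] F) : σ * τ = τ * σ := by
  have hM0 : (M : OO A B) ≠ 0 := by
    intro h0
    have := congrArg emb h0
    rw [emb_natCast hc, emb_zero hc] at this
    exact hM (by exact_mod_cast this)
  have hF : TF L (M : OO A B) ≤ F := by
    rw [hFdef]
    exact le_sup_left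
  have hζF : ζ ∈ F := by
    have h6 : IntermediateField.adjoin (kk A B) {ζ} ≤ F := by
      rw [hFdef]
      exact le_sup_right
    exact h6 (IntermediateField.mem_adjoin_simple_self _ ζ)
  have hprim : IsPrimitiveRoot (⟨ζ, hζF⟩ : F) (orderOf (⟨ζ, hζF⟩ : F)) :=
    IsPrimitiveRoot.orderOf _
  have hz : (⟨ζ, hζF⟩ : F) ^ M = 1 := by
    apply Subtype.ext
    simpa using hζ
  have hN0 : orderOf (⟨ζ, hζF⟩ : F) ≠ 0 := fun h => hM (by
    have := orderOf_dvd_of_pow_eq_one hz
    rw [h, zero_dvd_iff] at this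
    exact this)
  haveI : NeZero (orderOf (⟨ζ, hζF⟩ : F)) := ⟨hN0⟩
  have hroot : ∀ s : F ≃ₐ[kk A B] F, ∃ i : ℕ, s ⟨ζ, hζF⟩ = (⟨ζ, hζF⟩ : F) ^ i := by
    intro s
    obtain ⟨i, -, hi⟩ := hprim.eq_pow_of_pow_eq_one (ξ := s ⟨ζ, hζF⟩) (by
      rw [← map_pow, hprim.pow_eq_one, map_one])
    exact ⟨i, hi.symm⟩
  have hadj : F = IntermediateField.adjoin (kk A B)
      ({c | ∃ z : ℂ, emb (M : OO A B) * z ∈ L.lattice ∧ z ∉ L.lattice ∧
        (c = xx A B L z ∨ c = yy L z)} ∪ {ζ}) := by
    rw [hFdef, IntermediateField.adjoin_union]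
    rfl
  obtain ⟨a, ha, ha'⟩ := h5 A B L Om hc hL (M : OO A B) hM0 F hF (em σ)
  obtain ⟨b, hb, hb'⟩ := h5 A B L Om hc hL (M : OO A B) hM0 F hF (em τ)
  have hE : (em (σ * τ) : F →ₐ[kk A B] ℂ) = em (τ * σ) := by
    apply IntermediateField.algHom_ext_of_eq_adjoin (kk A B) hadj
    rintro c (⟨z, hz1, hz2, hz3⟩ | hz)
    · obtain ⟨ha1, ha2, ha3⟩ := ha' z hz1 hz2
      obtain ⟨hb1, hb2, hb3⟩ := hb' z hz1 hz2
      have hza : emb (M : OO A B) * (emb a * z) ∈ L.lattice := by
        have := hL.toIsLat.emb_mul_mem hc a hz1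
        rw [mul_left_comm]
        exact this
      have hzb : emb (M : OO A B) * (emb b * z) ∈ L.lattice := by
        have := hL.toIsLat.emb_mul_mem hc b hz1
        rw [mul_left_comm]
        exact this
      obtain ⟨hc1, hc2, hc3⟩ := ha' (emb b * z) hzb hb1
      obtain ⟨hd1, hd2, hd3⟩ := hb' (emb a * z) hza ha1
      rcases hz3 with rfl | rfl
      · have hmem : xx A B L z ∈ F := hF (IntermediateField.subset_adjoin _ _
          ⟨z, hz1, hz2, Or.inl rfl⟩)
        have hma : xx A B L (emb a * z) ∈ F := hF (IntermediateField.subset_adjoin _ _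
          ⟨_, hza, ha1, Or.inl rfl⟩)
        have hmb : xx A B L (emb b * z) ∈ F := hF (IntermediateField.subset_adjoin _ _
          ⟨_, hzb, hb1, Or.inl rfl⟩)
        have e1 : τ ⟨xx A B L z, hmem⟩ = ⟨xx A B L (emb b * z), hmb⟩ := Subtype.ext (hb2 hmem)
        have e2 : σ ⟨xx A B L z, hmem⟩ = ⟨xx A B L (emb a * z), hma⟩ := Subtype.ext (ha2 hmem)
        have e3 := hc2 hmb
        have e4 := hd2 hma
        change ((σ (τ ⟨xx A B L z, hmem⟩) : F) : ℂ) = ((τ (σ ⟨xx A B L z, hmem⟩) : F) : ℂ)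
        rw [e1, e2]
        refine (e3.trans ?_).trans e4.symm
        rw [mul_left_comm]
      · have hmem : yy L z ∈ F := hF (IntermediateField.subset_adjoin _ _
          ⟨z, hz1, hz2, Or.inr rfl⟩)
        have hma : yy L (emb a * z) ∈ F := hF (IntermediateField.subset_adjoin _ _
          ⟨_, hza, ha1, Or.inr rfl⟩)
        have hmb : yy L (emb b * z) ∈ F := hF (IntermediateField.subset_adjoin _ _
          ⟨_, hzb, hb1, Or.inr rfl⟩)
        have e1 : τ ⟨yy L z, hmem⟩ = ⟨yy L (emb b * z), hmb⟩ := Subtype.ext (hb3 hmem)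
        have e2 : σ ⟨yy L z, hmem⟩ = ⟨yy L (emb a * z), hma⟩ := Subtype.ext (ha3 hmem)
        have e3 := hc3 hmb
        have e4 := hd3 hma
        change ((σ (τ ⟨yy L z, hmem⟩) : F) : ℂ) = ((τ (σ ⟨yy L z, hmem⟩) : F) : ℂ)
        rw [e1, e2]
        refine (e3.trans ?_).trans e4.symm
        rw [mul_left_comm]
    · rw [Set.mem_singleton_iff] at hz
      subst hz
      obtain ⟨i, hi⟩ := hroot σ
      obtain ⟨j, hj⟩ := hroot τ
      change ((σ (τ ⟨c, hζF⟩) : F) : ℂ) = ((τ (σ ⟨c, hζF⟩) : F) : ℂ)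
      rw [hi, hj, map_pow, map_pow, hi, hj, ← pow_mul, ← pow_mul, mul_comm]
  apply AlgEquiv.ext
  intro x
  have h6 : ((σ * τ) x : ℂ) = ((τ * σ) x : ℂ) := congrArg (fun f => f x) hE
  exact Subtype.ext h6

end CYC

open _root_.Pool.Agent.MU3A.CYC in
theorem ta_CYC (h1 : Sa_FROB) (h2 : Sa_DENSF) (h3 : Sa_ACT) (h4 : Sa_NRM) (h5 : Sa_GAL) :
    Sa_CYC := by
  intro A B L Om hc hL M hM ζ hζ
  have hM0 : (M : OO A B) ≠ 0 := by
    intro h0
    have := congrArg emb h0
    rw [emb_natCast hc, emb_zero hc] at this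
    exact hM (by exact_mod_cast this)
  obtain ⟨a1, a2, a3, a4, a5, a6, a7, a8⟩ := h3 A B L Om hc hL (M : OO A B) hM0
  obtain ⟨hfin, hgal⟩ := h4 A B L Om hc hL (M : OO A B) hM0
  obtain ⟨hfin', hnor'⟩ := adj_gal (A := A) (B := B) hM hζ
  have hmem : ζ ∈ TF L (M : OO A B) := by
    set F := (TF L (M : OO A B) ⊔ IntermediateField.adjoin (kk A B) {ζ} :
      IntermediateField (kk A B) ℂ) with hFdef
    have hF : TF L (M : OO A B) ≤ F := le_sup_left
    have hζF : ζ ∈ F := (le_sup_right : _ ≤ F) (IntermediateField.mem_adjoin_simple_self _ ζ)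
    haveI : FiniteDimensional (kk A B) F := IntermediateField.finiteDimensional_sup _ _
    haveI : Normal (kk A B) F := IntermediateField.normal_sup (kk A B) ℂ _ _
    haveI : IsGalois (kk A B) F := ⟨⟩
    have hkey := key h1 h2 h3 hc hL hM hζ F (_root_.Pool.Agent.MU3A.CYC.comm h3 h5 hc hL hM hζ F hFdef) hF hζF
    have h6 : (⟨ζ, hζF⟩ : F) ∈ IntermediateField.restrict hF := by
      rw [← IsGalois.fixedField_fixingSubgroup (IntermediateField.restrict hF),
        IntermediateField.mem_fixedField_iff]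
      intro s hs
      rw [IntermediateField.mem_fixingSubgroup_iff] at hs
      obtain ⟨a, ha, ha'⟩ := hkey s
      have hact : Act L (em s) (M : OO A B) 1 := by
        refine ⟨isCoprime_one_left, fun z hz1 hz2 => ?_⟩
        rw [emb_one hc, one_mul]
        refine ⟨hz2, fun hx => ?_, fun hy => ?_⟩
        · have := hs ⟨xx A B L z, hx⟩ ((IntermediateField.mem_restrict hF _).2
            (IntermediateField.subset_adjoin _ _ ⟨z, hz1, hz2, Or.inl rfl⟩))
          exact congrArg (fun t : F => (t : ℂ)) this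
        · have := hs ⟨yy L z, hy⟩ ((IntermediateField.mem_restrict hF _).2
            (IntermediateField.subset_adjoin _ _ ⟨z, hz1, hz2, Or.inr rfl⟩))
          exact congrArg (fun t : F => (t : ℂ)) this
      have h7 := a1 F (em s) a 1 hF ha hact
      apply Subtype.ext
      rw [ha', cpow_cong hc h7 hζ, nm_one]
      simp
    exact (IntermediateField.mem_restrict hF _).1 h6
  refine ⟨hmem, ?_⟩
  intro F hF hζF σ a ha
  have hrange : ((σ.comp (IntermediateField.inclusion hF)) : TF L (M : OO A B) →ₐ[kk A B] ℂ).fieldRange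
      = TF L (M : OO A B) := AlgHom.fieldRange_of_normal _
  set f : TF L (M : OO A B) →ₐ[kk A B] ℂ := σ.comp (IntermediateField.inclusion hF) with hf
  have hf2 : ∀ x, f x ∈ (TF L (M : OO A B)).toSubalgebra := by
    intro x
    exact hrange.le ⟨x, rfl⟩
  let g : TF L (M : OO A B) →ₐ[kk A B] TF L (M : OO A B) := f.codRestrict _ hf2
  have hg : Function.Bijective g := Algebra.IsAlgebraic.algHom_bijective g
  let s : TF L (M : OO A B) ≃ₐ[kk A B] TF L (M : OO A B) := AlgEquiv.ofBijective g hg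
  have hs : em s = f := by
    apply AlgHom.ext
    intro x
    rfl
  have ha2 : Act L (em s) (M : OO A B) a := by
    rw [hs]
    exact a8 (TF L (M : OO A B)) F hF σ a ha
  obtain ⟨b, hb, hb'⟩ := key h1 h2 h3 hc hL hM hζ (TF L (M : OO A B)) a6 le_rfl hmem s
  have h7 := a1 (TF L (M : OO A B)) (em s) a b le_rfl ha2 hb
  have h8 : (σ ⟨ζ, hζF⟩ : ℂ) = (s ⟨ζ, hmem⟩ : ℂ) := rfl
  rw [h8, hb', cpow_cong hc h7 hζ]

end Pool.Agent.MU3A


end

section

/-!
# MU3, G2 (helper69): first properties of the coefficients `a_n`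
-/

set_option autoImplicit false

namespace Pool.Agent.MU3G

open _root_.MU3

namespace G2

variable {A B : ℤ}

theorem nm_mul (x y : OO A B) : nm (x * y) = nm x * nm y := by
  simp only [nm, QuadraticAlgebra.re_mul, QuadraticAlgebra.im_mul]
  ring

theorem mul_star' (x : OO A B) : x * star x = ((nm x : ℤ) : OO A B) := by
  ext
  · simp only [nm, QuadraticAlgebra.re_mul, QuadraticAlgebra.re_star, QuadraticAlgebra.im_star,
      QuadraticAlgebra.re_intCast, Int.cast_id]
    ring
  · simp only [QuadraticAlgebra.im_mul, QuadraticAlgebra.re_star, QuadraticAlgebra.im_star,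
      QuadraticAlgebra.im_intCast]
    ring

theorem nm_neg (x : OO A B) : nm (-x) = nm x := by
  simp only [nm, QuadraticAlgebra.re_neg, QuadraticAlgebra.im_neg]
  ring

theorem nm_pos (h : Case A B) (x : OO A B) (hx : nm x = 0) : x.re = 0 ∧ x.im = 0 := by
  rcases h with ⟨rfl, rfl⟩ | ⟨rfl, rfl⟩
  · have h1 : x.re ^ 2 + 2 * x.im ^ 2 = 0 := by
      simp only [nm] at hx
      linarith
    have h2 : x.re ^ 2 = 0 := by nlinarith [sq_nonneg x.re, sq_nonneg x.im]
    have h3 : x.im ^ 2 = 0 := by nlinarith [sq_nonneg x.re, sq_nonneg x.im]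
    exact ⟨pow_eq_zero_iff (two_ne_zero) |>.1 h2, pow_eq_zero_iff (two_ne_zero) |>.1 h3⟩
  · have h1 : x.re ^ 2 + x.re * x.im + 3 * x.im ^ 2 = 0 := by
      simp only [nm] at hx
      linarith
    have h2 : x.re ^ 2 = 0 := by nlinarith [sq_nonneg x.re, sq_nonneg (x.re + 6 * x.im)]
    have h3 : x.im ^ 2 = 0 := by nlinarith [sq_nonneg (2 * x.re + x.im), sq_nonneg x.im]
    exact ⟨pow_eq_zero_iff (two_ne_zero) |>.1 h2, pow_eq_zero_iff (two_ne_zero) |>.1 h3⟩

theorem bd (h : Case A B) (x : OO A B) :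
    x.re ^ 2 ≤ 2 * nm x ∧ x.im ^ 2 ≤ 2 * nm x := by
  rcases h with ⟨rfl, rfl⟩ | ⟨rfl, rfl⟩
  · have h1 : nm x = x.re ^ 2 + 2 * x.im ^ 2 := by
      simp only [nm]
      ring
    constructor <;> nlinarith [sq_nonneg x.re, sq_nonneg x.im]
  · have h1 : nm x = x.re ^ 2 + x.re * x.im + 3 * x.im ^ 2 := by
      simp only [nm]
      ring
    constructor
    · nlinarith [sq_nonneg x.re, sq_nonneg (x.re + 6 * x.im)]
    · nlinarith [sq_nonneg (2 * x.re + x.im), sq_nonneg x.im]

theorem fin (h : Case A B) (n : ℤ) : {x : OO A B | nm x = n}.Finite := by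
  classical
  refine Set.Finite.subset (((Finset.Icc (-(2 * n)) (2 * n)) ×ˢ
    (Finset.Icc (-(2 * n)) (2 * n))).image
      (fun p : ℤ × ℤ => (⟨p.1, p.2⟩ : OO A B))).finite_toSet ?_
  intro x hx
  have hx' : nm x = n := hx
  obtain ⟨h1, h2⟩ := bd h x
  rw [hx'] at h1 h2
  rw [Finset.mem_coe]
  refine Finset.mem_image.2 ⟨(x.re, x.im), ?_, ?_⟩
  · refine Finset.mem_product.2 ⟨Finset.mem_Icc.2 ?_, Finset.mem_Icc.2 ?_⟩
    · have h3 := Int.le_self_sq x.re
      have h4 := Int.le_self_sq (-x.re)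
      simp only
      constructor <;> nlinarith
    · have h3 := Int.le_self_sq x.im
      have h4 := Int.le_self_sq (-x.im)
      simp only
      constructor <;> nlinarith
  · ext <;> rfl

/-- the finite set of elements of norm `n` -/
noncomputable def FF (h : Case A B) (n : ℤ) : Finset (OO A B) := (fin h n).toFinset

theorem mem_FF {h : Case A B} {n : ℤ} {x : OO A B} : x ∈ FF h n ↔ nm x = n := by
  simp [FF]

variable {H : Type} [Field H] [CharZero H]

omit [CharZero H] in
theorem aH_eq (h : Case A B) (j : OO A B →+* H) (eH : OO A B → H) (n : ℕ) :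
    aH j eH n = (2 : H)⁻¹ * ∑ x ∈ FF h (n : ℤ), eH x * j (star x) := by
  unfold aH
  congr 1
  have h1 := finsum_set_coe_eq_finsum_mem (f := fun x : OO A B => eH x * j (star x))
    {x : OO A B | nm x = (n : ℤ)}
  refine Eq.trans h1 ?_
  rw [finsum_mem_eq_finite_toFinset_sum _ (fin h (n : ℤ))]
  rfl

open Classical in
/-- the positive half -/
noncomputable def TT (h : Case A B) (n : ℤ) : Finset (OO A B) :=
  (FF h n).filter (fun x => 0 < x.im ∨ (x.im = 0 ∧ 0 < x.re))

theorem mem_TT {h : Case A B} {n : ℤ} {x : OO A B} :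
    x ∈ TT h n ↔ nm x = n ∧ (0 < x.im ∨ (x.im = 0 ∧ 0 < x.re)) := by
  classical
  rw [TT, Finset.mem_filter, mem_FF]

theorem half (h : Case A B) (n : ℤ) (f : OO A B → H) (h0 : f 0 = 0)
    (hf : ∀ x, f (-x) = f x) :
    (2 : H)⁻¹ * ∑ x ∈ FF h n, f x = ∑ x ∈ TT h n, f x := by
  classical
  have h1 : ∑ x ∈ FF h n, f x = ∑ x ∈ TT h n, f x + ∑ x ∈ (TT h n).image (fun x => -x), f x := by
    rw [← Finset.sum_union]
    · symm
      refine Finset.sum_subset ?_ ?_
      · intro x hx
        rcases Finset.mem_union.1 hx with e | e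
        · exact mem_FF.2 (mem_TT.1 e).1
        · obtain ⟨y, hy, rfl⟩ := Finset.mem_image.1 e
          exact mem_FF.2 (by rw [nm_neg]; exact (mem_TT.1 hy).1)
      · intro x hx hx'
        rw [Finset.mem_union, not_or] at hx'
        obtain ⟨e1, e2⟩ := hx'
        have hn := mem_FF.1 hx
        have e3 : ¬ (0 < x.im ∨ (x.im = 0 ∧ 0 < x.re)) := fun e => e1 (mem_TT.2 ⟨hn, e⟩)
        have e4 : ¬ (0 < (-x).im ∨ ((-x).im = 0 ∧ 0 < (-x).re)) := by
          intro e
          refine e2 (Finset.mem_image.2 ⟨-x, mem_TT.2 ⟨by rw [nm_neg]; exact hn, e⟩, ?_⟩)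
          exact neg_neg x
        simp only [QuadraticAlgebra.im_neg, QuadraticAlgebra.re_neg] at e4
        have e5 : x = 0 := by
          ext
          · simp only [QuadraticAlgebra.re_zero]
            omega
          · simp only [QuadraticAlgebra.im_zero]
            omega
        rw [e5, h0]
    · rw [Finset.disjoint_left]
      intro x hx hx'
      obtain ⟨y, hy, rfl⟩ := Finset.mem_image.1 hx'
      have e1 := (mem_TT.1 hx).2
      have e2 := (mem_TT.1 hy).2
      simp only [QuadraticAlgebra.im_neg, QuadraticAlgebra.re_neg] at e1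
      omega
  have h2 : ∑ x ∈ (TT h n).image (fun x => -x), f x = ∑ x ∈ TT h n, f x := by
    rw [Finset.sum_image (fun x _ y _ e => neg_injective e)]
    exact Finset.sum_congr rfl (fun x _ => hf x)
  rw [h1, h2, ← two_mul, ← mul_assoc, inv_mul_cancel₀ (two_ne_zero), one_mul]

theorem TT_one (h : Case A B) : TT h 1 = {1} := by
  ext x
  rw [mem_TT, Finset.mem_singleton]
  constructor
  · rintro ⟨h1, h2⟩
    obtain ⟨h3, h4⟩ := bd h x
    rw [h1] at h3 h4
    have h5 : -1 ≤ x.im := by nlinarith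
    have h6 : x.im ≤ 1 := by nlinarith
    have h7 : -1 ≤ x.re := by nlinarith
    have h8 : x.re ≤ 1 := by nlinarith
    rcases h with ⟨rfl, rfl⟩ | ⟨rfl, rfl⟩
    · simp only [nm] at h1
      have h9 : x.re = 1 ∧ x.im = 0 := by
        obtain ⟨a, b⟩ := x
        simp only at *
        interval_cases a <;> interval_cases b <;> simp_all
      ext
      · rw [h9.1, QuadraticAlgebra.re_one]
      · rw [h9.2, QuadraticAlgebra.im_one]
    · simp only [nm] at h1
      have h9 : x.re = 1 ∧ x.im = 0 := by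
        obtain ⟨a, b⟩ := x
        simp only at *
        interval_cases a <;> interval_cases b <;> simp_all
      ext
      · rw [h9.1, QuadraticAlgebra.re_one]
      · rw [h9.2, QuadraticAlgebra.im_one]
  · rintro rfl
    refine ⟨?_, Or.inr ⟨?_, ?_⟩⟩
    · simp only [nm, QuadraticAlgebra.re_one, QuadraticAlgebra.im_one]
      ring
    · exact QuadraticAlgebra.im_one
    · rw [QuadraticAlgebra.re_one]
      norm_num

theorem ppi_inj (h : Case A B) {x y : OO A B} (e : ppi A B * x = ppi A B * y) : x = y := by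
  have h1 : star (ppi A B) * ppi A B = ((3 : ℤ) : OO A B) := by
    rw [mul_comm, mul_star', nm_ppi h]
  have h2 : ((3 : ℤ) : OO A B) * x = ((3 : ℤ) : OO A B) * y := by
    rw [← h1, mul_assoc, mul_assoc, e]
  have h3 := congrArg QuadraticAlgebra.re h2
  have h4 := congrArg QuadraticAlgebra.im h2
  simp only [QuadraticAlgebra.re_mul, QuadraticAlgebra.im_mul, QuadraticAlgebra.re_intCast,
    QuadraticAlgebra.im_intCast, Int.cast_id] at h3 h4
  ext
  · linarith
  · linarith

theorem dvd_of (h : Case A B) {g : OO A B} (hg : star (ppi A B) ∣ g) {x : OO A B}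
    (hx : IsCoprime x g) {n : ℤ} (hn : nm x = 3 * n) :
    ∃ y : OO A B, nm y = n ∧ ppi A B * y = x := by
  have h1 : IsCoprime x (star (ppi A B)) := hx.of_isCoprime_of_dvd_right hg
  have h2 : star (ppi A B) ∣ x * star x := by
    rw [mul_star', hn]
    refine ⟨ppi A B * (n : OO A B), ?_⟩
    rw [← mul_assoc, mul_comm (star (ppi A B)), mul_star', nm_ppi h]
    push_cast
    ring
  have h3 : star (ppi A B) ∣ star x := h1.symm.dvd_of_dvd_mul_left h2
  obtain ⟨y, hy⟩ := h3
  have h4 : x = ppi A B * star y := by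
    have := congrArg star hy
    rw [star_star, star_mul, star_star, mul_comm] at this
    exact this
  refine ⟨star y, ?_, h4.symm⟩
  have h5 := congrArg nm h4
  rw [nm_mul, nm_ppi h, hn] at h5
  linarith

omit [CharZero H] in
theorem integral' (j : OO A B →+* H) (x : OO A B) : IsIntegral ℤ (j x) := by
  have h1 : IsIntegral ℤ x := by
    refine ⟨Polynomial.X ^ 2 + (Polynomial.C (-(2 * x.re + B * x.im)) * Polynomial.X +
      Polynomial.C (nm x)), ?_, ?_⟩
    · refine Polynomial.monic_X_pow_add ?_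
      refine lt_of_le_of_lt Polynomial.degree_linear_le ?_
      norm_num
    · have h2 := mul_star' x
      have h3 : star x = (((2 * x.re + B * x.im : ℤ)) : OO A B) - x := by
        ext
        · simp only [QuadraticAlgebra.re_star, QuadraticAlgebra.re_sub,
            QuadraticAlgebra.re_intCast, Int.cast_id]
          ring
        · simp only [QuadraticAlgebra.im_star, QuadraticAlgebra.im_sub,
            QuadraticAlgebra.im_intCast]
          ring
      rw [h3] at h2
      simp only [Polynomial.eval₂_add, Polynomial.eval₂_mul, Polynomial.eval₂_C,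
        Polynomial.eval₂_X, Polynomial.eval₂_pow]
      simp only [eq_intCast]
      push_cast at h2 ⊢
      linear_combination (-1 : OO A B) * h2
  exact map_isIntegral_int j h1

end G2

theorem t_G2 : St_G2 := by
  intro A B hc H _ _ j g hg eH e1 em es ei en
  have hf : ∀ x : OO A B, eH (-x) * j (star (-x)) = eH x * j (star x) := by
    intro x
    have h1 : eH (-x) = -eH x := by
      rw [show -x = (-1) * x by ring, em, en]
      ring
    rw [h1, star_neg, map_neg]
    ring
  have h0 : eH 0 * j (star 0) = 0 := by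
    rw [star_zero, map_zero, mul_zero]
  have hh : ∀ n : ℕ, aH j eH n = ∑ x ∈ G2.TT hc (n : ℤ), eH x * j (star x) := by
    intro n
    rw [G2.aH_eq hc j eH n]
    exact G2.half hc n (fun x => eH x * j (star x)) h0 hf
  refine ⟨?_, ?_, ?_, ?_⟩
  · rw [G2.aH_eq hc j eH 0]
    rw [Finset.sum_eq_zero, mul_zero]
    intro x hx
    have h1 := G2.mem_FF.1 hx
    obtain ⟨h2, h3⟩ := G2.nm_pos hc x (by simpa using h1)
    have h4 : x = 0 := by
      ext
      · simpa using h2
      · simpa using h3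
    rw [h4, h0]
  · rw [hh 1]
    have h1 : G2.TT hc ((1 : ℕ) : ℤ) = {1} := by
      simpa using G2.TT_one hc
    rw [h1, Finset.sum_singleton, e1, star_one, map_one, one_mul]
  · intro n
    rw [hh n]
    refine IsIntegral.sum _ ?_
    intro x _
    exact (ei x).mul (G2.integral' j (star x))
  · intro n
    classical
    rw [G2.aH_eq hc j eH n, G2.aH_eq hc j eH (3 * n)]
    have h1 : ∑ x ∈ G2.FF hc ((3 * n : ℕ) : ℤ), eH x * j (star x) =
        ∑ x ∈ (G2.FF hc (n : ℤ)).image (fun y => ppi A B * y), eH x * j (star x) := by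
      symm
      refine Finset.sum_subset ?_ ?_
      · intro x hx
        obtain ⟨y, hy, rfl⟩ := Finset.mem_image.1 hx
        refine G2.mem_FF.2 ?_
        rw [G2.nm_mul, nm_ppi hc, G2.mem_FF.1 hy]
        push_cast
        ring
      · intro x hx hx'
        by_cases hex : eH x = 0
        · rw [hex, zero_mul]
        · exfalso
          obtain ⟨y, hy, hy'⟩ := G2.dvd_of hc hg (es x hex) (n := (n : ℤ))
            (by rw [G2.mem_FF.1 hx]; push_cast; ring)
          exact hx' (Finset.mem_image.2 ⟨y, G2.mem_FF.2 hy, hy'⟩)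
    rw [h1, Finset.sum_image (fun x _ y _ e => G2.ppi_inj hc e)]
    have h2 : ∀ y : OO A B, eH (ppi A B * y) * j (star (ppi A B * y)) =
        (eH (ppi A B) * j (star (ppi A B))) * (eH y * j (star y)) := by
      intro y
      rw [em, star_mul, map_mul]
      ring
    simp only [h2]
    rw [← Finset.mul_sum]
    ring

end Pool.Agent.MU3G


end

section

/-!
# MU3, block G: the `q`-expansions of `thetaInt` and of `Z` (G7)
-/

set_option autoImplicit false

namespace Pool.Agent.MU3G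

open _root_.MU3 _root_.Pool.Agent.MuSym OnePoint NumberField

noncomputable section

namespace G7

variable {A B : ℤ}

theorem dvd_of_coord {N : ℤ} {z : OO A B} (h1 : N ∣ z.re) (h2 : N ∣ z.im) :
    ((N : ℤ) : OO A B) ∣ z := by
  obtain ⟨a, ha⟩ := h1
  obtain ⟨b, hb⟩ := h2
  refine ⟨⟨a, b⟩, ?_⟩
  ext
  · rw [ha]; simp
  · rw [hb]; simp

/-- some power of an element prime to `g` is `1` modulo `g` -/
theorem pow_one (g x : OO A B) (hn : nm g ≠ 0) (hx : IsCoprime x g) :
    ∃ r : ℕ, r ≠ 0 ∧ g ∣ x ^ r - 1 := by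
  have hN : NeZero (nm g).natAbs := ⟨Int.natAbs_ne_zero.2 hn⟩
  let F : ℕ → ZMod (nm g).natAbs × ZMod (nm g).natAbs := fun k =>
    (((x ^ k).re : ZMod (nm g).natAbs), ((x ^ k).im : ZMod (nm g).natAbs))
  obtain ⟨k, l, hkl, h⟩ := Finite.exists_ne_map_eq_of_infinite F
  have hgen : ∀ k l : ℕ, k < l → F k = F l → ∃ r : ℕ, r ≠ 0 ∧ g ∣ x ^ r - 1 := by
    intro k l hkl h
    have h1 : ((x ^ k).re : ZMod (nm g).natAbs) = ((x ^ l).re : ZMod (nm g).natAbs) :=
      congrArg Prod.fst h
    have h2 : ((x ^ k).im : ZMod (nm g).natAbs) = ((x ^ l).im : ZMod (nm g).natAbs) :=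
      congrArg Prod.snd h
    rw [ZMod.intCast_eq_intCast_iff_dvd_sub, Int.natAbs_dvd] at h1 h2
    have h3 : ((nm g : ℤ) : OO A B) ∣ x ^ l - x ^ k := by
      apply dvd_of_coord
      · rw [QuadraticAlgebra.re_sub]; exact h1
      · rw [QuadraticAlgebra.im_sub]; exact h2
    have h4 : g ∣ x ^ l - x ^ k := by
      refine dvd_trans ?_ h3
      rw [← G2.mul_star']
      exact dvd_mul_right _ _
    have h5 : x ^ l - x ^ k = x ^ k * (x ^ (l - k) - 1) := by
      rw [mul_sub, ← pow_add, mul_one, Nat.add_sub_cancel' hkl.le]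
    rw [h5] at h4
    exact ⟨l - k, (Nat.sub_pos_of_lt hkl).ne', (hx.pow_left (m := k)).symm.dvd_of_dvd_mul_left h4⟩
  rcases Nat.lt_or_gt_of_ne hkl with h1 | h1
  · exact hgen k l h1 h
  · exact hgen l k h1 h.symm

theorem nle {g : OO A B} (hg : nm g ≠ 0) {H : Type} [Field H] (io : H →+* ℂ) (eH : OO A B → H)
    (he : IsEps g (fun x => io (eH x))) (s : H ≃+* H) (x : OO A B) : ‖io (s (eH x))‖ ≤ 1 := by
  by_cases hx : IsCoprime x g
  · obtain ⟨r, hr, hd⟩ := pow_one g x hg hx
    have h1 : ∀ k : ℕ, io (eH (x ^ k)) = io (eH x) ^ k := by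
      intro k
      induction k with
      | zero => simpa using he.one
      | succ k ih =>
        rw [pow_succ, pow_succ, ← ih]
        exact he.mul _ _
    have h2 : io (eH (x ^ r)) = 1 := by
      exact (he.per (x ^ r) 1 hd).trans he.one
    have h3 : eH x ^ r = 1 := by
      apply io.injective
      rw [map_pow, ← h1, h2, map_one]
    have h4 : io (s (eH x)) ^ r = 1 := by
      rw [← map_pow, ← map_pow, h3, map_one, map_one]
    exact (Complex.norm_eq_one_of_pow_eq_one h4 hr).le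
  · have h1 : io (eH x) = 0 := by
      by_contra h
      exact hx ((he.supp x).1 h)
    have h2 : eH x = 0 := by
      apply io.injective
      rw [h1, map_zero]
    rw [h2, map_zero, map_zero, norm_zero]
    exact zero_le_one

theorem norm_sq (h : Case A B) (x : OO A B) : (nm x : ℝ) = ‖emb x‖ ^ 2 := by
  have h1 := G0.emb_norm h x
  rw [Complex.mul_conj, Complex.normSq_eq_norm_sq] at h1
  exact_mod_cast h1

theorem quot_le (h : Case A B) (x : OO A B) :
    ‖(starRingEnd ℂ) (emb x) / (nm x : ℂ)‖ ≤ 1 := by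
  rw [norm_div, RCLike.norm_conj]
  have h1 := norm_sq h x
  have h2 : ‖(nm x : ℂ)‖ = ‖emb x‖ ^ 2 := by
    have h3 : ((nm x : ℤ) : ℂ) = ((nm x : ℝ) : ℂ) := by push_cast; rfl
    rw [h3, h1, Complex.norm_real, Real.norm_eq_abs, abs_of_nonneg (by positivity)]
  rw [h2]
  by_cases hx : x = 0
  · have h4 : ‖emb x‖ ^ 2 = 0 := by
      rw [← h1, hx]
      have : nm (0 : OO A B) = 0 := by simp [nm]
      rw [this]; norm_num
    rw [h4]; simp
  · have h3 : (1 : ℝ) ≤ ‖emb x‖ ^ 2 := by
      rw [← h1]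
      exact_mod_cast G0.nm_pos h hx
    rw [div_le_one (by linarith)]
    nlinarith [norm_nonneg (emb x)]

theorem summ (h : Case A B) (e : OO A B → ℂ) (he : ∀ x, ‖e x‖ ≤ 1) {τ : ℂ} (hτ : 0 < τ.im) :
    Summable fun x : OO A B => e x * (starRingEnd ℂ) (emb x) / (nm x : ℂ) *
      Complex.exp (2 * Real.pi * Complex.I * (nm x : ℂ) * τ) := by
  have hc : 0 < Real.pi * τ.im / 2 := by positivity
  have h1 := MU3B.PoiAux.gsum2 hc hc 0 0
  have h2 : Summable fun x : OO A B => Real.exp (-(Real.pi * τ.im / 2 * (x.re : ℝ) ^ 2)) *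
      Real.exp (-(Real.pi * τ.im / 2 * (x.im : ℝ) ^ 2)) := by
    have h3 := (QuadraticAlgebra.equivProd A B).summable_iff.2 h1
    refine h3.congr fun x => ?_
    simp [QuadraticAlgebra.equivProd]
  refine Summable.of_norm_bounded h2 fun x => ?_
  rw [mul_div_assoc, norm_mul, norm_mul]
  have h4 : ‖Complex.exp (2 * Real.pi * Complex.I * (nm x : ℂ) * τ)‖ =
      Real.exp (-(2 * Real.pi * (nm x : ℝ) * τ.im)) := by
    rw [Complex.norm_exp]
    congr 1
    have h5 : (2 * Real.pi * Complex.I * (nm x : ℂ) * τ) =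
        ((2 * Real.pi * (nm x : ℝ) : ℝ) : ℂ) * (Complex.I * τ) := by
      push_cast; ring
    rw [h5, Complex.re_ofReal_mul]
    simp
  rw [h4, ← Real.exp_add]
  have h5 : Real.exp (-(2 * Real.pi * (nm x : ℝ) * τ.im)) ≤
      Real.exp (-(Real.pi * τ.im / 2 * (x.re : ℝ) ^ 2) + -(Real.pi * τ.im / 2 * (x.im : ℝ) ^ 2)) := by
    apply Real.exp_le_exp.2
    obtain ⟨b1, b2⟩ := G2.bd h x
    have b1' : (x.re : ℝ) ^ 2 ≤ 2 * (nm x : ℝ) := by exact_mod_cast b1
    have b2' : (x.im : ℝ) ^ 2 ≤ 2 * (nm x : ℝ) := by exact_mod_cast b2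
    nlinarith [mul_le_mul_of_nonneg_left b1' hc.le, mul_le_mul_of_nonneg_left b2' hc.le]
  have h6 : ‖e x‖ * ‖(starRingEnd ℂ) (emb x) / (nm x : ℂ)‖ ≤ 1 :=
    mul_le_one₀ (he x) (norm_nonneg _) (quot_le h x)
  calc ‖e x‖ * ‖(starRingEnd ℂ) (emb x) / (nm x : ℂ)‖ *
        Real.exp (-(2 * Real.pi * (nm x : ℝ) * τ.im))
      ≤ 1 * Real.exp (-(2 * Real.pi * (nm x : ℝ) * τ.im)) :=
        mul_le_mul_of_nonneg_right h6 (Real.exp_pos _).le
    _ ≤ _ := by rw [one_mul]; exact h5

/-- the expansion of `thetaInt` -/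
theorem expansion (h : Case A B) (e : OO A B → ℂ) (he : ∀ x, ‖e x‖ ≤ 1) {τ : ℂ}
    (hτ : 0 < τ.im) :
    HasSum (fun n : ℕ => (1 / 2) * (∑ x ∈ G2.FF h (n : ℤ), e x * (starRingEnd ℂ) (emb x)) / n *
      Complex.exp (2 * Real.pi * Complex.I * n * τ)) (thetaInt e τ) := by
  have hs := summ h e he hτ
  have h1 := (hs.hasSum.tsum_fiberwise (fun x : OO A B => (nm x).toNat)).mul_left (1 / 2 : ℂ)
  refine HasSum.congr_fun h1 ?_ |> fun h => h
  intro n
  have hset : (fun x : OO A B => (nm x).toNat) ⁻¹' {n} =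
      ((G2.FF h (n : ℤ) : Finset (OO A B)) : Set (OO A B)) := by
    ext x
    rw [Set.mem_preimage, Set.mem_singleton_iff, Finset.mem_coe, G2.mem_FF]
    have := G0.nm_nonneg h x
    omega
  rw [tsum_congr_set_coe (fun b : OO A B => e b * (starRingEnd ℂ) (emb b) / (nm b : ℂ) *
    Complex.exp (2 * Real.pi * Complex.I * (nm b : ℂ) * τ)) hset,
    Finset.tsum_subtype' (G2.FF h (n : ℤ)) (fun b : OO A B => e b * (starRingEnd ℂ) (emb b) /
      (nm b : ℂ) * Complex.exp (2 * Real.pi * Complex.I * (nm b : ℂ) * τ)),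
    mul_div_assoc, mul_assoc, Finset.sum_div, Finset.sum_mul]
  congr 1
  refine Finset.sum_congr rfl fun x hx => ?_
  rw [G2.mem_FF] at hx
  rw [hx]
  push_cast
  rfl

end G7

open _root_.Pool.Agent.MU3G.G7 in
theorem t_G7 : St_G7 := by
  intro A B h V g hg H _ _ io j Γ _ al eH s0 kap hD c d τ hτ
  have hn : nm g ≠ 0 := fun h0 => hg (G0.nm_zero h h0)
  have key : ∀ s : Γ, HasSum (fun n : ℕ => io (s.1 (aH j eH n)) / n *
      Complex.exp (2 * Real.pi * Complex.I * n * τ))
      (thetaInt (fun x => io (s.1 (eH x))) τ) := by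
    intro s
    have h1 := expansion h (fun x => io (s.1 (eH x)))
      (nle hn io eH hD.eps s.1) hτ
    have h2 : ∀ n : ℕ, io (s.1 (aH j eH n)) =
        (1 / 2) * (∑ x ∈ G2.FF h (n : ℤ), io (s.1 (eH x)) * (starRingEnd ℂ) (emb x)) := by
      intro n
      rw [G2.aH_eq h, map_mul, map_mul, map_inv₀, map_inv₀, map_ofNat, map_ofNat, map_sum,
        map_sum, one_div]
      congr 1
      refine Finset.sum_congr rfl fun x _ => ?_
      rw [map_mul, map_mul, hD.fix s.1 s.2, hD.io_j, G0.emb_star]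
    simp only [h2]
    exact h1
  refine ⟨?_, ?_⟩
  · have h1 := expansion h (fun x => io (eH x))
      (nle hn io eH hD.eps (RingEquiv.refl H)) hτ
    have h2 : ∀ n : ℕ, io (aH j eH n) =
        (1 / 2) * (∑ x ∈ G2.FF h (n : ℤ), io (eH x) * (starRingEnd ℂ) (emb x)) := by
      intro n
      rw [G2.aH_eq h, map_mul, map_inv₀, map_ofNat, map_sum, one_div]
      congr 1
      refine Finset.sum_congr rfl fun x _ => ?_
      rw [map_mul, hD.io_j, G0.emb_star]
    simp only [h2]
    exact h1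
  · have : Fintype Γ := Fintype.ofFinite Γ
    have h1 : HasSum (fun n : ℕ => emb d / (kap * emb (ppi A B)) * ∑ s : Γ,
        io (s.1 c * (s.1 (eH (al s)))⁻¹) * (io (s.1 (aH j eH n)) / n *
          Complex.exp (2 * Real.pi * Complex.I * n * τ)))
        (ZZ io Γ al eH kap c d τ) := by
      unfold ZZ
      rw [finsum_eq_sum_of_fintype]
      exact (hasSum_sum fun s _ => (key s).mul_left _).mul_left _
    refine HasSum.congr_fun h1 ?_ |> fun h => h
    intro n
    unfold bb
    rw [finsum_eq_sum_of_fintype, map_mul, map_mul, map_div₀, map_inv₀, map_mul, map_sum,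
      hD.io_j, hD.io_j, map_intCast, map_natCast, Finset.sum_div, Finset.mul_sum, Finset.sum_mul,
      Finset.mul_sum]
    refine Finset.sum_congr rfl fun s _ => ?_
    simp only [map_mul]
    ring

end

end Pool.Agent.MU3G


end

section

/-!
# MU3, block A, module ROO: the three values at the points of order two
-/

set_option autoImplicit false

namespace Pool.Agent.MU3A

open _root_.MU3 _root_.Pool.Agent.MU3B Polynomial

noncomputable section

theorem ta_ROO (h1 : Sa_TW2) (h2 : MU3B.St_NEQ) : Sa_ROO := by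
  intro L v v' hv hv' hvv h2v h2v'
  have h2s : 2 * (v + v') ∈ L.lattice := by
    rw [mul_add]; exact add_mem h2v h2v'
  have hsub : v - v' ∉ L.lattice := by
    intro h
    apply hvv
    have h3 := add_mem h h2v'
    have e : v - v' + 2 * v' = v + v' := by ring
    rwa [e] at h3
  have n1 : L.weierstrassP v ≠ L.weierstrassP v' := by
    intro h
    rcases h2 L v' v hv' hv h with h | h
    · exact hsub h
    · exact hvv h
  have n2 : L.weierstrassP v ≠ L.weierstrassP (v + v') := by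
    intro h
    rcases h2 L (v + v') v hvv hv h with h | h
    · apply hv'
      have e : v - (v + v') = -v' := by ring
      rw [e] at h
      simpa using neg_mem h
    · apply hv'
      have e : v + (v + v') - 2 * v = v' := by ring
      have h3 := sub_mem h h2v
      rwa [e] at h3
  have n3 : L.weierstrassP v' ≠ L.weierstrassP (v + v') := by
    intro h
    rcases h2 L (v + v') v' hvv hv' h with h | h
    · apply hv
      have e : v' - (v + v') = -v := by ring
      rw [e] at h
      simpa using neg_mem h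
    · apply hv
      have e : v' + (v + v') - 2 * v' = v := by ring
      have h3 := sub_mem h h2v'
      rwa [e] at h3
  have r1 := (h1 L v hv h2v).1
  have r2 := (h1 L v' hv' h2v').1
  have r3 := (h1 L (v + v') hvv h2s).1
  generalize L.weierstrassP v = a at *
  generalize L.weierstrassP v' = b at *
  generalize L.weierstrassP (v + v') = c at *
  generalize L.g₂ = g at *
  generalize L.g₃ = k at *
  have q1 : 4 * (a ^ 2 + a * b + b ^ 2) - g = 0 := by
    have : (a - b) * (4 * (a ^ 2 + a * b + b ^ 2) - g) = 0 := by linear_combination r1 - r2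
    exact (mul_eq_zero.mp this).resolve_left (sub_ne_zero.mpr n1)
  have q2 : 4 * (a ^ 2 + a * c + c ^ 2) - g = 0 := by
    have : (a - c) * (4 * (a ^ 2 + a * c + c ^ 2) - g) = 0 := by linear_combination r1 - r3
    exact (mul_eq_zero.mp this).resolve_left (sub_ne_zero.mpr n2)
  have s : a + b + c = 0 := by
    have : (b - c) * (a + b + c) = 0 := by linear_combination (q1 - q2) / 4
    exact (mul_eq_zero.mp this).resolve_left (sub_ne_zero.mpr n3)
  have hc : c = -a - b := by linear_combination s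
  refine ⟨n1, n2, n3, s, ?_, ?_⟩
  · subst hc
    linear_combination (-1 / 4 : ℂ) * q1
  · subst hc
    linear_combination (1 / 4 : ℂ) * r1 - a / 4 * q1

end

end Pool.Agent.MU3A


end

section

/-!
# Module MU3N_NIL: nilpotency and few invariants bound the rank
-/

namespace MU3


namespace Nil

variable {A : Type} [AddCommGroup A] [Finite A]

theorem card_ker_eq (φ : A →+ A) : Nat.card φ.ker = φ.range.index := by
  have h1 : Nat.card φ.ker * φ.ker.index = Nat.card A := φ.ker.card_mul_index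
  have h2 : Nat.card φ.range * φ.range.index = Nat.card A := φ.range.card_mul_index
  rw [AddSubgroup.index_ker] at h1
  have h3 : 0 < Nat.card φ.range := Nat.card_pos
  have h4 : Nat.card φ.range * Nat.card φ.ker = Nat.card φ.range * φ.range.index := by
    rw [h2, ← h1, mul_comm]
  exact Nat.eq_of_mul_eq_mul_left h3 h4

omit [Finite A] in
theorem card_ker_comp (f g : A →+ A) :
    Nat.card (g.comp f).ker ∣ Nat.card f.ker * Nat.card g.ker := by
  have hmem : ∀ x : (g.comp f).ker, f (x : A) ∈ g.ker := fun x => x.2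
  let ρ : (g.comp f).ker →+ g.ker := (f.comp (g.comp f).ker.subtype).codRestrict g.ker hmem
  have h1 : Nat.card ρ.ker * ρ.ker.index = Nat.card (g.comp f).ker := ρ.ker.card_mul_index
  rw [AddSubgroup.index_ker] at h1
  rw [← h1]
  refine mul_dvd_mul ?_ (AddSubgroup.card_addSubgroup_dvd_card _)
  have hmem2 : ∀ x : ρ.ker, ((x : (g.comp f).ker) : A) ∈ f.ker := fun x => by
    have h := x.2
    rw [AddMonoidHom.mem_ker] at h
    have h' := congrArg Subtype.val h
    exact h'
  let σ : ρ.ker →+ f.ker := ((g.comp f).ker.subtype.comp ρ.ker.subtype).codRestrict f.ker hmem2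
  refine AddSubgroup.card_dvd_of_injective σ ?_
  intro x y hxy
  have h := congrArg Subtype.val hxy
  exact Subtype.ext (Subtype.ext h)

omit [Finite A] in
theorem card_ker_pow (T : AddMonoid.End A) (l : ℕ) :
    Nat.card (AddMonoidHom.ker (T ^ l : AddMonoid.End A)) ∣
      Nat.card (AddMonoidHom.ker (T : AddMonoid.End A)) ^ l := by
  induction l with
  | zero =>
    rw [pow_zero, pow_zero]
    have : Nat.card (AddMonoidHom.ker (1 : AddMonoid.End A)) = 1 := by
      rw [Nat.card_eq_one_iff_unique]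
      refine ⟨⟨fun x y => ?_⟩, ⟨0⟩⟩
      have hx : (x : A) = 0 := x.2
      have hy : (y : A) = 0 := y.2
      exact Subtype.ext (hx.trans hy.symm)
    rw [this]
  | succ l ih =>
    have h : (T ^ (l + 1) : AddMonoid.End A) = AddMonoidHom.comp (T ^ l : AddMonoid.End A) T := by
      rw [pow_succ]
      rfl
    rw [h, pow_succ]
    refine (card_ker_comp T (T ^ l : AddMonoid.End A)).trans ?_
    rw [mul_comm]
    exact mul_dvd_mul_right ih _

theorem val_le (p : ℕ) [Fact p.Prime] {a b : ℕ} (h : a ∣ b) (hb : b ≠ 0) :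
    padicValNat p a ≤ padicValNat p b := by
  obtain ⟨c, rfl⟩ := h
  have ha : a ≠ 0 := fun h => hb (by rw [h, zero_mul])
  have hc : c ≠ 0 := fun h => hb (by rw [h, mul_zero])
  rw [padicValNat.mul ha hc]
  omega

end Nil

open _root_.MU3.Nil in
theorem n_NIL : N_NIL := by
  intro p l _ A _ _ γ h
  have h1 : Nat.card {x : A // p • x = 0} = Nat.card (nsmulAddMonoidHom (α := A) p).ker := by
    refine Nat.card_congr (Equiv.subtypeEquivRight fun x => ?_)
    rw [AddMonoidHom.mem_ker]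
    rfl
  have h2 : AddMonoidHom.range ((γ - 1) ^ l : AddMonoid.End A) ≤
      (nsmulAddMonoidHom (α := A) p).range := by
    rintro _ ⟨x, rfl⟩
    obtain ⟨y, hy⟩ := h x
    exact ⟨y, hy.symm⟩
  have h3 : Nat.card (nsmulAddMonoidHom (α := A) p).ker ∣
      Nat.card (AddMonoidHom.ker ((γ - 1) ^ l : AddMonoid.End A)) := by
    have e2 : Nat.card (AddMonoidHom.ker ((γ - 1) ^ l : AddMonoid.End A)) =
        (AddMonoidHom.range ((γ - 1) ^ l : AddMonoid.End A)).index := card_ker_eq _
    rw [card_ker_eq (nsmulAddMonoidHom (α := A) p), e2]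
    exact AddSubgroup.index_dvd_of_le h2
  have h4 := h3.trans (card_ker_pow (γ - 1) l)
  have hpos : Nat.card (AddMonoidHom.ker (γ - 1 : AddMonoid.End A)) ≠ 0 := Nat.card_pos.ne'
  rw [h1]
  refine (val_le p h4 (pow_ne_zero _ hpos)).trans ?_
  rw [padicValNat.pow]

end MU3


end

section

/-!
# MU3, block A: (PID)
-/

set_option autoImplicit false

namespace Pool.Agent.MU3A

open _root_.MU3 _root_.Pool.Agent.MU3B Polynomial NumberField _root_.Pool.Agent.MU3G

namespace PID

variable {A B : ℤ}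

theorem nm_natCast (n : ℕ) : nm (n : OO A B) = (n : ℤ) ^ 2 := by
  rw [G0.nm_eq, QuadraticAlgebra.norm_natCast]

theorem self_dvd (x : OO A B) : x ∣ ((nm x : ℤ) : OO A B) := by
  refine ⟨star x, ?_⟩
  have h := QuadraticAlgebra.algebraMap_norm_eq_mul_star x
  rw [← G0.nm_eq] at h
  rw [← h]
  simp

theorem unit_nm (h : Case A B) (x : OO A B) : IsUnit x ↔ nm x = 1 := by
  rw [G0.unit_iff, Int.isUnit_iff]
  have := G0.nm_nonneg h x
  constructor
  · rintro (h1 | h1)
    · exact h1
    · omega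
  · exact Or.inl

theorem prime_cases (h : Case A B) (p : OO A B) (hp : Prime p) :
    (∃ q : ℕ, q.Prime ∧ nm p = q) ∨ ∃ q : ℕ, q.Prime ∧ (p = q ∨ p = -(q : OO A B)) := by
  have hpos := G0.nm_pos h hp.ne_zero
  obtain ⟨N, hN⟩ := Int.eq_ofNat_of_zero_le hpos.le
  have hN0 : N ≠ 0 := by
    rintro rfl
    rw [hN] at hpos
    simp at hpos
  have h1 : p ∣ ((N.primeFactorsList.map (fun q : ℕ => (q : OO A B))).prod) := by
    have h2 : ((N.primeFactorsList.map (fun q : ℕ => (q : OO A B))).prod) = ((nm p : ℤ) : OO A B) := by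
      rw [hN]
      have h3 := Nat.prod_primeFactorsList hN0
      conv_rhs => rw [← h3]
      rw [Int.cast_natCast, Nat.cast_list_prod]
    rw [h2]
    exact self_dvd p
  obtain ⟨z, hz, hpz⟩ := (Prime.dvd_prod_iff hp).1 h1
  rw [List.mem_map] at hz
  obtain ⟨q, hq, rfl⟩ := hz
  have hqp : q.Prime := Nat.prime_of_mem_primeFactorsList hq
  obtain ⟨s, hs⟩ := hpz
  obtain ⟨M, hM⟩ := Int.eq_ofNat_of_zero_le (G0.nm_nonneg h s)
  have h4 : N * M = q ^ 2 := by
    have h5 : nm p * nm s = (q : ℤ) ^ 2 := by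
      rw [← G0.nm_mul, ← hs, nm_natCast]
    rw [hN, hM] at h5
    exact_mod_cast h5
  obtain ⟨k, hk, hk2⟩ := (Nat.dvd_prime_pow hqp).1 (Dvd.intro _ h4)
  interval_cases k
  · exfalso
    apply hp.not_unit
    rw [unit_nm h, hN, hk2]
    simp
  · left
    refine ⟨q, hqp, ?_⟩
    rw [hN, hk2, pow_one]
  · right
    refine ⟨q, hqp, ?_⟩
    have h6 : M = 1 := by
      rw [hk2] at h4
      have h7 : 0 < q ^ 2 := pow_pos hqp.pos 2
      exact Nat.eq_of_mul_eq_mul_left h7 (by rw [h4, mul_one])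
    have h8 : IsUnit s := by
      rw [unit_nm h, hM, h6]
      simp
    rcases (G0.units h s).1 h8 with h9 | h9
    · left
      rw [hs, h9, mul_one]
    · right
      rw [hs, h9]
      ring

theorem prime_of_nm (h : Case A B) (p : OO A B) (hp : (nm p).natAbs.Prime) : Prime p := by
  have := G0.dom h
  have := G0.pid h
  rw [← irreducible_iff_prime]
  rw [← Int.prime_iff_natAbs_prime] at hp
  constructor
  · intro hu
    rw [G0.unit_iff] at hu
    exact hp.not_unit hu
  · intro x y hxy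
    have h1 : nm p = nm x * nm y := by
      rw [← G0.nm_mul, ← hxy]
    rcases hp.irreducible.isUnit_or_isUnit h1 with h2 | h2
    · exact Or.inl ((G0.unit_iff x).2 h2)
    · exact Or.inr ((G0.unit_iff y).2 h2)

end PID

theorem ta_PID : Sa_PID := by
  intro A B h
  refine ⟨G0.dom h, G0.pid h, G0.nm_nonneg h, G0.nm_mul, fun x => ⟨G0.nm_zero h, ?_⟩,
    G0.emb_norm h, G0.units h, PID.unit_nm h, PID.prime_cases h, PID.prime_of_nm h⟩
  rintro rfl
  simp [nm]

end Pool.Agent.MU3A


end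

section

/-!
# MU3, block A: multiplication by `- ppi` is the Frobenius modulo `ppi`
-/

set_option autoImplicit false

namespace Pool.Agent.MU3A

open _root_.MU3 _root_.Pool.Agent.MU3B Polynomial NumberField

noncomputable section

namespace FR3

lemma nu_iff (V : ValuationSubring ℂ) (a : ℂ) : a ∈ V.nonunits ↔ V.valuation a < 1 :=
  ValuationSubring.mem_nonunits_iff V

lemma mem_iff (V : ValuationSubring ℂ) (a : ℂ) : a ∈ V ↔ V.valuation a ≤ 1 :=
  (V.valuation_le_one_iff a).symm

/-- the product of an element of the maximal ideal and one of the ring -/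
lemma mul_nu (V : ValuationSubring ℂ) {a b : ℂ} (ha : a ∈ V.nonunits) (hb : b ∈ V) :
    a * b ∈ V.nonunits := by
  rw [nu_iff] at ha ⊢
  rw [mem_iff] at hb
  rw [map_mul]
  exact mul_lt_one_of_lt_of_le ha hb

lemma sub_nu (V : ValuationSubring ℂ) {a b : ℂ} (ha : a ∈ V.nonunits) (hb : b ∈ V.nonunits) :
    a - b ∈ V.nonunits := by
  rw [nu_iff] at ha hb ⊢
  exact lt_of_le_of_lt (Valuation.map_sub _ _ _) (max_lt ha hb)

lemma one_not_nu (V : ValuationSubring ℂ) : (1 : ℂ) ∉ V.nonunits := by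
  rw [nu_iff, map_one]
  exact lt_irrefl _

/-- `D ≡ -1`: its inverse is in the ring -/
lemma inv_mem (V : ValuationSubring ℂ) {p d : ℂ} (hp : p ∈ V.nonunits) (hd : d ∈ V) :
    p * d - 1 ≠ 0 ∧ (p * d - 1)⁻¹ ∈ V := by
  have h1 := mul_nu V hp hd
  have h2 : p * d - 1 ≠ 0 := fun h0 => by
    have : p * d = 1 := by linear_combination h0
    rw [this] at h1
    exact one_not_nu V h1
  refine ⟨h2, ?_⟩
  rw [mem_iff, map_inv₀]
  have h3 : ¬ V.valuation (p * d - 1) < 1 := fun h4 => by
    have h5 := sub_nu V h1 ((nu_iff V _).2 h4)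
    have : p * d - (p * d - 1) = 1 := by ring
    rw [this] at h5
    exact one_not_nu V h5
  rw [not_lt] at h3
  exact inv_le_one_of_one_le₀ h3

lemma key (V : ValuationSubring ℂ) {p d n m x y X Y : ℂ} (hp : p ∈ V.nonunits) (hd : d ∈ V)
    (hn : n ∈ V) (hm : m ∈ V) (hx : x ∈ V) (hy : y ∈ V)
    (hX : X * (p * d - 1) ^ 2 = x ^ 3 + p * n)
    (hY : Y * (p * d - 1) ^ 3 = y * (y ^ 2 + p * m)) :
    X - x ^ 3 ∈ V.nonunits ∧ -Y - y ^ 3 ∈ V.nonunits := by
  obtain ⟨h0, hi⟩ := inv_mem V hp hd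
  have hpV : p ∈ V := V.nonunits_subset hp
  have h1 : (1 : ℂ) ∈ V := one_mem V
  have h2 : (2 : ℂ) ∈ V := by
    have e : (2 : ℂ) = 1 + 1 := by norm_num
    rw [e]
    exact add_mem h1 h1
  have h3 : (3 : ℂ) ∈ V := by
    have e : (3 : ℂ) = 1 + 2 := by norm_num
    rw [e]
    exact add_mem h1 h2
  constructor
  · have e : X - x ^ 3 = p * ((n - x ^ 3 * (p * d ^ 2 - 2 * d)) * ((p * d - 1)⁻¹) ^ 2) := by
      field_simp
      linear_combination hX
    rw [e]
    exact mul_nu V hp (mul_mem (sub_mem hn (mul_mem (pow_mem hx 3)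
      (sub_mem (mul_mem hpV (pow_mem hd 2)) (mul_mem h2 hd)))) (pow_mem hi 2))
  · have e : -Y - y ^ 3 = p * (-(y * m + y ^ 3 * (p ^ 2 * d ^ 3 - 3 * p * d ^ 2 + 3 * d)) *
        ((p * d - 1)⁻¹) ^ 3) := by
      field_simp
      linear_combination -hY
    rw [e]
    refine mul_nu V hp (mul_mem (neg_mem (add_mem (mul_mem hy hm) (mul_mem (pow_mem hy 3)
      (add_mem (sub_mem (mul_mem (pow_mem hpV 2) (pow_mem hd 3))
        (mul_mem (mul_mem h3 hpV) (pow_mem hd 2))) (mul_mem h3 hd))))) (pow_mem hi 3))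

lemma quarter_mem (V : ValuationSubring ℂ) (h : (3 : ℂ) ∈ V.nonunits) : (1 / 4 : ℂ) ∈ V := by
  have h1 := (inv_mem V h (neg_mem (one_mem V))).2
  have h2 := neg_mem h1
  have e : -((3 : ℂ) * -1 - 1)⁻¹ = 1 / 4 := by norm_num
  rwa [e] at h2

lemma sqrt_mem (V : ValuationSubring ℂ) {y : ℂ} (h : y ^ 2 ∈ V) : y ∈ V := by
  rw [mem_iff, map_pow] at h
  rw [mem_iff]
  exact (pow_le_one_iff_of_nonneg zero_le (by norm_num)).1 h

end FR3

open _root_.Pool.Agent.MU3A.FR3 in
theorem ta_FR3 (h1 : Sa_V3) (h2 : Sa_N8P) (h3 : Sa_N11) (h4 : Sa_EQN) : Sa_FR3 := by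
  intro A B L Om hAB hL V hV z hz hxV
  obtain ⟨hV1, hV3, -, -⟩ := h1 A B hAB V hV
  obtain ⟨heq, -, hpar, -⟩ := h4 A B L Om hAB hL
  have hE := heq z hz
  have hq := quarter_mem V hV3
  have hwV : wC A B ∈ V := by
    rw [← emb_w]
    exact hV1 _
  have hyV : yy L z ∈ V := by
    apply sqrt_mem
    rw [hE]
    have e : emb (a6 A B) / 4 = emb (a6 A B) * (1 / 4) := by ring
    rw [e]
    exact add_mem (add_mem (add_mem (pow_mem hxV 3) (mul_mem (hV1 _) (pow_mem hxV 2)))
      (mul_mem (hV1 _) hxV)) (mul_mem (hV1 _) hq)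
  have hneg : emb (-ppi A B) * z = -(emb (ppi A B) * z) := by
    rw [emb_neg hAB]
    ring
  refine ⟨hyV, ?_⟩
  rw [hneg, (hpar _).1, (hpar _).2]
  have hone := one_mem V
  have hint : ∀ n : ℤ, (n : ℂ) ∈ V := fun n => by
    rw [← emb_intCast hAB]
    exact hV1 _
  rcases hAB with ⟨rfl, rfl⟩ | ⟨rfl, rfl⟩
  · have hw := wC_sq (A := -2) (B := 0) (Or.inl ⟨rfl, rfl⟩)
    obtain ⟨hI, -⟩ := h2 L Om hL
    have hp : ppi (-2) 0 = (⟨1, 1⟩ : OO (-2) 0) := by simp [ppi]
    rw [hp] at hV ⊢
    have ep : emb (⟨1, 1⟩ : OO (-2) 0) = 1 + wC (-2) 0 := by simp [emb]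
    have hk := hI.ker z hz
    have hx := hI.x z
    have hy := hI.y z
    set w : ℂ := wC (-2) 0 with hwd
    set x : ℂ := xx (-2) 0 L z with hxd
    set y : ℂ := yy L z with hyd
    have eD : emb (⟨1, 1⟩ : OO (-2) 0) * x + emb (⟨0, 1⟩ : OO (-2) 0) =
        (1 + w) * (x + 1) - 1 := by
      rw [ep]
      simp only [emb]
      push_cast
      ring
    rw [eD] at hk hx hy
    have hD := inv_mem V (p := 1 + w) (d := x + 1) (ep ▸ hV) (add_mem hxV hone)
    have hnm : emb (⟨1, 1⟩ : OO (-2) 0) * z ∉ L.lattice := fun h => hD.1 (hk.1 h)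
    have hx' := hx hnm
    have hy' := hy hnm
    refine key V (ep ▸ hV : (1 + w) ∈ V.nonunits) (add_mem hxV hone)
      (n := -2 * w * x ^ 2 - 2 * (1 + w) * x) (m := w * x ^ 2 + 4 * x - 2 * w) ?_ ?_ hxV hyV ?_ ?_
    · have := hint (-2)
      have h2' := hint 2
      push_cast at this h2'
      exact sub_mem (mul_mem (mul_mem this hwV) (pow_mem hxV 2))
        (mul_mem (mul_mem h2' (add_mem hone hwV)) hxV)
    · have h4' := hint 4
      have h2' := hint 2
      push_cast at h4' h2'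
      exact sub_mem (add_mem (mul_mem hwV (pow_mem hxV 2)) (mul_mem h4' hxV)) (mul_mem h2' hwV)
    · rw [hx']
      simp only [emb, ← hwd]
      simp only [QuadraticAlgebra.re_zero, QuadraticAlgebra.im_zero]
      push_cast at hw ⊢
      linear_combination (2 * x ^ 2 + 2 * x) * hw
    · have c2 : emb (a2 (-2) 0) = 4 := by
        have := emb_intCast (A := -2) (B := 0) (Or.inl ⟨rfl, rfl⟩) 4
        simpa [a2] using this
      have c4 : emb (a4 (-2) 0) = 2 := by
        have := emb_intCast (A := -2) (B := 0) (Or.inl ⟨rfl, rfl⟩) 2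
        simpa [a4] using this
      have c6 : emb (a6 (-2) 0) = 0 := by
        have := emb_zero (A := -2) (B := 0) (Or.inl ⟨rfl, rfl⟩)
        simpa [a6] using this
      rw [hy', hE, c2, c4, c6]
      simp only [emb, ← hwd]
      push_cast at hw ⊢
      linear_combination (y * (2 - x ^ 2)) * hw
  · have hw := wC_sq (A := -3) (B := 1) (Or.inr ⟨rfl, rfl⟩)
    have hI := h3 L Om hL
    have hp : ppi (-3) 1 = (⟨0, 1⟩ : OO (-3) 1) := by simp [ppi]
    rw [hp] at hV ⊢
    have ep : emb (⟨0, 1⟩ : OO (-3) 1) = wC (-3) 1 := by simp [emb]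
    have hk := hI.ker z hz
    have hx := hI.x z
    have hy := hI.y z
    set w : ℂ := wC (-3) 1 with hwd
    set x : ℂ := xx (-3) 1 L z with hxd
    set y : ℂ := yy L z with hyd
    have e1 : emb (-1 : OO (-3) 1) = -1 := by
      rw [emb_neg (Or.inr ⟨rfl, rfl⟩), emb_one (Or.inr ⟨rfl, rfl⟩)]
    have e1' : emb (1 : OO (-3) 1) = 1 := emb_one (Or.inr ⟨rfl, rfl⟩)
    have eD : emb (⟨0, 1⟩ : OO (-3) 1) * x + emb (-1 : OO (-3) 1) =
        w * x - 1 := by
      rw [ep, e1]
      ring
    rw [eD] at hk hx hy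
    have hD := inv_mem V (p := w) (d := x) (ep ▸ hV) hxV
    have hnm : emb (⟨0, 1⟩ : OO (-3) 1) * z ∉ L.lattice := fun h => hD.1 (hk.1 h)
    have hx' := hx hnm
    have hy' := hy hnm
    refine key V (ep ▸ hV : w ∈ V.nonunits) hxV
      (n := 3 * x ^ 2 + (2 * w - 1) * x - 1) (m := -x ^ 2 - w * x + (3 - w) * (1 / 4)) ?_ ?_
      hxV hyV ?_ ?_
    · have h3' := hint 3
      have h2' := hint 2
      push_cast at h3' h2'
      exact sub_mem (add_mem (mul_mem h3' (pow_mem hxV 2))
        (mul_mem (sub_mem (mul_mem h2' hwV) hone) hxV)) hone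
    · have h3' := hint 3
      push_cast at h3'
      exact add_mem (sub_mem (neg_mem (pow_mem hxV 2)) (mul_mem hwV hxV))
        (mul_mem (sub_mem h3' hwV) hq)
    · rw [hx']
      simp only [emb, ← hwd]
      push_cast at hw ⊢
      linear_combination (-2 * x) * hw
    · have c2 : emb (a2 (-3) 1) = -1 + 2 * w := by
        simp [a2, emb, ← hwd]
      have c4 : emb (a4 (-3) 1) = -3 := by
        have := emb_intCast (A := -3) (B := 1) (Or.inr ⟨rfl, rfl⟩) (-3)
        push_cast at this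
        simpa [a4] using this
      have c6 : emb (a6 (-3) 1) = 1 - 2 * w := by
        simp [a6, emb, ← hwd]
        ring
      rw [hy', hE, c2, c4, c6, e1']
      simp only [emb, ← hwd]
      push_cast at hw ⊢
      linear_combination (y * x + y / 4) * hw

end

end Pool.Agent.MU3A


end
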