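import Mathlib
import Pool.Agent.MVF.C006

/-! Parts: MU3.F_GSS, MU3.F_U3 -/

namespace Pool.Agent.MU3F.FU3
end Pool.Agent.MU3F.FU3
namespace Pool.Agent.MU3F.GSS
end Pool.Agent.MU3F.GSS

section

/-!
# MU3, block FH: Gauss sums
-/

set_option autoImplicit false

namespace Pool.Agent.MU3F

open _root_.MU3 _root_.Pool.Agent.MU3A _root_.Pool.Agent.MU3B _root_.Pool.Agent.MuSym OnePoint
open scoped ComplexConjugate

namespace GSS

lemma ex_add (r s : ℚ) : ex (r + s) = ex r * ex s := by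
  unfold ex
  rw [← Complex.exp_add]
  congr 1
  push_cast
  ring

lemma ex_int (n : ℤ) : ex (n : ℚ) = 1 := by
  unfold ex
  rw [Complex.exp_eq_one_iff]
  exact ⟨n, by push_cast; ring⟩

lemma ex_nat_mul (a : ℕ) (r : ℚ) : ex (a * r) = ex r ^ a := by
  unfold ex
  rw [← Complex.exp_nat_mul]
  congr 1
  push_cast
  ring

/-- reduction of the numerator -/
lemma ex_red (D : ℕ) (hD : 0 < D) (n : ℤ) (r : ℕ) (h : n % (D : ℤ) = r) :
    ex ((n : ℚ) / (D : ℚ)) = ex (1 / (D : ℚ)) ^ r := by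
  rw [← ex_nat_mul]
  have hD0 : (D : ℚ) ≠ 0 := by exact_mod_cast hD.ne'
  have h1 := Int.emod_add_mul_ediv n (D : ℤ)
  rw [h] at h1
  have h2 : (n : ℚ) / D = r * (1 / D) + ((n / (D : ℤ) : ℤ) : ℚ) := by
    have h3 : (n : ℚ) = r + D * ((n / (D : ℤ) : ℤ) : ℚ) := by exact_mod_cast h1.symm
    rw [div_eq_iff hD0, add_mul, mul_assoc, one_div, inv_mul_cancel₀ hD0, mul_one]
    linear_combination h3
  rw [h2, ex_add, ex_int, mul_one]

lemma ex_pow_one (D : ℕ) (hD : 0 < D) : ex (1 / (D : ℚ)) ^ D = 1 := by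
  rw [← ex_nat_mul]
  have hD0 : (D : ℚ) ≠ 0 := by exact_mod_cast hD.ne'
  rw [mul_one_div_cancel hD0]
  exact_mod_cast ex_int 1

lemma ex_half : ex (1 / 2) = -1 := by
  unfold ex
  have : 2 * Real.pi * Complex.I * (((1 / 2 : ℚ)) : ℂ) = Real.pi * Complex.I := by
    push_cast
    ring
  rw [this, Complex.exp_pi_mul_I]

lemma sum8 (η : ℂ) : ∑ a ∈ Finset.range 8, (chiD (-2) 0 a : ℂ) * η ^ a =
    η + η ^ 3 - η ^ 5 - η ^ 7 := by
  have h0 : chiD (-2) 0 ((0 : ℕ) : ℤ) = 0 := by decide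
  have h1 : chiD (-2) 0 ((1 : ℕ) : ℤ) = 1 := by decide
  have h2 : chiD (-2) 0 ((2 : ℕ) : ℤ) = 0 := by decide
  have h3 : chiD (-2) 0 ((3 : ℕ) : ℤ) = 1 := by decide
  have h4 : chiD (-2) 0 ((4 : ℕ) : ℤ) = 0 := by decide
  have h5 : chiD (-2) 0 ((5 : ℕ) : ℤ) = -1 := by decide
  have h6 : chiD (-2) 0 ((6 : ℕ) : ℤ) = 0 := by decide
  have h7 : chiD (-2) 0 ((7 : ℕ) : ℤ) = -1 := by decide
  simp only [Finset.sum_range_succ, Finset.sum_range_zero, h0, h1, h2, h3, h4, h5, h6, h7]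
  push_cast
  ring

lemma sum11 (η : ℂ) : ∑ a ∈ Finset.range 11, (chiD (-3) 1 a : ℂ) * η ^ a =
    η + η ^ 3 + η ^ 4 + η ^ 5 + η ^ 9 - (η ^ 2 + η ^ 6 + η ^ 7 + η ^ 8 + η ^ 10) := by
  have h0 : chiD (-3) 1 ((0 : ℕ) : ℤ) = 0 := by decide
  have h1 : chiD (-3) 1 ((1 : ℕ) : ℤ) = 1 := by decide
  have h2 : chiD (-3) 1 ((2 : ℕ) : ℤ) = -1 := by decide
  have h3 : chiD (-3) 1 ((3 : ℕ) : ℤ) = 1 := by decide
  have h4 : chiD (-3) 1 ((4 : ℕ) : ℤ) = 1 := by decide
  have h5 : chiD (-3) 1 ((5 : ℕ) : ℤ) = 1 := by decide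
  have h6 : chiD (-3) 1 ((6 : ℕ) : ℤ) = -1 := by decide
  have h7 : chiD (-3) 1 ((7 : ℕ) : ℤ) = -1 := by decide
  have h8 : chiD (-3) 1 ((8 : ℕ) : ℤ) = -1 := by decide
  have h9 : chiD (-3) 1 ((9 : ℕ) : ℤ) = 1 := by decide
  have h10 : chiD (-3) 1 ((10 : ℕ) : ℤ) = -1 := by decide
  simp only [Finset.sum_range_succ, Finset.sum_range_zero, h0, h1, h2, h3, h4, h5, h6, h7, h8, h9,
    h10]
  push_cast
  ring

/-- norm of a coprime element modulo `D` -/
lemma nm_cop {A B : ℤ} (D : ℤ) (x : OO A B) (h : IsCoprime x ((D : ℤ) : OO A B)) :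
    ∃ y : ℤ, D ∣ y * nm x - 1 := by
  obtain ⟨u, v, huv⟩ := h
  have h1 := congrArg QuadraticAlgebra.re huv
  have h2 := congrArg QuadraticAlgebra.im huv
  have e1 : QuadraticAlgebra.re (1 : OO A B) = 1 := rfl
  have e2 : QuadraticAlgebra.im (1 : OO A B) = 0 := rfl
  simp only [QuadraticAlgebra.re_add, QuadraticAlgebra.im_add, QuadraticAlgebra.re_mul,
    QuadraticAlgebra.im_mul, QuadraticAlgebra.re_intCast, QuadraticAlgebra.im_intCast, e1, e2,
    mul_zero, add_zero, zero_add] at h1 h2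
  refine ⟨nm u, ?_⟩
  simp only [nm]
  -- `nm u nm x = nm (u x)`, `u x = 1 - D v`
  have h3 : (u.re ^ 2 + B * u.re * u.im - A * u.im ^ 2) *
      (x.re ^ 2 + B * x.re * x.im - A * x.im ^ 2) =
      (u.re * x.re + A * u.im * x.im) ^ 2 +
      B * (u.re * x.re + A * u.im * x.im) * (u.re * x.im + u.im * x.re + B * u.im * x.im) -
      A * (u.re * x.im + u.im * x.re + B * u.im * x.im) ^ 2 := by ring
  have h4 : u.re * x.re + A * u.im * x.im = 1 - D * v.re := by linear_combination h1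
  have h5 : u.re * x.im + u.im * x.re + B * u.im * x.im = -(D * v.im) := by
    linear_combination h2
  rw [h3, h4, h5]
  exact ⟨-2 * v.re + D * v.re ^ 2 - B * v.im + B * D * v.re * v.im - A * D * v.im ^ 2, by ring⟩

end GSS

open _root_.Pool.Agent.MU3F.GSS in
theorem tf_GSS : Sf_GSS := by
  intro A B hAB
  rcases hAB with ⟨rfl, rfl⟩ | ⟨rfl, rfl⟩
  · -- discriminant `-8`
    have hD : absD (-2) 0 = 8 := by norm_num [absD]
    have hDn : (absD (-2) 0).toNat = 8 := by rw [hD]; rfl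
    obtain ⟨ζ, hζ⟩ : ∃ ζ : ℂ, ζ = ex (1 / ((8 : ℕ) : ℚ)) := ⟨_, rfl⟩
    have hζ4 : ζ ^ 4 = -1 := by
      rw [hζ, ← ex_nat_mul, ← ex_half]
      norm_num
    have htau : tauD (-2) 0 = ζ + ζ ^ 3 - ζ ^ 5 - ζ ^ 7 := by
      unfold tauD
      rw [hDn, hD, ← sum8]
      apply Finset.sum_congr rfl
      intro a _
      congr 1
      rw [hζ, ← ex_nat_mul]
      congr 1
      push_cast
      ring
    refine ⟨?_, ?_, ?_, ?_⟩
    · rw [htau, hD]
      push_cast
      linear_combination (8 + ζ ^ 2 - 6 * ζ ^ 4 - 2 * ζ ^ 6 + 2 * ζ ^ 8 + ζ ^ 10) * hζ4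
    · intro a
      unfold chiD
      simp only [if_pos]
      split_ifs <;> omega
    · intro a
      rw [hD]
      unfold chiD
      simp only [if_pos]
      split_ifs <;> omega
    · intro x hx
      rw [hDn]
      have hterm : ∀ a : ℕ, ex (a * nm x / (absD (-2) 0 : ℚ)) =
          ex ((nm x : ℚ) / ((8 : ℕ) : ℚ)) ^ a := by
        intro a
        rw [hD, ← ex_nat_mul]
        congr 1
        push_cast
        ring
      rw [Finset.sum_congr rfl (fun a _ => by rw [hterm a]), sum8, htau]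
      obtain ⟨y, hy⟩ := nm_cop _ x hx
      rw [hD] at hy
      have hn : nm x = x.re * x.re + 2 * (x.im * x.im) := by simp only [nm]; ring
      have h1 : nm x % 8 = 1 ∨ nm x % 8 = 3 := by
        have h2 : (y * nm x) % 8 = 1 := by omega
        have h3 := Int.mul_emod y (nm x) 8
        rw [h2] at h3
        have h4 := Int.mul_emod x.re x.re 8
        have h5 := Int.mul_emod x.im x.im 8
        have h6 : nm x % 2 = 1 := by
          by_contra h7
          have h8 : nm x % 8 = 0 ∨ nm x % 8 = 2 ∨ nm x % 8 = 4 ∨ nm x % 8 = 6 := by omega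
          have h9 : 0 ≤ y % 8 ∧ y % 8 < 8 := by omega
          rcases h8 with h8 | h8 | h8 | h8 <;> rw [h8] at h3 <;> omega
        have h10 : 0 ≤ x.re % 8 ∧ x.re % 8 < 8 := by omega
        have h11 : 0 ≤ x.im % 8 ∧ x.im % 8 < 8 := by omega
        obtain ⟨r, hr⟩ : ∃ r, r = x.re % 8 := ⟨_, rfl⟩
        obtain ⟨i, hi⟩ : ∃ i, i = x.im % 8 := ⟨_, rfl⟩
        rw [← hr] at h4 h10
        rw [← hi] at h5 h11
        obtain ⟨h12, h13⟩ := h10
        obtain ⟨h14, h15⟩ := h11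
        interval_cases r <;> interval_cases i <;> omega
      rcases h1 with h1 | h1
      · rw [ex_red 8 (by norm_num) (nm x) 1 (by exact_mod_cast h1), ← hζ]
        ring
      · rw [ex_red 8 (by norm_num) (nm x) 3 (by exact_mod_cast h1), ← hζ]
        linear_combination ((-1) * ζ ^ 1 + (2) * ζ ^ 5 + (1) * ζ ^ 7 + (-1) * ζ ^ 9 + (-1) * ζ ^ 11 +
          (1) * ζ ^ 13 + (-1) * ζ ^ 17) * hζ4
  · -- discriminant `-11`
    have hD : absD (-3) 1 = 11 := by norm_num [absD]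
    have hDn : (absD (-3) 1).toNat = 11 := by rw [hD]; rfl
    obtain ⟨ζ, hζ⟩ : ∃ ζ : ℂ, ζ = ex (1 / ((11 : ℕ) : ℚ)) := ⟨_, rfl⟩
    have h11 : ζ ^ 11 = 1 := by rw [hζ]; exact ex_pow_one 11 (by norm_num)
    have hne : ζ ≠ 1 := by
      intro h
      rw [hζ] at h
      unfold ex at h
      rw [Complex.exp_eq_one_iff] at h
      obtain ⟨n, hn⟩ := h
      have h2 : (2 * Real.pi * Complex.I) ≠ 0 := Complex.two_pi_I_ne_zero
      have h3 : ((((1 / ((11 : ℕ) : ℚ)) : ℚ)) : ℂ) = n := by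
        apply mul_left_cancel₀ h2
        rw [hn]
        ring
      have h4 : (1 / ((11 : ℕ) : ℚ) : ℚ) = n := by exact_mod_cast h3
      have h5 : (1 : ℚ) = 11 * n := by
        rw [← h4]
        norm_num
      have h6 : (1 : ℤ) = 11 * n := by exact_mod_cast h5
      omega
    have hΦ : 1 + ζ + ζ ^ 2 + ζ ^ 3 + ζ ^ 4 + ζ ^ 5 + ζ ^ 6 + ζ ^ 7 + ζ ^ 8 + ζ ^ 9 + ζ ^ 10 = 0 := by
      have h1 : (ζ - 1) * (1 + ζ + ζ ^ 2 + ζ ^ 3 + ζ ^ 4 + ζ ^ 5 + ζ ^ 6 + ζ ^ 7 + ζ ^ 8 + ζ ^ 9 +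
          ζ ^ 10) = 0 := by linear_combination h11
      exact (mul_eq_zero.mp h1).resolve_left (sub_ne_zero.mpr hne)
    have htau : tauD (-3) 1 = ζ + ζ ^ 3 + ζ ^ 4 + ζ ^ 5 + ζ ^ 9 -
        (ζ ^ 2 + ζ ^ 6 + ζ ^ 7 + ζ ^ 8 + ζ ^ 10) := by
      unfold tauD
      rw [hDn, hD, ← sum11]
      apply Finset.sum_congr rfl
      intro a _
      congr 1
      rw [hζ, ← ex_nat_mul]
      congr 1
      push_cast
      ring
    refine ⟨?_, ?_, ?_, ?_⟩
    · rw [htau, hD]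
      push_cast
      linear_combination ((11) * ζ ^ 0 + (-11) * ζ ^ 1 + (1) * ζ ^ 2 + (-3) * ζ ^ 3 + (5) * ζ ^ 4 +
        (-3) * ζ ^ 5 + (1) * ζ ^ 6 + (-3) * ζ ^ 7 + (5) * ζ ^ 8 + (-3) * ζ ^ 9 +
        (1) * ζ ^ 10) * hΦ
    · intro a
      unfold chiD
      simp only [if_neg (show ¬ (1 : ℤ) = 0 by norm_num)]
      split_ifs <;> omega
    · intro a
      rw [hD]
      unfold chiD
      simp only [if_neg (show ¬ (1 : ℤ) = 0 by norm_num)]
      split_ifs <;> omega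
    · intro x hx
      rw [hDn]
      have hterm : ∀ a : ℕ, ex (a * nm x / (absD (-3) 1 : ℚ)) =
          ex ((nm x : ℚ) / ((11 : ℕ) : ℚ)) ^ a := by
        intro a
        rw [hD, ← ex_nat_mul]
        congr 1
        push_cast
        ring
      rw [Finset.sum_congr rfl (fun a _ => by rw [hterm a]), sum11, htau]
      obtain ⟨y, hy⟩ := nm_cop _ x hx
      rw [hD] at hy
      have hn : 4 * nm x = (2 * x.re + x.im) * (2 * x.re + x.im) + 11 * (x.im * x.im) := by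
        simp only [nm]; ring
      have h1 : nm x % 11 = 1 ∨ nm x % 11 = 3 ∨ nm x % 11 = 4 ∨ nm x % 11 = 5 ∨
          nm x % 11 = 9 := by
        have h2 : (y * nm x) % 11 = 1 := by omega
        have h3 := Int.mul_emod y (nm x) 11
        rw [h2] at h3
        have h4 := Int.mul_emod (2 * x.re + x.im) (2 * x.re + x.im) 11
        have h6 : nm x % 11 ≠ 0 := by
          intro h7
          rw [h7] at h3
          omega
        have h10 : 0 ≤ (2 * x.re + x.im) % 11 ∧ (2 * x.re + x.im) % 11 < 11 := by omega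
        obtain ⟨r, hr⟩ : ∃ r, r = (2 * x.re + x.im) % 11 := ⟨_, rfl⟩
        rw [← hr] at h4 h10
        obtain ⟨h12, h13⟩ := h10
        interval_cases r <;> omega
      rcases h1 with h1 | h1 | h1 | h1 | h1
      · rw [ex_red 11 (by norm_num) (nm x) 1 (by exact_mod_cast h1), ← hζ]
        ring
      · rw [ex_red 11 (by norm_num) (nm x) 3 (by exact_mod_cast h1), ← hζ]
        linear_combination ((1) * ζ ^ 1 + (-1) * ζ ^ 2 + (1) * ζ ^ 4 + (1) * ζ ^ 5 + (-1) * ζ ^ 7 +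
          (-1) * ζ ^ 8 + (-1) * ζ ^ 10 + (-1) * ζ ^ 13 + (1) * ζ ^ 16 + (-1) * ζ ^ 19) * h11
      · rw [ex_red 11 (by norm_num) (nm x) 4 (by exact_mod_cast h1), ← hζ]
        linear_combination ((1) * ζ ^ 1 + (-1) * ζ ^ 2 + (1) * ζ ^ 3 + (1) * ζ ^ 5 + (-1) * ζ ^ 6 +
          (-1) * ζ ^ 7 + (1) * ζ ^ 9 + (-1) * ζ ^ 10 + (-1) * ζ ^ 13 + (1) * ζ ^ 14 +
          (-1) * ζ ^ 17 + (-1) * ζ ^ 18 + (-1) * ζ ^ 21 + (1) * ζ ^ 25 + (-1) * ζ ^ 29) * h11
      · rw [ex_red 11 (by norm_num) (nm x) 5 (by exact_mod_cast h1), ← hζ]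
        linear_combination ((1) * ζ ^ 1 + (-1) * ζ ^ 2 + (1) * ζ ^ 3 + (1) * ζ ^ 4 + (-1) * ζ ^ 6 +
          (-1) * ζ ^ 7 + (-1) * ζ ^ 8 + (1) * ζ ^ 9 + (1) * ζ ^ 12 + (-1) * ζ ^ 13 +
          (1) * ζ ^ 14 + (-1) * ζ ^ 17 + (-1) * ζ ^ 18 + (-1) * ζ ^ 19 + (1) * ζ ^ 23 +
          (-1) * ζ ^ 24 + (-1) * ζ ^ 28 + (-1) * ζ ^ 29 + (1) * ζ ^ 34 + (-1) * ζ ^ 39) * h11
      · rw [ex_red 11 (by norm_num) (nm x) 9 (by exact_mod_cast h1), ← hζ]
        linear_combination ((1) * ζ ^ 1 + (-1) * ζ ^ 2 + (1) * ζ ^ 3 + (1) * ζ ^ 4 + (1) * ζ ^ 5 +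
          (-1) * ζ ^ 6 + (-1) * ζ ^ 7 + (-1) * ζ ^ 8 + (-1) * ζ ^ 10 + (1) * ζ ^ 12 +
          (-1) * ζ ^ 13 + (1) * ζ ^ 14 + (1) * ζ ^ 15 + (1) * ζ ^ 16 + (-1) * ζ ^ 17 +
          (-1) * ζ ^ 19 + (-1) * ζ ^ 21 + (1) * ζ ^ 23 + (-1) * ζ ^ 24 + (1) * ζ ^ 25 +
          (1) * ζ ^ 26 + (-1) * ζ ^ 28 + (-1) * ζ ^ 30 + (-1) * ζ ^ 32 + (1) * ζ ^ 34 +
          (-1) * ζ ^ 35 + (1) * ζ ^ 37 + (-1) * ζ ^ 39 + (-1) * ζ ^ 41 + (-1) * ζ ^ 43 +
          (-1) * ζ ^ 46 + (1) * ζ ^ 48 + (-1) * ζ ^ 50 + (-1) * ζ ^ 52 + (-1) * ζ ^ 57 +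
          (1) * ζ ^ 59 + (-1) * ζ ^ 61 + (-1) * ζ ^ 68 + (1) * ζ ^ 70 + (-1) * ζ ^ 79) * h11

end Pool.Agent.MU3F


end

section

/-!
# MU3, block FH: module U3 (helper26)
-/

set_option autoImplicit false

namespace Pool.Agent.MU3F

open _root_.MU3 _root_.Pool.Agent.MU3A _root_.Pool.Agent.MU3B _root_.Pool.Agent.MuSym OnePoint
open scoped ComplexConjugate

noncomputable section

namespace FU3

/-- the sum of the three exponentials -/
theorem geom3 (n : ℤ) (z : ℂ) :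
    ∑ j ∈ Finset.range 3, Complex.exp (2 * Real.pi * Complex.I * (n : ℂ) * ((z + j) / 3)) =
      if (3 : ℤ) ∣ n then 3 * Complex.exp (2 * Real.pi * Complex.I * (n : ℂ) * (z / 3)) else 0 := by
  set ω : ℂ := Complex.exp (2 * Real.pi * Complex.I * (n : ℂ) / 3) with hω
  have h1 : ∀ j : ℕ, Complex.exp (2 * Real.pi * Complex.I * (n : ℂ) * ((z + j) / 3)) =
      Complex.exp (2 * Real.pi * Complex.I * (n : ℂ) * (z / 3)) * ω ^ j := by
    intro j
    rw [hω, ← Complex.exp_nat_mul, ← Complex.exp_add]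
    congr 1
    ring
  simp only [h1, ← Finset.mul_sum]
  have h3 : ω ^ 3 = 1 := by
    rw [hω, ← Complex.exp_nat_mul, Complex.exp_eq_one_iff]
    exact ⟨n, by push_cast; ring⟩
  have hpi : (2 * Real.pi * Complex.I : ℂ) ≠ 0 := by
    have : (Real.pi : ℂ) ≠ 0 := Complex.ofReal_ne_zero.2 Real.pi_ne_zero
    simp [this]
  by_cases h : (3 : ℤ) ∣ n
  · rw [if_pos h]
    obtain ⟨k, rfl⟩ := h
    have : ω = 1 := by
      rw [hω, Complex.exp_eq_one_iff]
      exact ⟨k, by push_cast; ring⟩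
    rw [this]
    simp
    ring
  · rw [if_neg h]
    have hne : ω ≠ 1 := by
      intro h1
      rw [hω, Complex.exp_eq_one_iff] at h1
      obtain ⟨k, hk⟩ := h1
      apply h
      refine ⟨k, ?_⟩
      have h2 : (2 * Real.pi * Complex.I : ℂ) * n = (2 * Real.pi * Complex.I : ℂ) * (3 * k) := by
        linear_combination 3 * hk
      have h3 := mul_left_cancel₀ hpi h2
      exact_mod_cast h3
    have h4 : ∑ i ∈ Finset.range 3, ω ^ i = 0 := by
      have h5 : (ω - 1) * ∑ i ∈ Finset.range 3, ω ^ i = 0 := by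
        simp only [Finset.sum_range_succ, Finset.sum_range_zero]
        linear_combination h3
      rcases mul_eq_zero.1 h5 with h6 | h6
      · exact absurd (sub_eq_zero.1 h6) hne
      · exact h6
    rw [h4, mul_zero]

end FU3

open _root_.Pool.Agent.MU3F.FU3 in
theorem tf_U3 (hALG : Sf_ALG) (hBDD : Sf_BDD) (hTSM : Sf_TSM) : Sf_U3 := by
  intro A B hc g e hg he hpg z hz
  obtain ⟨hA1, hA2, hA3, -, hA5, -⟩ := hALG A B hc
  obtain ⟨-, C, -, hC⟩ := hBDD A B hc g e hg he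
  have hS := hTSM A B hc e C hC
  have him : ∀ j : ℕ, 0 < ((z + j) / 3).im := by
    intro j
    have : ((z + j) / 3).im = z.im / 3 := by
      rw [show (z + j) / 3 = ((1 / 3 : ℝ) : ℂ) * (z + j) by push_cast; ring, Complex.im_ofReal_mul]
      simp
      ring
    rw [this]
    positivity
  set G : OO A B → ℂ := fun x => ∑ j ∈ Finset.range 3, e x * conj (emb x) *
    Complex.exp (2 * Real.pi * Complex.I * (nm x : ℂ) * ((z + j) / 3)) with hG
  have hGx : ∀ x, G x = e x * conj (emb x) * (if (3 : ℤ) ∣ nm x then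
      3 * Complex.exp (2 * Real.pi * Complex.I * (nm x : ℂ) * (z / 3)) else 0) := by
    intro x
    rw [hG]
    simp only
    rw [← Finset.mul_sum, geom3]
  have h1 : ∑ j ∈ Finset.range 3, theta e ((z + j) / 3) = (1 / 2) * ∑' x, G x := by
    unfold theta
    rw [← Finset.mul_sum]
    congr 1
    rw [hG, ← Summable.tsum_finsetSum]
    intro j _
    exact hS _ (him j)
  have hp0 : ppi A B ≠ 0 := by
    intro h0
    have := congrArg QuadraticAlgebra.im h0
    simp [ppi] at this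
  have hinj : Function.Injective (fun y : OO A B => ppi A B * y) := by
    intro x y hxy
    simp only at hxy
    have h2 := congrArg emb hxy
    rw [(hA1 _ _).1, (hA1 _ _).1] at h2
    refine emb_inj hc (mul_left_cancel₀ ?_ h2)
    intro h3
    exact hp0 ((hA2 _).1.1 h3)
  have hsupp : Function.support G ⊆ Set.range (fun y : OO A B => ppi A B * y) := by
    intro x hx
    rw [Function.mem_support, hGx] at hx
    have hex : e x ≠ 0 := by
      intro h0; apply hx; rw [h0]; ring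
    have h3 : (3 : ℤ) ∣ nm x := by
      by_contra h0; apply hx; rw [if_neg h0, mul_zero]
    have hcop : IsCoprime x (star (ppi A B)) := by
      obtain ⟨c, hc'⟩ := hpg
      have := (he.supp x).1 hex
      rw [hc'] at this
      exact this.of_mul_right_left
    have hcop2 : IsCoprime (ppi A B) (star x) := by
      obtain ⟨a, b, hab⟩ := hcop
      refine ⟨star b, star a, ?_⟩
      have := congrArg star hab
      rw [star_add, star_mul', star_mul', star_star, star_one] at this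
      rw [← this]; ring
    have hdvd : ppi A B ∣ x * star x := by
      rw [(hA2 x).2.2.1]
      obtain ⟨k, hk⟩ := h3
      rw [hk]
      push_cast
      rw [← hA5, mul_assoc]
      exact dvd_mul_right _ _
    obtain ⟨y, hy⟩ := hcop2.dvd_of_dvd_mul_right hdvd
    exact ⟨y, hy.symm⟩
  have h2 : ∑' x, G x = ∑' y, G (ppi A B * y) := (hinj.tsum_eq hsupp).symm
  have h3 : ∀ y, G (ppi A B * y) = 3 * (e (ppi A B) * conj (emb (ppi A B))) * (e y * conj (emb y) *
      Complex.exp (2 * Real.pi * Complex.I * (nm y : ℂ) * z)) := by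
    intro y
    have hn : nm (ppi A B * y) = 3 * nm y := by
      rw [(hA1 _ _).2.2, nm_ppi hc]
    rw [hGx, hn, if_pos (dvd_mul_right _ _), he.mul, (hA1 _ _).1, map_mul]
    have : (2 * Real.pi * Complex.I * ((3 * nm y : ℤ) : ℂ) * (z / 3)) = 2 * Real.pi * Complex.I * (nm y : ℂ) * z := by
      push_cast; ring
    rw [this]
    ring
  rw [h1, h2]
  simp only [h3]
  rw [tsum_mul_left]
  unfold theta
  ring

end

end Pool.Agent.MU3F


end
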