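import Mathlib
import Pool.Agent.MVF.C008
import Pool.Agent.MVF.C014
import Pool.Agent.MVF.C025
import Pool.Agent.MVF.C031
import Pool.Agent.MVF.C033
import Pool.Agent.MVF.C042
import Pool.Agent.MVF.C074
import Pool.Agent.MVF.C075

/-! Parts: MUX.Y_SAM, MUX.F_UL, MUX.F_UH, MU3.F_TSM, MUX.F_TSM, MU3.F_THD, MUX.F_THD, MUX.F_SMB, MUX.F_REC, MUX.F_QB, MUX.F_PRJ, MUX.F_PRI, MUX.F_PRD, MUX.F_PHX, MUX.F_LCN, MUX.F_ITG, MUX.F_HU, MUX.F_F7, MU3.F_F5, MUX.F_F5, MUX.F_F4, MUX.F_DCM, MUX.F_CNV, MUX.F_CHI, MU3.F_F8, MU3.F_TWD, MU3.F_FG, MU3.F_PRD, MU3.F_F5S, MU3.F_F4, MU3.F_DCM, MU3.F_BDD, MU3.F_SM, MU3.F_ALG, MU3.FAll, MUX.XFAll, NS.RN_UNR, MUX.Y_RAT, MUX.Y_PR4, MUX.Y_IDF, MUX.Y_ALP, MUX.StYR, MUX.Y_ALQ, MUX.Y_REX, MUX.Y_NLE, MUX.Y_FCL, MUX.Y_DVI, MUX.Y_CPD, MUX.Y_CLN -/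

namespace Pool.Agent.MU3F.AlgF
end Pool.Agent.MU3F.AlgF
namespace Pool.Agent.MU3F.F5aux
end Pool.Agent.MU3F.F5aux
namespace Pool.Agent.MU3F.Fg
end Pool.Agent.MU3F.Fg
namespace Pool.Agent.MU3F.THD
end Pool.Agent.MU3F.THD
namespace Pool.Agent.MU3F.Tsm
end Pool.Agent.MU3F.Tsm
namespace Pool.Agent.MUXF.CHI
end Pool.Agent.MUXF.CHI
namespace Pool.Agent.MUXF.F5x
end Pool.Agent.MUXF.F5x
namespace Pool.Agent.MUXF.FUL
end Pool.Agent.MUXF.FUL
namespace Pool.Agent.MUXF.HU
end Pool.Agent.MUXF.HU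
namespace Pool.Agent.MUXF.LcnAux
end Pool.Agent.MUXF.LcnAux
namespace Pool.Agent.MUXF.PRIaux
end Pool.Agent.MUXF.PRIaux
namespace Pool.Agent.MUXF.QBaux
end Pool.Agent.MUXF.QBaux
namespace Pool.Agent.MUXF.REC
end Pool.Agent.MUXF.REC
namespace Pool.Agent.MUXF.THDX
end Pool.Agent.MUXF.THDX
namespace Pool.Agent.MUXF.TsmX
end Pool.Agent.MUXF.TsmX
namespace Pool.Agent.MUXF.UHaux
end Pool.Agent.MUXF.UHaux
namespace Pool.Agent.MUXY.IdfY
end Pool.Agent.MUXY.IdfY
namespace Pool.Agent.MUXY.RDVI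
end Pool.Agent.MUXY.RDVI
namespace Pool.Agent.MUXY.RFCL
end Pool.Agent.MUXY.RFCL
namespace Pool.Agent.MUXY.Y_ALP
end Pool.Agent.MUXY.Y_ALP
namespace Pool.Agent.NSR.UNR
end Pool.Agent.NSR.UNR

section

/-!
# MUX, section 9, module SAM: normalised lattices of the same class are equal
-/

set_option autoImplicit false

namespace Pool.Agent.MUXY

open _root_.MU3 _root_.Pool.Agent.MU3A _root_.Pool.Agent.MU3B _root_.Pool.Agent.MUXU OnePoint
open _root_.Pool.Agent.MU3F (ex)
open _root_.Pool.Agent.MUXF (Sx_ALG Sx_IDL Sx_NIM Sx_QB Sx_SMB Sx_F4 qb sumB)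

/-- normalised lattices of the same class are equal -/
theorem ty_SAM (h1 : Sx_ALG) : Sy_SAM := by
  intro A B hc b b' L L' om om' x y hL hL' hx hy hxy
  obtain ⟨a1, a2, -, -, -⟩ := h1 A B (cqF hc)
  have emul : ∀ u v : OO A B, emb (u * v) = emb u * emb v := fun u v => (a1 u v).1
  have ex0 : emb x ≠ 0 := fun h => hx ((a2 x).1.1 h)
  have ey0 : emb y ≠ 0 := fun h => hy ((a2 y).1.1 h)
  have om0 := hL.om_ne
  have om0' := hL'.om_ne
  set s : ℂ := om * emb y / (emb x * om') with hs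
  have hs0 : s ≠ 0 := div_ne_zero (mul_ne_zero om0 ey0) (mul_ne_zero ex0 om0')
  -- `z ∈ L'` iff `s z ∈ L`
  have key : ∀ z : ℂ, z ∈ L'.lattice ↔ s * z ∈ L.lattice := by
    intro z
    rw [hL'.mem, hL.mem]
    constructor
    · rintro ⟨t', ht', rfl⟩
      have h2 : y * t' ∈ MUX.sp x * b := by
        rw [hxy]
        exact Ideal.mul_mem_mul (Ideal.mem_span_singleton_self y) ht'
      obtain ⟨t, ht, h3⟩ := Ideal.mem_span_singleton_mul.1 h2
      refine ⟨t, ht, ?_⟩
      have h4 : emb x * emb t = emb y * emb t' := by rw [← emul, ← emul, h3]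
      rw [hs]
      field_simp
      linear_combination -h4
    · rintro ⟨t, ht, h2⟩
      have h3 : x * t ∈ MUX.sp y * b' := by
        rw [← hxy]
        exact Ideal.mul_mem_mul (Ideal.mem_span_singleton_self x) ht
      obtain ⟨t', ht', h4⟩ := Ideal.mem_span_singleton_mul.1 h3
      refine ⟨t', ht', ?_⟩
      have h5 : emb y * emb t' = emb x * emb t := by rw [← emul, ← emul, h4]
      have h6 : om * emb y * z = om * (emb x * om') * emb t := by
        have h7 : s * (emb x * om') = om * emb y := by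
          rw [hs]
          field_simp
        calc om * emb y * z = s * (emb x * om') * z := by rw [h7]
          _ = s * z * (emb x * om') := by ring
          _ = om * emb t * (emb x * om') := by rw [h2]
          _ = om * (emb x * om') * emb t := by ring
      have h8 : (om * emb y) * (z - om' * emb t') = 0 := by
        linear_combination h6 - om * om' * h5
      rcases mul_eq_zero.1 h8 with h9 | h9
      · exact absurd h9 (mul_ne_zero om0 ey0)
      · exact sub_eq_zero.1 h9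
  obtain ⟨-, -, g2, g3⟩ := ta_SCP L' L s hs0 key
  have n1 := hL.nrm
  have n2 := hL'.nrm
  have hd := (b_DSC L').1
  have hg2 : L'.g₂ ≠ 0 := by
    intro h0
    rw [h0] at n2
    have h3 : L'.g₃ = 0 := by
      have : (-18 : ℂ) * L'.g₃ = 0 := n2.symm
      rcases mul_eq_zero.1 this with h | h
      · norm_num at h
      · exact h
    apply hd
    rw [h0, h3]
    norm_num
  have hss : s ^ 2 = 1 := by
    rw [g2, g3] at n1
    have h4 : L'.g₂ * s ^ 2 = L'.g₂ := by
      have h5 : L'.g₂ / s ^ 4 * s ^ 6 = -18 * (L'.g₃ / s ^ 6) * s ^ 6 := by rw [n1]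
      have h6 : L'.g₂ / s ^ 4 * s ^ 6 = L'.g₂ * s ^ 2 := by
        field_simp
      have h7 : -18 * (L'.g₃ / s ^ 6) * s ^ 6 = -18 * L'.g₃ := by
        field_simp
      rw [← h6, h5, h7, ← n2]
    exact mul_left_cancel₀ hg2 (by rw [h4, mul_one])
  have hpm : s = 1 ∨ s = -1 := sam_pm hss
  intro z
  rw [key z]
  rcases hpm with h | h
  · rw [h, one_mul]
  · rw [h, neg_one_mul, neg_mem_iff]
where
  sam_pm {s : ℂ} (h : s ^ 2 = 1) : s = 1 ∨ s = -1 := by
    have h1 : (s - 1) * (s + 1) = 0 := by linear_combination h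
    rcases mul_eq_zero.1 h1 with h2 | h2
    · exact Or.inl (sub_eq_zero.1 h2)
    · exact Or.inr (eq_neg_of_add_eq_zero_left h2)

end Pool.Agent.MUXY


end

section

/-!
# MUX, block XF: module UL, the operator `U_l` on the theta series of ideals (helper76)

The model is `MU3/F_U3.lean` (helper26).
-/

set_option autoImplicit false

namespace Pool.Agent.MUXF

open _root_.MU3 _root_.Pool.Agent.MU3A _root_.Pool.Agent.MU3B _root_.Pool.Agent.MU3F _root_.Pool.Agent.MuSym OnePoint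
open scoped ComplexConjugate

noncomputable section

namespace FUL

/-- the sum of the exponentials -/
theorem geom {l : ℕ} (hl : l ≠ 0) (n : ℤ) (z : ℂ) :
    ∑ j ∈ Finset.range l, Complex.exp (2 * Real.pi * Complex.I * (n : ℂ) * ((z + j) / l)) =
      if (l : ℤ) ∣ n then l * Complex.exp (2 * Real.pi * Complex.I * (n : ℂ) * (z / l)) else 0 := by
  have hl0 : (l : ℂ) ≠ 0 := Nat.cast_ne_zero.2 hl
  set ω : ℂ := Complex.exp (2 * Real.pi * Complex.I * (n : ℂ) / l) with hω
  have h1 : ∀ j : ℕ, Complex.exp (2 * Real.pi * Complex.I * (n : ℂ) * ((z + j) / l)) =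
      Complex.exp (2 * Real.pi * Complex.I * (n : ℂ) * (z / l)) * ω ^ j := by
    intro j
    rw [hω, ← Complex.exp_nat_mul, ← Complex.exp_add]
    congr 1
    ring
  simp only [h1, ← Finset.mul_sum]
  have h3 : ω ^ l = 1 := by
    rw [hω, ← Complex.exp_nat_mul, Complex.exp_eq_one_iff]
    refine ⟨n, ?_⟩
    rw [mul_div_cancel₀ _ hl0]
    ring
  have hpi : (2 * Real.pi * Complex.I : ℂ) ≠ 0 := by
    have : (Real.pi : ℂ) ≠ 0 := Complex.ofReal_ne_zero.2 Real.pi_ne_zero
    simp [this]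
  by_cases h : (l : ℤ) ∣ n
  · rw [if_pos h]
    obtain ⟨k, rfl⟩ := h
    have : ω = 1 := by
      rw [hω, Complex.exp_eq_one_iff]
      refine ⟨k, ?_⟩
      push_cast
      field_simp
    rw [this]
    simp only [one_pow, Finset.sum_const, Finset.card_range, nsmul_eq_mul, mul_one]
    ring
  · rw [if_neg h]
    have hne : ω ≠ 1 := by
      intro h1
      rw [hω, Complex.exp_eq_one_iff] at h1
      obtain ⟨k, hk⟩ := h1
      apply h
      refine ⟨k, ?_⟩
      have h2 : (2 * Real.pi * Complex.I : ℂ) * n = (2 * Real.pi * Complex.I : ℂ) * (l * k) := by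
        rw [div_eq_iff hl0] at hk
        rw [hk]
        ring
      have h3 := mul_left_cancel₀ hpi h2
      exact_mod_cast h3
    have h4 : ∑ i ∈ Finset.range l, ω ^ i = 0 := by
      have h5 : (ω - 1) * ∑ i ∈ Finset.range l, ω ^ i = 0 := by
        rw [mul_geom_sum, h3, sub_self]
      rcases mul_eq_zero.1 h5 with h6 | h6
      · exact absurd (sub_eq_zero.1 h6) hne
      · exact h6
    rw [h4, mul_zero]

end FUL

open _root_.Pool.Agent.MUXF.FUL in
theorem tx_UL (hALG : Sx_ALG) (hQB : Sx_QB) (hLCN : Sx_LCN) (hBDD : Sx_BDD) (hTSM : Sx_TSM) :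
    Sx_UL := by
  intro A B hc b g P e l hb hg he hP hPl hl hgP z hz
  obtain ⟨-, -, -, hfin, -⟩ := hALG A B hc
  obtain ⟨hQ1, -, -⟩ := hQB A B hc b hb
  obtain ⟨-, -, hN, hq, hL⟩ := hLCN A B hc b P l hb hP hPl hl
  obtain ⟨-, C, -, hC⟩ := hBDD A B hc g e hg he
  have hS := hTSM A B hc b hb e C hC
  have hl0 : (l : ℂ) ≠ 0 := Nat.cast_ne_zero.2 hl.ne_zero
  have hlpos : (0 : ℝ) < l := Nat.cast_pos.2 hl.pos
  have hnb : nI b ≠ 0 := by
    have := hfin b hb
    exact (Nat.card_pos (α := OO A B ⧸ b)).ne'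
  have hnb0 : (nI b : ℂ) ≠ 0 := Nat.cast_ne_zero.2 hnb
  have him : ∀ j : ℕ, 0 < ((z + j) / l).im := by
    intro j
    have : ((z + j) / l).im = z.im / l := by
      rw [show (z + j) / l = ((1 / l : ℝ) : ℂ) * (z + j) by push_cast; ring, Complex.im_ofReal_mul]
      simp
      ring
    rw [this]
    positivity
  have hnm : ∀ x : b, ((nm (x : OO A B) : ℂ) / nI b) = ((qb b (x : OO A B) : ℤ) : ℂ) := by
    intro x
    rw [(hQ1 x x.2).1]
    push_cast
    field_simp
  set G : b → ℂ := fun x => ∑ j ∈ Finset.range l, e x * conj (emb (x : OO A B)) *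
    Complex.exp (2 * Real.pi * Complex.I * ((nm (x : OO A B) : ℂ) / nI b) * ((z + j) / l)) with hG
  have hGx : ∀ x : b, G x = e x * conj (emb (x : OO A B)) * (if (l : ℤ) ∣ qb b (x : OO A B) then
      l * Complex.exp (2 * Real.pi * Complex.I * ((qb b (x : OO A B) : ℤ) : ℂ) * (z / l))
      else 0) := by
    intro x
    rw [hG]
    simp only [hnm]
    rw [← Finset.mul_sum, geom hl.ne_zero]
  have h1 : ∑ j ∈ Finset.range l, thetaI b e ((z + j) / l) = (1 / 2) * ∑' x, G x := by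
    unfold thetaI
    rw [← Finset.mul_sum]
    congr 1
    rw [hG, ← Summable.tsum_finsetSum]
    intro j _
    exact hS _ (him j)
  have hle : b * P ≤ b := Ideal.mul_le_left
  set ι : ↥(b * P) → b := fun y => ⟨y.1, hle y.2⟩ with hι
  have hinj : Function.Injective ι := by
    intro x y hxy
    have := congrArg Subtype.val hxy
    exact Subtype.ext this
  have hcj : cjI P ≠ ⊤ := by
    intro h0
    apply hP.ne_top
    rw [Ideal.eq_top_iff_one] at h0 ⊢
    have h2 : starRingEnd (OO A B) 1 ∈ P := h0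
    rwa [map_one] at h2
  have hsupp : Function.support G ⊆ Set.range ι := by
    intro x hx
    rw [Function.mem_support, hGx] at hx
    have hex : e x ≠ 0 := by
      intro h0; apply hx; rw [h0]; ring
    have h3 : (l : ℤ) ∣ qb b (x : OO A B) := by
      by_contra h0; apply hx; rw [if_neg h0, mul_zero]
    rcases hL x x.2 h3 with h4 | h4
    · exact ⟨⟨x.1, h4⟩, Subtype.ext rfl⟩
    · exfalso
      have h5 := (he.supp x).1 hex
      rw [Ideal.isCoprime_iff_sup_eq] at h5
      apply hcj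
      rw [eq_top_iff, ← h5]
      refine sup_le ?_ hgP
      rw [Ideal.span_singleton_le_iff_mem]
      exact Ideal.mul_le_right h4
  have h2 : ∑' x, G x = ∑' y, G (ι y) := (hinj.tsum_eq hsupp).symm
  have h3 : ∀ y : ↥(b * P), G (ι y) = l * (e y * conj (emb (y : OO A B)) *
      Complex.exp (2 * Real.pi * Complex.I * ((nm (y : OO A B) : ℂ) / nI (b * P)) * z)) := by
    intro y
    have h4 := hq y y.2
    have h5 : ((nm (y : OO A B) : ℂ) / nI (b * P)) = ((qb (b * P) (y : OO A B) : ℤ) : ℂ) := by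
      rw [(hQ1 y (hle y.2)).1, h4, hN]
      push_cast
      field_simp
    rw [hGx]
    have h6 : qb b ((ι y : b) : OO A B) = l * qb (b * P) (y : OO A B) := h4
    rw [h6, if_pos (dvd_mul_right _ _), h5]
    have h7 : 2 * Real.pi * Complex.I * (((l : ℤ) * qb (b * P) (y : OO A B) : ℤ) : ℂ) * (z / l) =
        2 * Real.pi * Complex.I * ((qb (b * P) (y : OO A B) : ℤ) : ℂ) * z := by
      push_cast
      field_simp
    rw [h7]
    ring
  rw [h1, h2]
  simp only [h3]
  rw [tsum_mul_left]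
  unfold thetaI
  ring

end

end Pool.Agent.MUXF


end

section

/-!
# MUX, block XF: the symbol is an eigensymbol of a power of the Hecke operator (module UH)
-/

set_option autoImplicit false

namespace Pool.Agent.MUXF

open _root_.MU3 _root_.Pool.Agent.MU3A _root_.Pool.Agent.MU3B _root_.Pool.Agent.MU3F _root_.Pool.Agent.MuSym OnePoint
open scoped ComplexConjugate

noncomputable section

namespace UHaux

/-- `P ≠ ⊥`, as `⊥ ≠ g ≤ cjI P`. -/
theorem ne_bot_of_le {A B : ℤ} {g P : Ideal (OO A B)} (hg : g ≠ ⊥) (h : g ≤ cjI P) : P ≠ ⊥ := by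
  rintro rfl
  apply hg
  rw [eq_bot_iff]
  intro x hx
  have h1 : (starRingEnd (OO A B)) x ∈ (⊥ : Ideal (OO A B)) := h hx
  rw [Ideal.mem_bot, starRingEnd_apply, star_eq_zero] at h1
  rw [h1]
  exact Ideal.zero_mem _

end UHaux

open _root_.Pool.Agent.MUXF.UHaux in
theorem tx_UH (h2 : Sx_NIM) (h3 : Sx_HU) (h4 : Sx_PRI) : Sx_UH := by
  intro A B hAB b g P e l hb hg he hP hPl hl hgP
  have hP0 : P ≠ ⊥ := ne_bot_of_le hg hgP
  have hbP : ∀ n : ℕ, b * P ^ n ≠ ⊥ := by
    intro n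
    induction n with
    | zero => simpa using hb
    | succ n ih =>
      rw [pow_succ, ← mul_assoc]
      exact ((h2 A B hAB).1 _ _ ih hP0).2
  have key : ∀ n : ℕ, (hecke l (nuQ e))^[n] (PhiI b e) = PhiI (b * P ^ n) e := by
    intro n
    induction n with
    | zero => simp
    | succ n ih =>
      rw [Function.iterate_succ_apply', ih]
      funext x y
      rw [(h3 A B hAB (b * P ^ n) g P e l (hbP n) hg he hP hPl hl hgP).2 x y, pow_succ, mul_assoc]
  refine ⟨key, fun h a ha hh x y => ?_⟩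
  rw [key, hh, mul_comm b (sp a)]
  exact (h4 A B hAB b g e a hb he ha).2 x y

end

end Pool.Agent.MUXF


end

section

/-!
# MU3, block FH: summability of the theta series (TSM)
-/

set_option autoImplicit false

namespace Pool.Agent.MU3F

open _root_.MU3

open scoped ComplexConjugate

noncomputable section

namespace Tsm

variable {A B : ℤ}

theorem bnd (t c : ℝ) (ht : 0 ≤ t) (hc : 0 < c) :
    Real.sqrt t * Real.exp (-(2 * c * t)) ≤ (1 + 1 / c) * Real.exp (-(c * t)) := by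
  have h1 : Real.sqrt t ≤ 1 + t := by
    rw [Real.sqrt_le_left (by linarith)]
    nlinarith
  have h2 : c * t ≤ Real.exp (c * t) := by
    have := Real.add_one_le_exp (c * t)
    linarith
  have h3 : 1 + t ≤ (1 + 1 / c) * Real.exp (c * t) := by
    have h4 : 1 ≤ Real.exp (c * t) := Real.one_le_exp (by positivity)
    have h5 : t = 1 / c * (c * t) := by field_simp
    have h6 : 1 / c * (c * t) ≤ 1 / c * Real.exp (c * t) :=
      mul_le_mul_of_nonneg_left h2 (by positivity)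
    rw [add_mul, one_mul]
    linarith
  have h4 : Real.exp (-(2 * c * t)) = Real.exp (-(c * t)) * Real.exp (-(c * t)) := by
    rw [← Real.exp_add]; congr 1; ring
  have h5 : Real.exp (c * t) * Real.exp (-(c * t)) = 1 := by
    rw [← Real.exp_add]; simp
  have h6 := Real.exp_pos (-(c * t))
  calc Real.sqrt t * Real.exp (-(2 * c * t))
      ≤ ((1 + 1 / c) * Real.exp (c * t)) * Real.exp (-(2 * c * t)) :=
        mul_le_mul_of_nonneg_right (le_trans h1 h3) (Real.exp_pos _).le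
    _ = (1 + 1 / c) * (Real.exp (c * t) * Real.exp (-(c * t))) * Real.exp (-(c * t)) := by
        rw [h4]; ring
    _ = (1 + 1 / c) * Real.exp (-(c * t)) := by rw [h5, mul_one]

end Tsm

open _root_.Pool.Agent.MU3F.Tsm in
/-- (TSM) -/
theorem tf_TSM : Sf_TSM := by
  intro A B h e C he z hz
  have hpi := Real.pi_pos
  have hc : 0 < Real.pi * z.im / 4 := by positivity
  have h1 := MU3B.PoiAux.gsum2 hc hc 0 0
  have h2 : Summable fun x : OO A B => Real.exp (-(Real.pi * z.im / 4 * (x.re : ℝ) ^ 2)) *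
      Real.exp (-(Real.pi * z.im / 4 * (x.im : ℝ) ^ 2)) := by
    have h3 := (QuadraticAlgebra.equivProd A B).summable_iff.2 h1
    refine h3.congr fun x => ?_
    simp [QuadraticAlgebra.equivProd]
  have hC : 0 ≤ C := le_trans (norm_nonneg _) (he 0)
  refine Summable.of_norm_bounded (h2.mul_left (C * (1 + 1 / (Real.pi * z.im)))) fun x => ?_
  have h3 : ‖Complex.exp (2 * Real.pi * Complex.I * (nm x : ℂ) * z)‖ =
      Real.exp (-(2 * (Real.pi * z.im) * (nm x : ℝ))) := by
    rw [Complex.norm_exp]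
    congr 1
    have h5 : (2 * Real.pi * Complex.I * (nm x : ℂ) * z) =
        ((2 * Real.pi * (nm x : ℝ) : ℝ) : ℂ) * (Complex.I * z) := by
      push_cast; ring
    rw [h5, Complex.re_ofReal_mul]
    simp
    ring
  have h4 : ‖emb x‖ = Real.sqrt (nm x : ℝ) := by
    rw [MU3G.G7.norm_sq h x, Real.sqrt_sq (norm_nonneg _)]
  have h5 : (0 : ℝ) ≤ (nm x : ℝ) := by exact_mod_cast MU3G.G0.nm_nonneg h x
  rw [norm_mul, norm_mul, RCLike.norm_conj, h3, h4, mul_assoc]
  have h6 := bnd (nm x : ℝ) (Real.pi * z.im) h5 (by positivity)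
  have h7 : Real.exp (-(Real.pi * z.im * (nm x : ℝ))) ≤
      Real.exp (-(Real.pi * z.im / 4 * (x.re : ℝ) ^ 2)) *
        Real.exp (-(Real.pi * z.im / 4 * (x.im : ℝ) ^ 2)) := by
    rw [← Real.exp_add]
    apply Real.exp_le_exp.2
    obtain ⟨b1, b2⟩ := MU3G.G2.bd h x
    have b1' : (x.re : ℝ) ^ 2 ≤ 2 * (nm x : ℝ) := by exact_mod_cast b1
    have b2' : (x.im : ℝ) ^ 2 ≤ 2 * (nm x : ℝ) := by exact_mod_cast b2
    nlinarith [mul_le_mul_of_nonneg_left b1' hc.le, mul_le_mul_of_nonneg_left b2' hc.le]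
  have h8 : 0 ≤ 1 + 1 / (Real.pi * z.im) := by positivity
  calc ‖e x‖ * (Real.sqrt (nm x : ℝ) * Real.exp (-(2 * (Real.pi * z.im) * (nm x : ℝ))))
      ≤ C * ((1 + 1 / (Real.pi * z.im)) * Real.exp (-(Real.pi * z.im * (nm x : ℝ)))) :=
        mul_le_mul (he x) h6 (by positivity) hC
    _ ≤ C * ((1 + 1 / (Real.pi * z.im)) * (Real.exp (-(Real.pi * z.im / 4 * (x.re : ℝ) ^ 2)) *
        Real.exp (-(Real.pi * z.im / 4 * (x.im : ℝ) ^ 2)))) :=
        mul_le_mul_of_nonneg_left (mul_le_mul_of_nonneg_left h7 h8) hC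
    _ = _ := by ring

end

end Pool.Agent.MU3F


end

section

/-!
# MUX, block XF: summability of the theta series of an ideal (TSM) (helper65)
-/

set_option autoImplicit false

namespace Pool.Agent.MUXF

open _root_.MU3 _root_.Pool.Agent.MU3A _root_.Pool.Agent.MU3B _root_.Pool.Agent.MU3F _root_.Pool.Agent.MuSym OnePoint
open scoped ComplexConjugate

noncomputable section

namespace TsmX

/-- the norm form dominates the sum of squares -/
theorem bd {A B : ℤ} (h : CQ A B) (x : OO A B) :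
    (x.re : ℝ) ^ 2 + (x.im : ℝ) ^ 2 ≤ (4 * |(A : ℝ)| + 4) * (nm x : ℝ) := by
  have hneg : ((B : ℝ) ^ 2 + 4 * (A : ℝ)) ≤ -1 := by
    have h1 : B ^ 2 + 4 * A ≤ -1 := by
      have := h.neg
      omega
    exact_mod_cast h1
  have hA : (A : ℝ) < 0 := by nlinarith [sq_nonneg (B : ℝ)]
  have e : (nm x : ℝ) = (x.re : ℝ) ^ 2 + B * x.re * x.im - A * (x.im : ℝ) ^ 2 := by
    simp [nm]
  rw [e, abs_of_neg hA]
  have h1 : (x.im : ℝ) ^ 2 ≤ 4 * ((x.re : ℝ) ^ 2 + B * x.re * x.im - A * (x.im : ℝ) ^ 2) := by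
    nlinarith [sq_nonneg (2 * (x.re : ℝ) + B * x.im), sq_nonneg (x.im : ℝ)]
  have h2 : (x.re : ℝ) ^ 2 ≤
      (4 * -(A : ℝ)) * ((x.re : ℝ) ^ 2 + B * x.re * x.im - A * (x.im : ℝ) ^ 2) := by
    nlinarith [sq_nonneg (2 * (A : ℝ) * x.im - B * x.re), sq_nonneg (x.re : ℝ)]
  linarith

/-- summability over the whole ring -/
theorem whole {A B : ℤ} (h : CQ A B) (h1 : Sx_ALG) (e : OO A B → ℂ) (C : ℝ)
    (he : ∀ x, ‖e x‖ ≤ C) (z : ℂ) (hz : 0 < z.im) :
    Summable (fun x : OO A B => e x * conj (emb x) *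
      Complex.exp (2 * Real.pi * Complex.I * (nm x : ℂ) * z)) := by
  obtain ⟨-, a2, -, -, -⟩ := h1 A B h
  have hpi := Real.pi_pos
  set K : ℝ := 4 * |(A : ℝ)| + 4 with hK
  have hK0 : 0 < K := by positivity
  have hc : 0 < Real.pi * z.im / K := by positivity
  have h1 := MU3B.PoiAux.gsum2 hc hc 0 0
  have h2 : Summable fun x : OO A B => Real.exp (-(Real.pi * z.im / K * (x.re : ℝ) ^ 2)) *
      Real.exp (-(Real.pi * z.im / K * (x.im : ℝ) ^ 2)) := by
    have h3 := (QuadraticAlgebra.equivProd A B).summable_iff.2 h1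
    refine h3.congr fun x => ?_
    simp [QuadraticAlgebra.equivProd]
  have hC : 0 ≤ C := le_trans (norm_nonneg _) (he 0)
  refine Summable.of_norm_bounded (h2.mul_left (C * (1 + 1 / (Real.pi * z.im)))) fun x => ?_
  have h3 : ‖Complex.exp (2 * Real.pi * Complex.I * (nm x : ℂ) * z)‖ =
      Real.exp (-(2 * (Real.pi * z.im) * (nm x : ℝ))) := by
    rw [Complex.norm_exp]
    congr 1
    have h5 : (2 * Real.pi * Complex.I * (nm x : ℂ) * z) =
        ((2 * Real.pi * (nm x : ℝ) : ℝ) : ℂ) * (Complex.I * z) := by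
      push_cast; ring
    rw [h5, Complex.re_ofReal_mul]
    simp
    ring
  obtain ⟨-, -, n1, n2, -, -, -⟩ := a2 x
  have h4 : ‖emb x‖ = Real.sqrt (nm x : ℝ) := by
    rw [n2, Real.sqrt_sq (norm_nonneg _)]
  have h5 : (0 : ℝ) ≤ (nm x : ℝ) := by exact_mod_cast n1
  rw [norm_mul, norm_mul, RCLike.norm_conj, h3, h4, mul_assoc]
  have h6 := Pool.Agent.MU3F.Tsm.bnd (nm x : ℝ) (Real.pi * z.im) h5 (by positivity)
  have h7 : Real.exp (-(Real.pi * z.im * (nm x : ℝ))) ≤
      Real.exp (-(Real.pi * z.im / K * (x.re : ℝ) ^ 2)) *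
        Real.exp (-(Real.pi * z.im / K * (x.im : ℝ) ^ 2)) := by
    rw [← Real.exp_add]
    apply Real.exp_le_exp.2
    have b1 := bd h x
    have b2 := mul_le_mul_of_nonneg_left b1 hc.le
    have b3 : Real.pi * z.im / K * ((4 * |(A : ℝ)| + 4) * (nm x : ℝ)) =
        Real.pi * z.im * (nm x : ℝ) := by
      rw [← hK]
      field_simp
    rw [b3, mul_add] at b2
    linarith
  have h8 : 0 ≤ 1 + 1 / (Real.pi * z.im) := by positivity
  calc ‖e x‖ * (Real.sqrt (nm x : ℝ) * Real.exp (-(2 * (Real.pi * z.im) * (nm x : ℝ))))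
      ≤ C * ((1 + 1 / (Real.pi * z.im)) * Real.exp (-(Real.pi * z.im * (nm x : ℝ)))) :=
        mul_le_mul (he x) h6 (by positivity) hC
    _ ≤ C * ((1 + 1 / (Real.pi * z.im)) * (Real.exp (-(Real.pi * z.im / K * (x.re : ℝ) ^ 2)) *
        Real.exp (-(Real.pi * z.im / K * (x.im : ℝ) ^ 2)))) :=
        mul_le_mul_of_nonneg_left (mul_le_mul_of_nonneg_left h7 h8) hC
    _ = _ := by ring

end TsmX

open _root_.Pool.Agent.MUXF.TsmX in
/-- (TSM) -/
theorem tx_TSM (h1 : Sx_ALG) (_h2 : Sx_QB) : Sx_TSM := by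
  intro A B h b hb e C he z hz
  have hfin : Finite (OO A B ⧸ b) := (h1 A B h).2.2.2.1 b hb
  have hn : 0 < nI b := Nat.card_pos
  have hn' : (0 : ℝ) < (nI b : ℝ) := by exact_mod_cast hn
  have hz' : 0 < (z / (nI b : ℂ)).im := by
    have e1 : z / (nI b : ℂ) = z / ((nI b : ℝ) : ℂ) := by push_cast; rfl
    rw [e1, Complex.div_ofReal_im]
    positivity
  have hs := whole h h1 e C he _ hz'
  have hs2 := hs.comp_injective (i := fun x : b => (x : OO A B)) Subtype.val_injective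
  refine hs2.congr fun x => ?_
  show e (x : OO A B) * conj (emb (x : OO A B)) *
      Complex.exp (2 * Real.pi * Complex.I * (nm (x : OO A B) : ℂ) * (z / nI b)) =
    e (x : OO A B) * conj (emb (x : OO A B)) *
      Complex.exp (2 * Real.pi * Complex.I * ((nm (x : OO A B) : ℂ) / nI b) * z)
  congr 2
  ring

end

end Pool.Agent.MUXF


end

section

/-!
# MU3, block FH, THD: theta on a vertical line as a combination of lattice sums
-/

set_option autoImplicit false

namespace Pool.Agent.MU3F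

open _root_.MU3 _root_.Pool.Agent.MU3A _root_.Pool.Agent.MU3B _root_.Pool.Agent.MuSym OnePoint
open scoped ComplexConjugate

noncomputable section

namespace THD

variable {A B : ℤ}

/-- `w ↦ Om w` is a bijection from `O` onto the lattice -/
def eqv (h : Case A B) {L : PeriodPair} {Om : ℂ} (hL : IsLat A B L Om) : OO A B ≃ L.lattice :=
  Equiv.ofBijective (fun w => ⟨Om * emb w, (hL.mem _).2 ⟨w, rfl⟩⟩) (by
    constructor
    · intro x y hxy
      have h1 : Om * emb x = Om * emb y := congrArg Subtype.val hxy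
      exact emb_inj h (mul_left_cancel₀ hL.Om_ne h1)
    · rintro ⟨z, hz⟩
      obtain ⟨x, rfl⟩ := (hL.mem z).1 hz
      exact ⟨x, rfl⟩)

theorem eqv_val (h : Case A B) {L : PeriodPair} {Om : ℂ} (hL : IsLat A B L Om) (w : OO A B) :
    ((eqv h hL w : L.lattice) : ℂ) = Om * emb w := rfl

/-- `N(x + M y)` is congruent to `N(x)` modulo `M` -/
theorem nm_congr (x y : OO A B) (M : ℕ) : ∃ k : ℤ, nm (x + (M : OO A B) * y) = nm x + M * k := by
  refine ⟨2 * x.re * y.re + B * (x.re * y.im + x.im * y.re) - 2 * A * x.im * y.im + M * nm y, ?_⟩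
  have h1 : (x + (M : OO A B) * y).re = x.re + M * y.re := by
    simp
  have h2 : (x + (M : OO A B) * y).im = x.im + M * y.im := by
    simp
  unfold nm
  rw [h1, h2]
  ring

theorem exp_split (n b : ℤ) (M : ℕ) (t : ℝ) :
    Complex.exp (2 * Real.pi * Complex.I * (n : ℂ) * (((b / M : ℚ) : ℂ) + t * Complex.I)) =
      ex (b * n / M) * (Real.exp (-(2 * Real.pi * n * t)) : ℝ) := by
  unfold ex
  rw [Complex.ofReal_exp, ← Complex.exp_add]
  congr 1
  push_cast
  linear_combination (2 * Real.pi * (n : ℂ) * t) * Complex.I_mul_I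

theorem ex_congr (n k b : ℤ) {M : ℕ} (hM : 0 < M) : ex (b * ((n + M * k : ℤ) : ℚ) / M) =
    ex (b * n / M) := by
  have hM0 : (M : ℂ) ≠ 0 := by exact_mod_cast hM.ne'
  unfold ex
  have h1 : 2 * Real.pi * Complex.I * ((b * ((n + M * k : ℤ) : ℚ) / M : ℚ) : ℂ) =
      2 * Real.pi * Complex.I * ((b * n / M : ℚ) : ℂ) +
        ((b * k : ℤ) : ℂ) * (2 * Real.pi * Complex.I) := by
    push_cast
    field_simp
  rw [h1, Complex.exp_add, Complex.exp_int_mul_two_pi_mul_I, mul_one]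

end THD

open _root_.Pool.Agent.MU3F.THD in
/-- theta on a vertical line as a combination of lattice sums -/
theorem tf_THD (hALG : Sf_ALG) (hBDD : Sf_BDD) (hTSM : Sf_TSM) (hDCM : Sf_DCM) : Sf_THD := by
  intro A B h L Om hL g g' e he hg' hgg' M hM hMg b t ht
  have hg : g ≠ 0 := by
    rintro rfl
    exact hg' (zero_dvd_iff.1 hgg')
  obtain ⟨-, C, -, hC⟩ := hBDD A B h g e hg he
  have hz : 0 < (((b / M : ℚ) : ℂ) + t * Complex.I).im := by
    have h1 : (((b / M : ℚ) : ℂ)).im = 0 := Complex.ratCast_im _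
    rw [Complex.add_im, h1, Complex.mul_I_im, Complex.ofReal_re, zero_add]
    exact ht
  have hs := hTSM A B h e C hC _ hz
  unfold theta
  rw [hDCM A B h g' hg' _ hs]
  congr 2
  funext x
  have hg0 : emb g' ≠ 0 := emb_ne_zero h hg'
  have hOm := hL.Om_ne
  rw [← (eqv h hL).tsum_eq, ← tsum_mul_left, ← tsum_mul_left]
  refine tsum_congr fun w => ?_
  rw [eqv_val]
  obtain ⟨c, rfl⟩ := hMg
  have e1 : e (x + (M : OO A B) * c * w) = e x := he.per _ _ (by
    rw [add_sub_cancel_left]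
    exact hgg'.trans (dvd_mul_right _ _))
  have e2 : emb (x + (M : OO A B) * c * w) = emb ((M : OO A B) * c) / Om *
      (Om * emb x / emb ((M : OO A B) * c) + Om * emb w) := by
    rw [emb_add h, emb_mul h ((M : OO A B) * c) w]
    field_simp
  obtain ⟨k, hk⟩ := nm_congr x (c * w) M
  rw [← mul_assoc] at hk
  have e3 : ((nm (x + (M : OO A B) * c * w) : ℤ) : ℝ) = ‖emb ((M : OO A B) * c) / Om‖ ^ 2 *
      ‖Om * emb x / emb ((M : OO A B) * c) + Om * emb w‖ ^ 2 := by
    rw [((hALG A B h).2.1 _).2.1, e2, norm_mul, mul_pow]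
  rw [e1, exp_split, e3, hk, ex_congr _ _ _ hM, e2, map_mul]
  have e4 : 2 * Real.pi * (‖emb ((M : OO A B) * c) / Om‖ ^ 2 *
      ‖Om * emb x / emb ((M : OO A B) * c) + Om * emb w‖ ^ 2) * t =
      2 * Real.pi * ‖emb ((M : OO A B) * c) / Om‖ ^ 2 * t *
        ‖Om * emb x / emb ((M : OO A B) * c) + Om * emb w‖ ^ 2 := by ring
  rw [e4]
  ring

end

end Pool.Agent.MU3F


end

section

/-!
# MUX, block XF, THD: theta of an ideal on a vertical line as a combination of lattice sums (helper61)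
-/

set_option autoImplicit false

namespace Pool.Agent.MUXF

open _root_.MU3 _root_.Pool.Agent.MU3A _root_.Pool.Agent.MU3B _root_.Pool.Agent.MU3F _root_.Pool.Agent.MuSym OnePoint
open scoped ComplexConjugate

noncomputable section

namespace THDX

variable {A B : ℤ}

theorem emb_inj' (hALG : Sx_ALG) (h : CQ A B) {x y : OO A B} (hxy : emb x = emb y) : x = y := by
  obtain ⟨h1, h2, -⟩ := hALG A B h
  have h3 : emb (x - y) + emb y = emb x := by
    rw [← (h1 (x - y) y).2.1, sub_add_cancel]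
  have h4 : emb (x - y) = 0 := by
    rw [hxy] at h3
    exact add_eq_right.mp h3
  exact sub_eq_zero.mp ((h2 _).1.1 h4)

/-- `w ↦ Om w` is a bijection from `b` onto the lattice -/
def eqv (hALG : Sx_ALG) (h : CQ A B) {b : Ideal (OO A B)} {L : PeriodPair} {Om : ℂ}
    (hL : IsLI b L Om) : b ≃ L.lattice :=
  Equiv.ofBijective (fun w => ⟨Om * emb (w : OO A B), (hL.mem _).2 ⟨w, w.2, rfl⟩⟩) (by
    constructor
    · intro x y hxy
      have h1 : Om * emb (x : OO A B) = Om * emb (y : OO A B) := congrArg Subtype.val hxy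
      exact Subtype.ext (emb_inj' hALG h (mul_left_cancel₀ hL.om_ne h1))
    · rintro ⟨z, hz⟩
      obtain ⟨x, hx, rfl⟩ := (hL.mem z).1 hz
      exact ⟨⟨x, hx⟩, rfl⟩)

theorem eqv_val (hALG : Sx_ALG) (h : CQ A B) {b : Ideal (OO A B)} {L : PeriodPair} {Om : ℂ}
    (hL : IsLI b L Om) (w : b) :
    ((eqv hALG h hL w : L.lattice) : ℂ) = Om * emb (w : OO A B) := rfl

theorem nI_ne (hALG : Sx_ALG) (hQB : Sx_QB) (h : CQ A B) {b : Ideal (OO A B)} (hb : b ≠ ⊥) :
    nI b ≠ 0 := by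
  intro h0
  obtain ⟨x, hx, hx0⟩ := Submodule.exists_mem_ne_zero_of_ne_bot hb
  have h1 := ((hQB A B h b hb).1 x hx).1
  rw [h0] at h1
  have h2 : nm x = 0 := by
    rw [h1]
    simp
  exact hx0 (((hALG A B h).2.1 x).2.1.1 h2)

end THDX

open _root_.Pool.Agent.MUXF.THDX in
/-- theta of an ideal on a vertical line as a combination of lattice sums -/
theorem tx_THD (hALG : Sx_ALG) (hQB : Sx_QB) (hBDD : Sx_BDD) (hTSM : Sx_TSM) (hDCM : Sx_DCM)
    (hSMB : Sx_SMB) : Sx_THD := by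
  intro A B h b L Om hL g e he m M hm hmg hM hMm β t ht
  obtain ⟨hA1, hA2, hA3, -, -⟩ := hALG A B h
  have hb := hL.b_ne
  have hOm := hL.om_ne
  have hN : nI b ≠ 0 := nI_ne hALG hQB h hb
  have hembm : emb ((m : ℕ) : OO A B) = (m : ℂ) := by
    have h1 := (hA3 (m : ℤ)).1
    rw [Int.cast_natCast, Int.cast_natCast] at h1
    exact h1
  have hmC : (m : ℂ) ≠ 0 := by exact_mod_cast hm
  have hmO : ((m : ℕ) : OO A B) ≠ 0 := by
    intro h0
    rw [h0, (hA2 0).1.2 rfl] at hembm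
    exact hmC hembm.symm
  have hg : g ≠ ⊥ := by
    rintro rfl
    exact hmO ((Ideal.mem_bot).1 hmg)
  obtain ⟨-, C, -, hC⟩ := hBDD A B h g e hg he
  have hz : 0 < (((β / M : ℚ) : ℂ) + t * Complex.I).im := by
    have h1 : (((β / M : ℚ) : ℂ)).im = 0 := Complex.ratCast_im _
    rw [Complex.add_im, h1, Complex.mul_I_im, Complex.ofReal_re, zero_add]
    exact ht
  have hs := hTSM A B h b hb e C hC _ hz
  unfold thetaI
  rw [hDCM A B h b m hb hm (fun x => e x * (starRingEnd ℂ) (emb x) *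
    Complex.exp (2 * Real.pi * Complex.I * ((nm x : ℂ) / nI b) *
      (((β / M : ℚ) : ℂ) + t * Complex.I))) hs]
  congr 1
  refine (hSMB A B h b m hb hm).2.2.2.2.2 _ _ fun x hx => ?_
  rw [← (eqv hALG h hL).tsum_eq, ← tsum_mul_left, ← tsum_mul_left]
  refine tsum_congr fun w => ?_
  rw [eqv_val]
  obtain ⟨c, rfl⟩ := hMm
  have e1 : e (x + ((M * c : ℕ) : OO A B) * (w : OO A B)) = e x := he.per _ _ (by
    rw [add_sub_cancel_left]
    exact g.mul_mem_right _ hmg)
  have e2 : emb (x + ((M * c : ℕ) : OO A B) * (w : OO A B)) = ((M * c : ℕ) : ℂ) / Om *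
      (Om * emb x / ((M * c : ℕ) : ℂ) + Om * emb (w : OO A B)) := by
    rw [(hA1 _ _).2.1, (hA1 _ _).1, hembm]
    field_simp
  obtain ⟨k, hk⟩ := (hQB A B h b hb).2.1 x hx w w.2 ((M * c : ℕ) : ℤ)
  have hcast : (((M * c : ℕ) : ℤ) : OO A B) = ((M * c : ℕ) : OO A B) := Int.cast_natCast _
  rw [hcast] at hk
  have hmemb : x + ((M * c : ℕ) : OO A B) * w ∈ b := b.add_mem hx (b.mul_mem_left _ w.2)
  have hnm := ((hQB A B h b hb).1 _ hmemb).1
  have hNC : (nI b : ℂ) ≠ 0 := by exact_mod_cast hN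
  have hNR : (nI b : ℝ) ≠ 0 := by exact_mod_cast hN
  have hq : ((nm (x + ((M * c : ℕ) : OO A B) * (w : OO A B)) : ℤ) : ℂ) / nI b =
      ((qb b (x + ((M * c : ℕ) : OO A B) * (w : OO A B)) : ℤ) : ℂ) := by
    rw [hnm]
    push_cast
    field_simp
  have e3 : ((qb b (x + ((M * c : ℕ) : OO A B) * (w : OO A B)) : ℤ) : ℝ) =
      ‖((M * c : ℕ) : ℂ) / Om‖ ^ 2 *
      ‖Om * emb x / ((M * c : ℕ) : ℂ) + Om * emb (w : OO A B)‖ ^ 2 / nI b := by
    rw [← mul_pow, ← norm_mul, ← e2, ← ((hA2 _).2.2.2.1), hnm]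
    push_cast
    field_simp
  have hk2 : qb b (x + ((M * c : ℕ) : OO A B) * (w : OO A B)) = qb b x + M * ((c : ℤ) * k) := by
    rw [hk]
    push_cast
    ring
  have hstep : Complex.exp (2 * Real.pi * Complex.I *
      (((nm (x + ((M * c : ℕ) : OO A B) * (w : OO A B)) : ℤ) : ℂ) / nI b) *
        (((β / M : ℚ) : ℂ) + t * Complex.I)) =
      ex (β * qb b x / M) * (Real.exp (-((2 * Real.pi * ‖((M * c : ℕ) : ℂ) / Om‖ ^ 2 / nI b) * t *
        ‖Om * emb x / ((M * c : ℕ) : ℂ) + Om * emb (w : OO A B)‖ ^ 2)) : ℝ) := by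
    rw [hq, Pool.Agent.MU3F.THD.exp_split, e3, hk2,
      Pool.Agent.MU3F.THD.ex_congr _ _ _ (Nat.pos_of_ne_zero hM)]
    congr 3
    ring
  show e (x + ((M * c : ℕ) : OO A B) * (w : OO A B)) *
      (starRingEnd ℂ) (emb (x + ((M * c : ℕ) : OO A B) * (w : OO A B))) * _ = _
  rw [hstep, e1, e2, map_mul]
  ring

end

end Pool.Agent.MUXF


end

section

/-!
# MUX, block XF: rules for `sumB` (SMB) (helper91)
-/

set_option autoImplicit false

namespace Pool.Agent.MUXF

open _root_.MU3 _root_.Pool.Agent.MU3A _root_.Pool.Agent.MU3B _root_.Pool.Agent.MU3F _root_.Pool.Agent.MuSym OnePoint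

namespace Smb

theorem fin {A B : ℤ} (b : Ideal (OO A B)) (m : ℕ) (hm : m ≠ 0) :
    Finite (b ⧸ (nsmulAddMonoidHom (α := b) m).range) := by
  have h0 : Module.Finite ℤ (OO A B) := inferInstance
  have h1 : IsNoetherian ℤ (OO A B) := inferInstance
  have h2 : Module.Finite ℤ b :=
    inferInstanceAs (Module.Finite ℤ (Submodule.restrictScalars ℤ b))
  have h3 : Module.Finite ℤ (b ⧸ (nsmulAddMonoidHom (α := b) m).range) :=
    Module.Finite.of_surjective
      (QuotientAddGroup.mk' (nsmulAddMonoidHom (α := b) m).range).toIntLinearMap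
      (QuotientAddGroup.mk'_surjective _)
  refine Module.finite_of_fg_torsion _ ?_
  intro x
  refine ⟨⟨(m : ℤ), mem_nonZeroDivisors_of_ne_zero (by exact_mod_cast hm)⟩, ?_⟩
  obtain ⟨y, rfl⟩ := QuotientAddGroup.mk_surjective x
  show (m : ℤ) • (QuotientAddGroup.mk y : b ⧸ (nsmulAddMonoidHom (α := b) m).range) = 0
  rw [natCast_zsmul, ← QuotientAddGroup.mk_nsmul, QuotientAddGroup.eq_zero_iff]
  exact ⟨y, rfl⟩

end Smb

/-- (SMB) rules for `sumB` -/
theorem tx_SMB : Sx_SMB := by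
  intro A B hc b m hb hm
  classical
  have hfin : Finite (b ⧸ (nsmulAddMonoidHom (α := b) m).range) := Smb.fin b m hm
  let _ : Fintype (b ⧸ (nsmulAddMonoidHom (α := b) m).range) := Fintype.ofFinite _
  refine ⟨hfin, ?_, ?_, ?_, ?_, ?_⟩
  · intro c F
    unfold sumB
    rw [finsum_eq_sum_of_fintype, finsum_eq_sum_of_fintype, Finset.mul_sum]
  · intro F G
    unfold sumB
    rw [finsum_eq_sum_of_fintype, finsum_eq_sum_of_fintype, finsum_eq_sum_of_fintype,
      Finset.sum_add_distrib]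
  · intro s F
    unfold sumB
    simp only [finsum_eq_sum_of_fintype]
    rw [Finset.sum_comm]
  · intro F hF x
    have h1 : QuotientAddGroup.mk (Quotient.out
        (QuotientAddGroup.mk x : b ⧸ (nsmulAddMonoidHom (α := b) m).range)) =
        (QuotientAddGroup.mk x : b ⧸ (nsmulAddMonoidHom (α := b) m).range) :=
      Quotient.out_eq _
    rw [eq_comm, QuotientAddGroup.eq] at h1
    obtain ⟨y, hy⟩ := h1
    generalize Quotient.out (QuotientAddGroup.mk x : b ⧸ (nsmulAddMonoidHom (α := b) m).range) = u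
      at hy
    have h2 : (u : OO A B) = x + m * y := by
      have h3 := congrArg (Subtype.val : b → OO A B) hy
      simp only [nsmulAddMonoidHom_apply, Submodule.coe_add, Submodule.coe_smul_of_tower,
        NegMemClass.coe_neg, nsmul_eq_mul] at h3
      linear_combination -h3
    rw [h2]
    exact hF x x.2 y y.2
  · intro F G h
    unfold sumB
    exact finsum_congr fun q => h _ (Quotient.out q : b).2

end Pool.Agent.MUXF


end

section

/-!
# MUX, block XF, module REC (helper87): `chi (N c) = 1`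
-/

set_option autoImplicit false

namespace Pool.Agent.MUXF

open _root_.MU3 _root_.Pool.Agent.MU3A _root_.Pool.Agent.MU3B _root_.Pool.Agent.MU3F _root_.Pool.Agent.MuSym OnePoint

namespace REC

open NumberTheorySymbols

variable {A B : ℤ}

lemma mem_sp_natCast (q : ℕ) (x : OO A B) :
    x ∈ sp ((q : ℕ) : OO A B) ↔ (q : ℤ) ∣ x.re ∧ (q : ℤ) ∣ x.im := by
  rw [Ideal.mem_span_singleton]
  constructor
  · rintro ⟨y, rfl⟩
    refine ⟨⟨y.re, ?_⟩, ⟨y.im, ?_⟩⟩ <;> simp
  · rintro ⟨⟨r, hr⟩, ⟨s, hs⟩⟩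
    refine ⟨⟨r, s⟩, ?_⟩
    apply QuadraticAlgebra.ext <;> simp [hr, hs]

/-- multiplicativity of `chiQ` on positive numbers -/
lemma chi_mul (m n : ℕ) (hm : m ≠ 0) (hn : n ≠ 0) :
    chiQ A B ((m * n : ℕ) : ℤ) = chiQ A B m * chiQ A B n := by
  unfold chiQ
  split_ifs
  · push_cast
    exact jacobiSym.mul_left _ _ _
  · simp only [Int.natAbs_natCast]
    rw [jacobiSym.mul_right' _ hm hn]
    have h1 : ((m : ℤ)).sign = 1 := Int.sign_eq_one_of_pos (by positivity)
    have h2 : ((n : ℤ)).sign = 1 := Int.sign_eq_one_of_pos (by positivity)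
    have h3 : (((m * n : ℕ) : ℤ)).sign = 1 := Int.sign_eq_one_of_pos (by positivity)
    rw [h1, h2, h3]
    ring

lemma chi_of_primes (n : ℕ) (hn : n ≠ 0)
    (h : ∀ q : ℕ, q.Prime → q ∣ n → chiQ A B q = 1) : chiQ A B n = 1 := by
  induction n using induction_on_primes with
  | zero => exact absurd rfl hn
  | one =>
    unfold chiQ
    split_ifs <;> simp
  | prime_mul p a hp ih =>
    have ha : a ≠ 0 := by rintro rfl; simp at hn
    rw [chi_mul p a hp.ne_zero ha, h p hp (Dvd.intro _ rfl), one_mul]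
    exact ih ha (fun q hq hqa => h q hq (hqa.mul_left p))

/-- the value at a prime number which divides a primitive value of the norm form -/
lemma chi_prime (hQ : CQ A B) (q : ℕ) (hq : q.Prime) (hD : IsCoprime (q : ℤ) (absD A B))
    (x : OO A B) (hx : ¬ ((q : ℤ) ∣ x.re ∧ (q : ℤ) ∣ x.im)) (hn : (q : ℤ) ∣ nm x) :
    chiQ A B q = 1 := by
  have : Fact q.Prime := ⟨hq⟩
  have hqp : Prime (q : ℤ) := Nat.prime_iff_prime_int.1 hq
  have him : ¬ (q : ℤ) ∣ x.im := by
    intro h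
    apply hx
    refine ⟨?_, h⟩
    have h1 : (q : ℤ) ∣ x.re ^ 2 := by
      have e : x.re ^ 2 = nm x - x.im * (B * x.re - A * x.im) := by
        unfold nm; ring
      rw [e]
      exact dvd_sub hn (h.mul_right _)
    exact hqp.dvd_of_dvd_pow h1
  have himZ : ((x.im : ℤ) : ZMod q) ≠ 0 := by
    intro h
    exact him ((ZMod.intCast_zmod_eq_zero_iff_dvd _ _).1 h)
  have hnZ : ((nm x : ℤ) : ZMod q) = 0 := (ZMod.intCast_zmod_eq_zero_iff_dvd _ _).2 hn
  rcases hQ.hB with rfl | rfl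
  · -- `B = 0`
    have hc : chiQ A 0 q = jacobiSym A q := by
      have : ((q : ℤ)).sign = 1 := Int.sign_eq_one_of_pos (by exact_mod_cast hq.pos)
      simp [chiQ, this]
    have hAq : ((A : ℤ) : ZMod q) ≠ 0 := by
      intro h
      have h1 := (ZMod.intCast_zmod_eq_zero_iff_dvd _ _).1 h
      have h2 : (q : ℤ) ∣ absD A 0 := by
        have : absD A 0 = A * (-4) := by unfold absD; ring
        rw [this]
        exact h1.mul_right _
      exact hqp.not_isUnit (isUnit_of_dvd_one (by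
        obtain ⟨u, v, huv⟩ := hD
        rw [← huv]
        exact dvd_add (Dvd.intro_left _ rfl) (h2.mul_left _)))
    rw [hc, ← jacobiSym.legendreSym.to_jacobiSym, legendreSym.eq_one_iff q hAq]
    refine ⟨((x.re : ℤ) : ZMod q) / ((x.im : ℤ) : ZMod q), ?_⟩
    unfold nm at hnZ
    push_cast at hnZ
    field_simp
    linear_combination -hnZ
  · -- `B = 1`
    have hneg := hQ.neg
    obtain ⟨D, hDD⟩ : ∃ D : ℕ, absD A 1 = D := ⟨(absD A 1).toNat, by
      unfold absD; omega⟩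
    have hD3 : D % 4 = 3 := by
      unfold absD at hDD
      omega
    have hodd : Odd D := Nat.odd_iff.2 (by omega)
    have hc : chiQ A 1 q = jacobiSym q D := by simp [chiQ, hDD]
    rw [hc]
    rcases hq.eq_two_or_odd' with rfl | hqodd
    · have hA : (2 : ℤ) ∣ A := by
        have h1 : ¬ (2 : ℤ) ∣ x.im := by exact_mod_cast him
        have h2 : (2 : ℤ) ∣ nm x := by exact_mod_cast hn
        have h3 : x.im % 2 = 1 := by omega
        unfold nm at h2
        obtain ⟨k, hk⟩ : ∃ k, x.im = 2 * k + 1 := ⟨x.im / 2, by omega⟩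
        rw [hk] at h2
        have h4 : (2 : ℤ) ∣ x.re * (x.re + 1) := by
          rcases Int.even_or_odd x.re with h | h
          · exact h.two_dvd.mul_right _
          · exact (h.add_one.two_dvd).mul_left _
        have e : A = x.re * (x.re + 1) + 2 * (x.re * k - A * (2 * k ^ 2 + 2 * k)) -
            (x.re ^ 2 + 1 * x.re * (2 * k + 1) - A * (2 * k + 1) ^ 2) := by ring
        rw [e]
        exact dvd_sub (dvd_add h4 (Dvd.intro _ rfl)) h2
      have hD7 : D % 8 = 7 := by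
        unfold absD at hDD
        omega
      have h2 : ((2 : ℕ) : ℤ) = 2 := rfl
      rw [h2, jacobiSym.at_two hodd, ZMod.χ₈_nat_eq_if_mod_eight]
      have h1 : D % 2 ≠ 0 := by omega
      simp [h1, hD7]
    · have hDq : (((-D : ℤ)) : ZMod q) ≠ 0 := by
        intro h
        have h1 := (ZMod.intCast_zmod_eq_zero_iff_dvd _ _).1 h
        rw [dvd_neg, ← hDD] at h1
        exact hqp.not_isUnit (isUnit_of_dvd_one (by
          obtain ⟨u, v, huv⟩ := hD
          rw [← huv]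
          exact dvd_add (Dvd.intro_left _ rfl) (h1.mul_left _)))
      have hleg : jacobiSym (-D) q = 1 := by
        rw [← jacobiSym.legendreSym.to_jacobiSym, legendreSym.eq_one_iff q hDq]
        refine ⟨((2 * x.re + x.im : ℤ) : ZMod q) / ((x.im : ℤ) : ZMod q), ?_⟩
        have e : (-D : ℤ) = 1 + 4 * A := by
          rw [← hDD]; unfold absD; ring
        rw [e]
        unfold nm at hnZ
        push_cast at hnZ ⊢
        field_simp
        linear_combination -4 * hnZ
      rw [jacobiSym.neg _ hqodd] at hleg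
      have hq4 : q % 4 = 1 ∨ q % 4 = 3 := by
        obtain ⟨k, hk⟩ := hqodd
        omega
      rcases hq4 with h1 | h3
      · rw [ZMod.χ₄_nat_one_mod_four h1, one_mul] at hleg
        rw [jacobiSym.quadratic_reciprocity_one_mod_four h1 hodd]
        exact hleg
      · rw [ZMod.χ₄_nat_three_mod_four h3] at hleg
        rw [jacobiSym.quadratic_reciprocity_three_mod_four h3 hD3]
        linarith

/-- division of an ideal by a number which divides all its elements -/
lemma exists_div (a : OO A B) (I : Ideal (OO A B)) (h : I ≤ sp a) :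
    ∃ c : Ideal (OO A B), I = sp a * c := by
  refine ⟨Submodule.comap (LinearMap.mulLeft (OO A B) a) I, ?_⟩
  apply le_antisymm
  · intro x hx
    obtain ⟨y, hy⟩ := Ideal.mem_span_singleton.1 (h hx)
    rw [Ideal.mem_span_singleton_mul]
    refine ⟨y, ?_, hy.symm⟩
    change a * y ∈ I
    rwa [← hy]
  · intro x hx
    rw [Ideal.mem_span_singleton_mul] at hx
    obtain ⟨y, hy, rfl⟩ := hx
    exact hy

lemma coprime_of_dvd {n q : ℕ} (h : q ∣ n) {D : ℤ} (hD : IsCoprime (n : ℤ) D) :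
    IsCoprime (q : ℤ) D := by
  obtain ⟨k, rfl⟩ := h
  push_cast at hD
  exact hD.of_mul_left_left

/-- the norm of an ideal prime to `D` -/
lemma chi_nI (hQ : CQ A B) (h1 : Sx_ALG) (h2 : Sx_IDL) (h3 : Sx_QB) (h5 : Sx_NIM) :
    ∀ (n : ℕ) (c : Ideal (OO A B)), c ≠ ⊥ → nI c = n → IsCoprime (n : ℤ) (absD A B) →
      chiQ A B n = 1 := by
  intro n
  induction n using Nat.strong_induction_on with
  | _ n ih =>
    intro c hc hn hD
    have hn0 : n ≠ 0 := by rw [← hn]; exact (h2 A B hQ c hc).1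
    by_cases hp : ∃ q : ℕ, q.Prime ∧ c ≤ sp ((q : ℕ) : OO A B)
    · obtain ⟨q, hq, hle⟩ := hp
      obtain ⟨c', hc'⟩ := exists_div _ c hle
      have hc0 : c' ≠ ⊥ := by
        rintro rfl
        rw [Ideal.mul_bot] at hc'
        exact hc hc'
      have hq0 : ((q : ℕ) : OO A B) ≠ 0 := by
        intro h
        have := congrArg QuadraticAlgebra.re h
        simp at this
        exact hq.ne_zero this
      have hsp : sp ((q : ℕ) : OO A B) ≠ ⊥ := by
        intro h
        exact hq0 (Ideal.span_singleton_eq_bot.1 h)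
      have e1 : nI c = q ^ 2 * nI c' := by
        rw [hc', ((h5 A B hQ).1 _ _ hsp hc0).1]
        congr 1
        rcases (h5 A B hQ).2.1 ((q : ℕ) : OO A B) with h | h
        · rw [h]
          have := ((h1 A B hQ).2.2.1 (q : ℤ)).2
          rw [Int.cast_natCast] at this
          rw [this, Int.natAbs_pow, Int.natAbs_natCast]
        · exact absurd h hq0
      have hc'0 : nI c' ≠ 0 := (h2 A B hQ c' hc0).1
      have hcop : IsCoprime ((nI c' : ℕ) : ℤ) (absD A B) :=
        coprime_of_dvd (Dvd.intro_left (q ^ 2) (e1.symm.trans hn)) hD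
      have hcopq : IsCoprime (q : ℤ) (absD A B) :=
        coprime_of_dvd (n := n) ⟨q * nI c', by rw [← hn, e1]; ring⟩ hD
      have h4 : 2 ≤ q := hq.two_le
      have hlt : nI c' < n := by
        rw [← hn, e1]
        have h5 : 0 < nI c' := Nat.pos_of_ne_zero hc'0
        have h6 : 1 < q ^ 2 := by nlinarith
        calc nI c' = 1 * nI c' := (one_mul _).symm
          _ < q ^ 2 * nI c' := Nat.mul_lt_mul_of_pos_right h6 h5
      have hih := ih (nI c') hlt c' hc0 rfl hcop
      have hq2 : chiQ A B ((q * q : ℕ) : ℤ) = 1 := by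
        rw [chi_mul q q hq.ne_zero hq.ne_zero]
        rcases hQ.hB with rfl | rfl
        all_goals
          unfold chiQ
          split_ifs
        · omega
        · have hs : ((q : ℤ)).sign = 1 := Int.sign_eq_one_of_pos (by exact_mod_cast hq.pos)
          rw [hs, mul_one, Int.natAbs_natCast, ← sq]
          apply jacobiSym.sq_one
          have hA : IsCoprime A (q : ℤ) := by
            have : absD A 0 = (-4) * A := by unfold absD; ring
            rw [this] at hcopq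
            exact hcopq.of_mul_right_right.symm
          exact Int.isCoprime_iff_gcd_eq_one.1 hA
        · rw [← sq]
          apply jacobiSym.sq_one
          have hneg := hQ.neg
          have : (((absD A 1).toNat : ℕ) : ℤ) = absD A 1 := by
            unfold absD; omega
          rw [this]
          exact Int.isCoprime_iff_gcd_eq_one.1 hcopq
        · omega
      have e2 : n = (q * q) * nI c' := by rw [← hn, e1]; ring
      rw [e2, chi_mul (q * q) (nI c') (mul_ne_zero hq.ne_zero hq.ne_zero) hc'0, hq2, hih,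
        one_mul]
    · push Not at hp
      apply chi_of_primes n hn0
      intro q hq hqn
      have h := hp q hq
      rw [SetLike.not_le_iff_exists] at h
      obtain ⟨x, hx, hxq⟩ := h
      rw [mem_sp_natCast] at hxq
      apply chi_prime hQ q hq (coprime_of_dvd hqn hD) x hxq
      have h4 := ((h3 A B hQ c hc).1 x hx).1
      rw [h4, hn]
      exact (Int.natCast_dvd_natCast.2 hqn).mul_right _

lemma nm_coprime (x : OO A B) (D : ℤ) (h : IsCoprime x ((D : ℤ) : OO A B))
    (hm : ∀ x y : OO A B, nm (x * y) = nm x * nm y) : IsCoprime (nm x) D := by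
  obtain ⟨u, v, huv⟩ := h
  have e : u * x = 1 - v * ((D : ℤ) : OO A B) := by linear_combination huv
  have e2 := congrArg nm e
  rw [hm] at e2
  have e3 : nm (1 - v * ((D : ℤ) : OO A B)) =
      1 + D * (-2 * v.re + D * v.re ^ 2 - B * v.im + B * D * v.re * v.im - A * D * v.im ^ 2) := by
    have o1 : (1 : OO A B).re = 1 := rfl
    have o2 : (1 : OO A B).im = 0 := rfl
    unfold nm
    simp [o1, o2]
    ring
  rw [e3] at e2
  exact ⟨nm u, -(-2 * v.re + D * v.re ^ 2 - B * v.im + B * D * v.re * v.im -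
    A * D * v.im ^ 2), by linear_combination e2⟩

end REC

open _root_.Pool.Agent.MUXF.REC in
/-- (REC) -/
theorem tx_REC (h1 : Sx_ALG) (h2 : Sx_IDL) (h3 : Sx_QB) (h5 : Sx_NIM) : Sx_REC := by
  intro A B hQ b hb x hx hco
  have hnm := nm_coprime x (absD A B) hco (fun x y => ((h1 A B hQ).1 x y).2.2)
  have hq := ((h3 A B hQ b hb).1 x hx)
  have hcq : IsCoprime (qb b x) (absD A B) := by
    rw [hq.1] at hnm
    exact hnm.of_mul_left_right
  refine ⟨hcq, ?_⟩
  have hb0 := (h2 A B hQ b hb).1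
  have hD3 : 3 ≤ absD A B := by
    have := hQ.neg
    rcases hQ.hB with rfl | rfl <;> unfold absD <;> omega
  have hx0 : x ≠ 0 := by
    rintro rfl
    have h0 : nm (0 : OO A B) = 0 := by simp [nm]
    rw [h0, isCoprime_zero_left, Int.isUnit_iff] at hnm
    omega
  have hle : sp x * cjI b ≤ sp ((nI b : ℕ) : OO A B) := by
    rw [← (h2 A B hQ b hb).2]
    exact Ideal.mul_mono_left ((Ideal.span_singleton_le_iff_mem _).2 hx)
  obtain ⟨c, hc⟩ := exists_div _ _ hle
  have hcj := (h5 A B hQ).2.2.1 b hb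
  have hspx : sp x ≠ ⊥ := fun h => hx0 (Ideal.span_singleton_eq_bot.1 h)
  have hprod := (h5 A B hQ).1 (sp x) (cjI b) hspx hcj.2.2.1
  have hc0 : c ≠ ⊥ := by
    rintro rfl
    rw [Ideal.mul_bot] at hc
    exact hprod.2 hc
  have hN0 : ((nI b : ℕ) : OO A B) ≠ 0 := by
    intro h
    have := congrArg QuadraticAlgebra.re h
    simp at this
    exact hb0 this
  have hspN : sp ((nI b : ℕ) : OO A B) ≠ ⊥ := fun h => hN0 (Ideal.span_singleton_eq_bot.1 h)
  have e1 := hprod.1
  rw [hc, ((h5 A B hQ).1 _ _ hspN hc0).1, hcj.1] at e1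
  have e2 : nI (sp x) = (nm x).natAbs := ((h5 A B hQ).2.1 x).resolve_right hx0
  have e3 : nI (sp ((nI b : ℕ) : OO A B)) = nI b ^ 2 := by
    rw [((h5 A B hQ).2.1 _).resolve_right hN0]
    have := ((h1 A B hQ).2.2.1 ((nI b : ℕ) : ℤ)).2
    rw [Int.cast_natCast] at this
    rw [this, Int.natAbs_pow, Int.natAbs_natCast]
  rw [e2, e3] at e1
  have hnn : 0 ≤ nm x := ((h1 A B hQ).2.1 x).2.2.1
  have e4 : ((nI b : ℕ) : ℤ) ^ 2 * ((nI c : ℕ) : ℤ) = nm x * ((nI b : ℕ) : ℤ) := by
    have := congrArg (fun n : ℕ => (n : ℤ)) e1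
    push_cast at this
    rw [abs_of_nonneg hnn] at this
    exact this
  have e5 : ((nI c : ℕ) : ℤ) = qb b x := by
    rw [hq.1] at e4
    have hb0' : ((nI b : ℕ) : ℤ) ≠ 0 := by exact_mod_cast hb0
    have : ((nI b : ℕ) : ℤ) ^ 2 * ((nI c : ℕ) : ℤ) = ((nI b : ℕ) : ℤ) ^ 2 * qb b x := by
      linear_combination e4
    exact mul_left_cancel₀ (pow_ne_zero 2 hb0') this
  rw [← e5] at hcq ⊢
  exact chi_nI hQ h1 h2 h3 h5 _ c hc0 rfl hcq

end Pool.Agent.MUXF


end

section

/-!
# (QB) the form `nm x / nI b` on an ideal `b`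
-/

set_option autoImplicit false

namespace Pool.Agent.MUXF

open _root_.MU3 _root_.Pool.Agent.MU3A _root_.Pool.Agent.MU3B _root_.Pool.Agent.MU3F _root_.Pool.Agent.MuSym OnePoint

namespace QBaux

variable {A B : ℤ}

/-- divisibility of `x * star y` -/
theorem dvd_mul_star {b : Ideal (OO A B)} {n : ℕ} (hb : b * cjI b = sp ((n : ℕ) : OO A B))
    {x y : OO A B} (hx : x ∈ b) (hy : y ∈ b) : ∃ c : OO A B, x * star y = (n : OO A B) * c := by
  have h1 : star y ∈ cjI b := by
    show starRingEnd (OO A B) (star y) ∈ b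
    rw [starRingEnd_apply, star_star]
    exact hy
  have h2 : x * star y ∈ b * cjI b := Ideal.mul_mem_mul hx h1
  rw [hb, Ideal.mem_span_singleton] at h2
  exact h2

theorem nm_add_mul (x y : OO A B) (m : ℤ) :
    nm (x + (m : OO A B) * y) =
      nm x + m * ((x * star y).re + (star (x * star y)).re) + m ^ 2 * nm y := by
  simp only [nm, QuadraticAlgebra.re_add, QuadraticAlgebra.im_add, QuadraticAlgebra.re_mul,
    QuadraticAlgebra.im_mul, QuadraticAlgebra.re_star, QuadraticAlgebra.im_star,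
    QuadraticAlgebra.re_intCast, QuadraticAlgebra.im_intCast, Int.cast_id]
  ring

end QBaux

open _root_.Pool.Agent.MUXF.QBaux in
theorem tx_QB (h1 : Sx_ALG) (h2 : Sx_IDL) : Sx_QB := by
  intro A B hQ b hb
  obtain ⟨a1, a2, a3, a4, a5⟩ := h1 A B hQ
  obtain ⟨hn, hcj⟩ := h2 A B hQ b hb
  have hn' : (nI b : ℤ) ≠ 0 := by exact_mod_cast hn
  have hn0 : (0 : ℤ) ≤ nI b := Int.natCast_nonneg _
  have hre : ∀ c : OO A B, (((nI b : ℕ) : OO A B) * c).re = nI b * c.re := by
    intro c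
    simp [QuadraticAlgebra.re_mul]
  have hdvd : ∀ x ∈ b, nm x = nI b * qb b x ∧ 0 ≤ qb b x := by
    intro x hx
    obtain ⟨c, hc⟩ := dvd_mul_star hcj hx hx
    rw [(a2 x).2.2.2.2.1] at hc
    have h3 : nm x = nI b * c.re := by
      have := congrArg QuadraticAlgebra.re hc
      rw [hre] at this
      simpa using this
    refine ⟨?_, ?_⟩
    · rw [qb, Int.mul_ediv_cancel' ⟨c.re, h3⟩]
    · exact Int.ediv_nonneg (a2 x).2.2.1 hn0
  refine ⟨hdvd, ?_, ?_⟩
  · intro x hx y hy m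
    obtain ⟨c, hc⟩ := dvd_mul_star hcj hx hy
    refine ⟨(c.re + (star c).re) + m * qb b y, ?_⟩
    have hxy : x + (m : OO A B) * y ∈ b := b.add_mem hx (b.mul_mem_left _ hy)
    have e1 := (hdvd _ hxy).1
    have e2 := (hdvd x hx).1
    have e3 := (hdvd y hy).1
    have e4 := nm_add_mul x y m
    have e5 : star (x * star y) = ((nI b : ℕ) : OO A B) * star c := by
      rw [hc, star_mul']
      congr 1
      exact star_natCast _
    rw [e5, hc, hre, hre] at e4
    have e6 : (nI b : ℤ) * qb b (x + (m : OO A B) * y) =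
        nI b * (qb b x + m * ((c.re + (star c).re) + m * qb b y)) := by
      rw [← e1, e4, e2, e3]
      ring
    exact mul_left_cancel₀ hn' e6
  · intro x
    rw [qb, (a1 _ x).2.2]
    have h3 : nm ((nI b : ℕ) : OO A B) = (nI b : ℤ) ^ 2 := by
      have := (a3 (nI b : ℤ)).2
      rw [Int.cast_natCast] at this
      exact this
    rw [h3, pow_two, mul_assoc, Int.mul_ediv_cancel_left _ hn']

end Pool.Agent.MUXF


end

section

/-!
# MUX, block XF, module PRJ: the projector (helper14)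
-/

set_option autoImplicit false

namespace Pool.Agent.MUXF

open _root_.MU3 _root_.Pool.Agent.MU3A _root_.Pool.Agent.MU3B _root_.Pool.Agent.MU3F _root_.Pool.Agent.MuSym OnePoint
open scoped ComplexConjugate

noncomputable section

namespace PRJ

lemma ex_add (r s : ℚ) : ex (r + s) = ex r * ex s := by
  unfold ex
  rw [← Complex.exp_add]
  congr 1
  push_cast
  ring

lemma ex_nat_mul (b : ℕ) (r : ℚ) : ex (b * r) = ex r ^ b := by
  unfold ex
  rw [← Complex.exp_nat_mul]
  congr 1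
  push_cast
  ring

lemma ex_eq_one (r : ℚ) : ex r = 1 ↔ ∃ k : ℤ, r = k := by
  unfold ex
  rw [Complex.exp_eq_one_iff]
  have h0 : (2 * (Real.pi : ℂ) * Complex.I) ≠ 0 := by
    simp [Real.pi_ne_zero]
  constructor
  · rintro ⟨k, hk⟩
    refine ⟨k, ?_⟩
    have h1 : (r : ℂ) = (k : ℂ) := by
      apply mul_left_cancel₀ h0
      rw [hk]
      ring
    exact_mod_cast h1
  · rintro ⟨k, rfl⟩
    exact ⟨k, by push_cast; ring⟩

lemma sum_ex (M : ℕ) (hM : 0 < M) (k : ℤ) :
    ∑ b ∈ Finset.range M, ex (b * (k / M)) = if (M : ℤ) ∣ k then (M : ℂ) else 0 := by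
  have hMq : (M : ℚ) ≠ 0 := by exact_mod_cast hM.ne'
  simp only [ex_nat_mul]
  split_ifs with h
  · have h1 : ex ((k : ℚ) / M) = 1 := by
      rw [ex_eq_one]
      obtain ⟨j, hj⟩ := h
      refine ⟨j, ?_⟩
      rw [hj]
      push_cast
      field_simp
    rw [h1]
    simp
  · have h1 : ex ((k : ℚ) / M) ≠ 1 := by
      rw [Ne, ex_eq_one]
      rintro ⟨j, hj⟩
      apply h
      refine ⟨j, ?_⟩
      rw [div_eq_iff hMq] at hj
      have h2 : (k : ℚ) = ((M * j : ℤ) : ℚ) := by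
        rw [hj]
        push_cast
        ring
      exact_mod_cast h2
    have h2 : ex ((k : ℚ) / M) ^ M = 1 := by
      rw [← ex_nat_mul, ex_eq_one]
      exact ⟨k, by field_simp⟩
    have h3 := mul_neg_geom_sum (ex ((k : ℚ) / M)) M
    rw [h2, sub_self] at h3
    rcases mul_eq_zero.1 h3 with h4 | h4
    · exact absurd (sub_eq_zero.1 h4).symm h1
    · exact h4

/-- the coefficients -/
def cf (q : ℕ) (φ : ℤ → ℂ) (a : ℕ) : ℂ :=
  (1 / q) * ∑ n ∈ Finset.range q, φ n * ex (-(a * n) / q)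

/-- periodic functions -/
lemma per_mul {q : ℕ} {φ : ℤ → ℂ} (hφ : ∀ n, φ (n + q) = φ n) (k m : ℤ) :
    φ (k + q * m) = φ k := by
  induction m using Int.induction_on with
  | zero => simp
  | succ i ih =>
    have e : k + q * ((i : ℤ) + 1) = (k + q * i) + q := by ring
    rw [e, hφ, ih]
  | pred i ih =>
    have e : k + q * (-(i : ℤ)) = (k + q * (-(i : ℤ) - 1)) + q := by ring
    rw [e, hφ] at ih
    exact ih

/-- finite Fourier inversion -/
lemma inv {q : ℕ} (hq : q ≠ 0) {φ : ℤ → ℂ} (hφ : ∀ n, φ (n + q) = φ n) (k : ℤ) :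
    ∑ a ∈ Finset.range q, cf q φ a * ex (a * (k / q)) = φ k := by
  have hq0 : 0 < q := Nat.pos_of_ne_zero hq
  have hqc : (q : ℂ) ≠ 0 := by exact_mod_cast hq
  have hqz : (q : ℤ) ≠ 0 := by exact_mod_cast hq
  have h1 : ∀ a ∈ Finset.range q, cf q φ a * ex (a * (k / q)) =
      (1 / q) * ∑ n ∈ Finset.range q, φ n * ex (a * (((k - n : ℤ) : ℚ) / q)) := by
    intro a _
    unfold cf
    rw [mul_assoc, Finset.sum_mul]
    congr 1
    refine Finset.sum_congr rfl fun n _ => ?_
    rw [mul_assoc, ← ex_add]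
    congr 2
    push_cast
    ring
  rw [Finset.sum_congr rfl h1, ← Finset.mul_sum, Finset.sum_comm]
  have h2 : ∀ n ∈ Finset.range q, ∑ a ∈ Finset.range q, φ n * ex (a * (((k - n : ℤ) : ℚ) / q)) =
      if n = (k % q).toNat then φ n * q else 0 := by
    intro n hn
    rw [← Finset.mul_sum, sum_ex q hq0]
    have hn' : (n : ℤ) < q := by exact_mod_cast Finset.mem_range.1 hn
    have hm0 := Int.emod_nonneg k hqz
    have hm1 := Int.emod_lt_of_pos k (by exact_mod_cast hq0 : (0 : ℤ) < q)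
    have hiff : ((q : ℤ) ∣ k - n) ↔ n = (k % q).toNat := by
      constructor
      · intro h
        have h3 : k % q = (n : ℤ) % q := (Int.emod_emod_of_dvd k (dvd_refl _)).symm.trans (by
          rw [Int.emod_emod_of_dvd k (dvd_refl _)]
          exact (Int.emod_emod_of_dvd _ (dvd_refl _)).symm.trans (by
            rw [Int.emod_emod_of_dvd _ (dvd_refl _)]
            exact Int.ModEq.symm ((Int.modEq_iff_dvd).2 h)))
        rw [h3, Int.emod_eq_of_lt (Int.natCast_nonneg n) hn']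
        simp
      · intro h
        have h3 : (n : ℤ) = k % q := by rw [h, Int.toNat_of_nonneg hm0]
        rw [h3]
        exact Int.dvd_self_sub_emod
    by_cases h : n = (k % q).toNat
    · rw [if_pos h, if_pos (hiff.2 h)]
    · rw [if_neg h, if_neg (fun h' => h (hiff.1 h')), mul_zero]
  rw [Finset.sum_congr rfl h2, Finset.sum_ite_eq' (Finset.range q)]
  have hm0 := Int.emod_nonneg k hqz
  have hm1 := Int.emod_lt_of_pos k (by exact_mod_cast hq0 : (0 : ℤ) < q)
  rw [if_pos (by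
    rw [Finset.mem_range]
    have : (((k % q).toNat : ℕ) : ℤ) < q := by rw [Int.toNat_of_nonneg hm0]; exact hm1
    exact_mod_cast this)]
  have h3 : (((k % q).toNat : ℕ) : ℤ) = k % q := Int.toNat_of_nonneg hm0
  have h4 : φ (((k % q).toNat : ℕ) : ℤ) = φ k := by
    rw [h3]
    have h5 := Int.emod_add_mul_ediv k q
    conv_rhs => rw [← h5]
    rw [per_mul hφ]
  rw [h4]
  field_simp

variable {A B : ℤ}

/-- the projector on theta -/
lemma twist (hQB : Sx_QB) (hALG : Sx_ALG) (hTSM : Sx_TSM) (h : CQ A B) {b : Ideal (OO A B)}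
    (hb : b ≠ ⊥) {e : OO A B → ℂ} {C : ℝ} (hC : ∀ x, ‖e x‖ ≤ C) {q : ℕ} (hq : q ≠ 0)
    {φ : ℤ → ℂ} (hφ : ∀ n, φ (n + q) = φ n) (s : ℤ) (v : ℂ)
    (hv : ∀ x ∈ b, e x ≠ 0 → φ (s * qb b x) = v) (z : ℂ) (hz : 0 < z.im) :
    ∑ a ∈ Finset.range q, cf q φ a * thetaI b e (z + ((s * (a / q) : ℚ) : ℂ)) =
      v * thetaI b e z := by
  obtain ⟨hqb, -, -⟩ := hQB A B h b hb
  have hfin : Finite (OO A B ⧸ b) := (hALG A B h).2.2.2.1 b hb
  have hn0 : (nI b : ℂ) ≠ 0 := by
    have : 0 < nI b := Nat.card_pos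
    exact_mod_cast this.ne'
  have hdiv : ∀ x : b, ((nm (x : OO A B) : ℂ) / nI b) = (qb b (x : OO A B) : ℂ) := by
    intro x
    have h1 := (hqb x.1 x.2).1
    rw [div_eq_iff hn0]
    have h2 : ((nm (x : OO A B) : ℤ) : ℂ) = (((nI b : ℤ) * qb b (x : OO A B) : ℤ) : ℂ) := by
      rw [← h1]
    rw [h2]
    push_cast
    ring
  have hshift : ∀ (x : b) (a : ℕ), Complex.exp (2 * Real.pi * Complex.I *
      ((nm (x : OO A B) : ℂ) / nI b) * (z + ((s * (a / q) : ℚ) : ℂ))) =
      Complex.exp (2 * Real.pi * Complex.I * ((nm (x : OO A B) : ℂ) / nI b) * z) *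
        ex (a * (((s * qb b (x : OO A B) : ℤ) : ℚ) / q)) := by
    intro x a
    rw [hdiv]
    unfold ex
    rw [← Complex.exp_add]
    congr 1
    push_cast
    ring
  have hsum : ∀ a : ℕ, Summable (fun x : b => cf q φ a * (e x * conj (emb (x : OO A B)) *
      Complex.exp (2 * Real.pi * Complex.I * ((nm (x : OO A B) : ℂ) / nI b) *
        (z + ((s * (a / q) : ℚ) : ℂ))))) := by
    intro a
    refine Summable.mul_left _ (hTSM A B h b hb e C hC _ ?_)
    have : (((s * (a / q) : ℚ) : ℂ)).im = 0 := by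
      rw [← Complex.ofReal_ratCast]
      exact Complex.ofReal_im _
    rw [Complex.add_im, this, add_zero]
    exact hz
  calc ∑ a ∈ Finset.range q, cf q φ a * thetaI b e (z + ((s * (a / q) : ℚ) : ℂ))
      = ∑ a ∈ Finset.range q, (1 / 2) * ∑' x : b, cf q φ a * (e x * conj (emb (x : OO A B)) *
          Complex.exp (2 * Real.pi * Complex.I * ((nm (x : OO A B) : ℂ) / nI b) *
            (z + ((s * (a / q) : ℚ) : ℂ)))) := by
        refine Finset.sum_congr rfl fun a _ => ?_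
        rw [tsum_mul_left]
        unfold thetaI
        ring
    _ = (1 / 2) * ∑' x : b, ∑ a ∈ Finset.range q, cf q φ a * (e x * conj (emb (x : OO A B)) *
          Complex.exp (2 * Real.pi * Complex.I * ((nm (x : OO A B) : ℂ) / nI b) *
            (z + ((s * (a / q) : ℚ) : ℂ)))) := by
        rw [Summable.tsum_finsetSum fun a _ => hsum a, Finset.mul_sum]
    _ = (1 / 2) * ∑' x : b, v * (e x * conj (emb (x : OO A B)) *
          Complex.exp (2 * Real.pi * Complex.I * ((nm (x : OO A B) : ℂ) / nI b) * z)) := by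
        congr 1
        refine tsum_congr fun x => ?_
        by_cases hx : e x = 0
        · simp [hx]
        · rw [← hv x.1 x.2 hx, ← inv hq hφ (s * qb b (x : OO A B)), Finset.sum_mul]
          refine Finset.sum_congr rfl fun a _ => ?_
          rw [hshift]
          ring
    _ = v * thetaI b e z := by
        rw [tsum_mul_left]
        unfold thetaI
        ring

/-- the projector at a rational number -/
lemma twistI (hQB : Sx_QB) (hALG : Sx_ALG) (hTSM : Sx_TSM) (hITG : Sx_ITG) (h : CQ A B)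
    {b g : Ideal (OO A B)} (hb : b ≠ ⊥) (hg : g ≠ ⊥) {e : OO A B → ℂ} (he : IsEI g e) {C : ℝ}
    (hC : ∀ x, ‖e x‖ ≤ C) {q : ℕ} (hq : q ≠ 0)
    {φ : ℤ → ℂ} (hφ : ∀ n, φ (n + q) = φ n) (s : ℤ) (v : ℂ)
    (hv : ∀ x ∈ b, e x ≠ 0 → φ (s * qb b x) = v) (r : ℚ) :
    ∑ a ∈ Finset.range q, cf q φ a * IvI b e (r + s * (a / q)) = v * IvI b e r := by
  unfold IvI
  have h1 : ∀ a ∈ Finset.range q, cf q φ a * (-(2 * Real.pi) *
      ∫ t in Set.Ioi (0 : ℝ), thetaI b e (((r + s * (a / q) : ℚ) : ℂ) + t * Complex.I)) =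
      -(2 * Real.pi) * ∫ t in Set.Ioi (0 : ℝ), cf q φ a *
        thetaI b e (((r + s * (a / q) : ℚ) : ℂ) + t * Complex.I) := by
    intro a _
    rw [MeasureTheory.integral_const_mul]
    ring
  rw [Finset.sum_congr rfl h1, ← Finset.mul_sum, ← MeasureTheory.integral_finsetSum]
  · have h2 : ∫ t in Set.Ioi (0 : ℝ), ∑ a ∈ Finset.range q, cf q φ a *
        thetaI b e (((r + s * (a / q) : ℚ) : ℂ) + t * Complex.I) =
        ∫ t in Set.Ioi (0 : ℝ), v * thetaI b e ((r : ℂ) + t * Complex.I) := by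
      apply MeasureTheory.setIntegral_congr_fun measurableSet_Ioi
      intro t ht
      have ht' : 0 < t := ht
      have h3 := twist hQB hALG hTSM h hb hC hq hφ s v hv ((r : ℂ) + t * Complex.I)
        (by simpa using ht')
      simp only
      rw [← h3]
      apply Finset.sum_congr rfl
      intro a _
      congr 2
      push_cast
      ring
    rw [h2, MeasureTheory.integral_const_mul]
    ring
  · intro a _
    exact (hITG A B h b g e hb hg he _).const_mul _

theorem mob1 {q : ℕ} (hq : q ≠ 0) (a : ℤ) (r : ℚ) :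
    mob q a 0 q ((r : ℚ) : OnePoint ℚ) = ((r + a / (q : ℚ) : ℚ) : OnePoint ℚ) := by
  have h1 : ((q : ℤ) : ℚ) ≠ 0 := by exact_mod_cast hq
  have h1' : (q : ℚ) ≠ 0 := by exact_mod_cast hq
  show (if ((0 : ℤ) : ℚ) * r + (q : ℤ) = 0 then ∞ else
    (((((q : ℤ) : ℚ) * r + a) / (((0 : ℤ) : ℚ) * r + (q : ℤ)) : ℚ) : OnePoint ℚ)) = _
  rw [if_neg (by simpa using hq)]
  congr 1
  push_cast
  rw [zero_mul, zero_add, add_div, mul_div_cancel_left₀ _ h1']

theorem mob2 (a b c d : ℤ) (hc : c = 0) : mob a b c d ∞ = ∞ := by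
  show (if c = 0 then ∞ else ((a / c : ℚ) : OnePoint ℚ)) = ∞
  rw [if_pos hc]

theorem mob3 (r : ℚ) : mob (-1) 0 0 1 ((r : ℚ) : OnePoint ℚ) = ((-r : ℚ) : OnePoint ℚ) := by
  show (if ((0 : ℤ) : ℚ) * r + (1 : ℤ) = 0 then ∞ else
    ((((((-1 : ℤ) : ℚ) * r + (0 : ℤ)) / (((0 : ℤ) : ℚ) * r + (1 : ℤ)) : ℚ)) : OnePoint ℚ)) = _
  rw [if_neg (by norm_num)]
  congr 1
  push_cast
  ring

end PRJ

theorem tx_PRJ (h1 : Sx_ALG) (h2 : Sx_QB) (h3 : Sx_BDD) (h4 : Sx_TSM) (h5 : Sx_ITG) : Sx_PRJ := by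
  intro A B h b g e hb hg he q φ hq hφ hv s x y
  obtain ⟨-, C, -, hC⟩ := h3 A B h g e hg he
  -- the two sums over the coefficients
  have a1 : ∀ r : ℚ, ∑ a ∈ Finset.range q, PRJ.cf q φ a * IvI b e (r + (1 : ℤ) * (a / q)) =
      1 * IvI b e r := PRJ.twistI h2 h1 h4 h5 h hb hg he hC hq hφ 1 1 (by
    intro x hx hx0
    rw [one_mul]
    exact (hv x hx hx0).1)
  have a2 : ∀ r : ℚ, ∑ a ∈ Finset.range q, PRJ.cf q φ a * IvI b e (r + (-1 : ℤ) * (a / q)) =
      0 * IvI b e r := PRJ.twistI h2 h1 h4 h5 h hb hg he hC hq hφ (-1) 0 (by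
    intro x hx hx0
    rw [neg_one_mul]
    exact (hv x hx hx0).2)
  have b1 : ∀ x : OnePoint ℚ, ∑ a ∈ Finset.range q, PRJ.cf q φ a * IcI b e (mob q a 0 q x) =
      IcI b e x := by
    intro x
    induction x using OnePoint.rec with
    | infty =>
      have e1 : ∀ a : ℤ, IcI b e (mob q a 0 q ∞) = 0 := by
        intro a
        rw [PRJ.mob2 _ _ _ _ rfl]
        rfl
      have e2 : IcI b e ∞ = 0 := rfl
      simp only [e1, e2, mul_zero, Finset.sum_const_zero]
    | coe r =>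
      have e1 := a1 r
      have e2 : IcI b e ((r : ℚ) : OnePoint ℚ) = IvI b e r := rfl
      rw [e2, ← one_mul (IvI b e r), ← e1]
      refine Finset.sum_congr rfl fun a _ => ?_
      rw [PRJ.mob1 hq]
      have e3 : IcI b e ((r + ((a : ℤ) : ℚ) / (q : ℚ) : ℚ) : OnePoint ℚ) =
        IvI b e (r + ((a : ℤ) : ℚ) / (q : ℚ)) := rfl
      rw [e3]
      congr 2
      push_cast
      ring
  have b2 : ∀ x : OnePoint ℚ, ∑ a ∈ Finset.range q,
      PRJ.cf q φ a * IcI b e (mob (-1) 0 0 1 (mob q a 0 q x)) = 0 := by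
    intro x
    induction x using OnePoint.rec with
    | infty =>
      have e1 : ∀ a : ℤ, IcI b e (mob (-1) 0 0 1 (mob q a 0 q ∞)) = 0 := by
        intro a
        rw [PRJ.mob2 _ _ _ _ rfl, PRJ.mob2 _ _ _ _ rfl]
        rfl
      simp only [e1, mul_zero, Finset.sum_const_zero]
    | coe r =>
      have e1 := a2 (-r)
      rw [zero_mul] at e1
      rw [← e1]
      refine Finset.sum_congr rfl fun a _ => ?_
      rw [PRJ.mob1 hq, PRJ.mob3]
      have e3 : IcI b e ((-(r + ((a : ℤ) : ℚ) / (q : ℚ)) : ℚ) : OnePoint ℚ) =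
        IvI b e (-(r + ((a : ℤ) : ℚ) / (q : ℚ))) := rfl
      rw [e3]
      congr 2
      push_cast
      ring
  have key : ∑ a ∈ Finset.range q, PRJ.cf q φ a *
      sgnPart s (PhiI b e) (mob q a 0 q x) (mob q a 0 q y) =
      (∑ a ∈ Finset.range q, PRJ.cf q φ a * IcI b e (mob q a 0 q x)) -
      (∑ a ∈ Finset.range q, PRJ.cf q φ a * IcI b e (mob q a 0 q y)) +
      s * ((∑ a ∈ Finset.range q, PRJ.cf q φ a * IcI b e (mob (-1) 0 0 1 (mob q a 0 q x))) -
      (∑ a ∈ Finset.range q, PRJ.cf q φ a * IcI b e (mob (-1) 0 0 1 (mob q a 0 q y)))) := by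
    rw [← Finset.sum_sub_distrib, ← Finset.sum_sub_distrib, Finset.mul_sum,
      ← Finset.sum_add_distrib]
    refine Finset.sum_congr rfl fun a _ => ?_
    unfold sgnPart PhiI
    ring
  have goal : ∑ a ∈ Finset.range q, PRJ.cf q φ a *
      sgnPart s (PhiI b e) (mob q a 0 q x) (mob q a 0 q y) = PhiI b e x y := by
    rw [key, b1, b1, b2, b2]
    unfold PhiI
    ring
  exact goal

end

end Pool.Agent.MUXF


end

section

/-!
# (PRI) multiplication of the ideal by a number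
-/

set_option autoImplicit false

namespace Pool.Agent.MUXF

open _root_.MU3 _root_.Pool.Agent.MU3A _root_.Pool.Agent.MU3B _root_.Pool.Agent.MU3F _root_.Pool.Agent.MuSym OnePoint

namespace PRIaux

variable {A B : ℤ}

/-- `y ↦ a y` from `b` to `(a) b` -/
noncomputable def mulMap (a : OO A B) (b : Ideal (OO A B)) (y : b) : (sp a * b : Ideal (OO A B)) :=
  ⟨a * y, Ideal.mem_span_singleton_mul.2 ⟨y, y.2, rfl⟩⟩

theorem mulMap_bij (hd : IsDomain (OO A B)) {a : OO A B} (ha : a ≠ 0) (b : Ideal (OO A B)) :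
    Function.Bijective (mulMap a b) := by
  constructor
  · intro y y' h
    have h1 : a * (y : OO A B) = a * y' := congrArg Subtype.val h
    exact Subtype.ext (mul_left_cancel₀ ha h1)
  · rintro ⟨x, hx⟩
    obtain ⟨y, hy, hxy⟩ := Ideal.mem_span_singleton_mul.1 hx
    exact ⟨⟨y, hy⟩, Subtype.ext hxy⟩

end PRIaux

open _root_.Pool.Agent.MUXF.PRIaux in
theorem tx_PRI (h1 : Sx_ALG) (h2 : Sx_NIM) : Sx_PRI := by
  intro A B hQ b g e a hb he ha
  obtain ⟨a1, a2, a3, a4, a5⟩ := h1 A B hQ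
  obtain ⟨n1, n2, n3, n4⟩ := h2 A B hQ
  have ha' : sp a ≠ ⊥ := by
    rw [Ne, Ideal.span_singleton_eq_bot]
    exact ha
  have hnm : nm a ≠ 0 := fun h => ha ((a2 a).2.1.1 h)
  have hN : ((nI (sp a * b) : ℕ) : ℂ) = (nm a : ℂ) * nI b := by
    rw [(n1 _ _ ha' hb).1]
    have h3 := (n2 a).resolve_right ha
    rw [h3]
    push_cast
    congr 1
    have h4 : ((nm a).natAbs : ℤ) = nm a := Int.natAbs_of_nonneg (a2 a).2.2.1
    have h5 : (((nm a).natAbs : ℤ) : ℂ) = (nm a : ℂ) := by rw [h4]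
    rw [← h5, Int.cast_natCast]
  have hnmC : (nm a : ℂ) ≠ 0 := by exact_mod_cast hnm
  have hth : ∀ z : ℂ, thetaI (sp a * b) e z = e a * (starRingEnd ℂ) (emb a) * thetaI b e z := by
    intro z
    have key : ∀ y : b, e (((Equiv.ofBijective _ (mulMap_bij a5 ha b)) y :
        (sp a * b : Ideal (OO A B))) : OO A B) * (starRingEnd ℂ) (emb
        (((Equiv.ofBijective _ (mulMap_bij a5 ha b)) y : (sp a * b : Ideal (OO A B))) : OO A B)) *
        Complex.exp (2 * Real.pi * Complex.I * ((nm (((Equiv.ofBijective _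
          (mulMap_bij a5 ha b)) y : (sp a * b : Ideal (OO A B))) : OO A B) : ℂ) /
          nI (sp a * b)) * z) =
        (e a * (starRingEnd ℂ) (emb a)) * (e y * (starRingEnd ℂ) (emb (y : OO A B)) *
        Complex.exp (2 * Real.pi * Complex.I * ((nm (y : OO A B) : ℂ) / nI b) * z)) := by
      intro y
      have e1 : (((Equiv.ofBijective _ (mulMap_bij a5 ha b)) y : (sp a * b : Ideal (OO A B))) :
          OO A B) = a * y := rfl
      rw [e1, he.mul, (a1 _ _).1, (a1 _ _).2.2, map_mul, hN]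
      have e2 : ((nm a * nm (y : OO A B) : ℤ) : ℂ) / ((nm a : ℂ) * nI b) =
          (nm (y : OO A B) : ℂ) / nI b := by
        push_cast
        exact mul_div_mul_left _ _ hnmC
      rw [e2]
      ring
    unfold thetaI
    rw [← (Equiv.ofBijective _ (mulMap_bij a5 ha b)).tsum_eq, tsum_congr key, tsum_mul_left]
    ring
  refine ⟨hth, ?_⟩
  have hI : ∀ r : ℚ, IvI (sp a * b) e r = e a * (starRingEnd ℂ) (emb a) * IvI b e r := by
    intro r
    unfold IvI
    simp only [hth]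
    rw [MeasureTheory.integral_const_mul]
    ring
  have hc : ∀ x : OnePoint ℚ, IcI (sp a * b) e x = e a * (starRingEnd ℂ) (emb a) * IcI b e x := by
    intro x
    induction x using OnePoint.rec with
    | infty =>
      show (0 : ℂ) = _ * (0 : ℂ)
      rw [mul_zero]
    | coe r => exact hI r
  intro x y
  unfold PhiI
  rw [hc, hc]
  ring

end Pool.Agent.MUXF


end

section

/-!
# MUX, block XF: module PRD, `thetaI` has period 1
-/

set_option autoImplicit false

namespace Pool.Agent.MUXF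

open _root_.MU3 _root_.Pool.Agent.MU3A _root_.Pool.Agent.MU3B _root_.Pool.Agent.MU3F _root_.Pool.Agent.MuSym OnePoint
open scoped ComplexConjugate

noncomputable section

/-- PRD. -/
theorem tx_PRD (hQB : Sx_QB) : Sx_PRD := by
  intro A B hc b hb e z
  obtain ⟨hq, -, -⟩ := hQB A B hc b hb
  unfold thetaI
  congr 1
  refine tsum_congr fun x => ?_
  congr 1
  have h1 : ∃ k : ℤ, ((nm (x : OO A B) : ℂ) / nI b) = k := by
    have h2 := (hq x x.2).1
    by_cases h3 : nI b = 0
    · exact ⟨0, by simp [h3]⟩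
    · refine ⟨qb b x, ?_⟩
      have h4 : ((nI b : ℕ) : ℂ) ≠ 0 := by exact_mod_cast h3
      have h5 : ((nm (x : OO A B) : ℤ) : ℂ) = (nI b : ℂ) * ((qb b (x : OO A B) : ℤ) : ℂ) := by
        exact_mod_cast congrArg (Int.cast : ℤ → ℂ) h2
      rw [h5]
      field_simp
  obtain ⟨k, hk⟩ := h1
  rw [hk]
  rw [Complex.exp_eq_exp_iff_exists_int]
  exact ⟨k, by ring⟩

end

end Pool.Agent.MUXF


end

section

/-!
# MUX, block XF, module PHX (helper72): a function modulo `|D|` which is 1 on the exponents of theta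
-/

set_option autoImplicit false

namespace Pool.Agent.MUXF

open _root_.MU3 _root_.Pool.Agent.MU3A _root_.Pool.Agent.MU3B _root_.Pool.Agent.MU3F _root_.Pool.Agent.MuSym OnePoint

theorem tx_PHX (h2 : Sx_CHI) (h3 : Sx_REC) : Sx_PHX := by
  classical
  intro A B hAB
  refine ⟨fun n => if IsCoprime n (absD A B) ∧ chiQ A B n = 1 then 1 else 0, ?_, ?_, ?_⟩
  · intro n
    dsimp only
    split_ifs
    · exact Or.inr rfl
    · exact Or.inl rfl
  · intro n
    dsimp only
    congr 1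
    refine propext ?_
    have e1 : IsCoprime (n + absD A B) (absD A B) ↔ IsCoprime n (absD A B) := by
      constructor
      · intro h
        have := h.add_mul_left_left (-1)
        rwa [show n + absD A B + absD A B * -1 = n by ring] at this
      · intro h
        have := h.add_mul_left_left 1
        rwa [mul_one] at this
    rw [e1]
    constructor
    · rintro ⟨h4, h5⟩
      refine ⟨h4, ?_⟩
      rw [← h5]
      exact ((h2 A B hAB n h4).2.2 (n + absD A B) ⟨-1, by ring⟩).symm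
    · rintro ⟨h4, h5⟩
      refine ⟨h4, ?_⟩
      rw [← h5]
      exact (h2 A B hAB n h4).2.2 (n + absD A B) ⟨-1, by ring⟩
  · intro b g e hb he hg x hx hex
    have h4 : IsCoprime (sp x) (sp ((absD A B : ℤ) : OO A B)) := by
      have h5 := (he.supp x).1 hex
      rw [Ideal.isCoprime_iff_sup_eq] at h5 ⊢
      exact top_le_iff.1 (h5 ▸ sup_le_sup_left hg _)
    have h6 : IsCoprime x ((absD A B : ℤ) : OO A B) := by
      rwa [sp, sp, Ideal.isCoprime_span_singleton_iff] at h4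
    obtain ⟨h7, h8⟩ := h3 A B hAB b hb x hx h6
    have h9 := (h2 A B hAB _ h7).2.1
    constructor
    · dsimp only
      rw [if_pos ⟨h7, h8⟩]
    · dsimp only
      rw [if_neg]
      rintro ⟨-, h10⟩
      rw [h9, h8] at h10
      norm_num at h10

end Pool.Agent.MUXF


end

section

/-!
# MUX, block XF, module LCN: a prime ideal of prime norm and the form `qb` (helper1)
-/

set_option autoImplicit false

namespace Pool.Agent.MUXF

open _root_.MU3 _root_.Pool.Agent.MU3A _root_.Pool.Agent.MU3B _root_.Pool.Agent.MU3F _root_.Pool.Agent.MuSym OnePoint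

namespace LcnAux

variable {A B : ℤ}

theorem mem_cjI {b : Ideal (OO A B)} {x : OO A B} : x ∈ cjI b ↔ star x ∈ b := Iff.rfl

theorem cjI_cjI (b : Ideal (OO A B)) : cjI (cjI b) = b := by
  ext x
  rw [mem_cjI, mem_cjI, star_star]

theorem cjI_mono {b c : Ideal (OO A B)} (h : b ≤ c) : cjI b ≤ cjI c := fun _ hx => h hx

theorem cjI_mul_le (b c : Ideal (OO A B)) : cjI b * cjI c ≤ cjI (b * c) := by
  rw [Ideal.mul_le]
  intro r hr s hs
  have e : star (r * s) = star r * star s := by rw [star_mul, mul_comm]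
  rw [mem_cjI, e]
  exact Ideal.mul_mem_mul hr hs

theorem cjI_mul (b c : Ideal (OO A B)) : cjI (b * c) = cjI b * cjI c := by
  refine le_antisymm ?_ (cjI_mul_le b c)
  have h := cjI_mono (cjI_mul_le (cjI b) (cjI c))
  rwa [cjI_cjI, cjI_cjI, cjI_cjI] at h

theorem cjI_sp (x : OO A B) : cjI (sp x) = sp (star x) := by
  ext y
  rw [mem_cjI, Ideal.mem_span_singleton, Ideal.mem_span_singleton]
  constructor
  · rintro ⟨z, hz⟩
    exact ⟨star z, by rw [← star_star y, hz, star_mul, mul_comm]⟩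
  · rintro ⟨z, hz⟩
    exact ⟨star z, by rw [hz, star_mul, star_star, mul_comm]⟩

theorem natCast_ne {n : ℕ} (hn : n ≠ 0) : (n : OO A B) ≠ 0 := by
  intro h
  have := congrArg QuadraticAlgebra.re h
  rw [QuadraticAlgebra.re_natCast, QuadraticAlgebra.re_zero] at this
  exact hn (by exact_mod_cast this)

theorem sp_ne {n : ℕ} (hn : n ≠ 0) : sp (n : OO A B) ≠ ⊥ := by
  rw [Ne, Ideal.span_singleton_eq_bot]
  exact natCast_ne hn

theorem nI_bot : nI (⊥ : Ideal (OO A B)) = 0 := by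
  unfold nI
  have : Infinite (OO A B ⧸ (⊥ : Ideal (OO A B))) := by
    refine Infinite.of_injective
      (fun n : ℤ => Ideal.Quotient.mk (⊥ : Ideal (OO A B)) ((n : ℤ) : OO A B)) ?_
    intro m n hmn
    have h := Ideal.Quotient.eq.1 hmn
    rw [Ideal.mem_bot] at h
    have h2 := congrArg QuadraticAlgebra.re h
    rw [QuadraticAlgebra.re_sub, QuadraticAlgebra.re_intCast, QuadraticAlgebra.re_intCast,
      QuadraticAlgebra.re_zero] at h2
    simp only [Int.cast_id] at h2
    omega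
  exact Nat.card_eq_zero_of_infinite

/-- an ideal inside `(n)` is `(n) c` -/
theorem exists_quot (n : OO A B) (I : Ideal (OO A B)) (hI : I ≤ sp n) :
    ∃ c : Ideal (OO A B), I = sp n * c := by
  refine ⟨Submodule.comap (LinearMap.mulLeft (OO A B) n) I, ?_⟩
  ext z
  rw [Ideal.mem_span_singleton_mul]
  constructor
  · intro hz
    obtain ⟨y, hy⟩ := Ideal.mem_span_singleton.1 (hI hz)
    refine ⟨y, ?_, hy.symm⟩
    rw [Submodule.mem_comap, LinearMap.mulLeft_apply, ← hy]
    exact hz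
  · rintro ⟨y, hy, rfl⟩
    exact hy

end LcnAux

open _root_.Pool.Agent.MUXF.LcnAux in
theorem tx_LCN (h1 : Sx_ALG) (h2 : Sx_IDL) (h3 : Sx_NIM) (h4 : Sx_QB) : Sx_LCN := by
  intro A B h b P l hb hP hPl hl
  have hP0 : P ≠ ⊥ := by
    rintro rfl
    rw [nI_bot] at hPl
    exact hl.ne_zero hPl.symm
  obtain ⟨-, hA2, -, -, -⟩ := h1 A B h
  obtain ⟨hmul, -, hcj, hcan⟩ := h3 A B h
  obtain ⟨hn0, hbb⟩ := h2 A B h b hb
  obtain ⟨hcP1, hcP2, hcP3, hcP4⟩ := hcj P hP0
  have hlP : ((l : ℕ) : OO A B) ∈ P := by rw [← hPl]; exact hcP4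
  have hlc : ((l : ℕ) : OO A B) ∈ cjI P := by
    have := (hcj (cjI P) hcP3).2.2.2
    rwa [hcP1, hPl] at this
  have hbP : nI (b * P) = nI b * l := by rw [(hmul b P hb hP0).1, hPl]
  have hn0' : (nI b : ℤ) ≠ 0 := by exact_mod_cast hn0
  refine ⟨hlP, hlc, hbP, ?_, ?_⟩
  · intro x hx
    have hxb : x ∈ b := (Ideal.mul_le_left : b * P ≤ b) hx
    have e1 := ((h4 A B h b hb).1 x hxb).1
    have e2 := ((h4 A B h (b * P) (hmul b P hb hP0).2).1 x hx).1
    rw [hbP, e1] at e2
    apply mul_left_cancel₀ hn0'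
    rw [e2]
    push_cast
    ring
  · intro x hx hdvd
    have e1 := ((h4 A B h b hb).1 x hx).1
    have hle : sp x * cjI b ≤ sp ((nI b : ℕ) : OO A B) := by
      rw [← hbb]
      exact Ideal.mul_mono_left ((Ideal.span_singleton_le_iff_mem _).2 hx)
    obtain ⟨c, hc⟩ := exists_quot _ _ hle
    have hc2 : sp (star x) * b = sp ((nI b : ℕ) : OO A B) * cjI c := by
      have := congrArg cjI hc
      rwa [cjI_mul, cjI_mul, cjI_sp, cjI_sp, cjI_cjI, star_natCast] at this
    set n : OO A B := ((nI b : ℕ) : OO A B) with hn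
    set q : OO A B := ((qb b x : ℤ) : OO A B) with hq
    have hxx : sp x * sp (star x) = sp n * sp q := by
      rw [Ideal.span_singleton_mul_span_singleton, Ideal.span_singleton_mul_span_singleton,
        (hA2 x).2.2.2.2.1, e1]
      push_cast
      rfl
    have hkey : (sp n * sp n) * (c * cjI c) = (sp n * sp n) * sp q := by
      calc (sp n * sp n) * (c * cjI c) = (sp n * c) * (sp n * cjI c) := by ring
        _ = (sp x * cjI b) * (sp (star x) * b) := by rw [← hc, ← hc2]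
        _ = (sp x * sp (star x)) * (b * cjI b) := by ring
        _ = (sp n * sp q) * sp n := by rw [hxx, hbb]
        _ = (sp n * sp n) * sp q := by ring
    have hnn : sp n * sp n ≠ ⊥ := (hmul _ _ (sp_ne hn0) (sp_ne hn0)).2
    have hcc : c * cjI c ≤ sp q := (hcan _ _ _ hnn).1 hkey.le
    have hqP : sp q ≤ P := by
      rw [Ideal.span_singleton_le_iff_mem]
      obtain ⟨k, hk⟩ := hdvd
      rw [hq, hk]
      push_cast
      exact P.mul_mem_right _ hlP
    have hcb : cjI b ≠ ⊥ := (hcj b hb).2.2.1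
    have hfin : ∀ R : Ideal (OO A B), c ≤ R → x ∈ b * R := by
      intro R hR
      have : cjI b * sp x ≤ cjI b * (b * R) := by
        calc cjI b * sp x = sp x * cjI b := mul_comm _ _
          _ = sp n * c := hc
          _ ≤ sp n * R := Ideal.mul_mono_right hR
          _ = b * cjI b * R := by rw [hbb]
          _ = cjI b * (b * R) := by ring
      exact (hcan _ _ _ hcb).1 this (Ideal.mem_span_singleton_self x)
    rcases hP.mul_le.1 (hcc.trans hqP) with h5 | h5
    · exact Or.inl (hfin P h5)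
    · right
      apply hfin
      have := cjI_mono h5
      rwa [cjI_cjI] at this

end Pool.Agent.MUXF


end

section

/-!
# MUX, block XF: integrability of theta on the vertical lines over rational numbers (ITG) (helper91)
-/

set_option autoImplicit false

namespace Pool.Agent.MUXF

open _root_.MU3 _root_.Pool.Agent.MU3A _root_.Pool.Agent.MU3B _root_.Pool.Agent.MU3F _root_.Pool.Agent.MuSym OnePoint

/-- (ITG) -/
theorem tx_ITG (hALG : Sx_ALG) (hF4 : Sx_F4) (hLAT : Sx_LAT1) : Sx_ITG := by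
  intro A B hc b g e hb hg he r
  obtain ⟨L, hL⟩ := hLAT A B hc b 1 hb one_ne_zero
  obtain ⟨x, hx, hx0⟩ := Submodule.exists_mem_ne_zero_of_ne_bot hg
  obtain ⟨-, h2, -⟩ := hALG A B hc
  obtain ⟨-, h3, h4, -, h5, -⟩ := h2 x
  have hn : (nm x).toNat ≠ 0 := by
    have : nm x ≠ 0 := fun h => hx0 (h3.1 h)
    omega
  have hng : (((nm x).toNat : ℕ) : OO A B) ∈ g := by
    have e1 : (((nm x).toNat : ℕ) : OO A B) = ((nm x : ℤ) : OO A B) := by
      rw [← Int.cast_natCast, Int.toNat_of_nonneg h4]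
    rw [e1, ← h5, mul_comm]
    exact g.mul_mem_left _ hx
  have hM : r.den ≠ 0 := r.den_nz
  have h6 := (hF4 A B hc b L 1 hL g e he ((nm x).toNat * r.den) r.den (mul_ne_zero hn hM)
    (by
      push_cast
      rw [mul_comm]
      exact g.mul_mem_left _ hng) hM (Dvd.intro_left _ rfl) r.num).1
  rw [Rat.num_div_den] at h6
  exact h6

end Pool.Agent.MUXF


end

section

/-!
# MUX, block XF, module HU (helper23): the Hecke operator on the symbol

Adapted from `MU3/F_F3.lean`.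
-/

set_option autoImplicit false

namespace Pool.Agent.MUXF

open _root_.MU3 _root_.Pool.Agent.MU3A _root_.Pool.Agent.MU3B _root_.Pool.Agent.MU3F _root_.Pool.Agent.MuSym OnePoint
open scoped ComplexConjugate

noncomputable section

namespace HU

/-- the relation for the integrals along the vertical lines -/
lemma main (hUL : Sx_UL) (hITG : Sx_ITG) (A B : ℤ) (hC : CQ A B) (b g P : Ideal (OO A B))
    (e : OO A B → ℂ) (l : ℕ) (hb : b ≠ ⊥) (hg : g ≠ ⊥) (he : IsEI g e) (hP : P.IsPrime)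
    (hPl : nI P = l) (hl : l.Prime) (hgP : g ≤ cjI P) (r : ℚ) :
    ∑ j ∈ Finset.range l, IvI b e ((r + j) / l) = IvI (b * P) e r := by
  have hl0 : (0 : ℝ) < (l : ℝ) := by exact_mod_cast hl.pos
  have hl1 : (l : ℂ) ≠ 0 := by exact_mod_cast hl.ne_zero
  have h1 : ∀ j ∈ Finset.range l, MeasureTheory.IntegrableOn
      (fun t : ℝ => thetaI b e ((((r + (j : ℚ)) / l : ℚ) : ℂ) + t * Complex.I)) (Set.Ioi 0) :=
    fun j _ => hITG A B hC b g e hb hg he _
  unfold IvI
  rw [← Finset.mul_sum, ← MeasureTheory.integral_finsetSum _ h1]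
  have h2 : ∫ t in Set.Ioi (0 : ℝ), ∑ j ∈ Finset.range l,
      thetaI b e ((((r + (j : ℚ)) / l : ℚ) : ℂ) + t * Complex.I) =
      ∫ t in Set.Ioi (0 : ℝ), (l : ℂ) *
        (fun s : ℝ => thetaI (b * P) e ((r : ℂ) + s * Complex.I)) (l * t) := by
    refine MeasureTheory.setIntegral_congr_fun measurableSet_Ioi fun t ht => ?_
    have ht0 : (0 : ℝ) < t := ht
    have hz : 0 < ((r : ℂ) + (((l : ℝ) * t : ℝ) : ℂ) * Complex.I).im := by
      simp only [Complex.add_im, Complex.ratCast_im, Complex.mul_im, Complex.ofReal_re,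
        Complex.I_im, mul_one, Complex.ofReal_im, Complex.I_re, mul_zero, add_zero, zero_add]
      positivity
    have h3 := hUL A B hC b g P e l hb hg he hP hPl hl hgP _ hz
    show ∑ j ∈ Finset.range l, thetaI b e ((((r + (j : ℚ)) / l : ℚ) : ℂ) + t * Complex.I) =
      (l : ℂ) * thetaI (b * P) e ((r : ℂ) + (((l : ℝ) * t : ℝ) : ℂ) * Complex.I)
    rw [← h3]
    refine Finset.sum_congr rfl fun j _ => ?_
    congr 1
    push_cast
    field_simp
    ring
  rw [h2, MeasureTheory.integral_const_mul]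
  have h4 := MeasureTheory.integral_comp_mul_left_Ioi
    (fun s : ℝ => thetaI (b * P) e ((r : ℂ) + s * Complex.I)) 0 (b := (l : ℝ)) hl0
  rw [h4, mul_zero, Complex.real_smul, Complex.ofReal_inv, Complex.ofReal_natCast,
    mul_inv_cancel_left₀ hl1]

lemma mobl (l : ℕ) (hl : l ≠ 0) (j : ℤ) (r : ℚ) :
    mob 1 j 0 l (r : OnePoint ℚ) = (((r + j) / l : ℚ) : OnePoint ℚ) := by
  have hl' : (l : ℚ) ≠ 0 := by exact_mod_cast hl
  show (if ((0 : ℤ) : ℚ) * r + ((l : ℤ) : ℚ) = 0 then ∞ else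
    (((((1 : ℤ) : ℚ) * r + (j : ℚ)) / (((0 : ℤ) : ℚ) * r + ((l : ℤ) : ℚ)) : ℚ) : OnePoint ℚ)) = _
  rw [if_neg (by simpa using hl)]
  norm_num

lemma mobl_inf (l : ℕ) (j : ℤ) : mob 1 j 0 l (∞ : OnePoint ℚ) = ∞ := by
  show (if (0 : ℤ) = 0 then (∞ : OnePoint ℚ) else
    ((((1 : ℤ) : ℚ) / ((0 : ℤ) : ℚ) : ℚ) : OnePoint ℚ)) = _
  rw [if_pos rfl]

lemma ic (hUL : Sx_UL) (hITG : Sx_ITG) (A B : ℤ) (hC : CQ A B) (b g P : Ideal (OO A B))
    (e : OO A B → ℂ) (l : ℕ) (hb : b ≠ ⊥) (hg : g ≠ ⊥) (he : IsEI g e) (hP : P.IsPrime)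
    (hPl : nI P = l) (hl : l.Prime) (hgP : g ≤ cjI P) (x : OnePoint ℚ) :
    ∑ j ∈ Finset.range l, IcI b e (mob 1 j 0 l x) = IcI (b * P) e x := by
  induction x using OnePoint.rec with
  | infty =>
    have h1 : ∀ c : Ideal (OO A B), IcI c e (∞ : OnePoint ℚ) = 0 := fun _ => rfl
    rw [h1]
    refine Finset.sum_eq_zero fun j _ => ?_
    rw [mobl_inf]
    exact h1 b
  | coe r =>
    have h1 : ∀ (c : Ideal (OO A B)) (q : ℚ), IcI c e (q : OnePoint ℚ) = IvI c e q :=
      fun _ _ => rfl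
    rw [h1, ← main hUL hITG A B hC b g P e l hb hg he hP hPl hl hgP r]
    refine Finset.sum_congr rfl fun j _ => ?_
    rw [mobl l hl.ne_zero, h1]
    push_cast
    rfl

end HU

open _root_.Pool.Agent.MUXF.HU in
theorem tx_HU (hLCN : Sx_LCN) (hUL : Sx_UL) (hITG : Sx_ITG) : Sx_HU := by
  intro A B hC b g P e l hb hg he hP hPl hl hgP
  have hl0 : nuQ e l = 0 := by
    unfold nuQ
    have h : e (((l : ℤ)) : OO A B) = 0 := by
      by_contra hc
      have hcop := (he.supp _).1 hc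
      have hmem : ((l : ℕ) : OO A B) ∈ cjI P := (hLCN A B hC b P l hb hP hPl hl).2.1
      rw [Ideal.isCoprime_iff_sup_eq] at hcop
      have h1 : sp (((l : ℤ)) : OO A B) ⊔ g ≤ cjI P := by
        refine sup_le ?_ hgP
        rw [Ideal.span_singleton_le_iff_mem]
        push_cast
        exact hmem
      rw [hcop, top_le_iff, Ideal.eq_top_iff_one] at h1
      have h2 : starRingEnd (OO A B) 1 ∈ P := h1
      rw [map_one] at h2
      exact hP.ne_top ((Ideal.eq_top_iff_one _).2 h2)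
    rw [h, mul_zero]
  refine ⟨hl0, fun x y => ?_⟩
  unfold hecke
  rw [hl0, zero_mul, add_zero]
  unfold PhiI
  rw [Finset.sum_sub_distrib]
  congr 1
  · exact ic hUL hITG A B hC b g P e l hb hg he hP hPl hl hgP x
  · exact ic hUL hITG A B hC b g P e l hb hg he hP hPl hl hgP y

end

end Pool.Agent.MUXF


end

section

/-!
# MUX, block XF: module F7 (helper7), the values of the symbol lie in a finitely generated group

Adapted from `Pool/Agent/MU3/F_F7.lean`.
-/

set_option autoImplicit false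

namespace Pool.Agent.MUXF

open _root_.MU3 _root_.Pool.Agent.MU3A _root_.Pool.Agent.MU3B _root_.Pool.Agent.MU3F _root_.Pool.Agent.MuSym OnePoint
open scoped ComplexConjugate

noncomputable section

/-- the values of `chiQ` -/
lemma chiQ_mem (A B d : ℤ) : chiQ A B d ∈ ({-1, 0, 1} : Set ℤ) := by
  unfold chiQ
  split_ifs
  · rcases jacobiSym.trichotomy d (absD A B).toNat with h | h | h <;> rw [h] <;> simp
  · rcases jacobiSym.trichotomy A d.natAbs with h | h | h <;> rw [h] <;>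
      rcases lt_trichotomy d 0 with hd | hd | hd <;>
      simp [Int.sign_eq_neg_one_of_neg, Int.sign_eq_one_of_pos, hd]

/-- F7. -/
theorem tx_F7 (hBDD : Sx_BDD) (hFG : Sf_FG) : Sx_F7 := by
  intro A B hc b g e _ hg he N hN hs
  refine hFG N (nuQ e) (PhiI b e) hN hs ?_
  have h1 : (Set.range e).Finite := (hBDD A B hc g e hg he).1
  have h2 : ({-1, 0, 1} : Set ℤ).Finite := Set.toFinite _
  refine (h2.image2 (fun (c : ℤ) (z : ℂ) => (c : ℂ) * z) h1).subset ?_
  rintro _ ⟨d, rfl⟩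
  exact ⟨chiQ A B d, chiQ_mem A B d, e (d : OO A B), ⟨_, rfl⟩, rfl⟩

end

end Pool.Agent.MUXF


end

section

/-!
# MU3, block FH, module F5: Fourier transform of the values of the symbol
-/

set_option autoImplicit false

namespace Pool.Agent.MU3F

open _root_.MU3 _root_.Pool.Agent.MU3A _root_.Pool.Agent.MU3B _root_.Pool.Agent.MuSym OnePoint
open scoped ComplexConjugate

noncomputable section

namespace F5aux

lemma ex_add (r s : ℚ) : ex (r + s) = ex r * ex s := by
  unfold ex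
  rw [← Complex.exp_add]
  congr 1
  push_cast
  ring

lemma ex_nat_mul (b : ℕ) (r : ℚ) : ex (b * r) = ex r ^ b := by
  unfold ex
  rw [← Complex.exp_nat_mul]
  congr 1
  push_cast
  ring

lemma ex_eq_one (r : ℚ) : ex r = 1 ↔ ∃ k : ℤ, r = k := by
  unfold ex
  rw [Complex.exp_eq_one_iff]
  have h0 : (2 * (Real.pi : ℂ) * Complex.I) ≠ 0 := by
    simp [Real.pi_ne_zero]
  constructor
  · rintro ⟨k, hk⟩
    refine ⟨k, ?_⟩
    have h1 : (r : ℂ) = (k : ℂ) := by
      apply mul_left_cancel₀ h0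
      rw [hk]
      ring
    exact_mod_cast h1
  · rintro ⟨k, rfl⟩
    exact ⟨k, by push_cast; ring⟩

lemma sum_ex (M : ℕ) (hM : 0 < M) (k : ℤ) :
    ∑ b ∈ Finset.range M, ex (b * (k / M)) = if (M : ℤ) ∣ k then (M : ℂ) else 0 := by
  have hMq : (M : ℚ) ≠ 0 := by exact_mod_cast hM.ne'
  simp only [ex_nat_mul]
  split_ifs with h
  · have h1 : ex ((k : ℚ) / M) = 1 := by
      rw [ex_eq_one]
      obtain ⟨j, hj⟩ := h
      refine ⟨j, ?_⟩
      rw [hj]
      push_cast
      field_simp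
    rw [h1]
    simp
  · have h1 : ex ((k : ℚ) / M) ≠ 1 := by
      rw [Ne, ex_eq_one]
      rintro ⟨j, hj⟩
      apply h
      refine ⟨j, ?_⟩
      rw [div_eq_iff hMq] at hj
      have h2 : (k : ℚ) = ((M * j : ℤ) : ℚ) := by
        rw [hj]
        push_cast
        ring
      exact_mod_cast h2
    have h2 : ex ((k : ℚ) / M) ^ M = 1 := by
      rw [← ex_nat_mul, ex_eq_one]
      exact ⟨k, by field_simp⟩
    have h3 := mul_neg_geom_sum (ex ((k : ℚ) / M)) M
    rw [h2, sub_self] at h3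
    rcases mul_eq_zero.1 h3 with h4 | h4
    · exact absurd (sub_eq_zero.1 h4).symm h1
    · exact h4

end F5aux

open _root_.Pool.Agent.MU3F.F5aux

theorem tf_F5 (hALG : Sf_ALG) (hSM : Sf_SM) (hF4 : Sf_F4) : Sf_F5 := by
  classical
  intro A B hAB L Om hL f n e hf he c hc
  obtain ⟨-, a2, -, -, a5, -⟩ := hALG A B hAB
  set M : ℕ := 3 ^ (n + 1) with hM
  have hMpos : 0 < M := by positivity
  have hMc : (M : ℂ) ≠ 0 := by exact_mod_cast hMpos.ne'
  have hfc : (f : ℂ) ≠ 0 := by exact_mod_cast hf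
  set m : OO A B := ((f * M : ℕ) : OO A B) with hm
  have hembm : emb m = (f : ℂ) * M := by
    rw [hm, emb_natCast hAB]
    push_cast
    ring
  have hembm0 : emb m ≠ 0 := by
    rw [hembm]
    exact mul_ne_zero hfc hMc
  have hm0 : m ≠ 0 := by
    intro h
    apply hembm0
    rw [h, emb_zero hAB]
  have hgm : (f : OO A B) * star (ppi A B) ∣ m := by
    have h3 : star (ppi A B) ∣ (3 : OO A B) := ⟨ppi A B, by rw [mul_comm]; exact a5.symm⟩
    have h4 : star (ppi A B) ∣ (M : OO A B) := by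
      rw [hM]
      push_cast
      exact h3.trans (dvd_pow_self _ (by omega))
    rw [hm]
    push_cast
    exact mul_dvd_mul_left _ (by exact_mod_cast h4)
  have hMm : (M : OO A B) ∣ m := by
    rw [hm]
    exact ⟨(f : OO A B), by push_cast; ring⟩
  obtain ⟨s1, -, s3, -, s5⟩ := hSM A B hAB m hm0
  -- the values of the symbol
  set F : ℕ → OO A B → ℂ := fun b x => e x * ex (b * nm x / M) * ee L (Om * emb x / emb m) with hF
  have hPhi : ∀ b : ℕ, Phi e ∞ (((b / 3 ^ (n + 1) : ℚ) : ℚ) : OnePoint ℚ) =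
      Om / (2 * emb m) * sumMod m (F b) := by
    intro b
    have h1 := (hF4 A B hAB L Om hL _ m e he hm0 hgm M hMpos hMm (b : ℤ)).2
    have h2 : ((b : ℚ) / 3 ^ (n + 1) : ℚ) = (((b : ℤ) : ℚ) / (M : ℚ)) := by
      rw [hM]
      push_cast
      ring
    have h3 : Phi e ∞ (((b / 3 ^ (n + 1) : ℚ) : ℚ) : OnePoint ℚ) =
        0 - Iv e ((b : ℚ) / 3 ^ (n + 1)) := rfl
    rw [h3, h2, h1, hF]
    push_cast
    ring
  have hex : ∀ b : ℕ, ex (-(b * c) / 3 ^ (n + 1)) = ex (-(b * c) / M) := by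
    intro b
    rw [hM]
    push_cast
    rfl
  have hR : (2 * f / Om) * ∑ b ∈ Finset.range M,
        ex (-(b * c) / 3 ^ (n + 1)) * Phi e ∞ (((b / 3 ^ (n + 1) : ℚ) : ℚ) : OnePoint ℚ) =
      sumMod m (fun x => (1 / (M : ℂ)) * ∑ b ∈ Finset.range M, ex (-(b * c) / M) * F b x) := by
    rw [s1, s3, Finset.mul_sum, Finset.mul_sum]
    refine Finset.sum_congr rfl fun b _ => ?_
    rw [hPhi b, hex b, s1, hembm]
    have := hL.Om_ne
    field_simp
  have hgoal : (∑ b ∈ Finset.range (3 ^ (n + 1)),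
        ex (-(b * c) / 3 ^ (n + 1)) * Phi e ∞ (((b / 3 ^ (n + 1) : ℚ) : ℚ) : OnePoint ℚ)) =
      ∑ b ∈ Finset.range M,
        ex (-(b * c) / 3 ^ (n + 1)) * Phi e ∞ (((b / 3 ^ (n + 1) : ℚ) : ℚ) : OnePoint ℚ) := rfl
  rw [hgoal, hR]
  refine s5 _ _ fun x => ?_
  -- pointwise
  have hsum : ∑ b ∈ Finset.range M, ex (-(b * c) / M) * F b x =
      (if (M : ℤ) ∣ nm x - c then (M : ℂ) else 0) * (e x * ee L (Om * emb x / emb m)) := by
    rw [← sum_ex M hMpos (nm x - c), Finset.sum_mul]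
    refine Finset.sum_congr rfl fun b _ => ?_
    rw [hF]
    have h1 : ((b : ℚ) * (((nm x - c : ℤ) : ℚ) / (M : ℚ))) = -(b * c) / M + b * nm x / M := by
      push_cast
      ring
    rw [h1, ex_add]
    ring
  rw [hsum]
  have harg : Om * emb x / emb m = emb x * (Om / emb m) := by ring
  rw [harg]
  have hdvd : ((M : ℤ) ∣ nm x - c) ↔ ((3 : ℤ) ^ (n + 1) ∣ nm x - c) := by
    rw [hM]
    push_cast
    rfl
  by_cases h1 : (3 : ℤ) ^ (n + 1) ∣ nm x - c
  · rw [if_pos (hdvd.2 h1)]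
    by_cases h2 : e x = 0
    · rw [h2]
      simp
    · have hcop : IsCoprime x m := by
        have h3 := (he.supp x).1 h2
        have h4 : IsCoprime x (f : OO A B) := h3.of_mul_right_left
        have h5 : ¬ (3 : ℤ) ∣ nm x := by
          intro h6
          apply hc
          have h7 : (3 : ℤ) ∣ nm x - c := (dvd_pow_self _ (by omega)).trans h1
          have h8 := dvd_sub h6 h7
          rwa [sub_sub_cancel] at h8
        have h6 : IsCoprime (nm x) 3 := by
          exact ((Int.prime_three.coprime_iff_not_dvd).2 h5).symm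
        obtain ⟨u, v, huv⟩ := h6
        have h7 : IsCoprime x (3 : OO A B) := by
          refine ⟨(u : OO A B) * star x, (v : OO A B), ?_⟩
          have h8 := congrArg (fun z : ℤ => (z : OO A B)) huv
          push_cast at h8
          rw [← h8, ← (a2 x).2.2.1]
          ring
        have h8 : IsCoprime x (M : OO A B) := by
          rw [hM]
          push_cast
          exact h7.pow_right
        rw [hm]
        push_cast
        have h9 := h4.mul_right h8
        exact_mod_cast h9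
      rw [if_pos ⟨hcop, h1⟩]
      field_simp
  · rw [if_neg (fun h => h1 (hdvd.1 h)), if_neg (fun h => h1 h.2)]
    ring

end

end Pool.Agent.MU3F


end

section

/-!
# MUX, block XF, module F5: Fourier transform of the values of the symbol
-/

set_option autoImplicit false

namespace Pool.Agent.MUXF

open _root_.MU3 _root_.Pool.Agent.MU3A _root_.Pool.Agent.MU3B _root_.Pool.Agent.MU3F _root_.Pool.Agent.MuSym OnePoint
open _root_.Pool.Agent.MU3F.F5aux
open scoped ComplexConjugate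

noncomputable section

namespace F5x

variable {A B : ℤ}

theorem sm_mul (I : OO A B) [Finite (OO A B ⧸ Ideal.span {I})] (c : ℂ) (F : OO A B → ℂ) :
    sumMod I (fun x => c * F x) = c * sumMod I F := by
  let _ : Fintype (OO A B ⧸ Ideal.span {I}) := Fintype.ofFinite _
  unfold sumMod
  rw [finsum_eq_sum_of_fintype, finsum_eq_sum_of_fintype, Finset.mul_sum]

theorem sm_sum (I : OO A B) [Finite (OO A B ⧸ Ideal.span {I})] (s : Finset ℕ)
    (F : ℕ → OO A B → ℂ) :
    sumMod I (fun x => ∑ b ∈ s, F b x) = ∑ b ∈ s, sumMod I (F b) := by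
  let _ : Fintype (OO A B ⧸ Ideal.span {I}) := Fintype.ofFinite _
  unfold sumMod
  simp only [finsum_eq_sum_of_fintype]
  rw [Finset.sum_comm]

end F5x

open _root_.Pool.Agent.MUXF.F5x in
theorem tx_F5 (h1 : Sx_ALG) (h2 : Sx_IDL) (h4 : Sx_QB) (h6 : Sx_CNV) (h7 : Sx_F4)
    (h8 : St_PER) : Sx_F5 := by
  classical
  intro A B hAB b L Om hL g e he m M hm0 hmg hM0 hMm hcop
  obtain ⟨hal, hx, hz, hfin, hdom⟩ := h1 A B hAB
  have hb : b ≠ ⊥ := hL.b_ne
  obtain ⟨hN0, -⟩ := h2 A B hAB b hb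
  obtain ⟨-, hq2, hq3⟩ := h4 A B hAB b hb
  have hmC : (m : ℂ) ≠ 0 := by exact_mod_cast hm0
  have hMC : (M : ℂ) ≠ 0 := by exact_mod_cast hM0
  have hNC : ((nI b : ℕ) : ℂ) ≠ 0 := by exact_mod_cast hN0
  have hOm := hL.om_ne
  have hembN : ∀ n : ℕ, emb ((n : ℕ) : OO A B) = n := by
    intro n
    have := (hz n).1
    rw [Int.cast_natCast] at this
    rw [this]
    push_cast
    rfl
  have hmO : ((m : ℕ) : OO A B) ≠ 0 := by
    intro h0
    have h9 := ((hx _).1).2 h0
    rw [hembN] at h9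
    exact hmC h9
  have hspan : Ideal.span {((m : ℕ) : OO A B)} ≠ ⊥ := by
    rw [Ne, Ideal.span_singleton_eq_bot]
    exact hmO
  have hF := hfin _ hspan
  -- `e (N b)` is not zero
  have hbez : ∃ u v : ℤ, u * (nI b : ℤ) + v * (m : ℤ) = 1 := by
    have h9 : IsCoprime ((nI b : ℕ) : ℤ) (m : ℤ) := Nat.isCoprime_iff_coprime.2 hcop
    obtain ⟨u, v, huv⟩ := h9
    exact ⟨u, v, huv⟩
  have heN : e ((nI b : ℕ) : OO A B) ≠ 0 := by
    rw [he.supp]
    rw [Ideal.isCoprime_iff_exists]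
    obtain ⟨u, v, huv⟩ := hbez
    refine ⟨(u : OO A B) * ((nI b : ℕ) : OO A B),
      Ideal.mul_mem_left _ _ (Ideal.mem_span_singleton_self _), (v : OO A B) * (m : OO A B),
      Ideal.mul_mem_left _ _ hmg, ?_⟩
    have h9 := congrArg (fun z : ℤ => (z : OO A B)) huv
    push_cast at h9
    exact h9
  refine ⟨heN, fun c => ?_⟩
  -- periodicity
  set F : ℤ → OO A B → ℂ := fun β x => e x * ex (β * qb b x / M) * ee L (Om * emb x / m) with hFd
  have hper : ∀ β : ℤ, ∀ x ∈ b, ∀ y ∈ b, F β (x + m * y) = F β x := by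
    intro β x hxb y hyb
    rw [hFd]
    have e1 : e (x + m * y) = e x := by
      apply he.per
      rw [add_sub_cancel_left]
      exact Ideal.mul_mem_right _ _ hmg
    have e2 : ex (β * qb b (x + m * y) / M) = ex (β * qb b x / M) := by
      obtain ⟨k, hk⟩ := hq2 x hxb y hyb m
      rw [Int.cast_natCast] at hk
      obtain ⟨j, hj⟩ := hMm
      have hMq : (M : ℚ) ≠ 0 := by exact_mod_cast hM0
      have h9 : ((β : ℚ) * ((qb b (x + m * y) : ℤ) : ℚ) / (M : ℚ)) =
          β * qb b x / M + ((β * j * k : ℤ) : ℚ) := by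
        rw [hk, hj]
        push_cast
        field_simp
      rw [h9, ex_add, (ex_eq_one _).2 ⟨_, rfl⟩, mul_one]
    have e3 : ee L (Om * emb (x + (m : OO A B) * y) / m) = ee L (Om * emb x / m) := by
      have h9 : Om * emb (x + (m : OO A B) * y) / m = Om * emb x / m + Om * emb y := by
        rw [(hal _ _).2.1, (hal _ _).1, hembN]
        field_simp
      rw [h9]
      exact (h8 L).1 _ _ ((hL.mem _).2 ⟨y, hyb, rfl⟩)
    dsimp only
    rw [e1, e2, e3]
  -- values of the symbol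
  have hPhi : ∀ β : ℕ, PhiI b e ∞ (((β / M : ℚ) : ℚ) : OnePoint ℚ) =
      (Om * nI b / (2 * m)) * (e ((nI b : ℕ) : OO A B)) * sumMod (m : OO A B) (fun x =>
        ex (β * (nI b * nm x) / M) * (e x * ee L (Om * nI b * emb x / m))) := by
    intro β
    have h9 : PhiI b e ∞ (((β / M : ℚ) : ℚ) : OnePoint ℚ) = 0 - IvI b e ((β : ℚ) / M) := rfl
    have h10 := (h7 A B hAB b L Om hL g e he m M hm0 hmg hM0 hMm (β : ℤ)).2
    have h11 := h6 A B hAB b m hb hm0 hcop (F β) (hper β)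
    rw [Int.cast_natCast] at h10
    have h12 : (fun x => e x * ex ((β : ℚ) * qb b x / M) * ee L (Om * emb x / m)) = F β := by
      rw [hFd]
      dsimp only
      rw [Int.cast_natCast]
    rw [h9, h10, h12, h11]
    have h13 : (fun x : OO A B => F β (((nI b : ℕ) : OO A B) * x)) = fun x =>
        (e ((nI b : ℕ) : OO A B)) * (ex (β * (nI b * nm x) / M) *
          (e x * ee L (Om * nI b * emb x / m))) := by
      funext x
      rw [hFd]
      dsimp only
      rw [he.mul, hq3, (hal _ _).1, hembN]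
      push_cast
      rw [show Om * (((nI b : ℕ) : ℂ) * emb x) / m = Om * nI b * emb x / m by ring]
      ring
    rw [h13, sm_mul]
    ring
  -- the Fourier transform
  have hsum : ∑ β ∈ Finset.range M, ex (-(β * c) / M) *
      PhiI b e ∞ (((β / M : ℚ) : ℚ) : OnePoint ℚ) =
      (Om * nI b / (2 * m)) * (e ((nI b : ℕ) : OO A B)) * (M : ℂ) * sumMod (m : OO A B) (fun x =>
        if (M : ℤ) ∣ nI b * nm x - c then e x * ee L (Om * nI b * emb x / m) else 0) := by
    have h9 : ∀ β ∈ Finset.range M, ex (-(β * c) / M) *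
        PhiI b e ∞ (((β / M : ℚ) : ℚ) : OnePoint ℚ) =
        (Om * nI b / (2 * m)) * (e ((nI b : ℕ) : OO A B)) * sumMod (m : OO A B) (fun x =>
          ex (β * (((nI b * nm x - c : ℤ) : ℚ) / M)) * (e x * ee L (Om * nI b * emb x / m))) := by
      intro β _
      rw [hPhi β, mul_left_comm, ← sm_mul]
      congr 1
      congr 1
      funext x
      rw [← mul_assoc, ← ex_add]
      congr 2
      push_cast
      ring
    rw [Finset.sum_congr rfl h9, ← Finset.mul_sum, ← sm_sum, mul_assoc _ (M : ℂ)]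
    congr 1
    rw [← sm_mul]
    congr 1
    funext x
    rw [← Finset.sum_mul, sum_ex M (Nat.pos_of_ne_zero hM0)]
    split_ifs
    · rfl
    · rw [zero_mul, mul_zero]
  rw [hsum]
  field_simp

end

end Pool.Agent.MUXF


end

section

/-!
# MUX, block XF: the values of the symbol at all rational numbers (F4) (helper46)
-/

set_option autoImplicit false

namespace Pool.Agent.MUXF

open _root_.MU3 _root_.Pool.Agent.MU3A _root_.Pool.Agent.MU3B _root_.Pool.Agent.MU3F _root_.Pool.Agent.MuSym OnePoint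
open scoped ComplexConjugate

theorem xf4_key (v : ℂ) (hv : v ≠ 0) (N : ℝ) (hN : N ≠ 0) :
    conj v / ((2 * Real.pi * ‖v‖ ^ 2 / N : ℝ) : ℂ) = N / (2 * Real.pi * v) := by
  have h1 : ((2 * Real.pi * ‖v‖ ^ 2 / N : ℝ) : ℂ) = 2 * Real.pi * (v * conj v) / N := by
    rw [Complex.mul_conj, Complex.normSq_eq_norm_sq]
    push_cast
    ring
  have h2 : conj v ≠ 0 := (map_ne_zero _).mpr hv
  have h3 : (Real.pi : ℂ) ≠ 0 := by exact_mod_cast Real.pi_ne_zero
  have h4 : (N : ℂ) ≠ 0 := by exact_mod_cast hN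
  rw [h1]
  field_simp

theorem tx_F4 (h2 : Sx_SMB) (h3 : Sx_IDL) (h4 : Sx_THD) (h5 : Pool.Agent.MU3B.St_INT) :
    Sx_F4 := by
  intro A B hc b L Om hL g e he m M hm hmg hM hMm β
  have hfin := (h2 A B hc b m hL.b_ne hm).1
  have hft : Fintype (b ⧸ (nsmulAddMonoidHom (α := b) m).range) := Fintype.ofFinite _
  have hN0 : nI b ≠ 0 := (h3 A B hc b hL.b_ne).1
  have hNR : (nI b : ℝ) ≠ 0 := by exact_mod_cast hN0
  have hNpos : (0 : ℝ) < nI b := by exact_mod_cast Nat.pos_of_ne_zero hN0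
  have hNC : (nI b : ℂ) ≠ 0 := by exact_mod_cast hN0
  have hmC : (m : ℂ) ≠ 0 := by exact_mod_cast hm
  have hOm := hL.om_ne
  have hv : (m : ℂ) / Om ≠ 0 := div_ne_zero hmC hOm
  have hc0 : (0 : ℝ) < 2 * Real.pi * ‖(m : ℂ) / Om‖ ^ 2 / nI b := by
    have := norm_pos_iff.mpr hv
    positivity
  set v : ℂ := (m : ℂ) / Om with hvdef
  set c : ℝ := 2 * Real.pi * ‖v‖ ^ 2 / nI b with hcdef
  have hsum : ∀ F : OO A B → ℂ, sumB b m F =
      ∑ q : b ⧸ (nsmulAddMonoidHom (α := b) m).range, F (Quotient.out q : b) := fun F =>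
    finsum_eq_sum_of_fintype _
  let K : OO A B → ℝ → ℂ := fun x t => ∑' w : L.lattice, conj (Om * emb x / m + w) *
    (Real.exp (-(c * t * ‖Om * emb x / m + w‖ ^ 2)) : ℝ)
  have hKint : ∀ x, MeasureTheory.IntegrableOn (K x) (Set.Ioi 0) := fun x =>
    (h5 L c hc0 _).1
  have hKval : ∀ x, ∫ t in Set.Ioi (0 : ℝ), K x t = ee L (Om * emb x / m) / c := fun x =>
    (h5 L c hc0 _).2
  have hth : ∀ t ∈ Set.Ioi (0 : ℝ), thetaI b e (((β / M : ℚ) : ℂ) + t * Complex.I) =
      ∑ q : b ⧸ (nsmulAddMonoidHom (α := b) m).range,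
        ((1 / 2) * (e (Quotient.out q : b) *
        ex (β * qb b (Quotient.out q : b) / M) * conj v)) * K (Quotient.out q : b) t := by
    intro t ht
    rw [h4 A B hc b L Om hL g e he m M hm hmg hM hMm β t ht, hsum, Finset.mul_sum]
    refine Finset.sum_congr rfl fun q _ => ?_
    simp only [K, hcdef, hvdef]
    ring
  have hint : MeasureTheory.IntegrableOn (fun t : ℝ =>
      ∑ q : b ⧸ (nsmulAddMonoidHom (α := b) m).range,
        ((1 / 2) * (e (Quotient.out q : b) *
        ex (β * qb b (Quotient.out q : b) / M) * conj v)) * K (Quotient.out q : b) t)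
        (Set.Ioi 0) :=
    MeasureTheory.integrable_finsetSum _ fun q _ => (hKint _).const_mul _
  refine ⟨hint.congr_fun (fun t ht => (hth t ht).symm) measurableSet_Ioi, ?_⟩
  have hI : ∫ t in Set.Ioi (0 : ℝ), thetaI b e (((β / M : ℚ) : ℂ) + t * Complex.I) =
      ∑ q : b ⧸ (nsmulAddMonoidHom (α := b) m).range,
        ((1 / 2) * (e (Quotient.out q : b) *
        ex (β * qb b (Quotient.out q : b) / M) * conj v)) *
          (ee L (Om * emb ((Quotient.out q : b) : OO A B) / m) / c) := by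
    rw [MeasureTheory.setIntegral_congr_fun measurableSet_Ioi hth,
      MeasureTheory.integral_finsetSum _ fun q _ => (hKint _).const_mul _]
    refine Finset.sum_congr rfl fun q _ => ?_
    rw [MeasureTheory.integral_const_mul, hKval]
  unfold IvI
  rw [hI, hsum, Finset.mul_sum, Finset.mul_sum]
  refine Finset.sum_congr rfl fun q _ => ?_
  have h7 : (Real.pi : ℂ) ≠ 0 := by exact_mod_cast Real.pi_ne_zero
  have hkey : conj v / (c : ℂ) = nI b * Om / (2 * Real.pi * m) := by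
    rw [hcdef, xf4_key v hv _ hNR, hvdef]
    push_cast
    field_simp
  generalize e ((Quotient.out q : b) : OO A B) = E
  generalize ex (β * qb b ((Quotient.out q : b) : OO A B) / M) = X
  generalize ee L (Om * emb ((Quotient.out q : b) : OO A B) / m) = Y
  have h8 : -(2 * (Real.pi : ℂ)) * (1 / 2 * (E * X * conj v) * (Y / (c : ℂ))) =
      -(Real.pi : ℂ) * (E * X * Y) * (conj v / (c : ℂ)) := by
    ring
  rw [h8, hkey]
  field_simp

end Pool.Agent.MUXF


end

section

/-!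
# MUX, block XF: module DCM, a sum over the ideal `b` as a sum over the classes modulo `m b`
-/

set_option autoImplicit false

namespace Pool.Agent.MUXF

open _root_.MU3 _root_.Pool.Agent.MU3A _root_.Pool.Agent.MU3B _root_.Pool.Agent.MU3F _root_.Pool.Agent.MuSym OnePoint
open scoped ComplexConjugate

noncomputable section

/-- DCM. -/
theorem tx_DCM (hALG : Sx_ALG) (hSMB : Sx_SMB) : Sx_DCM := by
  intro A B hc b m hb hm G hG
  obtain ⟨halg, hnrm, hint, -, -⟩ := hALG A B hc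
  obtain ⟨hfin, -⟩ := hSMB A B hc b m hb hm
  have hcancel : ∀ w w' : b, m • w = m • w' → w = w' := by
    intro w w' h
    have h0 : (m : OO A B) * (w : OO A B) = (m : OO A B) * (w' : OO A B) := by
      have h1 := congrArg (Subtype.val) h
      simpa [nsmul_eq_mul] using h1
    have h3 : (m : OO A B) * ((w : OO A B) - (w' : OO A B)) = 0 := by
      rw [mul_sub, h0, sub_self]
    have h4 : emb (m : OO A B) * emb ((w : OO A B) - (w' : OO A B)) = 0 := by
      rw [← (halg _ _).1, h3]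
      exact (hnrm 0).1.2 rfl
    have h5 : emb (m : OO A B) ≠ 0 := by
      have h6 := (hint (m : ℤ)).1
      have h7 : emb ((m : ℕ) : OO A B) = (m : ℂ) := by
        rw [← Int.cast_natCast (R := OO A B), h6]
        norm_cast
      rw [h7]
      exact_mod_cast hm
    have h8 := (hnrm _).1.1 ((mul_eq_zero.1 h4).resolve_left h5)
    exact Subtype.ext (sub_eq_zero.1 h8)
  let H : AddSubgroup b := (nsmulAddMonoidHom (α := b) m).range
  let φ : (b ⧸ H) × b → b := fun p => Quotient.out p.1 + m • p.2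
  have hmk : ∀ p : (b ⧸ H) × b, (QuotientAddGroup.mk (φ p) : b ⧸ H) = p.1 := by
    intro p
    have h1 : (QuotientAddGroup.mk (Quotient.out p.1) : b ⧸ H) = p.1 := Quotient.out_eq p.1
    have h2 : (QuotientAddGroup.mk (m • p.2) : b ⧸ H) = 0 := by
      rw [QuotientAddGroup.eq_zero_iff]
      exact ⟨p.2, rfl⟩
    show (QuotientAddGroup.mk (Quotient.out p.1 + m • p.2) : b ⧸ H) = p.1
    rw [QuotientAddGroup.mk_add, h1, h2, add_zero]
  have hbij : Function.Bijective φ := by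
    constructor
    · intro p p' h
      have h1 : p.1 = p'.1 := by rw [← hmk p, ← hmk p', h]
      have h2 : Quotient.out p.1 + m • p.2 = Quotient.out p'.1 + m • p'.2 := h
      rw [h1] at h2
      exact Prod.ext h1 (hcancel _ _ (add_left_cancel h2))
    · intro x
      have h1 : (QuotientAddGroup.mk (Quotient.out (QuotientAddGroup.mk x : b ⧸ H)) : b ⧸ H) =
          QuotientAddGroup.mk x := Quotient.out_eq (QuotientAddGroup.mk x : b ⧸ H)
      rw [QuotientAddGroup.eq] at h1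
      obtain ⟨w, hw⟩ := h1
      refine ⟨((QuotientAddGroup.mk x : b ⧸ H), w), ?_⟩
      have hw' : m • w = -Quotient.out (QuotientAddGroup.mk x : b ⧸ H) + x := hw
      show Quotient.out (QuotientAddGroup.mk x : b ⧸ H) + m • w = x
      rw [hw', add_neg_cancel_left]
  let e : (b ⧸ H) × b ≃ b := Equiv.ofBijective φ hbij
  have hsum : Summable (fun p => G ((e p : b) : OO A B)) :=
    (Equiv.summable_iff e (f := fun x : b => G (x : OO A B))).2 hG
  have := Fintype.ofFinite (b ⧸ H)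
  rw [← Equiv.tsum_eq e (fun x : b => G (x : OO A B)), hsum.tsum_prod, tsum_fintype, sumB,
    finsum_eq_sum_of_fintype]
  refine Finset.sum_congr rfl fun q _ => tsum_congr fun w => ?_
  show G ((Quotient.out q + m • w : b) : OO A B) = G ((Quotient.out q : b) + m * (w : OO A B))
  congr 1
  simp [nsmul_eq_mul]

end

end Pool.Agent.MUXF


end

section

/-!
# MUX, block XF, module CNV: sums over `b / m b` and over `O / m`
-/

set_option autoImplicit false

namespace Pool.Agent.MUXF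

open _root_.MU3 _root_.Pool.Agent.MU3A _root_.Pool.Agent.MU3B _root_.Pool.Agent.MU3F _root_.Pool.Agent.MuSym OnePoint
open scoped ComplexConjugate

noncomputable section

namespace Cnv

/-- the norm of an ideal lies in the ideal -/
lemma nI_mem {A B : ℤ} (b : Ideal (OO A B)) : ((nI b : ℕ) : OO A B) ∈ b := by
  rw [← Ideal.Quotient.eq_zero_iff_mem, map_natCast, ← nsmul_one]
  exact card_nsmul_eq_zero'

end Cnv

/-- CNV, no hypotheses. -/
theorem tx_CNV : Sx_CNV := by
  intro A B _ b m _ hm hcop F hF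
  have hN : ∀ x : OO A B, ((nI b : ℕ) : OO A B) * x ∈ b := fun x =>
    b.mul_mem_right x (Cnv.nI_mem b)
  obtain ⟨u, v, huv⟩ : ∃ u v : OO A B, u * ((nI b : ℕ) : OO A B) + v * (m : OO A B) = 1 := by
    obtain ⟨u, v, h⟩ := (Nat.isCoprime_iff_coprime.2 hcop : IsCoprime ((nI b : ℕ) : ℤ) (m : ℤ))
    refine ⟨(u : OO A B), (v : OO A B), ?_⟩
    exact_mod_cast congrArg (fun n : ℤ => (n : OO A B)) h
  -- the class of an element
  have hmk : ∀ x y : b, (QuotientAddGroup.mk x : b ⧸ (nsmulAddMonoidHom (α := b) m).range) =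
      QuotientAddGroup.mk y ↔ ∃ z ∈ b, (y : OO A B) = x + m * z := by
    intro x y
    rw [QuotientAddGroup.eq, AddMonoidHom.mem_range]
    constructor
    · rintro ⟨z, hz⟩
      refine ⟨z, z.2, ?_⟩
      have h1 := congrArg (fun t : b => (t : OO A B)) hz
      simp only [nsmulAddMonoidHom_apply, Submodule.coe_smul_of_tower, nsmul_eq_mul,
        Submodule.coe_add, NegMemClass.coe_neg] at h1
      rw [h1]
      ring
    · rintro ⟨z, hz, h⟩
      refine ⟨⟨z, hz⟩, Subtype.ext ?_⟩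
      simp only [nsmulAddMonoidHom_apply, Submodule.coe_smul_of_tower, nsmul_eq_mul,
        Submodule.coe_add, NegMemClass.coe_neg]
      rw [h]
      ring
  unfold sumB sumMod
  symm
  refine finsum_eq_of_bijective
    (fun q : OO A B ⧸ Ideal.span {(m : OO A B)} =>
      (QuotientAddGroup.mk (⟨((nI b : ℕ) : OO A B) * Quotient.out q, hN _⟩ : b) :
        b ⧸ (nsmulAddMonoidHom (α := b) m).range)) ⟨?_, ?_⟩ ?_
  · intro q q' h
    obtain ⟨z, -, hz⟩ := (hmk _ _).1 h
    simp only at hz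
    have h1 : Ideal.Quotient.mk (Ideal.span {(m : OO A B)}) (Quotient.out q') =
        Ideal.Quotient.mk (Ideal.span {(m : OO A B)}) (Quotient.out q) := by
      rw [Ideal.Quotient.eq, Ideal.mem_span_singleton]
      refine ⟨u * z + v * (Quotient.out q' - Quotient.out q), ?_⟩
      linear_combination u * hz - (Quotient.out q' - Quotient.out q) * huv
    have h2 : ∀ t : OO A B ⧸ Ideal.span {(m : OO A B)},
        Ideal.Quotient.mk (Ideal.span {(m : OO A B)}) (Quotient.out t) = t :=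
      fun t => Quotient.out_eq t
    rw [h2, h2] at h1
    exact h1.symm
  · intro t
    obtain ⟨y, rfl⟩ := QuotientAddGroup.mk_surjective t
    refine ⟨Ideal.Quotient.mk _ (u * y), ?_⟩
    rw [eq_comm, hmk]
    have h1 : Ideal.Quotient.mk (Ideal.span {(m : OO A B)})
        (Quotient.out (Ideal.Quotient.mk (Ideal.span {(m : OO A B)}) (u * y))) =
        Ideal.Quotient.mk (Ideal.span {(m : OO A B)}) (u * y) := Quotient.out_eq _
    rw [Ideal.Quotient.eq, Ideal.mem_span_singleton] at h1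
    obtain ⟨z, hz⟩ := h1
    refine ⟨((nI b : ℕ) : OO A B) * z - v * y, b.sub_mem (hN z) (b.mul_mem_left v y.2), ?_⟩
    simp only
    linear_combination ((nI b : ℕ) : OO A B) * hz + (y : OO A B) * huv
  · intro q
    have h1 := Quotient.out_eq (QuotientAddGroup.mk
      (⟨((nI b : ℕ) : OO A B) * Quotient.out q, hN _⟩ : b) :
        b ⧸ (nsmulAddMonoidHom (α := b) m).range)
    have h2 : (QuotientAddGroup.mk (Quotient.out (QuotientAddGroup.mk
      (⟨((nI b : ℕ) : OO A B) * Quotient.out q, hN _⟩ : b) :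
        b ⧸ (nsmulAddMonoidHom (α := b) m).range)) : b ⧸ (nsmulAddMonoidHom (α := b) m).range) =
        QuotientAddGroup.mk (⟨((nI b : ℕ) : OO A B) * Quotient.out q, hN _⟩ : b) := h1
    obtain ⟨z, hz, h3⟩ := (hmk _ _).1 h2
    exact (congrArg F h3).trans (hF _ (Subtype.mem _) z hz)

end

end Pool.Agent.MUXF


end

section

/-!
# MUX, block XF, module CHI (helper87): the character `chiQ` at integers prime to `D`
-/

set_option autoImplicit false

namespace Pool.Agent.MUXF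

open _root_.MU3 _root_.Pool.Agent.MU3A _root_.Pool.Agent.MU3B _root_.Pool.Agent.MU3F _root_.Pool.Agent.MuSym OnePoint

namespace CHI

open NumberTheorySymbols

/-- `J(a | 4 a - 1) = 1` -/
lemma j_aux (a : ℕ) (ha : 0 < a) : jacobiSym (a : ℤ) (4 * a - 1) = 1 := by
  have hodd : Odd (4 * a - 1) := ⟨2 * a - 1, by omega⟩
  have h1 : jacobiSym (4 * (a : ℤ)) (4 * a - 1) = jacobiSym 1 (4 * a - 1) := by
    apply jacobiSym.mod_left'
    have e : ((4 * a - 1 : ℕ) : ℤ) = 4 * a - 1 := by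
      rw [Nat.cast_sub (by omega)]; push_cast; ring
    have e2 : (4 * (a : ℤ)) = 1 + ((4 * a - 1 : ℕ) : ℤ) * 1 := by rw [e]; ring
    rw [e2, Int.add_mul_emod_self_left]
  rw [jacobiSym.mul_left, jacobiSym.at_four hodd, one_mul, jacobiSym.one_left] at h1
  exact h1

lemma j_neg (a : ℕ) (ha : 0 < a) : jacobiSym (-(a : ℤ)) (4 * a - 1) = -1 := by
  have hodd : Odd (4 * a - 1) := ⟨2 * a - 1, by omega⟩
  have h := jacobiSym.neg (a : ℤ) hodd
  rw [j_aux _ ha, mul_one] at h
  rw [h]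
  apply ZMod.χ₄_nat_three_mod_four
  omega

lemma per_pos (a : ℕ) {n k : ℕ} (hn : Odd n) (hk : Odd k)
    (h : ((4 * a : ℕ) : ℤ) ∣ (n : ℤ) - k) :
    jacobiSym (-(a : ℤ)) n = jacobiSym (-(a : ℤ)) k := by
  rw [jacobiSym.mod_right _ hn, jacobiSym.mod_right _ hk]
  congr 1
  rw [Int.natAbs_neg, Int.natAbs_natCast]
  exact ((Nat.modEq_iff_dvd).2 h).symm

lemma per_neg (a : ℕ) (ha : 0 < a) {n k : ℕ} (hn : Odd n) (hk : Odd k)
    (h : ((4 * a : ℕ) : ℤ) ∣ (n : ℤ) + k) :
    jacobiSym (-(a : ℤ)) n = -jacobiSym (-(a : ℤ)) k := by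
  have hodd : Odd (4 * a - 1) := ⟨2 * a - 1, by omega⟩
  have h0 : (4 * a - 1) ≠ 0 := by omega
  have hk0 : k ≠ 0 := by rintro rfl; simp at hk
  have e1 : jacobiSym (-(a : ℤ)) ((4 * a - 1) * k) = -jacobiSym (-(a : ℤ)) k := by
    rw [jacobiSym.mul_right' _ h0 hk0, j_neg a ha]
    ring
  rw [← e1]
  apply per_pos a hn (hodd.mul hk)
  obtain ⟨t, ht⟩ := h
  have e : ((4 * a - 1 : ℕ) : ℤ) = 4 * a - 1 := by
    rw [Nat.cast_sub (by omega)]; push_cast; ring
  refine ⟨t - k, ?_⟩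
  rw [Nat.cast_mul (4 * a - 1) k, e]
  push_cast at ht ⊢
  linear_combination ht

end CHI

open _root_.Pool.Agent.MUXF.CHI in
/-- (CHI) -/
theorem tx_CHI : Sx_CHI := by
  intro A B hQ n hn
  rcases hQ.hB with rfl | rfl
  · -- `B = 0`
    have hA : A < 0 := by have := hQ.neg; nlinarith
    obtain ⟨a, rfl⟩ : ∃ a : ℕ, A = -(a : ℤ) := ⟨A.natAbs, by omega⟩
    have ha : 0 < a := by omega
    have hD : absD (-(a : ℤ)) 0 = ((4 * a : ℕ) : ℤ) := by unfold absD; push_cast; ring
    rw [hD] at hn ⊢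
    have hc : ∀ d : ℤ, chiQ (-(a : ℤ)) 0 d = jacobiSym (-(a : ℤ)) d.natAbs * d.sign :=
      fun d => by simp [chiQ]
    have key : ∀ d : ℤ, IsCoprime d ((4 * a : ℕ) : ℤ) →
        Odd d.natAbs ∧ (-(a : ℤ)).gcd d.natAbs = 1 ∧ d ≠ 0 := by
      intro d hd
      have e4 : ((4 * a : ℕ) : ℤ) = 2 * (2 * a) := by push_cast; ring
      have e4' : ((4 * a : ℕ) : ℤ) = 4 * a := by push_cast; ring
      have h2 : IsCoprime d 2 := by
        rw [e4] at hd
        exact hd.of_mul_right_left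
      have hodd : Odd d := by
        rw [← Int.not_even_iff_odd]
        intro he
        have := (Int.isCoprime_iff_gcd_eq_one.1 h2)
        have h3 : (2 : ℤ) ∣ ((Int.gcd d 2 : ℕ) : ℤ) := Int.dvd_coe_gcd he.two_dvd dvd_rfl
        rw [this] at h3
        omega
      have hA' : IsCoprime d (a : ℤ) := by
        rw [e4'] at hd
        exact hd.of_mul_right_right
      refine ⟨Int.natAbs_odd.2 hodd, ?_, ?_⟩
      · have := Int.isCoprime_iff_gcd_eq_one.1 hA'.symm
        rw [Int.gcd_eq_natAbs] at this ⊢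
        rw [Int.natAbs_neg, Int.natAbs_natCast, Int.natAbs_natCast]
        rwa [Int.natAbs_natCast] at this
      · rintro rfl
        simp at hodd
    obtain ⟨ho, hg, h0⟩ := key n hn
    refine ⟨?_, ?_, ?_⟩
    · rw [hc]
      rcases jacobiSym.eq_one_or_neg_one hg with h | h <;>
        rcases lt_or_gt_of_ne h0 with h' | h' <;>
        simp [h, Int.sign_eq_neg_one_of_neg, Int.sign_eq_one_of_pos, h']
    · rw [hc, hc, Int.natAbs_neg, Int.sign_neg]
      ring
    · intro n' hd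
      have hn' : IsCoprime n' ((4 * a : ℕ) : ℤ) := by
        obtain ⟨t, ht⟩ := hd
        have : n' = n + ((4 * a : ℕ) : ℤ) * (-t) := by linear_combination -ht
        rw [this]
        exact IsCoprime.add_mul_left_left hn _
      obtain ⟨ho', hg', h0'⟩ := key n' hn'
      rw [hc, hc]
      rcases lt_or_gt_of_ne h0 with h' | h' <;> rcases lt_or_gt_of_ne h0' with h'' | h''
      · rw [Int.sign_eq_neg_one_of_neg h', Int.sign_eq_neg_one_of_neg h'']
        congr 1
        apply per_pos a ho' ho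
        have e : ((n'.natAbs : ℕ) : ℤ) = -n' := by omega
        have e' : ((n.natAbs : ℕ) : ℤ) = -n := by omega
        rw [e, e']
        have : -n' - -n = n - n' := by ring
        rwa [this]
      · rw [Int.sign_eq_neg_one_of_neg h', Int.sign_eq_one_of_pos h'']
        rw [per_neg a ha ho' ho]
        · ring
        have e : ((n'.natAbs : ℕ) : ℤ) = n' := by omega
        have e' : ((n.natAbs : ℕ) : ℤ) = -n := by omega
        rw [e, e']
        have : n' + -n = -(n - n') := by ring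
        rw [this]
        exact (dvd_neg).2 hd
      · rw [Int.sign_eq_neg_one_of_neg h'', Int.sign_eq_one_of_pos h']
        rw [per_neg a ha ho' ho]
        · ring
        have e : ((n'.natAbs : ℕ) : ℤ) = -n' := by omega
        have e' : ((n.natAbs : ℕ) : ℤ) = n := by omega
        rw [e, e']
        have : -n' + n = n - n' := by ring
        rwa [this]
      · rw [Int.sign_eq_one_of_pos h', Int.sign_eq_one_of_pos h'']
        congr 1
        apply per_pos a ho' ho
        have e : ((n'.natAbs : ℕ) : ℤ) = n' := by omega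
        have e' : ((n.natAbs : ℕ) : ℤ) = n := by omega
        rw [e, e']
        have : n' - n = -(n - n') := by ring
        rw [this]
        exact (dvd_neg).2 hd
  · -- `B = 1`
    have hneg := hQ.neg
    have hc : ∀ d : ℤ, chiQ A 1 d = jacobiSym d (absD A 1).toNat := fun d => by simp [chiQ]
    obtain ⟨D, hD⟩ : ∃ D : ℕ, absD A 1 = D := ⟨(absD A 1).toNat, by
      unfold absD; omega⟩
    have hD3 : D % 4 = 3 := by
      unfold absD at hD
      omega
    have hodd : Odd D := Nat.odd_iff.2 (by omega)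
    rw [hD] at hn
    have hg : n.gcd (D : ℤ) = 1 := Int.isCoprime_iff_gcd_eq_one.1 hn
    simp only [hc, hD, Int.toNat_natCast]
    refine ⟨jacobiSym.eq_one_or_neg_one hg, ?_, ?_⟩
    · rw [jacobiSym.neg n hodd, ZMod.χ₄_nat_three_mod_four hD3]
      ring
    · intro n' hd
      apply jacobiSym.mod_left'
      exact (Int.modEq_iff_dvd).2 hd

end Pool.Agent.MUXF


end

section

/-!
# MU3, module F8: the twist of the two parts of the symbol
-/

set_option autoImplicit false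

namespace Pool.Agent.MU3F

open _root_.MU3 _root_.Pool.Agent.MU3A _root_.Pool.Agent.MU3B _root_.Pool.Agent.MuSym OnePoint
open scoped ComplexConjugate

noncomputable section

theorem f8_absD {A B : ℤ} (h : Case A B) : 0 < absD A B := by
  rcases h with ⟨rfl, rfl⟩ | ⟨rfl, rfl⟩ <;> norm_num [absD]

/-- `Iv` has period one. -/
theorem f8_Iv_per (hPRD : Sf_PRD) {A B : ℤ} (h : Case A B) (e : OO A B → ℂ) (r : ℚ) :
    Iv e (r + 1) = Iv e r := by
  unfold Iv
  congr 1
  apply MeasureTheory.integral_congr_ae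
  filter_upwards with t
  have h1 : (((r + 1 : ℚ) : ℂ) + t * Complex.I) = ((r : ℂ) + t * Complex.I) + 1 := by
    push_cast
    ring
  rw [h1, hPRD A B h]

/-- The twist at a rational number. -/
theorem f8_Iv (hITG : Sf_ITG) (hTWD : Sf_TWD) {A B : ℤ} (h : Case A B) {g : OO A B}
    {e : OO A B → ℂ} (hg : g ≠ 0) (he : IsEps g e) (hD : ((absD A B : ℤ) : OO A B) ∣ g) (r : ℚ) :
    ∑ a ∈ Finset.range (absD A B).toNat,
      (chiD A B a : ℂ) * Iv e (r + a / (absD A B : ℚ)) = tauD A B * Iv e r := by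
  unfold Iv
  have h1 : ∀ a ∈ Finset.range (absD A B).toNat, (chiD A B a : ℂ) * (-(2 * Real.pi) *
      ∫ t in Set.Ioi (0 : ℝ), theta e (((r + a / (absD A B : ℚ) : ℚ) : ℂ) + t * Complex.I)) =
      -(2 * Real.pi) * ∫ t in Set.Ioi (0 : ℝ), (chiD A B a : ℂ) *
        theta e (((r + a / (absD A B : ℚ) : ℚ) : ℂ) + t * Complex.I) := by
    intro a _
    rw [MeasureTheory.integral_const_mul]
    ring
  rw [Finset.sum_congr rfl h1, ← Finset.mul_sum, ← MeasureTheory.integral_finsetSum]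
  · have h2 : ∫ t in Set.Ioi (0 : ℝ), ∑ a ∈ Finset.range (absD A B).toNat,
        (chiD A B a : ℂ) * theta e (((r + a / (absD A B : ℚ) : ℚ) : ℂ) + t * Complex.I) =
        ∫ t in Set.Ioi (0 : ℝ), tauD A B * theta e ((r : ℂ) + t * Complex.I) := by
      apply MeasureTheory.setIntegral_congr_fun measurableSet_Ioi
      intro t ht
      have ht' : 0 < t := ht
      have h3 := hTWD A B h g e hg he hD ((r : ℂ) + t * Complex.I) (by simpa using ht')
      simp only
      rw [← h3]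
      apply Finset.sum_congr rfl
      intro a _
      congr 2
      push_cast
      ring
    rw [h2, MeasureTheory.integral_const_mul]
    ring
  · intro a _
    exact (hITG A B h g e hg he _).const_mul _

theorem f8_mob1 {A B : ℤ} (h : Case A B) (a : ℤ) (r : ℚ) :
    mob (absD A B) a 0 (absD A B) ((r : ℚ) : OnePoint ℚ) =
      ((r + a / (absD A B : ℚ) : ℚ) : OnePoint ℚ) := by
  have h1 : ((absD A B : ℤ) : ℚ) ≠ 0 := by
    have := f8_absD h
    exact_mod_cast this.ne'
  show (if ((0 : ℤ) : ℚ) * r + (absD A B : ℤ) = 0 then ∞ else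
    (((((absD A B : ℤ) : ℚ) * r + a) / (((0 : ℤ) : ℚ) * r + (absD A B : ℤ)) : ℚ) :
      OnePoint ℚ)) = _
  rw [if_neg (by simpa using h1)]
  congr 1
  rw [Int.cast_zero, zero_mul, zero_add, add_div, mul_div_cancel_left₀ _ h1]

theorem f8_mob2 (a b c d : ℤ) (hc : c = 0) : mob a b c d ∞ = ∞ := by
  show (if c = 0 then ∞ else ((a / c : ℚ) : OnePoint ℚ)) = ∞
  rw [if_pos hc]

theorem f8_mob3 (r : ℚ) : mob (-1) 0 0 1 ((r : ℚ) : OnePoint ℚ) = ((-r : ℚ) : OnePoint ℚ) := by
  show (if ((0 : ℤ) : ℚ) * r + (1 : ℤ) = 0 then ∞ else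
    ((((((-1 : ℤ) : ℚ) * r + (0 : ℤ)) / (((0 : ℤ) : ℚ) * r + (1 : ℤ)) : ℚ)) : OnePoint ℚ)) = _
  rw [if_neg (by norm_num)]
  congr 1
  push_cast
  ring

theorem f8_Ic1 (hITG : Sf_ITG) (hTWD : Sf_TWD) {A B : ℤ} (h : Case A B) {g : OO A B}
    {e : OO A B → ℂ} (hg : g ≠ 0) (he : IsEps g e) (hD : ((absD A B : ℤ) : OO A B) ∣ g)
    (x : OnePoint ℚ) :
    ∑ a ∈ Finset.range (absD A B).toNat,
      (chiD A B a : ℂ) * Ic e (mob (absD A B) a 0 (absD A B) x) = tauD A B * Ic e x := by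
  induction x using OnePoint.rec with
  | infty =>
    have h1 : ∀ a : ℤ, Ic e (mob (absD A B) a 0 (absD A B) ∞) = 0 := by
      intro a
      rw [f8_mob2 _ _ _ _ rfl]
      rfl
    have h2 : Ic e ∞ = 0 := rfl
    simp only [h1, h2, mul_zero, Finset.sum_const_zero]
  | coe r =>
    have h1 := f8_Iv hITG hTWD h hg he hD r
    have h2 : Ic e ((r : ℚ) : OnePoint ℚ) = Iv e r := rfl
    rw [h2, ← h1]
    apply Finset.sum_congr rfl
    intro a _
    rw [f8_mob1 h]
    congr 1

theorem f8_Ic2 (hPRD : Sf_PRD) (hITG : Sf_ITG) (hGSS : Sf_GSS) (hTWD : Sf_TWD) {A B : ℤ}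
    (h : Case A B) {g : OO A B}
    {e : OO A B → ℂ} (hg : g ≠ 0) (he : IsEps g e) (hD : ((absD A B : ℤ) : OO A B) ∣ g)
    (x : OnePoint ℚ) :
    ∑ a ∈ Finset.range (absD A B).toNat,
      (chiD A B a : ℂ) * Ic e (mob (-1) 0 0 1 (mob (absD A B) a 0 (absD A B) x)) =
      -(tauD A B * Ic e (mob (-1) 0 0 1 x)) := by
  have hpos := f8_absD h
  induction x using OnePoint.rec with
  | infty =>
    have h1 : ∀ a : ℤ, Ic e (mob (-1) 0 0 1 (mob (absD A B) a 0 (absD A B) ∞)) = 0 := by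
      intro a
      rw [f8_mob2 _ _ _ _ rfl, f8_mob2 _ _ _ _ rfl]
      rfl
    have h2 : Ic e (mob (-1) 0 0 1 ∞) = 0 := by
      rw [f8_mob2 _ _ _ _ rfl]
      rfl
    simp only [h1, h2, mul_zero, Finset.sum_const_zero, neg_zero]
  | coe r =>
    obtain ⟨n, hn⟩ : ∃ n : ℕ, absD A B = n := ⟨(absD A B).toNat, (Int.toNat_of_nonneg hpos.le).symm⟩
    have hn0 : (n : ℚ) ≠ 0 := by
      intro h0
      have : n = 0 := by exact_mod_cast h0
      omega
    have h1 := f8_Iv hITG hTWD h hg he hD (-r)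
    have h2 : Ic e (mob (-1) 0 0 1 ((r : ℚ) : OnePoint ℚ)) = Iv e (-r) := by
      rw [f8_mob3]
      rfl
    rw [h2, ← h1]
    obtain ⟨-, hodd, hper, -⟩ := hGSS A B h
    set F : ℤ → ℂ := fun b => (chiD A B b : ℂ) * Iv e (-r + (b : ℚ) / (absD A B : ℚ)) with hF
    have hFper : F n = F 0 := by
      simp only [hF]
      have e1 : chiD A B (n : ℤ) = chiD A B 0 := by
        have := hper 0
        rw [zero_add, hn] at this
        exact this
      have e2 : -r + ((n : ℤ) : ℚ) / (absD A B : ℚ) = (-r + ((0 : ℤ) : ℚ) / (absD A B : ℚ)) + 1 := by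
        rw [hn]
        push_cast
        field_simp
        ring
      rw [e1, e2, f8_Iv_per hPRD h]
    have h3 : ∀ a ∈ Finset.range (absD A B).toNat, (chiD A B a : ℂ) *
        Ic e (mob (-1) 0 0 1 (mob (absD A B) a 0 (absD A B) ((r : ℚ) : OnePoint ℚ))) =
        -F ((n : ℤ) - a) := by
      intro a _
      rw [f8_mob1 h, f8_mob3]
      have e0 : Ic e ((-(r + ((a : ℤ) : ℚ) / (absD A B : ℚ)) : ℚ) : OnePoint ℚ) =
        Iv e (-(r + ((a : ℤ) : ℚ) / (absD A B : ℚ))) := rfl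
      rw [e0]
      simp only [hF]
      have e1 : chiD A B ((n : ℤ) - a) = -chiD A B a := by
        have e2 := hper (-(a : ℤ))
        rw [hn, hodd] at e2
        rw [← e2]
        congr 1
        ring
      have e3 : (-r + (((n : ℤ) - (a : ℤ) : ℤ) : ℚ) / (absD A B : ℚ)) =
          -(r + ((a : ℤ) : ℚ) / (absD A B : ℚ)) + 1 := by
        rw [hn]
        push_cast
        field_simp
        ring
      rw [e1, e3, f8_Iv_per hPRD h]
      push_cast
      ring
    rw [Finset.sum_congr rfl h3, Finset.sum_neg_distrib]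
    congr 1
    have h4 : (absD A B).toNat = n := by rw [hn]; rfl
    rw [h4]
    have h5 : ∑ a ∈ Finset.range n, F ((n : ℤ) - (a : ℤ)) =
        ∑ a ∈ Finset.range n, F ((a : ℤ) + 1) := by
      rw [← Finset.sum_range_reflect (fun a : ℕ => F ((a : ℤ) + 1)) n]
      apply Finset.sum_congr rfl
      intro a ha
      have ha' := Finset.mem_range.1 ha
      congr 1
      omega
    have h6 : ∑ a ∈ Finset.range n, F ((a : ℤ) + 1) = ∑ a ∈ Finset.range n, F (a : ℤ) := by
      have e1 := Finset.sum_range_succ (fun a : ℕ => F (a : ℤ)) n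
      have e2 := Finset.sum_range_succ' (fun a : ℕ => F (a : ℤ)) n
      rw [e1] at e2
      simp only [hFper, Nat.cast_zero] at e2
      have e3 := add_right_cancel e2
      rw [e3]
      apply Finset.sum_congr rfl
      intro a _
      push_cast
      rfl
    rw [h5, h6]
    apply Finset.sum_congr rfl
    intro a _
    simp only [hF]
    push_cast
    rfl

theorem tf_F8 (hPRD : Sf_PRD) (hITG : Sf_ITG) (hGSS : Sf_GSS) (hTWD : Sf_TWD) : Sf_F8 := by
  intro A B h g e hg he hD s x y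
  have a1 := f8_Ic1 hITG hTWD h hg he hD x
  have a2 := f8_Ic1 hITG hTWD h hg he hD y
  have b1 := f8_Ic2 hPRD hITG hGSS hTWD h hg he hD x
  have b2 := f8_Ic2 hPRD hITG hGSS hTWD h hg he hD y
  have key : ∑ a ∈ Finset.range (absD A B).toNat, (chiD A B a : ℂ) * sgnPart s (Phi e)
      (mob (absD A B) a 0 (absD A B) x) (mob (absD A B) a 0 (absD A B) y) =
      (∑ a ∈ Finset.range (absD A B).toNat,
        (chiD A B a : ℂ) * Ic e (mob (absD A B) a 0 (absD A B) x)) -
      (∑ a ∈ Finset.range (absD A B).toNat,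
        (chiD A B a : ℂ) * Ic e (mob (absD A B) a 0 (absD A B) y)) +
      s * ((∑ a ∈ Finset.range (absD A B).toNat,
        (chiD A B a : ℂ) * Ic e (mob (-1) 0 0 1 (mob (absD A B) a 0 (absD A B) x))) -
      (∑ a ∈ Finset.range (absD A B).toNat,
        (chiD A B a : ℂ) * Ic e (mob (-1) 0 0 1 (mob (absD A B) a 0 (absD A B) y)))) := by
    rw [← Finset.sum_sub_distrib, ← Finset.sum_sub_distrib, Finset.mul_sum,
      ← Finset.sum_add_distrib]
    apply Finset.sum_congr rfl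
    intro a _
    unfold sgnPart Phi
    ring
  rw [key, a1, a2, b1, b2]
  unfold sgnPart Phi
  ring

end

end Pool.Agent.MU3F


end

section

/-!
# MU3, block FH: module TWD (helper9)
-/

set_option autoImplicit false

namespace Pool.Agent.MU3F

open _root_.MU3 _root_.Pool.Agent.MU3A _root_.Pool.Agent.MU3B _root_.Pool.Agent.MuSym OnePoint
open scoped ComplexConjugate

noncomputable section

namespace TWD

theorem exp_shift {A B : ℤ} (x : OO A B) (z : ℂ) (a : ℕ) :
    Complex.exp (2 * Real.pi * Complex.I * (nm x : ℂ) * (z + (((a : ℚ) / (absD A B : ℚ) : ℚ) : ℂ))) =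
      Complex.exp (2 * Real.pi * Complex.I * (nm x : ℂ) * z) * ex (a * nm x / (absD A B : ℚ)) := by
  unfold ex
  rw [← Complex.exp_add]
  congr 1
  push_cast
  ring

end TWD

theorem tf_TWD (_hALG : Sf_ALG) (hBDD : Sf_BDD) (hTSM : Sf_TSM) (hGSS : Sf_GSS) : Sf_TWD := by
  intro A B h g e hg he hD z hz
  obtain ⟨-, C, -, hC⟩ := hBDD A B h g e hg he
  obtain ⟨-, -, -, hG⟩ := hGSS A B h
  have hsum : ∀ a : ℕ, Summable (fun x : OO A B => (chiD A B a : ℂ) * (e x * conj (emb x) *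
      Complex.exp (2 * Real.pi * Complex.I * (nm x : ℂ) *
        (z + (((a : ℚ) / (absD A B : ℚ) : ℚ) : ℂ))))) := by
    intro a
    refine Summable.mul_left _ (hTSM A B h e C hC _ ?_)
    have : ((((a : ℚ) / (absD A B : ℚ) : ℚ) : ℂ)).im = 0 := by
      rw [← Complex.ofReal_ratCast]; exact Complex.ofReal_im _
    rw [Complex.add_im, this, add_zero]
    exact hz
  calc ∑ a ∈ Finset.range (absD A B).toNat,
        (chiD A B a : ℂ) * theta e (z + (a / (absD A B : ℚ) : ℚ))
      = ∑ a ∈ Finset.range (absD A B).toNat, (1 / 2) * ∑' x : OO A B,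
          (chiD A B a : ℂ) * (e x * conj (emb x) *
            Complex.exp (2 * Real.pi * Complex.I * (nm x : ℂ) *
              (z + (((a : ℚ) / (absD A B : ℚ) : ℚ) : ℂ)))) := by
        refine Finset.sum_congr rfl fun a _ => ?_
        rw [tsum_mul_left]
        unfold theta
        ring
    _ = (1 / 2) * ∑' x : OO A B, ∑ a ∈ Finset.range (absD A B).toNat,
          (chiD A B a : ℂ) * (e x * conj (emb x) *
            Complex.exp (2 * Real.pi * Complex.I * (nm x : ℂ) *
              (z + (((a : ℚ) / (absD A B : ℚ) : ℚ) : ℂ)))) := by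
        rw [Summable.tsum_finsetSum fun a _ => hsum a, Finset.mul_sum]
    _ = (1 / 2) * ∑' x : OO A B, tauD A B * (e x * conj (emb x) *
          Complex.exp (2 * Real.pi * Complex.I * (nm x : ℂ) * z)) := by
        congr 1
        refine tsum_congr fun x => ?_
        by_cases hx : e x = 0
        · simp [hx]
        · have hcop : IsCoprime x ((absD A B : ℤ) : OO A B) :=
            ((he.supp x).1 hx).of_isCoprime_of_dvd_right hD
          rw [← hG x hcop, Finset.sum_mul]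
          refine Finset.sum_congr rfl fun a _ => ?_
          rw [TWD.exp_shift]
          ring
    _ = tauD A B * theta e z := by
        rw [tsum_mul_left]
        unfold theta
        ring

end

end Pool.Agent.MU3F


end

section

/-!
# MU3, block FH, module FG: the values of a symbol lie in a finitely generated group
-/

set_option autoImplicit false

namespace Pool.Agent.MU3F

open _root_.MU3 _root_.Pool.Agent.MU3A _root_.Pool.Agent.MU3B _root_.Pool.Agent.MuSym OnePoint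
open Matrix MatrixGroups

noncomputable section

namespace Fg

/-- `mob` of a product is the composition -/
lemma mob_mob (a b c d a' b' c' d' : ℤ) (h' : a' * d' - b' * c' = 1) (x : OnePoint ℚ) :
    mob a b c d (mob a' b' c' d' x) =
      mob (a * a' + b * c') (a * b' + b * d') (c * a' + d * c') (c * b' + d * d') x := by
  have hq : (a' : ℚ) * d' - b' * c' = 1 := by exact_mod_cast h'
  induction x using OnePoint.rec with
  | infty =>
    by_cases hc' : c' = 0
    · subst hc'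
      have ha' : a' ≠ 0 := by
        rintro rfl
        simp at h'
      have e1 : mob a' b' 0 d' ∞ = ∞ := by simp [mob]
      rw [e1]
      by_cases hc : c = 0
      · subst hc
        simp [mob]
      · have h2 : c * a' + d * 0 ≠ 0 := by
          simp [hc, ha']
        have q1 : (c : ℚ) ≠ 0 := by exact_mod_cast hc
        have q2 : (a' : ℚ) ≠ 0 := by exact_mod_cast ha'
        simp only [mob, OnePoint.elim_infty, if_neg hc, if_neg h2]
        congr 1
        push_cast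
        field_simp
        ring
    · have q1 : (c' : ℚ) ≠ 0 := by exact_mod_cast hc'
      have e1 : mob a' b' c' d' ∞ = ((a' / c' : ℚ) : OnePoint ℚ) := by
        simp only [mob, OnePoint.elim_infty, if_neg hc']
      rw [e1]
      have e2 : (c : ℚ) * (a' / c') + d = ((c * a' + d * c' : ℤ) : ℚ) / c' := by
        push_cast
        field_simp
      have e3 : (a : ℚ) * (a' / c') + b = ((a * a' + b * c' : ℤ) : ℚ) / c' := by
        push_cast
        field_simp
      by_cases hz : c * a' + d * c' = 0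
      · have e4 : (c : ℚ) * (a' / c') + d = 0 := by
          rw [e2, hz]
          simp
        simp only [mob, OnePoint.elim_some, OnePoint.elim_infty, if_pos hz, if_pos e4]
      · have q3 : ((c * a' + d * c' : ℤ) : ℚ) ≠ 0 := by exact_mod_cast hz
        have e4 : (c : ℚ) * (a' / c') + d ≠ 0 := by
          rw [e2]
          exact div_ne_zero q3 q1
        simp only [mob, OnePoint.elim_some, OnePoint.elim_infty, if_neg hz, if_neg e4]
        congr 1
        rw [e2, e3]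
        field_simp
  | coe r =>
    have f1 : ((c * a' + d * c' : ℤ) : ℚ) * r + ((c * b' + d * d' : ℤ) : ℚ) =
        c * (a' * r + b') + d * (c' * r + d') := by
      push_cast
      ring
    have f2 : ((a * a' + b * c' : ℤ) : ℚ) * r + ((a * b' + b * d' : ℤ) : ℚ) =
        a * (a' * r + b') + b * (c' * r + d') := by
      push_cast
      ring
    by_cases hy : (c' : ℚ) * r + d' = 0
    · have hx : (a' : ℚ) * r + b' ≠ 0 := by
        intro h0
        apply zero_ne_one (α := ℚ)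
        linear_combination hq - a' * hy + c' * h0
      have e1 : mob a' b' c' d' (r : OnePoint ℚ) = ∞ := by
        simp only [mob, OnePoint.elim_some, if_pos hy]
      rw [e1]
      rw [hy, mul_zero, add_zero] at f1 f2
      by_cases hc : c = 0
      · have g1 : ((c * a' + d * c' : ℤ) : ℚ) * r + ((c * b' + d * d' : ℤ) : ℚ) = 0 := by
          rw [f1, hc]
          simp
        simp only [mob, OnePoint.elim_some, OnePoint.elim_infty, if_pos g1, if_pos hc]
      · have q1 : (c : ℚ) ≠ 0 := by exact_mod_cast hc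
        have g1 : ((c * a' + d * c' : ℤ) : ℚ) * r + ((c * b' + d * d' : ℤ) : ℚ) ≠ 0 := by
          rw [f1]
          exact mul_ne_zero q1 hx
        simp only [mob, OnePoint.elim_some, OnePoint.elim_infty, if_neg g1, if_neg hc]
        congr 1
        rw [f1, f2]
        field_simp
    · have e1 : mob a' b' c' d' (r : OnePoint ℚ) =
          (((a' * r + b') / (c' * r + d') : ℚ) : OnePoint ℚ) := by
        simp only [mob, OnePoint.elim_some, if_neg hy]
      rw [e1]
      set x : ℚ := a' * r + b' with hx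
      set y : ℚ := c' * r + d' with hyd
      have f3 : (c : ℚ) * (x / y) + d = (c * x + d * y) / y := by
        field_simp
      have f4 : (a : ℚ) * (x / y) + b = (a * x + b * y) / y := by
        field_simp
      by_cases hz : (c : ℚ) * x + d * y = 0
      · have g1 : ((c * a' + d * c' : ℤ) : ℚ) * r + ((c * b' + d * d' : ℤ) : ℚ) = 0 := by
          rw [f1, hz]
        have g2 : (c : ℚ) * (x / y) + d = 0 := by
          rw [f3, hz, zero_div]
        simp only [mob, OnePoint.elim_some, if_pos g1, if_pos g2]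
      · have g1 : ((c * a' + d * c' : ℤ) : ℚ) * r + ((c * b' + d * d' : ℤ) : ℚ) ≠ 0 := by
          rw [f1]
          exact hz
        have g2 : (c : ℚ) * (x / y) + d ≠ 0 := by
          rw [f3]
          exact div_ne_zero hz hy
        simp only [mob, OnePoint.elim_some, if_neg g1, if_neg g2]
        congr 1
        rw [f1, f2, f3, f4]
        field_simp

/-- the value on the path of a unimodular matrix -/
def vv (P : OnePoint ℚ → OnePoint ℚ → ℂ) (h : SL(2, ℤ)) : ℂ :=
  P (mob (h 0 0) (h 0 1) (h 1 0) (h 1 1) ∞) (mob (h 0 0) (h 0 1) (h 1 0) (h 1 1) ((0 : ℚ) : OnePoint ℚ))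

lemma det_eq (h : SL(2, ℤ)) : h 0 0 * h 1 1 - h 0 1 * h 1 0 = 1 := by
  have := h.2
  rw [Matrix.det_fin_two] at this
  exact this

/-- the class of the bottom row -/
def row (N : ℕ) (h : SL(2, ℤ)) : ZMod N × ZMod N := ((h 1 0 : ZMod N), (h 1 1 : ZMod N))

lemma vv_row {N : ℕ} {nu : ℤ → ℂ} {P : OnePoint ℚ → OnePoint ℚ → ℂ} (hP : IsSym N nu P)
    (h h' : SL(2, ℤ)) (hr : row N h = row N h') : ∃ d : ℤ, vv P h' = nu d * vv P h := by
  have d1 := det_eq h
  have d2 := det_eq h'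
  obtain ⟨r1, r2⟩ := Prod.mk.inj hr
  set a := h 0 0
  set b := h 0 1
  set c := h 1 0
  set d := h 1 1
  set a' := h' 0 0
  set b' := h' 0 1
  set c' := h' 1 0
  set d' := h' 1 1
  have hdet : (a' * d - b' * c) * (-(c' * b) + d' * a) - (-(a' * b) + b' * a) * (c' * d - d' * c) =
      1 := by
    linear_combination (a' * d' - b' * c') * d1 + d2
  have hdvd : (N : ℤ) ∣ c' * d - d' * c := by
    rw [← ZMod.intCast_zmod_eq_zero_iff_dvd]
    push_cast
    rw [← r1, ← r2]
    ring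
  have key := fun x y => hP.equiv _ _ _ _ hdet hdvd (mob a b c d x) (mob a b c d y)
  refine ⟨-(c' * b) + d' * a, ?_⟩
  have e := key ∞ ((0 : ℚ) : OnePoint ℚ)
  rw [mob_mob _ _ _ _ _ _ _ _ d1, mob_mob _ _ _ _ _ _ _ _ d1] at e
  have g1 : (a' * d - b' * c) * a + (-(a' * b) + b' * a) * c = a' := by
    linear_combination a' * d1
  have g2 : (a' * d - b' * c) * b + (-(a' * b) + b' * a) * d = b' := by
    linear_combination b' * d1
  have g3 : (c' * d - d' * c) * a + (-(c' * b) + d' * a) * c = c' := by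
    linear_combination c' * d1
  have g4 : (c' * d - d' * c) * b + (-(c' * b) + d' * a) * d = d' := by
    linear_combination d' * d1
  rw [g1, g2, g3, g4] at e
  exact e

lemma vv_fin {N : ℕ} (hN : N ≠ 0) {nu : ℤ → ℂ} {P : OnePoint ℚ → OnePoint ℚ → ℂ}
    (hP : IsSym N nu P) (hnu : (Set.range nu).Finite) : (Set.range (vv P)).Finite := by
  classical
  have : NeZero N := ⟨hN⟩
  let w : ZMod N × ZMod N → ℂ := fun κ =>
    if h : ∃ h : SL(2, ℤ), row N h = κ then vv P h.choose else 0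
  have hfin : ((fun p : ℂ × (ZMod N × ZMod N) => p.1 * w p.2) ''
      (Set.range nu ×ˢ (Set.univ : Set (ZMod N × ZMod N)))).Finite :=
    (hnu.prod Set.finite_univ).image _
  refine hfin.subset ?_
  rintro _ ⟨h, rfl⟩
  have hex : ∃ h' : SL(2, ℤ), row N h' = row N h := ⟨h, rfl⟩
  obtain ⟨d, hd⟩ := vv_row hP hex.choose h hex.choose_spec
  refine ⟨(nu d, row N h), ⟨⟨d, rfl⟩, trivial⟩, ?_⟩
  show nu d * w (row N h) = vv P h
  rw [hd]
  congr 1
  simp only [w, dif_pos hex]

lemma self_zero {N : ℕ} {nu : ℤ → ℂ} {P : OnePoint ℚ → OnePoint ℚ → ℂ} (hP : IsSym N nu P)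
    (x : OnePoint ℚ) : P x x = 0 := by
  have := hP.add x x x
  exact left_eq_add.1 this.symm

/-- Manin's trick -/
lemma inf_mem {N : ℕ} {nu : ℤ → ℂ} {P : OnePoint ℚ → OnePoint ℚ → ℂ} (hP : IsSym N nu P)
    (G : AddSubgroup ℂ) (hG : ∀ h, vv P h ∈ G) :
    ∀ (q : ℕ) (r : ℚ), r.den = q → P ∞ (r : OnePoint ℚ) ∈ G := by
  intro q
  induction q using Nat.strong_induction_on with
  | _ q ih =>
    intro r hr
    have hr0 : (r.num : ℚ) / (r.den : ℚ) = r := Rat.num_div_den r
    have hqpos : 0 < q := hr ▸ r.den_pos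
    by_cases h1 : q = 1
    · -- an integer
      have hd : Matrix.det !![(1 : ℤ), r.num; 0, 1] = 1 := by
        rw [Matrix.det_fin_two_of]
        ring
      let h : SL(2, ℤ) := ⟨!![(1 : ℤ), r.num; 0, 1], hd⟩
      have f1 : h 0 0 = 1 := rfl
      have f2 : h 0 1 = r.num := rfl
      have f3 : h 1 0 = 0 := rfl
      have f4 : h 1 1 = 1 := rfl
      have e := hG h
      unfold vv at e
      rw [f1, f2, f3, f4] at e
      have e1 : mob 1 r.num 0 1 ∞ = ∞ := by simp [mob]
      have e2 : mob 1 r.num 0 1 ((0 : ℚ) : OnePoint ℚ) = (r : OnePoint ℚ) := by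
        have e3 : (r.num : ℚ) = r := by
          rw [hr, h1] at hr0
          simpa using hr0
        simp [mob, e3]
      rw [e1, e2] at e
      exact e
    · -- the general case
      have hcop : IsCoprime r.num (q : ℤ) := by
        rw [← hr, Int.isCoprime_iff_nat_coprime]
        exact r.reduced
      obtain ⟨u, w, huw⟩ := hcop
      have hq0 : (q : ℤ) ≠ 0 := by exact_mod_cast hqpos.ne'
      set q' : ℤ := (-u) % (q : ℤ) with hq'
      have h2 : 0 ≤ q' := Int.emod_nonneg _ hq0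
      have h3 : q' < q := Int.emod_lt_of_pos _ (by exact_mod_cast hqpos)
      have h4 : q' = -u - q * ((-u) / q) := by
        have := Int.emod_add_mul_ediv (-u) q
        linarith
      have h5 : q' ≠ 0 := by
        intro h0
        have h6 : (q : ℤ) ∣ 1 := by
          refine ⟨-((-u) / q) * r.num + w, ?_⟩
          rw [h0] at h4
          linear_combination -huw + r.num * h4
        have h7 : q ∣ 1 := by exact_mod_cast h6
        exact h1 (Nat.dvd_one.1 h7)
      have hdet : (w - r.num * ((-u) / q)) * (q : ℤ) - r.num * q' = 1 := by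
        rw [h4]
        linear_combination huw
      set p' : ℤ := w - r.num * ((-u) / q) with hp'
      have hd : Matrix.det !![p', r.num; q', (q : ℤ)] = 1 := by
        rw [Matrix.det_fin_two_of]
        exact hdet
      let h : SL(2, ℤ) := ⟨!![p', r.num; q', (q : ℤ)], hd⟩
      have f1 : h 0 0 = p' := rfl
      have f2 : h 0 1 = r.num := rfl
      have f3 : h 1 0 = q' := rfl
      have f4 : h 1 1 = q := rfl
      have e := hG h
      unfold vv at e
      rw [f1, f2, f3, f4] at e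
      have e1 : mob p' r.num q' q ∞ = (((p' : ℚ) / q' : ℚ) : OnePoint ℚ) := by
        simp only [mob, OnePoint.elim_infty, if_neg h5]
      have hqQ : (q : ℚ) ≠ 0 := by exact_mod_cast hqpos.ne'
      have e2 : mob p' r.num q' q ((0 : ℚ) : OnePoint ℚ) = (r : OnePoint ℚ) := by
        have e3 : (r.num : ℚ) / q = r := by
          rw [hr] at hr0
          exact hr0
        have e4 : (q' : ℚ) * 0 + ((q : ℤ) : ℚ) ≠ 0 := by
          simpa using hqQ
        simp only [mob, OnePoint.elim_some, if_neg e4]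
        congr 1
        simpa using e3
      rw [e1, e2] at e
      have hden : ((p' : ℚ) / q').den < q := by
        have h8 := Rat.den_dvd p' q'
        have h9 : 0 < q' := lt_of_le_of_ne h2 (Ne.symm h5)
        have h10 := Int.le_of_dvd h9 h8
        have h11 : ((((p' : ℚ) / q').den : ℕ) : ℤ) < q := by
          refine lt_of_le_of_lt ?_ h3
          rw [← Rat.divInt_eq_div]
          exact h10
        exact_mod_cast h11
      have h12 := ih _ hden ((p' : ℚ) / q') rfl
      rw [← hP.add ∞ (((p' : ℚ) / q' : ℚ) : OnePoint ℚ)]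
      exact add_mem h12 e

end Fg

open _root_.Pool.Agent.MU3F.Fg in
theorem tf_FG : Sf_FG := by
  intro N nu P hN hP hnu
  have hf := vv_fin hN hP hnu
  refine ⟨hf.toFinset, fun x y => ?_⟩
  set G := AddSubgroup.closure ((hf.toFinset : Finset ℂ) : Set ℂ) with hGd
  have hG : ∀ h, vv P h ∈ G := fun h =>
    AddSubgroup.subset_closure (by simp)
  have h1 : ∀ x : OnePoint ℚ, P ∞ x ∈ G := by
    intro x
    induction x using OnePoint.rec with
    | infty =>
      rw [self_zero hP]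
      exact zero_mem _
    | coe r => exact inf_mem hP G hG _ r rfl
  have h2 : P x y = - P ∞ x + P ∞ y := by
    have e1 := hP.add ∞ x y
    linear_combination e1
  rw [h2]
  exact add_mem (neg_mem (h1 x)) (h1 y)

end

end Pool.Agent.MU3F


end

section

/-!
# MU3, block FH: module PRD (helper9)
-/

set_option autoImplicit false

namespace Pool.Agent.MU3F

open _root_.MU3 _root_.Pool.Agent.MU3A _root_.Pool.Agent.MU3B _root_.Pool.Agent.MuSym OnePoint
open scoped ComplexConjugate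

noncomputable section

theorem tf_PRD : Sf_PRD := by
  intro A B _ e z
  unfold theta
  congr 1
  refine tsum_congr fun x => ?_
  congr 1
  rw [show 2 * (Real.pi : ℂ) * Complex.I * (nm x : ℂ) * (z + 1) =
    2 * (Real.pi : ℂ) * Complex.I * (nm x : ℂ) * z +
      (nm x : ℂ) * (2 * (Real.pi : ℂ) * Complex.I) by ring, Complex.exp_add,
    Complex.exp_int_mul_two_pi_mul_I, mul_one]

end

end Pool.Agent.MU3F


end

section

set_option autoImplicit false

namespace Pool.Agent.MU3F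

open _root_.MU3 _root_.Pool.Agent.MU3 _root_.Pool.Agent.MU3A _root_.Pool.Agent.MU3B _root_.Pool.Agent.MU3C _root_.Pool.Agent.MuSym OnePoint

noncomputable section

theorem tf_F5S (hALG : Sf_ALG) (hSM : Sf_SM) (hF5 : Sf_F5) : Sf_F5S := by
  intro A B hC L Om hL f n e hf he c hc
  rw [← hF5 A B hC L Om hL f n e hf he c hc]
  obtain ⟨h1, h2, h3, -, h5, -⟩ := hALG A B hC
  have hm : ((f * 3 ^ (n + 1) : ℕ) : OO A B) ≠ 0 := by
    intro h0
    have := (h2 ((f * 3 ^ (n + 1) : ℕ) : OO A B)).1.2 h0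
    have h4 := h3 ((f * 3 ^ (n + 1) : ℕ) : ℤ)
    rw [Int.cast_natCast] at h4
    rw [h4] at this
    have : ((f * 3 ^ (n + 1) : ℕ) : ℂ) = 0 := by exact_mod_cast this
    rw [Nat.cast_eq_zero] at this
    have h6 : 0 < f * 3 ^ (n + 1) := by positivity
    omega
  obtain ⟨-, -, -, -, hcong⟩ := hSM A B hC _ hm
  unfold MU3I.Sn lev
  apply hcong
  intro x
  by_cases hx : (3 : ℤ) ^ (n + 1) ∣ nm x - c
  · rw [if_pos hx]
    by_cases hex : e x = 0
    · rw [hex, zero_mul, ite_self]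
    · have hcop : IsCoprime x ((f * 3 ^ (n + 1) : ℕ) : OO A B) := by
        have hg := (he.supp x).1 hex
        have hgf : IsCoprime x (f : OO A B) := hg.of_isCoprime_of_dvd_right (Dvd.intro _ rfl)
        have h3x : IsCoprime x (3 : OO A B) := by
          have h30 : ¬ (3 : ℤ) ∣ nm x := by
            intro h
            apply hc
            have h31 : (3 : ℤ) ∣ nm x - c := dvd_trans (dvd_pow_self 3 (Nat.succ_ne_zero n)) hx
            have := dvd_sub h h31
            simpa using this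
          have h32 : IsCoprime (nm x) (3 : ℤ) := by
            rw [isCoprime_comm, Int.isCoprime_iff_gcd_eq_one]
            have := (Int.prime_three.coprime_iff_not_dvd (n := nm x)).2 h30
            exact Int.isCoprime_iff_gcd_eq_one.1 this
          have h33 : IsCoprime (((nm x : ℤ)) : OO A B) ((3 : ℤ) : OO A B) := by
            obtain ⟨a, b, hab⟩ := h32
            exact ⟨(a : OO A B), (b : OO A B), by exact_mod_cast congrArg (Int.cast (R := OO A B)) hab⟩
          rw [← (h2 x).2.2.1] at h33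
          have := h33.of_mul_left_left
          simpa using this
        push_cast
        exact hgf.mul_right h3x.pow_right
      rw [if_pos ⟨hcop, hx⟩]
  · rw [if_neg hx, if_neg (fun h => hx h.2)]

end

end Pool.Agent.MU3F


end

section

/-!
# MU3, block FH: the values of the symbol at all rational numbers
-/

set_option autoImplicit false

namespace Pool.Agent.MU3F

open _root_.MU3 _root_.Pool.Agent.MU3A _root_.Pool.Agent.MU3B _root_.Pool.Agent.MuSym OnePoint
open scoped ComplexConjugate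

theorem f4_key (v : ℂ) (hv : v ≠ 0) :
    conj v / ((2 * Real.pi * ‖v‖ ^ 2 : ℝ) : ℂ) = 1 / (2 * Real.pi * v) := by
  have h1 : ((2 * Real.pi * ‖v‖ ^ 2 : ℝ) : ℂ) = 2 * Real.pi * (v * conj v) := by
    rw [Complex.mul_conj, Complex.normSq_eq_norm_sq]
    push_cast
    ring
  have h2 : conj v ≠ 0 := (map_ne_zero _).mpr hv
  have h3 : (Real.pi : ℂ) ≠ 0 := by exact_mod_cast Real.pi_ne_zero
  rw [h1]
  field_simp

theorem tf_F4 (hALG : Sf_ALG) (hTHD : Sf_THD) (hINT : Pool.Agent.MU3B.St_INT) : Sf_F4 := by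
  intro A B hc L Om hL g g' e he hg' hgg' M hM hMg' b
  have hfin : Finite (OO A B ⧸ Ideal.span {g'}) := (hALG A B hc).2.2.2.1 g' hg'
  have hft : Fintype (OO A B ⧸ Ideal.span {g'}) := Fintype.ofFinite _
  have hg0 : emb g' ≠ 0 := emb_ne_zero hc hg'
  have hOm := hL.Om_ne
  have hv : emb g' / Om ≠ 0 := div_ne_zero hg0 hOm
  have hc0 : (0 : ℝ) < 2 * Real.pi * ‖emb g' / Om‖ ^ 2 := by
    have := norm_pos_iff.mpr hv
    positivity
  set v : ℂ := emb g' / Om with hvdef
  set c : ℝ := 2 * Real.pi * ‖v‖ ^ 2 with hcdef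
  have hsum : ∀ F : OO A B → ℂ, sumMod g' F =
      ∑ q : OO A B ⧸ Ideal.span {g'}, F (Quotient.out q) := fun F =>
    finsum_eq_sum_of_fintype _
  let K : OO A B → ℝ → ℂ := fun x t => ∑' w : L.lattice, conj (Om * emb x / emb g' + w) *
    (Real.exp (-(c * t * ‖Om * emb x / emb g' + w‖ ^ 2)) : ℝ)
  have hKint : ∀ x, MeasureTheory.IntegrableOn (K x) (Set.Ioi 0) := fun x =>
    (hINT L c hc0 _).1
  have hKval : ∀ x, ∫ t in Set.Ioi (0 : ℝ), K x t = ee L (Om * emb x / emb g') / c := fun x =>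
    (hINT L c hc0 _).2
  have hth : ∀ t ∈ Set.Ioi (0 : ℝ), theta e (((b / M : ℚ) : ℂ) + t * Complex.I) =
      ∑ q : OO A B ⧸ Ideal.span {g'}, ((1 / 2) * (e (Quotient.out q) *
        ex (b * nm (Quotient.out q) / M) * conj v)) * K (Quotient.out q) t := by
    intro t ht
    rw [hTHD A B hc L Om hL g g' e he hg' hgg' M hM hMg' b t ht, hsum, Finset.mul_sum]
    refine Finset.sum_congr rfl fun q _ => ?_
    simp only [K, hcdef, hvdef]
    ring
  have hint : MeasureTheory.IntegrableOn (fun t : ℝ =>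
      ∑ q : OO A B ⧸ Ideal.span {g'}, ((1 / 2) * (e (Quotient.out q) *
        ex (b * nm (Quotient.out q) / M) * conj v)) * K (Quotient.out q) t) (Set.Ioi 0) :=
    MeasureTheory.integrable_finsetSum _ fun q _ => (hKint _).const_mul _
  refine ⟨hint.congr_fun (fun t ht => (hth t ht).symm) measurableSet_Ioi, ?_⟩
  have hI : ∫ t in Set.Ioi (0 : ℝ), theta e (((b / M : ℚ) : ℂ) + t * Complex.I) =
      ∑ q : OO A B ⧸ Ideal.span {g'}, ((1 / 2) * (e (Quotient.out q) *
        ex (b * nm (Quotient.out q) / M) * conj v)) *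
          (ee L (Om * emb (Quotient.out q) / emb g') / c) := by
    rw [MeasureTheory.setIntegral_congr_fun measurableSet_Ioi hth,
      MeasureTheory.integral_finsetSum _ fun q _ => (hKint _).const_mul _]
    refine Finset.sum_congr rfl fun q _ => ?_
    rw [MeasureTheory.integral_const_mul, hKval]
  unfold Iv
  rw [hI, hsum, Finset.mul_sum, Finset.mul_sum]
  refine Finset.sum_congr rfl fun q _ => ?_
  have hkey : conj v / (c : ℂ) = Om / (2 * Real.pi * emb g') := by
    rw [hcdef, f4_key v hv, hvdef]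
    have h3 : (Real.pi : ℂ) ≠ 0 := by exact_mod_cast Real.pi_ne_zero
    field_simp
  have h3 : (Real.pi : ℂ) ≠ 0 := by exact_mod_cast Real.pi_ne_zero
  generalize e (Quotient.out q) = E
  generalize ex (b * nm (Quotient.out q) / M) = X
  generalize ee L (Om * emb (Quotient.out q) / emb g') = Y
  have h4 : -(2 * (Real.pi : ℂ)) * (1 / 2 * (E * X * conj v) * (Y / (c : ℂ))) =
      -(Real.pi : ℂ) * (E * X * Y) * (conj v / (c : ℂ)) := by
    ring
  rw [h4, hkey]
  field_simp

end Pool.Agent.MU3F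


end

section

/-!
# MU3, block FH: module DCM, a sum over `O` as a sum over the classes modulo `m`
-/

set_option autoImplicit false

namespace Pool.Agent.MU3F

open _root_.MU3 _root_.Pool.Agent.MU3A _root_.Pool.Agent.MU3B _root_.Pool.Agent.MuSym OnePoint
open scoped ComplexConjugate

noncomputable section

/-- DCM. -/
theorem tf_DCM (hALG : Sf_ALG) : Sf_DCM := by
  intro A B hc m hm G hG
  obtain ⟨halg, hnrm, -, hfin, -, -⟩ := hALG A B hc
  have hfm : Finite (OO A B ⧸ Ideal.span {m}) := hfin m hm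
  have hcancel : ∀ w w' : OO A B, m * w = m * w' → w = w' := by
    intro w w' h
    have h1 : emb m * emb w = emb m * emb w' := by
      rw [← (halg m w).1, ← (halg m w').1, h]
    have h2 : emb m ≠ 0 := fun h => hm ((hnrm m).1.1 h)
    exact emb_inj hc (mul_left_cancel₀ h2 h1)
  let φ : (OO A B ⧸ Ideal.span {m}) × OO A B → OO A B := fun p => Quotient.out p.1 + m * p.2
  have hmk : ∀ p : (OO A B ⧸ Ideal.span {m}) × OO A B,
      Ideal.Quotient.mk (Ideal.span {m}) (φ p) = p.1 := by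
    intro p
    have h1 : Ideal.Quotient.mk (Ideal.span {m}) (Quotient.out p.1) = p.1 :=
      Quotient.out_eq p.1
    have h2 : Ideal.Quotient.mk (Ideal.span {m}) (m * p.2) = 0 := by
      rw [Ideal.Quotient.eq_zero_iff_mem, Ideal.mem_span_singleton]
      exact dvd_mul_right m p.2
    show Ideal.Quotient.mk (Ideal.span {m}) (Quotient.out p.1 + m * p.2) = p.1
    rw [map_add, h1, h2, add_zero]
  have hbij : Function.Bijective φ := by
    constructor
    · intro p p' h
      have h1 : p.1 = p'.1 := by rw [← hmk p, ← hmk p', h]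
      have h2 : Quotient.out p.1 + m * p.2 = Quotient.out p'.1 + m * p'.2 := h
      rw [h1] at h2
      exact Prod.ext h1 (hcancel _ _ (add_left_cancel h2))
    · intro x
      have h1 : Ideal.Quotient.mk (Ideal.span {m}) x =
          Ideal.Quotient.mk (Ideal.span {m})
            (Quotient.out (Ideal.Quotient.mk (Ideal.span {m}) x)) :=
        (Quotient.out_eq (Ideal.Quotient.mk (Ideal.span {m}) x)).symm
      rw [Ideal.Quotient.eq, Ideal.mem_span_singleton] at h1
      obtain ⟨w, hw⟩ := h1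
      refine ⟨(Ideal.Quotient.mk (Ideal.span {m}) x, w), ?_⟩
      show Quotient.out (Ideal.Quotient.mk (Ideal.span {m}) x) + m * w = x
      rw [← hw]
      ring
  let e : (OO A B ⧸ Ideal.span {m}) × OO A B ≃ OO A B := Equiv.ofBijective φ hbij
  have hsum : Summable (fun p => G (e p)) := (Equiv.summable_iff e).2 hG
  have := Fintype.ofFinite (OO A B ⧸ Ideal.span {m})
  rw [← Equiv.tsum_eq e G, hsum.tsum_prod, tsum_fintype, sumMod, finsum_eq_sum_of_fintype]
  rfl

end

end Pool.Agent.MU3F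


end

section

/-!
# MU3, block FH: module BDD, a character has finitely many values
-/

set_option autoImplicit false

namespace Pool.Agent.MU3F

open _root_.MU3 _root_.Pool.Agent.MU3A _root_.Pool.Agent.MU3B

theorem tf_BDD (hALG : Sf_ALG) : Sf_BDD := by
  intro A B hc g e hg he
  have hfin : Finite (OO A B ⧸ Ideal.span {g}) := (hALG A B hc).2.2.2.1 g hg
  have h1 : Set.range e ⊆ Set.range (fun q : OO A B ⧸ Ideal.span {g} => e (Quotient.out q)) := by
    rintro _ ⟨x, rfl⟩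
    refine ⟨Ideal.Quotient.mk (Ideal.span {g}) x, ?_⟩
    refine he.per _ _ ?_
    rw [← Ideal.mem_span_singleton, ← Ideal.Quotient.eq]
    exact Quotient.out_eq _
  have h2 : (Set.range e).Finite := (Set.finite_range _).subset h1
  refine ⟨h2, ?_⟩
  obtain ⟨C, hC⟩ := (h2.image (fun c : ℂ => ‖c‖)).bddAbove
  refine ⟨max C 1, lt_of_lt_of_le one_pos (le_max_right _ _), fun x => ?_⟩
  exact (hC ⟨e x, ⟨x, rfl⟩, rfl⟩).trans (le_max_left _ _)

end Pool.Agent.MU3F


end

section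

/-!
# MU3, SM (helper69): rules for `sumMod`
-/

set_option autoImplicit false

namespace Pool.Agent.MU3F

open _root_.MU3 _root_.Pool.Agent.MU3A _root_.Pool.Agent.MU3B

theorem tf_SM (hALG : Sf_ALG) : Sf_SM := by
  intro A B hc m hm
  classical
  have hfin : Finite (OO A B ⧸ Ideal.span {m}) := (hALG A B hc).2.2.2.1 m hm
  let _ : Fintype (OO A B ⧸ Ideal.span {m}) := Fintype.ofFinite _
  refine ⟨?_, ?_, ?_, ?_, ?_⟩
  · intro c F
    unfold sumMod
    rw [finsum_eq_sum_of_fintype, finsum_eq_sum_of_fintype, Finset.mul_sum]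
  · intro F G
    unfold sumMod
    rw [finsum_eq_sum_of_fintype, finsum_eq_sum_of_fintype, finsum_eq_sum_of_fintype,
      Finset.sum_add_distrib]
  · intro s F
    unfold sumMod
    simp only [finsum_eq_sum_of_fintype]
    rw [Finset.sum_comm]
  · intro F hF x
    refine hF _ _ ?_
    rw [← Ideal.mem_span_singleton, ← Ideal.Quotient.eq]
    exact Quotient.out_eq _
  · intro F G h
    have e : F = G := funext h
    rw [e]

end Pool.Agent.MU3F


end

section

/-!
# MU3, block FH, module ALG (helper18): algebra of `O`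
-/

set_option autoImplicit false

namespace Pool.Agent.MU3F

open _root_.MU3 _root_.Pool.Agent.MU3A _root_.Pool.Agent.MU3B
open scoped ComplexConjugate

namespace AlgF

variable {A B : ℤ}

theorem mul_star' (x : OO A B) : x * star x = ((nm x : ℤ) : OO A B) := by
  ext
  · simp only [nm, QuadraticAlgebra.re_mul, QuadraticAlgebra.re_star, QuadraticAlgebra.im_star,
      QuadraticAlgebra.re_intCast, Int.cast_id]
    ring
  · simp only [QuadraticAlgebra.im_mul, QuadraticAlgebra.re_star, QuadraticAlgebra.im_star,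
      QuadraticAlgebra.im_intCast]
    ring

theorem conj_w (A B : ℤ) : conj (wC A B) = B - wC A B := by
  unfold wC
  simp only [map_div₀, map_add, map_mul, Complex.conj_I, Complex.conj_ofReal, map_intCast,
    map_ofNat]
  ring

theorem emb_star (x : OO A B) : emb (star x) = conj (emb x) := by
  unfold emb
  simp only [map_add, map_mul, conj_w, map_intCast, QuadraticAlgebra.re_star,
    QuadraticAlgebra.im_star]
  push_cast
  ring

theorem norm_sq (h : Case A B) (x : OO A B) : ((nm x : ℤ) : ℝ) = ‖emb x‖ ^ 2 := by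
  have h1 : emb x * conj (emb x) = ((nm x : ℤ) : ℂ) := by
    rw [← emb_star, ← emb_mul h, mul_star', emb_intCast h]
  rw [Complex.mul_conj, Complex.normSq_eq_norm_sq] at h1
  exact_mod_cast h1.symm

theorem fin_quot (h : Case A B) (m : OO A B) (hm : m ≠ 0) :
    Finite (OO A B ⧸ Ideal.span {m}) := by
  have := Pool.Agent.MU3G.G0.dom h
  exact Ideal.finiteQuotientOfFreeOfNeBot _ (by
    rw [Ne, Ideal.span_singleton_eq_bot]; exact hm)

theorem star_ppi (h : Case A B) : ppi A B * star (ppi A B) = 3 := by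
  rw [mul_star', nm_ppi h]
  norm_num

theorem not_unit (h : Case A B) : ¬ IsUnit (star (ppi A B)) := by
  intro hu
  obtain ⟨y, hy⟩ := hu.exists_right_inv
  have h1 := congrArg nm hy
  rw [Pool.Agent.MU3G.G0.nm_mul, Pool.Agent.MU3G.G0.nm_star, nm_ppi h] at h1
  have h2 : nm (1 : OO A B) = 1 := by
    rw [Pool.Agent.MU3G.G0.nm_eq, map_one]
  rw [h2] at h1
  omega

end AlgF

open _root_.Pool.Agent.MU3F.AlgF in
theorem tf_ALG : Sf_ALG := by
  intro A B h
  refine ⟨fun x y => ⟨emb_mul h x y, emb_add h x y, Pool.Agent.MU3G.G0.nm_mul x y⟩, fun x =>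
    ⟨⟨fun h0 => ?_, fun h0 => by rw [h0, emb_zero h]⟩, norm_sq h x, mul_star' x, emb_star x⟩,
    emb_intCast h, fin_quot h, star_ppi h, not_unit h⟩
  by_contra hx
  exact emb_ne_zero h hx h0

end Pool.Agent.MU3F


end

section

/-!
# MU3, block FH (helper27): all statements of `StFH.lean`, `StFH2.lean`, unconditionally
-/

set_option autoImplicit false

namespace Pool.Agent.MU3F

theorem f_ALG : Sf_ALG := tf_ALG
theorem f_SM : Sf_SM := tf_SM f_ALG
theorem f_BDD : Sf_BDD := tf_BDD f_ALG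
theorem f_TSM : Sf_TSM := tf_TSM
theorem f_DCM : Sf_DCM := tf_DCM f_ALG
theorem f_THD : Sf_THD := tf_THD f_ALG f_BDD f_TSM f_DCM
theorem f_F4 : Sf_F4 := tf_F4 f_ALG f_THD Pool.Agent.MU3B.b_INT
theorem f_ITG : Sf_ITG := tf_ITG f_F4 Pool.Agent.MU3A.ta_LAT0
theorem f_F5 : Sf_F5 := tf_F5 f_ALG f_SM f_F4
theorem f_F5S : Sf_F5S := tf_F5S f_ALG f_SM f_F5
theorem f_PRD : Sf_PRD := tf_PRD
theorem f_U3 : Sf_U3 := tf_U3 f_ALG f_BDD f_TSM
theorem f_F3 : Sf_F3 := tf_F3 f_ALG f_U3 f_ITG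
theorem f_FG : Sf_FG := tf_FG
theorem f_F7 : Sf_F7 := tf_F7 f_BDD f_FG
theorem f_GSS : Sf_GSS := tf_GSS
theorem f_TWD : Sf_TWD := tf_TWD f_ALG f_BDD f_TSM f_GSS
theorem f_F8 : Sf_F8 := tf_F8 f_PRD f_ITG f_GSS f_TWD

end Pool.Agent.MU3F


end

section

/-!
# MUX, block XF: all statements, without hypotheses (helper87)
-/

set_option autoImplicit false

namespace Pool.Agent.MUXF

open _root_.MU3 _root_.Pool.Agent.MU3B _root_.Pool.Agent.MU3F

theorem xf_ALG : Sx_ALG := tx_ALG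
theorem xf_IDL : Sx_IDL := tx_IDL xf_ALG
theorem xf_NIM : Sx_NIM := tx_NIM xf_ALG xf_IDL
theorem xf_QB : Sx_QB := tx_QB xf_ALG xf_IDL
theorem xf_LCN : Sx_LCN := tx_LCN xf_ALG xf_IDL xf_NIM xf_QB
theorem xf_BDD : Sx_BDD := tx_BDD xf_ALG
theorem xf_SMB : Sx_SMB := tx_SMB
theorem xf_TSM : Sx_TSM := tx_TSM xf_ALG xf_QB
theorem xf_DCM : Sx_DCM := tx_DCM xf_ALG xf_SMB
theorem xf_CNV : Sx_CNV := tx_CNV
theorem xf_THD : Sx_THD := tx_THD xf_ALG xf_QB xf_BDD xf_TSM xf_DCM xf_SMB
theorem xf_F4 : Sx_F4 := tx_F4 xf_SMB xf_IDL xf_THD b_INT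
theorem xf_LAT1 : Sx_LAT1 := tx_LAT1 xf_ALG
theorem xf_ITG : Sx_ITG := tx_ITG xf_ALG xf_F4 xf_LAT1
theorem xf_F5 : Sx_F5 := tx_F5 xf_ALG xf_IDL xf_QB xf_CNV xf_F4 b_PER
theorem xf_PRD : Sx_PRD := tx_PRD xf_QB
theorem xf_UL : Sx_UL := tx_UL xf_ALG xf_QB xf_LCN xf_BDD xf_TSM
theorem xf_HU : Sx_HU := tx_HU xf_LCN xf_UL xf_ITG
theorem xf_PRI : Sx_PRI := tx_PRI xf_ALG xf_NIM
theorem xf_UH : Sx_UH := tx_UH xf_NIM xf_HU xf_PRI
theorem xf_CHI : Sx_CHI := tx_CHI
theorem xf_REC : Sx_REC := tx_REC xf_ALG xf_IDL xf_QB xf_NIM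
theorem xf_PHX : Sx_PHX := tx_PHX xf_CHI xf_REC
theorem xf_PRJ : Sx_PRJ := tx_PRJ xf_ALG xf_QB xf_BDD xf_TSM xf_ITG
theorem xf_F7 : Sx_F7 := tx_F7 xf_BDD f_FG
theorem xf_DISX : Sx_DISX := tx_DISX b_SUM b_INT

end Pool.Agent.MUXF


end

section

/-!
# MUX-NS, block RN, module UNR: the inertia groups of `RF (idl f)` are trivial (helper2)
-/

set_option autoImplicit false

open WeierstrassCurve Polynomial

namespace Pool.Agent.NSR

open _root_.MU3 _root_.Pool.Agent.MU3A _root_.Pool.Agent.MU3B _root_.Pool.Agent.RI _root_.Pool.Agent.MUX _root_.Pool.Agent.MUXU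
open _root_.Pool.Agent.MUXV (GR InK tX)
open _root_.Pool.Agent.NS

noncomputable section

namespace UNR

variable {A B : ℤ}

/-- an automorphism which fixes `wC` fixes `k` -/
lemma fix_kk {σ : ℂ ≃+* ℂ} (hσ : FixK A B σ) : ∀ y ∈ kk A B, σ y = y := by
  intro y hy
  induction hy using IntermediateField.adjoin_induction with
  | mem x hx => rw [Set.mem_singleton_iff] at hx; rw [hx]; exact hσ
  | algebraMap x => simp
  | add x y _ _ hx hy => rw [map_add, hx, hy]
  | inv x _ hx => rw [map_inv₀, hx]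
  | mul x y _ _ hx hy => rw [map_mul, hx, hy]

/-- natural numbers prime to `3` are units -/
lemma v_nat {V : ValuationSubring ℂ} (h3 : V.valuation (3 : ℂ) < 1) {f : ℕ} (hf : ¬ 3 ∣ f) :
    V.valuation (f : ℂ) = 1 := by
  have hle : ∀ n : ℤ, V.valuation (n : ℂ) ≤ 1 := fun n =>
    (ValuationSubring.valuation_le_one_iff _ _).2 (intCast_mem V n)
  have hco : IsCoprime (f : ℤ) (3 : ℤ) := by
    have h1 : Nat.Coprime f 3 := ((Nat.Prime.coprime_iff_not_dvd Nat.prime_three).2 hf).symm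
    exact_mod_cast Nat.isCoprime_iff_coprime.2 h1
  obtain ⟨a, b, hab⟩ := hco
  have h4 : (a : ℂ) * f = 1 - b * 3 := by
    have h5 : ((a * (f : ℤ) + b * 3 : ℤ) : ℂ) = 1 := by rw [hab]; norm_num
    push_cast at h5
    linear_combination h5
  have h6 : V.valuation ((b : ℂ) * 3) < 1 := by
    rw [map_mul]
    calc V.valuation (b : ℂ) * V.valuation 3 ≤ 1 * V.valuation 3 :=
          mul_le_mul_left (hle b) _
      _ < 1 := by rw [one_mul]; exact h3
  have h7 : V.valuation (1 - (b : ℂ) * 3) = 1 := by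
    have := V.valuation.map_sub_eq_of_lt_left (x := 1) (y := (b : ℂ) * 3)
      (by rw [map_one]; exact h6)
    rw [this, map_one]
  rw [← h4, map_mul] at h7
  have h8 : V.valuation (f : ℂ) ≤ 1 := by exact_mod_cast hle (f : ℤ)
  refine le_antisymm h8 ?_
  rw [← h7]
  calc V.valuation (a : ℂ) * V.valuation (f : ℂ) ≤ 1 * V.valuation (f : ℂ) :=
        mul_le_mul_left (hle a) _
    _ = _ := one_mul _

/-- points killed by `n` are killed by the ideal `(n)` -/
lemma tor_of_mul (h : CQ A B) {b : Ideal (OO A B)} {L : PeriodPair} {om : ℂ} (hL : IsLI b L om)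
    {n : ℕ} {z : ℂ} (hz : (n : ℂ) * z ∈ L.lattice) : Tor (idl (A := A) (B := B) n) L z := by
  intro x hx
  obtain ⟨y, rfl⟩ := Ideal.mem_span_singleton.1 hx
  obtain ⟨t, ht, e⟩ := (hL.mem _).1 hz
  refine (hL.mem _).2 ⟨y * t, b.mul_mem_left _ ht, ?_⟩
  rw [_root_.Pool.Agent.MUX.emb_mul h, _root_.Pool.Agent.MUX.emb_mul h, _root_.Pool.Agent.MUX.emb_natCast h]
  linear_combination (emb y) * e

end UNR

open _root_.Pool.Agent.NSR.UNR in
/-- (UNR) inertia groups are trivial -/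
theorem tr_UNR (h1 : Sr_HPD) (h3 : Sr_TOR) (h4 : Sr_LIF) (h5 : Sr_MFD) (h6 : Sr_FXL) :
    Sr_UNR := by
  intro A B V N hc T f hf0 hf3 σ hσ hin
  have hcq := hc.cq
  have hidf : idl (A := A) (B := B) f ≠ ⊥ := by
    intro h0
    rw [Ideal.span_singleton_eq_bot] at h0
    have h7 := _root_.Pool.Agent.MUX.emb_natCast (A := A) (B := B) hcq f
    rw [h0, _root_.Pool.Agent.MUX.emb_zero hcq] at h7
    exact hf0 (by exact_mod_cast h7.symm)
  have hvf : V.valuation (f : ℂ) = 1 := v_nat hc.v3 hf3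
  have hN0 : N ≠ 0 := by
    have := hc.one
    omega
  have hvF : V.valuation ((N * f : ℕ) : ℂ) = 1 := by
    rw [Nat.cast_mul, map_mul, hc.vN, hvf, one_mul]
  -- the generators
  have key : ∀ (b : Ideal (OO A B)) (L : PeriodPair) (om : ℂ), IsNL b L om →
      σ (kap L) = kap L ∧ ∀ z, Tor (idl (A := A) (B := B) f) L z → z ∉ L.lattice →
        σ (xn L z) = xn L z := by
    intro b L om hL
    obtain ⟨w₁, w₂, w₃, u, ⟨hw1, hw1'⟩, ⟨hw2, hw2'⟩, ⟨hw3, hw3'⟩, hne, hu2, hLeg, hlam⟩ := h1 V L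
    have two : ∀ w : ℂ, w ∉ L.lattice → 2 * w ∈ L.lattice →
        L.weierstrassP w ∈ RF (idl (A := A) (B := B) 2) := by
      intro w hw hw'
      have hT : Tor (idl (A := A) (B := B) 2) L w :=
        tor_of_mul hcq hL.toIsLI (by push_cast; exact hw')
      have hx : xn L w ∈ RF (idl (A := A) (B := B) 2) :=
        IntermediateField.subset_adjoin _ _ ⟨b, L, om, hL, Or.inr ⟨w, hT, hw, rfl⟩⟩
      have h12 : (1 / 12 : ℂ) ∈ RF (idl (A := A) (B := B) 2) := by simp
      have e : L.weierstrassP w = xn L w + 1 / 12 := by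
        unfold xn
        ring
      rw [e]
      exact add_mem hx h12
    have m1 := two w₁ hw1 hw1'
    have m2 := two w₂ hw2 hw2'
    have m3 := two w₃ hw3 hw3'
    set e : ℂ := L.weierstrassP w₁ with he
    set lam : ℂ := (L.weierstrassP w₃ - e) / (L.weierstrassP w₂ - e) with hlamd
    have hu2m : u ^ 2 ∈ RF (idl (A := A) (B := B) 2) := by
      rw [hu2]; exact sub_mem m2 m1
    have hlamm : lam ∈ RF (idl (A := A) (B := B) 2) :=
      div_mem (sub_mem m3 m1) (sub_mem m2 m1)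
    obtain ⟨M, hMf, hlamM, hM⟩ := h5 A B hcq (fun m hm => T.fin m hm) b L om hL u e lam hLeg.u0
      hu2m m1 hlamm (N * f) (mul_ne_zero hN0 hf0)
    obtain ⟨σ', hσ', hσσ, hσM⟩ := h4 A B V hcq hc.v3 (RF (idl (A := A) (B := B) f)) M
      (T.fin _ hidf) (T.gal _ hidf) hMf σ hσ hin
    obtain ⟨hk, hx⟩ := h6 A B V N hc b L om hL u e lam hLeg hlam (N * f) (Dvd.intro f rfl) hvF σ'
      hσ' (hσM lam hlamM hlam) (fun z hz hz' => by
        obtain ⟨g1, g2⟩ := h3 V L u e lam hc.v2 hlam hLeg (N * f) hvF z hz hz'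
        obtain ⟨g3, g4⟩ := hM z hz hz'
        exact ⟨hσM _ g3 g1, hσM _ g4 g2⟩)
    refine ⟨?_, fun z hz hzL => ?_⟩
    · have hm : kap L ∈ RF (idl (A := A) (B := B) f) :=
        IntermediateField.subset_adjoin _ _ ⟨b, L, om, hL, Or.inl rfl⟩
      rw [← hσσ _ hm]
      exact hk
    · have hm : xn L z ∈ RF (idl (A := A) (B := B) f) :=
        IntermediateField.subset_adjoin _ _ ⟨b, L, om, hL, Or.inr ⟨z, hz, hzL, rfl⟩⟩
      rw [← hσσ _ hm]
      apply hx z hzL
      have h8 := hz ((f : ℕ) : OO A B) (Ideal.mem_span_singleton_self _)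
      rw [_root_.Pool.Agent.MUX.emb_natCast hcq] at h8
      have h9 := L.lattice.nsmul_mem h8 N
      rw [nsmul_eq_mul] at h9
      have e9 : ((N * f : ℕ) : ℂ) * z = (N : ℂ) * ((f : ℂ) * z) := by push_cast; ring
      rw [e9]
      exact h9
  intro y hy
  induction hy using IntermediateField.adjoin_induction with
  | mem x hx =>
    obtain ⟨b, L, om, hL, h | ⟨z, hz, hzL, h⟩⟩ := hx
    · rw [h]; exact (key b L om hL).1
    · rw [h]; exact (key b L om hL).2 z hz hzL
  | algebraMap x => exact fix_kk hσ _ x.2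
  | add x y _ _ hx hy => rw [map_add, hx, hy]
  | inv x _ hx => rw [map_inv₀, hx]
  | mul x y _ _ hx hy => rw [map_mul, hx, hy]

end

end Pool.Agent.NSR


end

section

/-!
# MUX, section 9, module RAT: conjugation of the symbol of a theta series of an ideal
-/

set_option autoImplicit false

namespace Pool.Agent.MUXY

open _root_.MU3 _root_.Pool.Agent.MU3A _root_.Pool.Agent.MU3B _root_.Pool.Agent.MUXU OnePoint
open _root_.Pool.Agent.MU3F (ex)
open _root_.Pool.Agent.MUXF (Sx_ALG Sx_IDL Sx_NIM Sx_QB Sx_SMB Sx_F4 qb sumB)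

noncomputable section

theorem RAT_phi_infty {A B : ℤ} (b : Ideal (OO A B)) (e : OO A B → ℂ) :
    MUXF.PhiI b e ∞ ∞ = 0 := by
  unfold MUXF.PhiI
  exact sub_self _

theorem RAT_phi_sub {A B : ℤ} (b : Ideal (OO A B)) (e : OO A B → ℂ) (x y : OnePoint ℚ) :
    MUXF.PhiI b e x y = MUXF.PhiI b e ∞ y - MUXF.PhiI b e ∞ x := by
  unfold MUXF.PhiI
  ring

theorem ty_RAT (h2 : Sx_IDL) (h4 : Sy_MAP) (h5 : Sy_IDF) (h6 : Sy_UV) (h7 : Sy_RA1) :
    Sy_RAT := by
  intro A B hq σ m a b c L L' om om' mu hb hc hN hz g e he hg hm hmg hcb hcc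
  obtain ⟨f, hf⟩ := h4 A B hq σ m a b c L L' om om' mu hb hc hN
  obtain ⟨-, -, i3, -⟩ := h5 A B hq σ m a b c L L' om om' mu f hb hc hN hf
  have hco := h6 A B hq m a b c g _ hb.b_ne hc.b_ne hmg hN.cop hcb hcc i3
  have hu : e (f ((MUXF.nI b : ℕ) : OO A B)) ≠ 0 := (he.supp _).2 hco
  have hNb : e ((MUXF.nI b : ℕ) : OO A B) ≠ 0 := (he.supp _).2 hcb
  have n1 : (MUXF.nI b : ℂ) ≠ 0 := by exact_mod_cast (h2 A B hq b hb.b_ne).1
  have n2 : (MUXF.nI c : ℂ) ≠ 0 := by exact_mod_cast (h2 A B hq c hc.b_ne).1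
  have su : σ (e (f ((MUXF.nI b : ℕ) : OO A B))) ≠ 0 := (map_ne_zero σ).2 hu
  have sb : σ (e ((MUXF.nI b : ℕ) : OO A B)) ≠ 0 := (map_ne_zero σ).2 hNb
  set C : ℂ := MUXF.nI b * σ (e ((MUXF.nI b : ℕ) : OO A B)) /
    (MUXF.nI c * σ (e (f ((MUXF.nI b : ℕ) : OO A B)))) with hC
  have key : ∀ x : OnePoint ℚ, Dn m x → σ (MUXF.PhiI b e ∞ x / om) =
      C * (MUXF.PhiI c (fun x => σ (e x)) ∞ x / om') := by
    intro x hx
    induction x using OnePoint.rec with
    | infty => rw [RAT_phi_infty, RAT_phi_infty, zero_div, map_zero, zero_div, mul_zero]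
    | coe r =>
      have h1 := h7 A B hq σ m a b c L L' om om' mu f hb hc hN hf hz g e he hg hm hmg r.den
        r.den_nz (hx r rfl) r.num
      rw [Rat.num_div_den] at h1
      rw [hC]
      rw [div_mul_eq_mul_div, eq_div_iff (mul_ne_zero n2 su)]
      rw [← h1]
      ring
  refine ⟨C, div_ne_zero (mul_ne_zero n1 sb) (mul_ne_zero n2 su), ⟨_, _, hNb, hu, hC⟩, ?_⟩
  intro x y hx hy
  rw [RAT_phi_sub b e x y, RAT_phi_sub c _ x y, sub_div, map_sub, key x hx, key y hy]
  ring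

end

end Pool.Agent.MUXY


end

section

/-!
# MUX, module Y_PR4: the terms of F4 are periodic
-/

set_option autoImplicit false

namespace Pool.Agent.MUXY

open _root_.MU3 _root_.Pool.Agent.MU3A _root_.Pool.Agent.MU3B _root_.Pool.Agent.MUXU OnePoint
open _root_.Pool.Agent.MU3F (ex)
open _root_.Pool.Agent.MUXF (Sx_ALG Sx_IDL Sx_NIM Sx_QB Sx_SMB Sx_F4 qb sumB)

lemma pr4_ex_add_int (r : ℚ) (n : ℤ) : ex (r + n) = ex r := by
  unfold ex
  push_cast
  rw [mul_add, Complex.exp_add]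
  have h1 : Complex.exp (2 * Real.pi * Complex.I * n) = 1 := by
    rw [show (2 * Real.pi * Complex.I * n : ℂ) = n * (2 * Real.pi * Complex.I) by ring]
    exact Complex.exp_int_mul_two_pi_mul_I n
  rw [h1, mul_one]

theorem ty_PR4 (h1 : Sx_ALG) (h2 : Sx_QB) : Sy_PR4 := by
  intro A B hc b L om hL g e he m M hm hmg hM hMm β x hx y hy
  obtain ⟨hA1, _, hA3, _, _⟩ := h1 A B hc
  obtain ⟨_, hq, _⟩ := h2 A B hc b hL.b_ne
  have e1 : e (x + m * y) = e x := by
    apply he.per
    have : x + (m : OO A B) * y - x = y * (m : OO A B) := by ring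
    rw [this]
    exact g.mul_mem_left _ hmg
  obtain ⟨k, hk⟩ := hq x hx y hy (m : ℤ)
  rw [Int.cast_natCast] at hk
  have e2 : ex (β * qb b (x + m * y) / M) = ex (β * qb b x / M) := by
    obtain ⟨d, hd⟩ := hMm
    have hM' : (M : ℚ) ≠ 0 := by exact_mod_cast hM
    have h3 : (β * qb b (x + m * y) / M : ℚ) = β * qb b x / M + ((β * d * k : ℤ) : ℚ) := by
      rw [hk, hd]
      push_cast
      field_simp
    rw [h3, pr4_ex_add_int]
  have e3 : om * emb (x + (m : OO A B) * y) / m = om * emb x / m + om * emb y := by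
    have h4 : emb ((m : ℕ) : OO A B) = (m : ℂ) := by
      have h5 := (hA3 (m : ℤ)).1
      rw [Int.cast_natCast] at h5
      rw [h5]
      push_cast
      rfl
    rw [(hA1 _ _).2.1, (hA1 _ _).1, h4]
    have hm' : (m : ℂ) ≠ 0 := by exact_mod_cast hm
    field_simp
  have h6 : om * emb y ∈ L.lattice := (hL.mem _).2 ⟨y, hy, rfl⟩
  rw [e1, e2, e3, (b_PER L).1 _ _ h6]

end Pool.Agent.MUXY


end

section

/-!
# MUX, section 9 of the paper, module IDF (helper83): the image of the map `x ↦ (mu om / om') x`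
-/

set_option autoImplicit false

namespace Pool.Agent.MUXY

open _root_.MU3 _root_.Pool.Agent.MU3A _root_.Pool.Agent.MU3B _root_.Pool.Agent.MUXU OnePoint
open _root_.Pool.Agent.MU3F (ex)
open _root_.Pool.Agent.MUXF (Sx_ALG Sx_IDL Sx_NIM Sx_QB Sx_SMB Sx_F4 qb sumB)

noncomputable section

namespace IdfY

variable {A B : ℤ}

theorem _root_.Pool.Agent.MUXY.IdfY.emb_inj (hz : ∀ x : OO A B, emb x = 0 ↔ x = 0)
    (hadd : ∀ x y : OO A B, emb (x + y) = emb x + emb y) {x y : OO A B} (h : emb x = emb y) :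
    x = y := by
  have h1 : emb ((x - y) + y) = emb (x - y) + emb y := hadd _ _
  rw [sub_add_cancel, h] at h1
  have h2 : emb (x - y) = 0 := by
    have : emb (x - y) + emb y = 0 + emb y := by rw [← h1, zero_add]
    exact add_right_cancel this
  exact sub_eq_zero.1 ((hz _).1 h2)

theorem two_mul_ne_one (y : OO A B) : y + y ≠ 1 := by
  intro h
  have h1 := congrArg QuadraticAlgebra.re h
  rw [QuadraticAlgebra.re_add, QuadraticAlgebra.re_one] at h1
  omega

end IdfY

open _root_.Pool.Agent.MUXY.IdfY in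
theorem ty_IDF (h1 : Sx_ALG) (h2 : Sx_IDL) (h3 : Sx_NIM) : Sy_IDF := by
  intro A B hCQ σ m a b c L L' om om' mu f hL hL' hA hf
  obtain ⟨hmul, hz, hint, -, hdom⟩ := h1 A B hCQ
  have : IsDomain (OO A B) := hdom
  have hinj : ∀ x y : OO A B, emb x = emb y → x = y := fun x y =>
    _root_.Pool.Agent.MUXY.IdfY.emb_inj (fun x => (hz x).1) (fun x y => (hmul x y).2.1)
  have hem : ∀ x y : OO A B, emb (x * y) = emb x * emb y := fun x y => (hmul x y).1
  have hea : ∀ x y : OO A B, emb (x + y) = emb x + emb y := fun x y => (hmul x y).2.1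
  have hnat : ∀ n : ℕ, emb ((n : ℕ) : OO A B) = (n : ℂ) := by
    intro n
    have := (hint (n : ℤ)).1
    rw [Int.cast_natCast, Int.cast_natCast] at this
    exact this
  have hom' := hL'.om_ne
  have hom := hL.om_ne
  -- (0)
  have ha : a ≠ ⊥ := by
    intro h0
    have h4 : mu * (om' / (2 * mu)) ∈ L'.lattice := by
      rw [hA.isq]
      intro x hx
      rw [h0, Ideal.mem_bot] at hx
      rw [hx, ((hz 0).1).2 rfl, zero_mul]
      exact L.lattice.zero_mem
    obtain ⟨y, hy, hyz⟩ := (hL'.mem _).1 h4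
    have h5 : om' * emb (y + y) = om' * emb (1 : OO A B) := by
      have h6 : emb (1 : OO A B) = 1 := by
        have := hnat 1
        rwa [Nat.cast_one, Nat.cast_one] at this
      rw [hea, h6, mul_add, ← hyz]
      field_simp [hA.ne]
      norm_num
    exact two_mul_ne_one y (hinj _ _ (mul_left_cancel₀ hom' h5))
  have hIa := h2 A B hCQ a ha
  have hIb := h2 A B hCQ b hL.b_ne
  obtain ⟨hN1, hN2, hN3, -⟩ := h3 A B hCQ
  have hNa : ((MUXF.nI a : ℕ) : OO A B) ≠ 0 := by
    intro h0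
    have := hnat (MUXF.nI a)
    rw [h0, ((hz 0).1).2 rfl] at this
    exact hIa.1 (by exact_mod_cast this.symm)
  have hNb : ((MUXF.nI b : ℕ) : OO A B) ≠ 0 := by
    intro h0
    have := hnat (MUXF.nI b)
    rw [h0, ((hz 0).1).2 rfl] at this
    exact hIb.1 (by exact_mod_cast this.symm)
  have hNaC : ((MUXF.nI a : ℕ) : ℂ) ≠ 0 := by exact_mod_cast hIa.1
  -- (1), (2)
  have hmem : ∀ y : OO A B, y ∈ a * c ↔ ∃ x ∈ b, f x = y := by
    intro y
    constructor
    · intro hy
      refine Submodule.mul_induction_on hy ?_ ?_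
      · intro α hα y hy
        have h4 : mu * (om' * emb y / mu) ∈ L'.lattice := by
          rw [mul_div_cancel₀ _ hA.ne]
          exact (hL'.mem _).2 ⟨y, hy, rfl⟩
        have h5 := (hA.isq _).1 h4 α hα
        obtain ⟨x, hx, hxz⟩ := (hL.mem _).1 h5
        refine ⟨x, hx, ?_⟩
        apply hinj
        apply mul_left_cancel₀ hom'
        rw [hf.eq x hx, hem]
        have h6 : mu * om * emb x = mu * (om * emb x) := by ring
        rw [h6, ← hxz]
        field_simp [hA.ne]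
      · rintro x y ⟨x', hx', rfl⟩ ⟨y', hy', rfl⟩
        exact ⟨x' + y', b.add_mem hx' hy', hf.add x' hx' y' hy'⟩
    · rintro ⟨x, hx, rfl⟩
      have key : ∀ s ∈ a * MUXF.cjI a, ∃ t ∈ a * c, ((MUXF.nI a : ℕ) : OO A B) * t = s * f x := by
        intro s hs
        refine Submodule.mul_induction_on hs ?_ ?_
        · intro α hα α' hα'
          have h4 : mu * (om * emb (α' * x) / (MUXF.nI a : ℕ)) ∈ L'.lattice := by
            rw [hA.isq]
            intro γ hγ
            have h5 : γ * α' ∈ a * MUXF.cjI a := Ideal.mul_mem_mul hγ hα'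
            rw [hIa.2, Ideal.mem_span_singleton] at h5
            obtain ⟨r, hr⟩ := h5
            refine (hL.mem _).2 ⟨r * x, b.mul_mem_left r hx, ?_⟩
            have h6 : emb γ * emb α' = (MUXF.nI a : ℕ) * emb r := by
              rw [← hem, hr, hem, hnat]
            rw [hem, hem]
            field_simp
            linear_combination (emb x) * h6
          obtain ⟨y, hy, hyz⟩ := (hL'.mem _).1 h4
          refine ⟨α * y, Ideal.mul_mem_mul hα hy, ?_⟩
          have h7 : ((MUXF.nI a : ℕ) : OO A B) * y = α' * f x := by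
            apply hinj
            apply mul_left_cancel₀ hom'
            rw [hem, hem, hnat]
            have h8 : om' * ((MUXF.nI a : ℕ) * emb y) = (MUXF.nI a : ℕ) * (om' * emb y) := by
              ring
            have h9 : om' * (emb α' * emb (f x)) = emb α' * (om' * emb (f x)) := by ring
            rw [h8, h9, ← hyz, hf.eq x hx, hem]
            field_simp
          calc ((MUXF.nI a : ℕ) : OO A B) * (α * y) = α * (((MUXF.nI a : ℕ) : OO A B) * y) := by
                ring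
            _ = α * α' * f x := by rw [h7]; ring
        · rintro s s' ⟨t, ht, hts⟩ ⟨t', ht', hts'⟩
          exact ⟨t + t', (a * c).add_mem ht ht', by rw [mul_add, hts, hts', add_mul]⟩
      obtain ⟨t, ht, hts⟩ := key ((MUXF.nI a : ℕ) : OO A B) (by
        rw [hIa.2]
        exact Ideal.mem_span_singleton_self _)
      rw [← mul_left_cancel₀ hNa hts]
      exact ht
  -- (3)
  have hnbm : ((MUXF.nI b : ℕ) : OO A B) ∈ b := (hN3 b hL.b_ne).2.2.2
  have hsp : MUXF.sp (f ((MUXF.nI b : ℕ) : OO A B)) * b =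
      MUXF.sp ((MUXF.nI b : ℕ) : OO A B) * (a * c) := by
    apply le_antisymm
    · rw [Ideal.span_singleton_mul_le_iff]
      intro x hx
      rw [← hf.nb x hx, Ideal.mem_span_singleton_mul]
      exact ⟨f x, (hmem _).2 ⟨x, hx, rfl⟩, rfl⟩
    · rw [Ideal.span_singleton_mul_le_iff]
      intro y hy
      obtain ⟨x, hx, rfl⟩ := (hmem y).1 hy
      rw [hf.nb x hx, Ideal.mem_span_singleton_mul]
      exact ⟨x, hx, rfl⟩
  refine ⟨ha, hmem, hsp, ?_⟩
  -- (4)
  set u : OO A B := f ((MUXF.nI b : ℕ) : OO A B) with hu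
  have hac := (hN1 a c ha hL'.b_ne)
  have hspb : MUXF.sp ((MUXF.nI b : ℕ) : OO A B) ≠ ⊥ := by
    intro h0
    exact hNb (Ideal.span_singleton_eq_bot.1 h0)
  have hr := hN1 (MUXF.sp ((MUXF.nI b : ℕ) : OO A B)) (a * c) hspb hac.2
  have hspu : MUXF.sp u ≠ ⊥ := by
    intro h0
    rw [h0, Ideal.bot_mul] at hsp
    exact hr.2 hsp.symm
  have hu0 : u ≠ 0 := by
    intro h0
    apply hspu
    rw [h0]
    exact Ideal.span_singleton_eq_bot.2 rfl
  have hl := hN1 (MUXF.sp u) b hspu hL.b_ne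
  have h5 : MUXF.nI (MUXF.sp u) = (nm u).natAbs := by
    rcases hN2 u with h | h
    · exact h
    · exact absurd h hu0
  have h6 : MUXF.nI (MUXF.sp ((MUXF.nI b : ℕ) : OO A B)) =
      (nm ((MUXF.nI b : ℕ) : OO A B)).natAbs := by
    rcases hN2 ((MUXF.nI b : ℕ) : OO A B) with h | h
    · exact h
    · exact absurd h hNb
  have h7 : nm ((MUXF.nI b : ℕ) : OO A B) = (MUXF.nI b : ℤ) ^ 2 := by
    have := (hint (MUXF.nI b : ℤ)).2
    rwa [Int.cast_natCast] at this
  have h8 : ((MUXF.nI (MUXF.sp u) : ℕ) : ℤ) = nm u := by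
    rw [h5, Int.natAbs_of_nonneg (hz u).2.2.1]
  have h9 : ((MUXF.nI (MUXF.sp ((MUXF.nI b : ℕ) : OO A B)) : ℕ) : ℤ) = (MUXF.nI b : ℤ) ^ 2 := by
    rw [h6, Int.natAbs_of_nonneg (hz _).2.2.1, h7]
  have h10 : MUXF.nI (MUXF.sp u) * MUXF.nI b =
      MUXF.nI (MUXF.sp ((MUXF.nI b : ℕ) : OO A B)) * (MUXF.nI a * MUXF.nI c) := by
    rw [← hl.1, ← hac.1, ← hr.1, hsp]
  have h11 : nm u * MUXF.nI b = (MUXF.nI b : ℤ) ^ 2 * ((MUXF.nI a : ℤ) * MUXF.nI c) := by
    rw [← h8, ← h9]
    exact_mod_cast h10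
  have h12 : (MUXF.nI b : ℤ) ≠ 0 := by exact_mod_cast hIb.1
  apply mul_right_cancel₀ h12
  rw [h11]
  ring

end

end Pool.Agent.MUXY


end

section

/-!
# MUX, section 9, module ALP: the values of the symbols are algebraic
-/

set_option autoImplicit false

namespace Pool.Agent.MUXY

open _root_.MU3 _root_.Pool.Agent.MU3A _root_.Pool.Agent.MU3B _root_.Pool.Agent.MUXU OnePoint
open _root_.Pool.Agent.MU3F (ex)
open _root_.Pool.Agent.MUXF (Sx_ALG Sx_IDL Sx_NIM Sx_QB Sx_SMB Sx_F4 qb sumB)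

namespace Y_ALP

theorem wC_sq {A B : ℤ} (h : MUX.CQ A B) : wC A B * wC A B = A + B * wC A B := by
  have h1 : (0 : ℝ) ≤ (absD A B : ℝ) := by
    have := h.neg
    have h0 : 0 ≤ absD A B := by
      unfold absD
      omega
    exact_mod_cast h0
  have h2 : ((Real.sqrt (absD A B) : ℝ) : ℂ) ^ 2 = (absD A B : ℂ) := by
    rw [← Complex.ofReal_pow, Real.sq_sqrt h1]
    norm_num
  have h3 : Complex.I ^ 2 = -1 := Complex.I_sq
  have h4 : (absD A B : ℂ) = -((B : ℂ) ^ 2 + 4 * A) := by simp [absD]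
  unfold wC
  linear_combination (Complex.I ^ 2 / 4) * h2 + ((absD A B : ℂ) / 4) * h3 - (1 / 4) * h4

theorem wC_int {A B : ℤ} (hc : MUX.CQ A B) : IsIntegral ℤ (wC A B) := by
  refine ⟨Polynomial.X ^ 2 - Polynomial.C B * Polynomial.X - Polynomial.C A, ?_, ?_⟩
  · monicity!
  · have := wC_sq hc
    simp only [Polynomial.eval₂_sub, Polynomial.eval₂_mul, Polynomial.eval₂_pow,
      Polynomial.eval₂_X, Polynomial.eval₂_C]
    simp only [algebraMap_int_eq, eq_intCast]
    linear_combination this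

theorem kk_alg {A B : ℤ} (hc : MUX.CQ A B) : Algebra.IsAlgebraic ℚ (kk A B) := by
  have h1 : IsIntegral ℚ (wC A B) := (wC_int hc).tower_top
  have h2 : FiniteDimensional ℚ (kk A B) := IntermediateField.adjoin.finiteDimensional h1
  exact Algebra.IsAlgebraic.of_finite ℚ _

end Y_ALP

open _root_.Pool.Agent.MUXY.Y_ALP in
theorem ty_ALP (h1 : Sy_FIN) (h2 : Sy_FEC) (h3 : Sy_ALM) (h4 : Su_AUT) : Sy_ALP := by
  intro A B hc hT n ι hι R g e hg0 hg1 he hcop r hr hroot i x y
  obtain ⟨hE, hZ⟩ := h2 A B e r hr hroot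
  have hP : IsAlgebraic ℚ (MUX.PhiI (R.b i) e x y / R.om i) := by
    refine h4 (kk A B) (kk_alg hc) _ ?_
    have hfin := (((Set.finite_univ (α := ι)).prod (hE.prod (hZ.prod hZ))).image
      (fun q : ι × (OO A B → ℂ) × ℂ × ℂ =>
        (MUX.nI (R.b i) : ℂ) * q.2.2.1 / (MUX.nI (R.b q.1) * q.2.2.2) *
          (MUX.PhiI (R.b q.1) q.2.1 x y / R.om q.1)))
    refine hfin.subset ?_
    rintro z ⟨σ, hσ, rfl⟩
    have hfix : MUX.FixK A B σ := hσ _ (wC_mem A B)
    obtain ⟨j, C, -, -, ⟨x₁, x₂, -, -, hC⟩, hS⟩ :=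
      h1 A B hc hT n ι R g e hg0 hg1 he hcop σ hfix i {(x, y)}
    refine ⟨(j, (fun x => σ (e x)), σ (e x₁), σ (e x₂)),
      ⟨Set.mem_univ _, ⟨σ, rfl⟩, ⟨σ, x₁, rfl⟩, ⟨σ, x₂, rfl⟩⟩, ?_⟩
    have h5 := hS (x, y) (Finset.mem_singleton_self _)
    simp only at h5 ⊢
    rw [h5, hC]
  refine ⟨hP, ?_⟩
  have h6 := (h3 A B hc hT n ι hι R i).2
  have h7 : MUX.PhiI (R.b i) e x y / R.om R.i0 =
      MUX.PhiI (R.b i) e x y / R.om i * (R.om i / R.om R.i0) := by
    have h8 : R.om i ≠ 0 := (R.nl i).om_ne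
    field_simp
  rw [h7]
  exact hP.mul h6

end Pool.Agent.MUXY


end

section

/-!
# MUX: existence of representatives `Reps`, `LatFacts`, and algebraicity for all ideals (helper41)

Every statement is a `def Sy_X : Prop`. A module proves `theorem ty_X (h : ..) .. : Sy_X` in the file
`Pool/Agent/MUX/Y_X.lean`, namespace `Pool.Agent.MUXY`, where the hypotheses are the statements `Sy_..` named under
USES (fewer is fine). The following are theorems and may be used directly: `Pool.Agent.MUXF.xf_X : Sx_X` (`XFAll.lean`: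
`xf_ALG`, `xf_IDL`, `xf_NIM`, `xf_QB`, `xf_LAT1`, `xf_PRI`, `xf_BDD`; they are about `MUXF.CQ`, use `cqF` for a hypothesis
`MUX.CQ`; `nI`, `cjI`, `sp` of the two namespaces are equal by `rfl`), `Pool.Agent.MUXU.u_X : Su_X` (`UAll.lean`: `u_DET`,
`u_SCX`), `Pool.Agent.MU3B.b_DSC` (`BAll.lean`), `Pool.Agent.MU3A.ta_SCP` (`A_SCP.lean`: scaling of `g₂`, `g₃`), and
`Pool.Agent.MUXY.Muu.scale` (`Y_MUU.lean`: if `g₂ = -18 g₃` and `z ∈ L ↔ s z ∈ L` then `s = ±1`).

`N b = nI b`. (ALG): `emb` is additive, multiplicative, injective; `nm x = x * star x`; (IDL): `N b ≠ 0`, `b * cjI b = sp (N b)`;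
(NIM): `N (b c) = N b N c`, `N (sp a) = |nm a|`, `N (cjI b) = N b`, `N b ∈ b`, cancellation `b c ≤ b c' ↔ c ≤ c'`; (QB): `nm x = N b * qb b x`
for `x ∈ b`.
-/

set_option autoImplicit false

namespace Pool.Agent.MUXY

open _root_.MU3 _root_.Pool.Agent.MU3A _root_.Pool.Agent.MU3B _root_.Pool.Agent.MUXU OnePoint
open _root_.Pool.Agent.MUX (CQ CaseP nI cjI sp IsLI IsNL IsEI PhiI Reps TorX)
open _root_.Pool.Agent.MUXF (qb)

noncomputable section

/-- `b` and `c` are in the same ideal class -/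
def Cl {A B : ℤ} (b c : Ideal (OO A B)) : Prop :=
  ∃ x y : OO A B, x ≠ 0 ∧ y ≠ 0 ∧ _root_.Pool.Agent.MUX.sp x * b = _root_.Pool.Agent.MUX.sp y * c

theorem Cl.refl {A B : ℤ} [Nontrivial (OO A B)] (b : Ideal (OO A B)) : Cl b b :=
  ⟨1, 1, one_ne_zero, one_ne_zero, rfl⟩

theorem Cl.symm {A B : ℤ} {b c : Ideal (OO A B)} (h : Cl b c) : Cl c b := by
  obtain ⟨x, y, hx, hy, h⟩ := h
  exact ⟨y, x, hy, hx, h.symm⟩

/-! ## Normalised lattices -/

/-- (MLR) the multipliers of an ideal are in `O`.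

PROOF. Induction (`Submodule.mul_induction_on`): for `r ∈ b * cjI b` there is `r' ∈ b * cjI b` with `s emb r = emb r'` (`r = x y`: `s emb x emb y = emb (x' y)`). For `r = N b`: `s N(b) = emb r'`, `r' ∈ sp (N b)` (IDL), `r' = N(b) t`, `N(b) ≠ 0`. -/
def Sy_MLR : Prop :=
  ∀ A B : ℤ, _root_.Pool.Agent.MUX.CQ A B → ∀ (b : Ideal (OO A B)) (s : ℂ), b ≠ ⊥ →
    (∀ x ∈ b, ∃ y ∈ b, s * emb x = emb y) → ∃ t : OO A B, s = emb t

/-- (NZL) `g₂, g₃ ≠ 0`.

USES MLR. PROOF. `disc ≠ 0` (`b_DSC`), so not both are `0`. Let `g₂ = 0` and `ζ = (-1 + i sqrt 3)/2`, `ζ² + ζ + 1 = 0`, `ζ³ = 1`. `L' = ζ L` (`u_SCX`) has `g₂ = 0 = g₂(L)` and `g₃(L') = g₃(L)/ζ⁶ = g₃(L)` (`ta_SCP`), so `L' = L`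
(`u_DET`): `ζ emb x ∈ emb b` for `x ∈ b`, and `ζ = emb t` (MLR). `t² + t + 1 = 0` in `O` (`emb` injective), `t = x + y w`: the coordinates are `x² + A y² + x + 1 = 0`, `2 x y + B y² + y = 0`. `y ≠ 0` (`x² + x + 1 ≠ 0`), so `2 x + B y + 1 = 0`, and
`4 (x² + A y² + x + 1) = (2x + 1)² + 4 A y² + 3 = (B² + 4A) y² + 3 = 3 - absD y²`: `absD y² = 3`, `absD = 3`. The same for `g₃ = 0`, `ζ = i`: `x² + A y² + 1 = 0`, `2 x + B y = 0`, `4 - absD y² = 0`; `absD ∈ {1, 4}`, and `absD = 1` is impossible (`B = 0`: `-4A = 1`; `B = 1`: `-(1 + 4A) = 1`). -/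
def Sy_NZL : Prop :=
  ∀ A B : ℤ, _root_.Pool.Agent.MUX.CQ A B → absD A B ≠ 3 → absD A B ≠ 4 →
    ∀ (b : Ideal (OO A B)) (L : PeriodPair) (om : ℂ), _root_.Pool.Agent.MUX.IsLI b L om → L.g₂ ≠ 0 ∧ L.g₃ ≠ 0

/-- (NLE) existence of normalised lattices.

USES NZL. PROOF. `L₁` with `IsLI b L₁ 1` (`xf_LAT1`); `u² = -18 g₃(L₁)/g₂(L₁) ≠ 0`; `L` with `IsLI b L u` (`xf_LAT1`); `z ∈ L₁ ↔ u z ∈ L`, so `g₂(L) = g₂/u⁴`, `g₃(L) = g₃/u⁶` (`ta_SCP`), `-18 g₃(L) = u² g₂/u⁶ = g₂(L)`. -/
def Sy_NLE : Prop :=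
  ∀ A B : ℤ, _root_.Pool.Agent.MUX.CQ A B → absD A B ≠ 3 → absD A B ≠ 4 → ∀ b : Ideal (OO A B), b ≠ ⊥ →
    ∃ (L : PeriodPair) (om : ℂ), IsNL b L om

/-- (NLD) if there is a normalised lattice then `absD ≠ 3, 4`.

PROOF. `absD = 3`: `B = 1`, `A = -1` (`B = 0`: `-4A = 3`, no), `w² = -1 + w`, `w³ = -1`, `w` is a unit (`w (1 - w) = 1`), so `z ∈ L ↔ wC z ∈ L` (`L = om emb b`); `Muu.scale`: `wC = ±1`, but `wC² = wC - 1`: `1 = 0` or `1 = -2`. `absD = 4`: `B = 0`, `A = -1`
(`B = 1`: `-(1 + 4A) = 4`, no), `wC² = -1`, a unit: `wC = ±1`, contradiction. -/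
def Sy_NLD : Prop :=
  ∀ A B : ℤ, _root_.Pool.Agent.MUX.CQ A B → ∀ (b : Ideal (OO A B)) (L : PeriodPair) (om : ℂ), IsNL b L om →
    absD A B ≠ 3 ∧ absD A B ≠ 4

/-- (CPD) PROOF. `B² + 4A ≡ 1` modulo `3` or `8`, and `absD = -(B² + 4A)`: `omega`. -/
def Sy_CPD : Prop :=
  ∀ (p : ℕ) (A B : ℤ), CaseP p A B → absD A B ≠ 3 ∧ absD A B ≠ 4

/-! ## Ideal classes -/

/-- (SML) a small element.

PROOF. `N = N b = #(O/b) ≥ 1`, `s = Nat.sqrt N`, `s² ≤ N < (s+1)²`. The `(s+1)²` elements `i + j w`, `0 ≤ i, j ≤ s`, are not pairwise incongruent modulo `b` (`Finite.exists_ne_map_eq_of..`, `Fintype.exists_ne_map_eq_of_card_lt`; `O/b` finite: `xf_ALG`), so there is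
`x = i + j w ∈ b`, `x ≠ 0`, `|i|, |j| ≤ s`. `nm x = i² + B i j - A j² ≤ (1 + |B| + |A|) s² ≤ (1 + |A| + |B|) N`. -/
def Sy_SML : Prop :=
  ∀ A B : ℤ, _root_.Pool.Agent.MUX.CQ A B → ∀ b : Ideal (OO A B), b ≠ ⊥ →
    ∃ x ∈ b, x ≠ 0 ∧ nm x ≤ (1 + |A| + |B|) * nI b

/-- (DVI) the ideal `y b / N b`.

PROOF. `sp y * b ≤ cjI b * b = sp (N b)` (IDL). `c := {z : N(b) z ∈ sp y * b}` (an ideal: `Ideal.comap`-like, or give the fields). `sp (N b) * c = sp y * b`: an element of the right side is `N(b) z` with `z ∈ c`. `c ≠ ⊥`: `sp y * b ≠ ⊥`. Norms: `N(b)² N(c) = nm y N(b)` (NIM),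
`nm y = N(cjI b) qb (cjI b) y = N(b) qb (cjI b) y` (QB). -/
def Sy_DVI : Prop :=
  ∀ A B : ℤ, _root_.Pool.Agent.MUX.CQ A B → ∀ (b : Ideal (OO A B)) (y : OO A B), b ≠ ⊥ → y ∈ _root_.Pool.Agent.MUX.cjI b → y ≠ 0 →
    ∃ c : Ideal (OO A B), c ≠ ⊥ ∧ _root_.Pool.Agent.MUX.sp ((nI b : ℕ) : OO A B) * c = _root_.Pool.Agent.MUX.sp y * b ∧
      (nI c : ℤ) = qb (_root_.Pool.Agent.MUX.cjI b) y

/-- (FCL) finitely many classes.

USES SML, DVI. PROOF. `C = 1 + |A| + |B|`. Let `b ≠ ⊥`, `x ∈ b` from (SML) for `b`. (DVI) for `cjI b` and `y = x ∈ b = cjI (cjI b)`: `c` with `sp (N b) * c = sp x * cjI b`, `N(c) = qb b x = nm x/N(b) ≤ C`. Apply `cjI` (`cjI` of a product, of `sp`; or: multiply by `b`: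
`sp (N b) * (c * b) = sp x * sp (N b)`, so `c * b = sp x`, and multiply by `cjI c`: `sp (N c) * b = sp x * cjI c`). So `Cl b (cjI c)`, and `N(cjI c) ≤ C`. The set of the ideals `d ≠ ⊥` with `N(d) ≤ C` is finite: every such `d` contains `C! = M` (`N d ∈ d`, `N d ≥ 1`), and the ideals
containing `M ≠ 0` are the preimages of the ideals of the finite ring `O/(M)` (finitely many subsets): `Set.Finite.of_injOn` or `Ideal.comap` surjective. -/
def Sy_FCL : Prop :=
  ∀ A B : ℤ, _root_.Pool.Agent.MUX.CQ A B → ∃ F : Finset (Ideal (OO A B)), (∀ c ∈ F, c ≠ ⊥) ∧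
    ∀ b : Ideal (OO A B), b ≠ ⊥ → ∃ c ∈ F, Cl b c

/-- (QPR) the form `qb J` is primitive.

PROOF. Suppose `q ∣ qb J y` for all `y ∈ J`. Let `𝔯 = (Ideal.span {(q : O)}).radical`. Claim: for `r ∈ J * cjI J` there is `t ∈ 𝔯` with `r = N(J) t`. Induction (`Submodule.mul_induction_on`), `r = y y''`, `y ∈ J`, `y'' ∈ cjI J`, `z := star y'' ∈ J`: `r = N(J) t` by (IDL). `nm t N(J)² = nm y nm z`, so `nm t = qb J y qb J z`
is divisible by `q`. `N(J) (t + star t) = y star z + star y z = nm (y + z) - nm y - nm z = N(J) (qb J (y + z) - qb J y - qb J z)`, so `t + star t = q k` with an integer `k`. `t² = (t + star t) t - nm t ∈ (q)`, so `t ∈ 𝔯`. For `r = N(J)` (IDL): `t = 1 ∈ 𝔯`, so `1 ∈ (q)`: `q x = 1`, `q² nm x = 1`, impossible. -/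
def Sy_QPR : Prop :=
  ∀ A B : ℤ, _root_.Pool.Agent.MUX.CQ A B → ∀ J : Ideal (OO A B), J ≠ ⊥ → ∀ q : ℕ, q.Prime →
    ∃ y ∈ J, ¬ (q : ℤ) ∣ qb J y

/-- (QCO) a value prime to `n`.

USES QPR. PROOF. For every finite set `S` of primes there is `y ∈ J` with `q ∤ qb J y` for all `q ∈ S` (`Finset.induction_on`): `S ∪ {q}`, `q ∉ S`, `y` for `S`; if `q ∤ qb J y` take `y`; otherwise `y_q ∈ J` with `q ∤ qb J y_q` (QPR), `s = ∏ S`, `y' = q y + s y_q`:
modulo `q' ∈ S`: `qb J y' ≡ qb J (q y) = q² qb J y ≢ 0` (`xf_QB`: `qb b (x + m y) = qb b x + m k`; `nm (m x) = m² nm x`), modulo `q`: `≡ s² qb J y_q ≢ 0`. Take `S` = the prime factors of `n` and one more prime (so `qb J y ≠ 0` and `y ≠ 0`). -/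
def Sy_QCO : Prop :=
  ∀ A B : ℤ, _root_.Pool.Agent.MUX.CQ A B → ∀ J : Ideal (OO A B), J ≠ ⊥ → ∀ n : ℕ, n ≠ 0 →
    ∃ y ∈ J, y ≠ 0 ∧ IsCoprime (qb J y) (n : ℤ)

/-- (CLN) every class contains an ideal of norm prime to `n`.

USES DVI, QCO. PROOF. (QCO) for `J = cjI b`, (DVI): `sp y * b = sp (N b) * c`, `N(c) = qb (cjI b) y`. -/
def Sy_CLN : Prop :=
  ∀ A B : ℤ, _root_.Pool.Agent.MUX.CQ A B → ∀ b : Ideal (OO A B), b ≠ ⊥ → ∀ n : ℕ, n ≠ 0 →
    ∃ c : Ideal (OO A B), c ≠ ⊥ ∧ Cl b c ∧ (nI c).Coprime n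

/-- (REX) EXISTENCE OF REPRESENTATIVES.

USES NLE, FCL, CLN. PROOF. `Cl` is transitive (`x b = y c`, `x' c = y' d` gives `x x' b = y y' d`; `O` is a domain). `ι` = the quotient of `{c // c ∈ F}` by `Cl` (finite). For a class `q`: if some (every) member `c` of it satisfies `Cl ⊤ c` then `b q = ⊤`, otherwise `b q` is the ideal of (CLN) for a member of `q`; `L q`, `om q`
from (NLE). `i0` = the class of an element `c ∈ F` with `Cl ⊤ c`. `cop`: (CLN), `nI ⊤ = 1`. `surj`: `Cl c d` with `d ∈ F`, `Cl d (b (mk d))`. `inj`: `Cl (b i) (b j)` gives `Cl` of the members, `i = j`. -/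
def Sy_REX : Prop :=
  ∀ A B : ℤ, _root_.Pool.Agent.MUX.CQ A B → absD A B ≠ 3 → absD A B ≠ 4 → ∀ n : ℕ, n ≠ 0 →
    ∃ (ι : Type) (_ : Fintype ι), Nonempty (Reps A B n ι)

/-- (LAF) `LatFacts`.

USES NLE, SAM, FCL. PROOF. `ex`: (NLE). `eq`: the lattices are equal by (SAM). `s = om emb y/(emb x om')`: `z ∈ L' ↔ s z ∈ L ↔ s z ∈ L'` (proof of SAM, `sp x * b = sp y * b'`), so `s = ±1` (`Muu.scale`). `fin`: the ideals `b^i`, `i ∈ ℕ`, are in finitely many classes (FCL), so `Cl (b^i) (b^j)` for some `i < j`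
(`Finite.exists_ne_map_eq_of_infinite`): `sp x * b^i = sp y * b^(j-i) * b^i`, cancel `b^i`: `sp x = sp y * b^h`, `h = j - i > 0`. `x ∈ sp y`, `x = y z`, `z ≠ 0`, cancel `sp y`: `sp z = b^h`. -/
def Sy_LAF : Prop :=
  ∀ A B : ℤ, _root_.Pool.Agent.MUX.CQ A B → absD A B ≠ 3 → absD A B ≠ 4 → Pool.Agent.MUX2.LatFacts A B

/-! ## Algebraicity for all ideals -/

/-- (EI0) facts on characters.

PROOF. (1) `g = ⊤`: `e 1 = e (-1)`, `1 = -1`. (2) the range of `e` is finite (`xf_BDD`). For `z = e x ≠ 0` the powers `z^k = e (x^k)` are in the range, so `z^i = z^j` for some `i < j`, `z^(j-i) = 1`; `r` = the product of these exponents over all nonzero `z` in the range. (3) For `x ∈ b`, `sp x ≤ b`, so `sp x` and `g` are not coprime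
and `e x = 0`: `thetaI b e = 0` (all terms are `0`), so `IvI`, `IcI`, `PhiI` are `0`. -/
def Sy_EI0 : Prop :=
  ∀ A B : ℤ, _root_.Pool.Agent.MUX.CQ A B → ∀ (g : Ideal (OO A B)) (e : OO A B → ℂ), g ≠ ⊥ → _root_.Pool.Agent.MUX.IsEI g e →
    g ≠ ⊤ ∧ (∃ r : ℕ, r ≠ 0 ∧ ∀ x, e x ≠ 0 → e x ^ r = 1) ∧
    ∀ b : Ideal (OO A B), ¬ IsCoprime b g → ∀ x y : OnePoint ℚ, _root_.Pool.Agent.MUX.PhiI b e x y = 0

/-- (TRN) comparison of two ideals of the same class.

PROOF. `sp x * b = sp y * c`. `sp x * (b * cjI c) = sp y * (c * cjI c) = sp (y N(c))`, so `x ∣ y N(c)`, `y N(c) = x t`, and `b * cjI c = sp t` (cancel `sp x`). `sp (N c) * b = b * cjI c * c = sp t * c`. `t` is prime to `g`, because `b` and `cjI c` (`c * cjI c = sp (N c)`) are. Now `xf_PRI` for `sp (N c) * b` and `sp t * c`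
(`conj (emb (N c)) = N c`). `t ≠ 0`. -/
def Sy_TRN : Prop :=
  ∀ A B : ℤ, _root_.Pool.Agent.MUX.CQ A B → ∀ (b c g : Ideal (OO A B)) (e : OO A B → ℂ), b ≠ ⊥ → c ≠ ⊥ → _root_.Pool.Agent.MUX.IsEI g e →
    Cl b c → IsCoprime b g → IsCoprime (_root_.Pool.Agent.MUX.sp ((nI c : ℕ) : OO A B)) g →
    ∃ t : OO A B, t ≠ 0 ∧ e t ≠ 0 ∧ e ((nI c : ℕ) : OO A B) ≠ 0 ∧
      _root_.Pool.Agent.MUX.sp ((nI c : ℕ) : OO A B) * b = _root_.Pool.Agent.MUX.sp t * c ∧
      ∀ x y : OnePoint ℚ, e ((nI c : ℕ) : OO A B) * nI c * _root_.Pool.Agent.MUX.PhiI b e x y =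
        e t * (starRingEnd ℂ) (emb t) * _root_.Pool.Agent.MUX.PhiI c e x y

/-- (ALQ) ALGEBRAICITY FOR ALL IDEALS (input of block H, helper16).

USES NLD, REX, LAF, EI0, TRN, COP, ALM, ALP. PROOF. (NLD): `absD ≠ 3, 4`. (1) `R` from (REX) with `n = 1`. For `IsNL b L om`: `R.surj b`: `sp x * b = sp y * R.b j`, `LatFacts.eq`: `om_j emb x = ± om emb y`, so `om/om_(i0) = ± (om_j/om_(i0)) (emb x/emb y)` is algebraic (ALM; `emb x` is algebraic:
`wC² = A + B wC`). So is the quotient of two such numbers. (2) If `b` is not prime to `g`, the value is `0` (EI0). Otherwise `R` from (REX) with `n = N g` (`≠ 0`, `N g ∈ g`: COP with `t = 1`), `r` from (EI0), `Cl b (R.b j)`, (TRN) with `c = R.b j`: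
`PhiI b e x y/om = (e t conj (emb t)/(e (N c) N(c))) (PhiI c e x y/om_j) (om_j/om)`, all factors are algebraic ((ALP), part (1); values of `e` are roots of unity or `0`). -/
def Sy_ALQ : Prop :=
  ∀ A B : ℤ, _root_.Pool.Agent.MUX.CQ A B → TorX A B → ∀ (b : Ideal (OO A B)) (L : PeriodPair) (om : ℂ),
    IsNL b L om →
    (∀ (b' : Ideal (OO A B)) (L' : PeriodPair) (om' : ℂ), IsNL b' L' om' →
      IsAlgebraic ℚ (om / om')) ∧
    ∀ (g : Ideal (OO A B)) (e : OO A B → ℂ), g ≠ ⊥ → _root_.Pool.Agent.MUX.IsEI g e → ∀ x y : OnePoint ℚ,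
      IsAlgebraic ℚ (_root_.Pool.Agent.MUX.PhiI b e x y / om)

end

end Pool.Agent.MUXY


end

section

/-!
# Module MUXY_ALQ (helper25): algebraicity for all ideals
-/

set_option autoImplicit false

namespace Pool.Agent.MUXY

open _root_.MU3 _root_.Pool.Agent.MU3A _root_.Pool.Agent.MU3B _root_.Pool.Agent.MUXU OnePoint
open _root_.Pool.Agent.MUX (CQ CaseP nI cjI sp IsLI IsNL IsEI PhiI Reps TorX)
open _root_.Pool.Agent.MUXF (qb xf_ALG xf_IDL xf_NIM)

noncomputable section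

namespace RALQ

theorem pne (a b : ℚ) : (Polynomial.X ^ 2 - Polynomial.C b * Polynomial.X - Polynomial.C a :
    Polynomial ℚ) ≠ 0 := by
  intro h
  have h3 := congrArg (fun q => Polynomial.coeff q 2) h
  simp [Polynomial.coeff_C] at h3

theorem alg_wC {A B : ℤ} (hC : _root_.Pool.Agent.MUX.CQ A B) : IsAlgebraic ℚ (wC A B) := by
  have h1 := ((xf_ALG A B (cqF hC)).1 (⟨0, 1⟩ : OO A B) ⟨0, 1⟩).1
  have h2 : wC A B * wC A B = (A : ℂ) + B * wC A B := by
    have e1 : emb (⟨0, 1⟩ : OO A B) = wC A B := by simp [emb]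
    have e2 : emb ((⟨0, 1⟩ : OO A B) * ⟨0, 1⟩) = (A : ℂ) + B * wC A B := by
      simp [emb]
    rw [← e2, h1, e1]
  refine ⟨_, pne (A : ℚ) (B : ℚ), ?_⟩
  simp
  linear_combination h2

theorem alg_emb {A B : ℤ} (hC : _root_.Pool.Agent.MUX.CQ A B) (x : OO A B) : IsAlgebraic ℚ (emb x) := by
  have h1 := alg_wC hC
  unfold emb
  exact (isAlgebraic_intCast _).add ((isAlgebraic_intCast _).mul h1)

theorem emb_ne {A B : ℤ} (hC : _root_.Pool.Agent.MUX.CQ A B) {x : OO A B} (hx : x ≠ 0) : emb x ≠ 0 := fun h =>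
  hx ((((xf_ALG A B (cqF hC)).2.1 x).1).1 h)

theorem alg_root {z : ℂ} {r : ℕ} (hr : r ≠ 0) (h : z ^ r = 1) : IsAlgebraic ℚ z := by
  have h5 : IsAlgebraic ℚ (z ^ r) := by
    rw [h]; exact isAlgebraic_one
  exact h5.of_pow (Nat.pos_of_ne_zero hr)

theorem div_alg {x y : ℂ} (hx : IsAlgebraic ℚ x) (hy : IsAlgebraic ℚ y) :
    IsAlgebraic ℚ (x / y) := by
  rw [div_eq_mul_inv]
  exact hx.mul hy.inv

/-- the quotient of `om` by the one of the base point is algebraic -/
theorem part0 {A B : ℤ} (h7 : Sy_ALM) (hC : _root_.Pool.Agent.MUX.CQ A B) (hT : TorX A B)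
    (LF : Pool.Agent.MUX2.LatFacts A B) {n : ℕ} {ι : Type} (hι : Finite ι) (R : Reps A B n ι)
    (b : Ideal (OO A B)) (L : PeriodPair) (om : ℂ) (hL : IsNL b L om) :
    IsAlgebraic ℚ (om / R.om R.i0) := by
  obtain ⟨j, x, y, hx, hy, hxy⟩ := R.surj b hL.b_ne
  have h1 := (LF.eq b (R.b j) L (R.L j) om (R.om j) x y hL (R.nl j) hx hy hxy).2
  have h2 := (h7 A B hC hT n ι hι R j).2
  have hj : R.om j ≠ 0 := (R.nl j).om_ne
  have hi : R.om R.i0 ≠ 0 := (R.nl R.i0).om_ne
  have ex := emb_ne hC hx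
  have ey := emb_ne hC hy
  have h3 : IsAlgebraic ℚ (om / R.om j) := by
    rcases h1 with h1 | h1
    · have h4 : om / R.om j = emb x / emb y := by
        rw [div_eq_div_iff hj ey]
        linear_combination -h1
      rw [h4]
      exact div_alg (alg_emb hC x) (alg_emb hC y)
    · have h4 : om / R.om j = -(emb x / emb y) := by
        rw [← neg_div, div_eq_div_iff hj ey]
        linear_combination h1
      rw [h4]
      exact (div_alg (alg_emb hC x) (alg_emb hC y)).neg
  have h5 : om / R.om R.i0 = (om / R.om j) * (R.om j / R.om R.i0) := by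
    field_simp
  rw [h5]
  exact h3.mul h2

end RALQ

theorem ty_ALQ (h1 : Sy_NLD) (h2 : Sy_REX) (h3 : Sy_LAF) (h4 : Sy_EI0) (h5 : Sy_TRN)
    (h6 : Sy_COP) (h7 : Sy_ALM) (h8 : Sy_ALP) : Sy_ALQ := by
  intro A B hC hT b L om hL
  obtain ⟨d3, d4⟩ := h1 A B hC b L om hL
  have LF := h3 A B hC d3 d4
  have hom : om ≠ 0 := hL.om_ne
  have P1 : ∀ (b' : Ideal (OO A B)) (L' : PeriodPair) (om' : ℂ), IsNL b' L' om' →
      IsAlgebraic ℚ (om / om') := by
    intro b' L' om' hL'
    obtain ⟨ι, hι, ⟨R⟩⟩ := h2 A B hC d3 d4 1 one_ne_zero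
    have hF : Finite ι := Finite.of_fintype ι
    have e1 := RALQ.part0 h7 hC hT LF hF R b L om hL
    have e2 := RALQ.part0 h7 hC hT LF hF R b' L' om' hL'
    have hi : R.om R.i0 ≠ 0 := (R.nl R.i0).om_ne
    have hom' : om' ≠ 0 := hL'.om_ne
    have h5 : om / om' = (om / R.om R.i0) / (om' / R.om R.i0) := by
      field_simp
    rw [h5]
    exact RALQ.div_alg e1 e2
  refine ⟨P1, ?_⟩
  intro g e hg he x y
  obtain ⟨hgt, ⟨r, hr, her⟩, hz⟩ := h4 A B hC g e hg he
  by_cases hcop : IsCoprime b g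
  · have hn : nI g ≠ 0 := (xf_IDL A B (cqF hC) g hg).1
    obtain ⟨ι, hι, ⟨R⟩⟩ := h2 A B hC d3 d4 (nI g) hn
    have hF : Finite ι := Finite.of_fintype ι
    have hgm : ((nI g : ℕ) : OO A B) ^ 1 ∈ g := by
      rw [pow_one]
      exact ((xf_NIM A B (cqF hC)).2.2.1 g hg).2.2.2
    have hco := h6 A B (nI g) ι R g 1 hgm
    obtain ⟨j, x', y', hx, hy, hxy⟩ := R.surj b hL.b_ne
    obtain ⟨t, ht, het, hen, -, hPhi⟩ := h5 A B hC b (R.b j) g e hL.b_ne (R.nl j).b_ne he
      ⟨x', y', hx, hy, hxy⟩ hcop (hco j)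
    have hPhi' := hPhi x y
    have hN : ((nI (R.b j) : ℕ) : ℂ) ≠ 0 := by
      exact_mod_cast (xf_IDL A B (cqF hC) (R.b j) (R.nl j).b_ne).1
    have hj : R.om j ≠ 0 := (R.nl j).om_ne
    have a1 := (h8 A B hC hT (nI g) ι hF R g e hg hgt he hco r hr her j x y).1
    have a2 : IsAlgebraic ℚ (R.om j / om) := by
      have := (P1 (R.b j) (R.L j) (R.om j) (R.nl j)).inv
      rwa [inv_div] at this
    have a3 : IsAlgebraic ℚ (e t) := RALQ.alg_root hr (her t het)
    have a4 : IsAlgebraic ℚ (e ((nI (R.b j) : ℕ) : OO A B)) := RALQ.alg_root hr (her _ hen)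
    have a5 : IsAlgebraic ℚ ((starRingEnd ℂ) (emb t)) := by
      rw [← ((xf_ALG A B (cqF hC)).2.1 t).2.2.2.2.2.1]
      exact RALQ.alg_emb hC _
    have a6 : IsAlgebraic ℚ ((nI (R.b j) : ℕ) : ℂ) := isAlgebraic_natCast _
    have key : _root_.Pool.Agent.MUX.PhiI b e x y / om = ((e t * (starRingEnd ℂ) (emb t)) /
        (e ((nI (R.b j) : ℕ) : OO A B) * ((nI (R.b j) : ℕ) : ℂ))) *
        ((_root_.Pool.Agent.MUX.PhiI (R.b j) e x y / R.om j) * (R.om j / om)) := by
      have hne : e ((nI (R.b j) : ℕ) : OO A B) * ((nI (R.b j) : ℕ) : ℂ) ≠ 0 :=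
        mul_ne_zero hen hN
      have e1 : (_root_.Pool.Agent.MUX.PhiI (R.b j) e x y / R.om j) * (R.om j / om) = _root_.Pool.Agent.MUX.PhiI (R.b j) e x y / om := by
        field_simp
      rw [e1, div_mul_div_comm, div_eq_div_iff hom (mul_ne_zero hne hom)]
      linear_combination om * hPhi'
    rw [key]
    exact (RALQ.div_alg (a3.mul a5) (a4.mul a6)).mul (a1.mul a2)
  · rw [hz b hcop x y, zero_div]
    exact isAlgebraic_zero

end

end Pool.Agent.MUXY


end

section

/-!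
# MUX: module REX (existence of representatives of the ideal classes with normalised lattices)
-/

set_option autoImplicit false

namespace Pool.Agent.MUXY

open _root_.MU3 _root_.Pool.Agent.MU3A _root_.Pool.Agent.MU3B _root_.Pool.Agent.MUXU OnePoint
open _root_.Pool.Agent.MUX (CQ CaseP nI cjI sp IsLI IsNL IsEI PhiI Reps TorX)
open _root_.Pool.Agent.MUXF (qb)

noncomputable section

namespace RREX

theorem trans {A B : ℤ} [IsDomain (OO A B)] {b c d : Ideal (OO A B)} (h : Cl b c) (h' : Cl c d) :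
    Cl b d := by
  obtain ⟨x, y, hx, hy, e⟩ := h
  obtain ⟨x', y', hx', hy', e'⟩ := h'
  refine ⟨x' * x, y * y', mul_ne_zero hx' hx, mul_ne_zero hy hy', ?_⟩
  calc _root_.Pool.Agent.MUX.sp (x' * x) * b = _root_.Pool.Agent.MUX.sp x' * (_root_.Pool.Agent.MUX.sp x * b) := by
        rw [← mul_assoc, Ideal.span_singleton_mul_span_singleton]
    _ = _root_.Pool.Agent.MUX.sp x' * (_root_.Pool.Agent.MUX.sp y * c) := by rw [e]
    _ = _root_.Pool.Agent.MUX.sp y * (_root_.Pool.Agent.MUX.sp x' * c) := by rw [← mul_assoc, ← mul_assoc, mul_comm (_root_.Pool.Agent.MUX.sp x') (_root_.Pool.Agent.MUX.sp y)]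
    _ = _root_.Pool.Agent.MUX.sp y * (_root_.Pool.Agent.MUX.sp y' * d) := by rw [e']
    _ = _root_.Pool.Agent.MUX.sp (y * y') * d := by rw [← mul_assoc, Ideal.span_singleton_mul_span_singleton]

theorem nI_top {A B : ℤ} : _root_.Pool.Agent.MUX.nI (⊤ : Ideal (OO A B)) = 1 := by
  have hs : Subsingleton (OO A B ⧸ (⊤ : Ideal (OO A B))) := Ideal.Quotient.subsingleton_iff.2 rfl
  show Nat.card (OO A B ⧸ (⊤ : Ideal (OO A B))) = 1
  exact Nat.card_eq_one_iff_unique.2 ⟨hs, ⟨0⟩⟩

end RREX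

open Classical in
theorem ty_REX (h1 : Sy_NLE) (h2 : Sy_FCL) (h3 : Sy_CLN) : Sy_REX := by
  intro A B hC h3' h4' n hn
  obtain ⟨-, -, -, -, hdom⟩ := Pool.Agent.MUXF.xf_ALG A B (cqF hC)
  have := hdom
  obtain ⟨F, hF, hFs⟩ := h2 A B hC
  let s : Setoid {c : Ideal (OO A B) // c ∈ F} :=
    { r := fun c d => Cl c.1 d.1
      iseqv := ⟨fun c => Cl.refl c.1, fun h => h.symm, fun h h' => RREX.trans h h'⟩ }
  have htop : (⊤ : Ideal (OO A B)) ≠ ⊥ := top_ne_bot
  -- the ideal of a class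
  have key : ∀ q : Quotient s, ∃ (b : Ideal (OO A B)) (L : PeriodPair) (om : ℂ),
      IsNL b L om ∧ (_root_.Pool.Agent.MUX.nI b).Coprime n ∧ Cl q.out.1 b ∧ (Cl ⊤ q.out.1 → b = ⊤) := by
    intro q
    by_cases hq : Cl ⊤ q.out.1
    · obtain ⟨L, om, hL⟩ := h1 A B hC h3' h4' ⊤ htop
      refine ⟨⊤, L, om, hL, ?_, hq.symm, fun _ => rfl⟩
      rw [RREX.nI_top]
      exact Nat.coprime_one_left n
    · obtain ⟨c, hc, hcl, hcop⟩ := h3 A B hC q.out.1 (hF _ q.out.2) n hn
      obtain ⟨L, om, hL⟩ := h1 A B hC h3' h4' c hc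
      exact ⟨c, L, om, hL, hcop, hcl, fun h => absurd h hq⟩
  choose b L om hnl hcop hcl htp using key
  obtain ⟨c0, hc0, hcl0⟩ := hFs ⊤ htop
  have hout : ∀ c : {c : Ideal (OO A B) // c ∈ F}, Cl (Quotient.mk s c).out.1 c.1 :=
    fun c => Quotient.exact (Quotient.out_eq (Quotient.mk s c))
  refine ⟨Quotient s, Fintype.ofFinite _, ⟨⟨b, L, om, Quotient.mk s ⟨c0, hc0⟩, hnl, hcop, ?_, ?_, ?_⟩⟩⟩
  · exact htp _ (RREX.trans hcl0 (hout ⟨c0, hc0⟩).symm)
  · intro c hc
    obtain ⟨d, hd, hcd⟩ := hFs c hc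
    have h := RREX.trans hcd (RREX.trans (hout ⟨d, hd⟩).symm (hcl (Quotient.mk s ⟨d, hd⟩)))
    obtain ⟨x, y, hx, hy, e⟩ := h
    exact ⟨Quotient.mk s ⟨d, hd⟩, x, y, hx, hy, e⟩
  · intro i j x y hx hy e
    have h : Cl i.out.1 j.out.1 :=
      RREX.trans (hcl i) (RREX.trans ⟨x, y, hx, hy, e⟩ (hcl j).symm)
    have h' : Quotient.mk s i.out = Quotient.mk s j.out := Quotient.sound h
    rwa [Quotient.out_eq, Quotient.out_eq] at h'

end

end Pool.Agent.MUXY


end

section

/-!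
# MUX, module NLE (helper44): existence of normalised lattices
-/

set_option autoImplicit false

namespace Pool.Agent.MUXY

open _root_.MU3 _root_.Pool.Agent.MU3A _root_.Pool.Agent.MU3B _root_.Pool.Agent.MUXU OnePoint
open _root_.Pool.Agent.MUX (CQ CaseP nI cjI sp IsLI IsNL IsEI PhiI Reps TorX)

theorem ty_NLE (h1 : Sy_NZL) : Sy_NLE := by
  intro A B hC h3 h4 b hb
  obtain ⟨L₁, hL₁⟩ := Pool.Agent.MUXF.xf_LAT1 A B (cqF hC) b 1 hb one_ne_zero
  obtain ⟨hg2, hg3⟩ := h1 A B hC h3 h4 b L₁ 1 ⟨hL₁.b_ne, hL₁.om_ne, hL₁.mem⟩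
  obtain ⟨u, hu⟩ := IsAlgClosed.exists_pow_nat_eq (-18 * L₁.g₃ / L₁.g₂) (n := 2) (by norm_num)
  have hu0 : u ≠ 0 := by
    intro h0
    rw [h0, zero_pow two_ne_zero] at hu
    have h5 : -18 * L₁.g₃ / L₁.g₂ ≠ 0 :=
      div_ne_zero (mul_ne_zero (by norm_num) hg3) hg2
    exact h5 hu.symm
  obtain ⟨L, hL⟩ := Pool.Agent.MUXF.xf_LAT1 A B (cqF hC) b u hb hu0
  have key : ∀ z : ℂ, z ∈ L₁.lattice ↔ u * z ∈ L.lattice := by
    intro z
    rw [hL₁.mem, hL.mem]
    constructor
    · rintro ⟨x, hx, rfl⟩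
      exact ⟨x, hx, by ring⟩
    · rintro ⟨x, hx, h⟩
      exact ⟨x, hx, by rw [one_mul]; exact mul_left_cancel₀ hu0 h⟩
  obtain ⟨-, -, k3, k4⟩ := ta_SCP L₁ L u hu0 key
  refine ⟨L, u, ⟨hL.b_ne, hL.om_ne, hL.mem⟩, ?_⟩
  rw [k3, k4]
  have h6 : L₁.g₂ * u ^ 2 = -18 * L₁.g₃ := by
    rw [hu]
    field_simp
  have h7 : u ^ 6 = u ^ 4 * u ^ 2 := by ring
  have h8 : u ^ 4 ≠ 0 := pow_ne_zero 4 hu0
  have h9 : u ^ 2 ≠ 0 := pow_ne_zero 2 hu0
  rw [h7]
  rw [div_eq_iff h8]
  have h10 : -18 * (L₁.g₃ / (u ^ 4 * u ^ 2)) * u ^ 4 = (-18 * L₁.g₃) / u ^ 2 := by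
    field_simp
  rw [h10, eq_div_iff h9]
  exact h6

end Pool.Agent.MUXY


end

section

/-!
# MUX, module FCL (helper4): finitely many ideal classes
-/

set_option autoImplicit false

namespace Pool.Agent.MUXY

open _root_.MU3 _root_.Pool.Agent.MU3A _root_.Pool.Agent.MU3B _root_.Pool.Agent.MUXU OnePoint
open _root_.Pool.Agent.MUX (CQ CaseP nI cjI sp IsLI IsNL IsEI PhiI Reps TorX)
open _root_.Pool.Agent.MUXF (qb)

noncomputable section

namespace RFCL

variable {A B : ℤ}

lemma natCast_ne {n : ℕ} (hn : n ≠ 0) : ((n : ℕ) : OO A B) ≠ 0 := by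
  intro h
  have h1 := congrArg QuadraticAlgebra.re h
  simp only [QuadraticAlgebra.re_natCast, QuadraticAlgebra.re_zero] at h1
  exact hn (by exact_mod_cast h1)

/-- the ideals which contain a nonzero element are finitely many -/
lemma finite_ge (I : Ideal (OO A B)) (hI : Finite (OO A B ⧸ I)) :
    {d : Ideal (OO A B) | I ≤ d}.Finite := by
  have h1 : Finite (Ideal (OO A B ⧸ I)) :=
    Finite.of_injective (fun J : Ideal (OO A B ⧸ I) => (J : Set (OO A B ⧸ I)))
      SetLike.coe_injective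
  refine (Set.finite_range (Ideal.comap (Ideal.Quotient.mk I))).subset fun d hd => ?_
  exact ⟨d.map (Ideal.Quotient.mk I), Ideal.comap_map_mk hd⟩

lemma finite_le (hc : _root_.Pool.Agent.MUX.CQ A B) (C : ℕ) :
    {d : Ideal (OO A B) | d ≠ ⊥ ∧ nI d ≤ C}.Finite := by
  obtain ⟨-, -, -, hfin, -⟩ := Pool.Agent.MUXF.xf_ALG A B (cqF hc)
  obtain ⟨-, -, hmem, -⟩ := Pool.Agent.MUXF.xf_NIM A B (cqF hc)
  have hM : ((C.factorial : ℕ) : OO A B) ≠ 0 := natCast_ne (Nat.factorial_ne_zero C)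
  have hI : (sp ((C.factorial : ℕ) : OO A B) : Ideal (OO A B)) ≠ ⊥ := by
    rw [Ne, Ideal.span_singleton_eq_bot]
    exact hM
  refine (finite_ge _ (hfin _ hI)).subset ?_
  rintro d ⟨hd, hdC⟩
  have h1 : ((nI d : ℕ) : OO A B) ∈ d := (hmem d hd).2.2.2
  have h0 : nI d ≠ 0 := (Pool.Agent.MUXF.xf_IDL A B (cqF hc) d hd).1
  obtain ⟨k, hk⟩ := Nat.dvd_factorial (Nat.pos_of_ne_zero h0) hdC
  show sp ((C.factorial : ℕ) : OO A B) ≤ d
  rw [Ideal.span_singleton_le_iff_mem, hk, Nat.cast_mul]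
  exact d.mul_mem_right _ h1

end RFCL

open _root_.Pool.Agent.MUXY.RFCL in
theorem ty_FCL (h1 : Sy_SML) (h2 : Sy_DVI) : Sy_FCL := by
  classical
  intro A B hc
  obtain ⟨C, hC⟩ : ∃ C : ℕ, (C : ℤ) = 1 + |A| + |B| :=
    ⟨(1 + |A| + |B|).toNat, Int.toNat_of_nonneg (by positivity)⟩
  have hfin := finite_le hc C
  refine ⟨hfin.toFinset, fun c hcF => ((Set.Finite.mem_toFinset _).1 hcF).1, fun b hb => ?_⟩
  obtain ⟨x, hxb, hx0, hxn⟩ := h1 A B hc b hb
  obtain ⟨-, -, hnim, -⟩ := Pool.Agent.MUXF.xf_NIM A B (cqF hc)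
  obtain ⟨hcb, hcc, hcb0, -⟩ := hnim b hb
  have hidb := Pool.Agent.MUXF.xf_IDL A B (cqF hc) b hb
  have hcb' : nI (cjI b) = nI b := hcb
  have hcc' : cjI (cjI b) = b := hcc
  obtain ⟨c, hc0, hce, hcn⟩ := h2 A B hc (cjI b) x hcb0 (by rw [hcc']; exact hxb) hx0
  rw [hcb'] at hce
  rw [hcc'] at hcn
  have hq := ((Pool.Agent.MUXF.xf_QB A B (cqF hc) b hb).1 x hxb).1
  have hn0 : nI b ≠ 0 := hidb.1
  have hidb2 : b * cjI b = sp ((nI b : ℕ) : OO A B) := hidb.2
  have hidc := Pool.Agent.MUXF.xf_IDL A B (cqF hc) c hc0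
  have hcn0 : nI c ≠ 0 := hidc.1
  have hidc2 : c * cjI c = sp ((nI c : ℕ) : OO A B) := hidc.2
  obtain ⟨hdn, -, hd0, -⟩ := hnim c hc0
  have hdn' : nI (cjI c) = nI c := hdn
  have hle : nI c ≤ C := by
    have e1 : (nI b : ℤ) * (nI c : ℤ) ≤ (C : ℤ) * nI b := by
      rw [hcn, hC]
      have e2 : (nI b : ℤ) * qb b x = nm x := hq.symm
      rw [e2]
      exact hxn
    have e3 : (0 : ℤ) < nI b := by
      have := Nat.pos_of_ne_zero hn0
      exact_mod_cast this
    have e4 : (nI c : ℤ) ≤ C := by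
      rw [mul_comm] at e1
      exact le_of_mul_le_mul_right e1 e3
    exact_mod_cast e4
  refine ⟨cjI c, ?_, ((nI b : ℕ) : OO A B) * ((nI c : ℕ) : OO A B), x * ((nI b : ℕ) : OO A B),
    ?_, ?_, ?_⟩
  · rw [Set.Finite.mem_toFinset]
    exact ⟨hd0, by rw [hdn']; exact hle⟩
  · obtain ⟨-, -, -, -, hdom⟩ := Pool.Agent.MUXF.xf_ALG A B (cqF hc)
    exact mul_ne_zero (natCast_ne hn0) (natCast_ne hcn0)
  · obtain ⟨-, -, -, -, hdom⟩ := Pool.Agent.MUXF.xf_ALG A B (cqF hc)
    exact mul_ne_zero hx0 (natCast_ne hn0)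
  · show sp (((nI b : ℕ) : OO A B) * ((nI c : ℕ) : OO A B)) * b =
      sp (x * ((nI b : ℕ) : OO A B)) * cjI c
    have e0 : ∀ u v : OO A B, sp (u * v) = sp u * sp v := fun u v =>
      (Ideal.span_singleton_mul_span_singleton u v).symm
    rw [e0, e0, ← hidc2]
    have e1 : sp ((nI b : ℕ) : OO A B) * (c * cjI c) * b =
        (sp ((nI b : ℕ) : OO A B) * c) * cjI c * b := by ring
    rw [e1, hce, ← hidb2]
    ring

end

end Pool.Agent.MUXY


end

section

/-!
# MUX, statement (DVI): the ideal `y b / N b` (helper22)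
-/

set_option autoImplicit false

namespace Pool.Agent.MUXY

open _root_.MU3 _root_.Pool.Agent.MU3A _root_.Pool.Agent.MU3B _root_.Pool.Agent.MUXU OnePoint
open _root_.Pool.Agent.MUX (CQ CaseP nI cjI sp IsLI IsNL IsEI PhiI Reps TorX)
open _root_.Pool.Agent.MUXF (qb)

noncomputable section

namespace RDVI

/-- the quotient of an ideal `J` contained in `sp m` by `m` -/
def quo {A B : ℤ} (m : OO A B) (J : Ideal (OO A B)) : Ideal (OO A B) where
  carrier := {z | m * z ∈ J}
  add_mem' := by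
    intro a b ha hb
    have ha' : m * a ∈ J := ha
    have hb' : m * b ∈ J := hb
    change m * (a + b) ∈ J
    rw [mul_add]
    exact J.add_mem ha' hb'
  zero_mem' := by
    change m * 0 ∈ J
    rw [mul_zero]
    exact J.zero_mem
  smul_mem' := by
    intro c x hx
    have hx' : m * x ∈ J := hx
    change m * (c * x) ∈ J
    have e : m * (c * x) = c * (m * x) := by ring
    rw [e]
    exact J.mul_mem_left c hx'

theorem mem_quo {A B : ℤ} {m : OO A B} {J : Ideal (OO A B)} {z : OO A B} :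
    z ∈ quo m J ↔ m * z ∈ J := Iff.rfl

theorem sp_quo {A B : ℤ} (m : OO A B) (J : Ideal (OO A B)) (h : J ≤ sp m) :
    sp m * quo m J = J := by
  apply le_antisymm
  · rw [Ideal.span_singleton_mul_le_iff]
    intro z hz
    exact hz
  · intro x hx
    obtain ⟨z, hz⟩ := Ideal.mem_span_singleton'.1 (h hx)
    rw [Ideal.mem_span_singleton_mul]
    refine ⟨z, ?_, by rw [mul_comm]; exact hz⟩
    rw [mem_quo, mul_comm, hz]
    exact hx

end RDVI

open _root_.Pool.Agent.MUXY.RDVI in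
/-- (DVI) the ideal `y b / N b` -/
theorem ty_DVI : Sy_DVI := by
  intro A B hc b y hb hy hy0
  have hcF := cqF hc
  obtain ⟨halg, halg2, halg3, hfin, hdom⟩ := MUXF.xf_ALG A B hcF
  obtain ⟨hn0, hidl⟩ := MUXF.xf_IDL A B hcF b hb
  obtain ⟨hm1, hm2, hm3, hm4⟩ := MUXF.xf_NIM A B hcF
  obtain ⟨hcn, hcc, hcb, hnb⟩ := hm3 b hb
  obtain ⟨hq, -, -⟩ := MUXF.xf_QB A B hcF (MUXF.cjI b) hcb
  obtain ⟨hqy, hq0⟩ := hq y hy
  have hle : sp y * b ≤ sp ((nI b : ℕ) : OO A B) := by
    have h1 : sp y ≤ cjI b := by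
      rw [Ideal.span_singleton_le_iff_mem]
      exact hy
    have h2 : sp y * b ≤ cjI b * b := Ideal.mul_mono_left h1
    rw [mul_comm (cjI b) b] at h2
    exact h2.trans_eq hidl
  have hsy : sp y ≠ ⊥ := by
    intro h
    exact hy0 (Ideal.span_singleton_eq_bot.1 h)
  have hprod := hm1 (sp y) b hsy hb
  have he := sp_quo ((nI b : ℕ) : OO A B) (sp y * b) hle
  have hmN : ((nI b : ℕ) : OO A B) ≠ 0 := by
    intro h
    have h1 := (halg3 ((nI b : ℕ) : ℤ)).2
    have h2 : (((nI b : ℕ) : ℤ) : OO A B) = 0 := by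
      rw [Int.cast_natCast]
      exact h
    rw [h2] at h1
    have h3 : nm (0 : OO A B) = 0 := (halg2 0).2.1.2 rfl
    rw [h3] at h1
    have h4 : ((nI b : ℕ) : ℤ) = 0 := by
      have := h1.symm
      exact pow_eq_zero_iff (two_ne_zero) |>.1 this
    exact hn0 (by exact_mod_cast h4)
  have hsN : sp ((nI b : ℕ) : OO A B) ≠ ⊥ := by
    intro h
    exact hmN (Ideal.span_singleton_eq_bot.1 h)
  have hcne : quo ((nI b : ℕ) : OO A B) (sp y * b) ≠ ⊥ := by
    intro h
    rw [h, Ideal.mul_bot] at he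
    exact hprod.2 he.symm
  refine ⟨quo ((nI b : ℕ) : OO A B) (sp y * b), hcne, he, ?_⟩
  -- the norms
  have e1 := (hm1 (sp ((nI b : ℕ) : OO A B)) (quo ((nI b : ℕ) : OO A B) (sp y * b)) hsN hcne).1
  have e2 : nI (sp ((nI b : ℕ) : OO A B)) = (nm ((nI b : ℕ) : OO A B)).natAbs := by
    rcases hm2 ((nI b : ℕ) : OO A B) with h | h
    · exact h
    · exact absurd h hmN
  have e3 : nI (sp y) = (nm y).natAbs := by
    rcases hm2 y with h | h
    · exact h
    · exact absurd h hy0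
  have e4 : nm ((nI b : ℕ) : OO A B) = ((nI b : ℕ) : ℤ) ^ 2 := by
    have h1 := (halg3 ((nI b : ℕ) : ℤ)).2
    rw [Int.cast_natCast] at h1
    exact h1
  have e5 : nI (sp y * b) = nI (sp y) * nI b := hprod.1
  have e6 : nI (sp ((nI b : ℕ) : OO A B) * quo ((nI b : ℕ) : OO A B) (sp y * b)) = nI (sp y * b) := by
    rw [he]
  have e7 : (nI (sp ((nI b : ℕ) : OO A B)) : ℤ) = (nI b : ℤ) ^ 2 := by
    rw [e2, e4, Int.natCast_natAbs, abs_of_nonneg (by positivity)]
  have e8 : (nI (sp y) : ℤ) = nm y := by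
    rw [e3, Int.natCast_natAbs, abs_of_nonneg (halg2 y).2.2.1]
  have e9 : nm y = (nI b : ℤ) * qb (cjI b) y := by
    have : nm y = (MUXF.nI (MUXF.cjI b) : ℤ) * qb (MUXF.cjI b) y := hqy
    rw [hcn] at this
    exact this
  have hnz : (nI b : ℤ) ≠ 0 := by exact_mod_cast hn0
  have e10 : (nI b : ℤ) ^ 2 * (nI (quo ((nI b : ℕ) : OO A B) (sp y * b)) : ℤ)
      = (nI b : ℤ) ^ 2 * qb (cjI b) y := by
    have h1 : (nI (sp ((nI b : ℕ) : OO A B)) : ℤ) *
        (nI (quo ((nI b : ℕ) : OO A B) (sp y * b)) : ℤ) = (nI (sp y) : ℤ) * (nI b : ℤ) := by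
      have h2 : nI (sp ((nI b : ℕ) : OO A B)) * nI (quo ((nI b : ℕ) : OO A B) (sp y * b))
          = nI (sp y) * nI b := by
        rw [← e5, ← e6]
        exact e1.symm
      exact_mod_cast h2
    rw [e7, e8, e9] at h1
    rw [h1]
    ring
  exact mul_left_cancel₀ (pow_ne_zero 2 hnz) e10

end

end Pool.Agent.MUXY


end

section

/-!
# MUX, block YR, module CPD (helper18)
-/

set_option autoImplicit false

namespace Pool.Agent.MUXY

open _root_.MU3 _root_.Pool.Agent.MUX

/-- (CPD) if `3` or `2` splits then `absD ≠ 3, 4`. -/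
theorem ty_CPD : Sy_CPD := by
  intro p A B h
  rcases h.split with ⟨_, h3⟩ | ⟨_, h8⟩
  · constructor <;> intro hd <;> unfold absD at hd <;> omega
  · constructor <;> intro hd <;> unfold absD at hd <;> omega

end Pool.Agent.MUXY


end

section

/-!
# MUX, module CLN: every class contains an ideal of norm prime to `n`
-/

set_option autoImplicit false

namespace Pool.Agent.MUXY

open _root_.MU3 _root_.Pool.Agent.MU3A _root_.Pool.Agent.MU3B _root_.Pool.Agent.MUXU OnePoint
open _root_.Pool.Agent.MUX (CQ CaseP nI cjI sp IsLI IsNL IsEI PhiI Reps TorX)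
open _root_.Pool.Agent.MUXF (qb)

/-- every class contains an ideal of norm prime to `n` -/
theorem ty_CLN (h1 : Sy_DVI) (h2 : Sy_QCO) : Sy_CLN := by
  intro A B hc b hb n hn
  obtain ⟨-, -, n3, -⟩ := Pool.Agent.MUXF.xf_NIM A B (cqF hc)
  have hcj : cjI b ≠ ⊥ := (n3 b hb).2.2.1
  obtain ⟨hnb, -⟩ := Pool.Agent.MUXF.xf_IDL A B (cqF hc) b hb
  obtain ⟨y, hy, hy0, hcop⟩ := h2 A B hc (cjI b) hcj n hn
  obtain ⟨c, hc0, hcb, hnc⟩ := h1 A B hc b y hb hy hy0
  refine ⟨c, hc0, ⟨y, ((nI b : ℕ) : OO A B), hy0, ?_, hcb.symm⟩, ?_⟩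
  · intro h0
    obtain ⟨-, a2, a3, -, -⟩ := Pool.Agent.MUXF.xf_ALG A B (cqF hc)
    have e1 := (a3 (nI b : ℤ)).1
    have e2 : (((nI b : ℕ) : ℤ) : OO A B) = ((nI b : ℕ) : OO A B) := Int.cast_natCast _
    rw [e2, h0, (a2 0).1.2 rfl] at e1
    exact hnb (by exact_mod_cast e1.symm)
  · rw [← Nat.isCoprime_iff_coprime, hnc]
    exact hcop

end Pool.Agent.MUXY


end
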