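import Mathlib
import Pool.Agent.MVF.C045
import Pool.Agent.MVF.C051
import Pool.Agent.MVF.C057
import Pool.Agent.MVF.C076

/-! Parts: MUX.Y_LAF, MUX.Y_NZL, MUX.Y_NLD, MUX.R3_E13, MUX.R3_NRM, MUX.R2_GR2 -/

section

/-!
# MUX: the facts on lattices and classes (LAF) (helper46)
-/

set_option autoImplicit false

namespace Pool.Agent.MUXY

open _root_.MU3 _root_.Pool.Agent.MU3A _root_.Pool.Agent.MU3B _root_.Pool.Agent.MUXU OnePoint
open _root_.Pool.Agent.MUX (CQ CaseP nI cjI sp IsLI IsNL IsEI PhiI Reps TorX)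
open _root_.Pool.Agent.MUXF (qb)

noncomputable section

namespace RLAF

/-- the scaling between the lattices of two ideals of the same class -/
theorem key {A B : ℤ} (hc : _root_.Pool.Agent.MUX.CQ A B) {b b' : Ideal (OO A B)} {L L' : PeriodPair} {om om' : ℂ}
    {x y : OO A B} (hL : IsNL b L om) (hL' : IsNL b' L' om') (hx : x ≠ 0) (hy : y ≠ 0)
    (hxy : sp x * b = sp y * b') (z : ℂ) :
    z ∈ L'.lattice ↔ om * emb y / (emb x * om') * z ∈ L.lattice := by
  obtain ⟨a1, a2, -, -, -⟩ := Pool.Agent.MUXF.xf_ALG A B (cqF hc)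
  have emul : ∀ u v : OO A B, emb (u * v) = emb u * emb v := fun u v => (a1 u v).1
  have ex0 : emb x ≠ 0 := fun h => hx ((a2 x).1.1 h)
  have ey0 : emb y ≠ 0 := fun h => hy ((a2 y).1.1 h)
  have om0 := hL.om_ne
  have om0' := hL'.om_ne
  set s : ℂ := om * emb y / (emb x * om') with hs
  have hs0 : s ≠ 0 := div_ne_zero (mul_ne_zero om0 ey0) (mul_ne_zero ex0 om0')
  rw [hL'.mem, hL.mem]
  constructor
  · rintro ⟨t', ht', rfl⟩
    have h2 : y * t' ∈ sp x * b := by
      rw [hxy]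
      exact Ideal.mul_mem_mul (Ideal.mem_span_singleton_self y) ht'
    obtain ⟨t, ht, h3⟩ := Ideal.mem_span_singleton_mul.1 h2
    refine ⟨t, ht, ?_⟩
    have h4 : emb x * emb t = emb y * emb t' := by rw [← emul, ← emul, h3]
    rw [hs]
    field_simp
    linear_combination -h4
  · rintro ⟨t, ht, h2⟩
    have h3 : x * t ∈ sp y * b' := by
      rw [← hxy]
      exact Ideal.mul_mem_mul (Ideal.mem_span_singleton_self x) ht
    obtain ⟨t', ht', h4⟩ := Ideal.mem_span_singleton_mul.1 h3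
    refine ⟨t', ht', ?_⟩
    have h5 : emb y * emb t' = emb x * emb t := by rw [← emul, ← emul, h4]
    have h6 : om * emb y * z = om * (emb x * om') * emb t := by
      have h7 : s * (emb x * om') = om * emb y := by
        rw [hs]
        field_simp
      calc om * emb y * z = s * (emb x * om') * z := by rw [h7]
        _ = s * z * (emb x * om') := by ring
        _ = om * emb t * (emb x * om') := by rw [h2]
        _ = om * (emb x * om') * emb t := by ring
    have h8 : (om * emb y) * (z - om' * emb t') = 0 := by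
      linear_combination h6 - om * om' * h5
    rcases mul_eq_zero.1 h8 with h9 | h9
    · exact absurd h9 (mul_ne_zero om0 ey0)
    · exact sub_eq_zero.1 h9

/-- powers of an ideal are not zero -/
theorem pow_ne {A B : ℤ} (hc : _root_.Pool.Agent.MUX.CQ A B) {b : Ideal (OO A B)} (hb : b ≠ ⊥) (i : ℕ) :
    b ^ i ≠ ⊥ := by
  obtain ⟨-, -, -, -, hdom⟩ := Pool.Agent.MUXF.xf_ALG A B (cqF hc)
  obtain ⟨n1, -, -, -⟩ := Pool.Agent.MUXF.xf_NIM A B (cqF hc)
  induction i with
  | zero =>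
    rw [pow_zero, Ideal.one_eq_top]
    exact top_ne_bot
  | succ i ih =>
    rw [pow_succ]
    exact (n1 _ _ ih hb).2

/-- an identity in commutative semirings -/
theorem gen {S : Type} [CommSemiring S] {a p F X Y X' Y' : S} (h4 : X * a = Y * F)
    (h5 : X' * (p * a) = Y' * F) : a * (Y' * X) = a * ((Y * X') * p) := by
  calc a * (Y' * X) = Y' * (X * a) := by ring
    _ = Y' * (Y * F) := by rw [h4]
    _ = Y * (Y' * F) := by ring
    _ = Y * (X' * (p * a)) := by rw [h5]
    _ = a * ((Y * X') * p) := by ring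

/-- membership -/
theorem mem_left {R : Type} [CommRing R] {x y : R} {c : Ideal R}
    (h : Ideal.span {x} = Ideal.span {y} * c) : x ∈ Ideal.span {y} := by
  have h1 : Ideal.span {y} * c ≤ Ideal.span {y} := Ideal.mul_le_left
  have h2 : x ∈ Ideal.span {y} * c := by
    rw [← h]
    exact Ideal.mem_span_singleton_self x
  exact h1 h2

/-- cancellation -/
theorem cancel {A B : ℤ} (hc : _root_.Pool.Agent.MUX.CQ A B) {b c c' : Ideal (OO A B)} (hb : b ≠ ⊥)
    (h : b * c = b * c') : c = c' := by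
  obtain ⟨-, -, -, n4⟩ := Pool.Agent.MUXF.xf_NIM A B (cqF hc)
  exact le_antisymm ((n4 b c c' hb).1 h.le) ((n4 b c' c hb).1 h.ge)

end RLAF

/-- LAF. -/
theorem ty_LAF (h1 : Sy_NLE) (h2 : Sy_SAM) (h3 : Sy_FCL) : Sy_LAF := by
  intro A B hc hD3 hD4
  obtain ⟨-, a2, -, -, hdom⟩ := Pool.Agent.MUXF.xf_ALG A B (cqF hc)
  refine ⟨h1 A B hc hD3 hD4, ?_, ?_⟩
  · intro b b' L L' om om' x y hL hL' hx hy hxy
    have hLL : ∀ z : ℂ, z ∈ L.lattice ↔ z ∈ L'.lattice :=
      h2 A B hc b b' L L' om om' x y hL hL' hx hy hxy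
    refine ⟨SetLike.ext hLL, ?_⟩
    have ex0 : emb x ≠ 0 := fun h => hx ((a2 x).1.1 h)
    have ey0 : emb y ≠ 0 := fun h => hy ((a2 y).1.1 h)
    have om0 := hL.om_ne
    have om0' := hL'.om_ne
    have hs0 : om * emb y / (emb x * om') ≠ 0 :=
      div_ne_zero (mul_ne_zero om0 ey0) (mul_ne_zero ex0 om0')
    have hk : ∀ z : ℂ, z ∈ L'.lattice ↔ om * emb y / (emb x * om') * z ∈ L'.lattice := by
      intro z
      rw [RLAF.key hc hL hL' hx hy hxy z, hLL]
    rcases Muu.scale L' hL'.nrm _ hs0 hk with h | h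
    · left
      rw [div_eq_iff (mul_ne_zero ex0 om0')] at h
      linear_combination -h
    · right
      rw [div_eq_iff (mul_ne_zero ex0 om0')] at h
      linear_combination h
  · intro b hb
    obtain ⟨F, -, hF⟩ := h3 A B hc
    have hch : ∀ i : ℕ, ∃ c : F, Cl (b ^ i) (c : Ideal (OO A B)) := by
      intro i
      obtain ⟨c, hcF, hcl⟩ := hF (b ^ i) (RLAF.pow_ne hc hb i)
      exact ⟨⟨c, hcF⟩, hcl⟩
    choose f hf using hch
    obtain ⟨i, j, hij, hfij⟩ := Finite.exists_ne_map_eq_of_infinite f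
    have main : ∀ i j : ℕ, i < j → f i = f j →
        ∃ (h : ℕ) (x : OO A B), 0 < h ∧ x ≠ 0 ∧ b ^ h = Ideal.span {x} := by
      intro i j hlt he
      obtain ⟨x, y, hx, hy, h4⟩ := hf i
      obtain ⟨x', y', hx', hy', h5⟩ := hf j
      rw [← he] at h5
      have hX : y' * x ≠ 0 := mul_ne_zero hy' hx
      have hY : y * x' ≠ 0 := mul_ne_zero hy hx'
      have h6 : b ^ i * sp (y' * x) = b ^ i * (sp (y * x') * b ^ (j - i)) := by
        have h7 : b ^ j = b ^ (j - i) * b ^ i := by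
          rw [← pow_add, Nat.sub_add_cancel hlt.le]
        have e1 : sp (y' * x) = sp y' * sp x := (Ideal.span_singleton_mul_span_singleton _ _).symm
        have e2 : sp (y * x') = sp y * sp x' := (Ideal.span_singleton_mul_span_singleton _ _).symm
        rw [h7] at h5
        rw [e1, e2]
        exact RLAF.gen h4 h5
      have h8 := RLAF.cancel hc (RLAF.pow_ne hc hb i) h6
      have h9 : y' * x ∈ sp (y * x') := RLAF.mem_left h8
      obtain ⟨z, hz⟩ := Ideal.mem_span_singleton.1 h9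
      have hz0 : z ≠ 0 := by
        rintro rfl
        rw [mul_zero] at hz
        exact hX hz
      have hYb : sp (y * x') ≠ (⊥ : Ideal (OO A B)) := by
        intro h
        exact hY (Ideal.span_singleton_eq_bot.1 h)
      have h11 : sp (y * x') * b ^ (j - i) = sp (y * x') * sp z := by
        rw [← h8, hz]
        exact (Ideal.span_singleton_mul_span_singleton _ _).symm
      exact ⟨j - i, z, Nat.sub_pos_of_lt hlt, hz0, RLAF.cancel hc hYb h11⟩
    rcases lt_or_gt_of_ne hij with h | h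
    · exact main i j h hfij
    · exact main j i h hfij.symm

end

end Pool.Agent.MUXY


end

section

/-!
# MUX, module NZL: `g₂` and `g₃` of a lattice with complex multiplication are not zero
-/

set_option autoImplicit false

namespace Pool.Agent.MUXY

open _root_.MU3 _root_.Pool.Agent.MU3A _root_.Pool.Agent.MU3B _root_.Pool.Agent.MUXU OnePoint
open _root_.Pool.Agent.MUX (CQ CaseP nI cjI sp IsLI IsNL IsEI PhiI Reps TorX)
open _root_.Pool.Agent.MUXF (qb)

noncomputable section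

namespace RNZL

/-- a multiplier which does not change the invariants -/
lemma mult (h1 : Sy_MLR) {A B : ℤ} (hQ : _root_.Pool.Agent.MUX.CQ A B) (b : Ideal (OO A B)) (L : PeriodPair) (om : ℂ)
    (hL : _root_.Pool.Agent.MUX.IsLI b L om) (s : ℂ) (hs : s ≠ 0) (h2 : L.g₂ / s ^ 4 = L.g₂) (h3 : L.g₃ / s ^ 6 = L.g₃) :
    ∃ t : OO A B, s = emb t := by
  obtain ⟨L', hL'⟩ := Pool.Agent.MUXU.u_SCX L s hs
  obtain ⟨-, -, e2, e3⟩ := Pool.Agent.MU3A.ta_SCP L L' s hs hL'
  have hLL : L'.lattice = L.lattice :=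
    Pool.Agent.MUXU.u_DET L' L (e2.trans h2) (e3.trans h3)
  refine h1 A B hQ b s hL.b_ne ?_
  intro x hx
  have h4 : om * emb x ∈ L.lattice := (hL.mem _).2 ⟨x, hx, rfl⟩
  have h5 : s * (om * emb x) ∈ L.lattice := hLL ▸ (hL' _).1 h4
  obtain ⟨y, hy, hxy⟩ := (hL.mem _).1 h5
  refine ⟨y, hy, ?_⟩
  apply mul_left_cancel₀ hL.om_ne
  rw [← hxy]
  ring

lemma int3 (x y D B A : ℤ) (hD : D = -(B ^ 2 + 4 * A)) (hD0 : 0 < D) (hD3 : D ≠ 3)
    (e1 : x ^ 2 + A * y ^ 2 + x + 1 = 0) (e2 : 2 * x * y + B * y ^ 2 + y = 0) : False := by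
  have hy : y ≠ 0 := by
    rintro rfl
    nlinarith [sq_nonneg (2 * x + 1)]
  have e3 : 2 * x + B * y + 1 = 0 := by
    have : y * (2 * x + B * y + 1) = 0 := by linear_combination e2
    exact (mul_eq_zero.1 this).resolve_left hy
  have e4 : D * y ^ 2 = 3 := by
    subst hD
    linear_combination (-4) * e1 + (2 * x + 1 - B * y) * e3
  have hy1 : 1 ≤ y ^ 2 := by
    have := sq_nonneg y
    rcases Int.lt_or_gt_of_ne hy with h | h <;> nlinarith
  have hy2 : y ^ 2 < 4 := by nlinarith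
  have hy3 : y < 2 := by nlinarith
  have hy4 : -2 < y := by nlinarith
  have hy5 : y = 1 ∨ y = -1 := by omega
  rcases hy5 with rfl | rfl
  · apply hD3
    linarith
  · apply hD3
    linarith

lemma int4 (x y D B A : ℤ) (hD : D = -(B ^ 2 + 4 * A)) (hB : B = 0 ∨ B = 1) (hD0 : 0 < D)
    (hD4 : D ≠ 4) (e1 : x ^ 2 + A * y ^ 2 + 1 = 0) (e2 : 2 * x * y + B * y ^ 2 = 0) : False := by
  have hy : y ≠ 0 := by
    rintro rfl
    nlinarith [sq_nonneg x]
  have e3 : 2 * x + B * y = 0 := by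
    have : y * (2 * x + B * y) = 0 := by linear_combination e2
    exact (mul_eq_zero.1 this).resolve_left hy
  have e4 : D * y ^ 2 = 4 := by
    subst hD
    linear_combination (-4) * e1 + (2 * x - B * y) * e3
  have hy1 : 1 ≤ y ^ 2 := by
    have := sq_nonneg y
    rcases Int.lt_or_gt_of_ne hy with h | h <;> nlinarith
  have hy2 : y ^ 2 < 5 := by nlinarith
  have hy3 : y < 3 := by nlinarith
  have hy4 : -3 < y := by nlinarith
  have hy5 : y = 1 ∨ y = -1 ∨ y = 2 ∨ y = -2 := by omega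
  rcases hy5 with rfl | rfl | rfl | rfl
  · exact hD4 (by linarith)
  · exact hD4 (by linarith)
  · rcases hB with rfl | rfl <;> omega
  · rcases hB with rfl | rfl <;> omega

end RNZL

/-- NZL. -/
theorem ty_NZL (h1 : Sy_MLR) : Sy_NZL := by
  intro A B hQ hD3 hD4 b L om hL
  obtain ⟨a1, a2, a3, -, -⟩ := Pool.Agent.MUXF.xf_ALG A B (cqF hQ)
  have hD0 : 0 < absD A B := by
    have := hQ.neg
    unfold absD
    linarith
  constructor
  · intro h0
    set s : ℂ := (-1 + Complex.I * ((Real.sqrt 3 : ℝ) : ℂ)) / 2 with hs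
    have hq : ((Real.sqrt 3 : ℝ) : ℂ) ^ 2 = 3 := by
      rw [← Complex.ofReal_pow, Real.sq_sqrt (by norm_num)]
      norm_num
    have e1 : s ^ 2 + s + 1 = 0 := by
      rw [hs]
      linear_combination (((Real.sqrt 3 : ℝ) : ℂ) ^ 2 / 4) * Complex.I_sq + (-1 / 4) * hq
    have e3 : s ^ 3 = 1 := by linear_combination (s - 1) * e1
    have hs0 : s ≠ 0 := by
      intro h
      rw [h] at e3
      norm_num at e3
    have e6 : s ^ 6 = 1 := by
      have : s ^ 6 = s ^ 3 * s ^ 3 := by ring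
      rw [this, e3, one_mul]
    obtain ⟨t, ht⟩ := RNZL.mult h1 hQ b L om hL s hs0 (by rw [h0, zero_div])
      (by rw [e6, div_one])
    have e4 : t * t + t + 1 = 0 := by
      apply (a2 _).1.1
      have h5 : emb (1 : OO A B) = 1 := by
        have := (a3 1).1
        simpa using this
      rw [(a1 _ _).2.1, (a1 _ _).2.1, (a1 _ _).1, h5, ← ht]
      linear_combination e1
    have er := congrArg QuadraticAlgebra.re e4
    have ei := congrArg QuadraticAlgebra.im e4
    simp only [QuadraticAlgebra.re_add, QuadraticAlgebra.im_add, QuadraticAlgebra.re_mul,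
      QuadraticAlgebra.im_mul, QuadraticAlgebra.re_one, QuadraticAlgebra.im_one,
      QuadraticAlgebra.re_zero, QuadraticAlgebra.im_zero] at er ei
    exact RNZL.int3 t.re t.im (absD A B) B A rfl hD0 hD3 (by linear_combination er)
      (by linear_combination ei)
  · intro h0
    have e4 : Complex.I ^ 4 = 1 := Complex.I_pow_four
    obtain ⟨t, ht⟩ := RNZL.mult h1 hQ b L om hL Complex.I Complex.I_ne_zero
      (by rw [e4, div_one]) (by rw [h0, zero_div])
    have e5 : t * t + 1 = 0 := by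
      apply (a2 _).1.1
      have h5 : emb (1 : OO A B) = 1 := by
        have := (a3 1).1
        simpa using this
      rw [(a1 _ _).2.1, (a1 _ _).1, h5, ← ht]
      linear_combination Complex.I_sq
    have er := congrArg QuadraticAlgebra.re e5
    have ei := congrArg QuadraticAlgebra.im e5
    simp only [QuadraticAlgebra.re_add, QuadraticAlgebra.im_add, QuadraticAlgebra.re_mul,
      QuadraticAlgebra.im_mul, QuadraticAlgebra.re_one, QuadraticAlgebra.im_one,
      QuadraticAlgebra.re_zero, QuadraticAlgebra.im_zero] at er ei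
    exact RNZL.int4 t.re t.im (absD A B) B A rfl hQ.hB hD0 hD4 (by linear_combination er)
      (by linear_combination ei)

end

end Pool.Agent.MUXY


end

section

/-!
# MUX, module NLD: if there is a normalised lattice then `absD ≠ 3, 4`
-/

set_option autoImplicit false

namespace Pool.Agent.MUXY

open _root_.MU3 _root_.Pool.Agent.MU3A _root_.Pool.Agent.MU3B _root_.Pool.Agent.MUXU OnePoint
open _root_.Pool.Agent.MUX (CQ CaseP nI cjI sp IsLI IsNL IsEI PhiI Reps TorX)
open _root_.Pool.Agent.MUXF (qb)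

noncomputable section

namespace RNLD

/-- for `A = -1` there is no normalised lattice -/
lemma key {A B : ℤ} (h : CQ A B) (hA : A = -1) (b : Ideal (OO A B)) (L : PeriodPair) (om : ℂ)
    (hL : IsNL b L om) : False := by
  have hF : MUXF.CQ A B := cqF h
  have hw2 : wC A B * wC A B = A + B * wC A B := MUXF.AlgX.wC_sq hF
  have him : 0 < (wC A B).im := MUXF.AlgX.wC_im_pos hF
  have hw0 : wC A B ≠ 0 := by
    intro h0
    rw [h0] at him
    exact lt_irrefl _ him
  have hmulL : ∀ (t : OO A B) (z : ℂ), z ∈ L.lattice → emb t * z ∈ L.lattice := by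
    intro t z hz
    obtain ⟨x, hx, rfl⟩ := (hL.mem z).1 hz
    refine (hL.mem _).2 ⟨t * x, b.mul_mem_left t hx, ?_⟩
    rw [MUXF.AlgX.emb_mul hF]
    ring
  have e1 : emb (⟨0, 1⟩ : OO A B) = wC A B := by
    simp [emb]
  have e2 : emb (⟨B, -1⟩ : OO A B) = B - wC A B := by
    simp [emb]
    ring
  have hinv : (B - wC A B) * wC A B = 1 := by
    rw [sub_mul, hw2, hA]
    push_cast
    ring
  have hiff : ∀ z : ℂ, z ∈ L.lattice ↔ wC A B * z ∈ L.lattice := by
    intro z
    constructor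
    · intro hz
      have h1 := hmulL ⟨0, 1⟩ z hz
      rwa [e1] at h1
    · intro hz
      have h1 := hmulL ⟨B, -1⟩ _ hz
      rwa [e2, ← mul_assoc, hinv, one_mul] at h1
  rcases Muu.scale L hL.nrm (wC A B) hw0 hiff with h1 | h1
  · rw [h1, Complex.one_im] at him
    exact lt_irrefl _ him
  · rw [h1, Complex.neg_im, Complex.one_im, neg_zero] at him
    exact lt_irrefl _ him

end RNLD

/-- NLD. -/
theorem ty_NLD : Sy_NLD := by
  intro A B h b L om hL
  constructor
  · intro h3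
    refine RNLD.key h ?_ b L om hL
    unfold absD at h3
    rcases h.hB with hB | hB <;> rw [hB] at h3 <;> omega
  · intro h4
    refine RNLD.key h ?_ b L om hL
    unfold absD at h4
    rcases h.hB with hB | hB <;> rw [hB] at h4 <;> omega

end

end Pool.Agent.MUXY


end

section

/-!
# MUX, block R3, module E13: the kernel of reduction and the ideals
-/

set_option autoImplicit false

namespace Pool.Agent.MUX3

open _root_.MU3 _root_.Pool.Agent.MU3A _root_.Pool.Agent.MU3B _root_.Pool.Agent.MUX _root_.Pool.Agent.MUXU _root_.Pool.Agent.MUXV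
  _root_.Pool.Agent.MUX2 WeierstrassCurve

noncomputable section

namespace E13

open _root_.Pool.Agent.MUX2.E12 (emb_mul emb_nat mul_star' nm_pos one_nmem cm tor_desc tor_lat tor_le
  tor_mul vadd)

/-! ## Algebra of `O` -/

section
variable {A B : ℤ}

/-- `3` splits -/
lemma AB_three (h : CQ A B) (h8 : (3 : ℤ) ∣ B ^ 2 + 4 * A - 1) : (3 : ℤ) ∣ A + B - 1 := by
  rcases h.hB with rfl | rfl <;> omega

lemma three_mul_mem {P : Ideal (OO A B)} (h2 : (3 : OO A B) ∈ P) {a : ℤ} (ha : (3 : ℤ) ∣ a) :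
    (a : OO A B) ∈ P := by
  obtain ⟨c, rfl⟩ := ha
  push_cast
  exact P.mul_mem_right _ h2

lemma int_mem_iff {P : Ideal (OO A B)} (hP : P.IsPrime) (h2 : (3 : OO A B) ∈ P) (a : ℤ) :
    (a : OO A B) ∈ P ↔ (3 : ℤ) ∣ a := by
  refine ⟨fun h => ?_, three_mul_mem h2⟩
  by_contra h0
  rcases (by omega : (3 : ℤ) ∣ a - 1 ∨ (3 : ℤ) ∣ a + 1) with h1 | h1
  · have h3 := P.sub_mem h (three_mul_mem h2 h1)
    push_cast at h3
    exact one_nmem hP (by simpa using h3)
  · have h3 := P.sub_mem (three_mul_mem h2 h1) h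
    push_cast at h3
    exact one_nmem hP (by simpa using h3)

/-- the two primes of norm three -/
lemma primes3 (h : CQ A B) (h8 : (3 : ℤ) ∣ B ^ 2 + 4 * A - 1) {P : Ideal (OO A B)}
    (hP : IsPN 3 P) :
    (∀ x : OO A B, x ∈ P ↔ (3 : ℤ) ∣ x.re + x.im) ∨
      (∀ x : OO A B, x ∈ P ↔ (3 : ℤ) ∣ x.re + (B - 1) * x.im) := by
  have hA := AB_three h h8
  have h2 : (3 : OO A B) ∈ P := by simpa using hP.mem
  have hw : (⟨-1, 1⟩ : OO A B) * ⟨-(B - 1), 1⟩ ∈ P := by
    have : (⟨-1, 1⟩ : OO A B) * ⟨-(B - 1), 1⟩ = ((A + B - 1 : ℤ) : OO A B) := by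
      ext
      · simp only [QuadraticAlgebra.re_mul, QuadraticAlgebra.re_intCast, Int.cast_id]
        ring
      · simp only [QuadraticAlgebra.im_mul, QuadraticAlgebra.im_intCast]
        ring
    rw [this]
    exact three_mul_mem h2 hA
  have key : ∀ r : ℤ, (⟨-r, 1⟩ : OO A B) ∈ P →
      ∀ x : OO A B, x ∈ P ↔ (3 : ℤ) ∣ x.re + r * x.im := by
    intro r h0 x
    have hx : x = ((x.re + r * x.im : ℤ) : OO A B) + ((x.im : ℤ) : OO A B) * ⟨-r, 1⟩ := by
      ext
      · simp only [QuadraticAlgebra.re_add, QuadraticAlgebra.re_mul, QuadraticAlgebra.re_intCast,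
          QuadraticAlgebra.im_intCast, Int.cast_id]
        ring
      · simp only [QuadraticAlgebra.im_add, QuadraticAlgebra.im_mul, QuadraticAlgebra.re_intCast,
          QuadraticAlgebra.im_intCast, Int.cast_id]
        ring
    rw [← int_mem_iff hP.prime h2]
    conv_lhs => rw [hx]
    exact Ideal.add_mem_iff_left _ (P.mul_mem_left _ h0)
  rcases hP.prime.mem_or_mem hw with h0 | h0
  · refine Or.inl fun x => ?_
    have := key 1 h0 x
    rwa [one_mul] at this
  · exact Or.inr (key (B - 1) h0)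

lemma mem_span3 {x : OO A B} (h1 : (3 : ℤ) ∣ x.re) (h2 : (3 : ℤ) ∣ x.im) :
    x ∈ Ideal.span {(3 : OO A B)} := by
  obtain ⟨a, ha⟩ := h1
  obtain ⟨b, hb⟩ := h2
  rw [Ideal.mem_span_singleton]
  refine ⟨⟨a, b⟩, ?_⟩
  have h3 : (3 : OO A B) = ((3 : ℤ) : OO A B) := by norm_num
  ext
  · rw [h3]; simp only [QuadraticAlgebra.re_mul, QuadraticAlgebra.re_intCast,
      QuadraticAlgebra.im_intCast, Int.cast_id]; rw [ha]; ring
  · rw [h3]; simp only [QuadraticAlgebra.im_mul, QuadraticAlgebra.re_intCast,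
      QuadraticAlgebra.im_intCast, Int.cast_id]; rw [hb]; ring

lemma mul_span3 (h : CQ A B) (h8 : (3 : ℤ) ∣ B ^ 2 + 4 * A - 1) {x y : OO A B}
    (hx : (3 : ℤ) ∣ x.re + x.im) (hy : (3 : ℤ) ∣ y.re + (B - 1) * y.im) :
    x * y ∈ Ideal.span {(3 : OO A B)} := by
  obtain ⟨a, ha⟩ := AB_three h h8
  obtain ⟨b, hb⟩ := hx
  obtain ⟨c, hc⟩ := hy
  refine mem_span3 ⟨b * y.re - x.im * c + a * x.im * y.im, ?_⟩ ⟨b * y.im + x.im * c, ?_⟩
  · simp only [QuadraticAlgebra.re_mul]
    linear_combination y.re * hb - x.im * hc + (x.im * y.im) * ha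
  · simp only [QuadraticAlgebra.im_mul]
    linear_combination y.im * hb + x.im * hc

/-- the product of the two primes above `3` -/
lemma pq_three (h : CQ A B) (h8 : (3 : ℤ) ∣ B ^ 2 + 4 * A - 1) {P Q : Ideal (OO A B)}
    (hP : IsPN 3 P) (hQ : IsPN 3 Q) (hPQ : P ≠ Q) : P * Q ≤ Ideal.span {(3 : OO A B)} := by
  rcases primes3 h h8 hP with h1 | h1 <;> rcases primes3 h h8 hQ with h2 | h2
  · exact absurd (Ideal.ext fun x => (h1 x).trans (h2 x).symm) hPQ
  · exact Ideal.mul_le.2 fun x hx y hy => mul_span3 h h8 ((h1 x).1 hx) ((h2 y).1 hy)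
  · refine Ideal.mul_le.2 fun x hx y hy => ?_
    rw [mul_comm]
    exact mul_span3 h h8 ((h2 y).1 hy) ((h1 x).1 hx)
  · exact absurd (Ideal.ext fun x => (h1 x).trans (h2 x).symm) hPQ

/-- the second part -/
lemma part2 (h3 : S2_GR2) (h4 : S2_IT2) (hc : CQ A B) (h8 : (3 : ℤ) ∣ B ^ 2 + 4 * A - 1)
    {P Q : Ideal (OO A B)} {V : ValuationSubring ℂ} (hP : IsPN 3 P) (hQ : IsPN 3 Q) (hPQ : P ≠ Q)
    (hV : Above3 P V) {b : Ideal (OO A B)} {L : PeriodPair} {om : ℂ} (hL : IsNL b L om)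
    (g1 : V.valuation (kap L) = 1) (g2 : V.valuation (1 + 1728 * kap L) = 1)
    (g4 : ∀ w, w ∉ L.lattice → Tor Q L w → V.valuation (par3 L w) = 1 ∧
      V.valuation (xn L w) = 1)
    {m : Ideal (OO A B)} {u : ℂ} (hm : m ≠ ⊥) (hco : IsCoprime m P) (hT : Tor m L u)
    (hK : InEn V L u) : u ∈ L.lattice := by
  obtain ⟨ξ, G⟩ := h3 V L hL.nrm g1 g2
  obtain ⟨x, hx, hx0⟩ := Submodule.exists_mem_ne_zero_of_ne_bot hm
  have hN := nm_pos hc hx0
  obtain ⟨i, n, hn, hNn⟩ := Nat.exists_eq_pow_mul_and_not_dvd (n := (nm x).toNat)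
    (by omega) 3 (by norm_num)
  have hNm : ((3 : OO A B) ^ i * (n : OO A B)) ∈ m := by
    have e1 : (3 : OO A B) ^ i * (n : OO A B) = x * star x := by
      rw [mul_star']
      have e2 : nm x = (((3 ^ i * n : ℕ)) : ℤ) := by rw [← hNn]; omega
      rw [e2]
      push_cast
      rfl
    rw [e1]
    exact m.mul_mem_right _ hx
  have hnq : ∀ q ∈ Q ^ i, (n : OO A B) * q ∈ m := by
    intro q hq
    obtain ⟨a, ha, c, hc', hac⟩ := Ideal.isCoprime_iff_exists.1 (hco.pow_right (n := i))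
    have e1 : (n : OO A B) * q = (n : OO A B) * q * a + (n : OO A B) * (c * q) := by
      linear_combination (-((n : OO A B) * q)) * hac
    rw [e1]
    refine m.add_mem (m.mul_mem_left _ ha) ?_
    have e2 : c * q ∈ Ideal.span {(3 : OO A B) ^ i} := by
      have h5 : (P * Q) ^ i ≤ (Ideal.span {(3 : OO A B)}) ^ i :=
        Ideal.pow_right_mono (pq_three hc h8 hP hQ hPQ) i
      rw [Ideal.span_singleton_pow, mul_pow] at h5
      exact h5 (Ideal.mul_mem_mul hc' hq)
    obtain ⟨d, hd⟩ := Ideal.mem_span_singleton.1 e2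
    rw [hd, ← mul_assoc, mul_comm (n : OO A B)]
    exact m.mul_mem_right _ hNm
  have hTn : Tor (Q ^ i) L ((n : ℂ) * u) := by
    intro q hq
    have h5 := hT _ (hnq q hq)
    rw [_root_.Pool.Agent.MUX2.E12.emb_mul hc, emb_nat hc] at h5
    have e3 : emb q * ((n : ℂ) * u) = (n : ℂ) * emb q * u := by ring
    rw [e3]
    exact h5
  have hvn : V.valuation (n : ℂ) = 1 := by
    have h5 : ((n : ℤ) : OO A B) ∉ P := by
      rw [int_mem_iff hP.prime (by simpa using hP.mem)]
      omega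
    have h6 := hV.one _ h5
    rw [Int.cast_natCast, emb_nat hc] at h6
    exact h6
  by_contra hu
  have hK' : InK V L (xn L) u := hK
  have hnu : (n : ℂ) * u ∉ L.lattice := fun h5 => hu (gmem_of_nat_mul G hK' hvn h5)
  obtain ⟨c, hc1, hc2⟩ := tor_desc hc Q i _ hTn hnu
  have hcne : emb c ≠ 0 := by
    intro h5
    rw [h5, zero_mul] at hc1
    exact hc1 L.lattice.zero_mem
  have h6 := (h4 V L L (1 / 12) (1 / 12) (emb c) (y2 L) (y2 L) ⟨_, ξ, G⟩ ⟨_, ξ, G⟩ hcne
    (fun w hw => cm hc hL hw c)).2 ((n : ℂ) * u) (gInK_nat G hK' n)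
  rcases h6 with h6 | h6
  · exact hc1 h6
  · apply h6
    rw [← ValuationSubring.valuation_le_one_iff]
    have h7 := (g4 _ hc1 hc2).2
    exact h7.le

end

/-! ## Valuations -/

section
variable {Γ : Type*} [LinearOrderedCommGroupWithZero Γ] (v : Valuation ℂ Γ)

/-- the main lemma -/
lemma key {X x x0 m2 a2 a1 a0 : ℂ} {θ : Γ} (h1 : θ < 1) (hm : v m2 = θ ^ 2)
    (hx0 : v x0 * θ = 1) (ha2 : v a2 < 1) (ha1 : v a1 < 1) (ha0 : v a0 < 1)
    (hE : m2 * X * (x - x0) ^ 2 = x ^ 3 + a2 * x ^ 2 + a1 * x + a0) (hX : 1 < v X)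
    (hX2 : v X * θ ≤ 1) : v x ^ 3 = v X := by
  have hE' := congrArg v hE
  rw [map_mul, map_mul, map_pow, hm] at hE'
  have hθ2 : v x0 ^ 2 * θ ^ 2 = 1 := by rw [← mul_pow, hx0, one_pow]
  have hx01 : 1 < v x0 := by
    by_contra hh
    rw [not_lt] at hh
    have : v x0 * θ < 1 := lt_of_le_of_lt (mul_le_of_le_one_left zero_le hh) h1
    rw [hx0] at this
    exact lt_irrefl _ this
  rcases le_or_gt (v x) 1 with ha | ha
  · exfalso
    have e1 : v (x - x0) = v x0 := by
      rw [sub_eq_add_neg, v.map_add_eq_of_lt_right, Valuation.map_neg]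
      rw [Valuation.map_neg]
      exact lt_of_le_of_lt ha hx01
    have e2 : v (x ^ 3 + a2 * x ^ 2 + a1 * x + a0) ≤ 1 := by
      refine v.map_add_le (v.map_add_le (v.map_add_le ?_ ?_) ?_) ha0.le
      · rw [map_pow]
        exact pow_le_one₀ zero_le ha
      · rw [map_mul, map_pow]
        exact mul_le_one' ha2.le (pow_le_one₀ zero_le ha)
      · rw [map_mul]
        exact mul_le_one' ha1.le ha
    rw [e1, mul_comm (θ ^ 2) (v X), mul_assoc, mul_comm (θ ^ 2), hθ2, mul_one] at hE'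
    rw [hE'] at hX
    exact absurd e2 (not_le.2 hX)
  · have hxp : 0 < v x := lt_trans zero_lt_one ha
    have hp2 : v x ^ 2 < v x ^ 3 := by
      rw [pow_succ (v x) 2]
      exact lt_mul_of_one_lt_right (pow_pos hxp 2) ha
    have hp1 : v x < v x ^ 2 := by
      rw [pow_two]
      exact lt_mul_of_one_lt_left hxp ha
    have e1 : v (x ^ 3 + a2 * x ^ 2 + a1 * x + a0) = v x ^ 3 := by
      have e2 : x ^ 3 + a2 * x ^ 2 + a1 * x + a0 = (a2 * x ^ 2 + a1 * x + a0) + x ^ 3 := by ring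
      rw [e2, vadd v, map_pow]
      rw [map_pow]
      refine v.map_add_lt (v.map_add_lt ?_ ?_) ?_
      · rw [map_mul, map_pow]
        exact lt_trans (mul_lt_of_lt_one_left (pow_pos hxp 2) ha2) hp2
      · rw [map_mul]
        exact lt_trans (mul_lt_of_lt_one_left hxp ha1) (lt_trans hp1 hp2)
      · exact lt_trans (lt_trans ha0 ha) (lt_trans hp1 hp2)
    rw [e1] at hE'
    rcases lt_or_ge (v x) (v x0) with h | h
    · have e3 : v (x - x0) = v x0 := by
        rw [sub_eq_add_neg, v.map_add_eq_of_lt_right, Valuation.map_neg]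
        rw [Valuation.map_neg]
        exact h
      rw [e3, mul_comm (θ ^ 2) (v X), mul_assoc, mul_comm (θ ^ 2), hθ2, mul_one] at hE'
      exact hE'.symm
    · exfalso
      have e3 : v (x - x0) ≤ v x := by
        rw [sub_eq_add_neg]
        refine v.map_add_le le_rfl ?_
        rw [Valuation.map_neg]
        exact h
      have e4 : v x ^ 3 ≤ θ ^ 2 * v X * v x ^ 2 := by
        rw [← hE']
        exact mul_le_mul_right (pow_le_pow_left₀ zero_le e3 2) _
      have e5 : v x ≤ θ ^ 2 * v X := by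
        rw [pow_succ' (v x) 2] at e4
        exact le_of_mul_le_mul_right e4 (pow_pos hxp 2)
      have e6 : θ ^ 2 * v X < 1 := by
        rw [pow_two, mul_assoc, mul_comm θ (v X)]
        exact lt_of_le_of_lt (mul_le_of_le_one_right zero_le hX2) h1
      exact absurd (lt_of_le_of_lt e5 e6) (not_lt.2 ha.le)

/-- the numbers of `(NRM)` -/
lemma nums (h3 : v 3 < 1) {s : ℂ} (hs : v s = v 3 ^ 6) :
    v (s + 3) = v 3 ∧ v (s + 9) = v 3 ^ 2 ∧ v (s + 27) = v 3 ^ 3 ∧ v (s + 243) = v 3 ^ 5 ∧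
      v (q3 s) = v 3 ^ 3 ∧ v (r3 s) = v 3 ^ 9 := by
  have h0 : (0 : Γ) < v 3 := zero_lt_iff.2 (by simp)
  have hn : ∀ n : ℕ, v (n : ℂ) ≤ 1 := fun n => Pool.Agent.MU3.Val.v_nat v n
  have hp : ∀ {k : ℕ}, k < 6 → v 3 ^ 6 < v 3 ^ k := fun hk =>
    pow_lt_pow_right_of_lt_one₀ h0 h3 hk
  have e9 : v 9 = v 3 ^ 2 := by rw [← map_pow]; norm_num
  have e27 : v 27 = v 3 ^ 3 := by rw [← map_pow]; norm_num
  have e243 : v 243 = v 3 ^ 5 := by rw [← map_pow]; norm_num
  refine ⟨?_, ?_, ?_, ?_, ?_, ?_⟩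
  · rw [vadd v]; rw [hs]; simpa using hp (k := 1) (by norm_num)
  · rw [vadd v, e9]; rw [hs, e9]; exact hp (by norm_num)
  · rw [vadd v, e27]; rw [hs, e27]; exact hp (by norm_num)
  · rw [vadd v, e243]; rw [hs, e243]; exact hp (by norm_num)
  · have e1 : v (-27) = v 3 ^ 3 := by rw [Valuation.map_neg, e27]
    unfold q3
    rw [sub_eq_add_neg, vadd v, e1]
    rw [e1]
    refine v.map_add_lt ?_ ?_
    · rw [map_pow, hs, ← pow_mul]
      exact pow_lt_pow_right_of_lt_one₀ h0 h3 (by norm_num)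
    · rw [map_mul, hs]
      exact lt_of_le_of_lt (mul_le_of_le_one_left zero_le (by exact_mod_cast hn 18))
        (hp (by norm_num))
  · have e1 : v (-19683) = v 3 ^ 9 := by rw [Valuation.map_neg, ← map_pow]; norm_num
    unfold r3
    rw [sub_eq_add_neg _ (19683 : ℂ), vadd v, e1]
    rw [e1, sub_eq_add_neg]
    refine v.map_add_lt ?_ ?_
    · rw [map_pow, hs, ← pow_mul]
      exact pow_lt_pow_right_of_lt_one₀ h0 h3 (by norm_num)
    · rw [Valuation.map_neg, show (486 : ℂ) * s = 2 * (3 ^ 5 * s) by ring, map_mul, map_mul,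
        map_pow, hs, ← pow_add]
      refine lt_of_le_of_lt (mul_le_of_le_one_left zero_le (by exact_mod_cast hn 2)) ?_
      exact pow_lt_pow_right_of_lt_one₀ h0 h3 (by norm_num)

lemma nums2 (h3 : v 3 < 1) {s : ℂ} (hs : v s = v 3 ^ 6) (k1 : q3 s ≠ 0) (k2 : s + 243 ≠ 0)
    {m2 e t w c : ℂ} (hm2 : m2 = (s + 3) * r3 s / ((s + 243) * q3 s)) (he : e = (s + 9) / q3 s)
    (ht : t = (s + 3) ^ 2 * (s + 27) / q3 s ^ 2) (hw : w = (s + 3) ^ 3 * (s + 27) / q3 s ^ 3)
    (hc : c = (1 - m2) / 12) :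
    v m2 = v 3 ^ 2 ∧ v e * v 3 = 1 ∧ v (c - 2 * e) < 1 ∧ v (e ^ 2 - 2 * c * e + t) < 1 ∧
      v (c * e ^ 2 - t * e + w) < 1 := by
  obtain ⟨n1, n2, n3, n4, n5, n6⟩ := nums v h3 hs
  have h0 : v 3 ≠ 0 := by simp
  have h0' : (0 : Γ) < v 3 := zero_lt_iff.2 h0
  have hn : ∀ n : ℕ, v (n : ℂ) ≤ 1 := fun n => Pool.Agent.MU3.Val.v_nat v n
  have b1 : c - 2 * e = 60 * (s * (s + 27)) / ((s + 243) * q3 s) := by
    rw [hc, hm2, he]
    field_simp
    unfold q3 r3
    ring
  have b2 : e ^ 2 - 2 * c * e + t =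
      s * (s ^ 3 + 153 * s ^ 2 + 3087 * s + (-729)) / ((s + 243) * q3 s ^ 2) := by
    rw [hc, hm2, he, ht]
    field_simp
    unfold q3 r3
    ring
  have b3 : c * e ^ 2 - t * e + w =
      8 * (s ^ 2 * (7 * s ^ 2 + 198 * s + (-189))) / ((s + 243) * q3 s ^ 3) := by
    rw [hc, hm2, he, ht, hw]
    field_simp
    unfold q3 r3
    ring
  refine ⟨?_, ?_, ?_, ?_, ?_⟩
  · rw [hm2, map_div₀, map_mul, map_mul, n1, n4, n5, n6, div_eq_iff
      (mul_ne_zero (pow_ne_zero _ h0) (pow_ne_zero _ h0)), ← pow_add, ← pow_add, ← pow_succ']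
  · rw [he, map_div₀, n2, n5, div_mul_eq_mul_div, div_eq_one_iff_eq (pow_ne_zero _ h0),
      ← pow_succ]
  · rw [b1, map_div₀, map_mul, map_mul, map_mul, n3, n4, n5, hs, ← pow_add, ← pow_add,
      div_lt_one₀ (pow_pos h0' _)]
    refine lt_of_le_of_lt (mul_le_of_le_one_left zero_le (by exact_mod_cast hn 60)) ?_
    exact pow_lt_pow_right_of_lt_one₀ h0' h3 (by norm_num)
  · rw [b2, map_div₀, map_mul, map_mul, map_pow, n4, n5, hs, ← pow_mul, ← pow_add,
      div_lt_one₀ (pow_pos h0' _)]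
    have e1 : v (s ^ 3 + 153 * s ^ 2 + 3087 * s + (-729)) ≤ v 3 ^ 6 := by
      refine v.map_add_le (v.map_add_le (v.map_add_le ?_ ?_) ?_) ?_
      · rw [map_pow, hs, ← pow_mul]
        exact pow_le_pow_of_le_one zero_le h3.le (by norm_num)
      · rw [map_mul, map_pow, hs, ← pow_mul]
        refine (mul_le_of_le_one_left zero_le (by exact_mod_cast hn 153)).trans ?_
        exact pow_le_pow_of_le_one zero_le h3.le (by norm_num)
      · rw [map_mul, hs]
        exact mul_le_of_le_one_left zero_le (by exact_mod_cast hn 3087)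
      · rw [Valuation.map_neg, ← map_pow]
        norm_num
    refine lt_of_le_of_lt (mul_le_mul_right e1 _) ?_
    rw [← pow_add]
    exact pow_lt_pow_right_of_lt_one₀ h0' h3 (by norm_num)
  · rw [b3, map_div₀, map_mul, map_mul, map_mul, map_pow, map_pow, n4, n5, hs, ← pow_mul,
      ← pow_mul, ← pow_add, div_lt_one₀ (pow_pos h0' _)]
    have e1 : v (7 * s ^ 2 + 198 * s + (-189)) ≤ v 3 ^ 3 := by
      refine v.map_add_le (v.map_add_le ?_ ?_) ?_
      · rw [map_mul, map_pow, hs, ← pow_mul]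
        refine (mul_le_of_le_one_left zero_le (by exact_mod_cast hn 7)).trans ?_
        exact pow_le_pow_of_le_one zero_le h3.le (by norm_num)
      · rw [map_mul, hs]
        refine (mul_le_of_le_one_left zero_le (by exact_mod_cast hn 198)).trans ?_
        exact pow_le_pow_of_le_one zero_le h3.le (by norm_num)
      · rw [Valuation.map_neg, show (189 : ℂ) = 7 * 3 ^ 3 by norm_num, map_mul, map_pow]
        exact mul_le_of_le_one_left zero_le (by exact_mod_cast hn 7)
    refine lt_of_le_of_lt (mul_le_of_le_one_left zero_le (by exact_mod_cast hn 8)) ?_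
    refine lt_of_le_of_lt (mul_le_mul_right e1 _) ?_
    rw [← pow_add]
    exact pow_lt_pow_right_of_lt_one₀ h0' h3 (by norm_num)

end

/-! ## The first part -/

section
variable {A B : ℤ}

/-- the induction step -/
lemma step {L M : PeriodPair} {mu w : ℂ} (h1 : S3_NRM) (h1' : S3_PAR) (hT : Three L M mu w)
    (hL : L.g₂ = -18 * L.g₃) (hM : M.g₂ = -18 * M.g₃) (V : ValuationSubring ℂ)
    (h3 : V.valuation 3 < 1) (hs : V.valuation (par3 L w) = V.valuation 3 ^ 6) {u : ℂ}
    (hu : mu * u ∉ M.lattice) (hX : 1 < V.valuation (xn M (mu * u)))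
    (hX2 : V.valuation (xn M (mu * u)) * V.valuation 3 ≤ 1) :
    V.valuation (xn L u) ^ 3 = V.valuation (xn M (mu * u)) := by
  obtain ⟨k1, k2, -, hm2, hx⟩ := h1 L M mu w hT hL hM
  obtain ⟨-, q1, -, -, -, he, -⟩ := h1' L w hT.u_ne hT.u3 hL
  obtain ⟨hne, hE⟩ := hx u hu
  obtain ⟨m1, m2, m3, m4, m5⟩ := nums2 V.valuation h3 hs q1 k1 hm2 he rfl rfl rfl
  refine key V.valuation h3 m1 m2 m3 m4 m5 ?_ hX hX2
  have e1 : mu ^ 2 * xn M (mu * u) * (xn L u - xn L w) ^ 2 =
      xn L u * (xn L u - xn L w) ^ 2 + (1 - mu ^ 2) / 12 * (xn L u - xn L w) ^ 2 +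
      (par3 L w + 3) ^ 2 * (par3 L w + 27) / q3 (par3 L w) ^ 2 * (xn L u - xn L w) +
      (par3 L w + 3) ^ 3 * (par3 L w + 27) / q3 (par3 L w) ^ 3 := by
    rw [hE]
    field_simp
  rw [e1]
  ring

/-- the first part -/
lemma part1 (h1 : S3_NRM) (h1' : S3_PAR) (h2 : S3_GD3) (h5 : S3_CH3) (hc : CaseP 3 A B)
    (h8 : (3 : ℤ) ∣ B ^ 2 + 4 * A - 1) (hF : LatFacts A B)
    {P Q : Ideal (OO A B)} {V : ValuationSubring ℂ} (hP : IsPN 3 P) (hQ : IsPN 3 Q) (hPQ : P ≠ Q)
    (hV : Above3 P V) : ∀ (j : ℕ) (b : Ideal (OO A B)) (L : PeriodPair) (om u : ℂ), IsNL b L om →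
      Tor (P ^ (j + 1)) L u → ¬ Tor (P ^ j) L u →
      V.valuation (xn L u) ^ (3 ^ j) * V.valuation 3 = 1 := by
  have h0 : V.valuation 3 ≠ 0 := by simp
  intro j
  induction j with
  | zero =>
    intro b L om u hL hT hT'
    have g := (h2 A B hc h8 hF P Q V hP hQ hPQ hV b L om hL).2.2.1 u
      (fun hu => hT' (tor_lat hc.toCQ hL hu _)) (by simpa using hT)
    simpa using g.2.1
  | succ j ih =>
    intro b L om u hL hT hT'
    obtain ⟨-, -, N, mu, w, -, -, hN0, hNL, hIQ, hTwo, hTor, -, -, -, -⟩ :=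
      h5 A B hc h8 hF P hP b L om hL
    obtain ⟨b1, om1, hN1⟩ := hNL 1
    have t0 := hTwo 0
    have i0 := hIQ 0
    have r0 := hTor 0
    rw [hN0] at t0 i0 r0
    have hs := ((h2 A B hc h8 hF P Q V hP hQ hPQ hV b L om hL).2.2.1 (w 0) t0.u_ne r0).1
    have hT1 : Tor (P ^ (j + 1)) (N 1) (mu 0 * u) := by
      intro x hx
      have e1 : emb x * (mu 0 * u) = mu 0 * (emb x * u) := by ring
      rw [e1, i0.2]
      intro y hy
      rw [← mul_assoc, ← _root_.Pool.Agent.MUX2.E12.emb_mul hc.toCQ]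
      refine hT _ ?_
      rw [pow_succ']
      exact Ideal.mul_mem_mul hy hx
    have hT1' : ¬ Tor (P ^ j) (N 1) (mu 0 * u) := by
      intro hh
      apply hT'
      rw [pow_succ']
      refine tor_mul hc.toCQ fun x hx y hy => ?_
      have e1 := hh y hy
      have e2 : emb y * (mu 0 * u) = mu 0 * (emb y * u) := by ring
      rw [e2, i0.2] at e1
      have e3 := e1 x hx
      rwa [← mul_assoc, ← _root_.Pool.Agent.MUX2.E12.emb_mul hc.toCQ] at e3
    have hu1 : mu 0 * u ∉ (N 1).lattice := by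
      intro hh
      rw [i0.2] at hh
      exact hT' (tor_le (Ideal.pow_le_self (Nat.succ_ne_zero j)) hh)
    have g := ih b1 (N 1) om1 (mu 0 * u) hN1 hT1 hT1'
    have hX : 1 < V.valuation (xn (N 1) (mu 0 * u)) := by
      by_contra hh
      rw [not_lt] at hh
      have e1 := mul_le_of_le_one_left (a := V.valuation (xn (N 1) (mu 0 * u)) ^ 3 ^ j)
        (b := V.valuation 3) zero_le (pow_le_one₀ zero_le hh)
      rw [g] at e1
      exact absurd hV.three (not_lt.2 e1)
    have hX2 : V.valuation (xn (N 1) (mu 0 * u)) * V.valuation 3 ≤ 1 := by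
      rw [← g]
      refine mul_le_mul_left ?_ _
      exact le_self_pow₀ hX.le (by positivity)
    have hk := step h1 h1' t0 hL.nrm hN1.nrm V hV.three hs hu1 hX hX2
    rw [pow_succ', pow_mul, hk]
    exact g

end

end E13

/-- the module E13 -/
theorem t3_E13 (h1 : S3_GD3) (h2 : S3_NRM) (h3 : S3_PAR) (h4 : S2_GR2) (h5 : S2_IT2)
    (h6 : S3_CH3) : S3_E13 := by
  intro A B hc h8 hF P Q V hP hQ hPQ hV b L om hL
  obtain ⟨g1, g2, -, g4, -, -⟩ := h1 A B hc h8 hF P Q V hP hQ hPQ hV b L om hL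
  exact ⟨fun j u => E13.part1 h2 h3 h1 h6 hc h8 hF hP hQ hPQ hV j b L om u hL,
    fun m u hm hco hT hK => E13.part2 h4 h5 hc.toCQ h8 hP hQ hPQ hV hL g1 g2 g4 hm hco hT hK⟩

end

end Pool.Agent.MUX3


end

section

/-!
# MUX, block R3, module NRM (helper83): normalised lattices and points of order three
-/

set_option autoImplicit false

namespace Pool.Agent.MUX3

open _root_.MU3 _root_.Pool.Agent.MU3A _root_.Pool.Agent.MU3B _root_.Pool.Agent.MUX _root_.Pool.Agent.MUXU _root_.Pool.Agent.MUX2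
open WeierstrassCurve

noncomputable section

theorem t3_NRM (h1 : S3_VEL) (h2 : S3_PAR) : S3_NRM := by
  intro L M mu u hT hL hM
  obtain ⟨hs, hq, hs3, hs27, hk, hx, hkap⟩ := h2 L u hT.u_ne hT.u3 hL
  obtain ⟨-, hg2, hg3, hg2n, -⟩ := nrm_kap L hL
  obtain ⟨-, -, -, hM2, hM3⟩ := nrm_kap M hM
  obtain ⟨hv2, hv3, hv⟩ := h1 L M mu u hT
  have hmu := hT.mu_ne
  obtain ⟨s, hsd⟩ : ∃ s, s = par3 L u := ⟨_, rfl⟩
  obtain ⟨q, hqd⟩ : ∃ q, q = q3 s := ⟨_, rfl⟩
  obtain ⟨r, hrd⟩ : ∃ r, r = r3 s := ⟨_, rfl⟩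
  rw [← hsd] at hs hq hs3 hs27 hx hkap
  rw [← hqd] at hq hx hkap
  have hqe : q = s ^ 2 + 18 * s - 27 := hqd
  have hre : r = s ^ 2 - 486 * s - 19683 := hrd
  have he : L.weierstrassP u = (s + 3) * (s + 27) / (12 * q) := by
    have h0 : L.weierstrassP u = xn L u + 1 / 12 := by
      unfold xn
      ring
    rw [h0, hx]
    field_simp
    rw [hqe]
    ring
  have hg : L.g₂ = (s + 27) * (s + 3) ^ 3 / (12 * q ^ 2) := by
    rw [hg2, hkap]
    field_simp
    rw [hqe]
    ring
  have hgg : L.g₃ = -((s + 27) * (s + 3) ^ 3) / (216 * q ^ 2) := by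
    have h0 : L.g₃ = -L.g₂ / 18 := by
      rw [hL]
      ring
    rw [h0, hg]
    field_simp
    ring
  have hA : mu ^ 4 * M.g₂ = (s + 3) ^ 2 * (s + 27) * (s + 243) / (12 * q ^ 2) := by
    rw [hv2, he, hg]
    field_simp
    ring
  have hB : mu ^ 6 * M.g₃ = -((s + 3) ^ 3 * (s + 27) * r) / (216 * q ^ 3) := by
    rw [hv3, he, hg, hgg]
    field_simp
    rw [hqe, hre]
    ring
  have hs243 : s + 243 ≠ 0 := by
    intro h0
    apply mul_ne_zero (pow_ne_zero 4 hmu) hM2
    rw [hA, h0]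
    simp
  have hr : r ≠ 0 := by
    intro h0
    apply mul_ne_zero (pow_ne_zero 6 hmu) hM3
    rw [hB, h0]
    simp
  have hmu2 : mu ^ 2 = (s + 3) * r / ((s + 243) * q) := by
    have h5 : mu ^ 2 * (mu ^ 4 * M.g₂) = -18 * (mu ^ 6 * M.g₃) := by
      rw [hM]
      ring
    rw [hA, hB] at h5
    have h6 : (s + 3) ^ 2 * (s + 27) * (s + 243) / (12 * q ^ 2) ≠ 0 :=
      div_ne_zero (mul_ne_zero (mul_ne_zero (pow_ne_zero 2 hs3) hs27) hs243)
        (mul_ne_zero (by norm_num) (pow_ne_zero 2 hq))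
    apply mul_right_cancel₀ h6
    rw [h5]
    field_simp
    ring
  have hM2' : M.g₂ = (s + 27) * (s + 243) ^ 3 / (12 * r ^ 2) := by
    have h7 : (mu ^ 2) ^ 2 * M.g₂ = mu ^ 4 * M.g₂ := by ring
    rw [hA, hmu2] at h7
    have h8 : ((s + 3) * r / ((s + 243) * q)) ^ 2 ≠ 0 :=
      pow_ne_zero 2 (div_ne_zero (mul_ne_zero hs3 hr) (mul_ne_zero hs243 hq))
    apply mul_left_cancel₀ h8
    rw [h7]
    field_simp
  rw [← hsd, ← hrd, ← hqd]
  refine ⟨hs243, hr, ?_, hmu2, fun z hz => ?_⟩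
  · unfold kap
    rw [hM2']
    field_simp
    rw [hre]
    ring
  · obtain ⟨hne, hp, -⟩ := hv z hz
    have h9 : xn L z - xn L u = L.weierstrassP z - L.weierstrassP u := by
      unfold xn
      ring
    have ht : 6 * L.weierstrassP u ^ 2 - L.g₂ / 2 = (s + 3) ^ 2 * (s + 27) / q ^ 2 := by
      rw [he, hg]
      field_simp
      ring
    have hw : 4 * L.weierstrassP u ^ 3 - L.g₂ * L.weierstrassP u - L.g₃ =
        (s + 3) ^ 3 * (s + 27) / q ^ 3 := by
      rw [he, hg, hgg]
      field_simp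
      rw [hqe]
      ring
    refine ⟨by rw [h9]; exact hne, ?_⟩
    rw [h9, ← ht, ← hw]
    have h10 : mu ^ 2 * xn M (mu * z) = mu ^ 2 * M.weierstrassP (mu * z) - mu ^ 2 / 12 := by
      unfold xn
      ring
    rw [h10, hp]
    unfold xn
    ring

end

end Pool.Agent.MUX3


end

section

/-!
# MUX, block R2, module GR2: the model with good reduction at 2 (helper46)

Model: `Pool/Agent/MUX/U_XIL.lean` (helper95).
-/

set_option autoImplicit false

namespace Pool.Agent.MUX2

open _root_.MU3 _root_.Pool.Agent.MU3A _root_.Pool.Agent.MU3B _root_.Pool.Agent.MUX _root_.Pool.Agent.MUXU WeierstrassCurve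

noncomputable section

namespace GR2

open WeierstrassCurve.Affine

theorem some_eq {W : WeierstrassCurve.Affine ℂ} {x y x' y' : ℂ} (h : W.Nonsingular x y)
    (h' : W.Nonsingular x' y') (hx : x = x') (hy : y = y') :
    Point.some x y h = Point.some x' y' h' := by
  subst hx hy
  rfl

/-- the homomorphism -/
theorem hom (L : PeriodPair) (hL : L.g₂ = -18 * L.g₃) :
    ∃ ξ : ℂ →+ (W2 (kap L)).Point,
      (∀ z ∉ L.lattice, ∃ h, ξ z = Point.some (xn L z) (y2 L z) h) ∧
      ∀ z ∈ L.lattice, ξ z = 0 := by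
  classical
  set P : ℂ → ℂ := L.weierstrassP with hP
  set D : ℂ → ℂ := L.derivWeierstrassP with hD
  set X : ℂ → ℂ := fun z => P z - 1 / 12 with hX0
  set Y : ℂ → ℂ := fun z => D z / 2 - (P z - 1 / 12) / 2 with hY0
  have hXe : ∀ z, X z = P z - 1 / 12 := fun _ => rfl
  have hYe : ∀ z, Y z = D z / 2 - (P z - 1 / 12) / 2 := fun _ => rfl
  have hXn : ∀ z, xn L z = X z := fun _ => rfl
  have hYn : ∀ z, y2 L z = Y z := fun _ => rfl
  set W : WeierstrassCurve.Affine ℂ := W2 (kap L) with hW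
  have hk : kap L = (12 * L.g₂ - 1) / 1728 := rfl
  have hg3 : L.g₃ = -L.g₂ / 18 := by linear_combination (1 / 18) * hL
  have w1 : W.a₁ = 1 := rfl
  have w2 : W.a₂ = 0 := rfl
  have w3 : W.a₃ = 0 := rfl
  have w4 : W.a₄ = -36 * ((12 * L.g₂ - 1) / 1728) := rfl
  have w6 : W.a₆ = -((12 * L.g₂ - 1) / 1728) := rfl
  -- the facts
  have hsq : ∀ z, z ∉ L.lattice → D z ^ 2 = 4 * P z ^ 3 - L.g₂ * P z + L.g₂ / 18 := by
    intro z hz
    have h := L.derivWeierstrassP_sq z hz
    rw [hg3] at h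
    linear_combination h
  have hpar : ∀ z, P (-z) = P z ∧ D (-z) = -D z := fun z =>
    ⟨L.weierstrassP_neg z, L.derivWeierstrassP_neg z⟩
  have hper : ∀ z, ∀ u ∈ L.lattice, P (z + u) = P z ∧ D (z + u) = D z := by
    intro z u hu
    exact ⟨L.weierstrassP_add_coe z ⟨u, hu⟩, L.derivWeierstrassP_add_coe z ⟨u, hu⟩⟩
  have hinj : ∀ z z', z ∉ L.lattice → z' ∉ L.lattice → P z = P z' →
      z - z' ∈ L.lattice ∨ z + z' ∈ L.lattice := fun z z' hz hz' hx =>
    b_NEQ L z' z hz' hz hx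
  have hy0 : ∀ z, z ∉ L.lattice → (D z = 0 ↔ 2 * z ∈ L.lattice) := fun z hz => b_ZER L z hz
  have hadd := b_ADD L
  have hdbl := b_DUP L
  have ns : ∀ z, z ∉ L.lattice → W.Nonsingular (X z) (Y z) := by
    intro z hz
    rw [WeierstrassCurve.Affine.nonsingular_iff', WeierstrassCurve.Affine.equation_iff, w1, w2, w3,
      w4, w6, hXe, hYe]
    refine ⟨by linear_combination (1 / 4) * hsq z hz, ?_⟩
    by_contra hcon
    rw [not_or, not_not, not_not] at hcon
    obtain ⟨hx, hy⟩ := hcon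
    have h1 := hsq z hz
    have h2 : D z = 0 := by linear_combination hy
    rw [h2] at h1 hx
    have e2 : L.g₂ = 12 * P z ^ 2 := by linear_combination 4 * hx
    have e3 : L.g₃ = -8 * P z ^ 3 := by
      rw [hg3]
      linear_combination h1 - P z * e2
    apply (b_DSC L).1
    rw [e2, e3]
    ring
  set f : ℂ → W.Point := fun z => if h : z ∈ L.lattice then 0 else Point.some _ _ (ns z h) with hf
  have hf0 : ∀ z, z ∈ L.lattice → f z = 0 := fun z hz => dif_pos hz
  have hf1 : ∀ z (hz : z ∉ L.lattice), f z = Point.some _ _ (ns z hz) := fun z hz => dif_neg hz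
  have hfper : ∀ z, ∀ u ∈ L.lattice, f (z + u) = f z := by
    intro z u hu
    by_cases hz : z ∈ L.lattice
    · rw [hf0 z hz, hf0 _ (add_mem hz hu)]
    · have hzu : z + u ∉ L.lattice := fun h => hz (by
        have := sub_mem h hu
        rwa [add_sub_cancel_right] at this)
      rw [hf1 z hz, hf1 _ hzu]
      exact some_eq _ _ (by rw [hXe, hXe, (hper z u hu).1])
        (by rw [hYe, hYe, (hper z u hu).1, (hper z u hu).2])
  have hnegY : ∀ x y : ℂ, W.negY x y = -y - x := by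
    intro x y
    rw [WeierstrassCurve.Affine.negY, w1, w3]
    ring
  have hmap : ∀ z z', f (z + z') = f z + f z' := by
    intro z z'
    by_cases hz : z ∈ L.lattice
    · rw [hf0 z hz, zero_add, add_comm z z', hfper z' z hz]
    by_cases hz' : z' ∈ L.lattice
    · rw [hf0 z' hz', add_zero, hfper z z' hz']
    by_cases hzz : z + z' ∈ L.lattice
    · rw [hf0 _ hzz, hf1 z hz, hf1 z' hz']
      have e : z = -z' + (z + z') := by ring
      have hx : P z = P z' := by
        rw [e, (hper (-z') _ hzz).1, (hpar z').1]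
      have hy : D z = -D z' := by
        rw [e, (hper (-z') _ hzz).2, (hpar z').2]
      exact (Point.add_of_Y_eq (by rw [hXe, hXe, hx])
        (by rw [hnegY, hYe, hYe, hXe, hx, hy]; ring)).symm
    by_cases hzd : z - z' ∈ L.lattice
    · have e1 : f z' = f z := by
        have := hfper z' _ hzd
        rw [← this]
        congr 1
        ring
      have e2 : f (z + z') = f (2 * z) := by
        have := hfper (z + z') _ hzd
        rw [← this]
        congr 1
        ring
      have h2z : 2 * z ∉ L.lattice := by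
        intro h
        apply hzz
        have := sub_mem h hzd
        have e : z + z' = 2 * z - (z - z') := by ring
        rwa [e]
      have hy : D z ≠ 0 := fun h => h2z ((hy0 z hz).1 h)
      have hyne : Y z ≠ W.negY (X z) (Y z) := by
        rw [hnegY, hYe, hXe]
        intro h0
        apply hy
        linear_combination h0
      rw [e1, e2, hf1 z hz, hf1 _ h2z, Point.add_self_of_Y_ne hyne]
      have hsl : W.slope (X z) (X z) (Y z) (Y z) =
          (6 * P z ^ 2 - L.g₂ / 2) / (2 * D z) - 1 / 2 := by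
        rw [WeierstrassCurve.Affine.slope_of_Y_ne rfl hyne, hnegY, w1, w2, w4]
        have h3 : Y z - (-Y z - X z) = D z := by rw [hYe, hXe]; ring
        rw [h3, hYe, hXe]
        field_simp
        ring
      obtain ⟨hd1, hd2⟩ := hdbl z h2z
      have hX : W.addX (X z) (X z)
          (W.slope (X z) (X z) (Y z) (Y z)) = X (2 * z) := by
        rw [WeierstrassCurve.Affine.addX, hsl, w1, w2, hXe, hXe]
        linear_combination -hd1
      apply some_eq
      · exact hX.symm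
      · rw [WeierstrassCurve.Affine.addY, WeierstrassCurve.Affine.negAddY, hnegY, hX, hsl]
        rw [hYe, hYe, hXe, hXe]
        linear_combination (1 / 2) * hd2
    · have hxne : X z ≠ X z' := by
        intro h
        have h' : P z = P z' := by
          rw [hXe, hXe] at h
          linear_combination h
        rcases hinj z z' hz hz' h' with h3 | h3
        · exact hzd h3
        · exact hzz h3
      rw [hf1 z hz, hf1 z' hz', hf1 _ hzz, Point.add_of_X_ne hxne]
      have hsl : W.slope (X z) (X z') (Y z) (Y z') =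
          (D z - D z') / (2 * (P z - P z')) - 1 / 2 := by
        rw [WeierstrassCurve.Affine.slope_of_X_ne hxne]
        have h3 : X z - X z' = P z - P z' := by rw [hXe, hXe]; ring
        have h4 : P z - P z' ≠ 0 := by
          rw [← h3]
          exact sub_ne_zero.2 hxne
        rw [h3, hYe, hYe]
        field_simp
        ring
      obtain ⟨ha1, ha2⟩ := hadd z' z hz' hz hzz hzd
      have hX : W.addX (X z) (X z')
          (W.slope (X z) (X z') (Y z) (Y z')) = X (z + z') := by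
        rw [WeierstrassCurve.Affine.addX, hsl, w1, w2, hXe, hXe, hXe]
        linear_combination -ha1
      apply some_eq
      · exact hX.symm
      · rw [WeierstrassCurve.Affine.addY, WeierstrassCurve.Affine.negAddY, hnegY, hX, hsl]
        rw [hYe, hYe, hXe, hXe]
        linear_combination (1 / 2) * ha2
  refine ⟨⟨⟨f, hf0 0 L.lattice.zero_mem⟩, hmap⟩, ?_, ?_⟩
  · intro z hz
    exact ⟨ns z hz, hf1 z hz⟩
  · exact fun z hz => hf0 z hz

theorem disc (k : ℂ) : (W2 k).Δ = k * (1 + 1728 * k) ^ 2 := by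
  have w1 : (W2 k).a₁ = 1 := rfl
  have w2 : (W2 k).a₂ = 0 := rfl
  have w3 : (W2 k).a₃ = 0 := rfl
  have w4 : (W2 k).a₄ = -36 * k := rfl
  have w6 : (W2 k).a₆ = -k := rfl
  rw [WeierstrassCurve.Δ, WeierstrassCurve.b₂, WeierstrassCurve.b₄, WeierstrassCurve.b₆,
    WeierstrassCurve.b₈, w1, w2, w3, w4, w6]
  ring

end GR2

theorem t2_GR2 : S2_GR2 := by
  intro V L hL h1 h2
  obtain ⟨ξ, hs, h0⟩ := GR2.hom L hL
  refine ⟨ξ, ?_, ?_, hs, h0⟩
  · refine ⟨?_, ?_, ?_, ?_, ?_⟩
    · show V.valuation 1 ≤ 1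
      rw [map_one]
    · show V.valuation 0 ≤ 1
      rw [map_zero]
      exact zero_le_one
    · show V.valuation 0 ≤ 1
      rw [map_zero]
      exact zero_le_one
    · show V.valuation (-36 * kap L) ≤ 1
      rw [map_mul, h1, mul_one]
      have h3 : (-36 : ℂ) ∈ V := by
        have h4 : ((-36 : ℤ) : ℂ) ∈ V := intCast_mem V (-36)
        exact_mod_cast h4
      exact (V.valuation_le_one_iff _).2 h3
    · show V.valuation (-kap L) ≤ 1
      rw [Valuation.map_neg, h1]
  · rw [GR2.disc, map_mul, map_pow, h1, h2, one_pow, one_mul]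

end

end Pool.Agent.MUX2


end
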