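import Mathlib
import Pool.Agent.MVF.C008
import Pool.Agent.MVF.C014
import Pool.Agent.MVF.C021
import Pool.Agent.MVF.C025
import Pool.Agent.MVF.C031
import Pool.Agent.MVF.C033
import Pool.Agent.MVF.C037
import Pool.Agent.MVF.C038
import Pool.Agent.MVF.C042
import Pool.Agent.MVF.C066

/-! Parts: NS.RN_UNQ, MUX.Y_EE, ME.StHE, MU3.I_IRES, MUX.J_RES, MUX.K_GALX, MUX.J_SUB, MUX.J_GAL, MUX.W_SUC, MUX.W_CXW, MUX.R3_MU3, MUX.R2_CHN -/

namespace Pool.Agent.MUX2.ChnV2
end Pool.Agent.MUX2.ChnV2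
namespace Pool.Agent.MUXW.CXW
end Pool.Agent.MUXW.CXW
namespace Pool.Agent.MUXW.SUC
end Pool.Agent.MUXW.SUC
namespace Pool.Agent.NSR.UNQ
end Pool.Agent.NSR.UNQ

section

/-!
# MUX-NS, block RN: an automorphism in the inertia group fixes `lam` (UNQ)
-/

set_option autoImplicit false

open WeierstrassCurve Polynomial

namespace Pool.Agent.NSR

open _root_.MU3 _root_.Pool.Agent.MU3A _root_.Pool.Agent.MU3B _root_.Pool.Agent.RI _root_.Pool.Agent.MUX _root_.Pool.Agent.MUXU
open _root_.Pool.Agent.MUXV (GR InK tX)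
open _root_.Pool.Agent.NS

noncomputable section

namespace UNQ

theorem per (L : PeriodPair) {z w : ℂ} (h : w - z ∈ L.lattice) :
    L.weierstrassP w = L.weierstrassP z ∧ L.derivWeierstrassP w = L.derivWeierstrassP z := by
  have e : w = z + ((⟨w - z, h⟩ : L.lattice) : ℂ) := by
    change w = z + (w - z)
    ring
  rw [e, PeriodPair.weierstrassP_add_coe, PeriodPair.derivWeierstrassP_add_coe]
  exact ⟨rfl, rfl⟩

theorem al_eq (A B : ℤ) : al A B = 1 + 2 * wC A B := by
  simp [al, alO, emb]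

/-- natural numbers have valuation at most one -/
theorem v_nat (V : ValuationSubring ℂ) (n : ℕ) : V.valuation (n : ℂ) ≤ 1 := by
  rw [ValuationSubring.valuation_le_one_iff]
  exact natCast_mem V n

/-- the exact order of a point killed by `N` -/
theorem order (L : PeriodPair) (V : ValuationSubring ℂ) {N : ℕ} (hN : Odd N)
    (vN : V.valuation (N : ℂ) = 1) {q : ℂ} (hq : q ∉ L.lattice) (hNq : (N : ℂ) * q ∈ L.lattice) :
    ∃ n : ℕ, Odd n ∧ 1 < n ∧ V.valuation (n : ℂ) = 1 ∧ (n : ℂ) * q ∈ L.lattice ∧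
      ∀ k : ℕ, 0 < k → k < n → (k : ℂ) * q ∉ L.lattice := by
  classical
  have hN0 : 0 < N := hN.pos
  have hex : ∃ n : ℕ, 0 < n ∧ (n : ℂ) * q ∈ L.lattice := ⟨N, hN0, hNq⟩
  obtain ⟨h1, h2⟩ := Nat.find_spec hex
  have h3 : ∀ k : ℕ, 0 < k → k < Nat.find hex → (k : ℂ) * q ∉ L.lattice :=
    fun k hk0 hk hkq => Nat.find_min hex hk ⟨hk0, hkq⟩
  set n := Nat.find hex with hn
  -- `n` divides `N`
  have hdvd : n ∣ N := by
    by_contra hnd
    have h4 : 0 < N % n := Nat.pos_of_ne_zero fun h5 => hnd (Nat.dvd_of_mod_eq_zero h5)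
    refine h3 (N % n) h4 (Nat.mod_lt _ h1) ?_
    have h5 : ((N % n : ℕ) : ℂ) * q = (N : ℂ) * q - (N / n : ℕ) • ((n : ℂ) * q) := by
      have h6 : ((N : ℕ) : ℂ) = (n : ℂ) * (N / n : ℕ) + (N % n : ℕ) := by
        exact_mod_cast (Nat.div_add_mod N n).symm
      rw [nsmul_eq_mul, h6]
      ring
    rw [h5]
    exact sub_mem hNq (nsmul_mem h2 _)
  refine ⟨n, ?_, ?_, ?_, h2, h3⟩
  · exact Odd.of_dvd_nat hN hdvd
  · by_contra hc
    have h4 : n = 1 := by omega
    rw [h4, Nat.cast_one, one_mul] at h2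
    exact hq h2
  · obtain ⟨m, hm⟩ := hdvd
    have h4 : V.valuation (n : ℂ) * V.valuation (m : ℂ) = 1 := by
      rw [← map_mul, ← Nat.cast_mul, ← hm, vN]
    refine le_antisymm (v_nat V n) ?_
    calc (1 : V.ValueGroup) = V.valuation (n : ℂ) * V.valuation (m : ℂ) := h4.symm
      _ ≤ V.valuation (n : ℂ) * 1 := mul_le_mul_right (v_nat V m) _
      _ = V.valuation (n : ℂ) := mul_one _

end UNQ

open _root_.Pool.Agent.NSR.UNQ in
/-- (UNQ) the hypotheses `Su_` are the theorems `u_` of `MUX/UAll.lean` -/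
theorem tr_UNQ (h1 : Sr_LGF) (h2 : Sr_RED) (h3 : Sr_TOR) (h4 : Sr_TWO) (h5 : Sr_CMI)
    (h6 : Sr_CLO) (u1 : Su_BAC) (u2 : Su_CJE) (u3 : Su_PHI) (u4 : Su_TSN) : Sr_UNQ := by
  intro A B V N hC b L om hL u e lam hLeg hlamV σ hσ hσlam hX
  obtain ⟨-, -, -, -, -, ⟨w, hw, h2w, hPw⟩, -⟩ := h1 L u e lam hLeg
  obtain ⟨-, vlam1, vlam, -⟩ := h2 A B V N hC b L om hL u e lam hLeg hlamV
  have hcm : HasCM A B L := hL.hasCM hC.cq
  -- the conjugate lattice
  obtain ⟨L', hcj⟩ := u2 σ L
  obtain ⟨Φ, hΦ⟩ := u3 σ L L' hcj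
  obtain ⟨tsn, -⟩ := u4 σ L L' Φ hcj hΦ
  have hσ2 : σ 2 = 2 := map_ofNat σ 2
  have hσu : σ u ≠ 0 := by
    rw [Ne, map_eq_zero_iff σ σ.injective]
    exact hLeg.u0
  have hxu : ∀ z, z ∉ L.lattice → xu L' (σ u) (σ e) (Φ z) = σ (xu L u e z) := by
    intro z hz
    unfold xu
    rw [hΦ.P z hz, map_div₀, map_sub, map_pow]
  have hyu : ∀ z, z ∉ L.lattice → yu L' (σ u) (Φ z) = σ (yu L u z) := by
    intro z hz
    unfold yu
    rw [hΦ.P' z hz, map_div₀, map_mul, map_pow, hσ2]
  have hLeg' : Leg L' (σ u) (σ e) (σ lam) := by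
    refine ⟨hσu, fun z' hz' => ?_⟩
    obtain ⟨z, hz⟩ := hΦ.surj z'
    have hzL : z ∉ L.lattice := by
      intro h7
      apply hz'
      have h8 := sub_mem ((hΦ.mem z).2 h7) hz
      rwa [sub_sub_cancel] at h8
    obtain ⟨e1, e2⟩ := per L' hz
    rw [← e1, ← e2]
    have h8 := hxu z hzL
    have h9 := hyu z hzL
    unfold xu at h8
    unfold yu at h9
    rw [h8, h9]
    have h10 := congrArg σ (hLeg.eq z hzL)
    rw [map_pow, map_mul, map_mul, map_sub, map_sub, map_one] at h10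
    exact h10
  by_contra hne
  set δ : ℂ := σ lam - lam with hδ
  have hδ0 : δ ≠ 0 := sub_ne_zero.2 hne
  have hvδ : V.valuation δ ≠ 0 := by
    rw [Ne, map_eq_zero]
    exact hδ0
  -- the multiplier `α`
  have hN1 := hC.one
  have hal0 : al A B ≠ 0 := by
    intro h0
    have h7 := hC.nrm
    rw [h0, mul_zero] at h7
    have h8 : N = 0 := by exact_mod_cast h7
    omega
  have hisg : Isg L L (al A B) := fun z hz => hcm (alO A B) z hz
  obtain ⟨⟨R, hR⟩, -⟩ := u1.2 L L (al A B) hal0 hisg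
  have hNal : ∀ z, al A B * z ∈ L.lattice → (N : ℂ) * z ∈ L.lattice := by
    intro z hz
    have h7 := hcm (alO' A B) _ hz
    rwa [← mul_assoc, ← hC.nrm] at h7
  have hσal : σ (al A B) = al A B := by
    rw [al_eq, map_add, map_mul, map_one, hσ2]
    have h7 : σ (wC A B) = wC A B := hσ
    rw [h7]
  -- the points `q`
  have hXq : ∀ q ∈ R, V.valuation (xu L u e q) ≤ 1 := fun q hq =>
    (h3 V L u e lam hC.v2 hlamV hLeg N hC.vN q (hR.ne q hq) (hNal q (hR.mem q hq))).1
  have hwN : ∀ q ∈ R, q + w ∉ L.lattice := by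
    intro q hq hqw
    have h7 := sub_mem (hisg _ hqw) (hR.mem q hq)
    rw [mul_add, add_sub_cancel_left] at h7
    have h8 := hNal w h7
    obtain ⟨k, hk⟩ := hC.odd
    apply hw
    have h9 : w = (N : ℂ) * w - k • (2 * w) := by
      rw [hk, nsmul_eq_mul]
      push_cast
      ring
    rw [h9]
    exact sub_mem h8 (nsmul_mem h2w k)
  have hXqw : ∀ q ∈ R, V.valuation (xu L u e (q + w)) ≤ 1 := by
    intro q hq
    have hv : V.valuation ((2 * N : ℕ) : ℂ) = 1 := by
      push_cast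
      rw [map_mul, hC.v2, hC.vN, one_mul]
    refine (h3 V L u e lam hC.v2 hlamV hLeg (2 * N) hv (q + w) (hwN q hq) ?_).1
    have h7 : ((2 * N : ℕ) : ℂ) * (q + w) = 2 • ((N : ℂ) * q) + N • (2 * w) := by
      rw [nsmul_eq_mul, nsmul_eq_mul]
      push_cast
      ring
    rw [h7]
    exact add_mem (nsmul_mem (hNal q (hR.mem q hq)) 2) (nsmul_mem h2w N)
  have hprod : ∀ q ∈ R, xu L u e (q + w) * xu L u e q = lam := fun q hq =>
    h4 L u e lam w hLeg hw h2w hPw q (hR.ne q hq) (hwN q hq)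
  have hvq : ∀ q ∈ R, V.valuation (xu L u e q) = 1 ∧ V.valuation (xu L u e (q + w)) = 1 := by
    intro q hq
    have h7 := congrArg V.valuation (hprod q hq)
    rw [map_mul, vlam] at h7
    constructor
    · refine le_antisymm (hXq q hq) ?_
      calc (1 : V.ValueGroup) = V.valuation (xu L u e (q + w)) * V.valuation (xu L u e q) := h7.symm
        _ ≤ 1 * V.valuation (xu L u e q) := mul_le_mul_left (hXqw q hq) _
        _ = V.valuation (xu L u e q) := one_mul _
    · refine le_antisymm (hXqw q hq) ?_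
      calc (1 : V.ValueGroup) = V.valuation (xu L u e (q + w)) * V.valuation (xu L u e q) := h7.symm
        _ ≤ V.valuation (xu L u e (q + w)) * 1 := mul_le_mul_right (hXq q hq) _
        _ = V.valuation (xu L u e (q + w)) := mul_one _
  -- (CLO)
  have hclo : ∀ q ∈ R, V.valuation (σ (xu L u e q) - xu L u e q) ≤ V.valuation δ := by
    intro q hq
    have hqL := hR.ne q hq
    have hNq := hNal q (hR.mem q hq)
    obtain ⟨n, n1, n2, n3, n4, n5⟩ := order L V hC.odd hC.vN hqL hNq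
    have htsn : ∀ k : ℕ, (k : ℂ) * Φ q ∈ L'.lattice ↔ (k : ℂ) * q ∈ L.lattice := by
      intro k
      have h7 := tsn (k : ℤ) q
      rwa [Int.cast_natCast] at h7
    obtain ⟨x1, x2⟩ := hX q hqL hNq
    have h7 := h6 V L L' u e lam (σ u) (σ e) (σ lam) hC.v2 hLeg hLeg' vlam1 hσlam n n1 n2 n3 q
      (Φ q) (fun k k1 k2 => ⟨n5 k k1 k2, fun h8 => n5 k k1 k2 ((htsn k).1 h8)⟩) n4
      ((htsn n).2 n4) (by rw [hxu q hqL]; exact x1) (by rw [hyu q hqL]; exact x2)
    rwa [hxu q hqL] at h7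
  -- the translated points
  have hclo2 : ∀ q ∈ R, V.valuation (σ (xu L u e (q + w)) - xu L u e (q + w)) ≤
      V.valuation δ := by
    intro q hq
    obtain ⟨x1, -⟩ := hX q (hR.ne q hq) (hNal q (hR.mem q hq))
    obtain ⟨v1, v2⟩ := hvq q hq
    have v3 : V.valuation (σ (xu L u e q)) = 1 := by
      have e7 : σ (xu L u e q) = (σ (xu L u e q) - xu L u e q) + xu L u e q := by ring
      rw [e7, Valuation.map_add_eq_of_lt_right, v1]
      rw [v1]
      exact x1
    have p1 := hprod q hq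
    have p2 := congrArg σ p1
    rw [map_mul] at p2
    have h7 : (σ (xu L u e (q + w)) - xu L u e (q + w)) * σ (xu L u e q) =
        δ - xu L u e (q + w) * (σ (xu L u e q) - xu L u e q) := by
      rw [hδ, ← p2, ← p1]
      ring
    have h8 := congrArg V.valuation h7
    rw [map_mul, v3, mul_one] at h8
    rw [h8]
    refine le_trans (V.valuation.map_sub _ _) (max_le le_rfl ?_)
    rw [map_mul, v2, one_mul]
    exact hclo q hq
  -- (CMI) and its conjugate
  have hR' : IsReps L (al A B) R := ⟨hR.mem, hR.ne, hR.inj, hR.surj⟩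
  have c1 := h5 A B b L om hC.cq hL u e lam w hLeg hw h2w hPw R hR'
  have c2 := congrArg σ c1
  have hσ3 : σ 3 = 3 := map_ofNat σ 3
  rw [map_mul, map_add, map_one, map_sub, map_one, map_pow, hσal, map_mul, hσ3, map_sum] at c2
  have c3 : δ * (1 - al A B ^ 2) = 3 * ∑ q ∈ R, ((σ (xu L u e (w + q)) - xu L u e (w + q)) -
      (σ (xu L u e q) - xu L u e q)) := by
    have c4 : ∑ q ∈ R, ((σ (xu L u e (w + q)) - xu L u e (w + q)) -
        (σ (xu L u e q) - xu L u e q)) =
        ∑ q ∈ R, σ (xu L u e (w + q) - xu L u e q) - ∑ q ∈ R, (xu L u e (w + q) - xu L u e q) := by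
      rw [← Finset.sum_sub_distrib]
      refine Finset.sum_congr rfl fun q _ => ?_
      rw [map_sub]
      ring
    rw [c4, hδ]
    linear_combination c2 - c1
  have c5 : V.valuation (∑ q ∈ R, ((σ (xu L u e (w + q)) - xu L u e (w + q)) -
      (σ (xu L u e q) - xu L u e q))) ≤ V.valuation δ := by
    refine Valuation.map_sum_le _ fun q hq => ?_
    refine le_trans (V.valuation.map_sub _ _) (max_le ?_ (hclo q hq))
    rw [add_comm w q]
    exact hclo2 q hq
  have c6 := congrArg V.valuation c3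
  rw [map_mul, map_mul] at c6
  have c7 : V.valuation δ * V.valuation (1 - al A B ^ 2) ≤ V.valuation δ * V.valuation (3 : ℂ) := by
    rw [c6, mul_comm]
    exact mul_le_mul_left c5 _
  have hδpos : 0 < V.valuation δ := zero_lt_iff.2 hvδ
  have c8 : V.valuation (1 - al A B ^ 2) ≤ V.valuation (3 : ℂ) :=
    le_of_mul_le_mul_left c7 hδpos
  exact absurd hC.va (not_lt.2 c8)

end

end Pool.Agent.NSR


end

section

/-!
# MUX, section 9, module EE: conjugation of the values of `ee` at torsion points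
-/

set_option autoImplicit false

namespace Pool.Agent.MUXY

open _root_.MU3 _root_.Pool.Agent.MU3A _root_.Pool.Agent.MU3B _root_.Pool.Agent.MUXU OnePoint
open _root_.Pool.Agent.MU3F (ex)
open _root_.Pool.Agent.MUXF (Sx_ALG Sx_IDL Sx_NIM Sx_QB Sx_SMB Sx_F4 qb sumB)

noncomputable section

namespace EE

/-- integers act on the lattice -/
theorem lat_int (L : PeriodPair) (a : ℤ) {z : ℂ} (hz : z ∈ L.lattice) :
    (a : ℂ) * z ∈ L.lattice := by
  have h := zsmul_mem hz a
  rwa [zsmul_eq_mul] at h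

/-- differences: `Φ x - Φ y ≡ Φ (x - y)` -/
theorem phi_sub {σ : ℂ ≃+* ℂ} {L L' : PeriodPair} {Φ : ℂ → ℂ} (hΦ : IsPhi σ L L' Φ) (x y : ℂ)
    (h : Φ x - Φ y ∈ L'.lattice) : x - y ∈ L.lattice := by
  rw [← hΦ.mem]
  have h1 := hΦ.add (x - y) y
  rw [sub_add_cancel] at h1
  have e : Φ (x - y) = (Φ x - Φ y) - (Φ x - Φ (x - y) - Φ y) := by ring
  rw [e]
  exact sub_mem h h1

theorem phi_sub' {σ : ℂ ≃+* ℂ} {L L' : PeriodPair} {Φ : ℂ → ℂ} (hΦ : IsPhi σ L L' Φ) (x y : ℂ)
    (h : x - y ∈ L.lattice) : Φ x - Φ y ∈ L'.lattice := by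
  rw [← hΦ.mem] at h
  have h1 := hΦ.add (x - y) y
  rw [sub_add_cancel] at h1
  have e : Φ x - Φ y = Φ (x - y) + (Φ x - Φ (x - y) - Φ y) := by ring
  rw [e]
  exact add_mem h h1

theorem phi_add {σ : ℂ ≃+* ℂ} {L L' : PeriodPair} {Φ : ℂ → ℂ} (hΦ : IsPhi σ L L' Φ) (x y : ℂ)
    (h : Φ x + Φ y ∈ L'.lattice) : x + y ∈ L.lattice := by
  rw [← hΦ.mem]
  have h1 := hΦ.add x y
  have e : Φ (x + y) = (Φ (x + y) - Φ x - Φ y) + (Φ x + Φ y) := by ring
  rw [e]
  exact add_mem h1 h

theorem phi_add' {σ : ℂ ≃+* ℂ} {L L' : PeriodPair} {Φ : ℂ → ℂ} (hΦ : IsPhi σ L L' Φ) (x y : ℂ)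
    (h : x + y ∈ L.lattice) : Φ x + Φ y ∈ L'.lattice := by
  rw [← hΦ.mem] at h
  have h1 := hΦ.add x y
  have e : Φ x + Φ y = Φ (x + y) - (Φ (x + y) - Φ x - Φ y) := by ring
  rw [e]
  exact sub_mem h h1

/-- the image of a half system -/
theorem half_image (h2 : Su_TSN) {σ : ℂ ≃+* ℂ} {L L' : PeriodPair} (hL : IsCj σ L L') {Φ : ℂ → ℂ}
    (hΦ : IsPhi σ L L' Φ) (b : ℤ) (H : Finset ℂ) (hH : IsHalf L b H) :
    IsHalf L' b (H.image Φ) := by
  have hT := (h2 σ L L' Φ hL hΦ).1
  constructor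
  · intro q hq
    obtain ⟨p, hp, rfl⟩ := Finset.mem_image.1 hq
    exact (hT b p).2 (hH.mem p hp)
  · intro q hq
    obtain ⟨p, hp, rfl⟩ := Finset.mem_image.1 hq
    intro hcon
    apply hH.ne p hp
    have h3 := (hT 2 p).1 (by exact_mod_cast hcon)
    exact_mod_cast h3
  · intro q hq q' hq' hqq
    obtain ⟨p, hp, rfl⟩ := Finset.mem_image.1 hq
    obtain ⟨p', hp', rfl⟩ := Finset.mem_image.1 hq'
    rw [hH.inj p hp p' hp' (phi_sub hΦ p p' hqq)]
  · intro q hq q' hq' hqq
    obtain ⟨p, hp, rfl⟩ := Finset.mem_image.1 hq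
    obtain ⟨p', hp', rfl⟩ := Finset.mem_image.1 hq'
    exact hH.neg p hp p' hp' (phi_add hΦ p p' hqq)
  · intro u hu hu0
    obtain ⟨v, hv⟩ := hΦ.surj u
    have hbv : (b : ℂ) * v ∈ L.lattice := by
      rw [← hT b v]
      have e : (b : ℂ) * Φ v = (b : ℂ) * (Φ v - u) + (b : ℂ) * u := by ring
      rw [e]
      exact add_mem (lat_int L' b hv) hu
    have hv0 : v ∉ L.lattice := by
      rw [← hΦ.mem]
      intro hc
      apply hu0
      have e : u = Φ v - (Φ v - u) := by ring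
      rw [e]
      exact sub_mem hc hv
    obtain ⟨q, hq, h3⟩ := hH.surj v hbv hv0
    refine ⟨Φ q, Finset.mem_image_of_mem _ hq, ?_⟩
    rcases h3 with h3 | h3
    · left
      have h4 := phi_sub' hΦ v q h3
      have e : u - Φ q = (Φ v - Φ q) - (Φ v - u) := by ring
      rw [e]
      exact sub_mem h4 hv
    · right
      have h4 := phi_add' hΦ v q h3
      have e : u + Φ q = (Φ v + Φ q) - (Φ v - u) := by ring
      rw [e]
      exact sub_mem h4 hv

end EE

/-- EE. -/
theorem ty_EE (h1 : Su_PHI) (h2 : Su_TSN) (h3 : Su_EQP) : Sy_EE := by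
  classical
  intro σ L L' hL n z z' hn hnz hz hz' hP hP'
  obtain ⟨Φ, hΦ⟩ := h1 σ L L' hL
  have hT := (h2 σ L L' Φ hL hΦ).1
  obtain ⟨b, hb⟩ : ∃ b : ℤ, b = 1 + 2 * n := ⟨_, rfl⟩
  have hb0 : b ≠ 0 := by omega
  have hb1 : b ≠ 1 := by omega
  have hbc : (b : ℂ) = 1 + 2 * (n : ℂ) := by
    rw [hb]
    push_cast
    ring
  have hbz : ((b : ℂ) - 1) * z ∈ L.lattice := by
    have e : ((b : ℂ) - 1) * z = ((2 : ℤ) : ℂ) * ((n : ℂ) * z) := by
      rw [hbc]
      push_cast
      ring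
    rw [e]
    exact EE.lat_int L 2 hnz
  obtain ⟨H, hH⟩ := b_HAL L (b : ℂ) (by exact_mod_cast hb0) (fun w hw => EE.lat_int L b hw) (by
    intro y hy1 hy2
    have e : y = (b : ℂ) * y - (n : ℂ) * (2 * y) := by
      rw [hbc]
      ring
    rw [e]
    exact sub_mem hy1 (EE.lat_int L n hy2))
  have hH' := EE.half_image h2 hL hΦ b H hH
  have hp0 : ∀ p ∈ H, p ∉ L.lattice := by
    intro p hp hcon
    apply hH.ne p hp
    rw [two_mul]
    exact add_mem hcon hcon
  have hΦz : Φ z ∉ L'.lattice := fun hc => hz ((hΦ.mem z).1 hc)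
  have hzz : z' - Φ z ∈ L'.lattice :=
    h3 L' z' (Φ z) hz' hΦz (hP.trans (hΦ.P z hz).symm) (hP'.trans (hΦ.P' z hz).symm)
  have hbz' : ((b : ℂ) - 1) * z' ∈ L'.lattice := by
    have e : ((b : ℂ) - 1) * z' = ((b - 1 : ℤ) : ℂ) * (z' - Φ z) + ((b - 1 : ℤ) : ℂ) * Φ z := by
      push_cast
      ring
    rw [e]
    refine add_mem (EE.lat_int L' _ hzz) ((hT _ z).2 ?_)
    push_cast
    exact hbz
  have hb2 : ((b : ℂ) - (b : ℂ) ^ 2) ≠ 0 := by
    have e : (b : ℂ) - (b : ℂ) ^ 2 = (b : ℂ) * (1 - (b : ℂ)) := by ring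
    rw [e]
    refine mul_ne_zero (by exact_mod_cast hb0) ?_
    rw [sub_ne_zero]
    exact fun hc => hb1 (by exact_mod_cast hc.symm)
  have e1 := b_TRA L' b _ hb0 hH' z' hz' hbz'
  have e2 := b_TRA L b H hb0 hH z hz hbz
  have e3 := congrArg σ e2
  rw [map_mul, map_sub, map_pow, map_intCast, map_sum] at e3
  apply mul_left_cancel₀ hb2
  rw [e1, e3, Finset.sum_image]
  · refine Finset.sum_congr rfl fun p hp => ?_
    rw [map_div₀, map_sub, hP, hP', hΦ.P p (hp0 p hp)]
  · intro p hp p' hp' hpp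
    apply hH.inj p hp p' hp'
    apply EE.phi_sub hΦ
    have hpp' : Φ p = Φ p' := hpp
    rw [hpp', sub_self]
    exact zero_mem _

end

end Pool.Agent.MUXY


end

section

/-!
# ME, blocks G/H for `p = 3` (helper58): Theorem G in the form used by block H

`Sn_GPT_E` (`D = -4`) is the twin of `NSG.Sn_GPT` (`NS/G_Gpt.lean`), `Sq_GPT_E` (`D = -3`) the twin of `NSGR.Sv_GPR` (`NS/StGR.lean`), with the symbol divided by `3`.
-/

set_option autoImplicit false

namespace Pool.Agent.MEH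

open _root_.MU3 _root_.Pool.Agent.MU3A _root_.Pool.Agent.MU3B _root_.Pool.Agent.RI _root_.Pool.Agent.MUX _root_.Pool.Agent.NS
  _root_.Pool.Agent.NSRD _root_.Pool.Agent.ME _root_.Pool.Agent.MuSym OnePoint

noncomputable section

/-- (GPT, `D = -4`) Theorem G for `PT (PhiKE R e kk/(u om_(i0)))` -/
def Sn_GPT_E : Prop :=
  ∀ (A B : ℤ) (V : ValuationSubring ℂ) (f : ℕ), SetE4 A B V f → TorXE A B →
    ∀ (ι : Type) [Fintype ι] (R : RepsE A B (3 * f) ι) (u el lam : ℂ),
    GoodN V (R.L R.i0) u el lam → ∀ e : OO A B → ℂ, IsEIE (idl (A := A) (B := B) (3 * f)) e →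
    ∀ r : ℕ, r ≠ 0 → (∀ x, e x ≠ 0 → e x ^ r = 1) → ∀ kk : ι → ℂ, V.valuation (kk R.i0) = 1 →
    ∀ N' : ℕ, N' ≠ 0 → absD A B * ((3 * f : ℕ) : ℤ) ^ 2 ∣ (N' : ℤ) →
    ∃ a b c d : ℤ, a * d - b * c = 1 ∧ (N' : ℤ) ∣ c ∧ (N' : ℤ) ∣ d - 1 ∧
      V.valuation (3 : ℂ) ≤ V.valuation (MUXHN.PT (fun x y => PhiKE R e kk x y / (u * R.om R.i0)) ∞
        (mob a b c d ∞)) ^ 18

/-- (GPT, `D = -3`) Theorem G+ for `PT (PhiKE R e kk/(3 u om_(i0)))` -/
def Sq_GPT_E : Prop :=
  ∀ (A B : ℤ) (P : Ideal (OO A B)) (V : ValuationSubring ℂ) (f : ℕ), SetE3 A B P V f →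
    TorXE A B → ∀ (ι : Type) [Fintype ι] (R : RepsE A B (3 * f) ι) (u el lam : ℂ),
    GoodR V (R.L R.i0) u el lam → ∀ e : OO A B → ℂ, IsEIE (idl (A := A) (B := B) (3 * f)) e →
    ∀ r : ℕ, r ≠ 0 → (∀ x, e x ≠ 0 → e x ^ r = 1) → ∀ kk : ι → ℂ, V.valuation (kk R.i0) = 1 →
    ∀ N' : ℕ, N' ≠ 0 → absD A B * ((3 * f : ℕ) : ℤ) ^ 2 ∣ (N' : ℤ) →
    ∃ a b c d : ℤ, a * d - b * c = 1 ∧ (N' : ℤ) ∣ c ∧ (N' : ℤ) ∣ d - 1 ∧
      1 < V.valuation (MUXHN.PT (fun x y => PhiKE R e kk x y / (3 * u * R.om R.i0)) ∞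
        (mob a b c d ∞))

/-- (TYF, `D = -4`) the type: twin of `NST.Sn_TYF` -/
def Sn_TYF_E : Prop :=
  ∀ (A B : ℤ) (V : ValuationSubring ℂ) (f : ℕ), SetE4 A B V f → TorXE A B →
    ∀ (ι : Type) [Fintype ι] (R : RepsE A B (3 * f) ι) (u el lam : ℂ),
    GoodN V (R.L R.i0) u el lam → ∀ w : OO A B → ℂ, IsTei V w →
    ∀ e : OO A B → ℂ, IsEIE (idl (A := A) (B := B) (3 * f)) e → ∀ r : ℕ, ¬ 3 ∣ r →
    (∀ x, e x ≠ 0 → e x ^ r = 1) → ∀ i : ℕ,
    (∀ x, x - 1 ∈ idl (A := A) (B := B) f → x ∉ idl (A := A) (B := B) 3 → e x = w x ^ i) →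
    ∀ kk : ι → ℂ, (∀ j, kk j ^ r = 1) →
    ∃ (pi : ℂ) (KI : Subfield ℂ),
      (∀ x y : OnePoint ℚ, ∃ w ∈ KI, PhiKE R e kk x y / (u * R.om R.i0) = pi * w) ∧
      (∀ w ∈ KI, V.valuation w < 1 → V.valuation w ≤ V.valuation (3 : ℂ)) ∧
      V.valuation pi ^ 8 * V.valuation (3 : ℂ) ^ i = 1

end

end Pool.Agent.MEH


end

section

/-!
# MU3, block I, IRES: the residue field of a valuation ring of `ℂ` above `3`
-/

set_option autoImplicit false

namespace Pool.Agent.MU3I

open _root_.MU3 _root_.Pool.Agent.MU3 _root_.Pool.Agent.MU3A _root_.Pool.Agent.MU3B _root_.Pool.Agent.MU3C _root_.Pool.Agent.RI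
  _root_.Pool.Agent.RID

noncomputable section

/-- the residue field of a valuation ring of an algebraically closed field is algebraically
closed -/
theorem isAlgClosed_residueField {K : Type*} [Field K] [IsAlgClosed K] (V : ValuationSubring K) :
    IsAlgClosed (IsLocalRing.ResidueField V) := by
  apply IsAlgClosed.of_exists_root
  intro p hp hirr
  have h1 : p ∈ Polynomial.lifts (IsLocalRing.residue V) := by
    rw [Polynomial.mem_lifts]
    exact Polynomial.map_surjective _ IsLocalRing.residue_surjective p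
  obtain ⟨P, hP, hdeg, hPm⟩ := Polynomial.lifts_and_natDegree_eq_and_monic h1 hp
  have h2 : P.degree ≠ 0 := by
    intro h3
    have h4 : P.natDegree = 0 := Polynomial.natDegree_eq_of_degree_eq_some h3
    rw [hdeg] at h4
    have h5 := hirr.natDegree_pos
    omega
  obtain ⟨z, hz⟩ := IsAlgClosed.exists_aeval_eq_zero K P h2
  have hint : IsIntegral V z := ⟨P, hPm, hz⟩
  obtain ⟨y, hy⟩ := (IsIntegrallyClosed.isIntegral_iff (R := V) (K := K)).1 hint
  have h6 : P.eval y = 0 := by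
    rw [← hy, Polynomial.aeval_algebraMap_apply] at hz
    have h7 := (FaithfulSMul.algebraMap_injective V K) (hz.trans (map_zero _).symm)
    simpa using h7
  refine ⟨IsLocalRing.residue V y, ?_⟩
  rw [← hP, Polynomial.eval_map, Polynomial.eval₂_at_apply, h6, map_zero]

theorem t_IRES : St_IRES := by
  intro V h3
  refine ⟨?_, isAlgClosed_residueField V⟩
  have hp : Nat.Prime 3 := Nat.prime_three
  rw [CharP.charP_iff_prime_eq_zero hp]
  obtain ⟨h4, h5⟩ := ValuationSubring.mem_nonunits_iff_exists_mem_maximalIdeal.1 h3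
  have h6 : ((3 : ℕ) : IsLocalRing.ResidueField V) = IsLocalRing.residue V ⟨3, h4⟩ := by
    have h7 : (⟨3, h4⟩ : V) = ((3 : ℕ) : V) := by
      apply Subtype.ext
      push_cast
      rfl
    rw [h7, map_natCast]
  rw [h6]
  exact (IsLocalRing.residue_eq_zero_iff _).2 h5

end

end Pool.Agent.MU3I


end

section

/-!
# MUX, block J, module RES: the residue field of a valuation ring of `ℂ` above `p`
-/

set_option autoImplicit false

namespace Pool.Agent.MUXJ

/-- JRES. -/
theorem t_RES : Sj_RES := by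
  intro p hp V hV
  refine ⟨?_, Pool.Agent.MU3I.isAlgClosed_residueField V⟩
  rw [CharP.charP_iff_prime_eq_zero hp.out]
  obtain ⟨h4, h5⟩ := ValuationSubring.mem_nonunits_iff_exists_mem_maximalIdeal.1 hV
  have h6 : ((p : ℕ) : IsLocalRing.ResidueField V) = IsLocalRing.residue V ⟨(p : ℂ), h4⟩ := by
    have h7 : (⟨(p : ℂ), h4⟩ : V) = ((p : ℕ) : V) := Subtype.ext rfl
    rw [h7, map_natCast]
  rw [h6]
  exact (IsLocalRing.residue_eq_zero_iff _).2 h5

end Pool.Agent.MUXJ


end

section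

/-!
# MUXK_GALX: `K_n / k` is Galois with abelian group

The proof of `MU3/P_GALK.lean` with `3` replaced by the prime number `p`.
-/

open NumberField IsDedekindDomain Finset
open scoped nonZeroDivisors Pointwise

namespace Pool.Agent.MUXK

open _root_.Pool.Agent.MU3 _root_.Pool.Agent.RI _root_.Pool.Agent.RID
open _root_.Pool.Agent.MU3.P_GALK

theorem t_GALX : S_GALX := by
  intro p _ k K B fdK fdKB hB n h
  letI aL : Algebra k ↥(K ⊔ B n) := algC h
  obtain ⟨fdB, hGB, -⟩ := LAY_thm p n (B n) (hB.lay n)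
  have hcyc : IsCyclic (B n ≃ₐ[ℚ] B n) := t_LAYC p n (B n) (hB.lay n)
  have fdk : FiniteDimensional ℚ k := FiniteDimensional.of_injective
    (IntermediateField.inclusion hB.hk).toLinearMap
    (IntermediateField.inclusion hB.hk).toRingHom.injective
  refine ⟨?_, ?_⟩
  · have h1 := BCH_thm.1 ⊥ (B n) k k (k ⊔ B n) bot_le le_sup_left (bot_sup_eq k).symm
      (sup_comm k (B n)) (bot_gal hGB)
    have hfM : FiniteDimensional ℚ ↥(k ⊔ B n) := IntermediateField.finiteDimensional_sup k (B n)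
    have h2 := BCH_thm.2 k K (k ⊔ B n) hB.hk le_sup_left (hB.hk.trans le_sup_left) hB.gal h1.1
    have e : K ⊔ (k ⊔ B n) = K ⊔ B n := by
      rw [← sup_assoc, sup_eq_left.2 hB.hk]
    exact (isGalois_algC h).2 (transp e _ h h2)
  · intro σ τ
    refine comm_of h σ τ ?_ ?_
    · intro x hx
      letI aK : Algebra k K := algC hB.hk
      letI aKL : Algebra K ↥(K ⊔ B n) := algC le_sup_left
      haveI : IsScalarTower k K ↥(K ⊔ B n) := towerC hB.hk le_sup_left
      haveI : IsGalois k K := (isGalois_algC hB.hk).2 hB.gal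
      have hab : ∀ a b : K ≃ₐ[k] K, a * b = b * a := by
        intro a b
        have h1 := hB.ab ((extEquiv hB.hk).symm.autCongr a) ((extEquiv hB.hk).symm.autCongr b)
        rw [← map_mul, ← map_mul] at h1
        exact (extEquiv hB.hk).symm.autCongr.injective h1
      exact comm_on hab σ τ (⟨(x : ℂ), hx⟩ : K)
    · intro x hx
      letI aBL : Algebra (B n) ↥(K ⊔ B n) := algC le_sup_right
      haveI : IsScalarTower ℚ (B n) ↥(K ⊔ B n) := IsScalarTower.of_algebraMap_eq (fun _ => rfl)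
      haveI : IsScalarTower ℚ k ↥(K ⊔ B n) := IsScalarTower.of_algebraMap_eq (fun _ => rfl)
      have hab : ∀ a b : B n ≃ₐ[ℚ] B n, a * b = b * a := by
        intro a b
        obtain ⟨g, hg⟩ := hcyc.exists_generator
        obtain ⟨i, rfl⟩ := hg a
        obtain ⟨j, rfl⟩ := hg b
        exact zpow_mul_comm g i j
      exact comm_on hab (σ.restrictScalars ℚ) (τ.restrictScalars ℚ) (⟨(x : ℂ), hx⟩ : B n)

end Pool.Agent.MUXK


end

section

/-!
# MUX, block J, module SUB (helper96): class numbers of the layers over a subfield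
-/

set_option autoImplicit false

namespace Pool.Agent.MUXJ

open NumberField
open _root_.Pool.Agent.RI _root_.Pool.Agent.RID

/-- JSUB: going down for the layers. -/
theorem t_SUB (h1 : Sj_DWN) : Sj_SUB := by
  intro p hp K M hfM hKM
  have hfK : FiniteDimensional ℚ K :=
    FiniteDimensional.of_injective (IntermediateField.inclusion hKM).toLinearMap
      (IntermediateField.inclusion hKM).toRingHom.injective
  refine ⟨Nat.log p (Module.finrank ℚ M), fun n Q hQ => ?_⟩
  obtain ⟨hfQ, -, -⟩ := LAY_thm p n Q hQ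
  have hle : K ⊔ Q ≤ M ⊔ Q := sup_le_sup_right hKM Q
  have hf1 : FiniteDimensional ℚ ↥(K ⊔ Q) := IntermediateField.finiteDimensional_sup K Q
  have hf2 : FiniteDimensional ℚ ↥(M ⊔ Q) := IntermediateField.finiteDimensional_sup M Q
  let : Algebra ↥(K ⊔ Q) ↥(M ⊔ Q) := algC hle
  have htow : IsScalarTower ℚ ↥(K ⊔ Q) ↥(M ⊔ Q) :=
    IsScalarTower.of_algebraMap_eq (fun x => rfl)
  have h := h1 p ↥(K ⊔ Q) ↥(M ⊔ Q)
  have e1 : Module.finrank ℚ ↥(K ⊔ Q) * Module.finrank ↥(K ⊔ Q) ↥(M ⊔ Q) =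
      Module.finrank ℚ ↥(M ⊔ Q) := Pool.Agent.FX.fmul ℚ ↥(K ⊔ Q) ↥(M ⊔ Q)
  have e2 : Module.finrank ℚ ↥(M ⊔ Q) ≤ Module.finrank ℚ M * Module.finrank ℚ Q :=
    IntermediateField.finrank_sup_le M Q
  have e3 : Module.finrank ℚ Q ≤ Module.finrank ℚ ↥(K ⊔ Q) :=
    LinearMap.finrank_le_finrank_of_injective
      (f := (IntermediateField.inclusion (le_sup_right : Q ≤ K ⊔ Q)).toLinearMap)
      (IntermediateField.inclusion (le_sup_right : Q ≤ K ⊔ Q)).toRingHom.injective
  have e4 : 0 < Module.finrank ℚ ↥(K ⊔ Q) := Module.finrank_pos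
  have e5 : Module.finrank ↥(K ⊔ Q) ↥(M ⊔ Q) ≤ Module.finrank ℚ M := by
    have : Module.finrank ℚ ↥(K ⊔ Q) * Module.finrank ↥(K ⊔ Q) ↥(M ⊔ Q) ≤
        Module.finrank ℚ ↥(K ⊔ Q) * Module.finrank ℚ M := by
      rw [e1]
      refine e2.trans ?_
      rw [mul_comm]
      exact Nat.mul_le_mul_right _ e3
    exact Nat.le_of_mul_le_mul_left this e4
  refine h.trans ?_
  exact Nat.add_le_add_left (Nat.log_mono_right e5) _

end Pool.Agent.MUXJ


end

section

/-!
# MUX, block J, module GAL: subfields of the ray class fields are abelian over `k`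
-/

set_option autoImplicit false

open NumberField IsDedekindDomain
open scoped nonZeroDivisors Pointwise

namespace Pool.Agent.MUXJ

open _root_.MU3 _root_.Pool.Agent.MU3 _root_.Pool.Agent.MU3A _root_.Pool.Agent.MU3B _root_.Pool.Agent.RI _root_.Pool.Agent.RID
  _root_.Pool.Agent.MUX _root_.Pool.Agent.MUXK _root_.Pool.Agent.MUXE

theorem t_GAL : Sj_GAL := by
  intro A B T m hm K hk hK
  have hgal : IsGalois (kk A B) (RF m) := T.gal m hm
  have hfd : FiniteDimensional (kk A B) (RF m) := T.fin m hm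
  have hab : IsAbelianGalois (kk A B) (RF m) :=
    { toIsGalois := hgal
      is_comm := ⟨fun σ τ => T.comm m hm σ τ⟩ }
  have hle : IntermediateField.extendScalars hk ≤ RF m := fun x hx => hK x hx
  have hfin : IsAbelianGalois (kk A B) (IntermediateField.extendScalars hk) :=
    IsAbelianGalois.of_algHom (IntermediateField.inclusion hle)
  have hfd' : FiniteDimensional (kk A B) (IntermediateField.extendScalars hk) :=
    FiniteDimensional.of_injective (IntermediateField.inclusion hle).toLinearMap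
      (IntermediateField.inclusion hle).injective
  exact ⟨hfin.toIsGalois, hfd', fun σ τ => hfin.is_comm.comm σ τ⟩

end Pool.Agent.MUXJ


end

section

/-!
# MUX, block W: module SUC, the element `cW h θ` is a unit outside `S`
-/

set_option autoImplicit false

open WeierstrassCurve Polynomial NumberField IsDedekindDomain

namespace Pool.Agent.MUXW

open _root_.MU3 _root_.Pool.Agent.MU3A _root_.Pool.Agent.MU3B _root_.Pool.Agent.MU3C _root_.Pool.Agent.RI _root_.Pool.Agent.RID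
open _root_.Pool.Agent.MUX _root_.Pool.Agent.MUXU
open _root_.Pool.Agent.MU3V (cls Sub GD)
open _root_.Pool.Agent.MUXV (GR InK tX CMO Ovr)

noncomputable section

namespace SUC

/-- a positive integer all of whose prime divisors are units of `V` is a unit of `V` -/
lemma _root_.Pool.Agent.MUXW.SUC.v_nat {V : ValuationSubring ℂ} : ∀ n : ℕ, n ≠ 0 →
    (∀ p : ℕ, p.Prime → p ∣ n → V.valuation (p : ℂ) = 1) → V.valuation (n : ℂ) = 1 := by
  intro n
  induction n using Nat.strong_induction_on with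
  | _ n ih =>
    intro hn hp
    by_cases h1 : n = 1
    · rw [h1, Nat.cast_one, map_one]
    have hq := Nat.minFac_prime h1
    obtain ⟨k, hk⟩ := Nat.minFac_dvd n
    have hk0 : k ≠ 0 := by
      rintro rfl
      exact hn (by rw [hk, mul_zero])
    have hkn : k < n := by
      have h2 : 2 ≤ n.minFac := hq.two_le
      have h3 : 2 * k ≤ n.minFac * k := Nat.mul_le_mul_right k h2
      rw [← hk] at h3
      omega
    have hkd : k ∣ n := ⟨n.minFac, by rw [mul_comm]; exact hk⟩
    have h3 := ih k hkn hk0 (fun p hp1 hp2 => hp p hp1 (hp2.trans hkd))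
    have h4 := hp _ hq (Nat.minFac_dvd n)
    rw [hk, Nat.cast_mul, map_mul, h3, mul_one]
    exact h4

lemma _root_.Pool.Agent.MUXW.SUC.v_int {V : ValuationSubring ℂ} {n : ℤ} (hn : n ≠ 0)
    (hp : ∀ p : ℕ, p.Prime → (p : ℤ) ∣ n → V.valuation (p : ℂ) = 1) :
    V.valuation (n : ℂ) = 1 := by
  have h1 := _root_.Pool.Agent.MUXW.SUC.v_nat (V := V) n.natAbs (Int.natAbs_ne_zero.2 hn)
    (fun p hp1 hp2 => hp p hp1 (Int.natCast_dvd.2 hp2))
  obtain ⟨m, hm | hm⟩ := n.eq_nat_or_neg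
  · rw [hm] at h1 ⊢
    simpa using h1
  · rw [hm] at h1 ⊢
    have h2 : (((-(m : ℤ) : ℤ)) : ℂ) = -(m : ℂ) := by push_cast; rfl
    rw [h2, Valuation.map_neg]
    simpa using h1

lemma v_one_iff (V : ValuationSubring ℂ) (x : ℂ) :
    V.valuation x = 1 ↔ x ≠ 0 ∧ x ∈ V ∧ x⁻¹ ∈ V := by
  constructor
  · intro h
    have hx : x ≠ 0 := by
      rintro rfl
      rw [map_zero] at h
      exact zero_ne_one h
    refine ⟨hx, ?_, ?_⟩
    · rw [← V.valuation_le_one_iff, h]
    · rw [← V.valuation_le_one_iff, map_inv₀, h, inv_one]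
  · rintro ⟨hx, h1, h2⟩
    rw [← V.valuation_le_one_iff] at h1 h2
    refine le_antisymm h1 ?_
    by_contra h3
    rw [not_le] at h3
    have h4 : V.valuation x * V.valuation x⁻¹ < 1 :=
      mul_lt_one_of_lt_of_le h3 h2
    rw [← map_mul, mul_inv_cancel₀ hx, map_one] at h4
    exact lt_irrefl _ h4

/-- the two copies of `CQ` -/
theorem cqF {A B : ℤ} (h : Pool.Agent.MUX.CQ A B) : Pool.Agent.MUXF.CQ A B :=
  ⟨h.hB, h.neg, h.fund1, h.fund0⟩

lemma v_comap (V : ValuationSubring ℂ) (s : ℂ ≃+* ℂ) (x : ℂ) :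
    (V.comap (s : ℂ →+* ℂ)).valuation x = 1 ↔ V.valuation (s x) = 1 := by
  rw [v_one_iff, v_one_iff, ValuationSubring.mem_comap, ValuationSubring.mem_comap]
  have h1 : (s : ℂ →+* ℂ) x = s x := rfl
  have h2 : (s : ℂ →+* ℂ) x⁻¹ = (s x)⁻¹ := map_inv₀ s x
  rw [h1, h2]
  simp

/-- the ray class fields are algebraic -/
lemma alg (hEMB : Pool.Agent.MUXV.Sq_EMB) {A B : ℤ} (hC : CQ A B)
    (F : IntermediateField (kk A B) ℂ) [FiniteDimensional (kk A B) F] :
    Algebra.IsAlgebraic ℚ (F.restrictScalars ℚ) := by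
  obtain ⟨-, -, -, -, -, -, wsq, -⟩ := hEMB A B (cqF hC)
  have h1 : _root_.IsIntegral ℚ (wC A B) := by
    refine ⟨X ^ 2 - C (B : ℚ) * X - C (A : ℚ), ?_, ?_⟩
    · monicity!
    · simp only [eval₂_sub, eval₂_mul, eval₂_pow, eval₂_X, eval₂_C]
      rw [wsq]
      simp
  have h2 : FiniteDimensional ℚ (kk A B) := IntermediateField.adjoin.finiteDimensional h1
  have h3 : FiniteDimensional ℚ F := FiniteDimensional.trans ℚ (kk A B) F
  have h4 : FiniteDimensional ℚ (F.restrictScalars ℚ) := h3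
  exact Algebra.IsAlgebraic.of_finite ℚ _

/-- automorphisms of `F` extend -/
lemma extA (hAUE : Su_AUE) {A B : ℤ} (F : IntermediateField (kk A B) ℂ)
    (hF : Algebra.IsAlgebraic ℚ (F.restrictScalars ℚ)) (σ : F ≃ₐ[kk A B] F) :
    ∃ s : ℂ ≃+* ℂ, ∀ x : F, s (x : ℂ) = ((σ x : F) : ℂ) := by
  obtain ⟨s, hs⟩ := hAUE (F.restrictScalars ℚ) hF
    { toFun := fun x => ((σ ⟨x.1, x.2⟩ : F) : ℂ)
      map_one' := by
        change ((σ (1 : F) : F) : ℂ) = 1
        rw [map_one]; rfl
      map_mul' := fun x y => by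
        change ((σ ((⟨x.1, x.2⟩ : F) * ⟨y.1, y.2⟩) : F) : ℂ) = _
        rw [map_mul]; rfl
      map_zero' := by
        change ((σ (0 : F) : F) : ℂ) = 0
        rw [map_zero]; rfl
      map_add' := fun x y => by
        change ((σ ((⟨x.1, x.2⟩ : F) + ⟨y.1, y.2⟩) : F) : ℂ) = _
        rw [map_add]; rfl }
  exact ⟨s, fun x => hs ⟨x.1, x.2⟩⟩

end SUC

open _root_.Pool.Agent.MUXW.SUC in
/-- `cW h θ` is a unit outside `S` -/
theorem ty_SUC (hEXT : Pool.Agent.MU3V.Sv_EXT) (hTHU : Pool.Agent.MUXV.Sq_THU)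
    (hTOR : Pool.Agent.MUXV.Sq_TOR) (hEMB : Pool.Agent.MUXV.Sq_EMB) (hGRB : Sy_GRB)
    (hAUE : Su_AUE) : Sy_SUC := by
  intro A B hC T L Om hL
  obtain ⟨n₀, hn₀, hg⟩ := hGRB A B hC T ⊤ L Om hL
  refine ⟨n₀, hn₀, ?_⟩
  intro m hm hmu a H ha ham hH S h2S haS hmS θ hθ D _ hk _ c hc v hv
  obtain ⟨emul, -, -, eint, -, einj, -, -, -, -, -, nm0, -⟩ := hEMB A B (cqF hC)
  have embm : emb m ≠ 0 := by
    intro h0
    apply hm
    apply einj
    rw [h0]
    have := eint 0
    simpa using this.symm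
  obtain ⟨V, hV⟩ := hEXT D (algebraMap D ℂ) v
  have hS : ∀ p ∈ S, V.valuation (p : ℂ) = 1 := by
    intro p hp
    have h1 : v.valuation D (p : D) = 1 := by
      have h3 : ¬ (v.valuation D (p : D) < 1) := by
        intro h4
        apply hv
        refine ⟨p, hp, ?_⟩
        rw [← HeightOneSpectrum.valuation_lt_one_iff_mem (K := D) v (p : 𝓞 D)]
        simpa using h4
      refine le_antisymm ?_ (not_lt.1 h3)
      have h5 := HeightOneSpectrum.valuation_le_one (K := D) v (p : 𝓞 D)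
      simpa using h5
    have h2 := ((hV (p : D)).2.2).2 h1
    simpa using h2
  have vn : V.valuation (n₀ : ℂ) = 1 := _root_.Pool.Agent.MUXW.SUC.v_nat n₀ hn₀ (fun p hp1 hp2 => hS p (h2S p hp1 hp2))
  have va : V.valuation (a : ℂ) = 1 := _root_.Pool.Agent.MUXW.SUC.v_int ha (fun p hp1 hp2 => hS p (haS p hp1 hp2))
  have hm' : nm m ≠ 0 := fun h0 => hm ((nm0 m).1 h0)
  have vm : V.valuation ((nm m : ℤ) : ℂ) = 1 := _root_.Pool.Agent.MUXW.SUC.v_int hm' (fun p hp1 hp2 => hS p (hmS p hp1 hp2))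
  have hcmo : CMO A B L := by
    intro x z hz
    obtain ⟨y, -, rfl⟩ := (hL.mem z).1 hz
    exact (hL.mem _).2 ⟨x * y, trivial, by rw [emul]; ring⟩
  have key : ∀ s : ℂ ≃+* ℂ, V.valuation (s (ThetaH L H (Om / emb m))) = 1 := by
    intro s
    rw [← v_comap]
    have vn' : (V.comap (s : ℂ →+* ℂ)).valuation (n₀ : ℂ) = 1 := by
      rw [v_comap, map_natCast]; exact vn
    have va' : (V.comap (s : ℂ →+* ℂ)).valuation (a : ℂ) = 1 := by
      rw [v_comap, map_intCast]; exact va
    have vm' : (V.comap (s : ℂ →+* ℂ)).valuation ((nm m : ℤ) : ℂ) = 1 := by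
      rw [v_comap, map_intCast]; exact vm
    obtain ⟨W, ξ, hGR⟩ := (hg _ vn').2.2.2.2
    refine (hTHU _ L (1 / 12) W ξ hGR a H va' hH).1 _ ?_
    intro hE
    have h3 := hTOR A B (cqF hC) _ W L _ _ ξ hGR hcmo m vm' _ (by
      rw [mul_left_comm, mul_div_cancel₀ _ embm, ← eint]
      exact hcmo _ _ ((hL.mem _).2 ⟨1, trivial, by
        have := eint 1
        rw [Int.cast_one, Int.cast_one] at this
        rw [this, mul_one]⟩)) hE
    obtain ⟨y, -, hy⟩ := (hL.mem _).1 h3
    have h4 : (a : ℂ) = emb (m * y) := by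
      rw [emul]
      have h5 : Om * (a : ℂ) = Om * (emb m * emb y) := by
        have h6 : (a : ℂ) * (Om / emb m) * emb m = Om * emb y * emb m := by rw [hy]
        rw [mul_assoc, div_mul_cancel₀ _ embm] at h6
        rw [mul_comm, h6]
        ring
      exact mul_left_cancel₀ hL.om_ne h5
    have h7 : (a : OO A B) = m * y := einj _ _ ((eint a).trans h4)
    exact hmu (ham.isUnit_of_dvd' ⟨y, h7⟩ dvd_rfl)
  have : FiniteDimensional (kk A B) (RF (sp m)) := T.fin (sp m) (by
    rw [Ne, Ideal.span_singleton_eq_bot]; exact hm)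
  have hFa := alg hEMB hC (RF (sp m))
  rw [← (hV c).2.2]
  change V.valuation (c : ℂ) = 1
  rw [hc]
  refine finprod_induction (fun y => V.valuation y = 1) (map_one _) ?_ ?_
  · intro y z hy hz
    rw [map_mul, hy, hz, one_mul]
  · intro σ
    obtain ⟨s, hs⟩ := extA hAUE (RF (sp m)) hFa (σ : RF (sp m) ≃ₐ[kk A B] RF (sp m))
    rw [← hs θ, hθ]
    exact key s

end

end Pool.Agent.MUXW


end

section

/-!
# MUX, block W, module CXW: the product over `XX` is the square of `cWt` (helper86)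
-/

set_option autoImplicit false

open WeierstrassCurve Polynomial NumberField IsDedekindDomain

namespace Pool.Agent.MUXW

open _root_.MU3 _root_.Pool.Agent.MU3A _root_.Pool.Agent.MU3B _root_.Pool.Agent.MU3C _root_.Pool.Agent.RI _root_.Pool.Agent.RID
open _root_.Pool.Agent.MUX _root_.Pool.Agent.MUXU
open _root_.Pool.Agent.MU3V (cls Sub GD cls_out cls_eq_iff)
open _root_.Pool.Agent.MUXV (Sq_EMB)

noncomputable section

namespace CXW

variable {A B : ℤ}

lemma cop_top (a : Ideal (OO A B)) : IsCoprime a ⊤ := by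
  rw [← Ideal.one_eq_top]
  exact isCoprime_one_right

/-- automorphisms of `ℂ` trivial on `k` are `k`-linear -/
lemma fixk {σ : ℂ ≃+* ℂ} (hσ : FixK A B σ) : ∀ y ∈ kk A B, σ y = y := by
  intro y hy
  induction hy using IntermediateField.adjoin_induction with
  | mem x hx => rw [Set.mem_singleton_iff] at hx; rw [hx]; exact hσ
  | algebraMap x => simp
  | add x y _ _ hx hy => rw [map_add, hx, hy]
  | inv x _ hx => rw [map_inv₀, hx]
  | mul x y _ _ hx hy => rw [map_mul, hx, hy]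

/-- restriction to `F_m` -/
lemma restr (hT : TorX A B) {m : Ideal (OO A B)} (hm : m ≠ ⊥) {s : ℂ ≃+* ℂ}
    (hs : FixK A B s) :
    ∃ σ : (RF m : IntermediateField (kk A B) ℂ) ≃ₐ[kk A B] RF m,
      ∀ y : (RF m : IntermediateField (kk A B) ℂ),
        ((σ y : (RF m : IntermediateField (kk A B) ℂ)) : ℂ) = s y := by
  haveI := hT.fin m hm
  haveI := hT.gal m hm
  let s' : ℂ ≃ₐ[kk A B] ℂ := AlgEquiv.ofRingEquiv (f := s) (fun r => fixk hs _ r.2)
  exact ⟨s'.restrictNormal (RF m), fun y => AlgEquiv.restrictNormal_commutes s' (RF m) y⟩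

/-- extension to `ℂ` -/
lemma extn (hT : TorX A B) {m : Ideal (OO A B)} (hm : m ≠ ⊥)
    (σ : (RF m : IntermediateField (kk A B) ℂ) ≃ₐ[kk A B] RF m) :
    ∃ s : ℂ ≃+* ℂ, FixK A B s ∧ ∀ y : (RF m : IntermediateField (kk A B) ℂ),
      s y = ((σ y : (RF m : IntermediateField (kk A B) ℂ)) : ℂ) := by
  let D : IntermediateField ℚ ℂ :=
    (RF m : IntermediateField (kk A B) ℂ).restrictScalars ℚ
  have hkD : kk A B ≤ D := fun x hx =>
    (RF m : IntermediateField (kk A B) ℂ).algebraMap_mem ⟨x, hx⟩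
  letI := algC hkD
  let f : D ≃+* D :=
    { toFun := fun y => σ y
      invFun := fun y => σ.symm y
      left_inv := fun y => σ.symm_apply_apply y
      right_inv := fun y => σ.apply_symm_apply y
      map_mul' := fun x y => map_mul σ x y
      map_add' := fun x y => map_add σ x y }
  let τ : D ≃ₐ[kk A B] D := AlgEquiv.ofRingEquiv (f := f) (fun r => σ.commutes r)
  obtain ⟨s, hs, h1⟩ := hT.ext m hm D hkD (fun y hy => hy) τ
  exact ⟨s, hs, fun y => h1 ⟨y, y.2⟩⟩

/-- an automorphism fixing `κ` and the coordinate of the base point is trivial on `F_m` -/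
lemma triv_of (hDET : Su_DET) (hEMB : Sq_EMB) (hCQ : CQ A B) (hT : TorX A B) {m : ℕ} (hm : m ≠ 0)
    {L : PeriodPair} {om : ℂ} (hL : IsNL (⊤ : Ideal (OO A B)) L om) {t : ℂ ≃+* ℂ}
    (ht : FixK A B t) (hk : t (kap L) = kap L) (hx : t (xn L (om / m)) = xn L (om / m))
    (hz : om / m ∉ L.lattice) :
    ∀ y ∈ (RF (idl m) : IntermediateField (kk A B) ℂ), t y = y := by
  obtain ⟨emul, eadd, esub, eint, enat, einj, -, -, -, -, -, -, hdom⟩ :=
    hEMB A B ⟨hCQ.hB, hCQ.neg, hCQ.fund1, hCQ.fund0⟩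
  haveI := hdom
  have eone : emb (1 : OO A B) = 1 := by
    have := enat 1
    rwa [Nat.cast_one, Nat.cast_one] at this
  have ezero : emb (0 : OO A B) = 0 := by
    have := enat 0
    rwa [Nat.cast_zero, Nat.cast_zero] at this
  have mC : ((m : ℕ) : ℂ) ≠ 0 := Nat.cast_ne_zero.2 hm
  have mO : ((m : ℕ) : OO A B) ≠ 0 := by
    intro h
    apply mC
    rw [← enat m, h, ezero]
  have hm' : idl (A := A) (B := B) m ≠ ⊥ := by
    intro h
    rw [Ideal.span_singleton_eq_bot] at h
    exact mO h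
  obtain ⟨a, hac, hact⟩ := hT.act (idl m) hm' t ht
  obtain ⟨b', L', om', mu, hL', hA⟩ := hact ⊤ L om hL
  have e1 : kap L' = kap L := hA.kap.trans hk
  have e2 : L'.g₂ = L.g₂ := by
    unfold kap at e1
    linear_combination 144 * e1
  have e3 : L'.g₃ = L.g₃ := by
    have h1 := hL.nrm
    have h2 := hL'.nrm
    linear_combination (1 / 18) * h2 - (1 / 18) * h1 - (1 / 18) * e2
  have hlat : L'.lattice = L.lattice := hDET L' L e2 e3
  have hsc := (Pool.Agent.MU3A.ta_SCP L L' 1 one_ne_zero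
    (fun u => by rw [one_mul, hlat])).1
  have hP : ∀ z, L'.weierstrassP z = L.weierstrassP z := fun z => by
    have := hsc z
    rwa [one_mul, one_pow, div_one] at this
  have hmem : ∀ z ∈ L.lattice, ∀ x : OO A B, emb x * z ∈ L.lattice := by
    intro z hz x
    obtain ⟨y, -, rfl⟩ := (hL.mem z).1 hz
    exact (hL.mem _).2 ⟨x * y, trivial, by rw [emul]; ring⟩
  have hT1 : ActI t ⊤ a L L' mu :=
    ⟨hA.kap, cop_top _, hA.isq, fun z hz => hA.act z (fun x _ => hz x trivial)⟩
  have hT2 : ActI t (⊤ : Ideal (OO A B)) ⊤ L L' 1 := by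
    refine ⟨hA.kap, cop_top _, ⟨one_ne_zero, fun z => ?_⟩, fun z hz => ?_⟩
    · rw [one_mul, hlat]
      constructor
      · intro hz x _
        exact hmem z hz x
      · intro hz
        have := hz 1 trivial
        rwa [eone, one_mul] at this
    · have h1 := hz 1 trivial
      rw [eone, one_mul] at h1
      left
      rw [one_mul, hlat]
      exact ⟨h1, h1⟩
  obtain ⟨x, y, -, hx0, hy0, -, hxy, hmu⟩ := hT.uniq ⊤ a ⊤ t L L' mu 1 top_ne_bot
    ⟨⊤, om, hL⟩ hT1 hT2
  rw [Ideal.mul_top] at hxy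
  have hyc : y ∈ sp x * a := by
    rw [hxy]
    exact Ideal.mem_span_singleton_self y
  obtain ⟨c, hca, hc⟩ := Ideal.mem_span_singleton_mul.1 hyc
  have hasp : a = sp c := by
    rw [← hc] at hxy
    have hxy' : Ideal.span {x} * a = Ideal.span {x} * Ideal.span {c} := by
      rw [Ideal.span_singleton_mul_span_singleton]
      exact hxy
    exact (Ideal.span_singleton_mul_right_inj hx0).1 hxy'
  have hex : emb x ≠ 0 := fun h => hx0 (einj _ _ (h.trans ezero.symm))
  have hey : emb y ≠ 0 := fun h => hy0 (einj _ _ (h.trans ezero.symm))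
  have hmuc : mu = emb c := by
    rw [← hc, emul] at hmu hey
    rw [eq_div_iff hey, one_mul] at hmu
    have h1 := mul_left_cancel₀ hex (hmu.trans (mul_comm mu (emb x)))
    exact h1.symm
  have hTor : Tor (idl (A := A) (B := B) m) L (om / m) := by
    intro w hw
    obtain ⟨w', rfl⟩ := Ideal.mem_span_singleton'.1 hw
    refine (hL.mem _).2 ⟨w', trivial, ?_⟩
    rw [emul, enat]
    field_simp
  rw [hT.triv (idl m) a t ⊤ L L' om mu hm' ht hL hA hL'.nrm]
  rcases hA.act _ hTor with ⟨h1, -⟩ | ⟨-, h1, h2, -⟩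
  · exact absurd h1 hz
  rw [hmuc, hlat] at h1
  rw [hx, hmuc] at h2
  have h3 : L.weierstrassP (emb c * (om / m)) = L.weierstrassP (om / m) := by
    unfold xn at h2
    rw [hP] at h2
    linear_combination -h2
  have hdiv : ∀ w : OO A B, emb w * (om / m) ∈ L.lattice → w ∈ idl (A := A) (B := B) m := by
    intro w hw
    obtain ⟨v, -, hv⟩ := (hL.mem _).1 hw
    refine Ideal.mem_span_singleton'.2 ⟨v, einj _ _ ?_⟩
    rw [emul, enat]
    have hom := hL.om_ne
    field_simp at hv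
    linear_combination -hv
  rcases Pool.Agent.MU3B.b_NEQ L (om / m) (emb c * (om / m)) hz h1 h3 with h4 | h4
  · refine ⟨c, hdiv _ ?_, hasp⟩
    rw [esub, eone, sub_mul, one_mul]
    exact h4
  · refine ⟨-c, ?_, ?_⟩
    · have h5 : -c - 1 = -(c + 1) := by ring
      rw [h5]
      refine (idl (A := A) (B := B) m).neg_mem (hdiv _ ?_)
      rw [eadd, eone, add_mul, one_mul]
      exact h4
    · rw [hasp]
      exact (Ideal.span_singleton_neg c).symm

/-- an automorphism hits one pair only, and is determined on `F_m` by it -/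
lemma same_of (hDET : Su_DET) (hEMB : Sq_EMB) (hCQ : CQ A B) (hT : TorX A B) {n : ℕ} {ι : Type}
    (R : Reps A B n ι) {m : ℕ} (hm : m ≠ 0)
    (hpt : Pool.Agent.MUX.pt R m R.i0 1 = R.om R.i0 / m)
    (hz : Pool.Agent.MUX.pt R m R.i0 1 ∉ (R.L R.i0).lattice) {s s' : ℂ ≃+* ℂ}
    (hs : FixK A B s) (hs' : FixK A B s') {i : ι} {x : OO A B} (h : Hits R m s i x)
    (h' : Hits R m s' i x) :
    ∀ y ∈ (RF (idl m) : IntermediateField (kk A B) ℂ), s y = s' y := by
  have hL : IsNL (⊤ : Ideal (OO A B)) (R.L R.i0) (R.om R.i0) := by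
    have := R.nl R.i0
    rwa [R.b0] at this
  have h1 := triv_of hDET hEMB hCQ hT hm hL (t := s.trans s'.symm) ?_ ?_ ?_ ?_
  · intro y hy
    have h2 := h1 y hy
    rw [RingEquiv.trans_apply, RingEquiv.symm_apply_eq] at h2
    exact h2
  · unfold FixK at hs hs' ⊢
    rw [RingEquiv.trans_apply, hs, RingEquiv.symm_apply_eq, hs']
  · rw [RingEquiv.trans_apply, RingEquiv.symm_apply_eq, ← h.1, ← h'.1]
  · rw [← hpt, RingEquiv.trans_apply, RingEquiv.symm_apply_eq, h.2.1, h'.2.1]
  · rwa [hpt] at hz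

end CXW

open _root_.Pool.Agent.MUXW.CXW in
theorem ty_CXW (h1 : Sy_HIT) (h2 : Sy_THG) (h3 : Su_DET) (h4 : Sq_EMB) : Sy_CXW := by
  intro A B hCQ hT n ι R m hm hco h2m a H ha ham hH θ hθ D h hD
  letI := algC h
  intro τ
  obtain ⟨emul, eadd, esub, eint, enat, einj, -, -, -, -, -, -, hdom⟩ :=
    h4 A B ⟨hCQ.hB, hCQ.neg, hCQ.fund1, hCQ.fund0⟩
  haveI := hdom
  have eone : emb (1 : OO A B) = 1 := by
    have := enat 1
    rwa [Nat.cast_one, Nat.cast_one] at this
  have ezero : emb (0 : OO A B) = 0 := by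
    have := enat 0
    rwa [Nat.cast_zero, Nat.cast_zero] at this
  have mC : ((m : ℕ) : ℂ) ≠ 0 := Nat.cast_ne_zero.2 hm
  have mO : ((m : ℕ) : OO A B) ≠ 0 := by
    intro h
    apply mC
    rw [← enat m, h, ezero]
  have hm' : idl (A := A) (B := B) m ≠ ⊥ := by
    intro h
    rw [Ideal.span_singleton_eq_bot] at h
    exact mO h
  have hL : IsNL (⊤ : Ideal (OO A B)) (R.L R.i0) (R.om R.i0) := by
    have := R.nl R.i0
    rwa [R.b0] at this
  have hnI : nI (R.b R.i0) = 1 := by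
    rw [R.b0]
    unfold nI
    exact Nat.card_of_subsingleton (0 : OO A B ⧸ (⊤ : Ideal (OO A B)))
  have hpt : Pool.Agent.MUX.pt R m R.i0 1 = R.om R.i0 / m := by
    unfold Pool.Agent.MUX.pt
    rw [hnI, eone, Nat.cast_one, mul_one, mul_one]
  have hz : Pool.Agent.MUX.pt R m R.i0 1 ∉ (R.L R.i0).lattice := by
    rw [hpt]
    intro h0
    obtain ⟨w, -, hw⟩ := (hL.mem _).1 h0
    apply h2m
    have hom := hL.om_ne
    field_simp at hw
    have h5 : ((m : ℕ) : OO A B) * w = 1 := by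
      apply einj
      rw [emul, enat, eone]
      exact hw.symm
    exact ⟨w * 2, by rw [← mul_assoc, h5, one_mul]⟩
  have hzm : emb ((m : ℕ) : OO A B) * Pool.Agent.MUX.pt R m R.i0 1 ∈ (R.L R.i0).lattice := by
    rw [enat, hpt]
    refine (hL.mem _).2 ⟨1, trivial, ?_⟩
    rw [eone]
    field_simp
  obtain ⟨hk, hx, hzz, hTH, -⟩ := h2 A B hCQ hT ⊤ (R.L R.i0) (R.om R.i0) hL
    ((m : ℕ) : OO A B) mO (a : ℤ) (H R.i0) (by exact_mod_cast ha)
    (by rw [Int.cast_natCast]; exact hH R.i0) _ hzm hz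
  -- `Hits` depends only on the restriction to `F_m`
  have htr : ∀ s s' : ℂ ≃+* ℂ,
      (∀ y : (RF (idl m) : IntermediateField (kk A B) ℂ), s y = s' y) →
      ∀ i x, Hits R m s i x → Hits R m s' i x := by
    intro s s' hss i x hx'
    refine ⟨?_, ?_, hx'.2.2⟩
    · rw [hx'.1]; exact hss ⟨_, hk⟩
    · rw [← hx'.2.1]; exact (hss ⟨_, hx⟩).symm
  haveI := hT.fin _ hm'
  let S : Type := {σ : (RF (idl m) : IntermediateField (kk A B) ℂ) ≃ₐ[kk A B]
    RF (idl (A := A) (B := B) m) // Ext1 h τ σ}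
  haveI : Finite S := Subtype.finite
  haveI : Fintype S := Fintype.ofFinite S
  choose s hs hsv using fun σ : S => extn hT hm' σ.1
  choose I X hXc hXh hX2 hXi using fun σ : S => h1 A B hCQ hT n ι R m hm hco h2m (s σ) (hs σ)
  let sg : S → Bool → OO A B := fun σ b => if b then X σ else -X σ
  have hsg : ∀ (σ : S) (b : Bool) (y : OO A B), ((m : ℕ) : OO A B) ∣ y - sg σ b →
      Hits R m (s σ) (I σ) y := by
    intro σ b y hy
    rw [hXi]
    refine ⟨rfl, ?_⟩
    cases b
    · right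
      have : y - sg σ false = y + X σ := by simp [sg]
      rwa [this] at hy
    · left
      have : y - sg σ true = y - X σ := by simp [sg]
      rwa [this] at hy
  let g : S × Bool → ι × (OO A B ⧸ idl (A := A) (B := B) m) := fun q =>
    (I q.1, cls ((m : ℕ) : OO A B) (sg q.1 q.2))
  have hout : ∀ (σ : S) (b : Bool), ((m : ℕ) : OO A B) ∣
      Quotient.out (cls ((m : ℕ) : OO A B) (sg σ b)) - sg σ b := fun σ b =>
    cls_eq_iff.1 (cls_out _)
  have hginj : Function.Injective g := by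
    rintro ⟨σ, b⟩ ⟨σ', b'⟩ e
    obtain ⟨e1, e2⟩ := Prod.mk.inj e
    have e3 := cls_eq_iff.1 e2
    have h5 : Hits R m (s σ) (I σ) (sg σ b) := hsg σ b _ (by simp)
    have h6 : Hits R m (s σ') (I σ) (sg σ b) := by
      have := hsg σ' b' (sg σ b) e3
      rwa [← e1] at this
    have h7 := same_of h3 h4 hCQ hT R hm hpt hz (hs σ) (hs σ') h5 h6
    have h8 : σ = σ' := by
      apply Subtype.ext
      apply AlgEquiv.ext
      intro y
      apply Subtype.ext
      rw [← hsv, ← hsv]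
      exact h7 y y.2
    subst h8
    rw [Prod.mk.injEq]
    refine ⟨rfl, ?_⟩
    have h9 := hX2 σ
    cases b <;> cases b' <;> simp only [sg, if_true, if_false, Bool.false_eq_true] at e3 ⊢
    · exfalso
      apply h9
      have : -X σ - X σ = -(2 * X σ) := by ring
      rw [this, dvd_neg] at e3
      exact e3
    · exfalso
      apply h9
      have : X σ - -X σ = 2 * X σ := by ring
      rwa [this] at e3
  have hrange : _root_.Pool.Agent.MUX.XX R m h τ = Set.range g := by
    ext ⟨j, c⟩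
    constructor
    · rintro ⟨hc, σc, hσc, hE, hHit⟩
      obtain ⟨σ, hσ⟩ := restr hT hm' hσc
      have hσE : Ext1 h τ σ := by
        intro y hy
        rw [hσ]
        exact hE y
      have h5 : ∀ y : (RF (idl m) : IntermediateField (kk A B) ℂ), σc y = s ⟨σ, hσE⟩ y := by
        intro y
        rw [hsv, hσ]
      have h6 := htr σc (s ⟨σ, hσE⟩) h5 _ _ hHit
      rw [hXi] at h6
      obtain ⟨e1, e2⟩ := h6
      rcases e2 with e2 | e2
      · refine ⟨(⟨σ, hσE⟩, true), ?_⟩
        refine Prod.ext e1.symm ?_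
        show cls ((m : ℕ) : OO A B) (sg ⟨σ, hσE⟩ true) = c
        rw [← cls_out c, eq_comm, cls_eq_iff]
        simpa [sg] using e2
      · refine ⟨(⟨σ, hσE⟩, false), ?_⟩
        refine Prod.ext e1.symm ?_
        show cls ((m : ℕ) : OO A B) (sg ⟨σ, hσE⟩ false) = c
        rw [← cls_out c, eq_comm, cls_eq_iff]
        simpa [sg] using e2
    · rintro ⟨⟨σ, b⟩, hq⟩
      obtain ⟨rfl, rfl⟩ := Prod.mk.inj hq
      refine ⟨?_, s σ, hs σ, ?_, hsg σ b _ (hout σ b)⟩
      · obtain ⟨w, hw⟩ := hout σ b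
        have e1 : Quotient.out (cls ((m : ℕ) : OO A B) (sg σ b)) =
            sg σ b + ((m : ℕ) : OO A B) * w := by
          rw [← hw]; ring
        have e2 : IsCoprime (sg σ b) ((m : ℕ) : OO A B) := by
          cases b
          · simpa [sg] using (hXc σ).neg_left
          · simpa [sg] using hXc σ
        show IsCoprime (Quotient.out (cls ((m : ℕ) : OO A B) (sg σ b))) _
        rw [e1]
        exact e2.add_mul_left_left w
      · intro y
        have h5 := σ.2 y (hD y y.2)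
        rw [← hsv] at h5
        exact h5
  have hval : ∀ q : S × Bool, ThetaH (R.L (g q).1) (H (g q).1)
      (Pool.Agent.MUX.pt R m (g q).1 (Quotient.out (g q).2)) =
      ((q.1.1 θ : (RF (idl m) : IntermediateField (kk A B) ℂ)) : ℂ) := by
    rintro ⟨σ, b⟩
    have h5 : Hits R m (s σ) (I σ) (Quotient.out (cls ((m : ℕ) : OO A B) (sg σ b))) :=
      hsg σ b _ (hout σ b)
    have h6 := hTH σ.1 (R.b (I σ)) (R.L (I σ)) (R.om (I σ)) (H (I σ))
      (Pool.Agent.MUX.pt R m (I σ) (Quotient.out (cls ((m : ℕ) : OO A B) (sg σ b))))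
      (R.nl _) (by rw [Int.cast_natCast]; exact hH _) h5.2.2
      (by rw [← hsv]; exact h5.1.symm) (by rw [← hsv]; exact h5.2.1)
    have h7 : θ = ⟨_, hzz⟩ := Subtype.ext hθ
    show _ = ((σ.1 θ : (RF (idl m) : IntermediateField (kk A B) ℂ)) : ℂ)
    rw [h7]
    exact h6.symm
  unfold cX cWt
  rw [hrange, finprod_mem_range hginj, finprod_congr hval, finprod_eq_prod_of_fintype,
    Fintype.prod_prod_type, finprod_eq_prod_of_fintype]
  simp only [Finset.prod_const, Finset.card_univ, Fintype.card_bool]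
  rw [Finset.prod_pow]

end

end Pool.Agent.MUXW


end

section

/-!
# MUX, block R3: module MU3, multipliers of ideals prime to `P` are units at the places above 3 and `P`

Adapted from `R2_MU2.lean` (helper12) by helper55.
-/

set_option autoImplicit false

namespace Pool.Agent.MUX3

open _root_.MU3 _root_.Pool.Agent.MU3A _root_.Pool.Agent.MU3B _root_.Pool.Agent.MUX _root_.Pool.Agent.MUXU _root_.Pool.Agent.MUX2
open WeierstrassCurve

open _root_.Pool.Agent.MUX2.Mu2 in
theorem t3_MU3 (h1 : S3_GD3) (h2 : S2_GR2) (h3 : S2_IT2) : S3_MU3 := by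
  intro A B hC h8 hLF P Q V hP hQ hPQ hV b b' a L M om om' mu hL hM ha hcop hq
  have hCQ : CQ A B := hC.toCQ
  have : IsDomain (OO A B) := isDom hCQ
  have := hP.prime
  obtain ⟨h, x, hh, hx, hax⟩ := hLF.fin a ha
  have hh1 : h - 1 + 1 = h := Nat.sub_add_cancel hh
  have hex : emb x ≠ 0 := fun h0 => hx ((em_eq_zero hCQ x).1 h0)
  have hxP : x ∉ P := by
    intro h0
    have h4 : a ^ h ≤ P := by
      rw [hax]
      exact (Ideal.span_singleton_le_iff_mem _).2 h0
    have h5 : a ≤ P := Ideal.IsPrime.le_of_pow_le h4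
    have h6 := Ideal.isCoprime_iff_sup_eq.1 hcop
    rw [sup_eq_right.2 h5] at h6
    exact hP.prime.ne_top h6
  have hvx : V.valuation (emb x) = 1 := hV.one x hxP
  -- the lattice M belongs to the ideal a^(h-1) b
  have hmu := hq.1
  have hMI : IsNL (a ^ (h - 1) * b) M (mu * om / emb x) :=
    { b_ne := mul_ne_zero (pow_ne_zero _ ha) hL.b_ne
      om_ne := div_ne_zero (mul_ne_zero hmu hL.om_ne) hex
      mem := by
        intro z
        have h4 : z = mu * (z / mu) := by field_simp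
        have h5 := hq.2 (z / mu)
        rw [← h4] at h5
        rw [h5, isq_iff hCQ a b h x L om hh hx hax hL.toIsLI]
        constructor
        · rintro ⟨u, hu, hu'⟩
          refine ⟨u, hu, ?_⟩
          field_simp at hu' ⊢
          linear_combination hu'
        · rintro ⟨u, hu, hu'⟩
          refine ⟨u, hu, ?_⟩
          rw [hu']
          field_simp
      nrm := hM.nrm }
  -- the chain
  have hch : ∀ i : ℕ, ∃ p : PeriodPair × ℂ, IsNL (a ^ ((h - 1) * i) * b) p.1 p.2 ∧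
      (i = 0 → p = (L, om)) ∧ (i = 1 → p = (M, mu * om / emb x)) := by
    intro i
    by_cases hi0 : i = 0
    · refine ⟨(L, om), ?_, fun _ => rfl, fun hi1 => absurd hi1 (by omega)⟩
      rw [hi0, mul_zero, pow_zero, Ideal.one_eq_top, Ideal.top_mul]
      exact hL
    by_cases hi1 : i = 1
    · refine ⟨(M, mu * om / emb x), ?_, fun h0 => absurd h0 hi0, fun _ => rfl⟩
      rw [hi1, mul_one]
      exact hMI
    · obtain ⟨L', om', h'⟩ := hLF.ex (a ^ ((h - 1) * i) * b)
        (mul_ne_zero (pow_ne_zero _ ha) hL.b_ne)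
      exact ⟨(L', om'), h', fun h0 => absurd h0 hi0, fun h0 => absurd h0 hi1⟩
  choose p hp hp0 hp1 using hch
  have hgr : ∀ i, ∃ (W : Affine ℂ) (ξ : ℂ →+ W.Point), GRG V W (p i).1
      (fun z => (p i).1.weierstrassP z - 1 / 12) (y2 (p i).1) ξ := by
    intro i
    obtain ⟨g1, g2, -⟩ := h1 A B hC h8 hLF P Q V hP hQ hPQ hV _ _ _ (hp i)
    obtain ⟨ξ, hξ⟩ := h2 V (p i).1 (hp i).nrm g1 g2
    exact ⟨_, ξ, hξ⟩
  have hstep : ∀ i, V.valuation (p (i + 1)).2 ≤ V.valuation (p i).2 := by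
    intro i
    have hmi : (p (i + 1)).2 * emb x / (p i).2 ≠ 0 :=
      div_ne_zero (mul_ne_zero (hp (i + 1)).om_ne hex) (hp i).om_ne
    have hI : Isg (p i).1 (p (i + 1)).1 ((p (i + 1)).2 * emb x / (p i).2) := by
      intro w hw
      obtain ⟨c, hc, hc'⟩ := ((hp i).mem w).1 hw
      refine ((hp (i + 1)).mem _).2 ⟨x * c, ?_, ?_⟩
      · have h4 : a ^ ((h - 1) * (i + 1)) * b = a ^ (h - 1) * (a ^ ((h - 1) * i) * b) := by
          rw [← mul_assoc, ← pow_add]
          congr 2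
          ring
        rw [h4]
        refine Ideal.mul_mem_mul ?_ hc
        have h5 : x ∈ a ^ h := by
          rw [hax]
          exact Ideal.mem_span_singleton_self x
        exact Ideal.pow_le_pow_right (by omega) h5
      · rw [hc', em_mul hCQ]
        have := (hp i).om_ne
        field_simp
    have h4 := (h3 V (p i).1 (p (i + 1)).1 (1 / 12) (1 / 12) _ (y2 (p i).1) (y2 (p (i + 1)).1)
      (hgr i) (hgr (i + 1)) hmi hI).1
    rw [map_div₀, map_mul, hvx, mul_one] at h4
    have h5 : V.valuation (p i).2 ≠ 0 := (V.valuation.ne_zero_iff).2 (hp i).om_ne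
    exact (div_le_one₀ (zero_lt_iff.2 h5)).1 h4
  have hanti : Antitone fun i => V.valuation (p i).2 := antitone_nat_of_succ_le hstep
  have hclose : V.valuation (p h).2 = V.valuation om := by
    have h4 : sp (1 : OO A B) * (a ^ ((h - 1) * h) * b) = sp (x ^ (h - 1)) * b := by
      rw [mul_comm (h - 1) h, pow_mul, hax, Ideal.span_singleton_pow]
      show Ideal.span {1} * (Ideal.span {x ^ (h - 1)} * b) = Ideal.span {x ^ (h - 1)} * b
      rw [Ideal.span_singleton_one, Ideal.top_mul]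
    have h5 := (hLF.eq _ _ _ _ _ _ 1 (x ^ (h - 1)) (hp h) hL one_ne_zero (pow_ne_zero _ hx) h4).2
    have h6 : V.valuation (emb (1 : OO A B)) = 1 :=
      hV.one 1 fun h0 => hP.prime.ne_top ((Ideal.eq_top_iff_one _).2 h0)
    have h7 : V.valuation (emb (x ^ (h - 1))) = 1 :=
      hV.one _ fun h0 => hxP (hP.prime.mem_of_pow_mem _ h0)
    rcases h5 with h5 | h5
    · have h8 := congrArg V.valuation h5
      rw [map_mul, map_mul, h6, h7, mul_one, mul_one] at h8
      exact h8.symm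
    · have h8 := congrArg V.valuation h5
      rw [Valuation.map_neg, map_mul, map_mul, h6, h7, mul_one, mul_one] at h8
      exact h8.symm
  have e0 : p 0 = (L, om) := hp0 0 rfl
  have e1 : p 1 = (M, mu * om / emb x) := hp1 1 rfl
  have h4 : V.valuation (p 1).2 = V.valuation om := by
    refine le_antisymm ?_ ?_
    · have := hanti (Nat.zero_le 1)
      simpa only [e0] using this
    · rw [← hclose]
      exact hanti (show 1 ≤ h from hh)
  rw [e1, map_div₀, map_mul, hvx, div_one] at h4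
  have h5 : V.valuation om ≠ 0 := (V.valuation.ne_zero_iff).2 hL.om_ne
  exact mul_right_cancel₀ h5 (by rw [h4, one_mul])

end Pool.Agent.MUX3


end

section

/-!
# MUX, block R at the places above 2: CHN, periodic chains: valuations

Written by helper77 after the pattern of `R3_CHN` (helper95).
-/

set_option autoImplicit false

namespace Pool.Agent.MUX2

open _root_.MU3 _root_.Pool.Agent.MU3A _root_.Pool.Agent.MU3B _root_.Pool.Agent.MUX _root_.Pool.Agent.MUXU
open WeierstrassCurve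

noncomputable section

namespace ChnV2

variable {V : ValuationSubring ℂ}

theorem int_le (n : ℤ) : V.valuation (n : ℂ) ≤ 1 := by
  rw [ValuationSubring.valuation_le_one_iff]
  exact intCast_mem V n

theorem v48 : V.valuation (48 : ℂ) ≤ V.valuation 2 ^ 4 := by
  have h := int_le (V := V) 3
  have e : (48 : ℂ) = 2 ^ 4 * ((3 : ℤ) : ℂ) := by norm_num
  rw [e, map_mul, map_pow]
  exact mul_le_of_le_one_right' h

theorem v4096 : V.valuation (4096 : ℂ) = V.valuation 2 ^ 12 := by
  have e : (4096 : ℂ) = 2 ^ 12 := by norm_num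
  rw [e, map_pow]

/-- one step -/
theorem step (hv : V.valuation (2 : ℂ) < 1) {r S X : ℂ} (hrS : r * S = 4096) (hX : X ≠ 0)
    (h : X ^ 2 + (48 + r) * X = S)
    (hS : V.valuation 2 ^ 8 < V.valuation S) :
    V.valuation X ^ 2 = V.valuation S ∧ V.valuation 2 ^ 8 < V.valuation X := by
  set t := V.valuation (2 : ℂ) with ht
  have ht0 : 0 < t := by
    rw [ht, zero_lt_iff, Valuation.ne_zero_iff]
    norm_num
  have hb0 : 0 < V.valuation X := by
    rw [zero_lt_iff, Valuation.ne_zero_iff]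
    exact hX
  set b := V.valuation X with hb
  have htp : ∀ {i j : ℕ}, i ≤ j → t ^ j ≤ t ^ i := fun hij =>
    pow_le_pow_of_le_one zero_le hv.le hij
  have hr : V.valuation r ≤ t ^ 4 := by
    have h1 : V.valuation r * V.valuation S = t ^ 12 := by
      rw [← map_mul, hrS, v4096]
    have h2 : V.valuation r * t ^ 8 ≤ t ^ 4 * t ^ 8 := by
      calc V.valuation r * t ^ 8 ≤ V.valuation r * V.valuation S := by gcongr
        _ = t ^ 4 * t ^ 8 := by rw [h1, ← pow_add]
    exact le_of_mul_le_mul_right h2 (pow_pos ht0 8)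
  have h48 : V.valuation (48 + r) ≤ t ^ 4 := Valuation.map_add_le _ v48 hr
  have hfirst : V.valuation X ^ 2 = V.valuation S := by
    by_contra hne
    have hne' : V.valuation (X ^ 2) ≠ V.valuation S := by rwa [map_pow]
    have hmax : V.valuation (X ^ 2 - S) = max (V.valuation (X ^ 2)) (V.valuation S) := by
      have h1 : V.valuation (X ^ 2) ≠ V.valuation (-S) := by rwa [Valuation.map_neg]
      have h2 := Valuation.map_add_of_distinct_val V.valuation h1
      rwa [← sub_eq_add_neg, Valuation.map_neg] at h2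
    have hle : V.valuation (X ^ 2 - S) ≤ t ^ 4 * b := by
      have e : X ^ 2 - S = -((48 + r) * X) := by
        linear_combination h
      rw [e, Valuation.map_neg, map_mul]
      gcongr
    rw [hmax, map_pow] at hle
    have h3 : b ^ 2 ≤ t ^ 4 * b := (le_max_left _ _).trans hle
    have h4 : V.valuation S ≤ t ^ 4 * b := (le_max_right _ _).trans hle
    have h5 : b ≤ t ^ 4 := by
      have : b * b ≤ t ^ 4 * b := by
        calc b * b = b ^ 2 := by rw [pow_two]
          _ ≤ _ := h3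
      exact le_of_mul_le_mul_right this hb0
    have h6 : V.valuation S ≤ t ^ 8 := by
      calc V.valuation S ≤ t ^ 4 * b := h4
        _ ≤ t ^ 4 * t ^ 4 := by gcongr
        _ = t ^ 8 := by rw [← pow_add]
    exact absurd hS (not_lt.2 h6)
  refine ⟨hfirst, ?_⟩
  by_contra hlt
  rw [not_lt] at hlt
  have h8 : b ^ 2 ≤ t ^ 8 := by
    calc b ^ 2 ≤ (t ^ 8) ^ 2 := by gcongr
      _ = t ^ 16 := by rw [← pow_mul]
      _ ≤ t ^ 8 := htp (by norm_num)
  rw [hfirst] at h8
  exact absurd hS (not_lt.2 h8)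

end ChnV2

open _root_.Pool.Agent.MUX2.ChnV2 in
theorem t2_CHN : S2_CHN := by
  intro V s h hv hrec hh hper
  set t := V.valuation (2 : ℂ) with ht
  have ht0 : 0 < t := by
    rw [ht, zero_lt_iff, Valuation.ne_zero_iff]
    norm_num
  have hts : ∀ {i j : ℕ}, i < j → t ^ j < t ^ i := fun hij =>
    pow_lt_pow_right_of_lt_one₀ ht0 hv hij
  have hs0 : ∀ i, 0 < V.valuation (s i) := fun i => by
    rw [zero_lt_iff, Valuation.ne_zero_iff]
    exact (hrec i).1
  have hper' : ∀ i k, s (i + h * k) = s i := by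
    intro i k
    induction k with
    | zero => simp
    | succ k ih =>
      have : i + h * (k + 1) = (i + h * k) + h := by ring
      rw [this, hper, ih]
  have h3h : 2 ^ h ≠ 1 := by
    have := Nat.one_lt_pow (by omega : h ≠ 0) (by norm_num : 1 < 2)
    omega
  -- an element with `x ^ (2 ^ h) = x` is `1`
  have hone : ∀ x : V.ValueGroup, 0 < x → x ^ 2 ^ h = x → x = 1 := by
    intro x hx hxx
    have hx0 : x ≠ 0 := hx.ne'
    obtain ⟨k, hk⟩ : ∃ k, 2 ^ h = k + 1 := ⟨2 ^ h - 1, by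
      have := Nat.one_le_pow h 2 (by norm_num)
      omega⟩
    have hk0 : k ≠ 0 := by
      rintro rfl
      exact h3h (by simpa using hk)
    rw [hk, pow_succ] at hxx
    have h1 : x ^ k = 1 := by
      have h2 : x ^ k * x = 1 * x := by rw [hxx, one_mul]
      exact mul_right_cancel₀ hx0 h2
    exact (pow_eq_one_iff_of_nonneg zero_le hk0).1 h1
  by_cases hcase : ∃ i, t ^ 8 < V.valuation (s i)
  · left
    obtain ⟨i₀, hi₀⟩ := hcase
    have hstep : ∀ i, t ^ 8 < V.valuation (s i) → V.valuation (s (i + 1)) ^ 2 = V.valuation (s i) ∧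
        t ^ 8 < V.valuation (s (i + 1)) := by
      intro i hi
      obtain ⟨hne, he⟩ := hrec i
      exact step hv (r := 4096 / s i) (div_mul_cancel₀ _ hne) (hrec (i + 1)).1 he hi
    have hge : ∀ k, t ^ 8 < V.valuation (s (i₀ + k)) := by
      intro k
      induction k with
      | zero => simpa using hi₀
      | succ k ih => exact (hstep _ ih).2
    have hall : ∀ j, t ^ 8 < V.valuation (s j) := by
      intro j
      rw [← hper' j i₀]
      have h1 : i₀ ≤ j + h * i₀ := by nlinarith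
      obtain ⟨k, hk⟩ := Nat.exists_eq_add_of_le h1
      rw [hk]
      exact hge k
    intro j
    have hpow : ∀ k, V.valuation (s (j + k)) ^ 2 ^ k = V.valuation (s j) := by
      intro k
      induction k with
      | zero => simp
      | succ k ih =>
        rw [← ih, pow_succ', pow_mul]
        congr 1
        exact (hstep _ (hall (j + k))).1
    have h1 := hpow h
    rw [hper] at h1
    exact hone _ (hs0 j) h1
  · right
    push Not at hcase
    have hrel : ∀ i, V.valuation (4096 / s i) * V.valuation (s i) = t ^ 12 := by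
      intro i
      rw [← map_mul, div_mul_cancel₀ _ (hrec i).1, v4096]
    have hr0 : ∀ i, 0 < V.valuation (4096 / s i) := fun i => by
      rw [zero_lt_iff, Valuation.ne_zero_iff]
      exact div_ne_zero (by norm_num) (hrec i).1
    have hr : ∀ i, t ^ 8 < V.valuation (4096 / s i) := by
      intro i
      by_contra hlt
      rw [not_lt] at hlt
      have h1 : V.valuation (4096 / s i) * V.valuation (s i) < t ^ 12 := by
        calc V.valuation (4096 / s i) * V.valuation (s i) ≤ t ^ 8 * t ^ 8 := by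
              exact mul_le_mul' hlt (hcase i)
          _ = t ^ 16 := by rw [← pow_add]
          _ < t ^ 12 := hts (by norm_num)
      exact absurd (hrel i) h1.ne
    have hstep : ∀ i, V.valuation (4096 / s i) ^ 2 = V.valuation (4096 / s (i + 1)) := by
      intro i
      obtain ⟨hne, he⟩ := hrec i
      have hne' := (hrec (i + 1)).1
      refine (step hv (r := s (i + 1)) (S := 4096 / s (i + 1)) (X := 4096 / s i) ?_ ?_ ?_
        (hr (i + 1))).1
      · field_simp
      · exact div_ne_zero (by norm_num) hne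
      · rw [eq_div_iff hne']
        have h2 : (4096 / s i) * s i = 4096 := div_mul_cancel₀ _ hne
        obtain ⟨ρ, hρ⟩ : ∃ ρ, ρ = 4096 / s i := ⟨_, rfl⟩
        rw [← hρ] at he h2 ⊢
        linear_combination ρ * he + h2
    intro j
    have hpow : ∀ k, V.valuation (4096 / s j) ^ 2 ^ k = V.valuation (4096 / s (j + k)) := by
      intro k
      induction k with
      | zero => simp
      | succ k ih =>
        rw [pow_succ, pow_mul, ih]
        exact hstep (j + k)
    have h1 := hpow h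
    rw [hper] at h1
    have h2 := hone _ (hr0 j) h1
    have h3 := hrel j
    rwa [h2, one_mul] at h3

end

end Pool.Agent.MUX2


end
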