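import Mathlib
import Pool.Agent.MVF.C014
import Pool.Agent.MVF.C025
import Pool.Agent.MVF.C026
import Pool.Agent.MVF.C035
import Pool.Agent.MVF.C072

/-! Parts: MUX.Y_UV, MUX.Y_TER, MUX.Y_FIN, MUX.Y_FEC, MUX.Y_EXI, MUX.Y_ALM, MU3.G_G6c, MUX.N_GJ, N2.G_LcnP, N2.G_Gen, N2.G_BinT, MUX.I_HFX, MUX.N_GTHX, MUX.E_WI -/

namespace Pool.Agent.MU3G.G6c
end Pool.Agent.MU3G.G6c
namespace Pool.Agent.MUXE.WI19
end Pool.Agent.MUXE.WI19
namespace Pool.Agent.MUXI.HFXm
end Pool.Agent.MUXI.HFXm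
namespace Pool.Agent.MUXN.N_GJ
end Pool.Agent.MUXN.N_GJ
namespace Pool.Agent.MUXY.Y_FIN
end Pool.Agent.MUXY.Y_FIN
namespace Pool.Agent.N2.BinT
end Pool.Agent.N2.BinT

section

/-!
# MUX, section 9: the number `u = f (N b)` is prime to the conductor
-/

set_option autoImplicit false

namespace Pool.Agent.MUXY

open _root_.MU3 _root_.Pool.Agent.MU3A _root_.Pool.Agent.MU3B _root_.Pool.Agent.MUXU OnePoint
open _root_.Pool.Agent.MU3F (ex)
open _root_.Pool.Agent.MUXF (Sx_ALG Sx_IDL Sx_NIM Sx_QB Sx_SMB Sx_F4 qb sumB)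

theorem ty_UV (h2 : Sx_IDL) (h3 : Sx_NIM) : Sy_UV := by
  intro A B hQ m a b c g u hb hc hm ha hNb hNc hu
  obtain ⟨-, hbb⟩ := h2 A B hQ b hb
  obtain ⟨-, hcc⟩ := h2 A B hQ c hc
  obtain ⟨-, -, -, hcan⟩ := h3 A B hQ
  rw [← hbb] at hNb hu
  rw [← hcc] at hNc
  have c1 : IsCoprime (MUXF.cjI b) g := IsCoprime.of_mul_left_right hNb
  have c2 : IsCoprime c g := IsCoprime.of_mul_left_left hNc
  have c3 : IsCoprime a g := by
    rw [Ideal.isCoprime_iff_sup_eq] at ha ⊢
    rw [eq_top_iff, ← ha]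
    apply sup_le_sup_left
    exact (Ideal.span_singleton_le_iff_mem g).2 hm
  have e : MUXF.sp u = MUXF.cjI b * (a * c) := by
    have e1 : b * MUXF.sp u = b * (MUXF.cjI b * (a * c)) := by
      rw [mul_comm b, hu, mul_assoc]
    apply le_antisymm
    · exact (hcan b _ _ hb).1 e1.le
    · exact (hcan b _ _ hb).1 e1.ge
  rw [e]
  exact c1.mul_left (c3.mul_left c2)

end Pool.Agent.MUXY


end

section

/-!
# MUX, section 9, module TER: conjugation of a term of F4
-/

set_option autoImplicit false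

namespace Pool.Agent.MUXY

open _root_.MU3 _root_.Pool.Agent.MU3A _root_.Pool.Agent.MU3B _root_.Pool.Agent.MUXU OnePoint
open _root_.Pool.Agent.MU3F (ex)
open _root_.Pool.Agent.MUXF (Sx_ALG Sx_IDL Sx_NIM Sx_QB Sx_SMB Sx_F4 qb sumB)

noncomputable section

namespace Ter

lemma ex_int (n : ℤ) : ex (n : ℚ) = 1 := by
  unfold Pool.Agent.MU3F.ex
  rw [Complex.exp_eq_one_iff]
  exact ⟨n, by push_cast; ring⟩

lemma ex_nat_mul (a : ℕ) (r : ℚ) : ex (a * r) = ex r ^ a := by
  unfold Pool.Agent.MU3F.ex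
  rw [← Complex.exp_nat_mul]
  congr 1
  push_cast
  ring

end Ter

/-- TER. Conjugation of a term of F4. -/
theorem ty_TER (hALG : Sx_ALG) (hEE : Sy_EE) (hQBF : Sy_QBF) : Sy_TER := by
  intro A B hcq σ m a b c L L' om om' mu f hb hc hA hf hroot g e hE hg hm hmg M hM hMm β x hx
  obtain ⟨hop, hz0, hn0, -, -⟩ := hALG A B hcq
  have hmul : ∀ x y : OO A B, emb (x * y) = emb x * emb y := fun x y => (hop x y).1
  have hadd : ∀ x y : OO A B, emb (x + y) = emb x + emb y := fun x y => (hop x y).2.1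
  have hneg : ∀ x : OO A B, emb (-x) = -emb x := by
    intro x
    have h1 := hadd x (-x)
    rw [add_neg_cancel, (hz0 0).1.2 rfl] at h1
    linear_combination -h1
  have hinj : ∀ x y : OO A B, emb x = emb y → x = y := by
    intro x y h
    have h1 : emb (x + -y) = 0 := by rw [hadd, hneg, h, add_neg_cancel]
    have h2 := (hz0 _).1.1 h1
    rwa [← sub_eq_add_neg, sub_eq_zero] at h2
  set u : OO A B := f ((MUXF.nI b : ℕ) : OO A B) with hu
  -- the character
  have hch : σ (e u) * σ (e x) = σ (e ((MUXF.nI b : ℕ) : OO A B)) * σ (e (f x)) := by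
    rw [← map_mul, ← map_mul, ← hE.mul, ← hE.mul, hf.nb x hx]
  by_cases hx0 : e x = 0
  · have h1 : σ (e ((MUXF.nI b : ℕ) : OO A B)) * σ (e (f x)) = 0 := by
      rw [← hch, hx0, map_zero, mul_zero]
    rw [hx0, zero_mul, zero_mul, map_zero, mul_zero, ← mul_assoc, ← mul_assoc, h1, zero_mul,
      zero_mul]
  · have hmC : (m : ℂ) ≠ 0 := by exact_mod_cast hm
    have hom : om ≠ 0 := hb.om_ne
    have hom' : om' ≠ 0 := hc.om_ne
    -- the point `z`
    have hz1 : (m : ℂ) * (om * emb x / m) ∈ L.lattice := by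
      rw [mul_div_cancel₀ _ hmC]
      exact (hb.mem _).2 ⟨x, hx, rfl⟩
    have hz2 : om * emb x / m ∉ L.lattice := by
      intro h
      obtain ⟨s, hs, hs1⟩ := (hb.mem _).1 h
      rw [div_eq_iff hmC] at hs1
      have h1 : emb x = emb ((m : ℕ) * s : OO A B) := by
        have h2 : emb ((m : ℕ) : OO A B) = (m : ℂ) := by
          have h3 := (hn0 (m : ℤ)).1
          rwa [Int.cast_natCast, Int.cast_natCast] at h3
        rw [hmul, h2]
        apply mul_left_cancel₀ hom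
        rw [hs1]
        ring
      have h2 := hinj _ _ h1
      have h3 : x ∈ g := by
        rw [h2]
        exact g.mul_mem_right s hmg
      have h4 := (hE.supp x).1 hx0
      rw [Ideal.isCoprime_iff_sup_eq] at h4
      apply hg
      have h5 : MUXF.sp x ≤ g := (Ideal.span_singleton_le_iff_mem g).2 h3
      rw [← h4]
      exact (sup_eq_right.2 h5).symm
    obtain ⟨a1, a2, a3⟩ := hA.act _ hz1 hz2
    have hee : ee L' (mu * (om * emb x / m)) = σ (ee L (om * emb x / m)) :=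
      hEE σ L L' hA.cj (m : ℤ) _ _ (by exact_mod_cast hm) (by exact_mod_cast hz1) hz2 a1 a2 a3
    have hpt : mu * (om * emb x / m) = om' * emb (f x) / m := by
      rw [hf.eq x hx]
      ring
    -- the root of unity
    have hMQ : (M : ℚ) ≠ 0 := by exact_mod_cast hM
    have hζ : ex (β * qb b x / M) ^ m = 1 := by
      obtain ⟨d, hd⟩ := hMm
      rw [← Ter.ex_nat_mul]
      have h1 : (m : ℚ) * (β * qb b x / M) = ((d * (β * qb b x) : ℤ) : ℚ) := by
        rw [hd]
        push_cast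
        field_simp
      rw [h1]
      exact Ter.ex_int _
    have hσζ : σ (ex (β * qb b x / M)) = ex (β * qb c (f x) / M) := by
      rw [hroot _ hζ, ← Ter.ex_nat_mul,
        hQBF A B hcq σ m a b c L L' om om' mu f hb hc hA hf x hx]
      congr 1
      push_cast
      ring
    rw [map_mul, map_mul, hσζ, ← hee, hpt]
    linear_combination (ex (β * qb c (f x) / M) * ee L' (om' * emb (f x) / m)) * hch

end

end Pool.Agent.MUXY


end

section

/-!
# MUX, section 9: conjugation of the symbols at finitely many pairs of cusps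
-/

set_option autoImplicit false

namespace Pool.Agent.MUXY

open _root_.MU3 _root_.Pool.Agent.MU3A _root_.Pool.Agent.MU3B _root_.Pool.Agent.MUXU OnePoint
open _root_.Pool.Agent.MU3F (ex)
open _root_.Pool.Agent.MUXF (Sx_ALG Sx_IDL Sx_NIM Sx_QB Sx_SMB Sx_F4 qb sumB)

namespace Y_FIN

/-- the denominator of a cusp -/
noncomputable def dnm (x : OnePoint ℚ) : ℕ := x.elim 1 (fun r : ℚ => r.den)

theorem dnm_ne (x : OnePoint ℚ) : dnm x ≠ 0 := by
  induction x using OnePoint.rec with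
  | infty => exact one_ne_zero
  | coe r => exact r.den_ne_zero

theorem dn_of {m : ℕ} {x : OnePoint ℚ} (h : dnm x ∣ m) : Dn m x := by
  intro r hr
  subst hr
  exact h

/-- a common level -/
theorem level {A B : ℤ} (g : Ideal (OO A B)) (N : ℕ) (hN : N ≠ 0) (hNg : ((N : ℕ) : OO A B) ∈ g)
    (S : Finset (OnePoint ℚ × OnePoint ℚ)) :
    ∃ m : ℕ, m ≠ 0 ∧ ((m : ℕ) : OO A B) ∈ g ∧ ∀ q ∈ S, Dn m q.1 ∧ Dn m q.2 := by
  refine ⟨N * ∏ q ∈ S, dnm q.1 * dnm q.2, ?_, ?_, ?_⟩
  · apply mul_ne_zero hN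
    apply Finset.prod_ne_zero_iff.2
    intro q _
    exact mul_ne_zero (dnm_ne _) (dnm_ne _)
  · rw [Nat.cast_mul]
    exact Ideal.mul_mem_right _ _ hNg
  · intro q hq
    have h1 : dnm q.1 * dnm q.2 ∣ N * ∏ q ∈ S, dnm q.1 * dnm q.2 :=
      (Finset.dvd_prod_of_mem (fun q => dnm q.1 * dnm q.2) hq).trans (Dvd.intro_left _ rfl)
    exact ⟨dn_of ((Dvd.intro _ rfl).trans h1), dn_of ((Dvd.intro_left _ rfl).trans h1)⟩

end Y_FIN

open _root_.Pool.Agent.MUXY.Y_FIN in
theorem ty_FIN (h2 : Sx_IDL) (h3 : Sx_NIM) (h4 : Sy_RAT) (h5 : Sy_EXI) : Sy_FIN := by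
  intro A B hQ hT n ι R g e hg hg1 he hcop σ hσ i S
  obtain ⟨m, hm, hmg, hS⟩ := level g (MUXF.nI g) (h2 A B (cqF hQ) g hg).1
    ((h3 A B (cqF hQ)).2.2.1 g hg).2.2.2 S
  obtain ⟨j, a, mu, hact, hz⟩ := h5 A B hQ hT n ι R σ hσ m hm i
  obtain ⟨C, hC, hx, hxy⟩ := h4 A B (cqF hQ) σ m a (R.b i) (R.b j) (R.L i) (R.L j) (R.om i)
    (R.om j) mu (liF (R.nl i).toIsLI) (liF (R.nl j).toIsLI) hact hz g e (eiF he) hg1 hm hmg
    (hcop i) (hcop j)
  exact ⟨j, C, hact.cj, hC, hx, fun q hq => hxy q.1 q.2 (hS q hq).1 (hS q hq).2⟩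

end Pool.Agent.MUXY


end

section

/-!
# Module MUXY_FEC (helper25): finitely many conjugates of a character
-/

set_option autoImplicit false

namespace Pool.Agent.MUXY

open _root_.MU3 _root_.Pool.Agent.MU3A _root_.Pool.Agent.MU3B _root_.Pool.Agent.MUXU OnePoint
open _root_.Pool.Agent.MU3F (ex)
open _root_.Pool.Agent.MUXF (Sx_ALG Sx_IDL Sx_NIM Sx_QB Sx_SMB Sx_F4 qb sumB)

namespace Y_FEC

theorem fin (r : ℕ) (hr : r ≠ 0) : {z : ℂ | z = 0 ∨ z ^ r = 1}.Finite := by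
  have h0 : (Polynomial.X ^ r - 1 : Polynomial ℂ) ≠ 0 :=
    Polynomial.X_pow_sub_C_ne_zero (Nat.pos_of_ne_zero hr) (1 : ℂ)
  have h1 : {z : ℂ | z ^ r = 1}.Finite := by
    refine ((Polynomial.X ^ r - 1 : Polynomial ℂ).roots.toFinset.finite_toSet).subset ?_
    intro z hz
    have hz' : z ^ r = 1 := hz
    simp only [Finset.mem_coe, Multiset.mem_toFinset]
    rw [Polynomial.mem_roots h0]
    simp [hz']
  exact (Set.finite_singleton (0 : ℂ)).union h1

theorem st (r : ℕ) (σ : ℂ ≃+* ℂ) (z : ℂ) (hz : z ∈ {z : ℂ | z = 0 ∨ z ^ r = 1}) :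
    σ z ∈ {z : ℂ | z = 0 ∨ z ^ r = 1} := by
  rcases hz with h | h
  · left; rw [h, map_zero]
  · right; rw [← map_pow, h, map_one]

end Y_FEC

theorem ty_FEC : Sy_FEC := by
  intro A B e r hr he
  have hm : ∀ x, e x ∈ {z : ℂ | z = 0 ∨ z ^ r = 1} := by
    intro x
    by_cases h : e x = 0
    · exact Or.inl h
    · exact Or.inr (he x h)
  constructor
  · have hf : Finite {z : ℂ | z = 0 ∨ z ^ r = 1} := (Y_FEC.fin r hr).to_subtype
    refine (Set.finite_range
      (fun (f : {z : ℂ | z = 0 ∨ z ^ r = 1} → {z : ℂ | z = 0 ∨ z ^ r = 1}) (x : OO A B) =>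
        (f ⟨e x, hm x⟩ : ℂ))).subset ?_
    rintro e' ⟨σ, rfl⟩
    exact ⟨fun z => ⟨σ z, Y_FEC.st r σ z z.2⟩, rfl⟩
  · refine (Y_FEC.fin r hr).subset ?_
    rintro z ⟨σ, x, rfl⟩
    exact Y_FEC.st r σ _ (hm x)

end Pool.Agent.MUXY


end

section

/-!
# MUX, section 9, module EXI (helper9): existence of the action for the lattices `R.L i`
-/

set_option autoImplicit false

namespace Pool.Agent.MUXY

open _root_.MU3 _root_.Pool.Agent.MU3A _root_.Pool.Agent.MU3B _root_.Pool.Agent.MUXU OnePoint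

theorem ty_EXI (h1 : Sy_SAM) (h2 : Sy_BRI) : Sy_EXI := by
  intro A B h T n ι R σ hσ m hm i
  have hid : MUX.idl (A := A) (B := B) m ≠ ⊥ := by
    intro h0
    have h3 : ((m : ℕ) : OO A B) = 0 := by
      have h4 : ((m : ℕ) : OO A B) ∈ MUX.idl (A := A) (B := B) m :=
        Ideal.mem_span_singleton_self _
      rw [h0] at h4
      exact (Ideal.mem_bot).1 h4
    have h5 := congrArg QuadraticAlgebra.re h3
    rw [QuadraticAlgebra.re_natCast, QuadraticAlgebra.re_zero] at h5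
    exact hm (by exact_mod_cast h5)
  obtain ⟨a, ha, hact⟩ := T.act (MUX.idl m) hid σ hσ
  obtain ⟨b', L', om', mu, hN, hA⟩ := hact (R.b i) (R.L i) (R.om i) (R.nl i)
  obtain ⟨j, x, y, hx, hy, hxy⟩ := R.surj b' hN.b_ne
  refine ⟨j, a, mu, ?_, ?_⟩
  · exact h2 A B h σ m a (R.b i) b' (R.L i) L' (R.L j) (R.om i) om' mu (R.nl i) hN hA
      (h1 A B h b' (R.b j) L' (R.L j) om' (R.om j) x y hN (R.nl j) hx hy hxy)
  · intro z hz
    exact (T.zeta m (MUX.idl m) a σ (R.b i) (R.L i) L' (R.om i) mu hid hσ hm le_rfl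
      (R.nl i) hA z hz).2

end Pool.Agent.MUXY


end

section

/-!
# MUX, section 9, module ALM: the multipliers are algebraic
-/

set_option autoImplicit false

namespace Pool.Agent.MUXY

open _root_.MU3 _root_.Pool.Agent.MU3A _root_.Pool.Agent.MU3B _root_.Pool.Agent.MUXU OnePoint
open _root_.Pool.Agent.MU3F (ex)
open _root_.Pool.Agent.MUXF (Sx_ALG Sx_IDL Sx_NIM Sx_QB Sx_SMB Sx_F4 qb sumB)

noncomputable section

namespace ALM

variable {A B : ℤ}

/-- `k` is algebraic over `ℚ` -/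
theorem kk_alg (h1 : Sx_ALG) (h : MUX.CQ A B) : Algebra.IsAlgebraic ℚ (kk A B) := by
  have hw : wC A B ^ 2 = A + B * wC A B := by
    have h2 := ((h1 A B (cqF h)).1 ⟨0, 1⟩ ⟨0, 1⟩).1
    have h3 : (⟨0, 1⟩ * ⟨0, 1⟩ : OO A B) = ⟨A, B⟩ := by
      apply QuadraticAlgebra.ext
      · simp only [QuadraticAlgebra.re_mul]
        ring
      · simp only [QuadraticAlgebra.im_mul]
        ring
    rw [h3] at h2
    unfold emb at h2
    simp only [Int.cast_zero, Int.cast_one, zero_add, one_mul] at h2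
    rw [sq, ← h2]
  refine IntermediateField.isAlgebraic_adjoin fun x hx => ?_
  rw [Set.mem_singleton_iff] at hx
  subst hx
  refine ⟨Polynomial.X ^ 2 - (Polynomial.C (B : ℚ) * Polynomial.X + Polynomial.C (A : ℚ)), ?_, ?_⟩
  · apply Polynomial.monic_X_pow_sub
    exact lt_of_le_of_lt Polynomial.degree_linear_le (by norm_num)
  · rw [Polynomial.eval₂_sub, Polynomial.eval₂_pow, Polynomial.eval₂_X, Polynomial.eval₂_add,
      Polynomial.eval₂_mul, Polynomial.eval₂_C, Polynomial.eval₂_C, Polynomial.eval₂_X, map_intCast,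
      map_intCast, hw]
    ring

/-- an automorphism which fixes `kk A B` fixes `wC` -/
theorem fixK (σ : ℂ ≃+* ℂ) (h : ∀ a ∈ kk A B, σ a = a) : MUX.FixK A B σ := h _ (wC_mem A B)

end ALM

/-- (ALM) -/
theorem ty_ALM (h1 : Sx_ALG) (h2 : Sx_IDL) (h3 : Sy_EXI) (h4 : Sy_MUC) (h5 : Sy_MUU)
    (h6 : Sy_MUI) (h7 : Su_AUT) : Sy_ALM := by
  intro A B hcq hT n ι hι R i
  have key : IsAlgebraic ℚ (MUX.muX R i) := by
    refine h7 (kk A B) (ALM.kk_alg h1 hcq) _ ?_
    have hfin : (⋃ l : ι, ⋃ j : ι, {s : ℂ | MUX.IsQ (MUX.cjI (R.b i)) (R.L l) (R.L j) s}).Finite := by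
      refine Set.finite_iUnion fun l => Set.finite_iUnion fun j => ?_
      by_cases hex : ∃ s₀ : ℂ, MUX.IsQ (MUX.cjI (R.b i)) (R.L l) (R.L j) s₀
      · obtain ⟨s₀, hs₀⟩ := hex
        refine (Set.toFinite {s₀, -s₀}).subset fun s hs => ?_
        rcases h5 A B (MUX.cjI (R.b i)) (R.L l) (R.L j) s₀ s (R.nl j).nrm hs₀ hs with h | h
        · exact Or.inl h
        · exact Or.inr h
      · refine Set.finite_empty.subset fun s hs => ?_
        exact absurd ⟨s, hs⟩ hex
    refine hfin.subset ?_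
    rintro y ⟨σ, hσ, rfl⟩
    have hfix : MUX.FixK A B σ := ALM.fixK σ hσ
    obtain ⟨l, _, _, hl, _⟩ := h3 A B hcq hT n ι R σ hfix 1 one_ne_zero R.i0
    obtain ⟨j, _, _, hj, _⟩ := h3 A B hcq hT n ι R σ hfix 1 one_ne_zero i
    have h8 := h4 A B hcq σ hfix (MUX.cjI (R.b i)) (R.b R.i0) (R.L R.i0) (R.L i) (R.L l) (R.L j)
      (R.om R.i0) (MUX.muX R i) (R.nl R.i0).toIsLI hl.cj hj.cj (h6 A B hcq n ι R i)
    exact Set.mem_iUnion.2 ⟨l, Set.mem_iUnion.2 ⟨j, h8⟩⟩
  refine ⟨key, ?_⟩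
  have hN : ((MUX.nI (R.b i) : ℕ) : ℂ) ≠ 0 := by
    have h8 : MUX.nI (R.b i) ≠ 0 := (h2 A B (cqF hcq) (R.b i) (R.nl i).b_ne).1
    exact_mod_cast h8
  have h9 : R.om i / R.om R.i0 = MUX.muX R i * ((MUX.nI (R.b i) : ℕ) : ℂ)⁻¹ := by
    unfold MUX.muX
    field_simp
  rw [h9]
  exact key.mul (isAlgebraic_natCast _).inv

end

end Pool.Agent.MUXY


end

section

/-!
# MU3, block G, G6c: the function `Z` is periodic modulo `L` under `Γ₁(N')`
-/

set_option autoImplicit false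

namespace Pool.Agent.MU3G

open _root_.MU3 _root_.Pool.Agent.MuSym OnePoint NumberField

noncomputable section

namespace G6c

open Matrix MatrixGroups

lemma emb_mul {A B : ℤ} (hc : Case A B) (x y : OO A B) : emb (x * y) = emb x * emb y := by
  rw [← embHom_apply hc, ← embHom_apply hc, ← embHom_apply hc, map_mul]

lemma emb_intCast {A B : ℤ} (hc : Case A B) (k : ℤ) : emb (k : OO A B) = k := by
  rw [← embHom_apply hc, map_intCast]

/-- the product of two matrices acts on `∞` as it should -/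
lemma mob_mul_infty (a b c d a' b' c' d' : ℤ) (_h : a * d - b * c = 1)
    (h' : a' * d' - b' * c' = 1) :
    mob a b c d (mob a' b' c' d' ∞) =
      mob (a * a' + b * c') (a * b' + b * d') (c * a' + d * c') (c * b' + d * d') ∞ := by
  by_cases hc' : c' = 0
  · subst hc'
    have ha' : a' ≠ 0 := by
      rintro rfl
      simp at h'
    have e1 : mob a' b' 0 d' ∞ = ∞ := by simp [mob]
    rw [e1]
    by_cases hc : c = 0
    · subst hc
      simp [mob]
    · have h2 : c * a' + d * 0 ≠ 0 := by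
        simp [hc, ha']
      have q1 : (c : ℚ) ≠ 0 := by exact_mod_cast hc
      have q2 : (a' : ℚ) ≠ 0 := by exact_mod_cast ha'
      simp only [mob, OnePoint.elim_infty, if_neg hc, if_neg h2]
      congr 1
      push_cast
      field_simp
      ring
  · have q1 : (c' : ℚ) ≠ 0 := by exact_mod_cast hc'
    have e1 : mob a' b' c' d' ∞ = ((a' / c' : ℚ) : OnePoint ℚ) := by
      simp only [mob, OnePoint.elim_infty, if_neg hc']
    rw [e1]
    have e2 : (c : ℚ) * (a' / c') + d = ((c * a' + d * c' : ℤ) : ℚ) / c' := by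
      push_cast
      field_simp
    have e3 : (a : ℚ) * (a' / c') + b = ((a * a' + b * c' : ℤ) : ℚ) / c' := by
      push_cast
      field_simp
    by_cases hz : c * a' + d * c' = 0
    · have e4 : (c : ℚ) * (a' / c') + d = 0 := by
        rw [e2, hz]
        simp
      simp only [mob, OnePoint.elim_some, OnePoint.elim_infty, if_pos hz, if_pos e4]
    · have q3 : ((c * a' + d * c' : ℤ) : ℚ) ≠ 0 := by exact_mod_cast hz
      have e4 : (c : ℚ) * (a' / c') + d ≠ 0 := by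
        rw [e2]
        exact div_ne_zero q3 q1
      simp only [mob, OnePoint.elim_some, OnePoint.elim_infty, if_neg hz, if_neg e4]
      congr 1
      rw [e2, e3]
      field_simp

/-- the action on `∞` of an element of `SL(2, ℤ)` -/
def mI (h : SL(2, ℤ)) : OnePoint ℚ := mob (h 0 0) (h 0 1) (h 1 0) (h 1 1) ∞

lemma det_eq (h : SL(2, ℤ)) : h 0 0 * h 1 1 - h 0 1 * h 1 0 = 1 := by
  have := h.2
  rw [Matrix.det_fin_two] at this
  exact this

lemma mI_mul (h k : SL(2, ℤ)) :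
    mI (h * k) = mob (h 0 0) (h 0 1) (h 1 0) (h 1 1) (mI k) := by
  unfold mI
  rw [mob_mul_infty _ _ _ _ _ _ _ _ (det_eq h) (det_eq k)]
  simp [Matrix.SpecialLinearGroup.coe_mul, Matrix.mul_apply, Fin.sum_univ_two]

instance fgSL : Group.FG SL(2, ℤ) := by
  rw [Group.fg_iff]
  exact ⟨{ModularGroup.S, ModularGroup.T}, SpecialLinearGroup.SL2Z_generators, by simp⟩

lemma fg1 (N : ℕ) (hN : N ≠ 0) : Group.FG (CongruenceSubgroup.Gamma1 N) := by
  have : NeZero N := ⟨hN⟩
  exact Subgroup.fg_of_index_ne_zero _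

lemma mem1 {N : ℕ} {h : SL(2, ℤ)} (hh : h ∈ CongruenceSubgroup.Gamma1 N) :
    (N : ℤ) ∣ h 1 0 ∧ (N : ℤ) ∣ h 1 1 - 1 := by
  rw [CongruenceSubgroup.Gamma1_mem] at hh
  refine ⟨(ZMod.intCast_zmod_eq_zero_iff_dvd _ _).1 hh.2.2, ?_⟩
  rw [← ZMod.intCast_zmod_eq_zero_iff_dvd]
  push_cast
  rw [hh.2.1, sub_self]

lemma mk1 (N : ℕ) (a b c d : ℤ) (hdet : a * d - b * c = 1) (h1 : (N : ℤ) ∣ c)
    (h2 : (N : ℤ) ∣ d - 1) :
    ∃ h : CongruenceSubgroup.Gamma1 N, h.1 0 0 = a ∧ h.1 0 1 = b ∧ h.1 1 0 = c ∧ h.1 1 1 = d := by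
  have hd : Matrix.det !![a, b; c, d] = 1 := by
    rw [Matrix.det_fin_two_of]
    exact hdet
  let h : SL(2, ℤ) := ⟨!![a, b; c, d], hd⟩
  have f1 : h 0 0 = a := rfl
  have f2 : h 0 1 = b := rfl
  have f3 : h 1 0 = c := rfl
  have f4 : h 1 1 = d := rfl
  suffices hm : h ∈ CongruenceSubgroup.Gamma1 N from ⟨⟨h, hm⟩, f1, f2, f3, f4⟩
  rw [CongruenceSubgroup.Gamma1_mem, f1, f3, f4]
  have e1 : ((c : ℤ) : ZMod N) = 0 := (ZMod.intCast_zmod_eq_zero_iff_dvd _ _).2 h1
  have e2 : ((d : ℤ) : ZMod N) = 1 := by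
    have := (ZMod.intCast_zmod_eq_zero_iff_dvd _ _).2 h2
    push_cast at this
    exact sub_eq_zero.1 this
  have e3 : ((a : ℤ) : ZMod N) = 1 := by
    have := congrArg (Int.cast : ℤ → ZMod N) hdet
    push_cast at this
    rw [e1, e2, mul_one, mul_zero, sub_zero] at this
    exact this
  exact ⟨e3, e2, e1⟩

lemma fin_inv {H : Type} [Field H] (Γ : Subgroup (H ≃+* H)) [Finite Γ] (y : H) (t : H ≃+* H)
    (ht : t ∈ Γ) : t (∑ᶠ s : Γ, s.1 y) = ∑ᶠ s : Γ, s.1 y := by
  rw [map_finsum t (Set.toFinite _)]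
  exact finsum_comp_equiv (Equiv.mulLeft (⟨t, ht⟩ : Γ)) (f := fun s : Γ => s.1 y)

end G6c

open _root_.Pool.Agent.MU3G.G6c Matrix MatrixGroups in
theorem t_G6c (h0 : St_G0) (h5 : St_G5a) (h6a : St_G6a) (h6b : St_G6b) : St_G6c := by
  intro A B hc V g hg H _ _ io j Γ _ al eH s0 kap hG Om hOm N' hN' hnu PhiH hPhi hsym hFT hyp
  obtain ⟨-, -, hpi, -, -, -, hemb0, -, -, -⟩ := h0 A B hc
  have iinj : Function.Injective io := io.injective
  have ppi0 : emb (ppi A B) ≠ 0 := fun h => hpi.ne_zero ((hemb0 _).1 h)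
  -- properties of eH
  have eone : eH 1 = 1 := iinj (by rw [hG.eps.one, map_one])
  have emul : ∀ x y, eH (x * y) = eH x * eH y := fun x y =>
    iinj (by rw [hG.eps.mul, map_mul])
  have eper : ∀ x y, g ∣ x - y → eH x = eH y := fun x y h => iinj (hG.eps.per x y h)
  have esup : ∀ x, IsCoprime x g → eH x ≠ 0 := fun x h h' =>
    (hG.eps.supp x).2 h (by rw [h', map_zero])
  have eal : ∀ s : Γ, eH (al s) ≠ 0 := fun s => esup _ (hG.al_cop s)
  have eal1 : eH (al 1) = 1 := by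
    have e := eper _ _ (hG.al_mul 1 1)
    rw [mul_one, emul] at e
    exact (mul_eq_left₀ (eal 1)).1 e.symm
  -- PhiH
  have hP1 : ∀ x y, Phi (fun z => io (eH z)) x y = Om * io (PhiH x y) := by
    intro x y
    have e := hPhi 1 x y
    simp only [Subgroup.coe_one, RingAut.one_apply, eal1, one_mul] at e
    exact e
  have hadd : ∀ x y z, PhiH x y + PhiH y z = PhiH x z := by
    intro x y z
    have e := hsym.add x y z
    rw [hP1, hP1, hP1, ← mul_add] at e
    exact iinj (by rw [map_add]; exact mul_left_cancel₀ hOm e)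
  have hnu1 : ∀ (s : Γ) (d : ℤ), (N' : ℤ) ∣ d - 1 → nuE (fun z => io (s.1 (eH z))) d = 1 := by
    intro s d hd
    obtain ⟨h1, h2⟩ := hnu d hd
    have h3 : eH (d : OO A B) = 1 := by rw [eper _ _ h2, eone]
    simp only [nuE, h1, h3, map_one, Int.cast_one, mul_one]
  have hequ : ∀ a b c d : ℤ, a * d - b * c = 1 → (N' : ℤ) ∣ c → (N' : ℤ) ∣ d - 1 → ∀ x y,
      PhiH (mob a b c d x) (mob a b c d y) = PhiH x y := by
    intro a b c d h1 h2 h3 x y
    have e := hsym.equiv a b c d h1 h2 x y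
    have e' := hnu1 1 d h3
    simp only [Subgroup.coe_one, RingAut.one_apply] at e'
    rw [e', one_mul, hP1, hP1] at e
    exact iinj (mul_left_cancel₀ hOm e)
  -- the homomorphism
  let G := CongruenceSubgroup.Gamma1 N'
  let y : G → H := fun h => PhiH ∞ (mI h.1)
  have ymul : ∀ h k : G, y (h * k) = y h + y k := by
    intro h k
    have e1 : y (h * k) = PhiH ∞ (mI (h.1 * k.1)) := rfl
    obtain ⟨m1, m2⟩ := mem1 h.2
    rw [e1, mI_mul, ← hadd ∞ (mI h.1), add_right_inj]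
    exact hequ _ _ _ _ (det_eq h.1) m1 m2 ∞ (mI k.1)
  have yone : y 1 = 0 := by
    have e := ymul 1 1
    rw [mul_one] at e
    exact (left_eq_add.1 e)
  have yinv : ∀ h : G, y h⁻¹ = - y h := by
    intro h
    have e := ymul h h⁻¹
    rw [mul_inv_cancel, yone] at e
    exact (neg_eq_of_add_eq_zero_right e.symm).symm
  have fgG : Group.FG G := fg1 N' hN'
  obtain ⟨S, hS, hSf⟩ := Group.fg_iff.1 fgG
  have pV : emb (ppi A B) ∈ V := ValuationSubring.nonunits_subset hG.pV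
  obtain ⟨P, -, -, -, -, -, h6iii, -, -⟩ := h6a A B hc V hG.pV H io
  -- the bound
  obtain ⟨K, hK⟩ : ∃ K : ℕ, ∀ (s : Γ) (h : G), io (s.1 (y h)) * emb (ppi A B) ^ K ∈ V := by
    have : Fintype Γ := Fintype.ofFinite Γ
    choose f hf using h6iii
    let K : ℕ := hSf.toFinset.sup fun h => Finset.univ.sup fun s : Γ => f (s.1 (y h))
    refine ⟨K, fun s h => ?_⟩
    have hh : h ∈ Subgroup.closure S := hS ▸ Subgroup.mem_top h
    induction hh using Subgroup.closure_induction with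
    | mem x hx =>
      have hle : f (s.1 (y x)) ≤ K :=
        (Finset.le_sup (f := fun s : Γ => f (s.1 (y x))) (Finset.mem_univ s)).trans
          (Finset.le_sup (f := fun h => Finset.univ.sup fun s : Γ => f (s.1 (y h)))
            (hSf.mem_toFinset.2 hx))
      obtain ⟨r, hr⟩ := Nat.exists_eq_add_of_le hle
      rw [hr, pow_add, ← mul_assoc]
      exact mul_mem (hf _) (pow_mem pV r)
    | one =>
      rw [yone, map_zero, map_zero, zero_mul]
      exact zero_mem _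
    | mul x z _ _ hx hz =>
      rw [ymul, map_add, map_add, add_mul]
      exact add_mem hx hz
    | inv x _ hx =>
      rw [yinv, map_neg, map_neg, neg_mul]
      exact neg_mem hx
  obtain ⟨-, c, hcI, hcN, hcV⟩ := h6b A B hc V g hg H io j Γ al eH s0 kap hG (K + 1) (by omega)
  let rho : G → ℂ := fun h => io (∑ᶠ s : Γ, s.1 (c * y h))
  have fsup : ∀ f : Γ → H, f.HasFiniteSupport := fun f => Set.toFinite _
  have rmul : ∀ h k : G, rho (h * k) = rho h + rho k := by
    intro h k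
    show io _ = io _ + io _
    rw [← map_add, ymul, ← finsum_add_distrib (Set.toFinite _) (Set.toFinite _)]
    congr 1
    refine finsum_congr fun s => ?_
    rw [mul_add, map_add]
  have rgal : ∀ h : G, ∃ y z : OO A B, z ≠ 0 ∧ rho h * emb z = emb y := by
    intro h
    obtain ⟨x, z, hz, e⟩ := hG.gal (∑ᶠ s : Γ, s.1 (c * y h)) (fun s hs => fin_inv Γ _ s hs)
    refine ⟨x, z, hz, ?_⟩
    have e' := congrArg io e
    rw [map_mul, hG.io_j, hG.io_j] at e'
    exact e'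
  have rV : ∀ h : G, rho h / emb (ppi A B) ∈ V := by
    intro h
    apply hcV (y h)
    · obtain ⟨m1, m2⟩ := mem1 h.2
      have e := hyp _ _ _ _ (det_eq h.1) m1 m2
      rw [hP1, mul_div_cancel_left₀ _ hOm] at e
      exact e
    · intro s
      exact hK s h
  obtain ⟨d, hd, hdy⟩ := h5 A B hc V hG.pV G rho rmul rgal rV
  refine ⟨c, d, hcI, hd, hcN, ?_⟩
  intro a b c' d' hdet hc' hd' τ hτ
  obtain ⟨h, k1, k2, k3, k4⟩ := mk1 N' a b c' d' hdet hc' hd'
  obtain ⟨w, hw⟩ := hdy h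
  refine ⟨kap * w, ?_⟩
  have hmI : mI h.1 = mob a b c' d' ∞ := by
    unfold mI
    rw [k1, k2, k3, k4]
  have kk : (kap : ℂ) * kap = 1 := by
    rcases hG.kap1 with hk | hk <;> rw [hk] <;> norm_num
  have k0 : (kap : ℂ) ≠ 0 := fun h => by rw [h, zero_mul] at kk; exact zero_ne_one kk
  have key : ∀ s : Γ, io (s.1 c * (s.1 (eH (al s)))⁻¹) *
      thetaInt (fun x => io (s.1 (eH x))) ((a * τ + b) / (c' * τ + d')) =
      io (s.1 c * (s.1 (eH (al s)))⁻¹) * thetaInt (fun x => io (s.1 (eH x))) τ +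
        Om * io (s.1 (c * y h)) := by
    intro s
    have h1 : s.1 (eH (al s)) ≠ 0 := by
      rw [Ne, map_eq_zero_iff _ s.1.injective]
      exact eal s
    rw [hFT s a b c' d' hdet hc' τ hτ, hnu1 s d' hd', one_mul, mul_add, add_right_inj, hPhi s,
      ← hmI]
    show _ = Om * io (s.1 (c * PhiH ∞ (mI h.1)))
    rw [mul_left_comm, ← map_mul, map_mul s.1 c]
    congr 2
    field_simp
  have e1 : ZZ io Γ al eH kap c d ((a * τ + b) / (c' * τ + d')) =
      ZZ io Γ al eH kap c d τ + emb d / (kap * emb (ppi A B)) * (Om * rho h) := by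
    unfold ZZ
    rw [← mul_add]
    congr 1
    rw [finsum_congr key, finsum_add_distrib (Set.toFinite _) (Set.toFinite _)]
    congr 1
    rw [← mul_finsum]
    congr 1
    exact (map_finsum io (Set.toFinite _)).symm
  rw [e1, add_sub_cancel_left, emb_mul hc, emb_intCast hc]
  have e2 : emb d / (kap * emb (ppi A B)) * (Om * rho h) =
      Om * (emb d * rho h) / (kap * emb (ppi A B)) := by ring
  rw [e2, hw, emb_mul hc]
  have e3 : (kap : ℂ) = 1 / kap := by
    rw [eq_div_iff k0]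
    exact kk
  rw [div_eq_iff (mul_ne_zero k0 ppi0)]
  linear_combination (-(Om * emb w * emb (ppi A B))) * kk

end

end Pool.Agent.MU3G


end

section

/-!
# MUX, block G, module GJ: the forms `g_j`
-/

set_option autoImplicit false

namespace Pool.Agent.MUXN

open _root_.MU3 _root_.Pool.Agent.MU3A _root_.Pool.Agent.MU3B _root_.Pool.Agent.MU3Q _root_.Pool.Agent.MUX _root_.Pool.Agent.MuSym
  OnePoint UpperHalfPlane
open scoped MatrixGroups

noncomputable section

namespace N_GJ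

theorem wC_sqX {A B : ℤ} (h : CQ A B) : wC A B * wC A B = A + B * wC A B := by
  have h1 : (0 : ℝ) ≤ (absD A B : ℝ) := by
    have := h.neg
    have h0 : 0 ≤ absD A B := by
      unfold absD
      omega
    exact_mod_cast h0
  have h2 : ((Real.sqrt (absD A B) : ℝ) : ℂ) ^ 2 = (absD A B : ℂ) := by
    rw [← Complex.ofReal_pow, Real.sq_sqrt h1]
    norm_num
  have h3 : Complex.I ^ 2 = -1 := Complex.I_sq
  have h4 : (absD A B : ℂ) = -((B : ℂ) ^ 2 + 4 * A) := by simp [absD]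
  unfold wC
  linear_combination (Complex.I ^ 2 / 4) * h2 + ((absD A B : ℂ) / 4) * h3 - (1 / 4) * h4

/-- the embedding as a ring homomorphism -/
def eHom {A B : ℤ} (h : CQ A B) : OO A B →+* ℂ :=
  (QuadraticAlgebra.lift (R := ℤ) (a := A) (b := B) (A := ℂ)
    ⟨wC A B, by simpa [zsmul_eq_mul] using wC_sqX h⟩).toRingHom

theorem eHom_apply {A B : ℤ} (h : CQ A B) (x : OO A B) : eHom h x = emb x := by
  simp [eHom, emb, QuadraticAlgebra.lift, zsmul_eq_mul]

theorem wC_int {A B : ℤ} (hc : CQ A B) : IsIntegral ℤ (wC A B) := by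
  refine ⟨Polynomial.X ^ 2 - Polynomial.C B * Polynomial.X - Polynomial.C A, ?_, ?_⟩
  · monicity!
  · have := wC_sqX hc
    simp only [Polynomial.eval₂_sub, Polynomial.eval₂_mul, Polynomial.eval₂_pow,
      Polynomial.eval₂_X, Polynomial.eval₂_C]
    simp only [algebraMap_int_eq, eq_intCast]
    linear_combination this

theorem emb_mem_V {A B : ℤ} (hc : CQ A B) (V : ValuationSubring ℂ) (x : OO A B) : emb x ∈ V := by
  have h1 : wC A B ∈ V := Pool.Agent.MU3A2.mem_of_integral (wC_int hc)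
  exact V.add_mem _ _ (Pool.Agent.MU3A2.int_mem _) (V.mul_mem _ _ (Pool.Agent.MU3A2.int_mem _) h1)

/-- elements of `k` are algebraic -/
theorem kk_alg {A B : ℤ} (hc : CQ A B) {x : ℂ} (hx : x ∈ kk A B) : IsAlgebraic ℚ x := by
  have h1 : IsIntegral ℚ (wC A B) := (wC_int hc).tower_top
  have h2 : FiniteDimensional ℚ (kk A B) := IntermediateField.adjoin.finiteDimensional h1
  have h3 : IsAlgebraic ℚ (⟨x, hx⟩ : kk A B) := Algebra.IsAlgebraic.isAlgebraic _
  exact h3.algebraMap (A := ℂ)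

/-- generators of a number field as a vector space -/
theorem gens (K : Subfield ℂ) [NumberField K] : ∃ S : Finset ℂ, (∀ x ∈ S, IsAlgebraic ℚ x) ∧
    ∀ K' : Subfield ℂ, (∀ x ∈ S, x ∈ K') → K ≤ K' := by
  classical
  obtain ⟨S, hS⟩ := (inferInstance : Module.Finite ℚ K).1
  refine ⟨S.image (fun x : K => (x : ℂ)), ?_, ?_⟩
  · intro x hx
    obtain ⟨y, -, rfl⟩ := Finset.mem_image.1 hx
    have h3 : IsAlgebraic ℚ y := Algebra.IsAlgebraic.isAlgebraic _
    exact h3.algebraMap (A := ℂ)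
  · intro K' hK' x hx
    have h1 : (⟨x, hx⟩ : K) ∈ Submodule.span ℚ (S : Set K) := by rw [hS]; trivial
    have h2 : ∀ y ∈ Submodule.span ℚ (S : Set K), (y : ℂ) ∈ K' := by
      intro y hy
      induction hy using Submodule.span_induction with
      | mem x hx => exact hK' _ (Finset.mem_image.2 ⟨x, hx, rfl⟩)
      | zero => exact K'.zero_mem
      | add x y _ _ hx hy => exact K'.add_mem hx hy
      | smul a x _ hx =>
        have e : ((a • x : K) : ℂ) = (a : ℂ) * (x : ℂ) := by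
          rw [Algebra.smul_def]
          simp
        rw [e]
        exact K'.mul_mem (by
          rw [Rat.cast_def]
          exact K'.div_mem (intCast_mem _ _) (natCast_mem _ _)) hx
    exact h2 _ h1

/-- denominators -/
theorem denom (K : Subfield ℂ) (V : ValuationSubring ℂ) (x : ℂ) (hx : x ∈ K) :
    ∃ q ∈ K, q ≠ 0 ∧ q ∈ V ∧ q * x ∈ V := by
  by_cases h : x ∈ V
  · exact ⟨1, K.one_mem, one_ne_zero, V.one_mem, by rwa [one_mul]⟩
  · have h1 : x⁻¹ ∈ V := (V.mem_or_inv_mem x).resolve_left h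
    have h0 : x ≠ 0 := fun h0 => h (by rw [h0]; exact V.zero_mem)
    exact ⟨x⁻¹, K.inv_mem hx, inv_ne_zero h0, h1, by rw [inv_mul_cancel₀ h0]; exact V.one_mem⟩

end N_GJ

open _root_.Pool.Agent.MUXN.N_GJ _root_.Pool.Agent.MU3G in
theorem tg_GJ (h1 : Sg_BIN) (h2 : Sg_RET) (h3 : Sg_NFE) (h4 : Sg_LOC) (_h5 : Sg_FGG) : Sg_GJ := by
  classical
  intro A B hc n ι _ R E _ N' hG l hl P hP V hV halg hv1 hv2 r h hh hfg w hw y hy
  set Om : ℂ := R.om R.i0 with hOm
  have hOm0 : Om ≠ 0 := (R.nl R.i0).om_ne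
  choose! α hα using fun e (he : e ∈ E) i => hG.qexp e he i
  choose! Kα hKα using fun e (he : e ∈ E) i => (hα e he i).2.1
  -- generators of the fields of coefficients
  have hgen : ∀ c : ι × E, ∃ S : Finset ℂ, (∀ x ∈ S, IsAlgebraic ℚ x) ∧
      ∀ K' : Subfield ℂ, (∀ x ∈ S, x ∈ K') → Kα c.2 c.1 ≤ K' := by
    intro c
    have := (hKα c.2 c.2.2 c.1).1
    exact gens _
  choose Sg hSg1 hSg2 using hgen
  set Pm : Fin r → ι × E → ℂ := fun l' c => PhiI (R.b c.1) (c.2 : OO A B → ℂ) ∞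
      (mob (h l' 0 0) (h l' 0 1) (h l' 1 0) (h l' 1 1) ∞) / Om with hPm
  have hPmalg : ∀ l' c, IsAlgebraic ℚ (Pm l' c) := by
    intro l' c
    have e1 : Pm l' c = (PhiI (R.b c.1) (c.2 : OO A B → ℂ) ∞
      (mob (h l' 0 0) (h l' 0 1) (h l' 1 0) (h l' 1 1) ∞) / R.om c.1) * (R.om c.1 / Om) := by
      have := (R.nl c.1).om_ne
      rw [hPm]
      field_simp
    rw [e1]
    exact (hG.alg c.2 c.2.2 c.1 _ _).mul (hG.algo c.1)
  have hN' : N' ≠ 0 := hG.pos.ne'
  have hζ : IsAlgebraic ℚ (Complex.exp (2 * Real.pi * Complex.I / N')) := by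
    have hp := (Complex.isPrimitiveRoot_exp N' hN').pow_eq_one
    have : IsIntegral ℚ (Complex.exp (2 * Real.pi * Complex.I / N')) := by
      refine ⟨Polynomial.X ^ N' - Polynomial.C 1, Polynomial.monic_X_pow_sub_C 1 hN', ?_⟩
      simp [hp]
    exact this.isAlgebraic
  obtain ⟨K, hKnf, hK⟩ := h3 ((Finset.univ.image fun q : Fin r × (ι × E) => Pm q.1 q.2) ∪
    Finset.univ.image w ∪ {kap (R.L R.i0)} ∪ {Complex.exp (2 * Real.pi * Complex.I / N')} ∪
    {wC A B} ∪ Finset.univ.biUnion Sg) (by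
      intro x hx
      simp only [Finset.mem_union, Finset.mem_image, Finset.mem_univ, true_and,
        Finset.mem_singleton, Finset.mem_biUnion] at hx
      rcases hx with ((((⟨q, rfl⟩ | ⟨i, rfl⟩) | rfl) | rfl) | rfl) | ⟨c, hc'⟩
      · exact hPmalg _ _
      · exact kk_alg hc (hw i).1
      · exact halg
      · exact hζ
      · exact ((wC_int hc).tower_top (A := ℚ)).isAlgebraic
      · exact hSg1 c x hc')
  simp only [Finset.mem_union, Finset.mem_image, Finset.mem_univ, true_and,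
    Finset.mem_singleton, Finset.mem_biUnion] at hK
  have hKP : ∀ l' c, Pm l' c ∈ K := fun l' c => hK _ (by
    left; left; left; left; left; exact ⟨(l', c), rfl⟩)
  have hKw : ∀ i, w i ∈ K := fun i => hK _ (by left; left; left; left; right; exact ⟨i, rfl⟩)
  have hKkap : kap (R.L R.i0) ∈ K := hK _ (by left; left; left; right; rfl)
  have hKζ : Complex.exp (2 * Real.pi * Complex.I / N') ∈ K := hK _ (by left; left; right; rfl)
  have hKwC : wC A B ∈ K := hK _ (by left; right; rfl)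
  have hKS : ∀ c : ι × E, Kα c.2 c.1 ≤ K := fun c => hSg2 c K fun x hx => hK x (by right; exact ⟨c, hx⟩)
  have hKemb : ∀ x : OO A B, emb x ∈ K := fun x =>
    K.add_mem (intCast_mem _ _) (K.mul_mem (intCast_mem _ _) hKwC)
  obtain ⟨y', hy'K, hy'⟩ := h2 K (ι × E) r (fun c i => Pm i c) w (fun c i => hKP i c) hKw y hy
  obtain ⟨t, htP, ht⟩ := h4 A B hc l hl P hP V hV (Finset.univ.image w) (by
    intro x hx
    obtain ⟨i, -, rfl⟩ := Finset.mem_image.1 hx
    exact hw i)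
  refine ⟨y', hy', ?_⟩
  have hαK : ∀ c : ι × E, ∀ n, α c.2 c.1 n ∈ K := fun c n => hKS c ((hKα c.2 c.2.2 c.1).2 n)
  have hαV : ∀ c : ι × E, ∀ n, α c.2 c.1 n ∈ V := fun c n =>
    Pool.Agent.MU3A2.mem_of_integral ((hα c.2 c.2.2 c.1).1 n)
  set Z : ℍ → ℂ := fun τ => emb t * ∑ c : ι × E, y' c * thetaIntI (R.b c.1) c.2 (τ : ℂ) with hZ
  set z : PowerSeries ℂ := PowerSeries.mk fun n =>
    emb t * ∑ c : ι × E, y' c * (α c.2 c.1 n / n) with hz
  have hzn : ∀ n, PowerSeries.coeff n z = emb t * ∑ c : ι × E, y' c * (α c.2 c.1 n / n) :=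
    fun n => by rw [hz, PowerSeries.coeff_mk]
  have hsmul : ∀ (γ : SL(2, ℤ)) (τ : ℍ), ((γ • τ : ℍ) : ℂ) =
      (((γ 0 0 : ℤ) : ℂ) * τ + ((γ 0 1 : ℤ) : ℂ)) /
          (((γ 1 0 : ℤ) : ℂ) * τ + ((γ 1 1 : ℤ) : ℂ)) := by
    intro γ τ
    rw [UpperHalfPlane.specialLinearGroup_apply]
    simp
  have hQS : QS Z z := by
    intro τ
    have hs := (hasSum_sum (s := Finset.univ) fun c (_ : c ∈ (Finset.univ : Finset (ι × E))) =>
      ((hα c.2 c.2.2 c.1).2.2.2.2 (τ : ℂ) τ.2).mul_left (y' c)).mul_left (emb t)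
    have e2 : (fun n : ℕ => PowerSeries.coeff n z * qq τ ^ n) = fun n : ℕ =>
        emb t * ∑ c : ι × E, y' c * (α c.2 c.1 n / n *
          Complex.exp (2 * Real.pi * Complex.I * (τ : ℂ)) ^ n) := by
      funext n
      rw [hzn n, qq, mul_assoc, Finset.sum_mul]
      congr 1
      refine Finset.sum_congr rfl fun c _ => ?_
      ring
    rw [e2]
    exact hs
  have hcusp : ∀ γ : SL(2, ℤ), ∃ (C : ℂ) (w : ℕ → ℂ), ∀ τ : ℍ, HasSum (fun n : ℕ => w n *
      Complex.exp (2 * Real.pi * Complex.I * (τ : ℂ) / N') ^ (n + 1)) (Z (γ • τ) - C) := by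
    intro γ
    choose C W hW using fun c : ι × E => hG.cusp c.2 c.2.2 c.1 (γ 0 0) (γ 0 1) (γ 1 0) (γ 1 1)
      (G6c.det_eq γ)
    refine ⟨emb t * ∑ c : ι × E, y' c * C c, fun n => emb t * ∑ c : ι × E, y' c * W c n, ?_⟩
    intro τ
    have hs := (hasSum_sum (s := Finset.univ) fun c (_ : c ∈ (Finset.univ : Finset (ι × E))) =>
      (hW c (τ : ℂ) τ.2).mul_left (y' c)).mul_left (emb t)
    have e1 : (fun n : ℕ => (emb t * ∑ c : ι × E, y' c * W c n) *
        Complex.exp (2 * Real.pi * Complex.I * (τ : ℂ) / N') ^ (n + 1)) = fun n : ℕ =>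
        emb t * ∑ c : ι × E, y' c * (W c n *
          Complex.exp (2 * Real.pi * Complex.I * (τ : ℂ) / N') ^ (n + 1)) := by
      funext n
      rw [mul_assoc, Finset.sum_mul]
      congr 1
      refine Finset.sum_congr rfl fun c _ => ?_
      ring
    have e2 : Z (γ • τ) - emb t * ∑ c : ι × E, y' c * C c = emb t * ∑ c : ι × E, y' c *
        (thetaIntI (R.b c.1) c.2 ((((γ 0 0 : ℤ) : ℂ) * τ + ((γ 0 1 : ℤ) : ℂ)) /
          (((γ 1 0 : ℤ) : ℂ) * τ + ((γ 1 1 : ℤ) : ℂ))) - C c) := by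
      rw [hZ]
      beta_reduce
      rw [← mul_sub, ← Finset.sum_sub_distrib, hsmul]
      congr 1
      refine Finset.sum_congr rfl fun c _ => ?_
      ring
    rw [e1, e2]
    exact hs
  -- the periods
  set ρ : SL(2, ℤ) → ℂ := fun g => ∑ c : ι × E, y' c *
    (PhiI (R.b c.1) (c.2 : OO A B → ℂ) ∞ (G6c.mI g) / Om) with hρ
  have hρadd : ∀ g ∈ CongruenceSubgroup.Gamma1 N', ∀ g' ∈ CongruenceSubgroup.Gamma1 N',
      ρ (g * g') = ρ g + ρ g' := by
    intro g hg g' hg'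
    rw [hρ]
    beta_reduce
    rw [← Finset.sum_add_distrib]
    refine Finset.sum_congr rfl fun c _ => ?_
    obtain ⟨m1, m2⟩ := G6c.mem1 hg
    have a1 := hG.add c.2 c.2.2 c.1 ∞ (G6c.mI g) (G6c.mI (g * g'))
    have a2 := hG.inv c.2 c.2.2 c.1 (g 0 0) (g 0 1) (g 1 0) (g 1 1) (G6c.det_eq g) m1 m2 ∞
      (G6c.mI g')
    rw [← G6c.mI_mul] at a2
    have a3 : mob (g 0 0) (g 0 1) (g 1 0) (g 1 1) ∞ = G6c.mI g := rfl
    rw [a3] at a2
    rw [← a1, a2]
    ring
  have hM : ∀ g ∈ CongruenceSubgroup.Gamma1 N', ∃ c : OO A B, emb t * ρ g = emb c := by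
    let M : AddSubgroup ℂ := AddSubgroup.comap (AddMonoidHom.mulLeft (emb t))
      (AddMonoidHom.range (eHom hc).toAddMonoidHom)
    have hMm : ∀ x, x ∈ M ↔ ∃ c : OO A B, emb t * x = emb c := by
      intro x
      constructor
      · rintro ⟨c, hc'⟩
        refine ⟨c, ?_⟩
        have e1 : emb t * x = eHom hc c := hc'.symm
        rw [e1, eHom_apply hc]
      · rintro ⟨c, hc'⟩
        refine ⟨c, ?_⟩
        rw [← eHom_apply hc] at hc'
        rw [eHom_apply hc] at hc'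
        show (eHom hc) c = emb t * x
        rw [eHom_apply hc, hc']
    intro g hg
    rw [← hMm]
    refine hfg ρ hρadd M (fun i => ?_) g hg
    rw [hMm]
    have e1 : ρ (h i) = w i := hy' i
    rw [e1]
    exact ht _ (Finset.mem_image_of_mem w (Finset.mem_univ i))
  have hper : ∀ γ ∈ CongruenceSubgroup.Gamma1 N', ∀ τ : ℍ, Z (γ • τ) - Z τ ∈ (R.L R.i0).lattice := by
    intro γ hγ τ
    obtain ⟨m1, m2⟩ := G6c.mem1 hγ
    obtain ⟨x, hx⟩ := hM γ hγ
    rw [(R.nl R.i0).mem]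
    refine ⟨x, by rw [R.b0]; trivial, ?_⟩
    have e1 : Z (γ • τ) - Z τ = Om * (emb t * ρ γ) := by
      rw [hZ, hρ]
      beta_reduce
      rw [hsmul, ← mul_sub, ← Finset.sum_sub_distrib, mul_left_comm Om (emb t), Finset.mul_sum _ _ Om]
      congr 1
      refine Finset.sum_congr rfl fun c _ => ?_
      rw [hG.per c.2 c.2.2 c.1 (γ 0 0) (γ 0 1) (γ 1 0) (γ 1 1) (G6c.det_eq γ) m1 m2 (τ : ℂ) τ.2]
      have a3 : mob (γ 0 0) (γ 0 1) (γ 1 0) (γ 1 1) ∞ = G6c.mI γ := rfl
      rw [a3]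
      field_simp
      ring
    rw [e1, hx]
  -- the denominators
  choose q hqK hq0 hqV hqy using fun c => denom K V (y' c) (hy'K c)
  have hden : ∃ c ∈ K, c ≠ 0 ∧ c ∈ V ∧ ∀ n : ℕ, c * (n * PowerSeries.coeff n z) ∈ V := by
    refine ⟨∏ c, q c, K.prod_mem fun c _ => hqK c, Finset.prod_ne_zero_iff.2 fun c _ => hq0 c,
      prod_mem fun c _ => hqV c, ?_⟩
    intro m
    by_cases hm : m = 0
    · rw [hm]
      simp
    · have e1 : (∏ c, q c) * (m * PowerSeries.coeff m z) = ∑ c : ι × E,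
          (emb t * (∏ c' ∈ Finset.univ.erase c, q c')) * (q c * y' c) * α c.2 c.1 m := by
        rw [hzn, mul_left_comm (m : ℂ), Finset.mul_sum, mul_left_comm, Finset.mul_sum,
          Finset.mul_sum]
        refine Finset.sum_congr rfl fun c _ => ?_
        rw [← Finset.mul_prod_erase Finset.univ q (Finset.mem_univ c)]
        have : (m : ℂ) ≠ 0 := by exact_mod_cast hm
        field_simp
      rw [e1]
      exact sum_mem fun c _ => V.mul_mem _ _ (V.mul_mem _ _ (V.mul_mem _ _ (emb_mem_V hc V t)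
        (prod_mem fun c _ => hqV c)) (hqy c)) (hαV c m)
  have hpV : (l : ℂ) ∈ V.nonunits := by
    have e1 := (hV ((l : ℕ) : OO A B)).2 hP.mem
    have e2 : emb ((l : ℕ) : OO A B) = (l : ℂ) := by
      rw [← eHom_apply hc, map_natCast]
    rwa [e2] at e1
  have hfin := h1 K V l hl hpV N' hG.pos hKζ (R.L R.i0) (R.nl R.i0).nrm hKkap hv1 hv2 Z z hQS
    (fun m => by
      rw [hzn]
      exact K.mul_mem (hKemb t) (sum_mem fun c _ => K.mul_mem (hy'K c)
        (K.div_mem (hαK c m) (natCast_mem _ _))))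
    (by rw [hzn]; simp) hden hcusp hper
  rw [hzn] at hfin
  have e1 : (∑ c : ι × E, y' c * (α c.2 c.1 1 / (1 : ℕ))) = ∑ e : E, y' (R.i0, e) := by
    rw [Fintype.sum_prod_type, Finset.sum_eq_single R.i0]
    · refine Finset.sum_congr rfl fun e _ => ?_
      have := (hα e e.2 R.i0).2.2.1 rfl
      rw [this]
      simp
    · intro i _ hi
      refine Finset.sum_eq_zero fun e _ => ?_
      have := (hα e e.2 i).2.2.2.1 hi
      rw [this]
      simp
    · intro hi
      exact absurd (Finset.mem_univ _) hi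
  rw [e1] at hfin
  have ht1 : emb t ∉ V.nonunits := fun h => htP ((hV t).1 h)
  have ht2 : (emb t)⁻¹ ∈ V := by
    by_contra hcon
    apply ht1
    rw [ValuationSubring.mem_nonunits_iff_or]
    right
    exact hcon
  have ht0 : emb t ≠ 0 := by
    intro h0
    apply ht1
    rw [h0]
    exact V.nonunits.zero_mem
  have := V.mul_mem _ _ ht2 hfin
  rwa [inv_mul_cancel_left₀ ht0] at this

end

end Pool.Agent.MUXN


end

section

/-!
# N2, block G2N (helper6): common denominators prime to `V`, for `V ∩ O = p O`, `p` prime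
-/

set_option autoImplicit false

namespace Pool.Agent.N2

open _root_.MU3 _root_.Pool.Agent.MU3A _root_.Pool.Agent.MU3B _root_.Pool.Agent.MUX _root_.Pool.Agent.MUXN _root_.Pool.Agent.NS
  _root_.Pool.Agent.NSG

noncomputable section

open N_GJ (eHom_apply)

variable {A B : ℤ}

theorem vNp (V : ValuationSubring ℂ) (p : ℕ) (hp : p.Prime) (h3 : V.valuation (p : ℂ) < 1) (N : ℕ)
    (hN : ¬ p ∣ N) : V.valuation (N : ℂ) = 1 := by
  have hle : ∀ z : ℤ, V.valuation (z : ℂ) ≤ 1 := fun z =>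
    (V.valuation_le_one_iff _).2 (Pool.Agent.MU3A2.int_mem z)
  have hc : IsCoprime (N : ℤ) p := by
    rw [Int.isCoprime_iff_gcd_eq_one, Int.gcd_comm]
    exact (Nat.Prime.coprime_iff_not_dvd hp).2 hN
  obtain ⟨a, b, hab⟩ := hc
  by_contra hne
  have hlt : V.valuation (N : ℂ) < 1 := lt_of_le_of_ne (by exact_mod_cast hle N) hne
  have h1 : V.valuation ((a : ℂ) * N + b * p) < 1 := by
    refine lt_of_le_of_lt (V.valuation.map_add _ _) (max_lt ?_ ?_)
    · rw [map_mul]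
      exact mul_lt_one_of_nonneg_of_lt_one_right (hle a) zero_le hlt
    · rw [map_mul]
      exact mul_lt_one_of_nonneg_of_lt_one_right (hle b) zero_le h3
  have h2 : (a : ℂ) * N + b * p = 1 := by exact_mod_cast hab
  rw [h2, map_one] at h1
  exact lt_irrefl _ h1

theorem vp {V : ValuationSubring ℂ} {p : ℕ} (hV : OverI V (idl (A := A) (B := B) p)) :
    V.valuation (p : ℂ) < 1 := by
  have h1 : emb ((p : ℕ) : OO A B) ∈ V.nonunits := (hV _).2 (Ideal.mem_span_singleton_self _)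
  have h2 : emb ((p : ℕ) : OO A B) = p := by
    unfold emb
    rw [QuadraticAlgebra.re_natCast, QuadraticAlgebra.im_natCast]
    push_cast
    ring
  rw [h2, ValuationSubring.mem_nonunits_iff] at h1
  exact h1

theorem divp {V : ValuationSubring ℂ} {p : ℕ} (hp : p.Prime) (hc : CQ A B)
    (hV : OverI V (idl (A := A) (B := B) p))
    (k : ℕ) : ∀ a : OO A B, V.valuation (emb a) ≤ V.valuation (p : ℂ) ^ k →
    ∃ b : OO A B, emb a = p ^ k * emb b := by
  have h3 := vp hV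
  have hp0 : (p : ℂ) ≠ 0 := by exact_mod_cast hp.ne_zero
  have h30 : V.valuation (p : ℂ) ≠ 0 := (Valuation.ne_zero_iff _).2 hp0
  induction k with
  | zero => exact fun a _ => ⟨a, by simp⟩
  | succ k ih =>
    intro a ha
    have h1 : V.valuation (emb a) < 1 := by
      refine lt_of_le_of_lt ha ?_
      exact pow_lt_one₀ zero_le h3 (by omega)
    have h2 : a ∈ idl (A := A) (B := B) p :=
      (hV a).1 ((ValuationSubring.mem_nonunits_iff _).2 h1)
    rw [Ideal.mem_span_singleton] at h2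
    obtain ⟨c, hc3⟩ := h2
    have e1 : emb a = p * emb c := by
      rw [hc3, ← eHom_apply hc, map_mul, map_natCast, eHom_apply]
    obtain ⟨b, hb⟩ := ih c (by
      rw [e1, map_mul, pow_succ, mul_comm] at ha
      exact (mul_le_mul_iff_left₀ (zero_lt_iff.2 h30)).1 ha)
    exact ⟨b, by rw [e1, hb]; ring⟩

theorem loc_p {p : ℕ} (hp : p.Prime) (hc : CQ A B) {V : ValuationSubring ℂ}
    (hV : OverI V (idl (A := A) (B := B) p)) : LocN A B V := by
  classical
  have h3 := vp hV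
  have hp0 : (p : ℂ) ≠ 0 := by exact_mod_cast hp.ne_zero
  have h30 : V.valuation (p : ℂ) ≠ 0 := (Valuation.ne_zero_iff _).2 hp0
  -- one element
  have one : ∀ y ∈ kk A B, y ∈ V → ∃ N : ℕ, ¬ p ∣ N ∧ ∃ c : OO A B, (N : ℂ) * y = emb c := by
    intro y hy hyV
    obtain ⟨s, t, hst⟩ := Pool.Agent.MUXE.RNGaux.repr hc hy
    obtain ⟨D, hD⟩ : ∃ D : ℕ, D = s.den * t.den := ⟨_, rfl⟩
    have hD0 : D ≠ 0 := by rw [hD]; exact mul_ne_zero s.den_nz t.den_nz
    obtain ⟨k, N, hN, hDk⟩ := Nat.exists_eq_pow_mul_and_not_dvd hD0 p hp.ne_one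
    obtain ⟨c, hcD⟩ : ∃ c : OO A B, (D : ℂ) * y = emb c := by
      refine ⟨⟨s.num * t.den, t.num * s.den⟩, ?_⟩
      have hs : (s : ℂ) * s.den = s.num := by exact_mod_cast Rat.mul_den_eq_num s
      have ht : (t : ℂ) * t.den = t.num := by exact_mod_cast Rat.mul_den_eq_num t
      rw [hst, hD]
      unfold emb
      push_cast
      rw [← hs, ← ht]
      ring
    have hv : V.valuation (emb c) ≤ V.valuation (p : ℂ) ^ k := by
      rw [← hcD, map_mul, hDk]
      have h4 : V.valuation y ≤ 1 := (V.valuation_le_one_iff _).2 hyV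
      have h5 : V.valuation (((p ^ k * N : ℕ) : ℂ)) ≤ V.valuation (p : ℂ) ^ k := by
        push_cast
        rw [map_mul, map_pow]
        refine mul_le_of_le_one_right' ((V.valuation_le_one_iff _).2 ?_)
        have := Pool.Agent.MU3A2.int_mem (V := V) (N : ℤ)
        exact_mod_cast this
      exact (mul_le_mul' h5 h4).trans (by rw [mul_one])
    obtain ⟨b, hb⟩ := divp hp hc hV k c hv
    refine ⟨N, hN, b, ?_⟩
    have h6 : (p : ℂ) ^ k ≠ 0 := pow_ne_zero _ hp0
    apply mul_left_cancel₀ h6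
    rw [← hb, ← hcD, hDk]
    push_cast
    ring
  intro S
  have key : ∀ S : Finset ℂ, (∀ y ∈ S, y ∈ kk A B ∧ y ∈ V) →
      ∃ N : ℕ, ¬ p ∣ N ∧ ∀ y ∈ S, ∃ c : OO A B, (N : ℂ) * y = emb c := by
    intro S
    induction S using Finset.induction_on with
    | empty => exact fun _ => ⟨1, hp.one_lt.not_ge ∘ Nat.le_of_dvd one_pos, fun y hy => absurd hy (Finset.notMem_empty y)⟩
    | insert x S hx ih =>
      intro hS
      obtain ⟨N, hN, hNS⟩ := ih fun y hy => hS y (Finset.mem_insert_of_mem hy)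
      obtain ⟨M, hM, hMx⟩ := one x (hS x (Finset.mem_insert_self _ _)).1
        (hS x (Finset.mem_insert_self _ _)).2
      refine ⟨M * N, fun h => ?_, fun y hy => ?_⟩
      · rcases (Nat.Prime.dvd_mul hp).1 h with h | h
        · exact hM h
        · exact hN h
      · rcases Finset.mem_insert.1 hy with rfl | hy
        · obtain ⟨c, hc'⟩ := hMx
          refine ⟨N * c, ?_⟩
          rw [← eHom_apply hc, map_mul, map_natCast, eHom_apply, ← hc']
          push_cast
          ring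
        · obtain ⟨c, hc'⟩ := hNS y hy
          refine ⟨M * c, ?_⟩
          rw [← eHom_apply hc, map_mul, map_natCast, eHom_apply, ← hc']
          push_cast
          ring
  intro hS
  obtain ⟨N, hN, hNS⟩ := key S hS
  refine ⟨(N : OO A B), ?_, fun y hy => ?_⟩
  · rw [← eHom_apply hc, map_natCast]
    exact vNp V p hp h3 N hN
  · obtain ⟨c, hc'⟩ := hNS y hy
    refine ⟨c, ?_⟩
    rw [← eHom_apply hc, map_natCast]
    exact hc'

end

end Pool.Agent.N2


end

section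

/-!
# N2, block G2N (helper6): THEOREM G in terms of an abstract integrality property `BinP` of the lattice

`BinP V L' S`: the first coefficient of a series, whose integral is a modular point of `ℂ / L'`, is in `V`. `S` is a finite set of
algebraic numbers (the coefficients of a model). Adapted from `NS/G_Gj.lean` and `NS/G_Gth.lean`.
-/

set_option autoImplicit false

namespace Pool.Agent.N2

open _root_.MU3 _root_.Pool.Agent.MU3A _root_.Pool.Agent.MU3B _root_.Pool.Agent.MU3Q _root_.Pool.Agent.MUX _root_.Pool.Agent.NS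
  _root_.Pool.Agent.MUXN _root_.Pool.Agent.MuSym _root_.Pool.Agent.NSG OnePoint UpperHalfPlane
open scoped MatrixGroups

noncomputable section

/-- integrality of the first coefficient at `V` for the lattice `L'` -/
structure BinP (V : ValuationSubring ℂ) (L' : PeriodPair) (S : Finset ℂ) : Prop where
  alg : ∀ x ∈ S, IsAlgebraic ℚ x
  bin : ∀ (K : Subfield ℂ) [NumberField K], (∀ x ∈ S, x ∈ K) → ∀ N : ℕ, 0 < N →
    Complex.exp (2 * Real.pi * Complex.I / N) ∈ K → ∀ (Z : ℍ → ℂ) (z : PowerSeries ℂ), QS Z z →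
    (∀ n, PowerSeries.coeff n z ∈ K) → PowerSeries.coeff 0 z = 0 →
    (∃ c ∈ K, c ≠ 0 ∧ c ∈ V ∧ ∀ n : ℕ, c * (n * PowerSeries.coeff n z) ∈ V) →
    (∀ γ : SL(2, ℤ), ∃ (C : ℂ) (w : ℕ → ℂ), ∀ τ : ℍ, HasSum (fun n : ℕ => w n *
      Complex.exp (2 * Real.pi * Complex.I * (τ : ℂ) / N) ^ (n + 1)) (Z (γ • τ) - C)) →
    (∀ γ ∈ CongruenceSubgroup.Gamma1 N, ∀ τ : ℍ, Z (γ • τ) - Z τ ∈ L'.lattice) →
    PowerSeries.coeff 1 z ∈ V

/-- the lattice is `om O` -/
def LatO (A B : ℤ) (L' : PeriodPair) (om : ℂ) : Prop :=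
  om ≠ 0 ∧ ∀ z : ℂ, z ∈ L'.lattice ↔ ∃ x : OO A B, z = om * emb x

open _root_.Pool.Agent.MUXN.N_GJ _root_.Pool.Agent.MU3G in
theorem gen_GJ (h2 : Sg_RET) (h3 : Sg_NFE) {A B : ℤ} (hc : CQ A B) {J : Type} [Fintype J]
    {Ψ : J → OnePoint ℚ → OnePoint ℚ → ℂ} {Θ : J → ℂ → ℂ} {α₁ : J → ℂ} {Om : ℂ} {N' : ℕ}
    (hG : GDatN A B J Ψ Θ α₁ Om N') {V : ValuationSubring ℂ} (hLoc : LocN A B V)
    {L' : PeriodPair} {S₀ : Finset ℂ} (hB : BinP V L' S₀) (hL : LatO A B L' Om) (r : ℕ)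
    (h : Fin r → SL(2, ℤ))
    (hfg : ∀ (ρ : SL(2, ℤ) → ℂ) (_ : ∀ g ∈ CongruenceSubgroup.Gamma1 N',
        ∀ g' ∈ CongruenceSubgroup.Gamma1 N', ρ (g * g') = ρ g + ρ g') (M : AddSubgroup ℂ)
      (_ : ∀ i, ρ (h i) ∈ M), ∀ g ∈ CongruenceSubgroup.Gamma1 N', ρ g ∈ M)
    (w : Fin r → ℂ) (hw : ∀ i, w i ∈ kk A B ∧ w i ∈ V) (y : J → ℂ)
    (hy : ∀ l', ∑ c : J, y c * (Ψ c ∞
      (mob (h l' 0 0) (h l' 0 1) (h l' 1 0) (h l' 1 1) ∞) / Om) = w l') :
    ∃ y' : J → ℂ, (∀ l', ∑ c : J, y' c * (Ψ c ∞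
      (mob (h l' 0 0) (h l' 0 1) (h l' 1 0) (h l' 1 1) ∞) / Om) = w l') ∧
      ∑ c : J, y' c * α₁ c ∈ V := by
  classical
  have hOm0 : Om ≠ 0 := hL.1
  choose α hα using fun j => hG.qexp j
  choose Kα hKα using fun j => (hα j).2.1
  -- generators of the fields of coefficients
  have hgen : ∀ c : J, ∃ S : Finset ℂ, (∀ x ∈ S, IsAlgebraic ℚ x) ∧
      ∀ K' : Subfield ℂ, (∀ x ∈ S, x ∈ K') → Kα c ≤ K' := by
    intro c
    have := (hKα c).1
    exact gens _
  choose Sg hSg1 hSg2 using hgen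
  set Pm : Fin r → J → ℂ := fun l' c => Ψ c ∞
      (mob (h l' 0 0) (h l' 0 1) (h l' 1 0) (h l' 1 1) ∞) / Om with hPm
  have hPmalg : ∀ l' c, IsAlgebraic ℚ (Pm l' c) := fun l' c => hG.alg c _ _
  have hN' : N' ≠ 0 := hG.pos.ne'
  have hζ : IsAlgebraic ℚ (Complex.exp (2 * Real.pi * Complex.I / N')) := by
    have hp := (Complex.isPrimitiveRoot_exp N' hN').pow_eq_one
    have : IsIntegral ℚ (Complex.exp (2 * Real.pi * Complex.I / N')) := by
      refine ⟨Polynomial.X ^ N' - Polynomial.C 1, Polynomial.monic_X_pow_sub_C 1 hN', ?_⟩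
      simp [hp]
    exact this.isAlgebraic
  obtain ⟨K, hKnf, hK⟩ := h3 ((Finset.univ.image fun q : Fin r × J => Pm q.1 q.2) ∪
    Finset.univ.image w ∪ S₀ ∪ {Complex.exp (2 * Real.pi * Complex.I / N')} ∪
    {wC A B} ∪ Finset.univ.biUnion Sg) (by
      intro x hx
      simp only [Finset.mem_union, Finset.mem_image, Finset.mem_univ, true_and,
        Finset.mem_singleton, Finset.mem_biUnion] at hx
      rcases hx with ((((⟨q, rfl⟩ | ⟨i, rfl⟩) | hx) | rfl) | rfl) | ⟨c, hc'⟩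
      · exact hPmalg _ _
      · exact kk_alg hc (hw i).1
      · exact hB.alg x hx
      · exact hζ
      · exact ((wC_int hc).tower_top (A := ℚ)).isAlgebraic
      · exact hSg1 c x hc')
  simp only [Finset.mem_union, Finset.mem_image, Finset.mem_univ, true_and,
    Finset.mem_singleton, Finset.mem_biUnion] at hK
  have hKP : ∀ l' c, Pm l' c ∈ K := fun l' c => hK _ (by
    left; left; left; left; left; exact ⟨(l', c), rfl⟩)
  have hKw : ∀ i, w i ∈ K := fun i => hK _ (by left; left; left; left; right; exact ⟨i, rfl⟩)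
  have hKlam : ∀ x ∈ S₀, x ∈ K := fun x hx => hK _ (by left; left; left; right; exact hx)
  have hKζ : Complex.exp (2 * Real.pi * Complex.I / N') ∈ K := hK _ (by left; left; right; rfl)
  have hKwC : wC A B ∈ K := hK _ (by left; right; rfl)
  have hKS : ∀ c : J, Kα c ≤ K := fun c => hSg2 c K fun x hx => hK x (by right; exact ⟨c, hx⟩)
  have hKemb : ∀ x : OO A B, emb x ∈ K := fun x =>
    K.add_mem (intCast_mem _ _) (K.mul_mem (intCast_mem _ _) hKwC)
  obtain ⟨y', hy'K, hy'⟩ := h2 K J r (fun c i => Pm i c) w (fun c i => hKP i c) hKw y hy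
  obtain ⟨t, ht1, ht⟩ := hLoc (Finset.univ.image w) (by
    intro x hx
    obtain ⟨i, -, rfl⟩ := Finset.mem_image.1 hx
    exact hw i)
  refine ⟨y', hy', ?_⟩
  have hαK : ∀ c : J, ∀ n, α c n ∈ K := fun c n => hKS c ((hKα c).2 n)
  have hαV : ∀ c : J, ∀ n, α c n ∈ V := fun c n =>
    Pool.Agent.MU3A2.mem_of_integral ((hα c).1 n)
  set Z : ℍ → ℂ := fun τ => emb t * ∑ c : J, y' c * Θ c (τ : ℂ) with hZ
  set z : PowerSeries ℂ := PowerSeries.mk fun n =>
    emb t * ∑ c : J, y' c * (α c n / n) with hz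
  have hzn : ∀ n, PowerSeries.coeff n z = emb t * ∑ c : J, y' c * (α c n / n) :=
    fun n => by rw [hz, PowerSeries.coeff_mk]
  have hsmul : ∀ (γ : SL(2, ℤ)) (τ : ℍ), ((γ • τ : ℍ) : ℂ) =
      (((γ 0 0 : ℤ) : ℂ) * τ + ((γ 0 1 : ℤ) : ℂ)) /
          (((γ 1 0 : ℤ) : ℂ) * τ + ((γ 1 1 : ℤ) : ℂ)) := by
    intro γ τ
    rw [UpperHalfPlane.specialLinearGroup_apply]
    simp
  have hQS : QS Z z := by
    intro τ
    have hs := (hasSum_sum (s := Finset.univ) fun c (_ : c ∈ (Finset.univ : Finset J)) =>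
      ((hα c).2.2.2 (τ : ℂ) τ.2).mul_left (y' c)).mul_left (emb t)
    have e2 : (fun n : ℕ => PowerSeries.coeff n z * qq τ ^ n) = fun n : ℕ =>
        emb t * ∑ c : J, y' c * (α c n / n *
          Complex.exp (2 * Real.pi * Complex.I * (τ : ℂ)) ^ n) := by
      funext n
      rw [hzn n, qq, mul_assoc, Finset.sum_mul]
      congr 1
      refine Finset.sum_congr rfl fun c _ => ?_
      ring
    rw [e2]
    exact hs
  have hcusp : ∀ γ : SL(2, ℤ), ∃ (C : ℂ) (w : ℕ → ℂ), ∀ τ : ℍ, HasSum (fun n : ℕ => w n *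
      Complex.exp (2 * Real.pi * Complex.I * (τ : ℂ) / N') ^ (n + 1)) (Z (γ • τ) - C) := by
    intro γ
    choose C W hW using fun c : J => hG.cusp c (γ 0 0) (γ 0 1) (γ 1 0) (γ 1 1)
      (G6c.det_eq γ)
    refine ⟨emb t * ∑ c : J, y' c * C c, fun n => emb t * ∑ c : J, y' c * W c n, ?_⟩
    intro τ
    have hs := (hasSum_sum (s := Finset.univ) fun c (_ : c ∈ (Finset.univ : Finset J)) =>
      (hW c (τ : ℂ) τ.2).mul_left (y' c)).mul_left (emb t)
    have e1 : (fun n : ℕ => (emb t * ∑ c : J, y' c * W c n) *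
        Complex.exp (2 * Real.pi * Complex.I * (τ : ℂ) / N') ^ (n + 1)) = fun n : ℕ =>
        emb t * ∑ c : J, y' c * (W c n *
          Complex.exp (2 * Real.pi * Complex.I * (τ : ℂ) / N') ^ (n + 1)) := by
      funext n
      rw [mul_assoc, Finset.sum_mul]
      congr 1
      refine Finset.sum_congr rfl fun c _ => ?_
      ring
    have e2 : Z (γ • τ) - emb t * ∑ c : J, y' c * C c = emb t * ∑ c : J, y' c *
        (Θ c ((((γ 0 0 : ℤ) : ℂ) * τ + ((γ 0 1 : ℤ) : ℂ)) /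
          (((γ 1 0 : ℤ) : ℂ) * τ + ((γ 1 1 : ℤ) : ℂ))) - C c) := by
      rw [hZ]
      beta_reduce
      rw [← mul_sub, ← Finset.sum_sub_distrib, hsmul]
      congr 1
      refine Finset.sum_congr rfl fun c _ => ?_
      ring
    rw [e1, e2]
    exact hs
  -- the periods
  set ρ : SL(2, ℤ) → ℂ := fun g => ∑ c : J, y' c * (Ψ c ∞ (G6c.mI g) / Om) with hρ
  have hρadd : ∀ g ∈ CongruenceSubgroup.Gamma1 N', ∀ g' ∈ CongruenceSubgroup.Gamma1 N',
      ρ (g * g') = ρ g + ρ g' := by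
    intro g hg g' hg'
    rw [hρ]
    beta_reduce
    rw [← Finset.sum_add_distrib]
    refine Finset.sum_congr rfl fun c _ => ?_
    obtain ⟨m1, m2⟩ := G6c.mem1 hg
    have a1 := hG.add c ∞ (G6c.mI g) (G6c.mI (g * g'))
    have a2 := hG.inv c (g 0 0) (g 0 1) (g 1 0) (g 1 1) (G6c.det_eq g) m1 m2 ∞
      (G6c.mI g')
    rw [← G6c.mI_mul] at a2
    have a3 : mob (g 0 0) (g 0 1) (g 1 0) (g 1 1) ∞ = G6c.mI g := rfl
    rw [a3] at a2
    rw [← a1, a2]
    ring
  have hM : ∀ g ∈ CongruenceSubgroup.Gamma1 N', ∃ c : OO A B, emb t * ρ g = emb c := by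
    let M : AddSubgroup ℂ := AddSubgroup.comap (AddMonoidHom.mulLeft (emb t))
      (AddMonoidHom.range (eHom hc).toAddMonoidHom)
    have hMm : ∀ x, x ∈ M ↔ ∃ c : OO A B, emb t * x = emb c := by
      intro x
      constructor
      · rintro ⟨c, hc'⟩
        refine ⟨c, ?_⟩
        have e1 : emb t * x = eHom hc c := hc'.symm
        rw [e1, eHom_apply hc]
      · rintro ⟨c, hc'⟩
        refine ⟨c, ?_⟩
        rw [← eHom_apply hc] at hc'
        rw [eHom_apply hc] at hc'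
        show (eHom hc) c = emb t * x
        rw [eHom_apply hc, hc']
    intro g hg
    rw [← hMm]
    refine hfg ρ hρadd M (fun i => ?_) g hg
    rw [hMm]
    have e1 : ρ (h i) = w i := hy' i
    rw [e1]
    exact ht _ (Finset.mem_image_of_mem w (Finset.mem_univ i))
  have hper : ∀ γ ∈ CongruenceSubgroup.Gamma1 N', ∀ τ : ℍ, Z (γ • τ) - Z τ ∈ L'.lattice := by
    intro γ hγ τ
    obtain ⟨m1, m2⟩ := G6c.mem1 hγ
    obtain ⟨x, hx⟩ := hM γ hγ
    rw [hL.2]
    refine ⟨x, ?_⟩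
    have e1 : Z (γ • τ) - Z τ = Om * (emb t * ρ γ) := by
      rw [hZ, hρ]
      beta_reduce
      rw [hsmul, ← mul_sub, ← Finset.sum_sub_distrib, mul_left_comm Om (emb t), Finset.mul_sum _ _ Om]
      congr 1
      refine Finset.sum_congr rfl fun c _ => ?_
      rw [hG.per c (γ 0 0) (γ 0 1) (γ 1 0) (γ 1 1) (G6c.det_eq γ) m1 m2 (τ : ℂ) τ.2]
      have a3 : mob (γ 0 0) (γ 0 1) (γ 1 0) (γ 1 1) ∞ = G6c.mI γ := rfl
      rw [a3]
      field_simp
      ring
    rw [e1, hx]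
  -- the denominators
  choose q hqK hq0 hqV hqy using fun c => denom K V (y' c) (hy'K c)
  have hden : ∃ c ∈ K, c ≠ 0 ∧ c ∈ V ∧ ∀ n : ℕ, c * (n * PowerSeries.coeff n z) ∈ V := by
    refine ⟨∏ c, q c, K.prod_mem fun c _ => hqK c, Finset.prod_ne_zero_iff.2 fun c _ => hq0 c,
      prod_mem fun c _ => hqV c, ?_⟩
    intro m
    by_cases hm : m = 0
    · rw [hm]
      simp
    · have e1 : (∏ c, q c) * (m * PowerSeries.coeff m z) = ∑ c : J,
          (emb t * (∏ c' ∈ Finset.univ.erase c, q c')) * (q c * y' c) * α c m := by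
        rw [hzn, mul_left_comm (m : ℂ), Finset.mul_sum, mul_left_comm, Finset.mul_sum,
          Finset.mul_sum]
        refine Finset.sum_congr rfl fun c _ => ?_
        rw [← Finset.mul_prod_erase Finset.univ q (Finset.mem_univ c)]
        have : (m : ℂ) ≠ 0 := by exact_mod_cast hm
        field_simp
      rw [e1]
      exact sum_mem fun c _ => V.mul_mem _ _ (V.mul_mem _ _ (V.mul_mem _ _ (emb_mem_V hc V t)
        (prod_mem fun c _ => hqV c)) (hqy c)) (hαV c m)
  have hfin := hB.bin K hKlam N' hG.pos hKζ Z z hQS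
    (fun m => by
      rw [hzn]
      exact K.mul_mem (hKemb t) (sum_mem fun c _ => K.mul_mem (hy'K c)
        (K.div_mem (hαK c m) (natCast_mem _ _))))
    (by rw [hzn]; simp) hden hcusp hper
  rw [hzn] at hfin
  have e1 : (∑ c : J, y' c * (α c 1 / (1 : ℕ))) = ∑ c : J, y' c * α₁ c := by
    refine Finset.sum_congr rfl fun c _ => ?_
    rw [(hα c).2.2.1]
    simp
  rw [e1] at hfin
  have ht0 : emb t ≠ 0 := by
    intro h0
    rw [h0, map_zero] at ht1
    exact zero_ne_one ht1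
  have ht2 : (emb t)⁻¹ ∈ V := by
    rw [← V.valuation_le_one_iff, map_inv₀, ht1, inv_one]
  have := V.mul_mem _ _ ht2 hfin
  rwa [inv_mul_cancel_left₀ ht0] at this

open _root_.Pool.Agent.MU3G in
theorem gen_GTH (k1 : Sg_RET) (k2 : Sg_NFE) (h2 : Sg_DSC) (h3 : Sg_ZL) (h4 : Sg_FK) (h5 : Sg_FGG)
    {A B : ℤ} (hc : CQ A B) {J' : Type} [Fintype J']
    {Ψ : J' → OnePoint ℚ → OnePoint ℚ → ℂ} {Θ : J' → ℂ → ℂ} {α₁ : J' → ℂ} {Om : ℂ} {N' : ℕ}
    (hG : GDatN A B J' Ψ Θ α₁ Om N') {V : ValuationSubring ℂ} (hLoc : LocN A B V)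
    {L' : PeriodPair} {S₀ : Finset ℂ} (hB : BinP V L' S₀) (hL : LatO A B L' Om) (kk' : J' → ℂ)
    (hkk : ∑ j, kk' j * α₁ j ∉ V.nonunits) :
    ∃ a b c d : ℤ, a * d - b * c = 1 ∧ (N' : ℤ) ∣ c ∧ (N' : ℤ) ∣ d - 1 ∧
      (∑ j, kk' j * Ψ j ∞ (mob a b c d ∞)) / Om ∉ V.nonunits := by
  classical
  by_contra hcon
  push Not at hcon
  have hOm0 : Om ≠ 0 := hL.1
  obtain ⟨r, h, hh, hfg⟩ := h5 N' hG.pos
  set Pm : Fin r → J' → ℂ := fun l' c => Ψ c ∞
      (mob (h l' 0 0) (h l' 0 1) (h l' 1 0) (h l' 1 1) ∞) / Om with hPm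
  -- the space of the period vectors
  let T : (J' → ℂ) →ₗ[ℂ] (Fin r → ℂ) :=
    { toFun := fun y l' => ∑ c, y c * Pm l' c
      map_add' := by
        intro y z
        funext l'
        simp only [Pi.add_apply, add_mul, Finset.sum_add_distrib]
      map_smul' := by
        intro a y
        funext l'
        simp only [Pi.smul_apply, smul_eq_mul, RingHom.id_apply, Finset.mul_sum, mul_assoc] }
  have hT : ∀ y l', T y l' = ∑ c, y c * Pm l' c := fun y l' => rfl
  set X : Submodule ℂ (Fin r → ℂ) := LinearMap.range T with hX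
  have hcol : ∀ c : J', (fun l' => Pm l' c) ∈ X := by
    intro c
    refine ⟨Pi.single c 1, ?_⟩
    funext l'
    rw [hT, Finset.sum_eq_single c]
    · simp
    · intro c' _ hc'
      simp [Pi.single_eq_of_ne hc']
    · intro hc'
      exact absurd (Finset.mem_univ _) hc'
  obtain ⟨hfk, hfk2⟩ := h4 A B hc
  have hst : ∀ σ : ℂ ≃+* ℂ, (∀ a ∈ (kk A B : Set ℂ), σ a = a) → ∀ x ∈ X,
      (fun i => σ (x i)) ∈ X := by
    intro σ hσ x hx
    obtain ⟨y, rfl⟩ := hx
    have hF : FixK A B σ := (hfk σ).2 hσ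
    have hcol' : ∀ c : J', (fun l' => σ (Pm l' c)) ∈ X := by
      intro c
      obtain ⟨j, u, hu⟩ := hG.rat σ hF c
      have e1 : (fun l' => σ (Pm l' c)) = u • (fun l' => Pm l' j) := by
        funext l'
        simp only [Pi.smul_apply, smul_eq_mul, hPm, hu]
      rw [e1]
      exact X.smul_mem _ (hcol _)
    have e3 : (fun i => σ (T y i)) = ∑ c, (σ (y c)) • (fun l' => σ (Pm l' c)) := by
      funext l'
      rw [hT, map_sum, Finset.sum_apply]
      refine Finset.sum_congr rfl fun c _ => ?_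
      simp
    rw [e3]
    exact X.sum_mem fun c _ => X.smul_mem _ (hcol' c)
  obtain ⟨J, ej, hJ, hJX⟩ := h2 (kk A B : Set ℂ)
    (fun x hx => hfk2 x fun σ hσ => hx σ ((hfk σ).1 hσ)) V r X hst
  have hgj : ∀ j : Fin r, j ∈ J → ∃ y' : J' → ℂ, (∀ l', ∑ c, y' c * Pm l' c = ej j l') ∧
      ∑ c : J', y' c * α₁ c ∈ V := by
    intro j hj
    obtain ⟨hX1, hX2, -⟩ := hJ j hj
    obtain ⟨y, hy⟩ := hX1
    exact gen_GJ k1 k2 hc hG hLoc hB hL r h hfg (ej j) hX2 y (fun l' => by rw [← hy]; rfl)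
  choose! y' hy'1 hy'2 using hgj
  -- the vector `x`
  set x : Fin r → ℂ := T kk' with hx
  have hxnu : ∀ l', x l' ∈ V.nonunits := by
    intro l'
    obtain ⟨m1, m2⟩ := G6c.mem1 (hh l')
    have h6 := hcon (h l' 0 0) (h l' 0 1) (h l' 1 0) (h l' 1 1) (G6c.det_eq (h l')) m1 m2
    have e1 : x l' = (∑ j, kk' j * Ψ j ∞ (mob (h l' 0 0) (h l' 0 1) (h l' 1 0) (h l' 1 1) ∞)) /
        Om := by
      rw [hx, hT, Finset.sum_div]
      refine Finset.sum_congr rfl fun c _ => ?_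
      rw [hPm]
      ring
    rw [e1]
    exact h6
  have hxJ : x = ∑ j ∈ J, x j • ej j := hJX x ⟨kk', rfl⟩
  set yp : J' → ℂ := fun c => kk' c - ∑ j ∈ J, x j * y' j c with hyp
  have hyp0 : ∀ l', ∑ c, yp c * Pm l' c = 0 := by
    intro l'
    have e1 : ∑ c, yp c * Pm l' c = x l' - ∑ j ∈ J, x j * ej j l' := by
      have e2 : ∑ j ∈ J, x j * ej j l' = ∑ c, (∑ j ∈ J, x j * y' j c) * Pm l' c := by
        simp_rw [Finset.sum_mul]
        rw [Finset.sum_comm]
        refine Finset.sum_congr rfl fun j hj => ?_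
        rw [← hy'1 j hj l', Finset.mul_sum]
        refine Finset.sum_congr rfl fun c _ => ?_
        ring
      rw [e2, hx, hT, ← Finset.sum_sub_distrib]
      refine Finset.sum_congr rfl fun c _ => ?_
      rw [hyp]
      ring
    have e3 := congrFun hxJ l'
    rw [Finset.sum_apply] at e3
    simp only [Pi.smul_apply, smul_eq_mul] at e3
    rw [e1, ← e3, sub_self]
  -- the form
  choose α hα using fun j => hG.qexp j
  set Z : ℍ → ℂ := fun τ => ∑ c : J', yp c * Θ c (τ : ℂ) with hZ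
  set z : PowerSeries ℂ := PowerSeries.mk fun n => ∑ c : J', yp c * (α c n / n) with hz
  have hzn : ∀ n, PowerSeries.coeff n z = ∑ c : J', yp c * (α c n / n) :=
    fun n => by rw [hz, PowerSeries.coeff_mk]
  have hsmul : ∀ (γ : SL(2, ℤ)) (τ : ℍ), ((γ • τ : ℍ) : ℂ) =
      (((γ 0 0 : ℤ) : ℂ) * τ + ((γ 0 1 : ℤ) : ℂ)) /
          (((γ 1 0 : ℤ) : ℂ) * τ + ((γ 1 1 : ℤ) : ℂ)) := by
    intro γ τ
    rw [UpperHalfPlane.specialLinearGroup_apply]
    simp
  have hQS : QS Z z := by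
    intro τ
    have hs := (hasSum_sum (s := Finset.univ) fun c (_ : c ∈ (Finset.univ : Finset (J'))) =>
      ((hα c).2.2.2 (τ : ℂ) τ.2).mul_left (yp c))
    have e2 : (fun n : ℕ => PowerSeries.coeff n z * qq τ ^ n) = fun n : ℕ =>
        ∑ c : J', yp c * (α c n / n *
          Complex.exp (2 * Real.pi * Complex.I * (τ : ℂ)) ^ n) := by
      funext n
      rw [hzn n, qq, Finset.sum_mul]
      refine Finset.sum_congr rfl fun c _ => ?_
      ring
    rw [e2]
    exact hs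
  have hcusp : ∀ γ : SL(2, ℤ), ∃ (C : ℂ) (w : ℕ → ℂ), ∀ τ : ℍ, HasSum (fun n : ℕ => w n *
      Complex.exp (2 * Real.pi * Complex.I * (τ : ℂ) / N') ^ (n + 1)) (Z (γ • τ) - C) := by
    intro γ
    choose C W hW using fun c : J' => hG.cusp c (γ 0 0) (γ 0 1) (γ 1 0) (γ 1 1)
      (G6c.det_eq γ)
    refine ⟨∑ c : J', yp c * C c, fun n => ∑ c : J', yp c * W c n, ?_⟩
    intro τ
    have hs := (hasSum_sum (s := Finset.univ) fun c (_ : c ∈ (Finset.univ : Finset (J'))) =>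
      (hW c (τ : ℂ) τ.2).mul_left (yp c))
    have e1 : (fun n : ℕ => (∑ c : J', yp c * W c n) *
        Complex.exp (2 * Real.pi * Complex.I * (τ : ℂ) / N') ^ (n + 1)) = fun n : ℕ =>
        ∑ c : J', yp c * (W c n *
          Complex.exp (2 * Real.pi * Complex.I * (τ : ℂ) / N') ^ (n + 1)) := by
      funext n
      rw [Finset.sum_mul]
      refine Finset.sum_congr rfl fun c _ => ?_
      ring
    have e2 : Z (γ • τ) - ∑ c : J', yp c * C c = ∑ c : J', yp c *
        (Θ c ((((γ 0 0 : ℤ) : ℂ) * τ + ((γ 0 1 : ℤ) : ℂ)) /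
          (((γ 1 0 : ℤ) : ℂ) * τ + ((γ 1 1 : ℤ) : ℂ))) - C c) := by
      rw [hZ]
      beta_reduce
      rw [← Finset.sum_sub_distrib, hsmul]
      refine Finset.sum_congr rfl fun c _ => ?_
      ring
    rw [e1, e2]
    exact hs
  -- the periods
  set ρ : SL(2, ℤ) → ℂ := fun g => ∑ c : J', yp c *
    (Ψ c ∞ (G6c.mI g) / Om) with hρ
  have hρadd : ∀ g ∈ CongruenceSubgroup.Gamma1 N', ∀ g' ∈ CongruenceSubgroup.Gamma1 N',
      ρ (g * g') = ρ g + ρ g' := by
    intro g hg g' hg'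
    rw [hρ]
    beta_reduce
    rw [← Finset.sum_add_distrib]
    refine Finset.sum_congr rfl fun c _ => ?_
    obtain ⟨m1, m2⟩ := G6c.mem1 hg
    have a1 := hG.add c ∞ (G6c.mI g) (G6c.mI (g * g'))
    have a2 := hG.inv c (g 0 0) (g 0 1) (g 1 0) (g 1 1) (G6c.det_eq g) m1 m2 ∞
      (G6c.mI g')
    rw [← G6c.mI_mul] at a2
    have a3 : mob (g 0 0) (g 0 1) (g 1 0) (g 1 1) ∞ = G6c.mI g := rfl
    rw [a3] at a2
    rw [← a1, a2]
    ring
  have hρ0 : ∀ g ∈ CongruenceSubgroup.Gamma1 N', ρ g = 0 := by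
    intro g hg
    have := hfg ρ hρadd ⊥ (fun i => by
      rw [AddSubgroup.mem_bot]
      exact hyp0 i) g hg
    rwa [AddSubgroup.mem_bot] at this
  have hper : ∀ γ ∈ CongruenceSubgroup.Gamma1 N', ∀ τ : ℍ, Z (γ • τ) = Z τ := by
    intro γ hγ τ
    obtain ⟨m1, m2⟩ := G6c.mem1 hγ
    have e1 : Z (γ • τ) - Z τ = Om * ρ γ := by
      rw [hZ, hρ]
      beta_reduce
      rw [hsmul, ← Finset.sum_sub_distrib, Finset.mul_sum _ _ Om]
      refine Finset.sum_congr rfl fun c _ => ?_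
      rw [hG.per c (γ 0 0) (γ 0 1) (γ 1 0) (γ 1 1) (G6c.det_eq γ) m1 m2 (τ : ℂ) τ.2]
      have a3 : mob (γ 0 0) (γ 0 1) (γ 1 0) (γ 1 1) ∞ = G6c.mI γ := rfl
      rw [a3]
      field_simp
      ring
    rw [hρ0 γ hγ, mul_zero] at e1
    exact sub_eq_zero.1 e1
  have hz0 : z = 0 := h3 N' hG.pos Z z hQS (by rw [hzn]; simp) hcusp hper
  have hc1 := hzn 1
  rw [hz0, map_zero] at hc1
  have e1 : (∑ c : J', yp c * (α c 1 / (1 : ℕ))) = ∑ c : J', yp c * α₁ c := by
    refine Finset.sum_congr rfl fun c _ => ?_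
    rw [(hα c).2.2.1]
    simp
  have e2 : ∑ c : J', yp c * α₁ c = ∑ j, kk' j * α₁ j - ∑ j ∈ J, x j * ∑ c : J', y' j c * α₁ c := by
    have e4 : ∑ c : J', (∑ j ∈ J, x j * y' j c) * α₁ c =
        ∑ j ∈ J, x j * ∑ c : J', y' j c * α₁ c := by
      simp_rw [Finset.sum_mul, Finset.mul_sum]
      rw [Finset.sum_comm]
      refine Finset.sum_congr rfl fun j _ => Finset.sum_congr rfl fun c _ => ?_
      ring
    rw [← e4, ← Finset.sum_sub_distrib]
    refine Finset.sum_congr rfl fun c _ => ?_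
    rw [hyp]
    ring
  have e5 : ∑ j, kk' j * α₁ j = ∑ j ∈ J, x j * ∑ c : J', y' j c * α₁ c := by
    rw [e1, e2] at hc1
    exact (sub_eq_zero.1 hc1.symm)
  apply hkk
  rw [e5]
  exact sum_mem fun j hj => by
    rw [mul_comm]
    exact Pool.Agent.MU3A2.nonunit_mul (hy'2 j hj) (hxnu j)

end

end Pool.Agent.N2


end

section

/-!
# N2, block G2N (helper6): integrality of a series whose integral is a modular point, curve `y² + a1 x y + a3 y = x³` with good reduction
(from helper76's `MUX/N_BIN.lean`)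
-/

set_option autoImplicit false

namespace Pool.Agent.N2

open _root_.MU3 _root_.Pool.Agent.MU3A _root_.Pool.Agent.MU3B _root_.Pool.Agent.MU3Q _root_.Pool.Agent.MUX _root_.Pool.Agent.NS
  _root_.Pool.Agent.MUXN _root_.Pool.Agent.MuSym _root_.Pool.Agent.NSG OnePoint UpperHalfPlane
open scoped MatrixGroups

noncomputable section

namespace BinT

open _root_.Pool.Agent.MUXN.NBin

/-- the curve over a ring -/
def Wt {O : Type} [CommRing O] (a1 a3 : O) : WeierstrassCurve O := ⟨a1, 0, a3, 0, 0⟩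

section Wt

variable {O : Type} [CommRing O] (a1 a3 : O)

theorem Wt_Δ : (Wt a1 a3).Δ = a3 ^ 3 * (a1 ^ 3 - 27 * a3) := by
  simp only [Wt, WeierstrassCurve.Δ, WeierstrassCurve.b₂, WeierstrassCurve.b₄,
    WeierstrassCurve.b₆, WeierstrassCurve.b₈]
  ring

theorem Wt_b₂ : (Wt a1 a3).b₂ = a1 ^ 2 := by
  simp only [Wt, WeierstrassCurve.b₂]
  ring

theorem Wt_b₄ : (Wt a1 a3).b₄ = a1 * a3 := by
  simp only [Wt, WeierstrassCurve.b₄]
  ring

theorem Wt_b₆ : (Wt a1 a3).b₆ = a3 ^ 2 := by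
  simp only [Wt, WeierstrassCurve.b₆]
  ring

theorem pull {ι : O →+* ℂ} (hι : Function.Injective ι) (c : O) (P Q G : PowerSeries O)
    (h : PowerSeries.C (ι c) ^ 2 * (PowerSeries.map ι Q * thetaD (PowerSeries.map ι P) -
        PowerSeries.map ι P * thetaD (PowerSeries.map ι Q)) ^ 2 =
      PowerSeries.map ι Q * (4 * PowerSeries.map ι P ^ 3 +
        PowerSeries.C (ι a1) ^ 2 * PowerSeries.map ι P ^ 2 * PowerSeries.map ι Q +
        2 * PowerSeries.C (ι a1) * PowerSeries.C (ι a3) * PowerSeries.map ι P *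
          PowerSeries.map ι Q ^ 2 + PowerSeries.C (ι a3) ^ 2 * PowerSeries.map ι Q ^ 3) *
        PowerSeries.map ι G ^ 2) :
    PowerSeries.C c ^ 2 * (Q * tth P - P * tth Q) ^ 2 =
      Q * (4 * P ^ 3 + PowerSeries.C (Wt a1 a3).b₂ * P ^ 2 * Q +
        2 * PowerSeries.C (Wt a1 a3).b₄ * P * Q ^ 2 +
        PowerSeries.C (Wt a1 a3).b₆ * Q ^ 3) * G ^ 2 := by
  apply mapι_inj hι
  rw [Wt_b₂, Wt_b₄, Wt_b₆]
  simp only [map_mul, map_pow, map_sub, map_add, map_tth, map_ofNat, PowerSeries.map_C]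
  linear_combination h

end Wt

end BinT

open _root_.Pool.Agent.N2.BinT _root_.Pool.Agent.MUXN.NBin in
/-- integrality of a series whose integral is a modular point of a curve `y² + a1 x y + a3 y = x³` with good reduction -/
theorem bin_T (hWQ : St_WQ) (hGP : Sg_GP) (hDV : Sg_DV)
    (V : ValuationSubring ℂ) (h2V : V.valuation (2 : ℂ) < 1) (L : PeriodPair) (e a1 a3 : ℂ)
    (heq : ∀ z ∉ L.lattice, L.derivWeierstrassP z ^ 2 =
      4 * (L.weierstrassP z - e) ^ 3 + (a1 * (L.weierstrassP z - e) + a3) ^ 2)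
    (h1a : IsAlgebraic ℚ a1) (h3a : IsAlgebraic ℚ a3) (v1 : V.valuation a1 ≤ V.valuation (2 : ℂ))
    (v3 : V.valuation a3 = 1) : BinP V L {a1, a3} := by
  refine ⟨?_, ?_⟩
  · intro x hx
    rcases Finset.mem_insert.1 hx with rfl | hx
    · exact h1a
    · rw [Finset.mem_singleton.1 hx]
      exact h3a
  intro K _ hSK N hN hζ Z z hQS hzK hz0 hden hcusp hper
  have hpV : ((2 : ℕ) : ℂ) ∈ V.nonunits := (ValuationSubring.mem_nonunits_iff _).2 (by
    exact_mod_cast h2V)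
  by_cases h1 : PowerSeries.coeff 1 z = 0
  · rw [h1]
    exact V.zero_mem
  have h1K : a1 ∈ K := hSK a1 (by simp)
  have h3K : a3 ∈ K := hSK a3 (by simp)
  have h1V : a1 ∈ V := (V.valuation_le_one_iff _).1 (v1.trans h2V.le)
  have h3V : a3 ∈ V := (V.valuation_le_one_iff _).1 v3.le
  have hDVR := hDV K V 2 Nat.prime_two hpV
  obtain ⟨c, hcK, hc0, hcV, hcz⟩ := hden
  have h2K : (2 : ℂ) ∈ K := by exact_mod_cast natCast_mem K 2
  have h4K : (4 : ℂ) ∈ K := by exact_mod_cast natCast_mem K 4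
  obtain ⟨S, -, -, -, S2, ode, A, hA, B, hB, hA0, hAS⟩ := hWQ K V N L (-e) (a1 ^ 2 / 4)
    (a1 * a3 / 2) (a3 ^ 2 / 4) Z z hN hζ (K.div_mem (K.pow_mem h1K 2) h4K)
    (K.div_mem (K.mul_mem h1K h3K) h2K) (K.div_mem (K.pow_mem h3K 2) h4K) (by
      intro u hu
      rw [heq u hu]
      ring) hzK hz0 h1 hQS hcusp hper
  have hS0 : S ≠ 0 := by
    rintro rfl
    rw [map_zero] at S2
    exact h1 (pow_eq_zero_iff two_ne_zero |>.1 S2.symm)
  have hB0 : B ≠ 0 := by
    rw [← hAS]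
    exact mul_ne_zero hA0 hS0
  have hthS : thetaD S ≠ 0 := by
    intro h
    have h2 := congrArg (PowerSeries.coeff 2) h
    rw [map_zero, thetaD, PowerSeries.coeff_mk, S2] at h2
    have h3 : PowerSeries.coeff 1 z ^ 2 ≠ 0 := pow_ne_zero 2 h1
    rcases mul_eq_zero.1 h2 with h5 | h5
    · norm_num at h5
    · exact h3 h5
  -- the wronskian
  have hW1 : A * thetaD B - B * thetaD A = A ^ 2 * thetaD S := by
    rw [← hAS, thetaD_mul]
    ring
  have hG : PowerSeries.C c * thetaD z ∈ PP K V := by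
    intro n
    rw [PowerSeries.coeff_C_mul, thetaD, PowerSeries.coeff_mk]
    exact ⟨K.mul_mem hcK (K.mul_mem (natCast_mem K n) (hzK n)), hcz n⟩
  have hode : PowerSeries.C c ^ 2 * (B * thetaD A - A * thetaD B) ^ 2 =
      B * (4 * A ^ 3 + PowerSeries.C a1 ^ 2 * A ^ 2 * B +
        2 * PowerSeries.C a1 * PowerSeries.C a3 * A * B ^ 2 + PowerSeries.C a3 ^ 2 * B ^ 3) *
        (PowerSeries.C c * thetaD z) ^ 2 := by
    have e1 : (B * thetaD A - A * thetaD B) ^ 2 = A ^ 4 * thetaD S ^ 2 := by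
      calc (B * thetaD A - A * thetaD B) ^ 2 = (A * thetaD B - B * thetaD A) ^ 2 := by ring
        _ = _ := by rw [hW1]; ring
    have c1 : (4 : PowerSeries ℂ) * PowerSeries.C (a1 ^ 2 / 4 : ℂ) = PowerSeries.C a1 ^ 2 := by
      rw [← map_ofNat (PowerSeries.C : ℂ →+* PowerSeries ℂ) 4, ← map_mul, ← map_pow]
      congr 1
      ring
    have c2 : (4 : PowerSeries ℂ) * PowerSeries.C (a1 * a3 / 2 : ℂ) =
        2 * PowerSeries.C a1 * PowerSeries.C a3 := by
      rw [← map_ofNat (PowerSeries.C : ℂ →+* PowerSeries ℂ) 4,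
        ← map_ofNat (PowerSeries.C : ℂ →+* PowerSeries ℂ) 2, ← map_mul, ← map_mul, ← map_mul]
      congr 1
      ring
    have c3 : (4 : PowerSeries ℂ) * PowerSeries.C (a3 ^ 2 / 4 : ℂ) = PowerSeries.C a3 ^ 2 := by
      rw [← map_ofNat (PowerSeries.C : ℂ →+* PowerSeries ℂ) 4, ← map_mul, ← map_pow]
      congr 1
      ring
    rw [e1, ode, ← hAS, PowerSeries.smul_eq_C_mul, PowerSeries.smul_eq_C_mul,
      PowerSeries.smul_eq_C_mul]
    linear_combination (PowerSeries.C c ^ 2 * A ^ 4 * S ^ 2 * thetaD z ^ 2) * c1 +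
      (PowerSeries.C c ^ 2 * A ^ 4 * S ^ 3 * thetaD z ^ 2) * c2 +
      (PowerSeries.C c ^ 2 * A ^ 4 * S ^ 4 * thetaD z ^ 2) * c3
  -- the ring
  have hu : IsUnit (Wt (el a1 h1K h1V) (el a3 h3K h3V)).Δ := by
    rw [Wt_Δ]
    have h27 : V.valuation (27 : ℂ) = 1 := by
      have hle : V.valuation (26 : ℂ) < 1 := by
        have : (26 : ℂ) = 13 * 2 := by norm_num
        rw [this, map_mul]
        refine mul_lt_one_of_nonneg_of_lt_one_right ?_ zero_le h2V
        have := Pool.Agent.MU3A2.int_mem (V := V) (13 : ℤ)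
        exact (V.valuation_le_one_iff _).2 (by exact_mod_cast this)
      have e1 : (27 : ℂ) = 1 + 26 := by norm_num
      rw [e1, Valuation.map_add_eq_of_lt_left _ (by rw [map_one]; exact hle), map_one]
    have h5 : (a1 ^ 3 - 27 * a3 : ℂ) ∈ K :=
      K.sub_mem (K.pow_mem h1K 3) (K.mul_mem (by exact_mod_cast natCast_mem K 27) h3K)
    have h6' : V.valuation (a1 ^ 3 - 27 * a3 : ℂ) = 1 := by
      have h8 : V.valuation (27 * a3) = 1 := by rw [map_mul, h27, v3, one_mul]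
      rw [Valuation.map_sub_eq_of_lt_right, h8]
      rw [h8, map_pow]
      exact pow_lt_one₀ zero_le (lt_of_le_of_lt v1 h2V) (by norm_num)
    have h6 : (a1 ^ 3 - 27 * a3 : ℂ) ∈ V := (V.valuation_le_one_iff _).1 h6'.le
    have h7 : (el a1 h1K h1V ^ 3 - 27 * el a3 h3K h3V) = el (a1 ^ 3 - 27 * a3) h5 h6 := by
      apply io_inj K V
      rw [io_el, map_sub, map_mul, map_pow, map_ofNat, io_el, io_el]
    rw [h7]
    exact ((el_unit h3K h3V v3).pow 3).mul (el_unit h5 h6 h6')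
  have h20 : (2 : ↥(V.comap K.subtype)) ≠ 0 := by
    intro h
    have := congrArg (io K V) h
    rw [map_ofNat, map_zero] at this
    norm_num at this
  have hdvd := hGP ↥(V.comap K.subtype) h20 (Wt (el a1 h1K h1V) (el a3 h3K h3V)) hu tth
    (fun f n => by rw [tth, PowerSeries.coeff_mk]) (lft A hA)
    (lft B hB) (lft _ hG) (el c hcK hcV) (by
      intro h
      have := congrArg (io K V) h
      rw [io_el, map_zero] at this
      exact hc0 this) (by
      intro h
      have := congrArg (PowerSeries.map (io K V)) h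
      rw [map_lft, map_zero] at this
      exact hB0 this) (by
      intro h
      have := congrArg (PowerSeries.map (io K V)) h
      rw [map_sub, map_mul, map_mul, map_tth, map_tth, map_lft, map_lft, map_zero] at this
      have h8 : A ^ 2 * thetaD S = 0 := by
        rw [← hW1]
        linear_combination -this
      exact mul_ne_zero (pow_ne_zero 2 hA0) hthS h8) (by
      apply BinT.pull _ _ (io_inj K V)
      rw [map_lft, map_lft, map_lft]
      exact hode)
  obtain ⟨G', hG'⟩ := hdvd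
  have h9 := congrArg (PowerSeries.coeff 1) hG'
  rw [PowerSeries.coeff_C_mul] at h9
  have h10 := congrArg (io K V) h9
  rw [map_mul, io_el, lft, PowerSeries.coeff_mk, io_el, PowerSeries.coeff_C_mul, thetaD,
    PowerSeries.coeff_mk, Nat.cast_one, one_mul] at h10
  rw [mul_left_cancel₀ hc0 h10]
  exact io_mem _

end

end Pool.Agent.N2


end

section

/-!
# MUX, block IX: module HFX, the set `v(x)^(p-1) ≤ v(p)`
-/

set_option autoImplicit false

namespace Pool.Agent.MUXI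

open _root_.MU3 _root_.Pool.Agent.MU3 _root_.Pool.Agent.MU3A _root_.Pool.Agent.MU3B _root_.Pool.Agent.RI _root_.Pool.Agent.RID
  _root_.Pool.Agent.MUX _root_.Pool.Agent.MUXE _root_.Pool.Agent.MUXK
open _root_.Pool.Agent.MU3I (w3 zt)

namespace HFXm

lemma hfx_iff {p : ℕ} (hp : p ≠ 0) (V : ValuationSubring ℂ) (x : ℂ) :
    HfX p V x ↔ V.valuation x ^ (p - 1) ≤ V.valuation (p : ℂ) := by
  have h0 : V.valuation (p : ℂ) ≠ 0 := (Valuation.ne_zero_iff _).mpr (by exact_mod_cast hp)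
  unfold HfX
  rw [← ValuationSubring.valuation_le_one_iff, map_div₀, map_pow]
  exact div_le_one₀ (zero_lt_iff.mpr h0)

end HFXm

open _root_.Pool.Agent.MUXI.HFXm in
theorem ti_HFX : Si_HFX := by
  intro p hp V
  have hi := fun x => hfx_iff hp.ne_zero V x
  have hp1 : p - 1 ≠ 0 := by have := hp.two_le; omega
  refine ⟨?_, ?_, ?_, ?_, ?_⟩
  · rw [hi, map_zero, zero_pow hp1]
    exact zero_le
  · intro x y hx hy
    rw [hi] at hx hy ⊢
    rcases le_max_iff.mp (Valuation.map_add V.valuation x y) with h | h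
    · exact (pow_le_pow_left₀ zero_le h _).trans hx
    · exact (pow_le_pow_left₀ zero_le h _).trans hy
  · intro v x hv hx
    rw [hi] at hx ⊢
    have h1 : V.valuation v ≤ 1 := (ValuationSubring.valuation_le_one_iff _ _).mpr hv
    rw [map_mul]
    refine (pow_le_pow_left₀ zero_le ?_ _).trans hx
    exact mul_le_of_le_one_left zero_le h1
  · intro v x hv hx
    rw [hi] at hx ⊢
    have h1 : 1 ≤ V.valuation v := by
      rw [← not_lt, ← ValuationSubring.mem_nonunits_iff]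
      exact hv
    rw [map_mul] at hx
    refine (pow_le_pow_left₀ zero_le ?_ _).trans hx
    exact le_mul_of_one_le_left zero_le h1
  · rintro rfl h3
    rw [ValuationSubring.mem_nonunits_iff] at h3
    have h2 : V.valuation (2 : ℂ) = 1 := by
      have h5 : V.valuation ((3 : ℕ) : ℂ) < V.valuation (1 : ℂ) := by rw [map_one]; exact h3
      have h6 : V.valuation (1 - ((3 : ℕ) : ℂ)) = V.valuation (1 : ℂ) :=
        Valuation.map_sub_eq_of_lt_left _ h5
      have h7 : (2 : ℂ) = -(1 - ((3 : ℕ) : ℂ)) := by push_cast; ring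
      rw [h7, Valuation.map_neg, h6, map_one]
    refine ⟨?_, ?_⟩
    · rw [← ValuationSubring.valuation_le_one_iff, map_div₀, map_one, h2, div_one]
    · rw [← ValuationSubring.valuation_le_one_iff, h2]

end Pool.Agent.MUXI


end

section

/-!
# MUX, block G, module GTHX: THEOREM G (helper48)

Descent of the space of period vectors to `k` (DSC), forms for the basis with first coefficient in `V` (GJ), and the
uniqueness of a form with given periods (ZL).
-/

set_option autoImplicit false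

namespace Pool.Agent.MUXN

open _root_.MU3 _root_.Pool.Agent.MU3A _root_.Pool.Agent.MU3B _root_.Pool.Agent.MU3Q _root_.Pool.Agent.MUX _root_.Pool.Agent.MuSym
  OnePoint UpperHalfPlane
open scoped MatrixGroups

noncomputable section

open _root_.Pool.Agent.MU3G in
theorem tg_GTHX (h1 : Sg_GJ) (h2 : Sg_DSC) (h3 : Sg_ZL) (h4 : Sg_FK) (h5 : Sg_FGG) : Sg_GTHX := by
  classical
  intro A B hc n ι _ R E N' hG l hl P hP V hV halg hv1 hv2 e he kk' hkk
  by_contra hcon
  push Not at hcon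
  let _ : Fintype E := hG.fin.fintype
  set Om : ℂ := R.om R.i0 with hOm
  have hOm0 : Om ≠ 0 := (R.nl R.i0).om_ne
  obtain ⟨r, h, hh, hfg⟩ := h5 N' hG.pos
  set Pm : Fin r → ι × E → ℂ := fun l' c => PhiI (R.b c.1) (c.2 : OO A B → ℂ) ∞
      (mob (h l' 0 0) (h l' 0 1) (h l' 1 0) (h l' 1 1) ∞) / Om with hPm
  -- the space of the period vectors
  let T : (ι × E → ℂ) →ₗ[ℂ] (Fin r → ℂ) :=
    { toFun := fun y l' => ∑ c, y c * Pm l' c
      map_add' := by
        intro y z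
        funext l'
        simp only [Pi.add_apply, add_mul, Finset.sum_add_distrib]
      map_smul' := by
        intro a y
        funext l'
        simp only [Pi.smul_apply, smul_eq_mul, RingHom.id_apply, Finset.mul_sum, mul_assoc] }
  have hT : ∀ y l', T y l' = ∑ c, y c * Pm l' c := fun y l' => rfl
  set X : Submodule ℂ (Fin r → ℂ) := LinearMap.range T with hX
  have hcol : ∀ c : ι × E, (fun l' => Pm l' c) ∈ X := by
    intro c
    refine ⟨Pi.single c 1, ?_⟩
    funext l'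
    rw [hT, Finset.sum_eq_single c]
    · simp
    · intro c' _ hc'
      simp [Pi.single_eq_of_ne hc']
    · intro hc'
      exact absurd (Finset.mem_univ _) hc'
  obtain ⟨hfk, hfk2⟩ := h4 A B hc
  have hst : ∀ σ : ℂ ≃+* ℂ, (∀ a ∈ (kk A B : Set ℂ), σ a = a) → ∀ x ∈ X,
      (fun i => σ (x i)) ∈ X := by
    intro σ hσ x hx
    obtain ⟨y, rfl⟩ := hx
    have hF : FixK A B σ := (hfk σ).2 hσ
    have hcol' : ∀ c : ι × E, (fun l' => σ (Pm l' c)) ∈ X := by
      intro c
      obtain ⟨e', he', j, u, hu⟩ := hG.rat σ hF c.2 c.2.2 c.1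
      have hj0 := (R.nl j).om_ne
      have hi0 := (R.nl c.1).om_ne
      have e1 : (fun l' => σ (Pm l' c)) =
          (u * (Om / R.om j) * σ (R.om c.1 / Om)) • (fun l' => Pm l' (j, ⟨e', he'⟩)) := by
        funext l'
        have e2 : Pm l' c = (PhiI (R.b c.1) (c.2 : OO A B → ℂ) ∞
          (mob (h l' 0 0) (h l' 0 1) (h l' 1 0) (h l' 1 1) ∞) / R.om c.1) * (R.om c.1 / Om) := by
          rw [hPm]
          field_simp
        rw [e2, map_mul, hu]
        simp only [Pi.smul_apply, smul_eq_mul, hPm]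
        field_simp
      rw [e1]
      exact X.smul_mem _ (hcol _)
    have e3 : (fun i => σ (T y i)) = ∑ c, (σ (y c)) • (fun l' => σ (Pm l' c)) := by
      funext l'
      rw [hT, map_sum, Finset.sum_apply]
      refine Finset.sum_congr rfl fun c _ => ?_
      simp
    rw [e3]
    exact X.sum_mem fun c _ => X.smul_mem _ (hcol' c)
  obtain ⟨J, ej, hJ, hJX⟩ := h2 (kk A B : Set ℂ)
    (fun x hx => hfk2 x fun σ hσ => hx σ ((hfk σ).1 hσ)) V r X hst
  have hgj : ∀ j : Fin r, j ∈ J → ∃ y' : ι × E → ℂ, (∀ l', ∑ c, y' c * Pm l' c = ej j l') ∧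
      ∑ e : E, y' (R.i0, e) ∈ V := by
    intro j hj
    obtain ⟨hX1, hX2, -⟩ := hJ j hj
    obtain ⟨y, hy⟩ := hX1
    exact h1 A B hc n ι R E N' hG l hl P hP V hV halg hv1 hv2 r h hh hfg (ej j) hX2 y
      (fun l' => by rw [← hy]; rfl)
  choose! y' hy'1 hy'2 using hgj
  -- the vector `x`
  set yx : ι × E → ℂ := fun c => if c.2 = (⟨e, he⟩ : E) then kk' c.1 else 0 with hyx
  set x : Fin r → ℂ := T yx with hx
  have hxnu : ∀ l', x l' ∈ V.nonunits := by
    intro l'
    obtain ⟨m1, m2⟩ := G6c.mem1 (hh l')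
    have h6 := hcon (h l' 0 0) (h l' 0 1) (h l' 1 0) (h l' 1 1) (G6c.det_eq (h l')) m1 m2
    have e1 : x l' = PhiK R e kk' ∞ (mob (h l' 0 0) (h l' 0 1) (h l' 1 0) (h l' 1 1) ∞) / Om := by
      rw [hx, hT, Fintype.sum_prod_type, PhiK, Finset.sum_div]
      refine Finset.sum_congr rfl fun i _ => ?_
      rw [Finset.sum_eq_single (⟨e, he⟩ : E)]
      · simp only [hyx, if_true, hPm]
        ring
      · intro e' _ he'
        simp only [hyx, if_neg he', zero_mul]
      · intro hc'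
        exact absurd (Finset.mem_univ _) hc'
    rw [e1]
    exact h6
  have hxJ : x = ∑ j ∈ J, x j • ej j := hJX x ⟨yx, rfl⟩
  set yp : ι × E → ℂ := fun c => yx c - ∑ j ∈ J, x j * y' j c with hyp
  have hyp0 : ∀ l', ∑ c, yp c * Pm l' c = 0 := by
    intro l'
    have e1 : ∑ c, yp c * Pm l' c = x l' - ∑ j ∈ J, x j * ej j l' := by
      have e2 : ∑ j ∈ J, x j * ej j l' = ∑ c, (∑ j ∈ J, x j * y' j c) * Pm l' c := by
        simp_rw [Finset.sum_mul]
        rw [Finset.sum_comm]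
        refine Finset.sum_congr rfl fun j hj => ?_
        rw [← hy'1 j hj l', Finset.mul_sum]
        refine Finset.sum_congr rfl fun c _ => ?_
        ring
      rw [e2, hx, hT, ← Finset.sum_sub_distrib]
      refine Finset.sum_congr rfl fun c _ => ?_
      rw [hyp]
      ring
    have e3 := congrFun hxJ l'
    rw [Finset.sum_apply] at e3
    simp only [Pi.smul_apply, smul_eq_mul] at e3
    rw [e1, ← e3, sub_self]
  -- the form
  choose! α hα using fun e (he : e ∈ E) i => hG.qexp e he i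
  set Z : ℍ → ℂ := fun τ => ∑ c : ι × E, yp c * thetaIntI (R.b c.1) c.2 (τ : ℂ) with hZ
  set z : PowerSeries ℂ := PowerSeries.mk fun n => ∑ c : ι × E, yp c * (α c.2 c.1 n / n) with hz
  have hzn : ∀ n, PowerSeries.coeff n z = ∑ c : ι × E, yp c * (α c.2 c.1 n / n) :=
    fun n => by rw [hz, PowerSeries.coeff_mk]
  have hsmul : ∀ (γ : SL(2, ℤ)) (τ : ℍ), ((γ • τ : ℍ) : ℂ) =
      (((γ 0 0 : ℤ) : ℂ) * τ + ((γ 0 1 : ℤ) : ℂ)) /
          (((γ 1 0 : ℤ) : ℂ) * τ + ((γ 1 1 : ℤ) : ℂ)) := by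
    intro γ τ
    rw [UpperHalfPlane.specialLinearGroup_apply]
    simp
  have hQS : QS Z z := by
    intro τ
    have hs := (hasSum_sum (s := Finset.univ) fun c (_ : c ∈ (Finset.univ : Finset (ι × E))) =>
      ((hα c.2 c.2.2 c.1).2.2.2.2 (τ : ℂ) τ.2).mul_left (yp c))
    have e2 : (fun n : ℕ => PowerSeries.coeff n z * qq τ ^ n) = fun n : ℕ =>
        ∑ c : ι × E, yp c * (α c.2 c.1 n / n *
          Complex.exp (2 * Real.pi * Complex.I * (τ : ℂ)) ^ n) := by
      funext n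
      rw [hzn n, qq, Finset.sum_mul]
      refine Finset.sum_congr rfl fun c _ => ?_
      ring
    rw [e2]
    exact hs
  have hcusp : ∀ γ : SL(2, ℤ), ∃ (C : ℂ) (w : ℕ → ℂ), ∀ τ : ℍ, HasSum (fun n : ℕ => w n *
      Complex.exp (2 * Real.pi * Complex.I * (τ : ℂ) / N') ^ (n + 1)) (Z (γ • τ) - C) := by
    intro γ
    choose C W hW using fun c : ι × E => hG.cusp c.2 c.2.2 c.1 (γ 0 0) (γ 0 1) (γ 1 0) (γ 1 1)
      (G6c.det_eq γ)
    refine ⟨∑ c : ι × E, yp c * C c, fun n => ∑ c : ι × E, yp c * W c n, ?_⟩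
    intro τ
    have hs := (hasSum_sum (s := Finset.univ) fun c (_ : c ∈ (Finset.univ : Finset (ι × E))) =>
      (hW c (τ : ℂ) τ.2).mul_left (yp c))
    have e1 : (fun n : ℕ => (∑ c : ι × E, yp c * W c n) *
        Complex.exp (2 * Real.pi * Complex.I * (τ : ℂ) / N') ^ (n + 1)) = fun n : ℕ =>
        ∑ c : ι × E, yp c * (W c n *
          Complex.exp (2 * Real.pi * Complex.I * (τ : ℂ) / N') ^ (n + 1)) := by
      funext n
      rw [Finset.sum_mul]
      refine Finset.sum_congr rfl fun c _ => ?_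
      ring
    have e2 : Z (γ • τ) - ∑ c : ι × E, yp c * C c = ∑ c : ι × E, yp c *
        (thetaIntI (R.b c.1) c.2 ((((γ 0 0 : ℤ) : ℂ) * τ + ((γ 0 1 : ℤ) : ℂ)) /
          (((γ 1 0 : ℤ) : ℂ) * τ + ((γ 1 1 : ℤ) : ℂ))) - C c) := by
      rw [hZ]
      beta_reduce
      rw [← Finset.sum_sub_distrib, hsmul]
      refine Finset.sum_congr rfl fun c _ => ?_
      ring
    rw [e1, e2]
    exact hs
  -- the periods
  set ρ : SL(2, ℤ) → ℂ := fun g => ∑ c : ι × E, yp c *
    (PhiI (R.b c.1) (c.2 : OO A B → ℂ) ∞ (G6c.mI g) / Om) with hρ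
  have hρadd : ∀ g ∈ CongruenceSubgroup.Gamma1 N', ∀ g' ∈ CongruenceSubgroup.Gamma1 N',
      ρ (g * g') = ρ g + ρ g' := by
    intro g hg g' hg'
    rw [hρ]
    beta_reduce
    rw [← Finset.sum_add_distrib]
    refine Finset.sum_congr rfl fun c _ => ?_
    obtain ⟨m1, m2⟩ := G6c.mem1 hg
    have a1 := hG.add c.2 c.2.2 c.1 ∞ (G6c.mI g) (G6c.mI (g * g'))
    have a2 := hG.inv c.2 c.2.2 c.1 (g 0 0) (g 0 1) (g 1 0) (g 1 1) (G6c.det_eq g) m1 m2 ∞
      (G6c.mI g')
    rw [← G6c.mI_mul] at a2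
    have a3 : mob (g 0 0) (g 0 1) (g 1 0) (g 1 1) ∞ = G6c.mI g := rfl
    rw [a3] at a2
    rw [← a1, a2]
    ring
  have hρ0 : ∀ g ∈ CongruenceSubgroup.Gamma1 N', ρ g = 0 := by
    intro g hg
    have := hfg ρ hρadd ⊥ (fun i => by
      rw [AddSubgroup.mem_bot]
      exact hyp0 i) g hg
    rwa [AddSubgroup.mem_bot] at this
  have hper : ∀ γ ∈ CongruenceSubgroup.Gamma1 N', ∀ τ : ℍ, Z (γ • τ) = Z τ := by
    intro γ hγ τ
    obtain ⟨m1, m2⟩ := G6c.mem1 hγ
    have e1 : Z (γ • τ) - Z τ = Om * ρ γ := by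
      rw [hZ, hρ]
      beta_reduce
      rw [hsmul, ← Finset.sum_sub_distrib, Finset.mul_sum _ _ Om]
      refine Finset.sum_congr rfl fun c _ => ?_
      rw [hG.per c.2 c.2.2 c.1 (γ 0 0) (γ 0 1) (γ 1 0) (γ 1 1) (G6c.det_eq γ) m1 m2 (τ : ℂ) τ.2]
      have a3 : mob (γ 0 0) (γ 0 1) (γ 1 0) (γ 1 1) ∞ = G6c.mI γ := rfl
      rw [a3]
      field_simp
      ring
    rw [hρ0 γ hγ, mul_zero] at e1
    exact sub_eq_zero.1 e1
  have hz0 : z = 0 := h3 N' hG.pos Z z hQS (by rw [hzn]; simp) hcusp hper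
  have hc1 := hzn 1
  rw [hz0, map_zero] at hc1
  have e1 : (∑ c : ι × E, yp c * (α c.2 c.1 1 / (1 : ℕ))) = ∑ e : E, yp (R.i0, e) := by
    rw [Fintype.sum_prod_type, Finset.sum_eq_single R.i0]
    · refine Finset.sum_congr rfl fun e _ => ?_
      have := (hα e e.2 R.i0).2.2.1 rfl
      rw [this]
      simp
    · intro i _ hi
      refine Finset.sum_eq_zero fun e _ => ?_
      have := (hα e e.2 i).2.2.2.1 hi
      rw [this]
      simp
    · intro hi
      exact absurd (Finset.mem_univ _) hi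
  have e2 : ∑ e : E, yp (R.i0, e) = kk' R.i0 - ∑ j ∈ J, x j * ∑ e : E, y' j (R.i0, e) := by
    have e3 : ∑ e' : E, yx (R.i0, e') = kk' R.i0 := by
      rw [Finset.sum_eq_single (⟨e, he⟩ : E)]
      · simp only [hyx, if_true]
      · intro e' _ he'
        simp only [hyx, if_neg he']
      · intro hc'
        exact absurd (Finset.mem_univ _) hc'
    have e4 : ∑ e' : E, ∑ j ∈ J, x j * y' j (R.i0, e') =
        ∑ j ∈ J, x j * ∑ e : E, y' j (R.i0, e) := by
      rw [Finset.sum_comm]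
      refine Finset.sum_congr rfl fun j _ => ?_
      rw [Finset.mul_sum]
    rw [← e3, ← e4, ← Finset.sum_sub_distrib]
  have e5 : kk' R.i0 = ∑ j ∈ J, x j * ∑ e : E, y' j (R.i0, e) := by
    rw [e1, e2] at hc1
    exact (sub_eq_zero.1 hc1.symm)
  apply hkk
  rw [e5]
  exact sum_mem fun j hj => by
    rw [mul_comm]
    exact Pool.Agent.MU3A2.nonunit_mul (hy'2 j hj) (hxnu j)

end

end Pool.Agent.MUXN


end

section

/-!
# MUX, block E: module WI (helper19)
-/

set_option autoImplicit false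

namespace Pool.Agent.MUXE

open _root_.MU3 _root_.Pool.Agent.MU3A _root_.Pool.Agent.MU3B _root_.Pool.Agent.MUX _root_.Pool.Agent.MUXU _root_.Pool.Agent.RI

namespace WI19

theorem sq_inj {Γ : Type*} [LinearOrderedCommGroupWithZero Γ] {a b : Γ} (h : a ^ 2 = b ^ 2) :
    a = b := (pow_left_inj₀ zero_le zero_le two_ne_zero).1 h

/-- the computation for `p = 3` -/
theorem val3 {K Γ : Type*} [Field K] [LinearOrderedCommGroupWithZero Γ] (v : Valuation K Γ)
    (t t' x x' : K) (hτ : v t' = v t) (ht0 : v t ≠ 0) (h3 : v 3 = v t ^ 2) (h2 : v 2 = 1)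
    (hx' : v x' * v t' ^ 2 = 1) (a : v (x * t ^ 2 - 1) ≤ v t) (b : v (x' * t' ^ 2 - 1) ≤ v t')
    (c : v (3 * (x - x')) ≤ v t) : v (t' - t) ≤ v t ^ 2 ∨ v (t' + t) ≤ v t ^ 2 := by
  rw [hτ] at hx' b
  have ht : 0 < v t := zero_lt_iff.2 ht0
  -- `v ((x - x') t²) ≤ v t`
  have h4 : v ((x - x') * t ^ 2) ≤ v t := by
    rw [map_mul, map_pow, ← h3, mul_comm, ← map_mul]
    exact c
  have h5 : v (x' * (t' ^ 2 - t ^ 2)) ≤ v t := by
    have e : x' * (t' ^ 2 - t ^ 2) = (x' * t' ^ 2 - 1) - (x * t ^ 2 - 1) + (x - x') * t ^ 2 := by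
      ring
    rw [e]
    exact (v.map_add _ _).trans (max_le ((v.map_sub _ _).trans (max_le b a)) h4)
  have h6 : v (t' - t) * v (t' + t) ≤ v t ^ 2 * v t := by
    have e : v (t' - t) * v (t' + t) = v t ^ 2 * v (x' * (t' ^ 2 - t ^ 2)) := by
      have e1 : t' ^ 2 - t ^ 2 = (t' - t) * (t' + t) := by ring
      rw [map_mul v x', e1, map_mul, ← mul_assoc, mul_comm (v t ^ 2), hx', one_mul]
    rw [e]
    exact mul_le_mul_right h5 _
  have h7 : v t ≤ max (v (t' + t)) (v (t' - t)) := by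
    have e : v t = v ((t' + t) - (t' - t)) := by
      have e1 : (t' + t) - (t' - t) = 2 * t := by ring
      rw [e1, map_mul, h2, one_mul]
    rw [e]
    exact v.map_sub _ _
  rcases le_max_iff.1 h7 with h8 | h8
  · left
    have h9 : v (t' - t) * v t ≤ v t ^ 2 * v t := (mul_le_mul_right h8 _).trans h6
    exact (mul_le_mul_iff_left₀ ht).1 h9
  · right
    have h9 : v (t' + t) * v t ≤ v t ^ 2 * v t := by
      refine (mul_le_mul_right h8 _).trans ?_
      rw [mul_comm]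
      exact h6
    exact (mul_le_mul_iff_left₀ ht).1 h9

/-- the case `p = 2`: the parameter is `2` -/
theorem tE_two {V : ValuationSubring ℂ} {L : PeriodPair} {u : ℂ} (h : InEn V L u)
    (hu : u ∉ L.lattice) (h2 : 2 * u ∈ L.lattice) : tE L u = 2 := by
  have h3 : L.derivWeierstrassP u = 0 := (b_ZER L u hu).2 h2
  have h4 : xn L u ≠ 0 := by
    intro h5
    rcases h with h6 | h6
    · exact hu h6
    · rw [h5] at h6
      exact h6 V.zero_mem
  unfold tE
  rw [h3]
  field_simp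
  ring

variable {p : ℕ} {A B : ℤ} {P : Ideal (OO A B)} {V : ValuationSubring ℂ}

theorem emb_nat (h : RingE A B) (n : ℕ) : emb (n : OO A B) = (n : ℂ) := by
  obtain ⟨φ, hφ⟩ := h.hom
  rw [← hφ, map_natCast]

theorem emb_sub (h : RingE A B) (x y : OO A B) : emb (x - y) = emb x - emb y := by
  obtain ⟨φ, hφ⟩ := h.hom
  rw [← hφ, ← hφ, ← hφ, map_sub]

theorem emb_add (h : RingE A B) (x y : OO A B) : emb (x + y) = emb x + emb y := by
  obtain ⟨φ, hφ⟩ := h.hom
  rw [← hφ, ← hφ, ← hφ, map_add]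

theorem emb_one (h : RingE A B) : emb (1 : OO A B) = 1 := by
  obtain ⟨φ, hφ⟩ := h.hom
  rw [← hφ, map_one]

/-- the three-term estimate for the sign -/
theorem three {K Γ : Type*} [Field K] [LinearOrderedCommGroupWithZero Γ] (v : Valuation K Γ)
    (a b a' b' : K) (w : ℤ) (hw : w = 1 ∨ w = -1) (g : Γ) (h1 : v (a' + a) ≤ g)
    (h2 : v (b' + b) ≤ g) (h3 : v (a - w * b) ≤ g) : v (a' - w * b') ≤ g := by
  have hw1 : v (w : K) = 1 := by
    rcases hw with rfl | rfl
    · rw [Int.cast_one, map_one]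
    · rw [Int.cast_neg, Int.cast_one, Valuation.map_neg, map_one]
  have e : a' - w * b' = (a' + a) - w * (b' + b) - (a - w * b) := by ring
  rw [e]
  refine (v.map_sub _ _).trans (max_le ((v.map_sub _ _).trans (max_le h1 ?_)) h3)
  rw [map_mul, hw1, one_mul]
  exact h2

/-- one lattice -/
theorem one (h1 : Sxe_PA) (h2 : Sxe_KER) (h4 : Sxe_TRA) (h5 : Sxe_TRB) (C : CtxE p P V)
    (L₀ L : PeriodPair) (hL₀ : NL A B L₀) (hL : NL A B L) (μ : ℂ)
    (hμ : ∀ u ∈ L₀.lattice, μ * u ∈ L.lattice)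
    (hk : ∀ u, (p : ℂ) * u ∈ L₀.lattice → μ * u ∈ L.lattice → u ∈ L₀.lattice) :
    ∃ w : ℤ, (w = 1 ∨ w = -1) ∧ ∀ u, Tor P L₀ u → u ∉ L₀.lattice →
      V.valuation (tE L (μ * u) - w * tE L₀ u) ≤ V.valuation (tE L₀ u) ^ 2 := by
  -- the point `μ u`
  have hT : ∀ u, Tor P L₀ u → Tor P L (μ * u) := by
    intro u hu x hx
    have e : emb x * (μ * u) = μ * (emb x * u) := by ring
    rw [e]
    exact hμ _ (hu x hx)
  have hN : ∀ u, Tor P L₀ u → u ∉ L₀.lattice → μ * u ∉ L.lattice := by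
    intro u hu hu' h
    refine hu' (hk u ?_ h)
    have := hu _ C.mem
    rwa [emb_nat C.ring] at this
  rcases C.two with hp | hp
  · -- `p = 2`
    refine ⟨1, Or.inl rfl, fun u hu hu' => ?_⟩
    have hP : ∀ (M : PeriodPair) (z : ℂ), Tor P M z → 2 * z ∈ M.lattice := by
      intro M z hz
      have := hz _ C.mem
      rw [emb_nat C.ring, hp] at this
      exact_mod_cast this
    rw [tE_two (h2 p A B P V C L₀ hL₀ u hu hu').1 hu' (hP L₀ u hu),
      tE_two (h2 p A B P V C L hL _ (hT u hu) (hN u hu hu')).1 (hN u hu hu') (hP L _ (hT u hu))]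
    rw [Int.cast_one, one_mul, sub_self, map_zero]
    exact zero_le
  · -- `p = 3`
    have hpa := h1 p A B P V C
    obtain ⟨_, hpa2, hpa3, hpa4, hpa5, _⟩ := hpa
    have hv2 : V.valuation (2 : ℂ) = 1 := by
      have := (hpa4 2 (by rw [hp]; norm_num)).1
      exact_mod_cast this
    have hKER : ∀ (M : PeriodPair) (_ : NL A B M) (z : ℂ), Tor P M z → z ∉ M.lattice →
        V.valuation (tE M z) ^ 2 = V.valuation (3 : ℂ) := by
      intro M hM z hz hz'
      have h := (h2 p A B P V C M hM z hz hz').2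
      rw [hp] at h
      exact_mod_cast h
    have hInE : ∀ (M : PeriodPair) (_ : NL A B M) (z : ℂ), Tor P M z → z ∉ M.lattice →
        InEn V M z := fun M hM z hz hz' => (h2 p A B P V C M hM z hz hz').1
    have hone : ∀ u, Tor P L₀ u → u ∉ L₀.lattice →
        ∃ w : ℤ, (w = 1 ∨ w = -1) ∧
          V.valuation (tE L (μ * u) - w * tE L₀ u) ≤ V.valuation (tE L₀ u) ^ 2 := by
      intro u hu hu'
      have g := C.gx L₀ hL₀
      have g' := C.gx L hL
      have k1 := hKER L₀ hL₀ u hu hu'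
      have k2 := hKER L hL _ (hT u hu) (hN u hu hu')
      have hτ : V.valuation (tE L (μ * u)) = V.valuation (tE L₀ u) := sq_inj (k2.trans k1.symm)
      have hpar := g.par u (hInE L₀ hL₀ u hu hu') hu'
      have hpar' := g'.par _ (hInE L hL _ (hT u hu) (hN u hu hu')) (hN u hu hu')
      rcases val3 V.valuation (tE L₀ u) (tE L (μ * u)) (xn L₀ u) (xn L (μ * u)) hτ hpar.2.1 k1.symm
        hv2 hpar'.2.2 (g.xt u (hInE L₀ hL₀ u hu hu') hu')
        (g'.xt _ (hInE L hL _ (hT u hu) (hN u hu hu')) (hN u hu hu'))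
        (C.x3 hp L₀ L u _ hL₀ hL hu hu' (hT u hu) (hN u hu hu')) with h | h
      · exact ⟨1, Or.inl rfl, by rw [Int.cast_one, one_mul]; exact h⟩
      · refine ⟨-1, Or.inr rfl, ?_⟩
        have e : tE L (μ * u) - ((-1 : ℤ) : ℂ) * tE L₀ u = tE L (μ * u) + tE L₀ u := by
          push_cast
          ring
        rw [e]
        exact h
    by_cases hex : ∃ u, Tor P L₀ u ∧ u ∉ L₀.lattice
    · obtain ⟨u, hu, hu'⟩ := hex
      obtain ⟨w, hw, hwu⟩ := hone u hu hu'
      refine ⟨w, hw, fun z hz hz' => ?_⟩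
      have hP0 : P ≠ ⊥ := by
        intro h
        have h3 := C.mem
        rw [h, Ideal.mem_bot] at h3
        have h6 := emb_nat C.ring p
        rw [h3] at h6
        have h7 := emb_nat C.ring 0
        rw [Nat.cast_zero, Nat.cast_zero] at h7
        rw [h7, hp] at h6
        norm_num at h6
      obtain ⟨x, hx⟩ := (h5 A B C.ring L₀ hL₀).2 P hP0 hpa5 u z hu hz hu'
      obtain ⟨_, _, _, _, _, _, _, _, tr9⟩ := h4 A B C.ring L₀ hL₀
      obtain ⟨_, _, _, _, _, _, _, _, tr9'⟩ := h4 A B C.ring L hL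
      have hxP : x ∉ P := by
        intro h
        have h3 := L₀.lattice.add_mem hx (hu x h)
        rw [sub_add_cancel] at h3
        exact hz' h3
      have kz := hKER L₀ hL₀ z hz hz'
      have ku := hKER L₀ hL₀ u hu hu'
      have hvz : V.valuation (tE L₀ z) = V.valuation (tE L₀ u) := sq_inj (kz.trans ku.symm)
      rcases (hpa2 x hxP).2 with h3 | h3
      · -- `z ≡ u`
        have e1 : z - u ∈ L₀.lattice := by
          have h6 := L₀.lattice.add_mem hx (hu _ h3)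
          rw [emb_sub C.ring, emb_one C.ring] at h6
          have e : z - emb x * u + (emb x - 1) * u = z - u := by ring
          rwa [e] at h6
        have e2 : μ * z - μ * u ∈ L.lattice := by
          rw [← mul_sub]
          exact hμ _ e1
        rw [((tr9 z u e1).2 hz').2.1, ((tr9' (μ * z) (μ * u) e2).2 (hN z hz hz')).2.1]
        exact hwu
      · -- `z ≡ -u`
        have e1 : z - (-u) ∈ L₀.lattice := by
          have h6 := L₀.lattice.add_mem hx (hu _ h3)
          rw [emb_add C.ring, emb_one C.ring] at h6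
          have e : z - emb x * u + (emb x + 1) * u = z - (-u) := by ring
          rwa [e] at h6
        have e2 : μ * z - (-(μ * u)) ∈ L.lattice := by
          have h6 := hμ _ e1
          have e : μ * (z - (-u)) = μ * z - (-(μ * u)) := by ring
          rwa [e] at h6
        rw [hvz, ((tr9 z (-u) e1).2 hz').2.1,
          ((tr9' (μ * z) (-(μ * u)) e2).2 (hN z hz hz')).2.1]
        have g := C.gx L₀ hL₀
        have g' := C.gx L hL
        have t1 := g.tneg u (hInE L₀ hL₀ u hu hu') hu'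
        have t2 := g'.tneg _ (hInE L hL _ (hT u hu) (hN u hu hu')) (hN u hu hu')
        have k2 := hKER L hL _ (hT u hu) (hN u hu hu')
        rw [sq_inj (k2.trans ku.symm)] at t2
        exact three V.valuation _ _ _ _ w hw _ t2 t1 hwu
    · exact ⟨1, Or.inl rfl, fun u hu hu' => absurd ⟨u, hu, hu'⟩ hex⟩

end WI19

open _root_.Pool.Agent.MUXE.WI19 in
theorem te_WI (h1 : Sxe_PA) (h2 : Sxe_KER) (h3 : Sxe_PT) (h4 : Sxe_TRA) (h5 : Sxe_TRB) :
    Sxe_WI := by
  intro p A B P V C n ι R hn hpn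
  have hi : ∀ i, ∃ w : ℤ, (w = 1 ∨ w = -1) ∧ ∀ u, Tor P (R.L R.i0) u → u ∉ (R.L R.i0).lattice →
      V.valuation (tE (R.L i) (muX R i * u) - w * tE (R.L R.i0) u) ≤
        V.valuation (tE (R.L R.i0) u) ^ 2 := by
    intro i
    obtain ⟨_, a2, a3, _⟩ := h3 A B C.ring n ι R hn i
    have hp0 : p ≠ 0 := by
      rcases C.two with h | h <;> rw [h] <;> norm_num
    exact one h1 h2 h4 h5 C (R.L R.i0) (R.L i) ⟨_, _, R.nl R.i0⟩ ⟨_, _, R.nl i⟩ (muX R i) a2
      (a3 p hp0 (Nat.primeFactors_mono hpn hn))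
  choose w hw1 hw2 using hi
  exact ⟨w, hw1, fun i u hu hu' => hw2 i u hu hu'⟩

end Pool.Agent.MUXE


end
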