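import Mathlib
import Pool.Agent.MVF.C044
import Pool.Agent.MVF.C046
import Pool.Agent.MVF.C057
import Pool.Agent.MVF.C071
import Pool.Agent.MVF.C076

/-! Parts: MUX.Y_UNJ, ME.DefsE2, ME.Lib, MUX.HN_DVN, MUX.Y_SML, MUX.Y_QCO, ME.X.StIX, MUX.I_HIT, ME.N.USum, ME.X.I_TH, MUX.I_IAG, ME.X.Y_UNJ, ME.X.Y_MUI, ME.X.Y_EXI, ME.X.Y_COP, ME.X.Y_CON, ME.X.Y_ALP, NS.I_NRX, ME2.FinE -/

namespace Pool.Agent.MUXHN.Dvn
end Pool.Agent.MUXHN.Dvn
namespace Pool.Agent.MUXI.Hit
end Pool.Agent.MUXI.Hit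
namespace Pool.Agent.MUXI.IagX
end Pool.Agent.MUXI.IagX
namespace Pool.Agent.MUXY.RSML
end Pool.Agent.MUXY.RSML
namespace Pool.Agent.MUXY.UNJ19
end Pool.Agent.MUXY.UNJ19

section

/-!
# MUX, section 9: module UNJ (helper19)
-/

set_option autoImplicit false

namespace Pool.Agent.MUXY

open _root_.MU3 _root_.Pool.Agent.MU3A _root_.Pool.Agent.MU3B _root_.Pool.Agent.MUXU OnePoint
open _root_.Pool.Agent.MU3F (ex)
open _root_.Pool.Agent.MUXF (Sx_ALG Sx_IDL Sx_NIM Sx_QB Sx_SMB Sx_F4 qb sumB)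

namespace UNJ19

/-- one inclusion -/
theorem le_of {A B : ℤ} (hmul : ∀ x y : OO A B, emb (x * y) = emb x * emb y)
    (hinj : ∀ x y : OO A B, emb x = emb y → x = y)
    {b b' : Ideal (OO A B)} {L L' : PeriodPair} {om om' : ℂ} (h : MUX.IsLI b L om)
    (h' : MUX.IsLI b' L' om') (hl : ∀ z, z ∈ L.lattice → z ∈ L'.lattice) (t t' : OO A B)
    (ht : om * emb t = om' * emb t') : MUX.sp t' * b ≤ MUX.sp t * b' := by
  refine Ideal.span_singleton_mul_le_iff.2 fun s hs => ?_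
  obtain ⟨s', hs', he⟩ := (h'.mem _).1 (hl _ ((h.mem _).2 ⟨s, hs, rfl⟩))
  refine Ideal.mem_span_singleton_mul.2 ⟨s', hs', ?_⟩
  refine hinj _ _ ?_
  rw [hmul, hmul]
  have h1 : om * om' ≠ 0 := mul_ne_zero h.om_ne h'.om_ne
  apply mul_left_cancel₀ h1
  linear_combination (om' * emb s') * ht - (om' * emb t') * he

end UNJ19

open _root_.Pool.Agent.MUXY.UNJ19 in
theorem ty_UNJ (h1 : Sx_ALG) (_h2 : Sx_IDL) (h3 : Su_DET) : Sy_UNJ := by
  intro A B hC n ι R j j' hg2 hg3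
  obtain ⟨a1, a2, _, _, _⟩ := h1 A B (cqF hC)
  have hmul : ∀ x y : OO A B, emb (x * y) = emb x * emb y := fun x y => (a1 x y).1
  have hadd : ∀ x y : OO A B, emb (x + y) = emb x + emb y := fun x y => (a1 x y).2.1
  have h0 : ∀ x : OO A B, emb x = 0 ↔ x = 0 := fun x => (a2 x).1
  have hinj : ∀ x y : OO A B, emb x = emb y → x = y := by
    intro x y h
    have e1 := hadd (x - y) y
    rw [sub_add_cancel, h] at e1
    have e2 : emb (x - y) = 0 := by linear_combination -e1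
    exact sub_eq_zero.1 ((h0 _).1 e2)
  have hlat := h3 _ _ hg2 hg3
  have hj := (R.nl j).toIsLI
  have hj' := (R.nl j').toIsLI
  obtain ⟨t, ht, ht0⟩ := Submodule.exists_mem_ne_zero_of_ne_bot hj.b_ne
  obtain ⟨t', ht', he⟩ := (hj'.mem _).1 (hlat ▸ ((hj.mem _).2 ⟨t, ht, rfl⟩))
  have ht0' : t' ≠ 0 := by
    intro h
    rw [h, (h0 0).2 rfl, mul_zero] at he
    rcases mul_eq_zero.1 he with h4 | h4
    · exact hj.om_ne h4
    · exact ht0 ((h0 t).1 h4)
  refine R.inj j j' t' t ht0' ht0 (le_antisymm ?_ ?_)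
  · exact le_of hmul hinj hj hj' (fun z hz => hlat ▸ hz) t t' he
  · exact le_of hmul hinj hj' hj (fun z hz => hlat ▸ hz) t' t he.symm

end Pool.Agent.MUXY


end

section

/-!
# ME: the exceptional fields for `p = 3`: final statements of the blocks (helper21)

The twins of the final statements of `NS/DefsN.lean`, `NS/DefsR.lean`; names with the suffix `_E`, in the namespaces of the originals.
`D = -4` (`CaseE4`, `SetE4`): `3` is inert; the characters satisfy `e (i x) = i e x` (`IsEIE`). `D = -3` (`CaseE3`, `SetE3`): `3 = P²`; the weights are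
`w : (O/3)^* → μ_6` (`IsTei6`), `e = e0 w`; the sums over `XXE` are one third of the sums over all `x`.
-/

set_option autoImplicit false

namespace Pool.Agent.ME

open _root_.MU3 _root_.Pool.Agent.MU3A _root_.Pool.Agent.MU3B _root_.Pool.Agent.RI _root_.Pool.Agent.MUX _root_.Pool.Agent.NS
  _root_.Pool.Agent.NSRD OnePoint

noncomputable section

/-- `D = -4` -/
structure CaseE4 (A B : ℤ) : Prop extends CaseE A B where
  eB : B = 0

/-- `D = -3` -/
structure CaseE3 (A B : ℤ) : Prop extends CaseE A B where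
  eB : B = 1

lemma SetE4.c4 {A B : ℤ} {V : ValuationSubring ℂ} {f : ℕ} (h : SetE4 A B V f) : CaseE4 A B :=
  ⟨h.case, h.hB⟩

lemma SetE3.c3 {A B : ℤ} {P : Ideal (OO A B)} {V : ValuationSubring ℂ} {f : ℕ}
    (h : SetE3 A B P V f) : CaseE3 A B :=
  ⟨h.case, h.hB⟩

lemma SetE4.f2 {A B : ℤ} {V : ValuationSubring ℂ} {f : ℕ} (h : SetE4 A B V f) : 2 ∣ f := by
  have h1 : (2 : ℤ) ∣ (f : ℤ) := (Dvd.intro _ rfl).trans h.fD
  exact_mod_cast h1

lemma SetE3.f2 {A B : ℤ} {P : Ideal (OO A B)} {V : ValuationSubring ℂ} {f : ℕ}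
    (h : SetE3 A B P V f) : 2 ∣ f := by
  have h1 : (2 : ℤ) ∣ 3 * (f : ℤ) := (Dvd.intro _ rfl).trans h.fD
  have h2 : (2 : ℤ) ∣ (f : ℤ) := by omega
  exact_mod_cast h2

end

end Pool.Agent.ME

namespace Pool.Agent.NS

open _root_.MU3 _root_.Pool.Agent.MU3A _root_.Pool.Agent.MU3B _root_.Pool.Agent.RI _root_.Pool.Agent.MUX _root_.Pool.Agent.ME OnePoint

noncomputable section

/-- (RFIN) `D = -4`: the normalised lattices have the good model `u = 1`, `e = 0`, `lam = -1` (`y² = x³ - x`), and an automorphism in the inertia group of `RFE (idl f)`,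
`f` even and prime to `3`, is trivial on it. -/
def Sn_RFIN_E : Prop :=
  ∀ (A B : ℤ) (V : ValuationSubring ℂ), CaseE4 A B → OverI V (idl (A := A) (B := B) 3) →
    TorXE A B →
    (∀ (b : Ideal (OO A B)) (L : PeriodPair) (om : ℂ), IsNE b L om →
      ∃ u e lam : ℂ, GoodN V L u e lam ∧ u ^ 2 ∈ RFE (idl (A := A) (B := B) 2) ∧
        e ∈ RFE (idl (A := A) (B := B) 2) ∧ lam ∈ RFE (idl (A := A) (B := B) 2)) ∧
    ∀ f : ℕ, f ≠ 0 → ¬ 3 ∣ f → 2 ∣ f → ∀ σ : ℂ ≃+* ℂ, FixK A B σ →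
      (∀ y ∈ RFE (idl (A := A) (B := B) f), y ∈ V → σ y - y ∈ V.nonunits) →
      ∀ y ∈ RFE (idl (A := A) (B := B) f), σ y = y

/-- (EFIN) `D = -4`: cubes have a logarithmic derivative divisible by `3`. -/
def Sn_EFIN_E : Prop :=
  ∀ (A B : ℤ) (V : ValuationSubring ℂ) (f : ℕ), SetE4 A B V f → TorXE A B →
    ∀ (ι : Type) [Fintype ι] (R : RepsE A B (3 * f) ι) (u e lam : ℂ),
    GoodN V (R.L R.i0) u e lam → ∀ w : OO A B → ℂ, IsTei V w →
    ∀ n : ℕ, 1 ≤ n →
    ∀ (H : ι → Finset ℂ), (∀ i, IsHalf (R.L i) (aX 3 f : ℂ) (H i)) →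
    ∀ (D : IntermediateField ℚ ℂ) (h : kk A B ≤ D),
      (∀ y ∈ D, y ∈ RFE (idl (A := A) (B := B) (lvX 3 f n))) →
    letI := algC h
    (∀ τ : D ≃ₐ[kk A B] D, ∃ y : D, (y : ℂ) = cXE R (lvX 3 f n) H h 1 ∧
      ((τ y : D) : ℂ) = cXE R (lvX 3 f n) H h τ) →
    ∀ g : (D ≃ₐ[kk A B] D) → ℤ,
      (∃ y ∈ D, y ^ 3 = ∏ᶠ τ : D ≃ₐ[kk A B] D, cXE R (lvX 3 f n) H h τ ^ g τ) →
      ∀ τ' : D ≃ₐ[kk A B] D,
        V.valuation ((∑ᶠ τ : D ≃ₐ[kk A B] D, (g τ : ℂ) *
          TTNE R w (lvX 3 f n) (aX 3 f) h (τ * τ')) / u) ≤ V.valuation (3 : ℂ)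

/-- (HFIN) `D = -4`: the character sums (over all `x` modulo `m`). -/
def Sn_HFIN_E : Prop :=
  ∀ (A B : ℤ) (V : ValuationSubring ℂ) (f : ℕ), SetE4 A B V f → TorXE A B →
    ∀ (ι : Type) [Fintype ι] (R : RepsE A B (3 * f) ι) (u el lam : ℂ),
    GoodN V (R.L R.i0) u el lam → ∀ w : OO A B → ℂ, IsTei V w →
    ∀ e : OO A B → ℂ, IsEIE (idl (A := A) (B := B) (3 * f)) e → ∀ r : ℕ, ¬ 3 ∣ r →
    (∀ x, e x ≠ 0 → e x ^ r = 1) → ∀ i : ℕ, 4 ≤ i → i ≤ 7 →
    (∀ x, x - 1 ∈ idl (A := A) (B := B) f → x ∉ idl (A := A) (B := B) 3 → e x = w x ^ i) →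
    ∀ s : ℤ, s = 1 ∨ s = -1 → ∀ kk : ι → ℂ, (∀ i, kk i ^ r = 1) →
    ∀ n₀ : ℕ, ∃ n, n₀ ≤ n ∧
      V.valuation (3 : ℂ) < V.valuation ((∑ j ∈ Finset.range 2, (-1) ^ (1 - j) *
        (STXE R (lvX 3 f n) (3 ^ (n + 1)) (aX 3 f) e kk (4 ^ j) +
          s * STXE R (lvX 3 f n) (3 ^ (n + 1)) (aX 3 f) e kk (-(4 ^ j)))) / u)

end

end Pool.Agent.NS

namespace Pool.Agent.NSRD

open _root_.MU3 _root_.Pool.Agent.MU3A _root_.Pool.Agent.MU3B _root_.Pool.Agent.RI _root_.Pool.Agent.MUX _root_.Pool.Agent.NS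
  _root_.Pool.Agent.ME OnePoint

noncomputable section

/-- (RFIN) `D = -3`: the normalised lattices have a good model with `u² = 1 + ω` up to a sixth root of unity (`v(u)^4 = v 3`), and an automorphism in the inertia
group of `RFE (idl f)`, `f` even and prime to `3`, is trivial on it. -/
def Sq_RFIN_E : Prop :=
  ∀ (A B : ℤ) (P : Ideal (OO A B)) (V : ValuationSubring ℂ), CaseE3 A B → IsPN 3 P →
    OverI V P → TorXE A B →
    (∀ (b : Ideal (OO A B)) (L : PeriodPair) (om : ℂ), IsNE b L om →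
      ∃ u e lam : ℂ, GoodR V L u e lam ∧ V.valuation u ^ 4 = V.valuation (3 : ℂ) ∧
        u ^ 2 ∈ kk A B ∧ e ∈ kk A B ∧ lam ∈ kk A B) ∧
    ∀ f : ℕ, f ≠ 0 → ¬ 3 ∣ f → 2 ∣ f → ∀ σ : ℂ ≃+* ℂ, FixK A B σ →
      (∀ y ∈ RFE (idl (A := A) (B := B) f), y ∈ V → σ y - y ∈ V.nonunits) →
      ∀ y ∈ RFE (idl (A := A) (B := B) f), σ y = y

/-- (EFIN) `D = -3`: cubes, additive valuation at least `3/2`, weights `w : (O/3)^* → μ_6`. -/
def Sq_EFIN_E : Prop :=
  ∀ (A B : ℤ) (P : Ideal (OO A B)) (V : ValuationSubring ℂ) (f : ℕ), SetE3 A B P V f →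
    TorXE A B → ∀ (ι : Type) [Fintype ι] (R : RepsE A B (3 * f) ι) (u e lam : ℂ),
    GoodR V (R.L R.i0) u e lam → ∀ w : OO A B → ℂ, IsTei6 P V w → ∀ n : ℕ, 1 ≤ n →
    ∀ (H : ι → Finset ℂ), (∀ i, IsHalf (R.L i) (aX 3 f : ℂ) (H i)) →
    ∀ (D : IntermediateField ℚ ℂ) (h : kk A B ≤ D), (∀ y ∈ D, y ∈ RFE (lvR P f n)) →
    letI := algC h
    (∀ τ : D ≃ₐ[kk A B] D, ∃ y : D, (y : ℂ) = cXE R (lvX 3 f n) H h 1 ∧
      ((τ y : D) : ℂ) = cXE R (lvX 3 f n) H h τ) →
    ∀ g : (D ≃ₐ[kk A B] D) → ℤ,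
      (∃ y ∈ D, y ^ 3 = ∏ᶠ τ : D ≃ₐ[kk A B] D, cXE R (lvX 3 f n) H h τ ^ g τ) →
      ∀ τ' : D ≃ₐ[kk A B] D,
        V.valuation ((∑ᶠ τ : D ≃ₐ[kk A B] D, (g τ : ℂ) *
          TTNE R w (lvX 3 f n) (aX 3 f) h (τ * τ')) / u) ^ 2 ≤ V.valuation (3 : ℂ) ^ 3

/-- (TYF) `D = -3`: the type. `e = e0 w`; `i = 0`: `e = w`, `i = 1`: `e = w^4` on the `x ≡ 1` modulo `f`. The symbol is divided by `3`. -/
def Sq_TYF_E : Prop :=
  ∀ (A B : ℤ) (P : Ideal (OO A B)) (V : ValuationSubring ℂ) (f : ℕ), SetE3 A B P V f → 4 ∣ f →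
    TorXE A B → ∀ (ι : Type) [Fintype ι] (R : RepsE A B (3 * f) ι) (u el lam : ℂ),
    GoodR V (R.L R.i0) u el lam → ∀ w : OO A B → ℂ, IsTei6 P V w →
    ∀ e e0 : OO A B → ℂ, IsEIE (idl (A := A) (B := B) (3 * f)) e → (∀ x, e x = e0 x * w x) →
    ∀ r : ℕ, ¬ 3 ∣ r → (∀ x, e0 x ≠ 0 → e0 x ^ r = 1) → ∀ i : ℕ, i ≤ 1 →
    (∀ x, x - 1 ∈ idl (A := A) (B := B) f → x ∉ P → e x = w x ^ (3 * i + 1)) →
    ∀ kk : ι → ℂ, (∀ j, kk j ^ r = 1) →
    ∃ (pi : ℂ) (KI : Subfield ℂ),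
      (∀ x y : OnePoint ℚ, ∃ z ∈ KI, PhiKE R e kk x y / (3 * u * R.om R.i0) = pi * z) ∧
      (∀ z ∈ KI, V.valuation z < 1 → V.valuation z ^ 2 ≤ V.valuation (3 : ℂ)) ∧
      V.valuation pi ^ 4 * V.valuation (3 : ℂ) ^ (1 - i) = 1

/-- (HFIN) `D = -3`: the character sums over all `x` modulo `m`: additive valuation at most `9/4 - 1/3^n`. -/
def Sq_HFIN_E : Prop :=
  ∀ (A B : ℤ) (P : Ideal (OO A B)) (V : ValuationSubring ℂ) (f : ℕ), SetE3 A B P V f → 4 ∣ f →
    TorXE A B → ∀ (ι : Type) [Fintype ι] (R : RepsE A B (3 * f) ι) (u el lam : ℂ),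
    GoodR V (R.L R.i0) u el lam → ∀ w : OO A B → ℂ, IsTei6 P V w →
    ∀ e e0 : OO A B → ℂ, IsEIE (idl (A := A) (B := B) (3 * f)) e → (∀ x, e x = e0 x * w x) →
    ∀ r : ℕ, ¬ 3 ∣ r → (∀ x, e0 x ≠ 0 → e0 x ^ r = 1) → ∀ kk : ι → ℂ, (∀ i, kk i ^ r = 1) →
    ∀ n₀ : ℕ, ∃ n, n₀ ≤ n ∧ 1 ≤ n ∧
      V.valuation (3 : ℂ) ^ 5 < V.valuation ((∑ j ∈ Finset.range 2, (-1) ^ (1 - j) *
        (STXE R (lvX 3 f n) (3 ^ (n + 1)) (aX 3 f) e kk (4 ^ j) +
          STXE R (lvX 3 f n) (3 ^ (n + 1)) (aX 3 f) e kk (-(4 ^ j)))) / u) ^ 2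

end

end Pool.Agent.NSRD


end

section

/-!
# ME: lemma library for the exceptional fields (helper21)

Units of `O`, normalised lattices (all of them are equal), homogeneity.
-/

set_option autoImplicit false

namespace Pool.Agent.ME

open _root_.MU3 _root_.Pool.Agent.MU3A _root_.Pool.Agent.MU3B _root_.Pool.Agent.RI _root_.Pool.Agent.MUX _root_.Pool.Agent.NS
  _root_.Pool.Agent.NSRD OnePoint

noncomputable section

variable {A B : ℤ}

instance coeCQ : Coe (CaseE A B) (Pool.Agent.MUX.CQ A B) := ⟨fun h => h.toCQ⟩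
instance coeCQ4 : Coe (CaseE4 A B) (Pool.Agent.MUX.CQ A B) := ⟨fun h => h.toCQ⟩
instance coeCQ3 : Coe (CaseE3 A B) (Pool.Agent.MUX.CQ A B) := ⟨fun h => h.toCQ⟩
instance coeE4 : Coe (CaseE4 A B) (CaseE A B) := ⟨fun h => h.toCaseE⟩
instance coeE3 : Coe (CaseE3 A B) (CaseE A B) := ⟨fun h => h.toCaseE⟩

lemma CaseE.or (h : CaseE A B) : (A = -1 ∧ B = 0) ∨ (A = -1 ∧ B = 1) := by
  rcases h.hB with hb | hb
  · exact Or.inl ⟨h.hA, hb⟩
  · exact Or.inr ⟨h.hA, hb⟩

/-! ### Normalised lattices -/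

lemma NrmE.g2_eq {L L' : PeriodPair} (h : NrmE A B L) (h' : NrmE A B L') : L.g₂ = L'.g₂ :=
  h.g2.trans h'.g2.symm

lemma NrmE.g3_eq {L L' : PeriodPair} (h : NrmE A B L) (h' : NrmE A B L') : L.g₃ = L'.g₃ :=
  h.g3.trans h'.g3.symm

lemma NrmE.kap_eq {L L' : PeriodPair} (h : NrmE A B L) (h' : NrmE A B L') : kapE L = kapE L' := by
  unfold kapE
  rw [h.g2_eq h', h.g3_eq h']

lemma NrmE.lat_eq {L L' : PeriodPair} (h : NrmE A B L) (h' : NrmE A B L') :
    L.lattice = L'.lattice :=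
  Pool.Agent.MUXU.u_DET L L' (h.g2_eq h') (h.g3_eq h')

lemma NrmE.lat {L L' : PeriodPair} (h : NrmE A B L) (h' : NrmE A B L') (z : ℂ) :
    z ∈ L.lattice ↔ z ∈ L'.lattice := by rw [h.lat_eq h']

lemma NrmE.fix2 {L : PeriodPair} (h : NrmE A B L) (σ : ℂ ≃+* ℂ) : σ L.g₂ = L.g₂ := by
  rw [h.g2]
  unfold g2E
  split_ifs
  · exact map_ofNat σ 4
  · exact map_zero σ

lemma NrmE.fix3 {L : PeriodPair} (h : NrmE A B L) (σ : ℂ ≃+* ℂ) : σ L.g₃ = L.g₃ := by
  rw [h.g3]
  unfold g3E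
  split_ifs
  · exact map_zero σ
  · rw [map_neg, map_ofNat]

lemma NrmE.fixk {L : PeriodPair} (h : NrmE A B L) (σ : ℂ ≃+* ℂ) : σ (kapE L) = kapE L := by
  unfold kapE
  rw [map_add, h.fix2 σ, h.fix3 σ]

lemma NrmE.kapc {L L' : PeriodPair} (h : NrmE A B L) (h' : NrmE A B L') (σ : ℂ ≃+* ℂ) :
    kapE L' = σ (kapE L) := by rw [h.fixk σ, h'.kap_eq h]

/-! ### Units -/

lemma wsq (h : CaseE A B) : wC A B * wC A B = -1 + B * wC A B := by
  have h1 := _root_.Pool.Agent.MUX.wC_sq h.toCQ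
  rw [h.hA] at h1 ⊢
  push_cast at h1
  exact h1

lemma isUnit_nm (h : CaseE A B) (z : OO A B) : IsUnit z ↔ nm z = 1 := by
  constructor
  · intro hz
    obtain ⟨y, hy⟩ := hz.exists_right_inv
    have h1 : nm z * nm y = 1 := by
      rw [← nm_mul h.toCQ, hy]
      simp [nm, QuadraticAlgebra.re_one, QuadraticAlgebra.im_one]
    have h2 := nm_nonneg h.toCQ z
    exact (Int.mul_eq_one_iff_eq_one_or_neg_one.1 h1).elim (fun h => h.1) (fun h => by omega)
  · intro hz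
    refine IsUnit.of_mul_eq_one (star z) ?_
    rw [mul_star, hz, Int.cast_one]

lemma int_sq {a : ℤ} (h : a ^ 2 ≤ 1) : a = 0 ∨ a = 1 ∨ a = -1 := by
  have h1 : a ≤ 1 := by nlinarith
  have h2 : -1 ≤ a := by nlinarith
  omega

/-- the units of `O` -/
lemma unit_list (h : CaseE A B) {z : OO A B} (hz : IsUnit z) :
    z = 1 ∨ z = -1 ∨ z = ⟨0, 1⟩ ∨ z = ⟨0, -1⟩ ∨ (B = 1 ∧ (z = ⟨1, -1⟩ ∨ z = ⟨-1, 1⟩)) := by
  have hn := (isUnit_nm h z).1 hz
  have hA := h.hA
  obtain ⟨a, b⟩ := z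
  simp only [nm] at hn
  rw [hA] at hn
  have e1 : (1 : OO A B) = ⟨1, 0⟩ := rfl
  have e2 : (-1 : OO A B) = ⟨-1, 0⟩ := by
    ext <;> simp [QuadraticAlgebra.re_one, QuadraticAlgebra.im_one]
  rcases h.or with ⟨-, hB⟩ | ⟨-, hB⟩
  · rw [hB] at hn
    have ha : a ^ 2 ≤ 1 := by nlinarith [sq_nonneg b]
    have hb : b ^ 2 ≤ 1 := by nlinarith [sq_nonneg a]
    rcases int_sq ha with rfl | rfl | rfl <;> rcases int_sq hb with rfl | rfl | rfl <;>
      simp_all
  · rw [hB] at hn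
    have ha : a ^ 2 ≤ 1 := by nlinarith [sq_nonneg (a + 2 * b)]
    have hb : b ^ 2 ≤ 1 := by nlinarith [sq_nonneg (2 * a + b)]
    rcases int_sq ha with rfl | rfl | rfl <;> rcases int_sq hb with rfl | rfl | rfl <;>
      simp_all

lemma mem_two {x : OO A B} : x ∈ idl (A := A) (B := B) 2 ↔ 2 ∣ x.re ∧ 2 ∣ x.im := by
  have e2 : ((2 : ℕ) : OO A B) = ⟨2, 0⟩ := rfl
  rw [show idl (A := A) (B := B) 2 = Ideal.span {((2 : ℕ) : OO A B)} from rfl,
    Ideal.mem_span_singleton, e2]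
  constructor
  · rintro ⟨y, rfl⟩
    constructor <;> simp
  · rintro ⟨⟨a, ha⟩, ⟨b, hb⟩⟩
    refine ⟨⟨a, b⟩, ?_⟩
    ext
    · simp [ha]
    · simp [hb]

/-- a unit which is `1` modulo `2` is `± 1` -/
lemma unit_two (h : CaseE A B) {z : OO A B} (hz : IsUnit z)
    (h2 : z - 1 ∈ idl (A := A) (B := B) 2) : z = 1 ∨ z = -1 := by
  rw [mem_two] at h2
  have h3 := h2.2
  rcases unit_list h hz with rfl | rfl | rfl | rfl | ⟨hB, rfl | rfl⟩
  · exact Or.inl rfl
  · exact Or.inr rfl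
  all_goals
    exfalso
    simp [QuadraticAlgebra.im_one] at h3

/-- the generator of `O`, a unit -/
lemma isUnit_w (h : CaseE A B) : IsUnit (⟨0, 1⟩ : OO A B) := by
  rw [isUnit_nm h]
  simp [nm, h.hA]

lemma isUnit_w' (h : CaseE A B) (hB : B = 1) : IsUnit (⟨1, -1⟩ : OO A B) := by
  rw [isUnit_nm h]
  simp [nm, h.hA, hB]

/-- an element prime to `2` is `1` modulo `2` up to a unit -/
lemma unit_ex (h : CaseE A B) {x : OO A B} (hx : IsCoprime x (2 : OO A B)) :
    ∃ z : OO A B, IsUnit z ∧ z * x - 1 ∈ idl (A := A) (B := B) 2 := by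
  have key : ¬ (2 ∣ nm x) := by
    intro h2
    obtain ⟨u, v, huv⟩ := hx
    have h3 : nm (u * x) = nm (1 - v * 2) := by rw [← huv]; ring_nf
    have h4 : nm (1 - v * 2) = 1 + 2 * (-(2 * v.re) - B * v.im + 2 * nm v) := by
      have e2 : (2 : OO A B) = ⟨2, 0⟩ := rfl
      rw [e2]
      simp only [nm, QuadraticAlgebra.re_sub, QuadraticAlgebra.im_sub, QuadraticAlgebra.re_one,
        QuadraticAlgebra.im_one, QuadraticAlgebra.re_mul, QuadraticAlgebra.im_mul]
      ring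
    rw [nm_mul h.toCQ] at h3
    have h5 : (2 : ℤ) ∣ nm u * nm x := h2.mul_left _
    rw [h3, h4] at h5
    omega
  obtain ⟨a, b⟩ := x
  have hA := h.hA
  rcases h.or with ⟨-, hB⟩ | ⟨-, hB⟩
  · subst hA hB
    simp only [nm] at key
    rcases Int.even_or_odd a with ha | ha <;> rcases Int.even_or_odd b with hb | hb
    · exfalso
      obtain ⟨c, hc⟩ := ha
      obtain ⟨d, hd⟩ := hb
      exact key ⟨2 * c ^ 2 + 2 * d ^ 2, by rw [hc, hd]; ring⟩
    · refine ⟨⟨0, 1⟩, isUnit_w h, ?_⟩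
      obtain ⟨c, hc⟩ := ha
      obtain ⟨d, hd⟩ := hb
      rw [mem_two]
      simp only [QuadraticAlgebra.re_sub, QuadraticAlgebra.im_sub, QuadraticAlgebra.re_one,
        QuadraticAlgebra.im_one, QuadraticAlgebra.re_mul, QuadraticAlgebra.im_mul]
      constructor <;> omega
    · refine ⟨1, isUnit_one, ?_⟩
      obtain ⟨c, hc⟩ := ha
      obtain ⟨d, hd⟩ := hb
      rw [one_mul, mem_two]
      simp only [QuadraticAlgebra.re_sub, QuadraticAlgebra.im_sub, QuadraticAlgebra.re_one,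
        QuadraticAlgebra.im_one]
      constructor <;> omega
    · exfalso
      obtain ⟨c, hc⟩ := ha
      obtain ⟨d, hd⟩ := hb
      exact key ⟨2 * c ^ 2 + 2 * c + 2 * d ^ 2 + 2 * d + 1, by rw [hc, hd]; ring⟩
  · subst hA hB
    simp only [nm] at key
    rcases Int.even_or_odd a with ha | ha <;> rcases Int.even_or_odd b with hb | hb
    · exfalso
      obtain ⟨c, hc⟩ := ha
      obtain ⟨d, hd⟩ := hb
      exact key ⟨2 * c ^ 2 + 2 * c * d + 2 * d ^ 2, by rw [hc, hd]; ring⟩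
    · refine ⟨⟨1, -1⟩, isUnit_w' h rfl, ?_⟩
      obtain ⟨c, hc⟩ := ha
      obtain ⟨d, hd⟩ := hb
      rw [mem_two]
      simp only [QuadraticAlgebra.re_sub, QuadraticAlgebra.im_sub, QuadraticAlgebra.re_one,
        QuadraticAlgebra.im_one, QuadraticAlgebra.re_mul, QuadraticAlgebra.im_mul]
      constructor <;> omega
    · refine ⟨1, isUnit_one, ?_⟩
      obtain ⟨c, hc⟩ := ha
      obtain ⟨d, hd⟩ := hb
      rw [one_mul, mem_two]
      simp only [QuadraticAlgebra.re_sub, QuadraticAlgebra.im_sub, QuadraticAlgebra.re_one,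
        QuadraticAlgebra.im_one]
      constructor <;> omega
    · refine ⟨⟨0, 1⟩, isUnit_w h, ?_⟩
      obtain ⟨c, hc⟩ := ha
      obtain ⟨d, hd⟩ := hb
      rw [mem_two]
      simp only [QuadraticAlgebra.re_sub, QuadraticAlgebra.im_sub, QuadraticAlgebra.re_one,
        QuadraticAlgebra.im_one, QuadraticAlgebra.re_mul, QuadraticAlgebra.im_mul]
      constructor <;> omega

/-- a homothety between normalised lattices is a unit of `O` -/
lemma unit_scale (h : CaseE A B) {L L' : PeriodPair} (hL : NrmE A B L) (hL' : NrmE A B L')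
    {s : ℂ} (hs : s ≠ 0) (hm : ∀ z : ℂ, z ∈ L.lattice ↔ s * z ∈ L'.lattice) :
    ∃ z : OO A B, IsUnit z ∧ s = emb z := by
  obtain ⟨-, -, e2, e3⟩ := ta_SCP L L' s hs hm
  have hw := wsq h
  have hA := h.hA
  rcases h.or with ⟨-, hB⟩ | ⟨-, hB⟩
  · rw [hL.g2, hL'.g2] at e2
    simp only [g2E, hB, if_true] at e2
    have h4 : s ^ 4 = 1 := by
      have := pow_ne_zero 4 hs
      field_simp at e2
      linear_combination e2
    rw [hB] at hw
    have h5 : (s - 1) * (s + 1) * ((s - wC A 0) * (s + wC A 0)) = 0 := by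
      have : wC A 0 * wC A 0 = -1 := by rw [hw]; push_cast; ring
      linear_combination h4 - (s ^ 2 - 1) * this
    subst hB
    rcases mul_eq_zero.1 h5 with h6 | h6
    · rcases mul_eq_zero.1 h6 with h7 | h7
      · exact ⟨1, isUnit_one, by rw [_root_.Pool.Agent.MUX.emb_one h.toCQ]; linear_combination h7⟩
      · exact ⟨-1, isUnit_one.neg, by rw [_root_.Pool.Agent.MUX.emb_neg h.toCQ, _root_.Pool.Agent.MUX.emb_one h.toCQ]; linear_combination h7⟩
    · rcases mul_eq_zero.1 h6 with h7 | h7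
      · exact ⟨⟨0, 1⟩, isUnit_w h, by rw [Pool.Agent.MUX.emb_w]; linear_combination h7⟩
      · exact ⟨-⟨0, 1⟩, (isUnit_w h).neg, by rw [_root_.Pool.Agent.MUX.emb_neg h.toCQ, Pool.Agent.MUX.emb_w]; linear_combination h7⟩
  · rw [hL.g3, hL'.g3] at e3
    have hb1 : ¬ (B = 0) := by omega
    simp only [g3E, hb1, if_false] at e3
    have h4 : s ^ 6 = 1 := by
      have := pow_ne_zero 6 hs
      field_simp at e3
      linear_combination -e3
    rw [hB] at hw
    have hw1 : wC A 1 * wC A 1 = -1 + wC A 1 := by rw [hw]; push_cast; ring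
    have h5 : (s - 1) * (s + 1) * (((s - wC A 1) * (s - (1 - wC A 1))) *
        ((s + wC A 1) * (s + (1 - wC A 1)))) = 0 := by
      have e5 : (s - wC A 1) * (s - (1 - wC A 1)) = s ^ 2 - s + 1 := by
        linear_combination -hw1
      have e6 : (s + wC A 1) * (s + (1 - wC A 1)) = s ^ 2 + s + 1 := by
        linear_combination -hw1
      rw [e5, e6]
      linear_combination h4
    subst hB
    rcases mul_eq_zero.1 h5 with h6 | h6
    · rcases mul_eq_zero.1 h6 with h7 | h7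
      · exact ⟨1, isUnit_one, by rw [_root_.Pool.Agent.MUX.emb_one h.toCQ]; linear_combination h7⟩
      · exact ⟨-1, isUnit_one.neg, by rw [_root_.Pool.Agent.MUX.emb_neg h.toCQ, _root_.Pool.Agent.MUX.emb_one h.toCQ]; linear_combination h7⟩
    · have e7 : emb (⟨1, -1⟩ : OO A 1) = 1 - wC A 1 := by simp [emb]; ring
      rcases mul_eq_zero.1 h6 with h8 | h8
      · rcases mul_eq_zero.1 h8 with h7 | h7
        · exact ⟨⟨0, 1⟩, isUnit_w h, by rw [Pool.Agent.MUX.emb_w]; linear_combination h7⟩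
        · exact ⟨⟨1, -1⟩, isUnit_w' h rfl, by rw [e7]; linear_combination h7⟩
      · rcases mul_eq_zero.1 h8 with h7 | h7
        · exact ⟨-⟨0, 1⟩, (isUnit_w h).neg, by rw [_root_.Pool.Agent.MUX.emb_neg h.toCQ, Pool.Agent.MUX.emb_w]; linear_combination h7⟩
        · exact ⟨-⟨1, -1⟩, (isUnit_w' h rfl).neg, by
            rw [_root_.Pool.Agent.MUX.emb_neg h.toCQ, e7]; linear_combination h7⟩

/-- a lattice with complex multiplication is stable under units -/
lemma unit_lat (h : CaseE A B) {b : Ideal (OO A B)} {L : PeriodPair} {om : ℂ} (hL : IsLI b L om)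
    {y : OO A B} (hy : IsUnit y) (z : ℂ) : z ∈ L.lattice ↔ emb y * z ∈ L.lattice := by
  have hcm := hL.hasCM h.toCQ
  refine ⟨fun hz => hcm y z hz, fun hz => ?_⟩
  obtain ⟨y', hy'⟩ := hy.exists_left_inv
  have := hcm y' _ hz
  rwa [← mul_assoc, ← _root_.Pool.Agent.MUX.emb_mul h.toCQ, hy', _root_.Pool.Agent.MUX.emb_one h.toCQ, one_mul] at this

lemma ee_unit (h : CaseE A B) {b : Ideal (OO A B)} {L : PeriodPair} {om : ℂ} (hL : IsLI b L om)
    {y : OO A B} (hy : IsUnit y) (z : ℂ) : ee L (emb y * z) = ee L z / emb y :=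
  b_SCL L L (emb y) (_root_.Pool.Agent.MUX.emb_ne_zero h.toCQ fun h0 => not_isUnit_zero (by
    haveI := isDomain h.toCQ
    exact (h0 ▸ hy : IsUnit (0 : OO A B)))) (unit_lat h hL hy) z

lemma dlX_unit (h : CaseE A B) {b : Ideal (OO A B)} {L : PeriodPair} {om : ℂ} (hL : IsLI b L om)
    {y : OO A B} (hy : IsUnit y) (a : ℕ) (z : ℂ) : dlX L a (emb y * z) = dlX L a z / emb y := by
  unfold dlX
  rw [show (a : ℂ) * (emb y * z) = emb y * (a * z) by ring, ee_unit h hL hy, ee_unit h hL hy]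
  ring

end

end Pool.Agent.ME


end

section

/-!
# MUX-NS, block HN, module DVN (helper19)

The character sums of a depleted function with values of one type: `tn_DVN : Sn_DVN`.

The doc string of `Sn_DVN` works with a function `W'` on `range (3 q)`; as `W' (b + 2 q) = 0` it is enough to sum over
`range (2 q)`, and then the Newton expansion has only the coefficients `c_k`, `k < 2 q`: a `b` with `v (W' b) = 1`
gives directly (Newton expansion of the indicator function of `b`) a `k < 2 q` with `v (c_k) = 1`.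
-/

set_option autoImplicit false

namespace Pool.Agent.MUXHN

open _root_.MU3 _root_.Pool.Agent.MuSym _root_.Pool.Agent.MUXH OnePoint

noncomputable section

namespace Dvn

/-- the sum of a depleted function against the powers of `ζ` -/
theorem sum_dep (q : ℕ) (ζ : ℂ) (W : ℕ → ℂ) (hW : ∀ b < q, W b + W (b + q) + W (b + 2 * q) = 0) :
    ∑ b ∈ Finset.range (3 * q), ζ ^ b * W b =
      (1 - ζ ^ q) * ∑ b ∈ Finset.range (2 * q),
        ζ ^ b * (if b < q then W b else W (b - q) + W b) := by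
  have h1 : ∑ b ∈ Finset.range (3 * q), ζ ^ b * W b =
      ∑ b ∈ Finset.range q, (ζ ^ b * W b + ζ ^ (q + b) * W (q + b) +
        ζ ^ (q + q + b) * W (q + q + b)) := by
    rw [show 3 * q = q + q + q by ring, Finset.sum_range_add, Finset.sum_range_add,
      Finset.sum_add_distrib, Finset.sum_add_distrib]
  have h2 : ∑ b ∈ Finset.range (2 * q), ζ ^ b * (if b < q then W b else W (b - q) + W b) =
      ∑ b ∈ Finset.range q, (ζ ^ b * W b + ζ ^ (q + b) * (W b + W (q + b))) := by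
    rw [two_mul, Finset.sum_range_add, Finset.sum_add_distrib]
    refine congrArg₂ (· + ·) ?_ ?_
    · refine Finset.sum_congr rfl fun b hb => ?_
      rw [if_pos (Finset.mem_range.1 hb)]
    · refine Finset.sum_congr rfl fun b _ => ?_
      rw [if_neg (by omega), Nat.add_sub_cancel_left]
  rw [h1, h2, Finset.mul_sum]
  refine Finset.sum_congr rfl fun b hb => ?_
  have h3 := hW b (Finset.mem_range.1 hb)
  rw [show b + q = q + b by ring, show b + 2 * q = q + q + b by ring] at h3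
  have h4 : W (q + q + b) = -W b - W (q + b) := by linear_combination h3
  rw [h4, pow_add, pow_add, pow_add]
  ring

end Dvn

open _root_.Pool.Agent.MUXHN.Dvn Hz in
theorem tn_DVN : Sn_DVN := by
  intro V hV K hK n y hper hdep hyK b₀ hb₀ ζ hζ
  set q := 3 ^ n with hq
  have hqpos : 0 < q := by positivity
  have hN : 3 ^ (n + 1) = 3 * q := by rw [pow_succ]; ring
  have h3pos : (0 : V.ValueGroup) < V.valuation (3 : ℂ) :=
    lt_of_le_of_ne zero_le ((Valuation.ne_zero_iff _).2 (by norm_num)).symm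
  -- the maximal value
  obtain ⟨bs, hbs, hmax⟩ := Finset.exists_max_image (Finset.range (3 * q))
    (fun b : ℕ => V.valuation (y b)) ⟨0, Finset.mem_range.2 (by omega)⟩
  have hge : V.valuation (y b₀) ≤ V.valuation (y bs) := by
    have hpos : (0 : ℤ) < (3 : ℤ) ^ (n + 1) := by positivity
    have h0 := Int.emod_nonneg b₀ hpos.ne'
    have h1 := Int.emod_lt_of_pos b₀ hpos
    have h2 : y b₀ = y (((b₀ % (3 : ℤ) ^ (n + 1)).toNat : ℕ) : ℤ) := by
      rw [Int.toNat_of_nonneg h0]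
      refine hper _ _ ?_
      have := Int.emod_add_mul_ediv b₀ ((3 : ℤ) ^ (n + 1))
      exact ⟨b₀ / (3 : ℤ) ^ (n + 1), by linarith⟩
    rw [h2]
    refine hmax _ (Finset.mem_range.2 ?_)
    have h3 : (((b₀ % (3 : ℤ) ^ (n + 1)).toNat : ℕ) : ℤ) < ((3 * q : ℕ) : ℤ) := by
      rw [Int.toNat_of_nonneg h0, ← hN]
      push_cast
      exact h1
    exact_mod_cast h3
  have hbs2 : 1 ≤ V.valuation (y bs) ^ 2 * V.valuation (3 : ℂ) :=
    hb₀.trans (mul_le_mul_left (pow_le_pow_left₀ zero_le hge 2) _)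
  have hys0 : y bs ≠ 0 := by
    intro h
    rw [h, map_zero, zero_pow two_ne_zero, zero_mul] at hbs2
    exact absurd hbs2 (not_le.2 zero_lt_one)
  have hvs0 : (0 : V.ValueGroup) < V.valuation (y bs) :=
    lt_of_le_of_ne zero_le ((Valuation.ne_zero_iff _).2 hys0).symm
  set W : ℕ → ℂ := fun b => y b / y bs with hWdef
  have hWK : ∀ b, W b ∈ K := fun b => hyK b bs hys0
  have hW1 : ∀ b < 3 * q, V.valuation (W b) ≤ 1 := by
    intro b hb
    have := hmax b (Finset.mem_range.2 hb)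
    simp only [hWdef, map_div₀]
    exact div_le_one_of_le₀ this zero_le
  have hWdep : ∀ b < q, W b + W (b + q) + W (b + 2 * q) = 0 := by
    intro b _
    have h1 := hdep b
    simp only [Finset.sum_range_succ, Finset.sum_range_zero, zero_add, Nat.cast_zero, zero_mul,
      add_zero, Nat.cast_one, one_mul, Nat.cast_ofNat] at h1
    simp only [hWdef]
    rw [← add_div, ← add_div]
    refine div_eq_zero_iff.2 (Or.inl ?_)
    have e1 : (((b + q : ℕ)) : ℤ) = (b : ℤ) + 3 ^ n := by push_cast [hq]; ring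
    have e2 : (((b + 2 * q : ℕ)) : ℤ) = (b : ℤ) + 2 * 3 ^ n := by push_cast [hq]; ring
    rw [e1, e2]
    exact h1
  set W' : ℕ → ℂ := fun b => if b < q then W b else W (b - q) + W b with hW'def
  have hW'K : ∀ b, W' b ∈ K := by
    intro b
    simp only [hW'def]
    split_ifs
    · exact hWK _
    · exact add_mem (hWK _) (hWK _)
  have hW'1 : ∀ b < 2 * q, V.valuation (W' b) ≤ 1 := by
    intro b hb
    simp only [hW'def]
    split_ifs
    · exact hW1 _ (by omega)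
    · exact Valuation.map_add_le _ (hW1 _ (by omega)) (hW1 _ (by omega))
  -- some value of `W'` is a unit
  have hex0 : ∃ b < 2 * q, V.valuation (W' b) = 1 := by
    by_contra hcon
    have hlt : ∀ b < 2 * q, V.valuation (W' b) < 1 := fun b hb =>
      lt_of_le_of_ne (hW'1 b hb) fun h => hcon ⟨b, hb, h⟩
    have ha : ∀ b < q, V.valuation (W b) < 1 := by
      intro b hb
      have := hlt b (by omega)
      simp only [hW'def, if_pos hb] at this
      exact this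
    have hb : ∀ b < q, V.valuation (W (b + q)) < 1 := by
      intro b hb
      have h1 := hlt (b + q) (by omega)
      simp only [hW'def] at h1
      rw [if_neg (by omega), Nat.add_sub_cancel] at h1
      have h2 : W (b + q) = (W b + W (b + q)) - W b := by ring
      rw [h2]
      exact lt_of_le_of_lt (Valuation.map_sub _ _ _) (max_lt h1 (ha b hb))
    have hc : ∀ b < q, V.valuation (W (b + 2 * q)) < 1 := by
      intro b hb'
      have h1 := hWdep b hb'
      have h2 : W (b + 2 * q) = - (W b + W (b + q)) := by linear_combination h1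
      rw [h2, Valuation.map_neg]
      exact Valuation.map_add_lt _ (ha b hb') (hb b hb')
    have hbs' := Finset.mem_range.1 hbs
    have h1 : V.valuation (W bs) < 1 := by
      rcases lt_or_ge bs q with h | h
      · exact ha bs h
      · rcases lt_or_ge bs (2 * q) with h' | h'
        · have := hb (bs - q) (by omega)
          rwa [Nat.sub_add_cancel h] at this
        · have := hc (bs - 2 * q) (by omega)
          rwa [Nat.sub_add_cancel h'] at this
    have h2 : W bs = 1 := div_self hys0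
    rw [h2, map_one] at h1
    exact lt_irrefl _ h1
  set c : ℕ → ℂ := fun k => ∑ b ∈ Finset.range (2 * q), ((b.choose k : ℕ) : ℂ) * W' b with hc
  have hcK : ∀ k, c k ∈ K := fun k =>
    sum_mem fun b _ => mul_mem (natCast_mem K _) (hW'K _)
  have hc1 : ∀ k, V.valuation (c k) ≤ 1 := fun k =>
    Valuation.map_sum_le _ fun b hb => by
      rw [map_mul]
      exact mul_le_one' (val_nat V _) (hW'1 _ (Finset.mem_range.1 hb))
  have hex1 : ∃ k, k < 2 * q ∧ V.valuation (c k) = 1 := by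
    by_contra hcon
    have hlt : ∀ k < 2 * q, V.valuation (c k) < 1 := fun k hk =>
      lt_of_le_of_ne (hc1 k) fun h => hcon ⟨k, hk, h⟩
    obtain ⟨b₁, hb₁, hb₁v⟩ := hex0
    have h1 := newton (2 * q) W' (fun b => if b = b₁ then 1 else 0)
    have h2 : ∑ b ∈ Finset.range (2 * q), (((if b = b₁ then 1 else 0 : ℤ)) : ℂ) * W' b
        = W' b₁ := by
      rw [Finset.sum_eq_single b₁]
      · simp
      · intro b _ hb
        rw [if_neg hb]
        simp
      · intro h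
        exact absurd (Finset.mem_range.2 hb₁) h
    rw [h2] at h1
    have h3 : V.valuation (W' b₁) < 1 := by
      rw [h1]
      refine Valuation.map_sum_lt _ one_ne_zero fun k hk => ?_
      rw [map_mul]
      exact lt_of_le_of_lt (mul_le_of_le_one_left' (val_int V _))
        (hlt k (Finset.mem_range.1 hk))
    exact absurd hb₁v h3.ne
  classical
  obtain ⟨hk₀, hk₁⟩ := Nat.find_spec hex1
  set k₀ := Nat.find hex1 with hk₀def
  have hmin : ∀ k < k₀, V.valuation (c k) ≤ V.valuation (3 : ℂ) := by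
    intro k hk
    refine hK _ (hcK k) (lt_of_le_of_ne (hc1 k) fun h => ?_)
    exact Nat.find_min hex1 hk ⟨lt_trans hk hk₀, h⟩
  -- the valuation of `ζ - 1`
  have hx : V.valuation (ζ - 1) ^ (2 * q) = V.valuation (3 : ℂ) := by
    have := val_p 3 Nat.prime_three V n ζ hζ
    rw [show 3 ^ n * (3 - 1) = 2 * q by rw [hq]; omega] at this
    simpa using this
  set x := V.valuation (ζ - 1) with hxdef
  have hx0 : 0 < x := by
    refine lt_of_le_of_ne zero_le fun h => ?_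
    rw [← h, zero_pow (by omega)] at hx
    exact h3pos.ne hx
  have hx1 : x < 1 := by
    by_contra h
    have h1 : 1 ≤ x := not_lt.1 h
    have : 1 ≤ x ^ (2 * q) := one_le_pow₀ h1
    rw [hx] at this
    exact absurd this (not_le.2 hV)
  have hval : V.valuation (∑ b ∈ Finset.range (2 * q), ζ ^ b * W' b) = x ^ k₀ := by
    rw [shift_pow (2 * q) W' ζ]
    have hk₀N : k₀ ∈ Finset.range (2 * q) := Finset.mem_range.2 hk₀
    rw [← Finset.add_sum_erase _ _ hk₀N]
    have ha : V.valuation ((ζ - 1) ^ k₀ * c k₀) = x ^ k₀ := by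
      rw [map_mul, map_pow, hk₁, mul_one]
    have hb : V.valuation (∑ k ∈ (Finset.range (2 * q)).erase k₀, (ζ - 1) ^ k * c k)
        < x ^ k₀ := by
      refine Valuation.map_sum_lt _ (pow_pos hx0 k₀).ne' fun k hk => ?_
      have hne := Finset.ne_of_mem_erase hk
      rw [map_mul, map_pow]
      rcases lt_or_gt_of_ne hne with hlt | hgt
      · refine lt_of_le_of_lt (mul_le_of_le_one_left' (pow_le_one' hx1.le k)) ?_
        refine lt_of_le_of_lt (hmin k hlt) ?_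
        rw [← hx]
        exact pow_lt_pow_right_of_lt_one₀ hx0 hx1 hk₀
      · refine lt_of_le_of_lt (mul_le_of_le_one_right' (hc1 k)) ?_
        exact pow_lt_pow_right_of_lt_one₀ hx0 hx1 hgt
    have := Valuation.map_add_eq_of_lt_left V.valuation (x := (ζ - 1) ^ k₀ * c k₀)
      (y := ∑ k ∈ (Finset.range (2 * q)).erase k₀, (ζ - 1) ^ k * c k) (by rw [ha]; exact hb)
    rw [this, ha]
  -- the valuation of `1 - ζ^q`
  have hω : V.valuation (1 - ζ ^ q) ^ 2 = V.valuation (3 : ℂ) := by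
    have h1 : IsPrimitiveRoot (ζ ^ q) 3 := by
      refine hζ.pow (by positivity) ?_
      rw [hN]
      ring
    have h2 := val_p 3 Nat.prime_three V 0 (ζ ^ q) (by simpa using h1)
    rw [← neg_sub, Valuation.map_neg]
    simpa using h2
  -- the end
  have hsum : ∑ b ∈ Finset.range (3 ^ (n + 1)), ζ ^ b * y b =
      y bs * ((1 - ζ ^ q) * ∑ b ∈ Finset.range (2 * q), ζ ^ b * W' b) := by
    rw [← sum_dep q ζ W hWdep, Finset.mul_sum, hN]
    refine Finset.sum_congr rfl fun b _ => ?_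
    simp only [hWdef]
    field_simp
  rw [hsum, map_mul, map_mul, hval, ← mul_assoc]
  have h1 : 1 ≤ V.valuation (y bs) * V.valuation (1 - ζ ^ q) := by
    have h2 : 1 ≤ (V.valuation (y bs) * V.valuation (1 - ζ ^ q)) ^ 2 := by
      rw [mul_pow, hω]
      exact hbs2
    by_contra h
    exact absurd h2 (not_le.2 (pow_lt_one₀ zero_le (not_le.1 h) two_ne_zero))
  have h2 : V.valuation (3 : ℂ) < x ^ k₀ := by
    rw [← hx]
    exact pow_lt_pow_right_of_lt_one₀ hx0 hx1 hk₀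
  exact lt_of_lt_of_le h2 (le_mul_of_one_le_left' h1)

end

end Pool.Agent.MUXHN


end

section

/-!
# MUX: module SML (a small element of an ideal)
-/

set_option autoImplicit false

namespace Pool.Agent.MUXY

open _root_.MU3 _root_.Pool.Agent.MU3A _root_.Pool.Agent.MU3B _root_.Pool.Agent.MUXU OnePoint
open _root_.Pool.Agent.MUX (CQ CaseP nI cjI sp IsLI IsNL IsEI PhiI Reps TorX)
open _root_.Pool.Agent.MUXF (qb)

noncomputable section

namespace RSML

lemma nm_bound (A B u v S : ℤ) (hu : |u| ≤ S) (hv : |v| ≤ S) :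
    u ^ 2 + B * u * v - A * v ^ 2 ≤ (1 + |A| + |B|) * (S * S) := by
  have h1 : u ^ 2 ≤ S * S := by
    rw [← sq_abs, pow_two]
    exact mul_le_mul hu hu (abs_nonneg _) (le_trans (abs_nonneg _) hu)
  have h2 : v ^ 2 ≤ S * S := by
    rw [← sq_abs, pow_two]
    exact mul_le_mul hv hv (abs_nonneg _) (le_trans (abs_nonneg _) hv)
  have h3 : |u * v| ≤ S * S := by
    rw [abs_mul]
    exact mul_le_mul hu hv (abs_nonneg _) (le_trans (abs_nonneg _) hu)
  have h4 : B * u * v ≤ |B| * (S * S) := by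
    have : B * u * v ≤ |B * (u * v)| := by
      rw [← mul_assoc]
      exact le_abs_self _
    rw [abs_mul] at this
    exact this.trans (mul_le_mul_of_nonneg_left h3 (abs_nonneg _))
  have h5 : -(A * v ^ 2) ≤ |A| * (S * S) := by
    have : -(A * v ^ 2) ≤ |A * v ^ 2| := neg_le_abs _
    rw [abs_mul, abs_of_nonneg (sq_nonneg v)] at this
    exact this.trans (mul_le_mul_of_nonneg_left h2 (abs_nonneg _))
  linarith

end RSML

open _root_.Pool.Agent.MUXY.RSML in
theorem ty_SML : Sy_SML := by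
  intro A B hC b hb
  have hfin : Finite (OO A B ⧸ b) := (Pool.Agent.MUXF.xf_ALG A B (cqF hC)).2.2.2.1 b hb
  obtain ⟨N, hN⟩ : ∃ N : ℕ, N = _root_.Pool.Agent.MUX.nI b := ⟨_, rfl⟩
  obtain ⟨s, hs⟩ : ∃ s : ℕ, s = Nat.sqrt N := ⟨_, rfl⟩
  have hs1 : s * s ≤ N := by rw [hs]; exact Nat.sqrt_le N
  have hs2 : N < (s + 1) * (s + 1) := by
    rw [hs]
    exact Nat.lt_succ_sqrt N
  have : Fintype (OO A B ⧸ b) := Fintype.ofFinite _
  obtain ⟨p, p', hne, he⟩ := Fintype.exists_ne_map_eq_of_card_lt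
    (fun p : Fin (s + 1) × Fin (s + 1) =>
      Ideal.Quotient.mk b (⟨((p.1 : ℕ) : ℤ), ((p.2 : ℕ) : ℤ)⟩ : OO A B)) (by
      rw [Fintype.card_prod, Fintype.card_fin, ← Nat.card_eq_fintype_card]
      exact lt_of_eq_of_lt hN.symm hs2)
  have hmem := (Ideal.Quotient.mk_eq_mk_iff_sub_mem _ _).1 he
  refine ⟨_, hmem, ?_, ?_⟩
  · intro h0
    apply hne
    have h1 := congrArg QuadraticAlgebra.re h0
    have h2 := congrArg QuadraticAlgebra.im h0
    simp only [QuadraticAlgebra.re_sub, QuadraticAlgebra.im_sub, QuadraticAlgebra.re_zero,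
      QuadraticAlgebra.im_zero] at h1 h2
    apply Prod.ext
    · apply Fin.ext
      omega
    · apply Fin.ext
      omega
  · have hu : |((p.1 : ℕ) : ℤ) - ((p'.1 : ℕ) : ℤ)| ≤ (s : ℤ) := by
      have a1 := p.1.2
      have a2 := p'.1.2
      rw [abs_le]
      omega
    have hv : |((p.2 : ℕ) : ℤ) - ((p'.2 : ℕ) : ℤ)| ≤ (s : ℤ) := by
      have a1 := p.2.2
      have a2 := p'.2.2
      rw [abs_le]
      omega
    have h := nm_bound A B _ _ _ hu hv
    have h6 : (1 + |A| + |B|) * ((s : ℤ) * s) ≤ (1 + |A| + |B|) * (N : ℤ) := by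
      apply mul_le_mul_of_nonneg_left
      · exact_mod_cast hs1
      · positivity
    rw [← hN]
    refine le_trans (le_of_eq ?_) (h.trans h6)
    simp only [nm, QuadraticAlgebra.re_sub, QuadraticAlgebra.im_sub]

end

end Pool.Agent.MUXY


end

section

/-!
# MUX: a value of the form `qb J` prime to `n`
-/

set_option autoImplicit false

namespace Pool.Agent.MUXY

open _root_.MU3 _root_.Pool.Agent.MU3A _root_.Pool.Agent.MU3B _root_.Pool.Agent.MUXU OnePoint
open _root_.Pool.Agent.MUX (CQ CaseP nI cjI sp IsLI IsNL IsEI PhiI Reps TorX)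
open _root_.Pool.Agent.MUXF (qb)

namespace RQCO

variable {A B : ℤ}

lemma nm_intCast_mul (m : ℤ) (x : OO A B) : nm ((m : OO A B) * x) = m ^ 2 * nm x := by
  simp only [nm, QuadraticAlgebra.re_mul, QuadraticAlgebra.im_mul, QuadraticAlgebra.re_intCast,
    QuadraticAlgebra.im_intCast, Int.cast_id]
  ring

lemma qb_intCast_mul (h : _root_.Pool.Agent.MUX.CQ A B) (J : Ideal (OO A B)) (hJ : J ≠ ⊥) (m : ℤ) (y : OO A B)
    (hy : y ∈ J) : qb J ((m : OO A B) * y) = m ^ 2 * qb J y := by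
  obtain ⟨h1, -, -⟩ := Pool.Agent.MUXF.xf_QB A B (cqF h) J hJ
  have h2 := (h1 y hy).1
  have h3 := (h1 ((m : OO A B) * y) (Ideal.mul_mem_left _ _ hy)).1
  have hN : (Pool.Agent.MUXF.nI J : ℤ) ≠ 0 := by
    have := (Pool.Agent.MUXF.xf_IDL A B (cqF h) J hJ).1
    exact_mod_cast this
  rw [nm_intCast_mul, h2] at h3
  apply mul_left_cancel₀ hN
  rw [← h3]
  ring

lemma exists_S (hQ : Sy_QPR) (h : _root_.Pool.Agent.MUX.CQ A B) (J : Ideal (OO A B)) (hJ : J ≠ ⊥) (S : Finset ℕ)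
    (hS : ∀ q ∈ S, q.Prime) : ∃ y ∈ J, ∀ q ∈ S, ¬ (q : ℤ) ∣ qb J y := by
  classical
  obtain ⟨-, h2, -⟩ := Pool.Agent.MUXF.xf_QB A B (cqF h) J hJ
  induction S using Finset.induction_on with
  | empty => exact ⟨0, J.zero_mem, by simp⟩
  | insert q S hq ih =>
    obtain ⟨y, hy, hyS⟩ := ih fun q' hq' => hS q' (Finset.mem_insert_of_mem hq')
    have hqp : q.Prime := hS q (Finset.mem_insert_self q S)
    have hqi : Prime (q : ℤ) := Nat.prime_iff_prime_int.1 hqp
    by_cases hd : (q : ℤ) ∣ qb J y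
    · obtain ⟨z, hz, hzq⟩ := hQ A B h J hJ q hqp
      let s : ℤ := ∏ q' ∈ S, (q' : ℤ)
      have hqs : ¬ (q : ℤ) ∣ s := by
        intro hc
        obtain ⟨q', hq', hc'⟩ := (hqi.dvd_finsetProd_iff _).1 hc
        have h5 : q ∣ q' := by exact_mod_cast hc'
        have h6 := (Nat.prime_dvd_prime_iff_eq hqp (hS q' (Finset.mem_insert_of_mem hq'))).1 h5
        exact hq (h6 ▸ hq')
      refine ⟨((q : ℤ) : OO A B) * y + ((s : ℤ) : OO A B) * z,
        J.add_mem (Ideal.mul_mem_left _ _ hy) (Ideal.mul_mem_left _ _ hz), fun q' hq' => ?_⟩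
      rw [Finset.mem_insert] at hq'
      rcases hq' with rfl | hq'
      · rw [add_comm]
        obtain ⟨k, hk⟩ := h2 (((s : ℤ) : OO A B) * z) (Ideal.mul_mem_left _ _ hz) y hy (q' : ℤ)
        rw [hk, qb_intCast_mul h J hJ s z hz]
        intro hc
        have h7 : (q' : ℤ) ∣ s ^ 2 * qb J z := (dvd_add_left (dvd_mul_right _ _)).1 hc
        rcases hqi.dvd_or_dvd h7 with h8 | h8
        · exact hqs (hqi.dvd_of_dvd_pow h8)
        · exact hzq h8
      · obtain ⟨k, hk⟩ := h2 (((q : ℤ) : OO A B) * y) (Ideal.mul_mem_left _ _ hy) z hz s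
        rw [hk, qb_intCast_mul h J hJ (q : ℤ) y hy]
        have hs : (q' : ℤ) ∣ s := Finset.dvd_prod_of_mem _ hq'
        have hq'p : q'.Prime := hS q' (Finset.mem_insert_of_mem hq')
        have hq'i : Prime (q' : ℤ) := Nat.prime_iff_prime_int.1 hq'p
        intro hc
        have h7 : (q' : ℤ) ∣ (q : ℤ) ^ 2 * qb J y :=
          (dvd_add_left (dvd_mul_of_dvd_left hs _)).1 hc
        rcases hq'i.dvd_or_dvd h7 with h8 | h8
        · have h9 : q' ∣ q := by exact_mod_cast hq'i.dvd_of_dvd_pow h8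
          have h10 := (Nat.prime_dvd_prime_iff_eq hq'p hqp).1 h9
          exact hq (h10 ▸ hq')
        · exact hyS q' hq' h8
    · refine ⟨y, hy, fun q' hq' => ?_⟩
      rw [Finset.mem_insert] at hq'
      rcases hq' with rfl | hq'
      · exact hd
      · exact hyS q' hq'

end RQCO

theorem ty_QCO (h1 : Sy_QPR) : Sy_QCO := by
  intro A B h J hJ n hn
  obtain ⟨y, hy, hyS⟩ := RQCO.exists_S h1 h J hJ (insert 2 n.primeFactors) (by
    intro q hq
    rw [Finset.mem_insert] at hq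
    rcases hq with rfl | hq
    · exact Nat.prime_two
    · exact Nat.prime_of_mem_primeFactors hq)
  refine ⟨y, hy, ?_, ?_⟩
  · intro h0
    apply hyS 2 (Finset.mem_insert_self _ _)
    rw [h0]
    have : qb J (0 : OO A B) = 0 := by
      unfold qb
      have : nm (0 : OO A B) = 0 := by simp [nm]
      rw [this, Int.zero_ediv]
    rw [this]
    exact dvd_zero _
  · rw [Int.isCoprime_iff_gcd_eq_one]
    by_contra hc
    obtain ⟨q, hq, hqd⟩ := Nat.exists_prime_and_dvd hc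
    have h2 : (q : ℤ) ∣ qb J y := (Int.natCast_dvd_natCast.2 hqd).trans (Int.gcd_dvd_left _ _)
    have h3 : (q : ℤ) ∣ (n : ℤ) := (Int.natCast_dvd_natCast.2 hqd).trans (Int.gcd_dvd_right _ _)
    refine hyS q (Finset.mem_insert_of_mem ?_) h2
    rw [Nat.mem_primeFactors]
    exact ⟨hq, by exact_mod_cast h3, hn⟩

end Pool.Agent.MUXY


end

section

/-!
# MUX, block IX (helper36): from blocks E and H to the input (I3) of block K, `p = 2` and `p = 3` at once

`PAPER_X.md`, section 6. Every statement is a `def Si_X : Prop`; a module proves `theorem ti_X (h : Si_Y) ... : Si_X`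
in the file `Pool/Agent/MUX/I_X.lean`, namespace `Pool.Agent.MUXI`; the hypotheses are the statements named under USES
(fewer is fine). `Sx_..` in USES is `Pool.Agent.MUXF.Sx_..` (`StXF.lean`; theorems `Pool.Agent.MUXF.xf_..` in `XFAll.lean`), `Sy_..` is
`Pool.Agent.MUXY.Sy_..` (`StYX.lean`), `S_..X` is `Pool.Agent.MUXK.S_..X` (`StKX.lean`). The structures `CQ`, `IsLI` exist twice (`MUX`,
`MUXF`): conversions `Pool.Agent.MUXY.cqF`, `liF`; `nI`, `cjI` are equal by `rfl`.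

`v = V.valuation`: `v x ≤ 1 ↔ x ∈ V`, `v x < 1 ↔ x ∈ V.nonunits`. Levels `m = lvX p f n = f q0 p^n`, `M = q0 p^n`, `q0 = q0 p` (3 or 4);
`a = aX p f = 1 + 2 q0 f`; `g0 = 1 + q0` (4 or 5).

* `IA σ m a` : the automorphism `σ` of `ℂ / k` acts as the ideal `a` on level `m`; `RE m a a'` : equal ray classes.
* `AR h m τ a` : the automorphism `τ` of `D / k`, `D ≤ RF m`, is the Artin symbol of `a`.
* `XM ..` : abstract form of the sets `XX R m h τ`.
-/

set_option autoImplicit false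

namespace Pool.Agent.MUXI

open _root_.MU3 _root_.Pool.Agent.MU3 _root_.Pool.Agent.MU3A _root_.Pool.Agent.MU3B _root_.Pool.Agent.RI _root_.Pool.Agent.RID
  _root_.Pool.Agent.MUX _root_.Pool.Agent.ME _root_.Pool.Agent.MUXE _root_.Pool.Agent.MUXK
open _root_.Pool.Agent.MU3I (w3 zt)

noncomputable section

/-! ## Definitions -/

/-- the automorphism `σ` of `ℂ`, trivial on `k`, acts as the ideal `a` on level `m` -/
structure IA_E {A B : ℤ} (σ : ℂ ≃+* ℂ) (m a : Ideal (OO A B)) : Prop where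
  fix : FixK A B σ
  cop : IsCoprime a m
  act : ∀ (b : Ideal (OO A B)) (L : PeriodPair) (om : ℂ), IsNE b L om →
    ∃ (b' : Ideal (OO A B)) (L' : PeriodPair) (om' mu : ℂ), IsNE b' L' om' ∧ _root_.Pool.Agent.ME.ActE σ m a L L' mu

/-- the automorphism `τ` of `D / k` is the Artin symbol of `a` (level `m`) -/
def AR_E {A B : ℤ} {D : IntermediateField ℚ ℂ} (h : kk A B ≤ D) (m : Ideal (OO A B))
    (τ : letI := algC h; D ≃ₐ[kk A B] D) (a : Ideal (OO A B)) : Prop :=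
  ∃ σ : ℂ ≃+* ℂ, IA_E σ m a ∧ ExtC h τ σ

/-- the sets `X τ` of pairs `(i, x)` of level `lvX p f n`, abstractly: `Δ` is the group of the automorphisms
trivial on the layer, `γ` acts on the layer as `1 + q0` -/
structure XM_E {A B : ℤ} {n₀ : ℕ} {ι : Type} (R : RepsE A B n₀ ι) (p f n : ℕ) {G : Type} [Group G]
    (γ : G) (Δ : Subgroup G)
    (X : G → Set (ι × (OO A B ⧸ idl (A := A) (B := B) (lvX p f n)))) : Prop where
  comm : ∀ σ τ : G, σ * τ = τ * σ
  cop : ∀ τ, ∀ q ∈ X τ, IsCoprime (Quotient.out q.2 : OO A B) ((lvX p f n : ℕ) : OO A B)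
  two : ∀ τ, ∀ q ∈ X τ, (Quotient.out q.2 : OO A B) - 1 ∈ idl (A := A) (B := B) 2
  ex : ∀ q : ι × (OO A B ⧸ idl (A := A) (B := B) (lvX p f n)),
    IsCoprime (Quotient.out q.2 : OO A B) ((lvX p f n : ℕ) : OO A B) →
    (Quotient.out q.2 : OO A B) - 1 ∈ idl (A := A) (B := B) 2 → ∃ τ, q ∈ X τ
  uniq : ∀ q τ τ', q ∈ X τ → q ∈ X τ' → τ = τ'
  nrm : ∀ q τ, q ∈ X τ → ∀ j : ℕ, (τ * (γ ^ j)⁻¹ ∈ Δ ↔
    ((q0 p * p ^ n : ℕ) : ℤ) ∣ nm (Quotient.out q.2) * nI (R.b q.1) - (1 + (q0 p : ℤ)) ^ j ∨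
    ((q0 p * p ^ n : ℕ) : ℤ) ∣ nm (Quotient.out q.2) * nI (R.b q.1) + (1 + (q0 p : ℤ)) ^ j)

/-! ## Valuations and characters -/

/-! ## The action of automorphisms of `ℂ` through ideals -/

/-- (IAF) facts on `IA_E`, first part.

USES Su_DET. PROOF. (1), (2): `act`, `surj` of `TorXE`. (3) `comp`, `FixK`; the product of two ideals prime to `m` is prime to `m`. (4) For the given normalised lattice `L`: `ActE σ m a L L₁ mu`, `ActE σ m a' L L₂ mu'`; `kapE L₁ = σ (kapE L) = kapE L₂`, so `g₂` is the same (`kapE L = (12 g₂ - 1)/1728`) and `g₃ = -g₂/18`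
too: `L₁.lattice = L₂.lattice` (DET), so `℘`, `℘'` are the same functions (`Pool.Agent.MU3A.ta_SCP` with factor 1, or by definition) and `ActE σ m a' L L₁ mu'` (all of `kapE`, `IsQ`, `PME` depend only on the lattice). `uniq`. (5) `chg` for every `L`. (6) `triv`. (7) `Tor m' L z` implies `Tor m L z`; `IsCoprime a m'` from `m ≤ m'`.
(8) `zeta`. -/
def Si_IAF_E : Prop :=
  ∀ (A B : ℤ), CQ A B → TorXE A B →
    (∃ (b : Ideal (OO A B)) (L : PeriodPair) (om : ℂ), IsNE b L om) →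
    ∀ m : Ideal (OO A B), m ≠ ⊥ →
    (∀ σ : ℂ ≃+* ℂ, FixK A B σ → ∃ a, IA_E σ m a) ∧
    (∀ a, a ≠ ⊥ → IsCoprime a m → ∃ σ, IA_E σ m a) ∧
    (∀ σ τ a b, IA_E σ m a → IA_E τ m b → IA_E (σ.trans τ) m (a * b)) ∧
    (∀ σ a a', IA_E σ m a → IA_E σ m a' → RE m a a') ∧
    (∀ σ a a', IA_E σ m a → IsCoprime a' m → RE m a a' → IA_E σ m a') ∧
    (m ≤ idl 2 ∨ m = ⊤ →
      ∀ σ a, IA_E σ m a → ((∀ y ∈ RFE m, σ y = y) ↔ ∃ c : OO A B, c - 1 ∈ m ∧ a = sp c)) ∧
    (∀ σ a m', m ≤ m' → IA_E σ m a → IA_E σ m' a) ∧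
    (∀ (M : ℕ) σ a z, M ≠ 0 → m ≤ idl M → IA_E σ m a → z ^ M = 1 → z ∈ RFE m ∧ σ z = z ^ nI a)

/-- (IAG) facts on `IA_E`, second part.

USES IAF, Sx_ALG. PROOF. (1) `RingEquiv.refl`: it has some ideal `a` (IAF 1), is trivial on `RFE m`, so `a = sp c`, `c - 1 ∈ m` (IAF 6); `RE m (sp c) ⊤` with `x = 1`, `y = c` if `c ≠ 0`.. (`sp 1 * sp c = sp c * ⊤`); `c = 0` only if `1 ∈ m`: then take `x = y = 1` and note that `a = ⊥`; to avoid this case use that `IsQ a L L' mu` is impossible for `a = ⊥`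
(`mu z ∈ L'` for all `z`; a lattice is not `ℂ`). So `a ≠ ⊥` always. (IAF 5). (2) `σ.symm` has some ideal `b` (IAF 1), `σ.trans σ.symm = refl` has the ideal `a b` (IAF 3), so `a b = sp c` (IAF 6). (3) `→`: `b` for `σ'` as in (2): `a' b = sp c'`, `σ.trans σ'.symm` has the ideal `a b` (IAF 3), `RE m (a b) (a' b)` (multiply), so by (IAF 5) it has
the ideal `sp c'` (prime to `m` as `c' - 1 ∈ m`), so it is trivial on `RFE m` (IAF 6): `σ'.symm (σ y) = y`. `←`: `σ.trans σ'.symm` is trivial on `RFE m`: `a b = sp c`, `a' b = sp c'`: `sp c' * a = a a' b = sp c * a'`, `c' - c ∈ m`, `c, c' ≠ 0` (as in (1); `a b ≠ ⊥`). -/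
def Si_IAG_E : Prop :=
  ∀ (A B : ℤ), CQ A B → TorXE A B →
    (∃ (b : Ideal (OO A B)) (L : PeriodPair) (om : ℂ), IsNE b L om) →
    ∀ m : Ideal (OO A B), m ≠ ⊥ → m ≤ idl 2 ∨ m = ⊤ →
    IA_E (RingEquiv.refl ℂ) m ⊤ ∧
    (∀ σ a, IA_E σ m a → a ≠ ⊥ ∧ ∃ b c, IA_E σ.symm m b ∧ c - 1 ∈ m ∧ a * b = sp c) ∧
    (∀ σ σ' a a', IA_E σ m a → IA_E σ' m a' → (RE m a a' ↔ ∀ y ∈ RFE m, σ y = σ' y))

/-- (RPR) every ray class contains an ideal `x cjI (b i)`.

USES Sx_ALG, Sx_IDL, Sx_NIM. PROOF. (1) `sp x` is prime to `idl m`, and `cjI (b i)` contains `nI (b i)` (NIM), which is prime to `m`. (2) `R.surj (cjI a)`: `sp u * cjI a = sp v * b i`, conjugate: `sp ū * a = sp v̄ * cjI (b i)`. Multiply by `b i`: `sp ū * (a b_i) = sp (v̄ N)`, `N = nI (b i)` (IDL), so `v̄ N ∈ sp ū`, `v̄ N = ū y`, `a b_i = sp y`, and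
`sp N * a = a b_i cjI b_i = sp y * cjI (b i)`. `y` is prime to `m`: `a` and `b_i` are (ideals prime to `idl m`; `nI (b i) ∈ b i`). Let `N' N ≡ 1` modulo `m` (integers, `N' > 0`), `x = N' y`: `sp (N' N) * a = sp x * cjI (b i)`, so `RE (idl m) a (sp x * cjI (b i))` with the elements `N' N` and `1`. -/
def Si_RPR_E : Prop :=
  ∀ (A B : ℤ), CQ A B → ∀ (n₀ : ℕ) (ι : Type) (R : RepsE A B n₀ ι) (m : ℕ), m ≠ 0 →
    (∀ i, (nI (R.b i)).Coprime m) →
    (∀ i, ∀ x : OO A B, IsCoprime x (m : OO A B) →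
      IsCoprime (sp x * cjI (R.b i)) (idl (A := A) (B := B) m)) ∧
    ∀ a : Ideal (OO A B), a ≠ ⊥ → IsCoprime a (idl (A := A) (B := B) m) →
      ∃ (i : ι) (x : OO A B), IsCoprime x (m : OO A B) ∧ RE (idl m) a (sp x * cjI (R.b i))

/-- (HIT) `σ` hits the pair `(i, x)` iff it acts as the ideal `x cjI (b i)`.

USES IAF, IAG, RPR, Sy_MUU, Sy_MUI, Sy_UNJ, Sx_ALG, Sx_IDL, Sx_NIM, Su_DET. PROOF. `L₀ = R.L R.i0` (lattice `om_0 emb O`, `R.b0`), `z₀ = ptE R m R.i0 1 = om_0/m ∉ L₀` (`m ≥ 2`; `nI ⊤ = 1`), `Tor (idl m) L₀ z₀`. (`←`) `ActE σ (idl m) a L₀ L' mu`, `a = sp x * cjI (b i)`, `L'` normalised. MUI: `IsQ (cjI b_i) L₀ L_i mu_i`, so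
`IsQ a L₀ L_i (emb x mu_i)` (`emb x mu_i z ∈ L_i` iff `emb y (emb x z) ∈ L₀` for `y ∈ cjI b_i`; the elements of `sp x * cjI b_i` are the `x y`). So `s L' = L_i`, `s = emb x mu_i/mu`; both normalised, so `s² = 1` as in `Sy_MUU` (`Pool.Agent.MU3A.ta_SCP`), `L'.lattice = L_i.lattice` and `emb x mu_i = ± mu`. `kapE L_i = kapE L' = σ(kapE L₀)`. `act` at `z₀`: `z₀ ∉ L₀`, so
`mu z₀ ∉ L'`, `σ (xnE L₀ z₀) = xnE L' (mu z₀) = xnE L_i (emb x mu_i z₀)` (`xnE` is even), and `emb x mu_i z₀ = om_i N(b_i) emb x/m = ptE R m i x`. (`→`) `σ` has an ideal `a` (IAF 1), so by RPR, IAF 5 the ideal `sp x' * cjI (b j)`, `x'` prime to `m`. By (`←`) `σ` hits `(j, x')`. `kapE L_i = kapE L_j`: `i = j` (UNJ). `xnE L_i (ptE i x) = xnE L_i (ptE i x')`, so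
`ptE i x ∓ ptE i x' ∈ L_i` (`b_NEQ` of MU3), `N(b_i) (x ∓ x')/m ∈ b_i`, so `m ∣ N(b_i) (x ∓ x')`, `m ∣ x ∓ x'` (`N(b_i)` prime to `m`). `RE (idl m) (sp x' * c) (sp x * c)`, `c = cjI (b i)`, with the elements `x` and `± x'` (congruent modulo `m`, prime to `m`, not `0` as `m ≥ 2`; `sp (-x') = sp x'`). IAF 5. -/
def Si_HIT_E : Prop :=
  ∀ (A B : ℤ), CaseE A B → TorXE A B → ∀ (n₀ : ℕ) (ι : Type) (R : RepsE A B n₀ ι) (m : ℕ), m ≠ 0 →
    2 ∣ m → ∀ (σ : ℂ ≃+* ℂ), FixK A B σ → ∀ (i : ι) (x : OO A B),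
    IsCoprime x (m : OO A B) → (HitsE R m σ i x ↔
      x - 1 ∈ idl (A := A) (B := B) 2 ∧ IA_E σ (idl m) (sp x * cjI (R.b i)))

/-- (ARF) the Artin symbol for a field `D`, `k ≤ D ≤ RFE m`.

USES IAF, IAG. PROOF. `D / k` is normal, so every `σ` with `FixK` maps `D` to itself and has a restriction `τ ∈ Gal(D/k)`, `ExtC h τ σ` (`kk A B` is generated by `wC A B`, so `σ` is trivial on `kk A B`; Mathlib: `AlgEquiv.restrictNormal`, or `AlgHom.restrictNormal` of the embedding `D → ℂ`, its values are in `D`). (1) `refl`. (2) IAF 2. (3) `ext` of `TorXE` and IAF 1.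
(4) IAG 3: `σ`, `σ'` agree on `RFE m ⊇ D`. (5) IAF 3: `σ.trans σ'` extends `τ' * τ`; `Gal(D/k)` is commutative: it is a quotient of `Gal(RFE m/k)`; or directly: both `σ.trans σ'` and `σ'.trans σ` have the ideal `a a' = a' a`, so they agree on `D` by (4). (6) IAF 7: the same `σ`. (7) IAF 8: `z ≠ 0`, `σ (z + z⁻¹) = z^N + (z^N)⁻¹`. -/
def Si_ARF_E : Prop :=
  ∀ (A B : ℤ), CQ A B → TorXE A B →
    (∃ (b : Ideal (OO A B)) (L : PeriodPair) (om : ℂ), IsNE b L om) →
    ∀ m : Ideal (OO A B), m ≠ ⊥ → m ≤ idl 2 → ∀ (D : IntermediateField ℚ ℂ) (h : kk A B ≤ D),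
    (∀ y ∈ D, y ∈ RFE m) → letI := algC h
    ∀ _ : IsGalois (kk A B) D,
    AR_E h m 1 ⊤ ∧
    (∀ a, a ≠ ⊥ → IsCoprime a m → ∃ τ, AR_E h m τ a) ∧
    (∀ τ : D ≃ₐ[kk A B] D, ∃ a, IsCoprime a m ∧ AR_E h m τ a) ∧
    (∀ (τ τ' : D ≃ₐ[kk A B] D) a a', AR_E h m τ a → AR_E h m τ' a' → RE m a a' → τ = τ') ∧
    (∀ (τ τ' : D ≃ₐ[kk A B] D) a a', AR_E h m τ a → AR_E h m τ' a' → AR_E h m (τ * τ') (a * a')) ∧
    (∀ (K : IntermediateField ℚ ℂ) (hK : kk A B ≤ K) (m' : Ideal (OO A B)), m ≤ m' → K ≤ D →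
      letI := algC hK
      ∀ (τ : D ≃ₐ[kk A B] D) (τK : K ≃ₐ[kk A B] K) a,
      (∀ (x : K) (x' : D), (x' : ℂ) = x → ((τ x' : D) : ℂ) = (τK x : K)) →
      AR_E h m τ a → AR_E hK m' τK a) ∧
    ∀ (M : ℕ) (τ : D ≃ₐ[kk A B] D) a (z : ℂ) (y : D), M ≠ 0 → m ≤ idl M → AR_E h m τ a →
      z ^ M = 1 → (y : ℂ) = z + z⁻¹ → ((τ y : D) : ℂ) = z ^ nI a + (z ^ nI a)⁻¹

/-- (XXF) the sets `XXE R m h τ` and the Artin symbol.

USES HIT, ARF, RPR, Sx_ALG. PROOF. Let `x' = Quotient.out (mk x)`: `x' - x ∈ idl m`, `x'` is prime to `m`. `AR_E h (idl m) τ (sp x * c) ↔ AR_E h (idl m) τ (sp x' * c)`, `c = cjI (b i)`: `RE (idl m) (sp x * c) (sp x' * c)` (elements `x'`, `x`, not `0`) and IAF 5 for the same `σ`. (1) then is HIT for `x'`. (2) `ex`: RPR (1), ARF 2; `uniq`: ARF 4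
(`RE m a a` with `x = y = 1`). -/
def Si_XXF_E : Prop :=
  ∀ (A B : ℤ), CaseE A B → TorXE A B → ∀ (n₀ : ℕ) (ι : Type) (R : RepsE A B n₀ ι) (m : ℕ), m ≠ 0 →
    2 ∣ m → ∀ (D : IntermediateField ℚ ℂ) (h : kk A B ≤ D),
    (∀ y ∈ D, y ∈ RFE (idl (A := A) (B := B) m)) → letI := algC h
    ∀ _ : IsGalois (kk A B) D,
    (∀ (τ : D ≃ₐ[kk A B] D) (i : ι) (x : OO A B), IsCoprime x (m : OO A B) →
      ((i, Ideal.Quotient.mk (idl (A := A) (B := B) m) x) ∈ XXE R m h τ ↔
        x - 1 ∈ idl (A := A) (B := B) 2 ∧ AR_E h (idl m) τ (sp x * cjI (R.b i)))) ∧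
    (∀ (τ : D ≃ₐ[kk A B] D), ∀ q ∈ XXE R m h τ,
      (Quotient.out q.2 : OO A B) - 1 ∈ idl (A := A) (B := B) 2) ∧
    ∀ q : ι × (OO A B ⧸ idl (A := A) (B := B) m),
      IsCoprime (Quotient.out q.2 : OO A B) (m : OO A B) →
      ((Quotient.out q.2 : OO A B) - 1 ∈ idl (A := A) (B := B) 2 → ∃ τ, q ∈ XXE R m h τ) ∧
      ∀ τ τ', q ∈ XXE R m h τ → q ∈ XXE R m h τ' → τ = τ'

/-! ## The fields -/

/-! ## The sums -/

/-- (PTP) periodicity of the points `ptE R m i x`.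

USES Sx_ALG, `b_PER` (block B of MU3: `ee` is odd and periodic). PROOF. `x - y = m z`: `ptE R m i x - ptE R m i y = om_i nI(b_i) emb z`, and `nI (b i) ∈ b i` (`Nat.card (O/b) • 1 = 0`, or Sx_NIM), so it is in `R.L i` (`R.nl i`, `IsLI.mem`). -/
def Si_PTP_E : Prop :=
  ∀ (A B : ℤ), CQ A B → ∀ (n₀ : ℕ) (ι : Type) (R : RepsE A B n₀ ι) (m : ℕ), m ≠ 0 → ∀ i : ι,
    (∀ x y : OO A B, x - y ∈ idl (A := A) (B := B) m →
      ptE R m i x - ptE R m i y ∈ (R.L i).lattice ∧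
      ee (R.L i) (ptE R m i x) = ee (R.L i) (ptE R m i y) ∧
      ∀ a : ℕ, dlX (R.L i) a (ptE R m i x) = dlX (R.L i) a (ptE R m i y)) ∧
    ∀ (a : ℕ) (x : OO A B), (a : ℂ) * ptE R m i x = ptE R m i (a * x)

/-! ## The result -/

end

end Pool.Agent.MUXI


end

section

/-!
# MUX, block IX, module HIT (helper28): `σ` hits the pair `(i, x)` iff it acts as the ideal `x cjI (b i)`
-/

set_option autoImplicit false

namespace Pool.Agent.MUXI

open _root_.MU3 _root_.Pool.Agent.MU3 _root_.Pool.Agent.MU3A _root_.Pool.Agent.MU3B _root_.Pool.Agent.RI _root_.Pool.Agent.RID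
  _root_.Pool.Agent.MUX _root_.Pool.Agent.MUXE _root_.Pool.Agent.MUXK
open _root_.Pool.Agent.MU3I (w3 zt)

noncomputable section

namespace Hit

/-- two multipliers of the same ideal with normalised targets: the targets are equal, the multipliers are equal
up to sign -/
lemma lat_eq {A B : ℤ} (a : Ideal (OO A B)) (L L' L'' : PeriodPair) (mu mu' : ℂ)
    (hL' : L'.g₂ = -18 * L'.g₃) (hL'' : L''.g₂ = -18 * L''.g₃) (h : IsQ a L L' mu)
    (h' : IsQ a L L'' mu') :
    (∀ z : ℂ, z ∈ L'.lattice ↔ z ∈ L''.lattice) ∧ (mu' = mu ∨ mu' = -mu) := by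
  obtain ⟨h0, h1⟩ := h
  obtain ⟨h0', h1'⟩ := h'
  have hs : mu' / mu ≠ 0 := div_ne_zero h0' h0
  have key : ∀ z : ℂ, z ∈ L'.lattice ↔ mu' / mu * z ∈ L''.lattice := by
    intro z
    have e1 : mu * (z / mu) = z := mul_div_cancel₀ z h0
    have e2 : mu' * (z / mu) = mu' / mu * z := by ring
    rw [← e2, h1', ← h1, e1]
  set s : ℂ := mu' / mu with hsdef
  obtain ⟨-, -, g2, g3⟩ := ta_SCP L' L'' s hs key
  have hd := (b_DSC L').1
  have h30 : L'.g₃ ≠ 0 := by
    intro h0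
    apply hd
    rw [hL', h0]
    ring
  have hss : s ^ 2 = 1 := by
    rw [g2, g3, hL'] at hL''
    have h4 : -18 * L'.g₃ * s ^ 2 = -18 * L'.g₃ := by
      have h5 : -18 * L'.g₃ / s ^ 4 * s ^ 6 = -18 * (L'.g₃ / s ^ 6) * s ^ 6 := by rw [hL'']
      have h6 : -18 * L'.g₃ / s ^ 4 * s ^ 6 = -18 * L'.g₃ * s ^ 2 := by field_simp
      have h7 : -18 * (L'.g₃ / s ^ 6) * s ^ 6 = -18 * L'.g₃ := by field_simp
      rw [h6, h7] at h5
      exact h5
    have h8 : (-18 * L'.g₃) * (s ^ 2 - 1) = 0 := by linear_combination h4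
    rcases mul_eq_zero.1 h8 with h9 | h9
    · rcases mul_eq_zero.1 h9 with h10 | h10
      · norm_num at h10
      · exact absurd h10 h30
    · linear_combination h9
  have h1 : (s - 1) * (s + 1) = 0 := by linear_combination hss
  rcases mul_eq_zero.1 h1 with h2 | h2
  · have hs1 : s = 1 := sub_eq_zero.1 h2
    refine ⟨fun z => ?_, Or.inl ?_⟩
    · rw [key z, hs1, one_mul]
    · rw [hsdef, div_eq_iff h0, one_mul] at hs1
      exact hs1
  · have hs1 : s = -1 := eq_neg_of_add_eq_zero_left h2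
    refine ⟨fun z => ?_, Or.inr ?_⟩
    · rw [key z, hs1, neg_one_mul, neg_mem_iff]
    · rw [hsdef, div_eq_iff h0] at hs1
      rw [hs1]
      ring

/-- equal lattices have the same functions and invariants -/
lemma same (L L' : PeriodPair) (h : ∀ z : ℂ, z ∈ L.lattice ↔ z ∈ L'.lattice) :
    (∀ z, xn L' z = xn L z) ∧ kap L' = kap L := by
  have hs := ta_SCP L L' 1 one_ne_zero (fun u => by rw [one_mul]; exact h u)
  refine ⟨fun z => ?_, ?_⟩
  · unfold xn
    have : L'.weierstrassP z = L.weierstrassP z := by simpa using hs.1 z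
    rw [this]
  · unfold kap
    have : L'.g₂ = L.g₂ := by simpa using hs.2.2.1
    rw [this]

/-- `m` does not divide `1` -/
lemma not_unit {A B : ℤ} (m : ℕ) (hm : 2 ≤ m) (y : OO A B) (h : (1 : OO A B) = (m : ℕ) * y) :
    False := by
  have h5 : (1 : ℤ) = (m : ℤ) * y.re := by
    have := congrArg QuadraticAlgebra.re h
    simpa [QuadraticAlgebra.re_one] using this
  have h6 : (m : ℤ) ∣ 1 := ⟨y.re, h5⟩
  have h7 := Int.natCast_dvd_natCast.1 (by simpa using h6 : ((m : ℕ) : ℤ) ∣ ((1 : ℕ) : ℤ))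
  have h8 := Nat.le_of_dvd one_pos h7
  omega

lemma cop_ne {A B : ℤ} (m : ℕ) (hm : 2 ≤ m) (x : OO A B) (h : IsCoprime x (m : OO A B)) :
    x ≠ 0 := by
  rintro rfl
  obtain ⟨u, v, huv⟩ := h
  refine not_unit (A := A) (B := B) m hm v ?_
  rw [← huv]
  ring

/-- a point of level `m` in the lattice -/
lemma pt_mem {A B : ℤ} (hc : CQ A B) (hALG : Pool.Agent.MUXF.Sx_ALG) {n₀ : ℕ} {ι : Type}
    (R : Reps A B n₀ ι) (m : ℕ) (hm : m ≠ 0) (i : ι) (hcop : (nI (R.b i)).Coprime m)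
    (y : OO A B) (h : pt R m i y ∈ (R.L i).lattice) : y ∈ idl (A := A) (B := B) m := by
  obtain ⟨hmul, hz, hint, -, -⟩ := hALG A B (Pool.Agent.MUXY.cqF hc)
  have hem : ∀ x y : OO A B, emb (x * y) = emb x * emb y := fun x y => (hmul x y).1
  have heZ : ∀ k : ℤ, emb ((k : ℤ) : OO A B) = (k : ℂ) := fun k => (hint k).1
  have heN : ∀ k : ℕ, emb ((k : ℕ) : OO A B) = (k : ℂ) := fun k => by
    have := heZ (k : ℤ)
    rwa [Int.cast_natCast, Int.cast_natCast] at this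
  have hes : ∀ x y : OO A B, emb x = emb y → x = y := by
    intro x y hxy
    have h1 : emb ((x - y) + y) = emb (x - y) + emb y := (hmul (x - y) y).2.1
    rw [sub_add_cancel, hxy] at h1
    have h2 : emb (x - y) = 0 := by linear_combination -h1
    exact sub_eq_zero.1 ((hz _).1.1 h2)
  have hmC : (m : ℂ) ≠ 0 := by exact_mod_cast hm
  have hom : R.om i ≠ 0 := (R.nl i).om_ne
  obtain ⟨s, -, hs⟩ := ((R.nl i).mem _).1 h
  have h1 : ((nI (R.b i) : ℕ) : OO A B) * y = (m : ℕ) * s := by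
    apply hes
    rw [hem, hem, heN, heN]
    unfold pt at hs
    field_simp at hs
    linear_combination hs
  obtain ⟨u, v, huv⟩ := Nat.isCoprime_iff_coprime.2 hcop
  have h2 : (u : OO A B) * ((nI (R.b i) : ℕ) : OO A B) + (v : OO A B) * (m : ℕ) = 1 := by
    have := congrArg (fun k : ℤ => (k : OO A B)) huv
    push_cast at this
    exact this
  refine Ideal.mem_span_singleton.2 ⟨(u : OO A B) * s + (v : OO A B) * y, ?_⟩
  linear_combination (-y) * h2 + (u : OO A B) * h1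

/-- from the ideal to the point -/
lemma hit_of {A B : ℤ} (hc : CQ A B) (hALG : Pool.Agent.MUXF.Sx_ALG)
    (hMUI : Pool.Agent.MUXY.Sy_MUI) {n₀ : ℕ} {ι : Type}
    (R : Reps A B n₀ ι) (m : ℕ) (hm : 2 ≤ m) (hcop : ∀ i, (nI (R.b i)).Coprime m)
    (σ : ℂ ≃+* ℂ) (i : ι) (x : OO A B) (hx : IsCoprime x (m : OO A B))
    (hIA : IA σ (idl m) (sp x * cjI (R.b i))) : Hits R m σ i x := by
  obtain ⟨hmul, hz, hint, -, -⟩ := hALG A B (Pool.Agent.MUXY.cqF hc)
  have hem : ∀ x y : OO A B, emb (x * y) = emb x * emb y := fun x y => (hmul x y).1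
  have heZ : ∀ k : ℤ, emb ((k : ℤ) : OO A B) = (k : ℂ) := fun k => (hint k).1
  have heN : ∀ k : ℕ, emb ((k : ℕ) : OO A B) = (k : ℂ) := fun k => by
    have := heZ (k : ℤ)
    rwa [Int.cast_natCast, Int.cast_natCast] at this
  have he1 : emb (1 : OO A B) = 1 := by
    have := heN 1
    rwa [Nat.cast_one, Nat.cast_one] at this
  have hm0 : m ≠ 0 := by omega
  have hmC : (m : ℂ) ≠ 0 := by exact_mod_cast hm0
  have hx0 : x ≠ 0 := cop_ne m hm x hx
  have hex0 : emb x ≠ 0 := fun h => hx0 ((hz x).1.1 h)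
  obtain ⟨b', L', om', mu, hnl', hact⟩ := hIA.act _ _ _ (R.nl R.i0)
  have hq : IsQ (cjI (R.b i)) (R.L R.i0) (R.L i) (muX R i) := hMUI A B hc n₀ ι R i
  have hq2 : IsQ (sp x * cjI (R.b i)) (R.L R.i0) (R.L i) (emb x * muX R i) := by
    refine ⟨mul_ne_zero hex0 hq.1, fun z => ?_⟩
    have e1 : emb x * muX R i * z = muX R i * (emb x * z) := by ring
    rw [e1, hq.2]
    constructor
    · intro h y hy
      obtain ⟨y', hy', rfl⟩ := Ideal.mem_span_singleton_mul.1 hy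
      have := h y' hy'
      rw [hem]
      have e2 : emb x * emb y' * z = emb y' * (emb x * z) := by ring
      rw [e2]
      exact this
    · intro h y hy
      have := h (x * y) (Ideal.mem_span_singleton_mul.2 ⟨y, hy, rfl⟩)
      rw [hem] at this
      have e2 : emb x * emb y * z = emb y * (emb x * z) := by ring
      rw [e2] at this
      exact this
  obtain ⟨hlat, hpm⟩ := lat_eq _ _ _ _ _ _ hnl'.nrm (R.nl i).nrm hact.isq hq2
  obtain ⟨hxn, hkap⟩ := same L' (R.L i) hlat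
  have hN0 : nI (R.b R.i0) = 1 := by
    rw [R.b0]
    change Nat.card (OO A B ⧸ (⊤ : Ideal (OO A B))) = 1
    have : Subsingleton (OO A B ⧸ (⊤ : Ideal (OO A B))) :=
      Ideal.Quotient.subsingleton_iff.2 rfl
    exact Nat.card_unique
  have hom0 : R.om R.i0 ≠ 0 := (R.nl R.i0).om_ne
  have hz0 : pt R m R.i0 1 = R.om R.i0 / m := by
    unfold pt
    rw [hN0, he1]
    simp
  have hTor : Tor (idl (A := A) (B := B) m) (R.L R.i0) (pt R m R.i0 1) := by
    intro y hy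
    obtain ⟨t, rfl⟩ := Ideal.mem_span_singleton.1 hy
    refine ((R.nl R.i0).mem _).2 ⟨t, by rw [R.b0]; trivial, ?_⟩
    rw [hem, heN, hz0]
    field_simp
  have hz0L : pt R m R.i0 1 ∉ (R.L R.i0).lattice := by
    intro h
    have h1 := pt_mem hc hALG R m hm0 R.i0 (hcop _) 1 h
    obtain ⟨t, ht⟩ := Ideal.mem_span_singleton.1 h1
    exact not_unit m hm t ht
  have hpt : emb x * muX R i * pt R m R.i0 1 = pt R m i x := by
    rw [hz0]
    unfold pt muX
    field_simp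
  rcases hact.act _ hTor with ⟨h1, -⟩ | ⟨-, h2, h3, -⟩
  · exact absurd h1 hz0L
  · rcases hpm with e | e
    · have e1 : pt R m i x = mu * pt R m R.i0 1 := by rw [← hpt, e]
      refine ⟨?_, ?_, ?_⟩
      · rw [hkap, hact.kap]
      · rw [h3, hxn, e1]
      · rw [e1, ← hlat]
        exact h2
    · have e1 : pt R m i x = -(mu * pt R m R.i0 1) := by rw [← hpt, e]; ring
      refine ⟨?_, ?_, ?_⟩
      · rw [hkap, hact.kap]
      · rw [h3, hxn, e1]
        unfold xn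
        rw [PeriodPair.weierstrassP_neg]
      · rw [e1, ← hlat, neg_mem_iff]
        exact h2

end Hit

open _root_.Pool.Agent.MUXI.Hit in
/-- (HIT) `σ` hits the pair `(i, x)` iff it acts as the ideal `x cjI (b i)`. -/
theorem ti_HIT (h1 : Si_IAF) (h2 : Si_IAG) (h3 : Si_RPR)
    (h5 : Pool.Agent.MUXY.Sy_MUI) (h6 : Pool.Agent.MUXY.Sy_UNJ)
    (h7 : Pool.Agent.MUXF.Sx_ALG) : Si_HIT := by
  intro A B hc hT n₀ ι R m hm hcop σ hfix i x hx
  refine ⟨fun hh => ?_, fun h => hit_of hc h7 h5 R m hm hcop σ i x hx h⟩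
  obtain ⟨hmul, hz, hint, -, -⟩ := h7 A B (Pool.Agent.MUXY.cqF hc)
  have hm0 : m ≠ 0 := by omega
  have hmb : (idl (A := A) (B := B) m) ≠ ⊥ := by
    intro h
    have h4 : ((m : ℕ) : OO A B) = 0 := by
      have : ((m : ℕ) : OO A B) ∈ (idl (A := A) (B := B) m) := Ideal.mem_span_singleton_self _
      rw [h] at this
      exact this
    have h5 := congrArg QuadraticAlgebra.re h4
    simp at h5
    omega
  have hex : ∃ (b : Ideal (OO A B)) (L : PeriodPair) (om : ℂ), IsNL b L om :=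
    ⟨_, _, _, R.nl R.i0⟩
  obtain ⟨i1, -, -, -, i5, -⟩ := h1 A B hc hT hex _ hmb
  obtain ⟨-, j2, -⟩ := h2 A B hc hT hex _ hmb
  obtain ⟨a, ha⟩ := i1 σ hfix
  obtain ⟨p1, p2⟩ := h3 A B hc n₀ ι R m hm0 hcop
  obtain ⟨j, x', hx', hRE⟩ := p2 a (j2 σ a ha).1 ha.cop
  have hIA := i5 σ a _ ha (p1 j x' hx') hRE
  have hh' := hit_of hc h7 h5 R m hm hcop σ j x' hx' hIA
  have hk : kap (R.L i) = kap (R.L j) := hh.1.trans hh'.1.symm
  have hg2 : (R.L i).g₂ = (R.L j).g₂ := by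
    unfold kap at hk
    linear_combination 144 * hk
  have hg3 : (R.L i).g₃ = (R.L j).g₃ := by
    have e1 := (R.nl i).nrm
    have e2 := (R.nl j).nrm
    linear_combination (-1 / 18) * hg2 + (1 / 18) * e1 - (1 / 18) * e2
  have hij : i = j := h6 A B hc n₀ ι R i j hg2 hg3
  subst hij
  have hP : (R.L i).weierstrassP (pt R m i x) = (R.L i).weierstrassP (pt R m i x') := by
    have e1 := hh.2.1.symm.trans hh'.2.1
    unfold xn at e1
    linear_combination e1
  have hdiff : x - x' ∈ idl (A := A) (B := B) m ∨ x + x' ∈ idl (A := A) (B := B) m := by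
    rcases b_NEQ (R.L i) _ _ hh'.2.2 hh.2.2 hP with e | e
    · left
      apply pt_mem hc h7 R m hm0 i (hcop i)
      have e1 : pt R m i (x - x') = pt R m i x - pt R m i x' := by
        have e2 : emb ((x - x') + x') = emb (x - x') + emb x' := (hmul _ _).2.1
        rw [sub_add_cancel] at e2
        unfold pt
        rw [e2]
        ring
      rw [e1]
      exact e
    · right
      apply pt_mem hc h7 R m hm0 i (hcop i)
      have e1 : pt R m i (x + x') = pt R m i x + pt R m i x' := by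
        have e2 : emb (x + x') = emb x + emb x' := (hmul _ _).2.1
        unfold pt
        rw [e2]
        ring
      rw [e1]
      exact e
  have hx0 : x ≠ 0 := cop_ne m hm x hx
  have hx0' : x' ≠ 0 := cop_ne m hm x' hx'
  have hcx : IsCoprime (sp x) (idl (A := A) (B := B) m) :=
    (Ideal.isCoprime_span_singleton_iff _ _).2 hx
  have hRE2 : RE (idl m) (sp x' * cjI (R.b i)) (sp x * cjI (R.b i)) := by
    rcases hdiff with e | e
    · exact ⟨x, x', hx0, hx0', hcx, e, by rw [mul_left_comm]⟩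
    · refine ⟨x, -x', hx0, neg_ne_zero.2 hx0', hcx, by rwa [sub_neg_eq_add], ?_⟩
      have e3 : sp (-x') = sp x' := Ideal.span_singleton_neg x'
      rw [e3, mul_left_comm]
  exact i5 σ _ _ hIA (p1 i x hx) hRE2

end

end Pool.Agent.MUXI


end

section

/-!
# ME, block I: the sum over the `x ≡ 1` modulo `2` (helper36)

For a function on `O/m`, `2 ∣ m`, invariant under the units and supported on the elements prime to `2`, the sum over the `x ≡ 1` modulo `2` is `1/r` times the sum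
over all `x`, `r = rE A B`.
-/

set_option autoImplicit false

namespace Pool.Agent.ME

open _root_.MU3 _root_.Pool.Agent.MU3A _root_.Pool.Agent.MU3B _root_.Pool.Agent.RI _root_.Pool.Agent.MUX _root_.Pool.Agent.NS
  _root_.Pool.Agent.NSRD Polynomial OnePoint

noncomputable section

namespace USum

variable {A B : ℤ}

/-- representatives of the units modulo `± 1` -/
def T (A B : ℤ) : Finset (OO A B) :=
  if B = 0 then {1, ⟨0, 1⟩} else {1, ⟨0, 1⟩, ⟨1, -1⟩}

lemma T_unit (h : CaseE A B) {t : OO A B} (ht : t ∈ T A B) : IsUnit t := by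
  unfold T at ht
  rcases h.or with ⟨-, hB⟩ | ⟨-, hB⟩
  · rw [if_pos hB] at ht
    simp only [Finset.mem_insert, Finset.mem_singleton] at ht
    rcases ht with rfl | rfl
    · exact isUnit_one
    · exact isUnit_w h
  · rw [if_neg (by rw [hB]; norm_num)] at ht
    simp only [Finset.mem_insert, Finset.mem_singleton] at ht
    rcases ht with rfl | rfl | rfl
    · exact isUnit_one
    · exact isUnit_w h
    · exact isUnit_w' h hB

lemma T_card (h : CaseE A B) : (T A B).card = rE A B := by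
  have e1 : (1 : OO A B) = ⟨1, 0⟩ := rfl
  unfold T rE
  rcases h.or with ⟨-, hB⟩ | ⟨-, hB⟩
  · rw [if_pos hB, if_pos hB, Finset.card_pair]
    rw [e1]
    intro h1
    have := congrArg QuadraticAlgebra.re h1
    simp at this
  · have hB' : B ≠ 0 := by rw [hB]; norm_num
    rw [if_neg hB', if_neg hB', Finset.card_insert_of_notMem, Finset.card_pair]
    · intro h1
      have := congrArg QuadraticAlgebra.re h1
      simp at this
    · simp only [Finset.mem_insert, Finset.mem_singleton, not_or]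
      refine ⟨fun h1 => ?_, fun h1 => ?_⟩
      · rw [e1] at h1
        have := congrArg QuadraticAlgebra.re h1
        simp at this
      · rw [e1] at h1
        have := congrArg QuadraticAlgebra.im h1
        simp at this

/-- every unit is `± t` -/
lemma T_cov (h : CaseE A B) {z : OO A B} (hz : IsUnit z) : z ∈ T A B ∨ -z ∈ T A B := by
  have e3 : (-⟨0, -1⟩ : OO A B) = ⟨0, 1⟩ := by
    ext <;> simp
  have e4 : (-⟨-1, 1⟩ : OO A B) = ⟨1, -1⟩ := by
    ext <;> simp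
  unfold T
  by_cases hB : B = 0
  · simp only [if_pos hB, Finset.mem_insert, Finset.mem_singleton]
    rcases unit_list h hz with rfl | rfl | rfl | rfl | ⟨hB1, -⟩
    · left; left; rfl
    · right; left; rw [neg_neg]
    · left; right; rfl
    · right; right; exact e3
    · rw [hB] at hB1; norm_num at hB1
  · simp only [if_neg hB, Finset.mem_insert, Finset.mem_singleton]
    rcases unit_list h hz with rfl | rfl | rfl | rfl | ⟨-, rfl | rfl⟩
    · left; left; rfl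
    · right; left; rw [neg_neg]
    · left; right; left; rfl
    · right; right; left; exact e3
    · left; right; right; rfl
    · right; right; right; exact e4

/-- two different elements of `T` are not congruent modulo `2` -/
lemma T_inj {t t' : OO A B} (ht : t ∈ T A B) (ht' : t' ∈ T A B)
    (hd : t - t' ∈ idl (A := A) (B := B) 2) : t = t' := by
  have e1 : (1 : OO A B) = ⟨1, 0⟩ := rfl
  rw [mem_two] at hd
  obtain ⟨h1, h2⟩ := hd
  rw [QuadraticAlgebra.re_sub] at h1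
  rw [QuadraticAlgebra.im_sub] at h2
  unfold T at ht ht'
  by_cases hB : B = 0
  · rw [if_pos hB] at ht ht'
    simp only [Finset.mem_insert, Finset.mem_singleton] at ht ht'
    rcases ht with rfl | rfl <;> rcases ht' with rfl | rfl <;>
      simp [QuadraticAlgebra.re_one, QuadraticAlgebra.im_one] at h1 h2 ⊢
  · rw [if_neg hB] at ht ht'
    simp only [Finset.mem_insert, Finset.mem_singleton] at ht ht'
    rcases ht with rfl | rfl | rfl <;> rcases ht' with rfl | rfl | rfl <;>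
      simp [QuadraticAlgebra.re_one, QuadraticAlgebra.im_one] at h1 h2 ⊢

open Classical in
lemma T_sum (h : CaseE A B) {x : OO A B} (c : ℂ) (hx : c ≠ 0 → IsCoprime x (2 : OO A B)) :
    ∑ t ∈ T A B, (if t * x - 1 ∈ idl (A := A) (B := B) 2 then c else 0) = c := by
  by_cases hc : c = 0
  · rw [hc]
    refine Finset.sum_eq_zero fun t _ => ?_
    split_ifs <;> rfl
  · have hcop := hx hc
    have h2m : (2 : OO A B) ∈ idl (A := A) (B := B) 2 := by
      rw [mem_two]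
      constructor
      · exact ⟨1, rfl⟩
      · exact ⟨0, rfl⟩
    obtain ⟨z, hz, hzx⟩ := unit_ex h hcop
    obtain ⟨t, ht, htx⟩ : ∃ t ∈ T A B, t * x - 1 ∈ idl (A := A) (B := B) 2 := by
      rcases T_cov h hz with h1 | h1
      · exact ⟨z, h1, hzx⟩
      · refine ⟨-z, h1, ?_⟩
        have h3 : -z * x - 1 = -(z * x - 1) - 2 := by ring
        rw [h3]
        exact sub_mem (neg_mem hzx) h2m
    rw [Finset.sum_eq_single t, if_pos htx]
    · intro t' ht' hne
      rw [if_neg]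
      intro h3
      apply hne
      refine T_inj ht' ht ?_
      have h4 : (t' - t) * x ∈ idl (A := A) (B := B) 2 := by
        have h5 : (t' - t) * x = (t' * x - 1) - (t * x - 1) := by ring
        rw [h5]
        exact sub_mem h3 htx
      obtain ⟨a, b, hab⟩ := hcop
      have h6 : t' - t = a * ((t' - t) * x) + (b * (t' - t)) * 2 := by
        linear_combination (-(t' - t)) * hab
      rw [h6]
      exact add_mem (Ideal.mul_mem_left _ _ h4) (Ideal.mul_mem_left _ _ h2m)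
    · intro h3
      exact absurd ht h3

open Classical in
/-- the sum over the `x ≡ 1` modulo `2` -/
theorem usum (h : CaseE A B) {m : ℕ} (hm : m ≠ 0) (h2 : 2 ∣ m) (G : OO A B → ℂ)
    (per : ∀ x y : OO A B, x - y ∈ idl (A := A) (B := B) m → G x = G y)
    (supp : ∀ x, G x ≠ 0 → IsCoprime x (2 : OO A B))
    (unit : ∀ z x : OO A B, IsUnit z → G (z * x) = G x) :
    (rE A B : ℂ) * ∑ᶠ q : OO A B ⧸ idl (A := A) (B := B) m,
      (if (Quotient.out q : OO A B) - 1 ∈ idl (A := A) (B := B) 2 then G (Quotient.out q) else 0) =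
    ∑ᶠ q : OO A B ⧸ idl (A := A) (B := B) m, G (Quotient.out q) := by
  have hfin : Finite (OO A B ⧸ idl (A := A) (B := B) m) := MUXI.TH.finR m hm
  have : Fintype (OO A B ⧸ idl (A := A) (B := B) m) := Fintype.ofFinite _
  have hle : idl (A := A) (B := B) m ≤ idl (A := A) (B := B) 2 := by
    obtain ⟨k, rfl⟩ := h2
    refine Ideal.span_singleton_le_span_singleton.2 ⟨(k : OO A B), ?_⟩
    push_cast
    rfl
  rw [finsum_eq_sum_of_fintype, finsum_eq_sum_of_fintype]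
  set F : (OO A B ⧸ idl (A := A) (B := B) m) → ℂ := fun q =>
    if (Quotient.out q : OO A B) - 1 ∈ idl (A := A) (B := B) 2 then G (Quotient.out q) else 0 with hF
  have hout : ∀ (t : OO A B) (q : OO A B ⧸ idl (A := A) (B := B) m),
      (Quotient.out (Ideal.Quotient.mk _ t * q) : OO A B) - t * Quotient.out q ∈
        idl (A := A) (B := B) m := by
    intro t q
    rw [← Ideal.Quotient.eq, Ideal.Quotient.mk_out, map_mul, Ideal.Quotient.mk_out]
  have hFt : ∀ t : OO A B, IsUnit t → ∀ q, F (Ideal.Quotient.mk _ t * q) =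
      if t * (Quotient.out q : OO A B) - 1 ∈ idl (A := A) (B := B) 2 then G (Quotient.out q)
        else 0 := by
    intro t ht q
    have h3 := hout t q
    have h4 : (Quotient.out (Ideal.Quotient.mk _ t * q) : OO A B) - 1 ∈ idl (A := A) (B := B) 2 ↔
        t * (Quotient.out q : OO A B) - 1 ∈ idl (A := A) (B := B) 2 := by
      have h5 := hle h3
      constructor
      · intro h6
        have h7 := sub_mem h6 h5
        rwa [sub_sub_sub_cancel_left] at h7
      · intro h6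
        have h7 := add_mem h5 h6
        rwa [sub_add_sub_cancel] at h7
    show (if _ then _ else _) = _
    rw [if_congr h4 (by rw [per _ _ h3, unit t _ ht]) rfl]
  have h5 : ∑ q : OO A B ⧸ idl (A := A) (B := B) m, G (Quotient.out q) =
      ∑ q : OO A B ⧸ idl (A := A) (B := B) m, ∑ t ∈ T A B,
        F (Ideal.Quotient.mk _ t * q) := by
    refine Finset.sum_congr rfl fun q _ => ?_
    rw [← T_sum h (x := Quotient.out q) (G (Quotient.out q)) (supp _)]
    exact Finset.sum_congr rfl fun t ht => (hFt t (T_unit h ht) q).symm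
  rw [h5, Finset.sum_comm]
  have h6 : ∀ t ∈ T A B, ∑ q : OO A B ⧸ idl (A := A) (B := B) m,
      F (Ideal.Quotient.mk _ t * q) = ∑ q, F q := by
    intro t ht
    obtain ⟨u, hu⟩ := (T_unit h ht).map (Ideal.Quotient.mk (idl (A := A) (B := B) m))
    have h7 := Equiv.sum_comp (Units.mulLeft u) F
    rw [← h7]
    refine Finset.sum_congr rfl fun q _ => ?_
    rw [Units.mulLeft_apply, hu]
  rw [Finset.sum_congr rfl h6, Finset.sum_const, T_card h, nsmul_eq_mul]

end USum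

end

end Pool.Agent.ME


end

section

/-!
# MUX, block IX: module TH, the sums `That_j`: the sets `XM_E` (frame ME)
-/

set_option autoImplicit false

namespace Pool.Agent.MUXI

open _root_.MU3 _root_.Pool.Agent.MU3 _root_.Pool.Agent.MU3A _root_.Pool.Agent.MU3B _root_.Pool.Agent.RI _root_.Pool.Agent.RID
  _root_.Pool.Agent.MUX _root_.Pool.Agent.ME _root_.Pool.Agent.MUXE _root_.Pool.Agent.MUXK
open _root_.Pool.Agent.MU3I (w3 zt)

noncomputable section

namespace TH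

section

variable {A B : ℤ} {p f n : ℕ} {ι : Type} {R : RepsE A B (p * f) ι} {G : Type} [Group G]
  {γ : G} {Δ : Subgroup G} {X : G → Set (ι × (OO A B ⧸ idl (A := A) (B := B) (lvX p f n)))}

lemma mem_iff_E (hM : XM_E R p f n γ Δ X)
    (q : ι × (OO A B ⧸ idl (A := A) (B := B) (lvX p f n))) (j : ℕ) :
    (∃ δ : Δ, q ∈ X (γ ^ j * (δ : G))) ↔
      (Quotient.out q.2 : OO A B) - 1 ∈ idl (A := A) (B := B) 2 ∧
      (IsCoprime (Quotient.out q.2 : OO A B) ((lvX p f n : ℕ) : OO A B) ∧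
      (((q0 p * p ^ n : ℕ) : ℤ) ∣ nm (Quotient.out q.2) * nI (R.b q.1) - (1 + (q0 p : ℤ)) ^ j ∨
      ((q0 p * p ^ n : ℕ) : ℤ) ∣ nm (Quotient.out q.2) * nI (R.b q.1) + (1 + (q0 p : ℤ)) ^ j)) := by
  constructor
  · rintro ⟨δ, hδ⟩
    refine ⟨hM.two _ _ hδ, hM.cop _ _ hδ, (hM.nrm q _ hδ j).1 ?_⟩
    rw [hM.comm (γ ^ j) δ, mul_inv_cancel_right]
    exact δ.2
  · rintro ⟨h2, hc, hC⟩
    obtain ⟨τ, hτ⟩ := hM.ex q hc h2
    have h1 := (hM.nrm q τ hτ j).2 hC
    refine ⟨⟨_, h1⟩, ?_⟩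
    have h2 : γ ^ j * (τ * (γ ^ j)⁻¹) = τ := by
      rw [hM.comm (γ ^ j), inv_mul_cancel_right]
    rw [h2]
    exact hτ

end

end TH

end

end Pool.Agent.MUXI


end

section

/-!
# MUX, block IX, module IAG (helper37): facts on `IA`, second part
-/

set_option autoImplicit false

namespace Pool.Agent.MUXI

open _root_.MU3 _root_.Pool.Agent.MU3 _root_.Pool.Agent.MU3A _root_.Pool.Agent.MU3B _root_.Pool.Agent.RI _root_.Pool.Agent.RID
  _root_.Pool.Agent.MUX _root_.Pool.Agent.MUXE _root_.Pool.Agent.MUXK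
open _root_.Pool.Agent.MU3I (w3 zt)

noncomputable section

namespace IagX

variable {A B : ℤ}

lemma emb_zero' : emb (0 : OO A B) = 0 := by simp [emb]

/-- the ideal of an automorphism is not zero -/
lemma ne_bot (hex : ∃ (b : Ideal (OO A B)) (L : PeriodPair) (om : ℂ), IsNL b L om)
    {m a : Ideal (OO A B)} {σ : ℂ ≃+* ℂ} (h : IA σ m a) : a ≠ ⊥ := by
  rintro rfl
  obtain ⟨b, L, om, hL⟩ := hex
  obtain ⟨b', L', om', mu, -, hA⟩ := h.act b L om hL
  obtain ⟨hmu, hq⟩ := hA.isq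
  apply L'.ω₁_div_two_notMem_lattice
  have h1 := (hq (L'.ω₁ / 2 / mu)).2 (fun x hx => by
    have hx0 : x = 0 := hx
    rw [hx0, emb_zero', zero_mul]
    exact zero_mem _)
  rwa [mul_div_cancel₀ _ hmu] at h1

lemma cop_of_sub {m : Ideal (OO A B)} {c : OO A B} (h : c - 1 ∈ m) : IsCoprime (sp c) m := by
  rw [Ideal.isCoprime_iff_exists]
  exact ⟨c, Ideal.mem_span_singleton_self c, 1 - c, by
    have := neg_mem h
    rwa [neg_sub] at this, by ring⟩

lemma ne_zero_of_sp {c : OO A B} (h : sp c ≠ ⊥) : c ≠ 0 := by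
  rintro rfl
  exact h (by simp)

end IagX

open _root_.Pool.Agent.MUXI.IagX in
theorem ti_IAG (h1 : Si_IAF) : Si_IAG := by
  intro A B hcq T hex m hm
  obtain ⟨I1, -, I3, I4, I5, I6, -, -⟩ := h1 A B hcq T hex m hm
  have inv : ∀ σ a, IA σ m a → a ≠ ⊥ ∧ ∃ b c, IA σ.symm m b ∧ c - 1 ∈ m ∧ a * b = sp c := by
    intro σ a ha
    refine ⟨ne_bot hex ha, ?_⟩
    have hs : FixK A B σ.symm := by
      have h2 : σ (wC A B) = wC A B := ha.fix
      show σ.symm (wC A B) = wC A B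
      rw [RingEquiv.symm_apply_eq]
      exact h2.symm
    obtain ⟨b, hb⟩ := I1 σ.symm hs
    have h3 := I3 σ σ.symm a b ha hb
    obtain ⟨c, hc, hc'⟩ := (I6 _ _ h3).1 (fun y _ => by simp)
    exact ⟨b, c, hb, hc, hc'⟩
  refine ⟨?_, inv, ?_⟩
  · obtain ⟨a, ha⟩ := I1 (RingEquiv.refl ℂ) rfl
    obtain ⟨c, hc, hc'⟩ := (I6 _ _ ha).1 (fun y _ => rfl)
    have h0 := ne_bot hex ha
    rw [hc'] at h0
    have hc0 := ne_zero_of_sp h0
    have hsp1 : (sp (1 : OO A B)) = ⊤ := Ideal.span_singleton_one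
    refine I5 _ a ⊤ ha ?_ ⟨1, c, ?_, hc0, ?_, ?_, ?_⟩
    · rw [← Ideal.one_eq_top]
      exact isCoprime_one_left
    · intro h2
      apply hc0
      rw [← mul_one c, h2, mul_zero]
    · rw [hsp1, ← Ideal.one_eq_top]
      exact isCoprime_one_left
    · have := neg_mem hc
      rwa [neg_sub] at this
    · rw [hc', hsp1, Ideal.top_mul, Ideal.mul_top]
  · intro σ σ' a a' ha ha'
    obtain ⟨-, b, c', hb, hcm, hcb⟩ := inv σ' a' ha'
    have h3 := I3 σ σ'.symm a b ha hb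
    have h3' := I3 σ' σ'.symm a' b ha' hb
    constructor
    · rintro ⟨x, y, hx, hy, hxm, hxy, he⟩
      have h4 : RE m (a * b) (sp c') := ⟨x, y, hx, hy, hxm, hxy, by
        rw [← hcb, ← mul_assoc, ← mul_assoc, he]⟩
      have h5 := I5 _ _ _ h3 (cop_of_sub hcm) h4
      have h6 := (I6 _ _ h5).2 ⟨c', hcm, rfl⟩
      intro y hy
      have h7 := h6 y hy
      rw [RingEquiv.trans_apply, RingEquiv.symm_apply_eq] at h7
      exact h7
    · intro hσ
      obtain ⟨c, hc, hc'⟩ := (I6 _ _ h3).1 (fun y hy => by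
        rw [RingEquiv.trans_apply, RingEquiv.symm_apply_eq]
        exact hσ y hy)
      have n1 := ne_bot hex h3
      have n2 := ne_bot hex h3'
      rw [hc'] at n1
      rw [hcb] at n2
      refine ⟨c', c, ne_zero_of_sp n2, ne_zero_of_sp n1, cop_of_sub hcm, ?_, ?_⟩
      · have := sub_mem hcm hc
        rwa [sub_sub_sub_cancel_right] at this
      · rw [← hcb, ← hc', mul_comm (a * b) a', mul_comm a b, ← mul_assoc]

end

end Pool.Agent.MUXI


end

section

/-!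
# MUX, section 9: module UNJ (helper19)
-/

set_option autoImplicit false

namespace Pool.Agent.MUXY

open _root_.Pool.Agent.ME

open _root_.MU3 _root_.Pool.Agent.MU3A _root_.Pool.Agent.MU3B _root_.Pool.Agent.MUXU OnePoint
open _root_.Pool.Agent.MU3F (ex)
open _root_.Pool.Agent.MUXF (Sx_ALG Sx_IDL Sx_NIM Sx_QB Sx_SMB Sx_F4 qb sumB)

namespace UNJ19

end UNJ19

open _root_.Pool.Agent.MUXY.UNJ19 in
theorem ty_UNJ_E (h1 : Sx_ALG) (_h2 : Sx_IDL) (h3 : Su_DET) : Sy_UNJ_E := by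
  intro A B hC n ι R j j' hg2 hg3
  obtain ⟨a1, a2, _, _, _⟩ := h1 A B (cqF hC)
  have hmul : ∀ x y : OO A B, emb (x * y) = emb x * emb y := fun x y => (a1 x y).1
  have hadd : ∀ x y : OO A B, emb (x + y) = emb x + emb y := fun x y => (a1 x y).2.1
  have h0 : ∀ x : OO A B, emb x = 0 ↔ x = 0 := fun x => (a2 x).1
  have hinj : ∀ x y : OO A B, emb x = emb y → x = y := by
    intro x y h
    have e1 := hadd (x - y) y
    rw [sub_add_cancel, h] at e1
    have e2 : emb (x - y) = 0 := by linear_combination -e1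
    exact sub_eq_zero.1 ((h0 _).1 e2)
  have hlat := h3 _ _ hg2 hg3
  have hj := (R.nl j).toIsLI
  have hj' := (R.nl j').toIsLI
  obtain ⟨t, ht, ht0⟩ := Submodule.exists_mem_ne_zero_of_ne_bot hj.b_ne
  obtain ⟨t', ht', he⟩ := (hj'.mem _).1 (hlat ▸ ((hj.mem _).2 ⟨t, ht, rfl⟩))
  have ht0' : t' ≠ 0 := by
    intro h
    rw [h, (h0 0).2 rfl, mul_zero] at he
    rcases mul_eq_zero.1 he with h4 | h4
    · exact hj.om_ne h4
    · exact ht0 ((h0 t).1 h4)
  refine R.inj j j' t' t ht0' ht0 (le_antisymm ?_ ?_)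
  · exact le_of hmul hinj hj hj' (fun z hz => hlat ▸ hz) t t' he
  · exact le_of hmul hinj hj' hj (fun z hz => hlat ▸ hz) t' t he.symm

end Pool.Agent.MUXY


end

section

/-!
# MUX, section 9, module MUI (helper96): the multiplier of `L_(i0) → L_i`
-/

set_option autoImplicit false

namespace Pool.Agent.MUXY

open _root_.Pool.Agent.ME

open _root_.MU3 _root_.Pool.Agent.MU3A _root_.Pool.Agent.MU3B _root_.Pool.Agent.MUXU OnePoint
open _root_.Pool.Agent.MU3F (ex)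
open _root_.Pool.Agent.MUXF (Sx_ALG Sx_IDL Sx_NIM Sx_QB Sx_SMB Sx_F4 qb sumB)

noncomputable section

/-- (MUI) the multiplier of `L_(i0) → L_i`. -/
theorem ty_MUI_E (h1 : Sx_ALG) (h2 : Sx_IDL) : Sy_MUI_E := by
  intro A B hc n ι R i
  have hcF := cqF hc
  obtain ⟨hmul, -, hint, -, -⟩ := h1 A B hcF
  obtain ⟨hN0, hbc⟩ := h2 A B hcF (R.b i) (R.nl i).b_ne
  have hN0' : ((MUX.nI (R.b i) : ℕ) : ℂ) ≠ 0 := by exact_mod_cast hN0
  have hnat : emb ((MUX.nI (R.b i) : ℕ) : OO A B) = ((MUX.nI (R.b i) : ℕ) : ℂ) := by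
    have := (hint ((MUX.nI (R.b i) : ℕ) : ℤ)).1
    simpa using this
  have hOm := (R.nl R.i0).om_ne
  have hom := (R.nl i).om_ne
  have hmu : ME.muXE R i = R.om i * ((MUX.nI (R.b i) : ℕ) : ℂ) / R.om R.i0 := rfl
  refine ⟨?_, ?_⟩
  · rw [hmu]
    exact div_ne_zero (mul_ne_zero hom hN0') hOm
  · intro z
    constructor
    · intro hz x hx
      obtain ⟨s, hs, hs2⟩ := ((R.nl i).mem _).1 hz
      have hxs : s * x ∈ R.b i * MUXF.cjI (R.b i) := Ideal.mul_mem_mul hs hx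
      rw [hbc] at hxs
      obtain ⟨r, hr⟩ := Ideal.mem_span_singleton'.1 hxs
      have e1 : emb r * ((MUX.nI (R.b i) : ℕ) : ℂ) = emb s * emb x := by
        rw [← (hmul s x).1, ← hr, (hmul _ _).1]
        rw [← hnat]
        rfl
      have e2 : ((MUX.nI (R.b i) : ℕ) : ℂ) * z = R.om R.i0 * emb s := by
        rw [hmu] at hs2
        field_simp at hs2
        rw [hs2]
      refine ((R.nl R.i0).mem _).2 ⟨r, ?_, ?_⟩
      · rw [R.b0]; trivial
      · apply mul_left_cancel₀ hN0'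
        linear_combination emb x * e2 - R.om R.i0 * e1
    · intro hz
      have key : ∀ r ∈ R.b i * MUXF.cjI (R.b i), ∃ y ∈ R.b i, emb r * z = R.om R.i0 * emb y := by
        intro r hr
        refine Submodule.mul_induction_on hr ?_ ?_
        · intro s hs x hx
          obtain ⟨y, -, hy⟩ := ((R.nl R.i0).mem _).1 (hz x hx)
          refine ⟨s * y, Ideal.mul_mem_right _ _ hs, ?_⟩
          rw [(hmul s x).1, (hmul s y).1, mul_assoc, hy]
          ring
        · rintro r1 r2 ⟨y1, hy1, e1⟩ ⟨y2, hy2, e2⟩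
          refine ⟨y1 + y2, add_mem hy1 hy2, ?_⟩
          rw [(hmul r1 r2).2.1, (hmul y1 y2).2.1]
          linear_combination e1 + e2
      obtain ⟨y, hy, e⟩ := key ((MUX.nI (R.b i) : ℕ) : OO A B) (by
        rw [hbc]; exact Ideal.mem_span_singleton_self _)
      refine ((R.nl i).mem _).2 ⟨y, hy, ?_⟩
      rw [hnat] at e
      rw [hmu]
      field_simp
      linear_combination e

end

end Pool.Agent.MUXY


end

section

/-!
# MUX, section 9, module EXI (helper9): existence of the action for the lattices `R.L i`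
-/

set_option autoImplicit false

namespace Pool.Agent.MUXY

open _root_.Pool.Agent.ME

open _root_.MU3 _root_.Pool.Agent.MU3A _root_.Pool.Agent.MU3B _root_.Pool.Agent.MUXU OnePoint

theorem ty_EXI_E (h1 : Sy_SAM_E) (h2 : Sy_BRI_E) : Sy_EXI_E := by
  intro A B h T n ι R σ hσ m hm i
  have hid : MUX.idl (A := A) (B := B) m ≠ ⊥ := by
    intro h0
    have h3 : ((m : ℕ) : OO A B) = 0 := by
      have h4 : ((m : ℕ) : OO A B) ∈ MUX.idl (A := A) (B := B) m :=
        Ideal.mem_span_singleton_self _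
      rw [h0] at h4
      exact (Ideal.mem_bot).1 h4
    have h5 := congrArg QuadraticAlgebra.re h3
    rw [QuadraticAlgebra.re_natCast, QuadraticAlgebra.re_zero] at h5
    exact hm (by exact_mod_cast h5)
  obtain ⟨a, ha, hact⟩ := T.act (MUX.idl m) hid σ hσ
  obtain ⟨b', L', om', mu, hN, hA⟩ := hact (R.b i) (R.L i) (R.om i) (R.nl i)
  obtain ⟨j, x, y, hx, hy, hxy⟩ := R.surj b' hN.b_ne
  refine ⟨j, a, mu, ?_, ?_⟩
  · exact h2 A B h σ m a (R.b i) b' (R.L i) L' (R.L j) (R.om i) om' mu (R.nl i) hN hA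
      (h1 A B h b' (R.b j) L' (R.L j) om' (R.om j) x y hN (R.nl j) hx hy hxy)
  · intro z hz
    exact (T.zeta m (MUX.idl m) a σ (R.b i) (R.L i) L' (R.om i) mu hid hσ hm le_rfl
      (R.nl i) hA z hz).2

end Pool.Agent.MUXY


end

section

/-!
# MUX, section 9, module COP (helper9): the norms of the `b_i` are prime to the conductor
-/

set_option autoImplicit false

namespace Pool.Agent.MUXY

open _root_.Pool.Agent.ME

open _root_.MU3

theorem ty_COP_E : Sy_COP_E := by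
  intro A B n ι R g t ht i
  have h1 : ((MUX.nI (R.b i)).Coprime (n ^ t)) := Nat.Coprime.pow_right t (R.cop i)
  obtain ⟨u, v, huv⟩ := Nat.isCoprime_iff_coprime.2 h1
  rw [Ideal.isCoprime_iff_exists]
  refine ⟨(u : OO A B) * ((MUX.nI (R.b i) : ℕ) : OO A B), ?_, (v : OO A B) * ((n : ℕ) : OO A B) ^ t,
    Ideal.mul_mem_left _ _ ht, ?_⟩
  · exact Ideal.mul_mem_left _ _ (Ideal.mem_span_singleton_self _)
  · have h2 := congrArg (fun z : ℤ => (z : OO A B)) huv
    push_cast at h2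
    exact h2

end Pool.Agent.MUXY


end

section

/-!
# MUX, section 9: module CON, conjugation of the symbols for all pairs of cusps at once
-/

set_option autoImplicit false

namespace Pool.Agent.MUXY

open _root_.Pool.Agent.ME

open _root_.MU3 _root_.Pool.Agent.MU3A _root_.Pool.Agent.MU3B _root_.Pool.Agent.MUXU OnePoint
open _root_.Pool.Agent.MU3F (ex)
open _root_.Pool.Agent.MUXF (Sx_ALG Sx_IDL Sx_NIM Sx_QB Sx_SMB Sx_F4 qb sumB)

theorem ty_CON_E (h1 : Sy_FIN_E) (h2 : Sy_UNJ_E) (h3 : Sy_EIC) : Sy_CON_E := by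
  intro A B hc hT n ι R g e hg0 hg1 he hcop σ hσ i
  refine ⟨?_, ?_⟩
  · have h4 := h3 A B σ g e (eiF he)
    exact ⟨h4.one, h4.mul, h4.per, h4.supp, h4.neg⟩
  have hom : ∀ k, R.om k ≠ 0 := fun k => (R.nl k).om_ne
  obtain ⟨j, -, hj, -, -, -⟩ := h1 A B hc hT n ι R g e hg0 hg1 he hcop σ hσ i ∅
  -- the statement of FIN with the index `j`
  have key : ∀ S : Finset (OnePoint ℚ × OnePoint ℚ), ∃ C : ℂ, C ≠ 0 ∧
      ∀ q ∈ S, σ (MUX.PhiI (R.b i) e q.1 q.2 / R.om i) =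
        C * (MUX.PhiI (R.b j) (fun x => σ (e x)) q.1 q.2 / R.om j) := by
    intro S
    obtain ⟨j', C, hj', hC, -, hS⟩ := h1 A B hc hT n ι R g e hg0 hg1 he hcop σ hσ i S
    have h4 : j' = j := h2 A B hc n ι R j' j (by rw [hj'.1, hj.1]) (by rw [hj'.2, hj.2])
    subst h4
    exact ⟨C, hC, hS⟩
  have main : ∃ C : ℂ, C ≠ 0 ∧ ∀ q : OnePoint ℚ × OnePoint ℚ,
      σ (MUX.PhiI (R.b i) e q.1 q.2 / R.om i) =
        C * (MUX.PhiI (R.b j) (fun x => σ (e x)) q.1 q.2 / R.om j) := by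
    by_cases h : ∃ q : OnePoint ℚ × OnePoint ℚ,
        MUX.PhiI (R.b j) (fun x => σ (e x)) q.1 q.2 / R.om j ≠ 0
    · obtain ⟨q0, hq0⟩ := h
      obtain ⟨C, hC, hS⟩ := key {q0}
      refine ⟨C, hC, fun q => ?_⟩
      classical
      obtain ⟨C', hC', hS'⟩ := key {q0, q}
      have h5 := hS q0 (by simp)
      have h6 := hS' q0 (by simp)
      have h7 := hS' q (by simp)
      have h8 : C = C' := mul_right_cancel₀ hq0 (h5.symm.trans h6)
      rw [h8]
      exact h7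
    · push Not at h
      refine ⟨1, one_ne_zero, fun q => ?_⟩
      obtain ⟨C, hC, hS⟩ := key {q}
      rw [hS q (by simp), h q, mul_zero, mul_zero]
  obtain ⟨C, hC, hall⟩ := main
  refine ⟨j, C * σ (R.om i / R.om R.i0) * (R.om R.i0 / R.om j), ?_, ?_, fun x y => ?_⟩
  · unfold ME.kapE
    rw [map_add, hj.1, hj.2]
  · refine mul_ne_zero (mul_ne_zero hC ?_) (div_ne_zero (hom _) (hom _))
    rw [Ne, map_eq_zero]
    exact div_ne_zero (hom _) (hom _)
  · have h5 : MUX.PhiI (R.b i) e x y / R.om R.i0 =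
        MUX.PhiI (R.b i) e x y / R.om i * (R.om i / R.om R.i0) := by
      have := hom i
      field_simp
    rw [h5, map_mul, hall (x, y)]
    have h6 := hom R.i0
    have h7 := hom j
    field_simp

end Pool.Agent.MUXY


end

section

/-!
# MUX, section 9, module ALP: the values of the symbols are algebraic
-/

set_option autoImplicit false

namespace Pool.Agent.MUXY

open _root_.Pool.Agent.ME

open _root_.MU3 _root_.Pool.Agent.MU3A _root_.Pool.Agent.MU3B _root_.Pool.Agent.MUXU OnePoint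
open _root_.Pool.Agent.MU3F (ex)
open _root_.Pool.Agent.MUXF (Sx_ALG Sx_IDL Sx_NIM Sx_QB Sx_SMB Sx_F4 qb sumB)

namespace Y_ALP

end Y_ALP

open _root_.Pool.Agent.MUXY.Y_ALP in
theorem ty_ALP_E (h1 : Sy_FIN_E) (h2 : Sy_FEC) (h3 : Sy_ALM_E) (h4 : Su_AUT) : Sy_ALP_E := by
  intro A B hc hT n ι hι R g e hg0 hg1 he hcop r hr hroot i x y
  obtain ⟨hE, hZ⟩ := h2 A B e r hr hroot
  have hP : IsAlgebraic ℚ (MUX.PhiI (R.b i) e x y / R.om i) := by
    refine h4 (kk A B) (kk_alg hc) _ ?_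
    have hfin := (((Set.finite_univ (α := ι)).prod (hE.prod (hZ.prod hZ))).image
      (fun q : ι × (OO A B → ℂ) × ℂ × ℂ =>
        (MUX.nI (R.b i) : ℂ) * q.2.2.1 / (MUX.nI (R.b q.1) * q.2.2.2) *
          (MUX.PhiI (R.b q.1) q.2.1 x y / R.om q.1)))
    refine hfin.subset ?_
    rintro z ⟨σ, hσ, rfl⟩
    have hfix : MUX.FixK A B σ := hσ _ (wC_mem A B)
    obtain ⟨j, C, -, -, ⟨x₁, x₂, -, -, hC⟩, hS⟩ :=
      h1 A B hc hT n ι R g e hg0 hg1 he hcop σ hfix i {(x, y)}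
    refine ⟨(j, (fun x => σ (e x)), σ (e x₁), σ (e x₂)),
      ⟨Set.mem_univ _, ⟨σ, rfl⟩, ⟨σ, x₁, rfl⟩, ⟨σ, x₂, rfl⟩⟩, ?_⟩
    have h5 := hS (x, y) (Finset.mem_singleton_self _)
    simp only at h5 ⊢
    rw [h5, hC]
  refine ⟨hP, ?_⟩
  have h6 := (h3 A B hc hT n ι hι R i).2
  have h7 : MUX.PhiI (R.b i) e x y / R.om R.i0 =
      MUX.PhiI (R.b i) e x y / R.om i * (R.om i / R.om R.i0) := by
    have h8 : R.om i ≠ 0 := (R.nl i).om_ne
    field_simp
  rw [h7]
  exact hP.mul h6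

end Pool.Agent.MUXY


end

section

/-!
# MUX-NS, block IN, module NRX: the norm relation from `K₀_n` to `K₀_m` (proof: helper61, `MUX/K_NRX.lean`)
-/

set_option autoImplicit false

open NumberField IsDedekindDomain Finset
open scoped nonZeroDivisors Pointwise

namespace Pool.Agent.NSI

open _root_.Pool.Agent.RI _root_.Pool.Agent.RID _root_.Pool.Agent.MU3 _root_.Pool.Agent.MUXK

/-- the norm relation -/
theorem tn_NRX (h1 : Sn_NR1) (h2 : S_RSX) : Sn_NRX := by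
  intro p _ k K₀ K B _ _ _ _ hS hk hk₀ S c c₀ n₁ hI m n hm hmn
  have hfin : FiniteDimensional ℚ K₀ :=
    FiniteDimensional.of_injective (IntermediateField.inclusion hS.le).toLinearMap
      (IntermediateField.inclusion hS.le).injective
  induction n, hmn using Nat.le_induction with
  | base =>
    intro γ hγ
    refine ⟨1, one_mem K₀, one_ne_zero, ?_⟩
    rw [Nat.sub_self, pow_zero, Finset.prod_range_one, mul_zero, pow_zero, one_mul]
    rfl
  | succ n hmn ih =>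
    intro γ hγ
    have hle : K₀ ⊔ B n ≤ K₀ ⊔ B (n + 1) := sup_le_sup le_rfl (hS.b0.mono (Nat.le_succ n))
    obtain ⟨r, hr, hfix, -⟩ := h2 p k K₀ B hS.b0 hS.cop n (n + 1) (Nat.le_succ n) (hk₀ (n + 1))
      (hk₀ n) hle
    obtain ⟨hf1, hf2⟩ := hfix γ hγ
    obtain ⟨C, hC, hC0, hCe⟩ := h1 p k K₀ K B hS hk hk₀ S c c₀ n₁ hI n (hm.trans hmn)
      (γ ^ (p ^ n)) hf2
    obtain ⟨C', hC', hC0', hCe'⟩ := ih (r γ) hf1
    let _ := algC (hk₀ (n + 1))
    let _ := algC (hk₀ n)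
    have hq : p ^ m * p ^ (n - m) = p ^ n := by
      rw [← pow_add]
      congr 1
      omega
    have hr3 : p ^ (n + 1 - m) = p * p ^ (n - m) := by
      rw [Nat.sub_add_comm hmn, pow_succ, mul_comm]
    have hCmem : C ∈ K₀ ⊔ B (n + 1) := (le_sup_left : K₀ ≤ K₀ ⊔ B (n + 1)) hC
    have hstep := K_NRX.step γ (p ^ m) (p ^ (n - m)) p
      (⟨c₀ (n + 1), hI.mem₀ (n + 1)⟩ : ↥(K₀ ⊔ B (n + 1)))
      (⟨c₀ n, hle (hI.mem₀ n)⟩ : ↥(K₀ ⊔ B (n + 1))) (⟨C, hCmem⟩ : ↥(K₀ ⊔ B (n + 1)))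
      ((hγ _).mpr hC) (by
        rw [hq]
        apply Subtype.ext
        have e0 : ((∏ j ∈ range p, ((γ ^ (p ^ n)) ^ j) (⟨c₀ (n + 1), hI.mem₀ (n + 1)⟩ :
            ↥(K₀ ⊔ B (n + 1))) : ↥(K₀ ⊔ B (n + 1))) : ℂ) =
            ∏ j ∈ range p, ((((γ ^ (p ^ n)) ^ j) (⟨c₀ (n + 1), hI.mem₀ (n + 1)⟩ :
            ↥(K₀ ⊔ B (n + 1))) : ↥(K₀ ⊔ B (n + 1))) : ℂ) :=
          map_prod (K₀ ⊔ B (n + 1)).val _ _
        exact e0.trans hCe)
    refine ⟨C ^ (p ^ (n - m)) * C', mul_mem (pow_mem hC _) hC',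
      mul_ne_zero (pow_ne_zero _ hC0) hC0', ?_⟩
    rw [hr3, hstep]
    have hprod : ((∏ i ∈ range (p ^ (n - m)), (γ ^ (p ^ m * i)) (⟨c₀ n, hle (hI.mem₀ n)⟩ :
        ↥(K₀ ⊔ B (n + 1))) : ↥(K₀ ⊔ B (n + 1))) : ℂ) = C' * c₀ m := by
      rw [← hCe']
      have e1 : ((∏ i ∈ range (p ^ (n - m)), (γ ^ (p ^ m * i)) (⟨c₀ n, hle (hI.mem₀ n)⟩ :
          ↥(K₀ ⊔ B (n + 1))) : ↥(K₀ ⊔ B (n + 1))) : ℂ) =
          ∏ i ∈ range (p ^ (n - m)), (((γ ^ (p ^ m * i)) (⟨c₀ n, hle (hI.mem₀ n)⟩ :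
          ↥(K₀ ⊔ B (n + 1))) : ↥(K₀ ⊔ B (n + 1))) : ℂ) :=
        map_prod (K₀ ⊔ B (n + 1)).val _ _
      have e2 : ((∏ i ∈ range (p ^ (n - m)), ((r γ) ^ (p ^ m * i)) (⟨c₀ n, hI.mem₀ n⟩ :
          ↥(K₀ ⊔ B n)) : ↥(K₀ ⊔ B n)) : ℂ) =
          ∏ i ∈ range (p ^ (n - m)), ((((r γ) ^ (p ^ m * i)) (⟨c₀ n, hI.mem₀ n⟩ :
          ↥(K₀ ⊔ B n)) : ↥(K₀ ⊔ B n)) : ℂ) :=
        map_prod (K₀ ⊔ B n).val _ _
      rw [e1]
      refine Eq.trans ?_ e2.symm
      refine Finset.prod_congr rfl fun i _ => ?_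
      rw [← map_pow, hr]
    have hcoe : ∀ (x y : ↥(K₀ ⊔ B (n + 1))),
        ((x * y : ↥(K₀ ⊔ B (n + 1))) : ℂ) = (x : ℂ) * (y : ℂ) :=
      fun x y => rfl
    rw [hcoe, hprod]
    push_cast
    ring

end Pool.Agent.NSI


end

section

/-!
# ME: the final theorems for `D = -3, -4`, from the main theorem for ray class fields to fields contained in a ray class field (helper21)
-/

set_option autoImplicit false

open NumberField IsDedekindDomain

namespace Pool.Agent.ME2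

open _root_.MU3 _root_.Pool.Agent.MU3 _root_.Pool.Agent.MU3A _root_.Pool.Agent.MU3B _root_.Pool.Agent.RI _root_.Pool.Agent.RID
  _root_.Pool.Agent.MUX _root_.Pool.Agent.MUXK _root_.Pool.Agent.MUXE _root_.Pool.Agent.MUXJ _root_.Pool.Agent.NSZ
open _root_.Pool.Agent.ME hiding ActE

/-- `F` over itself -/
theorem ext_self (F : IntermediateField ℚ ℂ) :
    IsGalois F (IntermediateField.extendScalars (le_refl F)) ∧
    Module.finrank F (IntermediateField.extendScalars (le_refl F)) = 1 := by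
  have e : IntermediateField.extendScalars (le_refl F) = ⊥ := by
    rw [eq_bot_iff]
    intro x hx
    rw [IntermediateField.mem_bot]
    exact ⟨⟨x, hx⟩, rfl⟩
  rw [e]
  exact ⟨inferInstance, IntermediateField.finrank_bot⟩

/-- the bound for a field which is contained in a ray class field, from the main theorem -/
theorem fin_of {p : ℕ} {A B : ℤ}
    (hmain : ∀ (F M K : IntermediateField ℚ ℂ) [FiniteDimensional ℚ M] (_ : kk A B ≤ F)
      (h : F ≤ M) (a : ℕ), TorU_E A B F → IsGalois F (IntermediateField.extendScalars h) →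
      Module.finrank F (IntermediateField.extendScalars h) = p ^ a → K ≤ M →
      ∃ C : ℕ, ∀ (n : ℕ) (Q : IntermediateField ℚ ℂ), IsLayer p n Q →
        padicValNat p (classNo (K ⊔ Q)) ≤ C * (n + 1) ^ C)
    (K : IntermediateField ℚ ℂ) [FiniteDimensional ℚ K] (hk : kk A B ≤ K) (hTU : TorU_E A B K) :
    ∃ C : ℕ, ∀ (n : ℕ) (Q : IntermediateField ℚ ℂ), IsLayer p n Q →
      padicValNat p (classNo (K ⊔ Q)) ≤ C * (n + 1) ^ C := by
  obtain ⟨h1, h2⟩ := ext_self K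
  exact hmain K K K hk le_rfl 0 hTU h1 (by rw [h2, pow_zero]) le_rfl

end Pool.Agent.ME2


end
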