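import Mathlib
import Pool.Agent.MVF.C004

/-! Parts: MuW2.Const, MuW2.Ihara, NS.Y_Sheet, NS.Y_Eqv, NS.Y_Hfun -/

namespace Pool.Agent.MuW2
end Pool.Agent.MuW2

section

/-!
Functions on the multiplicative group of a finite field with a second difference relation along
the map `y ↦ (1 - y) / (w - y)` are constant. Dirichlet's theorem with two moduli.
-/

open Finset

namespace Pool.Agent.MuW2

section Const

variable {K : Type} [Field K] [Fintype K] [DecidableEq K] {F : Type} [Field F]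

/-- The relations of the function `f`. -/
def Rel (w : Kˣ) (f : Kˣ → F) : Prop :=
  (∀ t, f (w * t) = f t) ∧ ∀ t y r : Kˣ, y ≠ 1 → y ≠ w → (r : K) * (w - y) = 1 - y →
    f (t * y) - f t = f (t * r * y) - f (t * r)

/-- The map `y ↦ (1 - y) / (w - y)`. -/
noncomputable def rho (w y : Kˣ) : Kˣ :=
  if h : (1 - (y : K)) / (w - y) ≠ 0 then Units.mk0 _ h else 1

omit [Fintype K] in
lemma rho_spec {w y : Kˣ} (h1 : y ≠ 1) (hw : y ≠ w) : (rho w y : K) * (w - y) = 1 - y := by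
  have e1 : (1 - (y : K)) ≠ 0 := by
    intro h
    exact h1 (Units.ext (by rw [Units.val_one]; exact (sub_eq_zero.mp h).symm))
  have e2 : ((w : K) - y) ≠ 0 := by
    intro h
    exact hw (Units.ext (sub_eq_zero.mp h).symm)
  have e3 : (1 - (y : K)) / (w - y) ≠ 0 := div_ne_zero e1 e2
  rw [rho, dif_pos e3, Units.val_mk0, div_mul_cancel₀ _ e2]

omit [Fintype K] in
lemma rho_inj {w y y' : Kˣ} (hw1 : w ≠ 1) (h1 : y ≠ 1) (hw : y ≠ w) (h1' : y' ≠ 1) (hw' : y' ≠ w)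
    (h : rho w y = rho w y') : y = y' := by
  have e := rho_spec h1 hw
  have e' := rho_spec h1' hw'
  rw [h] at e
  have e2 : ((w : K) - y) ≠ 0 := by
    intro h
    exact hw (Units.ext (sub_eq_zero.mp h).symm)
  have e3 : (w : K) - 1 ≠ 0 := by
    intro h
    exact hw1 (Units.ext (by rw [Units.val_one]; exact sub_eq_zero.mp h))
  have e4 : ((w : K) - 1) * (y - y') = 0 := by
    have h5 : (rho w y' : K) * (w - y) * (w - y') = (1 - y) * (w - y') := by rw [e]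
    have h6 : (rho w y' : K) * (w - y') * (w - y) = (1 - y') * (w - y) := by rw [e']
    linear_combination h5 - h6
  have e5 := (mul_eq_zero.mp e4).resolve_left e3
  exact Units.ext (sub_eq_zero.mp e5)

theorem const_aux {w : Kˣ} (hw : w ≠ 1) (hcard : ((Fintype.card Kˣ : ℕ) : F) ≠ 0) (n : ℕ) :
    ∀ f : Kˣ → F, Rel w f → (∃ T : Finset Kˣ, T.card ≤ n ∧ ∀ s ∉ T, ∀ t, f (s * t) = f t) →
      ∀ t, f t = f 1 := by
  classical
  induction n with
  | zero =>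
    rintro f _ ⟨T, hT, hT2⟩ t
    have hT0 : T = ∅ := card_eq_zero.mp (by omega)
    have h1 := hT2 t (by rw [hT0]; exact notMem_empty _) 1
    rw [mul_one] at h1
    exact h1
  | succ n ih =>
    rintro f hf ⟨T0, hT0, hT02⟩ t
    by_cases hall : ∀ s t, f (s * t) = f t
    · have h1 := hall t 1
      rw [mul_one] at h1
      exact h1
    exfalso
    push Not at hall
    obtain ⟨z, tz, hz⟩ := hall
    let S : Finset Kˣ := univ.filter fun s => ∀ t, f (s * t) = f t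
    let T : Finset Kˣ := univ.filter fun s => ¬ ∀ t, f (s * t) = f t
    have hTT0 : T ⊆ T0 := by
      intro s hs
      by_contra hcon
      exact (mem_filter.mp hs).2 (hT02 s hcon)
    have h1 : S.card ≤ T.card := by
      apply card_le_card_of_injOn (fun s => z * s)
      · intro s hs
        have hs' : ∀ t, f (s * t) = f t := (mem_filter.mp hs).2
        simp only [T, coe_filter, mem_univ, true_and, Set.mem_ofPred_eq]
        intro hcon
        apply hz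
        have h2 := hcon (s⁻¹ * tz)
        have h3 := hs' (s⁻¹ * tz)
        rw [mul_inv_cancel_left] at h3
        rw [mul_assoc, mul_inv_cancel_left] at h2
        rw [h2, ← h3]
      · intro s _ s' _ hss
        exact mul_left_cancel hss
    have h1S : (1 : Kˣ) ∈ S := by
      simp [S]
    have hwS : w ∈ S := by
      simp only [S, mem_filter, mem_univ, true_and]
      exact hf.1
    have hne : ∀ y ∈ T, y ≠ 1 ∧ y ≠ w := by
      intro y hy
      constructor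
      · rintro rfl
        exact (mem_filter.mp hy).2 (mem_filter.mp h1S).2
      · rintro rfl
        exact (mem_filter.mp hy).2 (mem_filter.mp hwS).2
    have h2 : ∃ y ∈ T, rho w y ∈ T := by
      by_contra hcon
      push Not at hcon
      have h3 : T.card ≤ (S.erase 1).card := by
        apply card_le_card_of_injOn (fun y => rho w y)
        · intro y hy
          have hy' := hcon y hy
          rw [mem_coe, mem_erase]
          constructor
          · intro h4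
            change rho w y = 1 at h4
            have h5 := rho_spec (hne y hy).1 (hne y hy).2
            rw [h4, Units.val_one, one_mul] at h5
            apply hw
            apply Units.ext
            rw [Units.val_one]
            linear_combination h5
          · simp only [S, mem_filter, mem_univ, true_and]
            by_contra h6
            apply hy'
            simp only [T, mem_filter, mem_univ, true_and]
            exact h6
        · intro y hy y' hy' hyy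
          exact rho_inj hw (hne y hy).1 (hne y hy).2 (hne y' hy').1 (hne y' hy').2 hyy
      rw [card_erase_of_mem h1S] at h3
      have h4 : 0 < S.card := card_pos.mpr ⟨1, h1S⟩
      omega
    obtain ⟨y, hy, hr⟩ := h2
    set r := rho w y with hrdef
    have hrel : ∀ t, f (t * y) - f t = f (t * r * y) - f (t * r) := fun t =>
      hf.2 t y r (hne y hy).1 (hne y hy).2 (rho_spec (hne y hy).1 (hne y hy).2)
    let f1 : Kˣ → F := fun t => f (t * r) - f t
    have hf1 : Rel w f1 := by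
      constructor
      · intro t
        change f (w * t * r) - f (w * t) = f (t * r) - f t
        rw [mul_assoc, hf.1, hf.1]
      · intro t y' r' h3 h4 h5
        change f (t * y' * r) - f (t * y') - (f (t * r) - f t) =
          f (t * r' * y' * r) - f (t * r' * y') - (f (t * r' * r) - f (t * r'))
        have e1 := hf.2 t y' r' h3 h4 h5
        have e2 := hf.2 (t * r) y' r' h3 h4 h5
        rw [show t * r * y' = t * y' * r by rw [mul_right_comm], show t * r * r' * y' = t * r' * y' * r by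
          rw [mul_right_comm t r r', mul_right_comm (t * r') r y'],
          show t * r * r' = t * r' * r by rw [mul_right_comm]] at e2
        linear_combination e2 - e1
    have hconst := ih f1 hf1 ⟨T.erase y, by
      rw [card_erase_of_mem hy]
      have := card_le_card hTT0
      omega, by
      intro s hs t
      change f (s * t * r) - f (s * t) = f (t * r) - f t
      rw [mem_erase] at hs
      push Not at hs
      by_cases hsy : s = y
      · subst hsy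
        have := hrel t
        rw [mul_comm s t, mul_right_comm t s r]
        linear_combination -this
      · have hsT := hs hsy
        have hsS : ∀ t, f (s * t) = f t := by
          by_contra h6
          apply hsT
          simp only [T, mem_filter, mem_univ, true_and]
          exact h6
        rw [mul_assoc, hsS, hsS]⟩
    have hr2 : ¬ ∀ t, f (r * t) = f t := (mem_filter.mp hr).2
    push Not at hr2
    obtain ⟨t0, ht0⟩ := hr2
    have hne0 : f1 t0 ≠ 0 := by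
      change f (t0 * r) - f t0 ≠ 0
      rw [mul_comm]
      exact sub_ne_zero.mpr ht0
    have hsum : ∑ t, f1 t = 0 := by
      change ∑ t, (f (t * r) - f t) = 0
      rw [sum_sub_distrib, sub_eq_zero]
      exact Equiv.sum_comp (Equiv.mulRight r) f
    have hsum2 : ∑ t, f1 t = ((Fintype.card Kˣ : ℕ) : F) * f1 1 := by
      rw [sum_congr rfl (fun t _ => hconst t), sum_const, nsmul_eq_mul, card_univ]
    rw [hsum] at hsum2
    have h7 := (mul_eq_zero.mp hsum2.symm).resolve_left hcard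
    rw [hconst t0, h7] at hne0
    exact hne0 rfl

theorem const_of_rel {w : Kˣ} (hw : w ≠ 1) (hcard : ((Fintype.card Kˣ : ℕ) : F) ≠ 0)
    {f : Kˣ → F} (hf : Rel w f) (t : Kˣ) : f t = f 1 := by
  classical
  exact const_aux hw hcard (univ : Finset Kˣ).card f hf
    ⟨univ, le_rfl, fun s hs => absurd (mem_univ s) hs⟩ t

end Const

section Dirichlet

lemma crt {m₁ m₂ : ℤ} (h : IsCoprime m₁ m₂) (x₁ x₂ : ℤ) : ∃ x, m₁ ∣ x - x₁ ∧ m₂ ∣ x - x₂ := by
  obtain ⟨r, s, hrs⟩ := h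
  refine ⟨x₁ * s * m₂ + x₂ * r * m₁, ⟨(x₂ - x₁) * r, ?_⟩, ⟨(x₁ - x₂) * s, ?_⟩⟩
  · linear_combination x₁ * hrs
  · linear_combination x₂ * hrs

lemma dir {m : ℕ} (hm : m ≠ 0) {x : ℤ} (hx : IsCoprime x (m : ℤ)) (n : ℕ) :
    ∃ q : ℕ, n < q ∧ q.Prime ∧ (m : ℤ) ∣ q - x := by
  have : NeZero m := ⟨hm⟩
  have hu : IsUnit (x : ZMod m) := (ZMod.coe_int_isUnit_iff_isCoprime x m).mpr hx.symm
  obtain ⟨q, hq, hqp, hqx⟩ := Nat.forall_exists_prime_gt_and_eq_mod hu n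
  refine ⟨q, hq, hqp, ?_⟩
  rw [← ZMod.intCast_zmod_eq_zero_iff_dvd]
  push_cast
  rw [hqx, sub_self]

lemma coprime_of_dvd_sub {m x y : ℤ} (h : m ∣ x - y) (hy : IsCoprime y m) : IsCoprime x m := by
  obtain ⟨t, ht⟩ := h
  have : x = y + m * t := by linear_combination ht
  rw [this]
  exact hy.add_mul_left_left t

lemma dir2 {m₁ m₂ : ℕ} (h1 : m₁ ≠ 0) (h2 : m₂ ≠ 0) (hm : IsCoprime (m₁ : ℤ) m₂) {x₁ x₂ : ℤ}
    (hx1 : IsCoprime x₁ (m₁ : ℤ)) (hx2 : IsCoprime x₂ (m₂ : ℤ)) (n : ℕ) :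
    ∃ q : ℕ, n < q ∧ q.Prime ∧ (m₁ : ℤ) ∣ q - x₁ ∧ (m₂ : ℤ) ∣ q - x₂ := by
  obtain ⟨x, hx, hx'⟩ := crt hm x₁ x₂
  have hc : IsCoprime x ((m₁ * m₂ : ℕ) : ℤ) := by
    push_cast
    exact (coprime_of_dvd_sub hx hx1).mul_right (coprime_of_dvd_sub hx' hx2)
  obtain ⟨q, hq, hqp, hqx⟩ := dir (mul_ne_zero h1 h2) hc n
  push_cast at hqx
  refine ⟨q, hq, hqp, ?_, ?_⟩
  · have : (q : ℤ) - x₁ = (q - x) + (x - x₁) := by ring
    rw [this]
    exact dvd_add ((dvd_mul_right _ _).trans hqx) hx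
  · have : (q : ℤ) - x₂ = (q - x) + (x - x₂) := by ring
    rw [this]
    exact dvd_add ((dvd_mul_left _ _).trans hqx) hx'

end Dirichlet

end Pool.Agent.MuW2


end

section

/-!
Ihara's lemma in characteristic `p` for `Γ₀(N)`, `N` prime to `p`, `p` odd: a function on the orbit
of `0` which is a cocycle for `Γ₀(N)`, periodic, and homogeneous for the multiplication by `p`,
depends only on the denominator.
-/

open Finset

namespace Pool.Agent.MuW2

variable {F : Type} [Field F] {p N : ℕ}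

/-- The hypotheses. -/
structure Hyp (p N : ℕ) (ε : DirichletCharacter F N) (β : F) (h : ℚ → F) : Prop where
  hp : p.Prime
  hN : N ≠ 0
  hpN : p.Coprime N
  hβ : β ≠ 0
  h0 : h 0 = 0
  per : ∀ b d : ℤ, d ≠ 0 → IsCoprime d (N : ℤ) → h ((b : ℚ) / d + 1) = h ((b : ℚ) / d)
  eqv : ∀ a b c d : ℤ, a * d - b * c = 1 → (N : ℤ) ∣ c → ∀ u v : ℤ, v ≠ 0 →
    IsCoprime v (N : ℤ) → d ≠ 0 → c * u + d * v ≠ 0 →
    h (((a * u + b * v : ℤ) : ℚ) / ((c * u + d * v : ℤ) : ℚ)) =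
      h ((b : ℚ) / d) + ε d * h ((u : ℚ) / v)
  sc : ∀ u v : ℤ, v ≠ 0 → IsCoprime v (N : ℤ) → h (p * ((u : ℚ) / v)) = β⁻¹ * h ((u : ℚ) / v)

variable {ε : DirichletCharacter F N} {β : F} {h : ℚ → F}

lemma not_dvd_level' (hp : p.Prime) (hpN : p.Coprime N) : ¬ (p : ℤ) ∣ N := by
  intro h
  have h1 : p ∣ N := by exact_mod_cast h
  exact (hp.coprime_iff_not_dvd.mp hpN) h1

lemma Hyp.per_int (H : Hyp p N ε β h) (b d n : ℤ) (hd : d ≠ 0) (hdN : IsCoprime d (N : ℤ)) :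
    h (((b + n * d : ℤ) : ℚ) / d) = h ((b : ℚ) / d) := by
  have hdQ : (d : ℚ) ≠ 0 := by exact_mod_cast hd
  have step : ∀ m : ℤ, h (((b + (m + 1) * d : ℤ) : ℚ) / d) = h (((b + m * d : ℤ) : ℚ) / d) := by
    intro m
    rw [← H.per (b + m * d) d hd hdN]
    congr 1
    push_cast
    field_simp
    ring
  induction n using Int.induction_on with
  | zero => simp
  | succ n ih => rw [step, ih]
  | pred n ih =>
    rw [← ih, ← step (-(n : ℤ) - 1)]
    congr 4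
    ring

lemma Hyp.congr (H : Hyp p N ε β h) {b d n : ℤ} (hd : d ≠ 0) (hdN : IsCoprime d (N : ℤ))
    (hn : d ∣ n - b) : h ((n : ℚ) / d) = h ((b : ℚ) / d) := by
  obtain ⟨m, hm⟩ := hn
  rw [← H.per_int b d m hd hdN]
  congr 3
  linear_combination hm

lemma Hyp.low (H : Hyp p N ε β h) {b d d' : ℤ} (hd : d ≠ 0) (hd' : d' ≠ 0)
    (hdN : IsCoprime d (N : ℤ)) (hdd : (N : ℤ) * b ∣ d' - d) :
    h ((b : ℚ) / d') = h ((b : ℚ) / d) := by
  obtain ⟨x, hx⟩ := hdd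
  have hd2 : d' = N * x * b + 1 * d := by linear_combination hx
  have h1 := H.eqv 1 0 (N * x) 1 (by ring) (dvd_mul_right _ _) b d hd hdN one_ne_zero
    (by rw [← hd2]; exact hd')
  rw [← hd2] at h1
  have e1 : ((0 : ℤ) : ℚ) / ((1 : ℤ) : ℚ) = 0 := by simp
  have e2 : ε (((1 : ℤ) : ℤ) : ZMod N) = 1 := by
    push_cast
    exact map_one ε
  rw [e1, H.h0, e2, zero_add, one_mul] at h1
  simpa using h1

lemma Hyp.sc_pow (H : Hyp p N ε β h) {u v : ℤ} (hv : v ≠ 0) (hvN : IsCoprime v (N : ℤ)) (j : ℕ) :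
    h (((u * (p : ℤ) ^ j : ℤ) : ℚ) / v) = β⁻¹ ^ j * h ((u : ℚ) / v) := by
  induction j with
  | zero => simp
  | succ j ih =>
    rw [pow_succ' β⁻¹, mul_assoc, ← ih, ← H.sc _ _ hv hvN]
    congr 1
    push_cast
    ring

lemma Hyp.sc_den (H : Hyp p N ε β h) {u v : ℤ} (hv : v ≠ 0) (hvN : IsCoprime v (N : ℤ)) (j : ℕ) :
    h ((u : ℚ) / ((p ^ j * v : ℤ) : ℚ)) = β ^ j * h ((u : ℚ) / v) := by
  have hp0 : (p : ℤ) ≠ 0 := by exact_mod_cast H.hp.ne_zero
  have hpQ : (p : ℚ) ≠ 0 := by exact_mod_cast H.hp.ne_zero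
  have hvQ : (v : ℚ) ≠ 0 := by exact_mod_cast hv
  have hpc : IsCoprime ((p : ℤ) ^ j) (N : ℤ) :=
    (Nat.isCoprime_iff_coprime.mpr H.hpN).pow_left
  have h1 := H.sc_pow (u := u) (mul_ne_zero (pow_ne_zero j hp0) hv) (hpc.mul_left hvN) j
  have e1 : ((u * (p : ℤ) ^ j : ℤ) : ℚ) / ((p ^ j * v : ℤ) : ℚ) = (u : ℚ) / v := by
    push_cast
    field_simp
  rw [e1] at h1
  rw [h1, ← mul_assoc, ← mul_pow, mul_inv_cancel₀ H.hβ, one_pow, one_mul]

lemma exists_order (hp : p.Prime) {m : ℤ} (hm : ¬ (p : ℤ) ∣ m) :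
    ∃ J : ℕ, 0 < J ∧ m ∣ (p : ℤ) ^ J - 1 := by
  have hm0 : m ≠ 0 := by
    rintro rfl
    simp at hm
  have hpm : Nat.Coprime p m.natAbs := by
    rw [hp.coprime_iff_not_dvd]
    intro hcon
    exact hm (Int.natCast_dvd.mpr hcon)
  have htot := Nat.ModEq.pow_totient hpm
  refine ⟨_, Nat.totient_pos.mpr (Int.natAbs_pos.mpr hm0), ?_⟩
  have h3 := (Nat.modEq_iff_dvd.mp htot)
  rw [← Int.natAbs_dvd, ← dvd_neg]
  have h4 : ((m.natAbs : ℕ) : ℤ) ∣ ((1 : ℕ) : ℤ) - ((p ^ Nat.totient m.natAbs : ℕ) : ℤ) := h3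
  push_cast at h4 ⊢
  rw [neg_sub]
  exact h4

lemma dvd_pow_mul_sub {m x : ℤ} {J : ℕ} (h : m ∣ x ^ J - 1) (k : ℕ) : m ∣ x ^ (J * k) - 1 := by
  rw [pow_mul]
  have h1 := sub_dvd_pow_sub_pow (x ^ J) 1 k
  rw [one_pow] at h1
  exact h.trans h1

lemma Hyp.beta_pow (H : Hyp p N ε β h) {b d : ℤ} (hd : d ≠ 0) (hdN : IsCoprime d (N : ℤ))
    (hne : h ((b : ℚ) / d) ≠ 0) : ∃ J : ℕ, 0 < J ∧ β ^ J = 1 := by
  have hp0 : (p : ℤ) ≠ 0 := by exact_mod_cast H.hp.ne_zero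
  have hpp : Prime (p : ℤ) := Nat.prime_iff_prime_int.mp H.hp
  have hb0 : b ≠ 0 := by
    rintro rfl
    apply hne
    rw [Int.cast_zero, zero_div, H.h0]
  obtain ⟨s, b', hb', hbb⟩ : ∃ (s : ℕ) (b' : ℤ), ¬ (p : ℤ) ∣ b' ∧ b = b' * (p : ℤ) ^ s := by
    have hfin : FiniteMultiplicity (p : ℤ) b := by
      apply Int.finiteMultiplicity_iff.mpr
      exact ⟨by simpa using H.hp.ne_one, hb0⟩
    obtain ⟨m, hm1, hm2⟩ := hfin.exists_eq_pow_mul_and_not_dvd
    exact ⟨_, m, hm2, by rw [mul_comm]; exact hm1⟩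
  have hne' : h ((b' : ℚ) / d) ≠ 0 := by
    intro hcon
    apply hne
    rw [hbb, H.sc_pow hd hdN, hcon, mul_zero]
  obtain ⟨J, hJ0, hJ⟩ := exists_order H.hp (m := N * b') (by
    intro hcon
    rcases hpp.dvd_or_dvd hcon with h1 | h1
    · exact not_dvd_level' H.hp H.hpN h1
    · exact hb' h1)
  refine ⟨J, hJ0, ?_⟩
  have h1 := H.sc_den (u := b') hd hdN J
  have h2 := H.low (b := b') (d := d) (d' := p ^ J * d) hd (mul_ne_zero (pow_ne_zero J hp0) hd) hdN (by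
    have : (p : ℤ) ^ J * d - d = ((p : ℤ) ^ J - 1) * d := by ring
    rw [this]
    exact hJ.mul_right d)
  rw [h2] at h1
  have h3 : (β ^ J - 1) * h ((b' : ℚ) / d) = 0 := by linear_combination -h1
  exact sub_eq_zero.mp ((mul_eq_zero.mp h3).resolve_right hne')

/-- The basic relation. -/
lemma Hyp.basic (H : Hyp p N ε β h) {l : ℕ} (hl : l.Prime) {a e k : ℤ} {j : ℕ}
    (hae : (N : ℤ) * l ∣ a * e - 1) (hY : ¬ (l : ℤ) ∣ (p : ℤ) ^ j - N * k * a) :
    β⁻¹ ^ j * h ((l : ℚ) / ((e * ((p : ℤ) ^ j - N * k * a) : ℤ) : ℚ)) =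
      h ((l : ℚ) / e) + ε e * h (((N * k * l : ℤ) : ℚ) / (((p : ℤ) ^ j - N * k * a : ℤ) : ℚ)) := by
  have hll : Prime (l : ℤ) := Nat.prime_iff_prime_int.mp hl
  obtain ⟨m, hm⟩ := hae
  obtain ⟨Y, hYd⟩ : ∃ Y : ℤ, Y = (p : ℤ) ^ j - N * k * a := ⟨_, rfl⟩
  rw [← hYd] at hY ⊢
  have hY0 : Y ≠ 0 := by
    rintro rfl
    exact hY (dvd_zero _)
  have hpc : IsCoprime ((p : ℤ) ^ j) (N : ℤ) :=
    (Nat.isCoprime_iff_coprime.mpr H.hpN).pow_left
  have hYN : IsCoprime Y (N : ℤ) :=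
    coprime_of_dvd_sub ⟨-(k * a), by rw [hYd]; ring⟩ hpc
  have heN : IsCoprime e (N : ℤ) := ⟨a, -(l * m), by linear_combination hm⟩
  have hel : ¬ (l : ℤ) ∣ e := by
    intro hcon
    have : (l : ℤ) ∣ 1 := by
      have h2 : (1 : ℤ) = a * e - N * l * m := by linear_combination -hm
      rw [h2]
      exact dvd_sub (hcon.mul_left _) ⟨N * m, by ring⟩
    exact hll.not_isUnit (isUnit_of_dvd_one this)
  have he0 : e ≠ 0 := by
    rintro rfl
    exact hel (dvd_zero _)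
  have hleY : ¬ (l : ℤ) ∣ e * Y := fun hcon => (hll.dvd_or_dvd hcon).elim hel hY
  have heY0 : e * Y ≠ 0 := mul_ne_zero he0 hY0
  have hden : N * m * (N * k * l) + e * Y ≠ 0 := by
    intro hcon
    apply hleY
    have h2 : e * Y = -(N * m * (N * k * l)) := by linear_combination hcon
    rw [h2, dvd_neg]
    exact ⟨N * m * (N * k), by ring⟩
  have hcop : IsCoprime (N * m * (N * k * l) + e * Y) (N : ℤ) :=
    coprime_of_dvd_sub (y := e * Y) ⟨m * (N * k * l), by ring⟩ (heN.mul_left hYN)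
  have h1 := H.eqv a l (N * m) e (by linear_combination hm) (dvd_mul_right _ _) (N * k * l) Y hY0
    hYN he0 hden
  have e1 : a * (N * k * l) + l * Y = l * (p : ℤ) ^ j := by
    rw [hYd]
    ring
  rw [e1, H.sc_pow hden hcop] at h1
  have h2 := H.low (b := (l : ℤ)) (d := e * Y) (d' := N * m * (N * k * l) + e * Y) heY0 hden
    (heN.mul_left hYN) ⟨m * (N * k), by ring⟩
  rw [h2] at h1
  push_cast at h1 ⊢
  exact h1

/-- The same symbol expressed in two ways. -/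
lemma Hyp.twoway (H : Hyp p N ε β h) {l : ℕ} (hl : l.Prime) {a a' e e' k : ℤ} {j : ℕ}
    (hae : (N : ℤ) * l ∣ a * e - 1) (hae' : (N : ℤ) * l ∣ a' * e' - 1)
    (hk : N * k * (a' - a) = (p : ℤ) ^ j - 1) (haa : (N : ℤ) ∣ a' - a) (hβj : β ^ j = 1)
    (hY : ¬ (l : ℤ) ∣ 1 - N * k * a) :
    h ((l : ℚ) / ((e * (1 - N * k * a) : ℤ) : ℚ)) - h ((l : ℚ) / e) =
      h ((l : ℚ) / ((e' * (1 - N * k * a) : ℤ) : ℚ)) - h ((l : ℚ) / e') := by
  have hY1 : (p : ℤ) ^ 0 - N * k * a = 1 - N * k * a := by rw [pow_zero]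
  have hY2 : (p : ℤ) ^ j - N * k * a' = 1 - N * k * a := by linear_combination -hk
  have h1 := H.basic hl (j := 0) hae (by rw [hY1]; exact hY)
  have h2 := H.basic hl (j := j) hae' (by rw [hY2]; exact hY)
  rw [hY1, pow_zero, one_mul] at h1
  rw [hY2, inv_pow, hβj, inv_one, one_mul] at h2
  have he : ((e : ℤ) : ZMod N) = ((e' : ℤ) : ZMod N) := by
    have q1 : ((a : ℤ) : ZMod N) * e = 1 := by
      have := (ZMod.intCast_zmod_eq_zero_iff_dvd _ N).mpr ((dvd_mul_right _ _).trans hae)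
      push_cast at this
      linear_combination this
    have q2 : ((a' : ℤ) : ZMod N) * e' = 1 := by
      have := (ZMod.intCast_zmod_eq_zero_iff_dvd _ N).mpr ((dvd_mul_right _ _).trans hae')
      push_cast at this
      linear_combination this
    have q3 : ((a' : ℤ) : ZMod N) = a := by
      have := (ZMod.intCast_zmod_eq_zero_iff_dvd _ N).mpr haa
      push_cast at this
      linear_combination this
    rw [q3] at q2
    linear_combination (e' : ZMod N) * q1 - (e : ZMod N) * q2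
  rw [he] at h1
  rw [h1, h2]
  ring

lemma isCoprime_natCast_of_not_dvd {l : ℕ} (hl : l.Prime) {x : ℤ} (h : ¬ (l : ℤ) ∣ x) :
    IsCoprime x (l : ℤ) :=
  ((Nat.prime_iff_prime_int.mp hl).coprime_iff_not_dvd.mpr h).symm

lemma zmod_eq_iff {l : ℕ} {x y : ℤ} : ((x : ℤ) : ZMod l) = y ↔ (l : ℤ) ∣ x - y := by
  rw [← ZMod.intCast_zmod_eq_zero_iff_dvd, Int.cast_sub, sub_eq_zero]

lemma exists_inverse {m e : ℤ} (h : IsCoprime e m) : ∃ a : ℤ, m ∣ a * e - 1 := by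
  obtain ⟨a, b, hab⟩ := h
  exact ⟨a, -b, by linear_combination hab⟩

/-- For a large prime `l` the value at `l / D` depends on the class of `D` modulo `N` only. -/
theorem Hyp.numl (H : Hyp p N ε β h) {l J : ℕ} (hl : l.Prime) (hJβ : β ^ J = 1)
    (hJN : (N : ℤ) ^ 2 ∣ (p : ℤ) ^ J - 1) (hJ0 : 0 < J) (hlF : (l : F) ≠ 1) (hlN : N < l)
    (hlJ : p ^ (2 * J) < l) {D D' : ℤ} (hD : IsCoprime D (N : ℤ)) (hDl : ¬ (l : ℤ) ∣ D)
    (hDl' : ¬ (l : ℤ) ∣ D') (hDD : (N : ℤ) ∣ D - D') :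
    h ((l : ℚ) / D) = h ((l : ℚ) / D') := by
  classical
  have : Fact l.Prime := ⟨hl⟩
  have hll : Prime (l : ℤ) := Nat.prime_iff_prime_int.mp hl
  have hp2 := H.hp.two_le
  have hpl : p < l := by
    refine lt_of_le_of_lt ?_ hlJ
    calc p = p ^ 1 := (pow_one p).symm
      _ ≤ p ^ (2 * J) := Nat.pow_le_pow_right (by omega) (by omega)
  have hl2 : 2 < l := by omega
  have hNpos : 0 < N := Nat.pos_of_ne_zero H.hN
  have hNl : ¬ (l : ℤ) ∣ N := by
    intro hcon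
    have h1 : l ∣ N := by exact_mod_cast hcon
    have := Nat.le_of_dvd hNpos h1
    omega
  have hNlc : IsCoprime (N : ℤ) (l : ℤ) := isCoprime_natCast_of_not_dvd hl hNl
  have hNK : ((N : ℤ) : ZMod l) ≠ 0 := by
    intro hcon
    exact hNl ((ZMod.intCast_zmod_eq_zero_iff_dvd _ _).mp hcon)
  have hpK : (p : ZMod l) ≠ 0 := by
    intro hcon
    have h1 := (ZMod.natCast_eq_zero_iff _ _).mp hcon
    have := Nat.le_of_dvd H.hp.pos h1
    omega
  -- dependence on the class modulo `N l`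
  have hcls : ∀ e e' : ℤ, IsCoprime e (N : ℤ) → ¬ (l : ℤ) ∣ e → (N : ℤ) ∣ e' - e →
      (l : ℤ) ∣ e' - e → h ((l : ℚ) / e') = h ((l : ℚ) / e) := by
    intro e e' h1 h2 h3 h4
    have h5 : (N : ℤ) * (l : ℤ) ∣ e' - e := hNlc.mul_dvd h3 h4
    have he0 : e ≠ 0 := by
      rintro rfl
      exact h2 (dvd_zero _)
    have he0' : e' ≠ 0 := by
      rintro rfl
      apply h2
      rw [zero_sub, dvd_neg] at h4
      exact h4
    have := H.low (b := (l : ℤ)) he0 he0' h1 h5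
    push_cast at this
    exact this
  have hch : ∀ t : (ZMod l)ˣ, ∃ e : ℤ, (N : ℤ) ∣ e - D ∧ ((e : ℤ) : ZMod l) = t := by
    intro t
    obtain ⟨x, hx1, hx2⟩ := crt hNlc D ((t : ZMod l).val : ℤ)
    refine ⟨x, hx1, ?_⟩
    rw [← zmod_eq_iff] at hx2
    rw [hx2]
    simp
  choose E hE1 hE2 using hch
  have hEN : ∀ t, IsCoprime (E t) (N : ℤ) := fun t => coprime_of_dvd_sub (hE1 t) hD
  have hEl : ∀ t, ¬ (l : ℤ) ∣ E t := by
    intro t hcon
    have h1 := (ZMod.intCast_zmod_eq_zero_iff_dvd _ _).mpr hcon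
    rw [hE2 t] at h1
    exact t.ne_zero h1
  let f : (ZMod l)ˣ → F := fun t => h ((l : ℚ) / ((E t : ℤ) : ℚ))
  have hf : ∀ (t : (ZMod l)ˣ) (e : ℤ), (N : ℤ) ∣ e - D → ((e : ℤ) : ZMod l) = t →
      h ((l : ℚ) / ((e : ℤ) : ℚ)) = f t := by
    intro t e h1 h2
    apply hcls (E t) e (hEN t) (hEl t)
    · have : e - E t = (e - D) - (E t - D) := by ring
      rw [this]
      exact dvd_sub h1 (hE1 t)
    · rw [← zmod_eq_iff, h2, hE2]
  have hpu : IsUnit ((p : ZMod l) ^ (2 * J)) := (pow_ne_zero _ hpK).isUnit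
  obtain ⟨w, hw⟩ := hpu
  have hw1 : w ≠ 1 := by
    rintro rfl
    rw [Units.val_one] at hw
    have h1 : (((p ^ (2 * J) - 1 : ℕ) : ℕ) : ZMod l) = 0 := by
      rw [Nat.cast_sub (Nat.one_le_pow _ _ (by omega)), Nat.cast_pow, ← hw]
      simp
    rw [ZMod.natCast_eq_zero_iff] at h1
    have h2 : 1 < p ^ (2 * J) := Nat.one_lt_pow (by omega) (by omega)
    have h3 := Nat.le_of_dvd (by omega) h1
    omega
  have hNJ : ∀ n : ℕ, (N : ℤ) ∣ (p : ℤ) ^ (J * n) - 1 := by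
    intro n
    exact (dvd_pow_self _ (by norm_num)).trans (dvd_pow_mul_sub hJN n)
  have hrel : Rel w f := by
    constructor
    · intro t
      rw [← hf (w * t) ((p : ℤ) ^ (2 * J) * E t)]
      · have h1 := H.sc_den (u := (l : ℤ)) (v := E t) (by
          intro hcon
          apply hEl t
          rw [hcon]
          exact dvd_zero _) (hEN t) (2 * J)
        have h2 : β ^ (2 * J) = 1 := by rw [mul_comm, pow_mul, hJβ, one_pow]
        rw [h2, one_mul] at h1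
        push_cast at h1 ⊢
        exact h1
      · have h1 : (p : ℤ) ^ (2 * J) * E t - D = ((p : ℤ) ^ (J * 2) - 1) * E t + (E t - D) := by
          ring
        rw [h1]
        exact dvd_add ((hNJ 2).mul_right _) (hE1 t)
      · push_cast
        rw [hE2, hw]
    · intro t y r hy1 hyw hr
      -- an inverse of `E t` modulo `N l`
      have hENl : IsCoprime (E t) ((N : ℤ) * l) :=
        (hEN t).mul_right (isCoprime_natCast_of_not_dvd hl (hEl t))
      obtain ⟨a, ha⟩ := exists_inverse hENl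
      have haN : IsCoprime a (N : ℤ) := by
        obtain ⟨q, hq⟩ := ha
        exact ⟨E t, -(l * q), by linear_combination hq⟩
      have haK : ((a : ℤ) : ZMod l) * t = 1 := by
        have h1 := (ZMod.intCast_zmod_eq_zero_iff_dvd _ _).mpr ((dvd_mul_left _ _).trans ha)
        push_cast at h1
        rw [hE2] at h1
        linear_combination h1
      have haK0 : ((a : ℤ) : ZMod l) ≠ 0 := left_ne_zero_of_mul_eq_one haK
      -- the prime `k`
      obtain ⟨x1, hx1⟩ : ∃ x1 : ℤ, ((x1 : ℤ) : ZMod l) * (((N : ℤ) : ZMod l) * ((a : ℤ) : ZMod l)) =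
          1 - y := by
        refine ⟨(((1 - (y : ZMod l)) / (((N : ℤ) : ZMod l) * ((a : ℤ) : ZMod l))).val : ℤ), ?_⟩
        have h1 : (((N : ℤ) : ZMod l) * ((a : ℤ) : ZMod l)) ≠ 0 := mul_ne_zero hNK haK0
        rw [Int.cast_natCast, ZMod.natCast_zmod_val, div_mul_cancel₀ _ h1]
      have hx1c : IsCoprime x1 (l : ℤ) := by
        apply isCoprime_natCast_of_not_dvd hl
        intro hcon
        have h1 := (ZMod.intCast_zmod_eq_zero_iff_dvd _ _).mpr hcon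
        rw [h1, zero_mul] at hx1
        exact hy1 (Units.ext (by rw [Units.val_one]; exact (sub_eq_zero.mp hx1.symm).symm))
      have hll1 : IsCoprime (l : ℤ) ((l - 1 : ℕ) : ℤ) := by
        refine ⟨1, -1, ?_⟩
        rw [Nat.cast_sub (by omega)]
        push_cast
        ring
      obtain ⟨k, hkgt, hkp, hkl, hkl1⟩ := dir2 (m₁ := l) (m₂ := l - 1) (by omega) (by omega) hll1
        (x₁ := x1) (x₂ := -1) hx1c (isCoprime_one_left.neg_left) (N + p)
      have hkK : ((k : ℕ) : ZMod l) * (((N : ℤ) : ZMod l) * ((a : ℤ) : ZMod l)) = 1 - y := by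
        rw [← zmod_eq_iff] at hkl
        rw [← hx1, ← hkl]
        push_cast
        rfl
      obtain ⟨j, hj⟩ : ∃ j : ℕ, j = J * ((l - 2) * (k - 1)) := ⟨_, rfl⟩
      have hmod : (l - 2) * (k - 1) ≡ 2 [MOD (l - 1)] := by
        apply Nat.ModEq.symm
        rw [Nat.modEq_iff_dvd]
        obtain ⟨q, hq⟩ := hkl1
        have h1 : ((l - 1 : ℕ) : ℤ) = l - 1 := by rw [Nat.cast_sub (by omega), Nat.cast_one]
        have h2 : ((l - 2 : ℕ) : ℤ) = l - 2 := by rw [Nat.cast_sub (by omega)]; rfl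
        have h3 : ((k - 1 : ℕ) : ℤ) = k - 1 := by
          rw [Nat.cast_sub (by have := hkp.two_le; omega), Nat.cast_one]
        rw [Nat.cast_mul, h1, h2, h3]
        rw [h1] at hq
        refine ⟨(k - 1) - q, ?_⟩
        push_cast
        linear_combination -hq
      have hpj : ((p : ZMod l)) ^ j = w := by
        rw [hw, hj, mul_comm J, mul_comm 2 J, pow_mul, pow_mul (p : ZMod l) J 2, ← pow_mul,
          mul_comm _ J, pow_mul]
        apply pow_eq_pow_of_modEq hmod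
        rw [← pow_mul, mul_comm, pow_mul, ZMod.pow_card_sub_one_eq_one hpK, one_pow]
      have hkpc : Nat.Coprime p k := by
        rw [H.hp.coprime_iff_not_dvd]
        intro hcon
        have := (Nat.prime_dvd_prime_iff_eq H.hp hkp).mp hcon
        omega
      have hkd : (k : ℤ) ∣ (p : ℤ) ^ j - 1 := by
        have h1 : (k : ℤ) ∣ (p : ℤ) ^ (k - 1) - 1 := by
          have h2 := Nat.ModEq.pow_totient hkpc
          rw [Nat.totient_prime hkp] at h2
          have h3 := Nat.modEq_iff_dvd.mp h2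
          push_cast at h3
          rw [← dvd_neg, neg_sub]
          exact h3
        have h2 := dvd_pow_mul_sub h1 (J * (l - 2))
        rw [hj, show J * ((l - 2) * (k - 1)) = (k - 1) * (J * (l - 2)) by ring]
        exact h2
      have hNd : (N : ℤ) ^ 2 ∣ (p : ℤ) ^ j - 1 := by
        rw [hj]
        exact dvd_pow_mul_sub hJN _
      have hkN : IsCoprime ((N : ℤ) ^ 2) (k : ℤ) := by
        apply IsCoprime.pow_left
        apply isCoprime_natCast_of_not_dvd hkp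
        intro hcon
        have h1 : k ∣ N := by exact_mod_cast hcon
        have := Nat.le_of_dvd hNpos h1
        omega
      obtain ⟨m, hm⟩ := hkN.mul_dvd hNd hkd
      obtain ⟨a', ha'⟩ : ∃ a' : ℤ, a' = a + N * m := ⟨_, rfl⟩
      have hkey : (N : ℤ) * k * (a' - a) = (p : ℤ) ^ j - 1 := by
        rw [ha']
        linear_combination -hm
      have haa : (N : ℤ) ∣ a' - a := ⟨m, by rw [ha']; ring⟩
      have haK' : ((k : ℕ) : ZMod l) * (((N : ℤ) : ZMod l) * ((a' : ℤ) : ZMod l)) = w - y := by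
        have h1 : (((N : ℤ) * k * (a' - a) : ℤ) : ZMod l) = (((p : ℤ) ^ j - 1 : ℤ) : ZMod l) := by
          rw [hkey]
        push_cast at h1
        rw [hpj] at h1
        push_cast at hkK ⊢
        linear_combination h1 + hkK
      have hwy : (w : ZMod l) - y ≠ 0 := by
        intro hcon
        exact hyw (Units.ext (sub_eq_zero.mp hcon).symm)
      have haK0' : ((a' : ℤ) : ZMod l) ≠ 0 := by
        intro hcon
        rw [hcon, mul_zero, mul_zero] at haK'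
        exact hwy haK'.symm
      have hal' : ¬ (l : ℤ) ∣ a' := by
        intro hcon
        exact haK0' ((ZMod.intCast_zmod_eq_zero_iff_dvd _ _).mpr hcon)
      have haNl' : IsCoprime a' ((N : ℤ) * l) :=
        (coprime_of_dvd_sub haa haN).mul_right (isCoprime_natCast_of_not_dvd hl hal')
      obtain ⟨e', he'⟩ := exists_inverse haNl'
      have he'K : ((e' : ℤ) : ZMod l) = (t * r : (ZMod l)ˣ) := by
        have h1 := (ZMod.intCast_zmod_eq_zero_iff_dvd _ _).mpr ((dvd_mul_left _ _).trans he')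
        push_cast at h1
        rw [Units.val_mul]
        have h2 : ((a' : ℤ) : ZMod l) * (t * r) = 1 := by
          have h3 : (w : ZMod l) - y ≠ 0 := hwy
          have h4 : ((k : ℕ) : ZMod l) * ((N : ℤ) : ZMod l) ≠ 0 := by
            intro hcon
            rw [← mul_assoc, hcon, zero_mul] at haK'
            exact hwy haK'.symm
          apply mul_left_cancel₀ h4
          linear_combination (t : ZMod l) * r * haK' + (t : ZMod l) * hr - (t : ZMod l) * hkK +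
            ((k : ℕ) : ZMod l) * ((N : ℤ) : ZMod l) * haK
        apply mul_left_cancel₀ haK0'
        linear_combination h1 - h2
      have he'D : (N : ℤ) ∣ e' - D := by
        have h1 : (N : ℤ) ∣ a * e' - 1 := by
          have : a * e' - 1 = (e' * a' - 1) - (a' - a) * e' := by ring
          rw [this]
          exact dvd_sub ((dvd_mul_right _ _).trans he') (haa.mul_right _)
        have h2 : (N : ℤ) ∣ a * E t - 1 := (dvd_mul_right _ _).trans ha
        have h3 : (N : ℤ) ∣ a * (e' - E t) := by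
          have : a * (e' - E t) = (a * e' - 1) - (a * E t - 1) := by ring
          rw [this]
          exact dvd_sub h1 h2
        have h4 := haN.symm.dvd_of_dvd_mul_left h3
        have : e' - D = (e' - E t) + (E t - D) := by ring
        rw [this]
        exact dvd_add h4 (hE1 t)
      have hYK : ((1 - N * k * a : ℤ) : ZMod l) = y := by
        push_cast at hkK ⊢
        linear_combination -hkK
      have hYl : ¬ (l : ℤ) ∣ 1 - N * k * a := by
        intro hcon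
        have h1 := (ZMod.intCast_zmod_eq_zero_iff_dvd _ _).mpr hcon
        rw [hYK] at h1
        exact y.ne_zero h1
      have hβj : β ^ j = 1 := by
        rw [hj, pow_mul, hJβ, one_pow]
      have htw := H.twoway hl (a := a) (a' := a') (e := E t) (e' := e') (k := k) (j := j) ha
        (by rw [mul_comm a' e']; exact he') hkey haa hβj hYl
      rw [hf t (E t) (hE1 t) (hE2 t), hf (t * r) e' he'D he'K,
        hf (t * y) (E t * (1 - N * k * a)), hf (t * r * y) (e' * (1 - N * k * a))] at htw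
      · exact htw
      · have : e' * (1 - N * k * a) - D = (e' - D) - N * (k * a * e') := by ring
        rw [this]
        exact dvd_sub he'D (dvd_mul_right _ _)
      · rw [Int.cast_mul, he'K, hYK, ← Units.val_mul]
      · have : E t * (1 - N * k * a) - D = (E t - D) - N * (k * a * E t) := by ring
        rw [this]
        exact dvd_sub (hE1 t) (dvd_mul_right _ _)
      · rw [Int.cast_mul, hE2, hYK, ← Units.val_mul]
  have hcard : ((Fintype.card (ZMod l)ˣ : ℕ) : F) ≠ 0 := by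
    rw [ZMod.card_units, Nat.cast_sub (by omega), Nat.cast_one]
    exact sub_ne_zero.mpr hlF
  have hconst := const_of_rel hw1 hcard hrel
  have hunit : ∀ e : ℤ, ¬ (l : ℤ) ∣ e → ∃ t : (ZMod l)ˣ, ((e : ℤ) : ZMod l) = t := by
    intro e he
    have h1 : ((e : ℤ) : ZMod l) ≠ 0 := by
      intro hcon
      exact he ((ZMod.intCast_zmod_eq_zero_iff_dvd _ _).mp hcon)
    exact ⟨Units.mk0 _ h1, rfl⟩
  obtain ⟨t, ht⟩ := hunit D hDl
  obtain ⟨t', ht'⟩ := hunit D' hDl'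
  rw [hf t D (by simp) ht, hf t' D' (by rw [← dvd_neg, neg_sub]; exact hDD) ht', hconst t,
    hconst t']

theorem Hyp.main [CharP F p] (hp2 : p ≠ 2) (H : Hyp p N ε β h) (b d : ℤ) (hd : d ≠ 0)
    (hbd : IsCoprime b d) (hdN : IsCoprime d (N : ℤ)) (hpd : ¬ (p : ℤ) ∣ d) :
    h ((b : ℚ) / d) = h ((1 : ℚ) / d) := by
  have hpp : Prime (p : ℤ) := Nat.prime_iff_prime_int.mp H.hp
  by_contra hne
  obtain ⟨J1, hJ1, hJ1β⟩ : ∃ J : ℕ, 0 < J ∧ β ^ J = 1 := by
    by_cases h1 : h ((b : ℚ) / d) = 0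
    · apply H.beta_pow (b := 1) hd hdN
      intro h2
      apply hne
      push_cast at h2
      rw [h1, h2]
    · exact H.beta_pow hd hdN h1
  obtain ⟨J2, hJ2, hJ2N⟩ := exists_order H.hp (m := (N : ℤ) ^ 2) (fun hcon =>
    not_dvd_level' H.hp H.hpN (hpp.dvd_of_dvd_pow hcon))
  obtain ⟨J, hJ⟩ : ∃ J : ℕ, J = J1 * J2 := ⟨_, rfl⟩
  have hJβ : β ^ J = 1 := by rw [hJ, pow_mul, hJ1β, one_pow]
  have hJN : (N : ℤ) ^ 2 ∣ (p : ℤ) ^ J - 1 := by
    rw [hJ, mul_comm]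
    exact dvd_pow_mul_sub hJ2N _
  have hJ0 : 0 < J := by rw [hJ]; exact Nat.mul_pos hJ1 hJ2
  have hdabs : 0 < d.natAbs := Int.natAbs_pos.mpr hd
  obtain ⟨d', hd'gt, hd'p, hd'N⟩ := dir H.hN hdN (N + p + d.natAbs)
  have hd'd : ¬ (d' : ℤ) ∣ d := by
    intro hcon
    have h1 := Int.natAbs_dvd_natAbs.mpr hcon
    rw [Int.natAbs_natCast] at h1
    have := Nat.le_of_dvd hdabs h1
    omega
  have hd'pc : IsCoprime (d' : ℤ) (p : ℤ) := by
    apply isCoprime_natCast_of_not_dvd H.hp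
    intro hcon
    have h1 : p ∣ d' := by exact_mod_cast hcon
    have := (Nat.prime_dvd_prime_iff_eq H.hp hd'p).mp h1
    omega
  obtain ⟨x2, hx2, hx2'⟩ := crt hd'pc 1 (-1)
  have hx2c : IsCoprime x2 ((d' * p : ℕ) : ℤ) := by
    push_cast
    exact (coprime_of_dvd_sub hx2 isCoprime_one_left).mul_right
      (coprime_of_dvd_sub hx2' isCoprime_one_left.neg_left)
  have hmm : IsCoprime (d.natAbs : ℤ) ((d' * p : ℕ) : ℤ) := by
    push_cast
    exact ((isCoprime_natCast_of_not_dvd hd'p hd'd).mul_right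
      (isCoprime_natCast_of_not_dvd H.hp hpd)).abs_left
  have hbc : IsCoprime b (d.natAbs : ℤ) := by
    push_cast
    exact hbd.abs_right
  obtain ⟨l, hlgt, hlp, hlb, hl2⟩ := dir2 (m₁ := d.natAbs) (m₂ := d' * p) (by omega)
    (mul_ne_zero hd'p.ne_zero H.hp.ne_zero) hmm hbc hx2c (N + d' + d.natAbs + p ^ (2 * J))
  have hlb' : d ∣ (l : ℤ) - b := Int.natAbs_dvd.mp hlb
  have hld' : (d' : ℤ) ∣ (l : ℤ) - 1 := by
    have : (l : ℤ) - 1 = (l - x2) + (x2 - 1) := by ring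
    rw [this]
    refine dvd_add (dvd_trans ?_ hl2) hx2
    push_cast
    exact dvd_mul_right _ _
  have hlpd : (p : ℤ) ∣ (l : ℤ) - (-1) := by
    have : (l : ℤ) - (-1) = (l - x2) + (x2 - (-1)) := by ring
    rw [this]
    refine dvd_add (dvd_trans ?_ hl2) hx2'
    push_cast
    exact dvd_mul_left _ _
  have hlF : (l : F) ≠ 1 := by
    intro hcon
    have h1 : (((l : ℤ) - (-1) : ℤ) : F) = 0 := (CharP.intCast_eq_zero_iff F p _).mpr hlpd
    push_cast at h1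
    rw [hcon] at h1
    have h2 : ((2 : ℕ) : F) = 0 := by
      push_cast
      linear_combination h1
    rw [CharP.cast_eq_zero_iff F p] at h2
    exact hp2 ((Nat.prime_dvd_prime_iff_eq H.hp Nat.prime_two).mp h2)
  have hld : ¬ (l : ℤ) ∣ d := by
    intro hcon
    have h1 := Int.natAbs_dvd_natAbs.mpr hcon
    rw [Int.natAbs_natCast] at h1
    have := Nat.le_of_dvd hdabs h1
    omega
  have hldd : ¬ (l : ℤ) ∣ (d' : ℤ) := by
    intro hcon
    have h1 : l ∣ d' := by exact_mod_cast hcon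
    have := Nat.le_of_dvd hd'p.pos h1
    omega
  have hd'0 : (d' : ℤ) ≠ 0 := by exact_mod_cast hd'p.ne_zero
  have hd'Nc : IsCoprime (d' : ℤ) (N : ℤ) := coprime_of_dvd_sub hd'N hdN
  have s1 := H.congr hd hdN hlb'
  have s2 := H.numl (D := d) (D' := (d' : ℤ)) hlp hJβ hJN hJ0 hlF (by omega) (by omega) hdN hld
    hldd (by rw [← dvd_neg, neg_sub]; exact hd'N)
  have s3 := H.congr (b := 1) (d := (d' : ℤ)) (n := (l : ℤ)) hd'0 hd'Nc hld'
  have s4 := H.low (b := 1) (d := d) (d' := (d' : ℤ)) hd hd'0 hdN (by rw [mul_one]; exact hd'N)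
  apply hne
  push_cast at s1 s2 s3 s4 ⊢
  rw [← s1, s2, s3, s4]

/-- Ihara's lemma in characteristic `p`. -/
theorem ihara {F : Type} [Field F] {p N : ℕ} (hp : p.Prime) (hp2 : p ≠ 2) [CharP F p]
    (hN : N ≠ 0) (hpN : p.Coprime N) (ε : DirichletCharacter F N) {β : F} (hβ : β ≠ 0) {h : ℚ → F}
    (h0 : h 0 = 0)
    (hper : ∀ b d : ℤ, d ≠ 0 → IsCoprime d (N : ℤ) → h ((b : ℚ) / d + 1) = h ((b : ℚ) / d))
    (heq : ∀ a b c d : ℤ, a * d - b * c = 1 → (N : ℤ) ∣ c → ∀ u v : ℤ, v ≠ 0 →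
      IsCoprime v (N : ℤ) → d ≠ 0 → c * u + d * v ≠ 0 →
      h (((a * u + b * v : ℤ) : ℚ) / ((c * u + d * v : ℤ) : ℚ)) =
        h ((b : ℚ) / d) + ε d * h ((u : ℚ) / v))
    (hsc : ∀ u v : ℤ, v ≠ 0 → IsCoprime v (N : ℤ) →
      h (p * ((u : ℚ) / v)) = β⁻¹ * h ((u : ℚ) / v)) :
    ∀ b d : ℤ, d ≠ 0 → IsCoprime b d → IsCoprime d (N : ℤ) → ¬ (p : ℤ) ∣ d →
      h ((b : ℚ) / d) = h ((1 : ℚ) / d) := by
  intro b d hd hbd hdN hpd
  exact Hyp.main hp2 (ε := ε) (β := β) ⟨hp, hN, hpN, hβ, h0, hper, heq, hsc⟩ b d hd hbd hdN hpd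

end Pool.Agent.MuW2


end

section

/-!
# Block Y (KEY0): a topological key lemma. Part 1: the sheets (helper6)

See `PAPER_NS.md`, section 4. `Φ` is an additive function of pairs of cusps with values in an abelian group
`M`, invariant under `Γ₁(p ^ r N)`, which vanishes on the pairs of determinant `p ^ n`, `n ≥ n0`.
-/

set_option autoImplicit false

namespace Pool.Agent.NSY

open OnePoint _root_.Pool.Agent.MuSym _root_.Pool.Agent.MuW2

/-- The hypotheses of the key lemma. -/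
structure Key {M : Type} [AddCommGroup M] (p N r n0 : ℕ) (Φ : OnePoint ℚ → OnePoint ℚ → M) :
    Prop where
  hp : p.Prime
  hN : 1 < N
  hpN : p.Coprime N
  tor : ∀ q : ℕ, q.Coprime p → ∀ m : M, q • m = 0 → m = 0
  add : ∀ x y z, Φ x y + Φ y z = Φ x z
  inv : ∀ a b c d : ℤ, a * d - b * c = 1 → ((p : ℤ) ^ r * N) ∣ c → ((p : ℤ) ^ r * N) ∣ d - 1 →
    ∀ x y, Φ (mob a b c d x) (mob a b c d y) = Φ x y
  A : ∀ a b c d : ℤ, ∀ n ≥ n0, c ≠ 0 → d ≠ 0 → IsCoprime a c → IsCoprime b d →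
    ((p : ℤ) ^ r * N) ∣ c → a * d - b * c = (p : ℤ) ^ n →
    Φ (((a : ℚ) / c : ℚ) : OnePoint ℚ) (((b : ℚ) / d : ℚ) : OnePoint ℚ) = 0
  A0 : ∀ b : ℤ, ∀ n ≥ n0, ¬ (p : ℤ) ∣ b → Φ ∞ (((b : ℚ) / p ^ n : ℚ) : OnePoint ℚ) = 0

variable {M : Type} [AddCommGroup M] {p N r n0 : ℕ} {Φ : OnePoint ℚ → OnePoint ℚ → M}

/-- The value of the path from infinity. -/
def ff (Φ : OnePoint ℚ → OnePoint ℚ → M) (x : ℚ) : M := Φ ∞ (x : OnePoint ℚ)

lemma Key.self (K : Key p N r n0 Φ) (x : OnePoint ℚ) : Φ x x = 0 := by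
  have := K.add x x x
  simpa using this

lemma Key.sub (K : Key p N r n0 Φ) (x y : ℚ) :
    Φ (x : OnePoint ℚ) (y : OnePoint ℚ) = ff Φ y - ff Φ x := by
  have := K.add ∞ (x : OnePoint ℚ) (y : OnePoint ℚ)
  unfold ff
  rw [← this]
  abel

lemma Key.eq_of_A (K : Key p N r n0 Φ) (a b c d : ℤ) (n : ℕ) (hn : n0 ≤ n) (hc : c ≠ 0)
    (hd : d ≠ 0) (hac : IsCoprime a c) (hbd : IsCoprime b d) (hN : ((p : ℤ) ^ r * N) ∣ c)
    (hdet : a * d - b * c = (p : ℤ) ^ n) : ff Φ ((b : ℚ) / d) = ff Φ ((a : ℚ) / c) := by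
  have := K.A a b c d n hn hc hd hac hbd hN hdet
  rw [K.sub] at this
  exact sub_eq_zero.mp this

lemma mob_infty (a b c d : ℤ) (hc : c ≠ 0) :
    mob a b c d ∞ = (((a : ℚ) / c : ℚ) : OnePoint ℚ) := by
  unfold mob
  simp [hc]

lemma mob_infty0 (a b d : ℤ) : mob a b 0 d ∞ = ∞ := by
  unfold mob
  simp

lemma mob_coe (a b c d : ℤ) (x : ℚ) (h : (c : ℚ) * x + d ≠ 0) :
    mob a b c d (x : OnePoint ℚ) = (((a * x + b) / (c * x + d) : ℚ) : OnePoint ℚ) := by
  unfold mob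
  simp [h]

lemma Key.per (K : Key p N r n0 Φ) (x : ℚ) (n : ℤ) : ff Φ (x + n) = ff Φ x := by
  have h := K.inv 1 n 0 1 (by ring) (dvd_zero _) (by simp) ∞ (x : OnePoint ℚ)
  rw [mob_infty0, mob_coe _ _ _ _ _ (by simp)] at h
  unfold ff
  rw [← h]
  congr 2
  push_cast
  ring

lemma Key.pp (K : Key p N r n0 Φ) : Prime (p : ℤ) := Nat.prime_iff_prime_int.mp K.hp

lemma Key.cop_pow (K : Key p N r n0 Φ) {x : ℤ} (h : ¬ (p : ℤ) ∣ x) (n : ℕ) :
    IsCoprime x ((p : ℤ) ^ n) :=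
  (isCoprime_natCast_of_not_dvd K.hp h).pow_right

/-- data of a sheet: `a d - p ^ i c b = 1`, `c d m = p ^ J - 1` -/
structure Sheet (p N i J : ℕ) (a b c d m : ℤ) : Prop where
  det : a * d - (p : ℤ) ^ i * c * b = 1
  hNc : (N : ℤ) ∣ c
  hpc : ¬ (p : ℤ) ∣ c
  hpd : ¬ (p : ℤ) ∣ d
  hm : c * d * m = (p : ℤ) ^ J - 1

section

variable {i J : ℕ} {a b c d m : ℤ}

lemma Sheet.c_ne (S : Sheet p N i J a b c d m) : c ≠ 0 := by
  rintro rfl
  exact S.hpc (dvd_zero _)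

lemma Sheet.d_ne (S : Sheet p N i J a b c d m) : d ≠ 0 := by
  rintro rfl
  exact S.hpd (dvd_zero _)

lemma Sheet.ac (S : Sheet p N i J a b c d m) : IsCoprime a c :=
  ⟨d, -((p : ℤ) ^ i * b), by linear_combination S.det⟩

lemma Sheet.bd (S : Sheet p N i J a b c d m) : IsCoprime b d :=
  ⟨-((p : ℤ) ^ i * c), a, by linear_combination S.det⟩

lemma Sheet.hpm (K : Key p N r n0 Φ) (hJ : 0 < J) (S : Sheet p N i J a b c d m) :
    ¬ (p : ℤ) ∣ m := by
  intro h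
  have h1 : (p : ℤ) ∣ (p : ℤ) ^ J - 1 := by
    rw [← S.hm]
    exact h.mul_left _
  have h2 : (p : ℤ) ∣ 1 := by
    have h3 : (p : ℤ) ∣ (p : ℤ) ^ J := dvd_pow_self _ (by omega)
    have := dvd_sub h3 h1
    simpa using this
  exact K.pp.not_isUnit (isUnit_of_dvd_one h2)

/-- the vector `W / p ^ v` is primitive -/
lemma Sheet.copW (K : Key p N r n0 Φ) (hJ : 0 < J) (S : Sheet p N i J a b c d m) {t : ℕ}
    (ht : 0 < t) {k : ℤ} (hk : ¬ (p : ℤ) ∣ k) :
    IsCoprime (a * (p : ℤ) ^ t + k * m * c) ((p : ℤ) ^ (t + i) * c) := by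
  have hpm := S.hpm K hJ
  apply IsCoprime.mul_right
  · apply K.cop_pow
    intro h
    have h1 : (p : ℤ) ∣ k * m * c := by
      have h3 : (p : ℤ) ∣ a * (p : ℤ) ^ t := (dvd_pow_self _ (by omega)).mul_left _
      exact (dvd_add_right h3).mp h
    rcases K.pp.dvd_or_dvd h1 with h2 | h2
    · rcases K.pp.dvd_or_dvd h2 with h4 | h4
      · exact hk h4
      · exact hpm h4
    · exact S.hpc h2
  · have h1 : IsCoprime (a * (p : ℤ) ^ t) c := by
      apply IsCoprime.mul_left S.ac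
      exact (K.cop_pow S.hpc t).symm
    rw [show a * (p : ℤ) ^ t + k * m * c = a * (p : ℤ) ^ t + c * (k * m) by ring]
    exact h1.add_mul_left_left (k * m)

/-- the vector `X / p ^ v` is primitive -/
lemma Sheet.copX (K : Key p N r n0 Φ) (hJ : 0 < J) (S : Sheet p N i J a b c d m) {t : ℕ}
    (ht : 0 < t) {k : ℤ} (hk : ¬ (p : ℤ) ∣ k) :
    IsCoprime (b * (p : ℤ) ^ (t + i) + k * m * d) ((p : ℤ) ^ (t + i) * d) := by
  have hpm := S.hpm K hJ
  apply IsCoprime.mul_right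
  · apply K.cop_pow
    intro h
    have h1 : (p : ℤ) ∣ k * m * d := by
      have h3 : (p : ℤ) ∣ b * (p : ℤ) ^ (t + i) := (dvd_pow_self _ (by omega)).mul_left _
      exact (dvd_add_right h3).mp h
    rcases K.pp.dvd_or_dvd h1 with h2 | h2
    · rcases K.pp.dvd_or_dvd h2 with h4 | h4
      · exact hk h4
      · exact hpm h4
    · exact S.hpd h2
  · have h1 : IsCoprime (b * (p : ℤ) ^ (t + i)) d := by
      apply IsCoprime.mul_left S.bd
      exact (K.cop_pow S.hpd (t + i)).symm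
    rw [show b * (p : ℤ) ^ (t + i) + k * m * d = b * (p : ℤ) ^ (t + i) + d * (k * m) by ring]
    exact h1.add_mul_left_left (k * m)

lemma level_dvd (hr : r ≤ i) {x : ℤ} (t : ℕ) (h : (N : ℤ) ∣ x) :
    (p : ℤ) ^ r * N ∣ (p : ℤ) ^ (t + i) * x :=
  mul_dvd_mul (pow_dvd_pow _ (by omega)) h

lemma Sheet.frac (K : Key p N r n0 Φ) {a b c : ℤ} (hc : c ≠ 0) {v t i J : ℕ} (hvt : v + t = J)
    {k k' : ℤ} (hk : k = (p : ℤ) ^ v * k') :
    (b : ℚ) / ((p : ℚ) ^ i * c) + k * a / p ^ (J + i) =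
      ((b * (p : ℤ) ^ t + k' * a * c : ℤ) : ℚ) / (((p : ℤ) ^ (t + i) * c : ℤ) : ℚ) := by
  have hp : (p : ℚ) ≠ 0 := by exact_mod_cast K.hp.ne_zero
  have hc' : (c : ℚ) ≠ 0 := by exact_mod_cast hc
  subst hvt
  rw [hk]
  push_cast
  rw [pow_add, pow_add, pow_add]
  field_simp

lemma Sheet.frac' (K : Key p N r n0 Φ) {b d m : ℤ} (hd : d ≠ 0) {v t i J : ℕ} (hvt : v + t = J)
    {k k' : ℤ} (hk : k = (p : ℤ) ^ v * k') :
    (b : ℚ) / d + k * m / p ^ (J + i) =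
      ((b * (p : ℤ) ^ (t + i) + k' * m * d : ℤ) : ℚ) / (((p : ℤ) ^ (t + i) * d : ℤ) : ℚ) := by
  have hp : (p : ℚ) ≠ 0 := by exact_mod_cast K.hp.ne_zero
  have hc' : (d : ℚ) ≠ 0 := by exact_mod_cast hd
  subst hvt
  rw [hk]
  push_cast
  rw [pow_add, pow_add, pow_add]
  field_simp

lemma Sheet.step1 (K : Key p N r n0 Φ) (hr : r ≤ i) (hn : n0 ≤ i) (hJ : 0 < J)
    (S : Sheet p N i J a b c d m) {v t : ℕ} (hvt : v + t = J) (ht : 0 < t) {k k' : ℤ}
    (hk : k = (p : ℤ) ^ v * k') (hk' : ¬ (p : ℤ) ∣ k') :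
    ff Φ ((b : ℚ) / d + k * m / p ^ (J + i)) =
      ff Φ ((a : ℚ) / ((p : ℚ) ^ i * c) + k * m / p ^ (J + i)) := by
  have hp : (p : ℤ) ≠ 0 := by exact_mod_cast K.hp.ne_zero
  rw [Sheet.frac K S.c_ne hvt hk, Sheet.frac' K S.d_ne hvt hk]
  apply K.eq_of_A _ _ _ _ (2 * t + i) (by omega)
    (mul_ne_zero (pow_ne_zero _ hp) S.c_ne) (mul_ne_zero (pow_ne_zero _ hp) S.d_ne)
    (S.copW K hJ ht hk') (S.copX K hJ ht hk') (level_dvd hr t S.hNc)
  have := S.det
  rw [pow_add, pow_add, two_mul, pow_add]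
  linear_combination (p : ℤ) ^ t * (p : ℤ) ^ t * (p : ℤ) ^ i * this

lemma Sheet.step2 (K : Key p N r n0 Φ) (hr : r ≤ i) (hn : n0 ≤ i) (hJ : 0 < J)
    (S : Sheet p N i J a b c d m) {v t v' t' : ℕ} (hvt : v + t = J) (hvt' : v' + t' = J)
    (ht : 0 < t) (ht' : 0 < t') (hvv : v = 0 ∨ v' = 0) {k k' k'' : ℤ}
    (hk : k = (p : ℤ) ^ v * k') (hk' : ¬ (p : ℤ) ∣ k') (hk1 : k + 1 = (p : ℤ) ^ v' * k'')
    (hk'' : ¬ (p : ℤ) ∣ k'') :
    ff Φ ((b : ℚ) / d + ((k + 1 : ℤ) : ℚ) * m / p ^ (J + i)) =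
      ff Φ ((a : ℚ) / ((p : ℚ) ^ i * c) + k * m / p ^ (J + i)) := by
  have hp : (p : ℤ) ≠ 0 := by exact_mod_cast K.hp.ne_zero
  rw [Sheet.frac K S.c_ne hvt hk, Sheet.frac' K S.d_ne hvt' hk1]
  have hdet := S.det
  have hm := S.hm
  rcases hvv with h0 | h0
  · subst h0
    have htJ : t = J := by omega
    subst htJ
    apply K.eq_of_A _ _ _ _ (t' + i) (by omega)
      (mul_ne_zero (pow_ne_zero _ hp) S.c_ne) (mul_ne_zero (pow_ne_zero _ hp) S.d_ne)
      (S.copW K hJ ht hk') (S.copX K hJ ht' hk'') (level_dvd hr t S.hNc)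
    rw [pow_zero, one_mul] at hk
    subst hk
    have h1 : (p : ℤ) ^ t * k'' = (k + 1) * (p : ℤ) ^ t' := by
      rw [hk1, ← hvt', pow_add]
      ring
    rw [pow_add, pow_add]
    linear_combination (p : ℤ) ^ t * (p : ℤ) ^ t' * (p : ℤ) ^ i * hdet -
      m * c * d * (p : ℤ) ^ i * h1 - (p : ℤ) ^ t' * (p : ℤ) ^ i * hm
  · subst h0
    have htJ : t' = J := by omega
    subst htJ
    apply K.eq_of_A _ _ _ _ (t + i) (by omega)
      (mul_ne_zero (pow_ne_zero _ hp) S.c_ne) (mul_ne_zero (pow_ne_zero _ hp) S.d_ne)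
      (S.copW K hJ ht hk') (S.copX K hJ ht' hk'') (level_dvd hr t S.hNc)
    rw [pow_zero, one_mul] at hk1
    subst hk1
    have h1 : (p : ℤ) ^ t' * k' = k * (p : ℤ) ^ t := by
      rw [hk, ← hvt, pow_add]
      ring
    rw [pow_add, pow_add]
    linear_combination (p : ℤ) ^ t * (p : ℤ) ^ t' * (p : ℤ) ^ i * hdet +
      m * c * d * (p : ℤ) ^ i * h1 - (p : ℤ) ^ t * (p : ℤ) ^ i * hm

lemma Sheet.base (K : Key p N r n0 Φ) (hr : r ≤ i) (hn : n0 ≤ i) (hJ : 0 < J)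
    (S : Sheet p N i J a b c d m) :
    ff Φ ((b : ℚ) / d + ((1 : ℤ) : ℚ) * m / p ^ (J + i)) = ff Φ ((a : ℚ) / ((p : ℚ) ^ i * c)) := by
  have hp : (p : ℤ) ≠ 0 := by exact_mod_cast K.hp.ne_zero
  have h1 : ¬ (p : ℤ) ∣ 1 := fun h => K.pp.not_isUnit (isUnit_of_dvd_one h)
  rw [Sheet.frac' K S.d_ne (zero_add J) (k := 1) (k' := 1) (by simp)]
  rw [show (a : ℚ) / ((p : ℚ) ^ i * c) = (a : ℚ) / (((p : ℤ) ^ i * c : ℤ) : ℚ) by push_cast; rfl]
  have hai : IsCoprime a ((p : ℤ) ^ i * c) := ⟨d, -b, by linear_combination S.det⟩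
  apply K.eq_of_A _ _ _ _ i (by omega)
    (mul_ne_zero (pow_ne_zero _ hp) S.c_ne) (mul_ne_zero (pow_ne_zero _ hp) S.d_ne)
    hai (S.copX K hJ hJ h1)
  · exact mul_dvd_mul (pow_dvd_pow _ hr) S.hNc
  · have hdet := S.det
    have hm := S.hm
    rw [pow_add]
    linear_combination (p : ℤ) ^ J * (p : ℤ) ^ i * hdet - (p : ℤ) ^ i * hm

/-- The sheet lemma. -/
theorem Sheet.main (K : Key p N r n0 Φ) (hr : r ≤ i) (hn : n0 ≤ i) (hJ : 0 < J)
    (S : Sheet p N i J a b c d m) (k : ℕ) (hk0 : 1 ≤ k) (hk : k < p ^ J) :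
    ff Φ ((b : ℚ) / d + (k : ℚ) * m / p ^ (J + i)) = ff Φ ((a : ℚ) / ((p : ℚ) ^ i * c)) := by
  have key : ∀ k : ℕ, k ≠ 0 → k < p ^ J → ∃ v t k' : ℕ, v + t = J ∧ 0 < t ∧ ¬ p ∣ k' ∧
      k = p ^ v * k' := by
    intro k hk0 hk
    obtain ⟨v, k', hk', hkk⟩ := Nat.exists_eq_pow_mul_and_not_dvd hk0 p K.hp.ne_one
    have hk'0 : 0 < k' := Nat.pos_of_ne_zero (by rintro rfl; exact hk' (dvd_zero _))
    have hv : v < J := by
      by_contra hcon
      push Not at hcon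
      have h1 : p ^ J ≤ p ^ v := Nat.pow_le_pow_right K.hp.pos hcon
      have h2 : p ^ v * 1 ≤ p ^ v * k' := Nat.mul_le_mul_left _ hk'0
      omega
    exact ⟨v, J - v, k', by omega, by omega, hk', hkk⟩
  induction k with
  | zero => omega
  | succ k ih =>
    by_cases hk1 : k = 0
    · subst hk1
      have := S.base K hr hn hJ
      push_cast at this ⊢
      simpa using this
    · obtain ⟨v, t, k', hvt, ht, hk', hkk⟩ := key k hk1 (by omega)
      obtain ⟨v', t', k'', hvt', ht', hk'', hkk'⟩ := key (k + 1) (by omega) hk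
      have hvv : v = 0 ∨ v' = 0 := by
        by_contra hcon
        push Not at hcon
        have h1 : p ∣ k := by
          rw [hkk]
          exact (dvd_pow_self _ hcon.1).mul_right _
        have h2 : p ∣ k + 1 := by
          rw [hkk']
          exact (dvd_pow_self _ hcon.2).mul_right _
        have h3 := (Nat.dvd_add_right h1).mp h2
        exact K.hp.one_lt.ne' (Nat.dvd_one.mp h3)
      have e1 := S.step1 K hr hn hJ hvt ht (k := k) (k' := k') (by rw [hkk]; push_cast; rfl)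
        (by exact_mod_cast hk')
      have e2 := S.step2 K hr hn hJ hvt hvt' ht ht' hvv (k := k) (k' := k') (k'' := k'')
        (by rw [hkk]; push_cast; rfl) (by exact_mod_cast hk') (by exact_mod_cast hkk')
        (by exact_mod_cast hk'')
      have e3 := ih (by omega) (by omega)
      push_cast at e1 e2 e3 ⊢
      rw [e2, ← e1, e3]

end

end Pool.Agent.NSY


end

section

/-!
# Block Y (KEY0), part 2: the function `h` and its equivariance (helper6)
-/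

set_option autoImplicit false

namespace Pool.Agent.NSY

open OnePoint _root_.Pool.Agent.MuSym _root_.Pool.Agent.MuW2

variable {M : Type} [AddCommGroup M] {p N r n0 : ℕ} {Φ : OnePoint ℚ → OnePoint ℚ → M}

/-- the denominator of `x` is prime to `N` -/
def Dm (N : ℕ) (x : ℚ) : Prop := ∃ u v : ℤ, IsCoprime v (N : ℤ) ∧ x = (u : ℚ) / v

lemma ne_of_cop {N : ℕ} (hN : 1 < N) {v : ℤ} (h : IsCoprime v (N : ℤ)) : v ≠ 0 := by
  rintro rfl
  have h1 : IsUnit (N : ℤ) := isCoprime_zero_left.mp h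
  rw [Int.isUnit_iff] at h1
  omega

lemma cop_p (hpN : p.Coprime N) (n : ℕ) : IsCoprime ((p : ℤ) ^ n) (N : ℤ) :=
  (Nat.isCoprime_iff_coprime.mpr hpN).pow_left

lemma int_form (hp : p.Prime) {x : ℤ} (hx : x ≠ 0) :
    ∃ (n : ℕ) (y : ℤ), ¬ (p : ℤ) ∣ y ∧ x = (p : ℤ) ^ n * y := by
  have hfin : FiniteMultiplicity (p : ℤ) x := by
    apply Int.finiteMultiplicity_iff.mpr
    exact ⟨by simpa using hp.ne_one, hx⟩
  obtain ⟨m, hm1, hm2⟩ := hfin.exists_eq_pow_mul_and_not_dvd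
  exact ⟨_, m, hm2, hm1⟩

/-- reduced form -/
lemma Dm.form (hp : p.Prime) {x : ℚ} (h : Dm N x) : ∃ (B : ℤ) (n : ℕ) (D : ℤ), D ≠ 0 ∧
    ¬ (p : ℤ) ∣ D ∧ IsCoprime D (N : ℤ) ∧ IsCoprime B ((p : ℤ) ^ n * D) ∧
    x = (B : ℚ) / ((p : ℚ) ^ n * D) := by
  obtain ⟨u, v, hv, rfl⟩ := h
  obtain ⟨x, hx⟩ : ∃ x : ℚ, x = (u : ℚ) / v := ⟨_, rfl⟩
  rw [← hx]
  have hden : (x.den : ℤ) ≠ 0 := by exact_mod_cast x.den_ne_zero
  obtain ⟨n, D, hD, hDD⟩ := int_form hp hden
  have hdv : (x.den : ℤ) ∣ v := by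
    rw [hx, ← Rat.divInt_eq_div]
    exact Rat.den_dvd u v
  have hD0 : D ≠ 0 := by
    rintro rfl
    exact hD (dvd_zero _)
  refine ⟨x.num, n, D, hD0, hD, ?_, ?_, ?_⟩
  · have h1 : D ∣ v := by
      refine dvd_trans ?_ hdv
      rw [hDD]
      exact dvd_mul_left _ _
    exact hv.of_isCoprime_of_dvd_left h1
  · rw [← hDD]
    exact x.isCoprime_num_den
  · have h2 : ((p : ℚ) ^ n * D) = x.den := by
      have : ((x.den : ℤ) : ℚ) = (((p : ℤ) ^ n * D : ℤ) : ℚ) := by rw [hDD]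
      push_cast at this
      rw [this]
    rw [h2]
    exact (Rat.num_div_den x).symm

lemma Dm.add (hp : p.Prime) (hpN : p.Coprime N) {x : ℚ} (h : Dm N x) (hN : 1 < N) (e : ℤ) (n : ℕ) :
    Dm N (x + e / p ^ n) := by
  obtain ⟨u, v, hv, rfl⟩ := h
  refine ⟨u * (p : ℤ) ^ n + e * v, v * (p : ℤ) ^ n, hv.mul_left (cop_p hpN n), ?_⟩
  have h1 : (p : ℚ) ≠ 0 := by exact_mod_cast hp.ne_zero
  have h2 : (v : ℚ) ≠ 0 := by exact_mod_cast ne_of_cop hN hv
  push_cast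
  field_simp

/-- existence of a sheet -/
lemma exists_sheet (hp : p.Prime) (hpN : p.Coprime N) (i : ℕ) {b d : ℤ} (hbd : IsCoprime b d)
    (hpd : ¬ (p : ℤ) ∣ d) (hdN : IsCoprime d (N : ℤ)) {e : ℤ} (he : ¬ (p : ℤ) ∣ e) {n : ℕ}
    (hn : 0 < n) : ∃ (a c m : ℤ) (J : ℕ), Sheet p N i J a b c d m ∧ n ≤ J ∧
      (p : ℤ) ^ n ∣ m - e := by
  have hpp : Prime (p : ℤ) := Nat.prime_iff_prime_int.mp hp
  have hcop : ∀ {x : ℤ}, ¬ (p : ℤ) ∣ x → ∀ k : ℕ, IsCoprime x ((p : ℤ) ^ k) := fun h k =>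
    (isCoprime_natCast_of_not_dvd hp h).pow_right
  have hpNp : ¬ (p : ℤ) ∣ N := not_dvd_level' hp hpN
  -- inverses
  obtain ⟨x1, hx1⟩ := exists_inverse (m := d) (e := (p : ℤ) ^ i * N * b)
    (((hcop hpd i).symm.mul_left hdN.symm).mul_left hbd)
  obtain ⟨x2, hx2⟩ := exists_inverse (m := (p : ℤ) ^ n) (e := (N : ℤ) * d * e)
    (((hcop hpNp n).mul_left (hcop hpd n)).mul_left (hcop he n))
  obtain ⟨c0, hc1, hc2⟩ := crt (hcop hpd n) (-x1) (-x2)
  have h1 : d ∣ (p : ℤ) ^ i * (N * c0) * b + 1 := by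
    have : (p : ℤ) ^ i * (N * c0) * b + 1 =
        (c0 - -x1) * ((p : ℤ) ^ i * N * b) - (x1 * ((p : ℤ) ^ i * N * b) - 1) := by ring
    rw [this]
    exact dvd_sub (hc1.mul_right _) hx1
  have h2 : (p : ℤ) ^ n ∣ (N * c0) * d * e + 1 := by
    have : (N * c0) * d * e + 1 =
        (c0 - -x2) * ((N : ℤ) * d * e) - (x2 * ((N : ℤ) * d * e) - 1) := by ring
    rw [this]
    exact dvd_sub (hc2.mul_right _) hx2
  obtain ⟨c, hc⟩ : ∃ c : ℤ, c = N * c0 := ⟨_, rfl⟩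
  rw [← hc] at h1 h2
  have hpn : (p : ℤ) ∣ (p : ℤ) ^ n := dvd_pow_self _ (by omega)
  have hpc : ¬ (p : ℤ) ∣ c := by
    intro h
    have h3 := hpn.trans h2
    have h4 : (p : ℤ) ∣ 1 := (dvd_add_right ((h.mul_right d).mul_right e)).mp h3
    exact hpp.not_isUnit (isUnit_of_dvd_one h4)
  obtain ⟨a, ha⟩ := h1
  obtain ⟨J0, hJ0, hJd⟩ := exists_order hp (m := c * d) (fun h => (hpp.dvd_or_dvd h).elim hpc hpd)
  obtain ⟨m, hm⟩ := dvd_pow_mul_sub hJd n
  have hJn : n ≤ J0 * n := Nat.le_mul_of_pos_left n hJ0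
  refine ⟨a, c, m, J0 * n, ⟨by linear_combination -ha, ⟨c0, hc⟩, hpc, hpd, hm.symm⟩, hJn, ?_⟩
  have h5 : (p : ℤ) ^ n ∣ c * d * (m - e) := by
    have : c * d * (m - e) = (p : ℤ) ^ (J0 * n) - (c * d * e + 1) := by linear_combination -hm
    rw [this]
    exact dvd_sub (pow_dvd_pow _ hJn) h2
  exact ((hcop hpc n).mul_left (hcop hpd n)).symm.dvd_of_dvd_mul_left h5

lemma Sheet.value (K : Key p N r n0 Φ) {i J : ℕ} {a b c d m : ℤ} (hr : r ≤ i) (hn0 : n0 ≤ i)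
    (S : Sheet p N i J a b c d m) {n : ℕ} (hn : i < n) (hnJ : n ≤ J) {e : ℤ}
    (hm : (p : ℤ) ^ n ∣ m - e) :
    ff Φ ((b : ℚ) / d + e / p ^ n) = ff Φ ((a : ℚ) / ((p : ℚ) ^ i * c)) := by
  have hpQ : (p : ℚ) ≠ 0 := by exact_mod_cast K.hp.ne_zero
  have hJ : 0 < J := by omega
  have h1 := S.main K hr hn0 hJ (p ^ (J + i - n)) (Nat.one_le_pow _ _ K.hp.pos)
    (Nat.pow_lt_pow_right K.hp.one_lt (by omega))
  rw [← h1]
  obtain ⟨q, hq⟩ := hm
  rw [← K.per ((b : ℚ) / d + e / p ^ n) q]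
  congr 1
  have hmq : (m : ℚ) = e + p ^ n * q := by
    have : ((m : ℤ) : ℚ) = ((e + (p : ℤ) ^ n * q : ℤ) : ℚ) := by
      congr 1
      linear_combination hq
    push_cast at this
    exact this
  rw [hmq]
  have h2 : (p : ℚ) ^ (J + i) = p ^ (J + i - n) * p ^ n := by
    rw [← pow_add]
    congr 1
    omega
  rw [h2]
  push_cast
  field_simp
  ring

lemma Key.uniq (K : Key p N r n0 Φ) {i : ℕ} (hr : r ≤ i) {a c a' c' b d : ℤ} (hc : c ≠ 0)
    (hc' : c' ≠ 0) (hd : d ≠ 0)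
    (h1 : a * d - (p : ℤ) ^ i * c * b = 1) (h2 : a' * d - (p : ℤ) ^ i * c' * b = 1)
    (hN : (N : ℤ) ∣ c) (hN' : (N : ℤ) ∣ c') :
    ff Φ ((a : ℚ) / ((p : ℚ) ^ i * c)) = ff Φ ((a' : ℚ) / ((p : ℚ) ^ i * c')) := by
  have hpQ : (p : ℚ) ≠ 0 := by exact_mod_cast K.hp.ne_zero
  have hcQ : (c : ℚ) ≠ 0 := by exact_mod_cast hc
  have hcQ' : (c' : ℚ) ≠ 0 := by exact_mod_cast hc'
  have hdQ : (d : ℚ) ≠ 0 := by exact_mod_cast hd
  have e1 : (a : ℚ) * d - (p : ℚ) ^ i * c * b = 1 := by exact_mod_cast h1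
  have e2 : (a' : ℚ) * d - (p : ℚ) ^ i * c' * b = 1 := by exact_mod_cast h2
  have hri : (p : ℤ) ^ r ∣ (p : ℤ) ^ i := pow_dvd_pow _ hr
  have hcc : (N : ℤ) ∣ c' - c := dvd_sub hN' hN
  have h3 := K.inv (a' * d - (p : ℤ) ^ i * c * b) (-(a' * b) + b * a)
    ((p : ℤ) ^ i * c' * d - d * ((p : ℤ) ^ i * c)) (-((p : ℤ) ^ i * c' * b) + d * a)
    (by linear_combination (a' * d - (p : ℤ) ^ i * c' * b) * h1 + h2)
    (by
      rw [show (p : ℤ) ^ i * c' * d - d * ((p : ℤ) ^ i * c) = (p : ℤ) ^ i * ((c' - c) * d) by ring]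
      exact mul_dvd_mul hri (hcc.mul_right _))
    (by
      rw [show -((p : ℤ) ^ i * c' * b) + d * a - 1 = (p : ℤ) ^ i * ((c' - c) * (-b)) by
        linear_combination h1]
      exact mul_dvd_mul hri (hcc.mul_right _))
    (((a : ℚ) / ((p : ℚ) ^ i * c) : ℚ) : OnePoint ℚ) (((b : ℚ) / d : ℚ) : OnePoint ℚ)
  have n1 : (((p : ℤ) ^ i * c' * d - d * ((p : ℤ) ^ i * c) : ℤ) : ℚ) * (a / ((p : ℚ) ^ i * c)) +
      ((-((p : ℤ) ^ i * c' * b) + d * a : ℤ) : ℚ) = c' / c := by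
    push_cast
    field_simp
    linear_combination ((c' : ℚ)) * e1
  have n2 : (((p : ℤ) ^ i * c' * d - d * ((p : ℤ) ^ i * c) : ℤ) : ℚ) * (b / d) +
      ((-((p : ℤ) ^ i * c' * b) + d * a : ℤ) : ℚ) = 1 := by
    push_cast
    field_simp
    linear_combination e1
  rw [mob_coe _ _ _ _ _ (by rw [n1]; exact div_ne_zero hcQ' hcQ), n1,
    mob_coe _ _ _ _ _ (by rw [n2]; exact one_ne_zero), n2] at h3
  have m1 : (((a' * d - (p : ℤ) ^ i * c * b : ℤ) : ℚ) * (a / ((p : ℚ) ^ i * c)) +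
      ((-(a' * b) + b * a : ℤ) : ℚ)) / (c' / c) = a' / ((p : ℚ) ^ i * c') := by
    push_cast
    field_simp
    linear_combination (a' : ℚ) * e1
  have m2 : (((a' * d - (p : ℤ) ^ i * c * b : ℤ) : ℚ) * (b / d) +
      ((-(a' * b) + b * a : ℤ) : ℚ)) / 1 = b / d := by
    push_cast
    field_simp
    linear_combination (b : ℚ) * e1
  rw [m1, m2, K.sub, K.sub] at h3
  exact (sub_right_injective h3).symm

end Pool.Agent.NSY


end

section

/-!
# Block Y (KEY0), part 3: the function `h` (helper6)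
-/

set_option autoImplicit false

namespace Pool.Agent.NSY

open OnePoint _root_.Pool.Agent.MuSym _root_.Pool.Agent.MuW2

variable {M : Type} [AddCommGroup M] {p N r n0 : ℕ} {Φ : OnePoint ℚ → OnePoint ℚ → M}

/-- `u` is the value of `h` at `x` -/
def IsH (p : ℕ) (Φ : OnePoint ℚ → OnePoint ℚ → M) (x : ℚ) (u : M) : Prop :=
  ∃ n1 : ℕ, ∀ n ≥ n1, ∀ e : ℤ, ¬ (p : ℤ) ∣ e → ff Φ (x + e / p ^ n) = u

lemma not_dvd_one (hp : p.Prime) : ¬ (p : ℤ) ∣ 1 := fun h =>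
  (Nat.prime_iff_prime_int.mp hp).not_isUnit (isUnit_of_dvd_one h)

omit [AddCommGroup M] in
lemma IsH.unique (hp : p.Prime) {x : ℚ} {u u' : M} (h : IsH p Φ x u) (h' : IsH p Φ x u') :
    u = u' := by
  obtain ⟨n1, h1⟩ := h
  obtain ⟨n2, h2⟩ := h'
  rw [← h1 (max n1 n2) (le_max_left _ _) 1 (not_dvd_one hp),
    ← h2 (max n1 n2) (le_max_right _ _) 1 (not_dvd_one hp)]

omit [AddCommGroup M] in
lemma IsH.add (hp : p.Prime) {x : ℚ} {u : M} (h : IsH p Φ x u) (e : ℤ) (n : ℕ) :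
    IsH p Φ (x + e / p ^ n) u := by
  have hpQ : (p : ℚ) ≠ 0 := by exact_mod_cast hp.ne_zero
  obtain ⟨n1, h1⟩ := h
  refine ⟨n1 + n + 1, fun k hk e' he' => ?_⟩
  have h2 := h1 k (by omega) (e * (p : ℤ) ^ (k - n) + e') (by
    intro hcon
    apply he'
    exact (dvd_add_right ((dvd_pow_self _ (by omega)).mul_left _)).mp hcon)
  rw [← h2]
  congr 1
  have h3 : (p : ℚ) ^ k = p ^ (k - n) * p ^ n := by
    rw [← pow_add]
    congr 1
    omega
  rw [h3]
  push_cast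
  field_simp
  ring

lemma Key.big (K : Key p N r n0 Φ) {i : ℕ} (hr : r ≤ i) (hn0 : n0 ≤ i) {b d : ℤ}
    (hbd : IsCoprime b d) (hpd : ¬ (p : ℤ) ∣ d) (hdN : IsCoprime d (N : ℤ)) :
    ∃ u : M, (∀ n, i < n → ∀ e : ℤ, ¬ (p : ℤ) ∣ e → ff Φ ((b : ℚ) / d + e / p ^ n) = u) ∧
      ((p : ℤ) ^ r * N ∣ d - 1 → u = ff Φ ((b : ℚ) / d) - ff Φ 0) := by
  obtain ⟨a, c, m, J, S, -, -⟩ := exists_sheet K.hp K.hpN i hbd hpd hdN
    (not_dvd_one K.hp) (n := 1) one_pos
  refine ⟨ff Φ ((a : ℚ) / ((p : ℚ) ^ i * c)), ?_, ?_⟩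
  · intro n hn e he
    obtain ⟨a', c', m', J', S', hJ', hm'⟩ := exists_sheet K.hp K.hpN i hbd hpd hdN he
      (n := n) (by omega)
    rw [S'.value K hr hn0 hn hJ' hm']
    exact (K.uniq hr S.c_ne S'.c_ne S.d_ne S.det S'.det S.hNc S'.hNc).symm
  · intro hd1
    have hpQ : (p : ℚ) ≠ 0 := by exact_mod_cast K.hp.ne_zero
    have hcQ : (c : ℚ) ≠ 0 := by exact_mod_cast S.c_ne
    have hdQ : (d : ℚ) ≠ 0 := by exact_mod_cast S.d_ne
    have hc0 : (p : ℤ) ^ i * c ≠ 0 :=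
      mul_ne_zero (pow_ne_zero _ (by exact_mod_cast K.hp.ne_zero)) S.c_ne
    have h3 := K.inv a b ((p : ℤ) ^ i * c) d (by linear_combination S.det)
      (mul_dvd_mul (pow_dvd_pow _ hr) S.hNc) hd1 ∞ ((0 : ℚ) : OnePoint ℚ)
    rw [mob_infty _ _ _ _ hc0, mob_coe _ _ _ _ _ (by simpa using hdQ)] at h3
    have e1 : ((a : ℚ) * 0 + b) / ((((p : ℤ) ^ i * c : ℤ) : ℚ) * 0 + d) = b / d := by simp
    rw [e1, K.sub] at h3
    push_cast at h3
    change ff Φ (b / d) - ff Φ (a / ((p : ℚ) ^ i * c)) = ff Φ 0 at h3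
    rw [← h3]
    abel

/-- `x` has a large denominator at `p` -/
def Lg (p N i : ℕ) (x : ℚ) : Prop := ∃ (B : ℤ) (n : ℕ) (D : ℤ), i < n ∧ ¬ (p : ℤ) ∣ D ∧
  IsCoprime D (N : ℤ) ∧ IsCoprime B ((p : ℤ) ^ n * D) ∧ x = (B : ℚ) / ((p : ℚ) ^ n * D)

lemma Lg.dm (hpN : p.Coprime N) {i : ℕ} {x : ℚ} (h : Lg p N i x) : Dm N x := by
  obtain ⟨B, n, D, hn, hD, hDN, hB, rfl⟩ := h
  exact ⟨B, (p : ℤ) ^ n * D, (cop_p hpN n).mul_left hDN, by push_cast; rfl⟩

/-- partial fractions -/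
lemma part_frac (hp : p.Prime) {B D : ℤ} {n : ℕ} (hD0 : D ≠ 0) (hD : ¬ (p : ℤ) ∣ D)
    (hB : IsCoprime B ((p : ℤ) ^ n * D)) : ∃ α β : ℤ, IsCoprime β D ∧
      (0 < n → ¬ (p : ℤ) ∣ α) ∧ (B : ℚ) / ((p : ℚ) ^ n * D) = β / D + α / p ^ n := by
  have hpp : Prime (p : ℤ) := Nat.prime_iff_prime_int.mp hp
  have hpQ : (p : ℚ) ≠ 0 := by exact_mod_cast hp.ne_zero
  have hDQ : (D : ℚ) ≠ 0 := by exact_mod_cast hD0
  have hcop : IsCoprime D ((p : ℤ) ^ n) := (isCoprime_natCast_of_not_dvd hp hD).pow_right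
  obtain ⟨x, y, hxy⟩ := hcop
  have hB1 : B = (B * x) * D + (B * y) * (p : ℤ) ^ n := by linear_combination -B * hxy
  refine ⟨B * x, B * y, ?_, ?_, ?_⟩
  · have h1 : IsCoprime B D := hB.of_isCoprime_of_dvd_right (dvd_mul_left _ _)
    have h2 : IsCoprime y D := ⟨(p : ℤ) ^ n, x, by linear_combination hxy⟩
    exact h1.mul_left h2
  · intro hn hcon
    have h1 : (p : ℤ) ∣ (p : ℤ) ^ n := dvd_pow_self _ (by omega)
    have h2 : (p : ℤ) ∣ B := by
      rw [hB1]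
      exact dvd_add (hcon.mul_right _) (h1.mul_left _)
    have h3 := hB.of_isCoprime_of_dvd_right (h1.mul_right D)
    exact hpp.not_isUnit (h3.isUnit_of_dvd' h2 dvd_rfl)
  · have hB2 : (B : ℚ) = (B * x) * D + (B * y) * (p : ℚ) ^ n := by exact_mod_cast hB1
    rw [hB2]
    push_cast
    rw [← hB2]
    field_simp
    linear_combination hB2

lemma Key.isH_lg (K : Key p N r n0 Φ) {i : ℕ} (hr : r ≤ i) (hn0 : n0 ≤ i) {x : ℚ}
    (h : Lg p N i x) : IsH p Φ x (ff Φ x) := by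
  obtain ⟨B, n, D, hn, hD, hDN, hB, rfl⟩ := h
  have hD0 : D ≠ 0 := ne_of_cop K.hN hDN
  obtain ⟨α, β, hβ, hα, hx⟩ := part_frac K.hp hD0 hD hB
  obtain ⟨u, hu, -⟩ := K.big hr hn0 hβ hD hDN
  have h1 := hu n hn α (hα (by omega))
  rw [hx, h1]
  exact IsH.add K.hp ⟨i + 1, fun n hn e he => hu n (by omega) e he⟩ α n

lemma Key.exists_H (K : Key p N r n0 Φ) {x : ℚ} (h : Dm N x) : ∃ u, IsH p Φ x u := by
  obtain ⟨B, n, D, hD0, hD, hDN, hB, rfl⟩ := h.form K.hp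
  obtain ⟨α, β, hβ, hα, hx⟩ := part_frac K.hp hD0 hD hB
  obtain ⟨u, hu, -⟩ := K.big (le_max_left r n0) (le_max_right r n0) hβ hD hDN
  rw [hx]
  exact ⟨u, IsH.add K.hp ⟨max r n0 + 1, fun n hn e he => hu n (by omega) e he⟩ α n⟩

open Classical in
/-- the function `h` -/
noncomputable def hh (p : ℕ) (Φ : OnePoint ℚ → OnePoint ℚ → M) (x : ℚ) : M :=
  if h : ∃ u, IsH p Φ x u then h.choose else 0

lemma IsH.eq (hp : p.Prime) {x : ℚ} {u : M} (h : IsH p Φ x u) : hh p Φ x = u := by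
  have h1 : ∃ u, IsH p Φ x u := ⟨u, h⟩
  unfold hh
  rw [dif_pos h1]
  exact IsH.unique hp h1.choose_spec h

lemma Key.hh_spec (K : Key p N r n0 Φ) {x : ℚ} (h : Dm N x) : IsH p Φ x (hh p Φ x) := by
  obtain ⟨u, hu⟩ := K.exists_H h
  rw [hu.eq K.hp]
  exact hu

lemma Key.hh_tr (K : Key p N r n0 Φ) {x : ℚ} (h : Dm N x) (e : ℤ) (n : ℕ) :
    hh p Φ (x + e / p ^ n) = hh p Φ x :=
  ((K.hh_spec h).add K.hp e n).eq K.hp

lemma Key.hh_zero (K : Key p N r n0 Φ) : hh p Φ 0 = 0 := by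
  apply IsH.eq K.hp
  refine ⟨n0, fun n hn e he => ?_⟩
  rw [zero_add]
  exact K.A0 e n hn he

lemma Key.hh_lg (K : Key p N r n0 Φ) {i : ℕ} (hr : r ≤ i) (hn0 : n0 ≤ i) {x : ℚ}
    (h : Lg p N i x) : hh p Φ x = ff Φ x := (K.isH_lg hr hn0 h).eq K.hp

lemma Key.hh_one (K : Key p N r n0 Φ) {b d : ℤ} (hbd : IsCoprime b d) (hpd : ¬ (p : ℤ) ∣ d)
    (hd : (p : ℤ) ^ r * N ∣ d - 1) : hh p Φ ((b : ℚ) / d) = ff Φ ((b : ℚ) / d) - ff Φ 0 := by
  have hdN : IsCoprime d (N : ℤ) := by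
    obtain ⟨q, hq⟩ := hd
    exact ⟨1, -((p : ℤ) ^ r * q), by linear_combination hq⟩
  obtain ⟨u, hu, hu1⟩ := K.big (le_max_left r n0) (le_max_right r n0) hbd hpd hdN
  rw [← hu1 hd]
  exact IsH.eq K.hp ⟨max r n0 + 1, fun n hn e he => hu n (by omega) e he⟩

/-- equivariance on the points of large denominator -/
lemma Key.lg_eqv (K : Key p N r n0 Φ) {i s : ℕ} (hr : r ≤ i) (hn0 : n0 ≤ i) (hs : i < s)
    {a b c d : ℤ} (hdet : a * d - b * c = 1) (hc : (p : ℤ) ^ s * N ∣ c)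
    (hd : (p : ℤ) ^ s * N ∣ d - 1) {z : ℚ} (hz : Lg p N i z) :
    Lg p N i ((a * z + b) / (c * z + d)) ∧
      hh p Φ ((a * z + b) / (c * z + d)) = Φ ∞ (mob a b c d ∞) + hh p Φ z := by
  have hpQ : (p : ℚ) ≠ 0 := by exact_mod_cast K.hp.ne_zero
  have hpp := K.pp
  have hz' := hz
  obtain ⟨B, n, D, hn, hD, hDN, hB, rfl⟩ := hz'
  have hD0 : D ≠ 0 := ne_of_cop K.hN hDN
  have hDQ : (D : ℚ) ≠ 0 := by exact_mod_cast hD0
  have hps : (p : ℤ) ^ s ∣ c := (dvd_mul_right _ _).trans hc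
  have hps1 : (p : ℤ) ^ s ∣ d - 1 := (dvd_mul_right _ _).trans hd
  have hNc : (N : ℤ) ∣ c := (dvd_mul_left _ _).trans hc
  have hNd : (N : ℤ) ∣ d - 1 := (dvd_mul_left _ _).trans hd
  have hpi : (p : ℤ) ^ (i + 1) ∣ (p : ℤ) ^ s := pow_dvd_pow _ hs
  have hpsp : (p : ℤ) ∣ (p : ℤ) ^ s := dvd_pow_self _ (by omega)
  -- the new numerator and denominator
  obtain ⟨X, hX⟩ : ∃ X : ℤ, X = a * B + b * ((p : ℤ) ^ n * D) := ⟨_, rfl⟩
  obtain ⟨Y, hY⟩ : ∃ Y : ℤ, Y = c * B + d * ((p : ℤ) ^ n * D) := ⟨_, rfl⟩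
  have hXY : IsCoprime X Y := by
    obtain ⟨x, y, hxy⟩ := hB
    refine ⟨x * d - y * c, -(x * b) + y * a, ?_⟩
    rw [hX, hY]
    linear_combination (x * B + y * ((p : ℤ) ^ n * D)) * hdet + hxy
  have hYN : IsCoprime Y (N : ℤ) := by
    have h1 : IsCoprime ((p : ℤ) ^ n * D) (N : ℤ) := (cop_p K.hpN n).mul_left hDN
    apply coprime_of_dvd_sub (y := (p : ℤ) ^ n * D) ?_ h1
    rw [hY, show c * B + d * ((p : ℤ) ^ n * D) - (p : ℤ) ^ n * D =
      c * B + (d - 1) * ((p : ℤ) ^ n * D) by ring]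
    exact dvd_add (hNc.mul_right _) (hNd.mul_right _)
  have hY0 : Y ≠ 0 := ne_of_cop K.hN hYN
  have hYQ : (Y : ℚ) ≠ 0 := by exact_mod_cast hY0
  have hpY : (p : ℤ) ^ (i + 1) ∣ Y := by
    rw [hY]
    exact dvd_add ((hpi.trans hps).mul_right _)
      (((pow_dvd_pow _ hn).mul_right _).mul_left _)
  obtain ⟨w, D', hD', hYD⟩ := int_form K.hp hY0
  have hw : i < w := by
    by_contra hcon
    push Not at hcon
    apply hD'
    rw [hYD] at hpY
    have h1 : (p : ℤ) ^ w * p ∣ (p : ℤ) ^ w * D' := by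
      refine dvd_trans ?_ hpY
      rw [← pow_succ]
      exact pow_dvd_pow _ (by omega)
    exact (mul_dvd_mul_iff_left (pow_ne_zero w (by exact_mod_cast K.hp.ne_zero))).mp h1
  have hden : (c : ℚ) * (B / ((p : ℚ) ^ n * D)) + d = Y / ((p : ℚ) ^ n * D) := by
    rw [hY]
    push_cast
    field_simp
  have hval : ((a : ℚ) * (B / ((p : ℚ) ^ n * D)) + b) / (c * (B / ((p : ℚ) ^ n * D)) + d) =
      X / ((p : ℚ) ^ w * D') := by
    have h1 : (Y : ℚ) = (p : ℚ) ^ w * D' := by exact_mod_cast hYD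
    rw [hden, ← h1, hX]
    push_cast
    field_simp
  have hlg : Lg p N i (((a : ℚ) * (B / ((p : ℚ) ^ n * D)) + b) /
      (c * (B / ((p : ℚ) ^ n * D)) + d)) := by
    refine ⟨X, w, D', hw, hD', ?_, ?_, hval⟩
    · exact hYN.of_isCoprime_of_dvd_left (by rw [hYD]; exact dvd_mul_left _ _)
    · rw [← hYD]
      exact hXY
  refine ⟨hlg, ?_⟩
  rw [K.hh_lg hr hn0 hlg, K.hh_lg hr hn0 hz]
  have h3 := K.inv a b c d hdet
    ((mul_dvd_mul_right (pow_dvd_pow _ (by omega : r ≤ s)) _).trans hc)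
    ((mul_dvd_mul_right (pow_dvd_pow _ (by omega : r ≤ s)) _).trans hd)
    ∞ (((B : ℚ) / ((p : ℚ) ^ n * D) : ℚ) : OnePoint ℚ)
  rw [mob_coe a b c d (B / ((p : ℚ) ^ n * D)) (by
    rw [hden]
    exact div_ne_zero hYQ (mul_ne_zero (pow_ne_zero _ hpQ) hDQ))] at h3
  unfold ff
  rw [← h3]
  exact (K.add _ _ _).symm

end Pool.Agent.NSY


end
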