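import Mathlib
import Pool.Agent.MVF.C022
import Pool.Agent.MVF.C038
import Pool.Agent.MVF.C082

/-! Parts: MU3.MCONE, NS.Y_Gam, NS.Y_Iha, NS.Y_Key0, MUX.HN_KYN, MU3.StKey, MU3.P_KM1L, MU3.P_KM1 -/

namespace Pool.Agent.MU3.P_KM1
end Pool.Agent.MU3.P_KM1

section

/-!
# MU3, block D, module CONE: on the support of `rho` all absolute values are comparable
-/

set_option autoImplicit false

open NumberField IsDedekindDomain Ideal Filter Topology
open NumberField.Units NumberField.mixedEmbedding NumberField.Units.dirichletUnitTheorem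
open scoped nonZeroDivisors

namespace Pool.Agent.MU3

namespace CONE

lemma tent_ne {y : ℝ} (h : tent y ≠ 0) : |y| ≤ 1 := by
  by_contra hc
  push Not at hc
  apply h
  unfold tent
  exact max_eq_left (by linarith)

end CONE

theorem m_CONE : Stmt_CONE := by
  classical
  intro K _ _
  set b := (basisUnitLattice K).ofZLatticeBasis ℝ (unitLattice K) with hb
  set C : ℝ := ∑ w : {w : InfinitePlace K // w ≠ w₀}, ∑ i, |b i w| with hC
  refine ⟨Real.exp (-(2 * C)), Real.exp_pos _, ?_⟩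
  intro a ha hrho w
  set x := mixedEmbedding K (a : K) with hx
  have haK : (a : K) ≠ 0 := fun h => ha (by exact_mod_cast h)
  have hwpos : ∀ w : InfinitePlace K, 0 < normAtPlace w x := by
    intro w
    rw [hx, normAtPlace_apply]
    exact (InfinitePlace.pos_iff).2 haK
  -- coordinates
  have hlc : ∀ i, |b.repr (logMap x) i| ≤ 1 := by
    intro i
    have h1 : tent (lc K a i) ≠ 0 := by
      unfold rho at hrho
      exact (Finset.prod_ne_zero_iff.1 hrho) i (Finset.mem_univ i)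
    exact CONE.tent_ne h1
  have hlm : ∀ v : {w : InfinitePlace K // w ≠ w₀}, |logMap x v| ≤ ∑ i, |b i v| := by
    intro v
    have h1 : logMap x = ∑ i, b.repr (logMap x) i • b i := (b.sum_repr (logMap x)).symm
    have h2 : logMap x v = ∑ i, b.repr (logMap x) i * b i v := by
      conv_lhs => rw [h1]
      rw [Finset.sum_apply]
      rfl
    rw [h2]
    refine (Finset.abs_sum_le_sum_abs _ _).trans (Finset.sum_le_sum fun i _ => ?_)
    rw [abs_mul]
    calc |b.repr (logMap x) i| * |b i v| ≤ 1 * |b i v| :=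
          mul_le_mul_of_nonneg_right (hlc i) (abs_nonneg _)
      _ = _ := one_mul _
  set ℓ : ℝ := Real.log (mixedEmbedding.norm x) * (Module.finrank ℚ K : ℝ)⁻¹ with hℓ
  have hd : (0 : ℝ) < (Module.finrank ℚ K : ℝ) := by exact_mod_cast Module.finrank_pos
  have hsum : ∑ w : InfinitePlace K, (InfinitePlace.mult w : ℝ) * (Real.log (normAtPlace w x) - ℓ) = 0 := by
    have h1 : Real.log (mixedEmbedding.norm x) =
        ∑ w : InfinitePlace K, (InfinitePlace.mult w : ℝ) * Real.log (normAtPlace w x) := by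
      rw [mixedEmbedding.norm_apply, Real.log_prod (fun w _ => (pow_pos (hwpos w) _).ne')]
      exact Finset.sum_congr rfl fun w _ => Real.log_pow _ _
    have h2 : ∑ w : InfinitePlace K, (InfinitePlace.mult w : ℝ) = (Module.finrank ℚ K : ℝ) := by
      exact_mod_cast InfinitePlace.sum_mult_eq (K := K)
    simp only [mul_sub]
    rw [Finset.sum_sub_distrib, ← h1, ← Finset.sum_mul, h2, hℓ]
    field_simp
    ring
  have hmult : ∀ w : InfinitePlace K, (1 : ℝ) ≤ (InfinitePlace.mult w : ℝ) := by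
    intro w
    exact_mod_cast InfinitePlace.mult_pos (w := w)
  have hterm : ∀ v : {w : InfinitePlace K // w ≠ w₀},
      logMap x v = (InfinitePlace.mult v.1 : ℝ) * (Real.log (normAtPlace v.1 x) - ℓ) := fun v => rfl
  have hCle : ∀ v : {w : InfinitePlace K // w ≠ w₀}, ∑ i, |b i v| ≤ C := fun v =>
    Finset.single_le_sum (f := fun v : {w : InfinitePlace K // w ≠ w₀} => ∑ i, |b i v|)
      (fun v _ => Finset.sum_nonneg fun i _ => abs_nonneg _) (Finset.mem_univ v)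
  have hcmp : ∀ (w : InfinitePlace K) (y : ℝ), |(InfinitePlace.mult w : ℝ) * y| ≤ C → |y| ≤ C := by
    intro w y hy
    rw [abs_mul, abs_of_pos (lt_of_lt_of_le one_pos (hmult w))] at hy
    have := mul_le_mul_of_nonneg_right (hmult w) (abs_nonneg y)
    linarith
  have hall : ∀ w : InfinitePlace K, |Real.log (normAtPlace w x) - ℓ| ≤ C := by
    intro w
    refine hcmp w _ ?_
    by_cases hw : w = w₀
    · subst hw
      have h1 := hsum
      rw [← Finset.add_sum_erase _ _ (Finset.mem_univ (w₀ : InfinitePlace K))] at h1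
      have h2 : ∑ w ∈ Finset.univ.erase (w₀ : InfinitePlace K),
          (InfinitePlace.mult w : ℝ) * (Real.log (normAtPlace w x) - ℓ) =
          ∑ v : {w : InfinitePlace K // w ≠ w₀}, logMap x v := by
        have h5 := Finset.sum_subtype (p := fun w : InfinitePlace K => w ≠ w₀) (F := inferInstance)
          (Finset.univ.erase (w₀ : InfinitePlace K)) (fun w => by simp)
          (fun w => (InfinitePlace.mult w : ℝ) * (Real.log (normAtPlace w x) - ℓ))
        rw [h5]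
        exact Finset.sum_congr rfl fun v _ => (hterm v).symm
      rw [h2] at h1
      have h3 : (InfinitePlace.mult (w₀ : InfinitePlace K) : ℝ) *
          (Real.log (normAtPlace (w₀ : InfinitePlace K) x) - ℓ) =
          -∑ v : {w : InfinitePlace K // w ≠ w₀}, logMap x v := by linarith
      rw [h3, abs_neg]
      refine (Finset.abs_sum_le_sum_abs _ _).trans ?_
      exact Finset.sum_le_sum fun v _ => hlm v
    · have h1 := hlm ⟨w, hw⟩
      rw [hterm] at h1
      exact h1.trans (hCle ⟨w, hw⟩)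
  -- the norm
  obtain ⟨v, hv⟩ : ∃ v : InfinitePlace K, nr K a = normAtPlace v x := by
    unfold nr
    rw [mixedEmbedding.norm_eq_sup'_normAtPlace]
    obtain ⟨v, -, hv⟩ := Finset.exists_mem_eq_sup' (Finset.univ_nonempty (α := InfinitePlace K))
      (fun w => normAtPlace w (mixedEmbedding K (a : K)))
    exact ⟨v, hv⟩
  have hw1 : w (a : K) = normAtPlace w x := by rw [hx, normAtPlace_apply]
  rw [hv, hw1]
  have h1 := abs_le.1 (hall w)
  have h2 := abs_le.1 (hall v)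
  have h3 : Real.log (normAtPlace v x) - 2 * C ≤ Real.log (normAtPlace w x) := by linarith [h1.1, h2.2]
  have h4 := Real.exp_le_exp.2 h3
  rw [Real.exp_log (hwpos w), sub_eq_neg_add, Real.exp_add, Real.exp_log (hwpos v)] at h4
  exact h4

end Pool.Agent.MU3


end

section

/-!
# Block Y (KEY0), part 4: equivariance of `h` under `Γ₁(N)[1/p]` (helper6)
-/

set_option autoImplicit false

namespace Pool.Agent.NSY

open OnePoint _root_.Pool.Agent.MuSym _root_.Pool.Agent.MuW2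

variable {M : Type} [AddCommGroup M] {p N r n0 : ℕ} {Φ : OnePoint ℚ → OnePoint ℚ → M}

/-- the shift by `1 / p ^ e`, with `e` different from the exponent of `p` in the denominator -/
lemma exists_shift (hp : p.Prime) {x : ℚ} (h : Dm N x) (i : ℕ) :
    ∃ e : ℕ, i < e ∧ e ≤ i + 2 ∧ Lg p N i (x + ((1 : ℤ) : ℚ) / p ^ e) := by
  obtain ⟨B, n, D, hD0, hD, hDN, hB, rfl⟩ := h.form hp
  have hpQ : (p : ℚ) ≠ 0 := by exact_mod_cast hp.ne_zero
  have hDQ : (D : ℚ) ≠ 0 := by exact_mod_cast hD0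
  have hpp : Prime (p : ℤ) := Nat.prime_iff_prime_int.mp hp
  have hBD : IsCoprime B D := hB.of_isCoprime_of_dvd_right (dvd_mul_left _ _)
  have hcop : ∀ {x : ℤ}, ¬ (p : ℤ) ∣ x → ∀ k : ℕ, IsCoprime x ((p : ℤ) ^ k) := fun h k =>
    (isCoprime_natCast_of_not_dvd hp h).pow_right
  obtain ⟨e, he1, he2, hne⟩ : ∃ e : ℕ, i < e ∧ e ≤ i + 2 ∧ n ≠ e := by
    by_cases h1 : n = i + 1
    · exact ⟨i + 2, by omega, by omega, by omega⟩
    · exact ⟨i + 1, by omega, by omega, h1⟩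
  refine ⟨e, he1, he2, ?_⟩
  rcases lt_or_gt_of_ne hne with hlt | hgt
  · -- small denominator
    refine ⟨B * (p : ℤ) ^ (e - n) + 1 * D, e, D, by omega, hD, hDN, ?_, ?_⟩
    · apply IsCoprime.mul_right
      · apply hcop
        intro hcon
        apply hD
        have h3 : (p : ℤ) ∣ B * (p : ℤ) ^ (e - n) := (dvd_pow_self _ (by omega)).mul_left _
        simpa using (dvd_add_right h3).mp hcon
      · exact (hBD.mul_left (hcop hD _).symm).add_mul_right_left 1
    · have h4 : (p : ℚ) ^ e = p ^ n * p ^ (e - n) := by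
        rw [← pow_add]
        congr 1
        omega
      rw [h4]
      push_cast
      field_simp
  · have hBp : ¬ (p : ℤ) ∣ B := by
      intro hcon
      have h3 := hB.of_isCoprime_of_dvd_right
        ((dvd_pow_self (p : ℤ) (by omega : n ≠ 0)).mul_right D)
      exact hpp.not_isUnit (h3.isUnit_of_dvd' hcon dvd_rfl)
    refine ⟨B + (1 * (p : ℤ) ^ (n - e)) * D, n, D, by omega, hD, hDN, ?_, ?_⟩
    · apply IsCoprime.mul_right
      · apply hcop
        intro hcon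
        apply hBp
        have h3 : (p : ℤ) ∣ (1 * (p : ℤ) ^ (n - e)) * D :=
          ((dvd_pow_self _ (by omega)).mul_left _).mul_right _
        exact (dvd_add_left h3).mp hcon
      · exact hBD.add_mul_right_left _
    · have h4 : (p : ℚ) ^ n = p ^ e * p ^ (n - e) := by
        rw [← pow_add]
        congr 1
        omega
      rw [h4]
      push_cast
      field_simp

lemma Dm.mob (hN : 1 < N) {x : ℚ} (h : Dm N x) {a b c d : ℤ}
    (hc : (N : ℤ) ∣ c) (hd : IsCoprime d (N : ℤ)) :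
    (c : ℚ) * x + d ≠ 0 ∧ Dm N ((a * x + b) / (c * x + d)) := by
  obtain ⟨u, v, hv, rfl⟩ := h
  have hv0 : (v : ℚ) ≠ 0 := by exact_mod_cast ne_of_cop hN hv
  have h1 : IsCoprime (c * u + d * v) (N : ℤ) := by
    apply coprime_of_dvd_sub (y := d * v) _ (hd.mul_left hv)
    rw [show c * u + d * v - d * v = c * u by ring]
    exact hc.mul_right _
  have h2 : ((c * u + d * v : ℤ) : ℚ) ≠ 0 := by exact_mod_cast ne_of_cop hN h1
  have h3 : (c : ℚ) * (u / v) + d = ((c * u + d * v : ℤ) : ℚ) / v := by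
    push_cast
    field_simp
  refine ⟨by rw [h3]; exact div_ne_zero h2 hv0, a * u + b * v, c * u + d * v, h1, ?_⟩
  rw [h3]
  push_cast
  field_simp

lemma cop_of_dvd_sub_one {d : ℤ} (h : (N : ℤ) ∣ d - 1) : IsCoprime d (N : ℤ) := by
  obtain ⟨q, hq⟩ := h
  exact ⟨1, -q, by linear_combination hq⟩

lemma dm_int (x : ℤ) : Dm N (x : ℚ) := ⟨x, 1, isCoprime_one_left, by simp⟩

lemma Key.eqv1 (K : Key p N r n0 Φ) {i s s' : ℕ} (hr : r ≤ i) (hn0 : n0 ≤ i) (hs : i < s)
    (hs' : s' = s + (i + 2)) {a b c d : ℤ} (hdet : a * d - b * c = 1)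
    (hc : (p : ℤ) ^ s' * N ∣ c) (hd : (p : ℤ) ^ s' * N ∣ d - 1) {x : ℚ} (hx : Dm N x) :
    hh p Φ ((a * x + b) / (c * x + d)) = hh p Φ ((b : ℚ) / d) + hh p Φ x := by
  subst hs'
  have hpQ : (p : ℚ) ≠ 0 := by exact_mod_cast K.hp.ne_zero
  have hpp := K.pp
  obtain ⟨E, hEi, hE2, hjx⟩ := exists_shift K.hp hx i
  obtain ⟨j, hj, hjx⟩ : ∃ j : ℤ, ¬ (p : ℤ) ∣ j ∧ Lg p N i (x + j / p ^ E) :=
    ⟨1, not_dvd_one K.hp, hjx⟩
  obtain ⟨c2, hc2⟩ := hc
  obtain ⟨c1, hc1⟩ : ∃ c1 : ℤ, c1 = (p : ℤ) ^ s * N * ((p : ℤ) ^ (i + 2 - E) * c2) := ⟨_, rfl⟩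
  have hc12 : c = (p : ℤ) ^ E * c1 := by
    rw [hc2, hc1, pow_add, show i + 2 = E + (i + 2 - E) by omega, pow_add,
      show E + (i + 2 - E) - E = i + 2 - E by omega]
    ring
  have hc1s : (p : ℤ) ^ s * N ∣ c1 := ⟨_, hc1⟩
  have hpc1 : (p : ℤ) ∣ c1 :=
    ((dvd_pow_self _ (by omega : s ≠ 0)).mul_right _).trans hc1s
  have hds : (p : ℤ) ^ s * N ∣ d - 1 :=
    (mul_dvd_mul_right (pow_dvd_pow _ (by omega)) _).trans hd
  have hpd : (p : ℤ) ∣ d - 1 :=
    ((dvd_pow_self _ (by omega : s ≠ 0)).mul_right _).trans hds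
  -- the second shift
  have hdj : ¬ (p : ℤ) ∣ d - c1 * j := by
    intro hcon
    apply not_dvd_one K.hp
    have h1 : (1 : ℤ) = (d - c1 * j) - (d - 1) + c1 * j := by ring
    rw [h1]
    exact dvd_add (dvd_sub hcon hpd) (hpc1.mul_right _)
  obtain ⟨x1, hx1⟩ := exists_inverse (m := (p : ℤ) ^ E) (e := d - c1 * j)
    ((isCoprime_natCast_of_not_dvd K.hp hdj).pow_right)
  obtain ⟨j', hj'⟩ : ∃ j' : ℤ, j' = a * j * x1 := ⟨_, rfl⟩
  obtain ⟨q, hq⟩ : (p : ℤ) ^ E ∣ j' * (d - c1 * j) - a * j := by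
    rw [hj', show a * j * x1 * (d - c1 * j) - a * j = a * j * (x1 * (d - c1 * j) - 1) by ring]
    exact hx1.mul_left _
  -- the matrix
  have hdet' : (a + j' * c1) * (d - c1 * j) - (b + q) * c = 1 := by
    rw [hc12]
    linear_combination hdet + b * hc12 + c1 * hq
  have hcs : (p : ℤ) ^ s * N ∣ c := by
    rw [hc12]
    exact hc1s.mul_left _
  have hds' : (p : ℤ) ^ s * N ∣ (d - c1 * j) - 1 := by
    rw [show (d - c1 * j) - 1 = (d - 1) - c1 * j by ring]
    exact dvd_sub hds (hc1s.mul_right _)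
  have key : ∀ y : ℚ, Dm N y → Lg p N i (y + j / p ^ E) →
      hh p Φ ((a * y + b) / (c * y + d)) =
        Φ ∞ (mob (a + j' * c1) (b + q) c (d - c1 * j) ∞) + hh p Φ y := by
    intro y hy hly
    have h1 := (K.lg_eqv hr hn0 hs hdet' hcs hds' hly).2
    rw [K.hh_tr hy] at h1
    rw [← h1]
    have hNc : (N : ℤ) ∣ c := (dvd_mul_left _ _).trans hcs
    have hNd : (N : ℤ) ∣ d - 1 := (dvd_mul_left _ _).trans hds
    obtain ⟨hne, hDm⟩ := hy.mob (a := a) (b := b) K.hN hNc (cop_of_dvd_sub_one hNd)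
    rw [← K.hh_tr hDm j' E]
    congr 1
    have e1 : (c : ℚ) * (y + j / (p : ℚ) ^ E) + ((d - c1 * j : ℤ) : ℚ) = c * y + d := by
      have : (c : ℚ) = (p : ℚ) ^ E * c1 := by exact_mod_cast hc12
      push_cast
      rw [this]
      field_simp
      ring
    rw [e1]
    have e2 : (((a + j' * c1 : ℤ) : ℚ)) * (y + j / (p : ℚ) ^ E) + ((b + q : ℤ) : ℚ) =
        (a * y + b) + (j' / (p : ℚ) ^ E) * (c * y + d) := by
      have h2 : (c : ℚ) = (p : ℚ) ^ E * c1 := by exact_mod_cast hc12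
      have h3 : (j' : ℚ) * (d - c1 * j) - a * j = (p : ℚ) ^ E * q := by exact_mod_cast hq
      push_cast
      rw [h2]
      field_simp
      linear_combination -h3
    rw [e2]
    generalize (c : ℚ) * y + d = Z at hne ⊢
    field_simp
  have hzero := key 0 (by simpa using dm_int (N := N) 0) (by
    refine ⟨j, E, 1, by omega, not_dvd_one K.hp, isCoprime_one_left, ?_, by simp⟩
    rw [mul_one]
    exact (isCoprime_natCast_of_not_dvd K.hp hj).pow_right)
  rw [K.hh_zero, add_zero, mul_zero, mul_zero, zero_add, zero_add] at hzero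
  rw [key x hx hjx, hzero]

/-- The properties of `h` which are used: `h` is invariant under the translations by elements of `ℤ[1/p]`
and equivariant under `Γ₁(p ^ s N)`. -/
structure HH (p N s : ℕ) (h : ℚ → M) : Prop where
  hp : p.Prime
  hN : 1 < N
  hpN : p.Coprime N
  h0 : h 0 = 0
  tr : ∀ x, Dm N x → ∀ (e : ℤ) (n : ℕ), h (x + e / p ^ n) = h x
  eqv : ∀ a b c d : ℤ, a * d - b * c = 1 → (p : ℤ) ^ s * N ∣ c → (p : ℤ) ^ s * N ∣ d - 1 →
    ∀ x, Dm N x → h ((a * x + b) / (c * x + d)) = h ((b : ℚ) / d) + h x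

lemma Key.HH (K : Key p N r n0 Φ) :
    HH p N (max r n0 + 1 + (max r n0 + 2)) (hh p Φ) where
  hp := K.hp
  hN := K.hN
  hpN := K.hpN
  h0 := K.hh_zero
  tr := fun _ hx e n => K.hh_tr hx e n
  eqv := fun _ _ _ _ hdet hc hd _ hx =>
    K.eqv1 (le_max_left r n0) (le_max_right r n0) (lt_add_one _) rfl hdet hc hd hx

section HH

variable {s : ℕ} {h : ℚ → M}

lemma HH.low1 (H : HH p N s h) {c : ℤ} (hc : (p : ℤ) ^ s * N ∣ c) {x : ℚ} (hx : Dm N x) :
    h (x / (c * x + 1)) = h x := by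
  have h1 := H.eqv 1 0 c 1 (by ring) hc (by simp) x hx
  have e1 : ((0 : ℤ) : ℚ) / ((1 : ℤ) : ℚ) = 0 := by simp
  rw [e1, H.h0, zero_add] at h1
  rw [← h1]
  congr 1
  push_cast
  ring

lemma HH.pQ (H : HH p N s h) : (p : ℚ) ≠ 0 := by exact_mod_cast H.hp.ne_zero

lemma dm_mul {x : ℚ} (hx : Dm N x) (j : ℕ) : Dm N (p ^ j * x) := by
  obtain ⟨u, v, hv, rfl⟩ := hx
  refine ⟨(p : ℤ) ^ j * u, v, hv, ?_⟩
  push_cast
  ring

lemma HH.dm_div (H : HH p N s h) {x : ℚ} (hx : Dm N x) (j : ℕ) : Dm N (x / p ^ j) := by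
  obtain ⟨u, v, hv, rfl⟩ := hx
  refine ⟨u, v * (p : ℤ) ^ j, hv.mul_left (cop_p H.hpN j), ?_⟩
  push_cast
  rw [div_div]

lemma HH.dm_low (H : HH p N s h) {x : ℚ} (hx : Dm N x) {c : ℤ} (hc : (N : ℤ) ∣ c) :
    (c : ℚ) * x + 1 ≠ 0 ∧ Dm N (x / (c * x + 1)) := by
  have h1 := hx.mob (a := 1) (b := 0) (c := c) (d := 1) H.hN hc isCoprime_one_left
  push_cast at h1
  simpa using h1

/-- homogeneity -/
lemma HH.scal (H : HH p N s h) {l : ℕ} (hl : (N : ℤ) ∣ (p : ℤ) ^ l - 1) {x : ℚ} (hx : Dm N x) :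
    h (p ^ (2 * l) * x) = h x := by
  have hpQ := H.pQ
  obtain ⟨W, hW⟩ := hl
  have hWQ : (p : ℚ) ^ l - 1 = N * W := by exact_mod_cast hW
  have hC : (p : ℤ) ^ s * N ∣ -((p : ℤ) ^ l * ((p : ℤ) ^ s * N)) := (dvd_mul_left _ _).neg_right
  have hNC : (N : ℤ) ∣ -((p : ℤ) ^ l * ((p : ℤ) ^ s * N)) := (dvd_mul_left _ _).trans hC
  obtain ⟨n1, d1⟩ := H.dm_low hx hNC
  have s1 := H.low1 hC hx
  obtain ⟨x1, hx1⟩ : ∃ x1 : ℚ, x1 = x / ((-((p : ℤ) ^ l * ((p : ℤ) ^ s * N)) : ℤ) * x + 1) :=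
    ⟨_, rfl⟩
  rw [← hx1] at s1 d1
  -- first translation
  have s2 := H.tr x1 d1 (-W) (s + l)
  have d2 : Dm N (x1 + ((-W : ℤ) : ℚ) / p ^ (s + l)) := d1.add H.hp H.hpN H.hN _ _
  obtain ⟨x2, hx2⟩ : ∃ x2 : ℚ, x2 = x1 + ((-W : ℤ) : ℚ) / p ^ (s + l) := ⟨_, rfl⟩
  rw [← hx2] at s2 d2
  -- second lower triangular matrix
  have s3 := H.low1 (c := (p : ℤ) ^ s * N) dvd_rfl d2
  obtain ⟨n3, d3⟩ := H.dm_low d2 (c := (p : ℤ) ^ s * N) (dvd_mul_left _ _)
  obtain ⟨x3, hx3⟩ : ∃ x3 : ℚ, x3 = x2 / (((p : ℤ) ^ s * N : ℤ) * x2 + 1) := ⟨_, rfl⟩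
  rw [← hx3] at s3 d3
  have s4 := H.tr x3 d3 W s
  rw [← s1, ← s2, ← s3, ← s4]
  congr 1
  push_cast at n1 hx1 hx2 n3 hx3 ⊢
  obtain ⟨P, hP⟩ : ∃ P : ℚ, P = (p : ℚ) ^ l := ⟨_, rfl⟩
  obtain ⟨S, hS⟩ : ∃ S : ℚ, S = (p : ℚ) ^ s := ⟨_, rfl⟩
  have hP0 : P ≠ 0 := by rw [hP]; exact pow_ne_zero _ hpQ
  have hS0 : S ≠ 0 := by rw [hS]; exact pow_ne_zero _ hpQ
  have e2l : (p : ℚ) ^ (2 * l) = P ^ 2 := by rw [hP, ← pow_mul, mul_comm]
  have esl : (p : ℚ) ^ (s + l) = S * P := by rw [hP, hS, pow_add]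
  rw [← hP] at n1 hx1 hWQ
  rw [← hS] at n1 hx1 n3 hx3 ⊢
  rw [esl] at hx2
  rw [e2l]
  obtain ⟨T, hT⟩ : ∃ T : ℚ, T = -(P * (S * N)) * x + 1 := ⟨_, rfl⟩
  rw [← hT] at n1 hx1
  have hx2' : S * N * x2 + 1 = 1 / (P * T) := by
    rw [hx2, hx1]
    field_simp
    linear_combination hT + T * hWQ
  rw [hx2'] at hx3
  rw [hx3, hx2, hx1]
  field_simp
  linear_combination (W : ℚ) * hT + (x * P * S) * hWQ

lemma HH.scal_pow (H : HH p N s h) {l : ℕ} (hl : (N : ℤ) ∣ (p : ℤ) ^ l - 1) {x : ℚ}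
    (hx : Dm N x) (q : ℕ) : h (p ^ (2 * (l * q)) * x) = h x :=
  H.scal (dvd_pow_mul_sub hl q) hx

lemma HH.exists_l (H : HH p N s h) : ∃ l : ℕ, 0 < l ∧ (N : ℤ) ∣ (p : ℤ) ^ l - 1 :=
  exists_order H.hp (not_dvd_level' H.hp H.hpN)

lemma HH.low (H : HH p N s h) {c : ℤ} (hc : (N : ℤ) ∣ c) {x : ℚ} (hx : Dm N x) :
    h (x / (c * x + 1)) = h x := by
  obtain ⟨l, hl0, hl⟩ := H.exists_l
  have hpQ := H.pQ
  obtain ⟨t, ht⟩ : ∃ t : ℕ, t = 2 * (l * s) := ⟨_, rfl⟩
  have hst : s ≤ t := by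
    rw [ht]
    nlinarith
  have h1 := H.low1 (c := c * (p : ℤ) ^ t) (by
    rw [mul_comm]
    exact mul_dvd_mul hc (pow_dvd_pow _ hst)) (H.dm_div hx t)
  have d1 := (H.dm_low (c := c * (p : ℤ) ^ t) (H.dm_div hx t) (hc.mul_right _)).2
  have h2 := H.scal_pow hl d1 s
  have h3 := H.scal_pow hl (H.dm_div hx t) s
  rw [← ht] at h2 h3
  rw [h1, ← h3] at h2
  have e1 : (p : ℚ) ^ t * (x / p ^ t) = x := by field_simp
  have e2 : (p : ℚ) ^ t * (x / p ^ t / (((c * (p : ℤ) ^ t : ℤ) : ℚ) * (x / p ^ t) + 1)) =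
      x / (c * x + 1) := by
    have : ((c * (p : ℤ) ^ t : ℤ) : ℚ) * (x / p ^ t) = c * x := by
      push_cast
      field_simp
    rw [this, ← mul_div_assoc, e1]
  rw [e1, e2] at h2
  exact h2

lemma HH.tr_int (H : HH p N s h) {x : ℚ} (hx : Dm N x) (e : ℤ) : h (x + e) = h x := by
  have := H.tr x hx e 0
  simpa using this

lemma HH.unip (H : HH p N s h) {x : ℚ} (hx : Dm N x) {c e c' : ℤ} (hc : (N : ℤ) ∣ c)
    (hc' : (N : ℤ) ∣ c') :
    ((c' : ℚ) * (x / (c * x + 1) + e) + 1 ≠ 0 ∧ (c : ℚ) * x + 1 ≠ 0) ∧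
    Dm N ((x / (c * x + 1) + e) / (c' * (x / (c * x + 1) + e) + 1)) ∧
    h ((x / (c * x + 1) + e) / (c' * (x / (c * x + 1) + e) + 1)) = h x := by
  obtain ⟨n1, d1⟩ := H.dm_low hx hc
  have s1 := H.low hc hx
  have s2 := H.tr_int d1 e
  have d2 : Dm N (x / (c * x + 1) + e) := by
    have := d1.add H.hp H.hpN H.hN e 0
    simpa using this
  obtain ⟨n3, d3⟩ := H.dm_low d2 hc'
  have s3 := H.low hc' d2
  exact ⟨⟨n3, n1⟩, d3, by rw [s3, s2, s1]⟩

/-- equivariance under `Γ₁(N)` -/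
lemma HH.eqvN (H : HH p N s h) {a b c d : ℤ} (hdet : a * d - b * c = 1) (hc : (N : ℤ) ∣ c)
    (hd : (N : ℤ) ∣ d - 1) {x : ℚ} (hx : Dm N x) :
    h ((a * x + b) / (c * x + d)) = h ((b : ℚ) / d) + h x := by
  have hpp : Prime (p : ℤ) := Nat.prime_iff_prime_int.mp H.hp
  obtain ⟨C, hC⟩ := hc
  have hcd : IsCoprime c d := ⟨-b, a, by linear_combination hdet⟩
  -- first step: make the lower left entry prime to `p`
  obtain ⟨z0, hz0⟩ : ∃ z0 : ℤ, ¬ (p : ℤ) ∣ C + d * z0 := by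
    by_cases h1 : (p : ℤ) ∣ C
    · refine ⟨1, fun h2 => ?_⟩
      rw [mul_one] at h2
      have h3 : (p : ℤ) ∣ d := (dvd_add_right h1).mp h2
      have h4 : (p : ℤ) ∣ c := by
        rw [hC]
        exact h1.mul_left _
      exact hpp.not_isUnit (hcd.isUnit_of_dvd' h4 h3)
    · exact ⟨0, by simpa using h1⟩
  obtain ⟨C1, hC1⟩ : ∃ C1 : ℤ, C1 = C + d * z0 := ⟨_, rfl⟩
  rw [← hC1] at hz0
  -- second step: make the lower right entry `1` modulo `p ^ s`
  have hcop : ∀ {x : ℤ}, ¬ (p : ℤ) ∣ x → ∀ k : ℕ, IsCoprime x ((p : ℤ) ^ k) := fun h k =>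
    (isCoprime_natCast_of_not_dvd H.hp h).pow_right
  obtain ⟨q1, hq1⟩ := exists_inverse (m := (p : ℤ) ^ (s + 1)) (e := N * C1)
    ((hcop (not_dvd_level' H.hp H.hpN) _).mul_left (hcop hz0 _))
  obtain ⟨y, hy⟩ : ∃ y : ℤ, y = (1 - d) * q1 := ⟨_, rfl⟩
  obtain ⟨d1, hd1⟩ : ∃ d1 : ℤ, d1 = d + N * C1 * y := ⟨_, rfl⟩
  have hd1s : (p : ℤ) ^ (s + 1) ∣ d1 - 1 := by
    rw [hd1, hy, show d + N * C1 * ((1 - d) * q1) - 1 = (1 - d) * (q1 * (N * C1) - 1) by ring]
    exact hq1.mul_left _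
  have hd1N : (N : ℤ) ∣ d1 - 1 := by
    rw [hd1, show d + N * C1 * y - 1 = (d - 1) + N * (C1 * y) by ring]
    exact dvd_add hd (dvd_mul_right _ _)
  have hcopN : IsCoprime ((p : ℤ) ^ (s + 1)) (N : ℤ) := cop_p H.hpN _
  have hd1sN : (p : ℤ) ^ (s + 1) * N ∣ d1 - 1 := hcopN.mul_dvd hd1s hd1N
  have hpd1 : ¬ (p : ℤ) ∣ d1 := by
    intro h1
    have h2 : (p : ℤ) ∣ d1 - 1 := (dvd_pow_self _ (by omega)).trans hd1s
    have h3 := dvd_sub h1 h2
    rw [sub_sub_cancel] at h3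
    exact not_dvd_one H.hp h3
  -- third step: make the lower left entry divisible by `p ^ s`
  obtain ⟨q2, hq2⟩ := exists_inverse (m := (p : ℤ) ^ (s + 1)) (e := d1) (hcop hpd1 _)
  obtain ⟨z, hz⟩ : ∃ z : ℤ, z = -(C1 * q2) := ⟨_, rfl⟩
  have hC2 : (p : ℤ) ^ (s + 1) ∣ C1 + d1 * z := by
    rw [hz, show C1 + d1 * -(C1 * q2) = -(C1 * (q2 * d1 - 1)) by ring, dvd_neg]
    exact hq2.mul_left _
  -- the matrix `g1 = g n^-(N z0) n(y) n^-(N z)`
  obtain ⟨a1, ha1⟩ : ∃ a1 : ℤ, a1 = a + b * (N * z0) := ⟨_, rfl⟩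
  obtain ⟨b1, hb1⟩ : ∃ b1 : ℤ, b1 = b + a1 * y := ⟨_, rfl⟩
  obtain ⟨a2, ha2⟩ : ∃ a2 : ℤ, a2 = a1 + b1 * (N * z) := ⟨_, rfl⟩
  obtain ⟨c2, hc2⟩ : ∃ c2 : ℤ, c2 = N * (C1 + d1 * z) := ⟨_, rfl⟩
  have hc1 : c + d * (N * z0) = N * C1 := by rw [hC, hC1]; ring
  have hdet1 : a1 * d - b * (N * C1) = 1 := by
    rw [ha1, ← hc1]
    linear_combination hdet
  have hdet2 : a1 * d1 - b1 * (N * C1) = 1 := by
    rw [hd1, hb1]
    linear_combination hdet1
  have hdet3 : a2 * d1 - b1 * c2 = 1 := by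
    rw [ha2, hc2]
    linear_combination hdet2
  have hss : (p : ℤ) ^ s ∣ (p : ℤ) ^ (s + 1) := pow_dvd_pow _ (by omega)
  have hc2s : (p : ℤ) ^ s * N ∣ c2 := by
    rw [hc2, mul_comm (N : ℤ)]
    exact mul_dvd_mul_right (hss.trans hC2) _
  have hd1s' : (p : ℤ) ^ s * N ∣ d1 - 1 := (mul_dvd_mul_right hss _).trans hd1sN
  -- inverse transformations of the argument
  have key : ∀ w : ℚ, Dm N w → h ((a * w + b) / (c * w + d)) = h ((b1 : ℚ) / d1) + h w := by
    intro w hw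
    obtain ⟨⟨n3, n1⟩, d3, s3⟩ := H.unip hw (c := -(N * z0)) (e := -y) (c' := -(N * z))
      (dvd_mul_right _ _).neg_right (dvd_mul_right _ _).neg_right
    have h4 := H.eqv a2 b1 c2 d1 hdet3 hc2s hd1s' _ d3
    rw [s3] at h4
    rw [← h4]
    congr 1
    have hNc2 : (N : ℤ) ∣ c2 := by rw [hc2]; exact dvd_mul_right _ _
    obtain ⟨n5, -⟩ := d3.mob (a := a2) (b := b1) H.hN hNc2 (cop_of_dvd_sub_one hd1N)
    obtain ⟨n6, -⟩ := hw.mob (a := a) (b := b) (c := c) (d := d) H.hN (by rw [hC]; exact dvd_mul_right _ _)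
      (cop_of_dvd_sub_one hd)
    rw [div_eq_div_iff n6 n5]
    have E1 : (c : ℚ) + d * (N * z0) = N * C1 := by exact_mod_cast hc1
    have Ea1 : (a1 : ℚ) = a + b * (N * z0) := by exact_mod_cast ha1
    have Eb1 : (b1 : ℚ) = b + a1 * y := by exact_mod_cast hb1
    have Ea2 : (a2 : ℚ) = a1 + b1 * (N * z) := by exact_mod_cast ha2
    have Ec2 : (c2 : ℚ) = N * (C1 + d1 * z) := by exact_mod_cast hc2
    have Ed1 : (d1 : ℚ) = d + N * C1 * y := by exact_mod_cast hd1
    obtain ⟨w1, hw1⟩ : ∃ w1 : ℚ, w1 = w / (((-(N * z0) : ℤ) : ℚ) * w + 1) := ⟨_, rfl⟩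
    rw [← hw1] at n3 ⊢
    obtain ⟨w2, hw2⟩ : ∃ w2 : ℚ, w2 = w1 + ((-y : ℤ) : ℚ) := ⟨_, rfl⟩
    rw [← hw2] at n3 ⊢
    obtain ⟨w3, hw3⟩ : ∃ w3 : ℚ, w3 = w2 / (((-(N * z) : ℤ) : ℚ) * w2 + 1) := ⟨_, rfl⟩
    rw [← hw3]
    push_cast at hw1 hw2 hw3 n1 n3
    -- relations without denominators
    have r1 : w1 * (-(N * z0) * w + 1) = w := by
      rw [hw1]
      exact div_mul_cancel₀ _ n1
    have r3 : w3 * (-(N * z) * w2 + 1) = w2 := by
      rw [hw3]
      exact div_mul_cancel₀ _ n3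
    have g1 : ((c2 : ℚ) * w3 + d1) * (-(N * z) * w2 + 1) = N * C1 * w2 + d1 := by
      rw [Ec2]
      linear_combination (N * (C1 + d1 * z) : ℚ) * r3
    have g2 : ((a2 : ℚ) * w3 + b1) * (-(N * z) * w2 + 1) = a1 * w2 + b1 := by
      rw [Ea2]
      linear_combination (a1 + b1 * (N * z) : ℚ) * r3
    have g3 : (N * C1 * w2 + d1) * (-(N * z0) * w + 1) = c * w + d := by
      rw [Ed1, hw2]
      linear_combination ((N : ℚ) * C1) * r1 - w * E1
    have g4 : ((a1 : ℚ) * w2 + b1) * (-(N * z0) * w + 1) = a * w + b := by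
      rw [Eb1, hw2]
      linear_combination (a1 : ℚ) * r1 + w * Ea1
    rw [← g3, ← g4, ← g1, ← g2]
    ring
  have h0 := key 0 (by simpa using dm_int (N := N) 0)
  rw [H.h0, add_zero, mul_zero, mul_zero, zero_add, zero_add] at h0
  rw [key x hx, h0]

end HH

end Pool.Agent.NSY


end

section

/-!
# Block Y (KEY0), part 5: Ihara's lemma for functions with values in a `p`-primary group (helper6)

Adapted from `Pool/Agent/MuW2/Const.lean` and `Ihara.lean` (values in a field).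
-/

set_option autoImplicit false

open Finset

namespace Pool.Agent.NSY

open _root_.Pool.Agent.MuW2

section Const

variable {K : Type} [Field K] [Fintype K] [DecidableEq K] {M : Type} [AddCommGroup M]

/-- The relations of the function `f`. -/
def RelM (w : Kˣ) (f : Kˣ → M) : Prop :=
  (∀ t, f (w * t) = f t) ∧ ∀ t y r : Kˣ, y ≠ 1 → y ≠ w → (r : K) * (w - y) = 1 - y →
    f (t * y) - f t = f (t * r * y) - f (t * r)

theorem constM_aux {w : Kˣ} (hw : w ≠ 1) (hcard : ∀ m : M, (Fintype.card Kˣ) • m = 0 → m = 0)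
    (n : ℕ) : ∀ f : Kˣ → M, RelM w f →
      (∃ T : Finset Kˣ, T.card ≤ n ∧ ∀ s ∉ T, ∀ t, f (s * t) = f t) → ∀ t, f t = f 1 := by
  classical
  induction n with
  | zero =>
    rintro f _ ⟨T, hT, hT2⟩ t
    have hT0 : T = ∅ := card_eq_zero.mp (by omega)
    have h1 := hT2 t (by rw [hT0]; exact notMem_empty _) 1
    rw [mul_one] at h1
    exact h1
  | succ n ih =>
    rintro f hf ⟨T0, hT0, hT02⟩ t
    by_cases hall : ∀ s t, f (s * t) = f t
    · have h1 := hall t 1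
      rw [mul_one] at h1
      exact h1
    exfalso
    push Not at hall
    obtain ⟨z, tz, hz⟩ := hall
    let S : Finset Kˣ := univ.filter fun s => ∀ t, f (s * t) = f t
    let T : Finset Kˣ := univ.filter fun s => ¬ ∀ t, f (s * t) = f t
    have hTT0 : T ⊆ T0 := by
      intro s hs
      by_contra hcon
      exact (mem_filter.mp hs).2 (hT02 s hcon)
    have h1 : S.card ≤ T.card := by
      apply card_le_card_of_injOn (fun s => z * s)
      · intro s hs
        have hs' : ∀ t, f (s * t) = f t := (mem_filter.mp hs).2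
        simp only [T, coe_filter, mem_univ, true_and, Set.mem_ofPred_eq]
        intro hcon
        apply hz
        have h2 := hcon (s⁻¹ * tz)
        have h3 := hs' (s⁻¹ * tz)
        rw [mul_inv_cancel_left] at h3
        rw [mul_assoc, mul_inv_cancel_left] at h2
        rw [h2, ← h3]
      · intro s _ s' _ hss
        exact mul_left_cancel hss
    have h1S : (1 : Kˣ) ∈ S := by
      simp [S]
    have hwS : w ∈ S := by
      simp only [S, mem_filter, mem_univ, true_and]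
      exact hf.1
    have hne : ∀ y ∈ T, y ≠ 1 ∧ y ≠ w := by
      intro y hy
      constructor
      · rintro rfl
        exact (mem_filter.mp hy).2 (mem_filter.mp h1S).2
      · rintro rfl
        exact (mem_filter.mp hy).2 (mem_filter.mp hwS).2
    have h2 : ∃ y ∈ T, rho w y ∈ T := by
      by_contra hcon
      push Not at hcon
      have h3 : T.card ≤ (S.erase 1).card := by
        apply card_le_card_of_injOn (fun y => rho w y)
        · intro y hy
          have hy' := hcon y hy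
          rw [mem_coe, mem_erase]
          constructor
          · intro h4
            change rho w y = 1 at h4
            have h5 := rho_spec (hne y hy).1 (hne y hy).2
            rw [h4, Units.val_one, one_mul] at h5
            apply hw
            apply Units.ext
            rw [Units.val_one]
            linear_combination h5
          · simp only [S, mem_filter, mem_univ, true_and]
            by_contra h6
            apply hy'
            simp only [T, mem_filter, mem_univ, true_and]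
            exact h6
        · intro y hy y' hy' hyy
          exact rho_inj hw (hne y hy).1 (hne y hy).2 (hne y' hy').1 (hne y' hy').2 hyy
      rw [card_erase_of_mem h1S] at h3
      have h4 : 0 < S.card := card_pos.mpr ⟨1, h1S⟩
      omega
    obtain ⟨y, hy, hr⟩ := h2
    set r := rho w y with hrdef
    have hrel : ∀ t, f (t * y) - f t = f (t * r * y) - f (t * r) := fun t =>
      hf.2 t y r (hne y hy).1 (hne y hy).2 (rho_spec (hne y hy).1 (hne y hy).2)
    let f1 : Kˣ → M := fun t => f (t * r) - f t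
    have hf1 : RelM w f1 := by
      constructor
      · intro t
        change f (w * t * r) - f (w * t) = f (t * r) - f t
        rw [mul_assoc, hf.1, hf.1]
      · intro t y' r' h3 h4 h5
        change f (t * y' * r) - f (t * y') - (f (t * r) - f t) =
          f (t * r' * y' * r) - f (t * r' * y') - (f (t * r' * r) - f (t * r'))
        have e1 := hf.2 t y' r' h3 h4 h5
        have e2 := hf.2 (t * r) y' r' h3 h4 h5
        rw [show t * r * y' = t * y' * r by rw [mul_right_comm], show t * r * r' * y' = t * r' * y' * r by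
          rw [mul_right_comm t r r', mul_right_comm (t * r') r y'],
          show t * r * r' = t * r' * r by rw [mul_right_comm]] at e2
        linear_combination (norm := abel) e2 - e1
    have hconst := ih f1 hf1 ⟨T.erase y, by
      rw [card_erase_of_mem hy]
      have := card_le_card hTT0
      omega, by
      intro s hs t
      change f (s * t * r) - f (s * t) = f (t * r) - f t
      rw [mem_erase] at hs
      push Not at hs
      by_cases hsy : s = y
      · subst hsy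
        have := hrel t
        rw [mul_comm s t, mul_right_comm t s r]
        linear_combination (norm := abel) -this
      · have hsT := hs hsy
        have hsS : ∀ t, f (s * t) = f t := by
          by_contra h6
          apply hsT
          simp only [T, mem_filter, mem_univ, true_and]
          exact h6
        rw [mul_assoc, hsS, hsS]⟩
    have hr2 : ¬ ∀ t, f (r * t) = f t := (mem_filter.mp hr).2
    push Not at hr2
    obtain ⟨t0, ht0⟩ := hr2
    have hne0 : f1 t0 ≠ 0 := by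
      change f (t0 * r) - f t0 ≠ 0
      rw [mul_comm]
      exact sub_ne_zero.mpr ht0
    have hsum : ∑ t, f1 t = 0 := by
      change ∑ t, (f (t * r) - f t) = 0
      rw [sum_sub_distrib, sub_eq_zero]
      exact Equiv.sum_comp (Equiv.mulRight r) f
    have hsum2 : ∑ t, f1 t = (Fintype.card Kˣ) • f1 1 := by
      rw [sum_congr rfl (fun t _ => hconst t), sum_const, card_univ]
    rw [hsum] at hsum2
    have h7 := hcard _ hsum2.symm
    rw [hconst t0, h7] at hne0
    exact hne0 rfl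

theorem constM_of_rel {w : Kˣ} (hw : w ≠ 1) (hcard : ∀ m : M, (Fintype.card Kˣ) • m = 0 → m = 0)
    {f : Kˣ → M} (hf : RelM w f) (t : Kˣ) : f t = f 1 := by
  classical
  exact constM_aux hw hcard (univ : Finset Kˣ).card f hf
    ⟨univ, le_rfl, fun s hs => absurd (mem_univ s) hs⟩ t

/-- The version for groups without odd torsion: `|K^*| = 2 m`, `m` odd; the function `f` is invariant under
the squares, that is under the elements `s` with `s ^ m = 1`. -/
theorem constM2_aux {w : Kˣ} (hw : w ≠ 1) {m : ℕ} (hwm : w ^ m = 1)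
    (hcard : Fintype.card Kˣ = 2 * m) (hodd : Odd m) (htor : ∀ x : M, m • x = 0 → x = 0)
    (n : ℕ) : ∀ f : Kˣ → M, RelM w f →
      (∃ T : Finset Kˣ, T.card ≤ n ∧ ∀ s ∉ T, ∀ t, f (s * t) = f t) →
      ∀ s : Kˣ, s ^ m = 1 → ∀ t, f (s * t) = f t := by
  classical
  induction n with
  | zero =>
    rintro f _ ⟨T, hT, hT2⟩ s _ t
    have hT0 : T = ∅ := card_eq_zero.mp (by omega)
    exact hT2 s (by rw [hT0]; exact notMem_empty _) t
  | succ n ih =>
    rintro f hf ⟨T0, hT0, hT02⟩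
    by_contra hall
    push Not at hall
    obtain ⟨z, hzm, tz, hz⟩ := hall
    let S : Finset Kˣ := univ.filter fun s => ∀ t, f (s * t) = f t
    let T : Finset Kˣ := univ.filter fun s => ¬ ∀ t, f (s * t) = f t
    let T2 : Finset Kˣ := univ.filter fun s => s ^ m = 1 ∧ ¬ ∀ t, f (s * t) = f t
    have memS : ∀ s, s ∈ S ↔ ∀ t, f (s * t) = f t := fun s => by simp [S]
    have memT : ∀ s, s ∈ T ↔ ¬ ∀ t, f (s * t) = f t := fun s => by simp [T]
    have memT2 : ∀ s, s ∈ T2 ↔ s ^ m = 1 ∧ ¬ ∀ t, f (s * t) = f t := fun s => by simp [T2]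
    have hTT0 : T ⊆ T0 := by
      intro s hs
      by_contra hcon
      exact (memT s).mp hs (hT02 s hcon)
    have h1S : (1 : Kˣ) ∈ S := by simp [S]
    have mulS : ∀ s s', s ∈ S → s' ∈ S → s * s' ∈ S := by
      intro s s' hs hs'
      rw [memS] at hs hs' ⊢
      intro t
      rw [mul_assoc, hs, hs']
    have invS : ∀ s, s ∈ S → s⁻¹ ∈ S := by
      intro s hs
      rw [memS] at hs ⊢
      intro t
      have := hs (s⁻¹ * t)
      rw [mul_inv_cancel_left] at this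
      exact this.symm
    have hzS : z ∉ S := by
      rw [memS]
      intro hcon
      exact hz (hcon tz)
    have hwS : w ∈ S := (memS w).mpr hf.1
    have hz2 : z * z ∉ S := by
      intro hcon
      apply hzS
      obtain ⟨q, hq⟩ := hodd
      have h1 : ∀ k : ℕ, (z * z) ^ k ∈ S := by
        intro k
        induction k with
        | zero => simpa using h1S
        | succ k ihk =>
          rw [pow_succ]
          exact mulS _ _ ihk hcon
      have h2 : z = (z * z) ^ (q + 1) := by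
        have h3 : (z * z) ^ (q + 1) = z ^ m * z := by
          rw [← pow_two, ← pow_mul, hq, ← pow_succ]
          congr 1
        rw [h3, hzm, one_mul]
      rw [h2]
      exact h1 _
    have hpm : ∀ s s' : Kˣ, s ^ m ≠ 1 → s' ^ m ≠ 1 → (s * s') ^ m = 1 := by
      have h1 : ∀ s : Kˣ, s ^ m ≠ 1 → s ^ m = -1 := by
        intro s hs
        have h2 : (s ^ m) ^ 2 = 1 := by
          rw [← pow_mul, mul_comm, ← hcard]
          exact pow_card_eq_one
        have h3 : ((s ^ m : Kˣ) : K) ^ 2 = 1 := by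
          rw [← Units.val_pow_eq_pow_val, h2, Units.val_one]
        rcases sq_eq_one_iff.mp h3 with h4 | h4
        · exact absurd (Units.ext (by rw [h4, Units.val_one])) hs
        · exact Units.ext (by rw [h4, Units.val_neg, Units.val_one])
      intro s s' hs hs'
      rw [mul_pow, h1 s hs, h1 s' hs', neg_mul_neg, one_mul]
    have h1 : S.card ≤ T2.card := by
      by_cases hn : ∃ n0 ∈ S, n0 ^ m ≠ 1
      · obtain ⟨n0, hn0S, hn0⟩ := hn
        apply card_le_card_of_injOn (fun s => if s ^ m = 1 then z * s else z * z * (n0 * s))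
        · intro s hs
          rw [mem_coe] at hs ⊢
          rw [memT2, ← memS]
          dsimp only
          split_ifs with h4
          · refine ⟨by rw [mul_pow, hzm, h4, one_mul], fun hcon => hzS ?_⟩
            have := mulS _ _ hcon (invS _ hs)
            rwa [mul_inv_cancel_right] at this
          · refine ⟨by rw [mul_pow, mul_pow, hzm, hpm _ _ hn0 h4, one_mul, one_mul], fun hcon => hz2 ?_⟩
            have := mulS _ _ hcon (invS _ (mulS _ _ hn0S hs))
            rwa [mul_inv_cancel_right] at this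
        · intro s hs s' hs' hss
          rw [mem_coe] at hs hs'
          dsimp only at hss
          split_ifs at hss with h4 h5 h5
          · exact mul_left_cancel hss
          · exfalso
            apply hzS
            rw [mul_assoc] at hss
            have h6 := mul_left_cancel hss
            have h7 : z = s * (n0 * s')⁻¹ := by rw [h6, mul_inv_cancel_right]
            rw [h7]
            exact mulS _ _ hs (invS _ (mulS _ _ hn0S hs'))
          · exfalso
            apply hzS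
            rw [mul_assoc] at hss
            have h6 := mul_left_cancel hss
            have h7 : z = s' * (n0 * s)⁻¹ := by rw [← h6, mul_inv_cancel_right]
            rw [h7]
            exact mulS _ _ hs' (invS _ (mulS _ _ hn0S hs))
          · exact mul_left_cancel (mul_left_cancel hss)
      · push Not at hn
        apply card_le_card_of_injOn (fun s => z * s)
        · intro s hs
          rw [mem_coe] at hs ⊢
          rw [memT2, ← memS]
          refine ⟨by rw [mul_pow, hzm, hn s hs, one_mul], fun hcon => hzS ?_⟩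
          have := mulS _ _ hcon (invS _ hs)
          rwa [mul_inv_cancel_right] at this
        · intro s _ s' _ hss
          exact mul_left_cancel hss
    have hne : ∀ y ∈ T2, y ≠ 1 ∧ y ≠ w := by
      intro y hy
      have hy' : y ∉ S := by
        rw [memS]
        exact ((memT2 y).mp hy).2
      exact ⟨by rintro rfl; exact hy' h1S, by rintro rfl; exact hy' hwS⟩
    have h2 : ∃ y ∈ T2, rho w y ∈ T := by
      by_contra hcon
      push Not at hcon
      have h3 : T2.card ≤ (S.erase 1).card := by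
        apply card_le_card_of_injOn (fun y => rho w y)
        · intro y hy
          have hy' := hcon y hy
          rw [mem_coe, mem_erase]
          constructor
          · intro h4
            change rho w y = 1 at h4
            have h5 := rho_spec (hne y hy).1 (hne y hy).2
            rw [h4, Units.val_one, one_mul] at h5
            apply hw
            apply Units.ext
            rw [Units.val_one]
            linear_combination h5
          · rw [memS]
            by_contra h6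
            exact hy' ((memT _).mpr h6)
        · intro y hy y' hy' hyy
          exact rho_inj hw (hne y hy).1 (hne y hy).2 (hne y' hy').1 (hne y' hy').2 hyy
      rw [card_erase_of_mem h1S] at h3
      have h4 : 0 < S.card := card_pos.mpr ⟨1, h1S⟩
      omega
    obtain ⟨y, hy, hr⟩ := h2
    set r := rho w y with hrdef
    have hrel : ∀ t, f (t * y) - f t = f (t * r * y) - f (t * r) := fun t =>
      hf.2 t y r (hne y hy).1 (hne y hy).2 (rho_spec (hne y hy).1 (hne y hy).2)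
    let f1 : Kˣ → M := fun t => f (t * y) - f t
    have hf1 : RelM w f1 := by
      constructor
      · intro t
        change f (w * t * y) - f (w * t) = f (t * y) - f t
        rw [mul_assoc, hf.1, hf.1]
      · intro t y' r' h3 h4 h5
        change f (t * y' * y) - f (t * y') - (f (t * y) - f t) =
          f (t * r' * y' * y) - f (t * r' * y') - (f (t * r' * y) - f (t * r'))
        have e1 := hf.2 t y' r' h3 h4 h5
        have e2 := hf.2 (t * y) y' r' h3 h4 h5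
        rw [show t * y * y' = t * y' * y by rw [mul_right_comm], show t * y * r' * y' = t * r' * y' * y by
          rw [mul_right_comm t y r', mul_right_comm (t * r') y y'],
          show t * y * r' = t * r' * y by rw [mul_right_comm]] at e2
        linear_combination (norm := abel) e2 - e1
    have hinv := ih f1 hf1 ⟨T.erase r, by
      rw [card_erase_of_mem hr]
      have := card_le_card hTT0
      omega, by
      intro s hs t
      change f (s * t * y) - f (s * t) = f (t * y) - f t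
      rw [mem_erase] at hs
      push Not at hs
      by_cases hsy : s = r
      · have := hrel t
        rw [hsy, mul_comm r t]
        exact this.symm
      · have hsT := hs hsy
        have hsS : ∀ t, f (s * t) = f t := by
          by_contra h6
          exact hsT ((memT _).mpr h6)
        rw [mul_assoc, hsS, hsS]⟩
    have hym : y ^ m = 1 := ((memT2 y).mp hy).1
    apply ((memT2 y).mp hy).2
    intro t
    have h7 : ∀ k : ℕ, f (t * y ^ (k + 1)) - f (t * y ^ k) = f1 t := by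
      intro k
      have h8 := hinv (y ^ k) (by rw [← pow_mul, mul_comm, pow_mul, hym, one_pow]) t
      rw [← h8]
      change _ = f (y ^ k * t * y) - f (y ^ k * t)
      rw [pow_succ, mul_comm (y ^ k) t, mul_assoc]
    have h9 : ∑ k ∈ range m, (f (t * y ^ (k + 1)) - f (t * y ^ k)) = 0 := by
      rw [sum_range_sub (fun k => f (t * y ^ k)), hym, pow_zero, sub_self]
    rw [sum_congr rfl (fun k _ => h7 k), sum_const, card_range] at h9
    have h10 : f (t * y) - f t = 0 := htor _ h9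
    rw [mul_comm]
    exact sub_eq_zero.mp h10

theorem constM2_of_rel {w : Kˣ} (hw : w ≠ 1) {m : ℕ} (hwm : w ^ m = 1)
    (hcard : Fintype.card Kˣ = 2 * m) (hodd : Odd m) (htor : ∀ x : M, m • x = 0 → x = 0)
    {f : Kˣ → M} (hf : RelM w f) {s : Kˣ} (hs : s ^ m = 1) (t : Kˣ) : f (s * t) = f t := by
  classical
  exact constM2_aux hw hwm hcard hodd htor (univ : Finset Kˣ).card f hf
    ⟨univ, le_rfl, fun s hs => absurd (mem_univ s) hs⟩ s hs t

end Const

/-- The hypotheses of Ihara's lemma: `h` on the fractions with denominator prime to `N`. -/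
structure Ih {M : Type} [AddCommGroup M] (p N L : ℕ) (h : ℚ → M) : Prop where
  hp : p.Prime
  hN : 1 < N
  hpN : p.Coprime N
  hL : (N : ℤ) ∣ (p : ℤ) ^ L - 1
  hL0 : 0 < L
  h0 : h 0 = 0
  per : ∀ b d : ℤ, IsCoprime d (N : ℤ) → h ((b : ℚ) / d + 1) = h ((b : ℚ) / d)
  eqv : ∀ a b c d : ℤ, a * d - b * c = 1 → (N : ℤ) ∣ c → (N : ℤ) ∣ d - 1 → ∀ u v : ℤ,
    IsCoprime v (N : ℤ) →
    h (((a * u + b * v : ℤ) : ℚ) / ((c * u + d * v : ℤ) : ℚ)) = h ((b : ℚ) / d) + h ((u : ℚ) / v)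
  sc : ∀ u v : ℤ, IsCoprime v (N : ℤ) → h ((p : ℚ) ^ L * ((u : ℚ) / v)) = h ((u : ℚ) / v)

variable {M : Type} [AddCommGroup M] {p N L : ℕ} {h : ℚ → M}

lemma Ih.per_int (H : Ih p N L h) (b d n : ℤ) (hdN : IsCoprime d (N : ℤ)) :
    h (((b + n * d : ℤ) : ℚ) / d) = h ((b : ℚ) / d) := by
  have hdQ : (d : ℚ) ≠ 0 := by exact_mod_cast ne_of_cop H.hN hdN
  have step : ∀ m : ℤ, h (((b + (m + 1) * d : ℤ) : ℚ) / d) = h (((b + m * d : ℤ) : ℚ) / d) := by
    intro m
    rw [← H.per (b + m * d) d hdN]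
    congr 1
    push_cast
    field_simp
    ring
  induction n using Int.induction_on with
  | zero => simp
  | succ n ih => rw [step, ih]
  | pred n ih =>
    rw [← ih, ← step (-(n : ℤ) - 1)]
    congr 4
    ring

lemma Ih.congr (H : Ih p N L h) {b d n : ℤ} (hdN : IsCoprime d (N : ℤ))
    (hn : d ∣ n - b) : h ((n : ℚ) / d) = h ((b : ℚ) / d) := by
  obtain ⟨m, hm⟩ := hn
  rw [← H.per_int b d m hdN]
  congr 3
  linear_combination hm

lemma Ih.low (H : Ih p N L h) {b d d' : ℤ}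
    (hdN : IsCoprime d (N : ℤ)) (hdd : (N : ℤ) * b ∣ d' - d) :
    h ((b : ℚ) / d') = h ((b : ℚ) / d) := by
  obtain ⟨x, hx⟩ := hdd
  have hd2 : d' = N * x * b + 1 * d := by linear_combination hx
  have h1 := H.eqv 1 0 (N * x) 1 (by ring) (dvd_mul_right _ _) (by simp) b d hdN
  rw [← hd2] at h1
  have e1 : ((0 : ℤ) : ℚ) / ((1 : ℤ) : ℚ) = 0 := by simp
  rw [e1, H.h0, zero_add] at h1
  simpa using h1

lemma Ih.sc_pow (H : Ih p N L h) {u v : ℤ} (hvN : IsCoprime v (N : ℤ)) (j : ℕ) (hj : L ∣ j) :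
    h (((u * (p : ℤ) ^ j : ℤ) : ℚ) / v) = h ((u : ℚ) / v) := by
  obtain ⟨q, rfl⟩ := hj
  induction q with
  | zero => simp
  | succ q ih =>
    have h2 := H.sc (u * (p : ℤ) ^ (L * q)) v hvN
    rw [← ih, ← h2]
    congr 1
    push_cast
    rw [show L * (q + 1) = L * q + L by ring, pow_add]
    ring

lemma Ih.sc_den (H : Ih p N L h) {u v : ℤ} (hvN : IsCoprime v (N : ℤ)) (j : ℕ) (hj : L ∣ j) :
    h ((u : ℚ) / ((p ^ j * v : ℤ) : ℚ)) = h ((u : ℚ) / v) := by
  have hp0 : (p : ℤ) ≠ 0 := by exact_mod_cast H.hp.ne_zero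
  have hpQ : (p : ℚ) ≠ 0 := by exact_mod_cast H.hp.ne_zero
  have hvQ : (v : ℚ) ≠ 0 := by exact_mod_cast ne_of_cop H.hN hvN
  have h1 := H.sc_pow (u := u) ((cop_p H.hpN j).mul_left hvN) j hj
  have e1 : ((u * (p : ℤ) ^ j : ℤ) : ℚ) / ((p ^ j * v : ℤ) : ℚ) = (u : ℚ) / v := by
    push_cast
    field_simp
  rw [e1] at h1
  exact h1.symm

/-- The basic relation. -/
lemma Ih.basic (H : Ih p N L h) {l : ℕ} {a e k : ℤ} {j : ℕ} (hj : L ∣ j)
    (hae : (N : ℤ) * l ∣ a * e - 1) (he1 : (N : ℤ) ∣ e - 1) :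
    h ((l : ℚ) / ((e * ((p : ℤ) ^ j - N * k * a) : ℤ) : ℚ)) =
      h ((l : ℚ) / e) + h (((N * k * l : ℤ) : ℚ) / (((p : ℤ) ^ j - N * k * a : ℤ) : ℚ)) := by
  obtain ⟨m, hm⟩ := hae
  obtain ⟨Y, hYd⟩ : ∃ Y : ℤ, Y = (p : ℤ) ^ j - N * k * a := ⟨_, rfl⟩
  rw [← hYd]
  have hYN : IsCoprime Y (N : ℤ) :=
    coprime_of_dvd_sub ⟨-(k * a), by rw [hYd]; ring⟩ (cop_p H.hpN j)
  have heN : IsCoprime e (N : ℤ) := ⟨a, -(l * m), by linear_combination hm⟩
  have hcop : IsCoprime (N * m * (N * k * l) + e * Y) (N : ℤ) :=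
    coprime_of_dvd_sub (y := e * Y) ⟨m * (N * k * l), by ring⟩ (heN.mul_left hYN)
  have h1 := H.eqv a l (N * m) e (by linear_combination hm) (dvd_mul_right _ _) he1 (N * k * l) Y
    hYN
  have e1 : a * (N * k * l) + l * Y = l * (p : ℤ) ^ j := by
    rw [hYd]
    ring
  rw [e1, H.sc_pow hcop j hj] at h1
  have h2 := H.low (b := (l : ℤ)) (d := e * Y) (d' := N * m * (N * k * l) + e * Y)
    (heN.mul_left hYN) ⟨m * (N * k), by ring⟩
  rw [h2] at h1
  push_cast at h1 ⊢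
  exact h1

/-- The same symbol expressed in two ways. -/
lemma Ih.twoway (H : Ih p N L h) {l : ℕ} {a a' e e' k : ℤ} {j : ℕ} (hj : L ∣ j)
    (hae : (N : ℤ) * l ∣ a * e - 1) (hae' : (N : ℤ) * l ∣ a' * e' - 1)
    (hk : N * k * (a' - a) = (p : ℤ) ^ j - 1) (he1 : (N : ℤ) ∣ e - 1) (he1' : (N : ℤ) ∣ e' - 1) :
    h ((l : ℚ) / ((e * (1 - N * k * a) : ℤ) : ℚ)) - h ((l : ℚ) / e) =
      h ((l : ℚ) / ((e' * (1 - N * k * a) : ℤ) : ℚ)) - h ((l : ℚ) / e') := by
  have hY1 : (p : ℤ) ^ 0 - N * k * a = 1 - N * k * a := by rw [pow_zero]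
  have hY2 : (p : ℤ) ^ j - N * k * a' = 1 - N * k * a := by linear_combination -hk
  have h1 := H.basic (j := 0) (k := k) (dvd_zero _) hae he1
  have h2 := H.basic (j := j) (k := k) hj hae' he1'
  rw [hY1] at h1
  rw [hY2] at h2
  rw [h1, h2]
  abel

/-- For a large prime `l` the value at `l / D`, `D ≡ 1` modulo `N`, is a function `f` of `D` modulo `l` which
satisfies the relations `RelM`. -/
theorem Ih.numlf (H : Ih p N L h) {l J : ℕ} [Fact l.Prime] (hl : l.Prime) (hJL : L ∣ J)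
    (hJN : (N : ℤ) ^ 2 ∣ (p : ℤ) ^ J - 1) (hJ0 : 0 < J) (hlN : N < l)
    (hlJ : p ^ (2 * J) < l) : ∃ (w : (ZMod l)ˣ) (f : (ZMod l)ˣ → M), w ≠ 1 ∧
      (w : ZMod l) = (p : ZMod l) ^ (2 * J) ∧ RelM w f ∧
      ∀ (t : (ZMod l)ˣ) (e : ℤ), (N : ℤ) ∣ e - 1 → ((e : ℤ) : ZMod l) = t →
        h ((l : ℚ) / ((e : ℤ) : ℚ)) = f t := by
  classical
  have hll : Prime (l : ℤ) := Nat.prime_iff_prime_int.mp hl
  have hp2 := H.hp.two_le
  have hpl : p < l := by
    refine lt_of_le_of_lt ?_ hlJ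
    calc p = p ^ 1 := (pow_one p).symm
      _ ≤ p ^ (2 * J) := Nat.pow_le_pow_right (by omega) (by omega)
  have hl2 : 2 < l := by omega
  have hNpos : 0 < N := by have := H.hN; omega
  have hNl : ¬ (l : ℤ) ∣ N := by
    intro hcon
    have h1 : l ∣ N := by exact_mod_cast hcon
    have := Nat.le_of_dvd hNpos h1
    omega
  have hNlc : IsCoprime (N : ℤ) (l : ℤ) := isCoprime_natCast_of_not_dvd hl hNl
  have hNK : ((N : ℤ) : ZMod l) ≠ 0 := by
    intro hcon
    exact hNl ((ZMod.intCast_zmod_eq_zero_iff_dvd _ _).mp hcon)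
  have hpK : (p : ZMod l) ≠ 0 := by
    intro hcon
    have h1 := (ZMod.natCast_eq_zero_iff _ _).mp hcon
    have := Nat.le_of_dvd H.hp.pos h1
    omega
  -- dependence on the class modulo `N l`
  have hcls : ∀ e e' : ℤ, IsCoprime e (N : ℤ) → (N : ℤ) ∣ e' - e →
      (l : ℤ) ∣ e' - e → h ((l : ℚ) / e') = h ((l : ℚ) / e) := by
    intro e e' h1 h3 h4
    have h5 : (N : ℤ) * (l : ℤ) ∣ e' - e := hNlc.mul_dvd h3 h4
    have := H.low (b := (l : ℤ)) h1 h5
    push_cast at this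
    exact this
  have hch : ∀ t : (ZMod l)ˣ, ∃ e : ℤ, (N : ℤ) ∣ e - 1 ∧ ((e : ℤ) : ZMod l) = t := by
    intro t
    obtain ⟨x, hx1, hx2⟩ := crt hNlc 1 ((t : ZMod l).val : ℤ)
    refine ⟨x, hx1, ?_⟩
    rw [← zmod_eq_iff] at hx2
    rw [hx2]
    simp
  choose E hE1 hE2 using hch
  have hEN : ∀ t, IsCoprime (E t) (N : ℤ) := fun t => cop_of_dvd_sub_one (hE1 t)
  have hEl : ∀ t, ¬ (l : ℤ) ∣ E t := by
    intro t hcon
    have h1 := (ZMod.intCast_zmod_eq_zero_iff_dvd _ _).mpr hcon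
    rw [hE2 t] at h1
    exact t.ne_zero h1
  let f : (ZMod l)ˣ → M := fun t => h ((l : ℚ) / ((E t : ℤ) : ℚ))
  have hf : ∀ (t : (ZMod l)ˣ) (e : ℤ), (N : ℤ) ∣ e - 1 → ((e : ℤ) : ZMod l) = t →
      h ((l : ℚ) / ((e : ℤ) : ℚ)) = f t := by
    intro t e h1 h2
    apply hcls (E t) e (hEN t)
    · have : e - E t = (e - 1) - (E t - 1) := by ring
      rw [this]
      exact dvd_sub h1 (hE1 t)
    · rw [← zmod_eq_iff, h2, hE2]
  have hpu : IsUnit ((p : ZMod l) ^ (2 * J)) := (pow_ne_zero _ hpK).isUnit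
  obtain ⟨w, hw⟩ := hpu
  have hw1 : w ≠ 1 := by
    rintro rfl
    rw [Units.val_one] at hw
    have h1 : (((p ^ (2 * J) - 1 : ℕ) : ℕ) : ZMod l) = 0 := by
      rw [Nat.cast_sub (Nat.one_le_pow _ _ (by omega)), Nat.cast_pow, ← hw]
      simp
    rw [ZMod.natCast_eq_zero_iff] at h1
    have h2 : 1 < p ^ (2 * J) := Nat.one_lt_pow (by omega) (by omega)
    have h3 := Nat.le_of_dvd (by omega) h1
    omega
  have hNJ : ∀ n : ℕ, (N : ℤ) ∣ (p : ℤ) ^ (J * n) - 1 := by
    intro n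
    exact (dvd_pow_self _ (by norm_num)).trans (dvd_pow_mul_sub hJN n)
  have hrel : RelM w f := by
    constructor
    · intro t
      rw [← hf (w * t) ((p : ℤ) ^ (2 * J) * E t)]
      · have h1 := H.sc_den (u := (l : ℤ)) (v := E t) (hEN t) (2 * J) (hJL.mul_left 2)
        push_cast at h1 ⊢
        exact h1
      · have h1 : (p : ℤ) ^ (2 * J) * E t - 1 = ((p : ℤ) ^ (J * 2) - 1) * E t + (E t - 1) := by
          ring
        rw [h1]
        exact dvd_add ((hNJ 2).mul_right _) (hE1 t)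
      · push_cast
        rw [hE2, hw]
    · intro t y r hy1 hyw hr
      -- an inverse of `E t` modulo `N l`
      have hENl : IsCoprime (E t) ((N : ℤ) * l) :=
        (hEN t).mul_right (isCoprime_natCast_of_not_dvd hl (hEl t))
      obtain ⟨a, ha⟩ := exists_inverse hENl
      have haN : IsCoprime a (N : ℤ) := by
        obtain ⟨q, hq⟩ := ha
        exact ⟨E t, -(l * q), by linear_combination hq⟩
      have haK : ((a : ℤ) : ZMod l) * t = 1 := by
        have h1 := (ZMod.intCast_zmod_eq_zero_iff_dvd _ _).mpr ((dvd_mul_left _ _).trans ha)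
        push_cast at h1
        rw [hE2] at h1
        linear_combination h1
      have haK0 : ((a : ℤ) : ZMod l) ≠ 0 := left_ne_zero_of_mul_eq_one haK
      -- the prime `k`
      obtain ⟨x1, hx1⟩ : ∃ x1 : ℤ, ((x1 : ℤ) : ZMod l) * (((N : ℤ) : ZMod l) * ((a : ℤ) : ZMod l)) =
          1 - y := by
        refine ⟨(((1 - (y : ZMod l)) / (((N : ℤ) : ZMod l) * ((a : ℤ) : ZMod l))).val : ℤ), ?_⟩
        have h1 : (((N : ℤ) : ZMod l) * ((a : ℤ) : ZMod l)) ≠ 0 := mul_ne_zero hNK haK0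
        rw [Int.cast_natCast, ZMod.natCast_zmod_val, div_mul_cancel₀ _ h1]
      have hx1c : IsCoprime x1 (l : ℤ) := by
        apply isCoprime_natCast_of_not_dvd hl
        intro hcon
        have h1 := (ZMod.intCast_zmod_eq_zero_iff_dvd _ _).mpr hcon
        rw [h1, zero_mul] at hx1
        exact hy1 (Units.ext (by rw [Units.val_one]; exact (sub_eq_zero.mp hx1.symm).symm))
      have hll1 : IsCoprime (l : ℤ) ((l - 1 : ℕ) : ℤ) := by
        refine ⟨1, -1, ?_⟩
        rw [Nat.cast_sub (by omega)]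
        push_cast
        ring
      obtain ⟨k, hkgt, hkp, hkl, hkl1⟩ := dir2 (m₁ := l) (m₂ := l - 1) (by omega) (by omega) hll1
        (x₁ := x1) (x₂ := -1) hx1c (isCoprime_one_left.neg_left) (N + p)
      have hkK : ((k : ℕ) : ZMod l) * (((N : ℤ) : ZMod l) * ((a : ℤ) : ZMod l)) = 1 - y := by
        rw [← zmod_eq_iff] at hkl
        rw [← hx1, ← hkl]
        push_cast
        rfl
      obtain ⟨j, hj⟩ : ∃ j : ℕ, j = J * ((l - 2) * (k - 1)) := ⟨_, rfl⟩
      have hjL : L ∣ j := by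
        rw [hj]
        exact hJL.mul_right _
      have hmod : (l - 2) * (k - 1) ≡ 2 [MOD (l - 1)] := by
        apply Nat.ModEq.symm
        rw [Nat.modEq_iff_dvd]
        obtain ⟨q, hq⟩ := hkl1
        have h1 : ((l - 1 : ℕ) : ℤ) = l - 1 := by rw [Nat.cast_sub (by omega), Nat.cast_one]
        have h2 : ((l - 2 : ℕ) : ℤ) = l - 2 := by rw [Nat.cast_sub (by omega)]; rfl
        have h3 : ((k - 1 : ℕ) : ℤ) = k - 1 := by
          rw [Nat.cast_sub (by have := hkp.two_le; omega), Nat.cast_one]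
        rw [Nat.cast_mul, h1, h2, h3]
        rw [h1] at hq
        refine ⟨(k - 1) - q, ?_⟩
        push_cast
        linear_combination -hq
      have hpj : ((p : ZMod l)) ^ j = w := by
        rw [hw, hj, mul_comm J, mul_comm 2 J, pow_mul, pow_mul (p : ZMod l) J 2, ← pow_mul,
          mul_comm _ J, pow_mul]
        apply pow_eq_pow_of_modEq hmod
        rw [← pow_mul, mul_comm, pow_mul, ZMod.pow_card_sub_one_eq_one hpK, one_pow]
      have hkpc : Nat.Coprime p k := by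
        rw [H.hp.coprime_iff_not_dvd]
        intro hcon
        have := (Nat.prime_dvd_prime_iff_eq H.hp hkp).mp hcon
        omega
      have hkd : (k : ℤ) ∣ (p : ℤ) ^ j - 1 := by
        have h1 : (k : ℤ) ∣ (p : ℤ) ^ (k - 1) - 1 := by
          have h2 := Nat.ModEq.pow_totient hkpc
          rw [Nat.totient_prime hkp] at h2
          have h3 := Nat.modEq_iff_dvd.mp h2
          push_cast at h3
          rw [← dvd_neg, neg_sub]
          exact h3
        have h2 := dvd_pow_mul_sub h1 (J * (l - 2))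
        rw [hj, show J * ((l - 2) * (k - 1)) = (k - 1) * (J * (l - 2)) by ring]
        exact h2
      have hNd : (N : ℤ) ^ 2 ∣ (p : ℤ) ^ j - 1 := by
        rw [hj]
        exact dvd_pow_mul_sub hJN _
      have hkN : IsCoprime ((N : ℤ) ^ 2) (k : ℤ) := by
        apply IsCoprime.pow_left
        apply isCoprime_natCast_of_not_dvd hkp
        intro hcon
        have h1 : k ∣ N := by exact_mod_cast hcon
        have := Nat.le_of_dvd hNpos h1
        omega
      obtain ⟨m, hm⟩ := hkN.mul_dvd hNd hkd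
      obtain ⟨a', ha'⟩ : ∃ a' : ℤ, a' = a + N * m := ⟨_, rfl⟩
      have hkey : (N : ℤ) * k * (a' - a) = (p : ℤ) ^ j - 1 := by
        rw [ha']
        linear_combination -hm
      have haa : (N : ℤ) ∣ a' - a := ⟨m, by rw [ha']; ring⟩
      have haK' : ((k : ℕ) : ZMod l) * (((N : ℤ) : ZMod l) * ((a' : ℤ) : ZMod l)) = w - y := by
        have h1 : (((N : ℤ) * k * (a' - a) : ℤ) : ZMod l) = (((p : ℤ) ^ j - 1 : ℤ) : ZMod l) := by
          rw [hkey]
        push_cast at h1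
        rw [hpj] at h1
        push_cast at hkK ⊢
        linear_combination h1 + hkK
      have hwy : (w : ZMod l) - y ≠ 0 := by
        intro hcon
        exact hyw (Units.ext (sub_eq_zero.mp hcon).symm)
      have haK0' : ((a' : ℤ) : ZMod l) ≠ 0 := by
        intro hcon
        rw [hcon, mul_zero, mul_zero] at haK'
        exact hwy haK'.symm
      have hal' : ¬ (l : ℤ) ∣ a' := by
        intro hcon
        exact haK0' ((ZMod.intCast_zmod_eq_zero_iff_dvd _ _).mpr hcon)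
      have haNl' : IsCoprime a' ((N : ℤ) * l) :=
        (coprime_of_dvd_sub haa haN).mul_right (isCoprime_natCast_of_not_dvd hl hal')
      obtain ⟨e', he'⟩ := exists_inverse haNl'
      have he'K : ((e' : ℤ) : ZMod l) = (t * r : (ZMod l)ˣ) := by
        have h1 := (ZMod.intCast_zmod_eq_zero_iff_dvd _ _).mpr ((dvd_mul_left _ _).trans he')
        push_cast at h1
        rw [Units.val_mul]
        have h2 : ((a' : ℤ) : ZMod l) * (t * r) = 1 := by
          have h3 : (w : ZMod l) - y ≠ 0 := hwy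
          have h4 : ((k : ℕ) : ZMod l) * ((N : ℤ) : ZMod l) ≠ 0 := by
            intro hcon
            rw [← mul_assoc, hcon, zero_mul] at haK'
            exact hwy haK'.symm
          apply mul_left_cancel₀ h4
          linear_combination (t : ZMod l) * r * haK' + (t : ZMod l) * hr - (t : ZMod l) * hkK +
            ((k : ℕ) : ZMod l) * ((N : ℤ) : ZMod l) * haK
        apply mul_left_cancel₀ haK0'
        linear_combination h1 - h2
      have he'D : (N : ℤ) ∣ e' - 1 := by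
        have h1 : (N : ℤ) ∣ a * e' - 1 := by
          have : a * e' - 1 = (e' * a' - 1) - (a' - a) * e' := by ring
          rw [this]
          exact dvd_sub ((dvd_mul_right _ _).trans he') (haa.mul_right _)
        have h2 : (N : ℤ) ∣ a * E t - 1 := (dvd_mul_right _ _).trans ha
        have h3 : (N : ℤ) ∣ a * (e' - E t) := by
          have : a * (e' - E t) = (a * e' - 1) - (a * E t - 1) := by ring
          rw [this]
          exact dvd_sub h1 h2
        have h4 := haN.symm.dvd_of_dvd_mul_left h3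
        have : e' - 1 = (e' - E t) + (E t - 1) := by ring
        rw [this]
        exact dvd_add h4 (hE1 t)
      have hYK : ((1 - N * k * a : ℤ) : ZMod l) = y := by
        push_cast at hkK ⊢
        linear_combination -hkK
      have htw := H.twoway (a := a) (a' := a') (e := E t) (e' := e') (k := k) (j := j) hjL
        (by rw [mul_comm a]; rw [mul_comm (E t) a]; exact ha)
        (by rw [mul_comm a' e']; exact he') hkey (hE1 t) he'D
      rw [hf t (E t) (hE1 t) (hE2 t), hf (t * r) e' he'D he'K,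
        hf (t * y) (E t * (1 - N * k * a)), hf (t * r * y) (e' * (1 - N * k * a))] at htw
      · exact htw
      · have : e' * (1 - N * k * a) - 1 = (e' - 1) - N * (k * a * e') := by ring
        rw [this]
        exact dvd_sub he'D (dvd_mul_right _ _)
      · rw [Int.cast_mul, he'K, hYK, ← Units.val_mul]
      · have : E t * (1 - N * k * a) - 1 = (E t - 1) - N * (k * a * E t) := by ring
        rw [this]
        exact dvd_sub (hE1 t) (dvd_mul_right _ _)
      · rw [Int.cast_mul, hE2, hYK, ← Units.val_mul]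
  exact ⟨w, f, hw1, hw, hrel, hf⟩

lemma exists_unit_of_not_dvd {l : ℕ} [Fact l.Prime] {e : ℤ} (he : ¬ (l : ℤ) ∣ e) :
    ∃ t : (ZMod l)ˣ, ((e : ℤ) : ZMod l) = t := by
  have h1 : ((e : ℤ) : ZMod l) ≠ 0 := by
    intro hcon
    exact he ((ZMod.intCast_zmod_eq_zero_iff_dvd _ _).mp hcon)
  exact ⟨Units.mk0 _ h1, rfl⟩

/-- For a large prime `l` the value at `l / D`, `D ≡ 1` modulo `N`, does not depend on `D`. -/
theorem Ih.numl (H : Ih p N L h) {l J : ℕ} (hl : l.Prime) (hJL : L ∣ J)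
    (hJN : (N : ℤ) ^ 2 ∣ (p : ℤ) ^ J - 1) (hJ0 : 0 < J)
    (hlM : ∀ m : M, (l - 1) • m = 0 → m = 0) (hlN : N < l)
    (hlJ : p ^ (2 * J) < l) {D D' : ℤ} (hD : (N : ℤ) ∣ D - 1) (hDl : ¬ (l : ℤ) ∣ D)
    (hDl' : ¬ (l : ℤ) ∣ D') (hDD : (N : ℤ) ∣ D' - 1) :
    h ((l : ℚ) / D) = h ((l : ℚ) / D') := by
  classical
  have : Fact l.Prime := ⟨hl⟩
  obtain ⟨w, f, hw1, -, hrel, hf⟩ := H.numlf hl hJL hJN hJ0 hlN hlJ
  have hcard : ∀ m : M, (Fintype.card (ZMod l)ˣ) • m = 0 → m = 0 := by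
    rw [ZMod.card_units]
    exact hlM
  have hconst := constM_of_rel hw1 hcard hrel
  obtain ⟨t, ht⟩ := exists_unit_of_not_dvd hDl
  obtain ⟨t', ht'⟩ := exists_unit_of_not_dvd hDl'
  rw [hf t D hD ht, hf t' D' hDD ht', hconst t, hconst t']

/-- The version for values without odd torsion, `l ≡ 3` modulo `4`: the value at `l / D` depends only on the
quadratic character of `D` modulo `l`. -/
theorem Ih.numl2 (H : Ih p N L h) {l J : ℕ} [Fact l.Prime] (hl4 : l % 4 = 3) (hJL : L ∣ J)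
    (hJN : (N : ℤ) ^ 2 ∣ (p : ℤ) ^ J - 1) (hJ0 : 0 < J)
    (htor : ∀ q : ℕ, q.Coprime 2 → ∀ m : M, q • m = 0 → m = 0) (hlN : N < l)
    (hlJ : p ^ (2 * J) < l) {D D' : ℤ} (hD : (N : ℤ) ∣ D - 1) (hDl : ¬ (l : ℤ) ∣ D)
    (hDl' : ¬ (l : ℤ) ∣ D') (hDD : (N : ℤ) ∣ D' - 1)
    (hsq : IsSquare (D : ZMod l) ↔ IsSquare (D' : ZMod l)) :
    h ((l : ℚ) / D) = h ((l : ℚ) / D') := by
  classical
  have hl : l.Prime := Fact.out
  obtain ⟨w, f, hw1, hwp, hrel, hf⟩ := H.numlf hl hJL hJN hJ0 hlN hlJ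
  obtain ⟨m, hm⟩ : ∃ m : ℕ, m = l / 2 := ⟨_, rfl⟩
  have hlm : l = 2 * m + 1 := by omega
  have hcard : Fintype.card (ZMod l)ˣ = 2 * m := by
    rw [ZMod.card_units]
    omega
  have hodd : Odd m := by
    rw [Nat.odd_iff]
    omega
  have hmc : m.Coprime 2 := by
    rw [Nat.coprime_two_right]
    exact hodd
  have hwm : w ^ m = 1 := by
    have h1 := ZMod.euler_criterion_units l w
    rw [← hm] at h1
    apply h1.mp
    have hw0 : (p : ZMod l) ^ J ≠ 0 := by
      intro hcon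
      apply w.ne_zero
      rw [hwp, mul_comm, pow_mul, hcon]
      norm_num
    refine ⟨Units.mk0 _ hw0, Units.ext ?_⟩
    rw [Units.val_pow_eq_pow_val, Units.val_mk0, hwp]
    ring
  obtain ⟨t, ht⟩ := exists_unit_of_not_dvd hDl
  obtain ⟨t', ht'⟩ := exists_unit_of_not_dvd hDl'
  rw [hf t D hD ht, hf t' D' hDD ht']
  -- the quotient
  have hE : ∀ u : (ZMod l)ˣ, (u ^ m = 1 ↔ IsSquare (u : ZMod l)) := by
    intro u
    have h1 := ZMod.euler_criterion_units l u
    rw [← hm] at h1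
    rw [← h1]
    constructor
    · rintro ⟨y, hy⟩
      exact ⟨y, by rw [← hy, Units.val_pow_eq_pow_val, pow_two]⟩
    · rintro ⟨y, hy⟩
      have hy0 : y ≠ 0 := by
        rintro rfl
        rw [mul_zero] at hy
        exact u.ne_zero hy
      exact ⟨Units.mk0 _ hy0, Units.ext (by rw [Units.val_pow_eq_pow_val, Units.val_mk0, hy, pow_two])⟩
  have hpm : ∀ u : (ZMod l)ˣ, u ^ m = 1 ∨ u ^ m = -1 := by
    intro u
    have h2 : (u ^ m) ^ 2 = 1 := by
      rw [← pow_mul, mul_comm, ← hcard]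
      exact pow_card_eq_one
    have h3 : ((u ^ m : (ZMod l)ˣ) : ZMod l) ^ 2 = 1 := by
      rw [← Units.val_pow_eq_pow_val, h2, Units.val_one]
    rcases sq_eq_one_iff.mp h3 with h4 | h4
    · exact Or.inl (Units.ext (by rw [h4, Units.val_one]))
    · exact Or.inr (Units.ext (by rw [h4, Units.val_neg, Units.val_one]))
  rw [ht, ht', ← hE, ← hE] at hsq
  have hq : (t * t'⁻¹) ^ m = 1 := by
    rw [mul_pow, inv_pow]
    rcases hpm t with h1 | h1
    · rw [h1, hsq.mp h1, inv_one, one_mul]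
    · rcases hpm t' with h2 | h2
      · rw [h2, hsq.mpr h2, inv_one, one_mul]
      · rw [h1, h2, mul_inv_cancel]
  have h5 := constM2_of_rel hw1 hwm hcard hodd (htor m hmc) hrel hq t'
  rw [inv_mul_cancel_right] at h5
  exact h5

/-- The case `p = 2`. -/
theorem Ih.main2 (H : Ih 2 N L h)
    (htor : ∀ q : ℕ, q.Coprime 2 → ∀ m : M, q • m = 0 → m = 0) (b d : ℤ)
    (hbd : IsCoprime b d) (hdN : (N : ℤ) ∣ d - 1) (hpd : ¬ (2 : ℤ) ∣ d) :
    h ((b : ℚ) / d) = 0 := by
  have hdNc : IsCoprime d (N : ℤ) := cop_of_dvd_sub_one hdN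
  have hd : d ≠ 0 := ne_of_cop H.hN hdNc
  have hpp : Prime ((2 : ℕ) : ℤ) := Nat.prime_iff_prime_int.mp H.hp
  obtain ⟨J2, hJ2, hJ2N⟩ := exists_order H.hp (m := (N : ℤ) ^ 2) (fun hcon =>
    not_dvd_level' H.hp H.hpN (hpp.dvd_of_dvd_pow hcon))
  obtain ⟨J, hJ⟩ : ∃ J : ℕ, J = J2 * L := ⟨_, rfl⟩
  have hJN : (N : ℤ) ^ 2 ∣ ((2 : ℕ) : ℤ) ^ J - 1 := by
    rw [hJ]
    exact dvd_pow_mul_sub hJ2N _
  have hJ0 : 0 < J := by rw [hJ]; exact Nat.mul_pos hJ2 H.hL0
  have hJL : L ∣ J := by rw [hJ]; exact dvd_mul_left _ _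
  have hdabs : 0 < d.natAbs := Int.natAbs_pos.mpr hd
  have hNpos : N ≠ 0 := by have := H.hN; omega
  have h4N : IsCoprime ((4 : ℕ) : ℤ) (N : ℤ) := by
    have h1 : Nat.Coprime (2 ^ 2) N := H.hpN.pow_left 2
    exact Nat.isCoprime_iff_coprime.mpr (by simpa using h1)
  have h34 : IsCoprime (3 : ℤ) ((4 : ℕ) : ℤ) := by
    rw [Int.isCoprime_iff_gcd_eq_one]
    rfl
  -- the auxiliary prime `q`
  obtain ⟨q, hqgt, hqp, hq4, hqN⟩ := dir2 (m₁ := 4) (m₂ := N) (by norm_num) hNpos h4N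
    (x₁ := 3) (x₂ := 1) h34 isCoprime_one_left (N + d.natAbs)
  have hq43 : q % 4 = 3 := by push_cast at hq4; omega
  -- the prime `l`
  have hdq : IsCoprime d (q : ℤ) := by
    apply isCoprime_natCast_of_not_dvd hqp
    intro hcon
    have h1 := Int.natAbs_dvd_natAbs.mpr hcon
    rw [Int.natAbs_natCast] at h1
    have := Nat.le_of_dvd hdabs h1
    omega
  obtain ⟨x, hxd, hxq⟩ := crt hdq b 1
  have hxc : IsCoprime x ((d.natAbs * q : ℕ) : ℤ) := by
    push_cast
    apply IsCoprime.mul_right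
    · exact (coprime_of_dvd_sub hxd hbd).abs_right
    · exact coprime_of_dvd_sub hxq isCoprime_one_left
  have hd4 : IsCoprime ((d.natAbs * q : ℕ) : ℤ) ((4 : ℕ) : ℤ) := by
    have h2q : ¬ 2 ∣ q := by omega
    have h2d : ¬ 2 ∣ d.natAbs := by
      intro hcon
      exact hpd (by omega)
    rw [Nat.isCoprime_iff_coprime]
    have h1 : Nat.Coprime (d.natAbs * q) 2 := by
      rw [Nat.coprime_comm, Nat.prime_two.coprime_iff_not_dvd, Nat.prime_two.dvd_mul]
      exact fun h3 => h3.elim h2d h2q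
    have h2 := h1.pow_right 2
    simpa using h2
  obtain ⟨l, hlgt, hlp, hlx, hl4⟩ := dir2 (m₁ := d.natAbs * q) (m₂ := 4)
    (mul_ne_zero (by omega) hqp.ne_zero) (by norm_num) hd4 hxc (x₂ := 3) h34
    (N + d.natAbs + q + 2 ^ (2 * J) + 1)
  have hJpos : 0 < 2 ^ (2 * J) := by positivity
  have hl43 : l % 4 = 3 := by push_cast at hl4; omega
  have hlb : d ∣ (l : ℤ) - b := by
    have h1 : d ∣ (l : ℤ) - x := by
      refine dvd_trans ?_ hlx
      push_cast
      exact ((dvd_abs d d).mpr dvd_rfl).mul_right _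
    have h2 := dvd_add h1 hxd
    rwa [sub_add_sub_cancel] at h2
  have hlq : (q : ℤ) ∣ (l : ℤ) - 1 := by
    have h1 : (q : ℤ) ∣ (l : ℤ) - x := by
      refine dvd_trans ?_ hlx
      push_cast
      exact dvd_mul_left _ _
    have h2 := dvd_add h1 hxq
    rwa [sub_add_sub_cancel] at h2
  have : Fact l.Prime := ⟨hlp⟩
  have : Fact q.Prime := ⟨hqp⟩
  have hld : ¬ (l : ℤ) ∣ d := by
    intro hcon
    have h1 := Int.natAbs_dvd_natAbs.mpr hcon
    rw [Int.natAbs_natCast] at h1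
    have := Nat.le_of_dvd hdabs h1
    omega
  have hlq' : ¬ (l : ℤ) ∣ (q : ℤ) := by
    intro hcon
    have h1 : l ∣ q := by exact_mod_cast hcon
    have := Nat.le_of_dvd hqp.pos h1
    omega
  have hl1 : ¬ (l : ℤ) ∣ 1 := not_dvd_one hlp
  have hqN1 : (N : ℤ) ∣ (q : ℤ) - 1 := hqN
  have s1 := H.congr hdNc hlb
  have s3 := H.congr (b := 0) (d := 1) (n := (l : ℤ)) isCoprime_one_left (one_dvd _)
  push_cast at s1 s3
  by_cases hsq : IsSquare (d : ZMod l)
  · have s2 := H.numl2 (D := d) (D' := 1) hl43 hJL hJN hJ0 htor (by omega) (by omega) hdN hld hl1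
      (by simp) ⟨fun _ => by simp, fun _ => hsq⟩
    push_cast at s2
    rw [← s1, s2, s3, zero_div, H.h0]
  · -- `q` is not a square modulo `l`
    have hlne : l ≠ q := by omega
    have h1 := ZMod.exists_sq_eq_prime_iff_of_mod_four_eq_three hl43 hq43 hlne
    have h2 : IsSquare (l : ZMod q) := by
      have h3 : (((l : ℤ) - 1 : ℤ) : ZMod q) = 0 := (ZMod.intCast_zmod_eq_zero_iff_dvd _ _).mpr hlq
      push_cast at h3
      rw [sub_eq_zero.mp h3]
      exact IsSquare.one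
    have h3 : ¬ IsSquare (q : ZMod l) := fun h4 => h1.mp h4 h2
    have s2 := H.numl2 (D := d) (D' := (q : ℤ)) hl43 hJL hJN hJ0 htor (by omega) (by omega) hdN hld
      hlq' hqN1 ⟨fun h4 => absurd h4 hsq, fun h4 => absurd (by exact_mod_cast h4) h3⟩
    have s4 := H.congr (b := 1) (d := (q : ℤ)) (n := (l : ℤ)) (cop_of_dvd_sub_one hqN1) hlq
    have s5 := H.low (b := 1) (d := 1) (d' := (q : ℤ)) isCoprime_one_left (by simpa using hqN1)
    have s6 := H.congr (b := 0) (d := 1) (n := 1) isCoprime_one_left (one_dvd _)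
    push_cast at s2 s4 s5 s6
    rw [← s1, s2, s4, s5, s6, zero_div, H.h0]

theorem Ih.main (hp2 : p ≠ 2) (H : Ih p N L h)
    (htor : ∀ q : ℕ, q.Coprime p → ∀ m : M, q • m = 0 → m = 0) (b d : ℤ)
    (hbd : IsCoprime b d) (hdN : (N : ℤ) ∣ d - 1) (hpd : ¬ (p : ℤ) ∣ d) :
    h ((b : ℚ) / d) = 0 := by
  have hpp : Prime (p : ℤ) := Nat.prime_iff_prime_int.mp H.hp
  have hdNc : IsCoprime d (N : ℤ) := cop_of_dvd_sub_one hdN
  have hd : d ≠ 0 := ne_of_cop H.hN hdNc
  obtain ⟨J2, hJ2, hJ2N⟩ := exists_order H.hp (m := (N : ℤ) ^ 2) (fun hcon =>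
    not_dvd_level' H.hp H.hpN (hpp.dvd_of_dvd_pow hcon))
  obtain ⟨J, hJ⟩ : ∃ J : ℕ, J = J2 * L := ⟨_, rfl⟩
  have hJN : (N : ℤ) ^ 2 ∣ (p : ℤ) ^ J - 1 := by
    rw [hJ]
    exact dvd_pow_mul_sub hJ2N _
  have hJ0 : 0 < J := by rw [hJ]; exact Nat.mul_pos hJ2 H.hL0
  have hJL : L ∣ J := by rw [hJ]; exact dvd_mul_left _ _
  have hdabs : 0 < d.natAbs := Int.natAbs_pos.mpr hd
  -- a large prime `l = b` modulo `d`, `l = -1` modulo `p`
  have hpdc : IsCoprime (d.natAbs : ℤ) (p : ℤ) := by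
    push_cast
    exact (isCoprime_natCast_of_not_dvd H.hp hpd).abs_left
  have hbc : IsCoprime b (d.natAbs : ℤ) := by
    push_cast
    exact hbd.abs_right
  obtain ⟨l, hlgt, hlp, hlb, hl2⟩ := dir2 (m₁ := d.natAbs) (m₂ := p) (by omega)
    H.hp.ne_zero hpdc hbc (x₂ := -1) (isCoprime_one_left.neg_left) (N + d.natAbs + p ^ (2 * J) + 1)
  have hlb' : d ∣ (l : ℤ) - b := Int.natAbs_dvd.mp hlb
  have hlM : ∀ m : M, (l - 1) • m = 0 → m = 0 := by
    apply htor
    rw [Nat.coprime_comm, H.hp.coprime_iff_not_dvd]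
    intro hcon
    have h1 : (p : ℤ) ∣ (l : ℤ) - 1 := by
      have h2 : ((p : ℕ) : ℤ) ∣ ((l - 1 : ℕ) : ℤ) := by exact_mod_cast hcon
      rwa [Nat.cast_sub (by omega), Nat.cast_one] at h2
    have h3 := dvd_sub hl2 h1
    rw [show (l : ℤ) - -1 - (l - 1) = 2 by ring] at h3
    have h4 : p ∣ 2 := by exact_mod_cast h3
    exact hp2 ((Nat.prime_dvd_prime_iff_eq H.hp Nat.prime_two).mp h4)
  have hld : ¬ (l : ℤ) ∣ d := by
    intro hcon
    have h1 := Int.natAbs_dvd_natAbs.mpr hcon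
    rw [Int.natAbs_natCast] at h1
    have := Nat.le_of_dvd hdabs h1
    omega
  have hl1 : ¬ (l : ℤ) ∣ 1 := not_dvd_one hlp
  have s1 := H.congr hdNc hlb'
  have s2 := H.numl (D := d) (D' := 1) hlp hJL hJN hJ0 hlM (by omega) (by omega) hdN hld hl1
    (by simp)
  have s3 := H.congr (b := 0) (d := 1) (n := (l : ℤ)) isCoprime_one_left (one_dvd _)
  push_cast at s1 s2 s3
  rw [← s1, s2, s3, zero_div, H.h0]

end Pool.Agent.NSY


end

section

/-!
# Block Y: the key lemma KEY0 (helper6)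

`PAPER_NS.md`, section 4. A purely topological statement: no Hecke operator, no eigenvector.
-/

set_option autoImplicit false

namespace Pool.Agent.NSY

open OnePoint _root_.Pool.Agent.MuSym _root_.Pool.Agent.MuW2

variable {M : Type} [AddCommGroup M] {p N r n0 : ℕ} {Φ : OnePoint ℚ → OnePoint ℚ → M}

lemma HH.toIh {s : ℕ} {h : ℚ → M} (H : HH p N s h) {l : ℕ} (hl0 : 0 < l)
    (hl : (N : ℤ) ∣ (p : ℤ) ^ l - 1) : Ih p N (2 * l) h where
  hp := H.hp
  hN := H.hN
  hpN := H.hpN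
  hL := by
    rw [mul_comm]
    exact dvd_pow_mul_sub hl 2
  hL0 := by omega
  h0 := H.h0
  per := fun b d hd => by
    have := H.tr_int (x := (b : ℚ) / d) ⟨b, d, hd, rfl⟩ 1
    simpa using this
  eqv := fun a b c d hdet hc hd u v hv => by
    have := H.eqvN hdet hc hd (x := (u : ℚ) / v) ⟨u, v, hv, rfl⟩
    rw [← this]
    congr 1
    have hv0 : (v : ℚ) ≠ 0 := by exact_mod_cast ne_of_cop H.hN hv
    push_cast
    field_simp
  sc := fun u v hv => H.scal hl ⟨u, v, hv, rfl⟩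

/-- The key lemma: all closed cycles of `Γ₁(p ^ r N)` vanish (`1 ≤ r`). -/
theorem Key.closed_of (K : Key p N r n0 Φ) (hr : 1 ≤ r)
    (main : ∀ b d : ℤ, IsCoprime b d → (N : ℤ) ∣ d - 1 → ¬ (p : ℤ) ∣ d →
      hh p Φ ((b : ℚ) / d) = 0) {a b c d : ℤ} (hdet : a * d - b * c = 1)
    (hc : (p : ℤ) ^ r * N ∣ c) (hd : (p : ℤ) ^ r * N ∣ d - 1) (x : OnePoint ℚ) :
    Φ x (mob a b c d x) = 0 := by
  have hNd : (N : ℤ) ∣ d - 1 := (dvd_mul_left _ _).trans hd
  have hpd : ¬ (p : ℤ) ∣ d := by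
    intro h1
    have h2 : (p : ℤ) ∣ d - 1 := ((dvd_pow_self _ (by omega)).mul_right _).trans hd
    have h3 := dvd_sub h1 h2
    rw [sub_sub_cancel] at h3
    exact not_dvd_one K.hp h3
  have hbd : IsCoprime b d := ⟨-c, a, by linear_combination hdet⟩
  have h1 := main b d hbd hNd hpd
  rw [K.hh_one hbd hpd hd] at h1
  -- the value at `0`
  have hdQ : (d : ℚ) ≠ 0 := by
    have : d ≠ 0 := ne_of_cop K.hN (cop_of_dvd_sub_one hNd)
    exact_mod_cast this
  have h2 : Φ ((0 : ℚ) : OnePoint ℚ) (mob a b c d ((0 : ℚ) : OnePoint ℚ)) = 0 := by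
    rw [mob_coe _ _ _ _ _ (by simpa using hdQ), K.sub, ← h1]
    congr 2
    simp
  have h3 := K.inv a b c d hdet hc hd ((0 : ℚ) : OnePoint ℚ) x
  have h4 := K.add x ((0 : ℚ) : OnePoint ℚ) (mob a b c d ((0 : ℚ) : OnePoint ℚ))
  have h5 := K.add x (mob a b c d ((0 : ℚ) : OnePoint ℚ)) (mob a b c d x)
  have h6 := K.add x ((0 : ℚ) : OnePoint ℚ) x
  rw [K.self] at h6
  rw [← h5, ← h4, h2, h3, add_zero, h6]

/-- The key lemma: all closed cycles of `Γ₁(p ^ r N)` vanish (`1 ≤ r`, `p ≠ 2`). -/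
theorem Key.closed (K : Key p N r n0 Φ) (hp2 : p ≠ 2) (hr : 1 ≤ r) {a b c d : ℤ}
    (hdet : a * d - b * c = 1)
    (hc : (p : ℤ) ^ r * N ∣ c) (hd : (p : ℤ) ^ r * N ∣ d - 1) (x : OnePoint ℚ) :
    Φ x (mob a b c d x) = 0 := by
  obtain ⟨l, hl0, hl⟩ := K.HH.exists_l
  exact K.closed_of hr ((K.HH.toIh hl0 hl).main hp2 K.tor) hdet hc hd x

/-- The key lemma for `p = 2`. -/
theorem Key.closed2 (K : Key 2 N r n0 Φ) (hr : 1 ≤ r) {a b c d : ℤ}
    (hdet : a * d - b * c = 1)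
    (hc : (2 : ℤ) ^ r * N ∣ c) (hd : (2 : ℤ) ^ r * N ∣ d - 1) (x : OnePoint ℚ) :
    Φ x (mob a b c d x) = 0 := by
  obtain ⟨l, hl0, hl⟩ := K.HH.exists_l
  exact K.closed_of hr (fun b d h1 h2 h3 => (K.HH.toIh hl0 hl).main2 K.tor b d h1 h2
    (by simpa using h3)) hdet hc hd x

/-- The key lemma KEY0. -/
theorem key0 {M : Type} [AddCommGroup M] {p N r n0 : ℕ} {Φ : OnePoint ℚ → OnePoint ℚ → M}
    (hp : p.Prime) (hp2 : p ≠ 2) (hN : 1 < N) (hpN : p.Coprime N) (hr : 1 ≤ r)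
    (tor : ∀ q : ℕ, q.Coprime p → ∀ m : M, q • m = 0 → m = 0)
    (add : ∀ x y z, Φ x y + Φ y z = Φ x z)
    (inv : ∀ a b c d : ℤ, a * d - b * c = 1 → ((p : ℤ) ^ r * N) ∣ c →
      ((p : ℤ) ^ r * N) ∣ d - 1 → ∀ x y, Φ (mob a b c d x) (mob a b c d y) = Φ x y)
    (A : ∀ a b c d : ℤ, ∀ n ≥ n0, c ≠ 0 → d ≠ 0 → IsCoprime a c → IsCoprime b d →
      ((p : ℤ) ^ r * N) ∣ c → a * d - b * c = (p : ℤ) ^ n →
      Φ (((a : ℚ) / c : ℚ) : OnePoint ℚ) (((b : ℚ) / d : ℚ) : OnePoint ℚ) = 0)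
    (A0 : ∀ b : ℤ, ∀ n ≥ n0, ¬ (p : ℤ) ∣ b → Φ ∞ (((b : ℚ) / p ^ n : ℚ) : OnePoint ℚ) = 0)
    (a b c d : ℤ) (hdet : a * d - b * c = 1) (hc : (p : ℤ) ^ r * N ∣ c)
    (hd : (p : ℤ) ^ r * N ∣ d - 1) (x : OnePoint ℚ) : Φ x (mob a b c d x) = 0 :=
  Key.closed (n0 := n0) ⟨hp, hN, hpN, tor, add, inv, A, A0⟩ hp2 hr hdet hc hd x

/-- The key lemma KEY0 for `p = 2`: `N` odd, `M` without odd torsion. -/
theorem key0_two {M : Type} [AddCommGroup M] {N r n0 : ℕ} {Φ : OnePoint ℚ → OnePoint ℚ → M}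
    (hN : 1 < N) (h2N : Odd N) (hr : 1 ≤ r)
    (tor : ∀ q : ℕ, Odd q → ∀ m : M, q • m = 0 → m = 0)
    (add : ∀ x y z, Φ x y + Φ y z = Φ x z)
    (inv : ∀ a b c d : ℤ, a * d - b * c = 1 → ((2 : ℤ) ^ r * N) ∣ c →
      ((2 : ℤ) ^ r * N) ∣ d - 1 → ∀ x y, Φ (mob a b c d x) (mob a b c d y) = Φ x y)
    (A : ∀ a b c d : ℤ, ∀ n ≥ n0, c ≠ 0 → d ≠ 0 → IsCoprime a c → IsCoprime b d →
      ((2 : ℤ) ^ r * N) ∣ c → a * d - b * c = (2 : ℤ) ^ n →
      Φ (((a : ℚ) / c : ℚ) : OnePoint ℚ) (((b : ℚ) / d : ℚ) : OnePoint ℚ) = 0)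
    (A0 : ∀ b : ℤ, ∀ n ≥ n0, Odd b → Φ ∞ (((b : ℚ) / 2 ^ n : ℚ) : OnePoint ℚ) = 0)
    (a b c d : ℤ) (hdet : a * d - b * c = 1) (hc : (2 : ℤ) ^ r * N ∣ c)
    (hd : (2 : ℤ) ^ r * N ∣ d - 1) (x : OnePoint ℚ) : Φ x (mob a b c d x) = 0 := by
  have hodd : ∀ b : ℤ, ¬ ((2 : ℕ) : ℤ) ∣ b → Odd b := by
    intro b hb
    rw [← Int.not_even_iff_odd, even_iff_two_dvd]
    simpa using hb
  have K : Key 2 N r n0 Φ := by
    refine ⟨Nat.prime_two, hN, ?_, ?_, add, inv, A, ?_⟩
    · rw [Nat.coprime_comm, Nat.coprime_two_right]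
      exact h2N
    · intro q hq m hm
      exact tor q (Nat.coprime_two_right.mp hq) m hm
    · intro b n hn hb
      exact A0 b n hn (hodd b hb)
  exact K.closed2 hr hdet hc hd x

end Pool.Agent.NSY


end

section

/-!
# MUX-NS, block HN: KYN, from locally constant values to vanishing closed cycles (helper95)
-/

set_option autoImplicit false

namespace Pool.Agent.MUXHN

open _root_.MU3 _root_.Pool.Agent.MuSym _root_.Pool.Agent.MUXH OnePoint

noncomputable section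

/-- the translation by `1/27` on the finite cusps -/
theorem kyn_tau (x : ℚ) : mob 27 1 0 27 (x : OnePoint ℚ) = ((x + 1 / 27 : ℚ) : OnePoint ℚ) := by
  rw [NSY.mob_coe _ _ _ _ _ (by norm_num)]
  congr 1
  push_cast
  ring

theorem kyn_tau_inf : mob 27 1 0 27 (∞ : OnePoint ℚ) = ∞ := NSY.mob_infty0 _ _ _

/-- conjugation of a matrix by the translation by `1/27` -/
theorem kyn_conj (a b c d a' b' d' : ℤ) (ha : 27 * a' = 27 * a + c)
    (hb : 729 * b' = 729 * b + 27 * (d - a) - c) (hd : 27 * d' = 27 * d - c) (x : OnePoint ℚ) :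
    mob 27 1 0 27 (mob a b c d x) = mob a' b' c d' (mob 27 1 0 27 x) := by
  have ha' : (a' : ℚ) = a + c / 27 := by
    have : (27 : ℚ) * a' = 27 * a + c := by exact_mod_cast ha
    linarith
  have hb' : (b' : ℚ) = b + (d - a) / 27 - c / 729 := by
    have : (729 : ℚ) * b' = 729 * b + 27 * (d - a) - c := by exact_mod_cast hb
    linarith
  have hd' : (d' : ℚ) = d - c / 27 := by
    have : (27 : ℚ) * d' = 27 * d - c := by exact_mod_cast hd
    linarith
  induction x using OnePoint.rec with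
  | infty =>
    by_cases hc : c = 0
    · subst hc
      rw [NSY.mob_infty0, kyn_tau_inf, NSY.mob_infty0]
    · have hc' : (c : ℚ) ≠ 0 := by exact_mod_cast hc
      rw [NSY.mob_infty _ _ _ _ hc, kyn_tau, kyn_tau_inf, NSY.mob_infty _ _ _ _ hc, ha']
      congr 1
      field_simp
  | coe r =>
    rw [kyn_tau]
    have e : (c : ℚ) * (r + 1 / 27) + d' = c * r + d := by
      rw [hd']
      ring
    by_cases h : (c : ℚ) * r + d = 0
    · have h1 : mob a b c d (r : OnePoint ℚ) = ∞ := by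
        unfold mob
        simp [h]
      have h2 : mob a' b' c d' ((r + 1 / 27 : ℚ) : OnePoint ℚ) = ∞ := by
        have e' : (c : ℚ) * (r + 27⁻¹) + d' = 0 := by
          rw [← h, ← e]
          ring
        unfold mob
        simp [e']
      rw [h1, h2, kyn_tau_inf]
    · rw [NSY.mob_coe _ _ _ _ _ h, kyn_tau, NSY.mob_coe _ _ _ _ _ (by rw [e]; exact h), e]
      congr 1
      have h' : (c : ℚ) * r + d ≠ 0 := h
      rw [eq_div_iff h', add_mul, div_mul_cancel₀ _ h', ha', hb']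
      ring

/-- integers prime to `3` are units of `V` -/
theorem kyn_unit (V : ValuationSubring ℂ) (hv : V.valuation (3 : ℂ) < 1) (q : ℕ)
    (hq : q.Coprime 3) : V.valuation (q : ℂ) = 1 := by
  have h1 : V.valuation (q : ℂ) ≤ 1 := by
    rw [ValuationSubring.valuation_le_one_iff]
    exact natCast_mem V q
  refine le_antisymm h1 (not_lt.1 fun h => ?_)
  obtain ⟨u, w, huw⟩ := Nat.isCoprime_iff_coprime.2 hq
  have e : ((u : ℂ) * q + w * 3) = 1 := by exact_mod_cast huw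
  have h2 : V.valuation ((u : ℂ) * q + w * 3) < 1 := by
    apply Valuation.map_add_lt
    · rw [map_mul]
      have hu : V.valuation (u : ℂ) ≤ 1 := by
        rw [ValuationSubring.valuation_le_one_iff]
        exact intCast_mem V u
      calc V.valuation (u : ℂ) * V.valuation (q : ℂ) ≤ 1 * V.valuation (q : ℂ) := by gcongr
        _ < 1 := by rw [one_mul]; exact h
    · rw [map_mul]
      have hw : V.valuation (w : ℂ) ≤ 1 := by
        rw [ValuationSubring.valuation_le_one_iff]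
        exact intCast_mem V w
      calc V.valuation (w : ℂ) * V.valuation (3 : ℂ) ≤ 1 * V.valuation (3 : ℂ) := by gcongr
        _ < 1 := by rw [one_mul]; exact hv
  rw [e, map_one] at h2
  exact lt_irrefl _ h2

/-- a submodule is closed under division by units -/
theorem kyn_div (V : ValuationSubring ℂ) (m : Submodule V ℂ) (u z : ℂ)
    (hu : V.valuation u = 1) (h : u * z ∈ m) : z ∈ m := by
  have hu0 : u ≠ 0 := by
    rintro rfl
    rw [map_zero] at hu
    exact zero_ne_one hu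
  have hi : u⁻¹ ∈ V := by
    rw [← ValuationSubring.valuation_le_one_iff, map_inv₀, hu, inv_one]
  have h2 := m.smul_mem ⟨u⁻¹, hi⟩ h
  have e : (⟨u⁻¹, hi⟩ : V) • (u * z) = z := by
    show u⁻¹ * (u * z) = z
    field_simp
  rwa [e] at h2

theorem tn_KYN (h1 : Sn_PAI) : Sn_KYN := by
  intro V hv m N₀ s₀ nu Q hN₀ hcop hnu1 hnuper hnuv hsym r n₀ hloc
  have hN1 : 1 < N₀ := by omega
  set R : ℕ := 6 + (s₀ + 1) + r + 1 with hR
  have hpow : ∀ {i j : ℕ}, i ≤ j → (3 : ℤ) ^ i ∣ 3 ^ j := fun h => pow_dvd_pow 3 h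
  -- divisors of the level
  have hlev : ∀ c : ℤ, (3 : ℤ) ^ R * N₀ ∣ c → ((3 ^ (s₀ + 1) * N₀ : ℕ) : ℤ) ∣ c := by
    intro c hc
    refine dvd_trans ?_ hc
    push_cast
    exact mul_dvd_mul_right (hpow (by omega)) _
  have hlev3 : ∀ c : ℤ, (3 : ℤ) ^ R * N₀ ∣ c → ((3 * N₀ : ℕ) : ℤ) ∣ c := by
    intro c hc
    refine dvd_trans ?_ hc
    push_cast
    exact mul_dvd_mul_right (dvd_pow_self 3 (by omega)) _
  -- `c = 27 c₁`
  have hc1 : ∀ c : ℤ, (3 : ℤ) ^ R * N₀ ∣ c → ∃ c₁ : ℤ, c = 27 * c₁ ∧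
      ((3 * N₀ : ℕ) : ℤ) ∣ c₁ ∧ (3 : ℤ) ^ (r + 1) ∣ c₁ ∧ (27 : ℤ) ∣ c₁ := by
    rintro c ⟨k, rfl⟩
    refine ⟨3 ^ (R - 3) * N₀ * k, ?_, ?_, ?_, ?_⟩
    · have e : (3 : ℤ) ^ R = 27 * 3 ^ (R - 3) := by
        conv_lhs => rw [show R = 3 + (R - 3) by omega, pow_add]
        norm_num
      rw [e]
      ring
    · push_cast
      apply Dvd.dvd.mul_right
      exact mul_dvd_mul_right (dvd_pow_self 3 (by omega)) _
    · apply Dvd.dvd.mul_right
      apply Dvd.dvd.mul_right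
      exact hpow (by omega)
    · apply Dvd.dvd.mul_right
      apply Dvd.dvd.mul_right
      have : (27 : ℤ) = 3 ^ 3 := by norm_num
      rw [this]
      exact hpow (by omega)
  have key := NSY.key0 (M := ℂ ⧸ m) (p := 3) (N := N₀) (r := R) (n0 := n₀ + r + 4)
    (Φ := fun x y => Submodule.Quotient.mk (PT Q x y)) Nat.prime_three (by norm_num) hN1 hcop
    (by omega) ?_ ?_ ?_ ?_ ?_
  · refine ⟨R, fun a b c d hdet hc hd x => ?_⟩
    have h := key a b c d hdet (by exact_mod_cast hc) (by exact_mod_cast hd) x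
    exact (Submodule.Quotient.mk_eq_zero m).1 h
  · -- no torsion
    intro q hq x hx
    obtain ⟨z, rfl⟩ := Submodule.Quotient.mk_surjective m x
    rw [← Submodule.Quotient.mk_smul, Submodule.Quotient.mk_eq_zero, nsmul_eq_mul] at hx
    rw [Submodule.Quotient.mk_eq_zero]
    exact kyn_div V m q z (kyn_unit V hv q hq) hx
  · -- additivity
    intro x y z
    show Submodule.Quotient.mk (PT Q x y) + Submodule.Quotient.mk (PT Q y z) =
      (Submodule.Quotient.mk (PT Q x z) : ℂ ⧸ m)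
    rw [← Submodule.Quotient.mk_add]
    congr 1
    unfold PT
    rw [← hsym.add x y z, ← hsym.add (mob 27 1 0 27 x) (mob 27 1 0 27 y) (mob 27 1 0 27 z)]
    ring
  · -- invariance
    intro a b c d hdet hc hd x y
    have hc' : (3 : ℤ) ^ R * N₀ ∣ c := by exact_mod_cast hc
    have hd' : (3 : ℤ) ^ R * N₀ ∣ d - 1 := by exact_mod_cast hd
    have ha' : (3 : ℤ) ^ R * N₀ ∣ a - 1 := by
      have e : a - 1 = b * c - a * (d - 1) := by linear_combination hdet
      rw [e]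
      exact dvd_sub (hc'.mul_left b) (hd'.mul_left a)
    obtain ⟨c₁, hcc, hcN, -, c₂, hc2⟩ := hc1 c hc'
    obtain ⟨d₁, hdd, -, -, -⟩ := hc1 _ hd'
    obtain ⟨a₁, haa, -, -, -⟩ := hc1 _ ha'
    have hnud : nu d = 1 := by
      rw [hnuper d 1 (hlev3 _ hd'), hnu1]
    have hnud' : nu (d - c₁) = 1 := by
      rw [hnuper (d - c₁) 1 ?_, hnu1]
      have e : d - c₁ - 1 = d - 1 - c₁ := by ring
      rw [e]
      exact dvd_sub (hlev3 _ hd') hcN
    have hconj := kyn_conj a b c d (a + c₁) (b + (d₁ - a₁) - c₂) (d - c₁)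
      (by rw [hcc]; ring) (by
        have e : d - a = 27 * (d₁ - a₁) := by linear_combination hdd - haa
        rw [e, hcc, hc2]
        ring) (by rw [hcc]; ring)
    have hdet' : (a + c₁) * (d - c₁) - (b + (d₁ - a₁) - c₂) * c = 1 := by
      have e1 : (27 : ℤ) * (d₁ - a₁) = d - a := by linear_combination haa - hdd
      have e2 : c = 27 * c₁ := hcc
      have e3 : (27 : ℤ) * c₂ = c₁ := hc2.symm
      have : (a + c₁) * (d - c₁) - (b + (d₁ - a₁) - c₂) * c =
          (a * d - b * c) + c₁ * (d - a - 27 * (d₁ - a₁)) - c₁ * (c₁ - 27 * c₂) := by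
        rw [e2]
        ring
      rw [this, hdet, e1, e3]
      ring
    show (Submodule.Quotient.mk (PT Q (mob a b c d x) (mob a b c d y)) : ℂ ⧸ m) =
      Submodule.Quotient.mk (PT Q x y)
    congr 1
    unfold PT
    rw [hconj x, hconj y, hsym.equiv a b c d hdet (hlev _ hc') x y,
      hsym.equiv _ _ c _ hdet' (hlev _ hc'), hnud, hnud', one_mul, one_mul]
  · -- (A)
    intro a b c d n hn hc hd hac hbd hN hdet
    have hN' : (3 : ℤ) ^ R * N₀ ∣ c := by exact_mod_cast hN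
    have hdet3 : a * d - b * c = 3 ^ n := by exact_mod_cast hdet
    obtain ⟨c₁, hcc, hcN, hcr, hc27⟩ := hc1 c hN'
    have h3c : (3 : ℤ) ∣ c := (Dvd.intro _ rfl : (3 : ℤ) ∣ 3 * N₀).trans
      (by simpa using hlev3 c hN')
    have h3c1 : (3 : ℤ) ∣ c₁ := dvd_trans (by norm_num) hc27
    have ha3 : IsCoprime a (3 : ℤ) := hac.of_isCoprime_of_dvd_right h3c
    -- `d`
    have hdd : (3 : ℤ) ^ (r + 4) ∣ d := by
      have h2 : (3 : ℤ) ^ (r + 4) ∣ a * d := by
        have e : a * d = 3 ^ n + b * c := by linear_combination hdet3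
        rw [e]
        apply dvd_add (hpow (by omega))
        apply Dvd.dvd.mul_left
        exact dvd_trans (dvd_trans (hpow (by omega : r + 4 ≤ R)) (Dvd.intro _ rfl)) hN'
      exact (ha3.symm.pow_left).dvd_of_dvd_mul_left h2
    obtain ⟨d₂, hd2⟩ := hdd
    set d₁ : ℤ := 3 ^ (r + 1) * d₂ with hd1
    have hdd1 : d = 27 * d₁ := by
      rw [hd2, hd1, pow_add, pow_add]
      ring
    have h3d : (3 : ℤ) ∣ d := ⟨9 * d₁, by rw [hdd1]; ring⟩
    have hb3 : ¬ (3 : ℤ) ∣ b := by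
      intro h
      have h4 : IsCoprime (3 : ℤ) 3 := (hbd.of_isCoprime_of_dvd_left h).of_isCoprime_of_dvd_right h3d
      rw [isCoprime_self, Int.isUnit_iff] at h4
      omega
    -- PAI for `Q`
    obtain ⟨e, he, hQe⟩ := h1 _ nu Q hsym n a b c d hc hd hac (hlev _ hN') hdet3
    have hac' : IsCoprime (a + c₁) c := by
      have h5 : IsCoprime (a + c₁) c₁ := by
        have : IsCoprime a c₁ := hac.of_isCoprime_of_dvd_right ⟨27, by rw [hcc]; ring⟩
        have h6 := IsCoprime.add_mul_left_left this 1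
        rwa [mul_one] at h6
      have h6 : IsCoprime (a + c₁) (27 : ℤ) := h5.of_isCoprime_of_dvd_right hc27
      rw [hcc]
      exact h6.mul_right h5
    obtain ⟨e', he', hQe'⟩ := h1 _ nu Q hsym n (a + c₁) (b + d₁) c d hc hd hac' (hlev _ hN') (by
      rw [← hdet3]
      have : (a + c₁) * d - (b + d₁) * c = a * d - b * c + (c₁ * d - d₁ * c) := by ring
      rw [this, hcc, hdd1]
      ring)
    have hnua : nu (a + c₁) = nu a := by
      apply hnuper
      have : a + c₁ - a = c₁ := by ring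
      rw [this]
      exact hcN
    rw [hnua] at hQe'
    -- the two cusps
    have hcQ : (c : ℚ) ≠ 0 := by exact_mod_cast hc
    have hdQ : (d : ℚ) ≠ 0 := by exact_mod_cast hd
    have hcq : (c : ℚ) = 27 * c₁ := by exact_mod_cast hcc
    have hdq : (d : ℚ) = 27 * d₁ := by exact_mod_cast hdd1
    have eu : ((a + c₁ : ℤ) : ℚ) / c = (a : ℚ) / c + 1 / 27 := by
      push_cast
      have h7 : (c₁ : ℚ) = c / 27 := by rw [hcq]; ring
      rw [h7]
      field_simp
    have ew : ((b + d₁ : ℤ) : ℚ) / d = (b : ℚ) / d + 1 / 27 := by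
      push_cast
      have h7 : (d₁ : ℚ) = d / 27 := by rw [hdq]; ring
      rw [h7]
      field_simp
    rw [eu, ew] at hQe'
    -- comparison of `e` and `e'`
    have hrn : (3 : ℤ) ^ (r + 1) ∣ 3 ^ n := hpow (by omega)
    have hee : (3 : ℤ) ^ r ∣ e - e' := by
      have h8 : (3 : ℤ) ^ (r + 1) ∣ a * (e - e') := by
        have e1 : a * (e - e') = (a * e - b) - ((a + c₁) * e' - (b + d₁)) + c₁ * e' - d₁ := by ring
        rw [e1]
        apply dvd_sub
        · apply dvd_add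
          · exact dvd_sub (hrn.trans he) (hrn.trans he')
          · exact hcr.mul_right _
        · exact Dvd.intro _ rfl
      have h9 : (3 : ℤ) ^ (r + 1) ∣ e - e' := (ha3.symm.pow_left).dvd_of_dvd_mul_left h8
      exact (hpow (by omega)).trans h9
    have he3 : ¬ (3 : ℤ) ∣ e := by
      intro h
      apply hb3
      have e1 : b = a * e - (a * e - b) := by ring
      rw [e1]
      apply dvd_sub (h.mul_left a)
      exact (dvd_trans (dvd_pow_self 3 (by omega : n ≠ 0)) he)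
    have hl := hloc n (by omega) e e' he3 hee
    rw [← hQe, ← hQe', ← mul_sub] at hl
    have hva : V.valuation (nu a) = 1 := by
      apply hnuv
      exact hac.of_isCoprime_of_dvd_right (hlev3 _ hN')
    have hfin := kyn_div V m _ _ hva hl
    show (Submodule.Quotient.mk (PT Q _ _) : ℂ ⧸ m) = 0
    rw [Submodule.Quotient.mk_eq_zero]
    unfold PT
    rw [kyn_tau, kyn_tau]
    exact hfin
  · -- (A0)
    intro b n hn hb
    have hb3 : ¬ (3 : ℤ) ∣ b := by exact_mod_cast hb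
    show (Submodule.Quotient.mk (PT Q _ _) : ℂ ⧸ m) = 0
    rw [Submodule.Quotient.mk_eq_zero]
    unfold PT
    rw [kyn_tau_inf, kyn_tau]
    have hl := hloc n (by omega) b (b + 3 ^ (n - 3)) hb3 (by
      have e : b - (b + 3 ^ (n - 3)) = -(3 ^ (n - 3)) := by ring
      rw [e, dvd_neg]
      exact hpow (by omega))
    have e : (((b + 3 ^ (n - 3) : ℤ) : ℚ) / 3 ^ n) = (b : ℚ) / ((3 : ℕ) : ℚ) ^ n + 1 / 27 := by
      have e2 : (3 : ℚ) ^ n = 27 * 3 ^ (n - 3) := by
        conv_lhs => rw [show n = 3 + (n - 3) by omega, pow_add]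
        norm_num
      push_cast
      rw [e2]
      field_simp
    rw [e] at hl
    exact_mod_cast hl

end

end Pool.Agent.MUXHN


end

section

/-!
# MU3: the key lemma for weight two symbols with values in a module

Module version of `boundary_of_val` (`Pool/Agent/MuSym/Final.lean`), for weight two and a level
divisible by `p`: if a `U_p`-eigensymbol (unit eigenvalue) with values in an `R`-module killed by a
power of `p` vanishes on the paths from `∞` to `b / p ^ n` (`n ≥ 1`, `b` prime to `p`), then it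
vanishes on the closed paths from `x` to `h x`, `h` in `Γ₁(N)`.

Every `def S_X : Prop` is the statement of a module, which proves `theorem t_X : S_X` (from other
`S_Y` as hypotheses). The doc-string contains the proof.
-/

open Finset OnePoint

namespace Pool.Agent.MU3

open _root_.Pool.Agent.MuSym

/-- `ψ` is equivariant under `Γ₀(N)` with the factor `χ`, at the finite cusps. -/
def EqvM {R M : Type} [CommRing R] [AddCommGroup M] [Module R M] (N : ℕ) (χ : ℤ → R)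
    (ψ : ℚ → ℚ → M) : Prop :=
  ∀ a b c d : ℤ, a * d - b * c = 1 → (N : ℤ) ∣ c → ∀ x y : ℚ, (c : ℚ) * x + d ≠ 0 →
    (c : ℚ) * y + d ≠ 0 →
    ψ ((a * x + b) / (c * x + d)) ((a * y + b) / (c * y + d)) = χ d • ψ x y

/-- KM1: the key step for values in a module.
Proof. Adapt `Pool/Agent/MuSym/LevelP.lean` (`const_of_cycle`, `sheetP`, `key_stepP`,
`key_stepP_all`): replace `F` by `M`, `χ d *` by `χ d •`. Everything is division free up to the last
lines of `key_stepP`, which show: if `δ ≠ 0` is prime to `β p N'` then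
`a • ψ 0 (β/δ) = ∑_{j<p} G 0 = (p : R) • G 0`, `G 0 = ψ 0 (β p^e / (δ p^(e+1)))`, and
`β p^e / (δ p^(e+1)) = β'/δ'` with `δ' ≠ 0` prime to `β' N'`. `key_stepP_all` (reduction of
a denominator divisible by `p` to one prime to `p` by the equivariance and `hZ`) shows that
`ψ 0 (β/δ)`, `δ` prime to `β N'`, is equal to some `ψ 0 (B/D)`, `D` prime to `B p N'`. So every value
`ψ 0 (β/δ)`, `δ` prime to `β N'`, is `p` times `a⁻¹` times another one; iterate: it is
`(p^k a⁻ᵏ) •` another one, so it is `0`. -/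
def S_KM1 : Prop := ∀ (p : ℕ) (_ : p.Prime) (N' : ℕ) (_ : p.Coprime N') (R M : Type) [CommRing R]
    [AddCommGroup M] [Module R M] (χ : ℤ → R) (ψ : ℚ → ℚ → M) (a : R) (_ : IsUnit a) (k : ℕ)
    (_ : ∀ x y, (p : R) ^ k • ψ x y = 0) (_ : ∀ x y z, ψ x y + ψ y z = ψ x z)
    (_ : EqvM (p * N') χ ψ) (_ : χ 1 = 1)
    (_ : ∀ (S S' : ℤ) (i i' : ℕ), ψ (S / (p : ℚ) ^ i) (S' / (p : ℚ) ^ i') = 0)
    (_ : ∀ x y, a • ψ x y = ∑ j ∈ range p, ψ ((x + j) / p) ((y + j) / p))
    (β δ : ℤ) (_ : δ ≠ 0) (_ : IsCoprime δ (β * N')), ψ 0 (β / δ) = 0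

/-- KM1L: lowering of the level.
Proof. Adapt `level_down` and `level_down_all` of `Pool/Agent/MuSym/Trick.lean` (values in `M`, `a` a
unit): `a • ψ = U_p ψ`, and for a matrix `h` of `Γ₀(p^(s+1) N')`, `s ≥ 1`, the matrices
`(1 j; 0 p) h` are `h_j (1 j'; 0 p)` with `h_j` in `Γ₀(p^(s+2) N')` and lower right entry `≡ d`. -/
def S_KM1L : Prop := ∀ (p : ℕ) (_ : p.Prime) (N' : ℕ) (R M : Type) [CommRing R]
    [AddCommGroup M] [Module R M] (χ : ℤ → R) (ψ : ℚ → ℚ → M) (a : R) (_ : IsUnit a)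
    (_ : χ 1 = 1) (_ : ∀ d d' : ℤ, ((p * N' : ℕ) : ℤ) ∣ d - d' → χ d = χ d')
    (_ : ∀ x y, a • ψ x y = ∑ j ∈ range p, ψ ((x + j) / p) ((y + j) / p)) (s : ℕ)
    (_ : EqvM (p ^ (s + 1) * N') χ ψ), EqvM (p * N') χ ψ

/-- KM2: the key lemma.
Proof (from KM1, KM1L). `ψ x y = Φ x y` on `ℚ`. `EqvM (p^(s+1) N') χ ψ` from `hE` (`mob_coe` in
`Pool/Agent/MuSym/Base.lean` or `Red.lean`), so `EqvM (p N') χ ψ` by KM1L. `φ₀ = Φ ∞ 0`. The relation
`hT` at `(∞, 0)` is `a φ₀ = Φ ∞ 0 + ∑_{0<j<p} Φ ∞ (j/p) = φ₀`, so `(a - 1) φ₀ = 0`; by translation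
`Φ ∞ n = φ₀` for `n ∈ ℤ`. `-1 ∈ Γ₀(N)` acts trivially on cusps: `χ(-1) φ₀ = φ₀`. `B : ℚ → M`,
`B(β/δ) = χ(δ) φ₀` if `δ` (`β/δ` in lowest terms, `δ > 0`) is prime to `p N'`, and `0` otherwise. If
`h = (α β'; c d)` with `p N' ∣ c` then `B(h x) = χ(d) B(x)`: the denominator of `h x` is
`± (c β + d δ) ≡ ± d δ` modulo `p N'`, `χ` is multiplicative and periodic. `∑_j B((x+j)/p) = B(x)`: if
`p ∤ δ` exactly one `β + jδ` is divisible by `p` and then `(x+j)/p` has denominator `δ`, the others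
have a denominator divisible by `p`; if `p ∣ δ` all denominators are divisible by `p`. So
`ψ' x y = ψ x y - B y + B x` satisfies all hypotheses of KM1: equivariance, `a • ψ' = U_p ψ'` (because
`(a - 1) • B = 0`, `χ(δ)(a - 1) φ₀ = 0`), and it vanishes on all pairs `S/p^i`, `S'/p^i'` (`Φ ∞ (S/p^i)` is `0` or
`φ₀ = B(S/p^i)`). It is killed by `p^k`. So `ψ' 0 (β/δ) = 0` for all `δ` prime to `β N'`. For
`h = (α β; γ δ)`, `N ∣ γ`, `N ∣ δ - 1`, `δ ≠ 0`: `Φ 0 (h 0) = Φ 0 (β/δ) = B(β/δ) - B(0) = (χ(δ) - 1) φ₀ = 0`.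
`δ = 0` only if `N = 1`, excluded by `p ∣ N`. `Φ x (h x) = Φ x 0 + Φ 0 (h 0) + Φ (h 0) (h x)` and
`Φ (h 0) (h x) = χ(δ) Φ 0 x = Φ 0 x`, so `Φ x (h x) = 0`. -/
def S_KM2 : Prop := ∀ (p : ℕ) (_ : p.Prime) (N' s : ℕ) (_ : p.Coprime N') (_ : N' ≠ 0) (R M : Type)
    [CommRing R] [AddCommGroup M] [Module R M] (χ : ℤ → R) (Φ : OnePoint ℚ → OnePoint ℚ → M)
    (a : R) (_ : IsUnit a) (k : ℕ) (_ : ∀ x y, (p : R) ^ k • Φ x y = 0)
    (_ : χ 1 = 1) (_ : ∀ d d' : ℤ, χ (d * d') = χ d * χ d')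
    (_ : ∀ d d' : ℤ, ((p * N' : ℕ) : ℤ) ∣ d - d' → χ d = χ d')
    (_ : ∀ x y z, Φ x y + Φ y z = Φ x z)
    (_ : ∀ a b c d : ℤ, a * d - b * c = 1 → ((p ^ (s + 1) * N' : ℕ) : ℤ) ∣ c → ∀ x y,
      Φ (mob a b c d x) (mob a b c d y) = χ d • Φ x y)
    (_ : ∀ x : ℚ, a • Φ ∞ (x : OnePoint ℚ) =
      ∑ j ∈ range p, Φ ∞ (((x + j) / p : ℚ) : OnePoint ℚ))
    (_ : ∀ n, 1 ≤ n → ∀ b : ℤ, ¬ (p : ℤ) ∣ b → Φ ∞ ((b / p ^ n : ℚ) : OnePoint ℚ) = 0),
    ∀ α β γ δ : ℤ, α * δ - β * γ = 1 → ((p ^ (s + 1) * N' : ℕ) : ℤ) ∣ γ →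
      ((p ^ (s + 1) * N' : ℕ) : ℤ) ∣ δ - 1 → ∀ x, Φ x (mob α β γ δ x) = 0

end Pool.Agent.MU3


end

section

/-!
An eigenfunction of `U_p` with a unit eigenvalue, with values in a module, which is equivariant at
a level divisible by `p ^ (s + 1)` is equivariant at the level divided by `p`, for `s ≥ 1`
(adapted from `Pool/Agent/MuSym/Trick.lean`).
-/

open Finset

namespace Pool.Agent.MU3

namespace P_KM1L

variable {R M : Type} [CommRing R] [AddCommGroup M] [Module R M] {p : ℕ} {χ : ℤ → R}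
  {ψ : ℚ → ℚ → M}

lemma sum_affine {M : Type} [AddCommGroup M] (hp : p.Prime) {f : ℤ → M} (hf : ∀ k, f (k + p) = f k) (u w : ℤ)
    (hu : ¬ (p : ℤ) ∣ u) : ∑ j ∈ range p, f (w + u * j) = ∑ j ∈ range p, f j := by
  have : Fact p.Prime := ⟨hp⟩
  have per : ∀ (k x : ℤ), f (x + p * k) = f x := by
    intro k
    induction k using Int.induction_on with
    | zero => intro x; simp
    | succ n ih =>
      intro x
      rw [show x + p * (n + 1) = (x + p * n) + p by ring, hf, ih]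
    | pred n ih =>
      intro x
      have := hf (x + p * (-(n : ℤ) - 1))
      rw [show x + p * (-(n : ℤ) - 1) + p = x + p * -(n : ℤ) by ring, ih] at this
      exact this.symm
  let h : ZMod p → M := fun z => f (z.val : ℤ)
  have hh : ∀ x : ℤ, f x = h (x : ZMod p) := by
    intro x
    change f x = f (((x : ZMod p).val : ℕ) : ℤ)
    rw [ZMod.val_intCast]
    have h1 := Int.emod_add_mul_ediv x p
    have h2 := per (x / p) (x % p)
    rw [h1] at h2
    exact h2
  have hsum : ∀ k : ZMod p → M, ∑ j ∈ range p, k ((j : ℕ) : ZMod p) = ∑ z : ZMod p, k z := by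
    intro k
    refine Finset.sum_nbij' (fun j => ((j : ℕ) : ZMod p)) (fun z => z.val) ?_ ?_ ?_ ?_ ?_
    · intro j _
      exact mem_univ _
    · intro z _
      exact mem_range.mpr (ZMod.val_lt z)
    · intro j hj
      exact ZMod.val_cast_of_lt (mem_range.mp hj)
    · intro z _
      exact ZMod.natCast_zmod_val z
    · intro j _
      rfl
  have hu0 : (u : ZMod p) ≠ 0 := by
    intro hcon
    exact hu ((ZMod.intCast_zmod_eq_zero_iff_dvd u p).mp hcon)
  calc ∑ j ∈ range p, f (w + u * j)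
      = ∑ j ∈ range p, (fun z : ZMod p => h ((w : ZMod p) + (u : ZMod p) * z))
          ((j : ℕ) : ZMod p) := by
        apply sum_congr rfl
        intro j _
        rw [hh]
        congr 1
        push_cast
        ring
    _ = ∑ z : ZMod p, h ((w : ZMod p) + (u : ZMod p) * z) :=
        hsum (fun z : ZMod p => h ((w : ZMod p) + (u : ZMod p) * z))
    _ = ∑ z : ZMod p, h z := by
        apply Fintype.sum_bijective (fun z => (w : ZMod p) + (u : ZMod p) * z)
        · constructor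
          · intro z z' hz
            simp only [add_right_inj] at hz
            exact mul_left_cancel₀ hu0 hz
          · intro z
            refine ⟨(u : ZMod p)⁻¹ * (z - w), ?_⟩
            simp only
            rw [← mul_assoc, mul_inv_cancel₀ hu0]
            ring
        · intro z
          rfl
    _ = ∑ j ∈ range p, f j := by
        rw [← hsum]
        apply sum_congr rfl
        intro j _
        rw [hh]
        simp

theorem level_down (hp : p.Prime) {N : ℕ} {a : R} (ha : IsUnit a) (hpM : p ∣ N)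
    (hE : EqvM (p * N) χ ψ) (hχ1 : χ 1 = 1) (hχ : ∀ d d' : ℤ, (N : ℤ) ∣ d - d' → χ d = χ d')
    (hT : ∀ x y, a • ψ x y = ∑ j ∈ range p, ψ ((x + j) / p) ((y + j) / p)) : EqvM N χ ψ := by
  intro A B C D hdet hC x y hx hy
  have hp0 : (p : ℤ) ≠ 0 := by exact_mod_cast hp.ne_zero
  have hpQ : (p : ℚ) ≠ 0 := by exact_mod_cast hp.ne_zero
  have hpp : Prime (p : ℤ) := Nat.prime_iff_prime_int.mp hp
  have hpC : (p : ℤ) ∣ C := dvd_trans (by exact_mod_cast hpM) hC
  obtain ⟨C', hC'⟩ := hpC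
  have hpD : ¬ (p : ℤ) ∣ D := by
    intro hcon
    apply hpp.not_isUnit
    apply isUnit_of_dvd_one
    rw [← hdet]
    exact dvd_sub (hcon.mul_left _) ((Dvd.intro _ hC'.symm).mul_left _)
  apply ha.smul_left_cancel.mp
  have hper : ∀ k : ℤ, ψ ((x + ((k + p : ℤ) : ℚ)) / p) ((y + ((k + p : ℤ) : ℚ)) / p) =
      ψ ((x + (k : ℚ)) / p) ((y + (k : ℚ)) / p) := by
    intro k
    have h1 := hE 1 1 0 1 (by ring) (dvd_zero _) ((x + (k : ℚ)) / p) ((y + (k : ℚ)) / p)
      (by simp) (by simp)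
    simp only [Int.cast_one, Int.cast_zero, one_mul, zero_mul, zero_add, div_one, hχ1, one_smul] at h1
    rw [← h1]
    congr 1
    · push_cast
      field_simp
      ring
    · push_cast
      field_simp
      ring
  have hterm : ∀ j ∈ range p, ψ (((A * x + B) / (C * x + D) + j) / p)
      (((A * y + B) / (C * y + D) + j) / p) =
      χ D • ψ ((x + ((D * B + D ^ 2 * j : ℤ) : ℚ)) / p) ((y + ((D * B + D ^ 2 * j : ℤ) : ℚ)) / p) := by
    intro j _
    obtain ⟨k, hk⟩ : ∃ k : ℤ, k = D * B + D ^ 2 * j := ⟨_, rfl⟩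
    rw [← hk]
    have hdet' : (A + j * C) * (D - k * C) - (-(C' * (B + j * D) ^ 2)) * (p * C) = 1 := by
      rw [hk]
      linear_combination (1 - C * (B + j * D)) * hdet - (C * (B + j * D) ^ 2) * hC'
    have hMC : ((p * N : ℕ) : ℤ) ∣ p * C := by
      push_cast
      exact mul_dvd_mul_left _ hC
    have hdetQ : (A : ℚ) * D - B * C = 1 := by exact_mod_cast hdet
    have hCQ : (C : ℚ) = p * C' := by exact_mod_cast hC'
    have hkQ : (k : ℚ) = D * B + D ^ 2 * j := by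
      rw [hk]
      push_cast
      ring
    have e1 : ∀ z : ℚ, ((p * C : ℤ) : ℚ) * ((z + k) / p) + ((D - k * C : ℤ) : ℚ) = C * z + D := by
      intro z
      push_cast
      field_simp
      ring
    have e2 : ∀ z : ℚ, (C : ℚ) * z + D ≠ 0 →
        (((A + j * C : ℤ) : ℚ) * ((z + k) / p) + ((-(C' * (B + j * D) ^ 2) : ℤ) : ℚ)) /
          (((p * C : ℤ) : ℚ) * ((z + k) / p) + ((D - k * C : ℤ) : ℚ)) =
        ((A * z + B) / (C * z + D) + j) / p := by
      intro z hz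
      rw [e1 z, div_eq_div_iff hz hpQ, div_add' _ _ _ hz, div_mul_cancel₀ _ hz]
      push_cast
      field_simp
      rw [hkQ]
      linear_combination (D * j + B) * hdetQ + (B + j * D) ^ 2 * hCQ
    have h1 := hE (A + j * C) (-(C' * (B + j * D) ^ 2)) (p * C) (D - k * C) hdet' hMC
      ((x + (k : ℚ)) / p) ((y + (k : ℚ)) / p) (by rw [e1]; exact hx) (by rw [e1]; exact hy)
    rw [e2 x hx, e2 y hy] at h1
    rw [h1]
    congr 1
    apply hχ
    rw [sub_sub_cancel_left]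
    exact (hC.mul_left _).neg_right
  rw [hT, sum_congr rfl hterm, ← smul_sum,
    sum_affine hp (f := fun k : ℤ => ψ ((x + (k : ℚ)) / p) ((y + (k : ℚ)) / p)) hper (D ^ 2)
      (D * B) (fun h => hpD (hpp.dvd_of_dvd_pow h))]
  have h2 := hT x y
  simp only [Int.cast_natCast]
  rw [← h2, smul_comm]

theorem level_down_all (hp : p.Prime) {N' : ℕ} {a : R} (ha : IsUnit a) (hχ1 : χ 1 = 1)
    (hχ : ∀ d d' : ℤ, ((p * N' : ℕ) : ℤ) ∣ d - d' → χ d = χ d')
    (hT : ∀ x y, a • ψ x y = ∑ j ∈ range p, ψ ((x + j) / p) ((y + j) / p)) (s : ℕ)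
    (hE : EqvM (p ^ (s + 1) * N') χ ψ) : EqvM (p * N') χ ψ := by
  induction s with
  | zero => simpa using hE
  | succ s ih =>
    apply ih
    apply level_down hp ha ((dvd_pow_self p (Nat.succ_ne_zero s)).mul_right N') _ hχ1 _ hT
    · have : p * (p ^ (s + 1) * N') = p ^ (s + 1 + 1) * N' := by ring
      rw [this]
      exact hE
    · intro d d' h
      apply hχ
      refine dvd_trans ?_ h
      push_cast
      exact mul_dvd_mul_right (dvd_pow_self _ (Nat.succ_ne_zero s)) _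

end P_KM1L

theorem t_KM1L : S_KM1L := by
  intro p hp N' R M _ _ _ χ ψ a ha hχ1 hχ hT s hE
  exact P_KM1L.level_down_all hp ha hχ1 hχ hT s hE

end Pool.Agent.MU3


end

section

/-!
The key step at a level divisible by `p` exactly once, for functions `ψ` on the pairs of rational
numbers with values in a module (adapted from `Pool/Agent/MuSym/LevelP.lean`).
-/

open Finset

namespace Pool.Agent.MU3

namespace P_KM1

variable {R M : Type} [CommRing R] [AddCommGroup M] [Module R M] {p N : ℕ} {χ : ℤ → R}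
  {ψ : ℚ → ℚ → M}

/-- A function on the integers with period `P` and a second period `T`, prime to `P`, except at
one residue class, is constant. -/
lemma const_of_cycle {M : Type} {G : ℤ → M} {P T S₀ : ℤ} (hP : 0 < P) (hPT : IsCoprime T P)
    (hp : ∀ x, G (x + P) = G x) (ht : ∀ x, ¬ P ∣ x - S₀ → G (x + T) = G x) (x : ℤ) :
    G x = G 0 := by
  have per : ∀ (k x : ℤ), G (x + k * P) = G x := by
    intro k
    induction k using Int.induction_on with
    | zero => intro x; simp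
    | succ n ih =>
      intro x
      rw [show x + (n + 1) * P = (x + n * P) + P by ring, hp, ih]
    | pred n ih =>
      intro x
      have := hp (x + (-(n : ℤ) - 1) * P)
      rw [show x + (-(n : ℤ) - 1) * P + P = x + -(n : ℤ) * P by ring, ih] at this
      exact this.symm
  have walk : ∀ k : ℕ, (k : ℤ) < P → G (S₀ + T + k * T) = G (S₀ + T) := by
    intro k
    induction k with
    | zero => intro _; simp
    | succ k ih =>
      intro hk
      have h1 := ih (by push_cast at hk; omega)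
      have h2 : ¬ P ∣ (S₀ + T + k * T) - S₀ := by
        intro hcon
        have h3 : P ∣ T * ((k : ℤ) + 1) := by
          have h4 : (S₀ + T + k * T) - S₀ = T * ((k : ℤ) + 1) := by ring
          rwa [h4] at hcon
        have h5 : P ∣ (k : ℤ) + 1 := hPT.symm.dvd_of_dvd_mul_left h3
        have h6 := Int.le_of_dvd (by omega) h5
        push_cast at hk
        omega
      have h3 := ht _ h2
      rw [← h1, ← h3]
      congr 1
      push_cast
      ring
  have all : ∀ x, G x = G (S₀ + T) := by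
    intro x
    obtain ⟨s, t, hst⟩ := hPT
    -- `k ≡ (x - S₀ - T) s (mod P)`
    obtain ⟨k, hk⟩ : ∃ k : ℕ, (k : ℤ) = ((x - S₀ - T) * s) % P :=
      ⟨(((x - S₀ - T) * s) % P).toNat, Int.toNat_of_nonneg (Int.emod_nonneg _ hP.ne')⟩
    have hkP : (k : ℤ) < P := by
      rw [hk]
      exact Int.emod_lt_of_pos _ hP
    have h1 := Int.emod_add_mul_ediv ((x - S₀ - T) * s) P
    rw [← hk] at h1
    have h2 := walk k hkP
    rw [← h2]
    have h3 := per ((x - S₀ - T) * t + ((x - S₀ - T) * s / P) * T) (S₀ + T + k * T)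
    rw [← h3]
    congr 1
    linear_combination (-(x - S₀ - T)) * hst - T * h1
  rw [all x, all 0]

/-- `ψ` vanishes on the pairs of points of one sheet. -/
lemma sheetP (hp : p.Prime) (hE : EqvM N χ ψ)
    (hZ : ∀ (S S' : ℤ) (i i' : ℕ), ψ (S / (p : ℚ) ^ i) (S' / (p : ℚ) ^ i') = 0)
    (a1 c1 b d b' d' : ℤ) (hNc1 : (N : ℤ) ∣ c1) (hcop : IsCoprime a1 c1) (hd : d ≠ 0)
    (hd' : d' ≠ 0) (i i' : ℕ) (q1 : a1 * d - c1 * b = (p : ℤ) ^ i)
    (q2 : a1 * d' - c1 * b' = (p : ℤ) ^ i') : ψ (b / d) (b' / d') = 0 := by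
  obtain ⟨d2, b2', hbez⟩ := hcop
  obtain ⟨b2, rfl⟩ : ∃ b2, b2' = -b2 := ⟨-b2', by ring⟩
  have hdet : a1 * d2 - b2 * c1 = 1 := by linarith
  have hdetQ : (a1 : ℚ) * d2 - b2 * c1 = 1 := by exact_mod_cast hdet
  have hq1 : (a1 : ℚ) * d - c1 * b = (p : ℚ) ^ i := by exact_mod_cast q1
  have hq2 : (a1 : ℚ) * d' - c1 * b' = (p : ℚ) ^ i' := by exact_mod_cast q2
  have hpQ : (p : ℚ) ≠ 0 := by exact_mod_cast hp.ne_zero
  have hP1 : (p : ℚ) ^ i ≠ 0 := pow_ne_zero _ hpQ
  have hP2 : (p : ℚ) ^ i' ≠ 0 := pow_ne_zero _ hpQ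
  have hdQ : (d : ℚ) ≠ 0 := by exact_mod_cast hd
  have hdQ' : (d' : ℚ) ≠ 0 := by exact_mod_cast hd'
  have e1 : (c1 : ℚ) * (((d2 * b - b2 * d : ℤ) : ℚ) / (p : ℚ) ^ i) + d2 = d / (p : ℚ) ^ i := by
    rw [eq_div_iff hP1, add_mul, mul_assoc, div_mul_cancel₀ _ hP1, ← hq1]
    push_cast
    linear_combination (d : ℚ) * hdetQ
  have e2 : (a1 : ℚ) * (((d2 * b - b2 * d : ℤ) : ℚ) / (p : ℚ) ^ i) + b2 = b / (p : ℚ) ^ i := by
    rw [eq_div_iff hP1, add_mul, mul_assoc, div_mul_cancel₀ _ hP1, ← hq1]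
    push_cast
    linear_combination (b : ℚ) * hdetQ
  have e3 : (c1 : ℚ) * (((d2 * b' - b2 * d' : ℤ) : ℚ) / (p : ℚ) ^ i') + d2 =
      d' / (p : ℚ) ^ i' := by
    rw [eq_div_iff hP2, add_mul, mul_assoc, div_mul_cancel₀ _ hP2, ← hq2]
    push_cast
    linear_combination (d' : ℚ) * hdetQ
  have e4 : (a1 : ℚ) * (((d2 * b' - b2 * d' : ℤ) : ℚ) / (p : ℚ) ^ i') + b2 =
      b' / (p : ℚ) ^ i' := by
    rw [eq_div_iff hP2, add_mul, mul_assoc, div_mul_cancel₀ _ hP2, ← hq2]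
    push_cast
    linear_combination (b' : ℚ) * hdetQ
  have key := hE a1 b2 c1 d2 hdet hNc1
    (((d2 * b - b2 * d : ℤ) : ℚ) / (p : ℚ) ^ i)
    (((d2 * b' - b2 * d' : ℤ) : ℚ) / (p : ℚ) ^ i')
    (by rw [e1]; exact div_ne_zero hdQ hP1) (by rw [e3]; exact div_ne_zero hdQ' hP2)
  rw [e1, e2, e3, e4, hZ, smul_zero, div_div_div_cancel_right₀ hP1,
    div_div_div_cancel_right₀ hP2] at key
  exact key

/-- The key step at the level `p N'`: the cusps in the orbit of `0`. -/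
theorem key_stepP (hp : p.Prime) {N' : ℕ} (hpN : p.Coprime N') {a : R}
    (hadd : ∀ x y z, ψ x y + ψ y z = ψ x z) (hE : EqvM (p * N') χ ψ) (hχ : χ 1 = 1)
    (hZ : ∀ (S S' : ℤ) (i i' : ℕ), ψ (S / (p : ℚ) ^ i) (S' / (p : ℚ) ^ i') = 0)
    (hT : ∀ x y, a • ψ x y = ∑ j ∈ range p, ψ ((x + j) / p) ((y + j) / p))
    (β δ : ℤ) (hδ : δ ≠ 0) (hcop : IsCoprime δ (β * (p * N' : ℕ))) :
    ∃ β' δ' : ℤ, δ' ≠ 0 ∧ IsCoprime δ' (β' * N') ∧
      a • ψ 0 (β / δ) = (p : R) • ψ 0 (β' / δ') := by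
  have hcop0 := hcop
  have hp0 : (p : ℤ) ≠ 0 := by exact_mod_cast hp.ne_zero
  have hpQ : (p : ℚ) ≠ 0 := by exact_mod_cast hp.ne_zero
  have hpp : Prime (p : ℤ) := Nat.prime_iff_prime_int.mp hp
  obtain ⟨α, w, hw⟩ := hcop
  obtain ⟨κ, hκN, hdet⟩ : ∃ κ : ℤ, ((p * N' : ℕ) : ℤ) ∣ κ ∧ α * δ - β * κ = 1 :=
    ⟨-(w * (p * N' : ℕ)), ⟨-w, by ring⟩, by linear_combination hw⟩
  by_cases hκ : κ = 0
  · rw [hκ, mul_zero, sub_zero] at hdet
    have hδ1 : δ = 1 ∨ δ = -1 :=
      Int.isUnit_iff.mp (IsUnit.of_mul_eq_one α (by rw [mul_comm]; exact hdet))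
    have hzero : ψ 0 (β / δ) = 0 := by
      rcases hδ1 with rfl | rfl
      · have := hZ 0 β 0 0
        simpa using this
      · have h3 := hZ 0 (-β) 0 0
        have h4 : ((β : ℤ) : ℚ) / ((-1 : ℤ) : ℚ) = ((-β : ℤ) : ℚ) / (p : ℚ) ^ 0 := by
          push_cast
          ring
        rw [h4, ← h3]
        congr 1
        simp
    refine ⟨β, δ, hδ, ?_, ?_⟩
    · have h1 : IsCoprime δ (β * N' * p) := by
        have : β * (p * N' : ℕ) = β * N' * p := by push_cast; ring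
        rwa [this] at hcop0
      exact h1.of_mul_right_left
    · rw [hzero, smul_zero, smul_zero]
  obtain ⟨e, m', hm', hem'⟩ : ∃ (e : ℕ) (m : ℤ), ¬ (p : ℤ) ∣ m ∧ κ = (p : ℤ) ^ e * m := by
    have hfin : FiniteMultiplicity (p : ℤ) κ := by
      apply Int.finiteMultiplicity_iff.mpr
      refine ⟨?_, hκ⟩
      simpa using hp.ne_one
    obtain ⟨m, hm1, hm2⟩ := hfin.exists_eq_pow_mul_and_not_dvd
    exact ⟨_, m, hm2, hm1⟩
  have hpκ : (p : ℤ) ∣ κ := dvd_trans ⟨(N' : ℤ), by push_cast; ring⟩ hκN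
  have hN'κ : (N' : ℤ) ∣ κ := dvd_trans ⟨(p : ℤ), by push_cast; ring⟩ hκN
  have hpδ : ¬ (p : ℤ) ∣ δ := by
    intro hcon
    apply hpp.not_isUnit
    apply isUnit_of_dvd_one
    rw [← hdet]
    exact dvd_sub (hcon.mul_left _) (hpκ.mul_left _)
  have hN'm : (N' : ℤ) ∣ m' := by
    rw [hem'] at hN'κ
    have : IsCoprime (N' : ℤ) ((p : ℤ) ^ e) :=
      IsCoprime.pow_right (Nat.isCoprime_iff_coprime.mpr hpN).symm
    exact this.dvd_of_dvd_mul_left hN'κ
  have hpm : Nat.Coprime p (m' * δ).natAbs := by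
    rw [hp.coprime_iff_not_dvd]
    intro hcon
    rcases hpp.dvd_or_dvd (Int.natCast_dvd.mpr hcon) with h | h
    · exact hm' h
    · exact hpδ h
  obtain ⟨o, T, ho, hT1⟩ : ∃ (o : ℕ) (T : ℤ), o ≠ 0 ∧ (m' * δ) * T = 1 - (p : ℤ) ^ o := by
    have hm0 : m' * δ ≠ 0 := by
      intro h
      rw [h] at hpm
      simp only [Int.natAbs_zero, Nat.coprime_zero_right] at hpm
      exact hp.ne_one hpm
    have htot := Nat.ModEq.pow_totient hpm
    have hdvd : m' * δ ∣ 1 - (p : ℤ) ^ (Nat.totient (m' * δ).natAbs) := by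
      have h3 := (Nat.modEq_iff_dvd.mp htot)
      rw [← Int.natAbs_dvd]
      have h4 : (((m' * δ).natAbs : ℕ) : ℤ) ∣ ((1 : ℕ) : ℤ) -
          ((p ^ Nat.totient (m' * δ).natAbs : ℕ) : ℤ) := h3
      push_cast at h4 ⊢
      exact h4
    obtain ⟨T, hT2⟩ := hdvd
    refine ⟨_, T, ?_, hT2.symm⟩
    have : 0 < Nat.totient (m' * δ).natAbs := Nat.totient_pos.mpr (Int.natAbs_pos.mpr hm0)
    omega
  have hTp1 : IsCoprime T (p : ℤ) := by
    refine ⟨m' * δ, (p : ℤ) ^ (o - 1), ?_⟩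
    rw [hT1, ← pow_succ, Nat.sub_add_cancel (Nat.pos_of_ne_zero ho)]
    ring
  have hTp : IsCoprime T ((p : ℤ) ^ (e + 1)) := hTp1.pow_right
  have hδQ : (δ : ℚ) ≠ 0 := by exact_mod_cast hδ
  have hPe : (p : ℚ) ^ (e + 1) ≠ 0 := pow_ne_zero _ hpQ
  -- the exceptional residue class
  obtain ⟨S₀, hS₀⟩ : ∃ S₀ : ℤ, (p : ℤ) ^ (e + 1) ∣ α + S₀ * m' := by
    have : IsCoprime m' ((p : ℤ) ^ (e + 1)) :=
      IsCoprime.pow_right ((Prime.coprime_iff_not_dvd hpp).mpr hm').symm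
    obtain ⟨s, t, hst⟩ := this
    refine ⟨-α * s, α * t, ?_⟩
    linear_combination (-α) * hst
  let G : ℤ → M := fun S => ψ ((S : ℚ) / (p : ℚ) ^ (e + 1))
    (((β * (p : ℤ) ^ e + S * δ : ℤ) : ℚ) / ((δ * (p : ℤ) ^ (e + 1) : ℤ) : ℚ))
  have hG1 : ∀ S, ¬ (p : ℤ) ^ (e + 1) ∣ S - S₀ → G (S + T) = G S := by
    intro S hS
    have hS' : ¬ (p : ℤ) ^ (e + 1) ∣ α + S * m' := by
      intro hcon
      apply hS
      have h1 : (p : ℤ) ^ (e + 1) ∣ m' * (S - S₀) := by
        have : m' * (S - S₀) = (α + S * m') - (α + S₀ * m') := by ring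
        rw [this]
        exact dvd_sub hcon hS₀
      have h2 : IsCoprime ((p : ℤ) ^ (e + 1)) m' :=
        (IsCoprime.pow_right ((Prime.coprime_iff_not_dvd hpp).mpr hm').symm).symm
      exact h2.dvd_of_dvd_mul_left h1
    obtain ⟨v, n, hn, hvn⟩ : ∃ (v : ℕ) (n : ℤ), ¬ (p : ℤ) ∣ n ∧ α + S * m' = (p : ℤ) ^ v * n := by
      have hfin : FiniteMultiplicity (p : ℤ) (α + S * m') := by
        apply Int.finiteMultiplicity_iff.mpr
        refine ⟨?_, ?_⟩
        · simpa using hp.ne_one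
        · intro h
          exact hS' (h ▸ dvd_zero _)
      obtain ⟨m, hm1, hm2⟩ := hfin.exists_eq_pow_mul_and_not_dvd
      exact ⟨_, m, hm2, hm1⟩
    have hv : v ≤ e := by
      by_contra hcon
      apply hS'
      rw [hvn]
      exact (pow_dvd_pow _ (by omega)).mul_right _
    have q1 : n * (δ * (p : ℤ) ^ (e + 1)) - ((p : ℤ) ^ (e + 1 - v) * m') * (β * (p : ℤ) ^ e + S * δ) =
        (p : ℤ) ^ (e + 1 - v) := by
      apply mul_left_cancel₀ (pow_ne_zero v hp0)
      have h1 : (p : ℤ) ^ v * (p : ℤ) ^ (e + 1 - v) = (p : ℤ) ^ (e + 1) := by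
        rw [← pow_add]
        congr 1
        omega
      rw [h1]
      rw [hem'] at hdet
      linear_combination (-(δ * (p : ℤ) ^ (e + 1))) * hvn -
        (m' * (β * (p : ℤ) ^ e + S * δ)) * h1 + (p : ℤ) ^ (e + 1) * hdet
    have q2 : n * (δ * (p : ℤ) ^ (e + 1)) -
        ((p : ℤ) ^ (e + 1 - v) * m') * (β * (p : ℤ) ^ e + (S + T) * δ) =
        (p : ℤ) ^ (e + 1 - v + o) := by
      rw [pow_add]
      linear_combination q1 - ((p : ℤ) ^ (e + 1 - v)) * hT1
    have hcop1 : IsCoprime n ((p : ℤ) ^ (e + 1 - v) * m') := by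
      have h1 : IsCoprime n ((p : ℤ) ^ (e + 1 - v)) :=
        IsCoprime.pow_right ((Prime.coprime_iff_not_dvd hpp).mpr hn).symm
      obtain ⟨s, t, hst⟩ := h1
      refine ⟨s + t * (δ * (p : ℤ) ^ (e + 1)), -(t * (β * (p : ℤ) ^ e + S * δ)), ?_⟩
      linear_combination hst + t * q1
    have hs : ψ (((β * (p : ℤ) ^ e + S * δ : ℤ) : ℚ) / ((δ * (p : ℤ) ^ (e + 1) : ℤ) : ℚ))
        (((β * (p : ℤ) ^ e + (S + T) * δ : ℤ) : ℚ) / ((δ * (p : ℤ) ^ (e + 1) : ℤ) : ℚ)) = 0 := by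
      apply sheetP hp hE hZ n ((p : ℤ) ^ (e + 1 - v) * m') _ _ _ _ ?_ hcop1
        (mul_ne_zero hδ (pow_ne_zero _ hp0)) (mul_ne_zero hδ (pow_ne_zero _ hp0)) _ _ q1 q2
      push_cast
      apply mul_dvd_mul _ hN'm
      exact dvd_pow_self _ (by omega)
    have hs2 : ψ (((S + T : ℤ) : ℚ) / (p : ℚ) ^ (e + 1)) ((S : ℚ) / (p : ℚ) ^ (e + 1)) = 0 :=
      hZ _ _ _ _
    change ψ (((S + T : ℤ) : ℚ) / (p : ℚ) ^ (e + 1))
      (((β * (p : ℤ) ^ e + (S + T) * δ : ℤ) : ℚ) / ((δ * (p : ℤ) ^ (e + 1) : ℤ) : ℚ)) =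
      ψ ((S : ℚ) / (p : ℚ) ^ (e + 1))
      (((β * (p : ℤ) ^ e + S * δ : ℤ) : ℚ) / ((δ * (p : ℤ) ^ (e + 1) : ℤ) : ℚ))
    rw [← hadd _ ((S : ℚ) / (p : ℚ) ^ (e + 1)), hs2, zero_add,
      ← hadd ((S : ℚ) / (p : ℚ) ^ (e + 1))
        (((β * (p : ℤ) ^ e + S * δ : ℤ) : ℚ) / ((δ * (p : ℤ) ^ (e + 1) : ℤ) : ℚ)), hs, add_zero]
  have hG2 : ∀ S, G (S + (p : ℤ) ^ (e + 1)) = G S := by
    intro S
    have h3 := hE 1 1 0 1 (by ring) (dvd_zero _) ((S : ℚ) / (p : ℚ) ^ (e + 1))
      (((β * (p : ℤ) ^ e + S * δ : ℤ) : ℚ) / ((δ * (p : ℤ) ^ (e + 1) : ℤ) : ℚ))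
      (by simp) (by simp)
    simp only [Int.cast_one, Int.cast_zero, one_mul, zero_mul, zero_add, div_one, hχ, one_smul] at h3
    change ψ (((S + (p : ℤ) ^ (e + 1) : ℤ) : ℚ) / (p : ℚ) ^ (e + 1))
      (((β * (p : ℤ) ^ e + (S + (p : ℤ) ^ (e + 1)) * δ : ℤ) : ℚ) /
        ((δ * (p : ℤ) ^ (e + 1) : ℤ) : ℚ)) =
      ψ ((S : ℚ) / (p : ℚ) ^ (e + 1))
      (((β * (p : ℤ) ^ e + S * δ : ℤ) : ℚ) / ((δ * (p : ℤ) ^ (e + 1) : ℤ) : ℚ))
    rw [← h3]
    congr 1
    · field_simp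
      push_cast
      ring
    · push_cast
      field_simp
      ring
  have hG : ∀ S, G S = G 0 := fun S => const_of_cycle
    (pow_pos (by exact_mod_cast hp.pos) (e + 1)) hTp hG2 hG1 S
  have h5 := hT 0 (β / δ)
  have h6 : ∀ j ∈ range p, ψ ((0 + (j : ℚ)) / p) ((β / δ + j) / p) = G 0 := by
    intro j _
    rw [← hG (j * (p : ℤ) ^ e)]
    change _ = ψ (((j * (p : ℤ) ^ e : ℤ) : ℚ) / (p : ℚ) ^ (e + 1))
      (((β * (p : ℤ) ^ e + j * (p : ℤ) ^ e * δ : ℤ) : ℚ) / ((δ * (p : ℤ) ^ (e + 1) : ℤ) : ℚ))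
    congr 1
    · push_cast
      field_simp
      ring
    · push_cast
      field_simp
      ring
  rw [sum_congr rfl h6, sum_const, card_range, ← Nat.cast_smul_eq_nsmul R] at h5
  have hG0 : G 0 = ψ 0 (((β : ℤ) : ℚ) / ((δ * p : ℤ) : ℚ)) := by
    change ψ (((0 : ℤ) : ℚ) / (p : ℚ) ^ (e + 1))
      (((β * (p : ℤ) ^ e + 0 * δ : ℤ) : ℚ) / ((δ * (p : ℤ) ^ (e + 1) : ℤ) : ℚ)) = _
    congr 1
    · simp
    · push_cast
      field_simp
      ring
  have hδN : IsCoprime δ (β * N' * p) := by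
    have : β * (p * N' : ℕ) = β * N' * p := by push_cast; ring
    rwa [this] at hcop0
  have hδβN : IsCoprime δ (β * N') := hδN.of_mul_right_left
  by_cases hpβ : (p : ℤ) ∣ β
  · obtain ⟨β₁, hβ₁⟩ := hpβ
    refine ⟨β₁, δ, hδ, ?_, ?_⟩
    · have h7 : β * N' = (β₁ * N') * p := by rw [hβ₁]; ring
      rw [h7] at hδβN
      exact hδβN.of_mul_right_left
    · rw [h5, hG0]
      congr 2
      rw [hβ₁]
      push_cast
      field_simp
  · refine ⟨β, δ * p, mul_ne_zero hδ hp0, ?_, ?_⟩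
    · refine IsCoprime.mul_left hδβN ?_
      exact IsCoprime.mul_right ((Prime.coprime_iff_not_dvd hpp).mpr hpβ)
        (Nat.isCoprime_iff_coprime.mpr hpN)
    · rw [h5, hG0]

/-- The key step at the level `p N'`: all cusps with a denominator prime to `N'`. -/
theorem reduceP (hp : p.Prime) {N' : ℕ} (hadd : ∀ x y z, ψ x y + ψ y z = ψ x z)
    (hE : EqvM (p * N') χ ψ)
    (hZ : ∀ (S S' : ℤ) (i i' : ℕ), ψ (S / (p : ℚ) ^ i) (S' / (p : ℚ) ^ i') = 0)
    (β δ : ℤ) (hδ : δ ≠ 0) (hcop : IsCoprime δ (β * N')) :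
    ∃ B D : ℤ, D ≠ 0 ∧ IsCoprime D (B * (p * N' : ℕ)) ∧ ψ 0 (β / δ) = ψ 0 (B / D) := by
  have hp0 : (p : ℤ) ≠ 0 := by exact_mod_cast hp.ne_zero
  have hpQ : (p : ℚ) ≠ 0 := by exact_mod_cast hp.ne_zero
  have hpp : Prime (p : ℤ) := Nat.prime_iff_prime_int.mp hp
  have hβδ : IsCoprime β δ := (hcop.of_mul_right_left).symm
  have hδN : IsCoprime δ (N' : ℤ) := hcop.of_mul_right_right
  by_cases hpδ : (p : ℤ) ∣ δ
  · obtain ⟨δ', hδ'⟩ := hpδ
    obtain ⟨D₀, B₀', hD₀⟩ := hβδ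
    obtain ⟨s, t, hst⟩ := hδN
    -- `D = D₀ + k δ ≡ δ' (mod N')`
    obtain ⟨k, hk⟩ : ∃ k : ℤ, (N' : ℤ) ∣ δ' - (D₀ + k * δ) := by
      refine ⟨(δ' - D₀) * s, (δ' - D₀) * t, ?_⟩
      linear_combination (-(δ' - D₀)) * hst
    obtain ⟨D, hD⟩ : ∃ D : ℤ, D = D₀ + k * δ := ⟨_, rfl⟩
    obtain ⟨B, hB⟩ : ∃ B : ℤ, B = -B₀' + k * β := ⟨_, rfl⟩
    rw [← hD] at hk
    have hβD : β * D - B * δ = 1 := by
      rw [hD, hB]
      linear_combination hD₀
    have hD0 : D ≠ 0 := by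
      intro h
      rw [h, mul_zero, zero_sub, hδ'] at hβD
      apply hpp.not_isUnit
      exact IsUnit.of_mul_eq_one (-(B * δ')) (by linear_combination hβD)
    have hdet : (β - B * p) * D - B * (δ - p * D) = 1 := by linear_combination hβD
    have hC : ((p * N' : ℕ) : ℤ) ∣ δ - p * D := by
      obtain ⟨m, hm⟩ := hk
      refine ⟨m, ?_⟩
      push_cast
      linear_combination hδ' + (p : ℤ) * hm
    have hdetD : IsCoprime D (B * (p * N' : ℕ)) := by
      obtain ⟨m, hm⟩ := hC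
      refine ⟨β - B * p, -m, ?_⟩
      linear_combination hdet + B * hm
    have hδQ : (δ : ℚ) ≠ 0 := by exact_mod_cast hδ
    have hDQ : (D : ℚ) ≠ 0 := by exact_mod_cast hD0
    have e1 : ((δ - p * D : ℤ) : ℚ) * (1 / (p : ℚ)) + D = δ / p := by
      push_cast
      field_simp
      ring
    have e2 : ((β - B * p : ℤ) : ℚ) * (1 / (p : ℚ)) + B = β / p := by
      push_cast
      field_simp
      ring
    have h1 := hE (β - B * p) B (δ - p * D) D hdet hC 0 (1 / (p : ℚ))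
      (by simpa using hD0) (by rw [e1]; exact div_ne_zero hδQ hpQ)
    have h2 := hZ 0 1 0 1
    simp only [Int.cast_zero, pow_zero, div_one, Int.cast_one, pow_one] at h2
    rw [e1, e2, h2, smul_zero, mul_zero, zero_add, mul_zero, zero_add,
      div_div_div_cancel_right₀ hpQ] at h1
    refine ⟨B, D, hD0, hdetD, ?_⟩
    rw [← hadd 0 ((B : ℚ) / D) (β / δ), h1, add_zero]
  · refine ⟨β, δ, hδ, ?_, rfl⟩
    apply IsCoprime.mul_right hβδ.symm
    push_cast
    exact IsCoprime.mul_right ((Prime.coprime_iff_not_dvd hpp).mpr hpδ).symm hδN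

end P_KM1

open _root_.Pool.Agent.MU3.P_KM1

theorem t_KM1 : S_KM1 := by
  intro p hp N' hpN R M _ _ _ χ ψ a ha k hk hadd hE hχ hZ hT
  have step : ∀ β δ : ℤ, δ ≠ 0 → IsCoprime δ (β * N') → ∃ β' δ' : ℤ, δ' ≠ 0 ∧
      IsCoprime δ' (β' * N') ∧ a • ψ 0 (β / δ) = (p : R) • ψ 0 (β' / δ') := by
    intro β δ hδ hcop
    obtain ⟨B, D, hD, hBD, h1⟩ := reduceP hp hadd hE hZ β δ hδ hcop
    obtain ⟨β', δ', h2, h3, h4⟩ := key_stepP hp hpN hadd hE hχ hZ hT B D hD hBD
    exact ⟨β', δ', h2, h3, by rw [h1, h4]⟩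
  have iter : ∀ (n : ℕ) (β δ : ℤ), δ ≠ 0 → IsCoprime δ (β * N') → ∃ β' δ' : ℤ, δ' ≠ 0 ∧
      IsCoprime δ' (β' * N') ∧ a ^ n • ψ 0 (β / δ) = (p : R) ^ n • ψ 0 (β' / δ') := by
    intro n
    induction n with
    | zero =>
      intro β δ hδ hcop
      exact ⟨β, δ, hδ, hcop, by simp⟩
    | succ n ih =>
      intro β δ hδ hcop
      obtain ⟨β', δ', h2, h3, h4⟩ := step β δ hδ hcop
      obtain ⟨β₂, δ₂, h5, h6, h7⟩ := ih β' δ' h2 h3
      refine ⟨β₂, δ₂, h5, h6, ?_⟩
      rw [pow_succ, mul_smul, h4, smul_comm, h7, pow_succ, mul_comm, mul_smul]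
  intro β δ hδ hcop
  obtain ⟨β', δ', -, -, h4⟩ := iter k β δ hδ hcop
  rw [hk] at h4
  exact (IsUnit.smul_eq_zero (ha.pow k)).mp h4

end Pool.Agent.MU3


end
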