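import Mathlib
import Pool.Agent.MVF.C023
import Pool.Agent.MVF.C036
import Pool.Agent.MVF.C081
import Pool.Agent.MVF.C083

/-! Parts: MU3.MNSP, MU3.MDENS, MU3.MDEG2, MU3.MSPLS, MU3.MEP, MU3.MISUM, MU3.MCLS, MU3.MFSUM, MU3.MSZS, MU3.MLLIP, MU3.MPU, MU3.FinD, MUX.K_THDX, MUX.K_NIX, MUX.K_IDX, MUX.K_EPX, Lib_helper28.FROB.Sum, Lib_helper28.FROB.Induct -/

namespace Pool.Agent.MU3.CLS
end Pool.Agent.MU3.CLS
namespace Pool.Agent.MU3.FSUM
end Pool.Agent.MU3.FSUM
namespace Pool.Agent.MU3.LLIP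
end Pool.Agent.MU3.LLIP
namespace Pool.Agent.MU3.SZS
end Pool.Agent.MU3.SZS
namespace Pool.Agent.MUXK.K_NIX
end Pool.Agent.MUXK.K_NIX
namespace Pool.Agent.MUXK.THDX
end Pool.Agent.MUXK.THDX

section

/-!
# MU3, block D, module NSP
-/

open NumberField IsDedekindDomain Ideal Filter Topology Asymptotics
open scoped nonZeroDivisors

namespace Pool.Agent.MU3

open _root_.Pool.Agent.Lib_helper28.FROB

namespace NSP

lemma tsum_ind_le {L : Type} [Field L] [NumberField L] (A B : Set (HeightOneSpectrum (𝓞 L)))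
    (h : A ⊆ B) {s : ℝ} (hs : 1 < s) :
    ∑' v, Set.indicator A (x s) v ≤ ∑' v, Set.indicator B (x s) v := by
  refine Summable.tsum_le_tsum (fun v => ?_) ((summable_x hs).indicator A)
    ((summable_x hs).indicator B)
  exact Set.indicator_le_indicator_of_subset h (fun v => (x_pos s v).le) v

lemma fin_bound {L : Type} [Field L] [NumberField L] (S : Set (HeightOneSpectrum (𝓞 L)))
    (hS : S.Finite) : ∃ C : ℝ, ∀ s : ℝ, 1 < s → ∑' v, Set.indicator S (x s) v ≤ C := by
  classical
  refine ⟨hS.toFinset.card, fun s hs => ?_⟩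
  rw [tsum_eq_sum (s := hS.toFinset)]
  · refine (Finset.sum_le_card_nsmul _ _ 1 fun v _ => ?_).trans (by simp)
    unfold Set.indicator
    split_ifs
    · have := x_le hs.le v
      linarith
    · norm_num
  · intro v hv
    rw [Set.indicator_of_notMem]
    simpa using hv

lemma lambda_tendsto : Tendsto (fun s : ℝ => Real.log (1 / (s - 1))) (𝓝[>] 1) atTop := by
  refine Real.tendsto_log_atTop.comp ?_
  simp_rw [one_div]
  refine Filter.Tendsto.inv_tendsto_nhdsGT_zero ?_
  have h1 : Tendsto (fun s : ℝ => s - 1) (𝓝[>] 1) (𝓝 (1 - 1)) :=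
    ((continuous_id.sub continuous_const).tendsto 1).mono_left nhdsWithin_le_nhds
  rw [sub_self] at h1
  refine tendsto_nhdsWithin_iff.mpr ⟨h1, ?_⟩
  filter_upwards [self_mem_nhdsWithin] with s hs
  exact sub_pos.mpr (Set.mem_Ioi.mp hs)

end NSP

theorem m_NSP : Stmt_SPLS → Stmt_DEG2 → Stmt_NSP := by
  intro hS hD L M _ _ _ _ _ m S hfin hspl
  by_contra hm
  have hm2 : (2 : ℝ) ≤ m := by
    exact_mod_cast (by omega : 2 ≤ m)
  let B : Set (HeightOneSpectrum (𝓞 L)) := {v | v ∉ S ∧ (absNorm v.asIdeal).Prime}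
  let B₂ : Set (HeightOneSpectrum (𝓞 L)) := {v | ¬ (absNorm v.asIdeal).Prime}
  obtain ⟨C₁, h1⟩ := hS L M m B (fun v hv => hspl v hv.1 hv.2)
  obtain ⟨C₂, h2⟩ := hD L B₂ (fun v hv => hv)
  obtain ⟨C₃, h3⟩ := NSP.fin_bound S hfin
  have h4 := (isBigO_sum L).bound
  obtain ⟨C₄, h4⟩ := h4
  have hΛ := NSP.lambda_tendsto.eventually (eventually_gt_atTop
    (C₁ + m * (C₂ + C₃ + C₄)))
  have hΛ' := NSP.lambda_tendsto.eventually (eventually_gt_atTop 0)
  have hev : ∀ᶠ s : ℝ in 𝓝[>] 1, False := by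
    filter_upwards [h1, h4, hΛ, hΛ', self_mem_nhdsWithin] with s hs1 hs4 hsΛ hΛ0 hs
    have hs' : (1 : ℝ) < s := hs
    rw [norm_one, mul_one, Real.norm_eq_abs] at hs4
    have h5 := neg_abs_le (∑' v : HeightOneSpectrum (𝓞 L), x s v - Real.log (1 / (s - 1)))
    have h6 : ∑' v : HeightOneSpectrum (𝓞 L), x s v ≤
        ∑' v, Set.indicator B (x s) v + ∑' v, Set.indicator B₂ (x s) v +
          ∑' v, Set.indicator S (x s) v := by
      have e1 := (summable_x (K := L) hs').indicator B
      have e2 := (summable_x (K := L) hs').indicator B₂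
      have e3 := (summable_x (K := L) hs').indicator S
      rw [← e1.tsum_add e2, ← (e1.add e2).tsum_add e3]
      refine (summable_x hs').tsum_le_tsum (fun v => ?_) ((e1.add e2).add e3)
      have hx := x_pos s v
      have i1 : 0 ≤ Set.indicator B (x s) v := Set.indicator_nonneg (fun v _ => (x_pos s v).le) v
      have i2 : 0 ≤ Set.indicator B₂ (x s) v := Set.indicator_nonneg (fun v _ => (x_pos s v).le) v
      have i3 : 0 ≤ Set.indicator S (x s) v := Set.indicator_nonneg (fun v _ => (x_pos s v).le) v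
      by_cases hv : v ∈ S
      · rw [Set.indicator_of_mem hv]
        linarith
      · by_cases hv2 : (absNorm v.asIdeal).Prime
        · rw [Set.indicator_of_mem (show v ∈ B from ⟨hv, hv2⟩)]
          linarith
        · rw [Set.indicator_of_mem (show v ∈ B₂ from hv2)]
          linarith
    have h7 := h2 s hs'
    have h8 := h3 s hs'
    have h9 : Real.log (1 / (s - 1)) - C₄ ≤
        ∑' v, Set.indicator B (x s) v + C₂ + C₃ := by linarith
    have h10 : (m : ℝ) * (Real.log (1 / (s - 1)) - C₄ - C₂ - C₃) ≤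
        Real.log (1 / (s - 1)) + C₁ :=
      (mul_le_mul_of_nonneg_left (by linarith) (by linarith)).trans hs1
    have h11 : 1 * Real.log (1 / (s - 1)) ≤ ((m : ℝ) - 1) * Real.log (1 / (s - 1)) :=
      mul_le_mul_of_nonneg_right (by linarith) hΛ0.le
    linarith [mul_sub (m : ℝ) (Real.log (1 / (s - 1)) - C₄ - C₂) C₃,
      mul_sub (m : ℝ) (Real.log (1 / (s - 1)) - C₄) C₂, mul_sub (m : ℝ) (Real.log (1 / (s - 1))) C₄,
      mul_add (m : ℝ) (C₂ + C₃) C₄, mul_add (m : ℝ) C₂ C₃, sub_mul (m : ℝ) 1 (Real.log (1 / (s - 1)))]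
  exact (hev.exists).choose_spec

end Pool.Agent.MU3


end

section

/-!
# MU3, block D, module DENS
-/

open NumberField IsDedekindDomain Ideal Filter Topology Asymptotics
open scoped nonZeroDivisors

namespace Pool.Agent.MU3

open _root_.Pool.Agent.Lib_helper28.FROB

namespace DENS

/-- A proper subgroup is contained in the kernel of a nontrivial character. -/
lemma exists_char {G : Type} [CommGroup G] [Finite G] (H : Subgroup G) (hH : H ≠ ⊤) :
    ∃ η : G →* ℂˣ, η ≠ 1 ∧ ∀ a ∈ H, η a = 1 := by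
  obtain ⟨a, ha⟩ : ∃ a : G, a ∉ H := by
    by_contra h
    push Not at h
    exact hH ((Subgroup.eq_top_iff' H).mpr h)
  have ha' : (a : G ⧸ H) ≠ 1 := by
    rwa [Ne, QuotientGroup.eq_one_iff]
  have : NeZero (Monoid.exponent (G ⧸ H) : ℂ) :=
    ⟨by exact_mod_cast Monoid.exponent_ne_zero_of_finite⟩
  obtain ⟨φ, hφ⟩ := CommGroup.exists_apply_ne_one_of_hasEnoughRootsOfUnity (G ⧸ H) ℂ ha'
  refine ⟨φ.comp (QuotientGroup.mk' H), ?_, ?_⟩
  · intro h
    apply hφ
    have := DFunLike.congr_fun h a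
    simpa using this
  · intro b hb
    have : (b : G ⧸ H) = 1 := (QuotientGroup.eq_one_iff b).mpr hb
    rw [MonoidHom.comp_apply, QuotientGroup.mk'_apply, this, map_one]

lemma fin_bound {L : Type} [Field L] [NumberField L] (S : Set (HeightOneSpectrum (𝓞 L)))
    (hS : S.Finite) : ∃ C : ℝ, ∀ s : ℝ, 1 < s → ∑' v, Set.indicator S (x s) v ≤ C := by
  classical
  refine ⟨hS.toFinset.card, fun s hs => ?_⟩
  rw [tsum_eq_sum (s := hS.toFinset)]
  · refine (Finset.sum_le_card_nsmul _ _ 1 fun v _ => ?_).trans (by simp)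
    unfold Set.indicator
    split_ifs
    · have := x_le hs.le v
      linarith
    · norm_num
  · intro v hv
    rw [Set.indicator_of_notMem]
    simpa using hv

lemma lambda_tendsto : Tendsto (fun s : ℝ => Real.log (1 / (s - 1))) (𝓝[>] 1) atTop := by
  refine Real.tendsto_log_atTop.comp ?_
  simp_rw [one_div]
  refine Filter.Tendsto.inv_tendsto_nhdsGT_zero ?_
  have h1 : Tendsto (fun s : ℝ => s - 1) (𝓝[>] 1) (𝓝 (1 - 1)) :=
    ((continuous_id.sub continuous_const).tendsto 1).mono_left nhdsWithin_le_nhds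
  rw [sub_self] at h1
  refine tendsto_nhdsWithin_iff.mpr ⟨h1, ?_⟩
  filter_upwards [self_mem_nhdsWithin] with s hs
  exact sub_pos.mpr (Set.mem_Ioi.mp hs)

end DENS

theorem m_DENS : Stmt_LBD → Stmt_EP → Stmt_SPLS → Stmt_DEG2 → Stmt_DENS := by
  intro hLBD hEP hSPLS hDEG2 L M _ _ _ _ _ m hm S hfin H hgen
  by_contra hH
  obtain ⟨η, hη, hηH⟩ := DENS.exists_char H hH
  let A : Set (HeightOneSpectrum (𝓞 L)) := {v | η (cl L v) = 1}
  let B₁ : Set (HeightOneSpectrum (𝓞 L)) := {v | m ≤ spl L M v}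
  let B₂ : Set (HeightOneSpectrum (𝓞 L)) := {v | ¬ (absNorm v.asIdeal).Prime}
  obtain ⟨C₀, h0⟩ := hLBD L η hη
  obtain ⟨C₁, h1⟩ := hSPLS L M m B₁ (fun v hv => hv)
  obtain ⟨C₂, h2⟩ := hDEG2 L B₂ (fun v hv => hv)
  obtain ⟨C₃, h3⟩ := DENS.fin_bound S hfin
  obtain ⟨C₄, h4⟩ := (isBigO_sum L).bound
  have hm3 : (3 : ℝ) ≤ m := by exact_mod_cast hm
  have hΛ := DENS.lambda_tendsto.eventually (eventually_gt_atTop
    (3 * (Real.log (max C₀ 1) + C₄ + 2 * (|C₁| + C₂ + C₃))))
  have hΛ' := DENS.lambda_tendsto.eventually (eventually_gt_atTop 0)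
  have hev : ∀ᶠ s : ℝ in 𝓝[>] 1, False := by
    filter_upwards [h0, h1, h4, hΛ, hΛ', self_mem_nhdsWithin] with s hs0 hs1 hs4 hsΛ hΛ0 hs
    have hs' : (1 : ℝ) < s := hs
    rw [norm_one, mul_one, Real.norm_eq_abs] at hs4
    have h5 := neg_abs_le (∑' v : HeightOneSpectrum (𝓞 L), x s v - Real.log (1 / (s - 1)))
    set Λ := Real.log (1 / (s - 1)) with hΛdef
    have hsum := summable_x (K := L) hs'
    have h6 : ∑' v, Set.indicator Aᶜ (x s) v ≤
        ∑' v, Set.indicator B₁ (x s) v + ∑' v, Set.indicator B₂ (x s) v +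
          ∑' v, Set.indicator S (x s) v := by
      have e1 := hsum.indicator B₁
      have e2 := hsum.indicator B₂
      have e3 := hsum.indicator S
      rw [← e1.tsum_add e2, ← (e1.add e2).tsum_add e3]
      refine (hsum.indicator Aᶜ).tsum_le_tsum (fun v => ?_) ((e1.add e2).add e3)
      have hx := x_pos s v
      have i1 : 0 ≤ Set.indicator B₁ (x s) v := Set.indicator_nonneg (fun v _ => (x_pos s v).le) v
      have i2 : 0 ≤ Set.indicator B₂ (x s) v := Set.indicator_nonneg (fun v _ => (x_pos s v).le) v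
      have i3 : 0 ≤ Set.indicator S (x s) v := Set.indicator_nonneg (fun v _ => (x_pos s v).le) v
      by_cases hvA : v ∈ Aᶜ
      · rw [Set.indicator_of_mem hvA]
        by_cases hv : v ∈ S
        · rw [Set.indicator_of_mem hv]
          linarith
        · by_cases hv2 : (absNorm v.asIdeal).Prime
          · have hv1 : v ∈ B₁ := by
              by_contra hlt
              apply hvA
              exact hηH _ (hgen v hv hv2 (not_le.mp hlt))
            rw [Set.indicator_of_mem hv1]
            linarith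
          · rw [Set.indicator_of_mem (show v ∈ B₂ from hv2)]
            linarith
      · rw [Set.indicator_of_notMem hvA]
        linarith
    have h7 := h2 s hs'
    have h8 := h3 s hs'
    have h9 : ∑' v, Set.indicator A (x s) v + ∑' v, Set.indicator Aᶜ (x s) v =
        ∑' v : HeightOneSpectrum (𝓞 L), x s v := by
      rw [← (hsum.indicator A).tsum_add (hsum.indicator Aᶜ)]
      exact tsum_congr fun v => Set.indicator_self_add_compl_apply A (x s) v
    have h10 : 3 * ∑' v, Set.indicator B₁ (x s) v ≤ Λ + |C₁| := by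
      have i1 : 0 ≤ ∑' v, Set.indicator B₁ (x s) v :=
        tsum_nonneg fun v => Set.indicator_nonneg (fun v _ => (x_pos s v).le) v
      have := mul_le_mul_of_nonneg_right hm3 i1
      have := le_abs_self C₁
      linarith
    have h11 := hEP L η A (fun v hv => hv) s hs'
    have h12 : Λ / 3 - C₄ - 2 * (|C₁| + C₂ + C₃) ≤
        ∑' v, Set.indicator A (x s) v - ∑' v, Set.indicator Aᶜ (x s) v := by
      have := abs_nonneg C₁
      linarith
    have h13 : Real.exp (Λ / 3 - C₄ - 2 * (|C₁| + C₂ + C₃)) ≤ max C₀ 1 :=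
      ((Real.exp_le_exp.mpr h12).trans (h11.trans hs0)).trans (le_max_left _ _)
    have hpos : (0 : ℝ) < max C₀ 1 := lt_of_lt_of_le one_pos (le_max_right _ _)
    have h14 := (Real.le_log_iff_exp_le hpos).mpr h13
    linarith
  exact (hev.exists).choose_spec

end Pool.Agent.MU3


end

section

/-!
# MU3, block D, module DEG2
-/

open NumberField IsDedekindDomain Ideal Filter Topology Asymptotics
open scoped nonZeroDivisors

namespace Pool.Agent.MU3

open _root_.Pool.Agent.Lib_helper28.FROB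

theorem m_DEG2 : Stmt_DEG2 := by
  intro L _ _ B hB
  have h2 : Summable fun v : HeightOneSpectrum (𝓞 L) => ((pr v : ℝ)) ^ (-2 : ℝ) :=
    summable_pr (by norm_num)
  refine ⟨∑' v : HeightOneSpectrum (𝓞 L), ((pr v : ℝ)) ^ (-2 : ℝ), fun s hs => ?_⟩
  refine Summable.tsum_le_tsum (fun v => ?_) ((summable_x hs).indicator B) h2
  by_cases hv : v ∈ B
  · rw [Set.indicator_of_mem hv]
    have hp1 : (1 : ℝ) ≤ pr v := by exact_mod_cast (pr_prime v).one_le
    have hd : dg v ≠ 1 := by
      intro h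
      apply hB v hv
      rw [norm_eq, h, pow_one]
      exact pr_prime v
    have hd2 : 2 ≤ dg v := by have := dg_pos v; omega
    unfold x
    rw [norm_eq, Nat.cast_pow, ← Real.rpow_natCast, ← Real.rpow_mul (by positivity)]
    refine Real.rpow_le_rpow_of_exponent_le hp1 ?_
    have : (2 : ℝ) ≤ dg v := by exact_mod_cast hd2
    nlinarith
  · rw [Set.indicator_of_notMem hv]
    positivity

end Pool.Agent.MU3


end

section

/-!
# MU3, block D, module SPLS
-/

open NumberField IsDedekindDomain Ideal Filter Topology Asymptotics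
open scoped nonZeroDivisors

namespace Pool.Agent.MU3

open _root_.Pool.Agent.Lib_helper28.FROB

namespace SPLS

/-- `m` primes above `v` of the same norm. -/
lemma exists_inj {L M : Type} [Field L] [NumberField L] [Field M] [NumberField M]
    [Algebra L M] {m : ℕ} {v : HeightOneSpectrum (𝓞 L)} (h : m ≤ spl L M v) :
    ∃ f : Fin m → {w : HeightOneSpectrum (𝓞 M) //
      w.asIdeal.under (𝓞 L) = v.asIdeal ∧ absNorm w.asIdeal = absNorm v.asIdeal},
      Function.Injective f := by
  unfold spl at h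
  rcases Nat.eq_zero_or_pos m with rfl | hm
  · exact ⟨Fin.elim0, fun i => i.elim0⟩
  · have hfin : Finite {w : HeightOneSpectrum (𝓞 M) //
      w.asIdeal.under (𝓞 L) = v.asIdeal ∧ absNorm w.asIdeal = absNorm v.asIdeal} :=
      Nat.finite_of_card_ne_zero (by omega)
    have := Fintype.ofFinite {w : HeightOneSpectrum (𝓞 M) //
      w.asIdeal.under (𝓞 L) = v.asIdeal ∧ absNorm w.asIdeal = absNorm v.asIdeal}
    rw [Nat.card_eq_fintype_card] at h
    obtain ⟨e⟩ := Function.Embedding.nonempty_of_card_le (α := Fin m) (by simpa using h)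
    exact ⟨e, e.injective⟩

end SPLS

theorem m_SPLS : Stmt_SPLS := by
  classical
  intro L M _ _ _ _ _ m B hB
  obtain ⟨C, hC⟩ := (isBigO_sum M).bound
  choose f hf using fun v : B => SPLS.exists_inj (hB v.1 v.2)
  let g : B × Fin m → HeightOneSpectrum (𝓞 M) := fun p => (f p.1 p.2).1
  have hg : Function.Injective g := by
    rintro ⟨v, i⟩ ⟨v', i'⟩ h
    have h' : (f v i).1 = (f v' i').1 := h
    have hv : v = v' := by
      apply Subtype.ext
      apply HeightOneSpectrum.ext
      rw [← (f v i).2.1, ← (f v' i').2.1, h']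
    subst hv
    have : i = i' := hf v (Subtype.ext h')
    rw [this]
  refine ⟨C, ?_⟩
  filter_upwards [hC, self_mem_nhdsWithin] with s hsC hs
  have hs' : (1 : ℝ) < s := hs
  rw [norm_one, mul_one, Real.norm_eq_abs] at hsC
  have h1 := le_abs_self (∑' v : HeightOneSpectrum (𝓞 M), x s v - Real.log (1 / (s - 1)))
  have hsum := summable_x (K := L) hs'
  have h2 : (m : ℝ) * ∑' v, Set.indicator B (x s) v = ∑' p : B × Fin m, x s (g p) := by
    have h3 : ∀ p : B × Fin m, x s (g p) = x s p.1.1 := by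
      intro p
      unfold x
      rw [(f p.1 p.2).2.2]
    rw [tsum_congr h3, ← tsum_subtype]
    have hs2 : Summable fun p : B × Fin m => x (K := L) s p.1.1 := by
      have h0 : Summable fun v : B => x (K := L) s v.1 := hsum.subtype B
      have h5 := h0.mul_of_nonneg (g := fun _ : Fin m => (1 : ℝ))
        (Summable.of_finite) (fun v => (x_pos s v.1).le) (fun _ => zero_le_one)
      refine h5.congr fun p => ?_
      rw [mul_one]
    rw [hs2.tsum_prod, ← tsum_mul_left]
    refine tsum_congr fun v => ?_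
    simp
  have h4 : ∑' p : B × Fin m, x s (g p) ≤ ∑' w : HeightOneSpectrum (𝓞 M), x s w := by
    refine Summable.tsum_le_tsum_of_inj g hg (fun w _ => (x_pos s w).le) (fun p => le_rfl) ?_
      (summable_x hs')
    exact (summable_x hs').comp_injective hg
  rw [h2]
  linarith

end Pool.Agent.MU3


end

section

/-!
# MU3, block D, module EP
-/

open NumberField IsDedekindDomain Ideal Filter Topology
open NumberField.Units
open scoped nonZeroDivisors

namespace Pool.Agent.MU3

open _root_.Pool.Agent.Lib_helper28.FROB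

namespace EP

variable (K : Type) [Field K] [NumberField K]

lemma iN_nonneg (s : ℝ) (I : (Ideal (𝓞 K))⁰) : 0 ≤ iN K s I := by
  unfold iN
  positivity

lemma norm_eta {G : Type} [CommGroup G] [Finite G] (η : G →* ℂˣ) (c : G) :
    ‖(η c : ℂ)‖ = 1 := by
  have h : (η c : ℂ) ^ Nat.card G = 1 := by
    rw [← Units.val_pow_eq_pow_val, ← map_pow, pow_card_eq_one', map_one, Units.val_one]
  exact Complex.norm_eq_one_of_pow_eq_one h Nat.card_pos.ne'

/-- The term of the series. -/
noncomputable def g (η : ClassGroup (𝓞 K) →* ℂˣ) (s : ℝ) (I : (Ideal (𝓞 K))⁰) : ℂ :=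
  (η (ClassGroup.mk0 I) : ℂ) * (iN K s I : ℂ)

/-- The prime as a nonzero ideal. -/
noncomputable def P (v : HeightOneSpectrum (𝓞 K)) : (Ideal (𝓞 K))⁰ :=
  ⟨v.asIdeal, mem_nonZeroDivisors_iff_ne_zero.mpr v.ne_bot⟩

lemma g_one (η : ClassGroup (𝓞 K) →* ℂˣ) (s : ℝ) : g K η s 1 = 1 := by
  simp [g, iN]

lemma g_mul (η : ClassGroup (𝓞 K) →* ℂˣ) (s : ℝ) (I J : (Ideal (𝓞 K))⁰) :
    g K η s (I * J) = g K η s I * g K η s J := by
  unfold g iN
  rw [map_mul, map_mul, Submonoid.coe_mul, map_mul, Nat.cast_mul,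
    Real.mul_rpow (Nat.cast_nonneg _) (Nat.cast_nonneg _)]
  push_cast
  ring

lemma norm_g (η : ClassGroup (𝓞 K) →* ℂˣ) (s : ℝ) (I : (Ideal (𝓞 K))⁰) :
    ‖g K η s I‖ = iN K s I := by
  unfold g
  rw [norm_mul, norm_eta, one_mul, Complex.norm_real, Real.norm_eq_abs,
    abs_of_nonneg (iN_nonneg K s I)]

/-- The ideals which are not divisible by the primes of `t`. -/
def D (t : Finset (HeightOneSpectrum (𝓞 K))) : Set (Ideal (𝓞 K))⁰ :=
  {I | ∀ v ∈ t, ¬ v.asIdeal ∣ (I : Ideal (𝓞 K))}

lemma step (η : ClassGroup (𝓞 K) →* ℂˣ) (s : ℝ) (hs : Summable (g K η s))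
    (t : Finset (HeightOneSpectrum (𝓞 K))) (v : HeightOneSpectrum (𝓞 K)) (hv : v ∉ t)
    [DecidableEq (HeightOneSpectrum (𝓞 K))] :
    ∑' I, Set.indicator (D K (insert v t)) (g K η s) I =
      (∑' I, Set.indicator (D K t) (g K η s) I) * (1 - g K η s (P K v)) := by
  classical
  let E : Set (Ideal (𝓞 K))⁰ := {I | I ∈ D K t ∧ v.asIdeal ∣ (I : Ideal (𝓞 K))}
  have hinj : Function.Injective fun I : (Ideal (𝓞 K))⁰ => P K v * I := fun I J h =>
    mul_left_cancel h
  have h1 : (∑' I, Set.indicator (D K t) (g K η s) I) * g K η s (P K v) =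
      ∑' I, Set.indicator E (g K η s) I := by
    rw [← tsum_mul_right, ← hinj.tsum_eq (f := Set.indicator E (g K η s))]
    · refine tsum_congr fun I => ?_
      have hmem : P K v * I ∈ E ↔ I ∈ D K t := by
        constructor
        · rintro ⟨h, _⟩ w hw hwI
          exact h w hw (dvd_mul_of_dvd_right hwI _)
        · intro h
          refine ⟨fun w hw hwI => ?_, dvd_mul_right _ _⟩
          rw [Submonoid.coe_mul] at hwI
          rcases w.prime.dvd_or_dvd hwI with h2 | h2
          · have h3 : w = v := dvd_asIdeal h2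
            exact hv (h3 ▸ hw)
          · exact h w hw h2
      by_cases hI : I ∈ D K t
      · rw [Set.indicator_of_mem hI, Set.indicator_of_mem (hmem.mpr hI), g_mul]
        ring
      · rw [Set.indicator_of_notMem hI, Set.indicator_of_notMem (fun h => hI (hmem.mp h)),
          zero_mul]
    · intro J hJ
      have hJE : J ∈ E := by
        by_contra h
        exact hJ (Set.indicator_of_notMem h _)
      obtain ⟨I, hI⟩ := hJE.2
      have hI0 : I ≠ 0 := by
        rintro rfl
        exact nonZeroDivisors.coe_ne_zero J (by rw [hI, mul_zero])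
      exact ⟨⟨I, mem_nonZeroDivisors_iff_ne_zero.mpr hI0⟩, Subtype.ext hI.symm⟩
  rw [mul_sub, mul_one, h1, ← (hs.indicator _).tsum_sub (hs.indicator _)]
  refine tsum_congr fun I => ?_
  by_cases h2 : I ∈ D K t
  · by_cases h3 : v.asIdeal ∣ (I : Ideal (𝓞 K))
    · rw [Set.indicator_of_mem h2, Set.indicator_of_mem (show I ∈ E from ⟨h2, h3⟩),
        Set.indicator_of_notMem, sub_self]
      intro h
      exact h v (Finset.mem_insert_self _ _) h3
    · rw [Set.indicator_of_mem h2, Set.indicator_of_notMem (fun h : I ∈ E => h3 h.2),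
        Set.indicator_of_mem, sub_zero]
      intro w hw
      rcases Finset.mem_insert.mp hw with rfl | hw
      · exact h3
      · exact h2 w hw
  · rw [Set.indicator_of_notMem h2, Set.indicator_of_notMem (fun h : I ∈ E => h2 h.1),
      Set.indicator_of_notMem, sub_self]
    intro h
    exact h2 fun w hw => h w (Finset.mem_insert_of_mem hw)

lemma prod_eq (η : ClassGroup (𝓞 K) →* ℂˣ) (s : ℝ) (hs : Summable (g K η s))
    (t : Finset (HeightOneSpectrum (𝓞 K))) :
    ∑' I, Set.indicator (D K t) (g K η s) I =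
      (∑' I, g K η s I) * ∏ v ∈ t, (1 - g K η s (P K v)) := by
  classical
  induction t using Finset.induction_on with
  | empty =>
    rw [Finset.prod_empty, mul_one]
    refine tsum_congr fun I => Set.indicator_of_mem ?_ _
    intro v hv
    simp at hv
  | insert v t hv ih =>
    rw [step K η s hs t v hv, ih, Finset.prod_insert hv]
    ring

lemma lim (η : ClassGroup (𝓞 K) →* ℂˣ) (s : ℝ) (hs : Summable (iN K s)) :
    Tendsto (fun t : Finset (HeightOneSpectrum (𝓞 K)) =>
      ∑' I, Set.indicator (D K t) (g K η s) I) atTop (𝓝 1) := by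
  classical
  have h1 : ∑' I : (Ideal (𝓞 K))⁰, (if I = 1 then (1 : ℂ) else 0) = 1 := by
    rw [tsum_eq_single 1]
    · simp
    · intro I hI
      exact if_neg hI
  rw [← h1]
  refine tendsto_tsum_of_dominated_convergence hs ?_ (Eventually.of_forall fun t I => ?_)
  · intro I
    by_cases hI : I = 1
    · subst hI
      rw [if_pos rfl]
      refine tendsto_const_nhds.congr fun t => ?_
      rw [Set.indicator_of_mem, g_one]
      intro v _ h
      exact v.isPrime.ne_top (by
        have := isUnit_of_dvd_one h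
        rwa [Ideal.isUnit_iff] at this)
    · rw [if_neg hI]
      obtain ⟨v, hv⟩ : ∃ v : HeightOneSpectrum (𝓞 K), v.asIdeal ∣ (I : Ideal (𝓞 K)) := by
        have hne : (I : Ideal (𝓞 K)) ≠ ⊤ := by
          intro h
          exact hI (Subtype.ext (h.trans Ideal.one_eq_top.symm))
        obtain ⟨m, hm, hle⟩ := Ideal.exists_le_maximal _ hne
        have hm0 : m ≠ ⊥ := by
          rintro rfl
          exact nonZeroDivisors.coe_ne_zero I (le_bot_iff.mp hle)
        exact ⟨⟨m, hm.isPrime, hm0⟩, Ideal.dvd_iff_le.mpr hle⟩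
      refine tendsto_const_nhds.congr' ?_
      filter_upwards [eventually_ge_atTop {v}] with t ht
      rw [Set.indicator_of_notMem]
      intro h
      exact h v (ht (Finset.mem_singleton_self v)) hv
  · rw [← norm_g K η s I]
    exact norm_indicator_le_norm_self _ _

end EP

theorem m_EP : Stmt_ISUM → Stmt_EP := by
  classical
  intro hI K _ _ η A hA s hs
  have hiN := (hI K).1 s hs
  have hg : Summable (EP.g K η s) :=
    Summable.of_norm_bounded hiN fun I => (EP.norm_g K η s I).le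
  have hx := summable_x (K := K) hs
  have hxP : ∀ v : HeightOneSpectrum (𝓞 K), iN K s (EP.P K v) = x s v := fun v => rfl
  have hlim := (EP.lim K η s hiN).norm
  rw [norm_one] at hlim
  have h1 : ∀ v : HeightOneSpectrum (𝓞 K), ‖1 - EP.g K η s (EP.P K v)‖ ≤
      Real.exp (Set.indicator Aᶜ (x s) v - Set.indicator A (x s) v) := by
    intro v
    have hxv := x_pos s v
    have hxv' := x_le hs.le v
    by_cases hv : v ∈ A
    · have hv' : v ∉ Aᶜ := fun h => h hv
      rw [Set.indicator_of_mem hv, Set.indicator_of_notMem hv', zero_sub]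
      have h2 : EP.g K η s (EP.P K v) = (x s v : ℂ) := by
        unfold EP.g
        have h3 : η (ClassGroup.mk0 (EP.P K v)) = 1 := hA v hv
        rw [h3, Units.val_one, one_mul, hxP]
      rw [h2, ← Complex.ofReal_one, ← Complex.ofReal_sub, Complex.norm_real, Real.norm_eq_abs,
        abs_of_nonneg (by linarith)]
      exact Real.one_sub_le_exp_neg _
    · rw [Set.indicator_of_notMem hv, Set.indicator_of_mem (show v ∈ Aᶜ from hv), sub_zero]
      refine (norm_sub_le _ _).trans ?_
      rw [norm_one, EP.norm_g, hxP, add_comm]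
      exact Real.add_one_le_exp _
  have h2 : ∀ t : Finset (HeightOneSpectrum (𝓞 K)),
      ‖∑' I, Set.indicator (EP.D K t) (EP.g K η s) I‖ *
        Real.exp (∑ v ∈ t, Set.indicator A (x s) v - ∑ v ∈ t, Set.indicator Aᶜ (x s) v) ≤
      ‖Lf K η s‖ := by
    intro t
    rw [EP.prod_eq K η s hg t, norm_mul]
    have h3 : ‖∏ v ∈ t, (1 - EP.g K η s (EP.P K v))‖ ≤
        Real.exp (∑ v ∈ t, Set.indicator Aᶜ (x s) v - ∑ v ∈ t, Set.indicator A (x s) v) := by
      rw [norm_prod, ← Finset.sum_sub_distrib, Real.exp_sum]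
      exact Finset.prod_le_prod (fun v _ => norm_nonneg _) fun v _ => h1 v
    have h4 : ‖∑' I, EP.g K η s I‖ = ‖Lf K η s‖ := rfl
    rw [h4, mul_assoc]
    refine mul_le_of_le_one_right (norm_nonneg _) ?_
    calc ‖∏ v ∈ t, (1 - EP.g K η s (EP.P K v))‖ *
          Real.exp (∑ v ∈ t, Set.indicator A (x s) v - ∑ v ∈ t, Set.indicator Aᶜ (x s) v)
        ≤ Real.exp (∑ v ∈ t, Set.indicator Aᶜ (x s) v - ∑ v ∈ t, Set.indicator A (x s) v) *
          Real.exp (∑ v ∈ t, Set.indicator A (x s) v - ∑ v ∈ t, Set.indicator Aᶜ (x s) v) :=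
          mul_le_mul_of_nonneg_right h3 (Real.exp_pos _).le
      _ = 1 := by
          rw [← Real.exp_add]
          simp
  have hlim2 : Tendsto (fun t : Finset (HeightOneSpectrum (𝓞 K)) =>
      ‖∑' I, Set.indicator (EP.D K t) (EP.g K η s) I‖ *
        Real.exp (∑ v ∈ t, Set.indicator A (x s) v - ∑ v ∈ t, Set.indicator Aᶜ (x s) v)) atTop
      (𝓝 (1 * Real.exp (∑' v, Set.indicator A (x s) v - ∑' v, Set.indicator Aᶜ (x s) v))) := by
    refine hlim.mul ((Real.continuous_exp.tendsto _).comp ?_)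
    have e1 : Tendsto (fun t : Finset (HeightOneSpectrum (𝓞 K)) =>
        ∑ v ∈ t, Set.indicator A (x s) v) atTop (𝓝 (∑' v, Set.indicator A (x s) v)) :=
      (hx.indicator A).hasSum
    have e2 : Tendsto (fun t : Finset (HeightOneSpectrum (𝓞 K)) =>
        ∑ v ∈ t, Set.indicator Aᶜ (x s) v) atTop (𝓝 (∑' v, Set.indicator Aᶜ (x s) v)) :=
      (hx.indicator Aᶜ).hasSum
    exact e1.sub e2
  rw [one_mul] at hlim2
  exact le_of_tendsto' hlim2 h2

end Pool.Agent.MU3


end

section

/-!
# MU3, block D, module ISUM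
-/

open NumberField IsDedekindDomain Ideal Filter Topology
open scoped nonZeroDivisors ENNReal

namespace Pool.Agent.MU3

open _root_.Pool.Agent.Lib_helper28.FROB

namespace ISUM

variable (K : Type) [Field K] [NumberField K]

/-- The two index types. -/
def eqv : (Ideal (𝓞 K))⁰ ≃ {I : Ideal (𝓞 K) // I ≠ ⊥} :=
  Equiv.subtypeEquivRight fun _ => mem_nonZeroDivisors_iff_ne_zero

lemma iN_nonneg (s : ℝ) (I : (Ideal (𝓞 K))⁰) : 0 ≤ iN K s I := by
  unfold iN
  positivity

lemma Z_eq_tsum (s : ℝ) : Z K s = ∑' I : (Ideal (𝓞 K))⁰, ENNReal.ofReal (iN K s I) := by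
  unfold Z
  rw [← (eqv K).tsum_eq]
  rfl

lemma Z_ne_top {s : ℝ} (hs : 1 < s) : Z K s ≠ ∞ :=
  ne_top_of_le_ne_top ENNReal.ofReal_ne_top (Z_le hs)

lemma summable {s : ℝ} (hs : 1 < s) : Summable (iN K s) := by
  have h1 := Z_ne_top K hs
  rw [Z_eq_tsum] at h1
  refine (ENNReal.summable_toReal h1).congr fun I => ?_
  rw [ENNReal.toReal_ofReal (iN_nonneg K s I)]

lemma tsum_eq (s : ℝ) : ∑' I, iN K s I = (Z K s).toReal := by
  rw [Z_eq_tsum, ENNReal.tsum_toReal_eq (fun _ => ENNReal.ofReal_ne_top)]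
  exact tsum_congr fun I => (ENNReal.toReal_ofReal (iN_nonneg K s I)).symm

end ISUM

theorem m_ISUM : Stmt_ISUM := by
  intro K _ _
  refine ⟨fun s hs => ISUM.summable K hs, dedekindZeta_residue K + 1, ?_⟩
  filter_upwards [(tendsto_Z K).eventually (gt_mem_nhds
    (lt_add_one (dedekindZeta_residue K)))] with s hs
  rw [ISUM.tsum_eq]
  exact hs.le

end Pool.Agent.MU3


end

section

/-!
# MU3, block D, module CLS
-/

open NumberField IsDedekindDomain Ideal Filter Topology
open NumberField.Units NumberField.mixedEmbedding NumberField.Units.dirichletUnitTheorem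
open scoped nonZeroDivisors

namespace Pool.Agent.MU3

namespace CLS

section ring

variable {R : Type} [CommRing R] [IsDedekindDomain R]

theorem gen {c : ClassGroup R} {b : (Ideal R)⁰} (hb : ClassGroup.mk0 b = c⁻¹)
    (I : {I : (Ideal R)⁰ // ClassGroup.mk0 I = c}) :
    ∃ g : R, g ≠ 0 ∧ (b : Ideal R) * (I.1 : Ideal R) = span {g} := by
  have h1 : ClassGroup.mk0 b = (ClassGroup.mk0 I.1)⁻¹ := by rw [hb, I.2]
  exact ClassGroup.mk0_eq_mk0_inv_iff.1 h1

theorem span_unit_mul (u : Rˣ) (g : R) : span {(u : R) * g} = span {g} := by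
  rw [Ideal.span_singleton_eq_span_singleton]
  exact ⟨u⁻¹, by rw [mul_comm (u : R), mul_assoc, Units.mul_inv, mul_one]⟩

theorem mem_of_gen {b I : Ideal R} {g : R} (h : b * I = span {g}) (u : R) : u * g ∈ b := by
  have h1 : g ∈ span {g} := Ideal.mem_span_singleton_self g
  rw [← h] at h1
  have h2 : b * I ≤ b := Ideal.mul_le_left
  exact Ideal.mul_mem_left b u (h2 h1)

/-- the map of the proof -/
noncomputable def phi (c : ClassGroup R) (b : (Ideal R)⁰)
    (g : {I : (Ideal R)⁰ // ClassGroup.mk0 I = c} → R)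
    (hg : ∀ I, (b : Ideal R) * (I.1 : Ideal R) = span {g I})
    (p : {I : (Ideal R)⁰ // ClassGroup.mk0 I = c} × Rˣ) : (b : Ideal R) :=
  ⟨(p.2 : R) * g p.1, mem_of_gen (hg p.1) _⟩

theorem phi_inj (c : ClassGroup R) (b : (Ideal R)⁰)
    (g : {I : (Ideal R)⁰ // ClassGroup.mk0 I = c} → R)
    (hg : ∀ I, (b : Ideal R) * (I.1 : Ideal R) = span {g I}) (hg0 : ∀ I, g I ≠ 0) :
    Function.Injective (phi c b g hg) := by
  rintro ⟨I, u⟩ ⟨I', u'⟩ h
  have hb0 : (b : Ideal R) ≠ 0 := nonZeroDivisors.ne_zero b.2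
  have h1 : (u : R) * g I = (u' : R) * g I' := congrArg Subtype.val h
  have h2 : span {g I} = span {g I'} := by
    rw [← span_unit_mul u (g I), h1, span_unit_mul]
  rw [← hg I, ← hg I'] at h2
  have h3 : (I.1 : Ideal R) = (I'.1 : Ideal R) := mul_left_cancel₀ hb0 h2
  have h4 : I = I' := Subtype.ext (Subtype.ext h3)
  subst h4
  have h5 : (u : R) = (u' : R) := mul_right_cancel₀ (hg0 I) h1
  rw [Units.ext h5]

theorem phi_surj (c : ClassGroup R) (b : (Ideal R)⁰) (hb : ClassGroup.mk0 b = c⁻¹)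
    (g : {I : (Ideal R)⁰ // ClassGroup.mk0 I = c} → R)
    (hg : ∀ I, (b : Ideal R) * (I.1 : Ideal R) = span {g I})
    (a : (b : Ideal R)) (ha : (a : R) ≠ 0) : a ∈ Set.range (phi c b g hg) := by
  have h1 : (b : Ideal R) ∣ span {(a : R)} := by
    rw [Ideal.dvd_iff_le, Ideal.span_singleton_le_iff_mem]
    exact a.2
  obtain ⟨J, hJ⟩ := h1
  have hJ0 : J ≠ 0 := by
    rintro rfl
    rw [mul_zero] at hJ
    exact ha (Ideal.span_singleton_eq_bot.1 hJ)
  have hJm : J ∈ (Ideal R)⁰ := mem_nonZeroDivisors_of_ne_zero hJ0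
  have h3 : ClassGroup.mk0 (⟨J, hJm⟩ : (Ideal R)⁰) = c := by
    have h4 : ClassGroup.mk0 b = (ClassGroup.mk0 (⟨J, hJm⟩ : (Ideal R)⁰))⁻¹ :=
      ClassGroup.mk0_eq_mk0_inv_iff.2 ⟨(a : R), ha, hJ.symm⟩
    rw [hb] at h4
    exact (inv_injective h4).symm
  have h5 : span {g ⟨⟨J, hJm⟩, h3⟩} = span {(a : R)} := by
    rw [← hg, hJ]
  obtain ⟨u, hu⟩ := Ideal.span_singleton_eq_span_singleton.1 h5
  refine ⟨(⟨⟨J, hJm⟩, h3⟩, u), Subtype.ext ?_⟩
  change (u : R) * g _ = a
  rw [mul_comm]
  exact hu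

end ring

variable {K : Type} [Field K] [NumberField K]

theorem fs_zero {s : ℝ} (hs : 1 < s) : fs K s 0 = 0 := by
  have h1 : an K (0 : 𝓞 K) = 0 := by
    unfold an
    rw [Ideal.span_singleton_eq_bot.2 rfl, Ideal.absNorm_bot, Nat.cast_zero]
  unfold fs
  rw [h1, Real.zero_rpow (by linarith), mul_zero]

theorem an_mul {b I : Ideal (𝓞 K)} {g : 𝓞 K} (h : b * I = span {g}) (u : (𝓞 K)ˣ) :
    an K ((u : 𝓞 K) * g) = (absNorm b : ℝ) * (absNorm I : ℝ) := by
  unfold an
  rw [span_unit_mul, ← h, map_mul, Nat.cast_mul]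

theorem inner (hPU : Stmt_PU) {b I : Ideal (𝓞 K)} {g : 𝓞 K} (h : b * I = span {g})
    (hg : g ≠ 0) (s : ℝ) :
    ∑' u : (𝓞 K)ˣ, fs K s ((u : 𝓞 K) * g) =
      (torsionOrder K : ℝ) * (absNorm b : ℝ) ^ (-s) * (absNorm I : ℝ) ^ (-s) := by
  have h6 : ∀ u : (𝓞 K)ˣ, fs K s ((u : 𝓞 K) * g) = rho K ((u : 𝓞 K) * g) *
      ((absNorm b : ℝ) * (absNorm I : ℝ)) ^ (-s) := by
    intro u
    unfold fs
    rw [an_mul h u]
  rw [tsum_congr h6, tsum_mul_right, (hPU K g hg).2,
    Real.mul_rpow (Nat.cast_nonneg _) (Nat.cast_nonneg _), mul_assoc]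

end CLS

open _root_.Pool.Agent.MU3.CLS in
theorem m_CLS : Stmt_PU → Stmt_FSUM → Stmt_CLS := by
  intro hPU hFS K _ _ c b hb s hs
  have hex := fun I => CLS.gen hb I
  choose g hg0 hg using hex
  have hinj := phi_inj c b g hg hg0
  have hsupp : Function.support (fun a : (b : Ideal (𝓞 K)) => fs K s (a : 𝓞 K)) ⊆
      Set.range (phi c b g hg) := by
    intro a ha
    apply phi_surj c b hb g hg a
    intro h0
    apply ha
    change fs K s (a : 𝓞 K) = 0
    rw [h0, fs_zero hs]
  have hsum : Summable (fun p : {I : (Ideal (𝓞 K))⁰ // ClassGroup.mk0 I = c} × (𝓞 K)ˣ =>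
      fs K s ((p.2 : 𝓞 K) * g p.1)) := by
    have h1 : Function.Injective (fun p => ((phi c b g hg p : (b : Ideal (𝓞 K))) : 𝓞 K)) :=
      Subtype.val_injective.comp hinj
    exact (hFS K s hs).comp_injective h1
  rw [← hinj.tsum_eq hsupp]
  have h2 : (∑' p, fs K s ((phi c b g hg p : (b : Ideal (𝓞 K))) : 𝓞 K)) =
    ∑' I, ∑' u : (𝓞 K)ˣ, fs K s ((u : 𝓞 K) * g I) := hsum.tsum_prod
  rw [h2, ← tsum_mul_left]
  exact tsum_congr fun I => (inner hPU (hg I) (hg0 I) s).symm

end Pool.Agent.MU3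


end

section

/-!
# MU3, block D: convergence of the sum of the cut-off function
-/

set_option autoImplicit false

open NumberField IsDedekindDomain Ideal Filter Topology
open NumberField.Units NumberField.mixedEmbedding NumberField.Units.dirichletUnitTheorem
open scoped nonZeroDivisors

namespace Pool.Agent.MU3

open _root_.Pool.Agent.Lib_helper28.FROB

namespace FSUM

theorem tent_nonneg (y : ℝ) : 0 ≤ tent y := le_max_left _ _

theorem tent_le (y : ℝ) : tent y ≤ 1 := by
  unfold tent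
  have := abs_nonneg y
  exact max_le (by norm_num) (by linarith)

theorem rho_nonneg (K : Type) [Field K] [NumberField K] (a : 𝓞 K) : 0 ≤ rho K a :=
  Finset.prod_nonneg (fun _ _ => tent_nonneg _)

theorem rho_le (K : Type) [Field K] [NumberField K] (a : 𝓞 K) : rho K a ≤ 1 :=
  Finset.prod_le_one (fun _ _ => tent_nonneg _) (fun _ _ => tent_le _)

theorem an_eq (K : Type) [Field K] [NumberField K] (a : 𝓞 K) :
    an K a = ∏ w : InfinitePlace K, w (a : K) ^ w.mult := by
  unfold an
  rw [InfinitePlace.prod_eq_abs_norm, absNorm_span_singleton, Nat.cast_natAbs, Int.cast_abs,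
    ← Algebra.coe_norm_int]
  push_cast
  rfl

theorem one_le_an (K : Type) [Field K] [NumberField K] (a : 𝓞 K) (ha : a ≠ 0) : 1 ≤ an K a := by
  unfold an
  have h : absNorm (span {a}) ≠ 0 := by
    rw [Ne, absNorm_eq_zero_iff, span_singleton_eq_bot]
    exact ha
  exact_mod_cast Nat.one_le_iff_ne_zero.2 h

theorem le_nr (K : Type) [Field K] [NumberField K] (a : 𝓞 K) (w : InfinitePlace K) :
    w (a : K) ≤ nr K a := by
  unfold nr
  rw [norm_eq_sup'_normAtPlace, ← normAtPlace_apply]
  exact Finset.le_sup' (fun w => normAtPlace w (mixedEmbedding K (a : K))) (Finset.mem_univ w)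

theorem nr_nonneg (K : Type) [Field K] [NumberField K] (a : 𝓞 K) : 0 ≤ nr K a := by
  have w : InfinitePlace K := Classical.arbitrary _
  exact (apply_nonneg w _).trans (le_nr K a w)

theorem one_le_nr (K : Type) [Field K] [NumberField K] (a : 𝓞 K) (ha : a ≠ 0) : 1 ≤ nr K a := by
  by_contra hc
  rw [not_le] at hc
  have h1 := one_le_an K a ha
  rw [an_eq] at h1
  have h0 := nr_nonneg K a
  have h2 : ∏ w : InfinitePlace K, w (a : K) ^ w.mult ≤
      ∏ w : InfinitePlace K, nr K a ^ w.mult :=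
    Finset.prod_le_prod (fun w _ => pow_nonneg (apply_nonneg w _) _)
      (fun w _ => pow_le_pow_left₀ (apply_nonneg w _) (le_nr K a w) _)
  rw [Finset.prod_pow_eq_pow_sum, InfinitePlace.sum_mult_eq] at h2
  have h3 : nr K a ^ Module.finrank ℚ K < 1 :=
    pow_lt_one₀ h0 hc (Module.finrank_pos (R := ℚ) (M := K)).ne'
  linarith

end FSUM

open _root_.Pool.Agent.MU3.FSUM in
theorem m_FSUM : Stmt_CONE → Stmt_SZS → Stmt_FSUM := by
  intro hC hS K _ _ s hs
  obtain ⟨c, hc, h⟩ := hC K
  set d : ℕ := Module.finrank ℚ K with hd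
  have hd1 : 1 ≤ d := Module.finrank_pos (R := ℚ) (M := K)
  have hd1' : (1 : ℝ) ≤ d := by exact_mod_cast hd1
  have hsum : Summable (fun a : 𝓞 K => (c / 2) ^ (-((d : ℝ) * s)) * sz K a ^ (-((d : ℝ) * s))) :=
    (hS K ((d : ℝ) * s) (by nlinarith)).mul_left _
  refine Summable.of_nonneg_of_le ?_ ?_ hsum
  · intro a
    unfold fs
    have : 0 ≤ an K a := Nat.cast_nonneg _
    exact mul_nonneg (rho_nonneg K a) (Real.rpow_nonneg this _)
  · intro a
    have hsz : 0 < sz K a := by
      have := nr_nonneg K a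
      unfold sz
      linarith
    have hR : 0 ≤ (c / 2) ^ (-((d : ℝ) * s)) * sz K a ^ (-((d : ℝ) * s)) := by positivity
    by_cases ha : a = 0
    · have h1 : an K a = 0 := by
        unfold an
        rw [ha]
        simp
      unfold fs
      rw [h1, Real.zero_rpow (by linarith), mul_zero]
      exact hR
    by_cases hr : rho K a = 0
    · unfold fs
      rw [hr, zero_mul]
      exact hR
    have h1 : (c * nr K a) ^ d ≤ an K a := by
      rw [an_eq, hd, ← InfinitePlace.sum_mult_eq, ← Finset.prod_pow_eq_pow_sum]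
      exact Finset.prod_le_prod (fun w _ => by have := nr_nonneg K a; positivity)
        (fun w _ => pow_le_pow_left₀ (by have := nr_nonneg K a; positivity) (h a ha hr w) _)
    have h2 := one_le_nr K a ha
    have h3 : (c / 2 * sz K a) ^ d ≤ an K a := by
      refine le_trans ?_ h1
      apply pow_le_pow_left₀ (by positivity)
      unfold sz
      nlinarith
    have h4 : an K a ^ (-s) ≤ ((c / 2 * sz K a) ^ d) ^ (-s) :=
      Real.rpow_le_rpow_of_nonpos (by positivity) h3 (by linarith)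
    have h5 : ((c / 2 * sz K a) ^ d) ^ (-s) =
        (c / 2) ^ (-((d : ℝ) * s)) * sz K a ^ (-((d : ℝ) * s)) := by
      rw [← Real.rpow_natCast, ← Real.rpow_mul (by positivity), ← Real.mul_rpow (by positivity)
        hsz.le]
      congr 1
      ring
    rw [← h5]
    unfold fs
    have h6 : 0 ≤ an K a ^ (-s) := Real.rpow_nonneg (Nat.cast_nonneg _) _
    calc rho K a * an K a ^ (-s) ≤ 1 * an K a ^ (-s) :=
          mul_le_mul_of_nonneg_right (rho_le K a) h6
      _ ≤ _ := by rw [one_mul]; exact h4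

end Pool.Agent.MU3


end

section

/-!
# MU3, block D: SZS, convergence of the sum over the integers of powers of the size
-/

set_option autoImplicit false

open NumberField Ideal Filter Topology
open NumberField.mixedEmbedding

namespace Pool.Agent.MU3

namespace SZS

/-- The element of the lattice given by an integer. -/
noncomputable def toL (K : Type) [Field K] [NumberField K] (a : 𝓞 K) :
    mixedEmbedding.integerLattice K :=
  ⟨mixedEmbedding K (a : K), ⟨a, rfl⟩⟩

theorem toL_injective (K : Type) [Field K] [NumberField K] : Function.Injective (toL K) := by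
  intro a b h
  have h' : mixedEmbedding K (a : K) = mixedEmbedding K (b : K) := congrArg Subtype.val h
  exact RingOfIntegers.ext (mixedEmbedding_injective K h')

open scoped Classical in
theorem finrank_lattice (K : Type) [Field K] [NumberField K] :
    Module.finrank ℤ (mixedEmbedding.integerLattice K) = Module.finrank ℚ K := by
  rw [ZLattice.rank ℝ (mixedEmbedding.integerLattice K), mixedEmbedding.finrank]

open scoped Classical in
theorem norm_toL (K : Type) [Field K] [NumberField K] (a : 𝓞 K) : ‖toL K a‖ = nr K a := by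
  unfold nr toL
  exact Submodule.coe_norm _

open scoped Classical in
theorem summable_lattice (K : Type) [Field K] [NumberField K] (t : ℝ)
    (ht : (Module.finrank ℚ K : ℝ) < t) : Summable (fun a : 𝓞 K => nr K a ^ (-t)) := by
  have h := ZLattice.summable_norm_rpow (mixedEmbedding.integerLattice K) (-t) (by
    rw [finrank_lattice]; linarith)
  have h2 := h.comp_injective (toL_injective K)
  have h3 : (fun a : 𝓞 K => nr K a ^ (-t)) =
      (fun z : mixedEmbedding.integerLattice K => ‖z‖ ^ (-t)) ∘ toL K := by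
    funext a
    simp only [Function.comp_apply, norm_toL]
  rw [h3]
  exact h2

open scoped Classical in
theorem nr_nonneg (K : Type) [Field K] [NumberField K] (a : 𝓞 K) : 0 ≤ nr K a := by
  rw [← norm_toL]
  exact norm_nonneg _

open scoped Classical in
theorem nr_pos (K : Type) [Field K] [NumberField K] (a : 𝓞 K) (ha : a ≠ 0) : 0 < nr K a := by
  rw [← norm_toL, norm_pos_iff]
  intro h0
  apply ha
  have h1 : toL K a = toL K 0 := by
    rw [h0]
    apply Subtype.ext
    simp [toL]
  exact toL_injective K h1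

end SZS

open _root_.Pool.Agent.MU3.SZS in
theorem m_SZS : Stmt_SZS := by
  intro K _ _ t ht
  have h := summable_lattice K t ht
  have ht0 : 0 < t := lt_of_le_of_lt (Nat.cast_nonneg _) ht
  refine Summable.of_norm_bounded_eventually h ?_
  refine (Set.finite_singleton (0 : 𝓞 K)).subset ?_
  intro a ha
  by_contra hne
  apply ha
  have hne' : a ≠ 0 := hne
  have hpos : 0 < nr K a := nr_pos K a hne'
  have hs : 0 < sz K a := by unfold sz; linarith
  show ‖sz K a ^ (-t)‖ ≤ nr K a ^ (-t)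
  rw [Real.norm_of_nonneg (Real.rpow_nonneg hs.le _)]
  exact Real.rpow_le_rpow_of_nonpos hpos (by unfold sz; linarith) (by linarith)

end Pool.Agent.MU3


end

section

/-!
# MU3, block D: Lipschitz estimate of the coordinates
-/

open NumberField IsDedekindDomain Ideal Filter Topology
open NumberField.Units NumberField.mixedEmbedding NumberField.Units.dirichletUnitTheorem
open scoped nonZeroDivisors

namespace Pool.Agent.MU3

namespace LLIP

theorem tent_nonneg (y : ℝ) : 0 ≤ tent y := le_max_left _ _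

theorem tent_le_one (y : ℝ) : tent y ≤ 1 := max_le zero_le_one (by linarith [abs_nonneg y])

theorem tent_lip (y y' : ℝ) : |tent y - tent y'| ≤ |y - y'| := by
  unfold tent
  have h1 := abs_max_sub_max_le_abs (1 - |y|) (1 - |y'|) 0
  rw [max_comm, max_comm 0 (1 - |y'|)]
  refine h1.trans ?_
  have e : (1 - |y|) - (1 - |y'|) = |y'| - |y| := by ring
  rw [e, abs_sub_comm y y']
  exact abs_abs_sub_abs_le _ _

theorem prod_lip {ι : Type*} (s : Finset ι) (f g : ι → ℝ) (hf0 : ∀ i, 0 ≤ f i) (hf1 : ∀ i, f i ≤ 1)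
    (hg0 : ∀ i, 0 ≤ g i) (hg1 : ∀ i, g i ≤ 1) :
    |∏ i ∈ s, f i - ∏ i ∈ s, g i| ≤ ∑ i ∈ s, |f i - g i| := by
  classical
  induction s using Finset.induction_on with
  | empty => simp
  | insert a s ha ih =>
    rw [Finset.prod_insert ha, Finset.prod_insert ha, Finset.sum_insert ha]
    have e : f a * ∏ i ∈ s, f i - g a * ∏ i ∈ s, g i =
        (f a - g a) * ∏ i ∈ s, f i + g a * (∏ i ∈ s, f i - ∏ i ∈ s, g i) := by ring
    rw [e]
    refine (abs_add_le _ _).trans (add_le_add ?_ ?_)
    · rw [abs_mul]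
      have h0 : 0 ≤ ∏ i ∈ s, f i := Finset.prod_nonneg fun i _ => hf0 i
      have h1 : ∏ i ∈ s, f i ≤ 1 := Finset.prod_le_one (fun i _ => hf0 i) fun i _ => hf1 i
      rw [abs_of_nonneg h0]
      exact mul_le_of_le_one_right (abs_nonneg _) h1
    · rw [abs_mul, abs_of_nonneg (hg0 a)]
      exact (mul_le_of_le_one_left (abs_nonneg _) (hg1 a)).trans ih

end LLIP

open _root_.Pool.Agent.MU3.LLIP in
open scoped Classical in
theorem m_LLIP : Stmt_LLIP := by
  intro K _ _
  set B := (basisUnitLattice K).ofZLatticeBasis ℝ (unitLattice K) with hB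
  let φ : Fin (Units.rank K) → (logSpace K →L[ℝ] ℝ) := fun i =>
    LinearMap.toContinuousLinearMap (B.coord i)
  set d : ℝ := (Module.finrank ℚ K : ℝ) with hd
  have hd0 : 0 < d := by
    rw [hd]; exact_mod_cast Module.finrank_pos
  refine ⟨∑ i, ‖φ i‖ * 4, Finset.sum_nonneg fun i _ => by positivity, ?_⟩
  intro a b t ha hb ht hw
  have hlc : ∀ (c : 𝓞 K) (i : Fin (Units.rank K)), lc K c i = φ i (logMap (mixedEmbedding K (c : K))) :=
    fun c i => rfl
  have hN : ∀ c : 𝓞 K, c ≠ 0 → Real.log (mixedEmbedding.norm (mixedEmbedding K (c : K))) =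
      ∑ w : InfinitePlace K, (w.mult : ℝ) * Real.log (w (c : K)) := by
    intro c hc
    have hc' : (c : K) ≠ 0 := by exact_mod_cast hc
    rw [mixedEmbedding.norm_apply, Real.log_prod]
    · refine Finset.sum_congr rfl fun w _ => ?_
      rw [Real.log_pow, normAtPlace_apply]
    · intro w _
      rw [normAtPlace_apply]
      exact pow_ne_zero _ ((map_ne_zero _).2 hc')
  have hmult : ∑ w : InfinitePlace K, (w.mult : ℝ) = d := by
    rw [hd, ← InfinitePlace.sum_mult_eq]
    push_cast
    rfl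
  have hNd : |Real.log (mixedEmbedding.norm (mixedEmbedding K (b : K))) -
      Real.log (mixedEmbedding.norm (mixedEmbedding K (a : K)))| ≤ d * t := by
    rw [hN a ha, hN b hb, ← Finset.sum_sub_distrib, ← hmult, Finset.sum_mul]
    refine (Finset.abs_sum_le_sum_abs _ _).trans (Finset.sum_le_sum fun w _ => ?_)
    rw [← mul_sub, abs_mul, abs_of_nonneg (Nat.cast_nonneg _)]
    exact mul_le_mul_of_nonneg_left (hw w) (Nat.cast_nonneg _)
  have hlog : ‖logMap (mixedEmbedding K (b : K)) - logMap (mixedEmbedding K (a : K))‖ ≤ 4 * t := by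
    rw [pi_norm_le_iff_of_nonneg (by positivity)]
    intro w
    rw [Pi.sub_apply, logMap_apply, logMap_apply, normAtPlace_apply, normAtPlace_apply, ← mul_sub,
      Real.norm_eq_abs, abs_mul, abs_of_nonneg (Nat.cast_nonneg _)]
    have hm : (w.1.mult : ℝ) ≤ 2 := by
      have : w.1.mult ≤ 2 := by
        unfold InfinitePlace.mult
        split_ifs <;> norm_num
      exact_mod_cast this
    have h1 : |Real.log (w.1 (b : K)) -
        Real.log (mixedEmbedding.norm (mixedEmbedding K (b : K))) * (Module.finrank ℚ K : ℝ)⁻¹ -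
        (Real.log (w.1 (a : K)) -
        Real.log (mixedEmbedding.norm (mixedEmbedding K (a : K))) * (Module.finrank ℚ K : ℝ)⁻¹)| ≤
        2 * t := by
      have e : Real.log (w.1 (b : K)) -
        Real.log (mixedEmbedding.norm (mixedEmbedding K (b : K))) * (Module.finrank ℚ K : ℝ)⁻¹ -
        (Real.log (w.1 (a : K)) -
        Real.log (mixedEmbedding.norm (mixedEmbedding K (a : K))) * (Module.finrank ℚ K : ℝ)⁻¹) =
        (Real.log (w.1 (b : K)) - Real.log (w.1 (a : K))) -
        (Real.log (mixedEmbedding.norm (mixedEmbedding K (b : K))) -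
        Real.log (mixedEmbedding.norm (mixedEmbedding K (a : K)))) * (Module.finrank ℚ K : ℝ)⁻¹ := by
        ring
      rw [e]
      refine (abs_sub _ _).trans ?_
      have h2 := hw w.1
      have h3 : |(Real.log (mixedEmbedding.norm (mixedEmbedding K (b : K))) -
        Real.log (mixedEmbedding.norm (mixedEmbedding K (a : K)))) *
          (Module.finrank ℚ K : ℝ)⁻¹| ≤ t := by
        rw [abs_mul, abs_of_nonneg (inv_nonneg.2 hd0.le), ← div_eq_mul_inv, div_le_iff₀ hd0]
        linarith [mul_comm d t]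
      linarith
    calc (w.1.mult : ℝ) * _ ≤ 2 * (2 * t) :=
          mul_le_mul hm h1 (abs_nonneg _) (by norm_num)
      _ = 4 * t := by ring
  unfold rho
  refine (prod_lip _ _ _ (fun i => tent_nonneg _) (fun i => tent_le_one _)
    (fun i => tent_nonneg _) (fun i => tent_le_one _)).trans ?_
  rw [Finset.sum_mul]
  refine Finset.sum_le_sum fun i _ => ?_
  refine (tent_lip _ _).trans ?_
  rw [hlc, hlc, ← map_sub]
  refine ((φ i).le_opNorm _).trans ?_
  rw [mul_assoc]
  exact mul_le_mul_of_nonneg_left hlog (norm_nonneg _)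

end Pool.Agent.MU3


end

section

/-!
# MU3, block D: partition of unity (PU)
-/

open NumberField IsDedekindDomain Ideal Filter Topology
open NumberField.Units NumberField.mixedEmbedding NumberField.Units.dirichletUnitTheorem
open scoped nonZeroDivisors

namespace Pool.Agent.MU3

open _root_.Pool.Agent.Lib_helper28.FROB

namespace PU

/-- the two integers which contribute -/
noncomputable def sup (y : ℝ) : Finset ℤ := {-⌊y⌋, -⌊y⌋ - 1}

theorem tent_out {y : ℝ} {n : ℤ} (h : n ∉ sup y) : tent (y + n) = 0 := by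
  unfold sup at h
  simp only [Finset.mem_insert, Finset.mem_singleton, not_or] at h
  unfold tent
  apply max_eq_left
  rw [sub_nonpos]
  have h1 := Int.floor_le y
  have h2 := Int.lt_floor_add_one y
  rcases lt_or_ge n (-⌊y⌋) with h3 | h3
  · have h4 : n ≤ -⌊y⌋ - 2 := by omega
    have h5 : (n : ℝ) ≤ -⌊y⌋ - 2 := by exact_mod_cast h4
    rw [abs_of_nonpos (by linarith)]
    linarith
  · have h4 : -⌊y⌋ + 1 ≤ n := by omega
    have h5 : (-⌊y⌋ : ℝ) + 1 ≤ n := by exact_mod_cast h4
    rw [abs_of_nonneg (by linarith)]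
    linarith

theorem tent_sum (y : ℝ) : ∑ n ∈ sup y, tent (y + n) = 1 := by
  unfold sup
  rw [Finset.sum_pair (by omega)]
  have h1 := Int.floor_le y
  have h2 := Int.lt_floor_add_one y
  unfold tent
  push_cast
  rw [abs_of_nonneg (a := y + -(⌊y⌋ : ℝ)) (by linarith),
    abs_of_nonpos (a := y + (-(⌊y⌋ : ℝ) - 1)) (by linarith), max_eq_right (by linarith),
    max_eq_right (by linarith)]
  ring

variable (K : Type) [Field K] [NumberField K]

/-- product of a root of unity and powers of the fundamental units -/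
noncomputable def g (p : torsion K × (Fin (Units.rank K) → ℤ)) : (𝓞 K)ˣ :=
  p.1 * ∏ i, fundSystem K i ^ p.2 i

theorem g_bij : Function.Bijective (g K) := by
  rw [Function.bijective_iff_existsUnique]
  intro x
  obtain ⟨p, hp, hu⟩ := exist_unique_eq_mul_prod K x
  exact ⟨p, hp.symm, fun q hq => hu q hq.symm⟩

theorem log_g (p : torsion K × (Fin (Units.rank K) → ℤ)) :
    logEmbedding K (Additive.ofMul (g K p)) =
      ∑ i, p.2 i • (basisUnitLattice K i : logSpace K) := by
  unfold g
  rw [ofMul_mul, map_add, logEmbedding_eq_zero_iff.2 p.1.2, zero_add, ofMul_prod, map_sum]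
  apply Finset.sum_congr rfl
  intro i _
  rw [ofMul_zpow, map_zsmul, logEmbedding_fundSystem]

theorem lc_g (a : 𝓞 K) (ha : a ≠ 0) (p : torsion K × (Fin (Units.rank K) → ℤ))
    (i : Fin (Units.rank K)) : lc K ((g K p : 𝓞 K) * a) i = lc K a i + p.2 i := by
  classical
  have h0 : mixedEmbedding.norm (mixedEmbedding K (a : K)) ≠ 0 := by
    rw [norm_eq_norm]
    have h1 : Algebra.norm ℚ (a : K) ≠ 0 := by
      rw [Algebra.norm_ne_zero_iff]
      exact_mod_cast ha
    simpa using h1
  have h1 : logMap (mixedEmbedding K (((g K p : 𝓞 K) * a : 𝓞 K) : K)) =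
      ∑ j, p.2 j • (basisUnitLattice K j : logSpace K) + logMap (mixedEmbedding K (a : K)) := by
    rw [← log_g, ← logMap_unit_smul _ h0, unitSMul_smul, ← map_mul]
    rfl
  unfold lc
  rw [h1, map_add, Finsupp.add_apply, map_sum, Finsupp.finsetSum_apply, add_comm]
  congr 1
  rw [Finset.sum_eq_single i]
  · rw [map_zsmul]
    have h2 := (basisUnitLattice K).ofZLatticeBasis_apply ℝ (unitLattice K) i
    rw [← h2, Module.Basis.repr_self]
    simp
  · intro j _ hj
    rw [map_zsmul]
    have h2 := (basisUnitLattice K).ofZLatticeBasis_apply ℝ (unitLattice K) j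
    rw [← h2, Module.Basis.repr_self]
    simp [hj]
  · intro h
    exact absurd (Finset.mem_univ i) h

theorem has_sum (a : 𝓞 K) (ha : a ≠ 0) :
    HasSum (fun u : (𝓞 K)ˣ => rho K (u * a)) (torsionOrder K : ℝ) := by
  classical
  haveI : Fintype (torsion K) := Fintype.ofFinite _
  rw [← (Equiv.ofBijective (g K) (g_bij K)).hasSum_iff]
  have h1 : ((fun u : (𝓞 K)ˣ => rho K (u * a)) ∘ (Equiv.ofBijective (g K) (g_bij K))) =
      fun p : torsion K × (Fin (Units.rank K) → ℤ) => ∏ i, tent (lc K a i + p.2 i) := by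
    funext p
    show rho K ((g K p : 𝓞 K) * a) = _
    unfold rho
    apply Finset.prod_congr rfl
    intro i _
    rw [lc_g K a ha p i]
  rw [h1]
  have h2 : (torsionOrder K : ℝ) = ∑ p ∈ (Finset.univ : Finset (torsion K)) ×ˢ
      Fintype.piFinset (fun i => sup (lc K a i)), ∏ i, tent (lc K a i + p.2 i) := by
    rw [Finset.sum_product]
    simp only
    rw [Finset.sum_const, ← Finset.prod_univ_sum (fun i => sup (lc K a i))
      (fun i n => tent (lc K a i + n))]
    simp only [tent_sum, Finset.prod_const_one, Finset.card_univ, nsmul_eq_mul, mul_one]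
    rw [torsionOrder, Nat.card_eq_fintype_card]
  rw [h2]
  apply hasSum_sum_of_ne_finset_zero
  intro p hp
  rw [Finset.mem_product, not_and_or] at hp
  rcases hp with hp | hp
  · exact absurd (Finset.mem_univ _) hp
  · rw [Fintype.mem_piFinset] at hp
    obtain ⟨i, hi⟩ := not_forall.1 hp
    exact Finset.prod_eq_zero (Finset.mem_univ i) (tent_out hi)

end PU

theorem m_PU : Stmt_PU := by
  intro K _ _ a ha
  exact ⟨(PU.has_sum K a ha).summable, (PU.has_sum K a ha).tsum_eq⟩

end Pool.Agent.MU3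


end

section

/-!
# MU3, block D: assembly
-/

namespace Pool.Agent.MU3

theorem finLIP : Stmt_LIP := m_LIP m_CONE m_LLIP

theorem finFSUM : Stmt_FSUM := m_FSUM m_CONE m_SZS

theorem finCMP : Stmt_CMP := m_CMP finLIP m_SZS finFSUM

theorem finCLS : Stmt_CLS := m_CLS m_PU finFSUM

theorem finZCL : Stmt_ZCL := m_ZCL finCLS finCMP m_ISUM

theorem finLBD : Stmt_LBD := m_LBD finZCL m_ISUM

theorem finEP : Stmt_EP := m_EP m_ISUM

theorem finDENS : Stmt_DENS := m_DENS finLBD finEP m_SPLS m_DEG2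

theorem finTHD : Stmt_THD := m_THD finDENS m_KUM

theorem finNSP : Stmt_NSP := m_NSP m_SPLS m_DEG2

end Pool.Agent.MU3


end

section

/-!
# MUX, block K: module THDX (helper26)

The primes modulo which `t` is not a `p`-th power generate a subgroup of index at most two of the
class group, so a stable subgroup which contains them contains all `(σ • x) * x⁻¹`.
-/

set_option autoImplicit false

open NumberField IsDedekindDomain Finset Filter Topology Asymptotics
open scoped nonZeroDivisors Pointwise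

namespace Pool.Agent.MUXK

open _root_.Pool.Agent.MU3 _root_.Pool.Agent.RI _root_.Pool.Agent.RID _root_.Pool.Agent.Lib_helper28.FROB

namespace THDX

variable {L : Type} [Field L] [NumberField L]

theorem fin_above {S : Finset ℕ} (hS : ∀ p ∈ S, p.Prime) :
    {v : HeightOneSpectrum (𝓞 L) | Above S v}.Finite := by
  have h1 : {v : HeightOneSpectrum (𝓞 L) | Above S v} ⊆
      ⋃ p ∈ S, {v : HeightOneSpectrum (𝓞 L) | (p : 𝓞 L) ∈ v.asIdeal} := by
    rintro v ⟨p, hp, hv⟩
    exact Set.mem_biUnion hp hv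
  refine Set.Finite.subset (Set.Finite.biUnion S.finite_toSet ?_) h1
  intro p hp
  have h0 : (Ideal.span {(p : 𝓞 L)}) ≠ 0 := by
    intro h
    have h2 : (p : 𝓞 L) = 0 := Ideal.span_singleton_eq_bot.1 h
    exact (hS p hp).ne_zero (by exact_mod_cast h2)
  refine (Ideal.finite_factors h0).subset ?_
  intro v hv
  have hv' : (p : 𝓞 L) ∈ v.asIdeal := hv
  change v.asIdeal ∣ Ideal.span {(p : 𝓞 L)}
  rw [Ideal.dvd_iff_le, Ideal.span_singleton_le_iff_mem]
  exact hv'

theorem equiv_cl (v : HeightOneSpectrum (𝓞 L)) :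
    ClassGroup.equiv L (cl L v) =
      QuotientGroup.mk' (toPrincipalIdeal (𝓞 L) L).range (vJ v) := by
  unfold cl
  rw [ClassGroup.equiv_mk0]
  congr 1

theorem fin_bound (S : Set (HeightOneSpectrum (𝓞 L)))
    (hS : S.Finite) : ∃ C : ℝ, ∀ s : ℝ, 1 < s → ∑' v, Set.indicator S (x s) v ≤ C := by
  classical
  refine ⟨hS.toFinset.card, fun s hs => ?_⟩
  rw [tsum_eq_sum (s := hS.toFinset)]
  · refine (Finset.sum_le_card_nsmul _ _ 1 fun v _ => ?_).trans (by simp)
    unfold Set.indicator
    split_ifs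
    · have := x_le hs.le v
      linarith
    · norm_num
  · intro v hv
    rw [Set.indicator_of_notMem]
    simpa using hv

/-- The sum over a set whose complement is covered by three small sets. -/
theorem _root_.Pool.Agent.MUXK.THDX.lower {B B₁ B₂ B₃ : Set (HeightOneSpectrum (𝓞 L))}
    (hcov : ∀ v, v ∈ B ∨ v ∈ B₁ ∨ v ∈ B₂ ∨ v ∈ B₃) {s : ℝ} (hs : 1 < s) :
    ∑' v : HeightOneSpectrum (𝓞 L), x s v ≤ ∑' v, Set.indicator B (x s) v +
      ∑' v, Set.indicator B₁ (x s) v + ∑' v, Set.indicator B₂ (x s) v +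
        ∑' v, Set.indicator B₃ (x s) v := by
  have hsum := summable_x (K := L) hs
  have e0 := hsum.indicator B
  have e1 := hsum.indicator B₁
  have e2 := hsum.indicator B₂
  have e3 := hsum.indicator B₃
  rw [← e0.tsum_add e1, ← (e0.add e1).tsum_add e2, ← ((e0.add e1).add e2).tsum_add e3]
  refine hsum.tsum_le_tsum (fun v => ?_) (((e0.add e1).add e2).add e3)
  have i0 : 0 ≤ Set.indicator B (x s) v := Set.indicator_nonneg (fun v _ => (x_pos s v).le) v
  have i1 : 0 ≤ Set.indicator B₁ (x s) v := Set.indicator_nonneg (fun v _ => (x_pos s v).le) v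
  have i2 : 0 ≤ Set.indicator B₂ (x s) v := Set.indicator_nonneg (fun v _ => (x_pos s v).le) v
  have i3 : 0 ≤ Set.indicator B₃ (x s) v := Set.indicator_nonneg (fun v _ => (x_pos s v).le) v
  rcases hcov v with h | h | h | h
  · rw [Set.indicator_of_mem h] at *
    linarith
  · rw [Set.indicator_of_mem h] at *
    linarith
  · rw [Set.indicator_of_mem h] at *
    linarith
  · rw [Set.indicator_of_mem h] at *
    linarith

end THDX

open _root_.Pool.Agent.MUXK.THDX in
theorem t_THDX (h1 : S_IDX) (h2 : S_KUMX) : S_THDX := by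
  intro p _ k L _ _ _ _ ζ t hζ ht S hS U hU hstab hcond σ z
  have hp : p.Prime := Fact.out
  have hp2 : (2 : ℝ) ≤ p := by exact_mod_cast hp.two_le
  obtain ⟨M, _, _, _, hM⟩ := h2 p L ζ (t : 𝓞 L) hζ ht
  set q := QuotientGroup.mk' (toPrincipalIdeal (𝓞 L) L).range with hq
  set H : Subgroup (ClassGroup (𝓞 L)) :=
    (U.map q).comap (ClassGroup.equiv L).toMonoidHom with hH
  -- the sets of primes
  have hS' : ∀ ℓ ∈ insert p S, ℓ.Prime := by
    intro ℓ hℓ
    rcases Finset.mem_insert.1 hℓ with h | h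
    · rw [h]
      exact hp
    · exact hS ℓ h
  let B : Set (HeightOneSpectrum (𝓞 L)) := {v | (Ideal.absNorm v.asIdeal).Prime ∧
    Ideal.absNorm v.asIdeal ∉ S ∧ ∀ a : 𝓞 L, (t : 𝓞 L) - a ^ p ∉ v.asIdeal}
  let B₁ : Set (HeightOneSpectrum (𝓞 L)) := {v | p ≤ spl L M v}
  let B₂ : Set (HeightOneSpectrum (𝓞 L)) := {v | ¬ (Ideal.absNorm v.asIdeal).Prime}
  let B₃ : Set (HeightOneSpectrum (𝓞 L)) := {v | Above (insert p S) v}
  have htv : ∀ v : HeightOneSpectrum (𝓞 L), (t : 𝓞 L) ∉ v.asIdeal := by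
    intro v h
    exact v.isPrime.ne_top (Ideal.eq_top_of_isUnit_mem _ h t.isUnit)
  have hcov : ∀ v, v ∈ B ∨ v ∈ B₁ ∨ v ∈ B₂ ∨ v ∈ B₃ := by
    intro v
    by_cases c2 : (Ideal.absNorm v.asIdeal).Prime
    · by_cases c3 : Above (insert p S) v
      · exact Or.inr (Or.inr (Or.inr c3))
      · by_cases c4 : ∀ a : 𝓞 L, (t : 𝓞 L) - a ^ p ∉ v.asIdeal
        · refine Or.inl ⟨c2, ?_, c4⟩
          intro hmem
          exact c3 ⟨_, Finset.mem_insert_of_mem hmem, Ideal.absNorm_mem v.asIdeal⟩
        · push Not at c4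
          refine Or.inr (Or.inl (hM v ?_ (htv v) c4))
          intro hpv
          exact c3 ⟨p, Finset.mem_insert_self _ _, hpv⟩
    · exact Or.inr (Or.inr (Or.inl c2))
  obtain ⟨C₁, e1⟩ := m_SPLS L M p B₁ (fun v hv => hv)
  obtain ⟨C₂, e2⟩ := m_DEG2 L B₂ (fun v hv => hv)
  obtain ⟨C₃, e3⟩ := fin_bound B₃ (fin_above hS')
  obtain ⟨C₄, e4⟩ := (isBigO_sum L).bound
  have hc : (0 : ℝ) < 1 - 1 / p := by
    have h3 : (1 : ℝ) / p ≤ 1 / 2 := one_div_le_one_div_of_le (by norm_num) hp2
    linarith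
  have hidx := h1 L B (1 - 1 / p) hc ⟨C₁ / p + C₂ + C₃ + C₄, by
    filter_upwards [e1, e4, self_mem_nhdsWithin] with s f1 f4 hs
    have hs' : (1 : ℝ) < s := hs
    rw [norm_one, mul_one, Real.norm_eq_abs] at f4
    have h5 := neg_abs_le (∑' v : HeightOneSpectrum (𝓞 L), x s v - Real.log (1 / (s - 1)))
    have h6 := _root_.Pool.Agent.MUXK.THDX.lower hcov hs'
    have h7 := e2 s hs'
    have h8 := e3 s hs'
    have h9 : ∑' v, Set.indicator B₁ (x s) v ≤ (Real.log (1 / (s - 1)) + C₁) / p := by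
      rw [le_div_iff₀ (by linarith)]
      linarith
    have h10 : (Real.log (1 / (s - 1)) + C₁) / p = 1 / p * Real.log (1 / (s - 1)) + C₁ / p := by
      ring
    have h11 : (1 - 1 / (p : ℝ)) * Real.log (1 / (s - 1)) =
      Real.log (1 / (s - 1)) - 1 / p * Real.log (1 / (s - 1)) := by ring
    linarith⟩ H (by
    intro v hv
    obtain ⟨g1, g2, g3⟩ := hv
    have hcard : Nat.card (𝓞 L ⧸ v.asIdeal) = Ideal.absNorm v.asIdeal := by
      rw [Ideal.absNorm_apply, Submodule.cardQuot_apply]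
    have h3 := hcond v (Ideal.absNorm v.asIdeal) g1 g2 hcard g3
    rw [hH, Subgroup.mem_comap]
    change ClassGroup.equiv L (cl L v) ∈ U.map q
    rw [equiv_cl]
    exact Subgroup.mem_map_of_mem q h3)
  -- the index
  have hUi : U.index = H.index := by
    have hs1 : Function.Surjective q := QuotientGroup.mk'_surjective _
    have a1 : (U.map q).comap q = U := by
      rw [Subgroup.comap_map_eq, hq, QuotientGroup.ker_mk', sup_eq_left]
      exact hU
    have a2 : H.index = (U.map q).index :=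
      Subgroup.index_comap_of_surjective _ (ClassGroup.equiv L).surjective
    have a3 : ((U.map q).comap q).index = (U.map q).index :=
      Subgroup.index_comap_of_surjective _ hs1
    rw [a2, ← a3, a1]
  have hH0 : H.index ≠ 0 := Subgroup.index_ne_zero_of_finite
  have hH2 : H.index ≤ 2 := by
    by_contra hcon
    push Not at hcon
    have h3 : (3 : ℝ) ≤ H.index := by exact_mod_cast hcon
    have h4 : (1 : ℝ) / p ≤ 1 / 2 := one_div_le_one_div_of_le (by norm_num) hp2
    nlinarith
  have hU12 : U.index = 1 ∨ U.index = 2 := by omega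
  rcases hU12 with h3 | h3
  · rw [Subgroup.index_eq_one.1 h3]
    exact Subgroup.mem_top _
  · rw [Subgroup.mul_mem_iff_of_index_two h3, U.inv_mem_iff]
    constructor
    · intro h4
      have h5 := hstab σ⁻¹ _ h4
      rwa [inv_smul_smul] at h5
    · intro h4
      exact hstab σ _ h4

end Pool.Agent.MUXK


end

section

/-!
# MUX, block K, module NIX
-/

set_option autoImplicit false

open NumberField IsDedekindDomain Ideal Filter Topology Asymptotics
open scoped nonZeroDivisors Pointwise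

namespace Pool.Agent.MUXK

open _root_.Pool.Agent.MU3 _root_.Pool.Agent.RI _root_.Pool.Agent.RID _root_.Pool.Agent.Lib_helper28.FROB

namespace K_NIX

lemma fin_bound {L : Type} [Field L] [NumberField L] (S : Set (HeightOneSpectrum (𝓞 L)))
    (hS : S.Finite) : ∃ C : ℝ, ∀ s : ℝ, 1 < s → ∑' v, Set.indicator S (x s) v ≤ C := by
  classical
  refine ⟨hS.toFinset.card, fun s hs => ?_⟩
  rw [tsum_eq_sum (s := hS.toFinset)]
  · refine (Finset.sum_le_card_nsmul _ _ 1 fun v _ => ?_).trans (by simp)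
    unfold Set.indicator
    split_ifs
    · have := x_le hs.le v
      linarith
    · norm_num
  · intro v hv
    rw [Set.indicator_of_notMem]
    simpa using hv

theorem fin_above {L : Type} [Field L] [NumberField L] {S : Finset ℕ} (hS : ∀ p ∈ S, p.Prime) :
    {v : HeightOneSpectrum (𝓞 L) | Above S v}.Finite := by
  have h1 : {v : HeightOneSpectrum (𝓞 L) | Above S v} ⊆
      ⋃ p ∈ S, {v : HeightOneSpectrum (𝓞 L) | (p : 𝓞 L) ∈ v.asIdeal} := by
    rintro v ⟨p, hp, hv⟩
    exact Set.mem_biUnion hp hv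
  refine Set.Finite.subset (Set.Finite.biUnion S.finite_toSet ?_) h1
  intro p hp
  have h0 : (Ideal.span {(p : 𝓞 L)}) ≠ 0 := by
    intro h
    have h2 : (p : 𝓞 L) = 0 := Ideal.span_singleton_eq_bot.1 h
    exact (hS p hp).ne_zero (by exact_mod_cast h2)
  refine (Ideal.finite_factors h0).subset ?_
  intro v hv
  have hv' : (p : 𝓞 L) ∈ v.asIdeal := hv
  change v.asIdeal ∣ Ideal.span {(p : 𝓞 L)}
  rw [Ideal.dvd_iff_le, Ideal.span_singleton_le_iff_mem]
  exact hv'

theorem equiv_cl {L : Type} [Field L] [NumberField L] (v : HeightOneSpectrum (𝓞 L)) :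
    ClassGroup.equiv L (cl L v) =
      QuotientGroup.mk' (toPrincipalIdeal (𝓞 L) L).range (vJ v) := by
  unfold cl
  rw [ClassGroup.equiv_mk0]
  congr 1

variable {L M : Type} [Field L] [NumberField L] [Field M] [NumberField M] [Algebra L M]

/-- The prime below. -/
noncomputable def _root_.Pool.Agent.MUXK.K_NIX.dn (w : HeightOneSpectrum (𝓞 M)) : HeightOneSpectrum (𝓞 L) :=
  ⟨w.asIdeal.under (𝓞 L), inferInstance, Ideal.under_ne_bot (𝓞 L) w.ne_bot⟩

theorem fib_fin (v : HeightOneSpectrum (𝓞 L)) :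
    Finite {w : HeightOneSpectrum (𝓞 M) // w.asIdeal.under (𝓞 L) = v.asIdeal} ∧
    Nat.card {w : HeightOneSpectrum (𝓞 M) // w.asIdeal.under (𝓞 L) = v.asIdeal} ≤
      Module.finrank L M := by
  have hvm : v.asIdeal.IsMaximal := v.isMaximal
  have hfinP : (primesOver v.asIdeal (𝓞 M)).Finite :=
    IsDedekindDomain.primesOver_finite v.asIdeal (𝓞 M)
  have : Fintype (primesOver v.asIdeal (𝓞 M)) := hfinP.fintype
  have hsum := sum_ramification_inertia_eq_finrank v.asIdeal (𝓞 M)
  rw [← IsFractionRing.finrank_eq (𝓞 L) L (𝓞 M) M] at hsum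
  let f : {w : HeightOneSpectrum (𝓞 M) // w.asIdeal.under (𝓞 L) = v.asIdeal} →
      primesOver v.asIdeal (𝓞 M) := fun w => ⟨w.1.asIdeal, w.1.isPrime, ⟨w.2.symm⟩⟩
  have hf : Function.Injective f := by
    intro w w' h
    apply Subtype.ext
    apply HeightOneSpectrum.ext
    exact congrArg Subtype.val h
  refine ⟨Finite.of_injective f hf, (Nat.card_le_card_of_injective f hf).trans ?_⟩
  rw [← hsum, Nat.card_eq_fintype_card, ← Finset.card_univ, Finset.card_eq_sum_ones]
  refine Finset.sum_le_sum fun u _ => ?_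
  have := u.2.1
  exact Nat.one_le_iff_ne_zero.mpr (Nat.mul_ne_zero (Ideal.ramificationIdx_pos _ _).ne'
      (Ideal.inertiaDeg_pos _ _).ne')

/-- Sums over primes of `M` are at most `[M : L]` times the sums over the primes below. -/
theorem sum_below (A : Set (HeightOneSpectrum (𝓞 M))) (B : Set (HeightOneSpectrum (𝓞 L)))
    (hAB : ∀ w ∈ A, _root_.Pool.Agent.MUXK.K_NIX.dn w ∈ B ∧ absNorm w.asIdeal = absNorm (_root_.Pool.Agent.MUXK.K_NIX.dn (L := L) w).asIdeal) {s : ℝ}
    (hs : 1 < s) :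
    ∑' w, Set.indicator A (x s) w ≤ Module.finrank L M * ∑' v, Set.indicator B (x s) v := by
  classical
  have hemb : ∀ v : HeightOneSpectrum (𝓞 L),
      ∃ f : {w : HeightOneSpectrum (𝓞 M) // w.asIdeal.under (𝓞 L) = v.asIdeal} →
        Fin (Module.finrank L M), Function.Injective f := by
    intro v
    obtain ⟨h1, h2⟩ := fib_fin (M := M) v
    have := Fintype.ofFinite {w : HeightOneSpectrum (𝓞 M) // w.asIdeal.under (𝓞 L) = v.asIdeal}
    rw [Nat.card_eq_fintype_card] at h2
    obtain ⟨e⟩ := Function.Embedding.nonempty_of_card_le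
      (β := Fin (Module.finrank L M)) (by simpa using h2)
    exact ⟨e, e.injective⟩
  choose f hf using hemb
  let g : A → B × Fin (Module.finrank L M) := fun w =>
    (⟨_root_.Pool.Agent.MUXK.K_NIX.dn w.1, (hAB w.1 w.2).1⟩, f (_root_.Pool.Agent.MUXK.K_NIX.dn w.1) ⟨w.1, rfl⟩)
  have hg : Function.Injective g := by
    rintro w w' h
    have h1 : _root_.Pool.Agent.MUXK.K_NIX.dn (L := L) w.1 = _root_.Pool.Agent.MUXK.K_NIX.dn w'.1 := congrArg (fun p => p.1.1) h
    have h2 : f (_root_.Pool.Agent.MUXK.K_NIX.dn w.1) ⟨w.1, rfl⟩ = f (_root_.Pool.Agent.MUXK.K_NIX.dn w'.1) ⟨w'.1, rfl⟩ := congrArg (fun p => p.2) h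
    have h3 : ∀ (v v' : HeightOneSpectrum (𝓞 L)) (_ : v = v') (a : HeightOneSpectrum (𝓞 M))
        (ha : a.asIdeal.under (𝓞 L) = v.asIdeal) (b : HeightOneSpectrum (𝓞 M))
        (hb : b.asIdeal.under (𝓞 L) = v'.asIdeal), f v ⟨a, ha⟩ = f v' ⟨b, hb⟩ → a = b := by
      intro v v' hvv a ha b hb hab
      subst hvv
      exact congrArg Subtype.val (hf v hab)
    exact Subtype.ext (h3 _ _ h1 w.1 rfl w'.1 rfl h2)
  have hsum := summable_x (K := L) hs
  have hs2 : Summable fun p : B × Fin (Module.finrank L M) => x (K := L) s p.1.1 := by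
    have h0 : Summable fun v : B => x (K := L) s v.1 := hsum.subtype B
    have h5 := h0.mul_of_nonneg (g := fun _ : Fin (Module.finrank L M) => (1 : ℝ))
      (Summable.of_finite) (fun v => (x_pos s v.1).le) (fun _ => zero_le_one)
    refine h5.congr fun p => ?_
    rw [mul_one]
  have h2 : (Module.finrank L M : ℝ) * ∑' v, Set.indicator B (x s) v =
      ∑' p : B × Fin (Module.finrank L M), x s p.1.1 := by
    rw [← tsum_subtype, hs2.tsum_prod, ← tsum_mul_left]
    refine tsum_congr fun v => ?_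
    simp
  rw [h2, ← tsum_subtype]
  refine Summable.tsum_le_tsum_of_inj g hg (fun p _ => (x_pos s p.1.1).le) (fun w => ?_)
    ((summable_x (K := M) hs).subtype A) hs2
  show x s w.1 ≤ x s (_root_.Pool.Agent.MUXK.K_NIX.dn w.1)
  unfold x
  rw [(hAB w.1 w.2).2]

end K_NIX

open _root_.Pool.Agent.MUXK.K_NIX in
theorem t_NIX (h1 : S_IDX) : S_NIX := by
  classical
  intro L M _ _ _ _ _ S hS U hU hcond
  set q := QuotientGroup.mk' (toPrincipalIdeal (𝓞 L) L).range with hq
  set H : Subgroup (ClassGroup (𝓞 L)) :=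
    (U.map q).comap (ClassGroup.equiv L).toMonoidHom with hH
  have hidx : H.index = U.index := by
    have hsurj : Function.Surjective (ClassGroup.equiv (R := 𝓞 L) L).toMonoidHom :=
      (ClassGroup.equiv (R := 𝓞 L) L).surjective
    rw [hH, Subgroup.index_comap_of_surjective _ hsurj]
    refine Subgroup.index_map_eq U (QuotientGroup.mk'_surjective _) ?_
    rw [hq, QuotientGroup.ker_mk']
    exact hU
  set d := Module.finrank L M with hd
  have hdpos : 0 < d := Module.finrank_pos
  have hdR : (0 : ℝ) < d := by exact_mod_cast hdpos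
  let B : Set (HeightOneSpectrum (𝓞 L)) := {v | ∃ q : ℕ, q.Prime ∧ q ∉ S ∧
    Nat.card (𝓞 L ⧸ v.asIdeal) = q ∧ HasAb L M v q}
  have hBH : ∀ v ∈ B, cl L v ∈ H := by
    rintro v ⟨p, hp, hpS, hc, hab⟩
    rw [hH, Subgroup.mem_comap]
    change ClassGroup.equiv L (cl L v) ∈ U.map q
    rw [equiv_cl]
    exact Subgroup.mem_map_of_mem q (hcond v p hp hpS hc hab)
  have hdens : ∃ C : ℝ, ∀ᶠ s : ℝ in 𝓝[>] 1,
      (1 / (d : ℝ)) * Real.log (1 / (s - 1)) - C ≤ ∑' v, Set.indicator B (x s) v := by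
    let A : Set (HeightOneSpectrum (𝓞 M)) := {w | ¬ Above S w ∧ (absNorm w.asIdeal).Prime}
    let B₂ : Set (HeightOneSpectrum (𝓞 M)) := {w | ¬ (absNorm w.asIdeal).Prime}
    let S' : Set (HeightOneSpectrum (𝓞 M)) := {w | Above S w}
    obtain ⟨C₂, h2⟩ := m_DEG2 M B₂ (fun v hv => hv)
    obtain ⟨C₃, h3⟩ := fin_bound S' (fin_above hS)
    obtain ⟨C₄, h4⟩ := (isBigO_sum M).bound
    refine ⟨(C₂ + C₃ + C₄) / d, ?_⟩
    filter_upwards [h4, self_mem_nhdsWithin] with s hs4 hs
    have hs' : (1 : ℝ) < s := hs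
    rw [norm_one, mul_one, Real.norm_eq_abs] at hs4
    have h5 := neg_abs_le (∑' v : HeightOneSpectrum (𝓞 M), x s v - Real.log (1 / (s - 1)))
    have h6 : ∑' v : HeightOneSpectrum (𝓞 M), x s v ≤
        ∑' v, Set.indicator A (x s) v + ∑' v, Set.indicator B₂ (x s) v +
          ∑' v, Set.indicator S' (x s) v := by
      have e1 := (summable_x (K := M) hs').indicator A
      have e2 := (summable_x (K := M) hs').indicator B₂
      have e3 := (summable_x (K := M) hs').indicator S'
      rw [← e1.tsum_add e2, ← (e1.add e2).tsum_add e3]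
      refine (summable_x hs').tsum_le_tsum (fun v => ?_) ((e1.add e2).add e3)
      have hx := x_pos s v
      have i1 : 0 ≤ Set.indicator A (x s) v := Set.indicator_nonneg (fun v _ => (x_pos s v).le) v
      have i2 : 0 ≤ Set.indicator B₂ (x s) v := Set.indicator_nonneg (fun v _ => (x_pos s v).le) v
      have i3 : 0 ≤ Set.indicator S' (x s) v := Set.indicator_nonneg (fun v _ => (x_pos s v).le) v
      by_cases hv : v ∈ S'
      · rw [Set.indicator_of_mem hv]
        linarith
      · by_cases hv2 : (absNorm v.asIdeal).Prime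
        · rw [Set.indicator_of_mem (show v ∈ A from ⟨hv, hv2⟩)]
          linarith
        · rw [Set.indicator_of_mem (show v ∈ B₂ from hv2)]
          linarith
    have h7 := h2 s hs'
    have h8 := h3 s hs'
    have hAB : ∀ w ∈ A, _root_.Pool.Agent.MUXK.K_NIX.dn w ∈ B ∧ absNorm w.asIdeal = absNorm (_root_.Pool.Agent.MUXK.K_NIX.dn (L := L) w).asIdeal := by
      rintro w ⟨hwS, hwp⟩
      have hprime : (_root_.Pool.Agent.MUXK.K_NIX.dn (L := L) w).asIdeal.IsPrime := (_root_.Pool.Agent.MUXK.K_NIX.dn w).isPrime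
      have hlo : w.asIdeal.LiesOver (_root_.Pool.Agent.MUXK.K_NIX.dn (L := L) w).asIdeal := ⟨rfl⟩
      have hwprime : w.asIdeal.IsPrime := w.isPrime
      have h9 := absNorm_pow_inertiaDeg (_root_.Pool.Agent.MUXK.K_NIX.dn (L := L) w).asIdeal w.asIdeal
      have h10 : absNorm w.asIdeal = absNorm (_root_.Pool.Agent.MUXK.K_NIX.dn (L := L) w).asIdeal := by
        have h11 : absNorm (_root_.Pool.Agent.MUXK.K_NIX.dn (L := L) w).asIdeal ∣ absNorm w.asIdeal := by
          rw [← h9]
          exact dvd_pow_self _ (Ideal.inertiaDeg_pos _ _).ne'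
        rcases (Nat.dvd_prime hwp).1 h11 with h12 | h12
        · exfalso
          rw [h12, one_pow] at h9
          exact hwp.one_lt.ne h9
        · exact h12.symm
      refine ⟨⟨absNorm w.asIdeal, hwp, ?_, ?_, ?_⟩, h10⟩
      · intro hmem
        exact hwS ⟨_, hmem, Ideal.absNorm_mem w.asIdeal⟩
      · rw [h10, Ideal.absNorm_apply, Submodule.cardQuot_apply]
      · exact ⟨w, rfl, by rw [Ideal.absNorm_apply, Submodule.cardQuot_apply]⟩
    have h9 := sum_below A B hAB hs'
    rw [← hd] at h9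
    have h10 : Real.log (1 / (s - 1)) - (C₂ + C₃ + C₄) ≤ d * ∑' v, Set.indicator B (x s) v := by
      linarith
    have h11 : (1 / (d : ℝ)) * Real.log (1 / (s - 1)) - (C₂ + C₃ + C₄) / d =
        (Real.log (1 / (s - 1)) - (C₂ + C₃ + C₄)) / d := by
      field_simp
    rw [h11, div_le_iff₀ hdR]
    linarith
  have h12 := h1 L B (1 / (d : ℝ)) (by positivity) hdens H hBH
  rw [hidx] at h12
  refine ⟨?_, ?_⟩
  · rw [← hidx]
    exact Subgroup.index_ne_zero_of_finite
  · rw [mul_one_div, div_le_one hdR] at h12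
    exact_mod_cast h12

end Pool.Agent.MUXK


end

section

/-!
# MUX, block K, module IDX: density and index in the class group

The primes whose classes lie in a subgroup of index `n` of the class group have density at most
`1 / n`: sum the logarithms of all the `L`-functions of the characters of the quotient.
-/

open NumberField IsDedekindDomain Ideal Filter Topology Asymptotics
open scoped nonZeroDivisors

namespace Pool.Agent.MUXK

open _root_.Pool.Agent.MU3 _root_.Pool.Agent.Lib_helper28.FROB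

namespace IDX

/-- There are as many characters as elements. -/
lemma card_char (G : Type) [CommGroup G] [Finite G] : Nat.card (G →* ℂˣ) = Nat.card G := by
  have : NeZero (Monoid.exponent G : ℂ) :=
    ⟨by exact_mod_cast Monoid.exponent_ne_zero_of_finite⟩
  exact CommGroup.card_monoidHom_of_hasEnoughRootsOfUnity G ℂ

lemma finite_char (G : Type) [CommGroup G] [Finite G] : Finite (G →* ℂˣ) := by
  apply Nat.finite_of_card_ne_zero
  rw [card_char]
  exact Nat.card_pos.ne'

/-- The sum of the values of all characters at a nontrivial element vanishes. -/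
lemma sum_char (G : Type) [CommGroup G] [Finite G] [Fintype (G →* ℂˣ)] (a : G) (ha : a ≠ 1) :
    ∑ φ : G →* ℂˣ, ((φ a : ℂˣ) : ℂ) = 0 := by
  have : NeZero (Monoid.exponent G : ℂ) :=
    ⟨by exact_mod_cast Monoid.exponent_ne_zero_of_finite⟩
  obtain ⟨ψ, hψ⟩ := CommGroup.exists_apply_ne_one_of_hasEnoughRootsOfUnity G ℂ ha
  have h1 : ((ψ a : ℂˣ) : ℂ) * ∑ φ : G →* ℂˣ, ((φ a : ℂˣ) : ℂ) =
      ∑ φ : G →* ℂˣ, ((φ a : ℂˣ) : ℂ) := by
    rw [Finset.mul_sum]
    refine Fintype.sum_equiv (Equiv.mulLeft ψ) _ _ fun φ => ?_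
    simp
  have h2 : (((ψ a : ℂˣ) : ℂ) - 1) * ∑ φ : G →* ℂˣ, ((φ a : ℂˣ) : ℂ) = 0 := by
    rw [sub_mul, h1, one_mul, sub_self]
  rcases mul_eq_zero.mp h2 with h3 | h3
  · exact absurd (Units.ext (sub_eq_zero.mp h3)) hψ
  · exact h3

/-- The real part of the sum of the values of all characters is nonnegative, and it is the order of
the group at the neutral element. -/
lemma sum_re (G : Type) [CommGroup G] [Finite G] [Fintype (G →* ℂˣ)] (a : G) :
    0 ≤ ∑ φ : G →* ℂˣ, (((φ a : ℂˣ) : ℂ)).re := by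
  rw [← Complex.re_sum]
  by_cases ha : a = 1
  · subst ha
    simp
  · rw [sum_char G a ha]
    simp

lemma sum_re_one (G : Type) [CommGroup G] [Finite G] [Fintype (G →* ℂˣ)] :
    ∑ φ : G →* ℂˣ, (((φ 1 : ℂˣ) : ℂ)).re = Nat.card G := by
  simp only [map_one, Units.val_one, Complex.one_re, Finset.sum_const, Finset.card_univ,
    nsmul_eq_mul, mul_one]
  rw [← Nat.card_eq_fintype_card, card_char]

end IDX

theorem t_IDX (h1 : S_EPX) : S_IDX := by
  intro L _ _ B c hc hB U hU
  classical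
  obtain ⟨C, hC⟩ := hB
  set Q := ClassGroup (𝓞 L) ⧸ U with hQdef
  have hfin : Finite (Q →* ℂˣ) := IDX.finite_char Q
  have := Fintype.ofFinite (Q →* ℂˣ)
  let η : (Q →* ℂˣ) → (ClassGroup (𝓞 L) →* ℂˣ) := fun φ => φ.comp (QuotientGroup.mk' U)
  have hη : ∀ φ : Q →* ℂˣ, φ ≠ 1 → η φ ≠ 1 := by
    intro φ hφ h
    apply hφ
    refine MonoidHom.ext fun a => ?_
    obtain ⟨b, rfl⟩ := QuotientGroup.mk'_surjective U a
    exact DFunLike.congr_fun h b
  have hex : ∀ φ : Q →* ℂˣ, ∃ C : ℝ, ∀ᶠ s : ℝ in 𝓝[>] 1, φ ≠ 1 → ‖Lf L (η φ) s‖ ≤ C := by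
    intro φ
    by_cases hφ : φ = 1
    · exact ⟨0, Eventually.of_forall fun s h => absurd hφ h⟩
    · obtain ⟨D, hD⟩ := finLBD L (η φ) (hη φ hφ)
      exact ⟨D, hD.mono fun s hs _ => hs⟩
  choose D hD using hex
  have hD' : ∀ᶠ s : ℝ in 𝓝[>] 1, ∀ φ : Q →* ℂˣ, φ ≠ 1 → ‖Lf L (η φ) s‖ ≤ D φ :=
    Filter.eventually_all.mpr hD
  obtain ⟨C₄, h4⟩ := (isBigO_sum L).bound
  set X2 : ℝ := ∑' v : HeightOneSpectrum (𝓞 L), x 2 v with hX2
  set E : (Q →* ℂˣ) → ℝ := fun φ => |Real.log (max (D φ) 1)| + X2 / 2 with hE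
  have hX2n : 0 ≤ X2 := tsum_nonneg fun v => (x_pos 2 v).le
  have hEn : ∀ φ, 0 ≤ E φ := fun φ => by
    have := abs_nonneg (Real.log (max (D φ) 1))
    simp only [hE]
    linarith
  have hcard : (Nat.card Q : ℝ) = (U.index : ℝ) := by
    rw [hQdef]
    rfl
  by_contra hlt
  push Not at hlt
  set n : ℝ := (U.index : ℝ) with hn
  have hn0 : 0 ≤ n := Nat.cast_nonneg _
  -- for `s` near `1` everything holds
  have hΛ := DENS.lambda_tendsto.eventually (eventually_gt_atTop
    ((n * C + C₄ + ∑ φ, E φ) / (n * c - 1)))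
  have hev : ∀ᶠ s : ℝ in 𝓝[>] 1, False := by
    filter_upwards [hC, hD', h4, hΛ, self_mem_nhdsWithin] with s hsC hsD hs4 hsΛ hs
    have hs' : (1 : ℝ) < s := hs
    rw [norm_one, mul_one, Real.norm_eq_abs] at hs4
    have h5 := le_abs_self (∑' v : HeightOneSpectrum (𝓞 L), x s v - Real.log (1 / (s - 1)))
    set Λ := Real.log (1 / (s - 1)) with hΛdef
    have hsum := summable_x (K := L) hs'
    have hsq : ∀ v : HeightOneSpectrum (𝓞 L), x s v ^ 2 ≤ x 2 v := by
      intro v
      rw [x_sq]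
      exact x_anti (by linarith) v
    have hsqs : Summable fun v : HeightOneSpectrum (𝓞 L) => x s v ^ 2 :=
      Summable.of_nonneg_of_le (fun v => by positivity) hsq (summable_x (by norm_num))
    have hsq2 : ∑' v : HeightOneSpectrum (𝓞 L), x s v ^ 2 ≤ X2 :=
      hsqs.tsum_le_tsum hsq (summable_x (by norm_num))
    have hre : ∀ (φ : Q →* ℂˣ) (a : ClassGroup (𝓞 L)), |((η φ a : ℂˣ) : ℂ).re| ≤ 1 := by
      intro φ a
      exact (Complex.abs_re_le_norm _).trans (EP.norm_eta (η φ) a).le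
    have hsre : ∀ φ : Q →* ℂˣ, Summable fun v : HeightOneSpectrum (𝓞 L) =>
        ((η φ (cl L v) : ℂˣ) : ℂ).re * x s v := by
      intro φ
      refine Summable.of_norm_bounded hsum fun v => ?_
      rw [Real.norm_eq_abs, abs_mul, abs_of_pos (x_pos s v)]
      have := mul_le_mul_of_nonneg_right (hre φ (cl L v)) (x_pos s v).le
      linarith
    -- upper bounds
    have hup : ∀ φ : Q →* ℂˣ, φ ≠ 1 → ∑' v : HeightOneSpectrum (𝓞 L),
        ((η φ (cl L v) : ℂˣ) : ℂ).re * x s v ≤ E φ := by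
      intro φ hφ
      have h6 := (h1 L (η φ) s hs').trans ((hsD φ hφ).trans (le_max_left _ 1))
      have hpos : (0 : ℝ) < max (D φ) 1 := lt_of_lt_of_le one_pos (le_max_right _ _)
      have h7 := (Real.le_log_iff_exp_le hpos).mpr h6
      rw [(hsre φ).tsum_sub (hsqs.div_const 2), tsum_div_const] at h7
      have h8 := le_abs_self (Real.log (max (D φ) 1))
      simp only [hE]
      linarith
    have hup1 : ∑' v : HeightOneSpectrum (𝓞 L),
        ((η 1 (cl L v) : ℂˣ) : ℂ).re * x s v ≤ Λ + C₄ := by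
      have h6 : ∀ v : HeightOneSpectrum (𝓞 L), ((η 1 (cl L v) : ℂˣ) : ℂ).re * x s v = x s v := by
        intro v
        simp [η]
      rw [tsum_congr h6]
      linarith
    -- lower bound
    have hlow : n * ∑' v, Set.indicator B (x s) v ≤
        ∑ φ : Q →* ℂˣ, ∑' v : HeightOneSpectrum (𝓞 L), ((η φ (cl L v) : ℂˣ) : ℂ).re * x s v := by
      rw [← Summable.tsum_finsetSum (fun φ _ => hsre φ), ← tsum_mul_left]
      refine Summable.tsum_le_tsum (fun v => ?_) ((hsum.indicator B).mul_left n)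
        (summable_sum fun φ _ => hsre φ)
      rw [← Finset.sum_mul]
      by_cases hv : v ∈ B
      · rw [Set.indicator_of_mem hv]
        have h6 : (QuotientGroup.mk' U) (cl L v) = 1 :=
          (QuotientGroup.eq_one_iff _).mpr (hU v hv)
        have h7 : ∑ φ : Q →* ℂˣ, ((η φ (cl L v) : ℂˣ) : ℂ).re = n := by
          have h8 := IDX.sum_re_one Q
          rw [hcard] at h8
          rw [← h8]
          refine Finset.sum_congr rfl fun φ _ => ?_
          simp only [η, MonoidHom.comp_apply]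
          rw [h6]
        rw [h7]
      · rw [Set.indicator_of_notMem hv, mul_zero]
        refine mul_nonneg ?_ (x_pos s v).le
        exact IDX.sum_re Q ((cl L v : ClassGroup (𝓞 L)) : Q)
    have hsplit : ∑ φ : Q →* ℂˣ, ∑' v : HeightOneSpectrum (𝓞 L),
        ((η φ (cl L v) : ℂˣ) : ℂ).re * x s v ≤ Λ + C₄ + ∑ φ, E φ := by
      rw [← Finset.add_sum_erase _ _ (Finset.mem_univ (1 : Q →* ℂˣ)),
        ← Finset.add_sum_erase _ E (Finset.mem_univ (1 : Q →* ℂˣ))]
      have h6 : ∑ φ ∈ Finset.univ.erase (1 : Q →* ℂˣ), ∑' v : HeightOneSpectrum (𝓞 L),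
          ((η φ (cl L v) : ℂˣ) : ℂ).re * x s v ≤ ∑ φ ∈ Finset.univ.erase (1 : Q →* ℂˣ), E φ :=
        Finset.sum_le_sum fun φ hφ => hup φ (Finset.ne_of_mem_erase hφ)
      have h7 := hEn 1
      linarith
    have h9 : n * (c * Λ - C) ≤ n * ∑' v, Set.indicator B (x s) v :=
      mul_le_mul_of_nonneg_left hsC hn0
    have h10 : 0 < n * c - 1 := by linarith
    rw [div_lt_iff₀ h10] at hsΛ
    nlinarith
  exact (hev.exists).choose_spec

end Pool.Agent.MUXK


end

section

/-!
# MUX, block K, module EPX: lower bound from the Euler product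
-/

set_option autoImplicit false

open NumberField IsDedekindDomain Ideal Filter Topology
open scoped nonZeroDivisors

namespace Pool.Agent.MUXK

open _root_.Pool.Agent.MU3 _root_.Pool.Agent.Lib_helper28.FROB

/-- The elementary estimate for one factor. -/
lemma EPX_factor (g : ℂ) : ‖1 - g‖ ≤ Real.exp (-(g.re - ‖g‖ ^ 2 / 2)) := by
  have h1 : ‖1 - g‖ ^ 2 = 1 + (-(2 * g.re) + ‖g‖ ^ 2) := by
    rw [← Complex.normSq_eq_norm_sq, ← Complex.normSq_eq_norm_sq, Complex.normSq_apply,
      Complex.normSq_apply]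
    simp only [Complex.sub_re, Complex.one_re, Complex.sub_im, Complex.one_im]
    ring
  have h2 : ‖1 - g‖ ^ 2 ≤ (Real.exp (-(g.re - ‖g‖ ^ 2 / 2))) ^ 2 := by
    rw [h1, ← Real.exp_nat_mul]
    have h3 := Real.add_one_le_exp (-(2 * g.re) + ‖g‖ ^ 2)
    have h4 : ((2 : ℕ) : ℝ) * -(g.re - ‖g‖ ^ 2 / 2) = -(2 * g.re) + ‖g‖ ^ 2 := by
      push_cast
      ring
    rw [h4]
    linarith
  exact le_of_sq_le_sq h2 (Real.exp_pos _).le
where
  le_of_sq_le_sq {a b : ℝ} (h : a ^ 2 ≤ b ^ 2) (hb : 0 ≤ b) : a ≤ b :=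
    abs_le_of_sq_le_sq' h hb |>.2

theorem t_EPX : S_EPX := by
  classical
  intro K _ _ η s hs
  have hiN := (m_ISUM K).1 s hs
  have hg : Summable (EP.g K η s) :=
    Summable.of_norm_bounded hiN fun I => (EP.norm_g K η s I).le
  have hx := summable_x (K := K) hs
  have hxP : ∀ v : HeightOneSpectrum (𝓞 K), iN K s (EP.P K v) = x s v := fun v => rfl
  have hlim := (EP.lim K η s hiN).norm
  rw [norm_one] at hlim
  have hgre : ∀ v : HeightOneSpectrum (𝓞 K), (EP.g K η s (EP.P K v)).re =
      ((η (cl K v) : ℂ)).re * x s v := by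
    intro v
    have h3 : EP.g K η s (EP.P K v) = (η (cl K v) : ℂ) * ((x s v : ℝ) : ℂ) := rfl
    rw [h3, Complex.re_mul_ofReal]
  have h1 : ∀ v : HeightOneSpectrum (𝓞 K), ‖1 - EP.g K η s (EP.P K v)‖ ≤
      Real.exp (-(((η (cl K v) : ℂ)).re * x s v - (x s v) ^ 2 / 2)) := by
    intro v
    have h := EPX_factor (EP.g K η s (EP.P K v))
    rwa [hgre, EP.norm_g, hxP] at h
  have hsum : Summable fun v : HeightOneSpectrum (𝓞 K) =>
      ((η (cl K v) : ℂ)).re * x s v - (x s v) ^ 2 / 2 := by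
    refine Summable.of_norm_bounded (hx.mul_left 2) fun v => ?_
    have hxv := x_pos s v
    have hxv' := x_le hs.le v
    have hη : |((η (cl K v) : ℂ)).re| ≤ 1 :=
      (Complex.abs_re_le_norm _).trans (EP.norm_eta η (cl K v)).le
    rw [Real.norm_eq_abs]
    have hx1 : x s v ≤ 1 := by linarith
    have h5 := abs_le.mp hη
    rw [abs_le]
    constructor <;> nlinarith [mul_le_mul_of_nonneg_right h5.1 hxv.le,
      mul_le_mul_of_nonneg_right h5.2 hxv.le, mul_le_mul_of_nonneg_right hx1 hxv.le]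
  have h2 : ∀ t : Finset (HeightOneSpectrum (𝓞 K)),
      ‖∑' I, Set.indicator (EP.D K t) (EP.g K η s) I‖ *
        Real.exp (∑ v ∈ t, (((η (cl K v) : ℂ)).re * x s v - (x s v) ^ 2 / 2)) ≤
      ‖Lf K η s‖ := by
    intro t
    rw [EP.prod_eq K η s hg t, norm_mul]
    have h3 : ‖∏ v ∈ t, (1 - EP.g K η s (EP.P K v))‖ ≤
        Real.exp (-∑ v ∈ t, (((η (cl K v) : ℂ)).re * x s v - (x s v) ^ 2 / 2)) := by
      rw [norm_prod, ← Finset.sum_neg_distrib, Real.exp_sum]
      exact Finset.prod_le_prod (fun v _ => norm_nonneg _) fun v _ => h1 v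
    have h4 : ‖∑' I, EP.g K η s I‖ = ‖Lf K η s‖ := rfl
    rw [h4, mul_assoc]
    refine mul_le_of_le_one_right (norm_nonneg _) ?_
    calc ‖∏ v ∈ t, (1 - EP.g K η s (EP.P K v))‖ *
          Real.exp (∑ v ∈ t, (((η (cl K v) : ℂ)).re * x s v - (x s v) ^ 2 / 2))
        ≤ Real.exp (-∑ v ∈ t, (((η (cl K v) : ℂ)).re * x s v - (x s v) ^ 2 / 2)) *
          Real.exp (∑ v ∈ t, (((η (cl K v) : ℂ)).re * x s v - (x s v) ^ 2 / 2)) :=
          mul_le_mul_of_nonneg_right h3 (Real.exp_pos _).le
      _ = 1 := by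
          rw [← Real.exp_add]
          simp
  have hlim2 : Tendsto (fun t : Finset (HeightOneSpectrum (𝓞 K)) =>
      ‖∑' I, Set.indicator (EP.D K t) (EP.g K η s) I‖ *
        Real.exp (∑ v ∈ t, (((η (cl K v) : ℂ)).re * x s v - (x s v) ^ 2 / 2))) atTop
      (𝓝 (1 * Real.exp (∑' v, (((η (cl K v) : ℂ)).re * x s v - (x s v) ^ 2 / 2)))) := by
    refine hlim.mul ((Real.continuous_exp.tendsto _).comp ?_)
    exact hsum.hasSum
  rw [one_mul] at hlim2
  exact le_of_tendsto' hlim2 h2

end Pool.Agent.MUXK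


end

section

/-!
# Frobenius: sums over the primes with decomposition group in a given subgroup
-/

open NumberField IsDedekindDomain Ideal MulAction Filter Topology Asymptotics
open scoped Pointwise

namespace Pool.Agent.Lib_helper28.FROB

variable {M : Type*} [Field M] [NumberField M] [IsGalois ℚ M]

set_option linter.unusedSectionVars false

/-- `p` is unramified in `M` -/
def U (M : Type*) [Field M] [NumberField M] (p : ℕ) : Prop :=
  ∀ w : HeightOneSpectrum (𝓞 M), pr w = p → w.asIdeal.ramificationIdx ℤ = 1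

theorem bad_finite : {p : ℕ | ¬ U M p}.Finite := by
  have hd : NumberField.discr M ≠ 0 := NumberField.discr_ne_zero M
  refine (Nat.divisors (NumberField.discr M).natAbs).finite_toSet.subset ?_
  intro p hp
  simp only [Set.mem_ofPred_eq, U, not_forall] at hp
  obtain ⟨w, hw, hr⟩ := hp
  rw [Finset.mem_coe, Nat.mem_divisors]
  refine ⟨?_, by simpa using hd⟩
  by_contra hnd
  have hpp : p.Prime := hw ▸ pr_prime w
  have hnd' : ¬ (p : ℤ) ∣ NumberField.discr M := by
    rwa [Int.natCast_dvd]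
  have h := (NumberField.not_dvd_discr_iff_forall_mem M (𝓞 M) (Nat.prime_iff_prime_int.mp hpp)).mp
    hnd' w.asIdeal w.isPrime ?_
  · exact hr Ideal.ramificationIdx_eq_one_of_isUnramifiedAt
  · have h1 : (p : ℤ) ∈ w.asIdeal.under ℤ := by
      rw [under_eq, hw]
      exact Ideal.mem_span_singleton_self _
    rw [Ideal.mem_comap] at h1
    simpa using h1

open Classical in
/-- the term of `w` for the primes with decomposition group contained in `H` -/
noncomputable def ta (H : Subgroup Gal(M/ℚ)) (s : ℝ) (w : HeightOneSpectrum (𝓞 M)) : ℝ :=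
  if U M (pr w) ∧ Dec w ≤ H then (Nat.card (Dec w) : ℝ) * (pr w : ℝ) ^ (-s) else 0

open Classical in
/-- the term of `v` for the primes of degree one -/
noncomputable def tb (H : Subgroup Gal(M/ℚ)) (s : ℝ) (v : HeightOneSpectrum (𝓞 (Fix H))) : ℝ :=
  if U M (pr v) ∧ dg v = 1 then (pr v : ℝ) ^ (-s) else 0

open Classical in
/-- the term of `w` for the primes with decomposition group `H` -/
noncomputable def tt (H : Subgroup Gal(M/ℚ)) (s : ℝ) (w : HeightOneSpectrum (𝓞 M)) : ℝ :=
  if U M (pr w) ∧ Dec w = H then (Nat.card H : ℝ) * (pr w : ℝ) ^ (-s) else 0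

theorem ta_nonneg (H : Subgroup Gal(M/ℚ)) (s : ℝ) (w : HeightOneSpectrum (𝓞 M)) :
    0 ≤ ta H s w := by
  unfold ta; split_ifs <;> positivity

theorem tt_nonneg (H : Subgroup Gal(M/ℚ)) (s : ℝ) (w : HeightOneSpectrum (𝓞 M)) :
    0 ≤ tt H s w := by
  unfold tt; split_ifs <;> positivity

theorem tb_nonneg (H : Subgroup Gal(M/ℚ)) (s : ℝ) (v : HeightOneSpectrum (𝓞 (Fix H))) :
    0 ≤ tb H s v := by
  unfold tb; split_ifs <;> positivity

theorem summable_ta (H : Subgroup Gal(M/ℚ)) {s : ℝ} (hs : 1 < s) : Summable (ta H s) := by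
  refine Summable.of_nonneg_of_le (ta_nonneg H s) (fun w => ?_)
    ((summable_pr hs).mul_left (Nat.card Gal(M/ℚ) : ℝ))
  unfold ta
  split_ifs
  · gcongr
    exact Subgroup.card_le_card_group _
  · positivity

theorem summable_tt (H : Subgroup Gal(M/ℚ)) {s : ℝ} (hs : 1 < s) : Summable (tt H s) := by
  refine Summable.of_nonneg_of_le (tt_nonneg H s) (fun w => ?_)
    ((summable_pr hs).mul_left (Nat.card Gal(M/ℚ) : ℝ))
  unfold tt
  split_ifs
  · gcongr
    exact Subgroup.card_le_card_group _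
  · positivity

theorem summable_tb (H : Subgroup Gal(M/ℚ)) {s : ℝ} (hs : 1 < s) : Summable (tb H s) := by
  refine Summable.of_nonneg_of_le (tb_nonneg H s) (fun w => ?_) (summable_pr hs)
  unfold tb
  split_ifs
  · exact le_rfl
  · positivity

theorem sum_ta (H : Subgroup Gal(M/ℚ)) {s : ℝ} (hs : 1 < s) :
    ∑' w, ta H s w = Nat.card H * ∑' v, tb H s v := by
  rw [← (HasSum.tsum_fiberwise (summable_ta H hs).hasSum (dn H)).tsum_eq, ← tsum_mul_left]
  refine tsum_congr fun v => ?_
  by_cases hv : U M (pr v) ∧ dg v = 1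
  · have h1 : ∀ w : (dn H ⁻¹' {v} : Set (HeightOneSpectrum (𝓞 M))),
        ta H s w.1 = (Nat.card (Dec w.1) : ℝ) * (pr v : ℝ) ^ (-s) := by
      rintro ⟨w, hw⟩
      have hw' : dn H w = v := hw
      subst hw'
      rw [pr_dn] at hv
      have hr := hv.1 w rfl
      unfold ta
      rw [if_pos ⟨hv.1, (deg_one_iff H w hr).mp hv.2⟩, pr_dn]
    rw [tsum_congr h1, tsum_mul_right]
    have h2 := fiber_sum H v hv.2 (fun w hw => hv.1 w (by rw [← hw, pr_dn]))
    have h3 : ∑' w : (dn H ⁻¹' {v} : Set (HeightOneSpectrum (𝓞 M))), (Nat.card (Dec w.1) : ℝ) =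
        Nat.card H := h2
    rw [h3, tb, if_pos hv]
  · have h1 : ∀ w : (dn H ⁻¹' {v} : Set (HeightOneSpectrum (𝓞 M))), ta H s w.1 = 0 := by
      rintro ⟨w, hw⟩
      have hw' : dn H w = v := hw
      subst hw'
      unfold ta
      rw [if_neg]
      rintro ⟨h2, h3⟩
      exact hv ⟨by rw [pr_dn]; exact h2, (deg_one_iff H w (h2 w rfl)).mpr h3⟩
    rw [tsum_congr h1, tsum_zero, tb, if_neg hv, mul_zero]

theorem badv_finite (H : Subgroup Gal(M/ℚ)) :
    {v : HeightOneSpectrum (𝓞 (Fix H)) | ¬ U M (pr v)}.Finite := by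
  have h1 : ∀ p : ℕ, {v : HeightOneSpectrum (𝓞 (Fix H)) | pr v = p}.Finite := fun p =>
    Set.finite_coe_iff.mp (fiber_finite p)
  refine ((bad_finite (M := M)).biUnion fun p _ => h1 p).subset ?_
  intro v hv
  simp only [Set.mem_iUnion]
  exact ⟨pr v, hv, rfl⟩

theorem sum_tb (H : Subgroup Gal(M/ℚ)) : ∃ C : ℝ, ∀ s : ℝ, 1 < s →
    |∑' v : HeightOneSpectrum (𝓞 (Fix H)), x s v - ∑' v, tb H s v| ≤ C := by
  classical
  have hfin := badv_finite H
  let ind : HeightOneSpectrum (𝓞 (Fix H)) → ℝ := fun v => if ¬ U M (pr v) then 1 else 0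
  have hind : Summable ind := by
    refine summable_of_hasFiniteSupport (hfin.subset ?_)
    intro v hv
    by_contra h
    exact hv (if_neg h)
  have h2 : Summable fun v : HeightOneSpectrum (𝓞 (Fix H)) => ((pr v : ℝ)) ^ (-2 : ℝ) :=
    summable_pr (by norm_num)
  refine ⟨∑' v : HeightOneSpectrum (𝓞 (Fix H)), (((pr v : ℝ)) ^ (-2 : ℝ) + ind v), ?_⟩
  intro s hs
  have hx := summable_x (K := Fix H) hs
  have hb := summable_tb H hs
  rw [← hx.tsum_sub hb]
  have key : ∀ v : HeightOneSpectrum (𝓞 (Fix H)), 0 ≤ x s v - tb H s v ∧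
      x s v - tb H s v ≤ ((pr v : ℝ)) ^ (-2 : ℝ) + ind v := by
    intro v
    have hp1 : (1 : ℝ) ≤ pr v := by exact_mod_cast (pr_prime v).one_le
    have hnn : 0 ≤ ((pr v : ℝ)) ^ (-2 : ℝ) := by positivity
    have hxp := x_pos s v
    have hi : 0 ≤ ind v := by
      show 0 ≤ (if ¬ U M (pr v) then (1 : ℝ) else 0)
      split_ifs <;> norm_num
    by_cases hv : U M (pr v) ∧ dg v = 1
    · have : x s v = tb H s v := by
        rw [tb, if_pos hv]
        unfold x
        rw [norm_eq, hv.2, pow_one]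
      rw [this, sub_self]
      exact ⟨le_rfl, by positivity⟩
    · have htb : tb H s v = 0 := by rw [tb, if_neg hv]
      rw [htb, sub_zero]
      refine ⟨hxp.le, ?_⟩
      by_cases hu : U M (pr v)
      · have hd : dg v ≠ 1 := fun h => hv ⟨hu, h⟩
        have hd2 : 2 ≤ dg v := by have := dg_pos v; omega
        have : x s v ≤ ((pr v : ℝ)) ^ (-2 : ℝ) := by
          unfold x
          rw [norm_eq, Nat.cast_pow, ← Real.rpow_natCast, ← Real.rpow_mul (by positivity)]
          refine Real.rpow_le_rpow_of_exponent_le hp1 ?_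
          have : (2 : ℝ) ≤ dg v := by exact_mod_cast hd2
          nlinarith
        linarith
      · have : ind v = 1 := if_pos hu
        rw [this]
        have := x_le hs.le v
        linarith
  have hsum : Summable fun v => x s v - tb H s v := hx.sub hb
  rw [abs_of_nonneg (tsum_nonneg fun v => (key v).1)]
  exact hsum.tsum_le_tsum (fun v => (key v).2) (h2.add hind)

end Pool.Agent.Lib_helper28.FROB


end

section

/-!
# Frobenius: induction over the subgroups
-/

open NumberField IsDedekindDomain Ideal MulAction Filter Topology Asymptotics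
open scoped Pointwise

namespace Pool.Agent.Lib_helper28.FROB

variable {M : Type*} [Field M] [NumberField M] [IsGalois ℚ M]

set_option linter.unusedSectionVars false

theorem isBigO_tb (H : Subgroup Gal(M/ℚ)) :
    (fun s : ℝ => ∑' v, tb H s v - Real.log (1 / (s - 1))) =O[𝓝[>] 1] (fun _ => (1 : ℝ)) := by
  obtain ⟨C, hC⟩ := sum_tb H
  have h1 : (fun s : ℝ => ∑' v : HeightOneSpectrum (𝓞 (Fix H)), x s v - ∑' v, tb H s v)
      =O[𝓝[>] 1] (fun _ => (1 : ℝ)) := by
    refine IsBigO.of_bound C ?_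
    filter_upwards [self_mem_nhdsWithin] with s hs
    rw [norm_one, mul_one, Real.norm_eq_abs]
    exact hC s hs
  refine ((isBigO_sum (K := Fix H)).sub h1).congr_left fun s => ?_
  ring

theorem isBigO_ta (H : Subgroup Gal(M/ℚ)) :
    (fun s : ℝ => ∑' w, ta H s w - Nat.card H * Real.log (1 / (s - 1)))
      =O[𝓝[>] 1] (fun _ => (1 : ℝ)) := by
  refine ((isBigO_tb H).const_mul_left (Nat.card H : ℝ)).congr' ?_ EventuallyEq.rfl
  filter_upwards [self_mem_nhdsWithin] with s hs
  rw [sum_ta H hs, mul_sub]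

/-- the number of generators of `H` -/
noncomputable def gen {G : Type*} [Group G] (H : Subgroup G) : ℕ :=
  Nat.card {h : G // Subgroup.zpowers h = H}

open Classical in
theorem sum_gen {G : Type*} [Group G] [Fintype (Subgroup G)] [Finite G] (H : Subgroup G) :
    ∑ H' : Subgroup G with H' ≤ H, gen H' = Nat.card H := by
  have := Fintype.ofFinite G
  have h1 : Nat.card H = (Finset.univ.filter fun h : G => h ∈ H).card := by
    rw [← Fintype.card_subtype, Nat.card_eq_fintype_card]
  rw [h1, Finset.card_eq_sum_card_fiberwise (f := fun h : G => Subgroup.zpowers h)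
    (t := Finset.univ.filter fun H' : Subgroup G => H' ≤ H)]
  · refine Finset.sum_congr rfl fun H' hH' => ?_
    have hle : H' ≤ H := (Finset.mem_filter.mp hH').2
    unfold gen
    rw [Nat.card_eq_fintype_card, Fintype.card_subtype]
    congr 1
    ext h
    simp only [Finset.mem_filter, Finset.mem_univ, true_and]
    constructor
    · intro e
      exact ⟨hle (e ▸ Subgroup.mem_zpowers h), e⟩
    · exact fun e => e.2
  · intro h hh
    simp only [Finset.coe_filter, Finset.mem_univ, true_and, Set.mem_ofPred_eq] at hh ⊢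
    exact Subgroup.zpowers_le.mpr hh

open Classical in
theorem sum_tt [Fintype (Subgroup Gal(M/ℚ))] (H : Subgroup Gal(M/ℚ)) (s : ℝ)
    (w : HeightOneSpectrum (𝓞 M)) :
    ∑ H' : Subgroup Gal(M/ℚ) with H' ≤ H, tt H' s w = ta H s w := by
  by_cases h : U M (pr w) ∧ Dec w ≤ H
  · rw [Finset.sum_eq_single (Dec w)]
    · rw [tt, if_pos ⟨h.1, rfl⟩, ta, if_pos h]
    · intro H' _ hne
      rw [tt, if_neg]
      exact fun h' => hne h'.2.symm
    · intro hn
      refine absurd ?_ hn
      rw [Finset.mem_filter]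
      exact ⟨Finset.mem_univ _, h.2⟩
  · rw [ta, if_neg h]
    refine Finset.sum_eq_zero fun H' hH' => ?_
    rw [tt, if_neg]
    rintro ⟨h1, h2⟩
    exact h ⟨h1, h2 ▸ (Finset.mem_filter.mp hH').2⟩

open Classical in
theorem sum_sum_tt [Fintype (Subgroup Gal(M/ℚ))] (H : Subgroup Gal(M/ℚ)) {s : ℝ} (hs : 1 < s) :
    ∑ H' : Subgroup Gal(M/ℚ) with H' ≤ H, ∑' w, tt H' s w = ∑' w, ta H s w := by
  rw [← Summable.tsum_finsetSum fun H' _ => summable_tt H' hs]
  exact tsum_congr fun w => sum_tt H s w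

theorem isBigO_tt (H : Subgroup Gal(M/ℚ)) :
    (fun s : ℝ => ∑' w, tt H s w - gen H * Real.log (1 / (s - 1)))
      =O[𝓝[>] 1] (fun _ => (1 : ℝ)) := by
  classical
  have := Fintype.ofFinite (Subgroup Gal(M/ℚ))
  induction H using WellFoundedLT.induction with
  | ind H ih =>
  have hsplit : (Finset.univ.filter fun H' : Subgroup Gal(M/ℚ) => H' ≤ H) =
      insert H (Finset.univ.filter fun H' : Subgroup Gal(M/ℚ) => H' < H) := by
    ext H'
    simp only [Finset.mem_filter, Finset.mem_univ, true_and, Finset.mem_insert]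
    exact le_iff_eq_or_lt
  have hnot : H ∉ (Finset.univ.filter fun H' : Subgroup Gal(M/ℚ) => H' < H) := by simp
  have h1 : (fun s : ℝ => ∑ H' : Subgroup Gal(M/ℚ) with H' < H,
      (∑' w, tt H' s w - gen H' * Real.log (1 / (s - 1)))) =O[𝓝[>] 1] (fun _ => (1 : ℝ)) := by
    refine IsBigO.fun_sum fun H' hH' => ih H' (Finset.mem_filter.mp hH').2
  refine ((isBigO_ta H).sub h1).congr' ?_ EventuallyEq.rfl
  filter_upwards [self_mem_nhdsWithin] with s hs
  have h2 := sum_sum_tt H hs
  have h3 := sum_gen H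
  rw [hsplit, Finset.sum_insert hnot] at h2 h3
  have h4 : (Nat.card H : ℝ) = gen H +
      ∑ H' : Subgroup Gal(M/ℚ) with H' < H, (gen H' : ℝ) := by
    rw [← h3]; push_cast; rfl
  rw [← h2, h4, Finset.sum_sub_distrib, ← Finset.sum_mul]
  ring

end Pool.Agent.Lib_helper28.FROB


end
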