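import Mathlib
import Pool.Agent.MVF.C042
import Pool.Agent.MVF.C045

/-! Parts: ME.C_CMM, MUX.C_BAD, MU3.W_HTOT, MUX.R3_JEQ -/

namespace Pool.Agent.MEC.CMM
end Pool.Agent.MEC.CMM
namespace Pool.Agent.MUXC.BAD
end Pool.Agent.MUXC.BAD

section

/-!
# ME, block CE (port of `MUX/C_X.lean`): module CMM, the field `comm` of `TorXE`
-/

set_option autoImplicit false

open Polynomial NumberField IsDedekindDomain

namespace Pool.Agent.MEC

open _root_.Pool.Agent.ME
open _root_.Pool.Agent.MUXC (Sc_CLF Sc_COP Sc_TRO Sc_GEN Sc_ENO Sc_INV Sc_QCR Sc_QEX Sc_QNE Sc_ISL Sc_FEX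
  Sc_RP1 Sc_RP2 Sc_RP3 Sc_REP Sc_DNX Sc_NMC)
open _root_.MU3 _root_.Pool.Agent.MU3A _root_.Pool.Agent.MU3B _root_.Pool.Agent.MUX _root_.Pool.Agent.MUXU _root_.Pool.Agent.RI

noncomputable section

namespace CMM

variable {A B : ℤ}

theorem fin (h : CQ A B) : FiniteDimensional ℚ (kk A B) := by
  have h1 : IsIntegral ℚ (wC A B) := by
    refine ⟨X ^ 2 - C (B : ℚ) * X - C (A : ℚ), ?_, ?_⟩
    · monicity!
    · simp only [eval₂_sub, eval₂_mul, eval₂_pow, eval₂_X, eval₂_C]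
      rw [pow_two, Pool.Agent.MUX.wC_sq h]
      simp
  exact IntermediateField.adjoin.finiteDimensional h1

/-- automorphisms of `F / k` extend to `ℂ` -/
theorem ext (hAUE : Su_AUE) (h : CQ A B) (F : IntermediateField (kk A B) ℂ)
    [FiniteDimensional (kk A B) F] (σ : F ≃ₐ[kk A B] F) :
    ∃ s : ℂ ≃+* ℂ, FixK A B s ∧ ∀ x : F, s (x : ℂ) = ((σ x : F) : ℂ) := by
  have h2 : FiniteDimensional ℚ (kk A B) := fin h
  have h3 : FiniteDimensional ℚ F := FiniteDimensional.trans ℚ (kk A B) F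
  have h4 : FiniteDimensional ℚ (F.restrictScalars ℚ) := h3
  have hF : Algebra.IsAlgebraic ℚ (F.restrictScalars ℚ) := Algebra.IsAlgebraic.of_finite ℚ _
  obtain ⟨s, hs⟩ := hAUE (F.restrictScalars ℚ) hF
    { toFun := fun x => ((σ ⟨x.1, x.2⟩ : F) : ℂ)
      map_one' := by
        change ((σ (1 : F) : F) : ℂ) = 1
        rw [map_one]; rfl
      map_mul' := fun x y => by
        change ((σ ((⟨x.1, x.2⟩ : F) * ⟨y.1, y.2⟩) : F) : ℂ) = _
        rw [map_mul]; rfl
      map_zero' := by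
        change ((σ (0 : F) : F) : ℂ) = 0
        rw [map_zero]; rfl
      map_add' := fun x y => by
        change ((σ ((⟨x.1, x.2⟩ : F) + ⟨y.1, y.2⟩) : F) : ℂ) = _
        rw [map_add]; rfl }
  have hs' : ∀ x : F, s (x : ℂ) = ((σ x : F) : ℂ) := fun x => hs ⟨x.1, x.2⟩
  refine ⟨s, ?_, hs'⟩
  have hw : wC A B ∈ kk A B := IntermediateField.mem_adjoin_simple_self ℚ (wC A B)
  have h5 := hs' (algebraMap (kk A B) F ⟨wC A B, hw⟩)
  rw [AlgEquiv.commutes] at h5
  exact h5


/-- the target lattice may be replaced by any other normalised lattice -/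
theorem ActE.change (h4 : Sc_SGQ) {m a : Ideal (OO A B)} {σ : ℂ ≃+* ℂ} {L L' L'' : PeriodPair}
    {mu : ℂ} (h : ActE σ m a L L' mu) (h' : NrmE A B L') (h'' : NrmE A B L'') :
    ActE σ m a L L'' mu := by
  obtain ⟨e1, e2, e3⟩ := h4 A B L' L'' h' h''
  refine ⟨?_, h.cop, ⟨h.isq.1, fun z => ?_⟩, fun z hz => ?_⟩
  · rw [← e2]
    exact h.kapE
  · rw [← e1]
    exact h.isq.2 z
  · rcases h.act z hz with f | ⟨f1, f2, f3, f4⟩
    · exact Or.inl ⟨f.1, (e1 _).1 f.2⟩
    · refine Or.inr ⟨f1, fun h => f2 ((e1 _).2 h), ?_, ?_⟩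
      · rw [f3, (e3 _).1]
      · rw [f4, (e3 _).2]

end CMM

open _root_.Pool.Agent.MEC.CMM in
theorem tc_CMM (h1 : Sc_FGL) (h2 : Sc_ACT) (h3 : Sc_CMP) (h4 : Sc_SGQ) (h5 : Su_AUE) :
    Sc_CMM := by
  intro A B hC m hm σ τ
  have : FiniteDimensional (kk A B) (RFE m) := (h1 A B hC m hm).1
  obtain ⟨s, hs, hsσ⟩ := ext h5 hC (RFE m) σ
  obtain ⟨t, ht, htτ⟩ := ext h5 hC (RFE m) τ
  obtain ⟨a, -, ha⟩ := h2 A B hC m hm s hs
  obtain ⟨b, -, hb⟩ := h2 A B hC m hm t ht
  -- the two orders agree on the generators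
  have key : ∀ x ∈ genS (A := A) (B := B) m, s (t x) = t (s x) := by
    rintro x ⟨c, L, om, hL, hx⟩
    obtain ⟨c1, L1, om1, n1, hL1, k1⟩ := hb c L om hL
    obtain ⟨c2, L2, om2, n2, hL2, k2⟩ := ha c L om hL
    have k1' := ActE.change h4 k1 hL1.nrm hL.nrm
    have k2' := ActE.change h4 k2 hL2.nrm hL.nrm
    have e1 := h3 A B hC m b a t s L L L n1 n2 k1' k2'
    have e2 := h3 A B hC m a b s t L L L n2 n1 k2' k1'
    rcases hx with rfl | ⟨z, hz, hzL, rfl⟩
    · have f1 := e1.kapE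
      have f2 := e2.kapE
      rw [RingEquiv.trans_apply] at f1 f2
      rw [← f1, ← f2]
    · rcases e1.act z hz with f1 | f1
      · exact absurd f1.1 hzL
      rcases e2.act z hz with f2 | f2
      · exact absurd f2.1 hzL
      have g1 := f1.2.2.1
      have g2 := f2.2.2.1
      rw [RingEquiv.trans_apply] at g1 g2
      rw [g1, g2, mul_comm n1 n2]
  have hH : (σ * τ).toAlgHom = (τ * σ).toAlgHom := by
    refine IntermediateField.algHom_ext_of_eq_adjoin (kk A B) (S := RFE m)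
      (s := genS (A := A) (B := B) m) rfl ?_
    intro x hx
    apply Subtype.ext
    have hx' : x ∈ (RFE m : IntermediateField (kk A B) ℂ) := IntermediateField.subset_adjoin _ _ hx
    change ((σ (τ ⟨x, hx'⟩) : RFE m) : ℂ) = ((τ (σ ⟨x, hx'⟩) : RFE m) : ℂ)
    rw [← hsσ, ← htτ, ← htτ, ← hsσ]
    exact key x hx
  ext1 x
  exact congrArg (fun φ : RFE m →ₐ[kk A B] RFE m => φ x) hH

end

end Pool.Agent.MEC


end

section

/-!
# MUX, block XC, module BAD: the bad primes (helper2)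
-/

set_option autoImplicit false

open Polynomial NumberField IsDedekindDomain

namespace Pool.Agent.MUXC

open _root_.MU3 _root_.Pool.Agent.MU3A _root_.Pool.Agent.MU3B _root_.Pool.Agent.MUX _root_.Pool.Agent.MUXU _root_.Pool.Agent.RI
open _root_.Pool.Agent.MUXE (NL Sxe_RNG)

noncomputable section

namespace BAD

variable {A B : ℤ}

/-- `k` is algebraic over `ℚ` -/
theorem kk_alg (h : CQ A B) : Algebra.IsAlgebraic ℚ (kk A B) := by
  have hw : wC A B ^ 2 = A + B * wC A B := by rw [sq]; exact _root_.Pool.Agent.MUX.wC_sq h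
  refine IntermediateField.isAlgebraic_adjoin fun x hx => ?_
  rw [Set.mem_singleton_iff] at hx
  subst hx
  refine ⟨Polynomial.X ^ 2 - (Polynomial.C (B : ℚ) * Polynomial.X + Polynomial.C (A : ℚ)), ?_, ?_⟩
  · apply Polynomial.monic_X_pow_sub
    exact lt_of_le_of_lt Polynomial.degree_linear_le (by norm_num)
  · rw [Polynomial.eval₂_sub, Polynomial.eval₂_pow, Polynomial.eval₂_X, Polynomial.eval₂_add,
      Polynomial.eval₂_mul, Polynomial.eval₂_C, Polynomial.eval₂_C, Polynomial.eval₂_X, map_intCast,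
      map_intCast, hw]
    ring

/-- natural numbers are in every valuation ring -/
theorem v_nat_le (V : ValuationSubring ℂ) (n : ℕ) : V.valuation (n : ℂ) ≤ 1 :=
  (ValuationSubring.valuation_le_one_iff _ _).2 (natCast_mem V n)

theorem v_mul_one (V : ValuationSubring ℂ) {n m : ℕ} (h : V.valuation ((n * m : ℕ) : ℂ) = 1) :
    V.valuation (n : ℂ) = 1 ∧ V.valuation (m : ℂ) = 1 := by
  rw [Nat.cast_mul, map_mul] at h
  have h1 := v_nat_le V n
  have h2 := v_nat_le V m
  constructor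
  · refine le_antisymm h1 ?_
    rw [← h]
    calc V.valuation (n : ℂ) * V.valuation (m : ℂ) ≤ V.valuation (n : ℂ) * 1 :=
          mul_le_mul_right h2 _
      _ = _ := mul_one _
  · refine le_antisymm h2 ?_
    rw [← h]
    calc V.valuation (n : ℂ) * V.valuation (m : ℂ) ≤ 1 * V.valuation (m : ℂ) :=
          mul_le_mul_left h1 _
      _ = _ := one_mul _

/-- finitely many nonzero algebraic numbers are units outside finitely many primes -/
theorem fin_unit (hALU : MUXV.Sq_ALU) {T : Set ℂ} (hT : T.Finite) :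
    (∀ x ∈ T, IsAlgebraic ℚ x ∧ x ≠ 0) → ∃ n : ℕ, n ≠ 0 ∧ ∀ V : ValuationSubring ℂ,
      V.valuation (n : ℂ) = 1 → ∀ x ∈ T, V.valuation x = 1 := by
  induction T, hT using Set.Finite.induction_on with
  | empty =>
    intro _
    exact ⟨1, one_ne_zero, fun V _ x hx => absurd hx (Set.notMem_empty x)⟩
  | insert _ _ ih =>
    intro h
    obtain ⟨n, hn, h1⟩ := ih fun x hx => h x (Set.mem_insert_of_mem _ hx)
    obtain ⟨ha, ha0⟩ := h _ (Set.mem_insert _ _)
    obtain ⟨m, hm, h2⟩ := hALU _ ha ha0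
    refine ⟨n * m, mul_ne_zero hn hm, fun V hV x hx => ?_⟩
    obtain ⟨e1, e2⟩ := v_mul_one V hV
    rcases Set.mem_insert_iff.1 hx with rfl | hx
    · exact h2 V e2
    · exact h1 V e1 x hx

/-- `κ ≠ 0` and `g₂ ≠ 0` for a normalised lattice -/
theorem kap_ne (L : PeriodPair) (h : L.g₂ = -18 * L.g₃) : kap L ≠ 0 ∧ 12 * L.g₂ ≠ 0 := by
  have h1 := (b_DSC L).1
  have h2 : L.g₃ = -L.g₂ / 18 := by rw [h]; ring
  rw [h2] at h1
  constructor
  · intro h0
    apply h1
    unfold kap at h0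
    have h3 : 12 * L.g₂ - 1 = 0 := by
      have := h0
      field_simp at this
      linear_combination this
    linear_combination (L.g₂ ^ 2 / 12) * h3
  · intro h0
    apply h1
    have h3 : L.g₂ = 0 := by linear_combination h0 / 12
    rw [h3]; ring

end BAD

open _root_.Pool.Agent.MUXC.BAD in
/-- (BAD) a number `n₀` such that at all `V` where `n₀` is a unit everything is good -/
theorem tc_BAD (hFNG : Sc_FNG) (hFGL : Sc_FGL) (hALU : MUXV.Sq_ALU) (hNGR : MUXV.Sx_NGR) :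
    Sc_BAD := by
  intro A B hC
  have hdom := isDomain hC
  have htop : (⊤ : Ideal (OO A B)) ≠ ⊥ := top_ne_bot
  have hfin := hFNG A B hC ⊤ htop
  obtain ⟨hfd, -, -⟩ := hFGL A B hC ⊤ htop
  have hkk := kk_alg hC
  -- all generators are algebraic
  have halg : ∀ c ∈ genS (⊤ : Ideal (OO A B)), IsAlgebraic ℚ c := by
    intro c hc
    have hmem : c ∈ (RF (⊤ : Ideal (OO A B)) : IntermediateField (kk A B) ℂ) :=
      IntermediateField.subset_adjoin _ _ hc
    have h1 : IsAlgebraic (kk A B)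
        (⟨c, hmem⟩ : (RF (⊤ : Ideal (OO A B)) : IntermediateField (kk A B) ℂ)) :=
      Algebra.IsAlgebraic.isAlgebraic _
    have h2 : IsAlgebraic (kk A B) c := h1.algebraMap (A := ℂ)
    exact h2.restrictScalars ℚ
  let S : Set ℂ := {κ | ∃ (b : Ideal (OO A B)) (L : PeriodPair) (om : ℂ), IsNL b L om ∧ κ = kap L}
  have hSsub : S ⊆ genS (⊤ : Ideal (OO A B)) := by
    rintro κ ⟨b, L, om, hL, rfl⟩
    exact ⟨b, L, om, hL, Or.inl rfl⟩
  have hSfin : S.Finite := hfin.subset hSsub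
  have hSalg : ∀ κ ∈ S, IsAlgebraic ℚ κ := fun κ h => halg κ (hSsub h)
  have hQ : ∀ q : ℚ, IsAlgebraic ℚ (q : ℂ) := fun q => by
    have := isAlgebraic_algebraMap (R := ℚ) (A := ℂ) q
    simpa using this
  let T : Set ℂ := ({2, 3, ((B ^ 2 + 4 * A : ℤ) : ℂ)} ∪ S) ∪ ((fun κ => 1 + 1728 * κ) '' S) ∪
    {x | ∃ κ ∈ S, ∃ κ' ∈ S, κ ≠ κ' ∧ x = κ - κ'}
  have hTfin : T.Finite := by
    refine ((Set.Finite.union (Set.toFinite _) hSfin).union (hSfin.image _)).union ?_
    refine (Set.Finite.image2 (fun κ κ' => κ - κ') hSfin hSfin).subset ?_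
    rintro x ⟨κ, hκ, κ', hκ', -, rfl⟩
    exact ⟨κ, hκ, κ', hκ', rfl⟩
  have hneg : (B ^ 2 + 4 * A : ℤ) ≠ 0 := by
    have := hC.neg
    omega
  have hT : ∀ x ∈ T, IsAlgebraic ℚ x ∧ x ≠ 0 := by
    rintro x (((h | h) | ⟨κ, h, rfl⟩) | ⟨κ, h, κ', h', hne, rfl⟩)
    · rcases h with rfl | rfl | rfl
      · exact ⟨by simpa using hQ 2, by norm_num⟩
      · exact ⟨by simpa using hQ 3, by norm_num⟩
      · refine ⟨?_, by exact_mod_cast hneg⟩
        have := hQ ((B ^ 2 + 4 * A : ℤ) : ℚ)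
        simpa using this
    · refine ⟨hSalg x h, ?_⟩
      obtain ⟨b, L, om, hL, rfl⟩ := h
      exact (kap_ne L hL.nrm).1
    · refine ⟨?_, ?_⟩
      · have h1 : IsAlgebraic ℚ (1 : ℂ) := by simpa using hQ 1
        have h2 : IsAlgebraic ℚ (1728 : ℂ) := by simpa using hQ 1728
        exact h1.add (h2.mul (hSalg κ h))
      · obtain ⟨b, L, om, hL, rfl⟩ := h
        have := (kap_ne L hL.nrm).2
        unfold kap
        intro h0
        apply this
        linear_combination h0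
    · exact ⟨(hSalg κ h).sub (hSalg κ' h'), sub_ne_zero.2 hne⟩
  obtain ⟨n₀, hn₀, hV⟩ := fin_unit hALU hTfin hT
  refine ⟨n₀, hn₀, fun V hv => ?_⟩
  have h := hV V hv
  have h2 : V.valuation 2 = 1 := h _ (Or.inl (Or.inl (Or.inl (Or.inl rfl))))
  refine ⟨h2, h _ (Or.inl (Or.inl (Or.inl (Or.inr (Or.inl rfl))))),
    h _ (Or.inl (Or.inl (Or.inl (Or.inr (Or.inr rfl))))), fun b L om hL => ?_,
    fun b b' L L' om om' hL hL' hlt => ?_⟩
  · have hS : kap L ∈ S := ⟨b, L, om, hL, rfl⟩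
    have hk : V.valuation (kap L) = 1 := h _ (Or.inl (Or.inl (Or.inr hS)))
    have hg : V.valuation (12 * L.g₂) = 1 := by
      have h3 : 12 * L.g₂ = 1 + 1728 * kap L := by
        unfold kap
        ring
      rw [h3]
      exact h _ (Or.inl (Or.inr ⟨_, hS, rfl⟩))
    exact ⟨hk, hg, hNGR V L hL.nrm h2 hk hg⟩
  · by_contra hne
    have h3 : V.valuation (kap L - kap L') = 1 :=
      h _ (Or.inr ⟨_, ⟨b, L, om, hL, rfl⟩, _, ⟨b', L', om', hL', rfl⟩, hne, rfl⟩)
    rw [h3] at hlt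
    exact lt_irrefl _ hlt

end

end Pool.Agent.MUXC


end

section

/-!
# MU3, block V, HTOT: total ramification of `F_(m lam) / F_m` at the primes above `lam`
-/

set_option autoImplicit false

open NumberField IsDedekindDomain

namespace Pool.Agent.MU3V

open _root_.MU3 _root_.Pool.Agent.MU3A _root_.Pool.Agent.MU3B _root_.Pool.Agent.MU3C

namespace HTOT

/-- a lower bound for the number of elements of the inertia group -/
lemma inertia_card (k F : Type) [Field k] [NumberField k] [Field F] [NumberField F] [Algebra k F]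
    [IsGalois k F] (w : HeightOneSpectrum (𝓞 F)) (l : 𝓞 k)
    (hl : w.asIdeal.under (𝓞 k) = Ideal.span {l}) (hl0 : l ≠ 0) (t : F) (n : ℕ)
    (ht : w.valuation F t ^ n = w.valuation F (algebraMap k F (l : k))) :
    n ≤ Nat.card (w.asIdeal.inertia Gal(F/k)) := by
  have hwp : w.asIdeal.IsPrime := w.isPrime
  have hpp : (w.asIdeal.under (𝓞 k)).IsPrime := inferInstance
  have hpb : w.asIdeal.under (𝓞 k) ≠ ⊥ := by
    rw [hl]
    simpa using hl0
  let v : HeightOneSpectrum (𝓞 k) := ⟨w.asIdeal.under (𝓞 k), hpp, hpb⟩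
  have hlo : w.asIdeal.LiesOver v.asIdeal := ⟨rfl⟩
  have hfin : Finite (𝓞 k ⧸ v.asIdeal) := Ideal.finiteQuotientOfFreeOfNeBot _ hpb
  have hmax : v.asIdeal.IsMaximal := v.isMaximal
  have hfr : Finite v.asIdeal.ResidueField := inferInstance
  have hperf : PerfectField v.asIdeal.ResidueField := inferInstance
  have h1 : Nat.card (w.asIdeal.inertia Gal(F/k)) = v.asIdeal.ramificationIdx' w.asIdeal := by
    rw [Ideal.card_inertia_eq_ramificationIdxIn (R := 𝓞 k) v.asIdeal w.asIdeal,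
      Ideal.ramificationIdxIn_eq_ramificationIdx v.asIdeal w.asIdeal Gal(F/k),
      Ideal.ramificationIdx'_eq_ramificationIdx v.asIdeal w.asIdeal hpb]
  have h2 : v.valuation k (l : k) = WithZero.exp (-1 : ℤ) := by
    rw [HeightOneSpectrum.valuation_of_algebraMap]
    exact HeightOneSpectrum.intValuation_singleton v hl0 hl
  have h3 := HeightOneSpectrum.valuation_liesOver F v w (l : k)
  rw [h2, ← ht] at h3
  rw [h1]
  set e := v.asIdeal.ramificationIdx' w.asIdeal with he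
  have hpos : 0 < e := Nat.pos_of_ne_zero
    (Ideal.IsDedekindDomain.ramificationIdx'_ne_zero_of_liesOver w.asIdeal v.ne_bot)
  by_cases hn : n = 0
  · omega
  have ht0 : w.valuation F t ≠ 0 := by
    intro h0
    rw [h0, zero_pow hn] at h3
    exact (pow_ne_zero e (WithZero.exp_ne_zero (a := (-1 : ℤ)))) h3
  obtain ⟨j, hj⟩ : ∃ j : ℤ, w.valuation F t = WithZero.exp j :=
    ⟨WithZero.log (w.valuation F t), (WithZero.exp_log ht0).symm⟩
  rw [hj, ← WithZero.exp_nsmul, ← WithZero.exp_nsmul, WithZero.exp_inj, nsmul_eq_mul,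
    nsmul_eq_mul] at h3
  have h4 : (e : ℤ) = n * (-j) := by linarith
  have h5 : 0 < -j := by
    by_contra h6
    push Not at h6
    have : (n : ℤ) * (-j) ≤ 0 := mul_nonpos_of_nonneg_of_nonpos (by positivity) h6
    omega
  have h6 : (n : ℤ) ≤ e := by
    rw [h4]
    nlinarith [(by positivity : (0 : ℤ) ≤ n)]
  exact_mod_cast h6

/-- `w` lies above the prime `lam` of `k` -/
lemma under_eq {A B : ℤ} (h : Case A B) [NumberField (kk A B)]
    (hint : ∀ x : ℂ, x ∈ kk A B → (IsIntegral ℤ x ↔ ∃ y : OO A B, x = emb y))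
    [IsDomain (OO A B)] [IsPrincipalIdealRing (OO A B)]
    (F : IntermediateField (kk A B) ℂ) [NumberField F] (w : Ideal (𝓞 F)) (hwp : w.IsPrime)
    (lam : OO A B) (hlam : Prime lam) (l : 𝓞 (kk A B)) (hl : ((l : kk A B) : ℂ) = emb lam)
    (y : 𝓞 F) (hyw : y ∈ w) (hy : ((y : F) : ℂ) = emb lam) :
    w.under (𝓞 (kk A B)) = Ideal.span {l} := by
  have hI : ∀ x : OO A B, IsIntegral ℤ (ek x) := by
    intro x
    have h2 : IsIntegral ℤ (emb x) := (hint (emb x) (emb_mem x)).mpr ⟨x, rfl⟩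
    have h3 : algebraMap (kk A B) ℂ (ek x) = emb x := rfl
    rw [← h3] at h2
    exact (isIntegral_algebraMap_iff (FaithfulSMul.algebraMap_injective (kk A B) ℂ)).mp h2
  have hoi : ∀ c : OO A B, ∃ z : 𝓞 (kk A B), ((z : kk A B) : ℂ) = emb c :=
    fun c => ⟨⟨ek c, hI c⟩, rfl⟩
  have hly : algebraMap (𝓞 (kk A B)) (𝓞 F) l = y := by
    apply RingOfIntegers.ext
    apply Subtype.ext
    rw [hy]
    exact hl
  have hlmem : l ∈ w.under (𝓞 (kk A B)) := by
    rw [Ideal.mem_under, hly]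
    exact hyw
  apply le_antisymm
  · intro z hz
    have h2 : IsIntegral ℤ ((z : kk A B) : ℂ) :=
      (RingOfIntegers.isIntegral_coe z).map (Algebra.ofId (kk A B) ℂ |>.restrictScalars ℤ)
    obtain ⟨b, hb⟩ := (hint _ (z : kk A B).2).mp h2
    rw [Ideal.mem_span_singleton]
    by_cases hdvd : lam ∣ b
    · obtain ⟨c, rfl⟩ := hdvd
      obtain ⟨c', hc'⟩ := hoi c
      refine ⟨c', ?_⟩
      apply RingOfIntegers.ext
      apply Subtype.ext
      rw [hb, emb_mul h, ← hl, ← hc']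
      rfl
    · exfalso
      obtain ⟨u, u', huu⟩ := (hlam.irreducible.coprime_iff_not_dvd).2 hdvd
      have hp2 : (w.under (𝓞 (kk A B))).IsPrime := inferInstance
      apply hp2.ne_top
      rw [Ideal.eq_top_iff_one]
      obtain ⟨v, hv⟩ := hoi u
      obtain ⟨v', hv'⟩ := hoi u'
      have h3 : (1 : 𝓞 (kk A B)) = v * l + v' * z := by
        apply RingOfIntegers.ext
        apply Subtype.ext
        have h4 := congrArg emb huu
        rw [emb_add h, emb_mul h, emb_mul h, emb_one h, ← hl, ← hb, ← hv, ← hv'] at h4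
        exact h4.symm
      rw [h3]
      exact add_mem (Ideal.mul_mem_left _ _ hlmem) (Ideal.mul_mem_left _ _ hz)
  · rw [Ideal.span_singleton_le_iff_mem]
    exact hlmem

/-- the statement for a field `F` in which automorphisms are determined by their action -/
lemma core (hEXT : Sv_EXT) (hTRA : Sv_TRA) (hINV : Sw_INV) (hTOR : Sw_TORV) (hLOC : Sw_LOC)
    (hXI : Sa_XI) (hA : Sa_ACT) (hG : Sa_GAL) (hINT : Sa_INT) (hPID : Sa_PID) (hDEG : Sv_DEG1)
    (A B : ℤ) (L : PeriodPair) (Om : ℂ) (h : Case A B) (hL : IsCM A B L Om) (m : OO A B)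
    (hm : m ≠ 0) (lam : OO A B) (q : ℕ) (hq : q.Prime) (hnm : nm lam = q)
    (F : IntermediateField (kk A B) ℂ) [FiniteDimensional (kk A B) F] [IsGalois (kk A B) F]
    (hF : TF L (m * lam) ≤ F)
    (hext : ∀ (σ τ : F →ₐ[kk A B] ℂ) (a : OO A B), Act L σ (m * lam) a → Act L τ (m * lam) a → σ = τ)
    (w : Ideal (𝓞 F)) (hwp : w.IsPrime) (hw : Abv w lam) (h2w : (2 : 𝓞 F) ∉ w)
    (hmw : ((nm m : ℤ) : 𝓞 F) ∉ w) (σ : F ≃ₐ[kk A B] F) (hσ : Act L (_root_.Pool.Agent.MU3A.em σ) m 1) (x : 𝓞 F) :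
    ∃ y ∈ w, (y : F) = σ x - x := by
  obtain ⟨hfd, -, -, hint⟩ := hINT A B h
  have hk : NumberField (kk A B) := ⟨⟩
  have hFQ : FiniteDimensional ℚ F := FiniteDimensional.trans ℚ (kk A B) F
  have hFN : NumberField F := ⟨⟩
  obtain ⟨hdom, hpir, hnn, hnmul, hnm0, -, hunit, hunit', -, hprime⟩ := hPID A B h
  obtain ⟨ξ, hξ0, -, hξs⟩ := hXI A B L Om h hL
  have hξ : IsXi A B L ξ := ⟨hξs, fun z hz => (hξ0 z).2 hz⟩
  obtain ⟨hdeg1, hdeg2, -⟩ := hDEG A B h lam q hq hnm
  have hlp : Prime lam := hprime lam (by rw [hnm]; simpa using hq)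
  have hlam0 : lam ≠ 0 := hlp.ne_zero
  have hml : m * lam ≠ 0 := mul_ne_zero hm hlam0
  have hlam1 := emb_ne_zero h hlam0
  have hm1 := emb_ne_zero h hm
  -- the prime `w`
  obtain ⟨y0, hyw, hy⟩ := hw
  have hy0 : y0 ≠ 0 := by
    rintro rfl
    exact hlam1 (by rw [← hy]; simp)
  have hwb : w ≠ ⊥ := fun h1 => hy0 (by rw [h1] at hyw; simpa using hyw)
  let v : HeightOneSpectrum (𝓞 F) := ⟨w, hwp, hwb⟩
  obtain ⟨V, hV⟩ := hEXT F (algebraMap F ℂ) v
  have hV' : ∀ x : F, ((x : ℂ) ∈ V ↔ v.valuation F x ≤ 1) ∧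
      (V.valuation (x : ℂ) < 1 ↔ v.valuation F x < 1) := fun x => ⟨(hV x).1, (hV x).2.1⟩
  have hV1 : ∀ x : F, V.valuation (x : ℂ) = 1 ↔ v.valuation F x = 1 := fun x => (hV x).2.2
  have hvlam : V.valuation (emb lam) < 1 := by
    rw [← hy]
    rw [(hV' _).2]
    exact (HeightOneSpectrum.valuation_lt_one_iff_mem v y0).2 hyw
  have v2 : V.valuation (2 : ℂ) = 1 := by
    have h1 : v.valuation F ((2 : 𝓞 F) : F) = 1 := v.valuation_eq_one_iff_notMem.mpr h2w
    rw [← hV1] at h1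
    exact h1
  have vm : V.valuation ((nm m : ℤ) : ℂ) = 1 := by
    have h1 : v.valuation F (((nm m : ℤ) : 𝓞 F) : F) = 1 := v.valuation_eq_one_iff_notMem.mpr hmw
    rw [← hV1] at h1
    have h2 : (((((nm m : ℤ) : 𝓞 F) : F)) : ℂ) = ((nm m : ℤ) : ℂ) := by simp
    rwa [h2] at h1
  -- the element `lam` of `𝓞 k`
  obtain ⟨l, hl⟩ : ∃ l : 𝓞 (kk A B), ((l : kk A B) : ℂ) = emb lam := by
    have h2 : IsIntegral ℤ (emb lam) := (hint (emb lam) (emb_mem lam)).mpr ⟨lam, rfl⟩
    have h3 : algebraMap (kk A B) ℂ (ek lam) = emb lam := rfl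
    rw [← h3] at h2
    exact ⟨⟨ek lam, (isIntegral_algebraMap_iff
      (FaithfulSMul.algebraMap_injective (kk A B) ℂ)).mp h2⟩, rfl⟩
  have hl0 : l ≠ 0 := by
    rintro rfl
    exact hlam1 (by rw [← hl]; simp)
  have hund := under_eq h hint F w hwp lam hlp l hl y0 hyw hy
  -- the point `u`
  have hu : Om / emb lam ∉ L.lattice := by
    intro h0
    apply hlp.not_isUnit
    rw [isUnit_iff_dvd_one, ← hL.toIsLat.mul_div_mem_iff h hlam0 1, emb_one h, one_mul]
    exact h0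
  have hOm : Om ∈ L.lattice := by
    rw [hL.mem]
    exact ⟨1, by rw [emb_one h, mul_one]⟩
  have hlu : emb lam * (Om / emb lam) ∈ L.lattice := by
    rw [mul_div_cancel₀ _ hlam1]
    exact hOm
  have hmlu : emb (m * lam) * (Om / emb lam) ∈ L.lattice := by
    rw [emb_mul h, mul_assoc]
    exact hL.toIsLat.emb_mul_mem h m hlu
  have hxF : xx A B L (Om / emb lam) ∈ F :=
    hF (IntermediateField.subset_adjoin _ _ ⟨_, hmlu, hu, Or.inl rfl⟩)
  have hyF : yy L (Om / emb lam) ∈ F :=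
    hF (IntermediateField.subset_adjoin _ _ ⟨_, hmlu, hu, Or.inr rfl⟩)
  have htF : tz A B L (Om / emb lam) ∈ F := neg_mem (div_mem hxF hyF)
  have htra := hTRA A B L Om ξ h hL hξ V v2 lam q hq hnm hvlam _ hlu hu
  have hvt : v.valuation F (⟨_, htF⟩ : F) ^ (q - 1) =
      v.valuation F (algebraMap (kk A B) F (l : kk A B)) := by
    set t : F := ⟨_, htF⟩ with ht
    have e1 : ((algebraMap (kk A B) F (l : kk A B) : F) : ℂ) = emb lam := hl
    have hne : algebraMap (kk A B) F (l : kk A B) ≠ 0 := by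
      intro h0
      apply hlam1
      rw [← e1, h0]
      simp
    have h1 : V.valuation (((t ^ (q - 1) / algebraMap (kk A B) F (l : kk A B) : F)) : ℂ) = 1 := by
      have e2 : (((t ^ (q - 1) / algebraMap (kk A B) F (l : kk A B) : F)) : ℂ) =
          tz A B L (Om / emb lam) ^ (q - 1) / emb lam := by
        rw [IntermediateField.coe_div, IntermediateField.coe_pow, e1]
      rw [e2, map_div₀, map_pow, htra, div_self]
      exact (Valuation.ne_zero_iff _).2 hlam1
    rw [hV1, map_div₀, map_pow] at h1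
    have h3 : v.valuation F (algebraMap (kk A B) F (l : kk A B)) ≠ 0 :=
      (Valuation.ne_zero_iff _).2 hne
    rwa [div_eq_one_iff_eq h3] at h1
  have hcard := inertia_card (kk A B) F v l hund hl0 _ (q - 1) hvt
  -- the inertia group acts trivially on `E[m]`
  have hmF : TF L m ≤ F := by
    refine le_trans ?_ hF
    apply IntermediateField.adjoin.mono
    rintro c ⟨z, hz1, hz2, hz3⟩
    refine ⟨z, ?_, hz2, hz3⟩
    rw [mul_comm m lam, emb_mul h, mul_assoc]
    exact hL.toIsLat.emb_mul_mem h lam hz1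
  have htor := hTOR A B L Om ξ h hL hξ V v2 m vm
  have hin : ∀ τ : F ≃ₐ[kk A B] F, τ ∈ v.asIdeal.inertia Gal(F/(kk A B)) → Act L (_root_.Pool.Agent.MU3A.em τ) m 1 := by
    intro τ hτ
    refine hINV A B L Om ξ h hL hξ V v2 m hm (fun z hz hz' => htor z hz hz') F hmF τ ?_
    intro z hz
    have h1 := hLOC A B F v V hV' τ 1 one_pos (fun z => by
      refine ⟨τ • z - z, hτ z, ?_⟩
      rw [pow_one]
      rfl) z hz
    rw [pow_one] at h1
    exact (ValuationSubring.mem_nonunits_iff _).2 h1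
  -- counting
  have hfing : Finite (F ≃ₐ[kk A B] F) := inferInstance
  choose a ha using fun τ : F ≃ₐ[kk A B] F => hG A B L Om h hL (m * lam) hml F hF (_root_.Pool.Agent.MU3A.em τ)
  choose n hn using hdeg1
  have hqp : Fact q.Prime := ⟨hq⟩
  have hcop : IsCoprime m lam := by
    refine IsCoprime.symm ((hlp.irreducible.coprime_iff_not_dvd).2 ?_)
    rintro ⟨c, hc⟩
    apply hmw
    have h1 : nm m = q * nm c := by rw [hc, hnmul, hnm]
    have h2 : ((nm m : ℤ) : 𝓞 F) = (q : 𝓞 F) * ((nm c : ℤ) : 𝓞 F) := by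
      rw [h1]; push_cast; rfl
    rw [h2]
    apply Ideal.mul_mem_right
    obtain ⟨d, hd⟩ := hdeg2
    have hd2 : IsIntegral ℤ (ek d) := by
      have h2 : IsIntegral ℤ (emb d) := (hint (emb d) (emb_mem d)).mpr ⟨d, rfl⟩
      have h3 : algebraMap (kk A B) ℂ (ek d) = emb d := rfl
      rw [← h3] at h2
      exact (isIntegral_algebraMap_iff (FaithfulSMul.algebraMap_injective (kk A B) ℂ)).mp h2
    obtain ⟨d', hd'⟩ : ∃ d' : 𝓞 (kk A B), ((d' : kk A B) : ℂ) = emb d := ⟨⟨ek d, hd2⟩, rfl⟩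
    have h4 : (q : 𝓞 F) = y0 * algebraMap (𝓞 (kk A B)) (𝓞 F) d' := by
      apply RingOfIntegers.ext
      apply Subtype.ext
      have h5 := congrArg emb hd
      rw [emb_natCast h, emb_mul h, ← hy, ← hd'] at h5
      exact h5
    rw [h4]
    exact Ideal.mul_mem_right _ _ hyw
  obtain ⟨hA1, hA2, hA3, -, -, -, -, -⟩ := hA A B L Om h hL (m * lam) hml
  obtain ⟨hB1, -, -, -, -, -, -, -⟩ := hA A B L Om h hL m hm
  let f : (F ≃ₐ[kk A B] F) → ZMod q := fun τ => ((n (a τ) : ℤ) : ZMod q)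
  have hle : Set.ncard {τ : F ≃ₐ[kk A B] F | Act L (_root_.Pool.Agent.MU3A.em τ) m 1} ≤ q - 1 := by
    have h1 : Set.ncard {τ : F ≃ₐ[kk A B] F | Act L (_root_.Pool.Agent.MU3A.em τ) m 1} ≤ Set.ncard ({0}ᶜ : Set (ZMod q)) := by
      refine Set.ncard_le_ncard_of_injOn f ?_ ?_ (Set.toFinite _)
      · intro τ _
        simp only [Set.mem_compl_iff, Set.mem_singleton_iff]
        intro h0
        have h2 : (q : ℤ) ∣ n (a τ) := (ZMod.intCast_zmod_eq_zero_iff_dvd _ _).1 h0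
        have h3 : lam ∣ ((n (a τ) : ℤ) : OO A B) := by
          obtain ⟨d, hd⟩ := h2
          rw [hd]
          push_cast
          exact Dvd.dvd.mul_right hdeg2 _
        have h4 : lam ∣ a τ := by
          have := dvd_add (hn (a τ)) h3
          rwa [sub_add_cancel] at this
        have h5 : IsCoprime (a τ) (m * lam) := (ha τ).1
        have h6 : IsCoprime (a τ) lam := h5.of_mul_right_right
        exact hlp.not_isUnit (h6.isUnit_of_dvd' h4 dvd_rfl)
      · intro τ hτ τ' hτ' hf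
        have h2 : (q : ℤ) ∣ n (a τ) - n (a τ') := by
          rw [← ZMod.intCast_zmod_eq_zero_iff_dvd]
          push_cast
          exact sub_eq_zero.2 hf
        have h3 : lam ∣ ((n (a τ) - n (a τ') : ℤ) : OO A B) := by
          obtain ⟨d, hd⟩ := h2
          rw [hd]
          push_cast
          exact Dvd.dvd.mul_right hdeg2 _
        have h4 : lam ∣ a τ - a τ' := by
          have := dvd_add (dvd_sub (hn (a τ)) (hn (a τ'))) h3
          push_cast at this
          have e : a τ - (n (a τ) : OO A B) - (a τ' - (n (a τ') : OO A B)) +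
            ((n (a τ) : OO A B) - (n (a τ') : OO A B)) = a τ - a τ' := by ring
          rwa [e] at this
        have h5 : ∀ ρ : F ≃ₐ[kk A B] F, Act L (_root_.Pool.Agent.MU3A.em ρ) m 1 → m ∣ a ρ - 1 := by
          intro ρ hρ
          exact hB1 F (_root_.Pool.Agent.MU3A.em ρ) (a ρ) 1 hmF (hA3 F (_root_.Pool.Agent.MU3A.em ρ) (a ρ) m (dvd_mul_right _ _) (ha ρ)) hρ
        have h6 : m ∣ a τ - a τ' := by
          have := dvd_sub (h5 τ hτ) (h5 τ' hτ')
          rwa [sub_sub_sub_cancel_right] at this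
        have h7 : m * lam ∣ a τ - a τ' := hcop.mul_dvd h6 h4
        have h8 : Act L (_root_.Pool.Agent.MU3A.em τ) (m * lam) (a τ') := hA2 F (_root_.Pool.Agent.MU3A.em τ) (a τ) (a τ') h7 (ha τ)
        have h9 : _root_.Pool.Agent.MU3A.em τ = _root_.Pool.Agent.MU3A.em τ' := hext _ _ _ h8 (ha τ')
        apply AlgEquiv.ext
        intro z
        apply Subtype.ext
        exact DFunLike.congr_fun h9 z
    refine h1.trans (le_of_eq ?_)
    rw [Set.ncard_compl, Set.ncard_singleton, Nat.card_zmod]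
  have hsub : (v.asIdeal.inertia Gal(F/(kk A B)) : Set (F ≃ₐ[kk A B] F)) ⊆
      {τ : F ≃ₐ[kk A B] F | Act L (_root_.Pool.Agent.MU3A.em τ) m 1} := fun τ hτ => hin τ hτ
  have heq := Set.eq_of_subset_of_ncard_le hsub (by
    refine hle.trans (hcard.trans (le_of_eq ?_))
    rfl) (Set.toFinite _)
  have hσi : σ ∈ (v.asIdeal.inertia Gal(F/(kk A B)) : Set (F ≃ₐ[kk A B] F)) := by
    rw [heq]
    exact hσ
  exact ⟨σ • x - x, hσi x, rfl⟩

end HTOT

/-- total ramification of `F_(m lam) / F_m` at the primes above `lam` -/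
theorem tw_HTOT (hEXT : Sv_EXT) (hTRA : Sv_TRA) (hINV : Sw_INV) (hTOR : Sw_TORV) (hLOC : Sw_LOC)
    (hXI : Sa_XI) (hA : Sa_ACT) (hG : Sa_GAL) (hNRM : Sa_NRM) (hINT : Sa_INT) (hPID : Sa_PID)
    (hDEG : Sv_DEG1) : Sw_HTOT := by
  intro A B L Om h hL m hm lam q hq hnm w hwp hw h2w hmw σ hσ x
  obtain ⟨hdom, -, -, -, -, -, -, -, -, hprime⟩ := hPID A B h
  have hlp : Prime lam := hprime lam (by rw [hnm]; simpa using hq)
  have hml : m * lam ≠ 0 := mul_ne_zero hm hlp.ne_zero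
  obtain ⟨hF1, hF2⟩ := hNRM A B L Om h hL (m * lam) hml
  obtain ⟨-, -, -, -, hA5, -, -, -⟩ := hA A B L Om h hL (m * lam) hml
  exact HTOT.core hEXT hTRA hINV hTOR hLOC hXI hA hG hINT hPID hDEG A B L Om h hL m hm lam q hq hnm
    (TF L (m * lam)) le_rfl hA5 w hwp hw h2w hmw σ hσ x

end Pool.Agent.MU3V


end

section

/-!
# MUX, block R3: module JEQ (helper83; model: `R2_JEQ.lean` of helper80)
-/

set_option autoImplicit false

namespace Pool.Agent.MUX3

open _root_.MU3 _root_.Pool.Agent.MU3A _root_.Pool.Agent.MU3B _root_.Pool.Agent.MUX _root_.Pool.Agent.MUXU _root_.Pool.Agent.MUX2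
open WeierstrassCurve

noncomputable section

theorem t3_JEQ (h1 : S3_PAR) : S3_JEQ := by
  intro L u u' hu h3u hu' h3u' hne hne' hg
  obtain ⟨s0, q0, -, -, k0, hx, hk⟩ := h1 L u hu h3u hg
  obtain ⟨s0', q0', -, -, -, hx', hk'⟩ := h1 L u' hu' h3u' hg
  have hdiff : par3 L u ≠ par3 L u' := by
    intro he
    have e1 : L.weierstrassP u' = L.weierstrassP u := by
      have e2 : xn L u' = xn L u := by rw [hx, hx', he]
      unfold xn at e2
      exact sub_left_injective e2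
    rcases b_NEQ L u u' hu hu' e1 with h | h
    · exact hne h
    · exact hne' h
  generalize par3 L u = s at *
  generalize par3 L u' = s' at *
  have hcross : s * q3 s' ^ 2 = s' * q3 s ^ 2 := by
    have e : s / q3 s ^ 2 = s' / q3 s' ^ 2 := by
      rw [← hk, ← hk']
    rwa [div_eq_div_iff (pow_ne_zero _ q0) (pow_ne_zero _ q0')] at e
  unfold q3 at hcross
  have hz : (s - s') * (729 - s * s' * (s ^ 2 + s * s' + s' ^ 2 + 36 * (s + s') + 270)) = 0 := by
    linear_combination hcross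
  rcases mul_eq_zero.1 hz with h | h
  · exact absurd (sub_eq_zero.1 h) hdiff
  · exact (sub_eq_zero.1 h).symm

end

end Pool.Agent.MUX3


end
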