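import Mathlib
import Pool.Agent.MVF.C014
import Pool.Agent.MVF.C016
import Pool.Agent.MVF.C042

/-! Parts: MUX.R_XIC, MUX.R3_CHN, MUX.R3_DUA, MUX.R3_VEL -/

namespace Pool.Agent.MUX3.ChnV
end Pool.Agent.MUX3.ChnV
namespace Pool.Agent.MUX3.DUA
end Pool.Agent.MUX3.DUA
namespace Pool.Agent.MUXV.XIC
end Pool.Agent.MUXV.XIC

section

/-!
# MUX, block R, module XIC (helper23): the group isomorphism `ℂ/L ≅ E(ℂ)` in the coordinate `℘ - c`

Adapted from `U_XIL.lean` (the case `c = 0`).
-/

set_option autoImplicit false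

namespace Pool.Agent.MUXV

open _root_.Pool.Agent.MU3B

noncomputable section

namespace XIC

open WeierstrassCurve.Affine

theorem some_eq {W : WeierstrassCurve.Affine ℂ} {x y x' y' : ℂ} (h : W.Nonsingular x y)
    (h' : W.Nonsingular x' y') (hx : x = x') (hy : y = y') :
    Point.some x y h = Point.some x' y' h' := by
  subst hx hy
  rfl

end XIC

open _root_.Pool.Agent.MUXV.XIC WeierstrassCurve.Affine in
theorem tx_XIC : Sx_XIC := by
  classical
  intro L c
  set P : ℂ → ℂ := L.weierstrassP with hP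
  set D : ℂ → ℂ := L.derivWeierstrassP with hD
  set W : WeierstrassCurve.Affine ℂ := WS L c with hW
  have w1 : W.a₁ = 0 := rfl
  have w2 : W.a₂ = 3 * c := rfl
  have w3 : W.a₃ = 0 := rfl
  have w4 : W.a₄ = 3 * c ^ 2 - L.g₂ / 4 := rfl
  have w6 : W.a₆ = c ^ 3 - L.g₂ / 4 * c - L.g₃ / 4 := rfl
  -- the facts
  have hsq : ∀ z, z ∉ L.lattice → D z ^ 2 = 4 * P z ^ 3 - L.g₂ * P z - L.g₃ :=
    fun z hz => L.derivWeierstrassP_sq z hz
  have hpar : ∀ z, P (-z) = P z ∧ D (-z) = -D z := fun z =>
    ⟨L.weierstrassP_neg z, L.derivWeierstrassP_neg z⟩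
  have hper : ∀ z, ∀ u ∈ L.lattice, P (z + u) = P z ∧ D (z + u) = D z := by
    intro z u hu
    exact ⟨L.weierstrassP_add_coe z ⟨u, hu⟩, L.derivWeierstrassP_add_coe z ⟨u, hu⟩⟩
  have hinj : ∀ z z', z ∉ L.lattice → z' ∉ L.lattice → P z = P z' →
      z - z' ∈ L.lattice ∨ z + z' ∈ L.lattice := fun z z' hz hz' hx =>
    b_NEQ L z' z hz' hz hx
  have hy0 : ∀ z, z ∉ L.lattice → (D z = 0 ↔ 2 * z ∈ L.lattice) := fun z hz => b_ZER L z hz
  have hadd := b_ADD L
  have hdbl := b_DUP L
  have ns : ∀ z, z ∉ L.lattice → W.Nonsingular (P z - c) (D z / 2) := by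
    intro z hz
    rw [WeierstrassCurve.Affine.nonsingular_iff', WeierstrassCurve.Affine.equation_iff, w1, w2, w3,
      w4, w6]
    refine ⟨by linear_combination (1 / 4) * hsq z hz, ?_⟩
    by_contra hcon
    rw [not_or, not_not, not_not] at hcon
    obtain ⟨hx, hy⟩ := hcon
    have h1 := hsq z hz
    have h2 : D z = 0 := by linear_combination hy
    rw [h2] at h1
    have e2 : L.g₂ = 12 * P z ^ 2 := by linear_combination 4 * hx
    have e3 : L.g₃ = -8 * P z ^ 3 := by
      linear_combination h1 - P z * e2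
    apply (b_DSC L).1
    rw [e2, e3]
    ring
  set f : ℂ → W.Point := fun z => if h : z ∈ L.lattice then 0 else Point.some _ _ (ns z h) with hf
  have hf0 : ∀ z, z ∈ L.lattice → f z = 0 := fun z hz => dif_pos hz
  have hf1 : ∀ z (hz : z ∉ L.lattice), f z = Point.some _ _ (ns z hz) := fun z hz => dif_neg hz
  have hfper : ∀ z, ∀ u ∈ L.lattice, f (z + u) = f z := by
    intro z u hu
    by_cases hz : z ∈ L.lattice
    · rw [hf0 z hz, hf0 _ (add_mem hz hu)]
    · have hzu : z + u ∉ L.lattice := fun h => hz (by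
        have := sub_mem h hu
        rwa [add_sub_cancel_right] at this)
      rw [hf1 z hz, hf1 _ hzu]
      exact some_eq _ _ (by rw [(hper z u hu).1]) (by rw [(hper z u hu).2])
  have hnegY : ∀ x y : ℂ, W.negY x y = -y := by
    intro x y
    rw [WeierstrassCurve.Affine.negY, w1, w3]
    ring
  have hmap : ∀ z z', f (z + z') = f z + f z' := by
    intro z z'
    by_cases hz : z ∈ L.lattice
    · rw [hf0 z hz, zero_add, add_comm z z', hfper z' z hz]
    by_cases hz' : z' ∈ L.lattice
    · rw [hf0 z' hz', add_zero, hfper z z' hz']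
    by_cases hzz : z + z' ∈ L.lattice
    · rw [hf0 _ hzz, hf1 z hz, hf1 z' hz']
      have e : z = -z' + (z + z') := by ring
      have hx : P z = P z' := by
        rw [e, (hper (-z') _ hzz).1, (hpar z').1]
      have hy : D z = -D z' := by
        rw [e, (hper (-z') _ hzz).2, (hpar z').2]
      exact (Point.add_of_Y_eq (by rw [hx]) (by rw [hnegY, hy]; ring)).symm
    by_cases hzd : z - z' ∈ L.lattice
    · have e1 : f z' = f z := by
        have := hfper z' _ hzd
        rw [← this]
        congr 1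
        ring
      have e2 : f (z + z') = f (2 * z) := by
        have := hfper (z + z') _ hzd
        rw [← this]
        congr 1
        ring
      have h2z : 2 * z ∉ L.lattice := by
        intro h
        apply hzz
        have := sub_mem h hzd
        have e : z + z' = 2 * z - (z - z') := by ring
        rwa [e]
      have hy : D z ≠ 0 := fun h => h2z ((hy0 z hz).1 h)
      have hyne : D z / 2 ≠ W.negY (P z - c) (D z / 2) := by
        rw [hnegY]
        intro h0
        apply hy
        linear_combination h0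
      rw [e1, e2, hf1 z hz, hf1 _ h2z, Point.add_self_of_Y_ne hyne]
      have hsl : W.slope (P z - c) (P z - c) (D z / 2) (D z / 2) =
          (6 * P z ^ 2 - L.g₂ / 2) / (2 * D z) := by
        rw [WeierstrassCurve.Affine.slope_of_Y_ne rfl hyne, hnegY, w1, w2, w4]
        have h3 : D z / 2 - -(D z / 2) = D z := by ring
        rw [h3]
        field_simp
        ring
      obtain ⟨hd1, hd2⟩ := hdbl z h2z
      have hX : W.addX (P z - c) (P z - c)
          (W.slope (P z - c) (P z - c) (D z / 2) (D z / 2)) = P (2 * z) - c := by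
        rw [WeierstrassCurve.Affine.addX, hsl, w1, w2]
        linear_combination -hd1
      apply some_eq
      · exact hX.symm
      · rw [WeierstrassCurve.Affine.addY, WeierstrassCurve.Affine.negAddY, hnegY, hX, hsl]
        linear_combination (1 / 2) * hd2
    · have hxne : P z ≠ P z' := by
        intro h
        rcases hinj z z' hz hz' h with h3 | h3
        · exact hzd h3
        · exact hzz h3
      have hxne' : P z - c ≠ P z' - c := fun h => hxne (by linear_combination h)
      rw [hf1 z hz, hf1 z' hz', hf1 _ hzz, Point.add_of_X_ne hxne']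
      have hsl : W.slope (P z - c) (P z' - c) (D z / 2) (D z' / 2) =
          (D z - D z') / (2 * (P z - P z')) := by
        rw [WeierstrassCurve.Affine.slope_of_X_ne hxne']
        have h3 : P z - P z' ≠ 0 := sub_ne_zero.2 hxne
        have h4 : P z - c - (P z' - c) = P z - P z' := by ring
        rw [h4]
        field_simp
      obtain ⟨ha1, ha2⟩ := hadd z' z hz' hz hzz hzd
      have hX : W.addX (P z - c) (P z' - c)
          (W.slope (P z - c) (P z' - c) (D z / 2) (D z' / 2)) = P (z + z') - c := by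
        rw [WeierstrassCurve.Affine.addX, hsl, w1, w2]
        linear_combination -ha1
      apply some_eq
      · exact hX.symm
      · rw [WeierstrassCurve.Affine.addY, WeierstrassCurve.Affine.negAddY, hnegY, hX, hsl]
        linear_combination (1 / 2) * ha2
  refine ⟨⟨⟨f, hf0 0 L.lattice.zero_mem⟩, hmap⟩, ?_, ?_, ?_⟩
  · intro z
    constructor
    · intro h
      by_contra hz
      have h3 : f z = 0 := h
      rw [hf1 z hz] at h3
      exact Point.some_ne_zero _ h3
    · exact fun hz => hf0 z hz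
  · intro Q
    rcases Q with _ | ⟨x, y, h⟩
    · exact ⟨0, hf0 0 L.lattice.zero_mem⟩
    · have h3 := (WeierstrassCurve.Affine.equation_iff x y).1 h.1
      rw [w1, w2, w3, w4, w6] at h3
      obtain ⟨z, hz, hx, hy⟩ := (b_DSC L).2 (x + c) (2 * y) (by linear_combination 4 * h3)
      refine ⟨z, ?_⟩
      have h4 : f z = Point.some x y h := by
        rw [hf1 z hz]
        exact some_eq _ _ (by rw [hP, hx]; ring) (by rw [hD, hy]; ring)
      exact h4
  · intro z hz
    exact ⟨ns z hz, hf1 z hz⟩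

end

end Pool.Agent.MUXV


end

section

/-!
# MUX, block R3: CHN, periodic chains: valuations (helper95)
-/

set_option autoImplicit false

namespace Pool.Agent.MUX3

open _root_.MU3 _root_.Pool.Agent.MU3A _root_.Pool.Agent.MU3B _root_.Pool.Agent.MUX _root_.Pool.Agent.MUXU _root_.Pool.Agent.MUX2
open WeierstrassCurve

noncomputable section

namespace ChnV

variable {V : ValuationSubring ℂ}

theorem int_le (n : ℤ) : V.valuation (n : ℂ) ≤ 1 := by
  rw [ValuationSubring.valuation_le_one_iff]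
  exact intCast_mem V n

theorem v36 : V.valuation (36 : ℂ) ≤ V.valuation 3 ^ 2 := by
  have h := int_le (V := V) 4
  have e : (36 : ℂ) = 3 ^ 2 * ((4 : ℤ) : ℂ) := by norm_num
  rw [e, map_mul, map_pow]
  exact mul_le_of_le_one_right' h

theorem v270 : V.valuation (270 : ℂ) ≤ V.valuation 3 ^ 3 := by
  have h := int_le (V := V) 10
  have e : (270 : ℂ) = 3 ^ 3 * ((10 : ℤ) : ℂ) := by norm_num
  rw [e, map_mul, map_pow]
  exact mul_le_of_le_one_right' h

theorem v729 : V.valuation (729 : ℂ) = V.valuation 3 ^ 6 := by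
  have e : (729 : ℂ) = 3 ^ 6 := by norm_num
  rw [e, map_pow]

/-- one step -/
theorem step (hv : V.valuation (3 : ℂ) < 1) {r S X : ℂ} (hrS : r * S = 729) (hX : X ≠ 0)
    (h : X ^ 3 + (36 + r) * X ^ 2 + (r ^ 2 + 36 * r + 270) * X = S)
    (hS : V.valuation 3 ^ 4 ≤ V.valuation S) :
    V.valuation X ^ 3 = V.valuation S ∧ V.valuation 3 ^ 4 ≤ V.valuation X := by
  set t := V.valuation (3 : ℂ) with ht
  have ht0 : 0 < t := by
    rw [ht, zero_lt_iff, Valuation.ne_zero_iff]
    norm_num
  have hb0 : 0 < V.valuation X := by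
    rw [zero_lt_iff, Valuation.ne_zero_iff]
    exact hX
  set b := V.valuation X with hb
  have htp : ∀ {i j : ℕ}, i ≤ j → t ^ j ≤ t ^ i := fun hij =>
    pow_le_pow_of_le_one zero_le hv.le hij
  have hts : ∀ {i j : ℕ}, i < j → t ^ j < t ^ i := fun hij =>
    pow_lt_pow_right_of_lt_one₀ ht0 hv hij
  have hr : V.valuation r ≤ t ^ 2 := by
    have h1 : V.valuation r * V.valuation S = t ^ 6 := by
      rw [← map_mul, hrS, v729]
    have h2 : V.valuation r * t ^ 4 ≤ t ^ 2 * t ^ 4 := by
      calc V.valuation r * t ^ 4 ≤ V.valuation r * V.valuation S := by gcongr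
        _ = t ^ 2 * t ^ 4 := by rw [h1, ← pow_add]
    exact le_of_mul_le_mul_right h2 (pow_pos ht0 4)
  have h36 : V.valuation (36 + r) ≤ t ^ 2 := Valuation.map_add_le _ v36 hr
  have h270 : V.valuation (r ^ 2 + 36 * r + 270) ≤ t ^ 3 := by
    apply Valuation.map_add_le _ _ v270
    apply Valuation.map_add_le
    · rw [map_pow]
      calc V.valuation r ^ 2 ≤ (t ^ 2) ^ 2 := by gcongr
        _ = t ^ 4 := by rw [← pow_mul]
        _ ≤ t ^ 3 := htp (by norm_num)
    · rw [map_mul]
      calc V.valuation 36 * V.valuation r ≤ t ^ 2 * t ^ 2 := by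
            gcongr
            exact v36
        _ = t ^ 4 := by rw [← pow_add]
        _ ≤ t ^ 3 := htp (by norm_num)
  have hfirst : V.valuation X ^ 3 = V.valuation S := by
    by_contra hne
    have hne' : V.valuation (X ^ 3) ≠ V.valuation S := by rwa [map_pow]
    have hmax : V.valuation (X ^ 3 - S) = max (V.valuation (X ^ 3)) (V.valuation S) := by
      have h1 : V.valuation (X ^ 3) ≠ V.valuation (-S) := by rwa [Valuation.map_neg]
      have h2 := Valuation.map_add_of_distinct_val V.valuation h1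
      rwa [← sub_eq_add_neg, Valuation.map_neg] at h2
    have hle : V.valuation (X ^ 3 - S) ≤ max (t ^ 2 * b ^ 2) (t ^ 3 * b) := by
      have e : X ^ 3 - S = -((36 + r) * X ^ 2 + (r ^ 2 + 36 * r + 270) * X) := by
        linear_combination h
      rw [e, Valuation.map_neg]
      apply (Valuation.map_add _ _ _).trans
      apply max_le_max
      · rw [map_mul, map_pow]
        gcongr
      · rw [map_mul]
        gcongr
    rw [hmax, map_pow] at hle
    have h3 : b ^ 3 ≤ max (t ^ 2 * b ^ 2) (t ^ 3 * b) := (le_max_left _ _).trans hle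
    have h4 : V.valuation S ≤ max (t ^ 2 * b ^ 2) (t ^ 3 * b) := (le_max_right _ _).trans hle
    rcases le_total (t ^ 3 * b) (t ^ 2 * b ^ 2) with hc | hc
    · rw [max_eq_left hc] at h3 h4
      have h5 : b ≤ t ^ 2 := by
        have : b * b ^ 2 ≤ t ^ 2 * b ^ 2 := by
          calc b * b ^ 2 = b ^ 3 := by rw [← pow_succ']
            _ ≤ _ := h3
        exact le_of_mul_le_mul_right this (pow_pos hb0 2)
      have h6 : V.valuation S ≤ t ^ 6 := by
        calc V.valuation S ≤ t ^ 2 * b ^ 2 := h4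
          _ ≤ t ^ 2 * (t ^ 2) ^ 2 := by gcongr
          _ = t ^ 6 := by rw [← pow_mul, ← pow_add]
      exact absurd (hS.trans h6) (not_le.2 (hts (by norm_num)))
    · rw [max_eq_right hc] at h3 h4
      have h5 : b ^ 2 ≤ t ^ 3 := by
        have : b ^ 2 * b ≤ t ^ 3 * b := by
          calc b ^ 2 * b = b ^ 3 := by rw [← pow_succ]
            _ ≤ _ := h3
        exact le_of_mul_le_mul_right this hb0
      have h6 : V.valuation S ^ 2 ≤ t ^ 9 := by
        calc V.valuation S ^ 2 ≤ (t ^ 3 * b) ^ 2 := by gcongr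
          _ = t ^ 6 * b ^ 2 := by rw [mul_pow, ← pow_mul]
          _ ≤ t ^ 6 * t ^ 3 := by gcongr
          _ = t ^ 9 := by rw [← pow_add]
      have h7 : t ^ 8 ≤ V.valuation S ^ 2 := by
        calc t ^ 8 = (t ^ 4) ^ 2 := by rw [← pow_mul]
          _ ≤ V.valuation S ^ 2 := by gcongr
      exact absurd (h7.trans h6) (not_le.2 (hts (by norm_num)))
  refine ⟨hfirst, ?_⟩
  by_contra hlt
  rw [not_le] at hlt
  have h8 : b ^ 3 < t ^ 4 := by
    calc b ^ 3 < (t ^ 4) ^ 3 := by
          apply pow_lt_pow_left₀ hlt zero_le (by norm_num)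
      _ = t ^ 12 := by rw [← pow_mul]
      _ ≤ t ^ 4 := htp (by norm_num)
  rw [hfirst] at h8
  exact absurd hS (not_le.2 h8)

end ChnV

open _root_.Pool.Agent.MUX3.ChnV in
theorem t3_CHN : S3_CHN := by
  intro V s h hv hrec hh hper
  set t := V.valuation (3 : ℂ) with ht
  have ht0 : 0 < t := by
    rw [ht, zero_lt_iff, Valuation.ne_zero_iff]
    norm_num
  have hs0 : ∀ i, 0 < V.valuation (s i) := fun i => by
    rw [zero_lt_iff, Valuation.ne_zero_iff]
    exact (hrec i).1
  have hper' : ∀ i k, s (i + h * k) = s i := by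
    intro i k
    induction k with
    | zero => simp
    | succ k ih =>
      have : i + h * (k + 1) = (i + h * k) + h := by ring
      rw [this, hper, ih]
  have h3h : 3 ^ h ≠ 1 := by
    have := Nat.one_lt_pow (by omega : h ≠ 0) (by norm_num : 1 < 3)
    omega
  -- an element with `x ^ (3 ^ h) = x` is `1`
  have hone : ∀ x : V.ValueGroup, 0 < x → x ^ 3 ^ h = x → x = 1 := by
    intro x hx hxx
    have hx0 : x ≠ 0 := hx.ne'
    obtain ⟨k, hk⟩ : ∃ k, 3 ^ h = k + 1 := ⟨3 ^ h - 1, by
      have := Nat.one_le_pow h 3 (by norm_num)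
      omega⟩
    have hk0 : k ≠ 0 := by
      rintro rfl
      exact h3h (by simpa using hk)
    rw [hk, pow_succ] at hxx
    have h1 : x ^ k = 1 := by
      have h2 : x ^ k * x = 1 * x := by rw [hxx, one_mul]
      exact mul_right_cancel₀ hx0 h2
    exact (pow_eq_one_iff_of_nonneg zero_le hk0).1 h1
  by_cases hcase : ∃ i, t ^ 4 ≤ V.valuation (s i)
  · left
    obtain ⟨i₀, hi₀⟩ := hcase
    have hstep : ∀ i, t ^ 4 ≤ V.valuation (s i) → V.valuation (s (i + 1)) ^ 3 = V.valuation (s i) ∧
        t ^ 4 ≤ V.valuation (s (i + 1)) := by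
      intro i hi
      obtain ⟨hne, he⟩ := hrec i
      exact step hv (r := 729 / s i) (div_mul_cancel₀ _ hne) (hrec (i + 1)).1 he hi
    have hge : ∀ k, t ^ 4 ≤ V.valuation (s (i₀ + k)) := by
      intro k
      induction k with
      | zero => simpa using hi₀
      | succ k ih => exact (hstep _ ih).2
    have hall : ∀ j, t ^ 4 ≤ V.valuation (s j) := by
      intro j
      rw [← hper' j i₀]
      have h1 : i₀ ≤ j + h * i₀ := by nlinarith
      obtain ⟨k, hk⟩ := Nat.exists_eq_add_of_le h1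
      rw [hk]
      exact hge k
    intro j
    have hpow : ∀ k, V.valuation (s (j + k)) ^ 3 ^ k = V.valuation (s j) := by
      intro k
      induction k with
      | zero => simp
      | succ k ih =>
        rw [← ih, pow_succ', pow_mul]
        congr 1
        exact (hstep _ (hall (j + k))).1
    have h1 := hpow h
    rw [hper] at h1
    exact hone _ (hs0 j) h1
  · right
    push Not at hcase
    have hrel : ∀ i, V.valuation (729 / s i) * V.valuation (s i) = t ^ 6 := by
      intro i
      rw [← map_mul, div_mul_cancel₀ _ (hrec i).1, v729]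
    have hr0 : ∀ i, 0 < V.valuation (729 / s i) := fun i => by
      rw [zero_lt_iff, Valuation.ne_zero_iff]
      exact div_ne_zero (by norm_num) (hrec i).1
    have hr : ∀ i, t ^ 4 ≤ V.valuation (729 / s i) := by
      intro i
      by_contra hlt
      rw [not_le] at hlt
      have h1 : V.valuation (729 / s i) * V.valuation (s i) < t ^ 6 := by
        calc V.valuation (729 / s i) * V.valuation (s i) < t ^ 4 * t ^ 4 := by
              exact mul_lt_mul'' hlt (hcase i) zero_le zero_le
          _ = t ^ 8 := by rw [← pow_add]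
          _ ≤ t ^ 6 := pow_le_pow_of_le_one zero_le hv.le (by norm_num)
      exact absurd (hrel i) h1.ne
    have hstep : ∀ i, V.valuation (729 / s i) ^ 3 = V.valuation (729 / s (i + 1)) := by
      intro i
      obtain ⟨hne, he⟩ := hrec i
      have hne' := (hrec (i + 1)).1
      refine (step hv (r := s (i + 1)) (S := 729 / s (i + 1)) (X := 729 / s i) ?_ ?_ ?_
        (hr (i + 1))).1
      · field_simp
      · exact div_ne_zero (by norm_num) hne
      · rw [eq_div_iff hne']
        have h2 : (729 / s i) * s i = 729 := div_mul_cancel₀ _ hne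
        obtain ⟨ρ, hρ⟩ : ∃ ρ, ρ = 729 / s i := ⟨_, rfl⟩
        rw [← hρ] at he h2 ⊢
        linear_combination ρ * he + h2
    intro j
    have hpow : ∀ k, V.valuation (729 / s j) ^ 3 ^ k = V.valuation (729 / s (j + k)) := by
      intro k
      induction k with
      | zero => simp
      | succ k ih =>
        rw [pow_succ, pow_mul, ih]
        exact hstep (j + k)
    have h1 := hpow h
    rw [hper] at h1
    have h2 := hone _ (hr0 j) h1
    have h3 := hrel j
    rwa [h2, one_mul] at h3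

end

end Pool.Agent.MUX3


end

section

/-!
# MUX, block R3: module DUA (helper96): the dual isogeny of degree three
-/

set_option autoImplicit false

namespace Pool.Agent.MUX3

open _root_.MU3 _root_.Pool.Agent.MU3A _root_.Pool.Agent.MU3B _root_.Pool.Agent.MUX _root_.Pool.Agent.MUXU _root_.Pool.Agent.MUX2
open WeierstrassCurve

noncomputable section

namespace DUA

theorem third (L : PeriodPair) (u : ℂ) (m n : ℤ) (h : m * L.ω₁ + n * L.ω₂ = 3 * u)
    (hm : (3 : ℤ) ∣ m) (hn : (3 : ℤ) ∣ n) : u ∈ L.lattice := by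
  obtain ⟨m', rfl⟩ := hm
  obtain ⟨n', rfl⟩ := hn
  rw [PeriodPair.mem_lattice]
  refine ⟨m', n', ?_⟩
  push_cast at h
  linear_combination h / 3

theorem det3 : ∀ a b c d : ZMod 3, a * d - b * c = 0 → (a = 0 ∧ b = 0) ∨ (c = 0 ∧ d = 0) ∨
    (c - a = 0 ∧ d - b = 0) ∨ (c + a = 0 ∧ d + b = 0) := by
  decide

theorem det3Z (a b c d : ℤ) (h1 : ¬ ((3 : ℤ) ∣ a ∧ (3 : ℤ) ∣ b))
    (h2 : ¬ ((3 : ℤ) ∣ c ∧ (3 : ℤ) ∣ d)) (h3 : ¬ ((3 : ℤ) ∣ c - a ∧ (3 : ℤ) ∣ d - b))
    (h4 : ¬ ((3 : ℤ) ∣ c + a ∧ (3 : ℤ) ∣ d + b)) : ¬ (3 : ℤ) ∣ a * d - b * c := by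
  have key : ∀ x : ℤ, (3 : ℤ) ∣ x ↔ (x : ZMod 3) = 0 := fun x =>
    (ZMod.intCast_zmod_eq_zero_iff_dvd x 3).symm
  rw [key, key] at h1 h2 h3 h4
  rw [key]
  push_cast at *
  intro h5
  rcases det3 _ _ _ _ h5 with h | h | h | h
  · exact h1 h
  · exact h2 h
  · exact h3 h
  · exact h4 h

theorem int_mul (L : PeriodPair) {z : ℂ} (hz : z ∈ L.lattice) (n : ℤ) :
    (n : ℂ) * z ∈ L.lattice := by
  rw [← zsmul_eq_mul]
  exact zsmul_mem hz n

/-- the points of order three -/
theorem _root_.Pool.Agent.MUX3.DUA.cls (L : PeriodPair) (u u' z : ℂ) (hu : u ∉ L.lattice) (h3u : 3 * u ∈ L.lattice)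
    (hu' : u' ∉ L.lattice) (h3u' : 3 * u' ∈ L.lattice) (hne : u' - u ∉ L.lattice)
    (hne' : u' + u ∉ L.lattice) (h3z : 3 * z ∈ L.lattice) :
    ∃ i j : ℤ, (i = -1 ∨ i = 0 ∨ i = 1) ∧ (j = -1 ∨ j = 0 ∨ j = 1) ∧
      z - i * u - j * u' ∈ L.lattice := by
  obtain ⟨a, b, hab⟩ := PeriodPair.mem_lattice.1 h3u
  obtain ⟨c, d, hcd⟩ := PeriodPair.mem_lattice.1 h3u'
  obtain ⟨e, f, hef⟩ := PeriodPair.mem_lattice.1 h3z
  have h1 : ¬ ((3 : ℤ) ∣ a ∧ (3 : ℤ) ∣ b) := fun h => hu (third L u a b hab h.1 h.2)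
  have h2 : ¬ ((3 : ℤ) ∣ c ∧ (3 : ℤ) ∣ d) := fun h => hu' (third L u' c d hcd h.1 h.2)
  have h3 : ¬ ((3 : ℤ) ∣ c - a ∧ (3 : ℤ) ∣ d - b) := fun h =>
    hne (third L (u' - u) (c - a) (d - b) (by push_cast; linear_combination hcd - hab) h.1 h.2)
  have h4 : ¬ ((3 : ℤ) ∣ c + a ∧ (3 : ℤ) ∣ d + b) := fun h =>
    hne' (third L (u' + u) (c + a) (d + b) (by push_cast; linear_combination hcd + hab) h.1 h.2)
  have hD := det3Z a b c d h1 h2 h3 h4
  obtain ⟨D, hDdef⟩ : ∃ D : ℤ, D = a * d - b * c := ⟨_, rfl⟩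
  rw [← hDdef] at hD
  have hDc : (D : ℂ) = a * d - b * c := by rw [hDdef]; push_cast; ring
  -- Cramer
  have hz : (D : ℂ) * z = ((e * d - f * c : ℤ) : ℂ) * u + ((a * f - b * e : ℤ) : ℂ) * u' := by
    have e1 : (D : ℂ) * (3 * z) = ((e * d - f * c : ℤ) : ℂ) * (3 * u) +
        ((a * f - b * e : ℤ) : ℂ) * (3 * u') := by
      rw [← hab, ← hcd, ← hef, hDc]
      push_cast
      ring
    linear_combination e1 / 3
  -- reduce
  have hD2 : ∃ k : ℤ, D * D = 1 + 3 * k := by
    have h5 : D % 3 = 1 ∨ D % 3 = 2 := by omega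
    rcases h5 with h5 | h5
    · refine ⟨3 * (D / 3) * (D / 3) + 2 * (D / 3), ?_⟩
      have : D = 3 * (D / 3) + 1 := by omega
      generalize D / 3 = q at this ⊢
      rw [this]
      ring
    · refine ⟨3 * (D / 3) * (D / 3) + 4 * (D / 3) + 1, ?_⟩
      have : D = 3 * (D / 3) + 2 := by omega
      generalize D / 3 = q at this ⊢
      rw [this]
      ring
  obtain ⟨k, hk⟩ := hD2
  have hkc : (D : ℂ) * D = 1 + 3 * k := by exact_mod_cast hk
  have red : ∀ I : ℤ, ∃ q r : ℤ, I = 3 * q + r ∧ (r = -1 ∨ r = 0 ∨ r = 1) := fun I =>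
    ⟨(I + 1) / 3, I - 3 * ((I + 1) / 3), by omega, by omega⟩
  obtain ⟨q1, i, hi, hi'⟩ := red (D * (e * d - f * c))
  obtain ⟨q2, j, hj, hj'⟩ := red (D * (a * f - b * e))
  refine ⟨i, j, hi', hj', ?_⟩
  have hic : (D : ℂ) * ((e * d - f * c : ℤ) : ℂ) = 3 * q1 + i := by exact_mod_cast hi
  have hjc : (D : ℂ) * ((a * f - b * e : ℤ) : ℂ) = 3 * q2 + j := by exact_mod_cast hj
  have e2 : z - i * u - j * u' = (q1 : ℂ) * (3 * u) + (q2 : ℂ) * (3 * u') - (k : ℂ) * (3 * z) := by
    linear_combination (D : ℂ) * hz - z * hkc + u * hic + u' * hjc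
  rw [e2]
  exact sub_mem (add_mem (int_mul L h3u q1) (int_mul L h3u' q2)) (int_mul L h3z k)

theorem psi (L : PeriodPair) (u : ℂ)
    (h : 12 * L.weierstrassP u ^ 4 - 6 * L.g₂ * L.weierstrassP u ^ 2 -
      12 * L.g₃ * L.weierstrassP u - L.g₂ ^ 2 / 4 = 0) (hg : L.g₂ = -18 * L.g₃) :
    3 * xn L u ^ 4 + xn L u ^ 3 - 216 * kap L * xn L u ^ 2 - 12 * kap L * xn L u - kap L -
      1296 * kap L ^ 2 = 0 := by
  have e3 : L.g₃ = -L.g₂ / 18 := by rw [hg]; ring
  rw [e3] at h
  unfold xn kap
  linear_combination h / 4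

end DUA

open _root_.Pool.Agent.MUX3.DUA in
/-- (DUA) the dual isogeny. -/
theorem t3_DUA (h1 : S3_TRI) (h2 : S3_PAR) (h3 : S3_NRM) : S3_DUA := by
  intro L M mu u u' hT hgL hgM hu' h3u' hne hne'
  have hnM : mu * u' ∉ M.lattice := by
    intro h
    rcases (hT.ker u').1 h with h4 | h4 | h4
    · exact hu' h4
    · exact hne h4
    · exact hne' h4
  refine ⟨⟨div_ne_zero three_ne_zero hT.mu_ne, hnM, ?_, ?_⟩, ?_⟩
  · have e : 3 * (mu * u') = mu * (3 * u') := by ring
    rw [e]
    exact (hT.ker _).2 (Or.inl h3u')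
  · intro v
    obtain ⟨z, rfl⟩ : ∃ z, v = mu * z := ⟨v / mu, by field_simp [hT.mu_ne]⟩
    have e1 : 3 / mu * (mu * z) = 3 * z := by
      have := hT.mu_ne
      field_simp
    have e2 : mu * z - mu * u' = mu * (z - u') := by ring
    have e3 : mu * z + mu * u' = mu * (z + u') := by ring
    rw [e1, e2, e3, hT.ker, hT.ker, hT.ker]
    constructor
    · intro h
      obtain ⟨i, j, hi, hj, hij⟩ := _root_.Pool.Agent.MUX3.DUA.cls L u u' z hT.u_ne hT.u3 hu' h3u' hne hne' h
      rcases hj with rfl | rfl | rfl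
      · refine Or.inr (Or.inr ?_)
        rcases hi with rfl | rfl | rfl
        · refine Or.inr (Or.inr ?_)
          convert hij using 1; push_cast; ring
        · refine Or.inl ?_
          convert hij using 1; push_cast; ring
        · refine Or.inr (Or.inl ?_)
          convert hij using 1; push_cast; ring
      · refine Or.inl ?_
        rcases hi with rfl | rfl | rfl
        · refine Or.inr (Or.inr ?_)
          convert hij using 1; push_cast; ring
        · refine Or.inl ?_
          convert hij using 1; push_cast; ring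
        · refine Or.inr (Or.inl ?_)
          convert hij using 1; push_cast; ring
      · refine Or.inr (Or.inl ?_)
        rcases hi with rfl | rfl | rfl
        · refine Or.inr (Or.inr ?_)
          convert hij using 1; push_cast; ring
        · refine Or.inl ?_
          convert hij using 1; push_cast; ring
        · refine Or.inr (Or.inl ?_)
          convert hij using 1; push_cast; ring
    · have key : ∀ i j : ℤ, z - i * u - j * u' ∈ L.lattice → 3 * z ∈ L.lattice := by
        intro i j h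
        have e : 3 * z = ((3 : ℤ) : ℂ) * (z - i * u - j * u') + (i : ℂ) * (3 * u) +
            (j : ℂ) * (3 * u') := by push_cast; ring
        rw [e]
        exact add_mem (add_mem (int_mul L h 3) (int_mul L hT.u3 i)) (int_mul L h3u' j)
      rintro ((h | h | h) | (h | h | h) | (h | h | h))
      · exact key 0 0 (by convert h using 1; push_cast; ring)
      · exact key 1 0 (by convert h using 1; push_cast; ring)
      · exact key (-1) 0 (by convert h using 1; push_cast; ring)
      · exact key 0 1 (by convert h using 1; push_cast; ring)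
      · exact key 1 1 (by convert h using 1; push_cast; ring)
      · exact key (-1) 1 (by convert h using 1; push_cast; ring)
      · exact key 0 (-1) (by convert h using 1; push_cast; ring)
      · exact key 1 (-1) (by convert h using 1; push_cast; ring)
      · exact key (-1) (-1) (by convert h using 1; push_cast; ring)
  · obtain ⟨s0, hq, s3, s27, -, hx, hk⟩ := h2 L u hT.u_ne hT.u3 hgL
    obtain ⟨s243, hr, hkM, hmu, hz⟩ := h3 L M mu u hT hgL hgM
    obtain ⟨hd, hf⟩ := hz u' hnM
    have p0 := psi L u (h1 L u hT.u_ne hT.u3).2 hgL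
    have p1 := psi L u' (h1 L u' hu' h3u').2 hgL
    have hmu0 := hT.mu_ne
    have hpar : par3 M (mu * u') =
        9 * kap M * (12 * xn M (mu * u') + 1) / (xn M (mu * u') ^ 3 - kap M) := rfl
    rw [hpar, hkM]
    generalize hs : par3 L u = s at *
    generalize hy : xn M (mu * u') = y at *
    generalize hX : xn L u' = X at *
    generalize hX0 : xn L u = X0 at *
    generalize hkk : kap L = κ at *
    -- the cubic for `X`
    have hc : (X + 3 * X0 + 1 / 3) * (X - X0) ^ 2 + (6 * X0 ^ 2 + X0 - 72 * κ) * (X - X0) +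
        (4 * X0 ^ 3 + X0 ^ 2 - 144 * κ * X0 - 4 * κ) = 0 := by
      have h5 : (X - X0) * ((X + 3 * X0 + 1 / 3) * (X - X0) ^ 2 +
          (6 * X0 ^ 2 + X0 - 72 * κ) * (X - X0) +
          (4 * X0 ^ 3 + X0 ^ 2 - 144 * κ * X0 - 4 * κ)) = 0 := by
        linear_combination (p1 - p0) / 3
      exact (mul_eq_zero.1 h5).resolve_left hd
    have ht : 6 * X0 ^ 2 + X0 - 72 * κ = (s + 3) ^ 2 * (s + 27) / q3 s ^ 2 := by
      rw [hx, hk]
      unfold q3 at *
      field_simp
      ring
    have hw : 4 * X0 ^ 3 + X0 ^ 2 - 144 * κ * X0 - 4 * κ = (s + 3) ^ 3 * (s + 27) / q3 s ^ 3 := by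
      rw [hx, hk]
      unfold q3 at *
      field_simp
      ring
    rw [ht, hw] at hc
    have h5 : mu ^ 2 * y = (1 - mu ^ 2) / 12 - 3 * X0 - 1 / 3 := by
      have h6 : X + (s + 3) ^ 2 * (s + 27) / q3 s ^ 2 / (X - X0) +
          (s + 3) ^ 3 * (s + 27) / q3 s ^ 3 / (X - X0) ^ 2 = -3 * X0 - 1 / 3 := by
        generalize (s + 3) ^ 2 * (s + 27) / q3 s ^ 2 = t at *
        generalize (s + 3) ^ 3 * (s + 27) / q3 s ^ 3 = w at *
        have h7 : w = -(X + 3 * X0 + 1 / 3) * (X - X0) ^ 2 - t * (X - X0) := by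
          linear_combination hc
        rw [h7]
        field_simp
        ring
      linear_combination hf + h6
    have h9 : y = -(s * (s + 81)) / (3 * r3 s) := by
      have h10 : mu ^ 2 ≠ 0 := pow_ne_zero _ hmu0
      apply mul_left_cancel₀ h10
      rw [h5, hmu, hx]
      have e : (s + 243) * q3 s - (s + 3) * r3 s - 36 * (s + 9) * (s + 243) -
          4 * (s + 243) * q3 s + 4 * (s + 3) * s * (s + 81) = 0 := by
        unfold q3 r3
        ring
      field_simp
      linear_combination 3 * e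
    have h11 : y ^ 3 - s ^ 3 / r3 s ^ 2 = -(s ^ 4 * (s + 27) * (s + 243)) / (27 * r3 s ^ 3) := by
      rw [h9]
      field_simp
      unfold r3
      ring
    have h12 : 12 * y + 1 = -3 * (s + 27) * (s + 243) / r3 s := by
      rw [h9]
      field_simp
      unfold r3
      ring
    rw [h11, h12]
    field_simp
    ring

end

end Pool.Agent.MUX3


end

section

/-!
# MUX, block R3, module VEL: the quotient by a point of order three (helper72)
-/

set_option autoImplicit false

namespace Pool.Agent.MUX3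

open _root_.MU3 _root_.Pool.Agent.MU3A _root_.Pool.Agent.MU3B _root_.Pool.Agent.MUX _root_.Pool.Agent.MUXU _root_.Pool.Agent.MUX2
open WeierstrassCurve Polynomial

namespace VEL

/-- a polynomial of degree at most eight which vanishes on the nonzero numbers -/
theorem coefs {c0 c1 c2 c3 c4 c5 c6 c7 c8 : ℂ}
    (h : ∀ s : ℂ, s ≠ 0 → c0 + c1 * s + c2 * s ^ 2 + c3 * s ^ 3 + c4 * s ^ 4 + c5 * s ^ 5 +
      c6 * s ^ 6 + c7 * s ^ 7 + c8 * s ^ 8 = 0) :
    c0 = 0 ∧ c1 = 0 ∧ c6 = 0 ∧ c7 = 0 ∧ c8 = 0 := by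
  set Q : ℂ[X] := C c0 + C c1 * X + C c2 * X ^ 2 + C c3 * X ^ 3 + C c4 * X ^ 4 + C c5 * X ^ 5 +
    C c6 * X ^ 6 + C c7 * X ^ 7 + C c8 * X ^ 8 with hQ
  have hQ0 : Q = 0 := by
    apply Polynomial.eq_zero_of_infinite_isRoot
    apply Set.Infinite.mono (s := ({0} : Set ℂ)ᶜ)
    · intro s hs
      have hs' : s ≠ 0 := hs
      show Q.IsRoot s
      rw [IsRoot.def, hQ]
      simp only [eval_add, eval_mul, eval_pow, eval_X, eval_C]
      exact h s hs'
    · exact (Set.finite_singleton _).infinite_compl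
  have hc : ∀ n, Q.coeff n = 0 := fun n => by rw [hQ0, coeff_zero]
  have hcc : ∀ n, Q.coeff n = (if n = 0 then c0 else 0) + (if n = 1 then c1 else 0) +
      (if n = 2 then c2 else 0) + (if n = 3 then c3 else 0) + (if n = 4 then c4 else 0) +
      (if n = 5 then c5 else 0) + (if n = 6 then c6 else 0) + (if n = 7 then c7 else 0) +
      (if n = 8 then c8 else 0) := by
    intro n
    rw [hQ]
    simp only [coeff_add, coeff_C_mul, coeff_C, coeff_X, coeff_X_pow]
    simp only [mul_ite, mul_one, mul_zero, eq_comm (a := (1 : ℕ))]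
  refine ⟨?_, ?_, ?_, ?_, ?_⟩
  · have := hc 0
    rw [hcc] at this
    simpa using this
  · have := hc 1
    rw [hcc] at this
    simpa using this
  · have := hc 6
    rw [hcc] at this
    simpa using this
  · have := hc 7
    rw [hcc] at this
    simpa using this
  · have := hc 8
    rw [hcc] at this
    simpa using this

/-- the algebra: the differential equation determines the numerator and the invariants -/
theorem alg {g2 g3 G2 G3 mu e w : ℂ} (hmu : mu ≠ 0) (hw : w = 4 * e ^ 3 - g2 * e - g3)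
    (hw0 : w ≠ 0) {A : ℂ[X]} (hA : A.Monic) (hd : A.natDegree = 3)
    (hode : OdeP g2 g3 G2 G3 mu A (C (mu ^ 2) * (X - C e) ^ 2))
    (hc : IsCoprime A (C (mu ^ 2) * (X - C e) ^ 2)) :
    mu ^ 4 * G2 = 120 * e ^ 2 - 9 * g2 ∧
      mu ^ 6 * G3 = 280 * e ^ 3 - 42 * g2 * e - 27 * g3 ∧
      (∀ x : ℂ, A.eval x = (x - e) ^ 3 + e * (x - e) ^ 2 + (6 * e ^ 2 - g2 / 2) * (x - e) + w) ∧
      ∀ x : ℂ, (derivative A * (C (mu ^ 2) * (X - C e) ^ 2) -
        A * derivative (C (mu ^ 2) * (X - C e) ^ 2)).eval x =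
        mu ^ 2 * (x - e) * ((x - e) ^ 3 - (6 * e ^ 2 - g2 / 2) * (x - e) - 2 * w) := by
  obtain ⟨a, b, c, habc⟩ : ∃ a b c : ℂ, A = X ^ 3 + C a * X ^ 2 + C b * X + C c := by
    refine ⟨A.coeff 2, A.coeff 1, A.coeff 0, ?_⟩
    have h2 := A.as_sum_range_C_mul_X_pow
    have h3 : A.coeff 3 = 1 := by
      rw [← hd]
      exact hA
    rw [hd] at h2
    simp only [Finset.sum_range_succ, Finset.sum_range_zero, h3, pow_zero, pow_one, mul_one,
      map_one, one_mul, zero_add] at h2
    nth_rewrite 1 [h2]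
    ring
  set A2 : ℂ := 3 * e + a with hA2
  set A1 : ℂ := 3 * e ^ 2 + 2 * a * e + b with hA1
  set A0 : ℂ := e ^ 3 + a * e ^ 2 + b * e + c with hA0
  have hAe : ∀ s : ℂ, A.eval (e + s) = s ^ 3 + A2 * s ^ 2 + A1 * s + A0 := by
    intro s
    rw [habc, hA2, hA1, hA0]
    simp only [eval_add, eval_mul, eval_pow, eval_X, eval_C]
    ring
  have hdA : derivative A = C 3 * X ^ 2 + C (2 * a) * X + C b := by
    rw [habc]
    simp only [derivative_add, derivative_mul, derivative_X_pow, derivative_C, derivative_X]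
    simp only [map_mul]
    simp
    ring
  have hdB : derivative (C (mu ^ 2) * (X - C e) ^ 2) = C (2 * mu ^ 2) * (X - C e) := by
    rw [derivative_C_mul, derivative_X_sub_C_pow]
    simp only [map_mul]
    simp
    ring
  have hW : ∀ s : ℂ, (derivative A * (C (mu ^ 2) * (X - C e) ^ 2) -
      A * derivative (C (mu ^ 2) * (X - C e) ^ 2)).eval (e + s) =
        mu ^ 2 * s * (s ^ 3 - A1 * s - 2 * A0) := by
    intro s
    rw [hdB, hdA, eval_sub, eval_mul (p := A), hAe]
    simp only [eval_add, eval_mul, eval_sub, eval_X, eval_C, eval_pow, eval_ofNat]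
    rw [hA2, hA1, hA0]
    ring
  have hA0n : A0 ≠ 0 := by
    intro h0
    obtain ⟨u, v, huv⟩ := hc
    have h1 := congrArg (Polynomial.eval e) huv
    have h2 : A.eval e = 0 := by
      have := hAe 0
      rw [add_zero] at this
      rw [this, h0]
      ring
    rw [eval_add, eval_mul, eval_mul, h2, eval_mul, eval_pow, eval_sub, eval_X, eval_C, eval_C] at h1
    simp at h1
  have hfun : ∀ s : ℂ, s ≠ 0 → (4 * A0 ^ 2 * w - 4 * A0 ^ 3) +
      (4 * A0 * A1 * w + 4 * A0 ^ 2 * (12 * e ^ 2 - g2) - 12 * A1 * A0 ^ 2) * s +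
      (A1 ^ 2 * w + 4 * A0 * A1 * (12 * e ^ 2 - g2) + 48 * e * A0 ^ 2 -
        4 * (3 * A1 ^ 2 * A0 + 3 * A2 * A0 ^ 2)) * s ^ 2 +
      (-4 * A0 * w + A1 ^ 2 * (12 * e ^ 2 - g2) + 48 * e * A0 * A1 + 16 * A0 ^ 2 -
        4 * (A1 ^ 3 + 6 * A2 * A1 * A0 + 3 * A0 ^ 2)) * s ^ 3 +
      (-2 * A1 * w - 4 * A0 * (12 * e ^ 2 - g2) + 12 * e * A1 ^ 2 + 16 * A0 * A1 -
        4 * (3 * A2 ^ 2 * A0 + 3 * A2 * A1 ^ 2 + 6 * A1 * A0) + mu ^ 4 * G2 * A0) * s ^ 4 +
      (-2 * A1 * (12 * e ^ 2 - g2) - 48 * e * A0 + 4 * A1 ^ 2 -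
        4 * (3 * A1 ^ 2 + 3 * A2 ^ 2 * A1 + 6 * A2 * A0) + mu ^ 4 * G2 * A1) * s ^ 5 +
      (w - 24 * e * A1 - 16 * A0 - 4 * (A2 ^ 3 + 6 * A1 * A2 + 3 * A0) + mu ^ 4 * G2 * A2 +
        mu ^ 6 * G3) * s ^ 6 +
      ((12 * e ^ 2 - g2) - 8 * A1 - 4 * (3 * A2 ^ 2 + 3 * A1) + mu ^ 4 * G2) * s ^ 7 +
      (12 * e - 12 * A2) * s ^ 8 = 0 := by
    intro s hs
    have h1 := congrArg (Polynomial.eval (e + s)) hode
    rw [eval_mul, eval_pow, hW] at h1
    simp only [eval_mul, eval_sub, eval_pow, eval_X, eval_C, eval_ofNat, hAe] at h1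
    have hm4 : mu ^ 4 * s ^ 2 ≠ 0 := mul_ne_zero (pow_ne_zero _ hmu) (pow_ne_zero _ hs)
    apply mul_left_cancel₀ hm4
    rw [mul_zero]
    rw [hw]
    linear_combination h1
  obtain ⟨k0, k1, k6, k7, k8⟩ := coefs hfun
  have r0 : A0 = w := by
    have : 4 * A0 ^ 2 * (w - A0) = 0 := by linear_combination k0
    rcases mul_eq_zero.mp this with h | h
    · exact absurd h (mul_ne_zero (by norm_num) (pow_ne_zero _ hA0n))
    · exact (sub_eq_zero.mp h).symm
  have r1 : A1 = 6 * e ^ 2 - g2 / 2 := by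
    rw [r0] at k1
    have : 8 * w ^ 2 * (6 * e ^ 2 - g2 / 2 - A1) = 0 := by linear_combination k1
    rcases mul_eq_zero.mp this with h | h
    · exact absurd h (mul_ne_zero (by norm_num) (pow_ne_zero _ hw0))
    · exact (sub_eq_zero.mp h).symm
  have r2 : A2 = e := by
    have : (12 : ℂ) * (e - A2) = 0 := by linear_combination k8
    rcases mul_eq_zero.mp this with h | h
    · norm_num at h
    · exact (sub_eq_zero.mp h).symm
  have r3 : mu ^ 4 * G2 = 120 * e ^ 2 - 9 * g2 := by
    rw [r1, r2] at k7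
    linear_combination k7
  have r4 : mu ^ 6 * G3 = 280 * e ^ 3 - 42 * g2 * e - 27 * g3 := by
    rw [r3, r0, r1, r2, hw] at k6
    linear_combination k6
  refine ⟨r3, r4, fun x => ?_, fun x => ?_⟩
  · have := hAe (x - e)
    rw [add_sub_cancel, r0, r1, r2] at this
    exact this
  · have := hW (x - e)
    rw [add_sub_cancel, r0, r1] at this
    exact this

end VEL

theorem t3_VEL (h1 : Su_ISO) (h2 : Su_DER) : S3_VEL := by
  classical
  intro L M mu u hT
  have hper := hT.ker
  have h2u : 2 * u ∉ L.lattice := by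
    intro h
    apply hT.u_ne
    have : u = 3 * u - 2 * u := by ring
    rw [this]
    exact sub_mem hT.u3 h
  have hnu : -u ∉ L.lattice := fun h => hT.u_ne (by simpa using neg_mem h)
  have huu : u ≠ -u := by
    intro h
    apply h2u
    have : 2 * u = u - (-u) := by ring
    rw [this, ← h, sub_self]
    exact zero_mem _
  have hIsg : Isg L M mu := fun v hv => (hper v).mpr (Or.inl hv)
  have hRp : IsRpM L M mu {u, -u} := by
    constructor
    · intro q hq
      rw [Finset.mem_insert, Finset.mem_singleton] at hq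
      rcases hq with rfl | rfl
      · refine (hper q).mpr (Or.inr (Or.inl ?_))
        rw [sub_self]
        exact zero_mem _
      · refine (hper (-u)).mpr (Or.inr (Or.inr ?_))
        rw [neg_add_cancel]
        exact zero_mem _
    · intro q hq
      rw [Finset.mem_insert, Finset.mem_singleton] at hq
      rcases hq with rfl | rfl
      · exact hT.u_ne
      · exact hnu
    · intro q hq q' hq' h
      rw [Finset.mem_insert, Finset.mem_singleton] at hq hq'
      rcases hq with rfl | rfl <;> rcases hq' with rfl | rfl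
      · rfl
      · exfalso
        apply h2u
        have : 2 * q = q - -q := by ring
        rw [this]
        exact h
      · exfalso
        apply h2u
        have : 2 * q' = -(-q' - q') := by ring
        rw [this]
        exact neg_mem h
      · rfl
    · intro z hz hzL
      rcases (hper z).mp hz with h | h | h
      · exact absurd h hzL
      · exact ⟨u, by simp, h⟩
      · refine ⟨-u, by simp, ?_⟩
        rw [sub_neg_eq_add]
        exact h
  obtain ⟨A, hA, hd, hode, hiso⟩ := h1 L M mu {u, -u} hT.mu_ne hIsg hRp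
  have hprod : ∏ q ∈ ({u, -u} : Finset ℂ), (X - C (L.weierstrassP q)) =
      (X - C (L.weierstrassP u)) ^ 2 := by
    rw [Finset.prod_pair huu, PeriodPair.weierstrassP_neg, pow_two]
  rw [hprod] at hode hiso
  rw [Finset.card_pair huu] at hd
  have hdu : L.derivWeierstrassP u ≠ 0 := fun h => h2u ((b_ZER L u hT.u_ne).mp h)
  set e : ℂ := L.weierstrassP u with he
  set w : ℂ := 4 * e ^ 3 - L.g₂ * e - L.g₃ with hw
  have hw0 : w ≠ 0 := by
    have := PeriodPair.derivWeierstrassP_sq L u hT.u_ne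
    rw [hw, he, ← this]
    exact pow_ne_zero _ hdu
  obtain ⟨c1, c2, c3, c4⟩ := VEL.alg hT.mu_ne hw hw0 hA hd hode hiso.cop
  refine ⟨c1, c2, fun z hz => ?_⟩
  have hzL : z ∉ L.lattice := fun h => hz ((hper z).mpr (Or.inl h))
  have hzu : z - u ∉ L.lattice := fun h => hz ((hper z).mpr (Or.inr (Or.inl h)))
  have hzu' : z + u ∉ L.lattice := fun h => hz ((hper z).mpr (Or.inr (Or.inr h)))
  have hne : L.weierstrassP z - e ≠ 0 := by
    intro h
    rcases b_NEQ L u z hT.u_ne hzL (sub_eq_zero.mp h) with h' | h'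
    · exact hzu h'
    · exact hzu' h'
  set x : ℂ := L.weierstrassP z with hx
  refine ⟨hne, ?_, ?_⟩
  · have hP := hiso.P z hzL hz
    rw [c3 x] at hP
    rw [eval_mul, eval_pow, eval_sub, eval_C, eval_X, eval_C, ← hx] at hP
    have h5 : mu ^ 2 * M.weierstrassP (mu * z) =
        ((x - e) ^ 3 + e * (x - e) ^ 2 + (6 * e ^ 2 - L.g₂ / 2) * (x - e) + w) / (x - e) ^ 2 := by
      rw [eq_div_iff (pow_ne_zero _ hne)]
      linear_combination hP
    rw [h5]
    field_simp
    ring
  · have hD := h2 L M mu A _ hiso z hzL hz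
    rw [c4 x] at hD
    rw [eval_mul, eval_pow, eval_sub, eval_C, eval_X, eval_C, ← hx] at hD
    have hm2 : mu ^ 2 * (x - e) ≠ 0 := mul_ne_zero (pow_ne_zero _ hT.mu_ne) hne
    have h3 : mu ^ 3 * M.derivWeierstrassP (mu * z) * (x - e) ^ 3 =
        ((x - e) ^ 3 - (6 * e ^ 2 - L.g₂ / 2) * (x - e) - 2 * w) * L.derivWeierstrassP z := by
      apply mul_left_cancel₀ hm2
      linear_combination hD
    have h4 : mu ^ 3 * M.derivWeierstrassP (mu * z) =
        ((x - e) ^ 3 - (6 * e ^ 2 - L.g₂ / 2) * (x - e) - 2 * w) * L.derivWeierstrassP z /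
          (x - e) ^ 3 := by
      rw [eq_div_iff (pow_ne_zero _ hne)]
      exact h3
    rw [h4]
    field_simp

end Pool.Agent.MUX3


end
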