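import Mathlib
import Pool.Agent.MVF.C031
import Pool.Agent.MVF.C041
import Pool.Agent.MVF.C045
import Pool.Agent.MVF.C057
import Pool.Agent.MVF.C074
import Pool.Agent.MVF.C086

/-! Parts: MUX.C_RP3, MUX.Q_VQI, MUX.Q_TOR, MUX.Q_THU, MUX.Q_DGI, MUX.Q_ALU, MUX.R_R5, MUX.R_MUN, MUX.R_MLT, MUX.R_MIN, MUX.R_HAL, MUX.RQ0, MU3.W_DISI, MU3.A_T3 -/

namespace Pool.Agent.MUXC.RP3
end Pool.Agent.MUXC.RP3
namespace Pool.Agent.MUXV.DgiX
end Pool.Agent.MUXV.DgiX
namespace Pool.Agent.MUXV.Mun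
end Pool.Agent.MUXV.Mun
namespace Pool.Agent.MUXV.Q_ALU
end Pool.Agent.MUXV.Q_ALU
namespace Pool.Agent.MUXV.R5
end Pool.Agent.MUXV.R5
namespace Pool.Agent.MUXV.RMin
end Pool.Agent.MUXV.RMin
namespace Pool.Agent.MUXV.THUaux
end Pool.Agent.MUXV.THUaux
namespace Pool.Agent.MUXV.VQIaux
end Pool.Agent.MUXV.VQIaux

section

/-!
# MUX, block XC, module RP3: factorisation into primes of degree one (helper55)
-/

set_option autoImplicit false

namespace Pool.Agent.MUXC

open _root_.MU3 _root_.Pool.Agent.MU3A _root_.Pool.Agent.MU3B _root_.Pool.Agent.MUX _root_.Pool.Agent.MUXU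
open _root_.Pool.Agent.MUXE (NL Sxe_RNG)

namespace RP3

variable {A B : ℤ}

/-- a prime ideal which contains the natural number `n ≠ 0` contains a prime factor of `n` -/
lemma exists_prime {Q : Ideal (OO A B)} (hQ : Q.IsPrime) :
    ∀ n : ℕ, n ≠ 0 → ((n : ℕ) : OO A B) ∈ Q → ∃ q : ℕ, q.Prime ∧ ((q : ℕ) : OO A B) ∈ Q := by
  intro n
  induction n using Nat.recOnMul with
  | zero => intro h0; exact absurd rfl h0
  | one =>
    intro _ h1
    exact absurd ((Ideal.eq_top_iff_one _).2 (by simpa using h1)) hQ.ne_top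
  | prime p hp => intro _ h; exact ⟨p, hp, h⟩
  | mul a b ha hb =>
    intro h0 h
    rw [Nat.cast_mul] at h
    rcases hQ.mem_or_mem h with h1 | h1
    · exact ha (left_ne_zero_of_mul h0) h1
    · exact hb (right_ne_zero_of_mul h0) h1

lemma nI_eq_one (h : CQ A B) {Q : Ideal (OO A B)} (hQ : Q ≠ ⊥) (h1 : nI Q = 1) : Q = ⊤ := by
  have := nI_mem h hQ
  rw [h1, Nat.cast_one] at this
  exact (Ideal.eq_top_iff_one _).2 this

end RP3

open _root_.Pool.Agent.MUXC.RP3 in
theorem tc_RP3 (hR : Sxe_RNG) : Sc_RP3 := by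
  intro A B h N hN
  have hE := hR A B h
  have hdom : IsDomain (OO A B) := isDomain h
  have hded : IsDedekindDomain (OO A B) := hE.ded
  have key : ∀ (k : ℕ) (c : Ideal (OO A B)), nI c = k → c ≠ ⊥ →
      (∀ P : Ideal (OO A B), P.IsPrime → P ≠ ⊥ → ((N : ℕ) : OO A B) ∈ P → ¬ c ≤ P) →
      (∀ l : ℕ, l.Prime → ¬ c ≤ sp ((l : ℕ) : OO A B)) →
      ∃ ls : List (Ideal (OO A B)), ls.prod = c ∧ ∀ Q ∈ ls, Q.IsPrime ∧ ∃ q : ℕ, q.Prime ∧
        nI Q = q ∧ ¬ q ∣ N := by
    intro k
    induction k using Nat.strong_induction_on with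
    | _ k ih =>
    intro c hk hc h1 h2
    by_cases htop : c = ⊤
    · exact ⟨[], by rw [htop, List.prod_nil, Ideal.one_eq_top], by simp⟩
    obtain ⟨Q, hQm, hcQ⟩ := Ideal.exists_le_maximal c htop
    have hQp : Q.IsPrime := hQm.isPrime
    have hQ0 : Q ≠ ⊥ := by
      rintro rfl
      exact hc (le_bot_iff.1 hcQ)
    obtain ⟨c', rfl⟩ := Ideal.dvd_iff_le.2 hcQ
    have hc' : c' ≠ ⊥ := by
      rintro rfl
      exact hc (Ideal.mul_bot Q)
    have hmul := nI_mul h hQ0 hc'
    have hnc : nI c' ≠ 0 := nI_ne_zero h hc'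
    -- the prime number
    obtain ⟨q, hq, hqQ⟩ := exists_prime hQp (nI Q) (nI_ne_zero h hQ0) (nI_mem h hQ0)
    have hq0 : ((q : ℕ) : OO A B) ≠ 0 := natCast_ne_zero' h hq.ne_zero
    have hspq : sp ((q : ℕ) : OO A B) ≠ ⊥ := by
      intro e
      exact hq0 (Ideal.span_singleton_eq_bot.1 e)
    obtain ⟨Q', hQ'⟩ := Ideal.dvd_iff_le.2 ((Ideal.span_singleton_le_iff_mem Q).2 hqQ)
    have hQ'0 : Q' ≠ ⊥ := by
      rintro rfl
      exact hspq (hQ'.trans (Ideal.mul_bot Q))
    have hn2 : nI (sp ((q : ℕ) : OO A B)) = q ^ 2 := by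
      rw [nI_sp h hq0]
      have := nm_intCast (A := A) (B := B) (q : ℤ)
      have e : (((q : ℕ) : ℤ) : OO A B) = ((q : ℕ) : OO A B) := by push_cast; rfl
      rw [e] at this
      rw [this]
      rw [← Nat.cast_pow, Int.natAbs_natCast]
    have hn3 : nI Q * nI Q' = q ^ 2 := by
      rw [← nI_mul h hQ0 hQ'0, ← hn2]
      exact congrArg nI hQ'.symm
    have hne1 : nI Q ≠ 1 := fun e => hQp.ne_top (nI_eq_one h hQ0 e)
    obtain ⟨j, hj, hj'⟩ := (Nat.dvd_prime_pow hq).1 (Dvd.intro _ hn3)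
    have hnq : nI Q = q := by
      interval_cases j
      · exact absurd (by simpa using hj') hne1
      · simpa using hj'
      · exfalso
        have e1 : nI Q' = 1 := by
          rw [hj'] at hn3
          have : 0 < q ^ 2 := pow_pos hq.pos 2
          exact Nat.eq_of_mul_eq_mul_left this (by rw [hn3, mul_one])
        have e2 := nI_eq_one h hQ'0 e1
        rw [e2, Ideal.mul_top] at hQ'
        exact h2 q hq (by rw [show sp ((q : ℕ) : OO A B) = Q from hQ']; exact hcQ)
    have hle : Q * c' ≤ c' := Ideal.mul_le_right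
    obtain ⟨ls, hls, hls'⟩ := ih (nI c') (by
      rw [← hk, hmul]
      have : 1 < nI Q := by rw [hnq]; exact hq.one_lt
      exact lt_mul_of_one_lt_left (Nat.pos_of_ne_zero hnc) this) c' rfl hc'
      (fun P hP hP0 hNP hle' => h1 P hP hP0 hNP (hle.trans hle'))
      (fun l hl hle' => h2 l hl (hle.trans hle'))
    refine ⟨Q :: ls, by rw [List.prod_cons, hls], ?_⟩
    intro I hI
    rcases List.mem_cons.1 hI with e | e
    · subst e
      refine ⟨hQp, q, hq, hnq, ?_⟩
      rintro ⟨t, ht⟩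
      refine h1 _ hQp hQ0 ?_ hcQ
      rw [ht, Nat.cast_mul]
      exact Ideal.mul_mem_right _ _ hqQ
    · exact hls' I e
  intro c hc h1 h2
  exact key (nI c) c rfl hc h1 h2

end Pool.Agent.MUXC


end

section

/-!
# MUX, block R, part 2: the integers at a place above a prime ideal of degree one (module VQI)
-/

set_option autoImplicit false

open WeierstrassCurve Polynomial

namespace Pool.Agent.MUXV

open _root_.MU3 _root_.Pool.Agent.MU3A _root_.Pool.Agent.MU3B _root_.Pool.Agent.MUXU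
open _root_.Pool.Agent.MUXF (CQ)

noncomputable section

namespace VQIaux

/-- Integers are integral at `V`. -/
lemma v_int_le (V : ValuationSubring ℂ) (s : ℤ) : V.valuation (s : ℂ) ≤ 1 :=
  (ValuationSubring.valuation_le_one_iff _ _).2 (intCast_mem V s)

lemma v_int_eq_one {V : ValuationSubring ℂ} {q : ℕ} (hq : q.Prime) (hv : V.valuation (q : ℂ) < 1)
    {s : ℤ} (hs : ¬ (q : ℤ) ∣ s) : V.valuation (s : ℂ) = 1 := by
  have h1 : V.valuation (s : ℂ) ≤ 1 := v_int_le V s
  refine le_antisymm h1 ?_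
  by_contra hc
  push Not at hc
  have h2 : IsCoprime (q : ℤ) s := (Int.isCoprime_iff_gcd_eq_one.2
    ((Nat.Prime.coprime_iff_not_dvd hq).2 (by
      intro h3
      exact hs (Int.natCast_dvd.2 h3))))
  obtain ⟨x, y, hxy⟩ := h2
  have h3 : (x : ℂ) * q + y * s = 1 := by exact_mod_cast congrArg (Int.cast : ℤ → ℂ) hxy
  have hx : V.valuation ((x : ℂ) * q) < 1 := by
    rw [map_mul, mul_comm]
    exact mul_lt_one_of_lt_of_le hv (v_int_le V x)
  have hy : V.valuation ((y : ℂ) * s) < 1 := by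
    rw [map_mul, mul_comm]
    exact mul_lt_one_of_lt_of_le hc (v_int_le V y)
  have h4 := Valuation.map_add_lt V.valuation hx hy
  rw [h3, map_one] at h4
  exact lt_irrefl _ h4

/-- A root of `w² = A + B w` is integral at `V`. -/
lemma v_root_le (V : ValuationSubring ℂ) {A B : ℤ} {w : ℂ} (hw : w ^ 2 = A + B * w) :
    V.valuation w ≤ 1 := by
  by_contra hc
  push Not at hc
  have h1 : V.valuation (w ^ 2) ≤ V.valuation w := by
    rw [hw]
    refine (Valuation.map_add _ _ _).trans (max_le ((v_int_le V A).trans hc.le) ?_)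
    rw [map_mul]
    exact mul_le_of_le_one_left' (v_int_le V B)
  rw [map_pow, pow_two] at h1
  have h2 : V.valuation w * 1 < V.valuation w * V.valuation w := by
    exact mul_lt_mul_of_pos_left hc (lt_trans zero_lt_one hc)
  rw [mul_one] at h2
  exact absurd (h2.trans_le h1) (lt_irrefl _)

/-- All elements of `O` are integral at `V`. -/
lemma v_emb_le (V : ValuationSubring ℂ) {A B : ℤ} (hw : wC A B ^ 2 = A + B * wC A B)
    (x : OO A B) : V.valuation (emb x) ≤ 1 := by
  unfold emb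
  refine (Valuation.map_add _ _ _).trans (max_le (v_int_le V _) ?_)
  rw [map_mul]
  exact mul_le_one' (v_int_le V _) (v_root_le V hw)

end VQIaux

open _root_.Pool.Agent.MUXV.VQIaux in
theorem tq_VQI (hDGI : Sq_DGI) (hEMB : Sq_EMB) : Sq_VQI := by
  intro A B hAB V
  obtain ⟨-, -, hsub, hint, -, -, hw, -⟩ := hEMB A B hAB
  refine ⟨v_emb_le V hw, ?_⟩
  intro Q q hq hcard hO
  obtain ⟨r, -, hr⟩ := hDGI A B Q q hq hcard
  have hqQ : (((q : ℤ) : OO A B)) ∈ Q := by
    rw [hr]
    simp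
  have hvq : V.valuation (q : ℂ) < 1 := by
    have h1 := hO _ hqQ
    rw [hint] at h1
    simpa using h1
  refine ⟨hvq, fun s hs => v_int_eq_one hq hvq hs, ?_⟩
  intro x hx
  have hs : ¬ (q : ℤ) ∣ x.re + x.im * r := fun h => hx ((hr x).2 h)
  have h1 : V.valuation ((x.re + x.im * r : ℤ) : ℂ) = 1 := v_int_eq_one hq hvq hs
  have h2 : x - ((x.re + x.im * r : ℤ) : OO A B) ∈ Q := by
    rw [hr]
    simp
  have h3 := hO _ h2
  rw [hsub, hint] at h3
  have h4 : emb x = ((x.re + x.im * r : ℤ) : ℂ) + (emb x - ((x.re + x.im * r : ℤ) : ℂ)) := by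
    ring
  rw [h4, Valuation.map_add_eq_of_lt_left V.valuation (by rw [h1]; exact h3), h1]

end

end Pool.Agent.MUXV


end

section

/-!
# MUX, block R, part 2: module TOR, torsion of order prime to the residue characteristic
-/

set_option autoImplicit false

open WeierstrassCurve Polynomial

namespace Pool.Agent.MUXV

open _root_.MU3 _root_.Pool.Agent.MU3A _root_.Pool.Agent.MU3B _root_.Pool.Agent.MUXU
open _root_.Pool.Agent.MUXF (CQ)

theorem tq_TOR (h : Sq_EMB) : Sq_TOR := by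
  intro A B hc V W L X Y ξ G hL m hm z hz hE
  obtain ⟨hmul, -, -, -, hnat, -, -, -, hstar, -, hnn, -, -⟩ := h A B hc
  obtain ⟨n, hn⟩ := Int.eq_ofNat_of_zero_le (hnn m)
  have h1 : emb (star m) * (emb m * z) = (n : ℂ) * z := by
    rw [← mul_assoc, ← hmul, mul_comm (star m) m, hstar m, hn]
    have h2 : (((n : ℤ)) : OO A B) = ((n : ℕ) : OO A B) := by simp
    rw [h2, hnat n]
  refine mem_of_nat_mul G hE (n := n) ?_ ?_
  · have h5 : (((nm m : ℤ) : ℂ)) = (n : ℂ) := by rw [hn]; simp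
    rwa [h5] at hm
  · rw [← h1]
    exact hL (star m) _ hz

end Pool.Agent.MUXV


end

section

/-!
# MUX, THU: `Θ_a` is a unit and depends only on the reduction (helper92)
-/

set_option autoImplicit false

open WeierstrassCurve Polynomial

namespace Pool.Agent.MUXV

open _root_.MU3 _root_.Pool.Agent.MU3A _root_.Pool.Agent.MU3B _root_.Pool.Agent.MUXU
open _root_.Pool.Agent.MUXF (CQ)

noncomputable section

namespace THUaux

lemma mul_lt_one_of {V : ValuationSubring ℂ} {x y : ℂ} (hx : V.valuation x ≤ 1)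
    (hy : V.valuation y < 1) : V.valuation (x * y) < 1 := by
  rw [map_mul]
  exact lt_of_le_of_lt (mul_le_of_le_one_left' hx) hy

lemma prod_congr_val {V : ValuationSubring ℂ} (S : Finset ℂ) (f g : ℂ → ℂ)
    (hf : ∀ p ∈ S, V.valuation (f p) ≤ 1) (hfg : ∀ p ∈ S, V.valuation (g p - f p) < 1) :
    V.valuation (∏ p ∈ S, f p) ≤ 1 ∧ V.valuation (∏ p ∈ S, g p - ∏ p ∈ S, f p) < 1 := by
  classical
  induction S using Finset.induction_on with
  | empty => simp
  | insert a S ha ih =>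
    obtain ⟨i1, i2⟩ := ih (fun p hp => hf p (Finset.mem_insert_of_mem hp))
      (fun p hp => hfg p (Finset.mem_insert_of_mem hp))
    have hfa := hf a (Finset.mem_insert_self a S)
    have hfga := hfg a (Finset.mem_insert_self a S)
    have hga : V.valuation (g a) ≤ 1 := by
      have e : g a = (g a - f a) + f a := by ring
      rw [e]
      exact (V.valuation.map_add _ _).trans (max_le hfga.le hfa)
    rw [Finset.prod_insert ha, Finset.prod_insert ha]
    refine ⟨?_, ?_⟩
    · rw [map_mul]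
      exact mul_le_one' hfa i1
    · have e : g a * ∏ p ∈ S, g p - f a * ∏ p ∈ S, f p =
          g a * (∏ p ∈ S, g p - ∏ p ∈ S, f p) + (∏ p ∈ S, f p) * (g a - f a) := by ring
      rw [e]
      exact V.valuation.map_add_lt (mul_lt_one_of hga i2) (mul_lt_one_of i1 hfga)

end THUaux

open _root_.Pool.Agent.MUXV.THUaux

theorem tq_THU : Sq_THU := by
  intro V L c W ξ G a H ha hH
  have hsub : ∀ z p : ℂ, L.weierstrassP z - L.weierstrassP p =
      (fun z => L.weierstrassP z - c) z - (fun z => L.weierstrassP z - c) p := by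
    intro z p
    ring
  obtain ⟨n, han⟩ : ∃ n : ℕ, (a : ℂ) = (n : ℂ) ∨ (a : ℂ) = -(n : ℂ) := by
    obtain ⟨n, h | h⟩ := a.eq_nat_or_neg
    · exact ⟨n, Or.inl (by rw [h]; push_cast; rfl)⟩
    · exact ⟨n, Or.inr (by rw [h]; push_cast; rfl)⟩
  have hn : V.valuation (n : ℂ) = 1 := by
    rcases han with h | h
    · rw [← h]
      exact ha
    · rw [h, Valuation.map_neg] at ha
      exact ha
  have hnp : ∀ p : ℂ, (a : ℂ) * p ∈ L.lattice → (n : ℂ) * p ∈ L.lattice := by
    intro p hp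
    rcases han with h | h
    · rw [← h]
      exact hp
    · have h5 : (n : ℂ) * p = -((a : ℂ) * p) := by rw [h]; ring
      rw [h5]
      exact neg_mem hp
  have hpE : ∀ p ∈ H, ¬ InK V L (fun z => L.weierstrassP z - c) p := by
    intro p hp hE
    have hpL := mem_of_nat_mul G hE hn (hnp p (hH.mem p hp))
    apply hH.ne p hp
    rw [two_mul]
    exact add_mem hpL hpL
  refine ⟨?_, ?_⟩
  · intro z hz
    have hzE : ¬ InK V L (fun z => L.weierstrassP z - c) z := fun h => hz (inK_int G h a)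
    unfold ThetaH
    rw [map_prod]
    refine Finset.prod_eq_one fun p hp => ?_
    rw [hsub]
    refine v_X_sub G hzE (hpE p hp) ?_ ?_
    · intro h
      apply hz
      refine (inK_congr G (w := a * (z + p)) (inK_of_mem ?_)).2
        (inK_int G h a)
      have e : (a : ℂ) * z - a * (z + p) = -(a * p) := by ring
      rw [e]
      exact neg_mem (hH.mem p hp)
    · intro h
      apply hz
      refine (inK_congr G (w := a * (z - p)) (inK_of_mem ?_)).2
        (inK_int G h a)
      have e : (a : ℂ) * z - a * (z - p) = a * p := by ring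
      rw [e]
      exact hH.mem p hp
  · intro z r hz hr
    unfold ThetaH
    refine prod_congr_val H (fun p => L.weierstrassP z - L.weierstrassP p)
      (fun p => L.weierstrassP (z + r) - L.weierstrassP p) ?_ ?_
    · intro p hp
      simp only [hsub z p]
      exact (V.valuation.map_sub _ _).trans (max_le (int_X hz).2 (int_X (hpE p hp)).2)
    · intro p hp
      have e : (L.weierstrassP (z + r) - L.weierstrassP p) - (L.weierstrassP z - L.weierstrassP p) =
          (fun z => L.weierstrassP z - c) (z + r) - (fun z => L.weierstrassP z - c) z := by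
        simp only
        ring
      simp only [e]
      exact (near_lt G hz hr).1

end

end Pool.Agent.MUXV


end

section

/-!
# MUX, block R, part 2, module DGI (helper96): ideals of prime norm
-/

set_option autoImplicit false

namespace Pool.Agent.MUXV

open _root_.MU3

noncomputable section

namespace DgiX

variable {A B : ℤ}

theorem decomp (x : OO A B) :
    x = ((x.re : ℤ) : OO A B) + ((x.im : ℤ) : OO A B) * (⟨0, 1⟩ : OO A B) := by
  apply QuadraticAlgebra.ext
  · simp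
  · simp

theorem w_sq (A B : ℤ) : (⟨0, 1⟩ : OO A B) * ⟨0, 1⟩ =
    ((A : ℤ) : OO A B) + ((B : ℤ) : OO A B) * (⟨0, 1⟩ : OO A B) := by
  apply QuadraticAlgebra.ext
  · simp
  · simp

end DgiX

open _root_.Pool.Agent.MUXV.DgiX in
/-- An ideal of prime norm `q`. -/
theorem tq_DGI : Sq_DGI := by
  intro A B Q q hq hcard
  have hfact : Fact q.Prime := ⟨hq⟩
  have hfin : Finite (OO A B ⧸ Q) := Nat.finite_of_card_ne_zero (by rw [hcard]; exact hq.ne_zero)
  have hft : Fintype (OO A B ⧸ Q) := Fintype.ofFinite _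
  have hcard' : Fintype.card (OO A B ⧸ Q) = q := by
    rw [← Nat.card_eq_fintype_card]; exact hcard
  let φ : ZMod q ≃+* (OO A B ⧸ Q) := ZMod.ringEquivOfPrime (OO A B ⧸ Q) hq hcard'
  let f : OO A B →+* ZMod q := φ.symm.toRingHom.comp (Ideal.Quotient.mk Q)
  obtain ⟨r, hr⟩ : ∃ r : ℤ, (r : ZMod q) = f ⟨0, 1⟩ := ZMod.intCast_surjective _
  have hfx : ∀ x : OO A B, f x = ((x.re + x.im * r : ℤ) : ZMod q) := by
    intro x
    have h1 := congrArg f (decomp x)
    rw [map_add, map_mul, map_intCast, map_intCast, ← hr] at h1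
    rw [h1]
    push_cast
    rfl
  refine ⟨r, ?_, ?_⟩
  · have h1 := congrArg f (w_sq A B)
    rw [map_add, map_mul, map_mul, map_intCast, map_intCast, ← hr] at h1
    rw [← ZMod.intCast_zmod_eq_zero_iff_dvd]
    push_cast
    linear_combination h1
  · intro x
    have h1 : x ∈ Q ↔ f x = 0 := by
      have h2 : f x = φ.symm (Ideal.Quotient.mk Q x) := rfl
      rw [h2, EmbeddingLike.map_eq_zero_iff, Ideal.Quotient.eq_zero_iff_mem]
    rw [h1, hfx, ZMod.intCast_zmod_eq_zero_iff_dvd]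

end

end Pool.Agent.MUXV


end

section

/-!
# MUXQ_ALU: a nonzero algebraic number is a unit outside finitely many primes
-/

set_option autoImplicit false

namespace Pool.Agent.MUXV

namespace Q_ALU

/-- an element integral over `ℤ` is in `V`. -/
theorem le_of_integral {V : ValuationSubring ℂ} {x : ℂ} (hx : IsIntegral ℤ x) :
    V.valuation x ≤ 1 := by
  have h2 : IsIntegral V x := hx.tower_top
  obtain ⟨y, hy⟩ := IsIntegrallyClosed.isIntegral_iff.1 h2
  rw [V.valuation_le_one_iff, ← hy]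
  exact y.2

theorem mult {x : ℂ} (hx : IsAlgebraic ℚ x) : ∃ m : ℤ, m ≠ 0 ∧ IsIntegral ℤ ((m : ℂ) * x) := by
  have h1 : IsAlgebraic ℤ x := (IsFractionRing.isAlgebraic_iff ℤ ℚ ℂ).2 hx
  obtain ⟨y, hy, hi⟩ := h1.exists_integral_multiple
  refine ⟨y, hy, ?_⟩
  rwa [zsmul_eq_mul] at hi

end Q_ALU

open _root_.Pool.Agent.MUXV.Q_ALU in
theorem tq_ALU : Sq_ALU := by
  intro x hx hx0
  obtain ⟨m₁, h₁, i₁⟩ := mult hx
  obtain ⟨m₂, h₂, i₂⟩ := mult hx.inv
  refine ⟨(m₁ * m₂).natAbs, Int.natAbs_ne_zero.2 (mul_ne_zero h₁ h₂), fun V hV => ?_⟩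
  have hint : ∀ m : ℤ, V.valuation (m : ℂ) ≤ 1 := fun m =>
    (V.valuation_le_one_iff _).2 (intCast_mem V.toSubring m)
  have hV2 : V.valuation ((m₁ : ℂ)) * V.valuation (m₂ : ℂ) = 1 := by
    rw [← map_mul]
    have e : (((m₁ * m₂).natAbs : ℕ) : ℂ) = (((m₁ * m₂).natAbs : ℤ) : ℂ) := (Int.cast_natCast _).symm
    rw [e] at hV
    rcases Int.natAbs_eq (m₁ * m₂) with h | h
    · rw [← h] at hV
      push_cast at hV
      exact hV
    · have h' : (((m₁ * m₂).natAbs : ℕ) : ℤ) = -(m₁ * m₂) := by omega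
      rw [h'] at hV
      push_cast at hV
      rwa [Valuation.map_neg] at hV
  have e1 : V.valuation (m₁ : ℂ) = 1 := by
    refine le_antisymm (hint _) ?_
    rw [← hV2]
    calc V.valuation (m₁ : ℂ) * V.valuation (m₂ : ℂ) ≤ V.valuation (m₁ : ℂ) * 1 := by
          gcongr
          exact hint _
      _ = _ := mul_one _
  have e2 : V.valuation (m₂ : ℂ) = 1 := by
    rw [e1, one_mul] at hV2
    exact hV2
  have l1 : V.valuation x ≤ 1 := by
    have := le_of_integral (V := V) i₁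
    rwa [map_mul, e1, one_mul] at this
  have l2 : V.valuation x⁻¹ ≤ 1 := by
    have := le_of_integral (V := V) i₂
    rwa [map_mul, e2, one_mul] at this
  rw [map_inv₀] at l2
  have h0 : 0 < V.valuation x := by
    rw [zero_lt_iff]
    exact (Valuation.ne_zero_iff _).2 hx0
  exact le_antisymm l1 ((inv_le_one₀ h0).1 l2)

end Pool.Agent.MUXV


end

section

/-!
# MUX, block R: module R5 (an isogeny reduces to the Frobenius, up to a scalar)
-/

set_option autoImplicit false

open WeierstrassCurve Polynomial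

namespace Pool.Agent.MUXV

open _root_.Pool.Agent.MU3B _root_.Pool.Agent.MU3A _root_.Pool.Agent.MUXU

noncomputable section

namespace R5

/-- the computation in the residue field -/
lemma coreK {κ : Type*} [Field κ] (q : ℕ) [Fact q.Prime] [CharP κ q] (hq : Odd q)
    (h3 : (3 : κ) ≠ 0) {e1 e2 e3 f1 f2 f3 c G2 G3 G2' G3' : κ}
    (h21 : (f2 - f1) * c = (e2 - e1) ^ q) (h31 : (f3 - f1) * c = (e3 - e1) ^ q)
    (h32 : (f3 - f2) * c = (e3 - e2) ^ q)
    (s1 : e1 + e2 + e3 = 0) (t1 : f1 + f2 + f3 = 0)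
    (s2 : e1 * e2 + e1 * e3 + e2 * e3 = -G2) (t2 : f1 * f2 + f1 * f3 + f2 * f3 = -G2')
    (s3 : e1 * e2 * e3 = G3) (t3 : f1 * f2 * f3 = G3') :
    G2 ^ q = c ^ 2 * G2' ∧ G3 ^ q = c ^ 3 * G3' ∧ e1 ^ q = c * f1 := by
  rw [sub_pow_char] at h21 h31 h32
  have s1q : e1 ^ q + e2 ^ q + e3 ^ q = 0 := by
    rw [← add_pow_char, ← add_pow_char, s1]
    exact zero_pow hq.pos.ne'
  have a1 : e1 ^ q = c * f1 := by
    apply mul_left_cancel₀ h3
    linear_combination h21 + h31 + s1q - c * t1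
  have a2 : e2 ^ q = c * f2 := by
    apply mul_left_cancel₀ h3
    linear_combination h32 - h21 + s1q - c * t1
  have a3 : e3 ^ q = c * f3 := by
    apply mul_left_cancel₀ h3
    linear_combination (-1) * h31 - h32 + s1q - c * t1
  refine ⟨?_, ?_, a1⟩
  · have h := congrArg (fun x => x ^ q) s2
    simp only [add_pow_char, mul_pow] at h
    rw [a1, a2, a3, hq.neg_pow] at h
    linear_combination h - c ^ 2 * t2
  · have h := congrArg (fun x => x ^ q) s3
    simp only [mul_pow] at h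
    rw [a1, a2, a3] at h
    linear_combination (-1) * h + c ^ 3 * t3

lemma res_eq_iff (V : ValuationSubring ℂ) (a b : V) :
    IsLocalRing.residue V a = IsLocalRing.residue V b ↔ V.valuation ((a : ℂ) - b) < 1 := by
  rw [← sub_eq_zero, ← map_sub, IsLocalRing.residue_eq_zero_iff,
    ValuationSubring.valuation_lt_one_iff]
  rfl

lemma res_ne_iff (V : ValuationSubring ℂ) (a : V) :
    IsLocalRing.residue V a ≠ 0 ↔ V.valuation (a : ℂ) = 1 := by
  rw [Ne, IsLocalRing.residue_eq_zero_iff, ValuationSubring.valuation_lt_one_iff, not_lt]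
  constructor
  · intro h
    exact le_antisymm ((ValuationSubring.valuation_le_one_iff _ _).2 a.2) h
  · intro h
    exact h.ge

lemma nat_ne (V : ValuationSubring ℂ) (n : ℕ) (h : V.valuation (n : ℂ) = 1) :
    ((n : ℕ) : IsLocalRing.ResidueField V) ≠ 0 := by
  have h' := (res_ne_iff V (n : V)).2 (by simpa using h)
  rwa [map_natCast] at h'

/-- the same computation, modulo the maximal ideal of `V` -/
lemma coreV (V : ValuationSubring ℂ) (q : ℕ) (hqp : q.Prime) (hq : Odd q)
    (hvq : V.valuation (q : ℂ) < 1)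
    (h3 : V.valuation (3 : ℂ) = 1) {e1 e2 e3 f1 f2 f3 c G2 G3 G2' G3' : ℂ}
    (me1 : e1 ∈ V) (me2 : e2 ∈ V) (me3 : e3 ∈ V) (mf1 : f1 ∈ V) (mf2 : f2 ∈ V) (mf3 : f3 ∈ V)
    (mc : c ∈ V) (mG2 : G2 ∈ V) (mG3 : G3 ∈ V) (mG2' : G2' ∈ V) (mG3' : G3' ∈ V)
    (h21 : V.valuation ((f2 - f1) * c - (e2 - e1) ^ q) < 1)
    (h31 : V.valuation ((f3 - f1) * c - (e3 - e1) ^ q) < 1)
    (h32 : V.valuation ((f3 - f2) * c - (e3 - e2) ^ q) < 1)
    (s1 : e1 + e2 + e3 = 0) (t1 : f1 + f2 + f3 = 0)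
    (s2 : e1 * e2 + e1 * e3 + e2 * e3 = -G2) (t2 : f1 * f2 + f1 * f3 + f2 * f3 = -G2')
    (s3 : e1 * e2 * e3 = G3) (t3 : f1 * f2 * f3 = G3') :
    V.valuation (G2 ^ q - c ^ 2 * G2') < 1 ∧ V.valuation (G3 ^ q - c ^ 3 * G3') < 1 ∧
      V.valuation (e1 ^ q - c * f1) < 1 := by
  obtain ⟨E1, rfl⟩ : ∃ a : V, (a : ℂ) = e1 := ⟨⟨e1, me1⟩, rfl⟩
  obtain ⟨E2, rfl⟩ : ∃ a : V, (a : ℂ) = e2 := ⟨⟨e2, me2⟩, rfl⟩
  obtain ⟨E3, rfl⟩ : ∃ a : V, (a : ℂ) = e3 := ⟨⟨e3, me3⟩, rfl⟩
  obtain ⟨F1, rfl⟩ : ∃ a : V, (a : ℂ) = f1 := ⟨⟨f1, mf1⟩, rfl⟩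
  obtain ⟨F2, rfl⟩ : ∃ a : V, (a : ℂ) = f2 := ⟨⟨f2, mf2⟩, rfl⟩
  obtain ⟨F3, rfl⟩ : ∃ a : V, (a : ℂ) = f3 := ⟨⟨f3, mf3⟩, rfl⟩
  obtain ⟨K, rfl⟩ : ∃ a : V, (a : ℂ) = c := ⟨⟨c, mc⟩, rfl⟩
  obtain ⟨H2, rfl⟩ : ∃ a : V, (a : ℂ) = G2 := ⟨⟨G2, mG2⟩, rfl⟩
  obtain ⟨H3, rfl⟩ : ∃ a : V, (a : ℂ) = G3 := ⟨⟨G3, mG3⟩, rfl⟩
  obtain ⟨H2', rfl⟩ : ∃ a : V, (a : ℂ) = G2' := ⟨⟨G2', mG2'⟩, rfl⟩
  obtain ⟨H3', rfl⟩ : ∃ a : V, (a : ℂ) = G3' := ⟨⟨G3', mG3'⟩, rfl⟩
  have : Fact q.Prime := ⟨hqp⟩
  have hq0 : ((q : ℕ) : IsLocalRing.ResidueField V) = 0 := by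
    have h := (res_eq_iff V (q : V) 0).2 (by simpa using hvq)
    rw [map_zero, map_natCast] at h
    exact h
  have : CharP (IsLocalRing.ResidueField V) q := (CharP.charP_iff_prime_eq_zero hqp).2 hq0
  have h3' : (3 : IsLocalRing.ResidueField V) ≠ 0 := by
    have h := nat_ne V 3 (by exact_mod_cast h3)
    exact_mod_cast h
  have key := coreK (κ := IsLocalRing.ResidueField V) q hq h3'
    (e1 := IsLocalRing.residue V E1) (e2 := IsLocalRing.residue V E2)
    (e3 := IsLocalRing.residue V E3) (f1 := IsLocalRing.residue V F1)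
    (f2 := IsLocalRing.residue V F2) (f3 := IsLocalRing.residue V F3)
    (c := IsLocalRing.residue V K) (G2 := IsLocalRing.residue V H2)
    (G3 := IsLocalRing.residue V H3) (G2' := IsLocalRing.residue V H2')
    (G3' := IsLocalRing.residue V H3')
    (by
      rw [← map_sub, ← map_sub, ← map_mul, ← map_pow, res_eq_iff]
      push_cast
      exact h21)
    (by
      rw [← map_sub, ← map_sub, ← map_mul, ← map_pow, res_eq_iff]
      push_cast
      exact h31)
    (by
      rw [← map_sub, ← map_sub, ← map_mul, ← map_pow, res_eq_iff]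
      push_cast
      exact h32)
    (by
      rw [← map_add, ← map_add, ← map_zero (IsLocalRing.residue V)]
      congr 1
      exact Subtype.ext (by push_cast; exact s1))
    (by
      rw [← map_add, ← map_add, ← map_zero (IsLocalRing.residue V)]
      congr 1
      exact Subtype.ext (by push_cast; exact t1))
    (by
      rw [← map_mul, ← map_mul, ← map_mul, ← map_add, ← map_add, ← map_neg]
      congr 1
      exact Subtype.ext (by push_cast; exact s2))
    (by
      rw [← map_mul, ← map_mul, ← map_mul, ← map_add, ← map_add, ← map_neg]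
      congr 1
      exact Subtype.ext (by push_cast; exact t2))
    (by
      rw [← map_mul, ← map_mul]
      congr 1
      exact Subtype.ext (by push_cast; exact s3))
    (by
      rw [← map_mul, ← map_mul]
      congr 1
      exact Subtype.ext (by push_cast; exact t3))
  obtain ⟨k1, k2, k3⟩ := key
  refine ⟨?_, ?_, ?_⟩
  · rw [← map_pow, ← map_pow, ← map_mul, res_eq_iff] at k1
    push_cast at k1
    exact k1
  · rw [← map_pow, ← map_pow, ← map_mul, res_eq_iff] at k2
    push_cast at k2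
    exact k2
  · rw [← map_pow, ← map_mul, res_eq_iff] at k3
    push_cast at k3
    exact k3

/-- `x ↦ x ^ q` is additive modulo the maximal ideal -/
lemma frob_sub (V : ValuationSubring ℂ) (q : ℕ) (hqp : q.Prime)
    (hvq : V.valuation (q : ℂ) < 1) {a b : ℂ} (ha : a ∈ V) (hb : b ∈ V) :
    V.valuation ((a - b) ^ q - (a ^ q - b ^ q)) < 1 := by
  obtain ⟨E1, rfl⟩ : ∃ c : V, (c : ℂ) = a := ⟨⟨a, ha⟩, rfl⟩
  obtain ⟨E2, rfl⟩ : ∃ c : V, (c : ℂ) = b := ⟨⟨b, hb⟩, rfl⟩
  have : Fact q.Prime := ⟨hqp⟩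
  have hq0 : ((q : ℕ) : IsLocalRing.ResidueField V) = 0 := by
    have h := (res_eq_iff V (q : V) 0).2 (by simpa using hvq)
    rw [map_zero, map_natCast] at h
    exact h
  have : CharP (IsLocalRing.ResidueField V) q := (CharP.charP_iff_prime_eq_zero hqp).2 hq0
  have h := (res_eq_iff V ((E1 - E2) ^ q) (E1 ^ q - E2 ^ q)).1 (by
    rw [map_pow, map_sub, map_sub, map_pow, map_pow, sub_pow_char])
  push_cast at h
  exact h

/-- integrality of the invariants -/
lemma inv_mem {V : ValuationSubring ℂ} {a b c G2 G3 : ℂ} (ha : a ∈ V) (hb : b ∈ V) (hc : c ∈ V)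
    (s2 : a * b + a * c + b * c = -G2) (s3 : a * b * c = G3) : G2 ∈ V ∧ G3 ∈ V := by
  constructor
  · have h : -(a * b + a * c + b * c) ∈ V :=
      neg_mem (add_mem (add_mem (mul_mem ha hb) (mul_mem ha hc)) (mul_mem hb hc))
    rwa [s2, neg_neg] at h
  · rw [← s3]
    exact mul_mem (mul_mem ha hb) hc

end R5

open _root_.Pool.Agent.MUXV.R5 _root_.Pool.Agent.MU3.Val in
theorem tx_R5 (h1 : Sx_POL) (h3 : Sx_R2) (h4 : Sx_R4) (h7 : Sa_ROO) : Sx_R5 := by
  intro V L M c c' mu q H hI v3 hc hc' hvq hvmu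
  obtain ⟨WL, ξL, gL⟩ := hI.redL
  obtain ⟨WM, ξM, gM⟩ := hI.redM
  have v2 : V.valuation 2 = 1 := gL.two
  have hqp := hI.prime
  have hH := hI.half
  have hl0 := hI.mu_ne
  have hE := h3 V L M c c' mu q H hI hvmu
  obtain ⟨-, r2, r3⟩ := h4 V L M c c' mu q H hI hvq hE
  have hodd : Odd q := ⟨H.card, hI.card.symm⟩
  have hlL : ∀ u ∈ L.lattice, mu * u ∈ M.lattice := hI.sub
  have ordL : ∀ w, 2 * w ∈ L.lattice → w ∉ L.lattice →
      ¬ InK V L (fun z => L.weierstrassP z - c) w :=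
    fun w h2w hw hE' => hw (mem_of_nat_mul gL hE' (n := 2) (by exact_mod_cast v2)
      (by exact_mod_cast h2w))
  have ordM : ∀ w, 2 * w ∈ M.lattice → w ∉ M.lattice →
      ¬ InK V M (fun z => M.weierstrassP z - c') w :=
    fun w h2w hw hE' => hw (mem_of_nat_mul gM hE' (n := 2) (by exact_mod_cast v2)
      (by exact_mod_cast h2w))
  have lord : ∀ w, 2 * w ∈ L.lattice → w ∉ L.lattice → mu * w ∉ M.lattice := by
    intro w h2w hw hlw
    obtain ⟨p, hp, hp'⟩ := hH.surj w hlw hw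
    apply hH.ne p hp
    rcases hp' with h | h
    · have := sub_mem h2w (add_mem h h)
      convert this using 1
      ring
    · have := sub_mem (add_mem h h) h2w
      convert this using 1
      ring
  have lord2 : ∀ w, 2 * w ∈ L.lattice → 2 * (mu * w) ∈ M.lattice := by
    intro w h2w
    have := hlL _ h2w
    convert this using 1
    ring
  obtain ⟨w1, hw1⟩ : ∃ w, w = L.ω₁ / 2 := ⟨_, rfl⟩
  obtain ⟨w2, hw2⟩ : ∃ w, w = L.ω₂ / 2 := ⟨_, rfl⟩
  have m1 : w1 ∉ L.lattice := by
    rw [hw1]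
    exact L.ω₁_div_two_notMem_lattice
  have m2 : w2 ∉ L.lattice := by
    rw [hw2]
    exact L.ω₂_div_two_notMem_lattice
  have m3 : w1 + w2 ∉ L.lattice := by
    have h := (L.mul_ω₁_add_mul_ω₂_mem_lattice (α := 1 / 2) (β := 1 / 2)).not.mpr (by norm_num)
    rw [hw1, hw2]
    convert h using 2
    push_cast
    ring
  have t1 : 2 * w1 ∈ L.lattice := by
    rw [hw1]
    convert L.ω₁_mem_lattice using 1
    ring
  have t2 : 2 * w2 ∈ L.lattice := by
    rw [hw2]
    convert L.ω₂_mem_lattice using 1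
    ring
  have t3 : 2 * (w1 + w2) ∈ L.lattice := by
    rw [mul_add]
    exact add_mem t1 t2
  have l3 : mu * w1 + mu * w2 ∉ M.lattice := by
    rw [← mul_add]
    exact lord _ t3 m3
  obtain ⟨-, -, -, s1, s2, s3⟩ := h7 L w1 w2 m1 m2 m3 t1 t2
  obtain ⟨-, -, -, s1', s2', s3'⟩ := h7 M (mu * w1) (mu * w2) (lord _ t1 m1)
    (lord _ t2 m2) l3 (lord2 _ t1) (lord2 _ t2)
  have hxV : ∀ w, ¬ InK V L (fun z => L.weierstrassP z - c) w → L.weierstrassP w - c ∈ V := by
    intro w hw
    exact (ValuationSubring.valuation_le_one_iff _ _).1 (int_X hw).2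
  have hpV : ∀ w, ¬ InK V L (fun z => L.weierstrassP z - c) w → L.weierstrassP w ∈ V := by
    intro w hw
    have := add_mem (hxV w hw) hc
    rwa [sub_add_cancel] at this
  have hpM : ∀ w, ¬ InK V M (fun z => M.weierstrassP z - c') w → M.weierstrassP w ∈ V := by
    intro w hw
    have := add_mem ((ValuationSubring.valuation_le_one_iff _ _).1 (int_X hw).2) hc'
    simpa using this
  have e1V := hpV _ (ordL _ t1 m1)
  have e2V := hpV _ (ordL _ t2 m2)
  have e3V := hpV _ (ordL _ t3 m3)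
  have f1V := hpM _ (ordM _ (lord2 _ t1) (lord _ t1 m1))
  have f2V := hpM _ (ordM _ (lord2 _ t2) (lord _ t2 m2))
  have f3V : M.weierstrassP (mu * w1 + mu * w2) ∈ V :=
    hpM _ (ordM _ (by rw [mul_add]; exact add_mem (lord2 _ t1) (lord2 _ t2)) l3)
  obtain ⟨mG2, mG3⟩ := inv_mem e1V e2V e3V s2 s3
  obtain ⟨mG2', mG3'⟩ := inv_mem f1V f2V f3V s2' s3'
  -- the differences are units
  have hunitM : V.valuation (M.weierstrassP (mu * w2) - M.weierstrassP (mu * w1)) = 1 := by
    have h := v_X_sub gM (ordM _ (lord2 _ t2) (lord _ t2 m2))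
      (ordM _ (lord2 _ t1) (lord _ t1 m1))
      (ordM _ (by rw [mul_add]; exact add_mem (lord2 _ t2) (lord2 _ t1))
        (by rw [add_comm]; exact l3))
      (ordM _ (by rw [mul_sub]; exact sub_mem (lord2 _ t2) (lord2 _ t1))
        (by
          intro h
          apply l3
          have := add_mem h (lord2 _ t1)
          convert this using 1
          ring))
    rwa [sub_sub_sub_cancel_right] at h
  have hunitL : V.valuation (L.weierstrassP w2 - L.weierstrassP w1) = 1 := by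
    have h := v_X_sub gL (ordL _ t2 m2) (ordL _ t1 m1)
      (ordL _ (by rw [mul_add]; exact add_mem t2 t1) (by rw [add_comm]; exact m3))
      (ordL _ (by rw [mul_sub]; exact sub_mem t2 t1)
        (by
          intro h
          apply m3
          have := add_mem h t1
          convert this using 1
          ring))
    rwa [sub_sub_sub_cancel_right] at h
  -- the value of the square
  have hcu : ∀ x ∈ V, V.valuation ((QI L c mu H).eval x ^ 2) = 1 := by
    intro x hx
    have h := r2 w1 w2 t1 m1 t2 m2 x hx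
    have e : V.valuation ((QI L c mu H).eval x ^ 2) =
        V.valuation ((M.weierstrassP (mu * w2) - M.weierstrassP (mu * w1)) *
          (QI L c mu H).eval x ^ 2) := by
      rw [map_mul, hunitM, one_mul]
    have e' : (M.weierstrassP (mu * w2) - M.weierstrassP (mu * w1)) *
          (QI L c mu H).eval x ^ 2 =
        (L.weierstrassP w2 - L.weierstrassP w1) ^ q +
        ((M.weierstrassP (mu * w2) - M.weierstrassP (mu * w1)) *
          (QI L c mu H).eval x ^ 2 - (L.weierstrassP w2 - L.weierstrassP w1) ^ q) := by ring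
    have e'' : V.valuation ((L.weierstrassP w2 - L.weierstrassP w1) ^ q) = 1 := by
      rw [map_pow, hunitL, one_pow]
    rw [e, e', Valuation.map_add_eq_of_lt_left, e'']
    rw [e'']
    exact h
  have hc0 := hcu 0 (zero_mem _)
  obtain ⟨κ, hκ⟩ : ∃ κ, κ = (QI L c mu H).eval 0 ^ 2 := ⟨_, rfl⟩
  rw [← hκ] at hc0
  have hκV : κ ∈ V := (ValuationSubring.valuation_le_one_iff _ _).1 hc0.le
  have hcon : ∀ x ∈ V, V.valuation ((QI L c mu H).eval x ^ 2 - κ) < 1 := by
    intro x hx
    have a1 := r2 w1 w2 t1 m1 t2 m2 x hx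
    have a0 := r2 w1 w2 t1 m1 t2 m2 0 (zero_mem _)
    rw [← hκ] at a0
    have a2 := Valuation.map_sub_lt _ a1 a0
    have e : (M.weierstrassP (mu * w2) - M.weierstrassP (mu * w1)) * (QI L c mu H).eval x ^ 2 -
        (L.weierstrassP w2 - L.weierstrassP w1) ^ q -
        ((M.weierstrassP (mu * w2) - M.weierstrassP (mu * w1)) * κ -
        (L.weierstrassP w2 - L.weierstrassP w1) ^ q) =
        (M.weierstrassP (mu * w2) - M.weierstrassP (mu * w1)) *
          ((QI L c mu H).eval x ^ 2 - κ) := by ring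
    rwa [e, map_mul, hunitM, one_mul] at a2
  have k21 := r2 w1 w2 t1 m1 t2 m2 0 (zero_mem _)
  have k31 := r2 w1 (w1 + w2) t1 m1 t3 m3 0 (zero_mem _)
  have k32 := r2 w2 (w1 + w2) t2 m2 t3 m3 0 (zero_mem _)
  rw [mul_add] at k31 k32
  rw [← hκ] at k21 k31 k32
  obtain ⟨i2, i3, i1⟩ := coreV V q hqp hodd hvq v3 (e1 := L.weierstrassP w1)
    (e2 := L.weierstrassP w2)
    (e3 := L.weierstrassP (w1 + w2)) (f1 := M.weierstrassP (mu * w1))
    (f2 := M.weierstrassP (mu * w2)) (f3 := M.weierstrassP (mu * w1 + mu * w2))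
    (G2 := L.g₂ / 4) (G3 := L.g₃ / 4) (G2' := M.g₂ / 4) (G3' := M.g₃ / 4)
    e1V e2V e3V f1V f2V f3V hκV mG2 mG3 mG2' mG3' k21 k31 k32 s1 s1' s2 s2' s3 s3'
  refine ⟨κ, hc0, i2, i3, ?_⟩
  -- conclusion
  intro z hz
  have hx0 : L.weierstrassP z - c ∈ V := hxV z hz
  have hlz : mu * z ∉ M.lattice := fun h => hz (hE z h)
  have hpol := (h1 L M c mu H hl0 hI.sub hH).2 w1 t1 m1 z hlz
  have hr3 := r3 w1 t1 m1 _ hx0
  rw [sub_sub_sub_cancel_right, ← hpol] at hr3
  have hzV := hpV z hz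
  have hcz := hcu _ hx0
  have hD1 : V.valuation (M.weierstrassP (mu * z) - M.weierstrassP (mu * w1)) ≤ 1 := by
    have e : V.valuation (M.weierstrassP (mu * z) - M.weierstrassP (mu * w1)) =
        V.valuation ((M.weierstrassP (mu * z) - M.weierstrassP (mu * w1)) *
          (QI L c mu H).eval (L.weierstrassP z - c) ^ 2) := by
      rw [map_mul, hcz, mul_one]
    have e' : (M.weierstrassP (mu * z) - M.weierstrassP (mu * w1)) *
          (QI L c mu H).eval (L.weierstrassP z - c) ^ 2 =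
        ((M.weierstrassP (mu * z) - M.weierstrassP (mu * w1)) *
          (QI L c mu H).eval (L.weierstrassP z - c) ^ 2 -
            (L.weierstrassP z - L.weierstrassP w1) ^ q) +
          (L.weierstrassP z - L.weierstrassP w1) ^ q := by ring
    rw [e, e']
    refine v_add_le hr3.le ?_
    rw [ValuationSubring.valuation_le_one_iff]
    exact pow_mem (sub_mem hzV e1V) q
  have hlzV : M.weierstrassP (mu * z) ∈ V := by
    have := add_mem ((ValuationSubring.valuation_le_one_iff _ _).1 hD1) f1V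
    rwa [sub_add_cancel] at this
  refine ⟨?_, ?_⟩
  · intro h
    rcases h with h | h
    · exact hlz h
    · exact h (sub_mem hlzV hc')
  · have b1 : V.valuation ((M.weierstrassP (mu * z) - M.weierstrassP (mu * w1)) *
        ((QI L c mu H).eval (L.weierstrassP z - c) ^ 2 - κ)) < 1 := by
      rw [map_mul]
      exact lt_of_le_of_lt (mul_le_of_le_one_left' hD1) (hcon _ hx0)
    have b2 := frob_sub V q hqp hvq hzV e1V
    have e : κ * M.weierstrassP (mu * z) - L.weierstrassP z ^ q =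
        ((M.weierstrassP (mu * z) - M.weierstrassP (mu * w1)) *
          (QI L c mu H).eval (L.weierstrassP z - c) ^ 2 -
            (L.weierstrassP z - L.weierstrassP w1) ^ q) -
        (M.weierstrassP (mu * z) - M.weierstrassP (mu * w1)) *
          ((QI L c mu H).eval (L.weierstrassP z - c) ^ 2 - κ) +
        ((L.weierstrassP z - L.weierstrassP w1) ^ q -
          (L.weierstrassP z ^ q - L.weierstrassP w1 ^ q)) -
        (L.weierstrassP w1 ^ q - κ * M.weierstrassP (mu * w1)) := by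
      ring
    rw [e]
    exact Valuation.map_sub_lt _ (Valuation.map_add_lt _ (Valuation.map_sub_lt _ hr3 b1) b2) i1

end

end Pool.Agent.MUXV


end

section

/-!
# MUX, block R: module MUN, the multiplier of an isogeny of odd degree is a unit
-/

set_option autoImplicit false

namespace Pool.Agent.MUXV

open _root_.Pool.Agent.MU3B _root_.Pool.Agent.MUXU

namespace Mun

theorem odd_trick (L : PeriodPair) (n : ℕ) (hn : Odd n) (z : ℂ) (h1 : (n : ℂ) * z ∈ L.lattice)
    (h2 : 2 * z ∈ L.lattice) : z ∈ L.lattice := by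
  obtain ⟨k, hk⟩ := hn
  have h3 : z = (n : ℂ) * z - (k : ℕ) • (2 * z) := by
    rw [hk, nsmul_eq_mul]
    push_cast
    ring
  rw [h3]
  exact sub_mem h1 (nsmul_mem h2 k)

end Mun

open _root_.Pool.Agent.MUXV.Mun in
theorem tx_MUN (hMIN : Sx_MIN) (hHAL : Sx_HAL) : Sx_MUN := by
  intro V L M c c' mu n hL hM hmu hI hn hvn hker
  have hn0 : (n : ℂ) ≠ 0 := by
    intro h
    rw [h, map_zero] at hvn
    exact zero_ne_one hvn
  obtain ⟨H, hH⟩ := hHAL L M mu hmu hI fun z h1 h2 => odd_trick L n hn z (hker z h1) h2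
  have h1 : V.valuation mu ≤ 1 := hMIN V L M c c' mu H hL hM hmu hI hH
  have hmu' : (n : ℂ) / mu ≠ 0 := div_ne_zero hn0 hmu
  have hI' : Isg M L ((n : ℂ) / mu) := by
    intro u hu
    have h3 : mu * (u / mu) ∈ M.lattice := by rwa [mul_div_cancel₀ _ hmu]
    have h4 := hker _ h3
    have h5 : (n : ℂ) / mu * u = (n : ℂ) * (u / mu) := by ring
    rw [h5]
    exact h4
  obtain ⟨H', hH'⟩ := hHAL M L ((n : ℂ) / mu) hmu' hI' fun z h3 h4 => by
    refine odd_trick M n hn z ?_ h4
    have h5 := hI _ h3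
    have h6 : mu * ((n : ℂ) / mu * z) = (n : ℂ) * z := by field_simp
    rwa [h6] at h5
  have h2 : V.valuation ((n : ℂ) / mu) ≤ 1 := hMIN V M L c' c _ H' hM hL hmu' hI' hH'
  rw [map_div₀, hvn] at h2
  have hv0 : V.valuation mu ≠ 0 := (V.valuation.ne_zero_iff).2 hmu
  refine le_antisymm h1 ?_
  by_contra h3
  rw [not_le] at h3
  have h4 : V.valuation mu * (1 / V.valuation mu) = 1 := mul_div_cancel₀ _ hv0
  have h5 : V.valuation mu * (1 / V.valuation mu) ≤ V.valuation mu * 1 := mul_le_mul_right h2 _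
  rw [h4, mul_one] at h5
  exact absurd h3 (not_lt.2 h5)

end Pool.Agent.MUXV


end

section

/-!
# MUX, block R, module MLT (helper61)
-/

set_option autoImplicit false

namespace Pool.Agent.MUXV

open _root_.Pool.Agent.MU3B _root_.Pool.Agent.MUXU

theorem tx_MLT (hMUN : Sx_MUN) : Sx_MLT := by
  intro V L M c c' mu a n hL hM hmu ha hI hn hVn hk
  have hne : a / mu ≠ 0 := div_ne_zero ha hmu
  have h := hMUN V M L c' c (a / mu) n hM hL hne hI hn hVn hk
  rw [map_div₀] at h
  have hv : V.valuation mu ≠ 0 := (Valuation.ne_zero_iff _).mpr hmu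
  exact ((div_eq_one_iff_eq hv).mp h).symm

end Pool.Agent.MUXV


end

section

/-!
# MUX, block R, module MIN: multipliers are integral at a place of good reduction
-/

set_option autoImplicit false

open WeierstrassCurve Polynomial

namespace Pool.Agent.MUXV

open _root_.Pool.Agent.MU3B _root_.Pool.Agent.MUXU

noncomputable section

namespace RMin

/-- the element of `V` given by a complex number of `V` -/
def toV (V : ValuationSubring ℂ) (x : ℂ) : V := by
  classical
  exact if h : x ∈ V then ⟨x, h⟩ else 0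

lemma toV_coe (V : ValuationSubring ℂ) {x : ℂ} (h : x ∈ V) : ((toV V x : V) : ℂ) = x := by
  unfold toV; rw [dif_pos h]

lemma lin (V : ValuationSubring ℂ) (s : Finset ℂ) (f : ℂ → ℂ) (hf : ∀ p ∈ s, f p ∈ V) :
    (∏ p ∈ s, (X - C (f p)) : ℂ[X]) =
      Polynomial.map V.subtype (∏ p ∈ s, (X - C (toV V (f p)))) := by
  rw [Polynomial.map_prod]
  apply Finset.prod_congr rfl
  intro p hp
  rw [Polynomial.map_sub, Polynomial.map_X, Polynomial.map_C]
  simp [toV_coe V (hf p hp)]

/-- the comparison of the leading coefficients -/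
lemma lead (V : ValuationSubring ℂ) (H : Finset ℂ) (c l e₁ e₂ : ℂ) (f f₁ f₂ : ℂ → ℂ)
    (he₁ : e₁ ∈ V) (he₂ : e₂ ∈ V) (hf₁ : ∀ p ∈ H, f₁ p ∈ V) (hf₂ : ∀ p ∈ H, f₂ p ∈ V)
    (h : C c * (C l * ∏ p ∈ H, (X - C (f p))) ^ 2 =
      (X - C e₁) * (∏ p ∈ H, (X - C (f₁ p))) ^ 2 - (X - C e₂) * (∏ p ∈ H, (X - C (f₂ p))) ^ 2) :
    c * l ^ 2 ∈ V := by
  have hC : ∀ {x : ℂ}, x ∈ V → (C x : ℂ[X]) = Polynomial.map V.subtype (C (toV V x)) := by
    intro x hx
    rw [Polynomial.map_C]
    simp [toV_coe V hx]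
  have hX : (X : ℂ[X]) = Polynomial.map V.subtype X := by rw [Polynomial.map_X]
  have h1 : (C c * (C l * ∏ p ∈ H, (X - C (f p))) ^ 2 : ℂ[X]).coeff (2 * H.card) = c * l ^ 2 := by
    have h2 : (C c * (C l * ∏ p ∈ H, (X - C (f p))) ^ 2 : ℂ[X]) =
        C (c * l ^ 2) * (∏ p ∈ H, (X - C (f p))) ^ 2 := by
      rw [C_mul, C_pow]; ring
    have h3 : (((∏ p ∈ H, (X - C (f p))) ^ 2 : ℂ[X])).Monic :=
      (monic_prod_of_monic _ _ fun p _ => monic_X_sub_C _).pow 2
    have h4 : (((∏ p ∈ H, (X - C (f p))) ^ 2 : ℂ[X])).natDegree = 2 * H.card := by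
      rw [natDegree_pow, natDegree_prod_of_monic _ _ fun p _ => monic_X_sub_C _]
      simp
    rw [h2, coeff_C_mul, ← h4, h3.coeff_natDegree, mul_one]
  rw [← h1, h, hC he₁, hC he₂, lin V H f₁ hf₁, lin V H f₂ hf₂, hX, ← Polynomial.map_sub,
    ← Polynomial.map_pow, ← Polynomial.map_mul, ← Polynomial.map_sub, ← Polynomial.map_pow,
    ← Polynomial.map_mul, ← Polynomial.map_sub, coeff_map]
  exact Subtype.property _

/-- points of order two -/
lemma half_period (L : PeriodPair) : ∃ w₁ w₂ : ℂ, 2 * w₁ ∈ L.lattice ∧ w₁ ∉ L.lattice ∧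
    2 * w₂ ∈ L.lattice ∧ w₂ ∉ L.lattice ∧ w₁ + w₂ ∉ L.lattice ∧ w₁ - w₂ ∉ L.lattice := by
  have hd : ((1 / 2 : ℚ)).den = 2 := by norm_num
  refine ⟨L.ω₁ / 2, L.ω₂ / 2, ?_, L.ω₁_div_two_notMem_lattice, ?_, L.ω₂_div_two_notMem_lattice,
    ?_, ?_⟩
  · rw [mul_div_cancel₀ _ two_ne_zero]; exact L.ω₁_mem_lattice
  · rw [mul_div_cancel₀ _ two_ne_zero]; exact L.ω₂_mem_lattice
  · intro h
    have e : L.ω₁ / 2 + L.ω₂ / 2 = ((1 / 2 : ℚ) : ℂ) * L.ω₁ + ((1 / 2 : ℚ) : ℂ) * L.ω₂ := by
      push_cast; ring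
    rw [e, PeriodPair.mul_ω₁_add_mul_ω₂_mem_lattice, hd] at h
    exact absurd h.1 (by norm_num)
  · intro h
    have e : L.ω₁ / 2 - L.ω₂ / 2 = ((1 / 2 : ℚ) : ℂ) * L.ω₁ + ((-(1 / 2) : ℚ) : ℂ) * L.ω₂ := by
      push_cast; ring
    rw [e, PeriodPair.mul_ω₁_add_mul_ω₂_mem_lattice, hd] at h
    exact absurd h.1 (by norm_num)

/-- an odd number which kills the kernel -/
lemma odd_kill (L M : PeriodPair) (mu : ℂ) (h2 : ∀ z, mu * z ∈ M.lattice → 2 * z ∈ L.lattice → z ∈ L.lattice) :
    ∀ n : ℕ, n ≠ 0 → (∀ z, mu * z ∈ M.lattice → (n : ℂ) * z ∈ L.lattice) →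
    ∃ k : ℕ, ∀ z, mu * z ∈ M.lattice → ((2 * k + 1 : ℕ) : ℂ) * z ∈ L.lattice := by
  intro n
  induction n using Nat.strong_induction_on with
  | _ n ih =>
    intro hn hz
    obtain ⟨k, rfl | rfl⟩ := n.even_or_odd'
    · refine ih k (by omega) (by omega) fun z hzM => ?_
      apply h2
      · have e : mu * ((k : ℂ) * z) = (k : ℕ) • (mu * z) := by rw [nsmul_eq_mul]; ring
        rw [e]
        exact nsmul_mem hzM k
      · have := hz z hzM
        rwa [show ((2 * k : ℕ) : ℂ) * z = 2 * ((k : ℂ) * z) by push_cast; ring] at this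
    · exact ⟨k, hz⟩

end RMin

open _root_.Pool.Agent.MUXV.RMin in
theorem tx_MIN (hPOL : Sx_POL) (hBAC : Su_BAC) : Sx_MIN := by
  intro V L M c c' mu H hGL hGM hmu hI hH
  obtain ⟨W, ξ, gL⟩ := hGL
  obtain ⟨W', ξ', gM⟩ := hGM
  -- the kernel has no point of order two
  have hk2 : ∀ z, mu * z ∈ M.lattice → 2 * z ∈ L.lattice → z ∈ L.lattice := by
    intro z hz h2z
    by_contra hzL
    obtain ⟨p, hp, hp' | hp'⟩ := hH.surj z hz hzL
    · apply hH.ne p hp
      have h5 := add_mem hp' hp'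
      have h6 := sub_mem h2z h5
      have e : 2 * z - (z - p + (z - p)) = 2 * p := by ring
      rwa [e] at h6
    · apply hH.ne p hp
      have h5 := add_mem hp' hp'
      have h6 := sub_mem h5 h2z
      have e : (z + p + (z + p)) - 2 * z = 2 * p := by ring
      rwa [e] at h6
  obtain ⟨n, hn, hnz⟩ := (hBAC.2 L M mu hmu hI).2
  obtain ⟨k, hk⟩ := odd_kill L M mu hk2 n hn hnz
  have htwo : ∀ w : ℂ, 2 * w ∈ L.lattice → w ∉ L.lattice →
      ¬ InK V L (fun z => L.weierstrassP z - c) w := by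
    intro w hw hwL hw1
    exact hwL (mem_of_nat_mul gL hw1 (n := 2) (by simpa using gL.two) (by simpa using hw))
  have htwoM : ∀ w : ℂ, 2 * w ∈ M.lattice → w ∉ M.lattice →
      ¬ InK V M (fun z => M.weierstrassP z - c') w := by
    intro w hw hwL hw1
    exact hwL (mem_of_nat_mul gM hw1 (n := 2) (by simpa using gM.two) (by simpa using hw))
  have hadd : ∀ w : ℂ, 2 * w ∈ L.lattice → w ∉ L.lattice → ∀ p ∈ H,
      ¬ InK V L (fun z => L.weierstrassP z - c) (w + p) := by
    intro w hw hwL p hp hwp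
    have h3 := inK_nat gL hwp 2
    have h4 := inK_sub gL h3 (inK_of_mem (V := V) (X := fun z => L.weierstrassP z - c) hw)
    have e : ((2 : ℕ) : ℂ) * (w + p) - 2 * w = 2 * p := by push_cast; ring
    rw [e] at h4
    have h5 := inK_nat gL h4 (k + 1)
    have h6 := inK_sub gL h5 (inK_of_mem (V := V) (X := fun z => L.weierstrassP z - c)
      (hk p (hH.mem p hp)))
    have e2 : ((k + 1 : ℕ) : ℂ) * (2 * p) - ((2 * k + 1 : ℕ) : ℂ) * p = p := by push_cast; ring
    rw [e2] at h6
    have h7 := inK_sub gL hwp h6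
    rw [add_sub_cancel_right] at h7
    exact htwo w hw hwL h7
  have hMw : ∀ w : ℂ, 2 * w ∈ L.lattice → w ∉ L.lattice →
      ¬ InK V M (fun z => M.weierstrassP z - c') (mu * w) := by
    intro w hw hwL
    apply htwoM
    · have := hI _ hw
      rwa [mul_left_comm] at this
    · intro hlw
      exact hwL (hk2 w hlw hw)
  have hmem : ∀ z : ℂ, ¬ InK V L (fun z => L.weierstrassP z - c) z → L.weierstrassP z - c ∈ V :=
    fun z hz => (ValuationSubring.valuation_le_one_iff _ _).1 (int_X hz).2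
  obtain ⟨w₁, w₂, a1, a2, a3, a4, a5, a6⟩ := half_period L
  have hpol := (hPOL L M c mu H hmu hI hH).1 w₁ w₂ a1 a2 a3 a4
  unfold QI CI at hpol
  have hlead := lead V H _ _ _ _ (fun p => L.weierstrassP p - c)
    (fun p => L.weierstrassP (w₁ + p) - c) (fun p => L.weierstrassP (w₂ + p) - c)
    (hmem _ (htwo _ a1 a2)) (hmem _ (htwo _ a3 a4)) (fun p hp => hmem _ (hadd _ a1 a2 p hp))
    (fun p hp => hmem _ (hadd _ a3 a4 p hp)) hpol
  have hunit : V.valuation (M.weierstrassP (mu * w₂) - M.weierstrassP (mu * w₁)) = 1 := by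
    have h3 := v_X_sub gM (hMw _ a3 a4) (hMw _ a1 a2) (by
      rw [← mul_add]
      refine hMw _ ?_ (by rwa [add_comm])
      rw [mul_add]; exact add_mem a3 a1) (by
      rw [← mul_sub]
      refine hMw _ ?_ fun h => a6 ?_
      · rw [mul_sub]; exact sub_mem a3 a1
      · have := neg_mem h
        rwa [neg_sub] at this)
    simpa using h3
  rw [← ValuationSubring.valuation_le_one_iff, map_mul, hunit, one_mul, map_pow] at hlead
  by_contra hcon
  rw [not_le] at hcon
  exact absurd hlead (not_le.2 (one_lt_pow₀ hcon two_ne_zero))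

end

end Pool.Agent.MUXV


end

section

/-!
# MUX, block R: module HAL (helper26)

Half systems for the kernel of an isogeny without points of order two. Adapted from
`Pool/Agent/MU3/B_HAL.lean`.
-/

set_option autoImplicit false

namespace Pool.Agent.MUXV

open _root_.Pool.Agent.MU3B _root_.Pool.Agent.MUXU

theorem tx_HAL (hBAC : Su_BAC) : Sx_HAL := by
  classical
  intro L M mu hmu hI h2
  obtain ⟨R, hR⟩ := (hBAC.2 L M mu hmu hI).1
  have hne : ∀ q ∈ R, 2 * q ∉ L.lattice := fun q hq h => hR.ne q hq (h2 q (hR.mem q hq) h)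
  set S : Finset (Finset ℂ) :=
    R.powerset.filter (fun H => ∀ q ∈ H, ∀ q' ∈ H, q + q' ∉ L.lattice) with hS
  have hS0 : S.Nonempty := ⟨∅, by simp [hS]⟩
  obtain ⟨H, hH, hmax⟩ := S.exists_max_image Finset.card hS0
  rw [hS, Finset.mem_filter, Finset.mem_powerset] at hH
  obtain ⟨hHR, hneg⟩ := hH
  refine ⟨H, fun q hq => hR.mem q (hHR hq), fun q hq => hne q (hHR hq),
    fun q hq q' hq' h => hR.inj q (hHR hq) q' (hHR hq') h, hneg, ?_⟩
  intro z hz hzL
  obtain ⟨r, hr, hzr⟩ := hR.surj z hz hzL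
  by_cases hrH : r ∈ H
  · exact ⟨r, hrH, Or.inl hzr⟩
  · by_cases hex : ∃ q ∈ H, q + r ∈ L.lattice
    · obtain ⟨q, hq, h⟩ := hex
      refine ⟨q, hq, Or.inr ?_⟩
      have h1 := L.lattice.add_mem hzr h
      have e : z + q = z - r + (q + r) := by ring
      rwa [e]
    · exfalso
      push Not at hex
      have hin : insert r H ∈ S := by
        rw [hS, Finset.mem_filter, Finset.mem_powerset]
        refine ⟨Finset.insert_subset hr hHR, ?_⟩
        intro q hq q' hq'
        rcases Finset.mem_insert.1 hq with h3 | h3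
        · rcases Finset.mem_insert.1 hq' with h4 | h4
          · rw [h3, h4, ← two_mul]
            exact hne _ hr
          · rw [h3, add_comm]
            exact hex q' h4
        · rcases Finset.mem_insert.1 hq' with h4 | h4
          · rw [h4]
            exact hex q h3
          · exact hneg q h3 q' h4
      have h1 := hmax _ hin
      rw [Finset.card_insert_of_notMem hrH] at h1
      omega

end Pool.Agent.MUXV


end

section

/-!
# MUX, block R: the statements of `StVX.lean` and `StQX.lean` which are proved (all except NGR, FRX) (helper59)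
-/

set_option autoImplicit false

namespace Pool.Agent.MUXV

open _root_.Pool.Agent.MUXU

theorem x_HAL : Sx_HAL := tx_HAL u_BAC
theorem x_HRE : Sx_HRE := tx_HRE
theorem x_POL : Sx_POL := tx_POL u_PFI x_HRE
theorem x_R2 : Sx_R2 := tx_R2 x_POL
theorem x_R4 : Sx_R4 := tx_R4 x_POL
theorem x_ROO : MU3A.Sa_ROO := MU3A.ta_ROO (MU3A.ta_TW2 MU3B.b_ADD MU3B.b_ZER MU3B.b_NEQ) MU3B.b_NEQ
theorem x_R5 : Sx_R5 := tx_R5 x_POL x_R2 x_R4 x_ROO
theorem x_TRA : Sx_TRA := tx_TRA x_R2 x_R4
theorem x_INJ : Sx_INJ := tx_INJ x_R4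
theorem x_MIN : Sx_MIN := tx_MIN x_POL u_BAC
theorem x_MUN : Sx_MUN := tx_MUN x_MIN x_HAL
theorem x_MLT : Sx_MLT := tx_MLT x_MUN
theorem x_XIC : Sx_XIC := tx_XIC
theorem x_FRN : Sx_FRN := tx_FRN x_R5

theorem q_EMB : Sq_EMB := tq_EMB
theorem q_DGI : Sq_DGI := tq_DGI
theorem q_DGL : Sq_DGL := tq_DGL
theorem q_TRC : Sq_TRC := tq_TRC q_EMB
theorem q_CYQ : Sq_CYQ := tq_CYQ q_EMB q_DGI q_TRC
theorem q_AEL : Sq_AEL := tq_AEL q_DGI q_EMB
theorem q_VQI : Sq_VQI := tq_VQI q_DGI q_EMB
theorem q_ISQ : Sq_ISQ := tq_ISQ q_CYQ q_AEL q_VQI q_EMB x_MLT x_MUN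
theorem q_ALU : Sq_ALU := tq_ALU
theorem q_THU : Sq_THU := tq_THU
theorem q_YUN : Sq_YUN := tq_YUN
theorem q_TOR : Sq_TOR := tq_TOR q_EMB

end Pool.Agent.MUXV


end

section

/-!
# MU3, block V, module DISI: distribution relation over `E[b]`, with constant in `k`
-/

set_option autoImplicit false

open WeierstrassCurve Polynomial NumberField IsDedekindDomain

namespace Pool.Agent.MU3V

open _root_.MU3 _root_.Pool.Agent.MU3A _root_.Pool.Agent.MU3B _root_.Pool.Agent.MU3C

noncomputable section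

theorem tw_DISI (hTDI : St_TDI) (hTHG : Sw_THG) (hNRM : Sa_NRM) (hGAL : Sa_GAL) (hPID : Sa_PID)
    (hTIN : St_TIN) : Sw_DISI := by
  classical
  intro A B L Om h hL b hb a H ha hab hH
  have hdom : IsDomain (OO A B) := (hPID A B h).1
  have hfinQ : Finite (OO A B ⧸ Ideal.span {b}) :=
    Ideal.finiteQuotientOfFreeOfNeBot _ (by simpa [Ideal.span_singleton_eq_bot] using hb)
  letI : Fintype (OO A B ⧸ Ideal.span {b}) := Fintype.ofFinite _
  have hb0 : emb b ≠ 0 := emb_ne_zero h hb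
  have hper := (hTIN L a H H hH hH).2.2
  have ea : emb ((a : ℤ) : OO A B) = (a : ℂ) := emb_intCast h a
  have ha0 : (a : ℂ) ≠ 0 := by exact_mod_cast ha
  -- the map
  have hmk : ∀ x y : OO A B, (Ideal.Quotient.mk (Ideal.span {b}) x =
      Ideal.Quotient.mk (Ideal.span {b}) y) ↔ b ∣ x - y := by
    intro x y
    rw [Ideal.Quotient.eq, Ideal.mem_span_singleton]
  have hout : ∀ t : OO A B ⧸ Ideal.span {b},
      Ideal.Quotient.mk (Ideal.span {b}) (Quotient.out t) = t := fun t => Ideal.Quotient.mk_out t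
  set r : OO A B ⧸ Ideal.span {b} → ℂ := fun t => emb (Quotient.out t) * (Om / emb b) with hr
  have hsub : ∀ (x y : OO A B), b ∣ x - y → emb x * (Om / emb b) - emb y * (Om / emb b) ∈
      L.lattice := by
    intro x y hxy
    rw [← sub_mul, ← emb_sub h, hL.mul_div_mem_iff h hb]
    exact hxy
  have hinjL : ∀ t t', r t - r t' ∈ L.lattice → t = t' := by
    intro t t' htt
    simp only [hr] at htt
    rw [← sub_mul, ← emb_sub h, hL.mul_div_mem_iff h hb, ← hmk, hout, hout] at htt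
    exact htt
  have hinj : Function.Injective r := by
    intro t t' htt
    apply hinjL
    rw [htt, sub_self]; exact zero_mem _
  set R : Finset ℂ := (Finset.univ.erase 0).image r with hR
  have hr0 : ∀ t, t ≠ 0 → r t ∉ L.lattice := by
    intro t ht hm
    simp only [hr] at hm
    rw [hL.mul_div_mem_iff h hb] at hm
    apply ht
    rw [← hout t, ← map_zero (Ideal.Quotient.mk (Ideal.span {b})), hmk, sub_zero]
    exact hm
  have hrL : ∀ t, emb b * r t ∈ L.lattice := by
    intro t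
    rw [hL.torsion_iff h hb]
    exact ⟨_, rfl⟩
  have hReps : IsReps L (emb b) R := by
    constructor
    · intro q hq
      obtain ⟨t, ht, rfl⟩ := Finset.mem_image.1 hq
      exact hrL t
    · intro q hq
      obtain ⟨t, ht, rfl⟩ := Finset.mem_image.1 hq
      exact hr0 t (Finset.ne_of_mem_erase ht)
    · intro q hq q' hq' hqq
      obtain ⟨t, ht, rfl⟩ := Finset.mem_image.1 hq
      obtain ⟨t', ht', rfl⟩ := Finset.mem_image.1 hq'
      rw [hinjL t t' hqq]
    · intro z hz hzL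
      obtain ⟨x, rfl⟩ := (hL.torsion_iff h hb z).1 hz
      refine ⟨r (Ideal.Quotient.mk _ x), Finset.mem_image.2 ⟨_, Finset.mem_erase.2 ⟨?_,
        Finset.mem_univ _⟩, rfl⟩, ?_⟩
      · intro h0
        apply hzL
        rw [hL.mul_div_mem_iff h hb]
        rw [← map_zero (Ideal.Quotient.mk (Ideal.span {b})), hmk, sub_zero] at h0
        exact h0
      · apply hsub
        rw [← hmk, hout]
  have hprodR : ∀ g : ℂ → ℂ, ∏ q ∈ R, g q = ∏ t ∈ Finset.univ.erase 0, g (r t) := by
    intro g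
    rw [hR, Finset.prod_image (fun x _ y _ hxy => hinj hxy)]
  obtain ⟨hne, hmain⟩ := hTDI L a (emb b) H R ha0 hb0
    (fun w hw => by have := hL.emb_mul_mem h ((a : ℤ) : OO A B) hw; rwa [ea] at this)
    (fun w hw => hL.emb_mul_mem h b hw) hH hReps
    (fun z h1 h2 => hL.mem_of_coprime h hab (by rwa [ea]) h2)
  -- the constant is in `k`
  have hP : ∏ q ∈ R, ThetaH L H q ∈ kk A B := by
    have hΘ : ∀ t, t ≠ 0 → ∃ hz : ThetaH L H (r t) ∈ TF L b,
        ∀ (σ : TF L b →ₐ[kk A B] ℂ) (c : OO A B), Act L σ b c →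
          σ ⟨ThetaH L H (r t), hz⟩ = ThetaH L H (emb c * r t) := fun t ht =>
      hTHG A B L Om h hL b hb a H ha hH (r t) (hrL t) (hr0 t ht)
    set θ : OO A B ⧸ Ideal.span {b} → TF L b := fun t =>
      if ht : t ≠ 0 then ⟨ThetaH L H (r t), (hΘ t ht).1⟩ else 1 with hθ
    have hθ1 : ∀ t, t ≠ 0 → ((θ t : TF L b) : ℂ) = ThetaH L H (r t) := by
      intro t ht
      simp only [hθ]
      rw [dif_pos ht]
    have hcoe : ((∏ t ∈ Finset.univ.erase 0, θ t : TF L b) : ℂ) = ∏ q ∈ R, ThetaH L H q := by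
      rw [hprodR]
      have e0 : ((∏ t ∈ Finset.univ.erase 0, θ t : TF L b) : ℂ) =
          ∏ t ∈ Finset.univ.erase 0, ((θ t : TF L b) : ℂ) :=
        map_prod (TF L b).val _ _
      rw [e0]
      exact Finset.prod_congr rfl fun t ht => hθ1 t (Finset.ne_of_mem_erase ht)
    obtain ⟨hfd, hgal⟩ := hNRM A B L Om h hL b hb
    have hfix : ∀ σ : TF L b ≃ₐ[kk A B] TF L b,
        σ (∏ t ∈ Finset.univ.erase 0, θ t) = ∏ t ∈ Finset.univ.erase 0, θ t := by
      intro σ
      obtain ⟨c, hc⟩ := hGAL A B L Om h hL b hb (TF L b) le_rfl (_root_.Pool.Agent.MU3A.em σ)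
      apply Subtype.ext
      have e1 : ((σ (∏ t ∈ Finset.univ.erase 0, θ t) : TF L b) : ℂ) =
          _root_.Pool.Agent.MU3A.em σ (∏ t ∈ Finset.univ.erase 0, θ t) := rfl
      rw [e1, map_prod, hcoe, hprodR]
      have e2 : ∀ t ∈ Finset.univ.erase (0 : OO A B ⧸ Ideal.span {b}),
          _root_.Pool.Agent.MU3A.em σ (θ t) = ThetaH L H (emb c * r t) := by
        intro t ht
        have ht0 := Finset.ne_of_mem_erase ht
        have e3 : θ t = ⟨ThetaH L H (r t), (hΘ t ht0).1⟩ := by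
          simp only [hθ]; rw [dif_pos ht0]
        rw [e3]
        exact (hΘ t ht0).2 (_root_.Pool.Agent.MU3A.em σ) c hc
      rw [Finset.prod_congr rfl e2]
      -- multiplication by `c`
      obtain ⟨x, y, hxy⟩ := hc.1
      have hu : Ideal.Quotient.mk (Ideal.span {b}) x * Ideal.Quotient.mk (Ideal.span {b}) c = 1 := by
        rw [← map_mul, ← map_one (Ideal.Quotient.mk (Ideal.span {b})), hmk]
        exact ⟨-y, by rw [← hxy]; ring⟩
      have hu' : Ideal.Quotient.mk (Ideal.span {b}) c * Ideal.Quotient.mk (Ideal.span {b}) x = 1 := by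
        rw [mul_comm]; exact hu
      let e : (OO A B ⧸ Ideal.span {b}) ≃ (OO A B ⧸ Ideal.span {b}) :=
        { toFun := fun t => Ideal.Quotient.mk (Ideal.span {b}) c * t
          invFun := fun t => Ideal.Quotient.mk (Ideal.span {b}) x * t
          left_inv := fun t => by
            show Ideal.Quotient.mk (Ideal.span {b}) x *
              (Ideal.Quotient.mk (Ideal.span {b}) c * t) = t
            rw [← mul_assoc, hu, one_mul]
          right_inv := fun t => by
            show Ideal.Quotient.mk (Ideal.span {b}) c *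
              (Ideal.Quotient.mk (Ideal.span {b}) x * t) = t
            rw [← mul_assoc, hu', one_mul] }
      refine Finset.prod_equiv e ?_ ?_
      · intro t
        have : e t = 0 ↔ t = 0 := by
          constructor
          · intro h0
            have := congrArg e.symm h0
            rw [Equiv.symm_apply_apply] at this
            rw [this]
            show Ideal.Quotient.mk (Ideal.span {b}) x * 0 = 0
            rw [mul_zero]
          · rintro rfl
            show Ideal.Quotient.mk (Ideal.span {b}) c * 0 = 0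
            rw [mul_zero]
        simp only [Finset.mem_erase, Finset.mem_univ, and_true, ne_eq, this]
      · intro t ht
        have hd : b ∣ c * Quotient.out t - Quotient.out (e t) := by
          rw [← hmk, hout, map_mul, hout]
          rfl
        have h3 := hsub _ _ hd
        have h4 := hper (r (e t)) _ h3
        rw [← h4]
        congr 1
        simp only [hr]
        rw [emb_mul h]
        ring
    have hmem := (InfiniteGalois.mem_range_algebraMap_iff_fixed (k := kk A B) (K := TF L b)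
      (∏ t ∈ Finset.univ.erase 0, θ t)).2 hfix
    obtain ⟨x, hx⟩ := hmem
    rw [← hcoe, ← hx]
    exact x.2
  refine ⟨emb b ^ (2 * H.card) * ∏ q ∈ R, ThetaH L H q, mul_mem (pow_mem (emb_mem b) _) hP,
    mul_ne_zero (pow_ne_zero _ hb0) hne, ?_⟩
  intro z hz
  have hz' : (a : ℂ) * emb b * z ∉ L.lattice := by
    rwa [mul_comm (a : ℂ)]
  rw [← hmain z hz', finprod_eq_prod_of_fintype, hprodR,
    ← Finset.mul_prod_erase Finset.univ _ (Finset.mem_univ (0 : OO A B ⧸ Ideal.span {b}))]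
  congr 1
  apply hper
  rw [hL.mul_div_mem_iff h hb]
  have := hout 0
  rw [← map_zero (Ideal.Quotient.mk (Ideal.span {b})), hmk, map_zero, sub_zero] at this
  exact this

end

end Pool.Agent.MU3V


end

section

/-!
# MU3, block A: (T3)
-/

set_option autoImplicit false

namespace Pool.Agent.MU3A

open _root_.MU3 _root_.Pool.Agent.MU3B Polynomial NumberField _root_.Pool.Agent.MU3G

namespace T3

variable {A B : ℤ} {L : PeriodPair}

/-- multiplication by an element of the maximal ideal -/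
theorem red_lt {V : ValuationSubring ℂ} {lam d0 n2 n1 n0 m2 m1 m0 : OO A B}
    (hI : Iso3 L lam d0 n2 n1 n0 m2 m1 m0) (hO : ∀ x : OO A B, V.valuation (emb x) ≤ 1)
    (hlam : V.valuation (emb lam) < 1) (hd : V.valuation (emb d0) = 1) {z : ℂ}
    (hz : z ∉ L.lattice) (hx : V.valuation (xx A B L z) ≤ 1) :
    emb lam * z ∉ L.lattice ∧ V.valuation (xx A B L (emb lam * z)) ≤ 1 := by
  set v := V.valuation with hv
  set x := xx A B L z with hxx
  have h1 : v (emb lam * x) < 1 := by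
    rw [map_mul]
    exact mul_lt_one_of_lt_of_le hlam hx
  have hD : v (emb lam * x + emb d0) = 1 := by
    have h2 : v (emb lam * x) < v (emb d0) := by rw [hd]; exact h1
    rw [Valuation.map_add_eq_of_lt_right v h2, hd]
  have hD0 : emb lam * x + emb d0 ≠ 0 := by
    intro h0
    rw [h0, map_zero] at hD
    exact zero_ne_one hD
  have hnot : emb lam * z ∉ L.lattice := fun hmem => hD0 ((hI.ker z hz).1 hmem)
  refine ⟨hnot, ?_⟩
  have h3 := congrArg v (hI.x z hnot)
  rw [map_mul, map_pow, hD, one_pow, mul_one] at h3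
  rw [h3]
  have e3 : v (x ^ 3) ≤ 1 := by rw [map_pow]; exact pow_le_one' hx 3
  have e2 : v (emb n2 * x ^ 2) ≤ 1 := by
    rw [map_mul, map_pow]; exact mul_le_one' (hO _) (pow_le_one' hx 2)
  have e1 : v (emb n1 * x) ≤ 1 := by rw [map_mul]; exact mul_le_one' (hO _) hx
  exact Valuation.map_add_le v (Valuation.map_add_le v (Valuation.map_add_le v e3 e2) e1) (hO _)

/-- multiplication by a unit -/
theorem red_unit {V : ValuationSubring ℂ} {lam d0 n2 n1 n0 m2 m1 m0 : OO A B}
    (hI : Iso3 L lam d0 n2 n1 n0 m2 m1 m0) (hO : ∀ x : OO A B, V.valuation (emb x) ≤ 1)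
    (hlam : V.valuation (emb lam) = 1) {z : ℂ}
    (hz : z ∉ L.lattice) (hx : 1 < V.valuation (xx A B L z)) :
    emb lam * z ∉ L.lattice ∧ 1 < V.valuation (xx A B L (emb lam * z)) := by
  set v := V.valuation with hv
  set x := xx A B L z with hxx
  have hD : v (emb lam * x + emb d0) = v x := by
    have h2 : v (emb d0) < v (emb lam * x) := by
      rw [map_mul, hlam, one_mul]; exact lt_of_le_of_lt (hO _) hx
    rw [Valuation.map_add_eq_of_lt_left v h2, map_mul, hlam, one_mul]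
  have hx0 : v x ≠ 0 := (lt_trans zero_lt_one hx).ne'
  have hD0 : emb lam * x + emb d0 ≠ 0 := by
    intro h0
    rw [h0, map_zero] at hD
    exact hx0 hD.symm
  have hnot : emb lam * z ∉ L.lattice := fun hmem => hD0 ((hI.ker z hz).1 hmem)
  refine ⟨hnot, ?_⟩
  have h3 := congrArg v (hI.x z hnot)
  have hlt : v x ^ 2 < v x ^ 3 := pow_lt_pow_right₀ hx (by norm_num)
  have hone : (1 : V.ValueGroup) ≤ v x ^ 2 := one_le_pow_of_one_le' hx.le 2
  have e2 : v (emb n2 * x ^ 2) < v (x ^ 3) := by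
    rw [map_mul, map_pow, map_pow]
    exact lt_of_le_of_lt (mul_le_of_le_one_left' (hO _)) hlt
  have e1 : v (emb n1 * x) < v (x ^ 3) := by
    rw [map_mul, map_pow]
    refine lt_of_le_of_lt (mul_le_of_le_one_left' (hO _)) (lt_of_le_of_lt ?_ hlt)
    calc v x = v x ^ 1 := (pow_one _).symm
      _ ≤ v x ^ 2 := pow_le_pow_right₀ hx.le (by norm_num)
  have e0 : v (emb n0) < v (x ^ 3) := by
    rw [map_pow]
    exact lt_of_le_of_lt (hO _) (lt_of_le_of_lt hone hlt)
  have hN : v (x ^ 3 + emb n2 * x ^ 2 + emb n1 * x + emb n0) = v x ^ 3 := by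
    have a1 : v (x ^ 3 + emb n2 * x ^ 2) = v (x ^ 3) := Valuation.map_add_eq_of_lt_left v e2
    have a2 : v (x ^ 3 + emb n2 * x ^ 2 + emb n1 * x) = v (x ^ 3) := by
      rw [Valuation.map_add_eq_of_lt_left v (by rw [a1]; exact e1), a1]
    rw [Valuation.map_add_eq_of_lt_left v (by rw [a2]; exact e0), a2, map_pow]
  rw [hN, map_mul, map_pow, hD] at h3
  have h4 : v (xx A B L (emb lam * z)) = v x := by
    have h5 : v (xx A B L (emb lam * z)) * v x ^ 2 = v x * v x ^ 2 := by
      rw [h3]; exact pow_succ' _ _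
    exact mul_right_cancel₀ (pow_ne_zero 2 hx0) h5
  rw [h4]
  exact hx

theorem star_ppc : star (ppc A B) = ppi A B := by
  ext <;> simp [ppc, ppi]
  ring

theorem nm_ppc (h : Case A B) : nm (ppc A B) = 3 := by
  rw [← G0.nm_star, star_ppc, nm_ppi h]

theorem self_dvd (x : OO A B) : x ∣ ((nm x : ℤ) : OO A B) := by
  refine ⟨star x, ?_⟩
  have h := QuadraticAlgebra.algebraMap_norm_eq_mul_star x
  rw [← G0.nm_eq] at h
  rw [← h]
  simp

theorem mul_star_eq (x : OO A B) : ((nm x : ℤ) : OO A B) = x * star x := by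
  have h := QuadraticAlgebra.algebraMap_norm_eq_mul_star x
  rw [← G0.nm_eq] at h
  rw [← h]
  simp

theorem not_dvd_of_nm (h : Case A B) {x : OO A B} (hx : ¬ (3 : ℤ) ∣ nm x) : ¬ ppi A B ∣ x := by
  rintro ⟨y, rfl⟩
  rw [G0.nm_mul, nm_ppi h] at hx
  exact hx (dvd_mul_right _ _)

/-- the reduction to torsion of order prime to 3 -/
theorem descent (h : Case A B) {Om : ℂ} (hL : IsLat A B L Om) {V : ValuationSubring ℂ}
    (hpr : Prime (ppc A B))
    (hstep : ∀ z, z ∉ L.lattice → 1 < V.valuation (xx A B L z) →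
      emb (ppc A B) * z ∉ L.lattice ∧ 1 < V.valuation (xx A B L (emb (ppc A B) * z)))
    (h3 : ∀ (n : ℕ) (z : ℂ), z ∉ L.lattice → (n : ℂ) * z ∈ L.lattice → ¬ 3 ∣ n →
      V.valuation (xx A B L z) ≤ 1) :
    ∀ (N : ℕ) (m : OO A B) (z : ℂ), m ≠ 0 → (nm m).natAbs ≤ N → IsCoprime m (ppi A B) →
      z ∉ L.lattice → emb m * z ∈ L.lattice → V.valuation (xx A B L z) ≤ 1 := by
  intro N
  induction N with
  | zero =>
    intro m z hm hN
    have h1 := G0.nm_pos h hm
    omega
  | succ N ih =>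
    intro m z hm hN hco hz hmz
    by_contra hcon
    rw [not_le] at hcon
    by_cases h3m : (3 : ℤ) ∣ nm m
    · have h4 : ppc A B ∣ ((nm m : ℤ) : OO A B) := by
        obtain ⟨t, ht⟩ := h3m
        have h5 : ppc A B ∣ ((3 : ℤ) : OO A B) := by
          have := self_dvd (ppc A B)
          rwa [nm_ppc h] at this
        rw [ht, Int.cast_mul]
        exact Dvd.dvd.mul_right h5 _
      rw [mul_star_eq] at h4
      rcases hpr.dvd_or_dvd h4 with h5 | h5
      · obtain ⟨m', rfl⟩ := h5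
        have hm' : m' ≠ 0 := by
          rintro rfl
          exact hm (mul_zero _)
        obtain ⟨h6, h7⟩ := hstep z hz hcon
        refine absurd (ih m' (emb (ppc A B) * z) hm' ?_ hco.of_mul_left_right h6 ?_)
          (not_le.2 h7)
        · have h8 := G0.nm_pos h hm'
          rw [G0.nm_mul, nm_ppc h] at hN
          omega
        · rw [emb_mul h] at hmz
          rw [← mul_assoc, mul_comm (emb m')]
          exact hmz
      · have h6 : ppi A B ∣ m := by
          obtain ⟨s, hs⟩ := h5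
          refine ⟨star s, ?_⟩
          have h7 := congrArg star hs
          rw [star_star, star_mul', star_ppc] at h7
          exact h7
        have h8 : IsUnit (ppi A B) := hco.isUnit_of_dvd' h6 (dvd_refl _)
        have h9 : nm (ppi A B) = 3 := nm_ppi h
        rw [G0.unit_iff, h9] at h8
        rw [Int.isUnit_iff] at h8
        omega
    · have h4 : emb ((nm m : ℤ) : OO A B) * z ∈ L.lattice := by
        rw [mul_star_eq, mul_comm m, emb_mul h, mul_assoc]
        exact hL.emb_mul_mem h _ hmz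
      have h5 := G0.nm_nonneg h m
      rw [emb_intCast h] at h4
      have h6 : (((nm m).toNat : ℕ) : ℂ) * z ∈ L.lattice := by
        have e : (((nm m).toNat : ℕ) : ℂ) = ((nm m : ℤ) : ℂ) := by
          have := Int.toNat_of_nonneg h5
          rw [← Int.cast_natCast, this]
        rw [e]
        exact h4
      refine absurd (h3 _ z hz h6 ?_) (not_le.2 hcon)
      intro h7
      apply h3m
      have := Int.toNat_of_nonneg h5
      rw [← this]
      exact_mod_cast h7

theorem main (h : Case A B) {Om : ℂ} (hL : IsLat A B L Om) (V : ValuationSubring ℂ)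
    (hpi : V.valuation (emb (ppi A B)) < 1) (hO : ∀ x : OO A B, V.valuation (emb x) ≤ 1)
    (hU : ∀ x : OO A B, ¬ ppi A B ∣ x → V.valuation (emb x) = 1)
    (hpr : Prime (ppc A B))
    {d0 n2 n1 n0 m2 m1 m0 d0' n2' n1' n0' m2' m1' m0' : OO A B}
    (hI : Iso3 L (ppi A B) d0 n2 n1 n0 m2 m1 m0)
    (hI' : Iso3 L (ppc A B) d0' n2' n1' n0' m2' m1' m0')
    (hd : ¬ ppi A B ∣ d0) (hc : ¬ ppi A B ∣ ppc A B) :
    (∀ z, z ∉ L.lattice → xx A B L z ∈ V →
      emb (ppi A B) * z ∉ L.lattice ∧ xx A B L (emb (ppi A B) * z) ∈ V) ∧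
    (∀ (n : ℕ) (z : ℂ), z ∉ L.lattice → emb (ppi A B ^ n) * z ∈ L.lattice → xx A B L z ∉ V) ∧
    (∀ z, z ∉ L.lattice → xx A B L z ∉ V →
      emb (ppc A B) * z ∉ L.lattice ∧ xx A B L (emb (ppc A B) * z) ∉ V) ∧
    ((∀ (n : ℕ) (z : ℂ), z ∉ L.lattice → (n : ℂ) * z ∈ L.lattice → ¬ 3 ∣ n → xx A B L z ∈ V) →
      ∀ (m : OO A B) (z : ℂ), m ≠ 0 → IsCoprime m (ppi A B) → z ∉ L.lattice →
        emb m * z ∈ L.lattice → xx A B L z ∈ V) := by
  have key1 : ∀ z, z ∉ L.lattice → xx A B L z ∈ V →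
      emb (ppi A B) * z ∉ L.lattice ∧ xx A B L (emb (ppi A B) * z) ∈ V := by
    intro z hz hx
    rw [← V.valuation_le_one_iff] at hx ⊢
    exact red_lt hI hO hpi (hU _ hd) hz hx
  have key3 : ∀ z, z ∉ L.lattice → 1 < V.valuation (xx A B L z) →
      emb (ppc A B) * z ∉ L.lattice ∧ 1 < V.valuation (xx A B L (emb (ppc A B) * z)) :=
    fun z hz hx => red_unit hI' hO (hU _ hc) hz hx
  refine ⟨key1, ?_, ?_, ?_⟩
  · intro n
    induction n with
    | zero =>
      intro z hz hmem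
      rw [pow_zero, emb_one h, one_mul] at hmem
      exact absurd hmem hz
    | succ n ih =>
      intro z hz hmem hx
      obtain ⟨h1, h2⟩ := key1 z hz hx
      refine ih (emb (ppi A B) * z) h1 ?_ h2
      rw [pow_succ, emb_mul h, mul_assoc] at hmem
      exact hmem
  · intro z hz hx
    rw [← V.valuation_le_one_iff, not_le] at hx ⊢
    exact key3 z hz hx
  · intro h3 m z hm hco hz hmz
    rw [← V.valuation_le_one_iff]
    refine descent h hL hpr key3 ?_ (nm m).natAbs m z hm le_rfl hco hz hmz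
    intro n z hz hn h3n
    rw [V.valuation_le_one_iff]
    exact h3 n z hz hn h3n

end T3

theorem ta_T3 (h1 : Sa_V3) (h2 : Sa_N8P) (h3 : Sa_N11) (h4 : Sa_N11C) (_h5 : Sa_EQN)
    (h6 : Sa_PID) : Sa_T3 := by
  intro A B L Om h hCM V hV
  obtain ⟨hO, -, hU, -⟩ := h1 A B h V hV
  have hpr : Prime (ppc A B) := by
    have hP := (h6 A B h).2.2.2.2.2.2.2.2.2
    refine hP _ ?_
    rw [T3.nm_ppc h]
    norm_num
  have hpi : V.valuation (emb (ppi A B)) < 1 := (ValuationSubring.mem_nonunits_iff V).1 hV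
  have hO' : ∀ x : OO A B, V.valuation (emb x) ≤ 1 := fun x =>
    (V.valuation_le_one_iff _).2 (hO x)
  have hU' : ∀ x : OO A B, ¬ ppi A B ∣ x → V.valuation (emb x) = 1 := by
    intro x hx
    refine le_antisymm (hO' x) (not_lt.1 fun hlt => hU x hx ?_)
    exact (ValuationSubring.mem_nonunits_iff V).2 hlt
  rcases h with ⟨rfl, rfl⟩ | ⟨rfl, rfl⟩
  · have hc : Case (-2) 0 := Or.inl ⟨rfl, rfl⟩
    obtain ⟨hI, hI'⟩ := h2 L Om hCM
    refine T3.main hc hCM.toIsLat V hpi hO' hU' hpr hI hI' ?_ ?_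
    · exact T3.not_dvd_of_nm hc (by norm_num [nm])
    · rintro ⟨y, hy⟩
      have e1 := congrArg QuadraticAlgebra.re hy
      have e2 := congrArg QuadraticAlgebra.im hy
      simp [ppc, ppi] at e1 e2
      omega
  · have hc : Case (-3) 1 := Or.inr ⟨rfl, rfl⟩
    have hI := h3 L Om hCM
    have hI' := h4 L Om hCM
    refine T3.main hc hCM.toIsLat V hpi hO' hU' hpr hI hI' ?_ ?_
    · refine T3.not_dvd_of_nm hc ?_
      have h9 : nm (-1 : OO (-3) 1) = 1 := by
        have e : (-1 : OO (-3) 1) = ⟨-1, 0⟩ := rfl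
        rw [e]; norm_num [nm]
      rw [h9]; norm_num
    · rintro ⟨y, hy⟩
      have e1 := congrArg QuadraticAlgebra.re hy
      have e2 := congrArg QuadraticAlgebra.im hy
      simp [ppc, ppi] at e1 e2
      omega

end Pool.Agent.MU3A


end
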