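import Mathlib
import Pool.Agent.MVF.C036
import Pool.Agent.MVF.C045
import Pool.Agent.MVF.C055

/-! Parts: MUX.C_QEX, MUX.C_NMC, MUX.C_IND, MUX.C_FRO, MUX.C_FEX, MUX.C_EXT, MUX.C_ENO, MU3.MDENSF, MUX.HY_HFX, RID.P_HERBQ, MU3.PX_ONE -/

namespace Pool.Agent.MU3.DENSF
end Pool.Agent.MU3.DENSF
namespace Pool.Agent.MUXC.EXT
end Pool.Agent.MUXC.EXT
namespace Pool.Agent.MUXC.FEX
end Pool.Agent.MUXC.FEX
namespace Pool.Agent.MUXC.FRO
end Pool.Agent.MUXC.FRO
namespace Pool.Agent.MUXC.NMC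
end Pool.Agent.MUXC.NMC
namespace Pool.Agent.MUXHY.Hfx
end Pool.Agent.MUXHY.Hfx
namespace Pool.Agent.RID.HERBQ
end Pool.Agent.RID.HERBQ

section

/-!
# MUX, block XC, module QEX (helper26): two lattices are related by an ideal prime to `m`
-/

set_option autoImplicit false

open Polynomial NumberField IsDedekindDomain

namespace Pool.Agent.MUXC

open _root_.MU3 _root_.Pool.Agent.MU3A _root_.Pool.Agent.MU3B _root_.Pool.Agent.MUX _root_.Pool.Agent.MUXU _root_.Pool.Agent.RI
open _root_.Pool.Agent.MUXE (NL Sxe_RNG)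

theorem tc_QEX (hCOP : Sc_COP) (hQCR : Sc_QCR) : Sc_QEX := by
  intro A B h b b' m L L' om om' hL hL' hm
  have hb := hL.b_ne
  have hb' := hL'.b_ne
  obtain ⟨a, x, y, ha, ham, hx, hy, hxy⟩ :=
    hCOP A B h (b * cjI b') m (mul_ne_bot h hb (cjI_ne_bot h hb')) hm
  have hN : ((nI b' : ℕ) : OO A B) ≠ 0 := natCast_ne_zero' h (nI_ne_zero h hb')
  have := isDomain h
  have hu : x * ((nI b' : ℕ) : OO A B) ≠ 0 := mul_ne_zero hx hN
  have key : sp (x * ((nI b' : ℕ) : OO A B)) * b = sp y * (a * b') := by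
    have e1 : sp (x * ((nI b' : ℕ) : OO A B)) = sp x * (b' * cjI b') := by
      rw [mul_cjI h hb']
      exact (Ideal.span_singleton_mul_span_singleton _ _).symm
    rw [e1]
    calc sp x * (b' * cjI b') * b = (sp x * (b * cjI b')) * b' := by ring
      _ = sp y * a * b' := by rw [hxy]
      _ = sp y * (a * b') := by rw [mul_assoc]
  exact ⟨a, _, ha, ham, hQCR A B h a b b' L L' om om' hL hL' ha _ y hu hy key⟩

end Pool.Agent.MUXC


end

section

/-!
# MUX, block XC: module NMC, the norm of the ideal modulo `M` depends only on the class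
-/

set_option autoImplicit false

open Polynomial NumberField IsDedekindDomain

namespace Pool.Agent.MUXC

open _root_.MU3 _root_.Pool.Agent.MU3A _root_.Pool.Agent.MU3B _root_.Pool.Agent.MUX _root_.Pool.Agent.MUXU _root_.Pool.Agent.RI
open _root_.Pool.Agent.MUXE (NL Sxe_RNG)

namespace NMC

variable {A B : ℤ}

lemma nm_cong (M : ℕ) {a b : OO A B} (h : (M : OO A B) ∣ a - b) : (M : ℤ) ∣ nm a - nm b := by
  obtain ⟨c, hc⟩ := h
  have h1 : a = b + (M : OO A B) * c := by rw [← hc]; ring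
  have h2 : a.re = b.re + (M : ℤ) * c.re := by rw [h1]; simp
  have h3 : a.im = b.im + (M : ℤ) * c.im := by rw [h1]; simp
  refine ⟨2 * b.re * c.re + M * c.re ^ 2 + B * (b.re * c.im + c.re * b.im + M * c.re * c.im) -
    A * (2 * b.im * c.im + M * c.im ^ 2), ?_⟩
  unfold nm
  rw [h2, h3]
  ring

end NMC

open _root_.Pool.Agent.MUXC.NMC in
theorem tc_NMC : Sc_NMC := by
  intro A B h M m a a' x y hM hmM ha ha' hcop hx hy hxy heq
  have hspx : (sp x : Ideal (OO A B)) ≠ ⊥ := by rw [Ne, Ideal.span_singleton_eq_bot]; exact hx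
  have hspy : (sp y : Ideal (OO A B)) ≠ ⊥ := by rw [Ne, Ideal.span_singleton_eq_bot]; exact hy
  have h1 := congrArg nI heq
  rw [nI_mul h hspx ha, nI_mul h hspy ha', nI_sp h hx, nI_sp h hy] at h1
  have h2 : nm x * (nI a : ℤ) = nm y * (nI a' : ℤ) := by
    have h3 : (((nm x).natAbs * nI a : ℕ) : ℤ) = (((nm y).natAbs * nI a' : ℕ) : ℤ) := by rw [h1]
    push_cast at h3
    rwa [abs_of_nonneg (nm_nonneg h x), abs_of_nonneg (nm_nonneg h y)] at h3
  have h3 : (M : ℤ) ∣ nm x - nm y := nm_cong M (Ideal.mem_span_singleton.mp (hmM hxy))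
  obtain ⟨u, hu, v, hv, huv⟩ := Ideal.isCoprime_iff_exists.mp hcop
  obtain ⟨r, rfl⟩ := Ideal.mem_span_singleton.mp hu
  have hv' : (M : OO A B) ∣ v := Ideal.mem_span_singleton.mp (hmM hv)
  have h4 : (M : ℤ) ∣ nm (1 : OO A B) - nm (x * r) := by
    apply nm_cong
    have : (1 : OO A B) - x * r = v := by rw [← huv]; ring
    rwa [this]
  rw [nm_mul h] at h4
  have h5 : nm (1 : OO A B) = 1 := by
    show (1 : ℤ) ^ 2 + B * 1 * 0 - A * 0 ^ 2 = 1
    ring
  rw [h5] at h4
  rw [Nat.modEq_iff_dvd]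
  obtain ⟨s, hs⟩ := h3
  obtain ⟨t, ht⟩ := h4
  refine ⟨((nI a' : ℤ) - nI a) * t + nm r * (nI a' : ℤ) * s, ?_⟩
  linear_combination ((nI a' : ℤ) - nI a) * ht + nm r * (nI a' : ℤ) * hs - nm r * h2

end Pool.Agent.MUXC


end

section

/-!
# MUX, block XC: the ideal does not depend on the lattice (IND)
-/

set_option autoImplicit false

open Polynomial NumberField IsDedekindDomain

namespace Pool.Agent.MUXC

open _root_.MU3 _root_.Pool.Agent.MU3A _root_.Pool.Agent.MU3B _root_.Pool.Agent.MUX _root_.Pool.Agent.MUXU _root_.Pool.Agent.RI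
open _root_.Pool.Agent.MUXE (NL Sxe_RNG)

theorem tc_IND (h1 : Sc_QEX) (h2 : Sc_QNE) (h3 : Sc_CJN) (h4 : Sc_PMF) (h5 : Su_PHI)
    (h6 : Su_FUN) (h7 : Pool.Agent.MUXY.Sy_MUC) : Sc_IND := by
  intro A B hCQ σ hσ m a b b' c c' L L' M M' om om' omm omm' mu hm hL hL' hM hM' hact hkap
  obtain ⟨q, ν, -, hqm, hν⟩ := h1 A B hCQ b c m L M om omm hL.toIsLI hM.toIsLI hm
  have cmL : HasCM A B L := hL.toIsLI.hasCM hCQ
  have cmM : HasCM A B M := hM.toIsLI.hasCM hCQ
  obtain ⟨-, isgLM, -⟩ := h2 A B hCQ q L M ν cmL hν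
  obtain ⟨-, cj2, -⟩ := h3 A B hCQ
  have hcjL : IsCj σ L L' := cj2 σ L L' hL.nrm hL'.nrm hact.kap
  have hcjM : IsCj σ M M' := cj2 σ M M' hM.nrm hM'.nrm hkap
  have hQ' : IsQ q L' M' (σ ν) := h7 A B hCQ σ hσ q b L M L' M' om ν hL.toIsLI hcjL hcjM hν
  obtain ⟨Φ, hΦ⟩ := h5 σ L L' hcjL
  obtain ⟨Ψ, hΨ⟩ := h5 σ M M' hcjM
  obtain ⟨isg', hfun⟩ := h6 σ L M L' M' ν Φ Ψ hν.1 isgLM hcjL hcjM hΦ hΨ
  have hν0 : ν ≠ 0 := hν.1
  have hσν : σ ν ≠ 0 := hQ'.1
  have hmu : mu ≠ 0 := hact.isq.1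
  have eM : ∀ (x : OO A B) (z : ℂ), emb x * z = ν * (emb x * (z / ν)) := by
    intro x z
    field_simp
  have hQn : IsQ a M M' (mu * σ ν / ν) := by
    refine ⟨div_ne_zero (mul_ne_zero hmu hσν) hν0, fun z => ?_⟩
    have e1 : mu * σ ν / ν * z = σ ν * (mu * (z / ν)) := by
      field_simp
    rw [e1, hQ'.2]
    constructor
    · intro hz x hx
      rw [eM, hν.2]
      intro y hy
      have h8 := hz y hy
      rw [show emb y * (mu * (z / ν)) = mu * (emb y * (z / ν)) by ring, hact.isq.2] at h8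
      have h9 := h8 x hx
      rwa [show emb x * (emb y * (z / ν)) = emb y * (emb x * (z / ν)) by ring] at h9
    · intro hz y hy
      rw [show emb y * (mu * (z / ν)) = mu * (emb y * (z / ν)) by ring, hact.isq.2]
      intro x hx
      have h8 := hz x hx
      rw [eM, hν.2] at h8
      have h9 := h8 y hy
      rwa [show emb y * (emb x * (z / ν)) = emb x * (emb y * (z / ν)) by ring] at h9
  refine ⟨mu * σ ν / ν, hkap, hact.cop, hQn, fun z hz => ?_⟩
  rw [h4 σ M M' Ψ hΨ]
  obtain ⟨γ, hγ, β, hβ, hγβ⟩ := Ideal.isCoprime_iff_exists.1 hqm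
  have hone : emb γ + emb β = 1 := by
    rw [← _root_.Pool.Agent.MUX.emb_add hCQ, hγβ, _root_.Pool.Agent.MUX.emb_one hCQ]
  -- the point `w`
  have hw : Tor m L (emb γ * (z / ν)) := by
    intro x hx
    have h8 := hz x hx
    rw [eM, hν.2] at h8
    have h9 := h8 γ hγ
    rwa [show emb γ * (emb x * (z / ν)) = emb x * (emb γ * (z / ν)) by ring] at h9
  have e2 : ν * (emb γ * (z / ν)) = emb γ * z := by
    field_simp
  have hd : z - emb γ * z ∈ M.lattice := by
    have h8 := hz β hβ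
    convert h8 using 1
    linear_combination z * (-hone)
  have k1 := hfun (emb γ * (z / ν))
  rw [e2] at k1
  have k2 : Φ (emb γ * (z / ν)) - mu * (emb γ * (z / ν)) ∈ L'.lattice :=
    (h4 σ L L' Φ hΦ _ _).1 (hact.act _ hw)
  have k3 := isg' _ k2
  have k4 := hΨ.add (z - emb γ * z) (emb γ * z)
  rw [sub_add_cancel] at k4
  have k5 := (hΨ.mem (z - emb γ * z)).2 hd
  have k6 : mu * σ ν / ν * (z - emb γ * z) ∈ M'.lattice :=
    (hQn.2 _).2 fun x _ => cmM x _ hd
  have k7 := sub_mem (add_mem (add_mem (add_mem k4 k5) k1) k3) k6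
  convert k7 using 1
  field_simp
  ring

end Pool.Agent.MUXC


end

section

/-!
# MUX, block XC: (FRO) the Frobenius of a prime of degree one
-/

set_option autoImplicit false

namespace Pool.Agent.MUXC

open _root_.MU3 _root_.Pool.Agent.MU3A _root_.Pool.Agent.MU3B _root_.Pool.Agent.MUX _root_.Pool.Agent.MUXU _root_.Pool.Agent.RI
open _root_.Pool.Agent.MUXV (Sq_FRX Sq_VQI InK)

namespace FRO

variable {A B : ℤ}

lemma ne_bot_of_prime (Q : Ideal (OO A B)) {q : ℕ} (hq : q.Prime) (hQ : nI Q = q) : Q ≠ ⊥ := by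
  rintro rfl
  have h1 : Nat.card (OO A B ⧸ (⊥ : Ideal (OO A B))) = Nat.card (OO A B) :=
    Nat.card_congr (RingEquiv.quotientBot (OO A B)).toEquiv
  have hinf : Infinite (OO A B) :=
    Infinite.of_injective (fun n : ℕ => (n : OO A B)) Nat.cast_injective
  have h2 : Nat.card (OO A B) = 0 := Nat.card_eq_zero_of_infinite
  have h3 : nI (⊥ : Ideal (OO A B)) = 0 := h1.trans h2
  rw [h3] at hQ
  exact hq.ne_zero hQ.symm

lemma isQ_neg {a : Ideal (OO A B)} {L M : PeriodPair} {mu : ℂ} (h : IsQ a L M mu) :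
    IsQ a L M (-mu) := by
  refine ⟨neg_ne_zero.2 h.1, fun z => ?_⟩
  rw [← h.2 z, neg_mul]
  exact neg_mem_iff

lemma map_xn {s : ℂ ≃+* ℂ} {L M : PeriodPair} {Φ : ℂ → ℂ} (hΦ : IsPhi s L M Φ) {u : ℂ}
    (hu : u ∉ L.lattice) : xn M (Φ u) = s (xn L u) := by
  unfold xn
  rw [hΦ.P u hu, map_sub, map_div₀, map_one]
  congr 2
  exact (map_ofNat s 12).symm

end FRO

open _root_.Pool.Agent.MUXC.FRO in
theorem tc_FRO (hBAD : Sc_BAD) (hCJN : Sc_CJN) (hNEX : Sc_NEX) (hEXA : Sc_EXA)
    (hPMF : Sc_PMF) (hPHM : Sc_PHM) (hGEN : Sc_GEN) (hQCR : Sc_QCR) (hQNE : Sc_QNE)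
    (hFRX : Sq_FRX) (hVQI : Sq_VQI) (hPHI : Su_PHI) : Sc_FRO := by
  intro A B hc
  obtain ⟨n₀, hn₀, hbad⟩ := hBAD A B hc
  refine ⟨n₀, hn₀, ?_⟩
  intro m hm Q q hq hQ hqn hqm V hV s hs hfr b L om hL
  have hQ0 : Q ≠ ⊥ := ne_bot_of_prime Q hq hQ
  have hovr : ∀ x ∈ Q, V.valuation (emb x) < 1 := fun x hx =>
    (ValuationSubring.mem_nonunits_iff V).1 ((hV x).2 hx)
  obtain ⟨hvq, hvs, hvx⟩ := (hVQI A B hc.toF V).2 Q q hq hQ hovr
  have hvn : ∀ n : ℕ, ¬ q ∣ n → V.valuation (n : ℂ) = 1 := fun n hn => by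
    have := hvs (n : ℤ) (fun h => hn (by exact_mod_cast h))
    rwa [Int.cast_natCast] at this
  obtain ⟨hv2, hv3, hvD, hgood, hinj⟩ := hbad V (hvn n₀ hqn)
  have hq2 : q ≠ 2 := by
    rintro rfl
    have : V.valuation (2 : ℂ) < 1 := by exact_mod_cast hvq
    exact absurd hv2 this.ne
  have hq3 : q ≠ 3 := by
    rintro rfl
    have : V.valuation (3 : ℂ) < 1 := by exact_mod_cast hvq
    exact absurd hv3 this.ne
  have hqD : ¬ (q : ℤ) ∣ B ^ 2 + 4 * A := by
    rintro ⟨c, hc'⟩
    rw [hc'] at hvD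
    have h1 : (((q : ℤ) * c : ℤ) : ℂ) = (q : ℂ) * (c : ℂ) := by push_cast; ring
    rw [h1, map_mul] at hvD
    have h2 : V.valuation (c : ℂ) ≤ 1 := by
      rw [ValuationSubring.valuation_le_one_iff]
      exact intCast_mem V c
    have h3 : V.valuation (q : ℂ) * V.valuation (c : ℂ) < 1 :=
      lt_of_le_of_lt (mul_le_of_le_one_right' h2) hvq
    exact absurd hvD h3.ne
  -- the lattice `M`
  have hb1 : cjI Q * b ≠ ⊥ := mul_ne_bot hc (cjI_ne_bot hc hQ0) hL.b_ne
  obtain ⟨M, om₁, hM⟩ := hNEX A B hc b L om hL (cjI Q * b) hb1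
  have hisQ := hQCR A B hc Q b (cjI Q * b) L M om om₁ hL.toIsLI hM.toIsLI hQ0
    ((q : ℕ) : OO A B) 1 (natCast_ne_zero' hc hq.ne_zero)
    (by
      intro h1
      have := congrArg emb h1
      rw [_root_.Pool.Agent.MUX.emb_one hc, _root_.Pool.Agent.MUX.emb_zero hc] at this
      exact one_ne_zero this)
    (by
      have e1 : sp (1 : OO A B) = ⊤ := Ideal.span_singleton_one
      rw [e1, Ideal.top_mul, ← mul_assoc, mul_cjI hc hQ0, hQ])
  obtain ⟨mu, hmu⟩ : ∃ mu : ℂ, mu = om₁ * emb ((q : ℕ) : OO A B) / (om * emb (1 : OO A B)) :=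
    ⟨_, rfl⟩
  rw [← hmu] at hisQ
  have hcmL : HasCM A B L := hL.toIsLI.hasCM hc
  obtain ⟨-, hisg, hcmM⟩ := hQNE A B hc Q L M mu hcmL hisQ
  -- invariants
  have hgL := hgood b L om hL
  have hgM := hgood (cjI Q * b) M om₁ hM
  obtain ⟨hfk, hfx⟩ := hFRX A B hc.toF Q q hq hq2 hq3 hqD hQ L M mu hcmL hisQ hL.nrm hM.nrm V hovr
    hgL.1 hgL.2.1 hgM.1 hgM.2.1
  have hkmem : kap L ∈ (RF m : IntermediateField (kk A B) ℂ) :=
    IntermediateField.subset_adjoin _ _ ⟨b, L, om, hL, Or.inl rfl⟩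
  have hkV : kap L ∈ V := (ValuationSubring.valuation_le_one_iff _ _).1 hgL.1.le
  have hsk := hfr (kap L) hkmem hkV
  obtain ⟨hCJ1, hCJ2, hCJ3⟩ := hCJN A B hc
  obtain ⟨hsemb, b', L', om', hL', hcj', hk'⟩ := hCJ1 s hs b L om hL
  have hkM : kap M = s (kap L) := by
    rw [← hk']
    apply hinj (cjI Q * b) b' M L' om₁ om' hM hL'
    have e : kap M - kap L' = (kap M - kap L ^ q) - (s (kap L) - kap L ^ q) := by
      rw [hk']; ring
    rw [e]
    exact lt_of_le_of_lt (Valuation.map_sub _ _ _) (max_lt hfk hsk)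
  have hcj : IsCj s L M := hCJ2 s L M hL.nrm hM.nrm hkM
  obtain ⟨Φ, hΦ⟩ := hPHI s L M hcj
  obtain ⟨hP1, hP2, hP3, hP4⟩ := hPHM A B hc s hs b L M om hL.toIsLI hcj Φ hΦ
  obtain ⟨a₀, mu₀, hact⟩ := hEXA A B hc s hs m b (cjI Q * b) L M om om₁ hm hL hM hkM
  obtain ⟨u, hu, hux, hgen⟩ := hGEN A B hc b m L om hL.toIsLI hm
  -- torsion killed by `N = nI m`
  have hNm : ((nI m : ℕ) : OO A B) ∈ m := nI_mem hc hm
  have hNv : V.valuation ((nI m : ℕ) : ℂ) = 1 := hvn _ hqm
  have htorM : ∀ z : ℂ, Tor m M z → InK V M (fun z => M.weierstrassP z - 1 / 12) z →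
      z ∈ M.lattice := by
    intro z hz hK
    obtain ⟨W, ξ, G⟩ := hgM.2.2
    apply Pool.Agent.MUXV.mem_of_nat_mul G hK hNv
    have := hz _ hNm
    rwa [_root_.Pool.Agent.MUX.emb_natCast hc] at this
  have htorL : ∀ z : ℂ, Tor m L z → InK V L (fun z => L.weierstrassP z - 1 / 12) z →
      z ∈ L.lattice := by
    intro z hz hK
    obtain ⟨W, ξ, G⟩ := hgL.2.2
    apply Pool.Agent.MUXV.mem_of_nat_mul G hK hNv
    have := hz _ hNm
    rwa [_root_.Pool.Agent.MUX.emb_natCast hc] at this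
  have htmu : ∀ z : ℂ, Tor m L z → Tor m M (mu * z) := by
    intro z hz x hx
    have e : emb x * (mu * z) = mu * (emb x * z) := by ring
    rw [e]
    exact hisg _ (hz x hx)
  -- the sign
  have hsign : ∃ ε : ℂ, (ε = 1 ∨ ε = -1) ∧ Φ u - ε * mu * u ∈ M.lattice := by
    by_cases huL : u ∈ L.lattice
    · refine ⟨1, Or.inl rfl, sub_mem ((hΦ.mem u).2 huL) ?_⟩
      rw [one_mul]
      exact hisg u huL
    · have huK : ¬ InK V L (fun z => L.weierstrassP z - 1 / 12) u := fun h =>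
        huL (htorL u hu h)
      have hxV : xn L u ∈ V := by
        by_contra h
        exact huK (Or.inr h)
      have hxmem : xn L u ∈ (RF m : IntermediateField (kk A B) ℂ) :=
        IntermediateField.subset_adjoin _ _ ⟨b, L, om, hL, Or.inr ⟨u, hu, huL, rfl⟩⟩
      obtain ⟨hmK, hmx⟩ := hfx u huK
      have hsx := hfr (xn L u) hxmem hxV
      rw [← map_xn hΦ huL] at hsx
      have hdiff : V.valuation (xn M (Φ u) - xn M (mu * u)) < 1 := by
        have e : xn M (Φ u) - xn M (mu * u) =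
            (xn M (Φ u) - xn L u ^ q) - (xn M (mu * u) - xn L u ^ q) := by ring
        rw [e]
        exact lt_of_le_of_lt (Valuation.map_sub _ _ _) (max_lt hsx hmx)
      have hTΦ : Tor m M (Φ u) := (hP2 m u).2 hu
      have hTmu : Tor m M (mu * u) := htmu u hu
      have hΦK : ¬ InK V M (fun z => M.weierstrassP z - 1 / 12) (Φ u) := fun h =>
        huL ((hΦ.mem u).1 (htorM _ hTΦ h))
      by_contra hcon
      push Not at hcon
      have hA := hcon 1 (Or.inl rfl)
      have hB := hcon (-1) (Or.inr rfl)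
      have hsub : ¬ InK V M (fun z => M.weierstrassP z - 1 / 12) (Φ u - mu * u) := fun h =>
        hA (by
          rw [one_mul]
          apply htorM _ _ h
          have := hTΦ.add hTmu.neg
          rwa [← sub_eq_add_neg] at this)
      have hadd : ¬ InK V M (fun z => M.weierstrassP z - 1 / 12) (Φ u + mu * u) := fun h =>
        hB (by
          have e : Φ u - -1 * mu * u = Φ u + mu * u := by ring
          rw [e]
          exact htorM _ (hTΦ.add hTmu) h)
      obtain ⟨W, ξ, G⟩ := hgM.2.2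
      have := Pool.Agent.MUXV.v_X_sub G hΦK hmK hadd hsub
      exact absurd this hdiff.ne
  obtain ⟨ε, hε, hΦu⟩ := hsign
  have hεM : ∀ z ∈ L.lattice, ε * mu * z ∈ M.lattice := by
    intro z hz
    have h1 := hisg z hz
    rcases hε with rfl | rfl
    · rwa [one_mul]
    · have e : -1 * mu * z = -(mu * z) := by ring
      rw [e]
      exact neg_mem h1
  have hall : ∀ z : ℂ, Tor m L z → Φ z - ε * mu * z ∈ M.lattice := by
    intro z hz
    obtain ⟨x, hx⟩ := hgen z hz
    have t1 := (hP3 z (emb x * u)).2 hx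
    have t2 := hP1 x u
    have t3 := hcmM x _ hΦu
    have t4 := hεM _ hx
    have e : Φ z - ε * mu * z = (Φ z - Φ (emb x * u)) + (Φ (emb x * u) - emb x * Φ u) +
        emb x * (Φ u - ε * mu * u) - ε * mu * (z - emb x * u) := by ring
    rw [e]
    exact sub_mem (add_mem (add_mem t1 t2) t3) t4
  refine ⟨cjI Q * b, M, om₁, ε * mu, hM, ⟨hkM, ?_, ?_, ?_⟩⟩
  · rw [Ideal.isCoprime_iff_exists]
    have h1 : IsCoprime (q : ℤ) ((nI m : ℕ) : ℤ) :=
      Nat.isCoprime_iff_coprime.2 ((Nat.Prime.coprime_iff_not_dvd hq).2 hqm)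
    obtain ⟨x, y, hxy⟩ := h1
    have hqQ : ((q : ℕ) : OO A B) ∈ Q := by
      have := nI_mem hc hQ0
      rwa [hQ] at this
    refine ⟨(x : OO A B) * ((q : ℕ) : OO A B), Q.mul_mem_left _ hqQ,
      (y : OO A B) * ((nI m : ℕ) : OO A B), m.mul_mem_left _ hNm, ?_⟩
    have := congrArg (fun n : ℤ => (n : OO A B)) hxy
    push_cast at this
    exact this
  · rcases hε with rfl | rfl
    · rw [one_mul]
      exact hisQ
    · rw [neg_one_mul]
      exact isQ_neg hisQ
  · intro z hz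
    exact (hPMF s L M Φ hΦ z (ε * mu * z)).2 (hall z hz)

end Pool.Agent.MUXC


end

section

/-!
# MUX, block XC: existence of Frobenius automorphisms at a prime ideal of prime norm
-/

set_option autoImplicit false

open Polynomial NumberField IsDedekindDomain

namespace Pool.Agent.MUXC

open _root_.MU3 _root_.Pool.Agent.MU3A _root_.Pool.Agent.MU3B _root_.Pool.Agent.MUX _root_.Pool.Agent.MUXU _root_.Pool.Agent.RI
open _root_.Pool.Agent.MUXE (NL Sxe_RNG)

namespace FEX

/-- existence of the Frobenius automorphism -/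
lemma exists_frob (k F : Type) [Field k] [NumberField k] [Field F] [NumberField F] [Algebra k F]
    [IsGalois k F] (w : Ideal (𝓞 F)) (hw : w.IsPrime) (hb : w ≠ ⊥) (q : ℕ)
    (hq : Nat.card (𝓞 k ⧸ w.under (𝓞 k)) = q) :
    ∃ σ : F ≃ₐ[k] F, ∀ x : 𝓞 F, ∃ y ∈ w, (y : F) = σ x - (x : F) ^ q := by
  have hwfin : Finite (𝓞 F ⧸ w) := Ideal.finiteQuotientOfFreeOfNeBot w hb
  obtain ⟨σ, hσ⟩ := IsArithFrobAt.exists_of_isInvariant (𝓞 k) Gal(F/k) w
  refine ⟨σ, fun x => ⟨_, hσ x, ?_⟩⟩
  rw [hq]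
  change algebraMap (𝓞 F) F (_ - _) = _
  rw [map_sub, map_pow]
  rfl

/-- a prime above `Q` and its Frobenius automorphism, for an isomorphism `e : R ≃ 𝓞 k` -/
lemma _root_.Pool.Agent.MUXC.FEX.exists_all (k F : Type) [Field k] [NumberField k] [Field F] [NumberField F] [Algebra k F]
    [IsGalois k F] {R : Type} [CommRing R] (e : R ≃+* 𝓞 k)
    (Q : Ideal R) (hQ : Q.IsPrime) (q : ℕ) (hq : q.Prime) (hc : Nat.card (R ⧸ Q) = q) :
    ∃ w : Ideal (𝓞 F), w.IsPrime ∧ w ≠ ⊥ ∧
      (∀ x : R, algebraMap (𝓞 k) (𝓞 F) (e x) ∈ w ↔ x ∈ Q) ∧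
      ∃ σ : F ≃ₐ[k] F, ∀ x : 𝓞 F, ∃ y ∈ w, (y : F) = σ x - (x : F) ^ q := by
  obtain ⟨P, hP⟩ : ∃ P : Ideal (𝓞 k), P = Q.map (e : R →+* 𝓞 k) := ⟨_, rfl⟩
  have hPmem : ∀ x : R, e x ∈ P ↔ x ∈ Q := by
    intro x
    rw [hP]
    constructor
    · intro h
      rw [Ideal.mem_map_iff_of_surjective (e : R →+* 𝓞 k) e.surjective] at h
      obtain ⟨y, hy, hxy⟩ := h
      rwa [← e.injective hxy]
    · intro h
      exact Ideal.mem_map_of_mem (e : R →+* 𝓞 k) h
  have hcard : Nat.card (𝓞 k ⧸ P) = q := by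
    rw [← hc]
    exact (Nat.card_congr (Ideal.quotientEquiv Q P e hP).toEquiv).symm
  have hPp : P.IsPrime := by
    refine ⟨?_, ?_⟩
    · intro h
      apply hQ.ne_top
      rw [Ideal.eq_top_iff_one, ← hPmem, h]
      trivial
    · intro x y hxy
      obtain ⟨a, rfl⟩ := e.surjective x
      obtain ⟨b, rfl⟩ := e.surjective y
      rw [← map_mul, hPmem] at hxy
      rw [hPmem, hPmem]
      exact hQ.mem_or_mem hxy
  have hPb : P ≠ ⊥ := by
    rintro h
    have h1 : Finite (𝓞 k ⧸ P) := Nat.finite_of_card_ne_zero (by rw [hcard]; exact hq.ne_zero)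
    have h2 : Function.Injective (algebraMap ℤ (𝓞 k ⧸ P)) := by
      rw [injective_iff_map_eq_zero]
      intro n hn
      have h3 : Ideal.Quotient.mk P (algebraMap ℤ (𝓞 k) n) = 0 := hn
      rw [Ideal.Quotient.eq_zero_iff_mem, h] at h3
      have h4 : algebraMap ℤ (𝓞 k) n = 0 := by simpa using h3
      exact (FaithfulSMul.algebraMap_injective ℤ (𝓞 k)) (by rw [h4, map_zero])
    exact (Infinite.of_injective _ h2).not_finite h1
  obtain ⟨⟨w, hw, hwp⟩⟩ := (inferInstance : Nonempty (Ideal.primesOver P (𝓞 F)))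
  have hwb : w ≠ ⊥ := Ideal.ne_bot_of_liesOver_of_ne_bot hPb w
  refine ⟨w, hw, hwb, ?_, ?_⟩
  · intro x
    have h1 : e x ∈ w.under (𝓞 k) ↔ x ∈ Q := by rw [← hwp.over]; exact hPmem x
    exact h1
  · apply exists_frob k F w hw hwb q
    rw [← hwp.over]
    exact hcard

end FEX

open _root_.Pool.Agent.MUXC.FEX in
theorem tc_FEX (h1 : Sxe_RNG) : Sc_FEX := by
  intro A B hAB F _ _ Q q hq hQp hQ
  obtain ⟨⟨φ, hφ⟩, hinj, -, -, hint⟩ := h1 A B hAB
  have hw0 : IsIntegral ℤ (wC A B) := by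
    rw [hint _ (wC_mem A B)]
    exact ⟨⟨0, 1⟩, by simp [emb]⟩
  have hfd : FiniteDimensional ℚ (kk A B) :=
    IntermediateField.adjoin.finiteDimensional hw0.tower_top
  have hk : NumberField (kk A B) := ⟨⟩
  have hFQ : FiniteDimensional ℚ F := FiniteDimensional.trans ℚ (kk A B) F
  have hF : NumberField F := ⟨⟩
  have hIn : ∀ x : OO A B, IsIntegral ℤ (ek x) := by
    intro x
    have h2 : IsIntegral ℤ (emb x) := (hint (emb x) (MU3A.emb_mem x)).mpr ⟨x, rfl⟩
    have h3 : algebraMap (kk A B) ℂ (ek x) = emb x := rfl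
    rw [← h3] at h2
    exact (isIntegral_algebraMap_iff (FaithfulSMul.algebraMap_injective (kk A B) ℂ)).mp h2
  let e0 : OO A B →+* 𝓞 (kk A B) :=
    { toFun := fun x => ⟨ek x, hIn x⟩
      map_one' := by
        apply RingOfIntegers.ext
        apply Subtype.ext
        change emb 1 = 1
        rw [← hφ, map_one]
      map_mul' := by
        intro a b
        apply RingOfIntegers.ext
        apply Subtype.ext
        change emb (a * b) = emb a * emb b
        rw [← hφ, ← hφ, ← hφ, map_mul]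
      map_zero' := by
        apply RingOfIntegers.ext
        apply Subtype.ext
        change emb 0 = 0
        rw [← hφ, map_zero]
      map_add' := by
        intro a b
        apply RingOfIntegers.ext
        apply Subtype.ext
        change emb (a + b) = emb a + emb b
        rw [← hφ, ← hφ, ← hφ, map_add] }
  have he0v : ∀ x : OO A B, (((e0 x : kk A B)) : ℂ) = emb x := fun x => rfl
  have hbij : Function.Bijective e0 := by
    constructor
    · rw [injective_iff_map_eq_zero]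
      intro x hx
      apply hinj
      rw [← he0v x, hx]
      rfl
    · intro y
      have h2 : IsIntegral ℤ ((y : kk A B) : ℂ) :=
        (RingOfIntegers.isIntegral_coe y).map (Algebra.ofId (kk A B) ℂ |>.restrictScalars ℤ)
      obtain ⟨x, hx⟩ := (hint _ (y : kk A B).2).mp h2
      refine ⟨x, ?_⟩
      apply RingOfIntegers.ext
      apply Subtype.ext
      rw [he0v, hx]
  obtain ⟨w, hw, hwb, hmem, σ, hσ⟩ := _root_.Pool.Agent.MUXC.FEX.exists_all (kk A B) F (RingEquiv.ofBijective e0 hbij)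
    Q hQp q hq hQ
  let v : HeightOneSpectrum (𝓞 F) := ⟨w, hw, hwb⟩
  obtain ⟨V, hV⟩ := Pool.Agent.MU3V.tv_EXT F (algebraMap F ℂ) v
  refine ⟨V, σ, ?_, ?_⟩
  · intro x
    rw [ValuationSubring.mem_nonunits_iff, ← hmem x]
    have h2 := (hV (algebraMap (𝓞 F) F (algebraMap (𝓞 (kk A B)) (𝓞 F) (e0 x)))).2.1
    rw [HeightOneSpectrum.valuation_lt_one_iff_mem] at h2
    exact h2
  · exact Pool.Agent.MU3V.tw_LOC A B F v V (fun x => ⟨(hV x).1, (hV x).2.1⟩) σ q hq.pos hσ

end Pool.Agent.MUXC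


end

section

/-!
# MUX, block XC, module EXT: the fields `mono`, `ext` of `TorX`
-/

set_option autoImplicit false

open Polynomial NumberField IsDedekindDomain

namespace Pool.Agent.MUXC

open _root_.MU3 _root_.Pool.Agent.MU3A _root_.Pool.Agent.MU3B _root_.Pool.Agent.MUX _root_.Pool.Agent.MUXU _root_.Pool.Agent.RI

noncomputable section

namespace EXT

/-- `k` is finite over `ℚ` -/
theorem fin_kk {A B : ℤ} (h : CQ A B) : FiniteDimensional ℚ (kk A B) := by
  have h1 : (0 : ℝ) ≤ (absD A B : ℝ) := by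
    have := h.neg
    have h0 : 0 ≤ absD A B := by
      unfold absD
      omega
    exact_mod_cast h0
  have h2 : ((Real.sqrt (absD A B) : ℝ) : ℂ) ^ 2 = (absD A B : ℂ) := by
    rw [← Complex.ofReal_pow, Real.sq_sqrt h1]
    norm_num
  have h3 : Complex.I ^ 2 = -1 := Complex.I_sq
  have h4 : (absD A B : ℂ) = -((B : ℂ) ^ 2 + 4 * A) := by simp [absD]
  have h5 : _root_.MU3.wC A B * _root_.MU3.wC A B = A + B * _root_.MU3.wC A B := by
    unfold _root_.MU3.wC
    linear_combination (Complex.I ^ 2 / 4) * h2 + ((absD A B : ℂ) / 4) * h3 - (1 / 4) * h4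
  have h6 : IsIntegral ℤ (_root_.MU3.wC A B) := by
    refine ⟨Polynomial.X ^ 2 - Polynomial.C B * Polynomial.X - Polynomial.C A, ?_, ?_⟩
    · monicity!
    · simp only [Polynomial.eval₂_sub, Polynomial.eval₂_mul, Polynomial.eval₂_pow,
        Polynomial.eval₂_X, Polynomial.eval₂_C]
      simp only [algebraMap_int_eq, eq_intCast]
      linear_combination h5
  exact IntermediateField.adjoin.finiteDimensional h6.tower_top

end EXT

open _root_.Pool.Agent.MUXC.EXT in
/-- the fields `mono`, `ext` of `TorX` -/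
theorem tc_EXT (hF : Sc_FGL) (hA : Su_AUE) : Sc_EXT := by
  intro A B hc
  refine ⟨?_, ?_⟩
  · intro m m' hle
    refine IntermediateField.adjoin.mono _ _ _ ?_
    rintro c ⟨b, L, om, hL, hc'⟩
    refine ⟨b, L, om, hL, ?_⟩
    rcases hc' with h | ⟨z, hz, h⟩
    · exact Or.inl h
    · exact Or.inr ⟨z, fun x hx => hz x (hle hx), h⟩
  · intro m hm D h hD
    let akD : Algebra (kk A B) D := algC h
    intro τ
    have hfk := fin_kk hc
    have hfd := (hF A B hc m hm).1
    have halg : Algebra.IsAlgebraic ℚ D := by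
      constructor
      intro y
      have h1 : IsIntegral (kk A B) (⟨(y : ℂ), hD y y.2⟩ : (RF m : IntermediateField (kk A B) ℂ)) :=
        Algebra.IsIntegral.isIntegral _
      have h2 : IsIntegral (kk A B) (y : ℂ) := h1.map (RF m : IntermediateField (kk A B) ℂ).val
      have h3 : IsIntegral ℚ (y : ℂ) := isIntegral_trans (y : ℂ) h2
      have h4 : IsIntegral ℚ y := (isIntegral_algHom_iff D.val Subtype.val_injective).1 h3
      exact h4.isAlgebraic
    obtain ⟨σ, hσ⟩ := hA D halg ((algebraMap D ℂ).comp (τ : D ≃+* D).toRingHom)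
    have hσ' : ∀ y : D, σ (y : ℂ) = (τ y : ℂ) := fun y => hσ y
    refine ⟨σ, ?_, hσ'⟩
    have e1 : τ (algebraMap (kk A B) D ⟨wC A B, wC_mem A B⟩) =
        algebraMap (kk A B) D ⟨wC A B, wC_mem A B⟩ := τ.commutes _
    have e2 := hσ' (algebraMap (kk A B) D ⟨wC A B, wC_mem A B⟩)
    rw [e1] at e2
    exact e2

end

end Pool.Agent.MUXC


end

section

/-!
# MUX, block XC, module ENO: the multipliers of a lattice with complex multiplication (helper18)
-/

set_option autoImplicit false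

namespace Pool.Agent.MUXC

open _root_.MU3 _root_.Pool.Agent.MU3A _root_.Pool.Agent.MU3B _root_.Pool.Agent.MUX _root_.Pool.Agent.MUXU

/-- (ENO) the multipliers of `L` are the elements of `O`. -/
theorem tc_ENO : Sc_ENO := by
  intro A B h b L om hL c hc
  obtain ⟨β, hβ, hβ0⟩ := Submodule.exists_mem_ne_zero_of_ne_bot hL.b_ne
  have key : ∀ t ∈ b, ∃ t' ∈ b, c * emb t = emb t' := by
    intro t ht
    have h1 : om * emb t ∈ L.lattice := (hL.mem _).2 ⟨t, ht, rfl⟩
    obtain ⟨t', ht', e⟩ := (hL.mem _).1 (hc _ h1)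
    refine ⟨t', ht', mul_left_cancel₀ hL.om_ne ?_⟩
    rw [← e]
    ring
  obtain ⟨β', -, e⟩ := key β hβ
  have hle : b * sp β' ≤ b * sp β := by
    rw [Ideal.mul_le]
    intro t ht y hy
    obtain ⟨z, rfl⟩ := Ideal.mem_span_singleton'.1 hy
    obtain ⟨t', ht', e'⟩ := key t ht
    have h1 : t * β' = t' * β := _root_.Pool.Agent.MUX.emb_inj h (by rw [_root_.Pool.Agent.MUX.emb_mul h, _root_.Pool.Agent.MUX.emb_mul h, ← e, ← e']; ring)
    have h2 : t * (z * β') = (z * t') * β := by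
      rw [mul_left_comm, h1, mul_assoc]
    rw [h2]
    exact Ideal.mul_mem_mul (b.mul_mem_left z ht') (Ideal.mem_span_singleton_self β)
  have h3 : β' ∈ sp β := (mul_le_mul_iff h hL.b_ne).1 hle (Ideal.mem_span_singleton_self β')
  obtain ⟨x, hx⟩ := Ideal.mem_span_singleton'.1 h3
  refine ⟨x, mul_right_cancel₀ (_root_.Pool.Agent.MUX.emb_ne_zero h hβ0) ?_⟩
  rw [e, ← hx, _root_.Pool.Agent.MUX.emb_mul h]

end Pool.Agent.MUXC


end

section

/-!
# MU3: Frobenius elements generate the Galois group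
-/

open NumberField IsDedekindDomain Ideal
open scoped nonZeroDivisors Pointwise

namespace Pool.Agent.MU3

namespace DENSF

/-- a finite field in which `z ^ q = z` has at most `q` elements -/
lemma card_le {κ : Type*} [Field κ] [Finite κ] {q : ℕ} (hq : 1 < q) (h : ∀ z : κ, z ^ q = z) :
    Nat.card κ ≤ q := by
  classical
  have : Fintype κ := Fintype.ofFinite κ
  have h0 : (Polynomial.X ^ q - Polynomial.X : Polynomial κ) ≠ 0 :=
    FiniteField.X_pow_card_sub_X_ne_zero κ hq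
  have h1 : (Finset.univ : Finset κ) ⊆
      (Polynomial.X ^ q - Polynomial.X : Polynomial κ).roots.toFinset := by
    intro z _
    rw [Multiset.mem_toFinset, Polynomial.mem_roots h0, Polynomial.IsRoot.def]
    simp [h z]
  have h2 := Finset.card_le_card h1
  rw [Nat.card_eq_fintype_card, ← Finset.card_univ]
  refine h2.trans ((Multiset.toFinset_card_le _).trans ((Polynomial.card_roots' _).trans ?_))
  rw [FiniteField.X_pow_card_sub_X_natDegree_eq κ hq]

/-- finitely many primes contain a given prime number -/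
lemma fin_above (k : Type) [Field k] [NumberField k] (ℓ : ℕ) (hℓ : ℓ.Prime) :
    {v : HeightOneSpectrum (𝓞 k) | (ℓ : 𝓞 k) ∈ v.asIdeal}.Finite := by
  have h0 : (Ideal.span {(ℓ : 𝓞 k)} : Ideal (𝓞 k)) ≠ 0 := by
    rw [Ne, Ideal.zero_eq_bot, Ideal.span_singleton_eq_bot]
    exact_mod_cast hℓ.ne_zero
  refine (Ideal.finite_factors h0).subset fun v hv => ?_
  rw [Set.mem_ofPred_eq, Ideal.dvd_span_singleton]
  exact hv

end DENSF

open _root_.Pool.Agent.MU3.DENSF in
theorem m_DENSF (hNSP : Stmt_NSP) : Stmt_DENSF := by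
  intro k F _ _ _ _ _ _ H T hT hyp
  classical
  let M : IntermediateField k F := IntermediateField.fixedField H
  have hMf : FiniteDimensional k M := inferInstance
  have hMQ : FiniteDimensional ℚ M := FiniteDimensional.trans ℚ k M
  have hM : NumberField M := ⟨⟩
  obtain ⟨B, hB1, hB2⟩ := MU3.p_BAD k M
  set S : Set (HeightOneSpectrum (𝓞 k)) :=
    T ∪ ⋃ ℓ ∈ B, {v : HeightOneSpectrum (𝓞 k) | (ℓ : 𝓞 k) ∈ v.asIdeal} with hSdef
  have hS : S.Finite := by
    refine hT.union ?_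
    refine Set.Finite.biUnion B.finite_toSet fun ℓ hℓ => fin_above k ℓ (hB1 ℓ hℓ)
  have hle : Module.finrank k M ≤ 1 := by
    refine hNSP k M _ S hS ?_
    intro v hvS hvp
    have hvT : v ∉ T := fun h => hvS (Or.inl h)
    have hvm : v.asIdeal.IsPrime := v.isPrime
    have hvmax : v.asIdeal.IsMaximal := v.isMaximal
    have hvb := v.ne_bot
    set q := absNorm v.asIdeal with hq
    -- all primes above `v` have degree one
    have key : ∀ u : Ideal (𝓞 M), u.IsPrime → u.LiesOver v.asIdeal → absNorm u = q := by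
      intro u hu huv
      have hub : u ≠ ⊥ := ne_bot_of_liesOver_of_ne_bot hvb u
      have humax : u.IsMaximal := hu.isMaximal hub
      obtain ⟨⟨w, hw, hwu⟩⟩ := (inferInstance : Nonempty (primesOver u (𝓞 F)))
      have hwb : w ≠ ⊥ := ne_bot_of_liesOver_of_ne_bot hub w
      have hwfin : Finite (𝓞 F ⧸ w) := Ideal.finiteQuotientOfFreeOfNeBot w hwb
      have hwv : w.LiesOver v.asIdeal := LiesOver.trans w u v.asIdeal
      obtain ⟨σ, hσ⟩ := IsArithFrobAt.exists_of_isInvariant (𝓞 k) Gal(F/k) w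
      have hcard : Nat.card (𝓞 k ⧸ w.under (𝓞 k)) = q := by
        rw [← hwv.over, hq, Ideal.absNorm_apply]
        rfl
      have hσH : σ ∈ H := by
        refine hyp v hvT hvp w hw hwv.over.symm σ ?_
        intro x y hxy
        have h1 := hσ x
        have h2 : y = σ • x := RingOfIntegers.coe_injective hxy
        rw [h2]
        rw [hcard] at h1
        exact h1
      have hufin : Finite (𝓞 M ⧸ u) := Ideal.finiteQuotientOfFreeOfNeBot u hub
      letI : Field (𝓞 M ⧸ u) := Ideal.Quotient.field u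
      have hpow : ∀ z : 𝓞 M ⧸ u, z ^ q = z := by
        intro z
        obtain ⟨x, rfl⟩ := Ideal.Quotient.mk_surjective z
        rw [← map_pow, Ideal.Quotient.eq]
        have h1 := hσ (algebraMap (𝓞 M) (𝓞 F) x)
        rw [hcard] at h1
        have h2 : σ • (algebraMap (𝓞 M) (𝓞 F) x) = algebraMap (𝓞 M) (𝓞 F) x := by
          apply RingOfIntegers.coe_injective
          have h3 : σ ((x : M) : F) = ((x : M) : F) := (x : M).2 ⟨σ, hσH⟩
          exact h3
        have h3 : (MulSemiringAction.toAlgHom (𝓞 k) (𝓞 F) σ) (algebraMap (𝓞 M) (𝓞 F) x) =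
            algebraMap (𝓞 M) (𝓞 F) x := h2
        rw [h3] at h1
        have h4 : x - x ^ q ∈ u := by
          rw [hwu.over]
          change algebraMap (𝓞 M) (𝓞 F) (x - x ^ q) ∈ w
          rw [map_sub, map_pow]
          exact h1
        have h5 := u.neg_mem h4
        rwa [neg_sub] at h5
      have h6 : Nat.card (𝓞 M ⧸ u) ≤ q := card_le hvp.one_lt hpow
      have h7 : absNorm u = Nat.card (𝓞 M ⧸ u) := by
        rw [Ideal.absNorm_apply]
        rfl
      have h8 := absNorm_pow_inertiaDeg v.asIdeal u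
      have h9 : 0 < u.inertiaDeg (𝓞 k) := inertiaDeg_pos u (𝓞 k)
      apply le_antisymm (h7 ▸ h6)
      rw [← h8]
      exact Nat.le_self_pow h9.ne' _
    have hf1 : ∀ u : Ideal (𝓞 M), u.IsPrime → u.LiesOver v.asIdeal →
        u.inertiaDeg (𝓞 k) = 1 := by
      intro u hu huv
      have h8 := absNorm_pow_inertiaDeg v.asIdeal u
      rw [key u hu huv] at h8
      exact Nat.pow_right_injective hvp.two_le (by
        change q ^ u.inertiaDeg (𝓞 k) = q ^ 1
        rw [pow_one]
        exact h8)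
    have he1 : ∀ u : Ideal (𝓞 M), u.IsPrime → u.LiesOver v.asIdeal →
        u.ramificationIdx (𝓞 k) = 1 := by
      intro u hu huv
      have hub : u ≠ ⊥ := ne_bot_of_liesOver_of_ne_bot hvb u
      by_contra hne
      obtain ⟨ℓ, hℓ, hmem⟩ := hB2 ⟨u, hu, hub⟩ hne
      apply hvS
      refine Or.inr (Set.mem_biUnion hℓ ?_)
      change (ℓ : 𝓞 k) ∈ v.asIdeal
      rw [huv.over]
      change algebraMap (𝓞 k) (𝓞 M) (ℓ : 𝓞 k) ∈ u
      rw [map_natCast]
      exact hmem
    have hfinP : (primesOver v.asIdeal (𝓞 M)).Finite :=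
      IsDedekindDomain.primesOver_finite v.asIdeal (𝓞 M)
    have : Fintype (primesOver v.asIdeal (𝓞 M)) := hfinP.fintype
    have hsum := sum_ramification_inertia_eq_finrank v.asIdeal (𝓞 M)
    rw [← IsFractionRing.finrank_eq (𝓞 k) k (𝓞 M) M] at hsum
    have hcount : Nat.card (primesOver v.asIdeal (𝓞 M)) = Module.finrank k M := by
      rw [← hsum, Nat.card_eq_fintype_card, Fintype.card_eq_sum_ones]
      refine Finset.sum_congr rfl fun u _ => ?_
      rw [he1 u.1 u.2.1 u.2.2, hf1 u.1 u.2.1 u.2.2]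
    rw [← hcount]
    let f : primesOver v.asIdeal (𝓞 M) → {w : HeightOneSpectrum (𝓞 M) //
        w.asIdeal.under (𝓞 k) = v.asIdeal ∧ absNorm w.asIdeal = absNorm v.asIdeal} :=
      fun P => ⟨⟨P.1, P.2.1, ne_bot_of_mem_primesOver hvb P.2⟩, P.2.2.over.symm,
        key P.1 P.2.1 P.2.2⟩
    have hf : Function.Bijective f := by
      constructor
      · intro P Q h
        have h6 := congrArg (fun z => z.1.asIdeal) h
        exact Subtype.ext h6
      · rintro ⟨Q, hQ1, hQ2⟩
        exact ⟨⟨Q.asIdeal, Q.isPrime, ⟨hQ1.symm⟩⟩, rfl⟩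
    unfold spl
    rw [← Nat.card_eq_of_bijective f hf]
  have h1 : M = ⊥ := by
    rw [← IntermediateField.finrank_eq_one_iff]
    have h2 : 0 < Module.finrank k M := Module.finrank_pos
    omega
  have h3 := IntermediateField.fixingSubgroup_fixedField H
  rw [← h3]
  change M.fixingSubgroup = ⊤
  rw [h1, IntermediateField.fixingSubgroup_bot]

end Pool.Agent.MU3


end

section

/-!
# MUX, block HY: the final statement (module HFX, glue)
-/

set_option autoImplicit false

namespace Pool.Agent.MUXHY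

open _root_.MU3 _root_.Pool.Agent.MU3A _root_.Pool.Agent.MU3B _root_.Pool.Agent.MU3F _root_.Pool.Agent.MUX _root_.Pool.Agent.MUXH
  _root_.Pool.Agent.MuSym OnePoint
open scoped ComplexConjugate

noncomputable section

namespace Hfx

lemma prim (p m : ℕ) (hp : p.Prime) (k : ℤ) (hk : ¬ (p : ℤ) ∣ k) :
    IsPrimitiveRoot (ex ((k : ℚ) / (p : ℚ) ^ m)) (p ^ m) := by
  have hc : IsCoprime k ((p ^ m : ℕ) : ℤ) := by
    push_cast
    apply IsCoprime.pow_right
    exact (((Nat.prime_iff_prime_int.mp hp).coprime_iff_not_dvd).2 hk).symm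
  have h1 := Complex.isPrimitiveRoot_exp_of_isCoprime k (p ^ m) (pow_ne_zero _ hp.ne_zero) hc
  unfold ex
  push_cast at h1 ⊢
  exact h1

/-- the exponent of `p` in `q0 p` -/
def lq (p : ℕ) : ℕ := if p = 2 then 2 else 1

lemma q0_pow (p n : ℕ) : q0 p * p ^ n = p ^ (n + lq p) := by
  unfold q0 lq
  split_ifs with h
  · subst h
    rw [pow_add]
    ring
  · rw [pow_add]
    ring

lemma dvd_q0 (p : ℕ) : (p : ℤ) ∣ (q0 p : ℤ) := by
  unfold q0
  split_ifs with h
  · subst h
    norm_num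
  · exact dvd_refl _

lemma four_dvd_q0 (p : ℕ) (h : p = 2) : (4 : ℤ) ∣ (q0 p : ℤ) := by
  unfold q0
  rw [if_pos h]
  norm_num

end Hfx

open _root_.Pool.Agent.MUXHY.Hfx in
theorem ty_HFX (hHA : MUXH.Sx_HA) (h1 : Sy_VAL) (h2 : Sy_IDE) (h3 : Sy_BRG) (h4 : Sy_QSX)
    (h5 : Sy_CLN) : Sy_HFX := by
  intro p A B P V f hS ι hι R e he kk hka hkv s hs
  obtain ⟨pp, vp, -, -, -, vn, -, vf, -, -, -⟩ := h1 p A B P V f hS
  obtain ⟨Pne, -, -, -, gne, pfg, -, -, -, -⟩ := h2 p A B P V f hS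
  obtain ⟨h, al, hh, hal⟩ := h5 A B hS.case.toCQ (p * f) ι hι R P Pne
  have hyp := h3 p A B P V f hS ι hι R e he kk hka hkv s hs h al hh hal
  obtain ⟨r₁, hr₁⟩ := hHA p V _ _ h _ _ _ s hyp
  have hu : (p : ℤ) ∣ (1 + (q0 p : ℤ)) - 1 := by
    rw [add_sub_cancel_left]
    exact dvd_q0 p
  have haz : ((aX p f : ℕ) : ℤ) = 1 + 2 * (q0 p : ℤ) * f := by
    unfold aX
    push_cast
    ring
  have haa : ((aX p f : ℕ) : ℤ) - 1 = (q0 p : ℤ) * (2 * f) := by
    rw [haz]
    ring
  have hfz : (0 : ℤ) < f := by exact_mod_cast Nat.pos_of_ne_zero hS.f0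
  have hq0 : (0 : ℤ) < (q0 p : ℤ) := by
    have : 0 < q0 p := by
      unfold q0
      split_ifs
      · norm_num
      · exact pp.pos
    exact_mod_cast this
  have hQa : Q0 p ((aX p f : ℕ) : ℤ) := by
    refine ⟨?_, fun h => ?_⟩
    · rw [haa]
      exact Dvd.dvd.mul_right (dvd_q0 p) _
    · rw [haa]
      exact Dvd.dvd.mul_right (four_dvd_q0 p h) _
  have hQg : Q0 p (1 + (q0 p : ℤ)) := by
    refine ⟨hu, fun h => ?_⟩
    rw [add_sub_cancel_left]
    exact four_dvd_q0 p h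
  have ha1 : ((aX p f : ℕ) : ℤ) ≠ 1 := by
    intro h
    have h0 : ((aX p f : ℕ) : ℤ) - 1 = 0 := by rw [h]; norm_num
    rw [haa] at h0
    have : 0 < (q0 p : ℤ) * (2 * f) := by positivity
    exact absurd h0 this.ne'
  have hg1 : (1 + (q0 p : ℤ)) ≠ 1 := by
    intro h
    linarith
  refine ⟨h, r₁ + h * lq p - lq p, hh, fun N hN => ?_⟩
  obtain ⟨n₁, hn₁⟩ := hr₁ _ _ hQa ha1 hQg hg1 N hN (p - 1)
  refine ⟨n₁, fun n hn hmod hH => ?_⟩
  have hle : lq p ≤ h * lq p := Nat.le_mul_of_pos_left _ hh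
  have hmod' : (n + lq p) % h = r₁ % h := by
    have h0 : (n + lq p) % h = (r₁ + h * lq p - lq p + lq p) % h := by
      rw [Nat.add_mod, hmod, ← Nat.add_mod]
    rw [h0, Nat.sub_add_cancel (by omega), Nat.add_mul_mod_self_left]
  -- the root of unity
  have hpa : ¬ (p : ℤ) ∣ ((aX p f : ℕ) : ℤ) := by
    intro h
    have h0 := dvd_sub h hQa.1
    rw [sub_sub_cancel] at h0
    exact pp.one_lt.ne' (by exact_mod_cast Int.eq_one_of_dvd_one (by positivity) h0)
  have hpg : ¬ (p : ℤ) ∣ (1 + (q0 p : ℤ)) := by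
    intro h
    have h0 := dvd_sub h hQg.1
    rw [sub_sub_cancel] at h0
    exact pp.one_lt.ne' (by exact_mod_cast Int.eq_one_of_dvd_one (by positivity) h0)
  have hnd : ¬ (p : ℤ) ∣ -((1 + (q0 p : ℤ)) ^ N * ((aX p f : ℕ) : ℤ) ^ 2) := by
    intro h
    rw [dvd_neg] at h
    have hpi := Nat.prime_iff_prime_int.mp pp
    rcases hpi.dvd_or_dvd h with h | h
    · exact hpg (hpi.dvd_of_dvd_pow h)
    · exact hpa (hpi.dvd_of_dvd_pow h)
  have hprim := prim p (n + lq p) pp _ hnd
  have hmain := hn₁ (n + lq p) (by omega) hmod' _ hprim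
  have hQ := h4 p pp A B hS.case.toCQ P f hS.f0 ι hι R _ e he pfg kk s N n
  have hex : ex (-((1 + (q0 p : ℚ)) ^ N * (aX p f : ℚ) ^ 2) / ((q0 p * p ^ n : ℕ) : ℚ)) =
      ex (((-((1 + (q0 p : ℤ)) ^ N * ((aX p f : ℕ) : ℤ) ^ 2) : ℤ) : ℚ) / (p : ℚ) ^ (n + lq p)) := by
    rw [q0_pow]
    push_cast
    rfl
  rw [hex] at hQ
  simp only [q0_pow, Nat.cast_pow] at hQ
  simp only [q0_pow] at hH
  rw [hQ] at hH
  set Z : ℂ := ∑ b ∈ Finset.range (p ^ (n + lq p)),
    ex (((-((1 + (q0 p : ℤ)) ^ N * ((aX p f : ℕ) : ℤ) ^ 2) : ℤ) : ℚ) / (p : ℚ) ^ (n + lq p)) ^ b *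
      comb ((aX p f : ℕ) : ℤ) (1 + (q0 p : ℤ)) N (fun b => sgnPart (s : ℂ) (PP R P e kk 0) ∞
        ((b / (p : ℚ) ^ (n + lq p) : ℚ) : OnePoint ℚ)) b with hZ
  have hvZ : V.valuation ((if p = 2 then 1 / 2 else 1) * (2 * (f : ℂ) * Z)) = V.valuation Z := by
    split_ifs with h
    · rw [show (1 / 2 : ℂ) * (2 * (f : ℂ) * Z) = f * Z by ring, map_mul, vf, one_mul]
    · have h2 : V.valuation ((2 : ℤ) : ℂ) = 1 := by
        apply vn
        intro hd
        have h3 : p ∣ 2 := by exact_mod_cast hd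
        rcases (Nat.dvd_prime Nat.prime_two).mp h3 with h4 | h4
        · exact pp.one_lt.ne' h4
        · exact h h4
      rw [Int.cast_ofNat] at h2
      rw [one_mul, map_mul, map_mul, h2, vf, one_mul, one_mul]
  unfold HfX at hH
  have hp0 : 0 < V.valuation (p : ℂ) := by
    rw [zero_lt_iff, Ne, Valuation.zero_iff]
    exact_mod_cast pp.ne_zero
  rw [← ValuationSubring.valuation_le_one_iff, map_div₀, map_pow, hvZ, div_le_one₀ hp0] at hH
  exact absurd hmain (not_lt.mpr hH)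

end

end Pool.Agent.MUXHY


end

section

/-!
# Module HERBQ: Herbrand quotient one
-/

set_option autoImplicit false

open NumberField Finset

namespace Pool.Agent.RID

open _root_.Pool.Agent.RI

namespace HERBQ

theorem finrank_zero {M : Type*} [AddCommGroup M] [Module.Finite ℤ M] {K : AddSubgroup M}
    (hK : K ≤ AddCommGroup.torsion M) : Module.finrank ℤ K = 0 := by
  have h1 : Module.Finite ℤ (AddSubgroup.toIntSubmodule K) := inferInstance
  have h2 : Module.finrank ℤ (AddSubgroup.toIntSubmodule K) = 0 := by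
    rw [Module.finrank_eq_zero_iff_isTorsion]
    rintro ⟨x, hx⟩
    obtain ⟨n, hn, hx''⟩ := isOfFinAddOrder_iff_nsmul_eq_zero.mp (hK hx)
    refine ⟨⟨(n : ℤ), mem_nonZeroDivisors_of_ne_zero (by exact_mod_cast hn.ne')⟩, ?_⟩
    apply Subtype.ext
    change ((n : ℤ) : ℤ) • x = 0
    rw [natCast_zsmul, hx'']
  exact h2

theorem rk_eq {M N : Type*} [AddCommGroup M] [Module.Finite ℤ M] [AddCommGroup N]
    [Module.Finite ℤ N] (j : N →+ M) (hj : Function.Injective j) (θ : M →+ N)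
    (hθ : θ.ker ≤ AddCommGroup.torsion M) : Module.finrank ℤ N = Module.finrank ℤ M := by
  apply le_antisymm
  · exact LinearMap.finrank_le_finrank_of_injective (f := j.toIntLinearMap) hj
  · have h1 := HERB.rank_nullity θ
    rw [finrank_zero hθ, add_zero] at h1
    rw [← h1]
    exact LinearMap.finrank_le_finrank_of_injective (f := θ.range.subtype.toIntLinearMap)
      Subtype.val_injective

/-- Herbrand quotient one, additively. -/
theorem main_add (hHQ1 : S_HQ1) (hHQ3 : S_HQ3) (p a : ℕ) [Fact p.Prime] (X : Type)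
    [AddCommGroup X] [Module.Finite ℤ X] (k : AddMonoid.End X) (hk : k ^ (p ^ a) = 1)
    (hr : ∀ i ≤ a, Module.finrank ℤ (AddMonoidHom.ker (k ^ (p ^ i) - 1 : AddMonoid.End X)) =
      p ^ i * Module.finrank ℤ (AddMonoidHom.ker (k - 1 : AddMonoid.End X))) :
    (AddMonoidHom.range (∑ j ∈ range (p ^ a), k ^ j : AddMonoid.End X)).relIndex
      (AddMonoidHom.ker (k - 1 : AddMonoid.End X)) ≠ 0 ∧
    (AddMonoidHom.range (∑ j ∈ range (p ^ a), k ^ j : AddMonoid.End X)).relIndex
      (AddMonoidHom.ker (k - 1 : AddMonoid.End X)) =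
    (AddMonoidHom.range (k - 1 : AddMonoid.End X)).relIndex
      (AddMonoidHom.ker (∑ j ∈ range (p ^ a), k ^ j : AddMonoid.End X)) := by
  have htf := HERB.finite_torsion X
  set t : ℕ := Nat.card (AddCommGroup.torsion X) with ht
  have ht0 : t ≠ 0 := Nat.card_pos.ne'
  have : NeZero t := ⟨ht0⟩
  have htx : ∀ x : X, x ∈ AddCommGroup.torsion X → t • x = 0 := by
    intro x hx
    have h1 : Nat.card (AddCommGroup.torsion X) • (⟨x, hx⟩ : AddCommGroup.torsion X) = 0 :=
      card_nsmul_eq_zero'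
    exact congrArg Subtype.val h1
  set Y : AddSubgroup X := (nsmulAddMonoidHom t : X →+ X).range with hY
  have hYt : ∀ x : X, t • x ∈ Y := fun x => ⟨x, rfl⟩
  have hYi : Y.index ≠ 0 := by
    rw [hY, HERB.index_nsmul]
    apply mul_ne_zero
    · exact HERB.card_ker_ne_zero _ (HERB.nsmul_ker_le t)
    · exact pow_ne_zero _ ht0
  have hkY : ∀ (u : AddMonoid.End X), ∀ y ∈ Y, u y ∈ Y := by
    rintro u _ ⟨x, rfl⟩
    refine ⟨u x, ?_⟩
    exact (map_nsmul u t x).symm
  have hYfin : Module.Finite ℤ Y := by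
    have h1 : Module.Finite ℤ (AddSubgroup.toIntSubmodule Y) := inferInstance
    exact h1
  have hYtf : ∀ (n : ℤ) (y : Y), n ≠ 0 → n • y = 0 → y = 0 := by
    rintro n ⟨_, ⟨x, rfl⟩⟩ hn h
    apply Subtype.ext
    have h1 : n • (t • x) = 0 := congrArg Subtype.val h
    change t • x = 0
    apply htx
    have h2 : (n.natAbs * t) • x = 0 := by
      have h3 : (n * t) • x = 0 := by rw [mul_smul, natCast_zsmul]; exact h1
      rcases Int.natAbs_eq n with h4 | h4
      · rw [h4, ← Nat.cast_mul, natCast_zsmul] at h3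
        exact h3
      · rw [h4, neg_mul, neg_smul, neg_eq_zero, ← Nat.cast_mul, natCast_zsmul] at h3
        exact h3
    exact isOfFinAddOrder_iff_nsmul_eq_zero.mpr ⟨n.natAbs * t,
      Nat.pos_of_ne_zero (mul_ne_zero (Int.natAbs_ne_zero.2 hn) ht0), h2⟩
  have hYtf' : Module.IsTorsionFree ℤ Y := by
    refine ⟨?_⟩
    intro n hn x y hxy
    have hn0 : n ≠ 0 := by
      rintro rfl
      exact absurd hn.left (by
        intro hl
        have := hl (show (0 : ℤ) * 0 = 0 * 1 by ring)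
        norm_num at this)
    have h1 : n • (x - y) = 0 := by
      rw [smul_sub, sub_eq_zero]
      exact hxy
    exact sub_eq_zero.1 (hYtf n _ hn0 h1)
  have hYfree : Module.Free ℤ Y := Module.free_of_finite_type_torsion_free'
  -- the endomorphism of `Y`
  obtain ⟨γ, hγ⟩ : ∃ γ : AddMonoid.End Y, ∀ y : Y, ((γ y : Y) : X) = k y :=
    ⟨(AddMonoidHom.comp (k : X →+ X) Y.subtype).codRestrict Y fun y => hkY k y y.2, fun y => rfl⟩
  have hγi : ∀ (i : ℕ) (y : Y), (((γ ^ i) y : Y) : X) = (k ^ i) y := by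
    intro i
    induction i with
    | zero => intro y; rw [pow_zero, pow_zero]; rfl
    | succ i ih =>
      intro y
      rw [pow_succ, pow_succ]
      have h1 := ih (γ y)
      rw [hγ] at h1
      exact h1
  have hγ1 : ∀ (i : ℕ) (y : Y), (((γ ^ i - 1 : AddMonoid.End Y) y : Y) : X) =
      (k ^ i - 1 : AddMonoid.End X) y := by
    intro i y
    have h1 : (γ ^ i - 1 : AddMonoid.End Y) y = (γ ^ i) y - y := rfl
    have h2 : (k ^ i - 1 : AddMonoid.End X) y = (k ^ i) y - y := rfl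
    rw [h1, h2, AddSubgroup.coe_sub, hγi]
  have hγs : ∀ (y : Y), (((∑ j ∈ range (p ^ a), γ ^ j : AddMonoid.End Y) y : Y) : X) =
      (∑ j ∈ range (p ^ a), k ^ j : AddMonoid.End X) y := by
    intro y
    rw [HERB.sum_apply, HERB.sum_apply, AddSubgroup.val_finsetSum]
    exact Finset.sum_congr rfl fun i _ => hγi i y
  have hγp : γ ^ (p ^ a) = 1 := by
    apply AddMonoidHom.ext
    intro y
    apply Subtype.ext
    have h1 := hγi (p ^ a) y
    rw [hk] at h1
    exact h1
  -- the ranks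
  have hrk : ∀ m : ℕ, Module.finrank ℤ (AddMonoidHom.ker (γ ^ m - 1 : AddMonoid.End Y)) =
      Module.finrank ℤ (AddMonoidHom.ker (k ^ m - 1 : AddMonoid.End X)) := by
    intro m
    have f1 : Module.Finite ℤ (AddMonoidHom.ker (γ ^ m - 1 : AddMonoid.End Y)) := by
      have h1 : Module.Finite ℤ (AddSubgroup.toIntSubmodule
        (AddMonoidHom.ker (γ ^ m - 1 : AddMonoid.End Y))) := inferInstance
      exact h1
    have f2 : Module.Finite ℤ (AddMonoidHom.ker (k ^ m - 1 : AddMonoid.End X)) := by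
      have h1 : Module.Finite ℤ (AddSubgroup.toIntSubmodule
        (AddMonoidHom.ker (k ^ m - 1 : AddMonoid.End X))) := inferInstance
      exact h1
    let j : (AddMonoidHom.ker (γ ^ m - 1 : AddMonoid.End Y)) →+
        (AddMonoidHom.ker (k ^ m - 1 : AddMonoid.End X)) :=
      { toFun := fun y => ⟨((y : Y) : X), by
          have h1 : (γ ^ m - 1 : AddMonoid.End Y) (y : Y) = 0 := y.2
          have h2 := hγ1 m y
          rw [h1] at h2
          exact h2.symm⟩
        map_zero' := rfl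
        map_add' := fun x y => rfl }
    let θ : (AddMonoidHom.ker (k ^ m - 1 : AddMonoid.End X)) →+
        (AddMonoidHom.ker (γ ^ m - 1 : AddMonoid.End Y)) :=
      { toFun := fun x => ⟨⟨t • (x : X), hYt x⟩, by
          change (γ ^ m - 1 : AddMonoid.End Y) ⟨t • (x : X), hYt x⟩ = 0
          apply Subtype.ext
          rw [hγ1]
          change (k ^ m - 1 : AddMonoid.End X) (t • (x : X)) = 0
          rw [map_nsmul]
          have h1 : (k ^ m - 1 : AddMonoid.End X) (x : X) = 0 := x.2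
          rw [h1, smul_zero]⟩
        map_zero' := by
          apply Subtype.ext
          apply Subtype.ext
          exact smul_zero t
        map_add' := fun x y => by
          apply Subtype.ext
          apply Subtype.ext
          exact smul_add t (x : X) (y : X) }
    apply rk_eq j _ θ
    · intro x hx
      have hx' : θ x = 0 := hx
      have h1 : t • (x : X) = 0 := congrArg
        (fun z : (AddMonoidHom.ker (γ ^ m - 1 : AddMonoid.End Y)) => ((z : Y) : X)) hx'
      apply isOfFinAddOrder_iff_nsmul_eq_zero.mpr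
      refine ⟨t, Nat.pos_of_ne_zero ht0, ?_⟩
      apply Subtype.ext
      exact h1
    · intro x y hxy
      apply Subtype.ext
      apply Subtype.ext
      exact congrArg
        (fun z : (AddMonoidHom.ker (k ^ m - 1 : AddMonoid.End X)) => (z : X)) hxy
  have h3 := hHQ3 p a Y γ hγp (by
    intro i hi
    have h1 := hrk 1
    rw [pow_one, pow_one] at h1
    rw [hrk, h1]
    exact hr i hi)
  -- translation
  have e1 : (AddMonoidHom.range (∑ j ∈ range (p ^ a), γ ^ j : AddMonoid.End Y)).map Y.subtype =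
      Y.map (∑ j ∈ range (p ^ a), k ^ j : AddMonoid.End X) := by
    ext x
    constructor
    · rintro ⟨_, ⟨y, rfl⟩, rfl⟩
      exact ⟨y, y.2, (hγs y).symm⟩
    · rintro ⟨y, hy, rfl⟩
      exact ⟨_, ⟨⟨y, hy⟩, rfl⟩, hγs ⟨y, hy⟩⟩
  have e2 : (AddMonoidHom.range (γ - 1 : AddMonoid.End Y)).map Y.subtype =
      Y.map (k - 1 : AddMonoid.End X) := by
    have h1 := hγ1 1
    rw [pow_one, pow_one] at h1
    ext x
    constructor
    · rintro ⟨_, ⟨y, rfl⟩, rfl⟩
      exact ⟨y, y.2, (h1 y).symm⟩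
    · rintro ⟨y, hy, rfl⟩
      exact ⟨_, ⟨⟨y, hy⟩, rfl⟩, h1 ⟨y, hy⟩⟩
  have e3 : (AddMonoidHom.ker (γ - 1 : AddMonoid.End Y)).map Y.subtype =
      Y ⊓ AddMonoidHom.ker (k - 1 : AddMonoid.End X) := by
    have h1 := hγ1 1
    rw [pow_one, pow_one] at h1
    ext x
    constructor
    · rintro ⟨y, hy, rfl⟩
      have h2 : (γ - 1 : AddMonoid.End Y) y = 0 := hy
      refine ⟨y.2, ?_⟩
      change (k - 1 : AddMonoid.End X) (y : X) = 0
      rw [← h1, h2]
      rfl
    · rintro ⟨hy, hy'⟩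
      refine ⟨⟨x, hy⟩, ?_, rfl⟩
      change (γ - 1 : AddMonoid.End Y) ⟨x, hy⟩ = 0
      apply Subtype.ext
      rw [h1]
      exact hy'
  have e4 : (AddMonoidHom.ker (∑ j ∈ range (p ^ a), γ ^ j : AddMonoid.End Y)).map Y.subtype =
      Y ⊓ AddMonoidHom.ker (∑ j ∈ range (p ^ a), k ^ j : AddMonoid.End X) := by
    ext x
    constructor
    · rintro ⟨y, hy, rfl⟩
      have h2 : (∑ j ∈ range (p ^ a), γ ^ j : AddMonoid.End Y) y = 0 := hy
      refine ⟨y.2, ?_⟩
      change (∑ j ∈ range (p ^ a), k ^ j : AddMonoid.End X) (y : X) = 0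
      rw [← hγs, h2]
      rfl
    · rintro ⟨hy, hy'⟩
      refine ⟨⟨x, hy⟩, ?_, rfl⟩
      change (∑ j ∈ range (p ^ a), γ ^ j : AddMonoid.End Y) ⟨x, hy⟩ = 0
      apply Subtype.ext
      rw [hγs]
      exact hy'
  have hinj : Function.Injective Y.subtype := Subtype.val_injective
  rw [← AddSubgroup.relIndex_map_map_of_injective _ _ hinj,
    ← AddSubgroup.relIndex_map_map_of_injective (AddMonoidHom.range (γ - 1 : AddMonoid.End Y)) _
      hinj, e1, e2, e3, e4] at h3
  have hfh : ∀ x, (k - 1 : AddMonoid.End X) ((∑ j ∈ range (p ^ a), k ^ j : AddMonoid.End X) x) =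
      0 := by
    intro x
    have h1 : (k - 1) * (∑ j ∈ range (p ^ a), k ^ j) = k ^ (p ^ a) - 1 := mul_geom_sum k _
    rw [hk, sub_self] at h1
    exact congrArg (fun u : AddMonoid.End X => u x) h1
  have hhf : ∀ x, (∑ j ∈ range (p ^ a), k ^ j : AddMonoid.End X) ((k - 1 : AddMonoid.End X) x) =
      0 := by
    intro x
    have h1 : (∑ j ∈ range (p ^ a), k ^ j) * (k - 1) = k ^ (p ^ a) - 1 := geom_sum_mul k _
    rw [hk, sub_self] at h1
    exact congrArg (fun u : AddMonoid.End X => u x) h1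
  exact hHQ1 X (k - 1 : AddMonoid.End X) (∑ j ∈ range (p ^ a), k ^ j : AddMonoid.End X) Y hYi
    (hkY _) (hkY _) hfh hhf h3.1 h3.2

end HERBQ

open _root_.Pool.Agent.RID.HERBQ in
theorem t_HERBQ (hHQ1 : S_HQ1) (hHQ3 : S_HQ3) : S_HERBQ := by
  intro p a hp A G _ _ _ g E hg hfg hst hr
  have : Group.FG E := (Group.fg_iff_subgroup_fg E).mpr hfg
  have hfin : Module.Finite ℤ (Additive E) := Module.Finite.iff_addGroup_fg.mpr inferInstance
  obtain ⟨k, hk⟩ : ∃ k : AddMonoid.End (Additive E), ∀ x : E,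
      ((k (Additive.ofMul x)).toMul : A) = g • (x : A) :=
    ⟨MonoidHom.toAdditive (((MulDistribMulAction.toMonoidHom A g).comp E.subtype).codRestrict E
      fun x => hst x x.2), fun x => rfl⟩
  have hki : ∀ (i : ℕ) (x : E), (((k ^ i) (Additive.ofMul x)).toMul : A) = g ^ i • (x : A) := by
    intro i
    induction i with
    | zero =>
      intro x
      rw [pow_zero, pow_zero, one_smul]
      rfl
    | succ i ih =>
      intro x
      rw [pow_succ, pow_succ, mul_smul, ← hk x]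
      exact ih (k (Additive.ofMul x)).toMul
  have hsum : ∀ x : E, ((((∑ i ∈ range (p ^ a), k ^ i : AddMonoid.End (Additive E))
      (Additive.ofMul x) : Additive E)).toMul : A) = ng g (p ^ a) (x : A) := by
    intro x
    rw [HERB.sum_apply, toMul_sum, Subgroup.val_finsetProd, ng_apply]
    exact Finset.prod_congr rfl fun i _ => hki i x
  have hdif : ∀ (i : ℕ) (x : E), (((k ^ i - 1 : AddMonoid.End (Additive E))
      (Additive.ofMul x) : Additive E).toMul : A) = (dg (g ^ i) (x : A))⁻¹ := by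
    intro i x
    have h1 : (k ^ i - 1 : AddMonoid.End (Additive E)) (Additive.ofMul x) =
        (k ^ i) (Additive.ofMul x) - Additive.ofMul x := rfl
    rw [h1, toMul_sub, Subgroup.coe_div, hki, dg_apply, inv_div]
    rfl
  have hkp : k ^ (p ^ a) = 1 := by
    apply AddMonoidHom.ext
    intro x
    apply Additive.toMul.injective
    apply Subtype.ext
    have h1 := hki (p ^ a) x.toMul
    rw [hg, one_smul] at h1
    exact h1
  have hrk : ∀ i : ℕ, Module.finrank ℤ (AddMonoidHom.ker (k ^ i - 1 :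
      AddMonoid.End (Additive E))) =
      Module.finrank ℤ (Additive ↥(E ⊓ (dg (g ^ i) : A →* A).ker)) := by
    intro i
    have e : (AddMonoidHom.ker (k ^ i - 1 : AddMonoid.End (Additive E))) ≃+
        Additive ↥(E ⊓ (dg (g ^ i) : A →* A).ker) :=
      { toFun := fun x => Additive.ofMul ⟨((x : Additive E).toMul : A),
          (x : Additive E).toMul.2, by
            have h0 : (k ^ i - 1 : AddMonoid.End (Additive E)) (x : Additive E) = 0 := x.2
            have h1 := hdif i (x : Additive E).toMul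
            change dg (g ^ i) ((x : Additive E).toMul : A) = 1
            apply inv_injective
            rw [← h1, inv_one]
            exact congrArg (fun z : Additive E => (z.toMul : A)) h0⟩
        invFun := fun x => ⟨Additive.ofMul ⟨(x.toMul : A), x.toMul.2.1⟩, by
          change (k ^ i - 1 : AddMonoid.End (Additive E))
            (Additive.ofMul ⟨(x.toMul : A), x.toMul.2.1⟩) = 0
          apply Additive.toMul.injective
          apply Subtype.ext
          rw [hdif]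
          have h2 : dg (g ^ i) (x.toMul : A) = 1 := x.toMul.2.2
          rw [h2, inv_one]
          rfl⟩
        left_inv := fun x => rfl
        right_inv := fun x => rfl
        map_add' := fun x y => rfl }
    exact e.toIntLinearEquiv.finrank_eq
  have hmain := HERBQ.main_add hHQ1 hHQ3 p a (Additive E) k hkp (by
    intro i hi
    have h1 := hrk 1
    rw [pow_one, pow_one] at h1
    rw [hrk, h1]
    exact hr i hi)
  -- translation
  set φ : Additive E →+ Additive A := MonoidHom.toAdditive E.subtype with hφ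
  have hinj : Function.Injective φ := by
    intro x y hxy
    apply Additive.toMul.injective
    apply Subtype.ext
    exact hxy
  have hd1 := hdif 1
  rw [pow_one, pow_one] at hd1
  have e1 : (AddMonoidHom.range (∑ j ∈ range (p ^ a), k ^ j :
      AddMonoid.End (Additive E))).map φ = Subgroup.toAddSubgroup (E.map (ng g (p ^ a))) := by
    ext x
    constructor
    · rintro ⟨_, ⟨y, rfl⟩, rfl⟩
      exact ⟨(y.toMul : A), y.toMul.2, (hsum y.toMul).symm⟩
    · rintro ⟨y, hy, hx⟩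
      exact ⟨_, ⟨Additive.ofMul ⟨y, hy⟩, rfl⟩, (hsum ⟨y, hy⟩).trans hx⟩
  have e2 : (AddMonoidHom.range (k - 1 : AddMonoid.End (Additive E))).map φ =
      Subgroup.toAddSubgroup (E.map (dg g)) := by
    ext x
    constructor
    · rintro ⟨_, ⟨y, rfl⟩, rfl⟩
      refine ⟨((y.toMul⁻¹ : E) : A), (y.toMul⁻¹ : E).2, ?_⟩
      have h1 := hd1 y.toMul
      rw [Subgroup.coe_inv, map_inv]
      exact h1.symm
    · rintro ⟨y, hy, hx⟩
      refine ⟨_, ⟨Additive.ofMul ((⟨y, hy⟩ : E)⁻¹), rfl⟩, ?_⟩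
      have h1 := hd1 ((⟨y, hy⟩ : E)⁻¹)
      have h2 : (dg g (((⟨y, hy⟩ : E)⁻¹ : E) : A))⁻¹ = dg g y := by
        rw [Subgroup.coe_inv, MonoidHom.map_inv, inv_inv]
      exact (h1.trans h2).trans hx
  have e3 : (AddMonoidHom.ker (k - 1 : AddMonoid.End (Additive E))).map φ =
      Subgroup.toAddSubgroup (E ⊓ (dg g).ker) := by
    ext x
    constructor
    · rintro ⟨y, hy, rfl⟩
      have h2 : (k - 1 : AddMonoid.End (Additive E)) y = 0 := hy
      refine ⟨y.toMul.2, ?_⟩
      change dg g (y.toMul : A) = 1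
      apply inv_injective
      rw [← hd1, inv_one]
      exact congrArg (fun z : Additive E => (z.toMul : A)) h2
    · rintro ⟨hy, hy'⟩
      have h2 : dg g (x.toMul : A) = 1 := hy'
      refine ⟨Additive.ofMul ⟨x.toMul, hy⟩, ?_, rfl⟩
      change (k - 1 : AddMonoid.End (Additive E)) (Additive.ofMul ⟨x.toMul, hy⟩) = 0
      apply Additive.toMul.injective
      apply Subtype.ext
      rw [hd1, h2, inv_one]
      rfl
  have e4 : (AddMonoidHom.ker (∑ j ∈ range (p ^ a), k ^ j : AddMonoid.End (Additive E))).map φ =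
      Subgroup.toAddSubgroup (E ⊓ (ng g (p ^ a)).ker) := by
    ext x
    constructor
    · rintro ⟨y, hy, rfl⟩
      have h2 : (∑ j ∈ range (p ^ a), k ^ j : AddMonoid.End (Additive E)) y = 0 := hy
      refine ⟨y.toMul.2, ?_⟩
      change ng g (p ^ a) (y.toMul : A) = 1
      rw [← hsum]
      exact congrArg (fun z : Additive E => (z.toMul : A)) h2
    · rintro ⟨hy, hy'⟩
      have h2 : ng g (p ^ a) (x.toMul : A) = 1 := hy'
      refine ⟨Additive.ofMul ⟨x.toMul, hy⟩, ?_, rfl⟩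
      change (∑ j ∈ range (p ^ a), k ^ j : AddMonoid.End (Additive E))
        (Additive.ofMul ⟨x.toMul, hy⟩) = 0
      apply Additive.toMul.injective
      apply Subtype.ext
      rw [hsum, h2]
      rfl
  rw [← AddSubgroup.relIndex_map_map_of_injective _ _ hinj,
    ← AddSubgroup.relIndex_map_map_of_injective
      (AddMonoidHom.range (k - 1 : AddMonoid.End (Additive E))) _ hinj, e1, e2, e3, e4,
    Subgroup.relIndex_toAddSubgroup, Subgroup.relIndex_toAddSubgroup] at hmain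
  exact hmain

end Pool.Agent.RID


end

section

/-!
# ONE: an extension of degree `p`
-/

set_option autoImplicit false

open NumberField Finset IsDedekindDomain
open scoped nonZeroDivisors Pointwise

namespace MU3

open _root_.Pool.Agent.RI _root_.Pool.Agent.RID

theorem p_ONE (h1 : P_RKE) (h2 : P_LST) (h3 : P_REC) : P_ONE := by
  intro p hp F L _ B h hgal hdeg htot hlay hmono hF
  have hfB : ∀ n, FiniteDimensional ℚ ↥(B n) := fun n =>
    Module.finite_of_finrank_pos (by rw [(hlay n).1]; exact pow_pos hp.out.pos n)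
  have hfd : ∀ n, FiniteDimensional ℚ ↥(L ⊔ B n) := fun n =>
    haveI := hfB n
    IntermediateField.finiteDimensional_sup L (B n)
  obtain ⟨t, ht⟩ := h1 p F L B h hgal hdeg htot hlay
  obtain ⟨C, k, hC⟩ := hF
  obtain ⟨C', hC'⟩ := h3 p (Module.finrank ℚ L) (p * (C + t)) k
    (fun n => padicValNat p (classNo (L ⊔ B n))) (fun n => rkp p ↥(L ⊔ B n))
    (by
      intro n
      have h4 : rkp p ↥(L ⊔ B n) ≤ p * (padicValNat p (classNo (F ⊔ B n)) + t) := ht n (hfd n)
      have h5 : 1 ≤ (n + 1) ^ k := Nat.one_le_pow _ _ (Nat.succ_pos n)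
      have h6 : padicValNat p (classNo (F ⊔ B n)) + t ≤ (C + t) * (n + 1) ^ k := by
        have h7 : t * 1 ≤ t * (n + 1) ^ k := Nat.mul_le_mul_left t h5
        have h8 := hC n
        rw [add_mul]
        omega
      calc rkp p ↥(L ⊔ B n) ≤ p * (padicValNat p (classNo (F ⊔ B n)) + t) := h4
        _ ≤ p * ((C + t) * (n + 1) ^ k) := Nat.mul_le_mul_left p h6
        _ = p * (C + t) * (n + 1) ^ k := (mul_assoc _ _ _).symm)
    (fun n hn => h2 p L B hlay hmono n hn)
  exact ⟨C', k + 1, hC'⟩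

end MU3


end
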