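import Mathlib.GroupTheory.NoncommCoprod
import Pool.Agent.MVF.C030
import Pool.Agent.MVF.C045
import Pool.Agent.MVF.C074

/-! Parts: MUX.C_ZET, MUX.C_SUR, RID.P_ABS1, MU3.N_AMBA, RID.P_RK2, MUX.HY_ROU -/

namespace MU3.Amba
end MU3.Amba
namespace Pool.Agent.MUXC.SUR
end Pool.Agent.MUXC.SUR
namespace Pool.Agent.MUXC.ZET
end Pool.Agent.MUXC.ZET
namespace Pool.Agent.RID.ABS1
end Pool.Agent.RID.ABS1

section

/-!
# MUX, block XC, module ZET: roots of unity
-/

set_option autoImplicit false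

open Polynomial NumberField IsDedekindDomain

namespace Pool.Agent.MUXC

open _root_.MU3 _root_.Pool.Agent.MU3A _root_.Pool.Agent.MU3B _root_.Pool.Agent.MUX _root_.Pool.Agent.MUXU _root_.Pool.Agent.RI
open _root_.Pool.Agent.MUXE (NL Sxe_RNG)

noncomputable section

namespace ZET

variable {A B : ℤ}

/-! ### Fields -/

lemma kk_fin (h : CQ A B) : FiniteDimensional ℚ (kk A B) := by
  apply IntermediateField.adjoin.finiteDimensional
  refine ⟨X ^ 2 - (C (B : ℚ) * X + C (A : ℚ)), ?_, ?_⟩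
  · apply monic_X_pow_sub
    refine (degree_linear_le (a := (B : ℚ)) (b := (A : ℚ))).trans_lt ?_
    norm_num
  · have h1 := MUX.wC_sq h
    simp only [eval₂_sub, eval₂_pow, eval₂_X, eval₂_add, eval₂_mul, eval₂_C]
    rw [map_intCast, map_intCast]
    linear_combination h1

/-- extension of embeddings -/
lemma ext_aut (hU : Su_AUE) (h : CQ A B) (F : IntermediateField (kk A B) ℂ)
    [FiniteDimensional (kk A B) F] (τ : F →+* ℂ) : ∃ σ : ℂ ≃+* ℂ, ∀ x : F, σ x = τ x := by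
  have := kk_fin h
  have : FiniteDimensional ℚ F := FiniteDimensional.trans ℚ (kk A B) F
  have h1 : Algebra.IsAlgebraic ℚ F := inferInstance
  have h2 : Algebra.IsAlgebraic ℚ (F.restrictScalars ℚ) := h1
  exact hU (F.restrictScalars ℚ) h2 τ

lemma fix_kk {s : ℂ ≃+* ℂ} (hs : FixK A B s) (x : ℂ) (hx : x ∈ kk A B) : s x = x := by
  induction hx using IntermediateField.adjoin_induction with
  | mem x hx =>
    rw [Set.mem_singleton_iff] at hx
    rw [hx]
    exact hs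
  | algebraMap x => exact map_ratCast s x
  | add x y _ _ hx hy => rw [map_add, hx, hy]
  | inv x _ hx => rw [map_inv₀, hx]
  | mul x y _ _ hx hy => rw [map_mul, hx, hy]

/-- an automorphism which fixes `k` as an automorphism over `k` -/
def toAlg {s : ℂ ≃+* ℂ} (hs : FixK A B s) : ℂ ≃ₐ[kk A B] ℂ :=
  AlgEquiv.ofRingEquiv (f := s) fun x => fix_kk hs x x.2

lemma wC_mem_kk : wC A B ∈ kk A B := IntermediateField.mem_adjoin_simple_self ℚ _

lemma _root_.Pool.Agent.MUXC.ZET.wC_mem (F : IntermediateField (kk A B) ℂ) : wC A B ∈ F :=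
  F.algebraMap_mem (⟨wC A B, wC_mem_kk⟩ : kk A B)

/-! ### Valuations -/

lemma v_nat {V : ValuationSubring ℂ} {q : ℕ} (hq : q.Prime) (hqV : V.valuation (q : ℂ) < 1)
    {M : ℕ} (hqM : ¬ q ∣ M) : ¬ V.valuation (M : ℂ) < 1 := by
  intro hMV
  have hint : ∀ n : ℤ, V.valuation (n : ℂ) ≤ 1 := fun n =>
    (V.valuation_le_one_iff _).2 (intCast_mem V n)
  have hcop : Nat.Coprime q M := (hq.coprime_iff_not_dvd).2 hqM
  have h5 := Nat.gcd_eq_gcd_ab q M
  rw [hcop.gcd_eq_one] at h5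
  have h6 : (1 : ℂ) = (q : ℂ) * ((Nat.gcdA q M : ℤ) : ℂ) + (M : ℂ) * ((Nat.gcdB q M : ℤ) : ℂ) := by
    have := congrArg (fun t : ℤ => (t : ℂ)) h5
    simpa using this
  have h7 : V.valuation (1 : ℂ) < 1 := by
    rw [h6]
    refine Valuation.map_add_lt _ ?_ ?_
    · rw [map_mul]
      exact mul_lt_one_of_lt_of_le hqV (hint _)
    · rw [map_mul]
      exact mul_lt_one_of_lt_of_le hMV (hint _)
  rw [map_one] at h7
  exact lt_irrefl _ h7

lemma v_root {V : ValuationSubring ℂ} {M : ℕ} (hM : M ≠ 0) {z : ℂ} (hz : z ^ M = 1) :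
    V.valuation z = 1 := by
  have h1 : (V.valuation z) ^ M = 1 := by rw [← map_pow, hz, map_one]
  exact (pow_eq_one_iff.1 h1).resolve_right hM

lemma root_one {V : ValuationSubring ℂ} {M : ℕ} (hM : M ≠ 0) {t : ℂ} (ht : t ^ M = 1)
    (hv : V.valuation (t - 1) < 1) (hMV : ¬ V.valuation (M : ℂ) < 1) : t = 1 := by
  by_contra hne
  have h1 : (∑ i ∈ Finset.range M, t ^ i) * (t - 1) = 0 := by
    rw [geom_sum_mul, ht, sub_self]
  have h2 : ∑ i ∈ Finset.range M, t ^ i = 0 :=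
    (mul_eq_zero.1 h1).resolve_right (sub_ne_zero.2 hne)
  apply hMV
  have h3 : (M : ℂ) = - ∑ i ∈ Finset.range M, (t ^ i - 1) := by
    rw [Finset.sum_sub_distrib, h2]
    simp
  have h4 : V.valuation t = 1 := v_root hM ht
  rw [h3, Valuation.map_neg]
  have h5 : ∀ i ∈ Finset.range M, V.valuation (t ^ i - 1) < 1 := by
    intro i _
    have h6 : t ^ i - 1 = (t - 1) * ∑ j ∈ Finset.range i, t ^ j := (mul_geom_sum t i).symm
    rw [h6, map_mul]
    refine mul_lt_one_of_lt_of_le hv ?_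
    refine Valuation.map_sum_le _ fun j _ => ?_
    rw [map_pow, h4, one_pow]
  exact Valuation.map_sum_lt _ one_ne_zero h5

lemma frob_root {V : ValuationSubring ℂ} {q M : ℕ} (hq : q.Prime)
    (hqV : V.valuation (q : ℂ) < 1) (hM : M ≠ 0) (hqM : ¬ q ∣ M) {z z' : ℂ} (hz : z ^ M = 1)
    (hz' : z' ^ M = 1) (hv : V.valuation (z' - z ^ q) < 1) : z' = z ^ q := by
  have hz0 : z ≠ 0 := by
    rintro rfl
    rw [zero_pow hM] at hz
    exact zero_ne_one hz
  have hzq : z ^ q ≠ 0 := pow_ne_zero _ hz0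
  have h1 : (z' / z ^ q) ^ M = 1 := by
    rw [div_pow, hz', ← pow_mul, mul_comm, pow_mul, hz, one_pow, div_one]
  have h2 : V.valuation (z' / z ^ q - 1) < 1 := by
    have h3 : z' / z ^ q - 1 = (z' - z ^ q) / z ^ q := by
      rw [sub_div, div_self hzq]
    rw [h3, map_div₀, map_pow, v_root hM hz, one_pow, div_one]
    exact hv
  have h3 := root_one hM h1 h2 (v_nat hq hqV hqM)
  exact (div_eq_one_iff_eq hzq).1 h3

/-! ### Norms -/

lemma nI_sp_cong (h : CQ A B) {M : ℕ} {m : Ideal (OO A B)} (hmM : m ≤ idl M) {c : OO A B}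
    (hc : c - 1 ∈ m) (hc0 : c ≠ 0) {z : ℂ} (hz : z ^ M = 1) : z ^ nI (sp c) = z := by
  have h1 : (M : OO A B) ∣ c - 1 := Ideal.mem_span_singleton.1 (hmM hc)
  have h2 := CYC.nm_cong M h1
  have h3 : nm (1 : OO A B) = 1 := CYC.nm_one
  have h4 : nI (sp c) ≡ 1 [MOD M] := by
    rw [← Int.natCast_modEq_iff, MUX.nI_sp h hc0, Int.natCast_natAbs,
      abs_of_nonneg (MUX.nm_nonneg h c)]
    refine (Int.modEq_iff_dvd.2 ?_).symm
    rw [h3] at h2
    exact_mod_cast h2
  rw [pow_eq_pow_of_modEq h4 hz, pow_one]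

lemma ne_top (h : CQ A B) {M : ℕ} {m : Ideal (OO A B)} (hmM : m ≤ idl M) (hM : M ≠ 1) :
    m ≠ ⊤ := by
  intro h1
  rw [h1, top_le_iff, Ideal.span_singleton_eq_top] at hmM
  obtain ⟨u, hu⟩ := isUnit_iff_exists_inv.1 hmM
  have h2 := congrArg nm hu
  have h3 : nm ((M : ℕ) : OO A B) = (M : ℤ) ^ 2 := by
    have := nm_intCast (A := A) (B := B) (M : ℤ)
    rwa [Int.cast_natCast] at this
  rw [MUX.nm_mul h, h3, CYC.nm_one] at h2
  have h4 : (M : ℤ) ∣ 1 := ⟨M * nm u, by rw [← h2]; ring⟩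
  have h5 : M ∣ 1 := by exact_mod_cast h4
  exact hM (Nat.dvd_one.1 h5)

/-! ### The action on all normalised lattices -/

/-- `s` acts on the points of level `m` as the ideal `a` -/
def Good (m : Ideal (OO A B)) (s : ℂ ≃+* ℂ) (a : Ideal (OO A B)) : Prop :=
  ∀ (b : Ideal (OO A B)) (L : PeriodPair) (om : ℂ), IsNL b L om →
    ∃ (b' : Ideal (OO A B)) (L' : PeriodPair) (om' mu : ℂ), IsNL b' L' om' ∧
      ActI s m a L L' mu

/-- the claim for `s` -/
def PP (m : Ideal (OO A B)) (z : ℂ) (s : ℂ ≃+* ℂ) : Prop :=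
  ∃ a : Ideal (OO A B), Good m s a ∧ s z = z ^ nI a

lemma ActI.ne_bot (hQNE : Sc_QNE) (hQ : CQ A B) {m a b : Ideal (OO A B)} {s : ℂ ≃+* ℂ}
    {L L' : PeriodPair} {om mu : ℂ} (hL : IsNL b L om) (h : ActI s m a L L' mu) : a ≠ ⊥ :=
  (hQNE A B hQ a L L' mu (hL.toIsLI.hasCM hQ) h.isq).1

lemma Good.ne_bot (hQNE : Sc_QNE) (hQ : CQ A B) {m a b : Ideal (OO A B)} {s : ℂ ≃+* ℂ}
    {L : PeriodPair} {om : ℂ} (hL : IsNL b L om) (h : Good m s a) : a ≠ ⊥ := by
  obtain ⟨b', L', om', mu, -, h2⟩ := h b L om hL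
  exact ActI.ne_bot hQNE hQ hL h2

lemma Good.mul (hCMP : Sc_CMP) (hQ : CQ A B) {m a b : Ideal (OO A B)} {s t : ℂ ≃+* ℂ}
    (h1 : Good m s a) (h2 : Good m t b) : Good m (s.trans t) (a * b) := by
  intro c L om hL
  obtain ⟨c₁, L₁, om₁, mu, hL₁, h3⟩ := h1 c L om hL
  obtain ⟨c₂, L₂, om₂, nu, hL₂, h4⟩ := h2 c₁ L₁ om₁ hL₁
  exact ⟨c₂, L₂, om₂, nu * mu, hL₂, hCMP A B hQ m a b s t L L₁ L₂ mu nu h3 h4⟩

lemma PP.mul (hCMP : Sc_CMP) (hQNE : Sc_QNE) (hQ : CQ A B) {m b : Ideal (OO A B)}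
    {L : PeriodPair} {om : ℂ} (hL : IsNL b L om) {z : ℂ} {s t : ℂ ≃+* ℂ} (h1 : PP m z s)
    (h2 : PP m z t) : PP m z (s.trans t) := by
  obtain ⟨a, ha, ha'⟩ := h1
  obtain ⟨c, hc, hc'⟩ := h2
  refine ⟨a * c, ha.mul hCMP hQ hc, ?_⟩
  rw [RingEquiv.trans_apply, ha', map_pow, hc', ← pow_mul,
    MUX.nI_mul hQ (ha.ne_bot hQNE hQ hL) (hc.ne_bot hQNE hQ hL), mul_comm]

/-- an automorphism which is trivial on `RF m` and fixes `z` -/
lemma PP.of_triv (hACT : Sc_ACT) (hTRV : Sc_TRV) (hQNE : Sc_QNE) (hQ : CQ A B) {M : ℕ}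
    {m b : Ideal (OO A B)} (hm : m ≠ ⊥) (hmM : m ≤ idl M)
    {L : PeriodPair} {om : ℂ} (hL : IsNL b L om) {z : ℂ} (hz : z ^ M = 1) {s : ℂ ≃+* ℂ}
    (hs : ∀ y ∈ (RF m : IntermediateField (kk A B) ℂ), s y = y) (hsz : s z = z) : PP m z s := by
  have hfix : FixK A B s := hs _ (_root_.Pool.Agent.MUXC.ZET.wC_mem _)
  obtain ⟨a, ha, hg⟩ := hACT A B hQ m hm s hfix
  obtain ⟨b', L', om', mu, hL', hact⟩ := hg b L om hL
  obtain ⟨c, hc, hac⟩ := (hTRV A B hQ m a s b L L' om mu hm hfix hL hact hL'.nrm).1 hs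
  have ha0 : a ≠ ⊥ := ActI.ne_bot hQNE hQ hL hact
  have hc0 : c ≠ 0 := by
    rintro rfl
    apply ha0
    rw [hac]
    exact Ideal.span_singleton_eq_bot.2 rfl
  refine ⟨a, hg, ?_⟩
  rw [hac, nI_sp_cong hQ hmM hc hc0 hz, hsz]

/-- independence of the ideal -/
lemma indep (hUNQ : Sc_UNQ) (hNMC : Sc_NMC) (hNRL : Sc_NRL) (hQNE : Sc_QNE) (hCJN : Sc_CJN)
    (hQ : CQ A B) {M : ℕ} {m a b : Ideal (OO A B)} (hm : m ≠ ⊥) (hmt : m ≠ ⊤) (hM : M ≠ 0)
    (hmM : m ≤ idl M) {L L' : PeriodPair} {om mu : ℂ} (hL : IsNL b L om) {z : ℂ}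
    (hz : z ^ M = 1) {s : ℂ ≃+* ℂ} (h : PP m z s) (hact : ActI s m a L L' mu) :
    s z = z ^ nI a := by
  obtain ⟨a₀, hg, ha₀⟩ := h
  obtain ⟨b₁, L₁, om₁, mu₁, hL₁, hact₁⟩ := hg b L om hL
  have hn := (hNRL A B hQ m a s b L L' om mu hm hmt hL hact).1
  obtain ⟨hlat, hxy⟩ := (hCJN A B hQ).2.2 L' L₁ hn hL₁.nrm (by rw [hact.kap, hact₁.kap])
  have hact2 : ActI s m a L L₁ mu := by
    refine ⟨hact₁.kap, hact.cop, ⟨hact.isq.1, fun y => ?_⟩, fun y hy => ?_⟩
    · rw [← hlat]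
      exact hact.isq.2 y
    · rcases hact.act y hy with ⟨h1, h2⟩ | ⟨h1, h2, h3, h4⟩
      · exact Or.inl ⟨h1, (hlat _).1 h2⟩
      · refine Or.inr ⟨h1, fun h5 => h2 ((hlat _).2 h5), ?_, ?_⟩
        · rw [h3, (hxy _).1]
        · rw [h4, (hxy _).2]
  obtain ⟨x, y, hxm, hx0, hy0, hxym, hxy2, -⟩ :=
    hUNQ A B hQ m a₀ a s L L₁ mu₁ mu hm ⟨b, om, hL⟩ hact₁ hact2
  have h5 := hNMC A B hQ M m a₀ a x y hM hmM (ActI.ne_bot hQNE hQ hL hact₁)
    (ActI.ne_bot hQNE hQ hL hact2) hxm hx0 hy0 hxym hxy2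
  rw [ha₀, pow_eq_pow_of_modEq h5 hz]

/-- the main step -/
lemma key (hFRO : Sc_FRO) (hDNX : Sc_DNX) (hFGL : Sc_FGL) (hACT : Sc_ACT) (hCMP : Sc_CMP)
    (hTRV : Sc_TRV) (hQNE : Sc_QNE) (hAUE : Su_AUE) (hQ : CQ A B) {M : ℕ}
    {m b : Ideal (OO A B)} (hm : m ≠ ⊥) (hM : M ≠ 0) (hmM : m ≤ idl M)
    {L : PeriodPair} {om : ℂ} (hL : IsNL b L om) {z : ℂ} (hz : z ^ M = 1) (s : ℂ ≃+* ℂ)
    (hs : FixK A B s) : PP m z s := by
  obtain ⟨hf, hg, -⟩ := hFGL A B hQ m hm
  obtain ⟨hf', hn'⟩ := CYC.adj_gal (A := A) (B := B) hM hz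
  set F := (RF m ⊔ IntermediateField.adjoin (kk A B) {z} :
      IntermediateField (kk A B) ℂ) with hFdef
  have hF : (RF m : IntermediateField (kk A B) ℂ) ≤ F := le_sup_left
  have hzF : z ∈ F := (le_sup_right : _ ≤ F) (IntermediateField.mem_adjoin_simple_self _ z)
  have : FiniteDimensional (kk A B) F := IntermediateField.finiteDimensional_sup _ _
  have : Normal (kk A B) F := IntermediateField.normal_sup (kk A B) ℂ _ _
  have : IsGalois (kk A B) F := ⟨⟩
  obtain ⟨n₀, hn₀, hfro⟩ := hFRO A B hQ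
  let S : Submonoid (F ≃ₐ[kk A B] F) :=
    { carrier := {φ | ∀ s : ℂ ≃+* ℂ, (∀ x : F, s (x : ℂ) = (φ x : ℂ)) → PP m z s}
      one_mem' := by
        intro s hs
        refine PP.of_triv hACT hTRV hQNE hQ hm hmM hL hz (fun y hy => ?_) ?_
        · exact hs ⟨y, hF hy⟩
        · exact hs ⟨z, hzF⟩
      mul_mem' := by
        intro φ ψ hφ hψ s hs
        obtain ⟨t, ht⟩ := ext_aut hAUE hQ F ((algebraMap F ℂ).comp (ψ : F →+* F))
        have ht' : ∀ x : F, t (x : ℂ) = (ψ x : ℂ) := ht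
        have h1 : PP m z t := hψ t ht'
        have h2 : PP m z (t.symm.trans s) := by
          apply hφ
          intro x
          have h3 : t.symm (x : ℂ) = ((ψ.symm x : F) : ℂ) := by
            rw [RingEquiv.symm_apply_eq, ht', AlgEquiv.apply_symm_apply]
          rw [RingEquiv.trans_apply, h3, hs, AlgEquiv.mul_apply, AlgEquiv.apply_symm_apply]
        have h3 := h1.mul hCMP hQNE hQ hL h2
        have h4 : t.trans (t.symm.trans s) = s := by
          ext x
          simp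
        rwa [h4] at h3 }
  let H : Subgroup (F ≃ₐ[kk A B] F) :=
    { S with
      inv_mem' := by
        intro s hs
        have hcard : s ^ (Nat.card (F ≃ₐ[kk A B] F)) = 1 := pow_card_eq_one'
        have hpos : 0 < Nat.card (F ≃ₐ[kk A B] F) := Nat.card_pos
        have h5 : s⁻¹ = s ^ (Nat.card (F ≃ₐ[kk A B] F) - 1) := by
          apply inv_eq_of_mul_eq_one_left
          rw [← pow_succ, Nat.sub_add_cancel hpos, hcard]
        rw [h5]
        exact S.pow_mem hs _ }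
  have hH : H = ⊤ := by
    apply hDNX A B hQ F H (n₀ * M * nI m)
      (mul_ne_zero (mul_ne_zero hn₀ hM) (MUX.nI_ne_zero hQ hm))
    intro Q q hq hQp hQq hqn V hV σ hσ
    change ∀ s : ℂ ≃+* ℂ, (∀ x : F, s (x : ℂ) = (σ x : ℂ)) → PP m z s
    intro s hs
    have h1 : ¬ q ∣ n₀ := fun h => hqn ((h.mul_right M).mul_right _)
    have h2 : ¬ q ∣ M := fun h => hqn ((h.mul_left n₀).mul_right _)
    have h3 : ¬ q ∣ nI m := fun h => hqn (h.mul_left _)
    have hfix : FixK A B s := by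
      have h4 := hs ⟨wC A B, _root_.Pool.Agent.MUXC.ZET.wC_mem F⟩
      have h5 : σ ⟨wC A B, _root_.Pool.Agent.MUXC.ZET.wC_mem F⟩ = ⟨wC A B, _root_.Pool.Agent.MUXC.ZET.wC_mem F⟩ :=
        σ.commutes (⟨wC A B, wC_mem_kk⟩ : kk A B)
      rw [h5] at h4
      exact h4
    refine ⟨Q, ?_, ?_⟩
    · refine hfro m hm Q q hq hQq h1 h3 V hV s hfix ?_
      intro x hx hxV
      have h4 := hσ ⟨x, hF hx⟩ hxV
      rw [← hs] at h4
      exact h4
    · rw [hQq]
      have hqV : V.valuation (q : ℂ) < 1 := by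
        have hQ0 : Q ≠ ⊥ := by
          rintro rfl
          have h4 : nI (⊥ : Ideal (OO A B)) = 0 := by
            unfold nI
            have : Infinite (OO A B ⧸ (⊥ : Ideal (OO A B))) := by
              have h5 : Function.Injective
                  (fun n : ℕ => Ideal.Quotient.mk (⊥ : Ideal (OO A B)) ((n : ℕ) : OO A B)) := by
                intro x y hxy
                rw [Ideal.Quotient.eq, Ideal.mem_bot, sub_eq_zero] at hxy
                have h6 := congrArg emb hxy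
                rw [MUX.emb_natCast hQ, MUX.emb_natCast hQ] at h6
                exact_mod_cast h6
              exact Infinite.of_injective _ h5
            exact Nat.card_eq_zero_of_infinite
          rw [h4] at hQq
          exact hq.ne_zero hQq.symm
        have h4 : ((nI Q : ℕ) : OO A B) ∈ Q := MUX.nI_mem hQ hQ0
        rw [hQq] at h4
        have h5 := (hV _).2 h4
        rw [MUX.emb_natCast hQ, ValuationSubring.mem_nonunits_iff] at h5
        exact h5
      have hzV : z ∈ V := by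
        rw [← V.valuation_le_one_iff, v_root hM hz]
      have h4 := hσ ⟨z, hzF⟩ hzV
      rw [← hs] at h4
      refine frob_root hq hqV hM h2 hz ?_ h4
      rw [← map_pow, hz, map_one]
  have h1 : (toAlg hs).restrictNormal F ∈ H := by
    rw [hH]
    trivial
  refine h1 s ?_
  intro x
  exact (AlgEquiv.restrictNormal_commutes (toAlg hs) F x).symm

end ZET

open _root_.Pool.Agent.MUXC.ZET in
theorem tc_ZET (hFRO : Sc_FRO) (hDNX : Sc_DNX) (hFGL : Sc_FGL) (hACT : Sc_ACT) (hCMP : Sc_CMP)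
    (hUNQ : Sc_UNQ) (hNMC : Sc_NMC) (hNRL : Sc_NRL) (hQNE : Sc_QNE) (hTRV : Sc_TRV)
    (hCJN : Sc_CJN) (hAUE : Su_AUE) (hAUF : Su_AUF) : Sc_ZET := by
  intro A B hQ M m a σ b L L' om mu hm hσ hM hmM hL hact z hz
  rcases eq_or_ne M 1 with h1 | h1
  · subst h1
    rw [pow_one] at hz
    subst hz
    exact ⟨one_mem _, by rw [map_one, one_pow]⟩
  have hmt : m ≠ ⊤ := ne_top hQ hmM h1
  have hkey := fun s hs => key hFRO hDNX hFGL hACT hCMP hTRV hQNE hAUE hQ hm hM hmM hL hz s hs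
  refine ⟨?_, indep hUNQ hNMC hNRL hQNE hCJN hQ hm hmt hM hmM hL hz (hkey σ hσ) hact⟩
  obtain ⟨hf, -, -⟩ := hFGL A B hQ m hm
  have := kk_fin hQ
  have : FiniteDimensional ℚ (RF m : IntermediateField (kk A B) ℂ) :=
    FiniteDimensional.trans ℚ (kk A B) _
  have h2 : Algebra.IsAlgebraic ℚ (RF m : IntermediateField (kk A B) ℂ) := inferInstance
  refine hAUF ((RF m : IntermediateField (kk A B) ℂ).restrictScalars ℚ) h2 z ?_
  intro s hs
  have hs' : ∀ y ∈ (RF m : IntermediateField (kk A B) ℂ), s y = y := hs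
  have hfix : FixK A B s := hs' _ (_root_.Pool.Agent.MUXC.ZET.wC_mem _)
  obtain ⟨a₀, ha₀, hg⟩ := hACT A B hQ m hm s hfix
  obtain ⟨b₁, L₁, om₁, mu₁, hL₁, hact₁⟩ := hg b L om hL
  obtain ⟨c, hc, hac⟩ := (hTRV A B hQ m a₀ s b L L₁ om mu₁ hm hfix hL hact₁ hL₁.nrm).1 hs'
  have ha0 : a₀ ≠ ⊥ := ZET.ActI.ne_bot hQNE hQ hL hact₁
  have hc0 : c ≠ 0 := by
    rintro rfl
    apply ha0
    rw [hac]
    exact Ideal.span_singleton_eq_bot.2 rfl
  rw [indep hUNQ hNMC hNRL hQNE hCJN hQ hm hmt hM hmM hL hz (hkey s hfix) hact₁, hac,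
    nI_sp_cong hQ hmM hc hc0 hz]

end

end Pool.Agent.MUXC


end

section

/-!
# MUX, block XC, module SUR: the field `surj` of `TorX`
-/

set_option autoImplicit false

open Polynomial NumberField IsDedekindDomain

namespace Pool.Agent.MUXC

open _root_.MU3 _root_.Pool.Agent.MU3A _root_.Pool.Agent.MU3B _root_.Pool.Agent.MUX _root_.Pool.Agent.MUXU _root_.Pool.Agent.RI

noncomputable section

namespace SUR

variable {A B : ℤ}

lemma fix_refl : FixK A B (RingEquiv.refl ℂ) := rfl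

lemma fix_trans {σ τ : ℂ ≃+* ℂ} (h : FixK A B σ) (h' : FixK A B τ) : FixK A B (σ.trans τ) := by
  change τ (σ (wC A B)) = wC A B
  rw [show σ (wC A B) = wC A B from h]
  exact h'

lemma hasCM (h : CQ A B) {b : Ideal (OO A B)} {L : PeriodPair} {om : ℂ} (hL : IsLI b L om) :
    HasCM A B L := by
  intro x z hz
  obtain ⟨y, hy, rfl⟩ := (hL.mem z).1 hz
  refine (hL.mem _).2 ⟨x * y, b.mul_mem_left x hy, ?_⟩
  rw [Pool.Agent.MUX.emb_mul h]
  ring

/-- the identity acts as the unit ideal -/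
lemma act_refl (h : CQ A B) (m : Ideal (OO A B)) {b : Ideal (OO A B)} {L : PeriodPair} {om : ℂ}
    (hL : IsNL b L om) : ActI (RingEquiv.refl ℂ) m (1 : Ideal (OO A B)) L L 1 := by
  have hcm : HasCM A B L := hasCM h hL.toIsLI
  refine ⟨rfl, isCoprime_one_left, ⟨one_ne_zero, fun z => ?_⟩, fun z _ => ?_⟩
  · rw [one_mul]
    constructor
    · intro hz x _
      exact hcm x z hz
    · intro h'
      have h1 := h' 1 (by rw [Ideal.one_eq_top]; exact Submodule.mem_top)
      rwa [Pool.Agent.MUX.emb_one h, one_mul] at h1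
  · rw [one_mul]
    by_cases hz : z ∈ L.lattice
    · exact Or.inl ⟨hz, hz⟩
    · exact Or.inr ⟨hz, hz, rfl, rfl⟩

lemma int_wC (h : CQ A B) : IsIntegral ℚ (wC A B) := by
  refine ⟨X ^ 2 - C (B : ℚ) * X - C (A : ℚ), ?_, ?_⟩
  · monicity!
  · simp only [eval₂_sub, eval₂_pow, eval₂_X, eval₂_mul, eval₂_C]
    simp only [eq_ratCast, Rat.cast_intCast]
    rw [sq, Pool.Agent.MUX.wC_sq h]
    ring

/-- extension of an automorphism of `RF m` -/
lemma extend (hAUE : Su_AUE) (h : CQ A B) (F : IntermediateField (kk A B) ℂ)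
    [FiniteDimensional (kk A B) F] (φ : F ≃ₐ[kk A B] F) :
    ∃ s : ℂ ≃+* ℂ, FixK A B s ∧ ∀ x : F, s x = (φ x : ℂ) := by
  have hk : Algebra.IsAlgebraic ℚ (kk A B) := by
    refine IntermediateField.isAlgebraic_adjoin ?_
    intro x hx
    rw [Set.mem_singleton_iff] at hx
    rw [hx]
    exact int_wC h
  let F' : IntermediateField ℚ ℂ := IntermediateField.restrictScalars ℚ F
  have hF : Algebra.IsAlgebraic (kk A B) F := inferInstance
  have hF' : Algebra.IsAlgebraic ℚ F' := by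
    have : Algebra.IsAlgebraic ℚ F := Algebra.IsAlgebraic.trans ℚ (kk A B) F
    exact this
  let τ : F' →+* ℂ := (algebraMap F ℂ).comp (φ : F →+* F)
  obtain ⟨s, hs⟩ := hAUE F' hF' τ
  refine ⟨s, ?_, fun x => hs x⟩
  have hw : wC A B ∈ kk A B := Pool.Agent.MU3A.wC_mem A B
  have h1 := hs ⟨wC A B, F.algebraMap_mem ⟨wC A B, hw⟩⟩
  have h2 : φ (algebraMap (kk A B) F ⟨wC A B, hw⟩) = algebraMap (kk A B) F ⟨wC A B, hw⟩ :=
    φ.commutes _
  change s (wC A B) = ((φ (algebraMap (kk A B) F ⟨wC A B, hw⟩) : F) : ℂ) at h1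
  rw [h2] at h1
  exact h1

end SUR

open _root_.Pool.Agent.MUXC.SUR in
theorem tc_SUR (hFRO : Sc_FRO) (hREP : Sc_REP) (hFEX : Sc_FEX) (hFGL : Sc_FGL) (hCMP : Sc_CMP)
    (hCHG : Sc_CHG) (hAUE : Su_AUE) : Sc_SUR := by
  intro A B hC m hm a ha ham
  obtain ⟨n₀, hn₀, hfro⟩ := hFRO A B hC
  obtain ⟨hfin, hgal, _⟩ := hFGL A B hC m hm
  obtain ⟨ls, x, y, hls, hx, hy, hx0, hy0, hxy, hprod⟩ := hREP A B hC m a n₀ hm hn₀ ha ham
  -- one prime
  have hone : ∀ Q : Ideal (OO A B), (Q.IsPrime ∧ ∃ q : ℕ, q.Prime ∧ nI Q = q ∧ ¬ q ∣ n₀ ∧ ¬ q ∣ nI m) →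
      ∃ s : ℂ ≃+* ℂ, FixK A B s ∧ ∀ (b : Ideal (OO A B)) (L : PeriodPair) (om : ℂ),
        IsNL b L om → ∃ (b' : Ideal (OO A B)) (L' : PeriodPair) (om' mu : ℂ), IsNL b' L' om' ∧
          ActI s m Q L L' mu := by
    rintro Q ⟨hQ, q, hq, hnq, hq1, hq2⟩
    obtain ⟨V, φ, hV, hφ⟩ := hFEX A B hC (RF m) Q q hq hQ hnq
    obtain ⟨s, hs, hsφ⟩ := extend hAUE hC (RF m) φ
    refine ⟨s, hs, hfro m hm Q q hq hnq hq1 hq2 V hV s hs fun z hz hzV => ?_⟩
    have h1 := hφ ⟨z, hz⟩ hzV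
    have h2 := hsφ ⟨z, hz⟩
    change s z = _ at h2
    rw [h2]
    exact h1
  -- products
  have hmany : ∀ l : List (Ideal (OO A B)), (∀ Q ∈ l, Q.IsPrime ∧ ∃ q : ℕ, q.Prime ∧
      nI Q = q ∧ ¬ q ∣ n₀ ∧ ¬ q ∣ nI m) → ∃ s : ℂ ≃+* ℂ, FixK A B s ∧
      ∀ (b : Ideal (OO A B)) (L : PeriodPair) (om : ℂ), IsNL b L om →
        ∃ (b' : Ideal (OO A B)) (L' : PeriodPair) (om' mu : ℂ), IsNL b' L' om' ∧
          ActI s m l.prod L L' mu := by
    intro l
    induction l with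
    | nil =>
      intro _
      refine ⟨RingEquiv.refl ℂ, fix_refl, fun b L om hL => ⟨b, L, om, 1, hL, ?_⟩⟩
      rw [List.prod_nil]
      exact act_refl hC m hL
    | cons Q l ih =>
      intro hl
      obtain ⟨s, hs, hs'⟩ := hone Q (hl Q List.mem_cons_self)
      obtain ⟨t, ht, ht'⟩ := ih fun Q' hQ' => hl Q' (List.mem_cons_of_mem _ hQ')
      refine ⟨s.trans t, fix_trans hs ht, fun b L om hL => ?_⟩
      obtain ⟨b₁, L₁, om₁, mu₁, hL₁, h1⟩ := hs' b L om hL
      obtain ⟨b₂, L₂, om₂, mu₂, hL₂, h2⟩ := ht' b₁ L₁ om₁ hL₁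
      refine ⟨b₂, L₂, om₂, mu₂ * mu₁, hL₂, ?_⟩
      rw [List.prod_cons]
      exact hCMP A B hC m Q l.prod s t L L₁ L₂ mu₁ mu₂ h1 h2
  obtain ⟨s, hs, hs'⟩ := hmany ls hls
  refine ⟨s, hs, fun b L om hL => ?_⟩
  obtain ⟨b', L', om', mu, hL', h1⟩ := hs' b L om hL
  exact ⟨b', L', om', mu * emb x / emb y, hL',
    hCHG A B hC m ls.prod a s L L' mu x y hm ham hx hx0 hy0 hxy hprod ⟨b, om, hL⟩ h1⟩

end

end Pool.Agent.MUXC


end

section

/-!
# The ambiguous classes (abstract counting)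
-/

open NumberField Finset IsDedekindDomain
open scoped nonZeroDivisors Pointwise

namespace Pool.Agent.RID

open _root_.Pool.Agent.RI

namespace ABS1

lemma rel_dvd_right {X : Type} [CommGroup X] {H K L : Subgroup X} (hHL : H ≤ L) (hKL : K ≤ L) :
    H.relIndex K ∣ H.relIndex L := by
  have h1 : H.relIndex (H ⊔ K) = H.relIndex K := Subgroup.relIndex_sup_left K H
  rw [← h1, ← Subgroup.relIndex_mul_relIndex H (H ⊔ K) L le_sup_left (sup_le hHL hKL)]
  exact Dvd.intro _ rfl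

lemma _root_.Pool.Agent.RID.ABS1.map_dvd {X Y : Type} [CommGroup X] [CommGroup Y] (f : X →* Y) (H K : Subgroup X) :
    (H.map f).relIndex (K.map f) ∣ H.relIndex K := by
  rw [← Subgroup.relIndex_comap]
  exact Subgroup.relIndex_dvd_of_le_left K (Subgroup.le_comap_map f H)

lemma padic_zero (p : ℕ) [hp : Fact p.Prime] {X : Type} [CommGroup X] {H K : Subgroup X} {n : ℕ}
    (hn : n.Coprime p) (h : ∀ x ∈ K, x ^ n ∈ H) : padicValNat p (H.relIndex K) = 0 := by
  by_cases h0 : H.relIndex K = 0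
  · rw [h0, padicValNat.zero]
  · refine padicValNat.eq_zero_of_not_dvd fun hd => ?_
    have hcard : Nat.card (K ⧸ H.subgroupOf K) = H.relIndex K := rfl
    have hfin : Finite (K ⧸ H.subgroupOf K) := Nat.finite_of_card_ne_zero (by rw [hcard]; exact h0)
    rw [← hcard] at hd
    obtain ⟨x, hx⟩ := exists_prime_orderOf_dvd_card' p hd
    have hx1 : x ^ n = 1 := by
      induction x using QuotientGroup.induction_on with
      | H y =>
        rw [← QuotientGroup.mk_pow, QuotientGroup.eq_one_iff, Subgroup.mem_subgroupOf]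
        exact h _ y.2
    have h1 : p ∣ n := by
      rw [← hx]
      exact orderOf_dvd_of_pow_eq_one hx1
    have h2 : p ∣ 1 := by
      rw [← hn]
      exact Nat.dvd_gcd h1 dvd_rfl
    exact hp.out.one_lt.ne' (Nat.dvd_one.1 h2)

lemma padic_mono (p : ℕ) [Fact p.Prime] {a b : ℕ} (hb : b ≠ 0) (h : a ∣ b) :
    padicValNat p a ≤ padicValNat p b :=
  (padicValNat_dvd_iff_le hb).1 (pow_padicValNat_dvd.trans h)

section tel

variable {G X : Type} [Group G] [CommGroup X] [MulDistribMulAction G X]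

lemma ng_dg (g : G) (q : ℕ) (hg : g ^ q = 1) (x : X) : ng g q (dg g x) = 1 := by
  rw [ng_apply]
  have h : ∀ n : ℕ, ∏ i ∈ range n, g ^ i • dg g x = x / g ^ n • x := by
    intro n
    induction n with
    | zero => simp
    | succ n ih =>
      rw [prod_range_succ, ih, dg_apply, smul_div', ← mul_smul, ← pow_succ,
        div_mul_div_cancel]
  rw [h, hg, one_smul, div_self']

lemma smul_ng (g : G) (q : ℕ) (hg : g ^ q = 1) (x : X) : g • ng g q x = ng g q x := by
  rw [ng_apply]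
  have h : ∀ n : ℕ, (g • ∏ i ∈ range n, g ^ i • x) * x = (∏ i ∈ range n, g ^ i • x) * g ^ n • x := by
    intro n
    induction n with
    | zero => simp
    | succ n ih =>
      rw [prod_range_succ, smul_mul', mul_right_comm, ih, ← mul_smul, ← pow_succ']
  have h1 := h q
  rw [hg, one_smul] at h1
  exact mul_right_cancel h1

lemma ng_comm {Y : Type} [CommGroup Y] [MulDistribMulAction G Y] (f : X →* Y) (g : G) (q : ℕ)
    (hf : ∀ x, f (g • x) = g • f x) (x : X) : f (ng g q x) = ng g q (f x) := by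
  have hf' : ∀ (i : ℕ) (x : X), f (g ^ i • x) = g ^ i • f x := by
    intro i
    induction i with
    | zero => intro x; simp
    | succ i ih =>
      intro x
      rw [pow_succ, mul_smul, ih, hf, ← mul_smul]
  rw [ng_apply, ng_apply, map_prod]
  exact prod_congr rfl fun i _ => hf' i x

end tel

end ABS1

open _root_.Pool.Agent.RID.ABS1

theorem t_ABS1 : S_ABS1 := by
  intro p q hp A I A' I' G κ _ _ _ _ _ _ _ l k νA νI νA' νI' dv dv' ι ε g had h0
  obtain ⟨cop, qA, qI, gq, dvg, gA, gI, dvν, sq, εν, ιν, εinj, gε, gι, h90, fixA, inv, fin, fin'⟩ :=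
    had
  set E := dv.ker ⊓ part l νA with hE
  set N₀ := E.map (ng g q : A →* A) with hN₀
  set B₀ := E ⊓ (dg g : A →* A).ker with hB₀
  set P := dv.range with hP
  set P' := dv'.range with hP'
  set X' := partM l νI' P' with hX'
  set Up := partM l νI P ⊓ P.comap (dg g : I →* I) with hUp
  set U := X'.map ε ⊔ P with hU
  set w := wt l k with hw
  have hwp : w.Coprime p := wt_coprime l k cop
  have hdgA : ∀ i ∈ l, ∀ x, (dg g : A →* A) (νA i x) = νA i (dg g x) := by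
    intro i hi x
    rw [dg_apply, dg_apply, map_div, gA i hi]
  have hdgI : ∀ i ∈ l, ∀ x, (dg g : I →* I) (νI i x) = νI i (dg g x) := by
    intro i hi x
    rw [dg_apply, dg_apply, map_div, gI i hi]
  have hdv_dg : ∀ x, dv (dg g x) = dg g (dv x) := by
    intro x
    rw [dg_apply, dg_apply, map_div, dvg]
  have hngA : ∀ i ∈ l, ∀ x, νA i (ng g q x) = ng g q (νA i x) := fun i hi x =>
    ng_comm (νA i) g q (fun y => (gA i hi y).symm) x
  have hngd : ∀ x, dv (ng g q x) = ng g q (dv x) := fun x => ng_comm dv g q dvg x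
  have hstP : ∀ i ∈ l, ∀ x ∈ P, νI i x ∈ P := by
    rintro i hi _ ⟨a, rfl⟩
    rw [← dvν i hi]
    exact ⟨_, rfl⟩
  -- elements of `B₀`
  have hB : ∀ z ∈ part l νA, dv (ng g q z) = 1 → (ng g q : A →* A) z ∈ B₀ := by
    intro z hz hz1
    refine ⟨⟨hz1, mem_part.2 fun i hi => ?_⟩, ?_⟩
    · rw [hngA i hi, mem_part.1 hz i hi, map_one]
    · exact (mem_dg_ker g _).2 (smul_ng g q gq z)
  have hNB : N₀ ≤ B₀ := by
    rintro _ ⟨u, hu, rfl⟩
    refine hB u hu.2 ?_
    have h1 : dv u = 1 := hu.1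
    rw [hngd, h1, map_one]
  -- the correspondence
  let Γ : Subgroup (I × A) :=
    { carrier := {z | z.1 ∈ Up ∧ (dg g : I →* I) z.1 = dv z.2}
      mul_mem' := by
        rintro ⟨a, b⟩ ⟨c, d⟩ ⟨h1, h2⟩ ⟨h1', h2'⟩
        refine ⟨mul_mem h1 h1', ?_⟩
        change (dg g : I →* I) (a * c) = dv (b * d)
        rw [map_mul, map_mul]
        exact congrArg₂ (· * ·) h2 h2'
      one_mem' := ⟨one_mem _, by simp⟩
      inv_mem' := by
        rintro ⟨a, b⟩ ⟨h1, h2⟩
        refine ⟨inv_mem h1, ?_⟩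
        change (dg g : I →* I) (a⁻¹) = dv (b⁻¹)
        rw [map_inv, map_inv]
        exact congrArg _ h2 }
  have hΓ : ∀ a b, (a, b) ∈ Γ ↔ a ∈ Up ∧ (dg g : I →* I) a = dv b := fun a b => Iff.rfl
  let φ : A →* A := (ng g q : A →* A).comp (pr l k νA)
  have hφ : ∀ x, φ x = ng g q (pr l k νA x) := fun x => rfl
  have hyz : ∀ b x, (b, x) ∈ Γ → (dg g : I →* I) (pr l k νI b) = dv (pr l k νA x) := by
    intro b x h
    rw [comm_pr l k νI (dg g) hdgI, ((hΓ b x).1 h).2, pr_map l k νA νI dv dvν]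
  have hφB : ∀ b x, (b, x) ∈ Γ → φ x ∈ B₀ := by
    intro b x h
    rw [hφ]
    refine hB _ (pr_mem l k νA qA x) ?_
    rw [hngd, ← hyz b x h]
    exact ng_dg g q gq _
  have hΓ1 : Γ.map (MonoidHom.fst I A) = Up := by
    apply le_antisymm
    · rintro _ ⟨⟨a, b⟩, h, rfl⟩
      exact h.1
    · intro b hb
      obtain ⟨x, hx⟩ := hb.2
      exact ⟨(b, x), (hΓ b x).2 ⟨hb, hx.symm⟩, rfl⟩
  let ψ : I × A →* A := φ.comp (MonoidHom.snd I A)
  have hΓ2 : Γ.map ψ ≤ B₀ := by
    rintro _ ⟨⟨a, b⟩, h, rfl⟩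
    exact hφB a b h
  set Γ₀ := N₀.comap ψ ⊓ Γ with hΓ₀
  have hr : Γ₀.relIndex Γ = N₀.relIndex (Γ.map ψ) := by
    rw [hΓ₀, Subgroup.inf_relIndex_right, Subgroup.relIndex_comap]
  set U₀ := Γ₀.map (MonoidHom.fst I A) with hU₀
  have hU₀p : U₀ ≤ Up := by
    rw [← hΓ1]
    exact Subgroup.map_mono inf_le_right
  have hd1 : U₀.relIndex Up ∣ N₀.relIndex B₀ := by
    have h1 : U₀.relIndex Up ∣ Γ₀.relIndex Γ := by
      rw [← hΓ1]
      exact _root_.Pool.Agent.RID.ABS1.map_dvd _ _ _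
    rw [hr] at h1
    exact h1.trans (rel_dvd_right hNB hΓ2)
  have hPU₀ : P ≤ U₀ := by
    rintro _ ⟨a, rfl⟩
    refine ⟨(dv a, dg g a), ⟨?_, (hΓ _ _).2 ⟨⟨?_, ?_⟩, (hdv_dg a).symm⟩⟩, rfl⟩
    · change φ (dg g a) ∈ N₀
      rw [hφ, ← comm_pr l k νA (dg g) hdgA, ng_dg g q gq]
      exact one_mem _
    · exact mem_partM.2 fun i hi => hstP i hi _ ⟨a, rfl⟩
    · exact ⟨dg g a, hdv_dg a⟩
  have hXU₀ : X'.map ε ≤ U₀ := by
    rintro _ ⟨c, hc, rfl⟩
    have h1 : (dg g : I →* I) (ε c) = 1 := by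
      rw [dg_apply, gε, div_self']
    refine ⟨(ε c, 1), ⟨?_, (hΓ _ _).2 ⟨⟨?_, ?_⟩, ?_⟩⟩, rfl⟩
    · change φ 1 ∈ N₀
      rw [map_one]
      exact one_mem _
    · refine mem_partM.2 fun i hi => ?_
      rw [← εν i hi]
      obtain ⟨a, ha⟩ := mem_partM.1 hc i hi
      rw [← ha, sq]
      exact ⟨_, rfl⟩
    · change (dg g : I →* I) (ε c) ∈ P
      rw [h1]
      exact one_mem _
    · rw [h1, map_one]
  have hUU₀ : U ≤ U₀ := sup_le hXU₀ hPU₀
  have hkill : ∀ b ∈ U₀, b ^ (w * w) ∈ U := by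
    rintro _ ⟨⟨b, x⟩, ⟨h1, h2⟩, rfl⟩
    change b ^ (w * w) ∈ U
    have hb := ((hΓ b x).1 h2).1
    obtain ⟨u, hu, huz⟩ := h1
    have huz' : ng g q u = ng g q (pr l k νA x) := huz
    have hz := pr_mem l k νA qA x
    have hu1 : dv u = 1 := hu.1
    have h3 : ng g q (pr l k νA x / u) = 1 := by
      rw [map_div, huz', div_self']
    obtain ⟨v, hv⟩ := h90 _ h3
    have hv' : pr l k νA x / u = dg g v := hv
    have h4 : (pr l k νA x / u) ^ w = dg g (pr l k νA v) := by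
      rw [hw, ← pr_part l k νA (div_mem hz hu.2), comm_pr l k νA (dg g) hdgA, ← hv']
    have hy₁ := pr_mem l k νA qA v
    have hy := pr_mem l k νI qI b
    have h5 : (dg g : I →* I) (pr l k νI b ^ w / dv (pr l k νA v)) = 1 := by
      rw [map_div, ← hdv_dg, ← h4, map_pow, hyz b x h2, map_pow, map_div, hu1, div_one, div_self']
    have hpart : pr l k νI b ^ w / dv (pr l k νA v) ∈ part l νI := by
      refine div_mem (pow_mem hy w) (mem_part.2 fun i hi => ?_)
      rw [← dvν i hi, mem_part.1 hy₁ i hi, map_one]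
    obtain ⟨c, hc⟩ := inv _ hpart ((mem_dg_ker g _).1 h5)
    have hcX : c ∈ X' := by
      refine mem_partM.2 fun i hi => ?_
      have h6 : νI' i c = 1 := by
        apply εinj
        rw [εν i hi, hc, mem_part.1 hpart i hi, map_one]
      rw [h6]
      exact one_mem _
    have h7 : pr l k νI b ^ w ∈ U := by
      have e : pr l k νI b ^ w = ε c * dv (pr l k νA v) := by
        rw [hc, div_mul_cancel]
      rw [e]
      exact mul_mem (le_sup_left (a := X'.map ε) (b := P) ⟨c, hcX, rfl⟩)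
        (le_sup_right (a := X'.map ε) (b := P) ⟨_, rfl⟩)
    have h8 : (pr l k νI b / b ^ w) ^ w ∈ U :=
      (le_sup_right : P ≤ X'.map ε ⊔ P) (pow_mem (pr_partM l k νI P hstP hb.1) w)
    have e : b ^ (w * w) = pr l k νI b ^ w / (pr l k νI b / b ^ w) ^ w := by
      rw [div_pow, div_div_cancel, pow_mul]
    rw [e]
    exact div_mem h7 h8
  have hv0 : padicValNat p (U.relIndex U₀) = 0 :=
    padic_zero p (n := w * w) (Nat.Coprime.mul_left hwp hwp) hkill
  -- indices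
  have hn1 : P.relIndex Up ≠ 0 := by
    have h1 : P.index ≠ 0 := by
      have : Finite (I ⧸ P) := fin
      exact Subgroup.index_ne_zero_of_finite
    exact fun h => h1 (by
      have := Subgroup.relIndex_dvd_index_of_normal P Up
      rw [h] at this
      exact Nat.eq_zero_of_zero_dvd this)
  have hPU : P ≤ U := le_sup_right
  have hm1 := Subgroup.relIndex_mul_relIndex P U Up hPU (hUU₀.trans hU₀p)
  have hm2 := Subgroup.relIndex_mul_relIndex U U₀ Up hUU₀ hU₀p
  have hn2 : P.relIndex U ≠ 0 := fun h => hn1 (by rw [← hm1, h, zero_mul])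
  have hn3 : U.relIndex Up ≠ 0 := fun h => hn1 (by rw [← hm1, h, mul_zero])
  have hn4 : U.relIndex U₀ ≠ 0 := fun h => hn3 (by rw [← hm2, h, zero_mul])
  have hn5 : U₀.relIndex Up ≠ 0 := fun h => hn3 (by rw [← hm2, h, mul_zero])
  rw [← hm1, padicValNat.mul hn2 hn3, ← hm2, padicValNat.mul hn4 hn5, hv0, zero_add, add_comm]
  exact Nat.add_le_add_right (padic_mono p h0 hd1) _

end Pool.Agent.RID


end

section

/-!
# MU3N_AMBA: ambiguous classes, abstract form
-/

open NumberField Finset IsDedekindDomain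
open scoped nonZeroDivisors Pointwise

namespace MU3

open _root_.Pool.Agent.RI _root_.Pool.Agent.RID

namespace Amba

open _root_.Pool.Agent.RID.ABS1

variable {A I G : Type} [CommGroup A] [CommGroup I] [Group G]
  [MulDistribMulAction G A] [MulDistribMulAction G I]

/-- the pairs `(b, x)` with `b / g b = dv x` -/
def Gam (dv : A →* I) (g : G) : Subgroup (I × A) where
  carrier := {z | (dg g : I →* I) z.1 = dv z.2}
  mul_mem' := by
    rintro ⟨a, b⟩ ⟨c, d⟩ h h'
    change (dg g : I →* I) (a * c) = dv (b * d)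
    rw [map_mul, map_mul]
    exact congrArg₂ (· * ·) h h'
  one_mem' := by simp
  inv_mem' := by
    rintro ⟨a, b⟩ h
    change (dg g : I →* I) (a⁻¹) = dv (b⁻¹)
    rw [map_inv, map_inv]
    exact congrArg _ h

theorem mem_Gam (dv : A →* I) (g : G) (a : I) (b : A) :
    (a, b) ∈ Gam dv g ↔ (dg g : I →* I) a = dv b := Iff.rfl

end Amba

open _root_.MU3.Amba _root_.Pool.Agent.RID.ABS1

theorem n_AMBA : N_AMBA := by
  intro q A I G _ _ _ _ _ dv g hg hdv h90
  have hngd : ∀ x, dv (ng g q x) = ng g q (dv x) := fun x => ng_comm dv g q hdv x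
  have hdvdg : ∀ x, dv (dg g x) = dg g (dv x) := by
    intro x
    rw [dg_apply, dg_apply, map_div, hdv]
  -- elements of `B₀`
  have hB : ∀ z : A, dv (ng g q z) = 1 →
      (ng g q : A →* A) z ∈ dv.ker ⊓ (dg g : A →* A).ker := by
    intro z hz1
    exact ⟨hz1, (mem_dg_ker g _).2 (smul_ng g q hg z)⟩
  have hNB : dv.ker.map (ng g q : A →* A) ≤ dv.ker ⊓ (dg g : A →* A).ker := by
    rintro _ ⟨u, hu, rfl⟩
    refine hB u ?_
    have h1 : dv u = 1 := hu
    rw [hngd, h1, map_one]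
  let ψ : I × A →* A := (ng g q : A →* A).comp (MonoidHom.snd I A)
  have hΓ1 : (Gam dv g).map (MonoidHom.fst I A) = dv.range.comap (dg g : I →* I) := by
    apply le_antisymm
    · rintro _ ⟨⟨a, b⟩, h, rfl⟩
      exact ⟨b, ((mem_Gam dv g a b).1 h).symm⟩
    · rintro b ⟨x, hx⟩
      exact ⟨(b, x), (mem_Gam dv g b x).2 hx.symm, rfl⟩
  have hΓ2 : (Gam dv g).map ψ ≤ dv.ker ⊓ (dg g : A →* A).ker := by
    rintro _ ⟨⟨a, b⟩, h, rfl⟩
    refine hB b ?_
    rw [hngd, ← (mem_Gam dv g a b).1 h]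
    exact ng_dg g q hg a
  have hr : ((dv.ker.map (ng g q : A →* A)).comap ψ ⊓ Gam dv g).relIndex (Gam dv g) =
      (dv.ker.map (ng g q : A →* A)).relIndex ((Gam dv g).map ψ) := by
    rw [Subgroup.inf_relIndex_right, Subgroup.relIndex_comap]
  have hd1 : (((dv.ker.map (ng g q : A →* A)).comap ψ ⊓ Gam dv g).map
      (MonoidHom.fst I A)).relIndex (dv.range.comap (dg g : I →* I)) ∣
      (dv.ker.map (ng g q : A →* A)).relIndex (dv.ker ⊓ (dg g : A →* A).ker) := by
    have h1 := _root_.Pool.Agent.RID.ABS1.map_dvd (MonoidHom.fst I A)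
      ((dv.ker.map (ng g q : A →* A)).comap ψ ⊓ Gam dv g) (Gam dv g)
    rw [hΓ1, hr] at h1
    exact h1.trans (rel_dvd_right hNB hΓ2)
  refine dvd_trans (Subgroup.relIndex_dvd_of_le_left _ ?_) hd1
  rintro _ ⟨⟨b, x⟩, ⟨h1, h2⟩, rfl⟩
  obtain ⟨u, hu, huz⟩ := h1
  have huz' : ng g q u = ng g q x := huz
  have hu1 : dv u = 1 := hu
  have hb : (dg g : I →* I) b = dv x := (mem_Gam dv g b x).1 h2
  have h3 : ng g q (x / u) = 1 := by
    rw [map_div, huz', div_self']
  obtain ⟨y, hy⟩ := h90 _ h3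
  have hy' : x / u = dg g y := hy
  have h5 : (dg g : I →* I) (b / dv y) = 1 := by
    rw [map_div, ← hdvdg, ← hy', hb, map_div, hu1, div_one, div_self']
  change b ∈ dv.range ⊔ (dg g : I →* I).ker
  have e : b = dv y * (b / dv y) := by
    rw [mul_div_cancel]
  rw [e]
  exact mul_mem (le_sup_left (a := dv.range) (b := (dg g : I →* I).ker) ⟨y, rfl⟩)
    (le_sup_right (a := dv.range) (b := (dg g : I →* I).ker) h5)

end MU3


end

section

/-!
RK2: numbers of orbits.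
-/

set_option autoImplicit false

open Finset

namespace Pool.Agent.RID

namespace RK2

/-- Burnside for `H ⊔ ⟨c⟩`. -/
theorem count {G X : Type} [Group G] [Finite G] [Finite X] [MulAction G X] (c : G)
    (H : Subgroup G) (hcop : (Nat.card H).Coprime (orderOf c)) (hcom : ∀ h ∈ H, h * c = c * h)
    (hfree : ∀ (x : X) (j : ℕ), c ^ j • x = x → c ^ j = 1) :
    Nat.card (MulAction.orbitRel.Quotient ↥(H ⊔ Subgroup.zpowers c) X) *
      (Nat.card H * orderOf c) = ∑ᶠ h : H, Nat.card (MulAction.fixedBy X (h : G)) := by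
  classical
  have hcm : ∀ (h : H) (z : Subgroup.zpowers c), Commute (H.subtype h)
      ((Subgroup.zpowers c).subtype z) := by
    rintro ⟨h, hh⟩ ⟨z, hz⟩
    obtain ⟨k, rfl⟩ := Subgroup.mem_zpowers_iff.1 hz
    exact (show Commute h c from hcom h hh).zpow_right k
  let φ : H × Subgroup.zpowers c →* G :=
    MonoidHom.noncommCoprod H.subtype (Subgroup.zpowers c).subtype hcm
  have hφ : ∀ h z, φ (h, z) = (h : G) * (z : G) := fun h z => rfl
  have hdis : Disjoint H (Subgroup.zpowers c) := by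
    rw [disjoint_iff]
    apply Subgroup.inf_eq_bot_of_coprime
    rw [Nat.card_zpowers]
    exact hcop
  have hinj : Function.Injective φ := by
    rw [MonoidHom.noncommCoprod_injective]
    refine ⟨H.subtype_injective, Subgroup.subtype_injective _, ?_⟩
    rw [Subgroup.range_subtype, Subgroup.range_subtype]
    exact hdis
  have hrange : φ.range = H ⊔ Subgroup.zpowers c := by
    rw [MonoidHom.noncommCoprod_range, Subgroup.range_subtype, Subgroup.range_subtype]
  rw [← hrange]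
  letI : Fintype G := Fintype.ofFinite G
  letI : Fintype X := Fintype.ofFinite X
  letI : Fintype H := Fintype.ofFinite H
  letI : Fintype (Subgroup.zpowers c) := Fintype.ofFinite _
  letI : Fintype φ.range := Fintype.ofFinite _
  letI : Fintype (MulAction.orbitRel.Quotient φ.range X) := Fintype.ofFinite _
  letI : ∀ g : φ.range, Fintype (MulAction.fixedBy X g) := fun g => Fintype.ofFinite _
  letI : ∀ g : G, Fintype (MulAction.fixedBy X g) := fun g => Fintype.ofFinite _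
  have hB := MulAction.sum_card_fixedBy_eq_card_orbits_mul_card_group φ.range X
  let e : H × Subgroup.zpowers c ≃ φ.range := (MonoidHom.ofInjective hinj).toEquiv
  have he : ∀ h z, ((e (h, z) : φ.range) : G) = (h : G) * (z : G) := fun h z => rfl
  have hcard : Fintype.card φ.range = Nat.card H * orderOf c := by
    rw [← Fintype.card_congr e, Fintype.card_prod, ← Nat.card_eq_fintype_card,
      ← Nat.card_eq_fintype_card, Nat.card_zpowers]
  rw [hcard, ← Nat.card_eq_fintype_card] at hB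
  rw [← hB, finsum_eq_sum_of_fintype, ← Equiv.sum_comp e, Fintype.sum_prod_type]
  refine Finset.sum_congr rfl fun h _ => ?_
  rw [Finset.sum_eq_single (1 : Subgroup.zpowers c)]
  · rw [← Nat.card_eq_fintype_card]
    refine Nat.card_congr (Equiv.subtypeEquivRight fun x => ?_)
    rw [MulAction.mem_fixedBy, MulAction.mem_fixedBy, Subgroup.smul_def, he, OneMemClass.coe_one,
      mul_one]
  · intro z _ hz
    rw [Fintype.card_eq_zero_iff]
    refine ⟨fun x => hz ?_⟩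
    obtain ⟨x, hx⟩ := x
    rw [MulAction.mem_fixedBy, Subgroup.smul_def, he] at hx
    obtain ⟨z, hz'⟩ := z
    have hz2 : z ∈ Submonoid.powers c :=
      (mem_powers_iff_mem_zpowers).2 hz'
    obtain ⟨j, hj⟩ := (Submonoid.mem_powers_iff z c).1 hz2
    subst hj
    have hcomm : Commute (h : G) (c ^ j) :=
      (show Commute (h : G) c from hcom h h.2).pow_right j
    have h1 : ∀ m : ℕ, ((h : G) * c ^ j) ^ m • x = x := by
      intro m
      induction m with
      | zero => simp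
      | succ m ih => rw [pow_succ, mul_smul, hx, ih]
    have h2 := h1 (Nat.card H)
    have h3 : (h : G) ^ Nat.card H = 1 := by
      have := pow_card_eq_one' (G := H) (x := h)
      rw [← Subgroup.coe_pow, this, Subgroup.coe_one]
    rw [hcomm.mul_pow, h3, one_mul, ← pow_mul] at h2
    have h4 := hfree x _ h2
    have h5 : orderOf c ∣ j * Nat.card H := orderOf_dvd_of_pow_eq_one h4
    have h6 : orderOf c ∣ j := (hcop.symm).dvd_of_dvd_mul_right h5
    apply Subtype.ext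
    exact orderOf_dvd_iff_pow_eq_one.1 h6
  · intro h1
    exact absurd (Finset.mem_univ _) h1

end RK2

theorem t_RK2 : S_RK2 := by
  intro p a _ G X _ _ _ _ g H hg hH hcom hfree i hi
  have hp : p.Prime := Fact.out
  have ho : orderOf (g ^ p ^ i) = p ^ (a - i) := by
    rw [orderOf_pow, hg, Nat.gcd_eq_right (pow_dvd_pow p hi), Nat.pow_div hi hp.pos]
  have h0 := RK2.count (X := X) g H (by
    rw [hg]
    exact hH.pow_right a) hcom hfree
  have h1 := RK2.count (X := X) (g ^ p ^ i) H (by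
    rw [ho]
    exact hH.pow_right _) (fun h hh => (show Commute h g from hcom h hh).pow_right _) (by
    intro x j hj
    rw [← pow_mul] at hj ⊢
    exact hfree x _ hj)
  rw [← h0, ho, hg] at h1
  have hHpos : 0 < Nat.card H := Nat.card_pos
  have h2 : p ^ a = p ^ i * p ^ (a - i) := by
    rw [← pow_add]
    congr 1
    omega
  rw [h2] at h1
  have h3 : 0 < Nat.card H * p ^ (a - i) := Nat.mul_pos hHpos (pow_pos hp.pos _)
  apply Nat.eq_of_mul_eq_mul_right h3
  rw [h1]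
  ring

end Pool.Agent.RID


end

section

/-!
# MUX, block HY, module ROU: the values of an ideal character are roots of unity
-/

set_option autoImplicit false

namespace Pool.Agent.MUXHY

open _root_.MU3 _root_.Pool.Agent.MU3A _root_.Pool.Agent.MU3B _root_.Pool.Agent.MU3F _root_.Pool.Agent.MUX _root_.Pool.Agent.MUXH
  _root_.Pool.Agent.MuSym OnePoint
open scoped ComplexConjugate

noncomputable section

namespace Rou

/-- a power law -/
theorem pow_e {A B : ℤ} {e : OO A B → ℂ} (h1 : e 1 = 1) (hm : ∀ x y, e (x * y) = e x * e y)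
    (x : OO A B) (n : ℕ) : e (x ^ n) = e x ^ n := by
  induction n with
  | zero => simp [h1]
  | succ n ih => rw [pow_succ, pow_succ, hm, ih]

/-- a nonzero complex number whose powers lie in a finite set `S` is a root of unity of order
dividing `(card S)!` -/
theorem pow_fact {S : Finset ℂ} {z : ℂ} (hz : z ≠ 0) (h : ∀ n : ℕ, z ^ n ∈ S) :
    z ^ (S.card).factorial = 1 := by
  classical
  obtain ⟨i, hi, j, hj, hij, he⟩ := Finset.exists_ne_map_eq_of_card_lt_of_maps_to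
    (s := Finset.range (S.card + 1)) (t := S) (f := fun n => z ^ n)
    (by rw [Finset.card_range]; omega) (fun n _ => h n)
  have key : ∀ i j : ℕ, i < j → j < S.card + 1 → z ^ i = z ^ j →
      z ^ (S.card).factorial = 1 := by
    intro i j hij hj he
    have h1 : z ^ (j - i) = 1 := by
      have h2 : z ^ i * z ^ (j - i) = z ^ i * 1 := by
        rw [← pow_add, Nat.add_sub_cancel' hij.le, mul_one, he]
      exact mul_left_cancel₀ (pow_ne_zero _ hz) h2
    obtain ⟨c, hc⟩ := Nat.dvd_factorial (show 0 < j - i by omega) (show j - i ≤ S.card by omega)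
    rw [hc, pow_mul, h1, one_pow]
  have hi' := Finset.mem_range.1 hi
  have hj' := Finset.mem_range.1 hj
  rcases lt_or_gt_of_ne hij with h3 | h3
  · exact key i j h3 hj' he
  · exact key j i h3 hi' he.symm

end Rou

theorem ty_ROU (h1 : MUXF.Sx_BDD) : Sy_ROU := by
  intro A B hQ g e hg he
  obtain ⟨hfin, -⟩ := h1 A B (toCQ hQ) g e hg (toEI he)
  refine ⟨(hfin.toFinset.card).factorial, Nat.factorial_ne_zero _, fun x hx => ?_⟩
  refine Rou.pow_fact hx fun n => ?_
  rw [Set.Finite.mem_toFinset]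
  exact ⟨x ^ n, Rou.pow_e he.one he.mul x n⟩

end

end Pool.Agent.MUXHY


end
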