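import Mathlib
import Pool.Agent.MVF.C046
import Pool.Agent.MVF.C076
import Pool.Agent.MVF.C084
import Pool.Agent.MVF.C085
import Pool.Agent.MVF.C087
import Pool.Agent.MVF.C088
import Pool.Agent.MVF.C089

/-! Parts: MUX.C_TRV, MUX.C_TRO, MUX.C_TOR, MUX.C_SGQ, MUX.C_RP1, MUX.C_QCR, MUX.C_PHM, MUX.C_NEX, MUX.C_FGL, MUX.C_CLF, MUX.C_CJN, MUX.C_ACT, MUX.XCAll -/

namespace Pool.Agent.MUXC.CJN
end Pool.Agent.MUXC.CJN
namespace Pool.Agent.MUXC.CLF
end Pool.Agent.MUXC.CLF
namespace Pool.Agent.MUXC.FGL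
end Pool.Agent.MUXC.FGL
namespace Pool.Agent.MUXC.NEX
end Pool.Agent.MUXC.NEX

section

/-!
# MUX, block XC, module TRV: the field `triv` of `TorX` (helper76)
-/

set_option autoImplicit false

open Polynomial NumberField IsDedekindDomain

namespace Pool.Agent.MUXC

open _root_.MU3 _root_.Pool.Agent.MU3A _root_.Pool.Agent.MU3B _root_.Pool.Agent.MUX _root_.Pool.Agent.MUXU _root_.Pool.Agent.RI
open _root_.Pool.Agent.MUXE (NL Sxe_RNG)

noncomputable section

namespace TRV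

/-- automorphisms of `ℂ` with `FixK` are trivial on `k` -/
lemma fix {A B : ℤ} {σ : ℂ ≃+* ℂ} (hσ : FixK A B σ) : ∀ y ∈ kk A B, σ y = y := by
  intro y hy
  induction hy using IntermediateField.adjoin_induction with
  | mem x hx => rw [Set.mem_singleton_iff] at hx; rw [hx]; exact hσ
  | algebraMap x => simp
  | add x y _ _ hx hy => rw [map_add, hx, hy]
  | inv x _ hx => rw [map_inv₀, hx]
  | mul x y _ _ hx hy => rw [map_mul, hx, hy]

end TRV

theorem tc_TRV (hCJN : Sc_CJN) (hSGQ : Sc_SGQ) (hQNE : Sc_QNE) (hENO : Sc_ENO) (hINV : Sc_INV)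
    (hGEN : Sc_GEN) (hIND : Sc_IND) : Sc_TRV := by
  intro A B h m a σ b L L' om mu hm hσ hL hact hnrm
  have hCM : HasCM A B L := hL.toIsLI.hasCM h
  obtain ⟨hane, hisg, -⟩ := hQNE A B h a L L' mu hCM hact.isq
  obtain ⟨cj1, -, cj3⟩ := hCJN A B h
  constructor
  · intro hfix
    have hkap : kap L' = kap L := by
      rw [hact.kap]
      exact hfix _ (IntermediateField.subset_adjoin _ _ ⟨b, L, om, hL, Or.inl rfl⟩)
    obtain ⟨hlat, hco⟩ := cj3 L L' hL.nrm hnrm hkap.symm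
    have hmu := hact.isq.1
    have hq : ∀ z : ℂ, mu * z ∈ L.lattice ↔ Tor a L z := fun z =>
      (hlat _).trans (hact.isq.2 z)
    obtain ⟨c, hc⟩ := hENO A B h b L om hL.toIsLI mu fun z hz => (hlat _).2 (hisg z hz)
    have hasp : a = sp c := by
      apply le_antisymm
      · intro y hy
        obtain ⟨t, ht⟩ := hENO A B h b L om hL.toIsLI (emb y / mu) (by
          intro l hl
          have h1 := (hq (l / mu)).1 (by rwa [mul_div_cancel₀ _ hmu]) y hy
          have e : emb y / mu * l = emb y * (l / mu) := by ring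
          rw [e]
          exact h1)
        have h2 : y = t * c := by
          apply _root_.Pool.Agent.MUX.emb_inj h
          rw [_root_.Pool.Agent.MUX.emb_mul h, ← ht, ← hc, div_mul_cancel₀ _ hmu]
        rw [h2]
        exact Ideal.mem_span_singleton'.2 ⟨t, rfl⟩
      · rw [Ideal.span_singleton_le_iff_mem]
        refine hINV A B h b L om hL.toIsLI a hane c fun z hz => ?_
        rw [← hc]
        exact (hq z).2 hz
    obtain ⟨u, hu, huL, -⟩ := hGEN A B h b m L om hL.toIsLI hm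
    by_cases hu0 : u ∈ L.lattice
    · have h1 : (1 : OO A B) ∈ m := (huL 1).1 (by rwa [_root_.Pool.Agent.MUX.emb_one h, one_mul])
      exact ⟨c, by rw [(Ideal.eq_top_iff_one m).2 h1]; trivial, hasp⟩
    · rcases hact.act u hu with ⟨h1, -⟩ | ⟨-, h2, h3, -⟩
      · exact absurd h1 hu0
      · have h4 : σ (xn L u) = xn L u :=
          hfix _ (IntermediateField.subset_adjoin _ _ ⟨b, L, om, hL, Or.inr ⟨u, hu, hu0, rfl⟩⟩)
        have h5 : xn L (mu * u) = xn L u := by
          rw [(hco _).1, ← h3, h4]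
        have h6 : L.weierstrassP (mu * u) = L.weierstrassP u := by
          have := h5
          simp only [xn] at this
          linear_combination this
        have h7 : mu * u ∉ L.lattice := fun h8 => h2 ((hlat _).1 h8)
        rcases b_NEQ L u (mu * u) hu0 h7 h6 with h8 | h8
        · refine ⟨c, (huL _).1 ?_, hasp⟩
          rw [_root_.Pool.Agent.MUX.emb_sub h, _root_.Pool.Agent.MUX.emb_one h, ← hc, sub_mul, one_mul]
          exact h8
        · refine ⟨-c, ?_, ?_⟩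
          · have h9 : c + 1 ∈ m := by
              refine (huL _).1 ?_
              rw [_root_.Pool.Agent.MUX.emb_add h, _root_.Pool.Agent.MUX.emb_one h, ← hc, add_mul, one_mul]
              exact h8
            have e : -c - 1 = -(c + 1) := by ring
            rw [e]
            exact neg_mem h9
          · rw [hasp]
            exact (Ideal.span_singleton_neg c).symm
  · rintro ⟨c, hcm, rfl⟩
    have hc0 : c ≠ 0 := by
      rintro rfl
      exact hane (Ideal.span_singleton_eq_bot.2 rfl)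
    obtain ⟨-, b₁, L₁, om₁, hL₁, -, hkap₁⟩ := cj1 σ hσ b L om hL
    have hL' : IsNL b₁ L' om₁ := by
      obtain ⟨hlat, -⟩ := cj3 L' L₁ hnrm hL₁.nrm (by rw [hact.kap, hkap₁])
      exact ⟨⟨hL₁.b_ne, hL₁.om_ne, fun z => (hlat z).trans (hL₁.mem z)⟩, hnrm⟩
    have key : ∀ (c₀ : Ideal (OO A B)) (M : PeriodPair) (omm : ℂ), IsNL c₀ M omm →
        σ (kap M) = kap M ∧ ∀ z, Tor m M z → z ∉ M.lattice → σ (xn M z) = xn M z := by
      intro c₀ M omm hM
      obtain ⟨-, c₁, M', omm', hM', -, hkapM⟩ := cj1 σ hσ c₀ M omm hM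
      obtain ⟨nu, hnu⟩ := hIND A B h σ hσ m (sp c) b b₁ c₀ c₁ L L' M M' om om₁ omm omm' mu hm hL
        hL' hM hM' hact hkapM
      have hCMM : HasCM A B M := hM.toIsLI.hasCM h
      have hq : IsQ (sp c) M M (emb c) :=
        ⟨_root_.Pool.Agent.MUX.emb_ne_zero h hc0, fun z => (tor_span h hCMM c).symm⟩
      obtain ⟨-, -, hk, hx⟩ := hSGQ A B (sp c) M M' M nu (emb c) hnu.isq hq hM'.nrm hM.nrm
      refine ⟨by rw [← hkapM, hk], fun z hz hzM => ?_⟩
      rcases hnu.act z hz with ⟨h1, -⟩ | ⟨-, -, h3, -⟩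
      · exact absurd h1 hzM
      · rw [h3, hx z]
        have h4 : emb (c - 1) * z ∈ M.lattice := hz _ hcm
        have h5 : emb c * z = z + emb (c - 1) * z := by
          rw [_root_.Pool.Agent.MUX.emb_sub h, _root_.Pool.Agent.MUX.emb_one h]
          ring
        have h6 : M.weierstrassP (z + emb (c - 1) * z) = M.weierstrassP z :=
          M.weierstrassP_add_coe z ⟨_, h4⟩
        rw [h5, xn, xn, h6]
    intro y hy
    induction hy using IntermediateField.adjoin_induction with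
    | mem x hx =>
      obtain ⟨c₀, M, omm, hM, rfl | ⟨z, hz, hzM, rfl⟩⟩ := hx
      · exact (key c₀ M omm hM).1
      · exact (key c₀ M omm hM).2 z hz hzM
    | algebraMap x => exact TRV.fix hσ _ x.2
    | add x y _ _ hx hy => rw [map_add, hx, hy]
    | inv x _ hx => rw [map_inv₀, hx]
    | mul x y _ _ hx hy => rw [map_mul, hx, hy]

end

end Pool.Agent.MUXC


end

section

/-!
# MUX, block XC, module TRO (helper83): the lattice `a⁻¹ L`
-/

set_option autoImplicit false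

namespace Pool.Agent.MUXC

open _root_.MU3 _root_.Pool.Agent.MU3A _root_.Pool.Agent.MU3B _root_.Pool.Agent.MUX _root_.Pool.Agent.MUXU _root_.Pool.Agent.RI

noncomputable section

theorem tc_TRO : Sc_TRO := by
  intro A B h b L om hL a ha z
  have hN : nI a ≠ 0 := nI_ne_zero h ha
  have hNC : ((nI a : ℕ) : ℂ) ≠ 0 := by exact_mod_cast hN
  have hom := hL.om_ne
  have hsp : sp ((nI a : ℕ) : OO A B) * b = a * (cjI a * b) := by
    rw [← mul_cjI h ha, mul_assoc]
  constructor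
  · intro hz
    have h1 := hz _ (nI_mem h ha)
    rw [_root_.Pool.Agent.MUX.emb_natCast h] at h1
    obtain ⟨t, ht, htz⟩ := (hL.mem _).1 h1
    have hze : z = om * emb t / nI a := by
      rw [← htz]
      field_simp
    refine ⟨t, ?_, hze⟩
    have h2 : a * sp t ≤ a * (cjI a * b) := by
      rw [mul_comm, Ideal.span_singleton_mul_le_iff]
      intro x hx
      obtain ⟨β, hβ, hβz⟩ := (hL.mem _).1 (hz x hx)
      rw [← hsp, Ideal.mem_span_singleton_mul]
      refine ⟨β, hβ, ?_⟩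
      apply _root_.Pool.Agent.MUX.emb_inj h
      rw [_root_.Pool.Agent.MUX.emb_mul h, _root_.Pool.Agent.MUX.emb_mul h, _root_.Pool.Agent.MUX.emb_natCast h]
      apply mul_left_cancel₀ hom
      have h3 : om * ((nI a : ℕ) * emb β) = (nI a : ℕ) * (om * emb β) := by ring
      rw [h3, ← hβz, hze]
      field_simp
    exact (mul_le_mul_iff h ha).1 h2 (Ideal.mem_span_singleton_self t)
  · rintro ⟨t, ht, rfl⟩ x hx
    have h1 : x * t ∈ a * (cjI a * b) := Ideal.mul_mem_mul hx ht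
    rw [← hsp, Ideal.mem_span_singleton_mul] at h1
    obtain ⟨β, hβ, hβx⟩ := h1
    refine (hL.mem _).2 ⟨β, hβ, ?_⟩
    have h2 : ((nI a : ℕ) : ℂ) * emb β = emb x * emb t := by
      rw [← _root_.Pool.Agent.MUX.emb_natCast h, ← _root_.Pool.Agent.MUX.emb_mul h, hβx, _root_.Pool.Agent.MUX.emb_mul h]
    field_simp
    linear_combination (-1 : ℂ) * h2

end

end Pool.Agent.MUXC


end

section

/-!
# MUX, block XC: the contract `TorX`
-/

set_option autoImplicit false

namespace Pool.Agent.MUXC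

open _root_.MU3 _root_.Pool.Agent.MU3A _root_.Pool.Agent.MU3B _root_.Pool.Agent.MUX _root_.Pool.Agent.MUXU _root_.Pool.Agent.RI

theorem tc_TOR (h1 : Sc_FGL) (h2 : Sc_CMM) (h3 : Sc_EXT) (h4 : Sc_ACT) (h5 : Sc_SUR)
    (h6 : Sc_CMP) (h7 : Sc_CHG) (h8 : Sc_UNQ) (h9 : Sc_TRV) (h10 : Sc_ZET) : Sc_TOR :=
  fun A B hAB =>
    { fin := fun m hm => (h1 A B hAB m hm).1
      gal := fun m hm => (h1 A B hAB m hm).2.1
      comm := fun m hm => h2 A B hAB m hm
      mono := fun m m' h => (h3 A B hAB).1 m m' h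
      ext := fun m hm D h hD τ => (h3 A B hAB).2 m hm D h hD τ
      act := fun m hm σ hσ => h4 A B hAB m hm σ hσ
      surj := fun m hm a ha hc => h5 A B hAB m hm a ha hc
      comp := fun m a b σ τ L L' L'' mu nu => h6 A B hAB m a b σ τ L L' L'' mu nu
      chg := fun m a a' σ L L' mu x y => h7 A B hAB m a a' σ L L' mu x y
      uniq := fun m a a' σ L L' mu mu' => h8 A B hAB m a a' σ L L' mu mu'
      triv := fun m a σ b L L' om mu => h9 A B hAB m a σ b L L' om mu
      zeta := fun M m a σ b L L' om mu => h10 A B hAB M m a σ b L L' om mu }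

end Pool.Agent.MUXC


end

section

/-!
# MUX, block XC, module SGQ: normalised lattices `mu a⁻¹ L` are unique, `mu` up to sign (helper55)
-/

set_option autoImplicit false

namespace Pool.Agent.MUXC

open _root_.MU3 _root_.Pool.Agent.MU3A _root_.Pool.Agent.MU3B _root_.Pool.Agent.MUX _root_.Pool.Agent.MUXU

theorem tc_SGQ : Sc_SGQ := by
  intro A B a L L' L'' mu mu'' h h' hL' hL''
  obtain ⟨h0, h1⟩ := h
  obtain ⟨h0', h1'⟩ := h'
  have hs : mu'' / mu ≠ 0 := div_ne_zero h0' h0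
  have key : ∀ z : ℂ, z ∈ L'.lattice ↔ mu'' / mu * z ∈ L''.lattice := by
    intro z
    have e1 : mu * (z / mu) = z := mul_div_cancel₀ z h0
    have e2 : mu'' * (z / mu) = mu'' / mu * z := by ring
    rw [← e2, h1', ← h1, e1]
  obtain ⟨hP, -, h2, h3⟩ := Pool.Agent.MU3A.ta_SCP L' L'' (mu'' / mu) hs key
  set s := mu'' / mu with hsdef
  have hd' := (Pool.Agent.MU3B.b_DSC L'').1
  have h30 : L''.g₃ ≠ 0 := by
    intro e0
    apply hd'
    rw [hL'', e0]
    ring
  have e2 : s ^ 2 = 1 := by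
    rw [eq_div_iff (pow_ne_zero 4 hs)] at h2
    rw [eq_div_iff (pow_ne_zero 6 hs)] at h3
    have e : L''.g₃ * s ^ 4 * (s ^ 2 - 1) = 0 := by
      linear_combination h3 + (1 / 18) * h2 - (s ^ 4 / 18) * hL'' + (1 / 18) * hL'
    have e' := (mul_eq_zero.1 e).resolve_left (mul_ne_zero h30 (pow_ne_zero 4 hs))
    exact sub_eq_zero.1 e'
  have hcase : s = 1 ∨ s = -1 := by
    have e5 : (s - 1) * (s + 1) = 0 := by linear_combination e2
    rcases mul_eq_zero.1 e5 with e | e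
    · exact Or.inl (sub_eq_zero.1 e)
    · exact Or.inr (eq_neg_of_add_eq_zero_left e)
  have hmu : mu'' = s * mu := by rw [hsdef]; field_simp
  refine ⟨?_, ?_, ?_, ?_⟩
  · rcases hcase with e | e
    · left; rw [hmu, e, one_mul]
    · right; rw [hmu, e]; ring
  · intro z
    rw [key z]
    rcases hcase with e | e
    · rw [e, one_mul]
    · rw [e, neg_one_mul, neg_mem_iff]
  · have e4 : s ^ 4 = 1 := by
      have : s ^ 4 = s ^ 2 * s ^ 2 := by ring
      rw [this, e2, one_mul]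
    rw [e4, div_one] at h2
    unfold MUX.kap
    rw [h2]
  · intro z
    have e6 : mu'' * z = s * (mu * z) := by rw [hmu]; ring
    have e7 := hP (mu * z)
    rw [e2, div_one] at e7
    unfold MUX.xn
    rw [e6, e7]

end Pool.Agent.MUXC


end

section

/-!
# MUX, block XC: module RP1 (an element of `d` without common factor with `N`)
-/

set_option autoImplicit false

open Polynomial NumberField IsDedekindDomain

namespace Pool.Agent.MUXC

open _root_.MU3 _root_.Pool.Agent.MU3A _root_.Pool.Agent.MU3B _root_.Pool.Agent.MUX _root_.Pool.Agent.MUXU _root_.Pool.Agent.RI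
open _root_.Pool.Agent.MUXE (NL Sxe_RNG)

noncomputable section

theorem tc_RP1 (h1 : Sxe_RNG) : Sc_RP1 := by
  intro A B hC a d m t N hm hd hN hNm ham hdm ht had
  classical
  have hded : IsDedekindDomain (OO A B) := (h1 A B hC).ded
  have hN0 : ((N : ℕ) : OO A B) ≠ 0 := natCast_ne_zero' hC hN
  have hspN : (sp ((N : ℕ) : OO A B) : Ideal (OO A B)) ≠ ⊥ := by
    rw [Ne, Ideal.span_singleton_eq_bot]
    exact hN0
  have hfin := Ideal.finite_factors (I := sp ((N : ℕ) : OO A B)) hspN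
  obtain ⟨s, hs⟩ : ∃ s : Finset (HeightOneSpectrum (OO A B)), s = hfin.toFinset := ⟨_, rfl⟩
  obtain ⟨T, hT⟩ : ∃ T : Ideal (OO A B),
      T = ∏ v ∈ s.filter (fun v => t ∉ v.asIdeal * d), v.asIdeal := ⟨_, rfl⟩
  have hT0 : T ≠ ⊥ := by
    rw [hT]
    exact Finset.prod_ne_zero_iff.2 (fun v _ => v.ne_bot)
  obtain ⟨J, hJ⟩ : ∃ J : Ideal (OO A B), J = m * T * d := ⟨_, rfl⟩
  have hJ0 : J ≠ ⊥ := by
    rw [hJ]
    exact mul_ne_bot hC (mul_ne_bot hC hm hT0) hd
  have hJd : J ≤ d := by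
    rw [hJ]
    exact Ideal.mul_le_right
  obtain ⟨μ, hμ⟩ := IsDedekindDomain.exists_sup_span_eq (I := sp ((N : ℕ) : OO A B) * J) (J := J)
    Ideal.mul_le_right (mul_ne_bot hC hspN hJ0)
  have hμJ : μ ∈ J := by
    have h2 : Ideal.span {μ} ≤ J := by
      rw [← hμ]
      exact le_sup_right
    exact h2 (Ideal.mem_span_singleton_self μ)
  have htd : t ∈ d := by
    have h2 : t ∈ sp t := Ideal.mem_span_singleton_self t
    rw [← had] at h2
    exact Ideal.mul_le_right h2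
  refine ⟨t + μ, add_mem htd (hJd hμJ), ?_, ?_⟩
  · rw [add_sub_cancel_left]
    rw [hJ] at hμJ
    exact (Ideal.mul_mono_left Ideal.mul_le_left) hμJ
  · intro P hP hP0 hNP hy
    have hNle : sp ((N : ℕ) : OO A B) ≤ P := by
      rw [Ideal.span_singleton_le_iff_mem]
      exact hNP
    by_cases htP : t ∈ P * d
    · have hmu : μ ∈ P * d := by
        have := sub_mem hy htP
        rwa [add_sub_cancel_left] at this
      have haP : a ≤ P := by
        have h2 : d * a ≤ d * P := by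
          rw [mul_comm d a, had, mul_comm d P, Ideal.span_singleton_le_iff_mem]
          exact htP
        exact (mul_le_mul_iff hC hd).1 h2
      have hJP : J ≤ P * d := by
        rw [← hμ]
        refine sup_le (Ideal.mul_mono hNle hJd) ?_
        rw [Ideal.span_singleton_le_iff_mem]
        exact hmu
      have hmT : m * T ≤ P := by
        have h2 : d * (m * T) ≤ d * P := by
          rw [mul_comm d (m * T), mul_comm d P, ← hJ]
          exact hJP
        exact (mul_le_mul_iff hC hd).1 h2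
      rcases hP.mul_le.1 hmT with h2 | h2
      · apply hP.ne_top
        rw [Ideal.eq_top_iff_one]
        obtain ⟨x, hx, y, hy', hxy⟩ := Ideal.isCoprime_iff_exists.1 ham
        rw [← hxy]
        exact add_mem (haP hx) (h2 hy')
      · rw [hT] at h2
        obtain ⟨v, hv, hvP⟩ := hP.prod_le.1 h2
        have he : v.asIdeal = P := v.isMaximal.eq_of_le hP.ne_top hvP
        have h3 := (Finset.mem_filter.1 hv).2
        rw [he] at h3
        exact h3 htP
    · apply htP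
      have hvs : (⟨P, hP, hP0⟩ : HeightOneSpectrum (OO A B)) ∈
          s.filter (fun v => t ∉ v.asIdeal * d) := by
        rw [Finset.mem_filter, hs, Set.Finite.mem_toFinset]
        exact ⟨Ideal.dvd_iff_le.2 hNle, htP⟩
      have hTP : T ≤ P := by
        rw [hT, ← Ideal.dvd_iff_le]
        have h9 := Finset.dvd_prod_of_mem (fun v : HeightOneSpectrum (OO A B) => v.asIdeal) hvs
        exact h9
      have hJP : J ≤ P * d := by
        rw [hJ]
        exact Ideal.mul_mono_left (Ideal.mul_le_right.trans hTP)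
      have := sub_mem hy (hJP hμJ)
      rwa [add_sub_cancel_right] at this

end

end Pool.Agent.MUXC


end

section

/-!
# MUX, block XC, module QCR (helper65): from an identity of ideals to lattices
-/

set_option autoImplicit false

open Polynomial NumberField IsDedekindDomain

namespace Pool.Agent.MUXC

open _root_.MU3 _root_.Pool.Agent.MU3A _root_.Pool.Agent.MU3B _root_.Pool.Agent.MUX _root_.Pool.Agent.MUXU _root_.Pool.Agent.RI
open _root_.Pool.Agent.MUXE (NL Sxe_RNG)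

noncomputable section

theorem tc_QCR (h1 : Sc_TRO) : Sc_QCR := by
  intro A B hC a b b' L L' om om' hL hL' ha u v hu hv huv
  have hu0 : emb u ≠ 0 := Pool.Agent.MUX.emb_ne_zero hC hu
  have hv0 : emb v ≠ 0 := Pool.Agent.MUX.emb_ne_zero hC hv
  have hom := hL.om_ne
  have hom' := hL'.om_ne
  have hn0 : ((nI a : ℕ) : ℂ) ≠ 0 := by exact_mod_cast Pool.Agent.MUX.nI_ne_zero hC ha
  refine ⟨div_ne_zero (mul_ne_zero hom' hu0) (mul_ne_zero hom hv0), fun z => ⟨?_, ?_⟩⟩
  · intro hz x hx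
    obtain ⟨y, hy, hyz⟩ := (hL'.mem _).1 hz
    have e1 : v * (x * y) ∈ sp u * b := by
      rw [huv]
      exact Ideal.mul_mem_mul (Ideal.mem_span_singleton_self v) (Ideal.mul_mem_mul hx hy)
    obtain ⟨β, hβ, e2⟩ := Ideal.mem_span_singleton_mul.1 e1
    refine (hL.mem _).2 ⟨β, hβ, ?_⟩
    have e3 : emb u * emb β = emb v * (emb x * emb y) := by
      rw [← Pool.Agent.MUX.emb_mul hC, e2, Pool.Agent.MUX.emb_mul hC, Pool.Agent.MUX.emb_mul hC]
    have e4 : emb u * z = om * emb v * emb y := by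
      have e5 : om' * (emb u * z) = om' * (om * emb v * emb y) := by
        calc om' * (emb u * z) = om' * emb u / (om * emb v) * z * (om * emb v) := by
              field_simp
          _ = om' * emb y * (om * emb v) := by rw [hyz]
          _ = _ := by ring
      exact mul_left_cancel₀ hom' e5
    apply mul_left_cancel₀ hu0
    linear_combination emb x * e4 - om * e3
  · intro hz
    obtain ⟨t, ht, hzt⟩ := (h1 A B hC b L om hL a ha z).1 hz
    have e1 : u * t ∈ sp v * (sp ((nI a : ℕ) : OO A B) * b') := by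
      have e2 : sp v * (sp ((nI a : ℕ) : OO A B) * b') = sp u * (cjI a * b) := by
        rw [← Pool.Agent.MUX.mul_cjI hC ha]
        calc sp v * (a * cjI a * b') = cjI a * (sp v * (a * b')) := by
              ring
          _ = cjI a * (sp u * b) := by rw [huv]
          _ = _ := by ring
      rw [e2]
      exact Ideal.mul_mem_mul (Ideal.mem_span_singleton_self u) ht
    obtain ⟨s, hs, e3⟩ := Ideal.mem_span_singleton_mul.1 e1
    obtain ⟨y, hy, e4⟩ := Ideal.mem_span_singleton_mul.1 hs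
    refine (hL'.mem _).2 ⟨y, hy, ?_⟩
    have e5 : emb v * ((nI a : ℕ) * emb y) = emb u * emb t := by
      rw [← Pool.Agent.MUX.emb_natCast hC, ← Pool.Agent.MUX.emb_mul hC,
        ← Pool.Agent.MUX.emb_mul hC, ← Pool.Agent.MUX.emb_mul hC, e4, e3]
    rw [hzt]
    field_simp
    linear_combination -e5

end

end Pool.Agent.MUXC


end

section

/-!
# MUX, block XC, module PHM: the isomorphism `Φ` and the action of `O`
-/

set_option autoImplicit false

open Polynomial NumberField IsDedekindDomain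

namespace Pool.Agent.MUXC

open _root_.MU3 _root_.Pool.Agent.MU3A _root_.Pool.Agent.MU3B _root_.Pool.Agent.MUX _root_.Pool.Agent.MUXU _root_.Pool.Agent.RI
open _root_.Pool.Agent.MUXE (NL Sxe_RNG)

noncomputable section

/-- PHM. -/
theorem tc_PHM : Sc_PHM := by
  intro A B hQ σ hσ b L L' om hL hC Φ hΦ
  have hfix : ∀ x : OO A B, σ (emb x) = emb x := by
    intro x
    have h : σ (wC A B) = wC A B := hσ
    unfold emb
    rw [map_add, map_mul, map_intCast, map_intCast, h]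
  have hIsg : ∀ x : OO A B, Isg L L (emb x) := by
    intro x w hw
    obtain ⟨c, hc, rfl⟩ := (hL.mem w).1 hw
    exact (hL.mem _).2 ⟨x * c, b.mul_mem_left x hc, by rw [_root_.Pool.Agent.MUX.emb_mul hQ]; ring⟩
  have h1 : ∀ (x : OO A B) (z : ℂ), Φ (emb x * z) - emb x * Φ z ∈ L'.lattice := fun x z =>
    (Pool.Agent.MUXU.u_CMC σ L L' Φ (emb x) (hIsg x) (hfix x) hC hΦ).2 z
  have h2 := (Pool.Agent.MUXU.u_TSN σ L L' Φ hC hΦ).2
  have h3 : ∀ z z' : ℂ, Φ (z - z') - (Φ z - Φ z') ∈ L'.lattice := by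
    intro z z'
    have h4 := neg_mem (hΦ.add (z - z') z')
    rw [sub_add_cancel] at h4
    have h5 : Φ (z - z') - (Φ z - Φ z') = -(Φ z - Φ (z - z') - Φ z') := by ring
    rw [h5]
    exact h4
  refine ⟨h1, fun m z => ⟨fun h x hx => (h2 (emb x) z (hIsg x) (hfix x)).1 (h x hx),
    fun h x hx => (h2 (emb x) z (hIsg x) (hfix x)).2 (h x hx)⟩, fun z z' => ?_, h3⟩
  rw [← hΦ.mem]
  constructor
  · intro h
    have h4 := add_mem (h3 z z') h
    rwa [sub_add_cancel] at h4
  · intro h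
    have h4 := sub_mem h (h3 z z')
    rwa [sub_sub_cancel] at h4

end

end Pool.Agent.MUXC


end

section

/-!
# MUX, block XC, module NEX (helper65): if one normalised lattice exists then every ideal has one
-/

set_option autoImplicit false

open Polynomial NumberField IsDedekindDomain

namespace Pool.Agent.MUXC

open _root_.MU3 _root_.Pool.Agent.MU3A _root_.Pool.Agent.MU3B _root_.Pool.Agent.MUX _root_.Pool.Agent.MUXU _root_.Pool.Agent.RI
open _root_.Pool.Agent.MUXE (NL Sxe_RNG)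

noncomputable section

namespace NEX

/-- the invariants of a normalised lattice are not zero -/
lemma ne0 {A B : ℤ} {b : Ideal (OO A B)} {L : PeriodPair} {om : ℂ} (hL : IsNL b L om) :
    L.g₂ ≠ 0 ∧ L.g₃ ≠ 0 := by
  have h1 := hL.nrm
  have h2 := (b_DSC L).1
  have h3 : L.g₃ ≠ 0 := by
    intro h0
    rw [h0] at h1 h2
    exact h2 (by rw [h1]; ring)
  refine ⟨?_, h3⟩
  rw [h1]
  exact mul_ne_zero (by norm_num) h3

lemma scale {A B : ℤ} {b : Ideal (OO A B)} {L₁ L₂ : PeriodPair} {om : ℂ}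
    (h1 : IsLI b L₁ 1) (h2 : IsLI b L₂ om) (hom : om ≠ 0) :
    ∀ u : ℂ, u ∈ L₁.lattice ↔ om * u ∈ L₂.lattice := by
  intro u
  rw [h1.mem, h2.mem]
  constructor
  · rintro ⟨x, hx, rfl⟩
    exact ⟨x, hx, by ring⟩
  · rintro ⟨x, hx, h⟩
    exact ⟨x, hx, by rw [one_mul]; exact mul_left_cancel₀ hom h⟩

/-- a root of unity which preserves the invariants of `L₁` preserves those of `L₀` -/
lemma root (hD : Su_DET) (hE : Sc_ENO) {A B : ℤ} (hC : CQ A B) {b b₀ : Ideal (OO A B)}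
    {L₁ L₀ : PeriodPair} {om₀ : ℂ} (h0 : IsNL b₀ L₀ om₀) (h1 : IsLI b L₁ 1) {ρ : ℂ} {n : ℕ}
    (hρ : ρ ^ (n + 1) = 1) (e2 : L₁.g₂ / ρ ^ 4 = L₁.g₂) (e3 : L₁.g₃ / ρ ^ 6 = L₁.g₃) :
    L₀.g₂ = L₀.g₂ / ρ ^ 4 ∧ L₀.g₃ = L₀.g₃ / ρ ^ 6 := by
  have hρ0 : ρ ≠ 0 := by
    rintro rfl
    rw [zero_pow (by omega)] at hρ
    exact zero_ne_one hρ
  obtain ⟨L₂, h2⟩ := Pool.Agent.MUX.exists_isLI hC h1.b_ne hρ0
  have hs := scale h1 h2 hρ0
  obtain ⟨-, -, g2, g3⟩ := ta_SCP L₁ L₂ ρ hρ0 hs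
  have hl : L₁.lattice = L₂.lattice := hD L₁ L₂ (by rw [g2, e2]) (by rw [g3, e3])
  obtain ⟨x, hx⟩ := hE A B hC b L₁ 1 h1 ρ (fun z hz => by
    rw [hl]
    exact (hs z).1 hz)
  have hcm := Pool.Agent.MUX.IsLI.hasCM hC h0.toIsLI
  have hst : ∀ u : ℂ, u ∈ L₀.lattice ↔ ρ * u ∈ L₀.lattice := by
    intro u
    constructor
    · intro hu
      rw [hx]
      exact hcm x u hu
    · intro hu
      have hk : ∀ k : ℕ, ρ ^ k * (ρ * u) ∈ L₀.lattice := by
        intro k
        induction k with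
        | zero => simpa using hu
        | succ k ih =>
          have h4 := hcm x _ ih
          rw [← hx] at h4
          have h5 : ρ ^ (k + 1) * (ρ * u) = ρ * (ρ ^ k * (ρ * u)) := by ring
          rw [h5]
          exact h4
      have h6 := hk n
      have h7 : ρ ^ n * (ρ * u) = ρ ^ (n + 1) * u := by ring
      rwa [h7, hρ, one_mul] at h6
  obtain ⟨-, -, g2', g3'⟩ := ta_SCP L₀ L₀ ρ hρ0 hst
  exact ⟨g2', g3'⟩

end NEX

open _root_.Pool.Agent.MUXC.NEX in
theorem tc_NEX (hD : Su_DET) (hE : Sc_ENO) : Sc_NEX := by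
  intro A B hC b₀ L₀ om₀ h0 b hb
  obtain ⟨L₁, h1⟩ := Pool.Agent.MUX.exists_isLI hC hb (one_ne_zero (α := ℂ))
  obtain ⟨hg2, hg3⟩ := ne0 h0
  have hL2 : L₁.g₂ ≠ 0 := by
    intro hz
    have hp := Complex.isPrimitiveRoot_exp 3 (by norm_num)
    set ρ : ℂ := Complex.exp (2 * Real.pi * Complex.I / (3 : ℕ)) with hρ
    have h3 : ρ ^ 3 = 1 := hp.pow_eq_one
    have hρ1 : ρ ≠ 1 := hp.ne_one (by norm_num)
    have h6 : ρ ^ 6 = 1 := by
      calc ρ ^ 6 = (ρ ^ 3) ^ 2 := by ring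
        _ = 1 := by rw [h3, one_pow]
    have h4 : ρ ^ 4 = ρ := by
      calc ρ ^ 4 = ρ ^ 3 * ρ := by ring
        _ = ρ := by rw [h3, one_mul]
    have hρ0 : ρ ≠ 0 := Complex.exp_ne_zero _
    obtain ⟨a1, -⟩ := root hD hE hC h0 h1 (ρ := ρ) (n := 2) h3 (by rw [hz, zero_div])
      (by rw [h6, div_one])
    rw [h4, eq_div_iff hρ0] at a1
    have a2 : L₀.g₂ * (ρ - 1) = 0 := by linear_combination a1
    rcases mul_eq_zero.1 a2 with h | h
    · exact hg2 h
    · exact hρ1 (sub_eq_zero.1 h)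
  have hL3 : L₁.g₃ ≠ 0 := by
    intro hz
    have h4 : Complex.I ^ 4 = 1 := Complex.I_pow_four
    have h6 : Complex.I ^ 6 = -1 := by
      calc Complex.I ^ 6 = Complex.I ^ 4 * (Complex.I * Complex.I) := by ring
        _ = -1 := by rw [h4, Complex.I_mul_I, one_mul]
    obtain ⟨-, a1⟩ := root hD hE hC h0 h1 (ρ := Complex.I) (n := 3) h4 (by rw [h4, div_one])
      (by rw [hz, zero_div])
    rw [h6] at a1
    have a2 : (2 : ℂ) * L₀.g₃ = 0 := by linear_combination a1
    rcases mul_eq_zero.1 a2 with h | h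
    · norm_num at h
    · exact hg3 h
  obtain ⟨om, hom⟩ := IsAlgClosed.exists_pow_nat_eq (-18 * L₁.g₃ / L₁.g₂) (n := 2) (by norm_num)
  have hom0 : om ≠ 0 := by
    rintro rfl
    rw [zero_pow (by norm_num)] at hom
    have : -18 * L₁.g₃ / L₁.g₂ ≠ 0 := div_ne_zero (mul_ne_zero (by norm_num) hL3) hL2
    exact this hom.symm
  obtain ⟨L, hL⟩ := Pool.Agent.MUX.exists_isLI hC hb hom0
  obtain ⟨-, -, g2, g3⟩ := ta_SCP L₁ L om hom0 (scale h1 hL hom0)
  refine ⟨L, om, ⟨hL, ?_⟩⟩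
  have e1 : om ^ 2 * L₁.g₂ = -18 * L₁.g₃ := by
    rw [hom, div_mul_cancel₀ _ hL2]
  rw [g2, g3]
  field_simp
  linear_combination e1

end

end Pool.Agent.MUXC


end

section

/-!
# MUX, block XC, module FGL: the fields `RF m` are finite Galois extensions of `k`
-/

set_option autoImplicit false

open Polynomial NumberField IsDedekindDomain

namespace Pool.Agent.MUXC

open _root_.MU3 _root_.Pool.Agent.MU3A _root_.Pool.Agent.MU3B _root_.Pool.Agent.MUX _root_.Pool.Agent.MUXU _root_.Pool.Agent.RI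
open _root_.Pool.Agent.MUXE (NL Sxe_RNG)

noncomputable section

namespace FGL

variable {A B : ℤ}

/-- automorphisms of `ℂ` with `FixK` are trivial on `k` -/
lemma fix {σ : ℂ ≃+* ℂ} (hσ : FixK A B σ) : ∀ y ∈ kk A B, σ y = y := by
  intro y hy
  induction hy using IntermediateField.adjoin_induction with
  | mem x hx => rw [Set.mem_singleton_iff] at hx; rw [hx]; exact hσ
  | algebraMap x => simp
  | add x y _ _ hx hy => rw [map_add, hx, hy]
  | inv x _ hx => rw [map_inv₀, hx]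
  | mul x y _ _ hx hy => rw [map_mul, hx, hy]

lemma isIntegral_wC (h : CQ A B) : IsIntegral ℚ (wC A B) := by
  refine ⟨X ^ 2 - C (B : ℚ) * X - C (A : ℚ), ?_, ?_⟩
  · monicity!
  · simp only [eval₂_sub, eval₂_pow, eval₂_X, eval₂_mul, eval₂_C]
    simp only [eq_ratCast, Rat.cast_intCast]
    rw [sq, _root_.Pool.Agent.MUX.wC_sq h]
    ring

lemma isAlgebraic_kk (h : CQ A B) : Algebra.IsAlgebraic ℚ (kk A B) := by
  refine IntermediateField.isAlgebraic_adjoin ?_
  intro x hx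
  rw [Set.mem_singleton_iff] at hx
  rw [hx]
  exact isIntegral_wC h

/-- a finite extension inside an algebraically closed field which contains the images of all
embeddings is normal -/
theorem normal_of {k K : Type*} [Field k] [Field K] [Algebra k K] [IsAlgClosed K]
    (F : IntermediateField k K) [Algebra.IsAlgebraic k F]
    (h : ∀ σ : F →ₐ[k] K, ∀ x : F, σ x ∈ F) : Normal k F := by
  rw [normal_iff]
  intro x
  refine ⟨Algebra.IsIntegral.isIntegral x, ?_⟩
  apply IntermediateField.splits_of_splits (IsAlgClosed.splits _)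
  intro r hr
  rw [← Algebra.IsAlgebraic.range_eval_eq_rootSet_minpoly (F := k) K x] at hr
  obtain ⟨σ, rfl⟩ := hr
  exact h σ x

/-- the generators are stable -/
lemma gen_stab (h2 : Sc_ACT) (hQ : CQ A B) {m : Ideal (OO A B)} (hm : m ≠ ⊥) {σ : ℂ ≃+* ℂ}
    (hσ : FixK A B σ) {c : ℂ} (hc : c ∈ genS m) : σ c ∈ genS m := by
  obtain ⟨a, -, hact⟩ := h2 A B hQ m hm σ hσ
  obtain ⟨b, L, om, hL, hc⟩ := hc
  obtain ⟨b', L', om', mu, hL', hA⟩ := hact b L om hL
  rcases hc with rfl | ⟨z, hz, hz0, rfl⟩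
  · exact ⟨b', L', om', hL', Or.inl hA.kap.symm⟩
  · rcases hA.act z hz with h | h
    · exact absurd h.1 hz0
    · refine ⟨b', L', om', hL', Or.inr ⟨mu * z, ?_, h.2.1, h.2.2.1⟩⟩
      intro y hy
      have e : emb y * (mu * z) = mu * (emb y * z) := by ring
      rw [e]
      refine (hA.isq.2 _).2 ?_
      intro x _
      exact hL.toIsLI.hasCM hQ x _ (hz y hy)

/-- the field is stable -/
lemma stab (h2 : Sc_ACT) (hQ : CQ A B) {m : Ideal (OO A B)} (hm : m ≠ ⊥) {σ : ℂ ≃+* ℂ}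
    (hσ : FixK A B σ) : ∀ y ∈ (RF m : IntermediateField (kk A B) ℂ), σ y ∈ RF m := by
  intro y hy
  have hy' : y ∈ IntermediateField.adjoin (kk A B) (genS m) := hy
  show σ y ∈ IntermediateField.adjoin (kk A B) (genS m)
  clear hy
  induction hy' using IntermediateField.adjoin_induction with
  | mem x hx => exact IntermediateField.subset_adjoin _ _ (gen_stab h2 hQ hm hσ hx)
  | algebraMap x =>
    have e : σ (algebraMap (kk A B) ℂ x) = algebraMap (kk A B) ℂ x := fix hσ _ x.2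
    rw [e]
    exact IntermediateField.algebraMap_mem _ x
  | add x y _ _ hx hy => rw [map_add]; exact add_mem hx hy
  | inv x _ hx => rw [map_inv₀]; exact inv_mem hx
  | mul x y _ _ hx hy => rw [map_mul]; exact mul_mem hx hy

end FGL

open _root_.Pool.Agent.MUXC.FGL in
theorem tc_FGL (h1 : Sc_FNG) (h2 : Sc_ACT) (h3 : Su_AUT) (h4 : Su_AUE) : Sc_FGL := by
  intro A B hQ m hm
  have hk := isAlgebraic_kk hQ
  have hfin := h1 A B hQ m hm
  have halg : ∀ c ∈ genS m, IsIntegral ℚ c := by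
    intro c hc
    apply IsAlgebraic.isIntegral
    apply h3 (kk A B) hk c
    apply hfin.subset
    rintro y ⟨σ, hσ, rfl⟩
    exact gen_stab h2 hQ hm (hσ _ (wC_mem A B)) hc
  have hfd : FiniteDimensional (kk A B) (RF m) := by
    have : Finite (genS m) := hfin
    exact IntermediateField.finiteDimensional_adjoin (S := genS m)
      (fun x hx => (halg x hx).tower_top)
  have hst : ∀ σ : ℂ ≃+* ℂ, FixK A B σ →
      ∀ y ∈ (RF m : IntermediateField (kk A B) ℂ), σ y ∈ RF m := fun σ hσ => stab h2 hQ hm hσ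
  refine ⟨hfd, ?_, hst⟩
  have halgF : Algebra.IsAlgebraic ℚ ((RF m).restrictScalars ℚ) := by
    have h5 : Algebra.IsAlgebraic (kk A B) (RF m) := Algebra.IsAlgebraic.of_finite _ _
    exact Algebra.IsAlgebraic.trans ℚ (kk A B) (RF m)
  have hn : Normal (kk A B) (RF m) := by
    apply normal_of
    intro τ x
    obtain ⟨σ, hσ⟩ := h4 ((RF m).restrictScalars ℚ) halgF τ.toRingHom
    have hσ' : ∀ y : RF m, σ (y : ℂ) = τ y := fun y => hσ y
    have hF : FixK A B σ := by
      have h6 := hσ' (algebraMap (kk A B) (RF m) ⟨wC A B, wC_mem A B⟩)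
      rw [τ.commutes] at h6
      exact h6
    rw [← hσ' x]
    exact hst σ hF x x.2
  exact ⟨⟩

end

end Pool.Agent.MUXC


end

section

/-!
# MUX, block XC: module CLF, finitely many classes of ideals
-/

set_option autoImplicit false

open Polynomial NumberField IsDedekindDomain

namespace Pool.Agent.MUXC

open _root_.MU3 _root_.Pool.Agent.MU3A _root_.Pool.Agent.MU3B _root_.Pool.Agent.MUX _root_.Pool.Agent.MUXU _root_.Pool.Agent.RI
open _root_.Pool.Agent.MUXE (NL Sxe_RNG)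

namespace CLF

variable {A B : ℤ}

/-- finitely many ideals contain a given nonzero integer -/
lemma fin_ideals (h : CQ A B) (M : ℕ) (hM : M ≠ 0) :
    {b : Ideal (OO A B) | ((M : ℕ) : OO A B) ∈ b}.Finite := by
  have hb : (sp ((M : ℕ) : OO A B) : Ideal (OO A B)) ≠ ⊥ := by
    rw [Ne, Ideal.span_singleton_eq_bot]
    exact natCast_ne_zero' h hM
  have hfin : Finite (OO A B ⧸ sp ((M : ℕ) : OO A B)) := finite_quot h hb
  have hfinI : Finite (Ideal (OO A B ⧸ sp ((M : ℕ) : OO A B))) :=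
    Finite.of_injective (fun I : Ideal (OO A B ⧸ sp ((M : ℕ) : OO A B)) =>
      (I : Set (OO A B ⧸ sp ((M : ℕ) : OO A B)))) SetLike.coe_injective
  refine Set.Finite.of_finite_image
    (f := fun b => Ideal.map (Ideal.Quotient.mk (sp ((M : ℕ) : OO A B))) b) (Set.toFinite _) ?_
  have key : ∀ b : Ideal (OO A B), ((M : ℕ) : OO A B) ∈ b →
      Ideal.comap (Ideal.Quotient.mk (sp ((M : ℕ) : OO A B)))
        (Ideal.map (Ideal.Quotient.mk (sp ((M : ℕ) : OO A B))) b) = b := by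
    intro b hb'
    rw [Ideal.comap_map_of_surjective _ Ideal.Quotient.mk_surjective, ← RingHom.ker_eq_comap_bot,
      Ideal.mk_ker, sup_eq_left, Ideal.span_singleton_le_iff_mem]
    exact hb'
  intro b hb1 c hc1 hbc
  rw [← key b hb1, ← key c hc1]
  exact congrArg _ hbc

lemma nm_bound (r : ℕ) (y : OO A B) (h1 : |y.re| ≤ r) (h2 : |y.im| ≤ r) :
    nm y ≤ (1 + |B| + |A|) * (r : ℤ) ^ 2 := by
  unfold nm
  have hr : (0 : ℤ) ≤ r := by positivity
  have e1 : y.re ^ 2 ≤ (r : ℤ) ^ 2 := by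
    rw [← sq_abs]
    exact pow_le_pow_left₀ (abs_nonneg _) h1 2
  have e2 : y.im ^ 2 ≤ (r : ℤ) ^ 2 := by
    rw [← sq_abs]
    exact pow_le_pow_left₀ (abs_nonneg _) h2 2
  have e3 : B * y.re * y.im ≤ |B| * (r : ℤ) ^ 2 := by
    refine (le_abs_self _).trans ?_
    rw [abs_mul, abs_mul, mul_assoc]
    refine mul_le_mul_of_nonneg_left ?_ (abs_nonneg _)
    rw [sq]
    exact mul_le_mul h1 h2 (abs_nonneg _) hr
  have e4 : -(A * y.im ^ 2) ≤ |A| * (r : ℤ) ^ 2 := by
    refine (neg_le_abs _).trans ?_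
    rw [abs_mul, abs_of_nonneg (sq_nonneg y.im)]
    exact mul_le_mul_of_nonneg_left e2 (abs_nonneg _)
  linarith

end CLF

open _root_.Pool.Agent.MUXC.CLF in
theorem tc_CLF : Sc_CLF := by
  intro A B h
  classical
  set C : ℕ := 1 + B.natAbs + A.natAbs with hC
  have hCz : (C : ℤ) = 1 + |B| + |A| := by
    rw [hC]; push_cast; rfl
  have hM : C.factorial ≠ 0 := C.factorial_ne_zero
  have hfin := fin_ideals h C.factorial hM
  refine ⟨hfin.toFinset.filter (fun b => b ≠ ⊥), fun b hb => (Finset.mem_filter.mp hb).2, ?_⟩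
  intro c hc
  set N := nI c with hN
  have hN0 : N ≠ 0 := nI_ne_zero h hc
  set r := Nat.sqrt N with hr
  have hr1 : r * r ≤ N := Nat.sqrt_le N
  have hr2 : N < (r + 1) * (r + 1) := Nat.lt_succ_sqrt N
  have hcj : cjI c ≠ ⊥ := cjI_ne_bot h hc
  have hfq : Finite (OO A B ⧸ cjI c) := finite_quot h hcj
  have hcard : Nat.card (OO A B ⧸ cjI c) = N := nI_cjI h hc
  obtain ⟨y, hy0, hyc, hyr, hyi⟩ : ∃ y : OO A B, y ≠ 0 ∧ y ∈ cjI c ∧ |y.re| ≤ r ∧ |y.im| ≤ r := by
    let _ : Fintype (OO A B ⧸ cjI c) := Fintype.ofFinite _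
    let φ : Fin (r + 1) × Fin (r + 1) → OO A B ⧸ cjI c := fun q =>
      Ideal.Quotient.mk (cjI c) (⟨((q.1 : ℕ) : ℤ), ((q.2 : ℕ) : ℤ)⟩ : OO A B)
    have hlt : Fintype.card (OO A B ⧸ cjI c) < Fintype.card (Fin (r + 1) × Fin (r + 1)) := by
      rw [Fintype.card_prod, Fintype.card_fin, ← Nat.card_eq_fintype_card, hcard]
      exact hr2
    obtain ⟨q, q', hne, hqq⟩ := Fintype.exists_ne_map_eq_of_card_lt φ hlt
    have hmem := Ideal.Quotient.eq.mp hqq
    refine ⟨_, ?_, hmem, ?_, ?_⟩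
    · intro h0
      have h1 := congrArg QuadraticAlgebra.re h0
      have h2 := congrArg QuadraticAlgebra.im h0
      simp only [QuadraticAlgebra.re_sub, QuadraticAlgebra.im_sub, QuadraticAlgebra.re_zero,
        QuadraticAlgebra.im_zero] at h1 h2
      apply hne
      ext
      · omega
      · omega
    · simp only [QuadraticAlgebra.re_sub]
      have h1 := q.1.isLt
      have h2 := q'.1.isLt
      rw [abs_le]; constructor <;> omega
    · simp only [QuadraticAlgebra.im_sub]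
      have h1 := q.2.isLt
      have h2 := q'.2.isLt
      rw [abs_le]; constructor <;> omega
  have hspy : (sp y : Ideal (OO A B)) ≠ ⊥ := by
    rw [Ne, Ideal.span_singleton_eq_bot]; exact hy0
  have hspN : (sp ((N : ℕ) : OO A B) : Ideal (OO A B)) ≠ ⊥ := by
    rw [Ne, Ideal.span_singleton_eq_bot]
    exact natCast_ne_zero' h hN0
  have hle : sp y * c ≤ sp ((N : ℕ) : OO A B) := by
    rw [← mul_cjI h hc, mul_comm c]
    exact Ideal.mul_mono_left ((Ideal.span_singleton_le_iff_mem _).mpr hyc)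
  set a : Ideal (OO A B) := Submodule.comap (LinearMap.mulLeft (OO A B) ((N : ℕ) : OO A B))
    (sp y * c) with ha
  have hmema : ∀ t, t ∈ a ↔ ((N : ℕ) : OO A B) * t ∈ sp y * c := fun t => Iff.rfl
  have heq : sp y * c = sp ((N : ℕ) : OO A B) * a := by
    ext s
    rw [Ideal.mem_span_singleton_mul (x := s) (y := ((N : ℕ) : OO A B))]
    constructor
    · intro hs
      obtain ⟨t, ht⟩ := Ideal.mem_span_singleton.mp (hle hs)
      exact ⟨t, (hmema t).mpr (ht ▸ hs), ht.symm⟩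
    · rintro ⟨t, ht, rfl⟩
      exact (hmema t).mp ht
  have hyc0 : sp y * c ≠ ⊥ := mul_ne_bot h hspy hc
  have ha0 : a ≠ ⊥ := by
    intro h0
    rw [h0, Ideal.mul_bot] at heq
    exact hyc0 heq
  have hnorm := congrArg nI heq
  rw [nI_mul h hspy hc, nI_mul h hspN ha0, nI_sp h hy0, nI_sp h (natCast_ne_zero' h hN0)] at hnorm
  have hnmN : (nm ((N : ℕ) : OO A B)).natAbs = N ^ 2 := by
    have h1 : nm ((N : ℕ) : OO A B) = ((N : ℕ) : ℤ) ^ 2 := by simp [nm]
    rw [h1, Int.natAbs_pow, Int.natAbs_natCast]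
  rw [hnmN, ← hN] at hnorm
  have h1 : (nm y).natAbs = N * nI a := by
    have h2 : N * (nm y).natAbs = N * (N * nI a) := by
      calc N * (nm y).natAbs = (nm y).natAbs * N := mul_comm _ _
        _ = N ^ 2 * nI a := hnorm
        _ = N * (N * nI a) := by ring
    exact Nat.eq_of_mul_eq_mul_left (Nat.pos_of_ne_zero hN0) h2
  have h2 : (nm y).natAbs ≤ C * N := by
    have h3 := nm_bound r y hyr hyi
    have h4 : ((nm y).natAbs : ℤ) = nm y := Int.natAbs_of_nonneg (nm_nonneg h y)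
    have h5 : ((r : ℤ)) ^ 2 ≤ (N : ℤ) := by
      have : ((r * r : ℕ) : ℤ) ≤ (N : ℤ) := by exact_mod_cast hr1
      push_cast at this
      nlinarith
    have h6 : ((nm y).natAbs : ℤ) ≤ (C : ℤ) * N := by
      rw [h4, hCz]
      refine h3.trans (mul_le_mul_of_nonneg_left h5 ?_)
      positivity
    exact_mod_cast h6
  have h3 : nI a ≤ C := by
    rw [h1, mul_comm C N] at h2
    exact Nat.le_of_mul_le_mul_left h2 (Nat.pos_of_ne_zero hN0)
  have h4 : nI a ∣ C.factorial :=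
    Nat.dvd_factorial (Nat.pos_of_ne_zero (nI_ne_zero h ha0)) h3
  have h5 : ((C.factorial : ℕ) : OO A B) ∈ a := by
    obtain ⟨k, hk⟩ := h4
    rw [hk, Nat.cast_mul]
    exact a.mul_mem_right _ (nI_mem h ha0)
  exact ⟨a, Finset.mem_filter.mpr ⟨hfin.mem_toFinset.mpr h5, ha0⟩, y, ((N : ℕ) : OO A B), hy0,
    natCast_ne_zero' h hN0, heq⟩

end Pool.Agent.MUXC


end

section

/-!
# MUX, block XC, module CJN: conjugates of normalised lattices
-/

set_option autoImplicit false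

open Polynomial NumberField IsDedekindDomain

namespace Pool.Agent.MUXC

open _root_.MU3 _root_.Pool.Agent.MU3A _root_.Pool.Agent.MU3B _root_.Pool.Agent.MUX _root_.Pool.Agent.MUXU _root_.Pool.Agent.RI
open _root_.Pool.Agent.MUXE (NL Sxe_RNG)

noncomputable section

namespace CJN

lemma emb_fix {A B : ℤ} {σ : ℂ ≃+* ℂ} (hσ : FixK A B σ) (x : OO A B) : σ (emb x) = emb x := by
  have h : σ (wC A B) = wC A B := hσ
  unfold emb
  rw [map_add, map_mul, map_intCast, map_intCast, h]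

lemma sig_kap (σ : ℂ ≃+* ℂ) (L : PeriodPair) : σ (kap L) = (12 * σ L.g₂ - 1) / 1728 := by
  unfold kap
  rw [map_div₀, map_sub, map_mul, map_one, map_ofNat, map_ofNat]

lemma g2_of_kap {σ : ℂ ≃+* ℂ} {L L' : PeriodPair} (h : kap L' = σ (kap L)) :
    L'.g₂ = σ L.g₂ := by
  rw [sig_kap] at h
  unfold kap at h
  linear_combination (1728 / 12) * h

lemma nrm_map {σ : ℂ ≃+* ℂ} {L : PeriodPair} (h : L.g₂ = -18 * L.g₃) :
    σ L.g₂ = -18 * σ L.g₃ := by
  rw [h, map_mul, map_neg, map_ofNat]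

lemma isCj {σ : ℂ ≃+* ℂ} {L L' : PeriodPair} (h : L.g₂ = -18 * L.g₃) (h' : L'.g₂ = -18 * L'.g₃)
    (hk : kap L' = σ (kap L)) : IsCj σ L L' := by
  have e1 := g2_of_kap hk
  have e2 : σ L.g₂ = -18 * σ L.g₃ := nrm_map h
  refine ⟨e1, ?_⟩
  linear_combination (-1 / 18) * e1 + (1 / 18) * h' - (1 / 18) * e2

end CJN

open _root_.Pool.Agent.MUXC.CJN in
theorem tc_CJN (h1 : Su_CJE) (h2 : Su_PHI) (h3 : Su_CMC) (h4 : Su_DET) (h5 : Sc_ISL) :
    Sc_CJN := by
  intro A B hQ
  refine ⟨?_, ?_, ?_⟩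
  · intro σ hσ b L om hL
    refine ⟨emb_fix hσ, ?_⟩
    obtain ⟨L', hc⟩ := h1 σ L
    obtain ⟨Φ, hΦ⟩ := h2 σ L L' hc
    have hcm : HasCM A B L := hL.toIsLI.hasCM hQ
    have hcm' : HasCM A B L' := by
      intro x
      exact (h3 σ L L' Φ (emb x) (fun w hw => hcm x w hw) (emb_fix hσ x) hc hΦ).1
    obtain ⟨b', om', hL'⟩ := h5 A B hQ L' hcm'
    refine ⟨b', L', om', ⟨hL', ?_⟩, hc, ?_⟩
    · rw [hc.1, hc.2]
      exact nrm_map hL.nrm
    · rw [sig_kap, ← hc.1]
      rfl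
  · intro σ L L' h h' hk
    exact isCj h h' hk
  · intro L L' h h' hk
    have hc : IsCj (RingEquiv.refl ℂ) L L' := isCj h h' hk.symm
    have e := h4 L L' hc.1.symm hc.2.symm
    have e1 : ∀ z, z ∈ L.lattice ↔ z ∈ L'.lattice := fun z => by rw [e]
    obtain ⟨p1, p2, -, -⟩ := ta_SCP L L' 1 one_ne_zero (fun u => by rw [one_mul]; exact e1 u)
    refine ⟨e1, fun z => ?_⟩
    have q1 := p1 z
    have q2 := p2 z
    rw [one_mul, one_pow, div_one] at q1 q2
    unfold xn yy
    rw [q1, q2]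
    exact ⟨rfl, rfl⟩

end

end Pool.Agent.MUXC


end

section

/-!
# MUX, block XC: module ACT, the field `act` of `TorX`
-/

set_option autoImplicit false

open Polynomial NumberField IsDedekindDomain

namespace Pool.Agent.MUXC

open _root_.MU3 _root_.Pool.Agent.MU3A _root_.Pool.Agent.MU3B _root_.Pool.Agent.MUX _root_.Pool.Agent.MUXU _root_.Pool.Agent.RI

theorem tc_ACT (h1 : Sc_CJN) (h2 : Sc_EXA) (h3 : Sc_IND) : Sc_ACT := by
  intro A B hC m hm σ hσ
  by_cases hne : ∃ (b : Ideal (OO A B)) (L : PeriodPair) (om : ℂ), IsNL b L om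
  · obtain ⟨b, L, om, hL⟩ := hne
    obtain ⟨-, b', L', om', hL', -, hk⟩ := (h1 A B hC).1 σ hσ b L om hL
    obtain ⟨a, mu, ha⟩ := h2 A B hC σ hσ m b b' L L' om om' hm hL hL' hk
    refine ⟨a, ha.cop, fun c M omm hM => ?_⟩
    obtain ⟨-, c', M', omm', hM', -, hk'⟩ := (h1 A B hC).1 σ hσ c M omm hM
    obtain ⟨nu, hnu⟩ := h3 A B hC σ hσ m a b b' c c' L L' M M' om om' omm omm' mu hm hL hL'
      hM hM' ha hk'
    exact ⟨c', M', omm', nu, hM', hnu⟩
  · refine ⟨⊤, ?_, fun b L om hL => absurd ⟨b, L, om, hL⟩ hne⟩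
    rw [← Ideal.one_eq_top]
    exact isCoprime_one_left

end Pool.Agent.MUXC


end

section

/-!
# MUX, block XC: the main theorem of complex multiplication `TorX A B` for every `CQ A B`, without
hypotheses (helper51)
-/

set_option autoImplicit false

namespace Pool.Agent.MUXC

open _root_.MU3 _root_.Pool.Agent.MU3A _root_.Pool.Agent.MU3B _root_.Pool.Agent.MUX _root_.Pool.Agent.MUXU _root_.Pool.Agent.RI
open _root_.Pool.Agent.MUXV _root_.Pool.Agent.MUXF
open _root_.Pool.Agent.MUXE (NL Sxe_RNG te_RNG)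

theorem c_NGR : Sx_NGR := tx_NGR x_XIC
theorem c_FRX : Sq_FRX := tq_FRX q_ISQ q_VQI c_NGR x_FRN
theorem c_SAM : Pool.Agent.MUXY.Sy_SAM := Pool.Agent.MUXY.ty_SAM xf_ALG
theorem c_MUC : Pool.Agent.MUXY.Sy_MUC := Pool.Agent.MUXY.ty_MUC xf_ALG u_PHI u_FUN u_TSN u_CMC

theorem c_CLF : Sc_CLF := tc_CLF
theorem c_COP : Sc_COP := tc_COP te_RNG
theorem c_TRO : Sc_TRO := tc_TRO
theorem c_GEN : Sc_GEN := tc_GEN c_TRO te_RNG
theorem c_ENO : Sc_ENO := tc_ENO
theorem c_INV : Sc_INV := tc_INV c_TRO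
theorem c_QCR : Sc_QCR := tc_QCR c_TRO
theorem c_QEX : Sc_QEX := tc_QEX c_COP c_QCR
theorem c_QNE : Sc_QNE := tc_QNE
theorem c_ISL : Sc_ISL := tc_ISL
theorem c_SGQ : Sc_SGQ := tc_SGQ
theorem c_CJN : Sc_CJN := tc_CJN u_CJE u_PHI u_CMC u_DET c_ISL
theorem c_PMF : Sc_PMF := tc_PMF u_EQP
theorem c_PHM : Sc_PHM := tc_PHM
theorem c_IND : Sc_IND := tc_IND c_QEX c_QNE c_CJN c_PMF u_PHI u_FUN c_MUC
theorem c_EXA : Sc_EXA := tc_EXA c_QEX c_GEN c_CJN c_PMF c_PHM u_PHI
theorem c_ACT : Sc_ACT := tc_ACT c_CJN c_EXA c_IND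
theorem c_CMP : Sc_CMP := tc_CMP
theorem c_CHG : Sc_CHG := tc_CHG
theorem c_UNQ : Sc_UNQ := tc_UNQ c_QNE c_ENO c_INV c_GEN u_EQP
theorem c_TRV : Sc_TRV := tc_TRV c_CJN c_SGQ c_QNE c_ENO c_INV c_GEN c_IND
theorem c_NRL : Sc_NRL := tc_NRL c_GEN
theorem c_FNG : Sc_FNG := tc_FNG c_CLF c_GEN c_SAM
theorem c_FGL : Sc_FGL := tc_FGL c_FNG c_ACT u_AUT u_AUE
theorem c_CMM : Sc_CMM := tc_CMM c_FGL c_ACT c_CMP c_SGQ u_AUE
theorem c_EXT : Sc_EXT := tc_EXT c_FGL u_AUE
theorem c_NEX : Sc_NEX := tc_NEX u_DET c_ENO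
theorem c_BAD : Sc_BAD := tc_BAD c_FNG c_FGL q_ALU c_NGR
theorem c_FEX : Sc_FEX := tc_FEX te_RNG
theorem c_FRO : Sc_FRO :=
  tc_FRO c_BAD c_CJN c_NEX c_EXA c_PMF c_PHM c_GEN c_QCR c_QNE c_FRX q_VQI u_PHI
theorem c_RP1 : Sc_RP1 := tc_RP1 te_RNG
theorem c_RP2 : Sc_RP2 := tc_RP2
theorem c_RP3 : Sc_RP3 := tc_RP3 te_RNG
theorem c_REP : Sc_REP := tc_REP c_COP c_RP1 c_RP2 c_RP3
theorem c_SUR : Sc_SUR := tc_SUR c_FRO c_REP c_FEX c_FGL c_CMP c_CHG u_AUE
theorem c_DNX : Sc_DNX := tc_DNX te_RNG (Pool.Agent.MU3.m_DENSF Pool.Agent.MU3.finNSP)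
theorem c_NMC : Sc_NMC := tc_NMC
theorem c_ZET : Sc_ZET :=
  tc_ZET c_FRO c_DNX c_FGL c_ACT c_CMP c_UNQ c_NMC c_NRL c_QNE c_TRV c_CJN u_AUE u_AUF

/-- the main theorem of complex multiplication -/
theorem c_TOR : Sc_TOR := tc_TOR c_FGL c_CMM c_EXT c_ACT c_SUR c_CMP c_CHG c_UNQ c_TRV c_ZET

end Pool.Agent.MUXC


end
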