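import Mathlib
import Pool.Agent.MVF.C073
import Pool.Agent.MVF.C077
import Pool.Agent.MVF.C078
import Pool.Agent.MVF.C079
import Pool.Agent.MVF.C080
import Pool.Agent.MVF.C090

/-! Parts: MUX.Y_TRN, MUX.Y_QPR, MUX.Y_MLR, MUX.Y_EI0, MUX.ZY, MUX.ZDefsW, MUX.ZUni, ME2.JFinE, HB.StJT, HB.J_FRJ, HB.J_JTA -/

namespace Pool.Agent.JT.FRJ
end Pool.Agent.JT.FRJ
namespace Pool.Agent.JT.JTA
end Pool.Agent.JT.JTA
namespace Pool.Agent.MUXY.REI0
end Pool.Agent.MUXY.REI0

section

/-!
# MUX, module TRN: comparison of two ideals of the same class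
-/

set_option autoImplicit false

namespace Pool.Agent.MUXY

open _root_.MU3 _root_.Pool.Agent.MU3A _root_.Pool.Agent.MU3B _root_.Pool.Agent.MUXU OnePoint
open _root_.Pool.Agent.MUX (CQ CaseP nI cjI sp IsLI IsNL IsEI PhiI Reps TorX)
open _root_.Pool.Agent.MUXF (qb)

noncomputable section

/-- TRN. -/
theorem ty_TRN : Sy_TRN := by
  intro A B hc b c g e hb hcb he hCl hbg hNg
  have hF := cqF hc
  obtain ⟨hA1, hA2, hA3, -, hdom⟩ := Pool.Agent.MUXF.xf_ALG A B hF
  have _ := hdom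
  obtain ⟨hN0, hNc⟩ := Pool.Agent.MUXF.xf_IDL A B hF c hcb
  replace hN0 : nI c ≠ 0 := hN0
  replace hNc : c * cjI c = sp ((nI c : ℕ) : OO A B) := hNc
  obtain ⟨x, y, hx, hy, hxy⟩ := hCl
  have hNN : ((nI c : ℕ) : OO A B) ≠ 0 := by
    intro h
    have h1 := (hA3 (nI c : ℤ)).2
    rw [Int.cast_natCast, h, (hA2 0).2.1.2 rfl] at h1
    have h2 : ((nI c : ℕ) : ℤ) = 0 := by
      have h3 : ((nI c : ℕ) : ℤ) ^ 2 = 0 := h1.symm
      exact pow_eq_zero_iff (two_ne_zero) |>.1 h3
    exact hN0 (by exact_mod_cast h2)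
  have h1 : sp x * (b * cjI c) = sp (y * ((nI c : ℕ) : OO A B)) := by
    rw [← mul_assoc, hxy, mul_assoc, hNc, Ideal.span_singleton_mul_span_singleton]
  have h2 : y * ((nI c : ℕ) : OO A B) ∈ sp x := by
    have h3 : y * ((nI c : ℕ) : OO A B) ∈ sp x * (b * cjI c) := by
      rw [h1]
      exact Ideal.mem_span_singleton_self _
    have h4 : sp x * (b * cjI c) ≤ sp x := Ideal.mul_le_left
    exact h4 h3
  obtain ⟨t, ht⟩ := Ideal.mem_span_singleton'.1 h2
  have h3 : b * cjI c = sp t := by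
    have h4 : sp x * (b * cjI c) = sp x * sp t := by
      rw [h1, Ideal.span_singleton_mul_span_singleton, ← ht, mul_comm t x]
    exact (Ideal.span_singleton_mul_right_inj hx).1 h4
  have h4 : sp ((nI c : ℕ) : OO A B) * b = sp t * c := by
    rw [← hNc, ← h3]
    ring
  have ht0 : t ≠ 0 := by
    rintro rfl
    rw [zero_mul] at ht
    exact (mul_ne_zero hy hNN) ht.symm
  have h5 : IsCoprime (sp t) g := by
    rw [← h3]
    refine IsCoprime.mul_left hbg ?_
    rw [← hNc] at hNg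
    exact IsCoprime.of_mul_left_right hNg
  refine ⟨t, ht0, (he.supp t).2 h5, (he.supp _).2 hNg, h4, ?_⟩
  intro u v
  have h6 := (Pool.Agent.MUXF.xf_PRI A B hF b g e ((nI c : ℕ) : OO A B) hb (eiF he) hNN).2 u v
  have h7 := (Pool.Agent.MUXF.xf_PRI A B hF c g e t hcb (eiF he) ht0).2 u v
  have h8 : emb ((nI c : ℕ) : OO A B) = ((nI c : ℕ) : ℂ) := by
    have h9 := (hA3 (nI c : ℤ)).1
    rw [Int.cast_natCast, Int.cast_natCast] at h9
    exact h9
  have h10 : Pool.Agent.MUXF.PhiI (sp ((nI c : ℕ) : OO A B) * b) e u v =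
      Pool.Agent.MUXF.PhiI (sp t * c) e u v := by rw [h4]
  have h11 : (starRingEnd ℂ) (emb ((nI c : ℕ) : OO A B)) = ((nI c : ℕ) : ℂ) := by
    rw [h8]
    exact map_natCast _ _
  have h12 : e ((nI c : ℕ) : OO A B) * (starRingEnd ℂ) (emb ((nI c : ℕ) : OO A B)) *
      PhiI b e u v = e t * (starRingEnd ℂ) (emb t) * PhiI c e u v :=
    h6.symm.trans (h10.trans h7)
  rw [h11] at h12
  exact h12

end

end Pool.Agent.MUXY


end

section

/-!
# MUX, class representatives, module QPR: the form `qb J` is primitive (helper2)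
-/

set_option autoImplicit false

namespace Pool.Agent.MUXY

open _root_.MU3 _root_.Pool.Agent.MU3A _root_.Pool.Agent.MU3B _root_.Pool.Agent.MUXU OnePoint
open _root_.Pool.Agent.MUX (CQ CaseP nI cjI sp IsLI IsNL IsEI PhiI Reps TorX)
open _root_.Pool.Agent.MUXF (qb)

noncomputable section

/-- (QPR) the form `qb J` is primitive -/
theorem ty_QPR : Sy_QPR := by
  intro A B hC J hJ q hq
  by_contra hcon
  push Not at hcon
  have hF := cqF hC
  obtain ⟨hmul, hz, hint, -, hdom⟩ := Pool.Agent.MUXF.xf_ALG A B hF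
  have hdom' : IsDomain (OO A B) := hdom
  obtain ⟨hN0, hI⟩ := Pool.Agent.MUXF.xf_IDL A B hF J hJ
  have hQ := (Pool.Agent.MUXF.xf_QB A B hF J hJ).1
  have hNO : ((Pool.Agent.MUXF.nI J : ℕ) : OO A B) ≠ 0 := by
    intro h
    have h1 := (hint (Pool.Agent.MUXF.nI J : ℤ)).2
    rw [Int.cast_natCast, h, (hz 0).2.1.2 rfl] at h1
    have h2 : ((Pool.Agent.MUXF.nI J : ℤ)) ^ 2 = 0 := h1.symm
    have h3 := pow_eq_zero_iff (two_ne_zero) |>.1 h2
    exact hN0 (by exact_mod_cast h3)
  have hNZ : ((Pool.Agent.MUXF.nI J : ℕ) : ℤ) ≠ 0 := by exact_mod_cast hN0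
  generalize Pool.Agent.MUXF.nI J = N at hN0 hI hQ hNO hNZ
  have key : ∀ r ∈ J * Pool.Agent.MUXF.cjI J,
      ∃ t ∈ (Ideal.span {((q : ℕ) : OO A B)}).radical, r = (N : OO A B) * t := by
    intro r hr
    refine Submodule.mul_induction_on hr ?_ ?_
    · intro y hy y'' hy''
      have h1 : y * y'' ∈ Pool.Agent.MUXF.sp ((N : ℕ) : OO A B) := by
        rw [← hI]; exact Ideal.mul_mem_mul hy hy''
      obtain ⟨t, ht⟩ := Ideal.mem_span_singleton.1 h1
      refine ⟨t, ?_, ht⟩
      have hzJ : star y'' ∈ J := by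
        unfold Pool.Agent.MUXF.cjI at hy''
        rwa [Ideal.mem_comap, starRingEnd_apply] at hy''
      obtain ⟨z, hzz⟩ : ∃ z, z = star y'' := ⟨_, rfl⟩
      have hy2 : y'' = star z := by rw [hzz, star_star]
      rw [← hzz] at hzJ
      rw [hy2] at ht
      have e1 := (hQ y hy).1
      have e2 := (hQ z hzJ).1
      have e3 := (hQ (y + z) (J.add_mem hy hzJ)).1
      obtain ⟨k1, hk1⟩ := hcon y hy
      obtain ⟨k2, hk2⟩ := hcon z hzJ
      obtain ⟨k3, hk3⟩ := hcon (y + z) (J.add_mem hy hzJ)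
      rw [hk1] at e1
      rw [hk2] at e2
      rw [hk3] at e3
      -- the norm of `t`
      have f1 : nm t = q * (k1 * (q * k2)) := by
        have g1 : nm (y * star z) = nm ((N : OO A B) * t) := by rw [ht]
        rw [(hmul _ _).2.2, (hmul _ _).2.2, (hz z).2.2.2.2.2.2, e1, e2] at g1
        have g2 := (hint (N : ℤ)).2
        rw [Int.cast_natCast] at g2
        rw [g2] at g1
        have g3 : ((N : ℤ) ^ 2) * nm t = (N : ℤ) ^ 2 * (q * (k1 * (q * k2))) := by
          linear_combination -g1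
        exact mul_left_cancel₀ (pow_ne_zero 2 hNZ) g3
      -- the trace of `t`
      have f2 : t + star t = ((q * (k3 - k1 - k2) : ℤ) : OO A B) := by
        apply mul_left_cancel₀ hNO
        have g1 : star ((N : OO A B) * t) = (N : OO A B) * star t := by
          rw [star_mul, star_natCast, mul_comm]
        have g2 : star (y * star z) = star y * z := by
          rw [star_mul, star_star, mul_comm]
        have g3 : star y * z = (N : OO A B) * star t := by rw [← g1, ← g2, ht]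
        have s1 := (hz y).2.2.2.2.1
        have s2 := (hz z).2.2.2.2.1
        have s3 := (hz (y + z)).2.2.2.2.1
        rw [e1] at s1
        rw [e2] at s2
        rw [e3, star_add] at s3
        push_cast at s1 s2 s3 ⊢
        linear_combination s3 - s1 - s2 - ht - g3
      rw [Ideal.mem_radical_iff]
      refine ⟨2, Ideal.mem_span_singleton.2 ?_⟩
      have f3 := (hz t).2.2.2.2.1
      rw [f1] at f3
      refine ⟨((k3 - k1 - k2 : ℤ) : OO A B) * t - ((k1 * (q * k2) : ℤ) : OO A B), ?_⟩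
      push_cast at f2 f3 ⊢
      linear_combination t * f2 - f3
    · rintro x y ⟨t, ht, hx⟩ ⟨t', ht', hy⟩
      exact ⟨t + t', Ideal.add_mem _ ht ht', by rw [hx, hy]; ring⟩
  obtain ⟨t, ht, h1⟩ := key (N : OO A B) (by rw [hI]; exact Ideal.mem_span_singleton_self _)
  have h2 : t = 1 := by
    apply mul_left_cancel₀ hNO
    rw [← h1, mul_one]
  rw [h2, Ideal.mem_radical_iff] at ht
  obtain ⟨n, hn⟩ := ht
  rw [one_pow] at hn
  obtain ⟨x, hx⟩ := Ideal.mem_span_singleton.1 hn
  have h3 : nm (1 : OO A B) = nm (((q : ℕ) : OO A B) * x) := by rw [← hx]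
  have h4 := (hint 1).2
  have h5 := (hint (q : ℤ)).2
  rw [Int.cast_one] at h4
  rw [Int.cast_natCast] at h5
  rw [(hmul _ _).2.2, h4, h5] at h3
  have h6 : (q : ℤ) ∣ 1 := ⟨q * nm x, by linear_combination h3⟩
  exact (Nat.prime_iff_prime_int.1 hq).not_isUnit (isUnit_of_dvd_one h6)

end

end Pool.Agent.MUXY


end

section

/-!
# MUX, module MLR (helper55): the multipliers of an ideal are in `O`
-/

set_option autoImplicit false

namespace Pool.Agent.MUXY

open _root_.MU3 _root_.Pool.Agent.MU3A _root_.Pool.Agent.MU3B _root_.Pool.Agent.MUXU OnePoint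
open _root_.Pool.Agent.MUX (CQ CaseP nI cjI sp IsLI IsNL IsEI PhiI Reps TorX)

theorem ty_MLR : Sy_MLR := by
  intro A B hQ b s hb hs
  obtain ⟨h1, h2, h3, _, _⟩ := MUXF.xf_ALG A B (cqF hQ)
  obtain ⟨hN, hI⟩ := MUXF.xf_IDL A B (cqF hQ) b hb
  have key : ∀ r ∈ b * MUXF.cjI b, ∃ r' ∈ b * MUXF.cjI b, s * emb r = emb r' := by
    intro r hr
    refine Submodule.mul_induction_on hr ?_ ?_
    · intro x hx y hy
      obtain ⟨x', hx', e⟩ := hs x hx
      exact ⟨x' * y, Ideal.mul_mem_mul hx' hy, by rw [(h1 _ _).1, (h1 _ _).1, ← e]; ring⟩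
    · rintro x y ⟨x', hx', ex⟩ ⟨y', hy', ey⟩
      exact ⟨x' + y', add_mem hx' hy', by rw [(h1 _ _).2.1, (h1 _ _).2.1, ← ex, ← ey]; ring⟩
  rw [hI] at key
  obtain ⟨r', hr', e⟩ := key ((MUXF.nI b : ℕ) : OO A B) (Ideal.mem_span_singleton_self _)
  obtain ⟨t, rfl⟩ := Ideal.mem_span_singleton'.1 hr'
  refine ⟨t, ?_⟩
  have hc : emb ((MUXF.nI b : ℕ) : OO A B) = ((MUXF.nI b : ℕ) : ℂ) := by
    have := (h3 ((MUXF.nI b : ℕ) : ℤ)).1
    push_cast at this
    exact this
  rw [(h1 _ _).1, hc] at e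
  exact mul_right_cancel₀ (Nat.cast_ne_zero.2 hN) e

end Pool.Agent.MUXY


end

section

/-!
# MUX, module EI0 (helper48): facts on characters
-/

set_option autoImplicit false

namespace Pool.Agent.MUXY

open _root_.MU3 _root_.Pool.Agent.MU3A _root_.Pool.Agent.MU3B _root_.Pool.Agent.MUXU OnePoint
open _root_.Pool.Agent.MUX (CQ CaseP nI cjI sp IsLI IsNL IsEI PhiI Reps TorX)
open _root_.Pool.Agent.MUXF (qb)

noncomputable section

namespace REI0

variable {A B : ℤ} {g : Ideal (OO A B)} {e : OO A B → ℂ}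

theorem epow (he : _root_.Pool.Agent.MUX.IsEI g e) (x : OO A B) (k : ℕ) : e (x ^ k) = e x ^ k := by
  induction k with
  | zero => rw [pow_zero, pow_zero, he.one]
  | succ k ih => rw [pow_succ, he.mul, ih, pow_succ]

theorem fin_range (hc : _root_.Pool.Agent.MUX.CQ A B) (hg : g ≠ ⊥) (he : _root_.Pool.Agent.MUX.IsEI g e) : (Set.range e).Finite := by
  have hfin : Finite (OO A B ⧸ g) := (Pool.Agent.MUXF.xf_ALG A B (cqF hc)).2.2.2.1 g hg
  have h1 : Set.range e ⊆ Set.range (fun q : OO A B ⧸ g => e (Quotient.out q)) := by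
    rintro _ ⟨x, rfl⟩
    refine ⟨Ideal.Quotient.mk g x, ?_⟩
    refine he.per _ _ ?_
    rw [← Ideal.Quotient.eq]
    exact Quotient.out_eq _
  exact (Set.finite_range _).subset h1

theorem tors (hc : _root_.Pool.Agent.MUX.CQ A B) (hg : g ≠ ⊥) (he : _root_.Pool.Agent.MUX.IsEI g e) (z : ℂ) (hz : z ∈ Set.range e)
    (h0 : z ≠ 0) : ∃ r : ℕ, r ≠ 0 ∧ z ^ r = 1 := by
  obtain ⟨x, rfl⟩ := hz
  have hf := fin_range hc hg he
  have hf' : Finite (Set.range e) := hf
  obtain ⟨i, j, hij, h⟩ := Finite.exists_ne_map_eq_of_infinite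
    (fun k : ℕ => (⟨e x ^ k, x ^ k, epow he x k⟩ : Set.range e))
  have h' : e x ^ i = e x ^ j := congrArg Subtype.val h
  have key : ∀ i j : ℕ, i < j → e x ^ i = e x ^ j → ∃ r : ℕ, r ≠ 0 ∧ e x ^ r = 1 := by
    intro i j hlt h'
    refine ⟨j - i, by omega, ?_⟩
    have h2 : e x ^ j = e x ^ i * e x ^ (j - i) := by rw [← pow_add]; congr 1; omega
    rw [h2] at h'
    have h3 : e x ^ i ≠ 0 := pow_ne_zero _ h0
    exact (mul_left_cancel₀ h3 (by rw [mul_one]; exact h')).symm
  rcases lt_or_gt_of_ne hij with hlt | hlt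
  · exact key i j hlt h'
  · exact key j i hlt h'.symm

theorem zero_of {b : Ideal (OO A B)} (he : _root_.Pool.Agent.MUX.IsEI g e) (hb : ¬ IsCoprime b g) {x : OO A B}
    (hx : x ∈ b) : e x = 0 := by
  by_contra h
  have h1 := (he.supp x).1 h
  apply hb
  rw [Ideal.isCoprime_iff_sup_eq] at h1 ⊢
  rw [eq_top_iff, ← h1]
  exact sup_le_sup_right ((Ideal.span_singleton_le_iff_mem (I := b)).2 hx) g

theorem theta_zero {b : Ideal (OO A B)} (he : _root_.Pool.Agent.MUX.IsEI g e) (hb : ¬ IsCoprime b g) (z : ℂ) :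
    Pool.Agent.MUX.thetaI b e z = 0 := by
  unfold Pool.Agent.MUX.thetaI
  have h1 : ∀ x : b, e x * (starRingEnd ℂ) (emb (x : OO A B)) *
    Complex.exp (2 * Real.pi * Complex.I * ((nm (x : OO A B) : ℂ) / _root_.Pool.Agent.MUX.nI b) * z) = 0 := by
    intro x
    rw [zero_of he hb x.2]
    ring
  rw [tsum_congr h1, tsum_zero, mul_zero]

theorem Ic_zero {b : Ideal (OO A B)} (he : _root_.Pool.Agent.MUX.IsEI g e) (hb : ¬ IsCoprime b g) (x : OnePoint ℚ) :
    Pool.Agent.MUX.IcI b e x = 0 := by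
  unfold Pool.Agent.MUX.IcI
  have h1 : ∀ r : ℚ, Pool.Agent.MUX.IvI b e r = 0 := by
    intro r
    unfold Pool.Agent.MUX.IvI
    simp only [theta_zero he hb]
    simp
  rcases x with _ | r
  · rfl
  · exact h1 r

end REI0

open _root_.Pool.Agent.MUXY.REI0 in
theorem ty_EI0 : Sy_EI0 := by
  classical
  intro A B hc g e hg he
  refine ⟨?_, ?_, ?_⟩
  · intro htop
    have h1 := he.per 1 (-1) (by rw [htop]; trivial)
    rw [he.one, he.neg] at h1
    norm_num at h1
  · have hf := fin_range hc hg he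
    have ht : ∀ z : ℂ, ∃ r : ℕ, r ≠ 0 ∧ (z ∈ Set.range e → z ≠ 0 → z ^ r = 1) := by
      intro z
      by_cases h : z ∈ Set.range e ∧ z ≠ 0
      · obtain ⟨r, hr, hr'⟩ := tors hc hg he z h.1 h.2
        exact ⟨r, hr, fun _ _ => hr'⟩
      · exact ⟨1, one_ne_zero, fun h1 h2 => absurd ⟨h1, h2⟩ h⟩
    choose r hr0 hr using ht
    refine ⟨∏ z ∈ hf.toFinset, r z, Finset.prod_ne_zero_iff.2 fun z _ => hr0 z, ?_⟩
    intro x hx
    have hmem : e x ∈ hf.toFinset := by
      rw [Set.Finite.mem_toFinset]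
      exact ⟨x, rfl⟩
    rw [← Finset.mul_prod_erase _ _ hmem, pow_mul, hr _ ⟨x, rfl⟩ hx, one_pow]
  · intro b hb x y
    unfold Pool.Agent.MUX.PhiI
    rw [Ic_zero he hb, Ic_zero he hb, sub_zero]

end

end Pool.Agent.MUXY


end

section

/-!
# MUX, section 9 without hypotheses (helper3)
-/

set_option autoImplicit false

namespace Pool.Agent.MUXY

open _root_.Pool.Agent.MUXF _root_.Pool.Agent.MUXU _root_.Pool.Agent.MUXC _root_.Pool.Agent.MU3B

theorem z_IDF : Sy_IDF := ty_IDF xf_ALG xf_IDL xf_NIM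
theorem z_BIJ : Sy_BIJ := ty_BIJ xf_ALG z_IDF
theorem z_BRI : Sy_BRI := ty_BRI xf_ALG
theorem z_EXI : Sy_EXI := ty_EXI c_SAM z_BRI
theorem z_MUU : Sy_MUU := ty_MUU
theorem z_MUI : Sy_MUI := ty_MUI xf_ALG xf_IDL
theorem z_ALM : Sy_ALM := ty_ALM xf_ALG xf_IDL z_EXI c_MUC z_MUU z_MUI u_AUT
theorem z_MAP : Sy_MAP := ty_MAP xf_ALG xf_NIM
theorem z_EE : Sy_EE := ty_EE u_PHI u_TSN u_EQP
theorem z_QBF : Sy_QBF := ty_QBF xf_ALG xf_IDL xf_QB z_IDF
theorem z_SUM : Sy_SUM := ty_SUM xf_SMB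
theorem z_TER : Sy_TER := ty_TER xf_ALG z_EE z_QBF
theorem z_PR4 : Sy_PR4 := ty_PR4 xf_ALG xf_QB
theorem z_EIC : Sy_EIC := ty_EIC
theorem z_RA1 : Sy_RA1 := ty_RA1 xf_SMB xf_F4 z_BIJ z_SUM z_TER z_PR4 z_EIC
theorem z_UV : Sy_UV := ty_UV xf_IDL xf_NIM
theorem z_RAT : Sy_RAT := ty_RAT xf_IDL z_MAP z_IDF z_UV z_RA1
theorem z_FIN : Sy_FIN := ty_FIN xf_IDL xf_NIM z_RAT z_EXI
theorem z_FEC : Sy_FEC := ty_FEC
theorem z_ALP : Sy_ALP := ty_ALP z_FIN z_FEC z_ALM u_AUT
theorem z_UNJ : Sy_UNJ := ty_UNJ xf_ALG xf_IDL u_DET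
theorem z_CON : Sy_CON := ty_CON z_FIN z_UNJ z_EIC
theorem z_COP : Sy_COP := ty_COP
theorem z_CPD : Sy_CPD := ty_CPD
theorem z_MLR : Sy_MLR := ty_MLR
theorem z_NZL : Sy_NZL := ty_NZL z_MLR
theorem z_NLE : Sy_NLE := ty_NLE z_NZL
theorem z_NLD : Sy_NLD := ty_NLD
theorem z_SML : Sy_SML := ty_SML
theorem z_DVI : Sy_DVI := ty_DVI
theorem z_FCL : Sy_FCL := ty_FCL z_SML z_DVI
theorem z_QPR : Sy_QPR := ty_QPR
theorem z_QCO : Sy_QCO := ty_QCO z_QPR
theorem z_CLN : Sy_CLN := ty_CLN z_DVI z_QCO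
theorem z_REX : Sy_REX := ty_REX z_NLE z_FCL z_CLN
theorem z_EI0 : Sy_EI0 := ty_EI0
theorem z_TRN : Sy_TRN := ty_TRN
theorem z_LAF : Sy_LAF := ty_LAF z_NLE c_SAM z_FCL
theorem z_ALQ : Sy_ALQ := ty_ALQ z_NLD z_REX z_LAF z_EI0 z_TRN z_COP z_ALM z_ALP

end Pool.Agent.MUXY


end

section

/-!
# MUX: definitions for the main theorem (helper3)

`k = ℚ(√-d)`, `d` squarefree, `d ≠ 1, 3`. A lattice `L` in `ℂ` (`PeriodPair` of Mathlib) has complex multiplication by the
ring of integers `ℤ[w]` of `k` if `w L ⊆ L`. `weberField d` is generated over `k` by the numbers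
`j(L)/1728 = g₂³/(g₂³ - 27 g₃²)` and by the values at the points of finite order of the Weber functions
`(g₂ g₃/(g₂³ - 27 g₃²)) ℘_L(z)`. It is the maximal abelian extension of `k` (Weber, Fueter, Hasse).
-/

set_option autoImplicit false

namespace Pool.Agent.MUXZ

open _root_.Pool.Agent.MU3Z

/-- The generator `w` of the ring of integers `ℤ[w]` of `ℚ(√-d)`, `d` squarefree: `(1 + √-d)/2` if
`d ≡ 3` modulo `4`, and `√-d` otherwise. -/
noncomputable def wd (d : ℕ) : ℂ := if d % 4 = 3 then (1 + rt d) / 2 else rt d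

/-- The lattice `L` has complex multiplication by the ring of integers `ℤ[w]` of `ℚ(√-d)`. -/
def HasCM (d : ℕ) (L : PeriodPair) : Prop := ∀ z ∈ L.lattice, wd d * z ∈ L.lattice

/-- The discriminant `g₂³ - 27 g₃²` of the lattice `L`. -/
noncomputable def dsc (L : PeriodPair) : ℂ := L.g₂ ^ 3 - 27 * L.g₃ ^ 2

/-- The subfield of `ℂ` generated by `√-d`, the numbers `j(L)/1728` and the values at the points
of finite order of the Weber functions `(g₂ g₃ / (g₂³ - 27 g₃²)) ℘(z)`, for all lattices `L` with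
complex multiplication by the ring of integers of `ℚ(√-d)`. -/
noncomputable def weberField (d : ℕ) : IntermediateField ℚ ℂ :=
  IntermediateField.adjoin ℚ ({rt d} ∪ {t : ℂ | ∃ L : PeriodPair, HasCM d L ∧
    (t = L.g₂ ^ 3 / dsc L ∨
      ∃ (n : ℕ) (z : ℂ), n ≠ 0 ∧ n * z ∈ L.lattice ∧ z ∉ L.lattice ∧
        t = L.g₂ * L.g₃ / dsc L * L.weierstrassP z)})

end Pool.Agent.MUXZ


end

section

/-!
# MUX: `weberField d` is contained in the union of the ray class fields (helper3)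
-/

set_option autoImplicit false

namespace Pool.Agent.MUXZ

open _root_.MU3 _root_.Pool.Agent.MU3A _root_.Pool.Agent.MU3B _root_.Pool.Agent.MUX _root_.Pool.Agent.MUXJ _root_.Pool.Agent.MU3Z

/-- the parameters `A`, `B` of `ℚ(√-d)` -/
def pA (d : ℕ) : ℤ := if d % 4 = 3 then -((d + 1) / 4) else -d

def pB (d : ℕ) : ℤ := if d % 4 = 3 then 1 else 0

lemma absD_p (d : ℕ) : absD (pA d) (pB d) = if d % 4 = 3 then (d : ℤ) else 4 * d := by
  unfold absD pA pB
  split_ifs with h
  · have : (4 : ℤ) ∣ (d : ℤ) + 1 := by omega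
    obtain ⟨k, hk⟩ := this
    rw [hk]
    rw [Int.mul_ediv_cancel_left _ (by norm_num)]
    linarith
  · ring

lemma wC_p (d : ℕ) : wC (pA d) (pB d) = wd d := by
  unfold wC wd rt
  rw [absD_p]
  unfold pB
  split_ifs with h
  · push_cast
    ring
  · have : Real.sqrt ((4 * (d : ℤ) : ℤ) : ℝ) = 2 * Real.sqrt d := by
      push_cast
      rw [show (4 : ℝ) = 2 ^ 2 by norm_num, Real.sqrt_mul (by positivity), Real.sqrt_sq (by norm_num)]
    rw [this]
    push_cast
    ring

lemma cq_p {d : ℕ} (hd : Squarefree d) : CQ (pA d) (pB d) := by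
  have hd0 : d ≠ 0 := hd.ne_zero
  have h := absD_p d
  unfold absD at h
  refine ⟨?_, ?_, ?_, ?_⟩
  · unfold pB
    split_ifs <;> simp
  · split_ifs at h <;> omega
  · intro hB
    have h3 : d % 4 = 3 := by
      by_contra h3
      unfold pB at hB
      rw [if_neg h3] at hB
      exact zero_ne_one hB
    rw [hB, if_pos h3] at h
    have : (1 : ℤ) + 4 * pA d = -(d : ℤ) := by linarith
    rw [this, ← Int.squarefree_natAbs, Int.natAbs_neg, Int.natAbs_natCast]
    exact hd
  · intro hB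
    have h3 : ¬ d % 4 = 3 := by
      intro h3
      unfold pB at hB
      rw [if_pos h3] at hB
      exact one_ne_zero hB
    have hA : pA d = -(d : ℤ) := by
      unfold pA
      rw [if_neg h3]
    rw [hA]
    refine ⟨?_, by omega⟩
    rw [← Int.squarefree_natAbs, Int.natAbs_neg, Int.natAbs_natCast]
    exact hd

lemma kk_p (d : ℕ) : kk (pA d) (pB d) = IntermediateField.adjoin ℚ {rt d} := by
  unfold kk
  rw [wC_p]
  apply le_antisymm
  · rw [IntermediateField.adjoin_simple_le_iff]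
    have h1 : rt d ∈ IntermediateField.adjoin ℚ {rt d} :=
      IntermediateField.mem_adjoin_simple_self ℚ _
    unfold wd
    split_ifs
    · have h2 : (2 : ℂ) ∈ IntermediateField.adjoin ℚ {rt d} := by
        have := (IntermediateField.adjoin ℚ {rt d}).algebraMap_mem 2
        simpa using this
      exact div_mem (add_mem (one_mem _) h1) h2
    · exact h1
  · rw [IntermediateField.adjoin_simple_le_iff]
    have h1 : wd d ∈ IntermediateField.adjoin ℚ {wd d} :=
      IntermediateField.mem_adjoin_simple_self ℚ _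
    have h2 : (2 : ℂ) ∈ IntermediateField.adjoin ℚ {wd d} := by
      have := (IntermediateField.adjoin ℚ {wd d}).algebraMap_mem 2
      simpa using this
    have h3 : rt d = if d % 4 = 3 then 2 * wd d - 1 else wd d := by
      unfold wd
      split_ifs <;> ring
    rw [h3]
    split_ifs
    · exact sub_mem (mul_mem h2 h1) (one_mem _)
    · exact h1

/-- the union of the ray class fields -/
noncomputable def UF {A B : ℤ} (h : CQ A B) (T : TorX A B) : IntermediateField ℚ ℂ where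
  carrier := {x | ∃ m : Ideal (OO A B), m ≠ ⊥ ∧ x ∈ RF m}
  mul_mem' := by
    rintro x y ⟨m, hm, hx⟩ ⟨m', hm', hy⟩
    have hd : IsDomain (OO A B) := (MUXE.te_RNG A B h).ded.toIsDomain
    exact ⟨m * m', mul_ne_zero hm hm', mul_mem (T.mono m (m * m') (fun x hx => (Ideal.mul_le_inf hx).1) hx)
      (T.mono m' (m * m') (fun x hx => (Ideal.mul_le_inf hx).2) hy)⟩
  add_mem' := by
    rintro x y ⟨m, hm, hx⟩ ⟨m', hm', hy⟩
    have hd : IsDomain (OO A B) := (MUXE.te_RNG A B h).ded.toIsDomain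
    exact ⟨m * m', mul_ne_zero hm hm', add_mem (T.mono m (m * m') (fun x hx => (Ideal.mul_le_inf hx).1) hx)
      (T.mono m' (m * m') (fun x hx => (Ideal.mul_le_inf hx).2) hy)⟩
  inv_mem' := by
    rintro x ⟨m, hm, hx⟩
    exact ⟨m, hm, inv_mem hx⟩
  algebraMap_mem' := by
    intro r
    have hd : IsDomain (OO A B) := (MUXE.te_RNG A B h).ded.toIsDomain
    refine ⟨⊤, bot_ne_top.symm, ?_⟩
    have := (RF (⊤ : Ideal (OO A B))).algebraMap_mem (algebraMap ℚ (kk A B) r)
    rwa [← IsScalarTower.algebraMap_apply] at this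

/-- a lattice with complex multiplication comes from an ideal -/
lemma exists_ideal {A B : ℤ} (h : CQ A B) (L : PeriodPair)
    (hL : ∀ z ∈ L.lattice, wC A B * z ∈ L.lattice) :
    ∃ (b : Ideal (OO A B)) (om : ℂ), IsLI b L om := by
  obtain ⟨hmul, hadd, -, -, hnat, -, hsq, him, -, -, -, -, -⟩ :=
    Pool.Agent.MUXV.q_EMB A B (MUXY.cqF h)
  have hzero : emb (0 : OO A B) = 0 := by simpa using hnat 0
  have h1 : L.ω₁ ∈ L.lattice := L.ω₁_mem_lattice
  have hind := LinearIndependent.pair_iff.mp L.indep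
  have hω : L.ω₁ ≠ 0 := by
    intro h0
    have := hind 1 0 (by simp [h0])
    exact one_ne_zero this.1
  obtain ⟨a, b, hab⟩ := PeriodPair.mem_lattice.mp (hL _ h1)
  have hb : b ≠ 0 := by
    rintro rfl
    have h2 : wC A B = a := by
      have : (wC A B - a) * L.ω₁ = 0 := by
        push_cast at hab
        linear_combination -hab
      rcases mul_eq_zero.mp this with h3 | h3
      · linear_combination h3
      · exact absurd h3 hω
    rw [h2] at him
    simp at him
  have hbC : (b : ℂ) ≠ 0 := by exact_mod_cast hb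
  -- `b L ⊆ O ω₁`
  have hsub : ∀ z ∈ L.lattice, ∃ x : OO A B, z = L.ω₁ / b * emb x := by
    intro z hz
    obtain ⟨m, n, hmn⟩ := PeriodPair.mem_lattice.mp hz
    refine ⟨⟨b * m - n * a, n⟩, ?_⟩
    unfold emb
    push_cast
    rw [← hmn]
    field_simp
    linear_combination (n : ℂ) * hab
  have hO : ∀ (x : OO A B) (z : ℂ), z ∈ L.lattice → emb x * z ∈ L.lattice := by
    intro x z hz
    have e : emb x * z = x.re • z + x.im • (wC A B * z) := by
      unfold emb
      rw [zsmul_eq_mul, zsmul_eq_mul]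
      ring
    rw [e]
    exact add_mem (Submodule.smul_mem _ _ hz) (Submodule.smul_mem _ _ (hL z hz))
  let J : Ideal (OO A B) :=
    { carrier := {x | L.ω₁ / b * emb x ∈ L.lattice}
      add_mem' := by
        intro x y hx hy
        simp only [Set.mem_ofPred_eq] at hx hy ⊢
        rw [hadd, mul_add]
        exact add_mem hx hy
      zero_mem' := by
        simp only [Set.mem_ofPred_eq, hzero, mul_zero]
        exact zero_mem _
      smul_mem' := by
        intro c x hx
        simp only [Set.mem_ofPred_eq, smul_eq_mul] at hx ⊢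
        rw [hmul, show L.ω₁ / b * (emb c * emb x) = emb c * (L.ω₁ / b * emb x) by ring]
        exact hO c _ hx }
  refine ⟨J, L.ω₁ / b, ?_, div_ne_zero hω hbC, ?_⟩
  · intro h0
    have h2 : ((b : ℤ) : OO A B) ∈ J := by
      show L.ω₁ / b * emb ((b : ℤ) : OO A B) ∈ L.lattice
      have e : emb ((b : ℤ) : OO A B) = b := by
        unfold emb
        simp
      rw [e, div_mul_cancel₀ _ hbC]
      exact h1
    rw [h0, Ideal.mem_bot] at h2
    have h3 := congrArg (fun x : OO A B => x.re) h2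
    apply hb
    simpa using h3
  · intro z
    constructor
    · intro hz
      obtain ⟨x, hx⟩ := hsub z hz
      exact ⟨x, by show L.ω₁ / b * emb x ∈ L.lattice; rw [← hx]; exact hz, hx⟩
    · rintro ⟨x, hx, rfl⟩
      exact hx

/-- a lattice with complex multiplication can be normalised -/
lemma exists_norm {A B : ℤ} (h : CQ A B) (h3 : absD A B ≠ 3) (h4 : absD A B ≠ 4)
    (L : PeriodPair) (hL : ∀ z ∈ L.lattice, wC A B * z ∈ L.lattice) :
    ∃ (b : Ideal (OO A B)) (L' : PeriodPair) (om u : ℂ), IsNL b L' om ∧ u ≠ 0 ∧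
      (∀ z : ℂ, z ∈ L.lattice ↔ u * z ∈ L'.lattice) := by
  obtain ⟨b, om, hb⟩ := exists_ideal h L hL
  obtain ⟨hg2, hg3⟩ := MUXY.z_NZL A B h h3 h4 b L om hb
  obtain ⟨u, hu⟩ := IsAlgClosed.exists_pow_nat_eq (-18 * L.g₃ / L.g₂) (n := 2) (by norm_num)
  have hu0 : u ≠ 0 := by
    intro h0
    rw [h0, zero_pow two_ne_zero] at hu
    have h5 : -18 * L.g₃ / L.g₂ ≠ 0 :=
      div_ne_zero (mul_ne_zero (by norm_num) hg3) hg2
    exact h5 hu.symm
  obtain ⟨L', hL'⟩ := MUXU.u_SCX L u hu0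
  obtain ⟨-, -, k3, k4⟩ := ta_SCP L L' u hu0 hL'
  refine ⟨b, L', u * om, u, ⟨⟨hb.b_ne, mul_ne_zero hu0 hb.om_ne, ?_⟩, ?_⟩, hu0, hL'⟩
  · intro z
    have e : z = u * (z / u) := by field_simp
    rw [e, ← hL', hb.mem]
    constructor
    · rintro ⟨x, hx, hz⟩
      exact ⟨x, hx, by rw [hz]; ring⟩
    · rintro ⟨x, hx, hz⟩
      exact ⟨x, hx, mul_left_cancel₀ hu0 (by rw [hz]; ring)⟩
  · rw [k3, k4]
    have h6 : L.g₂ * u ^ 2 = -18 * L.g₃ := by
      rw [hu]
      field_simp
    field_simp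
    linear_combination h6

/-- the Weber functions of a lattice in terms of the normalised lattice -/
lemma weber_norm {A B : ℤ} {b : Ideal (OO A B)} {L L' : PeriodPair} {om u : ℂ}
    (hL' : IsNL b L' om) (hu : u ≠ 0) (h : ∀ z : ℂ, z ∈ L.lattice ↔ u * z ∈ L'.lattice) :
    kap L' ≠ 0 ∧ L.g₂ ^ 3 / dsc L = (1 + 1728 * kap L') / (1728 * kap L') ∧
    ∀ z, L.g₂ * L.g₃ / dsc L * L.weierstrassP z =
      -(xn L' (u * z) + 1 / 12) / (2592 * kap L') := by
  obtain ⟨k1, -, k3, k4⟩ := ta_SCP L L' u hu h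
  have hn := hL'.nrm
  have hD : dsc L' ≠ 0 := sub_ne_zero.mpr (b_DSC L').1
  have e1 : L'.g₃ = -L'.g₂ / 18 := by
    rw [hn]
    ring
  have e2 : L'.g₂ = (1 + 1728 * kap L') / 12 := by
    unfold kap
    ring
  have e3 : dsc L' = 144 * kap L' * L'.g₂ ^ 2 := by
    unfold dsc
    rw [e1, e2]
    ring
  have hk : kap L' ≠ 0 := by
    intro h0
    rw [e3, h0] at hD
    simp at hD
  have hg : L'.g₂ ≠ 0 := by
    intro h0
    rw [e3, h0] at hD
    simp at hD
  have f2 : L.g₂ = L'.g₂ * u ^ 4 := by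
    rw [k3]
    field_simp
  have f3 : L.g₃ = L'.g₃ * u ^ 6 := by
    rw [k4]
    field_simp
  have f4 : dsc L = dsc L' * u ^ 12 := by
    unfold dsc
    rw [f2, f3]
    ring
  refine ⟨hk, ?_, ?_⟩
  · rw [f4, f2, e3]
    have e4 : 12 * L'.g₂ = 1 + 1728 * kap L' := by
      rw [e2]
      ring
    rw [← e4]
    field_simp
    ring
  · intro z
    have f1 : L.weierstrassP z = L'.weierstrassP (u * z) * u ^ 2 := by
      rw [k1]
      field_simp
    rw [f4, f2, f3, f1, e3, e1]
    unfold xn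
    field_simp
    ring

theorem weber_le {d : ℕ} (hd : Squarefree d) (h1 : d ≠ 1) (h3 : d ≠ 3)
    (T : TorX (pA d) (pB d)) :
    ∀ t ∈ weberField d, ∃ m : Ideal (OO (pA d) (pB d)), m ≠ ⊥ ∧ t ∈ RF m := by
  have hC := cq_p hd
  have ha := absD_p d
  have hd3 : absD (pA d) (pB d) ≠ 3 := by
    rw [ha]
    split_ifs <;> omega
  have hd4 : absD (pA d) (pB d) ≠ 4 := by
    rw [ha]
    split_ifs <;> omega
  have hdom : IsDomain (OO (pA d) (pB d)) := (MUXE.te_RNG _ _ hC).ded.toIsDomain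
  have key : weberField d ≤ UF hC T := by
    unfold weberField
    rw [IntermediateField.adjoin_le_iff]
    rintro t (ht | ⟨L, hL, ht⟩)
    · rw [Set.mem_singleton_iff] at ht
      subst ht
      refine ⟨⊤, bot_ne_top.symm, ?_⟩
      have h2 : rt d ∈ kk (pA d) (pB d) := by
        rw [kk_p]
        exact IntermediateField.mem_adjoin_simple_self ℚ _
      exact (RF (⊤ : Ideal (OO (pA d) (pB d)))).algebraMap_mem ⟨rt d, h2⟩
    · have hL' : ∀ z ∈ L.lattice, wC (pA d) (pB d) * z ∈ L.lattice := by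
        rw [wC_p]
        exact hL
      obtain ⟨b, L', om, u, hN, hu, hLL⟩ := exists_norm hC hd3 hd4 L hL'
      obtain ⟨hk, hj, hw⟩ := weber_norm hN hu hLL
      have hkm : ∀ m : Ideal (OO (pA d) (pB d)), kap L' ∈ RF m := fun m =>
        IntermediateField.subset_adjoin _ _ ⟨b, L', om, hN, Or.inl rfl⟩
      have hn : ∀ (m : Ideal (OO (pA d) (pB d))) (n : ℕ), (n : ℂ) ∈ RF m := fun m n =>
        natCast_mem _ n
      rcases ht with ht | ⟨n, z, hn0, hnz, hz, ht⟩
      · refine ⟨⊤, bot_ne_top.symm, ?_⟩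
        rw [ht, hj]
        have h5 := hkm ⊤
        have h6 : (1728 : ℂ) ∈ RF (⊤ : Ideal (OO (pA d) (pB d))) := by
          exact_mod_cast hn ⊤ 1728
        exact div_mem (add_mem (one_mem _) (mul_mem h6 h5)) (mul_mem h6 h5)
      · have hm : idl (A := pA d) (B := pB d) n ≠ ⊥ := by
          intro h0
          apply hn0
          have h5 := Ideal.span_singleton_eq_bot.mp h0
          have h6 := congrArg (fun x : OO (pA d) (pB d) => x.re) h5
          have h7 : ((n : ℕ) : ℤ) = 0 := by simpa using h6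
          exact_mod_cast h7
        refine ⟨idl n, hm, ?_⟩
        rw [ht, hw]
        have hx : xn L' (u * z) ∈ RF (idl (A := pA d) (B := pB d) n) := by
          refine IntermediateField.subset_adjoin _ _ ⟨b, L', om, hN, Or.inr ⟨u * z, ?_, ?_, rfl⟩⟩
          · intro x hx
            obtain ⟨y, rfl⟩ := Ideal.mem_span_singleton'.mp hx
            obtain ⟨hmul, -, -, -, hnat, -, -, -, -, -, -, -, -⟩ :=
              Pool.Agent.MUXV.q_EMB _ _ (MUXY.cqF hC)
            rw [hmul, hnat]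
            have e : emb y * (n : ℂ) * (u * z) = emb y * (u * (n * z)) := by ring
            rw [e]
            have h8 : u * (n * z) ∈ L'.lattice := (hLL _).mp hnz
            rw [hN.mem] at h8 ⊢
            obtain ⟨x', hx', hx''⟩ := h8
            refine ⟨y * x', Ideal.mul_mem_left _ _ hx', ?_⟩
            rw [hmul, hx'']
            ring
          · rwa [← hLL]
        have h5 := hkm (idl n)
        have h6 : (12 : ℂ) ∈ RF (idl (A := pA d) (B := pB d) n) := by
          exact_mod_cast hn (idl n) 12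
        have h7 : (2592 : ℂ) ∈ RF (idl (A := pA d) (B := pB d) n) := by
          exact_mod_cast hn (idl n) 2592
        exact div_mem (neg_mem (add_mem hx (div_mem (one_mem _) h6))) (mul_mem h7 h5)
  intro t ht
  exact key ht

end Pool.Agent.MUXZ


end

section

/-!
# ME: the final theorems for `k = ℚ(i), ℚ(√-3)` and all finite abelian `K / k`, from (JT) in the frame E and the main theorems: general part (helper21)
-/

set_option autoImplicit false

open NumberField IsDedekindDomain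

namespace Pool.Agent.ME2

open _root_.MU3 _root_.Pool.Agent.MU3 _root_.Pool.Agent.MU3A _root_.Pool.Agent.MU3B _root_.Pool.Agent.RI _root_.Pool.Agent.RID
  _root_.Pool.Agent.MUX _root_.Pool.Agent.MUXK _root_.Pool.Agent.MUXE _root_.Pool.Agent.MUXJ
open _root_.Pool.Agent.ME hiding ActE

/-- (JT) in the frame E: a finite abelian extension of `k` is contained in a ray class field -/
def JTEx (A B : ℤ) : Prop :=
  ∀ (K : IntermediateField ℚ ℂ) [FiniteDimensional ℚ K] (hk : kk A B ≤ K),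
    IsGalois (kk A B) (IntermediateField.extendScalars hk) →
    (∀ σ τ : (IntermediateField.extendScalars hk) ≃ₐ[kk A B]
      (IntermediateField.extendScalars hk), σ * τ = τ * σ) → TorU_E A B K

/-- the bound for all finite abelian extensions of `kk A B` -/
def BdJ (p : ℕ) (A B : ℤ) : Prop :=
  ∀ (K : IntermediateField ℚ ℂ) [FiniteDimensional ℚ K] (h : kk A B ≤ K),
    IsGalois (kk A B) (IntermediateField.extendScalars h) →
    (∀ σ τ : (IntermediateField.extendScalars h) ≃ₐ[kk A B]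
      (IntermediateField.extendScalars h), σ * τ = τ * σ) →
    ∃ C : ℕ, ∀ (n : ℕ) (Q : IntermediateField ℚ ℂ), IsLayer p n Q →
      padicValNat p (classNo (K ⊔ Q)) ≤ C * (n + 1) ^ C

theorem bdJ_of {p : ℕ} {A B : ℤ} (hJ : JTEx A B)
    (hmain : ∀ (F M K : IntermediateField ℚ ℂ) [FiniteDimensional ℚ M] (_ : kk A B ≤ F)
      (h : F ≤ M) (a : ℕ), TorU_E A B F → IsGalois F (IntermediateField.extendScalars h) →
      Module.finrank F (IntermediateField.extendScalars h) = p ^ a → K ≤ M →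
      ∃ C : ℕ, ∀ (n : ℕ) (Q : IntermediateField ℚ ℂ), IsLayer p n Q →
        padicValNat p (classNo (K ⊔ Q)) ≤ C * (n + 1) ^ C) : BdJ p A B := by
  intro K _ h hGal hc
  exact fin_of hmain K h (hJ K h hGal hc)

/-- `ℚ(i)` -/
theorem case_one : CaseE (MUXZ.pA 1) (MUXZ.pB 1) ∧ MUXZ.pB 1 = 0 :=
  ⟨{ MUXZ.cq_p (d := 1) squarefree_one with hA := by unfold MUXZ.pA; norm_num },
    by unfold MUXZ.pB; norm_num⟩

/-- `ℚ(√-3)` -/
theorem case_three : CaseE (MUXZ.pA 3) (MUXZ.pB 3) ∧ MUXZ.pB 3 = 1 :=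
  ⟨{ MUXZ.cq_p (d := 3) Nat.prime_three.squarefree with hA := by unfold MUXZ.pA; norm_num },
    by unfold MUXZ.pB; norm_num⟩

end Pool.Agent.ME2


end

section

/-!
# JT: every finite abelian extension of `k` is contained in a ray class field (helper3)

`k = kk A B` imaginary quadratic, `RF f` the ray class fields with their properties `TorX A B` (which hold:
`Pool.Agent.MUXC.c_TOR`). Every `def Sj_X : Prop` is the statement of a module; it is proved as
`theorem tj_X (h : ..) .. : Sj_X` in `Pool/Agent/HB/J_X.lean`, namespace `Pool.Agent.JT`, where the hypotheses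
are the statements named after USES (or fewer). Theorems which are already on main may be cited.

PLAN. `E / k` cyclic of degree `n = l^m`. (JT1) gives `f`, a group `A'` of order `≥ n` and a map `ψ` of the ideals
prime to `f` onto `A'`. `ψ` factors through `Ψ : Gal(RF f / k) → A'` (PHJ). `L` = the fixed field of its kernel,
`[L : k] = |A'| ≥ n`. By the theorem of Frobenius all automorphisms of `ℂ` which fix `E` fix `L` (FRJ). So
`L ≤ E`, `L = E ≤ RF f`.
-/

set_option autoImplicit false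

open NumberField IsDedekindDomain
open scoped nonZeroDivisors Pointwise

namespace Pool.Agent.JT

open _root_.MU3 _root_.Pool.Agent.MU3A _root_.Pool.Agent.RI _root_.Pool.Agent.MUX _root_.Pool.Agent.MUXJ _root_.Pool.Agent.HB

/-- a homomorphism from the ideals prime to `f` onto `A'` which is trivial on the ray modulo `f` -/
structure RayHom {A B : ℤ} (f : Ideal (OO A B)) (A' : Type) [CommGroup A']
    (ψ : Ideal (OO A B) → A') : Prop where
  mul : ∀ a b : Ideal (OO A B), a ≠ ⊥ → b ≠ ⊥ → IsCoprime a f → IsCoprime b f →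
    ψ (a * b) = ψ a * ψ b
  ray : ∀ x y : OO A B, x ≠ 0 → y ≠ 0 → IsCoprime (sp x) f → x - y ∈ f → ψ (sp x) = ψ (sp y)
  sur : ∀ g : A', ∃ a : Ideal (OO A B), a ≠ ⊥ ∧ IsCoprime a f ∧ ψ a = g

/-- some prime of `E` of norm `q` lies above the ideal `Q` -/
def AbvQ {A B : ℤ} (E : IntermediateField ℚ ℂ) (Q : Ideal (OO A B)) (q : ℕ) : Prop :=
  ∃ P : Ideal (𝓞 E), P.IsPrime ∧ Nat.card (𝓞 E ⧸ P) = q ∧
    ∀ (x : OO A B) (y : 𝓞 E), ((y : E) : ℂ) = emb x → (x ∈ Q ↔ y ∈ P)

/-- `E / k` is cyclic of degree `n` -/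
def CycE {A B : ℤ} {E : IntermediateField ℚ ℂ} (hk : kk A B ≤ E) (n : ℕ) : Prop :=
  letI := algC hk
  IsGalois (kk A B) E ∧ IsCyclic (E ≃ₐ[kk A B] E) ∧ Module.finrank (kk A B) E = n

/-- (JTA) the first inequality in terms of the ring `O = OO A B`.

USES Sh_JT1; `xe_RNG : RingE A B` (`MUX/EXAll.lean`), `j_FLD` (`MUX/JAll.lean`). PROOF. The ring isomorphism `φ : OO A B ≃+* 𝓞 (kk A B)`, `x ↦ emb x` (`RingE.int`, `hom`, `inj0`). `kk A B` is totally complex: it contains the nonreal number `wC A B` and has degree 2: every embedding maps `wC` to `wC` or its conjugate. `E` with `algC hk`; a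
generator `σ` of the cyclic group gives `Cyc (l^m) σ`. Transport `f`, `ψ` along `φ` (`Ideal.map`/`comap` of a ring isomorphism preserves `≠ ⊥`, products, coprimality, `span`). Last property: `Q` a prime of norm `q`, `v` = the corresponding prime of `𝓞 (kk A B)`, `absNorm v = q` (`nI Q = Nat.card (OO ⧸ Q)`), the prime `P` of `𝓞 E` lies above `v`:
`P.under = v` and has the same norm: `Deg1`. -/
def Sj_JTA : Prop := ∀ (A B : ℤ), CQ A B → ∀ (E : IntermediateField ℚ ℂ) [FiniteDimensional ℚ E]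
    (hk : kk A B ≤ E) (l m : ℕ), l.Prime →
    CycE hk (l ^ m) →
    ∃ (f : Ideal (OO A B)) (A' : Type) (_ : CommGroup A') (_ : Finite A')
      (ψ : Ideal (OO A B) → A'), f ≠ ⊥ ∧ l ^ m ≤ Nat.card A' ∧ RayHom f A' ψ ∧
      ∀ (Q : Ideal (OO A B)) (q : ℕ), q.Prime → Q.IsPrime → nI Q = q → IsCoprime Q f →
        AbvQ E Q q → ψ Q = 1

/-- (PHJ) the map factors through the Galois group of the ray class field.

USES `Su_AUE` (`u_AUE` in `MUX/UAll.lean`: extension of automorphisms to `ℂ`). PROOF. `T : TorX A B`, a normalised lattice `L₀` exists. For `s : Aut(ℂ)`, `FixK s`, say `a` is an ideal of `s` if `ActI s f a L₀ L' mu` for some `L'`, `mu`, `L'` normalised (`IsNL b' L' om'`); it exists (`T.act`; two normalised lattices with the same `kap` are the same lattice: `u_DET`, `c_SGQ`, so `L'` may be exchanged), is `≠ ⊥` (`IsQ ⊥ L L' mu` would mean `mu z ∈ L'` for all `z`), prime to `f`.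
(i) Two ideals `a, a'` of the same `s`: `T.uniq`: `sp x * a = sp y * a'`, `x - y ∈ f`, `x` (so also `y`) prime to `f`: `ψ a = ψ a'`. `T.act` gives one ideal for all lattices, so by `T.comp` (i) `a` an ideal of `s`, `b` of `t`: `a * b` is an ideal of `s.trans t` up to (i): `ψ` of the ideals of `s.trans t` is `ψ a * ψ b`. (ii) `s, s'` agree on `RF f`: `t = s.symm.trans s'`
(`t (s y) = s' y = s y`, and `RF f` is stable under `s`, as it is normal) is trivial on `RF f`, its ideal is `sp c` with `c - 1 ∈ f` (`T.triv`), `ψ (sp c) = ψ (sp 1) = 1`, `s' = s.trans t`: the same `ψ`. So `Ψ τ = ψ a` for any `s` which extends `τ` (`u_AUE`; `RF f` is algebraic over `ℚ`) is well defined and a homomorphism (the group is commutative, so the order of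
composition does not matter). Onto: `g = ψ a`, `T.surj f a` gives `s`, its restriction to the normal extension `RF f` is `τ` (`s` fixes `kk A B` elementwise: `FixK`). -/
def Sj_PHJ : Prop := ∀ (A B : ℤ), CQ A B → TorX A B → NLex A B →
    ∀ (f : Ideal (OO A B)) (A' : Type) [CommGroup A'] (ψ : Ideal (OO A B) → A'), f ≠ ⊥ →
    RayHom f A' ψ →
    ∃ Ψ : ((RF f : IntermediateField (kk A B) ℂ) ≃ₐ[kk A B] RF f) →* A',
      Function.Surjective Ψ ∧
      ∀ (τ : (RF f : IntermediateField (kk A B) ℂ) ≃ₐ[kk A B] RF f) (s : ℂ ≃+* ℂ), FixK A B s →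
        (∀ y : (RF f : IntermediateField (kk A B) ℂ), s (y : ℂ) = ((τ y : _) : ℂ)) →
        ∀ (a b b' : Ideal (OO A B)) (L L' : PeriodPair) (om om' mu : ℂ), IsNL b L om →
          IsNL b' L' om' → ActI s f a L L' mu → Ψ τ = ψ a

/-- (FRQ) the theorem of Frobenius, in the form needed: every automorphism `g` of `N / ℚ` is, up to a generator of the
same cyclic group, the Frobenius automorphism `φ` of a prime of `N` above a prime number `q` outside a finite set.

USES `RI.FROB_thm` (`RI/FROB.lean`), `Sv_EXT` (`MU3V.v_EXT` / `MU3X.v_EXT` in `MU3/AVAll.lean`), `Sw_LOC` (`MU3X.w_LOC`). PROOF. (FROB): infinitely many prime numbers `q` (`PosDensity`: a finite set has bounded sum) with a prime `P ∋ q` of `𝓞 N` whose stabilizer is `⟨g⟩`; choose `q ∤ n₀` and unramified in `N` (finitely many ramified primes, `RI`). Let `φ` be an arithmetic Frobenius at `P`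
(`IsArithFrobAt`, exists for `Gal(N/ℚ)`); it is in the stabilizer, and generates it as `P` is unramified (`RI`: look for the lemma, inertia group trivial, the residue field extension is generated by Frobenius), so `⟨φ⟩ = ⟨g⟩`: `g = φ^i`, `φ = g^j`. `V` extends `P` (EXT), (LOC): `v(φ x - x^q) < 1` for `x ∈ N ∩ V`. The last property: `D ≤ N` a subfield fixed by `g`,
so by `φ`: for `x ∈ 𝓞 D`: `x^q - x = x^q - φ x ∈ P`; `𝓞 D ⧸ (P ∩ 𝓞 D)` is a finite field in which `x^q = x`: it has `q` elements (a polynomial of degree `q` has at most `q` roots; it contains `𝔽_q`). -/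
def Sj_FRQ : Prop := ∀ (N : IntermediateField ℚ ℂ) [FiniteDimensional ℚ N] [IsGalois ℚ N]
    (g : N ≃ₐ[ℚ] N) (n₀ : ℕ), n₀ ≠ 0 →
    ∃ (q : ℕ) (P : Ideal (𝓞 N)) (φ : N ≃ₐ[ℚ] N) (V : ValuationSubring ℂ), q.Prime ∧ ¬ q ∣ n₀ ∧
      P.IsPrime ∧ (q : 𝓞 N) ∈ P ∧ Subgroup.zpowers φ = Subgroup.zpowers g ∧
      (∀ y : 𝓞 N, ((y : N) : ℂ) ∈ V.nonunits ↔ y ∈ P) ∧
      (∀ x : N, (x : ℂ) ∈ V → V.valuation (((φ x : N) : ℂ) - (x : ℂ) ^ q) < 1) ∧
      ∀ (D : IntermediateField ℚ ℂ) (h : D ≤ N), (∀ x : N, (x : ℂ) ∈ D → g x = x) →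
        Nat.card (𝓞 D ⧸ P.comap (RingOfIntegers.mapRingHom
          (IntermediateField.inclusion h : D →+* N))) = q

/-- (FRJ) automorphisms which fix `E` fix the field `L` which belongs to `ψ`.

USES FRQ; `c_FRO : Sc_FRO` (`MUX/XCAll.lean`), `u_AUE`, `xe_RNG`. PROOF. `N` = a finite Galois extension of `ℚ` in `ℂ` which contains `E` and `RF f` (normal closure; `RF f` is finite over `ℚ`). `s` restricts to `g ∈ Gal(N/ℚ)`, trivial on `E` and on `kk A B`. `n₀` from (FRO); (FRQ) with `n₀ nI f`: `q, P, φ, V`. `Q = {x ∈ OO : emb x ∈ V.nonunits}`: the prime `P ∩ 𝓞 (kk A B)`,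
transported to `OO A B` (`RingE.int`); `nI Q = q` (last property for `D = kk A B`), `OverI V Q`. `P' = P ∩ 𝓞 E` has norm `q` (last property for `D = E`): `AbvQ E Q q`. `Q` is prime to `f` (`q ∤ nI f`: `q` and `nI f` are coprime integers in `Q`, `f`). So `ψ Q = 1`. Extend `φ` to `s' ∈ Aut(ℂ)` (AUE), `FixK s'`. (FRO): `ActI s' f Q L L' mu`, so `Ψ (s'|RF f) = ψ Q = 1`:
`s'|RF f ∈ ker Ψ`, so `φ` fixes every `y ∈ RF f` which is fixed by `ker Ψ`. `g = φ^i` fixes it too. -/
def Sj_FRJ : Prop := ∀ (A B : ℤ), CQ A B → TorX A B → NLex A B →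
    ∀ (E : IntermediateField ℚ ℂ) [FiniteDimensional ℚ E], kk A B ≤ E →
    ∀ (f : Ideal (OO A B)) (A' : Type) [CommGroup A'] (ψ : Ideal (OO A B) → A')
      (Ψ : ((RF f : IntermediateField (kk A B) ℂ) ≃ₐ[kk A B] RF f) →* A'), f ≠ ⊥ →
    (∀ (Q : Ideal (OO A B)) (q : ℕ), q.Prime → Q.IsPrime → nI Q = q → IsCoprime Q f →
      AbvQ E Q q → ψ Q = 1) →
    (∀ (τ : (RF f : IntermediateField (kk A B) ℂ) ≃ₐ[kk A B] RF f) (s : ℂ ≃+* ℂ), FixK A B s →
      (∀ y : (RF f : IntermediateField (kk A B) ℂ), s (y : ℂ) = ((τ y : _) : ℂ)) →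
      ∀ (a b b' : Ideal (OO A B)) (L L' : PeriodPair) (om om' mu : ℂ), IsNL b L om →
        IsNL b' L' om' → ActI s f a L L' mu → Ψ τ = ψ a) →
    ∀ s : ℂ ≃+* ℂ, (∀ x ∈ E, s x = x) →
      ∀ y : (RF f : IntermediateField (kk A B) ℂ),
        (∀ τ : (RF f : IntermediateField (kk A B) ℂ) ≃ₐ[kk A B] RF f, Ψ τ = 1 → τ y = y) →
        s (y : ℂ) = y

/-- (JTC) the cyclic case.

USES JTA, PHJ, FRJ; `Su_AUF` (`u_AUF`: an algebraic number, or an element of `ℂ`, which is fixed by all automorphisms of `ℂ` over `E` is in `E`; look at its statement in `MUX/StU.lean`). PROOF. `f, A', ψ` (JTA), `Ψ` (PHJ). `L` = the fixed field of `ker Ψ` in `RF f / kk A B`: `[L : k] = |A'| ≥ l^m`. (FRJ), (AUF): `L ≤ E`. `[E : k] = l^m`. So `L = E` as subsets of `ℂ`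
(`IntermediateField.eq_of_le_of_finrank_le`), `E ≤ RF f`. -/
def Sj_JTC : Prop := ∀ (A B : ℤ), CQ A B → TorX A B → NLex A B →
    ∀ (E : IntermediateField ℚ ℂ) [FiniteDimensional ℚ E] (hk : kk A B ≤ E) (l m : ℕ), l.Prime →
    CycE hk (l ^ m) →
    TorU A B E

/-- (JTR) reduction to the cyclic case: for all abelian extensions.

USES JTC; `Sj_DIR` is not needed. PROOF. `G = Gal(K/k)` finite abelian. For a subgroup `U` with `G/U` cyclic of prime power order `l^m` the fixed field `E_U` is Galois over `k` with group `G/U`: (JTC): every element of `E_U` is in some `RF f_U`, `E_U` is finite over `k`, so (`T.mono`, the product of finitely many ideals) `E_U ≤ RF f_U`. The intersection of all these `U` is trivial: for `g ≠ 1` take a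
subgroup `U` maximal among those which do not contain `g`: `G/U` is a finite abelian group in which every nontrivial subgroup contains the image of `g`, so it is cyclic of prime power order (all its minimal subgroups coincide; or use a character of prime power order with `χ(g) ≠ 1`). So the fixed fields `E_U` generate `K` (the compositum is the fixed field of the intersection). With
`f` the product of the `f_U`: `K ≤ RF f`. The empty case `G = 1`: `K = kk A B`. -/
def Sj_JTR : Prop := ∀ (A B : ℤ), CQ A B → TorX A B → NLex A B →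
    ∀ (K : IntermediateField ℚ ℂ) [FiniteDimensional ℚ K] (hk : kk A B ≤ K),
    IsGalois (kk A B) (IntermediateField.extendScalars hk) →
    (∀ σ τ : (IntermediateField.extendScalars hk) ≃ₐ[kk A B]
      (IntermediateField.extendScalars hk), σ * τ = τ * σ) → TorU A B K

/-- (JQF) imaginary quadratic subfields of `ℂ`.

PROOF. `k = ℚ(z)`, `z² + b z + c = 0`, `ℚ(z) = ℚ(√D)`, `D = b² - 4c < 0` rational (`z` not real), `D = -d r²` with `d` squarefree, `r ∈ ℚ`. `kk (pA d) (pB d) = ℚ(wd d) = ℚ(√-d)` (`wC_p` in `MUX/ZUni.lean`). Splitting: `OO A B ≅ 𝓞 k`, `O/p ≅ 𝔽_p[X]/(X² - B X - A)`. If `P ≠ Q` are primes above `p` (`2` or `3`) then `X² - B X - A` has two different roots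
modulo `p`: for `p = 3` the discriminant `B² + 4A ≡ 1` modulo 3; for `p = 2`: `B = 1`, `A` even, `B² + 4A ≡ 1` modulo 8. `absD_p` (`MUX/ZUni.lean`): `B² + 4A = -d` (`d ≡ 3` modulo 4) or `-4d`. -/
def Sj_JQF : Prop := ∀ k : IntermediateField ℚ ℂ, Module.finrank ℚ k = 2 →
    (∃ z ∈ k, (starRingEnd ℂ) z ≠ z) →
    ∃ d : ℕ, Squarefree d ∧ k = kk (MUXZ.pA d) (MUXZ.pB d) ∧
      ∀ p : ℕ, (p = 2 ∨ p = 3) →
        (∃ P Q : Ideal (𝓞 k), P.IsPrime ∧ Q.IsPrime ∧ (p : 𝓞 k) ∈ P ∧ (p : 𝓞 k) ∈ Q ∧ P ≠ Q) →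
        p = 3 ∧ 3 ∣ d + 1 ∨ p = 2 ∧ 8 ∣ d + 1

/-- (PEX) from `F ≤ M`, `M / F` Galois of degree `p^a`, to `F k ≤ M k`.

PROOF. Restriction `Gal(M k / F k) → Gal(M / F)` is injective; `M k / F k` is Galois (`M k = F k · M`). The order divides `p^a`. -/
def Sj_PEX : Prop := ∀ (F M k : IntermediateField ℚ ℂ) [FiniteDimensional ℚ M]
    [FiniteDimensional ℚ k] (h : F ≤ M) (p a : ℕ), p.Prime →
    IsGalois F (IntermediateField.extendScalars h) →
    Module.finrank F (IntermediateField.extendScalars h) = p ^ a →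
    ∃ (h' : F ⊔ k ≤ M ⊔ k) (b : ℕ), IsGalois ↥(F ⊔ k) (IntermediateField.extendScalars h') ∧
      Module.finrank ↥(F ⊔ k) (IntermediateField.extendScalars h') = p ^ b

end Pool.Agent.JT


end

section

/-!
# JT, module FRJ: automorphisms which fix `E` fix the field which belongs to `ψ` (helper18)
-/

set_option autoImplicit false

open NumberField IsDedekindDomain
open scoped nonZeroDivisors Pointwise

namespace Pool.Agent.JT

open _root_.MU3 _root_.Pool.Agent.MU3A _root_.Pool.Agent.RI _root_.Pool.Agent.MUX _root_.Pool.Agent.MUXJ _root_.Pool.Agent.HB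
open _root_.Pool.Agent.MUXC (c_FRO Sc_FRO)
open _root_.Pool.Agent.MUXC.ZET (kk_fin fix_kk toAlg)

namespace FRJ

section ring

variable {A B : ℤ}

lemma int_emb (hR : Pool.Agent.MUXE.RingE A B) (x : OO A B) : IsIntegral ℤ (emb x) :=
  (hR.int (emb x) (MU3A.emb_mem x)).2 ⟨x, rfl⟩

/-- `O → N` for a field which contains `k` -/
noncomputable def rho0 (hQ : CQ A B) {N : IntermediateField ℚ ℂ} (hN : kk A B ≤ N) :
    OO A B →+* N :=
  (_root_.Pool.Agent.MUX.embHom hQ).codRestrict N.toSubring fun x => by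
    rw [_root_.Pool.Agent.MUX.embHom_apply hQ]
    exact hN (MU3A.emb_mem x)

lemma rho0_coe (hQ : CQ A B) {N : IntermediateField ℚ ℂ} (hN : kk A B ≤ N) (x : OO A B) :
    ((rho0 hQ hN x : N) : ℂ) = emb x := _root_.Pool.Agent.MUX.embHom_apply hQ x

lemma rho0_int (hQ : CQ A B) (hR : Pool.Agent.MUXE.RingE A B) {N : IntermediateField ℚ ℂ}
    (hN : kk A B ≤ N) (x : OO A B) : IsIntegral ℤ (rho0 hQ hN x) := by
  have h1 : IsIntegral ℤ ((rho0 hQ hN x : N) : ℂ) := by
    rw [rho0_coe]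
    exact int_emb hR x
  exact (isIntegral_algHom_iff (N.val.restrictScalars ℤ) N.val.injective).1 h1

/-- `O → 𝓞 N` for a field which contains `k` -/
noncomputable def rho (hQ : CQ A B) (hR : Pool.Agent.MUXE.RingE A B)
    {N : IntermediateField ℚ ℂ} (hN : kk A B ≤ N) : OO A B →+* 𝓞 N where
  toFun x := ⟨rho0 hQ hN x, rho0_int hQ hR hN x⟩
  map_one' := by
    apply RingOfIntegers.ext
    exact map_one (rho0 hQ hN)
  map_zero' := by
    apply RingOfIntegers.ext
    exact map_zero (rho0 hQ hN)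
  map_mul' x y := by
    apply RingOfIntegers.ext
    exact map_mul (rho0 hQ hN) x y
  map_add' x y := by
    apply RingOfIntegers.ext
    exact map_add (rho0 hQ hN) x y

lemma rho_coe (hQ : CQ A B) (hR : Pool.Agent.MUXE.RingE A B) {N : IntermediateField ℚ ℂ}
    (hN : kk A B ≤ N) (x : OO A B) : (((rho hQ hR hN x : 𝓞 N) : N) : ℂ) = emb x :=
  rho0_coe hQ hN x

lemma coe_inj {N : IntermediateField ℚ ℂ} {x y : 𝓞 N} (h : ((x : N) : ℂ) = ((y : N) : ℂ)) :
    x = y := RingOfIntegers.ext (Subtype.ext h)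

lemma rho_bij (hQ : CQ A B) (hR : Pool.Agent.MUXE.RingE A B) :
    Function.Bijective (rho hQ hR (le_refl (kk A B))) := by
  constructor
  · intro x y hxy
    have h1 : emb x = emb y := by
      rw [← rho_coe hQ hR (le_refl (kk A B)) x, ← rho_coe hQ hR (le_refl (kk A B)) y, hxy]
    exact _root_.Pool.Agent.MUX.emb_inj hQ h1
  · intro y
    have h1 : IsIntegral ℤ (((y : kk A B)) : ℂ) :=
      (RingOfIntegers.isIntegral_coe y).map ((kk A B).val.restrictScalars ℤ)
    obtain ⟨x, hx⟩ := (hR.int _ (y : kk A B).2).1 h1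
    exact ⟨x, coe_inj (by rw [rho_coe, hx])⟩

lemma card_quot (hQ : CQ A B) (hR : Pool.Agent.MUXE.RingE A B) {N : IntermediateField ℚ ℂ}
    (hN : kk A B ≤ N) (P : Ideal (𝓞 N)) :
    nI (P.comap (rho hQ hR hN)) = Nat.card (𝓞 (kk A B) ⧸ P.comap
      (RingOfIntegers.mapRingHom (IntermediateField.inclusion hN : kk A B →+* N))) := by
  have h1 : rho hQ hR hN = (RingOfIntegers.mapRingHom
      (IntermediateField.inclusion hN : kk A B →+* N)).comp (rho hQ hR (le_refl (kk A B))) := by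
    apply RingHom.ext
    intro x
    apply coe_inj
    rw [rho_coe]
    exact (rho_coe hQ hR (le_refl (kk A B)) x).symm
  rw [h1, ← Ideal.comap_comap]
  set J : Ideal (𝓞 (kk A B)) := P.comap
      (RingOfIntegers.mapRingHom (IntermediateField.inclusion hN : kk A B →+* N))
  let e : OO A B ≃+* 𝓞 (kk A B) := RingEquiv.ofBijective _ (rho_bij hQ hR)
  have h2 : J = Ideal.map (e : OO A B →+* 𝓞 (kk A B))
      (J.comap (rho hQ hR (le_refl (kk A B)))) := by
    have := Ideal.map_comap_of_surjective (e : OO A B →+* 𝓞 (kk A B)) e.surjective J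
    exact this.symm
  exact Nat.card_congr (Ideal.quotientEquiv _ J e h2).toEquiv

lemma coprime_of {f Q : Ideal (OO A B)} {q n : ℕ} (hq : q.Prime) (hqQ : (q : OO A B) ∈ Q)
    (hn : (n : OO A B) ∈ f) (hqn : ¬ q ∣ n) : IsCoprime Q f := by
  have hcop : IsCoprime (q : ℤ) (n : ℤ) :=
    Nat.isCoprime_iff_coprime.2 ((hq.coprime_iff_not_dvd).2 hqn)
  obtain ⟨a, b, hab⟩ := hcop
  rw [Ideal.isCoprime_iff_exists]
  refine ⟨((a : ℤ) : OO A B) * q, Q.mul_mem_left _ hqQ, ((b : ℤ) : OO A B) * n,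
    f.mul_mem_left _ hn, ?_⟩
  have := congrArg (fun t : ℤ => (t : OO A B)) hab
  simpa using this

end ring

end FRJ

open _root_.Pool.Agent.JT.FRJ

theorem tj_FRJ (hFRQ : Sj_FRQ) : Sj_FRJ := by
  intro A B hQ T hNL E hEf hkE f A' _ ψ Ψ hf hψ hΨ s hs y hy
  have hR : Pool.Agent.MUXE.RingE A B := Pool.Agent.MUXE.te_RNG A B hQ
  have hkf := kk_fin hQ
  have hRf : FiniteDimensional (kk A B) (RF f : IntermediateField (kk A B) ℂ) := T.fin f hf
  have hRg : IsGalois (kk A B) (RF f : IntermediateField (kk A B) ℂ) := T.gal f hf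
  have hRQ : FiniteDimensional ℚ (RF f : IntermediateField (kk A B) ℂ) :=
    FiniteDimensional.trans ℚ (kk A B) _
  -- the field N
  set R₀ : IntermediateField ℚ ℂ := (RF f : IntermediateField (kk A B) ℂ).restrictScalars ℚ
    with hR₀
  have hR₀f : FiniteDimensional ℚ R₀ := hRQ
  set M : IntermediateField ℚ ℂ := E ⊔ R₀ with hM
  have hMf : FiniteDimensional ℚ M := IntermediateField.finiteDimensional_sup E R₀
  set N : IntermediateField ℚ ℂ := IntermediateField.normalClosure ℚ M ℂ with hNdef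
  have hMN : M ≤ N := IntermediateField.le_normalClosure M
  have hEN : E ≤ N := le_sup_left.trans hMN
  have hRN : R₀ ≤ N := le_sup_right.trans hMN
  have hkN : kk A B ≤ N := hkE.trans hEN
  have hNf : FiniteDimensional ℚ N := inferInstance
  have hNc : IsNormalClosure ℚ M N := Algebra.IsAlgebraic.isNormalClosure_normalClosure
    fun _ => IsAlgClosed.splits _
  have hNn : Normal ℚ N := hNc.normal
  have hNg : IsGalois ℚ N := ⟨⟩
  -- the automorphism g
  let sQ : ℂ ≃ₐ[ℚ] ℂ := AlgEquiv.ofRingEquiv (f := s) fun x => map_ratCast s x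
  let g : N ≃ₐ[ℚ] N := sQ.restrictNormal N
  have hg : ∀ x : N, ((g x : N) : ℂ) = s (x : ℂ) := fun x => sQ.restrictNormal_commutes N x
  obtain ⟨n₀, hn₀, hFRO⟩ := c_FRO A B hQ
  have hnf : nI f ≠ 0 := nI_ne_zero hQ hf
  obtain ⟨q, P, φ, V, hq, hqn, hP, hqP, hzp, hV, hφ, hD⟩ :=
    hFRQ N g (n₀ * nI f) (mul_ne_zero hn₀ hnf)
  have hqn₀ : ¬ q ∣ n₀ := fun h => hqn (h.mul_right _)
  have hqf : ¬ q ∣ nI f := fun h => hqn (h.mul_left _)
  have hgE : ∀ x : N, (x : ℂ) ∈ E → g x = x := fun x hx => Subtype.ext ((hg x).trans (hs _ hx))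
  have hgk : ∀ x : N, (x : ℂ) ∈ kk A B → g x = x := fun x hx => hgE x (hkE hx)
  -- φ is a power of g and conversely
  have hstab : ∀ x : N, (g x = x ↔ φ x = x) := by
    intro x
    have key : ∀ a b : N ≃ₐ[ℚ] N, b ∈ Subgroup.zpowers a → a x = x → b x = x := by
      intro a b hb ha
      have h1 : Subgroup.zpowers a ≤ MulAction.stabilizer (N ≃ₐ[ℚ] N) x := by
        rw [Subgroup.zpowers_le]
        exact ha
      exact h1 hb
    exact ⟨key g φ (hzp ▸ Subgroup.mem_zpowers φ), key φ g (hzp ▸ Subgroup.mem_zpowers g)⟩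
  -- the prime Q
  set Q : Ideal (OO A B) := P.comap (rho hQ hR hkN) with hQdef
  have hQp : Q.IsPrime := hP.comap _
  have hnQ : nI Q = q := by
    rw [hQdef, card_quot]
    exact hD (kk A B) hkN hgk
  have hqQ : ((q : ℕ) : OO A B) ∈ Q := by
    rw [hQdef, Ideal.mem_comap, map_natCast]
    exact hqP
  have hcop : IsCoprime Q f := coprime_of hq hqQ (nI_mem hQ hf) hqf
  have hVQ : OverI V Q := by
    intro x
    rw [hQdef, Ideal.mem_comap, ← hV, rho_coe]
  have hAbv : AbvQ E Q q := by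
    refine ⟨P.comap (RingOfIntegers.mapRingHom
      (IntermediateField.inclusion hEN : E →+* N)), hP.comap _, hD E hEN hgE, ?_⟩
    intro x z hz
    rw [hQdef, Ideal.mem_comap, Ideal.mem_comap]
    have : rho hQ hR hkN x = RingOfIntegers.mapRingHom
      (IntermediateField.inclusion hEN : E →+* N) z := by
      apply coe_inj
      rw [rho_coe, ← hz]
      rfl
    rw [this]
  have hψQ : ψ Q = 1 := hψ Q q hq hQp hnQ hcop hAbv
  -- extension of φ
  obtain ⟨s', hs'⟩ := Pool.Agent.MUXU.u_AUE N inferInstance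
    ((N.val : N →+* ℂ).comp (φ : N →+* N))
  have hs'1 : ∀ x : N, s' (x : ℂ) = ((φ x : N) : ℂ) := hs'
  have hfix : FixK A B s' := by
    have hw : wC A B ∈ N := hkN (_root_.Pool.Agent.MU3A.wC_mem A B)
    have h1 := hs'1 ⟨wC A B, hw⟩
    have h2 : φ ⟨wC A B, hw⟩ = ⟨wC A B, hw⟩ := (hstab _).1 (hgk _ (_root_.Pool.Agent.MU3A.wC_mem A B))
    rw [h2] at h1
    exact h1
  obtain ⟨b, L, om, hL⟩ := hNL
  obtain ⟨b', L', om', mu, hL', hact⟩ := hFRO f hf Q q hq hnQ hqn₀ hqf V hVQ s' hfix (by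
    intro x hx hxV
    have hxN : x ∈ N := hRN hx
    have h1 := hφ ⟨x, hxN⟩ hxV
    rw [← hs'1] at h1
    exact h1) b L om hL
  -- the restriction of s' to RF f
  let t : ℂ ≃ₐ[kk A B] ℂ := toAlg hfix
  let τ : (RF f : IntermediateField (kk A B) ℂ) ≃ₐ[kk A B] RF f := t.restrictNormal _
  have hτ : ∀ z : (RF f : IntermediateField (kk A B) ℂ), s' (z : ℂ) = ((τ z : _) : ℂ) :=
    fun z => (t.restrictNormal_commutes (RF f : IntermediateField (kk A B) ℂ) z).symm
  have h1 : Ψ τ = 1 := by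
    rw [hΨ τ s' hfix hτ Q b b' L L' om om' mu hL hL' hact, hψQ]
  have h2 : τ y = y := hy τ h1
  have hyN : (y : ℂ) ∈ N := hRN y.2
  have h3 : φ ⟨y, hyN⟩ = ⟨y, hyN⟩ := by
    apply Subtype.ext
    rw [← hs'1 ⟨(y : ℂ), hyN⟩]
    rw [show s' ((⟨(y : ℂ), hyN⟩ : N) : ℂ) = s' (y : ℂ) from rfl, hτ y, h2]
  have h4 : g ⟨y, hyN⟩ = ⟨y, hyN⟩ := (hstab _).2 h3
  have h5 := hg ⟨y, hyN⟩
  rw [h4] at h5
  exact h5.symm

end Pool.Agent.JT


end

section

/-!
# JT, module JTA: the first inequality in terms of the ring `OO A B` (helper45)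
-/

set_option autoImplicit false

open NumberField IsDedekindDomain
open scoped nonZeroDivisors Pointwise

namespace Pool.Agent.JT

open _root_.MU3 _root_.Pool.Agent.MU3A _root_.Pool.Agent.RI _root_.Pool.Agent.MUX _root_.Pool.Agent.MUXJ _root_.Pool.Agent.HB

noncomputable section

namespace JTA

/-- the ring isomorphism of `OO A B` and the ring of integers of `kk A B` -/
lemma exists_equiv {A B : ℤ} (hR : Pool.Agent.MUXE.RingE A B) :
    ∃ φ : OO A B ≃+* 𝓞 (kk A B), ∀ x, ((φ x : kk A B) : ℂ) = emb x := by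
  obtain ⟨φ₀, hφ₀⟩ := hR.hom
  have hint : ∀ x : OO A B, IsIntegral ℤ (⟨emb x, Pool.Agent.MU3A.emb_mem x⟩ : kk A B) := by
    intro x
    have h2 : IsIntegral ℤ (emb x) := (hR.int (emb x) (Pool.Agent.MU3A.emb_mem x)).mpr ⟨x, rfl⟩
    exact (isIntegral_algHom_iff (R := ℤ) ((kk A B).val.restrictScalars ℤ)
      (Subtype.val_injective)).1 h2
  let f : OO A B →+* 𝓞 (kk A B) :=
    { toFun := fun x => ⟨⟨emb x, Pool.Agent.MU3A.emb_mem x⟩, hint x⟩
      map_one' := by
        apply RingOfIntegers.ext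
        apply Subtype.ext
        show emb (1 : OO A B) = 1
        rw [← hφ₀, map_one]
      map_zero' := by
        apply RingOfIntegers.ext
        apply Subtype.ext
        show emb (0 : OO A B) = 0
        rw [← hφ₀, map_zero]
      map_add' := by
        intro x y
        apply RingOfIntegers.ext
        apply Subtype.ext
        show emb (x + y) = emb x + emb y
        rw [← hφ₀, map_add, hφ₀, hφ₀]
      map_mul' := by
        intro x y
        apply RingOfIntegers.ext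
        apply Subtype.ext
        show emb (x * y) = emb x * emb y
        rw [← hφ₀, map_mul, hφ₀, hφ₀] }
  have hf : ∀ x, ((f x : kk A B) : ℂ) = emb x := fun x => rfl
  have hinj : Function.Injective f := by
    rw [injective_iff_map_eq_zero]
    intro x hx
    apply hR.inj0
    rw [← hf, hx]
    rfl
  have hsur : Function.Surjective f := by
    intro y
    have h1 : IsIntegral ℤ ((y : kk A B) : ℂ) :=
      (isIntegral_algHom_iff (R := ℤ) ((kk A B).val.restrictScalars ℤ)
        (Subtype.val_injective)).2 (RingOfIntegers.isIntegral_coe y)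
    obtain ⟨x, hx⟩ := (hR.int _ (y : kk A B).2).1 h1
    refine ⟨x, ?_⟩
    apply RingOfIntegers.ext
    apply Subtype.ext
    rw [hf, hx]
  exact ⟨RingEquiv.ofBijective f ⟨hinj, hsur⟩, fun x => hf x⟩

end JTA

open _root_.Pool.Agent.JT.JTA in
theorem tj_JTA (h1 : Sh_JT1) : Sj_JTA := by
  intro A B hc E _ hk l m hl hcyc
  have hR : Pool.Agent.MUXE.RingE A B := Pool.Agent.MUXE.te_RNG A B hc
  obtain ⟨φ, hφ⟩ := exists_equiv hR
  obtain ⟨hfin, htc⟩ := Pool.Agent.MUXJ.t_FLD A B hc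
  have : NumberField (kk A B) := { to_charZero := inferInstance, to_finiteDimensional := hfin }
  have : NumberField E := { to_charZero := inferInstance, to_finiteDimensional := inferInstance }
  letI : Algebra (kk A B) E := algC hk
  obtain ⟨hgal, hcy, hdeg⟩ := hcyc
  obtain ⟨σ, hσ⟩ := hcy.exists_generator
  have hC : Cyc (l ^ m) σ := ⟨hgal, hσ, hdeg⟩
  have hTC : TC (kk A B) := by
    intro v
    rw [InfinitePlace.isComplex_iff, ComplexEmbedding.isReal_iff]
    intro h
    obtain ⟨x, hx⟩ := htc (kk A B) le_rfl v.embedding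
    exact hx (DFunLike.congr_fun h x)
  obtain ⟨f', A', iG, iF, ψ', hf0, hcard, hmul, hray, hsur, hdeg1⟩ :=
    h1 (kk A B) E l m σ hl hC hTC
  have hφs : Function.Surjective (φ : OO A B →+* 𝓞 (kk A B)) := φ.surjective
  have hmc : ∀ I : Ideal (𝓞 (kk A B)),
      (I.comap (φ : OO A B →+* 𝓞 (kk A B))).map (φ : OO A B →+* 𝓞 (kk A B)) = I :=
    fun I => Ideal.map_comap_of_surjective _ hφs I
  have hcop : ∀ a : Ideal (OO A B), IsCoprime a (f'.comap (φ : OO A B →+* 𝓞 (kk A B))) →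
      IsCoprime (a.map (φ : OO A B →+* 𝓞 (kk A B))) f' := by
    intro a ha
    have := ha.map (Ideal.mapHom (φ : OO A B →+* 𝓞 (kk A B)))
    simpa [Ideal.mapHom, hmc] using this
  have hcop' : ∀ a : Ideal (𝓞 (kk A B)), IsCoprime a f' →
      IsCoprime (a.comap (φ : OO A B →+* 𝓞 (kk A B)))
        (f'.comap (φ : OO A B →+* 𝓞 (kk A B))) := by
    intro a ha
    have h2 := ha.map (Ideal.mapHom (φ.symm : 𝓞 (kk A B) →+* OO A B))
    have h3 : ∀ I : Ideal (𝓞 (kk A B)), I.map (φ.symm : 𝓞 (kk A B) →+* OO A B) =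
        I.comap (φ : OO A B →+* 𝓞 (kk A B)) := fun I => Ideal.map_symm φ
    simpa [Ideal.mapHom, h3] using h2
  have hbot : ∀ a : Ideal (OO A B), a ≠ ⊥ → a.map (φ : OO A B →+* 𝓞 (kk A B)) ≠ ⊥ := by
    intro a ha h
    exact ha ((Ideal.map_eq_bot_iff_of_injective φ.injective).1 h)
  have hsp : ∀ x : OO A B, (sp x).map (φ : OO A B →+* 𝓞 (kk A B)) = Ideal.span {φ x} := by
    intro x
    rw [Ideal.map_span, Set.image_singleton]
    rfl
  refine ⟨f'.comap (φ : OO A B →+* 𝓞 (kk A B)), A', iG, iF,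
    fun a => ψ' (a.map (φ : OO A B →+* 𝓞 (kk A B))), ?_, hcard, ⟨?_, ?_, ?_⟩, ?_⟩
  · intro h
    apply hf0
    rw [← hmc f', h, Ideal.map_bot]
  · intro a b ha hb hac hbc
    show ψ' (Ideal.map _ (a * b)) = _
    rw [Ideal.map_mul]
    exact hmul _ _ (hbot a ha) (hbot b hb) (hcop a hac) (hcop b hbc)
  · intro x y hx hy hxc hxy
    show ψ' _ = ψ' _
    rw [hsp, hsp]
    refine hray _ _ (by simpa using hx) (by simpa using hy) ?_ ?_
    · rw [← hsp]; exact hcop _ hxc
    · rw [← map_sub]; exact hxy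
  · intro g
    obtain ⟨a, ha, hac, hag⟩ := hsur g
    refine ⟨a.comap (φ : OO A B →+* 𝓞 (kk A B)), ?_, hcop' a hac, ?_⟩
    · intro h
      apply ha
      rw [← hmc a, h, Ideal.map_bot]
    · show ψ' _ = g
      rw [hmc]; exact hag
  · rintro Q q hq hQ hnQ hQc ⟨P, hP, hPc, hPQ⟩
    have hquot : ∀ (I : Ideal (𝓞 (kk A B))) (J : Ideal (OO A B)),
        I = J.map (φ : OO A B →+* 𝓞 (kk A B)) → Nat.card (𝓞 (kk A B) ⧸ I) = nI J := by
      intro I J hIJ
      exact (Nat.card_congr (Ideal.quotientEquiv J I φ hIJ).toEquiv).symm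
    have hv0 : Q.map (φ : OO A B →+* 𝓞 (kk A B)) ≠ ⊥ := by
      intro h
      have h2 := hquot _ Q rfl
      rw [h, hnQ] at h2
      have h3 : Nat.card (𝓞 (kk A B) ⧸ (⊥ : Ideal (𝓞 (kk A B)))) = 0 := by
        have : Infinite (𝓞 (kk A B) ⧸ (⊥ : Ideal (𝓞 (kk A B)))) :=
          Infinite.of_injective _ (RingEquiv.quotientBot (𝓞 (kk A B))).symm.injective
        exact Nat.card_eq_zero_of_infinite
      rw [h3] at h2
      exact hq.ne_zero h2.symm
    have hw0 : P ≠ ⊥ := by
      intro h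
      rw [h] at hPc
      have h3 : Nat.card (𝓞 E ⧸ (⊥ : Ideal (𝓞 E))) = 0 := by
        have : Infinite (𝓞 E ⧸ (⊥ : Ideal (𝓞 E))) :=
          Infinite.of_injective _ (RingEquiv.quotientBot (𝓞 E)).symm.injective
        exact Nat.card_eq_zero_of_infinite
      rw [h3] at hPc
      exact hq.ne_zero hPc.symm
    let v : HeightOneSpectrum (𝓞 (kk A B)) :=
      ⟨Q.map (φ : OO A B →+* 𝓞 (kk A B)), Ideal.map_isPrime_of_equiv φ, hv0⟩
    let w : HeightOneSpectrum (𝓞 E) := ⟨P, hP, hw0⟩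
    refine hdeg1 v (hcop Q hQc) ⟨w, ?_, ?_⟩
    · show P.under (𝓞 (kk A B)) = Q.map (φ : OO A B →+* 𝓞 (kk A B))
      ext z
      obtain ⟨x, rfl⟩ := φ.surjective z
      have h2 : φ x ∈ Q.map (φ : OO A B →+* 𝓞 (kk A B)) ↔ x ∈ Q := by
        constructor
        · intro h
          have h3 : x ∈ (Q.map (φ : OO A B →+* 𝓞 (kk A B))).comap
            (φ : OO A B →+* 𝓞 (kk A B)) := h
          rwa [Ideal.comap_map_of_bijective (φ : OO A B →+* 𝓞 (kk A B)) φ.bijective] at h3
        · intro h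
          exact Ideal.mem_map_of_mem _ h
      rw [h2, Ideal.under, Ideal.mem_comap]
      exact (hPQ x (algebraMap (𝓞 (kk A B)) (𝓞 E) (φ x)) (hφ x)).symm
    · show Ideal.absNorm P = Ideal.absNorm (Q.map (φ : OO A B →+* 𝓞 (kk A B)))
      rw [Ideal.absNorm_apply, Ideal.absNorm_apply, Submodule.cardQuot_apply,
        Submodule.cardQuot_apply, hPc, hquot _ Q rfl, hnQ]

end

end Pool.Agent.JT


end
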