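import Mathlib
import Pool.Agent.MVF.C014
import Pool.Agent.MVF.C021
import Pool.Agent.MVF.C033
import Pool.Agent.MVF.C035
import Pool.Agent.MVF.C037
import Pool.Agent.MVF.C039
import Pool.Agent.MVF.C072
import Pool.Agent.MVF.C083

/-! Parts: MUX.XT_CHQ, MUX.XT_QPE, MUX.XT_EXI, MUX.XT_ITG, MUX.XT_EXP, MUX.XT_MOD, MUX.XT_MOP, MU3.T_GAU, MUX.XT_GAU, MUX.XT_WID, MUX.XT_RED, MU3.T_POC, MUX.XT_POI, MUX.XT_BND, MUX.XT_DIF, MU3.T_MBF, MUX.N_GP, MUX.N_LOC, MU3.P_MAINK, MU3.P_NRM, MUX.J_INJ, MUX.W_DIS, MU3.W_MEMC, MUX.HY_CLN, MuSym.Fn, MU3.P_KM2 -/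

namespace Pool.Agent.MU3.P_KM2
end Pool.Agent.MU3.P_KM2
namespace Pool.Agent.MU3.P_MAINK
end Pool.Agent.MU3.P_MAINK
namespace Pool.Agent.MU3B.POC
end Pool.Agent.MU3B.POC
namespace Pool.Agent.MU3T.T_GAU
end Pool.Agent.MU3T.T_GAU
namespace Pool.Agent.MU3V.MEMC18
end Pool.Agent.MU3V.MEMC18
namespace Pool.Agent.MUXJ.Jinj
end Pool.Agent.MUXJ.Jinj
namespace Pool.Agent.MUXN.LOC
end Pool.Agent.MUXN.LOC
namespace Pool.Agent.MUXT.BND43
end Pool.Agent.MUXT.BND43
namespace Pool.Agent.MUXT.Dif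
end Pool.Agent.MUXT.Dif
namespace Pool.Agent.MUXT.ExpXT
end Pool.Agent.MUXT.ExpXT
namespace Pool.Agent.MUXT.MOD19
end Pool.Agent.MUXT.MOD19
namespace Pool.Agent.MUXT.QPEaux
end Pool.Agent.MUXT.QPEaux
namespace Pool.Agent.MUXT.RedX
end Pool.Agent.MUXT.RedX
namespace Pool.Agent.MUXT.WidX
end Pool.Agent.MUXT.WidX
namespace Pool.Agent.MUXT.X_GAU
end Pool.Agent.MUXT.X_GAU
namespace Pool.Agent.MUXT.X_POI
end Pool.Agent.MUXT.X_POI

section

/-!
# MUX, block XT, module CHQ: `chiQ` is the quadratic character (helper1)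
-/

set_option autoImplicit false

namespace Pool.Agent.MUXT

open _root_.MU3

namespace ChqAux

theorem prime_odd {p : ℕ} (hp : p.Prime) {D : ℤ} (hd : ¬ (p : ℤ) ∣ 2 * D) : p ≠ 2 := by
  rintro rfl
  exact hd ⟨D, by norm_num⟩

/-- quadratic reciprocity for `D ≡ 3` modulo 4 -/
theorem rec_three (D p : ℕ) (hD : D % 4 = 3) (hp : p % 2 = 1) :
    jacobiSym (p : ℤ) D = jacobiSym (-(D : ℤ)) p := by
  have hpo : Odd p := Nat.odd_iff.mpr hp
  have hDo : Odd D := Nat.odd_iff.mpr (by omega)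
  have h1 : jacobiSym (-(D : ℤ)) p = ZMod.χ₄ p * jacobiSym (D : ℤ) p := jacobiSym.neg _ hpo
  rw [h1]
  have h4 : p % 4 = 1 ∨ p % 4 = 3 := by omega
  rcases h4 with h | h
  · rw [ZMod.χ₄_nat_one_mod_four h, one_mul,
      jacobiSym.quadratic_reciprocity_one_mod_four h hDo]
  · rw [ZMod.χ₄_nat_three_mod_four h, jacobiSym.quadratic_reciprocity_three_mod_four h hD]
    ring

theorem chi_one (D : ℕ) (hD : D % 4 = 3) :
    IsChi (D : ℤ) (fun d => jacobiSym d D) := by
  refine ⟨jacobiSym.one_left D, ?_, ?_, ?_⟩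
  · intro p hp hd
    have hp2 := prime_odd hp.out hd
    rw [jacobiSym.legendreSym.to_jacobiSym]
    exact rec_three D p hD (hp.out.eq_two_or_odd.resolve_left hp2)
  · intro d d' _ _ _ hdd
    show jacobiSym d D = jacobiSym d' D
    rw [jacobiSym.mod_left d, jacobiSym.mod_left d']
    have h : d % (D : ℤ) = d' % (D : ℤ) := (Int.modEq_iff_dvd.mpr hdd : d' ≡ d [ZMOD D]).symm
    rw [h]
  · intro d
    show jacobiSym (-d) D = -jacobiSym d D
    rw [jacobiSym.neg _ (Nat.odd_iff.mpr (by omega)), ZMod.χ₄_nat_three_mod_four hD]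
    ring

theorem chi_zero (A : ℤ) (hA : A < 0) :
    IsChi (-(4 * A)) (fun d => jacobiSym A d.natAbs * d.sign) := by
  refine ⟨by simp, ?_, ?_, ?_⟩
  · intro p hp hd
    have hp2 := prime_odd hp.out hd
    have h2 : ((2 : ℤ) : ZMod p) ≠ 0 := by
      intro h
      rw [ZMod.intCast_zmod_eq_zero_iff_dvd] at h
      exact hd (h.trans ⟨-(4 * A), by ring⟩)
    have e1 : -(-(4 * A)) = A * 2 ^ 2 := by ring
    rw [e1, legendreSym.mul, legendreSym.sq_one' p h2, mul_one,
      jacobiSym.legendreSym.to_jacobiSym]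
    have hs : ((p : ℤ)).sign = 1 := Int.sign_eq_one_of_pos (by exact_mod_cast hp.out.pos)
    simp [hs]
  · intro d d' hd hd' hco hdd
    show jacobiSym A d.natAbs * d.sign = jacobiSym A d'.natAbs * d'.sign
    rw [Int.sign_eq_one_of_pos hd, Int.sign_eq_one_of_pos hd', mul_one, mul_one]
    have hodd : d % 2 = 1 := by
      by_contra h
      have h2 : (2 : ℤ) ∣ d := by omega
      have h3 : (2 : ℤ) ∣ -(4 * A) := ⟨-(2 * A), by ring⟩
      have h4 := hco.isUnit_of_dvd' h2 h3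
      rw [Int.isUnit_iff] at h4
      omega
    have hodd' : d' % 2 = 1 := by
      have h3 : (2 : ℤ) ∣ d - d' := dvd_trans ⟨-(2 * A), by ring⟩ hdd
      omega
    have ho : Odd d.natAbs := by
      rw [Nat.odd_iff]; omega
    have ho' : Odd d'.natAbs := by
      rw [Nat.odd_iff]; omega
    rw [jacobiSym.mod_right A ho, jacobiSym.mod_right A ho']
    congr 1
    have hm : d'.natAbs ≡ d.natAbs [MOD (4 * A.natAbs)] := by
      rw [Nat.modEq_iff_dvd]
      have e1 : ((4 * A.natAbs : ℕ) : ℤ) = -(4 * A) := by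
        push_cast
        rw [abs_of_neg hA]
        ring
      have e2 : ((d.natAbs : ℕ) : ℤ) = d := Int.natAbs_of_nonneg hd.le
      have e3 : ((d'.natAbs : ℕ) : ℤ) = d' := Int.natAbs_of_nonneg hd'.le
      rw [e1, e2, e3]
      exact hdd
    exact hm.symm
  · intro d
    show jacobiSym A (-d).natAbs * (-d).sign = -(jacobiSym A d.natAbs * d.sign)
    rw [Int.natAbs_neg, Int.sign_neg]
    ring

end ChqAux

theorem tx_CHQ : Xs_CHQ := by
  intro A B hB hneg
  rcases hB with rfl | rfl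
  · have hA : A < 0 := by
      have : (0 : ℤ) ^ 2 + 4 * A = 4 * A := by ring
      omega
    have e1 : -((0 : ℤ) ^ 2 + 4 * A) = -(4 * A) := by ring
    have e2 : chiQ A 0 = fun d => jacobiSym A d.natAbs * d.sign := by
      funext d
      unfold chiQ
      simp
    rw [e1, e2]
    exact ChqAux.chi_zero A hA
  · have e0 : (1 : ℤ) ^ 2 + 4 * A = 1 + 4 * A := by ring
    rw [e0] at hneg
    obtain ⟨D, hD⟩ : ∃ D : ℕ, (D : ℤ) = -(1 + 4 * A) := ⟨(-(1 + 4 * A)).toNat, by omega⟩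
    have e2 : chiQ A 1 = fun d => jacobiSym d D := by
      funext d
      unfold chiQ
      rw [if_pos rfl, e0, ← hD, Int.toNat_natCast]
    rw [e0, e2, ← hD]
    exact ChqAux.chi_one D (by omega)

end Pool.Agent.MUXT


end

section

/-!
# MUX, block XT, module QPE: the primitive under `Gamma_0(N0)` (helper79; model `MU3/T_QPE.lean`)
-/

set_option autoImplicit false

namespace Pool.Agent.MUXT

open _root_.MU3 _root_.Pool.Agent.MuSym OnePoint Filter Topology
open _root_.Pool.Agent.MUXF (nI thetaI thetaIntI IvI IcI PhiI)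
open _root_.Pool.Agent.MU3T (Su_MBF Su_MCO)
open _root_.Pool.Agent.MU3F (ex)
open scoped ComplexConjugate

noncomputable section

namespace QPEaux

theorem ThI_eq (F : QF) (W : Z2 → ℂ) (z : ℂ) : ThI F W z = 1 / 2 * ∑' y, tI F W z y := rfl

theorem Th_eq (F : QF) (W : Z2 → ℂ) (z : ℂ) : Th F W z = 1 / 2 * ∑' y, tm F W z y := rfl

theorem hd_ThI (hDIF : Xs_DIF) {F : QF} (hF : F.Pos) {W : Z2 → ℂ} (hb : Bd W) {z : ℂ}
    (hz : 0 < z.im) : HasDerivAt (ThI F W) (2 * Real.pi * Complex.I * Th F W z) z := by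
  have h := ((hDIF F hF W hb).2.2 z hz).const_mul (1 / 2 : ℂ)
  have e1 : (1 / 2 : ℂ) * (2 * Real.pi * Complex.I * ∑' y, tm F W z y) =
      2 * Real.pi * Complex.I * Th F W z := by
    rw [Th_eq]; ring
  rw [e1] at h
  exact h

/-- the series of the primitive is small near `i oo` -/
theorem van (hBND : Xs_BND) {F : QF} (hF : F.Pos) {W : Z2 → ℂ} (hb : Bd W) {ε : ℝ} (hε : 0 < ε) :
    ∃ R : ℝ, ∀ z : ℂ, R ≤ z.im → ‖∑' y, tI F W z y‖ < ε := by
  obtain ⟨C, hC, h⟩ := hBND F hF W hb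
  have h1 : Tendsto (fun t : ℝ => C * Real.exp (-(2 * Real.pi * t))) atTop (𝓝 (C * 0)) := by
    refine Tendsto.const_mul C ?_
    refine Real.tendsto_exp_neg_atTop_nhds_zero.comp ?_
    exact tendsto_id.const_mul_atTop (by positivity)
  rw [mul_zero] at h1
  obtain ⟨R, hR⟩ := (h1.eventually (gt_mem_nhds hε)).exists_forall_of_atTop
  refine ⟨max R 1, fun z hz => ?_⟩
  exact ((h z ((le_max_right _ _).trans hz)).2).trans_lt (hR z.im ((le_max_left _ _).trans hz))

end QPEaux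

open _root_.Pool.Agent.MUXT.QPEaux in
theorem tx_QPE (hWBD : Xs_WBD) (hDIF : Xs_DIF) (hBND : Xs_BND) (hMBF : Su_MBF) (hMOD : Xs_MOD)
    (hCUS : Xs_CUS) : Xs_QPE := by
  intro F hF χ hχ W ε₀ G hW a b c d hdet hN
  have hb : Bd W := hWBD.1 G W hW.pos hW.per
  set H : Set ℂ := {z : ℂ | 0 < z.im} with hH
  have hopen : IsOpen H := isOpen_lt continuous_const Complex.continuous_im
  have hconv : Convex ℝ H := convex_halfSpace_im_gt 0
  set k : ℂ := (χ d : ℂ) * ε₀ d with hk
  set D : ℂ → ℂ := fun z => ThI F W (((a : ℂ) * z + b) / ((c : ℂ) * z + d)) -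
    k * ThI F W z with hD
  have hder : ∀ z ∈ H, HasDerivAt D 0 z := by
    intro z hz
    obtain ⟨h1, h2, h3⟩ := hMBF a b c d hdet z hz
    have h4 := (hd_ThI hDIF hF hb h2).comp z h3
    have h5 := (hd_ThI hDIF hF hb hz).const_mul k
    have h6 := h4.sub h5
    have h7 := hMOD F hF χ hχ W ε₀ G hW a b c d hdet hN z hz
    refine HasDerivAt.congr_deriv h6 ?_
    rw [h7, ← hk]
    field_simp
    ring
  have hdiff : DifferentiableOn ℂ D H := fun z hz =>
    (hder z hz).differentiableAt.differentiableWithinAt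
  have hconst : ∀ z ∈ H, ∀ w ∈ H, D z = D w := by
    intro z hz w hw
    exact hopen.is_const_of_deriv_eq_zero hconv.isPreconnected hdiff
      (fun x hx => (hder x hx).deriv) hz hw
  have hI : Complex.I ∈ H := by simp [hH]
  have hC := hCUS F hF W G hW.pos hW.per a b c d hdet (D Complex.I) (by
    intro ε hε
    have hK : 0 < ‖k‖ + 1 := by positivity
    obtain ⟨R, hR'⟩ := van hBND hF hb (ε := ε / (‖k‖ + 1)) (by positivity)
    refine ⟨R, ?_⟩
    intro z hz hz0
    have h1 := hconst z hz0 Complex.I hI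
    have h2 : ThI F W (((a : ℂ) * z + b) / ((c : ℂ) * z + d)) - D Complex.I =
        k * ThI F W z := by
      rw [← h1]
      simp only [hD]
      ring
    rw [h2, ThI_eq, norm_mul k, norm_mul (1 / 2 : ℂ)]
    have h3 := hR' z hz
    rw [lt_div_iff₀ hK] at h3
    have h4 : ‖(1 / 2 : ℂ)‖ = 1 / 2 := by norm_num
    rw [h4]
    have h5 : 0 ≤ ‖∑' y, tI F W z y‖ := norm_nonneg _
    have h6 : 0 ≤ ‖k‖ := norm_nonneg _
    nlinarith [mul_nonneg h5 h6])
  intro z hz
  have h1 := hconst z hz Complex.I hI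
  rw [hC] at h1
  simp only [hD] at h1
  rw [← h1]
  ring

end

end Pool.Agent.MUXT


end

section

/-!
# MUX, block XT: module EXI, expansion of the primitive at all cusps
-/

set_option autoImplicit false

namespace Pool.Agent.MUXT

open _root_.MU3 _root_.Pool.Agent.MuSym OnePoint Filter Topology
open _root_.Pool.Agent.MUXF (nI thetaI thetaIntI IvI IcI PhiI)
open _root_.Pool.Agent.MU3T (Su_MBF Su_MCO)
open _root_.Pool.Agent.MU3F (ex)
open scoped ComplexConjugate

theorem exi_isOpen : IsOpen {z : ℂ | 0 < z.im} := isOpen_lt continuous_const Complex.continuous_im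

theorem exi_conn : IsPreconnected {z : ℂ | 0 < z.im} :=
  (convex_halfSpace_im_gt 0).isPreconnected

theorem tx_EXI (hWBD : Xs_WBD) (hDIF : Xs_DIF) (hBND : Xs_BND) (hMBF : Su_MBF) (hEXP : Xs_EXP)
    (hCUS : Xs_CUS) : Xs_EXI := by
  intro F hFp W G hG hper a b c d hdet
  obtain ⟨M, W', hM, hMN, ⟨C0, hC0⟩, hth⟩ := hEXP F hFp W G hG hper a b c d hdet
  have hbe : Bd W := hWBD.1 G W hG hper
  have hMc : (M : ℂ) ≠ 0 := by exact_mod_cast hM.ne'
  have hMr : (0 : ℝ) < M := by exact_mod_cast hM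
  have hbW : Bd (fun y : Z2 => (M : ℂ) * W' y) := by
    refine ⟨M * C0, fun y => ?_⟩
    rw [norm_mul, Complex.norm_natCast]
    exact mul_le_mul_of_nonneg_left (hC0 y) hMr.le
  have him : ∀ z : ℂ, (z / M).im = z.im / M := fun z => Complex.div_natCast_im z M
  -- the derivative of the primitive
  have hP : ∀ z : ℂ, 0 < z.im →
      HasDerivAt (fun z : ℂ => ∑' y, tI F (fun y : Z2 => (M : ℂ) * W' y) (z / M) y)
        (2 * Real.pi * Complex.I * ∑' y, tm F W' (z / M) y) z := by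
    intro z hz
    have h1 := (hDIF F hFp _ hbW).2.2 (z / M) (by rw [him]; positivity)
    have h2 : HasDerivAt (fun z : ℂ => z / M) (1 / M) z := (hasDerivAt_id' z).div_const _
    have h3 := HasDerivAt.comp z h1 h2
    refine h3.congr_deriv ?_
    have h4 : ∀ y : Z2, tm F (fun y : Z2 => (M : ℂ) * W' y) (z / M) y =
        (M : ℂ) * tm F W' (z / M) y := by
      intro y
      unfold tm
      ring
    rw [tsum_congr h4, tsum_mul_left]
    field_simp
  have hT : ∀ z : ℂ, 0 < z.im →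
      HasDerivAt (fun z : ℂ => ThI F W z) (2 * Real.pi * Complex.I * Th F W z) z := by
    intro z hz
    have h1 := ((hDIF F hFp W hbe).2.2 z hz).const_mul (1 / 2)
    refine h1.congr_deriv ?_
    unfold Th
    ring
  have hF : ∀ z : ℂ, 0 < z.im →
      HasDerivAt (fun z : ℂ => ThI F W (((a : ℂ) * z + b) / ((c : ℂ) * z + d)))
        (2 * Real.pi * Complex.I * ∑' y, tm F W' (z / M) y) z := by
    intro z hz
    obtain ⟨k1, k2, k3⟩ := hMBF a b c d hdet z hz
    have h1 := HasDerivAt.comp (h₂ := fun z : ℂ => ThI F W z) z (hT _ k2) k3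
    refine h1.congr_deriv ?_
    rw [hth z hz]
    field_simp
  -- the difference is constant
  set D : ℂ → ℂ := fun z => ThI F W (((a : ℂ) * z + b) / ((c : ℂ) * z + d)) -
    ∑' y, tI F (fun y : Z2 => (M : ℂ) * W' y) (z / M) y with hD
  have hDd : ∀ z : ℂ, 0 < z.im → HasDerivAt D 0 z := by
    intro z hz
    refine ((hF z hz).sub (hP z hz)).congr_deriv (sub_self _)
  have hI : (0 : ℝ) < Complex.I.im := by norm_num
  have hconst : ∀ z : ℂ, 0 < z.im → D z = D Complex.I := by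
    intro z hz
    refine exi_isOpen.is_const_of_deriv_eq_zero exi_conn
      (fun w hw => (hDd w hw).differentiableAt.differentiableWithinAt)
      (fun w hw => (hDd w hw).deriv) hz hI
  have hC : D Complex.I = PhiQ F W ∞ (mob a b c d ∞) := by
    refine hCUS F hFp W G hG hper a b c d hdet _ fun ε hε => ?_
    obtain ⟨C, hC, hb⟩ := hBND F hFp _ hbW
    refine ⟨max 1 (C / ε) * M, fun z hz hz0 => ?_⟩
    rw [← hconst z hz0, hD]
    simp only [sub_sub_cancel]
    have hy : max 1 (C / ε) ≤ (z / M).im := by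
      rw [him, le_div_iff₀ hMr]
      exact hz
    have hy1 : 1 ≤ (z / M).im := (le_max_left _ _).trans hy
    have hy2 : C / ε ≤ (z / M).im := (le_max_right _ _).trans hy
    refine (hb _ hy1).2.trans_lt ?_
    have h2 := Real.add_one_le_exp (2 * Real.pi * (z / M).im)
    have h3 : (z / M).im < Real.exp (2 * Real.pi * (z / M).im) := by
      have := Real.pi_gt_three
      nlinarith
    rw [div_le_iff₀ hε] at hy2
    rw [Real.exp_neg, ← div_eq_mul_inv, div_lt_iff₀ (Real.exp_pos _)]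
    calc C ≤ (z / M).im * ε := hy2
      _ < Real.exp (2 * Real.pi * (z / M).im) * ε := mul_lt_mul_of_pos_right h3 hε
      _ = ε * Real.exp (2 * Real.pi * (z / M).im) := mul_comm _ _
  refine ⟨M, fun y => (M : ℂ) * W' y, hM, hMN, hbW, fun z hz => ?_⟩
  have h1 := hconst z hz
  rw [hC, hD] at h1
  simp only at h1
  rw [← h1]
  ring

end Pool.Agent.MUXT


end

section

/-!
# MUX, block XT: integrability on vertical lines
-/

set_option autoImplicit false

namespace Pool.Agent.MUXT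

open _root_.MU3 _root_.Pool.Agent.MUX _root_.Pool.Agent.MuSym OnePoint Filter Topology
open _root_.Pool.Agent.MU3T (Su_MBF Su_MCO)
open _root_.Pool.Agent.MU3F (ex)
open scoped ComplexConjugate

noncomputable section

theorem tx_ITG (hWBD : Xs_WBD) (hDIF : Xs_DIF) (hBND : Xs_BND) (hEXP : Xs_EXP) : Xs_ITG := by
  intro F hF W G hG hPer r
  have hBd : Bd W := hWBD.1 G W hG hPer
  obtain ⟨-, hdiff, -⟩ := hDIF F hF W hBd
  -- continuity
  have hcont : ContinuousOn (fun t : ℝ => Th F W ((r : ℂ) + t * Complex.I)) (Set.Ioi 0) := by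
    intro t ht
    have ht0 : 0 < t := ht
    have him : 0 < ((r : ℂ) + t * Complex.I).im := by simp [ht0]
    have h1 : ContinuousAt (fun z => ∑' y, tm F W z y) ((r : ℂ) + t * Complex.I) :=
      (hdiff _ him).continuousAt
    have h2 : ContinuousAt (fun t : ℝ => (r : ℂ) + t * Complex.I) t := by fun_prop
    have h3 : ContinuousAt (fun t : ℝ => ∑' y, tm F W ((r : ℂ) + t * Complex.I) y) t :=
      ContinuousAt.comp (f := fun t : ℝ => (r : ℂ) + t * Complex.I) h1 h2
    have h4 : ContinuousAt (fun t : ℝ => Th F W ((r : ℂ) + t * Complex.I)) t := by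
      unfold Th
      exact continuousAt_const.mul h3
    exact h4.continuousWithinAt
  -- the bound on `(1, oo)`
  obtain ⟨C, hC0, hC⟩ := hBND F hF W hBd
  have hint1 : MeasureTheory.IntegrableOn (fun t : ℝ => Th F W ((r : ℂ) + t * Complex.I))
      (Set.Ioi 1) := by
    have hg : MeasureTheory.IntegrableOn (fun t : ℝ => C * Real.exp (-(2 * Real.pi) * t))
        (Set.Ioi 1) :=
      (integrableOn_exp_mul_Ioi (by have := Real.pi_pos; linarith) 1).const_mul C
    refine MeasureTheory.Integrable.mono' hg ?_ ?_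
    · exact (hcont.mono (Set.Ioi_subset_Ioi zero_le_one)).aestronglyMeasurable measurableSet_Ioi
    · refine (MeasureTheory.ae_restrict_iff' measurableSet_Ioi).2 (Filter.Eventually.of_forall ?_)
      intro t ht
      have ht1 : 1 < t := ht
      have h1 := (hC ((r : ℂ) + t * Complex.I) (by simp [ht1.le])).1
      have him : ((r : ℂ) + t * Complex.I).im = t := by simp
      rw [him] at h1
      unfold Th
      rw [norm_mul]
      have h2 : ‖(1 / 2 : ℂ)‖ = 1 / 2 := by simp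
      rw [h2]
      have h3 : C * Real.exp (-(2 * Real.pi * t)) = C * Real.exp (-(2 * Real.pi) * t) := by
        rw [neg_mul]
      rw [← h3]
      have := norm_nonneg (∑' y, tm F W ((r : ℂ) + t * Complex.I) y)
      linarith
  -- the bound on `(0, 1]`
  obtain ⟨B, hB⟩ : ∃ B : ℝ, ∀ t : ℝ, 0 < t → t ≤ 1 →
      ‖Th F W ((r : ℂ) + t * Complex.I)‖ ≤ B := by
    have hq0 : (0 : ℤ) < (r.den : ℤ) := by exact_mod_cast r.den_pos
    have hcop : IsCoprime r.num (r.den : ℤ) := by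
      rw [Int.isCoprime_iff_gcd_eq_one]
      exact r.reduced
    obtain ⟨u, v, huv⟩ := hcop
    have hdet : r.num * u - (-v) * (r.den : ℤ) = 1 := by linarith
    obtain ⟨M, W', hM, -, hW', hE⟩ := hEXP F hF W G hG hPer r.num (-v) r.den u hdet
    obtain ⟨C', hC'0, hC'⟩ := hBND F hF W' hW'
    set q : ℝ := (r.den : ℝ) with hq
    have hqpos : 0 < q := by rw [hq]; exact_mod_cast r.den_pos
    have hMpos : (0 : ℝ) < M := by exact_mod_cast hM
    have hMC : (M : ℂ) ≠ 0 := by exact_mod_cast hM.ne'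
    set t0 : ℝ := 1 / (q ^ 2 * M) with ht0
    have ht0pos : 0 < t0 := by rw [ht0]; positivity
    obtain ⟨B1, hB1⟩ := (isCompact_Icc (a := t0) (b := (1 : ℝ))).exists_bound_of_continuousOn
      (hcont.mono (fun t ht => lt_of_lt_of_le ht0pos ht.1))
    refine ⟨max B1 ((q * M) ^ 2 * C'), fun t ht ht1 => ?_⟩
    by_cases hcase : t0 ≤ t
    · exact (hB1 t ⟨hcase, ht1⟩).trans (le_max_left _ _)
    push Not at hcase
    refine le_trans ?_ (le_max_right _ _)
    -- the point `z`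
    set z : ℂ := -(u : ℂ) / (q : ℂ) + (1 / (q ^ 2 * t) : ℝ) * Complex.I with hz
    have hqC : (q : ℂ) ≠ 0 := by exact_mod_cast hqpos.ne'
    have htC : (t : ℂ) ≠ 0 := by exact_mod_cast ht.ne'
    have hzim : z.im = 1 / (q ^ 2 * t) := by
      rw [hz]
      have h1 : (-(u : ℂ) / (q : ℂ)) = ((-(u : ℝ) / q : ℝ) : ℂ) := by push_cast; ring
      rw [h1, Complex.add_im, Complex.ofReal_im, Complex.im_ofReal_mul, Complex.I_im]
      ring
    have hzim0 : 0 < z.im := by rw [hzim]; positivity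
    have hden : (((r.den : ℤ) : ℂ)) = (q : ℂ) := by rw [hq]; push_cast; rfl
    have hI2 : Complex.I ^ 2 = -1 := Complex.I_sq
    have hqz : (((r.den : ℤ) : ℂ)) * z + (u : ℂ) = Complex.I / (q * t) := by
      rw [hden, hz]
      push_cast
      field_simp
      ring
    have hrq : (r : ℂ) = (r.num : ℂ) / (q : ℂ) := by
      rw [hq, Rat.cast_def]
      push_cast
      rfl
    have huvC : (u : ℂ) * r.num + (v : ℂ) * q = 1 := by
      have h1 : ((u * r.num + v * (r.den : ℤ) : ℤ) : ℂ) = 1 := by rw [huv]; simp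
      push_cast at h1
      rw [← hden]
      push_cast
      exact h1
    have hqz0 : Complex.I / ((q : ℂ) * t) ≠ 0 :=
      div_ne_zero Complex.I_ne_zero (mul_ne_zero hqC htC)
    have hmob : ((r.num : ℂ) * z + ((-v : ℤ) : ℂ)) / ((((r.den : ℤ) : ℂ)) * z + (u : ℂ)) =
        (r : ℂ) + t * Complex.I := by
      rw [hqz, div_eq_iff hqz0, hrq, hz]
      push_cast
      have h2 : (v : ℂ) = (1 - (u : ℂ) * r.num) / q := by
        field_simp
        linear_combination huvC
      rw [h2]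
      field_simp
      linear_combination (-(q : ℂ) * t) * hI2
    have hEz := hE z hzim0
    rw [hmob, hqz] at hEz
    have hwim : (z / (M : ℂ)).im = 1 / (q ^ 2 * t * M) := by
      have h1 : z / (M : ℂ) = z / ((M : ℝ) : ℂ) := by push_cast; rfl
      rw [h1, Complex.div_ofReal_im, hzim]
      field_simp
    have hx1 : 1 ≤ (z / (M : ℂ)).im := by
      rw [hwim, le_div_iff₀ (by positivity), one_mul]
      have h1 : t * (q ^ 2 * M) < 1 := by
        rw [ht0] at hcase
        rwa [lt_div_iff₀ (by positivity)] at hcase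
      nlinarith
    have hb := (hC' _ hx1).1
    rw [hEz, norm_mul]
    set x : ℝ := (z / (M : ℂ)).im with hx
    have hx0 : 0 ≤ x := by linarith
    have hnorm : ‖(Complex.I / ((q : ℂ) * t)) ^ 2‖ = (q * M * x) ^ 2 := by
      rw [norm_pow, norm_div, norm_mul, Complex.norm_I, Complex.norm_real, Complex.norm_real,
        Real.norm_of_nonneg hqpos.le, Real.norm_of_nonneg ht.le, hwim]
      congr 1
      field_simp
    rw [hnorm]
    have hexp : x ^ 2 * Real.exp (-(2 * Real.pi * x)) ≤ 1 := by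
      have h1 : x ^ 2 ≤ Real.exp (2 * Real.pi * x) := by
        have h2 := Real.quadratic_le_exp_of_nonneg (x := 2 * Real.pi * x)
          (by have := Real.pi_pos; positivity)
        have h3 : x ^ 2 ≤ (2 * Real.pi * x) ^ 2 / 2 := by
          have hpi := Real.pi_gt_three
          have : 2 * x ^ 2 ≤ (2 * Real.pi * x) ^ 2 := by
            have h4 : (2 * Real.pi * x) ^ 2 = (4 * Real.pi ^ 2) * x ^ 2 := by ring
            rw [h4]
            have : (2 : ℝ) ≤ 4 * Real.pi ^ 2 := by nlinarith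
            exact mul_le_mul_of_nonneg_right this (sq_nonneg x)
          linarith
        have h5 : 0 ≤ 2 * Real.pi * x := by have := Real.pi_pos; positivity
        linarith
      rw [Real.exp_neg, ← div_eq_mul_inv]
      exact (div_le_one (Real.exp_pos _)).2 h1
    calc (q * M * x) ^ 2 * ‖∑' y, tm F W' (z / M) y‖
        ≤ (q * M * x) ^ 2 * (C' * Real.exp (-(2 * Real.pi * x))) := by gcongr
      _ = ((q * M) ^ 2 * C') * (x ^ 2 * Real.exp (-(2 * Real.pi * x))) := by ring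
      _ ≤ ((q * M) ^ 2 * C') * 1 := by gcongr
      _ = (q * M) ^ 2 * C' := by ring
  have hint0 : MeasureTheory.IntegrableOn (fun t : ℝ => Th F W ((r : ℂ) + t * Complex.I))
      (Set.Ioc 0 1) := by
    have hg : MeasureTheory.IntegrableOn (fun _ : ℝ => B) (Set.Ioc (0 : ℝ) 1) :=
      MeasureTheory.integrableOn_const (by simp)
    refine MeasureTheory.Integrable.mono' hg ?_ ?_
    · exact (hcont.mono (fun t ht => ht.1)).aestronglyMeasurable measurableSet_Ioc
    · refine (MeasureTheory.ae_restrict_iff' measurableSet_Ioc).2 (Filter.Eventually.of_forall ?_)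
      intro t ht
      exact hB t ht.1 ht.2
  have hun := hint0.union hint1
  rwa [Set.Ioc_union_Ioi_eq_Ioi zero_le_one] at hun

end

end Pool.Agent.MUXT


end

section

/-!
# MUX, block XT, module EXP (helper83): expansion of the theta series of a form at all cusps
-/

set_option autoImplicit false

namespace Pool.Agent.MUXT

open _root_.MU3 _root_.Pool.Agent.MUX _root_.Pool.Agent.MuSym OnePoint Filter Topology
open _root_.Pool.Agent.MU3T (Su_MBF Su_MCO)
open _root_.Pool.Agent.MU3F (ex)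
open scoped ComplexConjugate

noncomputable section

namespace ExpXT

/-- the theta series of an integral form has period 1 -/
theorem Th_add_int (F : QF) (W : Z2 → ℂ) (n : ℤ) (z : ℂ) : Th F W (z + n) = Th F W z := by
  unfold Th tm
  congr 1
  refine tsum_congr fun x => ?_
  congr 1
  rw [mul_add, Complex.exp_add]
  have h1 : 2 * Real.pi * Complex.I * (F.ev x : ℂ) * (n : ℂ) =
      ((F.ev x * n : ℤ) : ℂ) * (2 * Real.pi * Complex.I) := by
    push_cast
    ring
  rw [h1, Complex.exp_int_mul_two_pi_mul_I, mul_one]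

/-- the case `c = 0` -/
theorem exp_zero (F : QF) (W : Z2 → ℂ) (hW : Bd W) (G : ℕ) (a b d : ℤ) (had : a * d = 1) :
    ∃ (M : ℕ) (W' : Z2 → ℂ), 0 < M ∧ (M : ℤ) ∣ F.D * G ^ 2 ∧ Bd W' ∧ ∀ z : ℂ, 0 < z.im →
      Th F W (((a : ℂ) * z + b) / (((0 : ℤ) : ℂ) * z + d)) =
        (((0 : ℤ) : ℂ) * z + d) ^ 2 * ∑' y, tm F W' (z / M) y := by
  obtain ⟨C, hC⟩ := hW
  have hmain : ∀ z : ℂ, ∑' y, tm F (fun x => 1 / 2 * W x) (z / ((1 : ℕ) : ℂ)) y = Th F W z := by
    intro z
    unfold Th tm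
    rw [← tsum_mul_left]
    refine tsum_congr fun y => ?_
    rw [Nat.cast_one, div_one]
    ring
  refine ⟨1, fun x => 1 / 2 * W x, one_pos, by simp, ⟨1 / 2 * C, fun x => ?_⟩, fun z hz => ?_⟩
  · rw [norm_mul]
    have h1 : ‖(1 / 2 : ℂ)‖ = 1 / 2 := by norm_num
    rw [h1]
    have := hC x
    linarith
  · rw [hmain]
    rcases Int.eq_one_or_neg_one_of_mul_eq_one' had with ⟨rfl, rfl⟩ | ⟨rfl, rfl⟩
    · have h1 : (((1 : ℤ) : ℂ) * z + b) / (((0 : ℤ) : ℂ) * z + ((1 : ℤ) : ℂ)) = z + b := by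
        push_cast
        ring
      rw [h1, Th_add_int]
      push_cast
      ring
    · have h1 : (((-1 : ℤ) : ℂ) * z + b) / (((0 : ℤ) : ℂ) * z + ((-1 : ℤ) : ℂ)) =
          z + ((-b : ℤ) : ℂ) := by
        push_cast
        ring
      rw [h1, Th_add_int]
      push_cast
      ring

/-- the case `c > 0` -/
theorem exp_pos (hRED : Xs_RED) (hWBD : Xs_WBD) (hMBF : Su_MBF) (F : QF) (hF : F.Pos)
    (W : Z2 → ℂ) (G : ℕ) (hG : 0 < G) (hW : Per G W)
    (a b d : ℤ) (q : ℕ) (hq : 0 < q) (hdet : a * d - b * q = 1) :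
    ∃ (M : ℕ) (W' : Z2 → ℂ), 0 < M ∧ (M : ℤ) ∣ F.D * G ^ 2 ∧ Bd W' ∧ ∀ z : ℂ, 0 < z.im →
      Th F W (((a : ℂ) * z + b) / (((q : ℤ) : ℂ) * z + d)) =
        (((q : ℤ) : ℂ) * z + d) ^ 2 * ∑' y, tm F W' (z / M) y := by
  have hD := hF.D_pos
  set Dn : ℕ := F.D.toNat with hDn
  have hDn1 : (Dn : ℤ) = F.D := Int.toNat_of_nonneg hD.le
  have hDn0 : 0 < Dn := by
    have : (0 : ℤ) < (Dn : ℤ) := by rw [hDn1]; exact hD
    exact_mod_cast this
  have hDc : ((F.D : ℤ) : ℂ) = (Dn : ℂ) := by rw [← hDn1]; push_cast; rfl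
  obtain ⟨C, hC⟩ := hWBD.2 F W G q a (hWBD.1 G W hG hW)
  have hC0 : 0 ≤ C := (norm_nonneg _).trans (hC 0)
  have hqC : (q : ℂ) ≠ 0 := by exact_mod_cast hq.ne'
  have hGC : (G : ℂ) ≠ 0 := by exact_mod_cast hG.ne'
  have hDC : (Dn : ℂ) ≠ 0 := by exact_mod_cast hDn0.ne'
  refine ⟨Dn * G ^ 2, fun y => 1 / (2 * q * G ^ 3 * Dn) *
    (WW F W G q a y * Complex.exp (2 * Real.pi * Complex.I * (F.ev y : ℂ) *
      ((d : ℂ) / (q * (Dn * G ^ 2))))), by positivity, ?_, ?_, ?_⟩
  · push_cast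
    rw [hDn1]
  · refine ⟨‖(1 / (2 * q * G ^ 3 * Dn) : ℂ)‖ * C, fun y => ?_⟩
    rw [norm_mul, norm_mul]
    have h1 : ‖Complex.exp (2 * Real.pi * Complex.I * (F.ev y : ℂ) *
        ((d : ℂ) / (q * (Dn * G ^ 2))))‖ = 1 := by
      have h2 : 2 * Real.pi * Complex.I * (F.ev y : ℂ) * ((d : ℂ) / (q * (Dn * G ^ 2))) =
          ((2 * Real.pi * (F.ev y : ℝ) * ((d : ℝ) / (q * (Dn * G ^ 2))) : ℝ) : ℂ) *
            Complex.I := by
        push_cast
        ring
      rw [h2, Complex.norm_exp_ofReal_mul_I]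
    rw [h1, mul_one]
    exact mul_le_mul_of_nonneg_left (hC y) (norm_nonneg _)
  · intro z hz
    obtain ⟨hne, him, -⟩ := hMBF a b q d (by exact_mod_cast hdet) z hz
    have hne' : (q : ℂ) * z + d ≠ 0 := by simpa using hne
    set ζ : ℂ := -1 / (q * (q * z + d)) with hζ
    have hdetC : (a : ℂ) * d - b * q = 1 := by exact_mod_cast hdet
    have hγ : ((a : ℂ) * z + b) / (((q : ℤ) : ℂ) * z + d) = (((a / q : ℚ) : ℚ) : ℂ) + ζ := by
      rw [hζ]
      push_cast
      rw [div_add_div _ _ hqC (mul_ne_zero hqC hne'),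
        div_eq_div_iff hne' (mul_ne_zero hqC (mul_ne_zero hqC hne'))]
      linear_combination (-(q : ℂ) * (q * z + d)) * hdetC
    have hζim : 0 < ζ.im := by
      have h1 : ζ = ((a : ℂ) * z + b) / (((q : ℤ) : ℂ) * z + d) - (((a / q : ℚ) : ℚ) : ℂ) := by
        rw [hγ]; ring
      rw [h1, Complex.sub_im, Complex.ratCast_im, sub_zero]
      exact him
    rw [hγ, hRED F hF W G q hG hq hW a ζ hζim]
    have h2 : 1 / (2 * ((q : ℂ) * G) ^ 3 * (F.D : ℂ) * ζ ^ 2) =
        (((q : ℤ) : ℂ) * z + d) ^ 2 * (1 / (2 * q * G ^ 3 * Dn)) := by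
      rw [hζ, hDc]
      push_cast
      field_simp
    have h3 : -1 / (((q : ℂ) * G) ^ 2 * (F.D : ℂ) * ζ) =
        z / ((Dn * G ^ 2 : ℕ) : ℂ) + (d : ℂ) / (q * (Dn * G ^ 2)) := by
      rw [hζ, hDc]
      push_cast
      field_simp
    rw [h2, h3, mul_assoc]
    congr 1
    rw [← tsum_mul_left]
    refine tsum_congr fun y => ?_
    unfold tm
    rw [mul_add, Complex.exp_add]
    ring

end ExpXT

open _root_.Pool.Agent.MUXT.ExpXT in
theorem tx_EXP (hWBD : Xs_WBD) (hRED : Xs_RED) (hMBF : Su_MBF) : Xs_EXP := by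
  intro F hF W G hG hW a b c d hdet
  rcases lt_trichotomy c 0 with hc | rfl | hc
  · obtain ⟨q, hq⟩ := Int.eq_ofNat_of_zero_le (show 0 ≤ -c by omega)
    have hq0 : 0 < q := by
      have : (0 : ℤ) < q := by rw [← hq]; omega
      exact_mod_cast this
    obtain ⟨M, W', hM, hMN, hW', hz⟩ := exp_pos hRED hWBD hMBF F hF W G hG hW (-a) (-b) (-d) q
      hq0 (by rw [← hq]; linarith)
    refine ⟨M, W', hM, hMN, hW', fun z him => ?_⟩
    have h1 := hz z him
    rw [← hq] at h1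
    have h2 : (((-a : ℤ) : ℂ) * z + ((-b : ℤ) : ℂ)) / (((-c : ℤ) : ℂ) * z + ((-d : ℤ) : ℂ)) =
        ((a : ℂ) * z + b) / ((c : ℂ) * z + d) := by
      rw [← neg_div_neg_eq]
      push_cast
      congr 1 <;> ring
    rw [h2] at h1
    rw [h1]
    push_cast
    ring
  · exact exp_zero F W (hWBD.1 G W hG hW) G a b d (by linarith)
  · obtain ⟨q, hq⟩ := Int.eq_ofNat_of_zero_le hc.le
    have hq0 : 0 < q := by
      have : (0 : ℤ) < q := by rw [← hq]; omega
      exact_mod_cast this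
    subst hq
    exact exp_pos hRED hWBD hMBF F hF W G hG hW a b d q hq0 hdet

end

end Pool.Agent.MUXT


end

section

/-!
# MUX, block XT: module MOD (helper19; model `MU3/T_MOD.lean`)
-/

set_option autoImplicit false

namespace Pool.Agent.MUXT

open _root_.Pool.Agent.MU3T (Su_MBF)

namespace MOD19

theorem tm_int (F : QF) (W : Z2 → ℂ) (z : ℂ) (k : ℤ) (x : Z2) :
    tm F W (z + k) x = tm F W z x := by
  unfold tm
  have e : 2 * Real.pi * Complex.I * (F.ev x : ℂ) * (z + k) =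
      2 * Real.pi * Complex.I * (F.ev x : ℂ) * z +
        ((F.ev x * k : ℤ) : ℂ) * (2 * Real.pi * Complex.I) := by
    push_cast
    ring
  rw [e, Complex.exp_add, Complex.exp_int_mul_two_pi_mul_I, mul_one]

theorem Th_int (F : QF) (W : Z2 → ℂ) (z : ℂ) (k : ℤ) : Th F W (z + k) = Th F W z := by
  unfold Th
  rw [tsum_congr fun x => tm_int F W z k x]

theorem D_ge (F : QF) (hF : F.Pos) : 3 ≤ F.D := by
  have h1 := hF.D_pos
  have h2 : F.D = 4 * (F.a * F.c) - F.b ^ 2 := by unfold QF.D; ring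
  rcases Int.even_or_odd F.b with ⟨m, hm⟩ | ⟨m, hm⟩
  · have h3 : F.D = 4 * (F.a * F.c - m ^ 2) := by rw [h2, hm]; ring
    omega
  · have h3 : F.D = 4 * (F.a * F.c - m ^ 2 - m) - 1 := by rw [h2, hm]; ring
    omega

theorem eps_one {G : ℕ} {W : Z2 → ℂ} {ε : ℤ → ℂ} (hW : IsWt G W ε) (F : QF) (z : ℂ) :
    ε 1 * Th F W z = Th F W z := by
  have h1 : ∀ x, ε 1 * W x = W x := by
    intro x
    have h := hW.hom 1 isCoprime_one_left x
    rw [one_mul, one_mul] at h
    exact h.symm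
  unfold Th
  have h2 : ∀ x, ε 1 * tm F W z x = tm F W z x := by
    intro x
    unfold tm
    rw [← mul_assoc, ← mul_assoc, h1]
  have h3 : ε 1 * ∑' x, tm F W z x = ∑' x, tm F W z x := by
    rw [← tsum_mul_left]
    exact tsum_congr h2
  rw [mul_left_comm, h3]

theorem pos (hMOP : Xs_MOP) (F : QF) (hF : F.Pos) (χ : ℤ → ℤ) (hχ : IsChi F.D χ) (W : Z2 → ℂ)
    (ε : ℤ → ℂ) (G : ℕ) (hW : IsWt G W ε) (a b c d : ℤ) (hd : 0 < d) (hdet : a * d - b * c = 1)
    (hNc : F.D * G ^ 2 ∣ c) (z : ℂ) (hz : 0 < z.im) :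
    Th F W (((a : ℂ) * z + b) / ((c : ℂ) * z + d)) =
      ((c : ℂ) * z + d) ^ 2 * ((χ d : ℂ) * ε d) * Th F W z := by
  by_cases hc : c = 0
  · subst hc
    have had : a * d = 1 := by linarith
    rcases Int.mul_eq_one_iff_eq_one_or_neg_one.1 had with ⟨rfl, rfl⟩ | ⟨rfl, rfl⟩
    · have e1 : (((1 : ℤ) : ℂ) * z + b) / (((0 : ℤ) : ℂ) * z + ((1 : ℤ) : ℂ)) = z + b := by
        push_cast
        simp
      rw [e1, Th_int, hχ.one]
      have h := eps_one hW F z
      push_cast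
      linear_combination -h
    · omega
  · have hD := D_ge F hF
    have hDc : F.D ∣ c := (Dvd.intro _ rfl).trans hNc
    have hGc : (G : ℤ) ∣ c := by
      refine Dvd.dvd.trans ?_ hNc
      exact Dvd.dvd.mul_left (dvd_pow_self _ two_ne_zero) _
    have hcop' : IsCoprime d c := ⟨a, -b, by linarith⟩
    have hcop : IsCoprime d ((c.natAbs : ℕ) : ℤ) := by
      rw [Int.natCast_natAbs]
      rcases abs_choice c with h | h
      · rw [h]
        exact hcop'
      · rw [h]
        exact hcop'.neg_right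
    obtain ⟨p, hp1, hp2, hp3⟩ := Nat.forall_exists_prime_gt_and_zmodEq (2 * F.D).natAbs
      (Int.natAbs_ne_zero.2 hc) hcop
    have hpd : c ∣ (p : ℤ) - d := by
      have h1 := hp3.symm.dvd
      rw [Int.natCast_natAbs] at h1
      exact (abs_dvd _ _).1 h1
    obtain ⟨k, hk⟩ := hpd
    have hpp : (p : ℤ) = d + k * c := by linarith
    have hnd : ¬ (p : ℤ) ∣ 2 * F.D := by
      intro hdvd
      have h1 := Int.le_of_dvd (by linarith) hdvd
      omega
    have hz' : 0 < (z - k).im := by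
      rw [Complex.sub_im, Complex.intCast_im, sub_zero]
      exact hz
    have : Fact p.Prime := ⟨hp2⟩
    have h := hMOP F hF W ε G hW a (b + k * a) c p hnd (by rw [hpp]; linarith) hNc (z - k) hz'
    have hpC : (p : ℂ) = (d : ℂ) + k * c := by exact_mod_cast congrArg (fun x : ℤ => (x : ℂ)) hpp
    have e1 : (a : ℂ) * (z - k) + ((b + k * a : ℤ) : ℂ) = a * z + b := by
      push_cast
      ring
    have e2 : (c : ℂ) * (z - k) + (p : ℂ) = c * z + d := by
      rw [hpC]
      ring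
    have e3 : Th F W (z - k) = Th F W z := by
      have := Th_int F W (z - k) k
      rw [sub_add_cancel] at this
      exact this.symm
    have e4 : ε (p : ℤ) = ε d := hW.eper p d (by
      rw [hk]
      exact Dvd.dvd.mul_right hGc k)
    have e5 : χ d = legendreSym p (-F.D) := by
      rw [← hχ.prime p hnd]
      refine hχ.per d p hd (by exact_mod_cast hp2.pos) (hcop'.of_isCoprime_of_dvd_right hDc) ?_
      have h1 : d - p = -(c * k) := by linarith
      rw [h1]
      exact (Dvd.dvd.mul_right hDc k).neg_right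
    rw [e1, e2, e3, e4, ← e5] at h
    exact h

end MOD19

open _root_.Pool.Agent.MUXT.MOD19 in
theorem tx_MOD (hMOP : Xs_MOP) (_hMBF : Su_MBF) : Xs_MOD := by
  intro F hF χ hχ W ε G hW a b c d hdet hNc z hz
  rcases lt_trichotomy d 0 with hd | hd | hd
  · have h := pos hMOP F hF χ hχ W ε G hW (-a) (-b) (-c) (-d) (by omega) (by linarith)
      (dvd_neg.2 hNc) z hz
    have e1 : (((-a : ℤ) : ℂ) * z + ((-b : ℤ) : ℂ)) / (((-c : ℤ) : ℂ) * z + ((-d : ℤ) : ℂ)) =
        ((a : ℂ) * z + b) / ((c : ℂ) * z + d) := by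
      have e2 : ((-a : ℤ) : ℂ) * z + ((-b : ℤ) : ℂ) = -((a : ℂ) * z + b) := by push_cast; ring
      have e3 : ((-c : ℤ) : ℂ) * z + ((-d : ℤ) : ℂ) = -((c : ℂ) * z + d) := by push_cast; ring
      rw [e2, e3, neg_div_neg_eq]
    rw [e1, hχ.neg, hW.eneg] at h
    rw [h]
    push_cast
    ring
  · exfalso
    subst hd
    have hD := D_ge F hF
    have h1 : F.D ∣ 1 := by
      have h2 : F.D ∣ c := (Dvd.intro _ rfl).trans hNc
      have h3 : (1 : ℤ) = c * (-b) := by linarith
      rw [h3]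
      exact Dvd.dvd.mul_right h2 _
    have h4 := Int.le_of_dvd one_pos h1
    omega
  · exact pos hMOP F hF χ hχ W ε G hW a b c d hd hdet hNc z hz

end Pool.Agent.MUXT


end

section

/-!
# MUX, block XT: modularity of theta for matrices with a prime lower right entry (MOP)
-/

set_option autoImplicit false

namespace Pool.Agent.MUXT

open _root_.MU3 _root_.Pool.Agent.MUX _root_.Pool.Agent.MuSym OnePoint Filter Topology
open _root_.Pool.Agent.MU3T (Su_MBF Su_MCO)
open _root_.Pool.Agent.MU3F (ex)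
open scoped ComplexConjugate

noncomputable section

theorem tx_MOP (hRED : Xs_RED) (hWID : Xs_WID) (hGAU : Xs_GAU) (hMBF : Su_MBF) : Xs_MOP := by
  intro F hF W ε G hw a b c p hfp hpD hdet hc z hz
  obtain ⟨c', hc'⟩ := hc
  have hp : p.Prime := hfp.out
  have hp0 : 0 < p := hp.pos
  have hG : 0 < G := hw.pos
  have hD : 0 < F.D := hF.D_pos
  have hpC : (p : ℂ) ≠ 0 := by exact_mod_cast hp0.ne'
  have hGC : (G : ℂ) ≠ 0 := by exact_mod_cast hG.ne'
  have hDC : (F.D : ℂ) ≠ 0 := by exact_mod_cast hD.ne'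
  have hzC : z ≠ 0 := by
    intro h0
    rw [h0] at hz
    simp at hz
  obtain ⟨hden, him, -⟩ := hMBF a b c p (by rw [← hdet]) z hz
  rw [Int.cast_natCast] at hden him
  set u : ℂ := (c : ℂ) * z + p with hu
  set ζ : ℂ := z / (p * u) with hζ
  have hζ0 : ζ ≠ 0 := div_ne_zero hzC (mul_ne_zero hpC hden)
  have hdetC : (a : ℂ) * p - b * c = 1 := by exact_mod_cast hdet
  have hcC : (c : ℂ) = (F.D : ℂ) * (G : ℂ) ^ 2 * (c' : ℂ) := by
    rw [hc']; push_cast; ring
  have hgam : ((a : ℂ) * z + b) / u = (((b / p : ℚ) : ℚ) : ℂ) + ζ := by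
    rw [hζ]
    push_cast
    field_simp
    rw [hu]
    linear_combination (z : ℂ) * hdetC
  have hζim : 0 < ζ.im := by
    have h1 : ζ = ((a : ℂ) * z + b) / u - (((b / p : ℚ) : ℝ) : ℂ) := by
      rw [hgam]; push_cast; ring
    rw [h1, Complex.sub_im, Complex.ofReal_im, sub_zero]
    exact him
  have h1 := hRED F hF W G p hG hp0 hw.per b ζ hζim
  have h2 := hRED F hF W G 1 hG one_pos hw.per 0 z hz
  rw [← hgam] at h1
  have hpb : ¬ (p : ℤ) ∣ b * (G : ℤ) ^ 2 := by
    intro hd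
    have hpp : Prime (p : ℤ) := Nat.prime_iff_prime_int.1 hp
    have h3 : (p : ℤ) ∣ b * c := by
      rw [hc']
      obtain ⟨k, hk⟩ := hd
      exact ⟨k * F.D * c', by linear_combination (F.D * c') * hk⟩
    have h4 : (p : ℤ) ∣ 1 := by
      rw [← hdet]
      exact dvd_sub (Dvd.intro_left _ rfl) h3
    exact hpp.not_isUnit (isUnit_of_dvd_one h4)
  have hgg : gg F p (b * (G : ℤ) ^ 2) = (legendreSym p (-F.D) : ℂ) * p :=
    hGAU F p hpD _ hpb
  have hterm : ∀ y : Z2,
      tm F (WW F W G p b) (-1 / (((p : ℂ) * G) ^ 2 * (F.D : ℂ) * ζ)) y =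
      (ε p * ((legendreSym p (-F.D) : ℂ) * p)) *
        tm F (WW F W G 1 0) (-1 / ((((1 : ℕ) : ℂ) * G) ^ 2 * (F.D : ℂ) * z)) y := by
    intro y
    unfold tm
    rw [hWID F hF W ε G p hw hp0 a b c' (by rw [← hdet, hc']) y, hgg]
    have h5 : Complex.exp (2 * Real.pi * Complex.I * (F.ev y : ℂ) *
          (-1 / ((((1 : ℕ) : ℂ) * G) ^ 2 * (F.D : ℂ) * z))) =
        ex (c' * F.ev y / p) * Complex.exp (2 * Real.pi * Complex.I * (F.ev y : ℂ) *
          (-1 / (((p : ℂ) * G) ^ 2 * (F.D : ℂ) * ζ))) := by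
      unfold ex
      rw [← Complex.exp_add]
      congr 1
      have h6 : -1 / (((p : ℂ) * G) ^ 2 * (F.D : ℂ) * ζ) =
          -1 / ((G : ℂ) ^ 2 * (F.D : ℂ) * z) - (c' : ℂ) / p := by
        rw [hζ, hu, hcC]
        rw [hu, hcC] at hden
        field_simp
        ring
      rw [h6]
      push_cast
      ring
    rw [h5]
    ring
  rw [tsum_congr hterm, tsum_mul_left] at h1
  rw [show (((0 : ℤ) / ((1 : ℕ) : ℚ) : ℚ) : ℂ) + z = z by simp] at h2
  rw [h1, h2, hζ]
  push_cast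
  field_simp

end

end Pool.Agent.MUXT


end

section

/-!
# MU3, block FT, module GAU (helper72): the Gauss sum of the norm form modulo a prime
-/

set_option autoImplicit false

namespace Pool.Agent.MU3T

open _root_.MU3 _root_.Pool.Agent.MU3F _root_.Pool.Agent.MuSym
open scoped ComplexConjugate

namespace T_GAU

/-- the quadratic character with values in the complex numbers -/
noncomputable def chi (p : ℕ) [Fact p.Prime] : MulChar (ZMod p) ℂ :=
  (quadraticChar (ZMod p)).ringHomComp (Int.castRingHom ℂ)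

variable {p : ℕ} [Fact p.Prime]

theorem chi_apply (a : ZMod p) : chi p a = ((quadraticChar (ZMod p) a : ℤ) : ℂ) := rfl

theorem ringChar_ne (hp : p ≠ 2) : ringChar (ZMod p) ≠ 2 := by
  rw [ZMod.ringChar_zmod_n]
  exact hp

theorem chi_ne_one (hp : p ≠ 2) : chi p ≠ 1 := by
  unfold chi
  rw [Ne, MulChar.ringHomComp_eq_one_iff (RingHom.injective_int (Int.castRingHom ℂ))]
  exact quadraticChar_ne_one (ringChar_ne hp)

theorem chi_quad : (chi p).IsQuadratic := (quadraticChar_isQuadratic (ZMod p)).comp _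

theorem sum_sq_char (hp : p ≠ 2) {ψ : AddChar (ZMod p) ℂ} (hψ : ψ.IsPrimitive) {a : ZMod p}
    (ha : a ≠ 0) : ∑ x : ZMod p, ψ (a * x ^ 2) = chi p a * gaussSum (chi p) ψ := by
  classical
  have h1 : ∑ x : ZMod p, ψ (a * x ^ 2) = ∑ t : ZMod p, (chi p t + 1) * ψ (a * t) := by
    rw [← Finset.sum_fiberwise Finset.univ (fun x : ZMod p => x ^ 2)]
    refine Finset.sum_congr rfl fun t _ => ?_
    have h2 : ∀ x ∈ Finset.univ.filter (fun x : ZMod p => x ^ 2 = t), ψ (a * x ^ 2) = ψ (a * t) := by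
      intro x hx
      rw [(Finset.mem_filter.1 hx).2]
    rw [Finset.sum_congr rfl h2, Finset.sum_const, nsmul_eq_mul]
    congr 1
    have h3 := quadraticChar_card_sqrts (F := ZMod p) (ringChar_ne hp) t
    rw [chi_apply]
    have h4 : (Finset.univ.filter (fun x : ZMod p => x ^ 2 = t)).card =
        ({x : ZMod p | x ^ 2 = t}.toFinset).card := by
      congr 1
      ext x
      simp
    rw [h4]
    exact_mod_cast congrArg (Int.cast (R := ℂ)) h3
  have h5 : ∑ t : ZMod p, ψ (a * t) = 0 := by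
    have h6 := AddChar.sum_mulShift a hψ
    rw [if_neg ha] at h6
    rw [← Nat.cast_zero (R := ℂ), ← h6]
    exact Finset.sum_congr rfl fun t _ => by rw [mul_comm]
  have h7 : ∑ t : ZMod p, chi p t * ψ (a * t) = gaussSum (chi p) (ψ.mulShift a) := rfl
  have h8 := gaussSum_mulShift (chi p) ψ (Units.mk0 a ha)
  rw [Units.val_mk0] at h8
  have h9 : chi p a * chi p a = 1 := by
    rw [← map_mul, ← sq, chi_apply, quadraticChar_sq_one' ha]
    norm_num
  rw [h1]
  simp only [add_mul, one_mul]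
  rw [Finset.sum_add_distrib, h5, add_zero, h7, ← h8, ← mul_assoc, h9, one_mul]

/-- the map from `ZMod p × ZMod p` to the quotient -/
noncomputable def qmap (A B : ℤ) (p : ℕ) (x : ZMod p × ZMod p) :
    OO A B ⧸ Ideal.span {((p : ℕ) : OO A B)} :=
  Ideal.Quotient.mk _ (⟨(x.1.cast : ℤ), (x.2.cast : ℤ)⟩ : OO A B)

theorem dvd_iff {A B : ℤ} (n : ℕ) (x : OO A B) : (n : OO A B) ∣ x ↔ (n : ℤ) ∣ x.re ∧ (n : ℤ) ∣ x.im := by
  constructor
  · rintro ⟨y, rfl⟩
    simp only [QuadraticAlgebra.re_mul, QuadraticAlgebra.im_mul, QuadraticAlgebra.re_natCast,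
      QuadraticAlgebra.im_natCast]
    constructor
    · exact ⟨y.re, by simp⟩
    · exact ⟨y.im, by simp⟩
  · rintro ⟨⟨a, ha⟩, b, hb⟩
    refine ⟨⟨a, b⟩, ?_⟩
    ext
    · simp only [QuadraticAlgebra.re_mul, QuadraticAlgebra.re_natCast,
        QuadraticAlgebra.im_natCast]
      rw [ha]
      simp
    · simp only [QuadraticAlgebra.im_mul, QuadraticAlgebra.re_natCast,
        QuadraticAlgebra.im_natCast]
      rw [hb]
      simp

theorem mk_eq {A B : ℤ} (n : ℕ) (x y : OO A B) :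
    Ideal.Quotient.mk (Ideal.span {((n : ℕ) : OO A B)}) x = Ideal.Quotient.mk _ y ↔
      (x.re : ZMod n) = y.re ∧ (x.im : ZMod n) = y.im := by
  rw [Ideal.Quotient.eq, Ideal.mem_span_singleton, dvd_iff, QuadraticAlgebra.re_sub,
    QuadraticAlgebra.im_sub, ZMod.intCast_eq_intCast_iff_dvd_sub,
    ZMod.intCast_eq_intCast_iff_dvd_sub, ← dvd_neg (a := (n : ℤ)) (b := y.re - x.re),
    ← dvd_neg (a := (n : ℤ)) (b := y.im - x.im), neg_sub, neg_sub]

theorem qmap_bij (A B : ℤ) : Function.Bijective (qmap A B p) := by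
  constructor
  · rintro ⟨x1, x2⟩ ⟨y1, y2⟩ h
    unfold qmap at h
    rw [mk_eq] at h
    simpa using h
  · intro q
    obtain ⟨x, rfl⟩ := Ideal.Quotient.mk_surjective q
    refine ⟨((x.re : ZMod p), (x.im : ZMod p)), ?_⟩
    unfold qmap
    rw [mk_eq]
    simp

theorem ex_eq (n : ℤ) : ex ((n : ℚ) / p) = ZMod.stdAddChar (n : ZMod p) := by
  rw [ZMod.stdAddChar_coe]
  unfold ex
  congr 1
  push_cast
  ring

theorem gg_eq (A B : ℤ) (b : ℤ) : gg A B p b =
    ∑ x : ZMod p × ZMod p, ZMod.stdAddChar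
      ((b : ZMod p) * (x.1 ^ 2 + (B : ZMod p) * x.1 * x.2 - (A : ZMod p) * x.2 ^ 2)) := by
  unfold gg sumMod
  rw [← finsum_eq_sum_of_fintype]
  symm
  refine finsum_eq_of_bijective (qmap A B p) (qmap_bij A B) fun x => ?_
  have h1 : Ideal.Quotient.mk (Ideal.span {((p : ℕ) : OO A B)}) (Quotient.out (qmap A B p x)) =
      Ideal.Quotient.mk _ (⟨(x.1.cast : ℤ), (x.2.cast : ℤ)⟩ : OO A B) := Quotient.out_eq _
  rw [mk_eq] at h1
  obtain ⟨h2, h3⟩ := h1
  rw [ZMod.intCast_zmod_cast] at h2 h3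
  dsimp only
  rw [show (b : ℚ) * ((nm (Quotient.out (qmap A B p x)) : ℤ) : ℚ) / (p : ℚ) =
    (((b * nm (Quotient.out (qmap A B p x)) : ℤ) : ℚ)) / p by push_cast; ring, ex_eq]
  congr 1
  unfold nm
  push_cast
  rw [h2, h3]

end T_GAU

open _root_.Pool.Agent.MU3T.T_GAU in
theorem tu_GAU : Su_GAU := by
  intro A B hAB p _ hp b hb
  have hp2 : p ≠ 2 := by
    rintro rfl
    exact hp (dvd_mul_right _ _)
  have h2 : (2 : ZMod p) ≠ 0 := by
    intro h
    have h' : ((2 : ℕ) : ZMod p) = 0 := by exact_mod_cast h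
    rw [ZMod.natCast_eq_zero_iff] at h'
    exact hp2 ((Nat.prime_dvd_prime_iff_eq (Fact.out) Nat.prime_two).1 h')
  have hb0 : (b : ZMod p) ≠ 0 := by
    intro h
    exact hb ((ZMod.intCast_zmod_eq_zero_iff_dvd b p).1 h)
  have hD0 : ((absD A B : ℤ) : ZMod p) ≠ 0 := by
    intro h
    exact hp (Dvd.dvd.mul_left ((ZMod.intCast_zmod_eq_zero_iff_dvd _ p).1 h) 2)
  have hD : ((absD A B : ℤ) : ZMod p) = -((B : ZMod p) ^ 2 + 4 * A) := by
    unfold absD
    push_cast
    ring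
  set ψ : AddChar (ZMod p) ℂ := ZMod.stdAddChar with hψ
  have hprim : ψ.IsPrimitive := ZMod.isPrimitive_stdAddChar p
  rw [gg_eq, Fintype.sum_prod_type_right, ← hψ]
  have h3 : ∀ y : ZMod p, ∑ x : ZMod p, ψ
      ((b : ZMod p) * (x ^ 2 + (B : ZMod p) * x * y - (A : ZMod p) * y ^ 2)) =
      (∑ x : ZMod p, ψ ((b : ZMod p) * x ^ 2)) * ψ ((b * (absD A B : ℤ) / 4) * y ^ 2) := by
    intro y
    rw [Finset.sum_mul]
    refine Fintype.sum_bijective (fun x => x + B / 2 * y) (AddGroup.addRight_bijective _) _ _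
      fun x => ?_
    rw [← AddChar.map_add_eq_mul]
    congr 1
    rw [hD]
    have h4 : (4 : ZMod p) ≠ 0 := by
      rw [show (4 : ZMod p) = 2 * 2 by norm_num]
      exact mul_ne_zero h2 h2
    field_simp
    ring
  have h4 : (4 : ZMod p) ≠ 0 := by
    rw [show (4 : ZMod p) = 2 * 2 by norm_num]
    exact mul_ne_zero h2 h2
  have h5 : (b : ZMod p) * (absD A B : ℤ) / 4 ≠ 0 := div_ne_zero (mul_ne_zero hb0 hD0) h4
  simp only [h3]
  rw [← Finset.mul_sum, sum_sq_char hp2 hprim hb0, sum_sq_char hp2 hprim h5]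
  have h6 : gaussSum (chi p) ψ ^ 2 = chi p (-1) * ((Fintype.card (ZMod p) : ℕ) : ℂ) :=
    gaussSum_sq (χ := chi p) (chi_ne_one hp2) chi_quad hprim
  have h7 : chi p (b : ZMod p) * chi p ((b : ZMod p) * (absD A B : ℤ) / 4) * chi p (-1) =
      ((legendreSym p (-absD A B) : ℤ) : ℂ) := by
    rw [← map_mul, ← map_mul, chi_apply, legendreSym]
    congr 1
    have e1 : (b : ZMod p) * ((b : ZMod p) * (absD A B : ℤ) / 4) * -1 =
        ((b : ZMod p) / 2) ^ 2 * ((-absD A B : ℤ) : ZMod p) := by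
      push_cast
      field_simp
      ring
    rw [e1, map_mul, quadraticChar_sq_one' (div_ne_zero hb0 h2), one_mul]
  rw [ZMod.card] at h6
  linear_combination (chi p (b : ZMod p) * chi p ((b : ZMod p) * (absD A B : ℤ) / 4)) * h6 +
    (p : ℂ) * h7

end Pool.Agent.MU3T


end

section

/-!
# MUX, block XT, module GAU (helper58): the Gauss sum of a binary quadratic form modulo a prime
-/

set_option autoImplicit false

namespace Pool.Agent.MUXT

open _root_.MU3 _root_.Pool.Agent.MuSym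
open _root_.Pool.Agent.MU3F (ex)
open _root_.Pool.Agent.MU3T.T_GAU (chi chi_apply chi_ne_one chi_quad sum_sq_char ex_eq)

namespace X_GAU

variable {p : ℕ} [Fact p.Prime]

/-- a sum over `[0, p)` is a sum over `ZMod p` -/
theorem sum_range_zmod (h : ZMod p → ℂ) :
    ∑ i ∈ Finset.range p, h ((i : ℕ) : ZMod p) = ∑ x : ZMod p, h x := by
  have hp : 0 < p := (Fact.out : p.Prime).pos
  refine Finset.sum_bij' (fun i _ => ((i : ℕ) : ZMod p)) (fun x _ => x.val) ?_ ?_ ?_ ?_ ?_
  · intro i _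
    exact Finset.mem_univ _
  · intro x _
    exact Finset.mem_range.2 (ZMod.val_lt x)
  · intro i hi
    exact ZMod.val_cast_of_lt (Finset.mem_range.1 hi)
  · intro x _
    exact ZMod.natCast_zmod_val x
  · intro i _
    rfl

theorem _root_.Pool.Agent.MUXT.X_GAU.gg_eq (F : QF) (t : ℤ) : gg F p t =
    ∑ x : ZMod p, ∑ y : ZMod p, ZMod.stdAddChar
      ((t : ZMod p) * ((F.a : ZMod p) * x ^ 2 + (F.b : ZMod p) * x * y + (F.c : ZMod p) * y ^ 2)) := by
  unfold gg sm
  rw [← sum_range_zmod (p := p) (fun x => ∑ y : ZMod p, (ZMod.stdAddChar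
      ((t : ZMod p) * ((F.a : ZMod p) * x ^ 2 + (F.b : ZMod p) * x * y + (F.c : ZMod p) * y ^ 2)) : ℂ))]
  refine Finset.sum_congr rfl fun i _ => ?_
  rw [← sum_range_zmod (p := p) (fun y => (ZMod.stdAddChar
      ((t : ZMod p) * ((F.a : ZMod p) * ((i : ℕ) : ZMod p) ^ 2 + (F.b : ZMod p) * ((i : ℕ) : ZMod p) * y
        + (F.c : ZMod p) * y ^ 2)) : ℂ))]
  refine Finset.sum_congr rfl fun j _ => ?_
  beta_reduce
  rw [show (t : ℚ) * ((F.ev ((i : ℤ), (j : ℤ)) : ℤ) : ℚ) / (p : ℚ) =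
    (((t * F.ev ((i : ℤ), (j : ℤ)) : ℤ) : ℚ)) / p by push_cast; ring, ex_eq]
  congr 1
  unfold QF.ev
  push_cast
  ring

end X_GAU

open _root_.Pool.Agent.MUXT.X_GAU in
theorem tx_GAU : Xs_GAU := by
  intro F p _ hp t ht
  have hp2 : p ≠ 2 := by
    rintro rfl
    exact hp (dvd_mul_right _ _)
  have h2 : (2 : ZMod p) ≠ 0 := by
    intro h
    have h' : ((2 : ℕ) : ZMod p) = 0 := by exact_mod_cast h
    rw [ZMod.natCast_eq_zero_iff] at h'
    exact hp2 ((Nat.prime_dvd_prime_iff_eq (Fact.out) Nat.prime_two).1 h')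
  have h4 : (4 : ZMod p) ≠ 0 := by
    rw [show (4 : ZMod p) = 2 * 2 by norm_num]
    exact mul_ne_zero h2 h2
  have ht0 : (t : ZMod p) ≠ 0 := by
    intro h
    exact ht ((ZMod.intCast_zmod_eq_zero_iff_dvd t p).1 h)
  have hD0 : ((F.D : ℤ) : ZMod p) ≠ 0 := by
    intro h
    exact hp (Dvd.dvd.mul_left ((ZMod.intCast_zmod_eq_zero_iff_dvd _ p).1 h) 2)
  have hD : ((F.D : ℤ) : ZMod p) = 4 * (F.a : ZMod p) * F.c - (F.b : ZMod p) ^ 2 := by
    unfold QF.D
    push_cast
    ring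
  have hprim : (ZMod.stdAddChar (N := p)).IsPrimitive := ZMod.isPrimitive_stdAddChar p
  set ψ : AddChar (ZMod p) ℂ := ZMod.stdAddChar with hψ
  rw [_root_.Pool.Agent.MUXT.X_GAU.gg_eq, Finset.sum_comm, ← hψ]
  by_cases ha : (F.a : ZMod p) = 0
  · -- `p ∣ a`
    have hb : (F.b : ZMod p) ≠ 0 := by
      intro h
      apply hD0
      rw [hD, ha, h]
      ring
    have h3 : ∀ y : ZMod p, ∑ x : ZMod p, ψ
        ((t : ZMod p) * ((F.a : ZMod p) * x ^ 2 + (F.b : ZMod p) * x * y + (F.c : ZMod p) * y ^ 2)) =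
        if y = 0 then (p : ℂ) else 0 := by
      intro y
      have h6 := AddChar.sum_mulShift ((t : ZMod p) * F.b * y) hprim
      have h7 : ∑ x : ZMod p, ψ
          ((t : ZMod p) * ((F.a : ZMod p) * x ^ 2 + (F.b : ZMod p) * x * y + (F.c : ZMod p) * y ^ 2)) =
          (∑ x : ZMod p, ψ (x * ((t : ZMod p) * F.b * y))) * ψ ((t : ZMod p) * F.c * y ^ 2) := by
        rw [Finset.sum_mul]
        refine Finset.sum_congr rfl fun x _ => ?_
        rw [← AddChar.map_add_eq_mul]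
        congr 1
        rw [ha]
        ring
      rw [h7, h6]
      by_cases hy : y = 0
      · subst hy
        simp
      · rw [if_neg (mul_ne_zero (mul_ne_zero ht0 hb) hy), if_neg hy]
        simp
    rw [Finset.sum_congr rfl fun y _ => h3 y, Finset.sum_ite_eq' Finset.univ (0 : ZMod p)]
    have h8 : legendreSym p (-F.D) = 1 := by
      rw [legendreSym]
      have e1 : ((-F.D : ℤ) : ZMod p) = (F.b : ZMod p) ^ 2 := by
        rw [Int.cast_neg, hD, ha]
        ring
      rw [e1]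
      exact quadraticChar_sq_one' hb
    rw [h8]
    simp
  · have h3 : ∀ y : ZMod p, ∑ x : ZMod p, ψ
        ((t : ZMod p) * ((F.a : ZMod p) * x ^ 2 + (F.b : ZMod p) * x * y + (F.c : ZMod p) * y ^ 2)) =
        (∑ x : ZMod p, ψ ((t * F.a : ZMod p) * x ^ 2)) * ψ ((t * (F.D : ℤ) / (4 * F.a) : ZMod p) * y ^ 2) := by
      intro y
      rw [Finset.sum_mul]
      refine Fintype.sum_bijective (fun x => x + F.b / (2 * F.a) * y) (AddGroup.addRight_bijective _) _ _
        fun x => ?_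
      rw [← AddChar.map_add_eq_mul]
      congr 1
      rw [hD]
      field_simp
      ring
    have h5 : (t : ZMod p) * (F.D : ℤ) / (4 * F.a) ≠ 0 :=
      div_ne_zero (mul_ne_zero ht0 hD0) (mul_ne_zero h4 ha)
    simp only [h3]
    rw [← Finset.mul_sum, sum_sq_char hp2 hprim (mul_ne_zero ht0 ha), sum_sq_char hp2 hprim h5]
    have h6 : gaussSum (chi p) ψ ^ 2 = chi p (-1) * ((Fintype.card (ZMod p) : ℕ) : ℂ) :=
      gaussSum_sq (χ := chi p) (chi_ne_one hp2) chi_quad hprim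
    have h7 : chi p ((t : ZMod p) * F.a) * chi p ((t : ZMod p) * (F.D : ℤ) / (4 * F.a)) * chi p (-1) =
        ((legendreSym p (-F.D) : ℤ) : ℂ) := by
      rw [← map_mul, ← map_mul, chi_apply, legendreSym]
      congr 1
      have e1 : (t : ZMod p) * F.a * ((t : ZMod p) * (F.D : ℤ) / (4 * F.a)) * -1 =
          ((t : ZMod p) / 2) ^ 2 * ((-F.D : ℤ) : ZMod p) := by
        push_cast
        field_simp
        ring
      rw [e1, map_mul, quadraticChar_sq_one' (div_ne_zero ht0 h2), one_mul]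
    rw [ZMod.card] at h6
    linear_combination (chi p ((t : ZMod p) * F.a) * chi p ((t : ZMod p) * (F.D : ℤ) / (4 * F.a))) * h6 +
      (p : ℂ) * h7

end Pool.Agent.MUXT


end

section

/-!
# MUX, block XT, module WID (helper4): the Gauss sum `W_(t/d)(y)` for binary forms
-/

set_option autoImplicit false

namespace Pool.Agent.MUXT

open _root_.MU3 _root_.Pool.Agent.MuSym OnePoint Filter Topology
open _root_.Pool.Agent.MU3F (ex)
open scoped ComplexConjugate

noncomputable section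

namespace WidX

lemma ex_add (r s : ℚ) : ex (r + s) = ex r * ex s := by
  unfold ex
  rw [← Complex.exp_add]
  congr 1
  push_cast
  ring

lemma ex_int (n : ℤ) : ex (n : ℚ) = 1 := by
  unfold ex
  rw [Complex.exp_eq_one_iff]
  exact ⟨n, by push_cast; ring⟩

lemma ex_cong {r s : ℚ} (n : ℤ) (h : r = s + n) : ex r = ex s := by
  rw [h, ex_add, ex_int, mul_one]

lemma sm_mul (m : ℕ) (c : ℂ) (f : Z2 → ℂ) : sm m (fun x => c * f x) = c * sm m f := by
  unfold sm
  simp only [Finset.mul_sum]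

/-- the form modulo a natural number -/
lemma ev_per (F : QF) (m : ℤ) (x w : Z2) :
    ∃ k : ℤ, F.ev (x.1 + m * w.1, x.2 + m * w.2) = F.ev x + m * k := by
  refine ⟨2 * F.a * x.1 * w.1 + F.b * (x.1 * w.2 + x.2 * w.1) + 2 * F.c * x.2 * w.2 +
    m * F.ev w, ?_⟩
  simp only [QF.ev]
  ring

lemma wx_per (m : ℤ) (x w y : Z2) :
    wx (x.1 + m * w.1, x.2 + m * w.2) y = wx x y + m * wx w y := by
  simp only [wx]
  ring

lemma wx_lin (d G : ℤ) (x x' y : Z2) :
    wx (d * x.1 + G * x'.1, d * x.2 + G * x'.2) y = d * wx x y + G * wx x' y := by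
  simp only [wx]
  ring

lemma ev_lin (F : QF) (d G : ℤ) (x x' : Z2) : ∃ k : ℤ,
    F.ev (d * x.1 + G * x'.1, d * x.2 + G * x'.2) = G ^ 2 * F.ev x' + d * k := by
  refine ⟨d * F.ev x + G * (2 * F.a * x.1 * x'.1 + F.b * (x.1 * x'.2 + x.2 * x'.1) +
    2 * F.c * x.2 * x'.2), ?_⟩
  simp only [QF.ev]
  ring

/-- completing the square -/
lemma ev_sq (F : QF) (c : ℤ) (x y : Z2) :
    F.ev (x.1 + c * (2 * F.c * y.2 + F.b * y.1), x.2 + c * (-(F.b * y.2) - 2 * F.a * y.1)) =
      F.ev x - c * F.D * wx x y + c ^ 2 * F.D * F.ev y := by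
  simp only [QF.ev, QF.D, wx]
  ring

/-- two classes modulo `m` -/
lemma split {m : ℤ} {x y : Z2} (h1 : m ∣ x.1 - y.1) (h2 : m ∣ x.2 - y.2) :
    ∃ w : Z2, x = (y.1 + m * w.1, y.2 + m * w.2) := by
  obtain ⟨w1, hw1⟩ := h1
  obtain ⟨w2, hw2⟩ := h2
  refine ⟨(w1, w2), Prod.ext ?_ ?_⟩
  · show x.1 = y.1 + m * w1
    omega
  · show x.2 = y.2 + m * w2
    omega

end WidX

open _root_.Pool.Agent.MUXT.WidX in
theorem tx_WID (hCLS : Xs_CLS) : Xs_WID := by
  intro F _ W ε G d hW hd s t c' hdet y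
  obtain ⟨-, hshift, hcrt⟩ := hCLS
  have hG := hW.pos
  have hdQ : (d : ℚ) ≠ 0 := by exact_mod_cast hd.ne'
  have hGQ : (G : ℚ) ≠ 0 := by exact_mod_cast hG.ne'
  have hcopZ : IsCoprime (d : ℤ) (G : ℤ) :=
    ⟨s, -(t * (F.D * G * c')), by linear_combination hdet⟩
  have hcop : Nat.Coprime d G := Nat.isCoprime_iff_coprime.1 hcopZ
  -- the function
  obtain ⟨f, hf⟩ : ∃ f : Z2 → ℂ, f = fun x => W x * ex (t * F.ev x / d) *
      ex (wx x y / (d * G)) := ⟨_, rfl⟩
  have hfper : Per (d * G) f := by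
    intro x x' h1 h2
    obtain ⟨w, hw⟩ := split h1 h2
    have e1 : W x = W x' := by
      refine hW.per _ _ ?_ ?_
      · exact (Dvd.intro_left (d : ℤ) (by push_cast; ring)).trans h1
      · exact (Dvd.intro_left (d : ℤ) (by push_cast; ring)).trans h2
    obtain ⟨k, hk⟩ := ev_per F ((d * G : ℕ) : ℤ) x' w
    have e2 : ex (t * F.ev x / d) = ex (t * F.ev x' / d) := by
      refine ex_cong (t * G * k) ?_
      rw [hw, hk]
      push_cast
      field_simp
    have e3 : ex (wx x y / (d * G)) = ex (wx x' y / (d * G)) := by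
      refine ex_cong (wx w y) ?_
      rw [hw, wx_per]
      push_cast
      field_simp
    rw [hf]
    simp only
    rw [e1, e2, e3]
  have hflin : ∀ x x' : Z2, f (d * x.1 + G * x'.1, d * x.2 + G * x'.2) =
      (ε d * (W x * ex (wx x y / G))) *
        (ex (((t * G ^ 2 : ℤ) : ℚ) * F.ev x' / d) * ex (wx x' y / d)) := by
    intro x x'
    have e1 : W (d * x.1 + G * x'.1, d * x.2 + G * x'.2) = ε d * W x := by
      rw [← hW.hom d hcopZ]
      exact hW.per _ _ ⟨x'.1, by ring⟩ ⟨x'.2, by ring⟩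
    obtain ⟨k, hk⟩ := ev_lin F d G x x'
    have e2 : ex (t * F.ev (d * x.1 + G * x'.1, d * x.2 + G * x'.2) / d) =
        ex (((t * G ^ 2 : ℤ) : ℚ) * F.ev x' / d) := by
      refine ex_cong (t * k) ?_
      rw [hk]
      push_cast
      field_simp
    have e3 : ex (wx (d * x.1 + G * x'.1, d * x.2 + G * x'.2) y / (d * G)) =
        ex (wx x y / G) * ex (wx x' y / d) := by
      rw [← ex_add, wx_lin]
      congr 1
      push_cast
      field_simp
    rw [hf]
    simp only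
    rw [e1, e2, e3]
    ring
  have hWW : WW F W G d t y = sm (d * G) f := by
    unfold WW
    rw [hf]
  have hWW1 : WW F W G 1 0 y = sm G (fun x => W x * ex (wx x y / G)) := by
    unfold WW
    rw [one_mul]
    congr 1
    funext x
    have h1 : ex (((0 : ℤ) : ℚ) * F.ev x / ((1 : ℕ) : ℚ)) = 1 := by
      have := ex_int 0
      simpa using this
    rw [h1, mul_one, Nat.cast_one, one_mul]
  rw [hWW, hcrt d G hd hG hcop f hfper]
  simp only [hflin]
  -- completing the square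
  obtain ⟨K, hK⟩ : ∃ K : Z2 → ℂ, K = fun x => ex (((t * G ^ 2 : ℤ) : ℚ) * F.ev x / d) :=
    ⟨_, rfl⟩
  have hKper : Per d K := by
    intro x x' h1 h2
    obtain ⟨w, hw⟩ := split h1 h2
    obtain ⟨k, hk⟩ := ev_per F (d : ℤ) x' w
    rw [hK]
    simp only
    refine ex_cong (t * G ^ 2 * k) ?_
    rw [hw, hk]
    push_cast
    field_simp
  have hsq : ∀ x : Z2, ex (((t * G ^ 2 : ℤ) : ℚ) * F.ev x / d) * ex (wx x y / d) =
      ex (c' * F.ev y / d) * K (x.1 + c' * (2 * F.c * y.2 + F.b * y.1),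
        x.2 + c' * (-(F.b * y.2) - 2 * F.a * y.1)) := by
    intro x
    rw [hK]
    simp only
    rw [← ex_add, ← ex_add, ev_sq]
    refine ex_cong (-(s * (c' * F.ev y - wx x y))) ?_
    have hq : (s : ℚ) * d - t * (F.D * G ^ 2 * c') = 1 := by exact_mod_cast hdet
    push_cast
    field_simp
    linear_combination (-((wx x y : ℤ) : ℚ) + c' * F.ev y) * hq
  have hinner : sm d (fun x => ex (((t * G ^ 2 : ℤ) : ℚ) * F.ev x / d) * ex (wx x y / d)) =
      ex (c' * F.ev y / d) * gg F d (t * G ^ 2) := by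
    simp only [hsq]
    rw [sm_mul, hshift d hd K hKper (c' * (2 * F.c * y.2 + F.b * y.1),
      c' * (-(F.b * y.2) - 2 * F.a * y.1))]
    congr 1
    unfold gg
    rw [hK]
  have h1 : ∀ x : Z2, sm d (fun x' =>
      (ε d * (W x * ex (wx x y / G))) *
        (ex (((t * G ^ 2 : ℤ) : ℚ) * F.ev x' / d) * ex (wx x' y / d))) =
      (ε d * (ex (c' * F.ev y / d) * gg F d (t * G ^ 2))) * (W x * ex (wx x y / G)) := by
    intro x
    rw [sm_mul, hinner]
    ring
  simp only [h1]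
  rw [sm_mul, hWW1]
  ring

end

end Pool.Agent.MUXT


end

section

/-!
# MUX, block XT, module RED (helper96): theta near a cusp
-/

set_option autoImplicit false

namespace Pool.Agent.MUXT

open _root_.MU3 _root_.Pool.Agent.MuSym OnePoint Filter Topology
open _root_.Pool.Agent.MU3F (ex)
open scoped ComplexConjugate

noncomputable section

namespace RedX

theorem ex_cong {r s : ℚ} (n : ℤ) (h : r = s + n) : ex r = ex s := by
  have h1 : ex (n : ℚ) = 1 := by
    unfold ex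
    rw [Complex.exp_eq_one_iff]
    exact ⟨n, by push_cast; ring⟩
  have h2 : ex (s + n) = ex s * ex n := by
    unfold ex
    rw [← Complex.exp_add]
    congr 1
    push_cast
    ring
  rw [h, h2, h1, mul_one]

theorem norm_ex (r : ℚ) : ‖ex r‖ = 1 := by
  unfold ex
  have h : 2 * (Real.pi : ℂ) * Complex.I * (r : ℂ) = ((2 * Real.pi * (r : ℝ) : ℝ) : ℂ) * Complex.I := by
    push_cast; ring
  rw [h, Complex.norm_exp_ofReal_mul_I]

theorem im_pos {c : ℝ} (hc : 0 < c) {z : ℂ} (hz : 0 < z.im) : 0 < (-1 / ((c : ℂ) * z)).im := by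
  have h1 : -1 / ((c : ℂ) * z) = -((c : ℂ) * z)⁻¹ := by rw [neg_div, one_div]
  have h2 : ((c : ℂ) * z).im = c * z.im := by simp
  have h3 : (c : ℂ) * z ≠ 0 := by
    intro h
    have := congrArg Complex.im h
    rw [h2] at this
    simp at this
    rcases this with h4 | h4 <;> linarith
  rw [h1, Complex.neg_im, Complex.inv_im, neg_div, neg_neg, h2]
  exact div_pos (mul_pos hc hz) (Complex.normSq_pos.2 h3)

/-- The form modulo `m`. -/
theorem ev_add (F : QF) (m : ℕ) (x w : Z2) :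
    ∃ k : ℤ, F.ev (x.1 + m * w.1, x.2 + m * w.2) = F.ev x + m * k := by
  refine ⟨2 * F.a * x.1 * w.1 + F.b * (x.1 * w.2 + x.2 * w.1) + 2 * F.c * x.2 * w.2 +
    m * F.ev w, ?_⟩
  unfold QF.ev
  ring

theorem sm_eq (m : ℕ) (f : Z2 → ℂ) :
    sm m f = ∑ p ∈ Finset.range m ×ˢ Finset.range m, f ((p.1 : ℤ), (p.2 : ℤ)) := by
  unfold sm
  rw [Finset.sum_product]

theorem sm_congr (m : ℕ) (f g : Z2 → ℂ) (h : ∀ x, f x = g x) : sm m f = sm m g := by
  rw [funext h]

end RedX

open _root_.Pool.Agent.MUXT.RedX in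
/-- Theta near the cusp `t/q`. -/
theorem tx_RED (hDIF : Xs_DIF) (hPOI : Xs_POI) (hCLS : Xs_CLS) (hWBD : Xs_WBD) : Xs_RED := by
  intro F hF W G q hG hq hperW t z hz
  obtain ⟨m, hm⟩ : ∃ m : ℕ, m = q * G := ⟨_, rfl⟩
  have hm0 : 0 < m := by rw [hm]; exact Nat.mul_pos hq hG
  have hBd := hWBD.1 G W hG hperW
  have hqQ : (q : ℚ) ≠ 0 := by exact_mod_cast hq.ne'
  -- the terms
  obtain ⟨f, hf⟩ : ∃ f : Z2 → ℂ, ∀ x, f x = W x * F.lc x *
      Complex.exp (2 * Real.pi * Complex.I * (F.ev x : ℂ) * (((t / q : ℚ) : ℂ) + z)) :=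
    ⟨_, fun _ => rfl⟩
  have hfs : Summable f := by
    have him : 0 < (((t / q : ℚ) : ℂ) + z).im := by
      have : (((t / q : ℚ) : ℂ)).im = 0 := by
        have h1 : ((t / q : ℚ) : ℂ) = (((t / q : ℚ) : ℝ) : ℂ) := by push_cast; rfl
        rw [h1, Complex.ofReal_im]
      rw [Complex.add_im, this, zero_add]
      exact hz
    have h := ((hDIF F hF W hBd).1 _ him).1
    exact h.congr fun x => (hf x).symm
  have hf2 : ∀ x, f x = W x * ex (t * F.ev x / q) * (F.lc x *
      Complex.exp (2 * Real.pi * Complex.I * (F.ev x : ℂ) * z)) := by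
    intro x
    have h1 : Complex.exp (2 * Real.pi * Complex.I * (F.ev x : ℂ) * (((t / q : ℚ) : ℂ) + z)) =
        ex (t * F.ev x / q) * Complex.exp (2 * Real.pi * Complex.I * (F.ev x : ℂ) * z) := by
      unfold ex
      rw [← Complex.exp_add]
      congr 1
      push_cast
      ring
    rw [hf, h1]
    ring
  -- periodicity
  have hper : ∀ x w : Z2, f (x.1 + m * w.1, x.2 + m * w.2) = W x * ex (t * F.ev x / q) *
      (F.lc (x.1 + m * w.1, x.2 + m * w.2) *
        Complex.exp (2 * Real.pi * Complex.I *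
          (F.ev (x.1 + m * w.1, x.2 + m * w.2) : ℂ) * z)) := by
    intro x w
    have h1 : W (x.1 + m * w.1, x.2 + m * w.2) = W x := by
      apply hperW
      · refine ⟨q * w.1, ?_⟩
        rw [hm]
        push_cast
        ring
      · refine ⟨q * w.2, ?_⟩
        rw [hm]
        push_cast
        ring
    have h2 : ex (t * F.ev (x.1 + m * w.1, x.2 + m * w.2) / q) = ex (t * F.ev x / q) := by
      obtain ⟨k, hk⟩ := ev_add F m x w
      apply ex_cong (t * G * k)
      rw [hk, hm]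
      push_cast
      field_simp
    rw [hf2, h1, h2]
  -- decomposition
  have hdec := hCLS.1 m hm0 f hfs
  -- the transformed series
  obtain ⟨ζ, hζ⟩ : ∃ ζ : ℂ, ζ = -1 / ((m : ℂ) ^ 2 * (F.D : ℂ) * z) := ⟨_, rfl⟩
  have hζim : 0 < ζ.im := by
    have hD : (0 : ℝ) < (F.D : ℝ) := by exact_mod_cast hF.D_pos
    have hmR : (0 : ℝ) < (m : ℝ) := by exact_mod_cast hm0
    have h := im_pos (c := (m : ℝ) ^ 2 * (F.D : ℝ)) (by positivity) hz
    rw [hζ]
    push_cast at h
    exact h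
  obtain ⟨c, hcdef⟩ : ∃ c : ℂ, c = 1 / ((m : ℂ) ^ 3 * (F.D : ℂ) * z ^ 2) := ⟨_, rfl⟩
  have hS : ∀ x : Z2, ∑' w : Z2, f (x.1 + m * w.1, x.2 + m * w.2) =
      W x * ex (t * F.ev x / q) * (c * ∑' y : Z2, tm F (fun y => ex (wx x y / m)) ζ y) := by
    intro x
    rw [tsum_congr (hper x), tsum_mul_left, hPOI F hF m hm0 x z hz, ← hζ, ← hcdef]
  have hsumm : ∀ x : Z2, Summable (tm F (fun y => ex (wx x y / m)) ζ) := by
    intro x
    exact ((hDIF F hF _ ⟨1, fun y => by rw [norm_ex]⟩).1 ζ hζim).1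
  have hmQ : (m : ℚ) = (q : ℚ) * (G : ℚ) := by rw [hm]; push_cast; rfl
  have hW : ∀ y : Z2, tm F (WW F W G q t) ζ y =
      ∑ p ∈ Finset.range m ×ˢ Finset.range m, W ((p.1 : ℤ), (p.2 : ℤ)) *
        ex (t * F.ev ((p.1 : ℤ), (p.2 : ℤ)) / q) *
          tm F (fun y => ex (wx ((p.1 : ℤ), (p.2 : ℤ)) y / m)) ζ y := by
    intro y
    unfold tm WW
    rw [← hm, sm_eq, Finset.sum_mul, Finset.sum_mul]
    apply Finset.sum_congr rfl
    intro p _
    rw [hmQ]
    ring
  have hmain : ∑' x, f x = c * ∑' y, tm F (WW F W G q t) ζ y := by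
    rw [hdec, sm_congr m _ _ hS, sm_eq]
    have h1 : ∀ p ∈ Finset.range m ×ˢ Finset.range m,
        W ((p.1 : ℤ), (p.2 : ℤ)) * ex (t * F.ev ((p.1 : ℤ), (p.2 : ℤ)) / q) *
          (c * ∑' y : Z2, tm F (fun y => ex (wx ((p.1 : ℤ), (p.2 : ℤ)) y / m)) ζ y) =
        c * ∑' y : Z2, (W ((p.1 : ℤ), (p.2 : ℤ)) * ex (t * F.ev ((p.1 : ℤ), (p.2 : ℤ)) / q) *
          tm F (fun y => ex (wx ((p.1 : ℤ), (p.2 : ℤ)) y / m)) ζ y) := by
      intro p _
      rw [tsum_mul_left]
      ring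
    rw [Finset.sum_congr rfl h1, ← Finset.mul_sum]
    congr 1
    rw [← Summable.tsum_finsetSum]
    · exact tsum_congr fun y => (hW y).symm
    · intro p _
      exact (hsumm _).mul_left _
  have hth : Th F W (((t / q : ℚ) : ℂ) + z) = 1 / 2 * ∑' x, f x := by
    unfold Th
    congr 1
    exact tsum_congr fun x => (hf x).symm
  rw [hth, hmain, hcdef, hζ, hm]
  push_cast
  have hq3 : 1 / (2 * ((q : ℂ) * G) ^ 3 * (F.D : ℂ) * z ^ 2) =
      1 / 2 * (1 / (((q : ℂ) * G) ^ 3 * (F.D : ℂ) * z ^ 2)) := by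
    rw [one_div_mul_one_div]
    congr 1
    ring
  rw [hq3]
  ring

end

end Pool.Agent.MUXT


end

section

/-!
# MU3, block FT, module POC (helper87): Poisson summation with a complex parameter
-/

set_option autoImplicit false

namespace Pool.Agent.MU3B

open Complex Real Filter Topology
open scoped ComplexConjugate

namespace POC

theorem diff_aux {ι : Type*} (a : ι → ℂ) (q : ι → ℝ) (hq : ∀ i, 0 ≤ q i)
    (h : ∀ δ : ℝ, 0 < δ → Summable fun i => ‖a i‖ * Real.exp (-(δ * q i))) :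
    DifferentiableOn ℂ (fun t : ℂ => ∑' i, a i * Complex.exp (-(t * q i))) {t | 0 < t.re} := by
  intro t₀ ht₀
  have h0 : (0 : ℝ) < t₀.re := ht₀
  have hV : IsOpen {t : ℂ | t₀.re / 2 < t.re} := isOpen_lt continuous_const Complex.continuous_re
  have h1 : DifferentiableOn ℂ (fun t : ℂ => ∑' i, a i * Complex.exp (-(t * q i)))
      {t : ℂ | t₀.re / 2 < t.re} := by
    refine differentiableOn_tsum_of_summable_norm (h (t₀.re / 2) (by positivity)) (fun i => ?_)
      hV (fun i t ht => ?_)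
    · fun_prop
    · rw [norm_mul]
      refine mul_le_mul_of_nonneg_left ?_ (norm_nonneg _)
      rw [Complex.norm_exp, Real.exp_le_exp]
      have h2 : (-(t * (q i : ℂ))).re = -(t.re * q i) := by simp
      rw [h2]
      have h3 : t₀.re / 2 < t.re := ht
      have := mul_le_mul_of_nonneg_right h3.le (hq i)
      linarith
  exact (h1.differentiableAt (hV.mem_nhds (by
    change t₀.re / 2 < t₀.re
    linarith))).differentiableWithinAt

end POC

open _root_.Pool.Agent.MU3B.POC in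
/-- POD for a complex parameter in the right half plane -/
theorem b_POC (L : PeriodPair) (t : ℂ) (ht : 0 < t.re) (z : ℂ) :
    (∑' w : L.lattice, conj (z + w) *
      Complex.exp (-((π : ℂ) * (‖z + w‖ : ℂ) ^ 2 / ((area L : ℂ) * t)))) =
      -t ^ 2 * ∑' w : L.lattice, conj (w : ℂ) * pr L w z *
        Complex.exp (-((π : ℂ) * t * (‖(w : ℂ)‖ : ℂ) ^ 2 / (area L : ℂ))) := by
  obtain ⟨hA, hn, -⟩ := b_LAT L
  have hAC : (area L : ℂ) ≠ 0 := by exact_mod_cast hA.ne'
  have hc : 0 < π / area L := by positivity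
  have hU : IsOpen {t : ℂ | 0 < t.re} := isOpen_lt continuous_const Complex.continuous_re
  have hUc : IsPreconnected {t : ℂ | 0 < t.re} := (convex_halfSpace_re_gt 0).isPreconnected
  -- the right hand side
  have hG : DifferentiableOn ℂ (fun t : ℂ => -t ^ 2 * ∑' w : L.lattice,
      conj (w : ℂ) * pr L w z *
        Complex.exp (-((π : ℂ) * t * (‖(w : ℂ)‖ : ℂ) ^ 2 / (area L : ℂ)))) {t : ℂ | 0 < t.re} := by
    have h1 := diff_aux (fun w : L.lattice => conj (w : ℂ) * pr L w z)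
      (fun w : L.lattice => π / area L * ‖(w : ℂ)‖ ^ 2) (fun w => by positivity) (by
        intro δ hδ
        obtain ⟨u, hu, hb⟩ := b_SUM L (δ * (π / area L)) (by positivity) 1 0
        refine Summable.of_nonneg_of_le (fun w => by positivity) (fun w => ?_) hu
        have h2 := (hb w 0 (by simp)).2
        rw [pow_one] at h2
        refine le_trans ?_ h2
        rw [norm_mul, hn, mul_one, Complex.norm_conj, ← mul_assoc]
        exact mul_le_mul_of_nonneg_right (by linarith [norm_nonneg (w : ℂ)]) (Real.exp_pos _).le)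
    have h2 : (fun t : ℂ => -t ^ 2 * ∑' w : L.lattice, conj (w : ℂ) * pr L w z *
        Complex.exp (-((π : ℂ) * t * (‖(w : ℂ)‖ : ℂ) ^ 2 / (area L : ℂ)))) =
        fun t : ℂ => -t ^ 2 * ∑' w : L.lattice, conj (w : ℂ) * pr L w z *
          Complex.exp (-(t * ((π / area L * ‖(w : ℂ)‖ ^ 2 : ℝ) : ℂ))) := by
      funext t
      congr 1
      refine tsum_congr fun w => ?_
      congr 3
      push_cast
      ring
    rw [h2]
    exact DifferentiableOn.mul (by fun_prop) h1
  have hF : DifferentiableOn ℂ (fun t : ℂ => ∑' w : L.lattice, conj (z + w) *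
      Complex.exp (-((π : ℂ) * (‖z + w‖ : ℂ) ^ 2 / ((area L : ℂ) * t)))) {t : ℂ | 0 < t.re} := by
    have h1 := diff_aux (fun w : L.lattice => conj (z + (w : ℂ)))
      (fun w : L.lattice => π / area L * ‖z + (w : ℂ)‖ ^ 2) (fun w => by positivity) (by
        intro δ hδ
        obtain ⟨u, hu, hb⟩ := b_SUM L (δ * (π / area L)) (by positivity) 1 ‖z‖
        refine Summable.of_nonneg_of_le (fun w => by positivity) (fun w => ?_) hu
        have h2 := (hb w z le_rfl).1
        rw [pow_one] at h2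
        refine le_trans ?_ h2
        rw [Complex.norm_conj, ← mul_assoc]
        exact mul_le_mul_of_nonneg_right (by linarith [norm_nonneg (z + (w : ℂ))])
          (Real.exp_pos _).le)
    have h2 : (fun t : ℂ => ∑' w : L.lattice, conj (z + w) *
        Complex.exp (-((π : ℂ) * (‖z + w‖ : ℂ) ^ 2 / ((area L : ℂ) * t)))) =
        (fun t : ℂ => ∑' w : L.lattice, conj (z + (w : ℂ)) *
          Complex.exp (-(t * ((π / area L * ‖z + (w : ℂ)‖ ^ 2 : ℝ) : ℂ)))) ∘ fun t : ℂ => t⁻¹ := by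
      funext t
      refine tsum_congr fun w => ?_
      congr 3
      push_cast
      rw [div_eq_mul_inv, mul_inv]
      ring
    rw [h2]
    refine h1.comp (fun t ht => ?_) (fun t ht => ?_)
    · have h3 : (0 : ℝ) < t.re := ht
      have h4 : t ≠ 0 := by rintro rfl; simp at h3
      exact (differentiableAt_inv h4).differentiableWithinAt
    · have h3 : (0 : ℝ) < t.re := ht
      have h4 : t ≠ 0 := by rintro rfl; simp at h3
      change 0 < (t⁻¹).re
      rw [Complex.inv_re]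
      have := Complex.normSq_pos.2 h4
      positivity
  have hreal : ∀ s : ℝ, 0 < s → (∑' w : L.lattice, conj (z + w) *
      Complex.exp (-((π : ℂ) * (‖z + w‖ : ℂ) ^ 2 / ((area L : ℂ) * (s : ℂ))))) =
      -(s : ℂ) ^ 2 * ∑' w : L.lattice, conj (w : ℂ) * pr L w z *
        Complex.exp (-((π : ℂ) * (s : ℂ) * (‖(w : ℂ)‖ : ℂ) ^ 2 / (area L : ℂ))) := by
    intro s hs
    have h1 := b_POD L s hs z
    push_cast at h1
    exact h1
  have key := AnalyticOnNhd.eqOn_of_preconnected_of_frequently_eq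
    (hF.analyticOnNhd hU) (hG.analyticOnNhd hU) hUc (z₀ := 1) (by simp) (by
      have h1 : Tendsto (fun n : ℕ => ((1 + 1 / ((n : ℝ) + 1) : ℝ) : ℂ)) atTop (𝓝[≠] (1 : ℂ)) := by
        rw [tendsto_nhdsWithin_iff]
        constructor
        · have h2 := (tendsto_one_div_add_atTop_nhds_zero_nat (𝕜 := ℝ)).const_add 1
          rw [add_zero] at h2
          have h3 := (Complex.continuous_ofReal.tendsto 1).comp h2
          rw [Complex.ofReal_one] at h3
          exact h3
        · refine Eventually.of_forall fun n => ?_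
          simp only [Set.mem_compl_iff, Set.mem_singleton_iff]
          intro h
          have h2 : (1 + 1 / ((n : ℝ) + 1) : ℝ) = 1 := by exact_mod_cast h
          have h3 : (0 : ℝ) < 1 / ((n : ℝ) + 1) := by positivity
          linarith
      refine h1.frequently (Frequently.of_forall fun n => ?_)
      exact hreal _ (by positivity))
  exact key ht

end Pool.Agent.MU3B


end

section

/-!
# MUX, block XT, module POI: Poisson summation in the upper half plane
-/

set_option autoImplicit false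

namespace Pool.Agent.MUXT

open _root_.MU3 _root_.Pool.Agent.MuSym OnePoint Filter Topology
open _root_.Pool.Agent.MU3F (ex)
open _root_.Pool.Agent.MU3B (area pr b_POC)
open scoped ComplexConjugate

noncomputable section

namespace X_POI

theorem lat (F : QF) (h : 0 < F.tau.im) : ∃ L : PeriodPair, L.ω₁ = 1 ∧ L.ω₂ = F.tau := by
  have hind : LinearIndependent ℝ ![(1 : ℂ), F.tau] := by
    rw [LinearIndependent.pair_iff]
    intro s t hst
    rw [Complex.real_smul, Complex.real_smul, mul_one] at hst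
    have h3 := congrArg Complex.im hst
    simp only [Complex.add_im, Complex.ofReal_im, Complex.mul_im, Complex.ofReal_re, zero_mul,
      add_zero, zero_add, Complex.zero_im] at h3
    have h4 : t = 0 := (mul_eq_zero.1 h3).resolve_right h.ne'
    rw [h4] at hst
    simp only [Complex.ofReal_zero, zero_mul, add_zero] at hst
    exact ⟨by exact_mod_cast hst, h4⟩
  exact ⟨⟨1, F.tau, hind⟩, rfl, rfl⟩

/-- the point `i + j τ` -/
def pt (F : QF) (x : Z2) : ℂ := (x.1 : ℂ) + x.2 * F.tau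

theorem pt_inj {F : QF} (h : 0 < F.tau.im) {x y : Z2} (hxy : pt F x = pt F y) : x = y := by
  have h1 := congrArg Complex.im hxy
  simp only [pt, Complex.add_im, Complex.mul_im, Complex.intCast_im, Complex.intCast_re,
    zero_mul, add_zero, zero_add] at h1
  have h2 : (x.2 : ℝ) = y.2 := mul_right_cancel₀ h.ne' h1
  have h3 := congrArg Complex.re hxy
  simp only [pt, Complex.add_re, Complex.mul_re, Complex.intCast_im, Complex.intCast_re,
    zero_mul, sub_zero] at h3
  rw [h2] at h3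
  have h4 : (x.1 : ℝ) = y.1 := add_right_cancel h3
  exact Prod.ext (by exact_mod_cast h4) (by exact_mod_cast h2)

theorem mem {F : QF} {L : PeriodPair} (h1 : L.ω₁ = 1) (h2 : L.ω₂ = F.tau) (z : ℂ) :
    z ∈ L.lattice ↔ ∃ x : Z2, pt F x = z := by
  rw [PeriodPair.mem_lattice, h1, h2]
  constructor
  · rintro ⟨m, n, hz⟩
    exact ⟨⟨m, n⟩, by rw [← hz]; simp only [pt]; ring⟩
  · rintro ⟨x, hz⟩
    exact ⟨x.1, x.2, by rw [← hz]; simp only [pt]; ring⟩

/-- `ℤ²` and the lattice -/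
def eq {F : QF} {L : PeriodPair} (h : 0 < F.tau.im) (h1 : L.ω₁ = 1) (h2 : L.ω₂ = F.tau) :
    Z2 ≃ L.lattice :=
  Equiv.ofBijective (fun x => ⟨pt F x, (mem h1 h2 _).2 ⟨x, rfl⟩⟩)
    ⟨fun x y hxy => pt_inj h (congrArg Subtype.val hxy), fun z => by
      obtain ⟨x, hx⟩ := (mem h1 h2 _).1 z.2
      exact ⟨x, Subtype.ext hx⟩⟩

theorem area_eq {F : QF} {L : PeriodPair} (h : 0 < F.tau.im) (h1 : L.ω₁ = 1)
    (h2 : L.ω₂ = F.tau) : area L = F.tau.im := by
  unfold area
  rw [h1, h2, map_one, one_mul, abs_of_pos h]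

theorem pr_eq {F : QF} {L : PeriodPair} (h : 0 < F.tau.im) (h1 : L.ω₁ = 1) (h2 : L.ω₂ = F.tau)
    (m : ℕ) (x y : Z2) : pr L (pt F y) (pt F x / m) = ex (wx x y / m) := by
  unfold pr ex
  have ha : area L ≠ 0 := by
    rw [area_eq h h1 h2]
    exact h.ne'
  have h3 : conj (pt F y) * (pt F x / m) - pt F y * conj (pt F x / m) =
      2 * ((area L : ℝ) : ℂ) * (wx x y : ℂ) * Complex.I / m := by
    rw [map_div₀, Complex.conj_natCast]
    have h6 : conj (pt F y) * (pt F x / m) - pt F y * (conj (pt F x) / m) =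
        (conj (pt F y) * pt F x - pt F y * conj (pt F x)) / m := by
      ring
    have h7 : conj (pt F y) * pt F x - pt F y * conj (pt F x) =
        (x.2 * y.1 - x.1 * y.2) * (F.tau - conj F.tau) := by
      simp only [pt, map_add, map_mul, map_intCast]
      ring
    rw [h6, h7, Complex.sub_conj, area_eq h h1 h2]
    unfold wx
    push_cast
    ring
  rw [h3]
  congr 1
  have ha' : ((area L : ℝ) : ℂ) ≠ 0 := by exact_mod_cast ha
  push_cast
  field_simp

end X_POI

open _root_.Pool.Agent.MUXT.X_POI in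
/-- Poisson summation in the upper half plane -/
theorem tx_POI (hQFF : Xs_QFF) : Xs_POI := by
  intro F hF m hm x0 z hz
  obtain ⟨ht, hti, hev, -, -, -, -⟩ := hQFF F hF
  obtain ⟨L, h1, h2⟩ := lat F ht
  have ha := area_eq ht h1 h2
  have hm0 : (0 : ℝ) < m := by exact_mod_cast hm
  have hmC : (m : ℂ) ≠ 0 := by exact_mod_cast hm.ne'
  have hD : (0 : ℝ) < (F.D : ℝ) := by exact_mod_cast hF.D_pos
  have hDC : (F.D : ℂ) ≠ 0 := by exact_mod_cast hF.D_pos.ne'
  have haC : (F.a : ℂ) ≠ 0 := by exact_mod_cast hF.a_pos.ne'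
  have hz0 : z ≠ 0 := by
    rintro rfl
    simp at hz
  set s : ℝ := Real.sqrt (F.D : ℝ) with hs
  have hs0 : 0 < s := Real.sqrt_pos.2 hD
  have hsC : (s : ℂ) ≠ 0 := by exact_mod_cast hs0.ne'
  have hs2 : (s : ℂ) ^ 2 = F.D := by
    have := Real.sq_sqrt hD.le
    rw [← hs] at this
    exact_mod_cast this
  have hareaC : ((area L : ℝ) : ℂ) = s / (2 * F.a) := by
    rw [ha, hti]
    push_cast
    ring
  set t : ℂ := Complex.I / ((m : ℂ) ^ 2 * s * z) with htd
  have htre : 0 < t.re := by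
    have e1 : t = ((1 / ((m : ℝ) ^ 2 * s) : ℝ) : ℂ) * (Complex.I / z) := by
      rw [htd]
      push_cast
      field_simp
    rw [e1, Complex.re_ofReal_mul]
    have e2 : (Complex.I / z).re = z.im / Complex.normSq z := by
      rw [Complex.div_re]
      simp
    rw [e2]
    have := Complex.normSq_pos.2 hz0
    positivity
  have key := b_POC L t htre (pt F x0 / m)
  rw [← (eq ht h1 h2).tsum_eq, ← (eq ht h1 h2).tsum_eq] at key
  have ev : ∀ x : Z2, ((eq ht h1 h2 x : L.lattice) : ℂ) = pt F x := fun x => rfl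
  simp only [ev] at key
  have hevC : ∀ x : Z2, (F.ev x : ℂ) = F.a * ((‖pt F x‖ : ℝ) : ℂ) ^ 2 := by
    intro x
    have := hev x
    exact_mod_cast this
  have e1 : ∀ w : Z2, conj (pt F x0 / m + pt F w) *
      Complex.exp (-((Real.pi : ℂ) * ((‖pt F x0 / (m : ℂ) + pt F w‖ : ℝ) : ℂ) ^ 2 /
        (((area L : ℝ) : ℂ) * t))) =
      (1 / (m : ℂ)) * (F.lc (x0.1 + m * w.1, x0.2 + m * w.2) *
      Complex.exp (2 * Real.pi * Complex.I * (F.ev (x0.1 + m * w.1, x0.2 + m * w.2) : ℂ) * z)) := by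
    intro w
    have e2 : pt F x0 / (m : ℂ) + pt F w = pt F (x0.1 + m * w.1, x0.2 + m * w.2) / m := by
      unfold pt
      push_cast
      field_simp
      ring
    rw [e2, map_div₀, Complex.conj_natCast, norm_div, Complex.norm_natCast, hevC, hareaC]
    have e3 : -((Real.pi : ℂ) *
        ((‖pt F (x0.1 + m * w.1, x0.2 + m * w.2)‖ / (m : ℝ) : ℝ) : ℂ) ^ 2 /
        (((s : ℂ) / (2 * F.a)) * t)) =
        2 * Real.pi * Complex.I * (F.a *
        ((‖pt F (x0.1 + m * w.1, x0.2 + m * w.2)‖ : ℝ) : ℂ) ^ 2) * z := by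
      rw [htd]
      push_cast
      field_simp
      rw [Complex.I_sq]
      ring
    rw [e3]
    unfold QF.lc pt
    ring
  have e4 : ∀ y : Z2, conj (pt F y) * pr L (pt F y) (pt F x0 / m) *
      Complex.exp (-((Real.pi : ℂ) * t * ((‖pt F y‖ : ℝ) : ℂ) ^ 2 / ((area L : ℝ) : ℂ))) =
      tm F (fun y => ex (wx x0 y / m)) (-1 / ((m : ℂ) ^ 2 * (F.D : ℂ) * z)) y := by
    intro y
    rw [pr_eq ht h1 h2, hareaC]
    unfold tm
    rw [hevC]
    have e5 : -((Real.pi : ℂ) * t * ((‖pt F y‖ : ℝ) : ℂ) ^ 2 / ((s : ℂ) / (2 * F.a))) =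
        2 * Real.pi * Complex.I * (F.a * ((‖pt F y‖ : ℝ) : ℂ) ^ 2) *
          (-1 / ((m : ℂ) ^ 2 * (F.D : ℂ) * z)) := by
      rw [htd, ← hs2]
      field_simp
    rw [e5]
    unfold QF.lc pt
    ring
  simp only [e1, e4] at key
  rw [tsum_mul_left] at key
  have e7 : -t ^ 2 * m = 1 / ((m : ℂ) ^ 3 * (F.D : ℂ) * z ^ 2) := by
    rw [htd, div_pow, Complex.I_sq, ← hs2]
    field_simp
  have e9 := congrArg (fun z : ℂ => (m : ℂ) * z) key
  rw [← mul_assoc, mul_one_div_cancel hmC, one_mul] at e9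
  rw [e9, ← e7]
  ring

end

end Pool.Agent.MUXT


end

section

/-!
# MUX, block XT: bounds near i oo (BND) (helper43)
-/

set_option autoImplicit false

namespace Pool.Agent.MUXT

open Filter Topology
open scoped ComplexConjugate

noncomputable section

namespace BND43

theorem lc_zero (F : QF) : F.lc 0 = 0 := by
  unfold QF.lc
  simp

theorem re_eq (n : ℤ) (z : ℂ) : (2 * Real.pi * Complex.I * (n : ℂ) * z).re =
    -(2 * Real.pi * (n : ℝ) * z.im) := by
  have h6 : (2 * Real.pi * Complex.I * (n : ℂ) * z) =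
      ((2 * Real.pi * (n : ℝ) : ℝ) : ℂ) * (Complex.I * z) := by
    push_cast; ring
  rw [h6, Complex.re_ofReal_mul]
  simp

/-- the common estimate -/
theorem est (n : ℤ) (hn : 1 ≤ n) (c z : ℂ) (hz : 1 ≤ z.im) :
    ‖c * Complex.exp (2 * Real.pi * Complex.I * (n : ℂ) * z)‖ ≤
      Real.exp (-(2 * Real.pi * (z.im - 1))) *
        ‖c * Complex.exp (2 * Real.pi * Complex.I * (n : ℂ) * Complex.I)‖ := by
  have h1' : (1 : ℝ) ≤ (n : ℝ) := by exact_mod_cast hn
  rw [norm_mul, norm_mul, Complex.norm_exp, Complex.norm_exp, mul_left_comm]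
  refine mul_le_mul_of_nonneg_left ?_ (norm_nonneg _)
  rw [← Real.exp_add]
  apply Real.exp_le_exp.2
  rw [re_eq, re_eq, Complex.I_im]
  have hpi := Real.pi_pos
  nlinarith [mul_nonneg (mul_nonneg (by positivity : (0 : ℝ) ≤ 2 * Real.pi)
    (by linarith : (0 : ℝ) ≤ (n : ℝ) - 1)) (by linarith : (0 : ℝ) ≤ z.im - 1)]

theorem tm_est {F : QF} (h1 : ∀ x : Z2, x ≠ 0 → 1 ≤ F.ev x) (W : Z2 → ℂ) (z : ℂ)
    (hz : 1 ≤ z.im) (x : Z2) :
    ‖tm F W z x‖ ≤ Real.exp (-(2 * Real.pi * (z.im - 1))) * ‖tm F W Complex.I x‖ := by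
  by_cases hx : x = 0
  · subst hx
    simp [tm, lc_zero]
  · exact est (F.ev x) (h1 x hx) (W x * F.lc x) z hz

theorem tI_est {F : QF} (h1 : ∀ x : Z2, x ≠ 0 → 1 ≤ F.ev x) (W : Z2 → ℂ) (z : ℂ)
    (hz : 1 ≤ z.im) (x : Z2) :
    ‖tI F W z x‖ ≤ Real.exp (-(2 * Real.pi * (z.im - 1))) * ‖tI F W Complex.I x‖ := by
  by_cases hx : x = 0
  · subst hx
    simp [tI, lc_zero]
  · exact est (F.ev x) (h1 x hx) (W x * F.lc x / (F.ev x : ℂ)) z hz

theorem sum_est {f : ℂ → Z2 → ℂ} (hs : ∀ z : ℂ, 0 < z.im → Summable (f z))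
    (hb : ∀ z : ℂ, 1 ≤ z.im → ∀ x, ‖f z x‖ ≤
      Real.exp (-(2 * Real.pi * (z.im - 1))) * ‖f Complex.I x‖) (z : ℂ) (hz : 1 ≤ z.im) :
    ‖∑' y, f z y‖ ≤ (Real.exp (2 * Real.pi) * ∑' y, ‖f Complex.I y‖) *
      Real.exp (-(2 * Real.pi * z.im)) := by
  have hz0 : 0 < z.im := by linarith
  have hI : (0 : ℝ) < (Complex.I).im := by simp
  have hsz := (hs z hz0).norm
  have e : Real.exp (-(2 * Real.pi * (z.im - 1))) =
      Real.exp (2 * Real.pi) * Real.exp (-(2 * Real.pi * z.im)) := by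
    rw [← Real.exp_add]
    congr 1
    ring
  calc ‖∑' y, f z y‖ ≤ ∑' y, ‖f z y‖ := norm_tsum_le_tsum_norm hsz
    _ ≤ ∑' y, Real.exp (-(2 * Real.pi * (z.im - 1))) * ‖f Complex.I y‖ :=
        hsz.tsum_le_tsum (hb z hz) ((hs _ hI).norm.mul_left _)
    _ = Real.exp (-(2 * Real.pi * (z.im - 1))) * ∑' y, ‖f Complex.I y‖ := by rw [tsum_mul_left]
    _ = (Real.exp (2 * Real.pi) * ∑' y, ‖f Complex.I y‖) *
      Real.exp (-(2 * Real.pi * z.im)) := by rw [e]; ring

end BND43

open _root_.Pool.Agent.MUXT.BND43 in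
theorem tx_BND (hQFF : Xs_QFF) (hDIF : Xs_DIF) : Xs_BND := by
  intro F hF W hW
  obtain ⟨_, _, _, _, h1, _, _⟩ := hQFF F hF
  obtain ⟨hs, _, _⟩ := hDIF F hF W hW
  obtain ⟨C1, hC1⟩ : ∃ C : ℝ, C = Real.exp (2 * Real.pi) * ∑' y, ‖tm F W Complex.I y‖ := ⟨_, rfl⟩
  obtain ⟨C2, hC2⟩ : ∃ C : ℝ, C = Real.exp (2 * Real.pi) * ∑' y, ‖tI F W Complex.I y‖ := ⟨_, rfl⟩
  have p1 : 0 ≤ C1 := by
    rw [hC1]
    exact mul_nonneg (Real.exp_pos _).le (tsum_nonneg fun _ => norm_nonneg _)
  have p2 : 0 ≤ C2 := by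
    rw [hC2]
    exact mul_nonneg (Real.exp_pos _).le (tsum_nonneg fun _ => norm_nonneg _)
  refine ⟨C1 + C2 + 1, by linarith, fun z hz => ⟨?_, ?_⟩⟩
  · have h := sum_est (f := tm F W) (fun z hz => (hs z hz).1) (tm_est h1 W) z hz
    rw [← hC1] at h
    exact h.trans (mul_le_mul_of_nonneg_right (by linarith) (Real.exp_pos _).le)
  · have h := sum_est (f := tI F W) (fun z hz => (hs z hz).2) (tI_est h1 W) z hz
    rw [← hC2] at h
    exact h.trans (mul_le_mul_of_nonneg_right (by linarith) (Real.exp_pos _).le)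

end

end Pool.Agent.MUXT


end

section

/-!
# MUX, block XT: summability and derivatives (DIF) (helper91)
-/

set_option autoImplicit false

namespace Pool.Agent.MUXT

open _root_.MU3 _root_.Pool.Agent.MuSym OnePoint Filter Topology
open scoped ComplexConjugate

noncomputable section

namespace Dif

theorem bnd (t c : ℝ) (ht : 0 ≤ t) (hc : 0 < c) :
    Real.sqrt t * Real.exp (-(2 * c * t)) ≤ (1 + 1 / c) * Real.exp (-(c * t)) := by
  have h1 : Real.sqrt t ≤ 1 + t := by
    rw [Real.sqrt_le_left (by linarith)]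
    nlinarith
  have h2 : c * t ≤ Real.exp (c * t) := by
    have := Real.add_one_le_exp (c * t)
    linarith
  have h3 : 1 + t ≤ (1 + 1 / c) * Real.exp (c * t) := by
    have h4 : 1 ≤ Real.exp (c * t) := Real.one_le_exp (by positivity)
    have h5 : t = 1 / c * (c * t) := by field_simp
    have h6 : 1 / c * (c * t) ≤ 1 / c * Real.exp (c * t) :=
      mul_le_mul_of_nonneg_left h2 (by positivity)
    rw [add_mul, one_mul]
    linarith
  have h4 : Real.exp (-(2 * c * t)) = Real.exp (-(c * t)) * Real.exp (-(c * t)) := by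
    rw [← Real.exp_add]; congr 1; ring
  have h5 : Real.exp (c * t) * Real.exp (-(c * t)) = 1 := by
    rw [← Real.exp_add]; simp
  have h6 := Real.exp_pos (-(c * t))
  calc Real.sqrt t * Real.exp (-(2 * c * t))
      ≤ ((1 + 1 / c) * Real.exp (c * t)) * Real.exp (-(2 * c * t)) :=
        mul_le_mul_of_nonneg_right (le_trans h1 h3) (Real.exp_pos _).le
    _ = (1 + 1 / c) * (Real.exp (c * t) * Real.exp (-(c * t))) * Real.exp (-(c * t)) := by
        rw [h4]; ring
    _ = (1 + 1 / c) * Real.exp (-(c * t)) := by rw [h5, mul_one]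

theorem norm_ex (n : ℤ) (z : ℂ) : ‖Complex.exp (2 * Real.pi * Complex.I * (n : ℂ) * z)‖ =
    Real.exp (-(2 * Real.pi * (n : ℝ) * z.im)) := by
  rw [Complex.norm_exp]
  congr 1
  have h5 : (2 * Real.pi * Complex.I * (n : ℂ) * z) =
      ((2 * Real.pi * (n : ℝ) : ℝ) : ℂ) * (Complex.I * z) := by
    push_cast; ring
  rw [h5, Complex.re_ofReal_mul]
  simp

variable {F : QF}

theorem ev_zero : F.ev 0 = 0 := by
  unfold QF.ev
  simp

theorem lc_zero : F.lc 0 = 0 := by
  unfold QF.lc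
  simp

theorem ev_nonneg (h : ∀ x : Z2, x ≠ 0 → 1 ≤ F.ev x) (y : Z2) : (0 : ℝ) ≤ (F.ev y : ℝ) := by
  by_cases hy : y = 0
  · subst hy
    rw [ev_zero]
    simp
  · have h1 := h y hy
    have h2 : (1 : ℝ) ≤ (F.ev y : ℝ) := by exact_mod_cast h1
    linarith

theorem lc_le (hF : F.Pos)
    (h4 : ∀ x : Z2, ((F.ev x : ℤ) : ℝ) = F.a * ‖F.lc x‖ ^ 2) (y : Z2) :
    ‖F.lc y‖ ≤ Real.sqrt (F.ev y : ℝ) := by
  apply Real.le_sqrt_of_sq_le
  rw [h4 y]
  have h1 : (1 : ℝ) ≤ (F.a : ℝ) := by exact_mod_cast hF.a_pos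
  nlinarith [sq_nonneg ‖F.lc y‖]

/-- the bound -/
def bb (F : QF) (C r : ℝ) (y : Z2) : ℝ := C * ‖F.lc y‖ * Real.exp (-(2 * Real.pi * (F.ev y : ℝ) * r))

theorem bb_sum (hF : F.Pos) (h : ∀ x : Z2, x ≠ 0 → 1 ≤ F.ev x)
    (h4 : ∀ x : Z2, ((F.ev x : ℤ) : ℝ) = F.a * ‖F.lc x‖ ^ 2) {κ : ℝ} (hκ : 0 < κ)
    (hb : ∀ x : Z2, κ * ((x.1 : ℝ) ^ 2 + (x.2 : ℝ) ^ 2) ≤ F.ev x)
    {C r : ℝ} (hC : 0 ≤ C) (hr : 0 < r) : Summable (bb F C r) := by
  have hpi := Real.pi_pos
  have hc : 0 < Real.pi * r * κ := by positivity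
  have h1 := MU3B.PoiAux.gsum2 hc hc 0 0
  refine Summable.of_nonneg_of_le (fun y => ?_) (fun y => ?_)
    (h1.mul_left (C * (1 + 1 / (Real.pi * r))))
  · unfold bb
    positivity
  · have h5 := ev_nonneg h y
    have h6 := bnd (F.ev y : ℝ) (Real.pi * r) h5 (by positivity)
    have h7 : Real.exp (-(Real.pi * r * (F.ev y : ℝ))) ≤
        Real.exp (-(Real.pi * r * κ * ((y.1 : ℝ) + 0) ^ 2)) *
          Real.exp (-(Real.pi * r * κ * ((y.2 : ℝ) + 0) ^ 2)) := by
      rw [← Real.exp_add]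
      apply Real.exp_le_exp.2
      have h8 := mul_le_mul_of_nonneg_left (hb y) (by positivity : (0 : ℝ) ≤ Real.pi * r)
      rw [add_zero, add_zero]
      linarith
    have h8 : 0 ≤ 1 + 1 / (Real.pi * r) := by positivity
    have h9 : Real.exp (-(2 * Real.pi * (F.ev y : ℝ) * r)) =
        Real.exp (-(2 * (Real.pi * r) * (F.ev y : ℝ))) := by
      congr 1
      ring
    unfold bb
    rw [h9]
    calc C * ‖F.lc y‖ * Real.exp (-(2 * (Real.pi * r) * (F.ev y : ℝ)))
        ≤ C * (Real.sqrt (F.ev y : ℝ) * Real.exp (-(2 * (Real.pi * r) * (F.ev y : ℝ)))) := by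
          rw [mul_assoc]
          exact mul_le_mul_of_nonneg_left
            (mul_le_mul_of_nonneg_right (lc_le hF h4 y) (Real.exp_pos _).le) hC
      _ ≤ C * ((1 + 1 / (Real.pi * r)) * Real.exp (-(Real.pi * r * (F.ev y : ℝ)))) :=
          mul_le_mul_of_nonneg_left h6 hC
      _ ≤ C * ((1 + 1 / (Real.pi * r)) *
            (Real.exp (-(Real.pi * r * κ * ((y.1 : ℝ) + 0) ^ 2)) *
              Real.exp (-(Real.pi * r * κ * ((y.2 : ℝ) + 0) ^ 2)))) :=
          mul_le_mul_of_nonneg_left (mul_le_mul_of_nonneg_left h7 h8) hC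
      _ = _ := by ring

theorem tm_le (h : ∀ x : Z2, x ≠ 0 → 1 ≤ F.ev x) {W : Z2 → ℂ} {C r : ℝ}
    (hW : ∀ x, ‖W x‖ ≤ C) (y : Z2) {z : ℂ} (hz : r ≤ z.im) : ‖tm F W z y‖ ≤ bb F C r y := by
  have h0 := ev_nonneg h y
  have hC : 0 ≤ C := le_trans (norm_nonneg _) (hW 0)
  unfold tm bb
  rw [norm_mul, norm_mul, norm_ex]
  refine mul_le_mul (mul_le_mul_of_nonneg_right (hW y) (norm_nonneg _)) ?_ (Real.exp_pos _).le
    (by positivity)
  refine Real.exp_le_exp.2 (neg_le_neg ?_)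
  exact mul_le_mul_of_nonneg_left hz (by positivity)

theorem tI_le (h : ∀ x : Z2, x ≠ 0 → 1 ≤ F.ev x) (W : Z2 → ℂ) (y : Z2) (z : ℂ) :
    ‖tI F W z y‖ ≤ ‖tm F W z y‖ := by
  unfold tI tm
  rw [norm_mul, norm_mul (W y * F.lc y), norm_div]
  refine mul_le_mul_of_nonneg_right ?_ (norm_nonneg _)
  by_cases hy : y = 0
  · subst hy
    rw [lc_zero]
    simp
  · have h1 : (1 : ℝ) ≤ ‖(F.ev y : ℂ)‖ := by
      rw [Complex.norm_intCast]
      have h3 : (1 : ℝ) ≤ (F.ev y : ℝ) := by exact_mod_cast h y hy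
      exact h3.trans (le_abs_self _)
    exact div_le_self (norm_nonneg _) h1

theorem tI_der (h : ∀ x : Z2, x ≠ 0 → 1 ≤ F.ev x) (W : Z2 → ℂ) (y : Z2) (z : ℂ) :
    HasDerivAt (fun z => tI F W z y) (2 * Real.pi * Complex.I * tm F W z y) z := by
  have h1 : HasDerivAt (fun z : ℂ => Complex.exp (2 * Real.pi * Complex.I * (F.ev y : ℂ) * z))
      (Complex.exp (2 * Real.pi * Complex.I * (F.ev y : ℂ) * z) *
        (2 * Real.pi * Complex.I * (F.ev y : ℂ) * 1)) z :=
    ((hasDerivAt_id z).const_mul _).cexp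
  have h2 := h1.const_mul (W y * F.lc y / (F.ev y : ℂ))
  refine h2.congr_deriv ?_
  unfold tm
  by_cases hy : y = 0
  · subst hy
    rw [lc_zero]
    simp
  · have h3 : (F.ev y : ℂ) ≠ 0 := by
      have := h y hy
      exact_mod_cast (by omega : F.ev y ≠ 0)
    field_simp

theorem tm_diff (W : Z2 → ℂ) (y : Z2) : Differentiable ℂ fun z => tm F W z y := by
  unfold tm
  fun_prop

end Dif

open _root_.Pool.Agent.MUXT.Dif in
/-- (DIF) summability and derivatives -/
theorem tx_DIF (hQFF : Xs_QFF) : Xs_DIF := by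
  intro F hF W hW
  obtain ⟨-, -, -, h4, h, ⟨κ, hκ, hb⟩, -⟩ := hQFF F hF
  obtain ⟨C₀, hC₀⟩ := hW
  have hC : 0 ≤ C₀ := le_trans (norm_nonneg _) (hC₀ 0)
  have hopen : ∀ r : ℝ, IsOpen {z : ℂ | r < z.im} :=
    fun r => isOpen_lt continuous_const Complex.continuous_im
  have hs : ∀ {r : ℝ}, 0 < r → Summable (bb F C₀ r) := fun hr => bb_sum hF h h4 hκ hb hC hr
  refine ⟨?_, ?_, ?_⟩
  · intro z hz
    exact ⟨Summable.of_norm_bounded (hs hz) fun y => tm_le h hC₀ y le_rfl,
      Summable.of_norm_bounded (hs hz) fun y => (tI_le h W y z).trans (tm_le h hC₀ y le_rfl)⟩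
  · intro z hz
    have h1 : DifferentiableOn ℂ (fun z => ∑' y, tm F W z y) {w : ℂ | z.im / 2 < w.im} :=
      Complex.differentiableOn_tsum_of_summable_norm (hs (half_pos hz))
        (fun y => (tm_diff W y).differentiableOn) (hopen _)
        (fun y w hw => tm_le h hC₀ y (le_of_lt hw))
    exact h1.differentiableAt ((hopen _).mem_nhds (half_lt_self hz))
  · intro z hz
    have hz' : z ∈ {w : ℂ | z.im / 2 < w.im} := half_lt_self hz
    have hb' : ∀ (y : Z2) (w : ℂ), w ∈ {w : ℂ | z.im / 2 < w.im} →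
        ‖tI F W w y‖ ≤ bb F C₀ (z.im / 2) y :=
      fun y w hw => (tI_le h W y w).trans (tm_le h hC₀ y (le_of_lt hw))
    have hd : ∀ y : Z2, DifferentiableOn ℂ (fun z => tI F W z y) {w : ℂ | z.im / 2 < w.im} :=
      fun y w _ => (tI_der h W y w).differentiableAt.differentiableWithinAt
    have h1 := Complex.differentiableOn_tsum_of_summable_norm (hs (half_pos hz)) hd (hopen _) hb'
    have h2 := Complex.hasSum_deriv_of_summable_norm (hs (half_pos hz)) hd (hopen _) hb' hz'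
    have h3 := (h1.differentiableAt ((hopen _).mem_nhds hz')).hasDerivAt
    have h5 : deriv (fun w => ∑' y, tI F W w y) z = 2 * Real.pi * Complex.I * ∑' y, tm F W z y := by
      rw [← h2.tsum_eq, ← tsum_mul_left]
      exact tsum_congr fun y => (tI_der h W y z).deriv
    rw [← h5]
    exact h3

end

end Pool.Agent.MUXT


end

section

/-!
# MU3, block FT: fractional linear maps (MBF)
-/

set_option autoImplicit false

namespace Pool.Agent.MU3T

noncomputable section

theorem tu_MBF : Su_MBF := by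
  intro a b c d hdet z hz
  have hdet' : (a : ℂ) * d - b * c = 1 := by exact_mod_cast hdet
  have hne : (c : ℂ) * z + d ≠ 0 := by
    intro h
    have h1 := congrArg Complex.im h
    simp only [Complex.add_im, Complex.mul_im, Complex.intCast_re, Complex.intCast_im, zero_mul,
      add_zero, Complex.zero_im] at h1
    have h2 : (c : ℝ) = 0 := by
      rcases mul_eq_zero.1 h1 with h3 | h3
      · exact h3
      · exact absurd h3 hz.ne'
    have h3 : c = 0 := by exact_mod_cast h2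
    subst h3
    have h4 : (d : ℂ) = 0 := by simpa using h
    have h5 : d = 0 := by exact_mod_cast h4
    subst h5
    simp at hdet
  refine ⟨hne, ?_, ?_⟩
  · have hpos : 0 < Complex.normSq ((c : ℂ) * z + d) := Complex.normSq_pos.2 hne
    have hdetR : (a : ℝ) * d - b * c = 1 := by exact_mod_cast hdet
    have e : (((a : ℂ) * z + b) / ((c : ℂ) * z + d)).im = z.im / Complex.normSq ((c : ℂ) * z + d) := by
      rw [Complex.div_im, ← sub_div]
      congr 1
      simp only [Complex.add_im, Complex.add_re, Complex.mul_im, Complex.mul_re, Complex.intCast_re,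
        Complex.intCast_im, zero_mul, add_zero, sub_zero]
      linear_combination z.im * hdetR
    rw [e]
    exact div_pos hz hpos
  · have h1 : HasDerivAt (fun z : ℂ => (a : ℂ) * z + b) (a : ℂ) z := by
      simpa using ((hasDerivAt_id z).const_mul (a : ℂ)).add_const (b : ℂ)
    have h2 : HasDerivAt (fun z : ℂ => (c : ℂ) * z + d) (c : ℂ) z := by
      simpa using ((hasDerivAt_id z).const_mul (c : ℂ)).add_const (d : ℂ)
    have h3 := h1.div h2 hne
    refine h3.congr_deriv ?_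
    congr 1
    linear_combination hdet'

end

end Pool.Agent.MU3T


end

section

/-!
# MUX, block G, module GP (helper9): the Gauss lemma for power series
-/

set_option autoImplicit false

namespace Pool.Agent.MUXN

noncomputable section

namespace GP

/-- a derivation over `ℤ` from its two properties -/
def mkD (E : Type) [Field E] (f : E → E) (ha : ∀ x y, f (x + y) = f x + f y)
    (hm : ∀ x y, f (x * y) = x * f y + y * f x) : Derivation ℤ E E :=
  Derivation.mk' (AddMonoidHom.toIntLinearMap (AddMonoidHom.mk' f ha)) hm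

theorem gv (h1 : Sg_GV) (E Γ : Type) [Field E] [LinearOrderedCommGroupWithZero Γ]
    (v : Valuation E Γ) (f : E → E) (ha : ∀ x y, f (x + y) = f x + f y)
    (hm : ∀ x y, f (x * y) = x * f y + y * f x)
    (hv : ∀ x, v (f x) ≤ v x) (W : WeierstrassCurve.Affine E)
    (hf : f W.a₁ = 0 ∧ f W.a₂ = 0 ∧ f W.a₃ = 0 ∧ f W.a₄ = 0 ∧ f W.a₆ = 0)
    (hw : v W.a₁ ≤ 1 ∧ v W.a₂ ≤ 1 ∧ v W.a₃ ≤ 1 ∧ v W.a₄ ≤ 1 ∧ v W.a₆ ≤ 1) (hΔ : v W.Δ = 1)
    (X Y g : E) (he : W.Equation X Y) (h0 : 2 * Y + W.a₁ * X + W.a₃ ≠ 0)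
    (hg : f X = (2 * Y + W.a₁ * X + W.a₃) * g) : v g ≤ 1 :=
  h1 E Γ v (mkD E f ha hm) hv W hf hw hΔ X Y g he h0 hg

end GP

theorem tg_GP (h1 : Sg_GV) (h2 : Sg_GD) : Sg_GP := by
  intro O _ _ _ h2ne W hΔ th hth P Q G c hc hQ hne heq
  obtain ⟨v, D, hv1, hvu, hvd, hvD, hD⟩ := h2 O
  by_cases hG : G = 0
  · rw [hG]
    exact dvd_zero _
  have inj : Function.Injective (algebraMap (PowerSeries O) (FractionRing (PowerSeries O))) :=
    IsFractionRing.injective _ _
  obtain ⟨ι, hι⟩ : ∃ ι : PowerSeries O →+* FractionRing (PowerSeries O),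
    ι = algebraMap (PowerSeries O) (FractionRing (PowerSeries O)) := ⟨_, rfl⟩
  rw [← hι] at inj
  simp only [← hι] at hv1 hvu hvd hD
  obtain ⟨φ, hφ⟩ : ∃ φ : O →+* FractionRing (PowerSeries O),
    ∀ a, φ a = ι (PowerSeries.C a) := ⟨ι.comp (PowerSeries.C (R := O)), fun _ => rfl⟩
  have hth' : ∀ f, th f = PowerSeries.mk fun n => (n : O) * PowerSeries.coeff n f := by
    intro f
    ext n
    rw [hth, PowerSeries.coeff_mk]
  have hDι : ∀ f, D (ι f) = ι (th f) := by
    intro f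
    rw [hD, hth']
  have hDC : ∀ a : O, D (φ a) = 0 := by
    intro a
    rw [hφ, hDι]
    have h3 : th (PowerSeries.C a) = 0 := by
      ext n
      rw [hth, PowerSeries.coeff_C]
      split_ifs with hn
      · simp [hn]
      · simp
    rw [h3, map_zero]
  have hφinj : Function.Injective φ := by
    intro a b hab
    rw [hφ, hφ] at hab
    exact PowerSeries.C_injective (inj hab)
  have hQ' : ι Q ≠ 0 := fun h => hQ (inj (by rw [h, map_zero]))
  have hG' : ι G ≠ 0 := fun h => hG (inj (by rw [h, map_zero]))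
  have hc' : φ c ≠ 0 := fun h => hc (hφinj (by rw [h, map_zero]))
  have h2' : (2 : FractionRing (PowerSeries O)) ≠ 0 := by
    intro h
    apply h2ne
    apply hφinj
    rw [map_ofNat, map_zero]
    exact h
  have hM : ι Q * ι (th P) - ι P * ι (th Q) ≠ 0 := by
    intro h
    apply hne
    apply inj
    rw [map_sub, map_mul, map_mul, map_zero]
    exact h
  have heq' : φ c ^ 2 * (ι Q * ι (th P) - ι P * ι (th Q)) ^ 2 =
      ι Q * (4 * ι P ^ 3 + φ W.b₂ * ι P ^ 2 * ι Q + 2 * φ W.b₄ * ι P * ι Q ^ 2 +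
        φ W.b₆ * ι Q ^ 3) * ι G ^ 2 := by
    have h3 := congrArg ι heq
    simp only [map_mul, map_pow, map_sub, map_add, map_ofNat, ← hφ] at h3
    exact h3
  have hDX : D (ι P / ι Q) = (ι Q * ι (th P) - ι P * ι (th Q)) / ι Q ^ 2 := by
    have e1 : ι P = ι Q * (ι P / ι Q) := by
      field_simp
    have e2 := D.leibniz (ι Q) (ι P / ι Q)
    rw [← e1, hDι, hDι] at e2
    simp only [smul_eq_mul] at e2
    have e3 : D (ι P / ι Q) = (ι (th P) - ι P / ι Q * ι (th Q)) / ι Q := by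
      rw [eq_div_iff hQ', e2]
      ring
    rw [e3]
    field_simp
  obtain ⟨X, hX⟩ : ∃ X, X = ι P / ι Q := ⟨_, rfl⟩
  obtain ⟨g, hg⟩ : ∃ g, g = ι G / φ c := ⟨_, rfl⟩
  obtain ⟨T, hT⟩ : ∃ T, T = (ι Q * ι (th P) - ι P * ι (th Q)) * φ c / (ι Q ^ 2 * ι G) :=
    ⟨_, rfl⟩
  have hT0 : T ≠ 0 := by
    rw [hT]
    exact div_ne_zero (mul_ne_zero hM hc') (mul_ne_zero (pow_ne_zero _ hQ') hG')
  have hTg : D X = T * g := by
    rw [hX, hDX, hT, hg]
    field_simp
  have hT2 : T ^ 2 = 4 * X ^ 3 + φ W.b₂ * X ^ 2 + 2 * φ W.b₄ * X + φ W.b₆ := by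
    rw [hT, hX]
    field_simp
    linear_combination heq'
  have hb2 : φ W.b₂ = φ W.a₁ ^ 2 + 4 * φ W.a₂ := by
    rw [WeierstrassCurve.b₂]
    simp only [map_add, map_mul, map_pow, map_ofNat]
  have hb4 : φ W.b₄ = 2 * φ W.a₄ + φ W.a₁ * φ W.a₃ := by
    rw [WeierstrassCurve.b₄]
    simp only [map_add, map_mul, map_ofNat]
  have hb6 : φ W.b₆ = φ W.a₃ ^ 2 + 4 * φ W.a₆ := by
    rw [WeierstrassCurve.b₆]
    simp only [map_add, map_mul, map_pow, map_ofNat]
  have h2Y : 2 * ((T - φ W.a₁ * X - φ W.a₃) / 2) = T - φ W.a₁ * X - φ W.a₃ := by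
    field_simp
  have hvφ : ∀ a, v (φ a) ≤ 1 := fun a => by
    rw [hφ]
    exact hv1 _
  have key : v g ≤ 1 := by
    refine GP.gv h1 (FractionRing (PowerSeries O)) (WithZero (Multiplicative ℤ)) v (fun x => D x)
      (fun x y => map_add D x y) (fun x y => D.leibniz x y) hvD (W.map φ)
      ⟨hDC _, hDC _, hDC _, hDC _, hDC _⟩ ⟨hvφ _, hvφ _, hvφ _, hvφ _, hvφ _⟩ ?_ X
      ((T - φ W.a₁ * X - φ W.a₃) / 2) g ?_ ?_ ?_
    · rw [WeierstrassCurve.map_Δ, hφ]
      exact hvu _ hΔ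
    · rw [WeierstrassCurve.Affine.equation_iff]
      simp only [WeierstrassCurve.map_a₁, WeierstrassCurve.map_a₂, WeierstrassCurve.map_a₃,
        WeierstrassCurve.map_a₄, WeierstrassCurve.map_a₆]
      rw [hb2, hb4, hb6] at hT2
      field_simp
      linear_combination hT2
    · simp only [WeierstrassCurve.map_a₁, WeierstrassCurve.map_a₃]
      rw [h2Y]
      have : T - φ W.a₁ * X - φ W.a₃ + φ W.a₁ * X + φ W.a₃ = T := by ring
      rw [this]
      exact hT0
    · simp only [WeierstrassCurve.map_a₁, WeierstrassCurve.map_a₃]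
      rw [h2Y, hTg]
      ring
  refine hvd G c hc ?_
  rw [← hφ]
  have h4 : ι G = g * φ c := by
    rw [hg]
    field_simp
  rw [h4, map_mul]
  exact mul_le_of_le_one_left' key

end

end Pool.Agent.MUXN


end

section

/-!
# MUX, block G, module LOC: common denominator at `P` of elements of `k ∩ V`
-/

set_option autoImplicit false

namespace Pool.Agent.MUXN

open _root_.MU3 _root_.Pool.Agent.MU3A _root_.Pool.Agent.MU3B _root_.Pool.Agent.MUX

noncomputable section

namespace LOC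

/-- elements of `k` are quotients `emb a / n` -/
lemma quot {A B : ℤ} (hC : CQ A B) {y : ℂ} (hy : y ∈ kk A B) :
    ∃ (n : ℕ) (a : OO A B), n ≠ 0 ∧ (n : ℂ) * y = emb a := by
  have hR := Pool.Agent.MUXE.te_RNG A B hC
  have hw : IsIntegral ℤ (wC A B) := by
    rw [hR.int _ (wC_mem A B)]
    exact ⟨⟨0, 1⟩, by simp [emb]⟩
  have hfd : FiniteDimensional ℚ (kk A B) :=
    IntermediateField.adjoin.finiteDimensional (hw.tower_top)
  have halg : IsAlgebraic ℚ y := by
    have h1 : IsIntegral ℚ (⟨y, hy⟩ : kk A B) := IsIntegral.of_finite ℚ _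
    have h2 : IsIntegral ℚ y := h1.map (IntermediateField.val (kk A B))
    exact h2.isAlgebraic
  have halgZ : IsAlgebraic ℤ y := (IsFractionRing.isAlgebraic_iff ℤ ℚ ℂ).2 halg
  obtain ⟨⟨x, m⟩, hm, hx⟩ : ∃ m : ℤ × ℤ, m.2 ≠ 0 ∧ IsIntegral ℤ ((m.2 : ℂ) * y) := by
    obtain ⟨m, hm, h⟩ := halgZ.exists_integral_multiple
    refine ⟨(0, m), hm, ?_⟩
    rwa [zsmul_eq_mul] at h
  have hm' : m ≠ 0 := hm
  have hint : IsIntegral ℤ (((m.natAbs : ℕ) : ℂ) * y) := by
    rcases Int.natAbs_eq m with h | h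
    · have e : ((m.natAbs : ℕ) : ℂ) = (m : ℂ) := by
        conv_rhs => rw [h]
        simp
      rw [e]
      exact hx
    · have e : ((m.natAbs : ℕ) : ℂ) = -(m : ℂ) := by
        conv_rhs => rw [h]
        simp
      rw [e, neg_mul]
      exact hx.neg
  have hmem : ((m.natAbs : ℕ) : ℂ) * y ∈ kk A B := (kk A B).mul_mem (natCast_mem _ _) hy
  obtain ⟨a, ha⟩ := (hR.int _ hmem).1 hint
  exact ⟨m.natAbs, a, Int.natAbs_ne_zero.2 hm', ha⟩

/-- one element -/
lemma one {A B : ℤ} (hC : CQ A B) {l : ℕ} (hl : l.Prime) {P : Ideal (OO A B)} (hP : IsPN l P)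
    {V : ValuationSubring ℂ} (hV : OverI V P) {y : ℂ} (hy : y ∈ kk A B) (hyV : y ∈ V) :
    ∃ t : OO A B, t ∉ P ∧ ∃ c : OO A B, emb t * y = emb c := by
  have hR := Pool.Agent.MUXE.te_RNG A B hC
  have hded : IsDedekindDomain (OO A B) := hR.ded
  have hPp : P.IsPrime := hP.1
  obtain ⟨n, a, hn, ha⟩ := quot hC hy
  have hnC : (n : ℂ) ≠ 0 := by exact_mod_cast hn
  have hnO : (n : OO A B) ≠ 0 := natCast_ne_zero' hC hn
  by_cases ha0 : a = 0
  · refine ⟨1, fun h => hPp.ne_top (P.eq_top_iff_one.2 h), 0, ?_⟩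
    have hy0 : y = 0 := by
      rw [ha0, _root_.Pool.Agent.MUX.emb_zero hC] at ha
      exact (mul_eq_zero.1 ha).resolve_left hnC
    rw [hy0, mul_zero, _root_.Pool.Agent.MUX.emb_zero hC]
  have hPb : P ≠ ⊥ := by
    intro h
    have h1 : ((l : ℕ) : OO A B) ∈ P := hP.mem
    rw [h, Ideal.mem_bot] at h1
    exact natCast_ne_zero' hC hl.ne_zero h1
  have hprime : Prime P := Ideal.prime_of_isPrime hPb hPp
  have hna : sp a ≠ 0 := by
    rw [Ne, Ideal.zero_eq_bot, Ideal.span_singleton_eq_bot]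
    exact ha0
  have hnn : sp (n : OO A B) ≠ 0 := by
    rw [Ne, Ideal.zero_eq_bot, Ideal.span_singleton_eq_bot]
    exact hnO
  obtain ⟨i, J, hJ, haJ⟩ := WfDvdMonoid.max_power_factor hna hprime.irreducible
  obtain ⟨j, K, hK, hnK⟩ := WfDvdMonoid.max_power_factor hnn hprime.irreducible
  rw [Ideal.dvd_iff_le] at hJ hK
  obtain ⟨s, hsJ, hsP⟩ := SetLike.not_le_iff_exists.1 hJ
  obtain ⟨t, htK, htP⟩ := SetLike.not_le_iff_exists.1 hK
  rcases le_or_gt j i with hij | hij
  · -- `t a ∈ (n)`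
    obtain ⟨r, rfl⟩ := Nat.exists_eq_add_of_le hij
    have h1 : t * a ∈ sp (n : OO A B) := by
      have h2 : t * a ∈ K * (P ^ (j + r) * J) :=
        Ideal.mul_mem_mul htK (haJ ▸ Ideal.mem_span_singleton_self a)
      have h3 : K * (P ^ (j + r) * J) ≤ sp (n : OO A B) := by
        rw [hnK]
        calc K * (P ^ (j + r) * J) = P ^ j * K * (P ^ r * J) := by rw [pow_add]; ring
          _ ≤ P ^ j * K := Ideal.mul_le_left
      exact h3 h2
    obtain ⟨c, hc⟩ := Ideal.mem_span_singleton.1 h1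
    refine ⟨t, htP, c, ?_⟩
    have h2 := congrArg emb hc
    rw [_root_.Pool.Agent.MUX.emb_mul hC, _root_.Pool.Agent.MUX.emb_mul hC, _root_.Pool.Agent.MUX.emb_natCast hC, ← ha] at h2
    apply mul_left_cancel₀ hnC
    linear_combination h2
  · exfalso
    obtain ⟨r, rfl⟩ := Nat.exists_eq_add_of_lt hij
    have h1 : s * (n : OO A B) ∈ sp a * P := by
      have h2 : s * (n : OO A B) ∈ J * (P ^ (i + r + 1) * K) :=
        Ideal.mul_mem_mul hsJ (hnK ▸ Ideal.mem_span_singleton_self _)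
      have h3 : J * (P ^ (i + r + 1) * K) ≤ sp a * P := by
        rw [haJ]
        calc J * (P ^ (i + r + 1) * K) = (P ^ i * J * P) * (P ^ r * K) := by
              rw [pow_succ, pow_add]; ring
          _ ≤ P ^ i * J * P := Ideal.mul_le_left
      exact h3 h2
    obtain ⟨c, hc, hac⟩ := Ideal.mem_span_singleton_mul.1 h1
    have h2 := congrArg emb hac
    rw [_root_.Pool.Agent.MUX.emb_mul hC, _root_.Pool.Agent.MUX.emb_mul hC, _root_.Pool.Agent.MUX.emb_natCast hC, ← ha] at h2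
    have h3 : emb s = y * emb c := by
      apply mul_left_cancel₀ hnC
      linear_combination -h2
    have h4 : emb c ∈ V.nonunits := (hV c).2 hc
    have h5 : emb s ∈ V.nonunits := by
      rw [ValuationSubring.mem_nonunits_iff] at h4 ⊢
      rw [h3, map_mul]
      have h6 : V.valuation y ≤ 1 := (ValuationSubring.valuation_le_one_iff _ _).2 hyV
      exact lt_of_le_of_lt (mul_le_of_le_one_left' h6) h4
    exact hsP ((hV s).1 h5)

end LOC

open _root_.Pool.Agent.MUXN.LOC in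
theorem tg_LOC : Sg_LOC := by
  intro A B hC l hl P hP V hV S hS
  have hPp : P.IsPrime := hP.1
  classical
  induction S using Finset.induction_on with
  | empty =>
    exact ⟨1, fun h => hPp.ne_top (P.eq_top_iff_one.2 h), fun y hy => absurd hy (Finset.notMem_empty y)⟩
  | insert y S hyS ih =>
    obtain ⟨t, ht, htS⟩ := ih (fun z hz => hS z (Finset.mem_insert_of_mem hz))
    obtain ⟨h1, h2⟩ := hS y (Finset.mem_insert_self y S)
    obtain ⟨u, hu, c, hc⟩ := one hC hl hP hV h1 h2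
    refine ⟨t * u, fun h => (hPp.mem_or_mem h).elim ht hu, ?_⟩
    intro z hz
    rcases Finset.mem_insert.1 hz with rfl | hz
    · refine ⟨t * c, ?_⟩
      rw [_root_.Pool.Agent.MUX.emb_mul hC, _root_.Pool.Agent.MUX.emb_mul hC, ← hc]
      ring
    · obtain ⟨c', hc'⟩ := htS z hz
      refine ⟨u * c', ?_⟩
      rw [_root_.Pool.Agent.MUX.emb_mul hC, _root_.Pool.Agent.MUX.emb_mul hC, ← hc']
      ring

end

end Pool.Agent.MUXN


end

section

/-!
# MU3, glue: the growth of the class numbers (helper50)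
-/

open NumberField IsDedekindDomain Finset
open scoped nonZeroDivisors Pointwise

namespace Pool.Agent.MU3

open _root_.Pool.Agent.RI _root_.Pool.Agent.RID

namespace P_MAINK

/-- `(1 - X) ^ 3 = 1 - X ^ 3` modulo `3`. -/
lemma dg_three {G X : Type} [Group G] [CommGroup X] [MulDistribMulAction G X] (h : G) (x : X) :
    dg h (dg h (dg h x)) = dg (h ^ 3) x * ((h ^ 2 • x) / (h • x)) ^ 3 := by
  have e3 : h ^ 3 • x = h • h • h • x := by rw [pow_succ, pow_two, mul_smul, mul_smul]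
  have e2 : h ^ 2 • x = h • h • x := by rw [pow_two, mul_smul]
  simp only [dg_apply, smul_div', e3, e2]
  generalize h • h • h • x = d
  generalize h • h • x = c
  generalize h • x = b
  simp only [div_eq_mul_inv, mul_inv, inv_inv, pow_succ, pow_zero, one_mul]
  simp only [mul_comm, mul_left_comm, mul_assoc]

/-- `(1 - X) ^ (3 ^ j) = 1 - X ^ (3 ^ j)` modulo `3`. -/
lemma dg_iter {G X : Type} [Group G] [CommGroup X] [MulDistribMulAction G X] (g : G) (j : ℕ) :
    ∀ x : X, ∃ y : X, (dg g : X →* X)^[3 ^ j] x = dg (g ^ (3 ^ j)) x * y ^ 3 := by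
  induction j with
  | zero => intro x; exact ⟨1, by simp⟩
  | succ j ih =>
    intro x
    have hmul : ∀ a b : X, (dg g : X →* X)^[3 ^ j] (a * b) =
        (dg g : X →* X)^[3 ^ j] a * (dg g : X →* X)^[3 ^ j] b := fun a b =>
      iterate_map_mul (dg g : X →* X) (3 ^ j) a b
    have hpow : ∀ a : X, (dg g : X →* X)^[3 ^ j] (a ^ 3) =
        ((dg g : X →* X)^[3 ^ j] a) ^ 3 := fun a =>
      iterate_map_pow (dg g : X →* X) (3 ^ j) a 3
    have h3 : (dg g : X →* X)^[3 ^ (j + 1)] x = (dg g : X →* X)^[3 ^ j]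
        ((dg g : X →* X)^[3 ^ j] ((dg g : X →* X)^[3 ^ j] x)) := by
      have e : 3 ^ (j + 1) = 3 ^ j + (3 ^ j + 3 ^ j) := by ring
      rw [e, Function.iterate_add_apply, Function.iterate_add_apply]
    obtain ⟨y1, h4⟩ := ih x
    obtain ⟨y2, h5⟩ := ih (dg (g ^ (3 ^ j)) x)
    obtain ⟨y3, h6⟩ := ih (dg (g ^ (3 ^ j)) (dg (g ^ (3 ^ j)) x))
    rw [h3, h4, hmul, hpow, h5, hmul, hmul, hpow, hpow, h6, dg_three, ← pow_mul, ← pow_succ]
    refine ⟨((g ^ 3 ^ j) ^ 2 • x) / ((g ^ 3 ^ j) • x) * y3 * (dg g : X →* X)^[3 ^ j] y2 *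
        (dg g : X →* X)^[3 ^ j] ((dg g : X →* X)^[3 ^ j] y1), ?_⟩
    simp only [mul_pow, mul_assoc]

end P_MAINK

open _root_.Pool.Agent.MU3.P_MAINK in
theorem t_MAINK (h1 : S_GALK) (h2 : S_TWK) (h3 : S_M0) (h4 : S_RAMK) (h5 : S_MONO) (h6 : S_UNI)
    (h7 : S_I3L) (h8 : S_KIN) (h9 : S_NIL) (h10 : MU3.N_FIN) : S_MAINK := by
  intro F _ _ _ k K B _ _ _ hB hω hk S c n₁ hI
  obtain ⟨S', h3S', hS'p, hram⟩ := h4 k K B hB
  have hS₁p : ∀ p ∈ S ∪ S', p.Prime := by
    intro p hp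
    rcases Finset.mem_union.1 hp with h | h
    · exact hI.prime p h
    · exact hS'p p h
  have h3S₁ : 3 ∈ S ∪ S' := Finset.mem_union_right _ h3S'
  obtain ⟨m₀, hm₀⟩ := h3 k K B hB (S ∪ S') hS₁p
  obtain ⟨m, hmn₁, hm⟩ := h7 F k K B hB hω hk S c n₁ hI m₀
  refine h10 3 (3 ^ (max m m₀ + 1)) k K B hB.hk hB.cop hB.lay hB.mono ?_
  intro n h
  let : Algebra k ↥(K ⊔ B n) := algC h
  intro g hg b
  have tw := h2 k K B hB n h g hg
  rcases lt_or_ge n m with hnm | hmn
  · obtain ⟨y, hy⟩ := dg_iter g (max m m₀ + 1) b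
    refine ⟨y, 1, ?_⟩
    have hle : n ≤ max m m₀ + 1 := (hnm.le.trans (le_max_left _ _)).trans (Nat.le_succ _)
    have h11 : g ^ (3 ^ (max m m₀ + 1)) = 1 := by
      rw [← orderOf_dvd_iff_pow_eq_one, tw.ord]
      exact pow_dvd_pow 3 hle
    rw [hy, h11, dg_apply, one_smul, div_self', one_mul, map_one, mul_one]
  · obtain ⟨gal, comm⟩ := h1 k K B hB n h
    have hn₁ : n₁ ≤ n := hmn₁.trans hmn
    have hsub : S ⊆ S ∪ S' := Finset.subset_union_left
    have hcn : (⟨c n, hI.mem n⟩ : ↥(K ⊔ B n)) ≠ 0 := by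
      intro h0
      exact hI.ne n (congrArg Subtype.val h0)
    have su1 := (h5 k ↥(K ⊔ B n) S (S ∪ S') hsub ⟨c n, hI.mem n⟩).1 (hI.su n hn₁)
    have kol1 := (h5 k ↥(K ⊔ B n) S (S ∪ S') hsub ⟨c n, hI.mem n⟩).2 (hI.kol n hn₁)
    have hfix := hm₀ n h g hg
    obtain ⟨u, hu⟩ := h6 k ↥(K ⊔ B n) (S ∪ S') ⟨c n, hI.mem n⟩ hcn su1 (g ^ (3 ^ m₀)) hfix 3
    have hrel := h8 k ↥(K ⊔ B n) comm (S ∪ S') h3S₁ ⟨c n, hI.mem n⟩ hcn su1 kol1
      (g ^ (3 ^ m₀)) hfix u hu
    have hfinNC : Finite (NC h (B n)) := inferInstance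
    let : Fintype (NC h (B n)) := Fintype.ofFinite _
    obtain ⟨ω, hωK, hω1⟩ := hω
    have hωL : ω ∈ K ⊔ B n := (le_sup_left : K ≤ K ⊔ B n) hωK
    have hω3 : ω ^ 3 = 1 := by linear_combination (ω - 1) * hω1
    have hω3' : (⟨ω, hωL⟩ : ↥(K ⊔ B n)) ^ 3 = 1 := Subtype.ext hω3
    have hint : IsIntegral ℤ (⟨ω, hωL⟩ : ↥(K ⊔ B n)) := by
      apply IsIntegral.of_pow (n := 3) (by norm_num)
      rw [hω3']
      exact isIntegral_one
    have hζ : IsPrimitiveRoot (⟨⟨ω, hωL⟩, hint⟩ : 𝓞 ↥(K ⊔ B n)) 3 := by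
      have h12 : orderOf (⟨⟨ω, hωL⟩, hint⟩ : 𝓞 ↥(K ⊔ B n)) = 3 := by
        apply orderOf_eq_prime
        · apply RingOfIntegers.ext
          exact hω3'
        · intro h0
          have h13 : (⟨ω, hωL⟩ : ↥(K ⊔ B n)) = 1 := congrArg (fun x : 𝓞 ↥(K ⊔ B n) => (x : ↥(K ⊔ B n))) h0
          have h14 : ω = 1 := congrArg Subtype.val h13
          rw [h14] at hω1
          norm_num at hω1
      rw [← h12]
      exact IsPrimitiveRoot.orderOf _
    exact h9 F k ↥(K ⊔ B n) n m m₀ g (NC h (B n)) tw hmn (S ∪ S') ⟨⟨ω, hωL⟩, hint⟩ hζ h3S₁ hS₁p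
      (hram (S ∪ S') Finset.subset_union_right n h) hfix u hrel (hm n hmn g hg u hu) b

end Pool.Agent.MU3


end

section

/-!
# NRM: the norm relation from `K_n` to `K_m`
-/

set_option autoImplicit false

open NumberField IsDedekindDomain Finset
open scoped nonZeroDivisors Pointwise

namespace Pool.Agent.MU3

open _root_.Pool.Agent.RI _root_.Pool.Agent.RID

namespace P_NRM

/-- the product over `range (a + a + a)` -/
theorem prod_three {M : Type} [CommMonoid M] (f : ℕ → M) (a : ℕ) :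
    ∏ i ∈ range (a + a + a), f i = ∏ i ∈ range a, (f i * f (a + i) * f (a + a + i)) := by
  rw [Finset.prod_range_add, Finset.prod_range_add, Finset.prod_mul_distrib,
    Finset.prod_mul_distrib]

/-- the abstract step: `g ^ (q a)` acts as `s` on `c`, the product over `3 a` elements -/
theorem step {k L : Type} [Field k] [Field L] [Algebra k L] (g : L ≃ₐ[k] L) (q a : ℕ) (c x : L)
    (C : k) (h : c * (g ^ (q * a)) c * (g ^ (q * a)) ((g ^ (q * a)) c) = algebraMap k L C * x) :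
    ∏ i ∈ range (a + a + a), (g ^ (q * i)) c =
      algebraMap k L (C ^ a) * ∏ i ∈ range a, (g ^ (q * i)) x := by
  rw [prod_three]
  have h1 : ∀ i ∈ range a, (g ^ (q * i)) c * (g ^ (q * (a + i))) c * (g ^ (q * (a + a + i))) c =
      algebraMap k L C * (g ^ (q * i)) x := by
    intro i _
    have h2 : (g ^ (q * (a + i))) c = (g ^ (q * i)) ((g ^ (q * a)) c) := by
      rw [← AlgEquiv.mul_apply, ← pow_add]
      congr 2
      ring
    have h3 : (g ^ (q * (a + a + i))) c = (g ^ (q * i)) ((g ^ (q * a)) ((g ^ (q * a)) c)) := by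
      rw [← AlgEquiv.mul_apply, ← AlgEquiv.mul_apply, ← pow_add, ← pow_add]
      congr 2
      ring
    rw [h2, h3, ← map_mul, ← map_mul, h, map_mul, AlgEquiv.commutes]
  rw [Finset.prod_congr rfl h1, Finset.prod_mul_distrib, Finset.prod_const, Finset.card_range,
    map_pow]

end P_NRM

theorem t_NRM (h1 : S_RST) : S_NRM := by
  intro F _ k K B _ _ _ hB hk S c n₁ hI m n hm hmn
  induction n, hmn using Nat.le_induction with
  | base =>
    intro γ hγ
    refine ⟨1, one_mem k, one_ne_zero, ?_⟩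
    rw [Nat.sub_self, pow_zero, Finset.prod_range_one, mul_zero, pow_zero, one_mul]
    rfl
  | succ n hmn ih =>
    intro γ hγ
    have hle : K ⊔ B n ≤ K ⊔ B (n + 1) := sup_le_sup le_rfl (hB.mono (Nat.le_succ n))
    obtain ⟨r, hr, hfix, -⟩ := h1 k K B hB n (n + 1) (Nat.le_succ n) (hk (n + 1)) (hk n) hle
    obtain ⟨hf1, hf2⟩ := hfix γ hγ
    obtain ⟨C, hC, hC0, hCe⟩ := hI.nrm n (hm.trans hmn) (γ ^ (3 ^ n)) hf2
    obtain ⟨C', hC', hC0', hCe'⟩ := ih (r γ) hf1
    let _ := algC (hk (n + 1))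
    let _ := algC (hk n)
    have hq : 3 ^ m * 3 ^ (n - m) = 3 ^ n := by
      rw [← pow_add]
      congr 1
      omega
    have hr3 : 3 ^ (n + 1 - m) = 3 ^ (n - m) + 3 ^ (n - m) + 3 ^ (n - m) := by
      rw [Nat.sub_add_comm hmn, pow_succ]
      ring
    have hstep := P_NRM.step γ (3 ^ m) (3 ^ (n - m)) (⟨c (n + 1), hI.mem (n + 1)⟩ : ↥(K ⊔ B (n + 1)))
      (⟨c n, hle (hI.mem n)⟩ : ↥(K ⊔ B (n + 1))) (⟨C, hC⟩ : k) (by
        rw [hq]
        apply Subtype.ext
        exact hCe)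
    refine ⟨C ^ (3 ^ (n - m)) * C', mul_mem (pow_mem hC _) hC', mul_ne_zero (pow_ne_zero _ hC0) hC0', ?_⟩
    rw [hr3, hstep]
    have hprod : ((∏ i ∈ range (3 ^ (n - m)), (γ ^ (3 ^ m * i)) (⟨c n, hle (hI.mem n)⟩ :
        ↥(K ⊔ B (n + 1))) : ↥(K ⊔ B (n + 1))) : ℂ) = C' * c m := by
      rw [← hCe']
      have e1 : ((∏ i ∈ range (3 ^ (n - m)), (γ ^ (3 ^ m * i)) (⟨c n, hle (hI.mem n)⟩ :
          ↥(K ⊔ B (n + 1))) : ↥(K ⊔ B (n + 1))) : ℂ) =
          ∏ i ∈ range (3 ^ (n - m)), (((γ ^ (3 ^ m * i)) (⟨c n, hle (hI.mem n)⟩ :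
          ↥(K ⊔ B (n + 1))) : ↥(K ⊔ B (n + 1))) : ℂ) :=
        map_prod (K ⊔ B (n + 1)).val _ _
      have e2 : ((∏ i ∈ range (3 ^ (n - m)), ((r γ) ^ (3 ^ m * i)) (⟨c n, hI.mem n⟩ :
          ↥(K ⊔ B n)) : ↥(K ⊔ B n)) : ℂ) =
          ∏ i ∈ range (3 ^ (n - m)), ((((r γ) ^ (3 ^ m * i)) (⟨c n, hI.mem n⟩ :
          ↥(K ⊔ B n)) : ↥(K ⊔ B n)) : ℂ) :=
        map_prod (K ⊔ B n).val _ _
      rw [e1]
      refine Eq.trans ?_ e2.symm
      refine Finset.prod_congr rfl fun i _ => ?_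
      rw [← map_pow, hr]
    have hcoe : ∀ (x : k) (y : ↥(K ⊔ B (n + 1))),
        ((algebraMap k ↥(K ⊔ B (n + 1)) x * y : ↥(K ⊔ B (n + 1))) : ℂ) = (x : ℂ) * (y : ℂ) :=
      fun x y => rfl
    rw [hcoe, hprod]
    push_cast
    ring

end Pool.Agent.MU3


end

section

/-!
# MUX, block J: the inertia group of `K₁ ⊔ RF ⊤` injects into `Gal(K₁/k)` (INJ)
-/

set_option autoImplicit false

open NumberField IsDedekindDomain
open scoped nonZeroDivisors Pointwise

namespace Pool.Agent.MUXJ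

open _root_.MU3 _root_.Pool.Agent.MU3 _root_.Pool.Agent.MU3A _root_.Pool.Agent.MU3B _root_.Pool.Agent.RI _root_.Pool.Agent.RID
  _root_.Pool.Agent.MUX _root_.Pool.Agent.MUXK _root_.Pool.Agent.MUXE

noncomputable section

namespace Jinj

/-- the inertia group -/
def IG {A B : ℤ} (V : ValuationSubring ℂ) (K : IntermediateField (kk A B) ℂ)
    [FiniteDimensional (kk A B) K] : Subgroup (K ≃ₐ[kk A B] K) :=
  let M : Submonoid (K ≃ₐ[kk A B] K) :=
    { carrier := {σ | ∀ x : K, V.valuation (x : ℂ) ≤ 1 → V.valuation ((σ x : ℂ) - x) < 1}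
      one_mem' := by
        intro x _
        have e : (((1 : K ≃ₐ[kk A B] K) x : K) : ℂ) - x = 0 := by
          rw [AlgEquiv.one_apply, sub_self]
        rw [e, map_zero]
        exact zero_lt_one
      mul_mem' := by
        intro σ τ hσ hτ x hx
        have h1 := hτ x hx
        have h2 : V.valuation ((τ x : K) : ℂ) ≤ 1 := by
          have e : ((τ x : K) : ℂ) = ((τ x : K) - x) + x := by ring
          rw [e]
          exact le_trans (V.valuation.map_add _ _) (max_le h1.le hx)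
        have h3 := hσ (τ x) h2
        have e : (((σ * τ) x : K) : ℂ) - x = ((σ (τ x) : K) - (τ x : K)) + ((τ x : K) - x) := by
          rw [AlgEquiv.mul_apply]
          ring
        rw [e]
        exact lt_of_le_of_lt (V.valuation.map_add _ _) (max_lt h3 h1) }
  { M with
    inv_mem' := by
      intro σ hσ
      have hn := orderOf_pos σ
      have e : σ⁻¹ = σ ^ (orderOf σ - 1) := by
        apply inv_eq_of_mul_eq_one_right
        rw [← pow_succ', Nat.sub_add_cancel hn, pow_orderOf_eq_one]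
      rw [e]
      exact M.pow_mem hσ _ }

end Jinj

open _root_.Pool.Agent.MUXJ.Jinj in
theorem t_INJ : Sj_INJ := by
  intro A B V hU hT K₁ K _ _ _ _ hK
  have hle : K₁ ≤ K := by rw [hK]; exact le_sup_left
  have hleR : RF (⊤ : Ideal (OO A B)) ≤ K := by rw [hK]; exact le_sup_right
  have htop : (⊤ : Ideal (OO A B)) ≠ ⊥ := top_ne_bot
  have galR := hT.gal ⊤ htop
  have finR := hT.fin ⊤ htop
  let _ : Algebra K₁ K := (IntermediateField.inclusion hle).toAlgebra
  have _ : IsScalarTower (kk A B) K₁ K := IsScalarTower.of_algebraMap_eq fun x => rfl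
  let _ : Algebra (RF (⊤ : Ideal (OO A B))) K := (IntermediateField.inclusion hleR).toAlgebra
  have _ : IsScalarTower (kk A B) (RF (⊤ : Ideal (OO A B))) K :=
    IsScalarTower.of_algebraMap_eq fun x => rfl
  have key : ∀ σ ∈ IG V K, AlgEquiv.restrictNormalHom K₁ σ = 1 → σ = 1 := by
    intro σ hσ hr
    -- `σ` is trivial on `K₁`
    have c1 : ∀ (y : ℂ) (hy : y ∈ K₁), σ ⟨y, hle hy⟩ = ⟨y, hle hy⟩ := by
      intro y hy
      have h1 := AlgEquiv.restrictNormal_commutes σ K₁ ⟨y, hy⟩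
      have h2 : σ.restrictNormal K₁ = 1 := hr
      rw [h2] at h1
      exact h1.symm
    -- `σ` is trivial on `RF ⊤`
    have c2 : ∀ (y : ℂ) (hy : y ∈ RF (⊤ : Ideal (OO A B))), σ ⟨y, hleR hy⟩ = ⟨y, hleR hy⟩ := by
      let D : IntermediateField ℚ ℂ := (RF (⊤ : Ideal (OO A B))).restrictScalars ℚ
      have hD : kk A B ≤ D := fun x hx => (RF (⊤ : Ideal (OO A B))).algebraMap_mem ⟨x, hx⟩
      let _ := algC hD
      let τ₀ := σ.restrictNormal (RF (⊤ : Ideal (OO A B)))
      let τ : D ≃ₐ[kk A B] D :=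
        { toFun := τ₀
          invFun := τ₀.symm
          left_inv := τ₀.left_inv
          right_inv := τ₀.right_inv
          map_mul' := τ₀.map_mul
          map_add' := τ₀.map_add
          commutes' := τ₀.commutes }
      obtain ⟨σ', hσ', hext⟩ := hT.ext ⊤ htop D hD (fun y hy => hy) τ
      have e : ∀ (y : ℂ) (hy : y ∈ RF (⊤ : Ideal (OO A B))), σ' y = (σ ⟨y, hleR hy⟩ : K) := by
        intro y hy
        have h1 : σ' y = ((τ ⟨y, hy⟩ : D) : ℂ) := hext ⟨y, hy⟩
        have h2 := AlgEquiv.restrictNormal_commutes σ (RF (⊤ : Ideal (OO A B))) ⟨y, hy⟩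
        have h3 := congrArg (fun t : K => (t : ℂ)) h2
        rw [h1]
        exact h3
      have h4 := hU σ' hσ' (by
        intro y hy hyV
        rw [e y hy]
        have h5 := hσ ⟨y, hleR hy⟩ ((V.valuation_le_one_iff _).2 hyV)
        exact (V.mem_nonunits_iff).2 h5)
      intro y hy
      apply Subtype.ext
      rw [← e y hy]
      exact h4 y hy
    -- so it is trivial
    have c3 : K = IntermediateField.adjoin (kk A B)
        ((K₁ : Set ℂ) ∪ (RF (⊤ : Ideal (OO A B)) : Set ℂ)) := by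
      rw [← IntermediateField.sup_def]
      exact hK
    have c4 : K.val.comp σ.toAlgHom = K.val := by
      refine IntermediateField.algHom_ext_of_eq_adjoin (kk A B) c3 ?_
      intro y hy
      rcases hy with hy | hy
      · exact congrArg (fun t : K => (t : ℂ)) (c1 y hy)
      · exact congrArg (fun t : K => (t : ℂ)) (c2 y hy)
    apply AlgEquiv.ext
    intro y
    apply Subtype.ext
    exact congrArg (fun f : K →ₐ[kk A B] ℂ => f y) c4
  have inj : Function.Injective
      ((AlgEquiv.restrictNormalHom K₁).comp (IG V K).subtype :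
        IG V K →* (K₁ ≃ₐ[kk A B] K₁)) := by
    rw [injective_iff_map_eq_one]
    intro σ hσ
    exact Subtype.ext (key σ.1 σ.2 hσ)
  have h1 := Subgroup.card_dvd_of_injective _ inj
  rw [IsGalois.card_aut_eq_finrank] at h1
  exact h1

end

end Pool.Agent.MUXJ


end

section

/-!
# MUX, block W, module DIS: distribution relation over `E[b]`, with constant in `H` (helper55)

Adapted from `Pool/Agent/MU3/W_DISI.lean`.
-/

set_option autoImplicit false

open WeierstrassCurve Polynomial NumberField IsDedekindDomain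

namespace Pool.Agent.MUXW

open _root_.MU3 _root_.Pool.Agent.MU3A _root_.Pool.Agent.MU3B _root_.Pool.Agent.MU3C _root_.Pool.Agent.RI _root_.Pool.Agent.RID
open _root_.Pool.Agent.MUX _root_.Pool.Agent.MUXU
open _root_.Pool.Agent.MU3V (cls Sub GD)
open _root_.Pool.Agent.MUXV (GR InK tX CMO Ovr Sq_EMB)

noncomputable section

theorem ty_DIS (hTDI : St_TDI) (hTIN : St_TIN) (hTHG : Sy_THG) (hKER : Sy_KER)
    (hEMB : Sq_EMB) : Sy_DIS := by
  classical
  intro A B h T L Om hL b hb a H ha hab hH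
  obtain ⟨emul, _, esub, eint, _, einj, _, _, _, _, _, _, hdom⟩ := hEMB A B ⟨h.hB, h.neg, h.fund1, h.fund0⟩
  have := hdom
  have ezero : emb (0 : OO A B) = 0 := by
    have := eint 0
    simpa using this
  have eone : emb (1 : OO A B) = 1 := by
    have := eint 1
    simpa using this
  have hfinQ : Finite (OO A B ⧸ Ideal.span {b}) :=
    Ideal.finiteQuotientOfFreeOfNeBot _ (by simpa [Ideal.span_singleton_eq_bot] using hb)
  letI : Fintype (OO A B ⧸ Ideal.span {b}) := Fintype.ofFinite _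
  have hb0 : emb b ≠ 0 := by
    intro h0
    exact hb (einj _ _ (by rw [h0, ezero]))
  have hOm : Om ≠ 0 := hL.om_ne
  have hmemL : ∀ z : ℂ, z ∈ L.lattice ↔ ∃ x : OO A B, z = Om * emb x := by
    intro z
    rw [hL.mem z]
    simp
  have hmulL : ∀ (x : OO A B) {z : ℂ}, z ∈ L.lattice → emb x * z ∈ L.lattice := by
    intro x z hz
    obtain ⟨y, rfl⟩ := (hmemL z).1 hz
    exact (hmemL _).2 ⟨x * y, by rw [emul]; ring⟩
  have hdiv : ∀ x : OO A B, emb x * (Om / emb b) ∈ L.lattice ↔ b ∣ x := by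
    intro x
    rw [hmemL]
    constructor
    · rintro ⟨y, hy⟩
      refine ⟨y, einj _ _ ?_⟩
      rw [emul]
      field_simp at hy
      linear_combination hy
    · rintro ⟨y, rfl⟩
      refine ⟨y, ?_⟩
      rw [emul]
      field_simp
  have htor : ∀ z : ℂ, emb b * z ∈ L.lattice ↔ ∃ x : OO A B, z = emb x * (Om / emb b) := by
    intro z
    rw [hmemL]
    constructor
    · rintro ⟨y, hy⟩
      refine ⟨y, ?_⟩
      field_simp
      linear_combination hy
    · rintro ⟨y, rfl⟩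
      refine ⟨y, ?_⟩
      field_simp
  have hcopL : ∀ {x y : OO A B}, IsCoprime x y → ∀ {z : ℂ}, emb x * z ∈ L.lattice →
      emb y * z ∈ L.lattice → z ∈ L.lattice := by
    intro x y hxy z hx hy
    obtain ⟨s, t, hst⟩ := hxy
    have e1 : z = emb s * (emb x * z) - emb (-t) * (emb y * z) := by
      have e2 : emb (s * x - (-t) * y) = 1 := by
        rw [← eone, ← hst]; congr 1; ring
      rw [esub, emul, emul] at e2
      linear_combination -z * e2
    rw [e1]
    exact sub_mem (hmulL s hx) (hmulL (-t) hy)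
  have hper := (hTIN L a H H hH hH).2.2
  have ea : emb ((a : ℤ) : OO A B) = (a : ℂ) := eint a
  have ha0 : (a : ℂ) ≠ 0 := by exact_mod_cast ha
  -- the map
  have hmk : ∀ x y : OO A B, (Ideal.Quotient.mk (Ideal.span {b}) x =
      Ideal.Quotient.mk (Ideal.span {b}) y) ↔ b ∣ x - y := by
    intro x y
    rw [Ideal.Quotient.eq, Ideal.mem_span_singleton]
  have hout : ∀ t : OO A B ⧸ Ideal.span {b},
      Ideal.Quotient.mk (Ideal.span {b}) (Quotient.out t) = t := fun t => Ideal.Quotient.mk_out t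
  set r : OO A B ⧸ Ideal.span {b} → ℂ := fun t => emb (Quotient.out t) * (Om / emb b) with hr
  have hsub : ∀ (x y : OO A B), b ∣ x - y → emb x * (Om / emb b) - emb y * (Om / emb b) ∈
      L.lattice := by
    intro x y hxy
    rw [← sub_mul, ← esub, hdiv]
    exact hxy
  have hinjL : ∀ t t', r t - r t' ∈ L.lattice → t = t' := by
    intro t t' htt
    simp only [hr] at htt
    rw [← sub_mul, ← esub, hdiv, ← hmk, hout, hout] at htt
    exact htt
  have hinj : Function.Injective r := by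
    intro t t' htt
    apply hinjL
    rw [htt, sub_self]; exact zero_mem _
  set R : Finset ℂ := (Finset.univ.erase 0).image r with hR
  have hr0 : ∀ t, t ≠ 0 → r t ∉ L.lattice := by
    intro t ht hm
    simp only [hr] at hm
    rw [hdiv] at hm
    apply ht
    rw [← hout t, ← map_zero (Ideal.Quotient.mk (Ideal.span {b})), hmk, sub_zero]
    exact hm
  have hrL : ∀ t, emb b * r t ∈ L.lattice := by
    intro t
    rw [htor]
    exact ⟨_, rfl⟩
  have hReps : IsReps L (emb b) R := by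
    constructor
    · intro q hq
      obtain ⟨t, ht, rfl⟩ := Finset.mem_image.1 hq
      exact hrL t
    · intro q hq
      obtain ⟨t, ht, rfl⟩ := Finset.mem_image.1 hq
      exact hr0 t (Finset.ne_of_mem_erase ht)
    · intro q hq q' hq' hqq
      obtain ⟨t, ht, rfl⟩ := Finset.mem_image.1 hq
      obtain ⟨t', ht', rfl⟩ := Finset.mem_image.1 hq'
      rw [hinjL t t' hqq]
    · intro z hz hzL
      obtain ⟨x, rfl⟩ := (htor z).1 hz
      refine ⟨r (Ideal.Quotient.mk _ x), Finset.mem_image.2 ⟨_, Finset.mem_erase.2 ⟨?_,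
        Finset.mem_univ _⟩, rfl⟩, ?_⟩
      · intro h0
        apply hzL
        rw [hdiv]
        rw [← map_zero (Ideal.Quotient.mk (Ideal.span {b})), hmk, sub_zero] at h0
        exact h0
      · apply hsub
        rw [← hmk, hout]
  have hprodR : ∀ g : ℂ → ℂ, ∏ q ∈ R, g q = ∏ t ∈ Finset.univ.erase 0, g (r t) := by
    intro g
    rw [hR, Finset.prod_image (fun x _ y _ hxy => hinj hxy)]
  obtain ⟨hne, hmain⟩ := hTDI L a (emb b) H R ha0 hb0
    (fun w hw => by have := hmulL ((a : ℤ) : OO A B) hw; rwa [ea] at this)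
    (fun w hw => hmulL b hw) hH hReps
    (fun z h1 h2 => hcopL hab (by rwa [ea]) h2)
  -- the constant is in `H`
  have hbot : sp b ≠ (⊥ : Ideal (OO A B)) := by
    intro h0
    exact hb (Ideal.span_singleton_eq_bot.1 h0)
  have hle : (RF (⊤ : Ideal (OO A B)) : IntermediateField (kk A B) ℂ) ≤ RF (sp b) :=
    T.mono ⊤ (sp b) le_top
  haveI hfd := T.fin (sp b) hbot
  haveI hgal := T.gal (sp b) hbot
  have hP : ∏ q ∈ R, ThetaH L H q ∈ (RF (⊤ : Ideal (OO A B)) : IntermediateField (kk A B) ℂ) := by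
    have hΘ : ∀ t, t ≠ 0 → ∃ hz : ThetaH L H (r t) ∈ (RF (sp b) : IntermediateField (kk A B) ℂ),
        ∀ (σ : (RF (sp b) : IntermediateField (kk A B) ℂ) ≃ₐ[kk A B] RF (sp b)) (c : OO A B),
          ActH σ b c →
          ((σ ⟨ThetaH L H (r t), hz⟩ : (RF (sp b) : IntermediateField (kk A B) ℂ)) : ℂ) =
            ThetaH L H (emb c * r t) := by
      intro t ht
      obtain ⟨_, _, hz, _, h2⟩ := hTHG A B h T ⊤ L Om hL b hb a H ha hH (r t) (hrL t) (hr0 t ht)
      exact ⟨hz, h2⟩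
    set θ : OO A B ⧸ Ideal.span {b} → (RF (sp b) : IntermediateField (kk A B) ℂ) := fun t =>
      if ht : t ≠ 0 then ⟨ThetaH L H (r t), (hΘ t ht).1⟩ else 1 with hθ
    have hθ1 : ∀ t, t ≠ 0 → ((θ t : (RF (sp b) : IntermediateField (kk A B) ℂ)) : ℂ) =
        ThetaH L H (r t) := by
      intro t ht
      simp only [hθ]
      rw [dif_pos ht]
    have hcoe : ((∏ t ∈ Finset.univ.erase 0, θ t :
        (RF (sp b) : IntermediateField (kk A B) ℂ)) : ℂ) = ∏ q ∈ R, ThetaH L H q := by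
      rw [hprodR]
      have e0 : ((∏ t ∈ Finset.univ.erase 0, θ t :
          (RF (sp b) : IntermediateField (kk A B) ℂ)) : ℂ) =
          ∏ t ∈ Finset.univ.erase 0, ((θ t : (RF (sp b) : IntermediateField (kk A B) ℂ)) : ℂ) :=
        map_prod (RF (sp b) : IntermediateField (kk A B) ℂ).val _ _
      rw [e0]
      exact Finset.prod_congr rfl fun t ht => hθ1 t (Finset.ne_of_mem_erase ht)
    have hfix : ∀ σ : (RF (sp b) : IntermediateField (kk A B) ℂ) ≃ₐ[kk A B] RF (sp b), TrH σ →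
        σ (∏ t ∈ Finset.univ.erase 0, θ t) = ∏ t ∈ Finset.univ.erase 0, θ t := by
      intro σ hσ
      obtain ⟨c, hc⟩ := (hKER A B h T b hb).1 σ hσ
      apply Subtype.ext
      have e1 : ((σ (∏ t ∈ Finset.univ.erase 0, θ t) :
          (RF (sp b) : IntermediateField (kk A B) ℂ)) : ℂ) =
          ∏ t ∈ Finset.univ.erase 0,
            ((σ (θ t) : (RF (sp b) : IntermediateField (kk A B) ℂ)) : ℂ) := by
        rw [map_prod]
        exact map_prod (RF (sp b) : IntermediateField (kk A B) ℂ).val _ _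
      rw [e1, hcoe, hprodR]
      have e2 : ∀ t ∈ Finset.univ.erase (0 : OO A B ⧸ Ideal.span {b}),
          ((σ (θ t) : (RF (sp b) : IntermediateField (kk A B) ℂ)) : ℂ) =
            ThetaH L H (emb c * r t) := by
        intro t ht
        have ht0 := Finset.ne_of_mem_erase ht
        have e3 : θ t = ⟨ThetaH L H (r t), (hΘ t ht0).1⟩ := by
          simp only [hθ]; rw [dif_pos ht0]
        rw [e3]
        exact (hΘ t ht0).2 σ c hc
      rw [Finset.prod_congr rfl e2]
      -- multiplication by `c`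
      obtain ⟨x, y, hxy⟩ := hc.cop
      have hu : Ideal.Quotient.mk (Ideal.span {b}) x * Ideal.Quotient.mk (Ideal.span {b}) c = 1 := by
        rw [← map_mul, ← map_one (Ideal.Quotient.mk (Ideal.span {b})), hmk]
        exact ⟨-y, by rw [← hxy]; ring⟩
      have hu' : Ideal.Quotient.mk (Ideal.span {b}) c * Ideal.Quotient.mk (Ideal.span {b}) x = 1 := by
        rw [mul_comm]; exact hu
      let e : (OO A B ⧸ Ideal.span {b}) ≃ (OO A B ⧸ Ideal.span {b}) :=
        { toFun := fun t => Ideal.Quotient.mk (Ideal.span {b}) c * t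
          invFun := fun t => Ideal.Quotient.mk (Ideal.span {b}) x * t
          left_inv := fun t => by
            show Ideal.Quotient.mk (Ideal.span {b}) x *
              (Ideal.Quotient.mk (Ideal.span {b}) c * t) = t
            rw [← mul_assoc, hu, one_mul]
          right_inv := fun t => by
            show Ideal.Quotient.mk (Ideal.span {b}) c *
              (Ideal.Quotient.mk (Ideal.span {b}) x * t) = t
            rw [← mul_assoc, hu', one_mul] }
      refine Finset.prod_equiv e ?_ ?_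
      · intro t
        have : e t = 0 ↔ t = 0 := by
          constructor
          · intro h0
            have := congrArg e.symm h0
            rw [Equiv.symm_apply_apply] at this
            rw [this]
            show Ideal.Quotient.mk (Ideal.span {b}) x * 0 = 0
            rw [mul_zero]
          · rintro rfl
            show Ideal.Quotient.mk (Ideal.span {b}) c * 0 = 0
            rw [mul_zero]
        simp only [Finset.mem_erase, Finset.mem_univ, and_true, ne_eq, this]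
      · intro t ht
        have hd : b ∣ c * Quotient.out t - Quotient.out (e t) := by
          rw [← hmk, hout, map_mul, hout]
          rfl
        have h3 := hsub _ _ hd
        have h4 := hper (r (e t)) _ h3
        rw [← h4]
        congr 1
        simp only [hr]
        rw [emul]
        ring
    have hmem : (∏ t ∈ Finset.univ.erase 0, θ t) ∈
        IntermediateField.fixedField
          (IntermediateField.fixingSubgroup (IntermediateField.restrict hle)) := by
      rw [IntermediateField.mem_fixedField_iff]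
      intro σ hσ
      apply hfix
      intro x hx
      exact (IntermediateField.mem_fixingSubgroup_iff _ _).1 hσ x
        ((IntermediateField.mem_restrict hle x).2 hx)
    rw [IsGalois.fixedField_fixingSubgroup] at hmem
    rw [← hcoe]
    exact (IntermediateField.mem_restrict hle _).1 hmem
  have hbH : emb b ∈ (RF (⊤ : Ideal (OO A B)) : IntermediateField (kk A B) ℂ) :=
    IntermediateField.algebraMap_mem (RF (⊤ : Ideal (OO A B))) (⟨emb b, _root_.Pool.Agent.MU3A.emb_mem b⟩ : kk A B)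
  refine ⟨emb b ^ (2 * H.card) * ∏ q ∈ R, ThetaH L H q, mul_mem (pow_mem hbH _) hP,
    mul_ne_zero (pow_ne_zero _ hb0) hne, ?_⟩
  intro z hz
  have hz' : (a : ℂ) * emb b * z ∉ L.lattice := by
    rwa [mul_comm (a : ℂ)]
  rw [← hmain z hz', finprod_eq_prod_of_fintype, hprodR,
    ← Finset.mul_prod_erase Finset.univ _ (Finset.mem_univ (0 : OO A B ⧸ Ideal.span {b}))]
  congr 1
  apply hper
  rw [hdiv]
  have := hout 0
  rw [← map_zero (Ideal.Quotient.mk (Ideal.span {b})), hmk, map_zero, sub_zero] at this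
  exact this

end

end Pool.Agent.MUXW


end

section

/-!
# MU3, block V: module MEMC (helper18)
-/

set_option autoImplicit false

namespace Pool.Agent.MU3V

open _root_.MU3 _root_.Pool.Agent.MU3A _root_.Pool.Agent.MU3B _root_.Pool.Agent.MU3C _root_.Pool.Agent.RI

noncomputable section

namespace MEMC18

variable {A B : ℤ}

lemma cls_out (m : OO A B) (x : OO A B ⧸ Ideal.span {m}) : cls m (Quotient.out x) = x :=
  Quotient.out_eq x

lemma cls_eq (m x y : OO A B) : cls m x = cls m y ↔ m ∣ x - y := by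
  rw [cls, cls, Ideal.Quotient.eq, Ideal.mem_span_singleton]

lemma cls_mul (m x y : OO A B) : cls m (x * y) = cls m x * cls m y := map_mul _ x y

/-- `Θ(x u)` depends only on the class of `x`. -/
lemma theta_cls (hTIN : St_TIN) {L : PeriodPair} {Om : ℂ} (hc : Case A B) (hCM : IsCM A B L Om)
    {m : OO A B} (hm : m ≠ 0) {a : ℂ} {H : Finset ℂ} (hH : IsHalf L a H) {x y : OO A B}
    (h : cls m x = cls m y) :
    ThetaH L H (emb x * (Om / emb m)) = ThetaH L H (emb y * (Om / emb m)) := by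
  obtain ⟨-, -, h1⟩ := hTIN L a H H hH hH
  have h2 : emb (x - y) * (Om / emb m) ∈ L.lattice :=
    (hCM.toIsLat.mul_div_mem_iff hc hm _).2 ((cls_eq m x y).1 h)
  have e : emb x * (Om / emb m) = emb y * (Om / emb m) + emb (x - y) * (Om / emb m) := by
    rw [emb_sub hc]
    ring
  rw [e, h1 _ _ h2]

/-- the set `XX` is finite -/
lemma fin_XX {L : PeriodPair} {m : OO A B} [FiniteDimensional (kk A B) (TF L m)]
    (h1 : ∀ (F : IntermediateField (kk A B) ℂ) (σ : F →ₐ[kk A B] ℂ) (a b : OO A B), TF L m ≤ F →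
      Act L σ m a → Act L σ m b → m ∣ a - b)
    {D : IntermediateField ℚ ℂ} (h : kk A B ≤ D)
    (τ : letI := algC h; D ≃ₐ[kk A B] D) : (XX L m h τ).Finite := by
  classical
  let f : (TF L m ≃ₐ[kk A B] TF L m) → (OO A B ⧸ Ideal.span {m}) := fun σ =>
    if hb : ∃ b, Act L (_root_.Pool.Agent.MU3A.em σ) m b then cls m hb.choose else 0
  refine (Set.finite_range f).subset fun x hx => ?_
  obtain ⟨σ, hσ, -⟩ := hx
  have hb : ∃ b, Act L (_root_.Pool.Agent.MU3A.em σ) m b := ⟨_, hσ⟩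
  refine ⟨σ, ?_⟩
  have e : f σ = cls m hb.choose := dif_pos hb
  rw [e]
  have h2 := h1 (TF L m) (_root_.Pool.Agent.MU3A.em σ) _ _ le_rfl hb.choose_spec hσ
  rw [(cls_eq m _ _).2 h2, cls_out]

end MEMC18

open _root_.Pool.Agent.MU3V.MEMC18 in
theorem tw_MEMC (hTHG : Sw_THG) (hXXG : Sw_XXG) (hNRM : Sa_NRM) (hACT : Sa_ACT) (hGAL : Sa_GAL)
    (hTNZ : St_TNZ) (hTIN : St_TIN) : Sw_MEMC := by
  classical
  intro A B L Om hc hCM m hm hmu a H ha hcop hH D h hsub
  let _ := algC h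
  obtain ⟨hfd, hgal⟩ := hNRM A B L Om hc hCM m hm
  obtain ⟨A1, -, -, -, -, -, -, -⟩ := hACT A B L Om hc hCM m hm
  obtain ⟨-, X2, X3, -⟩ := hXXG A B L Om hc hCM m hm D h hsub
  have hfin : ∀ τ : D ≃ₐ[kk A B] D, (XX L m h τ).Finite := fun τ => fin_XX A1 h τ
  have h0 := emb_ne_zero hc hm
  -- elements of `XX`
  have hcopX : ∀ (τ : D ≃ₐ[kk A B] D) (x : OO A B ⧸ Ideal.span {m}), x ∈ XX L m h τ →
      IsCoprime (Quotient.out x) m := by
    rintro τ x ⟨σ, hσ, -⟩
    exact hσ.1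
  have hnot : ∀ x : OO A B, IsCoprime x m → emb x * (Om / emb m) ∉ L.lattice := by
    intro x hx hL
    have h1 := (hCM.toIsLat.mul_div_mem_iff hc hm x).1 hL
    exact hmu (hx.isUnit_of_dvd' h1 dvd_rfl)
  have htor : ∀ x : OO A B, emb m * (emb x * (Om / emb m)) ∈ L.lattice := by
    intro x
    exact (hCM.toIsLat.torsion_iff hc hm _).2 ⟨x, rfl⟩
  obtain ⟨θ, hθ⟩ : ∃ θ : (OO A B ⧸ Ideal.span {m}) → ℂ,
      θ = fun x => ThetaH L H (emb (Quotient.out x) * (Om / emb m)) := ⟨_, rfl⟩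
  have hθc : ∀ x : OO A B, θ (cls m x) = ThetaH L H (emb x * (Om / emb m)) := by
    intro x
    rw [hθ]
    exact theta_cls hTIN hc hCM hm hH (_root_.Pool.Agent.MU3V.MEMC18.cls_out m _)
  have hcc : ∀ τ : D ≃ₐ[kk A B] D, cc L Om m H h τ = ∏ᶠ x ∈ XX L m h τ, θ x := by
    intro τ
    rw [hθ]
    rfl
  -- lift to the field
  obtain ⟨f, hf⟩ : ∃ f : (OO A B ⧸ Ideal.span {m}) → TF L m,
      f = fun x => if hx : θ x ∈ TF L m then ⟨θ x, hx⟩ else 1 := ⟨_, rfl⟩
  have hfx : ∀ (τ : D ≃ₐ[kk A B] D) (x : OO A B ⧸ Ideal.span {m}), x ∈ XX L m h τ →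
      ((f x : TF L m) : ℂ) = θ x ∧ ∀ (σ : TF L m →ₐ[kk A B] ℂ) (b : OO A B), Act L σ m b →
        σ (f x) = θ (cls m b * x) := by
    intro τ x hx
    obtain ⟨hz, h1⟩ := hTHG A B L Om hc hCM m hm a H ha hH (emb (Quotient.out x) * (Om / emb m))
      (htor _) (hnot _ (hcopX τ x hx))
    have hz' : θ x ∈ TF L m := by
      rw [hθ]
      exact hz
    have e : f x = ⟨θ x, hz'⟩ := by
      rw [hf]
      exact dif_pos hz'
    refine ⟨by rw [e], fun σ b hb => ?_⟩
    have e2 : f x = ⟨ThetaH L H (emb (Quotient.out x) * (Om / emb m)), hz⟩ := by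
      rw [e]
      apply Subtype.ext
      exact congrFun hθ x
    rw [e2, h1 σ b hb]
    have e3 : cls m b * x = cls m (b * Quotient.out x) := by
      rw [_root_.Pool.Agent.MU3V.MEMC18.cls_mul, _root_.Pool.Agent.MU3V.MEMC18.cls_out]
    rw [e3, hθc, emb_mul hc, mul_assoc]
  -- the action
  have key : ∀ τ : D ≃ₐ[kk A B] D, ∃ P : TF L m, (P : ℂ) = cc L Om m H h τ ∧
      ∀ (σ : TF L m ≃ₐ[kk A B] TF L m) (b : OO A B) (τ' : D ≃ₐ[kk A B] D),
        Act L (_root_.Pool.Agent.MU3A.em σ) m b → Ext1 h τ' σ → ((σ P : TF L m) : ℂ) = cc L Om m H h (τ' * τ) := by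
    intro τ
    refine ⟨∏ᶠ x ∈ XX L m h τ, f x, ?_, ?_⟩
    · have h1 := MonoidHom.map_finprod_mem f
        ((TF L m).val : TF L m →ₐ[kk A B] ℂ).toRingHom.toMonoidHom (hfin τ)
      refine h1.trans ?_
      rw [hcc]
      exact finprod_mem_congr rfl fun x hx => (hfx τ x hx).1
    · intro σ b τ' hb hσ
      have h1 := MonoidHom.map_finprod_mem f (_root_.Pool.Agent.MU3A.em σ).toRingHom.toMonoidHom (hfin τ)
      refine h1.trans ?_
      rw [hcc]
      obtain ⟨u, v, huv⟩ := hb.1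
      have hub : cls m u * cls m b = 1 := by
        rw [← _root_.Pool.Agent.MU3V.MEMC18.cls_mul]
        have h2 : cls m (u * b) = cls m 1 := by
          rw [cls_eq]
          exact ⟨-v, by linear_combination huv⟩
        rw [h2]
        exact map_one _
      refine finprod_mem_eq_of_bijOn (fun x => cls m b * x) ⟨?_, ?_, ?_⟩ ?_
      · intro x hx
        have h2 := (X3 σ b (Quotient.out x) τ τ' hb hσ).1 (by rwa [_root_.Pool.Agent.MU3V.MEMC18.cls_out])
        rw [_root_.Pool.Agent.MU3V.MEMC18.cls_mul, _root_.Pool.Agent.MU3V.MEMC18.cls_out] at h2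
        exact h2
      · intro x _ y _ hxy
        have h2 : cls m b * x = cls m b * y := hxy
        have h3 := congrArg (fun t => cls m u * t) h2
        simp only [← mul_assoc, hub, one_mul] at h3
        exact h3
      · intro y hy
        have e : cls m (b * (u * Quotient.out y)) = y := by
          rw [_root_.Pool.Agent.MU3V.MEMC18.cls_mul, _root_.Pool.Agent.MU3V.MEMC18.cls_mul, _root_.Pool.Agent.MU3V.MEMC18.cls_out, ← mul_assoc, mul_comm (cls m b), hub, one_mul]
        have h2 := (X3 σ b (u * Quotient.out y) τ τ' hb hσ).2 (by rwa [e])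
        refine ⟨_, h2, ?_⟩
        show cls m b * cls m (u * Quotient.out y) = y
        rw [← _root_.Pool.Agent.MU3V.MEMC18.cls_mul, e]
      · intro x hx
        exact (hfx τ x hx).2 (_root_.Pool.Agent.MU3A.em σ) b hb
  -- the subfield
  let E : IntermediateField (kk A B) (TF L m) :=
    (IntermediateField.extendScalars h).comap (TF L m).val
  have hE : ∀ y : TF L m, y ∈ E ↔ (y : ℂ) ∈ D := fun y => Iff.rfl
  refine ⟨fun τ => ⟨?_, ?_⟩, ?_⟩
  · obtain ⟨P, hP, hPσ⟩ := key τ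
    rw [← hP, ← hE, ← IsGalois.fixedField_fixingSubgroup E, IntermediateField.mem_fixedField_iff]
    intro σ hσ
    rw [IntermediateField.mem_fixingSubgroup_iff] at hσ
    obtain ⟨b, hb⟩ := hGAL A B L Om hc hCM m hm (TF L m) le_rfl (_root_.Pool.Agent.MU3A.em σ)
    have hext : Ext1 h (1 : D ≃ₐ[kk A B] D) σ := by
      intro y hy
      have h1 := hσ ⟨y, hy⟩ ((hE _).2 y.2)
      rw [h1]
      rfl
    have h2 := hPσ σ b 1 hb hext
    rw [one_mul, ← hP] at h2
    exact Subtype.ext h2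
  · rw [hcc]
    refine finprod_mem_induction (p := fun z : ℂ => z ≠ 0) one_ne_zero
      (fun _ _ => mul_ne_zero) fun x hx => ?_
    have hx1 := hcopX τ x hx
    have hxL := hnot _ hx1
    have haL : ∀ w ∈ L.lattice, (a : ℂ) * w ∈ L.lattice := by
      intro w hw
      have := L.lattice.smul_mem a hw
      rwa [zsmul_eq_mul] at this
    rw [hθ]
    intro h1
    have h2 := (hTNZ L a H haL hH _ hxL).1 h1
    have e : (a : ℂ) * (emb (Quotient.out x) * (Om / emb m)) =
        emb ((a : OO A B) * Quotient.out x) * (Om / emb m) := by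
      rw [emb_mul hc, emb_intCast hc]
      ring
    rw [e] at h2
    exact hnot _ (hcop.mul_left hx1) h2
  · intro τ h1
    obtain ⟨σ, b, hb, hσ⟩ := X2 τ
    obtain ⟨P, hP, hPσ⟩ := key 1
    have h2 := hPσ σ b τ hb hσ
    rw [mul_one] at h2
    rw [← h2]
    have hy : cc L Om m H h 1 ∈ TF L m := by
      rw [← hP]
      exact P.2
    have h3 := hσ ⟨cc L Om m H h 1, h1⟩ hy
    rw [← h3]
    have e : (⟨cc L Om m H h 1, hy⟩ : TF L m) = P := Subtype.ext hP.symm
    rw [e]

end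

end Pool.Agent.MU3V


end

section

/-!
# MUX, block HY, module CLN (helper1): a power of `P` is principal
-/

set_option autoImplicit false

namespace Pool.Agent.MUXHY

open _root_.MU3 _root_.Pool.Agent.MU3A _root_.Pool.Agent.MU3B _root_.Pool.Agent.MU3F _root_.Pool.Agent.MUX _root_.Pool.Agent.MUXH
  _root_.Pool.Agent.MuSym OnePoint

namespace Cln

variable {A B : ℤ}

theorem sp_mul (x y : OO A B) : sp (x * y) = sp x * sp y :=
  (Ideal.span_singleton_mul_span_singleton x y).symm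

theorem core (hdom : IsDomain (OO A B))
    (hcan : ∀ b c c' : Ideal (OO A B), b ≠ ⊥ → (b * c ≤ b * c' ↔ c ≤ c'))
    (P b : Ideal (OO A B)) (i k : ℕ) (hPi : P ^ i ≠ ⊥) (x y x' y' : OO A B) (hx' : x' ≠ 0)
    (hy : y ≠ 0) (h1 : sp x * P ^ i = sp y * b) (h2 : sp x' * P ^ (i + k) = sp y' * b) :
    ∃ al : OO A B, P ^ k = sp al := by
  have hcan' : ∀ b c c' : Ideal (OO A B), b ≠ ⊥ → b * c = b * c' → c = c' := by
    intro b c c' hb hbc
    exact le_antisymm ((hcan b c c' hb).1 hbc.le) ((hcan b c' c hb).1 hbc.ge)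
  have e1 : P ^ i * sp (y' * x) = P ^ i * (sp (y * x') * P ^ k) := by
    rw [sp_mul, sp_mul]
    calc P ^ i * (sp y' * sp x) = sp y' * (sp x * P ^ i) := by ring
      _ = sp y * (sp y' * b) := by rw [h1]; ring
      _ = P ^ i * (sp y * sp x' * P ^ k) := by rw [← h2, pow_add]; ring
  have e2 := hcan' _ _ _ hPi e1
  have hm : y' * x ∈ sp (y * x') * P ^ k := by
    rw [← e2]
    exact Ideal.mem_span_singleton_self _
  obtain ⟨al, -, hal⟩ := Ideal.mem_span_singleton_mul.1 hm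
  refine ⟨al, ?_⟩
  have hne : sp (y * x') ≠ ⊥ := by
    rw [Ne, Ideal.span_singleton_eq_bot]
    exact mul_ne_zero hy hx'
  apply hcan' _ _ _ hne
  rw [← e2, Ideal.span_singleton_mul_span_singleton, hal]

end Cln

theorem ty_CLN (h1 : MUXF.Sx_ALG) (h2 : MUXF.Sx_NIM) : Sy_CLN := by
  intro A B hq n ι _ R P hP
  obtain ⟨-, -, -, -, hdom⟩ := h1 A B (toCQ hq)
  obtain ⟨hmul, -, -, hcan⟩ := h2 A B (toCQ hq)
  have hpow : ∀ i : ℕ, P ^ i ≠ ⊥ := by
    intro i
    induction i with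
    | zero =>
      rw [pow_zero, Ideal.one_eq_top]
      exact top_ne_bot
    | succ i ih =>
      rw [pow_succ]
      exact (hmul _ _ ih hP).2
  choose c x y hx hy hxy using fun i : ℕ => R.surj (P ^ i) (hpow i)
  obtain ⟨i, j, hij, hc⟩ := Finite.exists_ne_map_eq_of_infinite c
  rcases lt_or_gt_of_ne hij with hlt | hlt
  · obtain ⟨k, hk⟩ := Nat.exists_eq_add_of_lt hlt
    have e1 := hxy i
    have e2 := hxy j
    rw [← hc, hk, add_assoc] at e2
    obtain ⟨al, hal⟩ := Cln.core hdom hcan P _ i (k + 1) (hpow i) _ _ _ _ (hx _) (hy i) e1 e2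
    exact ⟨k + 1, al, by omega, hal⟩
  · obtain ⟨k, hk⟩ := Nat.exists_eq_add_of_lt hlt
    have e1 := hxy j
    have e2 := hxy i
    rw [hc, hk, add_assoc] at e2
    obtain ⟨al, hal⟩ := Cln.core hdom hcan P _ j (k + 1) (hpow j) _ _ _ _ (hx _) (hy j) e1 e2
    exact ⟨k + 1, al, by omega, hal⟩

end Pool.Agent.MUXHY


end

section

/-!
From binary forms to functions: the values of a modular symbol as functions of `(u, v)`.
-/

open MvPolynomial OnePoint Finset

namespace Pool.Agent.MuSym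

variable {F : Type} [Field F]

lemma eval_act (a b c d : ℤ) (P : MvPolynomial (Fin 2) F) (u v : F) :
    eval ![u, v] (act a b c d P) = eval ![a * u + c * v, b * u + d * v] P := by
  unfold act
  rw [MvPolynomial.aeval_def, ← MvPolynomial.coe_eval₂Hom]
  have : (eval ![u, v]).comp (eval₂Hom (algebraMap F (MvPolynomial (Fin 2) F))
      ![C (a : F) * X 0 + C (c : F) * X 1, C (b : F) * X 0 + C (d : F) * X 1]) =
      eval ![a * u + c * v, b * u + d * v] := by
    apply MvPolynomial.ringHom_ext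
    · intro r
      simp
    · intro i
      fin_cases i <;> simp
  exact congrArg (fun f => f P) this

lemma homog_degree {g : ℕ} {P : MvPolynomial (Fin 2) F} (hP : P.IsHomogeneous g)
    {d : Fin 2 →₀ ℕ} (hd : coeff d P ≠ 0) : d 0 + d 1 = g := by
  have := hP hd
  rw [Finsupp.weight_apply, Finsupp.sum_fintype _ _ (by simp)] at this
  simpa [Fin.sum_univ_two] using this

lemma eval_smul_homog {g : ℕ} {P : MvPolynomial (Fin 2) F} (hP : P.IsHomogeneous g) (t u v : F) :
    eval ![t * u, t * v] P = t ^ g * eval ![u, v] P := by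
  rw [eval_eq', eval_eq', mul_sum]
  apply sum_congr rfl
  intro d hd
  have h1 := homog_degree hP (MvPolynomial.mem_support_iff.mp hd)
  simp only [Fin.prod_univ_two, Matrix.cons_val_zero, Matrix.cons_val_one]
  rw [← h1, mul_pow, mul_pow, pow_add]
  ring

lemma mob_coe (a b c d : ℤ) {r : ℚ} (h : (c : ℚ) * r + d ≠ 0) :
    mob a b c d (r : OnePoint ℚ) = (((a * r + b) / (c * r + d) : ℚ) : OnePoint ℚ) := by
  simp [mob, h]

lemma mob_infty_zero (a b d : ℤ) : mob a b 0 d ∞ = ∞ := by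
  simp [mob]

lemma mob_up {p : ℕ} (hp : p.Prime) (j : ℕ) (r : ℚ) :
    mob 1 j 0 p (r : OnePoint ℚ) = (((r + j) / p : ℚ) : OnePoint ℚ) := by
  have hpQ : (p : ℚ) ≠ 0 := by exact_mod_cast hp.ne_zero
  rw [mob_coe]
  · simp
  · simpa using hp.ne_zero

lemma mob_low {p : ℕ} (r : ℚ) :
    mob p 0 0 1 (r : OnePoint ℚ) = ((p * r : ℚ) : OnePoint ℚ) := by
  rw [mob_coe]
  · simp
  · simp

variable {p N g : ℕ} {ε : DirichletCharacter F N} {a : F}
  {Φ : OnePoint ℚ → OnePoint ℚ → MvPolynomial (Fin 2) F}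

lemma f_equiv (hΦ : IsModSym N g ε Φ) (a b c d : ℤ) (h : a * d - b * c = 1) (hc : (N : ℤ) ∣ c)
    (x y : OnePoint ℚ) (u v : F) :
    eval ![u, v] (Φ (mob a b c d x) (mob a b c d y)) =
      ε d * eval ![a * u + c * v, b * u + d * v] (Φ x y) := by
  rw [hΦ.equiv a b c d h hc, map_mul, eval_C, eval_act]

lemma f_add (hΦ : IsModSym N g ε Φ) (x y z : OnePoint ℚ) (u v : F) :
    eval ![u, v] (Φ x y) + eval ![u, v] (Φ y z) = eval ![u, v] (Φ x z) := by
  rw [← map_add, hΦ.add]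

lemma f_self (hΦ : IsModSym N g ε Φ) (x : OnePoint ℚ) : Φ x x = 0 := by
  have := hΦ.add x x x
  simpa using this

/-- The Hecke relation, in characteristic `p`. -/
lemma f_T [CharP F p] (hΦ : IsModSym N g ε Φ)
    (hT : ∀ x y, heckeT p N ε Φ x y = C a * Φ x y) (x y : OnePoint ℚ) (u v : F) :
    a * eval ![u, v] (Φ x y) = ∑ j ∈ range p, (v - j * u) ^ g *
      eval ![0, 1] (Φ (mob 1 j 0 p x) (mob 1 j 0 p y)) +
      ε p * (u ^ g * eval ![1, 0] (Φ (mob p 0 0 1 x) (mob p 0 0 1 y))) := by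
  have h := congrArg (eval ![u, v]) (hT x y)
  rw [map_mul, eval_C] at h
  rw [← h]
  unfold heckeT
  rw [map_add, map_sum, map_mul, eval_C, eval_act]
  congr 1
  · apply sum_congr rfl
    intro j _
    rw [eval_act, ← eval_smul_homog (hΦ.homog _ _)]
    congr 2
    simp
    ring
  · congr 1
    rw [← eval_smul_homog (hΦ.homog _ _)]
    congr 2
    simp

/-- The Hecke relation on the path from `∞` to a rational number. -/
lemma f_T_inf (hp : p.Prime) [CharP F p] (hΦ : IsModSym N g ε Φ)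
    (hT : ∀ x y, heckeT p N ε Φ x y = C a * Φ x y) (r : ℚ) (u v : F) :
    a * eval ![u, v] (Φ ∞ r) = ∑ j ∈ range p, (v - j * u) ^ g *
      eval ![0, 1] (Φ ∞ (((r + j) / p : ℚ) : OnePoint ℚ)) +
      ε p * (u ^ g * eval ![1, 0] (Φ ∞ ((p * r : ℚ) : OnePoint ℚ))) := by
  rw [f_T hΦ hT, mob_infty_zero, mob_low]
  congr 1
  apply sum_congr rfl
  intro j _
  rw [mob_infty_zero, mob_up hp]

end Pool.Agent.MuSym


end

section

/-!
# MU3: the key lemma KM2, from KM1 and KM1L
-/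

open Finset OnePoint

namespace Pool.Agent.MU3

open _root_.Pool.Agent.MuSym

namespace P_KM2

variable {R M : Type} [CommRing R] [AddCommGroup M] [Module R M]

open Classical in
/-- The boundary function. -/
noncomputable def bd (L : ℤ) (χ : ℤ → R) (φ : M) (r : ℚ) : M :=
  if IsCoprime (r.den : ℤ) L then χ (r.den : ℤ) • φ else 0

open Classical in
lemma bd_pos (L : ℤ) (χ : ℤ → R) (φ : M) {U V : ℤ} (hV : 0 < V) (h : IsCoprime U V) :
    bd L χ φ ((U : ℚ) / V) = if IsCoprime V L then χ V • φ else 0 := by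
  have hcop : Nat.Coprime U.natAbs V.natAbs := Int.isCoprime_iff_nat_coprime.mp h
  have hd : (((U : ℚ) / V).den : ℤ) = V := Rat.den_div_eq_of_coprime hV hcop
  rw [bd, hd]

open Classical in
lemma bd_eq (L : ℤ) (χ : ℤ → R) (φ : M) (hneg : χ (-1) • φ = φ)
    (hmul : ∀ d d' : ℤ, χ (d * d') = χ d * χ d') {U V : ℤ} (hV : V ≠ 0) (h : IsCoprime U V) :
    bd L χ φ ((U : ℚ) / V) = if IsCoprime V L then χ V • φ else 0 := by
  rcases lt_or_gt_of_ne hV with h' | h'
  · have e : (U : ℚ) / V = ((-U : ℤ) : ℚ) / ((-V : ℤ) : ℚ) := by push_cast; rw [neg_div_neg_eq]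
    rw [e, bd_pos L χ φ (by omega) h.neg_neg]
    have h1 : χ (-V) • φ = χ V • φ := by
      have h2 : -V = V * (-1) := by ring
      rw [h2, hmul, mul_smul, hneg]
    have h3 : IsCoprime (-V) L ↔ IsCoprime V L := IsCoprime.neg_left_iff V L
    rw [h1]
    by_cases h4 : IsCoprime V L
    · rw [if_pos h4, if_pos (h3.mpr h4)]
    · rw [if_neg h4, if_neg (fun h5 => h4 (h3.mp h5))]
  · exact bd_pos L χ φ h' h

lemma bd_zero_of (L : ℤ) (χ : ℤ → R) (φ : M) {p : ℕ} (hp : p.Prime) (hpL : (p : ℤ) ∣ L) {U V : ℤ}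
    (hV : 0 < V) (h : IsCoprime U V) (hpV : (p : ℤ) ∣ V) : bd L χ φ ((U : ℚ) / V) = 0 := by
  have hpp : Prime (p : ℤ) := Nat.prime_iff_prime_int.mp hp
  classical
  rw [bd_pos L χ φ hV h, if_neg]
  intro hc
  exact hpp.not_isUnit (hc.isUnit_of_dvd' hpV hpL)

lemma bd_int (L : ℤ) (χ : ℤ → R) (φ : M) (h1 : χ 1 = 1) (S : ℤ) : bd L χ φ (S : ℚ) = φ := by
  classical
  have h := bd_pos L χ φ (U := S) (V := 1) one_pos isCoprime_one_right
  rw [if_pos isCoprime_one_left, h1, one_smul] at h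
  simpa using h

/-- Equivariance of the boundary function. -/
lemma bd_equiv (L : ℤ) (χ : ℤ → R) (φ : M) (hneg : χ (-1) • φ = φ)
    (hmul : ∀ d d' : ℤ, χ (d * d') = χ d * χ d') (hper : ∀ d d' : ℤ, L ∣ d - d' → χ d = χ d')
    {a b c d : ℤ} (hdet : a * d - b * c = 1) (hN : L ∣ c) {r : ℚ}
    (hr : (c : ℚ) * r + d ≠ 0) :
    bd L χ φ ((a * r + b) / (c * r + d)) = χ d • bd L χ φ r := by
  have hdq : (r.den : ℚ) ≠ 0 := by exact_mod_cast r.den_ne_zero
  have hrd : r * r.den = r.num := Rat.mul_den_eq_num r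
  obtain ⟨n, hn⟩ : ∃ n : ℤ, n = r.num := ⟨_, rfl⟩
  obtain ⟨m, hm⟩ : ∃ m : ℤ, m = (r.den : ℤ) := ⟨_, rfl⟩
  have hmq : (m : ℚ) = r.den := by rw [hm]; push_cast; rfl
  have hnm : IsCoprime n m := by
    rw [Int.isCoprime_iff_nat_coprime]
    simpa [hn, hm] using r.reduced
  have hmul1 : ((c : ℚ) * r + d) * m = ((c * n + d * m : ℤ) : ℚ) := by
    push_cast
    rw [hn, ← hrd, hmq]; ring
  have hmul2 : ((a : ℚ) * r + b) * m = ((a * n + b * m : ℤ) : ℚ) := by
    push_cast
    rw [hn, ← hrd, hmq]; ring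
  have hm0 : (m : ℚ) ≠ 0 := by rw [hmq]; exact hdq
  have hV : c * n + d * m ≠ 0 := by
    intro h
    rw [h] at hmul1
    push_cast at hmul1
    exact mul_ne_zero hr hm0 hmul1
  have hcop : IsCoprime (a * n + b * m) (c * n + d * m) := by
    obtain ⟨s, t, hst⟩ := hnm
    refine ⟨s * d - t * c, t * a - s * b, ?_⟩
    linear_combination (s * n + t * m) * hdet + hst
  have hfrac : (a * r + b) / (c * r + d) =
      ((a * n + b * m : ℤ) : ℚ) / ((c * n + d * m : ℤ) : ℚ) := by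
    rw [← hmul1, ← hmul2, mul_div_mul_right _ _ hm0]
  classical
  rw [hfrac, bd_eq L χ φ hneg hmul hV hcop, bd, ← hm]
  have hχ : χ (c * n + d * m) = χ d * χ m := by
    rw [← hmul]
    apply hper
    have h0 : c * n + d * m - d * m = c * n := by ring
    rw [h0]
    exact Dvd.dvd.mul_right hN n
  have hdL : IsCoprime d L := by
    obtain ⟨t, ht⟩ := hN
    refine ⟨a, -(b * t), ?_⟩
    rw [ht] at hdet
    linear_combination hdet
  have hiff : IsCoprime (c * n + d * m) L ↔ IsCoprime m L := by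
    obtain ⟨t, ht⟩ := hN
    have h1 : c * n + d * m = d * m + L * (t * n) := by rw [ht]; ring
    rw [h1, IsCoprime.add_mul_left_left_iff, IsCoprime.mul_left_iff]
    exact ⟨fun h => h.2, fun h => ⟨hdL, h⟩⟩
  by_cases h4 : IsCoprime m L
  · rw [if_pos h4, if_pos (hiff.mpr h4), hχ, mul_smul]
  · rw [if_neg h4, if_neg (fun h5 => h4 (hiff.mp h5)), smul_zero]

/-- The relation for `U_p`. -/
lemma bd_T (L : ℤ) (χ : ℤ → R) (φ : M) {p : ℕ} (hp : p.Prime) (hpL : (p : ℤ) ∣ L) (r : ℚ) :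
    bd L χ φ r = ∑ j ∈ range p, bd L χ φ ((r + j) / p) := by
  have hpp : Prime (p : ℤ) := Nat.prime_iff_prime_int.mp hp
  have hpq : (p : ℚ) ≠ 0 := by exact_mod_cast hp.ne_zero
  have hppos : (0 : ℤ) < p := by exact_mod_cast hp.pos
  have hdq : (r.den : ℚ) ≠ 0 := by exact_mod_cast r.den_ne_zero
  have hrd : r * r.den = r.num := Rat.mul_den_eq_num r
  obtain ⟨n, hn⟩ : ∃ n : ℤ, n = r.num := ⟨_, rfl⟩
  obtain ⟨m, hm⟩ : ∃ m : ℤ, m = (r.den : ℤ) := ⟨_, rfl⟩
  have hmpos : 0 < m := by rw [hm]; exact_mod_cast r.den_pos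
  have hmq : (m : ℚ) ≠ 0 := by exact_mod_cast hmpos.ne'
  have hnm : IsCoprime n m := by
    rw [Int.isCoprime_iff_nat_coprime]
    simpa [hn, hm] using r.reduced
  have hr : r = n / m := by
    rw [eq_div_iff hmq, hm, hn]; push_cast; exact hrd
  have hsh : ∀ j : ℕ, (r + j) / p = ((n + j * m : ℤ) : ℚ) / ((p * m : ℤ) : ℚ) := by
    intro j
    rw [hr]; push_cast
    field_simp
  have hcopj : ∀ j : ℕ, IsCoprime (n + j * m) m := fun j => by
    have := hnm.add_mul_right_left (j : ℤ)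
    exact this
  rw [hr] at hsh ⊢
  by_cases hpm : (p : ℤ) ∣ m
  · -- `p` divides the denominator
    have hpn : ¬ (p : ℤ) ∣ n := fun h => hpp.not_isUnit (hnm.isUnit_of_dvd' h hpm)
    have hzero : ∀ j ∈ range p, bd L χ φ ((n / m + j) / p) = 0 := by
      intro j _
      rw [hsh j, bd_zero_of L χ φ hp hpL (mul_pos hppos hmpos) ?_ (dvd_mul_right _ _)]
      refine IsCoprime.mul_right ?_ (hcopj j)
      refine ((Prime.coprime_iff_not_dvd hpp).mpr fun h => hpn ?_).symm
      exact (dvd_add_left (hpm.mul_left _)).mp h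
    rw [sum_eq_zero hzero]
    exact bd_zero_of L χ φ hp hpL hmpos hnm hpm
  · -- `p` does not divide the denominator
    obtain ⟨j0, hj0, t, ht⟩ : ∃ j0 : ℕ, j0 < p ∧ ∃ t : ℤ, n + j0 * m = p * t := by
      obtain ⟨s, s', hs⟩ := ((Prime.coprime_iff_not_dvd hpp).mpr hpm).symm
      obtain ⟨j0, hj⟩ : ∃ j0 : ℕ, (j0 : ℤ) = (-n * s) % p :=
        ⟨((-n * s) % (p : ℤ)).toNat, Int.toNat_of_nonneg (Int.emod_nonneg _ hppos.ne')⟩
      refine ⟨j0, ?_, n * s' - (-n * s / p) * m, ?_⟩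
      · have := Int.emod_lt_of_pos (-n * s) hppos
        rw [← hj] at this
        exact_mod_cast this
      · have h2 := Int.emod_add_mul_ediv (-n * s) (p : ℤ)
        rw [← hj] at h2
        linear_combination (-n) * hs + m * h2
    have hone : ∀ j ∈ range p, j ≠ j0 → bd L χ φ ((n / m + j) / p) = 0 := by
      intro j hj hjj
      rw [hsh j, bd_zero_of L χ φ hp hpL (mul_pos hppos hmpos) ?_ (dvd_mul_right _ _)]
      refine IsCoprime.mul_right ?_ (hcopj j)
      refine ((Prime.coprime_iff_not_dvd hpp).mpr fun h => hjj ?_).symm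
      have h1 : (p : ℤ) ∣ ((j : ℤ) - j0) * m := by
        have : ((j : ℤ) - j0) * m = (n + j * m) - p * t := by rw [← ht]; ring
        rw [this]
        exact dvd_sub h (dvd_mul_right _ _)
      have h2 : (p : ℤ) ∣ (j : ℤ) - j0 := (hpp.dvd_or_dvd h1).resolve_right hpm
      have hj' : j < p := mem_range.mp hj
      have h4 : (j : ℤ) - j0 = 0 := by
        refine Int.eq_zero_of_abs_lt_dvd h2 ?_
        rw [abs_lt]; constructor <;> omega
      omega
    rw [sum_eq_single_of_mem j0 (mem_range.mpr hj0) hone]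
    have e0 : ((n : ℚ) / m + j0) / p = (t : ℚ) / m := by
      rw [hsh j0, ht]; push_cast; field_simp
    have hcopt : IsCoprime t m := by
      have := hcopj j0
      rw [ht] at this
      exact this.of_mul_left_right
    classical
    rw [e0, bd_pos L χ φ hmpos hcopt, bd_pos L χ φ hmpos hnm]

lemma bd_smul (L : ℤ) (χ : ℤ → R) (φ : M) (c : R) (hc : c • φ = 0) (r : ℚ) :
    c • bd L χ φ r = 0 := by
  unfold bd
  split_ifs
  · rw [smul_comm, hc, smul_zero]
  · exact smul_zero _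

lemma bd_smul' (L : ℤ) (χ : ℤ → R) (φ : M) (c : R) (hc : c • φ = φ) (r : ℚ) :
    c • bd L χ φ r = bd L χ φ r := by
  unfold bd
  split_ifs
  · rw [smul_comm, hc]
  · exact smul_zero _

lemma mob_neg_one (x : OnePoint ℚ) : mob (-1) 0 0 (-1) x = x := by
  induction x using OnePoint.rec with
  | infty => exact mob_infty_zero _ _ _
  | coe r =>
    rw [mob_coe _ _ _ _ (by simp)]
    congr 1
    push_cast
    ring

end P_KM2

open _root_.Pool.Agent.MU3.P_KM2 in
theorem t_KM2 (hK1 : S_KM1) (hK2 : S_KM1L) : S_KM2 := by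
  intro p hp N' s hcop hN' R M _ _ _ χ Φ a ha k hk hχ1 hmul hper hadd hE hT hval α β γ δ hdet hγ hδ x
  have hpp : Prime (p : ℤ) := Nat.prime_iff_prime_int.mp hp
  have hpq : (p : ℚ) ≠ 0 := by exact_mod_cast hp.ne_zero
  set L : ℤ := ((p * N' : ℕ) : ℤ) with hL
  have hpL : (p : ℤ) ∣ L := by
    rw [hL]; push_cast; exact dvd_mul_right _ _
  have hLN : L ∣ ((p ^ (s + 1) * N' : ℕ) : ℤ) := by
    rw [hL]
    apply Int.natCast_dvd_natCast.mpr
    exact Nat.mul_dvd_mul (dvd_pow_self p (by omega)) dvd_rfl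
  have hself : ∀ y, Φ y y = 0 := fun y => by
    have := hadd y y y
    simpa using this
  have hinf : ∀ y z, Φ y z = Φ ∞ z - Φ ∞ y := fun y z => by
    rw [← hadd ∞ y z]; abel
  obtain ⟨φ, hφ⟩ : ∃ φ : M, φ = Φ ∞ ((0 : ℚ) : OnePoint ℚ) := ⟨_, rfl⟩
  -- the sign
  have hneg : χ (-1) • φ = φ := by
    have h := hE (-1) 0 0 (-1) (by ring) (dvd_zero _) ∞ ((0 : ℚ) : OnePoint ℚ)
    rw [mob_neg_one, mob_neg_one, ← hφ] at h
    exact h.symm
  -- translations
  have htr : ∀ n : ℤ, Φ ∞ ((n : ℚ) : OnePoint ℚ) = φ := by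
    intro n
    have h := hE 1 n 0 1 (by ring) (dvd_zero _) ∞ ((0 : ℚ) : OnePoint ℚ)
    rw [mob_infty_zero, mob_coe _ _ _ _ (by simp), ← hφ, hχ1, one_smul] at h
    simpa using h
  -- the Hecke relation at zero
  have haφ : a • φ = φ := by
    have h := hT 0
    rw [← hφ, sum_eq_single_of_mem 0 (mem_range.mpr hp.pos)] at h
    · rw [h, hφ]
      simp
    · intro j hj hj0
      have hj1 : ¬ (p : ℤ) ∣ (j : ℤ) := by
        intro hcon
        have := Int.natCast_dvd_natCast.mp hcon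
        exact absurd (Nat.le_of_dvd (Nat.pos_of_ne_zero hj0) this) (by simpa using hj)
      have h1 := hval 1 le_rfl j hj1
      rw [zero_add]
      rw [pow_one] at h1
      push_cast at h1
      exact h1
  obtain ⟨B, hB⟩ : ∃ B : ℚ → M, B = bd L χ φ := ⟨_, rfl⟩
  -- the values at `S / p ^ i`
  have hSp : ∀ (i : ℕ) (S : ℤ), Φ ∞ (((S : ℚ) / (p : ℚ) ^ i : ℚ) : OnePoint ℚ) =
      B ((S : ℚ) / (p : ℚ) ^ i) := by
    intro i
    induction i with
    | zero =>
      intro S
      rw [pow_zero, div_one, htr, hB, bd_int L χ φ hχ1]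
    | succ i ih =>
      intro S
      by_cases hS : (p : ℤ) ∣ S
      · obtain ⟨S', rfl⟩ := hS
        have h1 : ((((p : ℤ) * S' : ℤ) : ℚ) / (p : ℚ) ^ (i + 1) : ℚ) =
            (S' : ℚ) / (p : ℚ) ^ i := by
          push_cast
          field_simp
          ring
        rw [h1, ih]
      · rw [hval (i + 1) (by omega) S hS, hB]
        have hcopS : IsCoprime S ((p : ℤ) ^ (i + 1)) :=
          (((Prime.coprime_iff_not_dvd hpp).mpr hS).symm).pow_right
        have hpos : (0 : ℤ) < (p : ℤ) ^ (i + 1) := pow_pos (by exact_mod_cast hp.pos) _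
        have h := bd_zero_of L χ φ hp hpL hpos hcopS (dvd_pow_self _ (by omega))
        push_cast at h
        exact h.symm
  -- lower the level
  have hEq : EqvM (p * N') χ (fun x y : ℚ => Φ (x : OnePoint ℚ) (y : OnePoint ℚ)) := by
    apply hK2 p hp N' R M χ _ a ha hχ1 hper
    · intro x y
      show a • Φ (x : OnePoint ℚ) (y : OnePoint ℚ) = _
      rw [hinf, smul_sub, hT x, hT y, ← sum_sub_distrib]
      exact sum_congr rfl fun j _ => (hinf _ _).symm
    · intro a b c d h hc x y hx hy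
      show Φ (((a * x + b) / (c * x + d) : ℚ) : OnePoint ℚ)
        (((a * y + b) / (c * y + d) : ℚ) : OnePoint ℚ) = χ d • Φ (x : OnePoint ℚ) (y : OnePoint ℚ)
      rw [← mob_coe _ _ _ _ hx, ← mob_coe _ _ _ _ hy]
      exact hE a b c d h hc _ _
  -- the corrected symbol
  obtain ⟨K, hK⟩ : ∃ K : ℚ → M, ∀ r : ℚ, K r = Φ ∞ (r : OnePoint ℚ) - B r := ⟨_, fun _ => rfl⟩
  have hKB : ∀ x y : ℚ, K y - K x = Φ (x : OnePoint ℚ) (y : OnePoint ℚ) - (B y - B x) := by
    intro x y
    rw [hK, hK, hinf (x : OnePoint ℚ)]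
    abel
  have hkey : K (β / δ : ℚ) - K 0 = 0 := by
    apply hK1 p hp N' hcop R M χ (fun x y => K y - K x) a ha k
    · intro x y
      show (p : R) ^ k • (K y - K x) = 0
      rw [hKB, smul_sub, smul_sub, hk, hB]
      have h0 : (p : R) ^ k • φ = 0 := by rw [hφ]; exact hk _ _
      rw [bd_smul L χ φ _ h0, bd_smul L χ φ _ h0]
      simp
    · intro x y z
      show K y - K x + (K z - K y) = K z - K x
      abel
    · intro a b c d h hc x y hx hy
      show K ((a * y + b) / (c * y + d)) - K ((a * x + b) / (c * x + d)) = χ d • (K y - K x)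
      have h1 := hEq a b c d h hc x y hx hy
      have h1' : Φ (((a * x + b) / (c * x + d) : ℚ) : OnePoint ℚ)
        (((a * y + b) / (c * y + d) : ℚ) : OnePoint ℚ) =
        χ d • Φ (x : OnePoint ℚ) (y : OnePoint ℚ) := h1
      rw [hKB, hKB, h1', hB, bd_equiv L χ φ hneg hmul hper h hc hx,
        bd_equiv L χ φ hneg hmul hper h hc hy, smul_sub, smul_sub]
    · exact hχ1
    · intro S S' i i'
      show K (S' / (p : ℚ) ^ i') - K (S / (p : ℚ) ^ i) = 0
      rw [hK, hK, hSp, hSp]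
      simp
    · intro x y
      show a • (K y - K x) = ∑ j ∈ range p, (K ((y + j) / p) - K ((x + j) / p))
      have hKT : ∀ r : ℚ, a • K r = ∑ j ∈ range p, K ((r + j) / p) := by
        intro r
        have h3 : ∑ j ∈ range p, K ((r + j) / p) =
            ∑ j ∈ range p, Φ ∞ (((r + j) / p : ℚ) : OnePoint ℚ) -
              ∑ j ∈ range p, B ((r + j) / p) := by
          rw [← sum_sub_distrib]
          exact sum_congr rfl fun j _ => hK _
        rw [h3, ← hT r, hK, smul_sub]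
        congr 1
        rw [hB, bd_smul' L χ φ a haφ, ← bd_T L χ φ hp hpL]
      rw [smul_sub, hKT, hKT, ← sum_sub_distrib]
    · -- `δ ≠ 0`
      rintro rfl
      rw [zero_sub, dvd_neg] at hδ
      have h1 : (p : ℤ) ∣ 1 := hpL.trans (hLN.trans hδ)
      exact hpp.not_isUnit (isUnit_of_dvd_one h1)
    · apply IsCoprime.mul_right
      · exact ⟨α, -γ, by linear_combination hdet⟩
      · obtain ⟨t, ht⟩ := hδ
        refine ⟨1, -((p : ℤ) ^ (s + 1) * t), ?_⟩
        push_cast at ht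
        linear_combination ht
  have hδ0 : δ ≠ 0 := by
    rintro rfl
    rw [zero_sub, dvd_neg] at hδ
    have h1 : (p : ℤ) ∣ 1 := hpL.trans (hLN.trans hδ)
    exact hpp.not_isUnit (isUnit_of_dvd_one h1)
  have hχδ : χ δ = 1 := by
    rw [← hχ1]
    exact hper _ _ (hLN.trans hδ)
  have hβδ : IsCoprime β δ := ⟨-γ, α, by linear_combination hdet⟩
  have hδL : IsCoprime δ L := by
    obtain ⟨t, ht⟩ := hLN.trans hδ
    exact ⟨1, -t, by linear_combination ht⟩
  have hB1 : B (β / δ : ℚ) = φ := by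
    classical
    rw [hB, bd_eq L χ φ hneg hmul hδ0 hβδ, if_pos hδL, hχδ, one_smul]
  have hB0 : B 0 = φ := by
    have h := bd_int L χ φ hχ1 0
    rw [hB]
    simpa using h
  have h0 : Φ ((0 : ℚ) : OnePoint ℚ) ((β / δ : ℚ) : OnePoint ℚ) = 0 := by
    rw [hKB, hB1, hB0] at hkey
    simpa using hkey
  -- conclusion
  have hm0 : mob α β γ δ ((0 : ℚ) : OnePoint ℚ) = ((β / δ : ℚ) : OnePoint ℚ) := by
    rw [mob_coe _ _ _ _ (by simpa using hδ0)]
    simp
  have h1 := hE α β γ δ hdet hγ ((0 : ℚ) : OnePoint ℚ) x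
  rw [hm0, hχδ, one_smul] at h1
  rw [← hadd x ((0 : ℚ) : OnePoint ℚ) (mob α β γ δ x),
    ← hadd ((0 : ℚ) : OnePoint ℚ) ((β / δ : ℚ) : OnePoint ℚ) (mob α β γ δ x), h0, h1, zero_add,
    hadd, hself]

end Pool.Agent.MU3


end
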