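import Mathlib
import Pool.Agent.MVF.C023
import Pool.Agent.MVF.C036
import Pool.Agent.MVF.C048

/-! Parts: MU3.P_LG, MU3.K1Cnt, MU3.P_UNI, RI.INVI, MU3.K1Main, MU3.K1Val, MU3.K1, RI.H90, MU3.KIN, MU3.N_AMBI, MUX.K_SU0, MU3.PX_RKA, MUX.K_MAINKX, MUX.K_KOLX, MUX.K_KINX, MU3.I2Abs, MU3.I2AbsT, MUX.I2AbsP -/

namespace MU3.Ambi
end MU3.Ambi
namespace Pool.Agent.MU3.I2A
end Pool.Agent.MU3.I2A
namespace Pool.Agent.MU3.K1M
end Pool.Agent.MU3.K1M
namespace Pool.Agent.MU3.KIN
end Pool.Agent.MU3.KIN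
namespace Pool.Agent.MU3.P_UNI
end Pool.Agent.MU3.P_UNI
namespace Pool.Agent.MUXK.KINX
end Pool.Agent.MUXK.KINX
namespace Pool.Agent.MUXK.K_KOLX
end Pool.Agent.MUXK.K_KOLX
namespace Pool.Agent.MUXK.K_MAINKX
end Pool.Agent.MUXK.K_MAINKX
namespace Pool.Agent.MUXK.K_SU0
end Pool.Agent.MUXK.K_SU0
namespace Pool.Agent.RI.INVI
end Pool.Agent.RI.INVI

section

/-!
# MU3, section 3, module LG: the cubic residue symbol at a prime of degree one
-/

set_option autoImplicit false

open NumberField IsDedekindDomain Finset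
open scoped nonZeroDivisors Pointwise

namespace Pool.Agent.MU3

namespace P_LG

lemma core (κ : Type) [Field κ] [Finite κ] (q : ℕ) (hq : q.Prime) (h3 : 3 ∣ q - 1)
    (hcard : Nat.card κ = q) (U : Type) [CommGroup U] (φ : U →* κˣ) :
    ∃ (a : ℤ) (lg : U →* Multiplicative (ZMod 3)), (q : ℤ) ∣ a ^ 3 - 1 ∧ ¬ (q : ℤ) ∣ a - 1 ∧
      (∀ u : U, ((φ u : κˣ) : κ) ^ ((q - 1) / 3) = (a : κ) ^ (Multiplicative.toAdd (lg u)).val) ∧
      ∀ u : U, lg u = 1 → ∃ v : κ, ((φ u : κˣ) : κ) = v ^ 3 := by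
  classical
  have : Fact q.Prime := ⟨hq⟩
  have : Fintype κ := Fintype.ofFinite κ
  have hcf : Fintype.card κ = q := by rw [← hcard, Nat.card_eq_fintype_card]
  have : CharP κ q := charP_of_card_eq_prime hcf
  obtain ⟨m, hm⟩ := h3
  have hq1 : 1 < q := hq.one_lt
  have hm0 : 0 < m := by omega
  have hdiv : (q - 1) / 3 = m := by omega
  rw [hdiv]
  have hcu : Nat.card κˣ = 3 * m := by
    rw [Nat.card_units, hcard, hm]
  obtain ⟨g, hg⟩ := IsCyclic.exists_generator (α := κˣ)
  have hog : orderOf g = 3 * m := by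
    rw [orderOf_eq_card_of_forall_mem_zpowers hg, hcu]
  have hpow : ∀ x : κˣ, ∃ k : ℕ, x = g ^ k := by
    intro x
    have h1 := hg x
    rw [← mem_powers_iff_mem_zpowers] at h1
    obtain ⟨k, hk⟩ := h1
    exact ⟨k, hk.symm⟩
  set ω : κˣ := g ^ m with hω
  have hoω : orderOf ω = 3 := by
    rw [hω, orderOf_pow, hog, Nat.gcd_eq_right (Dvd.intro_left 3 rfl), Nat.mul_div_cancel _ hm0]
  set F : ZMod 3 → κˣ := fun i => ω ^ i.val with hF
  have hFadd : ∀ i j, F (i + j) = F i * F j := by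
    intro i j
    rw [hF]
    simp only
    rw [ZMod.val_add, ← pow_add, ← pow_mod_orderOf ω (i.val + j.val), hoω]
  have hFinj : ∀ i j, F i = F j → i = j := by
    intro i j h
    rw [hF] at h
    simp only at h
    rw [pow_inj_mod, hoω, Nat.mod_eq_of_lt (ZMod.val_lt i), Nat.mod_eq_of_lt (ZMod.val_lt j)] at h
    exact ZMod.val_injective 3 h
  have hFsurj : ∀ x : κˣ, x ^ 3 = 1 → ∃ i, F i = x := by
    intro x hx
    obtain ⟨k, rfl⟩ := hpow x
    rw [← pow_mul, ← orderOf_dvd_iff_pow_eq_one, hog, mul_comm 3 m] at hx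
    obtain ⟨j, rfl⟩ : m ∣ k := Nat.dvd_of_mul_dvd_mul_right (by norm_num) hx
    refine ⟨(j : ZMod 3), ?_⟩
    rw [hF]
    simp only
    rw [ZMod.val_natCast, pow_mul, ← hω, ← pow_mod_orderOf ω j, hoω]
  have hex : ∀ u : U, ∃ i, F i = φ u ^ m := by
    intro u
    apply hFsurj
    rw [← pow_mul, mul_comm m 3, ← hcu]
    exact pow_card_eq_one'
  choose lg hlg using hex
  -- the integer
  have hbij : Function.Surjective (ZMod.castHom (dvd_refl q) κ) :=
    (ZMod.castHom_bijective κ hcf).2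
  obtain ⟨b, hb⟩ := hbij (ω : κ)
  obtain ⟨a, ha⟩ := ZMod.intCast_surjective b
  have haω : (a : κ) = (ω : κ) := by
    rw [← hb, ← ha, map_intCast]
  refine ⟨a, MonoidHom.mk' (fun u => Multiplicative.ofAdd (lg u)) ?_, ?_, ?_, ?_, ?_⟩
  · intro u v
    rw [← ofAdd_add]
    congr 1
    apply hFinj
    rw [hFadd, hlg, hlg, hlg, map_mul, mul_pow]
  · rw [← CharP.intCast_eq_zero_iff κ q]
    push_cast
    rw [haω, ← Units.val_pow_eq_pow_val, ← hoω, pow_orderOf_eq_one, Units.val_one, sub_self]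
  · rw [← CharP.intCast_eq_zero_iff κ q]
    push_cast
    rw [haω, sub_eq_zero]
    intro h
    have h1 : ω = 1 := Units.ext h
    rw [h1, orderOf_one] at hoω
    omega
  · intro u
    have h1 := hlg u
    rw [haω]
    change ((φ u : κˣ) : κ) ^ m = (ω : κ) ^ (lg u).val
    rw [← Units.val_pow_eq_pow_val, ← h1, ← Units.val_pow_eq_pow_val]
  · intro u hu
    have h0 : lg u = 0 := by
      have h1 : Multiplicative.ofAdd (lg u) = 1 := hu
      exact h1
    have h1 := hlg u
    rw [h0, hF] at h1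
    simp only [ZMod.val_zero, pow_zero] at h1
    obtain ⟨k, hk⟩ := hpow (φ u)
    rw [hk, ← pow_mul, eq_comm, ← orderOf_dvd_iff_pow_eq_one, hog] at h1
    obtain ⟨j, rfl⟩ : 3 ∣ k := Nat.dvd_of_mul_dvd_mul_right hm0 h1
    refine ⟨((g ^ j : κˣ) : κ), ?_⟩
    rw [hk, ← Units.val_pow_eq_pow_val, ← pow_mul, mul_comm]

end P_LG

theorem t_LG : S_LG := by
  intro L _ _ lam q hq h3 hcard
  have hmax : lam.asIdeal.IsMaximal := lam.isMaximal
  let : Field (𝓞 L ⧸ lam.asIdeal) := Ideal.Quotient.field lam.asIdeal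
  have : Finite (𝓞 L ⧸ lam.asIdeal) :=
    Nat.finite_of_card_ne_zero (by rw [hcard]; exact hq.ne_zero)
  obtain ⟨a, lg, h1, h2, h4, h5⟩ := P_LG.core (𝓞 L ⧸ lam.asIdeal) q hq h3 hcard (𝓞 L)ˣ
    (Units.map ((Ideal.Quotient.mk lam.asIdeal : 𝓞 L →+* 𝓞 L ⧸ lam.asIdeal) :
      𝓞 L →* 𝓞 L ⧸ lam.asIdeal))
  refine ⟨a, lg, h1, h2, ?_, ?_⟩
  · intro u
    rw [← Ideal.Quotient.eq]
    have := h4 u
    rw [map_pow, map_pow, map_intCast]
    exact this
  · intro u hu
    obtain ⟨v, hv⟩ := h5 u hu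
    obtain ⟨w, rfl⟩ := Ideal.Quotient.mk_surjective v
    refine ⟨w, ?_⟩
    rw [← Ideal.Quotient.eq, map_pow]
    exact hv

end Pool.Agent.MU3


end

section

/-!
# Exponents of principal ideals (helper80)

MP_b78433_nt, MU3, section 1 of PAPER_K.
-/

set_option autoImplicit false

open NumberField IsDedekindDomain
open scoped nonZeroDivisors Pointwise

namespace Pool.Agent.MU3

open _root_.Pool.Agent.RI

section basic

variable {F : Type} [Field F] [NumberField F]

/-- the exponent of the prime `w` in the fractional ideal `c` -/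
noncomputable def cntJ (w : HeightOneSpectrum (𝓞 F)) (c : J F) : ℤ :=
  FractionalIdeal.count F w (c : FractionalIdeal (𝓞 F)⁰ F)

/-- the exponent of the prime `w` in `(x)` -/
noncomputable def cnt (w : HeightOneSpectrum (𝓞 F)) (x : Fˣ) : ℤ := cntJ w (prin x)

variable {w : HeightOneSpectrum (𝓞 F)}

theorem cntJ_mul (c d : J F) : cntJ w (c * d) = cntJ w c + cntJ w d := by
  unfold cntJ
  rw [Units.val_mul, FractionalIdeal.count_mul F w c.ne_zero d.ne_zero]

theorem cntJ_one : cntJ w (1 : J F) = 0 := by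
  have := cntJ_mul (w := w) (1 : J F) 1
  rw [mul_one] at this
  linarith

theorem cntJ_inv (c : J F) : cntJ w c⁻¹ = - cntJ w c := by
  have := cntJ_mul (w := w) c⁻¹ c
  rw [inv_mul_cancel, cntJ_one] at this
  linarith

theorem cntJ_pow (c : J F) (n : ℕ) : cntJ w (c ^ n) = n * cntJ w c := by
  induction n with
  | zero => rw [pow_zero, cntJ_one, Nat.cast_zero, zero_mul]
  | succ n ih =>
    rw [pow_succ, cntJ_mul, ih]
    push_cast
    ring

theorem cntJ_prod {ι : Type} (s : Finset ι) (f : ι → J F) :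
    cntJ w (∏ i ∈ s, f i) = ∑ i ∈ s, cntJ w (f i) := by
  classical
  induction s using Finset.induction_on with
  | empty => rw [Finset.prod_empty, Finset.sum_empty, cntJ_one]
  | insert i s hi ih => rw [Finset.prod_insert hi, Finset.sum_insert hi, cntJ_mul, ih]

theorem cnt_mul (x y : Fˣ) : cnt w (x * y) = cnt w x + cnt w y := by
  unfold cnt
  rw [map_mul, cntJ_mul]

theorem cnt_one : cnt w (1 : Fˣ) = 0 := by
  unfold cnt
  rw [map_one, cntJ_one]

theorem cnt_inv (x : Fˣ) : cnt w x⁻¹ = - cnt w x := by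
  unfold cnt
  rw [map_inv, cntJ_inv]

theorem cnt_div (x y : Fˣ) : cnt w (x / y) = cnt w x - cnt w y := by
  rw [div_eq_mul_inv, cnt_mul, cnt_inv]
  ring

theorem cnt_pow (x : Fˣ) (n : ℕ) : cnt w (x ^ n) = n * cnt w x := by
  unfold cnt
  rw [map_pow, cntJ_pow]

theorem cnt_zpow (x : Fˣ) (n : ℤ) : cnt w (x ^ n) = n * cnt w x := by
  cases n with
  | ofNat n =>
    rw [Int.ofNat_eq_natCast, zpow_natCast, cnt_pow]
  | negSucc n =>
    rw [zpow_negSucc, cnt_inv, cnt_pow, Int.negSucc_eq]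
    push_cast
    ring

/-- valuation and exponent, for integers -/
theorem val_cnt_int (x : Fˣ) (r : 𝓞 F) (hx : (x : F) = algebraMap (𝓞 F) F r) :
    w.valuation F (x : F) = WithZero.exp (-cnt w x) := by
  have hr : r ≠ 0 := by
    rintro rfl
    rw [map_zero] at hx
    exact x.ne_zero hx
  have hs : (Ideal.span {r} : Ideal (𝓞 F)) ≠ ⊥ := by
    rw [Ne, Ideal.span_singleton_eq_bot]
    exact hr
  rw [hx, HeightOneSpectrum.valuation_of_algebraMap,
    HeightOneSpectrum.intValuation_eq_exp_neg_multiplicity w hr]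
  congr 2
  rw [← COUNTEXT.count_coe_eq F w hs]
  unfold cnt cntJ
  rw [coe_toPrincipalIdeal, hx, FractionalIdeal.coeIdeal_span_singleton]

/-- valuation and exponent -/
theorem val_cnt (x : Fˣ) : w.valuation F (x : F) = WithZero.exp (-cnt w x) := by
  obtain ⟨r, s, hs, hx⟩ := IsFractionRing.div_surjective (A := 𝓞 F) (x : F)
  have hs0 : algebraMap (𝓞 F) F s ≠ 0 :=
    IsFractionRing.to_map_ne_zero_of_mem_nonZeroDivisors hs
  have hr0 : algebraMap (𝓞 F) F r ≠ 0 := by
    intro h0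
    rw [h0, zero_div] at hx
    exact x.ne_zero hx.symm
  have e : x = Units.mk0 _ hr0 / Units.mk0 _ hs0 := by
    apply Units.ext
    rw [Units.val_div_eq_div_val, Units.val_mk0, Units.val_mk0, hx]
  have h1 := val_cnt_int (w := w) (Units.mk0 _ hr0) r rfl
  have h2 := val_cnt_int (w := w) (Units.mk0 _ hs0) s rfl
  rw [e, cnt_div, Units.val_div_eq_div_val, map_div₀, h1, h2, ← WithZero.exp_sub]
  congr 1
  ring

theorem val_one_iff (x : Fˣ) : w.valuation F (x : F) = 1 ↔ cnt w x = 0 := by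
  rw [val_cnt, ← WithZero.exp_zero, WithZero.exp_inj]
  omega

/-- there is a uniformizer -/
theorem exists_unif (w : HeightOneSpectrum (𝓞 F)) : ∃ π : Fˣ, cnt w π = 1 := by
  obtain ⟨π, hπ⟩ := w.valuation_exists_uniformizer F
  have h0 : π ≠ 0 := by
    rintro rfl
    rw [map_zero] at hπ
    exact WithZero.exp_ne_zero hπ.symm
  refine ⟨Units.mk0 π h0, ?_⟩
  have h1 := val_cnt (w := w) (Units.mk0 π h0)
  rw [Units.val_mk0, hπ, WithZero.exp_inj] at h1
  omega

/-- units of the ring of integers -/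
theorem cnt_unit (u : (𝓞 F)ˣ) : cnt w (Units.map (algebraMap (𝓞 F) F : 𝓞 F →* F) u) = 0 := by
  rw [← val_one_iff]
  change w.valuation F (algebraMap (𝓞 F) F (u : 𝓞 F)) = 1
  rw [HeightOneSpectrum.valuation_eq_one_iff_notMem]
  exact fun h => w.isPrime.ne_top (Ideal.eq_top_of_isUnit_mem _ h u.isUnit)

/-- conversely -/
theorem exists_unit {x : Fˣ} (h : ∀ w : HeightOneSpectrum (𝓞 F), cnt w x = 0) :
    ∃ u : (𝓞 F)ˣ, Units.map (algebraMap (𝓞 F) F : 𝓞 F →* F) u = x := by
  have h1 : ∀ y : Fˣ, (∀ w : HeightOneSpectrum (𝓞 F), cnt w y = 0) →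
      ∃ r : 𝓞 F, algebraMap (𝓞 F) F r = y := by
    intro y hy
    exact HeightOneSpectrum.mem_integers_of_valuation_le_one F (y : F)
      (fun w => ((val_one_iff y).2 (hy w)).le)
  obtain ⟨r, hr⟩ := h1 x h
  obtain ⟨s, hs⟩ := h1 x⁻¹ (fun w => by rw [cnt_inv, h w, neg_zero])
  have hrs : r * s = 1 := by
    apply IsFractionRing.injective (𝓞 F) F
    rw [map_mul, hr, hs, map_one, Units.mul_inv]
  refine ⟨Units.mkOfMulEqOne r s hrs, ?_⟩
  apply Units.ext
  exact hr

end basic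

section act

variable {k F : Type} [Field k] [Field F] [NumberField F] [Algebra k F]

/-- the prime `σ w` -/
noncomputable def mv (σ : F ≃ₐ[k] F) (w : HeightOneSpectrum (𝓞 F)) : HeightOneSpectrum (𝓞 F) where
  asIdeal := σ • w.asIdeal
  isPrime := by
    have := w.isPrime
    infer_instance
  ne_bot := by
    intro h
    apply w.ne_bot
    have h1 : σ⁻¹ • (σ • w.asIdeal) = σ⁻¹ • (⊥ : Ideal (𝓞 F)) := by rw [h]
    rw [inv_smul_smul] at h1
    rw [h1]
    exact smul_zero (A := Ideal (𝓞 F)) σ⁻¹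

omit [NumberField F] in
theorem mv_mul (σ τ : F ≃ₐ[k] F) (w : HeightOneSpectrum (𝓞 F)) :
    mv (σ * τ) w = mv σ (mv τ w) := by
  apply HeightOneSpectrum.ext
  exact mul_smul σ τ w.asIdeal

omit [NumberField F] in
theorem mv_one (w : HeightOneSpectrum (𝓞 F)) : mv (1 : F ≃ₐ[k] F) w = w := by
  apply HeightOneSpectrum.ext
  exact one_smul _ w.asIdeal

theorem cntJ_mv (σ : F ≃ₐ[k] F) (w : HeightOneSpectrum (𝓞 F)) (c : J F) :
    cntJ (mv σ w) (σ • c) = cntJ w c := COUNTACT_thm k F σ w (mv σ w) rfl c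

theorem cnt_mv (σ : F ≃ₐ[k] F) (w : HeightOneSpectrum (𝓞 F)) (x : Fˣ) :
    cnt (mv σ w) (σ • x) = cnt w x := by
  unfold cnt
  rw [← smul_prin, cntJ_mv]

theorem cnt_mv' (σ : F ≃ₐ[k] F) (w : HeightOneSpectrum (𝓞 F)) (x : Fˣ) :
    cnt w (σ • x) = cnt (mv σ⁻¹ w) x := by
  have := cnt_mv σ (mv σ⁻¹ w) x
  rwa [← mv_mul, mul_inv_cancel, mv_one] at this

/-- the valuation of a conjugate -/
theorem val_mv (σ : F ≃ₐ[k] F) (w : HeightOneSpectrum (𝓞 F)) (x : F) :
    (mv σ w).valuation F (σ x) = w.valuation F x := by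
  by_cases h0 : x = 0
  · rw [h0, map_zero, map_zero, map_zero]
  · have h1 := val_cnt (w := mv σ w) (σ • Units.mk0 x h0)
    have h2 := val_cnt (w := w) (Units.mk0 x h0)
    rw [cnt_mv] at h1
    rw [Units.val_mk0] at h2
    rw [h2, ← h1]
    rfl

end act

section up

variable {L F : Type} [Field L] [NumberField L] [Field F] [NumberField F] [Algebra L F]

/-- exponents in an extension -/
theorem cnt_ext (w : HeightOneSpectrum (𝓞 F)) (v : HeightOneSpectrum (𝓞 L))
    (h : w.asIdeal.under (𝓞 L) = v.asIdeal) (x : Lˣ) :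
    cnt w (Units.map (algebraMap L F : L →* F) x) =
      (w.asIdeal.ramificationIdx (𝓞 L) : ℤ) * cnt v x := by
  unfold cnt
  rw [← ext_prin]
  exact COUNTEXT_thm L F v w h _

end up

end Pool.Agent.MU3


end

section

/-!
# MU3_UNI: `g^j c / c` is a unit
-/

open NumberField IsDedekindDomain Finset
open scoped nonZeroDivisors Pointwise

namespace Pool.Agent.MU3

open _root_.Pool.Agent.RI _root_.Pool.Agent.RID

namespace P_UNI

theorem above_mv {k L : Type} [Field k] [Field L] [NumberField L] [Algebra k L] {S : Finset ℕ}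
    (σ : L ≃ₐ[k] L) {w : HeightOneSpectrum (𝓞 L)} (h : Above S w) : Above S (mv σ w) := by
  obtain ⟨p, hp, hw⟩ := h
  refine ⟨p, hp, ?_⟩
  change (p : 𝓞 L) ∈ σ • w.asIdeal
  have h1 : σ • (p : 𝓞 L) ∈ σ • w.asIdeal := Ideal.smul_mem_pointwise_smul σ _ _ hw
  have h2 : σ • (p : 𝓞 L) = (p : 𝓞 L) := by
    change MulSemiringAction.toRingHom (L ≃ₐ[k] L) (𝓞 L) σ (p : 𝓞 L) = p
    exact map_natCast _ p
  rwa [h2] at h1

end P_UNI

open _root_.Pool.Agent.MU3.P_UNI

theorem t_UNI : S_UNI := by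
  intro k L _ _ _ _ _ S c hc hSU g hg j
  have hgc : (g ^ j) c ≠ 0 := by
    intro h
    apply hc
    exact (map_eq_zero_iff (g ^ j) (g ^ j).injective).1 h
  have hx : (g ^ j) c / c ≠ 0 := div_ne_zero hgc hc
  have hgj : ∀ (i : ℕ) (v : HeightOneSpectrum (𝓞 L)), Above S v → mv (g ^ i) v = v := by
    intro i
    induction i with
    | zero =>
      intro v _
      rw [pow_zero, mv_one]
    | succ i ih =>
      intro v hv
      have h1 : mv g v = v := HeightOneSpectrum.ext (hg v hv)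
      rw [pow_succ, mv_mul, h1, ih v hv]
  have hval : ∀ v : HeightOneSpectrum (𝓞 L), v.valuation L ((g ^ j) c / c) = 1 := by
    intro v
    by_cases hv : Above S v
    · have h1 := val_mv (g ^ j) v c
      rw [hgj j v hv] at h1
      rw [map_div₀, h1, div_self]
      intro h0
      exact hc ((map_eq_zero _).1 h0)
    · have h1 : ¬ Above S (mv (g ^ j)⁻¹ v) := by
        intro h
        apply hv
        have h2 := above_mv (g ^ j) h
        rwa [← mv_mul, mul_inv_cancel, mv_one] at h2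
      have h2 := val_mv (g ^ j) (mv (g ^ j)⁻¹ v) c
      rw [← mv_mul, mul_inv_cancel, mv_one] at h2
      rw [map_div₀, h2, hSU _ h1, hSU _ hv, div_one]
  obtain ⟨u, hu⟩ := exists_unit (x := Units.mk0 _ hx) (fun w => by
    rw [← val_one_iff, Units.val_mk0]
    exact hval w)
  exact ⟨u, congrArg Units.val hu⟩

end Pool.Agent.MU3


end

section

/-!
# Relative Iwasawa theorem: invariant ideals without ramified primes come from the base field
-/

open NumberField Finset IsDedekindDomain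
open scoped nonZeroDivisors Pointwise

namespace Pool.Agent.RI

namespace INVI

/-- every prime of `K` has a prime of `L` above it -/
theorem exists_above (K L : Type) [Field K] [NumberField K] [Field L] [NumberField L]
    [Algebra K L] (v : HeightOneSpectrum (𝓞 K)) :
    ∃ w : HeightOneSpectrum (𝓞 L), w.asIdeal.under (𝓞 K) = v.asIdeal := by
  obtain ⟨P, hP, hlo⟩ := (inferInstance : Nonempty (Ideal.primesOver v.asIdeal (𝓞 L)))
  have := hP
  have := hlo
  exact ⟨⟨P, hP, Ideal.ne_bot_of_liesOver_of_ne_bot v.ne_bot P⟩, (Ideal.over_def P v.asIdeal).symm⟩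

/-- the contraction of a prime -/
theorem exists_below (K L : Type) [Field K] [NumberField K] [Field L] [NumberField L]
    [Algebra K L] (w : HeightOneSpectrum (𝓞 L)) :
    ∃ v : HeightOneSpectrum (𝓞 K), w.asIdeal.under (𝓞 K) = v.asIdeal :=
  ⟨w.under (𝓞 K), rfl⟩

/-- a fractional ideal with prescribed exponents -/
theorem exists_count (K : Type) [Field K] [NumberField K]
    (n : HeightOneSpectrum (𝓞 K) → ℤ) (hn : {v | n v ≠ 0}.Finite) :
    ∃ c : J K, ∀ v, FractionalIdeal.count K v (c : FractionalIdeal (𝓞 K)⁰ K) = n v := by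
  classical
  set I : FractionalIdeal (𝓞 K)⁰ K :=
    ∏ v ∈ hn.toFinset, (v.asIdeal : FractionalIdeal (𝓞 K)⁰ K) ^ n v with hI
  have h0 : ∀ v ∈ hn.toFinset, (v.asIdeal : FractionalIdeal (𝓞 K)⁰ K) ^ n v ≠ 0 := fun v _ =>
    zpow_ne_zero _ (FractionalIdeal.coeIdeal_ne_zero.mpr v.ne_bot)
  have hI0 : I ≠ 0 := Finset.prod_ne_zero_iff.2 h0
  refine ⟨Units.mk0 I hI0, fun v => ?_⟩
  rw [Units.val_mk0, hI, FractionalIdeal.count_prod K v _ _ h0]
  simp only [FractionalIdeal.count_zpow, FractionalIdeal.count_maximal, mul_ite, mul_one, mul_zero]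
  rw [Finset.sum_ite_eq']
  by_cases h : n v = 0
  · simp [h]
  · simp [h]

/-- fractional ideals with equal exponents are equal -/
theorem eq_of_count (L : Type) [Field L] [NumberField L] (b c : J L)
    (h : ∀ w : HeightOneSpectrum (𝓞 L),
      FractionalIdeal.count L w (b : FractionalIdeal (𝓞 L)⁰ L) =
        FractionalIdeal.count L w (c : FractionalIdeal (𝓞 L)⁰ L)) : b = c := by
  apply Units.ext
  rw [← FractionalIdeal.finprod_heightOneSpectrum_factorization' L b.ne_zero,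
    ← FractionalIdeal.finprod_heightOneSpectrum_factorization' L c.ne_zero]
  exact finprod_congr fun w => by rw [h w]

end INVI

open _root_.Pool.Agent.RI.INVI in
theorem INVI_thm (h1 : COUNTACT) (h2 : COUNTEXT) : INVI := by
  intro K L _ _ _ _ _ _ b hb hr
  choose up hup using exists_above K L
  -- primes above the same prime are conjugate
  have hconj : ∀ w w' : HeightOneSpectrum (𝓞 L), w.asIdeal.under (𝓞 K) = w'.asIdeal.under (𝓞 K) →
      FractionalIdeal.count L w' (b : FractionalIdeal (𝓞 L)⁰ L) =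
        FractionalIdeal.count L w (b : FractionalIdeal (𝓞 L)⁰ L) ∧
      w.asIdeal.ramificationIdx (𝓞 K) = w'.asIdeal.ramificationIdx (𝓞 K) := by
    intro w w' hww
    have : w.asIdeal.LiesOver (w.asIdeal.under (𝓞 K)) := ⟨rfl⟩
    have : w'.asIdeal.LiesOver (w.asIdeal.under (𝓞 K)) := ⟨hww⟩
    have : w.asIdeal.IsPrime := w.isPrime
    have : w'.asIdeal.IsPrime := w'.isPrime
    refine ⟨?_, Ideal.ramificationIdx_eq_of_isGaloisGroup (w.asIdeal.under (𝓞 K)) w.asIdeal
      w'.asIdeal (L ≃ₐ[K] L)⟩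
    obtain ⟨σ, hσ⟩ := Ideal.exists_smul_eq_of_isGaloisGroup (w.asIdeal.under (𝓞 K)) w.asIdeal
      w'.asIdeal (L ≃ₐ[K] L)
    have h3 := h1 K L σ w w' hσ.symm b
    rw [hb σ] at h3
    exact h3
  have hfin : {v : HeightOneSpectrum (𝓞 K) |
      FractionalIdeal.count L (up v) (b : FractionalIdeal (𝓞 L)⁰ L) ≠ 0}.Finite := by
    have h3 : {w : HeightOneSpectrum (𝓞 L) |
        FractionalIdeal.count L w (b : FractionalIdeal (𝓞 L)⁰ L) ≠ 0}.Finite := by
      have := FractionalIdeal.finite_factors (b : FractionalIdeal (𝓞 L)⁰ L)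
      rwa [Filter.eventually_cofinite] at this
    apply Set.Finite.of_finite_image (f := up) (h3.subset ?_)
    · intro a _ a' _ haa
      apply HeightOneSpectrum.ext
      rw [← hup a, ← hup a', haa]
    · rintro _ ⟨v, hv, rfl⟩
      exact hv
  obtain ⟨c, hc⟩ := exists_count K _ hfin
  refine ⟨c, eq_of_count L _ _ fun w => ?_⟩
  obtain ⟨v, hv⟩ := exists_below K L w
  rw [h2 K L v w hv c, hc v]
  obtain ⟨h3, h4⟩ := hconj (up v) w ((hup v).trans hv.symm)
  by_cases he : w.asIdeal.ramificationIdx (𝓞 K) = 1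
  · rw [he, h3]
    simp
  · rw [hr w he, hr (up v) (by rw [h4]; exact he), mul_zero]

end Pool.Agent.RI


end

section

/-!
# Kolyvagin's step (helper80)

MP_b78433_nt, MU3, section 1 of PAPER_K: `KIN_thm : S_KIN`.
-/

set_option autoImplicit false

open NumberField IsDedekindDomain
open scoped nonZeroDivisors Pointwise

namespace Pool.Agent.MU3

open _root_.Pool.Agent.RI

namespace K1M

/-! ### ideals of `L` -/

section ideals

variable {k L : Type} [Field k] [Field L] [NumberField L] [Algebra k L]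

theorem above_mv {S : Finset ℕ} (σ : L ≃ₐ[k] L) (v : HeightOneSpectrum (𝓞 L)) :
    Above S (mv σ v) ↔ Above S v := by
  have key : ∀ (σ : L ≃ₐ[k] L) (v : HeightOneSpectrum (𝓞 L)), Above S v → Above S (mv σ v) := by
    rintro σ v ⟨p, hp, hv⟩
    refine ⟨p, hp, ?_⟩
    change (p : 𝓞 L) ∈ σ • v.asIdeal
    rw [Ideal.mem_pointwise_smul_iff_inv_smul_mem]
    have e : σ⁻¹ • (p : 𝓞 L) = (p : 𝓞 L) := by
      have := map_natCast (MulSemiringAction.toRingHom (L ≃ₐ[k] L) (𝓞 L) σ⁻¹) p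
      exact this
    rw [e]
    exact hv
  refine ⟨fun h => ?_, key σ v⟩
  have := key σ⁻¹ _ h
  rwa [← mv_mul, inv_mul_cancel, mv_one] at this

theorem cntJ_vJ (v w : HeightOneSpectrum (𝓞 L)) [Decidable (w = v)] :
    cntJ v (vJ w) = if w = v then 1 else 0 := by
  classical
  unfold cntJ vJ
  rw [Units.val_mk0, FractionalIdeal.count_maximal]

theorem cntJ_smul_vJ (h : L ≃ₐ[k] L) (v w : HeightOneSpectrum (𝓞 L)) [Decidable (mv h w = v)] :
    cntJ v (h • vJ w) = if mv h w = v then 1 else 0 := by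
  classical
  have h1 := cntJ_mv h (mv h⁻¹ v) (vJ w)
  rw [← mv_mul, mul_inv_cancel, mv_one, cntJ_vJ] at h1
  rw [h1]
  have e : (w = mv h⁻¹ v) ↔ (mv h w = v) := by
    constructor
    · intro h2
      rw [h2, ← mv_mul, mul_inv_cancel, mv_one]
    · intro h2
      rw [← h2, ← mv_mul, inv_mul_cancel, mv_one]
  by_cases h2 : mv h w = v
  · rw [if_pos h2, if_pos (e.2 h2)]
  · rw [if_neg h2, if_neg (fun h3 => h2 (e.1 h3))]

/-- ideals with exponents only above `S` -/
theorem mem_SJ {S : Finset ℕ} {s : J L} (h : ∀ v : HeightOneSpectrum (𝓞 L), ¬ Above S v →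
    cntJ v s = 0) : s ∈ SJ S L := by
  classical
  have hfin : {v : HeightOneSpectrum (𝓞 L) | cntJ v s ≠ 0}.Finite := by
    have := FractionalIdeal.finite_factors (s : FractionalIdeal (𝓞 L)⁰ L)
    rwa [Filter.eventually_cofinite] at this
  have e : s = ∏ v ∈ hfin.toFinset, vJ v ^ cntJ v s := by
    apply INVI.eq_of_count
    intro w
    change cntJ w s = cntJ w _
    rw [cntJ_prod]
    have hz : ∀ (v : HeightOneSpectrum (𝓞 L)) (n : ℤ), cntJ w (vJ v ^ n) =
        n * (if v = w then 1 else 0) := by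
      intro v n
      have := cntJ_vJ w v
      cases n with
      | ofNat n => rw [Int.ofNat_eq_natCast, zpow_natCast, cntJ_pow, this]
      | negSucc n =>
        rw [zpow_negSucc, cntJ_inv, cntJ_pow, this, Int.negSucc_eq]
        push_cast
        ring
    simp only [hz, mul_ite, mul_one, mul_zero]
    rw [Finset.sum_ite_eq']
    by_cases hw : cntJ w s = 0
    · rw [if_neg (by simpa using hw), hw]
    · rw [if_pos (by simpa using hw)]
  rw [e]
  refine Subgroup.prod_mem _ fun v hv => Subgroup.zpow_mem _ (Subgroup.subset_closure ?_) _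
  refine ⟨v, ?_, rfl⟩
  by_contra hna
  have : cntJ v s ≠ 0 := by simpa using hv
  exact this (h v hna)

/-- decomposition: exponents divisible by three outside `S` -/
theorem decomp {S : Finset ℕ} {X : J L} (h : ∀ v : HeightOneSpectrum (𝓞 L), ¬ Above S v →
    (3 : ℤ) ∣ cntJ v X) : ∃ I s : J L, s ∈ SJ S L ∧ X = I ^ 3 * s := by
  classical
  have hfin : {v : HeightOneSpectrum (𝓞 L) | cntJ v X ≠ 0}.Finite := by
    have := FractionalIdeal.finite_factors (X : FractionalIdeal (𝓞 L)⁰ L)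
    rwa [Filter.eventually_cofinite] at this
  obtain ⟨I, hI⟩ := INVI.exists_count L (fun v => if Above S v then 0 else cntJ v X / 3)
    (hfin.subset (by
      intro v hv
      simp only [ne_eq, Set.mem_ofPred_eq] at hv ⊢
      intro h0
      apply hv
      split_ifs
      · rfl
      · rw [h0]
        rfl))
  have hI' : ∀ v, cntJ v I = if Above S v then 0 else cntJ v X / 3 := hI
  refine ⟨I, X * (I ^ 3)⁻¹, mem_SJ fun v hv => ?_, ?_⟩
  · rw [cntJ_mul, cntJ_inv, cntJ_pow, hI' v, if_neg hv]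
    have := h v hv
    push_cast
    omega
  · rw [mul_comm X, mul_inv_cancel_left]

end ideals

/-! ### automorphisms -/

section auts

variable {L F : Type} [Field L] [Field F] [Algebra L F] [FiniteDimensional L F] [IsGalois L F]

/-- the product over the Galois group -/
theorem prod_aut (hdeg : Module.finrank L F = 3) {τ : F ≃ₐ[L] F} (hτ : τ ≠ 1) (x : Fˣ) :
    ∏ σ : F ≃ₐ[L] F, σ • x = ∏ i ∈ Finset.range 3, τ ^ i • x := by
  classical
  have : Fact (Nat.Prime 3) := ⟨Nat.prime_three⟩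
  have hcard : Nat.card (F ≃ₐ[L] F) = 3 := by
    rw [IsGalois.card_aut_eq_finrank, hdeg]
  have hgen : ∀ σ : F ≃ₐ[L] F, σ ∈ Subgroup.zpowers τ := fun σ => mem_zpowers_of_prime_card hcard hτ
  have hord : orderOf τ = 3 := by
    rw [orderOf_eq_card_of_forall_mem_zpowers hgen, hcard]
  symm
  refine Finset.prod_bij (fun i _ => τ ^ i) (fun _ _ => Finset.mem_univ _) ?_ ?_ (fun _ _ => rfl)
  · intro a ha b hb hab
    rw [Finset.mem_range, ← hord] at ha hb
    exact pow_injOn_Iio_orderOf ha hb hab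
  · intro σ _
    have hmem : σ ∈ Submonoid.powers τ :=
      (isOfFinOrder_of_finite τ).mem_powers_iff_mem_zpowers.2 (hgen σ)
    obtain ⟨i, hi⟩ := Submonoid.mem_powers_iff σ τ |>.1 hmem
    refine ⟨i % orderOf τ, Finset.mem_range.2 ?_, ?_⟩
    · rw [hord]
      exact Nat.mod_lt _ (by norm_num)
    · rw [pow_mod_orderOf, hi]

/-- the norm -/
theorem norm_aut (hdeg : Module.finrank L F = 3) {τ : F ≃ₐ[L] F} (hτ : τ ≠ 1) (x : Fˣ) :
    Units.map (algebraMap L F : L →* F) (Units.map (Algebra.norm L : F →* L) x) =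
      ∏ i ∈ Finset.range 3, τ ^ i • x := by
  rw [← prod_aut hdeg hτ]
  apply Units.ext
  change algebraMap L F (Algebra.norm L (x : F)) = _
  rw [Algebra.norm_eq_prod_automorphisms, Units.coe_prod]
  rfl

end auts

section main

variable {k L F : Type} [Field k] [NumberField k] [Field L] [NumberField L] [Field F]
  [NumberField F] [Algebra k L] [Algebra L F] [Algebra k F] [IsScalarTower k L F]

/-- above `S` in an extension -/
theorem above_under {S : Finset ℕ} (w : HeightOneSpectrum (𝓞 F)) (v : HeightOneSpectrum (𝓞 L))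
    (h : w.asIdeal.under (𝓞 L) = v.asIdeal) : Above S w ↔ Above S v := by
  have e : ∀ p : ℕ, (p : 𝓞 F) ∈ w.asIdeal ↔ (p : 𝓞 L) ∈ v.asIdeal := by
    intro p
    rw [← h, Ideal.mem_comap, map_natCast]
  unfold Above
  simp only [e]

/-- contraction of a conjugate prime -/
theorem under_mv (σ : F ≃ₐ[k] F) (σ' : L ≃ₐ[k] L)
    (hσ : ∀ x : L, algebraMap L F (σ' x) = σ (algebraMap L F x)) (w : HeightOneSpectrum (𝓞 F))
    (v : HeightOneSpectrum (𝓞 L)) (h : w.asIdeal.under (𝓞 L) = v.asIdeal) :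
    (mv σ w).asIdeal.under (𝓞 L) = (mv σ' v).asIdeal := by
  have hint : ∀ (x : 𝓞 L), algebraMap (𝓞 L) (𝓞 F) (σ'⁻¹ • x) = σ⁻¹ • algebraMap (𝓞 L) (𝓞 F) x := by
    intro x
    apply IsFractionRing.injective (𝓞 F) F
    change algebraMap L F (σ'⁻¹ (x : L)) = σ⁻¹ (algebraMap L F (x : L))
    apply σ.injective
    rw [← hσ]
    have e1 : σ' (σ'⁻¹ (x : L)) = x := σ'.apply_symm_apply (x : L)
    have e2 : σ (σ⁻¹ (algebraMap L F (x : L))) = algebraMap L F (x : L) :=
      σ.apply_symm_apply _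
    rw [e1, e2]
  ext x
  rw [Ideal.mem_comap]
  change algebraMap (𝓞 L) (𝓞 F) x ∈ σ • w.asIdeal ↔ x ∈ σ' • v.asIdeal
  rw [Ideal.mem_pointwise_smul_iff_inv_smul_mem, Ideal.mem_pointwise_smul_iff_inv_smul_mem,
    ← hint, ← h, Ideal.mem_comap]

/-- a prime of `F` above `S` is fixed by the cube of a lift of an automorphism of `L` which fixes
the primes above `S` -/
theorem fix_cube [IsGalois L F] [FiniteDimensional L F] (hdeg : Module.finrank L F = 3)
    (hcomm : ∀ σ τ : F ≃ₐ[k] F, σ * τ = τ * σ) {S : Finset ℕ} {g : L ≃ₐ[k] L}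
    (hg : ∀ v : HeightOneSpectrum (𝓞 L), Above S v → g • v.asIdeal = v.asIdeal) {g' : F ≃ₐ[k] F}
    (hg' : ∀ x : L, algebraMap L F (g x) = g' (algebraMap L F x)) {w : HeightOneSpectrum (𝓞 F)}
    (hw : Above S w) : mv (g' ^ 3) w = w := by
  set v := w.under (𝓞 L) with hv
  have hvS : Above S v := (above_under w v rfl).1 hw
  have h1 : (mv g' w).asIdeal.under (𝓞 L) = v.asIdeal := by
    rw [under_mv g' g hg' w v rfl]
    exact hg v hvS
  have hlo : w.asIdeal.LiesOver v.asIdeal := ⟨rfl⟩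
  have hlo' : (mv g' w).asIdeal.LiesOver v.asIdeal := ⟨h1.symm⟩
  have hwp : w.asIdeal.IsPrime := w.isPrime
  have hwp' : (mv g' w).asIdeal.IsPrime := (mv g' w).isPrime
  obtain ⟨τ, hτ⟩ := Ideal.exists_smul_eq_of_isGaloisGroup v.asIdeal w.asIdeal
    (mv g' w).asIdeal (F ≃ₐ[L] F)
  set T : F ≃ₐ[k] F := τ.restrictScalars k with hT
  have h2 : mv g' w = mv T w := by
    apply HeightOneSpectrum.ext
    rw [← hτ]
    rfl
  have hT3 : T ^ 3 = 1 := by
    have h3 : τ ^ 3 = 1 := by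
      have h4 : Nat.card (F ≃ₐ[L] F) = 3 := by
        rw [IsGalois.card_aut_eq_finrank, hdeg]
      rw [← h4]
      exact pow_card_eq_one'
    apply AlgEquiv.ext
    intro x
    exact DFunLike.congr_fun h3 x
  have h3 : mv (g' ^ 3) w = mv (T ^ 3) w := by
    have e1 : mv (g' * T) w = mv (T * T) w := by
      rw [hcomm g' T, mv_mul, h2, ← mv_mul]
    have e2 : mv (g' * (T * T)) w = mv (T * (T * T)) w := by
      rw [hcomm g' (T * T), mv_mul, h2, ← mv_mul, hcomm (T * T) T]
    calc mv (g' ^ 3) w = mv (g' * g' * g') w := by rw [pow_succ, pow_two]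
      _ = mv (g' * g') (mv T w) := by rw [mv_mul, h2]
      _ = mv g' (mv (g' * T) w) := by rw [← mv_mul, ← mv_mul, mul_assoc]
      _ = mv (g' * (T * T)) w := by rw [e1, ← mv_mul]
      _ = mv (T * (T * T)) w := e2
      _ = mv (T ^ 3) w := by rw [pow_succ, pow_two, mul_assoc]
  rw [h3, hT3, mv_one]

end main

end K1M

end Pool.Agent.MU3


end

section

/-!
# One-units of a valuation and tame ramification (helper80)

MP_b78433_nt, MU3, section 1 of PAPER_K. Everything is for a valuation `v` of a field `F`.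
-/

set_option autoImplicit false

namespace Pool.Agent.MU3

variable {F Γ : Type} [Field F] [LinearOrderedCommGroupWithZero Γ]

/-- one-units -/
def One1 (v : Valuation F Γ) (x : F) : Prop := v (x - 1) < 1

variable {v : Valuation F Γ} {x y : F}

theorem One1.val (h : One1 v x) : v x = 1 := by
  have h1 : v (1 + (x - 1)) = v 1 := Valuation.map_add_eq_of_lt_left _ (by rwa [map_one])
  rwa [add_sub_cancel, map_one] at h1

theorem One1.ne (h : One1 v x) : x ≠ 0 := by
  rintro rfl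
  have := h.val
  rw [map_zero] at this
  exact zero_ne_one this

theorem one1_one : One1 v 1 := by
  unfold One1
  rw [sub_self, map_zero]
  exact zero_lt_one

theorem One1.mul (h : One1 v x) (h' : One1 v y) : One1 v (x * y) := by
  have e : x * y - 1 = x * (y - 1) + (x - 1) := by ring
  unfold One1
  rw [e]
  refine Valuation.map_add_lt _ ?_ h
  rw [map_mul, h.val, one_mul]
  exact h'

theorem One1.inv (h : One1 v x) : One1 v x⁻¹ := by
  have e : x⁻¹ - 1 = -(x⁻¹ * (x - 1)) := by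
    have := h.ne
    field_simp
    ring
  unfold One1
  rw [e, Valuation.map_neg, map_mul, map_inv₀, h.val, inv_one, one_mul]
  exact h

theorem One1.div (h : One1 v x) (h' : One1 v y) : One1 v (x / y) := by
  rw [div_eq_mul_inv]
  exact h.mul h'.inv

theorem One1.pow (h : One1 v x) (n : ℕ) : One1 v (x ^ n) := by
  induction n with
  | zero =>
    rw [pow_zero]
    exact one1_one
  | succ n ih =>
    rw [pow_succ]
    exact ih.mul h

theorem One1.zpow (h : One1 v x) (n : ℤ) : One1 v (x ^ n) := by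
  cases n with
  | ofNat n =>
    rw [Int.ofNat_eq_natCast, zpow_natCast]
    exact h.pow n
  | negSucc n =>
    rw [zpow_negSucc]
    exact (h.pow _).inv

/-- congruence of elements of the same valuation -/
theorem one1_div (hy : v y = 1) : One1 v (x / y) ↔ v (x - y) < 1 := by
  have hy0 : y ≠ 0 := by
    rintro rfl
    rw [map_zero] at hy
    exact zero_ne_one hy
  unfold One1
  have e : x / y - 1 = y⁻¹ * (x - y) := by
    field_simp
  rw [e, map_mul, map_inv₀, hy, inv_one, one_mul]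

section cube

variable {a : F} (ha : v (1 + a + a ^ 2) < 1) (h3 : v 3 = 1)

include ha

theorem cube_val (ha1 : v a ≤ 1) : v a = 1 := by
  by_contra hne
  have hlt : v a < 1 := lt_of_le_of_ne ha1 hne
  have h1 : v (a + a ^ 2) < 1 := by
    refine Valuation.map_add_lt _ hlt ?_
    rw [map_pow]
    exact pow_lt_one₀ zero_le hlt two_ne_zero
  have h2 : v (1 + (a + a ^ 2)) = v 1 := Valuation.map_add_eq_of_lt_left _ (by rwa [map_one])
  rw [← add_assoc, map_one] at h2
  rw [h2] at ha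
  exact lt_irrefl _ ha

theorem cube_one (ha1 : v a ≤ 1) : One1 v (a ^ 3) := by
  unfold One1
  have e : a ^ 3 - 1 = (1 + a + a ^ 2) * (a - 1) := by ring
  rw [e, map_mul]
  have h1 : v (a - 1) ≤ 1 := Valuation.map_sub_le v ha1 (le_of_eq (map_one v))
  calc v (1 + a + a ^ 2) * v (a - 1) ≤ v (1 + a + a ^ 2) * 1 := mul_le_mul_right h1 _
    _ < 1 := by rwa [mul_one]

include h3

theorem cube_ne_one : ¬ One1 v a := by
  intro h
  have h1 : v (1 + a + a ^ 2 - ((a - 1) + (a ^ 2 - 1))) < 1 := by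
    refine Valuation.map_sub_lt v ha ?_
    exact Valuation.map_add_lt _ h (h.pow 2)
  have e : 1 + a + a ^ 2 - ((a - 1) + (a ^ 2 - 1)) = 3 := by ring
  rw [e, h3] at h1
  exact lt_irrefl _ h1

/-- powers of `a` which are one-units -/
theorem cube_dvd (ha1 : v a ≤ 1) {n : ℤ} (h : One1 v (a ^ n)) : (3 : ℤ) ∣ n := by
  have h0 : a ≠ 0 := by
    rintro rfl
    have := cube_val ha ha1
    rw [map_zero] at this
    exact zero_ne_one this
  have hc := cube_one ha ha1
  obtain ⟨m, r, hr, hn⟩ : ∃ m r : ℤ, (r = 0 ∨ r = 1 ∨ r = 2) ∧ n = 3 * m + r :=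
    ⟨n / 3, n % 3, by omega, by omega⟩
  have h1 : One1 v (a ^ r) := by
    have h2 := h.mul (hc.zpow (-m))
    have e : a ^ n * (a ^ 3) ^ (-m) = a ^ r := by
      rw [← zpow_natCast a 3, ← zpow_mul, ← zpow_add₀ h0, hn]
      congr 1
      push_cast
      ring
    rwa [e] at h2
  rcases hr with hr | hr | hr
  · exact ⟨m, by omega⟩
  · rw [hr, zpow_one] at h1
    exact absurd h1 (cube_ne_one ha h3)
  · rw [hr] at h1
    have h2 := hc.mul h1.inv
    have e : a ^ 3 * (a ^ (2 : ℤ))⁻¹ = a := by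
      rw [← zpow_natCast a 3, ← zpow_neg, ← zpow_add₀ h0]
      norm_num
    rw [e] at h2
    exact absurd h2 (cube_ne_one ha h3)

omit h3

/-- the cube roots of unity modulo one-units -/
theorem cube_roots (ha1 : v a ≤ 1) (hx : One1 v (x ^ 3)) :
    One1 v x ∨ One1 v (x / a) ∨ One1 v (x / a ^ 2) := by
  have hva := cube_val ha ha1
  have hvx : v x = 1 := by
    have := hx.val
    rw [map_pow] at this
    exact (pow_eq_one_iff_of_nonneg zero_le three_ne_zero).1 this
  have h1 : v ((x - 1) * (x - a) * (x - a ^ 2)) < 1 := by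
    have e : (x - 1) * (x - a) * (x - a ^ 2) =
        (x ^ 3 - 1) - (a ^ 3 - 1) + (1 + a + a ^ 2) * (a * x - x ^ 2) := by ring
    rw [e]
    refine Valuation.map_add_lt _ (Valuation.map_sub_lt v hx (cube_one ha ha1)) ?_
    rw [map_mul]
    have h2 : v (a * x - x ^ 2) ≤ 1 := by
      refine Valuation.map_sub_le v ?_ ?_
      · rw [map_mul, hva, hvx, one_mul]
      · rw [map_pow, hvx, one_pow]
    calc v (1 + a + a ^ 2) * v (a * x - x ^ 2) ≤ v (1 + a + a ^ 2) * 1 := mul_le_mul_right h2 _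
      _ < 1 := by rwa [mul_one]
  rw [one1_div hva, one1_div (by rw [map_pow, hva, one_pow])]
  by_contra hcon
  push Not at hcon
  obtain ⟨c1, c2, c3⟩ := hcon
  unfold One1 at c1
  rw [not_lt] at c1
  rw [map_mul, map_mul] at h1
  have h4 : 1 ≤ v (x - 1) * v (x - a) * v (x - a ^ 2) := by
    calc (1 : Γ) = 1 * 1 * 1 := by rw [mul_one, mul_one]
      _ ≤ v (x - 1) * v (x - a) * v (x - a ^ 2) :=
        mul_le_mul' (mul_le_mul' c1 c2) c3
  exact absurd h1 (not_lt.2 h4)

end cube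

/-- **Tame ramification.** An automorphism of order three which preserves the valuation and is
trivial modulo one-units on all elements is trivial if `3` is a unit. -/
theorem tame {τ : F ≃+* F} (hτv : ∀ x, v (τ x) = v x) (hτ3 : ∀ x, τ (τ (τ x)) = x)
    (h3 : v 3 = 1) (h : ∀ y, y ≠ 0 → One1 v (y / τ y)) (x : F) : τ x = x := by
  by_contra hne
  set δ := τ x - x with hδ
  have hδ0 : δ ≠ 0 := sub_ne_zero.2 hne
  have hτδ0 : τ δ ≠ 0 := fun h0 => hδ0 ((map_eq_zero τ).1 h0)
  have hsum : δ + τ δ + τ (τ δ) = 0 := by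
    rw [hδ, map_sub, map_sub, hτ3]
    ring
  have h1 : One1 v (τ δ / δ) := by
    have := (h δ hδ0).inv
    rwa [inv_div] at this
  have h2 : One1 v (τ (τ δ) / τ δ) := by
    unfold One1
    have e : τ (τ δ) / τ δ - 1 = τ (τ δ / δ - 1) := by
      rw [map_sub τ (τ δ / δ) 1, map_div₀ τ, map_one]
    rw [e, hτv]
    exact h1
  have h4 : One1 v (τ (τ δ) / δ) := by
    have e : τ (τ δ) / δ = (τ (τ δ) / τ δ) * (τ δ / δ) := by
      field_simp
    rw [e]
    exact h2.mul h1
  have e : (3 : F) = -((τ δ / δ - 1) + (τ (τ δ) / δ - 1)) := by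
    have e1 : τ (τ δ) = - (δ + τ δ) := by
      rw [eq_neg_iff_add_eq_zero, add_comm]
      exact hsum
    rw [e1]
    field_simp
    ring
  have h5 : v 3 < 1 := by
    rw [e, Valuation.map_neg]
    exact Valuation.map_add_lt _ h1 h4
  rw [h3] at h5
  exact lt_irrefl _ h5

end Pool.Agent.MU3


end

section

/-!
# Kolyvagin's step, local part (helper80)

MP_b78433_nt, MU3, section 1 of PAPER_K. `F/L` cyclic of degree three, `w` a prime of `F` which is
totally ramified over `L` and not above `3`.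
-/

set_option autoImplicit false

open NumberField IsDedekindDomain
open scoped nonZeroDivisors Pointwise

namespace Pool.Agent.MU3

open _root_.Pool.Agent.RI

section inert

variable {L F : Type} [Field L] [NumberField L] [Field F] [NumberField F] [Algebra L F]
  [IsGalois L F]

/-- the inertia group of a totally ramified prime -/
theorem inertia_top (w : HeightOneSpectrum (𝓞 F))
    (hw : w.asIdeal.ramificationIdx (𝓞 L) = Module.finrank L F) (τ : F ≃ₐ[L] F) (x : 𝓞 F) :
    τ • x - x ∈ w.asIdeal := by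
  set p : Ideal (𝓞 L) := w.asIdeal.under (𝓞 L) with hp
  have hlo : w.asIdeal.LiesOver p := ⟨rfl⟩
  have hwp : w.asIdeal.IsPrime := w.isPrime
  have hpp : p.IsPrime := Ideal.IsPrime.under (𝓞 L) w.asIdeal
  have hp0 : p ≠ ⊥ := (w.under (𝓞 L)).ne_bot
  have hfin : Finite (𝓞 L ⧸ p) := Ideal.finiteQuotientOfFreeOfNeBot p hp0
  have hmax : p.IsMaximal := hpp.isMaximal hp0
  have hfr : Finite p.ResidueField :=
    Finite.of_surjective (algebraMap (𝓞 L ⧸ p) p.ResidueField)
      (Ideal.bijective_algebraMap_quotient_residueField p).2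
  have h1 := Ideal.card_inertia_eq_ramificationIdxIn (G := F ≃ₐ[L] F) p w.asIdeal
  rw [Ideal.ramificationIdxIn_eq_ramificationIdx p w.asIdeal (F ≃ₐ[L] F), hw,
    ← IsGalois.card_aut_eq_finrank] at h1
  have h2 : (w.asIdeal.inertia (F ≃ₐ[L] F)) = ⊤ := Subgroup.eq_top_of_card_eq _ h1
  have h3 : τ ∈ w.asIdeal.inertia (F ≃ₐ[L] F) := by
    rw [h2]
    exact Subgroup.mem_top τ
  exact h3 x

/-- a totally ramified prime is invariant -/
theorem mv_ram (w : HeightOneSpectrum (𝓞 F))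
    (hw : w.asIdeal.ramificationIdx (𝓞 L) = Module.finrank L F) (τ : F ≃ₐ[L] F) :
    mv τ w = w := by
  apply HeightOneSpectrum.ext
  have h1 : ∀ σ : F ≃ₐ[L] F, σ • w.asIdeal ≤ w.asIdeal := by
    intro σ x hx
    rw [Ideal.mem_pointwise_smul_iff_inv_smul_mem] at hx
    have h2 := inertia_top w hw σ⁻¹ x
    have h3 := w.asIdeal.sub_mem hx h2
    rwa [sub_sub_cancel] at h3
  refine le_antisymm (h1 τ) ?_
  have h4 := h1 τ⁻¹
  have h5 := Ideal.pointwise_smul_le_pointwise_smul_iff (a := τ) |>.2 h4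
  rwa [smul_inv_smul] at h5

end inert

section loc

variable {L F : Type} [Field L] [NumberField L] [Field F] [NumberField F] [Algebra L F]

omit [NumberField L] in
/-- the map `y ↦ y / τ y` is trivial modulo one-units on `w`-units -/
theorem triv_unit {w : HeightOneSpectrum (𝓞 F)} {τ : F ≃ₐ[L] F}
    (ht : ∀ x : 𝓞 F, τ • x - x ∈ w.asIdeal) {y : Fˣ} (hy : cnt w y = 0) :
    One1 (w.valuation F) ((y : F) / τ (y : F)) := by
  have hv := (val_one_iff (w := w) y).2 hy
  obtain ⟨n, d, hnd⟩ := w.exists_primeCompl_mul_eq_of_integer (y : F) hv.le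
  have key : ∀ r : 𝓞 F, r ∉ w.asIdeal →
      One1 (w.valuation F) (τ (algebraMap (𝓞 F) F r) / algebraMap (𝓞 F) F r) := by
    intro r hr
    rw [one1_div (by rwa [HeightOneSpectrum.valuation_eq_one_iff_notMem])]
    have e : τ (algebraMap (𝓞 F) F r) - algebraMap (𝓞 F) F r =
        algebraMap (𝓞 F) F (τ • r - r) := by
      rw [map_sub]
      rfl
    rw [e]
    exact (HeightOneSpectrum.valuation_lt_one_iff_mem (K := F) (v := w) _).2 (ht r)
  have hd : (d : 𝓞 F) ∉ w.asIdeal := d.2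
  have hdv : w.valuation F (algebraMap (𝓞 F) F (d : 𝓞 F)) = 1 := by
    rwa [HeightOneSpectrum.valuation_eq_one_iff_notMem]
  have hn : n ∉ w.asIdeal := by
    rw [← HeightOneSpectrum.valuation_eq_one_iff_notMem (K := F), ← hnd, map_mul, hv, hdv, one_mul]
  have k1 := (key n hn).inv
  have k2 := key d hd
  have d0 : algebraMap (𝓞 F) F (d : 𝓞 F) ≠ 0 := by
    intro h0
    rw [h0, map_zero] at hdv
    exact zero_ne_one hdv
  have e : (y : F) / τ (y : F) = (τ (algebraMap (𝓞 F) F n) / algebraMap (𝓞 F) F n)⁻¹ *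
      (τ (algebraMap (𝓞 F) F (d : 𝓞 F)) / algebraMap (𝓞 F) F (d : 𝓞 F)) := by
    rw [← hnd, map_mul]
    have y0 : (y : F) ≠ 0 := y.ne_zero
    have ty0 : τ (y : F) ≠ 0 := (map_ne_zero τ).2 y0
    have td0 : τ (algebraMap (𝓞 F) F (d : 𝓞 F)) ≠ 0 := (map_ne_zero τ).2 d0
    field_simp
  rw [e]
  exact k1.mul k2

/-- the local symbol: for `F/L` of degree three, totally ramified at `w`, and `a` a cube root of
unity modulo `w`, `y / τ y` is a power of `a` modulo one-units, with exponent `s cnt w y` -/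
theorem local_symbol [IsGalois L F] (hdeg : Module.finrank L F = 3) {w : HeightOneSpectrum (𝓞 F)}
    (hw : w.asIdeal.ramificationIdx (𝓞 L) = 3) {τ : F ≃ₐ[L] F} (hτ : τ ≠ 1) {a : F}
    (ha : w.valuation F (1 + a + a ^ 2) < 1) (ha1 : w.valuation F a ≤ 1)
    (h3 : w.valuation F 3 = 1) :
    ∃ s : ℤ, (s = 1 ∨ s = 2) ∧
      ∀ y : Fˣ, One1 (w.valuation F) (((y : F) / τ (y : F)) / a ^ (s * cnt w y)) := by
  have hw' : w.asIdeal.ramificationIdx (𝓞 L) = Module.finrank L F := by rw [hw, hdeg]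
  have ht := inertia_top w hw' τ
  have hmv := mv_ram w hw' τ
  have hva := cube_val ha ha1
  have ha0 : a ≠ 0 := by
    rintro rfl
    rw [map_zero] at hva
    exact zero_ne_one hva
  obtain ⟨π, hπ⟩ := exists_unif w
  have y0 : ∀ y : Fˣ, (y : F) ≠ 0 := fun y => y.ne_zero
  have ty0 : ∀ y : Fˣ, τ (y : F) ≠ 0 := fun y => (map_ne_zero τ).2 y.ne_zero
  set θ : F := (π : F) / τ (π : F) with hθ
  have hθ0 : θ ≠ 0 := div_ne_zero (y0 π) (ty0 π)
  -- the value depends only on the exponent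
  have key : ∀ y : Fˣ, One1 (w.valuation F) (((y : F) / τ (y : F)) / θ ^ (cnt w y)) := by
    intro y
    have h1 : cnt w (y / π ^ (cnt w y)) = 0 := by
      rw [cnt_div, cnt_zpow, hπ]
      ring
    have h2 := triv_unit ht h1
    have e : ((y / π ^ (cnt w y) : Fˣ) : F) / τ ((y / π ^ (cnt w y) : Fˣ) : F) =
        ((y : F) / τ (y : F)) / θ ^ (cnt w y) := by
      rw [Units.val_div_eq_div_val, Units.val_zpow_eq_zpow_val, map_div₀, map_zpow₀, hθ, div_zpow]
      have p1 := zpow_ne_zero (cnt w y) (y0 π)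
      have p2 := zpow_ne_zero (cnt w y) (ty0 π)
      have p3 := y0 y
      have p4 := ty0 y
      field_simp
    rwa [e] at h2
  -- the cube
  have hcube : One1 (w.valuation F) (θ ^ 3) := by
    obtain ⟨x, hx⟩ := exists_unif (w.under (𝓞 L))
    have h1 := cnt_ext w (w.under (𝓞 L)) rfl x
    rw [hw, hx] at h1
    have h2 := key (Units.map (algebraMap L F : L →* F) x)
    rw [h1] at h2
    have e : ((Units.map (algebraMap L F : L →* F) x : Fˣ) : F) /
        τ ((Units.map (algebraMap L F : L →* F) x : Fˣ) : F) = 1 := by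
      have e1 : τ ((Units.map (algebraMap L F : L →* F) x : Fˣ) : F) =
          ((Units.map (algebraMap L F : L →* F) x : Fˣ) : F) := τ.commutes (x : L)
      rw [e1, div_self (Units.ne_zero _)]
    rw [e] at h2
    have h3' := h2.inv
    rw [one_div, inv_inv] at h3'
    have e3 : θ ^ (((3 : ℕ) : ℤ) * 1) = θ ^ 3 := by
      rw [mul_one, zpow_natCast]
    rwa [e3] at h3'
  -- not trivial
  have hne : ¬ One1 (w.valuation F) θ := by
    intro hone
    apply hτ
    have hall : ∀ y : F, y ≠ 0 → One1 (w.valuation F) (y / τ y) := by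
      intro y hy
      have h1 := (key (Units.mk0 y hy)).mul (hone.zpow (cnt w (Units.mk0 y hy)))
      rw [div_mul_cancel₀ _ (zpow_ne_zero _ hθ0)] at h1
      exact h1
    have hτ3 : ∀ x : F, τ (τ (τ x)) = x := by
      intro x
      have h1 : τ ^ 3 = 1 := by
        have h2 : Nat.card (F ≃ₐ[L] F) = 3 := by
          rw [IsGalois.card_aut_eq_finrank, hdeg]
        rw [← h2]
        exact pow_card_eq_one'
      have h2 := DFunLike.congr_fun h1 x
      exact h2
    have hτv : ∀ x : F, w.valuation F ((τ : F ≃+* F) x) = w.valuation F x := by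
      intro x
      have := val_mv τ w x
      rw [hmv] at this
      exact this
    apply AlgEquiv.ext
    intro x
    exact tame (τ := (τ : F ≃+* F)) hτv hτ3 h3 hall x
  rcases cube_roots ha ha1 hcube with h | h | h
  · exact absurd h hne
  · refine ⟨1, Or.inl rfl, fun y => ?_⟩
    have h1 := (key y).mul (h.zpow (cnt w y))
    have e : ((y : F) / τ (y : F)) / θ ^ (cnt w y) * (θ / a) ^ (cnt w y) =
        ((y : F) / τ (y : F)) / a ^ (1 * cnt w y) := by
      rw [div_zpow θ a, one_mul, div_mul_div_cancel₀ (zpow_ne_zero (cnt w y) hθ0)]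
    rwa [e] at h1
  · refine ⟨2, Or.inr rfl, fun y => ?_⟩
    have h1 := (key y).mul (h.zpow (cnt w y))
    have e : ((y : F) / τ (y : F)) / θ ^ (cnt w y) * (θ / a ^ 2) ^ (cnt w y) =
        ((y : F) / τ (y : F)) / a ^ (2 * cnt w y) := by
      have e1 : a ^ (2 * cnt w y) = (a ^ 2) ^ (cnt w y) := by
        rw [zpow_mul, show (2 : ℤ) = ((2 : ℕ) : ℤ) from rfl, zpow_natCast]
      rw [div_zpow θ (a ^ 2), e1, div_mul_div_cancel₀ (zpow_ne_zero (cnt w y) hθ0)]
    rwa [e] at h1

end loc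

end Pool.Agent.MU3


end

section

/-!
# Hilbert 90 for an extension of prime degree
-/

open Finset

namespace Pool.Agent.RI

theorem H90_thm : H90 := by
  intro p _ K L _ _ _ _ _ g hp hg x hx
  classical
  have hcard : Nat.card (L ≃ₐ[K] L) = p := by
    rw [IsGalois.card_aut_eq_finrank, hp]
  have hgen : ∀ τ : L ≃ₐ[K] L, τ ∈ Subgroup.zpowers g := fun τ => mem_zpowers_of_prime_card hcard hg
  have hord : orderOf g = p := by
    rw [orderOf_eq_card_of_forall_mem_zpowers hgen, hcard]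
  have hN : Algebra.norm K (x : L) = 1 := by
    apply (algebraMap K L).injective
    rw [Algebra.norm_eq_prod_automorphisms, map_one]
    have h1 : ∏ σ : L ≃ₐ[K] L, σ • x = ∏ i ∈ range p, g ^ i • x := by
      symm
      refine Finset.prod_bij (fun i _ => g ^ i) (fun _ _ => mem_univ _) ?_ ?_ (fun _ _ => rfl)
      · intro a ha b hb hab
        rw [mem_range, ← hord] at ha hb
        exact pow_injOn_Iio_orderOf ha hb hab
      · intro τ _
        have hmem : τ ∈ Submonoid.powers g :=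
          (isOfFinOrder_of_finite g).mem_powers_iff_mem_zpowers.2 (hgen τ)
        obtain ⟨i, hi⟩ := Submonoid.mem_powers_iff τ g |>.1 hmem
        refine ⟨i % orderOf g, mem_range.2 ?_, ?_⟩
        · rw [hord]; exact Nat.mod_lt _ (Fact.out : p.Prime).pos
        · rw [pow_mod_orderOf, hi]
    rw [← h1] at hx
    have h2 := congrArg (fun u : Lˣ => (u : L)) hx
    simpa using h2
  have : IsCyclic (L ≃ₐ[K] L) := ⟨g, hgen⟩
  obtain ⟨y, hy⟩ := groupCohomology.exists_div_of_norm_eq_one hgen hN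
  refine ⟨y, ?_⟩
  apply Units.ext
  rw [← hy]
  simp

end Pool.Agent.RI


end

section

/-!
# Kolyvagin's step, the theorem (helper80)

MP_b78433_nt, MU3, section 1 of PAPER_K: `KIN_thm : S_KIN`.
-/

set_option autoImplicit false

open NumberField IsDedekindDomain
open scoped nonZeroDivisors Pointwise

namespace Pool.Agent.MU3

open _root_.Pool.Agent.RI _root_.Pool.Agent.MU3.K1M

namespace KIN

section parts

variable {k L F : Type} [Field k] [NumberField k] [Field L] [NumberField L] [Field F]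
  [NumberField F] [Algebra k L] [Algebra L F] [Algebra k F] [IsScalarTower k L F]

theorem cnt_prod3 (τ : F ≃ₐ[L] F) (Y : Fˣ) (h : ∀ w : HeightOneSpectrum (𝓞 F), cnt w (τ • Y) = cnt w Y)
    (w : HeightOneSpectrum (𝓞 F)) : cnt w (∏ i ∈ Finset.range 3, τ ^ i • Y) = 3 * cnt w Y := by
  have h1 : ∀ (i : ℕ) (w : HeightOneSpectrum (𝓞 F)), cnt w (τ ^ i • Y) = cnt w Y := by
    intro i
    induction i with
    | zero =>
      intro w
      rw [pow_zero, one_smul]
    | succ i ih =>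
      intro w
      rw [pow_succ', mul_smul, cnt_mv', ih, ← cnt_mv', h]
  rw [Finset.prod_range_succ, Finset.prod_range_succ, Finset.prod_range_one, cnt_mul, cnt_mul,
    h1, h1, h1]
  ring

/-- the congruence for `g'^3 z / z` -/
theorem cong {S : Finset ℕ} {c : L} (hc0 : c ≠ 0) (hSU : SU S L c) {g : L ≃ₐ[k] L}
    {g' : F ≃ₐ[k] F} (hg' : ∀ x : L, algebraMap L F (g x) = g' (algebraMap L F x))
    {l : Ideal (𝓞 k)} {z : F} {m : ℕ}
    (hzc : ∀ w : HeightOneSpectrum (𝓞 F), w.asIdeal.under (𝓞 k) = l →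
      w.valuation F (z - algebraMap L F c ^ m) < 1) {w : HeightOneSpectrum (𝓞 F)}
    (hw : w.asIdeal.under (𝓞 k) = l) (hwS : ¬ Above S w) :
    One1 (w.valuation F) ((g' z / z) / (algebraMap L F (g c) / algebraMap L F c) ^ m) := by
  have hC : ∀ w : HeightOneSpectrum (𝓞 F), ¬ Above S w → w.valuation F (algebraMap L F c) = 1 := by
    intro w hw
    have h1 : ¬ Above S (w.under (𝓞 L)) := fun h => hw ((above_under (L := L) w (w.under (𝓞 L)) rfl).2 h)
    have h2 := (val_one_iff (w := w.under (𝓞 L)) (Units.mk0 c hc0)).1 (hSU _ h1)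
    have h3 := cnt_ext w (w.under (𝓞 L)) rfl (Units.mk0 c hc0)
    rw [h2, mul_zero] at h3
    exact (val_one_iff _).2 h3
  have hone : ∀ w : HeightOneSpectrum (𝓞 F), w.asIdeal.under (𝓞 k) = l → ¬ Above S w →
      One1 (w.valuation F) (z / algebraMap L F c ^ m) := by
    intro w h1 h2
    rw [one1_div (by rw [map_pow, hC w h2, one_pow])]
    exact hzc w h1
  have h1 := hone w hw hwS
  -- transport by `g'`
  have hw' : (mv g'⁻¹ w).asIdeal.under (𝓞 k) = l := by
    have h2 := under_mv (k := k) (L := k) g'⁻¹ 1 (fun x => (g'⁻¹.commutes x).symm) w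
      (w.under (𝓞 k)) rfl
    rw [mv_one] at h2
    rw [h2]
    exact hw
  have hwS' : ¬ Above S (mv g'⁻¹ w) := fun h => hwS ((above_mv _ _).1 h)
  have h2 := hone _ hw' hwS'
  have h3 : One1 (w.valuation F) (g' z / algebraMap L F (g c) ^ m) := by
    unfold One1 at h2 ⊢
    have h4 := val_mv g' (mv g'⁻¹ w) (z / algebraMap L F c ^ m - 1)
    rw [← mv_mul, mul_inv_cancel, mv_one, map_sub, map_div₀, map_pow, map_one, ← hg'] at h4
    rw [h4]
    exact h2
  have h4 := h3.div h1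
  have e : g' z / algebraMap L F (g c) ^ m / (z / algebraMap L F c ^ m) =
      (g' z / z) / (algebraMap L F (g c) / algebraMap L F c) ^ m := by
    have c0 : algebraMap L F c ≠ 0 := (map_ne_zero _).2 hc0
    have gc0 : algebraMap L F (g c) ≠ 0 := (map_ne_zero _).2 ((map_ne_zero _).2 hc0)
    have z0 : z ≠ 0 := by
      rintro rfl
      have := h1.ne
      rw [zero_div] at this
      exact this rfl
    rw [div_pow]
    field_simp
  rwa [e] at h4

/-- transport of the local symbol -/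
theorem symbol_mv (hcomm : ∀ σ τ : F ≃ₐ[k] F, σ * τ = τ * σ) {τ : F ≃ₐ[L] F} (σ : F ≃ₐ[k] F)
    {w : HeightOneSpectrum (𝓞 F)} {a : ℤ} {s : ℤ}
    (h : ∀ y : Fˣ, One1 (w.valuation F) (((y : F) / τ (y : F)) / (a : F) ^ (s * cnt w y))) (y : Fˣ) :
    One1 ((mv σ w).valuation F) (((y : F) / τ (y : F)) / (a : F) ^ (s * cnt (mv σ w) y)) := by
  have h1 := h (σ⁻¹ • y)
  have h2 : cnt w (σ⁻¹ • y) = cnt (mv σ w) y := by
    rw [cnt_mv', inv_inv]
  rw [h2] at h1
  unfold One1 at h1 ⊢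
  rw [← val_mv σ w] at h1
  have e1 : ((σ⁻¹ • y : Fˣ) : F) = σ⁻¹ (y : F) := rfl
  have e2 : σ (σ⁻¹ (y : F)) = y := σ.apply_symm_apply _
  have e3 : σ (τ (σ⁻¹ (y : F))) = τ (y : F) := by
    have := DFunLike.congr_fun (hcomm σ (τ.restrictScalars k)) (σ⁻¹ (y : F))
    have e4 : σ (τ (σ⁻¹ (y : F))) = τ (σ (σ⁻¹ (y : F))) := this
    rw [e4, e2]
  rw [map_sub, map_div₀, map_div₀, map_one, map_zpow₀, map_intCast, e1, e2, e3] at h1
  exact h1

end parts

end KIN

open _root_.Pool.Agent.MU3.KIN in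
/-- KIN -/
theorem KIN_thm : S_KIN := by
  classical
  intro k L _ _ _ _ _ _ _ S hS3 c hc0 hSU hK g hg u hu lam q hgood a ha3 ha1 b hb
  obtain ⟨F, _, _, _, _, _, hgalF, hcomm, hdeg, hunr, hram, z, hzS, ⟨y, hy⟩, hzc⟩ :=
    hK lam q hgood
  have hgalLF : IsGalois L F := IsGalois.tower_top_of_isGalois k L F
  have hfinLF : FiniteDimensional L F := Module.finite_of_finrank_pos (by rw [hdeg]; norm_num)
  have hcardLF : Nat.card (F ≃ₐ[L] F) = 3 := by rw [IsGalois.card_aut_eq_finrank, hdeg]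
  obtain ⟨τ, hτ⟩ : ∃ τ : F ≃ₐ[L] F, τ ≠ 1 := by
    by_contra hcon
    push Not at hcon
    have : Subsingleton (F ≃ₐ[L] F) := ⟨fun a b => by rw [hcon a, hcon b]⟩
    have := Nat.card_of_subsingleton (1 : F ≃ₐ[L] F)
    omega
  -- the prime number `q`
  have hqlam : (q : 𝓞 L) ∈ lam.asIdeal := by
    have h1 := Ideal.absNorm_mem lam.asIdeal
    rw [Ideal.absNorm_apply, Submodule.cardQuot_apply] at h1
    rw [← hgood.card]
    exact h1
  set m : ℕ := (q - 1) / 3 with hm
  set l : Ideal (𝓞 k) := lam.asIdeal.under (𝓞 k) with hl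
  -- lifts of automorphisms
  have hlift : ∀ h : L ≃ₐ[k] L, ∃ σ : F ≃ₐ[k] F, ∀ x : L, algebraMap L F (h x) =
      σ (algebraMap L F x) := by
    intro h
    obtain ⟨σ, hσ⟩ := AlgEquiv.restrictNormalHom_surjective (F := k) (K₁ := L) F h
    refine ⟨σ, fun x => ?_⟩
    rw [← hσ]
    exact AlgEquiv.restrictNormal_commutes σ L x
  obtain ⟨g', hg'⟩ := hlift g
  have hg'3 : ∀ x : L, algebraMap L F ((g ^ 3) x) = (g' ^ 3) (algebraMap L F x) := by
    intro x
    have e1 : (g ^ 3) x = g (g (g x)) := rfl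
    have e2 : (g' ^ 3) (algebraMap L F x) = g' (g' (g' (algebraMap L F x))) := rfl
    rw [e1, e2, hg', hg', hg']
  -- the case `Above S lam` is trivial
  set P : J L := ∏ h : L ≃ₐ[k] L, (h • vJ lam) ^ b h with hP
  by_cases hlamS : Above S lam
  · obtain ⟨I, s, hs, hX⟩ := decomp (S := S) (X := P) (by
      intro v hv
      have h0 : cntJ v P = 0 := by
        rw [hP, cntJ_prod]
        refine Finset.sum_eq_zero fun h _ => ?_
        rw [cntJ_pow, cntJ_smul_vJ, if_neg, mul_zero]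
        rintro rfl
        exact hv ((above_mv h lam).2 hlamS)
      rw [h0]
      exact dvd_zero 3)
    exact ⟨1, I, s, hs, by rw [map_one, one_mul, hX]⟩
  -- a prime above `lam`
  obtain ⟨w0, hw0⟩ := INVI.exists_above L F lam
  have hunderk : ∀ (w : HeightOneSpectrum (𝓞 F)) (v : HeightOneSpectrum (𝓞 L)),
      w.asIdeal.under (𝓞 L) = v.asIdeal → w.asIdeal.under (𝓞 k) = v.asIdeal.under (𝓞 k) := by
    intro w v hwv
    rw [← hwv, Ideal.under_under]
  have hw0k : w0.asIdeal.under (𝓞 k) = l := hunderk w0 lam hw0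
  have hlamk : ∀ h : L ≃ₐ[k] L, (mv h lam).asIdeal.under (𝓞 k) = l := by
    intro h
    have h2 := under_mv (k := k) (L := k) (F := L) h 1 (fun x => (h.commutes x).symm) lam
      (lam.under (𝓞 k)) rfl
    rw [mv_one] at h2
    exact h2
  have hSw : ∀ w : HeightOneSpectrum (𝓞 F), w.asIdeal.under (𝓞 k) = l → ¬ Above S w := by
    intro w hw hwS
    apply hlamS
    have h1 := (above_under (L := k) w (w.under (𝓞 k)) rfl).1 hwS
    refine (above_under (L := k) lam (lam.under (𝓞 k)) rfl).2 ?_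
    have e : w.under (𝓞 k) = lam.under (𝓞 k) := by
      apply HeightOneSpectrum.ext
      exact hw
    rwa [← e]
  -- `z` is not zero
  have hz0 : z ≠ 0 := by
    rintro rfl
    have h1 := hzS w0 (hSw w0 hw0k)
    rw [map_zero] at h1
    exact zero_ne_one h1
  set zu : Fˣ := Units.mk0 z hz0 with hzu
  have hcz : ∀ w : HeightOneSpectrum (𝓞 F), ¬ Above S w → cnt w zu = 0 := by
    intro w hw
    exact (val_one_iff zu).1 (hzS w hw)
  -- the unit `z'`
  set z' : Fˣ := g' ^ 3 • zu / zu with hz'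
  have hz'cnt : ∀ w : HeightOneSpectrum (𝓞 F), cnt w z' = 0 := by
    intro w
    rw [hz', cnt_div, cnt_mv']
    by_cases hw : Above S w
    · have h1 : mv (g' ^ 3)⁻¹ w = w := by
        have h2 := fix_cube hdeg hcomm hg hg' hw
        have h3 := congrArg (mv (g' ^ 3)⁻¹) h2
        rw [← mv_mul, inv_mul_cancel, mv_one] at h3
        exact h3.symm
      rw [h1, sub_self]
    · rw [hcz w hw, hcz _ (fun h => hw ((above_mv _ _).1 h)), sub_self]
  have hz'norm : ∏ i ∈ Finset.range 3, τ ^ i • z' = 1 := by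
    have h1 := norm_aut hdeg hτ zu
    have h2 : ∀ i : ℕ, τ ^ i • (g' ^ 3 • zu) = g' ^ 3 • (τ ^ i • zu) := by
      intro i
      apply Units.ext
      have := DFunLike.congr_fun (hcomm (AlgEquiv.restrictScalars k (τ ^ i)) (g' ^ 3)) (zu : F)
      exact this
    have h3 : ∏ i ∈ Finset.range 3, τ ^ i • z' =
        (g' ^ 3 • ∏ i ∈ Finset.range 3, τ ^ i • zu) / ∏ i ∈ Finset.range 3, τ ^ i • zu := by
      rw [Finset.smul_prod', ← Finset.prod_div_distrib]
      refine Finset.prod_congr rfl fun i _ => ?_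
      rw [hz', smul_div', h2]
    rw [h3, ← h1]
    have h4 : g' ^ 3 • Units.map (algebraMap L F : L →* F)
        (Units.map (Algebra.norm L : F →* L) zu) = Units.map (algebraMap L F : L →* F)
        (Units.map (Algebra.norm L : F →* L) zu) := by
      apply Units.ext
      change (g' ^ 3) (algebraMap L F (Algebra.norm L z)) = algebraMap L F (Algebra.norm L z)
      rw [hy, ← IsScalarTower.algebraMap_apply]
      exact (g' ^ 3).commutes y
    rw [h4, div_self']
  have : Fact (Nat.Prime 3) := ⟨Nat.prime_three⟩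
  obtain ⟨Y, hY⟩ := H90_thm 3 L F τ hdeg hτ z' hz'norm
  have hYτ : ∀ w : HeightOneSpectrum (𝓞 F), cnt w (τ • Y) = cnt w Y := by
    intro w
    have h1 := hz'cnt w
    rw [hY, cnt_div] at h1
    omega
  set κ : Lˣ := Units.map (Algebra.norm L : F →* L) Y with hκ
  have hκw : ∀ (w : HeightOneSpectrum (𝓞 F)) (v : HeightOneSpectrum (𝓞 L)),
      w.asIdeal.under (𝓞 L) = v.asIdeal →
      (w.asIdeal.ramificationIdx (𝓞 L) : ℤ) * cnt v κ = 3 * cnt w Y := by
    intro w v hwv
    rw [← cnt_ext w v hwv, hκ, norm_aut hdeg hτ, cnt_prod3 τ Y hYτ w]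
  -- the integer `a`
  have hqprime := hgood.prime
  have haq : (q : ℤ) ∣ 1 + a + a ^ 2 := by
    have h1 : (q : ℤ) ∣ (a - 1) * (1 + a + a ^ 2) := by
      have e : (a - 1) * (1 + a + a ^ 2) = a ^ 3 - 1 := by ring
      rw [e]
      exact ha3
    rcases (Nat.prime_iff_prime_int.1 hqprime).dvd_or_dvd h1 with h2 | h2
    · exact absurd h2 ha1
    · exact h2
  have hqw : ∀ w : HeightOneSpectrum (𝓞 F), w.asIdeal.under (𝓞 k) = l → (q : 𝓞 F) ∈ w.asIdeal := by
    intro w hw
    have h1 : (q : 𝓞 k) ∈ l := by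
      rw [hl, Ideal.mem_comap, map_natCast]
      exact hqlam
    rw [← hw, Ideal.mem_comap, map_natCast] at h1
    exact h1
  have hva : ∀ w : HeightOneSpectrum (𝓞 F), w.asIdeal.under (𝓞 k) = l →
      w.valuation F (1 + (a : F) + (a : F) ^ 2) < 1 := by
    intro w hw
    obtain ⟨d, hd⟩ := haq
    have h1 : (((1 + a + a ^ 2 : ℤ) : 𝓞 F)) ∈ w.asIdeal := by
      rw [hd]
      push_cast
      exact w.asIdeal.mul_mem_right _ (hqw w hw)
    have h2 := (HeightOneSpectrum.valuation_lt_one_iff_mem (K := F) (v := w) _).2 h1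
    have e : algebraMap (𝓞 F) F ((1 + a + a ^ 2 : ℤ) : 𝓞 F) = 1 + (a : F) + (a : F) ^ 2 := by
      rw [map_intCast]
      push_cast
      ring
    rw [← e]
    exact h2
  have hva1 : ∀ w : HeightOneSpectrum (𝓞 F), w.valuation F (a : F) ≤ 1 := by
    intro w
    have h1 := HeightOneSpectrum.valuation_le_one (K := F) w ((a : ℤ) : 𝓞 F)
    have e : algebraMap (𝓞 F) F ((a : ℤ) : 𝓞 F) = (a : F) := map_intCast _ a
    rw [← e]
    exact h1
  have hv3 : ∀ w : HeightOneSpectrum (𝓞 F), w.asIdeal.under (𝓞 k) = l →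
      w.valuation F 3 = 1 := by
    intro w hw
    have h1 : ((3 : ℕ) : 𝓞 F) ∉ w.asIdeal := fun h => hSw w hw ⟨3, hS3, h⟩
    have h2 := (HeightOneSpectrum.valuation_eq_one_iff_notMem (K := F) (v := w)).2 h1
    rw [map_natCast] at h2
    exact h2
  -- the symbol
  obtain ⟨s, hs12, hs⟩ := local_symbol hdeg (hram w0 hw0k) hτ (hva w0 hw0k) (hva1 w0)
    (hv3 w0 hw0k)
  have hsn : ∃ s' : ℕ, (s : ℤ) = s' := by
    rcases hs12 with h | h
    · exact ⟨1, by rw [h]; rfl⟩
    · exact ⟨2, by rw [h]; rfl⟩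
  obtain ⟨s', hs'⟩ := hsn
  -- the exponents at the conjugates of `lam`
  have hexp : ∀ h : L ≃ₐ[k] L, (3 : ℤ) ∣ (b h : ℤ) - s * cnt (mv h lam) κ := by
    intro h
    obtain ⟨σ, hσ⟩ := hlift h
    set w := mv σ w0 with hw
    have hwh : w.asIdeal.under (𝓞 L) = (mv h lam).asIdeal := under_mv σ h hσ w0 lam hw0
    have hwk : w.asIdeal.under (𝓞 k) = l := by
      rw [hunderk w _ hwh, hlamk]
    have hsym := symbol_mv hcomm σ hs Y
    have h1 := hκw w _ hwh
    rw [hram w hwk] at h1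
    have h2 : cnt (mv h lam) κ = cnt w Y := by
      push_cast at h1
      omega
    rw [h2]
    -- congruences for `z'`
    have h3 := cong (S := S) hc0 hSU hg'3 hzc hwk (hSw w hwk)
    have h4 : One1 (w.valuation F) ((algebraMap L F ((g ^ 3) c) / algebraMap L F c) ^ m /
        (a : F) ^ b h) := by
      rw [one1_div (by rw [map_pow, cube_val (hva w hwk) (hva1 w), one_pow])]
      have h5 : algebraMap (𝓞 L) (𝓞 F) ((u : 𝓞 L) ^ m - (a : 𝓞 L) ^ b h) ∈ w.asIdeal := by
        have h6 : (u : 𝓞 L) ^ m - (a : 𝓞 L) ^ b h ∈ w.asIdeal.under (𝓞 L) := by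
          rw [hwh]
          exact hb h
        exact h6
      have h7 := (HeightOneSpectrum.valuation_lt_one_iff_mem (K := F) (v := w) _).2 h5
      have e : algebraMap (𝓞 F) F (algebraMap (𝓞 L) (𝓞 F) ((u : 𝓞 L) ^ m - (a : 𝓞 L) ^ b h)) =
          (algebraMap L F ((g ^ 3) c) / algebraMap L F c) ^ m - (a : F) ^ b h := by
        have e1 : algebraMap (𝓞 F) F (algebraMap (𝓞 L) (𝓞 F) ((u : 𝓞 L) ^ m - (a : 𝓞 L) ^ b h)) =
            algebraMap L F (algebraMap (𝓞 L) L ((u : 𝓞 L) ^ m - (a : 𝓞 L) ^ b h)) := rfl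
        rw [e1, map_sub, map_pow, map_pow, map_intCast, map_sub, map_pow, map_pow, map_intCast]
        have e2 : algebraMap (𝓞 L) L (u : 𝓞 L) = (g ^ 3) c / c := hu
        rw [e2, map_div₀]
      rw [← e]
      exact h7
    have h8 : One1 (w.valuation F) (((Y : F) / τ (Y : F)) / (a : F) ^ b h) := by
      have e1 : (Y : F) / τ (Y : F) = (g' ^ 3) z / z := by
        have := congrArg (fun x : Fˣ => (x : F)) hY
        rw [hz'] at this
        simp only [Units.val_div_eq_div_val] at this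
        exact this.symm
      have h9 := h3.mul h4
      rw [e1]
      have h0 : (algebraMap L F ((g ^ 3) c) / algebraMap L F c) ^ m ≠ 0 := by
        refine pow_ne_zero _ (div_ne_zero ?_ ?_)
        · exact (map_ne_zero _).2 ((map_ne_zero _).2 hc0)
        · exact (map_ne_zero _).2 hc0
      rwa [div_mul_div_cancel₀ h0] at h9
    have h10 := hsym.div h8
    have ha0 : (a : F) ≠ 0 := by
      intro h0
      have := cube_val (hva w hwk) (hva1 w)
      rw [h0, map_zero] at this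
      exact zero_ne_one this
    have hY0 : (Y : F) / τ (Y : F) ≠ 0 := div_ne_zero Y.ne_zero ((map_ne_zero _).2 Y.ne_zero)
    have e : (Y : F) / τ (Y : F) / (a : F) ^ (s * cnt w Y) / ((Y : F) / τ (Y : F) / (a : F) ^ b h) =
        (a : F) ^ ((b h : ℤ) - s * cnt w Y) := by
      rw [zpow_sub₀ ha0, zpow_natCast]
      have p1 := zpow_ne_zero (s * cnt w Y) ha0
      have p2 := pow_ne_zero (b h) ha0
      generalize (Y : F) / τ (Y : F) = A at hY0 ⊢
      field_simp
    rw [e] at h10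
    exact cube_dvd (hva w hwk) (hv3 w hwk) (hva1 w) h10
  -- the ideal
  obtain ⟨I, t, ht, hX⟩ := decomp (S := S) (X := P * (prin κ ^ s')⁻¹) (by
    intro v hv
    rw [cntJ_mul, cntJ_inv, cntJ_pow, hP, cntJ_prod, ← hs']
    by_cases hvh : ∃ h : L ≃ₐ[k] L, mv h lam = v
    · obtain ⟨h, rfl⟩ := hvh
      rw [Finset.sum_eq_single h]
      · rw [cntJ_pow, cntJ_smul_vJ, if_pos rfl, mul_one]
        exact hexp h
      · intro h' _ hne
        rw [cntJ_pow, cntJ_smul_vJ, if_neg, mul_zero]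
        intro heq
        apply hne
        have h1 : (h⁻¹ * h') • lam.asIdeal = lam.asIdeal := by
          have h2 : h' • lam.asIdeal = h • lam.asIdeal := congrArg HeightOneSpectrum.asIdeal heq
          rw [mul_smul, h2, inv_smul_smul]
        have h3 := hgood.free _ h1
        rw [inv_mul_eq_one] at h3
        exact h3.symm
      · intro h1
        exact absurd (Finset.mem_univ h) h1
    · rw [Finset.sum_eq_zero]
      · obtain ⟨w, hw⟩ := INVI.exists_above L F v
        have hwS : ¬ Above S w := fun h => hv ((above_under w v hw).1 h)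
        have hwk : w.asIdeal.under (𝓞 k) ≠ l := by
          intro h1
          apply hvh
          rw [hunderk w v hw] at h1
          have hlo : v.asIdeal.LiesOver l := ⟨h1.symm⟩
          have hlo' : lam.asIdeal.LiesOver l := ⟨rfl⟩
          have hp1 : v.asIdeal.IsPrime := v.isPrime
          have hp2 : lam.asIdeal.IsPrime := lam.isPrime
          obtain ⟨h, hh⟩ := Ideal.exists_smul_eq_of_isGaloisGroup l lam.asIdeal v.asIdeal
            (L ≃ₐ[k] L)
          refine ⟨h, ?_⟩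
          apply HeightOneSpectrum.ext
          exact hh
        have h1 := hκw w v hw
        rw [hunr w hwS hwk] at h1
        have h2 : cntJ v (prin κ) = 3 * cnt w Y := by
          have : cnt v κ = 3 * cnt w Y := by
            push_cast at h1
            omega
          exact this
        rw [h2]
        exact ⟨-(s * cnt w Y), by ring⟩
      · intro h _
        rw [cntJ_pow, cntJ_smul_vJ, if_neg (fun h1 => hvh ⟨h, h1⟩), mul_zero])
  refine ⟨κ ^ s', I, t, ht, ?_⟩
  rw [map_pow, mul_assoc, ← hX, mul_comm P, mul_inv_cancel_left]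

end Pool.Agent.MU3


end

section

/-!
# MU3, section 4: AMBI, ideals fixed by `g` modulo ideals of `K`
-/

open NumberField Finset IsDedekindDomain
open scoped nonZeroDivisors Pointwise

namespace MU3

open _root_.Pool.Agent.RI _root_.Pool.Agent.RID

namespace Ambi

/-- the exponent of `w` in a fractional ideal -/
noncomputable def cnt (L : Type) [Field L] [NumberField L] (w : HeightOneSpectrum (𝓞 L))
    (b : J L) : ℤ :=
  FractionalIdeal.count L w (b : FractionalIdeal (𝓞 L)⁰ L)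

lemma cnt_mul (L : Type) [Field L] [NumberField L] (w : HeightOneSpectrum (𝓞 L)) (b c : J L) :
    cnt L w (b * c) = cnt L w b + cnt L w c := by
  unfold cnt
  rw [Units.val_mul, FractionalIdeal.count_mul L w b.ne_zero c.ne_zero]

lemma cnt_one (L : Type) [Field L] [NumberField L] (w : HeightOneSpectrum (𝓞 L)) :
    cnt L w 1 = 0 := by
  unfold cnt
  rw [Units.val_one, FractionalIdeal.count_one]

lemma cnt_inv (L : Type) [Field L] [NumberField L] (w : HeightOneSpectrum (𝓞 L)) (b : J L) :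
    cnt L w b⁻¹ = - cnt L w b := by
  have h := cnt_mul L w b⁻¹ b
  rw [inv_mul_cancel, cnt_one] at h
  linarith

lemma cnt_div (L : Type) [Field L] [NumberField L] (w : HeightOneSpectrum (𝓞 L)) (b c : J L) :
    cnt L w (b / c) = cnt L w b - cnt L w c := by
  rw [div_eq_mul_inv, cnt_mul, cnt_inv]
  ring

section

variable (K L : Type) [Field K] [NumberField K] [Field L] [NumberField L] [Algebra K L]

lemma ram_pos (w : HeightOneSpectrum (𝓞 L)) : 0 < w.asIdeal.ramificationIdx (𝓞 K) := by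
  have : w.asIdeal.IsPrime := w.isPrime
  exact Ideal.ramificationIdx_pos w.asIdeal (𝓞 K)

lemma ram_le [IsGalois K L] (w : HeightOneSpectrum (𝓞 L)) :
    w.asIdeal.ramificationIdx (𝓞 K) ≤ Module.finrank K L := by
  classical
  have hw : w.asIdeal.IsPrime := w.isPrime
  have hp : (w.asIdeal.under (𝓞 K)).IsPrime := inferInstance
  have hlo : w.asIdeal.LiesOver (w.asIdeal.under (𝓞 K)) := ⟨rfl⟩
  have hfin : Finite ((w.asIdeal.under (𝓞 K)).primesOver (𝓞 L)) := inferInstance
  let : Fintype ((w.asIdeal.under (𝓞 K)).primesOver (𝓞 L)) := Fintype.ofFinite _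
  have h := Ideal.sum_ramification_inertia_eq_card (w.asIdeal.under (𝓞 K)) (𝓞 L)
    (G := L ≃ₐ[K] L)
  rw [IsGalois.card_aut_eq_finrank] at h
  rw [← h]
  have h1 := Finset.single_le_sum (f := fun q : (w.asIdeal.under (𝓞 K)).primesOver (𝓞 L) =>
    q.1.ramificationIdx (𝓞 K) * q.1.inertiaDeg (𝓞 K)) (fun _ _ => Nat.zero_le _)
    (Finset.mem_univ ⟨w.asIdeal, hw, hlo⟩)
  refine le_trans ?_ h1
  exact Nat.le_mul_of_pos_right _ (Ideal.inertiaDeg_pos w.asIdeal (𝓞 K))

lemma conj [IsGalois K L] (b : J L) (hb : ∀ τ : L ≃ₐ[K] L, τ • b = b)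
    (w w' : HeightOneSpectrum (𝓞 L)) (hww : w.asIdeal.under (𝓞 K) = w'.asIdeal.under (𝓞 K)) :
    cnt L w' b = cnt L w b := by
  have : w.asIdeal.LiesOver (w.asIdeal.under (𝓞 K)) := ⟨rfl⟩
  have : w'.asIdeal.LiesOver (w.asIdeal.under (𝓞 K)) := ⟨hww⟩
  have : w.asIdeal.IsPrime := w.isPrime
  have : w'.asIdeal.IsPrime := w'.isPrime
  obtain ⟨σ, hσ⟩ := Ideal.exists_smul_eq_of_isGaloisGroup (w.asIdeal.under (𝓞 K)) w.asIdeal
    w'.asIdeal (L ≃ₐ[K] L)
  have h3 := COUNTACT_thm K L σ w w' hσ.symm b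
  rw [hb σ] at h3
  exact h3

/-- the homomorphism to the product of the `ZMod e_v` -/
noncomputable def phi (S : Finset (HeightOneSpectrum (𝓞 K)))
    (up : HeightOneSpectrum (𝓞 K) → HeightOneSpectrum (𝓞 L)) :
    J L →* Multiplicative (∀ v : S, ZMod ((up v).asIdeal.ramificationIdx (𝓞 K))) where
  toFun b := Multiplicative.ofAdd fun v => ((cnt L (up v) b : ℤ) : ZMod _)
  map_one' := by
    rw [← ofAdd_zero]
    congr 1
    funext v
    rw [cnt_one, Int.cast_zero]
    rfl
  map_mul' a b := by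
    rw [← ofAdd_add]
    congr 1
    funext v
    rw [cnt_mul, Int.cast_add]
    rfl

omit [NumberField K] in
lemma phi_eq_one (S : Finset (HeightOneSpectrum (𝓞 K)))
    (up : HeightOneSpectrum (𝓞 K) → HeightOneSpectrum (𝓞 L)) (b : J L) (hb : phi K L S up b = 1)
    (v : HeightOneSpectrum (𝓞 K)) (hv : v ∈ S) :
    ((up v).asIdeal.ramificationIdx (𝓞 K) : ℤ) ∣ cnt L (up v) b := by
  have h1 : (fun v : S => ((cnt L (up v) b : ℤ) :
      ZMod ((up v).asIdeal.ramificationIdx (𝓞 K)))) = 0 :=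
    Multiplicative.ofAdd.injective (hb.trans ofAdd_zero.symm)
  have h2 := congrFun h1 ⟨v, hv⟩
  exact (ZMod.intCast_zmod_eq_zero_iff_dvd _ _).1 h2

end

/-- the kernel is contained in the extended ideals -/
lemma ker_le (F K L : Type) [Field F] [NumberField F] [Field K] [NumberField K]
    [Field L] [NumberField L] [Algebra F K] [Algebra F L] [Algebra K L] [IsScalarTower F K L]
    (g : L ≃ₐ[F] L) (q : ℕ) (hg : CycExt F K L g q) (S : Finset (HeightOneSpectrum (𝓞 K)))
    (hS : ∀ w : HeightOneSpectrum (𝓞 L), w.asIdeal.ramificationIdx (𝓞 K) ≠ 1 →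
      ∃ v ∈ S, w.asIdeal.under (𝓞 K) = v.asIdeal)
    (up : HeightOneSpectrum (𝓞 K) → HeightOneSpectrum (𝓞 L))
    (hup : ∀ v, (up v).asIdeal.under (𝓞 K) = v.asIdeal) (b : J L)
    (hb : g • b = b) (hphi : phi K L S up b = 1) : b ∈ (ext K L).range := by
  classical
  obtain ⟨hgal, hdeg, -, -, -, hfix, -, -, hext, -⟩ := t_CYC F K L g q hg
  have hdvd := phi_eq_one K L S up b hphi
  set n : HeightOneSpectrum (𝓞 K) → ℤ := fun v => if v ∈ S then
    cnt L (up v) b / ((up v).asIdeal.ramificationIdx (𝓞 K) : ℤ) else 0 with hn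
  have hfin : {v | n v ≠ 0}.Finite := by
    refine S.finite_toSet.subset ?_
    intro v hv
    by_contra hvS
    apply hv
    rw [hn]
    simp only [Finset.mem_coe] at hvS
    simp [hvS]
  obtain ⟨c, hc⟩ := INVI.exists_count K n hfin
  have hb' : g • (b / ext K L c) = b / ext K L c := by
    rw [smul_div', hb, hext c]
  have hinv := hfix _ hb'
  obtain ⟨c', hc'⟩ := INVI_thm COUNTACT_thm COUNTEXT_thm K L (b / ext K L c) hinv (by
    intro w hw
    obtain ⟨v, hv, hvw⟩ := hS w hw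
    have h1 : cnt L w (b / ext K L c) = cnt L (up v) (b / ext K L c) :=
      conj K L _ hinv (up v) w ((hup v).trans hvw.symm)
    have h2 : cnt L (up v) (ext K L c) =
        ((up v).asIdeal.ramificationIdx (𝓞 K) : ℤ) * n v := by
      unfold cnt
      rw [COUNTEXT_thm K L v (up v) (hup v) c, hc v]
    have h3 : ((up v).asIdeal.ramificationIdx (𝓞 K) : ℤ) * n v = cnt L (up v) b := by
      rw [hn]
      simp only [hv, if_true]
      exact Int.mul_ediv_cancel' (hdvd v hv)
    show cnt L w (b / ext K L c) = 0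
    rw [h1, cnt_div, h2, h3, sub_self])
  refine ⟨c' * c, ?_⟩
  rw [map_mul, hc', div_mul_cancel]

end Ambi

open _root_.MU3.Ambi in
theorem n_AMBI : N_AMBI := by
  intro F K L _ _ _ _ _ _ _ _ _ _ g q hg S hS
  classical
  obtain ⟨hgal, hdeg, -, -, -, hfix, -, -, hext, -⟩ := t_CYC F K L g q hg
  choose up hup using INVI.exists_above K L
  set f : (dg g : J L →* J L).ker →*
      Multiplicative (∀ v : S, ZMod ((up v).asIdeal.ramificationIdx (𝓞 K))) :=
    (phi K L S up).comp (dg g : J L →* J L).ker.subtype with hf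
  have hle : f.ker ≤ (ext K L).range.subgroupOf (dg g : J L →* J L).ker := by
    intro b hb
    rw [Subgroup.mem_subgroupOf]
    refine ker_le F K L g q hg S hS up hup b ?_ ?_
    · exact (mem_dg_ker g (b : J L)).1 b.2
    · exact hb
  have hne : ∀ v : S, NeZero ((up v).asIdeal.ramificationIdx (𝓞 K)) := fun v =>
    ⟨(ram_pos K L (up v)).ne'⟩
  have hfinT : Finite (Multiplicative (∀ v : S, ZMod ((up v).asIdeal.ramificationIdx (𝓞 K)))) :=
    (inferInstance : Finite (∀ v : S, ZMod ((up v).asIdeal.ramificationIdx (𝓞 K))))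
  have hcard : Nat.card (Multiplicative (∀ v : S, ZMod ((up v).asIdeal.ramificationIdx (𝓞 K)))) ≤
      q ^ S.card := by
    have h1 : Nat.card (Multiplicative (∀ v : S,
        ZMod ((up v).asIdeal.ramificationIdx (𝓞 K)))) =
        ∏ v : S, (up v).asIdeal.ramificationIdx (𝓞 K) := by
      rw [show Nat.card (Multiplicative (∀ v : S,
        ZMod ((up v).asIdeal.ramificationIdx (𝓞 K)))) = Nat.card (∀ v : S,
        ZMod ((up v).asIdeal.ramificationIdx (𝓞 K))) from rfl, Nat.card_pi]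
      exact Finset.prod_congr rfl fun v _ => Nat.card_zmod _
    rw [h1]
    calc ∏ v : S, (up v).asIdeal.ramificationIdx (𝓞 K) ≤ ∏ _v : S, q :=
          Finset.prod_le_prod' fun v _ => by rw [← hdeg]; exact ram_le K L (up v)
      _ = q ^ S.card := by simp
  have hfk : f.ker.index ≠ 0 ∧ f.ker.index ≤ q ^ S.card := by
    rw [Subgroup.index_ker]
    constructor
    · exact Nat.card_pos.ne'
    · refine le_trans ?_ hcard
      exact Nat.card_le_card_of_injective _ Subtype.val_injective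
  have hd := Subgroup.index_dvd_of_le hle
  constructor
  · intro h0
    unfold Subgroup.relIndex at h0
    rw [h0] at hd
    exact hfk.1 (Nat.eq_zero_of_zero_dvd hd)
  · exact (Nat.le_of_dvd (Nat.pos_of_ne_zero hfk.1) hd).trans hfk.2

end MU3


end

section

/-!
# MUX, block K, SU0: `c₀ n` is a unit outside `S`
-/

set_option autoImplicit false

open NumberField IsDedekindDomain Finset Filter Topology
open scoped nonZeroDivisors Pointwise

namespace Pool.Agent.MUXK

open _root_.Pool.Agent.MU3 _root_.Pool.Agent.RI _root_.Pool.Agent.RID _root_.Pool.Agent.Lib_helper28.FROB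

namespace K_SU0

/-- conjugates -/
theorem su_act {k L : Type} [Field k] [Field L] [NumberField L] [Algebra k L] {S : Finset ℕ}
    {x : L} (h : SU S L x) (σ : L ≃ₐ[k] L) : SU S L (σ x) := by
  intro v hv
  have h1 : ¬ Above S (mv σ⁻¹ v) := fun h => hv ((K1M.above_mv σ⁻¹ v).1 h)
  have h2 := val_mv σ (mv σ⁻¹ v) x
  rw [← mv_mul, mul_inv_cancel, mv_one] at h2
  rw [h2]
  exact h _ h1

/-- products -/
theorem su_prod {L ι : Type} [Field L] [NumberField L] {S : Finset ℕ} (s : Finset ι) {f : ι → L}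
    (h : ∀ i ∈ s, SU S L (f i)) : SU S L (∏ i ∈ s, f i) := by
  intro v hv
  rw [map_prod]
  exact Finset.prod_eq_one fun i hi => h i hi v hv

/-- descent to a subfield -/
theorem su_down {L M : Type} [Field L] [NumberField L] [Field M] [NumberField M] [Algebra L M]
    {S : Finset ℕ} {x : L} (hx : x ≠ 0) (h : SU S M (algebraMap L M x)) : SU S L x := by
  intro v hv
  obtain ⟨w, hw⟩ := INVI.exists_above L M v
  have hw' : ¬ Above S w := by
    rintro ⟨p, hp, hpw⟩
    apply hv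
    refine ⟨p, hp, ?_⟩
    rw [← hw, Ideal.under_def, Ideal.mem_comap, map_natCast]
    exact hpw
  have h1 := h w hw'
  have e := cnt_ext w v hw (Units.mk0 x hx)
  have h2 : cnt w (Units.map (algebraMap L M : L →* M) (Units.mk0 x hx)) = 0 :=
    (val_one_iff _).1 h1
  rw [h2] at e
  have hpos : 0 < w.asIdeal.ramificationIdx (𝓞 L) := Ideal.ramificationIdx_pos w.asIdeal (𝓞 L)
  have h3 : cnt v (Units.mk0 x hx) = 0 := by
    rcases mul_eq_zero.1 e.symm with h4 | h4
    · exfalso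
      have : w.asIdeal.ramificationIdx (𝓞 L) = 0 := by exact_mod_cast h4
      omega
    · exact h4
  exact (val_one_iff (Units.mk0 x hx)).2 h3

end K_SU0

open _root_.Pool.Agent.MUXK.K_SU0

/-- SU0. -/
theorem t_SU0 : S_SU0 := by
  intro F _ p _ k K₀ K B _ _ _ _ hX hk hk₀ hkK S c c₀ n₁ hI n hn
  have hh : K₀ ⊔ B n ≤ K ⊔ B n := sup_le_sup_right hX.le _
  let _ := algC (hk n)
  let _ := algC hh
  have : NumberField k := numC k
  have : FiniteDimensional ↥k ↥(K ⊔ B n) := by
    have : IsScalarTower ℚ ↥k ↥(K ⊔ B n) := IsScalarTower.of_algebraMap_eq fun x => rfl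
    exact FiniteDimensional.right ℚ ↥k ↥(K ⊔ B n)
  have hfin : Finite (↥(K ⊔ B n) ≃ₐ[k] ↥(K ⊔ B n)) := inferInstance
  have := Fintype.ofFinite (NC (hk n) (K₀ ⊔ B n))
  have hc : (⟨c n, hI.mem n⟩ : ↥(K ⊔ B n)) ≠ 0 := by
    intro h
    exact hI.ne n (congrArg Subtype.val h)
  have hsu := hI.su n hn
  have hnorm := hI.norm n
  rw [finprod_eq_prod_of_fintype] at hnorm
  set y : ↥(K ⊔ B n) := ∏ g : NC (hk n) (K₀ ⊔ B n),
    (g : ↥(K ⊔ B n) ≃ₐ[k] ↥(K ⊔ B n)) ⟨c n, hI.mem n⟩ with hy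
  have hy1 : c₀ n = (y : ℂ) := by
    rw [hnorm, hy]
    exact (map_prod (K ⊔ B n).val _ _).symm
  have hy0 : y ≠ 0 := by
    rw [hy, Finset.prod_ne_zero_iff]
    intro g _ h
    exact hc ((map_eq_zero_iff _ (g : ↥(K ⊔ B n) ≃ₐ[k] ↥(K ⊔ B n)).injective).1 h)
  have hc0 : c₀ n ≠ 0 := by
    intro h
    apply hy0
    apply Subtype.ext
    rw [← hy1, h]
    rfl
  refine ⟨hc0, ?_⟩
  have hx0 : (⟨c₀ n, hI.mem₀ n⟩ : ↥(K₀ ⊔ B n)) ≠ 0 := by
    intro h
    exact hc0 (congrArg Subtype.val h)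
  refine su_down (M := ↥(K ⊔ B n)) hx0 ?_
  have e : algebraMap ↥(K₀ ⊔ B n) ↥(K ⊔ B n) ⟨c₀ n, hI.mem₀ n⟩ = y := Subtype.ext hy1
  rw [e, hy]
  exact su_prod _ fun g _ => su_act hsu _

end Pool.Agent.MUXK


end

section

/-!
# MU3, block P: `P_RKA`
-/

open NumberField Finset IsDedekindDomain
open scoped nonZeroDivisors Pointwise

namespace MU3

open _root_.Pool.Agent.RI _root_.Pool.Agent.RID

namespace RKA

variable {G A : Type} [Group G] [CommGroup A] [MulDistribMulAction G A]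

/-- the endomorphism of `Additive A` given by the action of `g` -/
def gam (g : G) : AddMonoid.End (Additive A) :=
  MonoidHom.toAdditive (MulDistribMulAction.toMonoidHom A g)

lemma gam_apply (g : G) (x : A) : gam g (Additive.ofMul x) = Additive.ofMul (g • x) := rfl

lemma gam_pow_apply (g : G) (n : ℕ) (x : A) :
    (gam g ^ n : AddMonoid.End (Additive A)) (Additive.ofMul x) = Additive.ofMul (g ^ n • x) := by
  induction n with
  | zero => simp
  | succ n ih =>
    rw [pow_succ', AddMonoid.End.coe_mul, Function.comp_apply, ih, gam_apply, pow_succ', mul_smul]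

lemma one_sub_gam_pow_apply (g : G) (n : ℕ) (x : A) :
    ((1 - gam g) ^ n : AddMonoid.End (Additive A)) (Additive.ofMul x) =
      Additive.ofMul ((dg g)^[n] x) := by
  induction n with
  | zero => simp
  | succ n ih =>
    rw [pow_succ', AddMonoid.End.coe_mul, Function.comp_apply, ih, Function.iterate_succ_apply', dg_apply]
    rfl

lemma pow_eq (p : ℕ) (hp : p.Prime) (g : G) (hg : g ^ p = 1) :
    ∃ r : AddMonoid.End (Additive A), (1 - gam g) ^ p = (p : AddMonoid.End (Additive A)) * r := by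
  have h1 : (gam g ^ p : AddMonoid.End (Additive A)) = 1 := by
    ext x
    obtain ⟨x, rfl⟩ := Additive.ofMul.surjective x
    rw [gam_pow_apply, hg, one_smul]
    rfl
  obtain ⟨r, hr⟩ := exists_add_pow_prime_eq hp (1 : Polynomial ℤ) (-Polynomial.X)
  obtain ⟨s, hs⟩ : ∃ s : Polynomial ℤ, (1 - Polynomial.X) ^ p =
      1 - Polynomial.X ^ p + (p : Polynomial ℤ) * s := by
    rcases hp.eq_two_or_odd' with h | h
    · subst h
      refine ⟨1 - Polynomial.X + (Polynomial.X ^ 2 - 1), ?_⟩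
      push_cast
      ring
    · refine ⟨1 * -Polynomial.X * r, ?_⟩
      rw [sub_eq_add_neg, hr, h.neg_pow, one_pow]
      ring
  have h2 := congrArg (Polynomial.aeval (gam g : AddMonoid.End (Additive A))) hs
  simp only [map_pow, map_add, map_mul, map_one, map_sub, Polynomial.aeval_X, map_natCast] at h2
  refine ⟨Polynomial.aeval (gam g : AddMonoid.End (Additive A)) s, ?_⟩
  rw [h2, h1, sub_self, zero_add]

lemma iter_mem (p : ℕ) (hp : p.Prime) (g : G) (hg : g ^ p = 1) (b : A) :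
    ∃ y : A, (dg g)^[p] b = y ^ p := by
  obtain ⟨r, hr⟩ := pow_eq (A := A) p hp g hg
  refine ⟨(r (Additive.ofMul b)).toMul, ?_⟩
  apply Additive.ofMul.injective
  rw [← one_sub_gam_pow_apply, hr, AddMonoid.End.coe_mul, Function.comp_apply, AddMonoid.End.natCast_apply]
  rfl

end RKA

theorem p_RKA (h1 : N_NILR) : P_RKA := by
  intro p hp K L _ _ _ _ g hg
  refine h1 p p K L g fun b => ?_
  obtain ⟨y, hy⟩ := RKA.iter_mem p hp.out g hg b
  exact ⟨y, 1, by rw [hy, map_one, mul_one]⟩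

end MU3


end

section

/-!
# MUX, block K, MAINKX: the growth of the class numbers of `K₀ B_n` (helper32)
-/

set_option autoImplicit false

open NumberField IsDedekindDomain Finset Filter Topology
open scoped nonZeroDivisors Pointwise

namespace Pool.Agent.MUXK

open _root_.Pool.Agent.MU3 _root_.Pool.Agent.RI _root_.Pool.Agent.RID _root_.Pool.Agent.Lib_helper28.FROB

namespace K_MAINKX

/-- `(1 - X) ^ (p ^ N) = 1 - X ^ (p ^ N)` modulo `p`. -/
lemma poly_eq (p : ℕ) [hp : Fact p.Prime] (N : ℕ) :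
    ∃ s : Polynomial ℤ, (1 - Polynomial.X) ^ (p ^ N) =
      1 - Polynomial.X ^ (p ^ N) + (p : Polynomial ℤ) * s := by
  have h1 : ((1 - Polynomial.X : Polynomial (ZMod p))) ^ (p ^ N) =
      1 - Polynomial.X ^ (p ^ N) := by
    rw [sub_pow_char_pow, one_pow]
  have h2 : (Polynomial.C (p : ℤ)) ∣
      ((1 - Polynomial.X) ^ (p ^ N) - (1 - Polynomial.X ^ (p ^ N)) : Polynomial ℤ) := by
    rw [Polynomial.C_dvd_iff_dvd_coeff]
    intro i
    rw [← ZMod.intCast_zmod_eq_zero_iff_dvd]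
    have h3 : Polynomial.map (Int.castRingHom (ZMod p))
        ((1 - Polynomial.X) ^ (p ^ N) - (1 - Polynomial.X ^ (p ^ N)) : Polynomial ℤ) = 0 := by
      simp [h1]
    have h4 := congrArg (fun q => Polynomial.coeff q i) h3
    simp only [Polynomial.coeff_map, Polynomial.coeff_zero] at h4
    exact h4
  obtain ⟨s, hs⟩ := h2
  refine ⟨s, ?_⟩
  have h5 : (Polynomial.C (p : ℤ) : Polynomial ℤ) = (p : Polynomial ℤ) := by simp
  rw [h5] at hs
  rw [← hs]
  ring

lemma pow_eq {G A : Type} [Group G] [CommGroup A] [MulDistribMulAction G A] (p : ℕ)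
    [hp : Fact p.Prime] (N : ℕ) (g : G) (hg : g ^ (p ^ N) = 1) :
    ∃ r : AddMonoid.End (Additive A),
      (1 - MU3.RKA.gam g) ^ (p ^ N) = (p : AddMonoid.End (Additive A)) * r := by
  have h1 : (MU3.RKA.gam g ^ (p ^ N) : AddMonoid.End (Additive A)) = 1 := by
    ext x
    obtain ⟨x, rfl⟩ := Additive.ofMul.surjective x
    rw [MU3.RKA.gam_pow_apply, hg, one_smul]
    rfl
  obtain ⟨s, hs⟩ := poly_eq p N
  have h2 := congrArg (Polynomial.aeval (MU3.RKA.gam g : AddMonoid.End (Additive A))) hs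
  simp only [map_pow, map_add, map_mul, map_one, map_sub, Polynomial.aeval_X, map_natCast] at h2
  refine ⟨Polynomial.aeval (MU3.RKA.gam g : AddMonoid.End (Additive A)) s, ?_⟩
  rw [h2, h1, sub_self, zero_add]

lemma iter_mem {G A : Type} [Group G] [CommGroup A] [MulDistribMulAction G A] (p : ℕ)
    [hp : Fact p.Prime] (N : ℕ) (g : G) (hg : g ^ (p ^ N) = 1) (b : A) :
    ∃ y : A, (_root_.Pool.Agent.RID.dg g)^[p ^ N] b = y ^ p := by
  obtain ⟨r, hr⟩ := pow_eq (A := A) p N g hg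
  refine ⟨(r (Additive.ofMul b)).toMul, ?_⟩
  apply Additive.ofMul.injective
  rw [← MU3.RKA.one_sub_gam_pow_apply, hr, AddMonoid.End.coe_mul, Function.comp_apply,
    AddMonoid.End.natCast_apply]
  rfl

/-- A larger power fixes as well. -/
lemma fix_pow {G X : Type} [Monoid G] [MulAction G X] (p a b : ℕ) (hab : a ≤ b) (g : G) (x : X)
    (h : g ^ (p ^ a) • x = x) : g ^ (p ^ b) • x = x := by
  obtain ⟨c, rfl⟩ := Nat.exists_eq_add_of_le hab
  rw [pow_add, pow_mul]
  have : ∀ j : ℕ, (g ^ (p ^ a)) ^ j • x = x := by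
    intro j
    induction j with
    | zero => rw [pow_zero, one_smul]
    | succ j ih => rw [pow_succ, mul_smul, h, ih]
  exact this _

lemma finrank_mul {E E' : IntermediateField ℚ ℂ} (h : E ≤ E') [FiniteDimensional ℚ E'] :
    Module.finrank ℚ E * (letI := algC h; Module.finrank E E') = Module.finrank ℚ E' := by
  let _ := algC h
  have : IsScalarTower ℚ E E' := IsScalarTower.of_algebraMap_eq (fun _ => rfl)
  exact Pool.Agent.FX.fmul ℚ E E'

lemma finrank_quot {E E' : IntermediateField ℚ ℂ} (h : E ≤ E') [FiniteDimensional ℚ E']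
    (a b q : ℕ) (ha : 0 < a) (hq : 0 < q) (h1 : Module.finrank ℚ E = a * q)
    (h2 : Module.finrank ℚ E' = b * q) :
    (letI := algC h; Module.finrank E E') = b / a := by
  have h3 := finrank_mul h
  rw [h1, h2] at h3
  generalize (letI := algC h; Module.finrank E E') = t at h3 ⊢
  have h4 : a * t = b := by
    apply Nat.eq_of_mul_eq_mul_right hq
    rw [← h3]
    ring
  rw [← h4, Nat.mul_div_cancel_left _ ha]

lemma lift_pow {k E E' : IntermediateField ℚ ℂ} (h : k ≤ E) (h' : k ≤ E') (hh : E ≤ E') :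
    letI := algC h
    letI := algC h'
    ∀ (g : E ≃ₐ[k] E) (g' : E' ≃ₐ[k] E'),
    (∀ x : E, ((g' ⟨x, hh x.2⟩ : E') : ℂ) = (g x : E)) →
    ∀ (j : ℕ) (x : E), (((g' ^ j) ⟨x, hh x.2⟩ : E') : ℂ) = ((g ^ j) x : E) := by
  let _ := algC h
  let _ := algC h'
  intro g g' hg j
  induction j with
  | zero => intro x; rfl
  | succ j ih =>
    intro x
    rw [pow_succ, AlgEquiv.mul_apply, pow_succ, AlgEquiv.mul_apply, ← ih (g x)]
    congr 2
    exact Subtype.ext (hg x)

lemma triv_pow {k E : Type} [Field k] [Field E] [Algebra k E] (P : E → Prop) (g : E ≃ₐ[k] E)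
    (hg : ∀ x, P x → g x = x) : ∀ (j : ℕ) (x : E), P x → (g ^ j) x = x := by
  intro j x hx
  induction j with
  | zero => rfl
  | succ j ih => rw [pow_succ, AlgEquiv.mul_apply, hg x hx, ih]

lemma root {E : IntermediateField ℚ ℂ} [FiniteDimensional ℚ E] {q : ℕ} (hq : 0 < q) {ζ : ℂ}
    (hζE : ζ ∈ E) (hζ : IsPrimitiveRoot ζ q) : ∃ z : 𝓞 E, IsPrimitiveRoot z q := by
  have hζ1 : (⟨ζ, hζE⟩ : E) ^ q = 1 := Subtype.ext hζ.pow_eq_one
  have hint : IsIntegral ℤ (⟨ζ, hζE⟩ : E) := by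
    apply IsIntegral.of_pow hq
    rw [hζ1]
    exact isIntegral_one
  refine ⟨⟨⟨ζ, hζE⟩, hint⟩, ?_⟩
  refine IsPrimitiveRoot.mk_of_lt _ hq ?_ ?_
  · apply RingOfIntegers.ext
    exact hζ1
  · intro l hl0 hl h0
    have h13 : (⟨ζ, hζE⟩ : E) ^ l = 1 := congrArg (fun x : 𝓞 E => (x : E)) h0
    have h14 : ζ ^ l = 1 := congrArg Subtype.val h13
    exact hζ.pow_ne_one_of_pos_of_lt hl0.ne' hl h14

end K_MAINKX

open _root_.Pool.Agent.MUXK.K_MAINKX in
theorem t_MAINKX (h1 : S_GALX) (h2 : S_TWX) (h3 : S_LFX) (h4 : S_M0X) (h5 : S_RAMX)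
    (h6 : S_KOLX) (h7 : S_SU0) (h8 : S_I3X) (h9 : S_NILP) (h10 : S_FINX) : S_MAINKX := by
  intro F _ p hp _ _ k K₀ K B _ _ _ hX hk hk₀ hkK S c c₀ n₁ hI
  have hh : ∀ n, K₀ ⊔ B n ≤ K ⊔ B n := fun n => sup_le_sup_right hX.le _
  have hfd : ∀ {E E' : IntermediateField ℚ ℂ}, E ≤ E' → FiniteDimensional ℚ E' →
      FiniteDimensional ℚ E := by
    intro E E' hle hE'
    exact FiniteDimensional.of_injective (IntermediateField.inclusion hle).toLinearMap
      (IntermediateField.inclusion hle).injective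
  haveI hfd₀ : FiniteDimensional ℚ K₀ := hfd hX.le inferInstance
  haveI hfdn : ∀ n, FiniteDimensional ℚ ↥(K₀ ⊔ B n) := fun n => hfd (hh n) inferInstance
  obtain ⟨S', h2S', hpS', hS'p, kol⟩ := h6 F p k K₀ K B hX
  obtain ⟨Sa, h2Sa, hpSa, hSap, rama⟩ := h5 p k K₀ B hX.b0
  set S₁ : Finset ℕ := (S ∪ S') ∪ Sa with hS₁
  have hS₁p : ∀ ℓ ∈ S₁, ℓ.Prime := by
    intro ℓ hℓ
    rcases Finset.mem_union.1 hℓ with h | h
    · rcases Finset.mem_union.1 h with h | h
      · exact hI.prime ℓ h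
      · exact hS'p ℓ h
    · exact hSap ℓ h
  have h2S₁ : 2 ∈ S₁ := Finset.mem_union_right _ h2Sa
  have hpS₁ : p ∈ S₁ := Finset.mem_union_right _ hpSa
  obtain ⟨ma, hma⟩ := h4 p k K B hX.b S₁ hS₁p
  obtain ⟨mb, hmb⟩ := h4 p k K₀ B hX.b0 S₁ hS₁p
  set m₀ : ℕ := max ma mb with hm₀
  obtain ⟨m, hmn₁, hm⟩ := h8 F p k K₀ K B hX hk hk₀ hh hkK S c c₀ n₁ hI m₀
  set d : ℕ := Module.finrank ℚ K / Module.finrank ℚ K₀ with hd
  refine h10 p (p ^ (max m m₀ + 1) + 1 + d) k K₀ B hX.b0.hk hX.b0.deg hX.b0.lay hX.b0.mono ?_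
  intro n h
  letI : Algebra k ↥(K₀ ⊔ B n) := algC h
  intro g hg b
  have tw := h2 p k K₀ B hX.b0 hX.cop n h g hg
  rcases lt_or_ge n m with hnm | hmn
  · have hle : n ≤ max m m₀ + 1 := (hnm.le.trans (le_max_left _ _)).trans (Nat.le_succ _)
    have h11 : g ^ (p ^ (max m m₀ + 1)) = 1 := by
      rw [← orderOf_dvd_iff_pow_eq_one, tw.ord]
      exact pow_dvd_pow p hle
    obtain ⟨y, hy⟩ := iter_mem p (max m m₀ + 1) g h11 ((_root_.Pool.Agent.RID.dg g)^[1] ((_root_.Pool.Agent.RID.dg g)^[d] b))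
    refine ⟨y, 1, ?_⟩
    rw [Function.iterate_add_apply, Function.iterate_add_apply, hy, map_one, mul_one]
  · letI : Algebra k ↥(K ⊔ B n) := algC (hk n)
    letI : Algebra ↥(K₀ ⊔ B n) ↥(K ⊔ B n) := algC (hh n)
    haveI := Pool.Agent.FX.tower k ↥(K₀ ⊔ B n) ↥(K ⊔ B n) (fun _ => rfl)
    obtain ⟨gal₀, -⟩ := h1 p k K₀ B hX.b0 n h
    obtain ⟨gal, -⟩ := h1 p k K B hX.b n (hk n)
    have hn₁ : n₁ ≤ n := hmn₁.trans hmn
    obtain ⟨hc0, hsu0⟩ := h7 F p k K₀ K B hX hk hk₀ hkK S c c₀ n₁ hI n hn₁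
    have hcn : (⟨c₀ n, hI.mem₀ n⟩ : ↥(K₀ ⊔ B n)) ≠ 0 := by
      intro h0
      exact hc0 (congrArg Subtype.val h0)
    have hSS₁ : S ⊆ S₁ := fun x hx => Finset.mem_union_left _ (Finset.mem_union_left _ hx)
    have su1 := (t_MONO k ↥(K₀ ⊔ B n) S S₁ hSS₁ ⟨c₀ n, hI.mem₀ n⟩).1 hsu0
    obtain ⟨γ', hγ1, hγ2⟩ := h3 p k K₀ K B hX.b0 hX.b hX.le n (hk n) h (hh n) g
      (fun x hx => (hg x).2 hx)
    have hpow1 := triv_pow (fun x : ↥(K ⊔ B n) => (x : ℂ) ∈ K) γ' hγ1
    have hpow2 := lift_pow h (hk n) (hh n) g γ' hγ2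
    have hfix : ∀ v : HeightOneSpectrum (𝓞 ↥(K₀ ⊔ B n)), Above S₁ v →
        g ^ (p ^ m₀) • v.asIdeal = v.asIdeal := by
      intro v hv
      exact fix_pow p mb m₀ (le_max_right _ _) g v.asIdeal
        (hmb n h g (fun x hx => (hg x).2 hx) v hv)
    have hfix' : ∀ v : HeightOneSpectrum (𝓞 ↥(K ⊔ B n)), Above S₁ v →
        γ' ^ (p ^ m₀) • v.asIdeal = v.asIdeal := by
      intro v hv
      exact fix_pow p ma m₀ (le_max_left _ _) γ' v.asIdeal (hma n (hk n) γ' hγ1 v hv)
    obtain ⟨u, hu⟩ := t_UNI k ↥(K₀ ⊔ B n) S₁ ⟨c₀ n, hI.mem₀ n⟩ hcn su1 (g ^ (p ^ m₀)) hfix p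
    have hrel := kol hk hk₀ hh hkK S c c₀ n₁ hI S₁ Finset.subset_union_left hS₁p n hn₁ (g ^ (p ^ m₀))
      (γ' ^ (p ^ m₀)) (hpow1 _) (hpow2 _) hfix' u hu
    have hfinNC : Finite (NC h (B n)) := inferInstance
    letI : Fintype (NC h (B n)) := Fintype.ofFinite _
    obtain ⟨ζ, hζK, hζ⟩ := hX.ze
    obtain ⟨z, hz⟩ := root (E := K ⊔ B n) (q := 2 * p) (by have := hp.out.pos; omega)
      ((le_sup_left : K ≤ K ⊔ B n) hζK) hζ
    have hfin : Module.finrank ↥(K₀ ⊔ B n) ↥(K ⊔ B n) = d :=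
      finrank_quot (hh n) _ _ (p ^ n) Module.finrank_pos (pow_pos hp.out.pos n) (hX.b0.deg n)
        (hX.b.deg n)
    have hmain := h9 p F k ↥(K₀ ⊔ B n) ↥(K ⊔ B n) n m m₀ g (NC h (B n)) tw hmn S₁
      z hz h2S₁ hpS₁ hS₁p (rama S₁ Finset.subset_union_right n h) hfix u hrel
      (hm n hmn g hg u hu) b
    rw [hfin] at hmain
    exact hmain

end Pool.Agent.MUXK


end

section

/-!
# MUX, block K: module KOLX (helper42)
-/

set_option autoImplicit false

open NumberField IsDedekindDomain Finset Filter Topology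
open scoped nonZeroDivisors Pointwise

namespace Pool.Agent.MUXK

open _root_.Pool.Agent.MU3 _root_.Pool.Agent.RI _root_.Pool.Agent.RID _root_.Pool.Agent.Lib_helper28.FROB

namespace K_KOLX

/-- The inputs for a larger set of primes. -/
theorem kol_mono {p : ℕ} {k L : Type} [Field k] [NumberField k] [Field L] [NumberField L]
    [Algebra k L] {Gs : Set (L ≃ₐ[k] L)} {S S' : Finset ℕ} (h : S ⊆ S') {c : L}
    (hK : KolInP p k L Gs S c) : KolInP p k L Gs S' c := by
  intro lam q hq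
  obtain ⟨F, i1, i2, i3, i4, i5, hG, hc, hf, hu, hr, z, hz, hn, hv⟩ := hK lam q
    { prime := hq.prime
      notin := fun hS => hq.notin (h hS)
      dvd := hq.dvd
      card := hq.card
      free := hq.free }
  exact ⟨F, i1, i2, i3, i4, i5, hG, hc, hf, fun w hw => hu w (P_MONO.above h hw), hr, z,
    P_MONO.su h hz, hn, hv⟩

/-- The norm commutes with compatible automorphisms. -/
theorem norm_comp {k L M : Type} [Field k] [Field L] [Field M] [Algebra k L] [Algebra L M]
    [Algebra k M] [IsScalarTower k L M] [FiniteDimensional L M] [IsGalois L M]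
    (comm : ∀ σ τ : M ≃ₐ[k] M, σ * τ = τ * σ) (g : L ≃ₐ[k] L) (g' : M ≃ₐ[k] M)
    (hg : ∀ x : L, algebraMap L M (g x) = g' (algebraMap L M x)) (x : M) :
    Algebra.norm L (g' x) = g (Algebra.norm L x) := by
  apply (algebraMap L M).injective
  rw [hg, Algebra.norm_eq_prod_automorphisms, Algebra.norm_eq_prod_automorphisms, map_prod]
  refine Finset.prod_congr rfl fun σ _ => ?_
  have h1 := congrArg (fun τ : M ≃ₐ[k] M => τ x) (comm (σ.restrictScalars k) g')
  simpa using h1

theorem norm_comp_pow {k L M : Type} [Field k] [Field L] [Field M] [Algebra k L] [Algebra L M]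
    [Algebra k M] [IsScalarTower k L M] [FiniteDimensional L M] [IsGalois L M]
    (comm : ∀ σ τ : M ≃ₐ[k] M, σ * τ = τ * σ) (g : L ≃ₐ[k] L) (g' : M ≃ₐ[k] M)
    (hg : ∀ x : L, algebraMap L M (g x) = g' (algebraMap L M x)) (x : M) (j : ℕ) :
    Algebra.norm L ((g' ^ j) x) = (g ^ j) (Algebra.norm L x) := by
  induction j with
  | zero => simp
  | succ j ih =>
    rw [pow_succ', pow_succ', AlgEquiv.mul_apply, AlgEquiv.mul_apply, norm_comp comm g g' hg, ih]

end K_KOLX

open _root_.Pool.Agent.MUXK.K_KOLX in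
theorem t_KOLX (h1 : S_KINX) (h2 : S_KNM) (h3 : S_GALX) (h4 : S_RAMX) : S_KOLX := by
  intro F _ p _ k K₀ K B _ _ _ _ hS
  obtain ⟨S', h2S', hpS', hS'p, hram⟩ := h4 p k K B hS.b
  refine ⟨S', h2S', hpS', hS'p, ?_⟩
  intro hk hk₀ hh hkK S c c₀ n₁ hI S₁ hSS hS₁p n hn
  let : Algebra k ↥(K ⊔ B n) := algC (hk n)
  let : Algebra k ↥(K₀ ⊔ B n) := algC (hk₀ n)
  let : Algebra ↥(K₀ ⊔ B n) ↥(K ⊔ B n) := algC (hh n)
  intro g g' hg'K hgg' hfix u hu
  have tower := Pool.Agent.FX.tower k ↥(K₀ ⊔ B n) ↥(K ⊔ B n) (fun x => rfl)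
  have fdK₀ : FiniteDimensional ℚ ↥K₀ :=
    FiniteDimensional.of_injective (IntermediateField.inclusion hS.le).toLinearMap
      (IntermediateField.inclusion_injective hS.le)
  obtain ⟨galM, commM⟩ := h3 p k K B hS.b n (hk n)
  obtain ⟨galL, commL⟩ := h3 p k K₀ B hS.b0 n (hk₀ n)
  have hp : p.Prime := Fact.out
  have hsub : S ⊆ S₁ := Finset.subset_union_left.trans hSS
  have hsub' : S' ⊆ S₁ := Finset.subset_union_right.trans hSS
  have hcn : (⟨c n, hI.mem n⟩ : ↥(K ⊔ B n)) ≠ 0 := by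
    intro h0
    exact hI.ne n (congrArg Subtype.val h0)
  have su1 : SU S₁ ↥(K ⊔ B n) ⟨c n, hI.mem n⟩ := P_MONO.su hsub (hI.su n hn)
  have kol1 := kol_mono hsub (hI.kol n hn)
  obtain ⟨u', hu'⟩ := t_UNI k ↥(K ⊔ B n) S₁ ⟨c n, hI.mem n⟩ hcn su1 g' hfix p
  have hrel := h1 p k ↥(K ⊔ B n) commM S₁ (hsub' hpS') ⟨c n, hI.mem n⟩ hcn su1 _ kol1 g' hg'K
    hfix u' hu'
  have galLM : IsGalois ↥(K₀ ⊔ B n) ↥(K ⊔ B n) :=
    IsGalois.tower_top_of_isGalois k ↥(K₀ ⊔ B n) ↥(K ⊔ B n)
  have fdLM : FiniteDimensional ↥(K₀ ⊔ B n) ↥(K ⊔ B n) := inferInstance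
  have hgg : ∀ x : ↥(K₀ ⊔ B n), algebraMap ↥(K₀ ⊔ B n) ↥(K ⊔ B n) (g x) =
      g' (algebraMap ↥(K₀ ⊔ B n) ↥(K ⊔ B n) x) := fun x => Subtype.ext (hgg' x).symm
  have hnorm : Algebra.norm ↥(K₀ ⊔ B n) (⟨c n, hI.mem n⟩ : ↥(K ⊔ B n)) = ⟨c₀ n, hI.mem₀ n⟩ := by
    apply (algebraMap ↥(K₀ ⊔ B n) ↥(K ⊔ B n)).injective
    rw [Algebra.norm_eq_prod_automorphisms]
    apply Subtype.ext
    have e1 : ((algebraMap ↥(K₀ ⊔ B n) ↥(K ⊔ B n) ⟨c₀ n, hI.mem₀ n⟩ : ↥(K ⊔ B n)) : ℂ) = c₀ n := rfl
    have e2 : ((∏ σ : ↥(K ⊔ B n) ≃ₐ[↥(K₀ ⊔ B n)] ↥(K ⊔ B n), σ ⟨c n, hI.mem n⟩ : ↥(K ⊔ B n)) : ℂ) =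
        ∏ σ : ↥(K ⊔ B n) ≃ₐ[↥(K₀ ⊔ B n)] ↥(K ⊔ B n), ((σ ⟨c n, hI.mem n⟩ : ↥(K ⊔ B n)) : ℂ) :=
      map_prod (algebraMap ↥(K ⊔ B n) ℂ) _ _
    rw [e1, e2, hI.norm n, ← finprod_eq_prod_of_fintype]
    refine finprod_eq_of_bijective
      (fun σ => ⟨σ.restrictScalars k, fun x hx => σ.commutes ⟨(x : ℂ), hx⟩⟩) ⟨?_, ?_⟩ fun σ => rfl
    · intro σ τ h
      have h5 := congrArg (fun θ : NC (hk n) (K₀ ⊔ B n) => (θ : ↥(K ⊔ B n) ≃ₐ[k] ↥(K ⊔ B n))) h
      ext x
      have h6 := congrArg (fun θ : ↥(K ⊔ B n) ≃ₐ[k] ↥(K ⊔ B n) => ((θ x : ↥(K ⊔ B n)) : ℂ)) h5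
      exact h6
    · intro θ
      refine ⟨AlgEquiv.ofRingEquiv (f := ((θ : ↥(K ⊔ B n) ≃ₐ[k] ↥(K ⊔ B n)) : ↥(K ⊔ B n) ≃+* ↥(K ⊔ B n)))
        (fun y => θ.2 _ y.2), ?_⟩
      apply Subtype.ext
      ext x
      rfl
  have hnu : ((u : 𝓞 ↥(K₀ ⊔ B n)) : ↥(K₀ ⊔ B n)) =
      Algebra.norm ↥(K₀ ⊔ B n) ((u' : 𝓞 ↥(K ⊔ B n)) : ↥(K ⊔ B n)) := by
    have hc0 : (⟨c₀ n, hI.mem₀ n⟩ : ↥(K₀ ⊔ B n)) ≠ 0 := by
      rw [← hnorm]
      exact Algebra.norm_ne_zero_iff.2 hcn
    rw [hu, div_eq_iff hc0, ← hnorm, ← norm_comp_pow commM g g' hgg, ← map_mul, hu',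
      div_mul_cancel₀ _ hcn]
  obtain ⟨ζ, hζK, hζ⟩ := hS.ze
  have hζL : ζ ∈ K ⊔ B n := (le_sup_left : K ≤ K ⊔ B n) hζK
  have h2p : NeZero (2 * p) := ⟨by have := hp.pos; omega⟩
  have hζ' : IsPrimitiveRoot (⟨ζ, hζL⟩ : ↥(K ⊔ B n)) (2 * p) := by
    refine IsPrimitiveRoot.of_map_of_injective (f := algebraMap ↥(K ⊔ B n) ℂ) ?_ ?_
    · exact hζ
    · exact (algebraMap ↥(K ⊔ B n) ℂ).injective
  exact h2 p k ↥(K₀ ⊔ B n) ↥(K ⊔ B n) commM S₁ hζ'.toInteger hζ'.toInteger_isPrimitiveRoot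
    (hsub' h2S') (hsub' hpS') hS₁p (hram S₁ hsub' n (hk n)) u' u hnu hrel

end Pool.Agent.MUXK


end

section

/-!
# MUX, block K, module KINX: the Kolyvagin step for a prime number `p`

The version of `Pool/Agent/MU3/KIN.lean` (helper80) for a prime number `p` in place of `3`.
-/

set_option autoImplicit false

open NumberField IsDedekindDomain
open scoped nonZeroDivisors Pointwise

namespace Pool.Agent.MUXK

open _root_.Pool.Agent.MU3 _root_.Pool.Agent.RI _root_.Pool.Agent.MU3.K1M _root_.Pool.Agent.MU3.KIN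

namespace KINX

section val

variable {F Γ : Type} [Field F] [LinearOrderedCommGroupWithZero Γ] {v : Valuation F Γ} {x a : F}
  {p : ℕ}

theorem ne_zero_of_pow (hp : p.Prime) (hap : One1 v (a ^ p)) : a ≠ 0 := by
  rintro rfl
  have := hap.ne
  rw [zero_pow hp.ne_zero] at this
  exact this rfl

theorem val_of_pow (hp : p.Prime) (hap : One1 v (a ^ p)) : v a = 1 := by
  have := hap.val
  rw [map_pow] at this
  exact (pow_eq_one_iff_of_nonneg zero_le hp.ne_zero).1 this

/-- powers of `a` which are one-units -/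
theorem pow_dvd (hp : p.Prime) (hap : One1 v (a ^ p)) (ha1 : ¬ One1 v a) {n : ℤ}
    (h : One1 v (a ^ n)) : (p : ℤ) ∣ n := by
  by_contra hn
  have h0 := ne_zero_of_pow hp hap
  have hco : IsCoprime (p : ℤ) n :=
    (Prime.coprime_iff_not_dvd (Nat.prime_iff_prime_int.1 hp)).2 hn
  obtain ⟨r, s, hrs⟩ := hco
  apply ha1
  have h1 := (hap.zpow r).mul (h.zpow s)
  have e : (a ^ p) ^ r * (a ^ n) ^ s = a := by
    rw [← zpow_natCast a p, ← zpow_mul, ← zpow_mul, ← zpow_add₀ h0]
    have e1 : (p : ℤ) * r + n * s = 1 := by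
      rw [← hrs]
      ring
    rw [e1, zpow_one]
  rwa [e] at h1

/-- the `p`-th roots of unity modulo one-units -/
theorem roots (hp : p.Prime) (hap : One1 v (a ^ p)) (ha1 : ¬ One1 v a) (hx : One1 v (x ^ p)) :
    ∃ i < p, One1 v (x / a ^ i) := by
  have hva := val_of_pow hp hap
  have hvx := val_of_pow hp hx
  have hNe : NeZero p := ⟨hp.ne_zero⟩
  have hFact : Fact p.Prime := ⟨hp⟩
  set A := v.valuationSubring with hA
  have hmem : ∀ z : F, v z = 1 → z ∈ A := by
    intro z hz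
    rw [hA, Valuation.mem_valuationSubring_iff, hz]
  have hlt : ∀ z : A, z ∈ IsLocalRing.maximalIdeal A ↔ v (z : F) < 1 := by
    intro z
    rw [ValuationSubring.valuation_lt_one_iff]
    exact (v.isEquiv_valuation_valuationSubring.symm.lt_one_iff_lt_one)
  have hres : ∀ z z' : A, IsLocalRing.residue A z = IsLocalRing.residue A z' ↔
      v ((z : F) - (z' : F)) < 1 := by
    intro z z'
    rw [← sub_eq_zero, ← map_sub, IsLocalRing.residue_eq_zero_iff, hlt]
    rfl
  set a' : A := ⟨a, hmem a hva⟩ with ha'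
  set x' : A := ⟨x, hmem x hvx⟩ with hx'
  have hza : (IsLocalRing.residue A a') ^ p = 1 := by
    rw [← map_pow, ← map_one (IsLocalRing.residue A), hres]
    exact hap
  have hzx : (IsLocalRing.residue A x') ^ p = 1 := by
    rw [← map_pow, ← map_one (IsLocalRing.residue A), hres]
    exact hx
  have hza1 : IsLocalRing.residue A a' ≠ 1 := by
    rw [← map_one (IsLocalRing.residue A), Ne, hres]
    exact ha1
  have hprim : IsPrimitiveRoot (IsLocalRing.residue A a') p :=
    IsPrimitiveRoot.iff_orderOf.2 (orderOf_eq_prime hza hza1)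
  obtain ⟨i, hi, hix⟩ := hprim.eq_pow_of_pow_eq_one hzx
  refine ⟨i, hi, ?_⟩
  rw [one1_div (by rw [map_pow, hva, one_pow])]
  rw [← map_pow, eq_comm, hres] at hix
  exact hix

end val

section loc

variable {L F : Type} [Field L] [NumberField L] [Field F] [NumberField F] [Algebra L F]

/-- the local symbol: for `F/L` of degree `p`, totally ramified at `w`, and `a` a root of
unity of order `p` modulo `w`, `y / τ y` is a power of `a` modulo one-units, with exponent
`s cnt w y` -/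
theorem local_symbol {p : ℕ} (hp : p.Prime) [IsGalois L F] (hdeg : Module.finrank L F = p)
    {w : HeightOneSpectrum (𝓞 F)}
    (hw : w.asIdeal.ramificationIdx (𝓞 L) = p) {τ : F ≃ₐ[L] F} {a : F}
    (hap : One1 (w.valuation F) (a ^ p)) (ha1 : ¬ One1 (w.valuation F) a) :
    ∃ s : ℕ, ∀ y : Fˣ, One1 (w.valuation F) (((y : F) / τ (y : F)) / a ^ ((s : ℤ) * cnt w y)) := by
  have hw' : w.asIdeal.ramificationIdx (𝓞 L) = Module.finrank L F := by rw [hw, hdeg]
  have ht := inertia_top w hw' τ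
  obtain ⟨π, hπ⟩ := exists_unif w
  have y0 : ∀ y : Fˣ, (y : F) ≠ 0 := fun y => y.ne_zero
  have ty0 : ∀ y : Fˣ, τ (y : F) ≠ 0 := fun y => (map_ne_zero τ).2 y.ne_zero
  set θ : F := (π : F) / τ (π : F) with hθ
  have hθ0 : θ ≠ 0 := div_ne_zero (y0 π) (ty0 π)
  -- the value depends only on the exponent
  have key : ∀ y : Fˣ, One1 (w.valuation F) (((y : F) / τ (y : F)) / θ ^ (cnt w y)) := by
    intro y
    have h1 : cnt w (y / π ^ (cnt w y)) = 0 := by
      rw [cnt_div, cnt_zpow, hπ]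
      ring
    have h2 := triv_unit ht h1
    have e : ((y / π ^ (cnt w y) : Fˣ) : F) / τ ((y / π ^ (cnt w y) : Fˣ) : F) =
        ((y : F) / τ (y : F)) / θ ^ (cnt w y) := by
      rw [Units.val_div_eq_div_val, Units.val_zpow_eq_zpow_val, map_div₀, map_zpow₀, hθ, div_zpow]
      have p1 := zpow_ne_zero (cnt w y) (y0 π)
      have p2 := zpow_ne_zero (cnt w y) (ty0 π)
      have p3 := y0 y
      have p4 := ty0 y
      field_simp
    rwa [e] at h2
  -- the `p`-th power
  have hcube : One1 (w.valuation F) (θ ^ p) := by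
    obtain ⟨x, hx⟩ := exists_unif (w.under (𝓞 L))
    have h1 := cnt_ext w (w.under (𝓞 L)) rfl x
    rw [hw, hx] at h1
    have h2 := key (Units.map (algebraMap L F : L →* F) x)
    rw [h1] at h2
    have e : ((Units.map (algebraMap L F : L →* F) x : Fˣ) : F) /
        τ ((Units.map (algebraMap L F : L →* F) x : Fˣ) : F) = 1 := by
      have e1 : τ ((Units.map (algebraMap L F : L →* F) x : Fˣ) : F) =
          ((Units.map (algebraMap L F : L →* F) x : Fˣ) : F) := τ.commutes (x : L)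
      rw [e1, div_self (Units.ne_zero _)]
    rw [e] at h2
    have h3' := h2.inv
    rw [one_div, inv_inv] at h3'
    have e3 : θ ^ ((p : ℤ) * 1) = θ ^ p := by
      rw [mul_one, zpow_natCast]
    rwa [e3] at h3'
  obtain ⟨i, -, hi⟩ := roots hp hap ha1 hcube
  refine ⟨i, fun y => ?_⟩
  have h1 := (key y).mul (hi.zpow (cnt w y))
  have e : ((y : F) / τ (y : F)) / θ ^ (cnt w y) * (θ / a ^ i) ^ (cnt w y) =
      ((y : F) / τ (y : F)) / a ^ ((i : ℤ) * cnt w y) := by
    have e1 : a ^ ((i : ℤ) * cnt w y) = (a ^ i) ^ (cnt w y) := by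
      rw [zpow_mul, zpow_natCast]
    rw [div_zpow θ (a ^ i), e1, div_mul_div_cancel₀ (zpow_ne_zero (cnt w y) hθ0)]
  rwa [e] at h1

end loc

section ideals

variable {L : Type} [Field L] [NumberField L]

/-- decomposition: exponents divisible by `p` outside `S` -/
theorem decomp {p : ℕ} {S : Finset ℕ} {X : J L} (h : ∀ v : HeightOneSpectrum (𝓞 L),
    ¬ Above S v → (p : ℤ) ∣ cntJ v X) : ∃ I s : J L, s ∈ SJ S L ∧ X = I ^ p * s := by
  classical
  have hfin : {v : HeightOneSpectrum (𝓞 L) | cntJ v X ≠ 0}.Finite := by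
    have := FractionalIdeal.finite_factors (X : FractionalIdeal (𝓞 L)⁰ L)
    rwa [Filter.eventually_cofinite] at this
  obtain ⟨I, hI⟩ := INVI.exists_count L (fun v => if Above S v then 0 else cntJ v X / p)
    (hfin.subset (by
      intro v hv
      simp only [ne_eq, Set.mem_ofPred_eq] at hv ⊢
      intro h0
      apply hv
      split_ifs
      · rfl
      · rw [h0, Int.zero_ediv]))
  have hI' : ∀ v, cntJ v I = if Above S v then 0 else cntJ v X / p := hI
  refine ⟨I, X * (I ^ p)⁻¹, mem_SJ fun v hv => ?_, ?_⟩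
  · rw [cntJ_mul, cntJ_inv, cntJ_pow, hI' v, if_neg hv, Int.mul_ediv_cancel' (h v hv)]
    exact add_neg_cancel _
  · rw [mul_comm X, mul_inv_cancel_left]

end ideals

section auts

variable {L F : Type} [Field L] [Field F] [Algebra L F] [FiniteDimensional L F] [IsGalois L F]

/-- the product over the Galois group -/
theorem prod_aut {p : ℕ} (hp : p.Prime) (hdeg : Module.finrank L F = p) {τ : F ≃ₐ[L] F}
    (hτ : τ ≠ 1) (x : Fˣ) :
    ∏ σ : F ≃ₐ[L] F, σ • x = ∏ i ∈ Finset.range p, τ ^ i • x := by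
  classical
  have : Fact (Nat.Prime p) := ⟨hp⟩
  have hcard : Nat.card (F ≃ₐ[L] F) = p := by
    rw [IsGalois.card_aut_eq_finrank, hdeg]
  have hgen : ∀ σ : F ≃ₐ[L] F, σ ∈ Subgroup.zpowers τ := fun σ => mem_zpowers_of_prime_card hcard hτ
  have hord : orderOf τ = p := by
    rw [orderOf_eq_card_of_forall_mem_zpowers hgen, hcard]
  symm
  refine Finset.prod_bij (fun i _ => τ ^ i) (fun _ _ => Finset.mem_univ _) ?_ ?_ (fun _ _ => rfl)
  · intro a ha b hb hab
    rw [Finset.mem_range, ← hord] at ha hb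
    exact pow_injOn_Iio_orderOf ha hb hab
  · intro σ _
    have hmem : σ ∈ Submonoid.powers τ :=
      (isOfFinOrder_of_finite τ).mem_powers_iff_mem_zpowers.2 (hgen σ)
    obtain ⟨i, hi⟩ := Submonoid.mem_powers_iff σ τ |>.1 hmem
    refine ⟨i % orderOf τ, Finset.mem_range.2 ?_, ?_⟩
    · rw [hord]
      exact Nat.mod_lt _ hp.pos
    · rw [pow_mod_orderOf, hi]

/-- the norm -/
theorem norm_aut {p : ℕ} (hp : p.Prime) (hdeg : Module.finrank L F = p) {τ : F ≃ₐ[L] F}
    (hτ : τ ≠ 1) (x : Fˣ) :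
    Units.map (algebraMap L F : L →* F) (Units.map (Algebra.norm L : F →* L) x) =
      ∏ i ∈ Finset.range p, τ ^ i • x := by
  rw [← prod_aut hp hdeg hτ]
  apply Units.ext
  change algebraMap L F (Algebra.norm L (x : F)) = _
  rw [Algebra.norm_eq_prod_automorphisms, Units.coe_prod]
  rfl

end auts

section main

variable {k L F : Type} [Field k] [NumberField k] [Field L] [NumberField L] [Field F]
  [NumberField F] [Algebra k L] [Algebra L F] [Algebra k F] [IsScalarTower k L F]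

/-- a prime of `F` above `S` is fixed by the `p`-th power of a lift of an automorphism of `L` which
fixes the primes above `S` -/
theorem fix_pow {p : ℕ} [IsGalois L F] [FiniteDimensional L F] (hdeg : Module.finrank L F = p)
    (hcomm : ∀ σ τ : F ≃ₐ[k] F, σ * τ = τ * σ) {S : Finset ℕ} {g : L ≃ₐ[k] L}
    (hg : ∀ v : HeightOneSpectrum (𝓞 L), Above S v → g • v.asIdeal = v.asIdeal) {g' : F ≃ₐ[k] F}
    (hg' : ∀ x : L, algebraMap L F (g x) = g' (algebraMap L F x)) {w : HeightOneSpectrum (𝓞 F)}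
    (hw : Above S w) : mv (g' ^ p) w = w := by
  set v := w.under (𝓞 L) with hv
  have hvS : Above S v := (above_under w v rfl).1 hw
  have h1 : (mv g' w).asIdeal.under (𝓞 L) = v.asIdeal := by
    rw [under_mv g' g hg' w v rfl]
    exact hg v hvS
  have hlo : w.asIdeal.LiesOver v.asIdeal := ⟨rfl⟩
  have hlo' : (mv g' w).asIdeal.LiesOver v.asIdeal := ⟨h1.symm⟩
  have hwp : w.asIdeal.IsPrime := w.isPrime
  have hwp' : (mv g' w).asIdeal.IsPrime := (mv g' w).isPrime
  obtain ⟨τ, hτ⟩ := Ideal.exists_smul_eq_of_isGaloisGroup v.asIdeal w.asIdeal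
    (mv g' w).asIdeal (F ≃ₐ[L] F)
  set T : F ≃ₐ[k] F := τ.restrictScalars k with hT
  have h2 : mv g' w = mv T w := by
    apply HeightOneSpectrum.ext
    rw [← hτ]
    rfl
  have hTn : ∀ (n : ℕ) (x : F), (T ^ n) x = (τ ^ n) x := by
    intro n
    induction n with
    | zero => intro x; rfl
    | succ n ih =>
      intro x
      rw [pow_succ, pow_succ]
      exact ih (τ x)
  have hTp : T ^ p = 1 := by
    have h3 : τ ^ p = 1 := by
      have h4 : Nat.card (F ≃ₐ[L] F) = p := by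
        rw [IsGalois.card_aut_eq_finrank, hdeg]
      rw [← h4]
      exact pow_card_eq_one'
    apply AlgEquiv.ext
    intro x
    rw [hTn, h3]
    rfl
  have h3 : ∀ n : ℕ, mv (g' ^ n) w = mv (T ^ n) w := by
    intro n
    induction n with
    | zero => rw [pow_zero, pow_zero]
    | succ n ih =>
      rw [pow_succ, mv_mul, h2, ← mv_mul, hcomm, mv_mul, ih, ← mv_mul, ← pow_succ']
  rw [h3, hTp, mv_one]

theorem cnt_prod {ι : Type} (w : HeightOneSpectrum (𝓞 F)) (s : Finset ι) (f : ι → Fˣ) :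
    cnt w (∏ i ∈ s, f i) = ∑ i ∈ s, cnt w (f i) := by
  classical
  induction s using Finset.induction_on with
  | empty => rw [Finset.prod_empty, Finset.sum_empty, cnt_one]
  | insert i s hi ih => rw [Finset.prod_insert hi, Finset.sum_insert hi, cnt_mul, ih]

omit [NumberField L] in
theorem cnt_prodp {p : ℕ} (τ : F ≃ₐ[L] F) (Y : Fˣ)
    (h : ∀ w : HeightOneSpectrum (𝓞 F), cnt w (τ • Y) = cnt w Y)
    (w : HeightOneSpectrum (𝓞 F)) :
    cnt w (∏ i ∈ Finset.range p, τ ^ i • Y) = p * cnt w Y := by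
  have h1 : ∀ (i : ℕ) (w : HeightOneSpectrum (𝓞 F)), cnt w (τ ^ i • Y) = cnt w Y := by
    intro i
    induction i with
    | zero =>
      intro w
      rw [pow_zero, one_smul]
    | succ i ih =>
      intro w
      rw [pow_succ', mul_smul, cnt_mv', ih, ← cnt_mv', h]
  rw [cnt_prod, Finset.sum_congr rfl fun i _ => h1 i w, Finset.sum_const, Finset.card_range,
    nsmul_eq_mul]

end main

end KINX

open _root_.Pool.Agent.MUXK.KINX in
/-- KINX: the Kolyvagin step. -/
theorem t_KINX : S_KINX := by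
  classical
  intro p hFact k L _ _ _ _ _ _ _ S hSp c hc0 hSU Gs hK g hgG hg u hu lam q hgood a hap ha1 b hb
  have hp : p.Prime := hFact.out
  obtain ⟨F, _, _, _, _, _, hgalF, hcomm, hdeg, hunr, hram, z, hzS, hy, hzc⟩ :=
    hK lam q hgood
  have hgalLF : IsGalois L F := IsGalois.tower_top_of_isGalois k L F
  have hfinLF : FiniteDimensional L F := Module.finite_of_finrank_pos (by rw [hdeg]; exact hp.pos)
  have hcardLF : Nat.card (F ≃ₐ[L] F) = p := by rw [IsGalois.card_aut_eq_finrank, hdeg]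
  obtain ⟨τ, hτ⟩ : ∃ τ : F ≃ₐ[L] F, τ ≠ 1 := by
    by_contra hcon
    push Not at hcon
    have : Subsingleton (F ≃ₐ[L] F) := ⟨fun a b => by rw [hcon a, hcon b]⟩
    have := Nat.card_of_subsingleton (1 : F ≃ₐ[L] F)
    rw [hcardLF] at this
    exact hp.ne_one this
  -- the prime number `q`
  have hqlam : (q : 𝓞 L) ∈ lam.asIdeal := by
    have h1 := Ideal.absNorm_mem lam.asIdeal
    rw [Ideal.absNorm_apply, Submodule.cardQuot_apply] at h1
    rw [← hgood.card]
    exact h1
  set m : ℕ := (q - 1) / p with hm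
  set l : Ideal (𝓞 k) := lam.asIdeal.under (𝓞 k) with hl
  -- lifts of automorphisms
  have hlift : ∀ h : L ≃ₐ[k] L, ∃ σ : F ≃ₐ[k] F, ∀ x : L, algebraMap L F (h x) =
      σ (algebraMap L F x) := by
    intro h
    obtain ⟨σ, hσ⟩ := AlgEquiv.restrictNormalHom_surjective (F := k) (K₁ := L) F h
    refine ⟨σ, fun x => ?_⟩
    rw [← hσ]
    exact AlgEquiv.restrictNormal_commutes σ L x
  obtain ⟨g', hg'⟩ := hlift g
  have hg'n : ∀ (n : ℕ) (x : L), algebraMap L F ((g ^ n) x) = (g' ^ n) (algebraMap L F x) := by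
    intro n
    induction n with
    | zero => intro x; rfl
    | succ n ih =>
      intro x
      rw [pow_succ', pow_succ']
      change algebraMap L F (g ((g ^ n) x)) = g' ((g' ^ n) (algebraMap L F x))
      rw [hg', ih]
  have hg'p := hg'n p
  -- the case `Above S lam` is trivial
  set P : J L := ∏ h : L ≃ₐ[k] L, (h • vJ lam) ^ b h with hP
  by_cases hlamS : Above S lam
  · obtain ⟨I, s, hs, hX⟩ := KINX.decomp (p := p) (S := S) (X := P) (by
      intro v hv
      have h0 : cntJ v P = 0 := by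
        rw [hP, cntJ_prod]
        refine Finset.sum_eq_zero fun h _ => ?_
        rw [cntJ_pow, cntJ_smul_vJ, if_neg, mul_zero]
        rintro rfl
        exact hv ((above_mv h lam).2 hlamS)
      rw [h0]
      exact dvd_zero _)
    exact ⟨1, I, s, hs, by rw [map_one, one_mul, hX]⟩
  -- a prime above `lam`
  obtain ⟨w0, hw0⟩ := INVI.exists_above L F lam
  have hunderk : ∀ (w : HeightOneSpectrum (𝓞 F)) (v : HeightOneSpectrum (𝓞 L)),
      w.asIdeal.under (𝓞 L) = v.asIdeal → w.asIdeal.under (𝓞 k) = v.asIdeal.under (𝓞 k) := by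
    intro w v hwv
    rw [← hwv, Ideal.under_under]
  have hw0k : w0.asIdeal.under (𝓞 k) = l := hunderk w0 lam hw0
  have hlamk : ∀ h : L ≃ₐ[k] L, (mv h lam).asIdeal.under (𝓞 k) = l := by
    intro h
    have h2 := under_mv (k := k) (L := k) (F := L) h 1 (fun x => (h.commutes x).symm) lam
      (lam.under (𝓞 k)) rfl
    rw [mv_one] at h2
    exact h2
  have hSw : ∀ w : HeightOneSpectrum (𝓞 F), w.asIdeal.under (𝓞 k) = l → ¬ Above S w := by
    intro w hw hwS
    apply hlamS
    have h1 := (above_under (L := k) w (w.under (𝓞 k)) rfl).1 hwS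
    refine (above_under (L := k) lam (lam.under (𝓞 k)) rfl).2 ?_
    have e : w.under (𝓞 k) = lam.under (𝓞 k) := by
      apply HeightOneSpectrum.ext
      exact hw
    rwa [← e]
  -- `z` is not zero
  have hz0 : z ≠ 0 := by
    rintro rfl
    have h1 := hzS w0 (hSw w0 hw0k)
    rw [map_zero] at h1
    exact zero_ne_one h1
  set zu : Fˣ := Units.mk0 z hz0 with hzu
  have hcz : ∀ w : HeightOneSpectrum (𝓞 F), ¬ Above S w → cnt w zu = 0 := by
    intro w hw
    exact (val_one_iff zu).1 (hzS w hw)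
  -- the unit `z'`
  set z' : Fˣ := g' ^ p • zu / zu with hz'
  have hz'cnt : ∀ w : HeightOneSpectrum (𝓞 F), cnt w z' = 0 := by
    intro w
    rw [hz', cnt_div, cnt_mv']
    by_cases hw : Above S w
    · have h1 : mv (g' ^ p)⁻¹ w = w := by
        have h2 := fix_pow hdeg hcomm hg hg' hw
        have h3 := congrArg (mv (g' ^ p)⁻¹) h2
        rw [← mv_mul, inv_mul_cancel, mv_one] at h3
        exact h3.symm
      rw [h1, sub_self]
    · rw [hcz w hw, hcz _ (fun h => hw ((above_mv _ _).1 h)), sub_self]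
  have hyn : ∀ n : ℕ, (g ^ n) (Algebra.norm L z) = Algebra.norm L z := by
    intro n
    induction n with
    | zero => rfl
    | succ n ih =>
      rw [pow_succ]
      change (g ^ n) (g (Algebra.norm L z)) = Algebra.norm L z
      rw [hy g hgG, ih]
  have hz'norm : ∏ i ∈ Finset.range p, τ ^ i • z' = 1 := by
    have h1 := KINX.norm_aut hp hdeg hτ zu
    have h2 : ∀ i : ℕ, τ ^ i • (g' ^ p • zu) = g' ^ p • (τ ^ i • zu) := by
      intro i
      apply Units.ext
      have := DFunLike.congr_fun (hcomm (AlgEquiv.restrictScalars k (τ ^ i)) (g' ^ p)) (zu : F)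
      exact this
    have h3 : ∏ i ∈ Finset.range p, τ ^ i • z' =
        (g' ^ p • ∏ i ∈ Finset.range p, τ ^ i • zu) / ∏ i ∈ Finset.range p, τ ^ i • zu := by
      rw [Finset.smul_prod', ← Finset.prod_div_distrib]
      refine Finset.prod_congr rfl fun i _ => ?_
      rw [hz', smul_div', h2]
    rw [h3, ← h1]
    have h4 : g' ^ p • Units.map (algebraMap L F : L →* F)
        (Units.map (Algebra.norm L : F →* L) zu) = Units.map (algebraMap L F : L →* F)
        (Units.map (Algebra.norm L : F →* L) zu) := by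
      apply Units.ext
      change (g' ^ p) (algebraMap L F (Algebra.norm L z)) = algebraMap L F (Algebra.norm L z)
      rw [← hg'p, hyn]
    rw [h4, div_self']
  obtain ⟨Y, hY⟩ := H90_thm p L F τ hdeg hτ z' hz'norm
  have hYτ : ∀ w : HeightOneSpectrum (𝓞 F), cnt w (τ • Y) = cnt w Y := by
    intro w
    have h1 := hz'cnt w
    rw [hY, cnt_div] at h1
    omega
  set κ : Lˣ := Units.map (Algebra.norm L : F →* L) Y with hκ
  have hκw : ∀ (w : HeightOneSpectrum (𝓞 F)) (v : HeightOneSpectrum (𝓞 L)),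
      w.asIdeal.under (𝓞 L) = v.asIdeal →
      (w.asIdeal.ramificationIdx (𝓞 L) : ℤ) * cnt v κ = p * cnt w Y := by
    intro w v hwv
    rw [← cnt_ext w v hwv, hκ, KINX.norm_aut hp hdeg hτ, cnt_prodp τ Y hYτ w]
  have hp0 : (p : ℤ) ≠ 0 := by exact_mod_cast hp.ne_zero
  -- the integer `a`
  have hqprime := hgood.prime
  have hqw : ∀ w : HeightOneSpectrum (𝓞 F), w.asIdeal.under (𝓞 k) = l → (q : 𝓞 F) ∈ w.asIdeal := by
    intro w hw
    have h1 : (q : 𝓞 k) ∈ l := by
      rw [hl, Ideal.mem_comap, map_natCast]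
      exact hqlam
    rw [← hw, Ideal.mem_comap, map_natCast] at h1
    exact h1
  have hap' : ∀ w : HeightOneSpectrum (𝓞 F), w.asIdeal.under (𝓞 k) = l →
      One1 (w.valuation F) ((a : F) ^ p) := by
    intro w hw
    obtain ⟨d, hd⟩ := hap
    have h1 : (((a ^ p - 1 : ℤ) : 𝓞 F)) ∈ w.asIdeal := by
      rw [hd]
      push_cast
      exact w.asIdeal.mul_mem_right _ (hqw w hw)
    have h2 := (HeightOneSpectrum.valuation_lt_one_iff_mem (K := F) (v := w) _).2 h1
    have e : algebraMap (𝓞 F) F ((a ^ p - 1 : ℤ) : 𝓞 F) = (a : F) ^ p - 1 := by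
      rw [map_intCast]
      push_cast
      ring
    unfold One1
    rw [← e]
    exact h2
  have ha1' : ∀ w : HeightOneSpectrum (𝓞 F), w.asIdeal.under (𝓞 k) = l →
      ¬ One1 (w.valuation F) (a : F) := by
    intro w hw hone
    have e : algebraMap (𝓞 F) F ((a - 1 : ℤ) : 𝓞 F) = (a : F) - 1 := by
      rw [map_intCast]
      push_cast
      ring
    unfold One1 at hone
    rw [← e] at hone
    have h2 := (HeightOneSpectrum.valuation_lt_one_iff_mem (K := F) (v := w) _).1 hone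
    have hco : IsCoprime (q : ℤ) (a - 1) :=
      (Prime.coprime_iff_not_dvd (Nat.prime_iff_prime_int.1 hqprime)).2 ha1
    obtain ⟨r, s, hrs⟩ := hco
    apply w.isPrime.ne_top
    rw [Ideal.eq_top_iff_one]
    have h3 : ((r * (q : ℤ) + s * (a - 1) : ℤ) : 𝓞 F) ∈ w.asIdeal := by
      have e2 : ((r * (q : ℤ) + s * (a - 1) : ℤ) : 𝓞 F) =
          (r : 𝓞 F) * (q : 𝓞 F) + (s : 𝓞 F) * ((a - 1 : ℤ) : 𝓞 F) := by
        push_cast
        ring
      rw [e2]
      exact w.asIdeal.add_mem (w.asIdeal.mul_mem_left _ (hqw w hw)) (w.asIdeal.mul_mem_left _ h2)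
    rw [hrs, Int.cast_one] at h3
    exact h3
  -- the symbol
  obtain ⟨s', hs⟩ := KINX.local_symbol hp hdeg (hram w0 hw0k) (τ := τ) (hap' w0 hw0k)
    (ha1' w0 hw0k)
  -- the exponents at the conjugates of `lam`
  have hexp : ∀ h : L ≃ₐ[k] L, (p : ℤ) ∣ (b h : ℤ) - s' * cnt (mv h lam) κ := by
    intro h
    obtain ⟨σ, hσ⟩ := hlift h
    set w := mv σ w0 with hw
    have hwh : w.asIdeal.under (𝓞 L) = (mv h lam).asIdeal := under_mv σ h hσ w0 lam hw0
    have hwk : w.asIdeal.under (𝓞 k) = l := by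
      rw [hunderk w _ hwh, hlamk]
    have hsym := symbol_mv hcomm σ hs Y
    have h1 := hκw w _ hwh
    rw [hram w hwk] at h1
    have h2 : cnt (mv h lam) κ = cnt w Y := mul_left_cancel₀ hp0 h1
    rw [h2]
    have hva : w.valuation F (a : F) = 1 := val_of_pow hp (hap' w hwk)
    -- congruences for `z'`
    have h3 := cong (S := S) hc0 hSU hg'p hzc hwk (hSw w hwk)
    have h4 : One1 (w.valuation F) ((algebraMap L F ((g ^ p) c) / algebraMap L F c) ^ m /
        (a : F) ^ b h) := by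
      rw [one1_div (by rw [map_pow, hva, one_pow])]
      have h5 : algebraMap (𝓞 L) (𝓞 F) ((u : 𝓞 L) ^ m - (a : 𝓞 L) ^ b h) ∈ w.asIdeal := by
        have h6 : (u : 𝓞 L) ^ m - (a : 𝓞 L) ^ b h ∈ w.asIdeal.under (𝓞 L) := by
          rw [hwh]
          exact hb h
        exact h6
      have h7 := (HeightOneSpectrum.valuation_lt_one_iff_mem (K := F) (v := w) _).2 h5
      have e : algebraMap (𝓞 F) F (algebraMap (𝓞 L) (𝓞 F) ((u : 𝓞 L) ^ m - (a : 𝓞 L) ^ b h)) =
          (algebraMap L F ((g ^ p) c) / algebraMap L F c) ^ m - (a : F) ^ b h := by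
        have e1 : algebraMap (𝓞 F) F (algebraMap (𝓞 L) (𝓞 F) ((u : 𝓞 L) ^ m - (a : 𝓞 L) ^ b h)) =
            algebraMap L F (algebraMap (𝓞 L) L ((u : 𝓞 L) ^ m - (a : 𝓞 L) ^ b h)) := rfl
        rw [e1, map_sub, map_pow, map_pow, map_intCast, map_sub, map_pow, map_pow, map_intCast]
        have e2 : algebraMap (𝓞 L) L (u : 𝓞 L) = (g ^ p) c / c := hu
        rw [e2, map_div₀]
      rw [← e]
      exact h7
    have h8 : One1 (w.valuation F) (((Y : F) / τ (Y : F)) / (a : F) ^ b h) := by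
      have e1 : (Y : F) / τ (Y : F) = (g' ^ p) z / z := by
        have := congrArg (fun x : Fˣ => (x : F)) hY
        rw [hz'] at this
        simp only [Units.val_div_eq_div_val] at this
        exact this.symm
      have h9 := h3.mul h4
      rw [e1]
      have h0 : (algebraMap L F ((g ^ p) c) / algebraMap L F c) ^ m ≠ 0 := by
        refine pow_ne_zero _ (div_ne_zero ?_ ?_)
        · exact (map_ne_zero _).2 ((map_ne_zero _).2 hc0)
        · exact (map_ne_zero _).2 hc0
      rwa [div_mul_div_cancel₀ h0] at h9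
    have h10 := hsym.div h8
    have ha0 : (a : F) ≠ 0 := ne_zero_of_pow hp (hap' w hwk)
    have hY0 : (Y : F) / τ (Y : F) ≠ 0 := div_ne_zero Y.ne_zero ((map_ne_zero _).2 Y.ne_zero)
    have e : (Y : F) / τ (Y : F) / (a : F) ^ ((s' : ℤ) * cnt w Y) /
        ((Y : F) / τ (Y : F) / (a : F) ^ b h) =
        (a : F) ^ ((b h : ℤ) - s' * cnt w Y) := by
      rw [zpow_sub₀ ha0, zpow_natCast]
      have p1 := zpow_ne_zero ((s' : ℤ) * cnt w Y) ha0
      have p2 := pow_ne_zero (b h) ha0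
      generalize (Y : F) / τ (Y : F) = A at hY0 ⊢
      field_simp
    rw [e] at h10
    exact pow_dvd hp (hap' w hwk) (ha1' w hwk) h10
  -- the ideal
  obtain ⟨I, t, ht, hX⟩ := KINX.decomp (p := p) (S := S) (X := P * (prin κ ^ s')⁻¹) (by
    intro v hv
    rw [cntJ_mul, cntJ_inv, cntJ_pow, hP, cntJ_prod]
    by_cases hvh : ∃ h : L ≃ₐ[k] L, mv h lam = v
    · obtain ⟨h, rfl⟩ := hvh
      rw [Finset.sum_eq_single h]
      · rw [cntJ_pow, cntJ_smul_vJ, if_pos rfl, mul_one]
        exact hexp h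
      · intro h' _ hne
        rw [cntJ_pow, cntJ_smul_vJ, if_neg, mul_zero]
        intro heq
        apply hne
        have h1 : (h⁻¹ * h') • lam.asIdeal = lam.asIdeal := by
          have h2 : h' • lam.asIdeal = h • lam.asIdeal := congrArg HeightOneSpectrum.asIdeal heq
          rw [mul_smul, h2, inv_smul_smul]
        have h3 := hgood.free _ h1
        rw [inv_mul_eq_one] at h3
        exact h3.symm
      · intro h1
        exact absurd (Finset.mem_univ h) h1
    · rw [Finset.sum_eq_zero]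
      · obtain ⟨w, hw⟩ := INVI.exists_above L F v
        have hwS : ¬ Above S w := fun h => hv ((above_under w v hw).1 h)
        have hwk : w.asIdeal.under (𝓞 k) ≠ l := by
          intro h1
          apply hvh
          rw [hunderk w v hw] at h1
          have hlo : v.asIdeal.LiesOver l := ⟨h1.symm⟩
          have hlo' : lam.asIdeal.LiesOver l := ⟨rfl⟩
          have hp1 : v.asIdeal.IsPrime := v.isPrime
          have hp2 : lam.asIdeal.IsPrime := lam.isPrime
          obtain ⟨h, hh⟩ := Ideal.exists_smul_eq_of_isGaloisGroup l lam.asIdeal v.asIdeal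
            (L ≃ₐ[k] L)
          refine ⟨h, ?_⟩
          apply HeightOneSpectrum.ext
          exact hh
        have h1 := hκw w v hw
        rw [hunr w hwS hwk] at h1
        have h2 : cntJ v (prin κ) = p * cnt w Y := by
          have : cnt v κ = p * cnt w Y := by
            rw [← h1]
            push_cast
            ring
          exact this
        rw [h2]
        exact ⟨-(s' * cnt w Y), by ring⟩
      · intro h _
        rw [cntJ_pow, cntJ_smul_vJ, if_neg (fun h1 => hvh ⟨h, h1⟩), mul_zero])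
  refine ⟨κ ^ s', I, t, ht, ?_⟩
  rw [map_pow, mul_assoc, ← hX, mul_comm P, mul_inv_cancel_left]

end Pool.Agent.MUXK


end

section

/-!
# The input (I2) from an abelian extension with a character of order three (helper80)

MP_b78433_nt, MU3, block K. `KolBody` is the body of `KolIn` (`kolIn_iff`). `I2ABS_thm : S_I2ABS`.
-/

set_option autoImplicit false

open NumberField IsDedekindDomain
open scoped nonZeroDivisors Pointwise

namespace Pool.Agent.MU3

open _root_.Pool.Agent.RI _root_.Pool.Agent.MU3.K1M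

/-- The body of `KolIn`. -/
def KolBody (k L : Type) [Field k] [NumberField k] [Field L] [NumberField L] [Algebra k L]
    (S : Finset ℕ) (c : L) (lam : HeightOneSpectrum (𝓞 L)) (q : ℕ) : Prop :=
    ∃ (F : Type) (_ : Field F) (_ : NumberField F) (_ : Algebra k F) (_ : Algebra L F)
      (_ : IsScalarTower k L F), IsGalois k F ∧ (∀ σ τ : F ≃ₐ[k] F, σ * τ = τ * σ) ∧
      Module.finrank L F = 3 ∧
      (∀ w : HeightOneSpectrum (𝓞 F), ¬ Above S w →
        w.asIdeal.under (𝓞 k) ≠ lam.asIdeal.under (𝓞 k) → w.asIdeal.ramificationIdx (𝓞 L) = 1) ∧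
      (∀ w : HeightOneSpectrum (𝓞 F), w.asIdeal.under (𝓞 k) = lam.asIdeal.under (𝓞 k) →
        w.asIdeal.ramificationIdx (𝓞 L) = 3) ∧
      ∃ z : F, SU S F z ∧ (∃ y : k, Algebra.norm L z = algebraMap k L y) ∧
        ∀ w : HeightOneSpectrum (𝓞 F), w.asIdeal.under (𝓞 k) = lam.asIdeal.under (𝓞 k) →
          w.valuation F (z - algebraMap L F c ^ ((q - 1) / 3)) < 1

theorem kolIn_iff (k L : Type) [Field k] [NumberField k] [Field L] [NumberField L] [Algebra k L]
    (S : Finset ℕ) (c : L) : KolIn k L S c ↔ ∀ (lam : HeightOneSpectrum (𝓞 L)) (q : ℕ),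
      GoodPr k L S lam q → KolBody k L S c lam q := Iff.rfl

/-- I2ABS: `M / k` abelian, `χ` a character of order `3` of `Gal(M / L)`, non trivial on a group `A`
of automorphisms which are inert at the primes above `lam ∩ k`. -/
def S_I2ABS : Prop := ∀ (k L M : Type) [Field k] [NumberField k] [Field L] [NumberField L]
    [Field M] [NumberField M] [Algebra k L] [Algebra L M] [Algebra k M] [IsScalarTower k L M]
    [IsGalois k M], (∀ σ τ : M ≃ₐ[k] M, σ * τ = τ * σ) →
    ∀ (S : Finset ℕ) (c : L) (lam : HeightOneSpectrum (𝓞 L)) (q : ℕ), GoodPr k L S lam q →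
    ∀ (A : Subgroup (M ≃ₐ[L] M)) (χ : (M ≃ₐ[L] M) →* Multiplicative (ZMod 3)),
    (∃ σ ∈ A, χ σ ≠ 1) →
    (∀ w : HeightOneSpectrum (𝓞 M), ¬ Above S w →
      w.asIdeal.under (𝓞 k) ≠ lam.asIdeal.under (𝓞 k) → ∀ σ : M ≃ₐ[L] M,
      (∀ x : 𝓞 M, σ • x - x ∈ w.asIdeal) → σ = 1) →
    (∀ w : HeightOneSpectrum (𝓞 M), w.asIdeal.under (𝓞 k) = lam.asIdeal.under (𝓞 k) →
      ∀ σ ∈ A, ∀ x : 𝓞 M, σ • x - x ∈ w.asIdeal) →
    ∀ θ θ₀ : M, SU S M θ →
    (∀ w : HeightOneSpectrum (𝓞 M), w.asIdeal.under (𝓞 k) = lam.asIdeal.under (𝓞 k) →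
      ∀ σ : M ≃ₐ[L] M, w.valuation M (σ θ₀) ≤ 1 ∧ w.valuation M (σ θ - σ θ₀) < 1) →
    (∃ y : k, ∏ᶠ σ : M ≃ₐ[L] M, σ θ = algebraMap k M y) →
    ∏ᶠ σ : χ.ker, (σ : M ≃ₐ[L] M) θ₀ = algebraMap L M c ^ ((q - 1) / 3) →
    KolBody k L S c lam q

namespace I2A

section ramif

variable {L F : Type} [Field L] [NumberField L] [Field F] [NumberField F] [Algebra L F]
  [IsGalois L F]

/-- the order of the inertia group -/
theorem card_inertia (w : HeightOneSpectrum (𝓞 F)) :
    Nat.card (w.asIdeal.inertia (F ≃ₐ[L] F)) = w.asIdeal.ramificationIdx (𝓞 L) := by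
  set p : Ideal (𝓞 L) := w.asIdeal.under (𝓞 L) with hp
  have hlo : w.asIdeal.LiesOver p := ⟨rfl⟩
  have hwp : w.asIdeal.IsPrime := w.isPrime
  have hpp : p.IsPrime := Ideal.IsPrime.under (𝓞 L) w.asIdeal
  have hp0 : p ≠ ⊥ := (w.under (𝓞 L)).ne_bot
  have hfin : Finite (𝓞 L ⧸ p) := Ideal.finiteQuotientOfFreeOfNeBot p hp0
  have hmax : p.IsMaximal := hpp.isMaximal hp0
  have hfr : Finite p.ResidueField :=
    Finite.of_surjective (algebraMap (𝓞 L ⧸ p) p.ResidueField)
      (Ideal.bijective_algebraMap_quotient_residueField p).2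
  have h1 := Ideal.card_inertia_eq_ramificationIdxIn (G := F ≃ₐ[L] F) p w.asIdeal
  rwa [Ideal.ramificationIdxIn_eq_ramificationIdx p w.asIdeal (F ≃ₐ[L] F)] at h1

end ramif

/-- products of congruent elements -/
theorem prod_cong {M Γ : Type} [Field M] [LinearOrderedCommGroupWithZero Γ] (v : Valuation M Γ)
    {ι : Type} (s : Finset ι) (f g : ι → M) (hg : ∀ i ∈ s, v (g i) ≤ 1)
    (h : ∀ i ∈ s, v (f i - g i) < 1) : v (∏ i ∈ s, f i) ≤ 1 ∧ v (∏ i ∈ s, f i - ∏ i ∈ s, g i) < 1 := by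
  classical
  induction s using Finset.induction_on with
  | empty =>
    refine ⟨?_, ?_⟩
    · rw [Finset.prod_empty, map_one]
    · rw [Finset.prod_empty, Finset.prod_empty, sub_self, map_zero]
      exact zero_lt_one
  | insert i s hi ih =>
    obtain ⟨h1, h2⟩ := ih (fun j hj => hg j (Finset.mem_insert_of_mem hj))
      (fun j hj => h j (Finset.mem_insert_of_mem hj))
    have h3 := hg i (Finset.mem_insert_self i s)
    have h4 := h i (Finset.mem_insert_self i s)
    have h5 : v (f i) ≤ 1 := by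
      have e : f i = (f i - g i) + g i := by ring
      rw [e]
      exact Valuation.map_add_le v h4.le h3
    rw [Finset.prod_insert hi, Finset.prod_insert hi]
    refine ⟨?_, ?_⟩
    · rw [map_mul]
      exact mul_le_one' h5 h1
    · have e : f i * ∏ j ∈ s, f j - g i * ∏ j ∈ s, g j =
          (f i - g i) * ∏ j ∈ s, f j + g i * (∏ j ∈ s, f j - ∏ j ∈ s, g j) := by ring
      rw [e]
      refine Valuation.map_add_lt v ?_ ?_
      · rw [map_mul]
        exact lt_of_le_of_lt (mul_le_of_le_one_right' h1) h4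
      · rw [map_mul]
        exact lt_of_le_of_lt (mul_le_of_le_one_left' h3) h2

section tower

variable {k L F M : Type} [Field k] [NumberField k] [Field L] [NumberField L] [Field F]
  [NumberField F] [Field M] [NumberField M] [Algebra k L] [Algebra L F] [Algebra F M]
  [Algebra k F] [Algebra k M] [Algebra L M] [IsScalarTower k L F] [IsScalarTower k L M]
  [IsScalarTower k F M] [IsScalarTower L F M]

/-- valuations less than one in an extension -/
theorem val_lt_up (w : HeightOneSpectrum (𝓞 F)) (W : HeightOneSpectrum (𝓞 M))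
    (h : W.asIdeal.under (𝓞 F) = w.asIdeal) {x : F} (hx : W.valuation M (algebraMap F M x) < 1) :
    w.valuation F x < 1 := by
  by_cases h0 : x = 0
  · rw [h0, map_zero]
    exact zero_lt_one
  · have h1 := val_cnt (w := W) (Units.map (algebraMap F M : F →* M) (Units.mk0 x h0))
    have h2 := val_cnt (w := w) (Units.mk0 x h0)
    have h3 := cnt_ext W w h (Units.mk0 x h0)
    have e : ((Units.map (algebraMap F M : F →* M) (Units.mk0 x h0) : Mˣ) : M) =
        algebraMap F M x := rfl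
    rw [e] at h1
    rw [h1, ← WithZero.exp_zero, WithZero.exp_lt_exp, h3] at hx
    rw [Units.val_mk0] at h2
    rw [h2, ← WithZero.exp_zero, WithZero.exp_lt_exp]
    have h4 : 0 < (W.asIdeal.ramificationIdx (𝓞 F) : ℤ) * cnt w (Units.mk0 x h0) := by omega
    have h5 : 0 < cnt w (Units.mk0 x h0) := by
      by_contra hneg
      rw [not_lt] at hneg
      have h6 : (W.asIdeal.ramificationIdx (𝓞 F) : ℤ) * cnt w (Units.mk0 x h0) ≤ 0 :=
        mul_nonpos_of_nonneg_of_nonpos (by positivity) hneg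
      omega
    omega

/-- valuation one in an extension -/
theorem val_one_up (w : HeightOneSpectrum (𝓞 F)) (W : HeightOneSpectrum (𝓞 M))
    (h : W.asIdeal.under (𝓞 F) = w.asIdeal) {x : F} (hx : W.valuation M (algebraMap F M x) = 1) :
    w.valuation F x = 1 := by
  have h0 : x ≠ 0 := by
    rintro rfl
    rw [map_zero, map_zero] at hx
    exact zero_ne_one hx
  have h1 := (val_one_iff (w := W) (Units.map (algebraMap F M : F →* M) (Units.mk0 x h0))).1 hx
  have h3 := cnt_ext W w h (Units.mk0 x h0)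
  rw [h1] at h3
  have h4 : cnt w (Units.mk0 x h0) = 0 := by
    rcases mul_eq_zero.1 h3.symm with h5 | h5
    · have hwp : W.asIdeal.IsPrime := W.isPrime
      have := W.asIdeal.ramificationIdx_pos (𝓞 F)
      omega
    · exact h5
  exact (val_one_iff (w := w) (Units.mk0 x h0)).2 h4

omit [NumberField L] [NumberField F] [NumberField M] [IsScalarTower L F M] [Algebra L F] in
theorem prod_ker_aux (σ : M ≃ₐ[L] M)
    (h : ∀ x : F, σ (algebraMap F M x) = algebraMap F M x) :
    ∃ ρ : M ≃ₐ[F] M, ∀ y : M, ρ y = σ y :=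
  ⟨{ σ.toRingEquiv with commutes' := h }, fun _ => rfl⟩

/-- the product over the kernel is the norm to the intermediate field -/
theorem prod_ker (χ : (M ≃ₐ[L] M) →* Multiplicative (ZMod 3))
    (hker : ∀ σ : M ≃ₐ[L] M, σ ∈ χ.ker ↔ ∀ x : F, σ (algebraMap F M x) = algebraMap F M x)
    (θ : M) : ∏ᶠ σ : M ≃ₐ[F] M, σ θ = ∏ᶠ σ : χ.ker, (σ : M ≃ₐ[L] M) θ := by
  refine finprod_eq_of_bijective (fun σ : M ≃ₐ[F] M => (⟨σ.restrictScalars L, by
    rw [hker]
    exact fun x => σ.commutes x⟩ : χ.ker)) ⟨?_, ?_⟩ (fun _ => rfl)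
  · intro σ τ h
    apply AlgEquiv.ext
    intro x
    have h1 := congrArg (fun f : χ.ker => (f : M ≃ₐ[L] M) x) h
    exact h1
  · rintro ⟨σ, hσ⟩
    obtain ⟨ρ, hρ⟩ := prod_ker_aux (F := F) σ ((hker σ).1 hσ)
    refine ⟨ρ, ?_⟩
    apply Subtype.ext
    apply AlgEquiv.ext
    intro x
    exact hρ x

/-- the norm congruence -/
theorem norm_cong [IsGalois F M] (χ : (M ≃ₐ[L] M) →* Multiplicative (ZMod 3))
    (hker : ∀ σ : M ≃ₐ[L] M, σ ∈ χ.ker ↔ ∀ x : F, σ (algebraMap F M x) = algebraMap F M x)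
    {θ θ₀ C : M} (W : HeightOneSpectrum (𝓞 M))
    (hcong : ∀ σ : M ≃ₐ[L] M, W.valuation M (σ θ₀) ≤ 1 ∧ W.valuation M (σ θ - σ θ₀) < 1)
    (hc : ∏ᶠ σ : χ.ker, (σ : M ≃ₐ[L] M) θ₀ = C) :
    W.valuation M (algebraMap F M (Algebra.norm F θ) - C) < 1 := by
  classical
  have e1 : algebraMap F M (Algebra.norm F θ) = ∏ᶠ σ : χ.ker, (σ : M ≃ₐ[L] M) θ := by
    rw [← prod_ker χ hker θ, Algebra.norm_eq_prod_automorphisms F θ]
    exact (finprod_eq_prod_of_fintype _).symm
  have e2 : ∏ᶠ σ : χ.ker, (σ : M ≃ₐ[L] M) θ = ∏ σ : χ.ker, (σ : M ≃ₐ[L] M) θ :=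
    finprod_eq_prod_of_fintype _
  have e3 : ∏ᶠ σ : χ.ker, (σ : M ≃ₐ[L] M) θ₀ = ∏ σ : χ.ker, (σ : M ≃ₐ[L] M) θ₀ :=
    finprod_eq_prod_of_fintype _
  have key := prod_cong (W.valuation M) (Finset.univ : Finset χ.ker)
    (fun σ => (σ : M ≃ₐ[L] M) θ) (fun σ => (σ : M ≃ₐ[L] M) θ₀)
    (fun σ _ => (hcong (σ : M ≃ₐ[L] M)).1) (fun σ _ => (hcong (σ : M ≃ₐ[L] M)).2)
  have e4 : algebraMap F M (Algebra.norm F θ) - C =
      ∏ σ : χ.ker, (σ : M ≃ₐ[L] M) θ - ∏ σ : χ.ker, (σ : M ≃ₐ[L] M) θ₀ := by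
    rw [← e2, ← e1, ← e3, hc]
  rw [e4]
  exact key.2

/-- the statement for an abstract intermediate field -/
theorem main [IsGalois k M] [IsGalois k F] (hcomm : ∀ σ τ : M ≃ₐ[k] M, σ * τ = τ * σ)
    {S : Finset ℕ} {c : L} {lam : HeightOneSpectrum (𝓞 L)} {q : ℕ}
    (A : Subgroup (M ≃ₐ[L] M)) (χ : (M ≃ₐ[L] M) →* Multiplicative (ZMod 3))
    (hA : ∃ σ ∈ A, χ σ ≠ 1)
    (hunr : ∀ w : HeightOneSpectrum (𝓞 M), ¬ Above S w →
      w.asIdeal.under (𝓞 k) ≠ lam.asIdeal.under (𝓞 k) → ∀ σ : M ≃ₐ[L] M,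
      (∀ x : 𝓞 M, σ • x - x ∈ w.asIdeal) → σ = 1)
    (htot : ∀ w : HeightOneSpectrum (𝓞 M), w.asIdeal.under (𝓞 k) = lam.asIdeal.under (𝓞 k) →
      ∀ σ ∈ A, ∀ x : 𝓞 M, σ • x - x ∈ w.asIdeal)
    {θ θ₀ : M} (hθ : SU S M θ)
    (hcong : ∀ w : HeightOneSpectrum (𝓞 M), w.asIdeal.under (𝓞 k) = lam.asIdeal.under (𝓞 k) →
      ∀ σ : M ≃ₐ[L] M, w.valuation M (σ θ₀) ≤ 1 ∧ w.valuation M (σ θ - σ θ₀) < 1)
    (hnorm : ∃ y : k, ∏ᶠ σ : M ≃ₐ[L] M, σ θ = algebraMap k M y)
    (hc : ∏ᶠ σ : χ.ker, (σ : M ≃ₐ[L] M) θ₀ = algebraMap L M c ^ ((q - 1) / 3))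
    (hker : ∀ σ : M ≃ₐ[L] M, σ ∈ χ.ker ↔ ∀ x : F, σ (algebraMap F M x) = algebraMap F M x) :
    KolBody k L S c lam q := by
  classical
  have hLM : IsGalois L M := IsGalois.tower_top_of_isGalois k L M
  have hFM : IsGalois F M := IsGalois.tower_top_of_isGalois k F M
  have hLF : IsGalois L F := IsGalois.tower_top_of_isGalois k L F
  -- restriction to `F`
  have hrest : ∀ (σ : M ≃ₐ[L] M) (x : F),
      algebraMap F M (AlgEquiv.restrictNormalHom F σ x) = σ (algebraMap F M x) := fun σ x =>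
    AlgEquiv.restrictNormal_commutes σ F x
  have hrker : ∀ σ : M ≃ₐ[L] M, AlgEquiv.restrictNormalHom F σ = 1 ↔ σ ∈ χ.ker := by
    intro σ
    rw [hker]
    constructor
    · intro h x
      rw [← hrest, h]
      rfl
    · intro h
      apply AlgEquiv.ext
      intro x
      apply (algebraMap F M).injective
      rw [hrest, h]
      rfl
  -- `A` maps onto the Galois group of `F / L`
  have hAsurj : ∀ ρ : F ≃ₐ[L] F, ∃ σ ∈ A, AlgEquiv.restrictNormalHom F σ = ρ := by
    intro ρ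
    obtain ⟨σ, hσ⟩ := AlgEquiv.restrictNormalHom_surjective (F := L) (K₁ := F) M ρ
    obtain ⟨α, hα, hα1⟩ := hA
    have hpow : ∃ j : ℤ, χ σ = χ α ^ j := by
      have hfact : Fact (Nat.Prime 3) := ⟨Nat.prime_three⟩
      have hcard : Nat.card (Multiplicative (ZMod 3)) = 3 := by
        rw [Nat.card_congr Multiplicative.toAdd, Nat.card_zmod]
      have h1 := mem_zpowers_of_prime_card (g := χ α) (g' := χ σ) hcard hα1
      obtain ⟨j, hj⟩ := Subgroup.mem_zpowers_iff.1 h1
      exact ⟨j, hj.symm⟩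
    obtain ⟨j, hj⟩ := hpow
    refine ⟨α ^ j, A.zpow_mem hα j, ?_⟩
    have h2 : σ⁻¹ * α ^ j ∈ χ.ker := by
      rw [MonoidHom.mem_ker, map_mul, map_inv, map_zpow, hj, inv_mul_cancel]
    rw [← hrker, map_mul, map_inv, inv_mul_eq_one] at h2
    rw [← h2, hσ]
  have hcardF : Nat.card (F ≃ₐ[L] F) = 3 := by
    have h1 : Nat.card (F ≃ₐ[L] F) = Nat.card ((M ≃ₐ[L] M) ⧸ χ.ker) := by
      have hk : (AlgEquiv.restrictNormalHom F : (M ≃ₐ[L] M) →* (F ≃ₐ[L] F)).ker = χ.ker := by
        ext σ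
        rw [MonoidHom.mem_ker, hrker]
      rw [← hk]
      exact Nat.card_congr (QuotientGroup.quotientKerEquivOfSurjective _
        (AlgEquiv.restrictNormalHom_surjective (F := L) (K₁ := F) M)).toEquiv.symm
    have h2 : Function.Surjective χ := by
      intro t
      obtain ⟨α, hα, hα1⟩ := hA
      have hfact : Fact (Nat.Prime 3) := ⟨Nat.prime_three⟩
      have hcard : Nat.card (Multiplicative (ZMod 3)) = 3 := by
        rw [Nat.card_congr Multiplicative.toAdd, Nat.card_zmod]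
      have h1 := mem_zpowers_of_prime_card (g := χ α) (g' := t) hcard hα1
      obtain ⟨j, hj⟩ := Subgroup.mem_zpowers_iff.1 h1
      exact ⟨α ^ j, by rw [map_zpow, hj]⟩
    rw [h1, Nat.card_congr (QuotientGroup.quotientKerEquivOfSurjective χ h2).toEquiv,
      Nat.card_congr Multiplicative.toAdd, Nat.card_zmod]
  -- primes
  have hunder : ∀ (W : HeightOneSpectrum (𝓞 M)) (w : HeightOneSpectrum (𝓞 F)),
      W.asIdeal.under (𝓞 F) = w.asIdeal → W.asIdeal.under (𝓞 k) = w.asIdeal.under (𝓞 k) := by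
    intro W w hwv
    rw [← hwv, Ideal.under_under]
  refine ⟨F, inferInstance, inferInstance, inferInstance, inferInstance, inferInstance,
    inferInstance, ?_, ?_, ?_, ?_, Algebra.norm F θ, ?_, ?_, ?_⟩
  · -- commutativity
    intro σ τ
    obtain ⟨σ', rfl⟩ := AlgEquiv.restrictNormalHom_surjective (F := k) (K₁ := F) M σ
    obtain ⟨τ', rfl⟩ := AlgEquiv.restrictNormalHom_surjective (F := k) (K₁ := F) M τ
    rw [← map_mul, hcomm, map_mul]
  · -- degree
    rw [← IsGalois.card_aut_eq_finrank, hcardF]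
  · -- unramified
    intro w hwS hwk
    obtain ⟨W, hW⟩ := INVI.exists_above F M w
    have hWS : ¬ Above S W := fun h => hwS ((above_under W w hW).1 h)
    have hWk : W.asIdeal.under (𝓞 k) ≠ lam.asIdeal.under (𝓞 k) := by
      rw [hunder W w hW]
      exact hwk
    have h1 : W.asIdeal.ramificationIdx (𝓞 L) = 1 := by
      rw [← card_inertia W]
      have h2 : W.asIdeal.inertia (M ≃ₐ[L] M) = ⊥ := by
        rw [eq_bot_iff]
        intro σ hσ
        exact hunr W hWS hWk σ hσ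
      rw [h2]
      exact Subgroup.card_bot
    have hlo : W.asIdeal.LiesOver w.asIdeal := ⟨hW.symm⟩
    have h3 := Ideal.ramificationIdx_tower (R := 𝓞 L) w.asIdeal W.asIdeal
    rw [h1] at h3
    exact Nat.eq_one_of_mul_eq_one_right h3.symm
  · -- totally ramified
    intro w hwk
    obtain ⟨W, hW⟩ := INVI.exists_above F M w
    rw [← card_inertia w, ← hcardF]
    have h1 : w.asIdeal.inertia (F ≃ₐ[L] F) = ⊤ := by
      rw [eq_top_iff]
      intro ρ _
      obtain ⟨σ, hσA, hσ⟩ := hAsurj ρ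
      intro x
      have h2 := htot W (by rw [hunder W w hW, hwk]) σ hσA (algebraMap (𝓞 F) (𝓞 M) x)
      have e : σ • algebraMap (𝓞 F) (𝓞 M) x - algebraMap (𝓞 F) (𝓞 M) x =
          algebraMap (𝓞 F) (𝓞 M) (ρ • x - x) := by
        apply IsFractionRing.injective (𝓞 M) M
        rw [map_sub, map_sub, map_sub]
        change σ (algebraMap F M (x : F)) - algebraMap F M (x : F) =
          algebraMap F M (ρ (x : F)) - algebraMap F M (x : F)
        rw [← hσ, hrest]
      rw [e] at h2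
      change ρ • x - x ∈ w.asIdeal
      rw [← hW]
      exact h2
    rw [h1]
    exact Subgroup.card_top
  · -- unit outside `S`
    intro w hw
    obtain ⟨W, hW⟩ := INVI.exists_above F M w
    have hWS : ¬ Above S W := fun h => hw ((above_under W w hW).1 h)
    apply val_one_up w W hW
    rw [Algebra.norm_eq_prod_automorphisms, map_prod]
    refine Finset.prod_eq_one fun σ _ => ?_
    have h1 := val_mv σ (mv σ⁻¹ W) θ
    rw [← mv_mul, mul_inv_cancel, mv_one] at h1
    rw [h1]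
    exact hθ _ (fun h => hWS ((above_mv _ _).1 h))
  · -- the norm
    obtain ⟨y, hy⟩ := hnorm
    refine ⟨y, ?_⟩
    rw [Algebra.norm_norm]
    apply (algebraMap L M).injective
    rw [Algebra.norm_eq_prod_automorphisms L θ, ← IsScalarTower.algebraMap_apply k L M y, ← hy]
    exact (finprod_eq_prod_of_fintype _).symm
  · -- the congruence
    intro w hwk
    obtain ⟨W, hW⟩ := INVI.exists_above F M w
    apply val_lt_up w W hW
    have e : algebraMap F M (Algebra.norm F θ - algebraMap L F c ^ ((q - 1) / 3)) =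
        algebraMap F M (Algebra.norm F θ) - algebraMap L M c ^ ((q - 1) / 3) := by
      rw [map_sub, map_pow, ← IsScalarTower.algebraMap_apply L F M c]
    rw [e]
    exact norm_cong χ hker W (hcong W (by rw [hunder W w hW, hwk])) hc

end tower

end I2A

end Pool.Agent.MU3


end

section

/-!
# The input (I2) from an abelian extension: the theorem (helper80)

MP_b78433_nt, MU3, block K: `I2ABS_thm : S_I2ABS`.
-/

set_option autoImplicit false

open NumberField IsDedekindDomain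
open scoped nonZeroDivisors Pointwise

namespace Pool.Agent.MU3

open _root_.Pool.Agent.RI _root_.Pool.Agent.MU3.K1M _root_.Pool.Agent.MU3.I2A

theorem I2A.gal_fixed {k L M : Type} [Field k] [Field L] [Field M] [Algebra k L] [Algebra L M]
    [Algebra k M] [IsScalarTower k L M] [IsGalois k M] [FiniteDimensional k M]
    (hcomm : ∀ σ τ : M ≃ₐ[k] M, σ * τ = τ * σ) (E : IntermediateField L M) : IsGalois k E := by
  set E' : IntermediateField k M := E.restrictScalars k with hE'
  have h1 : (E'.fixingSubgroup).Normal := ⟨fun σ hσ τ => by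
    rw [hcomm τ σ, mul_assoc, mul_inv_cancel, mul_one]
    exact hσ⟩
  have h2 : IntermediateField.fixedField E'.fixingSubgroup = E' :=
    IsGalois.fixedField_fixingSubgroup E'
  have h3 : IsGalois k (IntermediateField.fixedField E'.fixingSubgroup) := inferInstance
  rw [h2] at h3
  exact h3

/-- I2ABS -/
theorem I2ABS_thm : S_I2ABS := by
  intro k L M _ _ _ _ _ _ _ _ _ _ _ hcomm S c lam q hgood A χ hA hunr htot θ θ₀ hθ hcong hnorm hc
  have hfin : FiniteDimensional L M := inferInstance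
  have hLM : IsGalois L M := IsGalois.tower_top_of_isGalois k L M
  set E : IntermediateField L M := IntermediateField.fixedField χ.ker with hE
  have hkE : IsGalois k E := I2A.gal_fixed hcomm E
  have ht1 : IsScalarTower k L E := inferInstance
  have ht : IsScalarTower k E M := IsScalarTower.of_algebraMap_eq fun x => by
    rw [IsScalarTower.algebraMap_apply k L E, ← IsScalarTower.algebraMap_apply L E M,
      ← IsScalarTower.algebraMap_apply k L M]
  refine I2A.main (F := E) hcomm A χ hA hunr htot hθ hcong hnorm hc ?_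
  intro σ
  have h1 : E.fixingSubgroup = χ.ker := IntermediateField.fixingSubgroup_fixedField χ.ker
  rw [← h1, IntermediateField.mem_fixingSubgroup_iff]
  constructor
  · intro h x
    exact h x x.2
  · intro h x hx
    exact h ⟨x, hx⟩

end Pool.Agent.MU3


end

section

/-!
# The input (I2) from an abelian extension with a character of prime order (helper80, helper59)

The version of `Pool/Agent/MU3/I2Abs.lean`, `I2AbsT.lean` (helper80) for a prime `p`: `I2ABSP_thm : S_I2ABSP`.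
-/

set_option autoImplicit false

open NumberField IsDedekindDomain
open scoped nonZeroDivisors Pointwise

namespace Pool.Agent.MUXK

open _root_.Pool.Agent.RI _root_.Pool.Agent.MU3 K1M

namespace I2AP

open I2A

section tower

variable {k L F M : Type} [Field k] [NumberField k] [Field L] [NumberField L] [Field F]
  [NumberField F] [Field M] [NumberField M] [Algebra k L] [Algebra L F] [Algebra F M]
  [Algebra k F] [Algebra k M] [Algebra L M] [IsScalarTower k L F] [IsScalarTower k L M]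
  [IsScalarTower k F M] [IsScalarTower L F M]

omit [NumberField L] [NumberField F] [NumberField M] in
/-- the product over the kernel is the norm to the intermediate field -/
theorem prod_ker {p : ℕ} (χ : (M ≃ₐ[L] M) →* Multiplicative (ZMod p))
    (hker : ∀ σ : M ≃ₐ[L] M, σ ∈ χ.ker ↔ ∀ x : F, σ (algebraMap F M x) = algebraMap F M x)
    (θ : M) : ∏ᶠ σ : M ≃ₐ[F] M, σ θ = ∏ᶠ σ : χ.ker, (σ : M ≃ₐ[L] M) θ := by
  refine finprod_eq_of_bijective (fun σ : M ≃ₐ[F] M => (⟨σ.restrictScalars L, by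
    rw [hker]
    exact fun x => σ.commutes x⟩ : χ.ker)) ⟨?_, ?_⟩ (fun _ => rfl)
  · intro σ τ h
    apply AlgEquiv.ext
    intro x
    have h1 := congrArg (fun f : χ.ker => (f : M ≃ₐ[L] M) x) h
    exact h1
  · rintro ⟨σ, hσ⟩
    obtain ⟨ρ, hρ⟩ := prod_ker_aux (F := F) σ ((hker σ).1 hσ)
    refine ⟨ρ, ?_⟩
    apply Subtype.ext
    apply AlgEquiv.ext
    intro x
    exact hρ x

/-- the norm congruence -/
theorem norm_cong {p : ℕ} [IsGalois F M] (χ : (M ≃ₐ[L] M) →* Multiplicative (ZMod p))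
    (hker : ∀ σ : M ≃ₐ[L] M, σ ∈ χ.ker ↔ ∀ x : F, σ (algebraMap F M x) = algebraMap F M x)
    {θ θ₀ C : M} (W : HeightOneSpectrum (𝓞 M))
    (hcong : ∀ σ : M ≃ₐ[L] M, W.valuation M (σ θ₀) ≤ 1 ∧ W.valuation M (σ θ - σ θ₀) < 1)
    (hc : ∏ᶠ σ : χ.ker, (σ : M ≃ₐ[L] M) θ₀ = C) :
    W.valuation M (algebraMap F M (Algebra.norm F θ) - C) < 1 := by
  classical
  have e1 : algebraMap F M (Algebra.norm F θ) = ∏ᶠ σ : χ.ker, (σ : M ≃ₐ[L] M) θ := by
    rw [← prod_ker χ hker θ, Algebra.norm_eq_prod_automorphisms F θ]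
    exact (finprod_eq_prod_of_fintype _).symm
  have e2 : ∏ᶠ σ : χ.ker, (σ : M ≃ₐ[L] M) θ = ∏ σ : χ.ker, (σ : M ≃ₐ[L] M) θ :=
    finprod_eq_prod_of_fintype _
  have e3 : ∏ᶠ σ : χ.ker, (σ : M ≃ₐ[L] M) θ₀ = ∏ σ : χ.ker, (σ : M ≃ₐ[L] M) θ₀ :=
    finprod_eq_prod_of_fintype _
  have key := prod_cong (W.valuation M) (Finset.univ : Finset χ.ker)
    (fun σ => (σ : M ≃ₐ[L] M) θ) (fun σ => (σ : M ≃ₐ[L] M) θ₀)
    (fun σ _ => (hcong (σ : M ≃ₐ[L] M)).1) (fun σ _ => (hcong (σ : M ≃ₐ[L] M)).2)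
  have e4 : algebraMap F M (Algebra.norm F θ) - C =
      ∏ σ : χ.ker, (σ : M ≃ₐ[L] M) θ - ∏ σ : χ.ker, (σ : M ≃ₐ[L] M) θ₀ := by
    rw [← e2, ← e1, ← e3, hc]
  rw [e4]
  exact key.2

/-- the statement for an abstract intermediate field -/
theorem main {p : ℕ} (hp : p.Prime) [IsGalois k M] [IsGalois k F] (hcomm : ∀ σ τ : M ≃ₐ[k] M, σ * τ = τ * σ)
    {Gs : Set (L ≃ₐ[k] L)} {S : Finset ℕ} {c : L} {lam : HeightOneSpectrum (𝓞 L)} {q : ℕ}
    (A : Subgroup (M ≃ₐ[L] M)) (χ : (M ≃ₐ[L] M) →* Multiplicative (ZMod p))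
    (hA : ∃ σ ∈ A, χ σ ≠ 1)
    (hunr : ∀ w : HeightOneSpectrum (𝓞 M), ¬ Above S w →
      w.asIdeal.under (𝓞 k) ≠ lam.asIdeal.under (𝓞 k) → ∀ σ : M ≃ₐ[L] M,
      (∀ x : 𝓞 M, σ • x - x ∈ w.asIdeal) → σ = 1)
    (htot : ∀ w : HeightOneSpectrum (𝓞 M), w.asIdeal.under (𝓞 k) = lam.asIdeal.under (𝓞 k) →
      ∀ σ ∈ A, ∀ x : 𝓞 M, σ • x - x ∈ w.asIdeal)
    {θ θ₀ : M} (hθ : SU S M θ)
    (hcong : ∀ w : HeightOneSpectrum (𝓞 M), w.asIdeal.under (𝓞 k) = lam.asIdeal.under (𝓞 k) →
      ∀ σ : M ≃ₐ[L] M, w.valuation M (σ θ₀) ≤ 1 ∧ w.valuation M (σ θ - σ θ₀) < 1)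
    (hnorm : ∀ y : L, algebraMap L M y = ∏ᶠ σ : M ≃ₐ[L] M, σ θ → ∀ g ∈ Gs, g y = y)
    (hc : ∏ᶠ σ : χ.ker, (σ : M ≃ₐ[L] M) θ₀ = algebraMap L M c ^ ((q - 1) / p))
    (hker : ∀ σ : M ≃ₐ[L] M, σ ∈ χ.ker ↔ ∀ x : F, σ (algebraMap F M x) = algebraMap F M x) :
    KolBodyP p k L Gs S c lam q := by
  classical
  have hLM : IsGalois L M := IsGalois.tower_top_of_isGalois k L M
  have hFM : IsGalois F M := IsGalois.tower_top_of_isGalois k F M
  have hLF : IsGalois L F := IsGalois.tower_top_of_isGalois k L F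
  -- restriction to `F`
  have hrest : ∀ (σ : M ≃ₐ[L] M) (x : F),
      algebraMap F M (AlgEquiv.restrictNormalHom F σ x) = σ (algebraMap F M x) := fun σ x =>
    AlgEquiv.restrictNormal_commutes σ F x
  have hrker : ∀ σ : M ≃ₐ[L] M, AlgEquiv.restrictNormalHom F σ = 1 ↔ σ ∈ χ.ker := by
    intro σ
    rw [hker]
    constructor
    · intro h x
      rw [← hrest, h]
      rfl
    · intro h
      apply AlgEquiv.ext
      intro x
      apply (algebraMap F M).injective
      rw [hrest, h]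
      rfl
  -- `A` maps onto the Galois group of `F / L`
  have hAsurj : ∀ ρ : F ≃ₐ[L] F, ∃ σ ∈ A, AlgEquiv.restrictNormalHom F σ = ρ := by
    intro ρ
    obtain ⟨σ, hσ⟩ := AlgEquiv.restrictNormalHom_surjective (F := L) (K₁ := F) M ρ
    obtain ⟨α, hα, hα1⟩ := hA
    have hpow : ∃ j : ℤ, χ σ = χ α ^ j := by
      have hfact : Fact (Nat.Prime p) := ⟨hp⟩
      have hcard : Nat.card (Multiplicative (ZMod p)) = p := by
        rw [Nat.card_congr Multiplicative.toAdd, Nat.card_zmod]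
      have h1 := mem_zpowers_of_prime_card (g := χ α) (g' := χ σ) hcard hα1
      obtain ⟨j, hj⟩ := Subgroup.mem_zpowers_iff.1 h1
      exact ⟨j, hj.symm⟩
    obtain ⟨j, hj⟩ := hpow
    refine ⟨α ^ j, A.zpow_mem hα j, ?_⟩
    have h2 : σ⁻¹ * α ^ j ∈ χ.ker := by
      rw [MonoidHom.mem_ker, map_mul, map_inv, map_zpow, hj, inv_mul_cancel]
    rw [← hrker, map_mul, map_inv, inv_mul_eq_one] at h2
    rw [← h2, hσ]
  have hcardF : Nat.card (F ≃ₐ[L] F) = p := by
    have h1 : Nat.card (F ≃ₐ[L] F) = Nat.card ((M ≃ₐ[L] M) ⧸ χ.ker) := by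
      have hk : (AlgEquiv.restrictNormalHom F : (M ≃ₐ[L] M) →* (F ≃ₐ[L] F)).ker = χ.ker := by
        ext σ
        rw [MonoidHom.mem_ker, hrker]
      rw [← hk]
      exact Nat.card_congr (QuotientGroup.quotientKerEquivOfSurjective _
        (AlgEquiv.restrictNormalHom_surjective (F := L) (K₁ := F) M)).toEquiv.symm
    have h2 : Function.Surjective χ := by
      intro t
      obtain ⟨α, hα, hα1⟩ := hA
      have hfact : Fact (Nat.Prime p) := ⟨hp⟩
      have hcard : Nat.card (Multiplicative (ZMod p)) = p := by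
        rw [Nat.card_congr Multiplicative.toAdd, Nat.card_zmod]
      have h1 := mem_zpowers_of_prime_card (g := χ α) (g' := t) hcard hα1
      obtain ⟨j, hj⟩ := Subgroup.mem_zpowers_iff.1 h1
      exact ⟨α ^ j, by rw [map_zpow, hj]⟩
    rw [h1, Nat.card_congr (QuotientGroup.quotientKerEquivOfSurjective χ h2).toEquiv,
      Nat.card_congr Multiplicative.toAdd, Nat.card_zmod]
  -- primes
  have hunder : ∀ (W : HeightOneSpectrum (𝓞 M)) (w : HeightOneSpectrum (𝓞 F)),
      W.asIdeal.under (𝓞 F) = w.asIdeal → W.asIdeal.under (𝓞 k) = w.asIdeal.under (𝓞 k) := by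
    intro W w hwv
    rw [← hwv, Ideal.under_under]
  refine ⟨F, inferInstance, inferInstance, inferInstance, inferInstance, inferInstance,
    inferInstance, ?_, ?_, ?_, ?_, Algebra.norm F θ, ?_, ?_, ?_⟩
  · -- commutativity
    intro σ τ
    obtain ⟨σ', rfl⟩ := AlgEquiv.restrictNormalHom_surjective (F := k) (K₁ := F) M σ
    obtain ⟨τ', rfl⟩ := AlgEquiv.restrictNormalHom_surjective (F := k) (K₁ := F) M τ
    rw [← map_mul, hcomm, map_mul]
  · -- degree
    rw [← IsGalois.card_aut_eq_finrank, hcardF]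
  · -- unramified
    intro w hwS hwk
    obtain ⟨W, hW⟩ := INVI.exists_above F M w
    have hWS : ¬ Above S W := fun h => hwS ((above_under W w hW).1 h)
    have hWk : W.asIdeal.under (𝓞 k) ≠ lam.asIdeal.under (𝓞 k) := by
      rw [hunder W w hW]
      exact hwk
    have h1 : W.asIdeal.ramificationIdx (𝓞 L) = 1 := by
      rw [← card_inertia W]
      have h2 : W.asIdeal.inertia (M ≃ₐ[L] M) = ⊥ := by
        rw [eq_bot_iff]
        intro σ hσ
        exact hunr W hWS hWk σ hσ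
      rw [h2]
      exact Subgroup.card_bot
    have hlo : W.asIdeal.LiesOver w.asIdeal := ⟨hW.symm⟩
    have h3 := Ideal.ramificationIdx_tower (R := 𝓞 L) w.asIdeal W.asIdeal
    rw [h1] at h3
    exact Nat.eq_one_of_mul_eq_one_right h3.symm
  · -- totally ramified
    intro w hwk
    obtain ⟨W, hW⟩ := INVI.exists_above F M w
    rw [← card_inertia w, ← hcardF]
    have h1 : w.asIdeal.inertia (F ≃ₐ[L] F) = ⊤ := by
      rw [eq_top_iff]
      intro ρ _
      obtain ⟨σ, hσA, hσ⟩ := hAsurj ρ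
      intro x
      have h2 := htot W (by rw [hunder W w hW, hwk]) σ hσA (algebraMap (𝓞 F) (𝓞 M) x)
      have e : σ • algebraMap (𝓞 F) (𝓞 M) x - algebraMap (𝓞 F) (𝓞 M) x =
          algebraMap (𝓞 F) (𝓞 M) (ρ • x - x) := by
        apply IsFractionRing.injective (𝓞 M) M
        rw [map_sub, map_sub, map_sub]
        change σ (algebraMap F M (x : F)) - algebraMap F M (x : F) =
          algebraMap F M (ρ (x : F)) - algebraMap F M (x : F)
        rw [← hσ, hrest]
      rw [e] at h2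
      change ρ • x - x ∈ w.asIdeal
      rw [← hW]
      exact h2
    rw [h1]
    exact Subgroup.card_top
  · -- unit outside `S`
    intro w hw
    obtain ⟨W, hW⟩ := INVI.exists_above F M w
    have hWS : ¬ Above S W := fun h => hw ((above_under W w hW).1 h)
    apply val_one_up w W hW
    rw [Algebra.norm_eq_prod_automorphisms, map_prod]
    refine Finset.prod_eq_one fun σ _ => ?_
    have h1 := val_mv σ (mv σ⁻¹ W) θ
    rw [← mv_mul, mul_inv_cancel, mv_one] at h1
    rw [h1]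
    exact hθ _ (fun h => hWS ((above_mv _ _).1 h))
  · -- the norm
    refine hnorm _ ?_
    rw [Algebra.norm_norm, Algebra.norm_eq_prod_automorphisms L θ]
    exact (finprod_eq_prod_of_fintype _).symm
  · -- the congruence
    intro w hwk
    obtain ⟨W, hW⟩ := INVI.exists_above F M w
    apply val_lt_up w W hW
    have e : algebraMap F M (Algebra.norm F θ - algebraMap L F c ^ ((q - 1) / p)) =
        algebraMap F M (Algebra.norm F θ) - algebraMap L M c ^ ((q - 1) / p) := by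
      rw [map_sub, map_pow, ← IsScalarTower.algebraMap_apply L F M c]
    rw [e]
    exact norm_cong χ hker W (hcong W (by rw [hunder W w hW, hwk])) hc

end tower

end I2AP

/-- I2ABS -/
theorem I2ABSP_thm : S_I2ABSP := by
  intro p hp k L M _ _ _ _ _ _ _ _ _ _ _ hcomm Gs S c lam q A χ hA hunr htot θ θ₀ hθ hcong hnorm hc
  have hfin : FiniteDimensional L M := inferInstance
  have hLM : IsGalois L M := IsGalois.tower_top_of_isGalois k L M
  set E : IntermediateField L M := IntermediateField.fixedField χ.ker with hE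
  have hkE : IsGalois k E := I2A.gal_fixed hcomm E
  have ht1 : IsScalarTower k L E := inferInstance
  have ht : IsScalarTower k E M := IsScalarTower.of_algebraMap_eq fun x => by
    rw [IsScalarTower.algebraMap_apply k L E, ← IsScalarTower.algebraMap_apply L E M,
      ← IsScalarTower.algebraMap_apply k L M]
  refine I2AP.main (F := E) hp hcomm A χ hA hunr htot hθ hcong hnorm hc ?_
  intro σ
  have h1 : E.fixingSubgroup = χ.ker := IntermediateField.fixingSubgroup_fixedField χ.ker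
  rw [← h1, IntermediateField.mem_fixingSubgroup_iff]
  constructor
  · intro h x
    exact h x x.2
  · intro h x hx
    exact h ⟨x, hx⟩

end Pool.Agent.MUXK


end
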