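import Mathlib
import Pool.Agent.MVF.C021
import Pool.Agent.MVF.C036
import Pool.Agent.MVF.C040
import Pool.Agent.MVF.C048
import Pool.Agent.MVF.C055

/-! Parts: RI.RKF, RI.RKU, MU3.N_AMBU, RID.P_RK1, MU3.PX_HQE, MU3.WK4, MU3.WK5, MU3.W_I1, MUX.E_PC, MUX.E_ONE, MUX.E_MUV, MUX.E_DEG -/

namespace MU3.Ambu
end MU3.Ambu
namespace MU3.HQE
end MU3.HQE
namespace Pool.Agent.MU3V.WI1
end Pool.Agent.MU3V.WI1
namespace Pool.Agent.MUXE.DEG
end Pool.Agent.MUXE.DEG
namespace Pool.Agent.MUXE.ONE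
end Pool.Agent.MUXE.ONE
namespace Pool.Agent.MUXE.PC
end Pool.Agent.MUXE.PC

section

/-!
# RKF: ranks of the groups of relative units in the square
-/

open NumberField Finset IsDedekindDomain
open scoped nonZeroDivisors Pointwise

namespace Pool.Agent.RI

namespace RKF

/-- The principal ideal of an element of `K` is trivial iff the one of its image is. -/
theorem prin_map_eq_one_iff {K L : Type} [Field K] [NumberField K] [Field L] [NumberField L]
    [Algebra K L] (x : Kˣ) : prin (Units.map (algebraMap K L : K →* L) x) = 1 ↔ prin x = 1 := by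
  have h : ext K L (prin x) = prin (Units.map (algebraMap K L : K →* L) x) := ext_prin K L x
  rw [← h]
  constructor
  · intro h1
    apply ext_injective K L
    rw [h1, map_one]
  · intro h1
    rw [h1, map_one]

/-- Elements of `Lˣ` fixed by `Gal(L / K)` come from `Kˣ`. -/
theorem exists_of_fixed {K L : Type} [Field K] [Field L] [Algebra K L] [FiniteDimensional K L]
    [IsGalois K L] (u : Lˣ) (h : ∀ τ : L ≃ₐ[K] L, τ • u = u) :
    ∃ x : Kˣ, Units.map (algebraMap K L : K →* L) x = u := by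
  have h1 : (u : L) ∈ Set.range (algebraMap K L) := by
    rw [IsGalois.mem_range_algebraMap_iff_fixed]
    intro τ
    exact congrArg Units.val (h τ)
  obtain ⟨x, hx⟩ := h1
  have hx0 : x ≠ 0 := by
    rintro rfl
    rw [map_zero] at hx
    exact u.ne_zero hx.symm
  exact ⟨Units.mk0 x hx0, Units.ext hx⟩

/-- The norm of an element of `K`, by restriction of automorphisms. -/
theorem prod_smul_map {F K M L : Type} [Field F] [Field K] [Field M] [Field L]
    [Algebra F K] [Algebra K L] [Algebra M L] [FiniteDimensional F K] [FiniteDimensional M L]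
    (ρ : (L ≃ₐ[M] L) ≃* (K ≃ₐ[F] K))
    (hρ : ∀ (σ : L ≃ₐ[M] L) (x : K), algebraMap K L (ρ σ x) = σ (algebraMap K L x)) (x : Kˣ) :
    ∏ σ : L ≃ₐ[M] L, σ • Units.map (algebraMap K L : K →* L) x =
      Units.map (algebraMap K L : K →* L) (∏ σ : K ≃ₐ[F] K, σ • x) := by
  rw [map_prod]
  refine Fintype.prod_equiv ρ.toEquiv _ _ fun σ => ?_
  apply Units.ext
  exact (hρ σ x).symm

end RKF

theorem RKF_thm (hSQ : SQ) (hRKU : RKU) : RKF := by
  intro p hp F K M L _ _ _ _ _ _ _ _ _ _ _ _ _ _ _ hsq hL hM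
  obtain ⟨galKL, galML, -, -, ρ, hρ⟩ := hSQ p F K M L hsq
  have galFK := hsq.galK
  have h1 := (hRKU M L).2
  have h2 := (hRKU F K).2
  have hinj : Function.Injective (Units.map (algebraMap K L : K →* L)) :=
    Units.map_injective (FaithfulSMul.algebraMap_injective K L)
  have h3 : Module.finrank ℤ (Additive (relUfix K M L)) =
      Module.finrank ℤ (Additive (relU F K)) := by
    have h4 : ∀ x : relU F K, Units.map (algebraMap K L : K →* L) (x : Kˣ) ∈ relUfix K M L := by
      intro x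
      refine ⟨⟨(RKF.prin_map_eq_one_iff _).mpr x.2.1, ?_⟩, ?_⟩
      · rw [RKF.prod_smul_map ρ hρ, x.2.2, map_one]
      · intro τ
        apply Units.ext
        exact τ.commutes _
    let e : relU F K →* relUfix K M L :=
      { toFun := fun x => ⟨_, h4 x⟩
        map_one' := Subtype.ext (map_one _)
        map_mul' := fun x y => Subtype.ext (map_mul _ _ _) }
    have he : Function.Bijective e := by
      constructor
      · intro x y hxy
        apply Subtype.ext
        apply hinj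
        exact congrArg (fun z : relUfix K M L => (z : Lˣ)) hxy
      · rintro ⟨u, hu, hu'⟩
        obtain ⟨x, rfl⟩ := RKF.exists_of_fixed u hu'
        refine ⟨⟨x, (RKF.prin_map_eq_one_iff _).mp hu.1, ?_⟩, rfl⟩
        apply hinj
        rw [← RKF.prod_smul_map ρ hρ, hu.2, map_one]
    exact ((MulEquiv.toAdditive (MulEquiv.ofBijective e he)).toIntLinearEquiv).finrank_eq.symm
  rw [h3]
  have c1 : 0 < Fintype.card (InfinitePlace L) := Fintype.card_pos
  have c2 : 0 < Fintype.card (InfinitePlace K) := Fintype.card_pos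
  have c3 : 0 < Fintype.card (InfinitePlace M) := Fintype.card_pos
  have c4 : 0 < Fintype.card (InfinitePlace F) := Fintype.card_pos
  rw [Units.rank, Units.rank] at h1 h2
  have h5 : Module.finrank ℤ (Additive (relU F K)) + Fintype.card (InfinitePlace F) =
      Fintype.card (InfinitePlace K) := by omega
  have h6 : Module.finrank ℤ (Additive (relU M L)) + Fintype.card (InfinitePlace M) =
      Fintype.card (InfinitePlace L) := by omega
  rw [hL, hM, ← h5, mul_add] at h6
  exact Nat.add_right_cancel h6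

end Pool.Agent.RI


end

section

/-!
# RKU: the rank of the group of relative units
-/

open NumberField Finset IsDedekindDomain
open scoped nonZeroDivisors Pointwise

namespace Pool.Agent.RI

namespace RKU

/-- The principal ideal of `u` is trivial iff `u` is a unit of the ring of integers. -/
theorem prin_eq_one_iff {L : Type} [Field L] [NumberField L] (u : Lˣ) :
    prin u = 1 ↔ ∃ ε : (𝓞 L)ˣ, Units.map (algebraMap (𝓞 L) L : 𝓞 L →* L) ε = u := by
  constructor
  · intro h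
    have h0 : FractionalIdeal.spanSingleton (𝓞 L)⁰ (u : L) = 1 := by
      have h1 := congrArg Units.val h
      rw [coe_toPrincipalIdeal] at h1
      exact h1
    have h1 : (u : L) ∈ (1 : FractionalIdeal (𝓞 L)⁰ L) := by
      rw [← h0]
      exact FractionalIdeal.mem_spanSingleton_self _ _
    have h2 : (1 : L) ∈ FractionalIdeal.spanSingleton (𝓞 L)⁰ (u : L) := by
      rw [h0]
      exact FractionalIdeal.one_mem_one _
    obtain ⟨a, ha⟩ := (FractionalIdeal.mem_one_iff _).mp h1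
    obtain ⟨b, hb⟩ := (FractionalIdeal.mem_spanSingleton _).mp h2
    rw [Algebra.smul_def, ← ha, ← map_mul] at hb
    have h3 : b * a = 1 := by
      apply FaithfulSMul.algebraMap_injective (𝓞 L) L
      rw [hb, map_one]
    refine ⟨⟨a, b, by rw [mul_comm, h3], h3⟩, ?_⟩
    apply Units.ext
    exact ha
  · rintro ⟨ε, rfl⟩
    apply Units.ext
    rw [coe_toPrincipalIdeal]
    ext y
    rw [FractionalIdeal.mem_spanSingleton]
    change (∃ z : 𝓞 L, z • (algebraMap (𝓞 L) L (ε : 𝓞 L)) = y) ↔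
      y ∈ (1 : FractionalIdeal (𝓞 L)⁰ L)
    rw [FractionalIdeal.mem_one_iff]
    constructor
    · rintro ⟨z, rfl⟩
      exact ⟨z * ε, by rw [Algebra.smul_def, map_mul]⟩
    · rintro ⟨z, rfl⟩
      refine ⟨z * ((ε⁻¹ : (𝓞 L)ˣ) : 𝓞 L), ?_⟩
      rw [Algebra.smul_def, ← map_mul, mul_assoc, Units.inv_mul, mul_one]

/-- A subgroup containing all the `d`-th multiples has full rank. -/
theorem finrank_eq_of_nsmul_mem {B : Type*} [AddCommGroup B] [Module.Finite ℤ B]
    (H : AddSubgroup B) (d : ℕ) (hd : 0 < d) (h : ∀ x : B, d • x ∈ H) :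
    Module.finrank ℤ H = Module.finrank ℤ B := by
  have h1 := HERB.rank_nullity (QuotientAddGroup.mk' H)
  have hf1 : Module.Finite ℤ (QuotientAddGroup.mk' H).range :=
    Module.Finite.of_surjective (QuotientAddGroup.mk' H).rangeRestrict.toIntLinearMap
      (QuotientAddGroup.mk' H).rangeRestrict_surjective
  have h2 : Module.finrank ℤ (QuotientAddGroup.mk' H).range = 0 := by
    rw [Module.finrank_eq_zero_iff_isTorsion]
    rintro ⟨_, ⟨x, rfl⟩⟩
    refine ⟨⟨(d : ℤ), mem_nonZeroDivisors_of_ne_zero (by exact_mod_cast hd.ne')⟩, ?_⟩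
    apply Subtype.ext
    change ((d : ℤ) : ℤ) • (QuotientAddGroup.mk' H x) = 0
    rw [natCast_zsmul, ← map_nsmul]
    exact (QuotientAddGroup.eq_zero_iff _).mpr (h x)
  rw [h2, zero_add, QuotientAddGroup.ker_mk'] at h1
  exact h1

end RKU

theorem RKU_thm : RKU := by
  intro M L _ _ _ _ _ _
  have hinj : Function.Injective (Units.map (algebraMap (𝓞 L) L : 𝓞 L →* L)) :=
    Units.map_injective (FaithfulSMul.algebraMap_injective (𝓞 L) L)
  -- the norm on the units
  obtain ⟨φ, hφ⟩ : ∃ φ : (𝓞 L)ˣ →* (𝓞 M)ˣ, φ = Units.map (RingOfIntegers.norm M) := ⟨_, rfl⟩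
  have hφ' : ∀ ε : (𝓞 L)ˣ, φ ε = 1 ↔
      (∏ σ : L ≃ₐ[M] L, σ • Units.map (algebraMap (𝓞 L) L : 𝓞 L →* L) ε) = 1 := by
    intro ε
    have h1 : (((∏ σ : L ≃ₐ[M] L, σ • Units.map (algebraMap (𝓞 L) L : 𝓞 L →* L) ε) : Lˣ) : L) =
        algebraMap M L (Algebra.norm M ((ε : 𝓞 L) : L)) := by
      rw [Algebra.norm_eq_prod_automorphisms, Units.coe_prod]
      rfl
    have h2 : ((φ ε : 𝓞 M) : M) = Algebra.norm M ((ε : 𝓞 L) : L) := by
      rw [hφ]
      rfl
    constructor
    · intro h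
      apply Units.ext
      rw [h1, ← h2, h]
      simp
    · intro h
      apply Units.ext
      apply RingOfIntegers.ext
      rw [h2]
      apply FaithfulSMul.algebraMap_injective M L
      rw [← h1, h]
      simp
  obtain ⟨f, hf⟩ : ∃ f : Additive (𝓞 L)ˣ →+ Additive (𝓞 M)ˣ, f = φ.toAdditive := ⟨_, rfl⟩
  have hfk : ∀ x : Additive (𝓞 L)ˣ, x ∈ f.ker ↔ φ x.toMul = 1 := by
    intro x
    rw [AddMonoidHom.mem_ker, hf]
    rfl
  -- the kernel is the group of relative units
  obtain ⟨e⟩ : Nonempty (f.ker ≃+ Additive (relU M L)) := by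
    have h1 : ∀ x : f.ker, Units.map (algebraMap (𝓞 L) L : 𝓞 L →* L)
        ((x : Additive (𝓞 L)ˣ)).toMul ∈ relU M L := by
      intro x
      refine ⟨(RKU.prin_eq_one_iff _).mpr ⟨_, rfl⟩, ?_⟩
      rw [← hφ']
      exact (hfk _).mp x.2
    let e : f.ker →+ Additive (relU M L) :=
      { toFun := fun x => Additive.ofMul ⟨_, h1 x⟩
        map_zero' := by
          apply Additive.toMul.injective
          apply Subtype.ext
          exact map_one _
        map_add' := by
          intro x y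
          apply Additive.toMul.injective
          apply Subtype.ext
          exact map_mul _ _ _ }
    refine ⟨AddEquiv.ofBijective e ⟨?_, ?_⟩⟩
    · intro x y hxy
      apply Subtype.ext
      apply Additive.toMul.injective
      apply hinj
      exact congrArg (fun z : Additive (relU M L) => ((z.toMul : relU M L) : Lˣ)) hxy
    · intro y
      obtain ⟨hy1, hy2⟩ := y.toMul.2
      obtain ⟨ε, hε⟩ := (RKU.prin_eq_one_iff _).mp hy1
      rw [← hε, ← hφ'] at hy2
      refine ⟨⟨Additive.ofMul ε, (hfk _).mpr hy2⟩, ?_⟩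
      apply Additive.toMul.injective
      apply Subtype.ext
      exact hε
  have hfin : Module.Finite ℤ f.ker := by
    have : Module.Finite ℤ (AddSubgroup.toIntSubmodule f.ker) := inferInstance
    exact this
  have hfin' : Module.Finite ℤ (Additive (relU M L)) :=
    Module.Finite.equiv e.toIntLinearEquiv
  refine ⟨?_, ?_⟩
  · rw [← Group.fg_iff_subgroup_fg, GroupFG.iff_add_fg]
    exact Module.Finite.iff_addGroup_fg.mp hfin'
  · have h1 := HERB.rank_nullity f
    have h2 : Module.finrank ℤ f.range = Module.finrank ℤ (Additive (𝓞 M)ˣ) := by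
      have hd : 0 < Module.finrank M L := Module.finrank_pos
      refine RKU.finrank_eq_of_nsmul_mem f.range (Module.finrank M L) hd ?_
      intro x
      refine ⟨Additive.ofMul (Units.map (algebraMap (𝓞 M) (𝓞 L) : 𝓞 M →* 𝓞 L) x.toMul), ?_⟩
      rw [hf]
      apply Additive.toMul.injective
      apply Units.ext
      rw [hφ]
      change RingOfIntegers.norm M (algebraMap (𝓞 M) (𝓞 L) ((x.toMul : (𝓞 M)ˣ) : 𝓞 M)) = _
      rw [RingOfIntegers.norm_algebraMap]
      rfl
    rw [h2, NumberField.Units.finrank_eq, NumberField.Units.finrank_eq] at h1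
    rw [← e.toIntLinearEquiv.finrank_eq, add_comm]
    exact h1

end Pool.Agent.RI


end

section

/-!
# MU3, section 4, module AMBU: the units of `K` modulo norms (helper21)
-/

set_option autoImplicit false

open NumberField Finset IsDedekindDomain
open scoped nonZeroDivisors Pointwise

namespace MU3

open _root_.Pool.Agent.RI _root_.Pool.Agent.RID

namespace Ambu

theorem zpow_split {G : Type} [CommGroup G] (q : ℕ) (x : G) (a : ℤ) :
    x ^ a = x ^ (a % (q : ℤ)) * (x ^ (a / (q : ℤ))) ^ q := by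
  rw [← zpow_natCast (x ^ (a / (q : ℤ))) q, ← zpow_mul, ← zpow_add]
  congr 1
  have := Int.emod_add_mul_ediv a q
  linarith

theorem pow_index (K : Type) [Field K] [NumberField K] (q : ℕ) (hq : 0 < q) :
    (powMonoidHom q : (𝓞 K)ˣ →* (𝓞 K)ˣ).range.index ≠ 0 ∧
    (powMonoidHom q : (𝓞 K)ˣ →* (𝓞 K)ˣ).range.index ≤ q ^ (NumberField.Units.rank K + 1) := by
  classical
  set H := (powMonoidHom q : (𝓞 K)ˣ →* (𝓞 K)ˣ).range with hH
  obtain ⟨ζ, hζ⟩ := IsCyclic.exists_generator (α := NumberField.Units.torsion K)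
  set r := NumberField.Units.rank K with hr
  let φ : Fin q × (Fin r → Fin q) → (𝓞 K)ˣ ⧸ H := fun ab =>
    (((((ζ : (𝓞 K)ˣ)) ^ ((ab.1 : ℕ) : ℤ) *
      ∏ i, NumberField.Units.fundSystem K i ^ (((ab.2 i : Fin q) : ℕ) : ℤ)) : (𝓞 K)ˣ) : (𝓞 K)ˣ ⧸ H)
  have hφ : Function.Surjective φ := by
    intro y
    obtain ⟨x, rfl⟩ := QuotientGroup.mk_surjective y
    obtain ⟨⟨z, e⟩, hx, _⟩ := NumberField.Units.exist_unique_eq_mul_prod K x
    obtain ⟨a, ha⟩ := Subgroup.mem_zpowers_iff.1 (hζ z)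
    have hx' : x = ((ζ : (𝓞 K)ˣ)) ^ a * ∏ i, NumberField.Units.fundSystem K i ^ (e i) := by
      have h1 : x = (z : (𝓞 K)ˣ) * ∏ i, NumberField.Units.fundSystem K i ^ (e i) := hx
      rw [h1, ← ha, Subgroup.coe_zpow]
    have hq' : (0 : ℤ) < (q : ℤ) := by exact_mod_cast hq
    have key : ∀ b : ℤ, ∃ c : Fin q, ((c : ℕ) : ℤ) = b % (q : ℤ) := by
      intro b
      have h1 := Int.emod_nonneg b hq'.ne'
      have h2 := Int.emod_lt_of_pos b hq'
      refine ⟨⟨(b % (q : ℤ)).toNat, by omega⟩, ?_⟩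
      show (((b % (q : ℤ)).toNat : ℕ) : ℤ) = _
      exact Int.toNat_of_nonneg h1
    choose c hc using key
    refine ⟨(c a, fun i => c (e i)), ?_⟩
    show (((((ζ : (𝓞 K)ˣ)) ^ ((c a : ℕ) : ℤ) *
      ∏ i, NumberField.Units.fundSystem K i ^ (((c (e i) : Fin q) : ℕ) : ℤ)) : (𝓞 K)ˣ) :
        (𝓞 K)ˣ ⧸ H) = (x : (𝓞 K)ˣ ⧸ H)
    rw [QuotientGroup.eq]
    refine ⟨((ζ : (𝓞 K)ˣ)) ^ (a / (q : ℤ)) *
      ∏ i, NumberField.Units.fundSystem K i ^ (e i / (q : ℤ)), ?_⟩
    show (((ζ : (𝓞 K)ˣ)) ^ (a / (q : ℤ)) *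
      ∏ i, NumberField.Units.fundSystem K i ^ (e i / (q : ℤ))) ^ q = _
    rw [eq_inv_mul_iff_mul_eq, hx', hc a, mul_pow, mul_mul_mul_comm, ← zpow_split q, ← prod_pow,
      ← prod_mul_distrib]
    congr 1
    apply prod_congr rfl
    intro i _
    rw [hc (e i), ← zpow_split q]
  have hfin : Finite ((𝓞 K)ˣ ⧸ H) := Finite.of_surjective φ hφ
  constructor
  · have : 0 < Nat.card ((𝓞 K)ˣ ⧸ H) := Nat.card_pos
    exact this.ne'
  · have h1 := Nat.card_le_card_of_surjective φ hφ
    have h2 : Nat.card (Fin q × (Fin r → Fin q)) = q ^ (r + 1) := by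
      rw [Nat.card_eq_fintype_card, Fintype.card_prod, Fintype.card_fun, Fintype.card_fin,
        Fintype.card_fin, pow_succ, mul_comm]
    rw [h2] at h1
    exact h1

end Ambu

open _root_.MU3.Ambu in
theorem n_AMBU : N_AMBU := by
  intro F K L _ _ _ _ _ _ _ _ _ _ g q hg
  obtain ⟨hgal, hfr, _, _, hfix, _, _, _, _, hfixK, _⟩ := t_CYC F K L g q hg
  have hq : 0 < q := by
    rw [← hfr]
    exact Module.finrank_pos
  set f : (𝓞 K)ˣ →* Lˣ := (Units.map (algebraMap K L : K →* L)).comp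
    (Units.map (algebraMap (𝓞 K) K : 𝓞 K →* K)) with hf
  have hfg : ∀ ε, g • f ε = f ε := fun ε => hfixK _
  have hfp : ∀ ε, prin (f ε) = 1 := by
    intro ε
    rw [hf]
    show prin (Units.map (algebraMap K L : K →* L)
      (Units.map (algebraMap (𝓞 K) K : 𝓞 K →* K) ε)) = 1
    rw [RKF.prin_map_eq_one_iff, RKU.prin_eq_one_iff]
    exact ⟨ε, rfl⟩
  have hrange : (prin : Lˣ →* J L).ker ⊓ (dg g).ker = f.range := by
    ext x
    rw [Subgroup.mem_inf, MonoidHom.mem_ker, mem_dg_ker, MonoidHom.mem_range]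
    constructor
    · rintro ⟨h1, h2⟩
      obtain ⟨y, rfl⟩ := hfix x h2
      rw [RKF.prin_map_eq_one_iff, RKU.prin_eq_one_iff] at h1
      obtain ⟨ε, rfl⟩ := h1
      exact ⟨ε, rfl⟩
    · rintro ⟨ε, rfl⟩
      exact ⟨hfp ε, hfg ε⟩
  have hng : ∀ ε, ng g q (f ε) = f ε ^ q := by
    intro ε
    rw [ng_apply]
    have h1 : ∀ i : ℕ, g ^ i • f ε = f ε := by
      intro i
      induction i with
      | zero => rw [pow_zero, one_smul]
      | succ i ih => rw [pow_succ, mul_smul, hfg, ih]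
    rw [prod_congr rfl (fun i _ => h1 i), prod_const, card_range]
  have hle : (powMonoidHom q : (𝓞 K)ˣ →* (𝓞 K)ˣ).range ≤
      ((prin : Lˣ →* J L).ker.map (ng g q)).comap f := by
    rintro _ ⟨ε, rfl⟩
    rw [Subgroup.mem_comap, Subgroup.mem_map]
    refine ⟨f ε, MonoidHom.mem_ker.2 (hfp ε), ?_⟩
    rw [hng, powMonoidHom_apply, map_pow]
  obtain ⟨h1, h2⟩ := pow_index K q hq
  rw [hrange, ← Subgroup.index_comap]
  have h3 := Subgroup.index_dvd_of_le hle
  constructor
  · intro h0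
    rw [h0] at h3
    exact h1 (Nat.eq_zero_of_zero_dvd h3)
  · exact (Nat.le_of_dvd (Nat.pos_of_ne_zero h1) h3).trans h2

end MU3


end

section

/-!
# RK1: Dirichlet's unit theorem for the fixed field of a group of automorphisms
-/

open NumberField Finset IsDedekindDomain
open scoped nonZeroDivisors Pointwise

namespace Pool.Agent.RID

open _root_.Pool.Agent.RI

namespace RK1

/-- elements of `H` and automorphisms over the fixed field -/
theorem fix_iff {F L : Type} [Field F] [Field L] [Algebra F L] [FiniteDimensional F L]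
    (H : Subgroup (L ≃ₐ[F] L)) (σ : L ≃ₐ[F] L) :
    σ ∈ H ↔ ∃ τ : L ≃ₐ[IntermediateField.fixedField H] L, ∀ x : L, τ x = σ x := by
  constructor
  · intro hσ
    have h1 : σ ∈ (IntermediateField.fixedField H).fixingSubgroup := by
      rw [IntermediateField.fixingSubgroup_fixedField]
      exact hσ
    exact ⟨IntermediateField.fixingSubgroupEquiv _ ⟨σ, h1⟩, fun x => rfl⟩
  · rintro ⟨τ, hτ⟩
    rw [← IntermediateField.fixingSubgroup_fixedField H]
    intro x
    have h1 := τ.commutes x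
    exact (hτ _).symm.trans h1

/-- places of the fixed field -/
theorem card_places {F L : Type} [Field F] [NumberField F] [Field L] [NumberField L]
    [Algebra F L] [IsGalois F L] (H : Subgroup (L ≃ₐ[F] L)) :
    Nat.card (MulAction.orbitRel.Quotient H (InfinitePlace L)) =
      Fintype.card (InfinitePlace (IntermediateField.fixedField H)) := by
  have e1 : MulAction.orbitRel.Quotient H (InfinitePlace L) ≃
      Quotient (MulAction.orbitRel (L ≃ₐ[IntermediateField.fixedField H] L)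
        (InfinitePlace L)) := by
    refine Quotient.congr (Equiv.refl _) ?_
    intro w w'
    change w ∈ MulAction.orbit H w' ↔ w ∈ MulAction.orbit (L ≃ₐ[IntermediateField.fixedField H] L) w'
    constructor
    · rintro ⟨σ, hσ⟩
      obtain ⟨τ, hτ⟩ := (fix_iff H (σ : L ≃ₐ[F] L)).1 σ.2
      refine ⟨τ, ?_⟩
      rw [← hσ]
      ext x
      change w' (τ.symm x) = w' ((σ : L ≃ₐ[F] L).symm x)
      congr 1
      rw [AlgEquiv.symm_apply_eq, hτ, AlgEquiv.apply_symm_apply]
    · rintro ⟨τ, hτ⟩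
      have h1 : τ.restrictScalars F ∈ H := (fix_iff H _).2 ⟨τ, fun x => rfl⟩
      refine ⟨⟨_, h1⟩, ?_⟩
      rw [← hτ]
      rfl
  rw [Nat.card_congr (e1.trans InfinitePlace.orbitRelEquiv), Nat.card_eq_fintype_card]

/-- units of the fixed field -/
theorem units_equiv {F L κ : Type} [Field F] [NumberField F] [Field L] [NumberField L]
    [Algebra F L] [IsGalois F L] (N : κ → Subgroup (L ≃ₐ[F] L)) (H : Subgroup (L ≃ₐ[F] L)) :
    Nonempty ((𝓞 (IntermediateField.fixedField H))ˣ ≃* WU ([] : List κ) N H) := by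
  set M := IntermediateField.fixedField H with hM
  have hinj : Function.Injective (Units.map (algebraMap M L : M →* L)) :=
    Units.map_injective (FaithfulSMul.algebraMap_injective M L)
  have hinj' : Function.Injective (Units.map (algebraMap (𝓞 M) M : 𝓞 M →* M)) :=
    Units.map_injective (FaithfulSMul.algebraMap_injective (𝓞 M) M)
  have h4 : ∀ x : (𝓞 M)ˣ, Units.map (algebraMap M L : M →* L)
      (Units.map (algebraMap (𝓞 M) M : 𝓞 M →* M) x) ∈ WU ([] : List κ) N H := by
    intro x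
    refine ⟨?_, ?_, ?_⟩
    · rw [RKF.prin_map_eq_one_iff, RKU.prin_eq_one_iff]
      exact ⟨x, rfl⟩
    · intro σ hσ
      obtain ⟨τ, hτ⟩ := (fix_iff H σ).1 hσ
      apply Units.ext
      change σ (algebraMap M L _) = algebraMap M L _
      rw [← hτ]
      exact τ.commutes _
    · rw [mem_part]
      intro i hi
      simp at hi
  let e : (𝓞 M)ˣ →* WU ([] : List κ) N H :=
    ((Units.map (algebraMap M L : M →* L)).comp
      (Units.map (algebraMap (𝓞 M) M : 𝓞 M →* M))).codRestrict _ h4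
  refine ⟨MulEquiv.ofBijective e ⟨?_, ?_⟩⟩
  · intro x y hxy
    apply hinj'
    apply hinj
    exact congrArg (fun z : WU ([] : List κ) N H => (z : Lˣ)) hxy
  · rintro ⟨u, hu, hu', hu''⟩
    obtain ⟨x, rfl⟩ := RKF.exists_of_fixed (K := M) u (by
      intro τ
      have h1 : τ.restrictScalars F ∈ H := (fix_iff H _).2 ⟨τ, fun x => rfl⟩
      exact hu' _ h1)
    rw [RKF.prin_map_eq_one_iff, RKU.prin_eq_one_iff] at hu
    obtain ⟨ε, rfl⟩ := hu
    exact ⟨ε, rfl⟩

end RK1

theorem t_RK1 : S_RK1 := by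
  intro F L κ _ _ _ _ _ _ N H
  obtain ⟨e⟩ := RK1.units_equiv N H
  rw [RK1.card_places H, ← (MulEquiv.toAdditive e).toIntLinearEquiv.finrank_eq,
    NumberField.Units.finrank_eq, NumberField.Units.rank]
  have c1 : 0 < Fintype.card (InfinitePlace (IntermediateField.fixedField H)) := Fintype.card_pos
  omega

end Pool.Agent.RID


end

section

/-!
# MU3P_HQE: the Herbrand quotient of the unit group
-/

open NumberField Finset IsDedekindDomain
open scoped nonZeroDivisors Pointwise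

namespace MU3

open _root_.Pool.Agent.RI _root_.Pool.Agent.RID

namespace HQE

/-- the trivial action on `ℤ` -/
@[reducible]
def triv (G : Type) [Group G] : MulDistribMulAction G (Multiplicative ℤ) where
  smul _ x := x
  one_smul _ := rfl
  mul_smul _ _ _ := rfl
  smul_mul _ _ _ := rfl
  smul_one _ := rfl

lemma relIndex_prod {G G' : Type} [Group G] [Group G'] (H₁ H₂ : Subgroup G)
    (K₁ K₂ : Subgroup G') :
    (H₁.prod K₁).relIndex (H₂.prod K₂) = H₁.relIndex H₂ * K₁.relIndex K₂ := by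
  have h1 := Subgroup.index_comap (H₁.prod K₁) ((H₂.subtype).prodMap (K₂.subtype))
  have h2 : ((H₂.subtype).prodMap (K₂.subtype)).range = H₂.prod K₂ := by
    ext ⟨x, y⟩
    constructor
    · rintro ⟨⟨a, b⟩, hab⟩
      rw [← hab]
      exact ⟨a.2, b.2⟩
    · rintro ⟨hx, hy⟩
      exact ⟨(⟨x, hx⟩, ⟨y, hy⟩), rfl⟩
  have h3 : (H₁.prod K₁).comap ((H₂.subtype).prodMap (K₂.subtype)) =
      (H₁.subgroupOf H₂).prod (K₁.subgroupOf K₂) := by
    ext ⟨a, b⟩
    rfl
  rw [h2, h3, Subgroup.index_prod] at h1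
  rw [← h1]
  rfl

lemma finrank_prod_top {A : Type} [CommGroup A] (X : Subgroup A) (hX : X.FG) :
    Module.finrank ℤ (Additive ↥(X.prod (⊤ : Subgroup (Multiplicative ℤ)))) =
      Module.finrank ℤ (Additive ↥X) + 1 := by
  have hfin : Module.Finite ℤ (Additive ↥X) := by
    rw [Module.Finite.iff_addGroup_fg, ← GroupFG.iff_add_fg, Group.fg_iff_subgroup_fg]
    exact hX
  have e1 : Additive ↥(X.prod (⊤ : Subgroup (Multiplicative ℤ))) ≃+ Additive ↥X × ℤ :=
    { toFun := fun x => (Additive.ofMul ⟨x.toMul.1.1, x.toMul.2.1⟩, (x.toMul.1.2).toAdd)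
      invFun := fun y => Additive.ofMul ⟨(y.1.toMul.1, Multiplicative.ofAdd y.2),
        ⟨y.1.toMul.2, Subgroup.mem_top _⟩⟩
      left_inv := fun x => rfl
      right_inv := fun y => rfl
      map_add' := fun x y => rfl }
  rw [e1.toIntLinearEquiv.finrank_eq]
  have h2 := HERB.rank_nullity (AddMonoidHom.snd (Additive ↥X) ℤ)
  have h3 : Module.finrank ℤ (AddMonoidHom.snd (Additive ↥X) ℤ).range = 1 := by
    have : (AddMonoidHom.snd (Additive ↥X) ℤ).range = ⊤ :=
      AddMonoidHom.range_eq_top.2 (fun y => ⟨(0, y), rfl⟩)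
    rw [this]
    have e2 : (⊤ : AddSubgroup ℤ) ≃+ ℤ := AddSubgroup.topEquiv
    rw [e2.toIntLinearEquiv.finrank_eq]
    exact Module.finrank_self ℤ
  have h4 : Module.finrank ℤ (AddMonoidHom.snd (Additive ↥X) ℤ).ker =
      Module.finrank ℤ (Additive ↥X) := by
    have e3 : (AddMonoidHom.snd (Additive ↥X) ℤ).ker ≃+ Additive ↥X :=
      { toFun := fun x => x.1.1
        invFun := fun y => ⟨(y, 0), rfl⟩
        left_inv := fun x => Subtype.ext (Prod.ext rfl x.2.symm)
        right_inv := fun y => rfl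
        map_add' := fun x y => rfl }
    exact e3.toIntLinearEquiv.finrank_eq
  rw [h3, h4] at h2
  omega

lemma index_pow (q : ℕ) :
    ((⊤ : Subgroup (Multiplicative ℤ)).map (powMonoidHom q)).index = q := by
  have h1 : (⊤ : Subgroup (Multiplicative ℤ)).map (powMonoidHom q) =
      AddSubgroup.toSubgroup (AddSubgroup.zmultiples (q : ℤ)) := by
    ext x
    constructor
    · rintro ⟨y, -, rfl⟩
      change (Multiplicative.toAdd (y ^ q)) ∈ AddSubgroup.zmultiples (q : ℤ)
      rw [toAdd_pow]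
      refine ⟨Multiplicative.toAdd y, ?_⟩
      simp [mul_comm]
    · intro hx
      change (Multiplicative.toAdd x) ∈ AddSubgroup.zmultiples (q : ℤ) at hx
      obtain ⟨m, hm⟩ := hx
      refine ⟨Multiplicative.ofAdd m, Subgroup.mem_top _, ?_⟩
      apply Multiplicative.toAdd.injective
      rw [← hm]
      simp [powMonoidHom_apply, toAdd_pow, mul_comm]
  rw [h1]
  have h2 : (AddSubgroup.toSubgroup (AddSubgroup.zmultiples (q : ℤ))).index =
      (AddSubgroup.zmultiples (q : ℤ)).index := rfl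
  rw [h2, Int.index_zmultiples, Int.natAbs_natCast]

theorem _root_.MU3.HQE.abs (hH : S_HERBQ) (p a : ℕ) [Fact p.Prime] (A G : Type) [CommGroup A] [Group G]
    [MulDistribMulAction G A] (g : G) (E : Subgroup A) (hg : g ^ (p ^ a) = 1)
    (hFG : ∀ h : G, (E ⊓ (dg h : A →* A).ker).FG)
    (hst : ∀ u ∈ E, g • u ∈ E)
    (hr : ∀ i ≤ a, Module.finrank ℤ (Additive ↥(E ⊓ (dg (g ^ (p ^ i)) : A →* A).ker)) + 1 =
      p ^ i * (Module.finrank ℤ (Additive ↥(E ⊓ (dg g : A →* A).ker)) + 1)) :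
    (E.map (dg g)).relIndex (E ⊓ (ng g (p ^ a)).ker) ≠ 0 ∧
    (E.map (ng g (p ^ a))).relIndex (E ⊓ (dg g).ker) * p ^ a =
      (E.map (dg g)).relIndex (E ⊓ (ng g (p ^ a)).ker) := by
  letI := triv G
  have hp : 0 < p := (Fact.out : p.Prime).pos
  have htr : ∀ (h : G) (z : Multiplicative ℤ), h • z = z := fun _ _ => rfl
  have hdgZ : ∀ (h : G) (z : Multiplicative ℤ), dg h z = 1 := fun h z => by
    rw [dg_apply, htr, div_self']
  have hngZ : ∀ (h : G) (q : ℕ) (z : Multiplicative ℤ), ng h q z = z ^ q := fun h q z => by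
    rw [ng_apply]
    simp [htr]
  have hdg : ∀ (h : G) (x : A × Multiplicative ℤ), dg h x = (dg h x.1, 1) := fun h x =>
    Prod.ext rfl (hdgZ h x.2)
  have hng : ∀ (h : G) (q : ℕ) (x : A × Multiplicative ℤ), ng h q x = (ng h q x.1, x.2 ^ q) := by
    intro h q x
    have e1 : (ng h q x).1 = ng h q x.1 := by
      rw [ng_apply, ng_apply, Prod.fst_prod]
      rfl
    have e2 : (ng h q x).2 = x.2 ^ q := by
      rw [← hngZ h q x.2, ng_apply, ng_apply, Prod.snd_prod]
      rfl
    exact Prod.ext e1 e2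
  have hker : ∀ h : G, (E.prod (⊤ : Subgroup (Multiplicative ℤ))) ⊓
      (dg h : A × Multiplicative ℤ →* A × Multiplicative ℤ).ker =
      (E ⊓ (dg h : A →* A).ker).prod ⊤ := by
    intro h
    ext ⟨x, z⟩
    rw [Subgroup.mem_inf, Subgroup.mem_prod, Subgroup.mem_prod, Subgroup.mem_inf,
      MonoidHom.mem_ker, MonoidHom.mem_ker, hdg]
    simp [Prod.ext_iff]
  have hE : E.FG := by
    have := hFG 1
    have h1 : E ⊓ (dg (1 : G) : A →* A).ker = E := by
      refine inf_eq_left.2 fun x _ => ?_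
      rw [mem_dg_ker, one_smul]
    rwa [h1] at this
  have hE' : (E.prod (⊤ : Subgroup (Multiplicative ℤ))).FG := by
    refine hE.prod ?_
    rw [← Group.fg_def]
    infer_instance
  obtain ⟨k0, k1⟩ := hH p a (A × Multiplicative ℤ) G g (E.prod ⊤) hg hE'
    (by
      rintro ⟨u, z⟩ ⟨hu, -⟩
      exact ⟨hst u hu, Subgroup.mem_top _⟩)
    (by
      intro i hi
      rw [hker, hker, finrank_prod_top _ (hFG _), finrank_prod_top _ (hFG _)]
      exact hr i hi)
  have m1 : (E.prod (⊤ : Subgroup (Multiplicative ℤ))).map (ng g (p ^ a)) =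
      (E.map (ng g (p ^ a))).prod ((⊤ : Subgroup (Multiplicative ℤ)).map
        (powMonoidHom (p ^ a))) := by
    ext ⟨x, z⟩
    constructor
    · rintro ⟨⟨u, y⟩, ⟨hu, -⟩, huy⟩
      rw [hng] at huy
      obtain ⟨e1, e2⟩ := Prod.ext_iff.1 huy
      exact ⟨⟨u, hu, e1⟩, ⟨y, Subgroup.mem_top _, e2⟩⟩
    · rintro ⟨⟨u, hu, e1⟩, ⟨y, -, e2⟩⟩
      refine ⟨(u, y), ⟨hu, Subgroup.mem_top _⟩, ?_⟩
      rw [hng]
      exact Prod.ext e1 e2
  have m2 : (E.prod (⊤ : Subgroup (Multiplicative ℤ))).map (dg g) =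
      (E.map (dg g)).prod ⊥ := by
    ext ⟨x, z⟩
    constructor
    · rintro ⟨⟨u, y⟩, ⟨hu, -⟩, huy⟩
      rw [hdg] at huy
      obtain ⟨e1, e2⟩ := Prod.ext_iff.1 huy
      exact ⟨⟨u, hu, e1⟩, Subgroup.mem_bot.2 e2.symm⟩
    · rintro ⟨⟨u, hu, e1⟩, e2⟩
      refine ⟨(u, 1), ⟨hu, Subgroup.mem_top _⟩, ?_⟩
      rw [hdg]
      exact Prod.ext e1 (Subgroup.mem_bot.1 e2).symm
  have m3 : (E.prod (⊤ : Subgroup (Multiplicative ℤ))) ⊓
      (ng g (p ^ a) : A × Multiplicative ℤ →* A × Multiplicative ℤ).ker =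
      (E ⊓ (ng g (p ^ a) : A →* A).ker).prod ⊥ := by
    ext ⟨x, z⟩
    rw [Subgroup.mem_inf, Subgroup.mem_prod, Subgroup.mem_prod, Subgroup.mem_inf,
      MonoidHom.mem_ker, MonoidHom.mem_ker, hng]
    constructor
    · rintro ⟨⟨h1, -⟩, h2⟩
      obtain ⟨e1, e2⟩ := Prod.ext_iff.1 h2
      refine ⟨⟨h1, e1⟩, ?_⟩
      rw [Subgroup.mem_bot]
      have e3 : z ^ (p ^ a) = 1 := e2
      have hpa : (p ^ a : ℕ) ≠ 0 := (pow_pos hp a).ne'
      have e4 : ((p ^ a : ℕ) : ℤ) * Multiplicative.toAdd z = 0 := by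
        have := congrArg Multiplicative.toAdd e3
        rw [toAdd_pow] at this
        simpa using this
      rcases mul_eq_zero.1 e4 with h | h
      · exact absurd (by exact_mod_cast h) hpa
      · exact Multiplicative.toAdd.injective h
    · rintro ⟨⟨h1, h2⟩, h3⟩
      rw [Subgroup.mem_bot] at h3
      refine ⟨⟨h1, Subgroup.mem_top _⟩, ?_⟩
      exact Prod.ext h2 (by
        change z ^ (p ^ a) = 1
        have h3' : z = 1 := h3
        rw [h3', one_pow])
  rw [m1, hker, relIndex_prod] at k0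
  rw [m1, hker, relIndex_prod, m2, m3, relIndex_prod] at k1
  rw [Subgroup.relIndex_top_right, index_pow, Subgroup.relIndex_bot_right, mul_one] at k1
  rw [Subgroup.relIndex_top_right, index_pow] at k0
  refine ⟨?_, k1⟩
  rw [← k1]
  exact k0

end HQE

open _root_.MU3.HQE in
theorem p_HQE (hHERBQ : S_HERBQ) (hRK1 : S_RK1) (hRK2 : S_RK2) (hRK3 : S_RK3)
    (hCYC : S_CYC) : P_HQE := by
  intro p a _ K L _ _ _ _ _ g hc hinf
  obtain ⟨hgal, -, -, -, -, -, -, -, -, -, hfree⟩ := hCYC K K L g (p ^ a) hc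
  have hWU : ∀ h : L ≃ₐ[K] L, UE L ⊓ (dg h : Lˣ →* Lˣ).ker =
      WU ([] : List Unit) (fun _ => ⊥) (Subgroup.zpowers h) := by
    intro h
    rw [← STEPC.ker_fix ([] : List Unit) (fun _ => ⊥) h]
    congr 1
    refine (inf_eq_left.2 fun u _ => ?_).symm
    rw [mem_part]
    intro i hi
    exact absurd hi (by simp)
  have hfg : ∀ H : Subgroup (L ≃ₐ[K] L), (WU ([] : List Unit) (fun _ => ⊥) H).FG := by
    intro H
    exact (hRK3 K L Unit [] () (fun _ => ⊥) H (fun j _ => inferInstance)).1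
  refine _root_.MU3.HQE.abs hHERBQ p a Lˣ (L ≃ₐ[K] L) g (UE L) ?_ ?_ ?_ ?_
  · rw [← hc.ord]
    exact pow_orderOf_eq_one g
  · intro h
    rw [hWU]
    exact hfg _
  · intro u hu
    rw [MonoidHom.mem_ker] at hu ⊢
    rw [← smul_prin, hu, smul_one]
  · intro i hi
    rw [hWU, hWU, hRK1, hRK1]
    have h3 := hRK2 p a (L ≃ₐ[K] L) (InfinitePlace L) g ⊥ hc.ord (by simp)
      (by intro h hh; rw [Subgroup.mem_bot.1 hh]; simp) (hfree hinf) i hi
    rw [bot_sup_eq, bot_sup_eq] at h3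
    exact h3

end MU3


end

section

/-!
# MU3, block V: values of `Θ_a` and the norm from `F_(m lam)` to `D` (helper59)
-/

set_option autoImplicit false

open WeierstrassCurve Polynomial NumberField IsDedekindDomain

namespace Pool.Agent.MU3V

open _root_.MU3 _root_.Pool.Agent.MU3A _root_.Pool.Agent.MU3B _root_.Pool.Agent.MU3C _root_.Pool.Agent.RI

noncomputable section

variable {A B : ℤ}

section
variable (h : Case A B) {L : PeriodPair} {Om : ℂ} (hL : IsCM A B L Om) {m lam : OO A B}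
  (hm : m ≠ 0) (hlam : lam ≠ 0) (hcop : IsCoprime m lam) (hu : ¬ IsUnit lam)
  {a : ℤ} {H : Finset ℂ} (hH : IsHalf L a H)

include hL in
lemma theta_cong (hTIN : St_TIN) (hH : IsHalf L a H) {z z' : ℂ} (hz : z - z' ∈ L.lattice) :
    ThetaH L H z = ThetaH L H z' := by
  have := (hTIN L a H H hH hH).2.2 z' (z - z') hz
  rwa [add_sub_cancel] at this

include h hL hm in
lemma emb_div_mem {x y : OO A B} : emb x * (Om / emb m) - emb y * (Om / emb m) ∈ L.lattice ↔
    m ∣ x - y := by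
  rw [← sub_mul, ← emb_sub h]
  exact hL.mul_div_mem_iff h hm _

include h hL hm hlam hcop hu in
lemma z0_notMem (s : OO A B) : emb s * (Om / emb m) + (Om / emb lam) ∉ L.lattice := by
  intro hz
  have h1 := hL.emb_mul_mem h m hz
  have hm0 := emb_ne_zero h hm
  have h2 : emb m * (emb s * (Om / emb m) + (Om / emb lam)) = Om * emb s + emb m * (Om / emb lam) := by
    field_simp
  rw [h2] at h1
  have h3 : Om * emb s ∈ L.lattice := (hL.mem _).2 ⟨s, rfl⟩
  have h4 := sub_mem h1 h3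
  rw [add_sub_cancel_left] at h4
  have h5 := (hL.mul_div_mem_iff h hlam m).1 h4
  exact hu (hcop.symm.isUnit_of_dvd' dvd_rfl h5)

include h hL hm hlam in
lemma z0_tors (s t : OO A B) : emb (m * lam) * (emb s * (Om / emb m) + emb t * (Om / emb lam)) ∈
    L.lattice := by
  have hm0 := emb_ne_zero h hm
  have hl0 := emb_ne_zero h hlam
  refine (hL.mem _).2 ⟨lam * s + m * t, ?_⟩
  rw [emb_add h, emb_mul h, emb_mul h, emb_mul h]
  field_simp

include h hL hm hlam hH in
/-- Galois action on a value of `Θ_a` -/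
lemma theta_sigma (hTHG : Sw_THG) (hTIN : St_TIN) (ha : a ≠ 0) [IsDomain (OO A B)] (s t : OO A B)
    (hz : emb s * (Om / emb m) + emb t * (Om / emb lam) ∉ L.lattice)
    {ρ : (TF L (m * lam) ≃ₐ[kk A B] TF L (m * lam)) →* (OO A B ⧸ Ideal.span {m * lam})ˣ}
    (hρ : ∀ (σ : TF L (m * lam) ≃ₐ[kk A B] TF L (m * lam)) (x : OO A B),
      Act L (_root_.Pool.Agent.MU3A.em σ) (m * lam) x ↔ ((ρ σ : (OO A B ⧸ Ideal.span {m * lam})ˣ) :
        OO A B ⧸ Ideal.span {m * lam}) = cls (m * lam) x)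
    (σ : TF L (m * lam) ≃ₐ[kk A B] TF L (m * lam))
    (hmem : ThetaH L H (emb s * (Om / emb m) + emb t * (Om / emb lam)) ∈ TF L (m * lam)) :
    (σ ⟨_, hmem⟩ : ℂ) = ThetaH L H
      (emb (s * Quotient.out (rd (dvd_mul_right m lam) ((ρ σ : (OO A B ⧸ Ideal.span {m * lam})ˣ) :
        OO A B ⧸ Ideal.span {m * lam}))) * (Om / emb m) +
      emb (t * Quotient.out (rd (dvd_mul_left lam m) ((ρ σ : (OO A B ⧸ Ideal.span {m * lam})ˣ) :
        OO A B ⧸ Ideal.span {m * lam}))) * (Om / emb lam)) := by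
  have hN : m * lam ≠ 0 := mul_ne_zero hm hlam
  obtain ⟨hz1, hz2⟩ := hTHG A B L Om h hL (m * lam) hN a H ha hH _
    (z0_tors h hL hm hlam s t) hz
  set x := Quotient.out ((ρ σ : (OO A B ⧸ Ideal.span {m * lam})ˣ) :
    OO A B ⧸ Ideal.span {m * lam}) with hx
  have hx1 : ((ρ σ : (OO A B ⧸ Ideal.span {m * lam})ˣ) : OO A B ⧸ Ideal.span {m * lam}) =
      cls (m * lam) x := (cls_out _).symm
  have hx2 : Act L (_root_.Pool.Agent.MU3A.em σ) (m * lam) x := (hρ σ x).2 hx1
  have e1 : (σ ⟨_, hmem⟩ : ℂ) = ThetaH L H (emb x * (emb s * (Om / emb m) +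
      emb t * (Om / emb lam))) := hz2 (_root_.Pool.Agent.MU3A.em σ) x hx2
  rw [e1]
  refine theta_cong hL hTIN hH ?_
  rw [hx1, rd_cls, rd_cls]
  have d1 : m ∣ x * s - s * Quotient.out (cls m x) := by
    have : m ∣ x - Quotient.out (cls m x) := cls_eq_iff.1 (cls_out _).symm
    have h2 := this.mul_left s
    rwa [mul_sub, mul_comm s x] at h2
  have d2 : lam ∣ x * t - t * Quotient.out (cls lam x) := by
    have : lam ∣ x - Quotient.out (cls lam x) := cls_eq_iff.1 (cls_out _).symm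
    have h2 := this.mul_left t
    rwa [mul_sub, mul_comm t x] at h2
  have m1 := (emb_div_mem h hL hm).2 d1
  have m2 := (emb_div_mem h hL hlam).2 d2
  have := add_mem m1 m2
  convert this using 1
  rw [emb_mul h x s, emb_mul h x t]
  ring

/-! ### The fibre product -/

include h hL hm hlam hcop hu hH in
lemma fibre (hDISI : Sw_DISI) (hTIN : St_TIN) (ha : a ≠ 0) (hcl : IsCoprime (a : OO A B) lam)
    (hcm : IsCoprime (a : OO A B) m) (hmu : ¬ IsUnit m)
    (hf : IsField (OO A B ⧸ Ideal.span {lam})) [Finite (OO A B ⧸ Ideal.span {lam})] :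
    ∃ C ∈ kk A B, C ≠ 0 ∧ ∀ y : OO A B, IsCoprime y m →
      (∏ᶠ r : (OO A B ⧸ Ideal.span {lam})ˣ, ThetaH L H (emb y * (Om / emb m) +
        emb (Quotient.out (r : OO A B ⧸ Ideal.span {lam})) * (Om / emb lam))) *
          ThetaH L H (emb y * (Om / emb m)) =
        C * ThetaH L H (emb (lam * y) * (Om / emb m)) := by
  classical
  obtain ⟨C, hC, hC0, hC2⟩ := hDISI A B L Om h hL lam hlam a H ha hcl hH
  refine ⟨C, hC, hC0, fun y hy => ?_⟩
  set z := emb y * (Om / emb m) with hz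
  have hz1 : emb lam * a * z ∉ L.lattice := by
    have e : emb lam * a * z = emb (lam * (a : OO A B) * y) * (Om / emb m) := by
      rw [emb_mul h, emb_mul h, emb_intCast h, hz]; ring
    rw [e, hL.mul_div_mem_iff h hm]
    intro hd
    have c1 : IsCoprime (lam * (a : OO A B) * y) m := (hcop.symm.mul_left hcm).mul_left hy
    exact hmu (c1.symm.isUnit_of_dvd' dvd_rfl hd)
  have e2 := hC2 z hz1
  have e3 : emb (lam * y) * (Om / emb m) = emb lam * z := by rw [emb_mul h, hz]; ring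
  rw [e3, ← e2]
  have : Fintype (OO A B ⧸ Ideal.span {lam}) := Fintype.ofFinite _
  have : Fintype (OO A B ⧸ Ideal.span {lam})ˣ := Fintype.ofFinite _
  rw [finprod_eq_prod_of_fintype, finprod_eq_prod_of_fintype]
  set F : (OO A B ⧸ Ideal.span {lam}) → ℂ := fun t =>
    ThetaH L H (z + emb (Quotient.out t) * (Om / emb lam)) with hF
  have f0 : F 0 = ThetaH L H z := by
    refine theta_cong hL hTIN hH ?_
    rw [add_sub_cancel_left, hL.mul_div_mem_iff h hlam]
    have : cls lam (Quotient.out (0 : OO A B ⧸ Ideal.span {lam})) = cls lam 0 := by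
      rw [cls_out]; unfold cls; exact (map_zero _).symm
    rw [cls_eq_iff, sub_zero] at this
    exact this
  have e4 : ∏ t, F t = (∏ r : (OO A B ⧸ Ideal.span {lam})ˣ, F (r : OO A B ⧸ Ideal.span {lam})) * F 0 := by
    rw [← Finset.prod_erase_mul Finset.univ F (Finset.mem_univ 0)]
    congr 1
    refine (Finset.prod_bij (fun (r : (OO A B ⧸ Ideal.span {lam})ˣ) _ =>
      (r : OO A B ⧸ Ideal.span {lam})) ?_ ?_ ?_ ?_).symm
    · intro r _
      rw [Finset.mem_erase]
      refine ⟨fun h0 => ?_, Finset.mem_univ _⟩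
      obtain ⟨x, y, hxy⟩ := hf.exists_pair_ne
      have h1 := r.mul_inv
      rw [h0, zero_mul] at h1
      exact hxy (by rw [← one_mul x, ← h1, zero_mul, ← one_mul y, ← h1, zero_mul])
    · intro r _ s _ e
      exact Units.ext e
    · intro t ht
      obtain ⟨s, hs⟩ := hf.mul_inv_cancel (Finset.ne_of_mem_erase ht)
      exact ⟨⟨t, s, hs, by rw [mul_comm]; exact hs⟩, Finset.mem_univ _, rfl⟩
    · intro r _; rfl
  rw [← f0]
  exact e4.symm

end

end

end Pool.Agent.MU3V


end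

section

/-!
# MU3, block V: the norm of `Θ_a(u + u')` from `F_(m lam)` to `D` is in `k` (helper59)
-/

set_option autoImplicit false

open WeierstrassCurve Polynomial NumberField IsDedekindDomain

namespace Pool.Agent.MU3V

open _root_.MU3 _root_.Pool.Agent.MU3A _root_.Pool.Agent.MU3B _root_.Pool.Agent.MU3C _root_.Pool.Agent.RI

noncomputable section

variable {A B : ℤ}

section
variable (h : Case A B) {L : PeriodPair} {Om : ℂ} (hL : IsCM A B L Om) {m lam : OO A B}
  (hm : m ≠ 0) (hlam : lam ≠ 0) (hcop : IsCoprime m lam) (hu : ¬ IsUnit lam)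
  {a : ℤ} {H : Finset ℂ} (hH : IsHalf L a H)
  {D : IntermediateField ℚ ℂ} (hk : kk A B ≤ D) (hD : Sub D (TF L m))

include h hL hm hD in
/-- multiplication by an element of `XX .. 1` permutes `XX .. 1` -/
lemma perm_XX (hXXM : Sw_XXM) (hXXG : Sw_XXG)
    [Finite (XX L m hk (letI := algC hk; (1 : D ≃ₐ[kk A B] D)))] {e' : OO A B}
    (he : cls m e' ∈ XX L m hk (letI := algC hk; (1 : D ≃ₐ[kk A B] D))) :
    ∃ T : XX L m hk (letI := algC hk; (1 : D ≃ₐ[kk A B] D)) →
        XX L m hk (letI := algC hk; (1 : D ≃ₐ[kk A B] D)),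
      Function.Bijective T ∧ ∀ y, ((T y : XX L m hk _) : OO A B ⧸ Ideal.span {m}) =
        cls m e' * (y : OO A B ⧸ Ideal.span {m}) := by
  obtain ⟨σ, hσ, hσ1⟩ := (hXXM A B L Om h hL m hm D hk _ e').1 he
  letI := algC hk
  have key : ∀ y ∈ XX L m hk (1 : D ≃ₐ[kk A B] D), cls m e' * y ∈
      XX L m hk (1 : D ≃ₐ[kk A B] D) := by
    intro y hy
    have h1 := ((hXXG A B L Om h hL m hm D hk hD).2.2.1 σ e' (Quotient.out y) 1 1 hσ hσ1).1
      (by rwa [cls_out])
    rwa [mul_one, cls_mul, cls_out] at h1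
  refine ⟨fun y => ⟨_, key y y.2⟩, ?_, fun y => rfl⟩
  apply Finite.injective_iff_bijective.1
  intro y y' e
  have e1 : cls m e' * (y : OO A B ⧸ Ideal.span {m}) = cls m e' * (y' : OO A B ⧸ Ideal.span {m}) :=
    congrArg Subtype.val e
  exact Subtype.ext ((isUnit_cls hσ.1).mul_left_cancel e1)

include h hL hm hlam hcop hu hH hD in
/-- the norm of `Θ_a(u + u')` is in `k` -/
theorem norm_k (hXXM : Sw_XXM) (hXXG : Sw_XXG) (hDISI : Sw_DISI) (hTIN : St_TIN) (hTNZ : St_TNZ)
    (ha : a ≠ 0) (hcl : IsCoprime (a : OO A B) lam)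
    (hcm : IsCoprime (a : OO A B) m) (hmu : ¬ IsUnit m)
    (hf : IsField (OO A B ⧸ Ideal.span {lam})) [Finite (OO A B ⧸ Ideal.span {lam})]
    [Finite (XX L m hk (letI := algC hk; (1 : D ≃ₐ[kk A B] D)))]
    (hXX : cls m lam ∈ XX L m hk (letI := algC hk; (1 : D ≃ₐ[kk A B] D)) ∨
      cls m (-lam) ∈ XX L m hk (letI := algC hk; (1 : D ≃ₐ[kk A B] D))) :
    ∃ C ∈ kk A B, C ≠ 0 ∧ (∏ᶠ y : XX L m hk (letI := algC hk; (1 : D ≃ₐ[kk A B] D)),
      ∏ᶠ r : (OO A B ⧸ Ideal.span {lam})ˣ,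
        ThetaH L H (emb (Quotient.out (y : OO A B ⧸ Ideal.span {m})) * (Om / emb m) +
        emb (Quotient.out (r : OO A B ⧸ Ideal.span {lam})) * (Om / emb lam))) = C := by
  classical
  obtain ⟨C, hC, hC0, hfib⟩ := fibre h hL hm hlam hcop hu hH hDISI hTIN ha hcl hcm hmu hf
  have : Fintype (XX L m hk (letI := algC hk; (1 : D ≃ₐ[kk A B] D))) := Fintype.ofFinite _
  set X := XX L m hk (letI := algC hk; (1 : D ≃ₐ[kk A B] D)) with hX
  have hyc : ∀ y ∈ X, IsCoprime (Quotient.out y) m := by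
    intro y hy
    have h1 : cls m (Quotient.out y) ∈ X := by rwa [cls_out]
    obtain ⟨σ, hσ, -⟩ := (hXXM A B L Om h hL m hm D hk _ _).1 h1
    exact hσ.1
  set g : X → ℂ := fun y => ThetaH L H (emb (Quotient.out (y : OO A B ⧸ Ideal.span {m})) *
    (Om / emb m)) with hg
  set g' : X → ℂ := fun y => ThetaH L H (emb (lam * Quotient.out (y : OO A B ⧸ Ideal.span {m})) *
    (Om / emb m)) with hg'
  have hg0 : ∀ y : X, g y ≠ 0 := by
    intro y h0
    have hz : emb (Quotient.out (y : OO A B ⧸ Ideal.span {m})) * (Om / emb m) ∉ L.lattice := by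
      rw [hL.mul_div_mem_iff h hm]
      intro hd
      exact hmu ((hyc y y.2).symm.isUnit_of_dvd' dvd_rfl hd)
    have h1 := (hTNZ L a H (fun w hw => by
      have := hL.emb_mul_mem h (a : OO A B) hw
      rwa [emb_intCast h] at this) hH _ hz).1 h0
    have e : (a : ℂ) * (emb (Quotient.out (y : OO A B ⧸ Ideal.span {m})) * (Om / emb m)) =
        emb ((a : OO A B) * Quotient.out (y : OO A B ⧸ Ideal.span {m})) * (Om / emb m) := by
      rw [emb_mul h, emb_intCast h]; ring
    rw [e, hL.mul_div_mem_iff h hm] at h1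
    exact hmu ((hcm.mul_left (hyc y y.2)).symm.isUnit_of_dvd' dvd_rfl h1)
  -- the permutation
  have hperm : ∏ y, g' y = ∏ y, g y := by
    rcases hXX with he | he
    · obtain ⟨T, hT, hT2⟩ := perm_XX h hL hm hk hD hXXM hXXG he
      rw [← Function.Bijective.prod_comp hT g]
      refine Finset.prod_congr rfl fun y _ => ?_
      refine theta_cong hL hTIN hH ?_
      rw [emb_div_mem h hL hm, ← cls_eq_iff, cls_out]
      rw [hT2, cls_mul, cls_out]
    · obtain ⟨T, hT, hT2⟩ := perm_XX h hL hm hk hD hXXM hXXG he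
      rw [← Function.Bijective.prod_comp hT g]
      refine Finset.prod_congr rfl fun y _ => ?_
      have hev := (hTIN L a H H hH hH).2.1
      show ThetaH L H _ = ThetaH L H _
      rw [← hev (emb (lam * Quotient.out (y : OO A B ⧸ Ideal.span {m})) * (Om / emb m)),
        ← neg_mul, ← emb_neg h]
      refine theta_cong hL hTIN hH ?_
      rw [emb_div_mem h hL hm, ← cls_eq_iff, cls_out]
      rw [hT2, ← neg_mul, cls_mul, cls_out]
  set f : X → ℂ := fun y => ∏ᶠ r : (OO A B ⧸ Ideal.span {lam})ˣ,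
        ThetaH L H (emb (Quotient.out (y : OO A B ⧸ Ideal.span {m})) * (Om / emb m) +
        emb (Quotient.out (r : OO A B ⧸ Ideal.span {lam})) * (Om / emb lam)) with hfd
  have e1 : (∏ y, f y) * ∏ y, g y = C ^ Fintype.card X * ∏ y, g' y := by
    rw [← Finset.prod_mul_distrib, ← Finset.card_univ, ← Finset.prod_const,
      ← Finset.prod_mul_distrib]
    exact Finset.prod_congr rfl fun y _ => hfib _ (hyc y y.2)
  rw [hperm] at e1
  have e2 := mul_right_cancel₀ (Finset.prod_ne_zero_iff.2 fun y _ => hg0 y) e1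
  refine ⟨C ^ Fintype.card X, pow_mem hC _, pow_ne_zero _ hC0, ?_⟩
  rw [finprod_eq_prod_of_fintype]
  exact e2

end

end

end Pool.Agent.MU3V


end

section

/-!
# MU3, block V: the norm relation (I1) (helper80)

`cc L Om (3 m) H h' 1 * cc .. σ * cc .. (σ σ) = C * cc L Om m H h 1`, `C ∈ k`.
-/

set_option autoImplicit false

open WeierstrassCurve Polynomial NumberField IsDedekindDomain

namespace Pool.Agent.MU3V

open _root_.MU3 _root_.Pool.Agent.MU3A _root_.Pool.Agent.MU3B _root_.Pool.Agent.MU3C _root_.Pool.Agent.RI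

noncomputable section

namespace WI1

variable {A B : ℤ}

lemma cls_eq {m x y : OO A B} : cls m x = cls m y ↔ m ∣ x - y := by
  unfold cls
  rw [Ideal.Quotient.eq, Ideal.mem_span_singleton]

lemma cls_out {m : OO A B} (x : OO A B ⧸ Ideal.span {m}) : cls m (Quotient.out x) = x := by
  unfold cls
  exact Ideal.Quotient.mk_out x

lemma dvd_out {m : OO A B} (x : OO A B) : m ∣ x - Quotient.out (cls m x) :=
  cls_eq.1 (cls_out (cls m x)).symm

lemma isDomain (h : Case A B) : IsDomain (OO A B) := by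
  have hinj : Function.Injective (embHom (A := A) (B := B) h) := by
    intro x y hxy
    rw [embHom_apply, embHom_apply] at hxy
    exact emb_inj h hxy
  exact hinj.isDomain _

lemma finite_quot (h : Case A B) {m : OO A B} (hm : m ≠ 0) :
    Finite (OO A B ⧸ Ideal.span {m}) := by
  have := isDomain h
  refine Ideal.finiteQuotientOfFreeOfNeBot _ ?_
  rw [Ne, Ideal.span_singleton_eq_bot]
  exact hm

lemma three_ne (h : Case A B) : (3 : OO A B) ≠ 0 := by
  intro h0
  have h1 := congrArg emb h0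
  have h2 : emb (3 : OO A B) = 3 := by
    have := emb_natCast h 3
    simpa using this
  rw [h2, emb_zero h] at h1
  norm_num at h1

lemma emb_three (h : Case A B) : emb (3 : OO A B) = 3 := by
  have := emb_natCast h 3
  simpa using this

lemma three_not_unit : ¬ IsUnit (3 : OO A B) := by
  intro h0
  obtain ⟨u, hu⟩ := h0.exists_right_inv
  have h1 : (3 : ℕ) • u = (1 : OO A B) := by
    rw [nsmul_eq_mul]
    exact_mod_cast hu
  have h2 := congrArg QuadraticAlgebra.re h1
  simp only [QuadraticAlgebra.re_smul, QuadraticAlgebra.re_one] at h2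
  have h3 : (3 : ℤ) * u.re = 1 := by simpa using h2
  omega

/-- periodicity: `Θ(x Om/m)` depends only on the class of `x` -/
lemma theta_cls (hTIN : St_TIN) {L : PeriodPair} {Om : ℂ} (hL : IsLat A B L Om) (hC : Case A B)
    {m : OO A B} (hm : m ≠ 0) {a : ℂ} {H : Finset ℂ} (hH : IsHalf L a H) {x y : OO A B}
    (hxy : cls m x = cls m y) :
    ThetaH L H (emb x * (Om / emb m)) = ThetaH L H (emb y * (Om / emb m)) := by
  have h1 : m ∣ x - y := cls_eq.1 hxy
  have h2 := (hL.mul_div_mem_iff hC hm (x - y)).2 h1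
  have h3 := (hTIN L a H H hH hH).2.2 (emb y * (Om / emb m)) _ h2
  rw [← h3]
  congr 1
  rw [emb_sub hC]
  ring

/-- the product over the full inverse image in `O / 3m` of a set of classes of `O / m` -/
lemma prod_fibre (hTIN : St_TIN) (hDISI : Sw_DISI) {L : PeriodPair} {Om : ℂ}
    (hL : IsCM A B L Om) (hC : Case A B) {m : OO A B} (hm : m ≠ 0) (h3 : 3 ∣ m) {a : ℤ}
    {H : Finset ℂ} (ha : a ≠ 0) (ham : IsCoprime (a : OO A B) m) (hH : IsHalf L a H)
    (Y : Set (OO A B ⧸ Ideal.span {m})) (hY : ∀ x : OO A B, cls m x ∈ Y → IsCoprime x m)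
    (X : Set (OO A B ⧸ Ideal.span {3 * m}))
    (hX : ∀ x : OO A B, cls (3 * m) x ∈ X ↔ cls m x ∈ Y) :
    ∃ C ∈ kk A B, C ≠ 0 ∧
      ∏ᶠ x ∈ X, ThetaH L H (emb (Quotient.out x) * (Om / emb (3 * m))) =
        C * ∏ᶠ x ∈ Y, ThetaH L H (emb (Quotient.out x) * (Om / emb m)) := by
  classical
  have hdom := isDomain hC
  have h30 := three_ne hC
  have hm' : (3 : OO A B) * m ≠ 0 := mul_ne_zero h30 hm
  have hfin := finite_quot hC hm
  have hfin' := finite_quot hC hm'
  have hfin3 := finite_quot hC h30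
  obtain ⟨C, hCk, hC0, hCp⟩ := hDISI A B L Om hC hL 3 h30 a H ha
    (IsCoprime.of_isCoprime_of_dvd_right ham h3) hH
  letI := Fintype.ofFinite (OO A B ⧸ Ideal.span {m})
  letI := Fintype.ofFinite (OO A B ⧸ Ideal.span {3 * m})
  letI := Fintype.ofFinite (OO A B ⧸ Ideal.span {(3 : OO A B)})
  have hYf : Y.Finite := Set.toFinite Y
  have hXf : X.Finite := Set.toFinite X
  rw [finprod_mem_eq_finite_toFinset_prod _ hXf, finprod_mem_eq_finite_toFinset_prod _ hYf]
  refine ⟨C ^ hYf.toFinset.card, pow_mem hCk _, pow_ne_zero _ hC0, ?_⟩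
  have hE0 := emb_ne_zero hC hm
  have hE3 := emb_three (A := A) (B := B) hC
  -- the bijection
  have key : ∏ x ∈ hXf.toFinset, ThetaH L H (emb (Quotient.out x) * (Om / emb (3 * m))) =
      ∏ yt ∈ hYf.toFinset ×ˢ (Finset.univ : Finset (OO A B ⧸ Ideal.span {(3 : OO A B)})),
        ThetaH L H (emb (Quotient.out yt.1) * (Om / emb (3 * m)) +
          emb (Quotient.out yt.2) * (Om / emb (3 : OO A B))) := by
    symm
    refine Finset.prod_bij (fun yt _ => cls (3 * m) (Quotient.out yt.1 + m * Quotient.out yt.2))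
      ?_ ?_ ?_ ?_
    · rintro ⟨y, t⟩ hyt
      simp only [Finset.mem_product, Set.Finite.mem_toFinset, Finset.mem_univ, and_true] at hyt
      rw [Set.Finite.mem_toFinset, hX]
      have : cls m (Quotient.out y + m * Quotient.out t) = y := by
        rw [← cls_out y]
        rw [cls_eq]
        rw [cls_out y]
        exact ⟨Quotient.out t, by ring⟩
      rw [this]
      exact hyt
    · rintro ⟨y, t⟩ _ ⟨y', t'⟩ _ hyy
      rw [cls_eq] at hyy
      have h1 : m ∣ Quotient.out y - Quotient.out y' := by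
        have h2 : m ∣ (Quotient.out y + m * Quotient.out t - (Quotient.out y' +
            m * Quotient.out t')) := (Dvd.intro_left _ rfl).trans hyy
        have h3 : m ∣ m * (Quotient.out t - Quotient.out t') := Dvd.intro _ rfl
        have h4 := dvd_sub h2 h3
        have h5 : (Quotient.out y + m * Quotient.out t - (Quotient.out y' +
            m * Quotient.out t')) - m * (Quotient.out t - Quotient.out t') =
            Quotient.out y - Quotient.out y' := by ring
        rwa [h5] at h4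
      have h2 : y = y' := by
        rw [← cls_out y, ← cls_out y']
        exact cls_eq.2 h1
      subst h2
      have h3 : (3 : OO A B) ∣ Quotient.out t - Quotient.out t' := by
        obtain ⟨c, hc⟩ := hyy
        refine ⟨c, mul_left_cancel₀ hm ?_⟩
        linear_combination hc
      have h4 : t = t' := by
        rw [← cls_out t, ← cls_out t']
        exact cls_eq.2 h3
      rw [h4]
    · intro x hx
      rw [Set.Finite.mem_toFinset, ← cls_out x, hX] at hx
      obtain ⟨s, hs⟩ := dvd_out (m := m) (Quotient.out x)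
      obtain ⟨r, hr⟩ := dvd_out (m := (3 : OO A B)) s
      refine ⟨(cls m (Quotient.out x), cls 3 s), ?_, ?_⟩
      · simp only [Finset.mem_product, Set.Finite.mem_toFinset, Finset.mem_univ, and_true]
        exact hx
      · have h1 : cls (3 * m) (Quotient.out (cls m (Quotient.out x)) +
            m * Quotient.out (cls 3 s)) = cls (3 * m) (Quotient.out x) := by
          rw [cls_eq]
          exact ⟨-r, by linear_combination -hs - m * hr⟩
        exact h1.trans (cls_out x)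
    · rintro ⟨y, t⟩ _
      have h1 := theta_cls hTIN hL.toIsLat hC hm' hH (cls_out (cls (3 * m)
        (Quotient.out y + m * Quotient.out t)))
      rw [h1]
      congr 1
      rw [emb_add hC, emb_mul hC, emb_mul hC, hE3]
      field_simp
  rw [key, Finset.prod_product]
  have key2 : ∀ y ∈ hYf.toFinset, ∏ t : OO A B ⧸ Ideal.span {(3 : OO A B)},
      ThetaH L H (emb (Quotient.out y) * (Om / emb (3 * m)) +
        emb (Quotient.out t) * (Om / emb (3 : OO A B))) =
      C * ThetaH L H (emb (Quotient.out y) * (Om / emb m)) := by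
    intro y hy
    rw [Set.Finite.mem_toFinset] at hy
    have hz : emb (3 : OO A B) * a * (emb (Quotient.out y) * (Om / emb (3 * m))) ∉ L.lattice := by
      have h1 : emb (3 : OO A B) * a * (emb (Quotient.out y) * (Om / emb (3 * m))) =
          emb ((a : OO A B) * Quotient.out y) * (Om / emb m) := by
        rw [emb_mul hC, emb_mul hC, emb_intCast hC, hE3]
        field_simp
      rw [h1, hL.toIsLat.mul_div_mem_iff hC hm]
      intro hdvd
      have h2 : IsCoprime (Quotient.out y) m := hY _ (by rw [cls_out]; exact hy)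
      have h3' := ham.mul_left h2
      have h4 : IsUnit m := h3'.isUnit_of_dvd' hdvd dvd_rfl
      exact three_not_unit (isUnit_of_dvd_unit h3 h4)
    have h2 := hCp _ hz
    rw [finprod_eq_prod_of_fintype] at h2
    rw [h2]
    congr 2
    rw [emb_mul hC, hE3]
    field_simp
  rw [Finset.prod_congr rfl key2, Finset.prod_mul_distrib, Finset.prod_const]

/-- an automorphism of `D' / k` which fixes the fixed field of `σ` is a power of `σ` -/
lemma mem_powers {K M : Type*} [Field K] [Field M] [Algebra K M] [FiniteDimensional K M]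
    (σ τ : M ≃ₐ[K] M) (hσ : orderOf σ = 3) (h : ∀ x, σ x = x → τ x = x) :
    τ = 1 ∨ τ = σ ∨ τ = σ * σ := by
  have h1 : τ ∈ (IntermediateField.fixedField (Subgroup.zpowers σ)).fixingSubgroup := by
    rw [IntermediateField.mem_fixingSubgroup_iff]
    intro x hx
    rw [IntermediateField.mem_fixedField_iff] at hx
    exact h x (hx σ (Subgroup.mem_zpowers σ))
  rw [IntermediateField.fixingSubgroup_fixedField] at h1
  have h2 : IsOfFinOrder σ := orderOf_pos_iff.1 (by omega)
  obtain ⟨n, hn⟩ := (h2.mem_powers_iff_mem_zpowers.2 h1)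
  have hn' : σ ^ n = τ := hn
  rw [← pow_mod_orderOf, hσ] at hn'
  have h3 : n % 3 < 3 := Nat.mod_lt _ (by norm_num)
  interval_cases n % 3
  · left; simpa using hn'.symm
  · right; left; simpa using hn'.symm
  · right; right; rw [← hn', pow_two]

end WI1

open _root_.Pool.Agent.MU3V.WI1 in
/-- (I1) the norm relation -/
theorem tw_I1 (hFIB : Sw_FIB) (hXXM : Sw_XXM) (hXXG : Sw_XXG) (hDISI : Sw_DISI) (hNRM : Sa_NRM)
    (hTIN : St_TIN) : Sw_I1 := by
  intro A B L Om hC hL m hm hmz h3 a H ha ham hH D D' h h' hDD' hsub hsub'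
  letI := algC h
  letI := algC h'
  intro σ hσ hord
  have hdom := isDomain hC
  have hm' : (3 : OO A B) * m ≠ 0 := mul_ne_zero (three_ne hC) hm
  have hfin' := finite_quot hC hm'
  obtain ⟨hfd, hgal⟩ := hNRM A B L Om hC hL (3 * m) hm'
  have hfdD' : FiniteDimensional (kk A B) D' := by
    let f : D' →ₗ[kk A B] TF L (3 * m) :=
      { toFun := fun y => ⟨(y : ℂ), hsub' _ y.2⟩
        map_add' := fun x y => rfl
        map_smul' := fun c x => rfl }
    refine FiniteDimensional.of_injective f ?_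
    intro x y hxy
    have := congrArg (fun z : TF L (3 * m) => (z : ℂ)) hxy
    exact Subtype.ext this
  obtain ⟨hG1, -, -, hG4⟩ := hXXG A B L Om hC hL (3 * m) hm' D' h' hsub'
  -- the three sets
  have hfixσ : ∀ x : D', (x : ℂ) ∈ D → σ x = x := fun x hx => (hσ x).2 hx
  have hunion : XX L (3 * m) h 1 =
      (XX L (3 * m) h' 1 ∪ XX L (3 * m) h' σ) ∪ XX L (3 * m) h' (σ * σ) := by
    have hsubset : ∀ τ : D' ≃ₐ[kk A B] D', (∀ x : D', (x : ℂ) ∈ D → τ x = x) →
        XX L (3 * m) h' τ ⊆ XX L (3 * m) h 1 := by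
      rintro τ hτ x ⟨s, hs1, hs2⟩
      refine ⟨s, hs1, ?_⟩
      intro y hy
      have h1 := hs2 ⟨(y : ℂ), hDD' y.2⟩ hy
      rw [hτ ⟨(y : ℂ), hDD' y.2⟩ y.2] at h1
      exact h1
    apply Set.Subset.antisymm
    · rintro x ⟨s, hs1, hs2⟩
      obtain ⟨τ, hτ⟩ := hG1 s
      have h1 : ∀ x : D', σ x = x → τ x = x := by
        intro y hy
        have hyD := (hσ y).1 hy
        have h2 := hτ y (hsub' _ y.2)
        have h3 := hs2 ⟨(y : ℂ), hyD⟩ (hsub' _ y.2)
        apply Subtype.ext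
        rw [← h2]
        exact h3
      rcases mem_powers σ τ hord h1 with h2 | h2 | h2
      · left; left; exact ⟨s, hs1, h2 ▸ hτ⟩
      · left; right; exact ⟨s, hs1, h2 ▸ hτ⟩
      · right; exact ⟨s, hs1, h2 ▸ hτ⟩
    · refine Set.union_subset (Set.union_subset ?_ ?_) ?_
      · exact hsubset 1 fun x _ => rfl
      · exact hsubset σ hfixσ
      · refine hsubset (σ * σ) fun x hx => ?_
        change σ (σ x) = x
        rw [hfixσ x hx, hfixσ x hx]
  have hdisj : ∀ τ τ' : D' ≃ₐ[kk A B] D', τ ≠ τ' →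
      Disjoint (XX L (3 * m) h' τ) (XX L (3 * m) h' τ') := by
    intro τ τ' hne
    rw [Set.disjoint_left]
    intro x hx hx'
    rw [← _root_.Pool.Agent.MU3V.WI1.cls_out x] at hx hx'
    exact hne (hG4 _ τ τ' hx hx')
  have hne1 : (1 : D' ≃ₐ[kk A B] D') ≠ σ := by
    intro h0
    rw [← h0, orderOf_one] at hord
    norm_num at hord
  have hne2 : (1 : D' ≃ₐ[kk A B] D') ≠ σ * σ := by
    intro h0
    have h1 : σ ^ 2 = 1 := by rw [pow_two]; exact h0.symm
    have h2 := orderOf_dvd_of_pow_eq_one h1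
    rw [hord] at h2
    norm_num at h2
  have hne3 : σ ≠ σ * σ := by
    intro h0
    exact hne1 (mul_left_cancel (a := σ) (by rw [mul_one]; exact h0))
  have hprod : cc L Om (3 * m) H h' 1 * cc L Om (3 * m) H h' σ * cc L Om (3 * m) H h' (σ * σ) =
      ∏ᶠ x ∈ XX L (3 * m) h 1, ThetaH L H (emb (Quotient.out x) * (Om / emb (3 * m))) := by
    rw [hunion, finprod_mem_union (Set.disjoint_union_left.2 ⟨hdisj _ _ hne2, hdisj _ _ hne3⟩)
      (Set.toFinite _) (Set.toFinite _), finprod_mem_union (hdisj _ _ hne1)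
      (Set.toFinite _) (Set.toFinite _)]
    rfl
  rw [hprod]
  -- the fibres
  have hYcop : ∀ x : OO A B, cls m x ∈ XX L m h 1 → IsCoprime x m := by
    intro x hx
    obtain ⟨s, hs, -⟩ := (hXXM A B L Om hC hL m hm D h 1 x).1 hx
    exact hs.1
  refine prod_fibre hTIN hDISI hL hC hm h3 ha ham hH (XX L m h 1) hYcop (XX L (3 * m) h 1) ?_
  intro x
  rw [hFIB A B L Om hC hL m (3 * m) hm hm' hmz (Dvd.intro_left _ rfl) D h hsub 1 x]
  constructor
  · exact fun hx => hx.2
  · intro hx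
    have h1 := hYcop x hx
    exact ⟨(IsCoprime.of_isCoprime_of_dvd_right h1 h3).mul_right h1, hx⟩

end

end Pool.Agent.MU3V


end

section

/-!
# MUX, block E, module PC (helper43): the values on `O` and on `k`
-/

set_option autoImplicit false

open WeierstrassCurve Polynomial NumberField IsDedekindDomain

namespace Pool.Agent.MUXE

open _root_.MU3 _root_.Pool.Agent.MU3A _root_.Pool.Agent.MU3B _root_.Pool.Agent.MUX _root_.Pool.Agent.MUXU _root_.Pool.Agent.RI

noncomputable section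

namespace PC

variable {A B : ℤ}

/-- a nonzero element of a Dedekind domain lies in `P^j` but not in `P^(j+1)` for some `j` -/
lemma exists_ord {R : Type} [CommRing R] [IsDedekindDomain R] (P : Ideal R) (hP : P ≠ ⊤)
    {x : R} (hx : x ≠ 0) : ∃ j : ℕ, x ∈ P ^ j ∧ x ∉ P ^ (j + 1) := by
  classical
  have h1 : ∃ n : ℕ, x ∉ P ^ n := by
    by_contra hcon
    push Not at hcon
    have h2 : x ∈ (⨅ i : ℕ, P ^ i) := by
      rw [Ideal.mem_iInf]
      exact hcon
    rw [Ideal.iInf_pow_eq_bot_of_isDomain P hP, Ideal.mem_bot] at h2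
    exact hx h2
  have h3 := Nat.find_spec h1
  have h4 : Nat.find h1 ≠ 0 := by
    intro h0
    rw [h0, pow_zero, Ideal.one_eq_top] at h3
    exact h3 trivial
  obtain ⟨j, hj⟩ := Nat.exists_eq_succ_of_ne_zero h4
  refine ⟨j, ?_, ?_⟩
  · by_contra hcon
    have := Nat.find_min' h1 hcon
    omega
  · rw [hj] at h3
    exact h3

lemma val_emb {p : ℕ} {P : Ideal (OO A B)} {V : ValuationSubring ℂ} (h1 : Sxe_PA)
    (h : CtxE p P V) (x : OO A B) (hx : x ≠ 0) :
    ∃ j : ℕ, V.valuation (emb x) = V.valuation (p : ℂ) ^ j := by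
  obtain ⟨-, hv, -, -, -, -, Q, hQ, -, -, hQP, -⟩ := h1 p A B P V h
  have hded : IsDedekindDomain (OO A B) := h.ring.ded
  have hP : P.IsPrime := h.prime
  obtain ⟨φ, hφ⟩ := h.ring.hom
  obtain ⟨j, hj, hj'⟩ := exists_ord P h.prime.ne_top hx
  obtain ⟨u, hu, huP⟩ := SetLike.not_le_iff_exists.1 hQP
  have h2 : x * u ^ j ∈ sp ((p : OO A B) ^ j) := by
    have h3 : x * u ^ j ∈ P ^ j * Q ^ j := Ideal.mul_mem_mul hj (Ideal.pow_mem_pow hu j)
    rw [← mul_pow, ← hQ, Ideal.span_singleton_pow] at h3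
    exact h3
  obtain ⟨y, hy⟩ := Ideal.mem_span_singleton.1 h2
  have hyP : y ∉ P := by
    intro hy1
    have h3 : u ^ j * x ∈ P ^ (j + 1) := by
      rw [mul_comm, hy, pow_succ]
      exact Ideal.mul_mem_mul (Ideal.pow_mem_pow h.mem j) hy1
    rcases Ideal.IsPrime.mul_mem_pow P h3 with h4 | h4
    · exact huP (hP.mem_of_pow_mem j h4)
    · exact hj' h4
  refine ⟨j, ?_⟩
  have h5 := congrArg (fun t => V.valuation (φ t)) hy
  simp only [map_mul, map_pow, map_natCast] at h5
  rw [hφ, hφ, hφ, (hv u huP).1, (hv y hyP).1, one_pow, mul_one, mul_one] at h5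
  exact h5

lemma alg_kk (hR : RingE A B) (y : ℂ) (hy : y ∈ kk A B) : IsAlgebraic ℤ y := by
  have hw : _root_.IsIntegral ℤ (wC A B) := by
    have hwk : wC A B ∈ kk A B := IntermediateField.mem_adjoin_simple_self ℚ (wC A B)
    rw [hR.int _ hwk]
    refine ⟨⟨0, 1⟩, ?_⟩
    simp [emb]
  have hwQ : _root_.IsIntegral ℚ (wC A B) := hw.tower_top
  have h1 : Algebra.IsAlgebraic ℚ (kk A B) := by
    have := IntermediateField.isAlgebraic_adjoin_simple hwQ
    exact this
  have h2 : IsAlgebraic ℚ y := by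
    have h3 := h1.isAlgebraic ⟨y, hy⟩
    exact h3.algebraMap
  exact (IsFractionRing.isAlgebraic_iff ℤ ℚ ℂ).2 h2

end PC

open _root_.Pool.Agent.MUXE.PC in
theorem te_PC (h1 : Sxe_PA) : Sxe_PC := by
  intro p A B P V h
  refine ⟨val_emb h1 h, ?_⟩
  intro y hy hy0
  obtain ⟨-, -, hp0, -⟩ := h1 p A B P V h
  obtain ⟨φ, hφ⟩ := h.ring.hom
  obtain ⟨n, hn, hint⟩ := (alg_kk h.ring y hy).exists_integral_multiple
  have hnk : n • y ∈ kk A B := zsmul_mem hy n
  obtain ⟨x, hx⟩ := (h.ring.int _ hnk).1 hint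
  have hnC : (n : ℂ) ≠ 0 := by exact_mod_cast hn
  have hxe : (n : ℂ) * y = emb x := by
    rw [← hx, zsmul_eq_mul]
  have hx0 : x ≠ 0 := by
    rintro rfl
    rw [← hφ, map_zero] at hxe
    exact mul_ne_zero hnC hy0 hxe
  have hn0 : (n : OO A B) ≠ 0 := by
    intro h0
    have := hφ (n : OO A B)
    rw [h0, map_zero] at this
    have h2 := hφ (n : OO A B)
    rw [map_intCast] at h2
    rw [h0, ← this] at h2
    exact hnC h2
  obtain ⟨j, hj⟩ := val_emb h1 h x hx0
  obtain ⟨i, hi⟩ := val_emb h1 h (n : OO A B) hn0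
  rw [← hφ, map_intCast] at hi
  have h2 := congrArg V.valuation hxe
  rw [map_mul, hi, hj] at h2
  refine ⟨(j : ℤ) - i, ?_⟩
  rw [zpow_sub₀ hp0, zpow_natCast, zpow_natCast, ← h2]
  field_simp

end

end Pool.Agent.MUXE


end

section

/-!
# MUX, block E: module ONE (helper86)
-/

set_option autoImplicit false

open WeierstrassCurve Polynomial NumberField IsDedekindDomain

namespace Pool.Agent.MUXE

open _root_.MU3 _root_.Pool.Agent.MU3A _root_.Pool.Agent.MU3B _root_.Pool.Agent.MUX _root_.Pool.Agent.MUXU _root_.Pool.Agent.RI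

noncomputable section

namespace ONE

section val
variable {V : ValuationSubring ℂ}

/-- the final estimate -/
lemma last {p : ℕ} (hp : p = 2 ∨ p = 3) {c d w w' t S : ℂ} (hc : V.valuation c = 1)
    (ht : V.valuation t < 1) (ht0 : V.valuation t ≠ 0)
    (htp : V.valuation t ^ (p - 1) = V.valuation (p : ℂ))
    (hd : V.valuation (d - c * (1 + t * S)) ≤ V.valuation t ^ 2) (hw : w ^ p = c)
    (hw' : w' ^ p = d) (hww : V.valuation (w' - w) ^ (p - 1) ≤ V.valuation (p : ℂ)) :
    V.valuation S ^ (p - 1) ≤ V.valuation (p : ℂ) := by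
  have hp0 : p ≠ 0 := by omega
  have hp1 : p - 1 ≠ 0 := by omega
  have vw : V.valuation w = 1 := by
    have h1 : V.valuation w ^ p = 1 := by rw [← map_pow, hw, hc]
    exact (pow_eq_one_iff.1 h1).resolve_right hp0
  have hww1 : V.valuation (w' - w) ≤ V.valuation t := by
    rw [← htp] at hww
    exact le_of_pow_le_pow_left₀ hp1 zero_le hww
  have vw' : V.valuation w' ≤ 1 := by
    have h1 : w' = (w' - w) + w := by ring
    rw [h1]
    exact (V.valuation.map_add _ _).trans (max_le (hww1.trans ht.le) vw.le)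
  have h2 : V.valuation (d - c) ≤ V.valuation t ^ 2 := by
    rcases hp with rfl | rfl
    · have h1 : d - c = (w' - w) ^ 2 + 2 * (w * (w' - w)) := by
        rw [← hw, ← hw']; ring
      have h3 : V.valuation (2 : ℂ) = V.valuation t := by
        have := htp
        simp only [Nat.add_one_sub_one, pow_one, Nat.cast_ofNat] at this
        exact this.symm
      rw [h1]
      refine (V.valuation.map_add _ _).trans (max_le ?_ ?_)
      · rw [map_pow]
        exact pow_le_pow_left' hww1 2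
      · rw [map_mul, map_mul, vw, one_mul, h3, pow_two]
        exact mul_le_mul_right hww1 _
    · have h1 : d - c = (w' - w) ^ 3 + 3 * (w * w' * (w' - w)) := by
        rw [← hw, ← hw']; ring
      have h3 : V.valuation t ^ 2 = V.valuation (3 : ℂ) := by
        have := htp
        simpa using this
      rw [h1]
      refine (V.valuation.map_add _ _).trans (max_le ?_ ?_)
      · rw [map_pow]
        calc V.valuation (w' - w) ^ 3 ≤ V.valuation t ^ 3 := pow_le_pow_left' hww1 3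
          _ = V.valuation t ^ 2 * V.valuation t := pow_succ _ 2
          _ ≤ V.valuation t ^ 2 * 1 := mul_le_mul_right ht.le _
          _ = V.valuation t ^ 2 := mul_one _
      · rw [map_mul, ← h3, map_mul, map_mul, vw, one_mul]
        calc V.valuation t ^ 2 * (V.valuation w' * V.valuation (w' - w))
            ≤ V.valuation t ^ 2 * (1 * 1) :=
              mul_le_mul_right (mul_le_mul' vw' (hww1.trans ht.le)) _
          _ = V.valuation t ^ 2 := by rw [one_mul, mul_one]
  have h3 : V.valuation (c * (t * S)) ≤ V.valuation t ^ 2 := by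
    have h4 : c * (t * S) = (d - c) - (d - c * (1 + t * S)) := by ring
    rw [h4]
    exact (V.valuation.map_sub _ _).trans (max_le h2 hd)
  rw [map_mul, hc, one_mul, map_mul, pow_two] at h3
  have h5 : V.valuation S ≤ V.valuation t := by
    have hpos : 0 < V.valuation t := lt_of_le_of_ne zero_le (Ne.symm ht0)
    exact (mul_le_mul_iff_right₀ hpos).1 h3
  rw [← htp]
  exact pow_le_pow_left' h5 _

end val

lemma theta_per (L : PeriodPair) (H : Finset ℂ) (z v : ℂ) (hv : v ∈ L.lattice) :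
    ThetaH L H (z + v) = ThetaH L H z := by
  have h2 : L.weierstrassP (z + v) = L.weierstrassP z := L.weierstrassP_add_coe z ⟨v, hv⟩
  simp only [ThetaH, h2]

end ONE

open _root_.Pool.Agent.MUXE.ONE in
theorem te_ONE (h1 : Sxe_PA) (h2 : Sxe_TRA) (h3 : Sxe_KER) (h4 : Sxe_FAC) (h5 : Sxe_SIG)
    (h6 : Sxe_NE1) (h7 : Sxe_THE) (h8 : Sxe_GTH) (h9 : Sxe_PT) (h10 : Sxe_GAM)
    (h11 : Pool.Agent.MU3E.Se_PRD) : Sxe_ONE := by
  intro p A B P V hC hG n₀ ι R e m₁ a he hm1 hpm ha hpa hco hn0 hdvd H hH c hc J _ X g hX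
    ⟨w0, hw0, hwp⟩
  obtain ⟨-, hcl, hp0, -, -, -, -⟩ := h1 p A B P V hC
  have hring := hC.ring
  obtain ⟨φ, hφ⟩ := hring.hom
  have emul : ∀ x y : OO A B, emb (x * y) = emb x * emb y := fun x y => by
    rw [← hφ, map_mul, hφ, hφ]
  have eadd : ∀ x y : OO A B, emb (x + y) = emb x + emb y := fun x y => by
    rw [← hφ, map_add, hφ, hφ]
  have esub : ∀ x y : OO A B, emb (x - y) = emb x - emb y := fun x y => by
    rw [← hφ, map_sub, hφ, hφ]
  have eone : emb (1 : OO A B) = 1 := by rw [← hφ, map_one]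
  have enat : ∀ n : ℕ, emb ((n : ℕ) : OO A B) = n := fun n => by rw [← hφ, map_natCast]
  have eint : ∀ n : ℤ, emb ((n : ℤ) : OO A B) = n := fun n => by rw [← hφ, map_intCast]
  have hpp : p.Prime := by
    rcases hC.two with rfl | rfl
    · exact Nat.prime_two
    · exact Nat.prime_three
  obtain ⟨n, rfl⟩ : ∃ n, e = n + 1 := ⟨e - 1, by omega⟩
  have hn : 1 ≤ n := by omega
  obtain ⟨M', γ, hM, hM'0, hM'P, hM'a, hγP, hγM, hγm, hγx⟩ :=
    h10 p A B P V hC n m₁ a (by omega) (by omega) hpm hpa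
  set m : ℕ := p ^ (n + 1) * m₁ with hm
  have hm0 : m ≠ 0 := by
    rw [hm]
    exact mul_ne_zero (pow_ne_zero _ hpp.ne_zero) (by omega)
  have hmf : m.primeFactors ⊆ n₀.primeFactors := by
    have e1 : m.primeFactors = (p * m₁).primeFactors := by
      rw [hm, Nat.primeFactors_mul (pow_ne_zero _ hpp.ne_zero) (by omega),
        Nat.primeFactors_pow _ (by omega), Nat.primeFactors_mul hpp.ne_zero (by omega)]
    rw [e1]
    exact Nat.primeFactors_mono hdvd hn0
  have hpf : p.primeFactors ⊆ n₀.primeFactors :=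
    Nat.primeFactors_mono ((dvd_mul_right _ _).trans hdvd) hn0
  -- the lattices
  have hNL : ∀ i, NL A B (R.L i) := fun i => ⟨_, _, R.nl i⟩
  have hGX : ∀ i, GX V (R.L i) := fun i => hC.gx _ (hNL i)
  obtain ⟨σ, hσ, hσv⟩ := h5 p A B P V hC hG ⟨_, hNL R.i0⟩ n M' a hn hM'0 hM'P ha hM'a γ hγP
  have hMa : P ^ (n + 1) * M' ≤ sp (a : OO A B) := Ideal.mul_le_right.trans hM'a
  have hMm : P ^ (n + 1) * M' ≤ sp ((m : ℕ) : OO A B) := by
    rw [← hM, Ideal.span_singleton_le_span_singleton]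
    exact ⟨(a : OO A B), by push_cast; ring⟩
  have hγa : (1 + γ) - 1 ∈ sp (a : OO A B) := by
    rw [add_sub_cancel_left]
    exact hM'a hγM
  have hmP : ((m : ℕ) : OO A B) ∈ P := by
    have e1 : ((m : ℕ) : OO A B) = (p : OO A B) * ((p ^ n * m₁ : ℕ) : OO A B) := by
      rw [hm]
      push_cast
      ring
    rw [e1]
    exact P.mul_mem_right _ hC.mem
  -- the point `R₀`
  have hPT0 := (h9 A B hring n₀ ι R hn0 R.i0).2.2.2 m hm0 hmf
  obtain ⟨R₀, hR₀⟩ : ∃ R₀ : ℂ, R₀ = emb γ * (R.om R.i0 / m) := ⟨_, rfl⟩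
  have hR₀L : R₀ ∉ (R.L R.i0).lattice := by
    intro h
    rw [hR₀, (hPT0 1).2.2.2 γ] at h
    exact hγm (Ideal.mem_span_singleton.2 h)
  have hR₀P : Tor P (R.L R.i0) R₀ := by
    intro x hx
    have e1 : emb x * R₀ = emb (x * γ) * (R.om R.i0 / m) := by rw [hR₀, emul]; ring
    rw [e1, (hPT0 1).2.2.2]
    have h := Ideal.mem_span_singleton.1 (hγx x hx)
    refine dvd_trans ⟨(a : OO A B), ?_⟩ h
    push_cast
    ring
  obtain ⟨hR₀E, hR₀t⟩ := h3 p A B P V hC _ (hNL R.i0) R₀ hR₀P hR₀L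
  obtain ⟨ht1, ht0, -⟩ := (hGX R.i0).par R₀ hR₀E hR₀L
  obtain ⟨t, ht⟩ : ∃ t : ℂ, t = tE (R.L R.i0) R₀ := ⟨_, rfl⟩
  rw [← ht] at hR₀t ht1 ht0
  have hpm1 : p - 1 ≠ 0 := by have := hpp.two_le; omega
  have heqt : ∀ y : ℂ, V.valuation y ^ (p - 1) = V.valuation (p : ℂ) →
      V.valuation y = V.valuation t := by
    intro y hy
    rw [← hR₀t] at hy
    exact le_antisymm (le_of_pow_le_pow_left₀ hpm1 zero_le hy.le)
      (le_of_pow_le_pow_left₀ hpm1 zero_le hy.ge)
  -- the points `u_i = μ_i R₀`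
  have hu : ∀ i, Tor P (R.L i) (muX R i * R₀) ∧ muX R i * R₀ ∉ (R.L i).lattice := by
    intro i
    obtain ⟨-, k2, k3, -⟩ := h9 A B hring n₀ ι R hn0 i
    refine ⟨?_, ?_⟩
    · intro x hx
      have e1 : emb x * (muX R i * R₀) = muX R i * (emb x * R₀) := by ring
      rw [e1]
      exact k2 _ (hR₀P x hx)
    · intro h
      refine hR₀L (k3 p hpp.ne_zero hpf R₀ ?_ h)
      have := hR₀P _ hC.mem
      rwa [enat] at this
  have hut : ∀ i, InEn V (R.L i) (muX R i * R₀) ∧
      V.valuation (tE (R.L i) (muX R i * R₀)) = V.valuation t := by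
    intro i
    obtain ⟨q1, q2⟩ := h3 p A B P V hC _ (hNL i) _ (hu i).1 (hu i).2
    exact ⟨q1, heqt _ q2⟩
  have hci : ∀ i, V.valuation (tE (R.L i) (muX R i * R₀) - c i * t) ≤ V.valuation t ^ 2 := by
    intro i
    have := hc i R₀ hR₀P hR₀L
    rwa [← ht] at this
  have ht2 : V.valuation t ^ 2 ≤ V.valuation t := by
    rw [pow_two]
    exact mul_le_of_le_one_left' ht1.le
  have hc1 : ∀ i, V.valuation (c i) ≤ 1 := by
    intro i
    have e1 : c i * t = tE (R.L i) (muX R i * R₀) - (tE (R.L i) (muX R i * R₀) - c i * t) := by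
      ring
    have e2 : V.valuation (c i * t) ≤ V.valuation t := by
      rw [e1]
      exact (V.valuation.map_sub _ _).trans (max_le (hut i).2.le ((hci i).trans ht2))
    rw [map_mul] at e2
    have hpos : 0 < V.valuation t := lt_of_le_of_ne zero_le (Ne.symm ht0)
    have e3 : V.valuation (c i) * V.valuation t ≤ 1 * V.valuation t := by rwa [one_mul]
    exact (mul_le_mul_iff_left₀ hpos).1 e3
  -- the parameter at `± u_i`
  have hsgn : ∀ i, ∀ w : ℤ, (w = 1 ∨ w = -1) →
      InEn V (R.L i) (w * (muX R i * R₀)) ∧ (w : ℂ) * (muX R i * R₀) ∉ (R.L i).lattice ∧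
      V.valuation (tE (R.L i) (w * (muX R i * R₀))) = V.valuation t ∧
      V.valuation (tE (R.L i) (w * (muX R i * R₀)) - w * c i * t) ≤ V.valuation t ^ 2 := by
    intro i w hw
    rcases hw with rfl | rfl
    · have e1 : ((1 : ℤ) : ℂ) * (muX R i * R₀) = muX R i * R₀ := by push_cast; ring
      have e2 : ((1 : ℤ) : ℂ) * c i * t = c i * t := by push_cast; ring
      rw [e1, e2]
      exact ⟨(hut i).1, (hu i).2, (hut i).2, hci i⟩
    · have e1 : ((-1 : ℤ) : ℂ) * (muX R i * R₀) = -(muX R i * R₀) := by push_cast; ring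
      have e2 : ((-1 : ℤ) : ℂ) * c i * t = -(c i * t) := by push_cast; ring
      rw [e1, e2]
      have k1 : -(muX R i * R₀) ∉ (R.L i).lattice := fun h => (hu i).2 (by
        simpa using neg_mem h)
      have k2 : Tor P (R.L i) (-(muX R i * R₀)) := by
        intro x hx
        rw [mul_neg]
        exact neg_mem ((hu i).1 x hx)
      obtain ⟨q1, q2⟩ := h3 p A B P V hC _ (hNL i) _ k2 k1
      refine ⟨q1, k1, heqt _ q2, ?_⟩
      have k3 := (hGX i).tneg _ (hut i).1 (hu i).2
      rw [(hut i).2] at k3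
      have e3 : tE (R.L i) (-(muX R i * R₀)) - -(c i * t) =
          (tE (R.L i) (-(muX R i * R₀)) + tE (R.L i) (muX R i * R₀)) -
          (tE (R.L i) (muX R i * R₀) - c i * t) := by ring
      rw [e3]
      exact (V.valuation.map_sub _ _).trans (max_le k3 (hci i))
  -- one value
  have step : ∀ y : ι × OO A B, ∃ th : RF (P ^ (n + 1) * M'), IsCoprime y.2 ((m : ℕ) : OO A B) →
      (th : ℂ) = ThetaH (R.L y.1) (H y.1) (pt R m y.1 y.2) ∧
      V.valuation (ThetaH (R.L y.1) (H y.1) (pt R m y.1 y.2)) = 1 ∧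
      V.valuation ((wP P y.2 : ℂ) * c y.1 * dlX (R.L y.1) a (pt R m y.1 y.2)) ≤ 1 ∧
      V.valuation (_root_.Pool.Agent.MU3A.em σ th - ThetaH (R.L y.1) (H y.1) (pt R m y.1 y.2) *
        (1 + t * ((wP P y.2 : ℂ) * c y.1 * dlX (R.L y.1) a (pt R m y.1 y.2)))) ≤
          V.valuation t ^ 2 := by
    rintro ⟨i, x⟩
    dsimp only
    by_cases hx : IsCoprime x ((m : ℕ) : OO A B)
    swap
    · exact ⟨1, fun h => absurd h hx⟩
    obtain ⟨-, g2, -, g4⟩ := h9 A B hring n₀ ι R hn0 i
    obtain ⟨g5, g6, g7, -⟩ := g4 m hm0 hmf x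
    obtain ⟨z, hz⟩ : ∃ z, z = pt R m i x := ⟨_, rfl⟩
    rw [← hz] at g5 g6 g7 ⊢
    obtain ⟨hzE, hzL, hzq⟩ := h6 p A B P V hC _ (hNL i) (n + 1) m₁ a hm1 hpm hpa hco z g6
      (g7 hx)
    have hzL' : z ∉ (R.L i).lattice := fun h => hzE (Or.inl h)
    obtain ⟨k1, k2, k3⟩ := h7 A B V (R.L i) (hGX i) a (H i) (by omega) (hH i) z hzE hzL
      (fun q hq => hzq q ((hH i).mem q hq) (fun hqL => (hH i).ne q hq (by
        rw [two_mul]; exact add_mem hqL hqL)))
    have hzT : Tor (P ^ (n + 1) * M') (R.L i) z := by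
      intro x' hx'
      rw [← hM] at hx'
      obtain ⟨y', rfl⟩ := Ideal.mem_span_singleton.1 hx'
      have e1 : emb (((m * a : ℕ) : OO A B) * y') * z =
          emb ((a : OO A B) * y') * ((m : ℂ) * z) := by
        rw [emul, emul, enat, enat]
        push_cast
        ring
      rw [e1]
      exact (h2 A B hring _ (hNL i)).1 _ _ g6
    obtain ⟨hmem, hθσ⟩ := h8 A B hring _ (hNL i) a (H i) (hH i) _ hMa σ (1 + γ) hσ hγa z hzT
      hzL'
    have hxP : x ∉ P := by
      intro hxP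
      obtain ⟨b1, b2, hb⟩ := hx
      apply hC.prime.ne_top
      rw [Ideal.eq_top_iff_one, ← hb]
      exact P.add_mem (P.mul_mem_left _ hxP) (P.mul_mem_left _ hmP)
    obtain ⟨hw1, hw2⟩ : (wP P x = 1 ∨ wP P x = -1) ∧ x - ((wP P x : ℤ) : OO A B) ∈ P := by
      by_cases hx1 : x - 1 ∈ P
      · have hwx : wP P x = 1 := by simp [wP, hxP, hx1]
        rw [hwx]
        exact ⟨Or.inl rfl, by simpa using hx1⟩
      · have hwx : wP P x = -1 := by simp [wP, hxP, hx1]
        rw [hwx]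
        refine ⟨Or.inr rfl, ?_⟩
        have := (hcl x hxP).2.resolve_left hx1
        simpa using this
    obtain ⟨w, hw⟩ : ∃ w : ℤ, w = wP P x := ⟨_, rfl⟩
    rw [← hw] at hw1 hw2 ⊢
    obtain ⟨s1, s2, s3, s4⟩ := hsgn i w hw1
    have vw : V.valuation ((w : ℤ) : ℂ) = 1 := by
      rcases hw1 with rfl | rfl
      · simp
      · simp
    refine ⟨⟨ThetaH (R.L i) (H i) z, hmem⟩, fun _ => ⟨rfl, k1, ?_, ?_⟩⟩
    · rw [map_mul, map_mul, vw, one_mul]
      exact mul_le_one' (hc1 i) k2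
    · have hem : _root_.Pool.Agent.MU3A.em σ ⟨ThetaH (R.L i) (H i) z, hmem⟩ =
          ThetaH (R.L i) (H i) (emb (1 + γ) * z) := hθσ
      have e1 : emb (1 + γ) * z = (z + w * (muX R i * R₀)) +
          muX R i * (emb (x - (w : OO A B)) * R₀) := by
        rw [eadd, eone, esub, eint, g5, hR₀]
        ring
      rw [hem, e1, theta_per _ _ _ _ (g2 _ (hR₀P _ hw2))]
      have k4 := k3 _ s1 s2
      rw [s3] at k4
      have e2 : ThetaH (R.L i) (H i) (z + w * (muX R i * R₀)) - ThetaH (R.L i) (H i) z *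
          (1 + t * ((w : ℂ) * c i * dlX (R.L i) a z)) =
          (ThetaH (R.L i) (H i) (z + w * (muX R i * R₀)) - ThetaH (R.L i) (H i) z *
            (1 + tE (R.L i) (w * (muX R i * R₀)) * dlX (R.L i) a z)) +
          ThetaH (R.L i) (H i) z * ((tE (R.L i) (w * (muX R i * R₀)) - w * c i * t) *
            dlX (R.L i) a z) := by ring
      rw [e2]
      refine (V.valuation.map_add _ _).trans (max_le k4 ?_)
      rw [map_mul, k1, one_mul, map_mul]
      exact (mul_le_mul' s4 k2).trans (mul_one _).le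
  choose θ hθ using step
  -- products over `X j`
  have hone : ∀ j, V.valuation (∏ y ∈ X j, ThetaH (R.L y.1) (H y.1) (pt R m y.1 y.2)) = 1 ∧
      V.valuation (∑ y ∈ X j, (wP P y.2 : ℂ) * c y.1 *
        dlX (R.L y.1) a (pt R m y.1 y.2)) ≤ 1 ∧
      V.valuation (∏ y ∈ X j, _root_.Pool.Agent.MU3A.em σ (θ y) -
        (∏ y ∈ X j, ThetaH (R.L y.1) (H y.1) (pt R m y.1 y.2)) *
        (1 + t * ∑ y ∈ X j, (wP P y.2 : ℂ) * c y.1 *
          dlX (R.L y.1) a (pt R m y.1 y.2))) ≤ V.valuation t ^ 2 := by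
    intro j
    have hP := h11 ℂ _ (X j) V.valuation
      (fun y => ThetaH (R.L y.1.1) (H y.1.1) (pt R m y.1.1 y.1.2))
      (fun y => _root_.Pool.Agent.MU3A.em σ (θ y.1))
      (fun y => (wP P y.1.2 : ℂ) * c y.1.1 * dlX (R.L y.1.1) a (pt R m y.1.1 y.1.2))
      (fun _ => 1) t ht1
      (fun y => (hθ y.1 (hX j y.1 y.2)).2.1) (fun y => (hθ y.1 (hX j y.1 y.2)).2.2.1)
      (fun y => (hθ y.1 (hX j y.1 y.2)).2.2.2)
    simp only [zpow_one, Int.cast_one, one_mul] at hP
    rw [Finset.prod_coe_sort (X j) (fun y => ThetaH (R.L y.1) (H y.1) (pt R m y.1 y.2)),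
      Finset.prod_coe_sort (X j) (fun y => _root_.Pool.Agent.MU3A.em σ (θ y)),
      Finset.sum_coe_sort (X j) (fun y => (wP P y.2 : ℂ) * c y.1 *
        dlX (R.L y.1) a (pt R m y.1 y.2))] at hP
    exact hP
  obtain ⟨q1, q2, q3⟩ := h11 ℂ _ J V.valuation
    (fun j => ∏ y ∈ X j, ThetaH (R.L y.1) (H y.1) (pt R m y.1 y.2))
    (fun j => ∏ y ∈ X j, _root_.Pool.Agent.MU3A.em σ (θ y))
    (fun j => ∑ y ∈ X j, (wP P y.2 : ℂ) * c y.1 * dlX (R.L y.1) a (pt R m y.1 y.2)) g t ht1
    (fun j => (hone j).1) (fun j => (hone j).2.1) (fun j => (hone j).2.2)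
  -- the root
  have hwM : w0 ∈ RF (P ^ (n + 1) * M') := (h4 A B hring).1 _ _ hMm hw0
  have hFe : (⟨w0, hwM⟩ : RF (P ^ (n + 1) * M')) ^ p = ∏ j, (∏ y ∈ X j, θ y) ^ g j := by
    apply (RF (P ^ (n + 1) * M')).val.injective
    rw [map_pow, map_prod]
    simp only [map_zpow₀, map_prod]
    show w0 ^ p = _
    rw [hwp]
    refine Finset.prod_congr rfl fun j _ => ?_
    congr 1
    exact Finset.prod_congr rfl fun y hy => ((hθ y (hX j y hy)).1).symm
  have hFs : (_root_.Pool.Agent.MU3A.em σ ⟨w0, hwM⟩) ^ p = ∏ j, (∏ y ∈ X j, _root_.Pool.Agent.MU3A.em σ (θ y)) ^ g j := by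
    rw [← map_pow, hFe, map_prod]
    simp only [map_zpow₀, map_prod]
  have vw0 : V.valuation w0 ≤ 1 := by
    have e1 : V.valuation w0 ^ p = 1 := by rw [← map_pow, hwp]; exact q1
    exact ((pow_eq_one_iff.1 e1).resolve_right hpp.ne_zero).le
  exact last hC.two q1 ht1 ht0 hR₀t q3 hwp hFs (hσv ⟨w0, hwM⟩ vw0)

end

end Pool.Agent.MUXE


end

section

/-!
# MUX, block E: module MUV, the multipliers `μ_i` are units
-/

set_option autoImplicit false

open WeierstrassCurve Polynomial NumberField IsDedekindDomain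

namespace Pool.Agent.MUXE

open _root_.MU3 _root_.Pool.Agent.MU3A _root_.Pool.Agent.MU3B _root_.Pool.Agent.MUX _root_.Pool.Agent.MUXU _root_.Pool.Agent.RI

/-- two coprime natural numbers killing `z` modulo `L` -/
private lemma mem_of_cop_MUXE_MUV {L : PeriodPair} {z : ℂ} {a b : ℕ} (h : a.Coprime b)
    (ha : (a : ℂ) * z ∈ L.lattice) (hb : (b : ℂ) * z ∈ L.lattice) : z ∈ L.lattice := by
  have h1 : (1 : ℤ) = a * a.gcdA b + b * a.gcdB b := by
    have := Nat.gcd_eq_gcd_ab a b
    rw [h.gcd_eq_one] at this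
    exact_mod_cast this
  have h2 : z = (a.gcdA b : ℤ) • ((a : ℂ) * z) + (a.gcdB b : ℤ) • ((b : ℂ) * z) := by
    rw [zsmul_eq_mul, zsmul_eq_mul]
    have h3 : (1 : ℂ) = a * (a.gcdA b : ℤ) + b * (a.gcdB b : ℤ) := by exact_mod_cast h1
    linear_combination z * h3
  rw [h2]
  exact add_mem (zsmul_mem ha _) (zsmul_mem hb _)

private lemma v_one_lt_MUXE_MUV {V : ValuationSubring ℂ} {L : PeriodPair} {z : ℂ} (h : InEn V L z)
    (hz : z ∉ L.lattice) : 1 < V.valuation (xn L z) := by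
  rcases h with h | h
  · exact absurd h hz
  · rw [← not_le, ValuationSubring.valuation_le_one_iff]
    exact h

private lemma v_le_one_MUXE_MUV {V : ValuationSubring ℂ} {L : PeriodPair} {z : ℂ} (h : ¬ InEn V L z) :
    V.valuation (xn L z) ≤ 1 := by
  unfold InEn at h
  push Not at h
  exact (ValuationSubring.valuation_le_one_iff _ _).2 h.2

private lemma v_sub_MUXE_MUV {V : ValuationSubring ℂ} {x y : ℂ} (hx : 1 < V.valuation x)
    (hy : V.valuation y ≤ 1) : V.valuation (x - y) = V.valuation x :=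
  Valuation.map_sub_eq_of_lt_left _ (hy.trans_lt hx)

theorem te_MUV (h1 : Sxe_PA) (h2 : Sxe_KER) (h3 : Sxe_PT) (h4 : Sxe_TRA) (h5 : Sxe_TRB)
    (h6 : Su_BAC) (h7 : Su_PFI) : Sxe_MUV := by
  intro p A B P V c n ι R hn hpn i
  obtain ⟨-, -, hvp0, hcop, hPmax, -, -⟩ := h1 p A B P V c
  obtain ⟨hmu0, hmuL, hmuinj, -⟩ := h3 A B c.ring n ι R hn i
  obtain ⟨φ, hφ⟩ := c.ring.hom
  have hnat : ∀ k : ℕ, emb (k : OO A B) = k := fun k => by rw [← hφ, map_natCast]
  have hpp : p.Prime := by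
    rcases c.two with h | h
    · rw [h]; exact Nat.prime_two
    · rw [h]; exact Nat.prime_three
  have hNL0 : NL A B (R.L R.i0) := ⟨_, _, R.nl R.i0⟩
  have hNLi : NL A B (R.L i) := ⟨_, _, R.nl i⟩
  set L0 := R.L R.i0 with hL0
  set Li := R.L i with hLi
  set mu := muX R i with hmu
  -- natural numbers are not zero in `O`
  have hne : ∀ k : ℕ, k ≠ 0 → (k : OO A B) ≠ 0 := by
    intro k hk h
    have := hnat k
    rw [h, ← hφ, map_zero] at this
    exact hk (by exact_mod_cast this.symm)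
  obtain ⟨hmulL, -, -, -, hsp, -⟩ := h4 A B c.ring L0 hNL0
  -- the point `u`
  obtain ⟨u, huT, huN⟩ : ∃ z, Tor P L0 z ∧ z ∉ L0.lattice := by
    obtain ⟨z, hz1, hz2⟩ := (h5 A B c.ring L0 hNL0).1 ⊤ P
      (fun h => hne p hpp.ne_zero (by have := c.mem; rwa [h, Ideal.mem_bot] at this))
      (lt_top_iff_ne_top.mpr c.prime.ne_top)
    exact ⟨z, hz1, fun h => hz2 fun x _ => hmulL x z h⟩
  have hu'T : Tor P Li (mu * u) := by
    intro x hx
    have : emb x * (mu * u) = mu * (emb x * u) := by ring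
    rw [this]
    exact hmuL _ (huT x hx)
  have hu'N : mu * u ∉ Li.lattice := by
    intro h
    refine huN (hmuinj p hpp.ne_zero (Nat.primeFactors_mono hpn hn) u ?_ h)
    have := huT _ c.mem
    rwa [hnat p] at this
  obtain ⟨hE, hEt⟩ := h2 p A B P V c L0 hNL0 u huT huN
  obtain ⟨hE', hEt'⟩ := h2 p A B P V c Li hNLi (mu * u) hu'T hu'N
  have G0 := c.gx L0 hNL0
  have Gi := c.gx Li hNLi
  obtain ⟨-, ht0, hxt⟩ := G0.par u hE huN
  obtain ⟨-, ht0', hxt'⟩ := Gi.par (mu * u) hE' hu'N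
  have hp1 : p - 1 ≠ 0 := by have := hpp.two_le; omega
  have htt : V.valuation (tE L0 u) = V.valuation (tE Li (mu * u)) := by
    apply (pow_left_inj₀ zero_le zero_le hp1).mp
    rw [hEt, hEt']
  have hxx : V.valuation (xn Li (mu * u)) = V.valuation (xn L0 u) := by
    rw [htt, ← hxt'] at hxt
    exact (mul_right_cancel₀ (pow_ne_zero 2 ht0') hxt).symm
  -- the norm of `b_i`
  set N := nI (R.b i) with hN
  have hpN : ¬ p ∣ N := by
    intro h
    have := Nat.dvd_gcd h hpn
    rw [(R.cop i).gcd_eq_one] at this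
    exact hpp.one_lt.ne' (Nat.dvd_one.mp this)
  have hN0 : N ≠ 0 := fun h => hpN (h ▸ dvd_zero p)
  have hom0 : R.om R.i0 ≠ 0 := (R.nl R.i0).om_ne
  have homi : R.om i ≠ 0 := (R.nl i).om_ne
  have hker : ∀ z, mu * z ∈ Li.lattice → (N : ℂ) * z ∈ L0.lattice := by
    intro z hz
    obtain ⟨x, -, hx⟩ := ((R.nl i).mem _).mp hz
    refine ((R.nl R.i0).mem _).mpr ⟨x, by rw [R.b0]; trivial, ?_⟩
    rw [hmu] at hx
    unfold muX at hx
    rw [← hN] at hx
    field_simp at hx
    linear_combination hx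
  -- the prime `l`
  obtain ⟨l, hl1, hl⟩ := Nat.exists_infinite_primes (2 * p * N + 1)
  have hpos : 0 < p * N := Nat.mul_pos hpp.pos (Nat.pos_of_ne_zero hN0)
  have hpl : ¬ p ∣ l := by
    intro h
    have h8 : p = l := (Nat.prime_dvd_prime_iff_eq hpp hl).mp h
    have h9 : p ≤ p * N := Nat.le_mul_of_pos_right _ (Nat.pos_of_ne_zero hN0)
    nlinarith
  have hlN : l.Coprime N := by
    rw [Nat.Prime.coprime_iff_not_dvd hl]
    intro h
    have h8 := Nat.le_of_dvd (Nat.pos_of_ne_zero hN0) h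
    have h9 : N ≤ p * N := Nat.le_mul_of_pos_left _ hpp.pos
    nlinarith
  have hvl : V.valuation (l : ℂ) = 1 := (hcop l hpl).1
  have hvN : V.valuation (N : ℂ) = 1 := (hcop N hpN).1
  obtain ⟨w, hlw, hwN⟩ : ∃ z, (l : ℂ) * z ∈ L0.lattice ∧ z ∉ L0.lattice := by
    obtain ⟨z, hz1, hz2⟩ := (h5 A B c.ring L0 hNL0).1 ⊤ (sp (l : OO A B))
      (fun h => hne l hl.ne_zero (by rwa [Ideal.span_singleton_eq_bot] at h))
      (lt_top_iff_ne_top.mpr (by
        intro h
        have h8 : IsUnit (l : OO A B) := Ideal.span_singleton_eq_top.mp h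
        obtain ⟨y, hy⟩ := h8.exists_right_inv
        have h9 := congrArg QuadraticAlgebra.re hy
        have h10 : (l : ℤ) * y.re = 1 := by
          have h13 : ((l : OO A B) * y).re = (l : ℤ) * y.re := by simp
          rw [← h13, h9]; rfl
        have h11 : (l : ℤ) ∣ 1 := Dvd.intro _ h10
        have h12 : l ∣ 1 := by exact_mod_cast h11
        exact hl.one_lt.ne' (Nat.dvd_one.mp h12)))
    refine ⟨z, ?_, fun h => hz2 fun x _ => hmulL x z h⟩
    have := (hsp (l : OO A B) z).mp hz1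
    rwa [hnat l] at this
  have hwE : ¬ InEn V L0 w := fun h => hwN (G0.tor w l h hvl hlw)
  have hmwN : mu * w ∉ Li.lattice := fun h => hwN (mem_of_cop_MUXE_MUV hlN hlw (hker w h))
  have hmwE : ¬ InEn V Li (mu * w) := by
    intro h
    refine hmwN (Gi.tor _ l h hvl ?_)
    have : (l : ℂ) * (mu * w) = mu * (l * w) := by ring
    rw [this]
    exact hmuL _ hlw
  obtain ⟨⟨Q, hQ⟩, -⟩ := h6.2 L0 Li mu hmu0 hmuL
  have hqE : ∀ q ∈ Q, ¬ InEn V L0 q := fun q hq h =>
    hQ.ne q hq (G0.tor q N h hvN (hker q (hQ.mem q hq)))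
  have hwqE : ∀ q ∈ Q, ¬ InEn V L0 (w + q) := by
    intro q hq h
    have hv : V.valuation ((l * N : ℕ) : ℂ) = 1 := by
      push_cast; rw [map_mul, hvl, hvN, one_mul]
    have hm : ((l * N : ℕ) : ℂ) * (w + q) ∈ L0.lattice := by
      have e : ((l * N : ℕ) : ℂ) * (w + q) = (N : ℤ) • ((l : ℂ) * w) + (l : ℤ) • ((N : ℂ) * q) := by
        rw [zsmul_eq_mul, zsmul_eq_mul]; push_cast; ring
      rw [e]
      exact add_mem (zsmul_mem hlw _) (zsmul_mem (hker q (hQ.mem q hq)) _)
    have h8 := hmuL _ (G0.tor (w + q) (l * N) h hv hm)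
    rw [mul_add] at h8
    exact hmwN (by simpa using sub_mem h8 (hQ.mem q hq))
  -- the product formula
  have hPF := h7 L0 Li mu Q hmu0 hmuL hQ w hmwN u hu'N
  have hT := v_one_lt_MUXE_MUV hE huN
  have hT' := v_one_lt_MUXE_MUV hE' hu'N
  have e1 : V.valuation (Li.weierstrassP (mu * u) - Li.weierstrassP (mu * w)) =
      V.valuation (xn L0 u) := by
    have : Li.weierstrassP (mu * u) - Li.weierstrassP (mu * w) = xn Li (mu * u) - xn Li (mu * w) := by
      unfold xn; ring
    rw [this, v_sub_MUXE_MUV hT' (v_le_one_MUXE_MUV hmwE), hxx]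
  have e2 : V.valuation (L0.weierstrassP u - L0.weierstrassP w) = V.valuation (xn L0 u) := by
    have : L0.weierstrassP u - L0.weierstrassP w = xn L0 u - xn L0 w := by unfold xn; ring
    rw [this, v_sub_MUXE_MUV hT (v_le_one_MUXE_MUV hwE)]
  have e3 : V.valuation (∏ q ∈ Q, (L0.weierstrassP u - L0.weierstrassP q)) =
      V.valuation (xn L0 u) ^ Q.card := by
    rw [map_prod, ← Finset.prod_const]
    refine Finset.prod_congr rfl fun q hq => ?_
    have : L0.weierstrassP u - L0.weierstrassP q = xn L0 u - xn L0 q := by unfold xn; ring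
    rw [this, v_sub_MUXE_MUV hT (v_le_one_MUXE_MUV (hqE q hq))]
  have e4 : V.valuation (∏ q ∈ Q, (L0.weierstrassP u - L0.weierstrassP (w + q))) =
      V.valuation (xn L0 u) ^ Q.card := by
    rw [map_prod, ← Finset.prod_const]
    refine Finset.prod_congr rfl fun q hq => ?_
    have : L0.weierstrassP u - L0.weierstrassP (w + q) = xn L0 u - xn L0 (w + q) := by
      unfold xn; ring
    rw [this, v_sub_MUXE_MUV hT (v_le_one_MUXE_MUV (hwqE q hq))]
  have h8 := congrArg V.valuation hPF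
  rw [map_mul, map_mul, map_mul, map_pow, e1, e2, e3, e4] at h8
  have hT0 : V.valuation (xn L0 u) * V.valuation (xn L0 u) ^ Q.card ≠ 0 := by
    have : V.valuation (xn L0 u) ≠ 0 := (lt_trans zero_lt_one hT).ne'
    exact mul_ne_zero this (pow_ne_zero _ this)
  have h9 : V.valuation mu ^ 2 = 1 := by
    rw [mul_assoc] at h8
    exact (mul_eq_right₀ hT0).mp h8
  rcases lt_trichotomy (V.valuation mu) 1 with h | h | h
  · exact absurd h9 (pow_lt_one₀ zero_le h two_ne_zero).ne
  · exact h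
  · exact absurd h9 (one_lt_pow₀ h two_ne_zero).ne'

end Pool.Agent.MUXE


end

section

/-!
# MUX, block E, module DEG (helper65): the degree of `RF (P^j m')` over `RF m'`
-/

set_option autoImplicit false

open WeierstrassCurve Polynomial NumberField IsDedekindDomain

namespace Pool.Agent.MUXE

open _root_.MU3 _root_.Pool.Agent.MU3A _root_.Pool.Agent.MU3B _root_.Pool.Agent.MUX _root_.Pool.Agent.MUXU _root_.Pool.Agent.RI

noncomputable section

namespace DEG

/-- an integer prime to `p` can be replaced by a natural number in the box of the totient -/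
theorem exists_nat {p j : ℕ} (hp : p.Prime) (r : ℤ) (hr : ¬ (p : ℤ) ∣ r) :
    ∃ n : ℕ, n ∈ (Finset.range (p ^ j)).filter (fun a => (p ^ j).Coprime a) ∧
      ((p : ℤ) ^ j) ∣ r - n := by
  have hpj : 0 < p ^ j := pow_pos hp.pos j
  have hpj' : ((p ^ j : ℕ) : ℤ) ≠ 0 := by exact_mod_cast hpj.ne'
  have h1 : 0 ≤ r % ((p ^ j : ℕ) : ℤ) := Int.emod_nonneg r hpj'
  have h2 : r % ((p ^ j : ℕ) : ℤ) < ((p ^ j : ℕ) : ℤ) :=
    Int.emod_lt_of_pos r (by exact_mod_cast hpj)
  obtain ⟨n, hn⟩ := Int.eq_ofNat_of_zero_le h1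
  have h3 : ((p : ℤ) ^ j) ∣ r - n := by
    rw [← hn]
    have h4 := Int.dvd_self_sub_emod (x := r) (m := ((p ^ j : ℕ) : ℤ))
    exact_mod_cast h4
  refine ⟨n, ?_, h3⟩
  rw [Finset.mem_filter, Finset.mem_range]
  refine ⟨?_, ?_⟩
  · rw [hn] at h2
    exact_mod_cast h2
  · rcases Nat.eq_zero_or_pos j with rfl | hj
    · simp
    · refine Nat.Coprime.pow_left j ((Nat.Prime.coprime_iff_not_dvd hp).2 fun hd => hr ?_)
      have h5 : (p : ℤ) ∣ r - n := (dvd_pow_self (p : ℤ) (by omega)).trans h3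
      have h6 : (p : ℤ) ∣ (n : ℤ) := by exact_mod_cast hd
      have h7 := dvd_add h5 h6
      rwa [sub_add_cancel] at h7

end DEG

open _root_.Pool.Agent.MUXE.DEG in
theorem te_DEG (h1 : Sxe_PA) (h2 : Sxe_PB) (h3 : Sxe_FAC) : Sxe_DEG := by
  classical
  intro p A B P V hC hG j m' hj hm' hmP
  have hR := hC.ring
  haveI := hR.ded
  have hp : p.Prime := by
    rcases hC.two with rfl | rfl
    · exact Nat.prime_two
    · exact Nat.prime_three
  obtain ⟨f1, -, f3, -, f5⟩ := h3 A B hR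
  obtain ⟨-, -, -, -, -, hcop, -⟩ := h1 p A B P V hC
  -- ideals
  set m : Ideal (OO A B) := P ^ j * m' with hm
  have hmm' : m ≤ m' := Ideal.mul_le_right
  have hmPj : m ≤ P ^ j := Ideal.mul_le_left
  have hPjP : P ^ j ≤ P := Ideal.pow_le_self (by omega)
  have hP0 : P ≠ ⊥ := by
    intro h0
    have h4 := hC.mem
    rw [h0, Ideal.mem_bot] at h4
    obtain ⟨φ, hφ⟩ := hR.hom
    have h5 : φ ((p : ℕ) : OO A B) = ((p : ℕ) : ℂ) := map_natCast φ p
    rw [h4, map_zero] at h5
    exact hp.ne_zero (by exact_mod_cast h5.symm)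
  have hm0 : m ≠ ⊥ := by
    have h4 : P ^ j ≠ (0 : Ideal (OO A B)) := pow_ne_zero j hP0
    exact mul_ne_zero h4 hm'
  have hinf : P ^ j ⊓ m' = m := Ideal.inf_eq_mul_of_isCoprime (hcop m' j hmP).symm
  -- fields
  have hF : RF m' ≤ RF m := f1 m m' hmm'
  haveI := hG.fin m hm0
  haveI := hG.gal m hm0
  rw [← Pool.Agent.FX.card_fix hF]
  refine Nat.mul_le_mul_right _ ?_
  -- the kernel
  have hker : ∀ σ : Pool.Agent.FX.Fix (RF m') (RF m), ∃ α : OO A B, α - 1 ∈ m' ∧ ActE (_root_.Pool.Agent.MU3A.em σ.1) m α := by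
    intro σ
    refine hG.ker m m' hm0 hmm' (_root_.Pool.Agent.MU3A.em σ.1) ?_
    intro y hy hy'
    exact σ.2 y hy hy'
  choose α hα1 hα2 using hker
  have hαP : ∀ σ, α σ ∉ P := by
    intro σ hσ
    have h4 := (hα2 σ).1
    have h5 : sp (α σ) ≤ P := (Ideal.span_singleton_le_iff_mem P).2 hσ
    have h6 : m ≤ P := hmPj.trans hPjP
    have h7 : sp (α σ) ⊔ m = ⊤ := Ideal.isCoprime_iff_sup_eq.1 h4
    have h8 : (⊤ : Ideal (OO A B)) ≤ P := h7 ▸ sup_le h5 h6
    exact hC.prime.ne_top (top_le_iff.1 h8)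
  have hinj : ∀ σ τ, α σ - α τ ∈ P ^ j → σ = τ := by
    intro σ τ h
    have h4 : α σ - α τ ∈ m' := by
      have := sub_mem (hα1 σ) (hα1 τ)
      rwa [sub_sub_sub_cancel_right] at this
    have h5 : α σ - α τ ∈ m := hinf ▸ Ideal.mem_inf.2 ⟨h, h4⟩
    have h6 := f5 m (RF m) (_root_.Pool.Agent.MU3A.em σ.1) (α σ) (α τ) (Or.inl h5) (hα2 σ)
    have h7 := f3 m _ _ _ h6 (hα2 τ)
    exact Pool.Agent.FX.fix_ext fun x => DFunLike.congr_fun h7 x
  have hr : ∀ σ, ∃ n : ℕ, n ∈ (Finset.range (p ^ j)).filter (fun a => (p ^ j).Coprime a) ∧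
      α σ - (n : OO A B) ∈ P ^ j := by
    intro σ
    obtain ⟨⟨r, hr⟩, -⟩ := h2 p A B P hR hp hC.prime hC.mem hC.norm hC.split j (α σ)
    have hpr : ¬ (p : ℤ) ∣ r := by
      rintro ⟨s, rfl⟩
      apply hαP σ
      have h4 : α σ - (((p : ℤ) * s : ℤ) : OO A B) ∈ P := hPjP hr
      have h5 : ((((p : ℤ) * s : ℤ)) : OO A B) ∈ P := by
        push_cast
        exact Ideal.mul_mem_right _ _ hC.mem
      have h6 := add_mem h4 h5
      rwa [sub_add_cancel] at h6
    obtain ⟨n, hn, hd⟩ := exists_nat (j := j) hp r hpr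
    refine ⟨n, hn, ?_⟩
    obtain ⟨s, hs⟩ := hd
    have h4 : α σ - (n : OO A B) = (α σ - (r : OO A B)) + ((r - n : ℤ) : OO A B) := by
      push_cast
      ring
    rw [h4, hs]
    refine add_mem hr ?_
    push_cast
    exact Ideal.mul_mem_right _ _ (Ideal.pow_mem_pow hC.mem j)
  choose n hn1 hn2 using hr
  have hcard : Nat.card (Pool.Agent.FX.Fix (RF m') (RF m)) ≤
      Nat.card ((Finset.range (p ^ j)).filter (fun a => (p ^ j).Coprime a)) := by
    refine Nat.card_le_card_of_injective (fun σ => ⟨n σ, hn1 σ⟩) ?_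
    intro σ τ h
    have h4 : n σ = n τ := congrArg Subtype.val h
    apply hinj
    have h5 := sub_mem (hn2 σ) (hn2 τ)
    rw [h4, sub_sub_sub_cancel_right] at h5
    exact h5
  refine hcard.trans (le_of_eq ?_)
  rw [Nat.card_eq_fintype_card, Fintype.card_coe, ← Nat.totient_eq_card_coprime,
    Nat.totient_prime_pow hp (by omega), mul_comm]

end

end Pool.Agent.MUXE


end
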