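import Mathlib
import Pool.Agent.MVF.C027
import Pool.Agent.MVF.C093
import Pool.Agent.MVF.C094

/-! Parts: MU3.W_FROB, MU3.WK6, MU3.StV3, MU3.WK3, MU3.W_KOL -/

namespace Pool.Agent.MU3V.FROB
end Pool.Agent.MU3V.FROB

section

/-!
# MU3, block V, FROB: the Frobenius at a prime of degree one acts as `± lam`
-/

set_option autoImplicit false

open NumberField IsDedekindDomain

namespace Pool.Agent.MU3V

open _root_.MU3 _root_.Pool.Agent.MU3A _root_.Pool.Agent.MU3B _root_.Pool.Agent.MU3C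

noncomputable section

namespace FROB

lemma mul_conj {A B : ℤ} (lam : OO A B) :
    lam * ⟨lam.re + B * lam.im, -lam.im⟩ = ((nm lam : ℤ) : OO A B) := by
  apply QuadraticAlgebra.ext
  · rw [QuadraticAlgebra.re_mul]
    simp only [QuadraticAlgebra.re_intCast, nm, Int.cast_id]
    ring
  · rw [QuadraticAlgebra.im_mul]
    simp only [QuadraticAlgebra.im_intCast, nm]
    ring

/-- integers prime to the residue characteristic are units -/
lemma v_int_eq_one {V : ValuationSubring ℂ} {q : ℕ} (hq : q.Prime) (hv : V.valuation (q : ℂ) < 1)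
    {s : ℤ} (hs : ¬ (q : ℤ) ∣ s) : V.valuation (s : ℂ) = 1 := by
  have h1 : V.valuation (s : ℂ) ≤ 1 := (ValuationSubring.valuation_le_one_iff _ _).2 (intCast_mem V s)
  refine le_antisymm h1 ?_
  by_contra hc
  push Not at hc
  have h2 : IsCoprime (q : ℤ) s := (Int.isCoprime_iff_gcd_eq_one.2
    ((Nat.Prime.coprime_iff_not_dvd hq).2 (by
      intro h3
      exact hs (Int.natCast_dvd.2 h3))))
  obtain ⟨x, y, hxy⟩ := h2
  have h3 : (x : ℂ) * q + y * s = 1 := by exact_mod_cast congrArg (Int.cast : ℤ → ℂ) hxy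
  have hx : V.valuation ((x : ℂ) * q) < 1 := by
    rw [map_mul, mul_comm]
    exact mul_lt_one_of_lt_of_le hv
      ((ValuationSubring.valuation_le_one_iff _ _).2 (intCast_mem V x))
  have hy : V.valuation ((y : ℂ) * s) < 1 := by
    rw [map_mul, mul_comm]
    exact mul_lt_one_of_lt_of_le hc
      ((ValuationSubring.valuation_le_one_iff _ _).2 (intCast_mem V y))
  have h4 := Valuation.map_add_lt V.valuation hx hy
  rw [h3, map_one] at h4
  exact lt_irrefl _ h4

end FROB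

open _root_.Pool.Agent.MU3V.FROB in
/-- the Frobenius at a prime of degree one acts as `± lam` -/
theorem tw_FROB (hR5 : Sv_R5) (hEXT : Sv_EXT) (hLOC : Sw_LOC) (hTOR : Sw_TORV) (hG : Sa_GAL)
    (hA : Sa_ACT) (hXI : Sa_XI) (hPID : Sa_PID) (hINT : Sa_INT) : Sw_FROB := by
  intro A B L Om h hL
  refine ⟨2310, by norm_num, ?_⟩
  intro lam q hq hnm hq2310 m hm hqm F _ _ hF w hwp hw σ hσ
  obtain ⟨hfd, -⟩ := hINT A B h
  have hk : NumberField (kk A B) := ⟨⟩
  have hFQ : FiniteDimensional ℚ F := FiniteDimensional.trans ℚ (kk A B) F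
  have hFN : NumberField F := ⟨⟩
  obtain ⟨-, -, -, hnmul, hnm0, -, hunit, hunit', -⟩ := hPID A B h
  obtain ⟨ξ, hξ0, -, hξs⟩ := hXI A B L Om h hL
  have hξ : IsXi A B L ξ := ⟨hξs, fun z hz => (hξ0 z).2 hz⟩
  obtain ⟨a, ha⟩ := hG A B L Om h hL m hm F hF (_root_.Pool.Agent.MU3A.em σ)
  have hact := (hA A B L Om h hL m hm).2.1 F (_root_.Pool.Agent.MU3A.em σ)
  -- `m` a unit
  by_cases hu : IsUnit m
  · exact Or.inl (hact a lam hu.dvd ha)
  have hlam0 : lam ≠ 0 := by
    rintro rfl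
    have h1 := (hnm0 (0 : OO A B)).2 rfl
    rw [h1] at hnm
    exact hq.ne_zero (by exact_mod_cast hnm.symm)
  have hlam1 := emb_ne_zero h hlam0
  -- the prime `w`
  obtain ⟨y, hyw, hy⟩ := hw
  have hy0 : y ≠ 0 := by
    rintro rfl
    exact hlam1 (by rw [← hy]; simp)
  have hwb : w ≠ ⊥ := fun h1 => hy0 (by rw [h1] at hyw; simpa using hyw)
  let v : HeightOneSpectrum (𝓞 F) := ⟨w, hwp, hwb⟩
  obtain ⟨V, hV⟩ := hEXT F (algebraMap F ℂ) v
  have hV' : ∀ x : F, ((x : ℂ) ∈ V ↔ v.valuation F x ≤ 1) ∧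
      (V.valuation (x : ℂ) < 1 ↔ v.valuation F x < 1) := fun x => ⟨(hV x).1, (hV x).2.1⟩
  have hvlam : V.valuation (emb lam) < 1 := by
    rw [← hy]
    rw [(hV' _).2]
    exact (HeightOneSpectrum.valuation_lt_one_iff_mem v y).2 hyw
  have hvq : V.valuation (q : ℂ) < 1 := by
    have h1 := congrArg emb (mul_conj lam)
    rw [emb_mul h, emb_intCast h, hnm] at h1
    have h2 : (((q : ℤ) : ℤ) : ℂ) = (q : ℂ) := by push_cast; rfl
    rw [h2] at h1
    rw [← h1, map_mul]
    exact mul_lt_one_of_lt_of_le hvlam (v_emb_le h V _)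
  have hs : ∀ s : ℤ, ¬ (q : ℤ) ∣ s → V.valuation (s : ℂ) = 1 := fun s hs => v_int_eq_one hq hvq hs
  have hsn : ∀ s : ℕ, s ∣ 2310 → V.valuation (s : ℂ) = 1 := by
    intro s hs2
    have h1 := hs s (by
      intro h2
      exact hq2310 ((Int.natCast_dvd_natCast.1 h2).trans hs2))
    rwa [Int.cast_natCast] at h1
  have v2 : V.valuation (2 : ℂ) = 1 := by simpa using hsn 2 (by norm_num)
  have v3 : V.valuation (3 : ℂ) = 1 := by simpa using hsn 3 (by norm_num)
  have v5 : V.valuation (5 : ℂ) = 1 := by simpa using hsn 5 (by norm_num)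
  have v7 : V.valuation (7 : ℂ) = 1 := by simpa using hsn 7 (by norm_num)
  have v11 : V.valuation (11 : ℂ) = 1 := by simpa using hsn 11 (by norm_num)
  have vm : V.valuation ((nm m : ℤ) : ℂ) = 1 := hs _ hqm
  -- points
  have hm0 := emb_ne_zero h hm
  have hz : Om / emb m ∉ L.lattice := by
    intro h0
    apply hu
    rw [isUnit_iff_dvd_one, ← hL.toIsLat.mul_div_mem_iff h hm 1, emb_one h, one_mul]
    exact h0
  have hlz : emb lam * (Om / emb m) ∉ L.lattice := by
    rw [hL.toIsLat.mul_div_mem_iff h hm]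
    rintro ⟨c, hc⟩
    have h1 : nm lam = nm m * nm c := by rw [hc, hnmul]
    rw [hnm] at h1
    have h2 : nm m ∣ (q : ℤ) := ⟨nm c, h1⟩
    have h3 : (nm m).natAbs ∣ q := by
      have := Int.natAbs_dvd_natAbs.2 h2
      simpa using this
    rcases (Nat.dvd_prime hq).1 h3 with h4 | h4
    · apply hu
      rw [hunit' m]
      have h5 : 0 ≤ nm m := by
        by_contra h6
        have := (hPID A B h).2.2.1 m
        exact h6 this
      omega
    · apply hqm
      rw [← h4]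
      exact Int.natAbs_dvd.2 dvd_rfl
  have hmz : emb m * (Om / emb m) ∈ L.lattice := by
    rw [mul_div_cancel₀ _ hm0, hL.mem]
    exact ⟨1, by rw [emb_one h, mul_one]⟩
  have hmx : ∀ x : OO A B, emb m * (emb x * (Om / emb m)) ∈ L.lattice := by
    intro x
    rw [mul_left_comm]
    exact hL.toIsLat.emb_mul_mem h x hmz
  have htor := hTOR A B L Om ξ h hL hξ V v2 m vm
  obtain ⟨haz, hx, -⟩ := ha.2 _ hmz hz
  have hz1 : ¬ InE1 A B V L (Om / emb m) := fun h0 => hz (htor _ hmz h0)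
  have hz2 : ¬ InE1 A B V L (emb a * (Om / emb m)) := fun h0 => haz (htor _ (hmx a) h0)
  have hz3 : ¬ InE1 A B V L (emb lam * (Om / emb m)) := fun h0 => hlz (htor _ (hmx lam) h0)
  have hxF : xx A B L (Om / emb m) ∈ F :=
    hF (IntermediateField.subset_adjoin _ _ ⟨_, hmz, hz, Or.inl rfl⟩)
  have hx1 : V.valuation (xx A B L (emb a * (Om / emb m)) - xx A B L (Om / emb m) ^ q) < 1 := by
    have h3 := hLOC A B F v V hV' σ q hq.pos hσ ⟨_, hxF⟩
      ((ValuationSubring.valuation_le_one_iff _ _).1 (int_x hz1).2)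
    have h4 := hx hxF
    change ((σ ⟨_, hxF⟩ : F) : ℂ) = _ at h4
    rwa [h4] at h3
  have hx2 := (hR5 A B L Om ξ h hL hξ V v2 v3 v5 v7 v11 lam q hq hnm hvlam _ hz1).2
  have hx3 : V.valuation (xx A B L (emb a * (Om / emb m)) - xx A B L (emb lam * (Om / emb m))) < 1 := by
    have h3 := Valuation.map_sub_lt V.valuation hx1 hx2
    rwa [sub_sub_sub_cancel_right] at h3
  have h4 : InE1 A B V L (emb a * (Om / emb m) + emb lam * (Om / emb m)) ∨
      InE1 A B V L (emb a * (Om / emb m) - emb lam * (Om / emb m)) := by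
    by_contra hcon
    push Not at hcon
    have h5 := v_xx_sub h v2 hξ hz2 hz3 hcon.1 hcon.2
    rw [h5] at hx3
    exact lt_irrefl _ hx3
  rcases h4 with h4 | h4
  · right
    refine hact a (-lam) ?_ ha
    rw [sub_neg_eq_add, ← hL.toIsLat.mul_div_mem_iff h hm, emb_add h, add_mul]
    refine htor _ ?_ h4
    rw [mul_add]
    exact add_mem (hmx a) (hmx lam)
  · left
    refine hact a lam ?_ ha
    rw [← hL.toIsLat.mul_div_mem_iff h hm, emb_sub h, sub_mul]
    refine htor _ ?_ h4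
    rw [mul_sub]
    exact sub_mem (hmx a) (hmx lam)

end

end Pool.Agent.MU3V


end

section

/-!
# MU3, block V: local facts for the torsion points of order `m lam` (helper59)
-/

set_option autoImplicit false

open WeierstrassCurve Polynomial NumberField IsDedekindDomain

namespace Pool.Agent.MU3V

open _root_.MU3 _root_.Pool.Agent.MU3A _root_.Pool.Agent.MU3B _root_.Pool.Agent.MU3C _root_.Pool.Agent.RI

noncomputable section

variable {A B : ℤ}

section
variable (h : Case A B) {L : PeriodPair} {Om : ℂ} (hL : IsCM A B L Om)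
  {ξ : ℂ →+ (WC A B).Point} (hξ : IsXi A B L ξ) {V : ValuationSubring ℂ}
  (v2 : V.valuation 2 = 1) {m lam : OO A B} {q : ℕ}
  (hm : m ≠ 0) (hlam : lam ≠ 0) (hcop : IsCoprime m lam) (hu : ¬ IsUnit lam) (hmu : ¬ IsUnit m)
  (vm : V.valuation ((nm m : ℤ) : ℂ) = 1)
  {a : ℤ} {H : Finset ℂ} (hH : IsHalf L a H)

include h hL hξ v2 vm in
/-- `E[m lam]` meets `E₁` trivially where `lam` is a unit -/
lemma torsN (hINJ : Sv_INJ) (hPID : Sa_PID) (hq : q.Prime) (hnm : nm lam = q)
    (vl : V.valuation (emb lam) = 1) (z : ℂ) (hz : emb (m * lam) * z ∈ L.lattice)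
    (hE : InE1 A B V L z) : z ∈ L.lattice := by
  obtain ⟨-, -, hnn, -⟩ := hPID A B h
  obtain ⟨n, hn⟩ := Int.eq_ofNat_of_zero_le (hnn m)
  have vn : V.valuation (n : ℂ) = 1 := by rw [hn] at vm; simpa using vm
  have h1 : emb lam * ((n : ℂ) * z) ∈ L.lattice := by
    have e := congrArg emb (FROB.mul_conj m)
    rw [emb_mul h, emb_intCast h, hn] at e
    have e2 : emb lam * ((n : ℂ) * z) =
        emb (⟨m.re + B * m.im, -m.im⟩ : OO A B) * (emb (m * lam) * z) := by
      rw [emb_mul h]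
      rw [Int.cast_natCast] at e
      rw [← e]; ring
    rw [e2]
    exact hL.emb_mul_mem h _ hz
  have h2 := hINJ A B L Om ξ h hL hξ V v2 lam q hq hnm vl _ h1 (inE1_nat h v2 hξ hE n)
  exact mem_of_nat_mul h v2 hξ hE vn h2

include h hL hm in
lemma u_tors (x : OO A B) : emb m * (emb x * (Om / emb m)) ∈ L.lattice := by
  have hm0 := emb_ne_zero h hm
  refine (hL.mem _).2 ⟨x, ?_⟩
  field_simp

include h hL hm hmu in
lemma u_notMem {x : OO A B} (hx : IsCoprime x m) : emb x * (Om / emb m) ∉ L.lattice := by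
  rw [hL.mul_div_mem_iff h hm]
  intro hd
  exact hmu (hx.symm.isUnit_of_dvd' dvd_rfl hd)

include h hL hξ v2 vm hm hlam hcop hu hmu hH in
/-- `Θ_a(u + u')` is a unit -/
lemma theta_unit (hTHU : Sw_THU) (hTORV : Sw_TORV) (hINJ : Sv_INJ) (hR2 : Sv_R2)
    (hPID : Sa_PID) (hq : q.Prime) (hnm : nm lam = q) (va : V.valuation (a : ℂ) = 1)
    (hcm : IsCoprime (a : OO A B) m) :
    V.valuation (ThetaH L H (emb (1 : OO A B) * (Om / emb m) + emb (1 : OO A B) * (Om / emb lam))) = 1 := by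
  refine (hTHU A B L Om ξ h hL hξ V v2 a H va hH).1 _ fun hE => ?_
  have e : (a : ℂ) * (emb (1 : OO A B) * (Om / emb m) + emb (1 : OO A B) * (Om / emb lam)) =
      emb (a : OO A B) * (Om / emb m) + emb (a : OO A B) * (Om / emb lam) := by
    rw [emb_one h, emb_intCast h]; ring
  have hau := u_notMem h hL hm hmu hcm
  rcases (v_emb_le h V lam).lt_or_eq with vl | vl
  · have h1 := hR2 A B L Om ξ h hL hξ V v2 lam q hq hnm vl _ (u_tors h hL hlam (a : OO A B))
    rw [e] at hE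
    have h2 := inE1_sub h v2 hξ hE h1
    rw [add_sub_cancel_right] at h2
    exact hau (hTORV A B L Om ξ h hL hξ V v2 m vm _ (u_tors h hL hm _) h2)
  · have h1 := torsN h hL hξ v2 vm hINJ hPID hq hnm vl _ (by
      rw [e]; exact z0_tors h hL hm hlam _ _) hE
    rw [e] at h1
    have h2 := hL.emb_mul_mem h lam h1
    have hl0 := emb_ne_zero h hlam
    have e2 : emb lam * (emb (a : OO A B) * (Om / emb m) + emb (a : OO A B) * (Om / emb lam)) =
        emb (lam * (a : OO A B)) * (Om / emb m) + Om * emb (a : OO A B) := by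
      rw [emb_mul h]; field_simp
    rw [e2] at h2
    have h3 : Om * emb (a : OO A B) ∈ L.lattice := (hL.mem _).2 ⟨_, rfl⟩
    have h4 := sub_mem h2 h3
    rw [add_sub_cancel_right] at h4
    exact u_notMem h hL hm hmu (hcop.symm.mul_left hcm) h4

include h hL hξ v2 vm hm hlam hmu hH in
/-- the congruence at the primes above `lam` -/
lemma theta_cong_lam (hTHU : Sw_THU) (hTORV : Sw_TORV) (hR2 : Sv_R2)
    (hq : q.Prime) (hnm : nm lam = q) (va : V.valuation (a : ℂ) = 1)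
    (vl : V.valuation (emb lam) < 1) {y r : OO A B} (hy : IsCoprime y m) :
    V.valuation (ThetaH L H (emb y * (Om / emb m))) ≤ 1 ∧
      V.valuation (ThetaH L H (emb y * (Om / emb m) + emb r * (Om / emb lam)) -
        ThetaH L H (emb y * (Om / emb m))) < 1 := by
  refine (hTHU A B L Om ξ h hL hξ V v2 a H va hH).2 _ _ (fun hE => ?_) ?_
  · exact u_notMem h hL hm hmu hy (hTORV A B L Om ξ h hL hξ V v2 m vm _ (u_tors h hL hm _) hE)
  · exact hR2 A B L Om ξ h hL hξ V v2 lam q hq hnm vl _ (u_tors h hL hlam _)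

end

/-! ### Passage to primes -/

lemma val_nat_one {F : Type} [Field F] [NumberField F] {w : HeightOneSpectrum (𝓞 F)}
    {φ : F →+* ℂ} {V : ValuationSubring ℂ}
    (hV : ∀ x : F, (φ x ∈ V ↔ w.valuation F x ≤ 1) ∧
      (V.valuation (φ x) < 1 ↔ w.valuation F x < 1) ∧ (V.valuation (φ x) = 1 ↔ w.valuation F x = 1))
    {p : ℕ} (hp : (p : 𝓞 F) ∉ w.asIdeal) : V.valuation (p : ℂ) = 1 := by
  have h1 : w.valuation F (p : F) = 1 := by
    have h3 : ¬ (w.valuation F (p : F) < 1) := by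
      intro h4
      apply hp
      rw [← HeightOneSpectrum.valuation_lt_one_iff_mem (K := F) w (p : 𝓞 F)]
      simpa using h4
    refine le_antisymm ?_ (not_lt.1 h3)
    have h5 := HeightOneSpectrum.valuation_le_one (K := F) w (p : 𝓞 F)
    simpa using h5
  have h2 := ((hV (p : F)).2.2).2 h1
  simpa using h2

/-- integers all of whose prime divisors are in `S` are units outside `S` -/
lemma val_int_S {F : Type} [Field F] [NumberField F] {w : HeightOneSpectrum (𝓞 F)}
    {φ : F →+* ℂ} {V : ValuationSubring ℂ}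
    (hV : ∀ x : F, (φ x ∈ V ↔ w.valuation F x ≤ 1) ∧
      (V.valuation (φ x) < 1 ↔ w.valuation F x < 1) ∧ (V.valuation (φ x) = 1 ↔ w.valuation F x = 1))
    {S : Finset ℕ} (hw : ¬ Pool.Agent.MU3.Above S w) {n : ℤ} (hn : n ≠ 0)
    (hS : ∀ p : ℕ, p.Prime → (p : ℤ) ∣ n → p ∈ S) : V.valuation (n : ℂ) = 1 :=
  SUC.v_int hn fun p hp hpn => val_nat_one hV fun h1 => hw ⟨p, hS p hp hpn, h1⟩

end

end Pool.Agent.MU3V


end

section

/-!
# MU3, block V: the input (I2) (helper59)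
-/

set_option autoImplicit false

open WeierstrassCurve Polynomial NumberField IsDedekindDomain

namespace Pool.Agent.MU3V

open _root_.MU3 _root_.Pool.Agent.MU3A _root_.Pool.Agent.MU3B _root_.Pool.Agent.MU3C _root_.Pool.Agent.RI

noncomputable section

/-- (KOL) the input (I2): `KolIn` for the element `c = cc .. 1` of `D`. -/
def Sw_KOL : Prop :=
  ∀ (A B : ℤ) (L : PeriodPair) (Om : ℂ), Case A B → IsCM A B L Om → ∃ n₀ : ℕ, n₀ ≠ 0 ∧
    ∀ m : OO A B, m ≠ 0 → mz A B ∣ m → ∀ (a : ℤ) (H : Finset ℂ), a ≠ 0 →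
    IsCoprime (a : OO A B) m → IsHalf L a H →
    ∀ S : Finset ℕ, (∀ p : ℕ, p.Prime → p ∣ n₀ → p ∈ S) →
    (∀ p : ℕ, p.Prime → (p : ℤ) ∣ a → p ∈ S) → (∀ p : ℕ, p.Prime → (p : ℤ) ∣ nm m → p ∈ S) →
    ∀ (D : IntermediateField ℚ ℂ) [FiniteDimensional ℚ D] [FiniteDimensional ℚ (kk A B)]
      (h : kk A B ≤ D), Sub D (TF L m) → letI := algC h
      ∀ c : D, (c : ℂ) = cc L Om m H h 1 → Pool.Agent.MU3.KolIn (kk A B) D S c

end

end Pool.Agent.MU3V


end

section

/-!
# MU3, block V: products over `Gal(F_(m lam) / D)` (helper59)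
-/

set_option autoImplicit false

open WeierstrassCurve Polynomial NumberField IsDedekindDomain

namespace Pool.Agent.MU3V

open _root_.MU3 _root_.Pool.Agent.MU3A _root_.Pool.Agent.MU3B _root_.Pool.Agent.MU3C _root_.Pool.Agent.RI

noncomputable section

/-! ### Abstract products -/

lemma prod_all_abs {G X U : Type*} [Group G] [Group U] [Finite X] [Finite U]
    (a : G → X) (b : G → U) (hbij : Function.Bijective (fun g => (a g, b g)))
    (f : X → U → ℂ) : ∏ᶠ σ : G, f (a σ) (b σ) = ∏ᶠ x : X, ∏ᶠ u : U, f x u := by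
  classical
  have e1 : ∏ᶠ σ : G, f (a σ) (b σ) = ∏ᶠ p : X × U, f p.1 p.2 :=
    finprod_eq_of_bijective (fun g => (a g, b g)) hbij (fun _ => rfl)
  have : Fintype X := Fintype.ofFinite X
  have : Fintype U := Fintype.ofFinite U
  rw [e1, finprod_eq_prod_of_fintype, Fintype.prod_prod_type, finprod_eq_prod_of_fintype]
  refine Finset.prod_congr rfl fun x _ => ?_
  rw [finprod_eq_prod_of_fintype]

lemma prod_ker_abs {G X U : Type*} [Group G] [Group U] [Finite X] [Finite U]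
    (a : G → X) (b : G →* U) (hbij : Function.Bijective (fun g => (a g, b g)))
    (ψ : U →* Multiplicative (ZMod 3)) (hψ : Function.Surjective ψ) (g : X → ℂ) :
    ∏ᶠ σ : (ψ.comp b).ker, g (a σ) = (∏ᶠ x : X, g x) ^ (Nat.card U / 3) := by
  classical
  have hcard : Nat.card U = Nat.card ψ.ker * 3 := by
    have h1 := Subgroup.card_mul_index ψ.ker
    rw [Subgroup.index_ker, MonoidHom.range_eq_top.2 hψ] at h1
    rw [← h1]
    congr 1
    rw [Subgroup.card_top, Nat.card_congr Multiplicative.toAdd, Nat.card_zmod]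
  have : Fintype X := Fintype.ofFinite X
  have : Fintype U := Fintype.ofFinite U
  have : Fintype ψ.ker := Fintype.ofFinite _
  have e1 : ∏ᶠ σ : (ψ.comp b).ker, g (a σ) = ∏ᶠ p : X × ψ.ker, g p.1 := by
    refine finprod_eq_of_bijective (fun σ => (a σ, (⟨b σ, σ.2⟩ : ψ.ker))) ⟨?_, ?_⟩ (fun _ => rfl)
    · intro σ τ e
      have h1 := congrArg (fun p => p.1) e
      have h2 := congrArg (fun p => (p.2 : U)) e
      exact Subtype.ext (hbij.1 (Prod.ext h1 h2))
    · rintro ⟨x, ⟨u, hu⟩⟩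
      obtain ⟨σ, hσ⟩ := hbij.2 (x, u)
      have h1 : a σ = x := congrArg (fun p => p.1) hσ
      have h2 : b σ = u := congrArg (fun p => p.2) hσ
      refine ⟨⟨σ, ?_⟩, ?_⟩
      · show ψ (b σ) = 1
        rw [h2]; exact hu
      · exact Prod.ext h1 (Subtype.ext h2)
  rw [e1, finprod_eq_prod_of_fintype, Fintype.prod_prod_type, finprod_eq_prod_of_fintype,
    hcard, Nat.mul_div_cancel _ (by norm_num), ← Finset.prod_pow]
  refine Finset.prod_congr rfl fun x _ => ?_
  show ∏ _y : ψ.ker, g x = _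
  rw [Finset.prod_const, Finset.card_univ, ← Nat.card_eq_fintype_card]

/-! ### The residue field of `lam` -/

variable {A B : ℤ}

lemma card_quot (hDEG : Sv_DEG1) (h : Case A B) {lam : OO A B} {q : ℕ} (hq : q.Prime)
    (hlam : nm lam = q) : Nat.card (OO A B ⧸ Ideal.span {lam}) = q := by
  obtain ⟨h1, h2, h3⟩ := hDEG A B h lam q hq hlam
  have : NeZero q := ⟨hq.ne_zero⟩
  let f : ℤ →+* (OO A B ⧸ Ideal.span {lam}) := Int.castRingHom _
  have hf : ∀ n : ℤ, f n = cls lam (n : OO A B) := fun n => by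
    simp only [f, eq_intCast, cls, map_intCast]
  have hsurj : Function.Surjective f := by
    intro x
    obtain ⟨n, hn⟩ := h1 (Quotient.out x)
    refine ⟨n, ?_⟩
    rw [hf, ← cls_out x, cls_eq_iff]
    have := dvd_neg.2 hn
    rwa [neg_sub] at this
  have hker : RingHom.ker f = Ideal.span {(q : ℤ)} := by
    ext n
    rw [RingHom.mem_ker, hf, Ideal.mem_span_singleton]
    constructor
    · intro hn
      refine h3 n ?_
      have : cls lam (n : OO A B) = cls lam 0 := by rw [hn]; unfold cls; exact (map_zero _).symm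
      rw [cls_eq_iff, sub_zero] at this
      exact this
    · rintro ⟨c, rfl⟩
      have : cls lam (((q : ℤ) * c : ℤ) : OO A B) = cls lam 0 := by
        rw [cls_eq_iff, sub_zero]
        push_cast
        exact dvd_mul_of_dvd_left h2 _
      rw [this]; unfold cls; exact map_zero _
  rw [← Nat.card_congr (RingHom.quotientKerEquivOfSurjective hsurj).toEquiv, hker,
    Nat.card_congr (Int.quotientSpanNatEquivZMod q).toEquiv, Nat.card_zmod]

lemma card_units (hDEG : Sv_DEG1) (hPID : Sa_PID) (h : Case A B) {lam : OO A B} {q : ℕ}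
    (hq : q.Prime) (hlam : nm lam = q) :
    IsField (OO A B ⧸ Ideal.span {lam}) ∧ Finite (OO A B ⧸ Ideal.span {lam}) ∧
    IsCyclic (OO A B ⧸ Ideal.span {lam})ˣ ∧ Nat.card (OO A B ⧸ Ideal.span {lam})ˣ = q - 1 := by
  obtain ⟨hdom, hpir, -, -, -, -, -, -, -, hpr⟩ := hPID A B h
  have hp : Prime lam := hpr lam (by rw [hlam]; simpa using hq)
  have hmax : (Ideal.span {lam}).IsMaximal :=
    PrincipalIdealRing.isMaximal_of_irreducible hp.irreducible
  have hfin : Finite (OO A B ⧸ Ideal.span {lam}) := by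
    apply Nat.finite_of_card_ne_zero
    rw [card_quot hDEG h hq hlam]
    exact hq.ne_zero
  letI := Ideal.Quotient.field (Ideal.span {lam})
  refine ⟨Field.toIsField _, hfin, inferInstance, ?_⟩
  have := Nat.card_units (OO A B ⧸ Ideal.span {lam})
  rw [this, card_quot hDEG h hq hlam]

/-- a cubic character -/
lemma exists_psi {U : Type*} [Group U] [Finite U] [IsCyclic U] (h3 : 3 ∣ Nat.card U) :
    ∃ ψ : U →* Multiplicative (ZMod 3), Function.Surjective ψ := by
  obtain ⟨g, hg⟩ := IsCyclic.exists_generator (α := U)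
  have hord : orderOf g = Nat.card U := orderOf_eq_card_of_forall_mem_zpowers hg
  have : NeZero (Nat.card U) := ⟨Nat.card_pos.ne'⟩
  let e : U ≃* Multiplicative (ZMod (Nat.card U)) := (zmodCyclicMulEquiv ‹IsCyclic U›).symm
  let c : ZMod (Nat.card U) →+ ZMod 3 := (ZMod.castHom h3 (ZMod 3)).toAddMonoidHom
  refine ⟨(AddMonoidHom.toMultiplicative c).comp e.toMonoidHom, ?_⟩
  intro x
  obtain ⟨y, hy⟩ := ZMod.castHom_surjective h3 (Multiplicative.toAdd x)
  obtain ⟨u, hu⟩ := e.surjective (Multiplicative.ofAdd y)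
  refine ⟨u, ?_⟩
  show Multiplicative.ofAdd (c (Multiplicative.toAdd (e u))) = x
  rw [hu]
  show Multiplicative.ofAdd (c y) = x
  have : c y = Multiplicative.toAdd x := hy
  rw [this]
  rfl

end

end Pool.Agent.MU3V


end

section

/-!
# MU3, block V: (KOL), the input (I2) (helper59)
-/

set_option autoImplicit false

open WeierstrassCurve Polynomial NumberField IsDedekindDomain

namespace Pool.Agent.MU3V

open _root_.MU3 _root_.Pool.Agent.MU3A _root_.Pool.Agent.MU3B _root_.Pool.Agent.MU3C _root_.Pool.Agent.RI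

noncomputable section

variable {A B : ℤ}

/-- arithmetic of `mz` -/
lemma nm_mz (h : Case A B) : nm (mz A B) ≠ 1 := by
  rcases h with ⟨rfl, rfl⟩ | ⟨rfl, rfl⟩
  · simp [mz, nm]
  · have e : mz (-3) 1 = ((4 : ℤ) : OO (-3) 1) := by simp [mz]
    rw [e, nm, QuadraticAlgebra.re_intCast, QuadraticAlgebra.im_intCast]
    norm_num

theorem tw_KOL (hNRM : Sa_NRM) (hACT : Sa_ACT) (hGAL : Sa_GAL) (hPID : Sa_PID) (hINT : Sa_INT)
    (hXI : Sa_XI) (hXXM : Sw_XXM) (hXXG : Sw_XXG) (hFIB : Sw_FIB) (hTHG : Sw_THG)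
    (hDISI : Sw_DISI) (hTIN : St_TIN) (hTNZ : St_TNZ) (hDEG : Sv_DEG1) (hEXT : Sv_EXT)
    (hINJ : Sv_INJ) (hR2 : Sv_R2) (hTHU : Sw_THU) (hTORV : Sw_TORV) (hINV : Sw_INV)
    (hLOC : Sw_LOC) (hHTOT : Sw_HTOT) (hFRD : Sw_FRD) : Sw_KOL := by
  intro A B L Om h hL
  obtain ⟨n1, hn1, hF⟩ := hFRD A B L Om h hL
  refine ⟨2 * n1, mul_ne_zero (by norm_num) hn1, ?_⟩
  intro m hm hmz a H ha hcm hH S hS0 hSa hSm D _ _ hk hD
  letI := algC hk
  intro c hc
  obtain ⟨hdom, hpir, hnn, hnmul, hnm0, -, hunit, hunit', -, hpr⟩ := hPID A B h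
  obtain ⟨ξ, hξ0, -, hξs⟩ := hXI A B L Om h hL
  have hξ : IsXi A B L ξ := ⟨hξs, fun z hz => (hξ0 z).2 hz⟩
  rw [Pool.Agent.MU3.kolIn_iff]
  intro v q hg
  have hq := hg.prime
  have hq0 : ¬ q ∣ 2 * n1 := fun hd => hg.notin (hS0 q hq hd)
  have hqm : ¬ (q : ℤ) ∣ nm m := fun hd => hg.notin (hSm q hq hd)
  have hqa : ¬ (q : ℤ) ∣ a := fun hd => hg.notin (hSa q hq hd)
  obtain ⟨lam, hnm, hXX, hP⟩ := hF m hm D hk hD S v q hg (fun hd => hq0 (hd.mul_left 2)) hqm
  have hmu : ¬ IsUnit m := by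
    intro hu
    have h1 : IsUnit (mz A B) := isUnit_of_dvd_unit hmz hu
    exact nm_mz h ((hunit' _).1 h1)
  have hlam : lam ≠ 0 := by
    rintro rfl
    rw [(hnm0 0).2 rfl] at hnm
    exact hq.ne_zero (by exact_mod_cast hnm.symm)
  have hprl : Prime lam := hpr lam (by rw [hnm]; simpa using hq)
  have hul : ¬ IsUnit lam := hprl.not_isUnit
  have hcopl : ∀ x : OO A B, ¬ lam ∣ x → IsCoprime x lam := fun x hx =>
    ((Irreducible.coprime_iff_not_dvd hprl.irreducible).2 hx).symm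
  have hnmdvd : ∀ x y : OO A B, x ∣ y → nm x ∣ nm y := by
    rintro x y ⟨z, rfl⟩
    exact ⟨nm z, hnmul x z⟩
  have hcop : IsCoprime m lam := by
    apply hcopl
    intro hd
    apply hqm
    rw [← hnm]
    exact hnmdvd _ _ hd
  have hcl : IsCoprime (a : OO A B) lam := by
    apply hcopl
    intro hd
    exact hqa ((hDEG A B h lam q hq hnm).2.2 a hd)
  obtain ⟨hfld, hfin, hcyc, hcardU⟩ := card_units hDEG hPID h hq hnm
  obtain ⟨ψ, hψ⟩ := exists_psi (U := (OO A B ⧸ Ideal.span {lam})ˣ) (by rw [hcardU]; exact hg.three)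
  have hN : m * lam ≠ 0 := mul_ne_zero hm hlam
  obtain ⟨hfdM, hgalM⟩ := hNRM A B L Om h hL (m * lam) hN
  have hkN : NumberField (kk A B) := ⟨⟩
  have hMQ : FiniteDimensional ℚ (TF L (m * lam)) :=
    Pool.Agent.FX.ftrans ℚ (kk A B) (TF L (m * lam))
  have hMN : NumberField (TF L (m * lam)) := ⟨⟩
  have hcomm := (hACT A B L Om h hL (m * lam) hN).2.2.2.2.2.1
  obtain ⟨ρ, hρi, hρ⟩ := rho_exists hACT hGAL h hL hN
  have hle : TF L m ≤ TF L (m * lam) := Fib.TF_mono h hL (dvd_mul_right m lam)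
  have hs : Sub D (TF L (m * lam)) := fun x hx => hle (hD x hx)
  letI := algDF hs
  haveI := towDF hk hs
  obtain ⟨α, hα, hbij⟩ := bij h hL hm hlam hmz hcop hk hD hs hρi hρ hXXM hFIB
  -- the values
  have hz1 : emb (1 : OO A B) * (Om / emb m) + emb (1 : OO A B) * (Om / emb lam) ∉ L.lattice := by
    have := z0_notMem h hL hm hlam hcop hul 1
    rwa [show Om / emb lam = emb (1 : OO A B) * (Om / emb lam) by rw [emb_one h, one_mul]] at this
  have hz0 : emb (1 : OO A B) * (Om / emb m) + emb (0 : OO A B) * (Om / emb lam) ∉ L.lattice := by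
    rw [emb_zero h, zero_mul, add_zero]
    exact u_notMem h hL hm hmu isCoprime_one_left
  obtain ⟨hθ, -⟩ := hTHG A B L Om h hL (m * lam) hN a H ha hH _ (z0_tors h hL hm hlam 1 1) hz1
  obtain ⟨hθ0, -⟩ := hTHG A B L Om h hL (m * lam) hN a H ha hH _ (z0_tors h hL hm hlam 1 0) hz0
  have hsig : ∀ σ : TF L (m * lam) ≃ₐ[D] TF L (m * lam),
      ((σ ⟨_, hθ⟩ : TF L (m * lam)) : ℂ) =
        ThetaH L H (emb (Quotient.out (α σ : OO A B ⧸ Ideal.span {m})) * (Om / emb m) +
          emb (Quotient.out ((bHom hk hs ρ σ : (OO A B ⧸ Ideal.span {lam})ˣ) :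
            OO A B ⧸ Ideal.span {lam})) * (Om / emb lam)) := by
    intro σ
    have h1 := theta_sigma h hL hm hlam hH hTHG hTIN ha 1 1 hz1 hρ (rsHom hk hs σ) hθ
    rw [one_mul, one_mul] at h1
    rw [hα σ]
    exact h1
  have hsig0 : ∀ σ : TF L (m * lam) ≃ₐ[D] TF L (m * lam),
      ((σ ⟨_, hθ0⟩ : TF L (m * lam)) : ℂ) =
        ThetaH L H (emb (Quotient.out (α σ : OO A B ⧸ Ideal.span {m})) * (Om / emb m)) := by
    intro σ
    have h1 := theta_sigma h hL hm hlam hH hTHG hTIN ha 1 0 hz0 hρ (rsHom hk hs σ) hθ0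
    refine h1.trans ?_
    rw [one_mul, zero_mul, emb_zero h, zero_mul, add_zero, hα σ]
    rfl
  have hyc : ∀ y ∈ XX L m hk (1 : D ≃ₐ[kk A B] D), IsCoprime (Quotient.out y) m := by
    intro y hy
    have h1 : cls m (Quotient.out y) ∈ XX L m hk (1 : D ≃ₐ[kk A B] D) := by rwa [cls_out]
    obtain ⟨σ, hσ, -⟩ := (hXXM A B L Om h hL m hm D hk _ _).1 h1
    exact hσ.1
  have hXfin : Finite (XX L m hk (1 : D ≃ₐ[kk A B] D)) := by
    have : Finite (TF L (m * lam) ≃ₐ[D] TF L (m * lam)) :=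
      Finite.of_injective _ (rsHom_inj hk hs)
    refine Finite.of_surjective α fun y => ?_
    obtain ⟨σ, hσ⟩ := hbij.2 (y, 1)
    exact ⟨σ, congrArg Prod.fst hσ⟩
  have hUfin : Finite (OO A B ⧸ Ideal.span {lam})ˣ := inferInstance
  -- valuations
  have hVQ : ∀ w : HeightOneSpectrum (𝓞 (TF L (m * lam))), ∃ V : ValuationSubring ℂ,
      ∀ x : TF L (m * lam), ((algebraMap _ ℂ x) ∈ V ↔ w.valuation _ x ≤ 1) ∧
      (V.valuation (algebraMap _ ℂ x) < 1 ↔ w.valuation _ x < 1) ∧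
      (V.valuation (algebraMap _ ℂ x) = 1 ↔ w.valuation _ x = 1) := fun w =>
    hEXT (TF L (m * lam)) (algebraMap (TF L (m * lam)) ℂ) w
  have hnm0' : nm m ≠ 0 := fun h0 => hm ((hnm0 m).1 h0)
  -- `lam` as an element of the ring of integers of `M`
  obtain ⟨ℓ, hℓ⟩ : ∃ ℓ : 𝓞 (kk A B), ((ℓ : kk A B) : ℂ) = emb lam :=
    ⟨PRL.phi hINT h lam, PRL.phi_val hINT h lam⟩
  have hℓM : ((algebraMap (𝓞 (kk A B)) (𝓞 (TF L (m * lam))) ℓ : TF L (m * lam)) : ℂ) = emb lam := by
    rw [← hℓ]; rfl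
  have hℓv : ℓ ∈ v.asIdeal.under (𝓞 (kk A B)) := (hP ℓ lam hℓ).2 dvd_rfl
  have habv : ∀ w : HeightOneSpectrum (𝓞 (TF L (m * lam))),
      w.asIdeal.under (𝓞 (kk A B)) = v.asIdeal.under (𝓞 (kk A B)) → Abv w.asIdeal lam := by
    intro w hw
    rw [← hw] at hℓv
    exact ⟨_, hℓv, hℓM⟩
  have hvl : ∀ (w : HeightOneSpectrum (𝓞 (TF L (m * lam)))) (V : ValuationSubring ℂ),
      (∀ x : TF L (m * lam), ((algebraMap _ ℂ x) ∈ V ↔ w.valuation _ x ≤ 1) ∧
      (V.valuation (algebraMap _ ℂ x) < 1 ↔ w.valuation _ x < 1) ∧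
      (V.valuation (algebraMap _ ℂ x) = 1 ↔ w.valuation _ x = 1)) →
      w.asIdeal.under (𝓞 (kk A B)) = v.asIdeal.under (𝓞 (kk A B)) →
      V.valuation (emb lam) < 1 := by
    intro w V hV hw
    obtain ⟨y, hy, hyl⟩ := habv w hw
    rw [← hyl]
    exact ((hV _).2.1).2 ((HeightOneSpectrum.valuation_lt_one_iff_mem w y).2 hy)
  have hvq : ∀ V : ValuationSubring ℂ, V.valuation (emb lam) < 1 → V.valuation (q : ℂ) < 1 := by
    intro V hV
    have h1 := congrArg emb (FROB.mul_conj lam)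
    rw [emb_mul h, emb_intCast h, hnm, Int.cast_natCast] at h1
    rw [← h1, map_mul]
    exact mul_lt_one_of_lt_of_le hV (v_emb_le h V _)
  have hint : ∀ V : ValuationSubring ℂ, V.valuation (emb lam) < 1 → ∀ s : ℤ, ¬ (q : ℤ) ∣ s →
      V.valuation (s : ℂ) = 1 := fun V hV s hs => FROB.v_int_eq_one hq (hvq V hV) hs
  have hq2 : ¬ (q : ℤ) ∣ 2 := by
    intro hd
    exact hq0 ((Int.natCast_dvd_natCast.1 (by exact_mod_cast hd)).mul_right n1)
  have hval2 : ∀ (w : HeightOneSpectrum (𝓞 (TF L (m * lam)))) (V : ValuationSubring ℂ),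
      (∀ x : TF L (m * lam), ((algebraMap _ ℂ x) ∈ V ↔ w.valuation _ x ≤ 1) ∧
      (V.valuation (algebraMap _ ℂ x) < 1 ↔ w.valuation _ x < 1) ∧
      (V.valuation (algebraMap _ ℂ x) = 1 ↔ w.valuation _ x = 1)) → ∀ s : ℤ,
      V.valuation (s : ℂ) = 1 → (s : 𝓞 (TF L (m * lam))) ∉ w.asIdeal := by
    intro w V hV s hs hsw
    have h1 := (HeightOneSpectrum.valuation_lt_one_iff_mem (K := TF L (m * lam)) w
      (s : 𝓞 (TF L (m * lam)))).2 hsw
    have h2 := ((hV _).2.1).2 h1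
    have e : algebraMap (TF L (m * lam)) ℂ (algebraMap (𝓞 (TF L (m * lam))) (TF L (m * lam))
        (s : 𝓞 (TF L (m * lam)))) = (s : ℂ) := by simp
    rw [e, hs] at h2
    exact lt_irrefl _ h2
  refine Pool.Agent.MU3.I2ABS_thm (kk A B) D (TF L (m * lam)) hcomm S c v q hg
    (aHom hk hs ρ).ker (ψ.comp (bHom hk hs ρ)) ?_ ?_ ?_ ⟨_, hθ⟩ ⟨_, hθ0⟩ ?_ ?_ ?_ ?_
  · -- the character is not trivial on `A`
    obtain ⟨r, hr⟩ := hψ (Multiplicative.ofAdd 1)
    have h1 : cls m 1 ∈ XX L m hk (1 : D ≃ₐ[kk A B] D) := by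
      rw [hXXM A B L Om h hL m hm D hk]
      exact ⟨1, (hACT A B L Om h hL m hm).2.2.2.2.2.2.1 _ le_rfl, fun y hy => rfl⟩
    obtain ⟨σ, hσ⟩ := hbij.2 (⟨_, h1⟩, r)
    have e1 : (α σ : OO A B ⧸ Ideal.span {m}) = cls m 1 :=
      congrArg (fun p => (p.1 : OO A B ⧸ Ideal.span {m})) hσ
    have e2 : bHom hk hs ρ σ = r := congrArg Prod.snd hσ
    refine ⟨σ, ?_, ?_⟩
    · rw [MonoidHom.mem_ker]
      apply Units.ext
      rw [← hα σ, e1, cls_one, Units.val_one]
    · show ψ (bHom hk hs ρ σ) ≠ 1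
      rw [e2, hr]
      decide
  · -- unramified
    intro w hwS hwk σ hσ
    obtain ⟨V, hV⟩ := hVQ w
    have v2 : V.valuation (2 : ℂ) = 1 := by
      have := val_int_S hV hwS (n := 2) (by norm_num) (fun p hp hpd => by
        refine hS0 p hp ((?_ : p ∣ 2).mul_right n1)
        exact_mod_cast hpd)
      simpa using this
    have vm : V.valuation ((nm m : ℤ) : ℂ) = 1 := val_int_S hV hwS hnm0' hSm
    have vl : V.valuation (emb lam) = 1 := by
      refine le_antisymm (v_emb_le h V lam) (not_lt.1 fun hlt => hwk ?_)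
      have hℓw : ℓ ∈ w.asIdeal.under (𝓞 (kk A B)) := by
        show algebraMap (𝓞 (kk A B)) (𝓞 (TF L (m * lam))) ℓ ∈ w.asIdeal
        rw [← HeightOneSpectrum.valuation_lt_one_iff_mem (K := TF L (m * lam)) w]
        apply ((hV _).2.1).1
        have : algebraMap (TF L (m * lam)) ℂ (algebraMap (𝓞 (TF L (m * lam))) (TF L (m * lam))
          (algebraMap (𝓞 (kk A B)) (𝓞 (TF L (m * lam))) ℓ)) = emb lam := hℓM
        rw [this]
        exact hlt
      have hsub : v.asIdeal.under (𝓞 (kk A B)) ≤ w.asIdeal.under (𝓞 (kk A B)) := by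
        intro x hx
        obtain ⟨y, hy⟩ := PRL.phi_surj hINT h x
        have h1 := (hP x y (by rw [← hy]; exact PRL.phi_val hINT h y)).1 hx
        obtain ⟨z, hz⟩ := h1
        have h2 : x = ℓ * PRL.phi hINT h z := by
          rw [← hy, hz, map_mul]
          congr 1
          apply PRL.ext'
          rw [PRL.phi_val, hℓ]
        rw [h2]
        exact Ideal.mul_mem_right _ _ hℓw
      have hmax : (v.asIdeal.under (𝓞 (kk A B))).IsMaximal := by
        have hp : (v.asIdeal.under (𝓞 (kk A B))).IsPrime := Ideal.IsPrime.under _ _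
        exact hp.isMaximal (v.under (𝓞 (kk A B))).ne_bot
      have hne : w.asIdeal.under (𝓞 (kk A B)) ≠ ⊤ := by
        have hp : (w.asIdeal.under (𝓞 (kk A B))).IsPrime := Ideal.IsPrime.under _ _
        exact hp.ne_top
      exact (hmax.eq_of_le hne hsub).symm
    have h1 := hINV A B L Om ξ h hL hξ V v2 (m * lam) hN
      (fun z hz hE => torsN h hL hξ v2 vm hINJ hPID hq hnm vl z hz hE) (TF L (m * lam)) le_rfl
      (rsHom hk hs σ) (fun x hx => by
        rw [ValuationSubring.mem_nonunits_iff]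
        have h2 := hLOC A B (TF L (m * lam)) w V (fun y => ⟨(hV y).1, (hV y).2.1⟩)
          (rsHom hk hs σ) 1 one_pos (fun y => ⟨_, hσ y, by rw [pow_one]; rfl⟩) x hx
        rwa [pow_one] at h2)
    rw [hρ] at h1
    have h2 : ρ (rsHom hk hs σ) = 1 := by
      apply Units.ext
      rw [h1, cls_one, Units.val_one]
    have h3 : rsHom hk hs σ = 1 := hρi (by rw [h2, map_one])
    exact rsHom_inj hk hs (by rw [h3, map_one])
  · -- totally ramified
    intro w hw σ hσ x
    obtain ⟨V, hV⟩ := hVQ w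
    have hlt := hvl w V hV hw
    have a1 : Act L (_root_.Pool.Agent.MU3A.em (rsHom hk hs σ)) m 1 := by
      obtain ⟨x0, hx0⟩ : ∃ x0, ((ρ (rsHom hk hs σ) : (OO A B ⧸ Ideal.span {m * lam})ˣ) :
        OO A B ⧸ Ideal.span {m * lam}) = cls (m * lam) x0 := ⟨_, (cls_out _).symm⟩
      have h1 : Act L (_root_.Pool.Agent.MU3A.em (rsHom hk hs σ)) (m * lam) x0 := (hρ _ _).2 hx0
      have h2 : Act L (_root_.Pool.Agent.MU3A.em (rsHom hk hs σ)) m x0 :=
        (hACT A B L Om h hL (m * lam) hN).2.2.1 _ _ _ _ (dvd_mul_right m lam) h1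
      have h3 : ((aHom hk hs ρ σ : (OO A B ⧸ Ideal.span {m})ˣ) : OO A B ⧸ Ideal.span {m}) = 1 := by
        rw [(MonoidHom.mem_ker).1 hσ, Units.val_one]
      have h4 : ((aHom hk hs ρ σ : (OO A B ⧸ Ideal.span {m})ˣ) : OO A B ⧸ Ideal.span {m}) =
          rd (dvd_mul_right m lam) (cls (m * lam) x0) := by
        rw [← hx0]; rfl
      rw [h3, rd_cls, ← cls_one m] at h4
      exact (hACT A B L Om h hL m hm).2.1 _ _ _ _ (cls_eq_iff.1 h4.symm) h2
    obtain ⟨y, hy, hyx⟩ := hHTOT A B L Om h hL m hm lam q hq hnm w.asIdeal w.isPrime (habv w hw)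
      (by
        have := hval2 w V hV 2 (hint V hlt 2 hq2)
        exact_mod_cast this)
      (hval2 w V hV (nm m) (hint V hlt _ hqm)) (rsHom hk hs σ) a1 x
    have : σ • x - x = y := by
      apply RingOfIntegers.ext
      rw [hyx]; rfl
    rw [this]
    exact hy
  · -- unit outside `S`
    intro w hwS
    obtain ⟨V, hV⟩ := hVQ w
    have v2 : V.valuation (2 : ℂ) = 1 := by
      have := val_int_S hV hwS (n := 2) (by norm_num) (fun p hp hpd => by
        refine hS0 p hp ((?_ : p ∣ 2).mul_right n1)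
        exact_mod_cast hpd)
      simpa using this
    have vm : V.valuation ((nm m : ℤ) : ℂ) = 1 := val_int_S hV hwS hnm0' hSm
    have va : V.valuation (a : ℂ) = 1 := val_int_S hV hwS ha hSa
    apply ((hV _).2.2).1
    exact theta_unit h hL hξ v2 hm hlam hcop hul hmu vm hH hTHU hTORV hINJ hR2 hPID hq hnm va hcm
  · -- the congruence
    intro w hw σ
    obtain ⟨V, hV⟩ := hVQ w
    have hlt := hvl w V hV hw
    have v2 : V.valuation (2 : ℂ) = 1 := by simpa using hint V hlt 2 hq2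
    have vm : V.valuation ((nm m : ℤ) : ℂ) = 1 := hint V hlt _ hqm
    have va : V.valuation (a : ℂ) = 1 := hint V hlt _ hqa
    obtain ⟨k1, k2⟩ := theta_cong_lam h hL hξ v2 hm hlam hmu vm hH hTHU hTORV hR2 hq hnm va hlt
      (y := Quotient.out (α σ : OO A B ⧸ Ideal.span {m}))
      (r := Quotient.out ((bHom hk hs ρ σ : (OO A B ⧸ Ideal.span {lam})ˣ) :
            OO A B ⧸ Ideal.span {lam})) (hyc _ (α σ).2)
    constructor
    · apply ((hV _).1).1
      rw [← ValuationSubring.valuation_le_one_iff]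
      have e : algebraMap (TF L (m * lam)) ℂ (σ ⟨_, hθ0⟩) = _ := hsig0 σ
      rw [e]
      exact k1
    · apply ((hV _).2.1).1
      rw [map_sub]
      have e : algebraMap (TF L (m * lam)) ℂ (σ ⟨_, hθ0⟩) = _ := hsig0 σ
      have e' : algebraMap (TF L (m * lam)) ℂ (σ ⟨_, hθ⟩) = _ := hsig σ
      rw [e, e']
      exact k2
  · -- the norm
    obtain ⟨C, hC, -, hCe⟩ := norm_k h hL hm hlam hcop hul hH hk hD hXXM hXXG hDISI hTIN hTNZ ha hcl
      hcm hmu hfld hXX
    refine ⟨⟨C, hC⟩, ?_⟩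
    have : Finite (TF L (m * lam) ≃ₐ[D] TF L (m * lam)) :=
      Finite.of_injective _ (rsHom_inj hk hs)
    have : Fintype (TF L (m * lam) ≃ₐ[D] TF L (m * lam)) := Fintype.ofFinite _
    apply (algebraMap (TF L (m * lam)) ℂ).injective
    have e1 := prod_all_abs (fun σ => α σ) (fun σ => bHom hk hs ρ σ) hbij
      (fun (y : XX L m hk (1 : D ≃ₐ[kk A B] D)) (r : (OO A B ⧸ Ideal.span {lam})ˣ) =>
        ThetaH L H (emb (Quotient.out (y : OO A B ⧸ Ideal.span {m})) * (Om / emb m) +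
          emb (Quotient.out (r : OO A B ⧸ Ideal.span {lam})) * (Om / emb lam)))
    rw [hCe, finprod_eq_prod_of_fintype] at e1
    rw [finprod_eq_prod_of_fintype, map_prod]
    refine (Finset.prod_congr rfl fun σ _ => ?_).trans e1
    exact hsig σ
  · -- the product over the kernel
    have : Finite (TF L (m * lam) ≃ₐ[D] TF L (m * lam)) :=
      Finite.of_injective _ (rsHom_inj hk hs)
    have : Fintype (ψ.comp (bHom hk hs ρ)).ker := Fintype.ofFinite _
    apply (algebraMap (TF L (m * lam)) ℂ).injective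
    have e1 := prod_ker_abs (fun σ => α σ) (bHom hk hs ρ) hbij ψ hψ
      (fun (y : XX L m hk (1 : D ≃ₐ[kk A B] D)) =>
        ThetaH L H (emb (Quotient.out (y : OO A B ⧸ Ideal.span {m})) * (Om / emb m)))
    have e2 : (∏ᶠ y : XX L m hk (1 : D ≃ₐ[kk A B] D),
        ThetaH L H (emb (Quotient.out (y : OO A B ⧸ Ideal.span {m})) * (Om / emb m))) = (c : ℂ) := by
      rw [hc]
      exact finprod_set_coe_eq_finprod_mem (f := fun x : OO A B ⧸ Ideal.span {m} =>
        ThetaH L H (emb (Quotient.out x) * (Om / emb m))) (XX L m hk (1 : D ≃ₐ[kk A B] D))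
    rw [e2, hcardU, finprod_eq_prod_of_fintype] at e1
    rw [finprod_eq_prod_of_fintype, map_prod, map_pow]
    refine (Finset.prod_congr rfl fun σ _ => ?_).trans e1
    exact hsig0 σ

end

end Pool.Agent.MU3V


end
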