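import Mathlib
import Pool.Agent.MVF.C071

/-! Parts: NS.I_EPS, MU3.V_R5, MU3.V_POL -/

namespace Pool.Agent.MU3V.POL
end Pool.Agent.MU3V.POL
namespace Pool.Agent.MU3V.R5
end Pool.Agent.MU3V.R5
namespace Pool.Agent.NSI.EPS
end Pool.Agent.NSI.EPS

section

/-!
# MUX-NS, block IN: module EPS, the odd character, the sign `s` and the type `i`

`(O/3)^*` is cyclic of order 8, generated by the class of `gy = 1 + δ`, `δ = 2 w - B`, `δ² = B² + 4 A ≡ -1` modulo `3`.
`Y ≡ gy` modulo `3`, `Y ≡ 1` modulo `f`: `w Y` is a primitive 8th root of unity and `e0 Y = (w Y)^j`, so `e0 x = (w x)^j` for all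
`x ≡ 1` modulo `f`, `x` prime to `3`. Moreover `w3 (nm x) = (w x)^4` for `x` prime to `3`.
-/

set_option autoImplicit false

namespace Pool.Agent.NSI

open _root_.MU3 _root_.Pool.Agent.MU3 _root_.Pool.Agent.MU3A _root_.Pool.Agent.MU3B _root_.Pool.Agent.RI _root_.Pool.Agent.RID
  _root_.Pool.Agent.MUX _root_.Pool.Agent.MUXK _root_.Pool.Agent.MUXI _root_.Pool.Agent.NS
open _root_.Pool.Agent.MU3I (w3 zt)

noncomputable section

namespace EPS

variable {A B : ℤ}

lemma w3_mul (a b : ℤ) : w3 (a * b) = w3 a * w3 b := by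
  have ha : a % 3 = 0 ∨ a % 3 = 1 ∨ a % 3 = 2 := by omega
  have hb : b % 3 = 0 ∨ b % 3 = 1 ∨ b % 3 = 2 := by omega
  unfold w3
  rcases ha with ha | ha | ha <;> rcases hb with hb | hb | hb <;>
    simp [Int.mul_emod, ha, hb]

lemma w3_ne (a : ℤ) : w3 a ≠ 0 ↔ ¬ (3 : ℤ) ∣ a := by
  have ha : a % 3 = 0 ∨ a % 3 = 1 ∨ a % 3 = 2 := by omega
  unfold w3
  rcases ha with ha | ha | ha
  · simp [ha]
    omega
  · simp [ha]
    omega
  · simp [ha]
    omega

lemma w3_sq {a : ℤ} (h : ¬ (3 : ℤ) ∣ a) : w3 a ^ 2 = 1 := by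
  have ha : a % 3 = 1 ∨ a % 3 = 2 := by omega
  unfold w3
  rcases ha with ha | ha <;> simp [ha]

lemma w3_congr {a b : ℤ} (h : (3 : ℤ) ∣ a - b) : w3 a = w3 b := by
  have e : a % 3 = b % 3 := by omega
  unfold w3
  rw [e]

lemma w3_pow (a : ℤ) (k : ℕ) : w3 (a ^ k) = w3 a ^ k := by
  induction k with
  | zero => simp [w3]
  | succ k ih => rw [pow_succ, w3_mul, ih, pow_succ]

lemma mem_idl {m : ℕ} {x : OO A B} : x ∈ idl (A := A) (B := B) m ↔ ((m : ℕ) : OO A B) ∣ x :=
  Ideal.mem_span_singleton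

/-- the elements of `idl 3` -/
lemma mem3 {x : OO A B} : x ∈ idl (A := A) (B := B) 3 ↔ (3 : ℤ) ∣ x.re ∧ (3 : ℤ) ∣ x.im := by
  have e3 : ((3 : ℕ) : OO A B) = ⟨3, 0⟩ := by
    ext
    · exact QuadraticAlgebra.re_natCast 3
    · exact QuadraticAlgebra.im_natCast 3
  rw [mem_idl, e3]
  constructor
  · rintro ⟨y, rfl⟩
    refine ⟨⟨y.re, by simp⟩, ⟨y.im, by simp⟩⟩
  · rintro ⟨⟨c, hc⟩, ⟨d, hd⟩⟩
    refine ⟨⟨c, d⟩, ?_⟩
    ext
    · simp [hc]
    · simp [hd]

/-- the norm modulo 3 -/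
lemma nm_congr {x y : OO A B} (h : x - y ∈ idl (A := A) (B := B) 3) :
    (3 : ℤ) ∣ nm x - nm y := by
  obtain ⟨⟨a, ha⟩, ⟨b, hb⟩⟩ := mem3.1 h
  rw [QuadraticAlgebra.re_sub] at ha
  rw [QuadraticAlgebra.im_sub] at hb
  have ha' : x.re = y.re + 3 * a := by omega
  have hb' : x.im = y.im + 3 * b := by omega
  refine ⟨2 * a * y.re + 3 * a ^ 2 + B * (a * y.im + b * y.re + 3 * a * b) -
    A * (2 * b * y.im + 3 * b ^ 2), ?_⟩
  unfold nm
  rw [ha', hb']
  ring

/-- `δ = 2 w - B` -/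
def dl (A B : ℤ) : OO A B := ⟨-B, 2⟩

/-- the generator of `(O/3)^*` -/
def gy (A B : ℤ) : OO A B := 1 + dl A B

lemma dl_sq : dl A B ^ 2 = ((B ^ 2 + 4 * A : ℤ) : OO A B) := by
  ext
  · rw [QuadraticAlgebra.re_intCast, pow_two, QuadraticAlgebra.re_mul]
    simp only [dl, Int.cast_id]
    ring
  · rw [QuadraticAlgebra.im_intCast, pow_two, QuadraticAlgebra.im_mul]
    simp only [dl]
    ring

/-- the class ring modulo 3 -/
lemma q3 (t : ℤ) (ht : B ^ 2 + 4 * A + 1 = 3 * t) :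
    (3 : OO A B ⧸ idl (A := A) (B := B) 3) = 0 ∧
      (Ideal.Quotient.mk (idl (A := A) (B := B) 3) (dl A B)) ^ 2 = -1 := by
  have h3 : (3 : OO A B ⧸ idl (A := A) (B := B) 3) = 0 := by
    have h : Ideal.Quotient.mk (idl (A := A) (B := B) 3) ((3 : ℕ) : OO A B) = 0 :=
      Ideal.Quotient.eq_zero_iff_mem.2 (Ideal.mem_span_singleton_self _)
    rw [map_natCast] at h
    exact_mod_cast h
  refine ⟨h3, ?_⟩
  have h := congrArg (Ideal.Quotient.mk (idl (A := A) (B := B) 3)) (dl_sq (A := A) (B := B))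
  have e : B ^ 2 + 4 * A = 3 * t - 1 := by omega
  rw [e, map_pow, map_intCast] at h
  push_cast at h
  rw [h, h3]
  ring

/-- every class prime to 3 is a power of the class of `gy` -/
lemma rep {t : ℤ} (ht : B ^ 2 + 4 * A + 1 = 3 * t) {x : OO A B}
    (hx : x ∉ idl (A := A) (B := B) 3) :
    ∃ k : ℕ, x - gy A B ^ k ∈ idl (A := A) (B := B) 3 := by
  obtain ⟨h3, hD⟩ := q3 t ht
  have hg : Ideal.Quotient.mk (idl (A := A) (B := B) 3) (gy A B) =
      1 + Ideal.Quotient.mk (idl (A := A) (B := B) 3) (dl A B) := by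
    rw [gy, map_add, map_one]
  -- `x ≡ c + d δ`
  have hcd : x - (((x.re + 2 * x.im * B) % 3 : ℤ) + ((2 * x.im) % 3 : ℤ) * dl A B) ∈
      idl (A := A) (B := B) 3 := by
    rw [mem3]
    have e1 : (x - ((((x.re + 2 * x.im * B) % 3 : ℤ) : OO A B) +
        (((2 * x.im) % 3 : ℤ) : OO A B) * dl A B)).re =
        x.re - ((x.re + 2 * x.im * B) % 3 - ((2 * x.im) % 3) * B) := by
      simp [dl]
      ring
    have e2 : (x - ((((x.re + 2 * x.im * B) % 3 : ℤ) : OO A B) +
        (((2 * x.im) % 3 : ℤ) : OO A B) * dl A B)).im = x.im - ((2 * x.im) % 3) * 2 := by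
      simp [dl]
    rw [e1, e2]
    have m1 := Int.emod_add_mul_ediv (x.re + 2 * x.im * B) 3
    have m2 := Int.emod_add_mul_ediv (2 * x.im) 3
    refine ⟨⟨(x.re + 2 * x.im * B) / 3 - (2 * x.im) / 3 * B, ?_⟩, ?_⟩
    · linear_combination -m1 + B * m2
    · omega
  have hcdq := Ideal.Quotient.eq.2 hcd
  rw [map_add, map_mul, map_intCast, map_intCast] at hcdq
  have hc := Int.emod_nonneg (x.re + 2 * x.im * B) (show (3 : ℤ) ≠ 0 by norm_num)
  have hc' := Int.emod_lt_of_pos (x.re + 2 * x.im * B) (show (0 : ℤ) < 3 by norm_num)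
  have hd := Int.emod_nonneg (2 * x.im) (show (3 : ℤ) ≠ 0 by norm_num)
  have hd' := Int.emod_lt_of_pos (2 * x.im) (show (0 : ℤ) < 3 by norm_num)
  generalize (x.re + 2 * x.im * B) % 3 = c at hcdq hc hc'
  generalize (2 * x.im) % 3 = d at hcdq hd hd'
  have hne : ¬ (c = 0 ∧ d = 0) := by
    rintro ⟨rfl, rfl⟩
    apply hx
    rw [← Ideal.Quotient.eq_zero_iff_mem, hcdq]
    simp
  have key : ∀ k : ℕ, ((c : OO A B ⧸ idl (A := A) (B := B) 3) +
      (d : OO A B ⧸ idl (A := A) (B := B) 3) *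
        Ideal.Quotient.mk (idl (A := A) (B := B) 3) (dl A B)) =
      (1 + Ideal.Quotient.mk (idl (A := A) (B := B) 3) (dl A B)) ^ k →
      ∃ k : ℕ, x - gy A B ^ k ∈ idl (A := A) (B := B) 3 := by
    intro k hk
    refine ⟨k, Ideal.Quotient.eq.1 ?_⟩
    rw [map_pow, hg, hcdq, hk]
  generalize Ideal.Quotient.mk (idl (A := A) (B := B) 3) (dl A B) = D at *
  have c3 : c = 0 ∨ c = 1 ∨ c = 2 := by omega
  have d3 : d = 0 ∨ d = 1 ∨ d = 2 := by omega
  rcases c3 with rfl | rfl | rfl <;> rcases d3 with rfl | rfl | rfl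
  · exact absurd ⟨rfl, rfl⟩ hne
  · apply key 6
    push_cast
    linear_combination -(1 + 14 * D + 14 * D ^ 2 + 6 * D ^ 3 + D ^ 4) * hD + 3 * D * h3
  · apply key 2
    push_cast
    linear_combination -hD
  · apply key 0
    push_cast
    ring
  · apply key 1
    push_cast
    ring
  · apply key 3
    push_cast
    linear_combination -(3 + D) * hD + h3
  · apply key 4
    push_cast
    linear_combination -(5 + 4 * D + D ^ 2) * hD + 2 * h3
  · apply key 7
    push_cast
    linear_combination -(-7 + 15 * D + 28 * D ^ 2 + 20 * D ^ 3 + 7 * D ^ 4 + D ^ 5) * hD +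
      (-2 + 3 * D) * h3
  · apply key 5
    push_cast
    linear_combination -(5 + 9 * D + 5 * D ^ 2 + D ^ 3) * hD + (2 + 2 * D) * h3

/-- `gy^4 ≡ -1` -/
lemma gy4 {t : ℤ} (ht : B ^ 2 + 4 * A + 1 = 3 * t) :
    gy A B ^ 4 + 1 ∈ idl (A := A) (B := B) 3 := by
  obtain ⟨h3, hD⟩ := q3 t ht
  rw [← Ideal.Quotient.eq_zero_iff_mem, map_add, map_pow, gy, map_add, map_one]
  linear_combination (5 + 4 * Ideal.Quotient.mk (idl (A := A) (B := B) 3) (dl A B) +
    Ideal.Quotient.mk (idl (A := A) (B := B) 3) (dl A B) ^ 2) * hD - h3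

lemma nm_gy : nm (gy A B) = 1 - (B ^ 2 + 4 * A) := by
  have e1 : (gy A B).re = 1 - B := by
    rw [gy, QuadraticAlgebra.re_add, QuadraticAlgebra.re_one, dl]
    ring
  have e2 : (gy A B).im = 2 := by
    rw [gy, QuadraticAlgebra.im_add, QuadraticAlgebra.im_one, dl]
    ring
  unfold nm
  rw [e1, e2]
  ring

lemma nm_one : nm (1 : OO A B) = 1 := by
  rw [nm, QuadraticAlgebra.re_one, QuadraticAlgebra.im_one]
  ring

lemma nm_neg_one : nm (-1 : OO A B) = 1 := by
  rw [nm, QuadraticAlgebra.re_neg, QuadraticAlgebra.im_neg, QuadraticAlgebra.re_one,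
    QuadraticAlgebra.im_one]
  ring

lemma nm_pow (hc : CQ A B) (x : OO A B) (k : ℕ) : nm (x ^ k) = nm x ^ k := by
  induction k with
  | zero => rw [pow_zero, pow_zero, nm_one]
  | succ k ih => rw [pow_succ, nm_mul hc, ih, pow_succ]

lemma mul_pow' {e : OO A B → ℂ} (h1 : e 1 = 1) (hm : ∀ x y, e (x * y) = e x * e y) (x : OO A B)
    (k : ℕ) : e (x ^ k) = e x ^ k := by
  induction k with
  | zero => rw [pow_zero, pow_zero, h1]
  | succ k ih => rw [pow_succ, hm, ih, pow_succ]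

lemma one_notMem3 : (1 : OO A B) ∉ idl (A := A) (B := B) 3 := by
  intro h
  have := (mem3.1 h).1
  rw [QuadraticAlgebra.re_one] at this
  omega

/-- prime to `3 f` implies not in `idl 3` -/
lemma notMem_of_cop {x : OO A B} {n : ℕ} (h3 : 3 ∣ n) (h : IsCoprime x ((n : ℕ) : OO A B)) :
    x ∉ idl (A := A) (B := B) 3 := by
  intro hx
  obtain ⟨a, b, hab⟩ := h
  apply one_notMem3 (A := A) (B := B)
  rw [← hab]
  obtain ⟨m, rfl⟩ := h3
  refine Ideal.add_mem _ (Ideal.mul_mem_left _ _ hx) (Ideal.mul_mem_left _ _ ?_)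
  rw [mem_idl]
  exact ⟨m, by push_cast; ring⟩

end EPS

open _root_.Pool.Agent.NSI.EPS

theorem tn_EPS : Sn_EPS := by
  intro A B V f hS w hw e0 r h1 hm1 hmul hper hsupp hpow
  have hc : CQ A B := hS.case.toCQ
  obtain ⟨t, ht⟩ := hS.case.three
  have lv : lvX 3 f 0 = 3 * f := by
    simp [lvX, q0, mul_comm]
  rw [lv] at hper hsupp
  rw [lv]
  -- valuations
  have v3 : V.valuation (3 : ℂ) < 1 := by
    have h1 : emb ((3 : ℕ) : OO A B) ∈ V.nonunits := (hS.hV _).2 (Ideal.mem_span_singleton_self _)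
    rw [MUX.emb_natCast hc] at h1
    exact_mod_cast V.mem_nonunits_iff.1 h1
  -- `w (-1) = -1`
  have wm1 : w (-1) = -1 := by
    have h2 : w (-1) * w (-1) = 1 := by
      rw [← hw.mul, neg_mul_neg, one_mul, hw.one]
    rcases mul_self_eq_one_iff.1 h2 with h | h
    · exfalso
      have h4 := hw.cong (-1)
      rw [h, MUX.emb_neg hc, MUX.emb_one hc] at h4
      have e : (1 : ℂ) - -1 = 2 := by norm_num
      rw [e] at h4
      have h5 : V.valuation (1 : ℂ) < 1 := by
        have e1 : (1 : ℂ) = 3 - 2 := by norm_num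
        rw [e1]
        exact (Valuation.map_sub _ _ _).trans_lt (max_lt v3 (h4.trans_lt v3))
      rw [map_one] at h5
      exact lt_irrefl _ h5
    · exact h
  -- the lift `Y` of the generator
  have hcop : IsCoprime (f : ℤ) 3 := by
    have h2 : Nat.Coprime f 3 := ((Nat.Prime.coprime_iff_not_dvd Nat.prime_three).2 hS.fp).symm
    have h3 := Nat.isCoprime_iff_coprime.2 h2
    exact_mod_cast h3
  obtain ⟨a, b, hab⟩ := hcop
  have habO : (a : OO A B) * (f : OO A B) + (b : OO A B) * 3 = 1 := by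
    have := congrArg (fun n : ℤ => (n : OO A B)) hab
    push_cast at this
    exact this
  have hcopO : IsCoprime ((3 : ℕ) : OO A B) ((f : ℕ) : OO A B) := by
    refine ⟨b, a, ?_⟩
    push_cast
    linear_combination habO
  have mem3f : ∀ z : OO A B, z ∈ idl (A := A) (B := B) 3 → z ∈ idl (A := A) (B := B) f →
      z ∈ idl (A := A) (B := B) (3 * f) := by
    intro z hz3 hzf
    rw [mem_idl] at hz3 hzf ⊢
    have := hcopO.mul_dvd hz3 hzf
    push_cast at this ⊢
    exact this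
  have le3 : ∀ z : OO A B, z ∈ idl (A := A) (B := B) (3 * f) → z ∈ idl (A := A) (B := B) 3 := by
    intro z hz
    rw [mem_idl] at hz ⊢
    refine dvd_trans ⟨(f : OO A B), ?_⟩ hz
    push_cast
    ring
  obtain ⟨Y, hY3, hYf⟩ : ∃ Y : OO A B, Y - gy A B ∈ idl (A := A) (B := B) 3 ∧
      Y - 1 ∈ idl (A := A) (B := B) f := by
    refine ⟨1 + a * f * (gy A B - 1), ?_, ?_⟩
    · rw [mem_idl]
      refine ⟨-(gy A B - 1) * b, ?_⟩
      push_cast
      linear_combination (gy A B - 1) * habO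
    · rw [mem_idl]
      refine ⟨a * (gy A B - 1), ?_⟩
      ring
  have hYk3 : ∀ k : ℕ, Y ^ k - gy A B ^ k ∈ idl (A := A) (B := B) 3 := fun k => by
    rw [mem_idl] at hY3 ⊢
    exact hY3.trans (sub_dvd_pow_sub_pow _ _ _)
  have hYkf : ∀ k : ℕ, Y ^ k - 1 ∈ idl (A := A) (B := B) f := fun k => by
    rw [mem_idl] at hYf ⊢
    have h2 := sub_dvd_pow_sub_pow Y 1 k
    rw [one_pow] at h2
    exact hYf.trans h2
  have hY4 : Y ^ 4 - (-1) ∈ idl (A := A) (B := B) 3 := by
    have := Ideal.add_mem _ (hYk3 4) (gy4 ht)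
    have e : Y ^ 4 - gy A B ^ 4 + (gy A B ^ 4 + 1) = Y ^ 4 - (-1) := by ring
    rwa [e] at this
  have hY8 : Y ^ 8 - 1 ∈ idl (A := A) (B := B) 3 := by
    have := Ideal.mul_mem_left (idl (A := A) (B := B) 3) (Y ^ 4 - 1) hY4
    have e : (Y ^ 4 - 1) * (Y ^ 4 - (-1)) = Y ^ 8 - 1 := by ring
    rwa [e] at this
  -- `w Y` is a primitive 8th root of unity
  have wY4 : w Y ^ 4 = -1 := by
    rw [← mul_pow' hw.one hw.mul, hw.per _ _ hY4, wm1]
  have wY8 : w Y ^ 8 = 1 := by
    have e : w Y ^ 8 = (w Y ^ 4) ^ 2 := by ring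
    rw [e, wY4]
    norm_num
  have hprim : IsPrimitiveRoot (w Y) 8 := by
    have h2 : orderOf (w Y) = 2 ^ (2 + 1) := by
      apply orderOf_eq_prime_pow
      · rw [show (2 : ℕ) ^ 2 = 4 by norm_num, wY4]
        norm_num
      · rw [show (2 : ℕ) ^ (2 + 1) = 8 by norm_num, wY8]
    have h3 := IsPrimitiveRoot.orderOf (w Y)
    rw [h2] at h3
    exact_mod_cast h3
  have eY8 : e0 Y ^ 8 = 1 := by
    rw [← mul_pow' h1 hmul, hper _ 1 (mem3f _ hY8 (hYkf 8)), h1]
  obtain ⟨j, hj8, hj⟩ := hprim.eq_pow_of_pow_eq_one eY8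
  -- `e0 = w ^ j` on the elements `≡ 1` modulo `f`
  have he0 : ∀ x, x - 1 ∈ idl (A := A) (B := B) f → x ∉ idl (A := A) (B := B) 3 →
      e0 x = w x ^ j := by
    intro x hxf hx3
    obtain ⟨k, hk⟩ := rep ht hx3
    have h4 : x - Y ^ k ∈ idl (A := A) (B := B) 3 := by
      have := Ideal.sub_mem _ hk (hYk3 k)
      have e : x - gy A B ^ k - (Y ^ k - gy A B ^ k) = x - Y ^ k := by ring
      rwa [e] at this
    have h5 : x - Y ^ k ∈ idl (A := A) (B := B) f := by
      have := Ideal.sub_mem _ hxf (hYkf k)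
      have e : x - 1 - (Y ^ k - 1) = x - Y ^ k := by ring
      rwa [e] at this
    rw [hper _ _ (mem3f _ h4 h5), hw.per _ _ h4, mul_pow' h1 hmul, mul_pow' hw.one hw.mul, ← hj,
      ← pow_mul, ← pow_mul, mul_comm]
  -- `w3 (nm x) = w x ^ 4`
  have hw3 : ∀ x, x ∉ idl (A := A) (B := B) 3 → ((w3 (nm x) : ℤ) : ℂ) = w x ^ 4 := by
    intro x hx3
    obtain ⟨k, hk⟩ := rep ht hx3
    have h4 : x - Y ^ k ∈ idl (A := A) (B := B) 3 := by
      have := Ideal.sub_mem _ hk (hYk3 k)
      have e : x - gy A B ^ k - (Y ^ k - gy A B ^ k) = x - Y ^ k := by ring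
      rwa [e] at this
    have h5 : w3 (nm x) = (-1) ^ k := by
      rw [w3_congr (nm_congr hk), nm_pow hc, w3_pow, nm_gy]
      have h6 : w3 (1 - (B ^ 2 + 4 * A)) = -1 := by
        unfold w3
        have h7 : (1 - (B ^ 2 + 4 * A)) % 3 = 2 := by omega
        rw [h7]
        norm_num
      rw [h6]
    rw [h5, hw.per _ _ h4, mul_pow' hw.one hw.mul, ← pow_mul, mul_comm k 4, pow_mul, wY4]
    push_cast
    rfl
  -- norms
  have nm3 : ∀ x : OO A B, x ∉ idl (A := A) (B := B) 3 → ¬ (3 : ℤ) ∣ nm x := by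
    intro x hx
    rw [← w3_ne]
    intro h
    have h4 := hw3 x hx
    rw [h] at h4
    have h5 := hw.pow x hx
    have e : w x ^ 8 = (w x ^ 4) ^ 2 := by ring
    rw [e, ← h4] at h5
    norm_num at h5
  have wne : ∀ x, x ∉ idl (A := A) (B := B) 3 → w x ≠ 0 := by
    intro x hx h
    have h5 := hw.pow x hx
    rw [h] at h5
    norm_num at h5
  -- the general construction
  have main : ∀ (s : ℤ) (i : ℕ), (s = 1 ∨ s = -1) → 4 ≤ i → i ≤ 7 →
      (∀ x, x ∉ idl (A := A) (B := B) 3 →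
        w x ^ j * w x * (if s = 1 then 1 else ((w3 (nm x) : ℤ) : ℂ)) = w x ^ i) →
      ∃ (e : OO A B → ℂ) (s : ℤ) (i : ℕ), IsEI (idl (A := A) (B := B) (3 * f)) e ∧
      (s = 1 ∨ s = -1) ∧ 4 ≤ i ∧ i ≤ 7 ∧
      (∀ x, x - 1 ∈ idl (A := A) (B := B) f → x ∉ idl (A := A) (B := B) 3 → e x = w x ^ i) ∧
      (∀ x, e x ≠ 0 → e x ^ (8 * r) = 1) ∧
      ∀ x, IsCoprime x ((3 * f : ℕ) : OO A B) →
        e0 x * w x = e x * (if s = 1 then 1 else (w3 (nm x) : ℂ)) := by
    intro s i hs h4i hi7 hwi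
    have sq : ∀ x, x ∉ idl (A := A) (B := B) 3 →
        (if s = 1 then (1 : ℂ) else (w3 (nm x) : ℂ)) ^ 2 = 1 := by
      intro x hx
      split_ifs
      · norm_num
      · exact_mod_cast w3_sq (nm3 x hx)
    refine ⟨fun x => e0 x * w x * (if s = 1 then 1 else ((w3 (nm x) : ℤ) : ℂ)), s, i, ?_, hs, h4i,
      hi7, ?_, ?_, ?_⟩
    · refine ⟨?_, ?_, ?_, ?_, ?_⟩
      · have e : w3 (nm (1 : OO A B)) = 1 := by
          rw [nm_one]
          rfl
        simp only [h1, hw.one, e]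
        simp
      · intro x y
        simp only [hmul, hw.mul, nm_mul hc, w3_mul]
        split_ifs
        · ring
        · push_cast
          ring
      · intro x y hxy
        rw [hper x y hxy, hw.per x y (le3 _ hxy), w3_congr (nm_congr (le3 _ hxy))]
      · intro x
        rw [Ideal.isCoprime_span_singleton_iff]
        constructor
        · intro h
          exact (hsupp x).1 (left_ne_zero_of_mul (left_ne_zero_of_mul h))
        · intro h
          have hx3 := notMem_of_cop (Dvd.intro _ rfl) h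
          refine mul_ne_zero (mul_ne_zero ((hsupp x).2 h) (wne x hx3)) ?_
          intro h0
          have := sq x hx3
          rw [h0] at this
          norm_num at this
      · have e : w3 (nm (-1 : OO A B)) = 1 := by
          rw [nm_neg_one]
          rfl
        simp only [hm1, wm1, e]
        simp
    · intro x hxf hx3
      beta_reduce
      rw [he0 x hxf hx3, hwi x hx3]
    · intro x hx
      beta_reduce at hx ⊢
      have hcx := (hsupp x).1 (left_ne_zero_of_mul (left_ne_zero_of_mul hx))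
      have hx3 := notMem_of_cop (Dvd.intro _ rfl) hcx
      have e1 : e0 x ^ (8 * r) = 1 := by
        rw [mul_comm, pow_mul, hpow x ((hsupp x).2 hcx), one_pow]
      have e2 : w x ^ (8 * r) = 1 := by
        rw [pow_mul, hw.pow x hx3, one_pow]
      have e3 : (if s = 1 then (1 : ℂ) else (w3 (nm x) : ℂ)) ^ (8 * r) = 1 := by
        have e : 8 * r = 2 * (4 * r) := by ring
        rw [e, pow_mul, sq x hx3, one_pow]
      rw [mul_pow, mul_pow, e1, e2, e3]
      norm_num
    · intro x hx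
      have hx3 := notMem_of_cop (Dvd.intro _ rfl) hx
      have h2 := sq x hx3
      beta_reduce
      rw [mul_assoc, ← pow_two, h2, mul_one]
  have w8 : ∀ x, x ∉ idl (A := A) (B := B) 3 → w x ^ 8 = 1 := hw.pow
  by_cases c1 : 3 ≤ j ∧ j ≤ 6
  · refine main 1 (j + 1) (Or.inl rfl) (by omega) (by omega) ?_
    intro x _
    rw [if_pos rfl, mul_one, pow_succ]
  · by_cases c2 : j = 7
    · refine main (-1) 4 (Or.inr rfl) (by omega) (by omega) ?_
      intro x hx
      rw [if_neg (by norm_num), hw3 x hx, c2, ← pow_succ, w8 x hx, one_mul]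
    · refine main (-1) (j + 5) (Or.inr rfl) (by omega) (by omega) ?_
      intro x hx
      rw [if_neg (by norm_num), hw3 x hx]
      ring

end

end Pool.Agent.NSI


end

section

/-!
# MU3, block V: module R5 (multiplication by `lam` reduces to the Frobenius)
-/

set_option autoImplicit false

open WeierstrassCurve Polynomial NumberField IsDedekindDomain

namespace Pool.Agent.MU3V

open _root_.MU3 _root_.Pool.Agent.MU3A _root_.Pool.Agent.MU3B

noncomputable section

namespace R5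

/-- the computation in the residue field -/
lemma coreK {κ : Type*} [Field κ] (q : ℕ) [Fact q.Prime] [CharP κ q] (hq : Odd q)
    (h3 : (3 : κ) ≠ 0) {e1 e2 e3 f1 f2 f3 c G2 G3 : κ}
    (h21 : (f2 - f1) * c = (e2 - e1) ^ q) (h31 : (f3 - f1) * c = (e3 - e1) ^ q)
    (h32 : (f3 - f2) * c = (e3 - e2) ^ q)
    (s1 : e1 + e2 + e3 = 0) (t1 : f1 + f2 + f3 = 0)
    (s2 : e1 * e2 + e1 * e3 + e2 * e3 = -G2) (t2 : f1 * f2 + f1 * f3 + f2 * f3 = -G2)
    (s3 : e1 * e2 * e3 = G3) (t3 : f1 * f2 * f3 = G3)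
    (g2 : G2 ^ q = G2) (g3 : G3 ^ q = G3) (n2 : G2 ≠ 0) (n3 : G3 ≠ 0) :
    c = 1 ∧ e1 ^ q = f1 := by
  rw [sub_pow_char] at h21 h31 h32
  have s1q : e1 ^ q + e2 ^ q + e3 ^ q = 0 := by
    rw [← add_pow_char, ← add_pow_char, s1]
    exact zero_pow hq.pos.ne'
  have a1 : e1 ^ q = c * f1 := by
    apply mul_left_cancel₀ h3
    linear_combination h21 + h31 + s1q - c * t1
  have a2 : e2 ^ q = c * f2 := by
    apply mul_left_cancel₀ h3
    linear_combination h32 - h21 + s1q - c * t1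
  have a3 : e3 ^ q = c * f3 := by
    apply mul_left_cancel₀ h3
    linear_combination (-1) * h31 - h32 + s1q - c * t1
  have c2 : c ^ 2 = 1 := by
    have h := congrArg (fun x => x ^ q) s2
    simp only [add_pow_char, mul_pow] at h
    rw [a1, a2, a3, hq.neg_pow, g2] at h
    have : (c ^ 2 - 1) * G2 = 0 := by linear_combination (-1) * h + c ^ 2 * t2
    rcases mul_eq_zero.1 this with h' | h'
    · exact sub_eq_zero.1 h'
    · exact absurd h' n2
  have c3 : c ^ 3 = 1 := by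
    have h := congrArg (fun x => x ^ q) s3
    simp only [mul_pow] at h
    rw [a1, a2, a3, g3] at h
    have : (c ^ 3 - 1) * G3 = 0 := by linear_combination h - c ^ 3 * t3
    rcases mul_eq_zero.1 this with h' | h'
    · exact sub_eq_zero.1 h'
    · exact absurd h' n3
  have c1 : c = 1 := by linear_combination c3 - c * c2
  exact ⟨c1, by rw [a1, c1, one_mul]⟩

lemma res_eq_iff (V : ValuationSubring ℂ) (a b : V) :
    IsLocalRing.residue V a = IsLocalRing.residue V b ↔ V.valuation ((a : ℂ) - b) < 1 := by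
  rw [← sub_eq_zero, ← map_sub, IsLocalRing.residue_eq_zero_iff,
    ValuationSubring.valuation_lt_one_iff]
  rfl

lemma res_ne_iff (V : ValuationSubring ℂ) (a : V) :
    IsLocalRing.residue V a ≠ 0 ↔ V.valuation (a : ℂ) = 1 := by
  rw [Ne, IsLocalRing.residue_eq_zero_iff, ValuationSubring.valuation_lt_one_iff, not_lt]
  constructor
  · intro h
    exact le_antisymm ((ValuationSubring.valuation_le_one_iff _ _).2 a.2) h
  · intro h
    exact h.ge

lemma nat_ne (V : ValuationSubring ℂ) (n : ℕ) (h : V.valuation (n : ℂ) = 1) :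
    ((n : ℕ) : IsLocalRing.ResidueField V) ≠ 0 := by
  have h' := (res_ne_iff V (n : V)).2 (by simpa using h)
  rwa [map_natCast] at h'

/-- the same computation, modulo the maximal ideal of `V` -/
lemma coreV (V : ValuationSubring ℂ) (q : ℕ) (hqp : q.Prime) (hq : Odd q)
    (hvq : V.valuation (q : ℂ) < 1)
    (h3 : V.valuation (3 : ℂ) = 1) {e1 e2 e3 f1 f2 f3 c G2 G3 : ℂ}
    (me1 : e1 ∈ V) (me2 : e2 ∈ V) (me3 : e3 ∈ V) (mf1 : f1 ∈ V) (mf2 : f2 ∈ V) (mf3 : f3 ∈ V)
    (mc : c ∈ V) (mG2 : G2 ∈ V) (mG3 : G3 ∈ V)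
    (h21 : V.valuation ((f2 - f1) * c - (e2 - e1) ^ q) < 1)
    (h31 : V.valuation ((f3 - f1) * c - (e3 - e1) ^ q) < 1)
    (h32 : V.valuation ((f3 - f2) * c - (e3 - e2) ^ q) < 1)
    (s1 : e1 + e2 + e3 = 0) (t1 : f1 + f2 + f3 = 0)
    (s2 : e1 * e2 + e1 * e3 + e2 * e3 = -G2) (t2 : f1 * f2 + f1 * f3 + f2 * f3 = -G2)
    (s3 : e1 * e2 * e3 = G3) (t3 : f1 * f2 * f3 = G3)
    (g2 : V.valuation (G2 ^ q - G2) < 1) (g3 : V.valuation (G3 ^ q - G3) < 1)
    (n2 : V.valuation G2 = 1) (n3 : V.valuation G3 = 1) :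
    V.valuation (c - 1) < 1 ∧ V.valuation (e1 ^ q - f1) < 1 := by
  obtain ⟨E1, rfl⟩ : ∃ a : V, (a : ℂ) = e1 := ⟨⟨e1, me1⟩, rfl⟩
  obtain ⟨E2, rfl⟩ : ∃ a : V, (a : ℂ) = e2 := ⟨⟨e2, me2⟩, rfl⟩
  obtain ⟨E3, rfl⟩ : ∃ a : V, (a : ℂ) = e3 := ⟨⟨e3, me3⟩, rfl⟩
  obtain ⟨F1, rfl⟩ : ∃ a : V, (a : ℂ) = f1 := ⟨⟨f1, mf1⟩, rfl⟩
  obtain ⟨F2, rfl⟩ : ∃ a : V, (a : ℂ) = f2 := ⟨⟨f2, mf2⟩, rfl⟩
  obtain ⟨F3, rfl⟩ : ∃ a : V, (a : ℂ) = f3 := ⟨⟨f3, mf3⟩, rfl⟩
  obtain ⟨K, rfl⟩ : ∃ a : V, (a : ℂ) = c := ⟨⟨c, mc⟩, rfl⟩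
  obtain ⟨H2, rfl⟩ : ∃ a : V, (a : ℂ) = G2 := ⟨⟨G2, mG2⟩, rfl⟩
  obtain ⟨H3, rfl⟩ : ∃ a : V, (a : ℂ) = G3 := ⟨⟨G3, mG3⟩, rfl⟩
  have : Fact q.Prime := ⟨hqp⟩
  have hq0 : ((q : ℕ) : IsLocalRing.ResidueField V) = 0 := by
    have h := (res_eq_iff V (q : V) 0).2 (by simpa using hvq)
    rw [map_zero, map_natCast] at h
    exact h
  have : CharP (IsLocalRing.ResidueField V) q := (CharP.charP_iff_prime_eq_zero hqp).2 hq0
  have h3' : (3 : IsLocalRing.ResidueField V) ≠ 0 := by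
    have h := nat_ne V 3 (by exact_mod_cast h3)
    exact_mod_cast h
  have key := coreK (κ := IsLocalRing.ResidueField V) q hq h3'
    (e1 := IsLocalRing.residue V E1) (e2 := IsLocalRing.residue V E2)
    (e3 := IsLocalRing.residue V E3) (f1 := IsLocalRing.residue V F1)
    (f2 := IsLocalRing.residue V F2) (f3 := IsLocalRing.residue V F3)
    (c := IsLocalRing.residue V K) (G2 := IsLocalRing.residue V H2)
    (G3 := IsLocalRing.residue V H3)
    (by
      rw [← map_sub, ← map_sub, ← map_mul, ← map_pow, res_eq_iff]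
      push_cast
      exact h21)
    (by
      rw [← map_sub, ← map_sub, ← map_mul, ← map_pow, res_eq_iff]
      push_cast
      exact h31)
    (by
      rw [← map_sub, ← map_sub, ← map_mul, ← map_pow, res_eq_iff]
      push_cast
      exact h32)
    (by
      rw [← map_add, ← map_add, ← map_zero (IsLocalRing.residue V)]
      congr 1
      exact Subtype.ext (by push_cast; exact s1))
    (by
      rw [← map_add, ← map_add, ← map_zero (IsLocalRing.residue V)]
      congr 1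
      exact Subtype.ext (by push_cast; exact t1))
    (by
      rw [← map_mul, ← map_mul, ← map_mul, ← map_add, ← map_add, ← map_neg]
      congr 1
      exact Subtype.ext (by push_cast; exact s2))
    (by
      rw [← map_mul, ← map_mul, ← map_mul, ← map_add, ← map_add, ← map_neg]
      congr 1
      exact Subtype.ext (by push_cast; exact t2))
    (by
      rw [← map_mul, ← map_mul]
      congr 1
      exact Subtype.ext (by push_cast; exact s3))
    (by
      rw [← map_mul, ← map_mul]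
      congr 1
      exact Subtype.ext (by push_cast; exact t3))
    (by
      rw [← map_pow, res_eq_iff]
      push_cast
      exact g2)
    (by
      rw [← map_pow, res_eq_iff]
      push_cast
      exact g3)
    ((res_ne_iff V H2).2 n2) ((res_ne_iff V H3).2 n3)
  obtain ⟨k1, k2⟩ := key
  constructor
  · have := (res_eq_iff V K 1).1 (by rw [map_one]; exact k1)
    simpa using this
  · rw [← map_pow, res_eq_iff] at k2
    push_cast at k2
    exact k2

/-- `x ↦ x ^ q` is additive modulo the maximal ideal -/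
lemma frob_sub (V : ValuationSubring ℂ) (q : ℕ) (hqp : q.Prime)
    (hvq : V.valuation (q : ℂ) < 1) {a b : ℂ} (ha : a ∈ V) (hb : b ∈ V) :
    V.valuation ((a - b) ^ q - (a ^ q - b ^ q)) < 1 := by
  obtain ⟨E1, rfl⟩ : ∃ c : V, (c : ℂ) = a := ⟨⟨a, ha⟩, rfl⟩
  obtain ⟨E2, rfl⟩ : ∃ c : V, (c : ℂ) = b := ⟨⟨b, hb⟩, rfl⟩
  have : Fact q.Prime := ⟨hqp⟩
  have hq0 : ((q : ℕ) : IsLocalRing.ResidueField V) = 0 := by
    have h := (res_eq_iff V (q : V) 0).2 (by simpa using hvq)
    rw [map_zero, map_natCast] at h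
    exact h
  have : CharP (IsLocalRing.ResidueField V) q := (CharP.charP_iff_prime_eq_zero hqp).2 hq0
  have h := (res_eq_iff V ((E1 - E2) ^ q) (E1 ^ q - E2 ^ q)).1 (by
    rw [map_pow, map_sub, map_sub, map_pow, map_pow, sub_pow_char])
  push_cast at h
  exact h

end R5

open _root_.Pool.Agent.MU3V.R5 _root_.Pool.Agent.MU3.Val in
theorem tv_R5 (h1 : Sv_POL) (h2 : Sv_CYCL) (h3 : Sv_R2) (h4 : Sv_R4) (h5 : Sv_CARD)
    (h6 : Sv_FRK) (h7 : Sa_ROO) : Sv_R5 := by
  intro A B L Om ξ hC hL hξ V v2 v3 v5 v7 v11 lam q hqp hnm hlam z hz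
  have hLat : IsLat A B L Om := hL.toIsLat
  have hvq : V.valuation (q : ℂ) < 1 := by
    have e : emb lam * emb (⟨lam.re + B * lam.im, -lam.im⟩ : OO A B) = (q : ℂ) := by
      rw [← emb_mul hC]
      have : lam * ⟨lam.re + B * lam.im, -lam.im⟩ = ((q : ℤ) : OO A B) := by
        rw [← hnm]
        ext
        · simp only [QuadraticAlgebra.re_mul, QuadraticAlgebra.re_intCast, nm, Int.cast_id]
          ring
        · simp only [QuadraticAlgebra.im_mul, QuadraticAlgebra.im_intCast]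
          ring
      rw [this, emb_intCast hC]
      simp
    rw [← e, map_mul]
    exact lt_of_le_of_lt (mul_le_of_le_one_right' (v_emb_le hC V _)) hlam
  have hq2 : q ≠ 2 := by
    intro h
    rw [h] at hvq
    push_cast at hvq
    rw [v2] at hvq
    exact lt_irrefl _ hvq
  have hlam0 : lam ≠ 0 := by
    intro h
    rw [h] at hnm
    have : (q : ℤ) = 0 := by
      rw [← hnm]
      simp [nm]
    exact hqp.ne_zero (by exact_mod_cast this)
  obtain ⟨H, hH⟩ := (h2 A B L Om hC hL lam q hqp hnm).2.2 hq2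
  have hcard := h5 A B L Om hC hL lam q hnm hlam0 H hH
  have hE := h3 A B L Om ξ hC hL hξ V v2 lam q hqp hnm hlam
  obtain ⟨-, r2, r3⟩ := h4 A B L Om ξ hC hL hξ V v2 lam q hqp hvq hlam0 H hH hcard hE
  have hodd : Odd q := ⟨H.card, hcard.symm⟩
  have hl0 : emb lam ≠ 0 := emb_ne_zero hC hlam0
  have hlL : ∀ u ∈ L.lattice, emb lam * u ∈ L.lattice := fun u hu => hLat.emb_mul_mem hC lam hu
  have ord2 : ∀ w, 2 * w ∈ L.lattice → w ∉ L.lattice → ¬ InE1 A B V L w :=
    fun w h2w hw hE' => hw (mem_of_nat_mul hC v2 hξ hE' (n := 2) (by exact_mod_cast v2)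
      (by exact_mod_cast h2w))
  have lord : ∀ w, 2 * w ∈ L.lattice → w ∉ L.lattice → emb lam * w ∉ L.lattice := by
    intro w h2w hw hlw
    obtain ⟨p, hp, hp'⟩ := hH.surj w hlw hw
    apply hH.ne p hp
    rcases hp' with h | h
    · have := sub_mem h2w (add_mem h h)
      convert this using 1
      ring
    · have := sub_mem (add_mem h h) h2w
      convert this using 1
      ring
  have lord2 : ∀ w, 2 * w ∈ L.lattice → 2 * (emb lam * w) ∈ L.lattice := by
    intro w h2w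
    have := hlL _ h2w
    convert this using 1
    ring
  have hpt : ∀ a b : ℤ, ((a : ℂ) + b * wC A B) * (Om / 2) ∈ L.lattice →
      (2 : ℤ) ∣ a ∧ (2 : ℤ) ∣ b := by
    intro a b hab
    have e2 : emb ((2 : ℕ) : OO A B) = 2 := by
      rw [emb_natCast hC]
      norm_num
    have h := (hLat.mul_div_mem_iff hC (m := ((2 : ℕ) : OO A B)) (by
      intro h
      have := congrArg emb h
      rw [e2, emb_zero hC] at this
      norm_num at this) ⟨a, b⟩).1 (by rw [e2]; exact hab)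
    obtain ⟨y, hy⟩ := h
    have k1 := congrArg QuadraticAlgebra.re hy
    have k2 := congrArg QuadraticAlgebra.im hy
    rw [← nsmul_eq_mul, two_nsmul] at k1 k2
    rw [QuadraticAlgebra.re_add] at k1
    rw [QuadraticAlgebra.im_add] at k2
    exact ⟨⟨y.re, by rw [two_mul]; exact k1⟩, ⟨y.im, by rw [two_mul]; exact k2⟩⟩
  have hOm : Om ∈ L.lattice := (hLat.mem _).2 ⟨1, by rw [emb_one hC, mul_one]⟩
  obtain ⟨w1, hw1⟩ : ∃ w, w = Om / 2 := ⟨_, rfl⟩
  obtain ⟨w2, hw2⟩ : ∃ w, w = wC A B * (Om / 2) := ⟨_, rfl⟩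
  have m1 : w1 ∉ L.lattice := by
    intro h
    have := (hpt 1 0 (by rw [hw1] at h; simpa using h)).1
    norm_num at this
  have m2 : w2 ∉ L.lattice := by
    intro h
    have := (hpt 0 1 (by rw [hw2] at h; simpa using h)).2
    norm_num at this
  have m3 : w1 + w2 ∉ L.lattice := by
    intro h
    have := (hpt 1 1 (by
      rw [hw1, hw2] at h
      convert h using 1
      push_cast
      ring)).1
    norm_num at this
  have t1 : 2 * w1 ∈ L.lattice := by
    rw [hw1]
    convert hOm using 1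
    ring
  have t2 : 2 * w2 ∈ L.lattice := by
    rw [hw2]
    convert hLat.mul_mem_w hC hOm using 1
    ring
  have t3 : 2 * (w1 + w2) ∈ L.lattice := by
    rw [mul_add]
    exact add_mem t1 t2
  have l3 : emb lam * w1 + emb lam * w2 ∉ L.lattice := by
    rw [← mul_add]
    exact lord _ t3 m3
  obtain ⟨-, -, -, s1, s2, s3⟩ := h7 L w1 w2 m1 m2 m3 t1 t2
  obtain ⟨-, -, -, s1', s2', s3'⟩ := h7 L (emb lam * w1) (emb lam * w2) (lord _ t1 m1)
    (lord _ t2 m2) l3 (lord2 _ t1) (lord2 _ t2)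
  have ha2 : emb (a2 A B) / 3 ∈ V := by
    rw [← ValuationSubring.valuation_le_one_iff, map_div₀, v3, div_one]
    exact v_emb_le hC V _
  have hxV : ∀ w, ¬ InE1 A B V L w → xx A B L w ∈ V := by
    intro w hw
    exact (ValuationSubring.valuation_le_one_iff _ _).1 (int_x hw).2
  have hpV : ∀ w, ¬ InE1 A B V L w → L.weierstrassP w ∈ V := by
    intro w hw
    have := add_mem (hxV w hw) ha2
    rwa [xx, sub_add_cancel] at this
  have hxp : ∀ a b, xx A B L a - xx A B L b = L.weierstrassP a - L.weierstrassP b := by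
    intro a b
    rw [xx, xx]
    ring
  -- the difference of the two values is a unit
  have hunit : V.valuation (xx A B L (emb lam * w2) - xx A B L (emb lam * w1)) = 1 := by
    refine v_xx_sub hC v2 hξ (ord2 _ (lord2 _ t2) (lord _ t2 m2))
      (ord2 _ (lord2 _ t1) (lord _ t1 m1)) ?_ ?_
    · refine ord2 _ ?_ ?_
      · rw [mul_add]
        exact add_mem (lord2 _ t2) (lord2 _ t1)
      · rw [add_comm]
        exact l3
    · refine ord2 _ ?_ ?_
      · rw [mul_sub]
        exact sub_mem (lord2 _ t2) (lord2 _ t1)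
      · intro h
        apply l3
        have := add_mem h (lord2 _ t1)
        convert this using 1
        ring
  have hcV : ∀ x ∈ V, (Qp A B L (emb lam) H).eval x ^ 2 ∈ V := by
    intro x hx
    have h := r2 w1 w2 t1 m1 t2 m2 x hx
    rw [← ValuationSubring.valuation_le_one_iff]
    have e : V.valuation ((Qp A B L (emb lam) H).eval x ^ 2) =
        V.valuation ((xx A B L (emb lam * w2) - xx A B L (emb lam * w1)) *
          (Qp A B L (emb lam) H).eval x ^ 2) := by
      rw [map_mul, hunit, one_mul]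
    have e' : (xx A B L (emb lam * w2) - xx A B L (emb lam * w1)) *
          (Qp A B L (emb lam) H).eval x ^ 2 =
        ((xx A B L (emb lam * w2) - xx A B L (emb lam * w1)) *
          (Qp A B L (emb lam) H).eval x ^ 2 - (xx A B L w2 - xx A B L w1) ^ q) +
          (xx A B L w2 - xx A B L w1) ^ q := by ring
    rw [e, e']
    refine v_add_le h.le ?_
    rw [ValuationSubring.valuation_le_one_iff]
    exact pow_mem (sub_mem (hxV _ (ord2 _ t2 m2)) (hxV _ (ord2 _ t1 m1))) q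
  -- the invariants
  have v4 : V.valuation (4 : ℂ) = 1 := by
    rw [show (4 : ℂ) = 2 * 2 by norm_num, map_mul, v2, one_mul]
  have v108 : V.valuation ((108 : ℕ) : ℂ) = 1 := by
    rw [show ((108 : ℕ) : ℂ) = 2 ^ 2 * 3 ^ 3 by norm_num, map_mul, map_pow, map_pow, v2, v3]
    simp
  have v3' : V.valuation ((3 : ℕ) : ℂ) = 1 := by
    exact_mod_cast v3
  have G2eq : L.g₂ / 4 = emb (a2 A B * a2 A B - ((3 : ℕ) : OO A B) * a4 A B) / ((3 : ℕ) : ℂ) := by
    rw [emb_sub hC, emb_mul hC, emb_mul hC, emb_natCast hC, hL.g2]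
    push_cast
    ring
  have G3eq : L.g₃ / 4 = emb (((36 : ℕ) : OO A B) * a4 A B * a2 A B -
      ((27 : ℕ) : OO A B) * a6 A B - ((8 : ℕ) : OO A B) * (a2 A B * a2 A B * a2 A B)) /
        ((108 : ℕ) : ℂ) := by
    rw [emb_sub hC, emb_sub hC, emb_mul hC, emb_mul hC, emb_mul hC, emb_mul hC, emb_mul hC,
      emb_mul hC, emb_natCast hC, emb_natCast hC, emb_natCast hC, hL.g3]
    push_cast
    ring
  have g2fr := h6 A B hC V lam (a2 A B * a2 A B - ((3 : ℕ) : OO A B) * a4 A B) q 3 hqp hnm hlam v3'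
  rw [← G2eq] at g2fr
  have g3fr := h6 A B hC V lam (((36 : ℕ) : OO A B) * a4 A B * a2 A B -
      ((27 : ℕ) : OO A B) * a6 A B - ((8 : ℕ) : OO A B) * (a2 A B * a2 A B * a2 A B)) q 108
      hqp hnm hlam v108
  rw [← G3eq] at g3fr
  have a2fr := h6 A B hC V lam (a2 A B) q 3 hqp hnm hlam v3'
  push_cast at a2fr
  have gunit : V.valuation (L.g₂ / 4) = 1 ∧ V.valuation (L.g₃ / 4) = 1 := by
    rw [hL.g2, hL.g3]
    rcases hC with ⟨rfl, rfl⟩ | ⟨rfl, rfl⟩
    · have k1 : emb (a2 (-2) 0) = 4 := by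
        have : a2 (-2) 0 = ((4 : ℕ) : OO (-2) 0) := by simp [a2]
        rw [this, emb_natCast (Or.inl ⟨rfl, rfl⟩)]; norm_num
      have k2 : emb (a4 (-2) 0) = 2 := by
        have : a4 (-2) 0 = ((2 : ℕ) : OO (-2) 0) := by simp [a4]
        rw [this, emb_natCast (Or.inl ⟨rfl, rfl⟩)]; norm_num
      have k3 : emb (a6 (-2) 0) = 0 := by
        have : a6 (-2) 0 = 0 := by simp [a6]
        rw [this, emb_zero (Or.inl ⟨rfl, rfl⟩)]
      rw [k1, k2, k3]
      constructor
      · rw [show (-4 * (2 - 4 ^ 2 / 3) / 4 : ℂ) = 2 * 5 / 3 by norm_num, map_div₀, map_mul, v2,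
          v3, v5]
        simp
      · rw [show (-4 * (0 / 4 + 2 * (4 / 3) ^ 3 - 2 * (4 / 3)) / 4 : ℂ) = -(2 ^ 3 * 7 / 3 ^ 3) by
          norm_num, Valuation.map_neg, map_div₀, map_mul, map_pow, map_pow, v2, v3, v7]
        simp
    · have hw := wC_sq (A := -3) (B := 1) (Or.inr ⟨rfl, rfl⟩)
      have k1 : emb (a2 (-3) 1) = 2 * wC (-3) 1 - 1 := by simp [a2, emb]; ring
      have k2 : emb (a4 (-3) 1) = -3 := by
        have : a4 (-3) 1 = ((-3 : ℤ) : OO (-3) 1) := by simp [a4]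
        rw [this, emb_intCast (Or.inr ⟨rfl, rfl⟩)]; norm_num
      have k3 : emb (a6 (-3) 1) = 1 - 2 * wC (-3) 1 := by simp [a6, emb]; ring
      push_cast at hw
      have e : (2 * wC (-3) 1 - 1) ^ 2 = -11 := by linear_combination 4 * hw
      have hd1 : V.valuation (2 * wC (-3) 1 - 1) ≤ 1 := by
        rw [← k1]
        exact v_emb_le (Or.inr ⟨rfl, rfl⟩) V _
      have hd : V.valuation (2 * wC (-3) 1 - 1) = 1 := by
        refine le_antisymm hd1 ?_
        by_contra hc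
        push Not at hc
        have h' : V.valuation ((2 * wC (-3) 1 - 1) ^ 2) < 1 := by
          rw [map_pow]
          exact pow_lt_one₀ zero_le hc (by norm_num)
        rw [e, Valuation.map_neg, v11] at h'
        exact lt_irrefl _ h'
      rw [k1, k2, k3]
      constructor
      · rw [show (-4 * (-3 - (2 * wC (-3) 1 - 1) ^ 2 / 3) / 4 : ℂ) = -(2 / 3) by
          rw [e]; norm_num, Valuation.map_neg, map_div₀, v2, v3]
        simp
      · rw [show (-4 * ((1 - 2 * wC (-3) 1) / 4 + 2 * ((2 * wC (-3) 1 - 1) / 3) ^ 3 -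
            -3 * ((2 * wC (-3) 1 - 1) / 3)) / 4 : ℂ) =
            7 * (2 * wC (-3) 1 - 1) / (2 ^ 2 * 3 ^ 3) by
          linear_combination (-2 / 27 * (2 * wC (-3) 1 - 1)) * e,
          map_div₀, map_mul, map_mul, map_pow, map_pow, v2, v3, v7, hd]
        simp
  obtain ⟨n2, n3⟩ := gunit
  have mG2 : L.g₂ / 4 ∈ V := (ValuationSubring.valuation_le_one_iff _ _).1 n2.le
  have mG3 : L.g₃ / 4 ∈ V := (ValuationSubring.valuation_le_one_iff _ _).1 n3.le
  have main : ∀ x ∈ V, V.valuation ((Qp A B L (emb lam) H).eval x ^ 2 - 1) < 1 ∧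
      V.valuation (L.weierstrassP w1 ^ q - L.weierstrassP (emb lam * w1)) < 1 := by
    intro x hx
    have k21 := r2 w1 w2 t1 m1 t2 m2 x hx
    have k31 := r2 w1 (w1 + w2) t1 m1 t3 m3 x hx
    have k32 := r2 w2 (w1 + w2) t2 m2 t3 m3 x hx
    rw [hxp, hxp] at k21 k31 k32
    rw [mul_add] at k31 k32
    refine coreV V q hqp hodd hvq v3 (e1 := L.weierstrassP w1) (e2 := L.weierstrassP w2)
      (e3 := L.weierstrassP (w1 + w2)) (f1 := L.weierstrassP (emb lam * w1))
      (f2 := L.weierstrassP (emb lam * w2)) (f3 := L.weierstrassP (emb lam * w1 + emb lam * w2))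
      (G2 := L.g₂ / 4) (G3 := L.g₃ / 4)
      (hpV _ (ord2 _ t1 m1)) (hpV _ (ord2 _ t2 m2)) (hpV _ (ord2 _ t3 m3))
      (hpV _ (ord2 _ (lord2 _ t1) (lord _ t1 m1))) (hpV _ (ord2 _ (lord2 _ t2) (lord _ t2 m2)))
      (hpV _ (ord2 _ (by rw [mul_add]; exact add_mem (lord2 _ t1) (lord2 _ t2)) l3))
      (hcV x hx) mG2 mG3 k21 k31 k32 s1 s1' s2 s2' s3 s3' g2fr g3fr n2 n3
  -- conclusion
  have hx0 : xx A B L z ∈ V := hxV z hz
  obtain ⟨c1, c2⟩ := main _ hx0
  have hlz : emb lam * z ∉ L.lattice := fun h => hz (hE z h)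
  have hpol := (h1 A B L (emb lam) H hl0 hlL hH).2 w1 t1 m1 z hlz
  have hr3 := r3 w1 t1 m1 _ hx0
  rw [← hpol] at hr3
  have hcu : V.valuation ((Qp A B L (emb lam) H).eval (xx A B L z) ^ 2) = 1 := by
    have e : (Qp A B L (emb lam) H).eval (xx A B L z) ^ 2 =
        1 + ((Qp A B L (emb lam) H).eval (xx A B L z) ^ 2 - 1) := by ring
    rw [e, Valuation.map_add_eq_of_lt_left, map_one]
    rw [map_one]
    exact c1
  have hw1V := hxV _ (ord2 _ t1 m1)
  have hD1 : V.valuation (xx A B L (emb lam * z) - xx A B L (emb lam * w1)) ≤ 1 := by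
    have e : V.valuation (xx A B L (emb lam * z) - xx A B L (emb lam * w1)) =
        V.valuation ((xx A B L (emb lam * z) - xx A B L (emb lam * w1)) *
          (Qp A B L (emb lam) H).eval (xx A B L z) ^ 2) := by
      rw [map_mul, hcu, mul_one]
    have e' : (xx A B L (emb lam * z) - xx A B L (emb lam * w1)) *
          (Qp A B L (emb lam) H).eval (xx A B L z) ^ 2 =
        ((xx A B L (emb lam * z) - xx A B L (emb lam * w1)) *
          (Qp A B L (emb lam) H).eval (xx A B L z) ^ 2 - (xx A B L z - xx A B L w1) ^ q) +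
          (xx A B L z - xx A B L w1) ^ q := by ring
    rw [e, e']
    refine v_add_le hr3.le ?_
    rw [ValuationSubring.valuation_le_one_iff]
    exact pow_mem (sub_mem hx0 hw1V) q
  have hDV := (ValuationSubring.valuation_le_one_iff _ _).1 hD1
  have hlw1V := hxV _ (ord2 _ (lord2 _ t1) (lord _ t1 m1))
  have hlzV : xx A B L (emb lam * z) ∈ V := by
    have := add_mem hDV hlw1V
    rwa [sub_add_cancel] at this
  refine ⟨?_, ?_⟩
  · intro h
    rcases h with h | h
    · exact hlz h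
    · exact h hlzV
  · have b1 : V.valuation ((xx A B L (emb lam * z) - xx A B L (emb lam * w1)) *
        ((Qp A B L (emb lam) H).eval (xx A B L z) ^ 2 - 1)) < 1 := by
      rw [map_mul]
      exact lt_of_le_of_lt (mul_le_of_le_one_left' hD1) c1
    have b2 := frob_sub V q hqp hvq hx0 hw1V
    have b3 := frob_sub V q hqp hvq (hpV _ (ord2 _ t1 m1)) ha2
    have e : xx A B L (emb lam * z) - xx A B L z ^ q =
        ((xx A B L (emb lam * z) - xx A B L (emb lam * w1)) *
          (Qp A B L (emb lam) H).eval (xx A B L z) ^ 2 - (xx A B L z - xx A B L w1) ^ q) -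
        (xx A B L (emb lam * z) - xx A B L (emb lam * w1)) *
          ((Qp A B L (emb lam) H).eval (xx A B L z) ^ 2 - 1) +
        ((xx A B L z - xx A B L w1) ^ q - (xx A B L z ^ q - xx A B L w1 ^ q)) -
        ((L.weierstrassP w1 - emb (a2 A B) / 3) ^ q -
          (L.weierstrassP w1 ^ q - (emb (a2 A B) / 3) ^ q)) -
        (L.weierstrassP w1 ^ q - L.weierstrassP (emb lam * w1)) +
        ((emb (a2 A B) / 3) ^ q - emb (a2 A B) / 3) := by
      simp only [xx]
      ring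
    rw [e]
    exact Valuation.map_add_lt _ (Valuation.map_sub_lt _ (Valuation.map_sub_lt _
      (Valuation.map_add_lt _ (Valuation.map_sub_lt _ hr3 b1) b2) b3) c2) a2fr

end

end Pool.Agent.MU3V


end

section

/-!
# MU3, block V: the identity of polynomials behind multiplication by `l` (POL)
-/

set_option autoImplicit false

open Polynomial

namespace Pool.Agent.MU3V

open _root_.MU3 _root_.Pool.Agent.MU3A _root_.Pool.Agent.MU3B

namespace POL

theorem wp_congr (L : PeriodPair) {z u : ℂ} (h : z - u ∈ L.lattice) :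
    L.weierstrassP z = L.weierstrassP u := by
  have h1 := L.weierstrassP_add_coe u ⟨z - u, h⟩
  rw [← h1]
  congr 1
  simp

theorem wp_congr' (L : PeriodPair) {z u : ℂ} (h : z + u ∈ L.lattice) :
    L.weierstrassP z = L.weierstrassP u := by
  have h1 := wp_congr L (z := z) (u := -u) (by rwa [sub_neg_eq_add])
  rw [h1, L.weierstrassP_neg]

theorem ev_Q (A B : ℤ) (L : PeriodPair) (l z : ℂ) (H : Finset ℂ) :
    (Qp A B L l H).eval (xx A B L z) =
      l * ∏ q ∈ H, (L.weierstrassP z - L.weierstrassP q) := by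
  unfold Qp
  rw [eval_mul, eval_C, eval_prod]
  congr 1
  refine Finset.prod_congr rfl fun q _ => ?_
  rw [eval_sub, eval_X, eval_C]
  unfold xx
  ring

theorem ev_C (A B : ℤ) (L : PeriodPair) (w z : ℂ) (H : Finset ℂ) :
    (Cp A B L w H).eval (xx A B L z) =
      ∏ q ∈ H, (L.weierstrassP z - L.weierstrassP (w + q)) := by
  unfold Cp
  rw [eval_prod]
  refine Finset.prod_congr rfl fun q _ => ?_
  rw [eval_sub, eval_X, eval_C]
  unfold xx
  ring

theorem key (h1 : Sa_PFG) (h2 : St_HRE) (A B : ℤ) (L : PeriodPair) (l : ℂ) (H : Finset ℂ)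
    (hl : l ≠ 0) (hL : ∀ u ∈ L.lattice, l * u ∈ L.lattice) (hH : IsHalf L l H) (w : ℂ)
    (hw2 : 2 * w ∈ L.lattice) (hw : w ∉ L.lattice) (z : ℂ) (hz : l * z ∉ L.lattice) :
    (xx A B L (l * z) - xx A B L (l * w)) * (Qp A B L l H).eval (xx A B L z) ^ 2 =
        (xx A B L z - xx A B L w) * (Cp A B L w H).eval (xx A B L z) ^ 2 := by
  obtain ⟨hR, hd, -⟩ := h2 L l H hl hL hH
  have hlw : l * w ∉ L.lattice := by
    intro h3
    obtain ⟨q, hq, h4 | h4⟩ := hH.surj w h3 hw
    · apply hH.ne q hq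
      have h5 : 2 * q = 2 * w - (w - q) - (w - q) := by ring
      rw [h5]
      exact sub_mem (sub_mem hw2 h4) h4
    · apply hH.ne q hq
      have h5 : 2 * q = (w + q) + (w + q) - 2 * w := by ring
      rw [h5]
      exact sub_mem (add_mem h4 h4) hw2
  have h3 := h1 L l _ w hl hL hR hlw z hz
  rw [Finset.prod_union hd, Finset.prod_union hd,
    Finset.prod_image (fun a _ b _ hab => neg_injective hab),
    Finset.prod_image (fun a _ b _ hab => neg_injective hab)] at h3
  have h4 : ∏ x ∈ H, (L.weierstrassP z - L.weierstrassP (-x)) =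
      ∏ x ∈ H, (L.weierstrassP z - L.weierstrassP x) := by
    refine Finset.prod_congr rfl fun q _ => ?_
    rw [L.weierstrassP_neg]
  have h5 : ∏ x ∈ H, (L.weierstrassP z - L.weierstrassP (w + -x)) =
      ∏ x ∈ H, (L.weierstrassP z - L.weierstrassP (w + x)) := by
    refine Finset.prod_congr rfl fun q _ => ?_
    have h6 : L.weierstrassP (w + -q) = L.weierstrassP (w + q) := by
      apply wp_congr'
      have h7 : w + -q + (w + q) = 2 * w := by ring
      rwa [h7]
    rw [h6]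
  rw [h4, h5] at h3
  rw [ev_Q, ev_C]
  unfold xx
  linear_combination h3

end POL

open _root_.Pool.Agent.MU3V.POL

theorem tv_POL (h1 : Sa_PFG) (h2 : St_HRE) (h3 : St_SUR) : Sv_POL := by
  intro A B L l H hl hL hH
  refine ⟨?_, fun w hw2 hw z hz => key h1 h2 A B L l H hl hL hH w hw2 hw z hz⟩
  intro w₁ w₂ hw1 hw1' hw2 hw2'
  refine Polynomial.eq_of_infinite_eval_eq _ _ ?_
  have hfin : ((↑(H.image (xx A B L)) : Set ℂ)ᶜ).Infinite :=
    (Finset.finite_toSet _).infinite_compl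
  refine hfin.mono ?_
  intro x hx
  obtain ⟨z, hz, hzx⟩ := h3 L (x + emb (a2 A B) / 3)
  have hx' : xx A B L z = x := by
    unfold xx
    rw [hzx]
    ring
  have hlz : l * z ∉ L.lattice := by
    intro h4
    apply hx
    obtain ⟨q, hq, h5⟩ := hH.surj z h4 hz
    rw [Finset.mem_coe, Finset.mem_image]
    refine ⟨q, hq, ?_⟩
    rw [← hx']
    unfold xx
    rcases h5 with h5 | h5
    · rw [wp_congr L h5]
    · rw [wp_congr' L h5]
  have e1 := key h1 h2 A B L l H hl hL hH w₁ hw1 hw1' z hlz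
  have e2 := key h1 h2 A B L l H hl hL hH w₂ hw2 hw2' z hlz
  rw [hx'] at e1 e2
  show Polynomial.eval x _ = Polynomial.eval x _
  simp only [eval_mul, eval_sub, eval_pow, eval_C, eval_X]
  linear_combination e1 - e2

end Pool.Agent.MU3V


end
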