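import Mathlib
import Pool.Agent.MVF.C006
import Pool.Agent.MVF.C013
import Pool.Agent.MVF.C017

/-! Parts: MU3.V_INJ, MU3.V_CYCL, MU3.A_V3, MU3.A_OMU, MU3.A_ACT, MU3.A_NEG, MU3.A_N8P, MU3.A_M8, MU3.A_EX, MU3.A_EQN, MU3.A_DENSF, MU3.A_ALG -/

namespace Pool.Agent.MU3A.Alg
end Pool.Agent.MU3A.Alg
namespace Pool.Agent.MU3A.DENSF
end Pool.Agent.MU3A.DENSF

section

/-!
# MU3, block V, module INJ: `E[lam]` meets the kernel of reduction trivially where `lam` is a unit
-/

set_option autoImplicit false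

open WeierstrassCurve Polynomial NumberField IsDedekindDomain

namespace Pool.Agent.MU3V

open _root_.MU3 _root_.Pool.Agent.MU3A _root_.Pool.Agent.MU3B

noncomputable section

theorem tv_INJ (hCY : Sv_CYCL) (hR4 : Sv_R4) (hCA : Sv_CARD) : Sv_INJ := by
  intro A B L Om ξ hcase hcm hxi V h2 lam q hq hnm hlam u hu hE
  by_contra huL
  obtain ⟨c1, c2, c3⟩ := hCY A B L Om hcase hcm lam q hq hnm
  have hqle : V.valuation (q : ℂ) ≤ 1 :=
    (ValuationSubring.valuation_le_one_iff _ _).2 (natCast_mem V q)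
  rcases eq_or_lt_of_le hqle with hq1 | hq1
  · exact huL (mem_of_nat_mul hcase h2 hxi hE hq1 (c2 u hu))
  · have hq2 : q ≠ 2 := by
      rintro rfl
      rw [Nat.cast_ofNat, h2] at hq1
      exact lt_irrefl _ hq1
    obtain ⟨H, hH⟩ := c3 hq2
    have hlam0 : lam ≠ 0 := by
      rintro rfl
      rw [emb_zero hcase, map_zero] at hlam
      exact zero_ne_one hlam
    have hcard := hCA A B L Om hcase hcm lam q hnm hlam0 H hH
    have hall : ∀ u', emb lam * u' ∈ L.lattice → InE1 A B V L u' := by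
      intro u' hu'
      obtain ⟨m, hm⟩ := c1 u' u hu' hu huL
      exact (inE1_congr hcase h2 hxi (inE1_of_mem hm)).2 (inE1_int hcase h2 hxi hE m)
    obtain ⟨r1, -, -⟩ := hR4 A B L Om ξ hcase hcm hxi V h2 lam q hq hq1 hlam0 H hH hcard hall
    rw [hlam, one_mul] at r1
    have hne : H.Nonempty := by
      rw [← Finset.card_pos]
      rcases Nat.eq_zero_or_pos H.card with h0 | h0
      · rw [h0] at hcard
        exact absurd hcard.symm hq.ne_one
      · exact h0
    have hgt : ∀ p ∈ H, 1 < V.valuation (xx A B L p) := by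
      intro p hp
      have hpL : p ∉ L.lattice := by
        intro hpL
        apply hH.ne p hp
        rw [two_mul]
        exact add_mem hpL hpL
      rcases hall p (hH.mem p hp) with h3 | h3
      · exact absurd h3 hpL
      · rw [← not_le, ValuationSubring.valuation_le_one_iff]
        exact h3
    have hprod : 1 < ∏ p ∈ H, V.valuation (xx A B L p) := by
      refine Finset.prod_induction_nonempty (fun p => V.valuation (xx A B L p)) (fun a => 1 < a)
        (fun a b ha hb => ?_) hne hgt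
      exact lt_trans ha (lt_mul_of_one_lt_right (lt_trans zero_lt_one ha) hb)
    rw [r1] at hprod
    exact lt_irrefl _ hprod

end

end Pool.Agent.MU3V


end

section

/-!
# MU3, block V: module CYCL, `E[lam]` is cyclic of order `q`; half systems exist
-/

set_option autoImplicit false

open WeierstrassCurve Polynomial NumberField IsDedekindDomain

namespace Pool.Agent.MU3V

open _root_.MU3 _root_.Pool.Agent.MU3A _root_.Pool.Agent.MU3B

theorem tv_CYCL (hDEG : Sv_DEG1) (hHAL : St_HAL) : Sv_CYCL := by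
  intro A B L Om hc hL lam q hq hn
  have hlam : lam ≠ 0 := by
    rintro rfl
    have : (q : ℤ) = 0 := by
      rw [← hn]
      simp [nm]
    exact hq.ne_zero (by exact_mod_cast this)
  obtain ⟨hd1, hd2, hd3⟩ := hDEG A B hc lam q hq hn
  have e0 := emb_ne_zero hc hlam
  have horder : ∀ u : ℂ, emb lam * u ∈ L.lattice → q * u ∈ L.lattice := by
    intro u hu
    obtain ⟨x, rfl⟩ := (hL.toIsLat.torsion_iff hc hlam u).1 hu
    have h1 : (q : ℂ) * (emb x * (Om / emb lam)) = emb ((q : OO A B) * x) * (Om / emb lam) := by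
      rw [emb_mul hc, emb_natCast hc, mul_assoc]
    rw [h1, hL.toIsLat.mul_div_mem_iff hc hlam]
    exact Dvd.dvd.mul_right hd2 x
  refine ⟨?_, horder, ?_⟩
  · intro u u₁ hu hu₁ hn1
    obtain ⟨x, rfl⟩ := (hL.toIsLat.torsion_iff hc hlam u).1 hu
    obtain ⟨x₁, rfl⟩ := (hL.toIsLat.torsion_iff hc hlam u₁).1 hu₁
    rw [hL.toIsLat.mul_div_mem_iff hc hlam] at hn1
    obtain ⟨n, hn⟩ := hd1 x
    obtain ⟨n₁, hn₁⟩ := hd1 x₁
    have hqn : ¬ (q : ℤ) ∣ n₁ := by
      rintro ⟨t, rfl⟩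
      apply hn1
      have h1 : x₁ = (x₁ - ((q * t : ℤ) : OO A B)) + (q : OO A B) * (t : OO A B) := by
        push_cast
        ring
      rw [h1]
      exact dvd_add hn₁ (Dvd.dvd.mul_right hd2 _)
    have hcop : IsCoprime n₁ (q : ℤ) :=
      ((Nat.prime_iff_prime_int.1 hq).coprime_iff_not_dvd.2 hqn).symm
    obtain ⟨r, s, hrs⟩ := hcop
    refine ⟨n * r, ?_⟩
    have h2 : emb x * (Om / emb lam) - ((n * r : ℤ) : ℂ) * (emb x₁ * (Om / emb lam)) =
        emb (x - ((n * r : ℤ) : OO A B) * x₁) * (Om / emb lam) := by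
      rw [emb_sub hc, emb_mul hc, emb_intCast hc]
      ring
    rw [h2, hL.toIsLat.mul_div_mem_iff hc hlam]
    have h3 : x - ((n * r : ℤ) : OO A B) * x₁ = (x - (n : OO A B)) -
        ((n * r : ℤ) : OO A B) * (x₁ - (n₁ : OO A B)) + (q : OO A B) * ((n * s : ℤ) : OO A B) := by
      have h4 := congrArg (Int.cast : ℤ → OO A B) hrs
      push_cast at h4 ⊢
      linear_combination (-(n : OO A B)) * h4
    rw [h3]
    exact dvd_add (dvd_sub hn (Dvd.dvd.mul_left hn₁ _)) (Dvd.dvd.mul_right hd2 _)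
  · intro hq2
    refine hHAL L (emb lam) e0 (fun w hw => hL.toIsLat.emb_mul_mem hc lam hw) ?_
    intro z hz h2z
    obtain ⟨k, hk⟩ := hq.odd_of_ne_two hq2
    have h1 := horder z hz
    have h3 : z = q * z - k • (2 * z) := by
      rw [hk, nsmul_eq_mul]
      push_cast
      ring
    rw [h3]
    exact sub_mem h1 (nsmul_mem h2z k)

end Pool.Agent.MU3V


end

section

/-!
# MU3, block A, module V3: elementary facts on valuation rings above `ppi`
-/

set_option autoImplicit false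

namespace Pool.Agent.MU3A

open _root_.MU3 _root_.Pool.Agent.MU3B Polynomial NumberField

theorem ta_V3 : Sa_V3 := by
  intro A B h V hp
  rw [ValuationSubring.mem_nonunits_iff] at hp
  have hint : ∀ n : ℤ, V.valuation (n : ℂ) ≤ 1 := fun n =>
    (V.valuation_le_one_iff _).2 (intCast_mem V n)
  have hw : wC A B ∈ V := by
    rw [← V.valuation_le_one_iff]
    by_contra hcon
    rw [not_le] at hcon
    have h1 := congrArg V.valuation (wC_sq h)
    rw [map_mul] at h1
    have h2 : V.valuation ((A : ℂ) + (B : ℂ) * wC A B) ≤ V.valuation (wC A B) := by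
      refine (V.valuation.map_add _ _).trans (max_le ((hint A).trans hcon.le) ?_)
      rw [map_mul]
      exact mul_le_of_le_one_left' (hint B)
    rw [← h1] at h2
    have h0 : 0 < V.valuation (wC A B) := lt_trans zero_lt_one hcon
    have h3 : V.valuation (wC A B) * 1 < V.valuation (wC A B) * V.valuation (wC A B) := by
      exact (mul_lt_mul_iff_right₀ h0).2 hcon
    rw [mul_one] at h3
    exact absurd h2 (not_le.2 h3)
  have hO : ∀ x : OO A B, emb x ∈ V := fun x =>
    add_mem (intCast_mem V _) (mul_mem (intCast_mem V _) hw)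
  have hO' : ∀ x : OO A B, V.valuation (emb x) ≤ 1 := fun x =>
    (V.valuation_le_one_iff _).2 (hO x)
  have hdiv : ∀ x : OO A B, ppi A B ∣ x → V.valuation (emb x) < 1 := by
    rintro x ⟨y, rfl⟩
    rw [emb_mul h, map_mul]
    exact mul_lt_one_of_lt_of_le hp (hO' y)
  have h3O : ppi A B ∣ (3 : OO A B) := by
    refine ⟨⟨1, -1⟩, ?_⟩
    rcases h with ⟨rfl, rfl⟩ | ⟨rfl, rfl⟩
    · ext
      · simp [ppi]
        rfl
      · simp [ppi]
        rfl
    · ext
      · simp [ppi]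
        rfl
      · simp [ppi]
        rfl
  have h3 : V.valuation (3 : ℂ) < 1 := by
    have h1 := hdiv 3 h3O
    have h2 : emb (3 : OO A B) = 3 := by simpa using emb_natCast h 3
    rwa [h2] at h1
  refine ⟨hO, ?_, ?_, ?_⟩
  · rw [ValuationSubring.mem_nonunits_iff]
    exact h3
  · intro x hx hcon
    rw [ValuationSubring.mem_nonunits_iff] at hcon
    obtain ⟨r, hr⟩ : ∃ r : ℤ, r = x.re - (1 - B) * x.im := ⟨_, rfl⟩
    have hxr : x = (r : OO A B) + (x.im : OO A B) * ppi A B := by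
      ext
      · simp [ppi]
        rw [hr]
        ring
      · simp [ppi]
    have hrv : V.valuation (r : ℂ) < 1 := by
      have h1 : (r : ℂ) = emb x - (x.im : ℂ) * emb (ppi A B) := by
        have h2 := congrArg emb hxr
        rw [emb_add h, emb_mul h, emb_intCast h, emb_intCast h] at h2
        rw [h2]
        ring
      rw [h1]
      refine (V.valuation.map_sub _ _).trans_lt (max_lt hcon ?_)
      rw [map_mul]
      rw [mul_comm]
      exact mul_lt_one_of_lt_of_le hp (hint _)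
    by_cases h3r : (3 : ℤ) ∣ r
    · apply hx
      obtain ⟨s, hs⟩ := h3r
      rw [hxr, hs]
      refine dvd_add ?_ (dvd_mul_left _ _)
      push_cast
      exact h3O.mul_right _
    · have hco : IsCoprime (3 : ℤ) r :=
        (Prime.coprime_iff_not_dvd Int.prime_three).2 h3r
      obtain ⟨u, v, huv⟩ := hco
      have h1 : (1 : ℂ) = (u : ℂ) * 3 + (v : ℂ) * (r : ℂ) := by exact_mod_cast huv.symm
      have h2 : V.valuation (1 : ℂ) < 1 := by
        rw [h1]
        refine (V.valuation.map_add _ _).trans_lt (max_lt ?_ ?_)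
        · rw [map_mul]
          rw [mul_comm]
          exact mul_lt_one_of_lt_of_le h3 (hint _)
        · rw [map_mul]
          rw [mul_comm]
          exact mul_lt_one_of_lt_of_le hrv (hint _)
      rw [map_one] at h2
      exact lt_irrefl _ h2
  · intro x hx
    rw [ValuationSubring.mem_nonunits_iff]
    exact hdiv x hx

end Pool.Agent.MU3A


end

section

/-!
# MU3, OMU (helper69): multiplication by `w` is given by rational functions over `k`
-/

set_option autoImplicit false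

open _root_.MU3 _root_.Pool.Agent.MU3B Polynomial

namespace Pool.Agent.MU3A

namespace OMU

theorem aev {A B : ℤ} (x : ℂ) (c : OO A B) : aeval x (C (ek c) : (kk A B)[X]) = emb c := by
  rw [aeval_C]
  rfl

theorem iso {A B : ℤ} (L : PeriodPair) (lam d0 n2 n1 n0 m2 m1 m0 : OO A B)
    (h : Iso3 L lam d0 n2 n1 n0 m2 m1 m0) (z : ℂ) (hz : z ∉ L.lattice) :
    (emb lam * z ∈ L.lattice →
      aeval (xx A B L z) ((C (ek lam) * X + C (ek d0)) ^ 2 : (kk A B)[X]) = 0) ∧
    (emb lam * z ∉ L.lattice →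
      aeval (xx A B L z) ((C (ek lam) * X + C (ek d0)) ^ 2 : (kk A B)[X]) ≠ 0 ∧
      aeval (xx A B L z) ((C (ek lam) * X + C (ek d0)) ^ 3 : (kk A B)[X]) ≠ 0 ∧
      xx A B L (emb lam * z) *
        aeval (xx A B L z) ((C (ek lam) * X + C (ek d0)) ^ 2 : (kk A B)[X]) =
        aeval (xx A B L z)
          (X ^ 3 + C (ek n2) * X ^ 2 + C (ek n1) * X + C (ek n0) : (kk A B)[X]) ∧
      yy L (emb lam * z) *
        aeval (xx A B L z) ((C (ek lam) * X + C (ek d0)) ^ 3 : (kk A B)[X]) =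
        yy L z * aeval (xx A B L z)
          (X ^ 3 + C (ek m2) * X ^ 2 + C (ek m1) * X + C (ek m0) : (kk A B)[X])) := by
  simp only [map_add, map_mul, map_pow, aev, aeval_X]
  constructor
  · intro h1
    rw [(h.ker z hz).1 h1]
    ring
  · intro h1
    have h2 : emb lam * xx A B L z + emb d0 ≠ 0 := fun h3 => h1 ((h.ker z hz).2 h3)
    exact ⟨pow_ne_zero 2 h2, pow_ne_zero 3 h2, h.x z h1, h.y z h1⟩

end OMU

theorem ta_OMU (h1 : Sa_N8) (h2 : Sa_N11) : Sa_OMU := by
  intro A B hc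
  rcases hc with ⟨rfl, rfl⟩ | ⟨rfl, rfl⟩
  · refine ⟨C (ek 2) * X, -(X ^ 2 + C (ek 4) * X + C (ek 2)),
      C (ek 2) * C (ek ⟨0, 1⟩) * X ^ 2, -(X ^ 2 - C (ek 2)), ?_⟩
    intro L Om hL z hz
    have hc : Case (-2) 0 := Or.inl ⟨rfl, rfl⟩
    obtain ⟨h3, h4⟩ := h1 L Om hL
    have e2 : emb (2 : OO (-2) 0) = 2 := by
      have := emb_natCast hc 2
      simpa using this
    have e4 : emb (4 : OO (-2) 0) = 4 := by
      have := emb_natCast hc 4
      simpa using this
    simp only [map_add, map_sub, map_neg, map_mul, map_pow, OMU.aev, aeval_X, emb_w, e2, e4]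
    constructor
    · intro h5
      rw [(h3 z hz).1 h5]
      ring
    · intro h5
      have h6 : xx (-2) 0 L z ≠ 0 := fun h7 => h5 ((h3 z hz).2 h7)
      have h7 : wC (-2) 0 ≠ 0 := wC_ne_zero hc
      obtain ⟨h8, h9⟩ := h4 z h5
      refine ⟨mul_ne_zero two_ne_zero h6,
        mul_ne_zero (mul_ne_zero two_ne_zero h7) (pow_ne_zero 2 h6), h8, ?_⟩
      rw [h9]
      ring
  · refine ⟨(C (ek ⟨0, 1⟩) * X + C (ek (-1))) ^ 2,
      X ^ 3 + C (ek ⟨0, 3⟩) * X ^ 2 + C (ek ⟨-6, 1⟩) * X + C (ek ⟨0, -1⟩),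
      (C (ek ⟨0, 1⟩) * X + C (ek (-1))) ^ 3,
      X ^ 3 + C (ek ⟨-1, 1⟩) * X ^ 2 + C (ek ⟨0, -1⟩) * X + C (ek 1), ?_⟩
    intro L Om hL z hz
    have h3 := OMU.iso L _ _ _ _ _ _ _ _ (h2 L Om hL) z hz
    rw [emb_w] at h3
    exact h3

end Pool.Agent.MU3A


end

section

/-!
# MU3, block A: module ACT (formal properties of `Act`)
-/

set_option autoImplicit false

namespace Pool.Agent.MU3A

open _root_.MU3 _root_.Pool.Agent.MU3B Polynomial NumberField

noncomputable section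

variable {A B : ℤ} {L : PeriodPair} {Om : ℂ}

lemma xF_of {m : OO A B} {F : IntermediateField (kk A B) ℂ} (hF : TF L m ≤ F) {z : ℂ}
    (h1 : emb m * z ∈ L.lattice) (h2 : z ∉ L.lattice) : xx A B L z ∈ F :=
  hF (IntermediateField.subset_adjoin _ _ ⟨z, h1, h2, Or.inl rfl⟩)

lemma yF_of {m : OO A B} {F : IntermediateField (kk A B) ℂ} (hF : TF L m ≤ F) {z : ℂ}
    (h1 : emb m * z ∈ L.lattice) (h2 : z ∉ L.lattice) : yy L z ∈ F :=
  hF (IntermediateField.subset_adjoin _ _ ⟨z, h1, h2, Or.inr rfl⟩)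

/-- (4) composition -/
lemma act_mul (h : Case A B) (hL : IsCM A B L Om) {m : OO A B}
    (F : IntermediateField (kk A B) ℂ) (σ τ : F ≃ₐ[kk A B] F) (a b : OO A B) (hF : TF L m ≤ F)
    (ha : Act L (em σ) m a) (hb : Act L (em τ) m b) : Act L (em (σ * τ)) m (a * b) := by
  refine ⟨ha.1.mul_left hb.1, fun z hz hzL => ?_⟩
  obtain ⟨b1, b2, b3⟩ := hb.2 z hz hzL
  have hbz : emb m * (emb b * z) ∈ L.lattice := by
    rw [mul_left_comm]; exact hL.emb_mul_mem h b hz
  obtain ⟨a1, a2, a3⟩ := ha.2 _ hbz b1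
  have e : emb (a * b) * z = emb a * (emb b * z) := by rw [emb_mul h]; ring
  rw [e]
  refine ⟨a1, fun hx => ?_, fun hy => ?_⟩
  · have e1 : (em (σ * τ)) ⟨xx A B L z, hx⟩ = em σ (τ ⟨xx A B L z, hx⟩) := rfl
    have e2 : τ ⟨xx A B L z, hx⟩ = ⟨xx A B L (emb b * z), xF_of hF hbz b1⟩ :=
      Subtype.ext (b2 hx)
    rw [e1, e2, a2]
  · have e1 : (em (σ * τ)) ⟨yy L z, hy⟩ = em σ (τ ⟨yy L z, hy⟩) := rfl
    have e2 : τ ⟨yy L z, hy⟩ = ⟨yy L (emb b * z), yF_of hF hbz b1⟩ :=
      Subtype.ext (b3 hy)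
    rw [e1, e2, a3]

/-- (5) uniqueness of `σ` -/
lemma act_ext {m : OO A B} {σ τ : TF L m →ₐ[kk A B] ℂ} {a : OO A B}
    (hσ : Act L σ m a) (hτ : Act L τ m a) : σ = τ := by
  refine AlgHom.ext fun x => ?_
  obtain ⟨x, hx⟩ := x
  refine IntermediateField.adjoin_induction (F := kk A B)
    (p := fun x hx => σ ⟨x, hx⟩ = τ ⟨x, hx⟩) ?_ ?_ ?_ ?_ ?_ hx
  · rintro x ⟨z, hz, hzL, rfl | rfl⟩
    · rw [(hσ.2 z hz hzL).2.1, (hτ.2 z hz hzL).2.1]
    · rw [(hσ.2 z hz hzL).2.2, (hτ.2 z hz hzL).2.2]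
  · intro r
    exact (σ.commutes r).trans (τ.commutes r).symm
  · intro x y hx hy h1 h2
    have e : (⟨x + y, add_mem hx hy⟩ : TF L m) = ⟨x, hx⟩ + ⟨y, hy⟩ := rfl
    rw [e, map_add, map_add, h1, h2]
  · intro x hx h1
    have e : (⟨x⁻¹, inv_mem hx⟩ : TF L m) = (⟨x, hx⟩)⁻¹ := rfl
    rw [e, map_inv₀, map_inv₀, h1]
  · intro x y hx hy h1 h2
    have e : (⟨x * y, mul_mem hx hy⟩ : TF L m) = ⟨x, hx⟩ * ⟨y, hy⟩ := rfl
    rw [e, map_mul, map_mul, h1, h2]

theorem ta_ACT (hE : Sa_EQN) (hG : Sa_GAL) : Sa_ACT := by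
  intro A B L Om h hL m hm
  obtain ⟨q1, q2, q3, q4, q5, q6, q7, q8, q9⟩ := hE A B L Om h hL
  have act1 : ∀ (F : IntermediateField (kk A B) ℂ) (σ : F →ₐ[kk A B] ℂ) (a b : OO A B),
      TF L m ≤ F → Act L σ m a → Act L σ m b → m ∣ a - b := by
    intro F σ a b hF ha hb
    by_cases hz : Om / emb m ∈ L.lattice
    · have h1 : m ∣ 1 := (hL.mul_div_mem_iff h hm 1).1 (by rw [emb_one h, one_mul]; exact hz)
      exact h1.trans (one_dvd _)
    · have hz' : emb m * (Om / emb m) ∈ L.lattice :=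
        (hL.torsion_iff h hm _).2 ⟨1, by rw [emb_one h]; ring⟩
      obtain ⟨a1, a2, a3⟩ := ha.2 _ hz' hz
      obtain ⟨b1, b2, b3⟩ := hb.2 _ hz' hz
      have e1 := (a2 (xF_of hF hz' hz)).symm.trans (b2 (xF_of hF hz' hz))
      have e2 := (a3 (yF_of hF hz' hz)).symm.trans (b3 (yF_of hF hz' hz))
      have := q6 _ _ a1 b1 e1 e2
      rw [← sub_mul, ← emb_sub h, hL.mul_div_mem_iff h hm] at this
      exact this
  refine ⟨act1, ?_, ?_, fun F σ τ a b => act_mul h hL F σ τ a b, fun σ τ a => act_ext, ?_, ?_, ?_⟩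
  · intro F σ a b hab ha
    have e : b = a - m * (Classical.choose hab) := by
      have := Classical.choose_spec hab
      rw [← this]; ring
    refine ⟨?_, fun z hz hzL => ?_⟩
    · rw [e, sub_eq_add_neg, ← mul_neg]
      exact ha.1.add_mul_left_left _
    · obtain ⟨a1, a2, a3⟩ := ha.2 z hz hzL
      obtain ⟨c, hc⟩ := hab
      have hmem : -(emb c * (emb m * z)) ∈ L.lattice := neg_mem (hL.emb_mul_mem h c hz)
      have e2 : emb b * z = emb a * z + -(emb c * (emb m * z)) := by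
        have := congrArg emb hc
        rw [emb_sub h, emb_mul h] at this
        linear_combination -z * this
      rw [e2, (q4 _ _ hmem).1, (q4 _ _ hmem).2]
      refine ⟨fun hc' => a1 ?_, a2, a3⟩
      have := sub_mem hc' hmem
      simpa using this
  · intro F σ a m' hmm ha
    obtain ⟨c, rfl⟩ := hmm
    refine ⟨ha.1.of_mul_right_left, fun z hz hzL => ha.2 z ?_ hzL⟩
    rw [emb_mul h, mul_comm (emb m'), mul_assoc]
    exact hL.emb_mul_mem h c hz
  · intro σ τ
    obtain ⟨a, ha⟩ := hG A B L Om h hL m hm (TF L m) le_rfl (em σ)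
    obtain ⟨b, hb⟩ := hG A B L Om h hL m hm (TF L m) le_rfl (em τ)
    have h1 := act_mul h hL (TF L m) σ τ a b le_rfl ha hb
    have h2 := act_mul h hL (TF L m) τ σ b a le_rfl hb ha
    rw [mul_comm b a] at h2
    have h3 := act_ext h1 h2
    refine AlgEquiv.ext fun x => Subtype.ext ?_
    exact DFunLike.congr_fun h3 x
  · intro F hF
    refine ⟨isCoprime_one_left, fun z hz hzL => ?_⟩
    rw [emb_one h, one_mul]
    exact ⟨hzL, fun hx => rfl, fun hy => rfl⟩
  · intro F F' hFF σ a ha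
    refine ⟨ha.1, fun z hz hzL => ?_⟩
    obtain ⟨a1, a2, a3⟩ := ha.2 z hz hzL
    exact ⟨a1, fun hx => a2 (hFF hx), fun hy => a3 (hFF hy)⟩

end

end Pool.Agent.MU3A


end

section

/-!
# MU3, block A: module NEG (`-1` is not in the Galois group)
-/

set_option autoImplicit false

namespace Pool.Agent.MU3A

open _root_.MU3 _root_.Pool.Agent.MU3B Polynomial NumberField

noncomputable section

variable {A B : ℤ} {L : PeriodPair} {Om : ℂ}

/-- an embedding acting as `-1` on `E[m]` fixes `XF L m` -/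
lemma fix_XF {m : OO A B} {F : IntermediateField (kk A B) ℂ} (hq : ∀ z, xx A B L (-z) = xx A B L z)
    (h : Case A B) {σ : F →ₐ[kk A B] ℂ} (hσ : Act L σ m (-1)) (hF : TF L m ≤ F) {x : ℂ}
    (hx : x ∈ XF L m) : ∃ hx' : x ∈ F, σ ⟨x, hx'⟩ = x := by
  refine IntermediateField.adjoin_induction (F := kk A B)
    (p := fun x _ => ∃ hx' : x ∈ F, σ ⟨x, hx'⟩ = x) ?_ ?_ ?_ ?_ ?_ hx
  · rintro x ⟨z, hz, hzL, rfl⟩
    refine ⟨xF_of hF hz hzL, ?_⟩
    rw [(hσ.2 z hz hzL).2.1, emb_neg h, emb_one h, neg_one_mul, hq]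
  · intro r
    exact ⟨F.algebraMap_mem r, σ.commutes r⟩
  · rintro x y - - ⟨hx, h1⟩ ⟨hy, h2⟩
    refine ⟨add_mem hx hy, ?_⟩
    have e : (⟨x + y, add_mem hx hy⟩ : F) = ⟨x, hx⟩ + ⟨y, hy⟩ := rfl
    rw [e, map_add, h1, h2]
  · rintro x - ⟨hx, h1⟩
    refine ⟨inv_mem hx, ?_⟩
    have e : (⟨x⁻¹, inv_mem hx⟩ : F) = (⟨x, hx⟩)⁻¹ := rfl
    rw [e, map_inv₀, h1]
  · rintro x y - - ⟨hx, h1⟩ ⟨hy, h2⟩
    refine ⟨mul_mem hx hy, ?_⟩
    have e : (⟨x * y, mul_mem hx hy⟩ : F) = ⟨x, hx⟩ * ⟨y, hy⟩ := rfl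
    rw [e, map_mul, h1, h2]

/-- a point `z₀` with `y(z₀)` in the `x`-field, not of order two -/
lemma exists_pt (h8 : Sa_M8) (h11 : Sa_M11) (h : Case A B) (hL : IsCM A B L Om) :
    ∃ z, emb (mz A B) * z ∈ L.lattice ∧ 2 * z ∉ L.lattice ∧ z ∉ L.lattice ∧
      yy L z ∈ XF L (mz A B) := by
  have hw := wC_sq h
  have hw0 := wC_ne_zero h
  have hO := hL.Om_ne
  rcases h with ⟨rfl, rfl⟩ | ⟨rfl, rfl⟩
  · have hc : Case (-2) 0 := Or.inl ⟨rfl, rfl⟩
    have hm : mz (-2) 0 = ⟨0, 4⟩ := by simp [mz]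
    have hw2 : wC (-2) 0 ^ 2 = -2 := by rw [sq, hw]; push_cast; ring
    have hw4 : wC (-2) 0 ^ 4 = 4 := by
      have : wC (-2) 0 ^ 4 = (wC (-2) 0 ^ 2) ^ 2 := by ring
      rw [this, hw2]; norm_num
    have hw5 : wC (-2) 0 ^ 5 = 4 * wC (-2) 0 := by
      have : wC (-2) 0 ^ 5 = wC (-2) 0 ^ 4 * wC (-2) 0 := by ring
      rw [this, hw4]
    have he : emb (⟨0, 4⟩ : OO (-2) 0) = 4 * wC (-2) 0 := by simp [emb]
    have hne : (⟨0, 4⟩ : OO (-2) 0) ≠ 0 := fun h0 => by
      have := congrArg QuadraticAlgebra.im h0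
      simp at this
    have h1 : Om / wC (-2) 0 ^ 5 = Om / emb (⟨0, 4⟩ : OO (-2) 0) := by rw [he, hw5]
    have nd : ∀ x : OO (-2) 0, x.re = 2 ∨ x.re = 1 → x.im = 0 → ¬ (⟨0, 4⟩ : OO (-2) 0) ∣ x := by
      rintro x hx - ⟨y, rfl⟩
      simp only [QuadraticAlgebra.re_mul] at hx
      omega
    refine ⟨Om / wC (-2) 0 ^ 5, ?_, ?_, ?_, by rw [hm]; exact h8 L Om hL⟩
    · rw [hm, h1]
      exact (hL.torsion_iff hc hne _).2 ⟨1, by rw [emb_one hc]; ring⟩
    · rw [h1]
      have e : (2 : ℂ) * (Om / emb (⟨0, 4⟩ : OO (-2) 0)) =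
          emb (2 : OO (-2) 0) * (Om / emb (⟨0, 4⟩ : OO (-2) 0)) := by
        congr 1
        have := emb_natCast hc 2
        simpa using this.symm
      rw [e, hL.mul_div_mem_iff hc hne]
      exact nd _ (Or.inl rfl) rfl
    · rw [h1]
      have e : (Om / emb (⟨0, 4⟩ : OO (-2) 0)) =
          emb (1 : OO (-2) 0) * (Om / emb (⟨0, 4⟩ : OO (-2) 0)) := by rw [emb_one hc, one_mul]
      rw [e, hL.mul_div_mem_iff hc hne]
      exact nd _ (Or.inr rfl) rfl
  · have hc : Case (-3) 1 := Or.inr ⟨rfl, rfl⟩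
    have hm : mz (-3) 1 = 4 := by simp [mz]
    have he : emb (4 : OO (-3) 1) = 4 := by
      have := emb_natCast hc 4
      simpa using this
    have hne : (4 : OO (-3) 1) ≠ 0 := fun h0 => by
      have h1 := congrArg emb h0
      rw [he, emb_zero hc] at h1
      norm_num at h1
    have h1 : Om / 4 = Om / emb (4 : OO (-3) 1) := by rw [he]
    have nd : ∀ x : OO (-3) 1, x.re = 2 ∨ x.re = 1 → ¬ (4 : OO (-3) 1) ∣ x := by
      rintro x hx ⟨y, rfl⟩
      have e4 : (4 : OO (-3) 1) * y = (4 : ℤ) • y := by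
        rw [zsmul_eq_mul]; norm_num
      rw [e4] at hx
      simp only [QuadraticAlgebra.re_smul, smul_eq_mul] at hx
      omega
    refine ⟨Om / 4, ?_, ?_, ?_, by rw [hm]; exact h11 L Om hL⟩
    · rw [hm, h1]
      exact (hL.torsion_iff hc hne _).2 ⟨1, by rw [emb_one hc]; ring⟩
    · rw [h1]
      have e : (2 : ℂ) * (Om / emb (4 : OO (-3) 1)) =
          emb (2 : OO (-3) 1) * (Om / emb (4 : OO (-3) 1)) := by
        congr 1
        have := emb_natCast hc 2
        simpa using this.symm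
      rw [e, hL.mul_div_mem_iff hc hne]
      exact nd _ (Or.inl rfl)
    · rw [h1]
      have e : (Om / emb (4 : OO (-3) 1)) =
          emb (1 : OO (-3) 1) * (Om / emb (4 : OO (-3) 1)) := by rw [emb_one hc, one_mul]
      rw [e, hL.mul_div_mem_iff hc hne]
      exact nd _ (Or.inr rfl)

theorem ta_NEG (h8 : Sa_M8) (h11 : Sa_M11) (hE : Sa_EQN) (hA : Sa_ACT) (h5 : Sa_S5) : Sa_NEG := by
  intro A B L Om h hL m hm hmz
  obtain ⟨q1, q2, q3, q4, q5, q6, q7, q8, q9⟩ := hE A B L Om h hL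
  obtain ⟨act1, act2, act3, act4, -, -, act7, -⟩ := hA A B L Om h hL m hm
  have hm0 : mz A B ≠ 0 := fun h0 => hm (by rw [h0] at hmz; exact zero_dvd_iff.1 hmz)
  obtain ⟨bct1, bct2, bct3, -⟩ := hA A B L Om h hL (mz A B) hm0
  have neg : ∀ (F : IntermediateField (kk A B) ℂ), TF L m ≤ F → ∀ (σ : F →ₐ[kk A B] ℂ)
      (a : OO A B), m ∣ a + 1 → ¬ Act L σ m a := by
    intro F hF σ a ha hσ
    have h1 := act3 F σ a _ hmz hσ
    have h2 : Act L σ (mz A B) (-1) := bct2 F σ a (-1) (by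
      rw [sub_neg_eq_add]; exact hmz.trans ha) h1
    obtain ⟨z, hz1, hz2, hz3, hz4⟩ := exists_pt h8 h11 h hL
    have hFm : TF L (mz A B) ≤ F := by
      refine le_trans ?_ hF
      refine IntermediateField.adjoin.mono _ _ _ ?_
      rintro c ⟨z, hz, hz', hc⟩
      obtain ⟨d, hd⟩ := hmz
      refine ⟨z, ?_, hz', hc⟩
      rw [hd, emb_mul h, mul_comm (emb (mz A B)), mul_assoc]
      exact hL.emb_mul_mem h d hz
    obtain ⟨hy, hy'⟩ := fix_XF (fun z => (q3 z).1) h h2 hFm hz4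
    have h3 := (h2.2 z hz1 hz3).2.2 hy
    rw [emb_neg h, emb_one h, neg_one_mul, (q3 z).2, hy'] at h3
    have h4 : yy L z = 0 := by linear_combination (1 / 2) * h3
    exact hz2 ((q7 z hz3).1 h4)
  have pw : ∀ (F : IntermediateField (kk A B) ℂ), TF L m ≤ F → ∀ (σ : F ≃ₐ[kk A B] F)
      (a : OO A B) (j : ℕ), Act L (em σ) m a → Act L (em (σ ^ j)) m (a ^ j) := by
    intro F hF σ a j ha
    induction j with
    | zero => simpa using act7 F hF
    | succ j ih => rw [pow_succ, pow_succ]; exact act4 F _ _ _ _ hF ih ha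
  refine ⟨neg, ?_, ?_⟩
  · intro F _ _ hF c hc
    have hfin : ∀ (σ : F ≃ₐ[kk A B] F), ∃ j : ℕ, 0 < j ∧ σ ^ j = 1 := fun σ =>
      ⟨orderOf σ, orderOf_pos σ, pow_orderOf_eq_one σ⟩
    constructor
    · rintro ⟨σ, hσ⟩ ⟨τ, hτ⟩
      obtain ⟨j, hj, hj1⟩ := hfin σ
      -- `σ ^ (j - 1) * τ` acts as `- c ^ j`, and `c ^ j ≡ 1`
      have e1 := pw F hF σ c j hσ
      rw [hj1] at e1
      have e2 : m ∣ 1 - c ^ j := act1 F _ _ _ hF (act7 F hF) e1
      have e3 := act4 F _ _ _ _ hF (pw F hF σ c (j - 1) hσ) hτ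
      refine neg F hF _ _ ?_ e3
      have e4 : c ^ (j - 1) * -c + 1 = 1 - c ^ j := by
        have : c ^ j = c ^ (j - 1) * c := by
          rw [← pow_succ, Nat.sub_add_cancel hj]
        rw [this]; ring
      rw [e4]; exact e2
    · intro hno
      obtain ⟨σ, hσ | hσ⟩ := h5 A B L Om h hL m hm F hF c hc
      · exact ⟨σ, hσ⟩
      · exact absurd ⟨σ, hσ⟩ hno
  · intro F _ _ hF c j hj hcj
    have hc : IsCoprime c m := by
      obtain ⟨d, hd⟩ := hcj
      have hj0 : 0 < j := hj.pos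
      refine ⟨c ^ (j - 1), -d, ?_⟩
      have : c ^ (j - 1) * c = c ^ j := by rw [← pow_succ, Nat.sub_add_cancel hj0]
      rw [this]
      linear_combination hd
    obtain ⟨σ, hσ | hσ⟩ := h5 A B L Om h hL m hm F hF c hc
    · exact ⟨σ, hσ⟩
    · exfalso
      have e1 := pw F hF σ _ j hσ
      rw [hj.neg_pow] at e1
      refine neg F hF _ _ ?_ e1
      have e2 : -c ^ j + 1 = -(c ^ j - 1) := by ring
      rw [e2, dvd_neg]; exact hcj

end

end Pool.Agent.MU3A


end

section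

/-!
# MU3A, N8P: multiplication by `1 + w` and by `1 - w` for `w² = -2`

For `s² = -2` (`s = w` or `s = -w`) everything is deduced from the formulas for `x (s z)`, `y (s z)` and the
addition law. The cases: `s z` in the lattice (then `x z = y z = 0` and `(1 + s) z ≡ z`), `z - s z` in the
lattice (then `3 z` is in the lattice, `(1 + s) z ≡ 2 z ≡ - z`, and `x z = (s - 2) / 3`), generic.
-/

set_option autoImplicit false

namespace Pool.Agent.MU3A

open _root_.MU3 _root_.Pool.Agent.MU3B Polynomial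

noncomputable section

namespace A_N8P

/-- algebra for the generic case -/
theorem alg {s x y X Y : ℂ} (hs : s ^ 2 = -2) (hx0 : x ≠ 0) (hxX : x - X ≠ 0)
    (hX : X * (2 * x) = -(x ^ 2 + 4 * x + 2)) (hY : Y * (2 * s * x ^ 2) = -y * (x ^ 2 - 2))
    (he : y ^ 2 = x ^ 3 + 4 * x ^ 2 + 2 * x) :
    (((y - Y) / (x - X)) ^ 2 - 4 - x - X) * ((1 + s) * x + s) ^ 2 =
        x ^ 3 + (4 - 2 * s) * x ^ 2 + (2 - 4 * s) * x ∧
      (-y - (y - Y) / (x - X) * ((((y - Y) / (x - X)) ^ 2 - 4 - x - X) - x)) *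
          ((1 + s) * x + s) ^ 3 =
        y * (x ^ 3 + (2 + s) * x ^ 2 + (6 + 4 * s) * x + (4 - 2 * s)) := by
  have hs0 : s ≠ 0 := by
    rintro rfl
    norm_num at hs
  have h2x : (2 * x) ≠ 0 := mul_ne_zero two_ne_zero hx0
  have hM1 : (y - Y) / (x - X) * (s * x * ((1 + s) * x + s)) = y * ((s - 1) * x - s) := by
    rw [div_mul_eq_mul_div, div_eq_iff hxX]
    have h2 : 2 * x * ((y - Y) * (s * x * ((1 + s) * x + s)) - y * ((s - 1) * x - s) * (x - X)) =
        0 := by
      linear_combination (-((1 + s) * x + s)) * hY + (y * ((s - 1) * x - s)) * hX +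
        (y * (2 * x ^ 3 + 2 * x ^ 2)) * hs
    exact sub_eq_zero.1 ((mul_eq_zero.1 h2).resolve_left h2x)
  generalize (y - Y) / (x - X) = M at hM1 ⊢
  have hM2 : -2 * x * (M ^ 2 * ((1 + s) * x + s) ^ 2) =
      (x ^ 2 + 4 * x + 2) * ((s - 1) * x - s) ^ 2 := by
    apply mul_left_cancel₀ hx0
    linear_combination (M * (s * x * ((1 + s) * x + s)) + y * ((s - 1) * x - s)) * hM1 -
      (x ^ 2 * M ^ 2 * ((1 + s) * x + s) ^ 2) * hs + (((s - 1) * x - s) ^ 2) * he
  have hA : (M ^ 2 - 4 - x - X) * ((1 + s) * x + s) ^ 2 =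
        x ^ 3 + (4 - 2 * s) * x ^ 2 + (2 - 4 * s) * x := by
    apply mul_left_cancel₀ h2x
    linear_combination -hM2 - (((1 + s) * x + s) ^ 2) * hX -
      (2 * x * (x ^ 3 + 4 * x ^ 2 + x)) * hs
  refine ⟨hA, ?_⟩
  apply mul_left_cancel₀ hs0
  linear_combination (-s * M * ((1 + s) * x + s)) * hA +
    (s * M * ((1 + s) * x + s) * (x ^ 3 + 2 * x ^ 2 + x)) * hs -
    ((2 - 2 * s) * x ^ 2 + (8 - 4 * s) * x + (4 - 4 * s)) * hM1 +
    (y * (x ^ 3 * (-s ^ 2 - 3 * s + 1) + x ^ 2 * (-3 * s ^ 2 - 6 * s + 4) +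
      x * (-3 * s ^ 2 - 3 * s + 2) - s ^ 2)) * hs

/-- the statement for `s² = -2` -/
theorem gen (L : PeriodPair) (s : ℂ) (hs : s ^ 2 = -2) (X Y : ℂ → ℂ)
    (hcl : ∀ z ∈ L.lattice, s * z ∈ L.lattice)
    (h0 : ∀ z, z ∉ L.lattice → (s * z ∈ L.lattice ↔ X z = 0))
    (hx : ∀ z, s * z ∉ L.lattice → X (s * z) * (2 * X z) = -(X z ^ 2 + 4 * X z + 2))
    (hy : ∀ z, s * z ∉ L.lattice → Y (s * z) * (2 * s * X z ^ 2) = -Y z * (X z ^ 2 - 2))
    (heq : ∀ z, z ∉ L.lattice → Y z ^ 2 = X z ^ 3 + 4 * X z ^ 2 + 2 * X z)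
    (hneg : ∀ z, X (-z) = X z ∧ Y (-z) = -Y z)
    (hper : ∀ z, ∀ u ∈ L.lattice, X (z + u) = X z ∧ Y (z + u) = Y z)
    (hinj : ∀ z z', z ∉ L.lattice → z' ∉ L.lattice → X z = X z' →
      z - z' ∈ L.lattice ∨ z + z' ∈ L.lattice)
    (h2 : ∀ z, z ∉ L.lattice → (Y z = 0 ↔ 2 * z ∈ L.lattice))
    (hadd : ∀ z z', z ∉ L.lattice → z' ∉ L.lattice → z + z' ∉ L.lattice → z - z' ∉ L.lattice →
      X (z + z') = ((Y z - Y z') / (X z - X z')) ^ 2 - 4 - X z - X z' ∧
      Y (z + z') = -Y z - (Y z - Y z') / (X z - X z') * (X (z + z') - X z)) :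
    (∀ z, z ∉ L.lattice → ((1 + s) * z ∈ L.lattice ↔ (1 + s) * X z + s = 0)) ∧
    (∀ z, (1 + s) * z ∉ L.lattice → X ((1 + s) * z) * ((1 + s) * X z + s) ^ 2 =
      X z ^ 3 + (4 - 2 * s) * X z ^ 2 + (2 - 4 * s) * X z) ∧
    (∀ z, (1 + s) * z ∉ L.lattice → Y ((1 + s) * z) * ((1 + s) * X z + s) ^ 3 =
      Y z * (X z ^ 3 + (2 + s) * X z ^ 2 + (6 + 4 * s) * X z + (4 - 2 * s))) := by
  -- a point killed by `1 + s` or `1 - s` is killed by `3`
  have hsn : ∀ z, s * z ∉ L.lattice → z ∉ L.lattice := fun z hz h => hz (hcl z h)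
  have h3p : ∀ z, (1 + s) * z ∈ L.lattice → 3 * z ∈ L.lattice := by
    intro z hz
    have h := sub_mem hz (hcl _ hz)
    have e : (1 + s) * z - s * ((1 + s) * z) = 3 * z := by linear_combination (-z) * hs
    rwa [e] at h
  have h3m : ∀ z, (1 - s) * z ∈ L.lattice → 3 * z ∈ L.lattice := by
    intro z hz
    have h := add_mem hz (hcl _ hz)
    have e : (1 - s) * z + s * ((1 - s) * z) = 3 * z := by linear_combination (-z) * hs
    rwa [e] at h
  have h32 : ∀ z, z ∉ L.lattice → 3 * z ∈ L.lattice → 2 * z ∉ L.lattice := by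
    intro z hz h3 h2'
    have h := sub_mem h3 h2'
    have e : 3 * z - 2 * z = z := by ring
    rw [e] at h
    exact hz h
  -- the value of `x` at the points killed by `1 + s`
  have hval : ∀ z, z ∉ L.lattice → (1 + s) * z ∈ L.lattice → X z = (-s - 2) / 3 := by
    intro z hz hz1
    have h3 := h3p z hz1
    have hy0 : Y z ≠ 0 := fun h => h32 z hz h3 ((h2 z hz).1 h)
    have hsz : s * z ∉ L.lattice := by
      intro h
      have h' := sub_mem hz1 h
      have e : (1 + s) * z - s * z = z := by ring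
      rw [e] at h'
      exact hz h'
    have e1 : s * z = -z + (1 + s) * z := by ring
    have eX : X (s * z) = X z := by
      rw [e1, (hper (-z) _ hz1).1, (hneg z).1]
    have eY : Y (s * z) = -Y z := by
      rw [e1, (hper (-z) _ hz1).2, (hneg z).2]
    have q1 := hx z hsz
    have q2 := hy z hsz
    rw [eX] at q1
    rw [eY] at q2
    have q3 : (1 - 2 * s) * X z ^ 2 - 2 = 0 := by
      have h5 : Y z * ((1 - 2 * s) * X z ^ 2 - 2) = 0 := by linear_combination q2
      exact (mul_eq_zero.1 h5).resolve_left hy0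
    linear_combination (1 / 4 : ℂ) * q1 - ((1 + 2 * s) / 12) * q3 - (X z ^ 2 / 3) * hs
  have hvalm : ∀ z, z ∉ L.lattice → s * z ∉ L.lattice → z - s * z ∈ L.lattice →
      2 * z ∉ L.lattice → X z = (s - 2) / 3 := by
    intro z hz hsz hz1 h2z
    have hy0 : Y z ≠ 0 := fun h => h2z ((h2 z hz).1 h)
    have e1 : s * z = z + -(z - s * z) := by ring
    have eX : X (s * z) = X z := by
      rw [e1, (hper z _ (neg_mem hz1)).1]
    have eY : Y (s * z) = Y z := by
      rw [e1, (hper z _ (neg_mem hz1)).2]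
    have q1 := hx z hsz
    have q2 := hy z hsz
    rw [eX] at q1
    rw [eY] at q2
    have q3 : (1 + 2 * s) * X z ^ 2 - 2 = 0 := by
      have h5 : Y z * ((1 + 2 * s) * X z ^ 2 - 2) = 0 := by linear_combination q2
      exact (mul_eq_zero.1 h5).resolve_left hy0
    linear_combination (1 / 4 : ℂ) * q1 - ((1 - 2 * s) / 12) * q3 - (X z ^ 2 / 3) * hs
  -- the formulas
  have key : ∀ z, (1 + s) * z ∉ L.lattice → X ((1 + s) * z) * ((1 + s) * X z + s) ^ 2 =
      X z ^ 3 + (4 - 2 * s) * X z ^ 2 + (2 - 4 * s) * X z ∧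
      Y ((1 + s) * z) * ((1 + s) * X z + s) ^ 3 =
      Y z * (X z ^ 3 + (2 + s) * X z ^ 2 + (6 + 4 * s) * X z + (4 - 2 * s)) := by
    intro z hz
    have hzn : z ∉ L.lattice := by
      intro h
      have h' := add_mem h (hcl z h)
      have e : z + s * z = (1 + s) * z := by ring
      rw [e] at h'
      exact hz h'
    by_cases hsz : s * z ∈ L.lattice
    · have hX0 : X z = 0 := (h0 z hzn).1 hsz
      have hY0 : Y z = 0 := by
        have := heq z hzn
        rw [hX0] at this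
        have h6 : Y z ^ 2 = 0 := by rw [this]; ring
        exact pow_eq_zero_iff two_ne_zero |>.1 h6
      have e : (1 + s) * z = z + s * z := by ring
      rw [e, (hper z _ hsz).1, (hper z _ hsz).2, hX0, hY0]
      constructor <;> ring
    · have e : (1 + s) * z = z + s * z := by ring
      by_cases hm : z - s * z ∈ L.lattice
      · have h3 : 3 * z ∈ L.lattice := h3m z (by
          have e3 : (1 - s) * z = z - s * z := by ring
          rw [e3]
          exact hm)
        have h2z := h32 z hzn h3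
        have hv := hvalm z hzn hsz hm h2z
        have e2 : (1 + s) * z = -z + (3 * z - (z - s * z)) := by ring
        have hu : 3 * z - (z - s * z) ∈ L.lattice := sub_mem h3 hm
        rw [e2, (hper (-z) _ hu).1, (hper (-z) _ hu).2, (hneg z).1, (hneg z).2, hv]
        constructor
        · linear_combination ((s ^ 3 + 2 * s ^ 2 - 5 * s - 6) / 27) * hs
        · linear_combination (Y z * (-s ^ 4 - 6 * s ^ 3 - 4 * s ^ 2 + 24 * s - 4) / 27) * hs
      · have hzs : z + s * z ∉ L.lattice := by rw [← e]; exact hz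
        obtain ⟨a1, a2⟩ := hadd z (s * z) hzn hsz hzs hm
        have hx0 : X z ≠ 0 := fun h => hsz ((h0 z hzn).2 h)
        have hxX : X z - X (s * z) ≠ 0 := by
          intro h
          rcases hinj z (s * z) hzn hsz (sub_eq_zero.1 h) with h' | h'
          · exact hm h'
          · exact hzs h'
        have := alg hs hx0 hxX (hx z hsz) (hy z hsz) (heq z hzn)
        rw [e, a2, a1]
        exact this
  refine ⟨?_, fun z hz => (key z hz).1, fun z hz => (key z hz).2⟩
  intro z hz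
  constructor
  · intro h
    rw [hval z hz h]
    linear_combination (-1 / 3 : ℂ) * hs
  · intro h
    by_contra hcon
    have h5 := (key z hcon).1
    rw [h] at h5
    have hr : X z = (-s - 2) / 3 := by
      linear_combination ((1 - s) / 3) * h + (X z / 3 + 1 / 3) * hs
    rw [hr] at h5
    have h6 : 5 * s - 2 = 0 := by
      linear_combination (-27 / 16 : ℂ) * h5 - ((-7 * s + 18) / 16) * hs
    have h7 : (-54 : ℂ) = 0 := by
      linear_combination (5 * s + 2) * h6 - 25 * hs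
    norm_num at h7

theorem case8 : Case (-2) 0 := Or.inl ⟨rfl, rfl⟩

theorem w_sq : wC (-2) 0 ^ 2 = -2 := by
  have h := wC_sq case8
  rw [sq, h]
  push_cast
  ring

theorem ea2 : emb (a2 (-2) 0) = 4 := by
  have h := emb_natCast case8 4
  simpa [a2] using h

theorem ea4 : emb (a4 (-2) 0) = 2 := by
  have h := emb_natCast case8 2
  simpa [a4] using h

theorem ea6 : emb (a6 (-2) 0) = 0 := by
  have h := emb_zero case8
  simpa [a6] using h

end A_N8P

theorem ta_N8P (h1 : Sa_N8) (h2 : Sa_EQN) (h3 : Sa_LAW) : Sa_N8P := by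
  intro L Om hL
  obtain ⟨k0, k1⟩ := h1 L Om hL
  obtain ⟨q1, -, q3, q4, q5, -, q7, -, -⟩ := h2 (-2) 0 L Om A_N8P.case8 hL
  obtain ⟨l1, -⟩ := h3 (-2) 0 L Om A_N8P.case8 hL
  rw [A_N8P.ea2, A_N8P.ea4, A_N8P.ea6] at q1
  rw [A_N8P.ea2] at l1
  have hw := A_N8P.w_sq
  have hwcl : ∀ z ∈ L.lattice, wC (-2) 0 * z ∈ L.lattice := fun z hz =>
    hL.toIsLat.mul_mem_w A_N8P.case8 hz
  have heq : ∀ z, z ∉ L.lattice → yy L z ^ 2 =
      xx (-2) 0 L z ^ 3 + 4 * xx (-2) 0 L z ^ 2 + 2 * xx (-2) 0 L z := by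
    intro z hz
    rw [q1 z hz]
    ring
  have hnm : ∀ z, -(wC (-2) 0) * z = -(wC (-2) 0 * z) := fun z => neg_mul _ _
  have hmem : ∀ z, -(wC (-2) 0) * z ∈ L.lattice ↔ wC (-2) 0 * z ∈ L.lattice := by
    intro z
    rw [hnm, neg_mem_iff]
  have g1 := A_N8P.gen L (wC (-2) 0) hw (xx (-2) 0 L) (yy L) hwcl k0
    (fun z hz => (k1 z hz).1) (fun z hz => (k1 z hz).2) heq q3 q4 q5 q7 l1
  have g2 := A_N8P.gen L (-(wC (-2) 0)) (by rw [neg_sq]; exact hw) (xx (-2) 0 L) (yy L)
    (fun z hz => (hmem z).2 (hwcl z hz)) (fun z hz => (hmem z).trans (k0 z hz))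
    (fun z hz => by
      rw [hnm, (q3 _).1]
      exact (k1 z (fun h => hz ((hmem z).2 h))).1)
    (fun z hz => by
      rw [hnm, (q3 _).2]
      have := (k1 z (fun h => hz ((hmem z).2 h))).2
      linear_combination this) heq q3 q4 q5 q7 l1
  obtain ⟨a1, a2', a3⟩ := g1
  obtain ⟨b1, b2, b3⟩ := g2
  have e0 : ∀ a b : ℤ, emb (⟨a, b⟩ : OO (-2) 0) = (a : ℂ) + b * wC (-2) 0 := fun a b => rfl
  have ez : emb (0 : OO (-2) 0) = 0 := emb_zero A_N8P.case8
  have el : emb (⟨1, 1⟩ : OO (-2) 0) = 1 + wC (-2) 0 := by rw [e0]; push_cast; ring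
  have el' : emb (⟨1, -1⟩ : OO (-2) 0) = 1 + -(wC (-2) 0) := by rw [e0]; push_cast; ring
  have ed : emb (⟨0, 1⟩ : OO (-2) 0) = wC (-2) 0 := by rw [e0]; push_cast; ring
  have ed' : emb (⟨0, -1⟩ : OO (-2) 0) = -(wC (-2) 0) := by rw [e0]; push_cast; ring
  refine ⟨⟨?_, ?_, ?_⟩, ⟨?_, ?_, ?_⟩⟩
  · intro z hz
    rw [el, ed]
    exact a1 z hz
  · intro z hz
    rw [el, ed, ez, e0, e0]
    rw [el] at hz
    rw [a2' z hz]
    push_cast
    ring
  · intro z hz
    rw [el, ed, e0, e0, e0]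
    rw [el] at hz
    rw [a3 z hz]
    push_cast
    ring
  · intro z hz
    rw [el', ed']
    exact b1 z hz
  · intro z hz
    rw [el', ed', ez, e0, e0]
    rw [el'] at hz
    rw [b2 z hz]
    push_cast
    ring
  · intro z hz
    rw [el', ed', e0, e0, e0]
    rw [el'] at hz
    rw [b3 z hz]
    push_cast
    ring

end

end Pool.Agent.MU3A


end

section

/-!
# MU3, block A, module M8: the case `w² = -2`, the sign
-/

set_option autoImplicit false

namespace Pool.Agent.MU3A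

open _root_.MU3 _root_.Pool.Agent.MU3B Polynomial NumberField

noncomputable section

theorem ta_M8 (h1 : Sa_N8) (h2 : Sa_EQN) : Sa_M8 := by
  intro L Om hL
  have hc : Case (-2) 0 := Or.inl ⟨rfl, rfl⟩
  obtain ⟨hker, hmul⟩ := h1 L Om hL
  obtain ⟨heq, -⟩ := h2 (-2) 0 L Om hc hL
  have hlat : IsLat (-2) 0 L Om := hL.toIsLat
  set w : ℂ := wC (-2) 0 with hw
  have hw2 : w ^ 2 = -2 := by
    have := wC_sq hc
    rw [← hw] at this
    push_cast at this
    linear_combination this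
  have hw0 : w ≠ 0 := wC_ne_zero hc
  have hOm : Om ≠ 0 := hlat.Om_ne
  have ha2 : emb (a2 (-2) 0) = (4 : ℂ) := by
    have h : a2 (-2) 0 = ((4 : ℕ) : OO (-2) 0) := by simp [a2]
    rw [h, emb_natCast hc]; norm_num
  have ha4 : emb (a4 (-2) 0) = (2 : ℂ) := by
    have h : a4 (-2) 0 = ((2 : ℕ) : OO (-2) 0) := by simp [a4]
    rw [h, emb_natCast hc]; norm_num
  have ha6 : emb (a6 (-2) 0) = (0 : ℂ) := by
    have h : a6 (-2) 0 = (0 : OO (-2) 0) := by simp [a6]
    rw [h, emb_zero hc]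
  -- lattice facts
  have hwmem : ∀ z : ℂ, z ∈ L.lattice → w * z ∈ L.lattice := fun z hz => hlat.mul_mem_w hc hz
  have hOmL : Om ∈ L.lattice := (hlat.mem Om).2 ⟨1, by rw [emb_one hc, mul_one]⟩
  have hz1 : Om / w ∉ L.lattice := by
    intro hz
    obtain ⟨x, hx⟩ := (hlat.mem _).1 hz
    have h3 : w * emb x = 1 := by
      field_simp at hx
      exact hx.symm
    have h5 : emb ((⟨0, 1⟩ : OO (-2) 0) * x) = emb (1 : OO (-2) 0) := by
      rw [emb_mul hc, emb_w, emb_one hc]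
      exact h3
    have h6 := emb_inj hc h5
    have h7 := congrArg QuadraticAlgebra.re h6
    rw [QuadraticAlgebra.re_mul, QuadraticAlgebra.re_one] at h7
    simp only [] at h7
    omega
  have hz2 : Om / w ^ 2 ∉ L.lattice := fun hz => hz1 (by
    have := hwmem _ hz
    rwa [show w * (Om / w ^ 2) = Om / w by field_simp] at this)
  have hz3 : Om / w ^ 3 ∉ L.lattice := fun hz => hz2 (by
    have := hwmem _ hz
    rwa [show w * (Om / w ^ 3) = Om / w ^ 2 by field_simp] at this)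
  have hz4 : Om / w ^ 4 ∉ L.lattice := fun hz => hz3 (by
    have := hwmem _ hz
    rwa [show w * (Om / w ^ 4) = Om / w ^ 3 by field_simp] at this)
  have hz5 : Om / w ^ 5 ∉ L.lattice := fun hz => hz4 (by
    have := hwmem _ hz
    rwa [show w * (Om / w ^ 5) = Om / w ^ 4 by field_simp] at this)
  -- the equations
  have e1 : xx (-2) 0 L (Om / w) = 0 := (hker _ hz1).1 (by
    rw [show w * (Om / w) = Om by field_simp]; exact hOmL)
  have e2 := (hmul (Om / w ^ 2) (by rwa [show w * (Om / w ^ 2) = Om / w by field_simp])).1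
  rw [show w * (Om / w ^ 2) = Om / w by field_simp, e1] at e2
  have e3 := (hmul (Om / w ^ 3) (by rwa [show w * (Om / w ^ 3) = Om / w ^ 2 by field_simp])).1
  rw [show w * (Om / w ^ 3) = Om / w ^ 2 by field_simp] at e3
  have e4 := (hmul (Om / w ^ 4) (by rwa [show w * (Om / w ^ 4) = Om / w ^ 3 by field_simp])).1
  rw [show w * (Om / w ^ 4) = Om / w ^ 3 by field_simp] at e4
  have e5 := (hmul (Om / w ^ 5) (by rwa [show w * (Om / w ^ 5) = Om / w ^ 4 by field_simp])).1
  rw [show w * (Om / w ^ 5) = Om / w ^ 4 by field_simp] at e5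
  have e6 := heq (Om / w ^ 5) hz5
  rw [ha2, ha4, ha6] at e6
  -- membership
  have hgen : ∀ z : ℂ, w ^ 5 * z ∈ L.lattice → z ∉ L.lattice →
      xx (-2) 0 L z ∈ XF L (⟨0, 4⟩ : OO (-2) 0) := by
    intro z hz hz'
    refine IntermediateField.subset_adjoin _ _ ⟨z, ?_, hz', rfl⟩
    have h3 : emb (⟨0, 4⟩ : OO (-2) 0) = w ^ 5 := by
      have : emb (⟨0, 4⟩ : OO (-2) 0) = 4 * w := by simp [emb, hw]
      rw [this]
      linear_combination (-(w * w ^ 2) + 2 * w) * hw2
    rwa [h3]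
  have m2 : xx (-2) 0 L (Om / w ^ 2) ∈ XF L (⟨0, 4⟩ : OO (-2) 0) := by
    refine hgen _ ?_ hz2
    rw [show w ^ 5 * (Om / w ^ 2) = w * (w * (w * Om)) by field_simp]
    exact hwmem _ (hwmem _ (hwmem _ hOmL))
  have m4 : xx (-2) 0 L (Om / w ^ 4) ∈ XF L (⟨0, 4⟩ : OO (-2) 0) := by
    refine hgen _ ?_ hz4
    rw [show w ^ 5 * (Om / w ^ 4) = w * Om by field_simp]
    exact hwmem _ hOmL
  have m5 : xx (-2) 0 L (Om / w ^ 5) ∈ XF L (⟨0, 4⟩ : OO (-2) 0) := by
    refine hgen _ ?_ hz5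
    rw [show w ^ 5 * (Om / w ^ 5) = Om by field_simp]
    exact hOmL
  have mw : w ∈ XF L (⟨0, 4⟩ : OO (-2) 0) :=
    (XF L (⟨0, 4⟩ : OO (-2) 0)).algebraMap_mem (⟨w, wC_mem (-2) 0⟩ : kk (-2) 0)
  generalize xx (-2) 0 L (Om / w ^ 2) = x2 at *
  generalize xx (-2) 0 L (Om / w ^ 3) = x3 at *
  generalize xx (-2) 0 L (Om / w ^ 4) = x4 at *
  generalize xx (-2) 0 L (Om / w ^ 5) = x5 at *
  generalize yy L (Om / w ^ 5) = y5 at *
  have hr : (x2 + 2) ^ 2 = 2 := by linear_combination e2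
  have hr0 : x2 + 2 ≠ 0 := by
    intro h0
    rw [h0] at hr
    norm_num at hr
  have h3 : x3 = -(x2 + 2) := by
    have h4 : (x3 + (x2 + 2)) ^ 2 = 0 := by linear_combination e3 + hr
    have h5 := pow_eq_zero_iff (two_ne_zero) |>.1 h4
    linear_combination h5
  rw [h3] at e4
  -- `t = (x4 + 2 - r) / 2`
  have ht : ((x4 - x2) / 2) ^ 2 = 1 - (x2 + 2) := by
    linear_combination (1 / 4) * e4 + (1 / 4) * hr
  have h4 : x4 = -(1 - (x4 - x2) / 2) ^ 2 := by
    linear_combination ht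
  have hi : (w / (x2 + 2)) ^ 2 = -1 := by
    rw [div_pow, hr, hw2]; norm_num
  have hy : y5 ^ 2 = (w * x5 * (w / (x2 + 2)) * (1 - (x4 - x2) / 2)) ^ 2 := by
    have h6 : (w * x5 * (w / (x2 + 2)) * (1 - (x4 - x2) / 2)) ^ 2 =
        w ^ 2 * x5 ^ 2 * (w / (x2 + 2)) ^ 2 * (1 - (x4 - x2) / 2) ^ 2 := by ring
    rw [h6, hw2, hi]
    linear_combination e6 + x5 * e5 - 2 * x5 ^ 2 * h4
  have hmem : w * x5 * (w / (x2 + 2)) * (1 - (x4 - x2) / 2) ∈ XF L (⟨0, 4⟩ : OO (-2) 0) := by
    have m22 : (2 : ℂ) ∈ XF L (⟨0, 4⟩ : OO (-2) 0) := ofNat_mem _ 2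
    refine mul_mem (mul_mem (mul_mem mw m5) (div_mem mw (add_mem m2 m22)))
      (sub_mem (one_mem _) (div_mem (sub_mem m4 m2) m22))
  rcases sq_eq_sq_iff_eq_or_eq_neg.1 hy with h | h
  · rw [h]; exact hmem
  · rw [h]; exact neg_mem hmem

end

end Pool.Agent.MU3A


end

section

/-!
# MU3, block A: module EX, the normal form exists
-/

set_option autoImplicit false

namespace Pool.Agent.MU3A

open _root_.MU3 _root_.Pool.Agent.MU3B Polynomial

noncomputable section

namespace A_EX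

lemma scale {A B : ℤ} {L₀ L : PeriodPair} {Om : ℂ} (h₀ : IsLat A B L₀ 1) (h : IsLat A B L Om)
    (u : ℂ) : u ∈ L₀.lattice ↔ Om * u ∈ L.lattice := by
  have h1 := h.Om_ne
  rw [h₀.mem, h.mem]
  constructor
  · rintro ⟨x, rfl⟩
    exact ⟨x, by rw [one_mul]⟩
  · rintro ⟨x, hx⟩
    exact ⟨x, by rw [one_mul]; exact mul_left_cancel₀ h1 hx⟩

/-- a square root of a nonzero number -/
lemma root {c : ℂ} (hc : c ≠ 0) : ∃ Om : ℂ, Om ≠ 0 ∧ Om ^ 2 = c := by
  obtain ⟨z, hz⟩ := IsAlgClosed.exists_pow_nat_eq c (n := 2) (by norm_num)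
  refine ⟨z, ?_, hz⟩
  rintro rfl
  apply hc
  rw [← hz]
  norm_num

end A_EX

/-- EX. -/
theorem ta_EX (h1 : Sa_LAT0) (h2 : Sa_SCP) (h3 : Sa_R8) (h4 : Sa_R11) : Sa_EX := by
  intro A B h
  obtain ⟨L₀, hL₀⟩ := h1 A B h 1 one_ne_zero
  rcases h with ⟨rfl, rfl⟩ | ⟨rfl, rfl⟩
  · have hc : Case (-2) 0 := Or.inl ⟨rfl, rfl⟩
    have he0 := (h3 L₀ 1 hL₀).1
    rw [one_mul] at he0
    set e₀ := L₀.weierstrassP (wC (-2) 0 / 2) with he₀
    obtain ⟨Om, hOm, hOm2⟩ := A_EX.root (c := 3 * e₀ / 4)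
      (div_ne_zero (mul_ne_zero (by norm_num) he0) (by norm_num))
    obtain ⟨L, hL⟩ := h1 (-2) 0 hc Om hOm
    have hP : L.weierstrassP (Om * wC (-2) 0 / 2) = 4 / 3 := by
      have h5 := (h2 L₀ L Om hOm (A_EX.scale hL₀ hL)).1 (wC (-2) 0 / 2)
      rw [← he₀, hOm2] at h5
      rw [mul_div_assoc, h5]
      field_simp
    obtain ⟨-, hg2, hg3, -⟩ := h3 L Om hL
    rw [hP] at hg2 hg3
    have ea2 : emb (a2 (-2) 0) = 4 := by
      have : a2 (-2) 0 = ((4 : ℤ) : OO (-2) 0) := by simp [a2]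
      rw [this, emb_intCast hc]
      norm_num
    have ea4 : emb (a4 (-2) 0) = 2 := by
      have : a4 (-2) 0 = ((2 : ℤ) : OO (-2) 0) := by simp [a4]
      rw [this, emb_intCast hc]
      norm_num
    have ea6 : emb (a6 (-2) 0) = 0 := by
      have : a6 (-2) 0 = 0 := by simp [a6]
      rw [this, emb_zero hc]
    refine ⟨L, Om, hL, ?_, ?_⟩
    · rw [hg2, ea2, ea4]
      norm_num
    · rw [hg3, ea2, ea4, ea6]
      norm_num
  · have hc : Case (-3) 1 := Or.inr ⟨rfl, rfl⟩
    have hw0 : wC (-3) 1 ≠ 0 := wC_ne_zero hc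
    have hw2 : wC (-3) 1 * wC (-3) 1 = -3 + wC (-3) 1 := by
      have := wC_sq hc
      push_cast at this
      rw [this]
      ring
    have he0 := (h4 L₀ 1 hL₀).1
    set w := wC (-3) 1 with hw
    set e₀ := L₀.weierstrassP (1 / w) with he₀
    obtain ⟨Om, hOm, hOm2⟩ := A_EX.root (c := 3 * e₀ / w)
      (div_ne_zero (mul_ne_zero (by norm_num) he0) hw0)
    obtain ⟨L, hL⟩ := h1 (-3) 1 hc Om hOm
    have hP : L.weierstrassP (Om / w) = w / 3 := by
      have h5 := (h2 L₀ L Om hOm (A_EX.scale hL₀ hL)).1 (1 / w)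
      rw [← he₀, hOm2, mul_one_div] at h5
      rw [h5]
      field_simp
    obtain ⟨-, hg2, hg3, -⟩ := h4 L Om hL
    rw [← hw, hP] at hg2 hg3
    have ea2 : emb (a2 (-3) 1) = -1 + 2 * w := by
      have : a2 (-3) 1 = ⟨-1, 2⟩ := by simp [a2]
      rw [this, emb, ← hw]
      push_cast
      ring
    have ea4 : emb (a4 (-3) 1) = -3 := by
      have : a4 (-3) 1 = ((-3 : ℤ) : OO (-3) 1) := by simp [a4]
      rw [this, emb_intCast hc]
      norm_num
    have ea6 : emb (a6 (-3) 1) = 1 - 2 * w := by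
      have : a6 (-3) 1 = ⟨1, -2⟩ := by simp [a6]
      rw [this, emb, ← hw]
      push_cast
      ring
    have hg2' : L.g₂ = -8 / 3 := by
      have : w ^ 2 * L.g₂ = w ^ 2 * (-8 / 3) := by rw [hg2]; ring
      exact mul_left_cancel₀ (pow_ne_zero 2 hw0) this
    have hg3' : w * L.g₃ = 7 / 27 * (w - 6) := by
      have : w ^ 3 * (w * L.g₃) = w ^ 3 * (7 / 27 * (w - 6)) := by
        linear_combination hg3
      exact mul_left_cancel₀ (pow_ne_zero 3 hw0) this
    refine ⟨L, Om, hL, ?_, ?_⟩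
    · rw [hg2', ea2, ea4]
      linear_combination (-16 / 3) * hw2
    · rw [ea2, ea4, ea6]
      apply mul_left_cancel₀ hw0
      rw [hg3']
      have hd2 : (-1 + 2 * w) ^ 2 = -11 := by linear_combination 4 * hw2
      have e1 : -4 * ((1 - 2 * w) / 4 + 2 * ((-1 + 2 * w) / 3) ^ 3 - -3 * ((-1 + 2 * w) / 3)) =
          7 / 27 * (-1 + 2 * w) := by
        linear_combination (-8 / 27) * (-1 + 2 * w) * hd2
      rw [e1]
      linear_combination (-14 / 27) * hw2

end

end Pool.Agent.MU3A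


end

section

/-!
# MU3, block A, module EQN: basic facts on `x` and `y`
-/

set_option autoImplicit false

namespace Pool.Agent.MU3A

open _root_.MU3 _root_.Pool.Agent.MU3B Polynomial

namespace A_EQN

lemma hdP (L : PeriodPair) {z : ℂ} (hz : z ∉ L.lattice) :
    HasDerivAt L.weierstrassP (L.derivWeierstrassP z) z := by
  have h1 : DifferentiableAt ℂ L.weierstrassP z :=
    (L.analyticOnNhd_weierstrassP z (by simpa using hz)).differentiableAt
  rw [← L.deriv_weierstrassP]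
  exact h1.hasDerivAt

end A_EQN

theorem ta_EQN (h1 : MU3B.St_NEQ) (h2 : MU3B.St_ZER) (h3 : MU3B.St_DSC) (h4 : MU3B.St_P2) :
    Sa_EQN := by
  intro A B L Om _ hCM
  have g2 := hCM.g2
  have g3 := hCM.g3
  set a := emb (a2 A B) with ha
  set b := emb (a4 A B) with hb
  set c := emb (a6 A B) with hc
  have hneq : ∀ z z', z ∉ L.lattice → z' ∉ L.lattice → xx A B L z = xx A B L z' →
      z - z' ∈ L.lattice ∨ z + z' ∈ L.lattice := by
    intro z z' hz hz' hx
    apply h1 L z' z hz' hz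
    unfold xx at hx
    exact sub_left_injective hx
  have hzer : ∀ z, z ∉ L.lattice → (yy L z = 0 ↔ 2 * z ∈ L.lattice) := by
    intro z hz
    rw [← h2 L z hz]
    unfold yy
    constructor
    · intro h
      linear_combination 2 * h
    · intro h
      rw [h, zero_div]
  refine ⟨?_, ?_, ?_, ?_, hneq, ?_, hzer, ?_, ?_⟩
  · intro z hz
    have hsq := L.derivWeierstrassP_sq z hz
    unfold xx yy
    linear_combination (1 / 4) * hsq - (L.weierstrassP z / 4) * g2 - (1 / 4) * g3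
  · intro z hz
    by_contra hcon
    rw [not_or, not_not, not_not] at hcon
    obtain ⟨hy, hx⟩ := hcon
    have hsq := L.derivWeierstrassP_sq z hz
    have hP' : L.derivWeierstrassP z = 0 := by
      unfold yy at hy
      linear_combination 2 * hy
    rw [hP'] at hsq
    have e2 : L.g₂ = 12 * L.weierstrassP z ^ 2 := by
      unfold xx at hx
      linear_combination g2 - 4 * hx
    have e3 : L.g₃ = -8 * L.weierstrassP z ^ 3 := by
      linear_combination hsq - L.weierstrassP z * e2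
    apply (h3 L).1
    rw [e2, e3]
    ring
  · intro z
    unfold xx yy
    rw [L.weierstrassP_neg, L.derivWeierstrassP_neg]
    exact ⟨rfl, neg_div _ _⟩
  · intro z u hu
    unfold xx yy
    have e1 := L.weierstrassP_add_coe z ⟨u, hu⟩
    have e2 := L.derivWeierstrassP_add_coe z ⟨u, hu⟩
    simp only at e1 e2
    rw [e1, e2]
    exact ⟨rfl, rfl⟩
  · intro z z' hz hz' hx hy
    rcases hneq z z' hz hz' hx with h | h
    · exact h
    · have e1 : L.derivWeierstrassP z = L.derivWeierstrassP z' := by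
        unfold yy at hy
        linear_combination 2 * hy
      have e2 := L.derivWeierstrassP_add_coe (-z) ⟨z + z', h⟩
      simp only at e2
      have e3 : -z + (z + z') = z' := by ring
      rw [e3, L.derivWeierstrassP_neg] at e2
      have e4 : yy L z = 0 := by
        unfold yy
        linear_combination (1 / 4) * e1 + (1 / 4) * e2
      have e5 := (hzer z hz).1 e4
      have e6 : z - z' = 2 * z - (z + z') := by ring
      rw [e6]
      exact sub_mem e5 h
  · intro X Y hXY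
    obtain ⟨z, hz, hzx, hzy⟩ := (h3 L).2 (X + a / 3) (2 * Y) (by
      linear_combination 4 * hXY + (X + a / 3) * g2 + g3)
    refine ⟨z, hz, ?_, ?_⟩
    · unfold xx
      rw [hzx]
      ring
    · unfold yy
      rw [hzy]
      ring
  · intro z hz
    constructor
    · have e1 := (A_EQN.hdP L hz).sub_const (a / 3)
      have e2 : 2 * yy L z = L.derivWeierstrassP z := by unfold yy; ring
      rw [e2]
      exact e1
    · have e1 := (h4 L z hz).div_const 2
      have e2 : 3 * xx A B L z ^ 2 + 2 * a * xx A B L z + b =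
          (6 * L.weierstrassP z ^ 2 - L.g₂ / 2) / 2 := by
        unfold xx
        linear_combination (1 / 4) * g2
      rw [e2]
      exact e1

end Pool.Agent.MU3A


end

section

/-!
# MU3, block A: (DENSF)
-/

set_option autoImplicit false

namespace Pool.Agent.MU3A

open _root_.MU3 _root_.Pool.Agent.MU3B Polynomial NumberField IsDedekindDomain Ideal

namespace DENSF

variable {A B : ℤ}

lemma nm_nat (n : ℕ) : nm (n : OO A B) = (n : ℤ) ^ 2 := by
  simp [nm]

/-- the ring homomorphism from `O` to the ring of integers of `k` -/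
noncomputable def phi (h : Case A B) (hint : ∀ x : OO A B, IsIntegral ℤ (emb x)) :
    OO A B →+* 𝓞 (kk A B) where
  toFun x := ⟨ek x, by
    have h1 : IsIntegral ℤ ((ek x : kk A B) : ℂ) := hint x
    exact (isIntegral_algebraMap_iff (B := ℂ) Subtype.val_injective).1 h1⟩
  map_one' := by
    apply RingOfIntegers.ext
    apply Subtype.ext
    exact emb_one h
  map_zero' := by
    apply RingOfIntegers.ext
    apply Subtype.ext
    exact emb_zero h
  map_mul' x y := by
    apply RingOfIntegers.ext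
    apply Subtype.ext
    exact emb_mul h x y
  map_add' x y := by
    apply RingOfIntegers.ext
    apply Subtype.ext
    exact emb_add h x y

lemma phi_coe (h : Case A B) (hint : ∀ x : OO A B, IsIntegral ℤ (emb x)) (x : OO A B) :
    (((phi h hint x : 𝓞 (kk A B)) : kk A B) : ℂ) = emb x := rfl

end DENSF

open _root_.Pool.Agent.MU3A.DENSF in
theorem ta_DENSF (h0 : Pool.Agent.MU3.Stmt_DENSF) (h1 : Sa_INT) (h2 : Sa_PID) : Sa_DENSF := by
  intro A B hc F _ _ hcomm H n hn hyp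
  obtain ⟨fd, hfr, -, hI⟩ := h1 A B hc
  obtain ⟨hdom, hpid, hnn, hmul, hzero, -, hunit1, hunit2, -, -⟩ := h2 A B hc
  have hint : ∀ x : OO A B, IsIntegral ℤ (emb x) := fun x => (hI _ (emb_mem x)).2 ⟨x, rfl⟩
  have nk : NumberField (kk A B) := { to_charZero := inferInstance, to_finiteDimensional := fd }
  have nF : NumberField F :=
    { to_charZero := inferInstance
      to_finiteDimensional := Module.Finite.trans (kk A B) F }
  have hsurj : Function.Surjective (phi hc hint) := by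
    intro z
    have hz : IsIntegral ℤ (((z : kk A B)) : ℂ) := by
      have := z.isIntegral_coe
      exact this.map (IntermediateField.val (kk A B) |>.toRingHom.toIntAlgHom)
    obtain ⟨y, hy⟩ := (hI _ (z : kk A B).2).1 hz
    refine ⟨y, ?_⟩
    apply RingOfIntegers.ext
    apply Subtype.ext
    rw [phi_coe]
    exact hy.symm
  refine h0 (kk A B) F H {v : HeightOneSpectrum (𝓞 (kk A B)) | ((n : ℕ) : 𝓞 (kk A B)) ∈ v.asIdeal}
    ?_ ?_
  · have k0 : (Ideal.span {((n : ℕ) : 𝓞 (kk A B))} : Ideal (𝓞 (kk A B))) ≠ 0 := by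
      rw [Ne, Ideal.zero_eq_bot, Ideal.span_singleton_eq_bot]
      exact_mod_cast hn
    refine (Ideal.finite_factors k0).subset ?_
    intro v hv
    show v.asIdeal ∣ _
    rw [Ideal.dvd_span_singleton]
    exact hv
  · intro v hv hq w hw hwv σ hσ
    set q := absNorm v.asIdeal with hqdef
    have hqmem : ((q : ℕ) : 𝓞 (kk A B)) ∈ v.asIdeal := absNorm_mem v.asIdeal
    obtain ⟨lam, hlam⟩ := (hpid.principal (v.asIdeal.comap (phi hc hint))).principal
    have hlamv : phi hc hint lam ∈ v.asIdeal := by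
      have : lam ∈ v.asIdeal.comap (phi hc hint) := by
        rw [hlam]
        exact Submodule.mem_span_singleton_self lam
      exact this
    have hvspan : v.asIdeal = span {phi hc hint lam} := by
      rw [← Ideal.map_comap_of_surjective _ hsurj v.asIdeal, hlam]
      exact Ideal.map_span _ _ |>.trans (by rw [Set.image_singleton])
    have hqlam : lam ∣ (q : OO A B) := by
      have h3 : (q : OO A B) ∈ v.asIdeal.comap (phi hc hint) := by
        rw [Ideal.mem_comap, map_natCast]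
        exact hqmem
      rw [hlam] at h3
      exact Ideal.mem_span_singleton.1 h3
    obtain ⟨r, hr⟩ := hqlam
    have hnmul : nm lam * nm r = (q : ℤ) ^ 2 := by
      rw [← hmul, ← hr, nm_nat]
    have hnat : (nm lam).natAbs * (nm r).natAbs = q ^ 2 := by
      have := congrArg Int.natAbs hnmul
      rwa [Int.natAbs_mul, Int.natAbs_pow, Int.natAbs_natCast] at this
    have hcast : ∀ x : OO A B, ((nm x).natAbs : ℤ) = nm x := fun x => Int.natAbs_of_nonneg (hnn x)
    have hnl : (nm lam).natAbs = q := by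
      have h4 : (nm lam).natAbs ∣ q ^ 2 := ⟨_, hnat.symm⟩
      obtain ⟨i, hi, hi2⟩ := (Nat.dvd_prime_pow hq).1 h4
      have hi3 : i = 0 ∨ i = 1 ∨ i = 2 := by omega
      rcases hi3 with rfl | rfl | rfl
      · exfalso
        have h5 : nm lam = 1 := by rw [← hcast, hi2]; simp
        have h6 : IsUnit lam := (hunit2 lam).2 h5
        have h7 : IsUnit (phi hc hint lam) := h6.map _
        exact v.isPrime.ne_top (Ideal.eq_top_of_isUnit_mem _ hlamv h7)
      · rw [hi2, pow_one]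
      · exfalso
        rw [hi2] at hnat
        have h5 : (nm r).natAbs = 1 := by
          have h6 : q ^ 2 * (nm r).natAbs = q ^ 2 * 1 := by rw [hnat, mul_one]
          exact Nat.eq_of_mul_eq_mul_left (pow_pos hq.pos 2) h6
        have h6 : IsUnit r := (hunit2 r).2 (by rw [← hcast, h5]; simp)
        have h7 : span {phi hc hint lam} = span {((q : ℕ) : 𝓞 (kk A B))} := by
          rw [Ideal.span_singleton_eq_span_singleton]
          have h8 : Associated lam (q : OO A B) := by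
            obtain ⟨u, hu⟩ := h6
            exact ⟨u, by rw [hu, hr]⟩
          have h9 := h8.map (phi hc hint)
          rwa [map_natCast] at h9
        have h8 : q = q ^ 2 := by
          conv_lhs => rw [hqdef, hvspan, h7, absNorm_span_natCast, RingOfIntegers.rank, hfr]
        have h9 : q * 1 = q * q := by rw [mul_one, ← pow_two]; exact h8
        have h10 := Nat.eq_of_mul_eq_mul_left hq.pos h9
        exact hq.one_lt.ne h10
    have hnlam : nm lam = (q : ℤ) := by rw [← hcast, hnl]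
    refine hyp lam q hq hnlam ?_ w hw ⟨algebraMap (𝓞 (kk A B)) (𝓞 F) (phi hc hint lam), ?_, rfl⟩ σ ?_
    · intro hdvd
      apply hv
      obtain ⟨t, ht⟩ := hdvd
      show ((n : ℕ) : 𝓞 (kk A B)) ∈ v.asIdeal
      rw [ht]
      push_cast
      exact Ideal.mul_mem_right _ _ hqmem
    · rw [← Ideal.mem_comap, hwv]
      exact hlamv
    · intro x
      have hx : IsIntegral ℤ (σ (x : F)) := by
        have h3 := x.isIntegral_coe
        exact h3.map (σ.toAlgHom.toRingHom.toIntAlgHom)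
      refine ⟨⟨σ (x : F), hx⟩ - x ^ q, hσ x ⟨σ (x : F), hx⟩ rfl, ?_⟩
      push_cast
      rfl

end Pool.Agent.MU3A


end

section

/-!
# MU3, block A: coordinates of torsion points are algebraic over `k` (ALG)

`x(2^i z) H_i(x z) = G_i(x z)` with polynomials `G_i`, `H_i` over `k` (duplication formula). If some
`2^i z` is in `L`, then `x z` is a root of a polynomial of this kind; otherwise `(2^j - 2^i) z ∈ L` for some `i < j`
and `x z` is a root of `G_j H_i - G_i H_j`. These polynomials are not zero: they do not vanish at `x (√2 Om)`.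
-/

set_option autoImplicit false

namespace Pool.Agent.MU3A

open _root_.MU3 _root_.Pool.Agent.MU3B Polynomial NumberField

noncomputable section

namespace Alg

variable {A B : ℤ} {L : PeriodPair} {Om : ℂ}

theorem two_notMem {z : ℂ} (hz : 2 * z ∉ L.lattice) : z ∉ L.lattice := by
  intro h
  apply hz
  rw [two_mul]
  exact add_mem h h

/-- duplication, without denominators -/
theorem dup (h1 : Sa_EQN) (h2 : Sa_LAW) (hc : Case A B) (hL : IsCM A B L Om) {z : ℂ}
    (hz : 2 * z ∉ L.lattice) :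
    xx A B L z ^ 3 + emb (a2 A B) * xx A B L z ^ 2 + emb (a4 A B) * xx A B L z +
      emb (a6 A B) / 4 ≠ 0 ∧
    xx A B L (2 * z) * (4 * (xx A B L z ^ 3 + emb (a2 A B) * xx A B L z ^ 2 +
      emb (a4 A B) * xx A B L z + emb (a6 A B) / 4)) =
      xx A B L z ^ 4 - 2 * emb (a4 A B) * xx A B L z ^ 2 - 8 * (emb (a6 A B) / 4) * xx A B L z +
        (emb (a4 A B) ^ 2 - 4 * emb (a2 A B) * (emb (a6 A B) / 4)) := by
  have hz' := two_notMem hz
  obtain ⟨e1, -, -, -, -, -, e7, -⟩ := h1 A B L Om hc hL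
  obtain ⟨-, l2⟩ := h2 A B L Om hc hL
  have hy : yy L z ≠ 0 := fun h0 => hz ((e7 z hz').1 h0)
  have hq := e1 z hz'
  have hx := (l2 z hz).1
  have hf : xx A B L z ^ 3 + emb (a2 A B) * xx A B L z ^ 2 + emb (a4 A B) * xx A B L z +
      emb (a6 A B) / 4 ≠ 0 := by
    rw [← hq]; exact pow_ne_zero 2 hy
  refine ⟨hf, ?_⟩
  rw [hx, ← hq]
  have h3 : ((3 * xx A B L z ^ 2 + 2 * emb (a2 A B) * xx A B L z + emb (a4 A B)) /
        (2 * yy L z)) ^ 2 * (4 * yy L z ^ 2) =
      (3 * xx A B L z ^ 2 + 2 * emb (a2 A B) * xx A B L z + emb (a4 A B)) ^ 2 := by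
    field_simp
    ring
  linear_combination h3 - 4 * (emb (a2 A B) + 2 * xx A B L z) * hq

/-- the recursion -/
theorem rec (h1 : Sa_EQN) (h2 : Sa_LAW) (hc : Case A B) (hL : IsCM A B L Om) (i : ℕ) :
    ∃ G H : (kk A B)[X], ∀ z : ℂ, (∀ j ≤ i, 2 ^ j * z ∉ L.lattice) →
      aeval (xx A B L z) H ≠ 0 ∧
      xx A B L (2 ^ i * z) * aeval (xx A B L z) H = aeval (xx A B L z) G := by
  induction i with
  | zero =>
    refine ⟨X, 1, fun z _ => ⟨?_, ?_⟩⟩
    · simp
    · simp
  | succ i ih =>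
    obtain ⟨G, H, hGH⟩ := ih
    refine ⟨G ^ 4 - C (2 * ek (a4 A B)) * G ^ 2 * H ^ 2 - C (8 * (ek (a6 A B) / 4)) * G * H ^ 3 +
        C (ek (a4 A B) ^ 2 - 4 * ek (a2 A B) * (ek (a6 A B) / 4)) * H ^ 4,
      4 * H * (G ^ 3 + C (ek (a2 A B)) * G ^ 2 * H + C (ek (a4 A B)) * G * H ^ 2 +
        C (ek (a6 A B) / 4) * H ^ 3), fun z hz => ?_⟩
    obtain ⟨h3, h4⟩ := hGH z fun j hj => hz j (Nat.le_succ_of_le hj)
    have h5 : 2 * (2 ^ i * z) ∉ L.lattice := by
      have h6 := hz (i + 1) le_rfl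
      rwa [pow_succ, mul_comm ((2 : ℂ) ^ i) 2, mul_assoc] at h6
    obtain ⟨h7, h8⟩ := dup h1 h2 hc hL h5
    have e2 : algebraMap (kk A B) ℂ (ek (a2 A B)) = emb (a2 A B) := rfl
    have e4 : algebraMap (kk A B) ℂ (ek (a4 A B)) = emb (a4 A B) := rfl
    have e6 : algebraMap (kk A B) ℂ (ek (a6 A B)) = emb (a6 A B) := rfl
    have h9 : (2 : ℂ) ^ (i + 1) * z = 2 * (2 ^ i * z) := by ring
    rw [h9]
    set u := xx A B L (2 ^ i * z) with hu
    set g := aeval (xx A B L z) G with hg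
    set w := aeval (xx A B L z) H with hw
    simp only [map_add, map_sub, map_mul, map_pow, aeval_C, map_div₀, map_ofNat, e2, e4, e6,
      ← hg, ← hw]
    rw [← h4]
    constructor
    · have h10 : 4 * w * ((u * w) ^ 3 + emb (a2 A B) * (u * w) ^ 2 * w +
          emb (a4 A B) * (u * w) * w ^ 2 + emb (a6 A B) / 4 * w ^ 3) =
          4 * w ^ 4 * (u ^ 3 + emb (a2 A B) * u ^ 2 + emb (a4 A B) * u + emb (a6 A B) / 4) := by
        ring
      rw [h10]
      exact mul_ne_zero (mul_ne_zero (by norm_num : (4 : ℂ) ≠ 0) (pow_ne_zero 4 h3)) h7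
    · linear_combination w ^ 4 * h8

/-- a point of infinite order -/
theorem inf (hc : Case A B) (hL : IsCM A B L Om) (n : ℤ) (hn : n ≠ 0) :
    (n : ℂ) * (Om * (Real.sqrt 2 : ℝ)) ∉ L.lattice := by
  intro h
  obtain ⟨x, hx⟩ := (hL.mem _).1 h
  have h0 := hL.Om_ne
  have h1 : ((n : ℝ) * Real.sqrt 2 : ℝ) = emb x := by
    have h2 : Om * (((n : ℝ) * Real.sqrt 2 : ℝ) : ℂ) = Om * emb x := by
      rw [← hx]; push_cast; ring
    exact mul_left_cancel₀ h0 h2
  have h3 := congrArg Complex.im h1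
  rw [Complex.ofReal_im] at h3
  have h4 : (x.im : ℝ) = 0 := by
    simp only [emb, Complex.add_im, Complex.mul_im, Complex.intCast_im, Complex.intCast_re,
      zero_mul, add_zero, zero_add] at h3
    rcases mul_eq_zero.1 h3.symm with h5 | h5
    · exact h5
    · exact absurd h5 (wC_im_pos hc).ne'
  have h5 : x.im = 0 := by exact_mod_cast h4
  have h6 : ((n : ℝ) * Real.sqrt 2 : ℝ) = x.re := by
    have h7 := congrArg Complex.re h1
    rw [Complex.ofReal_re] at h7
    rw [h7]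
    simp [emb, h5]
  have h8 : Irrational (Real.sqrt 2) := irrational_sqrt_two
  apply h8
  refine ⟨(x.re : ℚ) / n, ?_⟩
  have h9 : (n : ℝ) ≠ 0 := by exact_mod_cast hn
  push_cast
  rw [← h6]
  field_simp

theorem inf_pow (hc : Case A B) (hL : IsCM A B L Om) (i : ℕ) :
    (2 : ℂ) ^ i * (Om * (Real.sqrt 2 : ℝ)) ∉ L.lattice := by
  have h := inf hc hL (2 ^ i) (pow_ne_zero i two_ne_zero)
  push_cast at h
  exact h

theorem algx (h1 : Sa_EQN) (h2 : Sa_LAW) (hc : Case A B) (hL : IsCM A B L Om) {N : ℕ}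
    (hN : N ≠ 0) {z : ℂ} (hz : z ∉ L.lattice) (hNz : (N : ℂ) * z ∈ L.lattice) :
    IsAlgebraic (kk A B) (xx A B L z) := by
  classical
  obtain ⟨e1, -, -, e4, e5, -, e7, -⟩ := h1 A B L Om hc hL
  set z' : ℂ := Om * (Real.sqrt 2 : ℝ) with hz'
  by_cases hex : ∃ i : ℕ, (2 : ℂ) ^ i * z ∈ L.lattice
  · have hf := Nat.find_spec hex
    have hmin := fun j (hj : j < Nat.find hex) => Nat.find_min hex hj
    set i := Nat.find hex with hi
    have hi0 : i ≠ 0 := by
      intro h0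
      rw [h0, pow_zero, one_mul] at hf
      exact hz hf
    obtain ⟨k, hk⟩ := Nat.exists_eq_succ_of_ne_zero hi0
    obtain ⟨G, H, hGH⟩ := rec h1 h2 hc hL k
    have ha := hGH z fun j hj => hmin j (by omega)
    have hb := hGH z' fun j _ => inf_pow hc hL j
    have ea2 : algebraMap (kk A B) ℂ (ek (a2 A B)) = emb (a2 A B) := rfl
    have ea4 : algebraMap (kk A B) ℂ (ek (a4 A B)) = emb (a4 A B) := rfl
    have ea6 : algebraMap (kk A B) ℂ (ek (a6 A B)) = emb (a6 A B) := rfl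
    have hval : ∀ t : ℂ, xx A B L (2 ^ k * t) * aeval (xx A B L t) H = aeval (xx A B L t) G →
        aeval (xx A B L t) (G ^ 3 + C (ek (a2 A B)) * G ^ 2 * H + C (ek (a4 A B)) * G * H ^ 2 +
          C (ek (a6 A B) / 4) * H ^ 3) = (aeval (xx A B L t) H) ^ 3 *
        (xx A B L (2 ^ k * t) ^ 3 + emb (a2 A B) * xx A B L (2 ^ k * t) ^ 2 +
          emb (a4 A B) * xx A B L (2 ^ k * t) + emb (a6 A B) / 4) := by
      intro t ht
      simp only [map_add, map_mul, map_pow, aeval_C, map_div₀, map_ofNat, ea2, ea4, ea6]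
      rw [← ht]
      ring
    refine ⟨G ^ 3 + C (ek (a2 A B)) * G ^ 2 * H + C (ek (a4 A B)) * G * H ^ 2 +
          C (ek (a6 A B) / 4) * H ^ 3, ?_, ?_⟩
    · intro h0
      have h3 := hval z' hb.2
      rw [h0, map_zero] at h3
      have h4 : 2 * (2 ^ k * z') ∉ L.lattice := by
        have h6 := inf_pow hc hL (A := A) (B := B) (L := L) (Om := Om) (k + 1)
        rwa [pow_succ, mul_comm ((2 : ℂ) ^ k) 2, mul_assoc] at h6
      exact mul_ne_zero (pow_ne_zero 3 hb.1) (dup h1 h2 hc hL h4).1 h3.symm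
    · have h3 := hval z ha.2
      have h4 : (2 : ℂ) ^ k * z ∉ L.lattice := hmin k (by omega)
      have h5 : 2 * (2 ^ k * z) ∈ L.lattice := by
        rw [hk, Nat.succ_eq_add_one, pow_succ, mul_comm ((2 : ℂ) ^ k) 2, mul_assoc] at hf
        exact hf
      have h6 : yy L (2 ^ k * z) = 0 := (e7 _ h4).2 h5
      have h7 := e1 _ h4
      rw [h6] at h7
      rw [h3, ← h7]
      ring
  · have hno : ∀ i : ℕ, (2 : ℂ) ^ i * z ∉ L.lattice := fun i hi => hex ⟨i, hi⟩
    have : NeZero N := ⟨hN⟩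
    obtain ⟨i, j, hij, hF⟩ := Finite.exists_ne_map_eq_of_infinite
      (fun i : ℕ => ((2 : ZMod N)) ^ i)
    have hgen : ∀ i j : ℕ, i < j → (2 : ZMod N) ^ i = (2 : ZMod N) ^ j →
        IsAlgebraic (kk A B) (xx A B L z) := by
      intro i j hij hF
      have h3 : (N : ℤ) ∣ 2 ^ j - 2 ^ i := by
        rw [← ZMod.intCast_eq_intCast_iff_dvd_sub]
        push_cast
        exact hF
      obtain ⟨q, hq⟩ := h3
      have h4 : (2 : ℂ) ^ j * z = 2 ^ i * z + q * (N * z) := by
        have h5 : ((2 : ℂ) ^ j - 2 ^ i) = N * q := by exact_mod_cast hq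
        linear_combination z * h5
      have h6 : (q : ℂ) * (N * z) ∈ L.lattice := by
        rw [← zsmul_eq_mul]
        exact zsmul_mem hNz q
      have h7 : xx A B L (2 ^ j * z) = xx A B L (2 ^ i * z) := by
        rw [h4]; exact (e4 _ _ h6).1
      obtain ⟨G, H, hGH⟩ := rec h1 h2 hc hL i
      obtain ⟨G', H', hGH'⟩ := rec h1 h2 hc hL j
      have ha := hGH z fun j _ => hno j
      have ha' := hGH' z fun j _ => hno j
      have hb := hGH z' fun j _ => inf_pow hc hL j
      have hb' := hGH' z' fun j _ => inf_pow hc hL j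
      refine ⟨G' * H - G * H', ?_, ?_⟩
      · intro h0
        have h8 : aeval (xx A B L z') (G' * H - G * H') = 0 := by rw [h0, map_zero]
        rw [map_sub, map_mul, map_mul, ← hb.2, ← hb'.2] at h8
        have h9 : (xx A B L (2 ^ j * z') - xx A B L (2 ^ i * z')) *
            (aeval (xx A B L z') H * aeval (xx A B L z') H') = 0 := by
          linear_combination h8
        rcases mul_eq_zero.1 h9 with h10 | h10
        · have hlt : (2 : ℤ) ^ i < 2 ^ j := pow_lt_pow_right₀ (by norm_num) hij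
          have hpos : (0 : ℤ) < 2 ^ i := by positivity
          rcases e5 _ _ (inf_pow hc hL j) (inf_pow hc hL i) (sub_eq_zero.1 h10) with h11 | h11
          · refine inf hc hL (2 ^ j - 2 ^ i) (by omega) ?_
            push_cast
            have h12 : ((2 : ℂ) ^ j - 2 ^ i) * z' = 2 ^ j * z' - 2 ^ i * z' := by ring
            rw [← hz', h12]
            exact h11
          · refine inf hc hL (2 ^ j + 2 ^ i) (by omega) ?_
            push_cast
            have h12 : ((2 : ℂ) ^ j + 2 ^ i) * z' = 2 ^ j * z' + 2 ^ i * z' := by ring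
            rw [← hz', h12]
            exact h11
        · exact mul_ne_zero hb.1 hb'.1 h10
      · rw [map_sub, map_mul, map_mul, ← ha.2, ← ha'.2, h7]
        ring
    rcases Nat.lt_or_gt_of_ne hij with h3 | h3
    · exact hgen i j h3 hF
    · exact hgen j i h3 hF.symm

theorem mul_star' (x : OO A B) : x * star x = ((nm x : ℤ) : OO A B) := by
  ext
  · simp only [nm, QuadraticAlgebra.re_mul, QuadraticAlgebra.re_star, QuadraticAlgebra.im_star,
      QuadraticAlgebra.re_intCast, Int.cast_id]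
    ring
  · simp only [QuadraticAlgebra.im_mul, QuadraticAlgebra.re_star, QuadraticAlgebra.im_star,
      QuadraticAlgebra.im_intCast]
    ring

end Alg

open _root_.Pool.Agent.MU3A.Alg in
/-- (ALG) -/
theorem ta_ALG (h1 : Sa_EQN) (h2 : Sa_LAW) : Sa_ALG := by
  intro A B L Om hc hL m hm z hmz hz
  have hn0 : nm m ≠ 0 := by
    intro h0
    have h3 := congrArg emb (mul_star' m)
    rw [h0, Int.cast_zero, emb_zero hc, emb_mul hc] at h3
    have h4 : (star m : OO A B) ≠ 0 := star_ne_zero.2 hm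
    exact mul_ne_zero (emb_ne_zero hc hm) (emb_ne_zero hc h4) h3
  have hN : ((nm m).natAbs : ℂ) * z ∈ L.lattice := by
    have h3 : ((nm m : ℤ) : ℂ) * z ∈ L.lattice := by
      rw [← emb_intCast hc, ← mul_star', emb_mul hc, mul_comm (emb m), mul_assoc]
      exact hL.emb_mul_mem hc (star m) hmz
    rcases Int.natAbs_eq (nm m) with h4 | h4
    · rw [h4, Int.cast_natCast] at h3
      exact h3
    · rw [h4, Int.cast_neg, Int.cast_natCast, neg_mul] at h3
      exact neg_mem_iff.1 h3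
  have hx := algx h1 h2 hc hL (Int.natAbs_ne_zero.2 hn0) hz hN
  refine ⟨hx, ?_⟩
  have hq := (h1 A B L Om hc hL).1 z hz
  have halg : ∀ a : OO A B, IsAlgebraic (kk A B) (emb a) := fun a =>
    isAlgebraic_algebraMap (ek a)
  have h4 : IsAlgebraic (kk A B) (4 : ℂ)⁻¹ := by
    have := isAlgebraic_algebraMap (A := ℂ) ((4 : kk A B)⁻¹)
    rwa [map_inv₀, map_ofNat] at this
  apply IsAlgebraic.of_pow (n := 2) (by norm_num)
  rw [hq, div_eq_mul_inv]
  exact (((hx.pow 3).add ((halg _).mul (hx.pow 2))).add ((halg _).mul hx)).add ((halg _).mul h4)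

end

end Pool.Agent.MU3A


end
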