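import Mathlib.NumberTheory.RamificationInertia.Valuation
import Mathlib.RingTheory.DedekindDomain.Different
import Pool.Agent.MVF.C059
import Pool.Agent.MVF.C084
import Pool.Agent.MVF.C085
import Pool.Agent.MVF.C087
import Pool.Agent.MVF.C088
import Pool.Agent.MVF.C092
import Pool.Agent.MVF.C095
import Pool.Agent.MVF.C096
import Pool.Agent.MVF.C097

/-! Parts: MUX.W_URA, MU3.W_THU, MU3.V_TRA, MU3.V_R4, MU3.V_CARD, MU3.A_XI, MU3.A_R11, MU3.A_N11, MU3.A_LAW, MU3.A_GAL, MU3.AVAll, VB.V_UNR -/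

namespace Pool.Agent.MU3A.P_N11
end Pool.Agent.MU3A.P_N11
namespace Pool.Agent.MU3A.R11
end Pool.Agent.MU3A.R11
namespace Pool.Agent.MU3A.XI50
end Pool.Agent.MU3A.XI50
namespace Pool.Agent.MU3V.R418
end Pool.Agent.MU3V.R418
namespace Pool.Agent.MU3V.THUaux
end Pool.Agent.MU3V.THUaux
namespace Pool.Agent.MU3V.TRA
end Pool.Agent.MU3V.TRA

section

/-!
# MUX, block W: module URA (good primes and their conjugates are unramified over `k`) (helper91)
-/

set_option autoImplicit false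

open WeierstrassCurve Polynomial NumberField IsDedekindDomain
open scoped nonZeroDivisors Pointwise

namespace Pool.Agent.MUXW

open _root_.MU3 _root_.Pool.Agent.MU3A _root_.Pool.Agent.MU3B _root_.Pool.Agent.MU3C _root_.Pool.Agent.RI _root_.Pool.Agent.RID
open _root_.Pool.Agent.MUX _root_.Pool.Agent.MUXU

theorem ty_URA : Sy_URA := by
  intro p k L _ _ _ _ _ _ S v q hg v' hv'
  have := v.isMaximal
  have := v.isPrime
  have := v'.isMaximal
  have := v'.isPrime
  set P : Ideal (𝓞 k) := v.asIdeal.under (𝓞 k) with hP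
  have : v.asIdeal.LiesOver P := ⟨rfl⟩
  have : v'.asIdeal.LiesOver P := ⟨hv'.symm⟩
  have : P.IsMaximal := Ideal.IsMaximal.under (𝓞 k) v.asIdeal
  have hP0 : P ≠ ⊥ := (v.under (𝓞 k)).ne_bot
  have : Finite (𝓞 k ⧸ P) := Ideal.finiteQuotientOfFreeOfNeBot P hP0
  have : Finite P.ResidueField :=
    Finite.of_surjective (algebraMap (𝓞 k ⧸ P) P.ResidueField)
      (Ideal.bijective_algebraMap_quotient_residueField P).2
  have hperf : PerfectField P.ResidueField := inferInstance
  have hc := Ideal.card_stabilizer_eq (G := L ≃ₐ[k] L) P v.asIdeal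
  have h1 : Nat.card (MulAction.stabilizer (L ≃ₐ[k] L) v.asIdeal) = 1 := by
    rw [Nat.card_eq_one_iff_unique]
    refine ⟨⟨fun a b => ?_⟩, ⟨1⟩⟩
    have ha : a.1 = 1 := hg.free a.1 a.2
    have hb : b.1 = 1 := hg.free b.1 b.2
    exact Subtype.ext (ha.trans hb.symm)
  rw [h1] at hc
  have h2 : Ideal.ramificationIdxIn P (𝓞 L) = 1 := Nat.eq_one_of_mul_eq_one_right hc.symm
  rw [Ideal.ramificationIdxIn_eq_ramificationIdx P v'.asIdeal (L ≃ₐ[k] L)] at h2
  exact h2

end Pool.Agent.MUXW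


end

section

/-!
# MU3, block V, module THU: `Θ_a` is a unit and depends only on the reduction
-/

set_option autoImplicit false

open WeierstrassCurve Polynomial NumberField IsDedekindDomain

namespace Pool.Agent.MU3V

open _root_.MU3 _root_.Pool.Agent.MU3A _root_.Pool.Agent.MU3B _root_.Pool.Agent.MU3C

noncomputable section

namespace THUaux

lemma mul_lt_one_of {V : ValuationSubring ℂ} {x y : ℂ} (hx : V.valuation x ≤ 1)
    (hy : V.valuation y < 1) : V.valuation (x * y) < 1 := by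
  rw [map_mul]
  exact lt_of_le_of_lt (mul_le_of_le_one_left' hx) hy

lemma prod_congr_val {V : ValuationSubring ℂ} (S : Finset ℂ) (f g : ℂ → ℂ)
    (hf : ∀ p ∈ S, V.valuation (f p) ≤ 1) (hfg : ∀ p ∈ S, V.valuation (g p - f p) < 1) :
    V.valuation (∏ p ∈ S, f p) ≤ 1 ∧ V.valuation (∏ p ∈ S, g p - ∏ p ∈ S, f p) < 1 := by
  classical
  induction S using Finset.induction_on with
  | empty => simp
  | insert a S ha ih =>
    obtain ⟨i1, i2⟩ := ih (fun p hp => hf p (Finset.mem_insert_of_mem hp))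
      (fun p hp => hfg p (Finset.mem_insert_of_mem hp))
    have hfa := hf a (Finset.mem_insert_self a S)
    have hfga := hfg a (Finset.mem_insert_self a S)
    have hga : V.valuation (g a) ≤ 1 := by
      have e : g a = (g a - f a) + f a := by ring
      rw [e]
      exact (V.valuation.map_add _ _).trans (max_le hfga.le hfa)
    rw [Finset.prod_insert ha, Finset.prod_insert ha]
    refine ⟨?_, ?_⟩
    · rw [map_mul]
      exact mul_le_one' hfa i1
    · have e : g a * ∏ p ∈ S, g p - f a * ∏ p ∈ S, f p =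
          g a * (∏ p ∈ S, g p - ∏ p ∈ S, f p) + (∏ p ∈ S, f p) * (g a - f a) := by ring
      rw [e]
      exact V.valuation.map_add_lt (mul_lt_one_of hga i2) (mul_lt_one_of i1 hfga)

end THUaux

open _root_.Pool.Agent.MU3V.THUaux

theorem tw_THU : Sw_THU := by
  intro A B L Om ξ hcase hcm hxi V h2 a H ha hH
  have hsub : ∀ z p : ℂ, L.weierstrassP z - L.weierstrassP p = xx A B L z - xx A B L p := by
    intro z p
    unfold xx
    ring
  obtain ⟨n, han⟩ : ∃ n : ℕ, (a : ℂ) = (n : ℂ) ∨ (a : ℂ) = -(n : ℂ) := by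
    obtain ⟨n, h | h⟩ := a.eq_nat_or_neg
    · exact ⟨n, Or.inl (by rw [h]; push_cast; rfl)⟩
    · exact ⟨n, Or.inr (by rw [h]; push_cast; rfl)⟩
  have hn : V.valuation (n : ℂ) = 1 := by
    rcases han with h | h
    · rw [← h]
      exact ha
    · rw [h, Valuation.map_neg] at ha
      exact ha
  have hnp : ∀ p : ℂ, (a : ℂ) * p ∈ L.lattice → (n : ℂ) * p ∈ L.lattice := by
    intro p hp
    rcases han with h | h
    · rw [← h]
      exact hp
    · have h5 : (n : ℂ) * p = -((a : ℂ) * p) := by rw [h]; ring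
      rw [h5]
      exact neg_mem hp
  have hpE : ∀ p ∈ H, ¬ InE1 A B V L p := by
    intro p hp hE
    have hpL := mem_of_nat_mul hcase h2 hxi hE hn (hnp p (hH.mem p hp))
    apply hH.ne p hp
    rw [two_mul]
    exact add_mem hpL hpL
  refine ⟨?_, ?_⟩
  · intro z hz
    have hzE : ¬ InE1 A B V L z := fun h => hz (inE1_int hcase h2 hxi h a)
    unfold ThetaH
    rw [map_prod]
    refine Finset.prod_eq_one fun p hp => ?_
    rw [hsub]
    refine v_xx_sub hcase h2 hxi hzE (hpE p hp) ?_ ?_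
    · intro h
      apply hz
      refine (inE1_congr hcase h2 hxi (w := a * (z + p)) (inE1_of_mem ?_)).2
        (inE1_int hcase h2 hxi h a)
      have e : (a : ℂ) * z - a * (z + p) = -(a * p) := by ring
      rw [e]
      exact neg_mem (hH.mem p hp)
    · intro h
      apply hz
      refine (inE1_congr hcase h2 hxi (w := a * (z - p)) (inE1_of_mem ?_)).2
        (inE1_int hcase h2 hxi h a)
      have e : (a : ℂ) * z - a * (z - p) = a * p := by ring
      rw [e]
      exact hH.mem p hp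
  · intro z r hz hr
    unfold ThetaH
    simp only [hsub]
    refine prod_congr_val H (fun p => xx A B L z - xx A B L p)
      (fun p => xx A B L (z + r) - xx A B L p) ?_ ?_
    · intro p hp
      exact (V.valuation.map_sub _ _).trans (max_le (int_x hz).2 (int_x (hpE p hp)).2)
    · intro p hp
      have e : xx A B L (z + r) - xx A B L p - (xx A B L z - xx A B L p) =
          xx A B L (z + r) - xx A B L z := by ring
      simp only [e]
      exact (near_lt hcase h2 hxi hz hr).1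

end

end Pool.Agent.MU3V


end

section

/-!
# MU3, block V, TRA: total ramification, the parameter of a point of order `lam`
-/

set_option autoImplicit false

open WeierstrassCurve

namespace Pool.Agent.MU3V

open _root_.MU3 _root_.Pool.Agent.MU3A _root_.Pool.Agent.MU3B _root_.Pool.Agent.MU3.Val

noncomputable section

namespace TRA

variable {A B : ℤ}

/-- `q = N(lam)` is divisible by `lam` -/
theorem v_q_lt (h : Case A B) (V : ValuationSubring ℂ) {lam : OO A B} {q : ℕ} (hq : nm lam = q)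
    (hl : V.valuation (emb lam) < 1) : V.valuation (q : ℂ) < 1 := by
  have e : (q : ℂ) = emb lam * emb (⟨lam.re + B * lam.im, -lam.im⟩ : OO A B) := by
    have h1 : ((nm lam : ℤ) : ℂ) = (q : ℂ) := by
      rw [hq]
      push_cast
      rfl
    rw [← h1]
    unfold nm emb
    push_cast
    linear_combination ((lam.im : ℂ) ^ 2) * wC_sq h
  rw [e, map_mul]
  exact mul_lt_of_lt_of_le_one hl (v_emb_le h V _)

theorem tz_congr {L : PeriodPair} {ξ : ℂ →+ (WC A B).Point} (hξ : IsXi A B L ξ) {z w : ℂ}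
    (hz : z ∉ L.lattice) (hw : w ∉ L.lattice) (hzw : z - w ∈ L.lattice) :
    tz A B L z = tz A B L w := by
  rw [← zc_xi hξ hz, ← zc_xi hξ hw]
  have h1 := hξ.zero _ hzw
  rw [map_sub, sub_eq_zero] at h1
  rw [h1]

/-- a natural number prime to `q` is a unit -/
theorem v_nat_one {V : ValuationSubring ℂ} {q : ℕ} (hq : q.Prime) (hv : V.valuation (q : ℂ) < 1)
    {m : ℕ} (hm : ¬ q ∣ m) : V.valuation (m : ℂ) = 1 := by
  refine le_antisymm (v_nat V.valuation m) ?_
  by_contra hc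
  push Not at hc
  have h1 : IsCoprime (m : ℤ) (q : ℤ) :=
    Nat.isCoprime_iff_coprime.2 ((Nat.Prime.coprime_iff_not_dvd hq).2 hm).symm
  obtain ⟨a, b, hab⟩ := h1
  have h2 : (a : ℂ) * m + b * q = 1 := by exact_mod_cast hab
  have h3 : V.valuation ((a : ℂ) * m + b * q) < 1 := by
    have ha : V.valuation (a : ℂ) ≤ 1 :=
      (ValuationSubring.valuation_le_one_iff _ _).2 (intCast_mem V a)
    have hb : V.valuation (b : ℂ) ≤ 1 :=
      (ValuationSubring.valuation_le_one_iff _ _).2 (intCast_mem V b)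
    refine V.valuation.map_add_lt ?_ ?_
    · rw [map_mul]
      exact mul_lt_of_le_one_of_lt ha hc
    · rw [map_mul]
      exact mul_lt_of_le_one_of_lt hb hv
  rw [h2, map_one] at h3
  exact lt_irrefl _ h3

end TRA

open _root_.Pool.Agent.MU3V.TRA in
/-- total ramification: the parameter of a point of order `lam` -/
theorem tv_TRA (hC : Sv_CYCL) (hR2 : Sv_R2) (hR4 : Sv_R4) (hK : Sv_CARD) : Sv_TRA := by
  intro A B L Om ξ h hL hξ V h2 lam q hq hnm hl u hu huL
  have hv := v_q_lt h V hnm hl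
  have hq2 : q ≠ 2 := by
    rintro rfl
    rw [Nat.cast_ofNat, h2] at hv
    exact lt_irrefl _ hv
  obtain ⟨hc1, hc2, hc3⟩ := hC A B L Om h hL lam q hq hnm
  obtain ⟨H, hH⟩ := hc3 hq2
  have hlam : lam ≠ 0 := by
    rintro rfl
    have h3 : (q : ℤ) = 0 := by
      rw [← hnm]
      simp [nm]
    exact hq.ne_zero (by exact_mod_cast h3)
  have hcard := hK A B L Om h hL lam q hnm hlam H hH
  have hin : ∀ u, emb lam * u ∈ L.lattice → InE1 A B V L u :=
    fun u hu => hR2 A B L Om ξ h hL hξ V h2 lam q hq hnm hl u hu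
  have h4 := (hR4 A B L Om ξ h hL hξ V h2 lam q hq hv hlam H hH hcard hin).1
  have hp : ∀ p ∈ H, V.valuation (xx A B L p) * V.valuation (tz A B L u) ^ 2 = 1 := by
    intro p hp
    have hpL : p ∉ L.lattice := fun h0 => hH.ne p hp (by
      rw [two_mul]
      exact add_mem h0 h0)
    have hpl := hH.mem p hp
    obtain ⟨m, hm⟩ := hc1 p u hpl hu huL
    have hqu := hc2 u hu
    have hq0 : (0 : ℤ) < q := by exact_mod_cast hq.pos
    obtain ⟨n, hn⟩ : ∃ n : ℕ, (n : ℤ) = m % q :=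
      ⟨(m % q).toNat, Int.toNat_of_nonneg (Int.emod_nonneg _ hq0.ne')⟩
    have hmn : p - n * u ∈ L.lattice := by
      have e1 : (m : ℂ) = n + (q : ℂ) * (m / q : ℤ) := by
        have e2 : m = n + q * (m / q) := by
          rw [hn]
          exact (Int.emod_add_mul_ediv m q).symm
        exact_mod_cast congrArg (Int.cast : ℤ → ℂ) e2
      have e3 : p - n * u = (p - m * u) + ((m / q : ℤ) : ℤ) • ((q : ℂ) * u) := by
        rw [e1, zsmul_eq_mul]
        ring
      rw [e3]
      exact add_mem hm (L.lattice.smul_mem _ hqu)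
    have hnL : (n : ℂ) * u ∉ L.lattice := fun h0 => hpL (by
      have := add_mem hmn h0
      rwa [sub_add_cancel] at this)
    have hqn : ¬ q ∣ n := by
      rintro ⟨k, rfl⟩
      apply hnL
      have e4 : ((q * k : ℕ) : ℂ) * u = (k : ℤ) • ((q : ℂ) * u) := by
        rw [zsmul_eq_mul]
        push_cast
        ring
      rw [e4]
      exact L.lattice.smul_mem _ hqu
    have h5 := v_tz_nat h h2 hξ (hin u hu) (v_nat_one hq hv hqn) huL hnL
    rw [← tz_congr hξ hpL hnL hmn] at h5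
    have h6 := (v_tz_lt h h2 hξ (hin p hpl) hpL).2.2
    rwa [h5] at h6
  have h7 : (∏ p ∈ H, V.valuation (xx A B L p)) * (V.valuation (tz A B L u) ^ 2) ^ H.card = 1 := by
    rw [← Finset.prod_const, ← Finset.prod_mul_distrib]
    exact Finset.prod_eq_one hp
  have h8 : q - 1 = 2 * H.card := by omega
  rw [h8, pow_mul]
  calc (V.valuation (tz A B L u) ^ 2) ^ H.card
      = (V.valuation (emb lam) * ∏ p ∈ H, V.valuation (xx A B L p)) *
        (V.valuation (tz A B L u) ^ 2) ^ H.card := by rw [h4, one_mul]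
    _ = V.valuation (emb lam) := by rw [mul_assoc, h7, mul_one]

end

end Pool.Agent.MU3V


end

section

/-!
# MU3, block V: module R4 (helper18)
-/

set_option autoImplicit false

open WeierstrassCurve Polynomial

namespace Pool.Agent.MU3V

open _root_.MU3 _root_.Pool.Agent.MU3A _root_.Pool.Agent.MU3B

namespace R418

variable {V : ValuationSubring ℂ}

lemma mulc {a b c d : ℂ} (ha : V.valuation a ≤ 1) (hd : V.valuation d ≤ 1)
    (h1 : V.valuation (a - b) < 1) (h2 : V.valuation (c - d) < 1) :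
    V.valuation (a * c - b * d) < 1 := by
  have e : a * c - b * d = a * (c - d) + (a - b) * d := by ring
  rw [e]
  refine V.valuation.map_add_lt ?_ ?_
  · rw [map_mul]
    exact lt_of_le_of_lt (mul_le_of_le_one_left' ha) h2
  · rw [map_mul]
    exact lt_of_le_of_lt (mul_le_of_le_one_right' hd) h1

lemma prodc (S : Finset ℂ) (f : ℂ → ℂ) (y : ℂ) (hy : V.valuation y ≤ 1)
    (hf : ∀ p ∈ S, V.valuation (f p) ≤ 1) (h : ∀ p ∈ S, V.valuation (f p - y) < 1) :
    V.valuation (∏ p ∈ S, f p) ≤ 1 ∧ V.valuation (∏ p ∈ S, f p - y ^ S.card) < 1 := by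
  classical
  induction S using Finset.induction_on with
  | empty => simp
  | insert a S ha ih =>
    obtain ⟨i1, i2⟩ := ih (fun p hp => hf p (Finset.mem_insert_of_mem hp))
      (fun p hp => h p (Finset.mem_insert_of_mem hp))
    have ha1 := hf a (Finset.mem_insert_self a S)
    rw [Finset.prod_insert ha, Finset.card_insert_of_notMem ha, pow_succ']
    refine ⟨?_, mulc ha1 ?_ (h a (Finset.mem_insert_self a S)) i2⟩
    · rw [map_mul]
      exact mul_le_one' ha1 i1
    · rw [map_pow]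
      exact pow_le_one' hy _

lemma frob {q : ℕ} (hq : q.Prime) (hv : V.valuation (q : ℂ) < 1) {a b : ℂ}
    (ha : V.valuation a ≤ 1) (hb : V.valuation b ≤ 1) :
    V.valuation (a ^ q - b ^ q - (a - b) ^ q) < 1 := by
  obtain ⟨a', rfl⟩ : ∃ a' : V, (a' : ℂ) = a :=
    ⟨⟨a, (ValuationSubring.valuation_le_one_iff _ _).1 ha⟩, rfl⟩
  obtain ⟨b', rfl⟩ : ∃ b' : V, (b' : ℂ) = b :=
    ⟨⟨b, (ValuationSubring.valuation_le_one_iff _ _).1 hb⟩, rfl⟩
  obtain ⟨r, hr⟩ := exists_add_pow_prime_eq hq (a' - b') b'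
  have h1 := congrArg (Subtype.val : V → ℂ) hr
  push_cast at h1
  have e : (a' : ℂ) ^ q - (b' : ℂ) ^ q - ((a' : ℂ) - b') ^ q =
      (q : ℂ) * (((a' - b') * b' * r : V) : ℂ) := by
    push_cast
    have e2 : (a' : ℂ) - b' + b' = a' := by ring
    rw [e2] at h1
    linear_combination h1
  rw [e, map_mul]
  exact lt_of_le_of_lt (mul_le_of_le_one_right'
    ((ValuationSubring.valuation_le_one_iff _ _).2 ((a' - b') * b' * r : V).2)) hv

lemma eqone {a b : ℂ} (hb : V.valuation b = 1) (h : V.valuation (a - b) < 1) :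
    V.valuation a = 1 := by
  have e : a = (a - b) + b := by ring
  rw [e, V.valuation.map_add_eq_of_lt_right (by rwa [hb]), hb]

end R418

open _root_.Pool.Agent.MU3V.R418 in
theorem tv_R4 (hPOL : Sv_POL) : Sv_R4 := by
  intro A B L Om ξ hc hCM hξ V h2 lam q hq hv hlam H hH hcard hE
  set l : ℂ := emb lam with hl
  have hl0 : l ≠ 0 := emb_ne_zero hc hlam
  have hlL : ∀ u ∈ L.lattice, l * u ∈ L.lattice := fun u hu => hCM.toIsLat.emb_mul_mem hc lam hu
  obtain ⟨hP1, -⟩ := hPOL A B L l H hl0 hlL hH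
  -- points of order two
  have ord2 : ∀ w : ℂ, 2 * w ∈ L.lattice → w ∉ L.lattice → ¬ InE1 A B V L w := by
    intro w hw hwL hE1
    exact hwL (mem_of_nat_mul hc h2 hξ hE1 (n := 2) (by simpa using h2) (by simpa using hw))
  have noL : ∀ w : ℂ, 2 * w ∈ L.lattice → w ∉ L.lattice → l * w ∉ L.lattice := by
    intro w hw hwL h
    obtain ⟨p, hp, h1⟩ := hH.surj w h hwL
    apply hH.ne p hp
    rcases h1 with h1 | h1
    · have h3 := L.lattice.sub_mem hw (L.lattice.add_mem h1 h1)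
      have e : 2 * w - (w - p + (w - p)) = 2 * p := by ring
      rwa [e] at h3
    · have h3 := L.lattice.sub_mem (L.lattice.add_mem h1 h1) hw
      have e : w + p + (w + p) - 2 * w = 2 * p := by ring
      rwa [e] at h3
  have ordl : ∀ w : ℂ, 2 * w ∈ L.lattice → 2 * (l * w) ∈ L.lattice := by
    intro w hw
    have h1 := hlL _ hw
    have e : l * (2 * w) = 2 * (l * w) := by ring
    rwa [e] at h1
  -- the third part
  have third : ∀ w : ℂ, 2 * w ∈ L.lattice → w ∉ L.lattice → ∀ x ∈ V,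
      V.valuation ((x - xx A B L w) * (Cp A B L w H).eval x ^ 2 - (x - xx A B L w) ^ q) < 1 := by
    intro w hw hwL x hx
    have hnE := ord2 w hw hwL
    have hx1 : V.valuation x ≤ 1 := (ValuationSubring.valuation_le_one_iff _ _).2 hx
    have hxw := (int_x hnE).2
    have hy : V.valuation (x - xx A B L w) ≤ 1 := V.valuation.map_sub_le hx1 hxw
    have hCe : (Cp A B L w H).eval x = ∏ p ∈ H, (x - xx A B L (w + p)) := by
      rw [Cp, eval_prod]
      simp
    obtain ⟨i1, i2⟩ := prodc (V := V) H (fun p => x - xx A B L (w + p)) (x - xx A B L w) hy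
      (fun p hp => by
        have h3 := (near hc h2 hξ hnE (hE p (hH.mem p hp)) (fun h => hH.ne p hp (by
          rw [two_mul]
          exact L.lattice.add_mem h h))).1
        exact V.valuation.map_sub_le hx1 (int_x h3).2)
      (fun p hp => by
        have h3 := (near_lt hc h2 hξ hnE (hE p (hH.mem p hp))).1
        have e : x - xx A B L (w + p) - (x - xx A B L w) =
            -(xx A B L (w + p) - xx A B L w) := by ring
        rw [e, Valuation.map_neg]
        exact h3)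
    rw [← hCe] at i1 i2
    have hyc : V.valuation ((x - xx A B L w) ^ H.card) ≤ 1 := by
      rw [map_pow]
      exact pow_le_one' hy _
    have h4 := mulc i1 hyc i2 i2
    have h5 := mulc (a := x - xx A B L w) (b := x - xx A B L w) hy
      (d := (x - xx A B L w) ^ H.card * (x - xx A B L w) ^ H.card) (by
        rw [map_mul]
        exact mul_le_one' hyc hyc) (by rw [sub_self, map_zero]; exact zero_lt_one) h4
    have e1 : (x - xx A B L w) * ((x - xx A B L w) ^ H.card * (x - xx A B L w) ^ H.card) =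
        (x - xx A B L w) ^ q := by
      rw [← hcard]
      ring
    rw [e1, ← pow_two] at h5
    exact h5
  -- the second part
  have second : ∀ w₁ w₂ : ℂ, 2 * w₁ ∈ L.lattice → w₁ ∉ L.lattice → 2 * w₂ ∈ L.lattice →
      w₂ ∉ L.lattice → ∀ x ∈ V,
      V.valuation ((xx A B L (l * w₂) - xx A B L (l * w₁)) *
        (Qp A B L l H).eval x ^ 2 - (xx A B L w₂ - xx A B L w₁) ^ q) < 1 := by
    intro w₁ w₂ a1 a2 b1 b2 x hx
    have h3 := congrArg (fun f : ℂ[X] => f.eval x) (hP1 w₁ w₂ a1 a2 b1 b2)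
    simp only [eval_mul, eval_sub, eval_C, eval_X, eval_pow] at h3
    have t1 := third w₁ a1 a2 x hx
    have t2 := third w₂ b1 b2 x hx
    have hx1 : V.valuation x ≤ 1 := (ValuationSubring.valuation_le_one_iff _ _).2 hx
    have t3 := frob (V := V) hq hv (a := x - xx A B L w₁) (b := x - xx A B L w₂)
      (V.valuation.map_sub_le hx1 (int_x (ord2 w₁ a1 a2)).2)
      (V.valuation.map_sub_le hx1 (int_x (ord2 w₂ b1 b2)).2)
    have e2 : x - xx A B L w₁ - (x - xx A B L w₂) = xx A B L w₂ - xx A B L w₁ := by ring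
    rw [e2] at t3
    rw [h3]
    have e : (x - xx A B L w₁) * eval x (Cp A B L w₁ H) ^ 2 -
        (x - xx A B L w₂) * eval x (Cp A B L w₂ H) ^ 2 - (xx A B L w₂ - xx A B L w₁) ^ q =
        ((x - xx A B L w₁) * eval x (Cp A B L w₁ H) ^ 2 - (x - xx A B L w₁) ^ q) +
        (-((x - xx A B L w₂) * eval x (Cp A B L w₂ H) ^ 2 - (x - xx A B L w₂) ^ q) +
        ((x - xx A B L w₁) ^ q - (x - xx A B L w₂) ^ q - (xx A B L w₂ - xx A B L w₁) ^ q)) := by
      ring
    rw [e]
    exact V.valuation.map_add_lt t1 (V.valuation.map_add_lt (by rwa [Valuation.map_neg]) t3)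
  refine ⟨?_, second, third⟩
  -- the first part
  have hOm := hCM.Om_ne
  have half : ∀ x : OO A B, (¬ ∃ y : OO A B, x = 2 * y) → 2 * (Om * emb x / 2) ∈ L.lattice ∧
      Om * emb x / 2 ∉ L.lattice := by
    intro x hx
    refine ⟨(hCM.mem _).2 ⟨x, by ring⟩, fun h => ?_⟩
    obtain ⟨y, hy⟩ := (hCM.mem _).1 h
    apply hx
    refine ⟨y, emb_inj hc ?_⟩
    have e2 : emb (2 * y) = 2 * emb y := by
      rw [emb_mul hc]
      congr 1
      simpa using emb_natCast hc 2
    rw [e2]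
    have h3 : Om * (emb x - 2 * emb y) = 0 := by linear_combination 2 * hy
    rcases mul_eq_zero.1 h3 with h4 | h4
    · exact absurd h4 hOm
    · exact sub_eq_zero.1 h4
  have two_mul' : ∀ y : OO A B, (2 * y).re = 2 * y.re ∧ (2 * y).im = 2 * y.im := by
    intro y
    rw [two_mul]
    exact ⟨by simp [QuadraticAlgebra.re_add, two_mul], by simp [QuadraticAlgebra.im_add, two_mul]⟩
  have par1 : ∀ (n : ℤ), ¬ ∃ y : OO A B, (⟨1, n⟩ : OO A B) = 2 * y := by
    rintro n ⟨y, hy⟩
    have h3 := congrArg QuadraticAlgebra.re hy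
    rw [(two_mul' y).1] at h3
    have h4 : (1 : ℤ) = 2 * y.re := h3
    omega
  have par2 : ∀ (n : ℤ), ¬ ∃ y : OO A B, (⟨n, 1⟩ : OO A B) = 2 * y := by
    rintro n ⟨y, hy⟩
    have h3 := congrArg QuadraticAlgebra.im hy
    rw [(two_mul' y).2] at h3
    have h4 : (1 : ℤ) = 2 * y.im := h3
    omega
  obtain ⟨a1, a2⟩ := half _ (par1 0)
  obtain ⟨b1, b2⟩ := half _ (par2 0)
  obtain ⟨c1, c2⟩ := half _ (par2 1)
  obtain ⟨d1, d2⟩ := half _ (par2 (-1))
  have ec : Om * emb (⟨0, 1⟩ : OO A B) / 2 + Om * emb (⟨1, 0⟩ : OO A B) / 2 =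
      Om * emb (⟨1, 1⟩ : OO A B) / 2 := by
    simp only [emb]
    push_cast
    ring
  have ed : Om * emb (⟨0, 1⟩ : OO A B) / 2 - Om * emb (⟨1, 0⟩ : OO A B) / 2 =
      Om * emb (⟨-1, 1⟩ : OO A B) / 2 := by
    simp only [emb]
    push_cast
    ring
  rw [← ec] at c1 c2
  rw [← ed] at d1 d2
  generalize Om * emb (⟨1, 0⟩ : OO A B) / 2 = w₁ at a1 a2 c1 c2 d1 d2
  generalize Om * emb (⟨0, 1⟩ : OO A B) / 2 = w₂ at b1 b2 c1 c2 d1 d2
  have u1 : V.valuation (xx A B L w₂ - xx A B L w₁) = 1 :=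
    v_xx_sub hc h2 hξ (ord2 _ b1 b2) (ord2 _ a1 a2) (ord2 _ c1 c2) (ord2 _ d1 d2)
  have u2 : V.valuation (xx A B L (l * w₂) - xx A B L (l * w₁)) = 1 := by
    refine v_xx_sub hc h2 hξ (ord2 _ (ordl _ b1) (noL _ b1 b2)) (ord2 _ (ordl _ a1) (noL _ a1 a2))
      ?_ ?_
    · rw [← mul_add]
      exact ord2 _ (ordl _ c1) (noL _ c1 c2)
    · rw [← mul_sub]
      exact ord2 _ (ordl _ d1) (noL _ d1 d2)
  have h3 := second w₁ w₂ a1 a2 b1 b2 0 (zero_mem V)
  have h4 := eqone (by rw [map_pow, u1, one_pow]) h3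
  rw [map_mul, u2, one_mul, map_pow] at h4
  have h5 : V.valuation ((Qp A B L l H).eval 0) = 1 := (pow_eq_one_iff.1 h4).resolve_right two_ne_zero
  have h6 : (Qp A B L l H).eval 0 = l * ∏ p ∈ H, (-xx A B L p) := by
    rw [Qp, eval_mul, eval_C, eval_prod]
    simp
  rw [h6, map_mul, map_prod] at h5
  simp only [Valuation.map_neg] at h5
  exact h5

end Pool.Agent.MU3V


end

section

set_option autoImplicit false

namespace Pool.Agent.MU3V

open _root_.MU3 _root_.Pool.Agent.MU3A _root_.Pool.Agent.MU3B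

lemma CARD_norm {A B : ℤ} (h : Case A B) (x : OO A B) : ‖emb x‖ ^ 2 = (nm x : ℝ) := by
  have hd : (0 : ℝ) ≤ (absD A B : ℝ) := by exact_mod_cast (absD_pos h).le
  have hs : Real.sqrt (absD A B) ^ 2 = (absD A B : ℝ) := Real.sq_sqrt hd
  have hre : (emb x).re = x.re + x.im * B / 2 := by
    simp [emb, wC]; ring
  have him : (emb x).im = x.im * Real.sqrt (absD A B) / 2 := by
    simp [emb, wC]; ring
  rw [← Complex.normSq_eq_norm_sq, Complex.normSq_apply, hre, him]
  have key : ((absD A B : ℤ) : ℝ) = -4 * A - B ^ 2 := by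
    rcases h with ⟨rfl, rfl⟩ | ⟨rfl, rfl⟩ <;> norm_num [absD]
  have e : (x.im * Real.sqrt (absD A B) / 2 : ℝ) * (x.im * Real.sqrt (absD A B) / 2) =
      (x.im : ℝ) ^ 2 * (-4 * A - B ^ 2) / 4 := by
    rw [← key]
    linear_combination ((x.im : ℝ) ^ 2 / 4) * hs
  rw [e, nm]
  push_cast
  ring

theorem tv_CARD (hHRE : St_HRE) : Sv_CARD := by
  intro A B L Om hc hL lam q hq hlam H hH
  have h0 := emb_ne_zero hc hlam
  have h1 := (hHRE L (emb lam) H h0 (fun w hw => hL.toIsLat.emb_mul_mem hc lam hw) hH).2.2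
  rw [CARD_norm hc, hq] at h1
  have h2 : (((2 * H.card + 1 : ℕ)) : ℝ) = ((q : ℕ) : ℝ) := by
    push_cast at h1 ⊢
    exact h1
  exact_mod_cast h2

end Pool.Agent.MU3V


end

section

/-!
# MU3, block A: module XI (helper50)
-/

set_option autoImplicit false

namespace Pool.Agent.MU3A

open _root_.MU3 _root_.Pool.Agent.MU3B Polynomial

noncomputable section

namespace XI50

open WeierstrassCurve.Affine

theorem some_eq {W : WeierstrassCurve.Affine ℂ} {x y x' y' : ℂ} (h : W.Nonsingular x y)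
    (h' : W.Nonsingular x' y') (hx : x = x') (hy : y = y') :
    Point.some x y h = Point.some x' y' h' := by
  subst hx hy
  rfl

end XI50

open _root_.Pool.Agent.MU3A.XI50 WeierstrassCurve.Affine in
theorem ta_XI (h1 : Sa_EQN) (h2 : Sa_LAW) : Sa_XI := by
  classical
  intro A B L Om hc hL
  obtain ⟨heq, hns, hpar, hper, hinj, -, hy0, hsurj, -⟩ := h1 A B L Om hc hL
  obtain ⟨hadd, hdbl⟩ := h2 A B L Om hc hL
  set W : WeierstrassCurve.Affine ℂ := WeierstrassCurve.Affine.baseChange (EE A B) ℂ with hW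
  have w1 : W.a₁ = 0 := map_zero (algebraMap (kk A B) ℂ)
  have w3 : W.a₃ = 0 := map_zero (algebraMap (kk A B) ℂ)
  have w2 : W.a₂ = emb (a2 A B) := rfl
  have w4 : W.a₄ = emb (a4 A B) := rfl
  have w6 : W.a₆ = emb (a6 A B) / 4 := by
    have e : W.a₆ = algebraMap (kk A B) ℂ (ek (a6 A B) / 4) := rfl
    rw [e, map_div₀, map_ofNat]
    rfl
  have ns : ∀ z, z ∉ L.lattice → W.Nonsingular (xx A B L z) (yy L z) := by
    intro z hz
    rw [WeierstrassCurve.Affine.nonsingular_iff', WeierstrassCurve.Affine.equation_iff, w1, w2, w3,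
      w4, w6]
    refine ⟨by linear_combination heq z hz, ?_⟩
    rcases hns z hz with h | h
    · right
      intro h0
      apply h
      linear_combination h0 / 2
    · left
      intro h0
      apply h
      linear_combination -h0
  set f : ℂ → W.Point := fun z => if h : z ∈ L.lattice then 0 else Point.some _ _ (ns z h) with hf
  have hf0 : ∀ z, z ∈ L.lattice → f z = 0 := fun z hz => dif_pos hz
  have hf1 : ∀ z (hz : z ∉ L.lattice), f z = Point.some _ _ (ns z hz) := fun z hz => dif_neg hz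
  have hfper : ∀ z, ∀ u ∈ L.lattice, f (z + u) = f z := by
    intro z u hu
    by_cases hz : z ∈ L.lattice
    · rw [hf0 z hz, hf0 _ (add_mem hz hu)]
    · have hzu : z + u ∉ L.lattice := fun h => hz (by
        have := sub_mem h hu
        rwa [add_sub_cancel_right] at this)
      rw [hf1 z hz, hf1 _ hzu]
      exact some_eq _ _ (hper z u hu).1 (hper z u hu).2
  have hnegY : ∀ x y : ℂ, W.negY x y = -y := by
    intro x y
    rw [WeierstrassCurve.Affine.negY, w1, w3]
    ring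
  have hmap : ∀ z z', f (z + z') = f z + f z' := by
    intro z z'
    by_cases hz : z ∈ L.lattice
    · rw [hf0 z hz, zero_add, add_comm z z', hfper z' z hz]
    by_cases hz' : z' ∈ L.lattice
    · rw [hf0 z' hz', add_zero, hfper z z' hz']
    by_cases hzz : z + z' ∈ L.lattice
    · rw [hf0 _ hzz, hf1 z hz, hf1 z' hz']
      have e : z = -z' + (z + z') := by ring
      have hx : xx A B L z = xx A B L z' := by
        rw [e, (hper (-z') _ hzz).1, (hpar z').1]
      have hy : yy L z = -yy L z' := by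
        rw [e, (hper (-z') _ hzz).2, (hpar z').2]
      exact (Point.add_of_Y_eq hx (by rw [hnegY]; exact hy)).symm
    by_cases hzd : z - z' ∈ L.lattice
    · have e1 : f z' = f z := by
        have := hfper z' _ hzd
        rw [← this]
        congr 1
        ring
      have e2 : f (z + z') = f (2 * z) := by
        have := hfper (z + z') _ hzd
        rw [← this]
        congr 1
        ring
      have h2z : 2 * z ∉ L.lattice := by
        intro h
        apply hzz
        have := sub_mem h hzd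
        have e : z + z' = 2 * z - (z - z') := by ring
        rwa [e]
      have hy : yy L z ≠ 0 := fun h => h2z ((hy0 z hz).1 h)
      have hyne : yy L z ≠ W.negY (xx A B L z) (yy L z) := by
        rw [hnegY]
        intro h0
        apply hy
        linear_combination h0 / 2
      rw [e1, e2, hf1 z hz, hf1 _ h2z, Point.add_self_of_Y_ne hyne]
      have hsl : W.slope (xx A B L z) (xx A B L z) (yy L z) (yy L z) =
          (3 * xx A B L z ^ 2 + 2 * emb (a2 A B) * xx A B L z + emb (a4 A B)) /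
            (2 * yy L z) := by
        rw [WeierstrassCurve.Affine.slope_of_Y_ne rfl hyne, hnegY, w1, w2, w4]
        congr 1 <;> ring
      have hX : W.addX (xx A B L z) (xx A B L z)
          (W.slope (xx A B L z) (xx A B L z) (yy L z) (yy L z)) = xx A B L (2 * z) := by
        rw [WeierstrassCurve.Affine.addX, hsl, w1, w2, (hdbl z h2z).1]
        ring
      apply some_eq
      · exact hX.symm
      · rw [WeierstrassCurve.Affine.addY, WeierstrassCurve.Affine.negAddY, hnegY, hX, hsl,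
          (hdbl z h2z).2]
        ring
    · have hxne : xx A B L z ≠ xx A B L z' := by
        intro h
        rcases hinj z z' hz hz' h with h3 | h3
        · exact hzd h3
        · exact hzz h3
      rw [hf1 z hz, hf1 z' hz', hf1 _ hzz, Point.add_of_X_ne hxne]
      have hsl : W.slope (xx A B L z) (xx A B L z') (yy L z) (yy L z') =
          (yy L z - yy L z') / (xx A B L z - xx A B L z') :=
        WeierstrassCurve.Affine.slope_of_X_ne hxne
      have hX : W.addX (xx A B L z) (xx A B L z')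
          (W.slope (xx A B L z) (xx A B L z') (yy L z) (yy L z')) = xx A B L (z + z') := by
        rw [WeierstrassCurve.Affine.addX, hsl, w1, w2, (hadd z z' hz hz' hzz hzd).1]
        ring
      apply some_eq
      · exact hX.symm
      · rw [WeierstrassCurve.Affine.addY, WeierstrassCurve.Affine.negAddY, hnegY, hX, hsl,
          (hadd z z' hz hz' hzz hzd).2]
        ring
  refine ⟨⟨⟨f, hf0 0 L.lattice.zero_mem⟩, hmap⟩, ?_, ?_, ?_⟩
  · intro z
    constructor
    · intro h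
      by_contra hz
      have h3 : f z = 0 := h
      rw [hf1 z hz] at h3
      exact Point.some_ne_zero _ h3
    · exact fun hz => hf0 z hz
  · intro P
    rcases P with _ | ⟨x, y, h⟩
    · exact ⟨0, hf0 0 L.lattice.zero_mem⟩
    · have h3 := (WeierstrassCurve.Affine.equation_iff x y).1 h.1
      rw [w1, w2, w3, w4, w6] at h3
      obtain ⟨z, hz, hx, hy⟩ := hsurj x y (by linear_combination h3)
      refine ⟨z, ?_⟩
      have h4 : f z = Point.some x y h := by
        rw [hf1 z hz]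
        exact some_eq _ _ hx hy
      exact h4
  · intro z hz
    exact ⟨ns z hz, hf1 z hz⟩

end

end Pool.Agent.MU3A


end

section

/-!
# MU3, block A: module R11 (the lattice with complex multiplication by `w`, `w² = w - 3`)
-/

set_option autoImplicit false

namespace Pool.Agent.MU3A

open _root_.MU3 _root_.Pool.Agent.MU3B Polynomial

noncomputable section

namespace R11

lemma case11 : Case (-3) 1 := Or.inr ⟨rfl, rfl⟩

lemma w_sq : wC (-3) 1 ^ 2 = wC (-3) 1 - 3 := by
  have := wC_sq case11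
  push_cast at this
  linear_combination this

lemma dvd_iff (a b : ℤ) : (⟨0, 1⟩ : OO (-3) 1) ∣ ⟨a, b⟩ ↔ (3 : ℤ) ∣ a := by
  constructor
  · rintro ⟨y, hy⟩
    have h := congrArg QuadraticAlgebra.re hy
    simp only [QuadraticAlgebra.re_mul] at h
    exact ⟨-y.im, by linarith⟩
  · rintro ⟨c, hc⟩
    refine ⟨⟨b + c, -c⟩, ?_⟩
    ext
    · simp only [QuadraticAlgebra.re_mul]
      linarith
    · simp only [QuadraticAlgebra.im_mul]
      ring

variable {L : PeriodPair} {Om : ℂ}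

lemma u_mem_iff (hL : IsLat (-3) 1 L Om) (a b : ℤ) :
    ((a : ℂ) + b * wC (-3) 1) * (Om / wC (-3) 1) ∈ L.lattice ↔ (3 : ℤ) ∣ a := by
  have h := hL.mul_div_mem_iff case11 (m := ⟨0, 1⟩) (by
    intro h
    have := congrArg QuadraticAlgebra.im h
    simp at this) ⟨a, b⟩
  rw [emb_w] at h
  rw [← dvd_iff a b, ← h]
  simp only [emb]

lemma core {w x0 g2 g3 e e' e'' : ℂ} (h1 : e + e' + e'' = 0)
    (h2 : e * e' + e * e'' + e' * e'' = -(g2 / 4)) (h3 : e * e' * e'' = g3 / 4)
    (n1 : e ≠ x0) (n2 : e' ≠ x0) (n3 : e'' ≠ x0)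
    (P1 : w ^ 2 * e' * (e - x0) ^ 2 = e * (e - x0) ^ 2 + (6 * x0 ^ 2 - g2 / 2) * (e - x0) +
      (4 * x0 ^ 3 - g2 * x0 - g3))
    (P2 : w ^ 2 * e'' * (e' - x0) ^ 2 = e' * (e' - x0) ^ 2 + (6 * x0 ^ 2 - g2 / 2) * (e' - x0) +
      (4 * x0 ^ 3 - g2 * x0 - g3))
    (P3 : w ^ 2 * e * (e'' - x0) ^ 2 = e'' * (e'' - x0) ^ 2 + (6 * x0 ^ 2 - g2 / 2) * (e'' - x0) +
      (4 * x0 ^ 3 - g2 * x0 - g3)) :
    w ^ 2 * g2 = -24 * x0 ^ 2 := by
  have m1 : e - x0 ≠ 0 := sub_ne_zero.2 n1
  have m2 : e' - x0 ≠ 0 := sub_ne_zero.2 n2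
  have m3 : e'' - x0 ≠ 0 := sub_ne_zero.2 n3
  obtain ⟨A, hA⟩ : ∃ A, A = 6 * x0 ^ 2 - g2 / 2 := ⟨_, rfl⟩
  obtain ⟨B, hB⟩ : ∃ B, B = 4 * x0 ^ 3 - g2 * x0 - g3 := ⟨_, rfl⟩
  rw [← hA, ← hB] at P1 P2 P3
  have hB' : B = -4 * ((e - x0) * (e' - x0) * (e'' - x0)) := by
    rw [hB]
    linear_combination (4 * x0 ^ 2) * h1 - (4 * x0) * h2 + 4 * h3
  obtain ⟨p, hp⟩ : ∃ p, p = (e - x0)⁻¹ := ⟨_, rfl⟩
  obtain ⟨p', hp'⟩ : ∃ p, p = (e' - x0)⁻¹ := ⟨_, rfl⟩
  obtain ⟨p'', hp''⟩ : ∃ p, p = (e'' - x0)⁻¹ := ⟨_, rfl⟩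
  have q1 : (e - x0) * p = 1 := by rw [hp]; exact mul_inv_cancel₀ m1
  have q2 : (e' - x0) * p' = 1 := by rw [hp']; exact mul_inv_cancel₀ m2
  have q3 : (e'' - x0) * p'' = 1 := by rw [hp'']; exact mul_inv_cancel₀ m3
  have r1 : w ^ 2 * e' = e + A * p + B * p ^ 2 := by
    rw [hp]; field_simp; linear_combination P1
  have r2 : w ^ 2 * e'' = e' + A * p' + B * p' ^ 2 := by
    rw [hp']; field_simp; linear_combination P2
  have r3 : w ^ 2 * e = e'' + A * p'' + B * p'' ^ 2 := by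
    rw [hp'']; field_simp; linear_combination P3
  have hs : A * (p + p' + p'') + B * (p ^ 2 + p' ^ 2 + p'' ^ 2) = 0 := by
    linear_combination (-1) * r1 - r2 - r3 + (w ^ 2 - 1) * h1
  have hBs : B * (p + p' + p'') = -2 * A := by
    have : B * (p + p' + p'') = -4 * ((e' - x0) * (e'' - x0) + (e - x0) * (e'' - x0) +
        (e - x0) * (e' - x0)) := by
      rw [hB']
      linear_combination (-4 * (e' - x0) * (e'' - x0)) * q1 - (4 * (e - x0) * (e'' - x0)) * q2 -
        (4 * (e - x0) * (e' - x0)) * q3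
    rw [this, hA]
    linear_combination (8 * x0) * h1 - 4 * h2
  have t1 : e * (A * p + B * p ^ 2) = A + B * p + x0 * (A * p + B * p ^ 2) := by
    linear_combination (A + B * p) * q1
  have t2 : e' * (A * p' + B * p' ^ 2) = A + B * p' + x0 * (A * p' + B * p' ^ 2) := by
    linear_combination (A + B * p') * q2
  have t3 : e'' * (A * p'' + B * p'' ^ 2) = A + B * p'' + x0 * (A * p'' + B * p'' ^ 2) := by
    linear_combination (A + B * p'') * q3
  have hfin : w ^ 2 * (-(g2 / 4)) = g2 / 2 + A := by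
    linear_combination (-w ^ 2) * h2 + e * r1 + e' * r2 + e'' * r3 + t1 + t2 + t3 + x0 * hs + hBs +
      (e + e' + e'') * h1 - 2 * h2
  rw [hA] at hfin
  linear_combination (-4) * hfin

end R11

open _root_.Pool.Agent.MU3A.R11 in
theorem ta_R11 (h1 : MU3B.St_CMX) (h2 : MU3B.St_ADD) (h3 : MU3B.St_DUP) (h4 : MU3B.St_NEQ)
    (h5 : MU3B.St_DSC) (h6 : Sa_ROO) : Sa_R11 := by
  intro L Om hL
  have hw := w_sq
  have hw0 : wC (-3) 1 ≠ 0 := wC_ne_zero case11
  obtain ⟨w, hwdef⟩ : ∃ w, w = wC (-3) 1 := ⟨_, rfl⟩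
  have hwm : ∀ z, z ∈ L.lattice → w * z ∈ L.lattice := by
    intro z hz
    rw [hwdef]
    exact hL.mul_mem_w case11 hz
  have hum : ∀ a b : ℤ, ((a : ℂ) + b * w) * (Om / w) ∈ L.lattice ↔ (3 : ℤ) ∣ a := by
    intro a b
    rw [hwdef]
    exact u_mem_iff hL a b
  have htor : ∀ z, w * z ∈ L.lattice → ∃ a b : ℤ, z = ((a : ℂ) + b * w) * (Om / w) := by
    intro z hz
    have h := (hL.torsion_iff case11 (m := ⟨0, 1⟩) (by
      intro h
      have := congrArg QuadraticAlgebra.im h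
      simp at this) z).1 (by rw [emb_w, ← hwdef]; exact hz)
    obtain ⟨x, hx⟩ := h
    refine ⟨x.re, x.im, ?_⟩
    rw [emb_w, ← hwdef] at hx
    rw [hx]
    simp only [emb, ← hwdef]
  rw [← hwdef] at hw hw0 ⊢
  obtain ⟨u, hu⟩ : ∃ u, u = Om / w := ⟨_, rfl⟩
  rw [← hu] at hum htor ⊢
  have hwu : w * u = Om := by
    rw [hu]; field_simp
  have hOm : Om ∈ L.lattice := (hL.mem _).2 ⟨1, by rw [emb_one case11, mul_one]⟩
  have hu1 : u ∉ L.lattice := by
    intro h
    have := (hum 1 0).1 (by simpa using h)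
    norm_num at this
  have hu2 : 2 * u ∉ L.lattice := by
    intro h
    have := (hum 2 0).1 (by simpa using h)
    norm_num at this
  have hu3 : 3 * u ∈ L.lattice := by
    have := (hum 3 0).2 (by norm_num)
    simpa using this
  have hun : -u ∉ L.lattice := fun h => hu1 (by simpa using neg_mem h)
  have hreps : IsReps L w {u, -u} := by
    refine ⟨?_, ?_, ?_, ?_⟩
    · intro q hq
      rw [Finset.mem_insert, Finset.mem_singleton] at hq
      rcases hq with rfl | rfl
      · rw [hwu]; exact hOm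
      · rw [mul_neg, hwu]; exact neg_mem hOm
    · intro q hq
      rw [Finset.mem_insert, Finset.mem_singleton] at hq
      rcases hq with rfl | rfl
      · exact hu1
      · exact hun
    · intro q hq q' hq' hqq
      rw [Finset.mem_insert, Finset.mem_singleton] at hq hq'
      rcases hq with rfl | rfl <;> rcases hq' with rfl | rfl
      · rfl
      · exact absurd (by convert hqq using 1; ring) hu2
      · exact absurd (by convert neg_mem hqq using 1; ring) hu2
      · rfl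
    · intro z hz hzL
      obtain ⟨a, b, rfl⟩ := htor z hz
      rw [hum] at hzL
      have hcase : (3 : ℤ) ∣ a - 1 ∨ (3 : ℤ) ∣ a + 1 := by omega
      rcases hcase with h | h
      · refine ⟨u, by simp, ?_⟩
        have := (hum (a - 1) b).2 h
        convert this using 1
        push_cast
        ring
      · refine ⟨-u, by simp, ?_⟩
        have := (hum (a + 1) b).2 h
        convert this using 1
        push_cast
        ring
  have hune : u ≠ -u := by
    intro h
    exact hu2 (by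
      have h' : 2 * u = 0 := by linear_combination h
      rw [h']; exact zero_mem _)
  -- the main formula
  have main : ∀ z, w * z ∉ L.lattice →
      L.weierstrassP z ≠ L.weierstrassP u ∧
      w ^ 2 * L.weierstrassP (w * z) * (L.weierstrassP z - L.weierstrassP u) ^ 2 =
        L.weierstrassP z * (L.weierstrassP z - L.weierstrassP u) ^ 2 +
          (6 * L.weierstrassP u ^ 2 - L.g₂ / 2) * (L.weierstrassP z - L.weierstrassP u) +
          (4 * L.weierstrassP u ^ 3 - L.g₂ * L.weierstrassP u - L.g₃) := by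
    intro z hz
    have hzL : z ∉ L.lattice := fun h => hz (hwm z h)
    have hzp : z + u ∉ L.lattice := fun h => hz (by
      have := sub_mem (hwm _ h) hOm
      convert this using 1
      linear_combination (-1) * hwu)
    have hzm : z - u ∉ L.lattice := fun h => hz (by
      have := add_mem (hwm _ h) hOm
      convert this using 1
      linear_combination hwu)
    have hne : L.weierstrassP z ≠ L.weierstrassP u := by
      intro h
      rcases h4 L u z hu1 hzL h with h' | h'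
      · exact hzm h'
      · exact hzp h'
    refine ⟨hne, ?_⟩
    have hne' : L.weierstrassP z - L.weierstrassP u ≠ 0 := sub_ne_zero.2 hne
    have hcm := h1 L w {u, -u} hw0 hwm hreps z hz
    rw [Finset.sum_pair hune, L.weierstrassP_neg] at hcm
    have ha := (h2 L u z hu1 hzL hzp hzm).1
    have hb := (h2 L (-u) z hun hzL (by simpa [← sub_eq_add_neg] using hzm)
      (by simpa using hzp)).1
    rw [L.weierstrassP_neg, L.derivWeierstrassP_neg] at hb
    have hsz := L.derivWeierstrassP_sq z hzL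
    have hsu := L.derivWeierstrassP_sq u hu1
    have hsum : L.weierstrassP (z + u) + L.weierstrassP (z + -u) + 2 * L.weierstrassP z +
        2 * L.weierstrassP u =
        (L.derivWeierstrassP z ^ 2 + L.derivWeierstrassP u ^ 2) /
          (2 * (L.weierstrassP z - L.weierstrassP u) ^ 2) := by
      have : L.weierstrassP (z + u) + L.weierstrassP (z + -u) + 2 * L.weierstrassP z +
          2 * L.weierstrassP u = ((L.derivWeierstrassP z - L.derivWeierstrassP u) /
            (2 * (L.weierstrassP z - L.weierstrassP u))) ^ 2 +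
            ((L.derivWeierstrassP z - -L.derivWeierstrassP u) /
            (2 * (L.weierstrassP z - L.weierstrassP u))) ^ 2 := by
        rw [← ha, ← hb]; ring
      rw [this]
      field_simp
      ring
    rw [hsz, hsu, eq_div_iff (by
      exact mul_ne_zero two_ne_zero (pow_ne_zero 2 hne'))] at hsum
    linear_combination (L.weierstrassP z - L.weierstrassP u) ^ 2 * hcm + (1 / 2) * hsum
  -- the points of order two
  have hv : Om / 2 ∉ L.lattice := by
    intro h
    obtain ⟨x, hx⟩ := (hL.mem _).1 h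
    have h0 := hL.Om_ne
    have hx' : emb (2 * x) = emb (1 : OO (-3) 1) := by
      rw [emb_mul case11, emb_one case11]
      have h2' : emb (2 : OO (-3) 1) = 2 := by
        have := emb_natCast (A := -3) (B := 1) case11 2
        exact_mod_cast this
      rw [h2']
      have : Om * (2 * emb x) = Om * 1 := by linear_combination (-2) * hx
      exact mul_left_cancel₀ h0 this
    have := congrArg QuadraticAlgebra.re (emb_inj case11 hx')
    have h3' : (2 * x).re = 2 * x.re := by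
      rw [two_mul, QuadraticAlgebra.re_add]; ring
    rw [h3', QuadraticAlgebra.re_one] at this
    omega
  have hmul : ∀ z, w * z ∈ L.lattice → 2 * z ∈ L.lattice → z ∈ L.lattice := by
    intro z hz hz2
    -- (1 - w) w = 3, so 3 z ∈ L
    have h3z : 3 * z ∈ L.lattice := by
      have := sub_mem hz (hwm _ hz)
      convert this using 1
      linear_combination z * hw
    have := sub_mem h3z hz2
    convert this using 1
    ring
  have hv2 : 2 * (Om / 2) ∈ L.lattice := by
    convert hOm using 1; ring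
  have hv' : w * (Om / 2) ∉ L.lattice := fun h => hv (hmul _ h hv2)
  have hv'2 : 2 * (w * (Om / 2)) ∈ L.lattice := by
    convert hwm _ hOm using 1; ring
  have hww : w * (w * (Om / 2)) ∉ L.lattice := fun h => hv' (hmul _ h hv'2)
  have hww2 : 2 * (w * (w * (Om / 2))) ∈ L.lattice := by
    convert hwm _ (hwm _ hOm) using 1; ring
  have hv''eq : Om / 2 + w * (Om / 2) = w * (w * (Om / 2)) + 2 * Om := by
    linear_combination (-(Om / 2)) * hw
  have h2Om : 2 * Om ∈ L.lattice := by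
    convert add_mem hOm hOm using 1; ring
  have hv'' : Om / 2 + w * (Om / 2) ∉ L.lattice := by
    rw [hv''eq]
    intro h
    exact hww (by convert sub_mem h h2Om using 1; ring)
  obtain ⟨-, -, -, r1, r2, r3⟩ := h6 L (Om / 2) (w * (Om / 2)) hv hv' hv'' hv2 hv'2
  have hPv'' : L.weierstrassP (w * (w * (Om / 2))) = L.weierstrassP (Om / 2 + w * (Om / 2)) := by
    rw [hv''eq]
    exact (L.weierstrassP_add_coe _ ⟨_, h2Om⟩).symm
  have hwv''eq : w * (Om / 2 + w * (Om / 2)) = Om / 2 + (w * Om - 2 * Om) := by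
    linear_combination (Om / 2) * hw
  have hwO : w * Om - 2 * Om ∈ L.lattice := sub_mem (hwm _ hOm) h2Om
  have hwv'' : w * (Om / 2 + w * (Om / 2)) ∉ L.lattice := by
    rw [hwv''eq]
    intro h
    exact hv (by convert sub_mem h hwO using 1; ring)
  have hPwv'' : L.weierstrassP (w * (Om / 2 + w * (Om / 2))) = L.weierstrassP (Om / 2) := by
    rw [hwv''eq]
    exact L.weierstrassP_add_coe _ ⟨_, hwO⟩
  obtain ⟨n1, P1⟩ := main (Om / 2) hv'
  obtain ⟨n2, P2⟩ := main (w * (Om / 2)) hww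
  obtain ⟨n3, P3⟩ := main (Om / 2 + w * (Om / 2)) hwv''
  rw [hPv''] at P2
  rw [hPwv''] at P3
  have hg2 := core r1 r2 r3 n1 n2 n3 P1 P2 P3
  obtain ⟨x0, hx0⟩ : ∃ x0, x0 = L.weierstrassP u := ⟨_, rfl⟩
  obtain ⟨e, he⟩ : ∃ x0, x0 = L.weierstrassP (Om / 2) := ⟨_, rfl⟩
  obtain ⟨e', he'⟩ : ∃ x0, x0 = L.weierstrassP (w * (Om / 2)) := ⟨_, rfl⟩
  obtain ⟨e'', he''⟩ : ∃ x0, x0 = L.weierstrassP (Om / 2 + w * (Om / 2)) := ⟨_, rfl⟩
  have hne : x0 ≠ 0 := by
    intro h0
    rw [← he, ← he', ← hx0, h0] at P1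
    rw [← he', ← he'', ← hx0, h0] at P2
    rw [← he, ← he'', ← hx0, h0] at P3
    rw [← hx0, h0] at hg2
    rw [← he, ← he', ← he''] at r3
    have hg20 : L.g₂ = 0 := by
      have : w ^ 2 * L.g₂ = 0 := by rw [hg2]; ring
      rcases mul_eq_zero.1 this with h | h
      · exact absurd h (pow_ne_zero 2 hw0)
      · exact h
    have hg30 : L.g₃ ≠ 0 := by
      intro h
      apply (h5 L).1
      rw [hg20, h]
      ring
    rw [hg20] at P1 P2 P3
    rw [← he, hx0.symm, h0] at n1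
    rw [← he', hx0.symm, h0] at n2
    rw [← he'', hx0.symm, h0] at n3
    have hc1 : 4 * e ^ 3 = L.g₃ := by
      have := L.derivWeierstrassP_sq (Om / 2) hv
      have hd : L.derivWeierstrassP (Om / 2) = 0 := by
        have h' := L.derivWeierstrassP_neg (Om / 2)
        have h'' : L.derivWeierstrassP (-(Om / 2)) = L.derivWeierstrassP (Om / 2) := by
          have := L.derivWeierstrassP_add_coe (-(Om / 2)) ⟨_, hOm⟩
          rw [← this]
          congr 1
          push_cast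
          ring
        rw [h''] at h'
        have : 2 * L.derivWeierstrassP (Om / 2) = 0 := by linear_combination h'
        simpa using this
      rw [hd, ← he, hg20] at this
      linear_combination (-1) * this
    have hc2 : 4 * e' ^ 3 = L.g₃ := by
      have := L.derivWeierstrassP_sq (w * (Om / 2)) hv'
      have hd : L.derivWeierstrassP (w * (Om / 2)) = 0 := by
        have h' := L.derivWeierstrassP_neg (w * (Om / 2))
        have h'' : L.derivWeierstrassP (-(w * (Om / 2))) = L.derivWeierstrassP (w * (Om / 2)) := by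
          have := L.derivWeierstrassP_add_coe (-(w * (Om / 2))) ⟨_, hwm _ hOm⟩
          rw [← this]
          congr 1
          push_cast
          ring
        rw [h''] at h'
        have : 2 * L.derivWeierstrassP (w * (Om / 2)) = 0 := by linear_combination h'
        simpa using this
      rw [hd, ← he', hg20] at this
      linear_combination (-1) * this
    have hc3 : 4 * e'' ^ 3 = L.g₃ := by
      have := L.derivWeierstrassP_sq (Om / 2 + w * (Om / 2)) hv''
      have hd : L.derivWeierstrassP (Om / 2 + w * (Om / 2)) = 0 := by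
        have h' := L.derivWeierstrassP_neg (Om / 2 + w * (Om / 2))
        have h'' : L.derivWeierstrassP (-(Om / 2 + w * (Om / 2))) =
            L.derivWeierstrassP (Om / 2 + w * (Om / 2)) := by
          have := L.derivWeierstrassP_add_coe (-(Om / 2 + w * (Om / 2)))
            ⟨_, add_mem hOm (hwm _ hOm)⟩
          rw [← this]
          congr 1
          push_cast
          ring
        rw [h''] at h'
        have : 2 * L.derivWeierstrassP (Om / 2 + w * (Om / 2)) = 0 := by linear_combination h'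
        simpa using this
      rw [hd, ← he'', hg20] at this
      linear_combination (-1) * this
    have k1 : w ^ 2 * e' = -3 * e := by
      have : e ^ 2 * (w ^ 2 * e') = e ^ 2 * (-3 * e) := by linear_combination P1 + hc1
      exact mul_left_cancel₀ (pow_ne_zero 2 n1) this
    have k2 : w ^ 2 * e'' = -3 * e' := by
      have : e' ^ 2 * (w ^ 2 * e'') = e' ^ 2 * (-3 * e') := by linear_combination P2 + hc2
      exact mul_left_cancel₀ (pow_ne_zero 2 n2) this
    have k3 : w ^ 2 * e = -3 * e'' := by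
      have : e'' ^ 2 * (w ^ 2 * e) = e'' ^ 2 * (-3 * e'') := by linear_combination P3 + hc3
      exact mul_left_cancel₀ (pow_ne_zero 2 n3) this
    have hprod : (e * e' * e'') * (w ^ 6 + 27) = 0 := by
      have : (w ^ 2 * e') * (w ^ 2 * e'') * (w ^ 2 * e) = (-3 * e) * (-3 * e') * (-3 * e'') := by
        rw [k1, k2, k3]
      linear_combination this
    have hw6 : w ^ 6 + 27 = 0 := by
      rcases mul_eq_zero.1 hprod with h | h
      · exfalso
        apply hg30
        rw [h] at r3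
        linear_combination (-4) * r3
      · exact h
    have hw3 : 16 * w + 24 = 0 := by
      linear_combination hw6 - (w ^ 4 + w ^ 3 * 1 - 2 * w ^ 2 - 5 * w + 1) * hw
    have hw4 : w = -3 / 2 := by linear_combination (1 / 16) * hw3
    rw [hw4] at hw
    norm_num at hw
  have hB0 : 4 * x0 ^ 3 - L.g₂ * x0 - L.g₃ = -4 * ((e - x0) * (e' - x0) * (e'' - x0)) := by
    rw [← he, ← he', ← he''] at r1 r2 r3
    linear_combination (4 * x0 ^ 2) * r1 - (4 * x0) * r2 + 4 * r3
  have hB1 : 4 * x0 ^ 3 - L.g₂ * x0 - L.g₃ ≠ 0 := by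
    rw [hB0]
    rw [← he, ← hx0] at n1
    rw [← he', ← hx0] at n2
    rw [← he'', ← hx0] at n3
    exact mul_ne_zero (by norm_num) (mul_ne_zero (mul_ne_zero (sub_ne_zero.2 n1)
      (sub_ne_zero.2 n2)) (sub_ne_zero.2 n3))
  have hdup : (6 * x0 ^ 2 - L.g₂ / 2) ^ 2 = 12 * x0 * (4 * x0 ^ 3 - L.g₂ * x0 - L.g₃) := by
    have hd := (h3 L u hu2).1
    have h2u : L.weierstrassP (2 * u) = L.weierstrassP u := by
      have := L.weierstrassP_add_coe (-u) ⟨_, hu3⟩
      rw [L.weierstrassP_neg] at this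
      rw [← this]
      congr 1
      push_cast
      ring
    have hsu := L.derivWeierstrassP_sq u hu1
    rw [h2u, div_pow, mul_pow, hsu, ← hx0, eq_div_iff (mul_ne_zero (by norm_num) hB1)] at hd
    linear_combination (-1) * hd
  rw [← hx0] at hg2 main ⊢
  refine ⟨hne, hg2, ?_, main⟩
  have h12 : 12 * x0 ≠ 0 := mul_ne_zero (by norm_num) hne
  apply mul_left_cancel₀ h12
  have hA : 4 * (w ^ 2 * (6 * x0 ^ 2 - L.g₂ / 2)) = 4 * (6 * x0 ^ 2 * (w - 1)) := by
    linear_combination (-2) * hg2 + (24 * x0 ^ 2) * hw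
  have hA' : w ^ 2 * (6 * x0 ^ 2 - L.g₂ / 2) = 6 * x0 ^ 2 * (w - 1) := by
    linear_combination (1 / 4) * hA
  have hA2 : w ^ 4 * (6 * x0 ^ 2 - L.g₂ / 2) ^ 2 = 36 * x0 ^ 4 * (w - 1) ^ 2 := by
    have : (w ^ 2 * (6 * x0 ^ 2 - L.g₂ / 2)) ^ 2 = (6 * x0 ^ 2 * (w - 1)) ^ 2 := by rw [hA']
    linear_combination this
  rw [hdup] at hA2
  -- w⁴ · 12 x0 · (4 x0³ - g₂ x0 - g₃) = 36 x0⁴ (w - 1)²
  have hgoal : 12 * x0 * (w ^ 4 * L.g₃) = 12 * x0 * (x0 ^ 3 * (4 * w ^ 4 + 24 * w ^ 2 -
      3 * (w - 1) ^ 2)) := by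
    linear_combination (-1) * hA2 - (12 * x0 ^ 2 * w ^ 2) * hg2
  rw [hgoal]
  linear_combination (12 * x0 * x0 ^ 3 * (4 * w ^ 2 + 4 * w + 13)) * hw

end

end Pool.Agent.MU3A


end

section

/-!
# MU3, block A, N11: multiplication by `w`, `w² = w - 3`
-/

set_option autoImplicit false

namespace Pool.Agent.MU3A

open _root_.MU3 _root_.Pool.Agent.MU3B Polynomial Filter Topology

namespace P_N11

theorem case11 : Case (-3) 1 := Or.inr ⟨rfl, rfl⟩

theorem w_sq : wC (-3) 1 ^ 2 = wC (-3) 1 - 3 := by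
  have := wC_sq case11
  push_cast at this
  linear_combination this

theorem emb_w' : emb (⟨0, 1⟩ : OO (-3) 1) = wC (-3) 1 := emb_w

theorem emb_a2 : emb (a2 (-3) 1) = 2 * wC (-3) 1 - 1 := by
  simp only [a2, emb]
  norm_num
  ring

theorem emb_a4 : emb (a4 (-3) 1) = -3 := by
  have : (a4 (-3) 1) = ((-3 : ℤ) : OO (-3) 1) := by
    simp [a4]
  rw [this, emb_intCast case11]
  norm_num

theorem emb_a6 : emb (a6 (-3) 1) = 1 - 2 * wC (-3) 1 := by
  simp only [a6, emb]
  norm_num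
  ring

theorem w_ne : wC (-3) 1 ≠ 0 := wC_ne_zero case11

theorem w_ne_six : wC (-3) 1 - 6 ≠ 0 := by
  intro h
  have h1 := wC_im_pos case11
  have h2 : wC (-3) 1 = 6 := by linear_combination h
  rw [h2] at h1
  norm_num at h1

section

variable {L : PeriodPair} {Om : ℂ}

theorem g2_eq (hL : IsCM (-3) 1 L Om) : L.g₂ = -8 / 3 := by
  have g2 := hL.g2
  rw [emb_a4, emb_a2] at g2
  rw [g2]
  linear_combination (16 / 3 : ℂ) * w_sq

theorem g3_eq (hL : IsCM (-3) 1 L Om) : L.g₃ = 7 / 27 * (2 * wC (-3) 1 - 1) := by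
  have g3 := hL.g3
  rw [emb_a6, emb_a4, emb_a2] at g3
  rw [g3]
  linear_combination (-(32 / 27) * (2 * wC (-3) 1 - 1) : ℂ) * w_sq

/-- the value of `℘` at `Om / w` -/
theorem x0_eq (hR : Sa_R11) (hL : IsCM (-3) 1 L Om) :
    L.weierstrassP (Om / wC (-3) 1) = wC (-3) 1 / 3 := by
  obtain ⟨-, h2, h3, -⟩ := hR L Om hL.toIsLat
  rw [g2_eq hL] at h2
  rw [g3_eq hL] at h3
  have w2 := w_sq
  have w0 := w_ne
  have w6 := w_ne_six
  set w := wC (-3) 1 with hw
  set X := L.weierstrassP (Om / w) with hX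
  have e2 : X ^ 2 = w ^ 2 / 9 := by linear_combination (1 / 24 : ℂ) * h2
  have e3 : (X ^ 3 - w ^ 3 / 27) * (w - 6) = 0 := by
    linear_combination (-1 / 7 : ℂ) * h3 + (2 / 27 * w ^ 3) * w2
  have e4 : X ^ 3 - w ^ 3 / 27 = 0 := (mul_eq_zero.1 e3).resolve_right w6
  have e5 : (X - w / 3) * (w ^ 2 / 9) = 0 := by linear_combination e4 - X * e2
  have e6 : X - w / 3 = 0 := (mul_eq_zero.1 e5).resolve_right
    (div_ne_zero (pow_ne_zero 2 w0) (by norm_num))
  linear_combination e6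

theorem Om_mem (hL : IsLat (-3) 1 L Om) : Om ∈ L.lattice :=
  (hL.mem Om).2 ⟨1, by rw [emb_one case11]; ring⟩

theorem three_mem (hL : IsLat (-3) 1 L Om) : 3 * (Om / wC (-3) 1) ∈ L.lattice := by
  have h := hL.emb_mul_mem case11 ⟨1, -1⟩ (Om_mem hL)
  have e : emb (⟨1, -1⟩ : OO (-3) 1) * Om = 3 * (Om / wC (-3) 1) := by
    have w0 := w_ne
    have e1 : Om = wC (-3) 1 * (Om / wC (-3) 1) := by field_simp
    simp only [emb]
    push_cast
    linear_combination (1 - wC (-3) 1) * e1 - (Om / wC (-3) 1) * w_sq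
  rwa [e] at h

theorem int_mul_mem {x : ℂ} (k : ℤ) (h : x ∈ L.lattice) : (k : ℂ) * x ∈ L.lattice := by
  have := L.lattice.smul_mem k h
  rwa [zsmul_eq_mul] at this

theorem xx_u (hR : Sa_R11) (hL : IsCM (-3) 1 L Om) :
    wC (-3) 1 * xx (-3) 1 L (Om / wC (-3) 1) - 1 = 0 := by
  unfold xx
  rw [x0_eq hR hL, emb_a2]
  linear_combination (-1 / 3 : ℂ) * w_sq

/-- the points killed by `w` -/
theorem kernel (hR : Sa_R11) (hE : Sa_EQN) (hL : IsCM (-3) 1 L Om) {z : ℂ} (hz : z ∉ L.lattice)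
    (hwz : wC (-3) 1 * z ∈ L.lattice) : wC (-3) 1 * xx (-3) 1 L z - 1 = 0 := by
  obtain ⟨-, -, hpar, hper, -⟩ := hE (-3) 1 L Om case11 hL
  have hm : (⟨0, 1⟩ : OO (-3) 1) ≠ 0 := fun h0 => w_ne (by
    rw [← emb_w', h0, emb_zero case11])
  have h1 := (hL.toIsLat.torsion_iff case11 hm z).1 (by rw [emb_w']; exact hwz)
  obtain ⟨q, hq⟩ := h1
  rw [emb_w'] at hq
  have w0 := w_ne
  have hOm := Om_mem hL.toIsLat
  have h3 := three_mem hL.toIsLat
  have hu := xx_u hR hL
  have hz' : z = (q.re : ℂ) * (Om / wC (-3) 1) + (q.im : ℂ) * Om := by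
    rw [hq]
    simp only [emb]
    field_simp
  set u := Om / wC (-3) 1 with hu'
  have hr : q.re % 3 = 0 ∨ q.re % 3 = 1 ∨ q.re % 3 = 2 := by omega
  have hdiv : (q.re : ℂ) = 3 * ((q.re / 3 : ℤ) : ℂ) + ((q.re % 3 : ℤ) : ℂ) := by
    have := Int.mul_ediv_add_emod q.re 3
    exact_mod_cast this.symm
  rcases hr with hr | hr | hr
  · exfalso
    apply hz
    rw [hz', hdiv, hr]
    have := add_mem (int_mul_mem (q.re / 3) h3) (int_mul_mem q.im hOm)
    convert this using 1
    push_cast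
    ring
  · have hmem := add_mem (int_mul_mem (q.re / 3) h3) (int_mul_mem q.im hOm)
    have e : z = u + (((q.re / 3 : ℤ) : ℂ) * (3 * u) + (q.im : ℂ) * Om) := by
      rw [hz', hdiv, hr]
      push_cast
      ring
    rw [e, (hper u _ hmem).1]
    exact hu
  · have hmem := add_mem (int_mul_mem (q.re / 3 + 1) h3) (int_mul_mem q.im hOm)
    have e : z = -u + (((q.re / 3 + 1 : ℤ) : ℂ) * (3 * u) + (q.im : ℂ) * Om) := by
      rw [hz', hdiv, hr]
      push_cast
      ring
    rw [e, (hper (-u) _ hmem).1, (hpar u).1]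
    exact hu

theorem not_mem (hL : IsLat (-3) 1 L Om) {z : ℂ} (hz : wC (-3) 1 * z ∉ L.lattice) :
    z ∉ L.lattice := fun h => hz (hL.mul_mem_w case11 h)

theorem ne_one (hR : Sa_R11) (hL : IsCM (-3) 1 L Om) {z : ℂ} (hz : wC (-3) 1 * z ∉ L.lattice) :
    wC (-3) 1 * xx (-3) 1 L z - 1 ≠ 0 := by
  obtain ⟨-, -, -, h⟩ := hR L Om hL.toIsLat
  intro h0
  apply (h z hz).1
  have hu := xx_u hR hL
  unfold xx at h0 hu
  have : wC (-3) 1 * (L.weierstrassP z - L.weierstrassP (Om / wC (-3) 1)) = 0 := by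
    linear_combination h0 - hu
  have := (mul_eq_zero.1 this).resolve_left w_ne
  linear_combination this

/-- the formula for `x` -/
theorem form_x (hR : Sa_R11) (hL : IsCM (-3) 1 L Om) {z : ℂ} (hz : wC (-3) 1 * z ∉ L.lattice) :
    xx (-3) 1 L (wC (-3) 1 * z) * (wC (-3) 1 * xx (-3) 1 L z - 1) ^ 2 =
      xx (-3) 1 L z ^ 3 + 3 * wC (-3) 1 * xx (-3) 1 L z ^ 2 + (wC (-3) 1 - 6) * xx (-3) 1 L z
        - wC (-3) 1 := by
  obtain ⟨-, -, -, h⟩ := hR L Om hL.toIsLat
  have h1 := (h z hz).2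
  rw [g2_eq hL, g3_eq hL, x0_eq hR hL] at h1
  have hx : L.weierstrassP z = xx (-3) 1 L z + (2 * wC (-3) 1 - 1) / 3 := by
    unfold xx; rw [emb_a2]; ring
  have hwx : L.weierstrassP (wC (-3) 1 * z) = xx (-3) 1 L (wC (-3) 1 * z)
      + (2 * wC (-3) 1 - 1) / 3 := by
    unfold xx; rw [emb_a2]; ring
  rw [hx, hwx] at h1
  have w2 := w_sq
  set w := wC (-3) 1 with hw
  set x := xx (-3) 1 L z with hxd
  set x' := xx (-3) 1 L (w * z) with hx'd
  linear_combination h1 + ((-2/3 : ℂ) * w * x * x' + (-2/3 : ℂ) * w * x ^ 2 +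
    (-4/9 : ℂ) * w ^ 2 * x + (-1/9 : ℂ) * w ^ 2 * x' + (-2/27 : ℂ) * w ^ 3 +
    (2/9 : ℂ) * w * x + (1/9 : ℂ) * w * x' + (1/9 : ℂ) * w ^ 2 + (-1/3 : ℂ) * x ^ 2 +
    (17/27 : ℂ) * w + (23/9 : ℂ) * x + (1/3 : ℂ) * x' + (-2/27 : ℂ)) * w2

/-- the formula for `y` -/
theorem form_y (hR : Sa_R11) (hE : Sa_EQN) (hL : IsCM (-3) 1 L Om) {z : ℂ}
    (hz : wC (-3) 1 * z ∉ L.lattice) :
    yy L (wC (-3) 1 * z) * (wC (-3) 1 * xx (-3) 1 L z - 1) ^ 3 =
      yy L z * (xx (-3) 1 L z ^ 3 + (wC (-3) 1 - 1) * xx (-3) 1 L z ^ 2 -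
        wC (-3) 1 * xx (-3) 1 L z + 1) := by
  obtain ⟨-, -, -, -, -, -, -, -, hder⟩ := hE (-3) 1 L Om case11 hL
  have hz0 := not_mem hL.toIsLat hz
  have d1 := (hder z hz0).1
  have d2 : HasDerivAt (fun z => xx (-3) 1 L (wC (-3) 1 * z))
      (2 * yy L (wC (-3) 1 * z) * (wC (-3) 1 * 1)) z :=
    HasDerivAt.comp z (hder _ hz).1 ((hasDerivAt_id z).const_mul (wC (-3) 1))
  have d3 := d2.mul (((d1.const_mul (wC (-3) 1)).sub_const 1).pow 2)
  have d4 := (((d1.pow 3).add ((d1.pow 2).const_mul (3 * wC (-3) 1))).add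
    (d1.const_mul (wC (-3) 1 - 6))).sub_const (wC (-3) 1)
  have hev : (fun z => xx (-3) 1 L z ^ 3 + 3 * wC (-3) 1 * xx (-3) 1 L z ^ 2 +
      (wC (-3) 1 - 6) * xx (-3) 1 L z - wC (-3) 1) =ᶠ[𝓝 z]
      (fun z => xx (-3) 1 L (wC (-3) 1 * z) * (wC (-3) 1 * xx (-3) 1 L z - 1) ^ 2) := by
    have hopen : IsOpen {z : ℂ | wC (-3) 1 * z ∉ L.lattice} :=
      L.isClosed_lattice.isOpen_compl.preimage (by fun_prop : Continuous fun z : ℂ => wC (-3) 1 * z)
    filter_upwards [hopen.mem_nhds hz] with t ht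
    exact (form_x hR hL ht).symm
  have d5 := d3.congr_of_eventuallyEq hev
  have hu := d4.unique d5
  have hfx := form_x hR hL hz
  have hne := w_ne
  have w2 := w_sq
  have key : (2 * wC (-3) 1) * (yy L (wC (-3) 1 * z) * (wC (-3) 1 * xx (-3) 1 L z - 1) ^ 3 -
      yy L z * (xx (-3) 1 L z ^ 3 + (wC (-3) 1 - 1) * xx (-3) 1 L z ^ 2 -
        wC (-3) 1 * xx (-3) 1 L z + 1)) = 0 := by
    simp only [Pi.pow_apply] at hu
    push_cast at hu
    linear_combination (-(wC (-3) 1 * xx (-3) 1 L z - 1)) * hu -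
      4 * wC (-3) 1 * yy L z * hfx + 2 * yy L z * (2 - xx (-3) 1 L z ^ 2) * w2
  have := (mul_eq_zero.1 key).resolve_left (mul_ne_zero two_ne_zero hne)
  linear_combination this

end

end P_N11

open _root_.Pool.Agent.MU3A.P_N11 in
/-- (N11) multiplication by `w`, `w² = w - 3` -/
theorem ta_N11 (h1 : Sa_R11) (h2 : Sa_EQN) : Sa_N11 := by
  intro L Om hL
  have c := case11
  have e0 : emb (-1 : OO (-3) 1) = -1 := by rw [emb_neg c, emb_one c]
  have e1 : emb (⟨0, 3⟩ : OO (-3) 1) = 3 * wC (-3) 1 := by simp [emb]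
  have e2 : emb (⟨-6, 1⟩ : OO (-3) 1) = wC (-3) 1 - 6 := by simp [emb]; ring
  have e3 : emb (⟨0, -1⟩ : OO (-3) 1) = -wC (-3) 1 := by simp [emb]
  have e4 : emb (⟨-1, 1⟩ : OO (-3) 1) = wC (-3) 1 - 1 := by simp [emb]; ring
  have e5 : emb (1 : OO (-3) 1) = 1 := emb_one c
  refine ⟨fun z hz => ?_, fun z hz => ?_, fun z hz => ?_⟩
  · rw [emb_w', e0]
    constructor
    · intro h
      have := kernel h1 h2 hL hz h
      linear_combination this
    · intro h
      by_contra hcon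
      apply ne_one h1 hL hcon
      linear_combination h
  · rw [emb_w'] at hz ⊢
    rw [e0, e1, e2, e3]
    linear_combination form_x h1 hL hz
  · rw [emb_w'] at hz ⊢
    rw [e0, e3, e4, e5]
    linear_combination form_y h1 h2 hL hz

end Pool.Agent.MU3A


end

section

/-!
# MU3, block A, module LAW: addition and duplication in the coordinates `x`, `y`
-/

set_option autoImplicit false

namespace Pool.Agent.MU3A

open _root_.MU3 _root_.Pool.Agent.MU3B Polynomial

noncomputable section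

theorem ta_LAW (h1 : St_ADD) (h2 : St_DUP) : Sa_LAW := by
  intro A B L Om hc hL
  refine ⟨?_, ?_⟩
  · intro z z' hz hz' hs hd
    obtain ⟨h3, h4⟩ := h1 L z' z hz' hz hs hd
    have hM : (L.derivWeierstrassP z - L.derivWeierstrassP z') /
        (2 * (L.weierstrassP z - L.weierstrassP z')) =
        (yy L z - yy L z') / (xx A B L z - xx A B L z') := by
      have e1 : yy L z - yy L z' = (L.derivWeierstrassP z - L.derivWeierstrassP z') / 2 := by
        unfold yy; ring
      have e2 : xx A B L z - xx A B L z' = L.weierstrassP z - L.weierstrassP z' := by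
        unfold xx; ring
      rw [e1, e2, div_div]
    rw [hM] at h3 h4
    generalize (yy L z - yy L z') / (xx A B L z - xx A B L z') = M at h3 h4 ⊢
    constructor
    · unfold xx
      linear_combination h3
    · unfold xx yy
      linear_combination (1 / 2) * h4
  · intro z hz
    obtain ⟨h3, h4⟩ := h2 L z hz
    have hM : (6 * L.weierstrassP z ^ 2 - L.g₂ / 2) / (2 * L.derivWeierstrassP z) =
        (3 * xx A B L z ^ 2 + 2 * emb (a2 A B) * xx A B L z + emb (a4 A B)) / (2 * yy L z) := by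
      have e1 : 6 * L.weierstrassP z ^ 2 - L.g₂ / 2 =
          2 * (3 * xx A B L z ^ 2 + 2 * emb (a2 A B) * xx A B L z + emb (a4 A B)) := by
        rw [hL.g2]; unfold xx; ring
      have e2 : 2 * L.derivWeierstrassP z = 2 * (2 * yy L z) := by
        unfold yy; ring
      rw [e1, e2, mul_div_mul_left _ _ (two_ne_zero)]
    rw [hM] at h3 h4
    generalize (3 * xx A B L z ^ 2 + 2 * emb (a2 A B) * xx A B L z + emb (a4 A B)) /
      (2 * yy L z) = M at h3 h4 ⊢
    constructor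
    · unfold xx
      linear_combination h3
    · unfold xx yy
      linear_combination (1 / 2) * h4

end

end Pool.Agent.MU3A


end

section

/-!
# MU3, block A: module GAL (embeddings over `k` act on `E[m]` as elements of `O`)
-/

set_option autoImplicit false

namespace Pool.Agent.MU3A

open _root_.MU3 _root_.Pool.Agent.MU3B Polynomial NumberField WeierstrassCurve

noncomputable section

/-- abstract form: two additive maps on torsion points and a point `u` generating them -/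
theorem gal_aux (hX : Sa_XI) (hO : Sa_OMU) :
    ∀ (A B : ℤ) (L : PeriodPair) (Om : ℂ), Case A B → IsCM A B L Om →
    ∀ m : OO A B, m ≠ 0 → ∀ F : IntermediateField (kk A B) ℂ, TF L m ≤ F →
      ∀ σ : F →ₐ[kk A B] ℂ, ∃ a : OO A B, ∀ z : ℂ, emb m * z ∈ L.lattice → z ∉ L.lattice →
    emb a * z ∉ L.lattice ∧
    (∀ hx : xx A B L z ∈ F, σ ⟨xx A B L z, hx⟩ = xx A B L (emb a * z)) ∧
    ∀ hy : yy L z ∈ F, σ ⟨yy L z, hy⟩ = yy L (emb a * z) := by
  intro A B L Om h hL m hm F hF σ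
  obtain ⟨ξ, hξ0, hξs, hξ⟩ := hX A B L Om h hL
  obtain ⟨D, N, E, M, hO⟩ := hO A B h
  replace hO := hO L Om hL
  have hxF : ∀ z, emb m * z ∈ L.lattice → z ∉ L.lattice → xx A B L z ∈ F := fun z h1 h2 =>
    hF (IntermediateField.subset_adjoin _ _ ⟨z, h1, h2, Or.inl rfl⟩)
  have hyF : ∀ z, emb m * z ∈ L.lattice → z ∉ L.lattice → yy L z ∈ F := fun z h1 h2 =>
    hF (IntermediateField.subset_adjoin _ _ ⟨z, h1, h2, Or.inr rfl⟩)
  let T : AddSubgroup ℂ :=
    { carrier := {z | emb m * z ∈ L.lattice}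
      add_mem' := fun {a b} ha hb => by
        simp only [Set.mem_ofPred_eq] at *
        rw [mul_add]; exact add_mem ha hb
      zero_mem' := by simp
      neg_mem' := fun {a} ha => by
        simp only [Set.mem_ofPred_eq] at *
        rw [mul_neg]; exact neg_mem ha }
  have hT : ∀ z : ℂ, z ∈ T ↔ emb m * z ∈ L.lattice := fun z => Iff.rfl
  let μ : (Affine.baseChange (EE A B) F).Point →+ (Affine.baseChange (EE A B) ℂ).Point := Affine.Point.map (W' := EE A B) F.val
  have hμ : Function.Injective μ := Affine.Point.map_injective _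
  let ν : (Affine.baseChange (EE A B) F).Point →+ (Affine.baseChange (EE A B) ℂ).Point := Affine.Point.map (W' := EE A B) σ
  have hν : Function.Injective ν := Affine.Point.map_injective _
  -- the points over `F`
  have hp : ∀ z : T, ∃ P : (Affine.baseChange (EE A B) F).Point, μ P = ξ z := by
    rintro ⟨z, hz⟩
    by_cases hzL : z ∈ L.lattice
    · exact ⟨0, by rw [map_zero]; exact ((hξ0 z).2 hzL).symm⟩
    · obtain ⟨hn, hn'⟩ := hξ z hzL
      have hn2 : (Affine.baseChange (EE A B) F).Nonsingular (⟨xx A B L z, hxF z hz hzL⟩ : F)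
          (⟨yy L z, hyF z hz hzL⟩ : F) :=
        (Affine.baseChange_nonsingular (EE A B) (F.val).injective _ _).1 hn
      exact ⟨.some _ _ hn2, by rw [hn']; rfl⟩
  choose p hp using hp
  have padd : ∀ z z' : T, p (z + z') = p z + p z' := fun z z' => hμ (by
    rw [map_add, hp, hp, hp, ← map_add]; rfl)
  let s : T →+ (Affine.baseChange (EE A B) ℂ).Point := AddMonoidHom.mk' (fun z => ν (p z)) (fun a b => by
    rw [padd, map_add])
  have hs : ∀ z : T, s z = ν (p z) := fun _ => rfl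
  have s0 : ∀ z : T, s z = 0 ↔ (z : ℂ) ∈ L.lattice := by
    intro z
    rw [hs, map_eq_zero_iff ν hν, ← map_eq_zero_iff μ hμ, hp, hξ0]
  have ssome : ∀ (z : T) (hz : (z : ℂ) ∉ L.lattice), ∃ h,
      s z = .some (σ ⟨xx A B L z, hxF z z.2 hz⟩) (σ ⟨yy L z, hyF z z.2 hz⟩) h := by
    intro z hz
    obtain ⟨hn, hn'⟩ := hξ z hz
    have hn2 : (Affine.baseChange (EE A B) F).Nonsingular (⟨xx A B L z, hxF z z.2 hz⟩ : F)
        (⟨yy L z, hyF z z.2 hz⟩ : F) :=
      (Affine.baseChange_nonsingular (EE A B) (F.val).injective _ _).1 hn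
    have h2 : p z = .some _ _ hn2 := hμ (by rw [hp, hn']; rfl)
    exact ⟨(Affine.baseChange_nonsingular (EE A B) σ.injective _ _).2 hn2, by rw [hs, h2]; rfl⟩
  -- comparison with `ξ`
  have cmp : ∀ (z : T) (t : ℂ), ξ t = s z → ∀ hz : (z : ℂ) ∉ L.lattice, t ∉ L.lattice ∧
      xx A B L t = σ ⟨xx A B L z, hxF z z.2 hz⟩ ∧ yy L t = σ ⟨yy L z, hyF z z.2 hz⟩ := by
    intro z t ht hz
    have ht' : t ∉ L.lattice := fun h0 => hz ((s0 z).1 (by rw [← ht]; exact (hξ0 t).2 h0))
    obtain ⟨h1, h1'⟩ := hξ t ht'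
    obtain ⟨h2, h2'⟩ := ssome z hz
    rw [h1', h2'] at ht
    injection ht with e1 e2
    exact ⟨ht', e1, e2⟩
  have wT : ∀ z : T, wC A B * z ∈ T := fun z => by
    rw [hT, mul_left_comm]; exact hL.mul_mem_w h z.2
  have hev : ∀ (z : T) (t : ℂ) (hz : (z : ℂ) ∉ L.lattice)
      (_ : xx A B L t = σ ⟨xx A B L z, hxF z z.2 hz⟩) (P : (kk A B)[X]),
      aeval (xx A B L t) P = σ (aeval (⟨xx A B L z, hxF z z.2 hz⟩ : F) P) := by
    intro z t hz e P
    rw [e, Polynomial.aeval_algHom_apply]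
  have hev' : ∀ (z : T) (hz : (z : ℂ) ∉ L.lattice) (P : (kk A B)[X]),
      ((aeval (⟨xx A B L z, hxF z z.2 hz⟩ : F) P : F) : ℂ) = aeval (xx A B L z) P := by
    intro z hz P
    exact (Polynomial.aeval_algHom_apply F.val (⟨xx A B L z, hxF z z.2 hz⟩ : F) P).symm
  have key : ∀ (z : T) (t : ℂ), ξ t = s z → ξ (wC A B * t) = s ⟨wC A B * z, wT z⟩ := by
    intro z t ht
    by_cases hz : (z : ℂ) ∈ L.lattice
    · have h1 : t ∈ L.lattice := (hξ0 t).1 (by rw [ht]; exact (s0 z).2 hz)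
      rw [(hξ0 _).2 (hL.mul_mem_w h h1), (s0 _).2 (hL.mul_mem_w h hz)]
    · obtain ⟨ht', ex, ey⟩ := cmp z t ht hz
      obtain ⟨z1, z2⟩ := hO z hz
      obtain ⟨t1, t2⟩ := hO t ht'
      by_cases hwz : wC A B * (z : ℂ) ∈ L.lattice
      · have h1 : aeval (xx A B L t) D = 0 := by
          rw [hev z t hz ex D]
          have : (aeval (⟨xx A B L z, hxF z z.2 hz⟩ : F) D : F) = 0 :=
            Subtype.ext (by rw [hev' z hz D]; exact z1 hwz)
          rw [this, map_zero]
        have h2 : wC A B * t ∈ L.lattice := by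
          by_contra hc
          exact (t2 hc).1 h1
        rw [(hξ0 _).2 h2, (s0 _).2 hwz]
      · obtain ⟨d1, d2, d3, d4⟩ := z2 hwz
        have hne : ∀ P : (kk A B)[X], aeval (xx A B L z) P ≠ 0 → aeval (xx A B L t) P ≠ 0 := by
          intro P hP h0
          rw [hev z t hz ex P] at h0
          have h0' := (map_eq_zero_iff σ σ.injective).1 h0
          exact hP (by rw [← hev' z hz P, h0']; rfl)
        have hwt : wC A B * t ∉ L.lattice := fun hc => hne D d1 (t1 hc)
        obtain ⟨f1, f2, f3, f4⟩ := t2 hwt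
        obtain ⟨n1, n1'⟩ := hξ _ hwt
        obtain ⟨n2, n2'⟩ := ssome ⟨wC A B * z, wT z⟩ hwz
        have hX : xx A B L (wC A B * t) = σ ⟨xx A B L (wC A B * z), hxF _ (wT z) hwz⟩ := by
          refine mul_right_cancel₀ f1 ?_
          rw [f3, hev z t hz ex N, hev z t hz ex D, ← map_mul]
          congr 1
          refine Subtype.ext ?_
          push_cast
          rw [hev' z hz N, hev' z hz D]
          exact d3.symm
        have hY : yy L (wC A B * t) = σ ⟨yy L (wC A B * z), hyF _ (wT z) hwz⟩ := by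
          refine mul_right_cancel₀ f2 ?_
          rw [f4, hev z t hz ex M, hev z t hz ex E, ey, ← map_mul, ← map_mul]
          congr 1
          refine Subtype.ext ?_
          push_cast
          rw [hev' z hz M, hev' z hz E]
          exact d4.symm
        rw [n1', n2']
        congr 1
  have embT : ∀ (b : OO A B) (z : T), emb b * z ∈ T := fun b z => by
    rw [hT, mul_left_comm]; exact hL.emb_mul_mem h b z.2
  have lin : ∀ (b : OO A B) (z : T) (t : ℂ), ξ t = s z →
      ξ (emb b * t) = s ⟨emb b * z, embT b z⟩ := by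
    intro b z t ht
    have e1 : emb b * t = b.re • t + b.im • (wC A B * t) := by
      simp only [emb, zsmul_eq_mul]; ring
    have e2 : (⟨emb b * z, embT b z⟩ : T) = b.re • z + b.im • ⟨wC A B * z, wT z⟩ := by
      refine Subtype.ext ?_
      push_cast
      simp only [emb, zsmul_eq_mul]; ring
    rw [e1, e2, map_add, map_add, map_zsmul, map_zsmul, map_zsmul, map_zsmul, ht, key z t ht]
  -- the generator
  have uT : Om / emb m ∈ T := by
    rw [hT]
    have := (hL.torsion_iff h hm (Om / emb m)).2 ⟨1, by rw [emb_one h]; ring⟩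
    exact this
  obtain ⟨t, ht⟩ := hξs (s ⟨Om / emb m, uT⟩)
  have htT : emb m * t ∈ L.lattice := by
    rw [← hξ0, lin m _ t ht, s0]
    exact uT
  obtain ⟨a, ha⟩ := (hL.torsion_iff h hm t).1 htT
  refine ⟨a, fun z hz hzL => ?_⟩
  obtain ⟨b, hb⟩ := (hL.torsion_iff h hm z).1 hz
  have h1 : ξ (emb a * z) = s ⟨z, hz⟩ := by
    have h2 := lin b ⟨Om / emb m, uT⟩ t ht
    have h3 : (⟨emb b * ((⟨Om / emb m, uT⟩ : T) : ℂ), embT b ⟨Om / emb m, uT⟩⟩ : T) = ⟨z, hz⟩ :=
      Subtype.ext hb.symm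
    rw [h3] at h2
    rw [← h2, hb, ha]
    congr 1
    ring
  obtain ⟨c1, c2, c3⟩ := cmp ⟨z, hz⟩ _ h1 hzL
  exact ⟨c1, fun _ => c2.symm, fun _ => c3.symm⟩

theorem ta_GAL (hX : Sa_XI) (hO : Sa_OMU) (hP : Sa_PID) : Sa_GAL := by
  intro A B L Om h hL m hm F hF σ
  obtain ⟨a, ha⟩ := gal_aux hX hO A B L Om h hL m hm F hF σ
  obtain ⟨hd, hpi, -⟩ := hP A B h
  refine ⟨a, ?_, ha⟩
  refine isCoprime_of_irreducible_dvd (fun h0 => hm h0.2) ?_
  rintro d hdi ⟨a', rfl⟩ ⟨m', hm'⟩
  have hm'0 : m' ≠ 0 := by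
    rintro rfl
    exact hm (by rw [hm', mul_zero])
  have h1 : emb m' * (Om / emb m) ∉ L.lattice := by
    rw [hL.mul_div_mem_iff h hm, hm']
    rintro ⟨k, hk⟩
    refine hdi.not_isUnit (IsUnit.of_mul_eq_one k ?_)
    have : m' * (d * k) = m' * 1 := by
      rw [mul_one]; conv_rhs => rw [hk]
      ring
    exact mul_left_cancel₀ hm'0 this
  have h2 : emb m * (emb m' * (Om / emb m)) ∈ L.lattice :=
    (hL.torsion_iff h hm _).2 ⟨m', rfl⟩
  refine (ha _ h2 h1).1 ?_
  have h3 : emb (d * a') * (emb m' * (Om / emb m)) = emb (a' * m) * (Om / emb m) := by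
    rw [hm', emb_mul h, emb_mul h a', emb_mul h d m']; ring
  rw [h3, hL.mul_div_mem_iff h hm]
  exact dvd_mul_left _ _

end

end Pool.Agent.MU3A


end

section

/-!
# MU3, blocks A and V: all statements, without hypotheses
-/

set_option autoImplicit false

namespace Pool.Agent.MU3X

open _root_.Pool.Agent.MU3A _root_.Pool.Agent.MU3V

theorem a_EQN : Sa_EQN := MU3A.ta_EQN MU3B.b_NEQ MU3B.b_ZER MU3B.b_DSC MU3B.b_P2
theorem a_LAW : Sa_LAW := MU3A.ta_LAW MU3B.b_ADD MU3B.b_DUP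
theorem a_XI : Sa_XI := MU3A.ta_XI a_EQN a_LAW
theorem a_TW2 : Sa_TW2 := MU3A.ta_TW2 MU3B.b_ADD MU3B.b_ZER MU3B.b_NEQ
theorem a_R8 : Sa_R8 := MU3A.ta_R8 MU3B.b_CMX MU3B.b_DUP MU3B.b_DSC MU3B.b_ZER MU3B.b_NEQ a_TW2
theorem a_N8 : Sa_N8 := MU3A.ta_N8 a_R8 a_EQN
theorem a_ROO : Sa_ROO := MU3A.ta_ROO a_TW2 MU3B.b_NEQ
theorem a_R11 : Sa_R11 := MU3A.ta_R11 MU3B.b_CMX MU3B.b_ADD MU3B.b_DUP MU3B.b_NEQ MU3B.b_DSC a_ROO
theorem a_N11 : Sa_N11 := MU3A.ta_N11 a_R11 a_EQN
theorem a_OMU : Sa_OMU := MU3A.ta_OMU a_N8 a_N11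
theorem a_PID : Sa_PID := MU3A.ta_PID
theorem a_GAL : Sa_GAL := MU3A.ta_GAL a_XI a_OMU a_PID
theorem a_ACT : Sa_ACT := MU3A.ta_ACT a_EQN a_GAL
theorem a_ALG : Sa_ALG := MU3A.ta_ALG a_EQN a_LAW
theorem a_PFG : Sa_PFG := MU3A.ta_PFG MU3B.b_DIS MU3B.b_ID MU3B.b_NEQ
theorem v_POL : Sv_POL := MU3V.tv_POL a_PFG MU3B.b_HRE MU3B.b_SUR
theorem v_DEG1 : Sv_DEG1 := MU3V.tv_DEG1
theorem v_CYCL : Sv_CYCL := MU3V.tv_CYCL v_DEG1 MU3B.b_HAL
theorem v_R2 : Sv_R2 := MU3V.tv_R2 v_POL v_CYCL
theorem v_R4 : Sv_R4 := MU3V.tv_R4 v_POL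
theorem v_CARD : Sv_CARD := MU3V.tv_CARD MU3B.b_HRE
theorem v_FRK : Sv_FRK := MU3V.tv_FRK v_DEG1
theorem v_R5 : Sv_R5 := MU3V.tv_R5 v_POL v_CYCL v_R2 v_R4 v_CARD v_FRK a_ROO
theorem v_EXT : Sv_EXT := MU3V.tv_EXT
theorem w_LOC : Sw_LOC := MU3V.tw_LOC
theorem w_TORV : Sw_TORV := MU3V.tw_TORV a_PID
theorem a_INT : Sa_INT := MU3A.ta_INT
theorem w_FROB : Sw_FROB := MU3V.tw_FROB v_R5 v_EXT w_LOC w_TORV a_GAL a_ACT a_XI a_PID a_INT
theorem a_FROB : Sa_FROB := w_FROB
theorem a_DENSF : Sa_DENSF := MU3A.ta_DENSF (MU3.m_DENSF MU3.finNSP) a_INT a_PID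
theorem a_NRM : Sa_NRM := MU3A.ta_NRM a_ALG a_GAL a_EQN a_PID
theorem a_CYC : Sa_CYC := MU3A.ta_CYC w_FROB a_DENSF a_ACT a_NRM a_GAL
theorem a_LAT0 : Sa_LAT0 := MU3A.ta_LAT0
theorem a_SCP : Sa_SCP := MU3A.ta_SCP
theorem a_EX : Sa_EX := MU3A.ta_EX a_LAT0 a_SCP a_R8 a_R11
theorem a_FEX : Sa_FEX := MU3A.ta_FEX a_INT
theorem a_V3 : Sa_V3 := MU3A.ta_V3
theorem a_N8P : Sa_N8P := MU3A.ta_N8P a_N8 a_EQN a_LAW
theorem a_FR3 : Sa_FR3 := MU3A.ta_FR3 a_V3 a_N8P a_N11 a_EQN
theorem a_M11 : Sa_M11 := MU3A.ta_M11 a_EQN a_LAW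
theorem a_M8 : Sa_M8 := MU3A.ta_M8 a_N8 a_EQN
theorem a_N11C : Sa_N11C := MU3A.ta_N11C a_N11
theorem a_REP : Sa_REP := MU3A.ta_REP a_PID
theorem a_S5 : Sa_S5 := MU3A.ta_S5 w_FROB a_FEX a_REP a_ACT
theorem a_NEG : Sa_NEG := MU3A.ta_NEG a_M8 a_M11 a_EQN a_ACT a_S5
theorem a_T3 : Sa_T3 := MU3A.ta_T3 a_V3 a_N8P a_N11 a_N11C a_EQN a_PID
theorem v_INJ : Sv_INJ := MU3V.tv_INJ v_CYCL v_R4 v_CARD
theorem v_TRA : Sv_TRA := MU3V.tv_TRA v_CYCL v_R2 v_R4 v_CARD
theorem w_DIF : Sw_DIF := MU3V.tw_DIF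
theorem w_THG : Sw_THG := MU3V.tw_THG a_NRM a_GAL a_ACT MU3B.b_TIN
theorem w_DISI : Sw_DISI := MU3V.tw_DISI MU3B.b_TDI w_THG a_NRM a_GAL a_PID MU3B.b_TIN
theorem w_XXM : Sw_XXM := MU3V.tw_XXM a_ACT
theorem w_FIB : Sw_FIB := MU3V.tw_FIB w_XXM a_ACT a_S5 a_NEG a_NRM
theorem w_PRL : Sw_PRL := MU3V.tw_PRL a_INT a_PID
theorem w_XXG : Sw_XXG := MU3V.tw_XXG w_XXM a_ACT a_NRM a_GAL
theorem w_FRD : Sw_FRD := MU3V.tw_FRD w_PRL w_XXM w_XXG w_FROB a_NRM a_INT
theorem w_INV : Sw_INV := MU3V.tw_INV w_DIF a_GAL a_ACT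
theorem w_HTOT : Sw_HTOT := MU3V.tw_HTOT v_EXT v_TRA w_INV w_TORV w_LOC a_XI a_ACT a_GAL a_NRM a_INT a_PID v_DEG1
theorem w_I1 : Sw_I1 := MU3V.tw_I1 w_FIB w_XXM w_XXG w_DISI a_NRM MU3B.b_TIN
theorem w_THU : Sw_THU := MU3V.tw_THU
theorem w_KOL : Sw_KOL := MU3V.tw_KOL a_NRM a_ACT a_GAL a_PID a_INT a_XI w_XXM w_XXG w_FIB w_THG w_DISI MU3B.b_TIN MU3B.b_TNZ v_DEG1 v_EXT v_INJ v_R2 w_THU w_TORV w_INV w_LOC w_HTOT w_FRD
theorem w_MEMC : Sw_MEMC := MU3V.tw_MEMC w_THG w_XXG a_NRM a_ACT a_GAL MU3B.b_TNZ MU3B.b_TIN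
theorem w_SUC : Sw_SUC := MU3V.tw_SUC v_EXT w_THU w_TORV a_XI a_PID

end Pool.Agent.MU3X


end

section

/-!
# VB, module UNR: unramified in the sense of block HB
-/

set_option autoImplicit false

open NumberField IsDedekindDomain
open scoped nonZeroDivisors

namespace Pool.Agent.VB

open _root_.Pool.Agent.RI _root_.Pool.Agent.MU3

theorem tb_UNR (h1 : Sb_CIR) (h2 : Sb_CRD) : Sb_UNR := by
  intro L M _ _ h hN hU v w hvw x
  let _ := algC h
  obtain ⟨V, hV⟩ := Pool.Agent.MU3X.v_EXT M (algebraMap M ℂ) w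
  have hP : ∀ y : 𝓞 M, y ∈ w.asIdeal ↔ ((y : M) : ℂ) ∈ V.nonunits := by
    intro y
    rw [ValuationSubring.mem_nonunits_iff]
    have h3 := (hV (y : M)).2.1
    rw [show ((y : M) : ℂ) = algebraMap M ℂ (y : M) from rfl, h3]
    have h4 := w.valuation_lt_one_iff_mem (K := M) y
    exact h4.symm
  have h5 := h1 V L M h hN w hP
  have h6 := ((h2 L M h).2.2.2.2 V).2.2.1.2 (hU V)
  rw [h6] at h5
  have hl : w.asIdeal.LiesOver v.asIdeal := ⟨hvw.symm⟩
  have h7 := HeightOneSpectrum.valuation_liesOver (K := L) M v w (x : L)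
  have h8 := Ideal.ramificationIdx'_eq_ramificationIdx v.asIdeal w.asIdeal v.ne_bot
  rw [h8, ← h5, pow_one] at h7
  unfold Pool.Agent.HB.ord
  rw [h7]
  rfl

end Pool.Agent.VB


end
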