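import Mathlib
import Pool.Agent.MVF.C091

/-! Parts: HB.J_JTC, HB.J_PHJ -/

namespace Pool.Agent.JT.JTC
end Pool.Agent.JT.JTC
namespace Pool.Agent.JT.PHJ
end Pool.Agent.JT.PHJ

section

/-!
# JT, module JTC: the cyclic case
-/

set_option autoImplicit false

open NumberField IsDedekindDomain
open scoped nonZeroDivisors Pointwise

namespace Pool.Agent.JT

open _root_.MU3 _root_.Pool.Agent.MU3A _root_.Pool.Agent.RI _root_.Pool.Agent.MUX _root_.Pool.Agent.MUXJ _root_.Pool.Agent.HB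

namespace JTC

/-- the two module structures on `E` have the same rank -/
lemma finrank_ext {F E : IntermediateField ℚ ℂ} (hk : F ≤ E) :
    (letI := algC hk; Module.finrank F E) =
      Module.finrank F (IntermediateField.extendScalars hk) := by
  letI := algC hk
  let e : E ≃ₗ[F] (IntermediateField.extendScalars hk) :=
    { toFun := fun x => ⟨x, x.2⟩
      invFun := fun x => ⟨x, x.2⟩
      left_inv := fun x => rfl
      right_inv := fun x => rfl
      map_add' := fun x y => rfl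
      map_smul' := fun c x => rfl }
  exact e.finrank_eq

end JTC

open _root_.Pool.Agent.JT.JTC in
/-- (JTC) the cyclic case. -/
theorem tj_JTC (hJTA : Sj_JTA) (hPHJ : Sj_PHJ) (hFRJ : Sj_FRJ) : Sj_JTC := by
  intro A B hCQ hT hNL E _ hk l m hl hcyc
  obtain ⟨f, A', i1, i2, ψ, hf, hcard, hray, hQ⟩ := hJTA A B hCQ E hk l m hl hcyc
  obtain ⟨Ψ, hsur, hΨ⟩ := hPHJ A B hCQ hT hNL f A' ψ hf hray
  have hfix := hFRJ A B hCQ hT hNL E hk f A' ψ Ψ hf hQ hΨ
  have hfin := hT.fin f hf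
  have hgal := hT.gal f hf
  let L : IntermediateField (kk A B) (RF f : IntermediateField (kk A B) ℂ) :=
    IntermediateField.fixedField Ψ.ker
  have h1 := Pool.Agent.FX.finrank_fixed_ker Ψ hsur
  have h2 : IntermediateField.lift L ≤ IntermediateField.extendScalars hk := by
    intro y hy
    have hyR : y ∈ (RF f : IntermediateField (kk A B) ℂ) := IntermediateField.lift_le L hy
    have hyL : (⟨y, hyR⟩ : (RF f : IntermediateField (kk A B) ℂ)) ∈ L :=
      (IntermediateField.mem_lift ⟨y, hyR⟩).1 hy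
    have h3 : y ∈ E := by
      have : Algebra.IsAlgebraic ℚ E := Algebra.IsAlgebraic.of_finite ℚ E
      refine Pool.Agent.MUXU.tu_AUF Pool.Agent.MUXU.tu_AUE Pool.Agent.MUXU.tu_AUT E this y fun s hs => ?_
      refine hfix s hs ⟨y, hyR⟩ fun τ hτ => ?_
      exact (IntermediateField.mem_fixedField_iff Ψ.ker _).1 hyL τ hτ
    exact h3
  have hfinE := Pool.Agent.FX.fin_ext hk
  have h3 : IntermediateField.lift L = IntermediateField.extendScalars hk := by
    refine IntermediateField.eq_of_le_of_finrank_le h2 ?_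
    have h4 := (Pool.Agent.FX.finrank_lift L).trans h1
    rw [h4, ← finrank_ext hk]
    have h5 := hcyc.2.2
    rw [h5]
    exact hcard
  intro x hx
  refine ⟨f, hf, ?_⟩
  have h4 : x ∈ IntermediateField.lift L := by
    rw [h3]
    exact hx
  exact IntermediateField.lift_le L h4

end Pool.Agent.JT


end

section

/-!
# JT, module PHJ: the map factors through the Galois group of the ray class field
-/

set_option autoImplicit false

open NumberField IsDedekindDomain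
open scoped nonZeroDivisors Pointwise

namespace Pool.Agent.JT

open _root_.MU3 _root_.Pool.Agent.MU3A _root_.Pool.Agent.MU3B _root_.Pool.Agent.RI _root_.Pool.Agent.MUX _root_.Pool.Agent.MUXJ
open _root_.Pool.Agent.MUXU _root_.Pool.Agent.MUXC _root_.Pool.Agent.HB

noncomputable section

namespace PHJ

variable {A B : ℤ} {f : Ideal (OO A B)} {A' : Type} [CommGroup A'] {ψ : Ideal (OO A B) → A'}

lemma sp_ne {x : OO A B} (hx : x ≠ 0) : sp x ≠ ⊥ := by
  rwa [Ne, Ideal.span_singleton_eq_bot]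

/-- the second lattice of `ActI` may be exchanged -/
lemma act_congr (hC : CQ A B) {s : ℂ ≃+* ℂ} {a : Ideal (OO A B)} {L L' L'' : PeriodPair} {mu : ℂ}
    (h' : L'.g₂ = -18 * L'.g₃) (h'' : L''.g₂ = -18 * L''.g₃) (h : ActI s f a L L' mu)
    (hk : kap L'' = kap L') : ActI s f a L L'' mu := by
  obtain ⟨-, -, h3⟩ := c_CJN A B hC
  obtain ⟨h4, h5⟩ := h3 L' L'' h' h'' hk.symm
  refine ⟨hk.trans h.kap, h.cop, ⟨h.isq.1, fun z => ?_⟩, fun z hz => ?_⟩
  · rw [← h4]
    exact h.isq.2 z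
  · rcases h.act z hz with h6 | h6
    · exact Or.inl ⟨h6.1, (h4 _).1 h6.2⟩
    · refine Or.inr ⟨h6.1, fun h7 => h6.2.1 ((h4 _).2 h7), ?_, ?_⟩
      · rw [h6.2.2.1]
        exact (h5 _).1
      · rw [h6.2.2.2]
        exact (h5 _).2

lemma ne_bot (hC : CQ A B) {s : ℂ ≃+* ℂ} {a b : Ideal (OO A B)} {L L' : PeriodPair} {om mu : ℂ}
    (hL : IsNL b L om) (h : ActI s f a L L' mu) : a ≠ ⊥ :=
  (c_QNE A B hC a L L' mu (hL.toIsLI.hasCM hC) h.isq).1

/-- two ideals of the same automorphism -/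
lemma uniq (hC : CQ A B) (T : TorX A B) (hf : f ≠ ⊥) (hψ : RayHom f A' ψ) {s : ℂ ≃+* ℂ}
    {a a' b : Ideal (OO A B)} {L L' L'' : PeriodPair} {om mu mu' : ℂ} (hL : IsNL b L om)
    (h' : L'.g₂ = -18 * L'.g₃) (h'' : L''.g₂ = -18 * L''.g₃) (h : ActI s f a L L' mu)
    (h1 : ActI s f a' L L'' mu') : ψ a = ψ a' := by
  have h2 := act_congr hC h'' h' h1 (h.kap.trans h1.kap.symm)
  obtain ⟨x, y, hx, hx0, hy0, hxy, hxa, -⟩ := T.uniq f a a' s L L' mu mu' hf ⟨b, om, hL⟩ h h2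
  have hy : IsCoprime (sp y) f := by
    rw [Ideal.isCoprime_iff_exists] at hx ⊢
    obtain ⟨p, hp, q, hq, hpq⟩ := hx
    obtain ⟨t, rfl⟩ := Ideal.mem_span_singleton'.1 hp
    refine ⟨t * y, Ideal.mul_mem_left _ _ (Ideal.mem_span_singleton_self y),
      t * (x - y) + q, f.add_mem (f.mul_mem_left _ hxy) hq, ?_⟩
    rw [← hpq]
    ring
  have h3 := hψ.ray x y hx0 hy0 hx hxy
  have h4 := hψ.mul (sp x) a (sp_ne hx0) (ne_bot hC hL h) hx h.cop
  have h5 := hψ.mul (sp y) a' (sp_ne hy0) (ne_bot hC hL h1) hy h1.cop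
  rw [hxa, h5, h3] at h4
  exact (mul_left_cancel h4).symm

lemma psi_top (hψ : RayHom f A' ψ) : ψ ⊤ = 1 := by
  have h1 : IsCoprime (⊤ : Ideal (OO A B)) f := by
    rw [Ideal.isCoprime_iff_sup_eq]
    exact top_sup_eq _
  have h0 : (⊤ : Ideal (OO A B)) ≠ ⊥ := by
    intro h
    have h2 : (1 : OO A B) ∈ (⊥ : Ideal (OO A B)) := h ▸ trivial
    rw [Ideal.mem_bot] at h2
    have h3 : (1 : ℤ) = 0 := congrArg QuadraticAlgebra.re h2
    exact one_ne_zero h3
  have h2 := hψ.mul ⊤ ⊤ h0 h0 h1 h1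
  rw [Ideal.mul_top] at h2
  exact (mul_eq_left.1 h2.symm)

open Classical in
/-- the value of `ψ` at the ideals of `s` -/
def ch (T : TorX A B) (hf : f ≠ ⊥) (ψ : Ideal (OO A B) → A') (s : ℂ ≃+* ℂ) : A' :=
  if h : FixK A B s then ψ (T.act f hf s h).choose else 1

lemma ch_eq (hC : CQ A B) (T : TorX A B) (hf : f ≠ ⊥) (hψ : RayHom f A' ψ) {s : ℂ ≃+* ℂ}
    (hs : FixK A B s) {a b : Ideal (OO A B)} {L L' : PeriodPair} {om mu : ℂ} (hL : IsNL b L om)
    (h' : L'.g₂ = -18 * L'.g₃) (h : ActI s f a L L' mu) : ch T hf ψ s = ψ a := by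
  rw [ch, dif_pos hs]
  obtain ⟨-, h2⟩ := (T.act f hf s hs).choose_spec
  obtain ⟨b'', L'', om'', mu'', hL'', h3⟩ := h2 b L om hL
  exact uniq hC T hf hψ hL hL''.nrm h' h3 h

/-- composition -/
lemma ch_mul (hC : CQ A B) (T : TorX A B) (hf : f ≠ ⊥) (hψ : RayHom f A' ψ)
    (hN : NLex A B) {s t : ℂ ≃+* ℂ} (hs : FixK A B s) (ht : FixK A B t) :
    ch T hf ψ (s.trans t) = ch T hf ψ s * ch T hf ψ t := by
  obtain ⟨b, L, om, hL⟩ := hN
  have hst : FixK A B (s.trans t) := by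
    show t (s (wC A B)) = wC A B
    rw [hs, ht]
  obtain ⟨a, -, ha⟩ := T.act f hf s hs
  obtain ⟨c, -, hc⟩ := T.act f hf t ht
  obtain ⟨b', L', om', mu, hL', h1⟩ := ha b L om hL
  obtain ⟨b'', L'', om'', nu, hL'', h2⟩ := hc b' L' om' hL'
  have h3 := T.comp f a c s t L L' L'' mu nu h1 h2
  rw [ch_eq hC T hf hψ hst hL hL''.nrm h3, ch_eq hC T hf hψ hs hL hL'.nrm h1,
    ch_eq hC T hf hψ ht hL' hL''.nrm h2]
  exact hψ.mul a c (ne_bot hC hL h1) (ne_bot hC hL' h2) h1.cop h2.cop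

/-- automorphisms which are trivial on `RF f` -/
lemma ch_one (hC : CQ A B) (T : TorX A B) (hf : f ≠ ⊥) (hψ : RayHom f A' ψ)
    (hN : NLex A B) {s : ℂ ≃+* ℂ} (hs : FixK A B s) (h : ∀ y ∈ RF f, s y = y) :
    ch T hf ψ s = 1 := by
  obtain ⟨b, L, om, hL⟩ := hN
  obtain ⟨a, -, ha⟩ := T.act f hf s hs
  obtain ⟨b', L', om', mu, hL', h1⟩ := ha b L om hL
  rw [ch_eq hC T hf hψ hs hL hL'.nrm h1]
  obtain ⟨c, hc, rfl⟩ := (T.triv f a s b L L' om mu hf hs hL h1 hL'.nrm).1 h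
  have hc0 : c ≠ 0 := by
    rintro rfl
    apply ne_bot hC hL h1
    rw [Ideal.span_singleton_eq_bot]
  have h10 : (1 : OO A B) ≠ 0 := by
    intro h2
    have h3 : (1 : ℤ) = 0 := congrArg QuadraticAlgebra.re h2
    exact one_ne_zero h3
  rw [hψ.ray c 1 hc0 h10 h1.cop hc]
  have h4 : sp (1 : OO A B) = ⊤ := Ideal.span_singleton_one
  rw [h4]
  exact psi_top hψ

end PHJ

open _root_.Pool.Agent.JT.PHJ in
theorem tj_PHJ : Sj_PHJ := by
  intro A B hC T hN f A' _ ψ hf hψ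
  have hfd := T.fin f hf
  have hgal := T.gal f hf
  have hk := Pool.Agent.MUXC.FGL.isAlgebraic_kk hC
  have halgF : Algebra.IsAlgebraic ℚ ((RF f).restrictScalars ℚ) := by
    have h5 : Algebra.IsAlgebraic (kk A B) (RF f) := Algebra.IsAlgebraic.of_finite _ _
    exact Algebra.IsAlgebraic.trans ℚ (kk A B) (RF f)
  -- extensions
  have hext : ∀ τ : (RF f : IntermediateField (kk A B) ℂ) ≃ₐ[kk A B] RF f,
      ∃ s : ℂ ≃+* ℂ, FixK A B s ∧
        ∀ y : (RF f : IntermediateField (kk A B) ℂ), s (y : ℂ) = ((τ y : _) : ℂ) := by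
    intro τ
    obtain ⟨s, hs⟩ := u_AUE ((RF f).restrictScalars ℚ) halgF
      ((algebraMap (RF f) ℂ).comp (τ : RF f →+* RF f))
    have hs' : ∀ x : RF f, s (x : ℂ) = ((τ x : _) : ℂ) := hs
    refine ⟨s, ?_, hs'⟩
    have h6 := hs' (algebraMap (kk A B) (RF f) ⟨wC A B, wC_mem A B⟩)
    rw [τ.commutes] at h6
    exact h6
  -- two extensions of the same `τ`
  have huniq : ∀ (τ : (RF f : IntermediateField (kk A B) ℂ) ≃ₐ[kk A B] RF f) (s s' : ℂ ≃+* ℂ),
      FixK A B s → FixK A B s' →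
      (∀ y : (RF f : IntermediateField (kk A B) ℂ), s (y : ℂ) = ((τ y : _) : ℂ)) →
      (∀ y : (RF f : IntermediateField (kk A B) ℂ), s' (y : ℂ) = ((τ y : _) : ℂ)) →
      ch T hf ψ s = ch T hf ψ s' := by
    intro τ s s' hs hs' h h'
    have hsi : FixK A B s.symm := by
      show s.symm (wC A B) = wC A B
      rw [RingEquiv.symm_apply_eq]
      exact hs.symm
    have ht : FixK A B (s.symm.trans s') := by
      show s' (s.symm (wC A B)) = wC A B
      rw [hsi, hs']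
    have h1 : ch T hf ψ (s.symm.trans s') = 1 := by
      refine ch_one hC T hf hψ hN ht fun y hy => ?_
      have h2 : y = s ((τ.symm ⟨y, hy⟩ : RF f) : ℂ) := by
        rw [h, AlgEquiv.apply_symm_apply]
      show s' (s.symm y) = y
      conv_lhs => rw [h2]
      rw [RingEquiv.symm_apply_apply, h', AlgEquiv.apply_symm_apply]
    have h3 : s.trans (s.symm.trans s') = s' := by
      apply RingEquiv.ext
      intro x
      show s' (s.symm (s x)) = s' x
      rw [RingEquiv.symm_apply_apply]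
    have h4 := ch_mul hC T hf hψ hN hs ht
    rw [h3, h1, mul_one] at h4
    exact h4.symm
  choose e he1 he2 using hext
  have hΨ : ∀ (τ : (RF f : IntermediateField (kk A B) ℂ) ≃ₐ[kk A B] RF f) (s : ℂ ≃+* ℂ),
      FixK A B s →
      (∀ y : (RF f : IntermediateField (kk A B) ℂ), s (y : ℂ) = ((τ y : _) : ℂ)) →
      ch T hf ψ (e τ) = ch T hf ψ s := fun τ s hs h => huniq τ _ _ (he1 τ) hs (he2 τ) h
  refine ⟨{ toFun := fun τ => ch T hf ψ (e τ)
            map_one' := ?_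
            map_mul' := ?_ }, ?_, ?_⟩
  · have h1 := hΨ 1 (RingEquiv.refl ℂ) rfl (fun y => rfl)
    rw [h1]
    exact ch_one hC T hf hψ hN rfl fun y _ => rfl
  · intro τ₁ τ₂
    have h1 := hΨ (τ₁ * τ₂) ((e τ₂).trans (e τ₁)) (by
      show e τ₁ (e τ₂ (wC A B)) = wC A B
      rw [he1 τ₂, he1 τ₁]) (fun y => by
      show e τ₁ (e τ₂ (y : ℂ)) = _
      rw [he2, he2]
      rfl)
    rw [h1, ch_mul hC T hf hψ hN (he1 τ₂) (he1 τ₁), mul_comm]
  · intro g
    obtain ⟨a, ha0, hac, rfl⟩ := hψ.sur g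
    obtain ⟨s, hs, hsa⟩ := T.surj f hf a ha0 hac
    obtain ⟨b, L, om, hL⟩ := hN
    obtain ⟨b', L', om', mu, hL', h1⟩ := hsa b L om hL
    let s' : ℂ ≃ₐ[kk A B] ℂ := AlgEquiv.ofRingEquiv (f := s)
      (fun x => Pool.Agent.MUXC.FGL.fix hs _ x.2)
    refine ⟨s'.restrictNormal (RF f), ?_⟩
    have h2 := hΨ (s'.restrictNormal (RF f)) s hs (fun y => by
      have h3 := AlgEquiv.restrictNormal_commutes s' (RF f) y
      exact h3.symm)
    show ch T hf ψ (e (s'.restrictNormal (RF f))) = ψ a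
    rw [h2]
    exact ch_eq hC T hf hψ hs hL hL'.nrm h1
  · intro τ s hs h a b b' L L' om om' mu hL hL' hA
    show ch T hf ψ (e τ) = ψ a
    rw [hΨ τ s hs h]
    exact ch_eq hC T hf hψ hs hL hL'.nrm hA

end

end Pool.Agent.JT


end
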