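import Mathlib
import Pool.Agent.MVF.C008
import Pool.Agent.MVF.C014
import Pool.Agent.MVF.C021
import Pool.Agent.MVF.C031
import Pool.Agent.MVF.C036
import Pool.Agent.MVF.C060
import Pool.Agent.MVF.C066

/-! Parts: MU3.N_GAL, MUX.K_GENX, MU3.P_RST, MU3.PX_TOW, MUX.W_KER, MUX.W_HIT -/

namespace MU3.Gal
end MU3.Gal
namespace MU3.PTow
end MU3.PTow
namespace Pool.Agent.MU3.P_RST
end Pool.Agent.MU3.P_RST
namespace Pool.Agent.MUXK.GenX
end Pool.Agent.MUXK.GenX
namespace Pool.Agent.MUXW.HIT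
end Pool.Agent.MUXW.HIT
namespace Pool.Agent.MUXW.KER
end Pool.Agent.MUXW.KER

section

/-!
# MU3N_GAL: Galois theory of `K B_n` over `K`
-/

open NumberField Finset IsDedekindDomain
open scoped nonZeroDivisors Pointwise

namespace MU3

open _root_.Pool.Agent.RI _root_.Pool.Agent.RID

namespace Gal

/-- `K B / K` is Galois and its degree divides `p ^ n`. -/
lemma base {p n : ℕ} [Fact p.Prime] (K B : IntermediateField ℚ ℂ) [FiniteDimensional ℚ K]
    (hB : IsLayer p n B) :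
    IsGalois K (IntermediateField.extendScalars (le_sup_left : K ≤ K ⊔ B)) ∧
    Module.finrank K (IntermediateField.extendScalars (le_sup_left : K ≤ K ⊔ B)) ∣ p ^ n := by
  obtain ⟨hfB, hGB, -⟩ := LAY_thm p n B hB
  have hdeg := hB.1
  have hbot : IsGalois ↥(⊥ : IntermediateField ℚ ℂ)
      (IntermediateField.extendScalars (bot_le : (⊥ : IntermediateField ℚ ℂ) ≤ B)) := by
    let e : B ≃ₐ[ℚ] (IntermediateField.extendScalars
        (bot_le : (⊥ : IntermediateField ℚ ℂ) ≤ B)) :=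
      { toFun := fun x => ⟨x.1, x.2⟩
        invFun := fun x => ⟨x.1, x.2⟩
        left_inv := fun _ => rfl
        right_inv := fun _ => rfl
        map_mul' := fun _ _ => rfl
        map_add' := fun _ _ => rfl
        commutes' := fun _ => rfl }
    have : IsGalois ℚ (IntermediateField.extendScalars
        (bot_le : (⊥ : IntermediateField ℚ ℂ) ≤ B)) := IsGalois.of_algEquiv e
    exact IsGalois.tower_top_of_isGalois ℚ _ _
  have hbd : Module.finrank ↥(⊥ : IntermediateField ℚ ℂ)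
      (IntermediateField.extendScalars (bot_le : (⊥ : IntermediateField ℚ ℂ) ≤ B)) = p ^ n := by
    rw [← hdeg]
    let e : B ≃ₗ[ℚ] (IntermediateField.extendScalars
        (bot_le : (⊥ : IntermediateField ℚ ℂ) ≤ B)) :=
      { toFun := fun x => ⟨x.1, x.2⟩
        invFun := fun x => ⟨x.1, x.2⟩
        left_inv := fun _ => rfl
        right_inv := fun _ => rfl
        map_add' := fun _ _ => rfl
        map_smul' := fun _ _ => rfl }
    rw [e.finrank_eq, ← Pool.Agent.FX.fmul ℚ ↥(⊥ : IntermediateField ℚ ℂ)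
      (IntermediateField.extendScalars (bot_le : (⊥ : IntermediateField ℚ ℂ) ≤ B)),
      IntermediateField.finrank_bot, one_mul]
  have h1 := BCH_thm.1 ⊥ B K K (K ⊔ B) bot_le le_sup_left (bot_sup_eq K).symm (sup_comm K B) hbot
  rw [hbd] at h1
  exact h1

/-- The degree of `K B / K`. -/
lemma degree {p n : ℕ} [Fact p.Prime] (K B : IntermediateField ℚ ℂ) [FiniteDimensional ℚ K]
    (hcop : ¬ p ∣ Module.finrank ℚ K) (hB : IsLayer p n B) :
    Module.finrank K (IntermediateField.extendScalars (le_sup_left : K ≤ K ⊔ B)) = p ^ n := by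
  have hpr : p.Prime := Fact.out
  apply Nat.dvd_antisymm (base K B hB).2
  obtain ⟨hfB, -, -⟩ := LAY_thm p n B hB
  have h3 : Module.finrank ℚ K * Module.finrank K
      (IntermediateField.extendScalars (le_sup_left : K ≤ K ⊔ B)) =
      Module.finrank ℚ ↥(K ⊔ B) :=
    Pool.Agent.FX.fmul ℚ K (IntermediateField.extendScalars (le_sup_left : K ≤ K ⊔ B))
  have h4 : Module.finrank ℚ B * Module.finrank B
      (IntermediateField.extendScalars (le_sup_right : B ≤ K ⊔ B)) =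
      Module.finrank ℚ ↥(K ⊔ B) :=
    Pool.Agent.FX.fmul ℚ B (IntermediateField.extendScalars (le_sup_right : B ≤ K ⊔ B))
  have h5 : p ^ n ∣ Module.finrank ℚ K * Module.finrank K
      (IntermediateField.extendScalars (le_sup_left : K ≤ K ⊔ B)) := by
    rw [h3, ← h4, hB.1]
    exact dvd_mul_right _ _
  have hc : (p ^ n).Coprime (Module.finrank ℚ K) := by
    apply Nat.Coprime.pow_left
    rwa [Nat.Prime.coprime_iff_not_dvd hpr]
  exact hc.dvd_of_dvd_mul_left h5

/-- The case `k = K`. -/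
lemma overK (p : ℕ) [Fact p.Prime] (K : IntermediateField ℚ ℂ)
    [FiniteDimensional ℚ K] (B : ℕ → IntermediateField ℚ ℂ)
    (hcop : ¬ p ∣ Module.finrank ℚ K) (hB : ∀ n, IsLayer p n (B n)) (hm : Monotone B) (n : ℕ) :
    letI := algC (le_sup_left : K ≤ K ⊔ B n)
    ∃ g : ↥(K ⊔ B n) ≃ₐ[K] ↥(K ⊔ B n), orderOf g = p ^ n ∧
      (∀ x : ↥(K ⊔ B n), g x = x ↔ (x : ℂ) ∈ K) ∧
      ∀ m ≤ n, orderOf (g ^ (p ^ m)) = p ^ (n - m) ∧
        ∀ x : ↥(K ⊔ B n), (g ^ (p ^ m)) x = x ↔ (x : ℂ) ∈ K ⊔ B m := by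
  have hpr : p.Prime := Fact.out
  have hKL : K ≤ K ⊔ B n := le_sup_left
  let aKL : Algebra K ↥(K ⊔ B n) := algC hKL
  obtain ⟨hfB, hGB, -⟩ := LAY_thm p n (B n) (hB n)
  have fdQ : FiniteDimensional ℚ ↥(K ⊔ B n) := IntermediateField.finiteDimensional_sup K (B n)
  have fdL := Pool.Agent.FX.fd K ↥(K ⊔ B n)
  have gL : IsGalois K ↥(K ⊔ B n) := (isGalois_algC hKL).2 (base K (B n) (hB n)).1
  have dL : Module.finrank K ↥(K ⊔ B n) = p ^ n :=
    (finrank_algC hKL).trans (degree K (B n) hcop (hB n))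
  have hcyc := CDL.cyclic (F := K) (t_LAYC p n (B n) (hB n))
  have hcyc2 : IsCyclic (↥(K ⊔ B n) ≃ₐ[K] ↥(K ⊔ B n)) :=
    isCyclic_of_injective (AlgEquiv.autCongr (extEquiv hKL)).symm.toMonoidHom
      (AlgEquiv.autCongr (extEquiv hKL)).symm.injective
  have hc : IsCyclic (⊥ : IntermediateField K ↥(K ⊔ B n)).fixingSubgroup := inferInstance
  obtain ⟨g, hg1, hg2⟩ := GCC.gen (⊥ : IntermediateField K ↥(K ⊔ B n)) hc (p ^ n)
    (by rw [dL, IntermediateField.finrank_bot, one_mul])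
  have hbot : ∀ x : ↥(K ⊔ B n), x ∈ (⊥ : IntermediateField K ↥(K ⊔ B n)) ↔ (x : ℂ) ∈ K := by
    intro x
    rw [IntermediateField.mem_bot]
    constructor
    · rintro ⟨y, rfl⟩
      exact Pool.Agent.FX.incl_mem _ y
    · intro h
      exact ⟨⟨(x : ℂ), h⟩, rfl⟩
  refine ⟨g, hg1, fun x => (hg2 x).trans (hbot x), fun m hmn => ⟨?_, ?_⟩⟩
  · rw [orderOf_pow_of_dvd (pow_ne_zero _ hpr.ne_zero) (by rw [hg1]; exact pow_dvd_pow p hmn), hg1,
      Nat.pow_div hmn hpr.pos]
  · have hKm : K ≤ K ⊔ B m := le_sup_left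
    have hmL : K ⊔ B m ≤ K ⊔ B n := sup_le_sup_left (hm hmn) K
    have key := GCP.cyc_fixed g ⊥ (GCP.sub hKL (K ⊔ B m) hKm) (p ^ m) hg2 bot_le
      (by rw [IntermediateField.finrank_bot, one_mul, GCP.finrank_sub hKL (K ⊔ B m) hKm hmL]
          exact degree K (B m) hcop (hB m))
    intro x
    exact (key x).trans (GCP.mem_sub hKL (K ⊔ B m) hKm x)

end Gal

open _root_.MU3.Gal in
theorem n_GAL : N_GAL := by
  intro p _ k K _ B hk hcop hB hm n h
  let akL : Algebra k ↥(K ⊔ B n) := algC h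
  have hKL : K ≤ K ⊔ B n := le_sup_left
  let akK : Algebra k K := algC hk
  let aKL : Algebra K ↥(K ⊔ B n) := algC hKL
  have t0 := towerC hk hKL
  obtain ⟨g, hg1, hg2, hg3⟩ := overK p K B hcop hB hm n
  have hpow : ∀ j : ℕ, (AlgEquiv.restrictScalars k g : ↥(K ⊔ B n) ≃ₐ[k] ↥(K ⊔ B n)) ^ j =
      AlgEquiv.restrictScalars k (g ^ j) := fun j =>
    (map_pow (AlgEquiv.restrictScalarsHom k : (↥(K ⊔ B n) ≃ₐ[K] ↥(K ⊔ B n)) →* _) g j).symm
  have hord : ∀ γ : ↥(K ⊔ B n) ≃ₐ[K] ↥(K ⊔ B n),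
      orderOf (AlgEquiv.restrictScalars k γ : ↥(K ⊔ B n) ≃ₐ[k] ↥(K ⊔ B n)) = orderOf γ := by
    intro γ
    refine orderOf_injective
      (AlgEquiv.restrictScalarsHom k : (↥(K ⊔ B n) ≃ₐ[K] ↥(K ⊔ B n)) →* _) ?_ γ
    exact AlgEquiv.restrictScalars_injective k
  refine ⟨AlgEquiv.restrictScalars k g, (hord g).trans hg1, hg2, fun m hmn => ⟨?_, ?_⟩⟩
  · rw [hpow, hord]
    exact (hg3 m hmn).1
  · rw [hpow]
    exact (hg3 m hmn).2

end MU3


end

section

/-!
# MUXK_GENX: Galois theory of `K B_n` over `K`, linearly disjoint layers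
-/

open NumberField Finset IsDedekindDomain
open scoped nonZeroDivisors Pointwise

namespace Pool.Agent.MUXK

open _root_.Pool.Agent.MU3 _root_.Pool.Agent.RI _root_.Pool.Agent.RID

namespace GenX

/-- The degree of `K B / K`. -/
lemma degree {p n : ℕ} (K B : IntermediateField ℚ ℂ) [FiniteDimensional ℚ K]
    (hdeg : Module.finrank ℚ ↥(K ⊔ B) = Module.finrank ℚ K * p ^ n) :
    Module.finrank K (IntermediateField.extendScalars (le_sup_left : K ≤ K ⊔ B)) = p ^ n := by
  have h3 : Module.finrank ℚ K * Module.finrank K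
      (IntermediateField.extendScalars (le_sup_left : K ≤ K ⊔ B)) =
      Module.finrank ℚ ↥(K ⊔ B) :=
    Pool.Agent.FX.fmul ℚ K (IntermediateField.extendScalars (le_sup_left : K ≤ K ⊔ B))
  rw [hdeg] at h3
  exact Nat.eq_of_mul_eq_mul_left Module.finrank_pos h3

/-- The case `k = K`. -/
lemma overK (p : ℕ) [Fact p.Prime] (K : IntermediateField ℚ ℂ)
    [FiniteDimensional ℚ K] (B : ℕ → IntermediateField ℚ ℂ)
    (hdeg : ∀ n, Module.finrank ℚ ↥(K ⊔ B n) = Module.finrank ℚ K * p ^ n)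
    (hB : ∀ n, IsLayer p n (B n)) (hm : Monotone B) (n : ℕ) :
    letI := algC (le_sup_left : K ≤ K ⊔ B n)
    ∃ g : ↥(K ⊔ B n) ≃ₐ[K] ↥(K ⊔ B n), orderOf g = p ^ n ∧
      (∀ x : ↥(K ⊔ B n), g x = x ↔ (x : ℂ) ∈ K) ∧
      ∀ m ≤ n, orderOf (g ^ (p ^ m)) = p ^ (n - m) ∧
        ∀ x : ↥(K ⊔ B n), (g ^ (p ^ m)) x = x ↔ (x : ℂ) ∈ K ⊔ B m := by
  have hpr : p.Prime := Fact.out
  have hKL : K ≤ K ⊔ B n := le_sup_left
  let aKL : Algebra K ↥(K ⊔ B n) := algC hKL
  obtain ⟨hfB, hGB, -⟩ := LAY_thm p n (B n) (hB n)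
  have fdQ : FiniteDimensional ℚ ↥(K ⊔ B n) := IntermediateField.finiteDimensional_sup K (B n)
  have fdL := Pool.Agent.FX.fd K ↥(K ⊔ B n)
  have gL : IsGalois K ↥(K ⊔ B n) := (isGalois_algC hKL).2 (MU3.Gal.base K (B n) (hB n)).1
  have dL : Module.finrank K ↥(K ⊔ B n) = p ^ n :=
    (finrank_algC hKL).trans (degree K (B n) (hdeg n))
  have hcyc := CDL.cyclic (F := K) (t_LAYC p n (B n) (hB n))
  have hcyc2 : IsCyclic (↥(K ⊔ B n) ≃ₐ[K] ↥(K ⊔ B n)) :=
    isCyclic_of_injective (AlgEquiv.autCongr (extEquiv hKL)).symm.toMonoidHom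
      (AlgEquiv.autCongr (extEquiv hKL)).symm.injective
  have hc : IsCyclic (⊥ : IntermediateField K ↥(K ⊔ B n)).fixingSubgroup := inferInstance
  obtain ⟨g, hg1, hg2⟩ := GCC.gen (⊥ : IntermediateField K ↥(K ⊔ B n)) hc (p ^ n)
    (by rw [dL, IntermediateField.finrank_bot, one_mul])
  have hbot : ∀ x : ↥(K ⊔ B n), x ∈ (⊥ : IntermediateField K ↥(K ⊔ B n)) ↔ (x : ℂ) ∈ K := by
    intro x
    rw [IntermediateField.mem_bot]
    constructor
    · rintro ⟨y, rfl⟩
      exact Pool.Agent.FX.incl_mem _ y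
    · intro h
      exact ⟨⟨(x : ℂ), h⟩, rfl⟩
  refine ⟨g, hg1, fun x => (hg2 x).trans (hbot x), fun m hmn => ⟨?_, ?_⟩⟩
  · rw [orderOf_pow_of_dvd (pow_ne_zero _ hpr.ne_zero) (by rw [hg1]; exact pow_dvd_pow p hmn), hg1,
      Nat.pow_div hmn hpr.pos]
  · have hKm : K ≤ K ⊔ B m := le_sup_left
    have hmL : K ⊔ B m ≤ K ⊔ B n := sup_le_sup_left (hm hmn) K
    have key := GCP.cyc_fixed g ⊥ (GCP.sub hKL (K ⊔ B m) hKm) (p ^ m) hg2 bot_le
      (by rw [IntermediateField.finrank_bot, one_mul, GCP.finrank_sub hKL (K ⊔ B m) hKm hmL]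
          exact degree K (B m) (hdeg m))
    intro x
    exact (key x).trans (GCP.mem_sub hKL (K ⊔ B m) hKm x)

end GenX

open _root_.Pool.Agent.MUXK.GenX in
theorem t_GENX : S_GENX := by
  intro p _ k K _ B hk hdeg hB hm n h
  let akL : Algebra k ↥(K ⊔ B n) := algC h
  have hKL : K ≤ K ⊔ B n := le_sup_left
  let akK : Algebra k K := algC hk
  let aKL : Algebra K ↥(K ⊔ B n) := algC hKL
  have t0 := towerC hk hKL
  obtain ⟨g, hg1, hg2, hg3⟩ := overK p K B hdeg hB hm n
  have hpow : ∀ j : ℕ, (AlgEquiv.restrictScalars k g : ↥(K ⊔ B n) ≃ₐ[k] ↥(K ⊔ B n)) ^ j =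
      AlgEquiv.restrictScalars k (g ^ j) := fun j =>
    (map_pow (AlgEquiv.restrictScalarsHom k : (↥(K ⊔ B n) ≃ₐ[K] ↥(K ⊔ B n)) →* _) g j).symm
  have hord : ∀ γ : ↥(K ⊔ B n) ≃ₐ[K] ↥(K ⊔ B n),
      orderOf (AlgEquiv.restrictScalars k γ : ↥(K ⊔ B n) ≃ₐ[k] ↥(K ⊔ B n)) = orderOf γ := by
    intro γ
    refine orderOf_injective
      (AlgEquiv.restrictScalarsHom k : (↥(K ⊔ B n) ≃ₐ[K] ↥(K ⊔ B n)) →* _) ?_ γ
    exact AlgEquiv.restrictScalars_injective k
  refine ⟨AlgEquiv.restrictScalars k g, (hord g).trans hg1, hg2, fun m hmn => ⟨?_, ?_⟩⟩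
  · rw [hpow, hord]
    exact (hg3 m hmn).1
  · rw [hpow]
    exact (hg3 m hmn).2

end Pool.Agent.MUXK


end

section

/-!
# MU3: restriction from `K_n` to `K_m`
-/

set_option autoImplicit false

open NumberField IsDedekindDomain Finset
open scoped nonZeroDivisors Pointwise

namespace Pool.Agent.MU3

open _root_.Pool.Agent.RI _root_.Pool.Agent.RID

namespace P_RST

lemma eq_one_of_mem {G : Type} [Group G] (D : Subgroup G) (hD : (Nat.card D).Coprime 3) (m : ℕ)
    (x : G) (hx : x ∈ D) (hx' : x ^ (3 ^ m) = 1) : x = 1 := by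
  have h1 : orderOf x ∣ 3 ^ m := orderOf_dvd_of_pow_eq_one hx'
  have h2 : orderOf x ∣ Nat.card D := Subgroup.orderOf_dvd_natCard D hx
  have h3 : (Nat.card D).Coprime (3 ^ m) := Nat.Coprime.pow_right m hD
  have h4 : orderOf x = 1 := Nat.eq_one_of_dvd_coprimes h3 h2 h1
  exact orderOf_eq_one_iff.mp h4

end P_RST

open _root_.Pool.Agent.MU3.P_RST in
theorem t_RST (h1 : S_GALK) (h2 : S_TWK) : S_RST := by
  intro k K B _ _ hB m n hm h h' hmn
  let aL : Algebra k ↥(K ⊔ B n) := algC h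
  let aM : Algebra k ↥(K ⊔ B m) := algC h'
  let aML : Algebra ↥(K ⊔ B m) ↥(K ⊔ B n) := algC hmn
  have tML := towerC h' hmn
  have gL : IsGalois k ↥(K ⊔ B n) := (h1 k K B hB n h).1
  have gM : IsGalois k ↥(K ⊔ B m) := (h1 k K B hB m h').1
  have fdL : FiniteDimensional k ↥(K ⊔ B n) := by
    have h1 : FiniteDimensional ℚ ↥(K ⊔ B n) := inferInstance
    exact Module.Finite.of_restrictScalars_finite ℚ k _
  have hres : ∀ (σ : ↥(K ⊔ B n) ≃ₐ[k] ↥(K ⊔ B n)) (x : ↥(K ⊔ B m)),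
      ((AlgEquiv.restrictNormalHom ↥(K ⊔ B m) σ x : ↥(K ⊔ B m)) : ℂ) =
        (σ ⟨x, hmn x.2⟩ : ↥(K ⊔ B n)) := by
    intro σ x
    have h2 := AlgEquiv.restrictNormal_commutes σ ↥(K ⊔ B m) x
    exact Pool.Agent.FX.coe_comm hmn σ x _ h2
  have hγ1 : ∀ γ : ↥(K ⊔ B n) ≃ₐ[k] ↥(K ⊔ B n), (∀ x : ↥(K ⊔ B n), γ x = x ↔ (x : ℂ) ∈ K) →
      ∀ x : ↥(K ⊔ B m), AlgEquiv.restrictNormalHom ↥(K ⊔ B m) γ x = x ↔ (x : ℂ) ∈ K := by
    intro γ hγ x
    rw [← hγ ⟨x, hmn x.2⟩]
    constructor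
    · intro hx
      apply Subtype.ext
      rw [← hres, hx]
    · intro hx
      apply Subtype.ext
      rw [hres, hx]
  refine ⟨AlgEquiv.restrictNormalHom ↥(K ⊔ B m), hres, fun γ hγ => ⟨hγ1 γ hγ, ?_⟩, ?_⟩
  · have hkK : k ≤ K := hB.hk
    let akK : Algebra k K := algC hkK
    have hKM : K ≤ K ⊔ B m := le_sup_left
    let aKM : Algebra K ↥(K ⊔ B m) := algC hKM
    have t1 := towerC hkK hKM
    have e1 : Module.finrank k K * Module.finrank K ↥(K ⊔ B m) =
        Module.finrank k ↥(K ⊔ B m) := Pool.Agent.FX.fmul _ _ _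
    have e2 : Module.finrank K ↥(K ⊔ B m) = 3 ^ m :=
      (finrank_algC hKM).trans (MU3.Gal.degree K (B m) hB.cop (hB.lay m))
    have e3 : Module.finrank k (IntermediateField.extendScalars h') =
        Module.finrank k (IntermediateField.extendScalars hkK) * 3 ^ m := by
      rw [← finrank_algC, ← finrank_algC, ← e1, e2]
    have key := GCP.cyc_fixed γ (GCP.sub h K hkK) (GCP.sub h (K ⊔ B m) h') (3 ^ m)
      (fun x => (hγ x).trans (GCP.mem_sub h K hkK x).symm)
      (fun x hx => (le_sup_left : K ≤ K ⊔ B m) hx)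
      (by rw [GCP.finrank_sub h K hkK le_sup_left, GCP.finrank_sub h (K ⊔ B m) h' hmn, e3])
    intro x
    exact (key x).trans (GCP.mem_sub h (K ⊔ B m) h' x)
  · have hmem : ∀ δ ∈ NC h (B n), AlgEquiv.restrictNormalHom ↥(K ⊔ B m) δ ∈ NC h' (B m) := by
      intro δ hδ x hx
      apply Subtype.ext
      rw [hres]
      rw [hδ ⟨x, hmn x.2⟩ (hB.mono hm hx)]
    let φ : NC h (B n) →* NC h' (B m) :=
      { toFun := fun δ => ⟨AlgEquiv.restrictNormalHom ↥(K ⊔ B m)
          (δ : ↥(K ⊔ B n) ≃ₐ[k] ↥(K ⊔ B n)), hmem δ δ.2⟩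
        map_one' := Subtype.ext (map_one _)
        map_mul' := fun a b => Subtype.ext (map_mul _ _ _) }
    have hφ : Function.Injective φ := by
      rw [injective_iff_map_eq_one]
      intro δ hδ
      have hδ' : AlgEquiv.restrictNormalHom ↥(K ⊔ B m) (δ : ↥(K ⊔ B n) ≃ₐ[k] ↥(K ⊔ B n)) = 1 :=
        congrArg Subtype.val hδ
      apply Subtype.ext
      apply GCC.triv h
      · intro x hx
        apply Subtype.ext
        have h3 := hres δ ⟨x, (le_sup_left : K ≤ K ⊔ B m) hx⟩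
        rw [hδ'] at h3
        exact h3.symm
      · exact δ.2
    have hφs : Function.Surjective φ := by
      intro τ
      obtain ⟨g, -, hg, -⟩ := MU3.n_GAL 3 k K B hB.hk hB.cop hB.lay hB.mono n h
      have T1 := h2 k K B hB n h g hg
      have T2 := h2 k K B hB m h' (AlgEquiv.restrictNormalHom ↥(K ⊔ B m) g) (hγ1 g hg)
      obtain ⟨σ, hσ⟩ := AlgEquiv.restrictNormalHom_surjective (F := k) (K₁ := ↥(K ⊔ B m))
        ↥(K ⊔ B n) (τ : ↥(K ⊔ B m) ≃ₐ[k] ↥(K ⊔ B m))
      obtain ⟨δ, hδ, i, hi⟩ := T1.gen σ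
      refine ⟨⟨δ, hδ⟩, Subtype.ext ?_⟩
      show AlgEquiv.restrictNormalHom ↥(K ⊔ B m) δ = τ
      have e1 : (τ : ↥(K ⊔ B m) ≃ₐ[k] ↥(K ⊔ B m)) =
          AlgEquiv.restrictNormalHom ↥(K ⊔ B m) δ *
            (AlgEquiv.restrictNormalHom ↥(K ⊔ B m) g) ^ i := by
        rw [← hσ, hi, map_mul, map_pow]
      have e2 : (AlgEquiv.restrictNormalHom ↥(K ⊔ B m) g) ^ i ∈ NC h' (B m) := by
        have e3 : (AlgEquiv.restrictNormalHom ↥(K ⊔ B m) g) ^ i =
            (AlgEquiv.restrictNormalHom ↥(K ⊔ B m) δ)⁻¹ * (τ : ↥(K ⊔ B m) ≃ₐ[k] ↥(K ⊔ B m)) := by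
          rw [e1, inv_mul_cancel_left]
        rw [e3]
        exact mul_mem (inv_mem (hmem δ hδ)) τ.2
      have e4 : (AlgEquiv.restrictNormalHom ↥(K ⊔ B m) g) ^ i = 1 := by
        refine eq_one_of_mem _ T2.cop m _ e2 ?_
        rw [← pow_mul, mul_comm, pow_mul, ← T2.ord, pow_orderOf_eq_one, one_pow]
      rw [e1, e4, mul_one]
    exact ⟨MulEquiv.ofBijective φ ⟨hφ, hφs⟩, fun δ => rfl⟩

end Pool.Agent.MU3


end

section

/-!
# MU3, block P, module TOW: Galois theory of the layers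
-/

open NumberField Finset IsDedekindDomain
open scoped nonZeroDivisors Pointwise

namespace MU3

open _root_.Pool.Agent.RI _root_.Pool.Agent.RID

namespace PTow

/-- The degree of `B (n + 1)` over `B n`. -/
lemma step {p n : ℕ} [Fact p.Prime] (B B' : IntermediateField ℚ ℂ) (hB : IsLayer p n B)
    (hB' : IsLayer p (n + 1) B') (h : B ≤ B') :
    IsGalois B (IntermediateField.extendScalars h) ∧
      Module.finrank B (IntermediateField.extendScalars h) = p := by
  have hpr : p.Prime := Fact.out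
  obtain ⟨hfB', hGB', -⟩ := LAY_thm p (n + 1) B' hB'
  let aBB : Algebra B B' := algC h
  have hT : IsScalarTower ℚ B B' := IsScalarTower.of_algebraMap_eq fun x => by
    apply Subtype.ext
    rw [eq_ratCast, eq_ratCast, map_ratCast]
  have hg : IsGalois B B' := IsGalois.tower_top_of_isGalois ℚ B B'
  refine ⟨(isGalois_algC h).1 hg, ?_⟩
  have h1 : Module.finrank ℚ B * Module.finrank B B' = Module.finrank ℚ B' :=
    Pool.Agent.FX.fmul ℚ B B'
  rw [hB.1, hB'.1, pow_succ] at h1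
  have h2 : Module.finrank B B' = p := Nat.eq_of_mul_eq_mul_left (pow_pos hpr.pos n) h1
  rw [← finrank_algC h]
  exact h2

/-- Equal degrees. -/
lemma eq_of_one {M N : IntermediateField ℚ ℂ} (h : M ≤ N)
    (h1 : Module.finrank M (IntermediateField.extendScalars h) = 1) : N = M := by
  apply le_antisymm _ h
  rw [IntermediateField.finrank_eq_one_iff] at h1
  intro x hx
  have h2 : x ∈ IntermediateField.extendScalars h := hx
  rw [h1, IntermediateField.mem_bot] at h2
  obtain ⟨y, rfl⟩ := h2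
  exact y.2

end PTow

open _root_.MU3.PTow in
theorem p_TOW : P_TOW := by
  intro p _ L _ B hB hm n h h'
  let aLN : Algebra L ↥(L ⊔ B (n + 1)) := algC h
  let aMN : Algebra ↥(L ⊔ B n) ↥(L ⊔ B (n + 1)) := algC h'
  have hpr : p.Prime := Fact.out
  obtain ⟨hfB, hGB, -⟩ := LAY_thm p n (B n) (hB n)
  obtain ⟨hfB', hGB', -⟩ := LAY_thm p (n + 1) (B (n + 1)) (hB (n + 1))
  have fdQ : FiniteDimensional ℚ ↥(L ⊔ B (n + 1)) :=
    IntermediateField.finiteDimensional_sup L (B (n + 1))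
  have fdQM : FiniteDimensional ℚ ↥(L ⊔ B n) := IntermediateField.finiteDimensional_sup L (B n)
  have hBB : B n ≤ B (n + 1) := hm (Nat.le_succ n)
  obtain ⟨hs1, hs2⟩ := step (B n) (B (n + 1)) (hB n) (hB (n + 1)) hBB
  have hrel := (BCH_thm.1 (B n) (B (n + 1)) L (L ⊔ B n) (L ⊔ B (n + 1)) hBB h'
    (sup_comm _ _) (sup_comm _ _) hs1).2
  rw [hs2] at hrel
  rcases (Nat.dvd_prime hpr).1 hrel with h1 | hp
  · refine ⟨n, Nat.le_mul_of_pos_right _ Module.finrank_pos, 1, one_pow _, Or.inl ?_⟩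
    exact eq_of_one h' h1
  · have hLM : L ≤ L ⊔ B n := le_sup_left
    have fdL := Pool.Agent.FX.fd L ↥(L ⊔ B (n + 1))
    have gL : IsGalois L ↥(L ⊔ B (n + 1)) :=
      (isGalois_algC h).2 (Gal.base L (B (n + 1)) (hB (n + 1))).1
    obtain ⟨j, -, hj⟩ := (Nat.dvd_prime_pow hpr).1 (Gal.base L (B (n + 1)) (hB (n + 1))).2
    have dtow : Module.finrank L (IntermediateField.extendScalars hLM) *
        Module.finrank ↥(L ⊔ B n) (IntermediateField.extendScalars h') =
        Module.finrank L (IntermediateField.extendScalars h) := GCC.degM h hLM h'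
    rw [hp] at dtow
    have hj' : Module.finrank L (IntermediateField.extendScalars h) = p ^ j := hj
    rw [hj'] at dtow
    obtain ⟨m, rfl⟩ : ∃ m, j = m + 1 := by
      rcases j with _ | m
      · exfalso
        rw [pow_zero] at dtow
        have h5 := Nat.dvd_one.1 ⟨_, (by rw [mul_comm]; exact dtow.symm)⟩
        exact hpr.one_lt.ne' h5
      · exact ⟨m, rfl⟩
    have dM : Module.finrank L (IntermediateField.extendScalars hLM) = p ^ m := by
      rw [pow_succ] at dtow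
      exact Nat.eq_of_mul_eq_mul_right hpr.pos dtow
    have dL : Module.finrank L ↥(L ⊔ B (n + 1)) = p ^ (m + 1) := (finrank_algC h).trans hj'
    have hcyc := CDL.cyclic (F := L) (t_LAYC p (n + 1) (B (n + 1)) (hB (n + 1)))
    have hcyc2 : IsCyclic (↥(L ⊔ B (n + 1)) ≃ₐ[L] ↥(L ⊔ B (n + 1))) :=
      isCyclic_of_injective (AlgEquiv.autCongr (extEquiv h)).symm.toMonoidHom
        (AlgEquiv.autCongr (extEquiv h)).symm.injective
    have hc : IsCyclic (⊥ : IntermediateField L ↥(L ⊔ B (n + 1))).fixingSubgroup := inferInstance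
    obtain ⟨g, hg1, hg2⟩ := GCC.gen (⊥ : IntermediateField L ↥(L ⊔ B (n + 1))) hc (p ^ (m + 1))
      (by rw [dL, IntermediateField.finrank_bot, one_mul])
    have key := GCP.cyc_fixed g ⊥ (GCP.sub h (L ⊔ B n) hLM) (p ^ m) hg2 bot_le
      (by rw [IntermediateField.finrank_bot, one_mul, GCP.finrank_sub h (L ⊔ B n) hLM h', dM])
    refine ⟨m, ?_, g, ?_, Or.inr ⟨?_, ?_⟩⟩
    · have e1 : Module.finrank ℚ L * Module.finrank L ↥(L ⊔ B (n + 1)) =
          Module.finrank ℚ ↥(L ⊔ B (n + 1)) := by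
        have hT : IsScalarTower ℚ L ↥(L ⊔ B (n + 1)) := IsScalarTower.of_algebraMap_eq fun x => by
          apply Subtype.ext
          rw [eq_ratCast, eq_ratCast, map_ratCast]
        exact Pool.Agent.FX.fmul ℚ L _
      have e2 : Module.finrank ℚ (B (n + 1)) ≤ Module.finrank ℚ ↥(L ⊔ B (n + 1)) :=
        LinearMap.finrank_le_finrank_of_injective
          (f := (IntermediateField.inclusion (le_sup_right : B (n + 1) ≤ L ⊔ B (n + 1))).toLinearMap)
          (IntermediateField.inclusion (le_sup_right : B (n + 1) ≤ L ⊔ B (n + 1))).toRingHom.injective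
      rw [(hB (n + 1)).1, ← e1, dL, pow_succ, pow_succ, ← mul_assoc] at e2
      have e3 : p ^ n * p ≤ (p ^ m * Module.finrank ℚ L) * p := by
        rw [mul_comm (p ^ m)]
        exact e2
      exact Nat.le_of_mul_le_mul_right e3 hpr.pos
    · rw [← hg1]
      exact pow_orderOf_eq_one g
    · rw [orderOf_pow_of_dvd (pow_ne_zero _ hpr.ne_zero)
        (by rw [hg1]; exact pow_dvd_pow p (Nat.le_succ m)), hg1,
        Nat.pow_div (Nat.le_succ m) hpr.pos, Nat.succ_sub (le_refl m), Nat.sub_self, pow_one]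
    · intro x
      rw [key x, GCP.mem_sub]
      constructor
      · intro hx
        exact ⟨⟨x.1, hx⟩, rfl⟩
      · rintro ⟨y, rfl⟩
        exact Pool.Agent.FX.incl_mem _ y

end MU3


end

section

/-!
# MUX, block W, module KER (helper65): the automorphisms of `F_m / H`
-/

set_option autoImplicit false

open WeierstrassCurve Polynomial NumberField IsDedekindDomain

namespace Pool.Agent.MUXW

open _root_.MU3 _root_.Pool.Agent.MU3A _root_.Pool.Agent.MU3B _root_.Pool.Agent.MU3C _root_.Pool.Agent.RI _root_.Pool.Agent.RID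
open _root_.Pool.Agent.MUX _root_.Pool.Agent.MUXU
open _root_.Pool.Agent.MU3V (cls Sub GD)
open _root_.Pool.Agent.MUXV (GR InK tX CMO Ovr)

noncomputable section

namespace KER

/-- automorphisms of `ℂ` trivial on `k` are `k`-linear -/
lemma fix {A B : ℤ} {σ : ℂ ≃+* ℂ} (hσ : FixK A B σ) : ∀ y ∈ kk A B, σ y = y := by
  intro y hy
  induction hy using IntermediateField.adjoin_induction with
  | mem x hx => rw [Set.mem_singleton_iff] at hx; rw [hx]; exact hσ
  | algebraMap x => simp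
  | add x y _ _ hx hy => rw [map_add, hx, hy]
  | inv x _ hx => rw [map_inv₀, hx]
  | mul x y _ _ hx hy => rw [map_mul, hx, hy]

lemma cqF {A B : ℤ} (h : CQ A B) : Pool.Agent.MUXF.CQ A B :=
  ⟨h.hB, h.neg, h.fund1, h.fund0⟩

/-- lattices of normalised curves are stable under `O` -/
lemma stab (he : Pool.Agent.MUXV.Sq_EMB) {A B : ℤ} (hC : CQ A B) {b : Ideal (OO A B)} {L : PeriodPair} {om : ℂ}
    (hL : IsNL b L om) (x : OO A B) {z : ℂ} (hz : z ∈ L.lattice) : emb x * z ∈ L.lattice := by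
  obtain ⟨y, hy, rfl⟩ := (hL.mem z).1 hz
  obtain ⟨h1, -⟩ := he A B (cqF hC)
  refine (hL.mem _).2 ⟨x * y, b.mul_mem_left x hy, ?_⟩
  rw [h1]
  ring

lemma g2_ne {A B : ℤ} {b : Ideal (OO A B)} {L : PeriodPair} {om : ℂ} (hL : IsNL b L om) :
    L.g₂ ≠ 0 := by
  intro h0
  have h1 := hL.nrm
  rw [h0] at h1
  have h2 : L.g₃ = 0 := by
    have h3 : (18 : ℂ) * L.g₃ = 0 := by linear_combination h1
    rcases mul_eq_zero.1 h3 with h | h
    · norm_num at h
    · exact h
  exact (b_DSC L).1 (by rw [h0, h2]; ring)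

/-- the core: an isogeny of degree one between normalised lattices -/
lemma core (he : Pool.Agent.MUXV.Sq_EMB) {A B : ℤ} (hC : CQ A B) {b b' : Ideal (OO A B)} {L L' : PeriodPair}
    {om om' mu : ℂ} {c : OO A B} (hL : IsNL b L om) (hL' : IsNL b' L' om')
    (hq : IsQ (sp c) L L' mu) :
    kap L' = kap L ∧ (mu = emb c ∨ mu = -emb c) ∧ (∀ z, z ∈ L.lattice ↔ z ∈ L'.lattice) ∧
      ∀ z, L'.weierstrassP z = L.weierstrassP z := by
  obtain ⟨hmu, hq⟩ := hq
  have hq' : ∀ z : ℂ, mu * z ∈ L'.lattice ↔ emb c * z ∈ L.lattice := by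
    intro z
    rw [hq z]
    constructor
    · intro h
      exact h c (Ideal.mem_span_singleton_self c)
    · intro h x hx
      obtain ⟨y, rfl⟩ := Ideal.mem_span_singleton'.1 hx
      rw [(he A B (cqF hC)).1, mul_assoc]
      exact stab he hC hL y h
  have hc : emb c ≠ 0 := by
    intro h0
    have h1 := (hq' (L'.ω₁ / 2 / mu)).2 (by rw [h0, zero_mul]; exact L.lattice.zero_mem)
    rw [mul_div_cancel₀ _ hmu] at h1
    exact L'.ω₁_div_two_notMem_lattice h1
  set u : ℂ := mu / emb c with hu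
  have hu0 : u ≠ 0 := div_ne_zero hmu hc
  have hul : ∀ z : ℂ, z ∈ L.lattice ↔ u * z ∈ L'.lattice := by
    intro z
    have h1 := hq' (z / emb c)
    rw [mul_div_cancel₀ _ hc] at h1
    rw [← h1, hu]
    have h2 : mu * (z / emb c) = mu / emb c * z := by ring
    rw [h2]
  obtain ⟨-, -, h3, h4⟩ := ta_SCP L L' u hu0 hul
  have hg := g2_ne hL
  have hu2 : u ^ 2 = 1 := by
    have h5 := hL'.nrm
    rw [h3, h4] at h5
    have h6 := hL.nrm
    have h7 : L.g₂ * u ^ 2 = L.g₂ := by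
      have h8 : L.g₂ / u ^ 4 * u ^ 6 = -18 * (L.g₃ / u ^ 6) * u ^ 6 := by rw [h5]
      have h9 : L.g₂ / u ^ 4 * u ^ 6 = L.g₂ * u ^ 2 := by
        field_simp
      have h10 : -18 * (L.g₃ / u ^ 6) * u ^ 6 = -18 * L.g₃ := by
        field_simp
      rw [h9, h10, ← h6] at h8
      exact h8
    have h11 : L.g₂ * (u ^ 2 - 1) = 0 := by linear_combination h7
    rcases mul_eq_zero.1 h11 with h | h
    · exact absurd h hg
    · linear_combination h
  have hu1 : u = 1 ∨ u = -1 := by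
    have h5 : (u - 1) * (u + 1) = 0 := by linear_combination hu2
    rcases mul_eq_zero.1 h5 with h | h
    · left; linear_combination h
    · right; linear_combination h
  have hmuc : mu = u * emb c := by rw [hu, div_mul_cancel₀ _ hc]
  have hlat : ∀ z, z ∈ L.lattice ↔ z ∈ L'.lattice := by
    intro z
    rw [hul z]
    rcases hu1 with h | h
    · rw [h, one_mul]
    · rw [h, neg_one_mul, neg_mem_iff]
  obtain ⟨k1, -, k3, -⟩ := ta_SCP L L' 1 one_ne_zero (fun z => by rw [one_mul]; exact hlat z)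
  refine ⟨?_, ?_, hlat, fun z => ?_⟩
  · unfold kap
    rw [k3]
    ring
  · rcases hu1 with h | h
    · left; rw [hmuc, h, one_mul]
    · right; rw [hmuc, h, neg_one_mul]
  · have := k1 z
    rwa [one_mul, one_pow, div_one] at this

/-- from `ActI` for all lattices to `ActH` -/
lemma _root_.Pool.Agent.MUXW.KER.mk (he : Pool.Agent.MUXV.Sq_EMB) {A B : ℤ} (hC : CQ A B) {m c : OO A B} {F : IntermediateField (kk A B) ℂ}
    (σ : F ≃ₐ[kk A B] F) (s : ℂ ≃+* ℂ) (hσ : ∀ y : F, ((σ y : F) : ℂ) = s y)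
    (hc : IsCoprime c m)
    (h : ∀ (b : Ideal (OO A B)) (L : PeriodPair) (om : ℂ), IsNL b L om →
      ∃ (b' : Ideal (OO A B)) (L' : PeriodPair) (om' mu : ℂ), IsNL b' L' om' ∧
        ActI s (sp m) (sp c) L L' mu) : ActH σ m c := by
  refine ⟨hc, fun b L om hL hk => ?_, fun b L om hL z hz hz' => ?_⟩
  · obtain ⟨b', L', om', mu, hL', hA⟩ := h b L om hL
    obtain ⟨h1, -⟩ := core he hC hL hL' hA.isq
    rw [hσ]
    show s (kap L) = kap L
    rw [← hA.kap, h1]
  · obtain ⟨b', L', om', mu, hL', hA⟩ := h b L om hL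
    obtain ⟨-, h2, h3, h4⟩ := core he hC hL hL' hA.isq
    have ht : Tor (sp m) L z := by
      intro x hx
      obtain ⟨y, rfl⟩ := Ideal.mem_span_singleton'.1 hx
      rw [(he A B (cqF hC)).1, mul_assoc]
      exact stab he hC hL y hz
    rcases hA.act z ht with ⟨h5, -⟩ | ⟨-, h6, h7, -⟩
    · exact absurd h5 hz'
    · rw [← h3] at h6
      have h8 : emb c * z ∉ L.lattice := by
        rcases h2 with h | h
        · rw [← h]; exact h6
        · intro h9
          apply h6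
          rw [h, neg_mul]
          exact neg_mem h9
      refine ⟨h8, fun hx => ?_⟩
      rw [hσ]
      show s (xn L z) = _
      rw [h7]
      unfold xn
      rw [h4]
      rcases h2 with h | h
      · rw [h]
      · rw [h, neg_mul, L.weierstrassP_neg]

end KER

open _root_.Pool.Agent.MUXW.KER in
theorem ty_KER (he : Pool.Agent.MUXV.Sq_EMB) : Sy_KER := by
  intro A B hC T m hm
  have hm0 : (sp m : Ideal (OO A B)) ≠ ⊥ := by
    rwa [Ne, Ideal.span_singleton_eq_bot]
  constructor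
  · intro σ hσ
    by_cases hex : ∃ (b : Ideal (OO A B)) (L : PeriodPair) (om : ℂ), IsNL b L om
    · obtain ⟨b₀, L₀, om₀, hL₀⟩ := hex
      let D : IntermediateField ℚ ℂ :=
        (RF (sp m) : IntermediateField (kk A B) ℂ).restrictScalars ℚ
      have hle : kk A B ≤ D := fun x hx =>
        (RF (sp m) : IntermediateField (kk A B) ℂ).algebraMap_mem ⟨x, hx⟩
      have hDy : ∀ y ∈ D, y ∈ (RF (sp m) : IntermediateField (kk A B) ℂ) := fun y hy => hy
      letI := algC hle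
      let τ : D ≃ₐ[kk A B] D := AlgEquiv.ofRingEquiv (f := (σ.toRingEquiv : D ≃+* D))
        (fun r => σ.commutes r)
      obtain ⟨s, hs, hs1⟩ := T.ext (sp m) hm0 D hle hDy τ
      have hs2 : ∀ y : (RF (sp m) : IntermediateField (kk A B) ℂ),
          ((σ y : (RF (sp m) : IntermediateField (kk A B) ℂ)) : ℂ) = s y := fun y =>
        (hs1 y).symm
      obtain ⟨a, ha, ha'⟩ := T.act (sp m) hm0 s hs
      obtain ⟨b', L', om', mu, hL', hA⟩ := ha' b₀ L₀ om₀ hL₀
      have hA' : ActI s (⊤ : Ideal (OO A B)) a L₀ L' mu := by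
        refine ⟨hA.kap, ?_, hA.isq, fun z hz => hA.act z fun x _ => hz x trivial⟩
        rw [← Ideal.one_eq_top]
        exact isCoprime_one_right
      have htop : (⊤ : Ideal (OO A B)) ≠ ⊥ := by
        intro h
        apply hm0
        rw [eq_bot_iff, ← h]
        exact le_top
      have htr : ∀ y ∈ (RF (⊤ : Ideal (OO A B)) : IntermediateField (kk A B) ℂ), s y = y := by
        intro y hy
        have hy' := T.mono ⊤ (sp m) le_top hy
        have h1 := hs2 ⟨y, hy'⟩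
        rw [hσ ⟨y, hy'⟩ hy] at h1
        exact h1.symm
      obtain ⟨c, -, hc⟩ := (T.triv ⊤ a s b₀ L₀ L' om₀ mu htop hs hL₀ hA' hL'.nrm).1 htr
      subst hc
      refine ⟨c, _root_.Pool.Agent.MUXW.KER.mk he hC σ s hs2 ?_ ha'⟩
      exact (Ideal.isCoprime_span_singleton_iff c m).1 ha
    · push Not at hex
      refine ⟨1, isCoprime_one_left, fun b L om hL => absurd hL (hex b L om),
        fun b L om hL => absurd hL (hex b L om)⟩
  · intro a ha
    by_cases ha0 : a = 0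
    · -- `m` is a unit
      subst ha0
      obtain ⟨u, v, huv⟩ := ha
      rw [mul_zero, zero_add] at huv
      have he1 : emb (1 : OO A B) = 1 := by
        have := (he A B (cqF hC)).2.2.2.2.1 1
        simpa using this
      refine ⟨1, ⟨u, v, by rw [mul_zero, zero_add]; exact huv⟩, fun b L om hL hk => rfl,
        fun b L om hL z hz hz' => ?_⟩
      exfalso
      apply hz'
      have h1 := stab he hC hL v hz
      rw [← mul_assoc, ← (he A B (cqF hC)).1, huv, he1, one_mul] at h1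
      exact h1
    have hsa : (sp a : Ideal (OO A B)) ≠ ⊥ := by
      rwa [Ne, Ideal.span_singleton_eq_bot]
    obtain ⟨s, hs, hs1⟩ := T.surj (sp m) hm0 (sp a) hsa
      ((Ideal.isCoprime_span_singleton_iff a m).2 ha)
    haveI := T.fin (sp m) hm0
    haveI := T.gal (sp m) hm0
    let s' : ℂ ≃ₐ[kk A B] ℂ := AlgEquiv.ofRingEquiv (f := s) (fun r => fix hs _ r.2)
    refine ⟨s'.restrictNormal (RF (sp m)), _root_.Pool.Agent.MUXW.KER.mk he hC _ s ?_ ha hs1⟩
    intro y
    exact AlgEquiv.restrictNormal_commutes s' (RF (sp m)) y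

end

end Pool.Agent.MUXW


end

section

/-!
# MUX, block W, module HIT (helper97): every automorphism of `F_m / k` hits exactly two pairs `± (i, x)`
-/

set_option autoImplicit false

open WeierstrassCurve Polynomial NumberField IsDedekindDomain

namespace Pool.Agent.MUXW

open _root_.MU3 _root_.Pool.Agent.MU3A _root_.Pool.Agent.MU3B _root_.Pool.Agent.MU3C _root_.Pool.Agent.RI _root_.Pool.Agent.RID
open _root_.Pool.Agent.MUX _root_.Pool.Agent.MUXU
open _root_.Pool.Agent.MU3V (cls Sub GD)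
open _root_.Pool.Agent.MUXV (GR InK tX CMO Ovr)

noncomputable section

namespace HIT

/-- homothetic normalised lattices are equal -/
lemma homo {A B : ℤ} {b b' : Ideal (OO A B)} {L L' : PeriodPair} {om om' : ℂ} (hL : IsNL b L om)
    (hL' : IsNL b' L' om') {u : ℂ} (hu0 : u ≠ 0)
    (hul : ∀ z : ℂ, z ∈ L.lattice ↔ u * z ∈ L'.lattice) :
    kap L' = kap L ∧ (∀ z, z ∈ L.lattice ↔ z ∈ L'.lattice) ∧
      ∀ z, L'.weierstrassP z = L.weierstrassP z := by
  obtain ⟨-, -, h3, h4⟩ := ta_SCP L L' u hu0 hul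
  have hg := KER.g2_ne hL
  have hu2 : u ^ 2 = 1 := by
    have h5 := hL'.nrm
    rw [h3, h4] at h5
    have h6 := hL.nrm
    have h7 : L.g₂ * u ^ 2 = L.g₂ := by
      have h8 : L.g₂ / u ^ 4 * u ^ 6 = -18 * (L.g₃ / u ^ 6) * u ^ 6 := by rw [h5]
      have h9 : L.g₂ / u ^ 4 * u ^ 6 = L.g₂ * u ^ 2 := by
        field_simp
      have h10 : -18 * (L.g₃ / u ^ 6) * u ^ 6 = -18 * L.g₃ := by
        field_simp
      rw [h9, h10, ← h6] at h8
      exact h8
    have h11 : L.g₂ * (u ^ 2 - 1) = 0 := by linear_combination h7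
    rcases mul_eq_zero.1 h11 with h | h
    · exact absurd h hg
    · linear_combination h
  have hu1 : u = 1 ∨ u = -1 := by
    have h5 : (u - 1) * (u + 1) = 0 := by linear_combination hu2
    rcases mul_eq_zero.1 h5 with h | h
    · left; linear_combination h
    · right; linear_combination h
  have hlat : ∀ z, z ∈ L.lattice ↔ z ∈ L'.lattice := by
    intro z
    rw [hul z]
    rcases hu1 with h | h
    · rw [h, one_mul]
    · rw [h, neg_one_mul, neg_mem_iff]
  obtain ⟨k1, -, k3, -⟩ := ta_SCP L L' 1 one_ne_zero (fun z => by rw [one_mul]; exact hlat z)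
  refine ⟨?_, hlat, fun z => ?_⟩
  · unfold kap
    rw [k3]
    ring
  · have := k1 z
    rwa [one_mul, one_pow, div_one] at this

section
variable {A B : ℤ} {n : ℕ} {ι : Type}

lemma ne0 (he : Pool.Agent.MUXV.Sq_EMB) (hC : CQ A B) {x : OO A B} (hx : x ≠ 0) : emb x ≠ 0 := by
  obtain ⟨-, -, -, -, h5, h6, -⟩ := he A B (KER.cqF hC)
  intro h
  apply hx
  apply h6
  rw [h]
  have := h5 0
  simpa using this.symm

/-- every normalised lattice is one of the `L i` -/
lemma _root_.Pool.Agent.MUXW.HIT.repr (he : Pool.Agent.MUXV.Sq_EMB) (hC : CQ A B) (R : Reps A B n ι) {b' : Ideal (OO A B)}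
    {L' : PeriodPair} {om' : ℂ} (hL' : IsNL b' L' om') :
    ∃ i, kap L' = kap (R.L i) ∧ (∀ z, z ∈ (R.L i).lattice ↔ z ∈ L'.lattice) ∧
      ∀ z, L'.weierstrassP z = (R.L i).weierstrassP z := by
  obtain ⟨i, x, y, hx, hy, hxy⟩ := R.surj b' hL'.b_ne
  have h1 := (he A B (KER.cqF hC)).1
  have hx0 := ne0 he hC hx
  have hy0 := ne0 he hC hy
  have ho := (R.nl i).om_ne
  have ho' := hL'.om_ne
  refine ⟨i, homo (R.nl i) hL' (u := om' * emb y / (emb x * R.om i))
    (div_ne_zero (mul_ne_zero ho' hy0) (mul_ne_zero hx0 ho)) fun z => ?_⟩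
  rw [(R.nl i).mem, hL'.mem]
  constructor
  · rintro ⟨β, hβ, rfl⟩
    have h2 : y * β ∈ sp x * b' := by
      rw [hxy]
      exact Ideal.mul_mem_mul (Ideal.mem_span_singleton_self y) hβ
    obtain ⟨γ, hγ, h3⟩ := Ideal.mem_span_singleton_mul.1 h2
    refine ⟨γ, hγ, ?_⟩
    have h4 : emb x * emb γ = emb y * emb β := by rw [← h1, ← h1, h3]
    field_simp
    linear_combination -h4
  · rintro ⟨γ, hγ, h5⟩
    have h2 : x * γ ∈ sp y * R.b i := by
      rw [← hxy]
      exact Ideal.mul_mem_mul (Ideal.mem_span_singleton_self x) hγ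
    obtain ⟨β, hβ, h3⟩ := Ideal.mem_span_singleton_mul.1 h2
    refine ⟨β, hβ, ?_⟩
    have h4 : emb y * emb β = emb x * emb γ := by rw [← h1, ← h1, h3]
    field_simp at h5
    have h6 : emb y * (z - R.om i * emb β) = 0 := by
      linear_combination h5 + (-(R.om i)) * h4
    rcases mul_eq_zero.1 h6 with h | h
    · exact absurd h hy0
    · linear_combination h

/-- the invariant determines the class -/
lemma uniq (he : Pool.Agent.MUXV.Sq_EMB) (hDET : Su_DET) (hC : CQ A B) (R : Reps A B n ι) {i j : ι}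
    (h : kap (R.L i) = kap (R.L j)) : i = j := by
  obtain ⟨h1, -, -, -, -, hinj, -, -, -, -, -, -, hdom⟩ := he A B (KER.cqF hC)
  have hg2 : (R.L i).g₂ = (R.L j).g₂ := by
    unfold kap at h
    linear_combination 144 * h
  have hg3 : (R.L i).g₃ = (R.L j).g₃ := by
    have h2 := (R.nl i).nrm
    have h3 := (R.nl j).nrm
    linear_combination (-1 / 18) * hg2 + (1 / 18) * h2 + (-1 / 18) * h3
  have hlat := hDET _ _ hg2 hg3
  have hsym : ∀ {i j : ι}, (R.L i).lattice = (R.L j).lattice → ∀ (β β' : OO A B), β ≠ 0 →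
      R.om i * emb β = R.om j * emb β' → sp β' * R.b i ≤ sp β * R.b j := by
    intro i j hlat β β' hβ hβ'
    rw [Ideal.span_singleton_mul_le_iff]
    intro γ hγ
    have h4 : R.om i * emb γ ∈ (R.L j).lattice := by
      rw [← hlat]
      exact ((R.nl i).mem _).2 ⟨γ, hγ, rfl⟩
    obtain ⟨γ', hγ', h5⟩ := ((R.nl j).mem _).1 h4
    refine Ideal.mem_span_singleton_mul.2 ⟨γ', hγ', ?_⟩
    apply hinj
    rw [h1, h1]
    have ho := (R.nl i).om_ne
    have ho' := (R.nl j).om_ne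
    have h6 : R.om j * (emb β * emb γ' - emb β' * emb γ) = 0 := by
      linear_combination (-emb β) * h5 + emb γ * hβ'
    rcases mul_eq_zero.1 h6 with h | h
    · exact absurd h ho'
    · linear_combination h
  obtain ⟨β, hβ, hβ0⟩ := Submodule.exists_mem_ne_zero_of_ne_bot (R.nl i).b_ne
  have h4 : R.om i * emb β ∈ (R.L j).lattice := by
    rw [← hlat]
    exact ((R.nl i).mem _).2 ⟨β, hβ, rfl⟩
  obtain ⟨β', hβ', h5⟩ := ((R.nl j).mem _).1 h4
  have hβ'0 : β' ≠ 0 := by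
    intro h6
    have h7 : R.om i * emb β = 0 := by
      rw [h5, h6]
      simp [emb]
    exact mul_ne_zero (R.nl i).om_ne (ne0 he hC hβ0) h7
  exact R.inj i j β' β hβ'0 hβ0 (le_antisymm (hsym hlat β β' hβ0 h5)
    (hsym hlat.symm β' β hβ'0 h5.symm))

/-- an element which is not a zero divisor modulo `m` is prime to `m` -/
lemma cop_of_inj [IsDomain (OO A B)] {m β : OO A B} (hm : m ≠ 0)
    (h : ∀ t : OO A B, m ∣ t * β → m ∣ t) : IsCoprime β m := by
  have hne : (Ideal.span {m} : Ideal (OO A B)) ≠ ⊥ := by rwa [Ne, Ideal.span_singleton_eq_bot]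
  have : Finite (OO A B ⧸ Ideal.span {m}) := Ideal.finiteQuotientOfFreeOfNeBot _ hne
  let f : (OO A B ⧸ Ideal.span {m}) → (OO A B ⧸ Ideal.span {m}) := fun q =>
    q * Ideal.Quotient.mk _ β
  have hf : Function.Injective f := by
    intro q q' hqq
    obtain ⟨t, rfl⟩ := Ideal.Quotient.mk_surjective q
    obtain ⟨t', rfl⟩ := Ideal.Quotient.mk_surjective q'
    simp only [f, ← map_mul] at hqq
    rw [Ideal.Quotient.eq, Ideal.mem_span_singleton] at hqq ⊢
    apply h
    rw [sub_mul]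
    exact hqq
  obtain ⟨q, hq⟩ := (Finite.injective_iff_surjective.1 hf) 1
  obtain ⟨t, rfl⟩ := Ideal.Quotient.mk_surjective q
  simp only [f, ← map_mul] at hq
  rw [← map_one (Ideal.Quotient.mk _), Ideal.Quotient.eq, Ideal.mem_span_singleton] at hq
  obtain ⟨v, hv⟩ := hq
  exact ⟨t, -v, by linear_combination hv⟩

/-- the norm of an ideal is in it -/
lemma _root_.Pool.Agent.MUXW.HIT.nI_mem (b : Ideal (OO A B)) : ((nI b : ℕ) : OO A B) ∈ b := by
  rw [← Ideal.Quotient.eq_zero_iff_mem, map_natCast, ← nsmul_one]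
  exact card_nsmul_eq_zero'

lemma wp_congr {L : PeriodPair} {z w : ℂ} (h : z - w ∈ L.lattice) :
    L.weierstrassP z = L.weierstrassP w := by
  have h1 := L.weierstrassP_add_coe w ⟨z - w, h⟩
  rwa [add_sub_cancel] at h1

lemma xn_congr {L : PeriodPair} {z w : ℂ} (h : z - w ∈ L.lattice) : xn L z = xn L w := by
  unfold xn
  rw [wp_congr h]

lemma xn_congr' {L : PeriodPair} {z w : ℂ} (h : z + w ∈ L.lattice) : xn L z = xn L w := by
  have h1 : xn L z = xn L (-w) := xn_congr (by rwa [sub_neg_eq_add])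
  rw [h1]
  unfold xn
  rw [L.weierstrassP_neg]

lemma notMem_congr {L : PeriodPair} {z w : ℂ} (h : z - w ∈ L.lattice) (hw : w ∉ L.lattice) :
    z ∉ L.lattice := fun hz => hw (by
  have := sub_mem hz h
  rwa [sub_sub_cancel] at this)

end

end HIT

open _root_.Pool.Agent.MUXW.HIT in
theorem ty_HIT (he : Pool.Agent.MUXV.Sq_EMB) (hDET : Su_DET) : Sy_HIT := by
  intro A B hC T n ι R m hm hcop hm2 s hs
  obtain ⟨h1, h2, h3, h4, h5, hinj, -, -, -, -, -, -, hdom⟩ := he A B (KER.cqF hC)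
  have hmC : (m : ℂ) ≠ 0 := Nat.cast_ne_zero.2 hm
  have hM0 : ((m : ℕ) : OO A B) ≠ 0 := by
    intro h
    apply hmC
    rw [← h5 m, h]
    simp [emb]
  have he1 : emb (1 : OO A B) = 1 := by
    have := h5 1
    rwa [Nat.cast_one, Nat.cast_one] at this
  have hMn : (idl m : Ideal (OO A B)) ≠ ⊥ := by rwa [Ne, Ideal.span_singleton_eq_bot]
  obtain ⟨a, ha, hact⟩ := T.act (idl m) hMn s hs
  have hL := R.nl R.i0
  obtain ⟨b', L', om', mu, hL', hA⟩ := hact _ _ _ hL
  obtain ⟨i, hk, hlat, hP⟩ := _root_.Pool.Agent.MUXW.HIT.repr he hC R hL'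
  have hLmem : ∀ z, z ∈ (R.L R.i0).lattice ↔ ∃ x : OO A B, z = R.om R.i0 * emb x := by
    intro z
    rw [hL.mem, R.b0]
    simp
  have ho0 := hL.om_ne
  have hoi := (R.nl i).om_ne
  -- the base point
  have hpt0 : Pool.Agent.MUX.pt R m R.i0 1 = R.om R.i0 / m := by
    unfold Pool.Agent.MUX.pt
    have : nI (R.b R.i0) = 1 := by
      unfold nI
      rw [R.b0]
      have : Subsingleton (OO A B ⧸ (⊤ : Ideal (OO A B))) := Ideal.Quotient.subsingleton_iff.2 rfl
      exact Nat.card_unique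
    rw [this, he1]
    simp
  have htor : Tor (idl m : Ideal (OO A B)) (R.L R.i0) (R.om R.i0 / m) := by
    intro x hx
    obtain ⟨y, rfl⟩ := Ideal.mem_span_singleton'.1 hx
    rw [hLmem]
    refine ⟨y, ?_⟩
    rw [h1, h5]
    field_simp
  have hP0 : R.om R.i0 / m ∉ (R.L R.i0).lattice := by
    intro h
    obtain ⟨t, ht⟩ := (hLmem _).1 h
    apply hm2
    refine (IsUnit.of_mul_eq_one t ?_).dvd
    apply hinj
    rw [h1, h5, he1]
    field_simp at ht
    rw [ht]
  have hPM := hA.act _ htor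
  rcases hPM with ⟨h, -⟩ | ⟨-, hmuP, hxP, -⟩
  · exact absurd h hP0
  rw [← hlat] at hmuP
  have hxP' : s (xn (R.L R.i0) (R.om R.i0 / m)) = xn (R.L i) (mu * (R.om R.i0 / m)) := by
    rw [hxP]
    unfold xn
    rw [hP]
  -- the multiplier
  obtain ⟨β, hβ, hmu⟩ : ∃ β ∈ R.b i, mu * R.om R.i0 = R.om i * emb β := by
    rw [← (R.nl i).mem, hlat, hA.isq.2]
    intro x _
    rw [hLmem]
    exact ⟨x, by ring⟩
  set N : ℕ := nI (R.b i) with hN
  have hNmem : ((N : ℕ) : OO A B) ∈ R.b i := _root_.Pool.Agent.MUXW.HIT.nI_mem _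
  obtain ⟨u, v, huv⟩ := (Nat.isCoprime_iff_coprime.2 (hcop i))
  have huv' : (u : OO A B) * ((N : ℕ) : OO A B) + (v : OO A B) * ((m : ℕ) : OO A B) = 1 := by
    have : (((u * (N : ℤ) + v * (m : ℤ) : ℤ)) : OO A B) = 1 := by rw [huv]; norm_num
    push_cast at this
    exact this
  have hcu : IsCoprime (u : OO A B) ((m : ℕ) : OO A B) :=
    ⟨((N : ℕ) : OO A B), (v : OO A B), by linear_combination huv'⟩
  have hcβ : IsCoprime β ((m : ℕ) : OO A B) := by
    apply cop_of_inj hM0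
    rintro t ⟨w, hw⟩
    -- `om emb (t N) / m`
    have hz : mu * (R.om R.i0 * emb (t * ((N : ℕ) : OO A B)) / m) ∈ L'.lattice := by
      rw [← hlat, (R.nl i).mem]
      refine ⟨w * ((N : ℕ) : OO A B), Ideal.mul_mem_left _ _ hNmem, ?_⟩
      have h6 : emb t * emb β = m * emb w := by rw [← h1, hw, h1, h5]
      rw [h1, h1]
      field_simp
      linear_combination (emb t * emb ((N : ℕ) : OO A B)) * hmu +
        (R.om i * emb ((N : ℕ) : OO A B)) * h6
    have hx : ∀ x ∈ a, ((m : ℕ) : OO A B) ∣ x * (t * ((N : ℕ) : OO A B)) := by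
      intro x hx
      obtain ⟨y, hy⟩ := (hLmem _).1 ((hA.isq.2 _).1 hz x hx)
      refine ⟨y, ?_⟩
      apply hinj
      rw [h1, h1 ((m : ℕ) : OO A B), h5]
      field_simp at hy
      exact hy
    obtain ⟨α, hα, γ, hγ, hαγ⟩ := Ideal.isCoprime_iff_exists.1 ha
    obtain ⟨g, hg⟩ := Ideal.mem_span_singleton.1 hγ
    obtain ⟨f, hf⟩ := hx α hα
    refine ⟨u * (f + g * (t * ((N : ℕ) : OO A B))) + v * t, ?_⟩
    linear_combination (u * (t * ((N : ℕ) : OO A B))) * (-hαγ) + u * hf +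
      (u * (t * ((N : ℕ) : OO A B))) * hg - t * huv'
  have hx : IsCoprime ((u : OO A B) * β) ((m : ℕ) : OO A B) := hcu.mul_left hcβ
  have hdiff : mu * (R.om R.i0 / m) - Pool.Agent.MUX.pt R m i ((u : OO A B) * β) ∈
      (R.L i).lattice := by
    rw [(R.nl i).mem]
    refine ⟨v * β, Ideal.mul_mem_left _ _ hβ, ?_⟩
    unfold Pool.Agent.MUX.pt
    rw [← hN]
    have h6 : emb (u : OO A B) * N + emb (v : OO A B) * m = 1 := by
      rw [← h5 N, ← h5 m, ← h1, ← h1, ← h2, huv', he1]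
    rw [h1, h1]
    field_simp
    linear_combination hmu - (R.om i * emb β) * h6
  have hhit : Hits R m s i ((u : OO A B) * β) := by
    refine ⟨?_, ?_, ?_⟩
    · rw [← hk]; exact hA.kap
    · rw [hpt0, hxP']
      exact xn_congr hdiff
    · intro h
      apply hmuP
      have := add_mem hdiff h
      rwa [sub_add_cancel] at this
  refine ⟨i, (u : OO A B) * β, hx, hhit, fun h => hm2 (hx.symm.dvd_of_dvd_mul_right h), ?_⟩
  have hptl : ∀ w : OO A B, R.om i * N * emb w / m ∈ (R.L i).lattice ↔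
      ((m : ℕ) : OO A B) ∣ w := by
    intro w
    rw [(R.nl i).mem]
    constructor
    · rintro ⟨γ, hγ, h6⟩
      have h7 : ((N : ℕ) : OO A B) * w = ((m : ℕ) : OO A B) * γ := by
        apply hinj
        rw [h1, h1, h5, h5]
        field_simp at h6
        linear_combination h6
      exact ⟨u * γ + v * w, by linear_combination (-w) * huv' + (u : OO A B) * h7⟩
    · rintro ⟨t, rfl⟩
      refine ⟨t * ((N : ℕ) : OO A B), Ideal.mul_mem_left _ _ hNmem, ?_⟩
      rw [h1, h1, h5, h5]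
      field_simp
  have hsub : ∀ y : OO A B, Pool.Agent.MUX.pt R m i y -
      Pool.Agent.MUX.pt R m i ((u : OO A B) * β) ∈ (R.L i).lattice ↔
      ((m : ℕ) : OO A B) ∣ y - (u : OO A B) * β := by
    intro y
    rw [← hptl]
    unfold Pool.Agent.MUX.pt
    rw [← hN, h3, mul_sub, sub_div]
  have hadd : ∀ y : OO A B, Pool.Agent.MUX.pt R m i y +
      Pool.Agent.MUX.pt R m i ((u : OO A B) * β) ∈ (R.L i).lattice ↔
      ((m : ℕ) : OO A B) ∣ y + (u : OO A B) * β := by
    intro y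
    rw [← hptl]
    unfold Pool.Agent.MUX.pt
    rw [← hN, h2, mul_add, add_div]
  intro j y
  constructor
  · rintro ⟨hk', hx', hn'⟩
    have hji : j = i := uniq he hDET hC R (by rw [hk', hhit.1])
    subst hji
    refine ⟨rfl, ?_⟩
    have h6 : xn (R.L j) (Pool.Agent.MUX.pt R m j y) =
        xn (R.L j) (Pool.Agent.MUX.pt R m j ((u : OO A B) * β)) := by
      rw [← hx', hhit.2.1]
    unfold xn at h6
    rcases b_NEQ (R.L j) _ _ hhit.2.2 hn' (by linear_combination h6) with h | h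
    · left; exact (hsub y).1 h
    · right; exact (hadd y).1 h
  · rintro ⟨rfl, h | h⟩
    · have h6 := (hsub y).2 h
      exact ⟨hhit.1, by rw [hhit.2.1, xn_congr h6], notMem_congr h6 hhit.2.2⟩
    · have h6 := (hadd y).2 h
      refine ⟨hhit.1, by rw [hhit.2.1, xn_congr' h6], fun h7 => hhit.2.2 ?_⟩
      have := sub_mem h6 h7
      rwa [add_sub_cancel_left] at this

end

end Pool.Agent.MUXW


end
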