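import Mathlib
import Pool.Agent.MVF.C025
import Pool.Agent.MVF.C037
import Pool.Agent.MVF.C048
import Pool.Agent.MVF.C059
import Pool.Agent.MVF.C060

/-! Parts: MUX.I_BIJ, RI.RAMB, RI.TSTEP, MU3.PX_RKE, RID.P_INJ, MUX.J_UP, VB.V_FQC -/

namespace MU3.RKE
end MU3.RKE
namespace Pool.Agent.MUXI.BIJ
end Pool.Agent.MUXI.BIJ
namespace Pool.Agent.RI.RAMB
end Pool.Agent.RI.RAMB

section

/-!
# MUX, block IX, module BIJ (helper26): restriction from `NC (B n)` to `Gal(K / k)`
-/

set_option autoImplicit false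

namespace Pool.Agent.MUXI

open _root_.MU3 _root_.Pool.Agent.MU3 _root_.Pool.Agent.MU3A _root_.Pool.Agent.MU3B _root_.Pool.Agent.RI _root_.Pool.Agent.RID
  _root_.Pool.Agent.MUX _root_.Pool.Agent.MUXE _root_.Pool.Agent.MUXK
open _root_.Pool.Agent.MU3I (w3 zt)

namespace BIJ

/-- The group of `K B / k` has at most `|NC| [B : ℚ]` elements. -/
lemma card_le {p : ℕ} [Fact p.Prime] {n : ℕ} {k K B : IntermediateField ℚ ℂ}
    [FiniteDimensional ℚ ↥(K ⊔ B)] (hB : IsLayer p n B) (h : k ≤ K ⊔ B) :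
    letI := algC h
    Nat.card (↥(K ⊔ B) ≃ₐ[k] ↥(K ⊔ B)) ≤ Nat.card (NC h B) * p ^ n := by
  let akL : Algebra k ↥(K ⊔ B) := algC h
  obtain ⟨hfB, hGB, -⟩ := LAY_thm p n B hB
  have hBL : B ≤ K ⊔ B := le_sup_right
  let aBL : Algebra B ↥(K ⊔ B) := algC hBL
  have hT : IsScalarTower ℚ B ↥(K ⊔ B) := IsScalarTower.of_algebraMap_eq fun x => by
    apply Subtype.ext
    rw [eq_ratCast, eq_ratCast, map_ratCast]
  have hT' : IsScalarTower ℚ k ↥(K ⊔ B) := IsScalarTower.of_algebraMap_eq fun x => by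
    apply Subtype.ext
    rw [eq_ratCast, eq_ratCast, map_ratCast]
  have fdL := Pool.Agent.FX.fd k ↥(K ⊔ B)
  let r : (↥(K ⊔ B) ≃ₐ[k] ↥(K ⊔ B)) →* (B ≃ₐ[ℚ] B) :=
    (AlgEquiv.restrictNormalHom (F := ℚ) (K₁ := ↥(K ⊔ B)) B).comp (AlgEquiv.restrictScalarsHom ℚ)
  have hr : r.ker ≤ NC h B := by
    intro τ hτ x hx
    have h1 := AlgEquiv.restrictNormal_commutes (AlgEquiv.restrictScalars ℚ τ) B ⟨x.1, hx⟩
    have h2 : (AlgEquiv.restrictScalars ℚ τ).restrictNormal B = 1 := hτ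
    rw [h2, AlgEquiv.one_apply] at h1
    exact h1.symm
  have c1 : Nat.card r.ker * Nat.card r.range = Nat.card (↥(K ⊔ B) ≃ₐ[k] ↥(K ⊔ B)) := by
    rw [← Subgroup.index_ker, Subgroup.card_mul_index]
  have c2 : Nat.card r.ker ≤ Nat.card (NC h B) := Subgroup.card_le_of_le hr
  have c3 : Nat.card r.range ≤ p ^ n := by
    have h3 : Nat.card r.range ≤ Nat.card (B ≃ₐ[ℚ] B) := Subgroup.card_le_card_group _
    rwa [IsGalois.card_aut_eq_finrank, hB.1] at h3
  rw [← c1]
  exact Nat.mul_le_mul c2 c3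

end BIJ

open _root_.Pool.Agent.MUXI.BIJ in
theorem ti_BIJ (h1 : S_GALX) : Si_BIJ := by
  intro p _ k K Bn _ _ hB n h hk
  let akL : Algebra k ↥(K ⊔ Bn n) := algC h
  let akK : Algebra k K := algC hk
  intro r hr
  obtain ⟨hG, -⟩ := h1 p k K Bn hB n h
  have fdL := Pool.Agent.FX.fd k ↥(K ⊔ Bn n)
  have fdK := Pool.Agent.FX.fd k K
  have gK : IsGalois k K := (isGalois_algC hk).2 hB.gal
  have hKL : K ≤ K ⊔ Bn n := le_sup_left
  have hmul : ∀ δ δ' : NC h (Bn n), r (δ * δ') = r δ * r δ' := by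
    intro δ δ'
    ext x
    have e1 := hr (δ * δ') x ⟨x, hKL x.2⟩ rfl
    have e2 := hr δ' x ⟨x, hKL x.2⟩ rfl
    have e3 := hr δ (r δ' x) _ e2
    exact e1.symm.trans e3
  refine ⟨?_, hmul⟩
  let f : NC h (Bn n) →* (K ≃ₐ[k] K) := MonoidHom.mk' r hmul
  have hinj : Function.Injective f := by
    rw [injective_iff_map_eq_one]
    intro σ hσ
    apply Subtype.ext
    apply GCC.triv h
    · intro x hx
      apply Subtype.ext
      have h3 := hr σ ⟨x.1, hx⟩ x rfl
      have h4 : r σ = 1 := hσ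
      rw [h4] at h3
      exact h3
    · intro x hx
      exact σ.2 x hx
  have hT : IsScalarTower ℚ k ↥(K ⊔ Bn n) := IsScalarTower.of_algebraMap_eq fun x => by
    apply Subtype.ext
    rw [eq_ratCast, eq_ratCast, map_ratCast]
  have hT' : IsScalarTower ℚ k K := IsScalarTower.of_algebraMap_eq fun x => by
    apply Subtype.ext
    rw [eq_ratCast, eq_ratCast, map_ratCast]
  have fdk : FiniteDimensional ℚ k := FiniteDimensional.of_injective
    (IntermediateField.inclusion hk).toLinearMap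
    (IntermediateField.inclusion hk).toRingHom.injective
  have d1 : Module.finrank ℚ k * Module.finrank k ↥(K ⊔ Bn n) =
      Module.finrank ℚ ↥(K ⊔ Bn n) := Pool.Agent.FX.fmul ℚ k ↥(K ⊔ Bn n)
  have d2 : Module.finrank ℚ k * Module.finrank k K = Module.finrank ℚ K :=
    Pool.Agent.FX.fmul ℚ k K
  have d3 := hB.deg n
  have hk0 : 0 < Module.finrank ℚ k := Module.finrank_pos
  have d4 : Module.finrank k ↥(K ⊔ Bn n) = Module.finrank k K * p ^ n := by
    apply Nat.eq_of_mul_eq_mul_left hk0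
    rw [d1, d3, ← d2, mul_assoc]
  have d5 := card_le (hB.lay n) h
  have e1 : Nat.card (↥(K ⊔ Bn n) ≃ₐ[k] ↥(K ⊔ Bn n)) = Module.finrank k ↥(K ⊔ Bn n) :=
    IsGalois.card_aut_eq_finrank k ↥(K ⊔ Bn n)
  have e2 : Nat.card (K ≃ₐ[k] K) = Module.finrank k K := IsGalois.card_aut_eq_finrank k K
  have hp : 0 < p ^ n := pow_pos (Fact.out : p.Prime).pos n
  have e3 : Nat.card (K ≃ₐ[k] K) ≤ Nat.card (NC h (Bn n)) := by
    rw [e2]
    have h5 : Module.finrank k K * p ^ n ≤ Nat.card (NC h (Bn n)) * p ^ n := by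
      rw [← d4, ← e1]
      exact d5
    exact Nat.le_of_mul_le_mul_right h5 hp
  have e4 : Nat.card (NC h (Bn n)) ≤ Nat.card (K ≃ₐ[k] K) := Nat.card_le_card_of_injective f hinj
  exact (Nat.bijective_iff_injective_and_card f).2 ⟨hinj, le_antisymm e4 e3⟩

end Pool.Agent.MUXI


end

section

/-!
# RAMB: ramification in `L = K M` over `K` comes from ramification in `M` over `F`
-/

open NumberField IsDedekindDomain
open scoped nonZeroDivisors Pointwise

namespace Pool.Agent.RI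

namespace RAMB

/-- The order of the inertia group is the ramification index. -/
theorem card_inertia (K L : Type) [Field K] [NumberField K] [Field L] [NumberField L]
    [Algebra K L] [IsGalois K L] (P : Ideal (𝓞 L)) [P.IsPrime] :
    Nat.card (P.inertia (L ≃ₐ[K] L)) = P.ramificationIdx (𝓞 K) := by
  have : PerfectField (P.under (𝓞 K)).ResidueField := inferInstance
  rw [Ideal.card_inertia_eq_ramificationIdxIn (P.under (𝓞 K)) P,
    Ideal.ramificationIdxIn_eq_ramificationIdx (P.under (𝓞 K)) P (L ≃ₐ[K] L)]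

theorem smul_coe (K L : Type) [Field K] [NumberField K] [Field L] [NumberField L]
    [Algebra K L] (σ : L ≃ₐ[K] L) (x : 𝓞 L) : ((σ • x : 𝓞 L) : L) = σ (x : L) := rfl

theorem algebraMap_coe (K L : Type) [Field K] [NumberField K] [Field L] [NumberField L]
    [Algebra K L] (x : 𝓞 K) : ((algebraMap (𝓞 K) (𝓞 L) x : 𝓞 L) : L) = algebraMap K L (x : K) := rfl

end RAMB

open _root_.Pool.Agent.RI.RAMB in
theorem RAMB_thm : RAMB := by
  intro F K M L _ _ _ _ _ _ _ _ _ _ _ _ _ _ _ _ _ hadj w hw hM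
  apply hw
  have hP : (w.asIdeal.under (𝓞 M)).IsPrime := inferInstance
  have h1 := card_inertia F M (w.asIdeal.under (𝓞 M))
  rw [hM] at h1
  have h1' : (w.asIdeal.under (𝓞 M)).inertia (M ≃ₐ[F] M) = ⊥ :=
    (Subgroup.card_eq_one).1 h1
  rw [← card_inertia K L w.asIdeal]
  rw [Subgroup.card_eq_one, Subgroup.eq_bot_iff_forall]
  intro σ hσ
  -- the restriction of `σ` to `M`
  let σ' : L ≃ₐ[F] L := AlgEquiv.restrictScalars F σ
  let τ : M ≃ₐ[F] M := σ'.restrictNormal M
  have hτ : ∀ m : M, algebraMap M L (τ m) = σ (algebraMap M L m) :=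
    fun m => AlgEquiv.restrictNormal_commutes σ' M m
  have hτi : τ ∈ (w.asIdeal.under (𝓞 M)).inertia (M ≃ₐ[F] M) := by
    rw [AddSubgroup.mem_inertia]
    intro x
    have h2 := (AddSubgroup.mem_inertia.1 hσ) (algebraMap (𝓞 M) (𝓞 L) x)
    have h3 : algebraMap (𝓞 M) (𝓞 L) (τ • x - x) =
        σ • (algebraMap (𝓞 M) (𝓞 L) x) - algebraMap (𝓞 M) (𝓞 L) x := by
      rw [map_sub]
      congr 1
      apply RingOfIntegers.ext
      rw [smul_coe, algebraMap_coe, algebraMap_coe, smul_coe]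
      exact hτ x
    show τ • x - x ∈ w.asIdeal.under (𝓞 M)
    rw [Ideal.under, Ideal.mem_comap, h3]
    exact h2
  rw [h1', Subgroup.mem_bot] at hτi
  have hσM : ∀ m : M, σ (algebraMap M L m) = algebraMap M L m := by
    intro m
    rw [← hτ m, hτi]
    rfl
  have hall : ∀ x : L, σ x = x := by
    intro x
    have hx : x ∈ IntermediateField.adjoin K (Set.range (algebraMap M L)) := by
      rw [hadj]; trivial
    refine IntermediateField.adjoin_induction (F := K) (p := fun y _ => σ y = y)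
      ?_ ?_ ?_ ?_ ?_ hx
    · rintro _ ⟨m, rfl⟩
      exact hσM m
    · intro y
      exact σ.commutes y
    · intro a b _ _ ha hb
      rw [map_add, ha, hb]
    · intro a _ ha
      rw [map_inv₀, ha]
    · intro a b _ _ ha hb
      rw [map_mul, ha, hb]
  exact AlgEquiv.ext hall

end Pool.Agent.RI


end

section

/-!
# Relative Iwasawa theorem: one step of the induction for subfields of `ℂ`
-/

open NumberField IsDedekindDomain
open scoped nonZeroDivisors Pointwise

namespace Pool.Agent.RI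

namespace TSTEP

lemma fd_of_le {E F : IntermediateField ℚ ℂ} (h : E ≤ F) [FiniteDimensional ℚ F] :
    FiniteDimensional ℚ E :=
  FiniteDimensional.of_injective (IntermediateField.inclusion h).toLinearMap
    (IntermediateField.inclusion h).injective

/-- The elements of `A` generate `A ⊔ B` over `B`. -/
lemma adjoin_top {A B C : IntermediateField ℚ ℂ} (hC : C = A ⊔ B) (hB : B ≤ C) (hA : A ≤ C) :
    letI := algC hB
    letI := algC hA
    IntermediateField.adjoin B (Set.range (algebraMap A C)) = ⊤ := by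
  subst hC
  let _ := algC hB
  let _ := algC hA
  rw [eq_top_iff]
  rintro ⟨x, hx⟩ -
  -- the image in `ℂ` of the adjoined field
  let T : IntermediateField ℚ ℂ :=
    { carrier := {z | ∃ hz : z ∈ A ⊔ B,
        (⟨z, hz⟩ : ↥(A ⊔ B)) ∈ IntermediateField.adjoin B (Set.range (algebraMap A ↥(A ⊔ B)))}
      mul_mem' := by
        rintro a b ⟨ha, ha'⟩ ⟨hb, hb'⟩
        exact ⟨mul_mem ha hb, mul_mem ha' hb'⟩
      add_mem' := by
        rintro a b ⟨ha, ha'⟩ ⟨hb, hb'⟩
        exact ⟨add_mem ha hb, add_mem ha' hb'⟩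
      algebraMap_mem' := by
        intro r
        refine ⟨algebraMap_mem _ r, ?_⟩
        have : (⟨algebraMap ℚ ℂ r, algebraMap_mem _ r⟩ : ↥(A ⊔ B)) =
            algebraMap B ↥(A ⊔ B) ⟨algebraMap ℚ ℂ r, algebraMap_mem _ r⟩ := rfl
        rw [this]
        exact algebraMap_mem _ _
      inv_mem' := by
        rintro a ⟨ha, ha'⟩
        exact ⟨inv_mem ha, inv_mem ha'⟩ }
  have hT : A ⊔ B ≤ T := by
    apply sup_le
    · intro a ha
      refine ⟨hA ha, ?_⟩
      apply IntermediateField.subset_adjoin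
      exact ⟨⟨a, ha⟩, rfl⟩
    · intro b hb
      refine ⟨hB hb, ?_⟩
      have : (⟨b, hB hb⟩ : ↥(A ⊔ B)) = algebraMap B ↥(A ⊔ B) ⟨b, hb⟩ := rfl
      rw [this]
      exact algebraMap_mem _ _
  obtain ⟨_, h⟩ := hT hx
  exact h

end TSTEP

open _root_.Pool.Agent.RI.TSTEP in
theorem TSTEP_thm (hSTEP : STEP) (hNSN : NSN) (hRAMB : RAMB) (hINF : INF) (hBCH : BCH) :
    TSTEP := by
  intro p _ F K M' M fdK fdM hK h₁ h₂ gK hp gM' gM hpa hdeg hur hns hrel
  obtain ⟨hBCH1, hBCH2⟩ := hBCH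
  have fdM' : FiniteDimensional ℚ M' := fd_of_le h₂
  have fdF : FiniteDimensional ℚ F := fd_of_le hK
  obtain ⟨hM'K', _, fdK', hrel1, hrel2, hrel3⟩ := hrel
  have hK'L : K ⊔ M' ≤ K ⊔ M := sup_le_sup_left h₂ K
  have hML : M ≤ K ⊔ M := le_sup_right
  have hFM : F ≤ M := h₁.trans h₂
  have hM'L : M' ≤ K ⊔ M := h₂.trans hML
  have hKL : K ≤ K ⊔ M := le_sup_left
  have hFL : F ≤ K ⊔ M := hK.trans hKL
  let aFK : Algebra F K := algC hK
  let aFM' : Algebra F M' := algC h₁
  let aFM : Algebra F M := algC hFM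
  let aFL : Algebra F ↥(K ⊔ M) := algC hFL
  let aKL : Algebra K ↥(K ⊔ M) := algC hKL
  let aM'M : Algebra M' M := algC h₂
  let aM'K' : Algebra M' ↥(K ⊔ M') := algC hM'K'
  let aM'L : Algebra M' ↥(K ⊔ M) := algC hM'L
  let aK'L : Algebra ↥(K ⊔ M') ↥(K ⊔ M) := algC hK'L
  let aML : Algebra M ↥(K ⊔ M) := algC hML
  have t1 := towerC hM'K' hK'L
  have t2 := towerC h₂ hML
  have t3 := towerC hK hKL
  have t4 := towerC hFM hML
  have t5 := towerC h₁ h₂
  have t6 := towerC h₁ hM'L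
  -- Galois extensions
  have gFM : IsGalois F M := (isGalois_algC hFM).2 gM
  have gFK : IsGalois F K := (isGalois_algC hK).2 gK
  have gM'M : IsGalois M' M := IsGalois.tower_top_of_isGalois F M' M
  have gFL : IsGalois F ↥(K ⊔ M) := (isGalois_algC hFL).2 (hBCH2 F K M hK hFM hFL gK gM)
  have gM'L : IsGalois M' ↥(K ⊔ M) := IsGalois.tower_top_of_isGalois F M' ↥(K ⊔ M)
  have gK'L : IsGalois ↥(K ⊔ M') ↥(K ⊔ M) :=
    IsGalois.tower_top_of_isGalois M' ↥(K ⊔ M') ↥(K ⊔ M)
  have gML : IsGalois M ↥(K ⊔ M) := IsGalois.tower_top_of_isGalois F M ↥(K ⊔ M)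
  -- degrees
  have hpr : p.Prime := Fact.out
  have dM'M : Module.finrank M' M = p := (finrank_algC h₂).trans hdeg
  have dK'L : Module.finrank ↥(K ⊔ M') ↥(K ⊔ M) = p := by
    have e1 := (hBCH1 M' M K (K ⊔ M') (K ⊔ M) h₂ hK'L (sup_comm _ _) (sup_comm _ _)
      ((isGalois_algC h₂).1 gM'M)).2
    rw [← finrank_algC, hdeg] at e1
    rcases (Nat.dvd_prime hpr).1 e1 with h | h
    · exfalso
      have e2 : Module.finrank M' ↥(K ⊔ M') * Module.finrank ↥(K ⊔ M') ↥(K ⊔ M) =
          Module.finrank M' M * Module.finrank M ↥(K ⊔ M) := by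
        rw [Pool.Agent.FX.fmul, Pool.Agent.FX.fmul]
      rw [h, mul_one, dM'M] at e2
      have e3 : p ∣ Module.finrank M' ↥(K ⊔ M') := ⟨_, e2⟩
      exact ((Nat.Prime.coprime_iff_not_dvd hpr).1 hrel2.symm) e3
    · exact h
  have dML : (Module.finrank M ↥(K ⊔ M)).Coprime p := by
    have e1 := (hBCH1 F K M M (K ⊔ M) hK hML (sup_of_le_right hFM).symm rfl gK).2
    rw [← finrank_algC] at e1
    apply Nat.Coprime.symm
    rw [Nat.Prime.coprime_iff_not_dvd hpr]
    exact fun h => hp (h.trans e1)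
  have dKL : ∃ a : ℕ, Module.finrank K ↥(K ⊔ M) = p ^ a := by
    have e1 := (hBCH1 F M K K (K ⊔ M) hFM hKL (sup_of_le_right hK).symm (sup_comm _ _) gM).2
    rw [← finrank_algC] at e1
    obtain ⟨a, ha⟩ := hpa
    rw [ha] at e1
    obtain ⟨b, _, hb⟩ := (Nat.dvd_prime_pow hpr).1 e1
    exact ⟨b, hb⟩
  have hsq : Square p M' ↥(K ⊔ M') M ↥(K ⊔ M) := by
    refine ⟨hrel1, gM'M, gM'L, hrel2, dM'M, dK'L⟩
  have hadj : IntermediateField.adjoin ↥(K ⊔ M') (Set.range (algebraMap M ↥(K ⊔ M))) = ⊤ :=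
    adjoin_top (A := M) (B := K ⊔ M') (C := K ⊔ M)
      (le_antisymm (sup_le (le_sup_left.trans le_sup_right) le_sup_left)
        (sup_le le_sup_right hK'L)) hK'L hML
  -- infinite places
  have hinf1 : Fintype.card (InfinitePlace ↥(K ⊔ M)) =
      p * Fintype.card (InfinitePlace ↥(K ⊔ M')) := by
    rw [← dK'L]
    refine hINF ↥(K ⊔ M') ↥(K ⊔ M) (Set.range (algebraMap M ↥(K ⊔ M))) ?_ ?_
    · exact hadj
    · rintro φ hφ _ ⟨s, rfl⟩
      refine hur (φ.comp (algebraMap M ↥(K ⊔ M))) ?_ s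
      intro x hx
      have := hφ ⟨(x : ℂ), (hK.trans le_sup_left) hx⟩
      exact this
  have hinf2 : Fintype.card (InfinitePlace M) =
      p * Fintype.card (InfinitePlace M') := by
    rw [← dM'M]
    refine hINF M' M Set.univ ?_ ?_
    · exact IntermediateField.adjoin_univ _ _
    · intro φ hφ s _
      refine hur φ ?_ s
      intro x hx
      exact hφ ⟨(x : ℂ), h₁ hx⟩
  -- ramified primes
  have hram : ∀ w : HeightOneSpectrum (𝓞 ↥(K ⊔ M)),
      w.asIdeal.ramificationIdx (𝓞 ↥(K ⊔ M')) ≠ 1 →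
      ∀ σ : ↥(K ⊔ M) ≃ₐ[M] ↥(K ⊔ M), σ • w.asIdeal = w.asIdeal := by
    intro w hw
    have e1 := hRAMB M' ↥(K ⊔ M') M ↥(K ⊔ M) hadj w hw
    have hwp : w.asIdeal.IsPrime := w.isPrime
    refine hNSN p F K M ↥(K ⊔ M) dKL dML w.asIdeal hwp ?_
    intro σ
    symm
    refine hns (w.asIdeal.under (𝓞 K)) (σ • w.asIdeal.under (𝓞 K)) inferInstance ?_ ?_ ?_
    · rw [Ideal.pointwise_smul_eq_comap]
      infer_instance
    · ext x
      change (RingOfIntegers.mapRingHom (IntermediateField.inclusion hK : F →+* K)) x ∈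
          w.asIdeal.under (𝓞 K) ↔
        (RingOfIntegers.mapRingHom (IntermediateField.inclusion hK : F →+* K)) x ∈
          σ • w.asIdeal.under (𝓞 K)
      rw [Ideal.mem_pointwise_smul_iff_inv_smul_mem]
      have : σ⁻¹ • (RingOfIntegers.mapRingHom (IntermediateField.inclusion hK : F →+* K)) x =
          (RingOfIntegers.mapRingHom (IntermediateField.inclusion hK : F →+* K)) x := by
        apply RingOfIntegers.ext
        exact σ⁻¹.commutes (x : F)
      rw [this]
    · refine ⟨w.asIdeal.under (𝓞 M), inferInstance, ?_, ?_⟩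
      · ext x
        rfl
      · have e2 := Ideal.ramificationIdx_tower (R := 𝓞 F)
          ((w.asIdeal.under (𝓞 M)).under (𝓞 M')) (w.asIdeal.under (𝓞 M))
        intro e3
        have e4 : (w.asIdeal.under (𝓞 M)).ramificationIdx (𝓞 F) = 1 := e3
        rw [e4] at e2
        exact e1 (Nat.eq_one_of_mul_eq_one_left e2.symm)
  exact ⟨hML, fdM, inferInstance, gML, dML,
    hSTEP p M' ↥(K ⊔ M') M ↥(K ⊔ M) hsq hinf1 hinf2 hram hrel3⟩

end Pool.Agent.RI


end

section

/-!
# MU3, block P, module RKE: the rank of the class group of `L B_n`, `L / F` Galois of degree `p`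
-/

open NumberField Finset IsDedekindDomain
open scoped nonZeroDivisors Pointwise

namespace MU3

open _root_.Pool.Agent.RI _root_.Pool.Agent.RID

namespace RKE

theorem classNo_eq (E : IntermediateField ℚ ℂ) [FiniteDimensional ℚ E] :
    classNo E = NumberField.classNumber E := by
  unfold classNo NumberField.classNumber
  rw [Nat.card_eq_fintype_card]

theorem val_le {p a b : ℕ} [Fact p.Prime] (hb : b ≠ 0) (h : a ∣ b) :
    padicValNat p a ≤ padicValNat p b :=
  (padicValNat_dvd_iff_le hb).1 (pow_padicValNat_dvd.trans h)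

/-- the rank is at most the exponent of `p` in the class number -/
theorem rkp_le (p : ℕ) [Fact p.Prime] (L : Type) [Field L] [NumberField L] :
    rkp p L ≤ padicValNat p (NumberField.classNumber L) := by
  rw [CL.classNumber_eq]
  have hfin : Finite (J L ⧸ (prin (K := L)).range) := CL.finite_quot L
  unfold rkp
  refine val_le Nat.card_pos.ne' ?_
  have hcomm : ∀ a b : J L ⧸ PI L, a * b = b * a := by
    intro a b
    obtain ⟨x, rfl⟩ := QuotientGroup.mk_surjective a
    obtain ⟨y, rfl⟩ := QuotientGroup.mk_surjective b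
    rw [← QuotientGroup.mk_mul, ← QuotientGroup.mk_mul, mul_comm]
  let S : Subgroup (J L ⧸ PI L) :=
    { carrier := {c | c ^ p = 1}
      one_mem' := one_pow p
      mul_mem' := by
        intro a b ha hb
        change (a * b) ^ p = 1
        rw [(show Commute a b from hcomm a b).mul_pow, show a ^ p = 1 from ha,
          show b ^ p = 1 from hb, mul_one]
      inv_mem' := by
        intro a ha
        change a⁻¹ ^ p = 1
        rw [inv_pow, show a ^ p = 1 from ha, inv_one] }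
  exact Subgroup.card_subgroup_dvd_card S

/-- the prime below -/
noncomputable def und (K L : Type) [Field K] [NumberField K] [Field L] [NumberField L]
    [Algebra K L] (w : HeightOneSpectrum (𝓞 L)) : HeightOneSpectrum (𝓞 K) :=
  ⟨w.asIdeal.under (𝓞 K), inferInstance, Ideal.under_ne_bot (𝓞 K) w.ne_bot⟩

/-- the case of the degree `p` -/
theorem deg_p (h1 : P_CHEV) (h2 : P_RKA) {p : ℕ} [Fact p.Prime] {K L : Type} [Field K]
    [NumberField K] [Field L] [NumberField L] [Algebra K L] [IsGalois K L]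
    (hd : Module.finrank K L = p)
    (hinf : Fintype.card (InfinitePlace L) = Module.finrank K L * Fintype.card (InfinitePlace K))
    (S : Finset (HeightOneSpectrum (𝓞 K)))
    (hS : ∀ w : HeightOneSpectrum (𝓞 L), w.asIdeal.ramificationIdx (𝓞 K) ≠ 1 →
      ∃ v ∈ S, w.asIdeal.under (𝓞 K) = v.asIdeal) :
    rkp p L ≤ p * (padicValNat p (NumberField.classNumber K) + S.card) := by
  have hcard : Nat.card (L ≃ₐ[K] L) = p := by
    rw [IsGalois.card_aut_eq_finrank, hd]
  have hcyc : IsCyclic (L ≃ₐ[K] L) := isCyclic_of_prime_card hcard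
  obtain ⟨g, hg⟩ := hcyc.exists_generator
  have hord : orderOf g = p := by
    rw [orderOf_eq_card_of_forall_mem_zpowers hg, hcard]
  have hC : CycExt K K L g (p ^ 1) := by
    refine ⟨by rw [hord, pow_one], fun x => ⟨fun hx => ?_, ?_⟩⟩
    · have h3 : ∀ σ : L ≃ₐ[K] L, σ x = x := by
        intro σ
        have h4 : Subgroup.zpowers g ≤ MulAction.stabilizer (L ≃ₐ[K] L) x := by
          rw [Subgroup.zpowers_le]
          exact hx
        exact h4 (hg σ)
      exact (IsGalois.mem_range_algebraMap_iff_fixed x).2 h3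
    · rintro ⟨y, rfl⟩
      exact g.commutes y
  have e1 := h1 p 1 K L g hC (by
    rw [Nat.card_eq_fintype_card, Nat.card_eq_fintype_card, hinf, hd, pow_one]) S hS
  have e2 := h2 p K L g (by rw [← hord]; exact pow_orderOf_eq_one g)
  rw [one_mul] at e1
  exact e2.trans (Nat.mul_le_mul_left p e1)

end RKE

open _root_.MU3.RKE in
theorem p_RKE (h1 : P_CHEV) (h2 : P_RKA) (h3 : P_NPL) (h4 : P_BAD) : P_RKE := by
  intro p _ F L fdL B hFL gal hdeg htc hlay
  classical
  have fdF : FiniteDimensional ℚ F := TSTEP.fd_of_le hFL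
  obtain ⟨hBCH1, -⟩ := BCH_thm
  have hpr : p.Prime := Fact.out
  let aFL : Algebra F L := algC hFL
  obtain ⟨T, hT, hTram⟩ := h4 F L
  have hex : ∀ ℓ : ℕ, ∃ t : ℕ, ℓ ∈ T → ∀ n, ∀ _ : FiniteDimensional ℚ ↥(F ⊔ B n),
      Nat.card {v : HeightOneSpectrum (𝓞 ↥(F ⊔ B n)) // (ℓ : 𝓞 ↥(F ⊔ B n)) ∈ v.asIdeal} ≤ t ∧
      Finite {v : HeightOneSpectrum (𝓞 ↥(F ⊔ B n)) // (ℓ : 𝓞 ↥(F ⊔ B n)) ∈ v.asIdeal} := by
    intro ℓ
    by_cases hℓ : ℓ ∈ T
    · obtain ⟨t, ht⟩ := h3 p ℓ F B (hT ℓ hℓ) hlay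
      exact ⟨t, fun _ => ht⟩
    · exact ⟨0, fun h => absurd h hℓ⟩
  choose tt htt using hex
  refine ⟨∑ ℓ ∈ T, tt ℓ, fun n fdLB => ?_⟩
  have hFB : F ⊔ B n ≤ L ⊔ B n := sup_le_sup_right hFL _
  have fdFB : FiniteDimensional ℚ ↥(F ⊔ B n) := TSTEP.fd_of_le hFB
  have fdB : FiniteDimensional ℚ (B n) := TSTEP.fd_of_le (le_sup_right : B n ≤ L ⊔ B n)
  obtain ⟨gal', hdvd⟩ := hBCH1 F L (B n) (F ⊔ B n) (L ⊔ B n) hFL hFB rfl rfl gal
  rw [hdeg] at hdvd
  rw [classNo_eq]
  rcases (Nat.dvd_prime hpr).1 hdvd with hd | hd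
  · -- the fields are equal
    have hbot := IntermediateField.finrank_eq_one_iff.1 hd
    have hle : L ⊔ B n ≤ F ⊔ B n := by
      intro x hx
      have hx' : x ∈ IntermediateField.extendScalars hFB := hx
      rw [hbot, IntermediateField.mem_bot] at hx'
      obtain ⟨y, rfl⟩ := hx'
      exact y.2
    have heq : L ⊔ B n = F ⊔ B n := le_antisymm hle hFB
    have e1 := rkp_le p ↥(L ⊔ B n)
    have e2 : NumberField.classNumber ↥(L ⊔ B n) = NumberField.classNumber ↥(F ⊔ B n) := by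
      rw [← classNo_eq, ← classNo_eq, heq]
    rw [e2] at e1
    calc rkp p ↥(L ⊔ B n) ≤ padicValNat p (NumberField.classNumber ↥(F ⊔ B n)) := e1
      _ ≤ padicValNat p (NumberField.classNumber ↥(F ⊔ B n)) + ∑ ℓ ∈ T, tt ℓ :=
        Nat.le_add_right _ _
      _ ≤ _ := Nat.le_mul_of_pos_left _ hpr.pos
  · have hFF : F ≤ F ⊔ B n := le_sup_left
    have hLL : L ≤ L ⊔ B n := le_sup_left
    have hFLB : F ≤ L ⊔ B n := hFL.trans hLL
    let a1 : Algebra F ↥(F ⊔ B n) := algC hFF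
    let a2 : Algebra L ↥(L ⊔ B n) := algC hLL
    let a3 : Algebra ↥(F ⊔ B n) ↥(L ⊔ B n) := algC hFB
    let a4 : Algebra F ↥(L ⊔ B n) := algC hFLB
    have t1 := towerC hFF hFB
    have t2 := towerC hFL hLL
    have g1 : IsGalois F L := (isGalois_algC hFL).2 gal
    have g2 : IsGalois ↥(F ⊔ B n) ↥(L ⊔ B n) := (isGalois_algC hFB).2 gal'
    have d2 : Module.finrank ↥(F ⊔ B n) ↥(L ⊔ B n) = p := (finrank_algC hFB).trans hd
    have hadj : IntermediateField.adjoin ↥(F ⊔ B n) (Set.range (algebraMap L ↥(L ⊔ B n))) = ⊤ :=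
      TSTEP.adjoin_top (A := L) (B := F ⊔ B n) (C := L ⊔ B n)
        (le_antisymm (sup_le le_sup_left (le_sup_right.trans le_sup_right))
          (sup_le hLL hFB)) hFB hLL
    have hinf := INF_thm ↥(F ⊔ B n) ↥(L ⊔ B n) Set.univ
      (IntermediateField.adjoin_univ _ _) (by
        intro φ hφ
        exfalso
        obtain ⟨x, hx⟩ := htc (φ.comp (algebraMap F ↥(L ⊔ B n)))
        exact hx (hφ (algebraMap F ↥(F ⊔ B n) x)))
    -- the set of the bad primes
    have hfin : ∀ ℓ ∈ T, {v : HeightOneSpectrum (𝓞 ↥(F ⊔ B n)) |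
        (ℓ : 𝓞 ↥(F ⊔ B n)) ∈ v.asIdeal}.Finite := fun ℓ hℓ => (htt ℓ hℓ n fdFB).2
    set S : Finset (HeightOneSpectrum (𝓞 ↥(F ⊔ B n))) :=
      T.attach.biUnion (fun ℓ => (hfin ℓ.1 ℓ.2).toFinset) with hS
    have hScard : S.card ≤ ∑ ℓ ∈ T, tt ℓ := by
      refine Finset.card_biUnion_le.trans ?_
      rw [← Finset.sum_attach T tt]
      refine Finset.sum_le_sum fun ℓ _ => ?_
      have e1 := (htt ℓ.1 ℓ.2 n fdFB).1
      have e2 : (hfin ℓ.1 ℓ.2).toFinset.card = Nat.card {v : HeightOneSpectrum (𝓞 ↥(F ⊔ B n)) //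
          (ℓ.1 : 𝓞 ↥(F ⊔ B n)) ∈ v.asIdeal} := by
        rw [← Nat.card_eq_card_finite_toFinset]
        rfl
      rw [e2]
      exact e1
    have hSram : ∀ w : HeightOneSpectrum (𝓞 ↥(L ⊔ B n)),
        w.asIdeal.ramificationIdx (𝓞 ↥(F ⊔ B n)) ≠ 1 →
        ∃ v ∈ S, w.asIdeal.under (𝓞 ↥(F ⊔ B n)) = v.asIdeal := by
      intro w hw
      have e1 := RAMB_thm F ↥(F ⊔ B n) L ↥(L ⊔ B n) hadj w hw
      obtain ⟨ℓ, hℓ, hmem⟩ := hTram (und L ↥(L ⊔ B n) w) e1
      have hmem' : (ℓ : 𝓞 ↥(L ⊔ B n)) ∈ w.asIdeal := by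
        have e2 : algebraMap (𝓞 L) (𝓞 ↥(L ⊔ B n)) (ℓ : 𝓞 L) ∈ w.asIdeal := hmem
        rwa [map_natCast] at e2
      refine ⟨und ↥(F ⊔ B n) ↥(L ⊔ B n) w, ?_, rfl⟩
      rw [hS, Finset.mem_biUnion]
      refine ⟨⟨ℓ, hℓ⟩, Finset.mem_attach _ _, ?_⟩
      rw [Set.Finite.mem_toFinset]
      change algebraMap (𝓞 ↥(F ⊔ B n)) (𝓞 ↥(L ⊔ B n)) (ℓ : 𝓞 ↥(F ⊔ B n)) ∈ w.asIdeal
      rwa [map_natCast]
    refine (deg_p h1 h2 d2 hinf S hSram).trans ?_
    exact Nat.mul_le_mul_left p (Nat.add_le_add_left hScard _)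

end MU3


end

section

/-!
# Module INJ: divisibility of class numbers in extensions of degree prime to `p`
-/

open NumberField Finset

namespace Pool.Agent.RID

open _root_.Pool.Agent.RI

namespace INJ

/-- Group theory: a homomorphism whose kernel has exponent prime to `p`. -/
theorem abs (p : ℕ) [hp : Fact p.Prime] (A C : Type) [CommGroup A] [CommGroup C] [Finite A]
    [Finite C] (e : C →* A) (d : ℕ) (hd : d.Coprime p) (h3 : ∀ c, e c = 1 → c ^ d = 1) :
    padicValNat p (Nat.card C) ≤ padicValNat p (Nat.card A) := by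
  have c1 : ¬ p ∣ Nat.card e.ker := by
    rw [CL.not_dvd_card_iff]
    rintro ⟨b, hb⟩
    exact ⟨d, hd, Subtype.ext (h3 b hb)⟩
  have e2 : Nat.card C = Nat.card e.ker * Nat.card e.range := by
    rw [← Subgroup.index_ker, Subgroup.card_mul_index]
  have hA : Nat.card A ≠ 0 := Nat.card_ne_zero.2 ⟨inferInstance, inferInstance⟩
  have h1 : Nat.card e.ker ≠ 0 := Nat.card_ne_zero.2 ⟨inferInstance, inferInstance⟩
  have h2 : Nat.card e.range ≠ 0 := Nat.card_ne_zero.2 ⟨inferInstance, inferInstance⟩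
  rw [e2, padicValNat.mul h1 h2, padicValNat.eq_zero_of_not_dvd c1, zero_add]
  exact (padicValNat_dvd_iff_le hA).1
    ((pow_padicValNat_dvd).trans (Subgroup.card_subgroup_dvd_card e.range))

/-- The statement for abstract number fields. -/
theorem main (p : ℕ) [hp : Fact p.Prime] (F K : Type) [Field F] [NumberField F] [Field K]
    [NumberField K] [Algebra F K] [IsGalois F K] (hd : (Module.finrank F K).Coprime p) :
    padicValNat p (NumberField.classNumber F) ≤ padicValNat p (NumberField.classNumber K) := by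
  let e : (J F ⧸ (prin (K := F)).range) →* (J K ⧸ (prin (K := K)).range) :=
    QuotientGroup.map _ _ (ext F K) (by
      rintro _ ⟨x, rfl⟩
      rw [Subgroup.mem_comap, ext_prin]
      exact ⟨_, rfl⟩)
  rw [CL.classNumber_eq, CL.classNumber_eq]
  refine abs p _ _ e (Module.finrank F K) hd ?_
  intro c hc
  obtain ⟨c, rfl⟩ := QuotientGroup.mk_surjective c
  change (QuotientGroup.mk (ext F K c) : J K ⧸ (prin (K := K)).range) = 1 at hc
  rw [QuotientGroup.eq_one_iff] at hc
  obtain ⟨x, hx⟩ := hc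
  rw [← QuotientGroup.mk_pow, QuotientGroup.eq_one_iff]
  refine ⟨Units.map (Algebra.norm F : K →* F) x, ?_⟩
  apply ext_injective F K
  rw [← CL.nm_prin, hx, CL.nm_ext, map_pow]

end INJ

/-- Module INJ. -/
theorem t_INJ : S_INJ := by
  intro p hp A B hB h hgal hdeg
  have hA : FiniteDimensional ℚ A :=
    FiniteDimensional.of_injective (IntermediateField.inclusion h).toLinearMap
      (IntermediateField.inclusion h).toRingHom.injective
  let : Algebra A B := algC h
  have hg : IsGalois A B := (isGalois_algC h).2 hgal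
  have hf : Module.finrank A B = Module.finrank A (IntermediateField.extendScalars h) :=
    finrank_algC h
  have hd : (Module.finrank A B).Coprime p := by
    rw [hf]
    exact ((Nat.Prime.coprime_iff_not_dvd hp.1).2 hdeg).symm
  have := INJ.main p A B hd
  rw [NumberField.classNumber, NumberField.classNumber, ← Nat.card_eq_fintype_card,
    ← Nat.card_eq_fintype_card] at this
  exact this

end Pool.Agent.RID


end

section

/-!
# Module UP: enlarging `K`
-/

set_option autoImplicit false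

open NumberField Finset

namespace Pool.Agent.MUXJ

open _root_.Pool.Agent.MU3 _root_.Pool.Agent.RI _root_.Pool.Agent.RID

/-- Module UP. -/
theorem t_UP : Sj_UP := by
  intro p _ K K' B hfK n h hlay hgal hdeg
  obtain ⟨hfB, -, -⟩ := LAY_thm p n B hlay
  have hf : FiniteDimensional ℚ ↥(K' ⊔ B) := IntermediateField.finiteDimensional_sup K' B
  have hle : K ⊔ B ≤ K' ⊔ B := sup_le_sup_right h B
  have hb := BCH_thm.1 K K' B (K ⊔ B) (K' ⊔ B) h hle rfl rfl hgal
  exact t_INJ p (K ⊔ B) (K' ⊔ B) hle hb.1 (fun hd => hdeg (hd.trans hb.2))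

end Pool.Agent.MUXJ


end

section

/-!
# VB, module FQC: the group of an unramified extension of degree `p` (helper5)
-/

set_option autoImplicit false

open NumberField IsDedekindDomain
open scoped nonZeroDivisors Pointwise

namespace Pool.Agent.VB

open _root_.Pool.Agent.RI _root_.Pool.Agent.MU3

theorem tb_FQC (hFQI : Sb_FQI) (hUIX : Sb_UIX) (hUNR : Sb_UNR) (hNRM : Sb_NRM)
    (hCRD : Sb_CRD) : Sb_FQC := by
  intro p hp L M _ _ h hTC hN hR hU
  have hAL : Algebra.IsAlgebraic ℚ M := inferInstance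
  have gA : IsGalois L (IntermediateField.extendScalars h) := (hNRM L M hAL h).2 hN
  have fA : Module.finrank L (IntermediateField.extendScalars h) = p := by
    rw [(hCRD L M h).2.2.1, hR]
  let a1 := algC h
  have g1 : IsGalois L M := (isGalois_algC h).2 gA
  have f1 : Module.finrank L M = p := (finrank_algC h).trans fA
  have hfd : FiniteDimensional L M :=
    FiniteDimensional.of_finrank_pos (by rw [f1]; exact hp.out.pos)
  have hcard : Nat.card (M ≃ₐ[L] M) = p := by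
    rw [IsGalois.card_aut_eq_finrank, f1]
  have : IsCyclic (M ≃ₐ[L] M) := isCyclic_of_prime_card hcard
  obtain ⟨σ, hσ⟩ := IsCyclic.exists_generator (α := M ≃ₐ[L] M)
  have hcyc : Pool.Agent.HB.Cyc (p ^ 1) σ := ⟨g1, hσ, by rw [pow_one, f1]⟩
  have hTC' : Pool.Agent.HB.TC L := by
    intro v
    rw [← InfinitePlace.not_isReal_iff_isComplex]
    intro hv
    rw [InfinitePlace.isReal_iff] at hv
    obtain ⟨x, hx⟩ := hTC (InfinitePlace.embedding v)
    apply hx
    have h2 := RingHom.congr_fun (ComplexEmbedding.isReal_iff.1 hv) x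
    rw [ComplexEmbedding.conjugate_coe_eq] at h2
    exact h2
  obtain ⟨U, S, hUi, hUS⟩ := hFQI L M p 1 σ hp.out hcyc hTC' (hUNR L M h hN hU)
  exact ⟨U, S, le_antisymm (hUIX L M p hp.out f1 U S hUS) (by rw [pow_one] at hUi; exact hUi),
    hUS⟩

end Pool.Agent.VB


end
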