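import Mathlib
import Pool.Agent.MVF.C057
import Pool.Agent.MVF.C059
import Pool.Agent.MVF.C068
import Pool.Agent.MVF.C071
import Pool.Agent.MVF.C072

/-! Parts: MUX.N_DV, MU3.Q_E3, MU3.Q_E2, MU3.Q_E1, MU3.Q_RM, MU3.Q_ALL, MU3.StZ, MU3.Z_ZLAY, MUX.J_LAY, MUX.J_UNH, MUX.Z_LVF, VB.VFinal, VB.VJoin -/

namespace Pool.Agent.MU3Q.E3
end Pool.Agent.MU3Q.E3
namespace Pool.Agent.MUXJ.J_UNH
end Pool.Agent.MUXJ.J_UNH
namespace Pool.Agent.MUXZ.Lvf
end Pool.Agent.MUXZ.Lvf

section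

/-!
# MUX, block G: module DV (helper14)

A valuation ring of a number field above `p` is a discrete valuation ring. The lemma `frac` is copied from
`Pool/Agent/MU3/G_G6a.lean`.
-/

set_option autoImplicit false

namespace Pool.Agent.MUXN

open NumberField

noncomputable section

namespace DV

variable {H : Type} [Field H] [NumberField H]

/-- fractions with a denominator outside a given prime ideal -/
theorem frac (P : Ideal (𝓞 H)) [hP : P.IsPrime] (y : H) :
    ∃ x z : 𝓞 H, (z ∉ P ∧ y * z = x) ∨ (x ∉ P ∧ z ∈ P ∧ y * z = x) := by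
  obtain ⟨a, b, hb, hab⟩ := IsFractionRing.div_surjective (A := 𝓞 H) y
  have hb0 : b ≠ 0 := nonZeroDivisors.ne_zero hb
  have hbH : ((b : 𝓞 H) : H) ≠ 0 := by
    intro h0
    apply hb0
    exact_mod_cast h0
  have hab' : y * b = a := by
    rw [← hab]
    exact div_mul_cancel₀ _ hbH
  set D : Ideal (𝓞 H) := Ideal.span {a} ⊔ Ideal.span {b} with hD
  have hD0 : D ≠ ⊥ := by
    intro h0
    have h1 : Ideal.span {b} ≤ D := le_sup_right
    rw [h0, le_bot_iff, Ideal.span_singleton_eq_bot] at h1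
    exact hb0 h1
  obtain ⟨I, hI⟩ := Ideal.dvd_iff_le.2 (le_sup_left : Ideal.span {a} ≤ D)
  obtain ⟨J, hJ⟩ := Ideal.dvd_iff_le.2 (le_sup_right : Ideal.span {b} ≤ D)
  have hIJ : I ⊔ J = ⊤ := by
    have h1 : D * (I ⊔ J) = D * ⊤ := by
      rw [Ideal.mul_sup, ← hI, ← hJ, Ideal.mul_top]
    exact mul_left_cancel₀ hD0 h1
  by_cases hJP : J ≤ P
  · have hIP : ¬ I ≤ P := by
      intro h1
      apply hP.ne_top
      rw [eq_top_iff, ← hIJ]
      exact sup_le h1 hJP
    obtain ⟨w, hw, hwP⟩ := SetLike.not_le_iff_exists.1 hIP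
    have h1 : w * b ∈ Ideal.span {a} * J := by
      have h2 : w * b ∈ I * Ideal.span {b} :=
        Ideal.mul_mem_mul hw (Ideal.mem_span_singleton_self b)
      have h3 : I * Ideal.span {b} = Ideal.span {a} * J :=
        calc I * Ideal.span {b} = I * (D * J) := congrArg (I * ·) hJ
          _ = (D * I) * J := by ring
          _ = Ideal.span {a} * J := congrArg (· * J) hI.symm
      rwa [h3] at h2
    obtain ⟨j, hj, hjw⟩ := Ideal.mem_span_singleton_mul.1 h1
    refine ⟨w, j, Or.inr ⟨hwP, hJP hj, ?_⟩⟩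
    have h4 : (a : H) * j = w * b := by exact_mod_cast hjw
    have h5 : y * j * b = w * b := by
      rw [← h4, ← hab']
      ring
    exact mul_right_cancel₀ hbH h5
  · obtain ⟨w, hw, hwP⟩ := SetLike.not_le_iff_exists.1 hJP
    have h1 : w * a ∈ Ideal.span {b} * I := by
      have h2 : w * a ∈ J * Ideal.span {a} :=
        Ideal.mul_mem_mul hw (Ideal.mem_span_singleton_self a)
      have h3 : J * Ideal.span {a} = Ideal.span {b} * I :=
        calc J * Ideal.span {a} = J * (D * I) := congrArg (J * ·) hI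
          _ = (D * J) * I := by ring
          _ = Ideal.span {b} * I := congrArg (· * I) hJ.symm
      rwa [h3] at h2
    obtain ⟨j, hj, hjw⟩ := Ideal.mem_span_singleton_mul.1 h1
    refine ⟨j, w, Or.inl ⟨hwP, ?_⟩⟩
    have h4 : (b : H) * j = w * a := by exact_mod_cast hjw
    have h5 : y * w * b = j * b := by
      rw [mul_comm (j : H), h4, ← hab']
      ring
    exact mul_right_cancel₀ hbH h5

variable (W : ValuationSubring H)

/-- integral elements are in `W` -/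
theorem int_mem {x : H} (hx : IsIntegral ℤ x) : x ∈ W := by
  have h1 : IsIntegral W x := hx.tower_top
  obtain ⟨y, hy⟩ := (IsIntegrallyClosed.isIntegral_iff (R := W) (K := H)).1 h1
  rw [← hy]
  exact y.2

/-- the homomorphism from the ring of integers to `W` -/
def toW : 𝓞 H →+* W :=
  (algebraMap (𝓞 H) H).codRestrict W.toSubring
    (fun x => int_mem W (RingOfIntegers.isIntegral_coe x))

theorem coe_toW (x : 𝓞 H) : ((toW W x : W) : H) = (x : H) := rfl

theorem dvr {p : ℕ} (hp0 : p ≠ 0) (hp : (p : H) ∈ W.nonunits) : IsDiscreteValuationRing W := by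
  letI : Algebra (𝓞 H) W := (toW W).toAlgebra
  set P : Ideal (𝓞 H) := Ideal.comap (toW W) (IsLocalRing.maximalIdeal W) with hPdef
  haveI hPp : P.IsPrime := Ideal.comap_isPrime _ _
  have hmem : ∀ x : 𝓞 H, x ∈ P ↔ (x : H) ∈ W.nonunits := by
    intro x
    rw [hPdef, Ideal.mem_comap, ← ValuationSubring.coe_mem_nonunits_iff, coe_toW]
  have hP0 : P ≠ ⊥ := by
    intro h0
    have h1 : ((p : ℕ) : 𝓞 H) ∈ P := by
      rw [hmem]
      have : (((p : ℕ) : 𝓞 H) : H) = (p : H) := by norm_cast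
      rw [this]
      exact hp
    rw [h0, Ideal.mem_bot] at h1
    exact hp0 (by exact_mod_cast h1)
  have hunit : ∀ z : 𝓞 H, z ∉ P → IsUnit (toW W z) := by
    intro z hz
    by_contra hcon
    exact hz hcon
  haveI : IsLocalization.AtPrime W P := by
    refine (isLocalization_iff P.primeCompl W).2 ⟨?_, ?_, ?_⟩
    · rintro ⟨z, hz⟩
      exact hunit z hz
    · rintro ⟨y, hy⟩
      obtain ⟨x, z, ⟨h1, h2⟩ | ⟨h1, h2, h3⟩⟩ := frac P y
      · refine ⟨⟨x, ⟨z, h1⟩⟩, ?_⟩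
        apply Subtype.ext
        exact h2
      · exfalso
        apply h1
        rw [hmem, W.mem_nonunits_iff, ← h3, map_mul]
        rw [hmem, W.mem_nonunits_iff] at h2
        exact mul_lt_one_of_nonneg_of_lt_one_right ((W.valuation_le_one_iff _).2 hy) zero_le h2
    · intro x y hxy
      refine ⟨1, ?_⟩
      have h1 : ((toW W x : W) : H) = ((toW W y : W) : H) := congrArg Subtype.val hxy
      rw [coe_toW, coe_toW] at h1
      have h2 : x = y := by exact_mod_cast h1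
      rw [h2]
  exact IsLocalization.AtPrime.isDiscreteValuationRing_of_dedekind_domain (𝓞 H) hP0 W

end DV

theorem tg_DV : Sg_DV := by
  intro K _ V p hp hpV
  refine DV.dvr (H := K) (V.comap K.subtype) hp.ne_zero ?_
  rw [ValuationSubring.mem_nonunits_iff]
  by_contra hcon
  rw [not_lt] at hcon
  have h1 : (p : ℂ) ≠ 0 := Nat.cast_ne_zero.2 hp.ne_zero
  have h2 : ((p : K)⁻¹) ∈ V.comap K.subtype := by
    rw [← ValuationSubring.valuation_le_one_iff, map_inv₀]
    exact inv_le_one_of_one_le₀ hcon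
  rw [ValuationSubring.mem_comap] at h2
  have h3 : K.subtype ((p : K)⁻¹) = (p : ℂ)⁻¹ := by
    rw [map_inv₀, map_natCast]
  rw [h3, ← ValuationSubring.valuation_le_one_iff, map_inv₀] at h2
  rw [ValuationSubring.mem_nonunits_iff] at hpV
  have h4 : 1 < (V.valuation (p : ℂ))⁻¹ := by
    rw [one_lt_inv₀]
    · exact hpV
    · exact zero_lt_iff.2 ((V.valuation.ne_zero_iff).2 h1)
  exact absurd h2 (not_le.2 h4)

end

end Pool.Agent.MUXN


end

section

/-!
# MU3, block WQ, module E3: the stabiliser of `Gv N (0, 1)`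
-/

set_option autoImplicit false

namespace Pool.Agent.MU3Q

open UpperHalfPlane ModularForm EisensteinSeries Filter Topology
open scoped MatrixGroups

noncomputable section

namespace E3

open Classical in
/-- the terms of `Gv` on the imaginary axis -/
def tm (N : ℕ) (v : Fin 2 → ZMod N) (t : ℝ) (x : Fin 2 → ℤ) : ℂ :=
  if (∀ i, ((x i : ℤ) : ZMod N) = v i) then
    ((x 0 : ℂ) * (Complex.I * (t : ℂ)) + (x 1 : ℂ)) ^ (-4 : ℤ) else 0

open Classical in
/-- the limits of the terms -/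
def lm (N : ℕ) (v : Fin 2 → ZMod N) (x : Fin 2 → ℤ) : ℂ :=
  if (∀ i, ((x i : ℤ) : ZMod N) = v i) ∧ x 0 = 0 then (x 1 : ℂ) ^ (-4 : ℤ) else 0

open Classical in
/-- the real terms over the integers -/
def rt (N : ℕ) (d : ZMod N) (n : ℤ) : ℝ :=
  if ((n : ℤ) : ZMod N) = d then ((n : ℝ) ^ 4)⁻¹ else 0

lemma re_im (x : Fin 2 → ℤ) (t : ℝ) :
    ((x 0 : ℂ) * (Complex.I * (t : ℂ)) + (x 1 : ℂ)).re = (x 1 : ℝ) ∧
    ((x 0 : ℂ) * (Complex.I * (t : ℂ)) + (x 1 : ℂ)).im = (x 0 : ℝ) * t := by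
  constructor <;> simp

lemma norm_le (x : Fin 2 → ℤ) (t : ℝ) (ht : 1 ≤ t) :
    ‖x‖ ≤ ‖((x 0 : ℂ) * (Complex.I * (t : ℂ)) + (x 1 : ℂ))‖ := by
  rw [pi_norm_le_iff_of_nonneg (norm_nonneg _)]
  intro i
  fin_cases i
  · refine le_trans ?_ (Complex.abs_im_le_norm _)
    rw [(re_im x t).2, abs_mul, abs_of_nonneg (by linarith : (0 : ℝ) ≤ t)]
    show ‖x 0‖ ≤ _
    rw [Int.norm_eq_abs]
    exact le_mul_of_one_le_right (abs_nonneg _) ht
  · refine le_trans ?_ (Complex.abs_re_le_norm _)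
    rw [(re_im x t).1]
    show ‖x 1‖ ≤ _
    rw [Int.norm_eq_abs]

lemma bnd (N : ℕ) (v : Fin 2 → ZMod N) (t : ℝ) (ht : 1 ≤ t) (x : Fin 2 → ℤ) :
    ‖tm N v t x‖ ≤ ‖x‖ ^ (-(4 : ℝ)) := by
  unfold tm
  split_ifs with h
  · rcases eq_or_ne x 0 with rfl | hx
    · simp
    · have hx0 : 0 < ‖x‖ := norm_pos_iff.2 hx
      have h1 := norm_le x t ht
      rw [norm_zpow, Real.rpow_neg hx0.le, zpow_neg]
      have h2 : ‖x‖ ^ (4 : ℝ) = ‖x‖ ^ (4 : ℕ) := by exact_mod_cast Real.rpow_natCast ‖x‖ 4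
      have h3 : ‖((x 0 : ℂ) * (Complex.I * (t : ℂ)) + (x 1 : ℂ))‖ ^ (4 : ℤ) =
          ‖((x 0 : ℂ) * (Complex.I * (t : ℂ)) + (x 1 : ℂ))‖ ^ (4 : ℕ) := zpow_natCast _ 4
      rw [h2, h3]
      apply inv_anti₀ (by positivity)
      exact pow_le_pow_left₀ hx0.le h1 4
  · rw [norm_zero]
    positivity

lemma lim (N : ℕ) (v : Fin 2 → ZMod N) (x : Fin 2 → ℤ) :
    Tendsto (fun t : ℝ => tm N v t x) atTop (𝓝 (lm N v x)) := by
  unfold tm lm
  by_cases h : ∀ i, ((x i : ℤ) : ZMod N) = v i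
  · by_cases h0 : x 0 = 0
    · rw [if_pos ⟨h, h0⟩]
      refine tendsto_const_nhds.congr fun t => ?_
      rw [if_pos h, h0]
      simp
    · rw [if_neg (fun hh => h0 hh.2)]
      have h1 : ∀ t : ℝ, 1 ≤ t → ‖(if (∀ i, ((x i : ℤ) : ZMod N) = v i) then
          ((x 0 : ℂ) * (Complex.I * (t : ℂ)) + (x 1 : ℂ)) ^ (-4 : ℤ) else 0)‖ ≤ t⁻¹ := by
        intro t ht
        rw [if_pos h, norm_zpow, zpow_neg]
        have h3 : ‖((x 0 : ℂ) * (Complex.I * (t : ℂ)) + (x 1 : ℂ))‖ ^ (4 : ℤ) =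
          ‖((x 0 : ℂ) * (Complex.I * (t : ℂ)) + (x 1 : ℂ))‖ ^ (4 : ℕ) := zpow_natCast _ 4
        rw [h3]
        have h4 : t ≤ ‖((x 0 : ℂ) * (Complex.I * (t : ℂ)) + (x 1 : ℂ))‖ := by
          refine le_trans ?_ (Complex.abs_im_le_norm _)
          rw [(re_im x t).2, abs_mul, abs_of_nonneg (by linarith : (0 : ℝ) ≤ t)]
          have h5 : (1 : ℝ) ≤ |(x 0 : ℝ)| := by
            have := Int.one_le_abs h0
            exact_mod_cast this
          exact le_mul_of_one_le_left (by linarith) h5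
        apply inv_anti₀ (by linarith)
        calc t ≤ t ^ 4 := le_self_pow₀ ht (by norm_num)
          _ ≤ _ := pow_le_pow_left₀ (by linarith) h4 4
      refine squeeze_zero_norm' ?_ tendsto_inv_atTop_zero
      filter_upwards [eventually_ge_atTop 1] with t ht
      exact h1 t ht
  · rw [if_neg (fun hh => h hh.1)]
    refine tendsto_const_nhds.congr fun t => ?_
    rw [if_neg h]

/-- the limit of `Gv` along the imaginary axis -/
lemma lim_sum (N : ℕ) (v : Fin 2 → ZMod N) :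
    Tendsto (fun t : ℝ => ∑' x, tm N v t x) atTop (𝓝 (∑' x, lm N v x)) := by
  refine tendsto_tsum_of_dominated_convergence
    (summable_one_div_norm_rpow (k := 4) (by norm_num)) (lim N v) ?_
  filter_upwards [eventually_ge_atTop 1] with t ht x
  exact bnd N v t ht x

lemma gv_eq (N : ℕ) (v : Fin 2 → ZMod N) (t : ℝ) (ht : 0 < t) :
    Gv N v ⟨Complex.I * (t : ℂ), by simpa using ht⟩ = ∑' x, tm N v t x := rfl

lemma lm_eq (N : ℕ) (v w : Fin 2 → ZMod N) (h : Gv N v = Gv N w) :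
    ∑' x, lm N v x = ∑' x, lm N w x := by
  refine tendsto_nhds_unique ((lim_sum N v).congr' ?_) (lim_sum N w)
  filter_upwards [eventually_gt_atTop 0] with t ht
  rw [← gv_eq N v t ht, ← gv_eq N w t ht, h]

lemma lm_zero (N : ℕ) (v : Fin 2 → ZMod N) (h : v 0 ≠ 0) : ∑' x, lm N v x = 0 := by
  have h1 : ∀ x, lm N v x = 0 := by
    intro x
    unfold lm
    rw [if_neg]
    rintro ⟨h2, h3⟩
    apply h
    rw [← h2 0, h3, Int.cast_zero]
  simp [h1]

lemma lm_real (N : ℕ) (v : Fin 2 → ZMod N) (h : v 0 = 0) :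
    ∑' x, lm N v x = ((∑' n : ℤ, rt N (v 1) n : ℝ) : ℂ) := by
  have hinj : Function.Injective (fun n : ℤ => (![0, n] : Fin 2 → ℤ)) := by
    intro a b hab
    have := congrFun hab 1
    simpa using this
  have hsup : Function.support (lm N v) ⊆ Set.range (fun n : ℤ => (![0, n] : Fin 2 → ℤ)) := by
    intro x hx
    refine ⟨x 1, ?_⟩
    have h0 : x 0 = 0 := by
      by_contra h0
      apply hx
      unfold lm
      rw [if_neg (fun hh => h0 hh.2)]
    funext i
    fin_cases i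
    · exact h0.symm
    · rfl
  rw [← hinj.tsum_eq hsup, Complex.ofReal_tsum]
  apply tsum_congr
  intro n
  unfold lm rt
  by_cases hn : ((n : ℤ) : ZMod N) = v 1
  · rw [if_pos hn, if_pos]
    · push_cast
      rw [zpow_neg]
      congr 1
    · refine ⟨fun i => ?_, rfl⟩
      fin_cases i
      · simpa using h.symm
      · exact hn
  · rw [if_neg hn, if_neg]
    · simp
    · rintro ⟨h1, -⟩
      exact hn (h1 1)

lemma all_sum : HasSum (fun n : ℤ => (((n : ℝ) ^ 4)⁻¹)) (Real.pi ^ 4 / 90 + Real.pi ^ 4 / 90) := by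
  have h1 : HasSum (fun n : ℕ => ((((n : ℤ) : ℝ) ^ 4)⁻¹)) (Real.pi ^ 4 / 90) := by
    have := hasSum_zeta_four
    simpa using this
  have h2 : HasSum (fun n : ℕ => ((((-(n : ℤ) : ℤ) : ℝ) ^ 4)⁻¹)) (Real.pi ^ 4 / 90) := by
    refine h1.congr_fun ?_
    intro n
    push_cast
    ring_nf
  have h3 := HasSum.of_nat_of_neg (f := fun n : ℤ => (((n : ℝ) ^ 4)⁻¹)) h1 h2
  simpa using h3

lemma rt_nonneg (N : ℕ) (d : ZMod N) (n : ℤ) : 0 ≤ rt N d n := by
  unfold rt
  split_ifs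
  · positivity
  · exact le_rfl

lemma rt_le (N : ℕ) (d : ZMod N) (n : ℤ) : rt N d n ≤ (((n : ℝ) ^ 4)⁻¹) := by
  unfold rt
  split_ifs
  · exact le_rfl
  · positivity

lemma rt_summable (N : ℕ) (d : ZMod N) : Summable (rt N d) :=
  Summable.of_nonneg_of_le (rt_nonneg N d) (rt_le N d) all_sum.summable

lemma _root_.Pool.Agent.MU3Q.E3.one_le (N : ℕ) : 1 ≤ ∑' n : ℤ, rt N 1 n := by
  have h1 : rt N 1 1 = 1 := by
    unfold rt
    rw [if_pos (by norm_num)]
    norm_num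
  rw [← h1]
  exact (rt_summable N 1).le_tsum 1 (fun j _ => rt_nonneg N 1 j)

lemma lt_one (N : ℕ) (d : ZMod N) (h1 : d ≠ 1) (h2 : d ≠ -1) : ∑' n : ℤ, rt N d n < 1 := by
  have k1 : rt N d 1 = 0 := by
    unfold rt
    rw [if_neg]
    intro h
    exact h1 (by rw [← h]; norm_num)
  have k2 : rt N d (-1) = 0 := by
    unfold rt
    rw [if_neg]
    intro h
    exact h2 (by rw [← h]; norm_num)
  have hs := all_sum.summable.sub (rt_summable N d)
  have h3 : ∑ n ∈ ({1, -1} : Finset ℤ), ((((n : ℝ) ^ 4)⁻¹) - rt N d n) ≤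
      ∑' n : ℤ, ((((n : ℝ) ^ 4)⁻¹) - rt N d n) :=
    hs.sum_le_tsum _ (fun n _ => sub_nonneg.2 (rt_le N d n))
  rw [all_sum.summable.tsum_sub (rt_summable N d), all_sum.tsum_eq,
    Finset.sum_pair (by norm_num), k1, k2] at h3
  have h4 : Real.pi ^ 4 < 100 := by
    have h5 : Real.pi < 3.15 := Real.pi_lt_d2
    have h6 : Real.pi ^ 4 < 3.15 ^ 4 := pow_lt_pow_left₀ h5 Real.pi_pos.le (by norm_num)
    refine h6.trans ?_
    norm_num
  push_cast at h3
  linarith

end E3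

open _root_.Pool.Agent.MU3Q.E3 in
theorem t_E3 : St_E3 := by
  intro N γ hN h
  have h1 := lm_eq N _ _ h
  have h01 : (v01 N) 0 = 0 := rfl
  have h11 : (v01 N) 1 = 1 := rfl
  rw [lm_real N (v01 N) h01, h11] at h1
  have hone := _root_.Pool.Agent.MU3Q.E3.one_le N
  by_cases h0 : vm (v01 N) γ 0 = 0
  · rw [lm_real N _ h0] at h1
    have h2 : ∑' n : ℤ, rt N (vm (v01 N) γ 1) n = ∑' n : ℤ, rt N 1 n := by exact_mod_cast h1
    by_contra hcon
    rw [not_or] at hcon
    have hne1 : vm (v01 N) γ 1 ≠ 1 := by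
      intro h3
      apply hcon.1
      funext i
      fin_cases i
      · exact h0
      · exact h3
    have hne2 : vm (v01 N) γ 1 ≠ -1 := by
      intro h3
      apply hcon.2
      funext i
      fin_cases i
      · show vm (v01 N) γ 0 = -(v01 N 0)
        rw [h0, h01, neg_zero]
      · exact h3
    have h4 := lt_one N _ hne1 hne2
    linarith
  · exfalso
    rw [lm_zero N _ h0] at h1
    have h2 : (0 : ℝ) = ∑' n : ℤ, rt N 1 n := by exact_mod_cast h1
    linarith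

end

end Pool.Agent.MU3Q


end

section

/-!
# MU3, block WQ, module E2: transformation of `Gv`
-/

set_option autoImplicit false

namespace Pool.Agent.MU3Q

open UpperHalfPlane ModularForm EisensteinSeries Matrix
open scoped MatrixGroups

noncomputable section

/-- right multiplication by `γ` on row vectors -/
def e2Equiv (γ : SL(2, ℤ)) : (Fin 2 → ℤ) ≃ (Fin 2 → ℤ) where
  toFun x := x ᵥ* (γ : Matrix (Fin 2) (Fin 2) ℤ)
  invFun x := x ᵥ* ((γ⁻¹ : SL(2, ℤ)) : Matrix (Fin 2) (Fin 2) ℤ)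
  left_inv x := by
    show (x ᵥ* (γ : Matrix (Fin 2) (Fin 2) ℤ)) ᵥ*
      ((γ⁻¹ : SL(2, ℤ)) : Matrix (Fin 2) (Fin 2) ℤ) = x
    rw [Matrix.vecMul_vecMul, ← Matrix.SpecialLinearGroup.coe_mul, mul_inv_cancel]; simp
  right_inv x := by
    show (x ᵥ* ((γ⁻¹ : SL(2, ℤ)) : Matrix (Fin 2) (Fin 2) ℤ)) ᵥ*
      (γ : Matrix (Fin 2) (Fin 2) ℤ) = x
    rw [Matrix.vecMul_vecMul, ← Matrix.SpecialLinearGroup.coe_mul, inv_mul_cancel]; simp

theorem e2_cond (N : ℕ) (v : Fin 2 → ZMod N) (γ : SL(2, ℤ)) (x : Fin 2 → ℤ) :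
    (∀ i, ((x i : ℤ) : ZMod N) = v i) ↔
      ∀ i, (((e2Equiv γ x) i : ℤ) : ZMod N) = vm v γ i := by
  have key : ∀ j, (((e2Equiv γ x) j : ℤ) : ZMod N) =
      (x 0 : ZMod N) * ((γ 0 j : ℤ) : ZMod N) + (x 1 : ZMod N) * ((γ 1 j : ℤ) : ZMod N) := by
    intro j
    simp only [e2Equiv, Equiv.coe_fn_mk, Matrix.vecMul, Matrix.vec2_dotProduct]
    push_cast
    rfl
  constructor
  · intro h j
    rw [key, h 0, h 1]; rfl
  · intro h
    have h0 := h 0
    have h1 := h 1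
    rw [key] at h0 h1
    simp only [vm] at h0 h1
    have hd : (γ 0 0 : ℤ) * γ 1 1 - γ 0 1 * γ 1 0 = 1 := by
      have := γ.det_coe
      rwa [Matrix.det_fin_two] at this
    have hd' : ((γ 0 0 : ℤ) : ZMod N) * ((γ 1 1 : ℤ) : ZMod N) -
        ((γ 0 1 : ℤ) : ZMod N) * ((γ 1 0 : ℤ) : ZMod N) = 1 := by
      exact_mod_cast congrArg (fun t : ℤ => (t : ZMod N)) hd
    generalize ((γ 0 0 : ℤ) : ZMod N) = a at *
    generalize ((γ 0 1 : ℤ) : ZMod N) = b at *
    generalize ((γ 1 0 : ℤ) : ZMod N) = c at *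
    generalize ((γ 1 1 : ℤ) : ZMod N) = d at *
    intro i
    fin_cases i
    · show ((x 0 : ℤ) : ZMod N) = v 0
      linear_combination d * h0 - c * h1 - ((x 0 : ZMod N) - v 0) * hd'
    · show ((x 1 : ℤ) : ZMod N) = v 1
      linear_combination a * h1 - b * h0 - ((x 1 : ZMod N) - v 1) * hd'

theorem t_E2 : St_E2 := by
  classical
  intro N v γ τ
  unfold Gv
  rw [← tsum_mul_left]
  refine Eq.trans ?_ ((e2Equiv γ).tsum_eq _)
  apply tsum_congr
  intro x
  have hc := e2_cond N v γ x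
  have hs := eisSummand_SL2_apply 4 x γ τ
  simp only [eisSummand] at hs
  have hden : denom γ τ = ((γ 1 0 : ℤ) : ℂ) * (τ : ℂ) + ((γ 1 1 : ℤ) : ℂ) := by
    simp [denom]
  by_cases h : ∀ i, ((x i : ℤ) : ZMod N) = v i
  · have h' := hc.mp h
    rw [if_pos h, if_pos h']
    rw [hden] at hs
    exact hs
  · have h' : ¬ ∀ i, (((e2Equiv γ x) i : ℤ) : ZMod N) = vm v γ i := fun hh => h (hc.mpr hh)
    rw [if_neg h, if_neg h', mul_zero]

end

end Pool.Agent.MU3Q


end

section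

/-!
# MU3, block WQ, E1: the Eisenstein series `Gv` is holomorphic and bounded at `i ∞`
-/

set_option autoImplicit false

namespace Pool.Agent.MU3Q

open UpperHalfPlane ModularForm EisensteinSeries
open scoped MatrixGroups

noncomputable section

namespace E1

open Classical in
/-- the terms of the series -/
def tm (N : ℕ) (v : Fin 2 → ZMod N) (x : Fin 2 → ℤ) (τ : ℍ) : ℂ :=
  if (∀ i, ((x i : ℤ) : ZMod N) = v i) then eisSummand 4 x τ else 0

theorem Gv_eq (N : ℕ) (v : Fin 2 → ZMod N) (τ : ℍ) : Gv N v τ = ∑' x, tm N v x τ := by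
  unfold Gv tm eisSummand
  refine tsum_congr fun x => ?_
  by_cases h : ∀ i, ((x i : ℤ) : ZMod N) = v i
  · rw [if_pos h]
  · rw [if_neg h]

theorem norm_tm_le (N : ℕ) (v : Fin 2 → ZMod N) (x : Fin 2 → ℤ) (τ : ℍ) :
    ‖tm N v x τ‖ ≤ ‖eisSummand 4 x τ‖ := by
  unfold tm
  split_ifs with h
  · exact le_rfl
  · rw [norm_zero]
    exact norm_nonneg _

theorem summable_norm_pow : Summable fun x : Fin 2 → ℤ => ‖x‖ ^ (-(4 : ℝ)) :=
  summable_one_div_norm_rpow (by norm_num)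

theorem bound {A B : ℝ} (hB : 0 < B) (x : Fin 2 → ℤ) {z : ℍ} (hz : z ∈ verticalStrip A B) :
    ‖eisSummand 4 x z‖ ≤ r ⟨⟨A, B⟩, hB⟩ ^ (-(4 : ℝ)) * ‖x‖ ^ (-(4 : ℝ)) := by
  have h := summand_bound_of_mem_verticalStrip (k := 4) (by norm_num) x hB hz
  have h1 : ‖eisSummand 4 x z‖ = ‖(x 0 : ℂ) * (z : ℂ) + x 1‖ ^ (-(4 : ℝ)) := by
    unfold eisSummand
    rw [norm_zpow, ← Real.rpow_intCast]
    norm_num
  rw [h1]
  exact h

theorem unif (N : ℕ) (v : Fin 2 → ZMod N) :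
    TendstoLocallyUniformly (fun (s : Finset (Fin 2 → ℤ)) (τ : ℍ) => ∑ x ∈ s, tm N v x τ)
      (Gv N v) Filter.atTop := by
  rw [tendstoLocallyUniformly_iff_forall_isCompact]
  intro K hK
  obtain ⟨A, B, hB, hABK⟩ := subset_verticalStrip_of_isCompact hK
  have h := tendstoUniformlyOn_tsum (f := tm N v) (s := verticalStrip A B)
    (summable_norm_pow.mul_left (r ⟨⟨A, B⟩, hB⟩ ^ (-(4 : ℝ))))
    (fun p z hz => (norm_tm_le N v p z).trans (bound hB p hz))
  have h2 : (fun τ => ∑' x, tm N v x τ) = Gv N v := funext fun τ => (Gv_eq N v τ).symm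
  rw [h2] at h
  exact h.mono hABK

theorem unif' (N : ℕ) (v : Fin 2 → ZMod N) :
    TendstoLocallyUniformlyOn (fun (s : Finset (Fin 2 → ℤ)) =>
      (fun τ : ℍ => ∑ x ∈ s, tm N v x τ) ∘ ofComplex) (Gv N v ∘ ofComplex)
      Filter.atTop {z : ℂ | 0 < z.im} := by
  rw [← upperHalfPlaneSet, ← range_coe, ← Set.image_univ]
  apply TendstoLocallyUniformlyOn.comp (s := ⊤) _ _ _ (OpenPartialHomeomorph.continuousOn_symm _)
  · simp only [Set.top_eq_univ, tendstoLocallyUniformlyOn_univ]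
    exact unif N v
  · intro z _
    exact Set.mem_univ _

theorem tm_diff (N : ℕ) (v : Fin 2 → ZMod N) (x : Fin 2 → ℤ) :
    DifferentiableOn ℂ (fun z : ℂ => tm N v x (ofComplex z)) {z : ℂ | 0 < z.im} := by
  unfold tm
  split_ifs with h
  · exact eisSummand_extension_differentiableOn 4 x
  · exact differentiableOn_const 0

theorem hol (N : ℕ) (v : Fin 2 → ZMod N) : Hol (Gv N v) :=
  (unif' N v).differentiableOn
    (Filter.Eventually.of_forall fun _ => DifferentiableOn.fun_sum fun x _ => tm_diff N v x)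
    isOpen_upperHalfPlaneSet

/-- the shift of the summation index -/
def sh (n : ℤ) : (Fin 2 → ℤ) ≃ (Fin 2 → ℤ) where
  toFun x := ![x 0, x 1 + n * x 0]
  invFun x := ![x 0, x 1 - n * x 0]
  left_inv x := by
    ext i
    fin_cases i <;> simp
  right_inv x := by
    ext i
    fin_cases i <;> simp

theorem shift (n : ℤ) (z : ℍ) : ∑' x : Fin 2 → ℤ, ‖eisSummand 4 x ((n : ℝ) +ᵥ z)‖ =
    ∑' x : Fin 2 → ℤ, ‖eisSummand 4 x z‖ := by
  rw [← (sh n).tsum_eq fun x => ‖eisSummand 4 x z‖]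
  refine tsum_congr fun x => ?_
  unfold eisSummand
  rw [coe_vadd]
  have h0 : sh n x 0 = x 0 := rfl
  have h1 : sh n x 1 = x 1 + n * x 0 := rfl
  rw [h0, h1]
  congr 2
  push_cast
  ring

theorem summable_norm (z : ℍ) : Summable fun x : Fin 2 → ℤ => ‖eisSummand 4 x z‖ :=
  summable_norm_eisSummand (by norm_num) z

theorem bdd (N : ℕ) (v : Fin 2 → ZMod N) : IsBoundedAtImInfty (Gv N v) := by
  rw [isBoundedAtImInfty_iff]
  refine ⟨∑' x : Fin 2 → ℤ, r ⟨⟨1, 2⟩, Nat.ofNat_pos⟩ ^ (-(4 : ℝ)) * ‖x‖ ^ (-(4 : ℝ)), 2,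
    fun z hz => ?_⟩
  have hs : Summable fun x : Fin 2 → ℤ => ‖tm N v x z‖ :=
    (summable_norm z).of_nonneg_of_le (fun _ => norm_nonneg _) fun x => norm_tm_le N v x z
  rw [Gv_eq]
  refine (norm_tsum_le_tsum_norm hs).trans ((hs.tsum_le_tsum (fun x => norm_tm_le N v x z)
    (summable_norm z)).trans ?_)
  rw [← shift (-⌊z.re⌋) z]
  refine (summable_norm _).tsum_le_tsum (fun x => bound Nat.ofNat_pos x ?_)
    (summable_norm_pow.mul_left _)
  rw [mem_verticalStrip_iff, vadd_re, vadd_im]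
  refine ⟨?_, hz⟩
  push_cast
  rw [neg_add_eq_sub, abs_le]
  have h1 := Int.floor_le z.re
  have h2 := Int.lt_floor_add_one z.re
  constructor <;> linarith

end E1

/-- `Gv` is holomorphic and bounded at `i ∞` -/
theorem t_E1 : St_E1 := fun N v _ => ⟨E1.hol N v, E1.bdd N v⟩

end

end Pool.Agent.MU3Q


end

section

/-!
# MU3, block WQ, module RM: `RS K V` is closed under products and contains `1`
-/

set_option autoImplicit false

namespace Pool.Agent.MU3Q

open UpperHalfPlane ModularForm EisensteinSeries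
open scoped MatrixGroups

noncomputable section

theorem PP_one (K : Subfield ℂ) (V : ValuationSubring ℂ) : (1 : PowerSeries ℂ) ∈ PP K V := by
  intro n
  rw [PowerSeries.coeff_one]
  split_ifs
  · exact ⟨one_mem _, one_mem _⟩
  · exact ⟨zero_mem _, zero_mem _⟩

theorem PP_mul (K : Subfield ℂ) (V : ValuationSubring ℂ) {u v : PowerSeries ℂ} (hu : u ∈ PP K V)
    (hv : v ∈ PP K V) : u * v ∈ PP K V := by
  intro n
  rw [PowerSeries.coeff_mul]
  exact ⟨sum_mem fun p _ => mul_mem (hu p.1).1 (hv p.2).1,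
    sum_mem fun p _ => mul_mem (hu p.1).2 (hv p.2).2⟩

theorem t_RM : St_RM := by
  intro K V
  refine ⟨Submodule.subset_span (PP_one K V), ?_⟩
  intro u hu v hv
  have h1 : u * v ∈ RS K V * RS K V := Submodule.mul_mem_mul hu hv
  have h2 : RS K V * RS K V ≤ RS K V := by
    unfold RS
    rw [Submodule.span_mul_span]
    refine Submodule.span_mono ?_
    rintro _ ⟨a, ha, b, hb, rfl⟩
    exact PP_mul K V ha hb
  exact h2 h1

end

end Pool.Agent.MU3Q


end

section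

/-!
# MU3, block WQ: the theorem without hypotheses
-/

namespace Pool.Agent.MU3Q

theorem wq : St_WQ :=
  t_WQ t_LA t_JB t_QA (t_INT t_L1 t_JB) (t_POLE t_PFIN t_PORD (t_NF t_PORD) t_JB)
    (t_EV t_E1 t_E2 t_E3 t_JB) t_MR t_ODE t_ODEK (t_EXP t_RM t_QA (t_QE t_QA) t_E4)

end Pool.Agent.MU3Q


end

section

/-!
# MU3, final assembly (helper36)

`TorC A B` is the field generated over `ℚ` by `w` and all torsion coordinates of the curve `EE A B` over `ℂ`.
-/

set_option autoImplicit false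

namespace Pool.Agent.MU3Z

open _root_.MU3 _root_.Pool.Agent.MU3 _root_.Pool.Agent.MU3A _root_.Pool.Agent.MU3B _root_.Pool.Agent.MU3C _root_.Pool.Agent.RI
  _root_.Pool.Agent.RID _root_.Pool.Agent.MU3I

noncomputable section

/-- `k(E_tors)` for the curve of the case `(A, B)` -/
def TorC (A B : ℤ) : IntermediateField ℚ ℂ :=
  torsionField (wC A B) (emb (a2 A B)) (emb (a4 A B)) (emb (a6 A B) / 4)

/-- (ZTOR) `TorC A B` is the union of the fields `TF L m`.

Uses Sa_XI, Sa_EQN (`StA.lean`), TorA. PROOF. `curve (emb a2) (emb a4) (emb a6/4)` is the base change of `EE A B` to `ℂ` (equality of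
structures, `WeierstrassCurve.ext`). Let `P = some x y h` be of finite order, `n • P = 0`, `n ≥ 1`. By XI `P = ξ z` for some `z`, `z ∉ L` (otherwise `ξ z = 0`),
so `x = xx z`, `y = yy z`, and `ξ (n z) = 0`, `n z ∈ L`: `x, y ∈ TF L n` (`emb (n : O) = n`). `w ∈ kk A B ≤ TF L m` for every `m`. The set
`{x | ∃ m ≠ 0, x ∈ TF L m}` is a subfield containing `ℚ` (directed: `TF L m, TF L m' ≤ TF L (m m')` by `tower`, `O` is a domain (G0)), so it contains the field
generated by these elements (`IntermediateField.adjoin_induction` or `adjoin_le_iff`). -/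
def St_ZTOR : Prop :=
  ∀ (A B : ℤ) (_ : Case A B) (L : PeriodPair) (Om : ℂ) (_ : IsCM A B L Om) (_ : TorA A B L Om),
    ∀ x ∈ TorC A B, ∃ m : OO A B, m ≠ 0 ∧ x ∈ TF L m

/-- (ZGAL) finite subfields of `TorC` containing `k` are abelian over `k`.

Uses ZTOR, TorA. PROOF. `K/ℚ` is generated by finitely many elements, each in some `TF L m`; `K ⊆ TF L m₀` for the product `m₀` of the `m`
(`tower`). `Gal(TF L m₀/k)` is commutative (`act`, `mul`, `per`, `inj`, `O` commutative), so every intermediate field is Galois over `k` with a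
commutative group (restriction is onto). Translate from intermediate fields of `TF L m₀ / kk` to `extendScalars hk` (the same elements). -/
def St_ZGAL : Prop :=
  ∀ (A B : ℤ) (_ : Case A B) (L : PeriodPair) (Om : ℂ) (_ : IsCM A B L Om) (_ : TorA A B L Om)
    (K : IntermediateField ℚ ℂ) [FiniteDimensional ℚ K] (hk : kk A B ≤ K)
    (_ : ∀ x ∈ K, ∃ m : OO A B, m ≠ 0 ∧ x ∈ TF L m),
    IsGalois (kk A B) (IntermediateField.extendScalars hk) ∧
    ∀ σ τ : (IntermediateField.extendScalars hk) ≃ₐ[kk A B] (IntermediateField.extendScalars hk),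
      σ * τ = τ * σ

/-- (ZLAY) the layers exist and form a tower.

Uses ILAY (`StI2.lean`). PROOF. `B n = ℚ(ζ + ζ⁻¹)`, `ζ = zt (3^(n+1))`: `IsLayer 3 n (B n)` (degree `3^n`: see the proof of ILAY; real; contained in
`ℚ(μ_(3^(n+1)))`). Monotone: `ζ' = zt (3^(n+2))`, `ζ'^3 = ζ`, `ζ + ζ⁻¹ = (ζ' + ζ'⁻¹)³ - 3 (ζ' + ζ'⁻¹)`. Uniqueness: ILAY. -/
def St_ZLAY : Prop :=
  ∃ B : ℕ → IntermediateField ℚ ℂ, (∀ n, IsLayer 3 n (B n)) ∧ Monotone B ∧
    ∀ (n : ℕ) (Q : IntermediateField ℚ ℂ), IsLayer 3 n Q → Q = B n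

/-- (ZINP) the inputs `Inp` of the glue of block K, from the curve.

Uses helper59's MEMC, SUC, I1, I2 (`StV2.lean` etc.), helper6's passage from one `γ` to all `γ` in (I3), I3F. PROOF. `F` = residue
field of `V`, `c n = cc L Om (lev A B f n) Hs (hk n) 1`, `S` = 2, 3, the primes dividing `f` and `1 + 6 f`, ...; `n₁ = 1`. -/
def St_ZINP : Prop :=
  ∀ (A B : ℤ) (_ : Case A B) (L : PeriodPair) (Om : ℂ) (_ : IsCM A B L Om) (_ : TorA A B L Om)
    (V : ValuationSubring ℂ) (_ : emb (ppi A B) ∈ V.nonunits)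
    (f : ℕ) (_ : f ≠ 0) (_ : ¬ 3 ∣ f) (_ : 2 * absD A B ∣ (f : ℤ)) (_ : mz A B ∣ (f : OO A B))
    (K : IntermediateField ℚ ℂ) [FiniteDimensional ℚ (kk A B)] [FiniteDimensional ℚ K]
    (_ : ∀ x ∈ K, x ∈ TF L (lev A B f 0)) (Bn : ℕ → IntermediateField ℚ ℂ)
    [∀ n, FiniteDimensional ℚ ↥(K ⊔ Bn n)] (_ : Bas (kk A B) K Bn)
    (hk : ∀ n, kk A B ≤ K ⊔ Bn n), ∃ (S : Finset ℕ) (c : ℕ → ℂ) (n₁ : ℕ),
    Inp (IsLocalRing.ResidueField V) (kk A B) K Bn hk S c n₁

/-- (ZM) the main theorem for the field `K` of degree prime to 3 over `ℚ` with a cube root of unity.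

Uses ZINP, `S_MAINK` (`StGl.lean`), IRES, IVEX, Sa_EX, ITOR, IK3F (`d = 88`), ZGAL, ZTOR, Sa_NEG (`Cpl`). PROOF. `L`, `Om` from EX, `V` from IVEX, `f` from IK3F (with
`mz A B ∣ 88`), `Bas` from ZGAL (in the form `IsGalois k (extendScalars hk)`), `S_MAINK` with `F` the residue field. -/
def St_ZM : Prop :=
  ∀ (A B : ℤ) (_ : Case A B) (K : IntermediateField ℚ ℂ) [FiniteDimensional ℚ K]
    (_ : kk A B ≤ K) (_ : K ≤ TorC A B) (_ : ¬ 3 ∣ Module.finrank ℚ K)
    (_ : ∃ ω ∈ K, ω ^ 2 + ω + 1 = 0) (Bn : ℕ → IntermediateField ℚ ℂ)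
    (_ : ∀ n, IsLayer 3 n (Bn n)) (_ : Monotone Bn),
    ∃ C : ℕ, ∀ n, padicValNat 3 (classNo (K ⊔ Bn n)) ≤ C * (n + 1) ^ 2

/-- (ZFIN) the main theorem.

Uses ZM, `S_UP` (`StGl.lean`), `P_SYL`, `P_PEX` (`StP.lean`), ZTOR, ZGAL, ZLAY, EX, ITOR. PROOF. Let `K` be given. (1) SYL for `k = kk A B ≤ K` (Galois, abelian: ZTOR, ZGAL): `F₀` with
`k ≤ F₀ ≤ K`, `[F₀ : k]` prime to 3, `K/F₀` Galois of degree `3^a`. `[F₀ : ℚ] = 2 [F₀ : k]` is prime to 3. (2) `F₁ = F₀(ω)`, `ω` a primitive cube root of unity: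
`[F₁ : F₀] ≤ 2`, so `[F₁ : ℚ]` is prime to 3, `F₁/F₀` is Galois; `ω ∈ TF L 3 ⊆ TorC` (`TorA.zeta`; `TF L m ≤ TorC`: the generators of `TF L m` are torsion coordinates, by
XI; or choose `ω = (-1 + √-3)/2` explicitly from a 3-torsion point). ZM for `F₁` and `S_UP` give the bound `C (n+1)^2` for `F₀`. (3) `F₀` is totally complex: it contains `k`; an embedding
of `kk A B` maps `w` to a root of `X² - B X - A`, not real. `P_PEX` gives `C`, `k'` for `K`; take `C' = C + k'`: `C (n+1)^k' ≤ C' (n+1)^C'`. (4) every layer `Q` is `B n`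
(ZLAY). -/
def St_ZFIN : Prop :=
  ∀ (A B : ℤ) (_ : Case A B) (K : IntermediateField ℚ ℂ) [FiniteDimensional ℚ K]
    (_ : kk A B ≤ K) (_ : K ≤ TorC A B),
    ∃ C : ℕ, ∀ (n : ℕ) (Q : IntermediateField ℚ ℂ), IsLayer 3 n Q →
      padicValNat 3 (classNo (K ⊔ Q)) ≤ C * (n + 1) ^ C

/-- The statement of the hand-in. -/
def St_RES : Prop :=
  (∀ (K : IntermediateField ℚ ℂ) [FiniteDimensional ℚ K], rt 2 ∈ K →
    K ≤ torsionField (rt 2) 4 2 0 → ∃ C : ℕ, ∀ (n : ℕ) (Q : IntermediateField ℚ ℂ),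
      IsLayer 3 n Q → padicValNat 3 (classNo (K ⊔ Q)) ≤ C * (n + 1) ^ C) ∧
  (∀ (K : IntermediateField ℚ ℂ) [FiniteDimensional ℚ K], rt 11 ∈ K →
    K ≤ torsionField (rt 11) (rt 11) (-3) (-(rt 11) / 4) →
    ∃ C : ℕ, ∀ (n : ℕ) (Q : IntermediateField ℚ ℂ),
      IsLayer 3 n Q → padicValNat 3 (classNo (K ⊔ Q)) ≤ C * (n + 1) ^ C)

/-- (ZRES) translation to explicit equations.

Uses ZFIN. PROOF. `(A, B) = (-2, 0)`: `wC (-2) 0 = I √8/2 = I √2 = rt 2`, `emb a2 = 4`, `emb a4 = 2`, `emb a6/4 = 0`. `kk = ℚ(rt 2) ≤ K`. `(A, B) = (-3, 1)`: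
`wC = (1 + rt 11)/2`, `emb a2 = -1 + 2 wC = rt 11`, `emb a4 = -3`, `emb a6/4 = (1 - 2 wC)/4 = -(rt 11)/4`; the fields generated by `wC` and by `rt 11` together with a set are
equal. -/
def St_ZRES : Prop := St_ZFIN → St_RES

end

end Pool.Agent.MU3Z


end

section

/-!
# MU3, final assembly, module ZLAY: the layers exist and form a tower
-/

set_option autoImplicit false

open NumberField Polynomial

namespace Pool.Agent.MU3Z

open _root_.Pool.Agent.RI _root_.Pool.Agent.RID _root_.Pool.Agent.MU3I _root_.Pool.Agent.MU3I.Ilay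

/-- the layer `ℚ(ζ + ζ⁻¹)` -/
noncomputable def zlB (n : ℕ) : IntermediateField ℚ ℂ :=
  IntermediateField.adjoin ℚ {zt (3 ^ (n + 1)) + (zt (3 ^ (n + 1)))⁻¹}

lemma zlB_layer (n : ℕ) : IsLayer 3 n (zlB n) := by
  have hM : 3 ^ (n + 1) ≠ 0 := pow_ne_zero _ (by norm_num)
  unfold zlB
  set ζ := zt (3 ^ (n + 1)) with hζ
  have hζp : IsPrimitiveRoot ζ (3 ^ (n + 1)) := zt_prim _ hM
  have hζ0 : ζ ≠ 0 := hζp.ne_zero hM
  have hζc : (starRingEnd ℂ) ζ = ζ⁻¹ := conj_root hM hζp.pow_eq_one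
  set R := IntermediateField.adjoin ℚ {ζ + ζ⁻¹} with hR
  set c : ℂ →ₐ[ℚ] ℂ := (Complex.conjAe.toAlgHom).restrictScalars ℚ with hc
  have hcz : ∀ z : ℂ, c z = (starRingEnd ℂ) z := fun z => rfl
  have hRr : ∀ x ∈ R, c x = x := by
    have hRR : R ≤ (AlgHom.equalizer c (AlgHom.id ℚ ℂ)).toIntermediateField (fun x hx => by
        have hx' : c x = x := hx
        show c x⁻¹ = x⁻¹
        rw [map_inv₀, hx']) := by
      rw [hR, IntermediateField.adjoin_simple_le_iff]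
      show c (ζ + ζ⁻¹) = ζ + ζ⁻¹
      rw [map_add, map_inv₀, hcz, hζc, inv_inv, add_comm]
    exact fun x hx => hRR hx
  refine ⟨?_, hRr, n + 1, ?_⟩
  · apply deg ζ (3 ^ n) hζ0
    · have hint : IsIntegral ℚ ζ := (hζp.isIntegral (Nat.pos_of_ne_zero hM)).tower_top
      rw [IntermediateField.adjoin.finrank hint,
        ← cyclotomic_eq_minpoly_rat hζp (Nat.pos_of_ne_zero hM), natDegree_cyclotomic,
        Nat.totient_prime_pow_succ Nat.prime_three]
    · intro h1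
      have h2 := hRr _ h1
      rw [hcz, hζc] at h2
      have h3 : ζ ^ 2 = 1 := by
        rw [pow_two]
        nth_rewrite 1 [← h2]
        exact inv_mul_cancel₀ hζ0
      have h4 := hζp.dvd_of_pow_eq_one 2 h3
      have h5 : 3 ∣ 2 := (dvd_pow_self 3 (Nat.succ_ne_zero n)).trans h4
      omega
  · have hζj : ζ ∈ IntermediateField.adjoin ℚ {z : ℂ | z ^ (3 ^ (n + 1)) = 1} :=
      IntermediateField.subset_adjoin _ _ hζp.pow_eq_one
    rw [hR, IntermediateField.adjoin_simple_le_iff]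
    exact add_mem hζj (inv_mem hζj)

lemma zt_cube (n : ℕ) : zt (3 ^ (n + 1 + 1)) ^ 3 = zt (3 ^ (n + 1)) := by
  unfold zt
  rw [← Complex.exp_nat_mul]
  congr 1
  push_cast
  field_simp
  ring

lemma zlB_mono : Monotone zlB := by
  refine monotone_nat_of_le_succ (fun n => ?_)
  have hM : 3 ^ (n + 1 + 1) ≠ 0 := pow_ne_zero _ (by norm_num)
  have hp : IsPrimitiveRoot (zt (3 ^ (n + 1 + 1))) (3 ^ (n + 1 + 1)) := zt_prim _ hM
  have h0 : zt (3 ^ (n + 1 + 1)) ≠ 0 := hp.ne_zero hM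
  unfold zlB
  rw [IntermediateField.adjoin_simple_le_iff, ← zt_cube n]
  set ζ := zt (3 ^ (n + 1 + 1)) with hζ
  have h1 : ζ + ζ⁻¹ ∈ IntermediateField.adjoin ℚ {ζ + ζ⁻¹} :=
    IntermediateField.mem_adjoin_simple_self ℚ _
  have e : ζ ^ 3 + (ζ ^ 3)⁻¹ = (ζ + ζ⁻¹) ^ 3 - 3 * (ζ + ζ⁻¹) := by
    field_simp
    ring
  rw [e]
  exact sub_mem (pow_mem h1 3) (mul_mem (natCast_mem _ 3) h1)

/-- ZLAY. -/
theorem t_ZLAY : St_ZLAY :=
  ⟨zlB, zlB_layer, zlB_mono, fun n Q hQ => t_ILAY n Q hQ⟩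

end Pool.Agent.MU3Z


end

section

/-!
# MUX, block J, module LAY: the layers exist, form a tower and are unique (helper72)
-/

set_option autoImplicit false

open NumberField Polynomial

namespace Pool.Agent.MUXJ

namespace Lay

open _root_.Pool.Agent.RI _root_.Pool.Agent.RID _root_.Pool.Agent.MU3I _root_.Pool.Agent.MU3I.Ilay

/-- the layer `ℚ(ζ + ζ⁻¹)`, `ζ` of order `2^(n+2)` -/
noncomputable def B2 (n : ℕ) : IntermediateField ℚ ℂ :=
  IntermediateField.adjoin ℚ {zt (2 ^ (n + 2)) + (zt (2 ^ (n + 2)))⁻¹}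

lemma real2 (n : ℕ) : ∀ x ∈ B2 n, (starRingEnd ℂ) x = x := by
  have hM : 2 ^ (n + 2) ≠ 0 := pow_ne_zero _ (by norm_num)
  unfold B2
  set ζ := zt (2 ^ (n + 2)) with hζ
  have hζp : IsPrimitiveRoot ζ (2 ^ (n + 2)) := zt_prim _ hM
  have hζc : (starRingEnd ℂ) ζ = ζ⁻¹ := conj_root hM hζp.pow_eq_one
  set R := IntermediateField.adjoin ℚ {ζ + ζ⁻¹} with hR
  set c : ℂ →ₐ[ℚ] ℂ := (Complex.conjAe.toAlgHom).restrictScalars ℚ with hc
  have hcz : ∀ z : ℂ, c z = (starRingEnd ℂ) z := fun z => rfl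
  have hRR : R ≤ (AlgHom.equalizer c (AlgHom.id ℚ ℂ)).toIntermediateField (fun x hx => by
      have hx' : c x = x := hx
      show c x⁻¹ = x⁻¹
      rw [map_inv₀, hx']) := by
    rw [hR, IntermediateField.adjoin_simple_le_iff]
    show c (ζ + ζ⁻¹) = ζ + ζ⁻¹
    rw [map_add, map_inv₀, hcz, hζc, inv_inv, add_comm]
  exact fun x hx => hRR hx

lemma deg2 (n : ℕ) : Module.finrank ℚ (B2 n) = 2 ^ n := by
  have hM : 2 ^ (n + 2) ≠ 0 := pow_ne_zero _ (by norm_num)
  have hr := real2 n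
  unfold B2 at hr ⊢
  set ζ := zt (2 ^ (n + 2)) with hζ
  have hζp : IsPrimitiveRoot ζ (2 ^ (n + 2)) := zt_prim _ hM
  have hζ0 : ζ ≠ 0 := hζp.ne_zero hM
  have hζc : (starRingEnd ℂ) ζ = ζ⁻¹ := conj_root hM hζp.pow_eq_one
  apply deg ζ (2 ^ n) hζ0
  · have hint : IsIntegral ℚ ζ := (hζp.isIntegral (Nat.pos_of_ne_zero hM)).tower_top
    rw [IntermediateField.adjoin.finrank hint,
      ← cyclotomic_eq_minpoly_rat hζp (Nat.pos_of_ne_zero hM), natDegree_cyclotomic,
      Nat.totient_prime_pow_succ Nat.prime_two, pow_succ]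
    norm_num
  · intro h1
    have h2 := hr _ h1
    rw [hζc] at h2
    have h3 : ζ ^ 2 = 1 := by
      rw [pow_two]
      nth_rewrite 1 [← h2]
      exact inv_mul_cancel₀ hζ0
    have h4 := hζp.dvd_of_pow_eq_one 2 h3
    have h5 : 2 ^ 2 ∣ 2 := (pow_dvd_pow 2 (by omega : 2 ≤ n + 2)).trans h4
    omega

lemma layer2 (n : ℕ) : IsLayer 2 n (B2 n) := by
  have hM : 2 ^ (n + 2) ≠ 0 := pow_ne_zero _ (by norm_num)
  have hζp : IsPrimitiveRoot (zt (2 ^ (n + 2))) (2 ^ (n + 2)) := zt_prim _ hM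
  refine ⟨deg2 n, real2 n, n + 2, ?_⟩
  have hζj : zt (2 ^ (n + 2)) ∈ IntermediateField.adjoin ℚ {z : ℂ | z ^ (2 ^ (n + 2)) = 1} :=
    IntermediateField.subset_adjoin _ _ hζp.pow_eq_one
  unfold B2
  rw [IntermediateField.adjoin_simple_le_iff]
  exact add_mem hζj (inv_mem hζj)

lemma zt_sq (n : ℕ) : zt (2 ^ (n + 1 + 2)) ^ 2 = zt (2 ^ (n + 2)) := by
  unfold zt
  rw [← Complex.exp_nat_mul]
  congr 1
  push_cast
  field_simp
  ring

lemma mono2 : Monotone B2 := by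
  refine monotone_nat_of_le_succ (fun n => ?_)
  have hM : 2 ^ (n + 1 + 2) ≠ 0 := pow_ne_zero _ (by norm_num)
  have hp : IsPrimitiveRoot (zt (2 ^ (n + 1 + 2))) (2 ^ (n + 1 + 2)) := zt_prim _ hM
  have h0 : zt (2 ^ (n + 1 + 2)) ≠ 0 := hp.ne_zero hM
  unfold B2
  rw [IntermediateField.adjoin_simple_le_iff, ← zt_sq n]
  set ζ := zt (2 ^ (n + 1 + 2)) with hζ
  have h1 : ζ + ζ⁻¹ ∈ IntermediateField.adjoin ℚ {ζ + ζ⁻¹} :=
    IntermediateField.mem_adjoin_simple_self ℚ _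
  have e : ζ ^ 2 + (ζ ^ 2)⁻¹ = (ζ + ζ⁻¹) ^ 2 - 2 := by
    field_simp
    ring
  rw [e]
  exact sub_mem (pow_mem h1 2) (natCast_mem _ 2)

lemma uniq2 (n : ℕ) (Q : IntermediateField ℚ ℂ) (hQ : IsLayer 2 n Q) : Q = B2 n := by
  obtain ⟨hdeg, hreal, m, hle⟩ := hQ
  have hp : Fact (Nat.Prime 2) := ⟨Nat.prime_two⟩
  set j := max m (n + 2) with hj
  have hN : 2 ^ j ≠ 0 := pow_ne_zero _ (by norm_num)
  have hM : 2 ^ (n + 2) ≠ 0 := pow_ne_zero _ (by norm_num)
  have hζp : IsPrimitiveRoot (zt (2 ^ (n + 2))) (2 ^ (n + 2)) := zt_prim _ hM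
  -- the fields are contained in the cyclotomic field
  have hBj : Q ≤ IntermediateField.adjoin ℚ {z : ℂ | z ^ (2 ^ j) = 1} := by
    refine hle.trans (IntermediateField.adjoin.mono _ _ _ ?_)
    intro z hz
    have hz' : z ^ 2 ^ m = 1 := hz
    obtain ⟨t, ht⟩ := pow_dvd_pow 2 (le_max_left m (n + 2))
    show z ^ 2 ^ j = 1
    rw [hj, ht, pow_mul, hz', one_pow]
  have hζj : zt (2 ^ (n + 2)) ∈ IntermediateField.adjoin ℚ {z : ℂ | z ^ (2 ^ j) = 1} := by
    apply IntermediateField.subset_adjoin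
    obtain ⟨t, ht⟩ := pow_dvd_pow 2 (le_max_right m (n + 2))
    show zt (2 ^ (n + 2)) ^ 2 ^ j = 1
    rw [hj, ht, pow_mul, hζp.pow_eq_one, one_pow]
  have hRj : B2 n ≤ IntermediateField.adjoin ℚ {z : ℂ | z ^ (2 ^ j) = 1} := by
    unfold B2
    rw [IntermediateField.adjoin_simple_le_iff]
    exact add_mem hζj (inv_mem hζj)
  set c : ℂ →ₐ[ℚ] ℂ := (Complex.conjAe.toAlgHom).restrictScalars ℚ with hc
  have hcz : ∀ z : ℂ, c z = (starRingEnd ℂ) z := fun z => rfl
  have hfix := fix_sup c Q (B2 n) (fun x hx => hreal x hx) (fun x hx => real2 n x hx)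
  have hBR : Q ⊔ B2 n ≤ IntermediateField.adjoin ℚ {z : ℂ | z ^ (2 ^ j) = 1} := sup_le hBj hRj
  have hab := LAY.isAbelian_of_le (F := ℚ) (E := ℂ) (2 ^ j) hN
    ⟨_, Complex.isPrimitiveRoot_exp _ hN⟩ (Q ⊔ B2 n) hBR
  have hG := hab.toIsGalois
  have hirr : Irreducible (cyclotomic (2 ^ j) ℚ) :=
    cyclotomic.irreducible_rat (Nat.pos_of_ne_zero hN)
  have hcyc := LAYC.gen (F := ℚ) (E := ℂ) 2 j hirr (Complex.isPrimitiveRoot_exp _ hN) c (by
    rw [hcz]
    exact conj_root hN (Complex.isPrimitiveRoot_exp _ hN).pow_eq_one) (Q ⊔ B2 n) hBR hfix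
  have : FiniteDimensional ℚ Q := Module.finite_of_finrank_pos (by rw [hdeg]; positivity)
  have : FiniteDimensional ℚ (B2 n) :=
    Module.finite_of_finrank_pos (by rw [deg2]; positivity)
  have hfd : FiniteDimensional ℚ ↥(Q ⊔ B2 n) := IntermediateField.finiteDimensional_sup Q (B2 n)
  exact uniq Q (B2 n) (Q ⊔ B2 n) le_sup_left le_sup_right (hdeg.trans (deg2 n).symm)

end Lay

/-- LAY. -/
theorem t_LAY : Sj_LAY := by
  rintro p (rfl | rfl)
  · exact ⟨Lay.B2, Lay.layer2, Lay.mono2, Lay.uniq2⟩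
  · exact MU3Z.t_ZLAY

end Pool.Agent.MUXJ


end

section

/-!
# MUX, block J, module UNH: `RF ⊤` is unramified at `V`
-/

set_option autoImplicit false

open NumberField IsDedekindDomain
open scoped nonZeroDivisors Pointwise

namespace Pool.Agent.MUXJ

open _root_.MU3 _root_.Pool.Agent.MU3 _root_.Pool.Agent.MU3A _root_.Pool.Agent.MU3B _root_.Pool.Agent.RI _root_.Pool.Agent.RID
  _root_.Pool.Agent.MUX _root_.Pool.Agent.MUXK _root_.Pool.Agent.MUXE

namespace J_UNH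

/-- automorphisms of `ℂ` with `FixK` are trivial on `k` -/
lemma fix {A B : ℤ} {σ : ℂ ≃+* ℂ} (hσ : FixK A B σ) : ∀ y ∈ kk A B, σ y = y := by
  intro y hy
  induction hy using IntermediateField.adjoin_induction with
  | mem x hx => rw [Set.mem_singleton_iff] at hx; rw [hx]; exact hσ
  | algebraMap x => simp
  | add x y _ _ hx hy => rw [map_add, hx, hy]
  | inv x _ hx => rw [map_inv₀, hx]
  | mul x y _ _ hx hy => rw [map_mul, hx, hy]

end J_UNH

open _root_.Pool.Agent.MUXJ.J_UNH in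
theorem t_UNH : Sj_UNH := by
  intro p A B P V hR hT σ hσ h
  have hone : (⊤ : Ideal (OO A B)) ≠ ⊥ := by
    intro h1
    have h2 : (1 : OO A B) ∈ (⊥ : Ideal (OO A B)) := h1 ▸ Submodule.mem_top
    exact one_ne_zero ((Submodule.mem_bot _).1 h2)
  obtain ⟨a, -, hact⟩ := hT.act ⊤ hone σ hσ
  have hgen : ∀ (b : Ideal (OO A B)) (L : PeriodPair) (om : ℂ), IsNL b L om →
      σ (kap L) = kap L := by
    intro b L om hL
    obtain ⟨b', L', om', mu, hL', hA⟩ := hact b L om hL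
    have hmem : kap L ∈ RF (⊤ : Ideal (OO A B)) :=
      IntermediateField.subset_adjoin _ _ ⟨b, L, om, hL, Or.inl rfl⟩
    have hv : kap L ∈ V := (V.valuation_le_one_iff _).1 (hR.vkap L ⟨b, om, hL⟩)
    have h1 := h (kap L) hmem hv
    rw [← hA.kap, ValuationSubring.mem_nonunits_iff] at h1
    have h2 := hR.inj L' L ⟨b', om', hL'⟩ ⟨b, om, hL⟩ h1
    rw [← hA.kap, h2]
  intro y hy
  unfold RF at hy
  induction hy using IntermediateField.adjoin_induction with
  | mem x hx =>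
    obtain ⟨b, L, om, hL, hx⟩ := hx
    rcases hx with rfl | ⟨z, hz, hz', -⟩
    · exact hgen b L om hL
    · exfalso
      apply hz'
      have h3 := hz 1 Submodule.mem_top
      have h4 : emb (1 : OO A B) = 1 := by
        have r1 : (1 : OO A B).re = 1 := rfl
        have r2 : (1 : OO A B).im = 0 := rfl
        unfold emb
        rw [r1, r2]
        simp
      rwa [h4, one_mul] at h3
  | algebraMap x => exact fix hσ _ x.2
  | add x y _ _ hx hy => rw [map_add, hx, hy]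
  | inv x _ hx => rw [map_inv₀, hx]
  | mul x y _ _ hx hy => rw [map_mul, hx, hy]

end Pool.Agent.MUXJ


end

section

/-!
# MUX, last glue, module LVF: the fields `K B_n` are in the ray class fields of level `m_n`
-/

set_option autoImplicit false

open NumberField IsDedekindDomain

namespace Pool.Agent.MUXZ

open _root_.MU3 _root_.Pool.Agent.MU3 _root_.Pool.Agent.MU3A _root_.Pool.Agent.MU3B _root_.Pool.Agent.RI _root_.Pool.Agent.RID
  _root_.Pool.Agent.MUX _root_.Pool.Agent.MUXK _root_.Pool.Agent.MUXJ _root_.Pool.Agent.MUXW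
open _root_.Pool.Agent.MU3V (Sub GD)

noncomputable section

namespace Lvf

/-- the layer is the field of `ζ + ζ⁻¹`, `ζ` of order `q0 p * p ^ n` -/
lemma layer_eq {p : ℕ} (hp : p = 2 ∨ p = 3) (n : ℕ) (Q : IntermediateField ℚ ℂ)
    (hQ : IsLayer p n Q) : ∃ ζ : ℂ, ζ ^ (q0 p * p ^ n) = 1 ∧
      Q = IntermediateField.adjoin ℚ {ζ + ζ⁻¹} := by
  rcases hp with rfl | rfl
  · refine ⟨MU3I.zt (2 ^ (n + 2)), ?_, Lay.uniq2 n Q hQ⟩
    have h : q0 2 * 2 ^ n = 2 ^ (n + 2) := by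
      rw [pow_add, mul_comm]
      rfl
    rw [h]
    exact (MU3I.Ilay.zt_prim _ (pow_ne_zero _ (by norm_num))).pow_eq_one
  · refine ⟨MU3I.zt (3 ^ (n + 1)), ?_, MU3I.t_ILAY n Q hQ⟩
    have h : q0 3 * 3 ^ n = 3 ^ (n + 1) := by
      rw [pow_succ, mul_comm]
      rfl
    rw [h]
    exact (MU3I.Ilay.zt_prim _ (pow_ne_zero _ (by norm_num))).pow_eq_one

/-- the ideal of a nonzero natural number is not zero -/
lemma idl_ne_bot {A B : ℤ} {M : ℕ} (hM : M ≠ 0) : idl (A := A) (B := B) M ≠ ⊥ := by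
  rw [Ne, Ideal.span_singleton_eq_bot]
  intro h
  have h1 := congrArg QuadraticAlgebra.re h
  rw [QuadraticAlgebra.re_natCast] at h1
  exact hM (by exact_mod_cast h1)

/-- divisibility of levels -/
lemma idl_le {A B : ℤ} {M N : ℕ} (h : M ∣ N) : idl (A := A) (B := B) N ≤ idl M := by
  rw [Ideal.span_singleton_le_span_singleton]
  exact Nat.cast_dvd_cast h

end Lvf

open _root_.Pool.Agent.MUXZ.Lvf in
theorem tz_LVF : Sz_LVF := by
  intro p A B hc hT hN f hf K hK n Bn hB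
  have hpp : p = 2 ∨ p = 3 := by
    rcases hc.split with ⟨h, -⟩ | ⟨h, -⟩
    · exact Or.inr h
    · exact Or.inl h
  have hp0 : p ≠ 0 := by omega
  have hq0 : q0 p ≠ 0 := by
    rcases hpp with rfl | rfl
    · show (4 : ℕ) ≠ 0
      norm_num
    · show (3 : ℕ) ≠ 0
      norm_num
  have hM : q0 p * p ^ n ≠ 0 := mul_ne_zero hq0 (pow_ne_zero _ hp0)
  have hm : idl (A := A) (B := B) (lvX p f n) ≠ ⊥ := by
    apply idl_ne_bot
    unfold lvX
    exact mul_ne_zero (mul_ne_zero hf hq0) (pow_ne_zero _ hp0)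
  set F := (RF (idl (A := A) (B := B) (lvX p f n))).restrictScalars ℚ with hF
  have hKF : K ≤ F := by
    intro y hy
    refine hT.mono _ _ (idl_le ?_) (hK y hy)
    unfold lvX
    exact Nat.mul_dvd_mul_left _ (pow_dvd_pow _ (Nat.zero_le n))
  have hBF : Bn ≤ F := by
    obtain ⟨ζ, hζ, he⟩ := layer_eq hpp n Bn hB
    have h1 : ζ ∈ RF (idl (A := A) (B := B) (lvX p f n)) := by
      obtain ⟨b, L, om, hL⟩ := hN
      have hfix : FixK A B (RingEquiv.refl ℂ) := rfl
      obtain ⟨a, -, ha⟩ := hT.act _ hm (RingEquiv.refl ℂ) hfix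
      obtain ⟨b', L', om', mu, -, hA⟩ := ha b L om hL
      refine (hT.zeta (q0 p * p ^ n) _ a (RingEquiv.refl ℂ) b L L' om mu hm hfix hM
        (idl_le ?_) hL hA ζ hζ).1
      unfold lvX
      rw [mul_assoc]
      exact Dvd.intro_left _ rfl
    rw [he, IntermediateField.adjoin_simple_le_iff]
    show ζ + ζ⁻¹ ∈ RF (idl (A := A) (B := B) (lvX p f n))
    exact add_mem h1 (inv_mem h1)
  intro y hy
  exact (sup_le hKF hBF) hy

end

end Pool.Agent.MUXZ


end

section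

/-!
# VB: the final theorem (helper51)

`V_UMF`: for `p = 2, 3`, a totally complex number field `E` which contains the `p`-th roots of unity, and for which
the `p`-parts of the class numbers of the layers are bounded by a polynomial, `K ≤ E`: the cyclotomic
`ℤ_p`-extension of `K` has only finitely many unramified Galois extensions of degree `p`.
-/

set_option autoImplicit false

open NumberField IsDedekindDomain
open scoped nonZeroDivisors Pointwise

namespace Pool.Agent.VB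

open _root_.Pool.Agent.RI

noncomputable section

/-- the cyclotomic `ℤ_p`-extension of `K` -/
def cyc (p : ℕ) (K : IntermediateField ℚ ℂ) : IntermediateField ℚ ℂ :=
  K ⊔ sSup {Q | ∃ n : ℕ, IsLayer p n Q}

lemma cyc_eq {p : ℕ} {B : ℕ → IntermediateField ℚ ℂ} (hB : ∀ n, IsLayer p n (B n))
    (hu : ∀ (n : ℕ) (Q : IntermediateField ℚ ℂ), IsLayer p n Q → Q = B n)
    (K : IntermediateField ℚ ℂ) : cyc p K = Finf K B := by
  unfold cyc Finf
  congr 1
  apply le_antisymm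
  · refine sSup_le ?_
    rintro Q ⟨n, hQ⟩
    rw [hu n Q hQ]
    exact le_iSup B n
  · exact iSup_le fun n => le_sSup ⟨n, hB n⟩

lemma lay_fd {p n : ℕ} (hp : p.Prime) {B : IntermediateField ℚ ℂ} (h : IsLayer p n B) :
    FiniteDimensional ℚ B :=
  Module.finite_of_finrank_pos (by rw [h.1]; exact pow_pos hp.pos n)

/-- the final theorem -/
theorem V_UMF (hFNP : Sb_FNP) (hRED : Sb_RED) (p : ℕ) (hp : p = 2 ∨ p = 3)
    (K E : IntermediateField ℚ ℂ) [FiniteDimensional ℚ E] (hKE : K ≤ E) (hTC : TCx E)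
    (hz : ∃ ζ ∈ E, IsPrimitiveRoot ζ p)
    (hb : ∃ C : ℕ, ∀ (n : ℕ) (Q : IntermediateField ℚ ℂ), IsLayer p n Q →
      padicValNat p (classNo (E ⊔ Q)) ≤ C * (n + 1) ^ C) :
    (UM p (cyc p K)).Finite := by
  have hpp : p.Prime := by
    rcases hp with rfl | rfl <;> norm_num
  have : Fact p.Prime := ⟨hpp⟩
  obtain ⟨B, hB, hmono, hu⟩ := MUXJ.t_LAY p hp
  obtain ⟨C, hC⟩ := hb
  rw [cyc_eq hB hu K]
  refine hRED p K E B (fun n => lay_fd hpp (hB n)) hmono hKE ?_
  exact hFNP p E B hB hmono hTC hz ⟨C, fun n => hC n (B n) (hB n)⟩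

/-! ## Abelian extensions in terms of automorphisms of `ℂ` -/

/-- `M / L` is abelian: the automorphisms which fix `L` commute on `M` -/
def Cmt (L M : IntermediateField ℚ ℂ) : Prop :=
  ∀ σ τ : ℂ ≃+* ℂ, Fixes L σ → Fixes L τ → ∀ x ∈ M, σ (τ x) = τ (σ x)

lemma cmt_sup {L M M' : IntermediateField ℚ ℂ} (h : Cmt L M) (h' : Cmt L M') :
    Cmt L (M ⊔ M') := by
  intro σ τ hσ hτ
  have h1 : M ⊔ M' ≤ FixF ((τ * σ)⁻¹ * (σ * τ)) := by
    refine sup_le ?_ ?_
    · intro x hx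
      show (τ * σ).symm (σ (τ x)) = x
      rw [RingEquiv.symm_apply_eq]
      exact h σ τ hσ hτ x hx
    · intro x hx
      show (τ * σ).symm (σ (τ x)) = x
      rw [RingEquiv.symm_apply_eq]
      exact h' σ τ hσ hτ x hx
  intro x hx
  have h2 : (τ * σ).symm (σ (τ x)) = x := h1 hx
  rw [RingEquiv.symm_apply_eq] at h2
  exact h2

lemma cmt_adj {L : IntermediateField ℚ ℂ} {S : Set ℂ}
    (h : ∀ σ τ : ℂ ≃+* ℂ, ∀ x ∈ S, σ (τ x) = τ (σ x)) :
    Cmt L (IntermediateField.adjoin ℚ S) := by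
  intro σ τ _ _
  have h1 : IntermediateField.adjoin ℚ S ≤ FixF ((τ * σ)⁻¹ * (σ * τ)) := by
    rw [IntermediateField.adjoin_le_iff]
    intro x hx
    show (τ * σ).symm (σ (τ x)) = x
    rw [RingEquiv.symm_apply_eq]
    exact h σ τ x hx
  intro x hx
  have h2 : (τ * σ).symm (σ (τ x)) = x := h1 hx
  rw [RingEquiv.symm_apply_eq] at h2
  exact h2

/-- roots of unity -/
lemma zeta_cmt (p : ℕ) (σ τ : ℂ ≃+* ℂ) (ζ : ℂ) (hζ : IsPrimitiveRoot ζ p) (hp : 0 < p) :
    σ (τ ζ) = τ (σ ζ) := by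
  have h1 : ∀ ρ : ℂ ≃+* ℂ, ∃ i, ζ ^ i = ρ ζ := by
    intro ρ
    have : NeZero p := ⟨hp.ne'⟩
    obtain ⟨i, -, hi⟩ := hζ.eq_pow_of_pow_eq_one (ξ := ρ ζ) (by
      rw [← map_pow, hζ.pow_eq_one, map_one])
    exact ⟨i, hi⟩
  obtain ⟨i, hi⟩ := h1 σ
  obtain ⟨j, hj⟩ := h1 τ
  rw [← hj, ← hi, map_pow, map_pow, ← hi, ← hj, ← pow_mul, ← pow_mul, mul_comm]

lemma zeta_nrm (p : ℕ) (ζ : ℂ) (hζ : IsPrimitiveRoot ζ p) (hp : 0 < p)
    (L : IntermediateField ℚ ℂ) : Nrm L (IntermediateField.adjoin ℚ {ζ}) := by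
  intro σ _
  have h1 : IntermediateField.adjoin ℚ {ζ} ≤ PreF σ (IntermediateField.adjoin ℚ {ζ}) := by
    rw [IntermediateField.adjoin_le_iff, Set.singleton_subset_iff]
    show σ ζ ∈ IntermediateField.adjoin ℚ {ζ}
    have : NeZero p := ⟨hp.ne'⟩
    obtain ⟨i, -, hi⟩ := hζ.eq_pow_of_pow_eq_one (ξ := σ ζ) (by
      rw [← map_pow, hζ.pow_eq_one, map_one])
    rw [← hi]
    exact pow_mem (IntermediateField.mem_adjoin_simple_self ℚ ζ) i
  exact fun x hx => h1 hx

/-- `K / k` is abelian (`k ≤ K`) -/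
def AbE (k K : IntermediateField ℚ ℂ) : Prop :=
  ∃ h : k ≤ K, IsGalois k (IntermediateField.extendScalars h) ∧
    ∀ σ τ : (IntermediateField.extendScalars h) ≃ₐ[k] (IntermediateField.extendScalars h),
      σ * τ = τ * σ

lemma abE_iff (hNRM : Sb_NRM) {k K : IntermediateField ℚ ℂ} (hk : k ≤ K)
    (hK : Algebra.IsAlgebraic ℚ K) : AbE k K ↔ Nrm k K ∧ Cmt k K := by
  constructor
  · rintro ⟨h, hG, hc⟩
    have hN : Nrm k K := (hNRM k K hK h).1 hG
    refine ⟨hN, ?_⟩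
    -- restriction of an automorphism
    have key : ∀ σ : ℂ ≃+* ℂ, Fixes k σ →
        ∃ s : (IntermediateField.extendScalars h) ≃ₐ[k] (IntermediateField.extendScalars h),
          ∀ x : IntermediateField.extendScalars h, ((s x : _) : ℂ) = σ (x : ℂ) := by
      intro σ hσ
      have hσ' : Fixes k σ⁻¹ := fixes_inv hσ
      refine ⟨AlgEquiv.ofRingEquiv (f :=
        { toFun := fun x => ⟨σ (x : ℂ), hN σ hσ x x.2⟩
          invFun := fun x => ⟨(σ⁻¹ : ℂ ≃+* ℂ) (x : ℂ), hN σ⁻¹ hσ' x x.2⟩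
          left_inv := fun x => Subtype.ext (σ.symm_apply_apply (x : ℂ))
          right_inv := fun x => Subtype.ext (σ.apply_symm_apply (x : ℂ))
          map_mul' := fun x y => Subtype.ext (map_mul σ (x : ℂ) (y : ℂ))
          map_add' := fun x y => Subtype.ext (map_add σ (x : ℂ) (y : ℂ)) }) ?_, ?_⟩
      · intro r
        apply Subtype.ext
        exact hσ (r : ℂ) r.2
      · intro x
        rfl
    intro σ τ hσ hτ x hx
    obtain ⟨s, hs⟩ := key σ hσ
    obtain ⟨t, ht⟩ := key τ hτ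
    have h1 := congrArg (fun g : (IntermediateField.extendScalars h) ≃ₐ[k]
      (IntermediateField.extendScalars h) =>
        ((g (⟨x, hx⟩ : IntermediateField.extendScalars h) : _) : ℂ)) (hc s t)
    simp only [AlgEquiv.mul_apply, hs, ht] at h1
    exact h1
  · rintro ⟨hN, hC⟩
    refine ⟨hk, (hNRM k K hK hk).2 hN, ?_⟩
    have key : ∀ s : (IntermediateField.extendScalars hk) ≃ₐ[k]
        (IntermediateField.extendScalars hk), ∃ σ : ℂ ≃+* ℂ, Fixes k σ ∧
          ∀ x : IntermediateField.extendScalars hk, ((s x : _) : ℂ) = σ (x : ℂ) := by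
      intro s
      obtain ⟨σ, hσ⟩ := MUXU.u_AUE K hK
        { toFun := fun x => ((s ⟨(x : ℂ), x.2⟩ : IntermediateField.extendScalars hk) : ℂ)
          map_one' := by
            have : s (1 : IntermediateField.extendScalars hk) = 1 := map_one s
            exact congrArg Subtype.val this
          map_mul' := fun x y => congrArg Subtype.val
            (map_mul s (⟨(x : ℂ), x.2⟩ : IntermediateField.extendScalars hk) ⟨(y : ℂ), y.2⟩)
          map_zero' := by
            have : s (0 : IntermediateField.extendScalars hk) = 0 := map_zero s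
            exact congrArg Subtype.val this
          map_add' := fun x y => congrArg Subtype.val
            (map_add s (⟨(x : ℂ), x.2⟩ : IntermediateField.extendScalars hk) ⟨(y : ℂ), y.2⟩) }
      refine ⟨σ, ?_, ?_⟩
      · intro x hx
        have h1 := hσ ⟨x, hk hx⟩
        have h2 : s (algebraMap k (IntermediateField.extendScalars hk) ⟨x, hx⟩) =
          algebraMap k (IntermediateField.extendScalars hk) ⟨x, hx⟩ := s.commutes ⟨x, hx⟩
        have h3 := congrArg Subtype.val h2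
        exact h1.trans h3
      · intro x
        exact (hσ ⟨(x : ℂ), x.2⟩).symm
    intro s t
    obtain ⟨σ, hσ, hs⟩ := key s
    obtain ⟨τ, hτ, ht⟩ := key t
    apply AlgEquiv.ext
    intro x
    apply Subtype.ext
    rw [AlgEquiv.mul_apply, AlgEquiv.mul_apply, hs, ht, ht, hs]
    exact hC σ τ hσ hτ x x.2

/-- adjoining the `p`-th roots of unity to an abelian extension -/
theorem abE_zeta (hNRM : Sb_NRM) (p : ℕ) (hp : 0 < p) {k K : IntermediateField ℚ ℂ}
    [FiniteDimensional ℚ K] (h : AbE k K) (ζ : ℂ) (hζ : IsPrimitiveRoot ζ p) :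
    FiniteDimensional ℚ ↥(K ⊔ IntermediateField.adjoin ℚ {ζ}) ∧
      AbE k (K ⊔ IntermediateField.adjoin ℚ {ζ}) := by
  have hk : k ≤ K := h.1
  have hint : IsIntegral ℚ ζ := by
    have : IsIntegral ℤ ζ := hζ.isIntegral hp
    exact this.tower_top
  have hfdz : FiniteDimensional ℚ (IntermediateField.adjoin ℚ ({ζ} : Set ℂ)) :=
    IntermediateField.adjoin.finiteDimensional hint
  have hfd : FiniteDimensional ℚ ↥(K ⊔ IntermediateField.adjoin ℚ ({ζ} : Set ℂ)) :=
    IntermediateField.finiteDimensional_sup K (IntermediateField.adjoin ℚ ({ζ} : Set ℂ))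
  refine ⟨hfd, ?_⟩
  obtain ⟨hN, hC⟩ := (abE_iff hNRM hk inferInstance).1 h
  rw [abE_iff hNRM (hk.trans le_sup_left) inferInstance]
  refine ⟨nrm_sup hN (zeta_nrm p ζ hζ hp k), cmt_sup hC (cmt_adj ?_)⟩
  intro σ τ x hx
  rw [Set.mem_singleton_iff] at hx
  rw [hx]
  exact zeta_cmt p σ τ ζ hζ hp

end

end Pool.Agent.VB


end

section

/-!
# VB: from the bounds to the finiteness of the unramified extensions (helper51)

`k` imaginary quadratic, `p = 2, 3`. If the `p`-parts of the class numbers of the layers are bounded by a polynomial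
for ALL finite abelian extensions of `k` then the cyclotomic `ℤ_p`-extension of every finite abelian extension `K` of `k`
(more generally: of every subfield `K` of a finite abelian extension of `k`) has only finitely many unramified
Galois extensions of degree `p`.
-/

set_option autoImplicit false

open NumberField IsDedekindDomain

namespace Pool.Agent.VB

open _root_.Pool.Agent.RI

/-- the `p`-th roots of unity may be adjoined -/
theorem V_third (hFNP : Sb_FNP) (hRED : Sb_RED) (hNRM : Sb_NRM) (hTCQ : Sb_TCQ) (p : ℕ)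
    (hp : p = 2 ∨ p = 3) (k : IntermediateField ℚ ℂ) (hk : Module.finrank ℚ k = 2)
    (him : ∃ z ∈ k, (starRingEnd ℂ) z ≠ z)
    (hall : ∀ (K : IntermediateField ℚ ℂ) [FiniteDimensional ℚ K], AbE k K →
      ∃ C : ℕ, ∀ (n : ℕ) (Q : IntermediateField ℚ ℂ), IsLayer p n Q →
        padicValNat p (classNo (K ⊔ Q)) ≤ C * (n + 1) ^ C)
    (K M : IntermediateField ℚ ℂ) [FiniteDimensional ℚ M] (hM : AbE k M) (hKM : K ≤ M) :
    (UM p (cyc p K)).Finite := by
  have hp0 : 0 < p := by rcases hp with rfl | rfl <;> norm_num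
  have hζ : IsPrimitiveRoot (Complex.exp (2 * Real.pi * Complex.I / p)) p :=
    Complex.isPrimitiveRoot_exp p hp0.ne'
  obtain ⟨hfd, hab⟩ := abE_zeta hNRM p hp0 hM _ hζ
  exact V_UMF hFNP hRED p hp K _ (hKM.trans le_sup_left)
    (hTCQ k _ hk him (hM.1.trans le_sup_left))
    ⟨_, (le_sup_right : _ ≤ M ⊔ IntermediateField.adjoin ℚ _)
      (IntermediateField.mem_adjoin_simple_self ℚ _), hζ⟩ (hall _ hab)

end Pool.Agent.VB


end
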