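import Mathlib
import Pool.Agent.MVF.C031
import Pool.Agent.MVF.C089
import Pool.Agent.MVF.C093
import Pool.Agent.MVF.C094

/-! Parts: ME.C_UNQ, MU3.N_Q, MU3.N_STEP, MU3.N_AMB, MU3.N_NUM, MUX.K_FINX -/

namespace MU3.Amb
end MU3.Amb
namespace MU3.NQ
end MU3.NQ
namespace MU3.NStep
end MU3.NStep
namespace Pool.Agent.MEC.UNQ
end Pool.Agent.MEC.UNQ
namespace Pool.Agent.MUXK.Finx
end Pool.Agent.MUXK.Finx

section

/-!
# ME, block CE (port of `MUX/C_X.lean`), module UNQ (helper96): uniqueness of the class of the ideal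
-/

set_option autoImplicit false

namespace Pool.Agent.MEC

open _root_.Pool.Agent.ME
open _root_.Pool.Agent.MUXC (Sc_CLF Sc_COP Sc_TRO Sc_GEN Sc_ENO Sc_INV Sc_QCR Sc_QEX Sc_QNE Sc_ISL Sc_FEX
  Sc_RP1 Sc_RP2 Sc_RP3 Sc_REP Sc_DNX Sc_NMC)
open _root_.MU3 _root_.Pool.Agent.MU3A _root_.Pool.Agent.MU3B _root_.Pool.Agent.MUX _root_.Pool.Agent.MUXU _root_.Pool.Agent.RI

noncomputable section

namespace UNQ

variable {A B : ℤ}

/-- the multiplier `mu' / mu` maps `a` into `a'` -/
theorem _root_.Pool.Agent.MEC.UNQ.step (h : CQ A B) (hE : Sc_ENO) (hI : Sc_INV) {b : Ideal (OO A B)} {L : PeriodPair}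
    {om : ℂ} (hL : IsLI b L om) {L' : PeriodPair} {a a' : Ideal (OO A B)} {mu mu' : ℂ}
    (hq : IsQ a L L' mu) (hq' : IsQ a' L L' mu') (hg : Isg L L' mu') (ha' : a' ≠ ⊥) :
    ∀ α ∈ a, ∃ α₁ ∈ a', mu' * emb α = mu * emb α₁ := by
  intro α hα
  have hmu := hq.1
  have e0 : ∀ z : ℂ, mu * (mu' / mu * z) = mu' * z := by
    intro z
    field_simp
  have h1 : ∀ z : ℂ, mu' * z ∈ L'.lattice → mu' / mu * emb α * z ∈ L.lattice := by
    intro z hz
    rw [← e0] at hz
    have := (hq.2 _).1 hz α hα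
    have e : mu' / mu * emb α * z = emb α * (mu' / mu * z) := by ring
    rw [e]
    exact this
  obtain ⟨α₁, hα₁⟩ := hE A B h b L om hL (mu' / mu * emb α) (fun z hz => h1 z (hg z hz))
  refine ⟨α₁, hI A B h b L om hL a' ha' α₁ ?_, ?_⟩
  · intro z hz
    rw [← hα₁]
    exact h1 z ((hq'.2 z).2 hz)
  · rw [← hα₁]
    field_simp

end UNQ

open _root_.Pool.Agent.MEC.UNQ in
/-- (UNQ) uniqueness of the class of the ideal. -/
theorem tc_UNQ (hQ : Sc_QNE) (hE : Sc_ENO) (hI : Sc_INV) (hG : Sc_GEN) (hP : Su_EQP) :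
    Sc_UNQ := by
  intro A B h m a a' σ L L' mu mu' hm hn hA hA'
  obtain ⟨b, om, hNL⟩ := hn
  have hL := hNL.toIsLI
  have hcm := IsLI.hasCM h hL
  obtain ⟨ha, hg, -⟩ := hQ A B h a L L' mu hcm hA.isq
  obtain ⟨ha', hg', -⟩ := hQ A B h a' L L' mu' hcm hA'.isq
  have hmu := hA.isq.1
  have hmu' := hA'.isq.1
  have s1 := _root_.Pool.Agent.MEC.UNQ.step h hE hI hL hA.isq hA'.isq hg' ha'
  have s2 := _root_.Pool.Agent.MEC.UNQ.step h hE hI hL hA'.isq hA.isq hg ha
  have hy : ∃ y ∈ a, y ≠ 0 ∧ 1 - y ∈ m := by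
    obtain ⟨y, hy, β, hβ, hyβ⟩ := Ideal.isCoprime_iff_exists.1 hA.cop
    by_cases hy0 : y = 0
    · rw [hy0, zero_add] at hyβ
      rw [hyβ] at hβ
      have hmt : m = ⊤ := (Ideal.eq_top_iff_one m).2 hβ
      obtain ⟨y', hy', hy0'⟩ := Submodule.exists_mem_ne_zero_of_ne_bot ha
      exact ⟨y', hy', hy0', by rw [hmt]; trivial⟩
    · refine ⟨y, hy, hy0, ?_⟩
      have : 1 - y = β := by rw [← hyβ]; ring
      rw [this]
      exact hβ
  obtain ⟨y, hya, hy0, hym⟩ := hy
  obtain ⟨x, hxa, hx⟩ := s1 y hya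
  have hey : emb y ≠ 0 := _root_.Pool.Agent.MUX.emb_ne_zero h hy0
  have hx0 : x ≠ 0 := by
    rintro rfl
    rw [_root_.Pool.Agent.MUX.emb_zero h, mul_zero] at hx
    exact mul_ne_zero hmu' hey hx
  -- the difference
  have hxy : x - y ∈ m := by
    obtain ⟨u, hu, hu2, -⟩ := hG A B h b m L om hL hm
    have p1 := hA.act u hu
    have p2 := hA'.act u hu
    have hd : mu * u - mu' * u ∈ L'.lattice := by
      rcases p1 with ⟨q1, q2⟩ | ⟨q1, q2, q3, q4⟩
      · rcases p2 with ⟨-, r2⟩ | ⟨r1, -⟩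
        · exact sub_mem q2 r2
        · exact absurd q1 r1
      · rcases p2 with ⟨r1, -⟩ | ⟨-, r2, r3, r4⟩
        · exact absurd r1 q1
        · refine hP L' _ _ q2 r2 ?_ ?_
          · have := q3.symm.trans r3
            unfold xnE at this
            linear_combination this
          · have := q4.symm.trans r4
            unfold yy at this
            linear_combination 2 * this
    have e1 : mu * u - mu' * u = mu * (u - mu' / mu * u) := by
      field_simp
    rw [e1] at hd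
    have h3 := (hA.isq.2 _).1 hd y hya
    have e2 : emb y * (u - mu' / mu * u) = emb (y - x) * u := by
      rw [_root_.Pool.Agent.MUX.emb_sub h]
      have e3 : mu' / mu * emb y = emb x := by
        rw [div_mul_eq_mul_div, hx]
        field_simp
      linear_combination -u * e3
    rw [e2] at h3
    have h4 := (hu2 _).1 h3
    have e5 : x - y = -(y - x) := by ring
    rw [e5]
    exact neg_mem h4
  refine ⟨x, y, ?_, hx0, hy0, hxy, ?_, ?_⟩
  · rw [Ideal.isCoprime_iff_exists]
    refine ⟨x, Ideal.mem_span_singleton_self x, 1 - x, ?_, by ring⟩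
    have e : 1 - x = (1 - y) - (x - y) := by ring
    rw [e]
    exact sub_mem hym hxy
  · apply le_antisymm
    · rw [Ideal.span_singleton_mul_le_iff]
      intro α hα
      obtain ⟨α₁, hα₁, e⟩ := s1 α hα
      rw [Ideal.mem_span_singleton_mul]
      refine ⟨α₁, hα₁, ?_⟩
      apply _root_.Pool.Agent.MUX.emb_inj h
      rw [_root_.Pool.Agent.MUX.emb_mul h, _root_.Pool.Agent.MUX.emb_mul h]
      apply mul_left_cancel₀ hmu
      linear_combination emb α * hx - emb y * e
    · rw [Ideal.span_singleton_mul_le_iff]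
      intro α hα
      obtain ⟨α₁, hα₁, e⟩ := s2 α hα
      rw [Ideal.mem_span_singleton_mul]
      refine ⟨α₁, hα₁, ?_⟩
      apply _root_.Pool.Agent.MUX.emb_inj h
      rw [_root_.Pool.Agent.MUX.emb_mul h, _root_.Pool.Agent.MUX.emb_mul h]
      apply mul_left_cancel₀ hmu
      linear_combination (-emb α₁) * hx - emb y * e
  · rw [← hx]
    field_simp

end

end Pool.Agent.MEC


end

section

/-!
# MU3, section 4: the action of an automorphism on the class group (helper3)
-/

open NumberField Finset IsDedekindDomain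
open scoped nonZeroDivisors Pointwise

namespace MU3

open _root_.Pool.Agent.RI _root_.Pool.Agent.RID

namespace NQ

variable {F L : Type} [Field F] [Field L] [NumberField L] [Algebra F L]

/-- the action on the class group -/
noncomputable def gC (g : L ≃ₐ[F] L) : (J L ⧸ PI L) →* (J L ⧸ PI L) :=
  QuotientGroup.map (PI L) (PI L) (MulDistribMulAction.toMonoidHom (J L) g) (by
    rintro _ ⟨x, rfl⟩
    rw [Subgroup.mem_comap]
    exact ⟨g • x, (smul_prin g x).symm⟩)

/-- the class group, additive -/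
def ClA (L : Type) [Field L] [NumberField L] : Type := Additive (J L ⧸ PI L)

noncomputable instance (L : Type) [Field L] [NumberField L] : AddCommGroup (ClA L) :=
  inferInstanceAs (AddCommGroup (Additive (J L ⧸ PI L)))

instance (L : Type) [Field L] [NumberField L] : Finite (ClA L) := CL.finite_quot L

/-- the same, additive -/
noncomputable def gA (g : L ≃ₐ[F] L) : AddMonoid.End (ClA L) :=
  MonoidHom.toAdditive (gC g)

/-- the class of an ideal, additive -/
noncomputable def cl (b : J L) : ClA L :=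
  Additive.ofMul (QuotientGroup.mk b : J L ⧸ PI L)

lemma cl_surj (x : ClA L) : ∃ b : J L, cl b = x := by
  obtain ⟨b, hb⟩ := QuotientGroup.mk_surjective (Additive.toMul x)
  exact ⟨b, by rw [cl, hb]; rfl⟩

lemma cl_mul (b c : J L) : cl (b * c) = cl b + cl c := rfl

lemma cl_one : cl (1 : J L) = 0 := rfl

lemma cl_inv (b : J L) : cl b⁻¹ = -cl b := rfl

lemma cl_pow (b : J L) (k : ℕ) : cl (b ^ k) = k • cl b := rfl

lemma cl_div (b c : J L) : cl (b / c) = cl b - cl c := rfl

lemma cl_eq_zero (b : J L) : cl b = 0 ↔ b ∈ PI L := by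
  rw [cl]
  exact QuotientGroup.eq_one_iff b

lemma cl_prin (x : Lˣ) : cl (prin x : J L) = 0 := (cl_eq_zero _).2 ⟨x, rfl⟩

lemma gA_cl (g : L ≃ₐ[F] L) (b : J L) : gA g (cl b) = cl (g • b) := rfl

lemma gA_pow_cl (g : L ≃ₐ[F] L) (k : ℕ) (b : J L) : (gA g ^ k) (cl b) = cl (g ^ k • b) := by
  induction k generalizing b with
  | zero => rw [pow_zero, pow_zero, one_smul]; rfl
  | succ k ih =>
    have : (gA g ^ (k + 1)) (cl b) = (gA g ^ k) (gA g (cl b)) := by rw [pow_succ]; rfl
    rw [this, gA_cl, ih, pow_succ, mul_smul]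

lemma T_cl (g : L ≃ₐ[F] L) (b : J L) : (gA g - 1 : AddMonoid.End (ClA L)) (cl b) = -cl (dg g b) := by
  have h1 : (gA g - 1 : AddMonoid.End (ClA L)) (cl b) = gA g (cl b) - cl b := rfl
  rw [h1, gA_cl, dg_apply, cl_div]
  abel

lemma T_pow_cl (g : L ≃ₐ[F] L) (l : ℕ) (b : J L) :
    ((gA g - 1 : AddMonoid.End (ClA L)) ^ l) (cl b) = cl ((dg g)^[l] b) ∨
      ((gA g - 1 : AddMonoid.End (ClA L)) ^ l) (cl b) = -cl ((dg g)^[l] b) := by
  induction l generalizing b with
  | zero => left; rfl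
  | succ l ih =>
    have h1 : ((gA g - 1 : AddMonoid.End (ClA L)) ^ (l + 1)) (cl b) =
        ((gA g - 1 : AddMonoid.End (ClA L)) ^ l) ((gA g - 1 : AddMonoid.End (ClA L)) (cl b)) := by
      rw [pow_succ]; rfl
    rw [h1, T_cl, map_neg, Function.iterate_succ_apply]
    rcases ih (dg g b) with h | h
    · right; rw [h]
    · left; rw [h, neg_neg]

lemma card_tors (p : ℕ) : Nat.card {x : ClA L // p • x = 0} =
    Nat.card {c : J L ⧸ PI L // c ^ p = 1} :=
  Nat.card_congr (Equiv.subtypeEquiv Additive.toMul (fun _ => Iff.rfl))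

lemma card_all : Nat.card (ClA L) = NumberField.classNumber L := by
  rw [CL.classNumber_eq L]
  rfl

lemma card_ker (g : L ≃ₐ[F] L) :
    Nat.card (AddMonoidHom.ker (gA g - 1 : AddMonoid.End (ClA L))) =
      (PI L).relIndex ((PI L).comap (dg g)) := by
  have hPU : PI L ≤ (PI L).comap (dg g) := by
    rintro _ ⟨x, rfl⟩
    rw [Subgroup.mem_comap]
    refine ⟨x / g • x, ?_⟩
    rw [map_div, dg_apply, smul_prin]
  have h1 : Nat.card ↥(((PI L).comap (dg g)).map (QuotientGroup.mk' (PI L))) =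
      (PI L).relIndex ((PI L).comap (dg g)) := by
    rw [← Subgroup.relIndex_bot_left, ← Subgroup.map_bot (QuotientGroup.mk' (PI L)),
      Subgroup.relIndex_map_map, QuotientGroup.ker_mk', bot_sup_eq, sup_eq_left.2 hPU]
  rw [← h1]
  apply Nat.card_congr
  refine Equiv.subtypeEquiv Additive.toMul ?_
  intro a
  obtain ⟨b, rfl⟩ := cl_surj a
  have h2 : cl b ∈ AddMonoidHom.ker (gA g - 1 : AddMonoid.End (ClA L)) ↔
      dg g b ∈ PI L := by
    rw [← cl_eq_zero, ← neg_eq_zero, AddMonoidHom.mem_ker]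
    constructor
    · intro h
      exact (T_cl g b).symm.trans h
    · intro h
      exact (T_cl g b).trans h
  rw [h2]
  constructor
  · intro h
    exact ⟨b, h, rfl⟩
  · rintro ⟨c, hc, hbc⟩
    have h3 : c⁻¹ * b ∈ PI L := QuotientGroup.eq.1 hbc
    have h4 : c * (c⁻¹ * b) ∈ (PI L).comap (dg g) := mul_mem hc (hPU h3)
    rw [mul_inv_cancel_left] at h4
    exact h4

end NQ

open _root_.MU3.NQ in
theorem n_NILR (h : N_NIL) : N_NILR := by
  intro p l _ F L _ _ _ _ g hb
  have h1 := h p l (ClA L) (gA g) (by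
    intro x
    obtain ⟨b, rfl⟩ := cl_surj x
    obtain ⟨y, z, hy⟩ := hb b
    have h2 : cl ((dg g)^[l] b) = p • cl y := by
      rw [hy, cl_mul, cl_prin, add_zero, cl_pow]
    rcases T_pow_cl g l b with h3 | h3
    · exact ⟨cl y, by rw [h3, h2]⟩
    · exact ⟨-cl y, by rw [h3, h2, smul_neg]⟩)
  rw [card_tors, card_ker] at h1
  exact h1

end MU3


end

section

/-!
# MU3N_STEP: one step of the tower (helper3)
-/

open NumberField Finset IsDedekindDomain
open scoped nonZeroDivisors Pointwise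

namespace MU3

open _root_.Pool.Agent.RI _root_.Pool.Agent.RID

namespace NStep

open _root_.MU3.NQ

lemma padic_mono (p : ℕ) [Fact p.Prime] {a b : ℕ} (hb : b ≠ 0) (h : a ∣ b) :
    padicValNat p a ≤ padicValNat p b := by
  obtain ⟨c, rfl⟩ := h
  have ha : a ≠ 0 := by rintro rfl; simp at hb
  have hc : c ≠ 0 := by rintro rfl; simp at hb
  rw [padicValNat.mul ha hc]
  omega

lemma sum_apply {A : Type} [AddCommGroup A] (s : Finset ℕ) (f : ℕ → AddMonoid.End A) (x : A) :
    (∑ j ∈ s, f j) x = ∑ j ∈ s, f j x := by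
  classical
  induction s using Finset.induction_on with
  | empty => rfl
  | insert a s ha ih =>
    rw [Finset.sum_insert ha, Finset.sum_insert ha, ← ih]
    rfl

lemma cl_prod {L : Type} [Field L] [NumberField L] (s : Finset ℕ) (f : ℕ → J L) :
    cl (∏ j ∈ s, f j) = ∑ j ∈ s, cl (f j) := by
  classical
  induction s using Finset.induction_on with
  | empty => rfl
  | insert a s ha ih =>
    rw [Finset.prod_insert ha, Finset.sum_insert ha, ← ih, cl_mul]

/-- extension of ideal classes -/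
noncomputable def eC (M L : Type) [Field M] [NumberField M] [Field L] [NumberField L]
    [Algebra M L] : (J M ⧸ PI M) →* (J L ⧸ PI L) :=
  QuotientGroup.map (PI M) (PI L) (ext M L) (by
    rintro _ ⟨x, rfl⟩
    rw [Subgroup.mem_comap, ext_prin]
    exact ⟨_, rfl⟩)

/-- the same, additive -/
noncomputable def eA (M L : Type) [Field M] [NumberField M] [Field L] [NumberField L]
    [Algebra M L] : ClA M →+ ClA L := MonoidHom.toAdditive (eC M L)

lemma eA_cl (M L : Type) [Field M] [NumberField M] [Field L] [NumberField L]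
    [Algebra M L] (b : J M) : eA M L (cl b) = cl (ext M L b) := rfl

end NStep

open _root_.MU3.NQ _root_.MU3.NStep in
theorem n_STEP : N_STEP := by
  intro p m _ F M L _ _ _ _ _ _ _ _ _ _ g hg hcyc hlt
  obtain ⟨hgal, -, -, -, -, -, hng, -, -, -, -⟩ := t_CYC F M L (g ^ (p ^ m)) p hcyc
  have hγ : (gA g : AddMonoid.End (ClA L)) ^ (p ^ (m + 1)) = 1 := by
    apply AddMonoidHom.ext
    intro x
    obtain ⟨b, rfl⟩ := cl_surj x
    have h1 := gA_pow_cl g (p ^ (m + 1)) b
    rw [hg, one_smul] at h1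
    exact h1
  have hr : padicValNat p (Nat.card {x : ClA L // p • x = 0}) = rkp p L := by
    rw [card_tors]
    rfl
  have h2 := t_ALG2 p m (ClA L) (gA g) hγ (by rw [hr]; exact hlt)
  rw [hr, card_all] at h2
  have hle : AddMonoidHom.range (∑ j ∈ range p, gA g ^ (p ^ m * j) : AddMonoid.End (ClA L)) ≤
      AddMonoidHom.range (eA M L) := by
    rintro _ ⟨x, rfl⟩
    obtain ⟨b, rfl⟩ := cl_surj x
    obtain ⟨c, hc⟩ := CL.nm_mem (F := M) b
    have h3 : (∑ j ∈ range p, gA g ^ (p ^ m * j) : AddMonoid.End (ClA L)) (cl b) =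
        cl (ng (g ^ (p ^ m)) p b) := by
      rw [NStep.sum_apply, ng_apply, cl_prod]
      apply Finset.sum_congr rfl
      intro j _
      rw [gA_pow_cl, pow_mul]
    have h4 : (∑ j ∈ range p, gA g ^ (p ^ m * j) : AddMonoid.End (ClA L)) (cl b) =
        eA M L (cl c) := by
      rw [h3, hng b, eA_cl, hc]
      rfl
    exact ⟨cl c, h4.symm⟩
  have hd1 : Nat.card (AddMonoidHom.range
      (∑ j ∈ range p, gA g ^ (p ^ m * j) : AddMonoid.End (ClA L))) ∣
      Nat.card (AddMonoidHom.range (eA M L)) := AddSubgroup.card_dvd_of_le hle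
  have hd2 : Nat.card (AddMonoidHom.range (eA M L)) ∣ NumberField.classNumber M := by
    rw [← card_all (L := M)]
    exact AddSubgroup.card_range_dvd (eA M L)
  have hcn : NumberField.classNumber M ≠ 0 := by
    rw [NumberField.classNumber]
    exact Fintype.card_ne_zero
  exact h2.trans (Nat.add_le_add_right (padic_mono p hcn (hd1.trans hd2)) _)

end MU3


end

section

/-!
# MU3N_AMB: ambiguous class number formula, upper bound (helper3)
-/

open NumberField Finset IsDedekindDomain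
open scoped nonZeroDivisors Pointwise

namespace MU3

open _root_.Pool.Agent.RI _root_.Pool.Agent.RID

namespace Amb

lemma padic_le (p : ℕ) [hp : Fact p.Prime] {m s : ℕ} (h0 : m ≠ 0) (h : m ≤ p ^ s) :
    padicValNat p m ≤ s := by
  have h1 : p ^ padicValNat p m ≤ m := Nat.le_of_dvd (Nat.pos_of_ne_zero h0) pow_padicValNat_dvd
  exact (Nat.pow_le_pow_iff_right hp.out.one_lt).1 (h1.trans h)

lemma padic_mono (p : ℕ) [Fact p.Prime] {a b : ℕ} (hb : b ≠ 0) (h : a ∣ b) :
    padicValNat p a ≤ padicValNat p b := by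
  obtain ⟨c, rfl⟩ := h
  have ha : a ≠ 0 := by rintro rfl; simp at hb
  have hc : c ≠ 0 := by rintro rfl; simp at hb
  rw [padicValNat.mul ha hc]
  omega

end Amb

open _root_.MU3.Amb in
theorem n_AMB (h1 : N_AMBA) (h2 : N_AMBI) (h3 : N_AMBU) : N_AMB := by
  intro p a _ F K L _ _ _ _ _ _ _ _ _ _ g hg S hS
  obtain ⟨hgal, hfr, -, hH90, hfixA, hfixJ, -, -, hgext, hgu, -⟩ := t_CYC F K L g (p ^ a) hg
  have hgq : g ^ (p ^ a) = 1 := by
    rw [← hg.ord]
    exact pow_orderOf_eq_one g
  set P : Subgroup (J L) := PI L with hP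
  set U : Subgroup (J L) := P.comap (dg g) with hU
  set V : Subgroup (J L) := (dg g : J L →* J L).ker with hV
  set X : Subgroup (J L) := (ext K L).range with hX
  have hdv : ∀ x : Lˣ, (prin : Lˣ →* J L) (g • x) = g • (prin x : J L) := fun x =>
    (smul_prin g x).symm
  -- finiteness
  haveI : Finite (J L ⧸ P) := CL.finite_quot L
  have hPfin : P.FiniteIndex := Subgroup.finiteIndex_of_finite_quotient
  -- containments
  have hPU : P ≤ U := by
    rintro _ ⟨x, rfl⟩
    rw [hU, Subgroup.mem_comap]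
    refine ⟨x / g • x, ?_⟩
    rw [map_div, hdv]
    rfl
  have hVU : V ≤ U := by
    intro b hb
    rw [hU, Subgroup.mem_comap]
    rw [hV, MonoidHom.mem_ker] at hb
    rw [hb]
    exact one_mem _
  have hXV : X ≤ V := by
    rintro _ ⟨c, rfl⟩
    rw [hV, mem_dg_ker]
    exact hgext c
  have hU1 : P ≤ P ⊔ X := le_sup_left
  have hU0 : P ⊔ X ≤ P ⊔ V := sup_le_sup_left hXV P
  have hUU : P ⊔ V ≤ U := sup_le hPU hVU
  -- multiplicativity
  have m1 : P.relIndex (P ⊔ X) * (P ⊔ X).relIndex (P ⊔ V) = P.relIndex (P ⊔ V) :=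
    Subgroup.relIndex_mul_relIndex P (P ⊔ X) (P ⊔ V) hU1 hU0
  have m2 : P.relIndex (P ⊔ V) * (P ⊔ V).relIndex U = P.relIndex U :=
    Subgroup.relIndex_mul_relIndex P (P ⊔ V) U le_sup_left hUU
  have n0 : P.relIndex U ≠ 0 := Subgroup.FiniteIndex.index_ne_zero
  have n1 : P.relIndex (P ⊔ V) ≠ 0 := Subgroup.FiniteIndex.index_ne_zero
  have n2 : P.relIndex (P ⊔ X) ≠ 0 := Subgroup.FiniteIndex.index_ne_zero
  have n3 : (P ⊔ X).relIndex (P ⊔ V) ≠ 0 := by
    intro h; rw [h, mul_zero] at m1; exact n1 m1.symm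
  have n4 : (P ⊔ V).relIndex U ≠ 0 := by
    intro h; rw [h, mul_zero] at m2; exact n0 m2.symm
  -- units
  have d4 : (P ⊔ V).relIndex U ∣
      ((prin : Lˣ →* J L).ker.map (ng g (p ^ a))).relIndex ((prin : Lˣ →* J L).ker ⊓ (dg g).ker) :=
    h1 (p ^ a) Lˣ (J L) (L ≃ₐ[F] L) (prin : Lˣ →* J L) g hgq hdv hH90
  obtain ⟨k1, k2⟩ := h3 F K L g (p ^ a) hg
  have b4 : padicValNat p ((P ⊔ V).relIndex U) ≤ a * (NumberField.Units.rank K + 1) := by
    apply padic_le p n4
    rw [pow_mul]
    exact (Nat.le_of_dvd (Nat.pos_of_ne_zero k1) d4).trans k2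
  -- ideals
  obtain ⟨k3, k4⟩ := h2 F K L g (p ^ a) hg S hS
  have d3 : (P ⊔ X).relIndex (P ⊔ V) ∣ X.relIndex V := by
    have e1 : (P ⊔ X).relIndex (P ⊔ V) = (P ⊔ X).relIndex V := by
      have : P ⊔ V = V ⊔ (P ⊔ X) := by
        apply le_antisymm
        · exact sup_le (le_sup_left.trans le_sup_right) le_sup_left
        · exact sup_le le_sup_right hU0
      rw [this]
      exact Subgroup.relIndex_sup_right V (P ⊔ X)
    rw [e1]
    exact Subgroup.relIndex_dvd_of_le_left V (le_sup_right : X ≤ P ⊔ X)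
  have b3 : padicValNat p ((P ⊔ X).relIndex (P ⊔ V)) ≤ a * S.card := by
    apply padic_le p n3
    rw [pow_mul]
    exact (Nat.le_of_dvd (Nat.pos_of_ne_zero k3) d3).trans k4
  -- class number of K
  have d2 : P.relIndex (P ⊔ X) ∣ NumberField.classNumber K := by
    rw [CL.classNumber_eq K]
    have e1 : P.relIndex (P ⊔ X) = P.relIndex X := by
      rw [sup_comm]
      exact Subgroup.relIndex_sup_right X P
    have e2 : Nat.card (J K ⧸ (prin (K := K)).range) = (PI K).index := rfl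
    rw [e1, e2]
    have e3 : P.relIndex X = (P.comap (ext K L)).index := (Subgroup.index_comap P (ext K L)).symm
    rw [e3]
    apply Subgroup.index_dvd_of_le
    rintro _ ⟨x, rfl⟩
    rw [Subgroup.mem_comap, ext_prin]
    exact ⟨_, rfl⟩
  have hcn : NumberField.classNumber K ≠ 0 := by
    rw [NumberField.classNumber]
    exact Fintype.card_ne_zero
  have b2 := padic_mono p hcn d2
  rw [← m2, ← m1, padicValNat.mul (mul_ne_zero n2 n3) n4, padicValNat.mul n2 n3]
  have : a * (S.card + NumberField.Units.rank K + 1) =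
      a * S.card + a * (NumberField.Units.rank K + 1) := by ring
  omega

end MU3


end

section

/-!
# MU3, section 4, module NUM: summation (from P_REC with `D = 1`, `k = 1`)
-/

set_option autoImplicit false

namespace MU3

theorem n_NUM : N_NUM := by
  intro p l c₀ c₁ _ v r h1 h2
  refine p_REC p 1 (l * (c₀ + c₁)) 1 v r (fun n => (h1 n).trans ?_)
    (fun n h => h2 n (by rwa [mul_one] at h))
  rw [mul_assoc, pow_one]
  refine Nat.mul_le_mul_left l ?_
  nlinarith [Nat.zero_le (n * c₀), Nat.zero_le c₁]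

end MU3


end

section

/-!
# MUXK_FINX (helper7): the result of section 4 with the hypothesis `deg`

Adapted from `Pool/Agent/MU3/N_FIN.lean`.
-/

set_option autoImplicit false

open NumberField Finset IsDedekindDomain
open scoped nonZeroDivisors Pointwise

namespace Pool.Agent.MUXK

open _root_.Pool.Agent.RI _root_.Pool.Agent.RID

namespace Finx

lemma finS (p : ℕ) [hp : Fact p.Prime] (K : Type) [Field K] [NumberField K] :
    ∃ S : Finset (HeightOneSpectrum (𝓞 K)), ∀ v : HeightOneSpectrum (𝓞 K),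
      (p : 𝓞 K) ∈ v.asIdeal → v ∈ S := by
  have h0 : (Ideal.span {(p : 𝓞 K)} : Ideal (𝓞 K)) ≠ 0 := by
    rw [Ne, Ideal.zero_eq_bot, Ideal.span_singleton_eq_bot]
    exact_mod_cast hp.out.ne_zero
  have h1 := Ideal.finite_factors h0
  refine ⟨h1.toFinset, fun v hv => ?_⟩
  rw [Set.Finite.mem_toFinset, Set.mem_ofPred_eq, Ideal.dvd_span_singleton]
  exact hv

lemma classNo_eq (E : IntermediateField ℚ ℂ) [FiniteDimensional ℚ E] :
    classNo E = NumberField.classNumber E := by
  rw [classNo, NumberField.classNumber, Nat.card_eq_fintype_card]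

end Finx

open _root_.Pool.Agent.MUXK.Finx in
theorem t_FINX (hGEN : S_GENX) : S_FINX := by
  have hAMB := _root_.MU3.n_AMB _root_.MU3.n_AMBA _root_.MU3.n_AMBI _root_.MU3.n_AMBU
  have hNILR := _root_.MU3.n_NILR _root_.MU3.n_NIL
  have hSTEP := _root_.MU3.n_STEP
  have hNUM := _root_.MU3.n_NUM
  have hRAMP := _root_.MU3.n_RAMP
  intro p l _ k K _ B hk _ hdeg hB hmono hyp
  obtain ⟨S, hS⟩ := finS p K
  have : FiniteDimensional ℚ k :=
    FiniteDimensional.of_injective (IntermediateField.inclusion hk).toLinearMap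
      (IntermediateField.inclusion hk).injective
  set c₀ := padicValNat p (NumberField.classNumber K) with hc₀
  set c₁ := S.card + NumberField.Units.rank K + 1 with hc₁
  apply hNUM p l c₀ c₁ (fun n => padicValNat p (classNo (K ⊔ B n)))
    (fun n => _root_.MU3.rkp p ↥(K ⊔ B n))
  · intro n
    let aKL := algC (le_sup_left : K ≤ K ⊔ B n)
    let akK := algC hk
    let akL := algC (hk.trans le_sup_left : k ≤ K ⊔ B n)
    have : IsScalarTower k K ↥(K ⊔ B n) := towerC hk le_sup_left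
    obtain ⟨g, ord, fix, -⟩ := hGEN p k K B hk hdeg hB hmono n (hk.trans le_sup_left)
    have hcyc : CycExt k K ↥(K ⊔ B n) g (p ^ n) := by
      refine ⟨ord, fun x => ?_⟩
      rw [fix x]
      constructor
      · intro hx
        exact ⟨⟨(x : ℂ), hx⟩, rfl⟩
      · rintro ⟨y, rfl⟩
        exact Pool.Agent.FX.incl_mem _ y
    have h1 := hAMB p n k K ↥(K ⊔ B n) g hcyc S (by
      intro w hw
      have h2 := hRAMP p n K (B n) (hB n) w hw
      have hne : w.asIdeal.under (𝓞 K) ≠ ⊥ := by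
        intro h0
        rw [h0, Ideal.mem_bot] at h2
        have : p ≠ 0 := (Fact.out : p.Prime).ne_zero
        exact this (by exact_mod_cast h2)
      have := w.isPrime
      exact ⟨⟨w.asIdeal.under (𝓞 K), inferInstance, hne⟩, hS _ h2, rfl⟩)
    have h3 := hNILR p l k ↥(K ⊔ B n) g (hyp n _ g fix)
    exact h3.trans (Nat.mul_le_mul_left l h1)
  · intro m hlt
    have hle : K ⊔ B m ≤ K ⊔ B (m + 1) := sup_le_sup_left (hmono (Nat.le_succ m)) K
    let akM := algC (hk.trans le_sup_left : k ≤ K ⊔ B m)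
    let aML := algC hle
    let akL := algC (hk.trans le_sup_left : k ≤ K ⊔ B (m + 1))
    have : IsScalarTower k ↥(K ⊔ B m) ↥(K ⊔ B (m + 1)) := towerC _ hle
    obtain ⟨g, ord, -, hm⟩ := hGEN p k K B hk hdeg hB hmono (m + 1) (hk.trans le_sup_left)
    obtain ⟨ord', fix'⟩ := hm m (Nat.le_succ m)
    have hcyc : CycExt k ↥(K ⊔ B m) ↥(K ⊔ B (m + 1)) (g ^ (p ^ m)) p := by
      refine ⟨by rw [ord']; simp, fun x => ?_⟩
      rw [fix' x]
      constructor
      · intro hx
        exact ⟨⟨(x : ℂ), hx⟩, rfl⟩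
      · rintro ⟨y, rfl⟩
        exact Pool.Agent.FX.incl_mem _ y
    have hg1 : g ^ (p ^ (m + 1)) = 1 := by
      rw [← ord]
      exact pow_orderOf_eq_one g
    have h4 := hSTEP p m k ↥(K ⊔ B m) ↥(K ⊔ B (m + 1)) g hg1 hcyc hlt
    show padicValNat p (classNo (K ⊔ B (m + 1))) ≤
      padicValNat p (classNo (K ⊔ B m)) + _root_.MU3.rkp p ↥(K ⊔ B (m + 1))
    rw [classNo_eq, classNo_eq]
    exact h4

end Pool.Agent.MUXK


end
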