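import Mathlib.NumberTheory.NumberField.Ideal.Basic
import Pool.Agent.MVF.C060
import Pool.Agent.MVF.C066

/-! Parts: MUX.K_STABX, MUX.K_RSX, MUX.K_NRJ, MUX.K_LGX, MUX.K_LFX, MUX.K_ALGX -/

namespace Pool.Agent.MUXK.K_ALGX
end Pool.Agent.MUXK.K_ALGX
namespace Pool.Agent.MUXK.K_RSX
end Pool.Agent.MUXK.K_RSX
namespace Pool.Agent.MUXK.K_STABX
end Pool.Agent.MUXK.K_STABX
namespace Pool.Agent.MUXK.LFX
end Pool.Agent.MUXK.LFX
namespace Pool.Agent.MUXK.NRJ
end Pool.Agent.MUXK.NRJ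

section

/-!
# MUX, STABX: primes of degree one outside `S` are good (helper98)
-/

set_option autoImplicit false

open NumberField IsDedekindDomain Finset
open scoped nonZeroDivisors Pointwise

namespace Pool.Agent.MUXK

open _root_.Pool.Agent.MU3 _root_.Pool.Agent.RI _root_.Pool.Agent.RID

namespace K_STABX

theorem n_dvd {M : Type} [Field M] [NumberField M] (w : HeightOneSpectrum (𝓞 M)) {q n : ℕ}
    (hn : n ≠ 0) (hq : q.Prime) (h : Nat.card (𝓞 M ⧸ w.asIdeal) = q) (hc : q.Coprime n)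
    (ζ : 𝓞 M) (hζ : IsPrimitiveRoot ζ n) : n ∣ q - 1 := by
  have := w.isMaximal
  have : NeZero n := ⟨hn⟩
  let _ : Field (𝓞 M ⧸ w.asIdeal) := Ideal.Quotient.field w.asIdeal
  have : Finite (𝓞 M ⧸ w.asIdeal) := Nat.finite_of_card_ne_zero (by rw [h]; exact hq.ne_zero)
  have hN : Ideal.absNorm w.asIdeal = q := by
    rw [Ideal.absNorm_apply, Submodule.cardQuot_apply]
    exact h
  have hz := hζ.idealQuotient_mk (I := w.asIdeal) (by rw [hN]; exact hq.one_lt.ne')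
    (by rw [hN]; exact hc)
  set z : 𝓞 M ⧸ w.asIdeal := Ideal.Quotient.mk w.asIdeal ζ with hzd
  have hz0 : z ≠ 0 := hz.ne_zero hn
  have ho : orderOf (Units.mk0 z hz0) = n := by
    rw [← orderOf_units]
    exact hz.eq_orderOf.symm
  have := orderOf_dvd_natCard (Units.mk0 z hz0)
  rwa [ho, Nat.card_units, h] at this

end K_STABX

open _root_.Pool.Agent.MUXK.K_STABX P_STAB in
theorem t_STABX : S_STABX := by
  intro p _ k L M _ _ _ _ _ _ _ _ _ S ζ hζ h2S hpS hS hram lam q hq hqS hcard hab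
  have hna : ¬ Above S lam := not_above S hS lam hq hqS hcard
  obtain ⟨w, -, hw⟩ := hab
  have hp : p.Prime := Fact.out
  have hc2 : q.Coprime 2 := (Nat.coprime_primes hq Nat.prime_two).2 (fun e => hqS (e ▸ h2S))
  have hcp : q.Coprime p := (Nat.coprime_primes hq hp).2 (fun e => hqS (e ▸ hpS))
  have hdvd : 2 * p ∣ q - 1 :=
    n_dvd w (mul_ne_zero two_ne_zero hp.ne_zero) hq hw (Nat.Coprime.mul_right hc2 hcp) ζ hζ
  refine ⟨hq, hqS, hdvd, hcard, fun σ hσ => ?_⟩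
  have e1 := hram lam hna
  have := lam.isMaximal
  have := lam.isPrime
  set P : Ideal (𝓞 k) := lam.asIdeal.under (𝓞 k) with hP
  have : lam.asIdeal.LiesOver P := ⟨rfl⟩
  have : P.IsMaximal := Ideal.IsMaximal.under (𝓞 k) lam.asIdeal
  have hfin : Finite (𝓞 L ⧸ lam.asIdeal) :=
    Nat.finite_of_card_ne_zero (by rw [hcard]; exact hq.ne_zero)
  have hperf : PerfectField P.ResidueField := inferInstance
  have hc := Ideal.card_stabilizer_eq (G := L ≃ₐ[k] L) P lam.asIdeal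
  rw [Ideal.ramificationIdxIn_eq_ramificationIdx P lam.asIdeal (L ≃ₐ[k] L),
    Ideal.inertiaDegIn_eq_inertiaDeg P lam.asIdeal (L ≃ₐ[k] L), e1, one_mul,
    Ideal.inertiaDeg_eq_of_isMaximal P lam.asIdeal] at hc
  have hf : Module.finrank (𝓞 k ⧸ P) (𝓞 L ⧸ lam.asIdeal) = 1 := by
    let _ : Field (𝓞 k ⧸ P) := Ideal.Quotient.field P
    exact fr1 hq hcard
  rw [hf, Nat.card_eq_one_iff_unique] at hc
  have := hc.1
  have h2 := Subsingleton.elim (⟨σ, hσ⟩ : MulAction.stabilizer (L ≃ₐ[k] L) lam.asIdeal) 1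
  exact congrArg Subtype.val h2

end Pool.Agent.MUXK


end

section

/-!
# MUX: restriction from `K_n` to `K_m`
-/

set_option autoImplicit false

open NumberField IsDedekindDomain Finset
open scoped nonZeroDivisors Pointwise

namespace Pool.Agent.MUXK

open _root_.Pool.Agent.MU3 _root_.Pool.Agent.RI _root_.Pool.Agent.RID

namespace K_RSX

lemma eq_one_of_mem {G : Type} [Group G] (p : ℕ) (D : Subgroup G)
    (hD : (Nat.card D).Coprime p) (m : ℕ)
    (x : G) (hx : x ∈ D) (hx' : x ^ (p ^ m) = 1) : x = 1 := by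
  have h1 : orderOf x ∣ p ^ m := orderOf_dvd_of_pow_eq_one hx'
  have h2 : orderOf x ∣ Nat.card D := Subgroup.orderOf_dvd_natCard D hx
  have h3 : (Nat.card D).Coprime (p ^ m) := Nat.Coprime.pow_right m hD
  have h4 : orderOf x = 1 := Nat.eq_one_of_dvd_coprimes h3 h2 h1
  exact orderOf_eq_one_iff.mp h4

end K_RSX

open _root_.Pool.Agent.MUXK.K_RSX in
theorem t_RSX (h1 : S_GALX) (hG : S_GENX) (h2 : S_TWX) : S_RSX := by
  intro p hp k K B _ _ hB hnp m n hm h h' hmn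
  let aL : Algebra k ↥(K ⊔ B n) := algC h
  let aM : Algebra k ↥(K ⊔ B m) := algC h'
  let aML : Algebra ↥(K ⊔ B m) ↥(K ⊔ B n) := algC hmn
  have tML := towerC h' hmn
  have gL : IsGalois k ↥(K ⊔ B n) := (h1 p k K B hB n h).1
  have gM : IsGalois k ↥(K ⊔ B m) := (h1 p k K B hB m h').1
  have fdL : FiniteDimensional k ↥(K ⊔ B n) := by
    have h1 : FiniteDimensional ℚ ↥(K ⊔ B n) := inferInstance
    exact Module.Finite.of_restrictScalars_finite ℚ k _
  have hres : ∀ (σ : ↥(K ⊔ B n) ≃ₐ[k] ↥(K ⊔ B n)) (x : ↥(K ⊔ B m)),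
      ((AlgEquiv.restrictNormalHom ↥(K ⊔ B m) σ x : ↥(K ⊔ B m)) : ℂ) =
        (σ ⟨x, hmn x.2⟩ : ↥(K ⊔ B n)) := by
    intro σ x
    have h2 := AlgEquiv.restrictNormal_commutes σ ↥(K ⊔ B m) x
    exact Pool.Agent.FX.coe_comm hmn σ x _ h2
  have hγ1 : ∀ γ : ↥(K ⊔ B n) ≃ₐ[k] ↥(K ⊔ B n), (∀ x : ↥(K ⊔ B n), γ x = x ↔ (x : ℂ) ∈ K) →
      ∀ x : ↥(K ⊔ B m), AlgEquiv.restrictNormalHom ↥(K ⊔ B m) γ x = x ↔ (x : ℂ) ∈ K := by
    intro γ hγ x
    rw [← hγ ⟨x, hmn x.2⟩]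
    constructor
    · intro hx
      apply Subtype.ext
      rw [← hres, hx]
    · intro hx
      apply Subtype.ext
      rw [hres, hx]
  refine ⟨AlgEquiv.restrictNormalHom ↥(K ⊔ B m), hres, fun γ hγ => ⟨hγ1 γ hγ, ?_⟩, ?_⟩
  · have hkK : k ≤ K := hB.hk
    let akK : Algebra k K := algC hkK
    have hKM : K ≤ K ⊔ B m := le_sup_left
    let aKM : Algebra K ↥(K ⊔ B m) := algC hKM
    have t1 := towerC hkK hKM
    have e1 : Module.finrank k K * Module.finrank K ↥(K ⊔ B m) =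
        Module.finrank k ↥(K ⊔ B m) := Pool.Agent.FX.fmul _ _ _
    have tQ : IsScalarTower ℚ K ↥(K ⊔ B m) := IsScalarTower.of_algebraMap_eq fun _ => rfl
    have e2 : Module.finrank K ↥(K ⊔ B m) = p ^ m := by
      have f1 : Module.finrank ℚ K * Module.finrank K ↥(K ⊔ B m) =
          Module.finrank ℚ ↥(K ⊔ B m) := Pool.Agent.FX.fmul _ _ _
      rw [hB.deg m] at f1
      exact Nat.eq_of_mul_eq_mul_left Module.finrank_pos f1
    have e3 : Module.finrank k (IntermediateField.extendScalars h') =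
        Module.finrank k (IntermediateField.extendScalars hkK) * p ^ m := by
      rw [← finrank_algC, ← finrank_algC, ← e1, e2]
    have key := GCP.cyc_fixed γ (GCP.sub h K hkK) (GCP.sub h (K ⊔ B m) h') (p ^ m)
      (fun x => (hγ x).trans (GCP.mem_sub h K hkK x).symm)
      (fun x hx => (le_sup_left : K ≤ K ⊔ B m) hx)
      (by rw [GCP.finrank_sub h K hkK le_sup_left, GCP.finrank_sub h (K ⊔ B m) h' hmn, e3])
    intro x
    exact (key x).trans (GCP.mem_sub h (K ⊔ B m) h' x)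
  · have hmem : ∀ δ ∈ NC h (B n), AlgEquiv.restrictNormalHom ↥(K ⊔ B m) δ ∈ NC h' (B m) := by
      intro δ hδ x hx
      apply Subtype.ext
      rw [hres]
      rw [hδ ⟨x, hmn x.2⟩ (hB.mono hm hx)]
    let φ : NC h (B n) →* NC h' (B m) :=
      { toFun := fun δ => ⟨AlgEquiv.restrictNormalHom ↥(K ⊔ B m)
          (δ : ↥(K ⊔ B n) ≃ₐ[k] ↥(K ⊔ B n)), hmem δ δ.2⟩
        map_one' := Subtype.ext (map_one _)
        map_mul' := fun a b => Subtype.ext (map_mul _ _ _) }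
    have hφ : Function.Injective φ := by
      rw [injective_iff_map_eq_one]
      intro δ hδ
      have hδ' : AlgEquiv.restrictNormalHom ↥(K ⊔ B m) (δ : ↥(K ⊔ B n) ≃ₐ[k] ↥(K ⊔ B n)) = 1 :=
        congrArg Subtype.val hδ
      apply Subtype.ext
      apply GCC.triv h
      · intro x hx
        apply Subtype.ext
        have h3 := hres δ ⟨x, (le_sup_left : K ≤ K ⊔ B m) hx⟩
        rw [hδ'] at h3
        exact h3.symm
      · exact δ.2
    have hφs : Function.Surjective φ := by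
      intro τ
      obtain ⟨g, -, hg, -⟩ := hG p k K B hB.hk hB.deg hB.lay hB.mono n h
      have T1 := h2 p k K B hB hnp n h g hg
      have T2 := h2 p k K B hB hnp m h' (AlgEquiv.restrictNormalHom ↥(K ⊔ B m) g) (hγ1 g hg)
      obtain ⟨σ, hσ⟩ := AlgEquiv.restrictNormalHom_surjective (F := k) (K₁ := ↥(K ⊔ B m))
        ↥(K ⊔ B n) (τ : ↥(K ⊔ B m) ≃ₐ[k] ↥(K ⊔ B m))
      obtain ⟨δ, hδ, i, hi⟩ := T1.gen σ
      refine ⟨⟨δ, hδ⟩, Subtype.ext ?_⟩
      show AlgEquiv.restrictNormalHom ↥(K ⊔ B m) δ = τ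
      have e1 : (τ : ↥(K ⊔ B m) ≃ₐ[k] ↥(K ⊔ B m)) =
          AlgEquiv.restrictNormalHom ↥(K ⊔ B m) δ *
            (AlgEquiv.restrictNormalHom ↥(K ⊔ B m) g) ^ i := by
        rw [← hσ, hi, map_mul, map_pow]
      have e2 : (AlgEquiv.restrictNormalHom ↥(K ⊔ B m) g) ^ i ∈ NC h' (B m) := by
        have e3 : (AlgEquiv.restrictNormalHom ↥(K ⊔ B m) g) ^ i =
            (AlgEquiv.restrictNormalHom ↥(K ⊔ B m) δ)⁻¹ * (τ : ↥(K ⊔ B m) ≃ₐ[k] ↥(K ⊔ B m)) := by
          rw [e1, inv_mul_cancel_left]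
        rw [e3]
        exact mul_mem (inv_mem (hmem δ hδ)) τ.2
      have e4 : (AlgEquiv.restrictNormalHom ↥(K ⊔ B m) g) ^ i = 1 := by
        refine eq_one_of_mem p _ T2.cop m _ e2 ?_
        rw [← pow_mul, mul_comm, pow_mul, ← T2.ord, pow_orderOf_eq_one, one_pow]
      rw [e1, e4, mul_one]
    exact ⟨MulEquiv.ofBijective φ ⟨hφ, hφs⟩, fun δ => rfl⟩

end Pool.Agent.MUXK


end

section

/-!
# MUX, block K: the norm on fractional ideals (module NRJ)
-/

set_option autoImplicit false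

open NumberField IsDedekindDomain
open scoped nonZeroDivisors Pointwise

namespace Pool.Agent.MUXK

open _root_.Pool.Agent.MU3 _root_.Pool.Agent.RI

namespace NRJ

set_option linter.unusedSectionVars false

/-- Extension of a homomorphism to the group of fractions. -/
theorem lift {A G H : Type} [CommMonoid A] [CommGroup G] [CommGroup H] (j : A →* G)
    (hj : Function.Injective j) (hs : ∀ g : G, ∃ a b : A, g = j a / j b) (h : A →* H) :
    ∃ N : G →* H, ∀ a, N (j a) = h a := by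
  classical
  choose a b hab using hs
  have key : ∀ x y x' y' : A, j x / j y = j x' / j y' → h x / h y = h x' / h y' := by
    intro x y x' y' e
    rw [div_eq_div_iff_mul_eq_mul] at e ⊢
    rw [← map_mul, ← map_mul] at e ⊢
    rw [hj e]
  refine ⟨MonoidHom.mk' (fun g => h (a g) / h (b g)) ?_, ?_⟩
  · intro g g'
    have e : j (a (g * g')) / j (b (g * g')) = j (a g * a g') / j (b g * b g') := by
      rw [← hab, map_mul, map_mul, mul_div_mul_comm, ← hab, ← hab]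
    have := key _ _ _ _ e
    rw [this, map_mul, map_mul, mul_div_mul_comm]
  · intro x
    show h (a (j x)) / h (b (j x)) = h x
    have e : j (a (j x)) / j (b (j x)) = j x / j 1 := by rw [← hab, map_one, div_one]
    have := key _ _ _ _ e
    rw [this, map_one, div_one]

/-- Two homomorphisms which agree on the monoid agree on the group. -/
theorem ext' {A G H : Type} [CommMonoid A] [CommGroup G] [CommGroup H] (j : A →* G)
    (hs : ∀ g : G, ∃ a b : A, g = j a / j b) (N₁ N₂ : G →* H) (h : ∀ a, N₁ (j a) = N₂ (j a)) :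
    ∀ g, N₁ g = N₂ g := by
  intro g
  obtain ⟨a, b, rfl⟩ := hs g
  rw [map_div, map_div, h, h]

section

variable (K : Type) [Field K] [NumberField K]

/-- The nonzero ideals in the group of fractional ideals. -/
noncomputable abbrev jj : (Ideal (𝓞 K))⁰ →* J K := FractionalIdeal.mk0 K

theorem jj_inj : Function.Injective (jj K) := by
  intro a b h
  apply Subtype.ext
  have := congrArg Units.val h
  rw [FractionalIdeal.coe_mk0, FractionalIdeal.coe_mk0] at this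
  exact FractionalIdeal.coeIdeal_injective this

theorem jj_span {x : 𝓞 K} (_ : x ≠ 0) (h0 : Ideal.span {x} ∈ (Ideal (𝓞 K))⁰) (y : Kˣ)
    (hy : (y : K) = x) : jj K ⟨Ideal.span {x}, h0⟩ = prin y := by
  apply Units.ext
  rw [FractionalIdeal.coe_mk0, coe_toPrincipalIdeal, hy]
  show ((Ideal.span {x} : Ideal (𝓞 K)) : FractionalIdeal (𝓞 K)⁰ K) = _
  rw [FractionalIdeal.coeIdeal_span_singleton]

theorem span_mem {x : 𝓞 K} (hx : x ≠ 0) : Ideal.span {x} ∈ (Ideal (𝓞 K))⁰ := by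
  rw [mem_nonZeroDivisors_iff_ne_zero]
  intro h
  rw [Ideal.zero_eq_bot, Ideal.span_singleton_eq_bot] at h
  exact hx h

theorem jj_surj (g : J K) : ∃ a b : (Ideal (𝓞 K))⁰, g = jj K a / jj K b := by
  obtain ⟨a, aI, ha, hz⟩ := FractionalIdeal.exists_eq_spanSingleton_mul
    (g : FractionalIdeal (𝓞 K)⁰ K)
  have haI : aI ∈ (Ideal (𝓞 K))⁰ := by
    rw [mem_nonZeroDivisors_iff_ne_zero]
    rintro rfl
    rw [Ideal.zero_eq_bot, FractionalIdeal.coeIdeal_bot, mul_zero] at hz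
    exact g.ne_zero hz
  refine ⟨⟨aI, haI⟩, ⟨Ideal.span {a}, span_mem K ha⟩, ?_⟩
  rw [eq_div_iff_mul_eq']
  apply Units.ext
  rw [Units.val_mul, FractionalIdeal.coe_mk0, FractionalIdeal.coe_mk0, hz]
  show FractionalIdeal.spanSingleton (𝓞 K)⁰ ((algebraMap (𝓞 K) K) a)⁻¹ *
    (aI : FractionalIdeal (𝓞 K)⁰ K) *
    ((Ideal.span {a} : Ideal (𝓞 K)) : FractionalIdeal (𝓞 K)⁰ K) = _
  rw [FractionalIdeal.coeIdeal_span_singleton, mul_right_comm,
    FractionalIdeal.spanSingleton_mul_spanSingleton, inv_mul_cancel₀,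
    FractionalIdeal.spanSingleton_one, one_mul]
  intro h
  exact ha (FaithfulSMul.algebraMap_injective (𝓞 K) K (by rw [h, map_zero]))

theorem vJ_eq (v : HeightOneSpectrum (𝓞 K)) :
    vJ v = jj K ⟨v.asIdeal, mem_nonZeroDivisors_iff_ne_zero.2 v.ne_bot⟩ := rfl

end

section

variable {K : Type} [Field K] [NumberField K] {F : Type} [Field F] [Algebra F K]

/-- The automorphism of the ring of integers. -/
noncomputable abbrev ri (σ : K ≃ₐ[F] K) : 𝓞 K ≃+* 𝓞 K := RingOfIntegers.mapRingEquiv (σ : K ≃+* K)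

theorem map_mem (σ : K ≃ₐ[F] K) (I : (Ideal (𝓞 K))⁰) :
    (I : Ideal (𝓞 K)).map (ri σ) ∈ (Ideal (𝓞 K))⁰ := by
  rw [mem_nonZeroDivisors_iff_ne_zero]
  intro h
  have h1 : (I : Ideal (𝓞 K)) = ⊥ := by
    rw [Ideal.zero_eq_bot] at h
    exact (Ideal.map_eq_bot_iff_of_injective (ri σ).injective).1 h
  exact (mem_nonZeroDivisors_iff_ne_zero.1 I.2) h1

theorem smul_jj (σ : K ≃ₐ[F] K) (I : (Ideal (𝓞 K))⁰) :
    σ • jj K I = jj K ⟨(I : Ideal (𝓞 K)).map (ri σ), map_mem σ I⟩ := by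
  apply Units.ext
  ext x
  rw [Pool.Agent.RI.mem_smul, FractionalIdeal.coe_mk0, FractionalIdeal.coe_mk0,
    FractionalIdeal.mem_coeIdeal, FractionalIdeal.mem_coeIdeal]
  constructor
  · rintro ⟨y, hy, hyx⟩
    refine ⟨ri σ y, Ideal.mem_map_of_mem _ hy, ?_⟩
    have := congrArg σ hyx
    rw [AlgEquiv.apply_symm_apply] at this
    exact this
  · rintro ⟨y, hy, hyx⟩
    obtain ⟨z, hz, rfl⟩ := (Ideal.mem_map_of_equiv (ri σ) y).1 hy
    refine ⟨z, hz, ?_⟩
    rw [← hyx]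
    exact (σ.symm_apply_apply (z : K)).symm

end

section

variable {k L M : Type} [Field k] [NumberField k] [Field L] [NumberField L] [Field M]
    [NumberField M] [Algebra k L] [Algebra L M] [Algebra k M] [IsScalarTower k L M]

theorem intNorm_coe (x : 𝓞 M) :
    ((Algebra.intNorm (𝓞 L) (𝓞 M) x : 𝓞 L) : L) = Algebra.norm L (x : M) :=
  Algebra.algebraMap_intNorm (A := 𝓞 L) (K := L) (L := M) (B := 𝓞 M) x

theorem norm_equi (σ : M ≃ₐ[k] M) (τ : L ≃ₐ[k] L)
    (hστ : ∀ x : L, algebraMap L M (τ x) = σ (algebraMap L M x)) (x : M) :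
    Algebra.norm L (σ x) = τ (Algebra.norm L x) := by
  have h := Algebra.norm_eq_of_equiv_equiv (τ : L ≃+* L) (σ : M ≃+* M) (by
    ext y
    exact hστ y) x
  rw [h]
  exact (τ.apply_symm_apply _).symm

theorem intNorm_equi (σ : M ≃ₐ[k] M) (τ : L ≃ₐ[k] L)
    (hστ : ∀ x : L, algebraMap L M (τ x) = σ (algebraMap L M x)) (x : 𝓞 M) :
    Algebra.intNorm (𝓞 L) (𝓞 M) (ri σ x) = ri τ (Algebra.intNorm (𝓞 L) (𝓞 M) x) := by
  apply FaithfulSMul.algebraMap_injective (𝓞 L) L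
  show ((Algebra.intNorm (𝓞 L) (𝓞 M) (ri σ x) : 𝓞 L) : L) =
    ((ri τ (Algebra.intNorm (𝓞 L) (𝓞 M) x) : 𝓞 L) : L)
  rw [intNorm_coe]
  show Algebra.norm L (σ (x : M)) = τ ((Algebra.intNorm (𝓞 L) (𝓞 M) x : 𝓞 L) : L)
  rw [intNorm_coe, norm_equi σ τ hστ]

theorem relNorm_equi (σ : M ≃ₐ[k] M) (τ : L ≃ₐ[k] L)
    (hστ : ∀ x : L, algebraMap L M (τ x) = σ (algebraMap L M x)) (I : Ideal (𝓞 M)) :
    Ideal.relNorm (𝓞 L) (I.map (ri σ)) = (Ideal.relNorm (𝓞 L) I).map (ri τ) := by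
  have h2 : (Ideal.relNorm (𝓞 L) I).map (ri τ) =
      Ideal.span ((ri τ : 𝓞 L →+* 𝓞 L) ∘ Algebra.intNorm (𝓞 L) (𝓞 M) '' (I : Set (𝓞 M))) :=
    Ideal.map_relNorm (𝓞 L) I (ri τ : 𝓞 L →+* 𝓞 L)
  rw [h2, Ideal.relNorm_apply]
  congr 1
  ext y
  constructor
  · rintro ⟨x, hx, rfl⟩
    obtain ⟨z, hz, rfl⟩ := (Ideal.mem_map_of_equiv (ri σ) x).1 hx
    exact ⟨z, hz, (intNorm_equi σ τ hστ z).symm⟩
  · rintro ⟨x, hx, rfl⟩
    exact ⟨ri σ x, Ideal.mem_map_of_mem _ hx, intNorm_equi σ τ hστ x⟩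

variable (L M) in
/-- The norm on the nonzero ideals. -/
noncomputable def nn : (Ideal (𝓞 M))⁰ →* (Ideal (𝓞 L))⁰ where
  toFun I := ⟨Ideal.relNorm (𝓞 L) (I : Ideal (𝓞 M)), by
    rw [mem_nonZeroDivisors_iff_ne_zero]
    intro h
    exact (mem_nonZeroDivisors_iff_ne_zero.1 I.2) (Ideal.relNorm_eq_bot_iff.1 h)⟩
  map_one' := Subtype.ext (map_one (Ideal.relNorm (𝓞 L)))
  map_mul' a b := Subtype.ext (map_mul (Ideal.relNorm (𝓞 L)) (a : Ideal (𝓞 M)) (b : Ideal (𝓞 M)))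

theorem nn_coe (I : (Ideal (𝓞 M))⁰) :
    ((nn L M I : (Ideal (𝓞 L))⁰) : Ideal (𝓞 L)) = Ideal.relNorm (𝓞 L) (I : Ideal (𝓞 M)) := rfl

end

end NRJ

open _root_.Pool.Agent.MUXK.NRJ in
theorem t_NRJ : S_NRJ := by
  intro k L M _ _ _ _ _ _ _ _ _ _ _ _
  obtain ⟨N, hN⟩ := lift (jj M) (jj_inj M) (jj_surj M) ((jj L).comp (nn L M))
  refine ⟨N, ?_, ?_, ?_⟩
  · -- principal ideals
    intro x
    obtain ⟨a, b, hb, hab⟩ := IsFractionRing.div_surjective (A := 𝓞 M) (x : M)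
    have hb0 : b ≠ 0 := nonZeroDivisors.ne_zero hb
    have hinj := FaithfulSMul.algebraMap_injective (𝓞 M) M
    have ha0 : a ≠ 0 := by
      rintro rfl
      rw [map_zero, zero_div] at hab
      exact x.ne_zero hab.symm
    have key : ∀ c : 𝓞 M, ∀ hc : c ≠ 0, ∀ u : Mˣ, (u : M) = c →
        N (prin u) = prin (Units.map (Algebra.norm L : M →* L) u) := by
      intro c hc u hu
      rw [← jj_span M hc (span_mem M hc) u hu, hN]
      have hn : Algebra.intNorm (𝓞 L) (𝓞 M) c ≠ 0 := by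
        intro h
        have h2 : ((Algebra.intNorm (𝓞 L) (𝓞 M) c : 𝓞 L) : L) = 0 := by rw [h]; rfl
        rw [intNorm_coe, Algebra.norm_eq_zero_iff] at h2
        exact u.ne_zero (hu.trans h2)
      rw [← jj_span L hn (span_mem L hn) (Units.map (Algebra.norm L : M →* L) u)
        (by rw [intNorm_coe, ← hu]; rfl)]
      rw [MonoidHom.comp_apply]
      congr 1
      apply Subtype.ext
      rw [nn_coe]
      exact Ideal.relNorm_singleton (𝓞 L) c
    set ua : Mˣ := Units.mk0 ((a : 𝓞 M) : M) (fun h => ha0 (hinj (by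
      rw [map_zero]; exact h))) with hua
    set ub : Mˣ := Units.mk0 ((b : 𝓞 M) : M) (fun h => hb0 (hinj (by
      rw [map_zero]; exact h))) with hub
    have hx : x = ua / ub := by
      apply Units.ext
      rw [Units.val_div_eq_div_val]
      exact hab.symm
    rw [hx, map_div, map_div, key a ha0 ua rfl, key b hb0 ub rfl, ← map_div, ← map_div]
  · -- primes
    intro w v hwv
    have hlo : w.asIdeal.LiesOver v.asIdeal := ⟨hwv.symm⟩
    have hvp : v.asIdeal.IsPrime := v.isPrime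
    have hwp : w.asIdeal.IsPrime := w.isPrime
    obtain ⟨f, hf⟩ := Ideal.exists_relNorm_eq_pow_of_isPrime w.asIdeal v.asIdeal
    have h1 : N (vJ w) = vJ v ^ f := by
      rw [vJ_eq, hN, vJ_eq, ← map_pow, MonoidHom.comp_apply]
      congr 1
      apply Subtype.ext
      rw [nn_coe]
      exact hf
    refine ⟨⟨f, h1⟩, fun hc => ?_⟩
    have h2 : Ideal.absNorm (Ideal.relNorm (𝓞 L) w.asIdeal) = Ideal.absNorm w.asIdeal :=
      Ideal.absNorm_relNorm (𝓞 L) (𝓞 M) w.asIdeal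
    rw [hf, map_pow, Ideal.absNorm_apply, Ideal.absNorm_apply, Submodule.cardQuot_apply,
      Submodule.cardQuot_apply, hc] at h2
    have h3 : 1 < Nat.card (𝓞 L ⧸ v.asIdeal) := by
      have h4 : Ideal.absNorm v.asIdeal ≠ 1 := by
        intro h
        exact hvp.ne_top (Ideal.absNorm_eq_one_iff.1 h)
      have h5 : Ideal.absNorm v.asIdeal ≠ 0 := by
        intro h
        exact v.ne_bot (Ideal.absNorm_eq_zero_iff.1 h)
      rw [Ideal.absNorm_apply, Submodule.cardQuot_apply] at h4 h5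
      omega
    have h6 : f = 1 := by
      have : Nat.card (𝓞 L ⧸ v.asIdeal) ^ f = Nat.card (𝓞 L ⧸ v.asIdeal) ^ 1 := by
        rw [pow_one]; exact h2
      exact Nat.pow_right_injective h3 this
    rw [h1, h6, pow_one]
  · -- automorphisms
    intro σ τ hστ z
    let N₁ : J M →* J L := N.comp (MulDistribMulAction.toMonoidHom (J M) σ)
    let N₂ : J M →* J L := (MulDistribMulAction.toMonoidHom (J L) τ).comp N
    refine ext' (jj M) (jj_surj M) N₁ N₂ ?_ z
    intro I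
    show N (σ • jj M I) = τ • N (jj M I)
    rw [smul_jj, hN, hN, MonoidHom.comp_apply, MonoidHom.comp_apply, smul_jj]
    congr 1
    apply Subtype.ext
    rw [nn_coe]
    exact relNorm_equi σ τ hστ _

end Pool.Agent.MUXK


end

section

/-!
# MUX, block K, module LGX: the power residue symbol at a prime of degree one
-/

set_option autoImplicit false

open NumberField IsDedekindDomain Finset
open scoped nonZeroDivisors Pointwise

namespace Pool.Agent.MUXK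

namespace K_LGX

lemma core (p : ℕ) [Fact p.Prime] (κ : Type) [Field κ] [Finite κ] (q : ℕ) (hq : q.Prime)
    (hp : p ∣ q - 1) (hcard : Nat.card κ = q) (U : Type) [CommGroup U] (φ : U →* κˣ) :
    ∃ (a : ℤ) (lg : U →* Multiplicative (ZMod p)), (q : ℤ) ∣ a ^ p - 1 ∧ ¬ (q : ℤ) ∣ a - 1 ∧
      (∀ u : U, ((φ u : κˣ) : κ) ^ ((q - 1) / p) = (a : κ) ^ (Multiplicative.toAdd (lg u)).val) ∧
      ∀ u : U, lg u = 1 → ∃ v : κ, ((φ u : κˣ) : κ) = v ^ p := by
  classical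
  have hpp : p.Prime := Fact.out
  have : NeZero p := ⟨hpp.ne_zero⟩
  have : Fact q.Prime := ⟨hq⟩
  have : Fintype κ := Fintype.ofFinite κ
  have hcf : Fintype.card κ = q := by rw [← hcard, Nat.card_eq_fintype_card]
  have : CharP κ q := charP_of_card_eq_prime hcf
  obtain ⟨m, hm⟩ := hp
  have hq1 : 1 < q := hq.one_lt
  have hm0 : 0 < m := by
    rcases Nat.eq_zero_or_pos m with rfl | h
    · rw [mul_zero] at hm
      omega
    · exact h
  have hdiv : (q - 1) / p = m := by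
    rw [hm, Nat.mul_div_cancel_left _ hpp.pos]
  rw [hdiv]
  have hcu : Nat.card κˣ = p * m := by
    rw [Nat.card_units, hcard, hm]
  obtain ⟨g, hg⟩ := IsCyclic.exists_generator (α := κˣ)
  have hog : orderOf g = p * m := by
    rw [orderOf_eq_card_of_forall_mem_zpowers hg, hcu]
  have hpow : ∀ x : κˣ, ∃ k : ℕ, x = g ^ k := by
    intro x
    have h1 := hg x
    rw [← mem_powers_iff_mem_zpowers] at h1
    obtain ⟨k, hk⟩ := h1
    exact ⟨k, hk.symm⟩
  set ω : κˣ := g ^ m with hω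
  have hoω : orderOf ω = p := by
    rw [hω, orderOf_pow, hog, Nat.gcd_eq_right (Dvd.intro_left p rfl), Nat.mul_div_cancel _ hm0]
  set F : ZMod p → κˣ := fun i => ω ^ i.val with hF
  have hFadd : ∀ i j, F (i + j) = F i * F j := by
    intro i j
    rw [hF]
    simp only
    rw [ZMod.val_add, ← pow_add, ← pow_mod_orderOf ω (i.val + j.val), hoω]
  have hFinj : ∀ i j, F i = F j → i = j := by
    intro i j h
    rw [hF] at h
    simp only at h
    rw [pow_inj_mod, hoω, Nat.mod_eq_of_lt (ZMod.val_lt i), Nat.mod_eq_of_lt (ZMod.val_lt j)] at h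
    exact ZMod.val_injective p h
  have hFsurj : ∀ x : κˣ, x ^ p = 1 → ∃ i, F i = x := by
    intro x hx
    obtain ⟨k, rfl⟩ := hpow x
    rw [← pow_mul, ← orderOf_dvd_iff_pow_eq_one, hog, mul_comm p m] at hx
    obtain ⟨j, rfl⟩ : m ∣ k := Nat.dvd_of_mul_dvd_mul_right hpp.pos hx
    refine ⟨(j : ZMod p), ?_⟩
    rw [hF]
    simp only
    rw [ZMod.val_natCast, pow_mul, ← hω, ← pow_mod_orderOf ω j, hoω]
  have hex : ∀ u : U, ∃ i, F i = φ u ^ m := by
    intro u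
    apply hFsurj
    rw [← pow_mul, mul_comm m p, ← hcu]
    exact pow_card_eq_one'
  choose lg hlg using hex
  -- the integer
  have hbij : Function.Surjective (ZMod.castHom (dvd_refl q) κ) :=
    (ZMod.castHom_bijective κ hcf).2
  obtain ⟨b, hb⟩ := hbij (ω : κ)
  obtain ⟨a, ha⟩ := ZMod.intCast_surjective b
  have haω : (a : κ) = (ω : κ) := by
    rw [← hb, ← ha, map_intCast]
  refine ⟨a, MonoidHom.mk' (fun u => Multiplicative.ofAdd (lg u)) ?_, ?_, ?_, ?_, ?_⟩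
  · intro u v
    rw [← ofAdd_add]
    congr 1
    apply hFinj
    rw [hFadd, hlg, hlg, hlg, map_mul, mul_pow]
  · rw [← CharP.intCast_eq_zero_iff κ q]
    push_cast
    have h1 : ω ^ p = 1 := by rw [← hoω]; exact pow_orderOf_eq_one ω
    rw [haω, ← Units.val_pow_eq_pow_val, h1, Units.val_one, sub_self]
  · rw [← CharP.intCast_eq_zero_iff κ q]
    push_cast
    rw [haω, sub_eq_zero]
    intro h
    have h1 : ω = 1 := Units.ext h
    rw [h1, orderOf_one] at hoω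
    exact hpp.one_lt.ne hoω
  · intro u
    have h1 := hlg u
    rw [haω]
    change ((φ u : κˣ) : κ) ^ m = (ω : κ) ^ (lg u).val
    rw [← Units.val_pow_eq_pow_val, ← h1, ← Units.val_pow_eq_pow_val]
  · intro u hu
    have h0 : lg u = 0 := by
      have h1 : Multiplicative.ofAdd (lg u) = 1 := hu
      exact h1
    have h1 := hlg u
    rw [h0, hF] at h1
    simp only [ZMod.val_zero, pow_zero] at h1
    obtain ⟨k, hk⟩ := hpow (φ u)
    rw [hk, ← pow_mul, eq_comm, ← orderOf_dvd_iff_pow_eq_one, hog] at h1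
    obtain ⟨j, rfl⟩ : p ∣ k := Nat.dvd_of_mul_dvd_mul_right hm0 h1
    refine ⟨((g ^ j : κˣ) : κ), ?_⟩
    rw [hk, ← Units.val_pow_eq_pow_val, ← pow_mul, mul_comm]

end K_LGX

theorem t_LGX : S_LGX := by
  intro p _ L _ _ lam q hq h3 hcard
  have hmax : lam.asIdeal.IsMaximal := lam.isMaximal
  let _ : Field (𝓞 L ⧸ lam.asIdeal) := Ideal.Quotient.field lam.asIdeal
  have : Finite (𝓞 L ⧸ lam.asIdeal) :=
    Nat.finite_of_card_ne_zero (by rw [hcard]; exact hq.ne_zero)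
  obtain ⟨a, lg, h1, h2, h4, h5⟩ := K_LGX.core p (𝓞 L ⧸ lam.asIdeal) q hq h3 hcard (𝓞 L)ˣ
    (Units.map ((Ideal.Quotient.mk lam.asIdeal : 𝓞 L →+* 𝓞 L ⧸ lam.asIdeal) :
      𝓞 L →* 𝓞 L ⧸ lam.asIdeal))
  refine ⟨a, lg, h1, h2, ?_, ?_⟩
  · intro u
    rw [← Ideal.Quotient.eq]
    have := h4 u
    rw [map_pow, map_pow, map_intCast]
    exact this
  · intro u hu
    obtain ⟨v, hv⟩ := h5 u hu
    obtain ⟨w, rfl⟩ := Ideal.Quotient.mk_surjective v
    refine ⟨w, ?_⟩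
    rw [← Ideal.Quotient.eq, map_pow]
    exact hv

end Pool.Agent.MUXK


end

section

/-!
# MUX, block K, module LFX: an automorphism of `K₀_n / k` trivial on `K₀` lifts to one of `K_n / k`
trivial on `K`
-/

set_option autoImplicit false

open NumberField IsDedekindDomain Finset
open scoped nonZeroDivisors Pointwise

namespace Pool.Agent.MUXK

open _root_.Pool.Agent.MU3 _root_.Pool.Agent.RI _root_.Pool.Agent.RID

namespace LFX

/-- Two homomorphisms of `K M` that agree on `K` and on `M`. -/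
lemma agree {K M : IntermediateField ℚ ℂ} (f g : ↥(K ⊔ M) →+* ℂ)
    (h1 : ∀ x : ↥(K ⊔ M), (x : ℂ) ∈ K → f x = g x)
    (h2 : ∀ x : ↥(K ⊔ M), (x : ℂ) ∈ M → f x = g x) (x : ↥(K ⊔ M)) : f x = g x := by
  have hML : M ≤ K ⊔ M := le_sup_right
  have hKL : K ≤ K ⊔ M := le_sup_left
  let S : IntermediateField ℚ ℂ :=
    { carrier := {z | ∃ hz : z ∈ K ⊔ M, f ⟨z, hz⟩ = g ⟨z, hz⟩}
      mul_mem' := by
        rintro u v ⟨hu, hu'⟩ ⟨hv, hv'⟩
        refine ⟨mul_mem hu hv, ?_⟩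
        have : (⟨u * v, mul_mem hu hv⟩ : ↥(K ⊔ M)) = ⟨u, hu⟩ * ⟨v, hv⟩ := rfl
        rw [this, map_mul, map_mul, hu', hv']
      add_mem' := by
        rintro u v ⟨hu, hu'⟩ ⟨hv, hv'⟩
        refine ⟨add_mem hu hv, ?_⟩
        have : (⟨u + v, add_mem hu hv⟩ : ↥(K ⊔ M)) = ⟨u, hu⟩ + ⟨v, hv⟩ := rfl
        rw [this, map_add, map_add, hu', hv']
      algebraMap_mem' := by
        intro r
        refine ⟨IntermediateField.algebraMap_mem _ r, ?_⟩
        exact h1 _ (IntermediateField.algebraMap_mem K r)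
      inv_mem' := by
        rintro u ⟨hu, hu'⟩
        refine ⟨inv_mem hu, ?_⟩
        have : (⟨u⁻¹, inv_mem hu⟩ : ↥(K ⊔ M)) = (⟨u, hu⟩ : ↥(K ⊔ M))⁻¹ := rfl
        rw [this, map_inv₀, map_inv₀, hu'] }
  have hKS : K ≤ S := fun z hz => ⟨hKL hz, h1 ⟨z, hKL hz⟩ hz⟩
  have hMS : M ≤ S := fun z hz => ⟨hML hz, h2 ⟨z, hML hz⟩ hz⟩
  have hLS : K ⊔ M ≤ S := sup_le hKS hMS
  obtain ⟨_, hx⟩ := hLS x.2
  exact hx

/-- Restriction of automorphisms of `K B / k` to the normal extension `B / ℚ`. -/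
lemma res {k K B : IntermediateField ℚ ℂ} [Normal ℚ B] (h : k ≤ K ⊔ B) :
    letI := algC h
    ∃ ρ : (↥(K ⊔ B) ≃ₐ[k] ↥(K ⊔ B)) →* (B ≃ₐ[ℚ] B),
      ∀ (σ : ↥(K ⊔ B) ≃ₐ[k] ↥(K ⊔ B)) (x : B) (hx : (x : ℂ) ∈ K ⊔ B),
        ((ρ σ x : B) : ℂ) = (σ ⟨x, hx⟩ : ↥(K ⊔ B)) := by
  let aL : Algebra k ↥(K ⊔ B) := algC h
  let aBL : Algebra B ↥(K ⊔ B) := algC (le_sup_right : B ≤ K ⊔ B)
  have t1 : IsScalarTower ℚ B ↥(K ⊔ B) := IsScalarTower.of_algebraMap_eq (fun _ => rfl)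
  have t2 : IsScalarTower ℚ k ↥(K ⊔ B) := IsScalarTower.of_algebraMap_eq (fun _ => rfl)
  refine ⟨(AlgEquiv.restrictNormalHom (F := ℚ) (K₁ := ↥(K ⊔ B)) ↥B).comp
    (AlgEquiv.restrictScalarsHom ℚ : (↥(K ⊔ B) ≃ₐ[k] ↥(K ⊔ B)) →* _), fun σ x hx => ?_⟩
  have h2 := AlgEquiv.restrictNormal_commutes (AlgEquiv.restrictScalars ℚ σ :
    ↥(K ⊔ B) ≃ₐ[ℚ] ↥(K ⊔ B)) ↥B x
  exact congrArg Subtype.val h2

end LFX

open _root_.Pool.Agent.MUXK.LFX in
theorem t_LFX (h1 : S_GENX) : S_LFX := by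
  intro p _ k K₀ K B _ _ hB₀ hB hle n h h₀ hh
  let aL : Algebra k ↥(K ⊔ B n) := algC h
  let aL₀ : Algebra k ↥(K₀ ⊔ B n) := algC h₀
  intro γ hγ
  obtain ⟨g, hg1, hg2, -⟩ := h1 p k K B hB.hk hB.deg hB.lay hB.mono n h
  obtain ⟨hfB, hGB, -⟩ := LAY_thm p n (B n) (hB.lay n)
  obtain ⟨ρ, hρ⟩ := res (B := B n) h
  obtain ⟨ρ₀, hρ₀⟩ := res (B := B n) h₀
  have hcard : Nat.card (↥(B n) ≃ₐ[ℚ] ↥(B n)) = p ^ n := by
    rw [IsGalois.card_aut_eq_finrank]
    exact (hB.lay n).1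
  have hdvd : p ^ n ∣ orderOf (ρ g) := by
    rw [← hg1]
    apply orderOf_dvd_of_pow_eq_one
    apply GCC.triv h
    · intro x hx
      have h3 : g x = x := (hg2 x).2 hx
      have h4 : ∀ i : ℕ, (g ^ i) x = x := by
        intro i
        induction i with
        | zero => rfl
        | succ i ih => rw [pow_succ, AlgEquiv.mul_apply, h3, ih]
      exact h4 _
    · intro x hx
      apply Subtype.ext
      have h3 := hρ (g ^ orderOf (ρ g)) ⟨x, hx⟩ x.2
      rw [map_pow, pow_orderOf_eq_one] at h3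
      exact h3.symm
  have hord : orderOf (ρ g) = p ^ n :=
    Nat.dvd_antisymm (by rw [← hcard]; exact orderOf_dvd_natCard (ρ g)) hdvd
  have hfin : Finite (↥(B n) ≃ₐ[ℚ] ↥(B n)) := inferInstance
  have htop : Subgroup.zpowers (ρ g) = ⊤ := by
    apply Subgroup.eq_top_of_card_eq
    rw [Nat.card_zpowers, hord, hcard]
  have hmem : ρ₀ γ ∈ Subgroup.zpowers (ρ g) := by rw [htop]; exact Subgroup.mem_top _
  obtain ⟨i, hi⟩ := Subgroup.mem_zpowers_iff.1 hmem
  have hgi : ∀ x : ↥(K ⊔ B n), (x : ℂ) ∈ K → (g ^ i) x = x := by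
    intro x hx
    have h3 : g ∈ NC h K := fun y hy => (hg2 y).2 hy
    exact (Subgroup.zpow_mem (NC h K) h3 i) x hx
  refine ⟨g ^ i, hgi, fun x => ?_⟩
  let f₁ : ↥(K₀ ⊔ B n) →+* ℂ := (algebraMap ↥(K ⊔ B n) ℂ).comp
    (((g ^ i : ↥(K ⊔ B n) ≃ₐ[k] ↥(K ⊔ B n)) : ↥(K ⊔ B n) →+* ↥(K ⊔ B n)).comp
      (IntermediateField.inclusion hh : ↥(K₀ ⊔ B n) →+* ↥(K ⊔ B n)))
  let f₂ : ↥(K₀ ⊔ B n) →+* ℂ := (algebraMap ↥(K₀ ⊔ B n) ℂ).comp
    ((γ : ↥(K₀ ⊔ B n) ≃ₐ[k] ↥(K₀ ⊔ B n)) : ↥(K₀ ⊔ B n) →+* ↥(K₀ ⊔ B n))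
  have key := agree f₁ f₂ ?_ ?_ x
  · exact key
  · intro y hy
    show (((g ^ i) ⟨y, hh y.2⟩ : ↥(K ⊔ B n)) : ℂ) = ((γ y : ↥(K₀ ⊔ B n)) : ℂ)
    rw [hgi ⟨y, hh y.2⟩ (hle hy), hγ y hy]
  · intro y hy
    show (((g ^ i) ⟨y, hh y.2⟩ : ↥(K ⊔ B n)) : ℂ) = ((γ y : ↥(K₀ ⊔ B n)) : ℂ)
    have e1 := hρ (g ^ i) ⟨y, hy⟩ (hh y.2)
    have e2 := hρ₀ γ ⟨y, hy⟩ y.2
    rw [map_zpow, hi] at e1
    exact e1.symm.trans e2

end Pool.Agent.MUXK


end

section

/-!
# MUXK_ALGX: cyclic relations in characteristic `p`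
-/

open NumberField IsDedekindDomain Finset
open scoped nonZeroDivisors Pointwise

namespace Pool.Agent.MUXK

namespace K_ALGX

open Polynomial

variable {F : Type} [Field F]

/-- the shift -/
noncomputable def sh (F : Type) [Field F] (N : ℕ) : (ZMod N → F) →ₗ[F] (ZMod N → F) :=
  LinearMap.funLeft F F (fun j => j + 1)

theorem sh_pow (N k : ℕ) (y : ZMod N → F) (j : ZMod N) :
    ((sh F N ^ k) y) j = y (j + k) := by
  induction k generalizing y with
  | zero => simp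
  | succ k ih =>
    rw [pow_succ, Module.End.mul_apply, ih]
    unfold sh
    rw [LinearMap.funLeft_apply]
    push_cast
    rw [add_assoc]

theorem act_X_pow (N k : ℕ) (y : ZMod N → F) (j : ZMod N) :
    (aeval (sh F N) ((X : F[X]) ^ k) y) j = y (j + k) := by
  rw [map_pow, aeval_X, sh_pow]

/-- the polynomial of a function -/
noncomputable def po (N : ℕ) [NeZero N] (β : ZMod N → F) : F[X] :=
  ∑ l : ZMod N, C (β l) * X ^ l.val

theorem aeval_po (N : ℕ) [NeZero N] (β y : ZMod N → F) (j : ZMod N) :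
    (aeval (sh F N) (po N β) y) j = ∑ l, β l * y (j + l) := by
  unfold po
  rw [map_sum, LinearMap.sum_apply, Finset.sum_apply]
  refine sum_congr rfl fun l _ => ?_
  rw [map_mul, aeval_C, Module.End.mul_apply, Module.algebraMap_end_apply, Pi.smul_apply,
    act_X_pow, smul_eq_mul, ZMod.natCast_zmod_val]

end K_ALGX

open _root_.Pool.Agent.MUXK.K_ALGX Polynomial

theorem t_ALGX : S_ALGX := by
  intro p hpf F _ _ m n hmn β x hβ hne j
  classical
  have hp0 : 0 < p := hpf.out.pos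
  haveI : NeZero (p ^ n) := ⟨pow_ne_zero n hp0.ne'⟩
  set T := sh F (p ^ n) with hT
  set P := po (p ^ n) β with hP
  have hPx : aeval T P x = 0 := by
    funext i
    rw [hP, hT, aeval_po]
    simp only [Pi.zero_apply]
    rw [← hβ i]
    exact sum_congr rfl fun l _ => by rw [add_comm i l]
  have hfr : ∀ k : ℕ, (X - C (1 : F)) ^ (p ^ k) = X ^ (p ^ k) - 1 := by
    intro k
    rw [sub_pow_char_pow, C_1, one_pow]
  have hact : ∀ y : ZMod (p ^ n) → F, aeval T ((X - C (1 : F)) ^ (p ^ n)) y = 0 := by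
    intro y
    funext i
    rw [hfr, map_sub, map_one, LinearMap.sub_apply, Pi.sub_apply, hT, act_X_pow]
    simp
  set g := EuclideanDomain.gcd P ((X - C (1 : F)) ^ (p ^ n)) with hg
  have hgx : aeval T g x = 0 := by
    rw [hg, EuclideanDomain.gcd_eq_gcd_ab, map_add, LinearMap.add_apply, mul_comm P,
      mul_comm ((X - C (1 : F)) ^ (p ^ n)), map_mul, map_mul, Module.End.mul_apply,
      Module.End.mul_apply, hPx, hact]
    simp
  obtain ⟨v, hv, hass⟩ := (dvd_prime_pow (prime_X_sub_C (1 : F)) (p ^ n)).1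
    (EuclideanDomain.gcd_dvd_right P ((X - C (1 : F)) ^ (p ^ n)))
  have hvx : aeval T ((X - C (1 : F)) ^ v) x = 0 := by
    obtain ⟨c, hc⟩ := hass.dvd
    rw [hc, mul_comm, map_mul, Module.End.mul_apply, ← hg, hgx, map_zero]
  have hvP : (X - C (1 : F)) ^ v ∣ P :=
    hass.symm.dvd.trans (EuclideanDomain.gcd_dvd_left P ((X - C (1 : F)) ^ (p ^ n)))
  by_cases hvm : v ≤ p ^ m
  · have h1 : aeval T ((X - C (1 : F)) ^ (p ^ m)) x = 0 := by
      obtain ⟨c, hc⟩ := pow_dvd_pow (X - C (1 : F)) hvm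
      rw [hc, mul_comm, map_mul, Module.End.mul_apply, hvx, map_zero]
    have h2 := congrFun h1 j
    rw [hfr, map_sub, map_one, LinearMap.sub_apply, Pi.sub_apply, hT, act_X_pow] at h2
    simp only [Module.End.one_apply, Pi.zero_apply] at h2
    exact sub_eq_zero.1 h2
  · exfalso
    push Not at hvm
    apply hne
    obtain ⟨R, hR⟩ := (pow_dvd_pow (X - C (1 : F)) hvm.le).trans hvP
    have hle : p ^ m ≤ p ^ n := Nat.pow_le_pow_right hp0 hmn
    have hgeo : ∑ i ∈ range (p ^ (n - m)), ((X : F[X]) ^ (p ^ m)) ^ i =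
        (X - C (1 : F)) ^ (p ^ n - p ^ m) := by
      have h1 : (X : F[X]) ^ (p ^ m) - 1 ≠ 0 := by
        rw [← hfr]
        exact pow_ne_zero _ (X_sub_C_ne_zero 1)
      apply mul_left_cancel₀ h1
      rw [mul_geom_sum, ← pow_mul, ← pow_add, Nat.add_sub_cancel' hmn, ← hfr, ← hfr, ← pow_add,
        Nat.add_sub_cancel' hle]
    have hz : ∀ y : ZMod (p ^ n) → F,
        aeval T (P * ∑ i ∈ range (p ^ (n - m)), ((X : F[X]) ^ (p ^ m)) ^ i) y = 0 := by
      intro y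
      rw [hgeo, hR, mul_right_comm, ← pow_add, Nat.add_sub_cancel' hle, map_mul,
        Module.End.mul_apply, hact]
    have h0 := congrFun (hz (Pi.single 0 1)) 0
    rw [map_mul, Module.End.mul_apply, hP, hT, aeval_po] at h0
    simp only [Pi.zero_apply, zero_add] at h0
    rw [← h0]
    have h3 : ∀ l : ZMod (p ^ n), (aeval (sh F (p ^ n)) (∑ i ∈ range (p ^ (n - m)), ((X : F[X]) ^ (p ^ m)) ^ i)
        (Pi.single 0 1)) l = ∑ i ∈ range (p ^ (n - m)),
          if l = -((p ^ m * i : ℕ) : ZMod (p ^ n)) then 1 else 0 := by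
      intro l
      rw [map_sum, LinearMap.sum_apply, Finset.sum_apply]
      refine sum_congr rfl fun i _ => ?_
      rw [← pow_mul, act_X_pow, Pi.single_apply]
      congr 1
      rw [eq_iff_iff, add_eq_zero_iff_eq_neg]
    simp only [h3, mul_sum]
    rw [sum_comm]
    refine sum_congr rfl fun i _ => ?_
    simp

end Pool.Agent.MUXK


end
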