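import Mathlib
import Pool.Agent.MVF.C041
import Pool.Agent.MVF.C076
import Pool.Agent.MVF.C079
import Pool.Agent.MVF.C094

/-! Parts: N2.G_UnnT, NS.G_Trl, N2.G_TrQ, MUX.StGF, MUX.N_QXP, NS.G_Qxn, MUX.N_GDT, NS.G_Gdn, MUX.N_UNIT, RID.P_RK3 -/

namespace Pool.Agent.MUXN.N_QXP
end Pool.Agent.MUXN.N_QXP
namespace Pool.Agent.RID.RK3
end Pool.Agent.RID.RK3

section

/-!
# N2, block G2N (helper6): units for `|D| ≥ 5` (after helper58's `N_UNIT`)
-/

set_option autoImplicit false

namespace Pool.Agent.N2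

open _root_.MU3 _root_.Pool.Agent.MUX _root_.Pool.Agent.NS _root_.Pool.Agent.NSG

theorem unit_5 (h : MUXF.Sx_IDL) (h' : MUXF.Sx_NIM) {A B : ℤ} (hc : CQ A B)
    (hD : 5 ≤ -(B ^ 2 + 4 * A)) :
    (∀ x : OO A B, nm x = 1 → x = 1 ∨ x = -1) ∧
    ∀ (b : Ideal (OO A B)) (_ : b ≠ ⊥) (x : OO A B), x ∈ b → nm x = MUX.nI b → b = MUX.sp x := by
  refine ⟨fun x hx => ?_, fun b hb x hx hn => ?_⟩
  · have h4 : (2 * x.re + B * x.im) ^ 2 + -(B ^ 2 + 4 * A) * x.im ^ 2 = 4 := by
      unfold nm at hx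
      linear_combination 4 * hx
    have him : x.im = 0 := by
      by_contra him
      have h1 : 1 ≤ x.im ^ 2 := by
        have : 0 < x.im ^ 2 := by positivity
        omega
      nlinarith [sq_nonneg (2 * x.re + B * x.im)]
    have hre : x.re ^ 2 = 1 := by
      rw [him] at h4
      linarith
    rcases (sq_eq_sq_iff_eq_or_eq_neg.1 (hre.trans (one_pow 2).symm)) with h1 | h1
    · left
      ext
      · exact h1
      · exact him
    · right
      ext
      · exact h1
      · exact him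
  · have hcq : MUXF.CQ A B := MUXY.cqF hc
    have hn0 : MUX.nI b ≠ 0 := (h A B hcq b hb).1
    obtain ⟨-, h2, -, -⟩ := h' A B hcq
    have hx0 : x ≠ 0 := by
      rintro rfl
      apply hn0
      have : nm (0 : OO A B) = 0 := by
        unfold nm
        simp
      rw [this] at hn
      exact_mod_cast hn.symm
    have hle : sp x ≤ b := (Ideal.span_singleton_le_iff_mem b).2 hx
    have hcard : Nat.card (OO A B ⧸ sp x) = Nat.card (OO A B ⧸ b) := by
      have h3 := (h2 x).resolve_right hx0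
      have h4 : (nm x).natAbs = MUX.nI b := by
        rw [hn]
        simp
      exact h3.trans h4
    have : Finite (OO A B ⧸ sp x) := by
      apply Nat.finite_of_card_ne_zero
      rw [hcard]
      exact hn0
    have hbij := Function.Surjective.bijective_of_nat_card_le (Ideal.Quotient.factor_surjective hle)
      hcard.le
    apply le_antisymm _ hle
    intro y hy
    rw [← Ideal.Quotient.eq_zero_iff_mem]
    apply hbij.injective
    rw [map_zero, Ideal.Quotient.factor_mk]
    exact Ideal.Quotient.eq_zero_iff_mem.2 hy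

theorem CaseT.ge {A B : ℤ} (hc : CaseT A B) : 5 ≤ -(B ^ 2 + 4 * A) := by
  have h3 := hc.two
  have hex := hc.exc
  have hn := hc.neg
  rcases hc.hB with hB | hB
  · subst hB
    simp only [ne_eq, OfNat.ofNat_ne_zero, not_false_eq_true, zero_pow, zero_add] at h3 hn ⊢
    omega
  · subst hB
    simp only [one_pow, true_and] at h3 hn hex ⊢
    omega

theorem unit_T (h : MUXF.Sx_IDL) (h' : MUXF.Sx_NIM) {A B : ℤ} (hc : CaseT A B) :
    (∀ x : OO A B, nm x = 1 → x = 1 ∨ x = -1) ∧
    ∀ (b : Ideal (OO A B)) (_ : b ≠ ⊥) (x : OO A B), x ∈ b → nm x = MUX.nI b → b = MUX.sp x :=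
  unit_5 h h' hc.toCQ hc.ge

end Pool.Agent.N2


end

section

/-!
# NS, block GN (helper6): translates by `t / 27` of a symbol and of its primitive
-/

set_option autoImplicit false

namespace Pool.Agent.NSG

open _root_.MU3 _root_.Pool.Agent.MuSym OnePoint

noncomputable section

/-- a symbol `Φ` of level `Γ₁(N)` with primitive `ϑ` -/
structure SymN (N : ℕ) (Φ : OnePoint ℚ → OnePoint ℚ → ℂ) (ϑ : ℂ → ℂ) : Prop where
  pos : 0 < N
  add : ∀ x y z : OnePoint ℚ, Φ x y + Φ y z = Φ x z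
  inv : ∀ a b c d : ℤ, a * d - b * c = 1 → (N : ℤ) ∣ c → (N : ℤ) ∣ d - 1 →
    ∀ x y : OnePoint ℚ, Φ (mob a b c d x) (mob a b c d y) = Φ x y
  per : ∀ a b c d : ℤ, a * d - b * c = 1 → (N : ℤ) ∣ c → (N : ℤ) ∣ d - 1 →
    ∀ τ : ℂ, 0 < τ.im → ϑ ((a * τ + b) / (c * τ + d)) = ϑ τ + Φ ∞ (mob a b c d ∞)
  cusp : ∀ a b c d : ℤ, a * d - b * c = 1 → ∃ (C : ℂ) (w : ℕ → ℂ), ∀ τ : ℂ,
    0 < τ.im → HasSum (fun n : ℕ => w n *
      Complex.exp (2 * Real.pi * Complex.I * τ / N) ^ (n + 1))
      (ϑ ((a * τ + b) / (c * τ + d)) - C)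

namespace Trl

theorem mob_inf (D a : ℤ) : mob D a 0 D ∞ = ∞ := MUXH.H1.mob_inf D a

theorem mob_tr (t : ℤ) (r : ℚ) :
    mob 27 t 0 27 (r : OnePoint ℚ) = ((r + (t : ℚ) / 27 : ℚ) : OnePoint ℚ) := by
  have := Pool.Agent.MUXHN.H1N.mob_tr 27 t (by norm_num) r
  exact_mod_cast this

/-- conjugation by the translation -/
theorem conj (t a b c d c1 d1 : ℤ) (h : a * d - b * c = 1) (hc : c = 729 * c1)
    (hd : d = 1 + 729 * d1) : ∃ a' b' d' : ℤ, a' * d' - b' * c = 1 ∧ d' = d - 27 * t * c1 ∧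
      (∀ x, mob 27 t 0 27 (mob a b c d x) = mob a' b' c d' (mob 27 t 0 27 x)) ∧
      ∀ τ : ℂ, (c : ℂ) * τ + d ≠ 0 → ((a : ℂ) * τ + b) / (c * τ + d) + t / 27 =
        ((a' : ℂ) * (τ + t / 27) + b') / (c * (τ + t / 27) + d') := by
  obtain ⟨a1, ha1⟩ : ∃ a1 : ℤ, a1 = b * c1 - a * d1 := ⟨_, rfl⟩
  have ha : a = 1 + 729 * a1 := by
    rw [ha1]
    have : a = 1 + b * c - a * (d - 1) := by linarith
    rw [hc, hd] at this
    linarith
  have hda : d - a = 729 * (d1 - a1) := by rw [hd, ha]; ring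
  refine ⟨a + 27 * t * c1, b + 27 * t * (d1 - a1) - t ^ 2 * c1, d - 27 * t * c1, ?_, rfl, ?_, ?_⟩
  · have e1 : a * d - b * (729 * c1) = 1 := by rw [← hc]; exact h
    rw [hc]
    linear_combination e1 + 27 * t * c1 * hda
  · have hdaq : (d : ℚ) - a = 729 * (d1 - a1) := by exact_mod_cast hda
    intro x
    induction x using OnePoint.rec with
    | infty =>
      rw [mob_inf]
      by_cases hc0 : c = 0
      · have hc10 : c1 = 0 := by omega
        rw [hc0, hc10]
        simp [mob]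
      · have hcq : (c : ℚ) ≠ 0 := by exact_mod_cast hc0
        have e1 : mob a b c d ∞ = ((a / c : ℚ) : OnePoint ℚ) := by
          simp only [mob, OnePoint.elim_infty, if_neg hc0]
        rw [e1, mob_tr]
        simp only [mob, OnePoint.elim_infty, if_neg hc0]
        congr 1
        push_cast
        have : (c : ℚ) = 729 * c1 := by exact_mod_cast hc
        field_simp
        rw [this]
        ring
    | coe r =>
      rw [mob_tr]
      have hcq : (c : ℚ) = 729 * c1 := by exact_mod_cast hc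
      have e1 : (c : ℚ) * (r + t / 27) + ((d - 27 * t * c1 : ℤ) : ℚ) = c * r + d := by
        push_cast
        rw [hcq]
        ring
      by_cases hz : (c : ℚ) * r + d = 0
      · have hz' : (c : ℚ) * (r + t / 27) + ((d - 27 * t * c1 : ℤ) : ℚ) = 0 := by rw [e1, hz]
        have e2 : mob a b c d (r : OnePoint ℚ) = ∞ := by
          simp only [mob, OnePoint.elim_some, if_pos hz]
        rw [e2, mob_inf]
        simp only [mob, OnePoint.elim_some, if_pos hz']
      · have hz' : (c : ℚ) * (r + t / 27) + ((d - 27 * t * c1 : ℤ) : ℚ) ≠ 0 := by rw [e1]; exact hz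
        have e2 : mob a b c d (r : OnePoint ℚ) = (((a * r + b) / (c * r + d) : ℚ) : OnePoint ℚ) := by
          simp only [mob, OnePoint.elim_some, if_neg hz]
        rw [e2, mob_tr]
        simp only [mob, OnePoint.elim_some, if_neg hz']
        congr 1
        rw [e1, ← mul_left_inj' hz, add_mul, div_mul_cancel₀ _ hz, div_mul_cancel₀ _ hz]
        push_cast
        rw [hcq]
        linear_combination (t : ℚ) / 27 * hdaq
  · intro τ hz
    have hcq : (c : ℂ) = 729 * c1 := by exact_mod_cast hc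
    have hdaq : (d : ℂ) - a = 729 * (d1 - a1) := by exact_mod_cast hda
    have e1 : (c : ℂ) * (τ + t / 27) + ((d - 27 * t * c1 : ℤ) : ℂ) = c * τ + d := by
      push_cast
      rw [hcq]
      ring
    rw [e1, ← mul_left_inj' hz, add_mul, div_mul_cancel₀ _ hz, div_mul_cancel₀ _ hz]
    push_cast
    rw [hcq]
    linear_combination (t : ℂ) / 27 * hdaq

/-- Hermite normal form of `(27, t; 0, 27) γ` -/
theorem herm (t a b c d : ℤ) (h : a * d - b * c = 1) :
    ∃ p q r s A' B' D' : ℤ, p * s - q * r = 1 ∧ 0 < A' ∧ 0 < D' ∧ A' * D' = 729 ∧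
      ∀ τ : ℂ, (c : ℂ) * τ + d ≠ 0 → (r : ℂ) * ((A' * τ + B') / D') + s ≠ 0 ∧
        ((a : ℂ) * τ + b) / (c * τ + d) + t / 27 =
        ((p : ℂ) * ((A' * τ + B') / D') + q) / (r * ((A' * τ + B') / D') + s) := by
  set u : ℤ := 27 * a + t * c with hu
  set v : ℤ := 27 * c with hv
  have hne : u ≠ 0 ∨ v ≠ 0 := by
    by_contra hcon
    push Not at hcon
    have hc0 : c = 0 := by omega
    have ha0 : a = 0 := by
      have h1 := hcon.1
      rw [hu, hc0] at h1
      omega
    rw [hc0, ha0] at h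
    simp at h
  set G : ℤ := (Int.gcd u v : ℤ) with hG
  have hGpos : 0 < G := by
    have : Int.gcd u v ≠ 0 := by
      intro h0
      rw [Int.gcd_eq_zero_iff] at h0
      rcases hne with h1 | h1
      · exact h1 h0.1
      · exact h1 h0.2
    rw [hG]
    exact_mod_cast Nat.pos_of_ne_zero this
  obtain ⟨p, hp⟩ : G ∣ u := Int.gcd_dvd_left _ _
  obtain ⟨r, hr⟩ : G ∣ v := Int.gcd_dvd_right _ _
  have hbz : G = u * Int.gcdA u v + v * Int.gcdB u v := Int.gcd_eq_gcd_ab u v
  obtain ⟨s, hs⟩ : ∃ s, s = Int.gcdA u v := ⟨_, rfl⟩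
  obtain ⟨q, hq⟩ : ∃ q, q = -Int.gcdB u v := ⟨_, rfl⟩
  have hdet : p * s - q * r = 1 := by
    have h1 : G * (p * s - q * r) = G * 1 := by
      rw [hs, hq]
      calc G * (p * Int.gcdA u v - -Int.gcdB u v * r)
          = (G * p) * Int.gcdA u v + (G * r) * Int.gcdB u v := by ring
        _ = u * Int.gcdA u v + v * Int.gcdB u v := by rw [← hp, ← hr]
        _ = G * 1 := by rw [← hbz, mul_one]
    exact mul_left_cancel₀ hGpos.ne' h1
  obtain ⟨B', hB'⟩ : ∃ B', B' = s * (27 * b + t * d) - q * (27 * d) := ⟨_, rfl⟩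
  obtain ⟨D', hD'⟩ : ∃ D', D' = -r * (27 * b + t * d) + p * (27 * d) := ⟨_, rfl⟩
  have hGD : G * D' = 729 := by
    have h1 : G * D' = -(G * r) * (27 * b + t * d) + (G * p) * (27 * d) := by
      rw [hD']; ring
    rw [h1, ← hp, ← hr, hu, hv]
    linear_combination 729 * h
  have hD'pos : 0 < D' := by
    by_contra hcon
    have : G * D' ≤ 0 := mul_nonpos_of_nonneg_of_nonpos hGpos.le (not_lt.1 hcon)
    omega
  refine ⟨p, q, r, s, G, B', D', hdet, hGpos, hD'pos, hGD, fun τ hz => ?_⟩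
  have hDc : (D' : ℂ) ≠ 0 := by exact_mod_cast hD'pos.ne'
  have k1 : p * B' + q * D' = 27 * b + t * d := by
    rw [hB', hD']
    linear_combination (27 * b + t * d) * hdet
  have k2 : r * B' + s * D' = 27 * d := by
    rw [hB', hD']
    linear_combination (27 * d) * hdet
  have k1c : (p : ℂ) * B' + q * D' = 27 * b + t * d := by exact_mod_cast k1
  have k2c : (r : ℂ) * B' + s * D' = 27 * d := by exact_mod_cast k2
  have hpc : (27 : ℂ) * a + t * c = G * p := by exact_mod_cast hp
  have hrc : (27 : ℂ) * c = G * r := by exact_mod_cast hr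
  have e1 : (r : ℂ) * ((G * τ + B') / D') + s = 27 * (c * τ + d) / D' := by
    field_simp
    linear_combination (-τ) * hrc + k2c
  have e2 : (p : ℂ) * ((G * τ + B') / D') + q = (27 * (a * τ + b) + t * (c * τ + d)) / D' := by
    field_simp
    linear_combination (-τ) * hpc + k1c
  constructor
  · rw [e1]
    exact div_ne_zero (mul_ne_zero (by norm_num) hz) hDc
  · rw [e1, e2]
    generalize (c : ℂ) * τ + d = Z at hz
    generalize (a : ℂ) * τ + b = Y
    rw [div_div_div_cancel_right₀ hDc]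
    field_simp

theorem ne0 (c d : ℤ) (a b : ℤ) (h : a * d - b * c = 1) (τ : ℂ) (hτ : 0 < τ.im) :
    (c : ℂ) * τ + d ≠ 0 := by
  intro h0
  have him := congrArg Complex.im h0
  have hre := congrArg Complex.re h0
  simp at him hre
  rcases him with h1 | h1
  · subst h1
    simp at hre
    subst hre
    simp at h
  · exact hτ.ne' h1

variable {N : ℕ} {Φ : OnePoint ℚ → OnePoint ℚ → ℂ} {ϑ : ℂ → ℂ}

/-- the translate has level `729 N` -/
theorem tr (h : SymN N Φ ϑ) (t : ℤ) :
    SymN (729 * N) (fun x y => Φ (mob 27 t 0 27 x) (mob 27 t 0 27 y))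
      (fun τ => ϑ (τ + t / 27)) where
  pos := Nat.mul_pos (by norm_num) h.pos
  add := by
    intro x y z
    exact h.add _ _ _
  inv := by
    rintro a b c d h1 ⟨c1, hc⟩ ⟨d1, hd⟩ x y
    obtain ⟨a', b', d', k1, k2, k3, -⟩ := conj t a b c d (N * c1) (N * d1) h1
      (by rw [hc]; push_cast; ring) (by
        have : d = 1 + (d - 1) := by ring
        rw [this, hd]; push_cast; ring)
    show Φ _ _ = Φ _ _
    rw [k3, k3]
    refine h.inv a' b' c d' k1 ⟨729 * c1, by rw [hc]; push_cast; ring⟩ ⟨729 * d1 - 27 * t * c1, ?_⟩ _ _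
    rw [k2]
    have : d = 1 + (d - 1) := by ring
    rw [this, hd]
    push_cast
    ring
  per := by
    rintro a b c d h1 ⟨c1, hc⟩ ⟨d1, hd⟩ τ hτ
    obtain ⟨a', b', d', k1, k2, k3, k4⟩ := conj t a b c d (N * c1) (N * d1) h1
      (by rw [hc]; push_cast; ring) (by
        have : d = 1 + (d - 1) := by ring
        rw [this, hd]; push_cast; ring)
    show ϑ _ = ϑ _ + Φ _ _
    rw [k4 τ (ne0 c d a b h1 τ hτ), k3, mob_inf]
    refine h.per a' b' c d' k1 ⟨729 * c1, by rw [hc]; push_cast; ring⟩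
      ⟨729 * d1 - 27 * t * c1, ?_⟩ _ ?_
    · rw [k2]
      have : d = 1 + (d - 1) := by ring
      rw [this, hd]
      push_cast
      ring
    · have : ((t : ℂ) / 27).im = 0 := by
        have : ((t : ℂ) / 27) = (((t : ℝ) / 27 : ℝ) : ℂ) := by push_cast; ring
        rw [this]
        exact Complex.ofReal_im _
      rw [Complex.add_im, this, add_zero]
      exact hτ
  cusp := by
    intro a b c d h1
    obtain ⟨p, q, r, s, A', B', D', k1, hA, hD, hAD, k2⟩ := herm t a b c d h1
    obtain ⟨C, w, hw⟩ := h.cusp p q r s k1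
    have hDc : (D' : ℂ) ≠ 0 := by exact_mod_cast hD.ne'
    have hADc : (A' : ℂ) * D' = 729 := by exact_mod_cast hAD
    have hNc : (N : ℂ) ≠ 0 := by exact_mod_cast h.pos.ne'
    obtain ⟨A1, hA1⟩ : ∃ A1 : ℕ, (A1 : ℤ) = A' := ⟨A'.toNat, Int.toNat_of_nonneg hA.le⟩
    have hA1p : 0 < A1 := by
      have : (0 : ℤ) < A1 := by rw [hA1]; exact hA
      exact_mod_cast this
    have hA1c : (A1 : ℂ) = A' := by exact_mod_cast hA1
    set ζ : ℂ := Complex.exp (2 * Real.pi * Complex.I * (B' / D') / N) with hζ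
    set fn : ℕ → ℕ := fun n => A1 ^ 2 * (n + 1) - 1 with hfn
    have hfn1 : ∀ n, fn n + 1 = A1 ^ 2 * (n + 1) := by
      intro n
      have : 0 < A1 ^ 2 * (n + 1) := by positivity
      show A1 ^ 2 * (n + 1) - 1 + 1 = _
      omega
    have hinj : Function.Injective fn := by
      intro n m hnm
      have h3 : A1 ^ 2 * (n + 1) = A1 ^ 2 * (m + 1) := by rw [← hfn1, ← hfn1, hnm]
      have h4 := Nat.eq_of_mul_eq_mul_left (by positivity) h3
      omega
    classical
    refine ⟨C, fun m => if hm : ∃ n, fn n = m then w hm.choose * ζ ^ (hm.choose + 1) else 0,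
      fun τ hτ => ?_⟩
    have hz := ne0 c d a b h1 τ hτ
    have him : 0 < (((A' : ℂ) * τ + B') / D').im := by
      have e1 : ((A' : ℂ) * τ + B') / D' = ((A' / D' : ℝ) : ℂ) * τ + ((B' / D' : ℝ) : ℂ) := by
        push_cast
        field_simp
      rw [e1, Complex.add_im, Complex.ofReal_im, add_zero, Complex.im_ofReal_mul]
      have hA' : (0 : ℝ) < A' := by exact_mod_cast hA
      have hD' : (0 : ℝ) < D' := by exact_mod_cast hD
      positivity
    have hs := hw _ him
    show HasSum _ (ϑ (((a : ℂ) * τ + b) / (c * τ + d) + t / 27) - C)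
    rw [(k2 τ hz).2]
    have e3 : ∀ n, w n * Complex.exp (2 * Real.pi * Complex.I * (((A' : ℂ) * τ + B') / D') / N) ^
        (n + 1) = (fun m => (if hm : ∃ n, fn n = m then w hm.choose * ζ ^ (hm.choose + 1) else 0) *
          Complex.exp (2 * Real.pi * Complex.I * τ / ((729 * N : ℕ) : ℂ)) ^ (m + 1)) (fn n) := by
      intro n
      have hex : ∃ k, fn k = fn n := ⟨n, rfl⟩
      have hch : hex.choose = n := hinj hex.choose_spec
      show _ = (if hm : ∃ k, fn k = fn n then w hm.choose * ζ ^ (hm.choose + 1) else 0) * _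
      rw [dif_pos hex, hch, hfn1, mul_assoc (w n)]
      congr 1
      rw [hζ, ← Complex.exp_nat_mul, ← Complex.exp_nat_mul, ← Complex.exp_nat_mul, ← Complex.exp_add]
      congr 1
      push_cast
      rw [hA1c, ← hADc]
      have hA'c : (A' : ℂ) ≠ 0 := by exact_mod_cast hA.ne'
      field_simp
      ring
    have e4 := hs
    simp_rw [e3] at e4
    refine (hinj.hasSum_iff ?_).1 e4
    intro m hm
    have hm' : ¬ ∃ n, fn n = m := hm
    show (if hm : ∃ n, fn n = m then w hm.choose * ζ ^ (hm.choose + 1) else 0) * _ = 0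
    rw [dif_neg hm', zero_mul]

end Trl

end

end Pool.Agent.NSG


end

section

/-!
# N2, block G2N (helper6): translates by `t / q` of a symbol and of its primitive (`NS/G_Trl.lean` with `27` replaced by `q`)
-/

set_option autoImplicit false

namespace Pool.Agent.N2

open _root_.MU3 _root_.Pool.Agent.MuSym _root_.Pool.Agent.NSG OnePoint

noncomputable section

namespace TrQ

theorem mob_inf (D a : ℤ) : mob D a 0 D ∞ = ∞ := MUXH.H1.mob_inf D a

theorem mob_tr (q t : ℤ) (hq : q ≠ 0) (r : ℚ) :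
    mob q t 0 q (r : OnePoint ℚ) = ((r + (t : ℚ) / q : ℚ) : OnePoint ℚ) :=
  Pool.Agent.MUXHN.H1N.mob_tr q t hq r

theorem mob_zero (q : ℤ) (hq : q ≠ 0) (x : OnePoint ℚ) : mob q (0 : ℤ) 0 q x = x := by
  induction x using OnePoint.rec with
  | infty => exact mob_inf q 0
  | coe r =>
    rw [mob_tr q 0 hq]
    simp

/-- composition of translations -/
theorem mob_mob (q t q' t' : ℤ) (hq : q ≠ 0) (hq' : q' ≠ 0) (x : OnePoint ℚ) :
    mob q t 0 q (mob q' t' 0 q' x) = mob (q * q') (t * q' + t' * q) 0 (q * q') x := by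
  induction x using OnePoint.rec with
  | infty => rw [mob_inf, mob_inf, mob_inf]
  | coe r =>
    have h1 : (q : ℚ) ≠ 0 := by exact_mod_cast hq
    have h2 : (q' : ℚ) ≠ 0 := by exact_mod_cast hq'
    rw [mob_tr q' t' hq', mob_tr q t hq, mob_tr _ _ (mul_ne_zero hq hq')]
    congr 1
    push_cast
    field_simp
    ring

/-- the translation depends on `t / q` only -/
theorem mob_red (q t k : ℤ) (hq : q ≠ 0) (hk : k ≠ 0) (x : OnePoint ℚ) :
    mob (k * q) (k * t) 0 (k * q) x = mob q t 0 q x := by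
  induction x using OnePoint.rec with
  | infty => rw [mob_inf, mob_inf]
  | coe r =>
    have h1 : (q : ℚ) ≠ 0 := by exact_mod_cast hq
    have h2 : (k : ℚ) ≠ 0 := by exact_mod_cast hk
    rw [mob_tr _ _ (mul_ne_zero hk hq), mob_tr _ _ hq]
    congr 1
    push_cast
    field_simp

/-- conjugation by the translation -/
theorem conj (q t a b c d c1 d1 : ℤ) (hq : q ≠ 0) (h : a * d - b * c = 1) (hc : c = q ^ 2 * c1)
    (hd : d = 1 + q ^ 2 * d1) : ∃ a' b' d' : ℤ, a' * d' - b' * c = 1 ∧ d' = d - q * t * c1 ∧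
      (∀ x, mob q t 0 q (mob a b c d x) = mob a' b' c d' (mob q t 0 q x)) ∧
      ∀ τ : ℂ, (c : ℂ) * τ + d ≠ 0 → ((a : ℂ) * τ + b) / (c * τ + d) + t / q =
        ((a' : ℂ) * (τ + t / q) + b') / (c * (τ + t / q) + d') := by
  have hq0 : (q : ℚ) ≠ 0 := by exact_mod_cast hq
  have hqC : (q : ℂ) ≠ 0 := by exact_mod_cast hq
  obtain ⟨a1, ha1⟩ : ∃ a1 : ℤ, a1 = b * c1 - a * d1 := ⟨_, rfl⟩
  have ha : a = 1 + q ^ 2 * a1 := by
    rw [ha1]
    have : a = 1 + b * c - a * (d - 1) := by linarith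
    rw [hc, hd] at this
    linarith
  have hda : d - a = q ^ 2 * (d1 - a1) := by rw [hd, ha]; ring
  refine ⟨a + q * t * c1, b + q * t * (d1 - a1) - t ^ 2 * c1, d - q * t * c1, ?_, rfl, ?_, ?_⟩
  · have e1 : a * d - b * (q ^ 2 * c1) = 1 := by rw [← hc]; exact h
    rw [hc]
    linear_combination e1 + q * t * c1 * hda
  · have hdaq : (d : ℚ) - a = q ^ 2 * (d1 - a1) := by exact_mod_cast hda
    intro x
    induction x using OnePoint.rec with
    | infty =>
      rw [mob_inf]
      by_cases hc0 : c = 0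
      · have hc10 : c1 = 0 := by
          rw [hc0] at hc
          rcases mul_eq_zero.1 hc.symm with h1 | h1
          · exact absurd (pow_eq_zero_iff two_ne_zero |>.1 h1) hq
          · exact h1
        rw [hc0, hc10]
        simp [mob]
      · have hcq : (c : ℚ) ≠ 0 := by exact_mod_cast hc0
        have e1 : mob a b c d ∞ = ((a / c : ℚ) : OnePoint ℚ) := by
          simp only [mob, OnePoint.elim_infty, if_neg hc0]
        rw [e1, mob_tr q t hq]
        simp only [mob, OnePoint.elim_infty, if_neg hc0]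
        congr 1
        push_cast
        have : (c : ℚ) = q ^ 2 * c1 := by exact_mod_cast hc
        field_simp
        rw [this]
        ring
    | coe r =>
      rw [mob_tr q t hq]
      have hcq : (c : ℚ) = q ^ 2 * c1 := by exact_mod_cast hc
      have e1 : (c : ℚ) * (r + t / q) + ((d - q * t * c1 : ℤ) : ℚ) = c * r + d := by
        push_cast
        rw [hcq]
        field_simp
        ring
      by_cases hz : (c : ℚ) * r + d = 0
      · have hz' : (c : ℚ) * (r + t / q) + ((d - q * t * c1 : ℤ) : ℚ) = 0 := by rw [e1, hz]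
        have e2 : mob a b c d (r : OnePoint ℚ) = ∞ := by
          simp only [mob, OnePoint.elim_some, if_pos hz]
        rw [e2, mob_inf]
        simp only [mob, OnePoint.elim_some, if_pos hz']
      · have hz' : (c : ℚ) * (r + t / q) + ((d - q * t * c1 : ℤ) : ℚ) ≠ 0 := by rw [e1]; exact hz
        have e2 : mob a b c d (r : OnePoint ℚ) = (((a * r + b) / (c * r + d) : ℚ) : OnePoint ℚ) := by
          simp only [mob, OnePoint.elim_some, if_neg hz]
        rw [e2, mob_tr q t hq]
        simp only [mob, OnePoint.elim_some, if_neg hz']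
        congr 1
        rw [e1, ← mul_left_inj' hz, add_mul, div_mul_cancel₀ _ hz, div_mul_cancel₀ _ hz]
        push_cast
        rw [hcq]
        field_simp
        linear_combination (t : ℚ) * hdaq
  · intro τ hz
    have hcq : (c : ℂ) = q ^ 2 * c1 := by exact_mod_cast hc
    have hdaq : (d : ℂ) - a = q ^ 2 * (d1 - a1) := by exact_mod_cast hda
    have e1 : (c : ℂ) * (τ + t / q) + ((d - q * t * c1 : ℤ) : ℂ) = c * τ + d := by
      push_cast
      rw [hcq]
      field_simp
      ring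
    rw [e1, ← mul_left_inj' hz, add_mul, div_mul_cancel₀ _ hz, div_mul_cancel₀ _ hz]
    push_cast
    rw [hcq]
    field_simp
    linear_combination (t : ℂ) * hdaq

/-- Hermite normal form of `(q, t; 0, q) γ` -/
theorem herm (q0 t a b c d : ℤ) (hq : 0 < q0) (h : a * d - b * c = 1) :
    ∃ p q r s A' B' D' : ℤ, p * s - q * r = 1 ∧ 0 < A' ∧ 0 < D' ∧ A' * D' = q0 ^ 2 ∧
      ∀ τ : ℂ, (c : ℂ) * τ + d ≠ 0 → (r : ℂ) * ((A' * τ + B') / D') + s ≠ 0 ∧
        ((a : ℂ) * τ + b) / (c * τ + d) + t / q0 =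
        ((p : ℂ) * ((A' * τ + B') / D') + q) / (r * ((A' * τ + B') / D') + s) := by
  set u : ℤ := q0 * a + t * c with hu
  set v : ℤ := q0 * c with hv
  have hne : u ≠ 0 ∨ v ≠ 0 := by
    by_contra hcon
    push Not at hcon
    have hc0 : c = 0 := by
      rcases mul_eq_zero.1 hcon.2 with h1 | h1
      · exact absurd h1 hq.ne'
      · exact h1
    have ha0 : a = 0 := by
      have h1 := hcon.1
      rw [hu, hc0, mul_zero, add_zero] at h1
      rcases mul_eq_zero.1 h1 with h1 | h1
      · exact absurd h1 hq.ne'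
      · exact h1
    rw [hc0, ha0] at h
    simp at h
  set G : ℤ := (Int.gcd u v : ℤ) with hG
  have hGpos : 0 < G := by
    have : Int.gcd u v ≠ 0 := by
      intro h0
      rw [Int.gcd_eq_zero_iff] at h0
      rcases hne with h1 | h1
      · exact h1 h0.1
      · exact h1 h0.2
    rw [hG]
    exact_mod_cast Nat.pos_of_ne_zero this
  obtain ⟨p, hp⟩ : G ∣ u := Int.gcd_dvd_left _ _
  obtain ⟨r, hr⟩ : G ∣ v := Int.gcd_dvd_right _ _
  have hbz : G = u * Int.gcdA u v + v * Int.gcdB u v := Int.gcd_eq_gcd_ab u v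
  obtain ⟨s, hs⟩ : ∃ s, s = Int.gcdA u v := ⟨_, rfl⟩
  obtain ⟨q, hqq⟩ : ∃ q, q = -Int.gcdB u v := ⟨_, rfl⟩
  have hdet : p * s - q * r = 1 := by
    have h1 : G * (p * s - q * r) = G * 1 := by
      rw [hs, hqq]
      calc G * (p * Int.gcdA u v - -Int.gcdB u v * r)
          = (G * p) * Int.gcdA u v + (G * r) * Int.gcdB u v := by ring
        _ = u * Int.gcdA u v + v * Int.gcdB u v := by rw [← hp, ← hr]
        _ = G * 1 := by rw [← hbz, mul_one]
    exact mul_left_cancel₀ hGpos.ne' h1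
  obtain ⟨B', hB'⟩ : ∃ B', B' = s * (q0 * b + t * d) - q * (q0 * d) := ⟨_, rfl⟩
  obtain ⟨D', hD'⟩ : ∃ D', D' = -r * (q0 * b + t * d) + p * (q0 * d) := ⟨_, rfl⟩
  have hGD : G * D' = q0 ^ 2 := by
    have h1 : G * D' = -(G * r) * (q0 * b + t * d) + (G * p) * (q0 * d) := by
      rw [hD']; ring
    rw [h1, ← hp, ← hr, hu, hv]
    linear_combination q0 ^ 2 * h
  have hD'pos : 0 < D' := by
    by_contra hcon
    have h1 : G * D' ≤ 0 := mul_nonpos_of_nonneg_of_nonpos hGpos.le (not_lt.1 hcon)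
    have h2 : 0 < q0 ^ 2 := by positivity
    omega
  refine ⟨p, q, r, s, G, B', D', hdet, hGpos, hD'pos, hGD, fun τ hz => ?_⟩
  have hDc : (D' : ℂ) ≠ 0 := by exact_mod_cast hD'pos.ne'
  have hq0 : (q0 : ℂ) ≠ 0 := by exact_mod_cast hq.ne'
  have k1 : p * B' + q * D' = q0 * b + t * d := by
    rw [hB', hD']
    linear_combination (q0 * b + t * d) * hdet
  have k2 : r * B' + s * D' = q0 * d := by
    rw [hB', hD']
    linear_combination (q0 * d) * hdet
  have k1c : (p : ℂ) * B' + q * D' = q0 * b + t * d := by exact_mod_cast k1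
  have k2c : (r : ℂ) * B' + s * D' = q0 * d := by exact_mod_cast k2
  have hpc : (q0 : ℂ) * a + t * c = G * p := by exact_mod_cast hp
  have hrc : (q0 : ℂ) * c = G * r := by exact_mod_cast hr
  have e1 : (r : ℂ) * ((G * τ + B') / D') + s = q0 * (c * τ + d) / D' := by
    field_simp
    linear_combination (-τ) * hrc + k2c
  have e2 : (p : ℂ) * ((G * τ + B') / D') + q = (q0 * (a * τ + b) + t * (c * τ + d)) / D' := by
    field_simp
    linear_combination (-τ) * hpc + k1c
  constructor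
  · rw [e1]
    exact div_ne_zero (mul_ne_zero hq0 hz) hDc
  · rw [e1, e2]
    generalize (c : ℂ) * τ + d = Z at hz
    generalize (a : ℂ) * τ + b = Y
    rw [div_div_div_cancel_right₀ hDc]
    field_simp

variable {N : ℕ} {Φ : OnePoint ℚ → OnePoint ℚ → ℂ} {ϑ : ℂ → ℂ}

/-- the translate has level `q² N` -/
theorem tr (h : SymN N Φ ϑ) (q : ℕ) (hq : 0 < q) (t : ℤ) :
    SymN (q ^ 2 * N) (fun x y => Φ (mob q t 0 q x) (mob q t 0 q y))
      (fun τ => ϑ (τ + t / q)) where
  pos := Nat.mul_pos (by positivity) h.pos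
  add := by
    intro x y z
    exact h.add _ _ _
  inv := by
    rintro a b c d h1 ⟨c1, hc⟩ ⟨d1, hd⟩ x y
    obtain ⟨a', b', d', k1, k2, k3, -⟩ := conj q t a b c d (N * c1) (N * d1)
      (by exact_mod_cast hq.ne') h1
      (by rw [hc]; push_cast; ring) (by
        have : d = 1 + (d - 1) := by ring
        rw [this, hd]; push_cast; ring)
    show Φ _ _ = Φ _ _
    rw [k3, k3]
    refine h.inv a' b' c d' k1 ⟨q ^ 2 * c1, by rw [hc]; push_cast; ring⟩
      ⟨q ^ 2 * d1 - q * t * c1, ?_⟩ _ _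
    rw [k2]
    have : d = 1 + (d - 1) := by ring
    rw [this, hd]
    push_cast
    ring
  per := by
    rintro a b c d h1 ⟨c1, hc⟩ ⟨d1, hd⟩ τ hτ
    obtain ⟨a', b', d', k1, k2, k3, k4⟩ := conj q t a b c d (N * c1) (N * d1)
      (by exact_mod_cast hq.ne') h1
      (by rw [hc]; push_cast; ring) (by
        have : d = 1 + (d - 1) := by ring
        rw [this, hd]; push_cast; ring)
    have k4' := k4 τ (Pool.Agent.NSG.Trl.ne0 c d a b h1 τ hτ)
    push_cast at k4'
    show ϑ _ = ϑ _ + Φ _ _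
    rw [k4', k3, mob_inf]
    have := h.per a' b' c d' k1 ⟨q ^ 2 * c1, by rw [hc]; push_cast; ring⟩
      ⟨q ^ 2 * d1 - q * t * c1, ?_⟩ (τ + t / q) ?_
    · exact this
    · rw [k2]
      have : d = 1 + (d - 1) := by ring
      rw [this, hd]
      push_cast
      ring
    · have : ((t : ℂ) / q).im = 0 := by
        have : ((t : ℂ) / q) = (((t : ℝ) / q : ℝ) : ℂ) := by push_cast; ring
        rw [this]
        exact Complex.ofReal_im _
      rw [Complex.add_im, this, add_zero]
      exact hτ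
  cusp := by
    intro a b c d h1
    obtain ⟨p, q', r, s, A', B', D', k1, hA, hD, hAD, k2⟩ := herm q t a b c d
      (by exact_mod_cast hq) h1
    obtain ⟨C, w, hw⟩ := h.cusp p q' r s k1
    have hDc : (D' : ℂ) ≠ 0 := by exact_mod_cast hD.ne'
    have hADc : (A' : ℂ) * D' = (q : ℂ) ^ 2 := by exact_mod_cast hAD
    have hNc : (N : ℂ) ≠ 0 := by exact_mod_cast h.pos.ne'
    have hqc : (q : ℂ) ≠ 0 := by exact_mod_cast hq.ne'
    obtain ⟨A1, hA1⟩ : ∃ A1 : ℕ, (A1 : ℤ) = A' := ⟨A'.toNat, Int.toNat_of_nonneg hA.le⟩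
    have hA1p : 0 < A1 := by
      have : (0 : ℤ) < A1 := by rw [hA1]; exact hA
      exact_mod_cast this
    have hA1c : (A1 : ℂ) = A' := by exact_mod_cast hA1
    set ζ : ℂ := Complex.exp (2 * Real.pi * Complex.I * (B' / D') / N) with hζ
    set fn : ℕ → ℕ := fun n => A1 ^ 2 * (n + 1) - 1 with hfn
    have hfn1 : ∀ n, fn n + 1 = A1 ^ 2 * (n + 1) := by
      intro n
      have : 0 < A1 ^ 2 * (n + 1) := by positivity
      show A1 ^ 2 * (n + 1) - 1 + 1 = _
      omega
    have hinj : Function.Injective fn := by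
      intro n m hnm
      have h3 : A1 ^ 2 * (n + 1) = A1 ^ 2 * (m + 1) := by rw [← hfn1, ← hfn1, hnm]
      have h4 := Nat.eq_of_mul_eq_mul_left (by positivity) h3
      omega
    classical
    refine ⟨C, fun m => if hm : ∃ n, fn n = m then w hm.choose * ζ ^ (hm.choose + 1) else 0,
      fun τ hτ => ?_⟩
    have hz := Pool.Agent.NSG.Trl.ne0 c d a b h1 τ hτ
    have him : 0 < (((A' : ℂ) * τ + B') / D').im := by
      have e1 : ((A' : ℂ) * τ + B') / D' = ((A' / D' : ℝ) : ℂ) * τ + ((B' / D' : ℝ) : ℂ) := by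
        push_cast
        field_simp
      rw [e1, Complex.add_im, Complex.ofReal_im, add_zero, Complex.im_ofReal_mul]
      have hA' : (0 : ℝ) < A' := by exact_mod_cast hA
      have hD' : (0 : ℝ) < D' := by exact_mod_cast hD
      positivity
    have hs := hw _ him
    have k2' := (k2 τ hz).2
    push_cast at k2'
    show HasSum _ (ϑ (((a : ℂ) * τ + b) / (c * τ + d) + t / q) - C)
    rw [k2']
    have e3 : ∀ n, w n * Complex.exp (2 * Real.pi * Complex.I * (((A' : ℂ) * τ + B') / D') / N) ^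
        (n + 1) = (fun m => (if hm : ∃ n, fn n = m then w hm.choose * ζ ^ (hm.choose + 1) else 0) *
          Complex.exp (2 * Real.pi * Complex.I * τ / ((q ^ 2 * N : ℕ) : ℂ)) ^ (m + 1)) (fn n) := by
      intro n
      have hex : ∃ k, fn k = fn n := ⟨n, rfl⟩
      have hch : hex.choose = n := hinj hex.choose_spec
      show _ = (if hm : ∃ k, fn k = fn n then w hm.choose * ζ ^ (hm.choose + 1) else 0) * _
      rw [dif_pos hex, hch, hfn1, mul_assoc (w n)]
      congr 1
      rw [hζ, ← Complex.exp_nat_mul, ← Complex.exp_nat_mul, ← Complex.exp_nat_mul, ← Complex.exp_add]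
      congr 1
      push_cast
      rw [hA1c, ← hADc]
      have hA'c : (A' : ℂ) ≠ 0 := by exact_mod_cast hA.ne'
      field_simp
      ring
    have e4 := hs
    simp_rw [e3] at e4
    refine (hinj.hasSum_iff ?_).1 e4
    intro m hm
    have hm' : ¬ ∃ n, fn n = m := hm
    show (if hm : ∃ n, fn n = m then w hm.choose * ζ ^ (hm.choose + 1) else 0) * _ = 0
    rw [dif_neg hm', zero_mul]

end TrQ

end

end Pool.Agent.N2


end

section

/-!
# MUX, end of block G (helper3): Theorem G at full level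

Glue of `Sg_GTHX` (StGX.lean) with blocks XT (StXT.lean), XF (StXF.lean), section 9 (StYX.lean) and the good reduction of the
normalised lattices. Statements `Sg_X`, modules `MUXN_X`, theorems `tg_X` in `N_X.lean`, namespace `Pool.Agent.MUXN`.
Bridges between the two copies of the definitions: `Pool.Agent.MUXY.cqF`, `liF`, `eiF`, `phiF` (StYX.lean); `thetaI`, `thetaIntI`, `nI`, .. are
equal by `rfl`; `chiX = MUXF.chiQ`, `nuX = MUXF.nuQ`, and `MUXT.chiQ` (with `-(B² + 4 A)` for `absD A B`) are equal by `rfl` or `unfold`.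
-/

set_option autoImplicit false

namespace Pool.Agent.MUXN

open _root_.MU3 _root_.Pool.Agent.MU3A _root_.Pool.Agent.MU3B _root_.Pool.Agent.MU3Q _root_.Pool.Agent.MUX _root_.Pool.Agent.MuSym
  OnePoint UpperHalfPlane

noncomputable section

/-- (UNIT) the only elements of norm `1` are `1` and `-1`; an element of an ideal `b` with the norm of `b` generates `b`.

PROOF. `4 nm x = (2 re x + B im x)² + |D| im x²` and `|D| > 4`: `D ≡ 1` modulo `3` or `8` and `B² + 4 A < 0`; `D = -3` and `D = -4` are neither (`-3 - 1 = -4`, `-4 - 1 = -5`); `D = -1, -2` do not occur (`B = 0`: `D ≡ 0`, `B = 1`: `D ≡ 1` modulo `4`).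
So `im x = 0`, `re x = ± 1`. Second: `sp x ≤ b`, and `nI (sp x) = nm x = nI b` (`Sx_NIM`), so the finite quotients `O/(x) → O/b` (surjective) have the same cardinality, `b = sp x`. (`Sx_NIM` second part; `x ≠ 0` as `nI b ≠ 0`.) -/
def Sg_UNIT : Prop :=
  ∀ (p : ℕ) (A B : ℤ) (_ : CaseP p A B), (∀ x : OO A B, nm x = 1 → x = 1 ∨ x = -1) ∧
    ∀ (b : Ideal (OO A B)) (_ : b ≠ ⊥) (x : OO A B), x ∈ b → nm x = nI b → b = sp x

/-- (QXP) the `q`-expansion of `thetaIntI`.

Uses Sg_UNIT, Sx_ALG, Sx_IDL, Sx_QB, Sx_BDD, Sx_TSM. MODEL: `MU3/G_GTE.lean` or `MU3/T_REG.lean` (grouping by the value of the norm: `HasSum.sigma` or `HasSum.tsum_fiberwise`). PROOF. `α n = (1/2) Σ e x conj (emb x)` over the finite set of the `x ∈ b` with `qb b x = n`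
(finite: `nm x = nI b n` bounds the coordinates). `x ↦ -x` is an involution without fixed points for `n ≥ 1` (`e (-x) = -e x`, `conj (emb (-x)) = -conj (emb x)`: the terms of `x` and `-x` are equal), so `α n` is the sum over the half `{im x > 0 or (im x = 0 and re x > 0)}`,
an algebraic integer (`e x` is `0` or a root of unity, `conj (emb x) = emb (star x)` is integral). `K = ℚ(values of e, wC)` as subfield of `ℂ`: finite over `ℚ` (finitely many values: BDD; algebraic). `i = i0`: `b = ⊤`, `nI ⊤ = 1`,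
UNIT: `x = ± 1`, `α 1 = (1/2)(1 + 1)`. `i ≠ i0`: an `x ∈ b_i` with `nm x = nI (b i)` gives `b_i = sp x`, `sp 1 * b_i = sp x * b_(i0)`, so `i = i0` (`R.inj`), no `x` and `α 1 = 0`. The series: `x = 0` contributes `0` (division by `0`), summability of the primitive from TSM at `τ`
(`‖1/(nm x/nI b)‖ ≤ 1` for `x ≠ 0`), `exp (2 π i (nm x/nI b) τ) = q^n`. -/
def Sg_QXP : Prop :=
  ∀ (p : ℕ) (A B : ℤ) (_ : CaseP p A B) (n : ℕ) (ι : Type) (R : Reps A B n ι)
    (g : Ideal (OO A B)) (_ : g ≠ ⊥) (e : OO A B → ℂ) (_ : IsEI g e) (r : ℕ) (_ : r ≠ 0)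
    (_ : ∀ x, e x ≠ 0 → e x ^ r = 1) (i : ι),
    ∃ α : ℕ → ℂ, (∀ n, IsIntegral ℤ (α n)) ∧
      (∃ K : Subfield ℂ, NumberField K ∧ ∀ n, α n ∈ K) ∧ (i = R.i0 → α 1 = 1) ∧
      (i ≠ R.i0 → α 1 = 0) ∧ ∀ τ : ℂ, 0 < τ.im → HasSum (fun n : ℕ => α n / n *
        Complex.exp (2 * Real.pi * Complex.I * τ) ^ n) (thetaIntI (R.b i) e τ)

/-- (GDT) the data for Theorem G.

Uses Sg_QXP, `MUXT.Xs_FTI`, `MUXF.Sx_CHI`, `MUXF.Sx_IDL`, `MUXY.Sy_CON`, `Sy_ALP`, `Sy_ALM`, `Sy_FEC`, `Sy_COP`, and TorX. PROOF. `g = idl f * cjI P`: `g ≠ ⊥` (`f ≠ 0`, `p ∈ cjI P`: `p * f ∈ g`, `p f ≠ 0`), `g ≠ ⊤` (`g ≤ cjI P`, which is a prime ideal),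
`((p f : ℕ) : O) ∈ g`, so Sy_COP with `t = 1`. `E` = the set of the `σ ∘ e`: finite (FEC). Every `e' ∈ E` is `IsEI g e'` (`Sy_CON` first part, or directly), `e' x ≠ 0 → e' x ^ r = 1`. `G = p f`: `e'` is periodic modulo `G` (`G ∈ g`), `e' (-1) = -1`: Xs_FTI applies (`(absD A B) G² ∣ N'`,
`absD A B = -(B² + 4 A)`). `add`: unfold `PhiI`. `inv`, `per`: `IsSym`, thetaIntI of FTI with `nu d = chiQ d * e' d = 1` for `N' ∣ d - 1`: `absD ∣ N'`, so `chiQ d = chiQ 1 = 1` (Sx_CHI for `n = 1`, `n' = d`: `IsCoprime 1 _`), and `e' d = e' 1 = 1` (`d - 1 ∈ g` as `G ∣ N'`).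
`cusp`: FTI, `C = PhiI b e ∞ (γ ∞)`. `qexp`: QXP. `rat`: Sy_CON for `e'` gives `j`, `C` with `σ (PhiI (b i) e' x y/om_(i0)) = C (PhiI (b j) (σ ∘ e') x y/om_(i0))`; multiply by `σ (om_(i0)/om_i)`: `u = C σ(om_(i0)/om_i) om_j/om_(i0)` (`om ≠ 0`); `σ ∘ (τ ∘ e) ∈ E`. `alg`: Sy_ALP. `algo`: Sy_ALM. -/
def Sg_GDT : Prop :=
  ∀ (p : ℕ) (A B : ℤ) (P : Ideal (OO A B)) (V : ValuationSubring ℂ) (f : ℕ)
    (_ : SetP p A B P V f) (_ : TorX A B) (ι : Type) [Finite ι] (R : Reps A B (p * f) ι)
    (e : OO A B → ℂ) (_ : IsEI (idl f * cjI P) e) (r : ℕ) (_ : r ≠ 0)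
    (_ : ∀ x, e x ≠ 0 → e x ^ r = 1) (N' : ℕ) (_ : N' ≠ 0)
    (_ : absD A B * ((p : ℤ) * f) ^ 2 ∣ (N' : ℤ)),
    ∃ E : Set (OO A B → ℂ), e ∈ E ∧ GDat R E N'

/-- (GRX) good ordinary reduction of the normalised lattices, for both `p` (p = 2: `S2_GD2` of StR2.lean; p = 3: block XR, helper51). -/
def Sg_GRX : Prop :=
  ∀ (p : ℕ) (A B : ℤ) (_ : CaseP p A B) (P : Ideal (OO A B)) (_ : IsPN p P)
    (V : ValuationSubring ℂ) (_ : OverI V P) (b : Ideal (OO A B)) (L : PeriodPair) (om : ℂ)
    (_ : IsNL b L om), IsAlgebraic ℚ (kap L) ∧ V.valuation (kap L) = 1 ∧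
      V.valuation (1 + 1728 * kap L) = 1

/-- (GFX) Theorem G: the input `Sy_GX` of block H (StHX2.lean), for both `p`. (The older `Sg_GFIN` of StGX.lean is not used.) -/
theorem tg_GFX (hT : ∀ A B : ℤ, CQ A B → TorX A B) (hG : Sg_GTHX) (hD : Sg_GDT)
    (hR : Sg_GRX) (hU : MUXHY.Sy_ROU) (hB : ∀ (p : ℕ) (A B : ℤ) (P : Ideal (OO A B))
      (V : ValuationSubring ℂ) (f : ℕ), SetP p A B P V f → idl f * cjI P ≠ ⊥) : MUXHY.Sy_GX := by
  intro p A B P V f hS ι _ R e he kk _ _ hkk N' hN hN'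
  obtain ⟨r, hr, her⟩ := hU A B hS.case.toCQ _ e (hB p A B P V f hS) he
  obtain ⟨E, heE, hE⟩ := hD p A B P V f hS (hT A B hS.case.toCQ) ι R e he r hr her N' hN hN'
  have hp : p.Prime := by
    rcases hS.case.split with h | h
    · rw [h.1]; exact Nat.prime_three
    · rw [h.1]; exact Nat.prime_two
  obtain ⟨h1, h2, h3⟩ := hR p A B hS.case P hS.hP V hS.hV _ _ _ (R.nl R.i0)
  obtain ⟨a, b, c, d, h4, h5, h6, h7⟩ := hG A B hS.case.toCQ (p * f) ι R E N' hE p hp P hS.hP V
    hS.hV h1 h2 h3 e heE kk (fun h => by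
      rw [ValuationSubring.mem_nonunits_iff] at h
      exact absurd hkk h.ne)
  refine ⟨a, b, c, d, h4, h5, h6, ?_⟩
  rw [ValuationSubring.mem_nonunits_iff] at h7
  exact not_lt.mp h7

end

end Pool.Agent.MUXN


end

section

/-!
# MUX, end of block G, module QXP: the `q`-expansion of `thetaIntI`
-/

set_option autoImplicit false

namespace Pool.Agent.MUXN

open _root_.MU3 _root_.Pool.Agent.MU3A _root_.Pool.Agent.MU3B _root_.Pool.Agent.MU3Q _root_.Pool.Agent.MUX _root_.Pool.Agent.MuSym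
  OnePoint UpperHalfPlane
open _root_.Pool.Agent.MUXF (Sx_ALG Sx_IDL Sx_QB Sx_BDD Sx_TSM qb)
open _root_.Pool.Agent.MUXY (cqF eiF)
open scoped ComplexConjugate

noncomputable section

namespace N_QXP

variable {A B : ℤ}

/-- finitely many elements of bounded norm -/
theorem fin_nm (hc : MUX.CQ A B) (c : ℤ) : {x : OO A B | nm x ≤ c}.Finite := by
  set M : ℤ := (4 * |A| + 4) * |c| with hM
  have hsub : {x : OO A B | nm x ≤ c} ⊆
      (fun p : ℤ × ℤ => (⟨p.1, p.2⟩ : OO A B)) '' (Set.Icc (-M) M ×ˢ Set.Icc (-M) M) := by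
    intro x hx
    have h1 := Pool.Agent.MUXF.TsmX.bd (cqF hc) x
    have h2 : x.re ^ 2 + x.im ^ 2 ≤ (4 * |A| + 4) * nm x := by
      have h3 : ((x.re ^ 2 + x.im ^ 2 : ℤ) : ℝ) ≤ (((4 * |A| + 4) * nm x : ℤ) : ℝ) := by
        push_cast
        exact h1
      exact_mod_cast h3
    have h4 : (4 * |A| + 4) * nm x ≤ M := by
      rw [hM]
      have h5 : nm x ≤ |c| := le_trans hx (le_abs_self c)
      have h6 : 0 ≤ 4 * |A| + 4 := by positivity
      exact mul_le_mul_of_nonneg_left h5 h6
    have h7 : ∀ y : ℤ, y ^ 2 ≤ M → -M ≤ y ∧ y ≤ M := by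
      intro y hy
      constructor
      · nlinarith [sq_nonneg (y + 1), sq_nonneg y]
      · nlinarith [sq_nonneg (y - 1), sq_nonneg y]
    refine ⟨(x.re, x.im), ⟨?_, ?_⟩, rfl⟩
    · exact h7 x.re (by nlinarith [sq_nonneg x.im])
    · exact h7 x.im (by nlinarith [sq_nonneg x.re])
  exact (((Set.finite_Icc _ _).prod (Set.finite_Icc _ _)).image _).subset hsub

/-- the fibres of `qb` are finite -/
theorem fin_fib (hc : MUX.CQ A B) (hQB : Sx_QB) (b : Ideal (OO A B)) (hb : b ≠ ⊥) (n : ℕ) :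
    {x : b | (qb b (x : OO A B)).toNat = n}.Finite := by
  have h1 := (fin_nm hc (MUX.nI b * n)).preimage
    (Set.injOn_of_injective (f := fun x : b => (x : OO A B)) Subtype.val_injective)
  refine h1.subset ?_
  intro x hx
  obtain ⟨h2, h3⟩ := (hQB A B (cqF hc) b hb).1 x x.2
  show nm (x : OO A B) ≤ MUX.nI b * n
  have h4 : qb b (x : OO A B) = n := by
    have h5 : (qb b (x : OO A B)).toNat = n := hx
    omega
  rw [h2, h4]
  exact le_rfl

/-- `x` in the upper half of `O` -/
def PH (x : OO A B) : Prop := 0 < x.im ∨ (x.im = 0 ∧ 0 < x.re)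

theorem PH_neg (x : OO A B) (hx : x ≠ 0) : PH (-x) ↔ ¬ PH x := by
  have h1 : (-x).im = -x.im := rfl
  have h2 : (-x).re = -x.re := rfl
  have h3 : ¬ (x.re = 0 ∧ x.im = 0) := fun h => hx (QuadraticAlgebra.ext h.1 h.2)
  unfold PH
  rw [h1, h2]
  omega

theorem half_sum {b : Ideal (OO A B)} (S : Finset b) (hS : ∀ x ∈ S, -x ∈ S) (h0 : (0 : b) ∉ S)
    (t : b → ℂ) (ht : ∀ x, t (-x) = t x) [DecidablePred fun x : b => PH (x : OO A B)] :
    ∑ x ∈ S, t x = 2 * ∑ x ∈ S.filter (fun x : b => PH (x : OO A B)), t x := by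
  have hne : ∀ x ∈ S, (x : OO A B) ≠ 0 := by
    intro x hx h
    apply h0
    have : x = 0 := Subtype.ext h
    rwa [this] at hx
  rw [← Finset.sum_filter_add_sum_filter_not S (fun x : b => PH (x : OO A B)), two_mul]
  congr 1
  refine Finset.sum_nbij' (fun x => -x) (fun x => -x) ?_ ?_ ?_ ?_ ?_
  · intro x hx
    obtain ⟨h1, h2⟩ := Finset.mem_filter.1 hx
    exact Finset.mem_filter.2 ⟨hS x h1, (PH_neg _ (hne x h1)).2 h2⟩
  · intro x hx
    obtain ⟨h1, h2⟩ := Finset.mem_filter.1 hx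
    refine Finset.mem_filter.2 ⟨hS x h1, fun h3 => ?_⟩
    exact (PH_neg _ (hne x h1)).1 h3 h2
  · intro x _
    exact neg_neg x
  · intro x _
    exact neg_neg x
  · intro x _
    exact (ht x).symm

theorem emb_int (hc : MUX.CQ A B) (x : OO A B) : IsIntegral ℤ (emb x) := by
  unfold emb
  exact (isIntegral_algebraMap (R := ℤ) (A := ℂ) (x := x.re)).add
    ((isIntegral_algebraMap (R := ℤ) (A := ℂ) (x := x.im)).mul (N_GJ.wC_int hc))

end N_QXP

open _root_.Pool.Agent.MUXN.N_QXP in
/-- the `q`-expansion of `thetaIntI` -/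
theorem tg_QXP (hU : Sg_UNIT) (hA : Sx_ALG) (hI : Sx_IDL) (hQB : Sx_QB) (hBD : Sx_BDD)
    (hTS : Sx_TSM) : Sg_QXP := by
  classical
  intro p A B hcp n ι R g hg e he r hr her i
  have hc : MUX.CQ A B := hcp.toCQ
  have hb : R.b i ≠ ⊥ := (R.nl i).b_ne
  obtain ⟨u1, u2⟩ := hU p A B hcp
  obtain ⟨a1, a2, a3, a4, -⟩ := hA A B (cqF hc)
  obtain ⟨q1, -, -⟩ := hQB A B (cqF hc) (R.b i) hb
  have hnb : MUX.nI (R.b i) ≠ 0 := (hI A B (cqF hc) (R.b i) hb).1
  have hnbC : ((MUX.nI (R.b i) : ℕ) : ℂ) ≠ 0 := by exact_mod_cast hnb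
  obtain ⟨hfin, C, hC0, hC⟩ := hBD A B (cqF hc) g e hg (eiF he)
  set b : Ideal (OO A B) := R.b i with hbdef
  set S : ℕ → Finset b := fun m => (fin_fib hc hQB b hb m).toFinset with hSdef
  have hS : ∀ (m : ℕ) (x : b), x ∈ S m ↔ (qb b (x : OO A B)).toNat = m := by
    intro m x
    rw [hSdef]
    simp
  set t : b → ℂ := fun x => e x * conj (emb (x : OO A B)) with htdef
  have hconj : ∀ x : OO A B, conj (emb x) = emb (star x) := fun x => ((a2 x).2.2.2.2.2.1).symm
  have hnmneg : ∀ x : OO A B, nm (-x) = nm x := by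
    intro x
    unfold nm
    have h1 : (-x).im = -x.im := rfl
    have h2 : (-x).re = -x.re := rfl
    rw [h1, h2]
    ring
  have hembneg : ∀ x : OO A B, emb (-x) = -emb x := by
    intro x
    rw [← N_GJ.eHom_apply hc, ← N_GJ.eHom_apply hc, map_neg]
  have heneg : ∀ x : OO A B, e (-x) = -e x := by
    intro x
    have h1 := he.mul (-1) x
    rw [neg_one_mul, he.neg, neg_one_mul] at h1
    exact h1
  have htneg : ∀ x : b, t (-x) = t x := by
    intro x
    show e (-(x : OO A B)) * conj (emb (-(x : OO A B))) = e x * conj (emb (x : OO A B))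
    rw [heneg, hembneg, map_neg, neg_mul_neg]
  have hqbneg : ∀ x : OO A B, qb b (-x) = qb b x := by
    intro x
    unfold qb
    rw [hnmneg]
  have hSneg : ∀ m, ∀ x ∈ S m, -x ∈ S m := by
    intro m x hx
    rw [hS] at hx ⊢
    show (qb b (-(x : OO A B))).toNat = m
    rw [hqbneg, hx]
  have hqb0 : qb b (0 : OO A B) = 0 := by
    unfold qb nm
    simp
  have hS0 : ∀ m, m ≠ 0 → (0 : b) ∉ S m := by
    intro m hm h
    rw [hS] at h
    apply hm
    rw [← h]
    show (qb b (0 : OO A B)).toNat = 0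
    rw [hqb0]
    rfl
  have hnmS : ∀ (m : ℕ) (x : b), x ∈ S m → nm (x : OO A B) = MUX.nI b * m := by
    intro m x hx
    rw [hS] at hx
    obtain ⟨h2, h3⟩ := q1 x x.2
    have h4 : qb b (x : OO A B) = m := by omega
    rw [h2, h4]
    rfl
  have hS00 : ∀ x ∈ S 0, t x = 0 := by
    intro x hx
    have h1 := hnmS 0 x hx
    have h2 : (x : OO A B) = 0 := (a2 x).2.1.1 (by rw [h1]; simp)
    rw [htdef]
    beta_reduce
    rw [h2, (a2 0).1.2 rfl]
    simp
  set α : ℕ → ℂ := fun m => (1 / 2) * ∑ x ∈ S m, t x with hαdef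
  have hα0 : α 0 = 0 := by
    rw [hαdef]
    beta_reduce
    rw [Finset.sum_eq_zero hS00, mul_zero]
  have hαn : ∀ m, m ≠ 0 → α m = ∑ x ∈ (S m).filter (fun x : b => PH (x : OO A B)), t x := by
    intro m hm
    rw [hαdef]
    beta_reduce
    rw [half_sum (S m) (hSneg m) (hS0 m hm) t htneg]
    ring
  have htint : ∀ x : b, IsIntegral ℤ (t x) := by
    intro x
    show IsIntegral ℤ (e x * conj (emb (x : OO A B)))
    rw [hconj]
    refine IsIntegral.mul ?_ (emb_int hc _)
    by_cases h : e x = 0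
    · rw [h]
      exact isIntegral_zero
    · exact IsIntegral.of_pow (n := r) (Nat.pos_of_ne_zero hr)
        (by rw [her x h]; exact isIntegral_one)
  refine ⟨α, ?_, ?_, ?_, ?_, ?_⟩
  · intro m
    by_cases hm : m = 0
    · rw [hm, hα0]
      exact isIntegral_zero
    · rw [hαn m hm]
      exact IsIntegral.sum _ fun x _ => htint x
  · have hfin2 : (Set.range e ∪ {wC A B}).Finite := hfin.union (Set.finite_singleton _)
    have hfin3 : Finite ↑(Set.range e ∪ {wC A B}) := hfin2
    set K : IntermediateField ℚ ℂ := IntermediateField.adjoin ℚ (Set.range e ∪ {wC A B}) with hK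
    have hKfd : FiniteDimensional ℚ K := by
      apply IntermediateField.finiteDimensional_adjoin
      rintro x (⟨y, rfl⟩ | hx)
      · by_cases h : e y = 0
        · rw [h]
          exact isIntegral_zero
        · exact IsIntegral.of_pow (n := r) (Nat.pos_of_ne_zero hr)
            (by rw [her y h]; exact isIntegral_one)
      · rw [Set.mem_singleton_iff] at hx
        rw [hx]
        exact (N_GJ.wC_int hc).tower_top
    have hKe : ∀ x, e x ∈ K := fun x =>
      IntermediateField.subset_adjoin ℚ _ (Or.inl ⟨x, rfl⟩)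
    have hKw : wC A B ∈ K := IntermediateField.subset_adjoin ℚ _ (Or.inr rfl)
    have hKemb : ∀ x : OO A B, emb x ∈ K := fun x =>
      add_mem (intCast_mem _ _) (mul_mem (intCast_mem _ _) hKw)
    refine ⟨K.toSubfield, ?_, ?_⟩
    · have h4 : NumberField K := ⟨⟩
      exact h4
    · intro m
      show α m ∈ K
      refine mul_mem (div_mem (one_mem _) (ofNat_mem K 2)) (sum_mem fun x _ => ?_)
      show e x * conj (emb (x : OO A B)) ∈ K
      rw [hconj]
      exact mul_mem (hKe _) (hKemb _)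
  · intro hi
    have hbt : b = ⊤ := by rw [hbdef, hi, R.b0]
    have hn1 : MUX.nI b = 1 := by
      rw [hbt]
      unfold MUX.nI
      exact Nat.card_unique
    have h1mem : (1 : OO A B) ∈ b := by rw [hbt]; trivial
    rw [hαn 1 one_ne_zero]
    have hfil : (S 1).filter (fun x : b => PH (x : OO A B)) = {⟨1, h1mem⟩} := by
      ext x
      rw [Finset.mem_filter, Finset.mem_singleton]
      constructor
      · rintro ⟨h1, h2⟩
        have h3 := hnmS 1 x h1
        rw [hn1] at h3
        rcases u1 x (by rw [h3]; norm_num) with h4 | h4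
        · exact Subtype.ext h4
        · exfalso
          rw [h4] at h2
          have h5 : (-1 : OO A B).im = 0 := neg_zero
          have h6 : (-1 : OO A B).re = -1 := rfl
          unfold PH at h2
          rw [h5, h6] at h2
          omega
      · intro h
        rw [h]
        constructor
        · rw [hS]
          show (qb b (1 : OO A B)).toNat = 1
          have h3 := (q1 1 h1mem).1
          have h4 : (MUX.nI b : ℤ) = 1 := by rw [hn1]; rfl
          have h5 : nm (1 : OO A B) = 1 := by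
            unfold nm
            rw [QuadraticAlgebra.re_one, QuadraticAlgebra.im_one]
            ring
          have h6 : nm (1 : OO A B) = (MUX.nI b : ℤ) * qb b (1 : OO A B) := h3
          rw [h4, h5, one_mul] at h6
          rw [← h6]
          rfl
        · unfold PH
          right
          exact ⟨QuadraticAlgebra.im_one, by
            show (0 : ℤ) < (1 : OO A B).re
            rw [QuadraticAlgebra.re_one]
            exact one_pos⟩
    rw [hfil, Finset.sum_singleton]
    show e 1 * conj (emb (1 : OO A B)) = 1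
    rw [he.one, ← N_GJ.eHom_apply hc, map_one, map_one, one_mul]
  · intro hi
    have hS1 : S 1 = ∅ := by
      apply Finset.eq_empty_of_forall_notMem
      intro x hx
      have h1 := hnmS 1 x hx
      rw [Nat.cast_one, mul_one] at h1
      have h2 := u2 b hb x x.2 h1
      apply hi
      have hx0 : (x : OO A B) ≠ 0 := by
        intro h0
        rw [h0] at h1
        have h3 : nm (0 : OO A B) = 0 := by
          unfold nm
          simp
        rw [h3] at h1
        exact hnb (by exact_mod_cast h1.symm)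
      have hone : (1 : OO A B) ≠ 0 := by
        intro h0
        apply hx0
        rw [← mul_one (x : OO A B), h0, mul_zero]
      refine R.inj i R.i0 1 x hone hx0 ?_
      rw [R.b0]
      show sp (1 : OO A B) * b = sp (x : OO A B) * ⊤
      rw [← h2, Ideal.mul_top]
      show Ideal.span {(1 : OO A B)} * b = b
      rw [Ideal.span_singleton_one, Ideal.top_mul]
    show (1 / 2) * ∑ x ∈ S 1, t x = 0
    rw [hS1, Finset.sum_empty, mul_zero]
  · intro τ hτ
    have hsum := hTS A B (cqF hc) b hb e C hC τ hτ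
    have hq : ∀ x : b, ((nm (x : OO A B) : ℤ) : ℂ) / ((MUX.nI b : ℕ) : ℂ) =
        ((qb b (x : OO A B) : ℤ) : ℂ) := by
      intro x
      have h1 : nm (x : OO A B) = (MUX.nI b : ℤ) * qb b (x : OO A B) := (q1 x x.2).1
      rw [h1]
      push_cast
      field_simp
    set f : b → ℂ := fun x => e x * conj (emb (x : OO A B)) /
      (((nm (x : OO A B) : ℤ) : ℂ) / ((MUX.nI b : ℕ) : ℂ)) *
        Complex.exp (2 * Real.pi * Complex.I *
          (((nm (x : OO A B) : ℤ) : ℂ) / ((MUX.nI b : ℕ) : ℂ)) * τ) with hf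
    have hfs : Summable f := by
      refine Summable.of_norm_bounded hsum.norm fun x => ?_
      rw [hf]
      beta_reduce
      show _ ≤ ‖e x * conj (emb (x : OO A B)) * Complex.exp (2 * Real.pi * Complex.I *
          (((nm (x : OO A B) : ℤ) : ℂ) / ((MUX.nI b : ℕ) : ℂ)) * τ)‖
      rw [hq x, norm_mul, norm_mul (e x * conj (emb (x : OO A B))), norm_div]
      refine mul_le_mul_of_nonneg_right ?_ (norm_nonneg _)
      by_cases h0 : qb b (x : OO A B) = 0
      · rw [h0, Int.cast_zero, norm_zero, div_zero]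
        exact norm_nonneg _
      · have h1 : 1 ≤ qb b (x : OO A B) := by
          have := (q1 x x.2).2
          omega
        have h2 : (1 : ℝ) ≤ ‖((qb b (x : OO A B) : ℤ) : ℂ)‖ := by
          rw [Complex.norm_intCast]
          have h3 : (1 : ℝ) ≤ ((qb b (x : OO A B) : ℤ) : ℝ) := by exact_mod_cast h1
          exact h3.trans (le_abs_self _)
        exact div_le_self (norm_nonneg _) h2
    have hfib := hfs.hasSum.tsum_fiberwise (fun x : b => (qb b (x : OO A B)).toNat)
    have hfib2 := hfib.mul_left (1 / 2 : ℂ)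
    have e1 : (fun m : ℕ => α m / m * Complex.exp (2 * Real.pi * Complex.I * τ) ^ m) =
        fun m : ℕ => (1 / 2 : ℂ) * ∑' x : (fun x : b => (qb b (x : OO A B)).toNat) ⁻¹' {m},
          f x := by
      funext m
      have h1 : (fun x : b => (qb b (x : OO A B)).toNat) ⁻¹' {m} = ((S m : Finset b) : Set b) := by
        ext x
        rw [Finset.mem_coe, hS]
        rfl
      rw [h1, Finset.tsum_subtype' (S m) f, hαdef]
      beta_reduce
      rw [mul_div_assoc, mul_assoc]
      congr 1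
      rw [div_mul_eq_mul_div, Finset.sum_mul, Finset.sum_div]
      refine Finset.sum_congr rfl fun x hx => ?_
      have h2 : ((qb b (x : OO A B) : ℤ) : ℂ) = (m : ℂ) := by
        rw [hS] at hx
        have h3 := (q1 x x.2).2
        have h4 : qb b (x : OO A B) = m := by omega
        rw [h4]
        simp
      rw [hf, htdef]
      beta_reduce
      rw [hq x, h2, ← Complex.exp_nat_mul]
      rw [show 2 * (Real.pi : ℂ) * Complex.I * (m : ℂ) * τ =
        (m : ℂ) * (2 * Real.pi * Complex.I * τ) by ring]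
      ring
    rw [e1]
    exact hfib2

end

end Pool.Agent.MUXN


end

section

/-!
# NS, block GN (helper6): the `q`-expansion of `thetaIntI` (copy of helper3's `N_QXP`, with the facts on units as hypotheses)
-/

set_option autoImplicit false

namespace Pool.Agent.NSG

open _root_.MU3 _root_.Pool.Agent.MU3A _root_.Pool.Agent.MU3B _root_.Pool.Agent.MU3Q _root_.Pool.Agent.MUX _root_.Pool.Agent.MuSym
  _root_.Pool.Agent.MUXN OnePoint UpperHalfPlane
open _root_.Pool.Agent.MUXF (Sx_ALG Sx_IDL Sx_QB Sx_BDD Sx_TSM qb)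
open _root_.Pool.Agent.MUXY (cqF eiF)
open scoped ComplexConjugate

noncomputable section

open N_QXP in
theorem qx (hA : Sx_ALG) (hI : Sx_IDL) (hQB : Sx_QB) (hBD : Sx_BDD) (hTS : Sx_TSM)
    (A B : ℤ) (hc : MUX.CQ A B) (u1 : ∀ x : OO A B, nm x = 1 → x = 1 ∨ x = -1)
    (u2 : ∀ (b : Ideal (OO A B)) (_ : b ≠ ⊥) (x : OO A B), x ∈ b → nm x = MUX.nI b → b = MUX.sp x)
    (n : ℕ) (ι : Type) (R : Reps A B n ι)
    (g : Ideal (OO A B)) (hg : g ≠ ⊥) (e : OO A B → ℂ) (he : _root_.Pool.Agent.MUX.IsEI g e) (r : ℕ) (hr : r ≠ 0)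
    (her : ∀ x, e x ≠ 0 → e x ^ r = 1) (i : ι) :
    ∃ α : ℕ → ℂ, (∀ n, IsIntegral ℤ (α n)) ∧
      (∃ K : Subfield ℂ, NumberField K ∧ ∀ n, α n ∈ K) ∧ (i = R.i0 → α 1 = 1) ∧
      (i ≠ R.i0 → α 1 = 0) ∧ ∀ τ : ℂ, 0 < τ.im → HasSum (fun n : ℕ => α n / n *
        Complex.exp (2 * Real.pi * Complex.I * τ) ^ n) (_root_.Pool.Agent.MUX.thetaIntI (R.b i) e τ) := by
  classical
  have hb : R.b i ≠ ⊥ := (R.nl i).b_ne
  obtain ⟨a1, a2, a3, a4, -⟩ := hA A B (cqF hc)
  obtain ⟨q1, -, -⟩ := hQB A B (cqF hc) (R.b i) hb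
  have hnb : MUX.nI (R.b i) ≠ 0 := (hI A B (cqF hc) (R.b i) hb).1
  have hnbC : ((MUX.nI (R.b i) : ℕ) : ℂ) ≠ 0 := by exact_mod_cast hnb
  obtain ⟨hfin, C, hC0, hC⟩ := hBD A B (cqF hc) g e hg (eiF he)
  set b : Ideal (OO A B) := R.b i with hbdef
  set S : ℕ → Finset b := fun m => (fin_fib hc hQB b hb m).toFinset with hSdef
  have hS : ∀ (m : ℕ) (x : b), x ∈ S m ↔ (qb b (x : OO A B)).toNat = m := by
    intro m x
    rw [hSdef]
    simp
  set t : b → ℂ := fun x => e x * conj (emb (x : OO A B)) with htdef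
  have hconj : ∀ x : OO A B, conj (emb x) = emb (star x) := fun x => ((a2 x).2.2.2.2.2.1).symm
  have hnmneg : ∀ x : OO A B, nm (-x) = nm x := by
    intro x
    unfold nm
    have h1 : (-x).im = -x.im := rfl
    have h2 : (-x).re = -x.re := rfl
    rw [h1, h2]
    ring
  have hembneg : ∀ x : OO A B, emb (-x) = -emb x := by
    intro x
    rw [← N_GJ.eHom_apply hc, ← N_GJ.eHom_apply hc, map_neg]
  have heneg : ∀ x : OO A B, e (-x) = -e x := by
    intro x
    have h1 := he.mul (-1) x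
    rw [neg_one_mul, he.neg, neg_one_mul] at h1
    exact h1
  have htneg : ∀ x : b, t (-x) = t x := by
    intro x
    show e (-(x : OO A B)) * conj (emb (-(x : OO A B))) = e x * conj (emb (x : OO A B))
    rw [heneg, hembneg, map_neg, neg_mul_neg]
  have hqbneg : ∀ x : OO A B, qb b (-x) = qb b x := by
    intro x
    unfold qb
    rw [hnmneg]
  have hSneg : ∀ m, ∀ x ∈ S m, -x ∈ S m := by
    intro m x hx
    rw [hS] at hx ⊢
    show (qb b (-(x : OO A B))).toNat = m
    rw [hqbneg, hx]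
  have hqb0 : qb b (0 : OO A B) = 0 := by
    unfold qb nm
    simp
  have hS0 : ∀ m, m ≠ 0 → (0 : b) ∉ S m := by
    intro m hm h
    rw [hS] at h
    apply hm
    rw [← h]
    show (qb b (0 : OO A B)).toNat = 0
    rw [hqb0]
    rfl
  have hnmS : ∀ (m : ℕ) (x : b), x ∈ S m → nm (x : OO A B) = MUX.nI b * m := by
    intro m x hx
    rw [hS] at hx
    obtain ⟨h2, h3⟩ := q1 x x.2
    have h4 : qb b (x : OO A B) = m := by omega
    rw [h2, h4]
    rfl
  have hS00 : ∀ x ∈ S 0, t x = 0 := by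
    intro x hx
    have h1 := hnmS 0 x hx
    have h2 : (x : OO A B) = 0 := (a2 x).2.1.1 (by rw [h1]; simp)
    rw [htdef]
    beta_reduce
    rw [h2, (a2 0).1.2 rfl]
    simp
  set α : ℕ → ℂ := fun m => (1 / 2) * ∑ x ∈ S m, t x with hαdef
  have hα0 : α 0 = 0 := by
    rw [hαdef]
    beta_reduce
    rw [Finset.sum_eq_zero hS00, mul_zero]
  have hαn : ∀ m, m ≠ 0 → α m = ∑ x ∈ (S m).filter (fun x : b => PH (x : OO A B)), t x := by
    intro m hm
    rw [hαdef]
    beta_reduce
    rw [half_sum (S m) (hSneg m) (hS0 m hm) t htneg]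
    ring
  have htint : ∀ x : b, IsIntegral ℤ (t x) := by
    intro x
    show IsIntegral ℤ (e x * conj (emb (x : OO A B)))
    rw [hconj]
    refine IsIntegral.mul ?_ (emb_int hc _)
    by_cases h : e x = 0
    · rw [h]
      exact isIntegral_zero
    · exact IsIntegral.of_pow (n := r) (Nat.pos_of_ne_zero hr)
        (by rw [her x h]; exact isIntegral_one)
  refine ⟨α, ?_, ?_, ?_, ?_, ?_⟩
  · intro m
    by_cases hm : m = 0
    · rw [hm, hα0]
      exact isIntegral_zero
    · rw [hαn m hm]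
      exact IsIntegral.sum _ fun x _ => htint x
  · have hfin2 : (Set.range e ∪ {wC A B}).Finite := hfin.union (Set.finite_singleton _)
    have hfin3 : Finite ↑(Set.range e ∪ {wC A B}) := hfin2
    set K : IntermediateField ℚ ℂ := IntermediateField.adjoin ℚ (Set.range e ∪ {wC A B}) with hK
    have hKfd : FiniteDimensional ℚ K := by
      apply IntermediateField.finiteDimensional_adjoin
      rintro x (⟨y, rfl⟩ | hx)
      · by_cases h : e y = 0
        · rw [h]
          exact isIntegral_zero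
        · exact IsIntegral.of_pow (n := r) (Nat.pos_of_ne_zero hr)
            (by rw [her y h]; exact isIntegral_one)
      · rw [Set.mem_singleton_iff] at hx
        rw [hx]
        exact (N_GJ.wC_int hc).tower_top
    have hKe : ∀ x, e x ∈ K := fun x =>
      IntermediateField.subset_adjoin ℚ _ (Or.inl ⟨x, rfl⟩)
    have hKw : wC A B ∈ K := IntermediateField.subset_adjoin ℚ _ (Or.inr rfl)
    have hKemb : ∀ x : OO A B, emb x ∈ K := fun x =>
      add_mem (intCast_mem _ _) (mul_mem (intCast_mem _ _) hKw)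
    refine ⟨K.toSubfield, ?_, ?_⟩
    · have h4 : NumberField K := ⟨⟩
      exact h4
    · intro m
      show α m ∈ K
      refine mul_mem (div_mem (one_mem _) (ofNat_mem K 2)) (sum_mem fun x _ => ?_)
      show e x * conj (emb (x : OO A B)) ∈ K
      rw [hconj]
      exact mul_mem (hKe _) (hKemb _)
  · intro hi
    have hbt : b = ⊤ := by rw [hbdef, hi, R.b0]
    have hn1 : MUX.nI b = 1 := by
      rw [hbt]
      unfold MUX.nI
      exact Nat.card_unique
    have h1mem : (1 : OO A B) ∈ b := by rw [hbt]; trivial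
    rw [hαn 1 one_ne_zero]
    have hfil : (S 1).filter (fun x : b => PH (x : OO A B)) = {⟨1, h1mem⟩} := by
      ext x
      rw [Finset.mem_filter, Finset.mem_singleton]
      constructor
      · rintro ⟨h1, h2⟩
        have h3 := hnmS 1 x h1
        rw [hn1] at h3
        rcases u1 x (by rw [h3]; norm_num) with h4 | h4
        · exact Subtype.ext h4
        · exfalso
          rw [h4] at h2
          have h5 : (-1 : OO A B).im = 0 := neg_zero
          have h6 : (-1 : OO A B).re = -1 := rfl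
          unfold PH at h2
          rw [h5, h6] at h2
          omega
      · intro h
        rw [h]
        constructor
        · rw [hS]
          show (qb b (1 : OO A B)).toNat = 1
          have h3 := (q1 1 h1mem).1
          have h4 : (MUX.nI b : ℤ) = 1 := by rw [hn1]; rfl
          have h5 : nm (1 : OO A B) = 1 := by
            unfold nm
            rw [QuadraticAlgebra.re_one, QuadraticAlgebra.im_one]
            ring
          have h6 : nm (1 : OO A B) = (MUX.nI b : ℤ) * qb b (1 : OO A B) := h3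
          rw [h4, h5, one_mul] at h6
          rw [← h6]
          rfl
        · unfold PH
          right
          exact ⟨QuadraticAlgebra.im_one, by
            show (0 : ℤ) < (1 : OO A B).re
            rw [QuadraticAlgebra.re_one]
            exact one_pos⟩
    rw [hfil, Finset.sum_singleton]
    show e 1 * conj (emb (1 : OO A B)) = 1
    rw [he.one, ← N_GJ.eHom_apply hc, map_one, map_one, one_mul]
  · intro hi
    have hS1 : S 1 = ∅ := by
      apply Finset.eq_empty_of_forall_notMem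
      intro x hx
      have h1 := hnmS 1 x hx
      rw [Nat.cast_one, mul_one] at h1
      have h2 := u2 b hb x x.2 h1
      apply hi
      have hx0 : (x : OO A B) ≠ 0 := by
        intro h0
        rw [h0] at h1
        have h3 : nm (0 : OO A B) = 0 := by
          unfold nm
          simp
        rw [h3] at h1
        exact hnb (by exact_mod_cast h1.symm)
      have hone : (1 : OO A B) ≠ 0 := by
        intro h0
        apply hx0
        rw [← mul_one (x : OO A B), h0, mul_zero]
      refine R.inj i R.i0 1 x hone hx0 ?_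
      rw [R.b0]
      show sp (1 : OO A B) * b = sp (x : OO A B) * ⊤
      rw [← h2, Ideal.mul_top]
      show Ideal.span {(1 : OO A B)} * b = b
      rw [Ideal.span_singleton_one, Ideal.top_mul]
    show (1 / 2) * ∑ x ∈ S 1, t x = 0
    rw [hS1, Finset.sum_empty, mul_zero]
  · intro τ hτ
    have hsum := hTS A B (cqF hc) b hb e C hC τ hτ
    have hq : ∀ x : b, ((nm (x : OO A B) : ℤ) : ℂ) / ((MUX.nI b : ℕ) : ℂ) =
        ((qb b (x : OO A B) : ℤ) : ℂ) := by
      intro x
      have h1 : nm (x : OO A B) = (MUX.nI b : ℤ) * qb b (x : OO A B) := (q1 x x.2).1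
      rw [h1]
      push_cast
      field_simp
    set f : b → ℂ := fun x => e x * conj (emb (x : OO A B)) /
      (((nm (x : OO A B) : ℤ) : ℂ) / ((MUX.nI b : ℕ) : ℂ)) *
        Complex.exp (2 * Real.pi * Complex.I *
          (((nm (x : OO A B) : ℤ) : ℂ) / ((MUX.nI b : ℕ) : ℂ)) * τ) with hf
    have hfs : Summable f := by
      refine Summable.of_norm_bounded hsum.norm fun x => ?_
      rw [hf]
      beta_reduce
      show _ ≤ ‖e x * conj (emb (x : OO A B)) * Complex.exp (2 * Real.pi * Complex.I *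
          (((nm (x : OO A B) : ℤ) : ℂ) / ((MUX.nI b : ℕ) : ℂ)) * τ)‖
      rw [hq x, norm_mul, norm_mul (e x * conj (emb (x : OO A B))), norm_div]
      refine mul_le_mul_of_nonneg_right ?_ (norm_nonneg _)
      by_cases h0 : qb b (x : OO A B) = 0
      · rw [h0, Int.cast_zero, norm_zero, div_zero]
        exact norm_nonneg _
      · have h1 : 1 ≤ qb b (x : OO A B) := by
          have := (q1 x x.2).2
          omega
        have h2 : (1 : ℝ) ≤ ‖((qb b (x : OO A B) : ℤ) : ℂ)‖ := by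
          rw [Complex.norm_intCast]
          have h3 : (1 : ℝ) ≤ ((qb b (x : OO A B) : ℤ) : ℝ) := by exact_mod_cast h1
          exact h3.trans (le_abs_self _)
        exact div_le_self (norm_nonneg _) h2
    have hfib := hfs.hasSum.tsum_fiberwise (fun x : b => (qb b (x : OO A B)).toNat)
    have hfib2 := hfib.mul_left (1 / 2 : ℂ)
    have e1 : (fun m : ℕ => α m / m * Complex.exp (2 * Real.pi * Complex.I * τ) ^ m) =
        fun m : ℕ => (1 / 2 : ℂ) * ∑' x : (fun x : b => (qb b (x : OO A B)).toNat) ⁻¹' {m},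
          f x := by
      funext m
      have h1 : (fun x : b => (qb b (x : OO A B)).toNat) ⁻¹' {m} = ((S m : Finset b) : Set b) := by
        ext x
        rw [Finset.mem_coe, hS]
        rfl
      rw [h1, Finset.tsum_subtype' (S m) f, hαdef]
      beta_reduce
      rw [mul_div_assoc, mul_assoc]
      congr 1
      rw [div_mul_eq_mul_div, Finset.sum_mul, Finset.sum_div]
      refine Finset.sum_congr rfl fun x hx => ?_
      have h2 : ((qb b (x : OO A B) : ℤ) : ℂ) = (m : ℂ) := by
        rw [hS] at hx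
        have h3 := (q1 x x.2).2
        have h4 : qb b (x : OO A B) = m := by omega
        rw [h4]
        simp
      rw [hf, htdef]
      beta_reduce
      rw [hq x, h2, ← Complex.exp_nat_mul]
      rw [show 2 * (Real.pi : ℂ) * Complex.I * (m : ℂ) * τ =
        (m : ℂ) * (2 * Real.pi * Complex.I * τ) by ring]
      ring
    rw [e1]
    exact hfib2

end

end Pool.Agent.NSG


end

section

/-!
# MUX, end of block G: the data for Theorem G (module GDT)
-/

set_option autoImplicit false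

namespace Pool.Agent.MUXN

open _root_.MU3 _root_.Pool.Agent.MU3A _root_.Pool.Agent.MU3B _root_.Pool.Agent.MU3Q _root_.Pool.Agent.MUX _root_.Pool.Agent.MuSym
  OnePoint UpperHalfPlane

noncomputable section

namespace Gdt

variable {A B : ℤ}

lemma ei_conj {g : Ideal (OO A B)} {e : OO A B → ℂ} (he : IsEI g e) (σ : ℂ ≃+* ℂ) :
    IsEI g (fun x => σ (e x)) where
  one := by
    show σ (e 1) = 1
    rw [he.one, map_one]
  mul := by
    intro x y
    show σ (e (x * y)) = σ (e x) * σ (e y)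
    rw [he.mul, map_mul]
  per := by
    intro x y h
    show σ (e x) = σ (e y)
    rw [he.per x y h]
  supp := by
    intro x
    rw [← he.supp x]
    show σ (e x) ≠ 0 ↔ e x ≠ 0
    rw [Ne, Ne, map_eq_zero]
  neg := by
    show σ (e (-1)) = -1
    rw [he.neg, map_neg, map_one]

lemma chiQ_one : MUXF.chiQ A B 1 = 1 := by
  unfold MUXF.chiQ
  split_ifs with h
  · exact jacobiSym.one_left _
  · simp

lemma nat_ne (n : ℕ) (h : n ≠ 0) : ((n : ℕ) : OO A B) ≠ 0 := by
  intro h0
  have h1 := congrArg QuadraticAlgebra.re h0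
  simp only [QuadraticAlgebra.re_natCast, QuadraticAlgebra.re_zero] at h1
  exact h (by exact_mod_cast h1)

open _root_.Pool.Agent.MUXY in
theorem main (h1 : Sg_QXP) (h2 : MUXT.Xs_FTI) (h3 : MUXF.Sx_CHI) (h4 : Sy_CON) (h5 : Sy_ALP)
    (h6 : Sy_ALM) (h7 : Sy_FEC) (h8 : Sy_COP) (p : ℕ) (P : Ideal (OO A B))
    (V : ValuationSubring ℂ) (f : ℕ) (hS : SetP p A B P V f) (hT : TorX A B) (ι : Type)
    [hι : Finite ι] (R : Reps A B (p * f) ι) (e : OO A B → ℂ) (he : IsEI (idl f * cjI P) e)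
    (r : ℕ) (hr : r ≠ 0) (her : ∀ x, e x ≠ 0 → e x ^ r = 1) (N' : ℕ) (hN : N' ≠ 0)
    (hNd : absD A B * ((p : ℤ) * f) ^ 2 ∣ (N' : ℤ)) :
    ∃ E : Set (OO A B → ℂ), e ∈ E ∧ GDat R E N' := by
  have hQ := hS.case.toCQ
  have hp0 : p ≠ 0 := by
    rcases hS.case.split with h | h
    · rw [h.1]; norm_num
    · rw [h.1]; norm_num
  set g : Ideal (OO A B) := idl f * cjI P with hg
  have hpc : ((p : ℕ) : OO A B) ∈ cjI P := by
    show starRingEnd (OO A B) ((p : ℕ) : OO A B) ∈ P
    rw [map_natCast]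
    exact hS.hP.mem
  have hpf : ((p * f : ℕ) : OO A B) ∈ g := by
    rw [Nat.mul_comm, Nat.cast_mul]
    exact Ideal.mul_mem_mul (Ideal.mem_span_singleton_self _) hpc
  have hgb : g ≠ ⊥ := by
    intro h
    rw [h, Ideal.mem_bot] at hpf
    exact nat_ne _ (mul_ne_zero hp0 hS.f0) hpf
  have hgt : g ≠ ⊤ := by
    intro h
    have h1 : g ≤ cjI P := Ideal.mul_le_right
    rw [h, top_le_iff] at h1
    have := hS.hP.prime
    have h2 : (cjI P).IsPrime := Ideal.IsPrime.comap _
    exact h2.ne_top h1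
  have hcop : ∀ i, IsCoprime (MUX.sp ((MUX.nI (R.b i) : ℕ) : OO A B)) g :=
    h8 A B (p * f) ι R g 1 (by rw [pow_one]; exact hpf)
  set E : Set (OO A B → ℂ) := {e' | ∃ σ : ℂ ≃+* ℂ, e' = fun x => σ (e x)} with hE
  have hEI : ∀ e' ∈ E, IsEI g e' := by
    rintro e' ⟨σ, rfl⟩
    exact ei_conj he σ
  have hEr : ∀ e' ∈ E, ∀ x, e' x ≠ 0 → e' x ^ r = 1 := by
    rintro e' ⟨σ, rfl⟩ x hx
    show σ (e x) ^ r = 1
    have hx' : e x ≠ 0 := by
      intro h0
      apply hx
      show σ (e x) = 0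
      rw [h0, map_zero]
    rw [← map_pow, her x hx', map_one]
  have hEG : ∀ e' ∈ E, ∀ x y : OO A B, (((p * f : ℕ) : ℕ) : OO A B) ∣ x - y → e' x = e' y := by
    rintro e' he' x y ⟨z, hz⟩
    apply (hEI e' he').per
    rw [hz]
    exact Ideal.mul_mem_right _ _ hpf
  have hb : ∀ i, R.b i ≠ ⊥ := fun i => (R.nl i).b_ne
  have hNd' : -(B ^ 2 + 4 * A) * ((p * f : ℕ) : ℤ) ^ 2 ∣ (N' : ℤ) := by
    have : -(B ^ 2 + 4 * A) * ((p * f : ℕ) : ℤ) ^ 2 = absD A B * (p * f) ^ 2 := by
      unfold absD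
      push_cast
      ring
    rw [this]
    exact hNd
  have hF : ∀ e' ∈ E, ∀ i, _ := fun e' he' i =>
    (h2 A B hQ.hB hQ.neg (R.b i) (hb i) e' (p * f) (Nat.pos_of_ne_zero (mul_ne_zero hp0 hS.f0))
      (hEI e' he').mul (hEG e' he') (hEI e' he').neg).2 N' hN hNd'
  have hDN : absD A B ∣ (N' : ℤ) := dvd_trans (Dvd.intro _ rfl) hNd
  have hGN : ((p * f : ℕ) : ℤ) ∣ (N' : ℤ) := by
    refine dvd_trans ?_ hNd
    exact ⟨absD A B * (p * f), by push_cast; ring⟩
  have hnu : ∀ e' ∈ E, ∀ d : ℤ, (N' : ℤ) ∣ d - 1 →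
      (MUXT.chiQ A B d : ℂ) * e' (d : OO A B) = 1 := by
    intro e' he' d hd
    have h10 : MUXF.chiQ A B d = 1 := by
      have := (h3 A B (cqF hQ) 1 isCoprime_one_left).2.2 d (by
        rw [← dvd_neg, neg_sub]
        exact dvd_trans hDN hd)
      rw [this, chiQ_one]
    have h11 : e' (d : OO A B) = 1 := by
      rw [← (hEI e' he').one]
      apply (hEI e' he').per
      obtain ⟨t, ht⟩ := dvd_trans hGN hd
      have h12 : (d : OO A B) - 1 = ((p * f : ℕ) : OO A B) * (t : OO A B) := by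
        have := congrArg (fun z : ℤ => (z : OO A B)) ht
        push_cast at this
        push_cast
        exact this
      rw [h12]
      exact Ideal.mul_mem_right _ _ hpf
    have h13 : MUXT.chiQ A B d = 1 := h10
    rw [h13, h11]
    norm_num
  refine ⟨E, ⟨RingEquiv.refl ℂ, rfl⟩, ?_⟩
  refine
    { fin := (h7 A B e r hr her).1
      pos := Nat.pos_of_ne_zero hN
      add := ?_
      inv := ?_
      per := ?_
      cusp := ?_
      qexp := ?_
      rat := ?_
      alg := ?_
      algo := ?_ }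
  · intro e' _ i x y z
    unfold PhiI
    ring
  · intro e' he' i a b c d hdet hc hd x y
    have := (hF e' he' i).1.equiv a b c d hdet hc x y
    rw [hnu e' he' d hd, one_mul] at this
    exact this
  · intro e' he' i a b c d hdet hc hd τ hτ
    have := ((hF e' he' i).2.1 a b c d hdet hc τ hτ).2
    rw [hnu e' he' d hd, one_mul] at this
    exact this
  · intro e' he' i a b c d hdet
    obtain ⟨w, hw⟩ := (hF e' he' i).2.2 a b c d hdet
    exact ⟨_, w, hw⟩
  · intro e' he' i
    exact h1 p A B hS.case (p * f) ι R g hgb e' (hEI e' he') r hr (hEr e' he') i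
  · intro σ hσ e' he' i
    obtain ⟨-, j, C, -, hC0, hC⟩ := h4 A B hQ hT (p * f) ι R g e' hgb hgt (hEI e' he') hcop σ hσ i
    obtain ⟨τ, rfl⟩ := he'
    refine ⟨fun x => σ (τ (e x)), ⟨τ.trans σ, rfl⟩, j,
      C * σ (R.om R.i0 / R.om i) * (R.om j / R.om R.i0), fun x y => ?_⟩
    have ho : R.om R.i0 ≠ 0 := (R.nl R.i0).om_ne
    have hoj : R.om j ≠ 0 := (R.nl j).om_ne
    have hoi : R.om i ≠ 0 := (R.nl i).om_ne
    have e1 : PhiI (R.b i) (fun x => τ (e x)) x y / R.om i =
        PhiI (R.b i) (fun x => τ (e x)) x y / R.om R.i0 * (R.om R.i0 / R.om i) := by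
      field_simp
    rw [e1, map_mul, hC x y]
    field_simp
  · intro e' he' i x y
    exact (h5 A B hQ hT (p * f) ι hι R g e' hgb hgt (hEI e' he') hcop r hr (hEr e' he') i x y).1
  · intro i
    exact (h6 A B hQ hT (p * f) ι hι R i).2

end Gdt

theorem tg_GDT (h1 : Sg_QXP) (h2 : MUXT.Xs_FTI) (h3 : MUXF.Sx_CHI) (h4 : MUXY.Sy_CON)
    (h5 : MUXY.Sy_ALP) (h6 : MUXY.Sy_ALM) (h7 : MUXY.Sy_FEC) (h8 : MUXY.Sy_COP) : Sg_GDT := by
  intro p A B P V f hS hT ι _ R e he r hr her N' hN hNd
  exact Gdt.main h1 h2 h3 h4 h5 h6 h7 h8 p P V f hS hT ι R e he r hr her N' hN hNd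

end

end Pool.Agent.MUXN


end

section

/-!
# NS, block GN (helper6): the data for Theorem G, for the translates of the symbols
-/

set_option autoImplicit false

namespace Pool.Agent.NSG

open _root_.MU3 _root_.Pool.Agent.MU3A _root_.Pool.Agent.MU3B _root_.Pool.Agent.MU3Q _root_.Pool.Agent.MUX _root_.Pool.Agent.MuSym
  _root_.Pool.Agent.MUXN _root_.Pool.Agent.NS OnePoint UpperHalfPlane

noncomputable section

/-- the conjugates of `e` -/
abbrev EC {A B : ℤ} (e : OO A B → ℂ) : Set (OO A B → ℂ) :=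
  {e' | ∃ σ : ℂ ≃+* ℂ, e' = fun x => σ (e x)}

variable {A B : ℤ} {n : ℕ} {ι : Type}

/-- the symbols -/
def PsT (R : Reps A B n ι) (e : OO A B → ℂ) (j : ι × EC e × Fin 27) (x y : OnePoint ℚ) : ℂ :=
  PhiI (R.b j.1) j.2.1 (mob 27 (j.2.2 : ℕ) 0 27 x) (mob 27 (j.2.2 : ℕ) 0 27 y)

/-- their primitives -/
def ThT (R : Reps A B n ι) (e : OO A B → ℂ) (j : ι × EC e × Fin 27) (τ : ℂ) : ℂ :=
  thetaIntI (R.b j.1) j.2.1 (τ + ((j.2.2 : ℕ) : ℤ) / 27)

/-- `ζ_27` -/
def z27 : ℂ := Complex.exp (2 * Real.pi * Complex.I / 27)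

/-- the first coefficients -/
def a1T (R : Reps A B n ι) (e : OO A B → ℂ) (j : ι × EC e × Fin 27) : ℂ :=
  open Classical in if j.1 = R.i0 then z27 ^ (j.2.2 : ℕ) else 0

theorem z27_pow : z27 ^ 27 = 1 := by
  unfold z27
  rw [← Complex.exp_nat_mul]
  have : ((27 : ℕ) : ℂ) * (2 * Real.pi * Complex.I / 27) = 2 * Real.pi * Complex.I := by
    push_cast
    ring
  rw [this, Complex.exp_two_pi_mul_I]

theorem z27_int : IsIntegral ℤ z27 :=
  IsIntegral.of_pow (n := 27) (by norm_num) (by rw [z27_pow]; exact isIntegral_one)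

open _root_.Pool.Agent.MUXY in
/-- the data for Theorem G, for `g = (n)` -/
theorem gdat (h2 : MUXT.Xs_FTI) (h3 : MUXF.Sx_CHI) (h4 : Sy_CON) (h5 : Sy_ALP)
    (h7 : Sy_FEC) (h8 : Sy_COP) (hA : MUXF.Sx_ALG) (hI : MUXF.Sx_IDL) (hQB : MUXF.Sx_QB)
    (hBD : MUXF.Sx_BDD) (hTS : MUXF.Sx_TSM) (hQ : MUX.CQ A B)
    (u1 : ∀ x : OO A B, nm x = 1 → x = 1 ∨ x = -1)
    (u2 : ∀ (b : Ideal (OO A B)) (_ : b ≠ ⊥) (x : OO A B), x ∈ b → nm x = MUX.nI b → b = MUX.sp x)
    (hT : TorX A B) [hι : Finite ι] (hn : 2 ≤ n) (R : Reps A B n ι) (e : OO A B → ℂ)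
    (he : IsEI (idl n) e) (r : ℕ) (hr : r ≠ 0) (her : ∀ x, e x ≠ 0 → e x ^ r = 1) (u : ℂ)
    (hu : u ≠ 0) (hua : IsAlgebraic ℚ u) (N' : ℕ) (hN : N' ≠ 0)
    (hNd : absD A B * (n : ℤ) ^ 2 ∣ (N' : ℤ)) :
    GDatN A B (ι × EC e × Fin 27) (PsT R e) (ThT R e) (a1T R e) (u * R.om R.i0) (729 * N') := by
  classical
  have hn0 : n ≠ 0 := by omega
  set g : Ideal (OO A B) := idl n with hg
  have hpf : ((n : ℕ) : OO A B) ∈ g := Ideal.mem_span_singleton_self _
  have hgb : g ≠ ⊥ := by
    intro h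
    rw [h, Ideal.mem_bot] at hpf
    exact Gdt.nat_ne _ hn0 hpf
  have hgt : g ≠ ⊤ := by
    intro h
    rw [Ideal.eq_top_iff_one, hg, Ideal.mem_span_singleton] at h
    obtain ⟨y, hy⟩ := h
    have h1 := congrArg QuadraticAlgebra.re hy
    rw [QuadraticAlgebra.re_one, QuadraticAlgebra.re_mul, QuadraticAlgebra.re_natCast,
      QuadraticAlgebra.im_natCast, mul_zero, zero_mul, add_zero] at h1
    have h9 : (n : ℤ) ∣ 1 := ⟨y.re, h1⟩
    have h10 : (n : ℤ) ≤ 1 := Int.le_of_dvd one_pos h9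
    omega
  have hcop : ∀ i, IsCoprime (MUX.sp ((MUX.nI (R.b i) : ℕ) : OO A B)) g :=
    h8 A B n ι R g 1 (by rw [pow_one]; exact hpf)
  have hEI : ∀ e' ∈ EC e, IsEI g e' := by
    rintro e' ⟨σ, rfl⟩
    exact Gdt.ei_conj he σ
  have hEr : ∀ e' ∈ EC e, ∀ x, e' x ≠ 0 → e' x ^ r = 1 := by
    rintro e' ⟨σ, rfl⟩ x hx
    show σ (e x) ^ r = 1
    have hx' : e x ≠ 0 := by
      intro h0
      apply hx
      show σ (e x) = 0
      rw [h0, map_zero]
    rw [← map_pow, her x hx', map_one]
  have hEG : ∀ e' ∈ EC e, ∀ x y : OO A B, ((n : ℕ) : OO A B) ∣ x - y → e' x = e' y := by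
    rintro e' he' x y ⟨z, hz⟩
    apply (hEI e' he').per
    rw [hz]
    exact Ideal.mul_mem_right _ _ hpf
  have hb : ∀ i, R.b i ≠ ⊥ := fun i => (R.nl i).b_ne
  have hNd' : -(B ^ 2 + 4 * A) * ((n : ℕ) : ℤ) ^ 2 ∣ (N' : ℤ) := by
    have : -(B ^ 2 + 4 * A) * ((n : ℕ) : ℤ) ^ 2 = absD A B * n ^ 2 := by
      unfold absD
      push_cast
      ring
    rw [this]
    exact hNd
  have hF : ∀ e' ∈ EC e, ∀ i, _ := fun e' he' i =>
    (h2 A B hQ.hB hQ.neg (R.b i) (hb i) e' n (Nat.pos_of_ne_zero hn0)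
      (hEI e' he').mul (hEG e' he') (hEI e' he').neg).2 N' hN hNd'
  have hDN : absD A B ∣ (N' : ℤ) := dvd_trans (Dvd.intro _ rfl) hNd
  have hGN : ((n : ℕ) : ℤ) ∣ (N' : ℤ) := by
    refine dvd_trans ?_ hNd
    exact ⟨absD A B * n, by push_cast; ring⟩
  have hnu : ∀ e' ∈ EC e, ∀ d : ℤ, (N' : ℤ) ∣ d - 1 →
      (MUXT.chiQ A B d : ℂ) * e' (d : OO A B) = 1 := by
    intro e' he' d hd
    have h10 : MUXF.chiQ A B d = 1 := by
      have := (h3 A B (cqF hQ) 1 isCoprime_one_left).2.2 d (by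
        rw [← dvd_neg, neg_sub]
        exact dvd_trans hDN hd)
      rw [this, Gdt.chiQ_one]
    have h11 : e' (d : OO A B) = 1 := by
      rw [← (hEI e' he').one]
      apply (hEI e' he').per
      obtain ⟨t, ht⟩ := dvd_trans hGN hd
      have h12 : (d : OO A B) - 1 = ((n : ℕ) : OO A B) * (t : OO A B) := by
        have := congrArg (fun z : ℤ => (z : OO A B)) ht
        push_cast at this
        push_cast
        exact this
      rw [h12]
      exact Ideal.mul_mem_right _ _ hpf
    have h13 : MUXT.chiQ A B d = 1 := h10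
    rw [h13, h11]
    norm_num
  have hS : ∀ (i : ι) (e' : OO A B → ℂ), e' ∈ EC e →
      SymN N' (PhiI (R.b i) e') (thetaIntI (R.b i) e') := by
    intro i e' he'
    refine
      { pos := Nat.pos_of_ne_zero hN
        add := ?_
        inv := ?_
        per := ?_
        cusp := ?_ }
    · intro x y z
      unfold PhiI
      ring
    · intro a b c d hdet hc hd x y
      have := (hF e' he' i).1.equiv a b c d hdet hc x y
      rw [hnu e' he' d hd, one_mul] at this
      exact this
    · intro a b c d hdet hc hd τ hτ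
      have := ((hF e' he' i).2.1 a b c d hdet hc τ hτ).2
      rw [hnu e' he' d hd, one_mul] at this
      exact this
    · intro a b c d hdet
      obtain ⟨w, hw⟩ := (hF e' he' i).2.2 a b c d hdet
      exact ⟨_, w, hw⟩
  have hST : ∀ j : ι × EC e × Fin 27, SymN (729 * N') (PsT R e j) (ThT R e j) := fun j =>
    Trl.tr (hS j.1 j.2.1 j.2.1.2) ((j.2.2 : ℕ) : ℤ)
  refine
    { pos := Nat.mul_pos (by norm_num) (Nat.pos_of_ne_zero hN)
      add := fun j => (hST j).add
      inv := fun j => (hST j).inv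
      per := fun j => (hST j).per
      cusp := fun j => (hST j).cusp
      qexp := ?_
      rat := ?_
      alg := ?_ }
  · rintro ⟨i, ⟨e', he'⟩, t⟩
    obtain ⟨α, hα1, ⟨K, hK1, hK2⟩, hα3, hα4, hα5⟩ :=
      qx hA hI hQB hBD hTS A B hQ u1 u2 n ι R g hgb e' (hEI e' he') r hr (hEr e' he') i
    refine ⟨fun m => α m * z27 ^ ((t : ℕ) * m), ?_, ?_, ?_, ?_⟩
    · intro m
      exact (hα1 m).mul (z27_int.pow _)
    · set K1 : IntermediateField ℚ ℂ := K.toIntermediateField fun x => by
        have : (algebraMap ℚ ℂ x) = (x : ℂ) := rfl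
        rw [this]
        exact SubfieldClass.ratCast_mem K x
      set K2 : IntermediateField ℚ ℂ := IntermediateField.adjoin ℚ {z27}
      have hf1 : FiniteDimensional ℚ K1 := hK1.to_finiteDimensional
      have hf2 : FiniteDimensional ℚ K2 :=
        IntermediateField.adjoin.finiteDimensional z27_int.tower_top
      have hf3 : FiniteDimensional ℚ ↥(K1 ⊔ K2) := IntermediateField.finiteDimensional_sup K1 K2
      refine ⟨(K1 ⊔ K2).toSubfield, ?_, fun m => ?_⟩
      · have h4 : NumberField ↥(K1 ⊔ K2) := ⟨⟩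
        exact h4
      · show α m * z27 ^ ((t : ℕ) * m) ∈ K1 ⊔ K2
        have m1 : α m ∈ K1 ⊔ K2 := (le_sup_left : K1 ≤ K1 ⊔ K2) (hK2 m)
        have m2 : z27 ∈ K1 ⊔ K2 := (le_sup_right : K2 ≤ K1 ⊔ K2)
          (IntermediateField.mem_adjoin_simple_self ℚ z27)
        exact mul_mem m1 (pow_mem m2 _)
    · show α 1 * z27 ^ ((t : ℕ) * 1) = if i = R.i0 then z27 ^ (t : ℕ) else 0
      rw [mul_one]
      split_ifs with hi
      · rw [hα3 hi, one_mul]
      · rw [hα4 hi, zero_mul]
    · intro τ hτ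
      have him : 0 < (τ + (((t : ℕ) : ℤ) : ℂ) / 27).im := by
        have : ((((t : ℕ) : ℤ) : ℂ) / 27).im = 0 := by
          have : ((((t : ℕ) : ℤ) : ℂ) / 27) = (((t : ℕ) / 27 : ℝ) : ℂ) := by push_cast; ring
          rw [this]
          exact Complex.ofReal_im _
        rw [Complex.add_im, this, add_zero]
        exact hτ
      have h9 := hα5 _ him
      show HasSum _ (thetaIntI (R.b i) e' (τ + (((t : ℕ) : ℤ) : ℂ) / 27))
      have e1 : (fun m : ℕ => α m / m * Complex.exp (2 * Real.pi * Complex.I *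
          (τ + (((t : ℕ) : ℤ) : ℂ) / 27)) ^ m) = fun m : ℕ => α m * z27 ^ ((t : ℕ) * m) / m *
          Complex.exp (2 * Real.pi * Complex.I * τ) ^ m := by
        funext m
        have e2 : Complex.exp (2 * Real.pi * Complex.I * (τ + (((t : ℕ) : ℤ) : ℂ) / 27)) =
            z27 ^ (t : ℕ) * Complex.exp (2 * Real.pi * Complex.I * τ) := by
          unfold z27
          rw [← Complex.exp_nat_mul, ← Complex.exp_add]
          congr 1
          push_cast
          ring
        rw [e2, mul_pow, ← pow_mul]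
        ring
      rw [e1] at h9
      exact h9
  · intro σ hσ
    rintro ⟨i, ⟨e', he'⟩, t⟩
    obtain ⟨-, j, C, -, hC0, hC⟩ := h4 A B hQ hT n ι R g e' hgb hgt (hEI e' he') hcop σ hσ i
    obtain ⟨τ, hτ⟩ := he'
    subst hτ
    refine ⟨⟨j, ⟨fun x => σ (τ (e x)), ⟨τ.trans σ, rfl⟩⟩, t⟩, C * u / σ u, fun x y => ?_⟩
    have hσu : σ u ≠ 0 := (map_ne_zero σ).2 hu
    have ho : R.om R.i0 ≠ 0 := (R.nl R.i0).om_ne
    have e1 : PsT R e (i, ⟨fun x => τ (e x), ⟨τ, rfl⟩⟩, t) x y / (u * R.om R.i0) =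
        PhiI (R.b i) (fun x => τ (e x)) (mob 27 (t : ℕ) 0 27 x) (mob 27 (t : ℕ) 0 27 y) /
          R.om R.i0 / u := by
      unfold PsT
      rw [div_div, mul_comm u]
    rw [e1, map_div₀, hC]
    unfold PsT
    field_simp
  · rintro ⟨i, ⟨e', he'⟩, t⟩ x y
    have h9 := (h5 A B hQ hT n ι hι R g e' hgb hgt (hEI e' he') hcop r hr (hEr e' he') i
      (mob 27 (t : ℕ) 0 27 x) (mob 27 (t : ℕ) 0 27 y)).2
    have e1 : PsT R e (i, ⟨e', he'⟩, t) x y / (u * R.om R.i0) =
        PhiI (R.b i) e' (mob 27 (t : ℕ) 0 27 x) (mob 27 (t : ℕ) 0 27 y) / R.om R.i0 * u⁻¹ := by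
      unfold PsT
      have ho : R.om R.i0 ≠ 0 := (R.nl R.i0).om_ne
      field_simp
    rw [e1]
    exact h9.mul hua.inv

end

end Pool.Agent.NSG


end

section

/-!
# MUX, end of block G, module UNIT (helper58): units of `O`, elements whose norm is the norm of the ideal
-/

set_option autoImplicit false

namespace Pool.Agent.MUXN

open _root_.MU3 _root_.Pool.Agent.MUX

theorem tg_UNIT (h : MUXF.Sx_IDL) (h' : MUXF.Sx_NIM) : Sg_UNIT := by
  intro p A B hc
  have hD : 5 ≤ -(B ^ 2 + 4 * A) := by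
    rcases hc.split with ⟨_, hs⟩ | ⟨_, hs⟩
    · rcases hc.hB with hB | hB
      · have hn := hc.neg
        subst hB
        simp only [ne_eq, OfNat.ofNat_ne_zero, not_false_eq_true, zero_pow, zero_add] at hs hn ⊢
        omega
      · have hn := hc.neg
        subst hB
        simp only [one_pow] at hs hn ⊢
        omega
    · rcases hc.hB with hB | hB
      · have hn := hc.neg
        subst hB
        simp only [ne_eq, OfNat.ofNat_ne_zero, not_false_eq_true, zero_pow, zero_add] at hs hn ⊢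
        omega
      · have hn := hc.neg
        subst hB
        simp only [one_pow] at hs hn ⊢
        omega
  refine ⟨fun x hx => ?_, fun b hb x hx hn => ?_⟩
  · have h4 : (2 * x.re + B * x.im) ^ 2 + -(B ^ 2 + 4 * A) * x.im ^ 2 = 4 := by
      unfold nm at hx
      linear_combination 4 * hx
    have him : x.im = 0 := by
      by_contra him
      have h1 : 1 ≤ x.im ^ 2 := by
        have : 0 < x.im ^ 2 := by positivity
        omega
      nlinarith [sq_nonneg (2 * x.re + B * x.im)]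
    have hre : x.re ^ 2 = 1 := by
      rw [him] at h4
      linarith
    rcases (sq_eq_sq_iff_eq_or_eq_neg.1 (hre.trans (one_pow 2).symm)) with h1 | h1
    · left
      ext
      · exact h1
      · exact him
    · right
      ext
      · exact h1
      · exact him
  · have hcq : MUXF.CQ A B := MUXY.cqF hc.toCQ
    have hn0 : nI b ≠ 0 := (h A B hcq b hb).1
    obtain ⟨-, h2, -, -⟩ := h' A B hcq
    have hx0 : x ≠ 0 := by
      rintro rfl
      apply hn0
      have : nm (0 : OO A B) = 0 := by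
        unfold nm
        simp
      rw [this] at hn
      exact_mod_cast hn.symm
    have hle : sp x ≤ b := (Ideal.span_singleton_le_iff_mem b).2 hx
    have hcard : Nat.card (OO A B ⧸ sp x) = Nat.card (OO A B ⧸ b) := by
      have h3 := (h2 x).resolve_right hx0
      have h4 : (nm x).natAbs = nI b := by
        rw [hn]
        simp
      exact h3.trans h4
    have : Finite (OO A B ⧸ sp x) := by
      apply Nat.finite_of_card_ne_zero
      rw [hcard]
      exact hn0
    have hbij := Function.Surjective.bijective_of_nat_card_le (Ideal.Quotient.factor_surjective hle)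
      hcard.le
    apply le_antisymm _ hle
    intro y hy
    rw [← Ideal.Quotient.eq_zero_iff_mem]
    apply hbij.injective
    rw [map_zero, Ideal.Quotient.factor_mk]
    exact Ideal.Quotient.eq_zero_iff_mem.2 hy

end Pool.Agent.MUXN


end

section

open NumberField Finset
open scoped nonZeroDivisors Pointwise

namespace Pool.Agent.RID

open _root_.Pool.Agent.RI

namespace RK3

section ops

variable {G X : Type} [Group G] [Finite G] [CommGroup X] [MulDistribMulAction G X]

lemma smul_nuS_mem (N : Subgroup G) {τ : G} (hτ : τ ∈ N) (x : X) :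
    τ • nuS N x = nuS N x := by
  letI := Fintype.ofFinite N
  rw [nuS_apply, Finset.smul_prod']
  refine Fintype.prod_equiv (Equiv.mulLeft (⟨τ, hτ⟩ : N)) _ _ ?_
  intro σ
  simp [mul_smul]

lemma smul_nuS (N : Subgroup G) (hN : N.Normal) (τ : G) (x : X) :
    τ • nuS N x = nuS N (τ • x) := by
  letI := Fintype.ofFinite N
  rw [nuS_apply, nuS_apply, Finset.smul_prod']
  refine Fintype.prod_equiv (MulAut.conjNormal (H := N) τ).toEquiv _ _ ?_
  intro σ
  simp [← mul_smul]

lemma nuS_comm (N N' : Subgroup G) (hN : N.Normal) (x : X) :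
    nuS N (nuS N' x) = nuS N' (nuS N x) := by
  letI := Fintype.ofFinite N'
  rw [nuS_apply N', nuS_apply N', map_prod]
  refine Finset.prod_congr rfl ?_
  intro σ _
  rw [smul_nuS N hN]

lemma nuS_fixed (N : Subgroup G) (x : X) (h : ∀ σ ∈ N, σ • x = x) :
    nuS N x = x ^ Nat.card N := by
  letI := Fintype.ofFinite N
  have h1 : ∀ σ : N, (σ : G) • x = x := fun σ => h σ σ.2
  rw [nuS_apply, Finset.prod_congr rfl (fun σ _ => h1 σ), Finset.prod_const,
    Finset.card_univ, Nat.card_eq_fintype_card]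

end ops

lemma prin_nuS {F L : Type} [Field F] [NumberField F] [Field L] [NumberField L] [Algebra F L]
    (N : Subgroup (L ≃ₐ[F] L)) (x : Lˣ) : prin (nuS N x) = nuS N (prin x) := by
  letI := Fintype.ofFinite N
  rw [nuS_apply, nuS_apply, map_prod]
  refine Finset.prod_congr rfl ?_
  intro σ _
  rw [smul_prin]

end RK3

open _root_.Pool.Agent.RID.RK3 in
theorem t_RK3 : S_RK3 := by
  intro F L κ _ _ _ _ _ _ l i N H hN
  have hNi : (N i).Normal := hN i (by simp)
  -- the units
  have hfin : ∀ (l : List κ) (H : Subgroup (L ≃ₐ[F] L)),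
      Module.Finite ℤ (Additive (WU l N H)) := by
    intro l H
    have hinj : Function.Injective (Units.map (algebraMap (𝓞 L) L : 𝓞 L →* L)) :=
      Units.map_injective (FaithfulSMul.algebraMap_injective (𝓞 L) L)
    have hle : ∀ x : WU l N H, (x : Lˣ) ∈ (Units.map (algebraMap (𝓞 L) L : 𝓞 L →* L)).range := by
      intro x
      obtain ⟨ε, hε⟩ := (RKU.prin_eq_one_iff _).mp x.2.1
      exact ⟨ε, hε⟩
    let f : Additive (WU l N H) →+ Additive (𝓞 L)ˣ :=
      MonoidHom.toAdditive (((MonoidHom.ofInjective hinj).symm.toMonoidHom).comp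
        ((WU l N H).subtype.codRestrict _ hle))
    have hf : Function.Injective f.toIntLinearMap := by
      intro x y hxy
      have h1 : (MonoidHom.ofInjective hinj).symm ((WU l N H).subtype.codRestrict _ hle x.toMul) =
        (MonoidHom.ofInjective hinj).symm ((WU l N H).subtype.codRestrict _ hle y.toMul) := hxy
      have h2 := (MonoidHom.ofInjective hinj).symm.injective h1
      apply Additive.toMul.injective
      apply Subtype.ext
      exact congrArg (fun z : (Units.map (algebraMap (𝓞 L) L : 𝓞 L →* L)).range => (z : Lˣ)) h2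
    exact Module.Finite.of_injective f.toIntLinearMap hf
  refine ⟨?_, ?_⟩
  · rw [← Group.fg_iff_subgroup_fg, GroupFG.iff_add_fg]
    exact Module.Finite.iff_addGroup_fg.mp (hfin l H)
  -- the map
  have hmap : ∀ u : WU l N H, nuS (N i) (u : Lˣ) ∈ WU l N (H ⊔ N i) := by
    intro u
    refine ⟨?_, ?_, ?_⟩
    · rw [prin_nuS, u.2.1, map_one]
    · have h1 : H ⊔ N i ≤ MulAction.stabilizer (L ≃ₐ[F] L) (nuS (N i) (u : Lˣ)) := by
        refine sup_le ?_ ?_
        · intro σ hσ
          rw [MulAction.mem_stabilizer_iff, smul_nuS (N i) hNi, u.2.2.1 σ hσ]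
        · intro σ hσ
          rw [MulAction.mem_stabilizer_iff, smul_nuS_mem (N i) hσ]
      intro σ hσ
      exact MulAction.mem_stabilizer_iff.mp (h1 hσ)
    · rw [mem_part]
      intro j hj
      rw [← nuS_comm (N i) (N j) hNi, (mem_part.mp u.2.2.2) j hj, map_one]
  let φ : WU l N H →* WU l N (H ⊔ N i) :=
    ((nuS (N i)).comp (WU l N H).subtype).codRestrict _ hmap
  let f : Additive (WU l N H) →+ Additive (WU l N (H ⊔ N i)) := MonoidHom.toAdditive φ
  have := hfin l H
  have := hfin l (H ⊔ N i)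
  have h1 := HERB.rank_nullity f
  have h2 : Module.finrank ℤ f.range = Module.finrank ℤ (Additive (WU l N (H ⊔ N i))) := by
    refine RKU.finrank_eq_of_nsmul_mem f.range (Nat.card (N i)) Nat.card_pos ?_
    intro x
    have hx : (x.toMul : Lˣ) ∈ WU l N H := by
      refine ⟨x.toMul.2.1, ?_, x.toMul.2.2.2⟩
      intro σ hσ
      exact x.toMul.2.2.1 σ (Subgroup.mem_sup_left hσ)
    refine ⟨Additive.ofMul ⟨_, hx⟩, ?_⟩
    apply Additive.toMul.injective
    apply Subtype.ext
    change nuS (N i) (x.toMul : Lˣ) = (x.toMul : Lˣ) ^ Nat.card (N i)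
    exact nuS_fixed (N i) _ (fun σ hσ => x.toMul.2.2.1 σ (Subgroup.mem_sup_right hσ))
  have hk : ∀ x : Additive (WU l N H), x ∈ f.ker ↔ nuS (N i) (x.toMul : Lˣ) = 1 := by
    intro x
    rw [AddMonoidHom.mem_ker]
    constructor
    · intro h
      exact congrArg (fun z : Additive (WU l N (H ⊔ N i)) => ((z.toMul : WU l N (H ⊔ N i)) : Lˣ)) h
    · intro h
      apply Additive.toMul.injective
      apply Subtype.ext
      exact h
  have h3 : Module.finrank ℤ f.ker = Module.finrank ℤ (Additive (WU (i :: l) N H)) := by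
    have h4 : ∀ x : f.ker, ((x : Additive (WU l N H)).toMul : Lˣ) ∈ WU (i :: l) N H := by
      intro x
      refine ⟨((x : Additive (WU l N H)).toMul).2.1, ((x : Additive (WU l N H)).toMul).2.2.1, ?_⟩
      rw [mem_part]
      intro j hj
      rcases List.mem_cons.1 hj with rfl | hj
      · exact (hk _).mp x.2
      · exact (mem_part.mp ((x : Additive (WU l N H)).toMul).2.2.2) j hj
    let e : f.ker →+ Additive (WU (i :: l) N H) :=
      { toFun := fun x => Additive.ofMul ⟨_, h4 x⟩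
        map_zero' := by
          apply Additive.toMul.injective
          apply Subtype.ext
          rfl
        map_add' := by
          intro x y
          apply Additive.toMul.injective
          apply Subtype.ext
          rfl }
    have he : Function.Bijective e := by
      constructor
      · intro x y hxy
        apply Subtype.ext
        apply Additive.toMul.injective
        apply Subtype.ext
        exact congrArg (fun z : Additive (WU (i :: l) N H) => ((z.toMul : WU (i :: l) N H) : Lˣ))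
          hxy
      · intro y
        have hy : (y.toMul : Lˣ) ∈ WU l N H := by
          refine ⟨y.toMul.2.1, y.toMul.2.2.1, ?_⟩
          rw [mem_part]
          intro j hj
          exact (mem_part.mp y.toMul.2.2.2) j (List.mem_cons_of_mem _ hj)
        refine ⟨⟨Additive.ofMul ⟨_, hy⟩, (hk _).mpr ?_⟩, ?_⟩
        · exact (mem_part.mp y.toMul.2.2.2) i (by simp)
        · apply Additive.toMul.injective
          apply Subtype.ext
          rfl
    exact (AddEquiv.ofBijective e he).toIntLinearEquiv.finrank_eq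
  rw [h2, h3] at h1
  omega

end Pool.Agent.RID


end
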