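import Mathlib
import Pool.Agent.MVF.C025
import Pool.Agent.MVF.C026
import Pool.Agent.MVF.C036
import Pool.Agent.MVF.C039
import Pool.Agent.MVF.C060
import Pool.Agent.MVF.C066

/-! Parts: MU3.StF6, MU3.StH, MU3.H_QS, MUX.HY_QSX, MU3.P_TWK, MU3.I_I3F, MU3.I_ITG, MUX.K_NR1, MU3.PX_NPC -/

namespace MU3.NPC
end MU3.NPC
namespace Pool.Agent.MU3.P_TWK
end Pool.Agent.MU3.P_TWK
namespace Pool.Agent.MU3H.Qs
end Pool.Agent.MU3H.Qs
namespace Pool.Agent.MUXHY.Qsx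
end Pool.Agent.MUXHY.Qsx
namespace Pool.Agent.MUXK.K_NR1
end Pool.Agent.MUXK.K_NR1

section

/-!
# MU3, block F6 (helper36): rationality of the modular symbol of theta, and the data of Theorem G

`k = kk A B`, `F_m = TF L m`, `g` the conductor of `e`. A module proves `theorem t_X : St_X`.
-/

set_option autoImplicit false

namespace Pool.Agent.MU3G

open _root_.MU3 _root_.Pool.Agent.MU3A _root_.Pool.Agent.MU3B _root_.Pool.Agent.MU3F _root_.Pool.Agent.MuSym OnePoint NumberField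

noncomputable section

/-- (F6E) algebraicity of `e` (`ee L`) at the torsion points, and the Galois action.

Uses St_TRA, St_HAL, St_TIN (proof), St_PER, St_NEQ (all in `BAll.lean`), Sa_NRM, Sa_GAL, Sa_ACT, Sa_EQN. The proof is parallel to `Sw_THG` (`StV2.lean`). PROOF. `n = nm m ≠ 0`, `b = 1 + 2 n`, an odd
integer `≥ 3`, prime to `m`, `b z ≡ z` modulo `L` (`n z ∈ L` as `m ∣ n`). `Hs` a half system for `b` (HAL; `b` is odd). (TRA):
`(b - b²) ee z = Σ_(q ∈ Hs) ℘' z/(℘ z - ℘ q) = Σ_q 2 yy z/(xx z - xx q)` (`xx z ≠ xx q`: else `z ≡ ± q` (NEQ), `b z ∈ L`, `z ∈ L`). `F₁ = TF L (m b)` is finite Galois over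
`k` and contains all terms; `TF L m ≤ F₁`. Let `σ' : F₁ → ℂ` with `Act σ' (m b) a'`: then
`σ'((b - b²) ee z) = Σ_q 2 yy(a' z)/(xx(a' z) - xx(a' q))`. The set `{a' q}` is again a half system for `b` (`a'` is prime to `b`; see the proof of `Sw_THG`), and the summand
depends only on the class of `± q` modulo `L`; so the sum is the same as the sum over `q ∈ Hs` (bijection as in (TIN)), which is `(b - b²) ee(a' z)` by (TRA) for `a' z`
(`a' z ∉ L`, `(b - 1) a' z ∈ L`). So `σ'(ee z) = ee(a' z)`. If `σ' ∈ Gal(F₁/TF L m)`, then `m ∣ a' - 1` (ACT (3), (1)), `a' z ≡ z`, `ee(a' z) = ee z` (PER): `ee z` is fixed by `Gal(F₁/TF L m)`, so it is in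
`TF L m`. An embedding `σ` of `TF L m` with `Act σ m a` extends to `σ'` on `F₁`, `m ∣ a' - a`, `ee(a' z) = ee(a z)`. -/
def St_F6E : Prop :=
  ∀ (A B : ℤ) (_ : Case A B) (L : PeriodPair) (Om : ℂ) (_ : IsCM A B L Om) (m : OO A B)
    (_ : m ≠ 0) (z : ℂ) (_ : emb m * z ∈ L.lattice) (_ : z ∉ L.lattice),
    ∃ hz : ee L z ∈ TF L m, ∀ (σ : TF L m →ₐ[kk A B] ℂ) (a : OO A B), Act L σ m a →
      σ ⟨ee L z, hz⟩ = ee L (emb a * z)

/-- (F6M) the same for bigger fields, with the roots of unity.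

Uses F6E, Sa_CYC, Sa_ACT. PROOF. `TF L m ≤ F`. `σ : F → ℂ` restricts to `TF L m` (ACT (8): `Act` of the restriction), F6E. Roots of unity: CYC for `M`: `TF L M ≤ TF L m ≤ F`
(`M ∣ m`, generators), `Act σ M a` (ACT (3)), `σ ζ = ζ^(nm a)`, `ζ = ex (c/M)` (`ζ^M = 1`): `ex(c nm a/M)`. -/
def St_F6M : Prop :=
  ∀ (A B : ℤ) (_ : Case A B) (L : PeriodPair) (Om : ℂ) (_ : IsCM A B L Om) (m : OO A B)
    (_ : m ≠ 0) (F : IntermediateField (kk A B) ℂ) (_ : TF L m ≤ F),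
    (∀ z : ℂ, emb m * z ∈ L.lattice → z ∉ L.lattice → ∃ hz : ee L z ∈ F,
      ∀ (σ : F →ₐ[kk A B] ℂ) (a : OO A B), Act L σ m a → σ ⟨ee L z, hz⟩ = ee L (emb a * z)) ∧
    ∀ (M : ℕ) (_ : 0 < M) (_ : (M : OO A B) ∣ m) (c : ℤ), ∃ hz : ex (c / M : ℚ) ∈ F,
      ∀ (σ : F →ₐ[kk A B] ℂ) (a : OO A B), Act L σ m a → σ ⟨_, hz⟩ = ex (c * nm a / M : ℚ)

/-- (F6C) rationality for the cusps `∞`, `b/M`.

Uses F6M, Sf_F4, Sf_SM, Sf_ALG, Sa_GAL, Sa_ACT, Sa_NRM. PROOF. `g' = g M`. `F = H ⊔ TF L g'`: finite Galois over `k` (compositum; every embedding maps `F` to itself). (F4)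
`v := Phi e ∞ (b/M)/Om = -Iv e (b/M)/Om = 1/(2 emb g') sumMod g' (e x ex(b nm x/M) ee L (Om emb x/emb g'))`. If `e x ≠ 0` then `x` is prime to `g`, not a unit, so `¬ g' ∣ x` and
`z_x = Om emb x/emb g' = emb x (Om/emb g')` is in `E[g']`, not in `L`; so all terms are in `F` (`e x ∈ H`). Let `τ : F ≃ₐ[k] F` (or an embedding), `Act (em τ) g' a` (GAL), `e'(x) = τ(e x)`:
`τ v = 1/(2 emb g') sumMod g' (e' x ex(b nm x nm a/M) ee L (emb a z_x))`. `e'` also satisfies `IsEps g e'`. `e' x = (e' a)⁻¹ e'(a x)` (`e' a ≠ 0`, `a` is prime to `g'`, so to `g`), `emb a z_x = z_(a x)`, `nm x nm a = nm(a x)`,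
and `x ↦ a x` is a bijection of the classes modulo `g'` (periodicity of the summand modulo `g'`: `g ∣ g'`, `nm` modulo `M`, (PER)), so
`τ v = (e' a)⁻¹ Phi e' ∞ (b/M)/Om`. (i) If `τ` is trivial on `H`: `e' = e`, and `Act (em τ) g 1` (it is trivial on `TF L g ≤ H`) and `Act (em τ) g a`, so `g ∣ a - 1` (ACT (1) for `F`), `e a = 1`,
`τ v = v`. So `v ∈ H` (Galois correspondence for `F/k`). (ii) `σ : H ≃ₐ[k] H` with `Act (em σ) g a₀`: extend to `τ` of `F` (normal); `Act (em τ) g' a`, `g ∣ a - a₀`, so `e' a = e' a₀`, `e'` = `σ ∘ e`, `τ v = σ v`. -/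
def St_F6C : Prop :=
  ∀ (A B : ℤ) (_ : Case A B) (L : PeriodPair) (Om : ℂ) (_ : IsCM A B L Om) (g : OO A B)
    (_ : g ≠ 0) (_ : ¬ IsUnit g) (e : OO A B → ℂ) (_ : IsEps g e)
    (H : IntermediateField (kk A B) ℂ) [FiniteDimensional (kk A B) H] [IsGalois (kk A B) H]
    (_ : TF L g ≤ H) (he : ∀ z, e z ∈ H) (M : ℕ) (_ : 0 < M) (b : ℤ),
    ∃ hv : Phi e ∞ ((b / M : ℚ) : OnePoint ℚ) / Om ∈ H, ∀ (σ : H ≃ₐ[kk A B] H) (a : OO A B),
      Act L (_root_.Pool.Agent.MU3A.em σ) g a → Phi (fun z => ((σ ⟨e z, he z⟩ : H) : ℂ)) ∞ ((b / M : ℚ) : OnePoint ℚ) =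
        Om * (((σ ⟨e a, he a⟩ : H) : ℂ) * ((σ ⟨_, hv⟩ : H) : ℂ))

/-- (F6) rationality of the symbol.

Uses F6C. PROOF. `Phi e x y = Phi e ∞ y - Phi e ∞ x` (`Phi e x y = Ic e x - Ic e y`, `Ic e ∞ = 0`), `Phi e ∞ ∞ = 0`, every rational number is `b/M`. Linear in the values. -/
def St_F6 : Prop :=
  ∀ (A B : ℤ) (_ : Case A B) (L : PeriodPair) (Om : ℂ) (_ : IsCM A B L Om) (g : OO A B)
    (_ : g ≠ 0) (_ : ¬ IsUnit g) (e : OO A B → ℂ) (_ : IsEps g e)
    (H : IntermediateField (kk A B) ℂ) [FiniteDimensional (kk A B) H] [IsGalois (kk A B) H]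
    (_ : TF L g ≤ H) (he : ∀ z, e z ∈ H) (x y : OnePoint ℚ),
    ∃ hv : Phi e x y / Om ∈ H, ∀ (σ : H ≃ₐ[kk A B] H) (a : OO A B),
      Act L (_root_.Pool.Agent.MU3A.em σ) g a → Phi (fun z => ((σ ⟨e z, he z⟩ : H) : ℂ)) x y =
        Om * (((σ ⟨e a, he a⟩ : H) : ℂ) * ((σ ⟨_, hv⟩ : H) : ℂ))

/-- (HP) the field `H = k(E[g], ζ_r)`, `g = f π̄`, unramified at `V` (helper34).

PROOF. `H` = the field generated over `k` by `TF L g` and `ζ_r`: finite Galois (NRM). `inert`: let `s` be trivial modulo `V`; it acts on `E[g]` by some `a` (GAL), `xx(a z) ≡ xx z`, `yy(a z) ≡ yy z` for `z` in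
`E[g]` (integral by T3: `g` is prime to `π`), so `a z - z` is in the kernel of reduction (`Sw_DIF` of `StV2.lean`) and in `E[g]`, so in `L` (T3): `s` is trivial on `TF L g`; `s ζ_r = ζ_r^i ≡ ζ_r`, so `s ζ_r = ζ_r`
(`3 ∤ r`). `unr`: the inertia group of the prime `P = {x ∈ 𝓞 H : x ∈ V.nonunits}` over `k` is trivial, so `P` is unramified over `π` (`Se_RAM` of helper66, `StE.lean`), so `y/emb π ∈ V` for `y ∈ V.nonunits`
(`t_G6a` (ii)). Frobenius: there is `s0` with `s0 x ≡ x³` modulo `P` (`FEX`, `IsArithFrobAt.exists_of_isInvariant`; the residue field of `k` at `π` has 3 elements), for all `x ∈ H ∩ V` by G6a (ii); it acts on `E[g]` as `a`, and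
by FR3 `xx(a z) ≡ (xx z)³ ≡ xx(-π z)`, `yy(a z) ≡ yy(-π z)`, so `a z + π z ∈ L`. -/
def St_HP : Prop :=
  ∀ (A B : ℤ) (_ : Case A B) (L : PeriodPair) (Om : ℂ) (_ : IsCM A B L Om)
    (V : ValuationSubring ℂ) (_ : emb (ppi A B) ∈ V.nonunits) (f : ℕ) (_ : f ≠ 0) (_ : ¬ 3 ∣ f)
    (r : ℕ) (_ : ¬ 3 ∣ r),
    ∃ H : IntermediateField (kk A B) ℂ, FiniteDimensional (kk A B) H ∧ IsGalois (kk A B) H ∧
      TF L ((f : OO A B) * star (ppi A B)) ≤ H ∧ (∀ z : ℂ, z ^ r = 1 → z ∈ H) ∧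
      (∀ y : H, (y : ℂ) ∈ V.nonunits → (y : ℂ) / emb (ppi A B) ∈ V) ∧
      (∀ s : H ≃ₐ[kk A B] H, (∀ x : H, (x : ℂ) ∈ V → ((s x : H) : ℂ) - x ∈ V.nonunits) → s = 1) ∧
      ∃ s0 : H ≃ₐ[kk A B] H, (∀ x : H, (x : ℂ) ∈ V → ((s0 x : H) : ℂ) - (x : ℂ) ^ 3 ∈ V.nonunits) ∧
        Act L (_root_.Pool.Agent.MU3A.em s0) ((f : OO A B) * star (ppi A B)) (-ppi A B)

/-- (FT) the analytic input (helper40): transformation laws of `thetaInt`, `N = |D| (3f)²`.

PROOF: block FT of helper40. -/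
def St_FT : Prop :=
  ∀ (A B : ℤ) (_ : Case A B) (f : ℕ) (_ : f ≠ 0) (_ : ¬ 3 ∣ f) (_ : 2 * absD A B ∣ (f : ℤ))
    (e : OO A B → ℂ) (_ : IsEps ((f : OO A B) * star (ppi A B)) e) (N' : ℕ) (_ : N' ≠ 0)
    (_ : absD A B * (3 * f) ^ 2 ∣ (N' : ℤ)),
    IsSym N' (nuE e) (Phi e) ∧
    (∀ a b c d : ℤ, a * d - b * c = 1 → (N' : ℤ) ∣ c → ∀ τ : ℂ, 0 < τ.im →
      thetaInt e ((a * τ + b) / (c * τ + d)) =
        nuE e d * thetaInt e τ + Phi e ∞ (mob a b c d ∞)) ∧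
    ∀ a b c d : ℤ, a * d - b * c = 1 → ∃ (C : ℂ) (w : ℕ → ℂ), ∀ τ : ℂ, 0 < τ.im →
      HasSum (fun n : ℕ => w n * Complex.exp (2 * Real.pi * Complex.I * τ / N') ^ (n + 1))
        (thetaInt e ((a * τ + b) / (c * τ + d)) - C)

/-- (GFINP) Theorem G from its parts.

Uses GTH, HP, F6, FT, Sa_GAL, Sa_ACT, Sa_INT, G0. PROOF. `g = f π̄`, `g ≠ 0`, not a unit. `H'` from HP for `r` (`r ≠ 0` as `3 ∤ r`), `H := ↥H'` (a number field: `k` is finite over `ℚ` (INT)), `io = H'.val`,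
`j x = ⟨emb x, _⟩` (`emb_mem`, ring homomorphism by `embHom`), `Γ` = the range of `(H' ≃ₐ[k] H') →* (H' ≃+* H')`, finite. For `s ∈ Γ` choose the automorphism and `al s` with `Act L (em s) g (al s)` (GAL), for `s0` from HP
choose `al s0` arbitrary as well: `g ∣ al s0 + π` by ACT (1). `al_mul`: ACT (4), (1). `al_cop`: `Act`. `eH x = ⟨e x, _⟩` (`e x` is 0 or an `r`-th root of unity). `gal`: an element of `H'` fixed by `Γ` is in `k`, and
`k = {emb x/emb z}` (INT: `s + t w` with rational `s, t`). `fix`, `unr`, `frob`, `inert`, `eps`: clear (`HP`). `PhiH x y = ⟨Phi e x y/Om, _⟩` (F6). For `s ∈ Γ` the function `e_s = io ∘ s ∘ eH` satisfies `IsEps g e_s`, so FT applies to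
it. `N'`-hypothesis of GTH: `N' ∣ d - 1`, `|D| ∣ N'` gives `chiD d = 1` (`|D|` is 8 or 11), and `g ∣ f * 3 ∣ N'`. GTH gives the result. -/
def St_GFINP : Prop := St_GTH → St_HP → St_F6 → St_FT → St_GFIN

end

end Pool.Agent.MU3G


end

section

/-!
# MU3, block H (helper27): from Theorem G to `MU3I.St_HFIN`

Section 7 of PAPER.md. Every statement is a `def Sh_X : Prop`; a module proves `theorem th_X (h : ..) ... : Sh_X`,
the hypotheses are the statements named under USES. `v = V.valuation`: `v x ≤ 1 ↔ x ∈ V`, `v x < 1 ↔ x ∈ V.nonunits`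
(`ValuationSubring.valuation_le_one_iff`, `ValuationSubring.mem_nonunits_iff`). `v` is multiplicative.
-/

set_option autoImplicit false

namespace Pool.Agent.MU3H

open _root_.MU3 _root_.Pool.Agent.MU3 _root_.Pool.Agent.MU3A _root_.Pool.Agent.MU3B _root_.Pool.Agent.MU3C _root_.Pool.Agent.MU3F
  _root_.Pool.Agent.MU3G _root_.Pool.Agent.MU3I _root_.Pool.Agent.MuSym OnePoint
open scoped ComplexConjugate

noncomputable section

/-! ## Abstract part: distributions on `ℤ₃` with values in `ℂ` -/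

/-- `M n b` is the value on the ball `b + 3^n ℤ₃` -/
structure Dist (M : ℕ → ℤ → ℂ) : Prop where
  per : ∀ (n : ℕ) (b c : ℤ), (3 : ℤ) ^ n ∣ b - c → M n b = M n c
  add : ∀ (n : ℕ) (b : ℤ), M n b = ∑ j ∈ Finset.range 3, M (n + 1) (b + j * 3 ^ n)

/-- (HZ) the character sums of an integral distribution which is nonzero modulo `V` have small valuation.

PROOF. `t = v 3 < 1`, `t ≠ 0`. Let `v (M m b₀) = 1`; `n₀ = m + 1`. Let `n ≥ n₀`, `P(T) = Σ_(b < 3^n) M n b T^b`, a polynomial with coefficients in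
`K ∩ V`, `P(1 + X) = Σ_k c_k X^k`, `c_k ∈ K`, `v c_k ≤ 1`. (1) Some `c_k` with `k < 3^m` has `v c_k = 1`: otherwise, modulo the
maximal ideal, `(T - 1)^(3^m) = T^(3^m) - 1` (characteristic 3) divides `P(T)`, so the sums of the coefficients of `P` over the classes modulo `3^m`
(`Σ_(b ≡ b₁ mod 3^m) M n b = M m b₁` by additivity) would all be `0` modulo the maximal ideal, against `M m b₀`. Let `k₀` be the smallest such `k`.
(2) `y = v(ζ - 1)` satisfies `y^φ = t`, `φ = 2 3^(n-1)` (`3` = value at `1` of the cyclotomic polynomial = product of the `φ` numbers `1 - ζ^i`, `3 ∤ i`, and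
`v(1 - ζ^i) = v(1 - ζ)` because each divides the other in `ℤ[ζ]`); so `y < 1`, `y ≠ 0`. (3) In `P(ζ) = Σ c_k (ζ-1)^k` the term `k₀` has `v = y^k₀`,
the terms `k > k₀` have `v ≤ y^(k₀+1) < y^k₀`, the terms `k < k₀` have `v c_k < 1`, so `v c_k ≤ t = y^φ < y^k₀` (`k₀ < 3^m ≤ 3^(n-1) < φ`). So
`v(P(ζ)) = y^k₀`, and `v(P(ζ))² = y^(2 k₀) > y^φ = t` as `2 k₀ < φ`. -/
def Sh_HZ : Prop :=
  ∀ (V : ValuationSubring ℂ) (_ : V.valuation 3 < 1) (K : Subring ℂ)
    (_ : ∀ x ∈ K, V.valuation x < 1 → V.valuation x ≤ V.valuation 3)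
    (M : ℕ → ℤ → ℂ) (_ : Dist M) (_ : ∀ n b, M n b ∈ K) (_ : ∀ n b, V.valuation (M n b) ≤ 1)
    (_ : ∃ n b, V.valuation (M n b) = 1),
    ∃ n₀ : ℕ, ∀ n, n₀ ≤ n → ∀ ζ : ℂ, IsPrimitiveRoot ζ (3 ^ n) →
      V.valuation 3 < V.valuation (∑ b ∈ Finset.range (3 ^ n), ζ ^ b * M n b) ^ 2

/-- (STP) one step: `M` is not invariant under `u` modulo the maximal ideal.

PROOF. `M' n b = c₁ M n (u b) - c₂ M n b`. `Dist M'`: `M n (u b) = Σ_j M (n+1) (u b + j 3^n)` and `u (b + j 3^n) - (u b + j 3^n) = (u - 1) j 3^n` is divisible by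
`3^(n+1)`. Integrality: `u` is prime to `3`, so `¬ 3^n ∣ u b`; `v c₂ ≤ 1`. Last part: suppose that `v (M' n b) < 1` for all `n ≥ 1`, `3 ∤ b`. As
`M' n b = c₁ (M n (u b) - M n b) + (c₁ - c₂) M n b`, `v (M n (u b) - M n b) < 1`, and `v (M n (u^i b) - M n b) < 1` for all `i`. Let `3^k` be the exact power of `3` dividing `u - 1`,
`k ≥ 1`. For `n ≥ k`: `u^(3^(n-k)) ≡ 1 + 3^n w` modulo `3^(n+1)`, `3 ∤ w` (induction: `(1 + 3^n w)^3 ≡ 1 + 3^(n+1) w` modulo `3^(n+2)`, `n ≥ 1`), so `b + j 3^n ≡ u^i b` modulo `3^(n+1)` for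
some `i` (`i = i' 3^(n-k)`, `i' w b ≡ j` modulo 3). So all `M (n+1) (b + j 3^n)` are `M (n+1) b` up to elements with `v < 1`, and `M n b = Σ_j ..` is `3 M (n+1) b` up to such elements, `v (M n b) < 1`.
For `1 ≤ n < k` use additivity and descending induction on `n`. Contradiction. -/
def Sh_STP : Prop :=
  ∀ (V : ValuationSubring ℂ) (_ : V.valuation 3 < 1) (M : ℕ → ℤ → ℂ) (_ : Dist M)
    (_ : ∀ (n : ℕ) (b : ℤ), ¬ (3 : ℤ) ^ n ∣ b → V.valuation (M n b) ≤ 1)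
    (_ : ∃ (n : ℕ) (b : ℤ), 1 ≤ n ∧ ¬ (3 : ℤ) ∣ b ∧ V.valuation (M n b) = 1)
    (u : ℤ) (_ : (3 : ℤ) ∣ u - 1) (_ : u ≠ 1) (c₁ c₂ : ℂ) (_ : V.valuation c₁ = 1)
    (_ : V.valuation (c₁ - c₂) < 1),
    Dist (fun n b => c₁ * M n (u * b) - c₂ * M n b) ∧
    (∀ (n : ℕ) (b : ℤ), ¬ (3 : ℤ) ^ n ∣ b → V.valuation (c₁ * M n (u * b) - c₂ * M n b) ≤ 1) ∧
    ∃ (n : ℕ) (b : ℤ), 1 ≤ n ∧ ¬ (3 : ℤ) ∣ b ∧ V.valuation (c₁ * M n (u * b) - c₂ * M n b) = 1

/-- the combination of the distribution (up to the sign `(-1)^N` it is `(E - 1)^N (a M(·) - a² M(a² ·))`,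
`E M (b) = M (4 b)`) -/
def comb (a : ℤ) (N : ℕ) (M : ℕ → ℤ → ℂ) (n : ℕ) (b : ℤ) : ℂ :=
  ∑ j ∈ Finset.range (N + 1), ((-1 : ℂ) ^ (N - j) * (N.choose j : ℂ)) *
    ((a : ℂ) * M n (4 ^ (N - j) * b) - (a : ℂ) ^ 2 * M n (4 ^ (N - j) * a ^ 2 * b))

/-- (H5) the combination is integral on all balls and nonzero modulo `V`.

USES STP. PROOF. `M₀ n b = a M n b - a² M n (a² b)`: STP with `u = a²`, `c₁ = -a²`, `c₂ = -a` (`v a = 1` as `3 ∤ a` (Bezout), `c₁ - c₂ = -a (a - 1)`, `3 ∣ a - 1`; `a² ≠ 1` because `a ≠ 1` and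
`a ≠ -1`, `3 ∤ -2`; `3 ∣ a² - 1`). `M_(i+1) n b = M_i n (4 b) - M_i n b`: STP with `u = 4`, `c₁ = c₂ = 1`. All `M_i` are `Dist`, integral off `0`, with a value of valuation `1` on units. For `i ≥ 1` and
`3^n ∣ b`: `M_i n b = 0` (periodicity), so `M_i`, `i ≥ 1`, is integral everywhere. `M_N n b = Σ_i (-1)^(N-i) binom(N, i) M₀ n (4^i b)` (induction, or `add_pow` for the commuting operators `E`, `-1`), so
`comb a N M n b = (-1)^N M_N n b` (`i = N - j`). `Dist` and valuations do not see the sign. -/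
def Sh_H5 : Prop :=
  ∀ (V : ValuationSubring ℂ) (_ : V.valuation 3 < 1) (M : ℕ → ℤ → ℂ) (_ : Dist M)
    (_ : ∀ (n : ℕ) (b : ℤ), ¬ (3 : ℤ) ^ n ∣ b → V.valuation (M n b) ≤ 1)
    (_ : ∃ (n : ℕ) (b : ℤ), 1 ≤ n ∧ ¬ (3 : ℤ) ∣ b ∧ V.valuation (M n b) = 1)
    (a : ℤ) (_ : (3 : ℤ) ∣ a - 1) (_ : a ≠ 1) (N : ℕ) (_ : 1 ≤ N),
    Dist (comb a N M) ∧ (∀ n b, V.valuation (comb a N M n b) ≤ 1) ∧
      ∃ n b, V.valuation (comb a N M n b) = 1

/-- (MD) the distribution attached to an eigenfunction of `U_3`.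

PROOF. `per`: `b/3^n - c/3^n` is an integer. `add`: `(b/3^n + j)/3 = (b + j 3^n)/3^(n+1)`; `a3 ^ (n+1) = a3 a3^n`. -/
def Sh_MD : Prop :=
  ∀ (g : ℚ → ℂ) (a3 c : ℂ) (_ : a3 ≠ 0) (_ : ∀ (r : ℚ) (k : ℤ), g (r + k) = g r)
    (_ : ∀ r : ℚ, ∑ j ∈ Finset.range 3, g ((r + j) / 3) = a3 * g r),
    Dist (fun n b => g (b / 3 ^ n) / (c * a3 ^ n))

/-- (MAX) a subset of a finitely generated group has an element of maximal valuation.

PROOF. The subgroup generated by `S` is a submodule of a finitely generated `ℤ`-module, so finitely generated, and it is generated by a finite subset `S₀` of `S`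
(a finite set of generators, each is a combination of finitely many elements of `S`; add one element of `S` if empty). Integers are in `V`, so every `x ∈ S` has `v x ≤` the maximum of `v` on `S₀`. -/
def Sh_MAX : Prop :=
  ∀ (V : ValuationSubring ℂ) (T : Finset ℂ) (S : Set ℂ)
    (_ : S ⊆ (AddSubgroup.closure (T : Set ℂ) : Set ℂ)) (_ : S.Nonempty),
    ∃ l ∈ S, ∀ x ∈ S, V.valuation x ≤ V.valuation l

/-- (ALB) an algebraic number times a power of `3` is in `V`.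

PROOF. `n l` is integral over `ℤ` for some integer `n ≠ 0` (`IsAlgebraic.exists_integral_multiple` or `exists_integral_multiple`), `V` is integrally closed, so `v(n l) ≤ 1`; `n = 3^k m`, `3 ∤ m`, `v m = 1` (Bezout). -/
def Sh_ALB : Prop :=
  ∀ (V : ValuationSubring ℂ) (_ : V.valuation 3 < 1) (l : ℂ), IsAlgebraic ℚ l →
    ∃ k : ℕ, V.valuation (3 ^ k * l) ≤ 1

/-! ## Symbols -/

/-- (HK) elementary facts on symbols of weight two.

PROOF. `mob 1 k 0 1` is the translation by `k` (it fixes `∞`), `mob (-1) 0 0 1` is `x ↦ -x`. (i) equivariance for `(1 k; 0 1)`, `nu 1 = 1`. (ii) the same for `-r - k`. (iii) `-(h x) = h' (-x)`,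
`h' = (a, -b; -c, d)`, same `d`, `N' ∣ -c`. (iv) `hecke` at `(∞, r)` and at `(∞, -r)`: `-(r + j)/3 = (-r + (3 - j))/3 - 1`, so the sum over `j = 0, 1, 2` of `P ∞ (-(r + j)/3)` is the sum of the `P ∞ ((-r + j)/3)`. -/
def Sh_HK : Prop :=
  ∀ (N' : ℕ) (nu : ℤ → ℂ) (P : OnePoint ℚ → OnePoint ℚ → ℂ) (_ : IsSym N' nu P) (_ : nu 1 = 1)
    (s : ℂ),
    (∀ (r : ℚ) (k : ℤ), P ∞ ((r + k : ℚ) : OnePoint ℚ) = P ∞ (r : OnePoint ℚ)) ∧
    (∀ (r : ℚ) (k : ℤ), sgnPart s P ∞ ((r + k : ℚ) : OnePoint ℚ) =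
      sgnPart s P ∞ (r : OnePoint ℚ)) ∧
    IsSym N' nu (sgnPart s P) ∧
    ∀ a3 : ℂ, nu 3 = 0 → (∀ x y, hecke 3 nu P x y = a3 * P x y) → ∀ r : ℚ,
      ∑ j ∈ Finset.range 3, sgnPart s P ∞ (((r + j) / 3 : ℚ) : OnePoint ℚ) =
        a3 * sgnPart s P ∞ (r : OnePoint ℚ)

/-- (QS) the quantity of `St_HFIN` as a character sum. `sgnPart s (Phi e) ∞ (b/3^n)/(Om lam a3^n)` is the distribution.

USES Sf_F5S, Sf_ALG. PROOF. `m = n + 1`, `W c = Σ_(b < 3^m) ex(-b c/3^m) P b`, `P b = sgnPart s (Phi e) ∞ (b/3^m)` (a function of the class of `b` modulo `3^m`, by `hT`, induction on the integer). For `3 ∤ c` (F5S):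
`Sn c + s Sn (-c) = (2 f/Om) W c` (in the second sum replace `b` by `-b`, sums of periodic functions over the classes modulo `3^m`: e.g. via `ZMod`, or `Finset.sum_nbij`). So with `a = 1 + 6 f`,
`ST c + s ST (-c) = (2 f/Om) (a W (a² c) - a² W c)`. Let `ζ = ex(-(4^N a²)/3^m)`, `ζ^(3^m) = 1`. Substituting `b = 4^(N-j) b'`: `W (a² 4^j) = Σ_b' ζ^b' P(4^(N-j) b')`, and `b = 4^(N-j) a² b'`: `W (4^j) = Σ_b' ζ^b' P(4^(N-j) a² b')` (`4`, `a` are prime to `3`).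
Sum over `j`; `P b = Om lam a3^m mu m b`. -/
def Sh_QS : Prop :=
  ∀ (A B : ℤ) (_ : Case A B) (L : PeriodPair) (Om : ℂ) (_ : IsLat A B L Om) (f : ℕ) (_ : f ≠ 0)
    (e : OO A B → ℂ) (_ : IsEps ((f : OO A B) * star (ppi A B)) e)
    (_ : ∀ (r : ℚ) (k : ℤ), Phi e ∞ ((r + k : ℚ) : OnePoint ℚ) = Phi e ∞ (r : OnePoint ℚ))
    (s : ℤ) (N n : ℕ) (lam a3 : ℂ) (_ : lam ≠ 0) (_ : a3 ≠ 0),
    ∑ j ∈ Finset.range (N + 1), ((-1 : ℂ) ^ (N - j) * (N.choose j : ℂ)) *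
        (_root_.Pool.Agent.MU3I.ST L Om f e n (4 ^ j) + s * _root_.Pool.Agent.MU3I.ST L Om f e n (-4 ^ j)) =
      2 * f * lam * a3 ^ (n + 1) * ∑ b ∈ Finset.range (3 ^ (n + 1)),
        ex (-(4 ^ N * (1 + 6 * f) ^ 2) / 3 ^ (n + 1)) ^ b *
          comb (1 + 6 * f) N (fun n b => sgnPart (s : ℂ) (Phi e) ∞
            ((b / 3 ^ n : ℚ) : OnePoint ℚ) / (Om * lam * a3 ^ n)) (n + 1) b

/-! ## Valuations -/

/-- (VAL) elementary valuations.

USES Sf_ALG. PROOF. `O` is integral over `ℤ` and `V` integrally closed, so `v (emb x) ≤ 1`. `ppi * star ppi = 3`: `v 3 < 1`. `v n = 1` for `3 ∤ n`: Bezout. `ppi + star ppi` is `2` or `1`, so `v (emb (star ppi)) = 1` (otherwise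
`v 2 < 1` or `v 1 < 1`), `conj (emb x) = emb (star x)`; `v 3 = v (emb ppi) v (emb (star ppi))`. Roots of unity: `v z ^ r = 1` in a linearly ordered group. Last: `v t ^ 2 = v |D| = 1` (`|D|` is 8 or 11). -/
def Sh_VAL : Prop :=
  ∀ (A B : ℤ) (_ : Case A B) (V : ValuationSubring ℂ) (_ : emb (ppi A B) ∈ V.nonunits),
    V.valuation 3 < 1 ∧ (∀ x : OO A B, V.valuation (emb x) ≤ 1) ∧
    (∀ n : ℤ, V.valuation (n : ℂ) ≤ 1) ∧
    (∀ n : ℤ, ¬ (3 : ℤ) ∣ n → V.valuation (n : ℂ) = 1) ∧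
    V.valuation (emb (ppi A B)) = V.valuation 3 ∧ V.valuation (conj (emb (ppi A B))) = 1 ∧
    (∀ (r : ℕ) (z : ℂ), r ≠ 0 → z ^ r = 1 → V.valuation z = 1) ∧
    ∀ t : ℂ, t ^ 2 = -((absD A B : ℤ) : ℂ) → V.valuation t = 1

/-- the standing hypotheses -/
structure Hyp (A B : ℤ) (L : PeriodPair) (Om : ℂ) (V : ValuationSubring ℂ) (f : ℕ)
    (e : OO A B → ℂ) (r : ℕ) (s : ℤ) : Prop where
  case : Case A B
  cm : IsCM A B L Om
  pv : emb (ppi A B) ∈ V.nonunits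
  f0 : f ≠ 0
  f3 : ¬ 3 ∣ f
  fD : 2 * absD A B ∣ (f : ℤ)
  eps : IsEps ((f : OO A B) * star (ppi A B)) e
  r3 : ¬ 3 ∣ r
  er : ∀ x, e x ≠ 0 → e x ^ r = 1
  s1 : s = 1 ∨ s = -1

/-- (CHI) facts on the character and the eigenvalue.

USES Sf_ALG, Sf_F3, Sh_VAL. PROOF. `nuE e d = chiD d * e d`; `chiD` is periodic modulo `|D|` and multiplicative (cases on the residues modulo 8 resp. 11; use `Int.emod_emod_of_dvd`, `Int.mul_emod`, `decide`),
`chiD 1 = 1`, values in `{0, 1, -1}`; `e` is periodic modulo `f star ppi`, which divides `3 f`. `r ≠ 0`. `e (ppi) ≠ 0`: `ppi` is coprime to `star ppi` (see VAL) and to `f` (`nm f = f²` is prime to `3 = ppi star ppi`, Bezout for `f` and `3`).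
`3` and `hecke`: F3 (`g = f star ppi ≠ 0`). -/
def Sh_CHI : Prop :=
  ∀ (A B : ℤ) (L : PeriodPair) (Om : ℂ) (V : ValuationSubring ℂ) (f : ℕ) (e : OO A B → ℂ) (r : ℕ)
    (s : ℤ) (_ : Hyp A B L Om V f e r s),
    nuE e 1 = 1 ∧ nuE e 3 = 0 ∧ (∀ d d', nuE e (d * d') = nuE e d * nuE e d') ∧
    (∀ d d', 3 * (absD A B * (f : ℤ) ^ 2) ∣ d - d' → nuE e d = nuE e d') ∧
    (∀ d, V.valuation (nuE e d) ≤ 1) ∧
    V.valuation (e (ppi A B) * conj (emb (ppi A B))) = 1 ∧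
    ∀ x y, hecke 3 (nuE e) (Phi e) x y = e (ppi A B) * conj (emb (ppi A B)) * Phi e x y

/-- (FLD) all values are in a number field which is unramified at `V`.

USES St_HP, St_F6, Sa_INT, Sh_VAL, Sf_ALG. PROOF. `H` from HP for `f`, `r`; `K = H` as a subfield of `ℂ`. `H` is finite over `k` and `k` is finite over `ℚ` (INT), so its elements are algebraic. `v x < 1`: `x / emb ppi ∈ V`,
`v x ≤ v (emb ppi) = v 3`. `e x` is `0` or an `r`-th root of unity. F6 with `g = f star ppi` (not `0`, not a unit by ALG). `emb x ∈ k`. -/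
def Sh_FLD : Prop :=
  ∀ (A B : ℤ) (L : PeriodPair) (Om : ℂ) (V : ValuationSubring ℂ) (f : ℕ) (e : OO A B → ℂ) (r : ℕ)
    (s : ℤ) (_ : Hyp A B L Om V f e r s),
    ∃ K : Subfield ℂ, (∀ x ∈ K, IsAlgebraic ℚ x) ∧
      (∀ x ∈ K, V.valuation x < 1 → V.valuation x ≤ V.valuation 3) ∧
      (∀ x y, Phi e x y / Om ∈ K) ∧ (∀ x, e x ∈ K) ∧ ∀ x : OO A B, emb x ∈ K

/-- (BD) the values have bounded denominators.

USES Sh_FLD, Sh_MAX, Sh_ALB, Sh_VAL, Sf_F7, St_FT. PROOF. `g = f star ppi ≠ 0`, `N' = |D| (3 f)²` (as a natural number): FT gives `IsSym`, F7 gives a finite set `T` with all `Phi e x y` in the subgroup generated by `T`, so all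
`Phi e x y/Om` are in the subgroup generated by the `t/Om`. MAX for the set of all `Phi e x y/Om`: one of them, `l`, has maximal valuation; FLD, ALB. -/
def Sh_BD : Prop :=
  ∀ (A B : ℤ) (L : PeriodPair) (Om : ℂ) (V : ValuationSubring ℂ) (f : ℕ) (e : OO A B → ℂ) (r : ℕ)
    (s : ℤ) (_ : Hyp A B L Om V f e r s),
    ∃ k : ℕ, ∀ x y, V.valuation (3 ^ k * (Phi e x y / Om)) ≤ 1

/-- (H1) both parts of the symbol are not zero modulo `V` on closed cycles.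

USES St_GFIN, Sf_F8, Sf_GSS, Sh_VAL, Sf_ALG. PROOF. Suppose the contrary: `sgnPart s (Phi e) ∞ (h ∞)/Om ∈ V.nonunits` for all `h` in `Γ₁(N')`. Let `d = |D|` (8 or 11, prime to 3) and take `h = (α β; γ δ)` from GFIN for `N' d²`. `d ∣ g` in `O`
(`2 |D| ∣ f`). F8 at `x = ∞`, `y = h ∞`: `tauD sgnPart (-s) (Phi e) ∞ (h ∞) = Σ_a chi(a) sgnPart s (Phi e) (T_a ∞) (T_a h ∞)`, `T_a = mob d a 0 d`, `T_a ∞ = ∞`, and `T_a (h ∞) = h' ∞` with
`h' = T_a h T_a⁻¹ = (α + a γ/d, β + a (δ - α)/d - a² γ/d²; γ, δ - a γ/d)`, integral because `N' d² ∣ γ`, `N' d² ∣ δ - 1` and `N' d² ∣ α - 1` (`α δ = 1 + β γ`), and in `Γ₁(N')`: (on `∞` check `mob` directly: `γ = 0` or not.) So every term divided by `Om` has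
`v < 1`, `v (tauD) = 1` (GSS, VAL), so `v (sgnPart (-s) (Phi e) ∞ (h ∞)/Om) < 1`; also `v (sgnPart s (Phi e) ∞ (h ∞)/Om) < 1`, and the sum is `2 Phi e ∞ (h ∞)/Om`, `v 2 = 1`: against GFIN. -/
def Sh_H1 : Prop :=
  ∀ (A B : ℤ) (L : PeriodPair) (Om : ℂ) (V : ValuationSubring ℂ) (f : ℕ) (e : OO A B → ℂ) (r : ℕ)
    (s : ℤ) (_ : Hyp A B L Om V f e r s) (N' : ℕ) (_ : N' ≠ 0)
    (_ : absD A B * (3 * f) ^ 2 ∣ (N' : ℤ)),
    ∃ a b c d : ℤ, a * d - b * c = 1 ∧ (N' : ℤ) ∣ c ∧ (N' : ℤ) ∣ d - 1 ∧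
      1 ≤ V.valuation (sgnPart (s : ℂ) (Phi e) ∞ (mob a b c d ∞) / Om)

/-- (H2) some value at `b/3^n`, `3 ∤ b`, `n ≥ 1`, is not in the maximal ideal.

USES S_KM2, Sh_H1, Sh_CHI, Sh_HK, Sh_BD, St_FT, Sh_VAL. PROOF. Suppose the contrary. Let `R = V`, `M = ℂ ⧸ m`, `m` = the `V`-submodule of the `x` with `v x < 1`, `Φ x y` = the class of `sgnPart s (Phi e) x y / Om`, `χ d = ⟨nuE e d, _⟩`,
`a = ⟨e ppi conj (emb ppi), _⟩` (a unit), `p = 3`, `N'` of KM2 `= |D| f²` (prime to 3, nonzero), `s` of KM2 `= 1`, `3^2 |D| f² = |D| (3 f)²` = the level `N₁`. Hypotheses of KM2: killed by `3^(k+1)` (BD: `v (3^k value) ≤ 1` for `Phi`, so for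
`sgnPart`, and one more factor `3`); `χ` (CHI); additivity and equivariance: FT for `N₁` and HK (iii) with `mob`; `a •` = HK (iv) (division by `Om`); vanishing: assumption. KM2 gives: `sgnPart s (Phi e) ∞ (h ∞)/Om` has `v < 1` for all `h` in `Γ₁(N₁)`, against H1. -/
def Sh_H2 : Prop :=
  ∀ (A B : ℤ) (L : PeriodPair) (Om : ℂ) (V : ValuationSubring ℂ) (f : ℕ) (e : OO A B → ℂ) (r : ℕ)
    (s : ℤ) (_ : Hyp A B L Om V f e r s),
    ∃ (n : ℕ) (b : ℤ), 1 ≤ n ∧ ¬ (3 : ℤ) ∣ b ∧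
      1 ≤ V.valuation (sgnPart (s : ℂ) (Phi e) ∞ ((b / 3 ^ n : ℚ) : OnePoint ℚ) / Om)

/-- (HF) the final statement of the block.

PROOF. `S` = the set of the `sgnPart s (Phi e) ∞ (b/3^n)/Om`, `n ≥ 1`, `3 ∤ b`. It is in a finitely generated group (F7 as in BD; `sgnPart s = Phi + s Phi(-, -)`), so (MAX) there is `lam ∈ S` with maximal valuation, and `v lam ≥ 1` by H2. `a3 = e ppi conj (emb ppi)`, `v a3 = 1`.
`M n b = sgnPart s (Phi e) ∞ (b/3^n)/(Om lam a3^n)`: `Dist` (HK, MD with `g r = sgnPart s (Phi e) ∞ r`, `c = Om lam`), values in `K` (FLD; `conj (emb ppi) = emb (star ppi)`); `v (M n b) ≤ 1` if `¬ 3^n ∣ b` (`b = 3^k b'`, `3 ∤ b'`, `k < n`, `b/3^n = b'/3^(n-k)`), and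
`v (M n₁ b₁) = 1` for the pair `(n₁, b₁)` of `lam`. H5 with `a = 1 + 6 f`: `comb` is `Dist`, in `K`, integral, with a value of valuation 1. HZ for `K` and `comb`: `n₀`. For `n ≥ n₀`: QS; `ζ = ex(-(4^N a²)/3^(n+1))` is a primitive root of order `3^(n+1)` (`4^N a²` is prime to 3), so
`v 3 < v(Z)²`, and the quantity is `2 f lam a3^(n+1) Z` with `v (2 f) = 1`, `v lam ≥ 1`, `v a3 = 1`: `v 3 < v(quantity)²`, i.e. not `quantity² / 3 ∈ V`. -/
def Mh_HF : Prop :=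
  Sf_ALG → Sh_VAL → Sh_HZ → Sh_H5 → Sh_MD → Sh_MAX → Sh_HK → Sh_QS → Sh_CHI → Sh_FLD → Sh_H2 →
    Sf_F7 → St_FT → St_HFIN

end

end Pool.Agent.MU3H


end

section

/-!
# MU3, block H: the quantity of `St_HFIN` as a character sum (module QS)
-/

set_option autoImplicit false

namespace Pool.Agent.MU3H

open _root_.MU3 _root_.Pool.Agent.MU3 _root_.Pool.Agent.MU3A _root_.Pool.Agent.MU3B _root_.Pool.Agent.MU3C _root_.Pool.Agent.MU3F
  _root_.Pool.Agent.MU3G _root_.Pool.Agent.MU3I _root_.Pool.Agent.MuSym OnePoint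
open scoped ComplexConjugate

noncomputable section

namespace Qs

theorem mob_inf : mob (-1) 0 0 1 ∞ = ∞ := by
  show (if (0 : ℤ) = 0 then (∞ : OnePoint ℚ) else ((((-1 : ℤ) : ℚ) / (0 : ℤ) : ℚ) : OnePoint ℚ)) = ∞
  rw [if_pos rfl]

theorem mob_neg (r : ℚ) : mob (-1) 0 0 1 ((r : ℚ) : OnePoint ℚ) = ((-r : ℚ) : OnePoint ℚ) := by
  show (if ((0 : ℤ) : ℚ) * r + (1 : ℤ) = 0 then ∞ else
    ((((((-1 : ℤ) : ℚ) * r + (0 : ℤ)) / (((0 : ℤ) : ℚ) * r + (1 : ℤ)) : ℚ)) : OnePoint ℚ)) = _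
  rw [if_neg (by norm_num)]
  congr 1
  push_cast
  ring

/-! ## periodic sums -/

theorem sum_zmod (q : ℕ) [NeZero q] (G : ZMod q → ℂ) :
    ∑ b ∈ Finset.range q, G (b : ZMod q) = ∑ x : ZMod q, G x := by
  refine Finset.sum_nbij' (fun b => (b : ZMod q)) (fun x => x.val) ?_ ?_ ?_ ?_ ?_
  · intro b _
    exact Finset.mem_univ _
  · intro x _
    exact Finset.mem_range.mpr (ZMod.val_lt x)
  · intro b hb
    exact ZMod.val_cast_of_lt (Finset.mem_range.mp hb)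
  · intro x _
    exact ZMod.natCast_zmod_val x
  · intro b _
    rfl

theorem per_val {q : ℕ} [NeZero q] {G : ℤ → ℂ} (hG : ∀ b k : ℤ, G (b + q * k) = G b) (b : ℤ) :
    G (((b : ZMod q).val : ℕ) : ℤ) = G b := by
  have h1 : (((b : ZMod q).val : ℕ) : ℤ) = b % q := by
    rw [ZMod.val_intCast]
  rw [h1]
  have h2 : b % q = b + q * (-(b / q)) := by
    have := Int.emod_add_mul_ediv b q
    linarith
  rw [h2, hG]

theorem sum_mul {q : ℕ} [NeZero q] {G : ℤ → ℂ} (hG : ∀ b k : ℤ, G (b + q * k) = G b)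
    {u : ℤ} (hu : IsCoprime u (q : ℤ)) :
    ∑ b ∈ Finset.range q, G (u * b) = ∑ b ∈ Finset.range q, G b := by
  obtain ⟨v, w, hvw⟩ := hu
  have huv : (u : ZMod q) * (v : ZMod q) = 1 := by
    have := congrArg (fun z : ℤ => (z : ZMod q)) hvw
    push_cast at this
    rw [ZMod.natCast_self, mul_zero, add_zero] at this
    rw [mul_comm]
    exact this
  have h1 : ∀ b : ℕ, G (u * b) = (fun x : ZMod q => G ((((u : ZMod q) * x).val : ℕ) : ℤ))
      (b : ZMod q) := by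
    intro b
    have h := per_val hG (u * b)
    push_cast at h
    exact h.symm
  have h2 : ∀ b : ℕ, G b = (fun x : ZMod q => G ((x.val : ℕ) : ℤ)) (b : ZMod q) := by
    intro b
    have h := per_val hG (b : ℤ)
    push_cast at h
    exact h.symm
  rw [Finset.sum_congr rfl (fun b _ => h1 b), Finset.sum_congr rfl (fun b _ => h2 b),
    sum_zmod q (fun x : ZMod q => G ((((u : ZMod q) * x).val : ℕ) : ℤ)),
    sum_zmod q (fun x : ZMod q => G ((x.val : ℕ) : ℤ))]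
  have hunit : IsUnit (u : ZMod q) := IsUnit.of_mul_eq_one _ huv
  obtain ⟨U, hU⟩ := hunit
  rw [← hU]
  exact Fintype.sum_equiv (Units.mulLeft U) _ _ (fun x => rfl)

/-! ## exponentials -/

theorem ex_add (r t : ℚ) : ex (r + t) = ex r * ex t := by
  unfold ex
  rw [← Complex.exp_add]
  congr 1
  push_cast
  ring

theorem ex_int (k : ℤ) : ex (k : ℚ) = 1 := by
  unfold ex
  rw [Complex.exp_eq_one_iff]
  exact ⟨k, by push_cast; ring⟩

theorem ex_pow (r : ℚ) (b : ℕ) : ex r ^ b = ex (b * r) := by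
  induction b with
  | zero =>
    rw [pow_zero]
    have := ex_int 0
    simpa using this.symm
  | succ b ih =>
    rw [pow_succ, ih, ← ex_add]
    congr 1
    push_cast
    ring

end Qs

open _root_.Pool.Agent.MU3H.Qs in
theorem th_QS (_hALG : Sf_ALG) (hF5S : Sf_F5S) : Sh_QS := by
  intro A B hC L Om hL f hf e he hT s N n lam a3 hlam ha3
  set q : ℕ := 3 ^ (n + 1) with hq
  haveI : NeZero q := ⟨by rw [hq]; positivity⟩
  have hqQ : ((q : ℤ) : ℚ) = 3 ^ (n + 1) := by rw [hq]; push_cast; ring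
  have hq0 : (3 : ℚ) ^ (n + 1) ≠ 0 := by positivity
  -- the values
  set F : ℤ → ℂ := fun b => Phi e ∞ ((b / 3 ^ (n + 1) : ℚ) : OnePoint ℚ) with hFdef
  set P : ℤ → ℂ := fun b => sgnPart (s : ℂ) (Phi e) ∞ ((b / 3 ^ (n + 1) : ℚ) : OnePoint ℚ)
    with hPdef
  set E : ℤ → ℂ := fun k => ex (k / 3 ^ (n + 1)) with hEdef
  have hPF : ∀ b : ℤ, P b = F b + s * F (-b) := by
    intro b
    simp only [hPdef, hFdef, sgnPart]
    rw [mob_inf, mob_neg]
    congr 4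
    push_cast
    ring
  have hFper : ∀ b k : ℤ, F (b + q * k) = F b := by
    intro b k
    simp only [hFdef]
    have h := hT (b / 3 ^ (n + 1)) k
    rw [← h]
    congr 3
    push_cast
    rw [show ((q : ℕ) : ℚ) = 3 ^ (n + 1) by rw [hq]; push_cast; ring]
    field_simp
  have hPper : ∀ b k : ℤ, P (b + q * k) = P b := by
    intro b k
    rw [hPF, hPF, hFper]
    congr 2
    have := hFper (-b) (-k)
    rw [← this]
    congr 1
    ring
  have hEadd : ∀ k l : ℤ, E (k + l) = E k * E l := by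
    intro k l
    simp only [hEdef]
    rw [← ex_add]
    congr 1
    push_cast
    ring
  have hEq : ∀ k : ℤ, E (q * k) = 1 := by
    intro k
    simp only [hEdef]
    rw [← ex_int k]
    congr 1
    push_cast
    rw [show ((q : ℕ) : ℚ) = 3 ^ (n + 1) by rw [hq]; push_cast; ring]
    field_simp
  have hEper : ∀ b k : ℤ, E (b + q * k) = E b := by
    intro b k
    rw [hEadd, hEq, mul_one]
  -- the transform
  have hSn : ∀ c : ℤ, ¬ (3 : ℤ) ∣ c →
      Sn L Om f e n c = (2 * f / Om) * ∑ b ∈ Finset.range q, E (-(b * c)) * F b := by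
    intro c hc
    rw [hF5S A B hC L Om hL f n e hf he c hc]
    congr 1
    refine Finset.sum_congr rfl (fun b _ => ?_)
    simp only [hEdef, hFdef]
    push_cast
    rfl
  set W : ℤ → ℂ := fun c => ∑ b ∈ Finset.range q, E (-(b * c)) * P b with hWdef
  have hSW : ∀ c : ℤ, ¬ (3 : ℤ) ∣ c →
      Sn L Om f e n c + s * Sn L Om f e n (-c) = (2 * f / Om) * W c := by
    intro c hc
    rw [hSn c hc, hSn (-c) (by rwa [dvd_neg])]
    have h1 : ∑ b ∈ Finset.range q, E (-(b * (-c))) * F b =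
        ∑ b ∈ Finset.range q, E (-(b * c)) * F (-b) := by
      have hG : ∀ b k : ℤ, (fun b : ℤ => E (-(b * (-c))) * F b) (b + q * k) =
          (fun b : ℤ => E (-(b * (-c))) * F b) b := by
        intro b k
        show E (-((b + q * k) * (-c))) * F (b + q * k) = E (-(b * (-c))) * F b
        rw [hFper, show -((b + q * k) * (-c)) = -(b * (-c)) + q * (k * c) by ring, hEper]
      have h := sum_mul (G := fun b : ℤ => E (-(b * (-c))) * F b) hG (u := -1)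
        (by exact (isCoprime_one_left).neg_left)
      rw [← h]
      refine Finset.sum_congr rfl (fun b _ => ?_)
      show E (-((-1 * (b : ℤ)) * (-c))) * F (-1 * (b : ℤ)) = _
      rw [show -((-1 * (b : ℤ)) * (-c)) = -(b * c) by ring, show -1 * (b : ℤ) = -b by ring]
    rw [h1]
    simp only [hWdef]
    rw [← mul_assoc, mul_comm (s : ℂ), mul_assoc, ← mul_add, Finset.mul_sum,
      ← Finset.sum_add_distrib]
    congr 1
    refine Finset.sum_congr rfl (fun b _ => ?_)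
    rw [hPF]
    ring
  -- substitution
  have hsub : ∀ (c u : ℤ), IsCoprime u (q : ℤ) →
      W c = ∑ b ∈ Finset.range q, E (-(b * (u * c))) * P (u * b) := by
    intro c u hu
    have hG : ∀ b k : ℤ, (fun b : ℤ => E (-(b * c)) * P b) (b + q * k) =
        (fun b : ℤ => E (-(b * c)) * P b) b := by
      intro b k
      show E (-((b + q * k) * c)) * P (b + q * k) = E (-(b * c)) * P b
      rw [hPper, show -((b + q * k) * c) = -(b * c) + q * (-(k * c)) by ring, hEper]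
    have h := sum_mul (G := fun b : ℤ => E (-(b * c)) * P b) hG hu
    simp only [hWdef]
    rw [← h]
    refine Finset.sum_congr rfl (fun b _ => ?_)
    show E (-((u * (b : ℤ)) * c)) * P (u * (b : ℤ)) = _
    rw [show -((u * (b : ℤ)) * c) = -(b * (u * c)) by ring]
  -- coprimality
  have h3q : ∀ u : ℤ, (3 : ℤ) ∣ u - 1 → IsCoprime u (q : ℤ) := by
    intro u hu
    rw [hq]
    push_cast
    apply IsCoprime.pow_right
    obtain ⟨t, ht⟩ := hu
    exact ⟨1, -t, by linear_combination ht⟩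
  have hnd : ∀ u : ℤ, (3 : ℤ) ∣ u - 1 → ¬ (3 : ℤ) ∣ u := by
    intro u hu h
    have h1 : (3 : ℤ) ∣ u - (u - 1) := dvd_sub h hu
    rw [sub_sub_cancel] at h1
    exact absurd (Int.le_of_dvd one_pos h1) (by norm_num)
  set a : ℤ := 1 + 6 * (f : ℤ) with ha
  have h3mul : ∀ u v : ℤ, (3 : ℤ) ∣ u - 1 → (3 : ℤ) ∣ v - 1 → (3 : ℤ) ∣ u * v - 1 := by
    intro u v hu hv
    have h1 : u * v - 1 = (u - 1) * v + (v - 1) := by ring
    rw [h1]
    exact dvd_add (Dvd.dvd.mul_right hu v) hv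
  have h4 : ∀ j : ℕ, (3 : ℤ) ∣ 4 ^ j - 1 := by
    intro j
    have := sub_dvd_pow_sub_pow (4 : ℤ) 1 j
    simpa using this
  have h3a : (3 : ℤ) ∣ a - 1 := ⟨2 * f, by rw [ha]; ring⟩
  have h3a2 : (3 : ℤ) ∣ a ^ 2 - 1 := by rw [sq]; exact h3mul a a h3a h3a
  have haC : ((a : ℤ) : ℂ) = 1 + 6 * (f : ℂ) := by rw [ha]; push_cast; ring
  -- the left hand side
  have hST : ∀ c : ℤ, (3 : ℤ) ∣ c - 1 →
      _root_.Pool.Agent.MU3I.ST L Om f e n c + s * _root_.Pool.Agent.MU3I.ST L Om f e n (-c) =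
        (2 * f / Om) * ((a : ℂ) * W (a ^ 2 * c) - (a : ℂ) ^ 2 * W c) := by
    intro c hc
    have e1 := hSW c (hnd c hc)
    have e2 := hSW (a ^ 2 * c) (hnd _ (h3mul _ _ h3a2 hc))
    simp only [MU3I.ST]
    rw [← ha, ← haC, show a ^ 2 * -c = -(a ^ 2 * c) by ring]
    linear_combination (a : ℂ) * e2 - (a : ℂ) ^ 2 * e1
  -- comparison term by term
  have hz : ∀ b : ℕ, ex (-(4 ^ N * (1 + 6 * f) ^ 2) / 3 ^ (n + 1)) ^ b =
      E (-(b * (4 ^ N * a ^ 2))) := by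
    intro b
    rw [ex_pow]
    simp only [hEdef]
    congr 1
    rw [ha]
    push_cast
    ring
  have hterm : ∀ j ∈ Finset.range (N + 1),
      (a : ℂ) * W (a ^ 2 * 4 ^ j) - (a : ℂ) ^ 2 * W (4 ^ j) =
        ∑ b ∈ Finset.range q, E (-(b * (4 ^ N * a ^ 2))) *
          ((a : ℂ) * P (4 ^ (N - j) * b) - (a : ℂ) ^ 2 * P (4 ^ (N - j) * a ^ 2 * b)) := by
    intro j hj
    have hjN : N - j + j = N := Nat.sub_add_cancel (Nat.lt_succ_iff.mp (Finset.mem_range.mp hj))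
    have e4 : (4 : ℤ) ^ (N - j) * 4 ^ j = 4 ^ N := by rw [← pow_add, hjN]
    rw [hsub (a ^ 2 * 4 ^ j) (4 ^ (N - j)) (h3q _ (h4 _)),
      hsub (4 ^ j) (4 ^ (N - j) * a ^ 2) (h3q _ (h3mul _ _ (h4 _) h3a2)),
      Finset.mul_sum, Finset.mul_sum, ← Finset.sum_sub_distrib]
    refine Finset.sum_congr rfl (fun b _ => ?_)
    rw [show (4 : ℤ) ^ (N - j) * (a ^ 2 * 4 ^ j) = 4 ^ N * a ^ 2 by rw [← e4]; ring,
      show (4 : ℤ) ^ (N - j) * a ^ 2 * 4 ^ j = 4 ^ N * a ^ 2 by rw [← e4]; ring]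
    ring
  have hlhs : ∀ j ∈ Finset.range (N + 1),
      ((-1 : ℂ) ^ (N - j) * (N.choose j : ℂ)) *
        (_root_.Pool.Agent.MU3I.ST L Om f e n (4 ^ j) + s * _root_.Pool.Agent.MU3I.ST L Om f e n (-4 ^ j)) =
      (2 * f / Om) * ∑ b ∈ Finset.range q, E (-(b * (4 ^ N * a ^ 2))) *
        (((-1 : ℂ) ^ (N - j) * (N.choose j : ℂ)) *
          ((a : ℂ) * P (4 ^ (N - j) * b) - (a : ℂ) ^ 2 * P (4 ^ (N - j) * a ^ 2 * b))) := by
    intro j hj
    rw [hST (4 ^ j) (h4 j), hterm j hj, Finset.mul_sum, Finset.mul_sum, Finset.mul_sum]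
    refine Finset.sum_congr rfl (fun b _ => ?_)
    ring
  rw [Finset.sum_congr rfl hlhs, ← Finset.mul_sum, Finset.sum_comm, Finset.mul_sum,
    Finset.mul_sum]
  refine Finset.sum_congr rfl (fun b _ => ?_)
  rw [hz b, ← Finset.mul_sum]
  have hcomb : comb (1 + 6 * f) N (fun n b => sgnPart (s : ℂ) (Phi e) ∞
      ((b / 3 ^ n : ℚ) : OnePoint ℚ) / (Om * lam * a3 ^ n)) (n + 1) b =
      (∑ j ∈ Finset.range (N + 1), ((-1 : ℂ) ^ (N - j) * (N.choose j : ℂ)) *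
        ((a : ℂ) * P (4 ^ (N - j) * b) - (a : ℂ) ^ 2 * P (4 ^ (N - j) * a ^ 2 * b))) /
        (Om * lam * a3 ^ (n + 1)) := by
    unfold comb
    rw [Finset.sum_div]
    refine Finset.sum_congr rfl (fun j _ => ?_)
    rw [← ha]
    simp only [hPdef]
    ring
  rw [hcomb]
  have ha3' : a3 ^ (n + 1) ≠ 0 := pow_ne_zero _ ha3
  generalize (∑ j ∈ Finset.range (N + 1), ((-1 : ℂ) ^ (N - j) * (N.choose j : ℂ)) *
    ((a : ℂ) * P (4 ^ (N - j) * b) - (a : ℂ) ^ 2 * P (4 ^ (N - j) * a ^ 2 * b))) = S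
  by_cases hOm : Om = 0
  · rw [hOm]
    simp
  · field_simp

end

end Pool.Agent.MU3H


end

section

/-!
# MUX, block HY, QSX: the quantity of the final statement as a character sum
-/

set_option autoImplicit false

namespace Pool.Agent.MUXHY

open _root_.MU3 _root_.Pool.Agent.MU3A _root_.Pool.Agent.MU3B _root_.Pool.Agent.MU3F _root_.Pool.Agent.MUX _root_.Pool.Agent.MUXH
  _root_.Pool.Agent.MuSym OnePoint
open scoped ComplexConjugate

noncomputable section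

namespace Qsx

open _root_.Pool.Agent.MU3H.Qs

theorem thetaI_int (h2 : MUXF.Sx_PRD) {A B : ℤ} (hC : CQ A B) {b : Ideal (OO A B)} (hb : b ≠ ⊥)
    (e : OO A B → ℂ) (k : ℤ) : ∀ z : ℂ, thetaI b e (z + k) = thetaI b e z := by
  have h1 : ∀ z, thetaI b e (z + 1) = thetaI b e z := fun z => h2 A B (toCQ hC) b hb e z
  induction k using Int.induction_on with
  | zero => intro z; simp
  | succ k ih =>
    intro z
    have h3 : z + (((k : ℤ) + 1 : ℤ) : ℂ) = (z + ((k : ℤ) : ℂ)) + 1 := by push_cast; ring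
    rw [h3, h1, ih]
  | pred k ih =>
    intro z
    have h3 : z + ((-(k : ℤ) - 1 : ℤ) : ℂ) + 1 = z + ((-(k : ℤ) : ℤ) : ℂ) := by push_cast; ring
    rw [← h1, h3, ih]

theorem IvI_int (h2 : MUXF.Sx_PRD) {A B : ℤ} (hC : CQ A B) {b : Ideal (OO A B)} (hb : b ≠ ⊥)
    (e : OO A B → ℂ) (r : ℚ) (k : ℤ) : IvI b e (r + k) = IvI b e r := by
  unfold IvI
  congr 1
  refine MeasureTheory.integral_congr_ae (Filter.Eventually.of_forall fun t => ?_)
  have h3 : ((r + k : ℚ) : ℂ) + t * Complex.I = ((r : ℂ) + t * Complex.I) + k := by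
    push_cast; ring
  show thetaI b e (((r + k : ℚ) : ℂ) + t * Complex.I) = thetaI b e ((r : ℂ) + t * Complex.I)
  rw [h3, thetaI_int h2 hC hb]

theorem PhiI_inf {A B : ℤ} (b : Ideal (OO A B)) (e : OO A B → ℂ) (r : ℚ) :
    PhiI b e ∞ ((r : ℚ) : OnePoint ℚ) = -IvI b e r := by
  show (0 : ℂ) - IvI b e r = -IvI b e r
  rw [zero_sub]

theorem PhiI_per (h2 : MUXF.Sx_PRD) {A B : ℤ} (hC : CQ A B) {b : Ideal (OO A B)} (hb : b ≠ ⊥)
    (e : OO A B → ℂ) (r : ℚ) (k : ℤ) :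
    PhiI b e ∞ ((r + k : ℚ) : OnePoint ℚ) = PhiI b e ∞ ((r : ℚ) : OnePoint ℚ) := by
  rw [PhiI_inf, PhiI_inf, IvI_int h2 hC hb]

theorem PP_per (h2 : MUXF.Sx_PRD) {A B : ℤ} (hC : CQ A B) {m : ℕ} {ι : Type} [Fintype ι]
    (R : Reps A B m ι) (P : Ideal (OO A B)) (e : OO A B → ℂ) (kk : ι → ℂ) (r : ℚ) (k : ℤ) :
    PP R P e kk 0 ∞ ((r + k : ℚ) : OnePoint ℚ) = PP R P e kk 0 ∞ ((r : ℚ) : OnePoint ℚ) := by
  unfold PP
  congr 1
  refine Finset.sum_congr rfl fun c _ => ?_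
  rw [PhiI_per h2 hC]
  rw [pow_zero, mul_one]
  exact (R.nl c).b_ne

theorem q0_dvd (p : ℕ) : p ∣ q0 p := by
  unfold q0
  by_cases h : p = 2
  · rw [if_pos h, h]; norm_num
  · rw [if_neg h]

theorem cop_q0 {a p : ℕ} (h : a.Coprime p) : a.Coprime (q0 p) := by
  unfold q0
  by_cases h2 : p = 2
  · rw [if_pos h2, show (4 : ℕ) = 2 ^ 2 by norm_num]
    rw [h2] at h
    exact Nat.Coprime.pow_right 2 h
  · rw [if_neg h2]
    exact h

theorem q0_ne {p : ℕ} (hp : p.Prime) : q0 p ≠ 0 := by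
  unfold q0
  by_cases h2 : p = 2
  · rw [if_pos h2]; norm_num
  · rw [if_neg h2]
    exact hp.ne_zero

theorem SnX_eq (h1 : MUXF.Sx_F5) {A B : ℤ} (hC : CQ A B) {p f : ℕ} (hp : p.Prime) (hf : f ≠ 0)
    {ι : Type} (R : Reps A B (p * f) ι) {g : Ideal (OO A B)} {e : OO A B → ℂ} (he : IsEI g e)
    (hg : ((p * f : ℕ) : OO A B) ∈ g) (n : ℕ) (i : ι) (c : ℤ) :
    SnX R (lvX p f n) (q0 p * p ^ n) e i c =
      (2 * f / R.om R.i0) * ((1 / e ((nI (R.b i) : ℕ) : OO A B)) *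
        ∑ β ∈ Finset.range (q0 p * p ^ n), ex (-(β * c) / ((q0 p * p ^ n : ℕ) : ℚ)) *
          PhiI (R.b i) e ∞ (((β / ((q0 p * p ^ n : ℕ) : ℚ) : ℚ) : ℚ) : OnePoint ℚ)) := by
  have hM0 : q0 p * p ^ n ≠ 0 := mul_ne_zero (q0_ne hp) (pow_ne_zero _ hp.ne_zero)
  have hm : lvX p f n = f * (q0 p * p ^ n) := by unfold lvX; ring
  have hm0 : lvX p f n ≠ 0 := by rw [hm]; exact mul_ne_zero hf hM0
  obtain ⟨t, ht⟩ := q0_dvd p
  have hmg : ((lvX p f n : ℕ) : OO A B) ∈ g := by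
    have h3 : ((lvX p f n : ℕ) : OO A B) = ((p * f : ℕ) : OO A B) * ((t * p ^ n : ℕ) : OO A B) := by
      rw [← Nat.cast_mul, hm, ht]
      congr 1
      ring
    rw [h3]
    exact Ideal.mul_mem_right _ _ hg
  have hcop : (nI (R.b i)).Coprime (lvX p f n) := by
    have hc := R.cop i
    have hcp : (nI (R.b i)).Coprime p := Nat.Coprime.coprime_mul_right_right hc
    have hcf : (nI (R.b i)).Coprime f := Nat.Coprime.coprime_mul_left_right hc
    rw [hm]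
    exact Nat.Coprime.mul_right hcf (Nat.Coprime.mul_right (cop_q0 hcp)
      (Nat.Coprime.pow_right n hcp))
  have hN0 : nI (R.b i) ≠ 0 := by
    intro h0
    have hc := R.cop i
    rw [h0, Nat.coprime_zero_left] at hc
    have h5 := Nat.eq_one_of_mul_eq_one_right hc
    exact hp.one_lt.ne' h5
  obtain ⟨heN, h5⟩ := h1 A B (toCQ hC) (R.b i) (R.L i) (R.om i) (toLI (R.nl i).toIsLI) g e
    (toEI he) (lvX p f n) (q0 p * p ^ n) hm0 hmg hM0 ⟨f, by rw [hm]; ring⟩ hcop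
  have h6 := h5 c
  have h7 : SnX R (lvX p f n) (q0 p * p ^ n) e i c = muX R i *
      (2 * (lvX p f n : ℂ) / (R.om i * (nI (R.b i) : ℕ) * ((q0 p * p ^ n : ℕ) : ℂ) *
        e ((nI (R.b i) : ℕ) : OO A B)) * ∑ β ∈ Finset.range (q0 p * p ^ n),
        ex (-(β * c) / ((q0 p * p ^ n : ℕ) : ℚ)) *
          PhiI (R.b i) e ∞ (((β / ((q0 p * p ^ n : ℕ) : ℚ) : ℚ) : ℚ) : OnePoint ℚ)) := by
    unfold SnX
    rw [← PhiI_eq]
    refine congrArg (muX R i * ·) ?_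
    refine Eq.trans ?_ h6
    unfold sumMod
    refine finsum_congr fun q => ?_
    beta_reduce
    have hiff : ((q0 p * p ^ n : ℕ) : ℤ) ∣ nm (Quotient.out q) * (nI (R.b i) : ℤ) - c ↔
        ((q0 p * p ^ n : ℕ) : ℤ) ∣ (MUXF.nI (R.b i) : ℤ) * nm (Quotient.out q) - c := by
      rw [nI_eq, mul_comm (nm (Quotient.out q))]
    by_cases hd : ((q0 p * p ^ n : ℕ) : ℤ) ∣ nm (Quotient.out q) * (nI (R.b i) : ℤ) - c
    · rw [if_pos hd, if_pos (hiff.1 hd)]
      rfl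
    · rw [if_neg hd, if_neg (mt hiff.2 hd)]
  rw [h7]
  have ho := (R.nl i).om_ne
  have ho0 := (R.nl R.i0).om_ne
  have hMc : ((q0 p * p ^ n : ℕ) : ℂ) ≠ 0 := Nat.cast_ne_zero.2 hM0
  have hNc : ((nI (R.b i) : ℕ) : ℂ) ≠ 0 := Nat.cast_ne_zero.2 hN0
  have hmc : ((lvX p f n : ℕ) : ℂ) = f * ((q0 p * p ^ n : ℕ) : ℂ) := by
    rw [hm]; push_cast; ring
  rw [hmc]
  unfold muX
  generalize (∑ β ∈ Finset.range (q0 p * p ^ n), ex (-(β * c) / ((q0 p * p ^ n : ℕ) : ℚ)) *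
          PhiI (R.b i) e ∞ (((β / ((q0 p * p ^ n : ℕ) : ℚ) : ℚ) : ℚ) : OnePoint ℚ)) = S
  generalize ((q0 p * p ^ n : ℕ) : ℂ) = M at hMc ⊢
  have heN' : e ((nI (R.b i) : ℕ) : OO A B) ≠ 0 := heN
  field_simp

end Qsx

open _root_.Pool.Agent.MUXHY.Qsx _root_.Pool.Agent.MU3H.Qs in
/-- (QSX) the quantity of the final statement as a character sum -/
theorem ty_QSX (h1 : MUXF.Sx_F5) (h2 : MUXF.Sx_PRD) : Sy_QSX := by
  intro p hp A B hC P f hf ι hι R g e he hg kk s N n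
  have hMdef : q0 p * p ^ n ≠ 0 := mul_ne_zero (q0_ne hp) (pow_ne_zero _ hp.ne_zero)
  have hSnX := fun i c => SnX_eq h1 hC hp hf R he hg n i c
  have hMp : ∀ u : ℤ, (p : ℤ) ∣ u - 1 → IsCoprime u ((q0 p * p ^ n : ℕ) : ℤ) := by
    intro u hu
    have h3 : IsCoprime u (p : ℤ) := by
      obtain ⟨t, ht⟩ := hu
      exact ⟨1, -t, by linear_combination ht⟩
    have h4 : IsCoprime u ((q0 p : ℕ) : ℤ) := by
      unfold q0
      by_cases h2' : p = 2
      · rw [if_pos h2']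
        rw [h2'] at h3
        have : (((4 : ℕ) : ℤ)) = ((2 : ℕ) : ℤ) ^ 2 := by norm_num
        rw [this]
        exact h3.pow_right
      · rw [if_neg h2']
        exact h3
    push_cast
    exact h4.mul_right h3.pow_right
  have hq0p : (p : ℤ) ∣ (q0 p : ℤ) := Int.natCast_dvd_natCast.2 (q0_dvd p)
  generalize hMM : q0 p * p ^ n = M at *
  have : NeZero M := ⟨hMdef⟩
  have hMQ : (M : ℚ) ≠ 0 := Nat.cast_ne_zero.2 hMdef
  -- the values
  set F : ℤ → ℂ := fun b => PP R P e kk 0 ∞ ((b / (M : ℚ) : ℚ) : OnePoint ℚ) with hFdef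
  set Q : ℤ → ℂ := fun b => sgnPart (s : ℂ) (PP R P e kk 0) ∞ ((b / (M : ℚ) : ℚ) : OnePoint ℚ)
    with hQdef
  set E : ℤ → ℂ := fun k => ex (k / (M : ℚ)) with hEdef
  have hPF : ∀ b : ℤ, Q b = F b + s * F (-b) := by
    intro b
    simp only [hQdef, hFdef, sgnPart]
    rw [mob_inf, mob_neg]
    congr 4
    push_cast
    ring
  have hFper : ∀ b k : ℤ, F (b + M * k) = F b := by
    intro b k
    simp only [hFdef]
    have h := PP_per h2 hC R P e kk (b / (M : ℚ)) k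
    rw [← h]
    congr 3
    push_cast
    field_simp
  have hPper : ∀ b k : ℤ, Q (b + M * k) = Q b := by
    intro b k
    rw [hPF, hPF, hFper]
    congr 2
    have := hFper (-b) (-k)
    rw [← this]
    congr 1
    ring
  have hEadd : ∀ k l : ℤ, E (k + l) = E k * E l := by
    intro k l
    simp only [hEdef]
    rw [← ex_add]
    congr 1
    push_cast
    ring
  have hEq : ∀ k : ℤ, E (M * k) = 1 := by
    intro k
    simp only [hEdef]
    rw [← ex_int k]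
    congr 1
    push_cast
    field_simp
  have hEper : ∀ b k : ℤ, E (b + M * k) = E b := by
    intro b k
    rw [hEadd, hEq, mul_one]
  -- the transform
  set S : ℤ → ℂ := fun c => ∑ i, kk i * SnX R (lvX p f n) M e i c with hSdef
  have hSn : ∀ c : ℤ, S c = (2 * f) * ∑ b ∈ Finset.range M, E (-(b * c)) * F b := by
    intro c
    have h3 : ∀ i, kk i * SnX R (lvX p f n) M e i c = ∑ b ∈ Finset.range M, (2 * f) *
        (E (-(b * c)) * (kk i / e ((nI (R.b i) : ℕ) : OO A B) *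
          PhiI (R.b i) e ∞ (((b / (M : ℚ) : ℚ) : ℚ) : OnePoint ℚ) / R.om R.i0)) := by
      intro i
      rw [hSnX i c, Finset.mul_sum, Finset.mul_sum, Finset.mul_sum]
      refine Finset.sum_congr rfl fun b _ => ?_
      have h4 : E (-(b * c)) = ex (-(b * c) / (M : ℚ)) := by
        simp only [hEdef]
        push_cast
        rfl
      rw [h4]
      ring
    simp only [hSdef]
    rw [Finset.sum_congr rfl (fun i _ => h3 i), Finset.sum_comm, Finset.mul_sum]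
    refine Finset.sum_congr rfl fun b _ => ?_
    rw [← Finset.mul_sum, ← Finset.mul_sum, ← Finset.sum_div]
    congr 2
    simp only [hFdef, PP]
    rw [pow_zero]
    simp only [mul_one]
    rfl
  set W : ℤ → ℂ := fun c => ∑ b ∈ Finset.range M, E (-(b * c)) * Q b with hWdef
  have hSW : ∀ c : ℤ, S c + s * S (-c) = (2 * f) * W c := by
    intro c
    rw [hSn c, hSn (-c)]
    have h1 : ∑ b ∈ Finset.range M, E (-(b * (-c))) * F b =
        ∑ b ∈ Finset.range M, E (-(b * c)) * F (-b) := by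
      have hG : ∀ b k : ℤ, (fun b : ℤ => E (-(b * (-c))) * F b) (b + M * k) =
          (fun b : ℤ => E (-(b * (-c))) * F b) b := by
        intro b k
        show E (-((b + M * k) * (-c))) * F (b + M * k) = E (-(b * (-c))) * F b
        rw [hFper, show -((b + M * k) * (-c)) = -(b * (-c)) + M * (k * c) by ring, hEper]
      have h := sum_mul (G := fun b : ℤ => E (-(b * (-c))) * F b) hG (u := -1)
        (by exact (isCoprime_one_left).neg_left)
      rw [← h]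
      refine Finset.sum_congr rfl (fun b _ => ?_)
      show E (-((-1 * (b : ℤ)) * (-c))) * F (-1 * (b : ℤ)) = _
      rw [show -((-1 * (b : ℤ)) * (-c)) = -(b * c) by ring, show -1 * (b : ℤ) = -b by ring]
    rw [h1]
    simp only [hWdef]
    have h5 : ∑ b ∈ Finset.range M, E (-(b * c)) * Q b =
        ∑ b ∈ Finset.range M, E (-(b * c)) * F b +
          s * ∑ b ∈ Finset.range M, E (-(b * c)) * F (-b) := by
      rw [Finset.mul_sum, ← Finset.sum_add_distrib]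
      refine Finset.sum_congr rfl fun b _ => ?_
      rw [hPF]
      ring
    rw [h5]
    ring
  -- substitution
  have hsub : ∀ (c u : ℤ), IsCoprime u (M : ℤ) →
      W c = ∑ b ∈ Finset.range M, E (-(b * (u * c))) * Q (u * b) := by
    intro c u hu
    have hG : ∀ b k : ℤ, (fun b : ℤ => E (-(b * c)) * Q b) (b + M * k) =
        (fun b : ℤ => E (-(b * c)) * Q b) b := by
      intro b k
      show E (-((b + M * k) * c)) * Q (b + M * k) = E (-(b * c)) * Q b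
      rw [hPper, show -((b + M * k) * c) = -(b * c) + M * (-(k * c)) by ring, hEper]
    have h := sum_mul (G := fun b : ℤ => E (-(b * c)) * Q b) hG hu
    simp only [hWdef]
    rw [← h]
    refine Finset.sum_congr rfl (fun b _ => ?_)
    show E (-((u * (b : ℤ)) * c)) * Q (u * (b : ℤ)) = _
    rw [show -((u * (b : ℤ)) * c) = -(b * (u * c)) by ring]
  -- coprimality
  set a : ℤ := (aX p f : ℤ) with ha
  set u : ℤ := 1 + (q0 p : ℤ) with hu
  have h3mul : ∀ x y : ℤ, (p : ℤ) ∣ x - 1 → (p : ℤ) ∣ y - 1 → (p : ℤ) ∣ x * y - 1 := by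
    intro x y hx hy
    have h1 : x * y - 1 = (x - 1) * y + (y - 1) := by ring
    rw [h1]
    exact dvd_add (Dvd.dvd.mul_right hx y) hy
  have h4 : ∀ j : ℕ, (p : ℤ) ∣ u ^ j - 1 := by
    intro j
    have := sub_dvd_pow_sub_pow u 1 j
    rw [one_pow] at this
    refine dvd_trans ?_ this
    rw [hu]
    simpa using hq0p
  have h3a : (p : ℤ) ∣ a - 1 := by
    rw [ha]
    unfold aX
    have : (((1 + 2 * q0 p * f : ℕ) : ℤ)) - 1 = (q0 p : ℤ) * (2 * f) := by push_cast; ring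
    rw [this]
    exact Dvd.dvd.mul_right hq0p _
  have h3a2 : (p : ℤ) ∣ a ^ 2 - 1 := by rw [sq]; exact h3mul a a h3a h3a
  have haC : ((a : ℤ) : ℂ) = ((aX p f : ℕ) : ℂ) := by rw [ha]; push_cast; rfl
  -- the left hand side
  have hST : ∀ c : ℤ, STX R (lvX p f n) M (aX p f) e kk c +
      s * STX R (lvX p f n) M (aX p f) e kk (-c) =
        (2 * f) * ((a : ℂ) * W (a ^ 2 * c) - (a : ℂ) ^ 2 * W c) := by
    intro c
    have e0 : ∀ c, STX R (lvX p f n) M (aX p f) e kk c = (a : ℂ) * S (a ^ 2 * c) -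
        (a : ℂ) ^ 2 * S c := by
      intro c
      unfold STX
      simp only [hSdef]
      rw [Finset.mul_sum, Finset.mul_sum, ← Finset.sum_sub_distrib]
      refine Finset.sum_congr rfl fun i _ => ?_
      rw [← haC]
      ring
    have e1 := hSW c
    have e2 := hSW (a ^ 2 * c)
    rw [e0, e0, show a ^ 2 * -c = -(a ^ 2 * c) by ring]
    linear_combination (a : ℂ) * e2 - (a : ℂ) ^ 2 * e1
  -- comparison term by term
  have hz : ∀ b : ℕ, ex (-((1 + (q0 p : ℚ)) ^ N * (aX p f : ℚ) ^ 2) / (M : ℚ)) ^ b =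
      E (-(b * (u ^ N * a ^ 2))) := by
    intro b
    rw [ex_pow]
    simp only [hEdef]
    congr 1
    rw [ha, hu]
    push_cast
    ring
  have hterm : ∀ j ∈ Finset.range (N + 1),
      (a : ℂ) * W (a ^ 2 * u ^ j) - (a : ℂ) ^ 2 * W (u ^ j) =
        ∑ b ∈ Finset.range M, E (-(b * (u ^ N * a ^ 2))) *
          ((a : ℂ) * Q (u ^ (N - j) * b) - (a : ℂ) ^ 2 * Q (u ^ (N - j) * a ^ 2 * b)) := by
    intro j hj
    have hjN : N - j + j = N := Nat.sub_add_cancel (Nat.lt_succ_iff.mp (Finset.mem_range.mp hj))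
    have e4 : u ^ (N - j) * u ^ j = u ^ N := by rw [← pow_add, hjN]
    rw [hsub (a ^ 2 * u ^ j) (u ^ (N - j)) (hMp _ (h4 _)),
      hsub (u ^ j) (u ^ (N - j) * a ^ 2) (hMp _ (h3mul _ _ (h4 _) h3a2)),
      Finset.mul_sum, Finset.mul_sum, ← Finset.sum_sub_distrib]
    refine Finset.sum_congr rfl (fun b _ => ?_)
    rw [show u ^ (N - j) * (a ^ 2 * u ^ j) = u ^ N * a ^ 2 by rw [← e4]; ring,
      show u ^ (N - j) * a ^ 2 * u ^ j = u ^ N * a ^ 2 by rw [← e4]; ring]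
    ring
  have hlhs : ∀ j ∈ Finset.range (N + 1),
      ((-1 : ℂ) ^ (N - j) * (N.choose j : ℂ)) *
        (STX R (lvX p f n) M (aX p f) e kk (u ^ j) +
          s * STX R (lvX p f n) M (aX p f) e kk (-u ^ j)) =
      (2 * f) * ∑ b ∈ Finset.range M, E (-(b * (u ^ N * a ^ 2))) *
        (((-1 : ℂ) ^ (N - j) * (N.choose j : ℂ)) *
          ((a : ℂ) * Q (u ^ (N - j) * b) - (a : ℂ) ^ 2 * Q (u ^ (N - j) * a ^ 2 * b))) := by
    intro j hj
    rw [hST (u ^ j), hterm j hj, Finset.mul_sum, Finset.mul_sum, Finset.mul_sum]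
    refine Finset.sum_congr rfl (fun b _ => ?_)
    ring
  rw [Finset.sum_congr rfl hlhs, ← Finset.mul_sum, Finset.sum_comm]
  congr 1
  refine Finset.sum_congr rfl (fun b _ => ?_)
  rw [hz b, ← Finset.mul_sum]
  congr 1

end

end Pool.Agent.MUXHY


end

section

/-!
# MU3, module TWK: the structure of `Gal(K_n / k)`
-/

open NumberField IsDedekindDomain Finset
open scoped nonZeroDivisors Pointwise

namespace Pool.Agent.MU3

open _root_.Pool.Agent.RI _root_.Pool.Agent.RID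

namespace P_TWK

/-- The group generated by an automorphism with fixed field `A`. -/
lemma zp {F L : Type} [Field F] [Field L] [Algebra F L] [FiniteDimensional F L]
    (γ : L ≃ₐ[F] L) (A : IntermediateField F L) (hA : ∀ x, γ x = x ↔ x ∈ A) :
    A.fixingSubgroup = Subgroup.zpowers γ := by
  have hfix : ∀ (δ : L ≃ₐ[F] L) (x : L),
      x ∈ IntermediateField.fixedField (Subgroup.zpowers δ) ↔ δ x = x := by
    intro δ x
    constructor
    · intro h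
      exact h ⟨δ, Subgroup.mem_zpowers δ⟩
    · intro h τ
      obtain ⟨τ, j, rfl⟩ := τ
      have h5 : δ ∈ MulAction.stabilizer (L ≃ₐ[F] L) x := h
      exact zpow_mem h5 j
  have hAf : IntermediateField.fixedField (Subgroup.zpowers γ) = A := by
    ext x
    rw [hfix, hA]
  rw [← hAf, IntermediateField.fixingSubgroup_fixedField]

/-- The order of `NC` divides `[K : k]`. -/
lemma card_NC {k K B : IntermediateField ℚ ℂ} [FiniteDimensional ℚ K] (hk : k ≤ K)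
    (gal : IsGalois k (IntermediateField.extendScalars hk)) (h : k ≤ K ⊔ B) :
    letI := algC h
    Nat.card (NC h B) ∣ Module.finrank ℚ K := by
  let akL : Algebra k ↥(K ⊔ B) := algC h
  let akK : Algebra k K := algC hk
  have hKL : K ≤ K ⊔ B := le_sup_left
  let aKL : Algebra K ↥(K ⊔ B) := algC hKL
  have t0 := towerC hk hKL
  have gK : IsGalois k K := (isGalois_algC hk).2 gal
  have fdK := Pool.Agent.FX.fd k K
  have hres : ∀ (σ : ↥(K ⊔ B) ≃ₐ[k] ↥(K ⊔ B)) (x : K),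
      ((σ.restrictNormal K x : K) : ℂ) =
        ((σ ⟨(x : ℂ), hKL x.2⟩ : ↥(K ⊔ B)) : ℂ) := by
    intro σ x
    have h2 := AlgEquiv.restrictNormal_commutes σ K x
    exact Pool.Agent.FX.coe_comm hKL σ x _ h2
  let f : (NC h B) →* (K ≃ₐ[k] K) :=
    (AlgEquiv.restrictNormalHom K : (↥(K ⊔ B) ≃ₐ[k] ↥(K ⊔ B)) →* (K ≃ₐ[k] K)).comp
      (NC h B).subtype
  have hf : Function.Injective f := by
    rw [injective_iff_map_eq_one]
    intro σ hσ
    apply Subtype.ext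
    apply GCC.triv h
    · intro x hx
      apply Subtype.ext
      have h3 := hres (σ : ↥(K ⊔ B) ≃ₐ[k] ↥(K ⊔ B)) ⟨x.1, hx⟩
      have h4 : (σ : ↥(K ⊔ B) ≃ₐ[k] ↥(K ⊔ B)).restrictNormal K = 1 := hσ
      rw [h4] at h3
      exact h3.symm
    · intro x hx
      exact σ.2 x hx
  have h1 : Nat.card (NC h B) ∣ Nat.card (K ≃ₐ[k] K) := Subgroup.card_dvd_of_injective f hf
  rw [IsGalois.card_aut_eq_finrank] at h1
  have h2 : Module.finrank ℚ k * Module.finrank k K = Module.finrank ℚ K :=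
    Pool.Agent.FX.fmul ℚ k K
  exact h1.trans ⟨_, by rw [← h2, mul_comm]⟩

/-- `NC` and `γ` generate the group. -/
lemma gener {n : ℕ} {k K B : IntermediateField ℚ ℂ} [FiniteDimensional ℚ ↥(K ⊔ B)]
    (hB : IsLayer 3 n B) (h : k ≤ K ⊔ B) :
    letI := algC h
    ∀ γ : ↥(K ⊔ B) ≃ₐ[k] ↥(K ⊔ B), (∀ x : ↥(K ⊔ B), γ x = x ↔ (x : ℂ) ∈ K) →
      orderOf γ = 3 ^ n → ∀ σ : ↥(K ⊔ B) ≃ₐ[k] ↥(K ⊔ B), ∃ δ ∈ NC h B, ∃ i : ℕ, σ = δ * γ ^ i := by
  let akL : Algebra k ↥(K ⊔ B) := algC h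
  intro γ hγ hord σ
  obtain ⟨hfB, hGB, -⟩ := LAY_thm 3 n B hB
  have hBL : B ≤ K ⊔ B := le_sup_right
  let aBL : Algebra B ↥(K ⊔ B) := algC hBL
  have hT : IsScalarTower ℚ B ↥(K ⊔ B) := IsScalarTower.of_algebraMap_eq fun x => by
    apply Subtype.ext
    rw [eq_ratCast, eq_ratCast, map_ratCast]
  have hT' : IsScalarTower ℚ k ↥(K ⊔ B) := IsScalarTower.of_algebraMap_eq fun x => by
    apply Subtype.ext
    rw [eq_ratCast, eq_ratCast, map_ratCast]
  let r : (↥(K ⊔ B) ≃ₐ[k] ↥(K ⊔ B)) →* (B ≃ₐ[ℚ] B) :=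
    (AlgEquiv.restrictNormalHom (F := ℚ) (K₁ := ↥(K ⊔ B)) B).comp (AlgEquiv.restrictScalarsHom ℚ)
  have hr : ∀ τ : ↥(K ⊔ B) ≃ₐ[k] ↥(K ⊔ B), r τ = 1 → ∀ x : ↥(K ⊔ B), (x : ℂ) ∈ B → τ x = x := by
    intro τ hτ x hx
    have h1 := AlgEquiv.restrictNormal_commutes (AlgEquiv.restrictScalars ℚ τ) B ⟨x.1, hx⟩
    have h2 : (AlgEquiv.restrictScalars ℚ τ).restrictNormal B = 1 := hτ
    rw [h2, AlgEquiv.one_apply] at h1
    exact h1.symm
  have hK : ∀ j : ℤ, ∀ x : ↥(K ⊔ B), (x : ℂ) ∈ K → (γ ^ j) x = x := by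
    intro j x hx
    have h5 : γ ∈ MulAction.stabilizer (↥(K ⊔ B) ≃ₐ[k] ↥(K ⊔ B)) x := (hγ x).2 hx
    exact zpow_mem h5 j
  have hinj : Function.Injective (r.comp (Subgroup.zpowers γ).subtype) := by
    rw [injective_iff_map_eq_one]
    rintro ⟨τ, j, rfl⟩ hτ
    apply Subtype.ext
    apply GCC.triv h
    · exact hK j
    · exact hr _ hτ
  have hcard : Nat.card (Subgroup.zpowers γ) = Nat.card (B ≃ₐ[ℚ] B) := by
    rw [Nat.card_zpowers, hord, IsGalois.card_aut_eq_finrank, hB.1]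
  have hbij := (Nat.bijective_iff_injective_and_card _).2 ⟨hinj, hcard⟩
  obtain ⟨⟨z, hz⟩, hz2⟩ := hbij.2 (r σ)
  have hfin : IsOfFinOrder γ := by
    rw [← orderOf_pos_iff, hord]
    positivity
  obtain ⟨i, hi⟩ := (hfin.mem_powers_iff_mem_zpowers).2 hz
  have hi' : γ ^ i = z := hi
  have hz3 : r z = r σ := hz2
  refine ⟨σ * z⁻¹, ?_, i, ?_⟩
  · have h6 : r (σ * z⁻¹) = 1 := by rw [map_mul, map_inv, hz3, mul_inv_cancel]
    exact hr _ h6
  · rw [hi', inv_mul_cancel_right]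

end P_TWK

open _root_.Pool.Agent.MU3.P_TWK in
theorem t_TWK (h1 : S_GALK) (h2 : _root_.MU3.N_GAL) : S_TWK := by
  intro k K B _ _ hB n h
  let akL : Algebra k ↥(K ⊔ B n) := algC h
  intro γ hγ
  obtain ⟨hG, hc⟩ := h1 k K B hB n h
  have fdL := Pool.Agent.FX.fd k ↥(K ⊔ B n)
  obtain ⟨g, hg1, hg2, -⟩ := h2 3 k K B hB.hk hB.cop hB.lay hB.mono n h
  have hord : orderOf γ = 3 ^ n := by
    have e1 := zp γ (GCC.sub h K hB.hk) (fun x => (hγ x).trans (GCC.mem_sub h K hB.hk x).symm)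
    have e2 := zp g (GCC.sub h K hB.hk) (fun x => (hg2 x).trans (GCC.mem_sub h K hB.hk x).symm)
    rw [← Nat.card_zpowers, ← e1, e2, Nat.card_zpowers, hg1]
  refine ⟨hc, hord, ?_, ?_⟩
  · have h3 : Nat.Coprime 3 (Module.finrank ℚ K) :=
      (Nat.Prime.coprime_iff_not_dvd Nat.prime_three).2 hB.cop
    exact (Nat.Coprime.coprime_dvd_right (card_NC hB.hk hB.gal h) h3).symm
  · exact gener (hB.lay n) h γ hγ hord

end Pool.Agent.MU3


end

section

/-!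
# MU3, module I3F: the input (I3) for one generator
-/

set_option autoImplicit false

namespace Pool.Agent.MU3I

open _root_.MU3 _root_.Pool.Agent.MU3 _root_.Pool.Agent.MU3A _root_.Pool.Agent.MU3B _root_.Pool.Agent.MU3C _root_.Pool.Agent.RI
  _root_.Pool.Agent.RID

noncomputable section

namespace I3F

/-- `emb x` is in `V` -/
lemma emb_mem_V {A B : ℤ} (hC : Case A B) (V : ValuationSubring ℂ) (x : OO A B) : emb x ∈ V := by
  have hw : wC A B ∈ V := by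
    by_contra h
    have h1 : (wC A B)⁻¹ ∈ V := (V.mem_or_inv_mem (wC A B)).resolve_left h
    have h2 := wC_sq hC
    have h3 := wC_ne_zero hC
    apply h
    have h4 : wC A B = (A : ℂ) * (wC A B)⁻¹ + B := by
      field_simp
      linear_combination h2
    rw [h4]
    exact add_mem (mul_mem (intCast_mem V A) h1) (intCast_mem V B)
  unfold emb
  exact add_mem (intCast_mem V _) (mul_mem (intCast_mem V _) hw)

lemma nonunits_mul {V : ValuationSubring ℂ} {x y : ℂ} (hx : x ∈ V.nonunits) (hy : y ∈ V) :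
    x * y ∈ V.nonunits := by
  rw [ValuationSubring.mem_nonunits_iff] at hx ⊢
  rw [map_mul]
  have h1 : V.valuation y ≤ 1 := (V.valuation_le_one_iff y).2 hy
  exact mul_lt_one_of_lt_of_le hx h1

lemma three_mem {A B : ℤ} (hC : Case A B) (V : ValuationSubring ℂ)
    (hV : emb (ppi A B) ∈ V.nonunits) : (3 : ℂ) ∈ V.nonunits := by
  have h1 : ppi A B * star (ppi A B) = 3 := by
    rcases hC with ⟨rfl, rfl⟩ | ⟨rfl, rfl⟩
    · ext
      · simp [ppi]
        rfl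
      · simp [ppi]
        rfl
    · ext
      · simp [ppi]
        rfl
      · simp [ppi]
        rfl
  have h2 : emb (ppi A B) * emb (star (ppi A B)) = (3 : ℂ) := by
    rw [← emb_mul hC, h1]
    have h3 := emb_natCast hC 3
    exact_mod_cast h3
  rw [← h2]
  exact nonunits_mul hV (emb_mem_V hC V _)

lemma g_ne {A B : ℤ} (hC : Case A B) {f : ℕ} (hf : f ≠ 0) :
    (f : OO A B) * star (ppi A B) ≠ 0 := by
  intro h
  have h1 : emb ((f : OO A B) * star (ppi A B)) = 0 := by rw [h, emb_zero hC]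
  rw [emb_mul hC, emb_natCast hC] at h1
  rcases mul_eq_zero.1 h1 with h2 | h2
  · exact hf (by exact_mod_cast h2)
  · have h3 : star (ppi A B) ≠ 0 := by
      intro h4
      have h5 := congrArg QuadraticAlgebra.im h4
      simp [ppi] at h5
    exact emb_ne_zero hC h3 h2

lemma zpow_sum {ι : Type} (s : Finset ι) (a : ℂ) (ha : a ≠ 0) (m : ι → ℤ) :
    a ^ (∑ i ∈ s, m i) = ∏ i ∈ s, a ^ m i := by
  classical
  induction s using Finset.induction_on with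
  | empty => simp
  | insert i s hi ih => rw [Finset.sum_insert hi, Finset.prod_insert hi, zpow_add₀ ha, ih]

/-- `TT` as a sum over the classes -/
lemma tt_sumMod {A B : ℤ} (L : PeriodPair) (Om : ℂ) (f n : ℕ) {D : IntermediateField ℚ ℂ}
    (h : kk A B ≤ D) (τ : letI := algC h; D ≃ₐ[kk A B] D) (P : Set (OO A B))
    (hP : P = {x | Ideal.Quotient.mk (Ideal.span {lev A B f n}) x ∈ XX L (lev A B f n) h τ}) :
    sumMod (lev A B f n) (fun x => open Classical in if x ∈ P then FF L Om f n x else 0) =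
      TT L Om f n h τ := by
  classical
  subst hP
  unfold sumMod TT
  rw [finsum_mem_def]
  refine finsum_congr fun q => ?_
  have hq : Ideal.Quotient.mk (Ideal.span {lev A B f n}) (Quotient.out q) = q :=
    Quotient.out_eq' q
  by_cases hx : q ∈ XX L (lev A B f n) h τ
  · rw [Set.indicator_of_mem hx]
    refine if_pos ?_
    show Ideal.Quotient.mk (Ideal.span {lev A B f n}) (Quotient.out q) ∈ XX L (lev A B f n) h τ
    rw [hq]
    exact hx
  · rw [Set.indicator_of_notMem hx]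
    refine if_neg ?_
    intro h1
    apply hx
    have h2 : Ideal.Quotient.mk (Ideal.span {lev A B f n}) (Quotient.out q) ∈
        XX L (lev A B f n) h τ := h1
    rw [hq] at h2
    exact h2

/-- the exponents -/
lemma prod_exp {G : Type} [Group G] [Fintype G] (γ : G) (Δ : Subgroup G) [Fintype Δ] (u : G → ℂ)
    (hu : ∀ τ, u τ ≠ 0) (b : Δ → ℤ) (N : ℕ) (c : ℕ → ℤ) (g : G → ℤ)
    (hg : ∀ τ, g τ = open Classical in ∑ δ : Δ, ∑ j ∈ Finset.range (N + 1),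
      if (δ : G) * γ ^ j = τ then b δ * c j else 0) :
    ∏ᶠ τ : G, u τ ^ g τ =
      ∏ δ : Δ, ∏ j ∈ Finset.range (N + 1), u ((δ : G) * γ ^ j) ^ (b δ * c j) := by
  classical
  rw [finprod_eq_prod_of_fintype]
  have e1 : ∀ τ, u τ ^ g τ = ∏ δ : Δ, ∏ j ∈ Finset.range (N + 1),
      (if (δ : G) * γ ^ j = τ then u τ ^ (b δ * c j) else 1) := by
    intro τ
    rw [hg, zpow_sum _ _ (hu τ)]
    refine Finset.prod_congr rfl fun δ _ => ?_
    rw [zpow_sum _ _ (hu τ)]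
    refine Finset.prod_congr rfl fun j _ => ?_
    split_ifs
    · rfl
    · rw [zpow_zero]
  rw [Finset.prod_congr rfl fun τ _ => e1 τ, Finset.prod_comm]
  refine Finset.prod_congr rfl fun δ _ => ?_
  rw [Finset.prod_comm]
  refine Finset.prod_congr rfl fun j _ => ?_
  rw [Finset.prod_ite_eq Finset.univ ((δ : G) * γ ^ j) (fun τ => u τ ^ (b δ * c j)),
    if_pos (Finset.mem_univ _)]

lemma sum_exp {G : Type} [Group G] [Fintype G] (γ : G) (Δ : Subgroup G) [Fintype Δ] (T : G → ℂ)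
    (b : Δ → ℤ) (N : ℕ) (c : ℕ → ℤ) (g : G → ℤ)
    (hg : ∀ τ, g τ = open Classical in ∑ δ : Δ, ∑ j ∈ Finset.range (N + 1),
      if (δ : G) * γ ^ j = τ then b δ * c j else 0) (τ' : G) :
    ∑ᶠ τ : G, (g τ : ℂ) * T (τ * τ') =
      ∑ δ : Δ, ∑ j ∈ Finset.range (N + 1), (b δ : ℂ) * (c j : ℂ) * T ((δ : G) * γ ^ j * τ') := by
  classical
  rw [finsum_eq_sum_of_fintype]
  have e1 : ∀ τ, (g τ : ℂ) * T (τ * τ') = ∑ δ : Δ, ∑ j ∈ Finset.range (N + 1),
      (if (δ : G) * γ ^ j = τ then (b δ : ℂ) * (c j : ℂ) * T (τ * τ') else 0) := by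
    intro τ
    rw [hg]
    push_cast
    rw [Finset.sum_mul]
    refine Finset.sum_congr rfl fun δ _ => ?_
    rw [Finset.sum_mul]
    refine Finset.sum_congr rfl fun j _ => ?_
    split_ifs
    · ring
    · simp
  rw [Finset.sum_congr rfl fun τ _ => e1 τ, Finset.sum_comm]
  refine Finset.sum_congr rfl fun δ _ => ?_
  rw [Finset.sum_comm]
  refine Finset.sum_congr rfl fun j _ => ?_
  rw [Finset.sum_ite_eq Finset.univ ((δ : G) * γ ^ j)
    (fun τ => (b δ : ℂ) * (c j : ℂ) * T (τ * τ')), if_pos (Finset.mem_univ _)]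

lemma tg_pow (hTG : St_ITG) (k L : Type) [Field k] [Field L] [Algebra k L] (γ δ : L ≃ₐ[k] L)
    (x : L) (hx : x ≠ 0) (N b : ℕ) :
    (δ ((Tg γ)^[N] x)) ^ b = ∏ j ∈ Finset.range (N + 1),
      ((δ * γ ^ j) x) ^ ((b : ℤ) * ((-1 : ℤ) ^ (N - j) * (N.choose j : ℤ))) := by
  rw [hTG k L γ x hx N, map_prod, ← Finset.prod_pow]
  refine Finset.prod_congr rfl fun j _ => ?_
  rw [map_zpow₀, AlgEquiv.mul_apply, mul_comm (b : ℤ), zpow_mul _ _ (b : ℤ), zpow_natCast]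

/-- if the product is a cube, then the sum has `Hf V` -/
theorem cubes (hEF : St_EFIN) (hFOU : St_IFOU) (hTG : St_ITG) {A B : ℤ} (hC : Case A B)
    (L : PeriodPair) (Om : ℂ) (hCM : IsCM A B L Om)
    (V : ValuationSubring ℂ) (hV : emb (ppi A B) ∈ V.nonunits) (f : ℕ) (hf : f ≠ 0)
    (hf3 : ¬ 3 ∣ f) (h2 : 2 * absD A B ∣ (f : ℤ)) (hmz : mz A B ∣ (f : OO A B)) (n : ℕ)
    (hn : 1 ≤ n) (hCp : Cpl L (lev A B f n)) (Hs : Finset ℂ) (hHs : IsHalf L (1 + 6 * (f : ℂ)) Hs)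
    (D : IntermediateField ℚ ℂ) [FiniteDimensional ℚ D] (h : kk A B ≤ D)
    (hTF : ∀ x ∈ D, x ∈ TF L (lev A B f n)) :
    letI := algC h
    ∀ (_ : IsGalois (kk A B) D) (_ : ∀ σ τ : D ≃ₐ[kk A B] D, σ * τ = τ * σ)
      (hc : cc L Om (lev A B f n) Hs h 1 ∈ D) (_ : cc L Om (lev A B f n) Hs h 1 ≠ 0)
      (_ : ∀ τ : D ≃ₐ[kk A B] D, ((τ ⟨_, hc⟩ : D) : ℂ) = cc L Om (lev A B f n) Hs h τ)
      (γ : D ≃ₐ[kk A B] D) (Δ : Subgroup (D ≃ₐ[kk A B] D)) [Fintype Δ] (N : ℕ) (b : Δ → ℕ)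
      (X : Δ →* ℂˣ) (_ : (∑ δ : Δ, (b δ : ℂ) * (X δ : ℂ)) ∉ V.nonunits) (y : D)
      (_ : y ^ 3 = ∏ δ : Δ, ((δ : D ≃ₐ[kk A B] D) ((Tg γ)^[N] ⟨_, hc⟩)) ^ b δ),
      Hf V (∑ j ∈ Finset.range (N + 1), (((-1 : ℤ) ^ (N - j) * (N.choose j : ℤ) : ℤ) : ℂ) *
        ∑ δ : Δ, (((X δ)⁻¹ : ℂˣ) : ℂ) * TT L Om f n h (γ ^ j * (δ : D ≃ₐ[kk A B] D))) := by
  classical
  let akL : Algebra (kk A B) D := algC h
  intro gal comm hc hc0 hcτ γ Δ iΔ N b X hX y hy
  have fdk := Pool.Agent.FX.fd (kk A B) D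
  have iG : Fintype (D ≃ₐ[kk A B] D) := Fintype.ofFinite _
  let c : ℕ → ℤ := fun j => (-1 : ℤ) ^ (N - j) * (N.choose j : ℤ)
  let g : (D ≃ₐ[kk A B] D) → ℤ := fun τ => ∑ δ : Δ, ∑ j ∈ Finset.range (N + 1),
      if (δ : D ≃ₐ[kk A B] D) * γ ^ j = τ then (b δ : ℤ) * c j else 0
  have hcne : (⟨_, hc⟩ : D) ≠ 0 := by
    intro h0
    exact hc0 (congrArg Subtype.val h0)
  have hu : ∀ τ : D ≃ₐ[kk A B] D, cc L Om (lev A B f n) Hs h τ ≠ 0 := by
    intro τ h0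
    rw [← hcτ τ] at h0
    have h1 : τ (⟨_, hc⟩ : D) = 0 := Subtype.ext h0
    exact hcne ((map_eq_zero_iff τ τ.injective).1 h1)
  have e1 : (y : ℂ) ^ 3 = ∏ᶠ τ : D ≃ₐ[kk A B] D, cc L Om (lev A B f n) Hs h τ ^ g τ := by
    rw [prod_exp γ Δ _ hu (fun δ => (b δ : ℤ)) N c g (fun τ => rfl)]
    have h1 : (y : ℂ) ^ 3 = D.val (y ^ 3) := rfl
    rw [h1, hy, map_prod]
    refine Finset.prod_congr rfl fun δ _ => ?_
    rw [tg_pow hTG _ _ γ δ _ hcne N (b δ), map_prod]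
    refine Finset.prod_congr rfl fun j _ => ?_
    rw [map_zpow₀]
    exact congrArg (fun w : ℂ => w ^ ((b δ : ℤ) * c j)) (hcτ ((δ : D ≃ₐ[kk A B] D) * γ ^ j))
  have e2 := hEF A B hC L Om hCM V hV f hf hf3 h2 hmz n hn hCp Hs hHs D h hTF gal g y y.2 e1
  refine hFOU V (D ≃ₐ[kk A B] D) comm γ Δ (fun τ => TT L Om f n h τ) (fun δ => (b δ : ℤ)) N c X
    ?_ ?_
  · simpa using hX
  · intro τ'
    have e3 := e2 τ'
    rw [sum_exp γ Δ (fun τ => TT L Om f n h τ) (fun δ => (b δ : ℤ)) N c g (fun τ => rfl) τ'] at e3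
    exact e3

end I3F

/-- (I3F) the input (I3) for one generator `γ`, `N ≥ 1` -/
theorem t_I3F1 (hEF : St_EFIN) (hHF : St_HFIN) (hCHI : St_ICHI) (hIHF : St_IHF) (hFOU : St_IFOU)
    (hTG : St_ITG) (hFIN : St_IFIN) (hE0 : St_IE0) (hEPS : St_IEPS) (hTH : St_ITH)
    (hGAM : St_IGAM) (hMOD : St_IMOD) (hCC : St_ICC) : St_I3F1 := by
  classical
  intro A B hC L Om hCM hTor V hV f hf hf3 h2 hmz hCp Hs hHs K iK hKT Bn iKB hBas hk N hN
  have hr3 : ¬ 3 ∣ Module.finrank ℚ K := hBas.cop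
  have hr0 : 0 < Module.finrank ℚ K := Module.finrank_pos
  have hR0 : 0 < 2 * Module.finrank ℚ K := by omega
  have hR3 : ¬ 3 ∣ 2 * Module.finrank ℚ K := by omega
  have hfin := hFIN A B hC ((f : OO A B) * star (ppi A B)) (I3F.g_ne hC hf)
    (2 * Module.finrank ℚ K) hR0
  have hex : ∀ (e : OO A B → ℂ) (s : ℤ), ∃ n₀ : ℕ,
      (IsEps ((f : OO A B) * star (ppi A B)) e ∧
        ∀ x, e x ≠ 0 → e x ^ (2 * Module.finrank ℚ K) = 1) → (s = 1 ∨ s = -1) →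
      ∀ n, n₀ ≤ n → ¬ Hf V (∑ j ∈ Finset.range (N + 1),
        ((-1 : ℂ) ^ (N - j) * (N.choose j : ℂ)) *
          (ST L Om f e n (4 ^ j) + s * ST L Om f e n (-4 ^ j))) := by
    intro e s
    by_cases he : IsEps ((f : OO A B) * star (ppi A B)) e ∧
        ∀ x, e x ≠ 0 → e x ^ (2 * Module.finrank ℚ K) = 1
    · by_cases hs : s = 1 ∨ s = -1
      · obtain ⟨n₀, hn₀⟩ := hHF A B hC L Om hCM V hV f hf hf3 h2 hCp e he.1
          (2 * Module.finrank ℚ K) hR3 he.2 s hs N hN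
        exact ⟨n₀, fun _ _ => hn₀⟩
      · exact ⟨0, fun _ h => absurd h hs⟩
    · exact ⟨0, fun h => absurd h he⟩
  choose nn hnn using hex
  refine ⟨hfin.toFinset.sup (fun e => max (nn e 1) (nn e (-1))) + 1, fun n hn => ?_⟩
  have hn1 : 1 ≤ n := by omega
  have hnb : ∀ e s, (IsEps ((f : OO A B) * star (ppi A B)) e ∧
        ∀ x, e x ≠ 0 → e x ^ (2 * Module.finrank ℚ K) = 1) → (s = 1 ∨ s = -1) →
        nn e s ≤ n := by
    intro e s he hs
    have h1 : e ∈ hfin.toFinset := hfin.mem_toFinset.2 he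
    have h3 := Finset.le_sup (f := fun e => max (nn e 1) (nn e (-1))) h1
    have h4 : max (nn e 1) (nn e (-1)) ≤
      hfin.toFinset.sup (fun e => max (nn e 1) (nn e (-1))) := h3
    have h5 : hfin.toFinset.sup (fun e => max (nn e 1) (nn e (-1))) ≤ n := by omega
    rcases hs with rfl | rfl
    · exact (le_max_left _ _).trans (h4.trans h5)
    · exact (le_max_right _ _).trans (h4.trans h5)
  let akL : Algebra (kk A B) ↥(K ⊔ Bn n) := algC (hk n)
  obtain ⟨gal, comm⟩ := t_GALK (kk A B) K Bn hBas n (hk n)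
  obtain ⟨hTF, γ, hγK, hγord, hγz, hγgen⟩ := hGAM A B hC L Om hCM hTor f hf hf3 hCp K hBas.hk
    hKT n (Bn n) (hBas.lay n) (hk n) gal
  have hIM := hMOD A B hC L Om hCM hTor f hf hf3 hCp K hBas.hk hKT n (Bn n) (hBas.lay n) (hk n)
    gal hTF γ hγK hγord hγz hγgen
  obtain ⟨hc, hc0, hcτ⟩ := hCC A B hC L Om hCM hTor f hf hf3 h2 n (hCp n) Hs hHs (K ⊔ Bn n)
    (hk n) hTF gal
  refine ⟨hc, γ, hγK, ?_⟩
  intro iN χ
  have fdk := Pool.Agent.FX.fd (kk A B) ↥(K ⊔ Bn n)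
  have iG : Finite (↥(K ⊔ Bn n) ≃ₐ[kk A B] ↥(K ⊔ Bn n)) := inferInstance
  have hcard : Nat.card (NC (hk n) (Bn n)) ∣ Module.finrank ℚ K :=
    P_TWK.card_NC hBas.hk hBas.gal (hk n)
  have hc3 : ¬ 3 ∣ Fintype.card (NC (hk n) (Bn n)) := by
    intro h
    rw [Nat.card_eq_fintype_card] at hcard
    exact hr3 (h.trans hcard)
  obtain ⟨X, θ, hXθ⟩ := hCHI V (I3F.three_mem hC V hV) (NC (hk n) (Bn n))
    (fun σ τ => Subtype.ext (comm _ _)) hc3 χ
  refine ⟨θ, fun y hy => ?_⟩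
  have hXr : ∀ δ, X δ ^ Module.finrank ℚ K = 1 := by
    intro δ
    have h3 : δ ^ Nat.card (NC (hk n) (Bn n)) = 1 := pow_card_eq_one'
    obtain ⟨k, hk'⟩ := hcard
    rw [← map_pow, hk', pow_mul, h3, one_pow, map_one]
  obtain ⟨e0, h01, h0m, h0mul, h0per, h0supp, h0pow, h0X⟩ := hE0 A B hC f n hf hf3 _ γ
    (NC (hk n) (Bn n)) _ hIM X (Module.finrank ℚ K) hXr
  obtain ⟨e, s, heps, hs, hepow, hes⟩ := hEPS A B hC f hf hf3 e0 (Module.finrank ℚ K) h01 h0m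
    h0mul h0per h0supp h0pow
  have hTHi : ∀ i, 2 * ∑ δ : NC (hk n) (Bn n), (((X δ)⁻¹ : ℂˣ) : ℂ) *
      TT L Om f n (hk n) (γ ^ i * (δ : ↥(K ⊔ Bn n) ≃ₐ[kk A B] ↥(K ⊔ Bn n))) =
      ST L Om f e n (4 ^ i) + s * ST L Om f e n (-4 ^ i) := by
    intro i
    rw [← hTH A B hC L Om hCM f n hf hf3 _ γ (NC (hk n) (Bn n)) _ hIM X e0 h01 h0m h0mul h0per
      h0supp h0X e s heps hs hes i]
    refine congrArg (fun w => 2 * w) (Finset.sum_congr rfl fun δ _ => ?_)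
    refine congrArg (fun w => (((X δ)⁻¹ : ℂˣ) : ℂ) * w) ?_
    exact (I3F.tt_sumMod L Om f n (hk n) _ _ rfl).symm
  have hHf := I3F.cubes hEF hFOU hTG hC L Om hCM V hV f hf hf3 h2 hmz n hn1 (hCp n) Hs hHs
    (K ⊔ Bn n) (hk n) hTF gal comm hc hc0 hcτ γ (NC (hk n) (Bn n)) N
    (fun δ => (θ ((χ δ)⁻¹ : (IsLocalRing.ResidueField V)ˣ)).val) X hXθ y hy
  apply hnn e s ⟨heps, hepow⟩ hs n (hnb e s ⟨heps, hepow⟩ hs)
  have h2V : (2 : ℂ) ∈ V := by
    have h5 := natCast_mem V 2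
    exact_mod_cast h5
  have h3 := (hIHF V).2.2.1 2 _ h2V hHf
  rw [Finset.mul_sum] at h3
  have h4 : (∑ j ∈ Finset.range (N + 1), ((-1 : ℂ) ^ (N - j) * (N.choose j : ℂ)) *
      (ST L Om f e n (4 ^ j) + s * ST L Om f e n (-4 ^ j))) =
      ∑ j ∈ Finset.range (N + 1), 2 * ((((-1 : ℤ) ^ (N - j) * (N.choose j : ℤ) : ℤ) : ℂ) *
        ∑ δ : NC (hk n) (Bn n), (((X δ)⁻¹ : ℂˣ) : ℂ) *
          TT L Om f n (hk n) (γ ^ j * (δ : ↥(K ⊔ Bn n) ≃ₐ[kk A B] ↥(K ⊔ Bn n)))) := by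
    refine Finset.sum_congr rfl fun j _ => ?_
    rw [← hTHi j]
    push_cast
    ring
  rw [h4]
  exact h3

lemma tg_prod {k L : Type} [Field k] [Field L] [Algebra k L] (γ : L ≃ₐ[k] L) {ι : Type}
    (s : Finset ι) (F : ι → L) (b : ι → ℕ) :
    Tg γ (∏ i ∈ s, F i ^ b i) = ∏ i ∈ s, (Tg γ (F i)) ^ b i := by
  unfold Tg
  rw [map_prod, ← Finset.prod_div_distrib]
  exact Finset.prod_congr rfl fun i _ => by rw [map_pow, div_pow]

/-- (I3F) the input (I3) for one generator `γ` -/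
theorem t_I3F (hEF : St_EFIN) (hHF : St_HFIN) (hCHI : St_ICHI) (hIHF : St_IHF) (hFOU : St_IFOU)
    (hTG : St_ITG) (hFIN : St_IFIN) (hE0 : St_IE0) (hEPS : St_IEPS) (hTH : St_ITH)
    (hGAM : St_IGAM) (hMOD : St_IMOD) (hCC : St_ICC) : St_I3F := by
  intro A B hC L Om hCM hTor V hV f hf hf3 h2 hmz hCp Hs hHs K iK hKT Bn iKB hBas hk N
  obtain ⟨n₀, hn₀⟩ := t_I3F1 hEF hHF hCHI hIHF hFOU hTG hFIN hE0 hEPS hTH hGAM hMOD hCC A B hC L
    Om hCM hTor V hV f hf hf3 h2 hmz hCp Hs hHs K hKT Bn hBas hk (N + 1) (by omega)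
  refine ⟨n₀, fun n hn => ?_⟩
  letI := algC (hk n)
  obtain ⟨hc, γ, hγ, h3⟩ := hn₀ n hn
  obtain ⟨-, comm⟩ := t_GALK (kk A B) K Bn hBas n (hk n)
  refine ⟨hc, γ, hγ, ?_⟩
  intro iN χ
  obtain ⟨θ, hθ⟩ := h3 χ
  refine ⟨θ, fun y hy => hθ (Tg γ y) ?_⟩
  have e1 := congrArg (Tg γ) hy
  rw [tg_prod] at e1
  have e2 : Tg γ (y ^ 3) = Tg γ y ^ 3 := by
    unfold Tg
    rw [map_pow, div_pow]
  rw [e2] at e1
  rw [e1]
  refine Finset.prod_congr rfl fun δ _ => ?_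
  congr 1
  rw [Function.iterate_succ_apply']
  unfold Tg
  rw [map_div₀]
  congr 1
  exact AlgEquiv.congr_fun (comm γ (δ : ↥(K ⊔ Bn n) ≃ₐ[kk A B] ↥(K ⊔ Bn n))) _

end

end Pool.Agent.MU3I


end

section

/-!
# MU3, block I, module ITG: powers of `T = γ - 1`
-/

set_option autoImplicit false

namespace Pool.Agent.MU3I

open _root_.MU3 _root_.Pool.Agent.MU3 _root_.Pool.Agent.MU3A _root_.Pool.Agent.MU3B _root_.Pool.Agent.MU3C _root_.Pool.Agent.RI
  _root_.Pool.Agent.RID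

noncomputable section

/-- the exponent -/
def itgE (N j : ℕ) : ℤ := (-1 : ℤ) ^ (N - j) * (N.choose j : ℤ)

lemma itgE_zero (N : ℕ) : itgE (N + 1) 0 = -itgE N 0 := by
  simp [itgE, pow_succ]

lemma itgE_gt (N : ℕ) : itgE N (N + 1) = 0 := by
  simp [itgE, Nat.choose_succ_self]

lemma itgE_succ (N j : ℕ) (hj : j ≤ N) : itgE (N + 1) (j + 1) = itgE N j - itgE N (j + 1) := by
  unfold itgE
  rw [Nat.choose_succ_succ, Nat.add_sub_add_right]
  rcases Nat.lt_or_ge j N with h | h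
  · have e : N - j = (N - (j + 1)) + 1 := by omega
    rw [e, pow_succ]
    push_cast
    ring
  · have e : j = N := by omega
    subst e
    simp [Nat.choose_succ_self]

theorem t_ITG : St_ITG := by
  intro k L _ _ _ γ x hx N
  have hy : ∀ j : ℕ, (γ ^ j) x ≠ 0 := fun j h0 => hx ((γ ^ j).injective (by rw [h0, map_zero]))
  have key : ∀ N : ℕ, (Tg γ)^[N] x =
      ∏ j ∈ Finset.range (N + 1), ((γ ^ j) x) ^ (itgE N j) := by
    intro N
    induction N with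
    | zero => simp [itgE]
    | succ N ih =>
      rw [Function.iterate_succ_apply', ih]
      unfold Tg
      rw [map_prod]
      have e1 : ∏ j ∈ Finset.range (N + 1), γ (((γ ^ j) x) ^ (itgE N j)) =
          ∏ j ∈ Finset.range (N + 1), ((γ ^ (j + 1)) x) ^ (itgE N j) := by
        apply Finset.prod_congr rfl
        intro j _
        rw [map_zpow₀, pow_succ' γ j]
        rfl
      have e2 : ∏ j ∈ Finset.range (N + 1), ((γ ^ j) x) ^ (itgE N j) =
          (∏ j ∈ Finset.range (N + 1), ((γ ^ (j + 1)) x) ^ (itgE N (j + 1))) *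
            ((γ ^ 0) x) ^ (itgE N 0) := by
        rw [← Finset.prod_range_succ' (fun j => ((γ ^ j) x) ^ (itgE N j)),
          Finset.prod_range_succ _ (N + 1), itgE_gt, zpow_zero, mul_one]
      rw [e1, e2, Finset.prod_range_succ' _ (N + 1), itgE_zero]
      have e3 : ∏ j ∈ Finset.range (N + 1), ((γ ^ (j + 1)) x) ^ (itgE (N + 1) (j + 1)) =
          (∏ j ∈ Finset.range (N + 1), ((γ ^ (j + 1)) x) ^ (itgE N j)) /
            ∏ j ∈ Finset.range (N + 1), ((γ ^ (j + 1)) x) ^ (itgE N (j + 1)) := by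
        rw [← Finset.prod_div_distrib]
        apply Finset.prod_congr rfl
        intro j hj
        rw [itgE_succ N j (by have := Finset.mem_range.1 hj; omega), zpow_sub₀ (hy _)]
      rw [e3, zpow_neg, div_mul_eq_div_div, div_eq_mul_inv (_ / _)]
  exact key N

end

end Pool.Agent.MU3I


end

section

/-!
# MUX, block K, module NR1: the norm relation for `c₀`, one step
-/

set_option autoImplicit false

open NumberField IsDedekindDomain Finset
open scoped nonZeroDivisors Pointwise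

namespace Pool.Agent.MUXK

open _root_.Pool.Agent.MU3 _root_.Pool.Agent.RI _root_.Pool.Agent.RID _root_.Pool.Agent.Lib_helper28.FROB

attribute [local instance 1100] Algebra.toModule Module.Free.of_divisionRing

namespace K_NR1

lemma fd_algC {k L : IntermediateField ℚ ℂ} [FiniteDimensional ℚ L] (h : k ≤ L) :
    @FiniteDimensional k L _ _ (algC h).toModule := by
  let akL : Algebra k L := algC h
  exact Module.Finite.of_restrictScalars_finite ℚ k _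

lemma card_fix_mul {K L : Type} [Field K] [Field L] [Algebra K L] [FiniteDimensional K L]
    [IsGalois K L] (E : IntermediateField K L) :
    Nat.card E.fixingSubgroup * Module.finrank K E = Module.finrank K L := by
  rw [IsGalois.card_fixingSubgroup_eq_finrank, mul_comm]
  exact Module.finrank_mul_finrank _ _ _

lemma ext_mul {K Ω : Type} [Field K] [Field Ω] [Algebra K Ω] {F E : IntermediateField K Ω}
    (h : F ≤ E) : Module.finrank K F * Module.finrank F (IntermediateField.extendScalars h) =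
      Module.finrank K E :=
  Module.finrank_mul_finrank K F (IntermediateField.extendScalars h)

/-- `NC` as a fixing subgroup. -/
lemma nc_eq {k A L : IntermediateField ℚ ℂ} (h : k ≤ L) (hkA : k ≤ A) :
    letI := algC h
    NC h A = (GCC.sub h A hkA).fixingSubgroup := by
  let akL : Algebra k L := algC h
  ext σ
  constructor
  · intro hσ x
    exact hσ x x.2
  · intro hσ x hx
    exact hσ ⟨x, hx⟩

/-- The order of `NC`. -/
lemma card_NC {k A L : IntermediateField ℚ ℂ} [FiniteDimensional ℚ L] (h : k ≤ L) (hkA : k ≤ A)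
    (hAL : A ≤ L) (gal : letI := algC h; IsGalois k L) :
    letI := algC h
    Nat.card (NC h A) * Module.finrank ℚ A = Module.finrank ℚ L := by
  let akL : Algebra k L := algC h
  have gL : IsGalois k L := gal
  have fdL := fd_algC h
  have e : NC h A = (GCC.sub h A hkA).fixingSubgroup := nc_eq h hkA
  rw [e, ← ext_mul hkA, ← ext_mul h, ← finrank_algC h, ← card_fix_mul (GCC.sub h A hkA),
    GCC.finrank_sub h A hkA hAL]
  ring

/-- The elements fixed by `NC`. -/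
lemma mem_of_fixed {k A L : IntermediateField ℚ ℂ} [FiniteDimensional ℚ L] (h : k ≤ L)
    (hkA : k ≤ A) (gal : letI := algC h; IsGalois k L) (x : L)
    (hx : letI := algC h; ∀ σ ∈ NC h A, σ x = x) : (x : ℂ) ∈ A := by
  let akL : Algebra k L := algC h
  have gL : IsGalois k L := gal
  have fdL := fd_algC h
  have e : NC h A = (GCC.sub h A hkA).fixingSubgroup := nc_eq h hkA
  have h1 : x ∈ IntermediateField.fixedField (GCC.sub h A hkA).fixingSubgroup := by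
    intro σ
    have h2 : (σ : L ≃ₐ[k] L) ∈ NC h A := by
      rw [e]
      exact σ.2
    exact hx σ h2
  rw [IsGalois.fixedField_fixingSubgroup] at h1
  exact h1

/-- Restriction of automorphisms is a bijection. -/
lemma res {k A A' L L' : IntermediateField ℚ ℂ} [FiniteDimensional ℚ L'] [FiniteDimensional ℚ L]
    (h : k ≤ L) (h' : k ≤ L') (hLL : L ≤ L') (hkA : k ≤ A) (hkA' : k ≤ A') (hAL : A ≤ L)
    (hAL' : A' ≤ L') (hAA : A ≤ A')
    (gal : letI := algC h; IsGalois k L) (gal' : letI := algC h'; IsGalois k L')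
    (htriv : letI := algC h'; ∀ σ : L' ≃ₐ[k] L', (∀ x : L', (x : ℂ) ∈ L → σ x = x) →
      (∀ x : L', (x : ℂ) ∈ A' → σ x = x) → σ = 1)
    (hdeg : Module.finrank ℚ L' * Module.finrank ℚ A =
      Module.finrank ℚ L * Module.finrank ℚ A') :
    letI := algC h
    letI := algC h'
    ∃ e : NC h' A' ≃ NC h A, ∀ (σ : NC h' A') (x : L),
      ((((e σ : NC h A) : L ≃ₐ[k] L) x : L) : ℂ) =
        (((σ : L' ≃ₐ[k] L') ⟨(x : ℂ), hLL x.2⟩ : L') : ℂ) := by
  let aL : Algebra k L := algC h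
  let aL' : Algebra k L' := algC h'
  let aLL : Algebra L L' := algC hLL
  have tLL := towerC h hLL
  have gL : IsGalois k L := gal
  have gL' : IsGalois k L' := gal'
  have fdL := fd_algC h
  have fdL' := fd_algC h'
  have hres : ∀ (σ : L' ≃ₐ[k] L') (x : L),
      ((AlgEquiv.restrictNormalHom L σ x : L) : ℂ) = (σ ⟨(x : ℂ), hLL x.2⟩ : L') := by
    intro σ x
    have q1 := AlgEquiv.restrictNormal_commutes σ L x
    have q2 : ∀ y : L, algebraMap L L' y = ⟨(y : ℂ), hLL y.2⟩ := fun y => rfl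
    rw [q2, q2] at q1
    exact congrArg Subtype.val q1
  have hmem : ∀ δ ∈ NC h' A', AlgEquiv.restrictNormalHom L δ ∈ NC h A := by
    intro δ hδ x hx
    apply Subtype.ext
    rw [hres, hδ ⟨(x : ℂ), hLL x.2⟩ (hAA hx)]
  let φ : NC h' A' →* NC h A :=
    { toFun := fun δ => ⟨AlgEquiv.restrictNormalHom L (δ : L' ≃ₐ[k] L'), hmem δ δ.2⟩
      map_one' := Subtype.ext (map_one _)
      map_mul' := fun a b => Subtype.ext (map_mul _ _ _) }
  have hφ : Function.Injective φ := by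
    rw [injective_iff_map_eq_one]
    intro δ hδ
    have hδ' : AlgEquiv.restrictNormalHom L (δ : L' ≃ₐ[k] L') = 1 := congrArg Subtype.val hδ
    apply Subtype.ext
    apply htriv
    · intro x hx
      apply Subtype.ext
      have h3 := hres δ ⟨x, hx⟩
      rw [hδ'] at h3
      exact h3.symm
    · exact δ.2
  have hcard : Nat.card (NC h' A') = Nat.card (NC h A) := by
    have e1 := card_NC h hkA hAL gal
    have e2 := card_NC h' hkA' hAL' gal'
    have fA : FiniteDimensional ℚ A := FiniteDimensional.of_injective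
      (IntermediateField.inclusion hAL).toLinearMap (IntermediateField.inclusion hAL).injective
    have fA' : FiniteDimensional ℚ A' := FiniteDimensional.of_injective
      (IntermediateField.inclusion hAL').toLinearMap (IntermediateField.inclusion hAL').injective
    have p1 : 0 < Module.finrank ℚ A := Module.finrank_pos
    have p2 : 0 < Module.finrank ℚ A' := Module.finrank_pos
    rw [← e1, ← e2] at hdeg
    have h4 : Nat.card (NC h' A') * (Module.finrank ℚ A' * Module.finrank ℚ A) =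
        Nat.card (NC h A) * (Module.finrank ℚ A' * Module.finrank ℚ A) := by
      rw [← mul_assoc]
      refine hdeg.trans ?_
      ring
    exact Nat.eq_of_mul_eq_mul_right (Nat.mul_pos p2 p1) h4
  have hbij := (Nat.bijective_iff_injective_and_card φ).2 ⟨hφ, hcard⟩
  exact ⟨Equiv.ofBijective φ hbij, fun σ x => hres σ x⟩

/-- An automorphism in a group of prime order has the fixed field of the generator. -/
lemma fix_prime {F L : Type} [Field F] [Field L] [Algebra F L] [FiniteDimensional F L] (g s : L ≃ₐ[F] L) (p : ℕ)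
    (hp : p.Prime) (hg : orderOf g = p) (hs : s ∈ Subgroup.zpowers g) (h1 : s ≠ 1) (x : L) :
    s x = x ↔ g x = x := by
  have hle : Subgroup.zpowers s ≤ Subgroup.zpowers g := by
    rwa [Subgroup.zpowers_le]
  have hd : orderOf s ∣ p := by
    rw [← hg, ← Nat.card_zpowers, ← Nat.card_zpowers]
    exact Subgroup.card_dvd_of_le hle
  have hps : orderOf s = p := by
    rcases (Nat.dvd_prime hp).1 hd with h | h
    · exact absurd (orderOf_eq_one_iff.1 h) h1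
    · exact h
  have heq : Subgroup.zpowers s = Subgroup.zpowers g := by
    apply Subgroup.eq_of_le_of_card_ge hle
    rw [Nat.card_zpowers, Nat.card_zpowers, hg, hps]
  constructor
  · intro h
    have h2 : s ∈ MulAction.stabilizer (L ≃ₐ[F] L) x := h
    have h3 : g ∈ Subgroup.zpowers s := heq ▸ Subgroup.mem_zpowers g
    obtain ⟨j, hj⟩ := h3
    have h4 := zpow_mem h2 j
    have hj' : s ^ j = g := hj
    rw [hj'] at h4
    exact h4
  · intro h
    have h2 : g ∈ MulAction.stabilizer (L ≃ₐ[F] L) x := h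
    obtain ⟨j, hj⟩ := hs
    have h4 := zpow_mem h2 j
    have hj' : g ^ j = s := hj
    rw [hj'] at h4
    exact h4

end K_NR1

open _root_.Pool.Agent.MUXK.K_NR1 in
theorem t_NR1 (h1 : S_GALX) (h2 : S_GENX) (h3 : S_LFX) : S_NR1 := by
  intro F _ p _ k K₀ K B _ _ _ _ hX hk hk₀ hkK S c c₀ n₁ hI n hn
  have hpr : p.Prime := Fact.out
  intro σ hσ
  have hBn : B n ≤ B (n + 1) := hX.b.mono (Nat.le_succ n)
  have hh : ∀ m, K₀ ⊔ B m ≤ K ⊔ B m := fun m => sup_le_sup_right hX.le _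
  have hL : K ⊔ B n ≤ K ⊔ B (n + 1) := sup_le_sup_left hBn K
  have hM : K₀ ⊔ B n ≤ K₀ ⊔ B (n + 1) := sup_le_sup_left hBn K₀
  let aL' : Algebra k ↥(K ⊔ B (n + 1)) := algC (hk (n + 1))
  let aL : Algebra k ↥(K ⊔ B n) := algC (hk n)
  let aM' : Algebra k ↥(K₀ ⊔ B (n + 1)) := algC (hk₀ (n + 1))
  let aK : Algebra k K := algC hX.b.hk
  obtain ⟨gL', cL'⟩ := h1 p k K B hX.b (n + 1) (hk (n + 1))
  obtain ⟨gL, cL⟩ := h1 p k K B hX.b n (hk n)
  have gK : IsGalois k K := (isGalois_algC hX.b.hk).2 hX.b.gal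
  have fdL' := fd_algC (hk (n + 1))
  have fdL := fd_algC (hk n)
  have fdK := fd_algC hX.b.hk
  -- lift
  obtain ⟨τ, hτK, hτ⟩ := h3 p k K₀ K B hX.b0 hX.b hX.le (n + 1) (hk (n + 1)) (hk₀ (n + 1))
    (hh (n + 1)) σ (fun x hx => (hσ x).2 ((le_sup_left : K₀ ≤ K₀ ⊔ B n) hx))
  -- fixed field of `τ`
  have hτf : ∀ x : ↥(K ⊔ B (n + 1)), τ x = x ↔ (x : ℂ) ∈ K ⊔ B n := by
    obtain ⟨g, hg1, hg2, hg3⟩ := h2 p k K B hX.b.hk hX.b.deg hX.b.lay hX.b.mono (n + 1)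
      (hk (n + 1))
    obtain ⟨hg4, hg5⟩ := hg3 n (Nat.le_succ n)
    have hkL : k ≤ K ⊔ B n := hk n
    have ez := P_TWK.zp (g ^ (p ^ n)) (GCC.sub (hk (n + 1)) (K ⊔ B n) hkL)
      (fun x => (hg5 x).trans (GCC.mem_sub (hk (n + 1)) (K ⊔ B n) hkL x).symm)
    have hfixB : ∀ x : ↥(K ⊔ B (n + 1)), (x : ℂ) ∈ B n → τ x = x := by
      intro x hx
      have hx1 : (x : ℂ) ∈ K₀ ⊔ B n := (le_sup_right : B n ≤ K₀ ⊔ B n) hx
      have h5 := hτ ⟨(x : ℂ), hM hx1⟩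
      rw [(hσ ⟨(x : ℂ), hM hx1⟩).2 hx1] at h5
      exact Subtype.ext h5
    have hτS : τ ∈ (GCC.sub (hk (n + 1)) (K ⊔ B n) hkL).fixingSubgroup := by
      let aLL : Algebra ↥(K ⊔ B n) ↥(K ⊔ B (n + 1)) := algC hL
      have tLL := towerC (hk n) hL
      have hres : ∀ (x : ↥(K ⊔ B n)),
          ((AlgEquiv.restrictNormalHom ↥(K ⊔ B n) τ x : ↥(K ⊔ B n)) : ℂ) =
            (τ ⟨(x : ℂ), hL x.2⟩ : ↥(K ⊔ B (n + 1))) := by
        intro x
        have q1 := AlgEquiv.restrictNormal_commutes τ ↥(K ⊔ B n) x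
        have q2 : ∀ y : ↥(K ⊔ B n), algebraMap ↥(K ⊔ B n) ↥(K ⊔ B (n + 1)) y = ⟨(y : ℂ), hL y.2⟩ :=
          fun y => rfl
        rw [q2, q2] at q1
        exact congrArg Subtype.val q1
      have hr1 : AlgEquiv.restrictNormalHom ↥(K ⊔ B n) τ = 1 := by
        apply GCC.triv (hk n)
        · intro x hx
          apply Subtype.ext
          rw [hres, hτK _ hx]
        · intro x hx
          apply Subtype.ext
          rw [hres, hfixB _ hx]
      intro x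
      obtain ⟨x, hx⟩ := x
      have h5 := hres ⟨(x : ℂ), hx⟩
      rw [hr1] at h5
      exact (Subtype.ext h5).symm
    have hτ1 : τ ≠ 1 := by
      intro h6
      have h7 : K₀ ⊔ B (n + 1) ≤ K₀ ⊔ B n := by
        intro z hz
        have h8 := hτ ⟨z, hz⟩
        rw [h6] at h8
        exact (hσ ⟨z, hz⟩).1 (Subtype.ext h8.symm)
      have h9 : K₀ ⊔ B (n + 1) = K₀ ⊔ B n := le_antisymm h7 hM
      have d1 := hX.b0.deg (n + 1)
      have d2 := hX.b0.deg n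
      rw [h9, d2, pow_succ] at d1
      have fK₀ : FiniteDimensional ℚ K₀ := FiniteDimensional.of_injective
        (IntermediateField.inclusion hX.le).toLinearMap
        (IntermediateField.inclusion hX.le).injective
      have d3 : 0 < Module.finrank ℚ K₀ := Module.finrank_pos
      have d4 : 0 < p ^ n := pow_pos hpr.pos n
      have d5 : Module.finrank ℚ K₀ * p ^ n * 1 = Module.finrank ℚ K₀ * p ^ n * p := by
        rw [mul_one, mul_assoc]
        exact d1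
      have d6 := Nat.eq_of_mul_eq_mul_left (Nat.mul_pos d3 d4) d5
      exact hpr.one_lt.ne d6
    rw [ez] at hτS
    intro x
    rw [fix_prime (g ^ (p ^ n)) τ p hpr (by rw [hg4]; simp) hτS hτ1 x]
    exact hg5 x
  obtain ⟨C, hC, hC0, hCe⟩ := hI.nrm n hn τ hτf
  -- powers of `τ` and `σ`
  have hpow : ∀ (i : ℕ) (x : ↥(K₀ ⊔ B (n + 1))),
      (((τ ^ i) ⟨(x : ℂ), hh (n + 1) x.2⟩ : ↥(K ⊔ B (n + 1))) : ℂ) =
        (((σ ^ i) x : ↥(K₀ ⊔ B (n + 1))) : ℂ) := by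
    intro i
    induction i with
    | zero =>
      intro x
      rw [pow_zero, pow_zero, AlgEquiv.one_apply, AlgEquiv.one_apply]
    | succ i ih =>
      intro x
      rw [pow_succ, pow_succ, AlgEquiv.mul_apply, AlgEquiv.mul_apply, ← ih (σ x)]
      congr 2
      exact Subtype.ext (hτ x)
  -- the groups
  have d1 := hX.b.deg (n + 1)
  have d2 := hX.b.deg n
  have d3 := hX.b0.deg (n + 1)
  have d4 := hX.b0.deg n
  obtain ⟨e, he⟩ := res (A := K₀ ⊔ B n) (A' := K₀ ⊔ B (n + 1)) (hk n) (hk (n + 1)) hL (hk₀ n)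
    (hk₀ (n + 1)) (hh n) (hh (n + 1)) hM gL gL'
    (by
      intro ρ q1 q2
      apply GCC.triv (hk (n + 1)) ρ
      · intro x hx
        exact q1 x ((le_sup_left : K ≤ K ⊔ B n) hx)
      · intro x hx
        exact q2 x ((le_sup_right : B (n + 1) ≤ K₀ ⊔ B (n + 1)) hx))
    (by rw [d1, d2, d3, d4]; ring)
  obtain ⟨e', he'⟩ := res (A := K₀) (A' := K₀ ⊔ B (n + 1)) hX.b.hk (hk (n + 1))
    (le_sup_left : K ≤ K ⊔ B (n + 1)) hX.b0.hk
    (hk₀ (n + 1)) hX.le (hh (n + 1)) (le_sup_left : K₀ ≤ K₀ ⊔ B (n + 1)) gK gL'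
    (by
      intro ρ q1 q2
      apply GCC.triv (hk (n + 1)) ρ
      · intro x hx
        exact q1 x hx
      · intro x hx
        exact q2 x ((le_sup_right : B (n + 1) ≤ K₀ ⊔ B (n + 1)) hx))
    (by rw [d1, d3]; ring)
  have fP : Fintype (NC (hk (n + 1)) (K₀ ⊔ B (n + 1))) := Fintype.ofFinite _
  have fQ : Fintype (NC (hk n) (K₀ ⊔ B n)) := Fintype.ofFinite _
  have fR : Fintype (NC hX.b.hk K₀) := Fintype.ofFinite _
  have pr1 : ∀ x : ↥(K ⊔ B n), ((∏ g : NC (hk (n + 1)) (K₀ ⊔ B (n + 1)),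
      (g : ↥(K ⊔ B (n + 1)) ≃ₐ[k] ↥(K ⊔ B (n + 1))) ⟨(x : ℂ), hL x.2⟩ : ↥(K ⊔ B (n + 1))) : ℂ) =
      ∏ g : NC (hk n) (K₀ ⊔ B n), (((g : ↥(K ⊔ B n) ≃ₐ[k] ↥(K ⊔ B n)) x : ↥(K ⊔ B n)) : ℂ) := by
    intro x
    refine (map_prod (K ⊔ B (n + 1)).val _ _).trans ?_
    exact Fintype.prod_equiv e _ _ (fun g => (he g x).symm)
  have pr2 : ∀ x : K, ((∏ g : NC (hk (n + 1)) (K₀ ⊔ B (n + 1)),
      (g : ↥(K ⊔ B (n + 1)) ≃ₐ[k] ↥(K ⊔ B (n + 1)))
        ⟨(x : ℂ), (le_sup_left : K ≤ K ⊔ B (n + 1)) x.2⟩ : ↥(K ⊔ B (n + 1))) : ℂ) =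
      ((∏ g : NC hX.b.hk K₀, (g : K ≃ₐ[k] K) x : K) : ℂ) := by
    intro x
    refine (map_prod (K ⊔ B (n + 1)).val _ _).trans ?_
    refine Eq.trans ?_ (map_prod K.val _ _).symm
    exact Fintype.prod_equiv e' _ _ (fun g => (he' g x).symm)
  -- `c₀ (n + 1)` and `c₀ n`
  have hc' : (⟨c₀ (n + 1), hh (n + 1) (hI.mem₀ (n + 1))⟩ : ↥(K ⊔ B (n + 1))) =
      ∏ g : NC (hk (n + 1)) (K₀ ⊔ B (n + 1)),
        (g : ↥(K ⊔ B (n + 1)) ≃ₐ[k] ↥(K ⊔ B (n + 1))) ⟨c (n + 1), hI.mem (n + 1)⟩ := by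
    apply Subtype.ext
    refine Eq.trans ?_ (map_prod (K ⊔ B (n + 1)).val _ _).symm
    have h5 := hI.norm (n + 1)
    rw [finprod_eq_prod_of_fintype] at h5
    exact h5
  have hc : c₀ n = ∏ g : NC (hk n) (K₀ ⊔ B n),
      (((g : ↥(K ⊔ B n) ≃ₐ[k] ↥(K ⊔ B n)) ⟨c n, hI.mem n⟩ : ↥(K ⊔ B n)) : ℂ) := by
    have h5 := hI.norm n
    rw [finprod_eq_prod_of_fintype] at h5
    exact h5
  -- the constant
  let y : K := ∏ g : NC hX.b.hk K₀, (g : K ≃ₐ[k] K) ⟨C, hC⟩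
  have hy : (y : ℂ) ∈ K₀ := by
    apply mem_of_fixed hX.b.hk hX.b0.hk gK y
    intro s hs
    show s (∏ g : NC hX.b.hk K₀, (g : K ≃ₐ[k] K) ⟨C, hC⟩) = _
    rw [map_prod]
    exact Fintype.prod_equiv (Equiv.mulLeft (⟨s, hs⟩ : NC hX.b.hk K₀)) _ _ (fun g => rfl)
  have hy0 : (y : ℂ) ≠ 0 := by
    have h5 : y ≠ 0 := by
      apply Finset.prod_ne_zero_iff.2
      intro g _ h6
      have h7 : (⟨C, hC⟩ : K) = 0 := by
        have h8 : (g : K ≃ₐ[k] K) ⟨C, hC⟩ = (g : K ≃ₐ[k] K) 0 := by rw [h6, map_zero]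
        exact (g : K ≃ₐ[k] K).injective h8
      exact hC0 (congrArg Subtype.val h7)
    intro h6
    exact h5 (Subtype.ext h6)
  refine ⟨y, hy, hy0, ?_⟩
  -- the computation
  have s1 : ∏ i ∈ range p, (((σ ^ i) ⟨c₀ (n + 1), hI.mem₀ (n + 1)⟩ : ↥(K₀ ⊔ B (n + 1))) : ℂ) =
      ((∏ i ∈ range p, (τ ^ i) ⟨c₀ (n + 1), hh (n + 1) (hI.mem₀ (n + 1))⟩ :
        ↥(K ⊔ B (n + 1))) : ℂ) := by
    refine Eq.trans ?_ (map_prod (K ⊔ B (n + 1)).val _ _).symm
    exact Finset.prod_congr rfl fun i _ => (hpow i ⟨c₀ (n + 1), hI.mem₀ (n + 1)⟩).symm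
  have s2 : (∏ i ∈ range p, (τ ^ i) ⟨c (n + 1), hI.mem (n + 1)⟩ : ↥(K ⊔ B (n + 1))) =
      ⟨C, (le_sup_left : K ≤ K ⊔ B (n + 1)) hC⟩ * ⟨c n, hL (hI.mem n)⟩ := by
    apply Subtype.ext
    refine (map_prod (K ⊔ B (n + 1)).val _ _).trans ?_
    exact hCe
  have s3 : (∏ i ∈ range p, (τ ^ i) ⟨c₀ (n + 1), hh (n + 1) (hI.mem₀ (n + 1))⟩ :
        ↥(K ⊔ B (n + 1))) =
      (∏ g : NC (hk (n + 1)) (K₀ ⊔ B (n + 1)), (g : ↥(K ⊔ B (n + 1)) ≃ₐ[k] ↥(K ⊔ B (n + 1)))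
        ⟨C, (le_sup_left : K ≤ K ⊔ B (n + 1)) hC⟩) *
      ∏ g : NC (hk (n + 1)) (K₀ ⊔ B (n + 1)), (g : ↥(K ⊔ B (n + 1)) ≃ₐ[k] ↥(K ⊔ B (n + 1)))
        ⟨c n, hL (hI.mem n)⟩ := by
    rw [hc', ← Finset.prod_mul_distrib]
    simp only [map_prod]
    rw [Finset.prod_comm]
    refine Finset.prod_congr rfl fun g _ => ?_
    rw [← map_mul, ← s2, map_prod]
    refine Finset.prod_congr rfl fun i _ => ?_
    rw [← AlgEquiv.mul_apply, ← AlgEquiv.mul_apply, cL']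
  have hcoe : ∀ (x y : ↥(K ⊔ B (n + 1))), ((x * y : ↥(K ⊔ B (n + 1))) : ℂ) = (x : ℂ) * (y : ℂ) :=
    fun x y => rfl
  rw [s1, s3, hcoe, pr2 ⟨C, hC⟩, pr1 ⟨c n, hI.mem n⟩, ← hc]

end Pool.Agent.MUXK


end

section

/-!
# MU3, block P: the number of primes above a prime number in `ℚ(ζ_(p^m))` is bounded (NPC)
-/

open NumberField Finset IsDedekindDomain
open scoped nonZeroDivisors Pointwise

namespace MU3

open _root_.Pool.Agent.RI _root_.Pool.Agent.RID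

namespace NPC

/-- the order of `ℓ` modulo `p ^ m` is at least `p ^ (m - c)` -/
theorem val_bd (p ℓ : ℕ) [hp : Fact p.Prime] (hl : ℓ.Prime) (hne : ℓ ≠ p) :
    ∃ c : ℕ, ∀ m d : ℕ, d ≠ 0 → p ^ m ∣ ℓ ^ d - 1 → p ^ m ≤ p ^ c * d := by
  have hpl : ¬ p ∣ ℓ := by
    intro h
    exact hne ((Nat.prime_dvd_prime_iff_eq hp.out hl).1 h).symm
  have hl1 : 1 < ℓ := hl.one_lt
  -- the last step
  have key : ∀ c m d : ℕ, d ≠ 0 → m ≤ c + padicValNat p d → p ^ m ≤ p ^ c * d := by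
    intro c m d hd hm
    have h1 : p ^ padicValNat p d ≤ d := Nat.le_of_dvd (Nat.pos_of_ne_zero hd) pow_padicValNat_dvd
    calc p ^ m ≤ p ^ (c + padicValNat p d) := Nat.pow_le_pow_right hp.out.pos hm
      _ = p ^ c * p ^ padicValNat p d := pow_add _ _ _
      _ ≤ p ^ c * d := Nat.mul_le_mul_left _ h1
  rcases hp.out.eq_two_or_odd' with h2 | hodd
  · subst h2
    refine ⟨padicValNat 2 (ℓ + 1) + padicValNat 2 (ℓ - 1), fun m d hd hdvd => ?_⟩
    apply key _ _ _ hd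
    have h1 := padicValNat.pow_two_sub_one hl1 hpl (n := 2 * d) (by omega) (even_two_mul d)
    have h3 : padicValNat 2 (2 * d) = 1 + padicValNat 2 d := by
      rw [padicValNat.mul (by norm_num) hd, padicValNat_self]
    have h4 : ℓ ^ d - 1 ∣ ℓ ^ (2 * d) - 1 := by
      have h5 := Nat.sub_dvd_pow_sub_pow (ℓ ^ d) 1 2
      rwa [one_pow, ← pow_mul, mul_comm d 2] at h5
    have h6 : ℓ ^ (2 * d) - 1 ≠ 0 :=
      Nat.sub_ne_zero_of_lt (Nat.one_lt_pow (by omega) hl1)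
    have h7 := (padicValNat_dvd_iff_le (p := 2) h6).1 (hdvd.trans h4)
    omega
  · have hp2 : 2 ≤ p := hp.out.two_le
    have hp1 : p - 1 ≠ 0 := by omega
    have hM1 : 1 < ℓ ^ (p - 1) := Nat.one_lt_pow hp1 hl1
    have hcop : Nat.Coprime ℓ p := (Nat.coprime_primes hl hp.out).2 hne
    have hM : p ∣ ℓ ^ (p - 1) - 1 := by
      have h1 := Nat.ModEq.pow_totient hcop
      rw [Nat.totient_prime hp.out] at h1
      exact (Nat.modEq_iff_dvd' hM1.le).1 h1.symm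
    have hMp : ¬ p ∣ ℓ ^ (p - 1) := fun h => hpl (hp.out.dvd_of_dvd_pow h)
    refine ⟨padicValNat p (ℓ ^ (p - 1) - 1), fun m d hd hdvd => ?_⟩
    apply key _ _ _ hd
    have h1 := padicValNat.pow_sub_pow hodd (x := ℓ ^ (p - 1)) (y := 1) hM1 hM hMp hd
    rw [one_pow] at h1
    have h4 : ℓ ^ d - 1 ∣ (ℓ ^ (p - 1)) ^ d - 1 := by
      have h5 := Nat.sub_dvd_pow_sub_pow (ℓ ^ d) 1 (p - 1)
      rwa [one_pow, ← pow_mul, mul_comm d (p - 1), pow_mul] at h5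
    have h6 : (ℓ ^ (p - 1)) ^ d - 1 ≠ 0 :=
      Nat.sub_ne_zero_of_lt (Nat.one_lt_pow hd hM1)
    have h7 := (padicValNat_dvd_iff_le (p := p) h6).1 (hdvd.trans h4)
    omega

/-- primes containing `ℓ` are primes over `ℓ` -/
theorem card_le (ℓ : ℕ) [hl : Fact ℓ.Prime] (C : Type) [Field C] [NumberField C] :
    Nat.card {v : HeightOneSpectrum (𝓞 C) // (ℓ : 𝓞 C) ∈ v.asIdeal} ≤
      ((Ideal.span {(ℓ : ℤ)}).primesOver (𝓞 C)).ncard := by
  have hmax : (Ideal.span {(ℓ : ℤ)}).IsMaximal := Int.ideal_span_isMaximal_of_prime ℓ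
  have hfin : Finite ((Ideal.span {(ℓ : ℤ)}).primesOver (𝓞 C)) :=
    Algebra.QuasiFinite.finite_primesOver _
  have hover : ∀ v : {v : HeightOneSpectrum (𝓞 C) // (ℓ : 𝓞 C) ∈ v.asIdeal},
      v.1.asIdeal ∈ (Ideal.span {(ℓ : ℤ)}).primesOver (𝓞 C) := by
    intro v
    refine ⟨v.1.isPrime, ⟨?_⟩⟩
    refine hmax.eq_of_le (v.1.isPrime.comap _).ne_top ?_
    rw [Ideal.span_singleton_le_iff_mem, Ideal.mem_comap]
    have h1 := v.2
    simpa using h1
  rw [← Nat.card_coe_set_eq]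
  refine Nat.card_le_card_of_injective
    (fun v => (⟨v.1.asIdeal, hover v⟩ : (Ideal.span {(ℓ : ℤ)}).primesOver (𝓞 C))) ?_
  intro v w h
  have h1 : v.1.asIdeal = w.1.asIdeal := congrArg Subtype.val h
  exact Subtype.ext (HeightOneSpectrum.ext h1)

/-- the fundamental identity for `ℚ(ζ_(p^m))` -/
theorem fund (p ℓ m : ℕ) [hp : Fact p.Prime] [hl : Fact ℓ.Prime] (C : Type) [Field C]
    [NumberField C] [IsCyclotomicExtension {p ^ m} ℚ C] :
    ((Ideal.span {(ℓ : ℤ)}).primesOver (𝓞 C)).ncard *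
      ((Ideal.span {(ℓ : ℤ)}).ramificationIdxIn (𝓞 C) *
        (Ideal.span {(ℓ : ℤ)}).inertiaDegIn (𝓞 C)) = (p ^ m).totient := by
  have : IsGalois ℚ C := IsCyclotomicExtension.isGalois {p ^ m} ℚ C
  have : NeZero (p ^ m) := ⟨pow_ne_zero m hp.out.ne_zero⟩
  have hmax : (Ideal.span {(ℓ : ℤ)}).IsMaximal := Int.ideal_span_isMaximal_of_prime ℓ
  have h_main := Ideal.ncard_primesOver_mul_ramificationIdxIn_mul_inertiaDegIn
    (Ideal.span {(ℓ : ℤ)}) (𝓞 C) Gal(C/ℚ)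
  rw [h_main, IsGaloisGroup.card_eq_finrank Gal(C/ℚ) ℚ C,
    IsCyclotomicExtension.Rat.finrank (p ^ m) C]

end NPC

open _root_.MU3.NPC

theorem p_NPC : P_NPC := by
  intro p ℓ hp hl
  have hlf : Fact ℓ.Prime := ⟨hl⟩
  by_cases hne : ℓ = p
  · subst hne
    refine ⟨1, fun m C _ _ _ => ?_⟩
    refine (card_le ℓ C).trans ?_
    rcases m with _ | k
    · have h1 := fund ℓ ℓ 0 C
      rw [pow_zero, Nat.totient_one] at h1
      exact (Nat.eq_one_of_mul_eq_one_right h1).le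
    · exact (IsCyclotomicExtension.Rat.ncard_primesOver_of_prime_pow ℓ k C).le
  · obtain ⟨c, hc⟩ := val_bd p ℓ hl hne
    refine ⟨p ^ c, fun m C _ _ _ => ?_⟩
    refine (card_le ℓ C).trans ?_
    have : NeZero (p ^ m) := ⟨pow_ne_zero m hp.out.ne_zero⟩
    have h1 := fund p ℓ m C
    have hnd : ¬ ℓ ∣ p ^ m := fun h =>
      hne ((Nat.prime_dvd_prime_iff_eq hl hp.out).1 (hl.dvd_of_dvd_pow h))
    rw [IsCyclotomicExtension.Rat.ramificationIdxIn_eq_of_not_dvd ℓ C hnd,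
      IsCyclotomicExtension.Rat.inertiaDegIn_eq_of_not_dvd ℓ C hnd, one_mul] at h1
    set f := orderOf (ℓ : ZMod (p ^ m)) with hf
    set g := ((Ideal.span {(ℓ : ℤ)}).primesOver (𝓞 C)).ncard with hg
    have hpos : 0 < (p ^ m).totient := Nat.totient_pos.2 (pow_pos hp.out.pos m)
    have hf0 : f ≠ 0 := by
      intro h
      rw [h, mul_zero] at h1
      omega
    have hdvd : p ^ m ∣ ℓ ^ f - 1 := by
      have h2 : ((ℓ ^ f : ℕ) : ZMod (p ^ m)) = ((1 : ℕ) : ZMod (p ^ m)) := by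
        push_cast
        exact pow_orderOf_eq_one _
      have h3 := (ZMod.natCast_eq_natCast_iff _ _ _).1 h2
      exact (Nat.modEq_iff_dvd' (Nat.one_le_pow _ _ hl.pos)).1 h3.symm
    have h2 := hc m f hf0 hdvd
    have h3 : (p ^ m).totient ≤ p ^ m := Nat.totient_le _
    have h4 : g * f ≤ p ^ c * f := by omega
    exact Nat.le_of_mul_le_mul_right h4 (Nat.pos_of_ne_zero hf0)

end MU3


end
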