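import Mathlib
import Pool.Agent.MVF.C044
import Pool.Agent.MVF.C049
import Pool.Agent.MVF.C078
import Pool.Agent.MVF.C084
import Pool.Agent.MVF.C088
import Pool.Agent.MVF.C092
import Pool.Agent.MVF.C103
import Pool.Agent.MVF.C104
import Pool.Agent.MVF.C105
import Pool.Agent.MVF.C106
import Pool.Agent.MVF.C107
import Pool.Agent.MVF.C108
import Pool.Agent.MVF.C109

/-! Parts: RID.P_HQ1, MU3.PX_SYL, MU3.PX_PEX, MU3.PX_H1P, MU3.PAll, MUX.J_DWN, MUX.J_DIR, MUX.JAll, VB.V_ABS, VB.V_TOW, VB.V_CYQ -/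

namespace Pool.Agent.MUXJ.DWN
end Pool.Agent.MUXJ.DWN
namespace Pool.Agent.VB.CYQ
end Pool.Agent.VB.CYQ

section

/-!
# Module HQ1: the Herbrand quotient does not change for subgroups of finite index
-/

namespace Pool.Agent.RID

namespace HQ1

/-- `[X : Y] = [f X : f Y] [ker f : Y ∩ ker f]`. -/
theorem index_eq {X : Type} [AddCommGroup X] (f : X →+ X) (Y : AddSubgroup X) :
    (Y.map f).relIndex f.range * (Y ⊓ f.ker).relIndex f.ker = Y.index := by
  rw [AddMonoidHom.range_eq_map, AddSubgroup.relIndex_map_map, top_sup_eq,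
    AddSubgroup.relIndex_top_right, AddSubgroup.inf_relIndex_right,
    ← AddSubgroup.relIndex_sup_left f.ker Y, mul_comm,
    AddSubgroup.relIndex_mul_index le_sup_left]

/-- `[ker f : h X] [h X : h Y] = [ker f : Y ∩ ker f] [Y ∩ ker f : h Y]`. -/
theorem chain {X : Type} [AddCommGroup X] (f h : X →+ X) (Y : AddSubgroup X)
    (hh : ∀ y ∈ Y, h y ∈ Y) (hfh : ∀ x, f (h x) = 0) :
    (Y.map h).relIndex h.range * h.range.relIndex f.ker =
      (Y.map h).relIndex (Y ⊓ f.ker) * (Y ⊓ f.ker).relIndex f.ker := by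
  have h1 : Y.map h ≤ h.range := by
    rw [AddMonoidHom.range_eq_map]
    exact AddSubgroup.map_mono le_top
  have h2 : h.range ≤ f.ker := by
    rintro _ ⟨x, rfl⟩
    exact hfh x
  have h3 : Y.map h ≤ Y ⊓ f.ker := by
    rintro _ ⟨y, hy, rfl⟩
    exact ⟨hh y hy, hfh y⟩
  rw [AddSubgroup.relIndex_mul_relIndex _ _ _ h1 h2,
    AddSubgroup.relIndex_mul_relIndex _ _ _ h3 inf_le_right]

end HQ1

theorem t_HQ1 : S_HQ1 := by
  intro X _ f h Y hY hf hh hfh hhf hne heq
  have e1 := HQ1.index_eq f Y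
  have e2 := HQ1.index_eq h Y
  have c1 := HQ1.chain f h Y hh hfh
  have c2 := HQ1.chain h f Y hf hhf
  rw [← heq] at c2
  set c := (Y.map h).relIndex (Y ⊓ f.ker) with hc
  set af := (Y.map f).relIndex f.range with haf
  set bf := (Y ⊓ f.ker).relIndex f.ker with hbf
  set ah := (Y.map h).relIndex h.range with hah
  set bh := (Y ⊓ h.ker).relIndex h.ker with hbh
  set qf := h.range.relIndex f.ker with hqf
  set qh := f.range.relIndex h.ker with hqh
  have haf0 : af ≠ 0 := by
    intro h0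
    rw [h0, zero_mul] at e1
    exact hY e1.symm
  have hbf0 : bf ≠ 0 := by
    intro h0
    rw [h0, mul_zero] at e1
    exact hY e1.symm
  have hah0 : ah ≠ 0 := by
    intro h0
    rw [h0, zero_mul] at e2
    exact hY e2.symm
  constructor
  · intro h0
    rw [h0, mul_zero] at c1
    rcases mul_eq_zero.1 c1.symm with h1 | h1
    · exact hne h1
    · exact hbf0 h1
  · have e : (af * ah) * qf = (af * ah) * qh := by
      calc (af * ah) * qf = af * (ah * qf) := by ring
        _ = af * (c * bf) := by rw [c1]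
        _ = c * (af * bf) := by ring
        _ = c * (ah * bh) := by rw [e1, e2]
        _ = ah * (c * bh) := by ring
        _ = ah * (af * qh) := by rw [c2]
        _ = (af * ah) * qh := by ring
    exact Nat.eq_of_mul_eq_mul_left (Nat.pos_of_ne_zero (mul_ne_zero haf0 hah0)) e

end Pool.Agent.RID


end

section

/-!
# MU3, block P: the fixed field of the Sylow subgroup of an abelian Galois group
-/

set_option autoImplicit false

open NumberField Finset IsDedekindDomain
open scoped nonZeroDivisors Pointwise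

namespace MU3

open _root_.Pool.Agent.RI _root_.Pool.Agent.RID

theorem p_SYL : P_SYL := by
  intro p hp k K _ h hgal hab
  have fdk : FiniteDimensional k (IntermediateField.extendScalars h) := by
    have h1 : FiniteDimensional ℚ (IntermediateField.extendScalars h) :=
      inferInstanceAs (FiniteDimensional ℚ K)
    exact Module.Finite.of_restrictScalars_finite ℚ k _
  obtain ⟨P⟩ : Nonempty (Sylow p (Gal((IntermediateField.extendScalars h)/k))) := inferInstance
  have hN : (P : Subgroup (Gal((IntermediateField.extendScalars h)/k))).Normal := by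
    constructor
    intro n hn g
    rw [hab g n, mul_inv_cancel_right]
    exact hn
  set L₀ : IntermediateField k (IntermediateField.extendScalars h) :=
    IntermediateField.fixedField (P : Subgroup (Gal((IntermediateField.extendScalars h)/k)))
    with hL₀
  have hg₀ : IsGalois k L₀ := IsGalois.of_fixedField_normal_subgroup _
  have hfree : Module.Free k L₀ := Module.Free.of_divisionRing k L₀
  have hfree' : Module.Free L₀ (IntermediateField.extendScalars h) :=
    Module.Free.of_divisionRing L₀ _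
  have hf₁ : Module.finrank L₀ (IntermediateField.extendScalars h) = Nat.card P := by
    rw [hL₀, IntermediateField.finrank_fixedField_eq_card]
  obtain ⟨a, ha⟩ := IsPGroup.iff_card.mp P.isPGroup'
  have hidx : (P : Subgroup (Gal((IntermediateField.extendScalars h)/k))).index =
      Module.finrank k L₀ := by
    have e1 := Module.finrank_mul_finrank k L₀ (IntermediateField.extendScalars h)
    have e2 := (P : Subgroup (Gal((IntermediateField.extendScalars h)/k))).card_mul_index
    rw [IsGalois.card_aut_eq_finrank, ← e1, hf₁, mul_comm] at e2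
    exact Nat.eq_of_mul_eq_mul_right (Nat.card_pos (α := P)) e2
  have hnd : ¬ p ∣ Module.finrank k L₀ := by
    rw [← hidx]
    exact P.not_dvd_index
  set M' : IntermediateField ℚ ℂ :=
    (IntermediateField.lift L₀).restrictScalars ℚ with hM'
  have h₁ : k ≤ M' := by
    intro x hx
    have : ((algebraMap k ℂ) ⟨x, hx⟩) ∈ IntermediateField.lift L₀ :=
      (IntermediateField.lift L₀).algebraMap_mem _
    exact this
  have h₂ : M' ≤ K := by
    intro x hx
    have : x ∈ IntermediateField.lift L₀ := hx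
    exact IntermediateField.lift_le L₀ this
  have he : IntermediateField.extendScalars h₁ = IntermediateField.lift L₀ := by
    ext x; rfl
  have hfM' : Module.finrank k (IntermediateField.extendScalars h₁) = Module.finrank k L₀ := by
    rw [he]
    exact (IntermediateField.liftAlgEquiv L₀).symm.toLinearEquiv.finrank_eq
  refine ⟨M', h₁, h₂, ?_, by rw [hfM']; exact hnd, ?_, a, ?_⟩
  · rw [he]
    exact IsGalois.of_algEquiv (IntermediateField.liftAlgEquiv L₀)
  · rw [← isGalois_algC]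
    rw [← isGalois_algC] at hgal
    let _ := algC h₁
    let _ := algC h₂
    let _ := algC h
    have : IsScalarTower k M' K := towerC h₁ h₂
    exact IsGalois.tower_top_of_isGalois k M' K
  · have e3 := CHIEF.finrank_mul h₁ h₂
    have e1 := Module.finrank_mul_finrank k L₀ (IntermediateField.extendScalars h)
    have e4 : Module.finrank k (IntermediateField.extendScalars h) =
      Module.finrank k (IntermediateField.extendScalars (h₁.trans h₂)) := rfl
    rw [hfM', ← e4, ← e1, hf₁] at e3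
    have hpos : 0 < Module.finrank k L₀ := Module.finrank_pos
    rw [Nat.eq_of_mul_eq_mul_left hpos e3]
    exact ha

end MU3


end

section

/-!
# MU3, PEX (helper69): Galois extensions of `p`-power degree
-/

open NumberField Finset IsDedekindDomain
open scoped nonZeroDivisors Pointwise

namespace MU3

open _root_.Pool.Agent.RI _root_.Pool.Agent.RID

namespace PX_PEX

theorem totCx_up {F M : IntermediateField ℚ ℂ} (h : F ≤ M) (hF : TotCx F) : TotCx M := by
  intro φ
  obtain ⟨x, hx⟩ := hF (φ.comp (IntermediateField.inclusion h : F →+* M))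
  exact ⟨IntermediateField.inclusion h x, hx⟩

theorem eq_of_finrank_one {F L : IntermediateField ℚ ℂ} (h : F ≤ L)
    (hd : Module.finrank F (IntermediateField.extendScalars h) = 1) : L = F := by
  rw [IntermediateField.finrank_eq_one_iff] at hd
  apply le_antisymm _ h
  intro x hx
  have hx' : x ∈ IntermediateField.extendScalars h := hx
  rw [hd, IntermediateField.mem_bot] at hx'
  obtain ⟨y, rfl⟩ := hx'
  exact y.2

theorem gal_top {F M L : IntermediateField ℚ ℂ} (h₁ : F ≤ M) (h₂ : M ≤ L)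
    (hg : IsGalois F (IntermediateField.extendScalars (h₁.trans h₂))) :
    IsGalois M (IntermediateField.extendScalars h₂) := by
  have g1 := (isGalois_algC (h₁.trans h₂)).2 hg
  let _ := algC h₁
  let _ := algC h₂
  let _ := algC (h₁.trans h₂)
  have g2 := towerC h₁ h₂
  have g3 : IsGalois M L := IsGalois.tower_top_of_isGalois F M L
  exact (isGalois_algC h₂).1 g3

end PX_PEX

theorem p_PEX (h1 : P_ONE) : P_PEX := by
  intro p a
  induction a with
  | zero =>
    intro _ F L _ B h _ hdeg _ _ _ hC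
    have hLF : L = F := PX_PEX.eq_of_finrank_one h (by rw [hdeg, pow_zero])
    subst hLF
    exact hC
  | succ a ih =>
    intro _ F L _ B h hG hdeg hT hB hm hC
    obtain ⟨M, h₁, h₂, hG', hd', hdM⟩ := CHIEF_thm p a F L h hG hdeg
    have : FiniteDimensional ℚ M := by
      exact FiniteDimensional.of_injective (IntermediateField.inclusion h₂).toLinearMap
        (IntermediateField.inclusion h₂).toRingHom.injective
    exact h1 p M L B h₂ (PX_PEX.gal_top h₁ h₂ hG) hdM (PX_PEX.totCx_up h₁ hT) hB hm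
      (ih F M B h₁ hG' hd' hT hB hm hC)

end MU3


end

section

/-!
# MU3, block P: module H1P
-/

open NumberField Finset IsDedekindDomain
open scoped nonZeroDivisors Pointwise

namespace MU3

open _root_.Pool.Agent.RI _root_.Pool.Agent.RID

namespace PX_H1P

/-- The abstract form. -/
lemma abs {A I G : Type} [CommGroup A] [CommGroup I] [Group G] [MulDistribMulAction G A]
    [MulDistribMulAction G I] (dv : A →* I) (g : G) (q : ℕ) (hq : g ^ q = 1)
    (hdv : ∀ x, dv (g • x) = g • dv x) (h90 : ∀ x : A, ng g q x = 1 → ∃ y, x = y / g • y) :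
    ((dg g : A →* A).ker.map dv).relIndex (dv.range ⊓ (dg g : I →* I).ker) =
      (dv.ker.map (dg g)).relIndex (dv.ker ⊓ (ng g q).ker) := by
  have hd : ∀ x, dv (dg g x) = dg g (dv x) := by
    intro x
    rw [dg_apply, dg_apply, map_div, hdv]
  set X : Subgroup A := (dg g : I →* I).ker.comap dv with hX
  have hmX : ∀ x, x ∈ X ↔ (dg g : I →* I) (dv x) = 1 := fun x => Iff.rfl
  have k1 : dv.ker ≤ X := by
    intro x hx
    rw [hmX, (MonoidHom.mem_ker).1 hx, map_one]
  have k2 : (dg g : A →* A).ker ≤ X := by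
    intro x hx
    rw [hmX, ← hd, (MonoidHom.mem_ker).1 hx, map_one]
  have m1 : X.map dv = dv.range ⊓ (dg g : I →* I).ker := Subgroup.map_comap_eq _ _
  have m2 : X.map (dg g) = dv.ker ⊓ (ng g q).ker := by
    apply le_antisymm
    · rintro _ ⟨x, hx, rfl⟩
      refine ⟨?_, ?_⟩
      · show dv (dg g x) = 1
        rw [hd]
        exact (hmX x).1 hx
      · exact ABS1.ng_dg g q hq x
    · rintro z ⟨hz1, hz2⟩
      obtain ⟨y, hy⟩ := h90 z hz2
      refine ⟨y, (hmX y).2 ?_, ?_⟩
      · rw [← hd, dg_apply, ← hy]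
        exact hz1
      · rw [dg_apply, ← hy]
  rw [← m1, ← m2, Subgroup.relIndex_map_map, Subgroup.relIndex_map_map, sup_eq_left.2 k1,
    sup_eq_left.2 k2, sup_comm]

end PX_H1P

/-- H1P. -/
theorem p_H1P (h1 : S_CYC) : P_H1P := by
  intro q K L _ _ _ _ _ g hg
  obtain ⟨-, -, -, h90, hfix, -, -, -, -, hKf, -⟩ := h1 K K L g q hg
  have hq : g ^ q = 1 := by
    rw [← hg.ord]
    exact pow_orderOf_eq_one g
  have e1 : (PI K).map (ext K L) = ((dg g : Lˣ →* Lˣ).ker).map (prin : Lˣ →* J L) := by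
    have hC : (dg g : Lˣ →* Lˣ).ker =
        (Units.map (algebraMap K L : K →* L) : Kˣ →* Lˣ).range := by
      apply le_antisymm
      · intro x hx
        exact hfix x ((mem_dg_ker g x).1 hx)
      · rintro _ ⟨c, rfl⟩
        exact (mem_dg_ker g _).2 (hKf c)
    rw [hC, MonoidHom.map_range, MonoidHom.map_range]
    congr 1
    ext1 c
    exact ext_prin K L c
  rw [e1]
  exact PX_H1P.abs (prin : Lˣ →* J L) g q hq (fun x => (smul_prin g x).symm) h90

end MU3


end

section

/-!
# MU3, block P: all 14 statements, without hypotheses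
-/

set_option autoImplicit false

namespace MU3

open _root_.Pool.Agent.RI _root_.Pool.Agent.RID

theorem u_HERBQ : S_HERBQ := t_HERBQ t_HQ1 (t_HQ3 t_HQ1 t_HQ2)
theorem u_HQE : P_HQE := p_HQE u_HERBQ t_RK1 t_RK2 t_RK3 t_CYC
theorem u_H1P : P_H1P := p_H1P t_CYC
theorem u_CHEV : P_CHEV := p_CHEV n_AMBA n_AMBI u_HQE u_H1P
theorem u_RKA : P_RKA := p_RKA (n_NILR n_NIL)
theorem u_NPC : P_NPC := p_NPC
theorem u_NPL : P_NPL := p_NPL u_NPC
theorem u_BAD : P_BAD := p_BAD
theorem u_RKE : P_RKE := p_RKE u_CHEV u_RKA u_NPL u_BAD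
theorem u_TOW : P_TOW := p_TOW
theorem u_LST : P_LST := p_LST n_STEP u_TOW
theorem u_REC : P_REC := p_REC
theorem u_ONE : P_ONE := p_ONE u_RKE u_LST u_REC
theorem u_PEX : P_PEX := p_PEX u_ONE
theorem u_SYL : P_SYL := p_SYL

end MU3


end

section

/-!
# MUX, block J: going down in an arbitrary extension (module DWN)
-/

set_option autoImplicit false

open NumberField IsDedekindDomain
open scoped nonZeroDivisors Pointwise

namespace Pool.Agent.MUXJ

open _root_.MU3 _root_.Pool.Agent.MU3 _root_.Pool.Agent.MU3A _root_.Pool.Agent.MU3B _root_.Pool.Agent.RI _root_.Pool.Agent.RID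
  _root_.Pool.Agent.MUX _root_.Pool.Agent.MUXK _root_.Pool.Agent.MUXE

namespace DWN

open _root_.Pool.Agent.MUXK.NRJ

/-- The norm on the fractional ideals, for an arbitrary extension. -/
theorem exists_norm (L M : Type) [Field L] [NumberField L] [Field M] [NumberField M]
    [Algebra L M] : ∃ N : J M →* J L,
      (∀ x : Mˣ, N (prin x) = prin (Units.map (Algebra.norm L : M →* L) x)) ∧
      ∀ (w : HeightOneSpectrum (𝓞 M)) (v : HeightOneSpectrum (𝓞 L)),
        w.asIdeal.under (𝓞 L) = v.asIdeal →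
        Nat.card (𝓞 M ⧸ w.asIdeal) = Nat.card (𝓞 L ⧸ v.asIdeal) → N (vJ w) = vJ v := by
  obtain ⟨N, hN⟩ := lift (jj M) (jj_inj M) (jj_surj M) ((jj L).comp (nn L M))
  refine ⟨N, ?_, ?_⟩
  · -- principal ideals
    intro x
    obtain ⟨a, b, hb, hab⟩ := IsFractionRing.div_surjective (A := 𝓞 M) (x : M)
    have hb0 : b ≠ 0 := nonZeroDivisors.ne_zero hb
    have hinj := FaithfulSMul.algebraMap_injective (𝓞 M) M
    have ha0 : a ≠ 0 := by
      rintro rfl
      rw [map_zero, zero_div] at hab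
      exact x.ne_zero hab.symm
    have key : ∀ c : 𝓞 M, ∀ hc : c ≠ 0, ∀ u : Mˣ, (u : M) = c →
        N (prin u) = prin (Units.map (Algebra.norm L : M →* L) u) := by
      intro c hc u hu
      rw [← jj_span M hc (span_mem M hc) u hu, hN]
      have hn : Algebra.intNorm (𝓞 L) (𝓞 M) c ≠ 0 := by
        intro h
        have h2 : ((Algebra.intNorm (𝓞 L) (𝓞 M) c : 𝓞 L) : L) = 0 := by rw [h]; rfl
        rw [intNorm_coe, Algebra.norm_eq_zero_iff] at h2
        exact u.ne_zero (hu.trans h2)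
      rw [← jj_span L hn (span_mem L hn) (Units.map (Algebra.norm L : M →* L) u)
        (by rw [intNorm_coe, ← hu]; rfl)]
      rw [MonoidHom.comp_apply]
      congr 1
      apply Subtype.ext
      rw [nn_coe]
      exact Ideal.relNorm_singleton (𝓞 L) c
    set ua : Mˣ := Units.mk0 ((a : 𝓞 M) : M) (fun h => ha0 (hinj (by
      rw [map_zero]; exact h))) with hua
    set ub : Mˣ := Units.mk0 ((b : 𝓞 M) : M) (fun h => hb0 (hinj (by
      rw [map_zero]; exact h))) with hub
    have hx : x = ua / ub := by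
      apply Units.ext
      rw [Units.val_div_eq_div_val]
      exact hab.symm
    rw [hx, map_div, map_div, key a ha0 ua rfl, key b hb0 ub rfl, ← map_div, ← map_div]
  · -- primes
    intro w v hwv hc
    have hlo : w.asIdeal.LiesOver v.asIdeal := ⟨hwv.symm⟩
    have hvp : v.asIdeal.IsPrime := v.isPrime
    have hwp : w.asIdeal.IsPrime := w.isPrime
    obtain ⟨f, hf⟩ := Ideal.exists_relNorm_eq_pow_of_isPrime w.asIdeal v.asIdeal
    have h1 : N (vJ w) = vJ v ^ f := by
      rw [vJ_eq, hN, vJ_eq, ← map_pow, MonoidHom.comp_apply]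
      congr 1
      apply Subtype.ext
      rw [nn_coe]
      exact hf
    have h2 : Ideal.absNorm (Ideal.relNorm (𝓞 L) w.asIdeal) = Ideal.absNorm w.asIdeal :=
      Ideal.absNorm_relNorm (𝓞 L) (𝓞 M) w.asIdeal
    rw [hf, map_pow, Ideal.absNorm_apply, Ideal.absNorm_apply, Submodule.cardQuot_apply,
      Submodule.cardQuot_apply, hc] at h2
    have h3 : 1 < Nat.card (𝓞 L ⧸ v.asIdeal) := by
      have h4 : Ideal.absNorm v.asIdeal ≠ 1 := by
        intro h
        exact hvp.ne_top (Ideal.absNorm_eq_one_iff.1 h)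
      have h5 : Ideal.absNorm v.asIdeal ≠ 0 := by
        intro h
        exact v.ne_bot (Ideal.absNorm_eq_zero_iff.1 h)
      rw [Ideal.absNorm_apply, Submodule.cardQuot_apply] at h4 h5
      omega
    have h6 : f = 1 := by
      have : Nat.card (𝓞 L ⧸ v.asIdeal) ^ f = Nat.card (𝓞 L ⧸ v.asIdeal) ^ 1 := by
        rw [pow_one]; exact h2
      exact Nat.pow_right_injective h3 this
    rw [h1, h6, pow_one]

/-- The class number. -/
theorem card_cl (K : Type) [Field K] [NumberField K] :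
    Nat.card (ClassGroup (𝓞 K)) = Nat.card (J K ⧸ (prin : Kˣ →* J K).range) :=
  Nat.card_congr (ClassGroup.equiv K).toEquiv

end DWN

open _root_.Pool.Agent.MUXJ.DWN in
/-- going down in an arbitrary extension -/
theorem t_DWN (h1 : S_NIX) : Sj_DWN := by
  intro p _ L M _ _ _ _ _
  obtain ⟨N, hN1, hN2⟩ := exists_norm L M
  set Q : Subgroup (J L) := (prin : Lˣ →* J L).range with hQ
  set R : Subgroup (J M) := (prin : Mˣ →* J M).range with hR
  set U : Subgroup (J L) := Q ⊔ N.range with hU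
  obtain ⟨hU0, hUd⟩ := h1 L M ∅ (by simp) U le_sup_left (by
    intro v q hq _ hv hab
    obtain ⟨w, hw, hwq⟩ := hab
    rw [← hN2 w v hw (by rw [hwq, hv])]
    exact (le_sup_right : N.range ≤ U) ⟨vJ w, rfl⟩)
  -- the homomorphism of the class groups
  let m : J L →* J L ⧸ Q := QuotientGroup.mk' Q
  have hker : R ≤ (m.comp N).ker := by
    rintro _ ⟨x, rfl⟩
    rw [MonoidHom.mem_ker, MonoidHom.comp_apply, hN1]
    exact (QuotientGroup.eq_one_iff _).2 ⟨_, rfl⟩
  let g : J M ⧸ R →* J L ⧸ Q := QuotientGroup.lift R (m.comp N) hker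
  have hrange : g.range = U.map m := by
    rw [hU, Subgroup.map_sup]
    have e1 : Q.map m = ⊥ := by
      rw [eq_bot_iff]
      rintro _ ⟨x, hx, rfl⟩
      exact (QuotientGroup.eq_one_iff _).2 hx
    rw [e1, bot_sup_eq]
    ext z
    constructor
    · rintro ⟨y, rfl⟩
      obtain ⟨x, rfl⟩ := QuotientGroup.mk'_surjective R y
      exact ⟨N x, ⟨x, rfl⟩, rfl⟩
    · rintro ⟨_, ⟨x, rfl⟩, rfl⟩
      exact ⟨QuotientGroup.mk' R x, rfl⟩
  have hcM := card_cl M
  have hcL := card_cl L
  have hfinL : Nat.card (ClassGroup (𝓞 L)) ≠ 0 := Nat.card_pos.ne'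
  have hfinM : Nat.card (ClassGroup (𝓞 M)) ≠ 0 := Nat.card_pos.ne'
  have hidx : (U.map m).index = U.index :=
    Subgroup.index_map_eq U (QuotientGroup.mk'_surjective Q) (by
      rw [QuotientGroup.ker_mk']
      exact le_sup_left)
  have hmul : Nat.card g.range * U.index = Nat.card (ClassGroup (𝓞 L)) := by
    rw [hcL, ← Subgroup.card_mul_index (U.map m), hidx, hrange]
  have hdvd : Nat.card g.range ∣ Nat.card (ClassGroup (𝓞 M)) := by
    rw [hcM]
    exact Subgroup.card_range_dvd g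
  have hg0 : Nat.card g.range ≠ 0 := by
    intro h0
    rw [h0, zero_mul] at hmul
    exact hfinL hmul.symm
  rw [← hmul, padicValNat.mul hg0 hU0]
  refine add_le_add ?_ ?_
  · exact (padicValNat_dvd_iff_le hfinM).1 (dvd_trans pow_padicValNat_dvd hdvd)
  · exact (padicValNat_le_nat_log _).trans (Nat.log_mono_right hUd)

end Pool.Agent.MUXJ


end

section

/-!
# MUX, block J, module DIR: a finite extension in the union of the ray class fields is in one of them
-/

set_option autoImplicit false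

open NumberField IsDedekindDomain
open scoped nonZeroDivisors Pointwise

namespace Pool.Agent.MUXJ

open _root_.MU3 _root_.Pool.Agent.MU3 _root_.Pool.Agent.MU3A _root_.Pool.Agent.MU3B _root_.Pool.Agent.RI _root_.Pool.Agent.RID
  _root_.Pool.Agent.MUX _root_.Pool.Agent.MUXK _root_.Pool.Agent.MUXE

noncomputable section

/-- JDIR. -/
theorem t_DIR : Sj_DIR := by
  intro A B hcq hT K _ hK
  let b := Module.finBasis ℚ K
  choose m hm0 hm using fun i => hK (b i) (b i).2
  have hR : RingE A B := te_RNG A B hcq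
  choose N hN0 hN using fun i => hR.pos (m i) (hm0 i)
  refine ⟨∏ i, N i, Finset.prod_ne_zero_iff.2 fun i _ => (hN0 i).ne', ?_⟩
  intro x hx
  have h1 : ((∑ i, b.repr ⟨x, hx⟩ i • b i : K) : ℂ) = x :=
    congrArg (Subtype.val) (b.sum_repr ⟨x, hx⟩)
  have h2 : x = ∑ i, ((b.repr ⟨x, hx⟩ i : ℚ) : ℂ) * ((b i : K) : ℂ) := by
    refine h1.symm.trans ?_
    rw [AddSubmonoidClass.coe_finsetSum]
    refine Finset.sum_congr rfl fun i _ => ?_
    rw [IntermediateField.coe_smul, Rat.smul_def]
  rw [h2]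
  refine sum_mem fun i _ => mul_mem (SubfieldClass.ratCast_mem _ _) ?_
  refine hT.mono (m i) (idl (∏ i, N i)) ?_ (hm i)
  rw [Ideal.span_singleton_le_iff_mem]
  obtain ⟨c, hc⟩ := Finset.dvd_prod_of_mem N (Finset.mem_univ i)
  rw [hc, Nat.cast_mul]
  exact (m i).mul_mem_right _ (hN i)

end

end Pool.Agent.MUXJ


end

section

/-! # Block J of the project MUX, assembled

`StJX.lean` states the field theory of the last glue; the files `J_*.lean` prove the statements. Here they are put
together: `j_X : Sj_X` without hypotheses, except for `j_FIN`, which takes the main theorem of block K. -/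

namespace Pool.Agent.MUXJ

open _root_.Pool.Agent.MUXK

theorem j_RES : Sj_RES := t_RES
theorem j_VEX : Sj_VEX := t_VEX
theorem j_UNH : Sj_UNH := t_UNH
theorem j_RAM : Sj_RAM := t_RAM
theorem j_INJ : Sj_INJ := t_INJ
theorem j_LAY : Sj_LAY := t_LAY
theorem j_ROT : Sj_ROT := t_ROT j_LAY
theorem j_LDX : Sj_LDX := t_LDX
theorem j_DIR : Sj_DIR := t_DIR
theorem j_GAL : Sj_GAL := t_GAL
theorem j_LEV : Sj_LEV := t_LEV
theorem j_SET : Sj_SET := t_SET j_DIR j_RAM j_INJ j_ROT j_LDX j_GAL j_LEV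
theorem j_UP : Sj_UP := t_UP
theorem j_DWN : Sj_DWN := t_DWN (t_NIX (t_IDX t_EPX))
theorem j_SUB : Sj_SUB := t_SUB j_DWN
theorem j_OMG : Sj_OMG := t_OMG j_DIR
theorem j_FLD : Sj_FLD := t_FLD
theorem j_FIN (h : S_MAINKX) : Sj_FIN :=
  t_FIN j_RES j_LAY j_DIR j_GAL j_SET j_UP j_SUB j_OMG j_FLD h MU3.u_SYL MU3.u_PEX

end Pool.Agent.MUXJ


end

section

/-!
# (ABS): an abelian group of exponent `p` with an automorphism (helper76)
-/

set_option autoImplicit false

namespace Pool.Agent.VB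

namespace ABSx

/-- `(S - 1)^(p^m) = S^(p^m) - 1` -/
lemma frob (p : ℕ) [Fact p.Prime] (V : Type) [AddCommGroup V] [Module (ZMod p) V]
    (S : Module.End (ZMod p) V) (m : ℕ) : (S - 1) ^ (p ^ m) = S ^ (p ^ m) - 1 := by
  have h : ((Polynomial.X : Polynomial (ZMod p)) - 1) ^ (p ^ m) =
      Polynomial.X ^ (p ^ m) - 1 := by
    have := sub_pow_char_pow (R := Polynomial (ZMod p)) (p := p)
      (Polynomial.X : Polynomial (ZMod p)) 1 (n := m)
    rw [this, one_pow]
  have h2 := congrArg (Polynomial.aeval S) h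
  simpa using h2

/-- the linear algebra -/
lemma lin (p : ℕ) [Fact p.Prime] (V : Type) [AddCommGroup V] [Module (ZMod p) V]
    (S : Module.End (ZMod p) V) (hloc : ∀ v, ∃ m : ℕ, (S ^ (p ^ m)) v = v) (n : ℕ)
    (hfin : Finite (LinearMap.ker ((S - 1) ^ (p ^ n))))
    (hlt : Nat.card (LinearMap.ker ((S - 1) ^ (p ^ n))) < 2 ^ (p ^ n)) :
    ∀ v, (S ^ (p ^ n)) v = v := by
  classical
  set N : Module.End (ZMod p) V := S - 1 with hN
  have hmono : ∀ i j : ℕ, i ≤ j → LinearMap.ker (N ^ i) ≤ LinearMap.ker (N ^ j) := by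
    intro i j hij x hx
    rw [LinearMap.mem_ker] at hx ⊢
    obtain ⟨k, rfl⟩ := Nat.exists_eq_add_of_le hij
    rw [add_comm, pow_add, Module.End.mul_apply, hx, map_zero]
  have hex : ∃ i < p ^ n, LinearMap.ker (N ^ i) = LinearMap.ker (N ^ (i + 1)) := by
    by_contra hc
    push Not at hc
    have hstep : ∀ i : ℕ, i ≤ p ^ n → i ≤ Module.finrank (ZMod p) (LinearMap.ker (N ^ i)) := by
      intro i
      induction i with
      | zero => intro _; exact Nat.zero_le _
      | succ i ih =>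
        intro hi
        have h1 := ih (by omega)
        have hlt' : LinearMap.ker (N ^ i) < LinearMap.ker (N ^ (i + 1)) :=
          lt_of_le_of_ne (hmono i (i + 1) (Nat.le_succ i)) (hc i (by omega))
        have hfin' : Finite (LinearMap.ker (N ^ (i + 1))) := by
          have hs : (LinearMap.ker (N ^ (i + 1)) : Set V) ⊆ LinearMap.ker (N ^ (p ^ n)) :=
            hmono (i + 1) (p ^ n) hi
          exact (Set.Finite.subset (Set.toFinite _) hs).to_subtype
        have hfd : FiniteDimensional (ZMod p) (LinearMap.ker (N ^ (i + 1))) :=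
          Module.Finite.of_finite
        have := Submodule.finrank_lt_finrank_of_lt hlt'
        omega
    have h1 := hstep (p ^ n) le_rfl
    have hcard := Module.natCard_eq_pow_finrank (K := ZMod p)
      (V := LinearMap.ker (N ^ (p ^ n)))
    rw [Nat.card_zmod] at hcard
    rw [hcard] at hlt
    have hp : 2 ≤ p := (Fact.out : p.Prime).two_le
    have h2 : 2 ^ (p ^ n) ≤ p ^ (Module.finrank (ZMod p) (LinearMap.ker (N ^ (p ^ n)))) :=
      (Nat.pow_le_pow_left hp _).trans (Nat.pow_le_pow_right (by omega) h1)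
    omega
  obtain ⟨i, hi, hker⟩ := hex
  intro v
  obtain ⟨m, hm⟩ := hloc v
  have h1 : v ∈ LinearMap.ker (N ^ (p ^ m)) := by
    rw [LinearMap.mem_ker, hN, frob, LinearMap.sub_apply, hm, Module.End.one_apply, sub_self]
  have h2 : v ∈ LinearMap.ker (N ^ (i + p ^ m)) := hmono _ _ (Nat.le_add_left _ _) h1
  rw [← Module.End.ker_pow_constant hker (p ^ m)] at h2
  have h3 : v ∈ LinearMap.ker (N ^ (p ^ n)) := hmono i _ hi.le h2
  rw [LinearMap.mem_ker, hN, frob, LinearMap.sub_apply, Module.End.one_apply, sub_eq_zero] at h3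
  exact h3

/-- the same for an additive homomorphism -/
lemma grpM (p : ℕ) [Fact p.Prime] (A : Type) [AddCommGroup A] [Module (ZMod p) A] (t : A →+ A)
    (hloc : ∀ x : A, ∃ m : ℕ, (⇑t)^[p ^ m] x = x) (n : ℕ)
    (L : Set A) (hL : ∀ x, x ∈ L ↔ (⇑t)^[p ^ n] x = x) (hL0 : Nat.card L ≠ 0)
    (hlt : Nat.card L < 2 ^ (p ^ n)) : ∀ x : A, (⇑t)^[p ^ n] x = x := by
  let S : Module.End (ZMod p) A := t.toZModLinearMap p
  have hS : ∀ (k : ℕ) (x : A), (S ^ k) x = (⇑t)^[k] x := by
    intro k
    induction k with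
    | zero => intro x; rfl
    | succ k ih =>
      intro x
      rw [pow_succ', Module.End.mul_apply, ih x, Function.iterate_succ_apply']
      rfl
  have hset : ∀ y : A, y ∈ LinearMap.ker ((S - 1) ^ (p ^ n)) ↔ y ∈ L := by
    intro y
    rw [LinearMap.mem_ker, frob, LinearMap.sub_apply, Module.End.one_apply, sub_eq_zero, hL, hS]
  have hcard : Nat.card (LinearMap.ker ((S - 1) ^ (p ^ n))) = Nat.card L :=
    Nat.card_congr
      { toFun := fun y => ⟨y.1, (hset y.1).1 y.2⟩
        invFun := fun y => ⟨y.1, (hset _).2 y.2⟩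
        left_inv := fun _ => rfl
        right_inv := fun _ => rfl }
  have hfin : Finite (LinearMap.ker ((S - 1) ^ (p ^ n))) :=
    Nat.finite_of_card_ne_zero (by rw [hcard]; exact hL0)
  have hall := lin p A S (by
      intro y
      obtain ⟨m, hm⟩ := hloc y
      exact ⟨m, by rw [hS, hm]⟩) n hfin (by rw [hcard]; exact hlt)
  intro x
  have h := hall x
  rwa [hS] at h

/-- the same for an additive group of exponent `p` -/
lemma grpA (p : ℕ) [Fact p.Prime] (A : Type) [AddCommGroup A] (t : A →+ A)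
    (hp0 : ∀ x : A, p • x = 0) (hloc : ∀ x : A, ∃ m : ℕ, (⇑t)^[p ^ m] x = x) (n : ℕ)
    (L : Set A) (hL : ∀ x, x ∈ L ↔ (⇑t)^[p ^ n] x = x) (hL0 : Nat.card L ≠ 0)
    (hlt : Nat.card L < 2 ^ (p ^ n)) : ∀ x : A, (⇑t)^[p ^ n] x = x :=
  @grpM p _ A _ (AddCommGroup.zmodModule hp0) t hloc n L hL hL0 hlt

/-- the same for a group of exponent `p` -/
lemma grp (p : ℕ) [Fact p.Prime] (Q : Type) [CommGroup Q] (t : Q →* Q) (hp : ∀ x : Q, x ^ p = 1)
    (hloc : ∀ x : Q, ∃ m : ℕ, (⇑t)^[p ^ m] x = x) (n : ℕ) (L : Subgroup Q)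
    (hL : ∀ x, x ∈ L ↔ (⇑t)^[p ^ n] x = x) (hL0 : Nat.card L ≠ 0)
    (hlt : Nat.card L < 2 ^ (p ^ n)) : ∀ x : Q, (⇑t)^[p ^ n] x = x :=
  grpA p (Additive Q) (MonoidHom.toAdditive t) hp hloc n (L : Set Q) hL hL0 hlt

end ABSx

theorem tb_ABS : Sb_ABS := by
  intro G _ p _ s D P hPD hsD hsP hDp hloc n K hK hK0 hlt
  classical
  -- the quotient and the induced maps
  let sD : D →* D := (s.comp D.subtype).codRestrict D fun x => hsD x x.2
  have hsDv : ∀ x : D, ((sD x : D) : G) = s x := fun _ => rfl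
  let P' : Subgroup D := P.subgroupOf D
  have hP' : P' ≤ P'.comap sD := by
    intro x hx
    rw [Subgroup.mem_comap]
    exact hsP _ hx
  let sQ : D ⧸ P' →* D ⧸ P' := QuotientGroup.map P' P' sD hP'
  have hsQ : ∀ x : D, sQ (QuotientGroup.mk x) = QuotientGroup.mk (sD x) := fun _ => rfl
  -- powers
  have hit : ∀ (k : ℕ) (x : G), x ∈ D → (⇑s)^[k] x ∈ D := by
    intro k
    induction k with
    | zero => intro x hx; exact hx
    | succ k ih =>
      intro x hx
      rw [Function.iterate_succ_apply']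
      exact hsD _ (ih x hx)
  have hS : ∀ (k : ℕ) (x : G) (hx : x ∈ D),
      (⇑sQ)^[k] (QuotientGroup.mk (⟨x, hx⟩ : D) : D ⧸ P') =
        (QuotientGroup.mk (⟨(⇑s)^[k] x, hit k x hx⟩ : D) : D ⧸ P') := by
    intro k
    induction k with
    | zero => intro x hx; rfl
    | succ k ih =>
      intro x hx
      rw [Function.iterate_succ_apply', ih x hx, hsQ]
      congr 1
      apply Subtype.ext
      rw [hsDv]
      show s ((⇑s)^[k] x) = (⇑s)^[k + 1] x
      rw [Function.iterate_succ_apply']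
  have hfix : ∀ (k : ℕ) (x : G) (hx : x ∈ D),
      (⇑sQ)^[k] (QuotientGroup.mk (⟨x, hx⟩ : D) : D ⧸ P') =
        (QuotientGroup.mk (⟨x, hx⟩ : D) : D ⧸ P') ↔ (⇑s)^[k] x / x ∈ P := by
    intro k x hx
    rw [hS k x hx]
    constructor
    · intro h1
      have h2 := QuotientGroup.eq.1 h1.symm
      have h3 : x⁻¹ * (⇑s)^[k] x ∈ P := h2
      rwa [div_eq_mul_inv, mul_comm]
    · intro h
      have h3 : x⁻¹ * (⇑s)^[k] x ∈ P := by rwa [div_eq_mul_inv, mul_comm] at h
      have h1 : (QuotientGroup.mk (⟨x, hx⟩ : D) : D ⧸ P') =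
          QuotientGroup.mk (⟨(⇑s)^[k] x, hit k x hx⟩ : D) := QuotientGroup.eq.2 h3
      exact h1.symm
  have hKD : K ≤ D := fun x hx => ((hK x).1 hx).1
  have hPK : P ≤ K := by
    intro x hx
    rw [hK]
    refine ⟨hPD hx, P.div_mem ?_ hx⟩
    have : ∀ k : ℕ, (⇑s)^[k] x ∈ P := by
      intro k
      induction k with
      | zero => exact hx
      | succ k ih => rw [Function.iterate_succ_apply']; exact hsP _ ih
    exact this _
  -- `K / P` is the kernel
  let f : K →* D ⧸ P' := (QuotientGroup.mk' P').comp (Subgroup.inclusion hKD)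
  have hfker : f.ker = P.subgroupOf K := by
    ext x
    rw [MonoidHom.mem_ker, Subgroup.mem_subgroupOf]
    show (QuotientGroup.mk (Subgroup.inclusion hKD x) : D ⧸ P') = 1 ↔ _
    rw [QuotientGroup.eq_one_iff]
    rfl
  have hcard : Nat.card f.range = P.relIndex K := by
    rw [← Subgroup.index_ker f, hfker]
    rfl
  have hset : ∀ y : D ⧸ P', y ∈ f.range ↔ (⇑sQ)^[p ^ n] y = y := by
    intro y
    obtain ⟨⟨x, hx⟩, rfl⟩ := QuotientGroup.mk_surjective y
    rw [hfix]
    constructor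
    · rintro ⟨⟨z, hz⟩, hz'⟩
      have h1 : (QuotientGroup.mk (⟨z, hKD hz⟩ : D) : D ⧸ P') = QuotientGroup.mk (⟨x, hx⟩ : D) :=
        hz'
      have h0 : (⟨z, hKD hz⟩ : D)⁻¹ * ⟨x, hx⟩ ∈ P' := QuotientGroup.eq.1 h1
      have h2 : z⁻¹ * x ∈ P := h0
      have h3 : x ∈ K := by
        have := K.mul_mem hz (hPK h2)
        rwa [mul_inv_cancel_left] at this
      exact ((hK x).1 h3).2
    · intro h
      exact ⟨⟨x, (hK x).2 ⟨hx, h⟩⟩, rfl⟩
  have hall := ABSx.grp p (D ⧸ P') sQ (by
      intro y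
      obtain ⟨x, rfl⟩ := QuotientGroup.mk_surjective y
      rw [← QuotientGroup.mk_pow, QuotientGroup.eq_one_iff]
      exact hDp x x.2) (by
      intro y
      obtain ⟨⟨x, hx⟩, rfl⟩ := QuotientGroup.mk_surjective y
      obtain ⟨m, hm⟩ := hloc x hx
      exact ⟨m, (hfix _ x hx).2 hm⟩) n f.range hset (by rw [hcard]; exact hK0)
      (by rw [hcard]; exact hlt)
  have hDK : D ≤ K := by
    intro x hx
    rw [hK]
    exact ⟨hx, (hfix _ x hx).1 (hall _)⟩
  rw [le_antisymm hDK hKD]
  exact hK0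

end Pool.Agent.VB


end

section

/-!
# TOW: the tower exists (helper99)
-/

set_option autoImplicit false

open NumberField

namespace Pool.Agent.VB

open _root_.Pool.Agent.RI

namespace TOWx

lemma mem_gal (B : IntermediateField ℚ ℂ) (h : IsGalois ℚ B) (σ : ℂ ≃+* ℂ) {x : ℂ}
    (hx : x ∈ B) : σ x ∈ B := by
  have key : ∀ a b : Algebra ℚ B, @IsGalois ℚ _ B _ a → @IsGalois ℚ _ B _ b := by
    intro a b h
    rw [Subsingleton.elim b a]
    exact h
  have h1 : @IsGalois ℚ _ B _ B.algebra' := key _ _ h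
  have h2 := @IsGalois.to_normal _ _ _ _ _ h1
  exact @LAY.mem_of_normal ℚ ℂ _ _ _ B h2
    (@RingHom.toRatAlgHom _ _ _ _ _ _ ((σ : ℂ →+* ℂ).comp (algebraMap B ℂ))) ⟨x, hx⟩

end TOWx

/-- (TOW) the tower exists -/
theorem tb_TOW (hDEG : Sb_DEG) (hGAM : Sb_GAM) (hTOT : Sb_TOT) (hCYQ : Sb_CYQ) : Sb_TOW := by
  intro p hp F hF B hB hmono hz
  have hLAY := fun n => LAY_thm p n (B n) (hB n)
  have hfdB : ∀ n, FiniteDimensional ℚ (B n) := fun n => (hLAY n).1
  have hfd : ∀ n, FiniteDimensional ℚ ↥(F ⊔ B n) := fun n => by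
    have := hfdB n
    exact IntermediateField.finiteDimensional_sup F (B n)
  obtain ⟨n₀, h0⟩ := hDEG p F B hB hmono
  obtain ⟨n₂, h2⟩ := hTOT p F B hB hmono
  have hdeg : ∀ j, Module.finrank ℚ ↥(F ⊔ B (max n₀ n₂ + j)) =
      Module.finrank ℚ ↥(F ⊔ B (max n₀ n₂)) * p ^ j := by
    intro j
    have h := h0 (max n₀ n₂) (max n₀ n₂ + j) (le_max_left _ _) (Nat.le_add_right _ _)
    rwa [Nat.add_sub_cancel_left] at h
  obtain ⟨γ, hγ1, hγ2⟩ := hGAM p F B hB hmono (max n₀ n₂) hdeg
  refine ⟨max n₀ n₂, γ, ⟨hfd, hfdB, hB, hmono, ?_, hz, hγ1, hγ2, hdeg, ?_, ?_⟩⟩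
  · intro n σ _ x hx
    exact TOWx.mem_gal (B n) (hLAY n).2.1 σ hx
  · intro V hV j m σ hσ
    exact h2 (max n₀ n₂ + j) (max n₀ n₂ + m)
      ((le_max_right _ _).trans (Nat.le_add_right _ _)) V hV σ hσ
  · intro V hV j m σ hσ hI
    exact fixes_sup (fixes_mono le_sup_left hσ)
      ((hCYQ p (max n₀ n₂ + m) (B (max n₀ n₂ + m)) (hB _) V).2 hV σ (fixes_bot σ)
        (inr_mono le_sup_right hI))

end Pool.Agent.VB


end

section

/-!
# VB, module CYQ (helper58): ramification in the layers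
-/

set_option autoImplicit false

open NumberField

namespace Pool.Agent.VB

open _root_.Pool.Agent.RI

noncomputable section

namespace CYQ

variable {V : ValuationSubring ℂ}

lemma mem_root {z : ℂ} {N : ℕ} (hN : N ≠ 0) (hz : z ^ N = 1) : z ∈ V := by
  rw [← V.valuation_le_one_iff]
  have h1 : V.valuation z ^ N = 1 := by rw [← map_pow, hz, map_one]
  exact ((pow_eq_one_iff_of_nonneg zero_le hN).1 h1).le

/-- roots of unity of `p`-power order are `1` in the residue field of characteristic `p` -/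
lemma sub_one {p : ℕ} (hp : p.Prime) (hV : (p : ℂ) ∈ V.nonunits) {z : ℂ} {m : ℕ}
    (hz : z ^ p ^ m = 1) : z - 1 ∈ V.nonunits := by
  have hzV : z ∈ V := mem_root (pow_ne_zero m hp.ne_zero) hz
  set z' : V := ⟨z, hzV⟩ with hz'
  have hzp : z' ^ p ^ m = 1 := Subtype.ext hz
  have hmem : ∀ x : V, (x : ℂ) ∈ V.nonunits ↔ x ∈ IsLocalRing.maximalIdeal V := fun x => by
    rw [IsLocalRing.mem_maximalIdeal]
    exact ValuationSubring.coe_mem_nonunits_iff
  have hp0 : ((p : ℕ) : IsLocalRing.ResidueField V) = 0 := by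
    have h1 : ((p : ℕ) : V) ∈ IsLocalRing.maximalIdeal V := by
      rw [← hmem]
      exact_mod_cast hV
    have h2 := (IsLocalRing.residue_eq_zero_iff ((p : ℕ) : V)).2 h1
    rwa [map_natCast] at h2
  have : CharP (IsLocalRing.ResidueField V) p := (CharP.charP_iff_prime_eq_zero hp).2 hp0
  have : Fact p.Prime := ⟨hp⟩
  have h3 : (IsLocalRing.residue V z' - 1) ^ p ^ m = 0 := by
    rw [sub_pow_char_pow, ← map_pow, hzp, map_one, one_pow, sub_self]
  have h4 : IsLocalRing.residue V (z' - 1) = 0 := by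
    rw [map_sub, map_one]
    exact pow_eq_zero_iff (pow_ne_zero m hp.ne_zero) |>.1 h3
  have h5 := (hmem (z' - 1)).2 ((IsLocalRing.residue_eq_zero_iff _).1 h4)
  exact h5

/-- a root of unity of `p`-power order which is `1` modulo `V.nonunits` is `1`, if `p` is a unit -/
lemma eq_one {p : ℕ} (hp : p.Prime) (hV : (p : ℂ) ∉ V.nonunits) {z : ℂ} {m : ℕ}
    (hz : z ^ p ^ m = 1) (h1 : z - 1 ∈ V.nonunits) : z = 1 := by
  have : Fact p.Prime := ⟨hp⟩
  by_contra hne
  obtain ⟨i, hi, ho⟩ := (Nat.dvd_prime_pow hp).1 (orderOf_dvd_of_pow_eq_one hz)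
  have hprim := IsPrimitiveRoot.orderOf z
  rw [ho] at hprim
  have hi0 : i ≠ 0 := by
    rintro rfl
    rw [pow_zero] at hprim
    exact hne (IsPrimitiveRoot.one_right_iff.1 hprim)
  obtain ⟨j, rfl⟩ : ∃ j, i = j + 1 := ⟨i - 1, by omega⟩
  have h2 := Polynomial.eval_one_cyclotomic_prime_pow (R := ℂ) (p := p) j
  rw [Polynomial.cyclotomic_eq_prod_X_sub_primitiveRoots hprim, Polynomial.eval_prod] at h2
  have hpos : 0 < p ^ (j + 1) := pow_pos hp.pos _
  have hmem : z ∈ primitiveRoots (p ^ (j + 1)) ℂ := (mem_primitiveRoots hpos).2 hprim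
  rw [← Finset.mul_prod_erase _ _ hmem] at h2
  apply hV
  rw [← h2, mul_comm]
  refine nonunits_mul ?_ ?_
  · refine prod_mem fun μ hμ => ?_
    rw [Polynomial.eval_sub, Polynomial.eval_X, Polynomial.eval_C]
    have h3 := (mem_primitiveRoots hpos).1 (Finset.mem_of_mem_erase hμ)
    exact V.sub_mem (V.one_mem) (mem_root hpos.ne' h3.pow_eq_one)
  · rw [Polynomial.eval_sub, Polynomial.eval_X, Polynomial.eval_C]
    have h4 : (1 : ℂ) - z = 0 - (z - 1) := by ring
    rw [h4]
    refine nonunits_sub ?_ h1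
    rw [ValuationSubring.mem_nonunits_iff, map_zero]
    exact zero_lt_one

/-- the cyclotomic field -/
def Cy (p m : ℕ) : IntermediateField ℚ ℂ := IntermediateField.adjoin ℚ {z : ℂ | z ^ (p ^ m) = 1}

lemma nrm_Cy (p m : ℕ) : Nrm ⊥ (Cy p m) := by
  intro σ _
  have h1 : Cy p m ≤ PreF σ (Cy p m) := by
    refine IntermediateField.adjoin_le_iff.2 fun z hz => ?_
    show σ z ∈ Cy p m
    refine IntermediateField.subset_adjoin _ _ ?_
    show (σ z) ^ p ^ m = 1
    have hz' : z ^ p ^ m = 1 := hz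
    rw [← map_pow, hz', map_one]
  exact fun x hx => h1 hx

lemma cyc (p m : ℕ) (hp : p.Prime) : IsCyclotomicExtension {p ^ m} ℚ (Cy p m) := by
  have hN : p ^ m ≠ 0 := pow_ne_zero m hp.ne_zero
  have h := IntermediateField.isCyclotomicExtension_adjoin_of_exists_isPrimitiveRoot
    ({p ^ m} : Set ℕ) ℚ ℂ (fun n hn _ => by
      rw [Set.mem_singleton_iff] at hn
      rw [hn]
      exact ⟨_, Complex.isPrimitiveRoot_exp _ hN⟩)
  have hset : {x : ℂ | ∃ n ∈ ({p ^ m} : Set ℕ), n ≠ 0 ∧ x ^ n = 1} = {z : ℂ | z ^ p ^ m = 1} := by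
    ext x
    simp [hp.ne_zero]
  rw [hset] at h
  exact h

end CYQ

open _root_.Pool.Agent.VB.CYQ in
theorem tb_CYQ (hF : Sb_FRC) (hM : Sb_MUL) : Sb_CYQ := by
  intro p n _ B hB V
  have hp : p.Prime := Fact.out
  obtain ⟨hfd, hgal, -⟩ := LAY_thm p n B hB
  obtain ⟨-, -, m, hle⟩ := hB
  have hN : p ^ m ≠ 0 := pow_ne_zero m hp.ne_zero
  have hcyc := _root_.Pool.Agent.VB.CYQ.cyc p m hp
  have hle' : B ≤ Cy p m := hle
  have : FiniteDimensional ℚ (Cy p m) := IsCyclotomicExtension.finiteDimensional {p ^ m} ℚ _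
  have hNB : Nrm ⊥ B := by
    intro σ _ x hx
    have hn : Normal ℚ B := hgal.to_normal
    have h1 := @LAY.mem_of_normal ℚ ℂ _ _ _ B hn
      (@RingHom.toRatAlgHom _ _ _ _ _ _ ((σ : ℂ →+* ℂ).comp (algebraMap B ℂ))) ⟨x, hx⟩
    exact h1
  constructor
  · intro hV σ
    refine inr_mono hle' ((hF (Cy p m) V).2 σ fun x => ?_)
    set ζ : ℂ := Complex.exp (2 * Real.pi * Complex.I / (p ^ m : ℕ)) with hζd
    have hζ : IsPrimitiveRoot ζ (p ^ m) := Complex.isPrimitiveRoot_exp _ hN
    have hζm : ζ ∈ Cy p m := IntermediateField.subset_adjoin _ _ hζ.pow_eq_one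
    have hζ' : IsPrimitiveRoot (⟨ζ, hζm⟩ : Cy p m) (p ^ m) :=
      IsPrimitiveRoot.of_map_of_injective (f := algebraMap (Cy p m) ℂ) hζ
        (algebraMap (Cy p m) ℂ).injective
    have hic := IsCyclotomicExtension.Rat.isIntegralClosure_adjoin_singleton_of_prime_pow
      (p := p) (k := m) hζ'
    have hxint : IsIntegral ℤ (x : Cy p m) := x.2
    obtain ⟨y, hy⟩ := hic.isIntegral_iff.1 hxint
    have key : ∀ y ∈ Algebra.adjoin ℤ {(⟨ζ, hζm⟩ : Cy p m)},
        ((y : Cy p m) : ℂ) ∈ V ∧ σ ((y : Cy p m) : ℂ) - ((y : Cy p m) : ℂ) ∈ V.nonunits := by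
      intro y hy
      induction hy using Algebra.adjoin_induction with
      | mem x hx =>
        rw [Set.mem_singleton_iff] at hx
        subst hx
        refine ⟨mem_root hN hζ.pow_eq_one, ?_⟩
        have h1 := sub_one hp hV hζ.pow_eq_one
        have h2 := sub_one (V := V) (m := m) hp hV (z := σ ζ) (by
          rw [← map_pow, hζ.pow_eq_one, map_one])
        have h3 : σ ζ - ζ = (σ ζ - 1) - (ζ - 1) := by ring
        show σ ζ - ζ ∈ V.nonunits
        rw [h3]
        exact nonunits_sub h2 h1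
      | algebraMap r =>
        have h1 : ((algebraMap ℤ (Cy p m) r : Cy p m) : ℂ) = (r : ℂ) := by
          rw [eq_intCast]
          push_cast
          rfl
        rw [h1, map_intCast, sub_self, ValuationSubring.mem_nonunits_iff, map_zero]
        exact ⟨intCast_mem V r, zero_lt_one⟩
      | add x y hx hy ihx ihy =>
        have h1 : ((x + y : Cy p m) : ℂ) = (x : ℂ) + (y : ℂ) := rfl
        rw [h1, map_add]
        refine ⟨V.add_mem _ _ ihx.1 ihy.1, ?_⟩
        have h2 : σ (x : ℂ) + σ (y : ℂ) - ((x : ℂ) + (y : ℂ)) =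
            (σ (x : ℂ) - x) + (σ (y : ℂ) - y) := by ring
        rw [h2]
        exact nonunits_add ihx.2 ihy.2
      | mul x y hx hy ihx ihy =>
        have h1 : ((x * y : Cy p m) : ℂ) = (x : ℂ) * (y : ℂ) := rfl
        rw [h1, map_mul]
        refine ⟨V.mul_mem _ _ ihx.1 ihy.1, ?_⟩
        have h2 : σ (x : ℂ) * σ (y : ℂ) - (x : ℂ) * (y : ℂ) =
            ((σ (x : ℂ) - x) + x) * (σ (y : ℂ) - y) + (y : ℂ) * (σ (x : ℂ) - x) := by ring
        rw [h2]
        exact nonunits_add (nonunits_mul (V.add_mem _ _ (nonunits_le ihx.2) ihx.1) ihy.2)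
          (nonunits_mul ihy.1 ihx.2)
    have h5 := (key _ y.2).2
    have h6 : ((y : Cy p m)) = (x : Cy p m) := hy
    rw [h6] at h5
    exact h5
  · intro hV
    refine (hM V ⊥ B (Cy p m) bot_le hle' hNB (nrm_Cy p m)).2 ?_
    intro σ _ hI
    rw [fixes_iff]
    refine IntermediateField.adjoin_le_iff.2 fun z hz => ?_
    show σ z = z
    have hz' : z ^ p ^ m = 1 := hz
    have hz0 : z ≠ 0 := by
      rintro rfl
      rw [zero_pow hN] at hz'
      exact zero_ne_one hz'
    have h1 := hI z (IntermediateField.subset_adjoin _ _ hz) (mem_root hN hz')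
    have hinv : z⁻¹ ∈ V := mem_root hN (by rw [inv_pow, hz', inv_one])
    have h2 : σ z * z⁻¹ - 1 = z⁻¹ * (σ z - z) := by
      field_simp
    have h3 : σ z * z⁻¹ - 1 ∈ V.nonunits := by
      rw [h2]
      exact nonunits_mul hinv h1
    have h4 := eq_one hp hV (z := σ z * z⁻¹) (m := m) (by
      rw [mul_pow, inv_pow, hz', inv_one, mul_one, ← map_pow, hz', map_one]) h3
    field_simp at h4
    exact h4

end

end Pool.Agent.VB


end
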