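import Mathlib
import Pool.Agent.MVF.C045
import Pool.Agent.MVF.C074

/-! Parts: ME.C_ZET, ME.CLib, ME.C_TRV, ME.C_PMF, ME.C_NRL, ME.C_FRO, ME.C_FRX, ME.C_EXA, ME.C_CHG, ME.C_ACT, MUX.W_ACM, MUX.W_TOW, MUX.W_THG, MUX.W_INV -/

namespace Pool.Agent.MEC.FRO
end Pool.Agent.MEC.FRO
namespace Pool.Agent.MEC.ZET
end Pool.Agent.MEC.ZET
namespace Pool.Agent.MUXW.ACM
end Pool.Agent.MUXW.ACM

section

/-!
# ME, block CE (port of `MUX/C_X.lean`), module ZET: roots of unity
-/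

set_option autoImplicit false

open Polynomial NumberField IsDedekindDomain

namespace Pool.Agent.MEC

open _root_.MU3 _root_.Pool.Agent.MU3A _root_.Pool.Agent.MU3B _root_.Pool.Agent.MUX _root_.Pool.Agent.MUXU _root_.Pool.Agent.RI
open _root_.Pool.Agent.ME
open _root_.Pool.Agent.MUXE (NL Sxe_RNG)
open _root_.Pool.Agent.MUXC (Sc_CLF Sc_COP Sc_TRO Sc_GEN Sc_ENO Sc_INV Sc_QCR Sc_QEX Sc_QNE Sc_ISL Sc_FEX
  Sc_RP1 Sc_RP2 Sc_RP3 Sc_REP Sc_DNX Sc_NMC)

noncomputable section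

namespace ZET

variable {A B : ℤ}

/-! ### Fields -/

lemma _root_.Pool.Agent.MEC.ZET.kk_fin (h : CQ A B) : FiniteDimensional ℚ (kk A B) := by
  apply IntermediateField.adjoin.finiteDimensional
  refine ⟨X ^ 2 - (C (B : ℚ) * X + C (A : ℚ)), ?_, ?_⟩
  · apply monic_X_pow_sub
    refine (degree_linear_le (a := (B : ℚ)) (b := (A : ℚ))).trans_lt ?_
    norm_num
  · have h1 := MUX.wC_sq h
    simp only [eval₂_sub, eval₂_pow, eval₂_X, eval₂_add, eval₂_mul, eval₂_C]
    rw [map_intCast, map_intCast]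
    linear_combination h1

/-- extension of embeddings -/
lemma ext_aut (hU : Su_AUE) (h : CQ A B) (F : IntermediateField (kk A B) ℂ)
    [FiniteDimensional (kk A B) F] (τ : F →+* ℂ) : ∃ σ : ℂ ≃+* ℂ, ∀ x : F, σ x = τ x := by
  have := _root_.Pool.Agent.MEC.ZET.kk_fin h
  have : FiniteDimensional ℚ F := FiniteDimensional.trans ℚ (kk A B) F
  have h1 : Algebra.IsAlgebraic ℚ F := inferInstance
  have h2 : Algebra.IsAlgebraic ℚ (F.restrictScalars ℚ) := h1
  exact hU (F.restrictScalars ℚ) h2 τ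

lemma fix_kk {s : ℂ ≃+* ℂ} (hs : FixK A B s) (x : ℂ) (hx : x ∈ kk A B) : s x = x := by
  induction hx using IntermediateField.adjoin_induction with
  | mem x hx =>
    rw [Set.mem_singleton_iff] at hx
    rw [hx]
    exact hs
  | algebraMap x => exact map_ratCast s x
  | add x y _ _ hx hy => rw [map_add, hx, hy]
  | inv x _ hx => rw [map_inv₀, hx]
  | mul x y _ _ hx hy => rw [map_mul, hx, hy]

/-- an automorphism which fixes `k` as an automorphism over `k` -/
def toAlg {s : ℂ ≃+* ℂ} (hs : FixK A B s) : ℂ ≃ₐ[kk A B] ℂ :=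
  AlgEquiv.ofRingEquiv (f := s) fun x => fix_kk hs x x.2

lemma wC_mem_kk : wC A B ∈ kk A B := IntermediateField.mem_adjoin_simple_self ℚ _

lemma _root_.Pool.Agent.MEC.ZET.wC_mem (F : IntermediateField (kk A B) ℂ) : wC A B ∈ F :=
  F.algebraMap_mem (⟨wC A B, wC_mem_kk⟩ : kk A B)

/-! ### Valuations -/

lemma v_nat {V : ValuationSubring ℂ} {q : ℕ} (hq : q.Prime) (hqV : V.valuation (q : ℂ) < 1)
    {M : ℕ} (hqM : ¬ q ∣ M) : ¬ V.valuation (M : ℂ) < 1 := by
  intro hMV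
  have hint : ∀ n : ℤ, V.valuation (n : ℂ) ≤ 1 := fun n =>
    (V.valuation_le_one_iff _).2 (intCast_mem V n)
  have hcop : Nat.Coprime q M := (hq.coprime_iff_not_dvd).2 hqM
  have h5 := Nat.gcd_eq_gcd_ab q M
  rw [hcop.gcd_eq_one] at h5
  have h6 : (1 : ℂ) = (q : ℂ) * ((Nat.gcdA q M : ℤ) : ℂ) + (M : ℂ) * ((Nat.gcdB q M : ℤ) : ℂ) := by
    have := congrArg (fun t : ℤ => (t : ℂ)) h5
    simpa using this
  have h7 : V.valuation (1 : ℂ) < 1 := by
    rw [h6]
    refine Valuation.map_add_lt _ ?_ ?_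
    · rw [map_mul]
      exact mul_lt_one_of_lt_of_le hqV (hint _)
    · rw [map_mul]
      exact mul_lt_one_of_lt_of_le hMV (hint _)
  rw [map_one] at h7
  exact lt_irrefl _ h7

lemma v_root {V : ValuationSubring ℂ} {M : ℕ} (hM : M ≠ 0) {z : ℂ} (hz : z ^ M = 1) :
    V.valuation z = 1 := by
  have h1 : (V.valuation z) ^ M = 1 := by rw [← map_pow, hz, map_one]
  exact (pow_eq_one_iff.1 h1).resolve_right hM

lemma root_one {V : ValuationSubring ℂ} {M : ℕ} (hM : M ≠ 0) {t : ℂ} (ht : t ^ M = 1)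
    (hv : V.valuation (t - 1) < 1) (hMV : ¬ V.valuation (M : ℂ) < 1) : t = 1 := by
  by_contra hne
  have h1 : (∑ i ∈ Finset.range M, t ^ i) * (t - 1) = 0 := by
    rw [geom_sum_mul, ht, sub_self]
  have h2 : ∑ i ∈ Finset.range M, t ^ i = 0 :=
    (mul_eq_zero.1 h1).resolve_right (sub_ne_zero.2 hne)
  apply hMV
  have h3 : (M : ℂ) = - ∑ i ∈ Finset.range M, (t ^ i - 1) := by
    rw [Finset.sum_sub_distrib, h2]
    simp
  have h4 : V.valuation t = 1 := v_root hM ht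
  rw [h3, Valuation.map_neg]
  have h5 : ∀ i ∈ Finset.range M, V.valuation (t ^ i - 1) < 1 := by
    intro i _
    have h6 : t ^ i - 1 = (t - 1) * ∑ j ∈ Finset.range i, t ^ j := (mul_geom_sum t i).symm
    rw [h6, map_mul]
    refine mul_lt_one_of_lt_of_le hv ?_
    refine Valuation.map_sum_le _ fun j _ => ?_
    rw [map_pow, h4, one_pow]
  exact Valuation.map_sum_lt _ one_ne_zero h5

lemma frob_root {V : ValuationSubring ℂ} {q M : ℕ} (hq : q.Prime)
    (hqV : V.valuation (q : ℂ) < 1) (hM : M ≠ 0) (hqM : ¬ q ∣ M) {z z' : ℂ} (hz : z ^ M = 1)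
    (hz' : z' ^ M = 1) (hv : V.valuation (z' - z ^ q) < 1) : z' = z ^ q := by
  have hz0 : z ≠ 0 := by
    rintro rfl
    rw [zero_pow hM] at hz
    exact zero_ne_one hz
  have hzq : z ^ q ≠ 0 := pow_ne_zero _ hz0
  have h1 : (z' / z ^ q) ^ M = 1 := by
    rw [div_pow, hz', ← pow_mul, mul_comm, pow_mul, hz, one_pow, div_one]
  have h2 : V.valuation (z' / z ^ q - 1) < 1 := by
    have h3 : z' / z ^ q - 1 = (z' - z ^ q) / z ^ q := by
      rw [sub_div, div_self hzq]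
    rw [h3, map_div₀, map_pow, v_root hM hz, one_pow, div_one]
    exact hv
  have h3 := root_one hM h1 h2 (v_nat hq hqV hqM)
  exact (div_eq_one_iff_eq hzq).1 h3

/-! ### Norms -/

lemma _root_.Pool.Agent.MEC.ZET.nI_sp_cong (h : CQ A B) {M : ℕ} {m : Ideal (OO A B)} (hmM : m ≤ idl M) {c : OO A B}
    (hc : c - 1 ∈ m) (hc0 : c ≠ 0) {z : ℂ} (hz : z ^ M = 1) : z ^ nI (sp c) = z := by
  have h1 : (M : OO A B) ∣ c - 1 := Ideal.mem_span_singleton.1 (hmM hc)
  have h2 := CYC.nm_cong M h1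
  have h3 : nm (1 : OO A B) = 1 := CYC.nm_one
  have h4 : nI (sp c) ≡ 1 [MOD M] := by
    rw [← Int.natCast_modEq_iff, MUX.nI_sp h hc0, Int.natCast_natAbs,
      abs_of_nonneg (MUX.nm_nonneg h c)]
    refine (Int.modEq_iff_dvd.2 ?_).symm
    rw [h3] at h2
    exact_mod_cast h2
  rw [pow_eq_pow_of_modEq h4 hz, pow_one]

lemma _root_.Pool.Agent.MEC.ZET.ne_top (h : CQ A B) {M : ℕ} {m : Ideal (OO A B)} (hmM : m ≤ idl M) (hM : M ≠ 1) :
    m ≠ ⊤ := by
  intro h1
  rw [h1, top_le_iff, Ideal.span_singleton_eq_top] at hmM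
  obtain ⟨u, hu⟩ := isUnit_iff_exists_inv.1 hmM
  have h2 := congrArg nm hu
  have h3 : nm ((M : ℕ) : OO A B) = (M : ℤ) ^ 2 := by
    have := nm_intCast (A := A) (B := B) (M : ℤ)
    rwa [Int.cast_natCast] at this
  rw [MUX.nm_mul h, h3, CYC.nm_one] at h2
  have h4 : (M : ℤ) ∣ 1 := ⟨M * nm u, by rw [← h2]; ring⟩
  have h5 : M ∣ 1 := by exact_mod_cast h4
  exact hM (Nat.dvd_one.1 h5)

/-! ### The action on all normalised lattices -/

/-- `s` acts on the points of level `m` as the ideal `a` -/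
def Good (m : Ideal (OO A B)) (s : ℂ ≃+* ℂ) (a : Ideal (OO A B)) : Prop :=
  ∀ (b : Ideal (OO A B)) (L : PeriodPair) (om : ℂ), IsNE b L om →
    ∃ (b' : Ideal (OO A B)) (L' : PeriodPair) (om' mu : ℂ), IsNE b' L' om' ∧
      _root_.Pool.Agent.ME.ActE s m a L L' mu

/-- the claim for `s` -/
def PP (m : Ideal (OO A B)) (z : ℂ) (s : ℂ ≃+* ℂ) : Prop :=
  ∃ a : Ideal (OO A B), Good m s a ∧ s z = z ^ nI a

lemma ActE.ne_bot (hQNE : Sc_QNE) (hQ : CQ A B) {m a b : Ideal (OO A B)} {s : ℂ ≃+* ℂ}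
    {L L' : PeriodPair} {om mu : ℂ} (hL : IsNE b L om) (h : _root_.Pool.Agent.ME.ActE s m a L L' mu) : a ≠ ⊥ :=
  (hQNE A B hQ a L L' mu (hL.toIsLI.hasCM hQ) h.isq).1

lemma Good.ne_bot (hQNE : Sc_QNE) (hQ : CQ A B) {m a b : Ideal (OO A B)} {s : ℂ ≃+* ℂ}
    {L : PeriodPair} {om : ℂ} (hL : IsNE b L om) (h : Good m s a) : a ≠ ⊥ := by
  obtain ⟨b', L', om', mu, -, h2⟩ := h b L om hL
  exact ActE.ne_bot hQNE hQ hL h2

lemma Good.mul (hCMP : Sc_CMP) (hQ : CQ A B) {m a b : Ideal (OO A B)} {s t : ℂ ≃+* ℂ}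
    (h1 : Good m s a) (h2 : Good m t b) : Good m (s.trans t) (a * b) := by
  intro c L om hL
  obtain ⟨c₁, L₁, om₁, mu, hL₁, h3⟩ := h1 c L om hL
  obtain ⟨c₂, L₂, om₂, nu, hL₂, h4⟩ := h2 c₁ L₁ om₁ hL₁
  exact ⟨c₂, L₂, om₂, nu * mu, hL₂, hCMP A B hQ m a b s t L L₁ L₂ mu nu h3 h4⟩

lemma PP.mul (hCMP : Sc_CMP) (hQNE : Sc_QNE) (hQ : CQ A B) {m b : Ideal (OO A B)}
    {L : PeriodPair} {om : ℂ} (hL : IsNE b L om) {z : ℂ} {s t : ℂ ≃+* ℂ} (h1 : PP m z s)
    (h2 : PP m z t) : PP m z (s.trans t) := by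
  obtain ⟨a, ha, ha'⟩ := h1
  obtain ⟨c, hc, hc'⟩ := h2
  refine ⟨a * c, ha.mul hCMP hQ hc, ?_⟩
  rw [RingEquiv.trans_apply, ha', map_pow, hc', ← pow_mul,
    MUX.nI_mul hQ (ha.ne_bot hQNE hQ hL) (hc.ne_bot hQNE hQ hL), mul_comm]

/-- an automorphism which is trivial on `RFE m` and fixes `z` -/
lemma PP.of_triv (hACT : Sc_ACT) (hTRV : Sc_TRV) (hQNE : Sc_QNE) (hE : CaseE A B) {M : ℕ}
    {m b : Ideal (OO A B)} (hm : m ≠ ⊥) (hmM : m ≤ idl M)
    {L : PeriodPair} {om : ℂ} (hL : IsNE b L om) {z : ℂ} (hz : z ^ M = 1) {s : ℂ ≃+* ℂ}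
    (hs : ∀ y ∈ (RFE m : IntermediateField (kk A B) ℂ), s y = y) (hsz : s z = z) : PP m z s := by
  have hQ : CQ A B := hE.toCQ
  have hfix : FixK A B s := hs _ (_root_.Pool.Agent.MEC.ZET.wC_mem _)
  obtain ⟨a, ha, hg⟩ := hACT A B hQ m hm s hfix
  obtain ⟨b', L', om', mu, hL', hact⟩ := hg b L om hL
  obtain ⟨c, hc, hac⟩ := (hTRV A B hE m a s b L L' om mu hm hfix hL hact hL'.nrm).2.1 hs
  have ha0 : a ≠ ⊥ := ActE.ne_bot hQNE hQ hL hact
  have hc0 : c ≠ 0 := by
    rintro rfl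
    apply ha0
    rw [hac]
    exact Ideal.span_singleton_eq_bot.2 rfl
  refine ⟨a, hg, ?_⟩
  rw [hac, _root_.Pool.Agent.MEC.ZET.nI_sp_cong hQ hmM hc hc0 hz, hsz]

/-- independence of the ideal -/
lemma _root_.Pool.Agent.MEC.ZET.indep (hUNQ : Sc_UNQ) (hNMC : Sc_NMC) (hNRL : Sc_NRL) (hQNE : Sc_QNE) (hCJN : Sc_CJN)
    (hE : CaseE A B) {M : ℕ} {m a b : Ideal (OO A B)} (hm : m ≠ ⊥) (hmt : m ≠ ⊤) (hM : M ≠ 0)
    (hmM : m ≤ idl M) {L L' : PeriodPair} {om mu : ℂ} (hL : IsNE b L om) {z : ℂ}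
    (hz : z ^ M = 1) {s : ℂ ≃+* ℂ} (hfix : FixK A B s) (h : PP m z s)
    (hact : _root_.Pool.Agent.ME.ActE s m a L L' mu) : s z = z ^ nI a := by
  have hQ : CQ A B := hE.toCQ
  obtain ⟨a₀, hg, ha₀⟩ := h
  obtain ⟨b₁, L₁, om₁, mu₁, hL₁, hact₁⟩ := hg b L om hL
  have hn := (hNRL A B hE m a s b L L' om mu hm hmt hfix hL hact).1
  obtain ⟨hlat, hxy⟩ := (hCJN A B hQ).2.2 L' L₁ hn hL₁.nrm (by rw [hact.kapE, hact₁.kapE])
  have hact2 : _root_.Pool.Agent.ME.ActE s m a L L₁ mu := by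
    refine ⟨hact₁.kapE, hact.cop, ⟨hact.isq.1, fun y => ?_⟩, fun y hy => ?_⟩
    · rw [← hlat]
      exact hact.isq.2 y
    · rcases hact.act y hy with ⟨h1, h2⟩ | ⟨h1, h2, h3, h4⟩
      · exact Or.inl ⟨h1, (hlat _).1 h2⟩
      · refine Or.inr ⟨h1, fun h5 => h2 ((hlat _).2 h5), ?_, ?_⟩
        · rw [h3, (hxy _).1]
        · rw [h4, (hxy _).2]
  obtain ⟨x, y, hxm, hx0, hy0, hxym, hxy2, -⟩ :=
    hUNQ A B hQ m a₀ a s L L₁ mu₁ mu hm ⟨b, om, hL⟩ hact₁ hact2
  have h5 := hNMC A B hQ M m a₀ a x y hM hmM (ActE.ne_bot hQNE hQ hL hact₁)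
    (ActE.ne_bot hQNE hQ hL hact2) hxm hx0 hy0 hxym hxy2
  rw [ha₀, pow_eq_pow_of_modEq h5 hz]

/-- the main step -/
lemma _root_.Pool.Agent.MEC.ZET.key (hFRO : Sc_FRO) (hDNX : Sc_DNX) (hFGL : Sc_FGL) (hACT : Sc_ACT) (hCMP : Sc_CMP)
    (hTRV : Sc_TRV) (hQNE : Sc_QNE) (hAUE : Su_AUE) (hE : CaseE A B) {M : ℕ}
    {m b : Ideal (OO A B)} (hm : m ≠ ⊥) (hM : M ≠ 0) (hmM : m ≤ idl M)
    {L : PeriodPair} {om : ℂ} (hL : IsNE b L om) {z : ℂ} (hz : z ^ M = 1) (s : ℂ ≃+* ℂ)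
    (hs : FixK A B s) : PP m z s := by
  have hQ : CQ A B := hE.toCQ
  obtain ⟨hf, hg, -⟩ := hFGL A B hQ m hm
  obtain ⟨hf', hn'⟩ := CYC.adj_gal (A := A) (B := B) hM hz
  set F := (RFE m ⊔ IntermediateField.adjoin (kk A B) {z} :
      IntermediateField (kk A B) ℂ) with hFdef
  have hF : (RFE m : IntermediateField (kk A B) ℂ) ≤ F := le_sup_left
  have hzF : z ∈ F := (le_sup_right : _ ≤ F) (IntermediateField.mem_adjoin_simple_self _ z)
  have : FiniteDimensional (kk A B) F := IntermediateField.finiteDimensional_sup _ _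
  have : Normal (kk A B) F := IntermediateField.normal_sup (kk A B) ℂ _ _
  have : IsGalois (kk A B) F := ⟨⟩
  obtain ⟨n₀, hn₀, hfro⟩ := hFRO A B hE
  let S : Submonoid (F ≃ₐ[kk A B] F) :=
    { carrier := {φ | ∀ s : ℂ ≃+* ℂ, (∀ x : F, s (x : ℂ) = (φ x : ℂ)) → PP m z s}
      one_mem' := by
        intro s hs
        refine PP.of_triv hACT hTRV hQNE hE hm hmM hL hz (fun y hy => ?_) ?_
        · exact hs ⟨y, hF hy⟩
        · exact hs ⟨z, hzF⟩
      mul_mem' := by
        intro φ ψ hφ hψ s hs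
        obtain ⟨t, ht⟩ := ext_aut hAUE hQ F ((algebraMap F ℂ).comp (ψ : F →+* F))
        have ht' : ∀ x : F, t (x : ℂ) = (ψ x : ℂ) := ht
        have h1 : PP m z t := hψ t ht'
        have h2 : PP m z (t.symm.trans s) := by
          apply hφ
          intro x
          have h3 : t.symm (x : ℂ) = ((ψ.symm x : F) : ℂ) := by
            rw [RingEquiv.symm_apply_eq, ht', AlgEquiv.apply_symm_apply]
          rw [RingEquiv.trans_apply, h3, hs, AlgEquiv.mul_apply, AlgEquiv.apply_symm_apply]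
        have h3 := h1.mul hCMP hQNE hQ hL h2
        have h4 : t.trans (t.symm.trans s) = s := by
          ext x
          simp
        rwa [h4] at h3 }
  let H : Subgroup (F ≃ₐ[kk A B] F) :=
    { S with
      inv_mem' := by
        intro s hs
        have hcard : s ^ (Nat.card (F ≃ₐ[kk A B] F)) = 1 := pow_card_eq_one'
        have hpos : 0 < Nat.card (F ≃ₐ[kk A B] F) := Nat.card_pos
        have h5 : s⁻¹ = s ^ (Nat.card (F ≃ₐ[kk A B] F) - 1) := by
          apply inv_eq_of_mul_eq_one_left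
          rw [← pow_succ, Nat.sub_add_cancel hpos, hcard]
        rw [h5]
        exact S.pow_mem hs _ }
  have hH : H = ⊤ := by
    apply hDNX A B hQ F H (n₀ * M * nI m)
      (mul_ne_zero (mul_ne_zero hn₀ hM) (MUX.nI_ne_zero hQ hm))
    intro Q q hq hQp hQq hqn V hV σ hσ
    change ∀ s : ℂ ≃+* ℂ, (∀ x : F, s (x : ℂ) = (σ x : ℂ)) → PP m z s
    intro s hs
    have h1 : ¬ q ∣ n₀ := fun h => hqn ((h.mul_right M).mul_right _)
    have h2 : ¬ q ∣ M := fun h => hqn ((h.mul_left n₀).mul_right _)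
    have h3 : ¬ q ∣ nI m := fun h => hqn (h.mul_left _)
    have hfix : FixK A B s := by
      have h4 := hs ⟨wC A B, _root_.Pool.Agent.MEC.ZET.wC_mem F⟩
      have h5 : σ ⟨wC A B, _root_.Pool.Agent.MEC.ZET.wC_mem F⟩ = ⟨wC A B, _root_.Pool.Agent.MEC.ZET.wC_mem F⟩ :=
        σ.commutes (⟨wC A B, wC_mem_kk⟩ : kk A B)
      rw [h5] at h4
      exact h4
    refine ⟨Q, ?_, ?_⟩
    · refine hfro m hm Q q hq hQq h1 h3 V hV s hfix ?_
      intro x hx hxV
      have h4 := hσ ⟨x, hF hx⟩ hxV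
      rw [← hs] at h4
      exact h4
    · rw [hQq]
      have hqV : V.valuation (q : ℂ) < 1 := by
        have hQ0 : Q ≠ ⊥ := by
          rintro rfl
          have h4 : nI (⊥ : Ideal (OO A B)) = 0 := by
            unfold nI
            have : Infinite (OO A B ⧸ (⊥ : Ideal (OO A B))) := by
              have h5 : Function.Injective
                  (fun n : ℕ => Ideal.Quotient.mk (⊥ : Ideal (OO A B)) ((n : ℕ) : OO A B)) := by
                intro x y hxy
                rw [Ideal.Quotient.eq, Ideal.mem_bot, sub_eq_zero] at hxy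
                have h6 := congrArg emb hxy
                rw [MUX.emb_natCast hQ, MUX.emb_natCast hQ] at h6
                exact_mod_cast h6
              exact Infinite.of_injective _ h5
            exact Nat.card_eq_zero_of_infinite
          rw [h4] at hQq
          exact hq.ne_zero hQq.symm
        have h4 : ((nI Q : ℕ) : OO A B) ∈ Q := MUX.nI_mem hQ hQ0
        rw [hQq] at h4
        have h5 := (hV _).2 h4
        rw [MUX.emb_natCast hQ, ValuationSubring.mem_nonunits_iff] at h5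
        exact h5
      have hzV : z ∈ V := by
        rw [← V.valuation_le_one_iff, v_root hM hz]
      have h4 := hσ ⟨z, hzF⟩ hzV
      rw [← hs] at h4
      refine frob_root hq hqV hM h2 hz ?_ h4
      rw [← map_pow, hz, map_one]
  have h1 : (toAlg hs).restrictNormal F ∈ H := by
    rw [hH]
    trivial
  refine h1 s ?_
  intro x
  exact (AlgEquiv.restrictNormal_commutes (toAlg hs) F x).symm

end ZET

open _root_.Pool.Agent.MEC.ZET in
theorem tc_ZET (hFRO : Sc_FRO) (hDNX : Sc_DNX) (hFGL : Sc_FGL) (hACT : Sc_ACT) (hCMP : Sc_CMP)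
    (hUNQ : Sc_UNQ) (hNMC : Sc_NMC) (hNRL : Sc_NRL) (hQNE : Sc_QNE) (hTRV : Sc_TRV)
    (hCJN : Sc_CJN) (hAUE : Su_AUE) (hAUF : Su_AUF) : Sc_ZET := by
  intro A B hE M m a σ b L L' om mu hm hσ hM hmM hL hact z hz
  have hQ : CQ A B := hE.toCQ
  rcases eq_or_ne M 1 with h1 | h1
  · subst h1
    rw [pow_one] at hz
    subst hz
    exact ⟨one_mem _, by rw [map_one, one_pow]⟩
  have hmt : m ≠ ⊤ := _root_.Pool.Agent.MEC.ZET.ne_top hQ hmM h1
  have hkey := fun s hs => _root_.Pool.Agent.MEC.ZET.key hFRO hDNX hFGL hACT hCMP hTRV hQNE hAUE hE hm hM hmM hL hz s hs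
  refine ⟨?_, _root_.Pool.Agent.MEC.ZET.indep hUNQ hNMC hNRL hQNE hCJN hE hm hmt hM hmM hL hz hσ (hkey σ hσ) hact⟩
  obtain ⟨hf, -, -⟩ := hFGL A B hQ m hm
  have := _root_.Pool.Agent.MEC.ZET.kk_fin hQ
  have : FiniteDimensional ℚ (RFE m : IntermediateField (kk A B) ℂ) :=
    FiniteDimensional.trans ℚ (kk A B) _
  have h2 : Algebra.IsAlgebraic ℚ (RFE m : IntermediateField (kk A B) ℂ) := inferInstance
  refine hAUF ((RFE m : IntermediateField (kk A B) ℂ).restrictScalars ℚ) h2 z ?_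
  intro s hs
  have hs' : ∀ y ∈ (RFE m : IntermediateField (kk A B) ℂ), s y = y := hs
  have hfix : FixK A B s := hs' _ (_root_.Pool.Agent.MEC.ZET.wC_mem _)
  obtain ⟨a₀, ha₀, hg⟩ := hACT A B hQ m hm s hfix
  obtain ⟨b₁, L₁, om₁, mu₁, hL₁, hact₁⟩ := hg b L om hL
  obtain ⟨c, hc, hac⟩ := (hTRV A B hE m a₀ s b L L₁ om mu₁ hm hfix hL hact₁ hL₁.nrm).2.1 hs'
  have ha0 : a₀ ≠ ⊥ := ZET.ActE.ne_bot hQNE hQ hL hact₁
  have hc0 : c ≠ 0 := by
    rintro rfl
    apply ha0
    rw [hac]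
    exact Ideal.span_singleton_eq_bot.2 rfl
  rw [_root_.Pool.Agent.MEC.ZET.indep hUNQ hNMC hNRL hQNE hCJN hE hm hmt hM hmM hL hz hfix (hkey s hfix) hact₁, hac,
    _root_.Pool.Agent.MEC.ZET.nI_sp_cong hQ hmM hc hc0 hz]

end

end Pool.Agent.MEC


end

section

/-!
# ME, block CE (helper58): library on the exceptional fields: the unit `w`, the points of order two, existence of normalised lattices
-/

set_option autoImplicit false

open Polynomial NumberField IsDedekindDomain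

namespace Pool.Agent.MEC

open _root_.MU3 _root_.Pool.Agent.MU3A _root_.Pool.Agent.MU3B _root_.Pool.Agent.MUX _root_.Pool.Agent.MUXU _root_.Pool.Agent.RI
open _root_.Pool.Agent.ME
open _root_.Pool.Agent.MUXE (NL Sxe_RNG)
open _root_.Pool.Agent.MUXC (Sc_CLF Sc_COP Sc_TRO Sc_GEN Sc_ENO Sc_INV Sc_QCR Sc_QEX Sc_QNE Sc_ISL Sc_FEX
  Sc_RP1 Sc_RP2 Sc_RP3 Sc_REP Sc_DNX Sc_NMC)

noncomputable section

variable {A B : ℤ} {L : PeriodPair}

lemma w_sq (h : CaseE A B) : wC A B ^ 2 = -1 + B * wC A B := by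
  have h1 := Pool.Agent.MUX.wC_sq h.toCQ
  rw [h.hA] at h1 ⊢
  push_cast at h1
  rw [sq, h1]

lemma w_ne (h : CaseE A B) : wC A B ≠ 0 := _root_.Pool.Agent.MUX.wC_ne_zero h.toCQ

lemma w_inv (h : CaseE A B) : ((B : ℂ) - wC A B) * wC A B = 1 := by
  linear_combination -w_sq h

/-- `w` preserves the lattices with multiplication by `O` -/
lemma w_iff (h : CaseE A B) (hL : HasCM A B L) (z : ℂ) :
    z ∈ L.lattice ↔ wC A B * z ∈ L.lattice := by
  constructor
  · intro hz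
    have h1 := hL ⟨0, 1⟩ z hz
    rwa [Pool.Agent.MUX.emb_w] at h1
  · intro hz
    have h1 := hL ⟨B, -1⟩ _ hz
    have h2 : emb (⟨B, -1⟩ : OO A B) = (B : ℂ) - wC A B := by
      simp [emb]
      ring
    rw [h2, ← mul_assoc, w_inv h, one_mul] at h1
    exact h1

lemma w_scal (h : CaseE A B) (hL : HasCM A B L) :
    (∀ z, L.weierstrassP (wC A B * z) = L.weierstrassP z / wC A B ^ 2) ∧
    (∀ z, L.derivWeierstrassP (wC A B * z) = L.derivWeierstrassP z / wC A B ^ 3) ∧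
    L.g₂ = L.g₂ / wC A B ^ 4 ∧ L.g₃ = L.g₃ / wC A B ^ 6 :=
  ta_SCP L L (wC A B) (w_ne h) (w_iff h hL)

/-- `g₃ = 0` for `D = -4`, `g₂ = 0` for `D = -3` -/
lemma g_zero (h : CaseE A B) (hL : HasCM A B L) :
    (B = 0 → L.g₃ = 0) ∧ (B = 1 → L.g₂ = 0) := by
  obtain ⟨-, -, g2, g3⟩ := w_scal h hL
  have hw := w_sq h
  have h0 := w_ne h
  constructor
  · rintro rfl
    have e : wC A 0 ^ 6 = -1 := by
      push_cast at hw
      rw [zero_mul, add_zero] at hw
      calc wC A 0 ^ 6 = (wC A 0 ^ 2) ^ 3 := by ring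
        _ = -1 := by rw [hw]; ring
    rw [e] at g3
    linear_combination (1 / 2) * g3
  · rintro rfl
    have hw' : wC A 1 ^ 2 = wC A 1 - 1 := by
      push_cast at hw
      linear_combination hw
    have e : wC A 1 ^ 4 = -wC A 1 := by
      linear_combination (wC A 1 ^ 2 + wC A 1) * hw'
    rw [e, eq_div_iff (neg_ne_zero.2 h0)] at g2
    have h1 : L.g₂ * (wC A 1 + 1) = 0 := by linear_combination -g2
    rcases mul_eq_zero.1 h1 with h2 | h2
    · exact h2
    · exfalso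
      have h3 : wC A 1 = -1 := by linear_combination h2
      rw [h3] at hw'
      norm_num at hw'

/-- existence -/
theorem nex (h : CaseE A B) (b : Ideal (OO A B)) (hb : b ≠ ⊥) :
    ∃ (L : PeriodPair) (om : ℂ), IsNE b L om := by
  have hC := h.toCQ
  obtain ⟨L₁, h1⟩ := Pool.Agent.MUX.exists_isLI hC hb (one_ne_zero (α := ℂ))
  have hcm := Pool.Agent.MUX.IsLI.hasCM hC h1
  obtain ⟨g0, g1⟩ := g_zero h hcm
  have hd := (b_DSC L₁).1
  have scale : ∀ (om : ℂ) (L₂ : PeriodPair), IsLI b L₂ om → om ≠ 0 →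
      ∀ u : ℂ, u ∈ L₁.lattice ↔ om * u ∈ L₂.lattice := by
    intro om L₂ h2 hom u
    rw [h1.mem, h2.mem]
    constructor
    · rintro ⟨x, hx, rfl⟩
      exact ⟨x, hx, by ring⟩
    · rintro ⟨x, hx, h⟩
      exact ⟨x, hx, by rw [one_mul]; exact mul_left_cancel₀ hom h⟩
  rcases h.hB with hB | hB
  · have hg3 := g0 hB
    have hg2 : L₁.g₂ ≠ 0 := by
      intro hz
      exact hd (by rw [hz, hg3]; ring)
    obtain ⟨om, hom⟩ := IsAlgClosed.exists_pow_nat_eq (L₁.g₂ / 4) (n := 4) (by norm_num)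
    have hom0 : om ≠ 0 := by
      rintro rfl
      rw [zero_pow (by norm_num)] at hom
      exact div_ne_zero hg2 (by norm_num) hom.symm
    obtain ⟨L, hL⟩ := Pool.Agent.MUX.exists_isLI hC hb hom0
    obtain ⟨-, -, g2, g3⟩ := ta_SCP L₁ L om hom0 (scale om L hL hom0)
    refine ⟨L, om, ⟨hL, ⟨?_, ?_⟩⟩⟩
    · rw [g2, hom]
      unfold g2E
      rw [if_pos hB]
      field_simp
    · rw [g3, hg3, zero_div]
      unfold g3E
      rw [if_pos hB]
  · have hg2 := g1 hB
    have hg3 : L₁.g₃ ≠ 0 := by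
      intro hz
      exact hd (by rw [hz, hg2]; ring)
    obtain ⟨om, hom⟩ := IsAlgClosed.exists_pow_nat_eq (-L₁.g₃ / 4) (n := 6) (by norm_num)
    have hom0 : om ≠ 0 := by
      rintro rfl
      rw [zero_pow (by norm_num)] at hom
      exact div_ne_zero (neg_ne_zero.2 hg3) (by norm_num) hom.symm
    have hB0 : B ≠ 0 := by omega
    obtain ⟨L, hL⟩ := Pool.Agent.MUX.exists_isLI hC hb hom0
    obtain ⟨-, -, g2, g3⟩ := ta_SCP L₁ L om hom0 (scale om L hL hom0)
    refine ⟨L, om, ⟨hL, ⟨?_, ?_⟩⟩⟩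
    · rw [g2, hg2, zero_div]
      unfold g2E
      rw [if_neg hB0]
    · rw [g3, hom]
      unfold g3E
      rw [if_neg hB0]
      field_simp

theorem tc_NEX : Sc_NEX := fun _ _ h b hb => nex h b hb

/-- the coordinates of the points of order two are in `k` -/
lemma tor2 (h : CaseE A B) (hL : NrmE A B L) {σ : ℂ ≃+* ℂ} (hσ : FixK A B σ) {z : ℂ}
    (h2 : 2 * z ∈ L.lattice) (hz : z ∉ L.lattice) : σ (xnE L z) = xnE L z := by
  have h0 := (b_ZER L z hz).2 h2
  have h1 := L.derivWeierstrassP_sq z hz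
  rw [h0, hL.g2, hL.g3] at h1
  have hw := w_sq h
  have hσw : σ (wC A B) = wC A B := hσ
  unfold xnE
  rcases h.hB with hB | hB
  · unfold g2E g3E at h1
    rw [if_pos hB, if_pos hB] at h1
    have h3 : L.weierstrassP z * (L.weierstrassP z - 1) * (L.weierstrassP z + 1) = 0 := by
      linear_combination -(1 / 4) * h1
    rcases mul_eq_zero.1 h3 with h4 | h4
    · rcases mul_eq_zero.1 h4 with h5 | h5
      · rw [h5, map_zero]
      · rw [sub_eq_zero.1 h5, map_one]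
    · rw [eq_neg_of_add_eq_zero_left h4, map_neg, map_one]
  · have hB0 : B ≠ 0 := by omega
    unfold g2E g3E at h1
    rw [if_neg hB0, if_neg hB0] at h1
    rw [hB] at hw hσw
    push_cast at hw
    have h3 : (L.weierstrassP z + 1) * (L.weierstrassP z - wC A 1) *
        (L.weierstrassP z - (1 - wC A 1)) = 0 := by
      linear_combination -(1 / 4) * h1 - (L.weierstrassP z + 1) * hw
    rcases mul_eq_zero.1 h3 with h4 | h4
    · rcases mul_eq_zero.1 h4 with h5 | h5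
      · rw [eq_neg_of_add_eq_zero_left h5, map_neg, map_one]
      · rw [sub_eq_zero.1 h5, hσw]
    · rw [sub_eq_zero.1 h4, map_sub, map_one, hσw]

lemma int_key {A B r s y z : ℤ} (hB : B = 0 ∨ B = 1) (hA : A = -1) (e1 : r = 1 + 2 * y)
    (e2 : s = 2 * z) (hn : 1 = r ^ 2 + B * r * s - A * s ^ 2) : s = 0 ∧ (r = 1 ∨ r = -1) := by
  subst hA
  have h3 : s = 0 := by
    by_contra hne
    have hz : z ≠ 0 := by
      rintro rfl
      exact hne (by rw [e2, mul_zero])
    have h5 : 0 < z ^ 2 := by have := pow_pos (abs_pos.2 hz) 2; rwa [sq_abs] at this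
    have h6 : s ^ 2 = 4 * z ^ 2 := by rw [e2]; ring
    rcases hB with rfl | rfl
    · nlinarith [sq_nonneg r]
    · nlinarith [sq_nonneg (2 * r + s)]
  refine ⟨h3, ?_⟩
  rw [h3] at hn
  have h4 : (r - 1) * (r + 1) = 0 := by linarith
  rcases mul_eq_zero.1 h4 with h5 | h5
  · left; linarith
  · right; linarith

/-- the units which are `1` modulo `2` -/
lemma unit_two (h : CaseE A B) {x : OO A B} (hx : IsUnit x) (h2 : x - 1 ∈ idl (A := A) (B := B) 2) :
    x = 1 ∨ x = -1 := by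
  have hC := h.toCQ
  have hn : nm x = 1 := by
    obtain ⟨y, hy⟩ := hx.exists_right_inv
    have e := nm_mul hC x y
    have e1 : nm (1 : OO A B) = 1 := by
      have := nm_intCast (A := A) (B := B) 1
      simpa using this
    rw [hy, e1] at e
    exact Int.eq_one_of_mul_eq_one_right (nm_nonneg hC x) e.symm
  obtain ⟨y, hy⟩ := Ideal.mem_span_singleton'.1 h2
  have hy' : x = 1 + (y + y) := by
    have : y * ((2 : ℕ) : OO A B) = y + y := by push_cast; ring
    rw [← this, hy]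
    ring
  have e1 : x.re = 1 + 2 * y.re := by
    rw [hy']
    change (1 : ℤ) + (y.re + y.re) = _
    ring
  have e2 : x.im = 2 * y.im := by
    rw [hy']
    change (0 : ℤ) + (y.im + y.im) = _
    ring
  have hnm : nm x = x.re ^ 2 + B * x.re * x.im - A * x.im ^ 2 := by
    simp [nm]
  rw [hn] at hnm
  obtain ⟨h3, h4 | h4⟩ := int_key h.hB h.hA e1 e2 hnm
  · left
    exact QuadraticAlgebra.ext h4 h3
  · right
    refine QuadraticAlgebra.ext h4 ?_
    rw [h3]
    rfl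

/-- `IsQ a L L mu` for a lattice with multiplication by `O`: `a = (c)`, `mu = c` -/
lemma isq_gen (hENO : Sc_ENO) (hINV : Sc_INV) (hQNE : Sc_QNE) (h : CQ A B)
    {a b : Ideal (OO A B)} {om mu : ℂ} (hL : IsLI b L om) (hq : IsQ a L L mu) :
    ∃ c : OO A B, mu = emb c ∧ a = sp c := by
  have hCM : HasCM A B L := hL.hasCM h
  obtain ⟨hane, hisg, -⟩ := hQNE A B h a L L mu hCM hq
  have hmu := hq.1
  obtain ⟨c, hc⟩ := hENO A B h b L om hL mu fun z hz => hisg z hz
  refine ⟨c, hc, ?_⟩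
  apply le_antisymm
  · intro y hy
    obtain ⟨t, ht⟩ := hENO A B h b L om hL (emb y / mu) (by
      intro l hl
      have h1 := (hq.2 (l / mu)).1 (by rwa [mul_div_cancel₀ _ hmu]) y hy
      have e : emb y / mu * l = emb y * (l / mu) := by ring
      rw [e]
      exact h1)
    have h2 : y = t * c := by
      apply _root_.Pool.Agent.MUX.emb_inj h
      rw [_root_.Pool.Agent.MUX.emb_mul h, ← ht, ← hc, div_mul_cancel₀ _ hmu]
    rw [h2]
    exact Ideal.mem_span_singleton'.2 ⟨t, rfl⟩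
  · rw [Ideal.span_singleton_le_iff_mem]
    refine hINV A B h b L om hL a hane c fun z hz => ?_
    rw [← hc]
    exact (hq.2 z).2 hz

end

end Pool.Agent.MEC


end

section

/-!
# ME, block CE (port of `MUX/C_X.lean`), module TRV: the field `triv` of `TorXE` (helper76)
-/

set_option autoImplicit false

open Polynomial NumberField IsDedekindDomain

namespace Pool.Agent.MEC

open _root_.MU3 _root_.Pool.Agent.MU3A _root_.Pool.Agent.MU3B _root_.Pool.Agent.MUX _root_.Pool.Agent.MUXU _root_.Pool.Agent.RI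
open _root_.Pool.Agent.ME
open _root_.Pool.Agent.MUXE (NL Sxe_RNG)
open _root_.Pool.Agent.MUXC (Sc_CLF Sc_COP Sc_TRO Sc_GEN Sc_ENO Sc_INV Sc_QCR Sc_QEX Sc_QNE Sc_ISL Sc_FEX
  Sc_RP1 Sc_RP2 Sc_RP3 Sc_REP Sc_DNX Sc_NMC)

noncomputable section

namespace TRV

/-- automorphisms of `ℂ` with `FixK` are trivial on `k` -/
lemma fix {A B : ℤ} {σ : ℂ ≃+* ℂ} (hσ : FixK A B σ) : ∀ y ∈ kk A B, σ y = y := by
  intro y hy
  induction hy using IntermediateField.adjoin_induction with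
  | mem x hx => rw [Set.mem_singleton_iff] at hx; rw [hx]; exact hσ
  | algebraMap x => simp
  | add x y _ _ hx hy => rw [map_add, hx, hy]
  | inv x _ hx => rw [map_inv₀, hx]
  | mul x y _ _ hx hy => rw [map_mul, hx, hy]

end TRV

theorem tc_TRV (hCJN : Sc_CJN) (hSGQ : Sc_SGQ) (hQNE : Sc_QNE) (hENO : Sc_ENO) (hINV : Sc_INV)
    (hGEN : Sc_GEN) (hIND : Sc_IND) : Sc_TRV := by
  intro A B hE m a σ b L L' om mu hm hσ hL hact hnrm
  have h : CQ A B := hE.toCQ
  have hCM : HasCM A B L := hL.toIsLI.hasCM h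
  obtain ⟨hane, -, -⟩ := hQNE A B h a L L' mu hCM hact.isq
  obtain ⟨cj1, -, -⟩ := hCJN A B h
  -- the action on any normalised lattice
  have step : ∀ (a : Ideal (OO A B)) (c₀ : Ideal (OO A B)) (M : PeriodPair) (omm : ℂ),
      IsNE c₀ M omm → ∀ (M' : PeriodPair) (nu : ℂ), NrmE A B M' → _root_.Pool.Agent.ME.ActE σ m a M M' nu →
      (∃ c : OO A B, nu = emb c ∧ a = sp c ∧ (m ≤ idl 2 → c - 1 ∈ idl (A := A) (B := B) 2)) ∧
      ∀ z, Tor m M z → z ∉ M.lattice → nu * z ∉ M.lattice ∧ σ (xnE M z) = xnE M (nu * z) := by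
    intro a c₀ M omm hM M' nu hM' hnu
    obtain ⟨hlat, -, hco⟩ := hSGQ A B M M' hM.nrm hM'
    have hCMM : HasCM A B M := hM.toIsLI.hasCM h
    have hq : IsQ a M M nu := ⟨hnu.isq.1, fun z => (hlat _).trans (hnu.isq.2 z)⟩
    obtain ⟨c, hc, hac⟩ := isq_gen hENO hINV hQNE h hM.toIsLI hq
    have hz : ∀ z, Tor m M z → z ∉ M.lattice → nu * z ∉ M.lattice ∧
        σ (xnE M z) = xnE M (nu * z) := by
      intro z hz hzM
      rcases hnu.act z hz with ⟨h1, -⟩ | ⟨-, h2, h3, -⟩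
      · exact absurd h1 hzM
      · exact ⟨fun h4 => h2 ((hlat _).1 h4), by rw [h3, (hco _).1]⟩
    refine ⟨⟨c, hc, hac, fun hm2 => ?_⟩, hz⟩
    have hne : (idl (A := A) (B := B) 2) ≠ ⊥ := by
      intro h0
      exact hm (le_bot_iff.1 (h0 ▸ hm2))
    refine hINV A B h c₀ M omm hM.toIsLI _ hne _ fun z hz2 => ?_
    by_cases hzM : z ∈ M.lattice
    · exact hCMM _ z hzM
    have h2z : 2 * z ∈ M.lattice := by
      have h5 := hz2 ((2 : ℕ) : OO A B) (Ideal.mem_span_singleton_self _)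
      rw [Pool.Agent.MUX.emb_natCast h] at h5
      exact_mod_cast h5
    obtain ⟨h6, h7⟩ := hz z (Tor.mono hm2 hz2) hzM
    rw [tor2 hE hM.nrm hσ h2z hzM] at h7
    have h8 : M.weierstrassP (nu * z) = M.weierstrassP z := h7.symm
    rw [Pool.Agent.MUX.emb_sub h, Pool.Agent.MUX.emb_one h, ← hc, sub_mul, one_mul]
    rcases b_NEQ M z (nu * z) hzM h6 h8 with h9 | h9
    · exact h9
    · have e : nu * z - z = (nu * z + z) - 2 * z := by ring
      rw [e]
      exact sub_mem h9 h2z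
  refine ⟨(step a b L om hL L' mu hnrm hact).1, ?_, ?_⟩
  · intro hfix
    obtain ⟨⟨c, hc, hasp, -⟩, hz⟩ := step a b L om hL L' mu hnrm hact
    obtain ⟨u, hu, huL, -⟩ := hGEN A B h b m L om hL.toIsLI hm
    by_cases hu0 : u ∈ L.lattice
    · have h1 : (1 : OO A B) ∈ m := (huL 1).1 (by rwa [Pool.Agent.MUX.emb_one h, one_mul])
      exact ⟨c, by rw [(Ideal.eq_top_iff_one m).2 h1]; trivial, hasp⟩
    · obtain ⟨h7, h3⟩ := hz u hu hu0
      have h4 : σ (xnE L u) = xnE L u :=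
        hfix _ (IntermediateField.subset_adjoin _ _ ⟨b, L, om, hL, Or.inr ⟨u, hu, hu0, rfl⟩⟩)
      have h6 : L.weierstrassP (mu * u) = L.weierstrassP u := (h4.symm.trans h3).symm
      rcases b_NEQ L u (mu * u) hu0 h7 h6 with h8 | h8
      · refine ⟨c, (huL _).1 ?_, hasp⟩
        rw [Pool.Agent.MUX.emb_sub h, Pool.Agent.MUX.emb_one h, ← hc, sub_mul, one_mul]
        exact h8
      · refine ⟨-c, ?_, ?_⟩
        · have h9 : c + 1 ∈ m := by
            refine (huL _).1 ?_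
            rw [Pool.Agent.MUX.emb_add h, Pool.Agent.MUX.emb_one h, ← hc, add_mul, one_mul]
            exact h8
          have e : -c - 1 = -(c + 1) := by ring
          rw [e]
          exact neg_mem h9
        · rw [hasp]
          exact (Ideal.span_singleton_neg c).symm
  · rintro hm2 ⟨c, hcm, rfl⟩
    have hdom : IsDomain (OO A B) := isDomain h
    have hc0 : c ≠ 0 := by
      rintro rfl
      exact hane (Ideal.span_singleton_eq_bot.2 rfl)
    obtain ⟨-, b₁, L₁, om₁, hL₁, -, hkap₁⟩ := cj1 σ hσ b L om hL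
    have hL' : IsNE b₁ L' om₁ := by
      obtain ⟨hlat, -⟩ := hSGQ A B L' L₁ hnrm hL₁.nrm
      exact ⟨⟨hL₁.b_ne, hL₁.om_ne, fun z => (hlat z).trans (hL₁.mem z)⟩, hnrm⟩
    have key : ∀ (c₀ : Ideal (OO A B)) (M : PeriodPair) (omm : ℂ), IsNE c₀ M omm →
        σ (kapE M) = kapE M ∧ ∀ z, Tor m M z → z ∉ M.lattice → σ (xnE M z) = xnE M z := by
      intro c₀ M omm hM
      refine ⟨CJN.sig_kap σ hM.nrm, fun z hz hzM => ?_⟩
      have hCMM : HasCM A B M := hM.toIsLI.hasCM h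
      obtain ⟨-, c₁, M', omm', hM', -, hkapM⟩ := cj1 σ hσ c₀ M omm hM
      obtain ⟨nu, hnu⟩ := hIND A B h σ hσ m (sp c) b b₁ c₀ c₁ L L' M M' om om₁ omm omm' mu hm hL
        hL' hM hM' hact hkapM
      obtain ⟨⟨c', hc', hcc, h2c⟩, h3⟩ := step (sp c) c₀ M omm hM M' nu hM'.nrm hnu
      rcases hm2 with hm2 | hm2
      · have h4 := h2c hm2
        obtain ⟨x, hx⟩ := Ideal.span_singleton_eq_span_singleton.1 hcc
        have h5 : ((x : OO A B)) - 1 ∈ idl (A := A) (B := B) 2 := by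
          have h6 : (x : OO A B) * (c - 1) ∈ idl (A := A) (B := B) 2 :=
            Ideal.mul_mem_left _ _ (hm2 hcm)
          have h7 : (x : OO A B) - 1 = (c' - 1) - (x : OO A B) * (c - 1) := by
            rw [← hx]
            ring
          rw [h7]
          exact sub_mem h4 h6
        obtain ⟨-, h9⟩ := h3 z hz hzM
        have hcz : emb (c - 1) * z ∈ M.lattice := hz _ hcm
        have h10 : emb c * z = z + emb (c - 1) * z := by
          rw [Pool.Agent.MUX.emb_sub h, Pool.Agent.MUX.emb_one h]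
          ring
        have h11 : M.weierstrassP (z + emb (c - 1) * z) = M.weierstrassP z :=
          M.weierstrassP_add_coe z ⟨_, hcz⟩
        rw [h9, hc', ← hx]
        rcases unit_two hE x.isUnit h5 with h8 | h8
        · rw [h8, mul_one, h10, xnE, xnE, h11]
        · have e : c * (-1 : OO A B) = -c := by ring
          rw [h8, e, Pool.Agent.MUX.emb_neg h, neg_mul, h10, xnE, xnE, M.weierstrassP_neg, h11]
      · exfalso
        rw [hm2] at hz
        exact hzM ((tor_top h hCMM).1 hz)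
    intro y hy
    induction hy using IntermediateField.adjoin_induction with
    | mem x hx =>
      obtain ⟨c₀, M, omm, hM, rfl | ⟨z, hz, hzM, rfl⟩⟩ := hx
      · exact (key c₀ M omm hM).1
      · exact (key c₀ M omm hM).2 z hz hzM
    | algebraMap x => exact TRV.fix hσ _ x.2
    | add x y _ _ hx hy => rw [map_add, hx, hy]
    | inv x _ hx => rw [map_inv₀, hx]
    | mul x y _ _ hx hy => rw [map_mul, hx, hy]

end

end Pool.Agent.MEC


end

section

/-!
# ME, block CE (port of `MUX/C_X.lean`), module PMF: `PME` in terms of `Φ` (helper72)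
-/

set_option autoImplicit false

namespace Pool.Agent.MEC

open _root_.Pool.Agent.ME
open _root_.Pool.Agent.MUXC (Sc_CLF Sc_COP Sc_TRO Sc_GEN Sc_ENO Sc_INV Sc_QCR Sc_QEX Sc_QNE Sc_ISL Sc_FEX
  Sc_RP1 Sc_RP2 Sc_RP3 Sc_REP Sc_DNX Sc_NMC)
open _root_.MU3 _root_.Pool.Agent.MU3A _root_.Pool.Agent.MU3B _root_.Pool.Agent.MUX _root_.Pool.Agent.MUXU

theorem tc_PMF (hEQP : Su_EQP) : Sc_PMF := by
  intro σ L L' Φ hΦ z z'
  have hxn : ∀ z, z ∉ L.lattice → xnE L' (Φ z) = σ (xnE L z) := by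
    intro z hz
    unfold xnE
    rw [hΦ.P z hz]
  have hyy : ∀ z, z ∉ L.lattice → yy L' (Φ z) = σ (yy L z) := by
    intro z hz
    unfold yy
    rw [hΦ.P' z hz, map_div₀, map_ofNat]
  by_cases hz : z ∈ L.lattice
  · have hΦz : Φ z ∈ L'.lattice := (hΦ.mem z).2 hz
    constructor
    · rintro (⟨-, h⟩ | ⟨h, -⟩)
      · exact sub_mem hΦz h
      · exact absurd hz h
    · intro h
      left
      refine ⟨hz, ?_⟩
      have e : z' = Φ z - (Φ z - z') := by ring
      rw [e]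
      exact sub_mem hΦz h
  · have hΦz : Φ z ∉ L'.lattice := fun h => hz ((hΦ.mem z).1 h)
    constructor
    · rintro (⟨h, -⟩ | ⟨-, hz', hx, hy⟩)
      · exact absurd h hz
      · apply hEQP L' (Φ z) z' hΦz hz'
        · have h1 : xnE L' (Φ z) = xnE L' z' := by rw [hxn z hz, hx]
          unfold xnE at h1
          exact h1
        · have h1 : yy L' (Φ z) = yy L' z' := by rw [hyy z hz, hy]
          unfold yy at h1
          linear_combination 2 * h1
    · intro h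
      have e : z' = Φ z - (Φ z - z') := by ring
      have hz' : z' ∉ L'.lattice := by
        intro h'
        apply hΦz
        have e2 : Φ z = (Φ z - z') + z' := by ring
        rw [e2]
        exact add_mem h h'
      right
      refine ⟨hz, hz', ?_, ?_⟩
      · rw [← hxn z hz, e]
        unfold xnE
        rw [L'.weierstrassP_sub_coe (Φ z) ⟨Φ z - z', h⟩]
      · rw [← hyy z hz, e]
        unfold yy
        rw [L'.derivWeierstrassP_sub_coe (Φ z) ⟨Φ z - z', h⟩]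

end Pool.Agent.MEC


end

section

/-!
# ME, block CE (port of `MUX/C_X.lean`), module NRL: the conjugate lattice is normalised
-/

set_option autoImplicit false

open Polynomial NumberField IsDedekindDomain

namespace Pool.Agent.MEC

open _root_.MU3 _root_.Pool.Agent.MU3A _root_.Pool.Agent.MU3B _root_.Pool.Agent.MUX _root_.Pool.Agent.MUXU _root_.Pool.Agent.RI
open _root_.Pool.Agent.ME
open _root_.Pool.Agent.MUXE (NL Sxe_RNG)
open _root_.Pool.Agent.MUXC (Sc_CLF Sc_COP Sc_TRO Sc_GEN Sc_ENO Sc_INV Sc_QCR Sc_QEX Sc_QNE Sc_ISL Sc_FEX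
  Sc_RP1 Sc_RP2 Sc_RP3 Sc_REP Sc_DNX Sc_NMC)

noncomputable section

theorem tc_NRL (h1 : Sc_GEN) : Sc_NRL := by
  intro A B hE m a σ b L L' om mu hm hmt hσ hL hA
  have hQ : CQ A B := hE.toCQ
  have hCM : HasCM A B L := hL.toIsLI.hasCM hQ
  obtain ⟨u, hu, hum, -⟩ := h1 A B hQ b m L om hL.toIsLI hm
  have huL : u ∉ L.lattice := by
    intro hc
    apply hmt
    rw [Ideal.eq_top_iff_one, ← hum 1]
    have e : emb (1 : OO A B) = 1 := Pool.Agent.MUX.emb_one hQ
    rw [e, one_mul]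
    exact hc
  have hkap : L'.g₂ + L'.g₃ = g2E A B + g3E A B := by
    have h3 := hA.kapE
    rw [CJN.sig_kap σ hL.nrm, CJN.kap_eq hL.nrm] at h3
    exact h3
  -- one point
  have one : ∀ z, Tor m L z → z ∉ L.lattice →
      (L'.g₂ - g2E A B) * (σ (L.weierstrassP z) - 1) = 0 := by
    intro z hz hzL
    rcases hA.act z hz with ⟨h2, -⟩ | ⟨-, huL', hx, hy⟩
    · exact absurd h2 hzL
    have hP : L'.weierstrassP (mu * z) = σ (L.weierstrassP z) := hx.symm
    have hP' : L'.derivWeierstrassP (mu * z) = σ (L.derivWeierstrassP z) := by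
      unfold yy at hy
      rw [map_div₀, map_ofNat] at hy
      linear_combination -2 * hy
    have e1 := L.derivWeierstrassP_sq z hzL
    have e2 := L'.derivWeierstrassP_sq (mu * z) huL'
    have e3 := congrArg σ e1
    rw [hL.nrm.g2, hL.nrm.g3] at e3
    rw [hP, hP'] at e2
    simp only [map_pow, map_sub, map_mul, map_ofNat, CJN.sig_g2, CJN.sig_g3] at e3
    linear_combination e2 - e3 - hkap
  have hg2 : L'.g₂ = g2E A B := by
    rcases mul_eq_zero.1 (one u hu huL) with h2 | h2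
    · exact sub_eq_zero.1 h2
    · -- the point `w u`
      have hwu : Tor m L (wC A B * u) := by
        have h3 := Tor.mul_emb hQ hu (⟨0, 1⟩ : OO A B)
        rwa [Pool.Agent.MUX.emb_w] at h3
      have hwL : wC A B * u ∉ L.lattice := fun h3 => huL ((w_iff hE hCM u).2 h3)
      have hσw : σ (wC A B) = wC A B := hσ
      rcases mul_eq_zero.1 (one _ hwu hwL) with h3 | h3
      · exact sub_eq_zero.1 h3
      · exfalso
        rw [(w_scal hE hCM).1 u, map_div₀, map_pow, hσw, sub_eq_zero.1 h2] at h3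
        have hw0 := w_ne hE
        have hw := w_sq hE
        have h4 : wC A B ^ 2 = 1 := by
          field_simp at h3
          linear_combination -h3
        rcases hE.hB with rfl | rfl
        · push_cast at hw
          rw [h4] at hw
          norm_num at hw
        · push_cast at hw
          have h5 : wC A 1 = 2 := by linear_combination h4 - hw
          rw [h5] at h4
          norm_num at h4
  have hn : NrmE A B L' := ⟨hg2, by linear_combination hkap - hg2⟩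
  exact ⟨hn, CJN.isCj hL.nrm hn⟩

end

end Pool.Agent.MEC


end

section

/-!
# ME, block CE (port of `MUX/C_X.lean`): (FRO) the Frobenius of a prime of degree one
-/

set_option autoImplicit false

namespace Pool.Agent.MEC

open _root_.Pool.Agent.ME
open _root_.Pool.Agent.MUXC (Sc_CLF Sc_COP Sc_TRO Sc_GEN Sc_ENO Sc_INV Sc_QCR Sc_QEX Sc_QNE Sc_ISL Sc_FEX
  Sc_RP1 Sc_RP2 Sc_RP3 Sc_REP Sc_DNX Sc_NMC)
open _root_.MU3 _root_.Pool.Agent.MU3A _root_.Pool.Agent.MU3B _root_.Pool.Agent.MUX _root_.Pool.Agent.MUXU _root_.Pool.Agent.RI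
open _root_.Pool.Agent.MUXV (Sq_FRX Sq_VQI InK)

namespace FRO

variable {A B : ℤ}

lemma _root_.Pool.Agent.MEC.FRO.ne_bot_of_prime (Q : Ideal (OO A B)) {q : ℕ} (hq : q.Prime) (hQ : nI Q = q) : Q ≠ ⊥ := by
  rintro rfl
  have h1 : Nat.card (OO A B ⧸ (⊥ : Ideal (OO A B))) = Nat.card (OO A B) :=
    Nat.card_congr (RingEquiv.quotientBot (OO A B)).toEquiv
  have hinf : Infinite (OO A B) :=
    Infinite.of_injective (fun n : ℕ => (n : OO A B)) Nat.cast_injective
  have h2 : Nat.card (OO A B) = 0 := Nat.card_eq_zero_of_infinite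
  have h3 : nI (⊥ : Ideal (OO A B)) = 0 := h1.trans h2
  rw [h3] at hQ
  exact hq.ne_zero hQ.symm

lemma _root_.Pool.Agent.MEC.FRO.isQ_neg {a : Ideal (OO A B)} {L M : PeriodPair} {mu : ℂ} (h : IsQ a L M mu) :
    IsQ a L M (-mu) := by
  refine ⟨neg_ne_zero.2 h.1, fun z => ?_⟩
  rw [← h.2 z, neg_mul]
  exact neg_mem_iff

lemma _root_.Pool.Agent.MEC.FRO.map_xn {s : ℂ ≃+* ℂ} {L M : PeriodPair} {Φ : ℂ → ℂ} (hΦ : IsPhi s L M Φ) {u : ℂ}
    (hu : u ∉ L.lattice) : xnE M (Φ u) = s (xnE L u) := by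
  unfold xnE
  rw [hΦ.P u hu]

end FRO

open _root_.Pool.Agent.MEC.FRO in
theorem tc_FRO (hBAD : Sc_BAD) (hCJN : Sc_CJN) (hNEX : Sc_NEX) (hEXA : Sc_EXA)
    (hPMF : Sc_PMF) (hPHM : Sc_PHM) (hGEN : Sc_GEN) (hQCR : Sc_QCR) (hQNE : Sc_QNE)
    (hFRX : Sc_FRX) (hVQI : Sq_VQI) (hPHI : Su_PHI) : Sc_FRO := by
  intro A B hE
  have hc : CQ A B := hE.toCQ
  refine ⟨12, by norm_num, ?_⟩
  intro m hm Q q hq hQ hqn hqm V hV s hs hfr b L om hL
  have hQ0 : Q ≠ ⊥ := _root_.Pool.Agent.MEC.FRO.ne_bot_of_prime Q hq hQ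
  have hovr : ∀ x ∈ Q, V.valuation (emb x) < 1 := fun x hx =>
    (ValuationSubring.mem_nonunits_iff V).1 ((hV x).2 hx)
  obtain ⟨hvq, hvs, hvx⟩ := (hVQI A B hc.toF V).2 Q q hq hQ hovr
  have hvn : ∀ n : ℕ, ¬ q ∣ n → V.valuation (n : ℂ) = 1 := fun n hn => by
    have := hvs (n : ℤ) (fun h => hn (by exact_mod_cast h))
    rwa [Int.cast_natCast] at this
  have hq2 : q ≠ 2 := by
    rintro rfl
    exact hqn (by norm_num)
  have hq3 : q ≠ 3 := by
    rintro rfl
    exact hqn (by norm_num)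
  have hv2 : V.valuation (2 : ℂ) = 1 := by
    have := hvn 2 (fun h => hq2 ((Nat.prime_dvd_prime_iff_eq hq Nat.prime_two).1 h))
    exact_mod_cast this
  have hv3 : V.valuation (3 : ℂ) = 1 := by
    have := hvn 3 (fun h => hq3 ((Nat.prime_dvd_prime_iff_eq hq Nat.prime_three).1 h))
    exact_mod_cast this
  -- the lattice `M`
  have hb1 : cjI Q * b ≠ ⊥ := mul_ne_bot hc (cjI_ne_bot hc hQ0) hL.b_ne
  obtain ⟨M, om₁, hM⟩ := hNEX A B hE (cjI Q * b) hb1
  have hisQ' := hQCR A B hc Q b (cjI Q * b) L M om om₁ hL.toIsLI hM.toIsLI hQ0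
    ((q : ℕ) : OO A B) 1 (natCast_ne_zero' hc hq.ne_zero)
    (by
      intro h1
      have := congrArg emb h1
      rw [Pool.Agent.MUX.emb_one hc, Pool.Agent.MUX.emb_zero hc] at this
      exact one_ne_zero this)
    (by
      have e1 : sp (1 : OO A B) = ⊤ := Ideal.span_singleton_one
      rw [e1, Ideal.top_mul, ← mul_assoc, mul_cjI hc hQ0, hQ])
  obtain ⟨mu, hisQ, hfx⟩ := hFRX A B hE Q q hq hq2 hq3 hQ b (cjI Q * b) L M om om₁ _ hL hM hisQ'
    V hV
  have hcmL : HasCM A B L := hL.toIsLI.hasCM hc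
  obtain ⟨-, hisg, hcmM⟩ := hQNE A B hc Q L M mu hcmL hisQ
  -- invariants
  have hgL := hBAD A B hE V hv2 hv3 L hL.nrm
  have hgM := hBAD A B hE V hv2 hv3 M hM.nrm
  obtain ⟨hCJ1, hCJ2, hCJ3⟩ := hCJN A B hc
  have hkM : kapE M = s (kapE L) := by
    rw [CJN.sig_kap s hL.nrm]
    exact CJN.kap_same hM.nrm hL.nrm
  have hcj : IsCj s L M := hCJ2 s L M hL.nrm hM.nrm hkM
  obtain ⟨Φ, hΦ⟩ := hPHI s L M hcj
  obtain ⟨hP1, hP2, hP3, hP4⟩ := hPHM A B hc s hs b L M om hL.toIsLI hcj Φ hΦ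
  obtain ⟨a₀, mu₀, hact⟩ := hEXA A B hc s hs m b (cjI Q * b) L M om om₁ hm hL hM hkM
  obtain ⟨u, hu, hux, hgen⟩ := hGEN A B hc b m L om hL.toIsLI hm
  -- torsion killed by `N = nI m`
  have hNm : ((nI m : ℕ) : OO A B) ∈ m := nI_mem hc hm
  have hNv : V.valuation ((nI m : ℕ) : ℂ) = 1 := hvn _ hqm
  have htorM : ∀ z : ℂ, Tor m M z → InK V M (xnE M) z →
      z ∈ M.lattice := by
    intro z hz hK
    obtain ⟨W, ξ, G⟩ := hgM
    apply Pool.Agent.MUXV.mem_of_nat_mul G hK hNv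
    have := hz _ hNm
    rwa [_root_.Pool.Agent.MUX.emb_natCast hc] at this
  have htorL : ∀ z : ℂ, Tor m L z → InK V L (xnE L) z →
      z ∈ L.lattice := by
    intro z hz hK
    obtain ⟨W, ξ, G⟩ := hgL
    apply Pool.Agent.MUXV.mem_of_nat_mul G hK hNv
    have := hz _ hNm
    rwa [_root_.Pool.Agent.MUX.emb_natCast hc] at this
  have htmu : ∀ z : ℂ, Tor m L z → Tor m M (mu * z) := by
    intro z hz x hx
    have e : emb x * (mu * z) = mu * (emb x * z) := by ring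
    rw [e]
    exact hisg _ (hz x hx)
  -- the sign
  have hsign : ∃ ε : ℂ, (ε = 1 ∨ ε = -1) ∧ Φ u - ε * mu * u ∈ M.lattice := by
    by_cases huL : u ∈ L.lattice
    · refine ⟨1, Or.inl rfl, sub_mem ((hΦ.mem u).2 huL) ?_⟩
      rw [one_mul]
      exact hisg u huL
    · have huK : ¬ InK V L (xnE L) u := fun h =>
        huL (htorL u hu h)
      have hxV : xnE L u ∈ V := by
        by_contra h
        exact huK (Or.inr h)
      have hxmem : xnE L u ∈ (RFE m : IntermediateField (kk A B) ℂ) :=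
        IntermediateField.subset_adjoin _ _ ⟨b, L, om, hL, Or.inr ⟨u, hu, huL, rfl⟩⟩
      obtain ⟨hmK, hmx⟩ := hfx u huK
      have hsx := hfr (xnE L u) hxmem hxV
      rw [← _root_.Pool.Agent.MEC.FRO.map_xn hΦ huL] at hsx
      have hdiff : V.valuation (xnE M (Φ u) - xnE M (mu * u)) < 1 := by
        have e : xnE M (Φ u) - xnE M (mu * u) =
            (xnE M (Φ u) - xnE L u ^ q) - (xnE M (mu * u) - xnE L u ^ q) := by ring
        rw [e]
        exact lt_of_le_of_lt (Valuation.map_sub _ _ _) (max_lt hsx hmx)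
      have hTΦ : Tor m M (Φ u) := (hP2 m u).2 hu
      have hTmu : Tor m M (mu * u) := htmu u hu
      have hΦK : ¬ InK V M (xnE M) (Φ u) := fun h =>
        huL ((hΦ.mem u).1 (htorM _ hTΦ h))
      by_contra hcon
      push Not at hcon
      have hA := hcon 1 (Or.inl rfl)
      have hB := hcon (-1) (Or.inr rfl)
      have hsub : ¬ InK V M (xnE M) (Φ u - mu * u) := fun h =>
        hA (by
          rw [one_mul]
          apply htorM _ _ h
          have := hTΦ.add hTmu.neg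
          rwa [← sub_eq_add_neg] at this)
      have hadd : ¬ InK V M (xnE M) (Φ u + mu * u) := fun h =>
        hB (by
          have e : Φ u - -1 * mu * u = Φ u + mu * u := by ring
          rw [e]
          exact htorM _ (hTΦ.add hTmu) h)
      obtain ⟨W, ξ, G⟩ := hgM
      have := Pool.Agent.MUXV.v_X_sub G hΦK hmK hadd hsub
      exact absurd this hdiff.ne
  obtain ⟨ε, hε, hΦu⟩ := hsign
  have hεM : ∀ z ∈ L.lattice, ε * mu * z ∈ M.lattice := by
    intro z hz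
    have h1 := hisg z hz
    rcases hε with rfl | rfl
    · rwa [one_mul]
    · have e : -1 * mu * z = -(mu * z) := by ring
      rw [e]
      exact neg_mem h1
  have hall : ∀ z : ℂ, Tor m L z → Φ z - ε * mu * z ∈ M.lattice := by
    intro z hz
    obtain ⟨x, hx⟩ := hgen z hz
    have t1 := (hP3 z (emb x * u)).2 hx
    have t2 := hP1 x u
    have t3 := hcmM x _ hΦu
    have t4 := hεM _ hx
    have e : Φ z - ε * mu * z = (Φ z - Φ (emb x * u)) + (Φ (emb x * u) - emb x * Φ u) +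
        emb x * (Φ u - ε * mu * u) - ε * mu * (z - emb x * u) := by ring
    rw [e]
    exact sub_mem (add_mem (add_mem t1 t2) t3) t4
  refine ⟨cjI Q * b, M, om₁, ε * mu, hM, ⟨hkM, ?_, ?_, ?_⟩⟩
  · rw [Ideal.isCoprime_iff_exists]
    have h1 : IsCoprime (q : ℤ) ((nI m : ℕ) : ℤ) :=
      Nat.isCoprime_iff_coprime.2 ((Nat.Prime.coprime_iff_not_dvd hq).2 hqm)
    obtain ⟨x, y, hxy⟩ := h1
    have hqQ : ((q : ℕ) : OO A B) ∈ Q := by
      have := nI_mem hc hQ0
      rwa [hQ] at this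
    refine ⟨(x : OO A B) * ((q : ℕ) : OO A B), Q.mul_mem_left _ hqQ,
      (y : OO A B) * ((nI m : ℕ) : OO A B), m.mul_mem_left _ hNm, ?_⟩
    have := congrArg (fun n : ℤ => (n : OO A B)) hxy
    push_cast at this
    exact this
  · rcases hε with rfl | rfl
    · rw [one_mul]
      exact hisQ
    · rw [neg_one_mul]
      exact _root_.Pool.Agent.MEC.FRO.isQ_neg hisQ
  · intro z hz
    exact (hPMF s L M Φ hΦ z (ε * mu * z)).2 (hall z hz)

end Pool.Agent.MEC


end

section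

/-!
# ME, block CE, modules BAD and FRX (helper58): good reduction, and the Frobenius congruence for a prime ideal of degree one
-/

set_option autoImplicit false

open Polynomial NumberField IsDedekindDomain WeierstrassCurve

namespace Pool.Agent.MEC

open _root_.MU3 _root_.Pool.Agent.MU3A _root_.Pool.Agent.MU3B _root_.Pool.Agent.MUX _root_.Pool.Agent.MUXU _root_.Pool.Agent.RI
open _root_.Pool.Agent.ME
open _root_.Pool.Agent.MUXV (GR InK tX Sx_XIC WS Sq_ISQ Sq_VQI Sx_R5)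

noncomputable section

variable {A B : ℤ} {L : PeriodPair}

lemma wpow (h : CaseE A B) (hL : HasCM A B L) (j : ℕ) :
    (∀ z, z ∈ L.lattice ↔ wC A B ^ j * z ∈ L.lattice) ∧
    ∀ z, L.weierstrassP (wC A B ^ j * z) * wC A B ^ (2 * j) = L.weierstrassP z := by
  induction j with
  | zero => simp
  | succ j ih =>
    obtain ⟨i1, i2⟩ := ih
    have h0 := w_ne h
    constructor
    · intro z
      rw [i1 z, w_iff h hL, pow_succ']
      ring_nf
    · intro z
      have e : wC A B ^ (j + 1) * z = wC A B * (wC A B ^ j * z) := by ring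
      rw [e, (w_scal h hL).1, ← i2 z]
      have e2 : wC A B ^ (2 * (j + 1)) = wC A B ^ (2 * j) * wC A B ^ 2 := by ring
      rw [e2]
      field_simp

theorem tc_BAD (hX : Sx_XIC) : Sc_BAD := by
  intro A B h V v2 v3 L hL
  obtain ⟨ξ, x1, -, x3⟩ := hX L 0
  have e1 : (fun z => L.weierstrassP z - 0) = xnE L := by
    funext z
    rw [sub_zero]
    rfl
  have v4 : V.valuation (4 : ℂ) = 1 := by
    have e : (4 : ℂ) = 2 ^ 2 := by norm_num
    rw [e, map_pow, v2, one_pow]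
  have hn : ∀ n : ℤ, V.valuation (n : ℂ) ≤ 1 := fun n => by
    rw [ValuationSubring.valuation_le_one_iff]
    exact intCast_mem V n
  have ha2 : (WS L 0).a₂ = 0 := by
    show 3 * (0 : ℂ) = 0
    ring
  have ha4 : (WS L 0).a₄ = -(L.g₂ / 4) := by
    show 3 * (0 : ℂ) ^ 2 - L.g₂ / 4 = _
    ring
  have ha6 : (WS L 0).a₆ = -(L.g₃ / 4) := by
    show (0 : ℂ) ^ 3 - L.g₂ / 4 * 0 - L.g₃ / 4 = _
    ring
  have hD : (WS L 0).Δ = -16 * (4 * (-(L.g₂ / 4)) ^ 3 + 27 * (-(L.g₃ / 4)) ^ 2) := by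
    unfold WeierstrassCurve.Δ WeierstrassCurve.b₂ WeierstrassCurve.b₄ WeierstrassCurve.b₆
      WeierstrassCurve.b₈
    have e1 : (WS L 0).a₁ = 0 := rfl
    have e3 : (WS L 0).a₃ = 0 := rfl
    rw [ha4, ha6, ha2, e1, e3]
    ring
  refine ⟨WS L 0, ξ, ?_⟩
  have hint : V.valuation (-(L.g₂ / 4)) ≤ 1 ∧ V.valuation (-(L.g₃ / 4)) ≤ 1 ∧
      V.valuation (WS L 0).Δ = 1 := by
    rw [hD, hL.g2, hL.g3]
    unfold g2E g3E
    rcases h.hB with hB | hB
    · rw [if_pos hB, if_pos hB]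
      refine ⟨?_, ?_, ?_⟩
      · have e : (-(4 / 4) : ℂ) = ((-1 : ℤ) : ℂ) := by push_cast; ring
        rw [e]
        exact hn _
      · have e : (-(0 / 4) : ℂ) = ((0 : ℤ) : ℂ) := by push_cast; ring
        rw [e]
        exact hn _
      · have e : (-16 * (4 * (-(4 / 4)) ^ 3 + 27 * (-(0 / 4)) ^ 2) : ℂ) = 2 ^ 6 := by norm_num
        rw [e, map_pow, v2, one_pow]
    · have hB0 : B ≠ 0 := by omega
      rw [if_neg hB0, if_neg hB0]
      refine ⟨?_, ?_, ?_⟩
      · have e : (-(0 / 4) : ℂ) = ((0 : ℤ) : ℂ) := by push_cast; ring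
        rw [e]
        exact hn _
      · have e : (-(-4 / 4) : ℂ) = ((1 : ℤ) : ℂ) := by push_cast; ring
        rw [e]
        exact hn _
      · have e : (-16 * (4 * (-(0 / 4)) ^ 3 + 27 * (-(-4 / 4)) ^ 2) : ℂ) = -(2 ^ 4 * 3 ^ 3) := by
          norm_num
        rw [e, Valuation.map_neg, map_mul, map_pow, map_pow, v2, v3, one_pow, one_pow, one_mul]
  obtain ⟨i1, i2, i3⟩ := hint
  refine ⟨⟨rfl, rfl, ?_, ?_, ?_⟩, v2, i3, fun z hz => ?_, fun z hz => (x1 z).2 hz⟩
  · rw [ha2, map_zero]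
    exact zero_le
  · rw [ha4]
    exact i1
  · rw [ha6]
    exact i2
  · obtain ⟨hh, e⟩ := x3 z hz
    refine ⟨?_, ?_⟩
    · have := hh
      rw [sub_zero] at this
      exact this
    · rw [e]
      congr 1
      exact sub_zero _

/-- `κ ≡ w^(-2j)` for some `j` -/
lemma kap_root (h : CaseE A B) {V : ValuationSubring ℂ} {κ : ℂ} {q : ℕ} (hq : Odd q)
    (h2 : V.valuation ((g2E A B / 4) ^ q - κ ^ 2 * (g2E A B / 4)) < 1)
    (h3 : V.valuation ((g3E A B / 4) ^ q - κ ^ 3 * (g3E A B / 4)) < 1) :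
    ∃ j : ℕ, V.valuation (κ * wC A B ^ (2 * j) - 1) < 1 := by
  have hws := w_sq h
  unfold g2E at h2
  unfold g3E at h3
  rcases h.hB with hB | hB
  · rw [if_pos hB] at h2
    rw [hB] at hws ⊢
    push_cast at hws
    have e : ((4 : ℂ) / 4) ^ q - κ ^ 2 * (4 / 4) = -((κ * wC A 0 ^ (2 * 0) - 1) *
        -(κ * wC A 0 ^ (2 * 1) - 1)) := by
      have e1 : ((4 : ℂ) / 4) = 1 := by norm_num
      rw [e1, one_pow, mul_zero, pow_zero, mul_one (2 : ℕ)]
      linear_combination (κ * (κ - 1)) * -hws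
    rw [e, Valuation.map_neg, map_mul, Valuation.map_neg] at h2
    by_contra hcon
    push Not at hcon
    have := mul_le_mul' (hcon 0) (hcon 1)
    rw [one_mul] at this
    exact absurd h2 (not_lt.2 this)
  · have hB0 : B ≠ 0 := by omega
    rw [if_neg hB0] at h3
    rw [hB] at hws ⊢
    push_cast at hws
    have hw3 : wC A 1 ^ 3 = -1 := by linear_combination (wC A 1 + 1) * hws
    have e : ((-4 : ℂ) / 4) ^ q - κ ^ 3 * (-4 / 4) = (κ * wC A 1 ^ (2 * 0) - 1) *
        ((κ * wC A 1 ^ (2 * 1) - 1) * (κ * wC A 1 ^ (2 * 2) - 1)) := by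
      have e1 : ((-4 : ℂ) / 4) = -1 := by norm_num
      rw [e1, hq.neg_one_pow]
      linear_combination -(κ - 1) * (κ ^ 2 * (wC A 1 ^ 3 - 1) * (wC A 1 + 1) -
        κ * (wC A 1 ^ 2 + wC A 1 + 1)) * hws
    rw [e, map_mul, map_mul] at h3
    by_contra hcon
    push Not at hcon
    have := mul_le_mul' (hcon 0) (mul_le_mul' (hcon 1) (hcon 2))
    rw [one_mul, one_mul] at this
    exact absurd h3 (not_lt.2 this)

theorem tc_FRX (hISQ : Sq_ISQ) (hVQI : Sq_VQI) (hR5 : Sx_R5) (hBAD : Sc_BAD) : Sc_FRX := by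
  intro A B h Q q hq hq2 hq3 hQ b b' L M om om' mu hL hM hisQ V hV
  have hC := h.toCQ
  have hovr : ∀ x ∈ Q, V.valuation (emb x) < 1 := fun x hx =>
    (ValuationSubring.mem_nonunits_iff V).1 ((hV x).2 hx)
  obtain ⟨hemb, hvi⟩ := hVQI A B hC.toF V
  obtain ⟨hvq, hvs, hvx⟩ := hvi Q q hq hQ hovr
  have hvn : ∀ n : ℕ, ¬ q ∣ n → V.valuation (n : ℂ) = 1 := fun n hn => by
    have := hvs (n : ℤ) (fun h => hn (by exact_mod_cast h))
    rwa [Int.cast_natCast] at this
  have v2 : V.valuation (2 : ℂ) = 1 := by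
    have := hvn 2 (fun h => hq2 ((Nat.prime_dvd_prime_iff_eq hq Nat.prime_two).1 h))
    exact_mod_cast this
  have v3 : V.valuation (3 : ℂ) = 1 := by
    have := hvn 3 (fun h => hq3 ((Nat.prime_dvd_prime_iff_eq hq Nat.prime_three).1 h))
    exact_mod_cast this
  have hqD : ¬ (q : ℤ) ∣ B ^ 2 + 4 * A := by
    intro hd
    have hA := h.hA
    rcases h.hB with hB | hB
    · have e : B ^ 2 + 4 * A = -(4 : ℕ) := by rw [hA, hB]; norm_num
      rw [e, dvd_neg, Int.natCast_dvd_natCast] at hd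
      have : q ∣ 2 ^ 2 := by simpa using hd
      exact hq2 ((Nat.prime_dvd_prime_iff_eq hq Nat.prime_two).1 (hq.dvd_of_dvd_pow this))
    · have e : B ^ 2 + 4 * A = -(3 : ℕ) := by rw [hA, hB]; norm_num
      rw [e, dvd_neg, Int.natCast_dvd_natCast] at hd
      exact hq3 ((Nat.prime_dvd_prime_iff_eq hq Nat.prime_three).1 hd)
  have hcmL : HasCM A B L := hL.toIsLI.hasCM hC
  have hcmM : HasCM A B M := hM.toIsLI.hasCM hC
  have e0 : ∀ N : PeriodPair, (fun z => N.weierstrassP z - 0) = xnE N := by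
    intro N
    funext z
    rw [sub_zero]
    rfl
  have hGR : ∀ N : PeriodPair, NrmE A B N → ∃ (W : WeierstrassCurve.Affine ℂ) (ξ : ℂ →+ W.Point),
      GR V W N (fun z => N.weierstrassP z - 0) (fun z => N.derivWeierstrassP z / 2) ξ := by
    intro N hN
    rw [e0 N]
    exact hBAD A B h V v2 v3 N hN
  obtain ⟨⟨H, hI⟩, hmu, -⟩ := hISQ A B hC.toF Q q hq hq2 hqD hQ L M 0 0 mu hcmL hisQ V
    (hGR L hL.nrm) (hGR M hM.nrm)
  obtain ⟨κ, -, k2, k3, k4⟩ := hR5 V L M 0 0 mu q H hI v3 (zero_mem V) (zero_mem V) hvq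
    (hmu hovr)
  rw [hL.nrm.g2, hM.nrm.g2] at k2
  rw [hL.nrm.g3, hM.nrm.g3] at k3
  have hw : V.valuation (wC A B) = 1 := by
    have h1 : V.valuation (wC A B) ≤ 1 := by
      have := hemb (⟨0, 1⟩ : OO A B)
      rwa [Pool.Agent.MUX.emb_w] at this
    have h2 : V.valuation ((B : ℂ) - wC A B) ≤ 1 := by
      have := hemb (⟨B, -1⟩ : OO A B)
      have e : emb (⟨B, -1⟩ : OO A B) = (B : ℂ) - wC A B := by
        simp [emb]
        ring
      rwa [e] at this
    have h3 := congrArg V.valuation (w_inv h)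
    rw [map_mul, map_one] at h3
    refine le_antisymm h1 ?_
    rw [← h3]
    exact mul_le_of_le_one_left' h2
  obtain ⟨j, hj⟩ := kap_root h (hq.odd_of_ne_two hq2) k2 k3
  obtain ⟨w1, w2⟩ := wpow h hcmM j
  have hw0 := w_ne h
  have hwj : wC A B ^ j ≠ 0 := pow_ne_zero _ hw0
  have hvj : V.valuation (wC A B ^ (2 * j)) = 1 := by rw [map_pow, hw, one_pow]
  refine ⟨wC A B ^ j * mu, ⟨mul_ne_zero hwj hisQ.1, fun z => ?_⟩, fun z hz => ?_⟩
  · rw [← hisQ.2 z, mul_assoc, ← w1]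
  · have hz' : ¬ InK V L (fun z => L.weierstrassP z - 0) z := by rwa [e0 L]
    obtain ⟨k5, k6⟩ := k4 z hz'
    rw [e0 M] at k5
    obtain ⟨i1, i2⟩ := Pool.Agent.MUXV.int_X k5
    have i3 := (Pool.Agent.MUXV.int_X hz).2
    have e1 := w2 (mu * z)
    rw [← mul_assoc] at e1
    have e2 : xnE M (wC A B ^ j * mu * z) * wC A B ^ (2 * j) = xnE M (mu * z) := e1
    have i4 : V.valuation (xnE M (wC A B ^ j * mu * z)) ≤ 1 := by
      have := congrArg V.valuation e2
      rw [map_mul, hvj, mul_one] at this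
      rw [this]
      exact i2
    refine ⟨?_, ?_⟩
    · rintro (h5 | h5)
      · apply i1
        rw [w1, ← mul_assoc]
        exact h5
      · exact h5 ((ValuationSubring.valuation_le_one_iff _ _).1 i4)
    · have e3 : xnE M (wC A B ^ j * mu * z) - xnE L z ^ q =
          (κ * M.weierstrassP (mu * z) - L.weierstrassP z ^ q) -
            (κ * wC A B ^ (2 * j) - 1) * xnE M (wC A B ^ j * mu * z) := by
        have e4 : M.weierstrassP (mu * z) =
            xnE M (wC A B ^ j * mu * z) * wC A B ^ (2 * j) := e2.symm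
        rw [e4]
        unfold xnE
        ring
      rw [e3]
      refine Valuation.map_sub_lt _ k6 ?_
      rw [map_mul]
      exact lt_of_le_of_lt (mul_le_of_le_one_right' i4) hj

end

end Pool.Agent.MEC


end

section

/-!
# ME, block CE (port of `MUX/C_X.lean`): module EXA, existence of the ideal of an automorphism, for one lattice
-/

set_option autoImplicit false

open Polynomial NumberField IsDedekindDomain

namespace Pool.Agent.MEC

open _root_.MU3 _root_.Pool.Agent.MU3A _root_.Pool.Agent.MU3B _root_.Pool.Agent.MUX _root_.Pool.Agent.MUXU _root_.Pool.Agent.RI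
open _root_.Pool.Agent.ME
open _root_.Pool.Agent.MUXE (NL Sxe_RNG)
open _root_.Pool.Agent.MUXC (Sc_CLF Sc_COP Sc_TRO Sc_GEN Sc_ENO Sc_INV Sc_QCR Sc_QEX Sc_QNE Sc_ISL Sc_FEX
  Sc_RP1 Sc_RP2 Sc_RP3 Sc_REP Sc_DNX Sc_NMC)

noncomputable section

namespace EXA

/-- an element whose multiplication is injective modulo `m` is prime to `m` -/
lemma coprime_of_inj {A B : ℤ} (hc : CQ A B) {m : Ideal (OO A B)} (hm : m ≠ ⊥) (c : OO A B)
    (h : ∀ x : OO A B, x * c ∈ m → x ∈ m) : IsCoprime (sp c) m := by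
  have hf : Finite (OO A B ⧸ m) := finite_quot hc hm
  have hinj : Function.Injective (fun q : OO A B ⧸ m => q * Ideal.Quotient.mk m c) := by
    intro q q' hq
    obtain ⟨x, rfl⟩ := Ideal.Quotient.mk_surjective q
    obtain ⟨x', rfl⟩ := Ideal.Quotient.mk_surjective q'
    have h1 : Ideal.Quotient.mk m x * Ideal.Quotient.mk m c =
        Ideal.Quotient.mk m x' * Ideal.Quotient.mk m c := hq
    rw [← map_mul, ← map_mul, Ideal.Quotient.eq, ← sub_mul] at h1
    exact Ideal.Quotient.eq.2 (h _ h1)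
  have hsurj := Finite.surjective_of_injective hinj
  obtain ⟨q, hq⟩ := hsurj 1
  obtain ⟨y, rfl⟩ := Ideal.Quotient.mk_surjective q
  have h1 : Ideal.Quotient.mk m y * Ideal.Quotient.mk m c = Ideal.Quotient.mk m 1 := by
    rw [map_one]
    exact hq
  rw [← map_mul, Ideal.Quotient.eq] at h1
  rw [Ideal.isCoprime_iff_exists]
  refine ⟨y * c, Ideal.mul_mem_left _ _ (Ideal.mem_span_singleton_self c), 1 - y * c, ?_, by ring⟩
  have h2 := m.neg_mem h1
  rwa [neg_sub] at h2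

end EXA

theorem tc_EXA (hQEX : Sc_QEX) (hGEN : Sc_GEN) (hCJN : Sc_CJN) (hPMF : Sc_PMF) (hPHM : Sc_PHM)
    (hPHI : Su_PHI) : Sc_EXA := by
  intro A B hc σ hσ m b b' L L' om om' hm hL hL' hk
  obtain ⟨a₀, mu₀, ha₀, hcop, hq⟩ := hQEX A B hc b b' m L L' om om' hL.toIsLI hL'.toIsLI hm
  have hcm : HasCM A B L := hL.toIsLI.hasCM hc
  have hcm' : HasCM A B L' := hq.cm hc
  have hmem : ∀ z ∈ L.lattice, mu₀ * z ∈ L'.lattice := fun z hz => hq.mem hcm hz
  by_cases htop : m = ⊤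
  · refine ⟨a₀, mu₀, hk, hcop, hq, ?_⟩
    intro z hz
    rw [htop, tor_top hc hcm] at hz
    exact Or.inl ⟨hz, hmem z hz⟩
  obtain ⟨u, hu1, hu2, hu3⟩ := hGEN A B hc b m L om hL.toIsLI hm
  have hcj : IsCj σ L L' := (hCJN A B hc).2.1 σ L L' hL.nrm hL'.nrm hk
  obtain ⟨Φ, hΦ⟩ := hPHI σ L L' hcj
  obtain ⟨p1, p2, p3, -⟩ := hPHM A B hc σ hσ b L L' om hL.toIsLI hcj Φ hΦ
  -- every point of level `m` of `L'` is a multiple of `mu₀ u`
  have claim : ∀ z', Tor m L' z' → ∃ x : OO A B, z' - emb x * (mu₀ * u) ∈ L'.lattice := by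
    intro z' hz'
    obtain ⟨α, hα, β, hβ, hαβ⟩ := Ideal.isCoprime_iff_exists.1 hcop
    have hmu := hq.1
    have h1 : Tor m L (emb α * (z' / mu₀)) := by
      intro t ht
      have h2 : mu₀ * (emb t * (z' / mu₀)) ∈ L'.lattice := by
        have e : mu₀ * (emb t * (z' / mu₀)) = emb t * z' := by field_simp
        rw [e]
        exact hz' t ht
      have h3 := (hq.2 _).1 h2 α hα
      have e : emb t * (emb α * (z' / mu₀)) = emb α * (emb t * (z' / mu₀)) := by ring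
      rw [e]
      exact h3
    obtain ⟨x, hx⟩ := hu3 _ h1
    refine ⟨x, ?_⟩
    have h2 := add_mem (hmem _ hx) (hz' β hβ)
    have h3 : emb α + emb β = 1 := by rw [← _root_.Pool.Agent.MUX.emb_add hc, hαβ, _root_.Pool.Agent.MUX.emb_one hc]
    have e : mu₀ * (emb α * (z' / mu₀) - emb x * u) + emb β * z' =
        z' - emb x * (mu₀ * u) := by
      have e1 : mu₀ * (emb α * (z' / mu₀) - emb x * u) = emb α * z' - emb x * (mu₀ * u) := by
        field_simp
      rw [e1]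
      linear_combination z' * h3
    rwa [e] at h2
  obtain ⟨c, hcu⟩ := claim (Φ u) ((p2 m u).2 hu1)
  -- `c` is prime to `m`
  have hinj : ∀ x : OO A B, x * c ∈ m → x ∈ m := by
    intro x hx
    have h1 := (hu2 _).2 hx
    have h2 := hmem _ h1
    have h3 := hcm' x _ hcu
    have h4 := p1 x u
    have h5 : Φ (emb x * u) ∈ L'.lattice := by
      have h6 := add_mem (add_mem h4 h3) h2
      have e : Φ (emb x * u) - emb x * Φ u + emb x * (Φ u - emb c * (mu₀ * u)) +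
          mu₀ * (emb (x * c) * u) = Φ (emb x * u) := by
        rw [_root_.Pool.Agent.MUX.emb_mul hc]
        ring
      rwa [e] at h6
    exact (hu2 x).1 ((hΦ.mem _).1 h5)
  have hcc : IsCoprime (sp c) m := EXA.coprime_of_inj hc hm c hinj
  have hc0 : c ≠ 0 := by
    rintro rfl
    apply htop
    rw [Ideal.eq_top_iff_one]
    apply hinj
    rw [mul_zero]
    exact m.zero_mem
  have hec : emb c ≠ 0 := _root_.Pool.Agent.MUX.emb_ne_zero hc hc0
  refine ⟨sp c * a₀, emb c * mu₀, hk, IsCoprime.mul_left hcc hcop,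
    ⟨mul_ne_zero hec hq.1, ?_⟩, ?_⟩
  · intro z
    have e1 : emb c * mu₀ * z = mu₀ * (emb c * z) := by ring
    rw [e1, hq.2]
    constructor
    · intro h x hx
      obtain ⟨s, hs, rfl⟩ := Ideal.mem_span_singleton_mul.1 hx
      have h1 := h s hs
      have e : emb (c * s) * z = emb s * (emb c * z) := by
        rw [_root_.Pool.Agent.MUX.emb_mul hc]
        ring
      rw [e]
      exact h1
    · intro h s hs
      have h1 := h (c * s) (Ideal.mem_span_singleton_mul.2 ⟨s, hs, rfl⟩)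
      have e : emb (c * s) * z = emb s * (emb c * z) := by
        rw [_root_.Pool.Agent.MUX.emb_mul hc]
        ring
      rwa [e] at h1
  · intro z hz
    rw [hPMF σ L L' Φ hΦ]
    obtain ⟨x, hx⟩ := hu3 z hz
    have h1 := (p3 z (emb x * u)).2 hx
    have h2 := p1 x u
    have h3 := hcm' x _ hcu
    have h4 := hmem _ (hcm c _ hx)
    have h5 := sub_mem (add_mem (add_mem h1 h2) h3) h4
    have e : Φ z - Φ (emb x * u) + (Φ (emb x * u) - emb x * Φ u) +
        emb x * (Φ u - emb c * (mu₀ * u)) - mu₀ * (emb c * (z - emb x * u)) =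
        Φ z - emb c * mu₀ * z := by ring
    rwa [e] at h5

end

end Pool.Agent.MEC


end

section

/-!
# ME, block CE (port of `MUX/C_X.lean`), module CHG (helper28): change of the ideal in its class
-/

set_option autoImplicit false

open Polynomial NumberField IsDedekindDomain

namespace Pool.Agent.MEC

open _root_.MU3 _root_.Pool.Agent.MU3A _root_.Pool.Agent.MU3B _root_.Pool.Agent.MUX _root_.Pool.Agent.MUXU _root_.Pool.Agent.RI
open _root_.Pool.Agent.ME
open _root_.Pool.Agent.MUXE (NL Sxe_RNG)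
open _root_.Pool.Agent.MUXC (Sc_CLF Sc_COP Sc_TRO Sc_GEN Sc_ENO Sc_INV Sc_QCR Sc_QEX Sc_QNE Sc_ISL Sc_FEX
  Sc_RP1 Sc_RP2 Sc_RP3 Sc_REP Sc_DNX Sc_NMC)

noncomputable section

namespace CHG

/-- translation by a lattice vector does not change `PME` -/
lemma pm_add {σ : ℂ ≃+* ℂ} {L L' : PeriodPair} {z z' v : ℂ} (h : PME σ L L' z z')
    (hv : v ∈ L'.lattice) : PME σ L L' z (z' + v) := by
  have e1 : xnE L' (z' + v) = xnE L' z' := by
    unfold xnE
    have := L'.weierstrassP_add_coe z' ⟨v, hv⟩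
    simp only at this
    rw [this]
  have e2 : yy L' (z' + v) = yy L' z' := by
    unfold yy
    have := L'.derivWeierstrassP_add_coe z' ⟨v, hv⟩
    simp only at this
    rw [this]
  rcases h with ⟨h1, h2⟩ | ⟨h1, h2, h3, h4⟩
  · exact Or.inl ⟨h1, add_mem h2 hv⟩
  · refine Or.inr ⟨h1, fun h5 => h2 ?_, by rw [e1, h3], by rw [e2, h4]⟩
    have := sub_mem h5 hv
    rwa [add_sub_cancel_right] at this

end CHG

/-- (CHG) the field `chg` of `TorXE`. -/
theorem tc_CHG : Sc_CHG := by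
  rintro A B hc m a a' σ L L' mu x y - ha' hx hx0 hy0 hxy hxa ⟨b, om, hL⟩ hact
  have hcm : HasCM A B L := hL.toIsLI.hasCM hc
  have ex0 := _root_.Pool.Agent.MUX.emb_ne_zero hc hx0
  have ey0 := _root_.Pool.Agent.MUX.emb_ne_zero hc hy0
  have hmu := hact.isq.1
  have f1 : ∀ α ∈ a, ∃ α' ∈ a', x * α = y * α' := by
    intro α hα
    have h1 : x * α ∈ sp y * a' := by
      rw [← hxa]
      exact Ideal.mul_mem_mul (Ideal.mem_span_singleton_self x) hα
    obtain ⟨t, ht, h⟩ := Ideal.mem_span_singleton_mul.1 h1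
    exact ⟨t, ht, h.symm⟩
  have f2 : ∀ α' ∈ a', ∃ α ∈ a, x * α = y * α' := by
    intro α' hα'
    have h1 : y * α' ∈ sp x * a := by
      rw [hxa]
      exact Ideal.mul_mem_mul (Ideal.mem_span_singleton_self y) hα'
    obtain ⟨t, ht, h⟩ := Ideal.mem_span_singleton_mul.1 h1
    exact ⟨t, ht, h⟩
  have key : ∀ α α' : OO A B, x * α = y * α' → ∀ z : ℂ,
      emb α * (emb x / emb y * z) = emb α' * z := by
    intro α α' h1 z
    have h3 : emb x * emb α = emb y * emb α' := by rw [← _root_.Pool.Agent.MUX.emb_mul hc, ← _root_.Pool.Agent.MUX.emb_mul hc, h1]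
    field_simp
    linear_combination z * h3
  have hq : IsQ a' L L' (mu * emb x / emb y) := by
    refine ⟨div_ne_zero (mul_ne_zero hmu ex0) ey0, fun z => ?_⟩
    have e : mu * emb x / emb y * z = mu * (emb x / emb y * z) := by ring
    rw [e, hact.isq.2]
    constructor
    · intro h α' hα'
      obtain ⟨α, hα, h1⟩ := f2 α' hα'
      have h2 := h α hα
      rwa [key α α' h1 z] at h2
    · intro h α hα
      obtain ⟨α', hα', h1⟩ := f1 α hα
      rw [key α α' h1 z]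
      exact h α' hα'
  have hcop : IsCoprime (sp y) m := by
    obtain ⟨i, hi, j, hj, hij⟩ := Ideal.isCoprime_iff_exists.1 hx
    obtain ⟨c, rfl⟩ := Ideal.mem_span_singleton'.1 hi
    refine Ideal.isCoprime_iff_exists.2 ⟨c * y, Ideal.mem_span_singleton'.2 ⟨c, rfl⟩,
      j + c * (x - y), add_mem hj (m.mul_mem_left c hxy), ?_⟩
    linear_combination hij
  refine ⟨hact.kapE, ha', hq, fun z hz => ?_⟩
  have ht : mu * (emb x / emb y * z - z) ∈ L'.lattice := by
    rw [hact.isq.2]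
    intro α hα
    obtain ⟨α', hα', h1⟩ := f1 α hα
    refine tor_coprime hc hcop (L := L) ?_ ?_
    · rw [tor_span hc hcm]
      have e : emb y * (emb α * (emb x / emb y * z - z)) = emb α * (emb (x - y) * z) := by
        rw [_root_.Pool.Agent.MUX.emb_sub hc]
        field_simp
      rw [e]
      exact hcm α _ (hz _ hxy)
    · have e : emb α * (emb x / emb y * z - z) = emb α' * z + -(emb α * z) := by
        rw [mul_sub, key α α' h1 z]
        ring
      rw [e]
      exact (Tor.mul_emb hc hz α').add (Tor.mul_emb hc hz α).neg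
  have e : mu * emb x / emb y * z = mu * z + mu * (emb x / emb y * z - z) := by ring
  rw [e]
  exact CHG.pm_add (hact.act z hz) ht

end

end Pool.Agent.MEC


end

section

/-!
# ME, block CE (port of `MUX/C_X.lean`): module ACT, the field `act` of `TorXE`
-/

set_option autoImplicit false

open Polynomial NumberField IsDedekindDomain

namespace Pool.Agent.MEC

open _root_.Pool.Agent.ME
open _root_.Pool.Agent.MUXC (Sc_CLF Sc_COP Sc_TRO Sc_GEN Sc_ENO Sc_INV Sc_QCR Sc_QEX Sc_QNE Sc_ISL Sc_FEX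
  Sc_RP1 Sc_RP2 Sc_RP3 Sc_REP Sc_DNX Sc_NMC)
open _root_.MU3 _root_.Pool.Agent.MU3A _root_.Pool.Agent.MU3B _root_.Pool.Agent.MUX _root_.Pool.Agent.MUXU _root_.Pool.Agent.RI

theorem tc_ACT (h1 : Sc_CJN) (h2 : Sc_EXA) (h3 : Sc_IND) : Sc_ACT := by
  intro A B hC m hm σ hσ
  by_cases hne : ∃ (b : Ideal (OO A B)) (L : PeriodPair) (om : ℂ), IsNE b L om
  · obtain ⟨b, L, om, hL⟩ := hne
    obtain ⟨-, b', L', om', hL', -, hk⟩ := (h1 A B hC).1 σ hσ b L om hL
    obtain ⟨a, mu, ha⟩ := h2 A B hC σ hσ m b b' L L' om om' hm hL hL' hk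
    refine ⟨a, ha.cop, fun c M omm hM => ?_⟩
    obtain ⟨-, c', M', omm', hM', -, hk'⟩ := (h1 A B hC).1 σ hσ c M omm hM
    obtain ⟨nu, hnu⟩ := h3 A B hC σ hσ m a b b' c c' L L' M M' om om' omm omm' mu hm hL hL'
      hM hM' ha hk'
    exact ⟨c', M', omm', nu, hM', hnu⟩
  · refine ⟨⊤, ?_, fun b L om hL => absurd ⟨b, L, om, hL⟩ hne⟩
    rw [← Ideal.one_eq_top]
    exact isCoprime_one_left

end Pool.Agent.MEC


end

section

/-!
# MUX, block W: elementary properties of `ActH` (ACM)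
-/

set_option autoImplicit false

open WeierstrassCurve Polynomial NumberField IsDedekindDomain

namespace Pool.Agent.MUXW

open _root_.MU3 _root_.Pool.Agent.MU3A _root_.Pool.Agent.MU3B _root_.Pool.Agent.MU3C _root_.Pool.Agent.RI _root_.Pool.Agent.RID
open _root_.Pool.Agent.MUX _root_.Pool.Agent.MUXU
open _root_.Pool.Agent.MU3V (cls Sub GD)
open _root_.Pool.Agent.MUXV (GR InK tX CMO Ovr)

noncomputable section

namespace ACM

/-- the elementary facts on `emb` that are used -/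
structure EmbF (A B : ℤ) : Prop where
  mul : ∀ x y : OO A B, emb (x * y) = emb x * emb y
  add : ∀ x y : OO A B, emb (x + y) = emb x + emb y
  sub : ∀ x y : OO A B, emb (x - y) = emb x - emb y
  one : emb (1 : OO A B) = 1
  zero : emb (0 : OO A B) = 0
  inj : ∀ x y : OO A B, emb x = emb y → x = y

lemma embF (h : Pool.Agent.MUXV.Sq_EMB) {A B : ℤ} (hC : CQ A B) : EmbF A B := by
  obtain ⟨h1, h2, h3, h4, -, h6, -⟩ := h A B ⟨hC.hB, hC.neg, hC.fund1, hC.fund0⟩
  refine ⟨h1, h2, h3, ?_, ?_, h6⟩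
  · have := h4 1
    simpa using this
  · have := h4 0
    simpa using this

variable {A B : ℤ}

lemma emb_mem (E : EmbF A B) {b : Ideal (OO A B)} {L : PeriodPair} {om : ℂ} (hL : IsNL b L om)
    (x : OO A B) {z : ℂ} (hz : z ∈ L.lattice) : emb x * z ∈ L.lattice := by
  obtain ⟨y, hy, rfl⟩ := (hL.mem z).1 hz
  refine (hL.mem _).2 ⟨x * y, b.mul_mem_left x hy, ?_⟩
  rw [E.mul]
  ring

lemma kap_mem {m : OO A B} {F : IntermediateField (kk A B) ℂ} (hF : RF (sp m) ≤ F)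
    {b : Ideal (OO A B)} {L : PeriodPair} {om : ℂ} (hL : IsNL b L om) : kap L ∈ F :=
  hF (IntermediateField.subset_adjoin _ _ ⟨b, L, om, hL, Or.inl rfl⟩)

lemma xn_mem (E : EmbF A B) {m : OO A B} {F : IntermediateField (kk A B) ℂ} (hF : RF (sp m) ≤ F)
    {b : Ideal (OO A B)} {L : PeriodPair} {om : ℂ} (hL : IsNL b L om) {z : ℂ}
    (h1 : emb m * z ∈ L.lattice) (h2 : z ∉ L.lattice) : xn L z ∈ F := by
  refine hF (IntermediateField.subset_adjoin _ _ ⟨b, L, om, hL, Or.inr ⟨z, ?_, h2, rfl⟩⟩)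
  intro x hx
  obtain ⟨c, rfl⟩ := Ideal.mem_span_singleton.1 hx
  rw [E.mul, mul_comm (emb m), mul_assoc]
  exact emb_mem E hL c h1

lemma xn_neg (L : PeriodPair) (z : ℂ) : xn L (-z) = xn L z := by
  rw [xn, xn, L.weierstrassP_neg]

lemma xn_add (L : PeriodPair) (z l : ℂ) (hl : l ∈ L.lattice) : xn L (z + l) = xn L z := by
  rw [xn, xn, L.weierstrassP_add_coe z ⟨l, hl⟩]

lemma pt_down (E : EmbF A B) {b : Ideal (OO A B)} {L : PeriodPair} {om : ℂ} (hL : IsNL b L om)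
    {m m' : OO A B} (hd : m' ∣ m) {z : ℂ} (hz : emb m' * z ∈ L.lattice) :
    emb m * z ∈ L.lattice := by
  obtain ⟨c, rfl⟩ := hd
  rw [E.mul, mul_comm (emb m'), mul_assoc]
  exact emb_mem E hL c hz

lemma _root_.Pool.Agent.MUXW.ACM.act_mul (E : EmbF A B) {m : OO A B} (F : IntermediateField (kk A B) ℂ)
    (σ τ : F ≃ₐ[kk A B] F) (a b : OO A B) (hF : RF (sp m) ≤ F) (ha : ActH σ m a)
    (hb : ActH τ m b) : ActH (σ * τ) m (a * b) := by
  refine ⟨ha.cop.mul_left hb.cop, ?_, ?_⟩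
  · intro c L om hL h
    have e1 : τ ⟨kap L, h⟩ = ⟨kap L, h⟩ := Subtype.ext (hb.kap c L om hL h)
    have e2 : (σ * τ) ⟨kap L, h⟩ = σ (τ ⟨kap L, h⟩) := rfl
    rw [e2, e1]
    exact ha.kap c L om hL h
  · intro c L om hL z hz hzL
    obtain ⟨b1, b2⟩ := hb.pt c L om hL z hz hzL
    have hbz : emb m * (emb b * z) ∈ L.lattice := by
      rw [mul_left_comm]
      exact emb_mem E hL b hz
    obtain ⟨a1, a2⟩ := ha.pt c L om hL _ hbz b1
    have e : emb (a * b) * z = emb a * (emb b * z) := by rw [E.mul]; ring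
    rw [e]
    refine ⟨a1, fun hx => ?_⟩
    have e1 : (σ * τ) ⟨xn L z, hx⟩ = σ (τ ⟨xn L z, hx⟩) := rfl
    have e2 : τ ⟨xn L z, hx⟩ = ⟨xn L (emb b * z), xn_mem E hF hL hbz b1⟩ := Subtype.ext (b2 hx)
    rw [e1, e2, a2]

/-- `Tor` for a principal ideal -/
lemma tor_sp {m : OO A B} {L : PeriodPair} {z : ℂ} (h : Tor (sp m) L z) :
    emb m * z ∈ L.lattice := h m (Ideal.mem_span_singleton_self m)

lemma _root_.Pool.Agent.MUXW.ACM.act_ext (E : EmbF A B) {m : OO A B}
    {σ τ : (RF (sp m) : IntermediateField (kk A B) ℂ) ≃ₐ[kk A B] RF (sp m)} {a : OO A B}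
    (hσ : ActH σ m a) (hτ : ActH τ m a) : σ = τ := by
  refine AlgEquiv.ext fun x => Subtype.ext ?_
  obtain ⟨x, hx⟩ := x
  refine IntermediateField.adjoin_induction (F := kk A B)
    (p := fun x hx => ((σ ⟨x, hx⟩ : (RF (sp m) : IntermediateField (kk A B) ℂ)) : ℂ) =
      ((τ ⟨x, hx⟩ : (RF (sp m) : IntermediateField (kk A B) ℂ)) : ℂ)) ?_ ?_ ?_ ?_ ?_ hx
  · rintro x ⟨b, L, om, hL, rfl | ⟨z, hz, hzL, rfl⟩⟩
    · rw [hσ.kap b L om hL, hτ.kap b L om hL]
    · have hz' := tor_sp hz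
      rw [(hσ.pt b L om hL z hz' hzL).2, (hτ.pt b L om hL z hz' hzL).2]
  · intro r
    exact congrArg Subtype.val ((σ.commutes r).trans (τ.commutes r).symm)
  · intro x y hx hy h1 h2
    have e : (⟨x + y, add_mem hx hy⟩ : (RF (sp m) : IntermediateField (kk A B) ℂ)) =
      ⟨x, hx⟩ + ⟨y, hy⟩ := rfl
    rw [e, map_add, map_add]
    exact congrArg₂ (· + ·) h1 h2
  · intro x hx h1
    have e : (⟨x⁻¹, inv_mem hx⟩ : (RF (sp m) : IntermediateField (kk A B) ℂ)) = (⟨x, hx⟩)⁻¹ := rfl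
    rw [e, map_inv₀, map_inv₀]
    exact congrArg (·⁻¹) h1
  · intro x y hx hy h1 h2
    have e : (⟨x * y, mul_mem hx hy⟩ : (RF (sp m) : IntermediateField (kk A B) ℂ)) =
      ⟨x, hx⟩ * ⟨y, hy⟩ := rfl
    rw [e, map_mul, map_mul]
    exact congrArg₂ (· * ·) h1 h2

lemma act_trH (E : EmbF A B) {m : OO A B} (F : IntermediateField (kk A B) ℂ)
    (σ : F ≃ₐ[kk A B] F) (a : OO A B) (hF : RF (sp m) ≤ F) (ha : ActH σ m a) : TrH σ := by
  have key : ∀ x : ℂ, x ∈ (RF (⊤ : Ideal (OO A B)) : IntermediateField (kk A B) ℂ) →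
      ∃ h : x ∈ F, σ ⟨x, h⟩ = ⟨x, h⟩ := by
    intro x hx
    refine IntermediateField.adjoin_induction (F := kk A B)
      (p := fun x _ => ∃ h : x ∈ F, σ ⟨x, h⟩ = ⟨x, h⟩) ?_ ?_ ?_ ?_ ?_ hx
    · rintro x ⟨b, L, om, hL, rfl | ⟨z, hz, hzL, rfl⟩⟩
      · exact ⟨kap_mem hF hL, Subtype.ext (ha.kap b L om hL _)⟩
      · exact absurd (by simpa [E.one] using hz 1 trivial) hzL
    · intro r
      exact ⟨F.algebraMap_mem r, σ.commutes r⟩
    · rintro x y hx hy ⟨hx1, h1⟩ ⟨hy1, h2⟩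
      refine ⟨add_mem hx1 hy1, ?_⟩
      have e : (⟨x + y, add_mem hx1 hy1⟩ : F) = ⟨x, hx1⟩ + ⟨y, hy1⟩ := rfl
      rw [e, map_add, h1, h2]
    · rintro x hx ⟨hx1, h1⟩
      refine ⟨inv_mem hx1, ?_⟩
      have e : (⟨x⁻¹, inv_mem hx1⟩ : F) = (⟨x, hx1⟩)⁻¹ := rfl
      rw [e, map_inv₀, h1]
    · rintro x y hx hy ⟨hx1, h1⟩ ⟨hy1, h2⟩
      refine ⟨mul_mem hx1 hy1, ?_⟩
      have e : (⟨x * y, mul_mem hx1 hy1⟩ : F) = ⟨x, hx1⟩ * ⟨y, hy1⟩ := rfl
      rw [e, map_mul, h1, h2]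
  intro x hx
  obtain ⟨h, h1⟩ := key x hx
  exact h1

lemma act_uniq (E : EmbF A B) {L : PeriodPair} {Om : ℂ} (hL : IsNL (⊤ : Ideal (OO A B)) L Om)
    {m : OO A B} (hm : m ≠ 0) (F : IntermediateField (kk A B) ℂ) (σ : F ≃ₐ[kk A B] F)
    (a a' : OO A B) (hF : RF (sp m) ≤ F) (ha : ActH σ m a) (ha' : ActH σ m a') :
    m ∣ a - a' ∨ m ∣ a + a' := by
  have hm0 : emb m ≠ 0 := fun h0 => hm (E.inj _ _ (h0.trans E.zero.symm))
  have hdiv : ∀ x : OO A B, emb x * (Om / emb m) ∈ L.lattice → m ∣ x := by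
    intro x hx
    obtain ⟨y, -, hy⟩ := (hL.mem _).1 hx
    refine ⟨y, E.inj _ _ ?_⟩
    rw [E.mul]
    have h0 := hL.om_ne
    field_simp at hy
    rw [hy]
  by_cases hz : Om / emb m ∈ L.lattice
  · left
    have h1 : m ∣ 1 := hdiv 1 (by rw [E.one, one_mul]; exact hz)
    exact h1.trans (one_dvd _)
  · have hz' : emb m * (Om / emb m) ∈ L.lattice := by
      rw [mul_div_cancel₀ _ hm0]
      exact (hL.mem _).2 ⟨1, trivial, by rw [E.one, mul_one]⟩
    obtain ⟨a1, a2⟩ := ha.pt ⊤ L Om hL _ hz' hz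
    obtain ⟨b1, b2⟩ := ha'.pt ⊤ L Om hL _ hz' hz
    have e1 := (a2 (xn_mem E hF hL hz' hz)).symm.trans (b2 (xn_mem E hF hL hz' hz))
    have e2 : L.weierstrassP (emb a * (Om / emb m)) = L.weierstrassP (emb a' * (Om / emb m)) := by
      simpa [xn] using e1
    rcases b_NEQ L _ _ b1 a1 e2 with h | h
    · left
      apply hdiv
      rw [E.sub, sub_mul]
      exact h
    · right
      apply hdiv
      rw [E.add, add_mul]
      exact h

lemma act_congr (E : EmbF A B) {m : OO A B} (F : IntermediateField (kk A B) ℂ)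
    (σ : F ≃ₐ[kk A B] F) (a a' : OO A B) (hd : m ∣ a - a' ∨ m ∣ a + a') (ha : ActH σ m a) :
    ActH σ m a' := by
  rcases hd with ⟨c, hc⟩ | ⟨c, hc⟩
  · have e : a' = a + m * (-c) := by linear_combination -hc
    refine ⟨?_, ha.kap, fun b L om hL z hz hzL => ?_⟩
    · rw [e]
      exact ha.cop.add_mul_left_left _
    · obtain ⟨a1, a2⟩ := ha.pt b L om hL z hz hzL
      have hmem : emb (-c) * (emb m * z) ∈ L.lattice := emb_mem E hL (-c) hz
      have e2 : emb a' * z = emb a * z + emb (-c) * (emb m * z) := by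
        rw [e, E.add, E.mul]
        ring
      rw [e2, xn_add L _ _ hmem]
      refine ⟨fun hc' => a1 ?_, a2⟩
      have := sub_mem hc' hmem
      simpa using this
  · have e : a' = -(a + m * (-c)) := by linear_combination hc
    have hneg : ∀ x : OO A B, emb (-x) = -emb x := by
      intro x
      have := E.sub 0 x
      rw [zero_sub, E.zero, zero_sub] at this
      exact this
    refine ⟨?_, ha.kap, fun b L om hL z hz hzL => ?_⟩
    · rw [e]
      exact (ha.cop.add_mul_left_left _).neg_left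
    · obtain ⟨a1, a2⟩ := ha.pt b L om hL z hz hzL
      have hmem : emb (-c) * (emb m * z) ∈ L.lattice := emb_mem E hL (-c) hz
      have e2 : emb a' * z = -(emb a * z + emb (-c) * (emb m * z)) := by
        rw [e, hneg, E.add, E.mul]
        ring
      rw [e2, xn_neg, xn_add L _ _ hmem]
      refine ⟨fun hc' => a1 ?_, a2⟩
      have := sub_mem (neg_mem hc') hmem
      simpa using this

end ACM

open _root_.Pool.Agent.MUXW.ACM in
theorem ty_ACM (h : Pool.Agent.MUXV.Sq_EMB) : Sy_ACM := by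
  intro A B hC L Om hL m hm
  have E := embF h hC
  refine ⟨fun F σ a a' hF => act_uniq E hL hm F σ a a' hF, fun F σ a a' => act_congr E F σ a a',
    ?_, fun F σ τ a b => _root_.Pool.Agent.MUXW.ACM.act_mul E F σ τ a b, fun σ τ a => _root_.Pool.Agent.MUXW.ACM.act_ext E, ?_,
    fun F σ a hF => act_trH E F σ a hF, ?_⟩
  · intro F σ m' a hd ha
    refine ⟨ha.cop.of_isCoprime_of_dvd_right hd, ha.kap, fun b L om hL z hz hzL => ?_⟩
    exact ha.pt b L om hL z (pt_down E hL hd hz) hzL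
  · intro F
    refine ⟨isCoprime_one_left, fun b L om hL h => rfl, fun b L om hL z hz hzL => ?_⟩
    rw [E.one, one_mul]
    exact ⟨hzL, fun hx => rfl⟩
  · intro m' σ σ' a hd hσ ha
    refine ⟨ha.cop.of_isCoprime_of_dvd_right hd, fun b L om hL h => ?_,
      fun b L om hL z hz hzL => ?_⟩
    · have hx : kap L ∈ (RF (sp m) : IntermediateField (kk A B) ℂ) := kap_mem le_rfl hL
      rw [← hσ ⟨kap L, h⟩ hx]
      exact ha.kap b L om hL hx
    · have hz' := pt_down E hL hd hz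
      obtain ⟨a1, a2⟩ := ha.pt b L om hL z hz' hzL
      refine ⟨a1, fun h => ?_⟩
      have hx : xn L z ∈ (RF (sp m) : IntermediateField (kk A B) ℂ) := xn_mem E le_rfl hL hz' hzL
      rw [← hσ ⟨xn L z, h⟩ hx]
      exact a2 hx

end

end Pool.Agent.MUXW


end

section

/-!
# MUX, block W, module TOW: the norm in two steps
-/

set_option autoImplicit false

namespace Pool.Agent.MUXW

open _root_.MU3 _root_.Pool.Agent.MU3A _root_.Pool.Agent.MU3B _root_.Pool.Agent.MU3C _root_.Pool.Agent.RI _root_.Pool.Agent.RID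
open _root_.Pool.Agent.MUX _root_.Pool.Agent.MUXU
open _root_.Pool.Agent.MU3V (cls Sub GD)

noncomputable section

/-- the norm in two steps -/
theorem ty_TOW (hM : Sy_MEM) : Sy_TOW := by
  classical
  intro A B F hfd hgal hcomm D₀ D h₀ h hle hsub θ hθ
  letI := algC h
  intro h1
  obtain ⟨-, -, m3, m4, m5⟩ := hM A B F hfd hgal hcomm D h hsub θ hθ
  have hfinF : Finite (F ≃ₐ[kk A B] F) := inferInstance
  have huniq : ∀ (σ : F ≃ₐ[kk A B] F) (τ τ' : D ≃ₐ[kk A B] D), Ext1 h τ σ → Ext1 h τ' σ →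
      τ = τ' := by
    intro σ τ τ' e1 e2
    apply AlgEquiv.ext
    intro y
    exact Subtype.ext ((e1 y (hsub y y.2)).symm.trans (e2 y (hsub y y.2)))
  have hfinD : Finite (D ≃ₐ[kk A B] D) := by
    choose s hs using m4
    refine Finite.of_injective s ?_
    intro τ τ' e
    refine huniq (s τ) τ τ' (hs τ) ?_
    rw [e]
    exact hs τ'
  have hfinNC : Finite (NC h D₀) := Subtype.finite
  letI : Fintype (F ≃ₐ[kk A B] F) := Fintype.ofFinite _
  letI : Fintype (GD h₀ F) := Fintype.ofFinite _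
  letI : Fintype (NC h D₀) := Fintype.ofFinite _
  letI : ∀ g : NC h D₀, Fintype {σ : F ≃ₐ[kk A B] F // Ext1 h (g : D ≃ₐ[kk A B] D) σ} :=
    fun g => Fintype.ofFinite _
  have e1 : ∀ g : NC h D₀, (((g : D ≃ₐ[kk A B] D) ⟨cW h θ, h1⟩ : D) : ℂ) =
      ∏ σ : {σ : F ≃ₐ[kk A B] F // Ext1 h (g : D ≃ₐ[kk A B] D) σ}, ((σ.1 θ : F) : ℂ) := by
    intro g
    rw [m3 g h1, cWt, finprod_eq_prod_of_fintype]
  rw [finprod_congr e1, finprod_eq_prod_of_fintype, ← Fintype.prod_sigma', cW,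
    finprod_eq_prod_of_fintype]
  symm
  have hmem : ∀ p : Σ g : NC h D₀, {σ : F ≃ₐ[kk A B] F // Ext1 h (g : D ≃ₐ[kk A B] D) σ},
      p.2.1 ∈ GD h₀ F := by
    rintro ⟨g, σ, hσ⟩ y hy0 hyF
    apply Subtype.ext
    have a1 := hσ ⟨y, hle hy0⟩ hyF
    have a2 := g.2 ⟨y, hle hy0⟩ hy0
    rw [a1]
    exact congrArg Subtype.val a2
  refine Fintype.prod_bijective (fun p => (⟨p.2.1, hmem p⟩ : GD h₀ F)) ⟨?_, ?_⟩ _ _ ?_
  · rintro ⟨g, σ, hσ⟩ ⟨g', σ', hσ'⟩ e
    have e2 : σ = σ' := congrArg (fun x : GD h₀ F => (x : F ≃ₐ[kk A B] F)) e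
    subst e2
    have e3 : g = g' := Subtype.ext (huniq σ g g' hσ hσ')
    subst e3
    rfl
  · rintro ⟨σ, hσ⟩
    obtain ⟨τ, hτ⟩ := m5 σ
    refine ⟨⟨⟨τ, ?_⟩, σ, hτ⟩, rfl⟩
    intro x hx
    apply Subtype.ext
    rw [← hτ x (hsub x x.2), hσ x hx (hsub x x.2)]
  · intro p
    rfl

end

end Pool.Agent.MUXW


end

section

/-!
# MUX, block W: module THG, the values of `Θ_a` at points of level `m`
-/

set_option autoImplicit false

open WeierstrassCurve Polynomial NumberField IsDedekindDomain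

namespace Pool.Agent.MUXW

open _root_.MU3 _root_.Pool.Agent.MU3A _root_.Pool.Agent.MU3B _root_.Pool.Agent.MU3C _root_.Pool.Agent.RI _root_.Pool.Agent.RID
open _root_.Pool.Agent.MUX _root_.Pool.Agent.MUXU
open _root_.Pool.Agent.MU3V (cls Sub GD)
open _root_.Pool.Agent.MUXV (GR InK tX CMO Ovr)

noncomputable section

private lemma thg_wC_MUXW_THG {A B : ℤ} (h : CQ A B) : wC A B * wC A B = A + B * wC A B := by
  have h1 : (0 : ℝ) ≤ (absD A B : ℝ) := by
    have := h.neg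
    have h0 : 0 ≤ absD A B := by
      unfold absD
      omega
    exact_mod_cast h0
  have h2 : ((Real.sqrt (absD A B) : ℝ) : ℂ) ^ 2 = (absD A B : ℂ) := by
    rw [← Complex.ofReal_pow, Real.sq_sqrt h1]
    norm_num
  have h3 : Complex.I ^ 2 = -1 := Complex.I_sq
  have h4 : (absD A B : ℂ) = -((B : ℂ) ^ 2 + 4 * A) := by simp [absD]
  unfold wC
  linear_combination (Complex.I ^ 2 / 4) * h2 + ((absD A B : ℂ) / 4) * h3 - (1 / 4) * h4

private lemma thg_mul_MUXW_THG {A B : ℤ} (h : CQ A B) (x y : OO A B) :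
    emb (x * y) = emb x * emb y := by
  have h1 := thg_wC_MUXW_THG h
  simp only [emb, QuadraticAlgebra.re_mul, QuadraticAlgebra.im_mul]
  push_cast
  linear_combination (-(x.im : ℂ) * y.im) * h1

private lemma thg_fin_MUXW_THG {A B : ℤ} (hc : CQ A B) : FiniteDimensional ℚ (kk A B) := by
  have h0 : _root_.IsIntegral ℤ (wC A B) := by
    refine ⟨Polynomial.X ^ 2 - Polynomial.C B * Polynomial.X - Polynomial.C A, ?_, ?_⟩
    · monicity!
    · have := thg_wC_MUXW_THG hc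
      simp only [Polynomial.eval₂_sub, Polynomial.eval₂_mul, Polynomial.eval₂_pow,
        Polynomial.eval₂_X, Polynomial.eval₂_C]
      simp only [algebraMap_int_eq, eq_intCast]
      linear_combination this
  have h1 : _root_.IsIntegral ℚ (wC A B) := h0.tower_top
  exact IntermediateField.adjoin.finiteDimensional h1

private lemma thg_cj_MUXW_THG (s : ℂ ≃+* ℂ) {A B : ℤ} {b b' : Ideal (OO A B)} {L L' : PeriodPair}
    {om om' : ℂ} (hL : IsNL b L om) (hL' : IsNL b' L' om') (h : s (kap L) = kap L') :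
    IsCj s L L' := by
  have h1 : L'.g₂ = s L.g₂ := by
    unfold kap at h
    rw [map_div₀, map_sub, map_mul, map_one, map_ofNat, map_ofNat] at h
    have h2 : (1728 : ℂ) ≠ 0 := by norm_num
    field_simp at h
    linear_combination (-1 / 12 : ℂ) * h
  refine ⟨h1, ?_⟩
  have h3 := hL.nrm
  have h4 := hL'.nrm
  have h5 : s L.g₂ = -18 * s L.g₃ := by
    rw [h3, map_mul, map_neg, map_ofNat]
  rw [h4, h5] at h1
  linear_combination (-1 / 18 : ℂ) * h1

private lemma thg_wp_MUXW_THG (s : ℂ ≃+* ℂ) (L L' : PeriodPair) (z z' : ℂ) (h : s (xn L z) = xn L' z') :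
    L'.weierstrassP z' = s (L.weierstrassP z) := by
  unfold xn at h
  rw [map_sub, map_div₀, map_one, map_ofNat] at h
  linear_combination -h

theorem ty_THG (hTHC : Sy_THC) (hAUE : Su_AUE) (hAUF : Su_AUF) : Sy_THG := by
  intro A B hc T b₀ L om hL m hm a H ha hH z hz hz0
  have htor : Tor (sp m) L z := by
    intro x hx
    obtain ⟨t, rfl⟩ := Ideal.mem_span_singleton.1 hx
    obtain ⟨y, hy, hy'⟩ := (hL.mem _).1 hz
    rw [mul_comm m t, thg_mul_MUXW_THG hc, mul_assoc, hy']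
    refine (hL.mem _).2 ⟨t * y, Ideal.mul_mem_left _ _ hy, ?_⟩
    rw [thg_mul_MUXW_THG hc]
    ring
  have hk : kap L ∈ (RF (sp m) : IntermediateField (kk A B) ℂ) :=
    IntermediateField.subset_adjoin _ _ ⟨b₀, L, om, hL, Or.inl rfl⟩
  have hx : xn L z ∈ (RF (sp m) : IntermediateField (kk A B) ℂ) :=
    IntermediateField.subset_adjoin _ _ ⟨b₀, L, om, hL, Or.inr ⟨z, htor, hz0, rfl⟩⟩
  have hfk := thg_fin_MUXW_THG hc
  have hsp : sp m ≠ ⊥ := by
    rwa [Ne, Ideal.span_singleton_eq_bot]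
  have hfF := T.fin (sp m) hsp
  let F : IntermediateField ℚ ℂ :=
    (RF (sp m) : IntermediateField (kk A B) ℂ).restrictScalars ℚ
  have hFalg : Algebra.IsAlgebraic ℚ F := by
    have h1 : FiniteDimensional ℚ (RF (sp m) : IntermediateField (kk A B) ℂ) :=
      FiniteDimensional.trans ℚ (kk A B) (RF (sp m) : IntermediateField (kk A B) ℂ)
    have h2 : Algebra.IsAlgebraic ℚ (RF (sp m) : IntermediateField (kk A B) ℂ) := inferInstance
    exact h2
  have hz' : ThetaH L H z ∈ (RF (sp m) : IntermediateField (kk A B) ℂ) := by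
    have h1 : ThetaH L H z ∈ F := by
      refine hAUF F hFalg _ fun s hs => ?_
      have h2 : s (kap L) = kap L := hs _ hk
      have h3 : s (xn L z) = xn L z := hs _ hx
      exact hTHC s L L (thg_cj_MUXW_THG s hL hL h2) a H H ha hH hH z z hz0 hz0 (thg_wp_MUXW_THG s L L z z h3)
    exact h1
  refine ⟨hk, hx, hz', ?_⟩
  have main : ∀ (σ : (RF (sp m) : IntermediateField (kk A B) ℂ) ≃ₐ[kk A B] RF (sp m))
        (b' : Ideal (OO A B)) (L' : PeriodPair) (om' : ℂ) (H' : Finset ℂ) (z' : ℂ),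
        IsNL b' L' om' → IsHalf L' a H' → z' ∉ L'.lattice →
        ((σ ⟨kap L, hk⟩ : (RF (sp m) : IntermediateField (kk A B) ℂ)) : ℂ) = kap L' →
        ((σ ⟨xn L z, hx⟩ : (RF (sp m) : IntermediateField (kk A B) ℂ)) : ℂ) = xn L' z' →
        ((σ ⟨ThetaH L H z, hz'⟩ : (RF (sp m) : IntermediateField (kk A B) ℂ)) : ℂ) =
          ThetaH L' H' z' := by
    intro σ b' L' om' H' z' hL' hH' hz'' h1 h2
    let τ : F →+* ℂ :=
      ((algebraMap (RF (sp m) : IntermediateField (kk A B) ℂ) ℂ).comp (σ : _ →+* _) :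
        (RF (sp m) : IntermediateField (kk A B) ℂ) →+* ℂ)
    obtain ⟨s, hs⟩ := hAUE F hFalg τ
    have h3 : s (kap L) = kap L' := (hs ⟨kap L, hk⟩).trans h1
    have h4 : s (xn L z) = xn L' z' := (hs ⟨xn L z, hx⟩).trans h2
    have h5 := hTHC s L L' (thg_cj_MUXW_THG s hL hL' h3) a H H' ha hH hH' z z' hz0 hz''
      (thg_wp_MUXW_THG s L L' z z' h4)
    rw [← h5]
    exact (hs ⟨ThetaH L H z, hz'⟩).symm
  refine ⟨main, ?_⟩
  intro σ b hσ
  obtain ⟨h1, h2⟩ := hσ.pt b₀ L om hL z hz hz0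
  exact main σ b₀ L om H (emb b * z) hL hH h1 (hσ.kap b₀ L om hL hk) (h2 hx)

end

end Pool.Agent.MUXW


end

section

/-!
# MUX, block W, module INV (helper23): automorphisms which are trivial modulo `V`
-/

set_option autoImplicit false

open WeierstrassCurve Polynomial NumberField IsDedekindDomain

namespace Pool.Agent.MUXW

open _root_.MU3 _root_.Pool.Agent.MU3A _root_.Pool.Agent.MU3B _root_.Pool.Agent.MU3C _root_.Pool.Agent.RI _root_.Pool.Agent.RID
open _root_.Pool.Agent.MUX _root_.Pool.Agent.MUXU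
open _root_.Pool.Agent.MU3V (cls Sub GD)
open _root_.Pool.Agent.MUXV (GR InK tX CMO Ovr Sq_EMB)

noncomputable section

/-- an automorphism which is trivial modulo `V` acts as `1` or `-1` on `E[m]` -/
theorem ty_INV (hE : Sq_EMB) : Sy_INV := by
  intro A B h L Om hL m hm V hG hK F hF σ hσ a ha
  obtain ⟨emul, eadd, esub, eint, enat, einj, -⟩ := hE A B ⟨h.hB, h.neg, h.fund1, h.fund0⟩
  obtain ⟨W, ξ, G⟩ := hG
  by_cases hu : IsUnit m
  · exact Or.inl hu.dvd
  have e0 : emb (0 : OO A B) = 0 := by simpa using eint 0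
  have e1 : emb (1 : OO A B) = 1 := by simpa using eint 1
  have hm0 : emb m ≠ 0 := fun h0 => hm (einj _ _ (by rw [h0, e0]))
  have hOm := hL.om_ne
  have hmem : ∀ c : OO A B, Om * emb c ∈ L.lattice := fun c =>
    (hL.mem _).2 ⟨c, Submodule.mem_top, rfl⟩
  have hdvd : ∀ c : OO A B, emb c * (Om / emb m) ∈ L.lattice → m ∣ c := by
    intro c hc
    obtain ⟨x, -, hx⟩ := (hL.mem _).1 hc
    refine ⟨x, einj _ _ ?_⟩
    rw [emul]
    field_simp at hx
    exact hx
  have hz : Om / emb m ∉ L.lattice := by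
    intro h0
    apply hu
    rw [isUnit_iff_dvd_one]
    apply hdvd
    rw [e1, one_mul]
    exact h0
  have hmc : ∀ c : OO A B, emb m * (emb c * (Om / emb m)) ∈ L.lattice := by
    intro c
    have e : emb m * (emb c * (Om / emb m)) = Om * emb c := by field_simp
    rw [e]
    exact hmem c
  have hmz : emb m * (Om / emb m) ∈ L.lattice := by
    have := hmc 1
    rwa [e1, one_mul] at this
  obtain ⟨haz, hx⟩ := ha.pt ⊤ L Om hL _ hmz hz
  have hxF : xn L (Om / emb m) ∈ F := by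
    apply hF
    refine IntermediateField.subset_adjoin _ _ ⟨⊤, L, Om, hL, Or.inr ⟨_, ?_, hz, rfl⟩⟩
    intro x hx
    obtain ⟨y, rfl⟩ := Ideal.mem_span_singleton.1 hx
    rw [emul, mul_assoc]
    exact hmc y
  have hz1 : ¬ InK V L (fun z => L.weierstrassP z - 1 / 12) (Om / emb m) := fun h0 =>
    hz (hK _ hmz h0)
  have hz2 : ¬ InK V L (fun z => L.weierstrassP z - 1 / 12) (emb a * (Om / emb m)) := fun h0 =>
    haz (hK _ (hmc a) h0)
  have hx1 : V.valuation (xn L (emb a * (Om / emb m)) - xn L (Om / emb m)) < 1 := by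
    have h3 := hσ ⟨_, hxF⟩
      ((ValuationSubring.valuation_le_one_iff _ _).1 (Pool.Agent.MUXV.int_X hz1).2)
    rwa [hx hxF] at h3
  by_contra hcon
  rw [not_or] at hcon
  have hm1 : ¬ InK V L (fun z => L.weierstrassP z - 1 / 12)
      (emb a * (Om / emb m) - Om / emb m) := by
    intro h0
    have e : emb a * (Om / emb m) - Om / emb m = emb (a - 1) * (Om / emb m) := by
      rw [esub, e1]
      ring
    rw [e] at h0
    exact hcon.1 (hdvd _ (hK _ (hmc (a - 1)) h0))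
  have hp1 : ¬ InK V L (fun z => L.weierstrassP z - 1 / 12)
      (emb a * (Om / emb m) + Om / emb m) := by
    intro h0
    have e : emb a * (Om / emb m) + Om / emb m = emb (a + 1) * (Om / emb m) := by
      rw [eadd, e1]
      ring
    rw [e] at h0
    exact hcon.2 (hdvd _ (hK _ (hmc (a + 1)) h0))
  have h9 := Pool.Agent.MUXV.v_X_sub G hz2 hz1 hp1 hm1
  exact absurd h9 hx1.ne

end

end Pool.Agent.MUXW


end
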