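import Mathlib
import Pool.Agent.MVF.C033
import Pool.Agent.MVF.C035
import Pool.Agent.MVF.C041

/-! Parts: NS.T_UNF, N2.T3_UNF, N2.T2_UNF, N2.T2_FGP, MU3.I_IGAM -/

namespace Pool.Agent.MU3I.IGAM
end Pool.Agent.MU3I.IGAM
namespace Pool.Agent.NST.UNF
end Pool.Agent.NST.UNF

section

/-!
# MUX-NS, block TN, module UNF (helper37): the inertia field is unramified
-/

set_option autoImplicit false

open NumberField IsDedekindDomain

namespace Pool.Agent.NST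

open _root_.MU3 _root_.Pool.Agent.MU3A _root_.Pool.Agent.MU3B _root_.Pool.Agent.RI _root_.Pool.Agent.MUX _root_.Pool.Agent.MUXU
open OnePoint _root_.Pool.Agent.NS
open _root_.Pool.Agent.MUXV (GR InK)
open _root_.Pool.Agent.NSE (CtxN E3 su ru Rep)
open _root_.Pool.Agent.MUXY (ActN Dn)

noncomputable section

namespace UNF

open Ideal _root_.Pool.Agent.MU3E.RAM

section
variable {V : ValuationSubring ℂ} {k F : Type} [Field k] [NumberField k] [Field F] [NumberField F]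
  [Algebra k F] (io : F →+* ℂ) {w : HeightOneSpectrum (𝓞 F)}

omit [NumberField k] in
/-- elements of the inertia group at `V` -/
lemma inertia_lt (hw : ∀ x : 𝓞 F, x ∈ w.asIdeal ↔ V.valuation (io x) < 1) {σ : F ≃ₐ[k] F}
    (hσ : σ ∈ w.asIdeal.inertia (F ≃ₐ[k] F)) {x : F} (hx : V.valuation (io x) ≤ 1) :
    V.valuation (io (σ x) - io x) < 1 := by
  obtain ⟨n, d, hnd⟩ := w.exists_primeCompl_mul_eq_of_integer x (le_ord io hw hx)
  have hσ1 : ∀ y : 𝓞 F, σ • y - y ∈ w.asIdeal := hσ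
  have hcoe : ∀ y : 𝓞 F, ((σ • y : 𝓞 F) : F) = σ (y : F) := fun y => rfl
  have hd1 : V.valuation (io ((d : 𝓞 F) : F)) = 1 := val_notMem io hw (x := d) d.2
  have hσd : (σ • (d : 𝓞 F) : 𝓞 F) ∉ w.asIdeal := by
    intro h
    have h2 := w.asIdeal.sub_mem h (hσ1 (d : 𝓞 F))
    rw [sub_sub_cancel] at h2
    exact d.2 h2
  have hd2 : V.valuation (io (σ ((d : 𝓞 F) : F))) = 1 := val_notMem io hw hσd
  have hd0 : ((d : 𝓞 F) : F) ≠ 0 := by
    intro h
    rw [h, map_zero, map_zero] at hd1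
    exact zero_ne_one hd1
  have hσd0 : σ ((d : 𝓞 F) : F) ≠ 0 := (map_ne_zero σ).2 hd0
  have hn := (hw _).1 (hσ1 n)
  have hd3 := (hw _).1 (hσ1 (d : 𝓞 F))
  have hnd' : x * ((d : 𝓞 F) : F) = ((n : 𝓞 F) : F) := hnd
  have hnd2 : σ x * σ ((d : 𝓞 F) : F) = σ ((n : 𝓞 F) : F) := by rw [← map_mul, hnd']
  have e1 : io (σ x) - io x = ((io (σ ((n : 𝓞 F) : F)) - io ((n : 𝓞 F) : F)) * io ((d : 𝓞 F) : F)
      - io ((n : 𝓞 F) : F) * (io (σ ((d : 𝓞 F) : F)) - io ((d : 𝓞 F) : F)))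
        / (io ((d : 𝓞 F) : F) * io (σ ((d : 𝓞 F) : F))) := by
    have i1 : io ((d : 𝓞 F) : F) ≠ 0 := (map_ne_zero io).2 hd0
    have i2 : io (σ ((d : 𝓞 F) : F)) ≠ 0 := (map_ne_zero io).2 hσd0
    rw [← hnd2, ← hnd', map_mul, map_mul]
    field_simp
    ring
  rw [e1, map_div₀, map_mul V.valuation (io ((d : 𝓞 F) : F)), hd1, hd2, one_mul, div_one]
  refine lt_of_le_of_lt (V.valuation.map_sub _ _) (max_lt ?_ ?_)
  · rw [map_mul, hd1, mul_one]
    have : V.valuation (io (((σ • n - n : 𝓞 F)) : F)) < 1 := hn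
    rwa [show (((σ • n - n : 𝓞 F)) : F) = σ ((n : 𝓞 F) : F) - ((n : 𝓞 F) : F) from by
      rw [← hcoe]; exact map_sub (algebraMap (𝓞 F) F) _ _, map_sub] at this
  · rw [map_mul]
    have : V.valuation (io (((σ • (d : 𝓞 F) - (d : 𝓞 F) : 𝓞 F)) : F)) < 1 := hd3
    rw [show (((σ • (d : 𝓞 F) - (d : 𝓞 F) : 𝓞 F)) : F)
        = σ ((d : 𝓞 F) : F) - ((d : 𝓞 F) : F) from by
      rw [← hcoe]; exact map_sub (algebraMap (𝓞 F) F) _ _, map_sub] at this
    exact mul_lt_one_of_nonneg_of_lt_one_right (int_le io n) zero_le this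

/-- the ramification index is the order of the inertia group -/
lemma val_card [IsGalois k F] (w : HeightOneSpectrum (𝓞 F)) : ∃ v : HeightOneSpectrum (𝓞 k),
    v.asIdeal = w.asIdeal.under (𝓞 k) ∧ ∀ x : k, w.valuation F (algebraMap k F x) =
      v.valuation k x ^ Nat.card (w.asIdeal.inertia (F ≃ₐ[k] F)) := by
  set p : Ideal (𝓞 k) := w.asIdeal.under (𝓞 k) with hp
  have hlo : w.asIdeal.LiesOver p := ⟨rfl⟩
  have hwp : w.asIdeal.IsPrime := w.isPrime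
  have hpp : p.IsPrime := Ideal.IsPrime.under (𝓞 k) w.asIdeal
  have hp0 : p ≠ ⊥ := (w.under (𝓞 k)).ne_bot
  have hfin : Finite (𝓞 k ⧸ p) := Ideal.finiteQuotientOfFreeOfNeBot p hp0
  have hmax : p.IsMaximal := hpp.isMaximal hp0
  have hfr : Finite p.ResidueField :=
    Finite.of_surjective (algebraMap (𝓞 k ⧸ p) p.ResidueField)
      (Ideal.bijective_algebraMap_quotient_residueField p).2
  have h1 := Ideal.card_inertia_eq_ramificationIdxIn (G := F ≃ₐ[k] F) p w.asIdeal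
  rw [Ideal.ramificationIdxIn_eq_ramificationIdx p w.asIdeal (F ≃ₐ[k] F)] at h1
  have h2 : p.ramificationIdx' w.asIdeal = Nat.card (w.asIdeal.inertia (F ≃ₐ[k] F)) := by
    rw [Ideal.ramificationIdx'_eq_ramificationIdx' p w.asIdeal
      (Ideal.map_ne_bot_of_ne_bot hp0), ← h1]
  let v : HeightOneSpectrum (𝓞 k) := ⟨p, hpp, hp0⟩
  have hlo' : w.asIdeal.LiesOver v.asIdeal := ⟨rfl⟩
  refine ⟨v, rfl, fun x => ?_⟩
  have h3 := HeightOneSpectrum.valuation_liesOver (K := k) F v w x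
  rw [← h2]
  exact h3.symm

end

/-- for a subfield `K` fixed by the inertia group `I`, the inertia group of `F / K` has the order of `I` -/
lemma card_fixed {k F : Type} [Field k] [NumberField k] [Field F] [NumberField F]
    [Algebra k F] [IsGalois k F] (w : HeightOneSpectrum (𝓞 F)) (K : IntermediateField k F)
    (hK : K = IntermediateField.fixedField (w.asIdeal.inertia (F ≃ₐ[k] F))) :
    Nat.card (w.asIdeal.inertia (F ≃ₐ[K] F)) = Nat.card (w.asIdeal.inertia (F ≃ₐ[k] F)) := by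
  have hfd : FiniteDimensional k F := by
    have h1 : FiniteDimensional ℚ F := inferInstance
    exact Pool.Agent.FX.fright ℚ k F
  have htop : w.asIdeal.inertia (F ≃ₐ[K] F) = ⊤ := by
    rw [eq_top_iff]
    intro σ _
    have h1 : σ.restrictScalars k ∈ w.asIdeal.inertia (F ≃ₐ[k] F) := by
      rw [← IntermediateField.fixingSubgroup_fixedField (w.asIdeal.inertia (F ≃ₐ[k] F)),
        IntermediateField.mem_fixingSubgroup_iff]
      intro x hx
      rw [← hK] at hx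
      exact σ.commutes ⟨x, hx⟩
    have h2 : ∀ y : 𝓞 F, (σ.restrictScalars k) • y - y ∈ w.asIdeal := h1
    intro y
    exact h2 y
  have h3 : Nat.card (F ≃ₐ[K] F) = Module.finrank K F := IsGalois.card_aut_eq_finrank K F
  have h4 : Module.finrank K F = Nat.card (w.asIdeal.inertia (F ≃ₐ[k] F)) := by
    subst hK
    exact IntermediateField.finrank_fixedField_eq_card _
  rw [htop, Subgroup.card_top, h3, h4]

end UNF

open _root_.Pool.Agent.NST.UNF _root_.Pool.Agent.MU3E.RAM in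
theorem nt_UNF : Nt_UNF := by
  intro A B V hc hV F _ _ y hyK hy1
  have hcq : CQ A B := hc.toCQ
  obtain ⟨⟨φ, hφ⟩, hinj, hded, hpos, hint⟩ := Pool.Agent.MUXE.te_RNG A B hcq
  have hw0 : IsIntegral ℤ (wC A B) := by
    rw [hint _ (wC_mem A B)]
    exact ⟨⟨0, 1⟩, by simp [emb]⟩
  have hfd : FiniteDimensional ℚ (kk A B) :=
    IntermediateField.adjoin.finiteDimensional hw0.tower_top
  have hk : NumberField (kk A B) := ⟨⟩
  have hFQ : FiniteDimensional ℚ F := Pool.Agent.FX.ftrans ℚ (kk A B) F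
  have hF : NumberField F := ⟨⟩
  have h3O : emb (3 : OO A B) = 3 := by rw [← hφ, map_ofNat]
  have hv : ∀ x : OO A B, V.valuation (emb x) < 1 ↔ (3 : OO A B) ∣ x := by
    intro x
    rw [← ValuationSubring.mem_nonunits_iff, hV x, Ideal.mem_span_singleton]
    norm_cast
  have hv3 : V.valuation (3 : ℂ) < 1 := by
    rw [← h3O]
    exact (hv 3).2 (dvd_refl _)
  obtain ⟨w, hw⟩ := exists_prime (V := V) (algebraMap F ℂ) (z := (3 : 𝓞 F)) (by norm_num) (by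
    have h2 : (algebraMap F ℂ) (((3 : 𝓞 F)) : F) = (3 : ℂ) := by
      have h1 : ((3 : 𝓞 F) : F) = 3 := map_ofNat (algebraMap (𝓞 F) F) 3
      rw [h1, map_ofNat]
    rw [h2]
    exact hv3)
  have hspan : w.asIdeal.under (𝓞 (kk A B)) = Ideal.span {(3 : 𝓞 (kk A B))} := by
    ext x
    rw [Ideal.mem_span_singleton]
    have h2 : IsIntegral ℤ ((x : kk A B) : ℂ) :=
      (RingOfIntegers.isIntegral_coe x).map (Algebra.ofId (kk A B) ℂ |>.restrictScalars ℤ)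
    obtain ⟨z, hz⟩ := (hint _ (x : kk A B).2).mp h2
    have hxw : x ∈ w.asIdeal.under (𝓞 (kk A B)) ↔ V.valuation (emb z) < 1 := by
      rw [← hz]
      exact hw (algebraMap (𝓞 (kk A B)) (𝓞 F) x)
    rw [hxw, hv]
    constructor
    · rintro ⟨c, rfl⟩
      have hcI : IsIntegral ℤ (ek c) := by
        have h2 : IsIntegral ℤ (emb c) := (hint (emb c) (_root_.Pool.Agent.MU3A.emb_mem c)).mpr ⟨c, rfl⟩
        have h3 : algebraMap (kk A B) ℂ (ek c) = emb c := rfl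
        rw [← h3] at h2
        exact (isIntegral_algebraMap_iff (FaithfulSMul.algebraMap_injective (kk A B) ℂ)).mp h2
      refine ⟨⟨ek c, hcI⟩, ?_⟩
      apply RingOfIntegers.ext
      apply Subtype.ext
      rw [hz, ← hφ, map_mul, hφ, hφ, h3O]
      rfl
    · rintro ⟨c, hc⟩
      have h2 : IsIntegral ℤ ((c : kk A B) : ℂ) :=
        (RingOfIntegers.isIntegral_coe c).map (Algebra.ofId (kk A B) ℂ |>.restrictScalars ℤ)
      obtain ⟨t, ht⟩ := (hint _ (c : kk A B).2).mp h2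
      refine ⟨t, ?_⟩
      have h4 : emb z = 3 * emb t := by
        rw [← hz, ← ht, hc]
        rfl
      have h5 : emb (z - 3 * t) = 0 := by
        rw [← hφ, map_sub, map_mul, hφ, hφ, hφ, h3O, h4, sub_self]
      exact sub_eq_zero.1 (hinj _ h5)
  set K₁ : IntermediateField (kk A B) F :=
    IntermediateField.fixedField (w.asIdeal.inertia (F ≃ₐ[kk A B] F)) with hK₁
  have hK₁Q : FiniteDimensional ℚ K₁ := Pool.Agent.FX.ftrans ℚ (kk A B) K₁
  have hK₁n : NumberField K₁ := ⟨⟩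
  have hcard := card_fixed w K₁ hK₁
  obtain ⟨v, hvp, hvv⟩ := val_card (k := kk A B) w
  obtain ⟨v₁, -, hvv₁⟩ := val_card (k := K₁) w
  rw [hcard] at hvv₁
  set e := Nat.card (w.asIdeal.inertia (F ≃ₐ[kk A B] F)) with he
  have hval3 : w.valuation F 3 = WithZero.exp (-1 : ℤ) ^ e := by
    have h1 := hvv 3
    rw [map_ofNat] at h1
    rw [h1]
    congr 1
    have h2 : (algebraMap (𝓞 (kk A B)) (kk A B)) 3 = 3 := map_ofNat _ 3
    rw [← h2, HeightOneSpectrum.valuation_of_algebraMap]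
    exact v.intValuation_singleton (by norm_num) (by rw [hvp, hspan])
  -- the element `y` is in `K₁`
  have hyF : y ∈ F := hyK.1
  have hyK₁ : (⟨y, hyF⟩ : F) ∈ K₁ := by
    rw [hK₁, IntermediateField.mem_fixedField_iff]
    intro σ hσ
    obtain ⟨s, hs⟩ := tu_AUE (F.restrictScalars ℚ) (by
      have h1 : Algebra.IsAlgebraic ℚ F := inferInstance
      exact h1) ((algebraMap F ℂ).comp (σ : F →+* F))
    have hs' : ∀ x : F, s (x : ℂ) = ((σ x : F) : ℂ) := hs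
    have hI : InI A B V (F : Set ℂ) s := by
      refine ⟨?_, ?_, ?_⟩
      · have h1 := hs' (algebraMap (kk A B) F ⟨wC A B, wC_mem A B⟩)
        rw [σ.commutes] at h1
        exact h1
      · intro x hx
        rw [hs' ⟨x, hx⟩]
        exact (σ ⟨x, hx⟩).2
      · intro x hx hxV
        rw [ValuationSubring.mem_nonunits_iff, hs' ⟨x, hx⟩]
        exact inertia_lt (algebraMap F ℂ) hw hσ (x := ⟨x, hx⟩)
          ((V.valuation_le_one_iff _).2 hxV)
    apply Subtype.ext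
    rw [← hs']
    exact hyK.2 s hI
  have h1 := hvv₁ ⟨⟨y, hyF⟩, hyK₁⟩
  have h2 : w.valuation F (⟨y, hyF⟩ : F) < 1 := by
    refine lt_of_le_of_ne (le_ord (algebraMap F ℂ) hw hy1.le) ?_
    intro h
    have h3 := ord_one (algebraMap F ℂ) hw h
    exact absurd h3 hy1.ne
  have h3 : w.valuation F (⟨y, hyF⟩ : F) ≤ w.valuation F 3 := by
    have h4 : (algebraMap K₁ F) ⟨⟨y, hyF⟩, hyK₁⟩ = (⟨y, hyF⟩ : F) := rfl
    rw [h4] at h1
    rw [h1] at h2 ⊢
    rw [hval3]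
    apply pow_le_pow_left₀ zero_le
    have h5 : v₁.valuation K₁ ⟨⟨y, hyF⟩, hyK₁⟩ < 1 := by
      by_contra h6
      push Not at h6
      exact absurd h2 (not_lt.2 (one_le_pow₀ h6))
    by_cases h0 : v₁.valuation K₁ ⟨⟨y, hyF⟩, hyK₁⟩ = 0
    · rw [h0]
      exact zero_le
    · rw [← WithZero.exp_log h0] at h5 ⊢
      rw [← WithZero.exp_zero, WithZero.exp_lt_exp] at h5
      rw [WithZero.exp_le_exp]
      omega
  have h4 : w.valuation F ((⟨y, hyF⟩ : F) / 3) ≤ 1 := by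
    rw [map_div₀]
    have h30 : w.valuation F 3 ≠ 0 := (map_ne_zero _).2 (by norm_num)
    exact (div_le_one₀ (zero_lt_iff.2 h30)).2 h3
  have h5 := ord_le (algebraMap F ℂ) hw h4
  rw [map_div₀, map_div₀, map_ofNat] at h5
  have h30 : V.valuation (3 : ℂ) ≠ 0 := (map_ne_zero _).2 (by norm_num)
  exact (div_le_one₀ (zero_lt_iff.2 h30)).1 h5

end

end Pool.Agent.NST


end

section

/-!
# MUX-2R, block T (helper4): the values on the inertia field, any prime ideal `P`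

`ϖ ∈ P`, `ϖ ∉ P²`: the values of `v` on the inertia field of a finite Galois extension `F / k` are powers of `v ϖ`, in the form
`v y < 1 → v y ≤ v ϖ`. The proof is the one of `Pool/Agent/NS/T_UNF.lean` (helper37), with the ring isomorphism of `Pool/Agent/NS/RN_RAM.lean` (helper44).
-/

set_option autoImplicit false

open NumberField IsDedekindDomain

namespace Pool.Agent.N2T

open _root_.MU3 _root_.Pool.Agent.MU3A _root_.Pool.Agent.MU3B _root_.Pool.Agent.RI _root_.Pool.Agent.MUX _root_.Pool.Agent.MUXU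
open OnePoint _root_.Pool.Agent.NS _root_.Pool.Agent.NST

noncomputable section

open UNF _root_.Pool.Agent.MUXE.RamE _root_.Pool.Agent.MU3E.RAM Ideal in
theorem unfP {A B : ℤ} {V : ValuationSubring ℂ} {P : Ideal (OO A B)} (hcq : CQ A B)
    (hV : OverI V P) {ϖ : OO A B} (hϖ : ϖ ∈ P) (hϖ2 : ϖ ∉ P ^ 2)
    (F : IntermediateField (kk A B) ℂ) [FiniteDimensional (kk A B) F] [IsGalois (kk A B) F]
    (y : ℂ) (hyK : y ∈ KIn A B V F) (hy1 : V.valuation y < 1) :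
    V.valuation y ≤ V.valuation (emb ϖ) := by
  obtain ⟨⟨φ, hφ⟩, hinj, hded, hpos, hint⟩ := Pool.Agent.MUXE.te_RNG A B hcq
  have hlt : ∀ x : OO A B, V.valuation (emb x) < 1 ↔ x ∈ P := fun x =>
    (ValuationSubring.mem_nonunits_iff (A := V)).symm.trans (hV x)
  have hϖ0 : ϖ ≠ 0 := by
    rintro rfl
    exact hϖ2 (Ideal.zero_mem _)
  have hw0 : IsIntegral ℤ (wC A B) := by
    rw [hint _ (wC_mem A B)]
    exact ⟨⟨0, 1⟩, by simp [emb]⟩
  have hfd : FiniteDimensional ℚ (kk A B) :=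
    IntermediateField.adjoin.finiteDimensional hw0.tower_top
  have hk : NumberField (kk A B) := ⟨⟩
  have hFQ : FiniteDimensional ℚ F := FiniteDimensional.trans ℚ (kk A B) F
  have hF : NumberField F := ⟨⟩
  have hIn : ∀ x : OO A B, IsIntegral ℤ (ek x) := by
    intro x
    have h2 : IsIntegral ℤ (emb x) := (hint (emb x) (_root_.Pool.Agent.MU3A.emb_mem x)).mpr ⟨x, rfl⟩
    have h3 : algebraMap (kk A B) ℂ (ek x) = emb x := rfl
    rw [← h3] at h2
    exact (isIntegral_algebraMap_iff (FaithfulSMul.algebraMap_injective (kk A B) ℂ)).mp h2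
  -- the ring isomorphism
  let e : OO A B →+* 𝓞 (kk A B) :=
    { toFun := fun x => ⟨ek x, hIn x⟩
      map_one' := by
        apply RingOfIntegers.ext
        apply Subtype.ext
        change emb 1 = 1
        rw [← hφ, map_one]
      map_mul' := by
        intro a b
        apply RingOfIntegers.ext
        apply Subtype.ext
        change emb (a * b) = emb a * emb b
        rw [← hφ, ← hφ, ← hφ, map_mul]
      map_zero' := by
        apply RingOfIntegers.ext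
        apply Subtype.ext
        change emb 0 = 0
        rw [← hφ, map_zero]
      map_add' := by
        intro a b
        apply RingOfIntegers.ext
        apply Subtype.ext
        change emb (a + b) = emb a + emb b
        rw [← hφ, ← hφ, ← hφ, map_add] }
  have he : ∀ x, (((e x : 𝓞 (kk A B)) : kk A B) : ℂ) = emb x := fun x => rfl
  have hesurj : Function.Surjective e := by
    intro x
    have h2 : IsIntegral ℤ ((x : kk A B) : ℂ) :=
      (RingOfIntegers.isIntegral_coe x).map (Algebra.ofId (kk A B) ℂ |>.restrictScalars ℤ)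
    obtain ⟨z, hz⟩ := (hint _ (x : kk A B).2).mp h2
    refine ⟨z, ?_⟩
    apply RingOfIntegers.ext
    apply Subtype.ext
    rw [he, hz]
  have heinj : Function.Injective e := by
    rw [injective_iff_map_eq_zero]
    intro x hx
    apply hinj
    rw [← he, hx]
    rfl
  have hϖne : emb ϖ ≠ 0 := fun h => hϖ0 (hinj ϖ h)
  have hcoe : algebraMap F ℂ ((algebraMap (𝓞 (kk A B)) (𝓞 F) (e ϖ) : 𝓞 F) : F) = emb ϖ := rfl
  obtain ⟨w, hw⟩ := exists_prime (V := V) (algebraMap F ℂ)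
    (z := algebraMap (𝓞 (kk A B)) (𝓞 F) (e ϖ)) (by
      intro h
      apply hϖne
      rw [← hcoe, h]
      exact map_zero _) (by
      rw [hcoe]
      exact (hlt ϖ).2 hϖ)
  have hcomap : (w.asIdeal.under (𝓞 (kk A B))).comap e = P := by
    ext z
    have hxw : z ∈ (w.asIdeal.under (𝓞 (kk A B))).comap e ↔ V.valuation (emb z) < 1 := by
      exact hw (algebraMap (𝓞 (kk A B)) (𝓞 F) (e z))
    rw [hxw]
    exact hlt z
  have hmap : P.map e = w.asIdeal.under (𝓞 (kk A B)) := by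
    rw [← hcomap]
    exact Ideal.map_comap_of_surjective e hesurj _
  have hq1 : e ϖ ∈ w.asIdeal.under (𝓞 (kk A B)) := by
    rw [← hmap]
    exact Ideal.mem_map_of_mem e hϖ
  have hq2 : e ϖ ∉ (w.asIdeal.under (𝓞 (kk A B))) ^ 2 := by
    rw [← hmap, ← Ideal.map_pow, Ideal.mem_map_iff_of_surjective e hesurj]
    rintro ⟨z, hz, hz2⟩
    rw [heinj hz2] at hz
    exact hϖ2 hz
  set K₁ : IntermediateField (kk A B) F :=
    IntermediateField.fixedField (w.asIdeal.inertia (F ≃ₐ[kk A B] F)) with hK₁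
  have hK₁Q : FiniteDimensional ℚ K₁ := FiniteDimensional.trans ℚ (kk A B) K₁
  have hK₁n : NumberField K₁ := ⟨⟩
  have hcard := card_fixed w K₁ hK₁
  obtain ⟨v, hvp, hvv⟩ := val_card (k := kk A B) w
  obtain ⟨v₁, -, hvv₁⟩ := val_card (k := K₁) w
  rw [hcard] at hvv₁
  set n := Nat.card (w.asIdeal.inertia (F ≃ₐ[kk A B] F)) with hn
  set q : F := algebraMap (kk A B) F ((e ϖ : 𝓞 (kk A B)) : kk A B) with hq
  have hqC : algebraMap F ℂ q = emb ϖ := rfl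
  have hq0 : q ≠ 0 := by
    intro h
    apply hϖne
    rw [← hqC, h, map_zero]
  have hval3 : w.valuation F q = WithZero.exp (-1 : ℤ) ^ n := by
    rw [hq, hvv]
    congr 1
    have h2 : ((e ϖ : 𝓞 (kk A B)) : kk A B) = algebraMap (𝓞 (kk A B)) (kk A B) (e ϖ) := rfl
    rw [h2, HeightOneSpectrum.valuation_of_algebraMap]
    exact intVal_one v (by rw [hvp]; exact hq1) (by rw [hvp]; exact hq2)
  -- the element `y` is in `K₁`
  have hyF : y ∈ F := hyK.1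
  have hyK₁ : (⟨y, hyF⟩ : F) ∈ K₁ := by
    rw [hK₁, IntermediateField.mem_fixedField_iff]
    intro σ hσ
    obtain ⟨s, hs⟩ := tu_AUE (F.restrictScalars ℚ) (by
      have h1 : Algebra.IsAlgebraic ℚ F := inferInstance
      exact h1) ((algebraMap F ℂ).comp (σ : F →+* F))
    have hs' : ∀ x : F, s (x : ℂ) = ((σ x : F) : ℂ) := hs
    have hI : InI A B V (F : Set ℂ) s := by
      refine ⟨?_, ?_, ?_⟩
      · have h1 := hs' (algebraMap (kk A B) F ⟨wC A B, wC_mem A B⟩)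
        rw [σ.commutes] at h1
        exact h1
      · intro x hx
        rw [hs' ⟨x, hx⟩]
        exact (σ ⟨x, hx⟩).2
      · intro x hx hxV
        rw [ValuationSubring.mem_nonunits_iff, hs' ⟨x, hx⟩]
        exact inertia_lt (algebraMap F ℂ) hw hσ (x := ⟨x, hx⟩)
          ((V.valuation_le_one_iff _).2 hxV)
    apply Subtype.ext
    rw [← hs']
    exact hyK.2 s hI
  have h1 := hvv₁ ⟨⟨y, hyF⟩, hyK₁⟩
  have h2 : w.valuation F (⟨y, hyF⟩ : F) < 1 := by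
    refine lt_of_le_of_ne (le_ord (algebraMap F ℂ) hw hy1.le) ?_
    intro h
    have h3 := ord_one (algebraMap F ℂ) hw h
    exact absurd h3 hy1.ne
  have h3 : w.valuation F (⟨y, hyF⟩ : F) ≤ w.valuation F q := by
    have h4 : (algebraMap K₁ F) ⟨⟨y, hyF⟩, hyK₁⟩ = (⟨y, hyF⟩ : F) := rfl
    rw [h4] at h1
    rw [h1] at h2 ⊢
    rw [hval3]
    apply pow_le_pow_left₀ zero_le
    have h5 : v₁.valuation K₁ ⟨⟨y, hyF⟩, hyK₁⟩ < 1 := by
      by_contra h6
      push Not at h6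
      exact absurd h2 (not_lt.2 (one_le_pow₀ h6))
    by_cases h0 : v₁.valuation K₁ ⟨⟨y, hyF⟩, hyK₁⟩ = 0
    · rw [h0]
      exact zero_le
    · rw [← WithZero.exp_log h0] at h5 ⊢
      rw [← WithZero.exp_zero, WithZero.exp_lt_exp] at h5
      rw [WithZero.exp_le_exp]
      omega
  have h4 : w.valuation F ((⟨y, hyF⟩ : F) / q) ≤ 1 := by
    rw [map_div₀]
    have h30 : w.valuation F q ≠ 0 := (map_ne_zero _).2 hq0
    exact (div_le_one₀ (zero_lt_iff.2 h30)).2 h3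
  have h5 := ord_le (algebraMap F ℂ) hw h4
  rw [map_div₀, map_div₀, hqC] at h5
  have h30 : V.valuation (emb ϖ) ≠ 0 := (map_ne_zero _).2 hϖne
  exact (div_le_one₀ (zero_lt_iff.2 h30)).1 h5

end

end Pool.Agent.N2T


end

section

/-!
# MUX-2N, block T2N (helper4): the inertia field is unramified, `2` inert

The proof is the one of `Pool/Agent/NS/T_UNF.lean` (helper37) with `2` instead of `3`.
-/

set_option autoImplicit false

open NumberField IsDedekindDomain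

namespace Pool.Agent.N2T

open _root_.MU3 _root_.Pool.Agent.MU3A _root_.Pool.Agent.MU3B _root_.Pool.Agent.RI _root_.Pool.Agent.MUX _root_.Pool.Agent.MUXU
open OnePoint _root_.Pool.Agent.NS _root_.Pool.Agent.N2 _root_.Pool.Agent.NST

noncomputable section

open UNF _root_.Pool.Agent.MU3E.RAM Ideal in
theorem unf2 {A B : ℤ} {V : ValuationSubring ℂ} (hcq : CQ A B)
    (hV : OverI V (idl (A := A) (B := B) 2))
    (F : IntermediateField (kk A B) ℂ) [FiniteDimensional (kk A B) F] [IsGalois (kk A B) F]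
    (y : ℂ) (hyK : y ∈ KIn A B V F) (hy1 : V.valuation y < 1) :
    V.valuation y ≤ V.valuation (2 : ℂ) := by
  obtain ⟨⟨φ, hφ⟩, hinj, hded, hpos, hint⟩ := Pool.Agent.MUXE.te_RNG A B hcq
  have hw0 : IsIntegral ℤ (wC A B) := by
    rw [hint _ (wC_mem A B)]
    exact ⟨⟨0, 1⟩, by simp [emb]⟩
  have hfd : FiniteDimensional ℚ (kk A B) :=
    IntermediateField.adjoin.finiteDimensional hw0.tower_top
  have hk : NumberField (kk A B) := ⟨⟩
  have hFQ : FiniteDimensional ℚ F := FiniteDimensional.trans ℚ (kk A B) F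
  have hF : NumberField F := ⟨⟩
  have h3O : emb (2 : OO A B) = 2 := by rw [← hφ, map_ofNat]
  have hv : ∀ x : OO A B, V.valuation (emb x) < 1 ↔ (2 : OO A B) ∣ x := by
    intro x
    rw [← ValuationSubring.mem_nonunits_iff, hV x, Ideal.mem_span_singleton]
    norm_cast
  have hv3 : V.valuation (2 : ℂ) < 1 := by
    rw [← h3O]
    exact (hv 2).2 (dvd_refl _)
  obtain ⟨w, hw⟩ := exists_prime (V := V) (algebraMap F ℂ) (z := (2 : 𝓞 F)) (by norm_num) (by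
    have h2 : (algebraMap F ℂ) (((2 : 𝓞 F)) : F) = (2 : ℂ) := by
      have h1 : ((2 : 𝓞 F) : F) = 2 := map_ofNat (algebraMap (𝓞 F) F) 2
      rw [h1, map_ofNat]
    rw [h2]
    exact hv3)
  have hspan : w.asIdeal.under (𝓞 (kk A B)) = Ideal.span {(2 : 𝓞 (kk A B))} := by
    ext x
    rw [Ideal.mem_span_singleton]
    have h2 : IsIntegral ℤ ((x : kk A B) : ℂ) :=
      (RingOfIntegers.isIntegral_coe x).map (Algebra.ofId (kk A B) ℂ |>.restrictScalars ℤ)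
    obtain ⟨z, hz⟩ := (hint _ (x : kk A B).2).mp h2
    have hxw : x ∈ w.asIdeal.under (𝓞 (kk A B)) ↔ V.valuation (emb z) < 1 := by
      rw [← hz]
      exact hw (algebraMap (𝓞 (kk A B)) (𝓞 F) x)
    rw [hxw, hv]
    constructor
    · rintro ⟨c, rfl⟩
      have hcI : IsIntegral ℤ (ek c) := by
        have h2 : IsIntegral ℤ (emb c) := (hint (emb c) (_root_.Pool.Agent.MU3A.emb_mem c)).mpr ⟨c, rfl⟩
        have h3 : algebraMap (kk A B) ℂ (ek c) = emb c := rfl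
        rw [← h3] at h2
        exact (isIntegral_algebraMap_iff (FaithfulSMul.algebraMap_injective (kk A B) ℂ)).mp h2
      refine ⟨⟨ek c, hcI⟩, ?_⟩
      apply RingOfIntegers.ext
      apply Subtype.ext
      rw [hz, ← hφ, map_mul, hφ, hφ, h3O]
      rfl
    · rintro ⟨c, hc⟩
      have h2 : IsIntegral ℤ ((c : kk A B) : ℂ) :=
        (RingOfIntegers.isIntegral_coe c).map (Algebra.ofId (kk A B) ℂ |>.restrictScalars ℤ)
      obtain ⟨t, ht⟩ := (hint _ (c : kk A B).2).mp h2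
      refine ⟨t, ?_⟩
      have h4 : emb z = 2 * emb t := by
        rw [← hz, ← ht, hc]
        rfl
      have h5 : emb (z - 2 * t) = 0 := by
        rw [← hφ, map_sub, map_mul, hφ, hφ, hφ, h3O, h4, sub_self]
      exact sub_eq_zero.1 (hinj _ h5)
  set K₁ : IntermediateField (kk A B) F :=
    IntermediateField.fixedField (w.asIdeal.inertia (F ≃ₐ[kk A B] F)) with hK₁
  have hK₁Q : FiniteDimensional ℚ K₁ := FiniteDimensional.trans ℚ (kk A B) K₁
  have hK₁n : NumberField K₁ := ⟨⟩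
  have hcard := card_fixed w K₁ hK₁
  obtain ⟨v, hvp, hvv⟩ := val_card (k := kk A B) w
  obtain ⟨v₁, -, hvv₁⟩ := val_card (k := K₁) w
  rw [hcard] at hvv₁
  set e := Nat.card (w.asIdeal.inertia (F ≃ₐ[kk A B] F)) with he
  have hval3 : w.valuation F 2 = WithZero.exp (-1 : ℤ) ^ e := by
    have h1 := hvv 2
    rw [map_ofNat] at h1
    rw [h1]
    congr 1
    have h2 : (algebraMap (𝓞 (kk A B)) (kk A B)) 2 = 2 := map_ofNat _ 2
    rw [← h2, HeightOneSpectrum.valuation_of_algebraMap]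
    exact v.intValuation_singleton (by norm_num) (by rw [hvp, hspan])
  -- the element `y` is in `K₁`
  have hyF : y ∈ F := hyK.1
  have hyK₁ : (⟨y, hyF⟩ : F) ∈ K₁ := by
    rw [hK₁, IntermediateField.mem_fixedField_iff]
    intro σ hσ
    obtain ⟨s, hs⟩ := tu_AUE (F.restrictScalars ℚ) (by
      have h1 : Algebra.IsAlgebraic ℚ F := inferInstance
      exact h1) ((algebraMap F ℂ).comp (σ : F →+* F))
    have hs' : ∀ x : F, s (x : ℂ) = ((σ x : F) : ℂ) := hs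
    have hI : InI A B V (F : Set ℂ) s := by
      refine ⟨?_, ?_, ?_⟩
      · have h1 := hs' (algebraMap (kk A B) F ⟨wC A B, wC_mem A B⟩)
        rw [σ.commutes] at h1
        exact h1
      · intro x hx
        rw [hs' ⟨x, hx⟩]
        exact (σ ⟨x, hx⟩).2
      · intro x hx hxV
        rw [ValuationSubring.mem_nonunits_iff, hs' ⟨x, hx⟩]
        exact inertia_lt (algebraMap F ℂ) hw hσ (x := ⟨x, hx⟩)
          ((V.valuation_le_one_iff _).2 hxV)
    apply Subtype.ext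
    rw [← hs']
    exact hyK.2 s hI
  have h1 := hvv₁ ⟨⟨y, hyF⟩, hyK₁⟩
  have h2 : w.valuation F (⟨y, hyF⟩ : F) < 1 := by
    refine lt_of_le_of_ne (le_ord (algebraMap F ℂ) hw hy1.le) ?_
    intro h
    have h3 := ord_one (algebraMap F ℂ) hw h
    exact absurd h3 hy1.ne
  have h3 : w.valuation F (⟨y, hyF⟩ : F) ≤ w.valuation F 2 := by
    have h4 : (algebraMap K₁ F) ⟨⟨y, hyF⟩, hyK₁⟩ = (⟨y, hyF⟩ : F) := rfl
    rw [h4] at h1
    rw [h1] at h2 ⊢
    rw [hval3]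
    apply pow_le_pow_left₀ zero_le
    have h5 : v₁.valuation K₁ ⟨⟨y, hyF⟩, hyK₁⟩ < 1 := by
      by_contra h6
      push Not at h6
      exact absurd h2 (not_lt.2 (one_le_pow₀ h6))
    by_cases h0 : v₁.valuation K₁ ⟨⟨y, hyF⟩, hyK₁⟩ = 0
    · rw [h0]
      exact zero_le
    · rw [← WithZero.exp_log h0] at h5 ⊢
      rw [← WithZero.exp_zero, WithZero.exp_lt_exp] at h5
      rw [WithZero.exp_le_exp]
      omega
  have h4 : w.valuation F ((⟨y, hyF⟩ : F) / 2) ≤ 1 := by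
    rw [map_div₀]
    have h30 : w.valuation F 2 ≠ 0 := (map_ne_zero _).2 (by norm_num)
    exact (div_le_one₀ (zero_lt_iff.2 h30)).2 h3
  have h5 := ord_le (algebraMap F ℂ) hw h4
  rw [map_div₀, map_div₀, map_ofNat] at h5
  have h30 : V.valuation (2 : ℂ) ≠ 0 := (map_ne_zero _).2 (by norm_num)
  exact (div_le_one₀ (zero_lt_iff.2 h30)).1 h5

end

end Pool.Agent.N2T


end

section

/-!
# MUX-2N, block T2N (helper4): finitely many pairs of cusps generate all values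
-/

set_option autoImplicit false

namespace Pool.Agent.N2T

open OnePoint _root_.Pool.Agent.NST
open _root_.Pool.Agent.MUXY (Dn)

noncomputable section

/-- the denominator of a cusp -/
def dc : OnePoint ℚ → ℕ
  | Option.none => 1
  | Option.some r => r.den

lemma dc_pos (x : OnePoint ℚ) : dc x ≠ 0 := by
  induction x using OnePoint.rec with
  | infty => exact one_ne_zero
  | coe r => exact r.den_nz

lemma dn_of {m : ℕ} {x : OnePoint ℚ} (h : dc x ∣ m) : Dn m x := by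
  rintro r rfl
  exact h

theorem fgp : Nt_FGP := by
  classical
  intro P T hT
  obtain ⟨F, hF⟩ : ∃ F : OnePoint ℚ × OnePoint ℚ → ℂ, F = fun q => P q.1 q.2 := ⟨_, rfl⟩
  have hN : IsNoetherian ℤ (Submodule.span ℤ (T : Set ℂ)) :=
    isNoetherian_span_of_finite ℤ (Finset.finite_toSet T)
  have hle : Submodule.span ℤ (F '' Set.univ) ≤ Submodule.span ℤ (T : Set ℂ) := by
    rw [Submodule.span_le]
    rintro _ ⟨q, -, rfl⟩
    have h1 := hT q.1 q.2
    rw [← Submodule.span_int_eq_addSubgroupClosure] at h1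
    rw [hF]
    exact h1
  have hfg := isNoetherian_submodule.1 hN _ hle
  obtain ⟨S', hS', hsp⟩ := (Submodule.fg_span_iff_fg_span_finset_subset _).1 hfg
  obtain ⟨S, -, hS⟩ := Finset.subset_set_image_iff.1 hS'
  obtain ⟨D, hD⟩ : ∃ D : ℕ, D = ∏ q ∈ S, (dc q.1 * dc q.2) := ⟨_, rfl⟩
  have hD0 : D ≠ 0 := by
    rw [hD]
    exact Finset.prod_ne_zero_iff.2 fun q _ => mul_ne_zero (dc_pos _) (dc_pos _)
  obtain ⟨j, N, hN3, hjN⟩ := Nat.exists_eq_pow_mul_and_not_dvd hD0 3 (by norm_num)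
  have hN0 : N ≠ 0 := by
    rintro rfl
    exact hN3 (dvd_zero 3)
  have hdvd : ∀ q ∈ S, dc q.1 * dc q.2 ∣ 3 ^ j * N := by
    intro q hq
    rw [← hjN, hD]
    exact Finset.dvd_prod_of_mem (fun q : OnePoint ℚ × OnePoint ℚ => dc q.1 * dc q.2) hq
  refine ⟨S, j, N, hN0, hN3, fun q hq => ⟨dn_of ((dvd_mul_right _ _).trans (hdvd q hq)),
    dn_of ((dvd_mul_left _ _).trans (hdvd q hq))⟩, fun x y => ?_⟩
  have h1 : F (x, y) ∈ Submodule.span ℤ (F '' Set.univ) :=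
    Submodule.subset_span ⟨(x, y), trivial, rfl⟩
  rw [hsp, ← hS, Finset.coe_image] at h1
  have h2 : F (x, y) ∈ AddSubgroup.closure (F '' (S : Set (OnePoint ℚ × OnePoint ℚ))) := by
    rw [← Submodule.span_int_eq_addSubgroupClosure]
    exact h1
  rw [hF] at h2
  exact h2

end

end Pool.Agent.N2T


end

section

/-!
# MU3, block I: the automorphism `γ` of `K_n / k` (IGAM)
-/

set_option autoImplicit false

namespace Pool.Agent.MU3I

open _root_.MU3 _root_.Pool.Agent.MU3 _root_.Pool.Agent.MU3A _root_.Pool.Agent.MU3B _root_.Pool.Agent.MU3C _root_.Pool.Agent.RI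
  _root_.Pool.Agent.RID

namespace IGAM

/-! ### powers of `4` modulo powers of `3` -/

theorem four_pow (n : ℕ) : ∃ s : ℤ, (4 : ℤ) ^ 3 ^ n = 1 + 3 ^ (n + 1) * (1 + 3 * s) := by
  induction n with
  | zero => exact ⟨0, by norm_num⟩
  | succ n ih =>
    obtain ⟨s, hs⟩ := ih
    refine ⟨s + 3 ^ n * (1 + 3 * s) ^ 2 + (3 ^ n) ^ 2 * (1 + 3 * s) ^ 3, ?_⟩
    rw [pow_succ 3 n, pow_mul, hs]
    ring

theorem four_pow_dvd (n : ℕ) : (3 : ℤ) ^ (n + 1) ∣ (4 : ℤ) ^ 3 ^ n - 1 := by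
  obtain ⟨s, hs⟩ := four_pow n
  exact ⟨1 + 3 * s, by rw [hs]; ring⟩

theorem four_pow_one (i : ℕ) : ∃ v : ℤ, (4 : ℤ) ^ i = 1 + 3 * v := by
  induction i with
  | zero => exact ⟨0, by norm_num⟩
  | succ i ih =>
    obtain ⟨v, hv⟩ := ih
    exact ⟨1 + 4 * v, by rw [pow_succ, hv]; ring⟩

theorem pow_four {c : ℤ} (hc : (3 : ℤ) ∣ c - 1) (n : ℕ) :
    ∃ i : ℕ, (3 : ℤ) ^ (n + 1) ∣ c - 4 ^ i := by
  induction n with
  | zero => exact ⟨0, by simpa using hc⟩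
  | succ n ih =>
    obtain ⟨i, t, ht⟩ := ih
    obtain ⟨s, hs⟩ := four_pow n
    obtain ⟨v, hv⟩ := four_pow_one i
    have h3 : t % 3 = 0 ∨ t % 3 = 1 ∨ t % 3 = 2 := by omega
    have hd := Int.emod_add_mul_ediv t 3
    rcases h3 with h3 | h3 | h3
    · refine ⟨i, t / 3, ?_⟩
      rw [ht]
      rw [h3] at hd
      rw [pow_succ 3 (n + 1)]
      linear_combination -((3 : ℤ) ^ (n + 1)) * hd
    · refine ⟨i + 3 ^ n, t / 3 - v - 4 ^ i * s, ?_⟩
      rw [pow_add, hs]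
      rw [h3] at hd
      rw [pow_succ 3 (n + 1)]
      linear_combination ht - ((3 : ℤ) ^ (n + 1)) * hd - (3 : ℤ) ^ (n + 1) * hv
    · refine ⟨i + 3 ^ n * 2, t / 3 - 2 * v - 2 * 4 ^ i * s - 4 ^ i * 3 ^ n * (1 + 3 * s) ^ 2, ?_⟩
      rw [pow_add, pow_mul, hs]
      rw [h3] at hd
      rw [pow_succ 3 (n + 1)]
      linear_combination ht - ((3 : ℤ) ^ (n + 1)) * hd - 2 * (3 : ℤ) ^ (n + 1) * hv

theorem pow_four' {c : ℤ} (hc : ¬ (3 : ℤ) ∣ c) (n : ℕ) :
    ∃ i : ℕ, (3 : ℤ) ^ (n + 1) ∣ c - 4 ^ i ∨ (3 : ℤ) ^ (n + 1) ∣ c + 4 ^ i := by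
  have h3 : (3 : ℤ) ∣ c - 1 ∨ (3 : ℤ) ∣ -c - 1 := by omega
  rcases h3 with h3 | h3
  · obtain ⟨i, hi⟩ := pow_four h3 n
    exact ⟨i, Or.inl hi⟩
  · obtain ⟨i, hi⟩ := pow_four h3 n
    refine ⟨i, Or.inr ?_⟩
    rw [← dvd_neg]
    have h4 : -(c + 4 ^ i) = -c - 4 ^ i := by ring
    rwa [h4]

/-! ### Galois theory -/

theorem restr {k F D : Type} [Field k] [Field F] [Field D] [Algebra k F] [Algebra k D]
    [Normal k D] (ι : D →ₐ[k] F) (σ : F ≃ₐ[k] F) :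
    ∃ τ : D ≃ₐ[k] D, ∀ y, ι (τ y) = σ (ι y) := by
  let _ : Algebra D F := ι.toRingHom.toAlgebra
  have : IsScalarTower k D F := IsScalarTower.of_algebraMap_eq' (ι.comp_algebraMap.symm)
  exact ⟨σ.restrictNormal D, fun y => AlgEquiv.restrictNormal_commutes σ D y⟩

theorem lft {k F D : Type} [Field k] [Field F] [Field D] [Algebra k F] [Algebra k D]
    [Normal k F] (ι : D →ₐ[k] F) (τ : D ≃ₐ[k] D) :
    ∃ σ : F ≃ₐ[k] F, ∀ y, σ (ι y) = ι (τ y) := by
  let _ : Algebra D F := ι.toRingHom.toAlgebra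
  have : IsScalarTower k D F := IsScalarTower.of_algebraMap_eq' (ι.comp_algebraMap.symm)
  exact ⟨τ.liftNormal F, fun y => AlgEquiv.liftNormal_commutes τ F y⟩

/-- two homomorphisms which agree on `K` and on `z` agree on `K(z)` -/
theorem eqD {K B D : IntermediateField ℚ ℂ} {z : ℂ} (hB : B = IntermediateField.adjoin ℚ {z})
    (hD : D = K ⊔ B) (φ ψ : D →+* ℂ) (h1 : ∀ y : D, (y : ℂ) ∈ K → φ y = ψ y) (hz : z ∈ D)
    (h2 : φ ⟨z, hz⟩ = ψ ⟨z, hz⟩) (y : D) : φ y = ψ y := by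
  let S : IntermediateField ℚ ℂ :=
    { carrier := {y | ∃ hy : y ∈ D, φ ⟨y, hy⟩ = ψ ⟨y, hy⟩}
      mul_mem' := by
        rintro a b ⟨ha, ha'⟩ ⟨hb, hb'⟩
        refine ⟨mul_mem ha hb, ?_⟩
        have h3 : (⟨a * b, mul_mem ha hb⟩ : D) = ⟨a, ha⟩ * ⟨b, hb⟩ := rfl
        rw [h3, map_mul, map_mul, ha', hb']
      one_mem' := ⟨one_mem D, by
        have h3 : (⟨1, one_mem D⟩ : D) = 1 := rfl
        rw [h3, map_one, map_one]⟩
      add_mem' := by
        rintro a b ⟨ha, ha'⟩ ⟨hb, hb'⟩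
        refine ⟨add_mem ha hb, ?_⟩
        have h3 : (⟨a + b, add_mem ha hb⟩ : D) = ⟨a, ha⟩ + ⟨b, hb⟩ := rfl
        rw [h3, map_add, map_add, ha', hb']
      zero_mem' := ⟨zero_mem D, by
        have h3 : (⟨0, zero_mem D⟩ : D) = 0 := rfl
        rw [h3, map_zero, map_zero]⟩
      algebraMap_mem' := by
        intro q
        refine ⟨D.algebraMap_mem q, ?_⟩
        have h3 : (⟨algebraMap ℚ ℂ q, D.algebraMap_mem q⟩ : D) = (q : D) := by
          apply Subtype.ext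
          simp
        rw [h3, map_ratCast, map_ratCast]
      inv_mem' := by
        rintro a ⟨ha, ha'⟩
        refine ⟨inv_mem ha, ?_⟩
        have h3 : (⟨a⁻¹, inv_mem ha⟩ : D) = (⟨a, ha⟩ : D)⁻¹ := rfl
        rw [h3, map_inv₀, map_inv₀, ha'] }
  have h3 : K ≤ S := by
    intro y hy
    have hy' : y ∈ D := by
      rw [hD]
      exact (le_sup_left : K ≤ K ⊔ B) hy
    exact ⟨hy', h1 ⟨y, hy'⟩ hy⟩
  have h4 : B ≤ S := by
    rw [hB, IntermediateField.adjoin_simple_le_iff]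
    exact ⟨hz, h2⟩
  have h5 : D ≤ S := by
    rw [hD]
    exact sup_le h3 h4
  obtain ⟨_, h6⟩ := h5 y.2
  exact h6


theorem resg {k : IntermediateField ℚ ℂ} (F0 F : IntermediateField k ℂ) [Normal k F0]
    (hle : F0 ≤ F) (σ : F ≃ₐ[k] F) : ∃ τ : F0 ≃ₐ[k] F0,
      ∀ (z : ℂ) (hz : z ∈ F0) (hz' : z ∈ F),
          ((σ ⟨z, hz'⟩ : F) : ℂ) = ((τ ⟨z, hz⟩ : F0) : ℂ) := by
  obtain ⟨τ, hτ⟩ := restr (IntermediateField.inclusion hle) σ
  refine ⟨τ, fun z hz hz' => ?_⟩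
  exact (congrArg (fun t : F => (t : ℂ)) (hτ ⟨z, hz⟩)).symm

/-- the automorphism `γ`, for general fields -/
theorem core {k : IntermediateField ℚ ℂ} (F : IntermediateField k ℂ) [IsGalois k F]
    (K Bn : IntermediateField ℚ ℂ) (n : ℕ) (ζ : ℂ) (hζ : IsPrimitiveRoot ζ (3 ^ (n + 1)))
    (hBn : Bn = IntermediateField.adjoin ℚ {ζ + ζ⁻¹}) (h : k ≤ K ⊔ Bn) (hkK : k ≤ K)
    (hDm : ∀ x ∈ K ⊔ Bn, x ∈ F) (hζm : ζ ∈ F) (σ : F ≃ₐ[k] F)
    (hσζ : ((σ ⟨ζ, hζm⟩ : F) : ℂ) = ζ ^ 4)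
    (hσ0 : ∀ z ∈ K, ∀ hz' : z ∈ F, ((σ ⟨z, hz'⟩ : F) : ℂ) = z) :
    letI := algC h
    ∀ _ : IsGalois k ↥(K ⊔ Bn), ∃ γ : ↥(K ⊔ Bn) ≃ₐ[k] ↥(K ⊔ Bn),
      (∀ x : ↥(K ⊔ Bn), γ x = x ↔ (x : ℂ) ∈ K) ∧ γ ^ 3 ^ n = 1 ∧
      (∀ hz : ζ + ζ⁻¹ ∈ K ⊔ Bn,
        ((γ ⟨_, hz⟩ : ↥(K ⊔ Bn)) : ℂ) = ζ ^ 4 + (ζ ^ 4)⁻¹) ∧
      (∀ σ : ↥(K ⊔ Bn) ≃ₐ[k] ↥(K ⊔ Bn),
        (∀ x : ↥(K ⊔ Bn), (x : ℂ) ∈ K → σ x = x) → ∃ i : ℕ, σ = γ ^ i) := by
  let _ := algC h
  intro hGal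
  have hM0 : (3 : ℕ) ^ (n + 1) ≠ 0 := by positivity
  have hζ0 : ζ ≠ 0 := hζ.ne_zero hM0
  have hζ1 : ζ ^ (3 ^ (n + 1)) = 1 := hζ.pow_eq_one
  -- the powers of `σ`
  have hσi : ∀ i : ℕ, (((σ ^ i) ⟨ζ, hζm⟩ : F) : ℂ) = ζ ^ (4 ^ i) := by
    intro i
    induction i with
    | zero => simp
    | succ i ih =>
      have h1 : (σ ^ i) ⟨ζ, hζm⟩ = (⟨ζ, hζm⟩ : F) ^ (4 ^ i) := Subtype.ext ih
      rw [pow_succ', AlgEquiv.mul_apply, h1, map_pow]
      show ((σ ⟨ζ, hζm⟩ : F) : ℂ) ^ 4 ^ i = _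
      rw [hσζ, ← pow_mul, pow_succ']
  -- `γ`
  let ι : ↥(K ⊔ Bn) →ₐ[k] F :=
    { toFun := fun y => ⟨y, hDm y y.2⟩
      map_one' := rfl
      map_mul' := fun _ _ => rfl
      map_zero' := rfl
      map_add' := fun _ _ => rfl
      commutes' := fun _ => rfl }
  obtain ⟨γ, hγ⟩ := restr ι σ
  have hγi : ∀ (i : ℕ) (y : ↥(K ⊔ Bn)), ι ((γ ^ i) y) = (σ ^ i) (ι y) := by
    intro i
    induction i with
    | zero => intro y; rfl
    | succ i ih =>
      intro y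
      rw [pow_succ', AlgEquiv.mul_apply, pow_succ', AlgEquiv.mul_apply, hγ, ih]
  have hγK : ∀ y : ↥(K ⊔ Bn), (y : ℂ) ∈ K → γ y = y := by
    intro y hy
    apply Subtype.ext
    have h1 := congrArg (fun t : F => (t : ℂ)) (hγ y)
    exact h1.trans (hσ0 y hy _)
  have hγiK : ∀ (i : ℕ) (y : ↥(K ⊔ Bn)), (y : ℂ) ∈ K → (γ ^ i) y = y := by
    intro i y hy
    induction i with
    | zero => rfl
    | succ i ih => rw [pow_succ', AlgEquiv.mul_apply, ih, hγK y hy]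
  have hzD : ζ + ζ⁻¹ ∈ K ⊔ Bn := by
    have h1 : ζ + ζ⁻¹ ∈ Bn := by
      rw [hBn]
      exact IntermediateField.mem_adjoin_simple_self ℚ _
    exact (le_sup_right : Bn ≤ K ⊔ Bn) h1
  have hγiz : ∀ i : ℕ, (((γ ^ i) ⟨ζ + ζ⁻¹, hzD⟩ : ↥(K ⊔ Bn)) : ℂ) =
      ζ ^ (4 ^ i) + (ζ ^ (4 ^ i))⁻¹ := by
    intro i
    have h1 := congrArg (fun t : F => (t : ℂ)) (hγi i ⟨ζ + ζ⁻¹, hzD⟩)
    refine h1.trans ?_
    have h2 : ι ⟨ζ + ζ⁻¹, hzD⟩ = (⟨ζ, hζm⟩ : F) + (⟨ζ, hζm⟩ : F)⁻¹ := rfl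
    show (((σ ^ i) (ι ⟨ζ + ζ⁻¹, hzD⟩) : F) : ℂ) = _
    rw [h2, map_add, map_inv₀]
    show (((σ ^ i) ⟨ζ, hζm⟩ : F) : ℂ) + (((σ ^ i) ⟨ζ, hζm⟩ : F) : ℂ)⁻¹ = _
    rw [hσi]
  -- two automorphisms which agree on `K` and on `ζ + ζ⁻¹` are equal
  have hext : ∀ τ τ' : ↥(K ⊔ Bn) ≃ₐ[k] ↥(K ⊔ Bn),
      (∀ y : ↥(K ⊔ Bn), (y : ℂ) ∈ K → τ y = τ' y) →
      τ ⟨ζ + ζ⁻¹, hzD⟩ = τ' ⟨ζ + ζ⁻¹, hzD⟩ → τ = τ' := by
    intro τ τ' h1 h2
    apply AlgEquiv.ext
    intro y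
    apply Subtype.ext
    exact eqD hBn rfl ((algebraMap ↥(K ⊔ Bn) ℂ).comp (τ : ↥(K ⊔ Bn) →+* ↥(K ⊔ Bn)))
      ((algebraMap ↥(K ⊔ Bn) ℂ).comp (τ' : ↥(K ⊔ Bn) →+* ↥(K ⊔ Bn)))
      (fun y hy => congrArg (fun t : ↥(K ⊔ Bn) => (t : ℂ)) (h1 y hy)) hzD
      (congrArg (fun t : ↥(K ⊔ Bn) => (t : ℂ)) h2) y
  have hgen : ∀ τ : ↥(K ⊔ Bn) ≃ₐ[k] ↥(K ⊔ Bn),
        (∀ x : ↥(K ⊔ Bn), (x : ℂ) ∈ K → τ x = x) → ∃ i : ℕ, τ = γ ^ i := by
    intro τ hτ
    obtain ⟨σ', hσ'⟩ := lft ι τ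
    obtain ⟨c, -, hc1, hc2⟩ : ∃ c < 3 ^ (n + 1), c.Coprime (3 ^ (n + 1)) ∧
        ζ ^ c = ((σ' ⟨ζ, hζm⟩ : F) : ℂ) := by
      have h1 : IsPrimitiveRoot ((σ' ⟨ζ, hζm⟩ : F) : ℂ) (3 ^ (n + 1)) := by
        have h2 : IsPrimitiveRoot (⟨ζ, hζm⟩ : F) (3 ^ (n + 1)) :=
          IsPrimitiveRoot.of_map_of_injective (f := algebraMap (F) ℂ) hζ
            (algebraMap (F) ℂ).injective
        have h3 := h2.map_of_injective (f := σ') σ'.injective
        exact h3.map_of_injective (f := algebraMap (F) ℂ) (algebraMap (F) ℂ).injective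
      exact hζ.isPrimitiveRoot_iff.1 h1
    have hc3 : ¬ (3 : ℤ) ∣ (c : ℤ) := by
      intro h1
      have h2 : 3 ∣ c := by exact_mod_cast h1
      have h3 := Nat.Coprime.eq_one_of_dvd (Nat.Coprime.coprime_dvd_left h2 hc1)
        (dvd_pow_self 3 (by omega))
      omega
    obtain ⟨i, hi⟩ := pow_four' hc3 n
    refine ⟨i, hext _ _ (fun y hy => (hτ y hy).trans (hγiK i y hy).symm) ?_⟩
    apply Subtype.ext
    rw [hγiz i]
    have h1 := congrArg (fun t : F => (t : ℂ)) (hσ' ⟨ζ + ζ⁻¹, hzD⟩)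
    refine h1.symm.trans ?_
    have h2 : ι ⟨ζ + ζ⁻¹, hzD⟩ = (⟨ζ, hζm⟩ : F) + (⟨ζ, hζm⟩ : F)⁻¹ := rfl
    show ((σ' (ι ⟨ζ + ζ⁻¹, hzD⟩) : F) : ℂ) = _
    rw [h2, map_add, map_inv₀]
    show ((σ' ⟨ζ, hζm⟩ : F) : ℂ) + ((σ' ⟨ζ, hζm⟩ : F) : ℂ)⁻¹ = _
    rw [← hc2]
    rcases hi with hi | hi
    · have h3 : ζ ^ c = ζ ^ (4 ^ i) := by
        refine pow_eq_pow_of_modEq ?_ hζ1
        rw [Nat.modEq_iff_dvd, ← dvd_neg, neg_sub]
        push_cast
        exact hi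
      rw [h3]
    · have h3 : ζ ^ c * ζ ^ (4 ^ i) = 1 := by
        rw [← pow_add]
        have h5 : ζ ^ (c + 4 ^ i) = ζ ^ 0 := by
          refine pow_eq_pow_of_modEq ?_ hζ1
          rw [Nat.modEq_iff_dvd, ← dvd_neg]
          push_cast
          have h4 : -(0 - ((c : ℤ) + 4 ^ i)) = c + 4 ^ i := by ring
          rw [h4]
          exact hi
        rw [h5, pow_zero]
      have h4 : ζ ^ c = (ζ ^ (4 ^ i))⁻¹ := eq_inv_of_mul_eq_one_left h3
      rw [h4, inv_inv, add_comm]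
  refine ⟨γ, ?_, ?_, ?_, hgen⟩
  · intro y
    refine ⟨fun hy => ?_, hγK y⟩
    let E : IntermediateField (k) ↥(K ⊔ Bn) :=
      { carrier := {t | (t : ℂ) ∈ K}
        mul_mem' := fun {a b} ha hb => mul_mem (S := IntermediateField ℚ ℂ) (s := K) ha hb
        one_mem' := one_mem K
        add_mem' := fun {a b} ha hb => add_mem (S := IntermediateField ℚ ℂ) (s := K) ha hb
        zero_mem' := zero_mem K
        algebraMap_mem' := fun a => hkK a.2
        inv_mem' := fun a ha => inv_mem (S := IntermediateField ℚ ℂ) (s := K) ha }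
    have h1 : y ∈ IntermediateField.fixedField E.fixingSubgroup := by
      rw [IntermediateField.mem_fixedField_iff]
      intro g hg
      have h2 : ∀ x : ↥(K ⊔ Bn), (x : ℂ) ∈ K → g x = x := fun x hx =>
        (IntermediateField.mem_fixingSubgroup_iff E g).1 hg x hx
      obtain ⟨i, hi⟩ := hgen g h2
      rw [hi]
      clear hi
      induction i with
      | zero => rfl
      | succ i ih => rw [pow_succ, AlgEquiv.mul_apply, hy, ih]
    rw [InfiniteGalois.fixedField_fixingSubgroup] at h1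
    exact h1
  · refine hext _ _ (fun y hy => hγiK _ y hy) ?_
    apply Subtype.ext
    rw [hγiz]
    have h1 : ζ ^ 4 ^ 3 ^ n = ζ ^ 1 := by
      refine pow_eq_pow_of_modEq ?_ hζ1
      rw [Nat.modEq_iff_dvd, ← dvd_neg, neg_sub]
      push_cast
      exact four_pow_dvd n
    rw [h1, pow_one]
    rfl
  · intro hz
    have h1 := hγiz 1
    rw [pow_one, pow_one] at h1
    exact h1

variable {A B : ℤ}

theorem lev_ne {f : ℕ} (hf : f ≠ 0) (n : ℕ) : lev A B f n ≠ 0 := by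
  intro h
  have h1 := congrArg QuadraticAlgebra.re h
  unfold lev at h1
  rw [QuadraticAlgebra.re_natCast] at h1
  have h2 : ((f * 3 ^ (n + 1) : ℕ) : ℤ) = 0 := h1
  have h3 : f * 3 ^ (n + 1) ≠ 0 := by positivity
  exact h3 (by exact_mod_cast h2)

theorem nm_intCast (x : ℤ) : nm (x : OO A B) = x ^ 2 := by
  unfold nm
  simp

theorem exX {f : ℕ} (hf3 : ¬ 3 ∣ f) (n : ℕ) : ∃ x : ℤ, lev A B f 0 ∣ (x : OO A B) - 1 ∧
      (3 : ℤ) ^ (n + 1) ∣ x ^ 2 - 4 ∧ IsCoprime (x : OO A B) (lev A B f n) := by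
  have hcop : IsCoprime (f : ℤ) ((3 : ℤ) ^ (n + 1)) := by
    refine IsCoprime.pow_right ?_
    have h1 : Nat.Coprime f 3 := ((Nat.Prime.coprime_iff_not_dvd Nat.prime_three).2 hf3).symm
    exact_mod_cast Nat.isCoprime_iff_coprime.2 h1
  obtain ⟨u, v, huv⟩ := hcop
  have e0 : lev A B f 0 = (((f : ℤ) * 3 : ℤ) : OO A B) := by
    unfold lev
    push_cast
    rfl
  have e1 : lev A B f n = (((f : ℤ) * 3 ^ (n + 1) : ℤ) : OO A B) := by
    unfold lev
    push_cast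
    rfl
  refine ⟨1 - 3 * u * f, ?_, ?_, ?_⟩
  · have h1 : ((1 - 3 * u * (f : ℤ) : ℤ) : OO A B) - 1 = ((-(3 * u * (f : ℤ)) : ℤ) : OO A B) := by
      push_cast
      abel
    rw [e0, h1]
    exact Int.cast_dvd_cast _ _ ⟨-u, by ring⟩
  · refine ⟨3 * v * (-1 - 3 * u * f), ?_⟩
    linear_combination -3 * (-1 - 3 * u * (f : ℤ)) * huv
  · have h1 : IsCoprime (1 - 3 * u * (f : ℤ)) ((f : ℤ) * 3 ^ (n + 1)) := by
      refine IsCoprime.mul_right ⟨1, 3 * u, by ring⟩ (IsCoprime.pow_right ⟨1, u * f, by ring⟩)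
    rw [e1]
    exact h1.map (Int.castRingHom (OO A B))

/-- the identity acts as `1` -/
theorem act_one {L : PeriodPair} {Om : ℂ} (hT : TorA A B L Om) {m : OO A B} (hm : m ≠ 0) :
    Act L (_root_.Pool.Agent.MU3A.em (1 : TF L m ≃ₐ[kk A B] TF L m)) m 1 := by
  obtain ⟨y, hy⟩ := hT.act m hm 1
  have h1 := hT.mul m hm 1 1 y y hy hy
  rw [one_mul] at h1
  have h2 := (hT.per m hm 1 y (y * y) hy).1 h1
  have h3 : m ∣ y * (1 - y) := by
    have : y * (1 - y) = y - y * y := by ring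
    rwa [this]
  have h4 : m ∣ 1 - y := hy.1.symm.dvd_of_dvd_mul_left h3
  refine (hT.per m hm 1 y 1 hy).2 ?_
  rw [← dvd_neg, neg_sub]
  exact h4

end IGAM

open _root_.Pool.Agent.MU3I.IGAM

theorem t_IGAM (hIL : St_ILAY) : St_IGAM := by
  intro A B hc L Om hL hT f hf0 hf3 hCpl K hfinK hkK hKT n Bn hBn h
  let _ := algC h
  intro hGal
  have hBn' := hIL n Bn hBn
  set ζ : ℂ := zt (3 ^ (n + 1)) with hζdef
  have hM0 : (3 : ℕ) ^ (n + 1) ≠ 0 := by positivity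
  have hζ : IsPrimitiveRoot ζ (3 ^ (n + 1)) := Complex.isPrimitiveRoot_exp _ hM0
  have hζ0 : ζ ≠ 0 := hζ.ne_zero hM0
  have hζ1 : ζ ^ (3 ^ (n + 1)) = 1 := hζ.pow_eq_one
  have hm : lev A B f n ≠ 0 := lev_ne hf0 n
  have hm0 : lev A B f 0 ≠ 0 := lev_ne hf0 0
  have hdvd : lev A B f 0 ∣ lev A B f n := by
    unfold lev
    refine Nat.cast_dvd_cast ?_
    exact mul_dvd_mul_left f (pow_dvd_pow 3 (by omega))
  have hMm : ((3 ^ (n + 1) : ℕ) : OO A B) ∣ lev A B f n := by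
    unfold lev
    exact Nat.cast_dvd_cast (dvd_mul_left _ _)
  set m := lev A B f n with hmdef
  set m0 := lev A B f 0 with hm0def
  have hle : TF L m0 ≤ TF L m := hT.tower m0 m hm hdvd
  obtain ⟨hζm, hζact⟩ := hT.zeta m hm (3 ^ (n + 1)) hMm ζ hζ1
  -- `D ≤ TF L m`
  have hDm : ∀ x ∈ K ⊔ Bn, x ∈ TF L m := by
    have h1 : K ⊔ Bn ≤ (TF L m).restrictScalars ℚ := by
      refine sup_le (fun x hx => hle (hKT x hx)) ?_
      rw [hBn', IntermediateField.adjoin_simple_le_iff]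
      exact add_mem hζm (inv_mem hζm)
    exact fun x hx => h1 hx
  refine ⟨hDm, ?_⟩
  -- the integer `x`
  obtain ⟨x, hx1, hx2, hx3⟩ := exX (A := A) (B := B) hf3 n
  -- restriction to `TF L m0`
  have hgal0 : IsGalois (kk A B) (TF L m0) := hT.gal m0 hm0
  have hgalm : IsGalois (kk A B) (TF L m) := hT.gal m hm
  have hres : ∀ (σ : TF L m ≃ₐ[kk A B] TF L m) (y : OO A B), Act L (_root_.Pool.Agent.MU3A.em σ) m y →
      ∃ τ : TF L m0 ≃ₐ[kk A B] TF L m0, Act L (_root_.Pool.Agent.MU3A.em τ) m0 y ∧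
        ∀ (z : ℂ) (hz : z ∈ TF L m0) (hz' : z ∈ TF L m),
          ((σ ⟨z, hz'⟩ : TF L m) : ℂ) = ((τ ⟨z, hz⟩ : TF L m0) : ℂ) := by
    intro σ y hy
    obtain ⟨τ, h1⟩ := resg (TF L m0) (TF L m) hle σ
    exact ⟨τ, hT.res m0 m hm hdvd σ τ y hy h1, h1⟩
  -- `σ`
  obtain ⟨σ, hσ⟩ : ∃ σ : TF L m ≃ₐ[kk A B] TF L m, Act L (_root_.Pool.Agent.MU3A.em σ) m (x : OO A B) := by
    by_contra hno
    have h1 : ∃ σ : TF L m ≃ₐ[kk A B] TF L m, Act L (_root_.Pool.Agent.MU3A.em σ) m (-(x : OO A B)) := by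
      by_contra h2
      exact hno ((hCpl n _ hx3).2 h2)
    obtain ⟨σ, hσ⟩ := h1
    obtain ⟨τ, hτ, -⟩ := hres σ _ hσ
    have h2 : Act L (_root_.Pool.Agent.MU3A.em τ) m0 (-1 : OO A B) := by
      refine (hT.per m0 hm0 τ _ _ hτ).2 ?_
      have h3 : -(x : OO A B) - -1 = -((x : OO A B) - 1) := by ring
      rw [h3, dvd_neg]
      exact hx1
    exact (hCpl 0 1 isCoprime_one_left).1 ⟨1, act_one hT hm0⟩ ⟨τ, h2⟩
  -- `σ` is trivial on `TF L m0`
  have hσ0 : ∀ (z : ℂ) (_ : z ∈ TF L m0) (hz' : z ∈ TF L m), ((σ ⟨z, hz'⟩ : TF L m) : ℂ) = z := by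
    obtain ⟨τ, hτ, hτ'⟩ := hres σ _ hσ
    have h2 : Act L (_root_.Pool.Agent.MU3A.em τ) m0 (1 : OO A B) := (hT.per m0 hm0 τ _ _ hτ).2 hx1
    have h3 : τ = 1 := hT.inj m0 hm0 τ 1 1 h2 (act_one hT hm0)
    intro z hz hz'
    rw [hτ' z hz hz', h3]
    rfl
  -- `σ ζ = ζ^4`
  have hσζ : ((σ ⟨ζ, hζm⟩ : TF L m) : ℂ) = ζ ^ 4 := by
    rw [hζact σ _ hζm hσ, nm_intCast]
    refine pow_eq_pow_of_modEq ?_ hζ1
    rw [Nat.modEq_iff_dvd, Int.toNat_of_nonneg (sq_nonneg x), ← dvd_neg]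
    have h1 : -(((4 : ℕ) : ℤ) - x ^ 2) = x ^ 2 - 4 := by push_cast; ring
    rw [h1]
    exact_mod_cast hx2
  exact core (TF L m) K Bn n ζ hζ hBn' h hkK hDm hζm σ hσζ (fun z hz hz' => hσ0 z (hKT z hz) hz') hGal

end Pool.Agent.MU3I


end
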