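import Mathlib
import Pool.Agent.MVF.C073
import Pool.Agent.MVF.C078
import Pool.Agent.MVF.C079
import Pool.Agent.MVF.C080
import Pool.Agent.MVF.C090
import Pool.Agent.MVF.C092
import Pool.Agent.MVF.C106
import Pool.Agent.MVF.C111
import Pool.Agent.MVF.C112

/-! Parts: ME.C_PHM, ME.C_SGQ, ME.C_FGL, ME.C_CMP, ME.CEAll, NS.T_ACI, MUX.YAll, MUX.XTMain, MUX.XTF7, ME2.T_Lib -/

namespace Pool.Agent.MEC.CMP
end Pool.Agent.MEC.CMP
namespace Pool.Agent.MEC.FGL
end Pool.Agent.MEC.FGL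
namespace Pool.Agent.NST.ACI
end Pool.Agent.NST.ACI

section

/-!
# ME, block CE (port of `MUX/C_X.lean`), module PHM: the isomorphism `Φ` and the action of `O`
-/

set_option autoImplicit false

open Polynomial NumberField IsDedekindDomain

namespace Pool.Agent.MEC

open _root_.MU3 _root_.Pool.Agent.MU3A _root_.Pool.Agent.MU3B _root_.Pool.Agent.MUX _root_.Pool.Agent.MUXU _root_.Pool.Agent.RI
open _root_.Pool.Agent.ME
open _root_.Pool.Agent.MUXE (NL Sxe_RNG)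
open _root_.Pool.Agent.MUXC (Sc_CLF Sc_COP Sc_TRO Sc_GEN Sc_ENO Sc_INV Sc_QCR Sc_QEX Sc_QNE Sc_ISL Sc_FEX
  Sc_RP1 Sc_RP2 Sc_RP3 Sc_REP Sc_DNX Sc_NMC)

noncomputable section

/-- PHM. -/
theorem tc_PHM : Sc_PHM := by
  intro A B hQ σ hσ b L L' om hL hC Φ hΦ
  have hfix : ∀ x : OO A B, σ (emb x) = emb x := by
    intro x
    have h : σ (wC A B) = wC A B := hσ
    unfold emb
    rw [map_add, map_mul, map_intCast, map_intCast, h]
  have hIsg : ∀ x : OO A B, Isg L L (emb x) := by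
    intro x w hw
    obtain ⟨c, hc, rfl⟩ := (hL.mem w).1 hw
    exact (hL.mem _).2 ⟨x * c, b.mul_mem_left x hc, by rw [_root_.Pool.Agent.MUX.emb_mul hQ]; ring⟩
  have h1 : ∀ (x : OO A B) (z : ℂ), Φ (emb x * z) - emb x * Φ z ∈ L'.lattice := fun x z =>
    (Pool.Agent.MUXU.u_CMC σ L L' Φ (emb x) (hIsg x) (hfix x) hC hΦ).2 z
  have h2 := (Pool.Agent.MUXU.u_TSN σ L L' Φ hC hΦ).2
  have h3 : ∀ z z' : ℂ, Φ (z - z') - (Φ z - Φ z') ∈ L'.lattice := by
    intro z z'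
    have h4 := neg_mem (hΦ.add (z - z') z')
    rw [sub_add_cancel] at h4
    have h5 : Φ (z - z') - (Φ z - Φ z') = -(Φ z - Φ (z - z') - Φ z') := by ring
    rw [h5]
    exact h4
  refine ⟨h1, fun m z => ⟨fun h x hx => (h2 (emb x) z (hIsg x) (hfix x)).1 (h x hx),
    fun h x hx => (h2 (emb x) z (hIsg x) (hfix x)).2 (h x hx)⟩, fun z z' => ?_, h3⟩
  rw [← hΦ.mem]
  constructor
  · intro h
    have h4 := add_mem (h3 z z') h
    rwa [sub_add_cancel] at h4
  · intro h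
    have h4 := sub_mem h (h3 z z')
    rwa [sub_sub_cancel] at h4

end

end Pool.Agent.MEC


end

section

/-!
# ME, block CE, module SGQ: all normalised lattices have the same points and coordinates (helper58)
-/

set_option autoImplicit false

namespace Pool.Agent.MEC

open _root_.MU3 _root_.Pool.Agent.MU3A _root_.Pool.Agent.MU3B _root_.Pool.Agent.MUX _root_.Pool.Agent.MUXU _root_.Pool.Agent.RI
open _root_.Pool.Agent.ME

theorem tc_SGQ (h : Su_DET) : Sc_SGQ := by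
  intro A B L L' hL hL'
  have e := h L L' (by rw [hL.g2, hL'.g2]) (by rw [hL.g3, hL'.g3])
  have e1 : ∀ z, z ∈ L.lattice ↔ z ∈ L'.lattice := fun z => by rw [e]
  obtain ⟨p1, p2, -, -⟩ := ta_SCP L L' 1 one_ne_zero (fun u => by rw [one_mul]; exact e1 u)
  refine ⟨e1, CJN.kap_same hL hL', fun z => ?_⟩
  have q1 := p1 z
  have q2 := p2 z
  rw [one_mul, one_pow, div_one] at q1 q2
  unfold xnE yy
  rw [q1, q2]
  exact ⟨rfl, rfl⟩

end Pool.Agent.MEC


end

section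

/-!
# ME, block CE (port of `MUX/C_X.lean`), module FGL: the fields `RFE m` are finite Galois extensions of `k`
-/

set_option autoImplicit false

open Polynomial NumberField IsDedekindDomain

namespace Pool.Agent.MEC

open _root_.MU3 _root_.Pool.Agent.MU3A _root_.Pool.Agent.MU3B _root_.Pool.Agent.MUX _root_.Pool.Agent.MUXU _root_.Pool.Agent.RI
open _root_.Pool.Agent.ME
open _root_.Pool.Agent.MUXE (NL Sxe_RNG)
open _root_.Pool.Agent.MUXC (Sc_CLF Sc_COP Sc_TRO Sc_GEN Sc_ENO Sc_INV Sc_QCR Sc_QEX Sc_QNE Sc_ISL Sc_FEX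
  Sc_RP1 Sc_RP2 Sc_RP3 Sc_REP Sc_DNX Sc_NMC)

noncomputable section

namespace FGL

variable {A B : ℤ}

/-- automorphisms of `ℂ` with `FixK` are trivial on `k` -/
lemma fix {σ : ℂ ≃+* ℂ} (hσ : FixK A B σ) : ∀ y ∈ kk A B, σ y = y := by
  intro y hy
  induction hy using IntermediateField.adjoin_induction with
  | mem x hx => rw [Set.mem_singleton_iff] at hx; rw [hx]; exact hσ
  | algebraMap x => simp
  | add x y _ _ hx hy => rw [map_add, hx, hy]
  | inv x _ hx => rw [map_inv₀, hx]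
  | mul x y _ _ hx hy => rw [map_mul, hx, hy]

lemma isIntegral_wC (h : CQ A B) : IsIntegral ℚ (wC A B) := by
  refine ⟨X ^ 2 - C (B : ℚ) * X - C (A : ℚ), ?_, ?_⟩
  · monicity!
  · simp only [eval₂_sub, eval₂_pow, eval₂_X, eval₂_mul, eval₂_C]
    simp only [eq_ratCast, Rat.cast_intCast]
    rw [sq, _root_.Pool.Agent.MUX.wC_sq h]
    ring

lemma _root_.Pool.Agent.MEC.FGL.isAlgebraic_kk (h : CQ A B) : Algebra.IsAlgebraic ℚ (kk A B) := by
  refine IntermediateField.isAlgebraic_adjoin ?_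
  intro x hx
  rw [Set.mem_singleton_iff] at hx
  rw [hx]
  exact isIntegral_wC h

/-- a finite extension inside an algebraically closed field which contains the images of all
embeddings is normal -/
theorem _root_.Pool.Agent.MEC.FGL.normal_of {k K : Type*} [Field k] [Field K] [Algebra k K] [IsAlgClosed K]
    (F : IntermediateField k K) [Algebra.IsAlgebraic k F]
    (h : ∀ σ : F →ₐ[k] K, ∀ x : F, σ x ∈ F) : Normal k F := by
  rw [normal_iff]
  intro x
  refine ⟨Algebra.IsIntegral.isIntegral x, ?_⟩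
  apply IntermediateField.splits_of_splits (IsAlgClosed.splits _)
  intro r hr
  rw [← Algebra.IsAlgebraic.range_eval_eq_rootSet_minpoly (F := k) K x] at hr
  obtain ⟨σ, rfl⟩ := hr
  exact h σ x

/-- the generators are stable -/
lemma _root_.Pool.Agent.MEC.FGL.gen_stab (h2 : Sc_ACT) (hQ : CQ A B) {m : Ideal (OO A B)} (hm : m ≠ ⊥) {σ : ℂ ≃+* ℂ}
    (hσ : FixK A B σ) {c : ℂ} (hc : c ∈ genS m) : σ c ∈ genS m := by
  obtain ⟨a, -, hact⟩ := h2 A B hQ m hm σ hσ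
  obtain ⟨b, L, om, hL, hc⟩ := hc
  obtain ⟨b', L', om', mu, hL', hA⟩ := hact b L om hL
  rcases hc with rfl | ⟨z, hz, hz0, rfl⟩
  · exact ⟨b', L', om', hL', Or.inl hA.kapE.symm⟩
  · rcases hA.act z hz with h | h
    · exact absurd h.1 hz0
    · refine ⟨b', L', om', hL', Or.inr ⟨mu * z, ?_, h.2.1, h.2.2.1⟩⟩
      intro y hy
      have e : emb y * (mu * z) = mu * (emb y * z) := by ring
      rw [e]
      refine (hA.isq.2 _).2 ?_
      intro x _
      exact hL.toIsLI.hasCM hQ x _ (hz y hy)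

/-- the field is stable -/
lemma _root_.Pool.Agent.MEC.FGL.stab (h2 : Sc_ACT) (hQ : CQ A B) {m : Ideal (OO A B)} (hm : m ≠ ⊥) {σ : ℂ ≃+* ℂ}
    (hσ : FixK A B σ) : ∀ y ∈ (RFE m : IntermediateField (kk A B) ℂ), σ y ∈ RFE m := by
  intro y hy
  have hy' : y ∈ IntermediateField.adjoin (kk A B) (genS m) := hy
  show σ y ∈ IntermediateField.adjoin (kk A B) (genS m)
  clear hy
  induction hy' using IntermediateField.adjoin_induction with
  | mem x hx => exact IntermediateField.subset_adjoin _ _ (_root_.Pool.Agent.MEC.FGL.gen_stab h2 hQ hm hσ hx)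
  | algebraMap x =>
    have e : σ (algebraMap (kk A B) ℂ x) = algebraMap (kk A B) ℂ x := fix hσ _ x.2
    rw [e]
    exact IntermediateField.algebraMap_mem _ x
  | add x y _ _ hx hy => rw [map_add]; exact add_mem hx hy
  | inv x _ hx => rw [map_inv₀]; exact inv_mem hx
  | mul x y _ _ hx hy => rw [map_mul]; exact mul_mem hx hy

end FGL

open _root_.Pool.Agent.MEC.FGL in
theorem tc_FGL (h1 : Sc_FNG) (h2 : Sc_ACT) (h3 : Su_AUT) (h4 : Su_AUE) : Sc_FGL := by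
  intro A B hQ m hm
  have hk := _root_.Pool.Agent.MEC.FGL.isAlgebraic_kk hQ
  have hfin := h1 A B hQ m hm
  have halg : ∀ c ∈ genS m, IsIntegral ℚ c := by
    intro c hc
    apply IsAlgebraic.isIntegral
    apply h3 (kk A B) hk c
    apply hfin.subset
    rintro y ⟨σ, hσ, rfl⟩
    exact _root_.Pool.Agent.MEC.FGL.gen_stab h2 hQ hm (hσ _ (wC_mem A B)) hc
  have hfd : FiniteDimensional (kk A B) (RFE m) := by
    have : Finite (genS m) := hfin
    exact IntermediateField.finiteDimensional_adjoin (S := genS m)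
      (fun x hx => (halg x hx).tower_top)
  have hst : ∀ σ : ℂ ≃+* ℂ, FixK A B σ →
      ∀ y ∈ (RFE m : IntermediateField (kk A B) ℂ), σ y ∈ RFE m := fun σ hσ => _root_.Pool.Agent.MEC.FGL.stab h2 hQ hm hσ
  refine ⟨hfd, ?_, hst⟩
  have halgF : Algebra.IsAlgebraic ℚ ((RFE m).restrictScalars ℚ) := by
    have h5 : Algebra.IsAlgebraic (kk A B) (RFE m) := Algebra.IsAlgebraic.of_finite _ _
    exact Algebra.IsAlgebraic.trans ℚ (kk A B) (RFE m)
  have hn : Normal (kk A B) (RFE m) := by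
    apply _root_.Pool.Agent.MEC.FGL.normal_of
    intro τ x
    obtain ⟨σ, hσ⟩ := h4 ((RFE m).restrictScalars ℚ) halgF τ.toRingHom
    have hσ' : ∀ y : RFE m, σ (y : ℂ) = τ y := fun y => hσ y
    have hF : FixK A B σ := by
      have h6 := hσ' (algebraMap (kk A B) (RFE m) ⟨wC A B, wC_mem A B⟩)
      rw [τ.commutes] at h6
      exact h6
    rw [← hσ' x]
    exact hst σ hF x x.2
  exact ⟨⟩

end

end Pool.Agent.MEC


end

section

/-!
# ME, block CE (port of `MUX/C_X.lean`), module CMP (helper91): the field `comp` of `TorXE`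
-/

set_option autoImplicit false

namespace Pool.Agent.MEC

open _root_.Pool.Agent.ME
open _root_.Pool.Agent.MUXC (Sc_CLF Sc_COP Sc_TRO Sc_GEN Sc_ENO Sc_INV Sc_QCR Sc_QEX Sc_QNE Sc_ISL Sc_FEX
  Sc_RP1 Sc_RP2 Sc_RP3 Sc_REP Sc_DNX Sc_NMC)
open _root_.MU3 _root_.Pool.Agent.MU3A _root_.Pool.Agent.MU3B _root_.Pool.Agent.MUX _root_.Pool.Agent.MUXU _root_.Pool.Agent.RI

noncomputable section

namespace CMP

/-- composition of `PME` -/
theorem _root_.Pool.Agent.MEC.CMP.pm_trans (σ τ : ℂ ≃+* ℂ) (L L' L'' : PeriodPair) (z z' z'' : ℂ) (h1 : PME σ L L' z z')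
    (h2 : PME τ L' L'' z' z'') : PME (σ.trans τ) L L'' z z'' := by
  rcases h1 with ⟨a1, a2⟩ | ⟨a1, a2, a3, a4⟩
  · rcases h2 with ⟨_, b2⟩ | ⟨b1, _⟩
    · exact Or.inl ⟨a1, b2⟩
    · exact absurd a2 b1
  · rcases h2 with ⟨b1, _⟩ | ⟨_, b2, b3, b4⟩
    · exact absurd b1 a2
    · refine Or.inr ⟨a1, b2, ?_, ?_⟩
      · show τ (σ (xnE L z)) = _
        rw [a3, b3]
      · show τ (σ (yy L z)) = _
        rw [a4, b4]

end CMP

open _root_.Pool.Agent.MEC.CMP in
theorem tc_CMP : Sc_CMP := by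
  intro A B hC m a b σ τ L L' L'' mu nu h1 h2
  have key : ∀ (y : OO A B) (z : ℂ), emb y * (mu * z) ∈ L'.lattice ↔
      ∀ x ∈ a, emb (x * y) * z ∈ L.lattice := by
    intro y z
    have e : emb y * (mu * z) = mu * (emb y * z) := by ring
    rw [e, h1.isq.2]
    refine forall₂_congr fun x _ => ?_
    rw [_root_.Pool.Agent.MUX.emb_mul hC, mul_assoc]
  refine ⟨?_, ?_, ⟨mul_ne_zero h2.isq.1 h1.isq.1, fun z => ?_⟩, fun z hz => ?_⟩
  · show kapE L'' = τ (σ (kapE L))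
    rw [h2.kapE, h1.kapE]
  · exact IsCoprime.mul_left h1.cop h2.cop
  · rw [mul_assoc, h2.isq.2]
    constructor
    · intro h t ht
      refine Submodule.mul_induction_on ht (fun x hx y hy => ?_) (fun x y hx hy => ?_)
      · exact (key y z).1 (h y hy) x hx
      · rw [MUX.emb_add hC, add_mul]
        exact add_mem hx hy
    · intro h y hy
      exact (key y z).2 fun x hx => h _ (Ideal.mul_mem_mul hx hy)
  · rw [mul_assoc]
    refine _root_.Pool.Agent.MEC.CMP.pm_trans σ τ L L' L'' z (mu * z) _ (h1.act z hz) (h2.act _ ?_)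
    intro y hy
    exact (key y z).2 fun x _ => hz _ (m.mul_mem_left x hy)

end

end Pool.Agent.MEC


end

section

/-!
# ME, block CE (helper58): the main theorem of complex multiplication `TorXE A B` for the exceptional fields, without hypotheses
-/

set_option autoImplicit false

namespace Pool.Agent.MEC

open _root_.MU3 _root_.Pool.Agent.MU3A _root_.Pool.Agent.MU3B _root_.Pool.Agent.MUX _root_.Pool.Agent.MUXU _root_.Pool.Agent.RI
open _root_.Pool.Agent.ME _root_.Pool.Agent.MUXV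
open _root_.Pool.Agent.MUXC (c_CLF c_GEN c_ENO c_INV c_QCR c_QEX c_QNE c_ISL c_FEX c_REP c_DNX c_NMC c_MUC)

theorem c_CJN : Sc_CJN := tc_CJN u_CJE u_PHI u_CMC u_DET c_ISL
theorem c_SGQ : Sc_SGQ := tc_SGQ u_DET
theorem c_PMF : Sc_PMF := tc_PMF u_EQP
theorem c_PHM : Sc_PHM := tc_PHM
theorem c_IND : Sc_IND := tc_IND c_QEX c_QNE c_CJN c_PMF u_PHI u_FUN c_MUC
theorem c_EXA : Sc_EXA := tc_EXA c_QEX c_GEN c_CJN c_PMF c_PHM u_PHI
theorem c_ACT : Sc_ACT := tc_ACT c_CJN c_EXA c_IND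
theorem c_CMP : Sc_CMP := tc_CMP
theorem c_CHG : Sc_CHG := tc_CHG
theorem c_UNQ : Sc_UNQ := tc_UNQ c_QNE c_ENO c_INV c_GEN u_EQP
theorem c_TRV : Sc_TRV := tc_TRV c_CJN c_SGQ c_QNE c_ENO c_INV c_GEN c_IND
theorem c_NRL : Sc_NRL := tc_NRL c_GEN
theorem c_FNG : Sc_FNG := tc_FNG c_GEN c_SGQ
theorem c_FGL : Sc_FGL := tc_FGL c_FNG c_ACT u_AUT u_AUE
theorem c_CMM : Sc_CMM := tc_CMM c_FGL c_ACT c_CMP c_SGQ u_AUE
theorem c_EXT : Sc_EXT := tc_EXT c_FGL u_AUE
theorem c_NEX : Sc_NEX := tc_NEX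
theorem c_BAD : Sc_BAD := tc_BAD x_XIC
theorem c_FRX : Sc_FRX := tc_FRX q_ISQ q_VQI x_R5 c_BAD
theorem c_FRO : Sc_FRO :=
  tc_FRO c_BAD c_CJN c_NEX c_EXA c_PMF c_PHM c_GEN c_QCR c_QNE c_FRX q_VQI u_PHI
theorem c_SUR : Sc_SUR := tc_SUR c_FRO c_REP c_FEX c_FGL c_CMP c_CHG u_AUE
theorem c_ZET : Sc_ZET :=
  tc_ZET c_FRO c_DNX c_FGL c_ACT c_CMP c_UNQ c_NMC c_NRL c_QNE c_TRV c_CJN u_AUE u_AUF

/-- the main theorem of complex multiplication for the exceptional fields -/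
theorem c_TORE : ∀ A B : ℤ, CaseE A B → TorXE A B :=
  tc_TOR c_FGL c_CMM c_EXT c_ACT c_SUR c_CMP c_CHG c_UNQ c_TRV c_ZET

/-- every nonzero ideal has a normalised lattice -/
theorem exists_isNE {A B : ℤ} (h : CaseE A B) (b : Ideal (OO A B)) (hb : b ≠ ⊥) :
    ∃ (L : PeriodPair) (om : ℂ), IsNE b L om :=
  c_NEX A B h b hb

end Pool.Agent.MEC


end

section

/-!
# MUX-NS, block TN, module ACI (helper44): the number `c` and the signs `d_i`
-/

set_option autoImplicit false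

namespace Pool.Agent.NST

open _root_.MU3 _root_.Pool.Agent.MU3A _root_.Pool.Agent.MU3B _root_.Pool.Agent.RI _root_.Pool.Agent.MUX _root_.Pool.Agent.MUXU
open OnePoint _root_.Pool.Agent.NS
open _root_.Pool.Agent.MUXV (GR InK)
open _root_.Pool.Agent.NSE (CtxN E3 su ru Rep)
open _root_.Pool.Agent.MUXY (ActN Dn Sy_MUU Sy_BRI)

noncomputable section

namespace ACI

variable {A B : ℤ}

lemma idl_le {a b : ℕ} (h : a ∣ b) :
    idl (A := A) (B := B) b ≤ idl (A := A) (B := B) a := by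
  obtain ⟨k, rfl⟩ := h
  rw [Ideal.span_singleton_le_span_singleton]
  exact ⟨((k : ℕ) : OO A B), by push_cast; rfl⟩

lemma three_ne_top : (1 : OO A B) ∉ idl (A := A) (B := B) 3 := by
  intro h
  obtain ⟨x, hx⟩ := Ideal.mem_span_singleton'.1 h
  have h1 := congrArg QuadraticAlgebra.re hx
  have h2 : (x * ((3 : ℕ) : OO A B)).re = 3 * x.re := by
    have e1 : ((3 : ℕ) : OO A B).re = ((3 : ℕ) : ℤ) := QuadraticAlgebra.re_natCast _
    have e2 : ((3 : ℕ) : OO A B).im = 0 := QuadraticAlgebra.im_natCast _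
    rw [QuadraticAlgebra.re_mul, e1, e2]
    push_cast
    ring
  rw [h2] at h1
  have h4 : (1 : OO A B).re = 1 := rfl
  rw [h4] at h1
  omega

end ACI

open _root_.Pool.Agent.NST.ACI in
theorem nt_ACI (h1 : Sy_MUU) (h2 : Sy_BRI) : Nt_ACI := by
  intro A B V hCI hV T hR n ι R j m' hm' h3m' σ hσ hin
  have hC : CQ A B := hCI.toCQ
  have hfix := (hR A B V hCI hV T).2 m' hm' h3m' σ hσ hin
  refine ⟨hfix, ?_⟩
  set m : ℕ := 3 ^ (j + 1) * m' with hmdef
  have hm : m ≠ 0 := mul_ne_zero (pow_ne_zero _ (by norm_num)) hm'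
  have hI : idl (A := A) (B := B) m ≠ ⊥ := by
    rw [Ne, Ideal.span_singleton_eq_bot]
    exact natCast_ne_zero' hC hm
  have hI' : idl (A := A) (B := B) m' ≠ ⊥ := by
    rw [Ne, Ideal.span_singleton_eq_bot]
    exact natCast_ne_zero' hC hm'
  have hle : idl (A := A) (B := B) m ≤ idl (A := A) (B := B) m' := idl_le (Dvd.intro_left _ rfl)
  have hle3 : idl (A := A) (B := B) m ≤ idl (A := A) (B := B) 3 :=
    idl_le (Dvd.dvd.mul_right (dvd_pow_self 3 (Nat.succ_ne_zero j)) m')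
  obtain ⟨a, hcop, ha⟩ := T.act (idl m) hI σ hσ
  obtain ⟨b₀, L₀, om₀, mu₀, hL₀, hA₀⟩ := ha _ _ _ (R.nl R.i0)
  have hA' : ActI σ (idl m') a (R.L R.i0) L₀ mu₀ := by
    refine ⟨hA₀.kap, ?_, hA₀.isq, fun z hz => hA₀.act z fun x hx => hz x (hle hx)⟩
    have h3 := hcop
    rw [Ideal.isCoprime_iff_sup_eq] at h3 ⊢
    rw [eq_top_iff, ← h3]
    exact sup_le_sup_left hle a
  obtain ⟨c, hc1, hca⟩ := (T.triv (idl m') a σ _ _ _ _ mu₀ hI' hσ (R.nl R.i0) hA' hL₀.nrm).1 hfix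
  subst hca
  have hc3 : c ∉ idl (A := A) (B := B) 3 := by
    intro hc
    have h3 := hcop
    rw [Ideal.isCoprime_iff_sup_eq] at h3
    have h4 : (sp c) ⊔ idl (A := A) (B := B) m ≤ idl (A := A) (B := B) 3 :=
      sup_le ((Ideal.span_singleton_le_iff_mem _).2 hc) hle3
    rw [h3] at h4
    exact three_ne_top (h4 trivial)
  have hc0 : c ≠ 0 := by
    rintro rfl
    exact hc3 (Ideal.zero_mem _)
  have key : ∀ i, ∃ d : ℤ, (d = 1 ∨ d = -1) ∧
      ActN σ m (sp c) (R.L i) (R.L i) ((d : ℂ) * emb c) := by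
    intro i
    obtain ⟨b', L', om', mu, hL', hA⟩ := ha _ _ _ (R.nl i)
    have hk : kap L' = kap (R.L i) := by
      rw [hA.kap]
      exact hfix _ (IntermediateField.subset_adjoin _ _ ⟨R.b i, R.L i, R.om i, R.nl i, Or.inl rfl⟩)
    have hg2 : L'.g₂ = (R.L i).g₂ := by
      unfold kap at hk
      linear_combination (1728 / 12) * hk
    have hg3 : L'.g₃ = (R.L i).g₃ := by
      have e1 := hL'.nrm
      have e2 := (R.nl i).nrm
      rw [hg2, e2] at e1
      linear_combination (1 / 18) * e1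
    have hlat : L'.lattice = (R.L i).lattice := u_DET L' (R.L i) hg2 hg3
    have hN : ActN σ m (sp c) (R.L i) (R.L i) mu :=
      h2 A B hC σ m (sp c) (R.b i) b' (R.L i) L' (R.L i) (R.om i) om' mu (R.nl i) hL' hA
        (fun z => by rw [hlat])
    have hq1 : IsQ (sp c) (R.L i) (R.L i) mu := ⟨hN.ne, hN.isq⟩
    have hCM : HasCM A B (R.L i) := (R.nl i).toIsLI.hasCM hC
    have hq2 : IsQ (sp c) (R.L i) (R.L i) (emb c) := by
      refine ⟨_root_.Pool.Agent.MUX.emb_ne_zero hC hc0, fun z => ⟨fun hz x hx => ?_, fun hz => ?_⟩⟩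
      · obtain ⟨y, rfl⟩ := Ideal.mem_span_singleton'.1 hx
        rw [_root_.Pool.Agent.MUX.emb_mul hC, mul_assoc]
        exact hCM y _ hz
      · exact hz c (Ideal.mem_span_singleton_self c)
    rcases h1 A B (sp c) (R.L i) (R.L i) (emb c) mu (R.nl i).nrm hq2 hq1 with h | h
    · refine ⟨1, Or.inl rfl, ?_⟩
      have e : (((1 : ℤ) : ℂ)) * emb c = mu := by rw [h]; push_cast; ring
      rw [e]
      exact hN
    · refine ⟨-1, Or.inr rfl, ?_⟩
      have e : (((-1 : ℤ) : ℂ)) * emb c = mu := by rw [h]; push_cast; ring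
      rw [e]
      exact hN
  choose d hd hact using key
  refine ⟨c, d, hc1, hc3, hσ, hd, hact, fun z hz => ?_⟩
  exact (T.zeta m (idl m) (sp c) σ _ _ _ _ mu₀ hI hσ hm le_rfl (R.nl R.i0) hA₀ z hz).2

end

end Pool.Agent.NST


end

section

/-!
# MUX, section 9 (rationality): all statements of `StYX.lean`, without hypotheses (helper41)

`TorX A B` remains a hypothesis inside the statements EXI, FIN, CON, ALM, ALP.
-/

set_option autoImplicit false

namespace Pool.Agent.MUXY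

open _root_.Pool.Agent.MUXF _root_.Pool.Agent.MUXU

theorem y_EE : Sy_EE := ty_EE u_PHI u_TSN u_EQP
theorem y_MAP : Sy_MAP := ty_MAP xf_ALG xf_NIM
theorem y_IDF : Sy_IDF := ty_IDF xf_ALG xf_IDL xf_NIM
theorem y_QBF : Sy_QBF := ty_QBF xf_ALG xf_IDL xf_QB y_IDF
theorem y_BIJ : Sy_BIJ := ty_BIJ xf_ALG y_IDF
theorem y_SUM : Sy_SUM := ty_SUM xf_SMB
theorem y_UV : Sy_UV := ty_UV xf_IDL xf_NIM
theorem y_TER : Sy_TER := ty_TER xf_ALG y_EE y_QBF
theorem y_PR4 : Sy_PR4 := ty_PR4 xf_ALG xf_QB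
theorem y_EIC : Sy_EIC := ty_EIC
theorem y_RA1 : Sy_RA1 := ty_RA1 xf_SMB xf_F4 y_BIJ y_SUM y_TER y_PR4 y_EIC
theorem y_RAT : Sy_RAT := ty_RAT xf_IDL y_MAP y_IDF y_UV y_RA1
theorem y_SAM : Sy_SAM := ty_SAM xf_ALG
theorem y_BRI : Sy_BRI := ty_BRI xf_ALG
theorem y_EXI : Sy_EXI := ty_EXI y_SAM y_BRI
theorem y_UNJ : Sy_UNJ := ty_UNJ xf_ALG xf_IDL u_DET
theorem y_FIN : Sy_FIN := ty_FIN xf_IDL xf_NIM y_RAT y_EXI
theorem y_CON : Sy_CON := ty_CON y_FIN y_UNJ y_EIC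
theorem y_MUC : Sy_MUC := ty_MUC xf_ALG u_PHI u_FUN u_TSN u_CMC
theorem y_MUU : Sy_MUU := ty_MUU
theorem y_MUI : Sy_MUI := ty_MUI xf_ALG xf_IDL
theorem y_ALM : Sy_ALM := ty_ALM xf_ALG xf_IDL y_EXI y_MUC y_MUU y_MUI u_AUT
theorem y_FEC : Sy_FEC := ty_FEC
theorem y_ALP : Sy_ALP := ty_ALP y_FIN y_FEC y_ALM u_AUT
theorem y_COP : Sy_COP := ty_COP

end Pool.Agent.MUXY


end

section

/-!
# MUX, block XT: the result, without hypotheses

Modules by helper85, 91, 43, 73, 99, 30, 18, 96, 4, 58, 46, 19, 83, 54, 22, 7, 48, 79, 95, 1, 11, 84.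
-/

set_option autoImplicit false

namespace Pool.Agent.MUXT

open _root_.MU3 _root_.Pool.Agent.MuSym OnePoint
open _root_.Pool.Agent.MU3T (Su_MBF Su_MCO tu_MBF tu_MCO)
open _root_.Pool.Agent.MUXF (CQ IsEI nI thetaI thetaIntI IvI IcI PhiI nuQ)

theorem x_QFF : Xs_QFF := tx_QFF
theorem x_DIF : Xs_DIF := tx_DIF x_QFF
theorem x_BND : Xs_BND := tx_BND x_QFF x_DIF
theorem x_REG : Xs_REG := tx_REG x_QFF x_DIF
theorem x_POI : Xs_POI := tx_POI x_QFF
theorem x_CLS : Xs_CLS := tx_CLS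
theorem x_WBD : Xs_WBD := tx_WBD
theorem x_RED : Xs_RED := tx_RED x_DIF x_POI x_CLS x_WBD
theorem x_WID : Xs_WID := tx_WID x_CLS
theorem x_GAU : Xs_GAU := tx_GAU
theorem x_MOP : Xs_MOP := tx_MOP x_RED x_WID x_GAU tu_MBF
theorem x_MOD : Xs_MOD := tx_MOD x_MOP tu_MBF
theorem x_EXP : Xs_EXP := tx_EXP x_WBD x_RED tu_MBF
theorem x_ITG : Xs_ITG := tx_ITG x_WBD x_DIF x_BND x_EXP
theorem x_VLN : Xs_VLN := tx_VLN x_WBD x_DIF x_BND x_ITG
theorem x_CUS : Xs_CUS := tx_CUS x_WBD x_BND x_VLN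
theorem x_EXI : Xs_EXI := tx_EXI x_WBD x_DIF x_BND tu_MBF x_EXP x_CUS
theorem x_QPE : Xs_QPE := tx_QPE x_WBD x_DIF x_BND tu_MBF x_MOD x_CUS
theorem x_SYM : Xs_SYM := tx_SYM x_BND tu_MBF x_EXI x_QPE tu_MCO
theorem x_CHQ : Xs_CHQ := tx_CHQ
theorem x_BAS : Xs_BAS := tx_BAS
theorem x_TRI : Xs_TRI := tx_TRI

/-- **Main result of the block.** -/
theorem main_FTI : Xs_FTI :=
  tx_FTI x_WBD x_REG x_MOD x_ITG x_EXI x_QPE x_SYM x_CHQ x_BAS x_TRI

/-- the same for the characters `IsEI g e` of helper87, with `nuQ` -/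
theorem main_EI {A B : ℤ} (h : CQ A B) (b : Ideal (OO A B)) (hb : b ≠ ⊥) (g : Ideal (OO A B))
    (e : OO A B → ℂ) (he : IsEI g e) (G : ℕ) (hG : 0 < G) (hGg : (G : OO A B) ∈ g) :
    (∀ r : ℚ, MeasureTheory.IntegrableOn
      (fun t : ℝ => thetaI b e ((r : ℂ) + t * Complex.I)) (Set.Ioi 0)) ∧
    ∀ N : ℕ, N ≠ 0 → absD A B * G ^ 2 ∣ (N : ℤ) →
    IsSym N (nuQ e) (PhiI b e) ∧
    (∀ a b' c d : ℤ, a * d - b' * c = 1 → (N : ℤ) ∣ c → ∀ τ : ℂ, 0 < τ.im →
      thetaI b e ((a * τ + b') / (c * τ + d)) = (c * τ + d) ^ 2 * nuQ e d * thetaI b e τ ∧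
      thetaIntI b e ((a * τ + b') / (c * τ + d)) =
        nuQ e d * thetaIntI b e τ + PhiI b e ∞ (mob a b' c d ∞)) ∧
    ∀ a b' c d : ℤ, a * d - b' * c = 1 → ∃ w : ℕ → ℂ, ∀ τ : ℂ, 0 < τ.im →
      HasSum (fun n : ℕ => w n * Complex.exp (2 * Real.pi * Complex.I * τ / N) ^ (n + 1))
        (thetaIntI b e ((a * τ + b') / (c * τ + d)) - PhiI b e ∞ (mob a b' c d ∞)) :=
  main_FTI A B h.hB h.neg b hb e G hG he.mul (fun x y hxy => he.per x y (by
    obtain ⟨k, hk⟩ := hxy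
    rw [hk]
    exact Ideal.mul_mem_right k g hGg)) he.neg

end Pool.Agent.MUXT


end

section

/-!
# MUX, block XT: corollaries for characters `IsEI g e`, `g` any nonzero ideal
-/

set_option autoImplicit false

namespace Pool.Agent.MUXT

open _root_.MU3 _root_.Pool.Agent.MuSym OnePoint
open _root_.Pool.Agent.MUXF (CQ IsEI nI thetaI thetaIntI IvI IcI PhiI nuQ)

/-- a nonzero ideal contains a positive integer -/
theorem pos_mem {A B : ℤ} (h : CQ A B) (g : Ideal (OO A B)) (hg : g ≠ ⊥) :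
    ∃ G : ℕ, 0 < G ∧ (G : OO A B) ∈ g := by
  obtain ⟨x, hx, hx0⟩ := Submodule.exists_mem_ne_zero_of_ne_bot hg
  have hn : 0 < nm x := lt_of_le_of_ne (Pool.Agent.MUXF.AlgX.nm_nonneg h x)
    (fun h0 => hx0 ((Pool.Agent.MUXF.AlgX.nm_eq_zero h x).1 h0.symm))
  refine ⟨(nm x).toNat, by omega, ?_⟩
  have h1 : (((nm x).toNat : ℕ) : OO A B) = ((nm x : ℤ) : OO A B) := by
    rw [← Int.cast_natCast, Int.toNat_of_nonneg hn.le]
  rw [h1, ← Pool.Agent.MUXF.AlgX.mul_star' x]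
  exact Ideal.mul_mem_right _ g hx

/-- the symbol `PhiI b e` is a symbol with character `nuQ e` of level `D G²`, `G ∈ g` -/
theorem sym_EI {A B : ℤ} (h : CQ A B) (b : Ideal (OO A B)) (hb : b ≠ ⊥) (g : Ideal (OO A B))
    (e : OO A B → ℂ) (he : IsEI g e) (G : ℕ) (hG : 0 < G) (hGg : (G : OO A B) ∈ g)
    (N : ℕ) (hN : N ≠ 0) (hd : absD A B * G ^ 2 ∣ (N : ℤ)) : IsSym N (nuQ e) (PhiI b e) :=
  ((main_EI h b hb g e he G hG hGg).2 N hN hd).1

/-- F7 of helper87, without the hypothesis on the symbol -/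
theorem fg_EI (A B : ℤ) (h : CQ A B) (b g : Ideal (OO A B)) (e : OO A B → ℂ) (hb : b ≠ ⊥)
    (hg : g ≠ ⊥) (he : IsEI g e) :
    ∃ S : Finset ℂ, ∀ x y, PhiI b e x y ∈ AddSubgroup.closure (S : Set ℂ) := by
  obtain ⟨G, hG, hGg⟩ := pos_mem h g hg
  have hD : 0 < absD A B := by
    have := h.neg
    unfold absD
    omega
  have hN : 0 < absD A B * (G : ℤ) ^ 2 := by
    have : (0 : ℤ) < G := by exact_mod_cast hG
    positivity
  refine Pool.Agent.MUXF.xf_F7 A B h b g e hb hg he (absD A B * (G : ℤ) ^ 2).toNat (by omega) ?_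
  refine sym_EI h b hb g e he G hG hGg _ (by omega) ?_
  rw [Int.toNat_of_nonneg hN.le]

end Pool.Agent.MUXT


end

section

/-!
# ME2, library for the blocks T of the exceptional fields (helper4)

`R : RepsE A B n ι` has one element (`one_elt`). An automorphism `σ` of `ℂ / k` acts on the points of level `m`, `m` even, of all normalised lattices as `c`, `c ≡ 1` modulo `2`
(`actE`); if it fixes `℘(om/m'')`, `m'' ∣ m`, `m'' ≥ 2`, then `c ≡ ± 1` modulo `m''` (`cong_pm`). `e(c) σ(PhiI b e x y/om) = PhiI b e x y/om` (`valE`). The values `PhiI b e x y/om`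
are algebraic (`algE`) and generated by finitely many of them (`fgE`).
-/

set_option autoImplicit false

namespace Pool.Agent.ME2

open _root_.MU3 _root_.Pool.Agent.MU3A _root_.Pool.Agent.MU3B _root_.Pool.Agent.RI _root_.Pool.Agent.MUX _root_.Pool.Agent.MUXU
open OnePoint _root_.Pool.Agent.NS
open _root_.Pool.Agent.ME hiding ActE
open _root_.Pool.Agent.MUXY (ActN Dn)
open _root_.Pool.Agent.NST (KIn)

noncomputable section

variable {A B : ℤ}

lemma natCast_mem_idl (m : ℕ) : ((m : ℕ) : OO A B) ∈ idl (A := A) (B := B) m :=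
  Ideal.mem_span_singleton_self _

lemma idl_mono {a b : ℕ} (h : a ∣ b) : idl (A := A) (B := B) b ≤ idl (A := A) (B := B) a := by
  obtain ⟨k, rfl⟩ := h
  rw [Ideal.span_singleton_le_span_singleton]
  exact ⟨((k : ℕ) : OO A B), by push_cast; rfl⟩

lemma mem_idl_iff {n : ℕ} {x : OO A B} :
    x ∈ idl (A := A) (B := B) n ↔ (n : ℤ) ∣ x.re ∧ (n : ℤ) ∣ x.im := by
  rw [Ideal.mem_span_singleton]
  have e1 : ((n : ℕ) : OO A B).re = n := QuadraticAlgebra.re_natCast _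
  have e2 : ((n : ℕ) : OO A B).im = 0 := QuadraticAlgebra.im_natCast _
  constructor
  · rintro ⟨y, rfl⟩
    rw [QuadraticAlgebra.re_mul, QuadraticAlgebra.im_mul, e1, e2]
    exact ⟨⟨y.re, by ring⟩, ⟨y.im, by ring⟩⟩
  · rintro ⟨⟨a, ha⟩, ⟨b, hb⟩⟩
    refine ⟨⟨a, b⟩, ?_⟩
    ext
    · rw [QuadraticAlgebra.re_mul, e1, e2, ha]; ring
    · rw [QuadraticAlgebra.im_mul, e1, e2, hb]; ring

/-- the set of representatives has one element -/
theorem one_elt (h : CaseE A B) {n : ℕ} {ι : Type} (R : RepsE A B n ι) (i : ι) : i = R.i0 := by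
  have hC := h.toCQ
  obtain ⟨h1, -, -⟩ := MEC.c_SGQ A B (R.L R.i0) (R.L i) (R.nl R.i0).nrm (R.nl i).nrm
  have h0 : R.om R.i0 ∈ (R.L R.i0).lattice := by
    refine ((R.nl R.i0).mem _).2 ⟨1, ?_, ?_⟩
    · rw [R.b0]
      trivial
    · rw [MUX.emb_one hC, mul_one]
  obtain ⟨β, hβ, hom⟩ := ((R.nl i).mem _).1 ((h1 _).1 h0)
  have hβ0 : β ≠ 0 := by
    rintro rfl
    rw [MUX.emb_zero hC, mul_zero] at hom
    exact (R.nl R.i0).om_ne hom
  have hb : R.b i = sp β := by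
    apply le_antisymm
    · intro x hx
      have h2 : R.om i * emb x ∈ (R.L i).lattice := ((R.nl i).mem _).2 ⟨x, hx, rfl⟩
      obtain ⟨y, -, hy⟩ := ((R.nl R.i0).mem _).1 ((h1 _).2 h2)
      rw [hom, mul_assoc, ← MUX.emb_mul hC] at hy
      have h3 := MUX.emb_inj hC (mul_left_cancel₀ (R.nl i).om_ne hy)
      rw [h3]
      exact Ideal.mul_mem_right _ _ (Ideal.mem_span_singleton_self β)
    · rw [Ideal.span_singleton_le_iff_mem]
      exact hβ
  refine R.inj i R.i0 1 β ?_ hβ0 ?_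
  · intro h2
    have h3 : (1 : ℤ) = 0 := congrArg QuadraticAlgebra.re h2
    exact one_ne_zero h3
  · have h4 : sp (1 : OO A B) = ⊤ := Ideal.span_singleton_one
    rw [R.b0, Ideal.mul_top, hb, h4, Ideal.top_mul]

/-! ### The action on the points of level `m` -/

/-- `σ` fixes the invariants -/
lemma cj_self {L : PeriodPair} (hL : NrmE A B L) (σ : ℂ ≃+* ℂ) : IsCj σ L L := by
  constructor
  · rw [hL.g2]
    unfold g2E
    split_ifs
    · exact (map_ofNat σ 4).symm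
    · exact (map_zero σ).symm
  · rw [hL.g3]
    unfold g3E
    split_ifs
    · exact (map_zero σ).symm
    · rw [map_neg, map_ofNat]

/-- change of the lattice -/
lemma actN_congr {σ : ℂ ≃+* ℂ} {m : ℕ} {a : Ideal (OO A B)} {mu : ℂ} {L M : PeriodPair}
    (hL : NrmE A B L) (hM : NrmE A B M) (h : ActN σ m a L L mu) : ActN σ m a M M mu := by
  obtain ⟨h1, -, h2⟩ := MEC.c_SGQ A B L M hL hM
  have hP : ∀ z, M.weierstrassP z = L.weierstrassP z := fun z => ((h2 z).1).symm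
  have hP' : ∀ z, M.derivWeierstrassP z = L.derivWeierstrassP z := by
    intro z
    have h3 := (h2 z).2
    unfold yy at h3
    linear_combination -2 * h3
  refine ⟨cj_self hM σ, h.cop, h.ne, fun z => ?_, fun z hz hzM => ?_⟩
  · rw [← h1]
    rw [h.isq z]
    exact forall₂_congr fun x _ => h1 _
  · rw [← h1] at hz hzM
    obtain ⟨h3, h4, h5⟩ := h.act z hz hzM
    rw [← h1, hP, hP, hP', hP']
    exact ⟨h3, h4, h5⟩

theorem actE (h : CaseE A B) (T : TorXE A B) {m : ℕ} (hm : m ≠ 0) (h2 : 2 ∣ m) {σ : ℂ ≃+* ℂ}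
    (hσ : FixK A B σ) :
    ∃ c : OO A B, c - 1 ∈ idl (A := A) (B := B) 2 ∧ IsCoprime (sp c) (idl (A := A) (B := B) m) ∧
      (∀ (b : Ideal (OO A B)) (L : PeriodPair) (om : ℂ), IsNE b L om →
        ActN σ m (sp c) L L (emb c)) ∧
      ∀ z : ℂ, z ^ m = 1 → σ z = z ^ nI (sp c) := by
  have hC := h.toCQ
  have hI : idl (A := A) (B := B) m ≠ ⊥ := by
    rw [Ne, Ideal.span_singleton_eq_bot]
    exact natCast_ne_zero' hC hm
  have htop : (⊤ : Ideal (OO A B)) ≠ ⊥ := by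
    intro h0
    have h3 : (1 : OO A B) ∈ (⊥ : Ideal (OO A B)) := h0 ▸ trivial
    rw [Ideal.mem_bot] at h3
    have h4 : (1 : ℤ) = 0 := congrArg QuadraticAlgebra.re h3
    exact one_ne_zero h4
  obtain ⟨L₀, om₀, hL₀⟩ := MEC.exists_isNE h (⊤ : Ideal (OO A B)) htop
  obtain ⟨a, hcop, ha⟩ := T.act (idl m) hI σ hσ
  obtain ⟨b', L', om', mu, hL', hA⟩ := ha _ _ _ hL₀
  obtain ⟨c, hmu, hac, hc1⟩ := T.two (idl m) a σ _ L₀ L' om₀ mu hI (idl_mono h2) hσ hL₀ hA
    hL'.nrm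
  obtain ⟨hlat, -, hpt⟩ := MEC.c_SGQ A B L₀ L' hL₀.nrm hL'.nrm
  subst hac
  subst hmu
  have hN : ActN σ m (sp c) L₀ L₀ (emb c) := by
    refine ⟨cj_self hL₀.nrm σ, hcop, hA.isq.1, fun z => ?_, fun z hz hz0 => ?_⟩
    · rw [hlat]
      exact hA.isq.2 z
    · have hT : Tor (idl (A := A) (B := B) m) L₀ z := by
        intro x hx
        obtain ⟨y, rfl⟩ := Ideal.mem_span_singleton'.1 hx
        rw [MUX.emb_mul hC, MUX.emb_natCast hC, mul_assoc]
        exact hL₀.toIsLI.hasCM hC y _ hz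
      rcases hA.act z hT with h3 | h3
      · exact absurd h3.1 hz0
      · refine ⟨fun h4 => h3.2.1 ((hlat _).1 h4), ?_, ?_⟩
        · have h5 := h3.2.2.1
          rw [← (hpt _).1] at h5
          exact h5.symm
        · have h5 := h3.2.2.2
          rw [← (hpt _).2] at h5
          unfold yy at h5
          rw [map_div₀, map_ofNat] at h5
          linear_combination -2 * h5
  refine ⟨c, hc1, hcop, fun b L om hL => actN_congr hL₀.nrm hL.nrm hN, fun z hz => ?_⟩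
  exact (T.zeta m (idl m) (sp c) σ _ _ _ _ (emb c) hI hσ hm le_rfl hL₀ hA z hz).2

/-- an automorphism which fixes `℘(om/m'')` acts as `± 1` modulo `m''` -/
theorem cong_pm (hC : CQ A B) {m'' : ℕ} (hm2 : 2 ≤ m'') {σ : ℂ ≃+* ℂ}
    {L : PeriodPair} {om : ℂ} (hL : IsNE (⊤ : Ideal (OO A B)) L om) {c : OO A B}
    (hP : σ (L.weierstrassP (om / m'')) = L.weierstrassP (emb c * (om / m'')))
    (hc0 : emb c * (om / m'') ∉ L.lattice)
    (hfix : σ (L.weierstrassP (om / m'')) = L.weierstrassP (om / m'')) :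
    c - 1 ∈ idl (A := A) (B := B) m'' ∨ c + 1 ∈ idl (A := A) (B := B) m'' := by
  have hmC : (m'' : ℂ) ≠ 0 := by
    have : m'' ≠ 0 := by omega
    exact_mod_cast this
  have hom : om ≠ 0 := hL.om_ne
  -- points of the lattice
  have key : ∀ y : OO A B, emb y * (om / m'') ∈ L.lattice → y ∈ idl (A := A) (B := B) m'' := by
    intro y hy
    obtain ⟨x, -, hx⟩ := (hL.mem _).1 hy
    have h1 : emb y = emb (x * ((m'' : ℕ) : OO A B)) := by
      rw [MUX.emb_mul hC, MUX.emb_natCast hC]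
      field_simp at hx
      linear_combination hx
    rw [MUX.emb_inj hC h1]
    exact Ideal.mul_mem_left _ _ (Ideal.mem_span_singleton_self _)
  have h1 : om / m'' ∉ L.lattice := by
    intro h
    have h2 := key 1 (by rwa [MUX.emb_one hC, one_mul])
    rw [mem_idl_iff] at h2
    have h3 : ((m'' : ℕ) : ℤ) ∣ 1 := h2.1
    have := Int.le_of_dvd one_pos h3
    omega
  rw [hfix] at hP
  rcases b_NEQ L (om / m'') _ h1 hc0 hP.symm with h3 | h3
  · left
    apply key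
    rw [MUX.emb_sub hC, MUX.emb_one hC, sub_mul, one_mul]
    exact h3
  · right
    apply key
    rw [MUX.emb_add hC, MUX.emb_one hC, add_mul, one_mul]
    exact h3

/-! ### The values -/

lemma phi_infty (b : Ideal (OO A B)) (e : OO A B → ℂ) : MUX.PhiI b e ∞ ∞ = 0 := by
  unfold MUX.PhiI
  exact sub_self _

lemma phi_sub (b : Ideal (OO A B)) (e : OO A B → ℂ) (x y : OnePoint ℚ) :
    MUX.PhiI b e x y = MUX.PhiI b e ∞ y - MUX.PhiI b e ∞ x := by
  unfold MUX.PhiI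
  ring

/-- conjugation of the values; `σ` fixes the values of `e` -/
theorem valE (hC : CQ A B) {b : Ideal (OO A B)} {L : PeriodPair} {om : ℂ} (hL : IsLI b L om)
    {m : ℕ} (hm : m ≠ 0) {σ : ℂ ≃+* ℂ} {c : OO A B} (hA : ActN σ m (sp c) L L (emb c))
    (hz : ∀ z : ℂ, z ^ m = 1 → σ z = z ^ nI (sp c)) {g : Ideal (OO A B)} {e : OO A B → ℂ}
    (he : IsEI g e) (hg : g ≠ ⊤) (hmg : ((m : ℕ) : OO A B) ∈ g)
    (hcop : IsCoprime (sp ((nI b : ℕ) : OO A B)) g) (hσ : ∀ x, σ (e x) = e x)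
    (x y : OnePoint ℚ) (hx : Dn m x) (hy : Dn m y) :
    e c * σ (PhiI b e x y / om) = PhiI b e x y / om := by
  have hn0 : nI b ≠ 0 := Pool.Agent.MUX.nI_ne_zero hC hL.b_ne
  have hnC : ((nI b : ℕ) : ℂ) ≠ 0 := Nat.cast_ne_zero.2 hn0
  have hen : e ((nI b : ℕ) : OO A B) ≠ 0 := (he.supp _).2 hcop
  have hfe : (fun x => σ (e x)) = e := funext hσ
  have isF : MUXY.IsF b b om om (emb c) (fun x => c * x) :=
    { mem := fun x hx => b.mul_mem_left _ hx
      eq := fun x _ => by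
        rw [MUX.emb_mul hC]
        ring
      add := fun x _ y _ => mul_add _ _ _
      sub := fun x _ y _ => mul_sub _ _ _
      smul := fun x _ r => by ring
      nb := fun x _ => by ring }
  have key : ∀ x : OnePoint ℚ, Dn m x →
      e c * σ (PhiI b e ∞ x / om) = PhiI b e ∞ x / om := by
    intro x hx
    induction x using OnePoint.rec with
    | infty => rw [phi_infty, zero_div, map_zero, mul_zero]
    | coe r =>
      have h1 := MUXY.y_RA1 A B (MUXY.cqF hC) σ m (MUX.sp c) b b L L om om (emb c)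
        (fun x => c * x) (MUXY.liF hL) (MUXY.liF hL) hA isF hz g e (MUXY.eiF he) hg hm hmg r.den
        r.den_nz (hx r rfl) r.num
      rw [Rat.num_div_den, hfe, hσ, hσ] at h1
      have h4 : ((nI b : ℕ) : ℂ) * e (c * ((nI b : ℕ) : OO A B)) *
            σ (PhiI b e ∞ (r : OnePoint ℚ) / om) =
          ((nI b : ℕ) : ℂ) * e ((nI b : ℕ) : OO A B) *
            (PhiI b e ∞ (r : OnePoint ℚ) / om) := h1
      rw [he.mul] at h4
      have h3 : ((nI b : ℕ) : ℂ) * e ((nI b : ℕ) : OO A B) *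
          (e c * σ (PhiI b e ∞ (r : OnePoint ℚ) / om)) =
          ((nI b : ℕ) : ℂ) * e ((nI b : ℕ) : OO A B) *
          (PhiI b e ∞ (r : OnePoint ℚ) / om) := by
        linear_combination h4
      exact mul_left_cancel₀ (mul_ne_zero hnC hen) h3
  rw [phi_sub b e x y, sub_div, map_sub, mul_sub, key x hx, key y hy]

/-- the values are algebraic -/
theorem algE (h : CaseE A B) (T : TorXE A B) {b : Ideal (OO A B)} {L : PeriodPair} {om : ℂ}
    (hL : IsNE b L om) {g : Ideal (OO A B)} {e : OO A B → ℂ} (he : IsEI g e) (hg : g ≠ ⊤)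
    {n : ℕ} (hn : n ≠ 0) (hng : ((n : ℕ) : OO A B) ∈ g)
    (hcop : IsCoprime (sp ((nI b : ℕ) : OO A B)) g) {r : ℕ} (hr : r ≠ 0)
    (her : ∀ x, e x ≠ 0 → e x ^ r = 1) (x y : OnePoint ℚ) :
    IsAlgebraic ℚ (PhiI b e x y / om) := by
  have hC := h.toCQ
  obtain ⟨hE, hZ⟩ := MUXY.y_FEC A B e r hr her
  refine u_AUT (kk A B) (Pool.Agent.MUXC.FGL.isAlgebraic_kk hC) _ ?_
  have hfin := ((hE.prod (hZ.prod hZ)).image (fun q : (OO A B → ℂ) × ℂ × ℂ =>
    (nI b : ℂ) * q.2.1 / (nI b * q.2.2) * (PhiI b q.1 x y / om)))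
  refine hfin.subset ?_
  rintro z ⟨σ, hσ, rfl⟩
  have hfix : FixK A B σ := hσ _ (wC_mem A B)
  obtain ⟨m, hm⟩ : ∃ m, m = 2 * n * (Pool.Agent.N2T.dc x * Pool.Agent.N2T.dc y) := ⟨_, rfl⟩
  have hm0 : m ≠ 0 := by
    rw [hm]
    exact mul_ne_zero (mul_ne_zero two_ne_zero hn)
      (mul_ne_zero (Pool.Agent.N2T.dc_pos x) (Pool.Agent.N2T.dc_pos y))
  have hx : Dn m x := Pool.Agent.N2T.dn_of (by
    rw [hm]
    exact (dvd_mul_right _ _).trans (dvd_mul_left _ _))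
  have hy : Dn m y := Pool.Agent.N2T.dn_of (by
    rw [hm]
    exact (dvd_mul_left _ _).trans (dvd_mul_left _ _))
  have hmg : ((m : ℕ) : OO A B) ∈ g := by
    rw [hm, Nat.cast_mul, Nat.cast_mul]
    exact g.mul_mem_right _ (g.mul_mem_left _ hng)
  obtain ⟨c, -, -, hA, hz⟩ := actE h T hm0 (by
    rw [hm, mul_assoc]
    exact dvd_mul_right _ _) hfix
  obtain ⟨C, -, ⟨x₁, x₂, -, -, hCe⟩, hS⟩ := MUXY.y_RAT A B (MUXY.cqF hC) σ m (sp c) b b L L om om
    (emb c) (MUXY.liF hL.toIsLI) (MUXY.liF hL.toIsLI) (hA b L om hL) hz g e (MUXY.eiF he) hg hm0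
    hmg hcop hcop
  refine ⟨((fun x => σ (e x)), σ (e x₁), σ (e x₂)),
    ⟨⟨σ, rfl⟩, ⟨σ, x₁, rfl⟩, ⟨σ, x₂, rfl⟩⟩, ?_⟩
  have h5 := hS x y hx hy
  have h6 : σ (PhiI b e x y / om) = C * (PhiI b (fun x => σ (e x)) x y / om) := h5
  rw [h6, hCe]
  rfl

/-- finitely many values generate all values -/
theorem fgE (hC : CQ A B) {b g : Ideal (OO A B)} {e : OO A B → ℂ} (hb : b ≠ ⊥) (hg : g ≠ ⊥)
    (he : IsEI g e) (s : ℂ) :
    ∃ (S : Finset (OnePoint ℚ × OnePoint ℚ)) (N : ℕ), N ≠ 0 ∧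
      (∀ q ∈ S, Dn N q.1 ∧ Dn N q.2) ∧
      ∀ x y, PhiI b e x y / s ∈ AddSubgroup.closure
        ((fun q : OnePoint ℚ × OnePoint ℚ => PhiI b e q.1 q.2 / s) ''
          (S : Set (OnePoint ℚ × OnePoint ℚ))) := by
  classical
  obtain ⟨S, hS⟩ := Pool.Agent.MUXT.fg_EI A B (MUXY.cqF hC) b g e hb hg (MUXY.eiF he)
  obtain ⟨S', j0, N0, hN00, -, hSD0, hgen⟩ := Pool.Agent.N2T.fgp
    (fun x y => PhiI b e x y / s) (S.image fun z => z / s) (fun x y => by
      have hle : AddSubgroup.closure (S : Set ℂ) ≤ (AddSubgroup.closure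
          ((S.image fun z => z / s : Finset ℂ) : Set ℂ)).comap (AddMonoidHom.mulRight (s⁻¹)) := by
        rw [AddSubgroup.closure_le]
        intro t ht
        refine AddSubgroup.subset_closure ?_
        rw [Finset.mem_coe, Finset.mem_image]
        exact ⟨t, ht, div_eq_mul_inv t s⟩
      have h1 := hle (hS x y)
      rw [AddSubgroup.mem_comap, AddMonoidHom.coe_mulRight] at h1
      rw [div_eq_mul_inv]
      exact h1)
  exact ⟨S', 3 ^ j0 * N0, mul_ne_zero (pow_ne_zero _ three_ne_zero) hN00, hSD0, hgen⟩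

end

end Pool.Agent.ME2


end
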