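import Mathlib
import Pool.Agent.MVF.C063
import Pool.Agent.MVF.C077
import Pool.Agent.MVF.C078
import Pool.Agent.MVF.C085
import Pool.Agent.MVF.C086

/-! Parts: MUX.R2_CH2, MUX.R3_CH3, MUX.R2_CIN, MUX.R3_CIN, MUX.R3_PAR, MUX.R2_IT2, MUX.R3All, MUX.R2_VEL, MUX.R2_JEQ, MUX.R2_DUA, MUX.R2All, MUX.E_RED2, MUX.E_RED3 -/

namespace Pool.Agent.MUX2.CH2
end Pool.Agent.MUX2.CH2
namespace Pool.Agent.MUX2.Cin
end Pool.Agent.MUX2.Cin
namespace Pool.Agent.MUX2.DUA
end Pool.Agent.MUX2.DUA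
namespace Pool.Agent.MUX2.IT2
end Pool.Agent.MUX2.IT2
namespace Pool.Agent.MUX3.CH3
end Pool.Agent.MUX3.CH3
namespace Pool.Agent.MUX3.Cin3
end Pool.Agent.MUX3.Cin3

section

/-!
# MUX, block R2, module CH2: the chain of `P`-isogenies (helper2)
-/

set_option autoImplicit false

namespace Pool.Agent.MUX2

open _root_.MU3 _root_.Pool.Agent.MU3A _root_.Pool.Agent.MU3B _root_.Pool.Agent.MUX _root_.Pool.Agent.MUXU WeierstrassCurve

noncomputable section

namespace CH2

open _root_.Pool.Agent.MUXF.AlgX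

variable {A B : ℤ}

lemma cq (h : Pool.Agent.MUX.CQ A B) : Pool.Agent.MUXF.CQ A B :=
  ⟨h.hB, h.neg, h.fund1, h.fund0⟩

lemma emb_two : emb (2 : OO A B) = 2 := by
  have h : (2 : OO A B) = ⟨2, 0⟩ := rfl
  rw [h]; simp [emb]

lemma two_ne (hC : Pool.Agent.MUXF.CQ A B) : (2 : OO A B) ≠ 0 := by
  intro h
  have h1 := congrArg emb h
  rw [emb_two, _root_.Pool.Agent.MUXF.AlgX.emb_zero hC] at h1
  norm_num at h1

lemma nim (hC : Pool.Agent.MUXF.CQ A B) :
    (∀ b c : Ideal (OO A B), b ≠ ⊥ → c ≠ ⊥ → nI (b * c) = nI b * nI c ∧ b * c ≠ ⊥) ∧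
    (∀ a : OO A B, nI (sp a) = (nm a).natAbs ∨ a = 0) ∧
    (∀ b : Ideal (OO A B), b ≠ ⊥ → nI (cjI b) = nI b ∧ cjI (cjI b) = b ∧ cjI b ≠ ⊥ ∧
      ((nI b : ℕ) : OO A B) ∈ b) ∧
    (∀ b c c' : Ideal (OO A B), b ≠ ⊥ → (b * c ≤ b * c' ↔ c ≤ c')) :=
  Pool.Agent.MUXF.tx_NIM Pool.Agent.MUXF.tx_ALG
    (Pool.Agent.MUXF.tx_IDL Pool.Agent.MUXF.tx_ALG) A B hC

lemma idl (hC : Pool.Agent.MUXF.CQ A B) (b : Ideal (OO A B)) (hb : b ≠ ⊥) :
    nI b ≠ 0 ∧ b * cjI b = sp ((nI b : ℕ) : OO A B) :=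
  Pool.Agent.MUXF.tx_IDL Pool.Agent.MUXF.tx_ALG A B hC b hb

/-- `P * cjI P = (2)` -/
lemma pq (hC : Pool.Agent.MUXF.CQ A B) {P : Ideal (OO A B)} (hP : IsPN 2 P) :
    P ≠ ⊥ ∧ (2 : OO A B) ∈ P ∧ P * cjI P = sp 2 := by
  have h2 : (2 : OO A B) ∈ P := by simpa using hP.mem
  have h0 : P ≠ ⊥ := by
    rintro rfl
    exact two_ne hC (Ideal.mem_bot.1 h2)
  refine ⟨h0, h2, ?_⟩
  have := (idl hC P h0).2
  rw [hP.norm] at this
  simpa using this

/-- `P + cjI P = O` -/
lemma cop (h : Pool.Agent.MUX.CQ A B) (h8 : (8 : ℤ) ∣ B ^ 2 + 4 * A - 1) {P : Ideal (OO A B)}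
    (hP : IsPN 2 P) : ∃ p ∈ P, ∃ q ∈ cjI P, p + q = 1 := by
  have h2 : (2 : OO A B) ∈ P := by simpa using hP.mem
  have hB : B = 1 := by
    rcases h.hB with h0 | h1
    · subst h0; omega
    · exact h1
  subst hB
  obtain ⟨a, ha⟩ : ∃ a, A = 2 * a := ⟨A / 2, by omega⟩
  have hw : (⟨0, 1⟩ : OO A 1) * (⟨-1, 1⟩ : OO A 1) ∈ P := by
    have e : (⟨0, 1⟩ : OO A 1) * (⟨-1, 1⟩ : OO A 1) = ⟨a, 0⟩ * 2 := by
      have h2' : (2 : OO A 1) = ⟨2, 0⟩ := rfl
      rw [h2']
      ext
      · simp; omega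
      · simp
    rw [e]
    exact P.mul_mem_left _ h2
  rcases hP.prime.mem_or_mem hw with h3 | h3
  · refine ⟨⟨0, 1⟩, h3, ⟨1, -1⟩, ?_, ?_⟩
    · unfold cjI
      rw [Ideal.mem_comap, starRingEnd_apply]
      have e : star (⟨1, -1⟩ : OO A 1) = ⟨0, 1⟩ := by ext <;> simp
      rw [e]; exact h3
    · rfl
  · refine ⟨⟨1, -1⟩, ?_, ⟨0, 1⟩, ?_, ?_⟩
    · have e : (⟨1, -1⟩ : OO A 1) = -⟨-1, 1⟩ := by ext <;> simp
      rw [e]; exact P.neg_mem h3
    · unfold cjI
      rw [Ideal.mem_comap, starRingEnd_apply]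
      have e : star (⟨0, 1⟩ : OO A 1) = -⟨-1, 1⟩ := by ext <;> simp
      rw [e]; exact P.neg_mem h3
    · rfl

/-- `c / P c` has two elements -/
lemma idx (hC : Pool.Agent.MUXF.CQ A B) {P c : Ideal (OO A B)} (hP0 : P ≠ ⊥)
    (h2 : (2 : OO A B) ∈ P) (hn : nI P = 2) (hc : c ≠ ⊥) :
    ∃ a ∈ c, a ∉ P * c ∧ ∀ y ∈ c, y ∈ P * c ∨ y - a ∈ P * c := by
  have h1 := ((nim hC).1 P c hP0 hc).1
  have h3 := (idl hC c hc).1
  have hle0 : P * c ≤ c := Ideal.mul_le_right
  have hle : (P * c).toAddSubgroup ≤ c.toAddSubgroup := Submodule.toAddSubgroup_mono hle0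
  have h4 := AddSubgroup.relIndex_mul_index hle
  have hgen : ∀ I : Ideal (OO A B), I.toAddSubgroup.index = nI I := fun I =>
    Submodule.cardQuot_apply I
  rw [hgen, hgen, h1, hn] at h4
  have h7 : (P * c).toAddSubgroup.relIndex c.toAddSubgroup = 2 :=
    Nat.eq_of_mul_eq_mul_right (Nat.pos_of_ne_zero h3) h4
  obtain ⟨a, ha, hb⟩ := AddSubgroup.relIndex_eq_two_iff.1 h7
  simp only [Submodule.mem_toAddSubgroup] at ha hb
  refine ⟨a, ha, ?_, fun y hy => ?_⟩
  · intro h8
    have := hb 0 (zero_mem _)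
    rw [zero_add] at this
    rcases this with h | h
    · exact h.2 (zero_mem _)
    · exact h.2 h8
  · rcases hb y hy with h | h
    · right
      have h9 : y - a = (y + a) - 2 * a := by ring
      rw [h9]
      exact (P * c).sub_mem h.1 (Ideal.mul_mem_mul h2 ha)
    · exact Or.inl h.1

/-- the isogeny with the kernel `P⁻¹ c / c` -/
lemma isq (hC : Pool.Agent.MUXF.CQ A B) {P Q c : Ideal (OO A B)} (hP0 : P ≠ ⊥)
    (h2 : (2 : OO A B) ∈ P) (hPQ : P * Q = sp 2) {L M : PeriodPair} {om om' : ℂ}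
    (hL : IsNL c L om) (hM : IsNL (Q * c) M om') : IsQ P L M (2 * om' / om) := by
  have hom := hL.om_ne
  have hom' := hM.om_ne
  refine ⟨div_ne_zero (mul_ne_zero two_ne_zero hom') hom, fun z => ⟨fun hz x hx => ?_, fun hz => ?_⟩⟩
  · obtain ⟨y, hy, e⟩ := (hM.mem _).1 hz
    have e2 : 2 * z = om * emb y := by
      field_simp at e
      linear_combination e
    have hxy : x * y ∈ sp 2 * c := by
      rw [← hPQ, mul_assoc]; exact Ideal.mul_mem_mul hx hy
    obtain ⟨t, ht, e3⟩ := Ideal.mem_span_singleton_mul.1 hxy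
    refine (hL.mem _).2 ⟨t, ht, ?_⟩
    have e4 := congrArg emb e3
    rw [_root_.Pool.Agent.MUXF.AlgX.emb_mul hC, _root_.Pool.Agent.MUXF.AlgX.emb_mul hC, emb_two] at e4
    linear_combination (emb x / 2) * e2 - (om / 2) * e4
  · obtain ⟨y, hy, e⟩ := (hL.mem _).1 (hz 2 h2)
    rw [emb_two] at e
    have hy' : sp y ≤ Q * c := by
      rw [← (nim hC).2.2.2 P _ _ hP0, Ideal.mul_le]
      intro x hx s hs
      obtain ⟨r, rfl⟩ := Ideal.mem_span_singleton'.1 hs
      obtain ⟨t, ht, ex⟩ := (hL.mem _).1 (hz x hx)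
      have e5 : x * y = 2 * t := by
        apply _root_.Pool.Agent.MUXF.AlgX.emb_inj hC
        rw [_root_.Pool.Agent.MUXF.AlgX.emb_mul hC, _root_.Pool.Agent.MUXF.AlgX.emb_mul hC, emb_two]
        apply mul_left_cancel₀ hom
        linear_combination 2 * ex - emb x * e
      have e6 : x * (r * y) = 2 * (r * t) := by linear_combination r * e5
      rw [e6, ← mul_assoc, hPQ]
      exact Ideal.mul_mem_mul (Ideal.mem_span_singleton_self _) (c.mul_mem_left _ ht)
    refine (hM.mem _).2 ⟨y, hy' (Ideal.mem_span_singleton_self _), ?_⟩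
    field_simp
    linear_combination e

/-- the point of order `P` -/
lemma two (hC : Pool.Agent.MUXF.CQ A B) {P Q c : Ideal (OO A B)} (hP0 : P ≠ ⊥)
    (h2 : (2 : OO A B) ∈ P) (hPQ : P * Q = sp 2) {L M : PeriodPair} {om om' : ℂ}
    (hL : IsNL c L om) (hM : IsNL (Q * c) M om') {a : OO A B} (ha : a ∈ Q * c)
    (ha' : a ∉ P * (Q * c)) (hy : ∀ y ∈ Q * c, y ∈ P * (Q * c) ∨ y - a ∈ P * (Q * c)) :
    Two L M (2 * om' / om) (om * emb a / 2) := by
  have hom := hL.om_ne
  have hom' := hM.om_ne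
  obtain ⟨hne, hI⟩ := isq hC hP0 h2 hPQ hL hM
  have key : ∀ y : OO A B, y ∈ P * (Q * c) ↔ om * emb y / 2 ∈ L.lattice := by
    intro y
    rw [← mul_assoc, hPQ, Ideal.mem_span_singleton_mul, hL.mem]
    constructor
    · rintro ⟨t, ht, rfl⟩
      exact ⟨t, ht, by rw [_root_.Pool.Agent.MUXF.AlgX.emb_mul hC, emb_two]; ring⟩
    · rintro ⟨t, ht, e⟩
      refine ⟨t, ht, _root_.Pool.Agent.MUXF.AlgX.emb_inj hC ?_⟩
      rw [_root_.Pool.Agent.MUXF.AlgX.emb_mul hC, emb_two]
      apply mul_left_cancel₀ hom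
      linear_combination -2 * e
  have hw : 2 * om' / om * (om * emb a / 2) ∈ M.lattice :=
    (hM.mem _).2 ⟨a, ha, by field_simp⟩
  refine ⟨hne, fun h => ha' ((key a).2 h), ?_, fun z => ⟨fun hz => ?_, ?_⟩⟩
  · have := (hI _).1 hw 2 h2
    rwa [emb_two] at this
  · obtain ⟨y, hyc, e⟩ := (hM.mem _).1 hz
    have e2 : z = om * emb y / 2 := by
      field_simp at e
      linear_combination e / 2
    rcases hy y hyc with h | h
    · left; rw [e2]; exact (key y).1 h
    · right
      have := (key _).1 h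
      have e3 : emb (y - a) = emb y - emb a := by
        have := _root_.Pool.Agent.MUXF.AlgX.emb_add hC (y - a) a
        rw [sub_add_cancel] at this
        linear_combination -this
      rw [e3] at this
      convert this using 1
      rw [e2]; ring
  · have h5 : ∀ z ∈ L.lattice, 2 * om' / om * z ∈ M.lattice := by
      intro z hz
      refine (hI z).2 fun x hx => ?_
      obtain ⟨y, hyc, rfl⟩ := (hL.mem _).1 hz
      exact (hL.mem _).2 ⟨x * y, c.mul_mem_left _ hyc, by rw [_root_.Pool.Agent.MUXF.AlgX.emb_mul hC]; ring⟩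
    rintro (hz | hz)
    · exact h5 z hz
    · have := add_mem (h5 _ hz) hw
      convert this using 1
      ring

/-- `℘` depends only on the lattice, and is periodic -/
lemma par_congr {L M : PeriodPair} (h : L.lattice = M.lattice) {w v : ℂ}
    (hv : w - v ∈ L.lattice) : par L w = par M v := by
  have h1 : L.weierstrassP = M.weierstrassP := by
    unfold PeriodPair.weierstrassP
    rw [h]
  have h2 : L.weierstrassP w = L.weierstrassP v := by
    have := L.weierstrassP_add_coe v ⟨w - v, hv⟩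
    simpa using this
  unfold par xn
  rw [h2, h1]

end CH2

open _root_.Pool.Agent.MUX2.CH2 _root_.Pool.Agent.MUXF.AlgX in
theorem t2_CH2 (h1 : S2_NRM) (h2 : S2_DUA) (h3 : S2_JEQ) : S2_CH2 := by
  intro A B hP2 h8 hF P hP b L om hL
  have hC := cq hP2.toCQ
  obtain ⟨hP0, h2P, hPQ⟩ := pq hC hP
  have hN := nim hC
  set Q := cjI P with hQ
  have hQ0 : Q ≠ ⊥ := (hN.2.2.1 P hP0).2.2.1
  have hnQ : nI Q = 2 := (hN.2.2.1 P hP0).1.trans hP.norm
  have hcQ : cjI Q = P := (hN.2.2.1 P hP0).2.1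
  have h2Q : (2 : OO A B) ∈ Q := by
    have := (hN.2.2.1 Q hQ0).2.2.2
    rw [hnQ] at this
    simpa using this
  obtain ⟨p, hp, q, hq, hpq⟩ := cop hP2.toCQ h8 hP
  -- the ideals
  let c : ℕ → Ideal (OO A B) := fun i => Q ^ i * b
  have hc0 : c 0 = b := by simp [c]
  have hcs : ∀ i, c (i + 1) = Q * c i := by
    intro i; simp only [c]; rw [pow_succ' Q i, mul_assoc]
  have hcne : ∀ i, c i ≠ ⊥ := by
    intro i
    induction i with
    | zero => rw [hc0]; exact hL.b_ne
    | succ i ih => rw [hcs]; exact (hN.1 Q _ hQ0 ih).2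
  -- the lattices
  have hex : ∀ i, ∃ (p : PeriodPair × ℂ), IsNL (c i) p.1 p.2 ∧ (i = 0 → p = (L, om)) := by
    intro i
    rcases Nat.eq_zero_or_pos i with rfl | hi
    · exact ⟨(L, om), by rw [hc0]; exact hL, fun _ => rfl⟩
    · obtain ⟨M, o, h⟩ := hF.ex (c i) (hcne i)
      exact ⟨(M, o), h, fun h0 => absurd h0 hi.ne'⟩
  choose F hF1 hF2 using hex
  let N : ℕ → PeriodPair := fun i => (F i).1
  let o : ℕ → ℂ := fun i => (F i).2
  have hNL : ∀ i, IsNL (c i) (N i) (o i) := hF1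
  have hNL' : ∀ i, IsNL (Q * c i) (N (i + 1)) (o (i + 1)) := by
    intro i; rw [← hcs]; exact hNL _
  have ho : ∀ i, o i ≠ 0 := fun i => (hNL i).om_ne
  have hidx := fun i => idx hC hP0 h2P hP.norm (hcne (i + 1))
  choose a ha1 ha2 ha3 using hidx
  simp only [hcs] at ha1 ha2 ha3
  let mu : ℕ → ℂ := fun i => 2 * o (i + 1) / o i
  let w : ℕ → ℂ := fun i => o i * emb (a i) / 2
  have hQi : ∀ i, IsQ P (N i) (N (i + 1)) (mu i) := fun i =>
    isq hC hP0 h2P hPQ (hNL i) (hNL' i)
  have hTw : ∀ i, Two (N i) (N (i + 1)) (mu i) (w i) := fun i =>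
    two hC hP0 h2P hPQ (hNL i) (hNL' i) (ha1 i) (ha2 i) (ha3 i)
  have hTor : ∀ i, Tor P (N i) (w i) := by
    intro i
    exact ((hQi i).2 _).1 (((hTw i).ker _).2 (Or.inr (by rw [sub_self]; exact zero_mem _)))
  obtain ⟨h, x, hh, hx0, hx⟩ := hF.fin Q hQ0
  have hcper : ∀ i, c (i + h) = sp x * c i := by
    intro i; simp only [c]; rw [pow_add, hx]; ring
  have heq : ∀ i, (N (i + h)).lattice = (N i).lattice ∧
      (o i = o (i + h) * emb x ∨ o i = -(o (i + h) * emb x)) := by
    intro i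
    have h5 := hF.eq (c (i + h)) (c i) (N (i + h)) (N i) (o (i + h)) (o i) 1 x (hNL _) (hNL _)
      one_ne_zero hx0 (by rw [hcper]; simp [sp])
    have e1 : emb (1 : OO A B) = 1 := by
      have := _root_.Pool.Agent.MUXF.AlgX.emb_intCast hC 1
      simpa using this
    rw [e1, mul_one] at h5
    exact h5
  have hrec : Rec (fun i => par (N i) (w i)) := by
    intro i
    obtain ⟨hs0, -⟩ := h1 _ _ _ _ (hTw i) (hNL i).nrm (hNL (i + 1)).nrm
    -- a point of order `Q` of `N i`
    obtain ⟨a', ha1', ha2', -⟩ := idx hC hQ0 h2Q hnQ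
      (show P * c i ≠ ⊥ from (hN.1 P _ hP0 (hcne i)).2)
    have hQP : Q * P = sp 2 := by rw [mul_comm]; exact hPQ
    have key : ∀ y : OO A B, y ∈ Q * (P * c i) ↔ o i * emb y / 2 ∈ (N i).lattice := by
      intro y
      rw [← mul_assoc, hQP, Ideal.mem_span_singleton_mul, (hNL i).mem]
      constructor
      · rintro ⟨t, ht, rfl⟩
        exact ⟨t, ht, by rw [_root_.Pool.Agent.MUXF.AlgX.emb_mul hC, emb_two]; ring⟩
      · rintro ⟨t, ht, e⟩
        refine ⟨t, ht, _root_.Pool.Agent.MUXF.AlgX.emb_inj hC ?_⟩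
        rw [_root_.Pool.Agent.MUXF.AlgX.emb_mul hC, emb_two]
        apply mul_left_cancel₀ (ho i)
        linear_combination -2 * e
    set w' : ℂ := o i * emb a' / 2 with hw'
    have k1 : w' ∉ (N i).lattice := fun h => ha2' ((key a').2 h)
    have k2 : ∀ x ∈ Q, emb x * w' ∈ (N i).lattice := by
      intro x hx
      have h5 := (key (x * a')).1 (Ideal.mul_mem_mul hx ha1')
      rw [_root_.Pool.Agent.MUXF.AlgX.emb_mul hC] at h5
      convert h5 using 1
      rw [hw']; ring
    have k3 : 2 * w' ∈ (N i).lattice := by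
      have := k2 2 h2Q
      rwa [emb_two] at this
    have k4 : w' - w i ∉ (N i).lattice := by
      intro h5
      -- then `w'` is killed by `P` and `Q`
      apply k1
      have h6 : ∀ x ∈ P, emb x * w' ∈ (N i).lattice := by
        intro x hx
        obtain ⟨y, hy, e⟩ := ((hNL i).mem _).1 h5
        have h7 : emb x * (w' - w i) ∈ (N i).lattice :=
          ((hNL i).mem _).2 ⟨x * y, (c i).mul_mem_left _ hy, by rw [e, _root_.Pool.Agent.MUXF.AlgX.emb_mul hC]; ring⟩
        have h8 := add_mem h7 (hTor i x hx)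
        convert h8 using 1
        ring
      have h9 := add_mem (h6 p hp) (k2 q hq)
      rw [← add_mul, ← _root_.Pool.Agent.MUXF.AlgX.emb_add hC, hpq] at h9
      have e1 : emb (1 : OO A B) = 1 := by
        have := _root_.Pool.Agent.MUXF.AlgX.emb_intCast hC 1
        simpa using this
      rwa [e1, one_mul] at h9
    obtain ⟨hD, hpar⟩ := h2 _ _ _ _ w' (hTw i) (hNL i).nrm (hNL (i + 1)).nrm k1 k3 k4
    have k5 : mu i * w' - w (i + 1) ∉ (N (i + 1)).lattice := by
      intro h5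
      apply hD.w_ne
      have hqm : emb q * (mu i * w') ∈ (N (i + 1)).lattice := by
        have h6 : mu i * (emb q * w') ∈ (N (i + 1)).lattice :=
          ((hTw i).ker _).2 (Or.inl (k2 q hq))
        convert h6 using 1
        ring
      have hpm : emb p * (mu i * w') ∈ (N (i + 1)).lattice := by
        obtain ⟨y, hy, e⟩ := ((hNL (i + 1)).mem _).1 h5
        have h7 : emb p * (mu i * w' - w (i + 1)) ∈ (N (i + 1)).lattice :=
          ((hNL (i + 1)).mem _).2 ⟨p * y, (c (i + 1)).mul_mem_left _ hy, by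
            rw [e, _root_.Pool.Agent.MUXF.AlgX.emb_mul hC]; ring⟩
        have h8 := add_mem h7 (hTor (i + 1) p hp)
        convert h8 using 1
        ring
      have h9 := add_mem hpm hqm
      rw [← add_mul, ← _root_.Pool.Agent.MUXF.AlgX.emb_add hC, hpq] at h9
      have e1 : emb (1 : OO A B) = 1 := by
        have := _root_.Pool.Agent.MUXF.AlgX.emb_intCast hC 1
        simpa using this
      rwa [e1, one_mul] at h9
    have hJ := h3 (N (i + 1)) (w (i + 1)) (mu i * w') (hTw (i + 1)).w_ne (hTw (i + 1)).w2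
      hD.w_ne hD.w2 k5 (hNL (i + 1)).nrm
    rw [hpar] at hJ
    refine ⟨hs0, ?_⟩
    show par (N (i + 1)) (w (i + 1)) ^ 2 +
      (48 + 4096 / par (N i) (w i)) * par (N (i + 1)) (w (i + 1)) = par (N i) (w i)
    field_simp at hJ ⊢
    linear_combination hJ
  have hxx : nm x = 2 ^ h := by
    have hpow : ∀ n, nI (Q ^ (n + 1)) = 2 ^ (n + 1) ∧ Q ^ (n + 1) ≠ ⊥ := by
      intro n
      induction n with
      | zero => rw [zero_add, pow_one, pow_one]; exact ⟨hnQ, hQ0⟩
      | succ n ih =>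
        have h5 := hN.1 (Q ^ (n + 1)) Q ih.2 hQ0
        rw [← pow_succ] at h5
        refine ⟨?_, h5.2⟩
        rw [h5.1, ih.1, hnQ]
        exact (pow_succ 2 (n + 1)).symm
    obtain ⟨n, rfl⟩ : ∃ n, h = n + 1 := ⟨h - 1, by omega⟩
    have h5 := (hpow n).1
    rw [hx] at h5
    have h6 := (hN.2.1 x).resolve_right hx0
    rw [h5] at h6
    have h7 := _root_.Pool.Agent.MUXF.AlgX.nm_nonneg hC x
    have h8 : ((2 ^ (n + 1) : ℕ) : ℤ) = nm x := by rw [h6]; omega
    rw [← h8]; push_cast; rfl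
  have hemb : emb x * emb (star x) = 2 ^ h := by
    rw [← _root_.Pool.Agent.MUXF.AlgX.emb_mul hC, mul_star', hxx, _root_.Pool.Agent.MUXF.AlgX.emb_intCast hC]
    push_cast; rfl
  have hex0 : emb x ≠ 0 := fun h0 => hx0 ((emb_eq_zero hC x).1 h0)
  refine ⟨h, star x, N, mu, w, hh, ?_, ?_, fun i => ⟨c i, o i, hNL i⟩, hQi, hTw, hTor,
    fun i => (heq i).1, hrec, fun i => ?_, ?_⟩
  · -- `P ^ h = (star x)`
    have e : ∀ n : ℕ, cjI (Q ^ n) = P ^ n := by
      intro n
      induction n with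
      | zero =>
        rw [pow_zero, pow_zero]
        unfold cjI
        rw [Ideal.one_eq_top, Ideal.comap_top]
      | succ n ih =>
        rw [pow_succ, pow_succ]
        have h5 : cjI (Q ^ n * Q) = cjI (Q ^ n) * cjI Q := Pool.Agent.MUXF.NimX.cjI_mul _ _
        rw [h5, ih, hcQ]
    rw [← e h, hx]
    exact Pool.Agent.MUXF.NimX.cjI_sp x
  · show (F 0).1 = L
    rw [hF2 0 rfl]
  · have hl := (heq i).1
    apply par_congr hl
    rw [hl]
    have h5 : mu i * w (i + h) ∈ (N (i + 1)).lattice := by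
      refine ((hQi i).2 _).2 fun x hx => ?_
      rw [← hl]
      exact hTor (i + h) x hx
    rcases ((hTw i).ker _).1 h5 with h6 | h6
    · rw [← hl] at h6
      exact absurd h6 (hTw (i + h)).w_ne
    · exact h6
  · have hprod : ∀ n : ℕ, ∏ i ∈ Finset.range n, mu i = 2 ^ n * o n / o 0 := by
      intro n
      induction n with
      | zero => simp [div_self (ho 0)]
      | succ n ih =>
        rw [Finset.prod_range_succ, ih]
        have h5 := ho n
        have h6 := ho 0
        simp only [mu]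
        rw [pow_succ]
        field_simp
    rw [hprod h]
    have h5 := (heq 0).2
    rw [zero_add] at h5
    have h6 := ho h
    have h7 := ho 0
    rcases h5 with h5 | h5
    · left
      rw [← hemb, h5]
      field_simp
    · right
      rw [← hemb, h5]
      field_simp

end

end Pool.Agent.MUX2


end

section

/-!
# MUX, block R3, module CH3: the chain of `P`-isogenies
-/

set_option autoImplicit false

namespace Pool.Agent.MUX3

open _root_.MU3 _root_.Pool.Agent.MU3A _root_.Pool.Agent.MU3B _root_.Pool.Agent.MUX _root_.Pool.Agent.MUXU _root_.Pool.Agent.MUX2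
open WeierstrassCurve

noncomputable section

namespace CH3

open _root_.Pool.Agent.MUXF.AlgX
open _root_.Pool.Agent.MUX2.CH2 (cq nim idl)

variable {A B : ℤ}

lemma emb_three : emb (3 : OO A B) = 3 := by
  have h : (3 : OO A B) = ⟨3, 0⟩ := rfl
  rw [h]; simp [emb]

lemma three_ne (hC : Pool.Agent.MUXF.CQ A B) : (3 : OO A B) ≠ 0 := by
  intro h
  have h1 := congrArg emb h
  rw [emb_three, _root_.Pool.Agent.MUXF.AlgX.emb_zero hC] at h1
  norm_num at h1

/-- `P * cjI P = (3)` -/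
lemma pq (hC : Pool.Agent.MUXF.CQ A B) {P : Ideal (OO A B)} (hP : IsPN 3 P) :
    P ≠ ⊥ ∧ (3 : OO A B) ∈ P ∧ P * cjI P = sp 3 := by
  have h2 : (3 : OO A B) ∈ P := by simpa using hP.mem
  have h0 : P ≠ ⊥ := by
    rintro rfl
    exact three_ne hC (Ideal.mem_bot.1 h2)
  refine ⟨h0, h2, ?_⟩
  have := (_root_.Pool.Agent.MUX2.CH2.idl hC P h0).2
  rw [hP.norm] at this
  simpa using this

/-- `P + cjI P = O` -/
lemma cop (h : Pool.Agent.MUX.CQ A B) (h8 : (3 : ℤ) ∣ B ^ 2 + 4 * A - 1) {P : Ideal (OO A B)}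
    (hP : IsPN 3 P) : ∃ p ∈ P, ∃ q ∈ cjI P, p + q = 1 := by
  have h2 : (3 : OO A B) ∈ P := by simpa using hP.mem
  rcases h.hB with h0 | h1
  · subst h0
    obtain ⟨a, ha⟩ : ∃ a, A = 3 * a + 1 := ⟨A / 3, by omega⟩
    have hw : (⟨-1, 1⟩ : OO A 0) * (⟨1, 1⟩ : OO A 0) ∈ P := by
      have e : (⟨-1, 1⟩ : OO A 0) * (⟨1, 1⟩ : OO A 0) = ⟨a, 0⟩ * 3 := by
        have h2' : (3 : OO A 0) = ⟨3, 0⟩ := rfl
        rw [h2']
        ext
        · simp; omega
        · simp
      rw [e]
      exact P.mul_mem_left _ h2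
    rcases hP.prime.mem_or_mem hw with h3 | h3
    · refine ⟨⟨2, 1⟩, ?_, ⟨-1, -1⟩, ?_, rfl⟩
      · have e : (⟨2, 1⟩ : OO A 0) = ⟨-1, 1⟩ + 3 := rfl
        rw [e]; exact P.add_mem h3 h2
      · unfold cjI
        rw [Ideal.mem_comap, starRingEnd_apply]
        have e : star (⟨-1, -1⟩ : OO A 0) = ⟨-1, 1⟩ := by ext <;> simp
        rw [e]; exact h3
    · refine ⟨⟨2, -1⟩, ?_, ⟨-1, 1⟩, ?_, rfl⟩
      · have e : (⟨2, -1⟩ : OO A 0) = 3 - ⟨1, 1⟩ := rfl
        rw [e]; exact P.sub_mem h2 h3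
      · unfold cjI
        rw [Ideal.mem_comap, starRingEnd_apply]
        have e : star (⟨-1, 1⟩ : OO A 0) = -⟨1, 1⟩ := by ext <;> simp
        rw [e]; exact P.neg_mem h3
  · subst h1
    obtain ⟨a, ha⟩ : ∃ a, A = 3 * a := ⟨A / 3, by omega⟩
    have hw : (⟨0, 1⟩ : OO A 1) * (⟨-1, 1⟩ : OO A 1) ∈ P := by
      have e : (⟨0, 1⟩ : OO A 1) * (⟨-1, 1⟩ : OO A 1) = ⟨a, 0⟩ * 3 := by
        have h2' : (3 : OO A 1) = ⟨3, 0⟩ := rfl
        rw [h2']
        ext
        · simp; omega
        · simp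
      rw [e]
      exact P.mul_mem_left _ h2
    rcases hP.prime.mem_or_mem hw with h3 | h3
    · refine ⟨⟨0, 1⟩, h3, ⟨1, -1⟩, ?_, ?_⟩
      · unfold cjI
        rw [Ideal.mem_comap, starRingEnd_apply]
        have e : star (⟨1, -1⟩ : OO A 1) = ⟨0, 1⟩ := by ext <;> simp
        rw [e]; exact h3
      · rfl
    · refine ⟨⟨1, -1⟩, ?_, ⟨0, 1⟩, ?_, ?_⟩
      · have e : (⟨1, -1⟩ : OO A 1) = -⟨-1, 1⟩ := by ext <;> simp
        rw [e]; exact P.neg_mem h3
      · unfold cjI
        rw [Ideal.mem_comap, starRingEnd_apply]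
        have e : star (⟨0, 1⟩ : OO A 1) = -⟨-1, 1⟩ := by ext <;> simp
        rw [e]; exact P.neg_mem h3
      · rfl

/-- `c / P c` has three elements -/
lemma idx (hC : Pool.Agent.MUXF.CQ A B) {P c : Ideal (OO A B)} (hP0 : P ≠ ⊥)
    (h2 : (3 : OO A B) ∈ P) (hn : nI P = 3) (hc : c ≠ ⊥) :
    ∃ a ∈ c, a ∉ P * c ∧ ∀ y ∈ c, y ∈ P * c ∨ y - a ∈ P * c ∨ y + a ∈ P * c := by
  have h1 := ((nim hC).1 P c hP0 hc).1
  have h3 := (_root_.Pool.Agent.MUX2.CH2.idl hC c hc).1
  have hle0 : P * c ≤ c := Ideal.mul_le_right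
  have hle : (P * c).toAddSubgroup ≤ c.toAddSubgroup := Submodule.toAddSubgroup_mono hle0
  have h4 := AddSubgroup.relIndex_mul_index hle
  have hgen : ∀ I : Ideal (OO A B), I.toAddSubgroup.index = nI I := fun I =>
    Submodule.cardQuot_apply I
  rw [hgen, hgen, h1, hn] at h4
  have h7 : (P * c).toAddSubgroup.relIndex c.toAddSubgroup = 3 :=
    Nat.eq_of_mul_eq_mul_right (Nat.pos_of_ne_zero h3) h4
  obtain ⟨S, hS⟩ : ∃ S : AddSubgroup c.toAddSubgroup,
      S = (P * c).toAddSubgroup.addSubgroupOf c.toAddSubgroup := ⟨_, rfl⟩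
  have hcard : Nat.card (c.toAddSubgroup ⧸ S) = 3 := by rw [hS]; exact h7
  have hmemS : ∀ y : c.toAddSubgroup, y ∈ S ↔ (y : OO A B) ∈ P * c := by
    intro y; rw [hS, AddSubgroup.mem_addSubgroupOf]; rfl
  have hfact : Fact (Nat.Prime 3) := ⟨by norm_num⟩
  obtain ⟨a, ha⟩ : ∃ a : c.toAddSubgroup, a ∉ S := by
    by_contra hcon
    push Not at hcon
    have h8 : S = ⊤ := (AddSubgroup.eq_top_iff' S).2 hcon
    have h9 : S.index = 3 := hcard
    rw [h8, AddSubgroup.index_top] at h9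
    omega
  have hane : (a : c.toAddSubgroup ⧸ S) ≠ 0 := by
    intro h; exact ha ((QuotientAddGroup.eq_zero_iff a).1 h)
  refine ⟨a, a.2, fun h => ha ((hmemS a).2 h), fun y hy => ?_⟩
  have h9 : (((⟨y, hy⟩ : c.toAddSubgroup) : c.toAddSubgroup ⧸ S)) ∈
      AddSubgroup.zmultiples (a : c.toAddSubgroup ⧸ S) :=
    mem_zmultiples_of_prime_card hcard hane
  obtain ⟨n, hn'⟩ := AddSubgroup.mem_zmultiples_iff.1 h9
  have h10 : (⟨y, hy⟩ : c.toAddSubgroup) - n • a ∈ S := by
    rw [← QuotientAddGroup.eq_zero_iff]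
    rw [QuotientAddGroup.mk_sub, QuotientAddGroup.mk_zsmul, hn', sub_self]
  have h11 : y - n * a ∈ P * c := by
    have := (hmemS _).1 h10
    simpa [zsmul_eq_mul] using this
  have h3a : ∀ k : ℤ, (3 : OO A B) * (k * a) ∈ P * c := fun k =>
    Ideal.mul_mem_mul h2 (c.mul_mem_left _ a.2)
  have hcase : n % 3 = 0 ∨ n % 3 = 1 ∨ n % 3 = 2 := by omega
  rcases hcase with h | h | h
  · left
    obtain ⟨k, hk⟩ : ∃ k, n = 3 * k := ⟨n / 3, by omega⟩
    have e : y = (y - n * a) + 3 * (k * a) := by rw [hk]; push_cast; ring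
    rw [e]; exact (P * c).add_mem h11 (h3a k)
  · right; left
    obtain ⟨k, hk⟩ : ∃ k, n = 3 * k + 1 := ⟨n / 3, by omega⟩
    have e : y - a = (y - n * a) + 3 * (k * a) := by rw [hk]; push_cast; ring
    rw [e]; exact (P * c).add_mem h11 (h3a k)
  · right; right
    obtain ⟨k, hk⟩ : ∃ k, n = 3 * k - 1 := ⟨(n + 1) / 3, by omega⟩
    have e : y + a = (y - n * a) + 3 * (k * a) := by rw [hk]; push_cast; ring
    rw [e]; exact (P * c).add_mem h11 (h3a k)

/-- the isogeny with the kernel `P⁻¹ c / c` -/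
lemma isq (hC : Pool.Agent.MUXF.CQ A B) {P Q c : Ideal (OO A B)} (hP0 : P ≠ ⊥)
    (h2 : (3 : OO A B) ∈ P) (hPQ : P * Q = sp 3) {L M : PeriodPair} {om om' : ℂ}
    (hL : IsNL c L om) (hM : IsNL (Q * c) M om') : IsQ P L M (3 * om' / om) := by
  have hom := hL.om_ne
  have hom' := hM.om_ne
  refine ⟨div_ne_zero (mul_ne_zero three_ne_zero hom') hom, fun z => ⟨fun hz x hx => ?_, fun hz => ?_⟩⟩
  · obtain ⟨y, hy, e⟩ := (hM.mem _).1 hz
    have e2 : 3 * z = om * emb y := by
      field_simp at e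
      linear_combination e
    have hxy : x * y ∈ sp 3 * c := by
      rw [← hPQ, mul_assoc]; exact Ideal.mul_mem_mul hx hy
    obtain ⟨t, ht, e3⟩ := Ideal.mem_span_singleton_mul.1 hxy
    refine (hL.mem _).2 ⟨t, ht, ?_⟩
    have e4 := congrArg emb e3
    rw [_root_.Pool.Agent.MUXF.AlgX.emb_mul hC, _root_.Pool.Agent.MUXF.AlgX.emb_mul hC, emb_three] at e4
    linear_combination (emb x / 3) * e2 - (om / 3) * e4
  · obtain ⟨y, hy, e⟩ := (hL.mem _).1 (hz 3 h2)
    rw [emb_three] at e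
    have hy' : sp y ≤ Q * c := by
      rw [← (nim hC).2.2.2 P _ _ hP0, Ideal.mul_le]
      intro x hx s hs
      obtain ⟨r, rfl⟩ := Ideal.mem_span_singleton'.1 hs
      obtain ⟨t, ht, ex⟩ := (hL.mem _).1 (hz x hx)
      have e5 : x * y = 3 * t := by
        apply _root_.Pool.Agent.MUXF.AlgX.emb_inj hC
        rw [_root_.Pool.Agent.MUXF.AlgX.emb_mul hC, _root_.Pool.Agent.MUXF.AlgX.emb_mul hC, emb_three]
        apply mul_left_cancel₀ hom
        linear_combination 3 * ex - emb x * e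
      have e6 : x * (r * y) = 3 * (r * t) := by linear_combination r * e5
      rw [e6, ← mul_assoc, hPQ]
      exact Ideal.mul_mem_mul (Ideal.mem_span_singleton_self _) (c.mul_mem_left _ ht)
    refine (hM.mem _).2 ⟨y, hy' (Ideal.mem_span_singleton_self _), ?_⟩
    field_simp
    linear_combination e

/-- the point of order `P` -/
lemma three (hC : Pool.Agent.MUXF.CQ A B) {P Q c : Ideal (OO A B)} (hP0 : P ≠ ⊥)
    (h2 : (3 : OO A B) ∈ P) (hPQ : P * Q = sp 3) {L M : PeriodPair} {om om' : ℂ}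
    (hL : IsNL c L om) (hM : IsNL (Q * c) M om') {a : OO A B} (ha : a ∈ Q * c)
    (ha' : a ∉ P * (Q * c))
    (hy : ∀ y ∈ Q * c, y ∈ P * (Q * c) ∨ y - a ∈ P * (Q * c) ∨ y + a ∈ P * (Q * c)) :
    Three L M (3 * om' / om) (om * emb a / 3) := by
  have hom := hL.om_ne
  have hom' := hM.om_ne
  obtain ⟨hne, hI⟩ := isq hC hP0 h2 hPQ hL hM
  have key : ∀ y : OO A B, y ∈ P * (Q * c) ↔ om * emb y / 3 ∈ L.lattice := by
    intro y
    rw [← mul_assoc, hPQ, Ideal.mem_span_singleton_mul, hL.mem]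
    constructor
    · rintro ⟨t, ht, rfl⟩
      exact ⟨t, ht, by rw [_root_.Pool.Agent.MUXF.AlgX.emb_mul hC, emb_three]; ring⟩
    · rintro ⟨t, ht, e⟩
      refine ⟨t, ht, _root_.Pool.Agent.MUXF.AlgX.emb_inj hC ?_⟩
      rw [_root_.Pool.Agent.MUXF.AlgX.emb_mul hC, emb_three]
      apply mul_left_cancel₀ hom
      linear_combination -3 * e
  have hw : 3 * om' / om * (om * emb a / 3) ∈ M.lattice :=
    (hM.mem _).2 ⟨a, ha, by field_simp⟩
  refine ⟨hne, fun h => ha' ((key a).2 h), ?_, fun z => ⟨fun hz => ?_, ?_⟩⟩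
  · have := (hI _).1 hw 3 h2
    rwa [emb_three] at this
  · obtain ⟨y, hyc, e⟩ := (hM.mem _).1 hz
    have e2 : z = om * emb y / 3 := by
      field_simp at e
      linear_combination e / 3
    have e3 : emb (y - a) = emb y - emb a := by
      have := _root_.Pool.Agent.MUXF.AlgX.emb_add hC (y - a) a
      rw [sub_add_cancel] at this
      linear_combination -this
    rcases hy y hyc with h | h | h
    · left; rw [e2]; exact (key y).1 h
    · right; left
      have := (key _).1 h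
      rw [e3] at this
      convert this using 1
      rw [e2]; ring
    · right; right
      have := (key _).1 h
      rw [_root_.Pool.Agent.MUXF.AlgX.emb_add hC] at this
      convert this using 1
      rw [e2]; ring
  · have h5 : ∀ z ∈ L.lattice, 3 * om' / om * z ∈ M.lattice := by
      intro z hz
      refine (hI z).2 fun x hx => ?_
      obtain ⟨y, hyc, rfl⟩ := (hL.mem _).1 hz
      exact (hL.mem _).2 ⟨x * y, c.mul_mem_left _ hyc, by rw [_root_.Pool.Agent.MUXF.AlgX.emb_mul hC]; ring⟩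
    rintro (hz | hz | hz)
    · exact h5 z hz
    · have := add_mem (h5 _ hz) hw
      convert this using 1
      ring
    · have := sub_mem (h5 _ hz) hw
      convert this using 1
      ring

/-- `par3` depends only on the lattice and on `± u` modulo the lattice -/
lemma par_congr {L M : PeriodPair} (h : L.lattice = M.lattice) {w v : ℂ}
    (hv : w - v ∈ L.lattice ∨ w + v ∈ L.lattice) : par3 L w = par3 M v := by
  have h1 : L.weierstrassP = M.weierstrassP := by
    unfold PeriodPair.weierstrassP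
    rw [h]
  have hg : L.g₂ = M.g₂ := by
    unfold PeriodPair.g₂ PeriodPair.G
    rw [h]
  have h2 : L.weierstrassP w = L.weierstrassP v := by
    rcases hv with hv | hv
    · have := L.weierstrassP_add_coe v ⟨w - v, hv⟩
      simpa using this
    · have := L.weierstrassP_add_coe (-v) ⟨w + v, hv⟩
      rw [L.weierstrassP_neg] at this
      simpa using this
  have hk : kap L = kap M := by unfold kap; rw [hg]
  unfold par3 xn
  rw [h2, h1, hk]

end CH3

open _root_.Pool.Agent.MUX3.CH3 _root_.Pool.Agent.MUXF.AlgX in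
open _root_.Pool.Agent.MUX2.CH2 (cq nim idl) in
theorem t3_CH3 (h2 : S3_DUA) (h3 : S3_JEQ) (h4 : S3_PAR) : S3_CH3 := by
  intro A B hP3 h8 hF P hP b L om hL
  have hC := cq hP3.toCQ
  obtain ⟨hP0, h3P, hPQ⟩ := CH3.pq hC hP
  have hN := nim hC
  set Q := cjI P with hQ
  have hQ0 : Q ≠ ⊥ := (hN.2.2.1 P hP0).2.2.1
  have hnQ : nI Q = 3 := (hN.2.2.1 P hP0).1.trans hP.norm
  have hcQ : cjI Q = P := (hN.2.2.1 P hP0).2.1
  have h3Q : (3 : OO A B) ∈ Q := by
    have := (hN.2.2.1 Q hQ0).2.2.2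
    rw [hnQ] at this
    simpa using this
  obtain ⟨p, hp, q, hq, hpq⟩ := CH3.cop hP3.toCQ h8 hP
  -- the ideals
  let c : ℕ → Ideal (OO A B) := fun i => Q ^ i * b
  have hc0 : c 0 = b := by simp [c]
  have hcs : ∀ i, c (i + 1) = Q * c i := by
    intro i; simp only [c]; rw [pow_succ' Q i, mul_assoc]
  have hcne : ∀ i, c i ≠ ⊥ := by
    intro i
    induction i with
    | zero => rw [hc0]; exact hL.b_ne
    | succ i ih => rw [hcs]; exact (hN.1 Q _ hQ0 ih).2
  -- the lattices
  have hex : ∀ i, ∃ (p : PeriodPair × ℂ), IsNL (c i) p.1 p.2 ∧ (i = 0 → p = (L, om)) := by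
    intro i
    rcases Nat.eq_zero_or_pos i with rfl | hi
    · exact ⟨(L, om), by rw [hc0]; exact hL, fun _ => rfl⟩
    · obtain ⟨M, o, h⟩ := hF.ex (c i) (hcne i)
      exact ⟨(M, o), h, fun h0 => absurd h0 hi.ne'⟩
  choose F hF1 hF2 using hex
  let N : ℕ → PeriodPair := fun i => (F i).1
  let o : ℕ → ℂ := fun i => (F i).2
  have hNL : ∀ i, IsNL (c i) (N i) (o i) := hF1
  have hNL' : ∀ i, IsNL (Q * c i) (N (i + 1)) (o (i + 1)) := by
    intro i; rw [← hcs]; exact hNL _
  have ho : ∀ i, o i ≠ 0 := fun i => (hNL i).om_ne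
  have hidx := fun i => CH3.idx hC hP0 h3P hP.norm (hcne (i + 1))
  choose a ha1 ha2 ha3 using hidx
  simp only [hcs] at ha1 ha2 ha3
  let mu : ℕ → ℂ := fun i => 3 * o (i + 1) / o i
  let w : ℕ → ℂ := fun i => o i * emb (a i) / 3
  have hQi : ∀ i, IsQ P (N i) (N (i + 1)) (mu i) := fun i =>
    CH3.isq hC hP0 h3P hPQ (hNL i) (hNL' i)
  have hTw : ∀ i, Three (N i) (N (i + 1)) (mu i) (w i) := fun i =>
    three hC hP0 h3P hPQ (hNL i) (hNL' i) (ha1 i) (ha2 i) (ha3 i)
  have hTor : ∀ i, Tor P (N i) (w i) := by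
    intro i
    exact ((hQi i).2 _).1 (((hTw i).ker _).2 (Or.inr (Or.inl (by rw [sub_self]; exact zero_mem _))))
  obtain ⟨h, x, hh, hx0, hx⟩ := hF.fin Q hQ0
  have hcper : ∀ i, c (i + h) = sp x * c i := by
    intro i; simp only [c]; rw [pow_add, hx]; ring
  have heq : ∀ i, (N (i + h)).lattice = (N i).lattice ∧
      (o i = o (i + h) * emb x ∨ o i = -(o (i + h) * emb x)) := by
    intro i
    have h5 := hF.eq (c (i + h)) (c i) (N (i + h)) (N i) (o (i + h)) (o i) 1 x (hNL _) (hNL _)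
      one_ne_zero hx0 (by rw [hcper]; simp [sp])
    have e1 : emb (1 : OO A B) = 1 := by
      have := _root_.Pool.Agent.MUXF.AlgX.emb_intCast hC 1
      simpa using this
    rw [e1, mul_one] at h5
    exact h5
  have e1 : emb (1 : OO A B) = 1 := by
    have := _root_.Pool.Agent.MUXF.AlgX.emb_intCast hC 1
    simpa using this
  have hrec : Rec3 (fun i => par3 (N i) (w i)) := by
    intro i
    obtain ⟨hs0, -⟩ := h4 _ _ (hTw i).u_ne (hTw i).u3 (hNL i).nrm
    -- a point of order `Q` of `N i`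
    obtain ⟨a', ha1', ha2', -⟩ := CH3.idx hC hQ0 h3Q hnQ
      (show P * c i ≠ ⊥ from (hN.1 P _ hP0 (hcne i)).2)
    have hQP : Q * P = sp 3 := by rw [mul_comm]; exact hPQ
    have key : ∀ y : OO A B, y ∈ Q * (P * c i) ↔ o i * emb y / 3 ∈ (N i).lattice := by
      intro y
      rw [← mul_assoc, hQP, Ideal.mem_span_singleton_mul, (hNL i).mem]
      constructor
      · rintro ⟨t, ht, rfl⟩
        exact ⟨t, ht, by rw [_root_.Pool.Agent.MUXF.AlgX.emb_mul hC, emb_three]; ring⟩
      · rintro ⟨t, ht, e⟩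
        refine ⟨t, ht, _root_.Pool.Agent.MUXF.AlgX.emb_inj hC ?_⟩
        rw [_root_.Pool.Agent.MUXF.AlgX.emb_mul hC, emb_three]
        apply mul_left_cancel₀ (ho i)
        linear_combination -3 * e
    set w' : ℂ := o i * emb a' / 3 with hw'
    have k1 : w' ∉ (N i).lattice := fun h => ha2' ((key a').2 h)
    have k2 : ∀ x ∈ Q, emb x * w' ∈ (N i).lattice := by
      intro x hx
      have h5 := (key (x * a')).1 (Ideal.mul_mem_mul hx ha1')
      rw [_root_.Pool.Agent.MUXF.AlgX.emb_mul hC] at h5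
      convert h5 using 1
      rw [hw']; ring
    have k3 : 3 * w' ∈ (N i).lattice := by
      have := k2 3 h3Q
      rwa [emb_three] at this
    -- a point killed by `P` and by `Q` is zero
    have kPQ : ∀ (j : ℕ) (v : ℂ), (∀ x ∈ P, emb x * v ∈ (N j).lattice) →
        emb q * v ∈ (N j).lattice → v ∈ (N j).lattice := by
      intro j v hv1 hv2
      have h9 := add_mem (hv1 p hp) hv2
      rw [← add_mul, ← _root_.Pool.Agent.MUXF.AlgX.emb_add hC, hpq] at h9
      rwa [e1, one_mul] at h9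
    have kmul : ∀ (j : ℕ) (x : OO A B) (v : ℂ), v ∈ (N j).lattice → emb x * v ∈ (N j).lattice := by
      intro j x v hv
      obtain ⟨y, hy, e⟩ := ((hNL j).mem _).1 hv
      exact ((hNL j).mem _).2 ⟨x * y, (c j).mul_mem_left _ hy, by rw [e, _root_.Pool.Agent.MUXF.AlgX.emb_mul hC]; ring⟩
    have k4 : w' - w i ∉ (N i).lattice := by
      intro h5
      apply k1
      refine kPQ i w' (fun x hx => ?_) (k2 q hq)
      have h8 := add_mem (kmul i x _ h5) (hTor i x hx)
      convert h8 using 1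
      ring
    have k4' : w' + w i ∉ (N i).lattice := by
      intro h5
      apply k1
      refine kPQ i w' (fun x hx => ?_) (k2 q hq)
      have h8 := sub_mem (kmul i x _ h5) (hTor i x hx)
      convert h8 using 1
      ring
    obtain ⟨hD, hpar⟩ := h2 _ _ _ _ w' (hTw i) (hNL i).nrm (hNL (i + 1)).nrm k1 k3 k4 k4'
    have hqm : emb q * (mu i * w') ∈ (N (i + 1)).lattice := by
      have h6 : mu i * (emb q * w') ∈ (N (i + 1)).lattice :=
        ((hTw i).ker _).2 (Or.inl (k2 q hq))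
      convert h6 using 1
      ring
    have k5 : mu i * w' - w (i + 1) ∉ (N (i + 1)).lattice := by
      intro h5
      apply hD.u_ne
      refine kPQ (i + 1) _ (fun x hx => ?_) hqm
      have h8 := add_mem (kmul (i + 1) x _ h5) (hTor (i + 1) x hx)
      convert h8 using 1
      ring
    have k5' : mu i * w' + w (i + 1) ∉ (N (i + 1)).lattice := by
      intro h5
      apply hD.u_ne
      refine kPQ (i + 1) _ (fun x hx => ?_) hqm
      have h8 := sub_mem (kmul (i + 1) x _ h5) (hTor (i + 1) x hx)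
      convert h8 using 1
      ring
    have hJ := h3 (N (i + 1)) (w (i + 1)) (mu i * w') (hTw (i + 1)).u_ne (hTw (i + 1)).u3
      hD.u_ne hD.u3 k5 k5' (hNL (i + 1)).nrm
    rw [hpar] at hJ
    refine ⟨hs0, ?_⟩
    show par3 (N (i + 1)) (w (i + 1)) ^ 3 +
      (36 + 729 / par3 (N i) (w i)) * par3 (N (i + 1)) (w (i + 1)) ^ 2 +
      ((729 / par3 (N i) (w i)) ^ 2 + 36 * (729 / par3 (N i) (w i)) + 270) *
        par3 (N (i + 1)) (w (i + 1)) = par3 (N i) (w i)
    obtain ⟨T, hT⟩ : ∃ T, T = 729 / par3 (N i) (w i) := ⟨_, rfl⟩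
    rw [← hT] at hJ ⊢
    have hT0 : T ≠ 0 := by rw [hT]; exact div_ne_zero (by norm_num) hs0
    have hTs : T * par3 (N i) (w i) = 729 := by rw [hT]; exact div_mul_cancel₀ _ hs0
    apply mul_left_cancel₀ hT0
    linear_combination hJ - hTs
  have hxx : nm x = 3 ^ h := by
    have hpow : ∀ n, nI (Q ^ (n + 1)) = 3 ^ (n + 1) ∧ Q ^ (n + 1) ≠ ⊥ := by
      intro n
      induction n with
      | zero => rw [zero_add, pow_one, pow_one]; exact ⟨hnQ, hQ0⟩
      | succ n ih =>
        have h5 := hN.1 (Q ^ (n + 1)) Q ih.2 hQ0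
        rw [← pow_succ] at h5
        refine ⟨?_, h5.2⟩
        rw [h5.1, ih.1, hnQ]
        exact (pow_succ 3 (n + 1)).symm
    obtain ⟨n, rfl⟩ : ∃ n, h = n + 1 := ⟨h - 1, by omega⟩
    have h5 := (hpow n).1
    rw [hx] at h5
    have h6 := (hN.2.1 x).resolve_right hx0
    rw [h5] at h6
    have h7 := _root_.Pool.Agent.MUXF.AlgX.nm_nonneg hC x
    have h8 : ((3 ^ (n + 1) : ℕ) : ℤ) = nm x := by rw [h6]; omega
    rw [← h8]; push_cast; rfl
  have hemb : emb x * emb (star x) = 3 ^ h := by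
    rw [← _root_.Pool.Agent.MUXF.AlgX.emb_mul hC, mul_star', hxx, _root_.Pool.Agent.MUXF.AlgX.emb_intCast hC]
    push_cast; rfl
  have hex0 : emb x ≠ 0 := fun h0 => hx0 ((emb_eq_zero hC x).1 h0)
  refine ⟨h, star x, N, mu, w, hh, ?_, ?_, fun i => ⟨c i, o i, hNL i⟩, hQi, hTw, hTor,
    fun i => (heq i).1, hrec, fun i => ?_, ?_⟩
  · -- `P ^ h = (star x)`
    have e : ∀ n : ℕ, cjI (Q ^ n) = P ^ n := by
      intro n
      induction n with
      | zero =>
        rw [pow_zero, pow_zero]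
        unfold cjI
        rw [Ideal.one_eq_top, Ideal.comap_top]
      | succ n ih =>
        rw [pow_succ, pow_succ]
        have h5 : cjI (Q ^ n * Q) = cjI (Q ^ n) * cjI Q := Pool.Agent.MUXF.NimX.cjI_mul _ _
        rw [h5, ih, hcQ]
    rw [← e h, hx]
    exact Pool.Agent.MUXF.NimX.cjI_sp x
  · show (F 0).1 = L
    rw [hF2 0 rfl]
  · have hl := (heq i).1
    apply CH3.par_congr hl
    rw [hl]
    have h5 : mu i * w (i + h) ∈ (N (i + 1)).lattice := by
      refine ((hQi i).2 _).2 fun x hx => ?_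
      rw [← hl]
      exact hTor (i + h) x hx
    rcases ((hTw i).ker _).1 h5 with h6 | h6
    · rw [← hl] at h6
      exact absurd h6 (hTw (i + h)).u_ne
    · exact h6
  · have hprod : ∀ n : ℕ, ∏ i ∈ Finset.range n, mu i = 3 ^ n * o n / o 0 := by
      intro n
      induction n with
      | zero => simp [div_self (ho 0)]
      | succ n ih =>
        rw [Finset.prod_range_succ, ih]
        have h5 := ho n
        have h6 := ho 0
        simp only [mu]
        rw [pow_succ]
        field_simp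
    rw [hprod h]
    have h5 := (heq 0).2
    rw [zero_add] at h5
    have h6 := ho h
    have h7 := ho 0
    rcases h5 with h5 | h5
    · left
      rw [← hemb, h5]
      field_simp
    · right
      rw [← hemb, h5]
      field_simp

end

end Pool.Agent.MUX3


end

section

/-!
# MUX, block R2: module CIN (periodic chains of units: injectivity modulo `V`) (helper91)

A pure valuation argument.
-/

set_option autoImplicit false

namespace Pool.Agent.MUX2

open _root_.MU3 _root_.Pool.Agent.MU3A _root_.Pool.Agent.MU3B _root_.Pool.Agent.MUX _root_.Pool.Agent.MUXU WeierstrassCurve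

noncomputable section

namespace Cin

theorem nat_le (V : ValuationSubring ℂ) (n : ℕ) : V.valuation (n : ℂ) ≤ 1 :=
  (V.valuation_le_one_iff _).2 (natCast_mem V n)

theorem mul_lt (V : ValuationSubring ℂ) {x y : ℂ} (hx : V.valuation x < 1)
    (hy : V.valuation y ≤ 1) : V.valuation (x * y) < 1 := by
  rw [map_mul]
  exact lt_of_le_of_lt (mul_le_of_le_one_right' hy) hx

theorem per (s : ℕ → ℂ) (h k : ℕ) (hp : ∀ i, s (i + h) = s i) (i : ℕ) : s (i + k * h) = s i := by
  induction k with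
  | zero => simp
  | succ k ih =>
    rw [Nat.succ_mul, ← Nat.add_assoc, hp, ih]

/-- squares are injective modulo `V` -/
theorem of_sq (V : ValuationSubring ℂ) (h2 : V.valuation 2 < 1) (x y : ℂ)
    (hx : V.valuation x = 1) (hy : V.valuation y = 1) (h : V.valuation (x ^ 2 - y ^ 2) < 1) :
    V.valuation (x - y) < 1 := by
  have hd : V.valuation (x - y) ≤ 1 := Valuation.map_sub_le _ hx.le hy.le
  have h1 : V.valuation ((x - y) ^ 2) < 1 := by
    have e : (x - y) ^ 2 = (x ^ 2 - y ^ 2) - 2 * (y * (x - y)) := by ring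
    rw [e]
    refine Valuation.map_sub_lt _ h (mul_lt V h2 ?_)
    rw [map_mul, hy, one_mul]
    exact hd
  rw [map_pow] at h1
  by_contra hc
  exact absurd (one_le_pow₀ (not_lt.1 hc)) (not_le.2 h1)

end Cin

open _root_.Pool.Agent.MUX2.Cin in
theorem t2_CIN : S2_CIN := by
  intro V s s' h h' h2 hs hs' hh hh' hp hp' hu hu' hJ
  have v48 : V.valuation 48 < 1 := by
    have e : (48 : ℂ) = 2 * ((24 : ℕ) : ℂ) := by norm_num
    rw [e]
    exact mul_lt V h2 (nat_le V 24)
  have v4096 : V.valuation 4096 < 1 := by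
    have e : (4096 : ℂ) = 2 * ((2048 : ℕ) : ℂ) := by norm_num
    rw [e]
    exact mul_lt V h2 (nat_le V 2048)
  have hinv : ∀ i, V.valuation (1 / s i) = 1 := fun i => by
    rw [one_div, map_inv₀, hu i, inv_one]
  have hinv' : ∀ i, V.valuation (1 / s' i) = 1 := fun i => by
    rw [one_div, map_inv₀, hu' i, inv_one]
  have hq : ∀ i, V.valuation (4096 / s i) < 1 := fun i => by
    rw [div_eq_mul_one_div]
    exact mul_lt V v4096 (hinv i).le
  have hq' : ∀ i, V.valuation (4096 / s' i) < 1 := fun i => by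
    rw [div_eq_mul_one_div]
    exact mul_lt V v4096 (hinv' i).le
  -- all differences are small
  have hd0 : V.valuation (s 0 - s' 0) < 1 := by
    refine of_sq V h2 _ _ (hu 0) (hu' 0) ?_
    have n0 := (hs 0).1
    have n0' := (hs' 0).1
    have e : s 0 ^ 2 - s' 0 ^ 2 = ((s 0 + 16) ^ 3 / s 0 - (s' 0 + 16) ^ 3 / s' 0) -
        (48 * (s 0 - s' 0) + (4096 / s 0 - 4096 / s' 0)) := by
      field_simp
      ring
    rw [e]
    refine Valuation.map_sub_lt _ hJ (Valuation.map_add_lt _ (mul_lt V v48 ?_)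
      (Valuation.map_sub_lt _ (hq 0) (hq' 0)))
    exact Valuation.map_sub_le _ (hu 0).le (hu' 0).le
  have hd : ∀ i, V.valuation (s i - s' i) < 1 := by
    intro i
    induction i with
    | zero => exact hd0
    | succ i ih =>
      refine of_sq V h2 _ _ (hu (i + 1)) (hu' (i + 1)) ?_
      have e1 := (hs i).2
      have e2 := (hs' i).2
      have e : s (i + 1) ^ 2 - s' (i + 1) ^ 2 = (s i - s' i) -
          ((48 + 4096 / s i) * s (i + 1) - (48 + 4096 / s' i) * s' (i + 1)) := by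
        linear_combination e1 - e2
      rw [e]
      refine Valuation.map_sub_lt _ ih (Valuation.map_sub_lt _ (mul_lt V ?_ (hu _).le)
        (mul_lt V ?_ (hu' _).le))
      · exact Valuation.map_add_lt _ v48 (hq i)
      · exact Valuation.map_add_lt _ v48 (hq' i)
  -- one step
  have hstep : ∀ i, ∃ r, V.valuation r < 1 ∧
      V.valuation (s i - s' i) = V.valuation (s (i + 1) - s' (i + 1)) * V.valuation r := by
    intro i
    refine ⟨s (i + 1) + s' (i + 1) + 48 + 4096 / s i, ?_, ?_⟩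
    · have e : s (i + 1) + s' (i + 1) + 48 + 4096 / s i =
          ((2 * s' (i + 1) + (s (i + 1) - s' (i + 1))) + 48) + 4096 / s i := by ring
      rw [e]
      exact Valuation.map_add_lt _ (Valuation.map_add_lt _ (Valuation.map_add_lt _
        (mul_lt V h2 (hu' _).le) (hd (i + 1))) v48) (hq i)
    · have n0 := (hs i).1
      have n0' := (hs' i).1
      have e1 := (hs i).2
      have e2 := (hs' i).2
      have key : (s i - s' i) * (1 + 4096 * (s' (i + 1) * (1 / s i) * (1 / s' i))) =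
          (s (i + 1) - s' (i + 1)) * (s (i + 1) + s' (i + 1) + 48 + 4096 / s i) := by
        have e3 : s i - s' i = (s (i + 1) ^ 2 + (48 + 4096 / s i) * s (i + 1)) -
            (s' (i + 1) ^ 2 + (48 + 4096 / s' i) * s' (i + 1)) := by
          rw [e1, e2]
        have e4 : 4096 * (s' (i + 1) * (1 / s i) * (1 / s' i)) * (s i - s' i) =
            s' (i + 1) * (4096 / s' i - 4096 / s i) := by
          field_simp
        linear_combination e3 + e4
      have h1 : V.valuation (1 + 4096 * (s' (i + 1) * (1 / s i) * (1 / s' i))) = 1 := by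
        refine Valuation.map_one_add_of_lt _ (mul_lt V v4096 ?_)
        rw [map_mul, map_mul, hu', hinv, hinv']
        simp
      rw [← map_mul, ← key, map_mul, h1, mul_one]
  by_contra hne
  have hpos : ∀ i, 0 < V.valuation (s i - s' i) ∧
      V.valuation (s 0 - s' 0) ≤ V.valuation (s i - s' i) := by
    intro i
    induction i with
    | zero =>
      refine ⟨lt_of_le_of_ne zero_le ((Valuation.ne_zero_iff _).2 (sub_ne_zero.2 hne)).symm, le_rfl⟩
    | succ i ih =>
      obtain ⟨r, hr, he⟩ := hstep i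
      have h1 : V.valuation (s i - s' i) ≤ V.valuation (s (i + 1) - s' (i + 1)) := by
        rw [he]
        exact mul_le_of_le_one_right' hr.le
      exact ⟨lt_of_lt_of_le ih.1 h1, le_trans ih.2 h1⟩
  have hN : s (0 + h' * h) - s' (0 + h' * h) = s 0 - s' 0 := by
    rw [per s h h' hp 0, Nat.mul_comm h' h, per s' h' h hp' 0]
  obtain ⟨N, hNe⟩ : ∃ N, h' * h = N + 1 := ⟨h' * h - 1, by
    have := Nat.mul_pos hh' hh
    omega⟩
  rw [Nat.zero_add, hNe] at hN
  obtain ⟨r, hr, he⟩ := hstep N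
  have h1 := (hpos (N + 1)).1
  have h3 : V.valuation (s N - s' N) < V.valuation (s (N + 1) - s' (N + 1)) := by
    rw [he]
    exact mul_lt_of_lt_one_right h1 hr
  have h4 := (hpos N).2
  rw [← hN] at h4
  exact absurd h3 (not_lt.2 h4)

end

end Pool.Agent.MUX2


end

section

/-!
# MUX, block R3: module CIN (helper83; model: `R2_CIN.lean` of helper91)

Periodic chains of units: injectivity modulo `V`. A pure valuation argument.
-/

set_option autoImplicit false

namespace Pool.Agent.MUX3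

open _root_.MU3 _root_.Pool.Agent.MU3A _root_.Pool.Agent.MU3B _root_.Pool.Agent.MUX _root_.Pool.Agent.MUXU _root_.Pool.Agent.MUX2
open WeierstrassCurve

noncomputable section

namespace Cin3

open _root_.Pool.Agent.MUX2.Cin

/-- cubes are injective modulo `V` -/
theorem of_cube (V : ValuationSubring ℂ) (h3 : V.valuation 3 < 1) (x y : ℂ)
    (hx : V.valuation x = 1) (hy : V.valuation y = 1) (h : V.valuation (x ^ 3 - y ^ 3) < 1) :
    V.valuation (x - y) < 1 := by
  have hd : V.valuation (x - y) ≤ 1 := Valuation.map_sub_le _ hx.le hy.le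
  have h1 : V.valuation ((x - y) ^ 3) < 1 := by
    have e : (x - y) ^ 3 = (x ^ 3 - y ^ 3) - 3 * (x * y * (x - y)) := by ring
    rw [e]
    refine Valuation.map_sub_lt _ h (mul_lt V h3 ?_)
    rw [map_mul, map_mul, hx, hy, one_mul, one_mul]
    exact hd
  rw [map_pow] at h1
  by_contra hc
  exact absurd (one_le_pow₀ (not_lt.1 hc)) (not_le.2 h1)

theorem three_mul_lt (V : ValuationSubring ℂ) (h3 : V.valuation 3 < 1) (c : ℂ) (n : ℕ)
    (h : c = 3 * (n : ℂ)) : V.valuation c < 1 := by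
  rw [h]
  exact mul_lt V h3 (nat_le V n)

end Cin3

open _root_.Pool.Agent.MUX3.Cin3 _root_.Pool.Agent.MUX2.Cin in
theorem t3_CIN : S3_CIN := by
  intro V s s' h h' h3 hs hs' hh hh' hp hp' hu hu' hJ
  have v36 : V.valuation 36 < 1 := three_mul_lt V h3 36 12 (by norm_num)
  have v270 : V.valuation 270 < 1 := three_mul_lt V h3 270 90 (by norm_num)
  have v729 : V.valuation 729 < 1 := three_mul_lt V h3 729 243 (by norm_num)
  have hinv : ∀ i, V.valuation (1 / s i) = 1 := fun i => by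
    rw [one_div, map_inv₀, hu i, inv_one]
  have hinv' : ∀ i, V.valuation (1 / s' i) = 1 := fun i => by
    rw [one_div, map_inv₀, hu' i, inv_one]
  have hq : ∀ i, V.valuation (729 / s i) < 1 := fun i => by
    rw [div_eq_mul_one_div]
    exact mul_lt V v729 (hinv i).le
  have hq' : ∀ i, V.valuation (729 / s' i) < 1 := fun i => by
    rw [div_eq_mul_one_div]
    exact mul_lt V v729 (hinv' i).le
  have hp2 : ∀ i, V.valuation (s i ^ 2) = 1 := fun i => by rw [map_pow, hu, one_pow]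
  have hp2' : ∀ i, V.valuation (s' i ^ 2) = 1 := fun i => by rw [map_pow, hu', one_pow]
  -- all differences are small
  have hd0 : V.valuation (s 0 - s' 0) < 1 := by
    refine of_cube V h3 _ _ (hu 0) (hu' 0) ?_
    have n0 := (hs 0).1
    have n0' := (hs' 0).1
    have e : s 0 ^ 3 - s' 0 ^ 3 =
        ((s 0 + 27) * (s 0 + 3) ^ 3 / s 0 - (s' 0 + 27) * (s' 0 + 3) ^ 3 / s' 0) -
        (36 * (s 0 ^ 2 - s' 0 ^ 2) + (270 * (s 0 - s' 0) + (729 / s 0 - 729 / s' 0))) := by
      field_simp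
      ring
    rw [e]
    refine Valuation.map_sub_lt _ hJ (Valuation.map_add_lt _ (mul_lt V v36 ?_)
      (Valuation.map_add_lt _ (mul_lt V v270 ?_) (Valuation.map_sub_lt _ (hq 0) (hq' 0))))
    · exact Valuation.map_sub_le _ (hp2 0).le (hp2' 0).le
    · exact Valuation.map_sub_le _ (hu 0).le (hu' 0).le
  have hc2 : ∀ i, V.valuation (36 + 729 / s i) < 1 := fun i =>
    Valuation.map_add_lt _ v36 (hq i)
  have hc2' : ∀ i, V.valuation (36 + 729 / s' i) < 1 := fun i =>
    Valuation.map_add_lt _ v36 (hq' i)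
  have hc1 : ∀ i, V.valuation ((729 / s i) ^ 2 + 36 * (729 / s i) + 270) < 1 := fun i =>
    Valuation.map_add_lt _ (Valuation.map_add_lt _ (by
      rw [map_pow]; exact pow_lt_one₀ zero_le (hq i) two_ne_zero) (mul_lt V v36 (hq i).le)) v270
  have hc1' : ∀ i, V.valuation ((729 / s' i) ^ 2 + 36 * (729 / s' i) + 270) < 1 := fun i =>
    Valuation.map_add_lt _ (Valuation.map_add_lt _ (by
      rw [map_pow]; exact pow_lt_one₀ zero_le (hq' i) two_ne_zero) (mul_lt V v36 (hq' i).le)) v270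
  have hd : ∀ i, V.valuation (s i - s' i) < 1 := by
    intro i
    induction i with
    | zero => exact hd0
    | succ i ih =>
      refine of_cube V h3 _ _ (hu (i + 1)) (hu' (i + 1)) ?_
      have e1 := (hs i).2
      have e2 := (hs' i).2
      have e : s (i + 1) ^ 3 - s' (i + 1) ^ 3 = (s i - s' i) -
          (((36 + 729 / s i) * s (i + 1) ^ 2 - (36 + 729 / s' i) * s' (i + 1) ^ 2) +
            (((729 / s i) ^ 2 + 36 * (729 / s i) + 270) * s (i + 1) -
              ((729 / s' i) ^ 2 + 36 * (729 / s' i) + 270) * s' (i + 1))) := by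
        linear_combination e1 - e2
      rw [e]
      refine Valuation.map_sub_lt _ ih (Valuation.map_add_lt _
        (Valuation.map_sub_lt _ (mul_lt V (hc2 i) (hp2 _).le) (mul_lt V (hc2' i) (hp2' _).le))
        (Valuation.map_sub_lt _ (mul_lt V (hc1 i) (hu _).le) (mul_lt V (hc1' i) (hu' _).le)))
  -- one step
  have hstep : ∀ i, ∃ r, V.valuation r < 1 ∧
      V.valuation (s i - s' i) = V.valuation (s (i + 1) - s' (i + 1)) * V.valuation r := by
    intro i
    refine ⟨s (i + 1) ^ 2 + s (i + 1) * s' (i + 1) + s' (i + 1) ^ 2 +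
      36 * (s (i + 1) + s' (i + 1)) + 270 + 729 / s i * (s (i + 1) + s' (i + 1)) +
      ((729 / s i) ^ 2 + 36 * (729 / s i)), ?_, ?_⟩
    · have e : s (i + 1) ^ 2 + s (i + 1) * s' (i + 1) + s' (i + 1) ^ 2 =
          3 * (s (i + 1) * s' (i + 1)) + (s (i + 1) - s' (i + 1)) * (s (i + 1) - s' (i + 1)) := by
        ring
      rw [e]
      have hsum : V.valuation (s (i + 1) + s' (i + 1)) ≤ 1 :=
        Valuation.map_add_le _ (hu _).le (hu' _).le
      refine Valuation.map_add_lt _ (Valuation.map_add_lt _ (Valuation.map_add_lt _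
        (Valuation.map_add_lt _ (Valuation.map_add_lt _ (mul_lt V h3 ?_)
          (mul_lt V (hd (i + 1)) (hd (i + 1)).le)) (mul_lt V v36 hsum)) v270)
        (mul_lt V (hq i) hsum)) (Valuation.map_add_lt _ ?_ (mul_lt V v36 (hq i).le))
      · rw [map_mul, hu, hu', one_mul]
      · rw [map_pow]
        exact pow_lt_one₀ zero_le (hq i) two_ne_zero
    · have n0 := (hs i).1
      have n0' := (hs' i).1
      have e1 := (hs i).2
      have e2 := (hs' i).2
      have key : (s i - s' i) * (1 + 729 * ((1 / s i) * (1 / s' i) * (s' (i + 1) ^ 2 +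
          s' (i + 1) * (729 / s i + 729 / s' i) + 36 * s' (i + 1)))) =
          (s (i + 1) - s' (i + 1)) * (s (i + 1) ^ 2 + s (i + 1) * s' (i + 1) + s' (i + 1) ^ 2 +
      36 * (s (i + 1) + s' (i + 1)) + 270 + 729 / s i * (s (i + 1) + s' (i + 1)) +
      ((729 / s i) ^ 2 + 36 * (729 / s i))) := by
        have e3 : s i - s' i = (s (i + 1) ^ 3 + (36 + 729 / s i) * s (i + 1) ^ 2 +
            ((729 / s i) ^ 2 + 36 * (729 / s i) + 270) * s (i + 1)) -
            (s' (i + 1) ^ 3 + (36 + 729 / s' i) * s' (i + 1) ^ 2 +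
            ((729 / s' i) ^ 2 + 36 * (729 / s' i) + 270) * s' (i + 1)) := by
          rw [e1, e2]
        have e4 : 729 * ((1 / s i) * (1 / s' i)) * (s i - s' i) = 729 / s' i - 729 / s i := by
          field_simp
        linear_combination e3 + (s' (i + 1) ^ 2 +
          s' (i + 1) * (729 / s i + 729 / s' i) + 36 * s' (i + 1)) * e4
      have h1 : V.valuation (1 + 729 * ((1 / s i) * (1 / s' i) * (s' (i + 1) ^ 2 +
          s' (i + 1) * (729 / s i + 729 / s' i) + 36 * s' (i + 1)))) = 1 := by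
        refine Valuation.map_one_add_of_lt _ (mul_lt V v729 ?_)
        rw [map_mul, map_mul, hinv, hinv', one_mul, one_mul]
        refine Valuation.map_add_le _ (Valuation.map_add_le _ (hp2' _).le ?_) ?_
        · rw [map_mul, hu', one_mul]
          exact Valuation.map_add_le _ (hq i).le (hq' i).le
        · rw [map_mul, hu', mul_one]
          exact v36.le
      rw [← map_mul, ← key, map_mul, h1, mul_one]
  by_contra hne
  have hpos : ∀ i, 0 < V.valuation (s i - s' i) ∧
      V.valuation (s 0 - s' 0) ≤ V.valuation (s i - s' i) := by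
    intro i
    induction i with
    | zero =>
      refine ⟨lt_of_le_of_ne zero_le ((Valuation.ne_zero_iff _).2 (sub_ne_zero.2 hne)).symm, le_rfl⟩
    | succ i ih =>
      obtain ⟨r, hr, he⟩ := hstep i
      have h1 : V.valuation (s i - s' i) ≤ V.valuation (s (i + 1) - s' (i + 1)) := by
        rw [he]
        exact mul_le_of_le_one_right' hr.le
      exact ⟨lt_of_lt_of_le ih.1 h1, le_trans ih.2 h1⟩
  have hN : s (0 + h' * h) - s' (0 + h' * h) = s 0 - s' 0 := by
    rw [per s h h' hp 0, Nat.mul_comm h' h, per s' h' h hp' 0]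
  obtain ⟨N, hNe⟩ : ∃ N, h' * h = N + 1 := ⟨h' * h - 1, by
    have := Nat.mul_pos hh' hh
    omega⟩
  rw [Nat.zero_add, hNe] at hN
  obtain ⟨r, hr, he⟩ := hstep N
  have h1 := (hpos (N + 1)).1
  have h3 : V.valuation (s N - s' N) < V.valuation (s (N + 1) - s' (N + 1)) := by
    rw [he]
    exact mul_lt_of_lt_one_right h1 hr
  have h4 := (hpos N).2
  rw [← hN] at h4
  exact absurd h3 (not_lt.2 h4)

end

end Pool.Agent.MUX3


end

section

/-!
# MUX, block R3, module PAR (helper83): the parameter of a point of order three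
-/

set_option autoImplicit false

namespace Pool.Agent.MUX3

open _root_.MU3 _root_.Pool.Agent.MU3A _root_.Pool.Agent.MU3B _root_.Pool.Agent.MUX _root_.Pool.Agent.MUXU _root_.Pool.Agent.MUX2
open WeierstrassCurve

noncomputable section

theorem t3_PAR (h1 : S3_TRI) : S3_PAR := by
  intro L u hu h3u hn
  obtain ⟨hk, hg2, hg3, hg2n, -⟩ := nrm_kap L hn
  obtain ⟨-, hpsi⟩ := h1 L u hu h3u
  have hk1 : 1 + 1728 * kap L ≠ 0 := by
    intro h0
    apply hg2n
    rw [hg2, h0, zero_div]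
  have he : L.weierstrassP u = xn L u + 1 / 12 := by
    unfold xn
    ring
  rw [he, hg2, hg3] at hpsi
  obtain ⟨x, hx⟩ : ∃ x, x = xn L u := ⟨_, rfl⟩
  obtain ⟨k, hkk⟩ : ∃ k, k = kap L := ⟨_, rfl⟩
  rw [← hx, ← hkk] at hpsi
  rw [← hkk] at hk hk1
  -- the polynomial
  have hp : 3 * x ^ 4 + x ^ 3 - 216 * k * x ^ 2 - 12 * k * x - k - 1296 * k ^ 2 = 0 := by
    linear_combination (1 / 4 : ℂ) * hpsi
  -- (1)
  have hN : x ^ 3 - k ≠ 0 := by
    intro h0
    have h1 : k = x ^ 3 := by linear_combination -h0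
    rw [h1] at hp hk hk1
    have hx0 : x ≠ 0 := by
      rintro rfl
      exact hk (by norm_num)
    have h2 : x ^ 4 * (1 + 12 * x) ^ 2 = 0 := by
      linear_combination (-1 / 9 : ℂ) * hp
    have h3 : 1 + 12 * x = 0 := by
      rcases mul_eq_zero.1 h2 with h | h
      · exact absurd (pow_eq_zero_iff (by norm_num) |>.1 h) hx0
      · exact pow_eq_zero_iff (by norm_num) |>.1 h
    have h4 : x = -1 / 12 := by linear_combination (1 / 12 : ℂ) * h3
    apply hk1
    rw [h4]
    norm_num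
  -- (3)
  have hM : x ^ 2 + 12 * k ≠ 0 := by
    intro h0
    have h2 : k * (1728 * k - 24 * x - 1) = 0 := by
      linear_combination hp - (3 * x ^ 2 + x - 252 * k) * h0
    have h3 : 1728 * k - 24 * x - 1 = 0 := by
      rcases mul_eq_zero.1 h2 with h | h
      · exact absurd h hk
      · exact h
    have h4 : (1 + 1728 * k) ^ 2 = 0 := by
      linear_combination 576 * h0 + (1728 * k + 24 * x - 1) * h3
    exact hk1 (pow_eq_zero_iff (by norm_num) |>.1 h4)
  obtain ⟨s, hs⟩ : ∃ s, s = par3 L u := ⟨_, rfl⟩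
  have hs' : s = 9 * k * (12 * x + 1) / (x ^ 3 - k) := by
    rw [hs, hx, hkk]
    rfl
  have hq : q3 s = 9 * (x ^ 2 + 12 * k) / (x ^ 3 - k) := by
    have h5 : s * (x ^ 3 - k) = 9 * k * (12 * x + 1) := by
      rw [hs']
      field_simp
    unfold q3
    rw [eq_div_iff hN]
    apply mul_right_cancel₀ hN
    have h6 : (s ^ 2 + 18 * s - 27) * (x ^ 3 - k) * (x ^ 3 - k) =
        (s * (x ^ 3 - k)) ^ 2 + 18 * (s * (x ^ 3 - k)) * (x ^ 3 - k) - 27 * (x ^ 3 - k) ^ 2 := by
      ring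
    rw [h6, h5]
    linear_combination (-9 * x ^ 2) * hp
  have hq0 : q3 s ≠ 0 := by
    rw [hq]
    exact div_ne_zero (mul_ne_zero (by norm_num) hM) hN
  have hxs : x = (s + 9) / q3 s := by
    rw [eq_div_iff hq0, hq, hs']
    field_simp
    ring
  have hks : k = s / q3 s ^ 2 := by
    rw [eq_div_iff (pow_ne_zero 2 hq0), hq, hs', div_pow, mul_div_assoc',
      div_eq_div_iff (pow_ne_zero 2 hN) hN]
    linear_combination (-9 * k * (x ^ 3 - k)) * hp
  have hs0 : s ≠ 0 := by
    rintro rfl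
    apply hk
    rw [hks, zero_div]
  have h7 : (1 + 1728 * k) * q3 s ^ 2 = (s + 27) * (s + 3) ^ 3 := by
    have h8 : k * q3 s ^ 2 = s := by
      rw [hks]
      field_simp
    have h9 : q3 s ^ 2 + 1728 * s = (s + 27) * (s + 3) ^ 3 := by
      unfold q3
      ring
    linear_combination h9 + 1728 * h8
  have h10 : (s + 27) * (s + 3) ^ 3 ≠ 0 := by
    rw [← h7]
    exact mul_ne_zero hk1 (pow_ne_zero 2 hq0)
  rw [← hs, ← hx, ← hkk]
  refine ⟨hs0, hq0, ?_, ?_, hk, hxs, hks⟩
  · intro h0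
    apply h10
    rw [h0]
    ring
  · intro h0
    apply h10
    rw [h0]
    ring

end

end Pool.Agent.MUX3


end

section

/-!
# MUX, block R2, module IT2: isogenies are integral, in every residue characteristic (helper64)
-/

set_option autoImplicit false

open WeierstrassCurve

namespace Pool.Agent.MUX2

open _root_.Pool.Agent.MU3.Val _root_.Pool.Agent.MUXV _root_.Pool.Agent.MUXG _root_.Pool.Agent.MU3B _root_.Pool.Agent.MUXU

noncomputable section

namespace IT2

/-- difference of two products of integral linear factors -/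
lemma prod_diff (V : ValuationSubring ℂ) (s : Finset ℂ) (a b : ℂ → ℂ) (x : ℂ)
    (ha : ∀ q ∈ s, V.valuation (a q) ≤ 1) (hb : ∀ q ∈ s, V.valuation (b q) ≤ 1)
    (hx : 1 < V.valuation x) :
    V.valuation (∏ q ∈ s, (x - a q) - ∏ q ∈ s, (x - b q)) * V.valuation x ≤
      V.valuation x ^ s.card ∧ V.valuation (∏ q ∈ s, (x - b q)) = V.valuation x ^ s.card := by
  classical
  have hlin : ∀ y : ℂ, V.valuation y ≤ 1 → V.valuation (x - y) = V.valuation x := fun y hy =>
    V.valuation.map_sub_eq_of_lt_left (hy.trans_lt hx)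
  induction s using Finset.induction_on with
  | empty => simp
  | insert j s hj ih =>
    obtain ⟨ih1, ih2⟩ := ih (fun q hq => ha q (Finset.mem_insert_of_mem hq))
      (fun q hq => hb q (Finset.mem_insert_of_mem hq))
    have haj := ha j (Finset.mem_insert_self _ _)
    have hbj := hb j (Finset.mem_insert_self _ _)
    rw [Finset.prod_insert hj, Finset.prod_insert hj, Finset.card_insert_of_notMem hj]
    constructor
    · have e : (x - a j) * ∏ q ∈ s, (x - a q) - (x - b j) * ∏ q ∈ s, (x - b q) =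
          (x - a j) * (∏ q ∈ s, (x - a q) - ∏ q ∈ s, (x - b q)) +
            (b j - a j) * ∏ q ∈ s, (x - b q) := by ring
      rw [e]
      have h1 : V.valuation ((x - a j) * (∏ q ∈ s, (x - a q) - ∏ q ∈ s, (x - b q))) *
          V.valuation x ≤ V.valuation x ^ (s.card + 1) := by
        rw [map_mul, hlin _ haj, pow_succ', mul_assoc]
        exact mul_le_mul_right ih1 _
      have h2 : V.valuation ((b j - a j) * ∏ q ∈ s, (x - b q)) * V.valuation x ≤
          V.valuation x ^ (s.card + 1) := by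
        rw [map_mul, ih2, pow_succ]
        refine mul_le_mul_left ?_ _
        exact mul_le_of_le_one_left' (v_sub_le hbj haj)
      rcases le_total (V.valuation ((x - a j) * (∏ q ∈ s, (x - a q) - ∏ q ∈ s, (x - b q))))
        (V.valuation ((b j - a j) * ∏ q ∈ s, (x - b q))) with h | h
      · exact (mul_le_mul_left (V.valuation.map_add_le h le_rfl) _).trans h2
      · exact (mul_le_mul_left (V.valuation.map_add_le le_rfl h) _).trans h1
    · rw [map_mul, ih2, hlin _ hbj, pow_succ']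

/-- a prime number, large, a unit at `V` -/
lemma exists_prime (V : ValuationSubring ℂ) (n : ℕ) :
    ∃ l : ℕ, l.Prime ∧ n < l ∧ V.valuation (l : ℂ) = 1 := by
  obtain ⟨p, hp1, hp⟩ := Nat.exists_infinite_primes (n + 1)
  obtain ⟨q, hq1, hq⟩ := Nat.exists_infinite_primes (p + 1)
  by_cases h1 : V.valuation (p : ℂ) = 1
  · exact ⟨p, hp, by omega, h1⟩
  by_cases h2 : V.valuation (q : ℂ) = 1
  · exact ⟨q, hq, by omega, h2⟩
  exfalso
  have h3 := lt_of_le_of_ne (v_nat V.valuation p) h1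
  have h4 := lt_of_le_of_ne (v_nat V.valuation q) h2
  have hc : Nat.Coprime p q := (Nat.coprime_primes hp hq).2 (by omega)
  have hb : (p : ℤ) * Nat.gcdA p q + (q : ℤ) * Nat.gcdB p q = 1 := by
    have := Nat.gcd_eq_gcd_ab p q
    rw [hc] at this
    exact_mod_cast this.symm
  have hb2 : (p : ℂ) * (Nat.gcdA p q : ℂ) + (q : ℂ) * (Nat.gcdB p q : ℂ) = 1 := by
    exact_mod_cast hb
  have hz : ∀ m : ℤ, V.valuation (m : ℂ) ≤ 1 := fun m =>
    (ValuationSubring.valuation_le_one_iff _ _).2 (intCast_mem V m)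
  have h5 : V.valuation ((p : ℂ) * (Nat.gcdA p q : ℂ) + (q : ℂ) * (Nat.gcdB p q : ℂ)) < 1 := by
    refine V.valuation.map_add_lt ?_ ?_
    · rw [map_mul]; exact mul_lt_one_of_lt_of_le h3 (hz _)
    · rw [map_mul]; exact mul_lt_one_of_lt_of_le h4 (hz _)
  rw [hb2, map_one] at h5
  exact lt_irrefl _ h5

/-- multiples of a point of order `l` -/
lemma mul_mem (M : PeriodPair) (l m : ℕ) (hl : l ≠ 0) (h : (m : ℂ) * (M.ω₁ / l) ∈ M.lattice) :
    l ∣ m := by
  have e : (m : ℂ) * (M.ω₁ / l) = (((m : ℚ) / (l : ℚ) : ℚ) : ℂ) * M.ω₁ +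
      ((0 : ℚ) : ℂ) * M.ω₂ := by
    push_cast; ring
  rw [e, PeriodPair.mul_ω₁_add_mul_ω₂_mem_lattice] at h
  have h1 := h.1
  have h2 : ((m : ℚ) / (l : ℚ)) = ((((m : ℚ) / (l : ℚ)).num : ℤ) : ℚ) :=
    ((Rat.den_eq_one_iff _).1 h1).symm
  have h3 : (m : ℚ) = (l : ℚ) * ((((m : ℚ) / (l : ℚ)).num : ℤ) : ℚ) := by
    rw [← h2, mul_div_cancel₀]
    exact_mod_cast hl
  have h4 : (m : ℤ) = (l : ℤ) * ((m : ℚ) / (l : ℚ)).num := by exact_mod_cast h3
  exact Int.natCast_dvd_natCast.1 ⟨_, h4⟩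

end IT2

open _root_.Pool.Agent.MUX2.IT2 in
/-- Isogenies are integral, in every residue characteristic. -/
theorem t2_IT2 (h1 : Su_BAC) (_h2 : Su_ISO) (h3 : Su_PFI) : S2_IT2 := by
  classical
  intro V L M c c' mu YL YM hGL hGM hmu hI
  obtain ⟨W, ξ, gL⟩ := hGL
  obtain ⟨W', ξ', gM⟩ := hGM
  obtain ⟨⟨R, hR⟩, n, hn, hnz⟩ := h1.2 L M mu hmu hI
  obtain ⟨l, hl, hln, hlv⟩ := exists_prime V (max n 5)
  have hl0 : (l : ℂ) ≠ 0 := by exact_mod_cast hl.ne_zero
  have h5l : 5 < l := lt_of_le_of_lt (le_max_right _ _) hln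
  have hnl : n < l := lt_of_le_of_lt (le_max_left _ _) hln
  have h0 : (0 : ℂ) ∉ R := fun h => hR.ne 0 h (zero_mem _)
  have hmem : ∀ q ∈ insert 0 R, mu * q ∈ M.lattice := by
    intro q hq
    rcases Finset.mem_insert.1 hq with rfl | hq
    · rw [mul_zero]; exact zero_mem _
    · exact hR.mem q hq
  set e : ℂ := M.ω₁ / l with he
  have hle : (l : ℂ) * e = M.ω₁ := mul_div_cancel₀ _ hl0
  -- multiples of `e`
  have hke : ∀ k : ℕ, 0 < k → k < 5 → ∀ m : ℕ, m ≠ 0 → m < l →
      (m : ℂ) * ((k : ℂ) * e) ∉ M.lattice := by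
    intro k hk0 hk5 m hm0 hml hh
    have h4 : ((m * k : ℕ) : ℂ) * (M.ω₁ / l) ∈ M.lattice := by
      rw [← he]; push_cast; rwa [mul_assoc]
    have h5 := mul_mem M l (m * k) hl.ne_zero h4
    rcases hl.dvd_mul.1 h5 with h6 | h6
    · exact absurd (Nat.le_of_dvd (by omega) h6) (by omega)
    · exact absurd (Nat.le_of_dvd (by omega) h6) (by omega)
  have hke1 : ∀ k : ℕ, 0 < k → k < 5 → (k : ℂ) * e ∉ M.lattice := by
    intro k hk0 hk5 hh
    exact hke k hk0 hk5 1 one_ne_zero hl.one_lt (by simpa using hh)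
  have hlk : ∀ k : ℕ, (l : ℂ) * ((k : ℂ) * e) ∈ M.lattice := by
    intro k
    have e1 : (l : ℂ) * ((k : ℂ) * e) = k • M.ω₁ := by
      rw [nsmul_eq_mul, ← hle]; ring
    rw [e1]
    exact nsmul_mem M.ω₁_mem_lattice k
  have hkM : ∀ k : ℕ, 0 < k → k < 5 →
      ¬ InK V M (fun z => M.weierstrassP z - c') ((k : ℂ) * e) := by
    intro k hk0 hk5 hh
    exact hke1 k hk0 hk5 (gmem_of_nat_mul gM hh hlv (hlk k))
  have hkL : ∀ k : ℕ, 0 < k → k < 5 → ∀ z, mu * z - (k : ℂ) * e ∈ M.lattice →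
      ¬ InK V L (fun z => L.weierstrassP z - c) z := by
    intro k hk0 hk5 z hz hh
    have h4 : mu * ((l : ℂ) * z) ∈ M.lattice := by
      have e1 : mu * ((l : ℂ) * z) = l • (mu * z - (k : ℂ) * e) + (l : ℂ) * ((k : ℂ) * e) := by
        rw [nsmul_eq_mul]; ring
      rw [e1]
      exact add_mem (nsmul_mem hz _) (hlk k)
    have h5 := hnz _ h4
    have h6 := gInK_nat gL hh n
    have h7 : (n : ℂ) * z ∈ L.lattice := by
      refine gmem_of_nat_mul gL h6 hlv ?_
      have e2 : (l : ℂ) * ((n : ℂ) * z) = (n : ℂ) * ((l : ℂ) * z) := by ring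
      rwa [e2]
    have h8 := hI _ h7
    have h9 : (n : ℂ) * ((k : ℂ) * e) ∈ M.lattice := by
      have e3 : (n : ℂ) * ((k : ℂ) * e) = mu * ((n : ℂ) * z) - n • (mu * z - (k : ℂ) * e) := by
        rw [nsmul_eq_mul]; ring
      rw [e3]
      exact sub_mem h8 (nsmul_mem hz _)
    exact hke k hk0 hk5 n hn hnl h9
  -- the two points
  set w₁ : ℂ := mu⁻¹ * e with hw₁
  set w₂ : ℂ := mu⁻¹ * (2 * e) with hw₂
  have hm1 : mu * w₁ = ((1 : ℕ) : ℂ) * e := by rw [hw₁, mul_inv_cancel_left₀ hmu]; simp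
  have hm2 : mu * w₂ = ((2 : ℕ) : ℂ) * e := by rw [hw₂, mul_inv_cancel_left₀ hmu]; simp
  have hw1M : mu * w₁ ∉ M.lattice := by rw [hm1]; exact hke1 1 (by norm_num) (by norm_num)
  have hw2M : mu * w₂ ∉ M.lattice := by rw [hm2]; exact hke1 2 (by norm_num) (by norm_num)
  set a : ℂ → ℂ := fun q => L.weierstrassP (w₁ + q) - c with ha
  set b : ℂ → ℂ := fun q => L.weierstrassP (w₂ + q) - c with hb
  have hav : ∀ q ∈ insert 0 R, V.valuation (a q) ≤ 1 := by
    intro q hq
    refine (int_X (X := fun z => L.weierstrassP z - c)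
      (hkL 1 (by norm_num) (by norm_num) (w₁ + q) ?_)).2
    rw [mul_add, hm1, add_sub_cancel_left]
    exact hmem q hq
  have hbv : ∀ q ∈ insert 0 R, V.valuation (b q) ≤ 1 := by
    intro q hq
    refine (int_X (X := fun z => L.weierstrassP z - c)
      (hkL 2 (by norm_num) (by norm_num) (w₂ + q) ?_)).2
    rw [mul_add, hm2, add_sub_cancel_left]
    exact hmem q hq
  set x₁ : ℂ := M.weierstrassP (mu * w₁) - c' with hx₁
  set x₂ : ℂ := M.weierstrassP (mu * w₂) - c' with hx₂
  have hx₁v : V.valuation x₁ ≤ 1 := by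
    rw [hx₁, hm1]
    exact (int_X (X := fun z => M.weierstrassP z - c') (hkM 1 (by norm_num) (by norm_num))).2
  have hunit : V.valuation (x₂ - x₁) = 1 := by
    rw [hx₁, hx₂, hm1, hm2]
    refine gv_X_sub gM (hkM 2 (by norm_num) (by norm_num)) (hkM 1 (by norm_num) (by norm_num)) ?_ ?_
    · have e4 : ((2 : ℕ) : ℂ) * e + ((1 : ℕ) : ℂ) * e = ((3 : ℕ) : ℂ) * e := by push_cast; ring
      rw [e4]; exact hkM 3 (by norm_num) (by norm_num)
    · have e4 : ((2 : ℕ) : ℂ) * e - ((1 : ℕ) : ℂ) * e = ((1 : ℕ) : ℂ) * e := by push_cast; ring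
      rw [e4]; exact hkM 1 (by norm_num) (by norm_num)
  -- the product formulas
  have hpf : ∀ (w : ℂ), mu * w ∉ M.lattice → ∀ z, mu * z ∉ M.lattice →
      mu ^ 2 * ((M.weierstrassP (mu * z) - c') - (M.weierstrassP (mu * w) - c')) *
        ∏ q ∈ R, (L.weierstrassP z - L.weierstrassP q) =
      ∏ q ∈ insert 0 R, ((L.weierstrassP z - c) - (L.weierstrassP (w + q) - c)) := by
    intro w hw z hz
    rw [Finset.prod_insert h0, add_zero]
    simp only [sub_sub_sub_cancel_right]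
    exact h3 L M mu R hmu hI hR w hw z hz
  have hdiff : ∀ z, mu * z ∉ M.lattice →
      mu ^ 2 * (x₂ - x₁) * ∏ q ∈ R, (L.weierstrassP z - L.weierstrassP q) =
      ∏ q ∈ insert 0 R, ((L.weierstrassP z - c) - a q) -
        ∏ q ∈ insert 0 R, ((L.weierstrassP z - c) - b q) := by
    intro z hz
    rw [ha, hb]
    simp only
    rw [← hpf w₁ hw1M z hz, ← hpf w₂ hw2M z hz, ← hx₁, ← hx₂]
    ring
  have hcard : (insert 0 R : Finset ℂ).card = R.card + 1 := Finset.card_insert_of_notMem h0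
  have hbound : ∀ z, mu * z ∉ M.lattice → 1 < V.valuation (L.weierstrassP z - c) →
      V.valuation (mu ^ 2 * ∏ q ∈ R, (L.weierstrassP z - L.weierstrassP q)) ≤
        V.valuation (L.weierstrassP z - c) ^ R.card := by
    intro z hz hx
    have h4 := (prod_diff V (insert 0 R) a b (L.weierstrassP z - c) hav hbv hx).1
    rw [← hdiff z hz, hcard, pow_succ (V.valuation (L.weierstrassP z - c)) R.card] at h4
    have h5 : V.valuation (mu ^ 2 * (x₂ - x₁) * ∏ q ∈ R, (L.weierstrassP z - L.weierstrassP q)) =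
        V.valuation (mu ^ 2 * ∏ q ∈ R, (L.weierstrassP z - L.weierstrassP q)) := by
      simp only [map_mul, hunit, mul_one]
    rw [h5] at h4
    exact le_of_mul_le_mul_right h4 (zero_lt_one.trans hx)
  constructor
  · by_contra hcon
    rw [not_le] at hcon
    -- an element of large valuation
    have hbig : ∀ s : Finset ℂ, ∃ m : ℂ, 1 ≤ V.valuation m ∧
        ∀ q ∈ s, V.valuation (L.weierstrassP q - c) ≤ V.valuation m := by
      intro s
      induction s using Finset.induction_on with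
      | empty => exact ⟨1, by simp, by simp⟩
      | insert j s hj ih =>
        obtain ⟨m, hm1, hm2⟩ := ih
        rcases le_total (V.valuation (L.weierstrassP j - c)) (V.valuation m) with h4 | h4
        · refine ⟨m, hm1, fun q hq => ?_⟩
          rcases Finset.mem_insert.1 hq with rfl | hq
          · exact h4
          · exact hm2 q hq
        · refine ⟨L.weierstrassP j - c, hm1.trans h4, fun q hq => ?_⟩
          rcases Finset.mem_insert.1 hq with rfl | hq
          · exact le_rfl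
          · exact (hm2 q hq).trans h4
    obtain ⟨m, hm1', hm2'⟩ := hbig R
    obtain ⟨z, hzL, hz⟩ := b_SUR L (mu * m + c)
    have hx : L.weierstrassP z - c = mu * m := by rw [hz]; ring
    have hmpos : 0 < V.valuation m := zero_lt_one.trans_le hm1'
    have hxm : V.valuation m < V.valuation (L.weierstrassP z - c) := by
      rw [hx, map_mul]
      exact lt_mul_of_one_lt_left hmpos hcon
    have hx1 : 1 < V.valuation (L.weierstrassP z - c) := hm1'.trans_lt hxm
    have hzM : mu * z ∉ M.lattice := by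
      intro h4
      obtain ⟨q, hq, hq'⟩ := hR.surj z h4 hzL
      have h5 : L.weierstrassP z = L.weierstrassP q := by
        have h6 := L.weierstrassP_add_coe q ⟨z - q, hq'⟩
        have h7 : q + (z - q) = z := by ring
        simp only [h7] at h6
        exact h6
      have h8 := hm2' q hq
      rw [← h5] at h8
      exact absurd h8 (not_le.2 hxm)
    have h4 := hbound z hzM hx1
    have h5 : V.valuation (∏ q ∈ R, (L.weierstrassP z - L.weierstrassP q)) =
        V.valuation (L.weierstrassP z - c) ^ R.card := by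
      rw [map_prod, ← Finset.prod_const]
      refine Finset.prod_congr rfl fun q hq => ?_
      have e5 : L.weierstrassP z - L.weierstrassP q =
        (L.weierstrassP z - c) - (L.weierstrassP q - c) := by ring
      rw [e5]
      exact V.valuation.map_sub_eq_of_lt_left ((hm2' q hq).trans_lt hxm)
    rw [map_mul, h5, map_pow] at h4
    have h6 : V.valuation mu ^ 2 ≤ 1 := by
      refine le_of_mul_le_mul_right (a := V.valuation (L.weierstrassP z - c) ^ R.card) ?_ ?_
      · rwa [one_mul]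
      · exact pow_pos (zero_lt_one.trans hx1) _
    exact absurd h6 (not_le.2 (one_lt_pow₀ hcon two_ne_zero))
  · intro z hz
    by_cases hzL : z ∈ L.lattice
    · exact Or.inl (hI _ hzL)
    have hzV := hz.resolve_left hzL
    by_cases hzM : mu * z ∈ M.lattice
    · exact Or.inl hzM
    refine Or.inr ?_
    have hx1 : 1 < V.valuation (L.weierstrassP z - c) := by
      rw [← not_le, ValuationSubring.valuation_le_one_iff]
      exact hzV
    intro hcon
    have hcv : V.valuation (M.weierstrassP (mu * z) - c') ≤ 1 :=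
      (ValuationSubring.valuation_le_one_iff _ _).2 hcon
    have h4 := (prod_diff V (insert 0 R) a a (L.weierstrassP z - c) hav hav hx1).2
    have h5 := hpf w₁ hw1M z hzM
    have h6 := hbound z hzM hx1
    have h7 : ∏ q ∈ insert 0 R, ((L.weierstrassP z - c) - (L.weierstrassP (w₁ + q) - c)) =
      ∏ q ∈ insert 0 R, ((L.weierstrassP z - c) - a q) := rfl
    rw [h7] at h5
    rw [← h5, hcard, pow_succ (V.valuation (L.weierstrassP z - c)) R.card] at h4
    have h8 : mu ^ 2 * ((M.weierstrassP (mu * z) - c') - (M.weierstrassP (mu * w₁) - c')) *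
        ∏ q ∈ R, (L.weierstrassP z - L.weierstrassP q) =
        ((M.weierstrassP (mu * z) - c') - (M.weierstrassP (mu * w₁) - c')) *
        (mu ^ 2 * ∏ q ∈ R, (L.weierstrassP z - L.weierstrassP q)) := by ring
    rw [h8, map_mul] at h4
    have h9 : V.valuation ((M.weierstrassP (mu * z) - c') - (M.weierstrassP (mu * w₁) - c')) ≤ 1 :=
      v_sub_le hcv hx₁v
    have h10 : V.valuation (L.weierstrassP z - c) ^ R.card * V.valuation (L.weierstrassP z - c) ≤
        V.valuation (L.weierstrassP z - c) ^ R.card * 1 := by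
      rw [← h4, mul_one]
      exact (mul_le_of_le_one_left' h9).trans h6
    have h11 : V.valuation (L.weierstrassP z - c) ≤ 1 :=
      le_of_mul_le_mul_left h10 (pow_pos (zero_lt_one.trans hx1) _)
    exact absurd h11 (not_le.2 hx1)

end

end Pool.Agent.MUX2


end

section

/-! # Block R3 of the project MUX, assembled: `r3_X : S3_X` without hypotheses (helper83) -/

set_option autoImplicit false

namespace Pool.Agent.MUX3

open _root_.Pool.Agent.MUX2 _root_.Pool.Agent.MUXU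

theorem r3_GR2 : S2_GR2 := t2_GR2
theorem r3_IT2 : S2_IT2 := t2_IT2 u_BAC u_ISO u_PFI
theorem r3_TRI : S3_TRI := t3_TRI
theorem r3_VEL : S3_VEL := t3_VEL u_ISO u_DER
theorem r3_PAR : S3_PAR := t3_PAR r3_TRI
theorem r3_NRM : S3_NRM := t3_NRM r3_VEL r3_PAR
theorem r3_DUA : S3_DUA := t3_DUA r3_TRI r3_PAR r3_NRM
theorem r3_JEQ : S3_JEQ := t3_JEQ r3_PAR
theorem r3_CHN : S3_CHN := t3_CHN
theorem r3_CIN : S3_CIN := t3_CIN
theorem r3_CH3 : S3_CH3 := t3_CH3 r3_DUA r3_JEQ r3_PAR
theorem r3_GD3 : S3_GD3 := t3_GD3 r3_CHN r3_CH3 r3_NRM r3_PAR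
theorem r3_IN3 : S3_IN3 := t3_IN3 r3_CH3 r3_GD3 r3_CIN u_DET r3_PAR
theorem r3_E13 : S3_E13 := t3_E13 r3_GD3 r3_NRM r3_PAR r3_GR2 r3_IT2 r3_CH3
theorem r3_MU3 : S3_MU3 := t3_MU3 r3_GD3 r3_GR2 r3_IT2

end Pool.Agent.MUX3


end

section

/-!
# MUX, block R2, module VEL: the quotient by a point of order two (helper85)
-/

set_option autoImplicit false

namespace Pool.Agent.MUX2

open _root_.MU3 _root_.Pool.Agent.MU3A _root_.Pool.Agent.MU3B _root_.Pool.Agent.MUX _root_.Pool.Agent.MUXU WeierstrassCurve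
open Polynomial

namespace VEL

/-- a polynomial of degree at most six without constant term which vanishes on `ℂ` -/
theorem coefs {c1 c2 c3 c4 c5 c6 : ℂ}
    (h : ∀ s : ℂ, c1 * s + c2 * s ^ 2 + c3 * s ^ 3 + c4 * s ^ 4 + c5 * s ^ 5 + c6 * s ^ 6 = 0) :
    c1 = 0 ∧ c2 = 0 ∧ c3 = 0 ∧ c4 = 0 := by
  have a1 := h 1
  have a2 := h (-1)
  have b1 := h 2
  have b2 := h (-2)
  have d1 := h 3
  have d2 := h (-3)
  have o1 : c1 + c3 + c5 = 0 := by linear_combination (a1 - a2) / 2
  have o2 : c1 + 4 * c3 + 16 * c5 = 0 := by linear_combination (b1 - b2) / 4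
  have o3 : c1 + 9 * c3 + 81 * c5 = 0 := by linear_combination (d1 - d2) / 6
  have e1 : c2 + c4 + c6 = 0 := by linear_combination (a1 + a2) / 2
  have e2 : c2 + 4 * c4 + 16 * c6 = 0 := by linear_combination (b1 + b2) / 8
  have e3 : c2 + 9 * c4 + 81 * c6 = 0 := by linear_combination (d1 + d2) / 18
  refine ⟨?_, ?_, ?_, ?_⟩
  · linear_combination 3 / 2 * o1 - 3 / 5 * o2 + 1 / 10 * o3
  · linear_combination 3 / 2 * e1 - 3 / 5 * e2 + 1 / 10 * e3
  · linear_combination -13 / 24 * o1 + 2 / 3 * o2 - 1 / 8 * o3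
  · linear_combination -13 / 24 * e1 + 2 / 3 * e2 - 1 / 8 * e3

/-- the algebra: the differential equation determines the numerator and the invariants -/
theorem alg {g2 g3 G2 G3 mu e : ℂ} (hmu : mu ≠ 0) (he : 4 * e ^ 3 - g2 * e - g3 = 0)
    {A : ℂ[X]} (hA : A.Monic) (hd : A.natDegree = 2)
    (hode : OdeP g2 g3 G2 G3 mu A (C (mu ^ 2) * (X - C e)))
    (hc : IsCoprime A (C (mu ^ 2) * (X - C e))) :
    3 * e ^ 2 - g2 / 4 ≠ 0 ∧ mu ^ 4 * G2 = 60 * e ^ 2 - 4 * g2 ∧
      mu ^ 6 * G3 = 88 * e ^ 3 - 8 * e * g2 ∧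
      (∀ x : ℂ, A.eval x = (x - e) * x + (3 * e ^ 2 - g2 / 4)) ∧
      ∀ x : ℂ, (derivative A * (C (mu ^ 2) * (X - C e)) - A * derivative (C (mu ^ 2) * (X - C e))).eval x =
        mu ^ 2 * ((x - e) ^ 2 - (3 * e ^ 2 - g2 / 4)) := by
  obtain ⟨a, b, hab⟩ : ∃ a b : ℂ, A = X ^ 2 + C a * X + C b := by
    refine ⟨A.coeff 1, A.coeff 0, ?_⟩
    have h1 : A.natDegree ≤ 2 := hd.le
    have h2 := Polynomial.eq_quadratic_of_degree_le_two (Polynomial.degree_le_of_natDegree_le h1)
    have h3 : A.coeff 2 = 1 := by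
      rw [← hd]
      exact hA
    rw [h3] at h2
    simpa using h2
  set A0 : ℂ := e ^ 2 + a * e + b with hA0
  set A1 : ℂ := 2 * e + a with hA1
  set t : ℂ := 3 * e ^ 2 - g2 / 4 with ht
  have hAe : ∀ s : ℂ, A.eval (e + s) = s ^ 2 + A1 * s + A0 := by
    intro s
    rw [hab, hA1, hA0]
    simp only [eval_add, eval_mul, eval_pow, eval_X, eval_C]
    ring
  have hdA : derivative A = C 2 * X + C a := by
    rw [hab]
    simp only [derivative_add, derivative_mul, derivative_X_pow, derivative_C, derivative_X]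
    simp
  have hdB : derivative (C (mu ^ 2) * (X - C e)) = C (mu ^ 2) := by
    simp only [derivative_mul, derivative_sub, derivative_C, derivative_X]
    simp
  have hW : ∀ s : ℂ, (derivative A * (C (mu ^ 2) * (X - C e)) -
      A * derivative (C (mu ^ 2) * (X - C e))).eval (e + s) = mu ^ 2 * (s ^ 2 - A0) := by
    intro s
    rw [hdB, hdA, eval_sub, eval_mul (p := A), hAe]
    simp only [eval_add, eval_mul, eval_sub, eval_X, eval_C]
    rw [hA1, hA0]
    ring
  have hA0n : A0 ≠ 0 := by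
    intro h0
    obtain ⟨u, v, huv⟩ := hc
    have h1 := congrArg (Polynomial.eval e) huv
    have h2 : A.eval e = 0 := by
      have := hAe 0
      rw [add_zero] at this
      rw [this, h0]
      ring
    rw [eval_add, eval_mul, eval_mul, h2, eval_mul, eval_sub, eval_X, eval_C, eval_C] at h1
    simp at h1
  have hfun : ∀ s : ℂ, (4 * A0 ^ 2 * t - 4 * A0 ^ 3) * s + (12 * e * A0 ^ 2 - 12 * A1 * A0 ^ 2) * s ^ 2 +
      (4 * A0 ^ 2 - 8 * A0 * t - 12 * A0 ^ 2 - 12 * A0 * A1 ^ 2 + mu ^ 4 * G2 * A0) * s ^ 3 +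
      (-24 * A0 * e - 4 * (A1 ^ 3 + 6 * A0 * A1) + mu ^ 4 * G2 * A1 + mu ^ 6 * G3) * s ^ 4 +
      (4 * t - 8 * A0 - 4 * (3 * A1 ^ 2 + 3 * A0) + mu ^ 4 * G2) * s ^ 5 +
      (12 * e - 12 * A1) * s ^ 6 = 0 := by
    intro s
    have h1 := congrArg (Polynomial.eval (e + s)) hode
    rw [eval_mul, eval_pow, hW] at h1
    simp only [eval_mul, eval_sub, eval_pow, eval_X, eval_C, eval_ofNat, hAe] at h1
    have hm4 : mu ^ 4 ≠ 0 := pow_ne_zero _ hmu
    apply mul_left_cancel₀ hm4
    rw [mul_zero]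
    linear_combination h1 - mu ^ 4 * (s ^ 2 - A0) ^ 2 * he
  obtain ⟨k1, k2, k3, k4⟩ := coefs hfun
  have r1 : A0 = t := by
    have : 4 * A0 ^ 2 * (t - A0) = 0 := by linear_combination k1
    rcases mul_eq_zero.mp this with h | h
    · exact absurd h (mul_ne_zero (by norm_num) (pow_ne_zero _ hA0n))
    · exact (sub_eq_zero.mp h).symm
  have r2 : A1 = e := by
    have : 12 * A0 ^ 2 * (e - A1) = 0 := by linear_combination k2
    rcases mul_eq_zero.mp this with h | h
    · exact absurd h (mul_ne_zero (by norm_num) (pow_ne_zero _ hA0n))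
    · exact (sub_eq_zero.mp h).symm
  have r3 : mu ^ 4 * G2 = 60 * e ^ 2 - 4 * g2 := by
    have : A0 * (mu ^ 4 * G2 - (8 * A0 + 8 * t + 12 * A1 ^ 2)) = 0 := by linear_combination k3
    rcases mul_eq_zero.mp this with h | h
    · exact absurd h hA0n
    · rw [r1, r2, ht] at h
      linear_combination h
  have r4 : mu ^ 6 * G3 = 88 * e ^ 3 - 8 * e * g2 := by
    rw [r3, r1, r2, ht] at k4
    linear_combination k4
  refine ⟨by rw [← r1]; exact hA0n, r3, r4, fun x => ?_, fun x => ?_⟩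
  · have := hAe (x - e)
    rw [add_sub_cancel, r1, r2] at this
    rw [this]
    ring
  · have := hW (x - e)
    rw [add_sub_cancel, r1] at this
    exact this

end VEL

theorem t2_VEL (h1 : Su_ISO) (h2 : Su_DER) : S2_VEL := by
  intro L M mu w hT
  have hper := hT.ker
  have hIsg : Isg L M mu := fun v hv => (hper v).mpr (Or.inl hv)
  have hRp : IsRpM L M mu {w} := by
    constructor
    · intro q hq
      rw [Finset.mem_singleton] at hq
      rw [hq]
      refine (hper w).mpr (Or.inr ?_)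
      rw [sub_self]
      exact zero_mem _
    · intro q hq
      rw [Finset.mem_singleton] at hq
      rw [hq]
      exact hT.w_ne
    · intro q hq q' hq' _
      rw [Finset.mem_singleton] at hq hq'
      rw [hq, hq']
    · intro z hz hzL
      rcases (hper z).mp hz with h | h
      · exact absurd h hzL
      · exact ⟨w, Finset.mem_singleton_self w, h⟩
  obtain ⟨A, hA, hd, hode, hiso⟩ := h1 L M mu {w} hT.mu_ne hIsg hRp
  rw [Finset.prod_singleton] at hode hiso
  rw [Finset.card_singleton] at hd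
  have hw0 : L.derivWeierstrassP w = 0 := (b_ZER L w hT.w_ne).mpr hT.w2
  set e : ℂ := L.weierstrassP w with he
  have hcub : 4 * e ^ 3 - L.g₂ * e - L.g₃ = 0 := by
    have := PeriodPair.derivWeierstrassP_sq L w hT.w_ne
    rw [hw0] at this
    rw [he, ← this]
    ring
  obtain ⟨c1, c2, c3, c4, c5⟩ := VEL.alg hT.mu_ne hcub hA hd hode hiso.cop
  refine ⟨c1, c2, c3, fun z hz => ?_⟩
  have hzL : z ∉ L.lattice := fun h => hz ((hper z).mpr (Or.inl h))
  have hzw : z - w ∉ L.lattice := fun h => hz ((hper z).mpr (Or.inr h))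
  have hzw' : z + w ∉ L.lattice := by
    intro h
    apply hzw
    have : z - w = (z + w) - 2 * w := by ring
    rw [this]
    exact sub_mem h hT.w2
  have hne : L.weierstrassP z - e ≠ 0 := by
    intro h
    rcases b_NEQ L w z hT.w_ne hzL (sub_eq_zero.mp h) with h' | h'
    · exact hzw h'
    · exact hzw' h'
  set x : ℂ := L.weierstrassP z with hx
  have hsq : L.derivWeierstrassP z ^ 2 = 4 * x ^ 3 - L.g₂ * x - L.g₃ :=
    PeriodPair.derivWeierstrassP_sq L z hzL
  refine ⟨hne, ?_, ?_, ?_⟩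
  · have hadd := (b_ADD L w z hT.w_ne hzL hzw' hzw).1
    rw [hw0, sub_zero, div_pow, hsq, ← hx, ← he] at hadd
    have hfac : (4 * x ^ 3 - L.g₂ * x - L.g₃) / (2 * (x - e)) ^ 2 =
        (x ^ 2 + x * e + e ^ 2 - L.g₂ / 4) / (x - e) := by
      rw [div_eq_div_iff (pow_ne_zero _ (mul_ne_zero two_ne_zero hne)) hne]
      linear_combination (x - e) * hcub
    rw [hfac] at hadd
    have : L.weierstrassP (z + w) = (x ^ 2 + x * e + e ^ 2 - L.g₂ / 4) / (x - e) - x - e := by
      linear_combination hadd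
    rw [this]
    field_simp
    ring
  · have hP := hiso.P z hzL hz
    rw [c4 x] at hP
    rw [eval_mul, eval_sub, eval_C, eval_X, eval_C, ← hx] at hP
    have h5 : mu ^ 2 * M.weierstrassP (mu * z) = ((x - e) * x + (3 * e ^ 2 - L.g₂ / 4)) / (x - e) := by
      rw [eq_div_iff hne]
      linear_combination hP
    rw [h5, add_div, mul_div_cancel_left₀ _ hne]
  · have hD := h2 L M mu A _ hiso z hzL hz
    rw [c5 x] at hD
    rw [eval_mul, eval_sub, eval_C, eval_X, eval_C, ← hx] at hD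
    have hm2 : mu ^ 2 ≠ 0 := pow_ne_zero _ hT.mu_ne
    have h3 : mu ^ 3 * M.derivWeierstrassP (mu * z) * (x - e) ^ 2 =
        ((x - e) ^ 2 - (3 * e ^ 2 - L.g₂ / 4)) * L.derivWeierstrassP z := by
      apply mul_left_cancel₀ hm2
      linear_combination hD
    have h4 : mu ^ 3 * M.derivWeierstrassP (mu * z) =
        ((x - e) ^ 2 - (3 * e ^ 2 - L.g₂ / 4)) * L.derivWeierstrassP z / (x - e) ^ 2 := by
      rw [eq_div_iff (pow_ne_zero _ hne)]
      exact h3
    rw [h4]
    field_simp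

end Pool.Agent.MUX2


end

section

/-!
# MUX, block R2: module JEQ (the parameters of two different points of order two)
-/

set_option autoImplicit false

namespace Pool.Agent.MUX2

open _root_.MU3 _root_.Pool.Agent.MU3A _root_.Pool.Agent.MU3B _root_.Pool.Agent.MUX _root_.Pool.Agent.MUXU WeierstrassCurve

noncomputable section

theorem t2_JEQ (h1 : S2_PAR) : S2_JEQ := by
  intro L w w' hw h2w hw' h2w' hne hg
  obtain ⟨s0, s8, s64, k0, hx, hk⟩ := h1 L w hw h2w hg
  obtain ⟨s0', s8', s64', k0', hx', hk'⟩ := h1 L w' hw' h2w' hg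
  have hdiff : par L w ≠ par L w' := by
    intro he
    have e1 : L.weierstrassP w' = L.weierstrassP w := by
      have e2 : xn L w' = xn L w := by rw [hx, hx', he]
      unfold xn at e2
      exact sub_left_injective e2
    rcases b_NEQ L w w' hw hw' e1 with h | h
    · exact hne h
    · apply hne
      have e3 : w' - w = (w' + w) - 2 * w := by ring
      rw [e3]
      exact sub_mem h h2w
  generalize par L w = s at *
  generalize par L w' = s' at *
  have hcross : s * ((s' - 8) ^ 2 * (s' + 64)) = s' * ((s - 8) ^ 2 * (s + 64)) := by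
    have e : s / ((s - 8) ^ 2 * (s + 64)) = s' / ((s' - 8) ^ 2 * (s' + 64)) := by
      rw [← hk, ← hk']
    rwa [div_eq_div_iff (mul_ne_zero (pow_ne_zero _ s8) s64)
      (mul_ne_zero (pow_ne_zero _ s8') s64')] at e
  have hz : (s - s') * (4096 - s * s' * (s + s' + 48)) = 0 := by
    linear_combination hcross
  rcases mul_eq_zero.1 hz with h | h
  · exact absurd (sub_eq_zero.1 h) hdiff
  · exact (sub_eq_zero.1 h).symm

end

end Pool.Agent.MUX2


end

section

/-!
# MUX, block R2: module DUA (helper23): the dual isogeny of degree two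
-/

set_option autoImplicit false

namespace Pool.Agent.MUX2

open _root_.MU3 _root_.Pool.Agent.MU3A _root_.Pool.Agent.MU3B _root_.Pool.Agent.MUX _root_.Pool.Agent.MUXU WeierstrassCurve

noncomputable section

namespace DUA

theorem half (L : PeriodPair) (u : ℂ) (m n : ℤ) (h : m * L.ω₁ + n * L.ω₂ = 2 * u)
    (hm : m % 2 = 0) (hn : n % 2 = 0) : u ∈ L.lattice := by
  rw [PeriodPair.mem_lattice]
  refine ⟨m / 2, n / 2, ?_⟩
  have e1 : m = 2 * (m / 2) := by omega
  have e2 : n = 2 * (n / 2) := by omega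
  have e3 : (m : ℂ) = 2 * ((m / 2 : ℤ) : ℂ) := by
    conv_lhs => rw [e1]
    push_cast
    ring
  have e4 : (n : ℂ) = 2 * ((n / 2 : ℤ) : ℂ) := by
    conv_lhs => rw [e2]
    push_cast
    ring
  rw [e3, e4] at h
  linear_combination h / 2

/-- the points of order two -/
theorem cls (L : PeriodPair) (w w' z : ℂ) (hw : w ∉ L.lattice) (h2w : 2 * w ∈ L.lattice)
    (hw' : w' ∉ L.lattice) (h2w' : 2 * w' ∈ L.lattice) (hne : w' - w ∉ L.lattice)
    (h2z : 2 * z ∈ L.lattice) :
    (z ∈ L.lattice ∨ z - w ∈ L.lattice) ∨ z - w' ∈ L.lattice ∨ z - w' - w ∈ L.lattice := by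
  obtain ⟨a, b, hab⟩ := PeriodPair.mem_lattice.1 h2w
  obtain ⟨c, d, hcd⟩ := PeriodPair.mem_lattice.1 h2w'
  obtain ⟨e, f, hef⟩ := PeriodPair.mem_lattice.1 h2z
  have h1 : ¬ (a % 2 = 0 ∧ b % 2 = 0) := fun h => hw (half L w a b hab h.1 h.2)
  have h2 : ¬ (c % 2 = 0 ∧ d % 2 = 0) := fun h => hw' (half L w' c d hcd h.1 h.2)
  have h3 : ¬ ((c - a) % 2 = 0 ∧ (d - b) % 2 = 0) := fun h => hne (half L (w' - w) (c - a) (d - b)
    (by push_cast; linear_combination hcd - hab) h.1 h.2)
  have h4 : (e % 2 = 0 ∧ f % 2 = 0) ∨ ((e - a) % 2 = 0 ∧ (f - b) % 2 = 0) ∨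
      ((e - c) % 2 = 0 ∧ (f - d) % 2 = 0) ∨ ((e - c - a) % 2 = 0 ∧ (f - d - b) % 2 = 0) := by
    omega
  rcases h4 with h | h | h | h
  · exact Or.inl (Or.inl (half L z e f hef h.1 h.2))
  · exact Or.inl (Or.inr (half L (z - w) (e - a) (f - b)
      (by push_cast; linear_combination hef - hab) h.1 h.2))
  · exact Or.inr (Or.inl (half L (z - w') (e - c) (f - d)
      (by push_cast; linear_combination hef - hcd) h.1 h.2))
  · exact Or.inr (Or.inr (half L (z - w' - w) (e - c - a) (f - d - b)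
      (by push_cast; linear_combination hef - hcd - hab) h.1 h.2))

theorem cubic (L : PeriodPair) (w : ℂ) (hw : w ∉ L.lattice) (h2w : 2 * w ∈ L.lattice)
    (hg : L.g₂ = -18 * L.g₃) :
    xn L w ^ 3 + xn L w ^ 2 / 4 - 36 * kap L * xn L w - kap L = 0 := by
  have h1 := L.derivWeierstrassP_sq w hw
  have h2 := (b_ZER L w hw).2 h2w
  rw [h2] at h1
  unfold xn kap
  have e3 : L.g₃ = -L.g₂ / 18 := by rw [hg]; ring
  rw [e3] at h1
  linear_combination (-1 / 4) * h1

end DUA

open _root_.Pool.Agent.MUX2.DUA in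
theorem t2_DUA (h1 : S2_NRM) : S2_DUA := by
  intro L M mu w w' hT hgL hgM hw' h2w' hne
  obtain ⟨s0, s8, s64, s16, s256, s512, k0, hx, hk, -, hmu, hz⟩ := h1 L M mu w hT hgL hgM
  have hnM : mu * w' ∉ M.lattice := by
    intro h
    rcases (hT.ker w').1 h with h2 | h2
    · exact hw' h2
    · exact hne h2
  refine ⟨⟨div_ne_zero two_ne_zero hT.mu_ne, hnM, ?_, ?_⟩, ?_⟩
  · have e : 2 * (mu * w') = mu * (2 * w') := by ring
    rw [e]
    exact (hT.ker _).2 (Or.inl h2w')
  · intro u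
    obtain ⟨z, rfl⟩ : ∃ z, u = mu * z := ⟨u / mu, by field_simp [hT.mu_ne]⟩
    have e1 : 2 / mu * (mu * z) = 2 * z := by
      have := hT.mu_ne
      field_simp
    have e2 : mu * z - mu * w' = mu * (z - w') := by ring
    rw [e1, e2, hT.ker, hT.ker]
    constructor
    · intro h
      exact cls L w w' z hT.w_ne hT.w2 hw' h2w' hne h
    · rintro ((h | h) | (h | h))
      · rw [two_mul]
        exact add_mem h h
      · have e : 2 * z = (z - w) + (z - w) + 2 * w := by ring
        rw [e]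
        exact add_mem (add_mem h h) hT.w2
      · have e : 2 * z = (z - w') + (z - w') + 2 * w' := by ring
        rw [e]
        exact add_mem (add_mem h h) h2w'
      · have e : 2 * z = (z - w' - w) + (z - w' - w) + 2 * w' + 2 * w := by ring
        rw [e]
        exact add_mem (add_mem (add_mem h h) h2w') hT.w2
  · obtain ⟨hd, hf⟩ := hz w' hnM
    have c1 := cubic L w hT.w_ne hT.w2 hgL
    have c2 := cubic L w' hw' h2w' hgL
    -- the quadratic
    have hq : xn L w' ^ 2 + (xn L w + 1 / 4) * xn L w' + xn L w ^ 2 + xn L w / 4 -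
        36 * kap L = 0 := by
      have h3 : (xn L w' - xn L w) * (xn L w' ^ 2 + (xn L w + 1 / 4) * xn L w' + xn L w ^ 2 +
          xn L w / 4 - 36 * kap L) = 0 := by
        linear_combination c2 - c1
      exact (mul_eq_zero.1 h3).resolve_left hd
    have hmu0 := hT.mu_ne
    generalize hs : par L w = s at *
    generalize hy : xn M (mu * w') = y at *
    generalize hX : xn L w' = X at *
    rw [hx] at hq hf hd
    rw [hk] at hq
    have h5 : mu ^ 2 * y = -1 / 6 - 2 * (2 / (s - 8)) - mu ^ 2 / 12 := by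
      have h6 : X + (s + 16) ^ 2 / ((s - 8) ^ 2 * (s + 64)) / (X - 2 / (s - 8)) =
          -1 / 4 - 2 * (2 / (s - 8)) := by
        have h7 : (s + 16) ^ 2 / ((s - 8) ^ 2 * (s + 64)) =
            (-1 / 4 - 2 * (2 / (s - 8)) - X) * (X - 2 / (s - 8)) := by
          have h8 : (s + 16) ^ 2 / ((s - 8) ^ 2 * (s + 64)) =
              3 * (2 / (s - 8)) ^ 2 + (2 / (s - 8)) / 2 - 36 * (s / ((s - 8) ^ 2 * (s + 64))) := by
            field_simp
            ring
          rw [h8]
          linear_combination hq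
        rw [h7, mul_div_assoc, div_self hd]
        ring
      rw [h6] at hf
      linear_combination hf
    have h9 : y = -s / (4 * (s - 512)) := by
      have h10 : mu ^ 2 ≠ 0 := pow_ne_zero _ hmu0
      apply mul_left_cancel₀ h10
      rw [h5, hmu]
      field_simp
      ring
    unfold par
    rw [hy, h9]
    field_simp
    ring

end

end Pool.Agent.MUX2


end

section

/-!
# MUX, block R2 (places above 2): all statements, without hypotheses (helper77)
-/

set_option autoImplicit false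

namespace Pool.Agent.MUX2

open _root_.Pool.Agent.MUXU

theorem r2_PAR : S2_PAR := t2_PAR
theorem r2_VEL : S2_VEL := t2_VEL u_ISO u_DER
theorem r2_NRM : S2_NRM := t2_NRM r2_VEL
theorem r2_DUA : S2_DUA := t2_DUA r2_NRM
theorem r2_JEQ : S2_JEQ := t2_JEQ r2_PAR
theorem r2_CHN : S2_CHN := t2_CHN
theorem r2_CIN : S2_CIN := t2_CIN
theorem r2_CH2 : S2_CH2 := t2_CH2 r2_NRM r2_DUA r2_JEQ
theorem r2_GD2 : S2_GD2 := t2_GD2 r2_CHN r2_CH2 r2_NRM
theorem r2_IN2 : S2_IN2 := t2_IN2 r2_CH2 r2_GD2 r2_CIN u_DET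
theorem r2_GR2 : S2_GR2 := t2_GR2
theorem r2_IT2 : S2_IT2 := t2_IT2 u_BAC u_ISO u_PFI
theorem r2_E12 : S2_E12 := t2_E12 r2_NRM r2_GD2 r2_GR2 r2_IT2 r2_CH2
theorem r2_MU2 : S2_MU2 := t2_MU2 r2_GD2 r2_GR2 r2_IT2

end Pool.Agent.MUX2


end

section

/-!
# MUX, block E: `RedE 2` from helper77's block R2 (helper66)
-/

set_option autoImplicit false

namespace Pool.Agent.MUXE

open WeierstrassCurve
open _root_.MU3 _root_.Pool.Agent.MU3A _root_.Pool.Agent.MU3B _root_.Pool.Agent.MUX _root_.Pool.Agent.MUXU _root_.Pool.Agent.RI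
open _root_.Pool.Agent.MUX2

noncomputable section

lemma red_kap {L M : PeriodPair} (h : L.lattice = M.lattice) : kap L = kap M := by
  have h1 : L.g₂ = M.g₂ := by
    unfold PeriodPair.g₂ PeriodPair.G
    rw [h]
  unfold kap
  rw [h1]

/-- `v(emb x) = 1` for `x ∉ P`, `v(emb x) < 1` for `x ∈ P` -/
lemma red_over {A B : ℤ} (hr : RingE A B) {P : Ideal (OO A B)} {V : ValuationSubring ℂ}
    (hV : OverI V P) :
    (∀ x ∈ P, V.valuation (emb x) < 1) ∧ (∀ x ∉ P, V.valuation (emb x) = 1) := by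
  constructor
  · intro x hx
    have h := (hV x).2 hx
    rwa [ValuationSubring.mem_nonunits_iff] at h
  · intro x hx
    have h1 : V.valuation (emb x) ≤ 1 := PA.val_le hr V x
    have h2 : ¬ V.valuation (emb x) < 1 := fun h => hx ((hV x).1 (by
      rwa [ValuationSubring.mem_nonunits_iff]))
    exact le_antisymm h1 (not_lt.1 h2)

theorem red2 (h1 : S2_GD2) (h2 : S2_IN2) (h3 : S2_GR2) (h4 : S2_CH2) :
    ∀ (A B : ℤ), CaseP 2 A B → RingE A B → LatFacts A B → ∀ P : Ideal (OO A B), IsPN 2 P →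
    ∀ V : ValuationSubring ℂ, OverI V P → RedE 2 P V := by
  intro A B hC hr hF P hP V hV
  have h8 : (8 : ℤ) ∣ B ^ 2 + 4 * A - 1 := by
    rcases hC.split with ⟨h, -⟩ | ⟨-, h⟩
    · norm_num at h
    · exact h
  have hcq := CH2.cq hC.toCQ
  obtain ⟨hP0, h2P, hPQ⟩ := CH2.pq hcq hP
  obtain ⟨hQn, hQ2, hQ0, -⟩ := (CH2.nim hcq).2.2.1 P hP0
  have hQ : IsPN 2 (cjI P) := by
    refine ⟨?_, ?_, by rw [hQn, hP.norm]⟩
    · have := hP.prime
      exact Ideal.IsPrime.comap _
    · unfold cjI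
      rw [Ideal.mem_comap, map_natCast]
      exact hP.mem
  have hne : P ≠ cjI P := by
    intro he
    obtain ⟨p, hp, q, hq, hpq⟩ := CH2.cop hC.toCQ h8 hP
    rw [← he] at hq
    exact hP.prime.ne_top ((Ideal.eq_top_iff_one _).2 (hpq ▸ add_mem hp hq))
  obtain ⟨o1, o2⟩ := red_over hr hV
  have hA : Above2 P V := by
    refine ⟨?_, o1, o2⟩
    have := o1 2 h2P
    rwa [CH2.emb_two] at this
  have hgd := fun (b : Ideal (OO A B)) (L : PeriodPair) (om : ℂ) (hL : IsNL b L om) =>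
    h1 A B hC h8 hF P (cjI P) V hP hQ hne hA b L om hL
  refine ⟨?_, ?_, ?_, ?_, ?_, ?_⟩
  · rintro L ⟨b, om, hL⟩
    obtain ⟨e1, e2, -⟩ := hgd b L om hL
    obtain ⟨ξ, hξ⟩ := h3 V L hL.nrm e1 e2
    exact gx_of_grg V L ξ hξ
  · rintro L ⟨b, om, hL⟩
    exact (hgd b L om hL).1.le
  · rintro L L' ⟨b, om, hL⟩ ⟨b', om', hL'⟩ h
    exact red_kap (h2 A B hC h8 hF P (cjI P) V hP hQ hne hA b b' L L' om om' hL hL' h)
  · rintro L L' mu ⟨b, om, hL⟩ ⟨b', om', hL'⟩ h
    exact (hgd b L om hL).2.2.2.2.1 b' L' om' mu hL' h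
  · rintro L ⟨b, om, hL⟩
    obtain ⟨h, y, N, mu, w, -, -, hN0, hN, hq, -⟩ := h4 A B hC h8 hF P hP b L om hL
    refine ⟨N 1, mu 0, hN 1, ?_⟩
    have := hq 0
    rwa [hN0] at this
  · intro h
    norm_num at h

end

end Pool.Agent.MUXE


end

section

/-!
# MUX, block E: `RedE 3` from helper83's block R3 (helper66)
-/

set_option autoImplicit false

namespace Pool.Agent.MUXE

open WeierstrassCurve
open _root_.MU3 _root_.Pool.Agent.MU3A _root_.Pool.Agent.MU3B _root_.Pool.Agent.MUX _root_.Pool.Agent.MUXU _root_.Pool.Agent.RI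
open _root_.Pool.Agent.MUX2 _root_.Pool.Agent.MUX3

noncomputable section

/-- the other prime of norm `p` -/
lemma red_other {p : ℕ} {A B : ℤ} (hp : p.Prime) (h : CQ A B) (hr : RingE A B)
    (hd : (p : ℤ) ∣ B ^ 2 + 4 * A - 1) {P : Ideal (OO A B)} (hP : IsPN p P) :
    IsPN p (cjI P) ∧ P ≠ cjI P ∧ P ≠ ⊥ := by
  have hP0 : P ≠ ⊥ := by
    rintro rfl
    have h1 := Ideal.mem_bot.1 hP.mem
    obtain ⟨φ, hφ⟩ := hr.hom
    have h2 := congrArg φ h1
    rw [map_natCast, map_zero] at h2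
    exact hp.ne_zero (by exact_mod_cast h2)
  refine ⟨⟨?_, ?_, by rw [nI_cjI h hP0, hP.norm]⟩, ?_, hP0⟩
  · have := hP.prime
    exact Ideal.IsPrime.comap _
  · unfold cjI
    rw [Ideal.mem_comap, map_natCast]
    exact hP.mem
  · intro he
    have h1 := mul_cjI h hP0
    rw [← he, hP.norm, ← pow_two] at h1
    apply CtxX.not_sq hp hd (P := P) hP.norm
    rw [h1]
    exact Ideal.mem_span_singleton_self _

theorem red3 (h1 : S3_GD3) (h2 : S3_IN3) (h3 : S2_GR2) (h4 : S3_CH3) :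
    ∀ (A B : ℤ), CaseP 3 A B → RingE A B → LatFacts A B → ∀ P : Ideal (OO A B), IsPN 3 P →
    ∀ V : ValuationSubring ℂ, OverI V P → RedE 3 P V := by
  intro A B hC hr hF P hP V hV
  have h8 : (3 : ℤ) ∣ B ^ 2 + 4 * A - 1 := by
    rcases hC.split with ⟨-, h⟩ | ⟨h, -⟩
    · exact h
    · norm_num at h
  obtain ⟨hQ, hne, hP0⟩ := red_other (by norm_num) hC.toCQ hr (by exact_mod_cast h8) hP
  obtain ⟨o1, o2⟩ := red_over hr hV
  have hA : Above3 P V := by
    refine ⟨?_, o1, o2⟩
    have := o1 _ hP.mem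
    obtain ⟨φ, hφ⟩ := hr.hom
    rw [← hφ, map_natCast] at this
    exact_mod_cast this
  have hgd := fun (b : Ideal (OO A B)) (L : PeriodPair) (om : ℂ) (hL : IsNL b L om) =>
    h1 A B hC h8 hF P (cjI P) V hP hQ hne hA b L om hL
  have hgx : ∀ L, NL A B L → GX V L := by
    rintro L ⟨b, om, hL⟩
    obtain ⟨e1, e2, -⟩ := hgd b L om hL
    obtain ⟨ξ, hξ⟩ := h3 V L hL.nrm e1 e2
    exact gx_of_grg V L ξ hξ
  refine ⟨hgx, ?_, ?_, ?_, ?_, ?_⟩
  · rintro L ⟨b, om, hL⟩
    exact (hgd b L om hL).1.le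
  · rintro L L' ⟨b, om, hL⟩ ⟨b', om', hL'⟩ h
    exact red_kap (h2 A B hC h8 hF P (cjI P) V hP hQ hne hA b b' L L' om om' hL hL' h)
  · rintro L L' mu ⟨b, om, hL⟩ ⟨b', om', hL'⟩ h
    exact_mod_cast (hgd b L om hL).2.2.2.2.1 b' L' om' mu hL' h
  · rintro L ⟨b, om, hL⟩
    obtain ⟨h, y, N, mu, w, -, -, hN0, hN, hq, -⟩ := h4 A B hC h8 hF P hP b L om hL
    refine ⟨N 1, mu 0, hN 1, ?_⟩
    have := hq 0
    rwa [hN0] at this
  · rintro - L L' u u' ⟨b, om, hL⟩ ⟨b', om', hL'⟩ hu huL hu' huL'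
    obtain ⟨-, e2, e3⟩ := (hgd b L om hL).2.2.1 u huL hu
    obtain ⟨-, -, f3⟩ := (hgd b' L' om' hL').2.2.1 u' huL' hu'
    have h31 : V.valuation 3 < 1 := hA.three
    have h30 : V.valuation (3 : ℂ) ≠ 0 := (Valuation.ne_zero_iff _).2 (by norm_num)
    have hin : InEn V L u := by
      right
      intro hx
      have hx1 : V.valuation (xn L u) ≤ 1 := (ValuationSubring.valuation_le_one_iff _ _).2 hx
      have : V.valuation (xn L u) * V.valuation 3 < 1 :=
        lt_of_le_of_lt (mul_le_of_le_one_left' hx1) h31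
      exact absurd e2 this.ne
    obtain ⟨g1, g2, g3⟩ := (hgx L ⟨b, om, hL⟩).par u hin huL
    -- `v(t)² = v 3`
    have ht : V.valuation (tE L u) ^ 2 = V.valuation 3 := by
      have hx0 : V.valuation (xn L u) ≠ 0 := by
        intro h
        rw [h, zero_mul] at e2
        exact zero_ne_one e2
      exact mul_left_cancel₀ hx0 (g3.trans e2.symm)
    have e4 : 3 * (xn L u - xn L' u') = (3 * xn L u + 1) - (3 * xn L' u' + 1) := by ring
    rw [e4]
    refine (Valuation.map_sub _ _ _).trans (max_le (e3.trans ?_) (f3.trans ?_)) <;>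
    · rw [← ht, ← pow_mul]
      calc V.valuation (tE L u) ^ (2 * 4) = V.valuation (tE L u) ^ 7 * V.valuation (tE L u) :=
          pow_succ _ 7
        _ ≤ V.valuation (tE L u) := mul_le_of_le_one_left' (pow_le_one' g1.le _)

end

end Pool.Agent.MUXE


end
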