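import Mathlib
import Pool.Agent.MVF.C059
import Pool.Agent.MVF.C080
import Pool.Agent.MVF.C083
import Pool.Agent.MVF.C103
import Pool.Agent.MVF.C109

/-! Parts: MUX.HN_HN, MUX.HN_PAI, MUX.HN_LOC, MUX.HNAll, NS.I_I31, MUX.W_FRH, VB.V_KFI, VB.V_VD1, VB.V_GAM, VB.V_TOT -/

namespace Pool.Agent.MUXHN.HNG
end Pool.Agent.MUXHN.HNG
namespace Pool.Agent.MUXHN.Loc
end Pool.Agent.MUXHN.Loc
namespace Pool.Agent.MUXW.FRH
end Pool.Agent.MUXW.FRH
namespace Pool.Agent.VB.GAM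
end Pool.Agent.VB.GAM
namespace Pool.Agent.VB.TOT
end Pool.Agent.VB.TOT
namespace Pool.Agent.VB.VD1
end Pool.Agent.VB.VD1

section

/-!
# MUX-NS, block HN: glue (helper87)
-/

set_option autoImplicit false

namespace Pool.Agent.MUXHN

open _root_.MU3 _root_.Pool.Agent.MuSym _root_.Pool.Agent.MUXH OnePoint

noncomputable section

namespace HNG

/-- the maximal ideal as a submodule of `ℂ` -/
def mV (V : ValuationSubring ℂ) : Submodule V ℂ where
  carrier := {x | V.valuation x < 1}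
  add_mem' := by
    intro a b ha hb
    exact lt_of_le_of_lt (V.valuation.map_add a b) (max_lt ha hb)
  zero_mem' := by
    change V.valuation 0 < 1
    rw [map_zero]
    exact zero_lt_one
  smul_mem' := by
    intro c x hx
    change V.valuation ((c : ℂ) * x) < 1
    rw [map_mul]
    have h1 : V.valuation (c : ℂ) ≤ 1 := (V.valuation_le_one_iff _).2 c.2
    have h2 : V.valuation x < 1 := hx
    exact lt_of_le_of_lt (mul_le_mul_left h1 _) (by rwa [one_mul])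

lemma mem_mV {V : ValuationSubring ℂ} {x : ℂ} : x ∈ mV V ↔ V.valuation x < 1 := Iff.rfl

/-- the sum over the classes modulo `3` of the next level is invariant under units -/
lemma dep_unit {n : ℕ} {z : ℤ → ℂ} (hper : ∀ b c : ℤ, (3 : ℤ) ^ (n + 1) ∣ b - c → z b = z c)
    (hdep : ∀ b : ℤ, ∑ j ∈ Finset.range 3, z (b + j * 3 ^ n) = 0) (u : ℤ) (hu : (3 : ℤ) ∣ u - 1)
    (b : ℤ) : ∑ j ∈ Finset.range 3, z (u * (b + j * 3 ^ n)) = 0 := by
  rw [← hdep (u * b)]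
  refine Finset.sum_congr rfl fun j _ => hper _ _ ?_
  obtain ⟨t, ht⟩ := hu
  refine ⟨t * j, ?_⟩
  have : u = 1 + 3 * t := by linear_combination ht
  rw [this]
  ring

end HNG

open _root_.Pool.Agent.MUXHN.HNG in
/-- (HN) -/
theorem tn_HN (hBDN : Sn_BDN) (hHKN : Sn_HKN) (hH1N : Sn_H1N) (hTYP : Sn_TYP) (hLOC : Sn_LOC)
    (hKYN : Sn_KYN) (hDVN : Sn_DVN) : Sn_HN := by
  intro V N₀ s₀ i nu P s pi KI H α g hα hα1 hg hg1 n₀
  by_contra hcon
  push Not at hcon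
  obtain ⟨hQs, hQp, hQd⟩ := hHKN _ nu P (s : ℂ) H.sym H.nu1 H.dep
  obtain ⟨k, hk⟩ := hBDN V H.vp P H.alg H.fin
  set Q := sgnPart (s : ℂ) P with hQ
  have hsK : (s : ℂ) ∈ KI := by
    rcases H.s1 with h | h <;> rw [h] <;> simp
  have h3K : (3 : ℂ) ∈ KI := by
    exact ofNat_mem KI 3
  -- the values of `Q`
  have hQtyp : ∀ x y, ∃ w ∈ KI, Q x y = pi * w := by
    intro x y
    obtain ⟨w1, hw1, e1⟩ := H.typ x y
    obtain ⟨w2, hw2, e2⟩ := H.typ (mob (-1) 0 0 1 x) (mob (-1) 0 0 1 y)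
    refine ⟨w1 + s * w2, add_mem hw1 (mul_mem hsK hw2), ?_⟩
    rw [hQ]
    unfold sgnPart
    rw [e1, e2]
    ring
  have hvs : V.valuation (s : ℂ) ≤ 1 := by
    rcases H.s1 with h | h <;> rw [h] <;> simp
  have hQk : ∀ x y, V.valuation (3 ^ k * Q x y) ≤ 1 := by
    intro x y
    have e : (3 : ℂ) ^ k * Q x y = 3 ^ k * P x y +
        s * (3 ^ k * P (mob (-1) 0 0 1 x) (mob (-1) 0 0 1 y)) := by
      rw [hQ]
      unfold sgnPart
      ring
    rw [e]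
    refine (V.valuation.map_add _ _).trans (max_le (hk _ _) ?_)
    rw [map_mul]
    exact mul_le_one' hvs (hk _ _)
  -- the functions on the levels
  let z : ℕ → ℤ → ℂ := fun n b => Q ∞ (((b : ℚ) / 3 ^ n : ℚ) : OnePoint ℚ)
  have hzper : ∀ (n : ℕ) (b c : ℤ), (3 : ℤ) ^ n ∣ b - c → z n b = z n c := by
    rintro n b c ⟨t, ht⟩
    have e : ((b : ℚ) / 3 ^ n : ℚ) = (c : ℚ) / 3 ^ n + t := by
      have h3 : ((3 : ℚ) ^ n) ≠ 0 := by positivity
      have : (b : ℚ) = c + 3 ^ n * t := by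
        have : (b : ℤ) = c + 3 ^ n * t := by linear_combination ht
        exact_mod_cast this
      rw [this]
      field_simp
    change Q ∞ (((b : ℚ) / 3 ^ n : ℚ) : OnePoint ℚ) = Q ∞ (((c : ℚ) / 3 ^ n : ℚ) : OnePoint ℚ)
    rw [e]
    exact hQp _ t
  have hzdep : ∀ (n : ℕ) (b : ℤ), ∑ j ∈ Finset.range 3, z (n + 1) (b + j * 3 ^ n) = 0 := by
    intro n b
    rw [← hQd ((b : ℚ) / 3 ^ n)]
    refine Finset.sum_congr rfl fun j _ => ?_
    change Q ∞ ((((b + j * 3 ^ n : ℤ) : ℚ) / 3 ^ (n + 1) : ℚ) : OnePoint ℚ) = _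
    congr 2
    have h3 : ((3 : ℚ) ^ n) ≠ 0 := by positivity
    push_cast
    field_simp
    ring
  have hz3 : ∀ n b, (3 : ℂ) ^ (k + 1) * z n b ∈ mV V := by
    intro n b
    rw [mem_mV]
    have e : (3 : ℂ) ^ (k + 1) * z n b = 3 * (3 ^ k * z n b) := by ring
    rw [e, map_mul]
    exact mul_lt_one_of_lt_of_le H.vp (hQk _ _)
  have hztyp : ∀ n b, ∃ w ∈ KI, z n b = pi * w := fun n b => hQtyp _ _
  -- all combinations are in the maximal ideal
  have hint : ∀ a : ℤ, (a : ℂ) ∈ KI := fun a => intCast_mem KI a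
  have hYtyp : ∀ n b, ∃ w ∈ KI, comb α g 1 (z n) b = pi * w := by
    intro n b
    choose w hw hw' using hztyp n
    refine ⟨∑ j ∈ Finset.range (1 + 1), ((-1 : ℂ) ^ (1 - j) * ((1 : ℕ).choose j : ℂ)) *
      ((α : ℂ) * w (g ^ (1 - j) * b) - (α : ℂ) ^ 2 * w (g ^ (1 - j) * α ^ 2 * b)), ?_, ?_⟩
    · refine sum_mem fun j _ => mul_mem (mul_mem (pow_mem (neg_mem (one_mem _)) _)
        (natCast_mem KI _)) (sub_mem (mul_mem (hint α) (hw _))
        (mul_mem (pow_mem (hint α) 2) (hw _)))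
    · unfold comb
      rw [Finset.mul_sum]
      refine Finset.sum_congr rfl fun j _ => ?_
      rw [hw', hw']
      ring
  have hall : ∀ n, max n₀ 1 ≤ n → ∀ b : ℤ, ¬ (3 : ℤ) ∣ b → comb α g 1 (z n) b ∈ mV V := by
    intro n hn b _
    rw [mem_mV]
    by_contra hb
    rw [not_lt] at hb
    obtain ⟨m, rfl⟩ : ∃ m, n = m + 1 := ⟨n - 1, by omega⟩
    obtain ⟨ζ, hζ, hle⟩ := hcon (m + 1) ((le_max_left _ _).trans hn)
    refine absurd hle (not_le.2 ?_)
    have hYper : ∀ b c : ℤ, (3 : ℤ) ^ (m + 1) ∣ b - c →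
        comb α g 1 (z (m + 1)) b = comb α g 1 (z (m + 1)) c := by
      intro b c hbc
      unfold comb
      refine Finset.sum_congr rfl fun j _ => ?_
      rw [hzper (m + 1) (g ^ (1 - j) * b) (g ^ (1 - j) * c) (by
          rw [← mul_sub]; exact hbc.mul_left _),
        hzper (m + 1) (g ^ (1 - j) * α ^ 2 * b) (g ^ (1 - j) * α ^ 2 * c) (by
          rw [← mul_sub]; exact hbc.mul_left _)]
    have hpow : ∀ (u : ℤ), (3 : ℤ) ∣ u - 1 → ∀ j : ℕ, (3 : ℤ) ∣ u ^ j - 1 := by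
      intro u hu j
      have := sub_dvd_pow_sub_pow u 1 j
      rw [one_pow] at this
      exact hu.trans this
    have hYdep : ∀ b : ℤ, ∑ j ∈ Finset.range 3,
        comb α g 1 (z (m + 1)) (b + j * 3 ^ m) = 0 := by
      intro b
      unfold comb
      rw [Finset.sum_comm]
      refine Finset.sum_eq_zero fun j _ => ?_
      rw [← Finset.mul_sum, Finset.sum_sub_distrib, ← Finset.mul_sum, ← Finset.mul_sum,
        dep_unit (hzper (m + 1)) (hzdep m) _ (hpow g hg (1 - j)) b]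
      have h2 : (3 : ℤ) ∣ g ^ (1 - j) * α ^ 2 - 1 := by
        have e : g ^ (1 - j) * α ^ 2 - 1 = (g ^ (1 - j) - 1) * α ^ 2 + (α ^ 2 - 1) := by ring
        rw [e]
        exact dvd_add ((hpow g hg _).mul_right _) (hpow α hα 2)
      rw [dep_unit (hzper (m + 1)) (hzdep m) _ h2 b]
      ring
    have hpi : pi ≠ 0 := by
      rintro rfl
      have := H.vpi
      rw [map_zero, zero_pow (by norm_num), zero_mul] at this
      exact zero_ne_one this
    refine hDVN V H.vp KI H.unr m (comb α g 1 (z (m + 1))) hYper hYdep ?_ b ?_ ζ hζ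
    · intro b b' hb'
      obtain ⟨w, hw, e⟩ := hYtyp (m + 1) b
      obtain ⟨w', hw', e'⟩ := hYtyp (m + 1) b'
      rw [e, e', mul_div_mul_left _ _ hpi]
      exact div_mem hw hw'
    · obtain ⟨w, hw, e⟩ := hYtyp (m + 1) b
      rw [e] at hb ⊢
      exact (hTYP V H.vp KI H.unr i H.i4 H.i7 pi H.vpi w hw).2 hb
  obtain ⟨r, hr⟩ := hLOC V H.vp (mV V) z (k + 1) (max n₀ 1) hzper hz3 α g hα hα1 hg hg1 1 hall
  -- pass to the level `2 N₀`
  have hN0 : N₀ ≠ 0 := H.N0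
  have hN2 : 2 ≤ 2 * N₀ := by omega
  have hcop2 : Nat.Coprime 3 (2 * N₀) := Nat.Coprime.mul_right (by norm_num) H.cop
  have hdvN : ((3 * N₀ : ℕ) : ℤ) ∣ ((3 * (2 * N₀) : ℕ) : ℤ) :=
    Int.natCast_dvd_natCast.2 ⟨2, by ring⟩
  have hper2 : ∀ d d', ((3 * (2 * N₀) : ℕ) : ℤ) ∣ d - d' → nu d = nu d' :=
    fun d d' h => H.nuper d d' (hdvN.trans h)
  have hnuv2 : ∀ d, IsCoprime d ((3 * (2 * N₀) : ℕ) : ℤ) → V.valuation (nu d) = 1 := by
    intro d hd
    have hd' : IsCoprime d ((3 * N₀ : ℕ) : ℤ) := hd.of_isCoprime_of_dvd_right hdvN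
    obtain ⟨a, b, hab⟩ := hd'
    have h1 : nu (d * a) = nu 1 := H.nuper _ _ ⟨-b, by linear_combination hab⟩
    rw [H.num, H.nu1] at h1
    refine le_antisymm (H.nuv d) ?_
    have h2 : V.valuation (nu d) * V.valuation (nu a) = 1 := by
      rw [← map_mul, h1, map_one]
    calc (1 : V.ValueGroup) = V.valuation (nu d) * V.valuation (nu a) := h2.symm
      _ ≤ V.valuation (nu d) * 1 := by
        exact mul_le_mul_right (H.nuv a) _
      _ = V.valuation (nu d) := mul_one _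
  have hQs2 : IsSym (3 ^ (s₀ + 1) * (2 * N₀)) nu Q := by
    refine ⟨hQs.add, fun a b c d hdet hc => hQs.equiv a b c d hdet (dvd_trans ?_ hc)⟩
    exact Int.natCast_dvd_natCast.2 ⟨2, by ring⟩
  obtain ⟨R, hR⟩ := hKYN V H.vp (mV V) (2 * N₀) s₀ nu Q hN2 hcop2 H.nu1 hper2 hnuv2 hQs2 r
    (max n₀ 1) hr
  obtain ⟨a, b, c, d, hdet, hc, hd, hv⟩ := hH1N V N₀ s₀ i nu P s pi KI H
    (3 ^ (R + (s₀ + 1)) * (2 * N₀)) (mul_ne_zero (pow_ne_zero _ (by norm_num)) (by omega))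
    (mul_dvd_mul (pow_dvd_pow 3 (Nat.le_add_left _ _)) (Dvd.intro_left _ rfl))
  have hdvd : (3 : ℤ) ^ R * ((2 * N₀ : ℕ) : ℤ) ∣ ((3 ^ (R + (s₀ + 1)) * (2 * N₀) : ℕ) : ℤ) := by
    push_cast
    exact mul_dvd_mul_right (pow_dvd_pow 3 (Nat.le_add_right _ _)) _
  have h1 := hR a b c d hdet (hdvd.trans hc) (hdvd.trans hd) ∞
  rw [mem_mV] at h1
  -- the type of the values of `PT Q`
  obtain ⟨w1, hw1, e1⟩ := hQtyp ∞ (mob a b c d ∞)
  obtain ⟨w2, hw2, e2⟩ := hQtyp (mob 27 1 0 27 ∞) (mob 27 1 0 27 (mob a b c d ∞))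
  have e3 : PT Q ∞ (mob a b c d ∞) = pi * (w1 - w2) := by
    unfold PT
    rw [e1, e2]
    ring
  rw [e3] at h1
  rw [← hQ, e3] at hv
  have h2 := (hTYP V H.vp KI H.unr i H.i4 H.i7 pi H.vpi (w1 - w2) (sub_mem hw1 hw2)).1 hv
  exact absurd h1 (not_lt.2 h2)

end

end Pool.Agent.MUXHN


end

section

/-!
# MUX-NS, block HN, module PAI (helper7): the value at a pair of determinant `3^n`
-/

set_option autoImplicit false

namespace Pool.Agent.MUXHN

open _root_.MU3 _root_.Pool.Agent.MuSym _root_.Pool.Agent.MUXH OnePoint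

noncomputable section

/-- PAI. -/
theorem tn_PAI : Sn_PAI := by
  intro N' nu Q hQ n a b c d hc hd hac hN hdet
  obtain ⟨u, v, huv⟩ := hac
  have hc' : (c : ℚ) ≠ 0 := by exact_mod_cast hc
  have hd' : (d : ℚ) ≠ 0 := by exact_mod_cast hd
  have h3 : ((3 : ℚ) ^ n) ≠ 0 := by positivity
  have hdet' : (a : ℚ) * d - b * c = 3 ^ n := by exact_mod_cast hdet
  refine ⟨u * b + v * d, ⟨v, ?_⟩, ?_⟩
  · linear_combination b * huv + v * hdet
  · have h1 := hQ.equiv u v (-c) a (by linear_combination huv) ((dvd_neg).2 hN)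
      (((a : ℚ) / c : ℚ) : OnePoint ℚ) (((b : ℚ) / d : ℚ) : OnePoint ℚ)
    rw [← h1]
    have e1 : mob u v (-c) a (((a : ℚ) / c : ℚ) : OnePoint ℚ) = ∞ := by
      show (if ((-c : ℤ) : ℚ) * ((a : ℚ) / c) + a = 0 then (∞ : OnePoint ℚ) else _) = _
      rw [if_pos]
      push_cast
      field_simp
      ring
    have e2 : mob u v (-c) a (((b : ℚ) / d : ℚ) : OnePoint ℚ) =
        ((((u * b + v * d : ℤ) : ℚ) / 3 ^ n : ℚ) : OnePoint ℚ) := by
      have h2 : ((-c : ℤ) : ℚ) * ((b : ℚ) / d) + a = 3 ^ n / d := by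
        rw [← hdet']
        push_cast
        field_simp
        ring
      show (if ((-c : ℤ) : ℚ) * ((b : ℚ) / d) + a = 0 then (∞ : OnePoint ℚ) else
        (((u * ((b : ℚ) / d) + v) / (((-c : ℤ) : ℚ) * ((b : ℚ) / d) + a) : ℚ) : OnePoint ℚ)) = _
      rw [h2, if_neg (div_ne_zero h3 hd')]
      congr 1
      push_cast
      field_simp
    rw [e1, e2]

end

end Pool.Agent.MUXHN


end

section

/-!
# MUX-NS, block HN, module LOC: local constancy modulo a submodule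
-/

set_option autoImplicit false

namespace Pool.Agent.MUXHN

open _root_.MU3 _root_.Pool.Agent.MuSym _root_.Pool.Agent.MUXH OnePoint

noncomputable section

namespace Loc

theorem nd_mul {u b : ℤ} (hu : (3 : ℤ) ∣ u - 1) (h : ¬ (3 : ℤ) ∣ b) : ¬ (3 : ℤ) ∣ u * b := by
  intro h1
  rcases Int.prime_three.dvd_or_dvd h1 with h2 | h2
  · have h3 : (3 : ℤ) ∣ 1 := by
      have h4 := dvd_sub h2 hu
      have e : u - (u - 1) = 1 := by ring
      rwa [e] at h4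
    exact absurd h3 (by norm_num)
  · exact h h2

theorem nd_pow {u b : ℤ} (hu : (3 : ℤ) ∣ u - 1) (h : ¬ (3 : ℤ) ∣ b) (i : ℕ) :
    ¬ (3 : ℤ) ∣ u ^ i * b := by
  induction i with
  | zero => simpa using h
  | succ i ih =>
    have e : u ^ (i + 1) * b = u * (u ^ i * b) := by ring
    rw [e]
    exact nd_mul hu ih

theorem dvd_pow_sub {u : ℤ} (hu : (3 : ℤ) ∣ u - 1) (i : ℕ) : (3 : ℤ) ∣ u ^ i - 1 := by
  have h := sub_dvd_pow_sub_pow u 1 i
  rw [one_pow] at h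
  exact hu.trans h

/-- the powers of `u` are, modulo `3^n`, all classes `≡ 1` modulo `3^s` -/
theorem gen {u : ℤ} (hu : (3 : ℤ) ∣ u - 1) (hu1 : u ≠ 1) : ∃ s : ℕ, ∀ (n : ℕ) (b b' : ℤ),
    ¬ (3 : ℤ) ∣ b → (3 : ℤ) ^ s ∣ b - b' → ∃ i : ℕ, (3 : ℤ) ^ n ∣ u ^ i * b - b' := by
  obtain ⟨w, hw, hw3⟩ := (Int.finiteMultiplicity_iff.2
    ⟨by norm_num, sub_ne_zero.2 hu1⟩ : FiniteMultiplicity (3 : ℤ) (u - 1)).exists_eq_pow_mul_and_not_dvd
  obtain ⟨k, hk⟩ : ∃ k, k = multiplicity (3 : ℤ) (u - 1) := ⟨_, rfl⟩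
  rw [← hk] at hw
  have hk1 : 1 ≤ k := by
    by_contra h
    have h0 : k = 0 := by omega
    rw [h0, pow_zero, one_mul] at hw
    exact hw3 (hw ▸ hu)
  refine ⟨k, fun n b b' hb hbb => ?_⟩
  rcases le_total n k with hn | hn
  · refine ⟨0, ?_⟩
    rw [pow_zero, one_mul]
    exact (pow_dvd_pow 3 hn).trans hbb
  · induction n, hn using Nat.le_induction with
    | base => exact ⟨0, by rw [pow_zero, one_mul]; exact hbb⟩
    | succ n hn ih =>
      obtain ⟨i, c, hc⟩ := ih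
      obtain ⟨w', h1, h2⟩ := MUXH.Stp.pow_u (p := 3) (w := w) Nat.prime_three hk1
        (by norm_num) (by rw [hw]; norm_num) (by norm_num; exact hw3) n hn
      rw [show ((3 : ℕ) : ℤ) = 3 from rfl] at h1 h2
      have hb2 := nd_pow hu hb i
      -- the target class
      obtain ⟨t, ht⟩ : ∃ t : ℕ, (3 : ℤ) ∣ t + c := by
        refine ⟨((-c) % 3).toNat, ?_⟩
        have h3 : 0 ≤ (-c) % 3 := Int.emod_nonneg _ (by norm_num)
        rw [Int.toNat_of_nonneg h3]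
        omega
      obtain ⟨j, hj⟩ := MUXH.Stp.solve (p := 3) Nat.prime_three (w := w') (b := u ^ i * b)
        (by norm_num; exact h2) (by norm_num; exact hb2) t
      rw [show ((3 : ℕ) : ℤ) = 3 from rfl] at hj
      obtain ⟨q, hq⟩ := MUXH.Stp.pow_one_add (p := 3) (hk1.trans hn) w' j
      rw [show ((3 : ℕ) : ℤ) = 3 from rfl] at hq
      refine ⟨3 ^ (n - k) * j + i, ?_⟩
      obtain ⟨a, ha⟩ := hj
      obtain ⟨d, hd⟩ := ht
      have e1 : u ^ (3 ^ (n - k) * j + i) * b = (1 + (3 : ℤ) ^ n * w') ^ j * (u ^ i * b) := by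
        rw [pow_add, pow_mul, h1]
        ring
      have e2 : (1 + (3 : ℤ) ^ n * w') ^ j = 3 ^ (n + 1) * q + (1 + j * ((3 : ℤ) ^ n * w')) := by
        linarith
      rw [e1, e2]
      refine ⟨q * (u ^ i * b) + a + d, ?_⟩
      have e3 : u ^ i * b = b' + 3 ^ n * c := by linarith
      have e4 : (j : ℤ) * (w' * (u ^ i * b)) = 3 * a + t := by linarith
      have e5 : (c : ℤ) = 3 * d - t := by linarith
      calc (3 ^ (n + 1) * q + (1 + j * ((3 : ℤ) ^ n * w'))) * (u ^ i * b) - b'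
          = 3 ^ (n + 1) * q * (u ^ i * b) + (u ^ i * b - b') +
            3 ^ n * (j * (w' * (u ^ i * b))) := by ring
        _ = 3 ^ (n + 1) * q * (u ^ i * b) + (3 ^ n * (3 * d - t)) + 3 ^ n * (3 * a + t) := by
            rw [e4, hc, e5]
        _ = 3 ^ (n + 1) * (q * (u ^ i * b) + a + d) := by ring

variable {V : ValuationSubring ℂ}

/-- locally constant modulo `m` -/
def LC (m : Submodule V ℂ) (r : ℕ) (y : ℤ → ℂ) : Prop :=
  ∀ b b' : ℤ, ¬ (3 : ℤ) ∣ b → (3 : ℤ) ^ r ∣ b - b' → y b - y b' ∈ m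

theorem int_mul (m : Submodule V ℂ) {x : ℂ} (hx : x ∈ m) (c : ℤ) : (c : ℂ) * x ∈ m := by
  have h := zsmul_mem hx c
  rwa [zsmul_eq_mul] at h

/-- an integer divisible by `3^k` times a value -/
theorem dvd_mul_mem (m : Submodule V ℂ) {k : ℕ} {x : ℂ} (hx : (3 : ℂ) ^ k * x ∈ m) {c : ℤ}
    (hc : (3 : ℤ) ^ k ∣ c) : (c : ℂ) * x ∈ m := by
  obtain ⟨d, rfl⟩ := hc
  have h := int_mul m hx d
  have e : (((3 : ℤ) ^ k * d : ℤ) : ℂ) * x = (d : ℂ) * ((3 : ℂ) ^ k * x) := by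
    push_cast
    ring
  rwa [e]

/-- from invariance under `u` to local constancy -/
theorem lc_of_inv {u : ℤ} (hu : (3 : ℤ) ∣ u - 1) (hu1 : u ≠ 1) : ∃ s : ℕ,
    ∀ (m : Submodule V ℂ) (n : ℕ) (y : ℤ → ℂ), (∀ b c : ℤ, (3 : ℤ) ^ n ∣ b - c → y b = y c) →
      (∀ b : ℤ, ¬ (3 : ℤ) ∣ b → y b - y (u * b) ∈ m) → LC m s y := by
  obtain ⟨s, hs⟩ := gen hu hu1
  refine ⟨s, fun m n y hper hinv b b' hb hbb => ?_⟩
  obtain ⟨i, hi⟩ := hs n b b' hb hbb
  rw [← hper _ _ hi]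
  clear hi
  induction i with
  | zero =>
    rw [pow_zero, one_mul, sub_self]
    exact zero_mem _
  | succ i ih =>
    have h := hinv _ (nd_pow hu hb i)
    have e : u ^ (i + 1) * b = u * (u ^ i * b) := by ring
    rw [e]
    have e2 : y b - y (u * (u ^ i * b)) = (y b - y (u ^ i * b)) +
        (y (u ^ i * b) - y (u * (u ^ i * b))) := by ring
    rw [e2]
    exact add_mem ih h

/-- the difference operator -/
def D (g : ℤ) (y : ℤ → ℂ) : ℤ → ℂ := fun b => y b - y (g * b)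

theorem D_per {g : ℤ} {n : ℕ} {y : ℤ → ℂ} (hper : ∀ b c : ℤ, (3 : ℤ) ^ n ∣ b - c → y b = y c) :
    ∀ b c : ℤ, (3 : ℤ) ^ n ∣ b - c → D g y b = D g y c := by
  intro b c h
  unfold D
  rw [hper b c h, hper (g * b) (g * c) (by rw [← mul_sub]; exact Dvd.dvd.mul_left h g)]

theorem D_mem {g : ℤ} {k : ℕ} {m : Submodule V ℂ} {y : ℤ → ℂ} (h : ∀ b, (3 : ℂ) ^ k * y b ∈ m) :
    ∀ b, (3 : ℂ) ^ k * D g y b ∈ m := by
  intro b
  unfold D
  rw [mul_sub]
  exact sub_mem (h b) (h _)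

theorem pow_ne_one' {u : ℤ} (hu : (3 : ℤ) ∣ u - 1) (hu1 : u ≠ 1) {i : ℕ} (hi : i ≠ 0) :
    u ^ i ≠ 1 := by
  intro h
  have h1 : u.natAbs ^ i = 1 := by
    rw [← Int.natAbs_pow, h]
    rfl
  have h2 : u.natAbs = 1 := (pow_eq_one_iff_of_nonneg (Nat.zero_le _) hi).1 h1
  rcases Int.natAbs_eq u with h3 | h3
  · rw [h2] at h3
    exact hu1 h3
  · rw [h2] at h3
    rw [h3] at hu
    norm_num at hu

/-- step down -/
theorem step {g : ℤ} (hg : (3 : ℤ) ∣ g - 1) (hg1 : g ≠ 1) (k r : ℕ) : ∃ s : ℕ,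
    ∀ (m : Submodule V ℂ) (n : ℕ) (y : ℤ → ℂ), (∀ b c : ℤ, (3 : ℤ) ^ n ∣ b - c → y b = y c) →
      (∀ b, (3 : ℂ) ^ k * y b ∈ m) → LC m r (D g y) → LC m s y := by
  obtain ⟨u, hu⟩ : ∃ u : ℤ, u = g ^ 3 ^ r := ⟨_, rfl⟩
  have hu3 : (3 : ℤ) ∣ u - 1 := by rw [hu]; exact dvd_pow_sub hg _
  have hur : (3 : ℤ) ^ r ∣ u - 1 := by
    rw [hu]
    clear hu hu3 u
    induction r with
    | zero => rw [pow_zero]; exact one_dvd _
    | succ r ih =>
      obtain ⟨c, hc⟩ := ih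
      have e1 : g ^ 3 ^ (r + 1) = (g ^ 3 ^ r) ^ 3 := by rw [← pow_mul, pow_succ]
      have e2 : g ^ 3 ^ r = 1 + 3 ^ r * c := by linarith
      obtain ⟨d, hd⟩ := dvd_pow_sub hg (3 ^ r)
      have e3 : (3 : ℤ) ^ r * c = 3 * d := by linarith
      rw [e1, e2]
      refine ⟨c * (1 + 3 * d + 3 * d ^ 2), ?_⟩
      have e4 : (1 + (3 : ℤ) ^ r * c) ^ 3 - 1 =
        3 * (3 ^ r * c) * (1 + (3 ^ r * c)) + (3 ^ r * c) * (3 ^ r * c) ^ 2 := by ring
      rw [e4]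
      have e5 : (3 : ℤ) * (3 ^ r * c) * (1 + (3 ^ r * c)) + (3 ^ r * c) * (3 ^ r * c) ^ 2 =
        3 * (3 ^ r * c) * (1 + 3 * d) + (3 ^ r * c) * (3 * d) ^ 2 := by rw [← e3]
      rw [e5, pow_succ]
      ring
  have hu1 : u ≠ 1 := by rw [hu]; exact pow_ne_one' hg hg1 (by positivity)
  obtain ⟨s, hs⟩ := lc_of_inv (V := V) (dvd_pow_sub hu3 (3 ^ k)) (pow_ne_one' hu3 hu1 (i := 3 ^ k)
    (by positivity))
  refine ⟨s, fun m n y hper hk hlc => hs m n y hper ?_⟩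
  -- the sums
  obtain ⟨S, hS⟩ : ∃ S : ℤ → ℂ, ∀ b, S b = y b - y (u * b) := ⟨_, fun _ => rfl⟩
  have hS2 : ∀ b, S b = ∑ i ∈ Finset.range (3 ^ r), D g y (g ^ i * b) := by
    intro b
    have h1 : ∀ i : ℕ, D g y (g ^ i * b) = y (g ^ i * b) - y (g ^ (i + 1) * b) := by
      intro i
      unfold D
      rw [show g ^ (i + 1) * b = g * (g ^ i * b) by ring]
    rw [Finset.sum_congr rfl fun i _ => h1 i, Finset.sum_range_sub', hS, hu]
    rw [pow_zero, one_mul]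
  have hSu : ∀ b : ℤ, ¬ (3 : ℤ) ∣ b → S b - S (u * b) ∈ m := by
    intro b hb
    rw [hS2, hS2, ← Finset.sum_sub_distrib]
    refine Submodule.sum_mem _ fun i _ => hlc _ _ (nd_pow hg hb i) ?_
    have e : g ^ i * b - g ^ i * (u * b) = (u - 1) * (-(g ^ i * b)) := by ring
    rw [e]
    exact Dvd.dvd.mul_right hur _
  have hSj : ∀ (j : ℕ) (b : ℤ), ¬ (3 : ℤ) ∣ b → S b - S (u ^ j * b) ∈ m := by
    intro j b hb
    induction j with
    | zero =>
      rw [pow_zero, one_mul, sub_self]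
      exact zero_mem _
    | succ j ih =>
      have h := hSu _ (nd_pow hu3 hb j)
      have e : u ^ (j + 1) * b = u * (u ^ j * b) := by ring
      rw [e]
      have e2 : S b - S (u * (u ^ j * b)) = (S b - S (u ^ j * b)) +
          (S (u ^ j * b) - S (u * (u ^ j * b))) := by ring
      rw [e2]
      exact add_mem ih h
  intro b hb
  have hSk : (3 : ℂ) ^ k * S b ∈ m := by
    rw [hS, mul_sub]
    exact sub_mem (hk _) (hk _)
  have h2 : y b - y (u ^ 3 ^ k * b) = ((3 : ℂ) ^ k) * S b -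
      ∑ j ∈ Finset.range (3 ^ k), (S b - S (u ^ j * b)) := by
    have h1 : ∀ j : ℕ, S (u ^ j * b) = y (u ^ j * b) - y (u ^ (j + 1) * b) := by
      intro j
      rw [hS, show u ^ (j + 1) * b = u * (u ^ j * b) by ring]
    rw [Finset.sum_sub_distrib, Finset.sum_const, Finset.card_range, nsmul_eq_mul,
      Finset.sum_congr rfl fun j _ => h1 j, Finset.sum_range_sub', pow_zero, one_mul]
    push_cast
    ring
  rw [h2]
  exact sub_mem hSk (Submodule.sum_mem _ fun j _ => hSj j b hb)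

/-- iteration of the step down -/
theorem steps {g : ℤ} (hg : (3 : ℤ) ∣ g - 1) (hg1 : g ≠ 1) (k N : ℕ) : ∀ r : ℕ, ∃ s : ℕ,
    ∀ (m : Submodule V ℂ) (n : ℕ) (y : ℤ → ℂ), (∀ b c : ℤ, (3 : ℤ) ^ n ∣ b - c → y b = y c) →
      (∀ b, (3 : ℂ) ^ k * y b ∈ m) → LC m r ((D g)^[N] y) → LC m s y := by
  induction N with
  | zero => exact fun r => ⟨r, fun m n y _ _ h => h⟩
  | succ N ih =>
    intro r
    obtain ⟨s, hs⟩ := ih r
    obtain ⟨s', hs'⟩ := step (V := V) hg hg1 k s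
    refine ⟨s', fun m n y hper hk h => hs' m n y hper hk ?_⟩
    rw [Function.iterate_succ_apply] at h
    exact hs m n (D g y) (D_per hper) (D_mem hk) h

theorem iter_per {g : ℤ} {n : ℕ} (N : ℕ) : ∀ {y : ℤ → ℂ},
    (∀ b c : ℤ, (3 : ℤ) ^ n ∣ b - c → y b = y c) →
    ∀ b c : ℤ, (3 : ℤ) ^ n ∣ b - c → (D g)^[N] y b = (D g)^[N] y c := by
  induction N with
  | zero => exact fun h => h
  | succ N ih =>
    intro y h
    rw [Function.iterate_succ_apply]
    exact ih (D_per h)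

theorem iter_mem {g : ℤ} {k : ℕ} {m : Submodule V ℂ} (N : ℕ) : ∀ {y : ℤ → ℂ},
    (∀ b, (3 : ℂ) ^ k * y b ∈ m) → ∀ b, (3 : ℂ) ^ k * (D g)^[N] y b ∈ m := by
  induction N with
  | zero => exact fun h => h
  | succ N ih =>
    intro y h
    rw [Function.iterate_succ_apply]
    exact ih (D_mem h)

/-- the substitution operator -/
def E (g : ℤ) : Module.End ℂ (ℤ → ℂ) where
  toFun y := fun b => y (g * b)
  map_add' _ _ := rfl
  map_smul' _ _ := rfl

theorem E_pow (g : ℤ) (i : ℕ) (y : ℤ → ℂ) (b : ℤ) : ((E g) ^ i) y b = y (g ^ i * b) := by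
  induction i generalizing b with
  | zero => simp
  | succ i ih =>
    rw [pow_succ', Module.End.mul_apply]
    have h1 : (E g) (((E g) ^ i) y) b = ((E g) ^ i) y (g * b) := rfl
    rw [h1, ih, pow_succ]
    ring_nf

theorem iter_eq (g : ℤ) (N : ℕ) (y : ℤ → ℂ) :
    (D g)^[N] y = ((1 + -(E g)) ^ N) y := by
  induction N generalizing y with
  | zero => rfl
  | succ N ih =>
    rw [Function.iterate_succ_apply, ih, pow_succ, Module.End.mul_apply]
    have h : D g y = (1 + -(E g)) y := by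
      funext b
      show y b - y (g * b) = y b + -(y (g * b))
      ring
    rw [h]

theorem iter_sum (g : ℤ) (N : ℕ) (y : ℤ → ℂ) (b : ℤ) :
    (D g)^[N] y b = ∑ j ∈ Finset.range (N + 1), ((-1 : ℂ) ^ (N - j) * (N.choose j : ℂ)) *
      y (g ^ (N - j) * b) := by
  rw [iter_eq, (Commute.one_left (-(E g))).add_pow, LinearMap.sum_apply, Finset.sum_apply]
  refine Finset.sum_congr rfl fun j _ => ?_
  rw [one_pow, one_mul, neg_pow (E g), Module.End.mul_apply, Module.End.mul_apply]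
  have h1 : ((N.choose j : ℕ) : Module.End ℂ (ℤ → ℂ)) y = ((N.choose j : ℕ) : ℂ) • y := by
    funext c
    rw [Module.End.natCast_apply]
    simp
  rw [h1, _root_.map_smul, _root_.map_smul]
  have h2 : ∀ (x : ℤ → ℂ) (i : ℕ), ((-1 : Module.End ℂ (ℤ → ℂ)) ^ i) x = ((-1 : ℂ) ^ i) • x := by
    intro x i
    induction i with
    | zero => simp
    | succ i ih =>
      rw [pow_succ', Module.End.mul_apply, ih, _root_.map_smul, pow_succ']
      funext c
      simp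
  rw [h2]
  simp only [Pi.smul_apply, smul_eq_mul, E_pow]
  ring

theorem comb_eq (α g : ℤ) (N : ℕ) (y : ℤ → ℂ) (b : ℤ) : comb α g N y b =
    (α : ℂ) * (D g)^[N] y b - (α : ℂ) ^ 2 * (D g)^[N] y (α ^ 2 * b) := by
  unfold comb
  rw [iter_sum, iter_sum, Finset.mul_sum, Finset.mul_sum, ← Finset.sum_sub_distrib]
  refine Finset.sum_congr rfl fun j _ => ?_
  rw [← mul_assoc (g ^ (N - j)) (α ^ 2) b]
  ring

end Loc

open _root_.Pool.Agent.MUXHN.Loc in
theorem tn_LOC : Sn_LOC := by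
  intro V h3 m z k n₀ hper hk α g hα hα1 hg hg1 N hcomb
  -- `α` is a unit
  have hint : ∀ n : ℤ, V.valuation (n : ℂ) ≤ 1 := by
    intro n
    have h := V.zsmul_mem (V.one_mem) n
    rw [zsmul_eq_mul, mul_one] at h
    exact (ValuationSubring.valuation_le_one_iff _ _).2 h
  have hαv : V.valuation (α : ℂ) = 1 := by
    refine le_antisymm (hint α) (not_lt.1 fun hlt => ?_)
    obtain ⟨c, hc⟩ := hα
    have h4 : V.valuation ((c : ℂ) * 3) < 1 := by
      rw [map_mul]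
      exact lt_of_le_of_lt (mul_le_of_le_one_left' (hint c)) h3
    have h5 : V.valuation ((α : ℂ) - (c : ℂ) * 3) < 1 :=
      lt_of_le_of_lt (V.valuation.map_sub _ _) (max_lt hlt h4)
    have e : (α : ℂ) - (c : ℂ) * 3 = 1 := by
      have h6 : (α : ℂ) - 1 = 3 * c := by exact_mod_cast hc
      linear_combination h6
    rw [e, map_one] at h5
    exact lt_irrefl _ h5
  have hα0 : (α : ℂ) ≠ 0 := by
    intro h0
    rw [h0, map_zero] at hαv
    exact zero_ne_one hαv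
  have hαinv : (α : ℂ)⁻¹ ∈ V := by
    rw [← ValuationSubring.valuation_le_one_iff, map_inv₀, hαv, inv_one]
  -- the number `u`
  obtain ⟨u, hu⟩ : ∃ u : ℤ, u = (α ^ 2) ^ 3 ^ k := ⟨_, rfl⟩
  have hα2 : (3 : ℤ) ∣ α ^ 2 - 1 := dvd_pow_sub hα 2
  have hu3 : (3 : ℤ) ∣ u - 1 := by rw [hu]; exact dvd_pow_sub hα2 _
  have hα21 : α ^ 2 ≠ 1 := pow_ne_one' hα hα1 two_ne_zero
  have hu1 : u ≠ 1 := by rw [hu]; exact pow_ne_one' hα2 hα21 (by positivity)
  have hαk : (3 : ℤ) ^ k ∣ α ^ 3 ^ k - 1 := by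
    clear hcomb hk hu hu3 hu1 u
    induction k with
    | zero => rw [pow_zero]; exact one_dvd _
    | succ r ih =>
      obtain ⟨c, hc⟩ := ih
      have e1 : α ^ 3 ^ (r + 1) = (α ^ 3 ^ r) ^ 3 := by rw [← pow_mul, pow_succ]
      have e2 : α ^ 3 ^ r = 1 + 3 ^ r * c := by linarith
      obtain ⟨d, hd⟩ := dvd_pow_sub hα (3 ^ r)
      have e3 : (3 : ℤ) ^ r * c = 3 * d := by linarith
      rw [e1, e2]
      refine ⟨c * (1 + 3 * d + 3 * d ^ 2), ?_⟩
      have e4 : (1 + (3 : ℤ) ^ r * c) ^ 3 - 1 =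
        3 * (3 ^ r * c) * (1 + (3 ^ r * c)) + (3 ^ r * c) * (3 ^ r * c) ^ 2 := by ring
      rw [e4]
      have e5 : (3 : ℤ) * (3 ^ r * c) * (1 + (3 ^ r * c)) + (3 ^ r * c) * (3 ^ r * c) ^ 2 =
        3 * (3 ^ r * c) * (1 + 3 * d) + (3 ^ r * c) * (3 * d) ^ 2 := by rw [← e3]
      rw [e5, pow_succ]
      ring
  obtain ⟨s, hs⟩ := lc_of_inv (V := V) hu3 hu1
  obtain ⟨r, hr⟩ := steps (V := V) hg hg1 k N s
  refine ⟨r, fun n hn => hr m n (z n) (hper n) (hk n) ?_⟩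
  refine hs m n _ (iter_per N (hper n)) ?_
  have hYk : ∀ b, (3 : ℂ) ^ k * (D g)^[N] (z n) b ∈ m := iter_mem N (hk n)
  obtain ⟨Y, hY⟩ : ∃ Y : ℤ → ℂ, Y = (D g)^[N] (z n) := ⟨_, rfl⟩
  rw [← hY] at hYk ⊢
  have hstep : ∀ b : ℤ, ¬ (3 : ℤ) ∣ b → Y b - (α : ℂ) * Y (α ^ 2 * b) ∈ m := by
    intro b hb
    have h1 := hcomb n hn b hb
    rw [comb_eq, ← hY] at h1
    have h2 := m.smul_mem (⟨(α : ℂ)⁻¹, hαinv⟩ : V) h1
    have e : (⟨(α : ℂ)⁻¹, hαinv⟩ : V) • ((α : ℂ) * Y b - (α : ℂ) ^ 2 * Y (α ^ 2 * b)) =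
        Y b - (α : ℂ) * Y (α ^ 2 * b) := by
      show (α : ℂ)⁻¹ * ((α : ℂ) * Y b - (α : ℂ) ^ 2 * Y (α ^ 2 * b)) = _
      field_simp
    rwa [e] at h2
  have hi : ∀ (i : ℕ) (b : ℤ), ¬ (3 : ℤ) ∣ b →
      Y b - (α : ℂ) ^ i * Y ((α ^ 2) ^ i * b) ∈ m := by
    intro i b hb
    induction i with
    | zero =>
      rw [pow_zero, pow_zero, one_mul, one_mul, sub_self]
      exact zero_mem _
    | succ i ih =>
      have h1 := hstep _ (nd_pow hα2 hb i)
      have h2 := int_mul m h1 (α ^ i)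
      have e : (α ^ 2) ^ (i + 1) * b = α ^ 2 * ((α ^ 2) ^ i * b) := by ring
      rw [e]
      have e2 : Y b - (α : ℂ) ^ (i + 1) * Y (α ^ 2 * ((α ^ 2) ^ i * b)) =
          (Y b - (α : ℂ) ^ i * Y ((α ^ 2) ^ i * b)) +
          ((α ^ i : ℤ) : ℂ) * (Y ((α ^ 2) ^ i * b) - (α : ℂ) * Y (α ^ 2 * ((α ^ 2) ^ i * b))) := by
        push_cast
        ring
      rw [e2]
      exact add_mem ih h2
  intro b hb
  have h1 := hi (3 ^ k) b hb
  rw [← hu] at h1
  have h2 := dvd_mul_mem m (hYk (u * b)) hαk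
  have e : Y b - Y (u * b) = (Y b - (α : ℂ) ^ 3 ^ k * Y (u * b)) +
      ((α ^ 3 ^ k - 1 : ℤ) : ℂ) * Y (u * b) := by
    push_cast
    ring
  rw [e]
  exact add_mem h1 h2

end

end Pool.Agent.MUXHN


end

section

/-!
# MUX-NS, block HN: all statements, without hypotheses (helper87)
-/

set_option autoImplicit false

namespace Pool.Agent.MUXHN

theorem xn_BDN : Sn_BDN := tn_BDN
theorem xn_HKN : Sn_HKN := tn_HKN
theorem xn_H1N : Sn_H1N := tn_H1N
theorem xn_TYP : Sn_TYP := tn_TYP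
theorem xn_LOC : Sn_LOC := tn_LOC
theorem xn_PAI : Sn_PAI := tn_PAI
theorem xn_KYN : Sn_KYN := tn_KYN xn_PAI
theorem xn_DVN : Sn_DVN := tn_DVN
theorem xn_HN : Sn_HN := tn_HN xn_BDN xn_HKN xn_H1N xn_TYP xn_LOC xn_KYN xn_DVN

end Pool.Agent.MUXHN


end

section

/-!
# MUX-NS, block IN, module I31 (helper36): one level, from blocks E and H

Model: `Pool/Agent/MUX/I_I3.lean`.
-/

set_option autoImplicit false

namespace Pool.Agent.NSI

open _root_.MU3 _root_.Pool.Agent.MU3 _root_.Pool.Agent.MU3A _root_.Pool.Agent.MU3B _root_.Pool.Agent.RI _root_.Pool.Agent.RID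
  _root_.Pool.Agent.MUX _root_.Pool.Agent.MUXK _root_.Pool.Agent.MUXI _root_.Pool.Agent.NS
open _root_.Pool.Agent.MU3I (w3 zt St_ITG)

noncomputable section

namespace I31

lemma emb_nat {A B : ℤ} (n : ℕ) : emb (n : OO A B) = n := by
  have h1 : ((n : ℕ) : OO A B).re = n := by
    simp
  have h2 : ((n : ℕ) : OO A B).im = 0 := by
    simp
  unfold emb
  rw [h1, h2]
  push_cast
  ring

lemma w3_unit {c : ℤ} (hc : ¬ (3 : ℤ) ∣ c) : w3 c = 1 ∨ w3 c = -1 := by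
  unfold w3
  split_ifs with h1 h2
  · exact Or.inl rfl
  · exact Or.inr rfl
  · omega

/-- the set `v(x) ≤ v(3)` -/
lemma val_prop (V : ValuationSubring ℂ) (u : ℂ) :
    V.valuation ((0 : ℂ) / u) ≤ V.valuation (3 : ℂ) ∧
    (∀ x y : ℂ, V.valuation (x / u) ≤ V.valuation (3 : ℂ) →
      V.valuation (y / u) ≤ V.valuation (3 : ℂ) →
      V.valuation ((x + y) / u) ≤ V.valuation (3 : ℂ)) ∧
    (∀ v x : ℂ, v ∈ V → V.valuation (x / u) ≤ V.valuation (3 : ℂ) →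
      V.valuation (v * x / u) ≤ V.valuation (3 : ℂ)) ∧
    ∀ v x : ℂ, v ∉ V.nonunits → V.valuation (v * x / u) ≤ V.valuation (3 : ℂ) →
      V.valuation (x / u) ≤ V.valuation (3 : ℂ) := by
  refine ⟨by simp, ?_, ?_, ?_⟩
  · intro x y hx hy
    rw [add_div]
    exact (V.valuation.map_add _ _).trans (max_le hx hy)
  · intro v x hv hx
    rw [mul_div_assoc, map_mul]
    have h1 : V.valuation v ≤ 1 := (V.valuation_le_one_iff v).2 hv
    exact (mul_le_of_le_one_left' h1).trans hx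
  · intro v x hv hx
    rw [mul_div_assoc, map_mul] at hx
    have h1 : 1 ≤ V.valuation v := by
      by_contra h2
      exact hv (V.mem_nonunits_iff.2 (lt_of_not_ge h2))
    exact (le_mul_of_one_le_left' h1).trans hx

/-- if the product is a cube, then the sum is small -/
theorem pows (hFOU : Sn_FOU) (hTG : St_ITG) {A B : ℤ} (V : ValuationSubring ℂ) (f : ℕ)
    {ι : Type} (R : Reps A B (3 * f) ι) (u : ℂ)
    (n : ℕ) (D : IntermediateField ℚ ℂ) [FiniteDimensional ℚ D] (h : kk A B ≤ D)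
    (C : (letI := algC h; D ≃ₐ[kk A B] D) → ℂ) (hE : EInpN V f R u n h C) (w : OO A B → ℂ)
    (hw : IsTei V w) :
    letI := algC h
    ∀ (_ : ∀ σ τ : D ≃ₐ[kk A B] D, σ * τ = τ * σ) (c₁ : ℂ) (hc : c₁ ∈ D) (_ : c₁ = C 1)
      (γ : D ≃ₐ[kk A B] D) (Δ : Subgroup (D ≃ₐ[kk A B] D)) [Fintype Δ] (N : ℕ) (b : Δ → ℕ)
      (X : Δ →* ℂˣ) (_ : (∑ δ : Δ, (b δ : ℂ) * (X δ : ℂ)) ∉ V.nonunits) (y : D)
      (_ : y ^ 3 = ∏ δ : Δ, ((δ : D ≃ₐ[kk A B] D) ((Tg γ)^[N] ⟨c₁, hc⟩)) ^ b δ),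
      V.valuation ((∑ j ∈ Finset.range (N + 1),
        (((-1 : ℤ) ^ (N - j) * (N.choose j : ℤ) : ℤ) : ℂ) *
        ∑ δ : Δ, (((X δ)⁻¹ : ℂˣ) : ℂ) * TTN R w (lvX 3 f n)
          (aX 3 f) h (γ ^ j * (δ : D ≃ₐ[kk A B] D))) / u) ≤ V.valuation (3 : ℂ) := by
  classical
  let akL : Algebra (kk A B) D := algC h
  intro comm c₁ hc hc1 γ Δ iΔ N b X hX y hy
  have fdk := Pool.Agent.FX.fd (kk A B) D
  have iG : Fintype (D ≃ₐ[kk A B] D) := Fintype.ofFinite _
  let e : ℕ → ℤ := fun j => (-1 : ℤ) ^ (N - j) * (N.choose j : ℤ)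
  let g : (D ≃ₐ[kk A B] D) → ℤ := fun τ => ∑ δ : Δ, ∑ j ∈ Finset.range (N + 1),
      if (δ : D ≃ₐ[kk A B] D) * γ ^ j = τ then (b δ : ℤ) * e j else 0
  have hcτ : ∀ τ : D ≃ₐ[kk A B] D, ((τ ⟨c₁, hc⟩ : D) : ℂ) = C τ := by
    intro τ
    obtain ⟨y', hy1, hy2⟩ := hE.conj τ
    have h3 : y' = ⟨c₁, hc⟩ := Subtype.ext (hy1.trans hc1.symm)
    rw [← h3]
    exact hy2
  have hcne : (⟨c₁, hc⟩ : D) ≠ 0 := by
    intro h0
    apply hE.ne
    have h1 : c₁ = 0 := congrArg Subtype.val h0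
    rw [hc1] at h1
    exact h1
  have hu : ∀ τ : D ≃ₐ[kk A B] D, C τ ≠ 0 := by
    intro τ h0
    rw [← hcτ τ] at h0
    have h1 : τ (⟨c₁, hc⟩ : D) = 0 := Subtype.ext h0
    exact hcne ((map_eq_zero_iff τ τ.injective).1 h1)
  have e1 : (y : ℂ) ^ 3 = ∏ᶠ τ : D ≃ₐ[kk A B] D, C τ ^ g τ := by
    rw [MU3I.I3F.prod_exp γ Δ _ hu (fun δ => (b δ : ℤ)) N e g (fun τ => rfl)]
    have h1 : (y : ℂ) ^ 3 = D.val (y ^ 3) := rfl
    rw [h1, hy, map_prod]
    refine Finset.prod_congr rfl fun δ _ => ?_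
    rw [MU3I.I3F.tg_pow hTG _ _ γ δ _ hcne N (b δ), map_prod]
    refine Finset.prod_congr rfl fun j _ => ?_
    rw [map_zpow₀]
    exact congrArg (fun w : ℂ => w ^ ((b δ : ℤ) * e j)) (hcτ ((δ : D ≃ₐ[kk A B] D) * γ ^ j))
  have e2 := hE.ew w hw g ⟨y, y.2, e1⟩
  obtain ⟨q1, q2, q3, q4⟩ := val_prop V u
  refine hFOU V (fun x => V.valuation (x / u) ≤ V.valuation (3 : ℂ)) q1 q2 q3 q4
    (D ≃ₐ[kk A B] D) comm γ Δ
    (fun τ => TTN R w (lvX 3 f n) (aX 3 f) h τ) (fun δ => (b δ : ℤ)) N e X ?_ ?_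
  · simpa using hX
  · intro τ'
    have e3 := e2 τ'
    rw [MU3I.I3F.sum_exp γ Δ (fun τ => TTN R w (lvX 3 f n) (aX 3 f) h τ)
      (fun δ => (b δ : ℤ)) N e g (fun τ => rfl) τ'] at e3
    exact e3

lemma nI_ne {f : ℕ} {A B : ℤ} {ι : Type} (R : Reps A B (3 * f) ι) (i : ι) :
    ¬ (3 : ℤ) ∣ (nI (R.b i) : ℤ) := by
  intro h
  have h1 : (3 : ℕ) ∣ nI (R.b i) := by exact_mod_cast h
  have h2 := R.cop i
  have h3 : 3 ∣ Nat.gcd (nI (R.b i)) (3 * f) := Nat.dvd_gcd h1 (dvd_mul_right 3 f)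
  rw [h2] at h3
  omega

lemma muX_ne {f : ℕ} {A B : ℤ} {ι : Type} (R : Reps A B (3 * f) ι) (i : ι) : muX R i ≠ 0 := by
  have h1 := nI_ne R i
  have h2 : nI (R.b i) ≠ 0 := by
    intro h
    rw [h] at h1
    exact h1 (dvd_zero _)
  unfold muX
  exact div_ne_zero (mul_ne_zero (R.nl i).om_ne (Nat.cast_ne_zero.2 h2)) (R.nl R.i0).om_ne

lemma kkC_pow {f : ℕ} {A B : ℤ} {ι : Type} (R : Reps A B (3 * f) ι) (kp : ι → ℂ) (r : ℕ)
    (hkp : ∀ i, kp i ^ r = 1) (s : ℤ) (i : ι) :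
    kkC R kp (fun i => muX R i) s i ^ (8 * r) = 1 := by
  have h1 : kp i * muX R i / muX R i = kp i := mul_div_cancel_right₀ _ (muX_ne R i)
  unfold kkC
  rw [h1, mul_pow, mul_comm 8 r, pow_mul, hkp, one_pow, one_mul, mul_comm r 8, pow_mul]
  split_ifs with h2
  · rw [one_pow, one_pow]
  · rcases w3_unit (nI_ne R i) with h3 | h3
    · rw [h3]
      simp
    · rw [h3]
      have : (((-1 : ℤ) : ℂ)) ^ 8 = 1 := by
        push_cast
        norm_num
      rw [this, one_pow]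

end I31

/-- (I31) one level -/
theorem tn_I31 (hRES : Pool.Agent.MUXJ.Sj_RES) (hCHI : Si_CHI) (hFOU : Sn_FOU)
    (hTG : St_ITG) (hEPS : Sn_EPS) (hTEI : Sn_TEI) (hE0 : Sn_E0) (hARF : Si_ARF)
    (hXXF : Si_XXF) (hSUB : Sn_SUB) (hGAM : Si_GAM) (hXM : Sn_XMX) (hBIJ : Si_BIJ) (hTH : Sn_TH)
    (hGEN : Si_GEN) (hH : Sn_HFIN) (hGAL : S_GALX) : Sn_I31 := by
  classical
  intro A B V f hS hTor ι iι R u el lam hG K Bn iK iKB hB hcop hKT hk hkK C hE c₀ mem hc₀ χ n₀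
  let aK : Algebra (kk A B) K := algC hkK
  have iP : Fact (Nat.Prime 3) := ⟨Nat.prime_three⟩
  have hCQ : CQ A B := hS.case.toCQ
  have hL : SetL 3 A B f := setL_N hS
  have hpV : ((3 : ℕ) : ℂ) ∈ V.nonunits := by
    have h1 := (hS.hV ((3 : ℕ) : OO A B)).2 (Ideal.mem_span_singleton_self _)
    rwa [I31.emb_nat] at h1
  obtain ⟨iF1, iF2⟩ := hRES 3 V hpV
  have galK : IsGalois (kk A B) K := (isGalois_algC hkK).2 hB.gal
  have fdkK := Pool.Agent.FX.fd (kk A B) K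
  have commK : ∀ a b : K ≃ₐ[kk A B] K, a * b = b * a := by
    intro a b
    have h1 := hB.ab ((extEquiv hkK).symm.autCongr a) ((extEquiv hkK).symm.autCongr b)
    rw [← map_mul, ← map_mul] at h1
    exact (extEquiv hkK).symm.autCongr.injective h1
  have iG0 : Fintype (K ≃ₐ[kk A B] K) := Fintype.ofFinite _
  have hcard : Fintype.card (K ≃ₐ[kk A B] K) =
      Module.finrank (kk A B) (IntermediateField.extendScalars hB.hk) := by
    rw [← Nat.card_eq_fintype_card, IsGalois.card_aut_eq_finrank]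
    exact (Pool.Agent.FX.fre (extEquiv hkK))
  have hc3 : ¬ 3 ∣ Fintype.card (K ≃ₐ[kk A B] K) := by
    rw [hcard]
    exact hcop
  obtain ⟨X, θ, hXθ⟩ := hCHI 3 V hpV iF1 iF2 (K ≃ₐ[kk A B] K) commK hc3 χ
  obtain ⟨rr, hrr⟩ : ∃ rr, rr = Fintype.card (K ≃ₐ[kk A B] K) := ⟨_, rfl⟩
  have hXr : ∀ τ, X τ ^ rr = 1 := by
    intro τ
    rw [hrr, ← map_pow, pow_card_eq_one, map_one]
  rw [← hrr] at hc3
  obtain ⟨e0, kp, h01, h0m, h0mul, h0per, h0supp, h0pow, hkp, h0X⟩ := hE0 3 A B f hL hTor ι R K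
    hkK hKT galK X _ hXr
  obtain ⟨w, hw⟩ := hTEI A B V hS.case hS.hV
  obtain ⟨e, s, i, hei, hs, hi4, hi7, hty, hepow, hes⟩ := hEPS A B V f hS w hw e0 rr h01
    h0m h0mul h0per h0supp h0pow
  have hkk := I31.kkC_pow R kp rr hkp s
  have h8 : ¬ 3 ∣ 8 * rr := by
    intro h
    rcases (Nat.Prime.dvd_mul Nat.prime_three).1 h with h | h
    · omega
    · exact hc3 h
  obtain ⟨n, hn1, hnot⟩ := hH A B V f hS hTor ι R u el lam hG w hw e hei (8 * rr) h8 hepow i hi4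
    hi7 hty s hs (kkC R kp (fun i => muX R i) s) hkk (n₀ + 1)
  refine ⟨n, by omega, ?_⟩
  have hn2 : 1 ≤ n := by omega
  let akL : Algebra (kk A B) ↥(K ⊔ Bn n) := algC (hk n)
  intro γ hγ iN r hr
  obtain ⟨gal, comm⟩ := hGAL 3 (kk A B) K Bn hB n (hk n)
  have hNL : ∃ (b : Ideal (OO A B)) (L : PeriodPair) (om : ℂ), IsNL b L om :=
    ⟨_, _, _, R.nl R.i0⟩
  have hsub := hSUB 3 A B f hL hTor hNL K hKT n (Bn n) (hB.lay n)
  obtain ⟨γ₀, hγ₀, hγ₀z⟩ := hGAM 3 (Or.inr rfl) (kk A B) K Bn hB n (hk n)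
  have hXX := hXM 3 A B f hL hTor ι R K (Bn n) n (hk n) (hB.lay n) hsub gal γ₀ hγ₀z
  obtain ⟨hbij, hrmul⟩ := hBIJ 3 (kk A B) K Bn hB n (hk n) hkK r hr
  have fdk := Pool.Agent.FX.fd (kk A B) ↥(K ⊔ Bn n)
  have iG : Finite (↥(K ⊔ Bn n) ≃ₐ[kk A B] ↥(K ⊔ Bn n)) := inferInstance
  let rh : NC (hk n) (Bn n) →* (K ≃ₐ[kk A B] K) := MonoidHom.mk' r hrmul
  let X' : NC (hk n) (Bn n) →* ℂˣ := X.comp rh
  have hX'θ : (∑ δ : NC (hk n) (Bn n),
      (((θ ((χ (r δ))⁻¹ : (IsLocalRing.ResidueField V)ˣ)).val : ℕ) : ℂ) * (X' δ : ℂ)) ∉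
        V.nonunits := by
    have h1 : (∑ δ : NC (hk n) (Bn n),
      (((θ ((χ (r δ))⁻¹ : (IsLocalRing.ResidueField V)ˣ)).val : ℕ) : ℂ) * (X' δ : ℂ)) =
        ∑ δ : K ≃ₐ[kk A B] K,
      (((θ ((χ δ)⁻¹ : (IsLocalRing.ResidueField V)ˣ)).val : ℕ) : ℂ) * (X δ : ℂ) :=
      Fintype.sum_bijective r hbij _ _ fun δ => rfl
    rw [h1]
    exact hXθ
  have hKD : K ≤ K ⊔ Bn n := le_sup_left
  have hq3 : q0 3 = 3 := by simp [q0]
  have hCc : ∀ i, (nI (R.b i)).Coprime (lvX 3 f n) := by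
    intro i
    have h1 := R.cop i
    have h2 : lvX 3 f n ∣ (3 * f) ^ (n + 1) := by
      have h4 : f ∣ f ^ (n + 1) := dvd_pow_self f (by omega)
      have h5 : lvX 3 f n = 3 ^ (n + 1) * f := by
        unfold lvX
        rw [hq3]
        ring
      rw [h5, mul_pow]
      exact mul_dvd_mul (dvd_refl _) h4
    exact Nat.Coprime.coprime_dvd_right h2 (Nat.Coprime.pow_right _ h1)
  have hm2 : 2 ≤ lvX 3 f n := by
    have h2 : 1 ≤ 3 ^ n := Nat.one_le_pow _ _ (by norm_num)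
    have h3 : 1 ≤ f := Nat.one_le_iff_ne_zero.2 hS.f0
    unfold lvX
    rw [hq3]
    nlinarith [Nat.mul_le_mul h3 h2]
  have hm0 : (idl (A := A) (B := B) (lvX 3 f n)) ≠ ⊥ := by
    intro h
    have h1 : ((lvX 3 f n : ℕ) : OO A B) = 0 := Ideal.span_singleton_eq_bot.1 h
    have h2 := congrArg emb h1
    rw [I31.emb_nat] at h2
    have h3 : emb (0 : OO A B) = 0 := by
      unfold emb
      simp
    rw [h3] at h2
    have h4 : lvX 3 f n = 0 := by exact_mod_cast h2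
    omega
  have hlv : lvX 3 f 0 ∣ lvX 3 f n := by
    unfold lvX
    rw [pow_zero, mul_one]
    exact dvd_mul_right _ _
  have hle : idl (A := A) (B := B) (lvX 3 f n) ≤ idl (lvX 3 f 0) := by
    refine Ideal.span_singleton_le_span_singleton.2 ?_
    exact_mod_cast Nat.cast_dvd_cast hlv
  have hchi : ∀ (δ : NC (hk n) (Bn n)) (j : ℕ),
      ∀ q ∈ XX R (lvX 3 f n) (hk n) (γ₀ ^ j * (δ : ↥(K ⊔ Bn n) ≃ₐ[kk A B] ↥(K ⊔ Bn n))),
      (((X' δ)⁻¹ : ℂˣ) : ℂ) = kp q.1 * e0 (Quotient.out q.2) := by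
    intro δ j q hq
    have hqc : IsCoprime (Quotient.out q.2 : OO A B) ((lvX 3 f n : ℕ) : OO A B) := hq.1
    have h1 := hXXF A B hCQ hTor (3 * f) ι R (lvX 3 f n) hm2 hCc (K ⊔ Bn n) (hk n) hsub gal
    have hq2 : (q.1, Ideal.Quotient.mk (idl (A := A) (B := B) (lvX 3 f n))
        (Quotient.out q.2)) = q := Prod.ext rfl (Quotient.out_eq' q.2)
    have h2 := (h1.1 (γ₀ ^ j * (δ : ↥(K ⊔ Bn n) ≃ₐ[kk A B] ↥(K ⊔ Bn n))) q.1
      (Quotient.out q.2) hqc).1 (by rw [hq2]; exact hq)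
    obtain ⟨-, -, -, -, -, h3, -⟩ := hARF A B hCQ hTor hNL (idl (lvX 3 f n)) hm0 (K ⊔ Bn n)
      (hk n) hsub gal
    have hγj : ∀ (i : ℕ) (z : ↥(K ⊔ Bn n)), (z : ℂ) ∈ K → (γ₀ ^ i) z = z := by
      intro i z hz
      induction i with
      | zero => rfl
      | succ i ih =>
        rw [pow_succ, AlgEquiv.mul_apply, (hγ₀ z).2 hz, ih]
    have h4 := h3 K hkK (idl (lvX 3 f 0)) hle hKD
      (γ₀ ^ j * (δ : ↥(K ⊔ Bn n) ≃ₐ[kk A B] ↥(K ⊔ Bn n))) (r δ)
      (sp (Quotient.out q.2) * cjI (R.b q.1)) (by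
        intro x x' hx
        rw [AlgEquiv.mul_apply]
        have h5 := hr δ x x' hx
        have h6 : (((δ : ↥(K ⊔ Bn n) ≃ₐ[kk A B] ↥(K ⊔ Bn n)) x' : ↥(K ⊔ Bn n)) : ℂ) ∈ K := by
          rw [h5]
          exact (r δ x).2
        rw [hγj j _ h6]
        exact h5) h2
    have hco : IsCoprime (Quotient.out q.2 : OO A B) ((lvX 3 f 0 : ℕ) : OO A B) := by
      have h7 : ((lvX 3 f 0 : ℕ) : OO A B) ∣ ((lvX 3 f n : ℕ) : OO A B) := by
        exact_mod_cast Nat.cast_dvd_cast hlv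
      exact hqc.of_isCoprime_of_dvd_right h7
    exact h0X (r δ) q.1 (Quotient.out q.2) hco h4
  -- the ideal `(3 f)`
  have hg1 : idl (A := A) (B := B) (lvX 3 f 0) ≤ idl (3 * f) := by
    refine Ideal.span_singleton_le_span_singleton.2 ?_
    have h1 : 3 * f ∣ lvX 3 f 0 := by
      unfold lvX
      rw [hq3, pow_zero, mul_one, mul_comm]
    exact_mod_cast Nat.cast_dvd_cast h1
  have hg2 : idl (A := A) (B := B) (3 * f) ≤ idl f := by
    refine Ideal.span_singleton_le_span_singleton.2 ?_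
    have h1 : f ∣ 3 * f := dvd_mul_left f 3
    exact_mod_cast Nat.cast_dvd_cast h1
  have hg3 : idl (A := A) (B := B) (lvX 3 f n) ≤ idl 3 := by
    refine Ideal.span_singleton_le_span_singleton.2 ?_
    have h1 : 3 ∣ lvX 3 f n := by
      unfold lvX
      rw [hq3]
      exact Dvd.dvd.mul_right (dvd_mul_left 3 f) _
    exact_mod_cast Nat.cast_dvd_cast h1
  have hTHi := hTH 3 A B f hL (idl (3 * f)) hg1 hg2 ι R n _ γ₀ (NC (hk n) (Bn n))
    (fun τ => XX R (lvX 3 f n) (hk n) τ) hXX X' e0 kp (fun i => muX R i) w e s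
    (fun x y hxy => h0per x y (hle hxy)) (fun x y hxy => hw.per x y (hg3 hxy)) hei hs
    (fun h => by omega) hes hchi
  -- the statement for `γ₀`
  have hcne : c₀ n ≠ 0 := by
    rw [hc₀ n hn2]
    exact (hE n hn2).ne
  have key : ∀ y : ↥(K ⊔ Bn n), y ^ 3 ≠ ∏ δ : NC (hk n) (Bn n),
      ((δ : ↥(K ⊔ Bn n) ≃ₐ[kk A B] ↥(K ⊔ Bn n)) ((Tg γ₀)^[1] ⟨c₀ n, mem n⟩)) ^
        (θ ((χ (r δ))⁻¹ : (IsLocalRing.ResidueField V)ˣ)).val := by
    intro y hy
    have hHf := I31.pows hFOU hTG V f R u n (K ⊔ Bn n) (hk n) (C n) (hE n hn2) w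
      hw comm (c₀ n) (mem n) (hc₀ n hn2) γ₀ (NC (hk n) (Bn n)) 1
      (fun δ => (θ ((χ (r δ))⁻¹ : (IsLocalRing.ResidueField V)ˣ)).val) X' hX'θ y hy
    refine absurd hHf (not_le_of_gt ?_)
    have hS1 : ∑ j ∈ Finset.range (1 + 1),
        (((-1 : ℤ) ^ (1 - j) * (Nat.choose 1 j : ℤ) : ℤ) : ℂ) *
        ∑ δ : NC (hk n) (Bn n), (((X' δ)⁻¹ : ℂˣ) : ℂ) * TTN R w (lvX 3 f n)
          (aX 3 f) (hk n) (γ₀ ^ j * (δ : ↥(K ⊔ Bn n) ≃ₐ[kk A B] ↥(K ⊔ Bn n))) =
        ∑ j ∈ Finset.range 2, (-1) ^ (1 - j) *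
        (STX R (lvX 3 f n) (3 ^ (n + 1)) (aX 3 f) e (kkC R kp (fun i => muX R i) s) (4 ^ j) +
          s * STX R (lvX 3 f n) (3 ^ (n + 1)) (aX 3 f) e (kkC R kp (fun i => muX R i) s)
            (-(4 ^ j))) := by
      refine Finset.sum_congr rfl fun j hj => ?_
      have hj1 : j ≤ 1 := by
        have := Finset.mem_range.1 hj
        omega
      have hch : Nat.choose 1 j = 1 := by
        interval_cases j <;> rfl
      have h9 := hTHi j
      have e1 : q0 3 * 3 ^ n = 3 ^ (n + 1) := by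
        rw [hq3]
        ring
      have e2 : (1 + (q0 3 : ℤ)) = 4 := by
        rw [hq3]
        norm_num
      rw [e1, e2] at h9
      have h10 : ∑ δ : NC (hk n) (Bn n), (((X' δ)⁻¹ : ℂˣ) : ℂ) * TTN R w (lvX 3 f n)
          (aX 3 f) (hk n) (γ₀ ^ j * (δ : ↥(K ⊔ Bn n) ≃ₐ[kk A B] ↥(K ⊔ Bn n))) = _ := h9
      rw [h10, hch]
      push_cast
      ring
    rw [hS1]
    exact hnot
  have key2 := hGEN 3 (kk A B) K Bn hB n (hk n) (c₀ n) (mem n) hcne 1 γ₀ hγ₀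
    (fun δ => (θ ((χ (r δ))⁻¹ : (IsLocalRing.ResidueField V)ˣ)).val) key γ hγ
  exact ⟨θ, key2⟩

end

end Pool.Agent.NSI


end

section

/-!
# MUX, block W, module FRH (helper97): Frobenius automorphisms which are trivial on `H`
-/

set_option autoImplicit false

open WeierstrassCurve Polynomial NumberField IsDedekindDomain

namespace Pool.Agent.MUXW

open _root_.MU3 _root_.Pool.Agent.MU3A _root_.Pool.Agent.MU3B _root_.Pool.Agent.MU3C _root_.Pool.Agent.RI _root_.Pool.Agent.RID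
open _root_.Pool.Agent.MUX _root_.Pool.Agent.MUXU
open _root_.Pool.Agent.MU3V (cls Sub GD)
open _root_.Pool.Agent.MUXV (GR InK tX CMO Ovr Sq_EMB Sq_FRX Sq_VQI Sq_ALU Sq_TOR Sq_CYQ Sq_DGI Sq_DGL)

noncomputable section

namespace FRH

lemma kap_mem {A B : ℤ} (m : Ideal (OO A B)) {b : Ideal (OO A B)} {L : PeriodPair} {om : ℂ}
    (hL : IsNL b L om) : kap L ∈ (RF m : IntermediateField (kk A B) ℂ) :=
  IntermediateField.subset_adjoin _ _ ⟨b, L, om, hL, Or.inl rfl⟩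

/-- the invariants are algebraic -/
lemma alg {A B : ℤ} [IsDomain (OO A B)] (hw : wC A B ^ 2 = A + B * wC A B) (T : TorX A B)
    {b : Ideal (OO A B)} {L : PeriodPair} {om : ℂ} (hL : IsNL b L om) :
    IsAlgebraic ℚ (kap L) := by
  have h0 : _root_.IsIntegral ℤ (wC A B) := by
    refine ⟨Polynomial.X ^ 2 - Polynomial.C B * Polynomial.X - Polynomial.C A, ?_, ?_⟩
    · monicity!
    · simp only [Polynomial.eval₂_sub, Polynomial.eval₂_mul, Polynomial.eval₂_pow,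
        Polynomial.eval₂_X, Polynomial.eval₂_C]
      simp only [algebraMap_int_eq, eq_intCast]
      linear_combination hw
  have h1 : _root_.IsIntegral ℚ (wC A B) := h0.tower_top
  have hfk : FiniteDimensional ℚ (kk A B) := IntermediateField.adjoin.finiteDimensional h1
  have hne : (⊤ : Ideal (OO A B)) ≠ ⊥ := bot_ne_top.symm
  have h2 := T.fin ⊤ hne
  have h3 : FiniteDimensional ℚ (RF (⊤ : Ideal (OO A B)) : IntermediateField (kk A B) ℂ) :=
    FiniteDimensional.trans ℚ (kk A B) (RF (⊤ : Ideal (OO A B)) : IntermediateField (kk A B) ℂ)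
  have h4 : IsAlgebraic ℚ
      (⟨kap L, kap_mem ⊤ hL⟩ : (RF (⊤ : Ideal (OO A B)) : IntermediateField (kk A B) ℂ)) :=
    Algebra.IsAlgebraic.isAlgebraic _
  exact h4.algebraMap

end FRH

open _root_.Pool.Agent.MUXW.FRH in
theorem ty_FRH (he : Sq_EMB) (hDET : Su_DET) (hFRX : Sq_FRX) (hVQI : Sq_VQI) (hALU : Sq_ALU)
    (hTOR : Sq_TOR) (hCYQ : Sq_CYQ) (hDGI : Sq_DGI) (hDGL : Sq_DGL) (hGRB : Sy_GRB)
    (hKER : Sy_KER) (hACM : Sy_ACM) : Sy_FRH := by
  intro A B hC T n ι hfin R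
  have hF := KER.cqF hC
  obtain ⟨h1, h2, h3, h4, h5, hinj, hw, -, hstar, hnm, hnm0, hnmz, hdom⟩ := he A B hF
  have hft := Fintype.ofFinite ι
  choose ng hng hng' using fun i => hGRB A B hC T (R.b i) (R.L i) (R.om i) (R.nl i)
  have hpair : ∀ i j : ι, ∃ k : ℕ, k ≠ 0 ∧ ∀ V : ValuationSubring ℂ, V.valuation (k : ℂ) = 1 →
      kap (R.L i) ≠ kap (R.L j) → V.valuation (kap (R.L i) - kap (R.L j)) = 1 := by
    intro i j
    by_cases hij : kap (R.L i) = kap (R.L j)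
    · exact ⟨1, one_ne_zero, fun V _ h => absurd hij h⟩
    · obtain ⟨k, hk, hk'⟩ := hALU (kap (R.L i) - kap (R.L j))
        ((alg hw T (R.nl i)).sub (alg hw T (R.nl j))) (sub_ne_zero.2 hij)
      exact ⟨k, hk, fun V hV _ => hk' V hV⟩
  choose np hnp hnp' using hpair
  have hD : B ^ 2 + 4 * A ≠ 0 := hC.neg.ne
  refine ⟨(∏ i, ng i) * (∏ i, ∏ j, np i j) * (B ^ 2 + 4 * A).natAbs * 6, ?_, ?_⟩
  · refine mul_ne_zero (mul_ne_zero (mul_ne_zero ?_ ?_) ?_) (by norm_num)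
    · exact Finset.prod_ne_zero_iff.2 fun i _ => hng i
    · exact Finset.prod_ne_zero_iff.2 fun i _ => Finset.prod_ne_zero_iff.2 fun j _ => hnp i j
    · exact Int.natAbs_ne_zero.2 hD
  intro m hm Q q hq hqn hqm hcard V hV σ hσ hTr
  have hq6 : ¬ q ∣ 6 := fun h => hqn (h.mul_left _)
  have hqD : ¬ (q : ℤ) ∣ B ^ 2 + 4 * A := fun h =>
    hqn (((Int.natCast_dvd.1 h).mul_left _).mul_right _)
  have hqg : ∀ i, ¬ q ∣ ng i := fun i h =>
    hqn ((((h.trans (Finset.dvd_prod_of_mem _ (Finset.mem_univ i))).mul_right _).mul_right _).mul_right _)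
  have hqp : ∀ i j, ¬ q ∣ np i j := fun i j h =>
    hqn (((((h.trans (Finset.dvd_prod_of_mem _ (Finset.mem_univ j))).trans
      (Finset.dvd_prod_of_mem (fun i => ∏ j, np i j) (Finset.mem_univ i))).mul_left _).mul_right _).mul_right _)
  have hq2 : q ≠ 2 := by rintro rfl; exact hq6 (by norm_num)
  have hq3 : q ≠ 3 := by rintro rfl; exact hq6 (by norm_num)
  obtain ⟨-, hV2⟩ := hVQI A B hF V
  obtain ⟨hvq, hvs, hvx⟩ := hV2 Q q hq hcard hV
  have hvn : ∀ k : ℕ, ¬ q ∣ k → V.valuation (k : ℂ) = 1 := fun k hk => by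
    have := hvs (k : ℤ) (by exact_mod_cast hk)
    simpa using this
  have hvm : V.valuation ((nm m : ℤ) : ℂ) = 1 := hvs _ hqm
  have hdat := fun i => hng' i V (hvn _ (hqg i))
  obtain ⟨r, -, hr⟩ := hDGI A B Q q hq hcard
  have hL : IsNL (⊤ : Ideal (OO A B)) (R.L R.i0) (R.om R.i0) := by
    have := R.nl R.i0
    rwa [R.b0] at this
  have hCMO : CMO A B (R.L R.i0) := fun x z hz => KER.stab he hC hL x hz
  have hqQ : ((q : ℕ) : OO A B) ∈ Q := by
    rw [hr]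
    simp
  have hmn : (sp m : Ideal (OO A B)) ≠ ⊥ := by rwa [Ne, Ideal.span_singleton_eq_bot]
  have hcop : IsCoprime Q (sp m) := by
    obtain ⟨x, y, hxy⟩ : IsCoprime (q : ℤ) (nm m) := (Int.isCoprime_iff_gcd_eq_one.2
      ((Nat.Prime.coprime_iff_not_dvd hq).2 (fun h => hqm (Int.natCast_dvd.2 h))))
    rw [Ideal.isCoprime_iff_exists]
    refine ⟨x * ((q : ℕ) : OO A B), Ideal.mul_mem_left _ _ hqQ, y * ((nm m : ℤ) : OO A B), ?_, ?_⟩
    · rw [← hstar]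
      exact Ideal.mul_mem_left _ _ (Ideal.mul_mem_right _ _ (Ideal.mem_span_singleton_self m))
    · have : (((x * (q : ℤ) + y * nm m : ℤ)) : OO A B) = 1 := by rw [hxy]; norm_num
      push_cast at this
      exact this
  have hQ0 : Q ≠ ⊥ := by
    intro h0
    rw [h0, Ideal.mem_bot] at hqQ
    have h1 := congrArg (fun x : OO A B => x.re) hqQ
    have h2 : ((q : ℕ) : ℤ) = 0 := by simpa using h1
    exact hq.ne_zero (by exact_mod_cast h2)
  obtain ⟨s, hs, hact⟩ := T.surj (sp m) hmn Q hQ0 hcop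
  obtain ⟨b', M, om', mu, hM, hA⟩ := hact _ _ _ hL
  obtain ⟨i, hk, hlat, hP⟩ := HIT.repr he hC R hM
  have hg2 : M.g₂ = (R.L i).g₂ := by
    unfold kap at hk
    linear_combination 144 * hk
  obtain ⟨-, -, hd3, hd4, hGR⟩ := hdat R.i0
  obtain ⟨-, -, he3, he4, -⟩ := hdat i
  have hkM : V.valuation (kap M) = 1 := by rw [hk]; exact he3
  obtain ⟨hfr1, hfr2⟩ := hFRX A B hF Q q hq hq2 hq3 hqD hcard (R.L R.i0) M mu hCMO hA.isq hL.nrm
    hM.nrm V hV hd3 hd4 hkM (by rw [hg2]; exact he4)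
  -- the invariant
  have hkV : kap (R.L R.i0) ∈ V := (ValuationSubring.valuation_le_one_iff _ _).1 hd3.le
  have hkk := hσ ⟨kap (R.L R.i0), kap_mem _ hL⟩ hkV
  rw [hTr ⟨kap (R.L R.i0), kap_mem _ hL⟩ (kap_mem _ hL)] at hkk
  have hfr1' : V.valuation (kap M - kap (R.L R.i0) ^ q) < 1 := hfr1
  have hkd : V.valuation (kap (R.L i) - kap (R.L R.i0)) < 1 := by
    have h6 : kap (R.L i) - kap (R.L R.i0) =
        (kap M - kap (R.L R.i0) ^ q) - (kap (R.L R.i0) - kap (R.L R.i0) ^ q) := by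
      rw [hk]; ring
    rw [h6]
    exact Valuation.map_sub_lt V.valuation hfr1' hkk
  have hi : i = R.i0 := by
    apply HIT.uniq he hDET hC R
    by_contra hne
    exact absurd (hnp' i R.i0 V (hvn _ (hqp _ _)) hne) hkd.ne
  subst hi
  -- `mu = emb lam`
  have hom := hL.om_ne
  have hmu0 := hA.isq.1
  have hmem : ∀ c : OO A B, R.om R.i0 * emb c ∈ (R.L R.i0).lattice := fun c =>
    (hL.mem _).2 ⟨c, Submodule.mem_top, rfl⟩
  have he1 : emb (1 : OO A B) = 1 := by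
    have := h5 1
    rwa [Nat.cast_one, Nat.cast_one] at this
  obtain ⟨lam, hlam⟩ : ∃ lam : OO A B, mu = emb lam := by
    have h6 : mu * R.om R.i0 ∈ (R.L R.i0).lattice := by
      rw [hlat, hA.isq.2]
      intro x _
      rw [mul_comm]
      exact hmem x
    obtain ⟨lam, -, h7⟩ := (hL.mem _).1 h6
    refine ⟨lam, ?_⟩
    rw [mul_comm mu] at h7
    exact mul_left_cancel₀ hom h7
  subst hlam
  have hdv : ∀ x ∈ Q, lam ∣ x := by
    intro x hx
    have h6 : emb lam * (R.om R.i0 / emb lam) ∈ M.lattice := by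
      rw [← hlat, mul_div_cancel₀ _ hmu0]
      have := hmem 1
      rwa [he1, mul_one] at this
    obtain ⟨y, -, h7⟩ := (hL.mem _).1 ((hA.isq.2 _).1 h6 x hx)
    refine ⟨y, hinj _ _ ?_⟩
    rw [h1]
    field_simp at h7
    exact h7
  -- the norm of `lam`
  obtain ⟨-, -, -, H, hH, hHc⟩ := hCYQ A B hF Q q hq hq2 hqD hcard (R.L R.i0) M (emb lam) hCMO hA.isq
  have hlu : nm lam ≠ 1 := by
    intro h6
    have h7 : lam * star lam = 1 := by rw [hstar, h6]; norm_num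
    have h8 : H.Nonempty := by
      rw [← Finset.card_pos]
      have := hq.two_le
      omega
    obtain ⟨z, hz⟩ := h8
    have h9 := hH.mem z hz
    rw [← hlat] at h9
    apply hH.ne z hz
    have h10 := hCMO (star lam) _ h9
    rw [← mul_assoc, ← h1, mul_comm (star lam), h7, he1, one_mul] at h10
    rw [two_mul]
    exact add_mem h10 h10
  obtain ⟨t, ht⟩ := hdv _ hqQ
  have hnq : nm lam * nm t = (q : ℤ) ^ 2 := by
    rw [← hnm, ← ht]
    simp [nm]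
  have hnl : nm lam = q := by
    obtain ⟨a, ha⟩ := Int.eq_ofNat_of_zero_le (hnm0 lam)
    obtain ⟨c, hc⟩ := Int.eq_ofNat_of_zero_le (hnm0 t)
    rw [ha, hc] at hnq
    have hac : a * c = q ^ 2 := by exact_mod_cast hnq
    obtain ⟨k, hk2, hak⟩ := (Nat.dvd_prime_pow hq).1 (Dvd.intro c hac)
    interval_cases k
    · exfalso
      apply hlu
      rw [ha, hak]
      norm_num
    · rw [ha, hak, pow_one]
    · exfalso
      have hc1 : c = 1 := by
        rw [hak] at hac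
        have h6 : q ^ 2 ≠ 0 := pow_ne_zero _ hq.ne_zero
        exact Nat.eq_of_mul_eq_mul_left (Nat.pos_of_ne_zero h6) (by rw [hac, mul_one])
      have h7 : t * star t = 1 := by rw [hstar, hc, hc1]; norm_num
      have h8 : (⟨-r, 1⟩ : OO A B) ∈ Q := by
        rw [hr]
        simp
      obtain ⟨y, hy⟩ := hdv _ h8
      have h9 : (⟨-r, 1⟩ : OO A B) = ((q : ℕ) : OO A B) * (y * star t) := by
        rw [ht, hy]
        linear_combination (-(lam * y)) * h7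
      have h10 := congrArg QuadraticAlgebra.im h9
      have h11 : (1 : ℤ) = q * (y * star t).im := by
        simpa [QuadraticAlgebra.im_mul] using h10
      have h12 : (q : ℤ) ∣ 1 := ⟨_, h11⟩
      have h13 : q ∣ 1 := by exact_mod_cast h12
      exact hq.one_lt.ne' (Nat.dvd_one.1 h13)
  have hQ : Q = Ideal.span {lam} := by
    apply le_antisymm
    · intro x hx
      exact Ideal.mem_span_singleton.2 (hdv x hx)
    · rw [Ideal.span_singleton_le_iff_mem, hr]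
      obtain ⟨-, -, -, -, h6⟩ := hDGL A B hF lam q hq hnl
      apply h6
      have h7 : lam - ((lam.re + lam.im * r : ℤ) : OO A B) ∈ Q := by
        rw [hr]
        simp
      have h8 := dvd_sub (dvd_refl lam) (hdv _ h7)
      rwa [sub_sub_cancel] at h8
  obtain ⟨a, ha⟩ := (hKER A B hC T m hm).1 σ hTr
  refine ⟨lam, hQ, hnl, (hACM A B hC (R.L R.i0) (R.om R.i0) hL m hm).2.1 _ σ a lam ?_ ha⟩
  -- `a ≡ ± lam`
  obtain ⟨W, ξ, G⟩ := hGR
  by_cases hu : IsUnit m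
  · exact Or.inl hu.dvd
  have hm0 : emb m ≠ 0 := HIT.ne0 he hC hm
  have hK : ∀ z, emb m * z ∈ (R.L R.i0).lattice →
      InK V (R.L R.i0) (fun z => (R.L R.i0).weierstrassP z - 1 / 12) z → z ∈ (R.L R.i0).lattice :=
    hTOR A B hF V W (R.L R.i0) _ _ ξ G hCMO m hvm
  have hdvd : ∀ c : OO A B, emb c * (R.om R.i0 / emb m) ∈ (R.L R.i0).lattice → m ∣ c := by
    intro c hc
    obtain ⟨x, -, hx⟩ := (hL.mem _).1 hc
    refine ⟨x, hinj _ _ ?_⟩
    rw [h1]
    field_simp at hx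
    exact hx
  have hz : R.om R.i0 / emb m ∉ (R.L R.i0).lattice := by
    intro h0
    apply hu
    rw [isUnit_iff_dvd_one]
    apply hdvd
    rw [he1, one_mul]
    exact h0
  have hmc : ∀ c : OO A B, emb m * (emb c * (R.om R.i0 / emb m)) ∈ (R.L R.i0).lattice := by
    intro c
    have e : emb m * (emb c * (R.om R.i0 / emb m)) = R.om R.i0 * emb c := by field_simp
    rw [e]
    exact hmem c
  have hmz : emb m * (R.om R.i0 / emb m) ∈ (R.L R.i0).lattice := by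
    have := hmc 1
    rwa [he1, one_mul] at this
  obtain ⟨haz, hx⟩ := ha.pt ⊤ (R.L R.i0) (R.om R.i0) hL _ hmz hz
  have hxF : xn (R.L R.i0) (R.om R.i0 / emb m) ∈ (RF (sp m) : IntermediateField (kk A B) ℂ) := by
    refine IntermediateField.subset_adjoin _ _
      ⟨⊤, R.L R.i0, R.om R.i0, hL, Or.inr ⟨_, ?_, hz, rfl⟩⟩
    intro x hx
    obtain ⟨y, rfl⟩ := Ideal.mem_span_singleton.1 hx
    rw [h1, mul_assoc]
    exact hmc y
  have hz1 : ¬ InK V (R.L R.i0) (fun z => (R.L R.i0).weierstrassP z - 1 / 12)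
      (R.om R.i0 / emb m) := fun h0 => hz (hK _ hmz h0)
  have hz2 : ¬ InK V (R.L R.i0) (fun z => (R.L R.i0).weierstrassP z - 1 / 12)
      (emb a * (R.om R.i0 / emb m)) := fun h0 => haz (hK _ (hmc a) h0)
  obtain ⟨hf1, hf2⟩ := hfr2 _ hz1
  have hlz : emb lam * (R.om R.i0 / emb m) ∉ (R.L R.i0).lattice := by
    rw [hlat]
    exact (Pool.Agent.MUXV.int_X hf1).1
  have hz3 : ¬ InK V (R.L R.i0) (fun z => (R.L R.i0).weierstrassP z - 1 / 12)
      (emb lam * (R.om R.i0 / emb m)) := fun h0 => hlz (hK _ (hmc lam) h0)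
  rw [hP] at hf2
  have hx1 := hσ ⟨_, hxF⟩
    ((ValuationSubring.valuation_le_one_iff _ _).1 (Pool.Agent.MUXV.int_X hz1).2)
  rw [hx hxF] at hx1
  have hx3 : V.valuation (xn (R.L R.i0) (emb a * (R.om R.i0 / emb m)) -
      xn (R.L R.i0) (emb lam * (R.om R.i0 / emb m))) < 1 := by
    have h6 : xn (R.L R.i0) (emb a * (R.om R.i0 / emb m)) -
        xn (R.L R.i0) (emb lam * (R.om R.i0 / emb m)) =
        (xn (R.L R.i0) (emb a * (R.om R.i0 / emb m)) - xn (R.L R.i0) (R.om R.i0 / emb m) ^ q) -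
        (((R.L R.i0).weierstrassP (emb lam * (R.om R.i0 / emb m)) - 1 / 12) -
          ((R.L R.i0).weierstrassP (R.om R.i0 / emb m) - 1 / 12) ^ q) := by
      unfold xn
      ring
    rw [h6]
    exact Valuation.map_sub_lt V.valuation hx1 hf2
  by_contra hcon
  rw [not_or] at hcon
  have hm1 : ¬ InK V (R.L R.i0) (fun z => (R.L R.i0).weierstrassP z - 1 / 12)
      (emb a * (R.om R.i0 / emb m) - emb lam * (R.om R.i0 / emb m)) := by
    intro h0
    rw [← sub_mul, ← h3] at h0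
    exact hcon.1 (hdvd _ (hK _ (hmc (a - lam)) h0))
  have hp1 : ¬ InK V (R.L R.i0) (fun z => (R.L R.i0).weierstrassP z - 1 / 12)
      (emb a * (R.om R.i0 / emb m) + emb lam * (R.om R.i0 / emb m)) := by
    intro h0
    rw [← add_mul, ← h2] at h0
    exact hcon.2 (hdvd _ (hK _ (hmc (a + lam)) h0))
  have h9 := Pool.Agent.MUXV.v_X_sub G hz2 hz3 hp1 hm1
  exact absurd h9 hx3.ne

end

end Pool.Agent.MUXW


end

section

/-!
# VB: when two Kummer extensions are equal (helper64)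
-/

set_option autoImplicit false

namespace Pool.Agent.VB

open _root_.Pool.Agent.RI _root_.Pool.Agent.MU3

theorem tb_KFI : Sb_KFI := by
  intro p _ L _ hz x x' y y' hxL hx'L hy hy' hyL hy'L
  have hp : p.Prime := Fact.out
  obtain ⟨ζ, hζL, hζ⟩ := hz
  have alg : Algebra.IsAlgebraic ℚ L := inferInstance
  have AUF : Pool.Agent.MUXU.Su_AUF :=
    Pool.Agent.MUXU.tu_AUF Pool.Agent.MUXU.tu_AUE Pool.Agent.MUXU.tu_AUT
  have h1 : ∃ σ : ℂ ≃+* ℂ, Fixes L σ ∧ σ y ≠ y := by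
    by_contra hcon
    push Not at hcon
    exact hyL (AUF L alg y (fun σ hσ => hcon σ hσ))
  obtain ⟨σ, hσ, hσy⟩ := h1
  have hx0 : (x : ℂ) ≠ 0 := x.ne_zero
  have hx'0 : (x' : ℂ) ≠ 0 := x'.ne_zero
  have hy0 : y ≠ 0 := by
    rintro rfl
    rw [zero_pow hp.ne_zero] at hy
    exact hx0 hy.symm
  have hy'0 : y' ≠ 0 := by
    rintro rfl
    rw [zero_pow hp.ne_zero] at hy'
    exact hx'0 hy'.symm
  have root : ∀ τ : ℂ ≃+* ℂ, Fixes L τ → ∀ z : ℂ, z ≠ 0 → z ^ p ∈ L → (τ z / z) ^ p = 1 := by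
    intro τ hτ z hz0 hz
    rw [div_pow, ← map_pow, hτ _ hz, div_self (pow_ne_zero _ hz0)]
  obtain ⟨η, hηdef⟩ : ∃ η : ℂ, η = σ y / y := ⟨_, rfl⟩
  have hyp : y ^ p ∈ L := by rw [hy]; exact hxL
  have hy'p : y' ^ p ∈ L := by rw [hy']; exact hx'L
  have hηp : η ^ p = 1 := by rw [hηdef]; exact root σ hσ y hy0 hyp
  have hη1 : η ≠ 1 := by
    rw [hηdef]
    intro h
    rw [div_eq_one_iff_eq hy0] at h
    exact hσy h
  have hσy2 : σ y = η * y := by rw [hηdef, div_mul_cancel₀ _ hy0]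
  have hηprim : IsPrimitiveRoot η p := by
    have := IsPrimitiveRoot.orderOf η
    rwa [orderOf_eq_prime hηp hη1] at this
  have hp0 : NeZero p := ⟨hp.ne_zero⟩
  have hηL : η ∈ L := by
    obtain ⟨i, -, hi⟩ := hζ.eq_pow_of_pow_eq_one hηp
    rw [← hi]
    exact pow_mem hζL i
  have tau : ∀ τ : ℂ ≃+* ℂ, Fixes L τ → ∀ z : ℂ, z ≠ 0 → z ^ p ∈ L →
      ∃ k < p, τ z = η ^ k * z := by
    intro τ hτ z hz0 hz
    obtain ⟨k, hk, hk'⟩ := hηprim.eq_pow_of_pow_eq_one (root τ hτ z hz0 hz)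
    exact ⟨k, hk, by rw [hk', div_mul_cancel₀ _ hz0]⟩
  obtain ⟨j, hj, hσy'⟩ := tau σ hσ y' hy'0 hy'p
  have hη0 : η ≠ 0 := by
    rintro rfl
    rw [zero_pow hp.ne_zero] at hηp
    exact zero_ne_one hηp
  have hσt : σ (y' / y ^ j) = y' / y ^ j := by
    rw [map_div₀, map_pow, hσy', hσy2, mul_pow, mul_div_mul_left _ _ (pow_ne_zero _ hη0)]
  have hσk : ∀ k : ℕ, (σ ^ k) y = η ^ k * y ∧ (σ ^ k) (y' / y ^ j) = y' / y ^ j := by
    intro k
    induction k with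
    | zero => exact ⟨by simp, rfl⟩
    | succ k ih =>
      have e : ∀ z : ℂ, (σ ^ (k + 1)) z = (σ ^ k) (σ z) := fun z => by
        rw [pow_succ]
        rfl
      refine ⟨?_, ?_⟩
      · rw [e, hσy2, map_mul, fixes_pow hσ k η hηL, ih.1, pow_succ]
        ring
      · rw [e, hσt]
        exact ih.2
  have htL : y' / y ^ j ∈ L := by
    refine AUF L alg _ (fun τ hτ => ?_)
    obtain ⟨k, -, hk⟩ := tau τ hτ y hy0 hyp
    have hf : Fixes (adj L y) (τ⁻¹ * σ ^ k) := by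
      refine fixes_adj (fixes_mul (fixes_inv hτ) (fixes_pow hσ k)) ?_
      show τ.symm ((σ ^ k) y) = y
      rw [RingEquiv.symm_apply_eq, (hσk k).1, hk]
    have hft : (τ⁻¹ * σ ^ k) (y' / y ^ j) = y' / y ^ j :=
      hf _ (div_mem hy'L (pow_mem (mem_adj L y) j))
    have hft2 : τ.symm ((σ ^ k) (y' / y ^ j)) = y' / y ^ j := hft
    rw [(hσk k).2, RingEquiv.symm_apply_eq] at hft2
    exact hft2.symm
  refine ⟨j, hj, Units.mk0 (y' / y ^ j) (div_ne_zero hy'0 (pow_ne_zero _ hy0)), htL, ?_⟩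
  apply Units.ext
  rw [Units.val_pow_eq_pow_val, Units.val_mk0, Units.val_div_eq_div_val, Units.val_pow_eq_pow_val,
    div_pow, hy', ← pow_mul, mul_comm j p, pow_mul, hy]

end Pool.Agent.VB


end

section

/-!
# VD1: from `F_∞` to the layers (helper71)
-/

set_option autoImplicit false

namespace Pool.Agent.VB

open _root_.Pool.Agent.RI _root_.Pool.Agent.MUXU

namespace VD1

/-- a quotient of two `p`-th roots of the same element is in every field which contains `ζ` -/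
lemma root_mem {p : ℕ} [Fact p.Prime] {F : IntermediateField ℚ ℂ} {ζ : ℂ} (hζ : ζ ∈ F)
    (hp : IsPrimitiveRoot ζ p) {η : ℂ} (h : η ^ p = 1) : η ∈ F := by
  haveI : NeZero p := ⟨(Fact.out : p.Prime).ne_zero⟩
  obtain ⟨i, -, rfl⟩ := hp.eq_pow_of_pow_eq_one h
  exact pow_mem hζ i

lemma quot_pow {p : ℕ} {x y y' : ℂ} (hx : x ≠ 0) (hy : y ^ p = x) (hy' : y' ^ p = x) :
    (y' / y) ^ p = 1 := by
  rw [div_pow, hy, hy', div_self hx]

lemma pow_act {F : IntermediateField ℚ ℂ} {σ : ℂ ≃+* ℂ} (hσ : Fixes F σ) {η y : ℂ} (hη : η ∈ F)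
    (h : σ y = η * y) (k : ℕ) : (σ ^ k) y = η ^ k * y := by
  induction k with
  | zero =>
    rw [pow_zero, pow_zero, one_mul]
    rfl
  | succ k ih =>
    have e1 : (σ ^ (k + 1)) y = (σ ^ k) (σ y) := by
      rw [pow_succ]
      rfl
    rw [e1, h, map_mul, ih, fixes_pow hσ k η hη]
    ring

end VD1

open _root_.Pool.Agent.VB.VD1 in
theorem tb_VD1 (h1 : Sb_VD2) (h2 : Sb_LIM) : Sb_VD1 := by
  intro p _ F B n₁ γ hT j x y hx hx0 hy hyF hU
  have hp0 : p ≠ 0 := (Fact.out : p.Prime).ne_zero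
  obtain ⟨ζ, hζF, hζ⟩ := hT.zeta
  obtain ⟨-, hl2, hl3⟩ := h2 F B hT.mono
  have halg := hl3 hT.fd
  have hy0 : y ≠ 0 := by
    rintro rfl
    rw [zero_pow hp0] at hy
    exact hx0 hy.symm
  have hle : F ⊔ B (n₁ + j) ≤ F ⊔ B (n₁ + (j + 1)) :=
    sup_le_sup_left (hT.mono (by omega)) F
  refine ⟨hle hx, hx0, ?_⟩
  intro y' hy' V
  have hη' : y' / y ∈ F := root_mem hζF hζ (quot_pow hx0 hy hy')
  have hη'' : y / y' ∈ F := by
    have := inv_mem hη'
    rwa [inv_div] at this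
  have hy0' : y' ≠ 0 := by
    rintro rfl
    rw [zero_pow hp0] at hy'
    exact hx0 hy'.symm
  have hFE : F ≤ F ⊔ B (n₁ + (j + 1)) := le_sup_left
  have hadj : adj (F ⊔ B (n₁ + (j + 1))) y' = adj (F ⊔ B (n₁ + (j + 1))) y := by
    apply le_antisymm
    · refine adj_le (le_adj _ _) ?_
      have : y' = (y' / y) * y := by field_simp
      rw [this]
      exact mul_mem (le_adj _ _ (hFE hη')) (mem_adj _ _)
    · refine adj_le (le_adj _ _) ?_
      have : y = (y / y') * y' := by field_simp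
      rw [this]
      exact mul_mem (le_adj _ _ (hFE hη'')) (mem_adj _ _)
  rw [hadj]
  -- an automorphism `ρ` which fixes `F_∞` and moves `y`
  obtain ⟨ρ, hρ, hρy⟩ : ∃ ρ : ℂ ≃+* ℂ, Fixes (Finf F B) ρ ∧ ρ y ≠ y := by
    by_contra hcon
    push Not at hcon
    exact hyF (tu_AUF tu_AUE tu_AUT (Finf F B) halg y (fun σ hσ => hcon σ hσ))
  have hnot : ¬ Inr V (adj (Finf F B) y) ρ := by
    intro hI
    exact hρy (hU V ρ hρ hI y (mem_adj _ _))
  unfold Inr at hnot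
  push Not at hnot
  obtain ⟨z, hz, hzV, hzn⟩ := hnot
  obtain ⟨n, hn⟩ := hl2 y z hz
  set m := max n (j + 1) with hm
  have hnm : F ⊔ B n ≤ F ⊔ B (n₁ + m) :=
    sup_le_sup_left (hT.mono (by have := le_max_left n (j + 1); omega)) F
  have hzm : z ∈ adj (F ⊔ B (n₁ + m)) y :=
    adj_le (hnm.trans (le_adj _ _)) (mem_adj _ _) hn
  refine h1 p F B n₁ γ hT j m x y V hx hx0 hy (le_max_right _ _) ?_
  intro σ hσ hI
  by_contra hcon
  have hσy : σ y ≠ y := fun h => hcon (fixes_adj hσ h)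
  have hFm : F ≤ F ⊔ B (n₁ + m) := le_sup_left
  have hroot : ∀ τ : ℂ ≃+* ℂ, Fixes (F ⊔ B (n₁ + m)) τ → (τ y / y) ^ p = 1 := by
    intro τ hτ
    refine quot_pow hx0 hy ?_
    rw [← map_pow, hy]
    exact hτ x ((sup_le_sup_left (hT.mono (by
      have := le_max_right n (j + 1); omega)) F : F ⊔ B (n₁ + j) ≤ F ⊔ B (n₁ + m)) hx)
  have hρm : Fixes (F ⊔ B (n₁ + m)) ρ := fixes_mono (le_Finf F B (n₁ + m)) hρ
  set η := σ y / y with hηd
  have hηp : η ^ p = 1 := hroot σ hσ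
  have hη1 : η ≠ 1 := by
    intro h
    rw [hηd, div_eq_one_iff_eq hy0] at h
    exact hσy h
  have hηF : η ∈ F := root_mem hζF hζ hηp
  have hσe : σ y = η * y := by
    rw [hηd]
    field_simp
  have hηprim : IsPrimitiveRoot η p := by
    haveI : Fact (1 < p) := ⟨(Fact.out : p.Prime).one_lt⟩
    exact IsPrimitiveRoot.iff_orderOf.2 (orderOf_eq_prime hηp hη1)
  haveI : NeZero p := ⟨hp0⟩
  obtain ⟨k, -, hk⟩ := hηprim.eq_pow_of_pow_eq_one (hroot ρ hρm)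
  have hρe : ρ y = η ^ k * y := by
    rw [hk]
    field_simp
  have hσk : (σ ^ k) y = η ^ k * y := pow_act (fixes_mono hFm hσ) hηF hσe k
  have hstab : ∀ w ∈ adj (F ⊔ B (n₁ + m)) y, σ w ∈ adj (F ⊔ B (n₁ + m)) y := by
    refine nrm_adj (fun τ hτ => ?_) σ hσ
    have e1 : τ y = (τ y / y) * y := by field_simp
    rw [e1]
    exact mul_mem (le_adj _ _ (hFm (root_mem hζF hζ (hroot τ hτ)))) (mem_adj _ _)
  have hIk := inr_pow hI hstab k
  have hfix : Fixes (adj (F ⊔ B (n₁ + m)) y) (ρ⁻¹ * σ ^ k) := by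
    refine fixes_adj (fixes_mul (fixes_inv hρm) (fixes_pow hσ k)) ?_
    show ρ.symm ((σ ^ k) y) = y
    rw [hσk, ← hρe]
    exact ρ.symm_apply_apply y
  have e2 : (σ ^ k) z = ρ z := by
    have e3 : ρ.symm ((σ ^ k) z) = z := hfix z hzm
    rw [← e3, ρ.apply_symm_apply, e3]
  exact hzn (by rw [← e2]; exact hIk z hzm hzV)

end Pool.Agent.VB


end

section

/-!
# VB, module GAM: a topological generator
-/

set_option autoImplicit false

namespace Pool.Agent.VB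

open _root_.Pool.Agent.RI _root_.Pool.Agent.MU3

namespace GAM

/-- an element outside the subgroup of index `p` generates a cyclic `p`-group -/
lemma order_of_notMem {C : Type*} [Group C] [IsCyclic C] {p m : ℕ} (hp : p.Prime)
    (hC : Nat.card C = p ^ (m + 1)) (C1 : Subgroup C) (h1 : C1.index = p) (g : C)
    (hg : g ∉ C1) : orderOf g = p ^ (m + 1) := by
  classical
  have hfin : Finite C := Nat.finite_of_card_ne_zero (by rw [hC]; exact pow_ne_zero _ hp.ne_zero)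
  have hF : Fintype C := Fintype.ofFinite C
  have hcard1 : Nat.card C1 = p ^ m := by
    have h2 := C1.card_mul_index
    rw [h1, hC, pow_succ] at h2
    exact Nat.eq_of_mul_eq_mul_right hp.pos h2
  have hdvd : orderOf g ∣ p ^ (m + 1) := hC ▸ orderOf_dvd_natCard g
  obtain ⟨k, hk, hgk⟩ := (Nat.dvd_prime_pow hp).1 hdvd
  rcases Nat.lt_or_ge k (m + 1) with hlt | hge
  · exfalso
    have hgm : g ^ (p ^ m) = 1 := by
      rw [← orderOf_dvd_iff_pow_eq_one, hgk]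
      exact pow_dvd_pow p (Nat.lt_succ_iff.1 hlt)
    have hle := IsCyclic.card_pow_eq_one_le (α := C) (n := p ^ m) (pow_pos hp.pos m)
    have hsub : insert g (Finset.univ.filter (fun x : C => x ∈ C1)) ⊆
        Finset.univ.filter (fun x : C => x ^ (p ^ m) = 1) := by
      intro x hx
      rw [Finset.mem_insert, Finset.mem_filter] at hx
      rw [Finset.mem_filter]
      refine ⟨Finset.mem_univ _, ?_⟩
      rcases hx with rfl | ⟨-, hx⟩
      · exact hgm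
      · have h3 : (⟨x, hx⟩ : C1) ^ (Nat.card C1) = 1 := pow_card_eq_one'
        rw [hcard1] at h3
        exact congrArg Subtype.val h3
    have hcard2 := Finset.card_le_card hsub
    rw [Finset.card_insert_of_notMem (by
      rw [Finset.mem_filter]
      exact fun h => hg h.2)] at hcard2
    have hcard3 : (Finset.univ.filter (fun x : C => x ∈ C1)).card = p ^ m := by
      rw [← hcard1, Nat.card_eq_fintype_card, Fintype.card_subtype]
    omega
  · have : k = m + 1 := le_antisymm hk hge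
    rw [hgk, this]

/-- the abstract form -/
lemma abstr {G : Type*} [Group G] (K : ℕ → Subgroup G) (p : ℕ) (hp : p.Prime)
    (hN : ∀ m, (K m).Normal) (hanti : Antitone K) (hidx : ∀ m, (K m).index = p ^ m)
    (hcyc : ∀ m, IsCyclic (G ⧸ K m)) :
    ∃ γ : G, (∀ j, γ ^ (p ^ j) ∈ K j) ∧
      ∀ j m, j ≤ m → ∀ σ ∈ K j, ∃ i : ℕ, σ⁻¹ * γ ^ (p ^ j * i) ∈ K m := by
  have h1 : ∃ γ : G, γ ∉ K 1 := by
    by_contra hcon
    push Not at hcon
    have h2 : K 1 = ⊤ := (Subgroup.eq_top_iff' _).2 hcon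
    have h3 := hidx 1
    rw [h2, Subgroup.index_top, pow_one] at h3
    exact hp.one_lt.ne h3
  obtain ⟨γ, hγ⟩ := h1
  have hcard : ∀ m, Nat.card (G ⧸ K m) = p ^ m := fun m => hidx m
  have hord : ∀ m, orderOf (QuotientGroup.mk (s := K m) γ) = p ^ m := by
    intro m
    rcases m with _ | m
    · have h2 := orderOf_dvd_natCard (QuotientGroup.mk (s := K 0) γ)
      rw [hcard 0, pow_zero, Nat.dvd_one] at h2
      rw [h2, pow_zero]
    · have := hcyc (m + 1)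
      have hle : K (m + 1) ≤ K 1 := hanti (by omega)
      refine order_of_notMem hp (hcard (m + 1)) ((K 1).map (QuotientGroup.mk' (K (m + 1)))) ?_ _ ?_
      · rw [Subgroup.index_map, QuotientGroup.ker_mk', sup_eq_left.2 hle, hidx 1, pow_one,
          MonoidHom.range_eq_top.2 (QuotientGroup.mk'_surjective _), Subgroup.index_top, mul_one]
      · rintro ⟨k, hk, hk2⟩
        have h3 : k⁻¹ * γ ∈ K (m + 1) := QuotientGroup.eq.1 hk2
        have h4 : k * (k⁻¹ * γ) ∈ K 1 := mul_mem hk (hle h3)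
        rw [mul_inv_cancel_left] at h4
        exact hγ h4
  have hpow : ∀ (m n : ℕ), γ ^ n ∈ K m ↔ p ^ m ∣ n := by
    intro m n
    rw [← hord m, orderOf_dvd_iff_pow_eq_one, ← QuotientGroup.mk_pow, QuotientGroup.eq_one_iff]
  refine ⟨γ, fun j => (hpow j _).2 dvd_rfl, ?_⟩
  intro j m hjm σ hσ
  have hfin : Finite (G ⧸ K m) :=
    Nat.finite_of_card_ne_zero (by rw [hcard]; exact pow_ne_zero _ hp.ne_zero)
  have hz : Subgroup.zpowers (QuotientGroup.mk (s := K m) γ) = ⊤ := by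
    refine Subgroup.eq_top_of_card_eq _ ?_
    rw [Nat.card_zpowers, hord, hcard]
  have hmem : (QuotientGroup.mk (s := K m) σ) ∈ Subgroup.zpowers (QuotientGroup.mk (s := K m) γ) := by
    rw [hz]
    exact Subgroup.mem_top _
  rw [← mem_powers_iff_mem_zpowers] at hmem
  obtain ⟨a, ha⟩ := hmem
  have h5 : σ⁻¹ * γ ^ a ∈ K m := by
    refine QuotientGroup.eq.1 ?_
    rw [QuotientGroup.mk_pow]
    exact ha.symm
  have h6 : γ ^ a ∈ K j := by
    have h7 : σ * (σ⁻¹ * γ ^ a) ∈ K j := mul_mem hσ (hanti hjm h5)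
    rwa [mul_inv_cancel_left] at h7
  obtain ⟨i, rfl⟩ := (hpow j a).1 h6
  exact ⟨i, h5⟩

/-- the automorphisms which fix `L` -/
def fixS (L : IntermediateField ℚ ℂ) : Subgroup (ℂ ≃+* ℂ) where
  carrier := {σ | Fixes L σ}
  mul_mem' := fun h h' => fixes_mul h h'
  one_mem' := fixes_one L
  inv_mem' := fun h => fixes_inv h

/-- restriction to a stable field -/
noncomputable def resH (M : IntermediateField ℚ ℂ) (hM : Nrm ⊥ M) :
    (ℂ ≃+* ℂ) →* (M ≃ₐ[ℚ] M) where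
  toFun σ := AlgEquiv.ofRingEquiv (f :=
    { toFun := fun x => ⟨σ (x : ℂ), hM σ (fixes_bot σ) x x.2⟩
      invFun := fun x => ⟨σ.symm (x : ℂ), hM σ.symm (fixes_bot σ.symm) x x.2⟩
      left_inv := fun x => Subtype.ext (σ.symm_apply_apply (x : ℂ))
      right_inv := fun x => Subtype.ext (σ.apply_symm_apply (x : ℂ))
      map_mul' := fun x y => Subtype.ext (map_mul σ (x : ℂ) y)
      map_add' := fun x y => Subtype.ext (map_add σ (x : ℂ) y) }) (fun r => by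
      apply Subtype.ext
      have h1 : ((algebraMap ℚ M r : M) : ℂ) = (r : ℂ) := by
        have h2 : (algebraMap M ℂ).comp (algebraMap ℚ M) = algebraMap ℚ ℂ :=
          Subsingleton.elim _ _
        exact congrArg (fun f : ℚ →+* ℂ => f r) h2
      show σ ((algebraMap ℚ M r : M) : ℂ) = ((algebraMap ℚ M r : M) : ℂ)
      rw [h1]
      exact map_ratCast σ r)
  map_one' := by
    ext x
    rfl
  map_mul' := fun σ τ => by
    ext x
    rfl

lemma resH_eq_one {M : IntermediateField ℚ ℂ} (hM : Nrm ⊥ M) (σ : ℂ ≃+* ℂ) :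
    resH M hM σ = 1 ↔ Fixes M σ := by
  constructor
  · intro h x hx
    have h1 := congrArg (fun f : M ≃ₐ[ℚ] M => ((f ⟨x, hx⟩ : M) : ℂ)) h
    exact h1
  · intro h
    ext x
    exact h x x.2

/-- the layers are stable under all automorphisms -/
lemma layer_nrm {p n : ℕ} [hp : Fact p.Prime] {B : IntermediateField ℚ ℂ}
    (hB : IsLayer p n B) : Nrm ⊥ B := by
  obtain ⟨-, -, m, hle⟩ := hB
  have hN : p ^ m ≠ 0 := pow_ne_zero m hp.out.ne_zero
  have hA := LAY.isAbelian_of_le (p ^ m) hN ⟨_, Complex.isPrimitiveRoot_exp _ hN⟩ B hle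
  have hG := hA.toIsGalois
  have hn := hG.to_normal
  intro σ hσ x hx
  have h1 := @LAY.mem_of_normal ℚ ℂ _ _ _ B hn
    (@RingHom.toRatAlgHom _ _ _ _ _ _ ((σ : ℂ →+* ℂ).comp (algebraMap B ℂ))) ⟨x, hx⟩
  exact h1

end GAM

open _root_.Pool.Agent.VB.GAM in
theorem tb_GAM (hCRD : Sb_CRD) : Sb_GAM := by
  intro p hpf F hF B hB hmono n₁ hdeg
  have hp : p.Prime := hpf.out
  have hnB : ∀ n, Nrm ⊥ (B n) := fun n => layer_nrm (hB n)
  have hfdB : ∀ n, FiniteDimensional ℚ (B n) := fun n => (LAY_thm p n (B n) (hB n)).1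
  have hfd : ∀ n, FiniteDimensional ℚ ↥(F ⊔ B n) := fun n => by
    have := hfdB n
    exact IntermediateField.finiteDimensional_sup F (B n)
  let G := fixS (F ⊔ B n₁)
  let f : ∀ m, G →* (B (n₁ + m) ≃ₐ[ℚ] B (n₁ + m)) := fun m =>
    (resH (B (n₁ + m)) (hnB _)).comp G.subtype
  let K : ℕ → Subgroup G := fun m => (f m).ker
  have hK : ∀ m (σ : G), σ ∈ K m ↔ Fixes (F ⊔ B (n₁ + m)) (σ : ℂ ≃+* ℂ) := by
    intro m σ
    have h1 : σ ∈ K m ↔ Fixes (B (n₁ + m)) (σ : ℂ ≃+* ℂ) :=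
      MonoidHom.mem_ker.trans (resH_eq_one (hnB _) _)
    rw [h1]
    constructor
    · intro h
      exact fixes_sup (fixes_mono le_sup_left (show Fixes (F ⊔ B n₁) (σ : ℂ ≃+* ℂ) from σ.2)) h
    · exact fun h => fixes_mono le_sup_right h
  have hKanti : Antitone K := by
    intro a b hab σ hσ
    rw [hK] at hσ ⊢
    exact fixes_mono (sup_le_sup_left (hmono (by omega)) F) hσ
  have hcyc : ∀ m, IsCyclic (G ⧸ K m) := by
    intro m
    have := Pool.Agent.RID.t_LAYC p (n₁ + m) (B (n₁ + m)) (hB _)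
    exact isCyclic_of_injective (QuotientGroup.kerLift (f m)) (QuotientGroup.kerLift_injective _)
  have hidx : ∀ m, (K m).index = p ^ m := by
    intro m
    have := hfd (n₁ + m)
    have hle : F ⊔ B n₁ ≤ F ⊔ B (n₁ + m) := sup_le_sup_left (hmono (by omega)) F
    obtain ⟨h1, -, -, -, -⟩ := hCRD (F ⊔ B n₁) (F ⊔ B (n₁ + m)) hle
    rw [hdeg m] at h1
    have hpos : 0 < Module.finrank ℚ ↥(F ⊔ B n₁) := by
      have := hfd n₁
      exact Module.finrank_pos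
    have h2 : p ^ m = cR (F ⊔ B n₁) (F ⊔ B (n₁ + m)) := Nat.eq_of_mul_eq_mul_left hpos h1
    rw [h2]
    refine Nat.card_congr (Equiv.ofBijective (fun q : G ⧸ K m => Quotient.liftOn' q
      (fun σ : G => (⟨fun x => (σ : ℂ ≃+* ℂ) x, ⟨σ, σ.2, fun _ => rfl⟩⟩ :
        {f : ↥(F ⊔ B (n₁ + m)) → ℂ // ∃ σ : ℂ ≃+* ℂ, Fixes (F ⊔ B n₁) σ ∧ ∀ x, f x = σ x})) ?_) ?_)
    · intro σ τ hστ
      rw [QuotientGroup.leftRel_apply, hK] at hστ
      refine Subtype.ext (funext fun x => ?_)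
      have h3 := hστ x x.2
      have h4 : (σ : ℂ ≃+* ℂ) ((((σ⁻¹ * τ : G) : ℂ ≃+* ℂ)) x) = (τ : ℂ ≃+* ℂ) x :=
        (σ : ℂ ≃+* ℂ).apply_symm_apply _
      rw [h3] at h4
      exact h4
    · constructor
      · intro q q'
        refine Quotient.inductionOn₂' q q' ?_
        intro σ τ hστ
        refine Quotient.sound' ?_
        rw [QuotientGroup.leftRel_apply, hK]
        intro x hx
        have h3 : (σ : ℂ ≃+* ℂ) x = (τ : ℂ ≃+* ℂ) x :=
          congrFun (congrArg Subtype.val hστ) ⟨x, hx⟩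
        show (σ : ℂ ≃+* ℂ).symm ((τ : ℂ ≃+* ℂ) x) = x
        rw [← h3]
        exact (σ : ℂ ≃+* ℂ).symm_apply_apply x
      · rintro ⟨g, σ, hσ, hg⟩
        refine ⟨QuotientGroup.mk (⟨σ, hσ⟩ : G), ?_⟩
        refine Subtype.ext (funext fun x => ?_)
        exact (hg x).symm
  obtain ⟨γ, h1, h2⟩ := abstr K p hp (fun m => MonoidHom.normal_ker _) hKanti hidx hcyc
  refine ⟨(γ : ℂ ≃+* ℂ), ?_, ?_⟩
  · intro j
    have h3 := (hK j _).1 (h1 j)
    exact h3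
  · intro j m hjm σ hσ
    have hle : F ⊔ B n₁ ≤ F ⊔ B (n₁ + j) := sup_le_sup_left (hmono (by omega)) F
    have hσG : σ ∈ G := fixes_mono hle hσ
    obtain ⟨i, hi⟩ := h2 j m hjm ⟨σ, hσG⟩ ((hK j _).2 hσ)
    refine ⟨i, fun x hx => ?_⟩
    have h3 := (hK m _).1 hi x hx
    have h4 : σ (σ.symm (((γ : ℂ ≃+* ℂ) ^ (p ^ j * i)) x)) = ((γ : ℂ ≃+* ℂ) ^ (p ^ j * i)) x :=
      σ.apply_symm_apply _
    rw [← h4]
    exact congrArg σ h3.symm

end Pool.Agent.VB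


end

section

/-!
# VB, module TOT: total ramification above `p` in the tower `F B_n`
-/

set_option autoImplicit false

namespace Pool.Agent.VB

open _root_.Pool.Agent.RI _root_.Pool.Agent.MU3

namespace TOT

/-- subgroups of a cyclic `p`-group are ordered by their cardinalities -/
lemma le_of_card {C : Type*} [Group C] [IsCyclic C] {p m : ℕ} (hp : p.Prime)
    (hC : Nat.card C = p ^ m) (D H : Subgroup C) (h : Nat.card D ≤ Nat.card H) : D ≤ H := by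
  classical
  have hfin : Finite C := Nat.finite_of_card_ne_zero (by rw [hC]; exact pow_ne_zero _ hp.ne_zero)
  have hF : Fintype C := Fintype.ofFinite C
  obtain ⟨a, -, ha⟩ := (Nat.dvd_prime_pow hp).1 (hC ▸ H.card_subgroup_dvd_card)
  obtain ⟨b, -, hb⟩ := (Nat.dvd_prime_pow hp).1 (hC ▸ D.card_subgroup_dvd_card)
  have hba : p ^ b ∣ p ^ a := by
    rw [ha, hb] at h
    exact pow_dvd_pow p ((Nat.pow_le_pow_iff_right hp.one_lt).1 h)
  have hle := IsCyclic.card_pow_eq_one_le (α := C) (n := p ^ a) (pow_pos hp.pos a)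
  have hsub : Finset.univ.filter (fun x : C => x ∈ H) ⊆
      Finset.univ.filter (fun x : C => x ^ (p ^ a) = 1) := by
    intro x hx
    rw [Finset.mem_filter] at hx ⊢
    refine ⟨Finset.mem_univ _, ?_⟩
    have h3 : (⟨x, hx.2⟩ : H) ^ (Nat.card H) = 1 := pow_card_eq_one'
    rw [ha] at h3
    exact congrArg Subtype.val h3
  have hcard3 : (Finset.univ.filter (fun x : C => x ∈ H)).card = p ^ a := by
    rw [← ha, Nat.card_eq_fintype_card, Fintype.card_subtype]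
  have heq := Finset.eq_of_subset_of_card_le hsub (by rw [hcard3]; exact hle)
  intro x hx
  have h4 : x ^ (p ^ a) = 1 := by
    have h3 : (⟨x, hx⟩ : D) ^ (Nat.card D) = 1 := pow_card_eq_one'
    rw [hb] at h3
    have h5 : x ^ (p ^ b) = 1 := congrArg Subtype.val h3
    obtain ⟨c, hc⟩ := hba
    rw [hc, pow_mul, h5, one_pow]
  have h6 : x ∈ Finset.univ.filter (fun x : C => x ^ (p ^ a) = 1) := by
    rw [Finset.mem_filter]
    exact ⟨Finset.mem_univ _, h4⟩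
  rw [← heq, Finset.mem_filter] at h6
  exact h6.2

/-- the inertia group -/
def inS (V : ValuationSubring ℂ) (L N : IntermediateField ℚ ℂ) (hN : Nrm ⊥ N) :
    Subgroup (ℂ ≃+* ℂ) where
  carrier := {σ | Fixes L σ ∧ Inr V N σ}
  mul_mem' := fun {_ b} h h' => ⟨fixes_mul h.1 h'.1, inr_mul h.2 h'.2 (hN b (fixes_bot b))⟩
  one_mem' := ⟨fixes_one L, inr_one V N⟩
  inv_mem' := fun {a} h => ⟨fixes_inv h.1, inr_inv h.2 (hN a⁻¹ (fixes_bot a⁻¹))⟩

/-- the normal closure -/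
lemma closure_ex (F : IntermediateField ℚ ℂ) [FiniteDimensional ℚ F] :
    ∃ E : IntermediateField ℚ ℂ, FiniteDimensional ℚ E ∧ F ≤ E ∧ Nrm ⊥ E := by
  refine ⟨IntermediateField.normalClosure ℚ F ℂ, inferInstance, F.le_normalClosure,
    ?_⟩
  intro σ hσ
  have h1 : IntermediateField.normalClosure ℚ F ℂ ≤
      PreF σ (IntermediateField.normalClosure ℚ F ℂ) := by
    refine iSup_le fun f => ?_
    rintro x ⟨y, rfl⟩
    have h2 := AlgHom.fieldRange_le_normalClosure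
      (@RingHom.toRatAlgHom _ _ _ _ _ _ ((σ : ℂ →+* ℂ).comp (f : F →+* ℂ)))
    have h3 : σ (f y) ∈ (@RingHom.toRatAlgHom _ _ _ _ _ _
      ((σ : ℂ →+* ℂ).comp (f : F →+* ℂ))).fieldRange := ⟨y, rfl⟩
    exact h2 h3
  exact fun x hx => h1 hx

lemma resH_eq {M : IntermediateField ℚ ℂ} (hM : Nrm ⊥ M) {σ τ : ℂ ≃+* ℂ}
    (h : GAM.resH M hM σ = GAM.resH M hM τ) (x : ℂ) (hx : x ∈ M) : σ x = τ x := by
  have h1 := congrArg (fun f : M ≃ₐ[ℚ] M => ((f ⟨x, hx⟩ : M) : ℂ)) h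
  exact h1

/-- agreement on two fields gives agreement on the compositum -/
lemma eq_sup {L M : IntermediateField ℚ ℂ} {σ τ : ℂ ≃+* ℂ} (h1 : ∀ x ∈ L, σ x = τ x)
    (h2 : ∀ x ∈ M, σ x = τ x) : ∀ x ∈ L ⊔ M, σ x = τ x := by
  have key : ∀ (K : IntermediateField ℚ ℂ), (∀ x ∈ K, σ x = τ x) ↔ Fixes K (τ⁻¹ * σ) := by
    intro K
    constructor
    · intro h x hx
      show τ.symm (σ x) = x
      rw [h x hx]
      exact τ.symm_apply_apply x
    · intro h x hx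
      have h3 : τ.symm (σ x) = x := h x hx
      have h4 : τ (τ.symm (σ x)) = σ x := τ.apply_symm_apply _
      rw [h3] at h4
      exact h4.symm
  exact (key _).2 (fixes_sup ((key _).1 h1) ((key _).1 h2))

end TOT

open _root_.Pool.Agent.VB.TOT _root_.Pool.Agent.VB.GAM in
theorem tb_TOT (hMUL : Sb_MUL) (hCRD : Sb_CRD) (hCYQ : Sb_CYQ) : Sb_TOT := by
  intro p hpf F hF B hB hmono
  have hp : p.Prime := hpf.out
  obtain ⟨E, hE, hFE, hEn⟩ := closure_ex F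
  have hnB : ∀ n, Nrm ⊥ (B n) := fun n => layer_nrm (hB n)
  have hfdB : ∀ n, FiniteDimensional ℚ (B n) := fun n => (LAY_thm p n (B n) (hB n)).1
  have hone : Module.finrank ℚ (⊥ : IntermediateField ℚ ℂ) = 1 := IntermediateField.finrank_bot
  obtain ⟨n₀, hn₀⟩ : ∃ n₀ : ℕ, Module.finrank ℚ E ≤ p ^ n₀ :=
    ⟨Module.finrank ℚ E, (Nat.lt_pow_self hp.one_lt).le⟩
  refine ⟨n₀, ?_⟩
  intro n m hn V hV σ hσ
  rcases Nat.lt_or_ge n m with hnm | hmn
  swap
  · have h1 : F ⊔ B m ≤ F ⊔ B n := sup_le_sup_left (hmono hmn) F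
    intro x hx _
    rw [hσ x (h1 hx), sub_self, ValuationSubring.mem_nonunits_iff, map_zero]
    exact zero_lt_one
  have hfN : FiniteDimensional ℚ ↥(E ⊔ B m) := IntermediateField.finiteDimensional_sup E (B m)
  have hNn : Nrm ⊥ (E ⊔ B m) := nrm_sup hEn (hnB m)
  -- counting
  have hBm := hfdB m
  have c1 := (hMUL V ⊥ (B m) (E ⊔ B m) bot_le le_sup_right (hnB m) hNn).1
  have c2 := (hMUL V ⊥ E (E ⊔ B m) bot_le le_sup_left hEn hNn).1
  obtain ⟨d1, -, -, -, d2⟩ := hCRD ⊥ (B m) bot_le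
  obtain ⟨e1, -, -, -, e2⟩ := hCRD ⊥ E bot_le
  obtain ⟨-, -, -, -, g2⟩ := hCRD (B m) (E ⊔ B m) le_sup_right
  have d3 : cI V ⊥ (B m) = p ^ m := by
    rw [(d2 V).2.2.2 (fun τ _ => (hCYQ p m (B m) (hB m) V).1 hV τ)]
    rw [(hB m).1, hone, one_mul] at d1
    exact d1.symm
  have e3 : cI V ⊥ E ≤ p ^ n₀ := by
    rw [hone, one_mul] at e1
    exact ((e2 V).2.1.trans e1.symm.le).trans hn₀
  have hI : p ^ (m - n) ≤ cI V E (E ⊔ B m) := by
    have f1 : p ^ m ≤ cI V E (E ⊔ B m) * p ^ n₀ := by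
      calc p ^ m = 1 * p ^ m := (one_mul _).symm
        _ ≤ cI V (B m) (E ⊔ B m) * p ^ m := Nat.mul_le_mul_right _ (g2 V).1
        _ = cI V ⊥ (E ⊔ B m) := by rw [c1, d3]
        _ = cI V E (E ⊔ B m) * cI V ⊥ E := c2
        _ ≤ cI V E (E ⊔ B m) * p ^ n₀ := Nat.mul_le_mul_left _ e3
    have f2 : p ^ m = p ^ (m - n₀) * p ^ n₀ := by
      rw [← pow_add, Nat.sub_add_cancel (by omega)]
    rw [f2] at f1
    have f3 : p ^ (m - n₀) ≤ cI V E (E ⊔ B m) := Nat.le_of_mul_le_mul_right f1 (pow_pos hp.pos _)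
    exact (Nat.pow_le_pow_right hp.pos (by omega)).trans f3
  -- the groups
  have hcyc : IsCyclic (B m ≃ₐ[ℚ] B m) := Pool.Agent.RID.t_LAYC p m (B m) (hB m)
  have hcard : Nat.card (B m ≃ₐ[ℚ] B m) = p ^ m := by
    have hG := (LAY_thm p m (B m) (hB m)).2.1
    rw [← (hB m).1]
    exact IsGalois.card_aut_eq_finrank ℚ (B m)
  have hfinC : Finite (B m ≃ₐ[ℚ] B m) :=
    Nat.finite_of_card_ne_zero (by rw [hcard]; exact pow_ne_zero _ hp.ne_zero)
  set ρ := resH (B m) (hnB m) with hρ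
  set H := (inS V E (E ⊔ B m) hNn).map ρ with hH
  set D := (fixS (B n)).map ρ with hD
  have hHc : cI V E (E ⊔ B m) ≤ Nat.card H := by
    refine Nat.card_le_card_of_injective (fun f :
      {f : ↥(E ⊔ B m) → ℂ // ∃ σ : ℂ ≃+* ℂ, Fixes E σ ∧ Inr V (E ⊔ B m) σ ∧
        ∀ x : ↥(E ⊔ B m), f x = σ x} =>
      (⟨ρ f.2.choose, Subgroup.mem_map_of_mem ρ ⟨f.2.choose_spec.1, f.2.choose_spec.2.1⟩⟩ : H)) ?_
    intro f f' hff
    have h1 : ρ f.2.choose = ρ f'.2.choose := congrArg Subtype.val hff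
    have h2 := eq_sup (L := E) (M := B m) (σ := f.2.choose) (τ := f'.2.choose) (fun x hx => by
      rw [f.2.choose_spec.1 x hx, f'.2.choose_spec.1 x hx]) (resH_eq (hnB m) h1)
    refine Subtype.ext (funext fun x => ?_)
    rw [f.2.choose_spec.2.2 x, f'.2.choose_spec.2.2 x]
    exact h2 x x.2
  have hDc : Nat.card D ≤ p ^ (m - n) := by
    obtain ⟨k1, -, -, k2, -⟩ := hCRD (B n) (B m) (hmono hnm.le)
    rw [(hB m).1, (hB n).1] at k1
    have k3 : p ^ m = p ^ n * p ^ (m - n) := by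
      rw [← pow_add, Nat.add_sub_cancel' hnm.le]
    rw [k3] at k1
    have k4 := Nat.eq_of_mul_eq_mul_left (pow_pos hp.pos n) k1
    rw [k4]
    have := k2
    refine Nat.card_le_card_of_injective (fun d : D =>
      (⟨fun x => ((d : B m ≃ₐ[ℚ] B m) x : ℂ), by
        obtain ⟨τ, hτ, hτd⟩ := d.2
        refine ⟨τ, hτ, fun x => ?_⟩
        rw [← hτd]
        rfl⟩ : {f : B m → ℂ // ∃ σ : ℂ ≃+* ℂ, Fixes (B n) σ ∧ ∀ x : B m, f x = σ x})) ?_
    intro d d' hdd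
    have h1 := congrArg Subtype.val hdd
    apply Subtype.ext
    ext x
    exact congrFun h1 x
  have hDH : D ≤ H := le_of_card hp hcard D H ((hDc.trans hI).trans hHc)
  have hσD : ρ σ ∈ D := Subgroup.mem_map_of_mem ρ (show Fixes (B n) σ from
    fixes_mono le_sup_right hσ)
  obtain ⟨τ, hτ, hτσ⟩ := hDH hσD
  have h5 := eq_sup (L := F) (M := B m) (σ := τ) (τ := σ) (fun x hx => by
    rw [hτ.1 x (hFE hx), hσ x ((le_sup_left : F ≤ F ⊔ B n) hx)]) (resH_eq (hnB m) hτσ)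
  intro x hx hxV
  rw [← h5 x hx]
  exact hτ.2 x (sup_le_sup_right hFE (B m) hx) hxV

end Pool.Agent.VB


end
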