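import Mathlib
import Pool.Agent.MVF.C041
import Pool.Agent.MVF.C076
import Pool.Agent.MVF.C079

/-! Parts: NS.G_Lcn, NS.G_Leg, MUX.HY_SYM, N2.G_LegT, N2.GS_Val, N2.GS_Rsc, N2.GS_Bin, N2.GS_Gen -/

namespace Pool.Agent.N2.GSB
end Pool.Agent.N2.GSB
namespace Pool.Agent.N2.GSR
end Pool.Agent.N2.GSR
namespace Pool.Agent.N2.GSV
end Pool.Agent.N2.GSV

section

/-!
# NS, block GN (helper6): common denominators prime to `V`, for `3` inert
-/

set_option autoImplicit false

namespace Pool.Agent.NSG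

open _root_.MU3 _root_.Pool.Agent.MU3A _root_.Pool.Agent.MU3B _root_.Pool.Agent.MUX _root_.Pool.Agent.MUXN _root_.Pool.Agent.NS

noncomputable section

open N_GJ (eHom_apply)

variable {A B : ℤ}

theorem vN (V : ValuationSubring ℂ) (h3 : V.valuation (3 : ℂ) < 1) (N : ℕ) (hN : ¬ 3 ∣ N) :
    V.valuation (N : ℂ) = 1 := by
  have hle : ∀ z : ℤ, V.valuation (z : ℂ) ≤ 1 := fun z =>
    (V.valuation_le_one_iff _).2 (Pool.Agent.MU3A2.int_mem z)
  have hc : IsCoprime (N : ℤ) 3 := by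
    rw [Int.isCoprime_iff_gcd_eq_one, Int.gcd_comm]
    exact (Nat.Prime.coprime_iff_not_dvd Nat.prime_three).2 hN
  obtain ⟨a, b, hab⟩ := hc
  by_contra hne
  have hlt : V.valuation (N : ℂ) < 1 := lt_of_le_of_ne (by exact_mod_cast hle N) hne
  have h1 : V.valuation ((a : ℂ) * N + b * 3) < 1 := by
    refine lt_of_le_of_lt (V.valuation.map_add _ _) (max_lt ?_ ?_)
    · rw [map_mul]
      exact mul_lt_one_of_nonneg_of_lt_one_right (hle a) zero_le hlt
    · rw [map_mul]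
      exact mul_lt_one_of_nonneg_of_lt_one_right (hle b) zero_le h3
  have h2 : (a : ℂ) * N + b * 3 = 1 := by exact_mod_cast hab
  rw [h2, map_one] at h1
  exact lt_irrefl _ h1

theorem v3 {V : ValuationSubring ℂ} (hV : OverI V (idl (A := A) (B := B) 3)) :
    V.valuation (3 : ℂ) < 1 := by
  have h1 : emb ((3 : ℕ) : OO A B) ∈ V.nonunits := (hV _).2 (Ideal.mem_span_singleton_self _)
  have h2 : emb ((3 : ℕ) : OO A B) = 3 := by
    unfold emb
    rw [QuadraticAlgebra.re_natCast, QuadraticAlgebra.im_natCast]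
    norm_num
  rw [h2, ValuationSubring.mem_nonunits_iff] at h1
  exact h1

theorem div3 {V : ValuationSubring ℂ} (hc : CQ A B) (hV : OverI V (idl (A := A) (B := B) 3))
    (k : ℕ) : ∀ a : OO A B, V.valuation (emb a) ≤ V.valuation (3 : ℂ) ^ k →
    ∃ b : OO A B, emb a = 3 ^ k * emb b := by
  have h3 := v3 hV
  have h30 : V.valuation (3 : ℂ) ≠ 0 := (Valuation.ne_zero_iff _).2 (by norm_num)
  induction k with
  | zero => exact fun a _ => ⟨a, by simp⟩
  | succ k ih =>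
    intro a ha
    have h1 : V.valuation (emb a) < 1 := by
      refine lt_of_le_of_lt ha ?_
      exact pow_lt_one₀ zero_le h3 (by omega)
    have h2 : a ∈ idl (A := A) (B := B) 3 :=
      (hV a).1 ((ValuationSubring.mem_nonunits_iff _).2 h1)
    rw [Ideal.mem_span_singleton] at h2
    obtain ⟨c, hc3⟩ := h2
    have e1 : emb a = 3 * emb c := by
      rw [hc3, ← eHom_apply hc, map_mul, map_natCast, eHom_apply]
      norm_num
    obtain ⟨b, hb⟩ := ih c (by
      rw [e1, map_mul, pow_succ, mul_comm] at ha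
      exact (mul_le_mul_iff_left₀ (zero_lt_iff.2 h30)).1 ha)
    exact ⟨b, by rw [e1, hb]; ring⟩

theorem loc_I (A B : ℤ) (hc : CQ A B) (V : ValuationSubring ℂ)
    (hV : OverI V (idl (A := A) (B := B) 3)) : LocN A B V := by
  classical
  have h3 := v3 hV
  have h30 : V.valuation (3 : ℂ) ≠ 0 := (Valuation.ne_zero_iff _).2 (by norm_num)
  -- one element
  have one : ∀ y ∈ kk A B, y ∈ V → ∃ N : ℕ, ¬ 3 ∣ N ∧ ∃ c : OO A B, (N : ℂ) * y = emb c := by
    intro y hy hyV
    obtain ⟨s, t, hst⟩ := Pool.Agent.MUXE.RNGaux.repr hc hy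
    obtain ⟨D, hD⟩ : ∃ D : ℕ, D = s.den * t.den := ⟨_, rfl⟩
    have hD0 : D ≠ 0 := by rw [hD]; exact mul_ne_zero s.den_nz t.den_nz
    obtain ⟨k, N, hN, hDk⟩ := Nat.exists_eq_pow_mul_and_not_dvd hD0 3 (by norm_num)
    obtain ⟨c, hcD⟩ : ∃ c : OO A B, (D : ℂ) * y = emb c := by
      refine ⟨⟨s.num * t.den, t.num * s.den⟩, ?_⟩
      have hs : (s : ℂ) * s.den = s.num := by exact_mod_cast Rat.mul_den_eq_num s
      have ht : (t : ℂ) * t.den = t.num := by exact_mod_cast Rat.mul_den_eq_num t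
      rw [hst, hD]
      unfold emb
      push_cast
      rw [← hs, ← ht]
      ring
    have hv : V.valuation (emb c) ≤ V.valuation (3 : ℂ) ^ k := by
      rw [← hcD, map_mul, hDk]
      have h4 : V.valuation y ≤ 1 := (V.valuation_le_one_iff _).2 hyV
      have h5 : V.valuation (((3 ^ k * N : ℕ) : ℂ)) ≤ V.valuation (3 : ℂ) ^ k := by
        push_cast
        rw [map_mul, map_pow]
        refine mul_le_of_le_one_right' ((V.valuation_le_one_iff _).2 ?_)
        have := Pool.Agent.MU3A2.int_mem (V := V) (N : ℤ)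
        exact_mod_cast this
      exact (mul_le_mul' h5 h4).trans (by rw [mul_one])
    obtain ⟨b, hb⟩ := div3 hc hV k c hv
    refine ⟨N, hN, b, ?_⟩
    have h6 : (3 : ℂ) ^ k ≠ 0 := pow_ne_zero _ (by norm_num)
    apply mul_left_cancel₀ h6
    rw [← hb, ← hcD, hDk]
    push_cast
    ring
  intro S
  have key : ∀ S : Finset ℂ, (∀ y ∈ S, y ∈ kk A B ∧ y ∈ V) →
      ∃ N : ℕ, ¬ 3 ∣ N ∧ ∀ y ∈ S, ∃ c : OO A B, (N : ℂ) * y = emb c := by
    intro S
    induction S using Finset.induction_on with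
    | empty => exact fun _ => ⟨1, by norm_num, fun y hy => absurd hy (Finset.notMem_empty y)⟩
    | insert x S hx ih =>
      intro hS
      obtain ⟨N, hN, hNS⟩ := ih fun y hy => hS y (Finset.mem_insert_of_mem hy)
      obtain ⟨M, hM, hMx⟩ := one x (hS x (Finset.mem_insert_self _ _)).1
        (hS x (Finset.mem_insert_self _ _)).2
      refine ⟨M * N, fun h => ?_, fun y hy => ?_⟩
      · rcases (Nat.Prime.dvd_mul Nat.prime_three).1 h with h | h
        · exact hM h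
        · exact hN h
      · rcases Finset.mem_insert.1 hy with rfl | hy
        · obtain ⟨c, hc'⟩ := hMx
          refine ⟨N * c, ?_⟩
          rw [← eHom_apply hc, map_mul, map_natCast, eHom_apply, ← hc']
          push_cast
          ring
        · obtain ⟨c, hc'⟩ := hNS y hy
          refine ⟨M * c, ?_⟩
          rw [← eHom_apply hc, map_mul, map_natCast, eHom_apply, ← hc']
          push_cast
          ring
  intro hS
  obtain ⟨N, hN, hNS⟩ := key S hS
  refine ⟨(N : OO A B), ?_, fun y hy => ?_⟩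
  · rw [← eHom_apply hc, map_natCast]
    exact vN V h3 N hN
  · obtain ⟨c, hc'⟩ := hNS y hy
    refine ⟨c, ?_⟩
    rw [← eHom_apply hc, map_natCast]
    exact hc'

end

end Pool.Agent.NSG


end

section

/-!
# NS, block GN (helper6): the lattice `u L` in Legendre form, from `GoodN`; algebraicity of `u`, `e`, `lam`
-/

set_option autoImplicit false

namespace Pool.Agent.NSG

open _root_.MU3 _root_.Pool.Agent.MU3A _root_.Pool.Agent.MU3B _root_.Pool.Agent.MUX _root_.Pool.Agent.MUXN _root_.Pool.Agent.NS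

noncomputable section

variable {A B : ℤ}

/-- the cubic of a lattice in Legendre form -/
theorem cub {V : ValuationSubring ℂ} {L : PeriodPair} {u e lam : ℂ} (h : GoodN V L u e lam)
    (X : ℂ) : 4 * X ^ 3 - L.g₂ * X - L.g₃ = 4 * (X - e) * (X - e - u ^ 2) * (X - e - lam * u ^ 2) := by
  obtain ⟨y, hy⟩ := IsAlgClosed.exists_pow_nat_eq (4 * X ^ 3 - L.g₂ * X - L.g₃) (n := 2) (by norm_num)
  obtain ⟨z, hz, hX, hY⟩ := (b_DSC L).2 X y hy
  have h1 := h.eq z hz
  rw [hX, hY] at h1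
  have hu := h.u0
  have hu2 : u ^ 6 ≠ 0 := pow_ne_zero _ hu
  have h2 : y ^ 2 = 4 * (X - e) * (X - e - u ^ 2) * (X - e - lam * u ^ 2) := by
    field_simp at h1
    linear_combination h1
  rw [← h2, hy]

/-- elements which are algebraic over `k` are algebraic -/
theorem alg_of (hc : CQ A B) {x : ℂ} (h : IsAlgebraic (kk A B) x) : IsAlgebraic ℚ x := by
  have h1 : Algebra.IsAlgebraic ℚ (kk A B) := FK.isAlgebraic_kk hc
  exact h.restrictScalars ℚ

theorem kap_alg (hc : CQ A B) (hT : TorX A B) {b : Ideal (OO A B)} {L : PeriodPair} {om : ℂ}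
    (hL : IsNL b L om) : IsAlgebraic ℚ (kap L) := by
  have hm : (⊤ : Ideal (OO A B)) ≠ ⊥ := by
    intro h
    have h1 : (1 : OO A B) ∈ (⊥ : Ideal (OO A B)) := by rw [← h]; trivial
    rw [Ideal.mem_bot] at h1
    have h2 := congrArg QuadraticAlgebra.re h1
    rw [QuadraticAlgebra.re_one, QuadraticAlgebra.re_zero] at h2
    exact one_ne_zero h2
  have hf := hT.fin ⊤ hm
  have hmem : kap L ∈ RF (⊤ : Ideal (OO A B)) :=
    IntermediateField.subset_adjoin _ _ ⟨b, L, om, hL, Or.inl rfl⟩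
  have h1 : IsAlgebraic (kk A B) (⟨kap L, hmem⟩ : RF (⊤ : Ideal (OO A B))) :=
    Algebra.IsAlgebraic.isAlgebraic _
  exact alg_of hc (h1.algebraMap (A := ℂ))

theorem root_alg {g2 g3 x : ℂ} (h2 : IsAlgebraic ℚ g2) (h3 : IsAlgebraic ℚ g3)
    (h : 4 * x ^ 3 - g2 * x - g3 = 0) : IsAlgebraic ℚ x := by
  have h4 : IsAlgebraic (algebraicClosure ℚ ℂ) x := by
    refine ⟨Polynomial.C 4 * Polynomial.X ^ 3 - Polynomial.C ⟨g2, mem_algebraicClosure_iff.2 h2⟩ * Polynomial.X -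
      Polynomial.C ⟨g3, mem_algebraicClosure_iff.2 h3⟩, ?_, ?_⟩
    · intro h0
      have := congrArg (fun P => Polynomial.coeff P 3) h0
      simp [Polynomial.coeff_X, Polynomial.coeff_C] at this
    · simp only [map_sub, map_mul, Polynomial.aeval_C, Polynomial.aeval_X, map_pow]
      exact h
  have h5 : Algebra.IsAlgebraic ℚ (algebraicClosure ℚ ℂ) := algebraicClosure.isAlgebraic ℚ ℂ
  exact @IsAlgebraic.restrictScalars ℚ (algebraicClosure ℚ ℂ) ℂ _ _ _ _ _ _ _ _ h5 x h4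

theorem leg_alg (hc : CQ A B) (hT : TorX A B) {b : Ideal (OO A B)} {L : PeriodPair} {om : ℂ}
    (hL : IsNL b L om) {V : ValuationSubring ℂ} {u e lam : ℂ} (h : GoodN V L u e lam) :
    IsAlgebraic ℚ u ∧ IsAlgebraic ℚ e ∧ IsAlgebraic ℚ lam := by
  have hk := kap_alg hc hT hL
  have hq : ∀ q : ℚ, IsAlgebraic ℚ (q : ℂ) := fun q => isAlgebraic_algebraMap (A := ℂ) q
  have h2 : IsAlgebraic ℚ L.g₂ := by
    have e1 : L.g₂ = ((144 : ℚ) : ℂ) * kap L + ((1 / 12 : ℚ) : ℂ) := by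
      unfold kap
      push_cast
      ring
    rw [e1]
    exact ((hq _).mul hk).add (hq _)
  have h3 : IsAlgebraic ℚ L.g₃ := by
    have e1 : L.g₃ = ((-(1 / 18) : ℚ) : ℂ) * L.g₂ := by
      rw [hL.nrm]
      push_cast
      ring
    rw [e1]
    exact (hq _).mul h2
  have k1 : IsAlgebraic ℚ e := root_alg h2 h3 (by rw [cub h e]; ring)
  have k2 : IsAlgebraic ℚ (e + u ^ 2) := root_alg h2 h3 (by rw [cub h (e + u ^ 2)]; ring)
  have k3 : IsAlgebraic ℚ (e + lam * u ^ 2) :=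
    root_alg h2 h3 (by rw [cub h (e + lam * u ^ 2)]; ring)
  have k4 : IsAlgebraic ℚ (u ^ 2) := by
    have : u ^ 2 = (e + u ^ 2) - e := by ring
    rw [this]
    exact k2.sub k1
  have k5 : IsAlgebraic ℚ u := IsAlgebraic.of_pow (by norm_num) k4
  refine ⟨k5, k1, ?_⟩
  have hu2 : u ^ 2 ≠ 0 := pow_ne_zero _ h.u0
  have : lam = ((e + lam * u ^ 2) - e) * (u ^ 2)⁻¹ := by
    rw [add_sub_cancel_left, mul_assoc, mul_inv_cancel₀ hu2, mul_one]
  rw [this]
  exact (k3.sub k1).mul k4.inv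

/-- `LegN` for the lattice `u L` -/
theorem legN (hS : MUXU.Su_SCX) (hc : CQ A B) (hT : TorX A B) {n : ℕ} {ι : Type}
    (R : Reps A B n ι) {V : ValuationSubring ℂ} (h3 : V.valuation (3 : ℂ) < 1) {u e lam : ℂ}
    (h : GoodN V (R.L R.i0) u e lam) :
    ∃ (L' : PeriodPair), LegN A B V L' (u * R.om R.i0) (e / u ^ 2) lam := by
  obtain ⟨L', hL'⟩ := hS (R.L R.i0) u h.u0
  obtain ⟨s1, s2, -, -⟩ := ta_SCP (R.L R.i0) L' u h.u0 hL'
  have ho : R.om R.i0 ≠ 0 := (R.nl R.i0).om_ne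
  have hv2 : V.valuation (2 : ℂ) = 1 := by
    have := vN V h3 2 (by norm_num)
    exact_mod_cast this
  have hl1 : V.valuation (1 + lam) < 1 := lt_of_le_of_lt h.lam1 h3
  refine ⟨L', mul_ne_zero h.u0 ho, ?_, ?_, (leg_alg hc hT (R.nl R.i0) h).2.2, ?_, ?_⟩
  · intro z
    have e1 : z = u * (u⁻¹ * z) := by rw [mul_inv_cancel_left₀ h.u0]
    rw [e1, ← hL' (u⁻¹ * z), (R.nl R.i0).mem]
    constructor
    · rintro ⟨x, -, hx⟩
      exact ⟨x, by rw [hx]; ring⟩
    · rintro ⟨x, hx⟩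
      refine ⟨x, by rw [R.b0]; trivial, ?_⟩
      have hu := h.u0
      apply mul_left_cancel₀ hu
      rw [hx]
      ring
  · intro z hz
    have e1 : z = u * (u⁻¹ * z) := by rw [mul_inv_cancel_left₀ h.u0]
    have hz' : u⁻¹ * z ∉ (R.L R.i0).lattice := by
      intro h4
      apply hz
      rw [e1]
      exact (hL' _).1 h4
    have h5 := h.eq _ hz'
    rw [e1, s1, s2]
    have hu := h.u0
    rw [show (R.L R.i0).weierstrassP (u⁻¹ * z) / u ^ 2 - e / u ^ 2 =
      ((R.L R.i0).weierstrassP (u⁻¹ * z) - e) / u ^ 2 by ring, ← h5]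
    field_simp
    ring
  · have e1 : lam = -1 + (1 + lam) := by ring
    have e2 : V.valuation (-1 : ℂ) = 1 := by rw [Valuation.map_neg, map_one]
    rw [e1, Valuation.map_add_eq_of_lt_left _ (by rw [e2]; exact hl1), e2]
  · have e1 : 1 - lam = 2 - (1 + lam) := by ring
    rw [e1, Valuation.map_sub_eq_of_lt_left _ (by rw [hv2]; exact hl1), hv2]

end

end Pool.Agent.NSG


end

section

/-!
# MUX, block H, bridge: module SYM, the symbols `PP i`
-/

set_option autoImplicit false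

namespace Pool.Agent.MUXHY

open _root_.MU3 _root_.Pool.Agent.MU3A _root_.Pool.Agent.MU3B _root_.Pool.Agent.MU3F _root_.Pool.Agent.MUX _root_.Pool.Agent.MUXH
  _root_.Pool.Agent.MuSym OnePoint
open scoped ComplexConjugate

namespace Sym

theorem isSym_lin {ι : Type} [Fintype ι] {N : ℕ} {nu : ℤ → ℂ}
    {Φ : ι → OnePoint ℚ → OnePoint ℚ → ℂ} (h : ∀ c, IsSym N nu (Φ c)) (k : ι → ℂ) (om : ℂ) :
    IsSym N nu (fun x y => (∑ c, k c * Φ c x y) / om) := by
  constructor
  · intro x y z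
    rw [← add_div, ← Finset.sum_add_distrib]
    congr 1
    refine Finset.sum_congr rfl fun c _ => ?_
    rw [← (h c).add x y z]
    ring
  · intro a b c d hd hc x y
    rw [← mul_div_assoc, Finset.mul_sum]
    congr 1
    refine Finset.sum_congr rfl fun i _ => ?_
    rw [(h i).equiv a b c d hd hc x y]
    ring

theorem hecke_lin {ι : Type} [Fintype ι] (l : ℕ) (nu : ℤ → ℂ)
    (Φ : ι → OnePoint ℚ → OnePoint ℚ → ℂ) (k : ι → ℂ) (om : ℂ) (x y : OnePoint ℚ) :
    hecke l nu (fun x y => (∑ c, k c * Φ c x y) / om) x y =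
      (∑ c, k c * hecke l nu (Φ c) x y) / om := by
  unfold hecke
  rw [← Finset.sum_div, ← mul_div_assoc, ← add_div, Finset.sum_comm, Finset.mul_sum,
    ← Finset.sum_add_distrib]
  congr 1
  refine Finset.sum_congr rfl fun c _ => ?_
  rw [← Finset.mul_sum]
  ring

end Sym

/-- `PP i` is a symbol, `U_p PP i = PP (i + 1)`, `PP h = a PP 0` -/
theorem ty_SYM (h1 : Sy_IDE) (h2 : MUXT.Xs_FTI) (h3 : MUXF.Sx_HU) (h4 : MUXF.Sx_PRI)
    (h5 : MUXF.Sx_NIM) : Sy_SYM := by
  intro p A B P V f hS ι _ R e he kk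
  obtain ⟨hP0, hPm, -, -, hg0, hpf, hgP, -, -, hal⟩ := h1 p A B P V f hS
  have hcq : CQ A B := hS.case.toCQ
  obtain ⟨hmul, -, -, -⟩ := h5 A B (toCQ hcq)
  have hp : p.Prime := by
    rcases hS.case.split with ⟨rfl, _⟩ | ⟨rfl, _⟩ <;> norm_num
  have hP : ∀ i : ℕ, P ^ i ≠ ⊥ := by
    intro i
    induction i with
    | zero =>
      rw [pow_zero, Ideal.one_eq_top]
      intro h0
      apply hP0
      rw [eq_bot_iff, ← h0]
      exact le_top
    | succ i ih => exact (hmul _ _ ih hP0).2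
  have hb : ∀ (c : ι) (i : ℕ), R.b c * P ^ i ≠ ⊥ := fun c i =>
    (hmul _ _ (R.nl c).b_ne (hP i)).2
  have hD : 0 < absD A B := by
    have := hcq.neg
    unfold absD
    omega
  have hDc : ((absD A B).toNat : ℤ) = -(B ^ 2 + 4 * A) := by
    rw [Int.toNat_of_nonneg hD.le]
    rfl
  refine ⟨fun i => ?_, fun i x y => ?_, ?_⟩
  · refine Sym.isSym_lin (fun c => ?_) (fun c => kk c / e ((nI (R.b c) : ℕ) : OO A B)) (R.om R.i0)
    have h6 := h2 A B hcq.hB hcq.neg (R.b c * P ^ i) (hb c i) e (p * f)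
      (Nat.mul_pos hp.pos (Nat.pos_of_ne_zero hS.f0)) he.mul
      (fun x y hxy => he.per x y (Ideal.mem_of_dvd _ hxy hpf)) he.neg
    have hN : p ^ (1 + 1) * N0X A B f ≠ 0 := by
      unfold N0X
      have h7 : (absD A B).toNat ≠ 0 := by omega
      exact mul_ne_zero (pow_ne_zero _ hp.ne_zero) (mul_ne_zero h7 (pow_ne_zero _ hS.f0))
    have hdiv : -(B ^ 2 + 4 * A) * ((p * f : ℕ) : ℤ) ^ 2 ∣ ((p ^ (1 + 1) * N0X A B f : ℕ) : ℤ) := by
      unfold N0X
      refine ⟨1, ?_⟩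
      push_cast
      rw [hDc]
      ring
    exact (h6.2 _ hN hdiv).1
  · have h6 := Sym.hecke_lin p (nuX e) (fun c => PhiI (R.b c * P ^ i) e)
      (fun c => kk c / e ((nI (R.b c) : ℕ) : OO A B)) (R.om R.i0) x y
    have h7 : hecke p (nuX e) (PP R P e kk i) x y = (∑ c, kk c / e ((nI (R.b c) : ℕ) : OO A B) *
        hecke p (nuX e) (PhiI (R.b c * P ^ i) e) x y) / R.om R.i0 := h6
    rw [h7]
    unfold PP
    congr 1
    refine Finset.sum_congr rfl fun c _ => ?_
    have h8 := (h3 A B (toCQ hcq) (R.b c * P ^ i) (idl f * cjI P) P e p (hb c i) hg0 (toEI he)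
      hS.hP.prime hS.hP.norm hp hgP).2 x y
    have h9 : R.b c * P ^ (i + 1) = R.b c * P ^ i * P := by rw [pow_succ, mul_assoc]
    rw [h9]
    congr 1
  · intro h al hh hPh x y
    obtain ⟨hal0, -, -⟩ := hal h al hh hPh
    unfold PP
    rw [← mul_div_assoc, Finset.mul_sum]
    congr 1
    refine Finset.sum_congr rfl fun c _ => ?_
    have h8 := (h4 A B (toCQ hcq) (R.b c) (idl f * cjI P) e al (R.nl c).b_ne (toEI he) hal0).2 x y
    have h9 : PhiI (sp al * R.b c) e x y = e al * conj (emb al) * PhiI (R.b c) e x y := h8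
    rw [hPh, mul_comm (R.b c) (sp al), h9, pow_zero, mul_one]
    ring

end Pool.Agent.MUXHY


end

section

/-!
# N2, block G2N (helper6): the lattice `u L` of `GoodT`; algebraicity of `u`, `e`, `a1`, `a3`
-/

set_option autoImplicit false

namespace Pool.Agent.N2

open _root_.MU3 _root_.Pool.Agent.MU3A _root_.Pool.Agent.MU3B _root_.Pool.Agent.MU3Q _root_.Pool.Agent.MUX _root_.Pool.Agent.MUXN
  _root_.Pool.Agent.NS _root_.Pool.Agent.NSG

noncomputable section

variable {A B : ℤ}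

/-- the values of `℘` at torsion points of normalised lattices are algebraic -/
theorem tor_alg (hc : CQ A B) (hT : TorX A B) {b : Ideal (OO A B)} {L : PeriodPair} {om : ℂ}
    (hL : IsNL b L om) {n : ℕ} (hn : n ≠ 0) {z : ℂ} (hz : (n : ℂ) * z ∈ L.lattice)
    (hz' : z ∉ L.lattice) : IsAlgebraic ℚ (L.weierstrassP z) := by
  have hm : idl (A := A) (B := B) n ≠ ⊥ := by
    intro h0
    rw [Ideal.span_singleton_eq_bot] at h0
    have h1 := congrArg QuadraticAlgebra.re h0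
    rw [QuadraticAlgebra.re_natCast, QuadraticAlgebra.re_zero] at h1
    exact hn (by exact_mod_cast h1)
  have hf := hT.fin _ hm
  have hmem : xn L z ∈ RF (idl (A := A) (B := B) n) :=
    IntermediateField.subset_adjoin _ _ ⟨b, L, om, hL, Or.inr
      ⟨z, Pool.Agent.NSR.UNR.tor_of_mul hc hL.toIsLI hz, hz', rfl⟩⟩
  have h1 : IsAlgebraic (kk A B) (⟨xn L z, hmem⟩ : RF (idl (A := A) (B := B) n)) :=
    Algebra.IsAlgebraic.isAlgebraic _
  have h2 : IsAlgebraic ℚ (xn L z) := alg_of hc (h1.algebraMap (A := ℂ))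
  have h3 : L.weierstrassP z = xn L z + ((1 / 12 : ℚ) : ℂ) := by
    unfold xn
    push_cast
    ring
  rw [h3]
  exact h2.add (isAlgebraic_algebraMap (A := ℂ) (1 / 12 : ℚ))

theorem g_alg (hc : CQ A B) (hT : TorX A B) {b : Ideal (OO A B)} {L : PeriodPair} {om : ℂ}
    (hL : IsNL b L om) : IsAlgebraic ℚ L.g₂ ∧ IsAlgebraic ℚ L.g₃ := by
  have hk := kap_alg hc hT hL
  have hq : ∀ q : ℚ, IsAlgebraic ℚ (q : ℂ) := fun q => isAlgebraic_algebraMap (A := ℂ) q
  have h2 : IsAlgebraic ℚ L.g₂ := by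
    have e1 : L.g₂ = ((144 : ℚ) : ℂ) * kap L + ((1 / 12 : ℚ) : ℂ) := by
      unfold kap
      push_cast
      ring
    rw [e1]
    exact ((hq _).mul hk).add (hq _)
  refine ⟨h2, ?_⟩
  have e1 : L.g₃ = ((-(1 / 18) : ℚ) : ℂ) * L.g₂ := by
    rw [hL.nrm]
    push_cast
    ring
  rw [e1]
  exact (hq _).mul h2

theorem legT_alg (hc : CQ A B) (hT : TorX A B) {b : Ideal (OO A B)} {L : PeriodPair} {om : ℂ}
    (hL : IsNL b L om) {V : ValuationSubring ℂ} {u e a1 a3 : ℂ} (h : GoodT V L u e a1 a3) :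
    IsAlgebraic ℚ u ∧ IsAlgebraic ℚ e ∧ IsAlgebraic ℚ a1 ∧ IsAlgebraic ℚ a3 := by
  obtain ⟨k2, k3⟩ := g_alg hc hT hL
  have hq : ∀ q : ℚ, IsAlgebraic ℚ (q : ℂ) := fun q => isAlgebraic_algebraMap (A := ℂ) q
  obtain ⟨w1, w2, t1, t2, n1, n2, -, -, he, hu⟩ := h.tor
  have p1 : IsAlgebraic ℚ (L.weierstrassP w1) :=
    tor_alg hc hT hL (n := 3) (by norm_num) (by exact_mod_cast t1) n1
  have p2 : IsAlgebraic ℚ (L.weierstrassP w2) :=
    tor_alg hc hT hL (n := 3) (by norm_num) (by exact_mod_cast t2) n2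
  have hu2 : IsAlgebraic ℚ (u ^ 2) := by rw [hu]; exact p2.sub p1
  have hua : IsAlgebraic ℚ u := IsAlgebraic.of_pow (by norm_num) hu2
  have dsq : ∀ w : ℂ, w ∉ L.lattice → IsAlgebraic ℚ (L.weierstrassP w) →
      IsAlgebraic ℚ ((L.derivWeierstrassP w / u ^ 3) ^ 2) := by
    intro w hw ha
    have e1 : (L.derivWeierstrassP w / u ^ 3) ^ 2 = (((4 : ℚ) : ℂ) * L.weierstrassP w ^ 3 -
        L.g₂ * L.weierstrassP w - L.g₃) * ((u ^ 2) ^ 3)⁻¹ := by
      rw [div_pow, L.derivWeierstrassP_sq w hw]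
      push_cast
      rw [div_eq_mul_inv]
      congr 2
      ring
    rw [e1]
    exact ((((hq 4).mul (ha.pow 3)).sub (k2.mul ha)).sub k3).mul (hu2.pow 3).inv
  have ha3 : IsAlgebraic ℚ a3 := by
    have h1 := h.eq w1 n1
    rw [he, sub_self, zero_div, mul_zero, zero_add] at h1
    have h2 : a3 ^ 2 = (L.derivWeierstrassP w1 / u ^ 3) ^ 2 := by
      rw [h1]
      ring
    refine IsAlgebraic.of_pow (n := 2) (by norm_num) ?_
    rw [h2]
    exact dsq w1 n1 p1
  refine ⟨hua, by rw [he]; exact p1, ?_, ha3⟩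
  have h1 := h.eq w2 n2
  have e1 : (L.weierstrassP w2 - e) / u ^ 2 = 1 := by
    rw [he, ← hu]
    exact div_self (pow_ne_zero _ h.u0)
  rw [e1] at h1
  have h2 : (a1 + a3) ^ 2 = (L.derivWeierstrassP w2 / u ^ 3) ^ 2 - ((4 : ℚ) : ℂ) := by
    rw [h1]
    push_cast
    ring
  have h3 : IsAlgebraic ℚ (a1 + a3) := by
    refine IsAlgebraic.of_pow (n := 2) (by norm_num) ?_
    rw [h2]
    exact (dsq w2 n2 p2).sub (hq 4)
  have h4 : a1 = (a1 + a3) - a3 := by ring
  rw [h4]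
  exact h3.sub ha3

/-- the lattice `u L`, its integrality property at `V` -/
theorem legT (hS : MUXU.Su_SCX) (hWQ : St_WQ) (hGP : Sg_GP) (hDV : Sg_DV) (hc : CQ A B)
    (hT : TorX A B) {n : ℕ} {ι : Type}
    (R : Reps A B n ι) {V : ValuationSubring ℂ} (h2V : V.valuation (2 : ℂ) < 1) {u e a1 a3 : ℂ}
    (h : GoodT V (R.L R.i0) u e a1 a3) :
    ∃ (L' : PeriodPair) (S : Finset ℂ), BinP V L' S ∧ LatO A B L' (u * R.om R.i0) := by
  obtain ⟨L', hL'⟩ := hS (R.L R.i0) u h.u0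
  obtain ⟨s1, s2, -, -⟩ := ta_SCP (R.L R.i0) L' u h.u0 hL'
  have ho : R.om R.i0 ≠ 0 := (R.nl R.i0).om_ne
  obtain ⟨-, -, k1, k3⟩ := legT_alg hc hT (R.nl R.i0) h
  refine ⟨L', {a1, a3}, ?_, mul_ne_zero h.u0 ho, ?_⟩
  · refine bin_T hWQ hGP hDV V h2V L' (e / u ^ 2) a1 a3 ?_ k1 k3 h.v1 h.v3
    intro z hz
    have e1 : z = u * (u⁻¹ * z) := by rw [mul_inv_cancel_left₀ h.u0]
    have hz' : u⁻¹ * z ∉ (R.L R.i0).lattice := by
      intro h4
      apply hz
      rw [e1]
      exact (hL' _).1 h4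
    have h5 := h.eq _ hz'
    rw [e1, s1, s2, h5]
    have hu := h.u0
    ring
  · intro z
    have e1 : z = u * (u⁻¹ * z) := by rw [mul_inv_cancel_left₀ h.u0]
    rw [e1, ← hL' (u⁻¹ * z), (R.nl R.i0).mem]
    constructor
    · rintro ⟨x, -, hx⟩
      exact ⟨x, by rw [hx]; ring⟩
    · rintro ⟨x, hx⟩
      refine ⟨x, by rw [R.b0]; trivial, ?_⟩
      have hu := h.u0
      apply mul_left_cancel₀ hu
      rw [hx]
      ring

end

end Pool.Agent.N2


end

section

/-!
# N2, block GS (helper6): the estimate G+ at `p = 2`, abstract form (after helper83)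

`X` a series in `q²`, so `v (θ X) ≤ v 2 v (X - e_i)`; `(θ X)² c² = 4 (X - e₁) (X - e₂) (X - e₃) G²`, where the `e_i` are the zeros of
`4 x³ + (a₁ x + a₃)²`, `v a₁ ≤ 1`, `v a₃ = 1`. Then `v (G/c)² ≤ 1/max v e_i`, so `v (G/c)³ ≤ v 2`.
-/

set_option autoImplicit false

namespace Pool.Agent.N2

namespace GSV

variable {E Γ : Type} [Field E] [LinearOrderedCommGroupWithZero Γ] (v : Valuation E Γ)

/-- one factor -/
theorem stepC {X e1 e2 e3 dX G c : E} (h20 : v (2 : E) ≠ 0)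
    (hX2 : v dX ≤ v 2 * v (X - e2)) (hX3 : v dX ≤ v 2 * v (X - e3))
    (ode : c ^ 2 * dX ^ 2 = 4 * ((X - e1) * (X - e2) * (X - e3)) * G ^ 2)
    (n2 : v (X - e2) ≠ 0) (n3 : v (X - e3) ≠ 0) : v G ^ 2 * v (X - e1) ≤ v c ^ 2 := by
  have h1 := congrArg v ode
  rw [map_mul, map_mul, map_mul, map_mul, map_mul, map_pow, map_pow, map_pow,
    show (4 : E) = 2 ^ 2 by norm_num, map_pow] at h1
  have h2 : v dX ^ 2 ≤ v (2 : E) ^ 2 * (v (X - e2) * v (X - e3)) := by
    calc v dX ^ 2 = v dX * v dX := pow_two _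
      _ ≤ (v 2 * v (X - e2)) * (v 2 * v (X - e3)) := mul_le_mul' hX2 hX3
      _ = _ := by rw [pow_two]; ac_rfl
  have hpos : (0 : Γ) < v (2 : E) ^ 2 * (v (X - e2) * v (X - e3)) :=
    zero_lt_iff.2 (mul_ne_zero (pow_ne_zero _ h20) (mul_ne_zero n2 n3))
  have h3 : (v G ^ 2 * v (X - e1)) * (v (2 : E) ^ 2 * (v (X - e2) * v (X - e3))) ≤
      v c ^ 2 * (v (2 : E) ^ 2 * (v (X - e2) * v (X - e3))) := by
    calc (v G ^ 2 * v (X - e1)) * (v (2 : E) ^ 2 * (v (X - e2) * v (X - e3)))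
        = v (2 : E) ^ 2 * (v (X - e1) * v (X - e2) * v (X - e3)) * v G ^ 2 := by ac_rfl
      _ = v c ^ 2 * v dX ^ 2 := h1.symm
      _ ≤ _ := mul_le_mul_right h2 _
  exact le_of_mul_le_mul_right h3 hpos

end GSV

open _root_.Pool.Agent.N2.GSV in
/-- G+ at `p = 2` -/
theorem gv6 {E Γ : Type} [Field E] [LinearOrderedCommGroupWithZero Γ] (v : Valuation E Γ)
    (h2 : v (2 : E) < 1) (h20 : v (2 : E) ≠ 0) {a1 a3 e1 e2 e3 X dX G c : E} (ha1 : v a1 ≤ 1)
    (ha3 : v a3 = 1) (s2 : 2 * (e1 * e2 + e1 * e3 + e2 * e3) = a1 * a3)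
    (s3 : 4 * (e1 * e2 * e3) = -a3 ^ 2)
    (hX1 : v dX ≤ v 2 * v (X - e1)) (hX2 : v dX ≤ v 2 * v (X - e2))
    (hX3 : v dX ≤ v 2 * v (X - e3))
    (ode : c ^ 2 * dX ^ 2 = 4 * ((X - e1) * (X - e2) * (X - e3)) * G ^ 2)
    (n1 : X ≠ e1) (n2 : X ≠ e2) (n3 : X ≠ e3) : v G ^ 6 ≤ v c ^ 6 * v (2 : E) ^ 2 := by
  have m1 : v (X - e1) ≠ 0 := (Valuation.ne_zero_iff v).2 (sub_ne_zero.2 n1)
  have m2 : v (X - e2) ≠ 0 := (Valuation.ne_zero_iff v).2 (sub_ne_zero.2 n2)
  have m3 : v (X - e3) ≠ 0 := (Valuation.ne_zero_iff v).2 (sub_ne_zero.2 n3)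
  have v3 : v (3 : E) = 1 := by
    have e : (3 : E) = 1 + 2 := by norm_num
    rw [e, Valuation.map_add_eq_of_lt_left _ (by rw [map_one]; exact h2), map_one]
  obtain ⟨M, hM⟩ : ∃ M, M = max (max (v e1) (v e2)) (v e3) := ⟨_, rfl⟩
  have l1 : v e1 ≤ M := by rw [hM]; exact (le_max_left _ _).trans (le_max_left _ _)
  have l2 : v e2 ≤ M := by rw [hM]; exact (le_max_right _ _).trans (le_max_left _ _)
  have l3 : v e3 ≤ M := by rw [hM]; exact le_max_right _ _
  have hs3 : v (2 : E) ^ 2 * (v e1 * v e2 * v e3) = 1 := by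
    have h := congrArg v s3
    rw [Valuation.map_neg, map_pow, ha3, one_pow, map_mul, map_mul, map_mul,
      show (4 : E) = 2 ^ 2 by norm_num, map_pow] at h
    exact h
  have hM3 : 1 ≤ v (2 : E) ^ 2 * M ^ 3 := by
    rw [← hs3]
    refine mul_le_mul_right ?_ _
    calc v e1 * v e2 * v e3 ≤ M * M * M := mul_le_mul' (mul_le_mul' l1 l2) l3
      _ = M ^ 3 := by rw [pow_succ, pow_two]
  have hM0 : M ≠ 0 := by
    intro h
    rw [h, zero_pow three_ne_zero, mul_zero] at hM3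
    exact absurd hM3 (not_le.2 zero_lt_one)
  have hMp : 0 < M := zero_lt_iff.2 hM0
  -- one of the differences is large
  have key : M ≤ v (X - e1) ∨ M ≤ v (X - e2) ∨ M ≤ v (X - e3) := by
    by_contra hcon
    push Not at hcon
    obtain ⟨k1, k2, k3⟩ := hcon
    have hX : ∀ e : E, v (X - e) < M → v e = M → v X = M := by
      intro e h4 h5
      have e6 : X = (X - e) + e := by ring
      rw [e6, Valuation.map_add_eq_of_lt_right v (by rw [h5]; exact h4), h5]
    have hvX : v X = M := by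
      rcases max_choice (max (v e1) (v e2)) (v e3) with h | h
      · rcases max_choice (v e1) (v e2) with h' | h'
        · exact hX e1 k1 (by rw [hM, h, h'])
        · exact hX e2 k2 (by rw [hM, h, h'])
      · exact hX e3 k3 (by rw [hM, h])
    have he : ∀ e : E, v (X - e) < M → v e = M := by
      intro e h4
      have e6 : e = X - (X - e) := by ring
      rw [e6, Valuation.map_sub_eq_of_lt_left v (by rw [hvX]; exact h4), hvX]
    have q3 : v (2 : E) ^ 2 * M ^ 3 = 1 := by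
      rw [he e1 k1, he e2 k2, he e3 k3] at hs3
      rw [← hs3, show M ^ 3 = M * M * M by rw [pow_succ, pow_two]]
    have q2 : v (e1 * e2 + e1 * e3 + e2 * e3) = M ^ 2 := by
      obtain ⟨d1, hd1⟩ : ∃ d, d = X - e1 := ⟨_, rfl⟩
      obtain ⟨d2, hd2⟩ : ∃ d, d = X - e2 := ⟨_, rfl⟩
      obtain ⟨d3, hd3⟩ : ∃ d, d = X - e3 := ⟨_, rfl⟩
      rw [← hd1] at k1
      rw [← hd2] at k2
      rw [← hd3] at k3
      have e7 : e1 * e2 + e1 * e3 + e2 * e3 = 3 * X ^ 2 +
          (d1 * (d2 - X) + d2 * (d3 - X) + d3 * (d1 - X) - X * (d1 + d2 + d3)) := by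
        rw [hd1, hd2, hd3]
        ring
      have b1 : ∀ d d' : E, v d < M → v d' < M → v (d * (d' - X)) < M ^ 2 := by
        intro d d' h5 h6
        rw [map_mul, pow_two]
        have h7 : v (d' - X) ≤ M := (v.map_sub _ _).trans (max_le h6.le hvX.le)
        calc v d * v (d' - X) ≤ v d * M := mul_le_mul_right h7 _
          _ < M * M := mul_lt_mul_of_pos_right h5 hMp
      have b2 : v (X * (d1 + d2 + d3)) < M ^ 2 := by
        rw [map_mul, hvX, pow_two]
        refine mul_lt_mul_of_pos_left ?_ hMp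
        exact v.map_add_lt (v.map_add_lt k1 k2) k3
      have b3 : v (d1 * (d2 - X) + d2 * (d3 - X) + d3 * (d1 - X) - X * (d1 + d2 + d3)) < M ^ 2 :=
        v.map_sub_lt (v.map_add_lt (v.map_add_lt (b1 _ _ k1 k2) (b1 _ _ k2 k3)) (b1 _ _ k3 k1)) b2
      have b4 : v (3 * X ^ 2) = M ^ 2 := by rw [map_mul, v3, one_mul, map_pow, hvX]
      rw [e7, Valuation.map_add_eq_of_lt_left v (by rw [b4]; exact b3), b4]
    have q4 : v (2 : E) * M ^ 2 ≤ 1 := by
      have h := congrArg v s2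
      rw [map_mul, map_mul, q2, ha3, mul_one] at h
      rw [h]
      exact ha1
    -- `t² M³ = 1`, `t M² ≤ 1`, so `1 = t⁴ M⁶ = t (t M²)³ ≤ t < 1`
    have q5 : v (2 : E) * (v (2 : E) * M ^ 2) ^ 3 = 1 := by
      calc v (2 : E) * (v (2 : E) * M ^ 2) ^ 3 = (v (2 : E) ^ 2 * M ^ 3) ^ 2 := by
            rw [mul_pow, mul_pow, ← pow_mul, ← pow_mul, ← pow_mul, ← mul_assoc, ← pow_succ']
        _ = 1 := by rw [q3, one_pow]
    have q6 : v (2 : E) * (v (2 : E) * M ^ 2) ^ 3 ≤ v (2 : E) :=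
      mul_le_of_le_one_right' (pow_le_one' q4 3)
    rw [q5] at q6
    exact absurd h2 (not_lt.2 q6)
  have fin : ∀ e : E, M ≤ v (X - e) → v G ^ 2 * v (X - e) ≤ v c ^ 2 →
      v G ^ 6 ≤ v c ^ 6 * v (2 : E) ^ 2 := by
    intro e h4 h5
    have h6 : v G ^ 2 * M ≤ v c ^ 2 := (mul_le_mul_right h4 _).trans h5
    have h7 : v G ^ 6 * M ^ 3 ≤ v c ^ 6 := by
      have := pow_le_pow_left' h6 3
      rwa [mul_pow, ← pow_mul, ← pow_mul] at this
    calc v G ^ 6 = v G ^ 6 * 1 := (mul_one _).symm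
      _ ≤ v G ^ 6 * (v (2 : E) ^ 2 * M ^ 3) := mul_le_mul_right hM3 _
      _ = (v G ^ 6 * M ^ 3) * v (2 : E) ^ 2 := by ac_rfl
      _ ≤ v c ^ 6 * v (2 : E) ^ 2 := mul_le_mul_left h7 _
  rcases key with h | h | h
  · exact fin e1 h (stepC v h20 hX2 hX3 ode m2 m3)
  · refine fin e2 h (stepC v (e1 := e2) (e2 := e1) (e3 := e3) h20 hX1 hX3 ?_ m1 m3)
    rw [ode]
    ring
  · refine fin e3 h (stepC v (e1 := e3) (e2 := e1) (e3 := e2) h20 hX1 hX2 ?_ m1 m2)
    rw [ode]
    ring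

end Pool.Agent.N2


end

section

/-!
# N2, block GS (helper6): G+ at `p = 2` for power series over a discrete valuation ring

`ev2`: the Gauss valuation on the fraction field of the power series over a discrete valuation ring `O`, with `v (θ X) ≤ v 2 v X` if
`X (-q) = X (q)`. `gs_main`: the divisibility `4 c⁶ ∣ (coeff n G)⁶`.
-/

set_option autoImplicit false

namespace Pool.Agent.N2

noncomputable section

namespace GSR

open _root_.Pool.Agent.MUXN.GD PowerSeries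

variable {O : Type} [CommRing O]

/-- `q ↦ -q` -/
def al : PowerSeries O →+* PowerSeries O := PowerSeries.rescale (-1 : O)

theorem al_coeff (f : PowerSeries O) (n : ℕ) : coeff n (al f) = (-1) ^ n * coeff n f := by
  unfold al
  rw [coeff_rescale]

theorem al_al (f : PowerSeries O) : al (al f) = f := by
  ext n
  rw [al_coeff, al_coeff, ← mul_assoc, ← mul_pow, neg_one_mul, neg_neg, one_pow, one_mul]

theorem al_C (c : O) : al (C c : PowerSeries O) = C c := by
  ext n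
  rw [al_coeff, coeff_C]
  split_ifs with h
  · rw [h, pow_zero, one_mul]
  · rw [mul_zero]

variable [IsDomain O]

theorem al_odd (h2 : (2 : O) ≠ 0) {f : PowerSeries O} (hf : al f = f) {n : ℕ} (hn : ¬ Even n) :
    coeff n f = 0 := by
  have h := congrArg (coeff n) hf
  rw [al_coeff, Odd.neg_one_pow (Nat.not_even_iff_odd.1 hn), neg_one_mul] at h
  have h3 : (2 : O) * coeff n f = 0 := by linear_combination -h
  exact (mul_eq_zero.1 h3).resolve_left h2

theorem al_th (h2 : (2 : O) ≠ 0) {f : PowerSeries O} (hf : al f = f) : C (2 : O) ∣ th O f := by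
  rw [C_dvd_iff]
  intro n
  rw [th_coeff]
  by_cases hn : Even n
  · obtain ⟨m, hm⟩ := hn
    refine Dvd.dvd.mul_right ⟨(m : O), ?_⟩ _
    rw [hm]
    push_cast
    ring
  · rw [al_odd h2 hf hn, mul_zero]
    exact dvd_zero _

variable [IsDiscreteValuationRing O]

theorem vR_mono (ϖ : O) (h : Prime ϖ) {f g : PowerSeries O} (hd : g ∣ f) :
    vR ϖ h f ≤ vR ϖ h g := by
  obtain ⟨k, rfl⟩ := hd
  rw [map_mul]
  exact mul_le_of_le_one_right' (vR_le_one ϖ h k)

theorem vR_coeff (ϖ : O) (h : Prime ϖ) (f : PowerSeries O) (n : ℕ) :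
    vR ϖ h (C (coeff n f)) ≤ vR ϖ h f := by
  by_cases hf : f = 0
  · simp [hf]
  rw [vR_apply ϖ h hf, vR_le, ← map_pow]
  apply (C : O →+* PowerSeries O).map_dvd
  have h1 : C ϖ ^ multiplicity (C ϖ) f ∣ f := pow_multiplicity_dvd _ _
  rw [← map_pow, C_dvd_iff] at h1
  exact h1 n

theorem vR_nonunit (ϖ : O) (h : Prime ϖ) (u : O) (hu : ¬ IsUnit u) : vR ϖ h (C u) < 1 := by
  have h1 : ϖ ∣ u := by
    by_cases hu0 : u = 0
    · rw [hu0]; exact dvd_zero _
    obtain ⟨n, w, rfl⟩ := IsDiscreteValuationRing.eq_unit_mul_pow_irreducible hu0 h.irreducible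
    cases n with
    | zero => exact absurd (by simp) hu
    | succ n => exact (Dvd.intro_left _ (pow_succ _ _).symm).mul_left _
  have h2 : vR ϖ h (C u) ≤ WithZero.exp (-((1 : ℕ) : ℤ)) := by
    rw [vR_le, pow_one]
    exact (C : O →+* PowerSeries O).map_dvd h1
  refine lt_of_le_of_lt h2 ?_
  rw [← WithZero.exp_zero, WithZero.exp_lt_exp]
  norm_num

/-- even series -/
theorem vR_th (ϖ : O) (h : Prime ϖ) (h2 : (2 : O) ≠ 0) {f : PowerSeries O} (hf : al f = f) :
    vR ϖ h (th O f) ≤ vR ϖ h (C 2) * vR ϖ h f := by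
  by_cases hf0 : f = 0
  · rw [hf0, map_zero, map_zero]
    exact zero_le
  obtain ⟨g, hg⟩ : C ϖ ^ multiplicity (C ϖ) f ∣ f := pow_multiplicity_dvd _ _
  have hC0 : (C ϖ ^ multiplicity (C ϖ) f : PowerSeries O) ≠ 0 :=
    pow_ne_zero _ (C_prime h).ne_zero
  have halC : al (C ϖ ^ multiplicity (C ϖ) f : PowerSeries O) = C ϖ ^ multiplicity (C ϖ) f := by
    rw [map_pow, al_C]
  have hgal : al g = g := by
    have h1 := hf
    rw [hg, map_mul, halC] at h1
    exact mul_left_cancel₀ hC0 h1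
  obtain ⟨k, hk⟩ := al_th h2 hgal
  have h3 : th O f = C 2 * (C ϖ ^ multiplicity (C ϖ) f * k) := by
    have h4 : th O (C ϖ ^ multiplicity (C ϖ) f * g) =
        C ϖ ^ multiplicity (C ϖ) f * th O g := by
      ext n
      rw [th_coeff, ← map_pow, coeff_C_mul, coeff_C_mul, th_coeff]
      ring
    rw [hg, h4, ← hg, hk]
    ring
  rw [h3, map_mul, map_mul]
  refine mul_le_mul_right ?_ _
  calc vR ϖ h (C ϖ ^ multiplicity (C ϖ) f) * vR ϖ h k
      ≤ vR ϖ h (C ϖ ^ multiplicity (C ϖ) f) * 1 := mul_le_mul_right (vR_le_one ϖ h _) _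
    _ = vR ϖ h (C ϖ ^ multiplicity (C ϖ) f) := mul_one _
    _ = vR ϖ h f := by
        rw [map_pow, vR_C ϖ h, vR_apply ϖ h hf0, ← WithZero.exp_nsmul]
        congr 1
        simp

end GSR

open _root_.Pool.Agent.N2.GSR _root_.Pool.Agent.MUXN.GD PowerSeries in
/-- the Gauss valuation -/
theorem ev2 (O : Type) [CommRing O] [IsDomain O] [IsDiscreteValuationRing O] (h2 : (2 : O) ≠ 0) :
    ∃ v : Valuation (FractionRing (PowerSeries O)) (WithZero (Multiplicative ℤ)),
      (∀ f : PowerSeries O, v (algebraMap _ _ f) ≤ 1) ∧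
      (∀ u : O, IsUnit u → v (algebraMap _ _ (C u)) = 1) ∧
      (∀ u : O, ¬ IsUnit u → v (algebraMap _ _ (C u)) < 1) ∧
      (∀ (f : PowerSeries O) (n : ℕ), v (algebraMap _ _ (C (coeff n f))) ≤ v (algebraMap _ _ f)) ∧
      (∀ (d c : O), c ≠ 0 → v (algebraMap _ _ (C d)) ≤ v (algebraMap _ _ (C c)) → c ∣ d) ∧
      ∀ A B : PowerSeries O, B ≠ 0 → al A * B = A * al B →
        v (dd O (algebraMap _ _ A / algebraMap _ _ B)) ≤
          v (2 : FractionRing (PowerSeries O)) * v (algebraMap _ _ A / algebraMap _ _ B) := by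
  obtain ⟨ϖ, hϖ⟩ := IsDiscreteValuationRing.exists_irreducible O
  have h : Prime ϖ := hϖ.prime
  have hS : nonZeroDivisors (PowerSeries O) ≤ (vR ϖ h).supp.primeCompl := by
    intro s hs hs'
    exact vR_ne ϖ h (nonZeroDivisors.ne_zero hs) hs'
  set v := (vR ϖ h).extendToLocalization hS (FractionRing (PowerSeries O)) with hv
  have hva : ∀ f : PowerSeries O, v (algebraMap _ _ f) = vR ϖ h f := fun f =>
    Valuation.extendToLocalization_apply_map_apply _ _ _ f
  refine ⟨v, ?_, ?_, ?_, ?_, ?_, ?_⟩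
  · intro f
    rw [hva]
    exact vR_le_one ϖ h f
  · intro u hu
    rw [hva]
    exact vR_unit ϖ h u hu
  · intro u hu
    rw [hva]
    exact vR_nonunit ϖ h u hu
  · intro f n
    rw [hva, hva]
    exact vR_coeff ϖ h f n
  · intro d c hc hfc
    rw [hva, hva] at hfc
    have h1 := vR_dvd ϖ h (C d) c hc hfc
    rw [C_dvd_iff] at h1
    have h3 := h1 0
    rwa [coeff_zero_eq_constantCoeff_apply, constantCoeff_C] at h3
  · intro A B hB hAB
    obtain ⟨M, hM⟩ : ∃ M, M = A * al B := ⟨_, rfl⟩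
    obtain ⟨N, hN⟩ : ∃ N, N = B * al B := ⟨_, rfl⟩
    have hMal : al M = M := by
      rw [hM, map_mul, al_al, hAB]
    have hNal : al N = N := by
      rw [hN, map_mul, al_al, mul_comm]
    have hBal : al B ≠ 0 := by
      intro h0
      apply hB
      rw [← al_al B, h0, map_zero]
    have hN0 : N ≠ 0 := by rw [hN]; exact mul_ne_zero hB hBal
    have hinj := IsFractionRing.injective (PowerSeries O) (FractionRing (PowerSeries O))
    have hne : ∀ f : PowerSeries O, f ≠ 0 →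
        algebraMap (PowerSeries O) (FractionRing (PowerSeries O)) f ≠ 0 := fun f hf h0 =>
      hf (hinj (by rw [h0, map_zero]))
    have e1 : algebraMap (PowerSeries O) (FractionRing (PowerSeries O)) A /
        algebraMap _ _ B = algebraMap _ _ M / algebraMap _ _ N := by
      rw [div_eq_div_iff (hne B hB) (hne N hN0), ← map_mul, ← map_mul, hM, hN]
      congr 1
      ring
    rw [e1]
    obtain ⟨x, hx⟩ : ∃ x, x = algebraMap (PowerSeries O) (FractionRing (PowerSeries O)) M /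
      algebraMap (PowerSeries O) (FractionRing (PowerSeries O)) N := ⟨_, rfl⟩
    rw [← hx]
    have hxb : algebraMap (PowerSeries O) (FractionRing (PowerSeries O)) M =
      x * algebraMap (PowerSeries O) (FractionRing (PowerSeries O)) N := by
      rw [hx, div_mul_cancel₀ _ (hne N hN0)]
    have hC2 : algebraMap (PowerSeries O) (FractionRing (PowerSeries O)) (C 2) = 2 := by
      rw [map_ofNat, map_ofNat]
    have hth : ∀ f : PowerSeries O, al f = f → v (dd O (algebraMap _ _ f)) ≤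
        v (2 : FractionRing (PowerSeries O)) * v (algebraMap _ _ f) := by
      intro f hf
      rw [dd_alg, hva, hva, ← hC2, hva]
      exact vR_th ϖ h h2 hf
    have k1 := hth M hMal
    have k2 := hth N hNal
    have hvb : v (algebraMap (PowerSeries O) (FractionRing (PowerSeries O)) N) ≠ 0 :=
      (Valuation.ne_zero_iff v).2 (hne N hN0)
    rw [hxb, Derivation.leibniz, smul_eq_mul, smul_eq_mul] at k1
    have h3 : v (algebraMap (PowerSeries O) (FractionRing (PowerSeries O)) N * dd O x) ≤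
        v (2 : FractionRing (PowerSeries O)) *
          v (x * algebraMap (PowerSeries O) (FractionRing (PowerSeries O)) N) := by
      have h4 : algebraMap (PowerSeries O) (FractionRing (PowerSeries O)) N * dd O x =
          (x * dd O (algebraMap (PowerSeries O) (FractionRing (PowerSeries O)) N) +
            algebraMap (PowerSeries O) (FractionRing (PowerSeries O)) N * dd O x) -
          x * dd O (algebraMap (PowerSeries O) (FractionRing (PowerSeries O)) N) := by ring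
      rw [h4]
      refine (Valuation.map_sub _ _ _).trans (max_le k1 ?_)
      rw [map_mul, map_mul]
      calc v x * v (dd O (algebraMap (PowerSeries O) (FractionRing (PowerSeries O)) N))
          ≤ v x * (v (2 : FractionRing (PowerSeries O)) *
            v (algebraMap (PowerSeries O) (FractionRing (PowerSeries O)) N)) :=
            mul_le_mul_right k2 _
        _ = _ := by ac_rfl
    rw [map_mul, map_mul, mul_comm, ← mul_assoc] at h3
    exact le_of_mul_le_mul_right h3 (zero_lt_iff.2 hvb)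

open _root_.Pool.Agent.N2.GSR _root_.Pool.Agent.MUXN.GD PowerSeries in
/-- G+ at `p = 2` for power series -/
theorem gs_main (O : Type) [CommRing O] [IsDomain O] [IsDiscreteValuationRing O]
    (h2 : (2 : O) ≠ 0) (h2u : ¬ IsUnit (2 : O)) {a1 a3 d e1 e2 e3 c : O} (hd : d ≠ 0)
    (ha3 : IsUnit a3) (s1 : 4 * (e1 + e2 + e3) = -a1 ^ 2 * d)
    (s2 : 2 * (e1 * e2 + e1 * e3 + e2 * e3) = a1 * a3 * d ^ 2)
    (s3 : 4 * (e1 * e2 * e3) = -a3 ^ 2 * d ^ 3) (hc : c ≠ 0) (A B G : PowerSeries O)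
    (hB : B ≠ 0) (hAB : al A * B = A * al B) (hW : B * th O A - A * th O B ≠ 0)
    (ode : C c ^ 2 * (B * th O A - A * th O B) ^ 2 =
      B * (4 * A ^ 3 + C a1 ^ 2 * A ^ 2 * B + 2 * C a1 * C a3 * A * B ^ 2 + C a3 ^ 2 * B ^ 3) *
        G ^ 2) (n : ℕ) : c ^ 6 * 2 ^ 2 ∣ coeff n G ^ 6 := by
  obtain ⟨v, v1, v2, v3, v4, v5, v6⟩ := ev2 O h2
  have hinj := IsFractionRing.injective (PowerSeries O) (FractionRing (PowerSeries O))
  have hne : ∀ f : PowerSeries O, f ≠ 0 →
      algebraMap (PowerSeries O) (FractionRing (PowerSeries O)) f ≠ 0 := fun f hf h0 =>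
    hf (hinj (by rw [h0, map_zero]))
  have hCne : ∀ u : O, u ≠ 0 → (C u : PowerSeries O) ≠ 0 := by
    intro u hu h0
    apply hu
    have := congrArg constantCoeff h0
    simpa using this
  obtain ⟨κ, hκ⟩ : ∃ κ : O →+* FractionRing (PowerSeries O),
      κ = (algebraMap (PowerSeries O) (FractionRing (PowerSeries O))).comp C := ⟨_, rfl⟩
  have hκa : ∀ u : O, κ u = algebraMap _ _ (C u) := fun u => by rw [hκ]; rfl
  have hκ0 : ∀ u : O, u ≠ 0 → κ u ≠ 0 := fun u hu => by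
    rw [hκa]
    exact hne _ (hCne u hu)
  have hκD : ∀ u : O, dd O (κ u) = 0 := by
    intro u
    rw [hκa, dd_alg]
    have : th O (C u : PowerSeries O) = 0 := by
      ext m
      rw [th_coeff, coeff_C]
      split_ifs with hm
      · rw [hm]
        simp
      · simp
    rw [this, map_zero]
  have hκ2 : κ 2 = 2 := map_ofNat κ 2
  obtain ⟨a, ha⟩ : ∃ a, a = algebraMap (PowerSeries O) (FractionRing (PowerSeries O)) A := ⟨_, rfl⟩
  obtain ⟨b, hb⟩ : ∃ b, b = algebraMap (PowerSeries O) (FractionRing (PowerSeries O)) B := ⟨_, rfl⟩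
  obtain ⟨g, hg⟩ : ∃ g, g = algebraMap (PowerSeries O) (FractionRing (PowerSeries O)) G := ⟨_, rfl⟩
  have hb0 : b ≠ 0 := by rw [hb]; exact hne B hB
  have hd0 : κ d ≠ 0 := hκ0 d hd
  -- `θ (A / B)`
  have hdX : dd O (a / b) * b ^ 2 = b * dd O a - a * dd O b := by
    have h1 : a = (a / b) * b := (div_mul_cancel₀ a hb0).symm
    have h3 : dd O a = (a / b) * dd O b + b * dd O (a / b) := by
      conv_lhs => rw [h1, Derivation.leibniz, smul_eq_mul, smul_eq_mul]
    rw [h3]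
    field_simp
    ring
  have hdab : b * dd O a - a * dd O b =
      algebraMap (PowerSeries O) (FractionRing (PowerSeries O)) (B * th O A - A * th O B) := by
    rw [map_sub, map_mul, map_mul, ← dd_alg, ← dd_alg, ← ha, ← hb]
  -- the differences
  have hdiff : ∀ e : O, v (dd O (a / b)) ≤
      v (2 : FractionRing (PowerSeries O)) * v (a / b - κ e / κ d) ∧ a / b ≠ κ e / κ d := by
    intro e
    have hrel : al (C d * A - C e * B) * B = (C d * A - C e * B) * al B := by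
      rw [map_sub, map_mul, map_mul, al_C, al_C, sub_mul, sub_mul, mul_assoc, hAB]
      ring
    have h1 := v6 (C d * A - C e * B) B hB hrel
    have h3 : algebraMap (PowerSeries O) (FractionRing (PowerSeries O)) (C d * A - C e * B) /
        algebraMap _ _ B = κ d * (a / b - κ e / κ d) := by
      rw [map_sub, map_mul, map_mul, ← hκa, ← hκa, ← ha, ← hb]
      field_simp
    have h4 : dd O (κ d * (a / b - κ e / κ d)) = κ d * dd O (a / b) := by
      have h5 : κ d * (a / b - κ e / κ d) = κ d * (a / b) - κ e := by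
        field_simp
      rw [h5, map_sub, Derivation.leibniz, hκD, hκD, smul_zero, add_zero, sub_zero, smul_eq_mul]
    rw [h3, h4, map_mul, map_mul, ← mul_assoc, mul_comm (v 2) (v (κ d)), mul_assoc] at h1
    refine ⟨?_, ?_⟩
    · have h6 : (0 : WithZero (Multiplicative ℤ)) < v (κ d) :=
        zero_lt_iff.2 ((Valuation.ne_zero_iff v).2 hd0)
      exact le_of_mul_le_mul_left h1 h6
    · intro h0
      apply hne _ hW
      rw [← hdab, ← hdX]
      have h7 : κ d * (a / b) = κ e := by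
        rw [h0]
        field_simp
      have h8 := congrArg (dd O) h7
      rw [Derivation.leibniz, hκD, hκD, smul_zero, add_zero, smul_eq_mul] at h8
      rw [(mul_eq_zero.1 h8).resolve_left hd0, zero_mul]
  obtain ⟨k1, m1⟩ := hdiff e1
  obtain ⟨k2, m2⟩ := hdiff e2
  obtain ⟨k3, m3⟩ := hdiff e3
  have h20 : v (2 : FractionRing (PowerSeries O)) ≠ 0 := by
    rw [← hκ2]
    exact (Valuation.ne_zero_iff v).2 (hκ0 2 h2)
  have h2l : v (2 : FractionRing (PowerSeries O)) < 1 := by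
    rw [← hκ2, hκa]
    exact v3 2 h2u
  have hfin := gv6 v h2l h20 (a1 := κ a1) (a3 := κ a3) (e1 := κ e1 / κ d) (e2 := κ e2 / κ d)
    (e3 := κ e3 / κ d) (X := a / b) (dX := dd O (a / b)) (G := g) (c := κ c)
    (by rw [hκa]; exact v1 _) (by rw [hκa]; exact v2 _ ha3)
    (by
      have h := congrArg κ s2
      simp only [map_mul, map_add, map_pow, map_ofNat] at h
      field_simp
      linear_combination h)
    (by
      have h := congrArg κ s3
      simp only [map_mul, map_neg, map_pow, map_ofNat] at h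
      field_simp
      linear_combination h) k1 k2 k3
    (by
      have h := congrArg (algebraMap (PowerSeries O) (FractionRing (PowerSeries O))) ode
      rw [map_mul, map_pow, map_pow, ← hdab, ← hdX] at h
      simp only [map_mul, map_add, map_pow, map_ofNat, ← hκa, ← ha, ← hb, ← hg] at h
      have t1 := congrArg κ s1
      have t2 := congrArg κ s2
      have t3 := congrArg κ s3
      simp only [map_mul, map_add, map_neg, map_pow, map_ofNat] at t1 t2 t3
      have hb4 : b ^ 4 ≠ 0 := pow_ne_zero _ hb0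
      apply mul_right_cancel₀ hb4
      have hl : κ c ^ 2 * dd O (a / b) ^ 2 * b ^ 4 = κ c ^ 2 * (dd O (a / b) * b ^ 2) ^ 2 := by ring
      rw [hl, h]
      field_simp
      linear_combination (g ^ 2 * κ d ^ 2 * a ^ 2 * b) * t1 -
        (2 * g ^ 2 * κ d * a * b ^ 2) * t2 + (g ^ 2 * b ^ 3) * t3) m1 m2 m3
  -- the coefficient
  have hco : v (κ (coeff n G)) ≤ v g := by
    rw [hκa, hg]
    exact v4 G n
  have h9 : v (κ (coeff n G ^ 6)) ≤ v (κ (c ^ 6 * 2 ^ 2)) := by
    rw [map_pow, map_pow, map_mul, map_pow, map_pow, hκ2, map_mul, map_pow, map_pow]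
    exact (pow_le_pow_left' hco 6).trans hfin
  rw [hκa, hκa] at h9
  exact v5 _ _ (mul_ne_zero (pow_ne_zero _ hc) (pow_ne_zero _ h2)) h9

end

end Pool.Agent.N2


end

section

/-!
# N2, block GS (helper6): G+ at `p = 2`: the first coefficient of an odd series whose integral is a modular point of a curve
`y² + a1 x y + a3 y = x³` with `a3` a unit satisfies `v ≥ 1/3`
-/

set_option autoImplicit false

namespace Pool.Agent.N2

open _root_.MU3 _root_.Pool.Agent.MU3A _root_.Pool.Agent.MU3B _root_.Pool.Agent.MU3Q _root_.Pool.Agent.MUX _root_.Pool.Agent.NS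
  _root_.Pool.Agent.MUXN _root_.Pool.Agent.MuSym _root_.Pool.Agent.NSG OnePoint UpperHalfPlane
open scoped MatrixGroups

noncomputable section

/-- as `BinP`, for odd series, with the stronger conclusion -/
structure BinE (V : ValuationSubring ℂ) (L' : PeriodPair) (S : Finset ℂ) : Prop where
  alg : ∀ x ∈ S, IsAlgebraic ℚ x
  bin : ∀ (K : Subfield ℂ) [NumberField K], (∀ x ∈ S, x ∈ K) → ∀ N : ℕ, 0 < N →
    Complex.exp (2 * Real.pi * Complex.I / N) ∈ K → ∀ (Z : ℍ → ℂ) (z : PowerSeries ℂ), QS Z z →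
    (∀ n, PowerSeries.coeff n z ∈ K) → PowerSeries.coeff 0 z = 0 →
    (∀ n, Even n → PowerSeries.coeff n z = 0) →
    (∃ c ∈ K, c ≠ 0 ∧ c ∈ V ∧ ∀ n : ℕ, c * (n * PowerSeries.coeff n z) ∈ V) →
    (∀ γ : SL(2, ℤ), ∃ (C : ℂ) (w : ℕ → ℂ), ∀ τ : ℍ, HasSum (fun n : ℕ => w n *
      Complex.exp (2 * Real.pi * Complex.I * (τ : ℂ) / N) ^ (n + 1)) (Z (γ • τ) - C)) →
    (∀ γ ∈ CongruenceSubgroup.Gamma1 N, ∀ τ : ℍ, Z (γ • τ) - Z τ ∈ L'.lattice) →
    V.valuation (PowerSeries.coeff 1 z) ^ 3 ≤ V.valuation (2 : ℂ)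

namespace GSB

open _root_.Pool.Agent.MUXN.NBin PowerSeries

theorem thetaD_coeff (f : PowerSeries ℂ) (n : ℕ) : coeff n (thetaD f) = n * coeff n f := by
  rw [thetaD, coeff_mk]

theorem thetaD_sub (f g : PowerSeries ℂ) : thetaD (f - g) = thetaD f - thetaD g := by
  ext n
  rw [thetaD_coeff, map_sub, map_sub, thetaD_coeff, thetaD_coeff]
  ring

theorem thetaD_add (f g : PowerSeries ℂ) : thetaD (f + g) = thetaD f + thetaD g := by
  ext n
  rw [thetaD_coeff, map_add, map_add, thetaD_coeff, thetaD_coeff]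
  ring

theorem thetaD_Xpow (m : ℕ) (f : PowerSeries ℂ) :
    thetaD (X ^ m * f) = X ^ m * (m • f + thetaD f) := by
  ext n
  rw [thetaD_coeff, coeff_X_pow_mul', coeff_X_pow_mul']
  split_ifs with h
  · rw [map_add, map_nsmul, thetaD_coeff, nsmul_eq_mul, Nat.cast_sub h]
    ring
  · rw [mul_zero]

theorem thetaD_al (f : PowerSeries ℂ) : thetaD (GSR.al f) = GSR.al (thetaD f) := by
  ext n
  rw [thetaD_coeff, GSR.al_coeff, GSR.al_coeff, thetaD_coeff]
  ring

/-- uniqueness for the differential equation of `1/℘` -/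
theorem ode_uniq {z S T : PowerSeries ℂ} {z1 a2 a4 a6 : ℂ} (h1 : z1 ≠ 0) (hz0 : coeff 0 z = 0)
    (hz1 : coeff 1 z = z1) (S0 : coeff 0 S = 0) (S1 : coeff 1 S = 0) (S2 : coeff 2 S = z1 ^ 2)
    (T0 : coeff 0 T = 0) (T1 : coeff 1 T = 0) (T2 : coeff 2 T = z1 ^ 2)
    (hS : thetaD S ^ 2 = 4 * S * (1 + a2 • S + a4 • S ^ 2 + a6 • S ^ 3) * thetaD z ^ 2)
    (hT : thetaD T ^ 2 = 4 * T * (1 + a2 • T + a4 • T ^ 2 + a6 • T ^ 3) * thetaD z ^ 2) :
    S = T := by
  by_contra hne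
  have hD : S - T ≠ 0 := sub_ne_zero.2 hne
  obtain ⟨m, hm⟩ : ∃ m, m = (S - T).order.toNat := ⟨_, rfl⟩
  have hm1 : coeff m (S - T) ≠ 0 := by
    rw [hm]
    exact coeff_order hD
  obtain ⟨D', hD'⟩ : X ^ m ∣ S - T := by
    rw [hm]
    exact X_pow_order_dvd
  have hD0 : coeff 0 D' ≠ 0 := by
    rw [hD'] at hm1
    have h := coeff_X_pow_mul D' m 0
    rw [zero_add] at h
    rwa [h] at hm1
  obtain ⟨E, hE⟩ : X ^ 2 ∣ thetaD (S + T) := by
    rw [X_pow_dvd_iff]
    intro k hk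
    rw [thetaD_coeff, map_add]
    interval_cases k
    · simp
    · rw [S1, T1]
      simp
  have hE0 : coeff 0 E = 4 * z1 ^ 2 := by
    have h := congrArg (coeff 2) hE
    have h' := coeff_X_pow_mul E 2 0
    rw [zero_add] at h'
    rw [h', thetaD_coeff, map_add, S2, T2] at h
    rw [← h]
    push_cast
    ring
  obtain ⟨w, hw⟩ : X ^ 1 ∣ thetaD z := by
    rw [X_pow_dvd_iff]
    intro k hk
    interval_cases k
    rw [thetaD_coeff, hz0, mul_zero]
  have hw0 : coeff 0 w = z1 := by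
    have h := congrArg (coeff 1) hw
    have h' := coeff_X_pow_mul w 1 0
    rw [zero_add] at h'
    rw [h', thetaD_coeff, hz1] at h
    rw [← h]
    push_cast
    ring
  obtain ⟨U, hU⟩ : ∃ U : PowerSeries ℂ, U = 1 + C a2 * (S + T) + C a4 * (S ^ 2 + S * T + T ^ 2) +
      C a6 * (S ^ 3 + S ^ 2 * T + S * T ^ 2 + T ^ 3) := ⟨_, rfl⟩
  have hU0 : constantCoeff U = 1 := by
    have hs : constantCoeff S = 0 := by rw [← coeff_zero_eq_constantCoeff_apply, S0]
    have ht : constantCoeff T = 0 := by rw [← coeff_zero_eq_constantCoeff_apply, T0]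
    rw [hU]
    simp [hs, ht]
  have key : thetaD (S - T) * thetaD (S + T) = 4 * (S - T) * U * thetaD z ^ 2 := by
    rw [smul_eq_C_mul, smul_eq_C_mul, smul_eq_C_mul] at hS hT
    rw [thetaD_sub, thetaD_add, hU]
    linear_combination hS - hT
  rw [hE, hw, hD', thetaD_Xpow] at key
  have hX : (X ^ (m + 2) : PowerSeries ℂ) ≠ 0 := pow_ne_zero _ X_ne_zero
  have key2 : (m • D' + thetaD D') * E = 4 * D' * U * w ^ 2 := by
    apply mul_left_cancel₀ hX
    linear_combination key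
  have h3 := congrArg constantCoeff key2
  rw [map_mul, map_mul, map_mul, map_mul, map_pow, hU0, map_add, map_nsmul] at h3
  simp only [← coeff_zero_eq_constantCoeff_apply] at h3
  rw [thetaD_coeff, hE0, hw0, nsmul_eq_mul] at h3
  have h4 : coeff 0 (4 : PowerSeries ℂ) = 4 := by
    rw [coeff_zero_eq_constantCoeff_apply, map_ofNat]
  rw [h4] at h3
  have h5 : ((m : ℂ) - 1) * (4 * coeff 0 D' * z1 ^ 2) = 0 := by
    push_cast at h3
    linear_combination h3
  have h6 : (m : ℂ) = 1 := by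
    have := (mul_eq_zero.1 h5).resolve_right
      (mul_ne_zero (mul_ne_zero (by norm_num) hD0) (pow_ne_zero 2 h1))
    exact sub_eq_zero.1 this
  have h7 : m = 1 := by exact_mod_cast h6
  rw [h7, map_sub, S1, T1, sub_self] at hm1
  exact hm1 rfl

/-- evenness -/
theorem ode_even {z S : PowerSeries ℂ} {a2 a4 a6 : ℂ} (h1 : coeff 1 z ≠ 0) (hz0 : coeff 0 z = 0)
    (hz : ∀ n, Even n → coeff n z = 0) (S0 : coeff 0 S = 0) (S1 : coeff 1 S = 0)
    (S2 : coeff 2 S = coeff 1 z ^ 2)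
    (hS : thetaD S ^ 2 = 4 * S * (1 + a2 • S + a4 • S ^ 2 + a6 • S ^ 3) * thetaD z ^ 2) :
    GSR.al S = S := by
  have hal : GSR.al (thetaD z) = -thetaD z := by
    ext n
    rw [GSR.al_coeff, map_neg, thetaD_coeff]
    rcases Nat.even_or_odd n with hn | hn
    · rw [hz n hn]
      simp
    · rw [hn.neg_one_pow]
      ring
  have alC : ∀ (c : ℂ) (f : PowerSeries ℂ), GSR.al (c • f) = c • GSR.al f := by
    intro c f
    rw [smul_eq_C_mul, smul_eq_C_mul, map_mul, GSR.al_C]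
  refine ode_uniq (z := z) (z1 := coeff 1 z) (a2 := a2) (a4 := a4) (a6 := a6) h1 hz0 rfl ?_ ?_ ?_
    S0 S1 S2 ?_ hS
  · rw [GSR.al_coeff, S0, mul_zero]
  · rw [GSR.al_coeff, S1, mul_zero]
  · rw [GSR.al_coeff, S2]
    ring
  · have h := congrArg GSR.al hS
    rw [map_pow, ← thetaD_al] at h
    rw [h, map_mul, map_mul, map_mul, map_add, map_add, map_add, map_one, alC, alC, alC, map_pow,
      map_pow, map_pow, hal, map_ofNat]
    ring

theorem roots3 (F : Type) [Field F] [IsAlgClosed F] [CharZero F] (b c d : F) :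
    ∃ e1 e2 e3 : F, e1 + e2 + e3 = -b ∧ e1 * e2 + e1 * e3 + e2 * e3 = c ∧ e1 * e2 * e3 = -d := by
  obtain ⟨e1, h1⟩ : ∃ e1 : F, e1 ^ 3 + b * e1 ^ 2 + c * e1 + d = 0 := by
    obtain ⟨p, hp⟩ : ∃ p : Polynomial F, p = Polynomial.X ^ 3 + (Polynomial.C b * Polynomial.X ^ 2 +
      Polynomial.C c * Polynomial.X + Polynomial.C d) := ⟨_, rfl⟩
    have hdeg : (Polynomial.C b * Polynomial.X ^ 2 +
      Polynomial.C c * Polynomial.X + Polynomial.C d).degree < 3 := Polynomial.degree_quadratic_lt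
    have hp3 : p.degree = 3 := by
      rw [hp, Polynomial.degree_add_eq_left_of_degree_lt (by rw [Polynomial.degree_X_pow]; exact hdeg),
        Polynomial.degree_X_pow]
      rfl
    obtain ⟨e1, he⟩ := IsAlgClosed.exists_root p (by rw [hp3]; norm_num)
    refine ⟨e1, ?_⟩
    rw [Polynomial.IsRoot.def, hp] at he
    simp at he
    linear_combination he
  obtain ⟨s, hs⟩ : ∃ s, s = -b - e1 := ⟨_, rfl⟩
  obtain ⟨p, hp⟩ : ∃ p, p = c - e1 * s := ⟨_, rfl⟩
  obtain ⟨δ, hδ⟩ := IsAlgClosed.exists_pow_nat_eq (s ^ 2 - 4 * p) (n := 2) (by norm_num)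
  have h20 : (2 : F) ≠ 0 := two_ne_zero
  refine ⟨e1, (s + δ) / 2, (s - δ) / 2, ?_, ?_, ?_⟩
  · field_simp
    linear_combination 2 * hs
  · field_simp
    linear_combination -hδ + 4 * hp
  · field_simp
    linear_combination (-e1) * hδ + 4 * e1 * hp - 4 * e1 ^ 2 * hs + 4 * h1

end GSB

open _root_.Pool.Agent.N2.GSB _root_.Pool.Agent.N2.BinT _root_.Pool.Agent.MUXN.NBin in
/-- G+ for the curve `y² + a1 x y + a3 y = x³` -/
theorem bin_E (hWQ : St_WQ) (hDV : Sg_DV)
    (V : ValuationSubring ℂ) (h2V : V.valuation (2 : ℂ) < 1) (L : PeriodPair) (e a1 a3 : ℂ)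
    (heq : ∀ z ∉ L.lattice, L.derivWeierstrassP z ^ 2 =
      4 * (L.weierstrassP z - e) ^ 3 + (a1 * (L.weierstrassP z - e) + a3) ^ 2)
    (h1a : IsAlgebraic ℚ a1) (h3a : IsAlgebraic ℚ a3) (v1 : V.valuation a1 ≤ 1)
    (v3 : V.valuation a3 = 1) : ∃ S : Finset ℂ, BinE V L S := by
  classical
  -- the zeros
  obtain ⟨e1, e2, e3, t1, t2, t3, r1, r2, r3⟩ : ∃ e1 e2 e3 : ℂ, IsAlgebraic ℚ e1 ∧
      IsAlgebraic ℚ e2 ∧ IsAlgebraic ℚ e3 ∧ 4 * (e1 + e2 + e3) = -a1 ^ 2 ∧
      2 * (e1 * e2 + e1 * e3 + e2 * e3) = a1 * a3 ∧ 4 * (e1 * e2 * e3) = -a3 ^ 2 := by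
    have hQ0 : IsAlgClosure ℚ (algebraicClosure ℚ ℂ) :=
      algebraicClosure.isAlgClosure ℚ ℂ
    have hQ : IsAlgClosed (algebraicClosure ℚ ℂ) := IsAlgClosure.isAlgClosed ℚ
    obtain ⟨κ, hκ⟩ : ∃ κ : algebraicClosure ℚ ℂ →+* ℂ, κ = algebraMap (algebraicClosure ℚ ℂ) ℂ :=
      ⟨_, rfl⟩
    obtain ⟨b1, hb1⟩ : ∃ b1 : algebraicClosure ℚ ℂ, κ b1 = a1 :=
      ⟨⟨a1, mem_algebraicClosure_iff.2 h1a⟩, by rw [hκ]; rfl⟩
    obtain ⟨b3, hb3⟩ : ∃ b3 : algebraicClosure ℚ ℂ, κ b3 = a3 :=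
      ⟨⟨a3, mem_algebraicClosure_iff.2 h3a⟩, by rw [hκ]; rfl⟩
    have hκa : ∀ x, IsAlgebraic ℚ (κ x) := fun x => by
      rw [hκ]
      exact mem_algebraicClosure_iff.1 x.2
    obtain ⟨e1, e2, e3, q1, q2, q3⟩ := roots3 (algebraicClosure ℚ ℂ) (b1 ^ 2 / 4) (b1 * b3 / 2)
      (b3 ^ 2 / 4)
    refine ⟨κ e1, κ e2, κ e3, hκa _, hκa _, hκa _, ?_, ?_, ?_⟩
    · have := congrArg κ q1
      simp only [map_add, map_neg, map_div₀, map_pow, map_ofNat, hb1] at this
      linear_combination 4 * this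
    · have := congrArg κ q2
      simp only [map_add, map_mul, map_div₀, map_ofNat, hb1, hb3] at this
      linear_combination 2 * this
    · have := congrArg κ q3
      simp only [map_mul, map_neg, map_div₀, map_pow, map_ofNat, hb3] at this
      linear_combination 4 * this
  refine ⟨{a1, a3, e1, e2, e3}, ?_, ?_⟩
  · intro x hx
    simp only [Finset.mem_insert, Finset.mem_singleton] at hx
    rcases hx with rfl | rfl | rfl | rfl | rfl <;> assumption
  intro K _ hSK N hN hζ Z z hQS hzK hz0 hev hden hcusp hper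
  have hpV : ((2 : ℕ) : ℂ) ∈ V.nonunits := (ValuationSubring.mem_nonunits_iff _).2 (by
    exact_mod_cast h2V)
  by_cases h1 : PowerSeries.coeff 1 z = 0
  · rw [h1, map_zero, zero_pow three_ne_zero]
    exact zero_le
  have h1K : a1 ∈ K := hSK a1 (by simp)
  have h3K : a3 ∈ K := hSK a3 (by simp)
  have he1K : e1 ∈ K := hSK e1 (by simp)
  have he2K : e2 ∈ K := hSK e2 (by simp)
  have he3K : e3 ∈ K := hSK e3 (by simp)
  have h1V : a1 ∈ V := (V.valuation_le_one_iff _).1 v1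
  have h3V : a3 ∈ V := (V.valuation_le_one_iff _).1 v3.le
  have hDVR := hDV K V 2 Nat.prime_two hpV
  obtain ⟨c, hcK, hc0, hcV, hcz⟩ := hden
  have h2K : (2 : ℂ) ∈ K := by exact_mod_cast natCast_mem K 2
  have h4K : (4 : ℂ) ∈ K := by exact_mod_cast natCast_mem K 4
  obtain ⟨S, -, S0, S1, S2, ode, A, hA, B, hB, hA0, hAS⟩ := hWQ K V N L (-e) (a1 ^ 2 / 4)
    (a1 * a3 / 2) (a3 ^ 2 / 4) Z z hN hζ (K.div_mem (K.pow_mem h1K 2) h4K)
    (K.div_mem (K.mul_mem h1K h3K) h2K) (K.div_mem (K.pow_mem h3K 2) h4K) (by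
      intro u hu
      rw [heq u hu]
      ring) hzK hz0 h1 hQS hcusp hper
  have hS0 : S ≠ 0 := by
    rintro rfl
    rw [map_zero] at S2
    exact h1 (pow_eq_zero_iff two_ne_zero |>.1 S2.symm)
  have hB0 : B ≠ 0 := by
    rw [← hAS]
    exact mul_ne_zero hA0 hS0
  have hthS : thetaD S ≠ 0 := by
    intro h
    have h2 := congrArg (PowerSeries.coeff 2) h
    rw [map_zero, thetaD, PowerSeries.coeff_mk, S2] at h2
    have h3 : PowerSeries.coeff 1 z ^ 2 ≠ 0 := pow_ne_zero 2 h1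
    rcases mul_eq_zero.1 h2 with h5 | h5
    · norm_num at h5
    · exact h3 h5
  have hSev : GSR.al S = S := ode_even h1 hz0 hev S0 S1 S2 ode
  have hABal : GSR.al A * B = A * GSR.al B := by
    rw [← hAS, map_mul, hSev]
    ring
  -- the wronskian
  have hW1 : A * thetaD B - B * thetaD A = A ^ 2 * thetaD S := by
    rw [← hAS, thetaD_mul]
    ring
  have hG : PowerSeries.C c * thetaD z ∈ PP K V := by
    intro n
    rw [PowerSeries.coeff_C_mul, thetaD, PowerSeries.coeff_mk]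
    exact ⟨K.mul_mem hcK (K.mul_mem (natCast_mem K n) (hzK n)), hcz n⟩
  have hode : PowerSeries.C c ^ 2 * (B * thetaD A - A * thetaD B) ^ 2 =
      B * (4 * A ^ 3 + PowerSeries.C a1 ^ 2 * A ^ 2 * B +
        2 * PowerSeries.C a1 * PowerSeries.C a3 * A * B ^ 2 + PowerSeries.C a3 ^ 2 * B ^ 3) *
        (PowerSeries.C c * thetaD z) ^ 2 := by
    have e1 : (B * thetaD A - A * thetaD B) ^ 2 = A ^ 4 * thetaD S ^ 2 := by
      calc (B * thetaD A - A * thetaD B) ^ 2 = (A * thetaD B - B * thetaD A) ^ 2 := by ring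
        _ = _ := by rw [hW1]; ring
    have c1 : (4 : PowerSeries ℂ) * PowerSeries.C (a1 ^ 2 / 4 : ℂ) = PowerSeries.C a1 ^ 2 := by
      rw [← map_ofNat (PowerSeries.C : ℂ →+* PowerSeries ℂ) 4, ← map_mul, ← map_pow]
      congr 1
      ring
    have c2 : (4 : PowerSeries ℂ) * PowerSeries.C (a1 * a3 / 2 : ℂ) =
        2 * PowerSeries.C a1 * PowerSeries.C a3 := by
      rw [← map_ofNat (PowerSeries.C : ℂ →+* PowerSeries ℂ) 4,
        ← map_ofNat (PowerSeries.C : ℂ →+* PowerSeries ℂ) 2, ← map_mul, ← map_mul, ← map_mul]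
      congr 1
      ring
    have c3 : (4 : PowerSeries ℂ) * PowerSeries.C (a3 ^ 2 / 4 : ℂ) = PowerSeries.C a3 ^ 2 := by
      rw [← map_ofNat (PowerSeries.C : ℂ →+* PowerSeries ℂ) 4, ← map_mul, ← map_pow]
      congr 1
      ring
    rw [e1, ode, ← hAS, PowerSeries.smul_eq_C_mul, PowerSeries.smul_eq_C_mul,
      PowerSeries.smul_eq_C_mul]
    linear_combination (PowerSeries.C c ^ 2 * A ^ 4 * S ^ 2 * thetaD z ^ 2) * c1 +
      (PowerSeries.C c ^ 2 * A ^ 4 * S ^ 3 * thetaD z ^ 2) * c2 +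
      (PowerSeries.C c ^ 2 * A ^ 4 * S ^ 4 * thetaD z ^ 2) * c3
  -- the denominators of the zeros
  obtain ⟨d1, d1K, d10, d1V, d1e⟩ := N_GJ.denom K V e1 he1K
  obtain ⟨d2, d2K, d20, d2V, d2e⟩ := N_GJ.denom K V e2 he2K
  obtain ⟨d3, d3K, d30, d3V, d3e⟩ := N_GJ.denom K V e3 he3K
  obtain ⟨d, hd⟩ : ∃ d, d = d1 * d2 * d3 := ⟨_, rfl⟩
  have hd0 : d ≠ 0 := by rw [hd]; exact mul_ne_zero (mul_ne_zero d10 d20) d30
  have hdK : d ∈ K := by rw [hd]; exact K.mul_mem (K.mul_mem d1K d2K) d3K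
  have hdV : d ∈ V := by rw [hd]; exact V.mul_mem _ _ (V.mul_mem _ _ d1V d2V) d3V
  have k1 : d * e1 ∈ V := by
    have : d * e1 = d2 * d3 * (d1 * e1) := by rw [hd]; ring
    rw [this]
    exact V.mul_mem _ _ (V.mul_mem _ _ d2V d3V) d1e
  have k2 : d * e2 ∈ V := by
    have : d * e2 = d1 * d3 * (d2 * e2) := by rw [hd]; ring
    rw [this]
    exact V.mul_mem _ _ (V.mul_mem _ _ d1V d3V) d2e
  have k3 : d * e3 ∈ V := by
    have : d * e3 = d1 * d2 * (d3 * e3) := by rw [hd]; ring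
    rw [this]
    exact V.mul_mem _ _ (V.mul_mem _ _ d1V d2V) d3e
  have h20 : (2 : ↥(V.comap K.subtype)) ≠ 0 := by
    intro h
    have := congrArg (io K V) h
    rw [map_ofNat, map_zero] at this
    norm_num at this
  have h2u : ¬ IsUnit (2 : ↥(V.comap K.subtype)) := by
    rintro ⟨w, hw⟩
    have h5 : (w : ↥(V.comap K.subtype)) * ((w⁻¹ : (↥(V.comap K.subtype))ˣ) : ↥(V.comap K.subtype)) = 1 :=
      Units.mul_inv w
    rw [hw] at h5
    have h6 := congrArg (io K V) h5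
    rw [map_mul, map_ofNat, map_one] at h6
    have h7 := congrArg V.valuation h6
    rw [map_mul, map_one] at h7
    have h8 : V.valuation (io K V ((w⁻¹ : (↥(V.comap K.subtype))ˣ) : ↥(V.comap K.subtype))) ≤ 1 :=
      (V.valuation_le_one_iff _).2 (io_mem _)
    have h9 : V.valuation (2 : ℂ) * V.valuation (io K V
        ((w⁻¹ : (↥(V.comap K.subtype))ˣ) : ↥(V.comap K.subtype))) < 1 :=
      lt_of_le_of_lt (mul_le_of_le_one_right' h8) h2V
    rw [h7] at h9
    exact lt_irrefl _ h9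
  have hal_map : ∀ f : PowerSeries ↥(V.comap K.subtype),
      PowerSeries.map (io K V) (GSR.al f) = GSR.al (PowerSeries.map (io K V) f) := by
    intro f
    ext n
    rw [PowerSeries.coeff_map, GSR.al_coeff, GSR.al_coeff, PowerSeries.coeff_map, map_mul, map_pow,
      map_neg, map_one]
  have hthm : ∀ f : PowerSeries ↥(V.comap K.subtype),
      PowerSeries.map (io K V) (GD.th _ f) = thetaD (PowerSeries.map (io K V) f) := by
    intro f
    ext n
    rw [PowerSeries.coeff_map, GD.th_coeff, thetaD_coeff, PowerSeries.coeff_map, map_mul,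
      map_natCast]
  have hdvd := gs_main ↥(V.comap K.subtype) h20 h2u (a1 := el a1 h1K h1V) (a3 := el a3 h3K h3V)
    (d := el d hdK hdV) (e1 := el (d * e1) (K.mul_mem hdK he1K) k1)
    (e2 := el (d * e2) (K.mul_mem hdK he2K) k2) (e3 := el (d * e3) (K.mul_mem hdK he3K) k3)
    (c := el c hcK hcV) (by
      intro h
      have := congrArg (io K V) h
      rw [io_el, map_zero] at this
      exact hd0 this) (el_unit h3K h3V v3) (by
      apply io_inj K V
      simp only [map_mul, map_add, map_neg, map_pow, map_ofNat, io_el]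
      linear_combination d * r1) (by
      apply io_inj K V
      simp only [map_mul, map_add, map_pow, map_ofNat, io_el]
      linear_combination d ^ 2 * r2) (by
      apply io_inj K V
      simp only [map_mul, map_neg, map_pow, map_ofNat, io_el]
      linear_combination d ^ 3 * r3) (by
      intro h
      have := congrArg (io K V) h
      rw [io_el, map_zero] at this
      exact hc0 this) (lft A hA) (lft B hB) (lft _ hG) (by
      intro h
      have := congrArg (PowerSeries.map (io K V)) h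
      rw [map_lft, map_zero] at this
      exact hB0 this) (by
      apply mapι_inj (io_inj K V)
      rw [map_mul, map_mul, hal_map, hal_map, map_lft, map_lft]
      exact hABal) (by
      intro h
      have := congrArg (PowerSeries.map (io K V)) h
      rw [map_sub, map_mul, map_mul, hthm, hthm, map_lft, map_lft, map_zero] at this
      have h8 : A ^ 2 * thetaD S = 0 := by
        rw [← hW1]
        linear_combination -this
      exact mul_ne_zero (pow_ne_zero _ hA0) hthS h8) (by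
      apply mapι_inj (io_inj K V)
      simp only [map_mul, map_pow, map_sub, map_add, map_ofNat, PowerSeries.map_C, hthm, map_lft,
        io_el]
      have h9 : PowerSeries.map (io K V) (lft (PowerSeries.C c * thetaD z) hG) =
        PowerSeries.C c * thetaD z := map_lft hG
      exact hode) 1
  obtain ⟨g', hg'⟩ := hdvd
  have h10 := congrArg (io K V) hg'
  rw [map_pow, map_mul, map_mul, map_pow, map_pow, io_el, map_ofNat, lft, PowerSeries.coeff_mk,
    io_el, PowerSeries.coeff_C_mul, thetaD, PowerSeries.coeff_mk, Nat.cast_one, one_mul] at h10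
  have h11 : PowerSeries.coeff 1 z ^ 6 = 2 ^ 2 * io K V g' := by
    have hc6 : c ^ 6 ≠ 0 := pow_ne_zero _ hc0
    apply mul_left_cancel₀ hc6
    linear_combination h10
  have h12 : (V.valuation (PowerSeries.coeff 1 z) ^ 3) ^ 2 ≤ V.valuation (2 : ℂ) ^ 2 := by
    rw [← pow_mul, ← map_pow, h11, map_mul, map_pow]
    exact mul_le_of_le_one_right' ((V.valuation_le_one_iff _).2 (io_mem _))
  exact le_of_pow_le_pow_left₀ two_ne_zero zero_le h12

end

end Pool.Agent.N2


end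

section

/-!
# N2, block GS (helper6): THEOREM G+ in terms of the integrality property `BinE` of the lattice (from `N2/G_Gen.lean`)
-/

set_option autoImplicit false

namespace Pool.Agent.N2

open _root_.MU3 _root_.Pool.Agent.MU3A _root_.Pool.Agent.MU3B _root_.Pool.Agent.MU3Q _root_.Pool.Agent.MUX _root_.Pool.Agent.NS
  _root_.Pool.Agent.MUXN _root_.Pool.Agent.MuSym _root_.Pool.Agent.NSG OnePoint UpperHalfPlane
open scoped MatrixGroups

noncomputable section

/-- as `GDatN`, with forms whose coefficients of even index are zero -/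
structure GDatE (A B : ℤ) (J : Type) (Ψ : J → OnePoint ℚ → OnePoint ℚ → ℂ) (Θ : J → ℂ → ℂ)
    (α₁ : J → ℂ) (om : ℂ) (N' : ℕ) : Prop extends GDatN A B J Ψ Θ α₁ om N' where
  qe : ∀ j, ∃ α : ℕ → ℂ, (∀ n, IsIntegral ℤ (α n)) ∧
    (∃ K : Subfield ℂ, NumberField K ∧ ∀ n, α n ∈ K) ∧ α 1 = α₁ j ∧
    (∀ τ : ℂ, 0 < τ.im → HasSum (fun n : ℕ => α n / n *
      Complex.exp (2 * Real.pi * Complex.I * τ) ^ n) (Θ j τ)) ∧ ∀ n, Even n → α n = 0

/-- additively `v ≥ 1/3` -/
def TV (V : ValuationSubring ℂ) (x : ℂ) : Prop := V.valuation x ^ 3 ≤ V.valuation (2 : ℂ)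

theorem TV.add {V : ValuationSubring ℂ} {x y : ℂ} (hx : TV V x) (hy : TV V y) : TV V (x + y) := by
  unfold TV at *
  rcases le_total (V.valuation x) (V.valuation y) with h | h
  · exact (pow_le_pow_left' ((V.valuation.map_add x y).trans (max_le h le_rfl)) 3).trans hy
  · exact (pow_le_pow_left' ((V.valuation.map_add x y).trans (max_le le_rfl h)) 3).trans hx

theorem TV.mul {V : ValuationSubring ℂ} {c x : ℂ} (hc : c ∈ V) (hx : TV V x) : TV V (c * x) := by
  unfold TV at *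
  rw [map_mul, mul_pow]
  exact (mul_le_of_le_one_left' (pow_le_one' ((V.valuation_le_one_iff _).2 hc) 3)).trans hx

theorem TV.zero {V : ValuationSubring ℂ} : TV V 0 := by
  unfold TV
  rw [map_zero, zero_pow three_ne_zero]
  exact zero_le

theorem TV.sum {V : ValuationSubring ℂ} {I : Type} (s : Finset I) (f : I → ℂ)
    (h : ∀ i ∈ s, TV V (f i)) : TV V (∑ i ∈ s, f i) := by
  classical
  induction s using Finset.induction_on with
  | empty => rw [Finset.sum_empty]; exact TV.zero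
  | insert a s ha ih =>
    rw [Finset.sum_insert ha]
    exact (h a (Finset.mem_insert_self _ _)).add
      (ih fun i hi => h i (Finset.mem_insert_of_mem hi))

open _root_.Pool.Agent.MUXN.N_GJ _root_.Pool.Agent.MU3G in
theorem gen_GJ_E (h2 : Sg_RET) (h3 : Sg_NFE) {A B : ℤ} (hc : CQ A B) {J : Type} [Fintype J]
    {Ψ : J → OnePoint ℚ → OnePoint ℚ → ℂ} {Θ : J → ℂ → ℂ} {α₁ : J → ℂ} {Om : ℂ} {N' : ℕ}
    (hG : GDatE A B J Ψ Θ α₁ Om N') {V : ValuationSubring ℂ} (hLoc : LocN A B V)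
    {L' : PeriodPair} {S₀ : Finset ℂ} (hB : BinE V L' S₀) (hL : LatO A B L' Om) (r : ℕ)
    (h : Fin r → SL(2, ℤ))
    (hfg : ∀ (ρ : SL(2, ℤ) → ℂ) (_ : ∀ g ∈ CongruenceSubgroup.Gamma1 N',
        ∀ g' ∈ CongruenceSubgroup.Gamma1 N', ρ (g * g') = ρ g + ρ g') (M : AddSubgroup ℂ)
      (_ : ∀ i, ρ (h i) ∈ M), ∀ g ∈ CongruenceSubgroup.Gamma1 N', ρ g ∈ M)
    (w : Fin r → ℂ) (hw : ∀ i, w i ∈ kk A B ∧ w i ∈ V) (y : J → ℂ)
    (hy : ∀ l', ∑ c : J, y c * (Ψ c ∞
      (mob (h l' 0 0) (h l' 0 1) (h l' 1 0) (h l' 1 1) ∞) / Om) = w l') :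
    ∃ y' : J → ℂ, (∀ l', ∑ c : J, y' c * (Ψ c ∞
      (mob (h l' 0 0) (h l' 0 1) (h l' 1 0) (h l' 1 1) ∞) / Om) = w l') ∧
      TV V (∑ c : J, y' c * α₁ c) := by
  classical
  have hOm0 : Om ≠ 0 := hL.1
  choose α hα using fun j => hG.qe j
  choose Kα hKα using fun j => (hα j).2.1
  -- generators of the fields of coefficients
  have hgen : ∀ c : J, ∃ S : Finset ℂ, (∀ x ∈ S, IsAlgebraic ℚ x) ∧
      ∀ K' : Subfield ℂ, (∀ x ∈ S, x ∈ K') → Kα c ≤ K' := by
    intro c
    have := (hKα c).1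
    exact gens _
  choose Sg hSg1 hSg2 using hgen
  set Pm : Fin r → J → ℂ := fun l' c => Ψ c ∞
      (mob (h l' 0 0) (h l' 0 1) (h l' 1 0) (h l' 1 1) ∞) / Om with hPm
  have hPmalg : ∀ l' c, IsAlgebraic ℚ (Pm l' c) := fun l' c => hG.alg c _ _
  have hN' : N' ≠ 0 := hG.pos.ne'
  have hζ : IsAlgebraic ℚ (Complex.exp (2 * Real.pi * Complex.I / N')) := by
    have hp := (Complex.isPrimitiveRoot_exp N' hN').pow_eq_one
    have : IsIntegral ℚ (Complex.exp (2 * Real.pi * Complex.I / N')) := by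
      refine ⟨Polynomial.X ^ N' - Polynomial.C 1, Polynomial.monic_X_pow_sub_C 1 hN', ?_⟩
      simp [hp]
    exact this.isAlgebraic
  obtain ⟨K, hKnf, hK⟩ := h3 ((Finset.univ.image fun q : Fin r × J => Pm q.1 q.2) ∪
    Finset.univ.image w ∪ S₀ ∪ {Complex.exp (2 * Real.pi * Complex.I / N')} ∪
    {wC A B} ∪ Finset.univ.biUnion Sg) (by
      intro x hx
      simp only [Finset.mem_union, Finset.mem_image, Finset.mem_univ, true_and,
        Finset.mem_singleton, Finset.mem_biUnion] at hx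
      rcases hx with ((((⟨q, rfl⟩ | ⟨i, rfl⟩) | hx) | rfl) | rfl) | ⟨c, hc'⟩
      · exact hPmalg _ _
      · exact kk_alg hc (hw i).1
      · exact hB.alg x hx
      · exact hζ
      · exact ((wC_int hc).tower_top (A := ℚ)).isAlgebraic
      · exact hSg1 c x hc')
  simp only [Finset.mem_union, Finset.mem_image, Finset.mem_univ, true_and,
    Finset.mem_singleton, Finset.mem_biUnion] at hK
  have hKP : ∀ l' c, Pm l' c ∈ K := fun l' c => hK _ (by
    left; left; left; left; left; exact ⟨(l', c), rfl⟩)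
  have hKw : ∀ i, w i ∈ K := fun i => hK _ (by left; left; left; left; right; exact ⟨i, rfl⟩)
  have hKlam : ∀ x ∈ S₀, x ∈ K := fun x hx => hK _ (by left; left; left; right; exact hx)
  have hKζ : Complex.exp (2 * Real.pi * Complex.I / N') ∈ K := hK _ (by left; left; right; rfl)
  have hKwC : wC A B ∈ K := hK _ (by left; right; rfl)
  have hKS : ∀ c : J, Kα c ≤ K := fun c => hSg2 c K fun x hx => hK x (by right; exact ⟨c, hx⟩)
  have hKemb : ∀ x : OO A B, emb x ∈ K := fun x =>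
    K.add_mem (intCast_mem _ _) (K.mul_mem (intCast_mem _ _) hKwC)
  obtain ⟨y', hy'K, hy'⟩ := h2 K J r (fun c i => Pm i c) w (fun c i => hKP i c) hKw y hy
  obtain ⟨t, ht1, ht⟩ := hLoc (Finset.univ.image w) (by
    intro x hx
    obtain ⟨i, -, rfl⟩ := Finset.mem_image.1 hx
    exact hw i)
  refine ⟨y', hy', ?_⟩
  have hαK : ∀ c : J, ∀ n, α c n ∈ K := fun c n => hKS c ((hKα c).2 n)
  have hαV : ∀ c : J, ∀ n, α c n ∈ V := fun c n =>
    Pool.Agent.MU3A2.mem_of_integral ((hα c).1 n)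
  set Z : ℍ → ℂ := fun τ => emb t * ∑ c : J, y' c * Θ c (τ : ℂ) with hZ
  set z : PowerSeries ℂ := PowerSeries.mk fun n =>
    emb t * ∑ c : J, y' c * (α c n / n) with hz
  have hzn : ∀ n, PowerSeries.coeff n z = emb t * ∑ c : J, y' c * (α c n / n) :=
    fun n => by rw [hz, PowerSeries.coeff_mk]
  have hsmul : ∀ (γ : SL(2, ℤ)) (τ : ℍ), ((γ • τ : ℍ) : ℂ) =
      (((γ 0 0 : ℤ) : ℂ) * τ + ((γ 0 1 : ℤ) : ℂ)) /
          (((γ 1 0 : ℤ) : ℂ) * τ + ((γ 1 1 : ℤ) : ℂ)) := by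
    intro γ τ
    rw [UpperHalfPlane.specialLinearGroup_apply]
    simp
  have hQS : QS Z z := by
    intro τ
    have hs := (hasSum_sum (s := Finset.univ) fun c (_ : c ∈ (Finset.univ : Finset J)) =>
      ((hα c).2.2.2.1 (τ : ℂ) τ.2).mul_left (y' c)).mul_left (emb t)
    have e2 : (fun n : ℕ => PowerSeries.coeff n z * qq τ ^ n) = fun n : ℕ =>
        emb t * ∑ c : J, y' c * (α c n / n *
          Complex.exp (2 * Real.pi * Complex.I * (τ : ℂ)) ^ n) := by
      funext n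
      rw [hzn n, qq, mul_assoc, Finset.sum_mul]
      congr 1
      refine Finset.sum_congr rfl fun c _ => ?_
      ring
    rw [e2]
    exact hs
  have hcusp : ∀ γ : SL(2, ℤ), ∃ (C : ℂ) (w : ℕ → ℂ), ∀ τ : ℍ, HasSum (fun n : ℕ => w n *
      Complex.exp (2 * Real.pi * Complex.I * (τ : ℂ) / N') ^ (n + 1)) (Z (γ • τ) - C) := by
    intro γ
    choose C W hW using fun c : J => hG.cusp c (γ 0 0) (γ 0 1) (γ 1 0) (γ 1 1)
      (G6c.det_eq γ)
    refine ⟨emb t * ∑ c : J, y' c * C c, fun n => emb t * ∑ c : J, y' c * W c n, ?_⟩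
    intro τ
    have hs := (hasSum_sum (s := Finset.univ) fun c (_ : c ∈ (Finset.univ : Finset J)) =>
      (hW c (τ : ℂ) τ.2).mul_left (y' c)).mul_left (emb t)
    have e1 : (fun n : ℕ => (emb t * ∑ c : J, y' c * W c n) *
        Complex.exp (2 * Real.pi * Complex.I * (τ : ℂ) / N') ^ (n + 1)) = fun n : ℕ =>
        emb t * ∑ c : J, y' c * (W c n *
          Complex.exp (2 * Real.pi * Complex.I * (τ : ℂ) / N') ^ (n + 1)) := by
      funext n
      rw [mul_assoc, Finset.sum_mul]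
      congr 1
      refine Finset.sum_congr rfl fun c _ => ?_
      ring
    have e2 : Z (γ • τ) - emb t * ∑ c : J, y' c * C c = emb t * ∑ c : J, y' c *
        (Θ c ((((γ 0 0 : ℤ) : ℂ) * τ + ((γ 0 1 : ℤ) : ℂ)) /
          (((γ 1 0 : ℤ) : ℂ) * τ + ((γ 1 1 : ℤ) : ℂ))) - C c) := by
      rw [hZ]
      beta_reduce
      rw [← mul_sub, ← Finset.sum_sub_distrib, hsmul]
      congr 1
      refine Finset.sum_congr rfl fun c _ => ?_
      ring
    rw [e1, e2]
    exact hs
  -- the periods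
  set ρ : SL(2, ℤ) → ℂ := fun g => ∑ c : J, y' c * (Ψ c ∞ (G6c.mI g) / Om) with hρ
  have hρadd : ∀ g ∈ CongruenceSubgroup.Gamma1 N', ∀ g' ∈ CongruenceSubgroup.Gamma1 N',
      ρ (g * g') = ρ g + ρ g' := by
    intro g hg g' hg'
    rw [hρ]
    beta_reduce
    rw [← Finset.sum_add_distrib]
    refine Finset.sum_congr rfl fun c _ => ?_
    obtain ⟨m1, m2⟩ := G6c.mem1 hg
    have a1 := hG.add c ∞ (G6c.mI g) (G6c.mI (g * g'))
    have a2 := hG.inv c (g 0 0) (g 0 1) (g 1 0) (g 1 1) (G6c.det_eq g) m1 m2 ∞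
      (G6c.mI g')
    rw [← G6c.mI_mul] at a2
    have a3 : mob (g 0 0) (g 0 1) (g 1 0) (g 1 1) ∞ = G6c.mI g := rfl
    rw [a3] at a2
    rw [← a1, a2]
    ring
  have hM : ∀ g ∈ CongruenceSubgroup.Gamma1 N', ∃ c : OO A B, emb t * ρ g = emb c := by
    let M : AddSubgroup ℂ := AddSubgroup.comap (AddMonoidHom.mulLeft (emb t))
      (AddMonoidHom.range (eHom hc).toAddMonoidHom)
    have hMm : ∀ x, x ∈ M ↔ ∃ c : OO A B, emb t * x = emb c := by
      intro x
      constructor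
      · rintro ⟨c, hc'⟩
        refine ⟨c, ?_⟩
        have e1 : emb t * x = eHom hc c := hc'.symm
        rw [e1, eHom_apply hc]
      · rintro ⟨c, hc'⟩
        refine ⟨c, ?_⟩
        rw [← eHom_apply hc] at hc'
        rw [eHom_apply hc] at hc'
        show (eHom hc) c = emb t * x
        rw [eHom_apply hc, hc']
    intro g hg
    rw [← hMm]
    refine hfg ρ hρadd M (fun i => ?_) g hg
    rw [hMm]
    have e1 : ρ (h i) = w i := hy' i
    rw [e1]
    exact ht _ (Finset.mem_image_of_mem w (Finset.mem_univ i))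
  have hper : ∀ γ ∈ CongruenceSubgroup.Gamma1 N', ∀ τ : ℍ, Z (γ • τ) - Z τ ∈ L'.lattice := by
    intro γ hγ τ
    obtain ⟨m1, m2⟩ := G6c.mem1 hγ
    obtain ⟨x, hx⟩ := hM γ hγ
    rw [hL.2]
    refine ⟨x, ?_⟩
    have e1 : Z (γ • τ) - Z τ = Om * (emb t * ρ γ) := by
      rw [hZ, hρ]
      beta_reduce
      rw [hsmul, ← mul_sub, ← Finset.sum_sub_distrib, mul_left_comm Om (emb t), Finset.mul_sum _ _ Om]
      congr 1
      refine Finset.sum_congr rfl fun c _ => ?_
      rw [hG.per c (γ 0 0) (γ 0 1) (γ 1 0) (γ 1 1) (G6c.det_eq γ) m1 m2 (τ : ℂ) τ.2]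
      have a3 : mob (γ 0 0) (γ 0 1) (γ 1 0) (γ 1 1) ∞ = G6c.mI γ := rfl
      rw [a3]
      field_simp
      ring
    rw [e1, hx]
  -- the denominators
  choose q hqK hq0 hqV hqy using fun c => denom K V (y' c) (hy'K c)
  have hden : ∃ c ∈ K, c ≠ 0 ∧ c ∈ V ∧ ∀ n : ℕ, c * (n * PowerSeries.coeff n z) ∈ V := by
    refine ⟨∏ c, q c, K.prod_mem fun c _ => hqK c, Finset.prod_ne_zero_iff.2 fun c _ => hq0 c,
      prod_mem fun c _ => hqV c, ?_⟩
    intro m
    by_cases hm : m = 0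
    · rw [hm]
      simp
    · have e1 : (∏ c, q c) * (m * PowerSeries.coeff m z) = ∑ c : J,
          (emb t * (∏ c' ∈ Finset.univ.erase c, q c')) * (q c * y' c) * α c m := by
        rw [hzn, mul_left_comm (m : ℂ), Finset.mul_sum, mul_left_comm, Finset.mul_sum,
          Finset.mul_sum]
        refine Finset.sum_congr rfl fun c _ => ?_
        rw [← Finset.mul_prod_erase Finset.univ q (Finset.mem_univ c)]
        have : (m : ℂ) ≠ 0 := by exact_mod_cast hm
        field_simp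
      rw [e1]
      exact sum_mem fun c _ => V.mul_mem _ _ (V.mul_mem _ _ (V.mul_mem _ _ (emb_mem_V hc V t)
        (prod_mem fun c _ => hqV c)) (hqy c)) (hαV c m)
  have hfin := hB.bin K hKlam N' hG.pos hKζ Z z hQS
    (fun m => by
      rw [hzn]
      exact K.mul_mem (hKemb t) (sum_mem fun c _ => K.mul_mem (hy'K c)
        (K.div_mem (hαK c m) (natCast_mem _ _))))
    (by rw [hzn]; simp) (fun m hm => by
      rw [hzn, Finset.sum_eq_zero fun c _ => by rw [(hα c).2.2.2.2 m hm, zero_div, mul_zero],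
        mul_zero]) hden hcusp hper
  rw [hzn] at hfin
  have e1 : (∑ c : J, y' c * (α c 1 / (1 : ℕ))) = ∑ c : J, y' c * α₁ c := by
    refine Finset.sum_congr rfl fun c _ => ?_
    rw [(hα c).2.2.1]
    simp
  rw [e1] at hfin
  have ht0 : emb t ≠ 0 := by
    intro h0
    rw [h0, map_zero] at ht1
    exact zero_ne_one ht1
  have ht2 : (emb t)⁻¹ ∈ V := by
    rw [← V.valuation_le_one_iff, map_inv₀, ht1, inv_one]
  have := TV.mul ht2 hfin
  rwa [inv_mul_cancel_left₀ ht0] at this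

open _root_.Pool.Agent.MU3G in
theorem gen_GTH_E (k1 : Sg_RET) (k2 : Sg_NFE) (h2 : Sg_DSC) (h3 : Sg_ZL) (h4 : Sg_FK) (h5 : Sg_FGG)
    {A B : ℤ} (hc : CQ A B) {J' : Type} [Fintype J']
    {Ψ : J' → OnePoint ℚ → OnePoint ℚ → ℂ} {Θ : J' → ℂ → ℂ} {α₁ : J' → ℂ} {Om : ℂ} {N' : ℕ}
    (hG : GDatE A B J' Ψ Θ α₁ Om N') {V : ValuationSubring ℂ} (hLoc : LocN A B V)
    {L' : PeriodPair} {S₀ : Finset ℂ} (hB : BinE V L' S₀) (hL : LatO A B L' Om) (kk' : J' → ℂ)
    (hkk : ¬ TV V (∑ j, kk' j * α₁ j)) :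
    ∃ a b c d : ℤ, a * d - b * c = 1 ∧ (N' : ℤ) ∣ c ∧ (N' : ℤ) ∣ d - 1 ∧
      (∑ j, kk' j * Ψ j ∞ (mob a b c d ∞)) / Om ∉ V := by
  classical
  by_contra hcon
  push Not at hcon
  have hOm0 : Om ≠ 0 := hL.1
  obtain ⟨r, h, hh, hfg⟩ := h5 N' hG.pos
  set Pm : Fin r → J' → ℂ := fun l' c => Ψ c ∞
      (mob (h l' 0 0) (h l' 0 1) (h l' 1 0) (h l' 1 1) ∞) / Om with hPm
  -- the space of the period vectors
  let T : (J' → ℂ) →ₗ[ℂ] (Fin r → ℂ) :=
    { toFun := fun y l' => ∑ c, y c * Pm l' c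
      map_add' := by
        intro y z
        funext l'
        simp only [Pi.add_apply, add_mul, Finset.sum_add_distrib]
      map_smul' := by
        intro a y
        funext l'
        simp only [Pi.smul_apply, smul_eq_mul, RingHom.id_apply, Finset.mul_sum, mul_assoc] }
  have hT : ∀ y l', T y l' = ∑ c, y c * Pm l' c := fun y l' => rfl
  set X : Submodule ℂ (Fin r → ℂ) := LinearMap.range T with hX
  have hcol : ∀ c : J', (fun l' => Pm l' c) ∈ X := by
    intro c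
    refine ⟨Pi.single c 1, ?_⟩
    funext l'
    rw [hT, Finset.sum_eq_single c]
    · simp
    · intro c' _ hc'
      simp [Pi.single_eq_of_ne hc']
    · intro hc'
      exact absurd (Finset.mem_univ _) hc'
  obtain ⟨hfk, hfk2⟩ := h4 A B hc
  have hst : ∀ σ : ℂ ≃+* ℂ, (∀ a ∈ (kk A B : Set ℂ), σ a = a) → ∀ x ∈ X,
      (fun i => σ (x i)) ∈ X := by
    intro σ hσ x hx
    obtain ⟨y, rfl⟩ := hx
    have hF : FixK A B σ := (hfk σ).2 hσ
    have hcol' : ∀ c : J', (fun l' => σ (Pm l' c)) ∈ X := by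
      intro c
      obtain ⟨j, u, hu⟩ := hG.rat σ hF c
      have e1 : (fun l' => σ (Pm l' c)) = u • (fun l' => Pm l' j) := by
        funext l'
        simp only [Pi.smul_apply, smul_eq_mul, hPm, hu]
      rw [e1]
      exact X.smul_mem _ (hcol _)
    have e3 : (fun i => σ (T y i)) = ∑ c, (σ (y c)) • (fun l' => σ (Pm l' c)) := by
      funext l'
      rw [hT, map_sum, Finset.sum_apply]
      refine Finset.sum_congr rfl fun c _ => ?_
      simp
    rw [e3]
    exact X.sum_mem fun c _ => X.smul_mem _ (hcol' c)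
  obtain ⟨J, ej, hJ, hJX⟩ := h2 (kk A B : Set ℂ)
    (fun x hx => hfk2 x fun σ hσ => hx σ ((hfk σ).1 hσ)) V r X hst
  have hgj : ∀ j : Fin r, j ∈ J → ∃ y' : J' → ℂ, (∀ l', ∑ c, y' c * Pm l' c = ej j l') ∧
      TV V (∑ c : J', y' c * α₁ c) := by
    intro j hj
    obtain ⟨hX1, hX2, -⟩ := hJ j hj
    obtain ⟨y, hy⟩ := hX1
    exact gen_GJ_E k1 k2 hc hG hLoc hB hL r h hfg (ej j) hX2 y (fun l' => by rw [← hy]; rfl)
  choose! y' hy'1 hy'2 using hgj
  -- the vector `x`
  set x : Fin r → ℂ := T kk' with hx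
  have hxnu : ∀ l', x l' ∈ V := by
    intro l'
    obtain ⟨m1, m2⟩ := G6c.mem1 (hh l')
    have h6 := hcon (h l' 0 0) (h l' 0 1) (h l' 1 0) (h l' 1 1) (G6c.det_eq (h l')) m1 m2
    have e1 : x l' = (∑ j, kk' j * Ψ j ∞ (mob (h l' 0 0) (h l' 0 1) (h l' 1 0) (h l' 1 1) ∞)) /
        Om := by
      rw [hx, hT, Finset.sum_div]
      refine Finset.sum_congr rfl fun c _ => ?_
      rw [hPm]
      ring
    rw [e1]
    exact h6
  have hxJ : x = ∑ j ∈ J, x j • ej j := hJX x ⟨kk', rfl⟩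
  set yp : J' → ℂ := fun c => kk' c - ∑ j ∈ J, x j * y' j c with hyp
  have hyp0 : ∀ l', ∑ c, yp c * Pm l' c = 0 := by
    intro l'
    have e1 : ∑ c, yp c * Pm l' c = x l' - ∑ j ∈ J, x j * ej j l' := by
      have e2 : ∑ j ∈ J, x j * ej j l' = ∑ c, (∑ j ∈ J, x j * y' j c) * Pm l' c := by
        simp_rw [Finset.sum_mul]
        rw [Finset.sum_comm]
        refine Finset.sum_congr rfl fun j hj => ?_
        rw [← hy'1 j hj l', Finset.mul_sum]
        refine Finset.sum_congr rfl fun c _ => ?_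
        ring
      rw [e2, hx, hT, ← Finset.sum_sub_distrib]
      refine Finset.sum_congr rfl fun c _ => ?_
      rw [hyp]
      ring
    have e3 := congrFun hxJ l'
    rw [Finset.sum_apply] at e3
    simp only [Pi.smul_apply, smul_eq_mul] at e3
    rw [e1, ← e3, sub_self]
  -- the form
  choose α hα using fun j => hG.qe j
  set Z : ℍ → ℂ := fun τ => ∑ c : J', yp c * Θ c (τ : ℂ) with hZ
  set z : PowerSeries ℂ := PowerSeries.mk fun n => ∑ c : J', yp c * (α c n / n) with hz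
  have hzn : ∀ n, PowerSeries.coeff n z = ∑ c : J', yp c * (α c n / n) :=
    fun n => by rw [hz, PowerSeries.coeff_mk]
  have hsmul : ∀ (γ : SL(2, ℤ)) (τ : ℍ), ((γ • τ : ℍ) : ℂ) =
      (((γ 0 0 : ℤ) : ℂ) * τ + ((γ 0 1 : ℤ) : ℂ)) /
          (((γ 1 0 : ℤ) : ℂ) * τ + ((γ 1 1 : ℤ) : ℂ)) := by
    intro γ τ
    rw [UpperHalfPlane.specialLinearGroup_apply]
    simp
  have hQS : QS Z z := by
    intro τ
    have hs := (hasSum_sum (s := Finset.univ) fun c (_ : c ∈ (Finset.univ : Finset (J'))) =>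
      ((hα c).2.2.2.1 (τ : ℂ) τ.2).mul_left (yp c))
    have e2 : (fun n : ℕ => PowerSeries.coeff n z * qq τ ^ n) = fun n : ℕ =>
        ∑ c : J', yp c * (α c n / n *
          Complex.exp (2 * Real.pi * Complex.I * (τ : ℂ)) ^ n) := by
      funext n
      rw [hzn n, qq, Finset.sum_mul]
      refine Finset.sum_congr rfl fun c _ => ?_
      ring
    rw [e2]
    exact hs
  have hcusp : ∀ γ : SL(2, ℤ), ∃ (C : ℂ) (w : ℕ → ℂ), ∀ τ : ℍ, HasSum (fun n : ℕ => w n *
      Complex.exp (2 * Real.pi * Complex.I * (τ : ℂ) / N') ^ (n + 1)) (Z (γ • τ) - C) := by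
    intro γ
    choose C W hW using fun c : J' => hG.cusp c (γ 0 0) (γ 0 1) (γ 1 0) (γ 1 1)
      (G6c.det_eq γ)
    refine ⟨∑ c : J', yp c * C c, fun n => ∑ c : J', yp c * W c n, ?_⟩
    intro τ
    have hs := (hasSum_sum (s := Finset.univ) fun c (_ : c ∈ (Finset.univ : Finset (J'))) =>
      (hW c (τ : ℂ) τ.2).mul_left (yp c))
    have e1 : (fun n : ℕ => (∑ c : J', yp c * W c n) *
        Complex.exp (2 * Real.pi * Complex.I * (τ : ℂ) / N') ^ (n + 1)) = fun n : ℕ =>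
        ∑ c : J', yp c * (W c n *
          Complex.exp (2 * Real.pi * Complex.I * (τ : ℂ) / N') ^ (n + 1)) := by
      funext n
      rw [Finset.sum_mul]
      refine Finset.sum_congr rfl fun c _ => ?_
      ring
    have e2 : Z (γ • τ) - ∑ c : J', yp c * C c = ∑ c : J', yp c *
        (Θ c ((((γ 0 0 : ℤ) : ℂ) * τ + ((γ 0 1 : ℤ) : ℂ)) /
          (((γ 1 0 : ℤ) : ℂ) * τ + ((γ 1 1 : ℤ) : ℂ))) - C c) := by
      rw [hZ]
      beta_reduce
      rw [← Finset.sum_sub_distrib, hsmul]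
      refine Finset.sum_congr rfl fun c _ => ?_
      ring
    rw [e1, e2]
    exact hs
  -- the periods
  set ρ : SL(2, ℤ) → ℂ := fun g => ∑ c : J', yp c *
    (Ψ c ∞ (G6c.mI g) / Om) with hρ
  have hρadd : ∀ g ∈ CongruenceSubgroup.Gamma1 N', ∀ g' ∈ CongruenceSubgroup.Gamma1 N',
      ρ (g * g') = ρ g + ρ g' := by
    intro g hg g' hg'
    rw [hρ]
    beta_reduce
    rw [← Finset.sum_add_distrib]
    refine Finset.sum_congr rfl fun c _ => ?_
    obtain ⟨m1, m2⟩ := G6c.mem1 hg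
    have a1 := hG.add c ∞ (G6c.mI g) (G6c.mI (g * g'))
    have a2 := hG.inv c (g 0 0) (g 0 1) (g 1 0) (g 1 1) (G6c.det_eq g) m1 m2 ∞
      (G6c.mI g')
    rw [← G6c.mI_mul] at a2
    have a3 : mob (g 0 0) (g 0 1) (g 1 0) (g 1 1) ∞ = G6c.mI g := rfl
    rw [a3] at a2
    rw [← a1, a2]
    ring
  have hρ0 : ∀ g ∈ CongruenceSubgroup.Gamma1 N', ρ g = 0 := by
    intro g hg
    have := hfg ρ hρadd ⊥ (fun i => by
      rw [AddSubgroup.mem_bot]
      exact hyp0 i) g hg
    rwa [AddSubgroup.mem_bot] at this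
  have hper : ∀ γ ∈ CongruenceSubgroup.Gamma1 N', ∀ τ : ℍ, Z (γ • τ) = Z τ := by
    intro γ hγ τ
    obtain ⟨m1, m2⟩ := G6c.mem1 hγ
    have e1 : Z (γ • τ) - Z τ = Om * ρ γ := by
      rw [hZ, hρ]
      beta_reduce
      rw [hsmul, ← Finset.sum_sub_distrib, Finset.mul_sum _ _ Om]
      refine Finset.sum_congr rfl fun c _ => ?_
      rw [hG.per c (γ 0 0) (γ 0 1) (γ 1 0) (γ 1 1) (G6c.det_eq γ) m1 m2 (τ : ℂ) τ.2]
      have a3 : mob (γ 0 0) (γ 0 1) (γ 1 0) (γ 1 1) ∞ = G6c.mI γ := rfl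
      rw [a3]
      field_simp
      ring
    rw [hρ0 γ hγ, mul_zero] at e1
    exact sub_eq_zero.1 e1
  have hz0 : z = 0 := h3 N' hG.pos Z z hQS (by rw [hzn]; simp) hcusp hper
  have hc1 := hzn 1
  rw [hz0, map_zero] at hc1
  have e1 : (∑ c : J', yp c * (α c 1 / (1 : ℕ))) = ∑ c : J', yp c * α₁ c := by
    refine Finset.sum_congr rfl fun c _ => ?_
    rw [(hα c).2.2.1]
    simp
  have e2 : ∑ c : J', yp c * α₁ c = ∑ j, kk' j * α₁ j - ∑ j ∈ J, x j * ∑ c : J', y' j c * α₁ c := by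
    have e4 : ∑ c : J', (∑ j ∈ J, x j * y' j c) * α₁ c =
        ∑ j ∈ J, x j * ∑ c : J', y' j c * α₁ c := by
      simp_rw [Finset.sum_mul, Finset.mul_sum]
      rw [Finset.sum_comm]
      refine Finset.sum_congr rfl fun j _ => Finset.sum_congr rfl fun c _ => ?_
      ring
    rw [← e4, ← Finset.sum_sub_distrib]
    refine Finset.sum_congr rfl fun c _ => ?_
    rw [hyp]
    ring
  have e5 : ∑ j, kk' j * α₁ j = ∑ j ∈ J, x j * ∑ c : J', y' j c * α₁ c := by
    rw [e1, e2] at hc1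
    exact (sub_eq_zero.1 hc1.symm)
  apply hkk
  rw [e5]
  exact TV.sum _ _ fun j hj => TV.mul (hxnu j) (hy'2 j hj)

end

end Pool.Agent.N2


end
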