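import Mathlib
import Pool.Agent.MVF.C047
import Pool.Agent.MVF.C049
import Pool.Agent.MVF.C061
import Pool.Agent.MVF.C068
import Pool.Agent.MVF.C071
import Pool.Agent.MVF.C073
import Pool.Agent.MVF.C078
import Pool.Agent.MVF.C084
import Pool.Agent.MVF.C092
import Pool.Agent.MVF.C103
import Pool.Agent.MVF.C106
import Pool.Agent.MVF.C107
import Pool.Agent.MVF.C109

/-! Parts: MUX.I_I3, MUX.I_XXF, MU3.P_NILX, MU3.P_NIL, MU3.KAll, MUX.K_NILP, MUX.K_KUMX, MUX.K_EIGX, MUX.KAllX -/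

namespace Pool.Agent.MU3.P_NIL
end Pool.Agent.MU3.P_NIL
namespace Pool.Agent.MU3.P_NILX
end Pool.Agent.MU3.P_NILX
namespace Pool.Agent.MUXI.XXF
end Pool.Agent.MUXI.XXF
namespace Pool.Agent.MUXK.NILP
end Pool.Agent.MUXK.NILP

section

/-!
# MUX, block IX, module I3: the result of the block
-/

set_option autoImplicit false

namespace Pool.Agent.MUXI

open _root_.MU3 _root_.Pool.Agent.MU3 _root_.Pool.Agent.MU3A _root_.Pool.Agent.MU3B _root_.Pool.Agent.RI _root_.Pool.Agent.RID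
  _root_.Pool.Agent.MUX _root_.Pool.Agent.MUXE _root_.Pool.Agent.MUXK
open _root_.Pool.Agent.MU3I (w3 zt)

noncomputable section

namespace I3P

/-- if the product is a `p`-th power, then the sum has `HfX` -/
theorem pows (hFOU : Si_FOU) (hTG : Pool.Agent.MU3I.St_ITG) {p : ℕ} (hp : p.Prime) {A B : ℤ}
    {P : Ideal (OO A B)} {V : ValuationSubring ℂ} {f : ℕ} {ι : Type} {R : Reps A B (p * f) ι}
    {c : ι → ℤ} {n : ℕ} {D : IntermediateField ℚ ℂ} [FiniteDimensional ℚ D] (h : kk A B ≤ D) :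
    letI := algC h
    ∀ (C : (D ≃ₐ[kk A B] D) → ℂ) (_ : EInp p P V f R c n h C)
      (_ : ∀ σ τ : D ≃ₐ[kk A B] D, σ * τ = τ * σ)
      (w : OO A B → ℤ) (_ : OddW p P (lvX p f n) w) (c₀ : ℂ) (hc : c₀ ∈ D) (_ : c₀ = C 1)
      (γ : D ≃ₐ[kk A B] D) (Δ : Subgroup (D ≃ₐ[kk A B] D)) [Fintype Δ] (N : ℕ) (b : Δ → ℕ)
      (X : Δ →* ℂˣ) (_ : (∑ δ : Δ, (b δ : ℂ) * (X δ : ℂ)) ∉ V.nonunits) (y : D)
      (_ : y ^ p = ∏ δ : Δ, ((δ : D ≃ₐ[kk A B] D) ((Tg γ)^[N] ⟨c₀, hc⟩)) ^ b δ),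
      HfX p V (∑ j ∈ Finset.range (N + 1), (((-1 : ℤ) ^ (N - j) * (N.choose j : ℤ) : ℤ) : ℂ) *
        ∑ δ : Δ, (((X δ)⁻¹ : ℂˣ) : ℂ) * (1 / 2 *
          TTw R (fun i => (c i : ℂ)) w (lvX p f n) (aX p f) h
            (γ ^ j * (δ : D ≃ₐ[kk A B] D)))) := by
  classical
  let akL : Algebra (kk A B) D := algC h
  intro C hE comm w hw c₀ hc h₀ γ Δ iΔ N b X hX y hy
  have fdk := Pool.Agent.FX.fd (kk A B) D
  have iG : Fintype (D ≃ₐ[kk A B] D) := Fintype.ofFinite _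
  let cj : ℕ → ℤ := fun j => (-1 : ℤ) ^ (N - j) * (N.choose j : ℤ)
  let g : (D ≃ₐ[kk A B] D) → ℤ := fun τ => ∑ δ : Δ, ∑ j ∈ Finset.range (N + 1),
      if (δ : D ≃ₐ[kk A B] D) * γ ^ j = τ then (b δ : ℤ) * cj j else 0
  have hcne : (⟨c₀, hc⟩ : D) ≠ 0 := by
    intro h0
    have h1 : c₀ = 0 := congrArg Subtype.val h0
    exact hE.ne (h₀.symm.trans h1)
  have hcτ : ∀ τ : D ≃ₐ[kk A B] D, ((τ ⟨c₀, hc⟩ : D) : ℂ) = C τ := by
    intro τ
    obtain ⟨z, hz1, hz2⟩ := hE.conj τ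
    have h1 : z = ⟨c₀, hc⟩ := Subtype.ext (hz1.trans h₀.symm)
    rw [← h1]
    exact hz2
  have hu : ∀ τ : D ≃ₐ[kk A B] D, C τ ≠ 0 := by
    intro τ h0
    rw [← hcτ τ] at h0
    have h1 : τ (⟨c₀, hc⟩ : D) = 0 := Subtype.ext h0
    exact hcne ((map_eq_zero_iff τ τ.injective).1 h1)
  have e1 : (y : ℂ) ^ p = ∏ᶠ τ : D ≃ₐ[kk A B] D, C τ ^ g τ := by
    rw [Pool.Agent.MU3I.I3F.prod_exp γ Δ _ hu (fun δ => (b δ : ℤ)) N cj g (fun τ => rfl)]
    have h1 : (y : ℂ) ^ p = D.val (y ^ p) := rfl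
    rw [h1, hy, map_prod]
    refine Finset.prod_congr rfl fun δ _ => ?_
    rw [Pool.Agent.MU3I.I3F.tg_pow hTG _ _ γ δ _ hcne N (b δ), map_prod]
    refine Finset.prod_congr rfl fun j _ => ?_
    rw [map_zpow₀]
    exact congrArg (fun w : ℂ => w ^ ((b δ : ℤ) * cj j)) (hcτ ((δ : D ≃ₐ[kk A B] D) * γ ^ j))
  have e2 := hE.ew w hw g ⟨y, y.2, e1⟩
  refine hFOU p hp V (D ≃ₐ[kk A B] D) comm γ Δ
    (fun τ => 1 / 2 * TTw R (fun i => (c i : ℂ)) w (lvX p f n) (aX p f) h τ)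
    (fun δ => (b δ : ℤ)) N cj X ?_ ?_
  · simpa using hX
  · intro τ'
    have e3 := e2 τ'
    rw [Pool.Agent.MU3I.I3F.sum_exp γ Δ
      (fun τ => TTw R (fun i => (c i : ℂ)) w (lvX p f n) (aX p f) h τ)
      (fun δ => (b δ : ℤ)) N cj g (fun τ => rfl) τ', Finset.mul_sum] at e3
    convert e3 using 1
    refine Finset.sum_congr rfl fun δ _ => ?_
    rw [Finset.mul_sum]
    refine Finset.sum_congr rfl fun j _ => ?_
    ring

lemma q0_dvd {p : ℕ} : q0 p ∣ p ^ 2 := by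
  unfold q0
  split_ifs with h
  · subst h
    norm_num
  · exact dvd_pow_self p two_ne_zero

lemma lv_dvd (p f n : ℕ) : lvX p f 0 ∣ lvX p f n := by
  unfold lvX
  rw [pow_zero, mul_one]
  exact dvd_mul_right _ _

lemma two_le_lv {p f : ℕ} (hp : p = 2 ∨ p = 3) (hf : f ≠ 0) (n : ℕ) : 2 ≤ lvX p f n := by
  have h1 : 0 < p ^ n := by
    rcases hp with rfl | rfl
    · exact pow_pos (by norm_num) _
    · exact pow_pos (by norm_num) _
  have h2 : 2 ≤ q0 p := by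
    rcases hp with rfl | rfl
    · decide
    · decide
  have h3 : 1 ≤ f := Nat.one_le_iff_ne_zero.2 hf
  unfold lvX
  calc 2 = 1 * 2 * 1 := by norm_num
    _ ≤ f * q0 p * p ^ n := Nat.mul_le_mul (Nat.mul_le_mul h3 h2) h1

lemma cop_lv {p f m : ℕ} (h : m.Coprime (p * f)) (n : ℕ) : m.Coprime (lvX p f n) := by
  have h1 : m.Coprime p := Nat.Coprime.coprime_mul_right_right h
  have h2 : m.Coprime f := Nat.Coprime.coprime_mul_left_right h
  have h3 : m.Coprime (q0 p) := Nat.Coprime.coprime_dvd_right q0_dvd (Nat.Coprime.pow_right 2 h1)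
  unfold lvX
  exact Nat.Coprime.mul_right (Nat.Coprime.mul_right h2 h3) (Nat.Coprime.pow_right n h1)

lemma val_root {V : ValuationSubring ℂ} {x : ℂ} {r : ℕ} (hr : r ≠ 0) (hx : x ^ r = 1) :
    V.valuation x = 1 := by
  have h1 : V.valuation x ^ r = 1 := by rw [← map_pow, hx, map_one]
  rcases lt_trichotomy (V.valuation x) 1 with h | h | h
  · exact absurd h1 (ne_of_lt (pow_lt_one₀ zero_le h hr))
  · exact h
  · exact absurd h1 (ne_of_gt (one_lt_pow₀ h hr))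

lemma w3_pm {m : ℕ} (h : m.Coprime 3) : w3 (m : ℤ) = 1 ∨ w3 (m : ℤ) = -1 := by
  have h1 : ¬ 3 ∣ m := by
    intro h2
    have h3 := Nat.eq_one_of_dvd_coprimes h h2 (dvd_refl 3)
    omega
  unfold Pool.Agent.MU3I.w3
  have h4 : (m : ℤ) % 3 = 1 ∨ (m : ℤ) % 3 = 2 := by omega
  rcases h4 with h4 | h4
  · left
    rw [if_pos h4]
  · right
    rw [if_neg (by omega), if_pos h4]

lemma val_pm {V : ValuationSubring ℂ} {c : ℤ} (h : c = 1 ∨ c = -1) :
    V.valuation (c : ℂ) = 1 := by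
  rcases h with rfl | rfl
  · rw [Int.cast_one, map_one]
  · rw [Int.cast_neg, Int.cast_one, Valuation.map_neg, map_one]

end I3P

/-- (I3) THE RESULT of block IX. -/
theorem ti_I3 (hHFX : Si_HFX) (hCHI : Si_CHI) (hFOU : Si_FOU) (hEPS3 : Si_EPS3)
    (hEPS2 : Si_EPS2) (hARF : Si_ARF) (hXXF : Si_XXF) (hE0 : Si_E0) (hSUB : Si_SUB)
    (hGAM : Si_GAM) (hXMX : Si_XMX) (hBIJ : Si_BIJ) (hTH : Si_TH) (hGEN : Si_GEN)
    (hALM : Pool.Agent.MUXY.Sy_ALM) (hHY : Pool.Agent.MUXHY.Sy_HFX) : Si_I3 := by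
  classical
  intro p hp A B P V f hS hTor ι hι R hmu c hc K Bn fdK fdKB hB hdeg hKT hk hkK C hE c₀ mem hc₀
  let akK : Algebra (kk A B) K := algC hkK
  intro χ N n₀
  have hC : CQ A B := hS.case.toCQ
  have hp23 : p = 2 ∨ p = 3 := by
    rcases hS.case.split with h | h
    · exact Or.inr h.1
    · exact Or.inl h.1
  have hpV : (p : ℂ) ∈ V.nonunits := by
    have h1 := (hS.hV ((p : ℕ) : OO A B)).2 hS.hP.mem
    rwa [Pool.Agent.MUX.emb_natCast hC] at h1
  obtain ⟨hchar, hacl⟩ := Pool.Agent.MUXJ.t_RES p V hpV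
  have galK : IsGalois (kk A B) K := (isGalois_algC hkK).2 hB.gal
  have fdkK := Pool.Agent.FX.fd (kk A B) K
  have commK : ∀ a b : K ≃ₐ[kk A B] K, a * b = b * a := by
    intro a b
    have h1 := hB.ab ((extEquiv hkK).symm.autCongr a) ((extEquiv hkK).symm.autCongr b)
    rw [← map_mul, ← map_mul] at h1
    exact (extEquiv hkK).symm.autCongr.injective h1
  let iGK : Fintype (K ≃ₐ[kk A B] K) := Fintype.ofFinite _
  have hcardK : ¬ p ∣ Fintype.card (K ≃ₐ[kk A B] K) := by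
    rw [← Nat.card_eq_fintype_card, IsGalois.card_aut_eq_finrank]
    have h1 := finrank_algC hkK
    intro h2
    exact hdeg (h1 ▸ h2)
  obtain ⟨X, θ, hXθ⟩ := hCHI p V hpV hchar hacl (K ≃ₐ[kk A B] K) commK hcardK χ
  obtain ⟨rr, hrr⟩ : ∃ rr, rr = Fintype.card (K ≃ₐ[kk A B] K) := ⟨_, rfl⟩
  have hrr0 : rr ≠ 0 := by
    rw [hrr]
    exact Fintype.card_ne_zero
  have hXr : ∀ τ, X τ ^ rr = 1 := by
    intro τ
    rw [← map_pow, hrr, pow_card_eq_one, map_one]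
  obtain ⟨e0, kp, h01, h0m, h0mul, h0per, h0supp, h0pow, hkp, h0X⟩ :=
    hE0 p A B P V f hS hTor ι R K hkK hKT galK X rr hXr
  obtain ⟨w, e, s, hw, he, hs, hs2, hes⟩ : ∃ (w : OO A B → ℤ) (e : OO A B → ℂ) (s : ℤ),
      (∀ n, OddW p P (lvX p f n) w) ∧ IsEI (idl f * cjI P) e ∧ (s = 1 ∨ s = -1) ∧
      (p = 2 → s = 1) ∧ ∀ x, IsCoprime x ((lvX p f 0 : ℕ) : OO A B) →
        e0 x * (w x : ℂ) = e x * (if s = 1 then 1 else (w3 (nm x) : ℂ)) := by
    rcases hp23 with rfl | rfl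
    · obtain ⟨w, e, hw, he, hes⟩ := hEPS2 A B P V f hS e0 rr (hrr ▸ hcardK) h01 h0m h0mul h0per
        h0supp h0pow
      exact ⟨w, e, 1, hw, he, Or.inl rfl, fun _ => rfl, fun x hx => by
        rw [if_pos rfl, mul_one]
        exact hes x hx⟩
    · obtain ⟨hw, e, s, he, hs, hes⟩ := hEPS3 A B P V f hS e0 h01 h0m h0mul h0per h0supp
      exact ⟨wP P, e, s, hw, he, hs, fun h => absurd h (by decide), hes⟩
  have hw3 : ∀ i, s = 1 ∨ (w3 (nI (R.b i)) = 1 ∨ w3 (nI (R.b i)) = -1) := by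
    intro i
    rcases hp23 with h2 | h3
    · exact Or.inl (hs2 h2)
    · right
      apply I3P.w3_pm
      have h5 : ∀ m : ℕ, m.Coprime p → m.Coprime 3 := fun m h => h3 ▸ h
      exact h5 _ (Nat.Coprime.coprime_mul_right_right (R.cop i))
  have halg : ∀ i, IsAlgebraic ℚ (kkX R kp c s i) := by
    intro i
    have h1 : IsAlgebraic ℚ (kp i) := by
      have h2 : IsIntegral ℚ (kp i) := IsIntegral.of_pow (Nat.pos_of_ne_zero hrr0) (by
        rw [hkp i]
        exact isIntegral_one)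
      exact h2.isAlgebraic
    have h3 : IsAlgebraic ℚ ((c i : ℤ) : ℂ) := isAlgebraic_intCast (c i)
    have h4 : IsAlgebraic ℚ (muX R i) := (hALM A B hC hTor _ ι inferInstance R i).1
    have h5 : IsAlgebraic ℚ (if s = 1 then 1 else (w3 (nI (R.b i)) : ℂ)) := by
      split_ifs
      · exact isAlgebraic_one
      · exact isAlgebraic_intCast _
    unfold kkX
    rw [div_eq_mul_inv]
    exact ((h1.mul h3).mul h4.inv).mul h5
  have hval : ∀ i, V.valuation (kkX R kp c s i) = 1 := by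
    intro i
    have h5 : V.valuation (if s = 1 then 1 else (w3 (nI (R.b i)) : ℂ)) = 1 := by
      split_ifs with h6
      · exact map_one _
      · exact I3P.val_pm ((hw3 i).resolve_left h6)
    unfold kkX
    rw [map_mul, map_div₀, map_mul, hmu i, I3P.val_root hrr0 (hkp i), I3P.val_pm (hc i), h5]
    simp
  obtain ⟨h', r', hh', hN⟩ := hHY p A B P V f hS ι hι R e he (kkX R kp c s) halg hval s hs
  obtain ⟨n₁, hn₁⟩ := hN (N + 1) (by omega)
  obtain ⟨n, hn⟩ : ∃ n, n = r' + h' * (n₀ + n₁ + 1) := ⟨_, rfl⟩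
  have hnge : n₀ + n₁ + 1 ≤ n := by
    have h1 : 1 * (n₀ + n₁ + 1) ≤ h' * (n₀ + n₁ + 1) := Nat.mul_le_mul_right _ hh'
    omega
  have hmod : n % h' = r' % h' := by
    rw [hn, Nat.add_mul_mod_self_left]
  have hnot := hn₁ n (by omega) hmod
  refine ⟨n, by omega, ?_⟩
  have hn1 : 1 ≤ n := by omega
  let akL : Algebra (kk A B) ↥(K ⊔ Bn n) := algC (hk n)
  intro γ hγ iF r hr
  refine ⟨θ, fun y hy => ?_⟩
  obtain ⟨gal, comm⟩ := Pool.Agent.MUXK.t_GALX p (kk A B) K Bn hB n (hk n)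
  have fdk := Pool.Agent.FX.fd (kk A B) ↥(K ⊔ Bn n)
  have iG : Finite (↥(K ⊔ Bn n) ≃ₐ[kk A B] ↥(K ⊔ Bn n)) := inferInstance
  obtain ⟨hbij, hmul⟩ := hBIJ p (kk A B) K Bn hB n (hk n) hkK r hr
  let rH : NC (hk n) (Bn n) →* (K ≃ₐ[kk A B] K) := MonoidHom.mk' r hmul
  let X' : NC (hk n) (Bn n) →* ℂˣ := X.comp rH
  let b : NC (hk n) (Bn n) → ℕ :=
    fun δ => (θ ((χ (r δ))⁻¹ : (IsLocalRing.ResidueField V)ˣ)).val
  have hbX : (∑ δ : NC (hk n) (Bn n), (b δ : ℂ) * (X' δ : ℂ)) ∉ V.nonunits := by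
    have h1 := hbij.sum_comp (fun σ : K ≃ₐ[kk A B] K =>
      ((θ ((χ σ)⁻¹ : (IsLocalRing.ResidueField V)ˣ)).val : ℂ) * (X σ : ℂ))
    have h2 : (∑ δ : NC (hk n) (Bn n), (b δ : ℂ) * (X' δ : ℂ)) =
      ∑ δ : (K ≃ₐ[kk A B] K), ((θ ((χ δ)⁻¹ : (IsLocalRing.ResidueField V)ˣ)).val : ℂ) *
        (X δ : ℂ) := h1
    rw [h2]
    exact hXθ
  obtain ⟨γ₀, hγ₀K, hγ₀z⟩ := hGAM p hp23 (kk A B) K Bn hB n (hk n)
  have hex : ∃ (b : Ideal (OO A B)) (L : PeriodPair) (om : ℂ), IsNL b L om :=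
    ⟨R.b R.i0, R.L R.i0, R.om R.i0, R.nl R.i0⟩
  have hRF := hSUB p A B P V f hS hTor hex K hKT n (Bn n) (hB.lay n)
  have hXM := hXMX p A B P V f hS hTor ι R K (Bn n) n (hk n) (hB.lay n) hRF gal γ₀ hγ₀z
  have h2m : 2 ≤ lvX p f n := I3P.two_le_lv hp23 hS.f0 n
  have hcopm : ∀ i, (nI (R.b i)).Coprime (lvX p f n) := fun i => I3P.cop_lv (R.cop i) n
  have hmne : idl (A := A) (B := B) (lvX p f n) ≠ ⊥ := by
    intro h0
    rw [Ideal.span_singleton_eq_bot] at h0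
    exact Pool.Agent.MUX.natCast_ne_zero' hC (by omega : lvX p f n ≠ 0) h0
  have hdvd : ((lvX p f 0 : ℕ) : OO A B) ∣ ((lvX p f n : ℕ) : OO A B) :=
    Nat.cast_dvd_cast (I3P.lv_dvd p f n)
  have hχ : ∀ (δ : NC (hk n) (Bn n)) (j : ℕ), ∀ q ∈ XX R (lvX p f n) (hk n)
      (γ₀ ^ j * (δ : ↥(K ⊔ Bn n) ≃ₐ[kk A B] ↥(K ⊔ Bn n))),
      (((X' δ)⁻¹ : ℂˣ) : ℂ) = kp q.1 * e0 (Quotient.out q.2) := by
    intro δ j q hq
    have hcop := hq.1
    have hq2 : Ideal.Quotient.mk (idl (A := A) (B := B) (lvX p f n)) (Quotient.out q.2) = q.2 :=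
      Quotient.out_eq' q.2
    have h1 : AR (hk n) (idl (lvX p f n)) (γ₀ ^ j * (δ : ↥(K ⊔ Bn n) ≃ₐ[kk A B] ↥(K ⊔ Bn n)))
        (sp (Quotient.out q.2) * cjI (R.b q.1)) := by
      refine ((hXXF A B hC hTor _ ι R (lvX p f n) h2m hcopm (K ⊔ Bn n) (hk n) hRF gal).1 _ q.1
        (Quotient.out q.2) hcop).1 ?_
      rw [hq2]
      exact hq
    have h2 : AR hkK (idl (lvX p f 0)) (r δ) (sp (Quotient.out q.2) * cjI (R.b q.1)) := by
      refine (hARF A B hC hTor hex (idl (lvX p f n)) hmne (K ⊔ Bn n) (hk n) hRF gal).2.2.2.2.2.1 K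
        hkK (idl (lvX p f 0)) ?_ le_sup_left _ (r δ) _ ?_ h1
      · exact Ideal.span_singleton_le_span_singleton.2 hdvd
      · intro x x' hx'
        have h3 := hr δ x x' hx'
        have h4 : (((δ : ↥(K ⊔ Bn n) ≃ₐ[kk A B] ↥(K ⊔ Bn n)) x' : ↥(K ⊔ Bn n)) : ℂ) ∈ K := by
          rw [h3]
          exact (r δ x).2
        have h5 : ∀ i : ℕ, (γ₀ ^ i) ((δ : ↥(K ⊔ Bn n) ≃ₐ[kk A B] ↥(K ⊔ Bn n)) x') =
            (δ : ↥(K ⊔ Bn n) ≃ₐ[kk A B] ↥(K ⊔ Bn n)) x' := by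
          intro i
          induction i with
          | zero => rw [pow_zero, AlgEquiv.one_apply]
          | succ i ih => rw [pow_succ, AlgEquiv.mul_apply, (hγ₀K _).2 h4, ih]
        rw [AlgEquiv.mul_apply, h5 j, h3]
    exact h0X (r δ) q.1 (Quotient.out q.2) (hcop.of_isCoprime_of_dvd_right hdvd) h2
  have hTHj := hTH p A B P V f hS ι R n _ γ₀ (NC (hk n) (Bn n)) _ hXM X' e0 kp c w e s h0per
    (hw n) he hs hs2 hes hχ
  have hcne : c₀ n ≠ 0 := by
    rw [hc₀ n hn1]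
    exact (hE n hn1).ne
  have key := hGEN p (kk A B) K Bn hB n (hk n) (c₀ n) (mem n) hcne (N + 1) γ₀ hγ₀K b
    (fun y hy => ?_) γ hγ
  · -- from `N + 1` to `N`
    refine key (Tg γ y) ?_
    have e1 := congrArg (Tg γ) hy
    rw [Pool.Agent.MU3I.tg_prod] at e1
    have e2 : Tg γ (y ^ p) = Tg γ y ^ p := by
      unfold Tg
      rw [map_pow, div_pow]
    rw [e2] at e1
    rw [e1]
    refine Finset.prod_congr rfl fun δ _ => ?_
    congr 1
    rw [Function.iterate_succ_apply']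
    unfold Tg
    rw [map_div₀]
    congr 1
    exact AlgEquiv.congr_fun (comm γ (δ : ↥(K ⊔ Bn n) ≃ₐ[kk A B] ↥(K ⊔ Bn n))) _
  · have hHf := I3P.pows hFOU Pool.Agent.MU3I.t_ITG hp.out (hk n) (C n) (hE n hn1) comm w (hw n)
      (c₀ n) (mem n) (hc₀ n hn1) γ₀ (NC (hk n) (Bn n)) (N + 1) b X' hbX y hy
    have h4 : (∑ j ∈ Finset.range (N + 1 + 1),
        (((-1 : ℤ) ^ (N + 1 - j) * ((N + 1).choose j : ℤ) : ℤ) : ℂ) *
        ∑ δ : NC (hk n) (Bn n), (((X' δ)⁻¹ : ℂˣ) : ℂ) * (1 / 2 *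
          TTw R (fun i => (c i : ℂ)) w (lvX p f n) (aX p f) (hk n)
            (γ₀ ^ j * (δ : ↥(K ⊔ Bn n) ≃ₐ[kk A B] ↥(K ⊔ Bn n))))) =
        1 / 2 * ∑ j ∈ Finset.range (N + 1 + 1),
          ((-1 : ℂ) ^ (N + 1 - j) * ((N + 1).choose j : ℂ)) *
          (STX R (lvX p f n) (q0 p * p ^ n) (aX p f) e (kkX R kp c s) ((1 + (q0 p : ℤ)) ^ j) +
            s * STX R (lvX p f n) (q0 p * p ^ n) (aX p f) e (kkX R kp c s)
              (-(1 + (q0 p : ℤ)) ^ j)) := by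
      rw [Finset.mul_sum]
      refine Finset.sum_congr rfl fun j _ => ?_
      rw [← hTHj j]
      have h5 : (∑ δ : NC (hk n) (Bn n), (((X' δ)⁻¹ : ℂˣ) : ℂ) * (1 / 2 *
          TTw R (fun i => (c i : ℂ)) w (lvX p f n) (aX p f) (hk n)
            (γ₀ ^ j * (δ : ↥(K ⊔ Bn n) ≃ₐ[kk A B] ↥(K ⊔ Bn n))))) =
          1 / 2 * ∑ δ : NC (hk n) (Bn n), (((X' δ)⁻¹ : ℂˣ) : ℂ) *
          TTw R (fun i => (c i : ℂ)) w (lvX p f n) (aX p f) (hk n)
            (γ₀ ^ j * (δ : ↥(K ⊔ Bn n) ≃ₐ[kk A B] ↥(K ⊔ Bn n))) := by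
        rw [Finset.mul_sum]
        refine Finset.sum_congr rfl fun δ _ => ?_
        ring
      rw [h5]
      unfold TTw
      push_cast
      ring
    rw [h4] at hHf
    apply hnot
    by_cases h2 : p = 2
    · rw [if_pos h2]
      exact hHf
    · rw [if_neg h2, one_mul]
      have h2V : (2 : ℂ) ∈ V := by
        have h5 := natCast_mem V 2
        exact_mod_cast h5
      have h3 := (hHFX p hp.out V).2.2.1 2 _ h2V hHf
      rw [← mul_assoc] at h3
      norm_num at h3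
      exact h3

end

end Pool.Agent.MUXI


end

section

/-!
# MUX, block IX, module XXF (helper65): the sets `XX R m h τ` and the Artin symbol
-/

set_option autoImplicit false

namespace Pool.Agent.MUXI

open _root_.MU3 _root_.Pool.Agent.MU3 _root_.Pool.Agent.MU3A _root_.Pool.Agent.MU3B _root_.Pool.Agent.RI _root_.Pool.Agent.RID
  _root_.Pool.Agent.MUX _root_.Pool.Agent.MUXE _root_.Pool.Agent.MUXK
open _root_.Pool.Agent.MU3I (w3 zt)

noncomputable section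

namespace XXF

lemma natCast_mul_re {A B : ℤ} (m : ℕ) (y : OO A B) : (y * (m : OO A B)).re = y.re * m := by
  simp [QuadraticAlgebra.re_mul]

lemma not_coprime_zero {A B : ℤ} {m : ℕ} (hm : 2 ≤ m) {x : OO A B}
    (hx : IsCoprime x (m : OO A B)) : x ≠ 0 := by
  rintro rfl
  obtain ⟨u, v, h⟩ := hx
  rw [mul_zero, zero_add] at h
  have h1 := congrArg QuadraticAlgebra.re h
  rw [natCast_mul_re] at h1
  have h2 : v.re * (m : ℤ) = 1 := h1
  have h3 : (m : ℤ) ∣ 1 := ⟨v.re, by rw [mul_comm]; exact h2.symm⟩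
  have h4 := Int.le_of_dvd one_pos h3
  have h5 : (2 : ℤ) ≤ m := by exact_mod_cast hm
  omega

lemma idl_ne {A B : ℤ} {m : ℕ} (hm : 2 ≤ m) : idl (A := A) (B := B) m ≠ ⊥ := by
  intro h
  rw [Ideal.span_singleton_eq_bot] at h
  have h1 := congrArg QuadraticAlgebra.re h
  have h2 : ((m : ℕ) : ℤ) = 0 := by simpa using h1
  have h3 : m = 0 := by exact_mod_cast h2
  omega

lemma re_swap {A B : ℤ} {m : ℕ} (hm : 2 ≤ m) {x x' : OO A B} (c : Ideal (OO A B))
    (hx : IsCoprime x (m : OO A B)) (hx' : IsCoprime x' (m : OO A B))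
    (h : x' - x ∈ idl (A := A) (B := B) m) : RE (idl m) (sp x * c) (sp x' * c) := by
  refine ⟨x', x, not_coprime_zero hm hx', not_coprime_zero hm hx, ?_, h, ?_⟩
  · exact (Ideal.isCoprime_span_singleton_iff _ _).2 hx'
  · rw [mul_left_comm]

end XXF

open _root_.Pool.Agent.MUXI.XXF in
theorem ti_XXF (h1 : Si_HIT) (h2 : Si_ARF) (h3 : Si_RPR) (h4 : Si_IAF) : Si_XXF := by
  intro A B hC T n₀ ι R m hm hcop D h hD hG
  letI := algC h
  have hm0 := idl_ne (A := A) (B := B) hm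
  have hex : ∃ (b : Ideal (OO A B)) (L : PeriodPair) (om : ℂ), IsNL b L om :=
    ⟨_, _, _, R.nl R.i0⟩
  obtain ⟨-, -, -, -, hch, -, -, -⟩ := h4 A B hC T hex (idl m) hm0
  obtain ⟨-, hart, -, huni, -, -, -⟩ := h2 A B hC T hex (idl m) hm0 D h hD hG
  obtain ⟨hr, -⟩ := h3 A B hC n₀ ι R m (by omega) hcop
  have hit := h1 A B hC T n₀ ι R m hm hcop
  -- membership in `XX` for the chosen representative
  have key : ∀ (τ : D ≃ₐ[kk A B] D) (q : ι × (OO A B ⧸ idl (A := A) (B := B) m)),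
      IsCoprime (Quotient.out q.2 : OO A B) (m : OO A B) →
      (q ∈ XX R m h τ ↔ AR h (idl m) τ (sp (Quotient.out q.2 : OO A B) * cjI (R.b q.1))) := by
    intro τ q hq
    constructor
    · rintro ⟨-, σ, hσ, hτ, hh⟩
      exact ⟨σ, (hit σ hσ q.1 _ hq).1 hh, hτ⟩
    · rintro ⟨σ, hσ, hτ⟩
      exact ⟨hq, σ, hσ.fix, hτ, (hit σ hσ.fix q.1 _ hq).2 hσ⟩
  refine ⟨fun τ i x hx => ?_, fun q hq => ⟨?_, fun τ τ' hτ hτ' => ?_⟩⟩
  · set x' : OO A B := Quotient.out (Ideal.Quotient.mk (idl (A := A) (B := B) m) x) with hx'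
    have e1 : Ideal.Quotient.mk (idl (A := A) (B := B) m) x' =
        Ideal.Quotient.mk (idl (A := A) (B := B) m) x := Quotient.out_eq _
    have e2 : x' - x ∈ idl (A := A) (B := B) m := Ideal.Quotient.eq.1 e1
    have e3 : IsCoprime x' (m : OO A B) := by
      obtain ⟨y, hy⟩ := Ideal.mem_span_singleton'.1 e2
      have e4 : x' = x + y * (m : OO A B) := by rw [hy]; ring
      rw [e4]
      exact hx.add_mul_right_left y
    have e5 := re_swap hm (cjI (R.b i)) hx e3 e2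
    have e6 : RE (idl m) (sp x' * cjI (R.b i)) (sp x * cjI (R.b i)) :=
      re_swap hm (cjI (R.b i)) e3 hx (by rw [← neg_sub]; exact neg_mem e2)
    rw [key τ (i, Ideal.Quotient.mk (idl (A := A) (B := B) m) x) e3]
    constructor
    · rintro ⟨σ, hσ, hτ⟩
      exact ⟨σ, hch σ _ _ hσ (hr i x hx) e6, hτ⟩
    · rintro ⟨σ, hσ, hτ⟩
      exact ⟨σ, hch σ _ _ hσ (hr i x' e3) e5, hτ⟩
  · have hne : sp (Quotient.out q.2 : OO A B) * cjI (R.b q.1) ≠ ⊥ := by
      refine Pool.Agent.MUX.mul_ne_bot hC ?_ (Pool.Agent.MUX.cjI_ne_bot hC (R.nl q.1).b_ne)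
      rw [Ne, Ideal.span_singleton_eq_bot]
      exact not_coprime_zero hm hq
    obtain ⟨τ, hτ⟩ := hart _ hne (hr q.1 _ hq)
    exact ⟨τ, (key τ q hq).2 hτ⟩
  · have a1 := (key τ q hq).1 hτ
    have a2 := (key τ' q hq).1 hτ'
    refine huni τ τ' _ _ a1 a2 ⟨1, 1, ?_, ?_, ?_, ?_, rfl⟩
    · exact not_coprime_zero hm isCoprime_one_left
    · exact not_coprime_zero hm isCoprime_one_left
    · exact (Ideal.isCoprime_span_singleton_iff _ _).2 isCoprime_one_left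
    · rw [sub_self]; exact zero_mem _

end

end Pool.Agent.MUXI


end

section

/-!
# MU3, module NILX: the relation for one prime and one eigenfunctional
-/

open NumberField IsDedekindDomain Finset
open scoped nonZeroDivisors Pointwise

namespace Pool.Agent.MU3

open _root_.Pool.Agent.RI _root_.Pool.Agent.RID

namespace P_NILX

/-- An automorphism fixing the prime ideal fixes the fractional ideal. -/
lemma fix_vJ {k L : Type} [Field k] [Field L] [NumberField L] [Algebra k L] (g : L ≃ₐ[k] L)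
    (v : HeightOneSpectrum (𝓞 L)) (h : g • v.asIdeal = v.asIdeal) : g • vJ v = vJ v := by
  apply Units.ext
  ext x
  rw [RI.mem_smul]
  show g.symm x ∈ (v.asIdeal : FractionalIdeal (𝓞 L)⁰ L) ↔
    x ∈ (v.asIdeal : FractionalIdeal (𝓞 L)⁰ L)
  rw [FractionalIdeal.mem_coeIdeal, FractionalIdeal.mem_coeIdeal]
  constructor
  · rintro ⟨y, hy, hx⟩
    refine ⟨g • y, ?_, ?_⟩
    · rw [← h]; exact Ideal.smul_mem_pointwise_smul_iff.mpr hy
    · show g (algebraMap (𝓞 L) L y) = x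
      rw [hx]; exact g.apply_symm_apply x
  · rintro ⟨y, hy, hx⟩
    refine ⟨g⁻¹ • y, ?_, ?_⟩
    · have : g • (g⁻¹ • y) ∈ g • v.asIdeal := by rw [smul_inv_smul, h]; exact hy
      exact Ideal.smul_mem_pointwise_smul_iff.mp this
    · show g.symm (algebraMap (𝓞 L) L y) = g.symm x
      rw [hx]

lemma fix_SJ {k L : Type} [Field k] [Field L] [NumberField L] [Algebra k L] (S : Finset ℕ)
    (g : L ≃ₐ[k] L)
    (h : ∀ v : HeightOneSpectrum (𝓞 L), Above S v → g • v.asIdeal = v.asIdeal) (s : J L)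
    (hs : s ∈ SJ S L) : g • s = s := by
  unfold SJ at hs
  induction hs using Subgroup.closure_induction with
  | mem x hx => obtain ⟨v, hv, rfl⟩ := hx; exact fix_vJ g v (h v hv)
  | one => exact smul_one g
  | mul x y _ _ hx hy => rw [smul_mul', hx, hy]
  | inv x _ hx => rw [smul_inv', hx]

/-- The congruence for `h⁻¹ c` modulo `lam` gives the one for `c` modulo `h lam`. -/
lemma tr {k L : Type} [Field k] [Field L] [NumberField L] [Algebra k L] (h : L ≃ₐ[k] L)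
    (c : (𝓞 L)ˣ) (e b : ℕ) (a : ℤ) (I : Ideal (𝓞 L))
    (hh : ((h⁻¹ • c : (𝓞 L)ˣ) : 𝓞 L) ^ e - (a : 𝓞 L) ^ b ∈ I) :
    (c : 𝓞 L) ^ e - (a : 𝓞 L) ^ b ∈ h • I := by
  have h1 : h • (((h⁻¹ • c : (𝓞 L)ˣ) : 𝓞 L) ^ e - (a : 𝓞 L) ^ b) ∈ h • I :=
    Ideal.smul_mem_pointwise_smul_iff.mpr hh
  have h2 : ((h⁻¹ • c : (𝓞 L)ˣ) : 𝓞 L) = h⁻¹ • (c : 𝓞 L) := rfl
  have h3 : h • (a : 𝓞 L) = (a : 𝓞 L) :=
    map_intCast (MulSemiringAction.toRingHom (L ≃ₐ[k] L) (𝓞 L) h) a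
  rw [smul_sub, smul_pow', smul_pow', h2, smul_inv_smul, h3] at h1
  exact h1

section grp

variable {G : Type} [Group G] {n : ℕ} (γ : G)

/-- `γ ^ i` for `i` modulo `3 ^ n`. -/
def gz (n : ℕ) (γ : G) (i : ZMod (3 ^ n)) : G := γ ^ i.val

lemma gz_cast (ho : orderOf γ = 3 ^ n) (k : ℕ) : gz n γ (k : ZMod (3 ^ n)) = γ ^ k := by
  unfold gz
  rw [ZMod.val_natCast, ← ho, pow_mod_orderOf]

lemma gz_add (ho : orderOf γ = 3 ^ n) (i j : ZMod (3 ^ n)) :
    gz n γ (i + j) = gz n γ i * gz n γ j := by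
  unfold gz
  rw [ZMod.val_add, ← pow_add]
  conv_lhs => rw [show (i.val + j.val) % 3 ^ n = (i.val + j.val) % orderOf γ by rw [ho]]
  rw [pow_mod_orderOf]

lemma gz_zero : gz n γ 0 = 1 := by
  unfold gz
  rw [ZMod.val_zero, pow_zero]

lemma gz_neg (ho : orderOf γ = 3 ^ n) (i : ZMod (3 ^ n)) : gz n γ (-i) = (gz n γ i)⁻¹ := by
  apply eq_inv_of_mul_eq_one_left
  rw [← gz_add γ ho, neg_add_cancel, gz_zero]

lemma gz_bij (D : Subgroup G) (hc : (Nat.card D).Coprime 3) (ho : orderOf γ = 3 ^ n)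
    (hg : ∀ h : G, ∃ δ ∈ D, ∃ i : ℕ, h = δ * γ ^ i) :
    Function.Bijective (fun p : D × ZMod (3 ^ n) => (p.1 : G) * gz n γ p.2) := by
  constructor
  · rintro ⟨δ, i⟩ ⟨δ', i'⟩ h
    simp only at h
    have h1 : (δ' : G)⁻¹ * δ = gz n γ (i' - i) := by
      rw [sub_eq_add_neg, gz_add γ ho, gz_neg γ ho, inv_mul_eq_iff_eq_mul, ← mul_assoc, ← h,
        mul_assoc, mul_inv_cancel, mul_one]
    have h2 : orderOf (δ'⁻¹ * δ) ∣ Nat.card D := orderOf_dvd_natCard _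
    have h3 : orderOf (gz n γ (i' - i)) ∣ 3 ^ n := by
      have := orderOf_pow_dvd (x := γ) (i' - i).val
      rw [ho] at this
      exact this
    have h4 : orderOf (gz n γ (i' - i)) = 1 := by
      rw [← h1] at h3 ⊢
      have h5 : orderOf ((δ' : G)⁻¹ * δ) = orderOf (δ'⁻¹ * δ) := by
        rw [← Subgroup.orderOf_coe]; rfl
      rw [h5] at h3 ⊢
      have h6 : (Nat.card D).Coprime (3 ^ n) := Nat.Coprime.pow_right n hc
      exact Nat.eq_one_of_dvd_coprimes h6 h2 h3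
    rw [orderOf_eq_one_iff] at h4
    have h7 : (i' - i) = 0 := by
      have h8 : γ ^ (i' - i).val = 1 := h4
      have h9 : orderOf γ ∣ (i' - i).val := orderOf_dvd_of_pow_eq_one h8
      rw [ho] at h9
      have h10 := Nat.eq_zero_of_dvd_of_lt h9 (ZMod.val_lt _)
      exact (ZMod.val_eq_zero _).mp h10
    have h8 : δ' = δ := by
      rw [h4, inv_mul_eq_one] at h1
      exact Subtype.ext h1
    rw [h8, sub_eq_zero.mp h7]
  · intro h
    obtain ⟨δ, hδ, i, hi⟩ := hg h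
    refine ⟨(⟨δ, hδ⟩, (i : ZMod (3 ^ n))), ?_⟩
    simp only [gz_cast γ ho]
    exact hi.symm

end grp

lemma f_prod {I F ι : Type} [CommGroup I] [Field F] (f : I → F)
    (hf : ∀ x y, f (x * y) = f x + f y) (s : Finset ι) (x : ι → I) :
    f (∏ i ∈ s, x i) = ∑ i ∈ s, f (x i) := by
  have h1 : f 1 = 0 := by
    have := hf 1 1
    rw [mul_one] at this
    linear_combination -this
  classical
  induction s using Finset.induction_on with
  | empty => rw [prod_empty, sum_empty, h1]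
  | insert a s ha ih => rw [prod_insert ha, sum_insert ha, hf, ih]

lemma f_pow {I F : Type} [CommGroup I] [Field F] (f : I → F)
    (hf : ∀ x y, f (x * y) = f x + f y) (x : I) (n : ℕ) : f (x ^ n) = n * f x := by
  induction n with
  | zero =>
    rw [pow_zero, Nat.cast_zero, zero_mul]
    have := hf 1 1
    rw [mul_one] at this
    linear_combination -this
  | succ n ih => rw [pow_succ, hf, ih]; push_cast; ring

/-- The value of `lg` on the unit `sUnit`. -/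
lemma lg_sUnit {k L F : Type} [Field k] [Field L] [NumberField L] [Algebra k L] [Field F]
    [CharP F 3]
    (D : Subgroup (L ≃ₐ[k] L)) [Fintype D] (γ : L ≃ₐ[k] L) (m n : ℕ) (χ : D →* Fˣ)
    (θ : F →+ ZMod 3) (c : (𝓞 L)ˣ) (lg : (𝓞 L)ˣ →* Multiplicative (ZMod 3)) :
    Multiplicative.toAdd (lg (sUnit D γ m n χ θ c)) =
      θ (∑ δ : D, ((χ δ)⁻¹ : Fˣ) * ∑ i ∈ range (3 ^ (n - m)),
        ZMod.castHom (dvd_refl 3) F
          (Multiplicative.toAdd (lg ((δ : L ≃ₐ[k] L) • (γ ^ (3 ^ m)) ^ i • c)))) := by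
  unfold sUnit
  rw [map_prod, toAdd_prod, map_sum]
  refine sum_congr rfl fun δ _ => ?_
  rw [map_pow, toAdd_pow, ng_apply, smul_prod', map_prod, toAdd_prod,
    ← map_sum (ZMod.castHom (dvd_refl 3) F)]
  set z : ZMod 3 := ∑ i ∈ range (3 ^ (n - m)),
    Multiplicative.toAdd (lg ((δ : L ≃ₐ[k] L) • (γ ^ (3 ^ m)) ^ i • c)) with hz
  have h1 : ZMod.castHom (dvd_refl 3) F z = ((z.val : ℕ) : F) := by
    conv_lhs => rw [← ZMod.natCast_zmod_val z]
    rw [map_natCast]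
  rw [h1, mul_comm, ← nsmul_eq_mul, map_nsmul, nsmul_eq_mul, nsmul_eq_mul,
    ZMod.natCast_zmod_val, ZMod.natCast_zmod_val, mul_comm]

end P_NILX

open _root_.Pool.Agent.MU3.P_NILX in
theorem t_NILX (h1 : S_ALGS) (h2 : S_LG) : S_NILX := by
  intro F _ _ k L _ _ _ _ _ _ n m m₀ γ D _ hT hmn S hfix c hK χ θ f hf hprin hχ lam q hgood hncube
  obtain ⟨a, lg, ha1, ha2, hlg, hcube⟩ := h2 L lam q hgood.prime hgood.three hgood.card
  set g₀ : L ≃ₐ[k] L := γ ^ (3 ^ m₀) with hg₀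
  -- the function f'
  let f' : J L → F := fun x => f (g₀ • x) - f x
  have hf' : ∀ x y, f' (x * y) = f' x + f' y := by
    intro x y
    simp only [f', smul_mul', hf]
    ring
  have hcomm : ∀ (σ τ : L ≃ₐ[k] L) (x : J L), σ • τ • x = τ • σ • x := by
    intro σ τ x
    rw [← mul_smul, hT.comm, mul_smul]
  have hf'χ : ∀ (δ : D) (x : J L), f' ((δ : L ≃ₐ[k] L) • x) = (χ δ : F) * f' x := by
    intro δ x
    simp only [f']
    rw [hcomm, hχ, hχ]
    ring
  have hf'prin : ∀ (σ : L ≃ₐ[k] L) (κ : Lˣ), f' (σ • prin κ) = 0 := by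
    intro σ κ
    simp only [f']
    rw [smul_prin, smul_prin, hprin _ ⟨_, rfl⟩, hprin _ ⟨_, rfl⟩, sub_zero]
  have hf'S : ∀ (σ : L ≃ₐ[k] L) (s : J L), s ∈ SJ S L → f' (σ • s) = 0 := by
    intro σ s hs
    simp only [f']
    rw [hcomm, fix_SJ S g₀ hfix s hs, sub_self]
  have h3 : (3 : F) = 0 := by
    have := CharP.cast_eq_zero F 3
    exact_mod_cast this
  -- the exponents
  let b : (L ≃ₐ[k] L) → ℕ := fun h => (Multiplicative.toAdd (lg (h⁻¹ • c))).val
  obtain ⟨κ, I, s, hs, hrel⟩ := hK lam q hgood a ha1 ha2 b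
    (fun h => tr h c _ _ a _ (hlg (h⁻¹ • c)))
  have hsum : ∀ σ : L ≃ₐ[k] L, ∑ h : L ≃ₐ[k] L, (b h : F) * f' (σ • h • vJ lam) = 0 := by
    intro σ
    have e1 : f' (σ • ∏ h : L ≃ₐ[k] L, (h • vJ lam) ^ b h) =
        ∑ h : L ≃ₐ[k] L, (b h : F) * f' (σ • h • vJ lam) := by
      rw [smul_prod', f_prod f' hf']
      refine sum_congr rfl fun h _ => ?_
      rw [smul_pow', f_pow f' hf']
    rw [← e1, hrel, smul_mul', smul_mul', smul_pow', hf', hf', f_pow f' hf', hf'prin, hf'S _ _ hs]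
    push_cast
    rw [h3]
    ring
  -- the function x and the coefficients
  let x : ZMod (3 ^ n) → F := fun i => f' (gz n γ i • vJ lam)
  let β : ZMod (3 ^ n) → F := fun i => ∑ δ : D, (χ δ : F) * (b ((δ : L ≃ₐ[k] L) * gz n γ i) : F)
  have hbij := gz_bij γ D hT.cop hT.ord hT.gen
  have hA : ∀ j, ∑ i, β i * x (i + j) = 0 := by
    intro j
    rw [← hsum (gz n γ j)]
    rw [← hbij.sum_comp (fun h : L ≃ₐ[k] L => (b h : F) * f' (gz n γ j • h • vJ lam))]
    rw [Fintype.sum_prod_type_right]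
    refine sum_congr rfl fun i _ => ?_
    simp only [β, x]
    rw [sum_mul]
    refine sum_congr rfl fun δ _ => ?_
    have e2 : gz n γ j • ((δ : L ≃ₐ[k] L) * gz n γ i) • vJ lam =
        (δ : L ≃ₐ[k] L) • gz n γ (i + j) • vJ lam := by
      rw [← mul_smul, ← mul_smul, gz_add γ hT.ord]
      congr 1
      rw [hT.comm (gz n γ j), mul_assoc]
    rw [e2, hf'χ]
    ring
  have hB : (∑ i ∈ range (3 ^ (n - m)), β (-((3 ^ m * i : ℕ) : ZMod (3 ^ n)))) ≠ 0 := by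
    intro h0
    have hne : lg (sUnit D γ m n χ θ c) ≠ 1 := by
      intro h
      obtain ⟨v, hv⟩ := hcube _ h
      exact hncube v hv
    apply hne
    have e3 := lg_sUnit D γ m n χ θ c lg
    have e4 : (∑ δ : D, ((χ δ)⁻¹ : Fˣ) * ∑ i ∈ range (3 ^ (n - m)),
        ZMod.castHom (dvd_refl 3) F
          (Multiplicative.toAdd (lg ((δ : L ≃ₐ[k] L) • (γ ^ (3 ^ m)) ^ i • c)))) = (0 : F) := by
      rw [← h0]
      simp only [β]
      rw [sum_comm]
      rw [← Equiv.sum_comp (Equiv.inv D)]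
      refine sum_congr rfl fun δ _ => ?_
      rw [mul_sum]
      refine sum_congr rfl fun i _ => ?_
      simp only [Equiv.inv_apply, map_inv, inv_inv, b]
      congr 1
      have e5 : ((δ : L ≃ₐ[k] L) * gz n γ (-((3 ^ m * i : ℕ) : ZMod (3 ^ n))))⁻¹ • c =
          ((δ⁻¹ : D) : L ≃ₐ[k] L) • (γ ^ (3 ^ m)) ^ i • c := by
        rw [gz_neg γ hT.ord, gz_cast γ hT.ord, mul_inv_rev, inv_inv, hT.comm, mul_smul, pow_mul]
        rfl
      rw [e5]
      set z := Multiplicative.toAdd (lg (((δ⁻¹ : D) : L ≃ₐ[k] L) • (γ ^ (3 ^ m)) ^ i • c))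
      conv_lhs => rw [← ZMod.natCast_zmod_val z]
      rw [map_natCast]
    rw [e4, map_zero] at e3
    exact e3
  have hfin := h1 F m n hmn β x hA hB 0
  rw [zero_add] at hfin
  simp only [x, f'] at hfin
  rw [gz_cast γ hT.ord, gz_zero, one_smul] at hfin
  linear_combination hfin

end Pool.Agent.MU3


end

section

/-!
# MU3, module NIL: the action of `γ - 1` on the class group modulo cubes is nilpotent
-/

open NumberField IsDedekindDomain Finset
open scoped nonZeroDivisors Pointwise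

namespace Pool.Agent.MU3

open _root_.Pool.Agent.RI _root_.Pool.Agent.RID

namespace P_NIL

section alg

variable {G I : Type} [Group G] [CommGroup I] [MulDistribMulAction G I]

/-- The operator induced by `g` on `I / P`, additively. -/
noncomputable def opT (P : Subgroup I) (g : G) (hst : ∀ x ∈ P, g • x ∈ P) :
    Additive (I ⧸ P) →+ Additive (I ⧸ P) :=
  MonoidHom.toAdditive (QuotientGroup.map P P (MulDistribMulAction.toMonoidHom I g) hst)

/-- The class of `x` in `I / P`, additively. -/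
def cls (P : Subgroup I) (x : I) : Additive (I ⧸ P) := Additive.ofMul (x : I ⧸ P)

lemma opT_cls (P : Subgroup I) (g : G) (hst : ∀ x ∈ P, g • x ∈ P) (x : I) :
    opT P g hst (cls P x) = cls P (g • x) := rfl

lemma cls_mul (P : Subgroup I) (x y : I) : cls P (x * y) = cls P x + cls P y := rfl

lemma cls_inv (P : Subgroup I) (x : I) : cls P x⁻¹ = - cls P x := rfl

lemma cls_div (P : Subgroup I) (x y : I) : cls P (x / y) = cls P x - cls P y := rfl

lemma cls_eq_zero (P : Subgroup I) (x : I) : cls P x = 0 ↔ x ∈ P := by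
  unfold cls
  rw [ofMul_eq_zero]
  exact QuotientGroup.eq_one_iff x

lemma cls_surj (P : Subgroup I) (v : Additive (I ⧸ P)) : ∃ x : I, cls P x = v := by
  obtain ⟨x, hx⟩ := QuotientGroup.mk_surjective (s := P) (Additive.toMul v)
  exact ⟨x, congrArg Additive.ofMul hx⟩

/-- The algebraic part: if `(g ^ (3 ^ m₀) - 1) (g ^ (3 ^ m) - 1)` kills `I / P`, a group of
exponent `3`, then `(1 - g) ^ (3 ^ (max m m₀ + 1))` kills `I / P`. -/
lemma alg (P : Subgroup I) (g : G) (hst : ∀ x ∈ P, g • x ∈ P) (hcu : ∀ x : I, x ^ 3 ∈ P)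
    (m m₀ : ℕ)
    (h : ∀ x : I, (g ^ (3 ^ m₀) • g ^ (3 ^ m) • x) * (g ^ (3 ^ m) • x)⁻¹ *
      (g ^ (3 ^ m₀) • x)⁻¹ * x ∈ P) (b : I) :
    (dg g)^[3 ^ (max m m₀ + 1)] b ∈ P := by
  classical
  have h3 : ∀ v : Additive (I ⧸ P), 3 • v = 0 := by
    intro v
    obtain ⟨x, rfl⟩ := cls_surj P v
    have : (3 : ℕ) • cls P x = cls P (x ^ 3) := rfl
    rw [this, cls_eq_zero]
    exact hcu x
  let _ : Module (ZMod 3) (Additive (I ⧸ P)) := AddCommGroup.zmodModule h3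
  set T : Module.End (ZMod 3) (Additive (I ⧸ P)) :=
    AddMonoidHom.toZModLinearMap 3 (opT P g hst) with hT
  have hTc : ∀ x : I, T (cls P x) = cls P (g • x) := fun x => rfl
  have hTp : ∀ (j : ℕ) (x : I), (T ^ j) (cls P x) = cls P (g ^ j • x) := by
    intro j
    induction j with
    | zero => intro x; simp
    | succ j ih =>
      intro x
      rw [pow_succ, Module.End.mul_apply, hTc, ih, ← mul_smul, pow_succ]
  have hd : ∀ (l : ℕ) (x : I), ((1 - T) ^ l) (cls P x) = cls P ((dg g)^[l] x) := by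
    intro l
    induction l with
    | zero => intro x; simp
    | succ l ih =>
      intro x
      rw [pow_succ, Module.End.mul_apply, LinearMap.sub_apply, Module.End.one_apply, hTc,
        ← cls_div, ih, Function.iterate_succ_apply, dg_apply]
  have hAB : (T ^ (3 ^ m₀) - 1) * (T ^ (3 ^ m) - 1) = 0 := by
    apply LinearMap.ext
    intro v
    obtain ⟨x, rfl⟩ := cls_surj P v
    rw [Module.End.mul_apply, LinearMap.sub_apply, LinearMap.sub_apply, Module.End.one_apply,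
      Module.End.one_apply, hTp, map_sub, hTp, hTp, LinearMap.zero_apply]
    have h1 := (cls_eq_zero P _).2 (h x)
    rw [cls_mul, cls_mul, cls_mul, cls_inv, cls_inv] at h1
    rw [← h1]
    abel
  have hfr : ∀ j : ℕ, ((Polynomial.X : Polynomial (ZMod 3)) - 1) ^ (3 ^ j) =
      Polynomial.X ^ (3 ^ j) - 1 := by
    intro j
    rw [sub_pow_char_pow, one_pow]
  have hfrT : ∀ j : ℕ, (T - 1) ^ (3 ^ j) = T ^ (3 ^ j) - 1 := by
    intro j
    have h1 := congrArg (Polynomial.aeval T) (hfr j)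
    simpa using h1
  have hle : 3 ^ m₀ + 3 ^ m ≤ 3 ^ (max m m₀ + 1) := by
    have h1 : 3 ^ m₀ ≤ 3 ^ (max m m₀) := Nat.pow_le_pow_right (by norm_num) (le_max_right _ _)
    have h2 : 3 ^ m ≤ 3 ^ (max m m₀) := Nat.pow_le_pow_right (by norm_num) (le_max_left _ _)
    rw [pow_succ]
    omega
  have hz : (T - 1) ^ (3 ^ (max m m₀ + 1)) = 0 := by
    obtain ⟨r, hr⟩ := Nat.exists_eq_add_of_le hle
    rw [hr, pow_add, pow_add, hfrT, hfrT, hAB, zero_mul]
  have hz' : (1 - T) ^ (3 ^ (max m m₀ + 1)) = 0 := by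
    have : (1 - T) = -(T - 1) := by abel
    rw [this, neg_pow, hz, mul_zero]
  rw [← cls_eq_zero, ← hd, hz', LinearMap.zero_apply]

end alg

end P_NIL

open _root_.Pool.Agent.MU3.P_NIL in
/-- NIL. -/
theorem t_NIL (h1 : S_EIG) (h2 : S_STAB) (h3 : S_THDJ) (h4 : S_NILX) : S_NIL := by
  classical
  intro F _ _ _ k L _ _ _ _ _ _ n m m₀ γ D _ hTw hmn S ζ hζ h3S hpr hram hdec c hK hθ b
  set P : Subgroup (J L) := (prin : Lˣ →* J L).range ⊔ (powMonoidHom 3 : J L →* J L).range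
    with hP
  have hprin : ∀ (σ : L ≃ₐ[k] L), ∀ x ∈ (prin : Lˣ →* J L).range,
      σ • x ∈ (prin : Lˣ →* J L).range := by
    rintro σ _ ⟨a, rfl⟩
    rw [smul_prin]
    exact ⟨_, rfl⟩
  have hPmem : ∀ x : J L, x ∈ P ↔ ∃ (a : Lˣ) (y : J L), prin a * y ^ 3 = x := by
    intro x
    rw [hP, Subgroup.mem_sup]
    constructor
    · rintro ⟨_, ⟨a, rfl⟩, _, ⟨y, rfl⟩, rfl⟩
      exact ⟨a, y, rfl⟩
    · rintro ⟨a, y, rfl⟩
      exact ⟨_, ⟨a, rfl⟩, _, ⟨y, rfl⟩, rfl⟩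
  have hst : ∀ (σ : L ≃ₐ[k] L), ∀ x ∈ P, σ • x ∈ P := by
    intro σ x hx
    obtain ⟨a, y, rfl⟩ := (hPmem x).1 hx
    refine (hPmem _).2 ⟨σ • a, σ • y, ?_⟩
    rw [smul_mul', smul_prin, smul_pow']
  have hcu : ∀ x : J L, x ^ 3 ∈ P := by
    intro x
    exact (hPmem _).2 ⟨1, x, by rw [map_one, one_mul]⟩
  have hkey : ∀ x : J L, (γ ^ (3 ^ m₀) • γ ^ (3 ^ m) • x) * (γ ^ (3 ^ m) • x)⁻¹ *
      (γ ^ (3 ^ m₀) • x)⁻¹ * x ∈ P := by
    intro x
    by_contra hx
    obtain ⟨χ, f, hf, hfP, hfχ, hfx⟩ := h1 F (L ≃ₐ[k] L) (J L) D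
      (fun a _ b _ => hTw.comm a b) hTw.cop P hst hcu _ hx
    obtain ⟨θ, hθ'⟩ := hθ χ
    have hf1 : f 1 = 0 := by
      have := hf 1 1
      rw [mul_one] at this
      simpa using this
    have hfi : ∀ y, f y⁻¹ = - f y := by
      intro y
      have := hf y y⁻¹
      rw [mul_inv_cancel, hf1] at this
      linear_combination -this
    have hfp : ∀ y ∈ (prin : Lˣ →* J L).range, f y = 0 := fun y hy =>
      hfP y ((le_sup_left : (prin : Lˣ →* J L).range ≤ P) hy)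
    let U : Subgroup (J L) := (MonoidHom.mk' (fun y : J L => Multiplicative.ofAdd
      (f (γ ^ (3 ^ m₀) • γ ^ (3 ^ m) • y) - f (γ ^ (3 ^ m) • y) -
      f (γ ^ (3 ^ m₀) • y) + f y)) (by
        intro a b
        simp only [smul_mul', hf]
        rw [← ofAdd_add]
        congr 1
        ring)).ker
    have hU : ∀ y : J L, y ∈ U ↔ f (γ ^ (3 ^ m₀) • γ ^ (3 ^ m) • y) - f (γ ^ (3 ^ m) • y) -
        f (γ ^ (3 ^ m₀) • y) + f y = 0 := by
      intro y
      exact (MonoidHom.mem_ker).trans ofAdd_eq_one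
    have hUtop : U = ⊤ := by
      apply h3 L ζ (sUnit D γ m n χ θ c) hζ hθ' S hpr U
      · intro y hy
        rw [hU, hfp _ (hprin _ _ (hprin _ _ hy)), hfp _ (hprin _ _ hy),
          hfp _ (hprin _ _ hy), hfp _ hy]
        simp
      · intro v q hq hqS hcard hnc
        rw [hU]
        exact h4 F k L n m m₀ γ D hTw hmn S hdec c hK χ θ f hf hfp hfχ v q
          (h2 k L S ζ hζ h3S hram hpr v q hq hqS hcard) hnc
    have hxU : x ∈ U := by rw [hUtop]; trivial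
    apply hfx
    rw [hf, hf, hf, hfi, hfi]
    have := (hU x).1 hxU
    linear_combination this
  have hb := P_NIL.alg P γ (hst γ) hcu m m₀ hkey b
  obtain ⟨a, y, hy⟩ := (hPmem _).1 hb
  exact ⟨y, a, by rw [← hy, mul_comm]⟩

end Pool.Agent.MU3


end

section

/-!
# MU3, block K: assembly

`kMAINK`: the growth of the class numbers from the inputs `Inp` (only `N_NUM` is a hypothesis).
-/

namespace Pool.Agent.MU3

theorem kTWK : S_TWK := t_TWK t_GALK _root_.MU3.n_GAL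

theorem kRST : S_RST := t_RST t_GALK kTWK

theorem kPRB : S_PRB := by
  intro p _ K _ B _ hB l hl
  obtain ⟨t, ht⟩ := _root_.MU3.p_NPL _root_.MU3.p_NPC p l K B hl hB
  exact ⟨t, fun n => (ht n inferInstance).1⟩

theorem kM0 : S_M0 := t_M0 kPRB kTWK

theorem kRAMK : S_RAMK := t_RAMK _root_.MU3.n_RAMP

theorem kI3L : S_I3L := t_I3L t_GALK kRST (t_NRM kRST) t_TN

theorem kNIL : S_NIL := t_NIL t_EIG t_STAB (t_THDJ finTHD) (t_NILX t_ALGS t_LG)

theorem kFIN (h : _root_.MU3.N_NUM) : _root_.MU3.N_FIN :=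
  _root_.MU3.n_FIN (_root_.MU3.n_AMB _root_.MU3.n_AMBA _root_.MU3.n_AMBI _root_.MU3.n_AMBU)
    (_root_.MU3.n_NILR _root_.MU3.n_NIL) _root_.MU3.n_STEP h _root_.MU3.n_GAL _root_.MU3.n_RAMP

theorem kMAINK (h : _root_.MU3.N_NUM) : S_MAINK :=
  t_MAINK t_GALK kTWK kM0 kRAMK t_MONO t_UNI kI3L KIN_thm kNIL (kFIN h)

end Pool.Agent.MU3


end

section

/-!
# MUX, block K: module NILP (helper45)

The action of `γ - 1` on the class group modulo `p`-th powers is nilpotent, with an exponent which does not depend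
on the layer. The relations are used for the norms from `M`, whose image has index at most `[M : L]`.
-/

set_option autoImplicit false

open NumberField IsDedekindDomain Finset Filter Topology
open scoped nonZeroDivisors Pointwise

namespace Pool.Agent.MUXK

open _root_.Pool.Agent.MU3 _root_.Pool.Agent.RI _root_.Pool.Agent.RID _root_.Pool.Agent.MU3.P_NIL

namespace NILP

section alg

variable {G I : Type} [Group G] [CommGroup I] [MulDistribMulAction G I]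

lemma mod_p (p : ℕ) (P : Subgroup I) (hcu : ∀ x : I, x ^ p ∈ P) (v : Additive (I ⧸ P)) :
    p • v = 0 := by
  obtain ⟨x, rfl⟩ := cls_surj P v
  have : (p : ℕ) • cls P x = cls P (x ^ p) := rfl
  rw [this, cls_eq_zero]
  exact hcu x

lemma frob_end (p : ℕ) [Fact p.Prime] {V : Type} [AddCommGroup V] [Module (ZMod p) V]
    (T : Module.End (ZMod p) V) (j : ℕ) : (T - 1) ^ (p ^ j) = T ^ (p ^ j) - 1 := by
  have hfr : ((Polynomial.X : Polynomial (ZMod p)) - 1) ^ (p ^ j) =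
      Polynomial.X ^ (p ^ j) - 1 := by
    rw [sub_pow_char_pow, one_pow]
  have h1 := congrArg (Polynomial.aeval T) hfr
  simpa using h1

lemma T_pow (p : ℕ) {V : Type} [AddCommGroup V] [Module (ZMod p) V] (T : Module.End (ZMod p) V)
    (g : G) (c : I → V) (hT : ∀ x, T (c x) = c (g • x)) (j : ℕ) :
    ∀ x : I, (T ^ j) (c x) = c (g ^ j • x) := by
  induction j with
  | zero => intro x; simp
  | succ j ih =>
    intro x
    rw [pow_succ, Module.End.mul_apply, hT, ih, ← mul_smul, pow_succ]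

lemma dT_pow (p : ℕ) {V : Type} [AddCommGroup V] [Module (ZMod p) V] (T : Module.End (ZMod p) V)
    (g : G) (c : I → V) (hT : ∀ x, T (c x) = c (g • x)) (hc : ∀ x y, c (x / y) = c x - c y)
    (l : ℕ) : ∀ x : I, ((1 - T) ^ l) (c x) = c ((dg g : I →* I)^[l] x) := by
  induction l with
  | zero => intro x; simp
  | succ l ih =>
    intro x
    rw [pow_succ, Module.End.mul_apply, LinearMap.sub_apply, Module.End.one_apply, hT,
      ← hc, ih, Function.iterate_succ_apply, dg_apply]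

lemma two_frob_aux (p : ℕ) [Fact p.Prime] {V : Type} [AddCommGroup V] [Module (ZMod p) V]
    (T : Module.End (ZMod p) V) (g : G) (c : I → V) (hT : ∀ x, T (c x) = c (g • x))
    (hc : ∀ x y, c (x / y) = c x - c y) (hm : ∀ x y, c (x * y) = c x + c y)
    (hi : ∀ x, c x⁻¹ = - c x) (a b : ℕ) (x : I) :
    c ((dg g : I →* I)^[p ^ a + p ^ b] x) =
      c ((g ^ (p ^ a) • g ^ (p ^ b) • x) * (g ^ (p ^ b) • x)⁻¹ * (g ^ (p ^ a) • x)⁻¹ * x) ∨
    c ((dg g : I →* I)^[p ^ a + p ^ b] x) =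
      - c ((g ^ (p ^ a) • g ^ (p ^ b) • x) * (g ^ (p ^ b) • x)⁻¹ * (g ^ (p ^ a) • x)⁻¹ * x) := by
  have hTp := T_pow p T g c hT
  have hd := dT_pow p T g c hT hc
  have hY : ((T ^ (p ^ a) - 1) * (T ^ (p ^ b) - 1)) (c x) =
      c ((g ^ (p ^ a) • g ^ (p ^ b) • x) * (g ^ (p ^ b) • x)⁻¹ * (g ^ (p ^ a) • x)⁻¹ * x) := by
    rw [Module.End.mul_apply, LinearMap.sub_apply, LinearMap.sub_apply, Module.End.one_apply,
      Module.End.one_apply, hTp, map_sub, hTp, hTp, hm, hm, hm, hi, hi]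
    abel
  have h1 : (1 - T) ^ (p ^ a + p ^ b) =
      (-1) ^ (p ^ a + p ^ b) * ((T ^ (p ^ a) - 1) * (T ^ (p ^ b) - 1)) := by
    have : (1 - T) = -(T - 1) := by abel
    rw [this, neg_pow, pow_add (T - 1), frob_end, frob_end]
  rcases neg_one_pow_eq_or (Module.End (ZMod p) V) (p ^ a + p ^ b) with h2 | h2
  · left
    rw [← hd, h1, h2, one_mul, hY]
  · right
    rw [← hd, h1, h2, neg_one_mul, LinearMap.neg_apply, hY]

/-- `(1 - g) ^ (p ^ a + p ^ b)` is `(g ^ (p ^ a) - 1) (g ^ (p ^ b) - 1)` up to a sign. -/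
lemma two_frob (p : ℕ) [Fact p.Prime] (P : Subgroup I) (g : G) (hst : ∀ x ∈ P, g • x ∈ P)
    (hcu : ∀ x : I, x ^ p ∈ P) (a b : ℕ) (x : I) :
    cls P ((dg g : I →* I)^[p ^ a + p ^ b] x) =
      cls P ((g ^ (p ^ a) • g ^ (p ^ b) • x) * (g ^ (p ^ b) • x)⁻¹ * (g ^ (p ^ a) • x)⁻¹ * x) ∨
    cls P ((dg g : I →* I)^[p ^ a + p ^ b] x) =
      - cls P ((g ^ (p ^ a) • g ^ (p ^ b) • x) * (g ^ (p ^ b) • x)⁻¹ * (g ^ (p ^ a) • x)⁻¹ * x) :=
  letI : Module (ZMod p) (Additive (I ⧸ P)) := AddCommGroup.zmodModule (mod_p p P hcu)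
  two_frob_aux p (AddMonoidHom.toZModLinearMap p (opT P g hst)) g (cls P) (fun _ => rfl)
    (cls_div P) (cls_mul P) (cls_inv P) a b x

lemma fin_nil_aux (p : ℕ) [Fact p.Prime] {V : Type} [AddCommGroup V] [Module (ZMod p) V]
    [Finite V] (T : Module.End (ZMod p) V) (g : G) (c : I → V) (hT : ∀ x, T (c x) = c (g • x))
    (hc : ∀ x y, c (x / y) = c x - c y) (hs : ∀ v, ∃ x, c x = v) (n d : ℕ)
    (hg : g ^ (p ^ n) = 1) (hd : Nat.card V ≤ d) (b : I) : c ((dg g : I →* I)^[d] b) = 0 := by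
  have hTp := T_pow p T g c hT
  have hdl := dT_pow p T g c hT hc
  have h1 : (1 - T) ^ (p ^ n) = 0 := by
    have h2 : (1 - T) = -(T - 1) := by abel
    have h3 : T ^ (p ^ n) = 1 := by
      apply LinearMap.ext
      intro v
      obtain ⟨x, rfl⟩ := hs v
      rw [hTp, hg, one_smul, Module.End.one_apply]
    rw [h2, neg_pow, frob_end, h3, sub_self, mul_zero]
  have : Module.Finite (ZMod p) V := Module.Finite.of_finite
  have hcard : p ^ Module.finrank (ZMod p) V = Nat.card V := by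
    have h2 := Module.natCard_eq_pow_finrank (K := ZMod p) (V := V)
    rw [Nat.card_zmod] at h2
    exact h2.symm
  have hle : Module.finrank (ZMod p) V ≤ d := by
    have h2 : Module.finrank (ZMod p) V < p ^ Module.finrank (ZMod p) V :=
      Nat.lt_pow_self (Fact.out : p.Prime).one_lt
    omega
  have h4 := Module.End.ker_pow_le_ker_pow_finrank (1 - T) (p ^ n)
  rw [h1, LinearMap.ker_zero, top_le_iff, LinearMap.ker_eq_top] at h4
  have h5 : (1 - T) ^ d = 0 := pow_eq_zero_of_le hle h4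
  rw [← hdl, h5, LinearMap.zero_apply]

/-- A unipotent operator on a group of exponent `p` and of order at most `d`. -/
lemma fin_nil (p : ℕ) [Fact p.Prime] (P : Subgroup I) (g : G) (hst : ∀ x ∈ P, g • x ∈ P)
    (hcu : ∀ x : I, x ^ p ∈ P) (n d : ℕ) (hg : g ^ (p ^ n) = 1) (hi : P.index ≠ 0)
    (hd : P.index ≤ d) (b : I) : (dg g : I →* I)^[d] b ∈ P := by
  have h1 : Finite (I ⧸ P) := Subgroup.index_ne_zero_iff_finite.1 hi
  have h2 : Finite (Additive (I ⧸ P)) := h1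
  rw [← cls_eq_zero]
  exact letI : Module (ZMod p) (Additive (I ⧸ P)) := AddCommGroup.zmodModule (mod_p p P hcu)
  fin_nil_aux p (AddMonoidHom.toZModLinearMap p (opT P g hst)) g (cls P) (fun _ => rfl)
    (cls_div P) (cls_surj P) n d hg hd b

lemma iter_mem (P : Subgroup I) (g : G) (hst : ∀ x ∈ P, g • x ∈ P) (l : ℕ) (x : I)
    (hx : x ∈ P) : (dg g)^[l] x ∈ P := by
  induction l with
  | zero => exact hx
  | succ l ih =>
    rw [Function.iterate_succ_apply', dg_apply]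
    exact P.div_mem ih (hst _ ih)

lemma iter_mul (g : G) (l : ℕ) (x y : I) :
    (dg g)^[l] (x * y) = (dg g)^[l] x * (dg g)^[l] y := by
  induction l with
  | zero => rfl
  | succ l ih =>
    rw [Function.iterate_succ_apply', Function.iterate_succ_apply',
      Function.iterate_succ_apply', ih, map_mul]

end alg

/-- The prime below a prime of degree one. -/
lemma card_under {L M : Type} [Field L] [NumberField L] [Field M] [NumberField M] [Algebra L M]
    (w : HeightOneSpectrum (𝓞 M)) (q : ℕ) (hq : q.Prime) (hc : Nat.card (𝓞 M ⧸ w.asIdeal) = q) :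
    Nat.card (𝓞 L ⧸ (w.asIdeal.under (𝓞 L))) = q := by
  set v : HeightOneSpectrum (𝓞 L) :=
    ⟨w.asIdeal.under (𝓞 L), inferInstance, Ideal.under_ne_bot (𝓞 L) w.ne_bot⟩ with hv
  have hprime : v.asIdeal.IsPrime := v.isPrime
  have hlo : w.asIdeal.LiesOver v.asIdeal := ⟨rfl⟩
  have hwprime : w.asIdeal.IsPrime := w.isPrime
  have h9 := Ideal.absNorm_pow_inertiaDeg v.asIdeal w.asIdeal
  have hw : Ideal.absNorm w.asIdeal = q := by
    rw [Ideal.absNorm_apply, Submodule.cardQuot_apply]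
    exact hc
  have h11 : Ideal.absNorm v.asIdeal ∣ q := by
    rw [← hw, ← h9]
    exact dvd_pow_self _ (Ideal.inertiaDeg_pos _ _).ne'
  have h10 : Ideal.absNorm v.asIdeal = q := by
    rcases (Nat.dvd_prime hq).1 h11 with h12 | h12
    · exfalso
      rw [h12, one_pow, hw] at h9
      exact hq.one_lt.ne h9
    · exact h12
  rw [Ideal.absNorm_apply, Submodule.cardQuot_apply] at h10
  exact h10

end NILP

open _root_.Pool.Agent.MUXK.NILP in
theorem t_NILP (h1 : S_EIGX) (h2 : S_STABX) (h3 : S_THDX) (h4 : S_NRJ) (h5 : S_NIX)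
    (h6 : S_NILXX) : S_NILP := by
  classical
  intro p _ F _ _ _ k L M _ _ _ _ _ _ _ _ _ _ _ _ n m₁ m₀ γ D _ hTw hmn S ζ hζ h2S hpS hpr
    hram hdec c hK hθ b
  have hp : p.Prime := Fact.out
  set P : Subgroup (J L) := (prin : Lˣ →* J L).range ⊔ (powMonoidHom p : J L →* J L).range
    with hP
  have hprin : ∀ (σ : L ≃ₐ[k] L), ∀ x ∈ (prin : Lˣ →* J L).range,
      σ • x ∈ (prin : Lˣ →* J L).range := by
    rintro σ _ ⟨a, rfl⟩
    rw [smul_prin]
    exact ⟨_, rfl⟩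
  have hPmem : ∀ x : J L, x ∈ P ↔ ∃ (a : Lˣ) (y : J L), prin a * y ^ p = x := by
    intro x
    rw [hP, Subgroup.mem_sup]
    constructor
    · rintro ⟨_, ⟨a, rfl⟩, _, ⟨y, rfl⟩, rfl⟩
      exact ⟨a, y, rfl⟩
    · rintro ⟨a, y, rfl⟩
      exact ⟨_, ⟨a, rfl⟩, _, ⟨y, rfl⟩, rfl⟩
  have hst : ∀ (σ : L ≃ₐ[k] L), ∀ x ∈ P, σ • x ∈ P := by
    intro σ x hx
    obtain ⟨a, y, rfl⟩ := (hPmem x).1 hx
    refine (hPmem _).2 ⟨σ • a, σ • y, ?_⟩
    rw [smul_mul', smul_prin, smul_pow']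
  have hcu : ∀ x : J L, x ^ p ∈ P := by
    intro x
    exact (hPmem _).2 ⟨1, x, by rw [map_one, one_mul]⟩
  obtain ⟨N, hN1, hN2, hN3⟩ := h4 k L M
  -- restriction and extension of automorphisms
  have hres : ∀ σ : M ≃ₐ[k] M, ∃ τ : L ≃ₐ[k] L, ∀ x : L,
      algebraMap L M (τ x) = σ (algebraMap L M x) := by
    intro σ
    exact ⟨σ.restrictNormal L, fun x => σ.restrictNormal_commutes L x⟩
  have hext : ∃ σ : M ≃ₐ[k] M, ∀ x : L, algebraMap L M (γ x) = σ (algebraMap L M x) := by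
    obtain ⟨σ, hσ⟩ := AlgEquiv.restrictNormalHom_surjective (F := k) (K₁ := L) M γ
    refine ⟨σ, fun x => ?_⟩
    rw [← hσ]
    exact σ.restrictNormal_commutes L x
  obtain ⟨γ', hγ'⟩ := hext
  have hNγ : ∀ z : J M, N (γ' • z) = γ • N z := hN3 γ' γ hγ'
  -- the first part
  have hkey : ∀ z : J M, (dg γ)^[p ^ m₀ + p ^ m₁ + 1] (N z) ∈ P := by
    intro z
    by_contra hx
    obtain ⟨χ, f, hf, hfP, hfχ, hfx⟩ := h1 p F (L ≃ₐ[k] L) (J L) D
      (fun a _ b _ => hTw.comm a b) hTw.cop P hst hcu _ hx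
    obtain ⟨m, hm, θ, hθ'⟩ := hθ χ
    have hf1 : f 1 = 0 := by
      have := hf 1 1
      rw [mul_one] at this
      simpa using this
    have hfi : ∀ y, f y⁻¹ = - f y := by
      intro y
      have := hf y y⁻¹
      rw [mul_inv_cancel, hf1] at this
      linear_combination -this
    have hfp : ∀ y ∈ (prin : Lˣ →* J L).range, f y = 0 := fun y hy =>
      hfP y ((le_sup_left : (prin : Lˣ →* J L).range ≤ P) hy)
    have hfcls : ∀ y y' : J L, cls P y = cls P y' → f y = f y' := by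
      intro y y' h
      have h7 : cls P (y * y'⁻¹) = 0 := by
        rw [cls_mul, cls_inv, h]
        exact add_neg_cancel (cls P y')
      have h8 := hfP _ ((cls_eq_zero P _).1 h7)
      rw [hf, hfi] at h8
      linear_combination h8
    -- the functional at all translates
    let Φ : ℕ → J L → F := fun j y =>
      f (γ ^ j • γ ^ (p ^ m₀) • γ ^ (p ^ m) • y) - f (γ ^ j • γ ^ (p ^ m) • y) -
      f (γ ^ j • γ ^ (p ^ m₀) • y) + f (γ ^ j • y)
    have hΦmul : ∀ j y y', Φ j (y * y') = Φ j y + Φ j y' := by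
      intro j y y'
      simp only [Φ, smul_mul', hf]
      ring
    have hΦ1 : ∀ j, Φ j 1 = 0 := by
      intro j
      have := hΦmul j 1 1
      rw [mul_one] at this
      simpa using this
    have hΦinv : ∀ j y, Φ j y⁻¹ = - Φ j y := by
      intro j y
      have := hΦmul j y y⁻¹
      rw [mul_inv_cancel, hΦ1] at this
      linear_combination -this
    let U : Subgroup (J L) :=
      { carrier := {y | ∀ j, Φ j y = 0}
        one_mem' := fun j => hΦ1 j
        mul_mem' := by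
          intro a b ha hb j
          rw [hΦmul, ha j, hb j, add_zero]
        inv_mem' := by
          intro a ha j
          rw [hΦinv, ha j, neg_zero] }
    have hU : ∀ y : J L, y ∈ U ↔ ∀ j, Φ j y = 0 := fun y => Iff.rfl
    have hcm : ∀ (σ τ : L ≃ₐ[k] L) (y : J L), σ • τ • y = τ • σ • y := by
      intro σ τ y
      rw [← mul_smul, ← mul_smul, hTw.comm]
    have hUγ : ∀ y ∈ U, γ • y ∈ U := by
      intro y hy j
      have := hy (j + 1)
      simp only [Φ] at this ⊢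
      have e : ∀ y : J L, γ ^ (j + 1) • y = γ ^ j • γ • y := by
        intro y
        rw [pow_succ, mul_smul]
      rw [e, e, e, e] at this
      rw [hcm (γ ^ (p ^ m)) γ, hcm (γ ^ (p ^ m₀)) γ, hcm (γ ^ (p ^ m₀)) γ]
      exact this
    have hUδ : ∀ δ ∈ D, ∀ y ∈ U, δ • y ∈ U := by
      intro δ hδ y hy j
      have := hy j
      simp only [Φ] at this ⊢
      have e : ∀ y : J L, f (δ • y) = (χ ⟨δ, hδ⟩ : F) * f y := fun y => hfχ ⟨δ, hδ⟩ y
      have e1 : γ ^ j • γ ^ (p ^ m₀) • γ ^ (p ^ m) • δ • y =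
          δ • γ ^ j • γ ^ (p ^ m₀) • γ ^ (p ^ m) • y := by
        rw [hcm (γ ^ (p ^ m)) δ, hcm (γ ^ (p ^ m₀)) δ, hcm (γ ^ j) δ]
      have e2 : γ ^ j • γ ^ (p ^ m) • δ • y = δ • γ ^ j • γ ^ (p ^ m) • y := by
        rw [hcm (γ ^ (p ^ m)) δ, hcm (γ ^ j) δ]
      have e3 : γ ^ j • γ ^ (p ^ m₀) • δ • y = δ • γ ^ j • γ ^ (p ^ m₀) • y := by
        rw [hcm (γ ^ (p ^ m₀)) δ, hcm (γ ^ j) δ]
      have e4 : γ ^ j • δ • y = δ • γ ^ j • y := hcm _ _ _
      rw [e1, e2, e3, e4, e, e, e, e]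
      linear_combination (χ ⟨δ, hδ⟩ : F) * this
    have hUσ : ∀ (σ : L ≃ₐ[k] L), ∀ y ∈ U, σ • y ∈ U := by
      intro σ y hy
      obtain ⟨δ, hδ, i, rfl⟩ := hTw.gen σ
      rw [mul_smul]
      apply hUδ δ hδ
      clear hδ
      induction i with
      | zero => simpa using hy
      | succ i ih =>
        rw [pow_succ', mul_smul]
        exact hUγ _ ih
    have hUprin : (prin : Lˣ →* J L).range ≤ U := by
      intro y hy j
      simp only [Φ]
      rw [hfp _ (hprin _ _ (hprin _ _ (hprin _ _ hy))), hfp _ (hprin _ _ (hprin _ _ hy)),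
        hfp _ (hprin _ _ (hprin _ _ hy)), hfp _ (hprin _ _ hy)]
      simp
    have hζp : IsPrimitiveRoot (ζ ^ 2) p := hζ.pow (by have := hp.pos; omega) rfl
    let t : (𝓞 L)ˣ := sUnitP p D γ m n χ θ c
    let t' : (𝓞 M)ˣ := Units.map (algebraMap (𝓞 L) (𝓞 M)).toMonoidHom t
    have ht'1 : ((t' : 𝓞 M) : M) = algebraMap L M ((t : 𝓞 L) : L) := rfl
    have hUM := h3 p k M (ζ ^ 2) t' hζp (by
        intro y hy
        exact hθ' y (hy.trans ht'1)) S hpr (U.comap N) (by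
        rintro _ ⟨a, rfl⟩
        rw [Subgroup.mem_comap, hN1]
        exact hUprin ⟨_, rfl⟩) (by
        intro σ x hx
        obtain ⟨τ, hτ⟩ := hres σ
        rw [Subgroup.mem_comap, hN3 σ τ hτ]
        exact hUσ τ _ hx) (by
        intro w q hq hqS hcard hnt
        rw [Subgroup.mem_comap]
        -- the prime below
        set v : HeightOneSpectrum (𝓞 L) :=
          ⟨w.asIdeal.under (𝓞 L), inferInstance, Ideal.under_ne_bot (𝓞 L) w.ne_bot⟩ with hv
        have hvw : w.asIdeal.under (𝓞 L) = v.asIdeal := rfl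
        have hcv : Nat.card (𝓞 L ⧸ v.asIdeal) = q := card_under w q hq hcard
        have hab : HasAb L M v q := ⟨w, rfl, hcard⟩
        have hgood : GoodPrP p k L S v q :=
          h2 p k L M S ζ hζ h2S hpS hpr hram v q hq hqS hcv hab
        rw [(hN2 w v rfl).2 (hcard.trans hcv.symm)]
        refine h6 p F k L n m m₀ γ D hTw (hm.trans hmn) S hdec c χ θ f hf hfp hfχ v q hgood
          (hK v q hgood hab) ?_
        intro a ha
        apply hnt (algebraMap (𝓞 L) (𝓞 M) a)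
        have ha' : algebraMap (𝓞 L) (𝓞 M) ((t : 𝓞 L) - a ^ p) ∈ w.asIdeal := ha
        rw [map_sub, map_pow] at ha'
        exact ha') γ' z
    have hx1 : dg γ (N z) ∈ U := by
      rw [Subgroup.mem_comap, map_mul, map_inv, hNγ] at hUM
      have := U.inv_mem hUM
      rw [dg_apply, div_eq_mul_inv]
      rw [mul_inv_rev, inv_inv] at this
      exact this
    have hx2 : (dg γ)^[p ^ m₁ - p ^ m] (dg γ (N z)) ∈ U :=
      iter_mem U γ hUγ _ _ hx1
    have hx3 := (hU _).1 hx2 0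
    simp only [Φ, pow_zero, one_smul] at hx3
    have hle : p ^ m ≤ p ^ m₁ := Nat.pow_le_pow_right hp.pos hm
    have hv : (dg γ)^[p ^ m₀ + p ^ m₁ + 1] (N z) =
        (dg γ)^[p ^ m₀ + p ^ m] ((dg γ)^[p ^ m₁ - p ^ m] (dg γ (N z))) := by
      rw [← Function.iterate_succ_apply, ← Function.iterate_add_apply]
      congr 1
      omega
    rw [hv] at hfx
    apply hfx
    have hY0 : f ((γ ^ (p ^ m₀) • γ ^ (p ^ m) • (dg γ)^[p ^ m₁ - p ^ m] (dg γ (N z))) *
        (γ ^ (p ^ m) • (dg γ)^[p ^ m₁ - p ^ m] (dg γ (N z)))⁻¹ *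
        (γ ^ (p ^ m₀) • (dg γ)^[p ^ m₁ - p ^ m] (dg γ (N z)))⁻¹ *
        (dg γ)^[p ^ m₁ - p ^ m] (dg γ (N z))) = 0 := by
      rw [hf, hf, hf, hfi, hfi]
      linear_combination hx3
    rcases two_frob p P γ (hst γ) hcu m₀ m ((dg γ)^[p ^ m₁ - p ^ m] (dg γ (N z))) with h7 | h7
    · rw [hfcls _ _ h7, hY0]
    · rw [← cls_inv] at h7
      rw [hfcls _ _ h7, hfi, hY0, neg_zero]
  -- the second part
  set W : Subgroup (J L) := N.range ⊔ P with hW
  have hWmem : ∀ x : J L, x ∈ W ↔ ∃ (z : J M), ∃ y ∈ P, N z * y = x := by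
    intro x
    rw [hW, Subgroup.mem_sup]
    constructor
    · rintro ⟨_, ⟨z, rfl⟩, y, hy, rfl⟩
      exact ⟨z, y, hy, rfl⟩
    · rintro ⟨z, y, hy, rfl⟩
      exact ⟨_, ⟨z, rfl⟩, y, hy, rfl⟩
  have hWst : ∀ x ∈ W, γ • x ∈ W := by
    intro x hx
    obtain ⟨z, y, hy, rfl⟩ := (hWmem x).1 hx
    refine (hWmem _).2 ⟨γ' • z, γ • y, hst γ _ hy, ?_⟩
    rw [smul_mul', hNγ]
  have hWi := h5 L M S hpr W (le_sup_left.trans (le_sup_right : P ≤ W)) (by
    rintro v q hq hqS hcard ⟨w, hw1, hw2⟩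
    have h7 := (hN2 w v hw1).2 (by rw [hw2, hcard])
    rw [← h7]
    exact (hWmem _).2 ⟨vJ w, 1, P.one_mem, mul_one _⟩)
  have hb1 := fin_nil p W γ hWst (fun x => (le_sup_right : P ≤ W) (hcu x)) n
    (Module.finrank L M) (by rw [← hTw.ord, pow_orderOf_eq_one]) hWi.1 hWi.2 b
  obtain ⟨z, y, hy, hzy⟩ := (hWmem _).1 hb1
  have hb2 : (dg γ)^[p ^ m₀ + p ^ m₁ + 1] ((dg γ)^[Module.finrank L M] b) ∈ P := by
    rw [← hzy, iter_mul]
    exact P.mul_mem (hkey z) (iter_mem P γ (hst γ) _ _ hy)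
  have hle : p ^ m₀ + p ^ m₁ ≤ p ^ (max m₁ m₀ + 1) := by
    have h7 : p ^ m₀ ≤ p ^ (max m₁ m₀) := Nat.pow_le_pow_right hp.pos (le_max_right _ _)
    have h8 : p ^ m₁ ≤ p ^ (max m₁ m₀) := Nat.pow_le_pow_right hp.pos (le_max_left _ _)
    have h9 : 2 * p ^ (max m₁ m₀) ≤ p * p ^ (max m₁ m₀) := Nat.mul_le_mul_right _ hp.two_le
    rw [pow_succ']
    omega
  obtain ⟨r, hr⟩ := Nat.exists_eq_add_of_le hle
  have hb3 : (dg γ)^[p ^ (max m₁ m₀ + 1) + 1 + Module.finrank L M] b ∈ P := by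
    have h7 : p ^ (max m₁ m₀ + 1) + 1 + Module.finrank L M =
        r + ((p ^ m₀ + p ^ m₁ + 1) + Module.finrank L M) := by omega
    rw [h7, Function.iterate_add_apply, Function.iterate_add_apply]
    exact iter_mem P γ (hst γ) _ _ hb2
  obtain ⟨a, y', hy'⟩ := (hPmem _).1 hb3
  exact ⟨y', a, by rw [← hy', mul_comm]⟩

end Pool.Agent.MUXK


end

section

/-!
# MUX, block K: Kummer extensions of prime degree, `S_KUMX`
-/

set_option autoImplicit false

open NumberField IsDedekindDomain Ideal Filter Topology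
open scoped nonZeroDivisors Pointwise

namespace Pool.Agent.MUXK

open _root_.Pool.Agent.MU3 _root_.Pool.Agent.RI _root_.Pool.Agent.RID _root_.Pool.Agent.Lib_helper28.FROB

namespace KUM

variable {L M : Type} [Field L] [NumberField L] [Field M] [NumberField M] [Algebra L M]
  [IsGalois L M]

/-- a conjugate of `y` is `ξ y` with a nontrivial root of unity `ξ` of `L` -/
theorem conj_eq {p : ℕ} (hp : p.Prime) {ζ t : 𝓞 L} (hζ : IsPrimitiveRoot ζ p) {y : 𝓞 M}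
    (hy : y ^ p = algebraMap (𝓞 L) (𝓞 M) t) {σ : Gal(M/L)} (hσ : σ • y ≠ y) :
    ∃ ξ : 𝓞 L, ξ ^ p = 1 ∧ ξ ≠ 1 ∧ σ • y = algebraMap (𝓞 L) (𝓞 M) ξ * y := by
  have hz : IsPrimitiveRoot (algebraMap (𝓞 L) (𝓞 M) ζ) p :=
    hζ.map_of_injective (FaithfulSMul.algebraMap_injective (𝓞 L) (𝓞 M))
  have h1 : (σ • y) ^ p - y ^ p = 0 := by
    rw [← smul_pow', hy, smul_algebraMap, sub_self]
  rw [hz.pow_sub_pow_eq_prod_sub_mul _ _ hp.pos, Finset.prod_eq_zero_iff] at h1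
  obtain ⟨x, hx, h2⟩ := h1
  rw [Polynomial.mem_nthRootsFinset hp.pos] at hx
  have : NeZero p := ⟨hp.ne_zero⟩
  obtain ⟨i, -, hi⟩ := hz.eq_pow_of_pow_eq_one hx
  have h3 : σ • y = algebraMap (𝓞 L) (𝓞 M) (ζ ^ i) * y := by
    rw [map_pow, hi]
    exact sub_eq_zero.1 h2
  refine ⟨ζ ^ i, by rw [← pow_mul, mul_comm, pow_mul, hζ.pow_eq_one, one_pow], ?_, h3⟩
  intro h
  rw [h, map_one, one_mul] at h3
  exact hσ h3

/-- a nontrivial `p`-th root of unity `ξ`: `1 - ξ` divides `p` -/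
theorem dvd_p {R : Type} [CommRing R] [IsDomain R] {p : ℕ} {ξ : R} (h1 : ξ ^ p = 1) (h2 : ξ ≠ 1) :
    (1 - ξ) ∣ (p : R) := by
  have h3 : ∑ i ∈ Finset.range p, ξ ^ i = 0 := by
    have h := mul_geom_sum ξ p
    rw [h1, sub_self] at h
    rcases mul_eq_zero.1 h with h | h
    · exact absurd (sub_eq_zero.1 h) h2
    · exact h
  have h4 : (p : R) = ∑ i ∈ Finset.range p, (1 - ξ ^ i) := by
    rw [Finset.sum_sub_distrib, h3, sub_zero]
    simp
  rw [h4]
  exact Finset.dvd_sum fun i _ => one_sub_dvd_one_sub_pow ξ i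

/-- No prime above `v` is stable under `σ`. -/
theorem not_stable {p : ℕ} (hp : p.Prime) {ζ t : 𝓞 L} (hζ : IsPrimitiveRoot ζ p) {y : 𝓞 M}
    (hy : y ^ p = algebraMap (𝓞 L) (𝓞 M) t) {σ : Gal(M/L)} (hσ : σ • y ≠ y)
    {v : Ideal (𝓞 L)} (hv : v.IsPrime) (h3 : (p : 𝓞 L) ∉ v) (ht : t ∉ v) {a : 𝓞 L}
    (ha : t - a ^ p ∈ v) {w : Ideal (𝓞 M)} (hw : w.IsPrime) (hwv : w.LiesOver v) :
    σ • w ≠ w := by
  intro hst
  have hav : a ∉ v := by
    intro h
    apply ht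
    have : t = (t - a ^ p) + a ^ p := by ring
    rw [this]
    exact v.add_mem ha (v.pow_mem_of_mem h p hp.pos)
  have hz : IsPrimitiveRoot (algebraMap (𝓞 L) (𝓞 M) ζ) p :=
    hζ.map_of_injective (FaithfulSMul.algebraMap_injective (𝓞 L) (𝓞 M))
  -- `w` contains a factor
  have hmem : ∀ b : 𝓞 L, algebraMap (𝓞 L) (𝓞 M) b ∈ w ↔ b ∈ v := by
    intro b
    rw [hwv.over]
    exact Iff.rfl
  have hfac : ∃ i : ℕ, y - algebraMap (𝓞 L) (𝓞 M) (ζ ^ i * a) ∈ w := by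
    have e1 : algebraMap (𝓞 L) (𝓞 M) (t - a ^ p) ∈ w := (hmem _).2 ha
    rw [map_sub, ← hy, map_pow, hz.pow_sub_pow_eq_prod_sub_mul _ _ hp.pos,
      Ideal.IsPrime.prod_mem_iff] at e1
    obtain ⟨x, hx, h2⟩ := e1
    rw [Polynomial.mem_nthRootsFinset hp.pos] at hx
    have : NeZero p := ⟨hp.ne_zero⟩
    obtain ⟨i, -, hi⟩ := hz.eq_pow_of_pow_eq_one hx
    refine ⟨i, ?_⟩
    rw [map_mul, map_pow, hi]
    exact h2
  obtain ⟨i, hi⟩ := hfac
  obtain ⟨ξ, hξp, hξ1, hσy⟩ := conj_eq hp hζ hy hσ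
  have h4 : σ • (y - algebraMap (𝓞 L) (𝓞 M) (ζ ^ i * a)) ∈ w := by
    rw [← hst]
    exact Ideal.smul_mem_pointwise_smul σ _ w hi
  rw [smul_sub, smul_algebraMap, hσy] at h4
  have h5 : algebraMap (𝓞 L) (𝓞 M) ((1 - ξ) * (ζ ^ i * a)) ∈ w := by
    have e : algebraMap (𝓞 L) (𝓞 M) ((1 - ξ) * (ζ ^ i * a)) =
        algebraMap (𝓞 L) (𝓞 M) ξ * (y - algebraMap (𝓞 L) (𝓞 M) (ζ ^ i * a)) -
        (algebraMap (𝓞 L) (𝓞 M) ξ * y - algebraMap (𝓞 L) (𝓞 M) (ζ ^ i * a)) := by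
      simp only [map_mul, map_sub, map_one]
      ring
    rw [e]
    exact w.sub_mem (w.mul_mem_left _ hi) h4
  have h6 : (1 - ξ) * (ζ ^ i * a) ∈ v := (hmem _).1 h5
  have h7 : (p : 𝓞 L) * (ζ ^ i * a) ∈ v := by
    obtain ⟨q, hq⟩ := dvd_p hξp hξ1
    rw [hq, mul_comm (1 - ξ) q, mul_assoc]
    exact v.mul_mem_left _ h6
  rcases hv.mem_or_mem h7 with h | h
  · exact h3 h
  · rcases hv.mem_or_mem h with h | h
    · have h8 := hv.mem_of_pow_mem _ h
      have h9 : (1 : 𝓞 L) ∈ v := by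
        rw [← hζ.pow_eq_one]
        exact v.pow_mem_of_mem h8 p hp.pos
      exact hv.ne_top ((Ideal.eq_top_iff_one v).2 h9)
    · exact hav h

omit [IsGalois L M] in
/-- the relative form of the degree -/
theorem norm_of_deg_one {v : Ideal (𝓞 L)} (hv : v.IsPrime) (hv0 : v ≠ ⊥)
    {w : Ideal (𝓞 M)} (hw : w.IsPrime) (hwv : w.LiesOver v) (hd : w.inertiaDeg (𝓞 L) = 1) :
    absNorm w = absNorm v := by
  have hvm : v.IsMaximal := hv.isMaximal hv0
  have hwm : w.IsMaximal := IsMaximal.of_liesOver_isMaximal w v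
  rw [absNorm_eq_pow_inertiaDeg'_of_liesOver w v hv hv0, inertiaDeg'_eq_inertiaDeg v w, hd, pow_one]

theorem spl_ge {p : ℕ} (hp : p.Prime) {ζ t : 𝓞 L} (hζ : IsPrimitiveRoot ζ p)
    (hcard : Nat.card Gal(M/L) = p) {y : 𝓞 M}
    (hy : y ^ p = algebraMap (𝓞 L) (𝓞 M) t) {σ : Gal(M/L)} (hσ : σ • y ≠ y)
    (v : HeightOneSpectrum (𝓞 L)) (h3 : (p : 𝓞 L) ∉ v.asIdeal) (ht : t ∉ v.asIdeal) {a : 𝓞 L}
    (ha : t - a ^ p ∈ v.asIdeal) : p ≤ spl L M v := by
  have hvp := v.isPrime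
  have hvb := v.ne_bot
  have hG : Finite Gal(M/L) := Nat.finite_of_card_ne_zero (by rw [hcard]; exact hp.ne_zero)
  have hid := ncard_primesOver_mul_ramificationIdxIn_mul_inertiaDegIn v.asIdeal (𝓞 M) Gal(M/L)
  rw [hcard] at hid
  obtain ⟨⟨w, hw, hwv⟩⟩ := (inferInstance : Nonempty (primesOver v.asIdeal (𝓞 M)))
  have hfin : (primesOver v.asIdeal (𝓞 M)).Finite := by
    apply Set.finite_of_ncard_ne_zero
    intro h
    rw [h, zero_mul] at hid
    exact hp.ne_zero hid.symm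
  have h2 : 1 < (primesOver v.asIdeal (𝓞 M)).ncard := by
    rw [Set.one_lt_ncard hfin]
    exact ⟨σ • w, ⟨inferInstance, inferInstance⟩, w, ⟨hw, hwv⟩,
      not_stable hp hζ hy hσ hvp h3 ht ha hw hwv⟩
  have h5 : (primesOver v.asIdeal (𝓞 M)).ncard = p ∧ inertiaDegIn v.asIdeal (𝓞 M) = 1 := by
    have hdvd : (primesOver v.asIdeal (𝓞 M)).ncard ∣ p := Dvd.intro _ hid
    rcases (Nat.dvd_prime hp).1 hdvd with h | h
    · omega
    · refine ⟨h, ?_⟩
      rw [h] at hid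
      have h6 : ramificationIdxIn v.asIdeal (𝓞 M) * inertiaDegIn v.asIdeal (𝓞 M) = 1 :=
        Nat.eq_of_mul_eq_mul_left hp.pos (by rw [hid, mul_one])
      exact Nat.eq_one_of_mul_eq_one_left h6
  have hnorm : ∀ P : primesOver v.asIdeal (𝓞 M), absNorm P.1 = absNorm v.asIdeal := by
    rintro ⟨P, hP, hPv⟩
    apply norm_of_deg_one hvp hvb hP hPv
    rw [← inertiaDegIn_eq_inertiaDeg v.asIdeal P Gal(M/L)]
    exact h5.2
  have hbot : ∀ P : primesOver v.asIdeal (𝓞 M), P.1 ≠ ⊥ := by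
    intro P h
    have h6 := hnorm P
    rw [h, absNorm_bot] at h6
    exact hvb (absNorm_eq_zero_iff.1 h6.symm)
  let f : primesOver v.asIdeal (𝓞 M) → {w : HeightOneSpectrum (𝓞 M) //
      w.asIdeal.under (𝓞 L) = v.asIdeal ∧ absNorm w.asIdeal = absNorm v.asIdeal} :=
    fun P => ⟨⟨P.1, P.2.1, hbot P⟩, P.2.2.over.symm, hnorm P⟩
  have hf : Function.Bijective f := by
    constructor
    · intro P Q h
      have h6 := congrArg (fun z => z.1.asIdeal) h
      exact Subtype.ext h6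
    · rintro ⟨Q, hQ1, hQ2⟩
      exact ⟨⟨Q.asIdeal, Q.isPrime, ⟨hQ1.symm⟩⟩, rfl⟩
  unfold spl
  rw [← Nat.card_eq_of_bijective f hf]
  have h7 : Nat.card (primesOver v.asIdeal (𝓞 M)) = (primesOver v.asIdeal (𝓞 M)).ncard := rfl
  rw [h7, h5.1]

end KUM

open Polynomial in
theorem t_KUMX : S_KUMX := by
  intro p hpf L _ _ ζ t hζ ht
  have hp : p.Prime := hpf.out
  have hirr : Irreducible (X ^ p - C (t : L)) :=
    X_pow_sub_C_irreducible_of_prime hp (fun b => ht b)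
  have hfact : Fact (Irreducible (X ^ p - C (t : L))) := ⟨hirr⟩
  have hζL : IsPrimitiveRoot (ζ : L) p := hζ.map_of_injective (RingOfIntegers.coe_injective)
  have hprim : (primitiveRoots p L).Nonempty :=
    ⟨(ζ : L), (mem_primitiveRoots hp.pos).2 hζL⟩
  have hchar : CharZero (AdjoinRoot (X ^ p - C (t : L))) :=
    charZero_of_injective_algebraMap (algebraMap L (AdjoinRoot (X ^ p - C (t : L)))).injective
  have hfd : FiniteDimensional L (AdjoinRoot (X ^ p - C (t : L))) :=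
    (AdjoinRoot.powerBasis hirr.ne_zero).finite
  have hfdQ : FiniteDimensional ℚ (AdjoinRoot (X ^ p - C (t : L))) :=
    FiniteDimensional.trans ℚ L _
  have hnf : NumberField (AdjoinRoot (X ^ p - C (t : L))) := ⟨⟩
  have hsf := isSplittingField_AdjoinRoot_X_pow_sub_C hprim hirr
  have hgal : IsGalois L (AdjoinRoot (X ^ p - C (t : L))) :=
    isGalois_of_isSplittingField_X_pow_sub_C hprim hirr _
  have hrank : Module.finrank L (AdjoinRoot (X ^ p - C (t : L))) = p :=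
    finrank_of_isSplittingField_X_pow_sub_C hprim hirr _
  have hcard : Nat.card Gal((AdjoinRoot (X ^ p - C (t : L)))/L) = p := by
    rw [IsGalois.card_aut_eq_finrank, hrank]
  have hroot : (AdjoinRoot.root (X ^ p - C (t : L))) ^ p =
      algebraMap L (AdjoinRoot (X ^ p - C (t : L))) (t : L) := by
    have h := AdjoinRoot.eval₂_root (X ^ p - C (t : L))
    simp only [eval₂_sub, eval₂_pow, eval₂_X, eval₂_C] at h
    exact sub_eq_zero.1 h
  have hint : IsIntegral ℤ (AdjoinRoot.root (X ^ p - C (t : L))) := by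
    apply IsIntegral.of_pow (n := p) hp.pos
    rw [hroot]
    exact (RingOfIntegers.isIntegral_coe t).map
      (algebraMap L (AdjoinRoot (X ^ p - C (t : L)))).toIntAlgHom
  obtain ⟨y, hy⟩ : ∃ y : 𝓞 (AdjoinRoot (X ^ p - C (t : L))),
      algebraMap (𝓞 (AdjoinRoot (X ^ p - C (t : L)))) (AdjoinRoot (X ^ p - C (t : L))) y =
        AdjoinRoot.root (X ^ p - C (t : L)) :=
    ⟨⟨_, hint⟩, rfl⟩
  have hy3 : y ^ p = algebraMap (𝓞 L) (𝓞 (AdjoinRoot (X ^ p - C (t : L)))) t := by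
    apply RingOfIntegers.coe_injective
    rw [map_pow, hy, hroot]
    rfl
  have hσ : ∃ σ : Gal((AdjoinRoot (X ^ p - C (t : L)))/L), σ • y ≠ y := by
    by_contra h
    push Not at h
    have hsub : Subsingleton Gal((AdjoinRoot (X ^ p - C (t : L)))/L) := by
      constructor
      intro σ τ
      apply AlgEquiv.coe_toAlgHom_injective
      apply AdjoinRoot.algHom_ext
      have h1 := congrArg (algebraMap (𝓞 (AdjoinRoot (X ^ p - C (t : L))))
        (AdjoinRoot (X ^ p - C (t : L)))) (h σ)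
      have h2 := congrArg (algebraMap (𝓞 (AdjoinRoot (X ^ p - C (t : L))))
        (AdjoinRoot (X ^ p - C (t : L)))) (h τ)
      have h3 : σ (AdjoinRoot.root (X ^ p - C (t : L))) = AdjoinRoot.root (X ^ p - C (t : L)) := by
        rw [← hy]
        exact h1
      have h4 : τ (AdjoinRoot.root (X ^ p - C (t : L))) = AdjoinRoot.root (X ^ p - C (t : L)) := by
        rw [← hy]
        exact h2
      exact h3.trans h4.symm
    have := Nat.card_of_subsingleton (1 : Gal((AdjoinRoot (X ^ p - C (t : L)))/L))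
    rw [hcard] at this
    exact hp.one_lt.ne' this
  obtain ⟨σ, hσ⟩ := hσ
  refine ⟨AdjoinRoot (X ^ p - C (t : L)), inferInstance, hnf, inferInstance, ?_⟩
  rintro v h3 htv ⟨a, ha⟩
  exact KUM.spl_ge hp hζ hcard hy3 hσ v h3 htv ha

end Pool.Agent.MUXK


end

section

/-!
# MUX: enough eigenfunctionals, characteristic `p` (helper9)
-/

set_option autoImplicit false

namespace Pool.Agent.MUXK

namespace EIGX

open Finset

theorem sep (K A : Type) [Field K] [AddCommGroup A] [Module K A] (v : A) (hv : v ≠ 0) :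
    ∃ φ : A →+ K, φ v ≠ 0 := by
  by_contra hcon
  push Not at hcon
  exact hv ((Module.forall_dual_apply_eq_zero_iff K v).mp
    (fun φ => hcon (φ : A →ₗ[K] K).toAddMonoidHom))

theorem exists_g (p : ℕ) [Fact p.Prime] (F : Type) [Field F] [CharP F p] (I : Type) [CommGroup I]
    (P : Subgroup I) (h3 : ∀ x : I, x ^ p ∈ P) (v : I) (hv : v ∉ P) :
    ∃ g : I → F, (∀ x y, g (x * y) = g x + g y) ∧ (∀ x ∈ P, g x = 0) ∧ g v ≠ 0 := by
  have hz : ∀ x : Additive (I ⧸ P), p • x = 0 := by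
    intro x
    obtain ⟨y, hy⟩ := QuotientGroup.mk_surjective (Additive.toMul x)
    have h1 : ((y ^ p : I) : I ⧸ P) = 1 := (QuotientGroup.eq_one_iff _).mpr (h3 y)
    have h2 : Additive.toMul (p • x) = 1 := by
      rw [toMul_nsmul, ← hy]
      exact h1
    exact h2
  have hv' : Additive.ofMul (v : I ⧸ P) ≠ 0 := by
    intro h
    exact hv ((QuotientGroup.eq_one_iff v).mp h)
  obtain ⟨φ, hφ⟩ : ∃ φ : Additive (I ⧸ P) →+ ZMod p, φ (Additive.ofMul (v : I ⧸ P)) ≠ 0 :=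
    @sep (ZMod p) (Additive (I ⧸ P)) _ _ (AddCommGroup.zmodModule hz) _ hv'
  refine ⟨fun x => ZMod.castHom (dvd_refl p) F (φ (Additive.ofMul (x : I ⧸ P))), ?_, ?_, ?_⟩
  · intro x y
    have : Additive.ofMul ((x * y : I) : I ⧸ P) =
        Additive.ofMul (x : I ⧸ P) + Additive.ofMul (y : I ⧸ P) := rfl
    simp only [this, map_add]
  · intro x hx
    have : Additive.ofMul (x : I ⧸ P) = 0 := (QuotientGroup.eq_one_iff x).mpr hx
    simp only [this, map_zero]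
  · intro h
    exact hφ ((map_eq_zero_iff _ (RingHom.injective (ZMod.castHom (dvd_refl p) F))).mp h)

theorem natCast_ne (p : ℕ) [Fact p.Prime] (F : Type) [Field F] [CharP F p] (n : ℕ)
    (h : n.Coprime p) : (n : F) ≠ 0 := by
  intro h0
  have h1 : p ∣ n := (CharP.cast_eq_zero_iff F p n).mp h0
  have h2 : p ∣ Nat.gcd n p := Nat.dvd_gcd h1 dvd_rfl
  rw [h] at h2
  exact (Fact.out : p.Prime).one_lt.ne' (Nat.dvd_one.mp h2)

theorem main (p : ℕ) [Fact p.Prime] (F : Type) [Field F] [CharP F p] [IsAlgClosed F] (D I : Type) [CommGroup D]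
    [Finite D] [CommGroup I] [MulDistribMulAction D I] (hc : (Nat.card D).Coprime p)
    (P : Subgroup I) (hP : ∀ g : D, ∀ x ∈ P, g • x ∈ P) (h3 : ∀ x : I, x ^ p ∈ P) (v : I)
    (hv : v ∉ P) :
    ∃ (χ : D →* Fˣ) (f : I → F), (∀ x y, f (x * y) = f x + f y) ∧ (∀ x ∈ P, f x = 0) ∧
      (∀ (δ : D) (x : I), f (δ • x) = (χ δ : F) * f x) ∧ f v ≠ 0 := by
  classical
  have : Fintype D := Fintype.ofFinite D
  obtain ⟨g, g1, g2, g3⟩ := exists_g p F I P h3 v hv
  have hexp : ((Monoid.exponent D : ℕ) : F) ≠ 0 := by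
    refine natCast_ne p F _ (Nat.Coprime.coprime_dvd_left ?_ hc)
    exact Group.exponent_dvd_nat_card
  have : NeZero ((Monoid.exponent D : ℕ) : F) := ⟨hexp⟩
  have : HasEnoughRootsOfUnity F (Monoid.exponent D) := inferInstance
  have hfin : Finite (D →* Fˣ) :=
    Finite.of_equiv D (CommGroup.monoidHom_mulEquiv_of_hasEnoughRootsOfUnity D F).some.symm.toEquiv
  have : Fintype (D →* Fˣ) := Fintype.ofFinite _
  have hcard : (Fintype.card (D →* Fˣ) : F) ≠ 0 := by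
    rw [← Nat.card_eq_fintype_card, CommGroup.card_monoidHom_of_hasEnoughRootsOfUnity]
    exact natCast_ne p F _ hc
  have horth : ∀ δ : D, δ ≠ 1 → ∑ χ : D →* Fˣ, (((χ δ)⁻¹ : Fˣ) : F) = 0 := by
    intro δ hδ
    obtain ⟨φ, hφ⟩ := CommGroup.exists_apply_ne_one_of_hasEnoughRootsOfUnity D F hδ
    have h1 : ∑ χ : D →* Fˣ, (((χ δ)⁻¹ : Fˣ) : F) =
        ∑ χ : D →* Fˣ, ((((φ * χ) δ)⁻¹ : Fˣ) : F) :=
      (Fintype.sum_equiv (Equiv.mulLeft φ) _ _ (fun _ => rfl)).symm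
    have h2 : ∑ χ : D →* Fˣ, ((((φ * χ) δ)⁻¹ : Fˣ) : F) =
        (((φ δ)⁻¹ : Fˣ) : F) * ∑ χ : D →* Fˣ, (((χ δ)⁻¹ : Fˣ) : F) := by
      rw [Finset.mul_sum]
      refine Finset.sum_congr rfl fun χ _ => ?_
      rw [MonoidHom.mul_apply, mul_inv, Units.val_mul]
    have h3 : (1 - (((φ δ)⁻¹ : Fˣ) : F)) * ∑ χ : D →* Fˣ, (((χ δ)⁻¹ : Fˣ) : F) = 0 := by
      rw [sub_mul, one_mul, ← h2, ← h1, sub_self]
    rcases mul_eq_zero.mp h3 with h | h
    · exfalso
      apply hφ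
      have h4 : (((φ δ)⁻¹ : Fˣ) : F) = ((1 : Fˣ) : F) := by
        rw [Units.val_one]
        linear_combination -h
      have h5 := Units.ext h4
      exact inv_eq_one.mp h5
    · exact h
  by_contra hcon
  push Not at hcon
  have hf : ∀ χ : D →* Fˣ, ∑ δ : D, (((χ δ)⁻¹ : Fˣ) : F) * g (δ • v) = 0 := by
    intro χ
    refine hcon χ (fun x => ∑ δ : D, (((χ δ)⁻¹ : Fˣ) : F) * g (δ • x)) ?_ ?_ ?_
    · intro x y
      simp only [smul_mul', g1, mul_add, Finset.sum_add_distrib]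
    · intro x hx
      exact Finset.sum_eq_zero fun δ _ => by rw [g2 _ (hP δ x hx), mul_zero]
    · intro δ x
      rw [Finset.mul_sum]
      refine Fintype.sum_equiv (Equiv.mulRight δ) _ _ fun ε => ?_
      simp only [Equiv.coe_mulRight, map_mul, mul_inv, Units.val_mul, smul_smul]
      have : ((χ δ : Fˣ) : F) * (((χ δ)⁻¹ : Fˣ) : F) = 1 := Units.mul_inv _
      linear_combination -((((χ ε)⁻¹ : Fˣ) : F) * g ((ε * δ) • x)) * this
  have hsum : ∑ χ : D →* Fˣ, ∑ δ : D, (((χ δ)⁻¹ : Fˣ) : F) * g (δ • v) = 0 :=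
    Finset.sum_eq_zero fun χ _ => hf χ
  rw [Finset.sum_comm] at hsum
  rw [Finset.sum_eq_single (1 : D)] at hsum
  · simp only [map_one, inv_one, Units.val_one, one_mul, one_smul, Finset.sum_const,
      nsmul_eq_mul, Finset.card_univ] at hsum
    exact (mul_ne_zero hcard g3) hsum
  · intro δ _ hδ
    rw [← Finset.sum_mul, horth δ hδ, zero_mul]
  · intro h
    exact absurd (Finset.mem_univ _) h

end EIGX

theorem t_EIGX : S_EIGX := by
  intro p _ F _ _ _ G I _ _ _ D _ hcomm hcop P hP h3 v hv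
  let : CommGroup D :=
    { (inferInstance : Group D) with
      mul_comm := fun a b => Subtype.ext (hcomm a a.2 b b.2) }
  exact EIGX.main p F D I hcop P (fun g x hx => hP g x hx) h3 v hv

end Pool.Agent.MUXK


end

section

/-! # Block K of the project MUX, assembled

`StKX.lean` states the passage from the inputs to the growth of the class numbers, for every prime `p`; the files
`K_*.lean` prove the statements. Here they are put together: `k_X : S_X` without hypotheses. -/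

namespace Pool.Agent.MUXK

open _root_.Pool.Agent.MU3

theorem k_GALX : S_GALX := t_GALX
theorem k_GENX : S_GENX := t_GENX
theorem k_TWX : S_TWX := t_TWX k_GALX k_GENX
theorem k_LFX : S_LFX := t_LFX k_GENX
theorem k_RSX : S_RSX := t_RSX k_GALX k_GENX k_TWX
theorem k_M0X : S_M0X := t_M0X kPRB k_GENX
theorem k_RAMX : S_RAMX := t_RAMX
theorem k_NRJ : S_NRJ := t_NRJ
theorem k_STABX : S_STABX := t_STABX
theorem k_KNM : S_KNM := t_KNM k_NRJ k_STABX
theorem k_KINX : S_KINX := t_KINX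
theorem k_KOLX : S_KOLX := t_KOLX k_KINX k_KNM k_GALX k_RAMX
theorem k_SU0 : S_SU0 := t_SU0
theorem k_EPX : S_EPX := t_EPX
theorem k_IDX : S_IDX := t_IDX k_EPX
theorem k_KUMX : S_KUMX := t_KUMX
theorem k_THDX : S_THDX := t_THDX k_IDX k_KUMX
theorem k_NIX : S_NIX := t_NIX k_IDX
theorem k_ALGX : S_ALGX := t_ALGX
theorem k_EIGX : S_EIGX := t_EIGX
theorem k_LGX : S_LGX := t_LGX
theorem k_NILXX : S_NILXX := t_NILXX k_ALGX k_LGX
theorem k_NILP : S_NILP := t_NILP k_EIGX k_STABX k_THDX k_NRJ k_NIX k_NILXX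
theorem k_NCP : S_NCP := t_NCP
theorem k_TNX : S_TNX := t_TNX
theorem k_NR1 : S_NR1 := t_NR1 k_GALX k_GENX k_LFX
theorem k_NRX : S_NRX := t_NRX k_NR1 k_RSX
theorem k_I3X : S_I3X := t_I3X k_RSX k_NRX k_TNX k_NCP k_GALX
theorem k_FINX : S_FINX := t_FINX k_GENX
theorem k_MAINKX : S_MAINKX :=
  t_MAINKX k_GALX k_TWX k_LFX k_M0X k_RAMX k_KOLX k_SU0 k_I3X k_NILP k_FINX

end Pool.Agent.MUXK


end
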