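import Mathlib
import Pool.Agent.MVF.C027
import Pool.Agent.MVF.C091
import Pool.Agent.MVF.C104
import Pool.Agent.MVF.C105
import Pool.Agent.MVF.C113
import Pool.Agent.MVF.C117

/-! Parts: MUX.I_PTP, MUX.I_SUB, MUX.I_LAY, MUX.I_GEN, MUX.I_GAM, MUX.I_EPS2, MUX.IAll, MUX.ZI -/

namespace Pool.Agent.MUXI.EPS2
end Pool.Agent.MUXI.EPS2
namespace Pool.Agent.MUXI.Gam
end Pool.Agent.MUXI.Gam
namespace Pool.Agent.MUXI.IxSUB
end Pool.Agent.MUXI.IxSUB

section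

/-!
# MUX, block IX: module PTP, periodicity of the points `pt R m i x`
-/

set_option autoImplicit false

namespace Pool.Agent.MUXI

open _root_.MU3 _root_.Pool.Agent.MU3 _root_.Pool.Agent.MU3A _root_.Pool.Agent.MU3B _root_.Pool.Agent.RI _root_.Pool.Agent.RID
  _root_.Pool.Agent.MUX _root_.Pool.Agent.MUXE _root_.Pool.Agent.MUXK
open _root_.Pool.Agent.MU3I (w3 zt)

noncomputable section

private lemma ptp_nat_MUXI_PTP {A B : ℤ} (a : ℕ) (x : OO A B) :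
    emb ((a : OO A B) * x) = (a : ℂ) * emb x := by
  simp only [emb, QuadraticAlgebra.re_mul, QuadraticAlgebra.im_mul,
    QuadraticAlgebra.re_natCast, QuadraticAlgebra.im_natCast]
  push_cast
  ring

private lemma ptp_sub_MUXI_PTP {A B : ℤ} (x y : OO A B) : emb (x - y) = emb x - emb y := by
  simp only [emb, QuadraticAlgebra.re_sub, QuadraticAlgebra.im_sub]
  push_cast
  ring

private lemma ptp_mem_MUXI_PTP {A B : ℤ} (b : Ideal (OO A B)) : ((nI b : ℕ) : OO A B) ∈ b := by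
  have h1 : nI b • (1 : OO A B ⧸ b) = 0 := card_nsmul_eq_zero'
  rw [nsmul_eq_mul, mul_one] at h1
  rw [← Ideal.Quotient.eq_zero_iff_mem, map_natCast]
  exact h1

theorem ti_PTP : Si_PTP := by
  intro A B hc n₀ ι R m hm i
  have hm' : (m : ℂ) ≠ 0 := by exact_mod_cast hm
  have key : ∀ (a : ℕ) (x : OO A B), (a : ℂ) * pt R m i x = pt R m i (a * x) := by
    intro a x
    unfold pt
    rw [ptp_nat_MUXI_PTP]
    ring
  have h1 : ∀ x y : OO A B, x - y ∈ idl (A := A) (B := B) m →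
      pt R m i x - pt R m i y ∈ (R.L i).lattice := by
    intro x y hxy
    obtain ⟨z, hz⟩ := Ideal.mem_span_singleton.1 hxy
    refine ((R.nl i).mem _).2 ⟨(nI (R.b i) : OO A B) * z,
      Ideal.mul_mem_right _ _ (ptp_mem_MUXI_PTP _), ?_⟩
    have h2 : emb x - emb y = (m : ℂ) * emb z := by
      rw [← ptp_sub_MUXI_PTP, hz, ptp_nat_MUXI_PTP]
    unfold pt
    rw [ptp_nat_MUXI_PTP]
    have h3 : R.om i * (nI (R.b i) : ℂ) * emb x / m - R.om i * (nI (R.b i) : ℂ) * emb y / m =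
        R.om i * (nI (R.b i) : ℂ) * (emb x - emb y) / m := by ring
    rw [h3, h2]
    field_simp
  have h2 : ∀ x y : OO A B, x - y ∈ idl (A := A) (B := B) m →
      ee (R.L i) (pt R m i x) = ee (R.L i) (pt R m i y) := by
    intro x y hxy
    have h3 := (Pool.Agent.MU3B.b_PER (R.L i)).1 (pt R m i y) _ (h1 x y hxy)
    rw [← h3]
    congr 1
    ring
  refine ⟨fun x y hxy => ⟨h1 x y hxy, h2 x y hxy, fun a => ?_⟩, key⟩
  have h4 : (a : OO A B) * x - (a : OO A B) * y ∈ idl (A := A) (B := B) m := by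
    rw [← mul_sub]
    exact Ideal.mul_mem_left _ _ hxy
  unfold dlX
  rw [key, key, h2 _ _ h4, h2 x y hxy]

end

end Pool.Agent.MUXI


end

section

/-!
# Module SUB: the fields `K B_n` are contained in the ray class fields
-/

set_option autoImplicit false

namespace Pool.Agent.MUXI

open _root_.MU3 _root_.Pool.Agent.MU3 _root_.Pool.Agent.MU3A _root_.Pool.Agent.MU3B _root_.Pool.Agent.RI _root_.Pool.Agent.RID
  _root_.Pool.Agent.MUX _root_.Pool.Agent.MUXE _root_.Pool.Agent.MUXK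
open _root_.Pool.Agent.MU3I (w3 zt)

namespace IxSUB

theorem zt_pow (M : ℕ) (h : M ≠ 0) : zt M ^ M = 1 := by
  unfold Pool.Agent.MU3I.zt
  exact (Complex.isPrimitiveRoot_exp M h).pow_eq_one

theorem q0_ne {p : ℕ} (h : p = 2 ∨ p = 3) : q0 p ≠ 0 := by
  rcases h with rfl | rfl <;> simp [q0]

theorem idl_ne {A B : ℤ} {M : ℕ} (h : M ≠ 0) : idl (A := A) (B := B) M ≠ ⊥ := by
  rw [ne_eq, Ideal.span_singleton_eq_bot]
  exact_mod_cast h

theorem idl_le {A B : ℤ} {M N : ℕ} (h : M ∣ N) : idl (A := A) (B := B) N ≤ idl M := by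
  rw [Ideal.span_singleton_le_span_singleton]
  obtain ⟨c, rfl⟩ := h
  exact ⟨c, by push_cast; ring⟩

end IxSUB

open _root_.Pool.Agent.MUXI.IxSUB

/-- Module SUB. -/
theorem ti_SUB (h1 : Si_LAY) (h2 : Si_IAF) : Si_SUB := by
  intro p A B P V f hS hT hL K hK n Bn hlay
  have hp : p = 2 ∨ p = 3 := by
    rcases hS.case.split with h | h
    · exact Or.inr h.1
    · exact Or.inl h.1
  have hp0 : p ≠ 0 := by rcases hp with rfl | rfl <;> norm_num
  have hM : q0 p * p ^ n ≠ 0 := Nat.mul_ne_zero (q0_ne hp) (pow_ne_zero n hp0)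
  have hlv : lvX p f n = f * (q0 p * p ^ n) := by unfold lvX; ring
  have hlv0 : lvX p f n ≠ 0 := by
    rw [hlv]; exact Nat.mul_ne_zero hS.f0 hM
  have hm := idl_ne (A := A) (B := B) hlv0
  have hle : idl (A := A) (B := B) (lvX p f n) ≤ idl (q0 p * p ^ n) :=
    idl_le ⟨f, by rw [hlv]; ring⟩
  have hle0 : idl (A := A) (B := B) (lvX p f n) ≤ idl (lvX p f 0) :=
    idl_le ⟨p ^ n, by unfold lvX; ring⟩
  obtain ⟨i1, -, -, -, -, -, -, i8⟩ := h2 A B hS.case.toCQ hT hL _ hm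
  obtain ⟨a, ha⟩ := i1 (RingEquiv.refl ℂ) rfl
  have hz := (i8 (q0 p * p ^ n) (RingEquiv.refl ℂ) a (zt (q0 p * p ^ n)) hM hle ha
    (zt_pow _ hM)).1
  have hBn : Bn ≤ IntermediateField.restrictScalars ℚ (RF (idl (A := A) (B := B) (lvX p f n))) := by
    rw [h1 p n hp Bn hlay, IntermediateField.adjoin_le_iff]
    intro x hx
    rw [Set.mem_singleton_iff] at hx
    rw [hx]
    exact add_mem hz (inv_mem hz)
  have hK' : K ≤ IntermediateField.restrictScalars ℚ (RF (idl (A := A) (B := B) (lvX p f n))) := by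
    intro x hx
    exact hT.mono _ _ hle0 (hK x hx)
  intro y hy
  exact (sup_le hK' hBn) hy

end Pool.Agent.MUXI


end

section

/-!
# MUX, block IX, module LAY: the layer is the real subfield of a cyclotomic field
-/

set_option autoImplicit false

namespace Pool.Agent.MUXI

open _root_.MU3 _root_.Pool.Agent.MU3 _root_.Pool.Agent.MU3A _root_.Pool.Agent.MU3B _root_.Pool.Agent.RI _root_.Pool.Agent.RID
  _root_.Pool.Agent.MUX _root_.Pool.Agent.MUXE _root_.Pool.Agent.MUXK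
open _root_.Pool.Agent.MU3I (w3 zt)

theorem ti_LAY : Si_LAY := by
  intro p n hp B hB
  rcases hp with rfl | rfl
  · have h1 : B = Pool.Agent.MUXJ.Lay.B2 n := Pool.Agent.MUXJ.Lay.uniq2 n B hB
    have h2 : q0 2 * 2 ^ n = 2 ^ (n + 2) := by
      have h3 : q0 2 = 4 := by simp [q0]
      rw [h3, pow_add]
      ring
    rw [h2]
    exact h1
  · have h1 := Pool.Agent.MU3I.t_ILAY n B hB
    have h2 : q0 3 * 3 ^ n = 3 ^ (n + 1) := by
      have h3 : q0 3 = 3 := by simp [q0]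
      rw [h3, pow_succ]
      ring
    rw [h2]
    exact h1

end Pool.Agent.MUXI


end

section

/-!
# MUX, block IX: module GEN, the statement for one generator gives it for all generators

Adapted from `Pool/Agent/MU3/I3G.lean`.
-/

set_option autoImplicit false

open NumberField IsDedekindDomain Finset
open scoped nonZeroDivisors Pointwise

namespace Pool.Agent.MUXI

open _root_.MU3 _root_.Pool.Agent.MU3 _root_.Pool.Agent.MU3A _root_.Pool.Agent.MU3B _root_.Pool.Agent.RI _root_.Pool.Agent.RID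
  _root_.Pool.Agent.MUX _root_.Pool.Agent.MUXE _root_.Pool.Agent.MUXK

namespace GEN

variable {k L : Type} [Field k] [Field L] [Algebra k L]

/-- `x ↦ ∏_{i < b} γ^i x` as a homomorphism. -/
noncomputable def sm (γ : L ≃ₐ[k] L) (b : ℕ) : L →* L where
  toFun x := ∏ i ∈ range b, (γ ^ i) x
  map_one' := by simp
  map_mul' x y := by simp [Finset.prod_mul_distrib]

lemma sm_apply (γ : L ≃ₐ[k] L) (b : ℕ) (x : L) : sm γ b x = ∏ i ∈ range b, (γ ^ i) x := rfl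

lemma sm_map (γ δ : L ≃ₐ[k] L) (h : ∀ σ τ : L ≃ₐ[k] L, σ * τ = τ * σ) (b : ℕ) (x : L) :
    sm γ b (δ x) = δ (sm γ b x) := by
  rw [sm_apply, sm_apply, map_prod]
  refine Finset.prod_congr rfl fun i _ => ?_
  have h1 := congrArg (fun σ : L ≃ₐ[k] L => σ x) (h (γ ^ i) δ)
  exact h1

lemma sm_div (γ : L ≃ₐ[k] L) (b : ℕ) (x y : L) : sm γ b (x / y) = sm γ b x / sm γ b y := by
  rw [sm_apply, sm_apply, sm_apply, ← Finset.prod_div_distrib]
  exact Finset.prod_congr rfl fun i _ => map_div₀ _ _ _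

lemma sm_Tg (γ : L ≃ₐ[k] L) (b : ℕ) {x : L} (hx : x ≠ 0) : sm γ b (Tg γ x) = Tg (γ ^ b) x := by
  induction b with
  | zero =>
    rw [sm_apply, pow_zero, Finset.range_zero, Finset.prod_empty]
    unfold Tg
    rw [AlgEquiv.one_apply, div_self hx]
  | succ b ih =>
    rw [sm_apply, Finset.prod_range_succ, ← sm_apply, ih]
    unfold Tg
    have h1 : (γ ^ b) x ≠ 0 := (map_ne_zero (γ ^ b)).2 hx
    have h2 : (γ ^ b) (γ x) = (γ ^ (b + 1)) x := by
      rw [pow_succ]; rfl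
    rw [map_div₀, h2]
    field_simp

lemma Tg_ne (γ : L ≃ₐ[k] L) {x : L} (hx : x ≠ 0) : Tg γ x ≠ 0 :=
  div_ne_zero ((map_ne_zero γ).2 hx) hx

lemma iter_ne (γ : L ≃ₐ[k] L) (n : ℕ) {x : L} (hx : x ≠ 0) : (Tg γ)^[n] x ≠ 0 := by
  induction n with
  | zero => exact hx
  | succ n ih => rw [Function.iterate_succ_apply']; exact Tg_ne γ ih

lemma sm_ne (γ : L ≃ₐ[k] L) (b : ℕ) {x : L} (hx : x ≠ 0) : sm γ b x ≠ 0 := by
  rw [sm_apply]
  exact Finset.prod_ne_zero_iff.2 fun i _ => (map_ne_zero (γ ^ i)).2 hx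

/-- `(γ^b - 1)^N = (Σ γ^i)^N (γ - 1)^N` -/
lemma iter_eq (γ : L ≃ₐ[k] L) (h : ∀ σ τ : L ≃ₐ[k] L, σ * τ = τ * σ) (b N : ℕ) {x : L}
    (hx : x ≠ 0) : (Tg (γ ^ b))^[N] x = (sm γ b)^[N] ((Tg γ)^[N] x) := by
  have hcm : ∀ (M : ℕ) (y : L), (sm γ b)^[M] (Tg γ y) = Tg γ ((sm γ b)^[M] y) := by
    intro M
    induction M with
    | zero => intro y; rfl
    | succ M ih =>
      intro y
      rw [Function.iterate_succ_apply, Function.iterate_succ_apply, ← ih]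
      congr 1
      unfold Tg
      rw [sm_div, sm_map γ γ h]
  have hne : ∀ (M : ℕ) {y : L}, y ≠ 0 → (sm γ b)^[M] y ≠ 0 := by
    intro M
    induction M with
    | zero => intro y hy; exact hy
    | succ M ih => intro y hy; rw [Function.iterate_succ_apply']; exact sm_ne γ b (ih hy)
  induction N with
  | zero => rfl
  | succ N ih =>
    rw [Function.iterate_succ_apply', ih, ← sm_Tg γ b (hne N (iter_ne γ N hx)), ← hcm,
      ← Function.iterate_succ_apply' (Tg γ), ← Function.iterate_succ_apply' (sm γ b)]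

/-- the relation for `γ` gives the relation for `γ ^ b` -/
lemma rel (γ : L ≃ₐ[k] L) (h : ∀ σ τ : L ≃ₐ[k] L, σ * τ = τ * σ) (b N : ℕ) {x : L}
    (hx : x ≠ 0) (D : Subgroup (L ≃ₐ[k] L)) [Fintype D] (e : D → ℕ) (y : L)
    {p : ℕ} (hy : y ^ p = ∏ δ : D, ((δ : L ≃ₐ[k] L) ((Tg γ)^[N] x)) ^ e δ) :
    ∃ z : L, z ^ p = ∏ δ : D, ((δ : L ≃ₐ[k] L) ((Tg (γ ^ b))^[N] x)) ^ e δ := by
  have hδ : ∀ (M : ℕ) (δ : L ≃ₐ[k] L) (u : L), (sm γ b)^[M] (δ u) = δ ((sm γ b)^[M] u) := by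
    intro M
    induction M with
    | zero => intro δ u; rfl
    | succ M ih =>
      intro δ u
      rw [Function.iterate_succ_apply, Function.iterate_succ_apply, sm_map γ δ h, ih]
  let f : ℕ → (L →* L) := fun M => Nat.rec (MonoidHom.id L) (fun _ g => (sm γ b).comp g) M
  have hf : ∀ (M : ℕ) (u : L), f M u = (sm γ b)^[M] u := by
    intro M
    induction M with
    | zero => intro u; rfl
    | succ M ih =>
      intro u
      rw [Function.iterate_succ_apply', ← ih]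
      rfl
  refine ⟨f N y, ?_⟩
  rw [← map_pow, hy, map_prod]
  refine Finset.prod_congr rfl fun δ _ => ?_
  rw [map_pow, hf, hδ, iter_eq γ h b N hx]

end GEN

theorem ti_GEN (h1 : S_GALX) : Si_GEN := by
  intro p _ k K Bn _ _ hB n h c hc hc0 N
  let akL : Algebra k ↥(K ⊔ Bn n) := algC h
  intro γ₀ hγ₀ _ b h2 γ hγ y hy
  obtain ⟨hG, hcm⟩ := h1 p k K Bn hB n h
  have fdL := Pool.Agent.FX.fd k ↥(K ⊔ Bn n)
  have e1 := P_TWK.zp γ (GCC.sub h K hB.hk) (fun x => (hγ x).trans (GCC.mem_sub h K hB.hk x).symm)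
  have e2 := P_TWK.zp γ₀ (GCC.sub h K hB.hk)
    (fun x => (hγ₀ x).trans (GCC.mem_sub h K hB.hk x).symm)
  have h3 : γ₀ ∈ Subgroup.zpowers γ := by
    rw [← e1, e2]
    exact Subgroup.mem_zpowers γ₀
  have hfin : IsOfFinOrder γ := isOfFinOrder_of_finite γ
  obtain ⟨a, ha⟩ := (hfin.mem_powers_iff_mem_zpowers).2 h3
  have ha' : γ ^ a = γ₀ := ha
  have hc1 : (⟨c, hc⟩ : ↥(K ⊔ Bn n)) ≠ 0 := by
    intro h0
    exact hc0 (congrArg Subtype.val h0)
  obtain ⟨z, hz⟩ := GEN.rel γ hcm a N hc1 (NC h (Bn n)) b y hy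
  rw [ha'] at hz
  exact h2 z hz

end Pool.Agent.MUXI


end

section

/-!
# MUX, block IX, GAM: the automorphism `γ` of `K_n / k` acting on the layer as `1 + q0`
-/

set_option autoImplicit false

namespace Pool.Agent.MUXI

open _root_.MU3 _root_.Pool.Agent.MU3 _root_.Pool.Agent.MU3A _root_.Pool.Agent.MU3B _root_.Pool.Agent.RI _root_.Pool.Agent.RID
  _root_.Pool.Agent.MUX _root_.Pool.Agent.MUXE _root_.Pool.Agent.MUXK
open _root_.Pool.Agent.MU3I (w3 zt)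

noncomputable section

namespace Gam

open _root_.Pool.Agent.MU3I.IGAM (four_pow_dvd pow_four' eqD)

/-! ### powers of `5` modulo powers of `2` -/

theorem five_pow (n : ℕ) : ∃ s : ℤ, (5 : ℤ) ^ 2 ^ n = 1 + 2 ^ (n + 2) * (1 + 2 * s) := by
  induction n with
  | zero => exact ⟨0, by norm_num⟩
  | succ n ih =>
    obtain ⟨s, hs⟩ := ih
    refine ⟨s + 2 ^ n * (1 + 2 * s) ^ 2, ?_⟩
    rw [pow_succ 2 n, pow_mul, hs]
    ring

theorem five_pow_dvd (n : ℕ) : (2 : ℤ) ^ (n + 2) ∣ (5 : ℤ) ^ 2 ^ n - 1 := by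
  obtain ⟨s, hs⟩ := five_pow n
  exact ⟨1 + 2 * s, by rw [hs]; ring⟩

theorem five_pow_one (i : ℕ) : ∃ v : ℤ, (5 : ℤ) ^ i = 1 + 4 * v := by
  induction i with
  | zero => exact ⟨0, by norm_num⟩
  | succ i ih =>
    obtain ⟨v, hv⟩ := ih
    exact ⟨1 + 5 * v, by rw [pow_succ, hv]; ring⟩

theorem pow_five {c : ℤ} (hc : (4 : ℤ) ∣ c - 1) (n : ℕ) :
    ∃ i : ℕ, (2 : ℤ) ^ (n + 2) ∣ c - 5 ^ i := by
  induction n with
  | zero => exact ⟨0, by simpa using hc⟩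
  | succ n ih =>
    obtain ⟨i, t, ht⟩ := ih
    obtain ⟨s, hs⟩ := five_pow n
    obtain ⟨v, hv⟩ := five_pow_one i
    rcases Int.even_or_odd' t with ⟨r, hr | hr⟩
    · exact ⟨i, r, by rw [ht, hr]; ring⟩
    · refine ⟨i + 2 ^ n, r - 2 * v - (1 + 4 * v) * s, ?_⟩
      rw [pow_add, hs]
      rw [hr] at ht
      rw [hv] at ht ⊢
      linear_combination ht

theorem pow_five' {c : ℤ} (hc : ¬ (2 : ℤ) ∣ c) (n : ℕ) :
    ∃ i : ℕ, (2 : ℤ) ^ (n + 2) ∣ c - 5 ^ i ∨ (2 : ℤ) ^ (n + 2) ∣ c + 5 ^ i := by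
  have h3 : (4 : ℤ) ∣ c - 1 ∨ (4 : ℤ) ∣ -c - 1 := by omega
  rcases h3 with h3 | h3
  · obtain ⟨i, hi⟩ := pow_five h3 n
    exact ⟨i, Or.inl hi⟩
  · obtain ⟨i, hi⟩ := pow_five h3 n
    refine ⟨i, Or.inr ?_⟩
    rw [← dvd_neg]
    have h4 : -(c + 5 ^ i) = -c - 5 ^ i := by ring
    rwa [h4]

/-! ### both primes -/

theorem gpow {p : ℕ} (hp : p = 2 ∨ p = 3) (n : ℕ) :
    ((q0 p * p ^ n : ℕ) : ℤ) ∣ (1 + (q0 p : ℤ)) ^ p ^ n - 1 := by
  rcases hp with rfl | rfl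
  · have h := five_pow_dvd n
    have h1 : ((q0 2 * 2 ^ n : ℕ) : ℤ) = 2 ^ (n + 2) := by
      unfold q0
      push_cast
      ring
    have h2 : (1 + (q0 2 : ℤ)) = 5 := by unfold q0; norm_num
    rw [h1, h2]
    exact h
  · have h := four_pow_dvd n
    have h1 : ((q0 3 * 3 ^ n : ℕ) : ℤ) = 3 ^ (n + 1) := by
      unfold q0
      push_cast
      ring
    have h2 : (1 + (q0 3 : ℤ)) = 4 := by unfold q0; norm_num
    rw [h1, h2]
    exact h

theorem cpow {p : ℕ} (hp : p = 2 ∨ p = 3) (n : ℕ) {c : ℤ} (hc : ¬ (p : ℤ) ∣ c) :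
    ∃ i : ℕ, ((q0 p * p ^ n : ℕ) : ℤ) ∣ c - (1 + (q0 p : ℤ)) ^ i ∨
      ((q0 p * p ^ n : ℕ) : ℤ) ∣ c + (1 + (q0 p : ℤ)) ^ i := by
  rcases hp with rfl | rfl
  · have h := pow_five' (by exact_mod_cast hc) n
    have h1 : ((q0 2 * 2 ^ n : ℕ) : ℤ) = 2 ^ (n + 2) := by
      unfold q0
      push_cast
      ring
    have h2 : (1 + (q0 2 : ℤ)) = 5 := by unfold q0; norm_num
    rw [h1, h2]
    exact h
  · have h := pow_four' (by exact_mod_cast hc) n
    have h1 : ((q0 3 * 3 ^ n : ℕ) : ℤ) = 3 ^ (n + 1) := by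
      unfold q0
      push_cast
      ring
    have h2 : (1 + (q0 3 : ℤ)) = 4 := by unfold q0; norm_num
    rw [h1, h2]
    exact h

/-! ### conjugates of `ζ + ζ⁻¹` -/

/-- the polynomial `D_m` with `D_m(u + 1/u) = u^m + 1/u^m` -/
def dk (R : Type) [CommRing R] (m : ℕ) : Polynomial R := Polynomial.dickson 1 1 m

theorem dk_eval {R : Type} [CommRing R] {u v : R} (h : u * v = 1) (m : ℕ) :
    (dk R m).eval (u + v) = u ^ m + v ^ m := by
  unfold dk
  exact Polynomial.dickson_one_one_eval_add_inv u v h m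

theorem dk_map {R S : Type} [CommRing R] [CommRing S] (φ : R →+* S) (m : ℕ) (x : R) :
    φ ((dk R m).eval x) = (dk S m).eval (φ x) := by
  unfold dk
  rw [← Polynomial.eval_map_apply, Polynomial.map_dickson, map_one]

theorem sum_two {a b : ℂ} (h : a * b = 1) (h2 : a + b = 2) : a = 1 := by
  have h3 : (a - 1) ^ 2 = 0 := by linear_combination a * h2 - h
  have h4 : a - 1 = 0 := pow_eq_zero_iff (two_ne_zero) |>.1 h3
  linear_combination h4

theorem conj {D : IntermediateField ℚ ℂ} {ζ : ℂ} {M : ℕ} (hM : M ≠ 0)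
    (hζ : IsPrimitiveRoot ζ M) (hz : ζ + ζ⁻¹ ∈ D) (φ : D →+* ℂ) :
    ∃ c : ℕ, c.Coprime M ∧ φ ⟨ζ + ζ⁻¹, hz⟩ = ζ ^ c + (ζ ^ c)⁻¹ := by
  have hζ0 : ζ ≠ 0 := hζ.ne_zero hM
  set s : ℂ := φ ⟨ζ + ζ⁻¹, hz⟩ with hs
  obtain ⟨w, hw⟩ := IsAlgClosed.exists_pow_nat_eq (s ^ 2 - 4) (n := 2) (by norm_num)
  set u : ℂ := (s + w) / 2 with hu
  set v : ℂ := (s - w) / 2 with hv
  have huv : u * v = 1 := by
    rw [hu, hv]
    linear_combination -hw / 4
  have hus : u + v = s := by rw [hu, hv]; ring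
  have key : ∀ m : ℕ, u ^ m = 1 → ζ ^ m = 1 := by
    intro m hm
    have h1 : φ ((dk D m).eval ⟨ζ + ζ⁻¹, hz⟩) = u ^ m + v ^ m := by
      rw [dk_map, ← hs, ← hus, dk_eval huv]
    have h2 : v ^ m = 1 := by
      have : u ^ m * v ^ m = 1 := by rw [← mul_pow, huv, one_pow]
      rwa [hm, one_mul] at this
    rw [hm, h2] at h1
    have h3 : (dk D m).eval ⟨ζ + ζ⁻¹, hz⟩ = 2 := by
      apply φ.injective
      rw [h1]
      rw [map_ofNat]
      norm_num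
    have h4 : ζ ^ m + (ζ⁻¹) ^ m = 2 := by
      have h5 := congrArg (algebraMap D ℂ) h3
      rw [dk_map] at h5
      have h6 : algebraMap D ℂ ⟨ζ + ζ⁻¹, hz⟩ = ζ + ζ⁻¹ := rfl
      rw [h6, dk_eval (mul_inv_cancel₀ hζ0), map_ofNat] at h5
      exact h5
    exact sum_two (by rw [← mul_pow, mul_inv_cancel₀ hζ0, one_pow]) h4
  have hu1 : u ^ M = 1 := by
    have h1 : φ ((dk D M).eval ⟨ζ + ζ⁻¹, hz⟩) = u ^ M + v ^ M := by
      rw [dk_map, ← hs, ← hus, dk_eval huv]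
    have h3 : (dk D M).eval ⟨ζ + ζ⁻¹, hz⟩ = 2 := by
      apply (algebraMap D ℂ).injective
      rw [dk_map]
      have h6 : algebraMap D ℂ ⟨ζ + ζ⁻¹, hz⟩ = ζ + ζ⁻¹ := rfl
      rw [h6, dk_eval (mul_inv_cancel₀ hζ0), map_ofNat, inv_pow, hζ.pow_eq_one]
      norm_num
    rw [h3, map_ofNat] at h1
    exact sum_two (by rw [← mul_pow, huv, one_pow]) h1.symm
  have hprim : IsPrimitiveRoot u M :=
    ⟨hu1, fun l hl => hζ.dvd_of_pow_eq_one l (key l hl)⟩
  have : NeZero M := ⟨hM⟩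
  obtain ⟨c, -, hc1, hc2⟩ := hζ.isPrimitiveRoot_iff.1 hprim
  refine ⟨c, hc1, ?_⟩
  rw [hc2, ← hus, eq_inv_of_mul_eq_one_right huv]

end Gam

open _root_.Pool.Agent.MUXI.Gam _root_.Pool.Agent.MU3I.IGAM in
/-- (GAM) an automorphism `γ` of `K_n / k` with fixed field `K`, acting on the layer as `1 + q0` -/
theorem ti_GAM (h1 : Si_LAY) (h2 : S_GENX) : Si_GAM := by
  intro p _ hp k K Bn _ _ hB n h
  let _ := algC h
  have hp0 : p ≠ 0 := by rcases hp with rfl | rfl <;> norm_num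
  have hpp : p.Prime := Fact.out
  have hBn := h1 p n hp (Bn n) (hB.lay n)
  obtain ⟨g, hg1, hg2, -⟩ := h2 p k K Bn hB.hk hB.deg hB.lay hB.mono n h
  have hgp := gpow hp n
  have hcp := fun {c : ℤ} (hc : ¬ (p : ℤ) ∣ c) => cpow hp n hc
  have hq0 : q0 p ≠ 0 := by
    rcases hp with rfl | rfl <;> unfold q0 <;> norm_num
  have hM0 : q0 p * p ^ n ≠ 0 := mul_ne_zero hq0 (pow_ne_zero _ hp0)
  have hpM : p ∣ q0 p * p ^ n := by
    refine Dvd.dvd.mul_right ?_ _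
    rcases hp with rfl | rfl <;> unfold q0 <;> norm_num
  generalize q0 p * p ^ n = M at *
  set ζ : ℂ := zt M with hζdef
  have hζ : IsPrimitiveRoot ζ M := Complex.isPrimitiveRoot_exp _ hM0
  have hζ0 : ζ ≠ 0 := hζ.ne_zero hM0
  have hζ1 : ζ ^ M = 1 := hζ.pow_eq_one
  have hzD : ζ + ζ⁻¹ ∈ K ⊔ Bn n := by
    have h1 : ζ + ζ⁻¹ ∈ Bn n := by
      rw [hBn]
      exact IntermediateField.mem_adjoin_simple_self ℚ _
    exact (le_sup_right : Bn n ≤ K ⊔ Bn n) h1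
  -- the numbers `T m = ζ^m + ζ^(-m)`
  set t : ↥(K ⊔ Bn n) := ⟨ζ + ζ⁻¹, hzD⟩ with ht
  have hTc : ∀ m : ℕ, (((dk ↥(K ⊔ Bn n) m).eval t : ↥(K ⊔ Bn n)) : ℂ) = ζ ^ m + (ζ ^ m)⁻¹ := by
    intro m
    have h5 := dk_map (algebraMap ↥(K ⊔ Bn n) ℂ) m t
    have h6 : algebraMap ↥(K ⊔ Bn n) ℂ t = ζ + ζ⁻¹ := rfl
    rw [h6, dk_eval (mul_inv_cancel₀ hζ0), inv_pow] at h5
    exact h5
  -- two automorphisms which agree on `K` and on `t` are equal
  have hext : ∀ τ τ' : ↥(K ⊔ Bn n) ≃ₐ[k] ↥(K ⊔ Bn n),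
      (∀ y : ↥(K ⊔ Bn n), (y : ℂ) ∈ K → τ y = τ' y) → τ t = τ' t → τ = τ' := by
    intro τ τ' h1 h2
    apply AlgEquiv.ext
    intro y
    apply Subtype.ext
    exact eqD hBn rfl
      ((algebraMap ↥(K ⊔ Bn n) ℂ).comp (τ : ↥(K ⊔ Bn n) →+* ↥(K ⊔ Bn n)))
      ((algebraMap ↥(K ⊔ Bn n) ℂ).comp (τ' : ↥(K ⊔ Bn n) →+* ↥(K ⊔ Bn n)))
      (fun y hy => congrArg (fun t : ↥(K ⊔ Bn n) => (t : ℂ)) (h1 y hy)) hzD
      (congrArg (fun t : ↥(K ⊔ Bn n) => (t : ℂ)) h2) y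
  -- `g t`
  obtain ⟨c, hcM, hc⟩ := conj hM0 hζ hzD
    ((algebraMap ↥(K ⊔ Bn n) ℂ).comp (g : ↥(K ⊔ Bn n) →+* ↥(K ⊔ Bn n)))
  have hcp' : ¬ (p : ℤ) ∣ (c : ℤ) := by
    intro h3
    have h4 : p ∣ c := by exact_mod_cast h3
    have h5 := Nat.Coprime.eq_one_of_dvd (Nat.Coprime.coprime_dvd_left h4 hcM) hpM
    exact hpp.one_lt.ne' h5
  obtain ⟨e, he⟩ := hcp hcp'
  have hcz : ζ ^ c + (ζ ^ c)⁻¹ = ζ ^ ((1 + q0 p) ^ e) + (ζ ^ ((1 + q0 p) ^ e))⁻¹ := by
    rcases he with he | he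
    · have h3 : ζ ^ c = ζ ^ ((1 + q0 p) ^ e) := by
        refine pow_eq_pow_of_modEq ?_ hζ1
        rw [Nat.modEq_iff_dvd, ← dvd_neg, neg_sub]
        push_cast
        exact he
      rw [h3]
    · have h3 : ζ ^ c * ζ ^ ((1 + q0 p) ^ e) = 1 := by
        rw [← pow_add]
        have h5 : ζ ^ (c + (1 + q0 p) ^ e) = ζ ^ 0 := by
          refine pow_eq_pow_of_modEq ?_ hζ1
          rw [Nat.modEq_iff_dvd, ← dvd_neg]
          push_cast
          have h4 : -(0 - ((c : ℤ) + (1 + (q0 p : ℤ)) ^ e)) = c + (1 + (q0 p : ℤ)) ^ e := by ring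
          rw [h4]
          exact he
        rw [h5, pow_zero]
      have h4 : ζ ^ c = (ζ ^ ((1 + q0 p) ^ e))⁻¹ := eq_inv_of_mul_eq_one_left h3
      rw [h4, inv_inv, add_comm]
  have hgt : g t = (dk ↥(K ⊔ Bn n) ((1 + q0 p) ^ e)).eval t := by
    apply Subtype.ext
    rw [hTc, ← hcz]
    exact hc
  -- the powers of `g`
  have hgi : ∀ i : ℕ, (g ^ i) t = (dk ↥(K ⊔ Bn n) ((1 + q0 p) ^ (e * i))).eval t := by
    intro i
    induction i with
    | zero =>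
      apply Subtype.ext
      rw [hTc, mul_zero, pow_zero, pow_zero, pow_one]
      rfl
    | succ i ih =>
      rw [pow_succ, AlgEquiv.mul_apply, hgt]
      have h5 := dk_map ((g ^ i : ↥(K ⊔ Bn n) ≃ₐ[k] ↥(K ⊔ Bn n)) : ↥(K ⊔ Bn n) →+* ↥(K ⊔ Bn n))
        ((1 + q0 p) ^ e) t
      refine Eq.trans h5 ?_
      apply Subtype.ext
      have h6 := dk_map (algebraMap ↥(K ⊔ Bn n) ℂ) ((1 + q0 p) ^ e) ((g ^ i) t)
      refine Eq.trans h6 ?_
      have h7 : algebraMap ↥(K ⊔ Bn n) ℂ ((g ^ i) t) =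
          ζ ^ ((1 + q0 p) ^ (e * i)) + (ζ ^ ((1 + q0 p) ^ (e * i)))⁻¹ := by
        rw [ih]
        exact hTc _
      rw [h7, dk_eval (mul_inv_cancel₀ (pow_ne_zero _ hζ0)), hTc, inv_pow, ← pow_mul, ← pow_add]
      have h8 : e * i + e = e * (i + 1) := by ring
      rw [h8]
  -- exponents modulo `p^n`
  have hexp : ∀ a b : ℕ, a ≡ b [MOD p ^ n] →
      ζ ^ ((1 + q0 p) ^ a) = ζ ^ ((1 + q0 p) ^ b) := by
    intro a b hab
    refine pow_eq_pow_of_modEq ?_ hζ1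
    have h3 : (((1 + q0 p : ℕ) : ZMod M)) ^ p ^ n = 1 := by
      have h4 : (((1 + (q0 p : ℤ)) ^ p ^ n - 1 : ℤ) : ZMod M) = 0 :=
        (ZMod.intCast_zmod_eq_zero_iff_dvd _ _).2 hgp
      push_cast at h4 ⊢
      linear_combination h4
    have h4 := pow_eq_pow_of_modEq hab h3
    have h5 : (((1 + q0 p) ^ a : ℕ) : ZMod M) = (((1 + q0 p) ^ b : ℕ) : ZMod M) := by
      push_cast at h4 ⊢
      exact h4
    exact (ZMod.natCast_eq_natCast_iff _ _ _).1 h5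
  have hgfix : ∀ (i : ℕ) (y : ↥(K ⊔ Bn n)), (y : ℂ) ∈ K → (g ^ i) y = y := by
    intro i y hy
    induction i with
    | zero => rfl
    | succ i ih => rw [pow_succ', AlgEquiv.mul_apply, ih, (hg2 y).2 hy]
  have hgn : g ^ p ^ n = 1 := by rw [← hg1]; exact pow_orderOf_eq_one g
  -- `e` is prime to `p ^ n`
  have hcop : Nat.Coprime e (p ^ n) := by
    rcases Nat.eq_zero_or_pos n with hn | hn
    · rw [hn, pow_zero]
      exact Nat.coprime_one_right e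
    · refine Nat.Coprime.pow_right n ?_
      rw [Nat.coprime_comm, Nat.Prime.coprime_iff_not_dvd hpp]
      rintro ⟨e', he'⟩
      have h3 : g ^ p ^ (n - 1) = 1 := by
        refine hext _ _ (fun y hy => (hgfix _ y hy).trans rfl) ?_
        apply Subtype.ext
        rw [hgi, hTc]
        have h4 : e * p ^ (n - 1) ≡ 0 [MOD p ^ n] := by
          rw [Nat.modEq_zero_iff_dvd]
          refine ⟨e', ?_⟩
          have h5 : p ^ n = p ^ (n - 1) * p := by
            rw [← pow_succ]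
            congr 1
            omega
          rw [he', h5]
          ring
        rw [hexp _ _ h4, pow_zero, pow_one]
        rfl
      have h4 : orderOf g ∣ p ^ (n - 1) := orderOf_dvd_of_pow_eq_one h3
      rw [hg1] at h4
      have h5 := (Nat.pow_dvd_pow_iff_le_right hpp.one_lt).1 h4
      omega
  obtain ⟨i, hi⟩ : ∃ i : ℕ, e * i ≡ 1 [MOD p ^ n] := by
    rcases Nat.lt_or_ge 1 (p ^ n) with h3 | h3
    · obtain ⟨i, -, hi⟩ := Nat.exists_mul_mod_eq_one_of_coprime hcop h3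
      exact ⟨i, by rw [Nat.ModEq, hi, Nat.mod_eq_of_lt h3]⟩
    · have h4 : p ^ n = 1 := le_antisymm h3 (Nat.one_le_iff_ne_zero.2 (pow_ne_zero _ hp0))
      rw [h4]
      exact ⟨0, Nat.modEq_one⟩
  refine ⟨g ^ i, fun x => ⟨fun hx => ?_, fun hx => hgfix i x hx⟩, fun x hx => ?_⟩
  · have h3 : (g ^ i) ^ e = g := by
      rw [← pow_mul]
      have h4 : g ^ (i * e) = g ^ 1 := by
        refine pow_eq_pow_of_modEq ?_ hgn
        rw [mul_comm]
        exact hi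
      rw [h4, pow_one]
    have h4 : ∀ j : ℕ, ((g ^ i) ^ j) x = x := by
      intro j
      induction j with
      | zero => rfl
      | succ j ih => rw [pow_succ', AlgEquiv.mul_apply, ih, hx]
    have h5 := h4 e
    rw [h3] at h5
    exact (hg2 x).1 h5
  · have hxt : x = t := Subtype.ext hx
    rw [hxt, hgi, hTc, hexp _ _ hi, pow_one]

end

end Pool.Agent.MUXI


end

section

/-!
# MUX, block IX, module EPS2 (helper43): the sign function and the odd character for `p = 2`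
-/

set_option autoImplicit false

namespace Pool.Agent.MUXI

open _root_.MU3 _root_.Pool.Agent.MU3 _root_.Pool.Agent.MU3A _root_.Pool.Agent.MU3B _root_.Pool.Agent.RI _root_.Pool.Agent.RID
  _root_.Pool.Agent.MUX _root_.Pool.Agent.MUXE _root_.Pool.Agent.MUXK
open _root_.Pool.Agent.MU3I (w3 zt)

noncomputable section

namespace EPS2

variable {A B : ℤ}

lemma cop_dvd {x : OO A B} {d m : ℕ} (hd : d ∣ m) (h : IsCoprime x ((m : ℕ) : OO A B)) :
    IsCoprime x ((d : ℕ) : OO A B) := by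
  obtain ⟨c, rfl⟩ := hd
  rw [Nat.cast_mul] at h
  exact h.of_mul_right_left

lemma cop_iff (x : OO A B) (m : ℕ) :
    IsCoprime (sp x) (idl (A := A) (B := B) m) ↔ IsCoprime x ((m : ℕ) : OO A B) :=
  Ideal.isCoprime_span_singleton_iff x _

lemma absD_dvd {P : Ideal (OO A B)} {V : ValuationSubring ℂ} {f : ℕ} (hS : SetP 2 A B P V f) :
    (absD A B).toNat ∣ f := by
  have h1 := hS.fD
  have h2 : 0 < absD A B := by
    have := hS.case.neg
    unfold absD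
    omega
  have h3 : ((absD A B).toNat : ℤ) = absD A B := Int.toNat_of_nonneg h2.le
  rw [← h3] at h1
  exact_mod_cast h1

lemma lv0 (f : ℕ) : lvX 2 f 0 = 2 * (2 * f) := by
  unfold lvX q0
  rw [if_pos rfl, pow_zero]
  ring

lemma lv0' (f : ℕ) : lvX 2 f 0 = 4 * f := by
  rw [lv0]
  ring

lemma cop4_iff (x : OO A B) (f : ℕ) :
    IsCoprime x ((lvX 2 f 0 : ℕ) : OO A B) ↔ IsCoprime (sp x) (idl (A := A) (B := B) (2 * f)) := by
  rw [cop_iff, lv0]
  constructor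
  · exact cop_dvd (dvd_mul_left _ _)
  · intro h
    rw [Nat.cast_mul]
    exact IsCoprime.mul_right (cop_dvd (dvd_mul_right 2 f) h) h

end EPS2

open _root_.Pool.Agent.MUXI.EPS2 in
theorem ti_EPS2 : Si_EPS2 := by
  intro A B P V f hS e0 r hr one _ mul per supp pow
  obtain ⟨κ, hκ⟩ := Pool.Agent.MUX2.kap_exists hS.case
  have hdf := absD_dvd hS
  have hdl : ∀ n, (absD A B).toNat ∣ lvX 2 f n := fun n =>
    hdf.trans ((dvd_mul_right f _).trans (dvd_mul_right _ _))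
  obtain ⟨e, he, he2, -⟩ := Pool.Agent.MUX2.eps_two hS hκ e0 r hr one (fun x y _ _ => mul x y)
    (by
      intro x y h
      apply per
      rw [lv0']
      exact h)
    (by
      intro x hx
      apply pow
      rw [supp, cop4_iff]
      exact hx)
  refine ⟨κ, e, ?_, he, fun x hx => he2 x ((cop4_iff x f).1 hx)⟩
  intro n
  have hpm : ∀ x, IsCoprime x ((lvX 2 f n : ℕ) : OO A B) → κ x = 1 ∨ κ x = -1 := by
    intro x hx
    apply hκ.unit
    rw [cop_iff]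
    exact cop_dvd (hdl n) hx
  refine ⟨?_, hpm, ?_, ?_⟩
  · intro x y h
    apply hκ.per
    obtain ⟨c, hc⟩ := (Pool.Agent.MUX2.idl_mem _ _).1 h
    obtain ⟨d, hd⟩ := hdl n
    rw [Pool.Agent.MUX2.idl_mem]
    refine ⟨c * d, ?_⟩
    rw [hc, hd]
    push_cast
    ring
  · intro x
    have h := hκ.mul (-1) x
    rw [hκ.neg] at h
    rw [← neg_one_mul x, h]
    ring
  · intro x hx
    have hxP : x ∉ P := by
      intro h1
      have h2 : ((lvX 2 f n : ℕ) : OO A B) ∈ P := by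
        have h3 : lvX 2 f n = 2 * (2 * f * 2 ^ n) := by
          unfold lvX q0
          rw [if_pos rfl]
          ring
        rw [h3, Nat.cast_mul]
        exact P.mul_mem_right _ hS.hP.mem
      obtain ⟨a, b, hab⟩ := hx
      apply hS.hP.prime.ne_top
      rw [Ideal.eq_top_iff_one, ← hab]
      exact P.add_mem (P.mul_mem_left _ h1) (P.mul_mem_left _ h2)
    have hw : wP P x = 1 ∨ wP P x = -1 := by
      classical
      unfold wP
      rw [if_neg hxP]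
      split_ifs
      · left; rfl
      · right; rfl
    rcases hpm x hx with h1 | h1 <;> rcases hw with h2 | h2 <;> rw [h1, h2] <;> norm_num

end

end Pool.Agent.MUXI


end

section

/-!
# MUX, block IX: all statements of `StIX.lean` (helper36). The only input is `Sy_HFX` (block H)
-/

set_option autoImplicit false

namespace Pool.Agent.MUXI

open _root_.Pool.Agent.MUXF _root_.Pool.Agent.MUXU _root_.Pool.Agent.MUXY _root_.Pool.Agent.MUXK

theorem i_HFX : Si_HFX := ti_HFX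
theorem i_CHI : Si_CHI := ti_CHI
theorem i_FOU : Si_FOU := ti_FOU i_HFX
theorem i_PQF : Si_PQF := ti_PQF xf_IDL
theorem i_EPS3 : Si_EPS3 := ti_EPS3 i_PQF xf_ALG
theorem i_EPS2 : Si_EPS2 := ti_EPS2
theorem i_IAF : Si_IAF := ti_IAF u_DET
theorem i_IAG : Si_IAG := ti_IAG i_IAF
theorem i_RPR : Si_RPR := ti_RPR xf_ALG xf_IDL xf_NIM
theorem i_HIT : Si_HIT := ti_HIT i_IAF i_IAG i_RPR y_MUI y_UNJ xf_ALG
theorem i_ARF : Si_ARF := ti_ARF i_IAF i_IAG
theorem i_XXF : Si_XXF := ti_XXF i_HIT i_ARF i_RPR i_IAF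
theorem i_E0 : Si_E0 := ti_E0 i_ARF xf_NIM
theorem i_LAY : Si_LAY := ti_LAY
theorem i_SUB : Si_SUB := ti_SUB i_LAY i_IAF
theorem i_GAM : Si_GAM := ti_GAM i_LAY k_GENX
theorem i_XMX : Si_XMX := ti_XMX i_XXF i_ARF i_LAY
theorem i_BIJ : Si_BIJ := ti_BIJ k_GALX
theorem i_PTP : Si_PTP := ti_PTP
theorem i_TSH : Si_TSH := ti_TSH i_PTP i_PQF xf_ALG
theorem i_TH : Si_TH := ti_TH i_TSH i_PQF
theorem i_GEN : Si_GEN := ti_GEN k_GALX

/-- the result of block IX -/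
theorem i_I3 (hH : Pool.Agent.MUXHY.Sy_HFX) : Si_I3 :=
  ti_I3 i_HFX i_CHI i_FOU i_EPS3 i_EPS2 i_ARF i_XXF i_E0 i_SUB i_GAM i_XMX i_BIJ i_TH i_GEN y_ALM hH

end Pool.Agent.MUXI


end

section

/-!
# MUX, block I: assembly (helper3)
-/

set_option autoImplicit false

namespace Pool.Agent.MUXI

open _root_.Pool.Agent.MUXF _root_.Pool.Agent.MUXU _root_.Pool.Agent.MUXC _root_.Pool.Agent.MUXK

theorem z_HFX : Si_HFX := ti_HFX
theorem z_FOU : Si_FOU := ti_FOU z_HFX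
theorem z_PQF : Si_PQF := ti_PQF xf_IDL
theorem z_EPS3 : Si_EPS3 := ti_EPS3 z_PQF xf_ALG
theorem z_EPS2 : Si_EPS2 := ti_EPS2
theorem z_IAF : Si_IAF := ti_IAF u_DET
theorem z_IAG : Si_IAG := ti_IAG z_IAF
theorem z_ARF : Si_ARF := ti_ARF z_IAF z_IAG
theorem z_RPR : Si_RPR := ti_RPR xf_ALG xf_IDL xf_NIM
theorem z_HIT : Si_HIT := ti_HIT z_IAF z_IAG z_RPR MUXY.z_MUI MUXY.z_UNJ xf_ALG
theorem z_XXF : Si_XXF := ti_XXF z_HIT z_ARF z_RPR z_IAF
theorem z_E0 : Si_E0 := ti_E0 z_ARF xf_NIM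
theorem z_LAY : Si_LAY := ti_LAY
theorem z_SUB : Si_SUB := ti_SUB z_LAY z_IAF
theorem z_GAM : Si_GAM := ti_GAM z_LAY t_GENX
theorem z_BIJ : Si_BIJ := ti_BIJ t_GALX
theorem z_PTP : Si_PTP := ti_PTP
theorem z_TSH : Si_TSH := ti_TSH z_PTP z_PQF xf_ALG
theorem z_TH : Si_TH := ti_TH z_TSH z_PQF
theorem z_GEN : Si_GEN := ti_GEN t_GALX

theorem z_CHI : Si_CHI := ti_CHI
theorem z_XMX : Si_XMX := ti_XMX z_XXF z_ARF z_LAY

theorem z_I3 (hHY : Pool.Agent.MUXHY.Sy_HFX) : Si_I3 :=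
  ti_I3 z_HFX z_CHI z_FOU z_EPS3 z_EPS2 z_ARF z_XXF z_E0 z_SUB z_GAM z_XMX z_BIJ z_TH z_GEN
    MUXY.z_ALM hHY

end Pool.Agent.MUXI


end
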