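import Mathlib
import Pool.Agent.MVF.C087

/-! Parts: MUX.W_I1, MUX.RQAll, MUX.W_PRQ, MUX.W_NRM -/

namespace Pool.Agent.MUXW.I1W
end Pool.Agent.MUXW.I1W
namespace Pool.Agent.MUXW.NRMaux
end Pool.Agent.MUXW.NRMaux
namespace Pool.Agent.MUXW.PrqX
end Pool.Agent.MUXW.PrqX

section

/-!
# MUX, block W, module I1 (helper4): the norm relation (I1)
-/

set_option autoImplicit false

open WeierstrassCurve Polynomial NumberField IsDedekindDomain

namespace Pool.Agent.MUXW

open _root_.MU3 _root_.Pool.Agent.MU3A _root_.Pool.Agent.MU3B _root_.Pool.Agent.MU3C _root_.Pool.Agent.RI _root_.Pool.Agent.RID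
open _root_.Pool.Agent.MUX _root_.Pool.Agent.MUXU
open _root_.Pool.Agent.MU3V (cls Sub GD)
open _root_.Pool.Agent.MUXV (GR InK tX CMO Ovr)

noncomputable section

namespace I1W

/-- a product over a full inverse image, fibre by fibre -/
lemma prod_fibres {G' G : Type*} [Group G'] [Group G] [Finite G'] (r : G' →* G)
    (hr : Function.Surjective r) (X : Set G) (f : G' → ℂ) (g : G → ℂ) (C : ℂ)
    (hf : ∀ s : G', r s ∈ X → ∏ᶠ t : {t : G' // r t = 1}, f (s * t.1) = C * g (r s)) :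
    ∏ᶠ s : {s : G' // r s ∈ X}, f s.1 = C ^ Nat.card X * ∏ᶠ x : X, g x.1 := by
  classical
  have : Finite G := Finite.of_surjective r hr
  letI := Fintype.ofFinite G'
  letI := Fintype.ofFinite G
  rw [finprod_eq_prod_of_fintype, finprod_eq_prod_of_fintype]
  have e1 : ∏ s : {s : G' // r s ∈ X}, f s.1 =
      ∏ s ∈ (Finset.univ : Finset G').filter (fun s => r s ∈ X), f s := by
    symm
    exact Finset.prod_subtype _ (by simp) f
  have e2 : ∏ x : X, g x.1 = ∏ x ∈ (Finset.univ : Finset G).filter (fun x => x ∈ X), g x := by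
    symm
    exact Finset.prod_subtype _ (by simp) g
  have e3 : Nat.card X = ((Finset.univ : Finset G).filter (fun x => x ∈ X)).card := by
    rw [Nat.card_eq_fintype_card, ← Set.toFinset_card]
    congr 1
    ext x
    simp
  rw [e1, e2, e3, ← Finset.prod_const, ← Finset.prod_mul_distrib,
    ← Finset.prod_fiberwise_of_maps_to (s := (Finset.univ : Finset G').filter (fun s => r s ∈ X))
      (t := (Finset.univ : Finset G).filter (fun x => x ∈ X)) (g := r)
      (fun s hs => by simpa using hs)]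
  refine Finset.prod_congr rfl fun x hx => ?_
  obtain ⟨s, rfl⟩ := hr x
  have hx' : r s ∈ X := by simpa using hx
  rw [← hf s hx', finprod_eq_prod_of_fintype]
  symm
  refine Finset.prod_bij (fun t _ => s * t.1) ?_ ?_ ?_ ?_
  · rintro ⟨t, ht⟩ _
    simp only [Finset.mem_filter, Finset.mem_univ, true_and]
    have h1 : r (s * t) = r s := by rw [map_mul, ht, mul_one]
    exact ⟨by rw [h1]; exact hx', h1⟩
  · rintro ⟨t, ht⟩ _ ⟨t', ht'⟩ _ h
    exact Subtype.ext (mul_left_cancel h)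
  · intro u hu
    simp only [Finset.mem_filter, Finset.mem_univ, true_and] at hu
    refine ⟨⟨s⁻¹ * u, by rw [map_mul, map_inv, hu.2, inv_mul_cancel]⟩, Finset.mem_univ _, ?_⟩
    exact mul_inv_cancel_left s u
  · rintro ⟨t, ht⟩ _
    rfl

lemma fp_congr {α : Type*} {P Q : α → Prop} (h : ∀ a, P a ↔ Q a) (f : α → ℂ) :
    ∏ᶠ a : {a // P a}, f a.1 = ∏ᶠ a : {a // Q a}, f a.1 := by
  have e : P = Q := funext fun a => propext (h a)
  subst e
  rfl

/-- a product over the elements with image in a cyclic group -/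
lemma prod_cyclic {G' G : Type*} [Finite G'] [Group G] (ρ : G' → G) (X : Set G') (σ : G)
    (p : ℕ) (hp : orderOf σ = p) (f : G' → ℂ)
    (h1 : ∀ s, s ∈ X ↔ ∃ i < p, ρ s = σ ^ i) :
    ∏ i ∈ Finset.range p, ∏ᶠ s : {s : G' // ρ s = σ ^ i}, f s.1 = ∏ᶠ s : X, f s.1 := by
  classical
  letI := Fintype.ofFinite G'
  have e2 : ∏ᶠ x : X, f x.1 = ∏ x ∈ (Finset.univ : Finset G').filter (fun x => x ∈ X), f x := by
    rw [finprod_eq_prod_of_fintype]
    symm
    exact Finset.prod_subtype _ (by simp) f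
  have inj : Set.InjOn (fun i : ℕ => σ ^ i) (Finset.range p : Set ℕ) := by
    intro i hi j hj hij
    rw [Finset.coe_range, Set.mem_Iio] at hi hj
    exact pow_injOn_Iio_orderOf (by rw [hp]; exact hi) (by rw [hp]; exact hj) hij
  rw [e2, ← Finset.prod_fiberwise_of_maps_to (s := (Finset.univ : Finset G').filter (fun s => s ∈ X))
      (t := (Finset.range p).image (fun i => σ ^ i)) (g := ρ) ?_, Finset.prod_image inj]
  · refine Finset.prod_congr rfl fun i hi => ?_
    rw [finprod_eq_prod_of_fintype]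
    symm
    refine Finset.prod_subtype _ (fun s => ?_) f
    simp only [Finset.mem_filter, Finset.mem_univ, true_and]
    exact ⟨fun h => h.2, fun h => ⟨(h1 s).2 ⟨i, Finset.mem_range.1 hi, h⟩, h⟩⟩
  · intro s hs
    obtain ⟨i, hi, h2⟩ := (h1 s).1 (by simpa using hs)
    rw [h2]
    exact Finset.mem_image_of_mem _ (Finset.mem_range.2 hi)

/-- an automorphism which fixes the fixed field of `σ` is a power of `σ` -/
lemma mem_powers {K M : Type*} [Field K] [Field M] [Algebra K M] [FiniteDimensional K M]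
    (σ τ : M ≃ₐ[K] M) (p : ℕ) (hσ : orderOf σ = p) (hp : p ≠ 0) (h : ∀ x, σ x = x → τ x = x) :
    ∃ i < p, τ = σ ^ i := by
  have h1 : τ ∈ (IntermediateField.fixedField (Subgroup.zpowers σ)).fixingSubgroup := by
    rw [IntermediateField.mem_fixingSubgroup_iff]
    intro x hx
    rw [IntermediateField.mem_fixedField_iff] at hx
    exact h x (hx σ (Subgroup.mem_zpowers σ))
  rw [IntermediateField.fixingSubgroup_fixedField] at h1
  have h2 : IsOfFinOrder σ := orderOf_pos_iff.1 (by omega)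
  obtain ⟨n, hn⟩ := (h2.mem_powers_iff_mem_zpowers.2 h1)
  have hn' : σ ^ n = τ := hn
  rw [← pow_mod_orderOf, hσ] at hn'
  exact ⟨n % p, Nat.mod_lt _ (Nat.pos_of_ne_zero hp), hn'.symm⟩

/-- the norm relation for fields `k ≤ D ≤ F ≤ F'`, `D ≤ D' ≤ F'` -/
lemma core (hMEM : Sy_MEM) {A B : ℤ} {F F' : IntermediateField (kk A B) ℂ} (hFF' : F ≤ F')
    (hfd : FiniteDimensional (kk A B) F') (hgal : IsGalois (kk A B) F)
    (hgal' : IsGalois (kk A B) F') (hcomm : ∀ σ τ : F' ≃ₐ[kk A B] F', σ * τ = τ * σ)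
    {D D' : IntermediateField ℚ ℂ} (h : kk A B ≤ D) (h' : kk A B ≤ D') (hDD' : D ≤ D')
    (hsub : _root_.Pool.Agent.MU3V.Sub D F) (hsub' : _root_.Pool.Agent.MU3V.Sub D' F') (θ : F) (θ' : F') (hθ' : θ' ≠ 0) {C : ℂ} (hCD : C ∈ D)
    (hC : ∏ᶠ σ : {σ : F' ≃ₐ[kk A B] F' // ∀ x : F', (x : ℂ) ∈ F → σ x = x},
      ((σ.1 θ' : F') : ℂ) = C * θ) :
    letI := algC h
    letI := algC h'
    ∀ (p : ℕ) (σ : D' ≃ₐ[kk A B] D'), (∀ x : D', σ x = x ↔ (x : ℂ) ∈ D) → orderOf σ = p → p ≠ 0 →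
    ∀ c' : D', (c' : ℂ) = cW h' θ' →
      ∏ i ∈ Finset.range p, (((σ ^ i) c' : D') : ℂ) = C ^ Nat.card (GD h F) * cW h θ := by
  classical
  letI := algC h
  letI := algC h'
  intro p σ hσ hord hp c' hc'
  obtain ⟨-, -, M3, -, M5⟩ := hMEM A B F' hfd hgal' hcomm D' h' hsub' θ' hθ'
  have hc1 : cW h' θ' ∈ D' := hc' ▸ c'.2
  have hc2 : c' = ⟨cW h' θ', hc1⟩ := Subtype.ext hc'
  have hfin : Finite (F' ≃ₐ[kk A B] F') := inferInstance
  have hfdD' : FiniteDimensional (kk A B) D' := by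
    let f : D' →ₗ[kk A B] F' :=
      { toFun := fun y => ⟨(y : ℂ), hsub' _ y.2⟩
        map_add' := fun x y => rfl
        map_smul' := fun c x => rfl }
    refine FiniteDimensional.of_injective f ?_
    intro x y hxy
    have := congrArg (fun z : F' => (z : ℂ)) hxy
    exact Subtype.ext this
  -- the restriction to `D'`
  choose ρ hρ using M5
  have hE : ∀ (τ : D' ≃ₐ[kk A B] D') (s : F' ≃ₐ[kk A B] F'), Ext1 h' τ s ↔ ρ s = τ := by
    intro τ s
    constructor
    · intro h1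
      ext y
      have e1 := hρ s y (hsub' _ y.2)
      have e2 := h1 y (hsub' _ y.2)
      exact (e1.symm.trans e2)
    · intro h1
      rw [← h1]
      exact hρ s
  have hX' : ∀ s : F' ≃ₐ[kk A B] F', s ∈ GD h F' ↔ ∃ i < p, ρ s = σ ^ i := by
    intro s
    constructor
    · intro hs
      refine mem_powers σ (ρ s) p hord hp fun x hx => ?_
      have hxD := (hσ x).1 hx
      have e1 := hρ s x (hsub' _ x.2)
      have e2 := hs (x : ℂ) hxD (hsub' _ x.2)
      rw [e2] at e1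
      exact Subtype.ext e1.symm
    · rintro ⟨i, -, hi⟩ y hy hyF
      have hyD' := hDD' hy
      have e1 := hρ s ⟨y, hyD'⟩ hyF
      have e2 : σ ⟨y, hyD'⟩ = ⟨y, hyD'⟩ := (hσ ⟨y, hyD'⟩).2 hy
      have e3 : ∀ j : ℕ, (σ ^ j) ⟨y, hyD'⟩ = ⟨y, hyD'⟩ := by
        intro j
        induction j with
        | zero => rfl
        | succ j ih => rw [pow_succ, AlgEquiv.mul_apply, e2, ih]
      rw [hi, e3] at e1
      exact Subtype.ext e1
  have step1 : ∏ i ∈ Finset.range p, (((σ ^ i) c' : D') : ℂ) =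
      ∏ᶠ s : (GD h F' : Set (F' ≃ₐ[kk A B] F')), ((s.1 θ' : F') : ℂ) := by
    rw [← prod_cyclic ρ (GD h F' : Set (F' ≃ₐ[kk A B] F')) σ p hord
      (fun s => ((s θ' : F') : ℂ)) hX']
    refine Finset.prod_congr rfl fun i _ => ?_
    rw [hc2, M3 (σ ^ i) hc1]
    unfold cWt
    exact fp_congr (hE (σ ^ i)) (fun s => ((s θ' : F') : ℂ))
  -- the restriction to `F`
  letI : Algebra F F' := (IntermediateField.inclusion hFF').toRingHom.toAlgebra
  haveI : IsScalarTower (kk A B) F F' := IsScalarTower.of_algebraMap_eq' rfl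
  have hnF : Normal (kk A B) F := hgal.to_normal
  have hnF' : Normal (kk A B) F' := hgal'.to_normal
  obtain ⟨r, hr⟩ : ∃ r : (F' ≃ₐ[kk A B] F') →* (F ≃ₐ[kk A B] F),
      r = AlgEquiv.restrictNormalHom F := ⟨_, rfl⟩
  have hrs : Function.Surjective r := by
    rw [hr]
    exact AlgEquiv.restrictNormalHom_surjective F'
  have hrc : ∀ (s : F' ≃ₐ[kk A B] F') (y : ℂ) (hy : y ∈ F),
      ((r s ⟨y, hy⟩ : F) : ℂ) = ((s ⟨y, hFF' hy⟩ : F') : ℂ) := by
    intro s y hy
    rw [hr]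
    exact congrArg (fun z : F' => (z : ℂ)) (AlgEquiv.restrictNormal_commutes s F ⟨y, hy⟩)
  have hX : ∀ s : F' ≃ₐ[kk A B] F', s ∈ (GD h F' : Set (F' ≃ₐ[kk A B] F')) ↔
      r s ∈ (GD h F : Set (F ≃ₐ[kk A B] F)) := by
    intro s
    constructor
    · intro hs y hy hyF
      have e1 := hs y hy (hFF' hyF)
      apply Subtype.ext
      rw [hrc, e1]
    · intro hs y hy hyF'
      have e1 := hs y hy (hsub y hy)
      have e2 := hrc s y (hsub y hy)
      rw [e1] at e2
      exact Subtype.ext e2.symm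
  have hker : ∀ t : F' ≃ₐ[kk A B] F', r t = 1 ↔ ∀ x : F', (x : ℂ) ∈ F → t x = x := by
    intro t
    constructor
    · intro ht x hx
      have e1 := hrc t (x : ℂ) hx
      rw [ht] at e1
      exact Subtype.ext e1.symm
    · intro ht
      ext y
      have e1 := hrc t (y : ℂ) y.2
      have e2 := ht ⟨(y : ℂ), hFF' y.2⟩ y.2
      rw [e2] at e1
      exact e1
  letI := Fintype.ofFinite (F' ≃ₐ[kk A B] F')
  letI := Fintype.ofFinite {t : F' ≃ₐ[kk A B] F' // r t = 1}
  have hP : (∏ t : {t : F' ≃ₐ[kk A B] F' // r t = 1}, (t.1 θ' : F') : F') =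
      ⟨C, hFF' (hsub C hCD)⟩ * ⟨(θ : ℂ), hFF' θ.2⟩ := by
    apply Subtype.ext
    have e1 : ((∏ t : {t : F' ≃ₐ[kk A B] F' // r t = 1}, (t.1 θ' : F') : F') : ℂ) =
        ∏ t : {t : F' ≃ₐ[kk A B] F' // r t = 1}, ((t.1 θ' : F') : ℂ) :=
      map_prod F'.val _ _
    rw [e1, ← finprod_eq_prod_of_fintype, fp_congr hker (fun t => ((t θ' : F') : ℂ)), hC]
    rfl
  rw [step1]
  have e0 : ∏ᶠ s : (GD h F' : Set (F' ≃ₐ[kk A B] F')), ((s.1 θ' : F') : ℂ) =
      ∏ᶠ s : {s : F' ≃ₐ[kk A B] F' // r s ∈ (GD h F : Set (F ≃ₐ[kk A B] F))},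
        ((s.1 θ' : F') : ℂ) := fp_congr hX (fun s => ((s θ' : F') : ℂ))
  rw [e0, prod_fibres r hrs (GD h F : Set (F ≃ₐ[kk A B] F)) (fun s => ((s θ' : F') : ℂ))
    (fun τ => ((τ θ : F) : ℂ)) C]
  · rfl
  · intro s hs
    rw [finprod_eq_prod_of_fintype]
    have e1 : ∏ t : {t : F' ≃ₐ[kk A B] F' // r t = 1}, (((s * t.1) θ' : F') : ℂ) =
        ((s (∏ t : {t : F' ≃ₐ[kk A B] F' // r t = 1}, (t.1 θ' : F')) : F') : ℂ) := by
      rw [map_prod s]
      exact (map_prod F'.val _ _).symm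
    rw [e1, hP, map_mul]
    have hs' := (hX s).2 hs
    have e2 : s ⟨C, hFF' (hsub C hCD)⟩ = ⟨C, hFF' (hsub C hCD)⟩ := hs' C hCD _
    have e3 := hrc s (θ : ℂ) θ.2
    rw [e2]
    show C * ((s ⟨(θ : ℂ), hFF' θ.2⟩ : F') : ℂ) = C * ((r s θ : F) : ℂ)
    rw [← e3]

end I1W

open _root_.Pool.Agent.MUXW.I1W in
theorem ty_I1 (hNRM : Sy_NRM) (hMEM : Sy_MEM) : Sy_I1 := by
  classical
  intro A B hc T L Om hL m b hm hbm hm2 a H ha ham hH θ θ' hθ hθ' D D' h h' hDD' hHD hsub hsub'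
  letI := algC h
  letI := algC h'
  intro p σ hσ hord hp c' hc'
  obtain ⟨C, hCm, hC0, hC⟩ := hNRM A B hc T L Om hL m b hm hbm hm2 a H ha ham hH θ θ' hθ hθ'
  -- the fields
  have hb0 : b ≠ 0 := fun h0 => hm (by rw [h0] at hbm; exact zero_dvd_iff.1 hbm)
  obtain ⟨-, -, -, -, -, -, -, -, -, -, -, -, hdom⟩ :=
    Pool.Agent.MUXV.tq_EMB A B ⟨hc.hB, hc.neg, hc.fund1, hc.fund0⟩
  have hbotF : sp m ≠ (⊥ : Ideal (OO A B)) := by
    rw [Ne, Ideal.span_singleton_eq_bot]
    exact hm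
  have hbotF' : sp (b * m) ≠ (⊥ : Ideal (OO A B)) := by
    rw [Ne, Ideal.span_singleton_eq_bot]
    exact mul_ne_zero hb0 hm
  have hFF' : (RF (sp m) : IntermediateField (kk A B) ℂ) ≤ RF (sp (b * m)) :=
    T.mono _ _ (Ideal.span_singleton_le_span_singleton.2 (Dvd.intro_left _ rfl))
  have hfd' := T.fin _ hbotF'
  by_cases h0 : θ' = 0
  · -- degenerate case
    have hfin : Finite ((RF (sp (b * m)) : IntermediateField (kk A B) ℂ) ≃ₐ[kk A B]
      RF (sp (b * m))) := inferInstance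
    have e1 : (C * θ : ℂ) = 0 := by
      rw [← hC]
      refine finprod_eq_zero _ ⟨1, fun x _ => rfl⟩ ?_ (Set.toFinite _)
      rw [h0, map_zero]
      rfl
    have e2 : (θ : ℂ) = 0 := by
      rcases mul_eq_zero.1 e1 with h1 | h1
      · exact absurd h1 hC0
      · exact h1
    have e3 : θ = 0 := Subtype.ext e2
    have hfd := T.fin _ hbotF
    have hfin2 : Finite ((RF (sp m) : IntermediateField (kk A B) ℂ) ≃ₐ[kk A B]
      RF (sp m)) := inferInstance
    have e4 : cW h θ = 0 := by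
      unfold cW
      refine finprod_eq_zero _ (1 : GD h (RF (sp m) : IntermediateField (kk A B) ℂ)) ?_
        (Set.toFinite _)
      rw [e3, map_zero]
      rfl
    have e5 : cW h' θ' = 0 := by
      unfold cW
      refine finprod_eq_zero _ (1 : GD h' (RF (sp (b * m)) : IntermediateField (kk A B) ℂ)) ?_
        (Set.toFinite _)
      rw [h0, map_zero]
      rfl
    refine ⟨1, one_mem _, one_ne_zero, ?_⟩
    rw [e4, mul_zero]
    have e6 : c' = 0 := Subtype.ext (hc'.trans e5)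
    refine Finset.prod_eq_zero (Finset.mem_range.2 (Nat.pos_of_ne_zero hp)) ?_
    rw [e6, map_zero]
    rfl
  · refine ⟨C ^ Nat.card (GD h (RF (sp m) : IntermediateField (kk A B) ℂ)), pow_mem hCm _,
      pow_ne_zero _ hC0, ?_⟩
    exact core hMEM hFF' hfd' (T.gal _ hbotF) (T.gal _ hbotF') (T.comm _ hbotF') h h' hDD' hsub
      hsub' θ θ' h0 (hHD C hCm) hC p σ hσ hord hp c' hc'

end

end Pool.Agent.MUXW


end

section

/-!
# MUX, block R: all statements of `StVX.lean` and `StQX.lean`, without hypotheses (helper59)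
-/

set_option autoImplicit false

namespace Pool.Agent.MUXV

theorem x_NGR : Sx_NGR := tx_NGR x_XIC
theorem q_FRX : Sq_FRX := tq_FRX q_ISQ q_VQI x_NGR x_FRN

end Pool.Agent.MUXV


end

section

/-!
# MUX, block W, module PRQ (helper37): the ring of integers of `k`

`𝓞 k = emb O` for any imaginary quadratic field `k = ℚ(w)` (`CQ A B`), and the ideals of `O` and of `𝓞 k` correspond.
-/

set_option autoImplicit false

open NumberField

namespace Pool.Agent.MUXW

open _root_.MU3 _root_.Pool.Agent.MU3A _root_.Pool.Agent.MU3B _root_.Pool.Agent.MU3C _root_.Pool.Agent.RI _root_.Pool.Agent.RID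
open _root_.Pool.Agent.MUX _root_.Pool.Agent.MUXU

noncomputable section

namespace PrqX

open _root_.Pool.Agent.MU3A.INT (conj_w int_of_isIntegral int_of_sq)

variable {A B : ℤ}

/-- the equation of `w` -/
abbrev Wsq (A B : ℤ) : Prop := wC A B ^ 2 = A + B * wC A B

lemma w_int (h : Wsq A B) : IsIntegral ℤ (wC A B) := by
  refine ⟨Polynomial.X ^ 2 - Polynomial.C B * Polynomial.X - Polynomial.C A, ?_, ?_⟩
  · monicity!
  · rw [Polynomial.eval₂_sub, Polynomial.eval₂_sub, Polynomial.eval₂_mul, Polynomial.eval₂_C,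
      Polynomial.eval₂_C, Polynomial.eval₂_X, Polynomial.eval₂_pow, Polynomial.eval₂_X,
      eq_intCast, eq_intCast]
    linear_combination h

lemma repr (h : Wsq A B) {x : ℂ} (hx : x ∈ kk A B) : ∃ s t : ℚ, x = s + t * wC A B := by
  have hQ : IsIntegral ℚ (wC A B) := (w_int h).tower_top
  have h1 : x ∈ (kk A B).toSubalgebra := hx
  rw [IntermediateField.adjoin_simple_toSubalgebra_of_isAlgebraic hQ.isAlgebraic] at h1
  clear hx
  induction h1 using Algebra.adjoin_induction with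
  | mem y hy =>
    rw [Set.mem_singleton_iff] at hy
    exact ⟨0, 1, by rw [hy]; push_cast; ring⟩
  | algebraMap r => exact ⟨r, 0, by simp⟩
  | add y z _ _ hy hz =>
    obtain ⟨s, t, rfl⟩ := hy
    obtain ⟨s', t', rfl⟩ := hz
    exact ⟨s + s', t + t', by push_cast; ring⟩
  | mul y z _ _ hy hz =>
    obtain ⟨s, t, rfl⟩ := hy
    obtain ⟨s', t', rfl⟩ := hz
    refine ⟨s * s' + t * t' * A, s * t' + t * s' + t * t' * B, ?_⟩
    push_cast
    linear_combination (t : ℂ) * t' * h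

lemma emb_int (h : Wsq A B) (y : OO A B) : IsIntegral ℤ (emb y) := by
  unfold emb
  exact (isIntegral_algebraMap (R := ℤ) (x := y.re)).add
    ((isIntegral_algebraMap (R := ℤ) (x := y.im)).mul (w_int h))

/-- `D` squarefree and `D u²` an integer: `u` is an integer -/
lemma int_of_squarefree {D m : ℤ} (hD : Squarefree D) {u : ℚ} (h : (D : ℚ) * u ^ 2 = m) :
    ∃ z : ℤ, u = z := by
  have hD0 : D ≠ 0 := hD.ne_zero
  have hden : (u.den : ℤ) ≠ 0 := by exact_mod_cast u.den_ne_zero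
  have hq : (u.den : ℚ) ≠ 0 := by exact_mod_cast u.den_ne_zero
  have hu : u = (u.num : ℚ) / (u.den : ℚ) := (Rat.num_div_den u).symm
  have h1 : D * u.num ^ 2 = m * (u.den : ℤ) ^ 2 := by
    have h2 : (D : ℚ) * (u.num : ℚ) ^ 2 = m * (u.den : ℚ) ^ 2 := by
      rw [← h, ← Rat.mul_den_eq_num u]
      ring
    exact_mod_cast h2
  have hcop : IsCoprime (u.den : ℤ) u.num := by
    rw [Int.isCoprime_iff_gcd_eq_one]
    have := u.reduced
    rw [Int.gcd_comm]
    simpa [Int.gcd] using this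
  have h3 : (u.den : ℤ) ^ 2 ∣ D := by
    have h4 : (u.den : ℤ) ^ 2 ∣ D * u.num ^ 2 := ⟨m, by rw [h1]; ring⟩
    exact (hcop.pow).dvd_of_dvd_mul_right h4
  have h5 : IsUnit (u.den : ℤ) := hD _ (by rwa [pow_two] at h3)
  have h6 : u.den = 1 := by
    have := Int.isUnit_iff.1 h5
    omega
  exact ⟨u.num, by rw [hu, h6]; simp⟩

lemma arith (h : CQ A B) {s t : ℚ} {T N : ℤ} (hT : 2 * s + B * t = T)
    (hN : s ^ 2 + B * s * t - A * t ^ 2 = N) : (∃ z : ℤ, s = z) ∧ ∃ z : ℤ, t = z := by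
  rcases h.hB with hB | hB
  · obtain ⟨hsq, h4⟩ := h.fund0 hB
    subst hB
    have h1 : 2 * s = T := by rw [← hT]; push_cast; ring
    have h2 : s ^ 2 - A * t ^ 2 = N := by rw [← hN]; push_cast; ring
    have h3 : (A : ℚ) * (2 * t) ^ 2 = ((T ^ 2 - 4 * N : ℤ) : ℚ) := by
      push_cast
      rw [← h1, ← h2]
      ring
    obtain ⟨u, hu⟩ := int_of_squarefree hsq h3
    rw [hu] at h3
    have h5 : A * u ^ 2 = T ^ 2 - 4 * N := by exact_mod_cast h3
    have hA4 : ¬ (4 : ℤ) ∣ A := by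
      intro h6
      have h7 := hsq 2 (by norm_num; exact h6)
      have := Int.isUnit_iff.1 h7
      omega
    have hpar : Even T ∧ Even u := by
      rcases Int.even_or_odd T with hTe | hTo
      · refine ⟨hTe, ?_⟩
        by_contra hne
        rw [Int.not_even_iff_odd] at hne
        obtain ⟨a, ha⟩ := hTe
        obtain ⟨b, hb⟩ := hne
        apply hA4
        have e : A * u ^ 2 = A + 4 * (A * (b ^ 2 + b)) := by rw [hb]; ring
        have e' : T ^ 2 = 4 * a ^ 2 := by rw [ha]; ring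
        exact ⟨a ^ 2 - N - A * (b ^ 2 + b), by linarith⟩
      · exfalso
        rcases Int.even_or_odd u with hue | huo
        · obtain ⟨a, ha⟩ := hTo
          obtain ⟨b, hb⟩ := hue
          have e : A * u ^ 2 = 4 * (A * b ^ 2) := by rw [hb]; ring
          have e' : T ^ 2 = 4 * (a ^ 2 + a) + 1 := by rw [ha]; ring
          omega
        · obtain ⟨a, ha⟩ := hTo
          obtain ⟨b, hb⟩ := huo
          apply h4
          have e : A * u ^ 2 = A + 4 * (A * (b ^ 2 + b)) := by rw [hb]; ring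
          have e' : T ^ 2 = 4 * (a ^ 2 + a) + 1 := by rw [ha]; ring
          exact ⟨a ^ 2 + a - N - A * (b ^ 2 + b), by linarith⟩
    obtain ⟨⟨a, ha⟩, ⟨b, hb⟩⟩ := hpar
    refine ⟨⟨a, ?_⟩, ⟨b, ?_⟩⟩
    · rw [ha] at h1
      push_cast at h1
      linarith
    · rw [hb] at hu
      push_cast at hu
      linarith
  · have hsq := h.fund1 hB
    subst hB
    have h1 : 2 * s + t = T := by rw [← hT]; push_cast; ring
    have h2 : s ^ 2 + s * t - A * t ^ 2 = N := by rw [← hN]; push_cast; ring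
    have h3 : ((1 + 4 * A : ℤ) : ℚ) * t ^ 2 = ((T ^ 2 - 4 * N : ℤ) : ℚ) := by
      push_cast
      rw [← h1, ← h2]
      ring
    obtain ⟨u, hu⟩ := int_of_squarefree hsq h3
    rw [hu] at h3
    have h5 : (1 + 4 * A) * u ^ 2 = T ^ 2 - 4 * N := by exact_mod_cast h3
    have h7 : Even (T - u) := by
      by_contra hodd
      rw [Int.not_even_iff_odd] at hodd
      obtain ⟨k, hk⟩ := hodd
      have hT1 : T = u + 2 * k + 1 := by linarith
      rw [hT1] at h5
      have h8 : (1 + 4 * A) * u ^ 2 - ((u + 2 * k + 1) ^ 2 - 4 * N) =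
          2 * (2 * (A * u ^ 2) - 2 * k ^ 2 - 2 * u * k - u - 2 * k + 2 * N) - 1 := by ring
      omega
    obtain ⟨s', hs'⟩ := h7
    refine ⟨⟨s', ?_⟩, ⟨u, hu⟩⟩
    have hT1 : T = u + s' + s' := by linarith
    rw [hT1, hu] at h1
    push_cast at h1
    linarith

/-- an element of `k` integral over the integers is in `emb O` -/
lemma mem_of_int (hc : CQ A B) (h : Wsq A B) {x : ℂ} (hx : x ∈ kk A B) (hint : IsIntegral ℤ x) :
    ∃ y : OO A B, x = emb y := by
  obtain ⟨s, t, rfl⟩ := repr h hx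
  have hconj : IsIntegral ℤ ((starRingEnd ℂ) ((s : ℂ) + t * wC A B)) :=
    hint.map ((starRingEnd ℂ).toIntAlgHom)
  have hc' : (starRingEnd ℂ) ((s : ℂ) + t * wC A B) = s + t * (B - wC A B) := by
    rw [map_add, map_mul, conj_w]
    simp
  rw [hc'] at hconj
  obtain ⟨T, hT⟩ := int_of_isIntegral (r := 2 * s + B * t) (by
    have := hint.add hconj
    have e : (s : ℂ) + t * wC A B + (s + t * (B - wC A B)) = ((2 * s + B * t : ℚ) : ℂ) := by
      push_cast
      ring
    rwa [e] at this)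
  obtain ⟨N, hN⟩ := int_of_isIntegral (r := s ^ 2 + B * s * t - A * t ^ 2) (by
    have := hint.mul hconj
    have e : ((s : ℂ) + t * wC A B) * (s + t * (B - wC A B)) =
        ((s ^ 2 + B * s * t - A * t ^ 2 : ℚ) : ℂ) := by
      push_cast
      linear_combination (-(t : ℂ) ^ 2) * h
    rwa [e] at this)
  obtain ⟨⟨s', hs'⟩, ⟨t', ht'⟩⟩ := arith hc hT hN
  refine ⟨⟨s', t'⟩, ?_⟩
  rw [hs', ht']
  simp [emb]

theorem ext' {x y : 𝓞 (kk A B)} (h : ((x : kk A B) : ℂ) = ((y : kk A B) : ℂ)) : x = y :=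
  RingOfIntegers.ext (Subtype.ext h)

end PrqX

open _root_.Pool.Agent.MUXW.PrqX in
theorem ty_PRQ (h : Pool.Agent.MUXV.Sq_EMB) : Sy_PRQ := by
  intro A B hc
  obtain ⟨hmul, hadd, -, hint, -, hinj, hw, -⟩ := h A B ⟨hc.hB, hc.neg, hc.fund1, hc.fund0⟩
  have h1 : emb (1 : OO A B) = 1 := by simpa using hint 1
  have h0 : emb (0 : OO A B) = 0 := by simpa using hint 0
  have hI : ∀ y : OO A B, IsIntegral ℤ (ek y) := by
    intro y
    have h2 : IsIntegral ℤ (emb y) := emb_int hw y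
    have h3 : algebraMap (kk A B) ℂ (ek y) = emb y := rfl
    rw [← h3] at h2
    exact (isIntegral_algebraMap_iff (algebraMap (kk A B) ℂ).injective).1 h2
  let phi : OO A B →+* 𝓞 (kk A B) :=
    { toFun := fun y => ⟨ek y, hI y⟩
      map_one' := ext' h1
      map_zero' := ext' h0
      map_add' := fun x y => ext' (hadd x y)
      map_mul' := fun x y => ext' (hmul x y) }
  have hval : ∀ y, ((phi y : kk A B) : ℂ) = emb y := fun y => rfl
  have hsurj : ∀ x : 𝓞 (kk A B), ∃ y : OO A B, ((x : kk A B) : ℂ) = emb y := by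
    intro x
    have h2 : IsIntegral ℤ ((x : kk A B) : ℂ) := by
      have h3 := x.isIntegral_coe
      exact (isIntegral_algebraMap_iff (algebraMap (kk A B) ℂ).injective).2 h3
    exact mem_of_int hc hw (x : kk A B).2 h2
  have hsurj' : Function.Surjective phi := by
    intro x
    obtain ⟨y, hy⟩ := hsurj x
    exact ⟨y, ext' hy.symm⟩
  refine ⟨hsurj, fun y => ⟨phi y, hval y⟩, fun P => ⟨P.comap phi, ?_, ?_⟩⟩
  · apply Nat.card_congr
    refine Equiv.ofBijective (Ideal.quotientMap P phi le_rfl) ⟨?_, ?_⟩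
    · exact Ideal.quotientMap_injective
    · exact Ideal.quotientMap_surjective hsurj'
  · intro x y hxy
    have h2 : x = phi y := ext' hxy
    rw [h2, Ideal.mem_comap]

end

end Pool.Agent.MUXW


end

section

/-!
# MUX, block W: the norm from `F_(b m)` to `F_m`, for `b ∣ m` (module NRM)
-/

set_option autoImplicit false

open WeierstrassCurve Polynomial NumberField IsDedekindDomain

namespace Pool.Agent.MUXW

open _root_.MU3 _root_.Pool.Agent.MU3A _root_.Pool.Agent.MU3B _root_.Pool.Agent.MU3C _root_.Pool.Agent.RI _root_.Pool.Agent.RID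
open _root_.Pool.Agent.MUX _root_.Pool.Agent.MUXU
open _root_.Pool.Agent.MU3V (cls Sub GD)
open _root_.Pool.Agent.MUXV (GR InK tX CMO Ovr)

noncomputable section

namespace NRMaux

variable {A B : ℤ}

lemma xn_add_mem (L : PeriodPair) (z w : ℂ) (hw : w ∈ L.lattice) : xn L (z + w) = xn L z := by
  unfold xn
  have h := L.weierstrassP_add_coe z ⟨w, hw⟩
  rw [h]

/-- an automorphism which acts as `c ≡ 1` modulo `m` fixes `RF (sp m)` -/
theorem fix_of_actH (hsub : ∀ x y : OO A B, emb (x - y) = emb x - emb y)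
    (hone : emb (1 : OO A B) = 1) {m m' : OO A B}
    (hle : (RF (sp m) : IntermediateField (kk A B) ℂ) ≤ RF (sp m')) (hmm : m ∣ m')
    {σ : (RF (sp m') : IntermediateField (kk A B) ℂ) ≃ₐ[kk A B] RF (sp m')} {c : OO A B}
    (hσ : ActH σ m' c) (hc : m ∣ c - 1) (x : (RF (sp m') : IntermediateField (kk A B) ℂ))
    (hx : (x : ℂ) ∈ (RF (sp m) : IntermediateField (kk A B) ℂ)) : σ x = x := by
  have key : ∀ (y : ℂ) (hy : y ∈ (RF (sp m) : IntermediateField (kk A B) ℂ)),
      σ ⟨y, hle hy⟩ = ⟨y, hle hy⟩ := by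
    intro y hy
    refine IntermediateField.adjoin_induction (F := kk A B)
      (p := fun y hy => σ ⟨y, hle hy⟩ = ⟨y, hle hy⟩) ?_ ?_ ?_ ?_ ?_ hy
    · rintro y ⟨b, L, om, hL, rfl | ⟨z, hz, hzL, rfl⟩⟩
      · apply Subtype.ext
        exact hσ.kap b L om hL _
      · apply Subtype.ext
        have hz' : emb m' * z ∈ L.lattice := hz _ (Ideal.mem_span_singleton.2 hmm)
        obtain ⟨-, h2⟩ := hσ.pt b L om hL z hz' hzL
        rw [h2]
        have h3 : emb (c - 1) * z ∈ L.lattice := hz _ (Ideal.mem_span_singleton.2 hc)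
        have h4 : emb c * z = z + emb (c - 1) * z := by
          rw [hsub, hone]
          ring
        rw [h4]
        exact xn_add_mem L _ _ h3
    · intro y
      exact σ.commutes y
    · intro y z hy hz h1 h2
      have h3 : (⟨y + z, hle (add_mem hy hz)⟩ :
          (RF (sp m') : IntermediateField (kk A B) ℂ)) = ⟨y, hle hy⟩ + ⟨z, hle hz⟩ := rfl
      rw [h3, map_add, h1, h2]
    · intro y hy h1
      have h3 : (⟨y⁻¹, hle (inv_mem hy)⟩ :
          (RF (sp m') : IntermediateField (kk A B) ℂ)) = (⟨y, hle hy⟩ : _)⁻¹ := rfl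
      rw [h3, map_inv₀, h1]
    · intro y z hy hz h1 h2
      have h3 : (⟨y * z, hle (mul_mem hy hz)⟩ :
          (RF (sp m') : IntermediateField (kk A B) ℂ)) = ⟨y, hle hy⟩ * ⟨z, hle hz⟩ := rfl
      rw [h3, map_mul, h1, h2]
  exact key x hx

lemma nl_mul (hmul : ∀ x y : OO A B, emb (x * y) = emb x * emb y) {b : Ideal (OO A B)}
    {L : PeriodPair} {om : ℂ} (hL : IsNL b L om) (y : OO A B) {z : ℂ} (hz : z ∈ L.lattice) :
    emb y * z ∈ L.lattice := by
  obtain ⟨x, hx, rfl⟩ := (hL.mem z).1 hz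
  refine (hL.mem _).2 ⟨y * x, b.mul_mem_left _ hx, ?_⟩
  rw [hmul]
  ring

/-- an automorphism which fixes `RF (sp m)` acts as `1` on the points of level `m` -/
theorem actH_one (hmul : ∀ x y : OO A B, emb (x * y) = emb x * emb y)
    (hone : emb (1 : OO A B) = 1) {m m' : OO A B}
    (hle0 : (RF (⊤ : Ideal (OO A B)) : IntermediateField (kk A B) ℂ) ≤ RF (sp m))
    {σ : (RF (sp m') : IntermediateField (kk A B) ℂ) ≃ₐ[kk A B] RF (sp m')}
    (hσ : ∀ x : (RF (sp m') : IntermediateField (kk A B) ℂ),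
      (x : ℂ) ∈ (RF (sp m) : IntermediateField (kk A B) ℂ) → σ x = x) : ActH σ m 1 := by
  refine ⟨isCoprime_one_left, ?_, ?_⟩
  · intro b L om hL h
    have h1 : kap L ∈ (RF (sp m) : IntermediateField (kk A B) ℂ) :=
      hle0 (IntermediateField.subset_adjoin _ _ ⟨b, L, om, hL, Or.inl rfl⟩)
    rw [hσ ⟨kap L, h⟩ h1]
  · intro b L om hL z hz hzL
    refine ⟨by rwa [hone, one_mul], ?_⟩
    intro h
    have h1 : xn L z ∈ (RF (sp m) : IntermediateField (kk A B) ℂ) := by
      refine IntermediateField.subset_adjoin _ _ ⟨b, L, om, hL, Or.inr ⟨z, ?_, hzL, rfl⟩⟩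
      intro x hx
      obtain ⟨y, rfl⟩ := Ideal.mem_span_singleton.1 hx
      have h2 : emb (m * y) * z = emb y * (emb m * z) := by rw [hmul]; ring
      rw [h2]
      exact nl_mul hmul hL y hz
    rw [hσ ⟨xn L z, h⟩ h1, hone, one_mul]

end NRMaux

open _root_.Pool.Agent.MUXW.NRMaux in
theorem ty_NRM (hDIS : Sy_DIS) (hKER : Sy_KER) (hACM : Sy_ACM) (hTHG : Sy_THG)
    (hEMB : Pool.Agent.MUXV.Sq_EMB) : Sy_NRM := by
  intro A B hAB T L Om hL m b hm hbm hm2 a H ha ham hH θ θ' hθ hθ'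
  obtain ⟨hmul, hadd, hsub, hint, hnat, hinj, -, -, -, -, -, -, hdom⟩ :=
    hEMB A B ⟨hAB.hB, hAB.neg, hAB.fund1, hAB.fund0⟩
  have hone : emb (1 : OO A B) = 1 := by simpa using hnat 1
  have hzero : emb (0 : OO A B) = 0 := by simpa using hnat 0
  have hb : b ≠ 0 := by
    rintro rfl
    exact hm (zero_dvd_iff.1 hbm)
  have hbm0 : b * m ≠ 0 := mul_ne_zero hb hm
  have hmbm : m ∣ b * m := Dvd.intro_left _ rfl
  have hem : emb m ≠ 0 := fun h => hm (hinj _ _ (h.trans hzero.symm))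
  have heb : emb b ≠ 0 := fun h => hb (hinj _ _ (h.trans hzero.symm))
  have hembm : emb (b * m) ≠ 0 := fun h => hbm0 (hinj _ _ (h.trans hzero.symm))
  have hmu : ¬ IsUnit m := fun h => hm2 (h.dvd)
  have hbmu : ¬ IsUnit (b * m) := fun h => hmu (isUnit_of_dvd_unit hmbm h)
  have hle : (RF (sp m) : IntermediateField (kk A B) ℂ) ≤ RF (sp (b * m)) :=
    T.mono _ _ (Ideal.span_singleton_le_span_singleton.2 hmbm)
  have hle0 : (RF (⊤ : Ideal (OO A B)) : IntermediateField (kk A B) ℂ) ≤ RF (sp m) :=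
    T.mono _ _ le_top
  -- membership
  have hmem : ∀ (n x : OO A B), n ≠ 0 → (emb x * (Om / emb n) ∈ L.lattice ↔ n ∣ x) := by
    intro n x hn
    have hen : emb n ≠ 0 := fun h => hn (hinj _ _ (h.trans hzero.symm))
    rw [hL.mem]
    constructor
    · rintro ⟨y, -, hy⟩
      refine ⟨y, hinj _ _ ?_⟩
      rw [hmul]
      have h1 : Om * emb x = Om * (emb n * emb y) := by
        field_simp at hy
        linear_combination hy
      exact mul_left_cancel₀ hL.om_ne h1
    · rintro ⟨y, rfl⟩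
      refine ⟨y, trivial, ?_⟩
      rw [hmul]
      field_simp
  obtain ⟨k1, k2⟩ := hKER A B hAB T (b * m) hbm0
  obtain ⟨m1, m2, -, -, -, -, -, -⟩ := hACM A B hAB L Om hL m hm
  obtain ⟨n1, n2, n3, -, n5, -, -, -⟩ := hACM A B hAB L Om hL (b * m) hbm0
  -- the automorphism of `t`
  have hex : ∀ t : OO A B, ∃ σ : (RF (sp (b * m)) : IntermediateField (kk A B) ℂ) ≃ₐ[kk A B]
      RF (sp (b * m)), ActH σ (b * m) (1 + m * t) := by
    intro t
    apply k2
    have h1 : IsCoprime (1 + m * t) m := ⟨1, -t, by ring⟩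
    exact (IsCoprime.of_isCoprime_of_dvd_right h1 hbm).mul_right h1
  choose s hs using hex
  have hsfix : ∀ (t : OO A B) (x : (RF (sp (b * m)) : IntermediateField (kk A B) ℂ)),
      (x : ℂ) ∈ (RF (sp m) : IntermediateField (kk A B) ℂ) → s t x = x := fun t =>
    fix_of_actH hsub hone hle hmbm (hs t) ⟨t, by ring⟩
  let e : OO A B ⧸ Ideal.span {b} →
      {σ : (RF (sp (b * m)) : IntermediateField (kk A B) ℂ) ≃ₐ[kk A B] RF (sp (b * m)) //
        ∀ x : (RF (sp (b * m)) : IntermediateField (kk A B) ℂ),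
          (x : ℂ) ∈ (RF (sp m) : IntermediateField (kk A B) ℂ) → σ x = x} :=
    fun t => ⟨s (Quotient.out t), hsfix _⟩
  have hout : ∀ t : OO A B ⧸ Ideal.span {b}, Ideal.Quotient.mk (Ideal.span {b}) (Quotient.out t) = t :=
    fun t => Ideal.Quotient.mk_out t
  have hinje : Function.Injective e := by
    intro t t' htt
    have h1 : s (Quotient.out t) = s (Quotient.out t') := congrArg Subtype.val htt
    have h2 : ActH (s (Quotient.out t)) (b * m) (1 + m * Quotient.out t') := by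
      rw [h1]
      exact hs _
    rw [← hout t, ← hout t', Ideal.Quotient.eq, Ideal.mem_span_singleton]
    rcases n1 _ _ _ _ le_rfl (hs (Quotient.out t)) h2 with ⟨c, hc⟩ | h3
    · refine ⟨c, mul_left_cancel₀ hm ?_⟩
      linear_combination hc
    · exfalso
      apply hm2
      have h4 : m ∣ 1 + m * Quotient.out t + (1 + m * Quotient.out t') := hmbm.trans h3
      have h5 : m ∣ m * (Quotient.out t + Quotient.out t') := Dvd.intro _ rfl
      have h6 := dvd_sub h4 h5
      have h7 : 1 + m * Quotient.out t + (1 + m * Quotient.out t') -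
          m * (Quotient.out t + Quotient.out t') = (2 : OO A B) := by ring
      rwa [h7] at h6
  have hsurj : Function.Surjective e := by
    rintro ⟨σ, hσ⟩
    obtain ⟨c, hc⟩ := k1 σ (fun x hx => hσ x (hle0 hx))
    have h1 : ActH σ m 1 := actH_one hmul hone hle0 hσ
    have h2 : ActH σ m c := n3 _ _ _ _ hmbm hc
    obtain ⟨c', hc', hc1⟩ : ∃ c', ActH σ (b * m) c' ∧ m ∣ c' - 1 := by
      rcases m1 _ _ _ _ hle h2 h1 with h3 | h3
      · exact ⟨c, hc, h3⟩
      · refine ⟨-c, n2 _ _ _ _ (Or.inr (by simp)) hc, ?_⟩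
        have h4 : -c - 1 = -(c + 1) := by ring
        rw [h4]
        exact (dvd_neg).2 h3
    obtain ⟨t, ht⟩ := hc1
    refine ⟨Ideal.Quotient.mk _ t, Subtype.ext ?_⟩
    obtain ⟨r, hr⟩ : b ∣ Quotient.out (Ideal.Quotient.mk (Ideal.span {b}) t) - t := by
      rw [← Ideal.mem_span_singleton, ← Ideal.Quotient.eq]
      exact hout _
    refine n5 _ _ c' (n2 _ _ _ _ (Or.inl ?_) (hs _)) hc'
    refine ⟨r, ?_⟩
    linear_combination m * hr - ht
  obtain ⟨C, hC1, hC0, hC⟩ := hDIS A B hAB T L Om hL b hb a H ha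
    (IsCoprime.of_isCoprime_of_dvd_right ham hbm) hH
  refine ⟨C, hC1, hC0, ?_⟩
  have hz1 : emb (b * m) * (Om / emb (b * m)) ∈ L.lattice := (hmem _ _ hbm0).2 dvd_rfl
  have hz2 : Om / emb (b * m) ∉ L.lattice := by
    intro h
    have h1 : emb (1 : OO A B) * (Om / emb (b * m)) ∈ L.lattice := by rwa [hone, one_mul]
    exact hbmu (isUnit_of_dvd_one ((hmem _ _ hbm0).1 h1))
  obtain ⟨-, -, hz, -, hact⟩ := hTHG A B hAB T ⊤ L Om hL (b * m) hbm0 a H ha hH _ hz1 hz2
  have hθe : θ' = ⟨_, hz⟩ := Subtype.ext hθ'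
  have hz3 : emb b * a * (Om / emb (b * m)) ∉ L.lattice := by
    have h1 : emb b * a * (Om / emb (b * m)) = emb (a : OO A B) * (Om / emb m) := by
      rw [hint, hmul]
      field_simp
    rw [h1, hmem _ _ hm]
    intro h2
    exact hmu (ham.symm.isUnit_of_dvd' dvd_rfl h2)
  have hCz := hC _ hz3
  have h9 : emb b * (Om / emb (b * m)) = Om / emb m := by
    rw [hmul]
    field_simp
  rw [h9, ← hθ] at hCz
  rw [← hCz]
  symm
  refine finprod_eq_of_bijective e ⟨hinje, hsurj⟩ fun t => ?_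
  rw [hθe]
  change _ = ((s (Quotient.out t) ⟨_, hz⟩ :
    (RF (sp (b * m)) : IntermediateField (kk A B) ℂ)) : ℂ)
  rw [hact _ _ (hs (Quotient.out t))]
  congr 1
  rw [hadd, hone, hmul, hmul]
  field_simp

end

end Pool.Agent.MUXW


end
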