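import Mathlib
import Pool.Agent.MVF.C080
import Pool.Agent.MVF.C103
import Pool.Agent.MVF.C109

/-! Parts: NS.I_TEI, MUX.Z_INW, NS.ZL, ME.N.StIN, ME.N.I_TEI, ME.X.StZX, ME.X.Z_THN -/

namespace Pool.Agent.MUXZ.Z_INW
end Pool.Agent.MUXZ.Z_INW
namespace Pool.Agent.NSI.TEI
end Pool.Agent.NSI.TEI

section

/-!
# MUX-NS, block IN, module TEI: existence of the Teichmueller character (helper80)

`P = 3 O` is a prime ideal with nine residue classes, so `x ^ 8 ≡ 1` modulo `3` for `x ∉ P`. For such an `x`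
there is exactly one 8th root of unity `η` with `v (emb x - η) < 1`, and then `v (emb x - η) ≤ v 3`
(the product of the `emb x - η` is `emb x ^ 8 - 1`, and different 8th roots of unity differ by units at `V`).
Put `w x = η`, and `w x = 0` for `x ∈ P`; everything follows from the uniqueness.
-/

set_option autoImplicit false

namespace Pool.Agent.NSI

open _root_.MU3 _root_.Pool.Agent.MU3 _root_.Pool.Agent.MU3A _root_.Pool.Agent.MU3B _root_.Pool.Agent.RI _root_.Pool.Agent.RID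
  _root_.Pool.Agent.MUX _root_.Pool.Agent.MUXK _root_.Pool.Agent.MUXI _root_.Pool.Agent.NS
open _root_.Pool.Agent.MU3I (w3 zt)

noncomputable section

namespace TEI

/-! ### 8th roots of unity -/

lemma nat_le (V : ValuationSubring ℂ) (n : ℕ) : V.valuation (n : ℂ) ≤ 1 :=
  (V.valuation_le_one_iff _).2 (natCast_mem V.toSubring n)

lemma v2_of_v3 {V : ValuationSubring ℂ} (v3 : V.valuation (3 : ℂ) < 1) :
    V.valuation (2 : ℂ) = 1 := by
  refine le_antisymm (by exact_mod_cast nat_le V 2) (not_lt.1 fun h => ?_)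
  have h1 : V.valuation (3 - 2 : ℂ) < 1 := lt_of_le_of_lt (V.valuation.map_sub _ _) (max_lt v3 h)
  have h2 : (3 - 2 : ℂ) = 1 := by norm_num
  rw [h2, map_one] at h1
  exact lt_irrefl _ h1

lemma v_root {V : ValuationSubring ℂ} {η : ℂ} (h : η ^ 8 = 1) : V.valuation η = 1 := by
  have h1 : V.valuation η ^ 8 = 1 := by rw [← map_pow, h, map_one]
  exact (pow_eq_one_iff.1 h1).resolve_right (by norm_num)

/-- different 8th roots of unity differ by a unit at `V` -/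
lemma root_eq {V : ValuationSubring ℂ} (v3 : V.valuation (3 : ℂ) < 1) {η η' : ℂ} (h : η ^ 8 = 1)
    (h' : η' ^ 8 = 1) (hv : V.valuation (η - η') < 1) : η = η' := by
  have h0 : η' ≠ 0 := by
    rintro rfl
    norm_num at h'
  have hr8 : (η / η') ^ 8 = 1 := by rw [div_pow, h, h', div_one]
  have hrv : V.valuation (η / η') = 1 := v_root hr8
  have hrV : η / η' ∈ V := (V.valuation_le_one_iff _).1 hrv.le
  have hd : V.valuation (η / η' - 1) < 1 := by
    have e1 : η / η' - 1 = (η - η') / η' := by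
      rw [sub_div, div_self h0]
    rw [e1, map_div₀, v_root h', div_one]
    exact hv
  by_contra hne
  have hr1 : η / η' - 1 ≠ 0 := by
    intro h1
    exact hne ((div_eq_one_iff_eq h0).1 (sub_eq_zero.1 h1))
  generalize η / η' = ρ at hr8 hrV hd hr1
  have hgeom : 1 + ρ + ρ ^ 2 + ρ ^ 3 + ρ ^ 4 + ρ ^ 5 + ρ ^ 6 + ρ ^ 7 = 0 := by
    apply mul_left_cancel₀ hr1
    linear_combination hr8
  have h8 : (8 : ℂ) = -((ρ - 1) * (7 + 6 * ρ + 5 * ρ ^ 2 + 4 * ρ ^ 3 + 3 * ρ ^ 4 + 2 * ρ ^ 5 +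
      ρ ^ 6)) := by
    linear_combination hgeom
  have hn : ∀ n : ℕ, (n : ℂ) ∈ V := fun n => natCast_mem V.toSubring n
  have hmem : 7 + 6 * ρ + 5 * ρ ^ 2 + 4 * ρ ^ 3 + 3 * ρ ^ 4 + 2 * ρ ^ 5 + ρ ^ 6 ∈ V := by
    have hp : ∀ k : ℕ, ρ ^ k ∈ V := fun k => pow_mem hrV k
    have e := V.add_mem _ _ (V.add_mem _ _ (V.add_mem _ _ (V.add_mem _ _ (V.add_mem _ _
      (V.add_mem _ _ (hn 7) (V.mul_mem _ _ (hn 6) hrV)) (V.mul_mem _ _ (hn 5) (hp 2)))
      (V.mul_mem _ _ (hn 4) (hp 3))) (V.mul_mem _ _ (hn 3) (hp 4)))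
      (V.mul_mem _ _ (hn 2) (hp 5))) (hp 6)
    push_cast at e
    exact e
  have hv8 : V.valuation (8 : ℂ) < 1 := by
    rw [h8, Valuation.map_neg, map_mul]
    exact mul_lt_one_of_lt_of_le hd ((V.valuation_le_one_iff _).2 hmem)
  have e8 : (8 : ℂ) = 2 ^ 3 := by norm_num
  rw [e8, map_pow, v2_of_v3 v3, one_pow] at hv8
  exact lt_irrefl _ hv8

/-- `z ^ 8 ≡ 1` modulo `3`: then `z` is congruent to an 8th root of unity -/
lemma exists_root {V : ValuationSubring ℂ} (v3 : V.valuation (3 : ℂ) < 1) {z : ℂ}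
    (hz : V.valuation (z ^ 8 - 1) ≤ V.valuation (3 : ℂ)) :
    ∃ η : ℂ, η ^ 8 = 1 ∧ V.valuation (η - z) ≤ V.valuation (3 : ℂ) := by
  have hprod : z ^ 8 - 1 = ∏ η ∈ Polynomial.nthRootsFinset 8 (1 : ℂ), (z - η) := by
    have h1 := Polynomial.X_pow_sub_one_eq_prod (R := ℂ) (n := 8) (by norm_num)
      (Complex.isPrimitiveRoot_exp 8 (by norm_num))
    have h2 := congrArg (Polynomial.eval z) h1
    rw [Polynomial.eval_prod] at h2
    simpa using h2
  have hS : ∀ η ∈ Polynomial.nthRootsFinset 8 (1 : ℂ), η ^ 8 = 1 := fun η hη =>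
    (Polynomial.mem_nthRootsFinset (by norm_num) (1 : ℂ)).1 hη
  by_cases h : ∃ η ∈ Polynomial.nthRootsFinset 8 (1 : ℂ), V.valuation (z - η) < 1
  · obtain ⟨η, hη, hv⟩ := h
    refine ⟨η, hS η hη, ?_⟩
    rw [Valuation.map_sub_swap]
    have h1 : V.valuation (z ^ 8 - 1) = V.valuation (z - η) := by
      rw [hprod, ← Finset.mul_prod_erase _ _ hη, map_mul, map_prod]
      have h2 : ∏ x ∈ (Polynomial.nthRootsFinset 8 (1 : ℂ)).erase η, V.valuation (z - x) = 1 := by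
        refine Finset.prod_eq_one fun x hx => ?_
        obtain ⟨hxne, hxS⟩ := Finset.mem_erase.1 hx
        have h3 : V.valuation (η - x) = 1 := by
          refine le_antisymm ?_ (not_lt.1 fun h4 => hxne (root_eq v3 (hS η hη) (hS x hxS) h4).symm)
          exact (V.valuation.map_sub _ _).trans
            (max_le (v_root (hS η hη)).le (v_root (hS x hxS)).le)
        have e1 : z - x = (z - η) + (η - x) := by ring
        rw [e1, Valuation.map_add_eq_of_lt_right _ (by rw [h3]; exact hv), h3]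
      rw [h2, mul_one]
    rw [← h1]
    exact hz
  · push Not at h
    exfalso
    have h1 : 1 ≤ V.valuation (z ^ 8 - 1) := by
      rw [hprod, map_prod]
      exact Finset.prod_induction (fun x => V.valuation (z - x)) (fun y => 1 ≤ y)
        (fun a b ha hb => one_le_mul_of_one_le_of_one_le ha hb) le_rfl h
    exact absurd v3 (not_lt.2 (h1.trans hz))

/-! ### The ring `O` -/

lemma wC_int {A B : ℤ} (hc : CQ A B) : IsIntegral ℤ (wC A B) := by
  refine ⟨Polynomial.X ^ 2 - Polynomial.C B * Polynomial.X - Polynomial.C A, ?_, ?_⟩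
  · monicity!
  · have := _root_.Pool.Agent.MUX.wC_sq hc
    simp only [Polynomial.eval₂_sub, Polynomial.eval₂_mul, Polynomial.eval₂_pow,
      Polynomial.eval₂_X, Polynomial.eval₂_C]
    simp only [algebraMap_int_eq, eq_intCast]
    linear_combination this

lemma emb_mem_V {A B : ℤ} (hc : CQ A B) (V : ValuationSubring ℂ) (x : OO A B) : emb x ∈ V := by
  have h1 : wC A B ∈ V := by
    have h2 : IsIntegral V (wC A B) := (wC_int hc).tower_top
    obtain ⟨y, hy⟩ := IsIntegrallyClosed.isIntegral_iff.1 h2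
    rw [← hy]
    exact y.2
  have h3 : ∀ n : ℤ, (n : ℂ) ∈ V := fun n => intCast_mem V.toSubring n
  exact V.add_mem _ _ (h3 _) (V.mul_mem _ _ (h3 _) h1)

section
variable {A B : ℤ} {V : ValuationSubring ℂ}

lemma v_emb (hc : CQ A B) (V : ValuationSubring ℂ) (x : OO A B) : V.valuation (emb x) ≤ 1 :=
  (V.valuation_le_one_iff _).2 (emb_mem_V hc V x)

lemma v_three (hc : CQ A B) (hV : OverI V (idl (A := A) (B := B) 3)) :
    V.valuation (3 : ℂ) < 1 := by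
  have h1 : emb ((3 : ℕ) : OO A B) ∈ V.nonunits := (hV _).2 (Ideal.mem_span_singleton_self _)
  rw [_root_.Pool.Agent.MUX.emb_natCast hc] at h1
  exact_mod_cast V.mem_nonunits_iff.1 h1

/-- the elements of `3 O` are `≤ 3` at `V` -/
lemma v_mem (hc : CQ A B) (V : ValuationSubring ℂ) {x : OO A B}
    (hx : x ∈ idl (A := A) (B := B) 3) : V.valuation (emb x) ≤ V.valuation (3 : ℂ) := by
  obtain ⟨y, rfl⟩ := Ideal.mem_span_singleton.1 hx
  rw [_root_.Pool.Agent.MUX.emb_mul hc, _root_.Pool.Agent.MUX.emb_natCast hc, map_mul]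
  exact mul_le_of_le_one_right' (v_emb hc V y)

lemma prime (hc : CQ A B) (hV : OverI V (idl (A := A) (B := B) 3)) :
    (idl (A := A) (B := B) 3).IsPrime := by
  refine ⟨?_, ?_⟩
  · rw [Ideal.ne_top_iff_one]
    intro h
    have h1 := V.mem_nonunits_iff.1 ((hV 1).2 h)
    rw [_root_.Pool.Agent.MUX.emb_one hc, map_one] at h1
    exact lt_irrefl _ h1
  · intro x y hxy
    have h1 := V.mem_nonunits_iff.1 ((hV _).2 hxy)
    rw [_root_.Pool.Agent.MUX.emb_mul hc, map_mul] at h1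
    by_contra hcon
    push Not at hcon
    have hx : V.valuation (emb x) = 1 := le_antisymm (v_emb hc V x)
      (not_lt.1 fun h => hcon.1 ((hV x).1 (V.mem_nonunits_iff.2 h)))
    have hy : V.valuation (emb y) = 1 := le_antisymm (v_emb hc V y)
      (not_lt.1 fun h => hcon.2 ((hV y).1 (V.mem_nonunits_iff.2 h)))
    rw [hx, hy, one_mul] at h1
    exact lt_irrefl _ h1

/-- `x ^ 8 ≡ 1` modulo `3` -/
lemma pow8 (hc : CQ A B) (hV : OverI V (idl (A := A) (B := B) 3)) {x : OO A B}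
    (hx : x ∉ idl (A := A) (B := B) 3) : x ^ 8 - 1 ∈ idl (A := A) (B := B) 3 := by
  classical
  have : (idl (A := A) (B := B) 3).IsPrime := prime hc hV
  have h3 : ((3 : ℕ) : OO A B) ≠ 0 := natCast_ne_zero' hc (by norm_num)
  have : Finite (OO A B ⧸ idl (A := A) (B := B) 3) := by
    refine finite_quot hc ?_
    rw [Ne, Ideal.span_singleton_eq_bot]
    exact h3
  have hcard : Nat.card (OO A B ⧸ idl (A := A) (B := B) 3) = 9 := by
    have h1 : nI (sp ((3 : ℕ) : OO A B)) = (nm ((3 : ℕ) : OO A B)).natAbs := nI_sp hc h3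
    have h2 : nm ((3 : ℕ) : OO A B) = 9 := by
      have := nm_intCast (A := A) (B := B) 3
      push_cast at this ⊢
      rw [this]
    rw [h2] at h1
    exact h1
  let _ : Fintype (OO A B ⧸ idl (A := A) (B := B) 3) := Fintype.ofFinite _
  let _ : Field (OO A B ⧸ idl (A := A) (B := B) 3) := Fintype.fieldOfDomain _
  have hne : Ideal.Quotient.mk (idl (A := A) (B := B) 3) x ≠ 0 := by
    rw [Ne, Ideal.Quotient.eq_zero_iff_mem]
    exact hx
  have h1 := FiniteField.pow_card_sub_one_eq_one (Ideal.Quotient.mk (idl (A := A) (B := B) 3) x) hne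
  rw [← Nat.card_eq_fintype_card, hcard] at h1
  have h2 : Ideal.Quotient.mk (idl (A := A) (B := B) 3) (x ^ 8 - 1) = 0 := by
    rw [map_sub, map_pow, map_one, sub_eq_zero]
    exact h1
  exact Ideal.Quotient.eq_zero_iff_mem.1 h2

lemma exists_eta (hc : CQ A B) (hV : OverI V (idl (A := A) (B := B) 3)) {x : OO A B}
    (hx : x ∉ idl (A := A) (B := B) 3) :
    ∃ η : ℂ, η ^ 8 = 1 ∧ V.valuation (η - emb x) ≤ V.valuation (3 : ℂ) := by
  refine exists_root (v_three hc hV) ?_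
  have h1 := v_mem hc V (pow8 hc hV hx)
  rwa [_root_.Pool.Agent.MUX.emb_sub hc, emb_pow hc, _root_.Pool.Agent.MUX.emb_one hc] at h1

end

end TEI

open _root_.Pool.Agent.NSI.TEI in
/-- (TEI) existence of the Teichmueller character -/
theorem tn_TEI : Sn_TEI := by
  classical
  intro A B V hC hV
  have hc : CQ A B := hC.toCQ
  have v3 := v_three hc hV
  have hP : (idl (A := A) (B := B) 3).IsPrime := prime hc hV
  choose η hη8 hηv using fun (x : OO A B) (hx : x ∉ idl (A := A) (B := B) 3) => exists_eta hc hV hx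
  have key : ∀ (x : OO A B) (hx : x ∉ idl (A := A) (B := B) 3) (ξ : ℂ), ξ ^ 8 = 1 →
      V.valuation (ξ - emb x) < 1 → η x hx = ξ := by
    intro x hx ξ hξ hv
    refine root_eq v3 (hη8 x hx) hξ ?_
    have e1 : η x hx - ξ = (η x hx - emb x) - (ξ - emb x) := by ring
    rw [e1]
    exact lt_of_le_of_lt (V.valuation.map_sub _ _) (max_lt (lt_of_le_of_lt (hηv x hx) v3) hv)
  refine ⟨fun x => if hx : x ∈ idl (A := A) (B := B) 3 then 0 else η x hx, ?_, ?_, ?_, ?_, ?_, ?_⟩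
  · have h1 : (1 : OO A B) ∉ idl (A := A) (B := B) 3 := (Ideal.ne_top_iff_one _).1 hP.ne_top
    rw [dif_neg h1]
    refine key 1 h1 1 (one_pow 8) ?_
    rw [_root_.Pool.Agent.MUX.emb_one hc, sub_self, map_zero]
    exact zero_lt_one
  · intro x y
    by_cases hx : x ∈ idl (A := A) (B := B) 3
    · rw [dif_pos hx, dif_pos (Ideal.mul_mem_right y _ hx), zero_mul]
    · by_cases hy : y ∈ idl (A := A) (B := B) 3
      · rw [dif_pos hy, dif_pos (Ideal.mul_mem_left _ x hy), mul_zero]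
      · have hxy : x * y ∉ idl (A := A) (B := B) 3 := fun h => (hP.mem_or_mem h).elim hx hy
        rw [dif_neg hx, dif_neg hy, dif_neg hxy]
        refine key (x * y) hxy _ (by rw [mul_pow, hη8, hη8, one_mul]) ?_
        have e1 : η x hx * η y hy - emb (x * y) =
            η x hx * (η y hy - emb y) + emb y * (η x hx - emb x) := by
          rw [_root_.Pool.Agent.MUX.emb_mul hc]
          ring
        rw [e1]
        refine lt_of_le_of_lt (V.valuation.map_add _ _) (max_lt ?_ ?_)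
        · rw [map_mul, v_root (hη8 x hx), one_mul]
          exact lt_of_le_of_lt (hηv y hy) v3
        · rw [map_mul]
          exact lt_of_le_of_lt (mul_le_of_le_one_left' (v_emb hc V y))
            (lt_of_le_of_lt (hηv x hx) v3)
  · intro x y hxy
    by_cases hx : x ∈ idl (A := A) (B := B) 3
    · have hy : y ∈ idl (A := A) (B := B) 3 := by
        have h := Ideal.sub_mem _ hx hxy
        rwa [sub_sub_cancel] at h
      rw [dif_pos hx, dif_pos hy]
    · have hy : y ∉ idl (A := A) (B := B) 3 := by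
        intro h
        apply hx
        have h := Ideal.add_mem _ hxy h
        rwa [sub_add_cancel] at h
      rw [dif_neg hx, dif_neg hy]
      refine key x hx _ (hη8 y hy) ?_
      have e1 : η y hy - emb x = (η y hy - emb y) - emb (x - y) := by
        rw [_root_.Pool.Agent.MUX.emb_sub hc]
        ring
      rw [e1]
      exact lt_of_le_of_lt (V.valuation.map_sub _ _)
        (max_lt (lt_of_le_of_lt (hηv y hy) v3) (lt_of_le_of_lt (v_mem hc V hxy) v3))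
  · intro x hx
    rw [dif_pos hx]
  · intro x hx
    rw [dif_neg hx]
    exact hη8 x hx
  · intro x
    by_cases hx : x ∈ idl (A := A) (B := B) 3
    · rw [dif_pos hx, zero_sub, Valuation.map_neg]
      exact v_mem hc V hx
    · rw [dif_neg hx]
      exact hηv x hx

end

end Pool.Agent.NSI


end

section

/-!
# MUX, last glue, module INW: the inputs from block W
-/

set_option autoImplicit false

open NumberField IsDedekindDomain

namespace Pool.Agent.MUXZ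

open _root_.MU3 _root_.Pool.Agent.MU3 _root_.Pool.Agent.MU3A _root_.Pool.Agent.MU3B _root_.Pool.Agent.RI _root_.Pool.Agent.RID
  _root_.Pool.Agent.MUX _root_.Pool.Agent.MUXK _root_.Pool.Agent.MUXJ _root_.Pool.Agent.MUXW
open _root_.Pool.Agent.MU3V (Sub GD)

noncomputable section

namespace Z_INW

/-- an automorphism of `K_m` with fixed field `K_n` has order `p ^ (m - n)` -/
theorem ordP (p : ℕ) [Fact p.Prime] (k K : IntermediateField ℚ ℂ)
    (B : ℕ → IntermediateField ℚ ℂ)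
    [FiniteDimensional ℚ K] [∀ n, FiniteDimensional ℚ ↥(K ⊔ B n)] (hB : BasX p k K B) (m n : ℕ)
    (hn : n ≤ m) (h' : k ≤ K ⊔ B n) (h : k ≤ K ⊔ B m) :
    letI := algC h
    ∀ σ : ↥(K ⊔ B m) ≃ₐ[k] ↥(K ⊔ B m),
      (∀ x : ↥(K ⊔ B m), σ x = x ↔ (x : ℂ) ∈ K ⊔ B n) → orderOf σ = p ^ (m - n) := by
  let akL : Algebra k ↥(K ⊔ B m) := algC h
  intro σ hσ
  have fdL := Pool.Agent.FX.fd k ↥(K ⊔ B m)
  obtain ⟨g, hg1, -, hg3⟩ := t_GENX p k K B hB.hk hB.deg hB.lay hB.mono m h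
  obtain ⟨hg4, hg5⟩ := hg3 n hn
  have e1 := P_TWK.zp σ (GCC.sub h (K ⊔ B n) h')
    (fun x => (hσ x).trans (GCC.mem_sub h (K ⊔ B n) h' x).symm)
  have e2 := P_TWK.zp (g ^ p ^ n) (GCC.sub h (K ⊔ B n) h')
    (fun x => (hg5 x).trans (GCC.mem_sub h (K ⊔ B n) h' x).symm)
  have e3 : orderOf σ = orderOf (g ^ p ^ n) := by
    rw [← Nat.card_zpowers, ← e1, e2, Nat.card_zpowers]
  rw [e3, hg4]

theorem natO_ne {A B : ℤ} {N : ℕ} (hN : N ≠ 0) : ((N : ℕ) : OO A B) ≠ 0 := by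
  intro h0
  have h1 := congrArg QuadraticAlgebra.re h0
  rw [QuadraticAlgebra.re_natCast, QuadraticAlgebra.re_zero] at h1
  exact hN (by exact_mod_cast h1)

theorem idl_ne {A B : ℤ} {N : ℕ} (hN : N ≠ 0) : idl (A := A) (B := B) N ≠ ⊥ := by
  intro h0
  rw [Ideal.span_singleton_eq_bot] at h0
  exact natO_ne hN h0

/-- the norm relation, with the level of `θ'` up to equality -/
theorem i1' (hI1 : Sy_I1) (A B : ℤ) (hc : MUX.CQ A B) (T : TorX A B) (L : PeriodPair) (Om : ℂ)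
    (hL : IsNL (⊤ : Ideal (OO A B)) L Om) (m b M : OO A B) (hM : M = b * m) (hm : m ≠ 0)
    (hbm : b ∣ m) (h2 : ¬ m ∣ 2) (a : ℤ) (H : Finset ℂ) (ha : a ≠ 0)
    (hcop : IsCoprime (a : OO A B) m) (hH : IsHalf L a H)
    (θ : (RF (sp m) : IntermediateField (kk A B) ℂ))
    (θ' : (RF (sp M) : IntermediateField (kk A B) ℂ))
    (h3 : (θ : ℂ) = ThetaH L H (Om / emb m)) (h4 : (θ' : ℂ) = ThetaH L H (Om / emb M))
    (D D' : IntermediateField ℚ ℂ) (h : kk A B ≤ D) (h' : kk A B ≤ D') (hle : D ≤ D')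
    (hH' : HasH A B D) (hs : _root_.Pool.Agent.MU3V.Sub D (RF (sp m) : IntermediateField (kk A B) ℂ))
    (hs' : _root_.Pool.Agent.MU3V.Sub D' (RF (sp M) : IntermediateField (kk A B) ℂ)) :
    letI := algC h; letI := algC h'
    ∀ (p : ℕ) (σ : D' ≃ₐ[kk A B] D'), (∀ x : D', σ x = x ↔ (x : ℂ) ∈ D) → orderOf σ = p → p ≠ 0 →
    ∀ c' : D', (c' : ℂ) = cW h' θ' →
      ∃ C ∈ (RF (⊤ : Ideal (OO A B)) : IntermediateField (kk A B) ℂ), C ≠ 0 ∧
        ∏ i ∈ Finset.range p, (((σ ^ i) c' : D') : ℂ) = C * cW h θ := by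
  subst hM
  exact hI1 A B hc T L Om hL m b hm hbm h2 a H ha hcop hH θ θ' h3 h4 D D' h h' hle hH' hs hs'

end Z_INW

open _root_.Pool.Agent.MUXZ.Z_INW in
/-- the inputs from block W -/
theorem tz_INW (hLVX : Sz_LVX) (hLVF : Sz_LVF) (hMEM : Sy_MEM) (hTOW : Sy_TOW) (hSUC : Sy_SUC)
    (hI1 : Sy_I1) (hKOL : Sy_KOL) : Sz_INW := by
  intro p A B P V f hS T ι _ R H θ hθ K₀ K Bn _ _ _ hX hKF hHK hk hk₀
  have hp : p.Prime := by
    rcases hS.case.split with h | h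
    · rw [h.1]; exact Nat.prime_three
    · rw [h.1]; exact Nat.prime_two
  have : Fact p.Prime := ⟨hp⟩
  have hc : MUX.CQ A B := hS.case.toCQ
  have hnl : IsNL (⊤ : Ideal (OO A B)) (R.L R.i0) (R.om R.i0) := by
    have h1 := R.nl R.i0
    rw [R.b0] at h1
    exact h1
  have hNL : NLex A B := ⟨_, _, _, hnl⟩
  have hm0 : ∀ n, lvX p f n ≠ 0 := fun n => (hLVX p A B P V f hS n).1
  have hsub : ∀ n, _root_.Pool.Agent.MU3V.Sub (K ⊔ Bn n) (RF (idl (A := A) (B := B) (lvX p f n))) := fun n =>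
    hLVF p A B hS.case T hNL f hS.f0 K hKF n (Bn n) (hX.b.lay n)
  have hsub₀ : ∀ n, _root_.Pool.Agent.MU3V.Sub (K₀ ⊔ Bn n) (RF (idl (A := A) (B := B) (lvX p f n))) := fun n =>
    hLVF p A B hS.case T hNL f hS.f0 K₀ (fun y hy => hKF y (hX.le hy)) n (Bn n) (hX.b.lay n)
  have hM := fun n => hMEM A B (RF (idl (A := A) (B := B) (lvX p f n))) (T.fin _ (idl_ne (hm0 n)))
    (T.gal _ (idl_ne (hm0 n))) (T.comm _ (idl_ne (hm0 n))) (K ⊔ Bn n) (hk n) (hsub n) (θ n)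
    (hθ.ne n)
  have hM₀ := fun n => hMEM A B (RF (idl (A := A) (B := B) (lvX p f n)))
    (T.fin _ (idl_ne (hm0 n))) (T.gal _ (idl_ne (hm0 n))) (T.comm _ (idl_ne (hm0 n)))
    (K₀ ⊔ Bn n) (hk₀ n) (hsub₀ n) (θ n) (hθ.ne n)
  have hmem : ∀ n, cW (hk n) (θ n) ∈ K ⊔ Bn n := by
    intro n
    rw [(hM n).1]
    exact ((hM n).2.1 _).1
  have hne : ∀ n, cW (hk n) (θ n) ≠ 0 := by
    intro n
    rw [(hM n).1]
    exact ((hM n).2.1 _).2
  have hmem₀ : ∀ n, cW (hk₀ n) (θ n) ∈ K₀ ⊔ Bn n := by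
    intro n
    rw [(hM₀ n).1]
    exact ((hM₀ n).2.1 _).1
  obtain ⟨n0, hn0, hSUC'⟩ := hSUC A B hc T (R.L R.i0) (R.om R.i0) hnl
  obtain ⟨n1, hn1, hKOL'⟩ := hKOL A B hc T (p * f) ι R
  have ha0 : aX p f ≠ 0 := by
    intro h0
    have h1 := (hLVX p A B P V f hS 0).2.2.2.2.2.1
    rw [h0] at h1
    exact absurd h1 (by decide)
  have haZ : (aX p f : ℤ) ≠ 0 := by exact_mod_cast ha0
  have hhalf : IsHalf (R.L R.i0) ((aX p f : ℤ) : ℂ) (H R.i0) := by
    have h1 := hθ.half R.i0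
    rw [Int.cast_natCast]
    exact h1
  have hcopO : ∀ n, IsCoprime ((aX p f : ℤ) : OO A B) ((lvX p f n : ℕ) : OO A B) := fun n =>
    (hLVX p A B P V f hS n).2.2.2.2.2.2.2.1
  have hfn0 := hS.f0
  set S : Finset ℕ := n0.primeFactors ∪ n1.primeFactors ∪ (aX p f).primeFactors ∪
    (p * f).primeFactors with hSdef
  have hSprime : ∀ q ∈ S, q.Prime := by
    intro q hq
    rw [hSdef] at hq
    simp only [Finset.mem_union] at hq
    rcases hq with ((h | h) | h) | h <;> exact Nat.prime_of_mem_primeFactors h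
  have hS0 : ∀ q : ℕ, q.Prime → q ∣ n0 → q ∈ S := by
    intro q hq hd
    rw [hSdef]
    simp only [Finset.mem_union]
    exact Or.inl (Or.inl (Or.inl (Nat.mem_primeFactors.2 ⟨hq, hd, hn0⟩)))
  have hS1 : ∀ q : ℕ, q.Prime → q ∣ n1 → q ∈ S := by
    intro q hq hd
    rw [hSdef]
    simp only [Finset.mem_union]
    exact Or.inl (Or.inl (Or.inr (Nat.mem_primeFactors.2 ⟨hq, hd, hn1⟩)))
  have hSa : ∀ q : ℕ, q.Prime → (q : ℤ) ∣ (aX p f : ℤ) → q ∈ S := by
    intro q hq hd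
    have h1 : q ∣ aX p f := by exact_mod_cast hd
    rw [hSdef]
    simp only [Finset.mem_union]
    exact Or.inl (Or.inr (Nat.mem_primeFactors.2 ⟨hq, h1, ha0⟩))
  have hSm : ∀ n, ∀ q : ℕ, q.Prime → (q : ℤ) ∣ nm ((lvX p f n : ℕ) : OO A B) → q ∈ S := by
    intro n q hq hd
    have h1 := (hLVX p A B P V f hS n).2.2.2.2.2.2.2.2.1 q hq hd
    rw [hSdef]
    simp only [Finset.mem_union]
    exact Or.inr (Nat.mem_primeFactors.2 ⟨hq, h1, mul_ne_zero hp.ne_zero hfn0⟩)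
  have hHas : ∀ n, HasH A B (K ⊔ Bn n) := fun n x hx =>
    (le_sup_left : K ≤ K ⊔ Bn n) (hHK x hx)
  refine ⟨S, ?_⟩
  constructor
  case mem => exact hmem
  case ne => exact hne
  case mem₀ => exact hmem₀
  case norm =>
    intro n
    exact hTOW A B (RF (idl (A := A) (B := B) (lvX p f n))) (T.fin _ (idl_ne (hm0 n)))
      (T.gal _ (idl_ne (hm0 n))) (T.comm _ (idl_ne (hm0 n))) (K₀ ⊔ Bn n) (K ⊔ Bn n) (hk₀ n) (hk n)
      (sup_le_sup_right hX.le _) (hsub n) (θ n) (hθ.ne n) (hmem n)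
  case prime => exact hSprime
  case su =>
    intro n _
    exact hSUC' _ (natO_ne (hm0 n)) (hLVX p A B P V f hS n).2.2.2.2.1 (aX p f : ℤ) (H R.i0) haZ
      (hcopO n) hhalf S hS0 hSa (hSm n) (θ n) (hθ.om n) (K ⊔ Bn n) (hk n) (hsub n) _ rfl
  case nrm =>
    intro n _
    let akD : Algebra (kk A B) ↥(K ⊔ Bn n) := algC (hk n)
    let akL : Algebra (kk A B) ↥(K ⊔ Bn (n + 1)) := algC (hk (n + 1))
    intro σ hσ
    have hle : K ⊔ Bn n ≤ K ⊔ Bn (n + 1) := sup_le_sup_left (hX.b.mono (Nat.le_succ n)) K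
    have hord : orderOf σ = p := by
      have h1 := ordP p (kk A B) K Bn hX.b (n + 1) n (Nat.le_succ n) (hk n) (hk (n + 1)) σ hσ
      rw [h1]
      simp
    have hlev : ((lvX p f (n + 1) : ℕ) : OO A B) = (p : OO A B) * ((lvX p f n : ℕ) : OO A B) := by
      rw [(hLVX p A B P V f hS n).2.1]
      push_cast
      rfl
    have hbm : (p : OO A B) ∣ ((lvX p f n : ℕ) : OO A B) := by
      obtain ⟨t, ht⟩ := (hLVX p A B P V f hS n).2.2.1
      rw [ht]
      push_cast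
      exact dvd_mul_right _ _
    obtain ⟨C, hCH, hC0, hCe⟩ := i1' hI1 A B hc T (R.L R.i0) (R.om R.i0) hnl
      ((lvX p f n : ℕ) : OO A B) (p : OO A B) ((lvX p f (n + 1) : ℕ) : OO A B) hlev
      (natO_ne (hm0 n)) hbm (hLVX p A B P V f hS n).2.2.2.1 (aX p f : ℤ) (H R.i0) haZ (hcopO n)
      hhalf (θ n) (θ (n + 1)) (hθ.om n) (hθ.om (n + 1)) (K ⊔ Bn n) (K ⊔ Bn (n + 1)) (hk n)
      (hk (n + 1)) hle (hHas n) (hsub n) (hsub (n + 1)) p σ hσ hord hp.ne_zero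
      ⟨cW (hk (n + 1)) (θ (n + 1)), hmem (n + 1)⟩ rfl
    exact ⟨C, hHK C hCH, hC0, hCe⟩
  case kol =>
    intro n _
    let akD : Algebra (kk A B) ↥(K ⊔ Bn n) := algC (hk n)
    have h1 := hKOL' p hp _ (natO_ne (hm0 n)) (hLVX p A B P V f hS n).2.2.2.1 (aX p f : ℤ)
      (H R.i0) haZ (hcopO n) hhalf S hS1 hSa (hSm n) (θ n) (hθ.om n) (K ⊔ Bn n) (hk n) (hHas n)
      (hsub n) ⟨cW (hk n) (θ n), hmem n⟩ rfl
    refine KolInP.mono ?_ h1
    intro g hg x hx
    exact hg x (hHK _ hx)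

end

end Pool.Agent.MUXZ


end

section

/-!
# MUX-NS: helper3's last glue (`MUX/StZX.lean`, `MUX/Z_LVX.lean`, `MUX/Z_INW.lean`) without a condition on the decomposition of `p` (helper36)

`SetL p A B f` instead of `SetP p A B P V f`; the proofs are copies. For the assemblies `3` inert, `3` ramified, `2` inert.
-/

set_option autoImplicit false

open NumberField IsDedekindDomain

namespace Pool.Agent.NSZ

open _root_.MU3 _root_.Pool.Agent.MU3 _root_.Pool.Agent.MU3A _root_.Pool.Agent.MU3B _root_.Pool.Agent.RI _root_.Pool.Agent.RID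
  _root_.Pool.Agent.MUX _root_.Pool.Agent.MUXK _root_.Pool.Agent.MUXJ _root_.Pool.Agent.MUXW _root_.Pool.Agent.MUXZ _root_.Pool.Agent.NSI
open _root_.Pool.Agent.MU3V (Sub GD)

noncomputable section

/-- (LVX) elementary properties of the levels -/
def Zl_LVX : Prop :=
  ∀ (p : ℕ) (A B : ℤ) (f : ℕ) (_ : SetL p A B f) (n : ℕ),
    lvX p f n ≠ 0 ∧ lvX p f (n + 1) = p * lvX p f n ∧ p ∣ lvX p f n ∧
    ¬ ((lvX p f n : ℕ) : OO A B) ∣ 2 ∧ ¬ IsUnit ((lvX p f n : ℕ) : OO A B) ∧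
    Odd (aX p f) ∧ (aX p f).Coprime (lvX p f n) ∧
    IsCoprime ((aX p f : ℤ) : OO A B) ((lvX p f n : ℕ) : OO A B) ∧
    (∀ q : ℕ, q.Prime → (q : ℤ) ∣ nm ((lvX p f n : ℕ) : OO A B) → q ∣ p * f) ∧
    ∀ k : ℕ, k.Coprime (p * f) → k.Coprime (lvX p f n)

/-- (INW) the inputs from block W -/
def Zl_INW : Prop :=
  ∀ (p : ℕ) (A B : ℤ) (f : ℕ)
    (_ : SetL p A B f) (_ : TorX A B) (ι : Type) [Finite ι] (R : Reps A B (p * f) ι)
    (H : ι → Finset ℂ)
    (θ : ∀ n : ℕ, (RF (idl (A := A) (B := B) (lvX p f n)) : IntermediateField (kk A B) ℂ))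
    (_ : ThN p f R H θ)
    (K₀ K : IntermediateField ℚ ℂ) (Bn : ℕ → IntermediateField ℚ ℂ)
    [FiniteDimensional ℚ (kk A B)] [FiniteDimensional ℚ K] [∀ n, FiniteDimensional ℚ ↥(K ⊔ Bn n)]
    (_ : SetX p (kk A B) K₀ K Bn) (_ : ∀ y ∈ K, y ∈ RF (idl (A := A) (B := B) (lvX p f 0)))
    (_ : ∀ y ∈ RF (⊤ : Ideal (OO A B)), y ∈ K)
    (hk : ∀ n, kk A B ≤ K ⊔ Bn n) (hk₀ : ∀ n, kk A B ≤ K₀ ⊔ Bn n),
    ∃ S : Finset ℕ, InpW p (kk A B) K₀ K Bn hk hk₀ S (fun n => cW (hk n) (θ n))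
      (fun n => cW (hk₀ n) (θ n)) 0

open _root_.Pool.Agent.MUXZ.LVX in
theorem tl_LVX : Zl_LVX := by
  intro p A B f hS n
  have hp : p.Prime := by
    rcases hS.hp with h | h
    · rw [h]; exact Nat.prime_two
    · rw [h]; exact Nat.prime_three
  have hf : 0 < f := Nat.pos_of_ne_zero hS.f0
  have hq3 : 3 ≤ q0 p := by
    unfold q0
    split_ifs with h
    · norm_num
    · have := hp.two_le
      omega
  have hm3 : 3 ≤ lvX p f n := by
    unfold lvX
    have h1 : 1 ≤ p ^ n := Nat.one_le_pow _ _ hp.pos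
    calc 3 ≤ q0 p := hq3
      _ = 1 * q0 p * 1 := by ring
      _ ≤ f * q0 p * p ^ n := Nat.mul_le_mul (Nat.mul_le_mul hf le_rfl) h1
  have hcop : (aX p f).Coprime (lvX p f n) := by
    have h1 : (aX p f).Coprime f := by
      unfold aX
      rw [Nat.coprime_add_mul_right_left]
      exact Nat.coprime_one_left _
    have h2 : (aX p f).Coprime (q0 p) := by
      have h3 : aX p f = 1 + (2 * f) * q0 p := by unfold aX; ring
      rw [h3, Nat.coprime_add_mul_right_left]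
      exact Nat.coprime_one_left _
    have h4 : (aX p f).Coprime (p ^ n) := (h2.coprime_dvd_right (dvd_q0 p)).pow_right n
    exact (h1.mul_right h2).mul_right h4
  refine ⟨by omega, ?_, ?_, ?_, ?_, ?_, hcop, ?_, ?_, ?_⟩
  · unfold lvX; ring
  · unfold lvX
    exact ((dvd_q0 p).mul_left f).mul_right _
  · have h1 := not_dvd (A := A) (B := B) (lvX p f n) 2 (by norm_num) (by omega)
    exact_mod_cast h1
  · intro h
    have h1 := not_dvd (A := A) (B := B) (lvX p f n) 1 (by norm_num) (by omega)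
    rw [Nat.cast_one] at h1
    exact h1 (isUnit_iff_dvd_one.mp h)
  · exact ⟨q0 p * f, by unfold aX; ring⟩
  · have h1 : IsCoprime ((aX p f : ℕ) : ℤ) ((lvX p f n : ℕ) : ℤ) := Nat.isCoprime_iff_coprime.mpr hcop
    have h2 := h1.map (Int.castRingHom (OO A B))
    simpa using h2
  · intro q hq hd
    have h1 : nm ((lvX p f n : ℕ) : OO A B) = ((lvX p f n : ℕ) : ℤ) ^ 2 := by
      simp [nm]
    rw [h1] at hd
    have h2 : q ∣ lvX p f n ^ 2 := by exact_mod_cast hd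
    have h3 : q ∣ lvX p f n := hq.dvd_of_dvd_pow h2
    unfold lvX at h3
    rcases hq.dvd_mul.mp h3 with h4 | h4
    · rcases hq.dvd_mul.mp h4 with h5 | h5
      · exact h5.mul_left p
      · exact (hq.dvd_of_dvd_pow (h5.trans (q0_dvd p))).mul_right f
    · exact (hq.dvd_of_dvd_pow h4).mul_right f
  · intro k hk
    have h1 : k.Coprime p := Nat.Coprime.coprime_mul_right_right hk
    have h2 : k.Coprime f := Nat.Coprime.coprime_mul_left_right hk
    have h3 : k.Coprime (q0 p) := (h1.pow_right 2).coprime_dvd_right (q0_dvd p)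
    exact (h2.mul_right h3).mul_right (h1.pow_right n)


open _root_.Pool.Agent.MUXZ.Z_INW in
/-- the inputs from block W -/
theorem tl_INW (hLVX : Zl_LVX) (hLVF : Sn_SUB) (hMEM : Sy_MEM) (hTOW : Sy_TOW) (hSUC : Sy_SUC)
    (hI1 : Sy_I1) (hKOL : Sy_KOL) : Zl_INW := by
  intro p A B f hS T ι _ R H θ hθ K₀ K Bn _ _ _ hX hKF hHK hk hk₀
  have hp : p.Prime := by
    rcases hS.hp with h | h
    · rw [h]; exact Nat.prime_two
    · rw [h]; exact Nat.prime_three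
  have : Fact p.Prime := ⟨hp⟩
  have hc : MUX.CQ A B := hS.cq
  have hnl : IsNL (⊤ : Ideal (OO A B)) (R.L R.i0) (R.om R.i0) := by
    have h1 := R.nl R.i0
    rw [R.b0] at h1
    exact h1
  have hNL : NLex A B := ⟨_, _, _, hnl⟩
  have hm0 : ∀ n, lvX p f n ≠ 0 := fun n => (hLVX p A B f hS n).1
  have hsub : ∀ n, _root_.Pool.Agent.MU3V.Sub (K ⊔ Bn n) (RF (idl (A := A) (B := B) (lvX p f n))) := fun n =>
    hLVF p A B f hS T hNL K hKF n (Bn n) (hX.b.lay n)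
  have hsub₀ : ∀ n, _root_.Pool.Agent.MU3V.Sub (K₀ ⊔ Bn n) (RF (idl (A := A) (B := B) (lvX p f n))) := fun n =>
    hLVF p A B f hS T hNL K₀ (fun y hy => hKF y (hX.le hy)) n (Bn n) (hX.b.lay n)
  have hM := fun n => hMEM A B (RF (idl (A := A) (B := B) (lvX p f n))) (T.fin _ (idl_ne (hm0 n)))
    (T.gal _ (idl_ne (hm0 n))) (T.comm _ (idl_ne (hm0 n))) (K ⊔ Bn n) (hk n) (hsub n) (θ n)
    (hθ.ne n)
  have hM₀ := fun n => hMEM A B (RF (idl (A := A) (B := B) (lvX p f n)))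
    (T.fin _ (idl_ne (hm0 n))) (T.gal _ (idl_ne (hm0 n))) (T.comm _ (idl_ne (hm0 n)))
    (K₀ ⊔ Bn n) (hk₀ n) (hsub₀ n) (θ n) (hθ.ne n)
  have hmem : ∀ n, cW (hk n) (θ n) ∈ K ⊔ Bn n := by
    intro n
    rw [(hM n).1]
    exact ((hM n).2.1 _).1
  have hne : ∀ n, cW (hk n) (θ n) ≠ 0 := by
    intro n
    rw [(hM n).1]
    exact ((hM n).2.1 _).2
  have hmem₀ : ∀ n, cW (hk₀ n) (θ n) ∈ K₀ ⊔ Bn n := by
    intro n
    rw [(hM₀ n).1]
    exact ((hM₀ n).2.1 _).1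
  obtain ⟨n0, hn0, hSUC'⟩ := hSUC A B hc T (R.L R.i0) (R.om R.i0) hnl
  obtain ⟨n1, hn1, hKOL'⟩ := hKOL A B hc T (p * f) ι R
  have ha0 : aX p f ≠ 0 := by
    intro h0
    have h1 := (hLVX p A B f hS 0).2.2.2.2.2.1
    rw [h0] at h1
    exact absurd h1 (by decide)
  have haZ : (aX p f : ℤ) ≠ 0 := by exact_mod_cast ha0
  have hhalf : IsHalf (R.L R.i0) ((aX p f : ℤ) : ℂ) (H R.i0) := by
    have h1 := hθ.half R.i0
    rw [Int.cast_natCast]
    exact h1
  have hcopO : ∀ n, IsCoprime ((aX p f : ℤ) : OO A B) ((lvX p f n : ℕ) : OO A B) := fun n =>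
    (hLVX p A B f hS n).2.2.2.2.2.2.2.1
  have hfn0 := hS.f0
  set S : Finset ℕ := n0.primeFactors ∪ n1.primeFactors ∪ (aX p f).primeFactors ∪
    (p * f).primeFactors with hSdef
  have hSprime : ∀ q ∈ S, q.Prime := by
    intro q hq
    rw [hSdef] at hq
    simp only [Finset.mem_union] at hq
    rcases hq with ((h | h) | h) | h <;> exact Nat.prime_of_mem_primeFactors h
  have hS0 : ∀ q : ℕ, q.Prime → q ∣ n0 → q ∈ S := by
    intro q hq hd
    rw [hSdef]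
    simp only [Finset.mem_union]
    exact Or.inl (Or.inl (Or.inl (Nat.mem_primeFactors.2 ⟨hq, hd, hn0⟩)))
  have hS1 : ∀ q : ℕ, q.Prime → q ∣ n1 → q ∈ S := by
    intro q hq hd
    rw [hSdef]
    simp only [Finset.mem_union]
    exact Or.inl (Or.inl (Or.inr (Nat.mem_primeFactors.2 ⟨hq, hd, hn1⟩)))
  have hSa : ∀ q : ℕ, q.Prime → (q : ℤ) ∣ (aX p f : ℤ) → q ∈ S := by
    intro q hq hd
    have h1 : q ∣ aX p f := by exact_mod_cast hd
    rw [hSdef]
    simp only [Finset.mem_union]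
    exact Or.inl (Or.inr (Nat.mem_primeFactors.2 ⟨hq, h1, ha0⟩))
  have hSm : ∀ n, ∀ q : ℕ, q.Prime → (q : ℤ) ∣ nm ((lvX p f n : ℕ) : OO A B) → q ∈ S := by
    intro n q hq hd
    have h1 := (hLVX p A B f hS n).2.2.2.2.2.2.2.2.1 q hq hd
    rw [hSdef]
    simp only [Finset.mem_union]
    exact Or.inr (Nat.mem_primeFactors.2 ⟨hq, h1, mul_ne_zero hp.ne_zero hfn0⟩)
  have hHas : ∀ n, HasH A B (K ⊔ Bn n) := fun n x hx =>
    (le_sup_left : K ≤ K ⊔ Bn n) (hHK x hx)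
  refine ⟨S, ?_⟩
  constructor
  case mem => exact hmem
  case ne => exact hne
  case mem₀ => exact hmem₀
  case norm =>
    intro n
    exact hTOW A B (RF (idl (A := A) (B := B) (lvX p f n))) (T.fin _ (idl_ne (hm0 n)))
      (T.gal _ (idl_ne (hm0 n))) (T.comm _ (idl_ne (hm0 n))) (K₀ ⊔ Bn n) (K ⊔ Bn n) (hk₀ n) (hk n)
      (sup_le_sup_right hX.le _) (hsub n) (θ n) (hθ.ne n) (hmem n)
  case prime => exact hSprime
  case su =>
    intro n _
    exact hSUC' _ (natO_ne (hm0 n)) (hLVX p A B f hS n).2.2.2.2.1 (aX p f : ℤ) (H R.i0) haZ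
      (hcopO n) hhalf S hS0 hSa (hSm n) (θ n) (hθ.om n) (K ⊔ Bn n) (hk n) (hsub n) _ rfl
  case nrm =>
    intro n _
    let akD : Algebra (kk A B) ↥(K ⊔ Bn n) := algC (hk n)
    let akL : Algebra (kk A B) ↥(K ⊔ Bn (n + 1)) := algC (hk (n + 1))
    intro σ hσ
    have hle : K ⊔ Bn n ≤ K ⊔ Bn (n + 1) := sup_le_sup_left (hX.b.mono (Nat.le_succ n)) K
    have hord : orderOf σ = p := by
      have h1 := ordP p (kk A B) K Bn hX.b (n + 1) n (Nat.le_succ n) (hk n) (hk (n + 1)) σ hσ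
      rw [h1]
      simp
    have hlev : ((lvX p f (n + 1) : ℕ) : OO A B) = (p : OO A B) * ((lvX p f n : ℕ) : OO A B) := by
      rw [(hLVX p A B f hS n).2.1]
      push_cast
      rfl
    have hbm : (p : OO A B) ∣ ((lvX p f n : ℕ) : OO A B) := by
      obtain ⟨t, ht⟩ := (hLVX p A B f hS n).2.2.1
      rw [ht]
      push_cast
      exact dvd_mul_right _ _
    obtain ⟨C, hCH, hC0, hCe⟩ := i1' hI1 A B hc T (R.L R.i0) (R.om R.i0) hnl
      ((lvX p f n : ℕ) : OO A B) (p : OO A B) ((lvX p f (n + 1) : ℕ) : OO A B) hlev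
      (natO_ne (hm0 n)) hbm (hLVX p A B f hS n).2.2.2.1 (aX p f : ℤ) (H R.i0) haZ (hcopO n)
      hhalf (θ n) (θ (n + 1)) (hθ.om n) (hθ.om (n + 1)) (K ⊔ Bn n) (K ⊔ Bn (n + 1)) (hk n)
      (hk (n + 1)) hle (hHas n) (hsub n) (hsub (n + 1)) p σ hσ hord hp.ne_zero
      ⟨cW (hk (n + 1)) (θ (n + 1)), hmem (n + 1)⟩ rfl
    exact ⟨C, hHK C hCH, hC0, hCe⟩
  case kol =>
    intro n _
    let akD : Algebra (kk A B) ↥(K ⊔ Bn n) := algC (hk n)
    have h1 := hKOL' p hp _ (natO_ne (hm0 n)) (hLVX p A B f hS n).2.2.2.1 (aX p f : ℤ)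
      (H R.i0) haZ (hcopO n) hhalf S hS1 hSa (hSm n) (θ n) (hθ.om n) (K ⊔ Bn n) (hk n) (hHas n)
      (hsub n) ⟨cW (hk n) (θ n), hmem n⟩ rfl
    refine KolInP.mono ?_ h1
    intro g hg x hx
    exact hg x (hHK _ hx)

end

end Pool.Agent.NSZ


end

section

/-!
# MUX-NS, block IN (helper36): from the results of blocks E, H to the input (I3) of block K

`PAPER_NS.md`, section 1. Every statement is a `def Sn_X : Prop`; a module proves `theorem tn_X (h : ..) ... : Sn_X`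
in the file `Pool/Agent/NS/I_X.lean`, namespace `Pool.Agent.NSI`; the hypotheses are the statements named under USES
(fewer is fine). The statements are general where this costs nothing: `SetL p A B f` (`p = 2` or `3`, no condition on the decomposition
of `p`), so they contain the statements of `Pool/Agent/MUX/StIX.lean` (`Si_X`, proved in `Pool/Agent/MUX/I_X.lean`) and can be used in the
ramified case. The modules IAF, IAG, RPR, HIT, ARF, XXF, LAY, GAM, BIJ, PTP, CHI, GEN of `StIX.lean` are used as they are.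
-/

set_option autoImplicit false

namespace Pool.Agent.NSI

open _root_.MU3 _root_.Pool.Agent.MU3 _root_.Pool.Agent.MU3A _root_.Pool.Agent.MU3B _root_.Pool.Agent.RI _root_.Pool.Agent.RID
  _root_.Pool.Agent.MUX _root_.Pool.Agent.ME _root_.Pool.Agent.MUXK _root_.Pool.Agent.MUXI _root_.Pool.Agent.NS
open _root_.Pool.Agent.MU3I (w3 zt)

noncomputable section

/-! ## Definitions -/

lemma setL_N_E {A B : ℤ} {V : ValuationSubring ℂ} {f : ℕ} (h : SetE4 A B V f) : SetL 3 A B f :=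
  ⟨h.case.toCQ, Or.inr rfl, h.f0, h.fp⟩

/-- the weights `kk_i = kp_i c_i / mu_i`, times `w3 (N b_i)` if `s = -1`; `c : ι → ℂ` (`kkX` of `StIX.lean` has `c : ι → ℤ`) -/
def kkC_E {A B : ℤ} {n₀ : ℕ} {ι : Type} (R : RepsE A B n₀ ι) (kp c : ι → ℂ) (s : ℤ) (i : ι) : ℂ :=
  kp i * c i / muXE R i * (if s = 1 then 1 else (w3 (nI (R.b i)) : ℂ))

/-- the input from block E for one field `D` -/
structure EInpN_E {A B : ℤ} (V : ValuationSubring ℂ) (f : ℕ) {ι : Type}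
    (R : RepsE A B (3 * f) ι) (u : ℂ) (n : ℕ) {D : IntermediateField ℚ ℂ} (h : kk A B ≤ D)
    (C : (letI := algC h; D ≃ₐ[kk A B] D) → ℂ) : Prop where
  ne : C (letI := algC h; 1) ≠ 0
  conj : letI := algC h
    ∀ τ : D ≃ₐ[kk A B] D, ∃ y : D, (y : ℂ) = C 1 ∧ ((τ y : D) : ℂ) = C τ
  ew : letI := algC h
    ∀ w : OO A B → ℂ, IsTei V w → ∀ g : (D ≃ₐ[kk A B] D) → ℤ,
      (∃ y ∈ D, y ^ 3 = ∏ᶠ τ : D ≃ₐ[kk A B] D, C τ ^ g τ) → ∀ τ' : D ≃ₐ[kk A B] D,
        V.valuation ((∑ᶠ τ : D ≃ₐ[kk A B] D, (g τ : ℂ) *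
          TTNE R w (lvX 3 f n) (aX 3 f) h (τ * τ')) / u) ≤ V.valuation (3 : ℂ)

/-! ## Characters -/

/-- (EPS) the sign function, the odd character, the sign `s` and the type `i`.

USES Sx_ALG (and what you like of `StIX.lean`). PROOF. `lvX 3 f 0 = f * 3 * 3^0`. Let `k*` be the set of the `x ≡ 1` modulo `f`, `x ∉ (3)`. As `3 ∤ f`, every class of `O/3` contains elements `≡ 1` modulo `f` (CRT with integers `a f + b 3 = 1`), and for `x, x' ∈ k*` with
`x ≡ x'` modulo `3` one has `x ≡ x'` modulo `3 f`. So `e0` on `k*` is a character of `(O/3)^*`, the multiplicative group of a field with nine elements (`3` is prime in `O`: `CaseE4.three`, `O/3 = F_3[w]`, the discriminant is not a square modulo `3`), cyclic of order 8.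
`w` is injective on it (`w x = 1` gives `v(1 - emb x) ≤ v(3) < 1`, so `1 - x ∈ (3)` by `OverI`), so every character of it is a power `w^j`, `0 ≤ j ≤ 7` (e.g. `y` a generator; `e0(y)^8 = 1`, and `w y` is a primitive 8th root of unity, so `e0 y = (w y)^j`). `w3 (nm x) = (w x)^4` for `x ∉ (3)`: `x̄ ≡ x^3` modulo `3`
(Frobenius: `w̄ = B - w`; or check the nine classes), so `nm x = x x̄ ≡ x^4` modulo `3`, both sides are `± 1` and congruent modulo `3` (`IsTei.cong`), and `v(2) = 1`. `s = 1` if `j + 1 ∈ {4, .., 7}`, `i = j + 1`; otherwise `s = -1`, `i = j + 5` (`j = 0, 1, 2`) or `i = 4` (`j = 7`).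
`e x = e0 x * w x * (if s = 1 then 1 else w3 (nm x))`: `e (-1) = w (-1) = -1` (`w (-1)^2 = 1`, `w (-1) ≡ -1` modulo 3). `supp`: `w x ≠ 0` for `x ∉ (3)` (`pow`), and `x` is prime to `3 f` iff ...; the support of `e0` is given. Last formula: `w3 (nm x)^2 = 1`. -/
def Sn_EPS_E : Prop :=
  ∀ (A B : ℤ) (V : ValuationSubring ℂ) (f : ℕ) (_ : SetE4 A B V f) (w : OO A B → ℂ)
    (_ : IsTei V w) (e0 : OO A B → ℂ) (r : ℕ)
    (_ : e0 1 = 1) (_ : e0 (-1) = 1) (_ : ∀ x y, e0 (x * y) = e0 x * e0 y)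
    (_ : ∀ x y, x - y ∈ idl (A := A) (B := B) (lvX 3 f 0) → e0 x = e0 y)
    (_ : ∀ x, e0 x ≠ 0 ↔ IsCoprime x ((lvX 3 f 0 : ℕ) : OO A B))
    (_ : ∀ x, e0 x ≠ 0 → e0 x ^ r = 1) (_ : ∀ z, IsUnit z → e0 z = 1),
    ∃ (e : OO A B → ℂ) (s : ℤ) (i : ℕ), IsEIE (idl (A := A) (B := B) (3 * f)) e ∧
      (s = 1 ∨ s = -1) ∧ 4 ≤ i ∧ i ≤ 7 ∧
      (∀ x, x - 1 ∈ idl (A := A) (B := B) f → x ∉ idl (A := A) (B := B) 3 → e x = w x ^ i) ∧
      (∀ x, e x ≠ 0 → e x ^ (8 * r) = 1) ∧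
      ∀ x, IsCoprime x ((lvX 3 f 0 : ℕ) : OO A B) →
        e0 x * w x = e x * (if s = 1 then 1 else (w3 (nm x) : ℂ))

/-- (TEI) existence of the Teichmueller character.

PROOF. `O/3` is a field with nine elements (see EPS), `(O/3)^*` is cyclic of order 8, generated by the class of `y`. The polynomial `X^8 - 1` has in `ℂ` the eight roots `ζ^j`, `ζ = exp(2 π i/8)`; `∏_j (emb y - ζ^j) = emb y ^ 8 - 1 = emb (y^8 - 1) ∈ 3 emb O`, so `v(emb y - ζ^j) < 1` for some `j`. Not enough: we need `v ≤ v(3)`: the differences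
`ζ^j - ζ^l`, `j ≠ l`, are units at `V` (their product, `∏_(j ≠ l) (1 - ζ^..)`, divides a power of 2, and `v(2) = 1` since `v(3) < 1`), so exactly one factor is `< 1`, the others are units (`v = 1`), and `v(emb y - ζ^j) = v(emb y^8 - 1) ≤ v(3)`. Put `ω = ζ^j` and `w x = ω^k` if `x ≡ y^k` modulo `3`, `0` if `x ∈ (3)`. `ω^8 = 1`: well defined,
multiplicative. `cong`: `emb x - ω^k = emb(x - y^k) + (emb y ^k - ω^k)`, and `0` for `x ∈ (3)`: `v(emb x) ≤ v(3)` as `x = 3 x'`, `emb x' ∈ V` (`emb O ⊆ V`: `OverI` gives it: if `emb x' ∉ V` then `emb x'` is ... use that `emb x'` is integral over `ℤ`, or `x'` satisfies `x'^2 = t x' - n`). -/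
def Sn_TEI_E : Prop :=
  ∀ (A B : ℤ) (V : ValuationSubring ℂ), CaseE4 A B → OverI V (idl (A := A) (B := B) 3) →
    ∃ w : OO A B → ℂ, IsTei V w

/-! ## Statements of `StIX.lean` without a condition on `p` -/

/-- (E0) the characters `e0` and `kp` attached to a character of `Gal(K/k)`, `K ≤ RFE (f q0)`.

USES Si_ARF_E, Sx_NIM. `Pool/Agent/MUX/I_E0.lean` with `SetL` (the same proof; `Si_E0` follows with `setL_P`). -/
def Sn_E0_E : Prop :=
  ∀ (p : ℕ) (A B : ℤ) (f : ℕ),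
    SetL p A B f → CaseE A B → 2 ∣ lvX p f 0 → TorXE A B → ∀ (ι : Type) (R : RepsE A B (p * f) ι)
    (K : IntermediateField ℚ ℂ) (hK : kk A B ≤ K),
    (∀ y ∈ K, y ∈ RFE (idl (A := A) (B := B) (lvX p f 0))) → letI := algC hK
    ∀ (_ : IsGalois (kk A B) K) (X : (K ≃ₐ[kk A B] K) →* ℂˣ) (r : ℕ) (_ : ∀ τ, X τ ^ r = 1),
    ∃ (e0 : OO A B → ℂ) (kp : ι → ℂ), e0 1 = 1 ∧ e0 (-1) = 1 ∧ (∀ x y, e0 (x * y) = e0 x * e0 y) ∧
      (∀ x y, x - y ∈ idl (A := A) (B := B) (lvX p f 0) → e0 x = e0 y) ∧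
      (∀ x, e0 x ≠ 0 ↔ IsCoprime x ((lvX p f 0 : ℕ) : OO A B)) ∧
      (∀ x, e0 x ≠ 0 → e0 x ^ r = 1) ∧ (∀ z, IsUnit z → e0 z = 1) ∧ (∀ i, kp i ^ r = 1) ∧
      ∀ (τ : K ≃ₐ[kk A B] K) (i : ι) (x : OO A B), IsCoprime x ((lvX p f 0 : ℕ) : OO A B) →
        AR_E hK (idl (lvX p f 0)) τ (sp x * cjI (R.b i)) → (((X τ)⁻¹ : ℂˣ) : ℂ) = kp i * e0 x

/-- (SUB) `K B_n ≤ RFE (lvX p f n)`.

USES Si_LAY, Si_IAF_E. `Pool/Agent/MUX/I_SUB.lean` with `SetL`. -/
def Sn_SUB_E : Prop :=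
  ∀ (p : ℕ) (A B : ℤ) (f : ℕ), SetL p A B f → TorXE A B →
    (∃ (b : Ideal (OO A B)) (L : PeriodPair) (om : ℂ), IsNE b L om) →
    ∀ (K : IntermediateField ℚ ℂ), (∀ y ∈ K, y ∈ RFE (idl (A := A) (B := B) (lvX p f 0))) →
    ∀ (n : ℕ) (Bn : IntermediateField ℚ ℂ), IsLayer p n Bn →
    ∀ y ∈ K ⊔ Bn, y ∈ RFE (idl (A := A) (B := B) (lvX p f n))

/-- (XMX) the sets `XXE` satisfy `XM_E`.

USES Si_XXF_E, Si_ARF_E, Si_LAY, Sx_ALG, Sx_NIM. The proof of `Si_XMX` with `SetL`. -/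
def Sn_XMX_E : Prop :=
  ∀ (p : ℕ) (A B : ℤ) (f : ℕ),
    SetL p A B f → CaseE A B → 2 ∣ lvX p f 0 → TorXE A B → ∀ (ι : Type) (R : RepsE A B (p * f) ι)
    (K Bn : IntermediateField ℚ ℂ) (n : ℕ) (h : kk A B ≤ K ⊔ Bn), IsLayer p n Bn →
    (∀ y ∈ K ⊔ Bn, y ∈ RFE (idl (A := A) (B := B) (lvX p f n))) → letI := algC h
    ∀ (_ : IsGalois (kk A B) ↥(K ⊔ Bn)) (γ : ↥(K ⊔ Bn) ≃ₐ[kk A B] ↥(K ⊔ Bn)),
    (∀ x : ↥(K ⊔ Bn), (x : ℂ) = zt (q0 p * p ^ n) + (zt (q0 p * p ^ n))⁻¹ →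
        ((γ x : ↥(K ⊔ Bn)) : ℂ) =
          zt (q0 p * p ^ n) ^ (1 + q0 p) + (zt (q0 p * p ^ n) ^ (1 + q0 p))⁻¹) →
    XM_E R p f n γ (NC h Bn) (fun τ => XXE R (lvX p f n) h τ)

/-- (TSH) the sums of the logarithmic derivatives; `e` modulo any ideal `g ∣ f q0`.

USES Si_PTP_E, Sx_ALG. `Pool/Agent/MUX/I_TSH.lean` with `SetL` and `idl f * cjI P` replaced by `g`; there the only facts used are `idl (lvX p f n) ≤ g`, which
follows from the hypothesis on `g`, and `aX p f - 1 = 2 q0 f ∈ g`, the same. -/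
def Sn_TSH_E : Prop :=
  ∀ (p : ℕ) (A B : ℤ) (f : ℕ),
    SetL p A B f → ∀ g : Ideal (OO A B), idl (A := A) (B := B) (lvX p f 0) ≤ g →
    ∀ (ι : Type) (R : RepsE A B (p * f) ι) (n : ℕ) (e : OO A B → ℂ),
    IsEI g e → ∀ (i : ι) (t : ℤ),
    muXE R i * sumMod ((lvX p f n : ℕ) : OO A B) (fun x =>
      if ((q0 p * p ^ n : ℕ) : ℤ) ∣ nm x * nI (R.b i) - t then
        e x * dlX (R.L i) (aX p f) (ptE R (lvX p f n) i x) else 0) =
      (aX p f : ℂ) * SnXE R (lvX p f n) (q0 p * p ^ n) e i ((aX p f : ℤ) ^ 2 * t) -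
        (aX p f : ℂ) ^ 2 * SnXE R (lvX p f n) (q0 p * p ^ n) e i t

/-- (TH) the sums `That_j`; `e` modulo any ideal `g ∣ f q0`, weights `w`, `c` with complex values.

USES TSH, Si_PTP_E, Sx_ALG, Sx_NIM. The proof of `Si_TH` (`StIX.lean`); `Si_TH` is the case `g = idl f * cjI P`. In that proof only the following is used on `w`: it is periodic modulo the level; on `e`: `g ≤ idl f` (so `e x ≠ 0` implies that `x` is prime to `f`). -/
def Sn_TH_E : Prop :=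
  ∀ (p : ℕ) (A B : ℤ) (f : ℕ),
    SetL p A B f → CaseE A B → 2 ∣ lvX p f 0 → ∀ g : Ideal (OO A B), idl (A := A) (B := B) (lvX p f 0) ≤ g → g ≤ idl f →
    ∀ (ι : Type) [Fintype ι] (R : RepsE A B (p * f) ι) (n : ℕ) (G : Type)
    [Group G] [Finite G] (γ : G) (Δ : Subgroup G) [Fintype Δ]
    (X : G → Set (ι × (OO A B ⧸ idl (A := A) (B := B) (lvX p f n)))), XM_E R p f n γ Δ X →
    ∀ (χ : Δ →* ℂˣ) (e0 : OO A B → ℂ) (kp c : ι → ℂ) (w : OO A B → ℂ) (e : OO A B → ℂ)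
    (s : ℤ),
    (∀ x y, x - y ∈ idl (A := A) (B := B) (lvX p f n) → e0 x = e0 y) →
    (∀ x y, x - y ∈ idl (A := A) (B := B) (lvX p f n) → w x = w y) →
    IsEIE g e → s = 1 ∨ s = -1 → (p = 2 → s = 1) →
    (∀ x, IsCoprime x ((lvX p f 0 : ℕ) : OO A B) →
        e0 x * w x = e x * (if s = 1 then 1 else (w3 (nm x) : ℂ))) →
    (∀ (δ : Δ) (j : ℕ), ∀ q ∈ X (γ ^ j * (δ : G)),
      (((χ δ)⁻¹ : ℂˣ) : ℂ) = kp q.1 * e0 (Quotient.out q.2)) →
    ∀ j : ℕ,
    (rE A B : ℂ) * ∑ δ : Δ, (((χ δ)⁻¹ : ℂˣ) : ℂ) * ∑ᶠ q ∈ X (γ ^ j * (δ : G)),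
        w (Quotient.out q.2) *
        c q.1 * dlX (R.L q.1) (aX p f) (ptE R (lvX p f n) q.1 (Quotient.out q.2)) =
      STXE R (lvX p f n) (q0 p * p ^ n) (aX p f) e (kkC_E R kp c s) ((1 + (q0 p : ℤ)) ^ j) +
        s * STXE R (lvX p f n) (q0 p * p ^ n) (aX p f) e (kkC_E R kp c s) (-(1 + (q0 p : ℤ)) ^ j)

/-! ## One level is enough -/

/-! ## The result -/

/-- (I3) one level, `T`. Module of helper36.

USES Sj_RES, Si_CHI, FOU, St_ITG, EPS, TEI, E0, Si_ARF_E, Si_XXF_E, SUB, Si_GAM, XMX, Si_BIJ, TH, Si_GEN, `Sn_HFIN_E`, S_GALX. -/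
def Sn_I31_E : Prop :=
  ∀ (A B : ℤ) (V : ValuationSubring ℂ) (f : ℕ), SetE4 A B V f → TorXE A B →
    ∀ (ι : Type) [Fintype ι] (R : RepsE A B (3 * f) ι) (u el lam : ℂ),
    GoodN V (R.L R.i0) u el lam →
    ∀ (K : IntermediateField ℚ ℂ) (Bn : ℕ → IntermediateField ℚ ℂ)
    [FiniteDimensional ℚ K] [∀ n, FiniteDimensional ℚ ↥(K ⊔ Bn n)]
    (hB : BasX 3 (kk A B) K Bn)
    (_ : ¬ 3 ∣ Module.finrank (kk A B) (IntermediateField.extendScalars hB.hk))
    (_ : ∀ y ∈ K, y ∈ RFE (idl (A := A) (B := B) (lvX 3 f 0)))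
    (hk : ∀ n, kk A B ≤ K ⊔ Bn n) (hkK : kk A B ≤ K)
    (C : ∀ n, (letI := algC (hk n); ↥(K ⊔ Bn n) ≃ₐ[kk A B] ↥(K ⊔ Bn n)) → ℂ)
    (_ : ∀ n, 1 ≤ n → EInpN_E V f R u n (hk n) (C n)) (c₀ : ℕ → ℂ)
    (mem : ∀ n, c₀ n ∈ K ⊔ Bn n) (_ : ∀ n, 1 ≤ n → c₀ n = C n (letI := algC (hk n); 1))
    (χ : (letI := algC hkK; (↥K ≃ₐ[kk A B] ↥K) →* (IsLocalRing.ResidueField V)ˣ)) (n₀ : ℕ),
    ∃ n, n₀ ≤ n ∧ I3At (IsLocalRing.ResidueField V) 3 (kk A B) K Bn hkK χ 1 n (hk n) (c₀ n) (mem n)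

/-- THE RESULT of block IN: the inputs of block K. Module of helper36.

USES I31, LEM1, NRX. -/
def Sn_INP_E : Prop :=
  ∀ (A B : ℤ) (V : ValuationSubring ℂ) (f : ℕ), SetE4 A B V f → TorXE A B →
    ∀ (ι : Type) [Fintype ι] (R : RepsE A B (3 * f) ι) (u el lam : ℂ),
    GoodN V (R.L R.i0) u el lam →
    ∀ (K₀ K : IntermediateField ℚ ℂ) (Bn : ℕ → IntermediateField ℚ ℂ)
    [FiniteDimensional ℚ (kk A B)] [FiniteDimensional ℚ K] [∀ n, FiniteDimensional ℚ ↥(K ⊔ Bn n)]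
    (_ : SetX 3 (kk A B) K₀ K Bn)
    (_ : ∀ y ∈ K₀, y ∈ RFE (idl (A := A) (B := B) (lvX 3 f 0)))
    (hk : ∀ n, kk A B ≤ K ⊔ Bn n) (hk₀ : ∀ n, kk A B ≤ K₀ ⊔ Bn n) (hkK : kk A B ≤ K₀)
    (S : Finset ℕ) (c c₀ : ℕ → ℂ) (n₁ : ℕ)
    (_ : Pool.Agent.MUXZ.InpW 3 (kk A B) K₀ K Bn hk hk₀ S c c₀ n₁)
    (C : ∀ n, (letI := algC (hk₀ n); ↥(K₀ ⊔ Bn n) ≃ₐ[kk A B] ↥(K₀ ⊔ Bn n)) → ℂ)
    (_ : ∀ n, 1 ≤ n → EInpN_E V f R u n (hk₀ n) (C n))
    (_ : ∀ n, 1 ≤ n → c₀ n = C n (letI := algC (hk₀ n); 1)),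
    InpX (IsLocalRing.ResidueField V) 3 (kk A B) K₀ K Bn hk hk₀ hkK S c c₀ n₁

end

end Pool.Agent.NSI


end

section

/-!
# MUX-NS, block IN, module TEI: existence of the Teichmueller character (helper80)

`P = 3 O` is a prime ideal with nine residue classes, so `x ^ 8 ≡ 1` modulo `3` for `x ∉ P`. For such an `x`
there is exactly one 8th root of unity `η` with `v (emb x - η) < 1`, and then `v (emb x - η) ≤ v 3`
(the product of the `emb x - η` is `emb x ^ 8 - 1`, and different 8th roots of unity differ by units at `V`).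
Put `w x = η`, and `w x = 0` for `x ∈ P`; everything follows from the uniqueness.
-/

set_option autoImplicit false

namespace Pool.Agent.NSI

open _root_.MU3 _root_.Pool.Agent.MU3 _root_.Pool.Agent.MU3A _root_.Pool.Agent.MU3B _root_.Pool.Agent.RI _root_.Pool.Agent.RID
  _root_.Pool.Agent.MUX _root_.Pool.Agent.ME _root_.Pool.Agent.MUXK _root_.Pool.Agent.MUXI _root_.Pool.Agent.NS
open _root_.Pool.Agent.MU3I (w3 zt)

noncomputable section

namespace TEI

/-! ### 8th roots of unity -/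

/-! ### The ring `O` -/

section
variable {A B : ℤ} {V : ValuationSubring ℂ}

end

end TEI

open _root_.Pool.Agent.NSI.TEI in
/-- (TEI) existence of the Teichmueller character -/
theorem tn_TEI_E : Sn_TEI_E := by
  classical
  intro A B V hC hV
  have hc : CQ A B := hC.toCQ
  have v3 := v_three hc hV
  have hP : (idl (A := A) (B := B) 3).IsPrime := prime hc hV
  choose η hη8 hηv using fun (x : OO A B) (hx : x ∉ idl (A := A) (B := B) 3) => exists_eta hc hV hx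
  have key : ∀ (x : OO A B) (hx : x ∉ idl (A := A) (B := B) 3) (ξ : ℂ), ξ ^ 8 = 1 →
      V.valuation (ξ - emb x) < 1 → η x hx = ξ := by
    intro x hx ξ hξ hv
    refine root_eq v3 (hη8 x hx) hξ ?_
    have e1 : η x hx - ξ = (η x hx - emb x) - (ξ - emb x) := by ring
    rw [e1]
    exact lt_of_le_of_lt (V.valuation.map_sub _ _) (max_lt (lt_of_le_of_lt (hηv x hx) v3) hv)
  refine ⟨fun x => if hx : x ∈ idl (A := A) (B := B) 3 then 0 else η x hx, ?_, ?_, ?_, ?_, ?_, ?_⟩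
  · have h1 : (1 : OO A B) ∉ idl (A := A) (B := B) 3 := (Ideal.ne_top_iff_one _).1 hP.ne_top
    rw [dif_neg h1]
    refine key 1 h1 1 (one_pow 8) ?_
    rw [_root_.Pool.Agent.MUX.emb_one hc, sub_self, map_zero]
    exact zero_lt_one
  · intro x y
    by_cases hx : x ∈ idl (A := A) (B := B) 3
    · rw [dif_pos hx, dif_pos (Ideal.mul_mem_right y _ hx), zero_mul]
    · by_cases hy : y ∈ idl (A := A) (B := B) 3
      · rw [dif_pos hy, dif_pos (Ideal.mul_mem_left _ x hy), mul_zero]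
      · have hxy : x * y ∉ idl (A := A) (B := B) 3 := fun h => (hP.mem_or_mem h).elim hx hy
        rw [dif_neg hx, dif_neg hy, dif_neg hxy]
        refine key (x * y) hxy _ (by rw [mul_pow, hη8, hη8, one_mul]) ?_
        have e1 : η x hx * η y hy - emb (x * y) =
            η x hx * (η y hy - emb y) + emb y * (η x hx - emb x) := by
          rw [_root_.Pool.Agent.MUX.emb_mul hc]
          ring
        rw [e1]
        refine lt_of_le_of_lt (V.valuation.map_add _ _) (max_lt ?_ ?_)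
        · rw [map_mul, v_root (hη8 x hx), one_mul]
          exact lt_of_le_of_lt (hηv y hy) v3
        · rw [map_mul]
          exact lt_of_le_of_lt (mul_le_of_le_one_left' (v_emb hc V y))
            (lt_of_le_of_lt (hηv x hx) v3)
  · intro x y hxy
    by_cases hx : x ∈ idl (A := A) (B := B) 3
    · have hy : y ∈ idl (A := A) (B := B) 3 := by
        have h := Ideal.sub_mem _ hx hxy
        rwa [sub_sub_cancel] at h
      rw [dif_pos hx, dif_pos hy]
    · have hy : y ∉ idl (A := A) (B := B) 3 := by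
        intro h
        apply hx
        have h := Ideal.add_mem _ hxy h
        rwa [sub_add_cancel] at h
      rw [dif_neg hx, dif_neg hy]
      refine key x hx _ (hη8 y hy) ?_
      have e1 : η y hy - emb x = (η y hy - emb y) - emb (x - y) := by
        rw [_root_.Pool.Agent.MUX.emb_sub hc]
        ring
      rw [e1]
      exact lt_of_le_of_lt (V.valuation.map_sub _ _)
        (max_lt (lt_of_le_of_lt (hηv y hy) v3) (lt_of_le_of_lt (v_mem hc V hxy) v3))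
  · intro x hx
    rw [dif_pos hx]
  · intro x hx
    rw [dif_neg hx]
    exact hη8 x hx
  · intro x
    by_cases hx : x ∈ idl (A := A) (B := B) 3
    · rw [dif_pos hx, zero_sub, Valuation.map_neg]
      exact v_mem hc V hx
    · rw [dif_neg hx]
      exact hηv x hx

end

end Pool.Agent.NSI


end

section

/-!
# MUX, last glue (helper3): from blocks W, E, I to the inputs `InpAll` of block J

`D_n = K ⊔ B n`, `m_n = lvX p f n = f q0 p^n`, `θ_n = Θ_a(om/m_n) ∈ RF m_n`, `a = aX p f`, `c n = cW θ_n` = the norm of `θ_n` to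
`K B_n`, `c₀ n` = the norm to `K₀ B_n`. Every `def Sz_X : Prop` is the statement of a module `MUXZ_X`: `theorem tz_X (h : ..) .. : Sz_X` in
`Pool/Agent/MUX/Z_X.lean`, namespace `Pool.Agent.MUXZ`.
-/

set_option autoImplicit false

open NumberField IsDedekindDomain

namespace Pool.Agent.MUXZ

open _root_.MU3 _root_.Pool.Agent.MU3 _root_.Pool.Agent.MU3A _root_.Pool.Agent.MU3B _root_.Pool.Agent.RI _root_.Pool.Agent.RID
  _root_.Pool.Agent.MUX _root_.Pool.Agent.ME _root_.Pool.Agent.MUXK _root_.Pool.Agent.MUXJ _root_.Pool.Agent.MUXW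
open _root_.Pool.Agent.MU3V (Sub GD)

noncomputable section

/-- (LVF) the fields `K B_n` are in the ray class fields of level `m_n`.

Uses Sj_LAY. PROOF. `F = (RFE (idl (lvX p f n))).restrictScalars ℚ`. `K ≤ F`: `T.mono` (`lvX p f n` is a multiple of `lvX p f 0`). `M = q0 p * p ^ n`, `ζ = exp (2 π i/M)`: `ζ ∈ F` by `T.zeta` (`lvX p f n ∈ idl M`; `T.act` for `RingEquiv.refl ℂ` and the lattice of `NLex_E` gives the `ActE` needed). The field
`ℚ(ζ + ζ⁻¹)` is a layer `IsLayer p n` (see the proof of Sj_LAY; `p = 3`: `t_ILAY`, `Z_ZLAY.lean` of MU3), so it is `Bn` (uniqueness in Sj_LAY): `Bn ≤ F`. -/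
def Sz_LVF_E : Prop :=
  ∀ (p : ℕ) (A B : ℤ) (_ : CaseP p A B) (_ : TorXE A B) (_ : NLex_E A B) (f : ℕ) (_ : f ≠ 0)
    (K : IntermediateField ℚ ℂ)
    (_ : ∀ y ∈ K, y ∈ RFE (idl (A := A) (B := B) (lvX p f 0))) (n : ℕ)
    (Bn : IntermediateField ℚ ℂ) (_ : IsLayer p n Bn),
    ∀ y ∈ K ⊔ Bn, y ∈ RFE (idl (A := A) (B := B) (lvX p f n))

/-- (THN) the half systems and the values `θ`.

Uses `Pool.Agent.MU3B.b_HAL`, Sy_THG_E. PROOF. Half systems for `a` on `R.L i`: HAL (`a` odd: `a z ∈ L`, `2 z ∈ L` give `z = a z - ((a - 1)/2) (2 z) ∈ L`). THG for `L = R.L R.i0`, `z = ptE R m R.i0 1 = om/m` (`nI ⊤ = 1`, `emb 1 = 1`, `emb (m : O) = m`): `emb m * z = om ∈ L`, `z ∉ L` as `m` is not a unit. `θ ≠ 0`: `Θ_a(z) = 0`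
only for `a z ∈ L` (`b_TNZ`), and `a om/m = om emb x` means `a = m x`, impossible as `a` is prime to `m` and `m` is not a unit. -/
def Sz_THN_E : Prop :=
  ∀ (A B : ℤ) (_ : CQ A B) (_ : TorXE A B) (n : ℕ) (ι : Type) (R : RepsE A B n ι) (a : ℕ)
    (_ : Odd a), ∃ H : ι → Finset ℂ, (∀ i, IsHalf (R.L i) a (H i)) ∧
      ∀ m : ℕ, m ≠ 0 → ¬ IsUnit ((m : ℕ) : OO A B) → a.Coprime m →
        ∃ θ : (RFE (idl (A := A) (B := B) m) : IntermediateField (kk A B) ℂ),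
          (θ : ℂ) = ThetaH (R.L R.i0) (H R.i0) (ptE R m R.i0 1) ∧
          (θ : ℂ) = ThetaH (R.L R.i0) (H R.i0) (R.om R.i0 / emb ((m : ℕ) : OO A B)) ∧ θ ≠ 0

/-- the choice of `θ_n` at all levels -/
structure ThN_E {A B : ℤ} {ι : Type} (p f : ℕ) (R : RepsE A B (p * f) ι) (H : ι → Finset ℂ)
    (θ : ∀ n : ℕ, (RFE (idl (A := A) (B := B) (lvX p f n)) : IntermediateField (kk A B) ℂ)) :
    Prop where
  half : ∀ i, IsHalf (R.L i) (aX p f : ℕ) (H i)
  ptE : ∀ n, (θ n : ℂ) = ThetaH (R.L R.i0) (H R.i0) (ptE R (lvX p f n) R.i0 1)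
  om : ∀ n, (θ n : ℂ) =
    ThetaH (R.L R.i0) (H R.i0) (R.om R.i0 / emb ((lvX p f n : ℕ) : OO A B))
  ne : ∀ n, θ n ≠ 0

/-- (INW) the inputs from block W.

Uses LVX, LVF, Sy_MEM, Sy_TOW, Sy_SUC_E, Sy_I1_E, Sy_KOL_E. PROOF. `T : TorXE A B`; `idl m = sp ((m : ℕ) : O)` by definition. `RFE (idl m_n)` is finite, Galois, abelian over `k` (`T.fin`, `T.gal`, `T.comm`). `Sub (K ⊔ Bn n) (RFE (idl m_n))`, `Sub (K₀ ⊔ Bn n) ..` (LVF, for `K` and `K₀ ≤ K`; `NLex_E` from `R.nl R.i0`). `mem`, `ne`, `mem₀`: MEM (`cW = cWt 1`).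
`norm`: TOW. `S` = the prime divisors of `n₀ n₀' a p f` (`n₀` from SUC for `L = R.L R.i0` — `IsNE ⊤` by `R.b0`, `R.nl R.i0` —, `n₀'` from KOL for `R`, `a = aX p f`), `n₁ = 0`. `su`: SUC with `m = m_n`. `kol`: KOL (`HasH_E A B (K ⊔ Bn n)`: `RFE ⊤ ≤ K`) and `KolInP.mono` (`KDefsP.lean`): an automorphism which is trivial on `K` is trivial on
`RFE ⊤`. `nrm`: I1 with `m = m_n`, `b = p` (`b ∣ m`, `m_(n+1) = p m_n`: rewrite the level, e.g. generalise `θ` along the equality `lvX p f (n+1) = p * lvX p f n`, and `((p * m : ℕ) : O) = (p : O) * m`), `D = K ⊔ Bn n`, `D' = K ⊔ Bn (n + 1)`, `HasH_E A B D`; `orderOf σ = p`: the fixed field of `σ` is `K ⊔ Bn n`, and `[K ⊔ Bn (n+1) : K ⊔ Bn n] = p` by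
`hS.b.deg` (Artin: `IntermediateField.finrank_fixedField_eq_card` for the group generated by `σ`; see also `S_GENX`, `S_GALX` of `StKX.lean`). The constant `C ∈ RFE ⊤ ≤ K`. -/
def Sz_INW_E : Prop :=
  ∀ (p : ℕ) (A B : ℤ) (P : Ideal (OO A B)) (V : ValuationSubring ℂ) (f : ℕ)
    (_ : SetP p A B P V f) (_ : TorXE A B) (ι : Type) [Finite ι] (R : RepsE A B (p * f) ι)
    (H : ι → Finset ℂ)
    (θ : ∀ n : ℕ, (RFE (idl (A := A) (B := B) (lvX p f n)) : IntermediateField (kk A B) ℂ))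
    (_ : ThN_E p f R H θ)
    (K₀ K : IntermediateField ℚ ℂ) (Bn : ℕ → IntermediateField ℚ ℂ)
    [FiniteDimensional ℚ (kk A B)] [FiniteDimensional ℚ K] [∀ n, FiniteDimensional ℚ ↥(K ⊔ Bn n)]
    (_ : SetX p (kk A B) K₀ K Bn) (_ : ∀ y ∈ K, y ∈ RFE (idl (A := A) (B := B) (lvX p f 0)))
    (_ : ∀ y ∈ RFE (⊤ : Ideal (OO A B)), y ∈ K)
    (hk : ∀ n, kk A B ≤ K ⊔ Bn n) (hk₀ : ∀ n, kk A B ≤ K₀ ⊔ Bn n),
    ∃ S : Finset ℕ, InpW p (kk A B) K₀ K Bn hk hk₀ S (fun n => cW (hk n) (θ n))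
      (fun n => cW (hk₀ n) (θ n)) 0

end

end Pool.Agent.MUXZ


end

section

/-!
# MUX, last glue, module THN: half systems and the values `θ` (helper2)
-/

set_option autoImplicit false

namespace Pool.Agent.MUXZ

open _root_.MU3 _root_.Pool.Agent.MU3 _root_.Pool.Agent.MU3A _root_.Pool.Agent.MU3B _root_.Pool.Agent.RI _root_.Pool.Agent.RID
  _root_.Pool.Agent.MUX _root_.Pool.Agent.ME _root_.Pool.Agent.MUXK _root_.Pool.Agent.MUXJ _root_.Pool.Agent.MUXW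

noncomputable section

namespace THN

end THN

open _root_.Pool.Agent.MUXZ.THN _root_.Pool.Agent.MUXF.AlgX in
theorem tz_THN_E (hT : Sy_THG_E) : Sz_THN_E := by
  intro A B hC T n ι R a ha
  have hF : Pool.Agent.MUXF.CQ A B := ⟨hC.hB, hC.neg, hC.fund1, hC.fund0⟩
  have hdom := isDomain hF
  choose H hH using fun i => half (R.L i) ha
  refine ⟨H, hH, fun m hm hmu hcop => ?_⟩
  have hNL := R.nl R.i0
  have hom := hNL.om_ne
  have hmC : (m : ℂ) ≠ 0 := by exact_mod_cast hm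
  have ha0 : a ≠ 0 := by
    obtain ⟨k, hk⟩ := ha
    omega
  have embN : ∀ k : ℕ, emb ((k : ℕ) : OO A B) = k := by
    intro k
    have := _root_.Pool.Agent.MUXF.AlgX.emb_intCast hF (k : ℤ)
    simpa using this
  have emb1 : emb (1 : OO A B) = 1 := by
    have := _root_.Pool.Agent.MUXF.AlgX.emb_intCast hF 1
    simpa using this
  have hm0 : ((m : ℕ) : OO A B) ≠ 0 := by
    intro h
    have h1 := embN m
    rw [h, _root_.Pool.Agent.MUXF.AlgX.emb_zero hF] at h1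
    exact hmC h1.symm
  have hL1 : ∀ z : ℂ, z ∈ (R.L R.i0).lattice ↔ ∃ x : OO A B, z = R.om R.i0 * emb x := by
    intro z
    rw [hNL.mem, R.b0]
    simp
  have hpt : ptE R m R.i0 1 = R.om R.i0 / emb ((m : ℕ) : OO A B) := by
    unfold ptE
    have h1 : nI (⊤ : Ideal (OO A B)) = 1 := by
      unfold nI
      have : Subsingleton (OO A B ⧸ (⊤ : Ideal (OO A B))) := Ideal.Quotient.subsingleton_iff.2 rfl
      exact Nat.card_unique
    rw [R.b0, h1, emb1, embN]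
    push_cast
    ring
  set z : ℂ := R.om R.i0 / emb ((m : ℕ) : OO A B) with hz
  have hz' : z = R.om R.i0 / m := by rw [hz, embN]
  have h1 : emb ((m : ℕ) : OO A B) * z ∈ (R.L R.i0).lattice := by
    refine (hL1 _).2 ⟨1, ?_⟩
    rw [emb1, embN, hz']
    field_simp
  have h2 : z ∉ (R.L R.i0).lattice := by
    intro h
    obtain ⟨x, hx⟩ := (hL1 _).1 h
    apply hmu
    refine IsUnit.of_mul_eq_one x (_root_.Pool.Agent.MUXF.AlgX.emb_inj hF ?_)
    rw [_root_.Pool.Agent.MUXF.AlgX.emb_mul hF, embN, emb1]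
    rw [hz'] at hx
    field_simp at hx
    linear_combination -hx
  obtain ⟨-, -, hmem, -⟩ := hT A B hC T (R.b R.i0) (R.L R.i0) (R.om R.i0) hNL
    ((m : ℕ) : OO A B) hm0 (a : ℤ) (H R.i0) (by exact_mod_cast ha0)
    (by rw [Int.cast_natCast]; exact hH R.i0) z h1 h2
  refine ⟨⟨ThetaH (R.L R.i0) (H R.i0) z, hmem⟩, ?_, rfl, ?_⟩
  · rw [hpt]
  · intro h0
    have h3 : ThetaH (R.L R.i0) (H R.i0) z = 0 := congrArg Subtype.val h0
    rw [b_TNZ (R.L R.i0) (a : ℂ) (H R.i0) (fun w hw => nat_mul_mem _ hw a) (hH R.i0) z h2] at h3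
    obtain ⟨x, hx⟩ := (hL1 _).1 h3
    have h4 : ((a : ℕ) : OO A B) = ((m : ℕ) : OO A B) * x := by
      apply _root_.Pool.Agent.MUXF.AlgX.emb_inj hF
      rw [_root_.Pool.Agent.MUXF.AlgX.emb_mul hF, embN, embN]
      rw [hz'] at hx
      field_simp at hx
      linear_combination hx
    apply hmu
    obtain ⟨u, v, huv⟩ : IsCoprime ((a : ℕ) : ℤ) ((m : ℕ) : ℤ) := Nat.isCoprime_iff_coprime.2 hcop
    have h5 : ((u : ℤ) : OO A B) * ((a : ℕ) : OO A B) + ((v : ℤ) : OO A B) * ((m : ℕ) : OO A B) =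
        1 := by
      have := congrArg (fun k : ℤ => ((k : ℤ) : OO A B)) huv
      simpa using this
    refine IsUnit.of_mul_eq_one (((u : ℤ) : OO A B) * x + ((v : ℤ) : OO A B)) ?_
    rw [← h5, h4]
    ring

end

end Pool.Agent.MUXZ


end
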