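import Mathlib
import Pool.Agent.MVF.C027
import Pool.Agent.MVF.C049
import Pool.Agent.MVF.C068
import Pool.Agent.MVF.C080
import Pool.Agent.MVF.C111

/-! Parts: ME.X.W_NRM, MUX.W_CXS, ME.X.W_CXS, ME.X.W_THG, ME.X.W_ACM, MUX.W_FRD, MUX.Z_INP -/

namespace Pool.Agent.MUXW.Cxs
end Pool.Agent.MUXW.Cxs
namespace Pool.Agent.MUXW.NRMaux
end Pool.Agent.MUXW.NRMaux

section

/-!
# MUX, block W: the norm from `F_(b m)` to `F_m`, for `b ∣ m` (module NRM)
-/

set_option autoImplicit false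

open WeierstrassCurve Polynomial NumberField IsDedekindDomain

namespace Pool.Agent.MUXW

open _root_.MU3 _root_.Pool.Agent.MU3A _root_.Pool.Agent.MU3B _root_.Pool.Agent.MU3C _root_.Pool.Agent.RI _root_.Pool.Agent.RID
open _root_.Pool.Agent.MUX _root_.Pool.Agent.ME _root_.Pool.Agent.MUXU
open _root_.Pool.Agent.MU3V (cls Sub GD algDF)
open _root_.Pool.Agent.MUXV (GR InK tX CMO Ovr)

noncomputable section

namespace NRMaux

variable {A B : ℤ}

lemma xn_add_mem_E (L : PeriodPair) (z w : ℂ) (hw : w ∈ L.lattice) : xnE L (z + w) = xnE L z := by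
  unfold xnE
  have h := L.weierstrassP_add_coe z ⟨w, hw⟩
  rw [h]

/-- an automorphism which acts as `c ≡ 1` modulo `m` fixes `RFE (sp m)` -/
theorem fix_of_actH_E (hsub : ∀ x y : OO A B, emb (x - y) = emb x - emb y)
    (hone : emb (1 : OO A B) = 1) {m m' : OO A B}
    (hle : (RFE (sp m) : IntermediateField (kk A B) ℂ) ≤ RFE (sp m')) (hmm : m ∣ m')
    {σ : (RFE (sp m') : IntermediateField (kk A B) ℂ) ≃ₐ[kk A B] RFE (sp m')} {c : OO A B}
    (hσ : ActH_E σ m' c) (hc : m ∣ c - 1) (x : (RFE (sp m') : IntermediateField (kk A B) ℂ))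
    (hx : (x : ℂ) ∈ (RFE (sp m) : IntermediateField (kk A B) ℂ)) : σ x = x := by
  have key : ∀ (y : ℂ) (hy : y ∈ (RFE (sp m) : IntermediateField (kk A B) ℂ)),
      σ ⟨y, hle hy⟩ = ⟨y, hle hy⟩ := by
    intro y hy
    refine IntermediateField.adjoin_induction (F := kk A B)
      (p := fun y hy => σ ⟨y, hle hy⟩ = ⟨y, hle hy⟩) ?_ ?_ ?_ ?_ ?_ hy
    · rintro y ⟨b, L, om, hL, rfl | ⟨z, hz, hzL, rfl⟩⟩
      · apply Subtype.ext
        exact hσ.kapE b L om hL _
      · apply Subtype.ext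
        have hz' : emb m' * z ∈ L.lattice := hz _ (Ideal.mem_span_singleton.2 hmm)
        obtain ⟨-, h2⟩ := hσ.ptE b L om hL z hz' hzL
        rw [h2]
        have h3 : emb (c - 1) * z ∈ L.lattice := hz _ (Ideal.mem_span_singleton.2 hc)
        have h4 : emb c * z = z + emb (c - 1) * z := by
          rw [hsub, hone]
          ring
        rw [h4]
        exact xn_add_mem_E L _ _ h3
    · intro y
      exact σ.commutes y
    · intro y z hy hz h1 h2
      have h3 : (⟨y + z, hle (add_mem hy hz)⟩ :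
          (RFE (sp m') : IntermediateField (kk A B) ℂ)) = ⟨y, hle hy⟩ + ⟨z, hle hz⟩ := rfl
      rw [h3, map_add, h1, h2]
    · intro y hy h1
      have h3 : (⟨y⁻¹, hle (inv_mem hy)⟩ :
          (RFE (sp m') : IntermediateField (kk A B) ℂ)) = (⟨y, hle hy⟩ : _)⁻¹ := rfl
      rw [h3, map_inv₀, h1]
    · intro y z hy hz h1 h2
      have h3 : (⟨y * z, hle (mul_mem hy hz)⟩ :
          (RFE (sp m') : IntermediateField (kk A B) ℂ)) = ⟨y, hle hy⟩ * ⟨z, hle hz⟩ := rfl
      rw [h3, map_mul, h1, h2]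
  exact key x hx

lemma nl_mul_E (hmul : ∀ x y : OO A B, emb (x * y) = emb x * emb y) {b : Ideal (OO A B)}
    {L : PeriodPair} {om : ℂ} (hL : IsNE b L om) (y : OO A B) {z : ℂ} (hz : z ∈ L.lattice) :
    emb y * z ∈ L.lattice := by
  obtain ⟨x, hx, rfl⟩ := (hL.mem z).1 hz
  refine (hL.mem _).2 ⟨y * x, b.mul_mem_left _ hx, ?_⟩
  rw [hmul]
  ring

/-- an automorphism which fixes `RFE (sp m)` acts as `1` on the points of level `m` -/
theorem actH_one_E (hmul : ∀ x y : OO A B, emb (x * y) = emb x * emb y)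
    (hone : emb (1 : OO A B) = 1) {m m' : OO A B}
    (hle0 : (RFE (⊤ : Ideal (OO A B)) : IntermediateField (kk A B) ℂ) ≤ RFE (sp m))
    {σ : (RFE (sp m') : IntermediateField (kk A B) ℂ) ≃ₐ[kk A B] RFE (sp m')}
    (hσ : ∀ x : (RFE (sp m') : IntermediateField (kk A B) ℂ),
      (x : ℂ) ∈ (RFE (sp m) : IntermediateField (kk A B) ℂ) → σ x = x) : ActH_E σ m 1 := by
  refine ⟨isCoprime_one_left, ?_, ?_⟩
  · intro b L om hL h
    have h1 : kapE L ∈ (RFE (sp m) : IntermediateField (kk A B) ℂ) :=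
      hle0 (IntermediateField.subset_adjoin _ _ ⟨b, L, om, hL, Or.inl rfl⟩)
    rw [hσ ⟨kapE L, h⟩ h1]
  · intro b L om hL z hz hzL
    refine ⟨by rwa [hone, one_mul], ?_⟩
    intro h
    have h1 : xnE L z ∈ (RFE (sp m) : IntermediateField (kk A B) ℂ) := by
      refine IntermediateField.subset_adjoin _ _ ⟨b, L, om, hL, Or.inr ⟨z, ?_, hzL, rfl⟩⟩
      intro x hx
      obtain ⟨y, rfl⟩ := Ideal.mem_span_singleton.1 hx
      have h2 : emb (m * y) * z = emb y * (emb m * z) := by rw [hmul]; ring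
      rw [h2]
      exact nl_mul_E hmul hL y hz
    rw [hσ ⟨xnE L z, h⟩ h1, hone, one_mul]

end NRMaux

open _root_.Pool.Agent.MUXW.NRMaux in
theorem ty_NRM_E (hDIS : Sy_DIS_E) (hKER : Sy_KER_E) (hACM : Sy_ACM_E) (hTHG : Sy_THG_E)
    (hEMB : Pool.Agent.MUXV.Sq_EMB) : Sy_NRM_E := by
  intro A B hAB T L Om hL m b hm h2m hbm hm2 a H ha ham hH θ θ' hθ hθ'
  obtain ⟨hmul, hadd, hsub, hint, hnat, hinj, -, -, -, -, -, -, hdom⟩ :=
    hEMB A B ⟨hAB.hB, hAB.neg, hAB.fund1, hAB.fund0⟩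
  have hone : emb (1 : OO A B) = 1 := by simpa using hnat 1
  have hzero : emb (0 : OO A B) = 0 := by simpa using hnat 0
  have hb : b ≠ 0 := by
    rintro rfl
    exact hm (zero_dvd_iff.1 hbm)
  have hbm0 : b * m ≠ 0 := mul_ne_zero hb hm
  have hmbm : m ∣ b * m := Dvd.intro_left _ rfl
  have hem : emb m ≠ 0 := fun h => hm (hinj _ _ (h.trans hzero.symm))
  have heb : emb b ≠ 0 := fun h => hb (hinj _ _ (h.trans hzero.symm))
  have hembm : emb (b * m) ≠ 0 := fun h => hbm0 (hinj _ _ (h.trans hzero.symm))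
  have hmu : ¬ IsUnit m := fun h => hm2 (h.dvd)
  have hbmu : ¬ IsUnit (b * m) := fun h => hmu (isUnit_of_dvd_unit hmbm h)
  have hle : (RFE (sp m) : IntermediateField (kk A B) ℂ) ≤ RFE (sp (b * m)) :=
    T.mono _ _ (Ideal.span_singleton_le_span_singleton.2 hmbm)
  have hle0 : (RFE (⊤ : Ideal (OO A B)) : IntermediateField (kk A B) ℂ) ≤ RFE (sp m) :=
    T.mono _ _ le_top
  -- membership
  have hmem : ∀ (n x : OO A B), n ≠ 0 → (emb x * (Om / emb n) ∈ L.lattice ↔ n ∣ x) := by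
    intro n x hn
    have hen : emb n ≠ 0 := fun h => hn (hinj _ _ (h.trans hzero.symm))
    rw [hL.mem]
    constructor
    · rintro ⟨y, -, hy⟩
      refine ⟨y, hinj _ _ ?_⟩
      rw [hmul]
      have h1 : Om * emb x = Om * (emb n * emb y) := by
        field_simp at hy
        linear_combination hy
      exact mul_left_cancel₀ hL.om_ne h1
    · rintro ⟨y, rfl⟩
      refine ⟨y, trivial, ?_⟩
      rw [hmul]
      field_simp
  obtain ⟨k1, k2⟩ := hKER A B hAB T (b * m) hbm0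
  obtain ⟨m1, m2, -, -, -, -, -, -⟩ := hACM A B hAB L Om hL m hm
  obtain ⟨n1, n2, n3, -, n5, -, -, -⟩ := hACM A B hAB L Om hL (b * m) hbm0
  -- the automorphism of `t`
  have hex : ∀ t : OO A B, ∃ σ : (RFE (sp (b * m)) : IntermediateField (kk A B) ℂ) ≃ₐ[kk A B]
      RFE (sp (b * m)), ActH_E σ (b * m) (1 + m * t) := by
    intro t
    have h1 : IsCoprime (1 + m * t) m := ⟨1, -t, by ring⟩
    refine k2 _ ((IsCoprime.of_isCoprime_of_dvd_right h1 hbm).mul_right h1) (h2m.trans hmbm) ?_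
    have h3 : 1 + m * t - 1 = m * t := by ring
    rw [h3]
    exact h2m.mul_right t
  choose s hs using hex
  have hsfix : ∀ (t : OO A B) (x : (RFE (sp (b * m)) : IntermediateField (kk A B) ℂ)),
      (x : ℂ) ∈ (RFE (sp m) : IntermediateField (kk A B) ℂ) → s t x = x := fun t =>
    fix_of_actH_E hsub hone hle hmbm (hs t) ⟨t, by ring⟩
  let e : OO A B ⧸ Ideal.span {b} →
      {σ : (RFE (sp (b * m)) : IntermediateField (kk A B) ℂ) ≃ₐ[kk A B] RFE (sp (b * m)) //
        ∀ x : (RFE (sp (b * m)) : IntermediateField (kk A B) ℂ),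
          (x : ℂ) ∈ (RFE (sp m) : IntermediateField (kk A B) ℂ) → σ x = x} :=
    fun t => ⟨s (Quotient.out t), hsfix _⟩
  have hout : ∀ t : OO A B ⧸ Ideal.span {b}, Ideal.Quotient.mk (Ideal.span {b}) (Quotient.out t) = t :=
    fun t => Ideal.Quotient.mk_out t
  have hinje : Function.Injective e := by
    intro t t' htt
    have h1 : s (Quotient.out t) = s (Quotient.out t') := congrArg Subtype.val htt
    have h2 : ActH_E (s (Quotient.out t)) (b * m) (1 + m * Quotient.out t') := by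
      rw [h1]
      exact hs _
    rw [← hout t, ← hout t', Ideal.Quotient.eq, Ideal.mem_span_singleton]
    rcases n1 _ _ _ _ le_rfl (hs (Quotient.out t)) h2 with ⟨c, hc⟩ | h3
    · refine ⟨c, mul_left_cancel₀ hm ?_⟩
      linear_combination hc
    · exfalso
      apply hm2
      have h4 : m ∣ 1 + m * Quotient.out t + (1 + m * Quotient.out t') := hmbm.trans h3
      have h5 : m ∣ m * (Quotient.out t + Quotient.out t') := Dvd.intro _ rfl
      have h6 := dvd_sub h4 h5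
      have h7 : 1 + m * Quotient.out t + (1 + m * Quotient.out t') -
          m * (Quotient.out t + Quotient.out t') = (2 : OO A B) := by ring
      rwa [h7] at h6
  have hsurj : Function.Surjective e := by
    rintro ⟨σ, hσ⟩
    obtain ⟨c, hc⟩ := k1 σ (fun x hx => hσ x (hle0 hx))
    have h1 : ActH_E σ m 1 := actH_one_E hmul hone hle0 hσ
    have h2 : ActH_E σ m c := n3 _ _ _ _ hmbm hc
    obtain ⟨c', hc', hc1⟩ : ∃ c', ActH_E σ (b * m) c' ∧ m ∣ c' - 1 := by
      rcases m1 _ _ _ _ hle h2 h1 with h3 | h3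
      · exact ⟨c, hc, h3⟩
      · refine ⟨-c, n2 _ _ _ _ (Or.inr (by simp)) hc, ?_⟩
        have h4 : -c - 1 = -(c + 1) := by ring
        rw [h4]
        exact (dvd_neg).2 h3
    obtain ⟨t, ht⟩ := hc1
    refine ⟨Ideal.Quotient.mk _ t, Subtype.ext ?_⟩
    obtain ⟨r, hr⟩ : b ∣ Quotient.out (Ideal.Quotient.mk (Ideal.span {b}) t) - t := by
      rw [← Ideal.mem_span_singleton, ← Ideal.Quotient.eq]
      exact hout _
    refine n5 _ _ c' (n2 _ _ _ _ (Or.inl ?_) (hs _)) hc'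
    refine ⟨r, ?_⟩
    linear_combination m * hr - ht
  obtain ⟨C, hC1, hC0, hC⟩ := hDIS A B hAB T L Om hL b hb a H ha
    (IsCoprime.of_isCoprime_of_dvd_right ham hbm) hH
  refine ⟨C, hC1, hC0, ?_⟩
  have hz1 : emb (b * m) * (Om / emb (b * m)) ∈ L.lattice := (hmem _ _ hbm0).2 dvd_rfl
  have hz2 : Om / emb (b * m) ∉ L.lattice := by
    intro h
    have h1 : emb (1 : OO A B) * (Om / emb (b * m)) ∈ L.lattice := by rwa [hone, one_mul]
    exact hbmu (isUnit_of_dvd_one ((hmem _ _ hbm0).1 h1))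
  obtain ⟨-, -, hz, -, hact⟩ := hTHG A B hAB T ⊤ L Om hL (b * m) hbm0 a H ha hH _ hz1 hz2
  have hθe : θ' = ⟨_, hz⟩ := Subtype.ext hθ'
  have hz3 : emb b * a * (Om / emb (b * m)) ∉ L.lattice := by
    have h1 : emb b * a * (Om / emb (b * m)) = emb (a : OO A B) * (Om / emb m) := by
      rw [hint, hmul]
      field_simp
    rw [h1, hmem _ _ hm]
    intro h2
    exact hmu (ham.symm.isUnit_of_dvd' dvd_rfl h2)
  have hCz := hC _ hz3
  have h9 : emb b * (Om / emb (b * m)) = Om / emb m := by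
    rw [hmul]
    field_simp
  rw [h9, ← hθ] at hCz
  rw [← hCz]
  symm
  refine finprod_eq_of_bijective e ⟨hinje, hsurj⟩ fun t => ?_
  rw [hθe]
  change _ = ((s (Quotient.out t) ⟨_, hz⟩ :
    (RFE (sp (b * m)) : IntermediateField (kk A B) ℂ)) : ℂ)
  rw [hact _ _ (hs (Quotient.out t))]
  congr 1
  rw [hadd, hone, hmul, hmul]
  field_simp

end

end Pool.Agent.MUXW


end

section

/-!
# MUX, block W, module CXS (helper1): half systems of `XX`
-/

set_option autoImplicit false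

open WeierstrassCurve Polynomial NumberField IsDedekindDomain

namespace Pool.Agent.MUXW

open _root_.MU3 _root_.Pool.Agent.MU3A _root_.Pool.Agent.MU3B _root_.Pool.Agent.MU3C _root_.Pool.Agent.RI _root_.Pool.Agent.RID
open _root_.Pool.Agent.MUX _root_.Pool.Agent.MUXU
open _root_.Pool.Agent.MU3V (cls Sub GD algDF)
open _root_.Pool.Agent.MUXV (GR InK tX CMO Ovr Sq_EMB)

noncomputable section

namespace Cxs

variable {A B : ℤ}

lemma toCQ (h : CQ A B) : MUXF.CQ A B := ⟨h.hB, h.neg, h.fund1, h.fund0⟩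

lemma fixk {σ : ℂ ≃+* ℂ} (hσ : FixK A B σ) : ∀ y ∈ kk A B, σ y = y := by
  intro y hy
  induction hy using IntermediateField.adjoin_induction with
  | mem x hx => rw [Set.mem_singleton_iff] at hx; rw [hx]; exact hσ
  | algebraMap x => simp
  | add x y _ _ hx hy => rw [map_add, hx, hy]
  | inv x _ hx => rw [map_inv₀, hx]
  | mul x y _ _ hx hy => rw [map_mul, hx, hy]

lemma cast_ne {m : ℕ} (hm : m ≠ 0) : ((m : ℕ) : OO A B) ≠ 0 := by
  intro h
  have := congrArg QuadraticAlgebra.re h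
  rw [QuadraticAlgebra.re_natCast, QuadraticAlgebra.re_zero] at this
  exact hm (by exact_mod_cast this)

lemma idl_ne {m : ℕ} (hm : m ≠ 0) : idl (A := A) (B := B) m ≠ ⊥ := by
  rw [Ne, Ideal.span_singleton_eq_bot]
  exact cast_ne hm

/-- normalised lattices with the same `kap` are equal -/
lemma lat_eq {L L' : PeriodPair} (h : L.g₂ = -18 * L.g₃) (h' : L'.g₂ = -18 * L'.g₃)
    (hk : kap L' = kap L) : L'.lattice = L.lattice := by
  have e2 : L'.g₂ = L.g₂ := by
    unfold kap at hk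
    linear_combination 144 * hk
  have e3 : L'.g₃ = L.g₃ := by linear_combination (1 / 18) * h' - (1 / 18) * h - (1 / 18) * e2
  exact u_DET L' L e2 e3

lemma wp_eq {L L' : PeriodPair} (h : L'.lattice = L.lattice) (z : ℂ) :
    L'.weierstrassP z = L.weierstrassP z := by
  have := (Pool.Agent.MU3A.ta_SCP L L' 1 one_ne_zero (fun u => by rw [one_mul, h])).1 z
  simpa using this

/-- automorphisms of `RF I / k` extend to `ℂ` -/
lemma extend (T : TorX A B) (I : Ideal (OO A B)) (hI : I ≠ ⊥)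
    (σ : (RF I : IntermediateField (kk A B) ℂ) ≃ₐ[kk A B] RF I) :
    ∃ s : ℂ ≃+* ℂ, FixK A B s ∧
      ∀ y : (RF I : IntermediateField (kk A B) ℂ), s (y : ℂ) = ((σ y : RF I) : ℂ) := by
  have h' : kk A B ≤ (RF I).restrictScalars ℚ := fun x hx => (RF I).algebraMap_mem ⟨x, hx⟩
  let τ : letI := algC h'; (RF I).restrictScalars ℚ ≃ₐ[kk A B] (RF I).restrictScalars ℚ :=
    letI := algC h'
    AlgEquiv.ofRingEquiv (f := (σ : RF I ≃+* RF I)) (fun r => σ.commutes r)
  obtain ⟨s, hs, hs1⟩ := T.ext I hI ((RF I).restrictScalars ℚ) h' (fun y hy => hy) τ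
  exact ⟨s, hs, fun y => hs1 y⟩

/-- an ideal `a` with `mu L = a L`, `L = om O`, is principal, `mu = emb c`, `a = (c)` -/
lemma princ (hq : CQ A B) (L : PeriodPair) (om : ℂ) (hL : IsNL (⊤ : Ideal (OO A B)) L om)
    (a : Ideal (OO A B)) (ha : a ≠ ⊥) (mu : ℂ) (hmu : mu ≠ 0)
    (hisq : ∀ z : ℂ, mu * z ∈ L.lattice ↔ ∀ x ∈ a, emb x * z ∈ L.lattice) :
    ∃ c : OO A B, mu = emb c ∧ a = sp c := by
  obtain ⟨eM, -, -, -, eN, eI, -, -, -, -, -, -, -⟩ := Pool.Agent.MUXV.tq_EMB A B (toCQ hq)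
  have hom : om ≠ 0 := hL.om_ne
  have hmem : ∀ w : ℂ, w ∈ L.lattice ↔ ∃ y : OO A B, w = om * emb y := by
    intro w
    rw [hL.mem]
    constructor
    · rintro ⟨y, -, hy⟩
      exact ⟨y, hy⟩
    · rintro ⟨y, hy⟩
      exact ⟨y, Submodule.mem_top, hy⟩
  have e1 : emb (1 : OO A B) = 1 := by
    have := eN 1
    rwa [Nat.cast_one, Nat.cast_one] at this
  obtain ⟨c, hc⟩ : ∃ c : OO A B, mu = emb c := by
    have h3 : mu * om ∈ L.lattice :=
      (hisq om).2 (fun x _ => (hmem _).2 ⟨x, mul_comm _ _⟩)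
    obtain ⟨c, hc⟩ := (hmem _).1 h3
    exact ⟨c, mul_left_cancel₀ hom (by rw [← hc]; ring)⟩
  have hc0 : emb c ≠ 0 := by rw [← hc]; exact hmu
  have hq' := toCQ hq
  obtain ⟨-, -, hcj, hcan⟩ := MUXF.tx_NIM MUXF.tx_ALG (MUXF.tx_IDL MUXF.tx_ALG) A B hq'
  obtain ⟨hn0, hnn⟩ := MUXF.tx_IDL MUXF.tx_ALG A B hq' a ha
  refine ⟨c, hc, le_antisymm ?_ ?_⟩
  · intro x hx
    have h3 := (hisq (om / mu)).1 (by
      rw [mul_div_cancel₀ om hmu]
      exact (hmem _).2 ⟨1, by rw [e1, mul_one]⟩) x hx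
    obtain ⟨y, hy⟩ := (hmem _).1 h3
    rw [Ideal.mem_span_singleton']
    refine ⟨y, eI _ _ ?_⟩
    rw [eM]
    rw [hc] at hy
    field_simp at hy
    first | exact hy.symm | (rw [mul_comm] at hy; exact hy.symm)
  · have hcb : MUXF.cjI a ≠ ⊥ := (hcj a ha).2.2.1
    refine (hcan (MUXF.cjI a) (sp c) a hcb).1 ?_
    rw [Ideal.mul_le]
    intro y hy r hr
    obtain ⟨u, rfl⟩ := Ideal.mem_span_singleton'.1 hr
    have h4 : c * y ∈ a * MUXF.cjI a := by
      rw [hnn]
      have hn0' : ((MUXF.nI a : ℕ) : ℂ) ≠ 0 := by exact_mod_cast hn0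
      have h5 : mu * (om * emb y / (MUXF.nI a : ℕ)) ∈ L.lattice := by
        rw [hisq]
        intro x hx
        have h6 : x * y ∈ a * MUXF.cjI a := Ideal.mul_mem_mul hx hy
        rw [hnn] at h6
        obtain ⟨v, hv⟩ := Ideal.mem_span_singleton.1 h6
        have h7 := congrArg emb hv
        rw [eM, eM, eN] at h7
        refine (hmem _).2 ⟨v, ?_⟩
        field_simp
        linear_combination h7
      obtain ⟨v, hv⟩ := (hmem _).1 h5
      refine Ideal.mem_span_singleton.2 ⟨v, eI _ _ ?_⟩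
      rw [eM, eM, eN]
      rw [hc] at hv
      field_simp at hv
      apply mul_left_cancel₀ hom
      linear_combination om * hv
    have e : y * (u * c) = u * (c * y) := by ring
    rw [e, mul_comm (MUXF.cjI a) a]
    exact Ideal.mul_mem_left _ _ h4

/-- the base point -/
lemma base (hq : CQ A B) {n : ℕ} {ι : Type} (R : Reps A B n ι) (m : ℕ) (hm : m ≠ 0)
    (y : OO A B) : emb y * Pool.Agent.MUX.pt R m R.i0 1 ∈ (R.L R.i0).lattice ↔
      ((m : ℕ) : OO A B) ∣ y := by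
  obtain ⟨eM, -, -, -, eN, eI, -, -, -, -, -, -, -⟩ := Pool.Agent.MUXV.tq_EMB A B (toCQ hq)
  have hom : R.om R.i0 ≠ 0 := (R.nl R.i0).om_ne
  have hm' : (m : ℂ) ≠ 0 := by exact_mod_cast hm
  have e1 : emb (1 : OO A B) = 1 := by
    have := eN 1
    rwa [Nat.cast_one, Nat.cast_one] at this
  have en : nI (R.b R.i0) = 1 := by
    rw [R.b0]
    unfold nI
    exact Nat.card_unique
  rw [(R.nl R.i0).mem, R.b0]
  unfold Pool.Agent.MUX.pt
  rw [e1, en]
  constructor
  · rintro ⟨v, -, hv⟩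
    refine ⟨v, eI _ _ ?_⟩
    rw [eM, eN]
    field_simp at hv
    apply mul_left_cancel₀ hom
    linear_combination (R.om R.i0) * hv
  · rintro ⟨v, rfl⟩
    refine ⟨v, Submodule.mem_top, ?_⟩
    rw [eM, eN]
    field_simp
    push_cast
    ring

/-- two automorphisms of `ℂ / k` which hit the same pair agree on `RF m` -/
theorem key (hq : CQ A B) (T : TorX A B) {n : ℕ} {ι : Type} (R : Reps A B n ι) (m : ℕ)
    (hm : m ≠ 0) (h2 : ¬ ((m : ℕ) : OO A B) ∣ 2) (s s' : ℂ ≃+* ℂ) (hs : FixK A B s)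
    (hs' : FixK A B s') (i : ι) (x : OO A B) (hh : Hits R m s i x) (hh' : Hits R m s' i x) :
    ∀ z ∈ (RF (idl m) : IntermediateField (kk A B) ℂ), s z = s' z := by
  have hbot := idl_ne (A := A) (B := B) hm
  obtain ⟨eM, eA, eS, -, eN, eI, -, -, -, -, -, -, -⟩ := Pool.Agent.MUXV.tq_EMB A B (toCQ hq)
  have ht : ∀ y, (s.trans s'.symm) y = s'.symm (s y) := fun y => rfl
  have hk : (s.trans s'.symm) (kap (R.L R.i0)) = kap (R.L R.i0) := by
    rw [ht, ← hh.1, hh'.1, RingEquiv.symm_apply_apply]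
  have hx : (s.trans s'.symm) (xn (R.L R.i0) (Pool.Agent.MUX.pt R m R.i0 1)) =
      xn (R.L R.i0) (Pool.Agent.MUX.pt R m R.i0 1) := by
    rw [ht, hh.2.1, ← hh'.2.1, RingEquiv.symm_apply_apply]
  have hw : FixK A B (s.trans s'.symm) := by
    unfold FixK at hs hs' ⊢
    rw [ht, hs, RingEquiv.symm_apply_eq, hs']
  obtain ⟨a, hcop, hact⟩ := T.act (idl m) hbot (s.trans s'.symm) hw
  obtain ⟨b', L', om', mu, hL', hI⟩ := hact (R.b R.i0) (R.L R.i0) (R.om R.i0) (R.nl R.i0)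
  have hlat : L'.lattice = (R.L R.i0).lattice :=
    lat_eq (R.nl R.i0).nrm hL'.nrm (by rw [hI.kap, hk])
  obtain ⟨hmu, hisq⟩ := hI.isq
  have ha : a ≠ ⊥ := by
    rintro rfl
    have h3 : ((⊥ : Ideal (OO A B)) ⊔ idl m) = ⊤ := Ideal.isCoprime_iff_sup_eq.1 hcop
    rw [bot_sup_eq] at h3
    have h4 : (1 : OO A B) ∈ idl (A := A) (B := B) m := by rw [h3]; trivial
    exact h2 ((Ideal.mem_span_singleton.1 h4).trans (one_dvd _))
  have hL0 : IsNL (⊤ : Ideal (OO A B)) (R.L R.i0) (R.om R.i0) := by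
    have := R.nl R.i0
    rwa [R.b0] at this
  obtain ⟨c, hc, hac⟩ := princ hq (R.L R.i0) (R.om R.i0) hL0 a ha mu hmu
    (fun z => by have := hisq z; rwa [hlat] at this)
  have hz : Pool.Agent.MUX.pt R m R.i0 1 ∉ (R.L R.i0).lattice := by
    intro h0
    have h3 := (base hq R m hm 1).1 (by
      have e1 : emb (1 : OO A B) = 1 := by
        have := eN 1
        rwa [Nat.cast_one, Nat.cast_one] at this
      rw [e1, one_mul]
      exact h0)
    exact h2 (h3.trans (one_dvd _))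
  have hTz : Tor (idl (A := A) (B := B) m) (R.L R.i0) (Pool.Agent.MUX.pt R m R.i0 1) := by
    intro y hy
    rw [base hq R m hm]
    exact Ideal.mem_span_singleton.1 hy
  have hex : ∃ c : OO A B, c - 1 ∈ idl (A := A) (B := B) m ∧ a = sp c := by
    rcases hI.act _ hTz with ⟨h0, -⟩ | ⟨-, hmz, hxz, -⟩
    · exact absurd h0 hz
    · rw [hx] at hxz
      rw [hlat] at hmz
      have e : (R.L R.i0).weierstrassP (mu * Pool.Agent.MUX.pt R m R.i0 1) =
          (R.L R.i0).weierstrassP (Pool.Agent.MUX.pt R m R.i0 1) := by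
        unfold xn at hxz
        rw [wp_eq hlat] at hxz
        linear_combination -hxz
      rcases b_NEQ _ _ _ hz hmz e with h3 | h3
      · refine ⟨c, ?_, hac⟩
        rw [Ideal.mem_span_singleton, ← base hq R m hm, eS]
        have e1 : emb (1 : OO A B) = 1 := by
          have := eN 1
          rwa [Nat.cast_one, Nat.cast_one] at this
        rw [e1, ← hc, sub_mul, one_mul]
        exact h3
      · refine ⟨-c, ?_, ?_⟩
        · have e2 : -c - 1 = -(c + 1) := by ring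
          rw [e2, neg_mem_iff, Ideal.mem_span_singleton, ← base hq R m hm, eA]
          have e1 : emb (1 : OO A B) = 1 := by
            have := eN 1
            rwa [Nat.cast_one, Nat.cast_one] at this
          rw [e1, ← hc, add_mul, one_mul]
          exact h3
        · rw [hac]
          exact (Ideal.span_singleton_neg c).symm
  have htr := (T.triv (idl m) a (s.trans s'.symm) (R.b R.i0) (R.L R.i0) L' (R.om R.i0) mu hbot
    hw (R.nl R.i0) hI hL'.nrm).2 hex
  intro z hz'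
  have := htr z hz'
  rw [ht, RingEquiv.symm_apply_eq] at this
  exact this

lemma out_dvd {m : ℕ} (q : OO A B ⧸ idl (A := A) (B := B) m) (y : OO A B)
    (h : q = Ideal.Quotient.mk (idl m) y) : ((m : ℕ) : OO A B) ∣ Quotient.out q - y := by
  apply Ideal.mem_span_singleton.1
  apply Ideal.Quotient.eq.1
  rw [Ideal.Quotient.mk_out, h]

lemma mk_eq {m : ℕ} {y z : OO A B} (h : ((m : ℕ) : OO A B) ∣ y - z) :
    Ideal.Quotient.mk (idl (A := A) (B := B) m) y = Ideal.Quotient.mk (idl m) z :=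
  Ideal.Quotient.eq.2 (Ideal.mem_span_singleton.2 h)

lemma cop_of {m y z : OO A B} (h : IsCoprime z m) (hd : m ∣ y - z) : IsCoprime y m := by
  obtain ⟨k, hk⟩ := hd
  have e : y = z + m * k := by rw [← hk]; ring
  rw [e]
  exact h.add_mul_left_left k

end Cxs

open _root_.Pool.Agent.MUXW.Cxs in
theorem ty_CXS (h1 : Sy_HIT) (h2 : Sy_THG) : Sy_CXS := by
  classical
  intro A B hq T n ι R m hm hcop hm2 a H ha hac hH θ hθ D h hD
  letI := algC h
  intro τ
  have hbot := idl_ne (A := A) (B := B) hm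
  haveI := T.fin _ hbot
  haveI := T.gal _ hbot
  obtain ⟨eM, -, -, -, eN, eI, -, -, -, -, -, -, -⟩ := Pool.Agent.MUXV.tq_EMB A B (toCQ hq)
  have e1 : emb (1 : OO A B) = 1 := by
    have := eN 1
    rwa [Nat.cast_one, Nat.cast_one] at this
  -- the base point
  have hz : Pool.Agent.MUX.pt R m R.i0 1 ∉ (R.L R.i0).lattice := by
    intro h0
    have h3 := (base hq R m hm 1).1 (by rw [e1, one_mul]; exact h0)
    exact hm2 (h3.trans (one_dvd _))
  have hz1 : emb ((m : ℕ) : OO A B) * Pool.Agent.MUX.pt R m R.i0 1 ∈ (R.L R.i0).lattice :=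
    (base hq R m hm _).2 (dvd_refl _)
  obtain ⟨hk, hx, hth, hσ, -⟩ := h2 A B hq T (R.b R.i0) (R.L R.i0) (R.om R.i0) (R.nl R.i0)
    ((m : ℕ) : OO A B) (cast_ne hm) (a : ℤ) (H R.i0) (by exact_mod_cast ha) (hH R.i0)
    (Pool.Agent.MUX.pt R m R.i0 1) hz1 hz
  have hθ' : θ = ⟨_, hth⟩ := Subtype.ext hθ
  -- the automorphisms
  haveI : Finite {σ : (RF (idl m) : IntermediateField (kk A B) ℂ) ≃ₐ[kk A B] RF (idl m) //
    Ext1 h τ σ} := Subtype.finite
  letI : Fintype {σ : (RF (idl m) : IntermediateField (kk A B) ℂ) ≃ₐ[kk A B] RF (idl m) //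
    Ext1 h τ σ} := Fintype.ofFinite _
  choose s hs hsσ using fun σ : {σ : (RF (idl m) : IntermediateField (kk A B) ℂ) ≃ₐ[kk A B]
    RF (idl m) // Ext1 h τ σ} => extend T _ hbot σ.1
  choose i x hxc hit hx2 hiff using fun σ => h1 A B hq T n ι R m hm hcop hm2 (s σ) (hs σ)
  have hext : ∀ g, ExtC h τ (s g) := by
    intro g y
    have e := g.2 y (hD y y.2)
    rw [← e]
    exact hsσ g ⟨y, hD y y.2⟩
  have hinj : ∀ g g', (∃ j y, Hits R m (s g) j y ∧ Hits R m (s g') j y) → g = g' := by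
    rintro g g' ⟨j, y, h3, h4⟩
    have h5 := key hq T R m hm hm2 (s g) (s g') (hs g) (hs g') j y h3 h4
    apply Subtype.ext
    apply AlgEquiv.ext
    intro w
    apply Subtype.ext
    rw [← hsσ g w, ← hsσ g' w]
    exact h5 w w.2
  let q : {σ : (RF (idl m) : IntermediateField (kk A B) ℂ) ≃ₐ[kk A B] RF (idl m) //
    Ext1 h τ σ} → ι × (OO A B ⧸ idl (A := A) (B := B) m) :=
    fun g => (i g, Ideal.Quotient.mk (idl m) (x g))
  have hqinj : Function.Injective q := by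
    intro g g' hgg
    have h3 : i g = i g' := congrArg Prod.fst hgg
    have h4 : Ideal.Quotient.mk (idl (A := A) (B := B) m) (x g) =
      Ideal.Quotient.mk (idl m) (x g') := congrArg Prod.snd hgg
    refine hinj g g' ⟨i g, x g, hit g, (hiff g' _ _).2 ⟨h3, Or.inl ?_⟩⟩
    exact Ideal.mem_span_singleton.1 (Ideal.Quotient.eq.1 h4)
  refine ⟨Finset.univ.image q, ?_, ?_, ?_⟩
  · intro p
    constructor
    · rintro ⟨hc, s', hs', he', hh'⟩
      let s'' : ℂ ≃ₐ[kk A B] ℂ := AlgEquiv.ofRingEquiv (f := s') (fun r => fixk hs' _ r.2)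
      have e2 : ∀ y : (RF (idl m) : IntermediateField (kk A B) ℂ),
          ((s''.restrictNormal (RF (idl m)) y : (RF (idl m) : IntermediateField (kk A B) ℂ)) : ℂ)
            = s' y := fun y => AlgEquiv.restrictNormal_commutes s'' (RF (idl m)) y
      let g : {σ : (RF (idl m) : IntermediateField (kk A B) ℂ) ≃ₐ[kk A B] RF (idl m) //
          Ext1 h τ σ} := ⟨s''.restrictNormal (RF (idl m)), fun y hy => by
        rw [e2]
        exact he' y⟩
      have e3 : ∀ y : (RF (idl m) : IntermediateField (kk A B) ℂ), s g y = s' y := by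
        intro y
        rw [hsσ g y]
        exact e2 y
      have e4 : Hits R m (s g) p.1 (Quotient.out p.2) := by
        refine ⟨?_, ?_, hh'.2.2⟩
        · rw [hh'.1]
          exact (e3 ⟨_, hk⟩).symm
        · rw [← hh'.2.1]
          exact e3 ⟨_, hx⟩
      obtain ⟨e5, e6 | e6⟩ := (hiff g _ _).1 e4
      · left
        rw [Finset.mem_image]
        refine ⟨g, Finset.mem_univ _, Prod.ext e5.symm ?_⟩
        show Ideal.Quotient.mk (idl m) (x g) = p.2
        rw [← Ideal.Quotient.mk_out p.2]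
        exact (mk_eq e6).symm
      · right
        rw [Finset.mem_image]
        refine ⟨g, Finset.mem_univ _, Prod.ext e5.symm ?_⟩
        show Ideal.Quotient.mk (idl m) (x g) = -p.2
        rw [← Ideal.Quotient.mk_out p.2, ← map_neg]
        apply mk_eq
        have e : x g - -Quotient.out p.2 = Quotient.out p.2 + x g := by ring
        rw [e]
        exact e6
    · rintro (h3 | h3)
      · obtain ⟨g, -, hg⟩ := Finset.mem_image.1 h3
        have h4 : i g = p.1 := congrArg Prod.fst hg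
        have h5 : Ideal.Quotient.mk (idl m) (x g) = p.2 := congrArg Prod.snd hg
        have h6 := out_dvd p.2 (x g) h5.symm
        exact ⟨cop_of (hxc g) h6, s g, hs g, hext g, (hiff g _ _).2 ⟨h4.symm, Or.inl h6⟩⟩
      · obtain ⟨g, -, hg⟩ := Finset.mem_image.1 h3
        have h4 : i g = p.1 := congrArg Prod.fst hg
        have h5 : Ideal.Quotient.mk (idl m) (x g) = -p.2 := congrArg Prod.snd hg
        have h6 := out_dvd p.2 (-x g) (by rw [map_neg, h5, neg_neg])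
        refine ⟨cop_of (hxc g).neg_left h6, s g, hs g, hext g,
          (hiff g _ _).2 ⟨h4.symm, Or.inr ?_⟩⟩
        rwa [sub_neg_eq_add] at h6
  · intro p hp hp'
    obtain ⟨g, -, hg⟩ := Finset.mem_image.1 hp
    obtain ⟨g', -, hg'⟩ := Finset.mem_image.1 hp'
    have h4 : i g = p.1 := congrArg Prod.fst hg
    have h5 : Ideal.Quotient.mk (idl m) (x g) = p.2 := congrArg Prod.snd hg
    have h4' : i g' = p.1 := congrArg Prod.fst hg'
    have h5' : Ideal.Quotient.mk (idl m) (x g') = -p.2 := congrArg Prod.snd hg'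
    have h6 : ((m : ℕ) : OO A B) ∣ x g' + x g := by
      apply Ideal.mem_span_singleton.1
      apply Ideal.Quotient.eq_zero_iff_mem.1
      rw [map_add, h5, h5', neg_add_cancel]
    have h7 : g = g' := hinj g g' ⟨i g', x g', (hiff g _ _).2 ⟨by rw [h4, h4'], Or.inr h6⟩,
      hit g'⟩
    rw [← h7] at h6
    exact hx2 g (by rw [two_mul]; exact h6)
  · rw [cWt, finprod_eq_prod_of_fintype, Finset.prod_image hqinj.injOn]
    refine Finset.prod_congr rfl fun g _ => ?_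
    have h3 : Hits R m (s g) (i g) (Quotient.out (Ideal.Quotient.mk (idl m) (x g))) :=
      (hiff g _ _).2 ⟨rfl, Or.inl (out_dvd _ _ rfl)⟩
    rw [hθ']
    refine hσ g.1 (R.b (i g)) (R.L (i g)) (R.om (i g)) (H (i g))
      (Pool.Agent.MUX.pt R m (i g) (Quotient.out (Ideal.Quotient.mk (idl m) (x g))))
      (R.nl _) (hH _) h3.2.2 ?_ ?_
    · rw [h3.1]
      exact (hsσ g ⟨_, hk⟩).symm
    · rw [← h3.2.1]
      exact (hsσ g ⟨_, hx⟩).symm

end

end Pool.Agent.MUXW


end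

section

/-!
# MUX, block W, module CXS (helper1): half systems of `XX`
-/

set_option autoImplicit false

open WeierstrassCurve Polynomial NumberField IsDedekindDomain

namespace Pool.Agent.MUXW

open _root_.MU3 _root_.Pool.Agent.MU3A _root_.Pool.Agent.MU3B _root_.Pool.Agent.MU3C _root_.Pool.Agent.RI _root_.Pool.Agent.RID
open _root_.Pool.Agent.MUX _root_.Pool.Agent.ME _root_.Pool.Agent.MUXU
open _root_.Pool.Agent.MU3V (cls Sub GD algDF)
open _root_.Pool.Agent.MUXV (GR InK tX CMO Ovr Sq_EMB)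

noncomputable section

namespace Cxs

variable {A B : ℤ}

/-- normalised lattices with the same `kapE` are equal -/
lemma lat_eq_E {L L' : PeriodPair} (h : NrmE A B L) (h' : NrmE A B L')
    (hk : kapE L' = kapE L) : L'.lattice = L.lattice := by
  exact h'.lat_eq h

/-- automorphisms of `RFE I / k` extend_E to `ℂ` -/
lemma extend_E (T : TorXE A B) (I : Ideal (OO A B)) (hI : I ≠ ⊥)
    (σ : (RFE I : IntermediateField (kk A B) ℂ) ≃ₐ[kk A B] RFE I) :
    ∃ s : ℂ ≃+* ℂ, FixK A B s ∧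
      ∀ y : (RFE I : IntermediateField (kk A B) ℂ), s (y : ℂ) = ((σ y : RFE I) : ℂ) := by
  have h' : kk A B ≤ (RFE I).restrictScalars ℚ := fun x hx => (RFE I).algebraMap_mem ⟨x, hx⟩
  let τ : letI := algC h'; (RFE I).restrictScalars ℚ ≃ₐ[kk A B] (RFE I).restrictScalars ℚ :=
    letI := algC h'
    AlgEquiv.ofRingEquiv (f := (σ : RFE I ≃+* RFE I)) (fun r => σ.commutes r)
  obtain ⟨s, hs, hs1⟩ := T.ext I hI ((RFE I).restrictScalars ℚ) h' (fun y hy => hy) τ
  exact ⟨s, hs, fun y => hs1 y⟩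

/-- an ideal `a` with `mu L = a L`, `L = om O`, is principal, `mu = emb c`, `a = (c)` -/
lemma princ_E (hq : CQ A B) (L : PeriodPair) (om : ℂ) (hL : IsNE (⊤ : Ideal (OO A B)) L om)
    (a : Ideal (OO A B)) (ha : a ≠ ⊥) (mu : ℂ) (hmu : mu ≠ 0)
    (hisq : ∀ z : ℂ, mu * z ∈ L.lattice ↔ ∀ x ∈ a, emb x * z ∈ L.lattice) :
    ∃ c : OO A B, mu = emb c ∧ a = sp c := by
  obtain ⟨eM, -, -, -, eN, eI, -, -, -, -, -, -, -⟩ := Pool.Agent.MUXV.tq_EMB A B (toCQ hq)
  have hom : om ≠ 0 := hL.om_ne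
  have hmem : ∀ w : ℂ, w ∈ L.lattice ↔ ∃ y : OO A B, w = om * emb y := by
    intro w
    rw [hL.mem]
    constructor
    · rintro ⟨y, -, hy⟩
      exact ⟨y, hy⟩
    · rintro ⟨y, hy⟩
      exact ⟨y, Submodule.mem_top, hy⟩
  have e1 : emb (1 : OO A B) = 1 := by
    have := eN 1
    rwa [Nat.cast_one, Nat.cast_one] at this
  obtain ⟨c, hc⟩ : ∃ c : OO A B, mu = emb c := by
    have h3 : mu * om ∈ L.lattice :=
      (hisq om).2 (fun x _ => (hmem _).2 ⟨x, mul_comm _ _⟩)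
    obtain ⟨c, hc⟩ := (hmem _).1 h3
    exact ⟨c, mul_left_cancel₀ hom (by rw [← hc]; ring)⟩
  have hc0 : emb c ≠ 0 := by rw [← hc]; exact hmu
  have hq' := toCQ hq
  obtain ⟨-, -, hcj, hcan⟩ := MUXF.tx_NIM MUXF.tx_ALG (MUXF.tx_IDL MUXF.tx_ALG) A B hq'
  obtain ⟨hn0, hnn⟩ := MUXF.tx_IDL MUXF.tx_ALG A B hq' a ha
  refine ⟨c, hc, le_antisymm ?_ ?_⟩
  · intro x hx
    have h3 := (hisq (om / mu)).1 (by
      rw [mul_div_cancel₀ om hmu]
      exact (hmem _).2 ⟨1, by rw [e1, mul_one]⟩) x hx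
    obtain ⟨y, hy⟩ := (hmem _).1 h3
    rw [Ideal.mem_span_singleton']
    refine ⟨y, eI _ _ ?_⟩
    rw [eM]
    rw [hc] at hy
    field_simp at hy
    first | exact hy.symm | (rw [mul_comm] at hy; exact hy.symm)
  · have hcb : MUXF.cjI a ≠ ⊥ := (hcj a ha).2.2.1
    refine (hcan (MUXF.cjI a) (sp c) a hcb).1 ?_
    rw [Ideal.mul_le]
    intro y hy r hr
    obtain ⟨u, rfl⟩ := Ideal.mem_span_singleton'.1 hr
    have h4 : c * y ∈ a * MUXF.cjI a := by
      rw [hnn]
      have hn0' : ((MUXF.nI a : ℕ) : ℂ) ≠ 0 := by exact_mod_cast hn0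
      have h5 : mu * (om * emb y / (MUXF.nI a : ℕ)) ∈ L.lattice := by
        rw [hisq]
        intro x hx
        have h6 : x * y ∈ a * MUXF.cjI a := Ideal.mul_mem_mul hx hy
        rw [hnn] at h6
        obtain ⟨v, hv⟩ := Ideal.mem_span_singleton.1 h6
        have h7 := congrArg emb hv
        rw [eM, eM, eN] at h7
        refine (hmem _).2 ⟨v, ?_⟩
        field_simp
        linear_combination h7
      obtain ⟨v, hv⟩ := (hmem _).1 h5
      refine Ideal.mem_span_singleton.2 ⟨v, eI _ _ ?_⟩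
      rw [eM, eM, eN]
      rw [hc] at hv
      field_simp at hv
      apply mul_left_cancel₀ hom
      linear_combination om * hv
    have e : y * (u * c) = u * (c * y) := by ring
    rw [e, mul_comm (MUXF.cjI a) a]
    exact Ideal.mul_mem_left _ _ h4

/-- the base_E point -/
lemma base_E (hq : CQ A B) {n : ℕ} {ι : Type} (R : RepsE A B n ι) (m : ℕ) (hm : m ≠ 0)
    (y : OO A B) : emb y * Pool.Agent.ME.ptE R m R.i0 1 ∈ (R.L R.i0).lattice ↔
      ((m : ℕ) : OO A B) ∣ y := by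
  obtain ⟨eM, -, -, -, eN, eI, -, -, -, -, -, -, -⟩ := Pool.Agent.MUXV.tq_EMB A B (toCQ hq)
  have hom : R.om R.i0 ≠ 0 := (R.nl R.i0).om_ne
  have hm' : (m : ℂ) ≠ 0 := by exact_mod_cast hm
  have e1 : emb (1 : OO A B) = 1 := by
    have := eN 1
    rwa [Nat.cast_one, Nat.cast_one] at this
  have en : nI (R.b R.i0) = 1 := by
    rw [R.b0]
    unfold nI
    exact Nat.card_unique
  rw [(R.nl R.i0).mem, R.b0]
  unfold Pool.Agent.ME.ptE
  rw [e1, en]
  constructor
  · rintro ⟨v, -, hv⟩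
    refine ⟨v, eI _ _ ?_⟩
    rw [eM, eN]
    field_simp at hv
    apply mul_left_cancel₀ hom
    linear_combination (R.om R.i0) * hv
  · rintro ⟨v, rfl⟩
    refine ⟨v, Submodule.mem_top, ?_⟩
    rw [eM, eN]
    field_simp
    push_cast
    ring

/-- two automorphisms of `ℂ / k` which hit the same pair agree on `RFE m` -/
theorem key_E (hq : CQ A B) (T : TorXE A B) {n : ℕ} {ι : Type} (R : RepsE A B n ι) (m : ℕ)
    (hm : m ≠ 0) (h2m : 2 ∣ m) (h2 : ¬ ((m : ℕ) : OO A B) ∣ 2) (s s' : ℂ ≃+* ℂ) (hs : FixK A B s)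
    (hs' : FixK A B s') (i : ι) (x : OO A B) (hh : HitsE R m s i x) (hh' : HitsE R m s' i x) :
    ∀ z ∈ (RFE (idl m) : IntermediateField (kk A B) ℂ), s z = s' z := by
  have hbot := idl_ne (A := A) (B := B) hm
  obtain ⟨eM, eA, eS, -, eN, eI, -, -, -, -, -, -, -⟩ := Pool.Agent.MUXV.tq_EMB A B (toCQ hq)
  have ht : ∀ y, (s.trans s'.symm) y = s'.symm (s y) := fun y => rfl
  have hk : (s.trans s'.symm) (kapE (R.L R.i0)) = kapE (R.L R.i0) := by
    rw [ht, ← hh.1, hh'.1, RingEquiv.symm_apply_apply]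
  have hx : (s.trans s'.symm) (xnE (R.L R.i0) (Pool.Agent.ME.ptE R m R.i0 1)) =
      xnE (R.L R.i0) (Pool.Agent.ME.ptE R m R.i0 1) := by
    rw [ht, hh.2.1, ← hh'.2.1, RingEquiv.symm_apply_apply]
  have hw : FixK A B (s.trans s'.symm) := by
    unfold FixK at hs hs' ⊢
    rw [ht, hs, RingEquiv.symm_apply_eq, hs']
  obtain ⟨a, hcop, hact⟩ := T.act (idl m) hbot (s.trans s'.symm) hw
  obtain ⟨b', L', om', mu, hL', hI⟩ := hact (R.b R.i0) (R.L R.i0) (R.om R.i0) (R.nl R.i0)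
  have hlat : L'.lattice = (R.L R.i0).lattice :=
    lat_eq_E (R.nl R.i0).nrm hL'.nrm (by rw [hI.kapE, hk])
  obtain ⟨hmu, hisq⟩ := hI.isq
  have ha : a ≠ ⊥ := by
    rintro rfl
    have h3 : ((⊥ : Ideal (OO A B)) ⊔ idl m) = ⊤ := Ideal.isCoprime_iff_sup_eq.1 hcop
    rw [bot_sup_eq] at h3
    have h4 : (1 : OO A B) ∈ idl (A := A) (B := B) m := by rw [h3]; trivial
    exact h2 ((Ideal.mem_span_singleton.1 h4).trans (one_dvd _))
  have hL0 : IsNE (⊤ : Ideal (OO A B)) (R.L R.i0) (R.om R.i0) := by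
    have := R.nl R.i0
    rwa [R.b0] at this
  obtain ⟨c, hc, hac⟩ := princ_E hq (R.L R.i0) (R.om R.i0) hL0 a ha mu hmu
    (fun z => by have := hisq z; rwa [hlat] at this)
  have hz : Pool.Agent.ME.ptE R m R.i0 1 ∉ (R.L R.i0).lattice := by
    intro h0
    have h3 := (base_E hq R m hm 1).1 (by
      have e1 : emb (1 : OO A B) = 1 := by
        have := eN 1
        rwa [Nat.cast_one, Nat.cast_one] at this
      rw [e1, one_mul]
      exact h0)
    exact h2 (h3.trans (one_dvd _))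
  have hTz : Tor (idl (A := A) (B := B) m) (R.L R.i0) (Pool.Agent.ME.ptE R m R.i0 1) := by
    intro y hy
    rw [base_E hq R m hm]
    exact Ideal.mem_span_singleton.1 hy
  have hex : ∃ c : OO A B, c - 1 ∈ idl (A := A) (B := B) m ∧ a = sp c := by
    rcases hI.act _ hTz with ⟨h0, -⟩ | ⟨-, hmz, hxz, -⟩
    · exact absurd h0 hz
    · rw [hx] at hxz
      rw [hlat] at hmz
      have e : (R.L R.i0).weierstrassP (mu * Pool.Agent.ME.ptE R m R.i0 1) =
          (R.L R.i0).weierstrassP (Pool.Agent.ME.ptE R m R.i0 1) := by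
        unfold xnE at hxz
        rw [wp_eq hlat] at hxz
        linear_combination -hxz
      rcases b_NEQ _ _ _ hz hmz e with h3 | h3
      · refine ⟨c, ?_, hac⟩
        rw [Ideal.mem_span_singleton, ← base_E hq R m hm, eS]
        have e1 : emb (1 : OO A B) = 1 := by
          have := eN 1
          rwa [Nat.cast_one, Nat.cast_one] at this
        rw [e1, ← hc, sub_mul, one_mul]
        exact h3
      · refine ⟨-c, ?_, ?_⟩
        · have e2 : -c - 1 = -(c + 1) := by ring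
          rw [e2, neg_mem_iff, Ideal.mem_span_singleton, ← base_E hq R m hm, eA]
          have e1 : emb (1 : OO A B) = 1 := by
            have := eN 1
            rwa [Nat.cast_one, Nat.cast_one] at this
          rw [e1, ← hc, add_mul, one_mul]
          exact h3
        · rw [hac]
          exact (Ideal.span_singleton_neg c).symm
  have htr := (T.triv (idl m) a (s.trans s'.symm) (R.b R.i0) (R.L R.i0) L' (R.om R.i0) mu hbot
    (Or.inl (Ideal.span_singleton_le_span_singleton.2 (Nat.cast_dvd_cast h2m)))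
    hw (R.nl R.i0) hI hL'.nrm).2 hex
  intro z hz'
  have := htr z hz'
  rw [ht, RingEquiv.symm_apply_eq] at this
  exact this

end Cxs

open _root_.Pool.Agent.MUXW.Cxs in
theorem ty_CXS_E (h1 : Sy_HIT_E) (h2 : Sy_THG_E) : Sy_CXS_E := by
  classical
  intro A B hq T n ι R m hm h2m hcop hm2 a H ha hac hH θ hθ D h hD
  letI := algC h
  intro τ
  have hbot := idl_ne (A := A) (B := B) hm
  haveI := T.fin _ hbot
  haveI := T.gal _ hbot
  obtain ⟨eM, -, -, -, eN, eI, -, -, -, -, -, -, -⟩ := Pool.Agent.MUXV.tq_EMB A B (toCQ hq)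
  have e1 : emb (1 : OO A B) = 1 := by
    have := eN 1
    rwa [Nat.cast_one, Nat.cast_one] at this
  -- the base_E point
  have hz : Pool.Agent.ME.ptE R m R.i0 1 ∉ (R.L R.i0).lattice := by
    intro h0
    have h3 := (base_E hq R m hm 1).1 (by rw [e1, one_mul]; exact h0)
    exact hm2 (h3.trans (one_dvd _))
  have hz1 : emb ((m : ℕ) : OO A B) * Pool.Agent.ME.ptE R m R.i0 1 ∈ (R.L R.i0).lattice :=
    (base_E hq R m hm _).2 (dvd_refl _)
  obtain ⟨hk, hx, hth, hσ, -⟩ := h2 A B hq T (R.b R.i0) (R.L R.i0) (R.om R.i0) (R.nl R.i0)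
    ((m : ℕ) : OO A B) (cast_ne hm) (a : ℤ) (H R.i0) (by exact_mod_cast ha) (hH R.i0)
    (Pool.Agent.ME.ptE R m R.i0 1) hz1 hz
  have hθ' : θ = ⟨_, hth⟩ := Subtype.ext hθ
  -- the automorphisms
  haveI : Finite {σ : (RFE (idl m) : IntermediateField (kk A B) ℂ) ≃ₐ[kk A B] RFE (idl m) //
    Ext1 h τ σ} := Subtype.finite
  letI : Fintype {σ : (RFE (idl m) : IntermediateField (kk A B) ℂ) ≃ₐ[kk A B] RFE (idl m) //
    Ext1 h τ σ} := Fintype.ofFinite _
  choose s hs hsσ using fun σ : {σ : (RFE (idl m) : IntermediateField (kk A B) ℂ) ≃ₐ[kk A B]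
    RFE (idl m) // Ext1 h τ σ} => extend_E T _ hbot σ.1
  choose i x hxc hit hx2 hiff using fun σ => h1 A B hq T n ι R m hm hcop hm2 (s σ) (hs σ)
  have hext : ∀ g, ExtC h τ (s g) := by
    intro g y
    have e := g.2 y (hD y y.2)
    rw [← e]
    exact hsσ g ⟨y, hD y y.2⟩
  have hinj : ∀ g g', (∃ j y, HitsE R m (s g) j y ∧ HitsE R m (s g') j y) → g = g' := by
    rintro g g' ⟨j, y, h3, h4⟩
    have h5 := key_E hq T R m hm h2m hm2 (s g) (s g') (hs g) (hs g') j y h3 h4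
    apply Subtype.ext
    apply AlgEquiv.ext
    intro w
    apply Subtype.ext
    rw [← hsσ g w, ← hsσ g' w]
    exact h5 w w.2
  let q : {σ : (RFE (idl m) : IntermediateField (kk A B) ℂ) ≃ₐ[kk A B] RFE (idl m) //
    Ext1 h τ σ} → ι × (OO A B ⧸ idl (A := A) (B := B) m) :=
    fun g => (i g, Ideal.Quotient.mk (idl m) (x g))
  have hqinj : Function.Injective q := by
    intro g g' hgg
    have h3 : i g = i g' := congrArg Prod.fst hgg
    have h4 : Ideal.Quotient.mk (idl (A := A) (B := B) m) (x g) =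
      Ideal.Quotient.mk (idl m) (x g') := congrArg Prod.snd hgg
    refine hinj g g' ⟨i g, x g, hit g, (hiff g' _ _).2 ⟨h3, Or.inl ?_⟩⟩
    exact Ideal.mem_span_singleton.1 (Ideal.Quotient.eq.1 h4)
  refine ⟨Finset.univ.image q, ?_, ?_, ?_⟩
  · intro p
    constructor
    · rintro ⟨hc, s', hs', he', hh'⟩
      let s'' : ℂ ≃ₐ[kk A B] ℂ := AlgEquiv.ofRingEquiv (f := s') (fun r => fixk hs' _ r.2)
      have e2 : ∀ y : (RFE (idl m) : IntermediateField (kk A B) ℂ),
          ((s''.restrictNormal (RFE (idl m)) y : (RFE (idl m) : IntermediateField (kk A B) ℂ)) : ℂ)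
            = s' y := fun y => AlgEquiv.restrictNormal_commutes s'' (RFE (idl m)) y
      let g : {σ : (RFE (idl m) : IntermediateField (kk A B) ℂ) ≃ₐ[kk A B] RFE (idl m) //
          Ext1 h τ σ} := ⟨s''.restrictNormal (RFE (idl m)), fun y hy => by
        rw [e2]
        exact he' y⟩
      have e3 : ∀ y : (RFE (idl m) : IntermediateField (kk A B) ℂ), s g y = s' y := by
        intro y
        rw [hsσ g y]
        exact e2 y
      have e4 : HitsE R m (s g) p.1 (Quotient.out p.2) := by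
        refine ⟨?_, ?_, hh'.2.2⟩
        · rw [hh'.1]
          exact (e3 ⟨_, hk⟩).symm
        · rw [← hh'.2.1]
          exact e3 ⟨_, hx⟩
      obtain ⟨e5, e6 | e6⟩ := (hiff g _ _).1 e4
      · left
        rw [Finset.mem_image]
        refine ⟨g, Finset.mem_univ _, Prod.ext e5.symm ?_⟩
        show Ideal.Quotient.mk (idl m) (x g) = p.2
        rw [← Ideal.Quotient.mk_out p.2]
        exact (mk_eq e6).symm
      · right
        rw [Finset.mem_image]
        refine ⟨g, Finset.mem_univ _, Prod.ext e5.symm ?_⟩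
        show Ideal.Quotient.mk (idl m) (x g) = -p.2
        rw [← Ideal.Quotient.mk_out p.2, ← map_neg]
        apply mk_eq
        have e : x g - -Quotient.out p.2 = Quotient.out p.2 + x g := by ring
        rw [e]
        exact e6
    · rintro (h3 | h3)
      · obtain ⟨g, -, hg⟩ := Finset.mem_image.1 h3
        have h4 : i g = p.1 := congrArg Prod.fst hg
        have h5 : Ideal.Quotient.mk (idl m) (x g) = p.2 := congrArg Prod.snd hg
        have h6 := out_dvd p.2 (x g) h5.symm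
        exact ⟨cop_of (hxc g) h6, s g, hs g, hext g, (hiff g _ _).2 ⟨h4.symm, Or.inl h6⟩⟩
      · obtain ⟨g, -, hg⟩ := Finset.mem_image.1 h3
        have h4 : i g = p.1 := congrArg Prod.fst hg
        have h5 : Ideal.Quotient.mk (idl m) (x g) = -p.2 := congrArg Prod.snd hg
        have h6 := out_dvd p.2 (-x g) (by rw [map_neg, h5, neg_neg])
        refine ⟨cop_of (hxc g).neg_left h6, s g, hs g, hext g,
          (hiff g _ _).2 ⟨h4.symm, Or.inr ?_⟩⟩
        rwa [sub_neg_eq_add] at h6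
  · intro p hp hp'
    obtain ⟨g, -, hg⟩ := Finset.mem_image.1 hp
    obtain ⟨g', -, hg'⟩ := Finset.mem_image.1 hp'
    have h4 : i g = p.1 := congrArg Prod.fst hg
    have h5 : Ideal.Quotient.mk (idl m) (x g) = p.2 := congrArg Prod.snd hg
    have h4' : i g' = p.1 := congrArg Prod.fst hg'
    have h5' : Ideal.Quotient.mk (idl m) (x g') = -p.2 := congrArg Prod.snd hg'
    have h6 : ((m : ℕ) : OO A B) ∣ x g' + x g := by
      apply Ideal.mem_span_singleton.1
      apply Ideal.Quotient.eq_zero_iff_mem.1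
      rw [map_add, h5, h5', neg_add_cancel]
    have h7 : g = g' := hinj g g' ⟨i g', x g', (hiff g _ _).2 ⟨by rw [h4, h4'], Or.inr h6⟩,
      hit g'⟩
    rw [← h7] at h6
    exact hx2 g (by rw [two_mul]; exact h6)
  · rw [cWt, finprod_eq_prod_of_fintype, Finset.prod_image hqinj.injOn]
    refine Finset.prod_congr rfl fun g _ => ?_
    have h3 : HitsE R m (s g) (i g) (Quotient.out (Ideal.Quotient.mk (idl m) (x g))) :=
      (hiff g _ _).2 ⟨rfl, Or.inl (out_dvd _ _ rfl)⟩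
    rw [hθ']
    refine hσ g.1 (R.b (i g)) (R.L (i g)) (R.om (i g)) (H (i g))
      (Pool.Agent.ME.ptE R m (i g) (Quotient.out (Ideal.Quotient.mk (idl m) (x g))))
      (R.nl _) (hH _) h3.2.2 ?_ ?_
    · rw [h3.1]
      exact (hsσ g ⟨_, hk⟩).symm
    · rw [← h3.2.1]
      exact (hsσ g ⟨_, hx⟩).symm

end

end Pool.Agent.MUXW


end

section

/-!
# MUX, block W: module THG, the values of `Θ_a` at points of level `m`
-/

set_option autoImplicit false

open WeierstrassCurve Polynomial NumberField IsDedekindDomain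

namespace Pool.Agent.MUXW

open _root_.MU3 _root_.Pool.Agent.MU3A _root_.Pool.Agent.MU3B _root_.Pool.Agent.MU3C _root_.Pool.Agent.RI _root_.Pool.Agent.RID
open _root_.Pool.Agent.MUX _root_.Pool.Agent.ME _root_.Pool.Agent.MUXU
open _root_.Pool.Agent.MU3V (cls Sub GD algDF)
open _root_.Pool.Agent.MUXV (GR InK tX CMO Ovr)

noncomputable section

private lemma thg_wC_MEXW_THG {A B : ℤ} (h : CQ A B) : wC A B * wC A B = A + B * wC A B := by
  have h1 : (0 : ℝ) ≤ (absD A B : ℝ) := by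
    have := h.neg
    have h0 : 0 ≤ absD A B := by
      unfold absD
      omega
    exact_mod_cast h0
  have h2 : ((Real.sqrt (absD A B) : ℝ) : ℂ) ^ 2 = (absD A B : ℂ) := by
    rw [← Complex.ofReal_pow, Real.sq_sqrt h1]
    norm_num
  have h3 : Complex.I ^ 2 = -1 := Complex.I_sq
  have h4 : (absD A B : ℂ) = -((B : ℂ) ^ 2 + 4 * A) := by simp [absD]
  unfold wC
  linear_combination (Complex.I ^ 2 / 4) * h2 + ((absD A B : ℂ) / 4) * h3 - (1 / 4) * h4

private lemma thg_mul_MEXW_THG {A B : ℤ} (h : CQ A B) (x y : OO A B) :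
    emb (x * y) = emb x * emb y := by
  have h1 := thg_wC_MEXW_THG h
  simp only [emb, QuadraticAlgebra.re_mul, QuadraticAlgebra.im_mul]
  push_cast
  linear_combination (-(x.im : ℂ) * y.im) * h1

private lemma thg_fin_MEXW_THG {A B : ℤ} (hc : CQ A B) : FiniteDimensional ℚ (kk A B) := by
  have h0 : _root_.IsIntegral ℤ (wC A B) := by
    refine ⟨Polynomial.X ^ 2 - Polynomial.C B * Polynomial.X - Polynomial.C A, ?_, ?_⟩
    · monicity!
    · have := thg_wC_MEXW_THG hc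
      simp only [Polynomial.eval₂_sub, Polynomial.eval₂_mul, Polynomial.eval₂_pow,
        Polynomial.eval₂_X, Polynomial.eval₂_C]
      simp only [algebraMap_int_eq, eq_intCast]
      linear_combination this
  have h1 : _root_.IsIntegral ℚ (wC A B) := h0.tower_top
  exact IntermediateField.adjoin.finiteDimensional h1

private lemma thg_cj_MEXW_THG (s : ℂ ≃+* ℂ) {A B : ℤ} {b b' : Ideal (OO A B)} {L L' : PeriodPair}
    {om om' : ℂ} (hL : IsNE b L om) (hL' : IsNE b' L' om') (_ : s (kapE L) = kapE L') :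
    IsCj s L L' := by
  exact ⟨by rw [hL.nrm.fix2 s]; exact hL'.nrm.g2_eq hL.nrm,
    by rw [hL.nrm.fix3 s]; exact hL'.nrm.g3_eq hL.nrm⟩

private lemma thg_wp_MEXW_THG (s : ℂ ≃+* ℂ) (L L' : PeriodPair) (z z' : ℂ) (h : s (xnE L z) = xnE L' z') :
    L'.weierstrassP z' = s (L.weierstrassP z) := h.symm

theorem ty_THG_E (hTHC : Sy_THC) (hAUE : Su_AUE) (hAUF : Su_AUF) : Sy_THG_E := by
  intro A B hc T b₀ L om hL m hm a H ha hH z hz hz0
  have htor : Tor (sp m) L z := by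
    intro x hx
    obtain ⟨t, rfl⟩ := Ideal.mem_span_singleton.1 hx
    obtain ⟨y, hy, hy'⟩ := (hL.mem _).1 hz
    rw [mul_comm m t, thg_mul_MEXW_THG hc, mul_assoc, hy']
    refine (hL.mem _).2 ⟨t * y, Ideal.mul_mem_left _ _ hy, ?_⟩
    rw [thg_mul_MEXW_THG hc]
    ring
  have hk : kapE L ∈ (RFE (sp m) : IntermediateField (kk A B) ℂ) :=
    IntermediateField.subset_adjoin _ _ ⟨b₀, L, om, hL, Or.inl rfl⟩
  have hx : xnE L z ∈ (RFE (sp m) : IntermediateField (kk A B) ℂ) :=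
    IntermediateField.subset_adjoin _ _ ⟨b₀, L, om, hL, Or.inr ⟨z, htor, hz0, rfl⟩⟩
  have hfk := thg_fin_MEXW_THG hc
  have hsp : sp m ≠ ⊥ := by
    rwa [Ne, Ideal.span_singleton_eq_bot]
  have hfF := T.fin (sp m) hsp
  let F : IntermediateField ℚ ℂ :=
    (RFE (sp m) : IntermediateField (kk A B) ℂ).restrictScalars ℚ
  have hFalg : Algebra.IsAlgebraic ℚ F := by
    have h1 : FiniteDimensional ℚ (RFE (sp m) : IntermediateField (kk A B) ℂ) :=
      FiniteDimensional.trans ℚ (kk A B) (RFE (sp m) : IntermediateField (kk A B) ℂ)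
    have h2 : Algebra.IsAlgebraic ℚ (RFE (sp m) : IntermediateField (kk A B) ℂ) := inferInstance
    exact h2
  have hz' : ThetaH L H z ∈ (RFE (sp m) : IntermediateField (kk A B) ℂ) := by
    have h1 : ThetaH L H z ∈ F := by
      refine hAUF F hFalg _ fun s hs => ?_
      have h2 : s (kapE L) = kapE L := hs _ hk
      have h3 : s (xnE L z) = xnE L z := hs _ hx
      exact hTHC s L L (thg_cj_MEXW_THG s hL hL h2) a H H ha hH hH z z hz0 hz0 (thg_wp_MEXW_THG s L L z z h3)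
    exact h1
  refine ⟨hk, hx, hz', ?_⟩
  have main : ∀ (σ : (RFE (sp m) : IntermediateField (kk A B) ℂ) ≃ₐ[kk A B] RFE (sp m))
        (b' : Ideal (OO A B)) (L' : PeriodPair) (om' : ℂ) (H' : Finset ℂ) (z' : ℂ),
        IsNE b' L' om' → IsHalf L' a H' → z' ∉ L'.lattice →
        ((σ ⟨kapE L, hk⟩ : (RFE (sp m) : IntermediateField (kk A B) ℂ)) : ℂ) = kapE L' →
        ((σ ⟨xnE L z, hx⟩ : (RFE (sp m) : IntermediateField (kk A B) ℂ)) : ℂ) = xnE L' z' →
        ((σ ⟨ThetaH L H z, hz'⟩ : (RFE (sp m) : IntermediateField (kk A B) ℂ)) : ℂ) =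
          ThetaH L' H' z' := by
    intro σ b' L' om' H' z' hL' hH' hz'' h1 h2
    let τ : F →+* ℂ :=
      ((algebraMap (RFE (sp m) : IntermediateField (kk A B) ℂ) ℂ).comp (σ : _ →+* _) :
        (RFE (sp m) : IntermediateField (kk A B) ℂ) →+* ℂ)
    obtain ⟨s, hs⟩ := hAUE F hFalg τ
    have h3 : s (kapE L) = kapE L' := (hs ⟨kapE L, hk⟩).trans h1
    have h4 : s (xnE L z) = xnE L' z' := (hs ⟨xnE L z, hx⟩).trans h2
    have h5 := hTHC s L L' (thg_cj_MEXW_THG s hL hL' h3) a H H' ha hH hH' z z' hz0 hz''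
      (thg_wp_MEXW_THG s L L' z z' h4)
    rw [← h5]
    exact (hs ⟨ThetaH L H z, hz'⟩).symm
  refine ⟨main, ?_⟩
  intro σ b hσ
  obtain ⟨h1, h2⟩ := hσ.ptE b₀ L om hL z hz hz0
  exact main σ b₀ L om H (emb b * z) hL hH h1 (hσ.kapE b₀ L om hL hk) (h2 hx)

end

end Pool.Agent.MUXW


end

section

/-!
# MUX, block W: elementary properties of `ActH` (ACM)
-/

set_option autoImplicit false

open WeierstrassCurve Polynomial NumberField IsDedekindDomain

namespace Pool.Agent.MUXW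

open _root_.MU3 _root_.Pool.Agent.MU3A _root_.Pool.Agent.MU3B _root_.Pool.Agent.MU3C _root_.Pool.Agent.RI _root_.Pool.Agent.RID
open _root_.Pool.Agent.MUX _root_.Pool.Agent.ME _root_.Pool.Agent.MUXU
open _root_.Pool.Agent.MU3V (cls Sub GD algDF)
open _root_.Pool.Agent.MUXV (GR InK tX CMO Ovr)

noncomputable section

namespace ACM

variable {A B : ℤ}

lemma emb_mem_E (E : EmbF A B) {b : Ideal (OO A B)} {L : PeriodPair} {om : ℂ} (hL : IsNE b L om)
    (x : OO A B) {z : ℂ} (hz : z ∈ L.lattice) : emb x * z ∈ L.lattice := by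
  obtain ⟨y, hy, rfl⟩ := (hL.mem z).1 hz
  refine (hL.mem _).2 ⟨x * y, b.mul_mem_left x hy, ?_⟩
  rw [E.mul]
  ring

lemma kap_mem_E {m : OO A B} {F : IntermediateField (kk A B) ℂ} (hF : RFE (sp m) ≤ F)
    {b : Ideal (OO A B)} {L : PeriodPair} {om : ℂ} (hL : IsNE b L om) : kapE L ∈ F :=
  hF (IntermediateField.subset_adjoin _ _ ⟨b, L, om, hL, Or.inl rfl⟩)

lemma xn_mem_E (E : EmbF A B) {m : OO A B} {F : IntermediateField (kk A B) ℂ} (hF : RFE (sp m) ≤ F)
    {b : Ideal (OO A B)} {L : PeriodPair} {om : ℂ} (hL : IsNE b L om) {z : ℂ}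
    (h1 : emb m * z ∈ L.lattice) (h2 : z ∉ L.lattice) : xnE L z ∈ F := by
  refine hF (IntermediateField.subset_adjoin _ _ ⟨b, L, om, hL, Or.inr ⟨z, ?_, h2, rfl⟩⟩)
  intro x hx
  obtain ⟨c, rfl⟩ := Ideal.mem_span_singleton.1 hx
  rw [E.mul, mul_comm (emb m), mul_assoc]
  exact emb_mem_E E hL c h1

lemma xn_neg_E (L : PeriodPair) (z : ℂ) : xnE L (-z) = xnE L z := by
  rw [xnE, xnE, L.weierstrassP_neg]

lemma xn_add_E (L : PeriodPair) (z l : ℂ) (hl : l ∈ L.lattice) : xnE L (z + l) = xnE L z := by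
  rw [xnE, xnE, L.weierstrassP_add_coe z ⟨l, hl⟩]

lemma pt_down_E (E : EmbF A B) {b : Ideal (OO A B)} {L : PeriodPair} {om : ℂ} (hL : IsNE b L om)
    {m m' : OO A B} (hd : m' ∣ m) {z : ℂ} (hz : emb m' * z ∈ L.lattice) :
    emb m * z ∈ L.lattice := by
  obtain ⟨c, rfl⟩ := hd
  rw [E.mul, mul_comm (emb m'), mul_assoc]
  exact emb_mem_E E hL c hz

lemma act_mul_E (E : EmbF A B) {m : OO A B} (F : IntermediateField (kk A B) ℂ)
    (σ τ : F ≃ₐ[kk A B] F) (a b : OO A B) (hF : RFE (sp m) ≤ F) (ha : ActH_E σ m a)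
    (hb : ActH_E τ m b) : ActH_E (σ * τ) m (a * b) := by
  refine ⟨ha.cop.mul_left hb.cop, ?_, ?_⟩
  · intro c L om hL h
    have e1 : τ ⟨kapE L, h⟩ = ⟨kapE L, h⟩ := Subtype.ext (hb.kapE c L om hL h)
    have e2 : (σ * τ) ⟨kapE L, h⟩ = σ (τ ⟨kapE L, h⟩) := rfl
    rw [e2, e1]
    exact ha.kapE c L om hL h
  · intro c L om hL z hz hzL
    obtain ⟨b1, b2⟩ := hb.ptE c L om hL z hz hzL
    have hbz : emb m * (emb b * z) ∈ L.lattice := by
      rw [mul_left_comm]
      exact emb_mem_E E hL b hz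
    obtain ⟨a1, a2⟩ := ha.ptE c L om hL _ hbz b1
    have e : emb (a * b) * z = emb a * (emb b * z) := by rw [E.mul]; ring
    rw [e]
    refine ⟨a1, fun hx => ?_⟩
    have e1 : (σ * τ) ⟨xnE L z, hx⟩ = σ (τ ⟨xnE L z, hx⟩) := rfl
    have e2 : τ ⟨xnE L z, hx⟩ = ⟨xnE L (emb b * z), xn_mem_E E hF hL hbz b1⟩ := Subtype.ext (b2 hx)
    rw [e1, e2, a2]

lemma act_ext_E (E : EmbF A B) {m : OO A B}
    {σ τ : (RFE (sp m) : IntermediateField (kk A B) ℂ) ≃ₐ[kk A B] RFE (sp m)} {a : OO A B}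
    (hσ : ActH_E σ m a) (hτ : ActH_E τ m a) : σ = τ := by
  refine AlgEquiv.ext fun x => Subtype.ext ?_
  obtain ⟨x, hx⟩ := x
  refine IntermediateField.adjoin_induction (F := kk A B)
    (p := fun x hx => ((σ ⟨x, hx⟩ : (RFE (sp m) : IntermediateField (kk A B) ℂ)) : ℂ) =
      ((τ ⟨x, hx⟩ : (RFE (sp m) : IntermediateField (kk A B) ℂ)) : ℂ)) ?_ ?_ ?_ ?_ ?_ hx
  · rintro x ⟨b, L, om, hL, rfl | ⟨z, hz, hzL, rfl⟩⟩
    · rw [hσ.kapE b L om hL, hτ.kapE b L om hL]
    · have hz' := tor_sp hz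
      rw [(hσ.ptE b L om hL z hz' hzL).2, (hτ.ptE b L om hL z hz' hzL).2]
  · intro r
    exact congrArg Subtype.val ((σ.commutes r).trans (τ.commutes r).symm)
  · intro x y hx hy h1 h2
    have e : (⟨x + y, add_mem hx hy⟩ : (RFE (sp m) : IntermediateField (kk A B) ℂ)) =
      ⟨x, hx⟩ + ⟨y, hy⟩ := rfl
    rw [e, map_add, map_add]
    exact congrArg₂ (· + ·) h1 h2
  · intro x hx h1
    have e : (⟨x⁻¹, inv_mem hx⟩ : (RFE (sp m) : IntermediateField (kk A B) ℂ)) = (⟨x, hx⟩)⁻¹ := rfl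
    rw [e, map_inv₀, map_inv₀]
    exact congrArg (·⁻¹) h1
  · intro x y hx hy h1 h2
    have e : (⟨x * y, mul_mem hx hy⟩ : (RFE (sp m) : IntermediateField (kk A B) ℂ)) =
      ⟨x, hx⟩ * ⟨y, hy⟩ := rfl
    rw [e, map_mul, map_mul]
    exact congrArg₂ (· * ·) h1 h2

lemma act_trH_E (E : EmbF A B) {m : OO A B} (F : IntermediateField (kk A B) ℂ)
    (σ : F ≃ₐ[kk A B] F) (a : OO A B) (hF : RFE (sp m) ≤ F) (ha : ActH_E σ m a) : TrH_E σ := by
  have key : ∀ x : ℂ, x ∈ (RFE (⊤ : Ideal (OO A B)) : IntermediateField (kk A B) ℂ) →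
      ∃ h : x ∈ F, σ ⟨x, h⟩ = ⟨x, h⟩ := by
    intro x hx
    refine IntermediateField.adjoin_induction (F := kk A B)
      (p := fun x _ => ∃ h : x ∈ F, σ ⟨x, h⟩ = ⟨x, h⟩) ?_ ?_ ?_ ?_ ?_ hx
    · rintro x ⟨b, L, om, hL, rfl | ⟨z, hz, hzL, rfl⟩⟩
      · exact ⟨kap_mem_E hF hL, Subtype.ext (ha.kapE b L om hL _)⟩
      · exact absurd (by simpa [E.one] using hz 1 trivial) hzL
    · intro r
      exact ⟨F.algebraMap_mem r, σ.commutes r⟩
    · rintro x y hx hy ⟨hx1, h1⟩ ⟨hy1, h2⟩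
      refine ⟨add_mem hx1 hy1, ?_⟩
      have e : (⟨x + y, add_mem hx1 hy1⟩ : F) = ⟨x, hx1⟩ + ⟨y, hy1⟩ := rfl
      rw [e, map_add, h1, h2]
    · rintro x hx ⟨hx1, h1⟩
      refine ⟨inv_mem hx1, ?_⟩
      have e : (⟨x⁻¹, inv_mem hx1⟩ : F) = (⟨x, hx1⟩)⁻¹ := rfl
      rw [e, map_inv₀, h1]
    · rintro x y hx hy ⟨hx1, h1⟩ ⟨hy1, h2⟩
      refine ⟨mul_mem hx1 hy1, ?_⟩
      have e : (⟨x * y, mul_mem hx1 hy1⟩ : F) = ⟨x, hx1⟩ * ⟨y, hy1⟩ := rfl
      rw [e, map_mul, h1, h2]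
  intro x hx
  obtain ⟨h, h1⟩ := key x hx
  exact h1

lemma act_uniq_E (E : EmbF A B) {L : PeriodPair} {Om : ℂ} (hL : IsNE (⊤ : Ideal (OO A B)) L Om)
    {m : OO A B} (hm : m ≠ 0) (F : IntermediateField (kk A B) ℂ) (σ : F ≃ₐ[kk A B] F)
    (a a' : OO A B) (hF : RFE (sp m) ≤ F) (ha : ActH_E σ m a) (ha' : ActH_E σ m a') :
    m ∣ a - a' ∨ m ∣ a + a' := by
  have hm0 : emb m ≠ 0 := fun h0 => hm (E.inj _ _ (h0.trans E.zero.symm))
  have hdiv : ∀ x : OO A B, emb x * (Om / emb m) ∈ L.lattice → m ∣ x := by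
    intro x hx
    obtain ⟨y, -, hy⟩ := (hL.mem _).1 hx
    refine ⟨y, E.inj _ _ ?_⟩
    rw [E.mul]
    have h0 := hL.om_ne
    field_simp at hy
    rw [hy]
  by_cases hz : Om / emb m ∈ L.lattice
  · left
    have h1 : m ∣ 1 := hdiv 1 (by rw [E.one, one_mul]; exact hz)
    exact h1.trans (one_dvd _)
  · have hz' : emb m * (Om / emb m) ∈ L.lattice := by
      rw [mul_div_cancel₀ _ hm0]
      exact (hL.mem _).2 ⟨1, trivial, by rw [E.one, mul_one]⟩
    obtain ⟨a1, a2⟩ := ha.ptE ⊤ L Om hL _ hz' hz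
    obtain ⟨b1, b2⟩ := ha'.ptE ⊤ L Om hL _ hz' hz
    have e1 := (a2 (xn_mem_E E hF hL hz' hz)).symm.trans (b2 (xn_mem_E E hF hL hz' hz))
    have e2 : L.weierstrassP (emb a * (Om / emb m)) = L.weierstrassP (emb a' * (Om / emb m)) := by
      simpa [xnE] using e1
    rcases b_NEQ L _ _ b1 a1 e2 with h | h
    · left
      apply hdiv
      rw [E.sub, sub_mul]
      exact h
    · right
      apply hdiv
      rw [E.add, add_mul]
      exact h

lemma act_congr_E (E : EmbF A B) {m : OO A B} (F : IntermediateField (kk A B) ℂ)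
    (σ : F ≃ₐ[kk A B] F) (a a' : OO A B) (hd : m ∣ a - a' ∨ m ∣ a + a') (ha : ActH_E σ m a) :
    ActH_E σ m a' := by
  rcases hd with ⟨c, hc⟩ | ⟨c, hc⟩
  · have e : a' = a + m * (-c) := by linear_combination -hc
    refine ⟨?_, ha.kapE, fun b L om hL z hz hzL => ?_⟩
    · rw [e]
      exact ha.cop.add_mul_left_left _
    · obtain ⟨a1, a2⟩ := ha.ptE b L om hL z hz hzL
      have hmem : emb (-c) * (emb m * z) ∈ L.lattice := emb_mem_E E hL (-c) hz
      have e2 : emb a' * z = emb a * z + emb (-c) * (emb m * z) := by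
        rw [e, E.add, E.mul]
        ring
      rw [e2, xn_add_E L _ _ hmem]
      refine ⟨fun hc' => a1 ?_, a2⟩
      have := sub_mem hc' hmem
      simpa using this
  · have e : a' = -(a + m * (-c)) := by linear_combination hc
    have hneg : ∀ x : OO A B, emb (-x) = -emb x := by
      intro x
      have := E.sub 0 x
      rw [zero_sub, E.zero, zero_sub] at this
      exact this
    refine ⟨?_, ha.kapE, fun b L om hL z hz hzL => ?_⟩
    · rw [e]
      exact (ha.cop.add_mul_left_left _).neg_left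
    · obtain ⟨a1, a2⟩ := ha.ptE b L om hL z hz hzL
      have hmem : emb (-c) * (emb m * z) ∈ L.lattice := emb_mem_E E hL (-c) hz
      have e2 : emb a' * z = -(emb a * z + emb (-c) * (emb m * z)) := by
        rw [e, hneg, E.add, E.mul]
        ring
      rw [e2, xn_neg_E, xn_add_E L _ _ hmem]
      refine ⟨fun hc' => a1 ?_, a2⟩
      have := sub_mem (neg_mem hc') hmem
      simpa using this

end ACM

open _root_.Pool.Agent.MUXW.ACM in
theorem ty_ACM_E (h : Pool.Agent.MUXV.Sq_EMB) : Sy_ACM_E := by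
  intro A B hC L Om hL m hm
  have E := embF h hC
  refine ⟨fun F σ a a' hF => act_uniq_E E hL hm F σ a a' hF, fun F σ a a' => act_congr_E E F σ a a',
    ?_, fun F σ τ a b => act_mul_E E F σ τ a b, fun σ τ a => act_ext_E E, ?_,
    fun F σ a hF => act_trH_E E F σ a hF, ?_⟩
  · intro F σ m' a hd ha
    refine ⟨ha.cop.of_isCoprime_of_dvd_right hd, ha.kapE, fun b L om hL z hz hzL => ?_⟩
    exact ha.ptE b L om hL z (pt_down_E E hL hd hz) hzL
  · intro F
    refine ⟨isCoprime_one_left, fun b L om hL h => rfl, fun b L om hL z hz hzL => ?_⟩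
    rw [E.one, one_mul]
    exact ⟨hzL, fun hx => rfl⟩
  · intro m' σ σ' a hd hσ ha
    refine ⟨ha.cop.of_isCoprime_of_dvd_right hd, fun b L om hL h => ?_,
      fun b L om hL z hz hzL => ?_⟩
    · have hx : kapE L ∈ (RFE (sp m) : IntermediateField (kk A B) ℂ) := kap_mem_E le_rfl hL
      rw [← hσ ⟨kapE L, h⟩ hx]
      exact ha.kapE b L om hL hx
    · have hz' := pt_down_E E hL hd hz
      obtain ⟨a1, a2⟩ := ha.ptE b L om hL z hz' hzL
      refine ⟨a1, fun h => ?_⟩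
      have hx : xnE L z ∈ (RFE (sp m) : IntermediateField (kk A B) ℂ) := xn_mem_E E le_rfl hL hz' hzL
      rw [← hσ ⟨xnE L z, h⟩ hx]
      exact a2 hx

end

end Pool.Agent.MUXW


end

section

/-!
# MUX, block W: module FRD, a good prime of `D` lies over a principal prime
-/

set_option autoImplicit false

open WeierstrassCurve Polynomial NumberField IsDedekindDomain

namespace Pool.Agent.MUXW

open _root_.MU3 _root_.Pool.Agent.MU3A _root_.Pool.Agent.MU3B _root_.Pool.Agent.MU3C _root_.Pool.Agent.RI _root_.Pool.Agent.RID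
open _root_.Pool.Agent.MUX _root_.Pool.Agent.MUXU
open _root_.Pool.Agent.MU3V (cls Sub GD algDF Sw_LOC Sv_EXT)
open _root_.Pool.Agent.MUXV (GR InK tX CMO Ovr)

theorem ty_FRD (h1 : Sy_FRH) (h2 : Sy_PRQ) (h3 : Sy_MEM) (h4 : Sw_LOC) (h5 : Sv_EXT) : Sy_FRD := by
  intro A B hc T n ι _ R
  obtain ⟨n₀, hn₀, hF⟩ := h1 A B hc T n ι R
  refine ⟨n₀, hn₀, ?_⟩
  intro p m hm D _ h hHas hsub
  letI := algC h
  intro S v q hgood hqn hqm
  have hkfd : FiniteDimensional ℚ (kk A B) :=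
    FiniteDimensional.of_injective (IntermediateField.inclusion h).toLinearMap
      (IntermediateField.inclusion h).injective
  have hk : NumberField (kk A B) := ⟨⟩
  have hDN : NumberField D := ⟨⟩
  have hspm : (sp m : Ideal (OO A B)) ≠ ⊥ := by
    rw [Ne, Ideal.span_singleton_eq_bot]
    exact hm
  have hTfd := T.fin (sp m) hspm
  have hTgal := T.gal (sp m) hspm
  have hTcomm := T.comm (sp m) hspm
  set F : IntermediateField (kk A B) ℂ := RF (sp m) with hFdef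
  have hFQ : FiniteDimensional ℚ F := FiniteDimensional.trans ℚ (kk A B) F
  have hFN : NumberField F := ⟨⟩
  letI : Algebra D F := algDF hsub
  haveI := Pool.Agent.FX.tower (kk A B) D F fun x => rfl
  obtain ⟨hcard, w, hw, hwb, hwv, hwk, σ, hσ⟩ :=
    Pool.Agent.MU3V.W_FRD.abs_frob (kk A B) D F v q hgood.prime hgood.card
  obtain ⟨-, hP2, hP3⟩ := h2 A B hc
  obtain ⟨Q, hQc, hQ⟩ := hP3 (v.asIdeal.under (𝓞 (kk A B)))
  -- the place `V`
  obtain ⟨V, hV⟩ := h5 F (algebraMap F ℂ) ⟨w, hw, hwb⟩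
  have hcong : ∀ x : F, (x : ℂ) ∈ V → V.valuation (((σ x : F) : ℂ) - (x : ℂ) ^ q) < 1 :=
    h4 A B F ⟨w, hw, hwb⟩ V (fun x => ⟨(hV x).1, (hV x).2.1⟩) σ q hgood.prime.pos hσ
  have hOvr : Ovr Q V := by
    intro y hy
    obtain ⟨x, hx⟩ := hP2 y
    have h6 : x ∈ v.asIdeal.under (𝓞 (kk A B)) := (hQ x y hx).mpr hy
    rw [← hwk] at h6
    have h7 : algebraMap (𝓞 (kk A B)) (𝓞 F) x ∈ w := h6
    have h8 : HeightOneSpectrum.valuation F (⟨w, hw, hwb⟩ : HeightOneSpectrum (𝓞 F))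
        (algebraMap (𝓞 F) F (algebraMap (𝓞 (kk A B)) (𝓞 F) x)) < 1 :=
      (HeightOneSpectrum.valuation_lt_one_iff_mem _ _).mpr h7
    have h9 := (hV _).2.1.mpr h8
    have h10 : algebraMap F ℂ (algebraMap (𝓞 F) F (algebraMap (𝓞 (kk A B)) (𝓞 F) x)) = emb y :=
      hx
    rwa [h10] at h9
  -- `σ` is trivial on `D`
  obtain ⟨-, -, -, -, hext⟩ := h3 A B F hTfd hTgal hTcomm D h hsub 1 one_ne_zero
  obtain ⟨τ, hτ⟩ := hext σ
  have hτ1 : τ = 1 := by
    apply hgood.free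
    refine Pool.Agent.MU3V.W_FRD.abs_free (kk A B) D F v w hwv q hgood.prime.pos σ hσ τ ?_
    intro y
    apply Subtype.ext
    exact hτ y (hsub y y.2)
  subst hτ1
  have hGD : σ ∈ GD h F := by
    intro y hyD hyF
    apply Subtype.ext
    exact hτ ⟨y, hyD⟩ hyF
  have hTr : TrH σ := by
    intro x hx
    exact hGD x (hHas x hx) x.2
  obtain ⟨lam, hlQ, hlam, hact⟩ := hF m hm Q q hgood.prime hqn hqm (hQc.trans hcard) V hOvr σ
    hcong hTr
  refine ⟨lam, hlam, ⟨σ, hGD, hact⟩, fun x y hxy => ?_⟩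
  rw [hQ x y hxy, hlQ, Ideal.mem_span_singleton]

end Pool.Agent.MUXW


end

section

/-!
# MUX: all inputs of block J (helper3)
-/

set_option autoImplicit false

open NumberField IsDedekindDomain

namespace Pool.Agent.MUXZ

open _root_.MU3 _root_.Pool.Agent.MU3 _root_.Pool.Agent.MU3A _root_.Pool.Agent.MU3B _root_.Pool.Agent.RI _root_.Pool.Agent.RID
  _root_.Pool.Agent.MUX _root_.Pool.Agent.MUXK _root_.Pool.Agent.MUXJ _root_.Pool.Agent.MUXW
open _root_.Pool.Agent.MU3V (Sub GD)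

/-- the input of block I for the norm to any field `D ≤ RF (lvX p f n)` -/
theorem eInp (hME : Sy_MEM) (hCX : Sy_CXS)
    {p : ℕ} {A B : ℤ} {P : Ideal (OO A B)} {V : ValuationSubring ℂ} {f : ℕ}
    (hS : SetP p A B P V f) (hT : TorX A B) (hLV : Sz_LVX)
    {ι : Type} [Fintype ι] (R : Reps A B (p * f) ι) (c : ι → ℤ) {H : ι → Finset ℂ}
    {θ : ∀ n : ℕ, (RF (idl (A := A) (B := B) (lvX p f n)) : IntermediateField (kk A B) ℂ)}
    (hth : ThN p f R H θ)
    (hEW : ∀ n : ℕ, 1 ≤ n →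
      ∀ (H : ι → Finset ℂ), (∀ i, IsHalf (R.L i) (aX p f : ℂ) (H i)) →
      ∀ (w : OO A B → ℤ), MUXE.OddW p P (lvX p f n) w →
      ∀ (D : IntermediateField ℚ ℂ) (h : kk A B ≤ D),
        (∀ y ∈ D, y ∈ RF (idl (A := A) (B := B) (lvX p f n))) →
      let := algC h
      ∀ (C : (D ≃ₐ[kk A B] D) → ℂ),
      (∀ τ : D ≃ₐ[kk A B] D, ∃ y : D, (y : ℂ) = C 1 ∧ ((τ y : D) : ℂ) = C τ) →
      (∀ τ : D ≃ₐ[kk A B] D, ∃ S, MUXE.HalfS R (lvX p f n) h τ S ∧
        C τ = ∏ q ∈ S, ThetaH (R.L q.1) (H q.1) (pt R (lvX p f n) q.1 (Quotient.out q.2))) →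
      ∀ g : (D ≃ₐ[kk A B] D) → ℤ,
        (∃ y ∈ D, y ^ p = ∏ᶠ τ : D ≃ₐ[kk A B] D, C τ ^ g τ) →
        ∀ τ' : D ≃ₐ[kk A B] D,
          HfX p V (1 / 2 * ∑ᶠ τ : D ≃ₐ[kk A B] D, (g τ : ℂ) *
            MUXE.TTw R (fun i => (c i : ℂ)) w (lvX p f n) (aX p f) h (τ * τ')))
    (n : ℕ) (hn : 1 ≤ n) (D : IntermediateField ℚ ℂ) (h : kk A B ≤ D)
    (hD : ∀ y ∈ D, y ∈ RF (idl (A := A) (B := B) (lvX p f n))) :
    MUXI.EInp p P V f R c n h (fun τ => cWt h (θ n) τ) := by
  obtain ⟨hl0, _, _, hl2, hlu, hodd, hac, _, _, hcop⟩ := hLV p A B P V f hS n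
  have hb : (idl (A := A) (B := B) (lvX p f n)) ≠ ⊥ := by
    intro hh
    apply hl0
    have := (Ideal.span_singleton_eq_bot.mp hh)
    exact_mod_cast (by
      have h1 := congrArg (fun x : OO A B => x.re) this
      simpa using h1 : ((lvX p f n : ℕ) : ℤ) = 0)
  have := hT.fin _ hb
  have := hT.gal _ hb
  obtain ⟨h1, h2, h3, _, _⟩ := hME A B _ (hT.fin _ hb) (hT.gal _ hb) (hT.comm _ hb) D h hD (θ n)
    (hth.ne n)
  let := algC h
  refine ⟨(h2 1).2, ?_, ?_⟩
  · intro τ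
    refine ⟨⟨cWt h (θ n) 1, (h2 1).1⟩, rfl, ?_⟩
    have hm : cW h (θ n) ∈ D := by rw [h1]; exact (h2 1).1
    have := h3 τ hm
    have he : (⟨cWt h (θ n) 1, (h2 1).1⟩ : D) = ⟨cW h (θ n), hm⟩ := Subtype.ext h1.symm
    rw [he]; exact this
  · intro w hw g hg τ'
    refine hEW n hn H hth.half w hw D h hD (fun τ => cWt h (θ n) τ) ?_ ?_ g hg τ'
    · intro τ
      refine ⟨⟨cWt h (θ n) 1, (h2 1).1⟩, rfl, ?_⟩
      have hm : cW h (θ n) ∈ D := by rw [h1]; exact (h2 1).1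
      have := h3 τ hm
      have he : (⟨cWt h (θ n) 1, (h2 1).1⟩ : D) = ⟨cW h (θ n), hm⟩ := Subtype.ext h1.symm
      rw [he]; exact this
    · intro τ
      obtain ⟨S, hS1, hS2, hS3⟩ := hCX A B hS.case.toCQ hT (p * f) ι R (lvX p f n) hl0
        (fun i => hcop _ (R.cop i)) hl2 (aX p f) H (by unfold aX; omega) hac hth.half (θ n)
        (hth.pt n) D h hD τ
      refine ⟨S, ⟨fun q hq => (hS1 q).2 (Or.inl hq), fun q hq => (hS1 q).1 hq, hS2⟩, hS3⟩

theorem tz_INP (hLV : Sz_LVX) (hLF : Sz_LVF) (hTH : Sz_THN) (hIW : Sz_INW) (hME : Sy_MEM)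
    (hCX : Sy_CXS) (hEW : MUXE.Sxe_EW) (hI3 : MUXI.Si_I3) (hRX : MUXY.Sy_REX)
    (hCP : MUXY.Sy_CPD) (hRN : MUXE.Sxe_RNG)
    (p : ℕ) (A B : ℤ) (V : ValuationSubring ℂ) (hT : TorX A B)
    (hE : ∀ P : Ideal (OO A B), CaseP p A B → IsPN p P → OverI V P → MUXE.RedE p P V) :
    InpAll p A B V := by
  intro P f hS K₀ K Bn _ _ _ hX hK hH hk hk₀ hkK
  have hp : p.Prime := by
    rcases hS.case.split with h | h <;> rw [h.1] <;> decide
  have : Fact p.Prime := ⟨hp⟩
  have hCQ : CQ A B := hS.case.toCQ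
  obtain ⟨hd3, hd4⟩ := hCP p A B hS.case
  obtain ⟨ι, hι, ⟨R⟩⟩ := hRX A B hCQ hd3 hd4 (p * f) (Nat.mul_ne_zero hp.ne_zero hS.f0)
  have hodd := (hLV p A B P V f hS 0).2.2.2.2.2.1
  obtain ⟨H, hHalf, hθ⟩ := hTH A B hCQ hT (p * f) ι R (aX p f) hodd
  have hθ' : ∀ n : ℕ, ∃ θ : (RF (idl (A := A) (B := B) (lvX p f n)) :
      IntermediateField (kk A B) ℂ),
      (θ : ℂ) = ThetaH (R.L R.i0) (H R.i0) (pt R (lvX p f n) R.i0 1) ∧
      (θ : ℂ) = ThetaH (R.L R.i0) (H R.i0) (R.om R.i0 / emb ((lvX p f n : ℕ) : OO A B)) ∧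
      θ ≠ 0 := fun n =>
    hθ (lvX p f n) (hLV p A B P V f hS n).1 (hLV p A B P V f hS n).2.2.2.2.1
      (hLV p A B P V f hS n).2.2.2.2.2.2.1
  choose θ hθ1 hθ2 hθ3 using hθ'
  have hth : ThN p f R H θ := ⟨hHalf, hθ1, hθ2, hθ3⟩
  obtain ⟨S, hW⟩ := hIW p A B P V f hS hT ι R H θ hth K₀ K Bn hX hK hH hk hk₀
  obtain ⟨hmu, c, hc, hEW'⟩ := hEW p A B P V f hS (hRN A B hCQ) (hE P hS.case hS.hP hS.hV) hT ι R
  have hNL : NLex A B := ⟨_, _, _, R.nl R.i0⟩
  have hK₀ : ∀ y ∈ K₀, y ∈ RF (idl (A := A) (B := B) (lvX p f 0)) := fun y hy => hK y (hX.le hy)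
  have : FiniteDimensional ℚ K₀ := FiniteDimensional.of_injective (IntermediateField.inclusion hX.le).toLinearMap
    (IntermediateField.inclusion hX.le).injective
  have : ∀ n, FiniteDimensional ℚ ↥(K₀ ⊔ Bn n) := fun n =>
    FiniteDimensional.of_injective (IntermediateField.inclusion (sup_le_sup_right hX.le (Bn n))).toLinearMap
      (IntermediateField.inclusion (sup_le_sup_right hX.le (Bn n))).injective
  have hDn : ∀ n, ∀ y ∈ K₀ ⊔ Bn n, y ∈ RF (idl (A := A) (B := B) (lvX p f n)) := fun n =>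
    hLF p A B hS.case hT hNL f hS.f0 K₀ hK₀ n (Bn n) (hX.b0.lay n)
  refine ⟨S, fun n => cW (hk n) (θ n), fun n => cW (hk₀ n) (θ n), 0, ?_⟩
  have hi3 := hI3 p A B P V f hS hT ι R hmu c hc K₀ Bn hX.b0 hX.cop hK₀ hk₀ hkK
    (fun n τ => cWt (hk₀ n) (θ n) τ)
    (fun n hn => eInp hME hCX hS hT hLV R c hth hEW' n hn (K₀ ⊔ Bn n) (hk₀ n) (hDn n))
    (fun n => cW (hk₀ n) (θ n)) hW.mem₀ ?_
  · exact ⟨hW.mem, hW.ne, hW.mem₀, hW.norm, hW.prime, hW.su, hW.nrm, hW.kol, hi3⟩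
  · intro n _
    have hb : (idl (A := A) (B := B) (lvX p f n)) ≠ ⊥ := by
      intro hh
      apply (hLV p A B P V f hS n).1
      have := (Ideal.span_singleton_eq_bot.mp hh)
      exact_mod_cast (by
        have h1 := congrArg (fun x : OO A B => x.re) this
        simpa using h1 : ((lvX p f n : ℕ) : ℤ) = 0)
    exact (hME A B _ (hT.fin _ hb) (hT.gal _ hb) (hT.comm _ hb) _ (hk₀ n) (hDn n) (θ n)
      (hth.ne n)).1

end Pool.Agent.MUXZ


end
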