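import Mathlib
import Pool.Agent.MVF.C059
import Pool.Agent.MVF.C080
import Pool.Agent.MVF.C084
import Pool.Agent.MVF.C087
import Pool.Agent.MVF.C095

/-! Parts: MUX.XK2, ME.X.XK2, MUX.XK3, ME.X.XK3, MUX.XK4, MUX.XK0, MUX.W_KOL, VB.V_INA, VB.V_DLB -/

section

/-!
# MUX, block W, for (KOL): lattice facts, residue field of `lam`, values of `Θ_a`, norms (helper59)
-/

set_option autoImplicit false

open WeierstrassCurve Polynomial NumberField IsDedekindDomain

namespace Pool.Agent.MUXW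

open _root_.MU3 _root_.Pool.Agent.MU3A _root_.Pool.Agent.MU3B _root_.Pool.Agent.MU3C _root_.Pool.Agent.RI
open _root_.Pool.Agent.MUX _root_.Pool.Agent.MUXU
open _root_.Pool.Agent.MU3V (cls Sub GD algDF towDF rsHom rsHom_apply rsHom_mem rsHom_surj rsHom_inj
  mem_GD rd rd_cls cls_eq_iff cls_mul cls_one cls_out isUnit_cls coprime_of_isUnit)
open _root_.Pool.Agent.MUXV (GR InK tX CMO Ovr)

noncomputable section

variable {A B : ℤ}

lemma kx_cq (h : CQ A B) : Pool.Agent.MUXF.CQ A B := ⟨h.hB, h.neg, h.fund1, h.fund0⟩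

section
variable (h : CQ A B)
include h

lemma kx_mul (x y : OO A B) : emb (x * y) = emb x * emb y :=
  (MUXV.q_EMB A B (kx_cq h)).1 x y
lemma kx_add (x y : OO A B) : emb (x + y) = emb x + emb y :=
  (MUXV.q_EMB A B (kx_cq h)).2.1 x y
lemma kx_sub (x y : OO A B) : emb (x - y) = emb x - emb y :=
  (MUXV.q_EMB A B (kx_cq h)).2.2.1 x y
lemma kx_int (n : ℤ) : emb (n : OO A B) = n := (MUXV.q_EMB A B (kx_cq h)).2.2.2.1 n
lemma kx_zero : emb (0 : OO A B) = 0 := by simpa using kx_int h 0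
lemma kx_one : emb (1 : OO A B) = 1 := by simpa using kx_int h 1
lemma kx_neg (x : OO A B) : emb (-x) = -emb x := by
  have := kx_sub h 0 x
  rwa [kx_zero h, zero_sub, zero_sub] at this
lemma kx_inj {x y : OO A B} (e : emb x = emb y) : x = y :=
  (MUXV.q_EMB A B (kx_cq h)).2.2.2.2.2.1 x y e
lemma kx_ne {x : OO A B} (hx : x ≠ 0) : emb x ≠ 0 := fun e =>
  hx (kx_inj h (by rw [e, kx_zero h]))
lemma kx_dom : IsDomain (OO A B) := (MUXV.q_EMB A B (kx_cq h)).2.2.2.2.2.2.2.2.2.2.2.2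
lemma kx_star (x : OO A B) : x * star x = ((nm x : ℤ) : OO A B) :=
  (MUXV.q_EMB A B (kx_cq h)).2.2.2.2.2.2.2.2.1 x
lemma kx_nmul (x y : OO A B) : nm (x * y) = nm x * nm y :=
  (MUXV.q_EMB A B (kx_cq h)).2.2.2.2.2.2.2.2.2.1 x y
lemma kx_nnn (x : OO A B) : 0 ≤ nm x := (MUXV.q_EMB A B (kx_cq h)).2.2.2.2.2.2.2.2.2.2.1 x
lemma kx_n0 (x : OO A B) : nm x = 0 ↔ x = 0 :=
  (MUXV.q_EMB A B (kx_cq h)).2.2.2.2.2.2.2.2.2.2.2.1 x

end

/-! ### The lattice `Om O` -/

section
variable (h : CQ A B) {L : PeriodPair} {Om : ℂ} (hL : IsNL (⊤ : Ideal (OO A B)) L Om)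
include hL

lemma kx_mem {z : ℂ} : z ∈ L.lattice ↔ ∃ y : OO A B, z = Om * emb y :=
  (hL.mem z).trans ⟨fun ⟨y, _, hy⟩ => ⟨y, hy⟩, fun ⟨y, hy⟩ => ⟨y, Submodule.mem_top, hy⟩⟩

include h

lemma kx_cmo : CMO A B L := by
  intro x z hz
  obtain ⟨y, rfl⟩ := (kx_mem hL).1 hz
  exact (kx_mem hL).2 ⟨x * y, by rw [kx_mul h]; ring⟩

lemma kx_div {m : OO A B} (hm : m ≠ 0) (x : OO A B) : emb x * (Om / emb m) ∈ L.lattice ↔ m ∣ x := by
  have hm0 := kx_ne h hm
  have hOm := hL.om_ne
  rw [kx_mem hL]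
  constructor
  · rintro ⟨y, hy⟩
    refine ⟨y, kx_inj h ?_⟩
    rw [kx_mul h]
    field_simp at hy
    exact hy
  · rintro ⟨y, rfl⟩
    refine ⟨y, ?_⟩
    rw [kx_mul h]
    field_simp

lemma kx_divsub {m : OO A B} (hm : m ≠ 0) (x y : OO A B) :
    emb x * (Om / emb m) - emb y * (Om / emb m) ∈ L.lattice ↔ m ∣ x - y := by
  rw [← sub_mul, ← kx_sub h]
  exact kx_div h hL hm _

lemma kx_tors {m : OO A B} (hm : m ≠ 0) (x : OO A B) :
    emb m * (emb x * (Om / emb m)) ∈ L.lattice := by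
  have hm0 := kx_ne h hm
  refine (kx_mem hL).2 ⟨x, ?_⟩
  field_simp

lemma kx_torsN {m lam : OO A B} (hm : m ≠ 0) (hlam : lam ≠ 0) (s t : OO A B) :
    emb (m * lam) * (emb s * (Om / emb m) + emb t * (Om / emb lam)) ∈ L.lattice := by
  have hm0 := kx_ne h hm
  have hl0 := kx_ne h hlam
  refine (kx_mem hL).2 ⟨lam * s + m * t, ?_⟩
  rw [kx_add h, kx_mul h, kx_mul h, kx_mul h]
  field_simp

lemma kx_notMem {m : OO A B} (hm : m ≠ 0) (hmu : ¬ IsUnit m) {x : OO A B} (hx : IsCoprime x m) :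
    emb x * (Om / emb m) ∉ L.lattice := by
  rw [kx_div h hL hm]
  intro hd
  exact hmu (hx.symm.isUnit_of_dvd' dvd_rfl hd)

lemma kx_notMem2 {m lam : OO A B} (hm : m ≠ 0) (hlam : lam ≠ 0) (hcop : IsCoprime m lam)
    (hu : ¬ IsUnit lam) (s t : OO A B) (ht : IsCoprime t lam) :
    emb s * (Om / emb m) + emb t * (Om / emb lam) ∉ L.lattice := by
  intro hz
  have h1 := kx_cmo h hL m _ hz
  have hm0 := kx_ne h hm
  have h2 : emb m * (emb s * (Om / emb m) + emb t * (Om / emb lam)) =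
      Om * emb s + emb (m * t) * (Om / emb lam) := by
    rw [kx_mul h]; field_simp
  rw [h2] at h1
  have h3 : Om * emb s ∈ L.lattice := (kx_mem hL).2 ⟨s, rfl⟩
  have h4 := sub_mem h1 h3
  rw [add_sub_cancel_left] at h4
  have h5 := (kx_div h hL hlam (m * t)).1 h4
  exact hu ((hcop.mul_left ht).symm.isUnit_of_dvd' dvd_rfl h5)

omit h in
lemma kx_tcong {a : ℤ} {H : Finset ℂ} (hH : IsHalf L a H) {z z' : ℂ} (hz : z - z' ∈ L.lattice) :
    ThetaH L H z = ThetaH L H z' := by
  have := (b_TIN L a H H hH hH).2.2 z' (z - z') hz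
  rwa [add_sub_cancel] at this

end

/-! ### The residue field of `lam` -/

lemma kx_units (h : CQ A B) {lam : OO A B} {q : ℕ} (hq : q.Prime) (hlam : nm lam = q) :
    IsField (OO A B ⧸ Ideal.span {lam}) ∧ Finite (OO A B ⧸ Ideal.span {lam}) ∧
    IsCyclic (OO A B ⧸ Ideal.span {lam})ˣ ∧ Nat.card (OO A B ⧸ Ideal.span {lam})ˣ = q - 1 := by
  obtain ⟨hcard, hmax, -⟩ := MUXV.q_DGL A B (kx_cq h) lam q hq hlam
  have hfin : Finite (OO A B ⧸ Ideal.span {lam}) := by
    apply Nat.finite_of_card_ne_zero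
    rw [hcard]
    exact hq.ne_zero
  letI := Ideal.Quotient.field (Ideal.span {lam})
  refine ⟨Field.toIsField _, hfin, inferInstance, ?_⟩
  have := Nat.card_units (OO A B ⧸ Ideal.span {lam})
  rw [this, hcard]

/-! ### Values of `Θ_a` -/

section
variable (h : CQ A B) {L : PeriodPair} {Om : ℂ} (hL : IsNL (⊤ : Ideal (OO A B)) L Om)
  {m lam : OO A B} (hm : m ≠ 0) (hlam : lam ≠ 0) (hcop : IsCoprime m lam) (hu : ¬ IsUnit lam)
  {a : ℤ} {H : Finset ℂ} (hH : IsHalf L a H)

include h hL hm hlam hH in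
/-- Galois action on a value of `Θ_a` -/
lemma kx_sigma (hTHG : Sy_THG) (T : TorX A B) [IsDomain (OO A B)] (ha : a ≠ 0) (s t : OO A B)
    (hz : emb s * (Om / emb m) + emb t * (Om / emb lam) ∉ L.lattice)
    (σ : (RF (sp (m * lam)) : IntermediateField (kk A B) ℂ) ≃ₐ[kk A B] RF (sp (m * lam)))
    {x y r : OO A B} (hx : ActH σ (m * lam) x) (hy : m ∣ x - y) (hr : lam ∣ x - r)
    (hmem : ThetaH L H (emb s * (Om / emb m) + emb t * (Om / emb lam)) ∈
      (RF (sp (m * lam)) : IntermediateField (kk A B) ℂ)) :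
    ((σ ⟨_, hmem⟩ : (RF (sp (m * lam)) : IntermediateField (kk A B) ℂ)) : ℂ) =
      ThetaH L H (emb (s * y) * (Om / emb m) + emb (t * r) * (Om / emb lam)) := by
  have hN : m * lam ≠ 0 := mul_ne_zero hm hlam
  obtain ⟨hk, hxx, hz1, -, hz2⟩ := hTHG A B h T ⊤ L Om hL (m * lam) hN a H ha hH _
    (kx_torsN h hL hm hlam s t) hz
  have e1 : ((σ ⟨_, hmem⟩ : (RF (sp (m * lam)) : IntermediateField (kk A B) ℂ)) : ℂ) =
      ThetaH L H (emb x * (emb s * (Om / emb m) + emb t * (Om / emb lam))) := hz2 σ x hx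
  rw [e1]
  refine kx_tcong hL hH ?_
  have d1 : m ∣ x * s - s * y := by
    have h2 := hy.mul_left s
    rwa [mul_sub, mul_comm s x] at h2
  have d2 : lam ∣ x * t - t * r := by
    have h2 := hr.mul_left t
    rwa [mul_sub, mul_comm t x] at h2
  have m1 := (kx_divsub h hL hm _ _).2 d1
  have m2 := (kx_divsub h hL hlam _ _).2 d2
  have := add_mem m1 m2
  convert this using 1
  rw [kx_mul h x s, kx_mul h x t]
  ring

/-! ### The fibre product -/

include h hL hm hlam hcop hH in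
lemma kx_fibre (hDIS : Sy_DIS) (T : TorX A B) (ha : a ≠ 0) (hcl : IsCoprime (a : OO A B) lam)
    (hcm : IsCoprime (a : OO A B) m) (hmu : ¬ IsUnit m)
    (hf : IsField (OO A B ⧸ Ideal.span {lam})) [Finite (OO A B ⧸ Ideal.span {lam})] :
    ∃ C ∈ (RF (⊤ : Ideal (OO A B)) : IntermediateField (kk A B) ℂ), C ≠ 0 ∧
      ∀ y : OO A B, IsCoprime y m →
      (∏ᶠ r : (OO A B ⧸ Ideal.span {lam})ˣ, ThetaH L H (emb y * (Om / emb m) +
        emb (Quotient.out (r : OO A B ⧸ Ideal.span {lam})) * (Om / emb lam))) *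
          ThetaH L H (emb y * (Om / emb m)) =
        C * ThetaH L H (emb (lam * y) * (Om / emb m)) := by
  classical
  obtain ⟨C, hC, hC0, hC2⟩ := hDIS A B h T L Om hL lam hlam a H ha hcl hH
  refine ⟨C, hC, hC0, fun y hy => ?_⟩
  set z := emb y * (Om / emb m) with hz
  have hz1 : emb lam * a * z ∉ L.lattice := by
    have e : emb lam * a * z = emb (lam * (a : OO A B) * y) * (Om / emb m) := by
      rw [kx_mul h, kx_mul h, kx_int h, hz]; ring
    rw [e, kx_div h hL hm]
    intro hd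
    have c1 : IsCoprime (lam * (a : OO A B) * y) m := (hcop.symm.mul_left hcm).mul_left hy
    exact hmu (c1.symm.isUnit_of_dvd' dvd_rfl hd)
  have e2 := hC2 z hz1
  have e3 : emb (lam * y) * (Om / emb m) = emb lam * z := by rw [kx_mul h, hz]; ring
  rw [e3, ← e2]
  have : Fintype (OO A B ⧸ Ideal.span {lam}) := Fintype.ofFinite _
  have : Fintype (OO A B ⧸ Ideal.span {lam})ˣ := Fintype.ofFinite _
  rw [finprod_eq_prod_of_fintype, finprod_eq_prod_of_fintype]
  set F : (OO A B ⧸ Ideal.span {lam}) → ℂ := fun t =>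
    ThetaH L H (z + emb (Quotient.out t) * (Om / emb lam)) with hF
  have f0 : F 0 = ThetaH L H z := by
    refine kx_tcong hL hH ?_
    rw [add_sub_cancel_left, kx_div h hL hlam]
    have : cls lam (Quotient.out (0 : OO A B ⧸ Ideal.span {lam})) = cls lam 0 := by
      rw [cls_out]; unfold cls; exact (map_zero _).symm
    rw [cls_eq_iff, sub_zero] at this
    exact this
  have e4 : ∏ t, F t = (∏ r : (OO A B ⧸ Ideal.span {lam})ˣ, F (r : OO A B ⧸ Ideal.span {lam})) * F 0 := by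
    rw [← Finset.prod_erase_mul Finset.univ F (Finset.mem_univ 0)]
    congr 1
    refine (Finset.prod_bij (fun (r : (OO A B ⧸ Ideal.span {lam})ˣ) _ =>
      (r : OO A B ⧸ Ideal.span {lam})) ?_ ?_ ?_ ?_).symm
    · intro r _
      rw [Finset.mem_erase]
      refine ⟨fun h0 => ?_, Finset.mem_univ _⟩
      obtain ⟨x, y, hxy⟩ := hf.exists_pair_ne
      have h1 := r.mul_inv
      rw [h0, zero_mul] at h1
      exact hxy (by rw [← one_mul x, ← h1, zero_mul, ← one_mul y, ← h1, zero_mul])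
    · intro r _ s _ e
      exact Units.ext e
    · intro t ht
      obtain ⟨s, hs⟩ := hf.mul_inv_cancel (Finset.ne_of_mem_erase ht)
      exact ⟨⟨t, s, hs, by rw [mul_comm]; exact hs⟩, Finset.mem_univ _, rfl⟩
    · intro r _; rfl
  rw [← f0]
  exact e4.symm

include h hL hm hlam hcop hH in
/-- the norm of `Θ_a(u + u')` is in the Hilbert class field -/
theorem kx_norm (hACM : Sy_ACM) (hDIS : Sy_DIS) (T : TorX A B)
    (ha : a ≠ 0) (hcl : IsCoprime (a : OO A B) lam)
    (hcm : IsCoprime (a : OO A B) m) (hmu : ¬ IsUnit m)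
    (hf : IsField (OO A B ⧸ Ideal.span {lam})) [Finite (OO A B ⧸ Ideal.span {lam})]
    {D : IntermediateField ℚ ℂ} (hk : kk A B ≤ D)
    [Finite (GD hk (RF (sp m) : IntermediateField (kk A B) ℂ))]
    {xs : GD hk (RF (sp m) : IntermediateField (kk A B) ℂ) → OO A B}
    (hxs : ∀ s : GD hk (RF (sp m) : IntermediateField (kk A B) ℂ),
      ActH (s : (RF (sp m) : IntermediateField (kk A B) ℂ) ≃ₐ[kk A B] RF (sp m)) m (xs s))
    (hfrob : ∃ σ ∈ GD hk (RF (sp m) : IntermediateField (kk A B) ℂ), ActH σ m lam) :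
    ∃ C ∈ (RF (⊤ : Ideal (OO A B)) : IntermediateField (kk A B) ℂ), C ≠ 0 ∧
      (∏ᶠ s : GD hk (RF (sp m) : IntermediateField (kk A B) ℂ),
      ∏ᶠ r : (OO A B ⧸ Ideal.span {lam})ˣ,
        ThetaH L H (emb (xs s) * (Om / emb m) +
        emb (Quotient.out (r : OO A B ⧸ Ideal.span {lam})) * (Om / emb lam))) = C := by
  classical
  obtain ⟨C, hC, hC0, hfib⟩ := kx_fibre h hL hm hlam hcop hH hDIS T ha hcl hcm hmu hf
  have : Fintype (GD hk (RF (sp m) : IntermediateField (kk A B) ℂ)) := Fintype.ofFinite _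
  let X := GD hk (RF (sp m) : IntermediateField (kk A B) ℂ)
  have hxs' : ∀ s : X, IsCoprime (xs s) m := fun s => (hxs s).cop
  obtain ⟨d1, d2, d3, d4, d5, d6, d7, d8⟩ := hACM A B h L Om hL m hm
  set g : X → ℂ := fun y => ThetaH L H (emb (xs y) * (Om / emb m)) with hg
  set g' : X → ℂ := fun y => ThetaH L H (emb (lam * xs y) * (Om / emb m)) with hg'
  have hg0 : ∀ y : X, g y ≠ 0 := by
    intro y h0
    have hz : emb (xs y) * (Om / emb m) ∉ L.lattice := kx_notMem h hL hm hmu (hxs y).cop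
    have h1 := (b_TNZ L a H (fun w hw => by
      have := kx_cmo h hL (a : OO A B) w hw
      rwa [kx_int h] at this) hH _ hz).1 h0
    have e : (a : ℂ) * (emb (xs y) * (Om / emb m)) =
        emb ((a : OO A B) * xs y) * (Om / emb m) := by
      rw [kx_mul h, kx_int h]; ring
    rw [e, kx_div h hL hm] at h1
    exact hmu ((hcm.mul_left (hxs y).cop).symm.isUnit_of_dvd' dvd_rfl h1)
  -- the permutation
  have hperm : ∏ y, g' y = ∏ y, g y := by
    obtain ⟨σ, hσ, hσ1⟩ := hfrob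
    let T' : X ≃ X := Equiv.mulLeft (⟨σ, hσ⟩ : X)
    rw [← Equiv.prod_comp T' g]
    refine Finset.prod_congr rfl fun y _ => ?_
    have a1 : ActH ((T' y : X) : (RF (sp m) : IntermediateField (kk A B) ℂ) ≃ₐ[kk A B] RF (sp m)) m
        (lam * xs y) := d4 _ _ _ _ _ le_rfl hσ1 (hxs y)
    have hev := (b_TIN L a H H hH hH).2.1
    rcases d1 _ _ _ _ le_rfl a1 (hxs (T' y)) with e | e
    · refine kx_tcong hL hH ?_
      rwa [kx_divsub h hL hm]
    · show ThetaH L H _ = ThetaH L H _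
      rw [← hev (emb (xs (T' y)) * (Om / emb m)), ← neg_mul, ← kx_neg h]
      refine kx_tcong hL hH ?_
      rw [kx_divsub h hL hm, sub_neg_eq_add]
      exact e
  set f : X → ℂ := fun y => ∏ᶠ r : (OO A B ⧸ Ideal.span {lam})ˣ,
        ThetaH L H (emb (xs y) * (Om / emb m) +
        emb (Quotient.out (r : OO A B ⧸ Ideal.span {lam})) * (Om / emb lam)) with hfd
  have e1 : (∏ y, f y) * ∏ y, g y = C ^ Fintype.card X * ∏ y, g' y := by
    rw [← Finset.prod_mul_distrib, ← Finset.card_univ, ← Finset.prod_const,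
      ← Finset.prod_mul_distrib]
    exact Finset.prod_congr rfl fun y _ => hfib _ (hxs y).cop
  rw [hperm] at e1
  have e2 := mul_right_cancel₀ (Finset.prod_ne_zero_iff.2 fun y _ => hg0 y) e1
  refine ⟨C ^ Fintype.card X, pow_mem hC _, pow_ne_zero _ hC0, ?_⟩
  rw [finprod_eq_prod_of_fintype]
  exact e2

end

end

end Pool.Agent.MUXW


end

section

/-!
# MUX, block W, for (KOL): lattice facts, residue field of `lam`, values of `Θ_a`, norms (helper59)
-/

set_option autoImplicit false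

open WeierstrassCurve Polynomial NumberField IsDedekindDomain

namespace Pool.Agent.MUXW

open _root_.MU3 _root_.Pool.Agent.MU3A _root_.Pool.Agent.MU3B _root_.Pool.Agent.MU3C _root_.Pool.Agent.RI
open _root_.Pool.Agent.MUX _root_.Pool.Agent.ME _root_.Pool.Agent.MUXU
open _root_.Pool.Agent.MU3V (cls Sub GD algDF towDF rsHom rsHom_apply rsHom_mem rsHom_surj rsHom_inj
  mem_GD rd rd_cls cls_eq_iff cls_mul cls_one cls_out isUnit_cls coprime_of_isUnit)
open _root_.Pool.Agent.MUXV (GR InK tX CMO Ovr)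

noncomputable section

variable {A B : ℤ}

/-! ### The lattice `Om O` -/

section
variable (h : CaseE A B) {L : PeriodPair} {Om : ℂ} (hL : IsNE (⊤ : Ideal (OO A B)) L Om)
include hL

lemma kx_mem_E {z : ℂ} : z ∈ L.lattice ↔ ∃ y : OO A B, z = Om * emb y :=
  (hL.mem z).trans ⟨fun ⟨y, _, hy⟩ => ⟨y, hy⟩, fun ⟨y, hy⟩ => ⟨y, Submodule.mem_top, hy⟩⟩

include h

lemma kx_cmo_E : CMO A B L := by
  intro x z hz
  obtain ⟨y, rfl⟩ := (kx_mem_E hL).1 hz
  exact (kx_mem_E hL).2 ⟨x * y, by rw [kx_mul h]; ring⟩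

lemma kx_div_E {m : OO A B} (hm : m ≠ 0) (x : OO A B) : emb x * (Om / emb m) ∈ L.lattice ↔ m ∣ x := by
  have hm0 := kx_ne h hm
  have hOm := hL.om_ne
  rw [kx_mem_E hL]
  constructor
  · rintro ⟨y, hy⟩
    refine ⟨y, kx_inj h ?_⟩
    rw [kx_mul h]
    field_simp at hy
    exact hy
  · rintro ⟨y, rfl⟩
    refine ⟨y, ?_⟩
    rw [kx_mul h]
    field_simp

lemma kx_divsub_E {m : OO A B} (hm : m ≠ 0) (x y : OO A B) :
    emb x * (Om / emb m) - emb y * (Om / emb m) ∈ L.lattice ↔ m ∣ x - y := by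
  rw [← sub_mul, ← kx_sub h]
  exact kx_div_E h hL hm _

lemma kx_tors_E {m : OO A B} (hm : m ≠ 0) (x : OO A B) :
    emb m * (emb x * (Om / emb m)) ∈ L.lattice := by
  have hm0 := kx_ne h hm
  refine (kx_mem_E hL).2 ⟨x, ?_⟩
  field_simp

lemma kx_torsN_E {m lam : OO A B} (hm : m ≠ 0) (hlam : lam ≠ 0) (s t : OO A B) :
    emb (m * lam) * (emb s * (Om / emb m) + emb t * (Om / emb lam)) ∈ L.lattice := by
  have hm0 := kx_ne h hm
  have hl0 := kx_ne h hlam
  refine (kx_mem_E hL).2 ⟨lam * s + m * t, ?_⟩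
  rw [kx_add h, kx_mul h, kx_mul h, kx_mul h]
  field_simp

lemma kx_notMem_E {m : OO A B} (hm : m ≠ 0) (hmu : ¬ IsUnit m) {x : OO A B} (hx : IsCoprime x m) :
    emb x * (Om / emb m) ∉ L.lattice := by
  rw [kx_div_E h hL hm]
  intro hd
  exact hmu (hx.symm.isUnit_of_dvd' dvd_rfl hd)

lemma kx_notMem2_E {m lam : OO A B} (hm : m ≠ 0) (hlam : lam ≠ 0) (hcop : IsCoprime m lam)
    (hu : ¬ IsUnit lam) (s t : OO A B) (ht : IsCoprime t lam) :
    emb s * (Om / emb m) + emb t * (Om / emb lam) ∉ L.lattice := by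
  intro hz
  have h1 := kx_cmo_E h hL m _ hz
  have hm0 := kx_ne h hm
  have h2 : emb m * (emb s * (Om / emb m) + emb t * (Om / emb lam)) =
      Om * emb s + emb (m * t) * (Om / emb lam) := by
    rw [kx_mul h]; field_simp
  rw [h2] at h1
  have h3 : Om * emb s ∈ L.lattice := (kx_mem_E hL).2 ⟨s, rfl⟩
  have h4 := sub_mem h1 h3
  rw [add_sub_cancel_left] at h4
  have h5 := (kx_div_E h hL hlam (m * t)).1 h4
  exact hu ((hcop.mul_left ht).symm.isUnit_of_dvd' dvd_rfl h5)

omit h in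
lemma kx_tcong_E {a : ℤ} {H : Finset ℂ} (hH : IsHalf L a H) {z z' : ℂ} (hz : z - z' ∈ L.lattice) :
    ThetaH L H z = ThetaH L H z' := by
  have := (b_TIN L a H H hH hH).2.2 z' (z - z') hz
  rwa [add_sub_cancel] at this

end

/-! ### Values of `Θ_a` -/

section
variable (h : CaseE A B) {L : PeriodPair} {Om : ℂ} (hL : IsNE (⊤ : Ideal (OO A B)) L Om)
  {m lam : OO A B} (hm : m ≠ 0) (hlam : lam ≠ 0) (hcop : IsCoprime m lam) (hu : ¬ IsUnit lam)
  {a : ℤ} {H : Finset ℂ} (hH : IsHalf L a H)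

include h hL hm hlam hH in
/-- Galois action on a value of `Θ_a` -/
lemma kx_sigma_E (hTHG : Sy_THG_E) (T : TorXE A B) [IsDomain (OO A B)] (ha : a ≠ 0) (s t : OO A B)
    (hz : emb s * (Om / emb m) + emb t * (Om / emb lam) ∉ L.lattice)
    (σ : (RFE (sp (m * lam)) : IntermediateField (kk A B) ℂ) ≃ₐ[kk A B] RFE (sp (m * lam)))
    {x y r : OO A B} (hx : ActH_E σ (m * lam) x) (hy : m ∣ x - y) (hr : lam ∣ x - r)
    (hmem : ThetaH L H (emb s * (Om / emb m) + emb t * (Om / emb lam)) ∈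
      (RFE (sp (m * lam)) : IntermediateField (kk A B) ℂ)) :
    ((σ ⟨_, hmem⟩ : (RFE (sp (m * lam)) : IntermediateField (kk A B) ℂ)) : ℂ) =
      ThetaH L H (emb (s * y) * (Om / emb m) + emb (t * r) * (Om / emb lam)) := by
  have hN : m * lam ≠ 0 := mul_ne_zero hm hlam
  obtain ⟨hk, hxx, hz1, -, hz2⟩ := hTHG A B h T ⊤ L Om hL (m * lam) hN a H ha hH _
    (kx_torsN_E h hL hm hlam s t) hz
  have e1 : ((σ ⟨_, hmem⟩ : (RFE (sp (m * lam)) : IntermediateField (kk A B) ℂ)) : ℂ) =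
      ThetaH L H (emb x * (emb s * (Om / emb m) + emb t * (Om / emb lam))) := hz2 σ x hx
  rw [e1]
  refine kx_tcong_E hL hH ?_
  have d1 : m ∣ x * s - s * y := by
    have h2 := hy.mul_left s
    rwa [mul_sub, mul_comm s x] at h2
  have d2 : lam ∣ x * t - t * r := by
    have h2 := hr.mul_left t
    rwa [mul_sub, mul_comm t x] at h2
  have m1 := (kx_divsub_E h hL hm _ _).2 d1
  have m2 := (kx_divsub_E h hL hlam _ _).2 d2
  have h9 := add_mem m1 m2
  have e : emb x * (emb s * (Om / emb m) + emb t * (Om / emb lam)) -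
      (emb (s * y) * (Om / emb m) + emb (t * r) * (Om / emb lam)) =
      emb (x * s) * (Om / emb m) - emb (s * y) * (Om / emb m) +
        (emb (x * t) * (Om / emb lam) - emb (t * r) * (Om / emb lam)) := by
    rw [kx_mul h x s, kx_mul h x t]
    ring
  rw [e]
  exact h9

/-! ### The fibre product -/

include h hL hm hlam hcop hH in
lemma kx_fibre_E (hDIS : Sy_DIS_E) (T : TorXE A B) (ha : a ≠ 0) (hcl : IsCoprime (a : OO A B) lam)
    (hcm : IsCoprime (a : OO A B) m) (hmu : ¬ IsUnit m)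
    (hf : IsField (OO A B ⧸ Ideal.span {lam})) [Finite (OO A B ⧸ Ideal.span {lam})] :
    ∃ C ∈ (RFE (⊤ : Ideal (OO A B)) : IntermediateField (kk A B) ℂ), C ≠ 0 ∧
      ∀ y : OO A B, IsCoprime y m →
      (∏ᶠ r : (OO A B ⧸ Ideal.span {lam})ˣ, ThetaH L H (emb y * (Om / emb m) +
        emb (Quotient.out (r : OO A B ⧸ Ideal.span {lam})) * (Om / emb lam))) *
          ThetaH L H (emb y * (Om / emb m)) =
        C * ThetaH L H (emb (lam * y) * (Om / emb m)) := by
  classical
  obtain ⟨C, hC, hC0, hC2⟩ := hDIS A B h T L Om hL lam hlam a H ha hcl hH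
  refine ⟨C, hC, hC0, fun y hy => ?_⟩
  set z := emb y * (Om / emb m) with hz
  have hz1 : emb lam * a * z ∉ L.lattice := by
    have e : emb lam * a * z = emb (lam * (a : OO A B) * y) * (Om / emb m) := by
      rw [kx_mul h, kx_mul h, kx_int h, hz]; ring
    rw [e, kx_div_E h hL hm]
    intro hd
    have c1 : IsCoprime (lam * (a : OO A B) * y) m := (hcop.symm.mul_left hcm).mul_left hy
    exact hmu (c1.symm.isUnit_of_dvd' dvd_rfl hd)
  have e2 := hC2 z hz1
  have e3 : emb (lam * y) * (Om / emb m) = emb lam * z := by rw [kx_mul h, hz]; ring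
  rw [e3, ← e2]
  have : Fintype (OO A B ⧸ Ideal.span {lam}) := Fintype.ofFinite _
  have : Fintype (OO A B ⧸ Ideal.span {lam})ˣ := Fintype.ofFinite _
  rw [finprod_eq_prod_of_fintype, finprod_eq_prod_of_fintype]
  set F : (OO A B ⧸ Ideal.span {lam}) → ℂ := fun t =>
    ThetaH L H (z + emb (Quotient.out t) * (Om / emb lam)) with hF
  have f0 : F 0 = ThetaH L H z := by
    refine kx_tcong_E hL hH ?_
    rw [add_sub_cancel_left, kx_div_E h hL hlam]
    have : cls lam (Quotient.out (0 : OO A B ⧸ Ideal.span {lam})) = cls lam 0 := by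
      rw [cls_out]; unfold cls; exact (map_zero _).symm
    rw [cls_eq_iff, sub_zero] at this
    exact this
  have e4 : ∏ t, F t = (∏ r : (OO A B ⧸ Ideal.span {lam})ˣ, F (r : OO A B ⧸ Ideal.span {lam})) * F 0 := by
    rw [← Finset.prod_erase_mul Finset.univ F (Finset.mem_univ 0)]
    congr 1
    refine (Finset.prod_bij (fun (r : (OO A B ⧸ Ideal.span {lam})ˣ) _ =>
      (r : OO A B ⧸ Ideal.span {lam})) ?_ ?_ ?_ ?_).symm
    · intro r _
      rw [Finset.mem_erase]
      refine ⟨fun h0 => ?_, Finset.mem_univ _⟩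
      obtain ⟨x, y, hxy⟩ := hf.exists_pair_ne
      have h1 := r.mul_inv
      rw [h0, zero_mul] at h1
      exact hxy (by rw [← one_mul x, ← h1, zero_mul, ← one_mul y, ← h1, zero_mul])
    · intro r _ s _ e
      exact Units.ext e
    · intro t ht
      obtain ⟨s, hs⟩ := hf.mul_inv_cancel (Finset.ne_of_mem_erase ht)
      exact ⟨⟨t, s, hs, by rw [mul_comm]; exact hs⟩, Finset.mem_univ _, rfl⟩
    · intro r _; rfl
  rw [← f0]
  exact e4.symm

include h hL hm hlam hcop hH in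
/-- the norm of `Θ_a(u + u')` is in the Hilbert class field -/
theorem kx_norm_E (hACM : Sy_ACM_E) (hDIS : Sy_DIS_E) (T : TorXE A B)
    (ha : a ≠ 0) (hcl : IsCoprime (a : OO A B) lam)
    (hcm : IsCoprime (a : OO A B) m) (hmu : ¬ IsUnit m)
    (hf : IsField (OO A B ⧸ Ideal.span {lam})) [Finite (OO A B ⧸ Ideal.span {lam})]
    {D : IntermediateField ℚ ℂ} (hk : kk A B ≤ D)
    [Finite (GD hk (RFE (sp m) : IntermediateField (kk A B) ℂ))]
    {xs : GD hk (RFE (sp m) : IntermediateField (kk A B) ℂ) → OO A B}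
    (hxs : ∀ s : GD hk (RFE (sp m) : IntermediateField (kk A B) ℂ),
      ActH_E (s : (RFE (sp m) : IntermediateField (kk A B) ℂ) ≃ₐ[kk A B] RFE (sp m)) m (xs s))
    (hfrob : ∃ σ ∈ GD hk (RFE (sp m) : IntermediateField (kk A B) ℂ), ActH_E σ m lam) :
    ∃ C ∈ (RFE (⊤ : Ideal (OO A B)) : IntermediateField (kk A B) ℂ), C ≠ 0 ∧
      (∏ᶠ s : GD hk (RFE (sp m) : IntermediateField (kk A B) ℂ),
      ∏ᶠ r : (OO A B ⧸ Ideal.span {lam})ˣ,
        ThetaH L H (emb (xs s) * (Om / emb m) +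
        emb (Quotient.out (r : OO A B ⧸ Ideal.span {lam})) * (Om / emb lam))) = C := by
  classical
  obtain ⟨C, hC, hC0, hfib⟩ := kx_fibre_E h hL hm hlam hcop hH hDIS T ha hcl hcm hmu hf
  have : Fintype (GD hk (RFE (sp m) : IntermediateField (kk A B) ℂ)) := Fintype.ofFinite _
  let X := GD hk (RFE (sp m) : IntermediateField (kk A B) ℂ)
  have hxs' : ∀ s : X, IsCoprime (xs s) m := fun s => (hxs s).cop
  obtain ⟨d1, d2, d3, d4, d5, d6, d7, d8⟩ := hACM A B h L Om hL m hm
  set g : X → ℂ := fun y => ThetaH L H (emb (xs y) * (Om / emb m)) with hg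
  set g' : X → ℂ := fun y => ThetaH L H (emb (lam * xs y) * (Om / emb m)) with hg'
  have hg0 : ∀ y : X, g y ≠ 0 := by
    intro y h0
    have hz : emb (xs y) * (Om / emb m) ∉ L.lattice := kx_notMem_E h hL hm hmu (hxs y).cop
    have h1 := (b_TNZ L a H (fun w hw => by
      have := kx_cmo_E h hL (a : OO A B) w hw
      rwa [kx_int h] at this) hH _ hz).1 h0
    have e : (a : ℂ) * (emb (xs y) * (Om / emb m)) =
        emb ((a : OO A B) * xs y) * (Om / emb m) := by
      rw [kx_mul h, kx_int h]; ring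
    rw [e, kx_div_E h hL hm] at h1
    exact hmu ((hcm.mul_left (hxs y).cop).symm.isUnit_of_dvd' dvd_rfl h1)
  -- the permutation
  have hperm : ∏ y, g' y = ∏ y, g y := by
    obtain ⟨σ, hσ, hσ1⟩ := hfrob
    let T' : X ≃ X := Equiv.mulLeft (⟨σ, hσ⟩ : X)
    rw [← Equiv.prod_comp T' g]
    refine Finset.prod_congr rfl fun y _ => ?_
    have a1 : ActH_E ((T' y : X) : (RFE (sp m) : IntermediateField (kk A B) ℂ) ≃ₐ[kk A B] RFE (sp m)) m
        (lam * xs y) := d4 _ _ _ _ _ le_rfl hσ1 (hxs y)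
    have hev := (b_TIN L a H H hH hH).2.1
    rcases d1 _ _ _ _ le_rfl a1 (hxs (T' y)) with e | e
    · refine kx_tcong_E hL hH ?_
      rwa [kx_divsub_E h hL hm]
    · show ThetaH L H _ = ThetaH L H _
      rw [← hev (emb (xs (T' y)) * (Om / emb m)), ← neg_mul, ← kx_neg h]
      refine kx_tcong_E hL hH ?_
      rw [kx_divsub_E h hL hm, sub_neg_eq_add]
      exact e
  set f : X → ℂ := fun y => ∏ᶠ r : (OO A B ⧸ Ideal.span {lam})ˣ,
        ThetaH L H (emb (xs y) * (Om / emb m) +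
        emb (Quotient.out (r : OO A B ⧸ Ideal.span {lam})) * (Om / emb lam)) with hfd
  have e1 : (∏ y, f y) * ∏ y, g y = C ^ Fintype.card X * ∏ y, g' y := by
    rw [← Finset.prod_mul_distrib, ← Finset.card_univ, ← Finset.prod_const,
      ← Finset.prod_mul_distrib]
    exact Finset.prod_congr rfl fun y _ => hfib _ (hxs y).cop
  rw [hperm] at e1
  have e2 := mul_right_cancel₀ (Finset.prod_ne_zero_iff.2 fun y _ => hg0 y) e1
  refine ⟨C ^ Fintype.card X, pow_mem hC _, pow_ne_zero _ hC0, ?_⟩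
  rw [finprod_eq_prod_of_fintype]
  exact e2

end

end

end Pool.Agent.MUXW


end

section

/-!
# MUX, block W, for (KOL): local facts at the places of good reduction (helper59)
-/

set_option autoImplicit false

open WeierstrassCurve Polynomial NumberField IsDedekindDomain

namespace Pool.Agent.MUXW

open _root_.MU3 _root_.Pool.Agent.MU3A _root_.Pool.Agent.MU3B _root_.Pool.Agent.MU3C _root_.Pool.Agent.RI
open _root_.Pool.Agent.MUX _root_.Pool.Agent.MUXU
open _root_.Pool.Agent.MU3V (cls Sub GD)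
open _root_.Pool.Agent.MUXV (GR InK tX CMO Ovr)

noncomputable section

variable {A B : ℤ}

/-- the coordinate `℘ - 1/12` -/
abbrev kX (L : PeriodPair) : ℂ → ℂ := fun z => L.weierstrassP z - 1 / 12

section
variable (h : CQ A B) {L : PeriodPair} {Om : ℂ} (hL : IsNL (⊤ : Ideal (OO A B)) L Om)
  {V : ValuationSubring ℂ} (hG : GRn V L) {m lam : OO A B} {q : ℕ} (hq : q.Prime) (hq2 : q ≠ 2)
  (hqD : ¬ (q : ℤ) ∣ B ^ 2 + 4 * A) (hnm : nm lam = q)

include h in
lemma kx_vle (V : ValuationSubring ℂ) (x : OO A B) : V.valuation (emb x) ≤ 1 :=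
  (MUXV.q_VQI A B (kx_cq h) V).1 x

include h hq hnm in
lemma kx_int1 (vl : V.valuation (emb lam) < 1) : V.valuation (q : ℂ) < 1 ∧
    (∀ s : ℤ, ¬ (q : ℤ) ∣ s → V.valuation (s : ℂ) = 1) ∧
    ∀ x : OO A B, ¬ lam ∣ x → V.valuation (emb x) = 1 := by
  have hO : Ovr (Ideal.span {lam}) V := by
    intro x hx
    obtain ⟨y, rfl⟩ := Ideal.mem_span_singleton.1 hx
    rw [kx_mul h, map_mul]
    exact mul_lt_one_of_lt_of_le vl (kx_vle h V y)
  obtain ⟨h1, h2, h3⟩ := (MUXV.q_VQI A B (kx_cq h) V).2 (Ideal.span {lam}) q hq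
    (MUXV.q_DGL A B (kx_cq h) lam q hq hnm).1 hO
  exact ⟨h1, h2, fun x hx => h3 x fun hx' => hx (Ideal.mem_span_singleton.1 hx')⟩

include h hL hG hq hq2 hqD hnm in
lemma kx_isoV (hlam : lam ≠ 0) :
    ∃ H : Finset ℂ, MUXV.IsoV V L L (1 / 12) (1 / 12) (emb lam) q H := by
  refine (MUXV.q_ISQ A B (kx_cq h) (Ideal.span {lam}) q hq hq2 hqD
    (MUXV.q_DGL A B (kx_cq h) lam q hq hnm).1 L L (1 / 12) (1 / 12) (emb lam) (kx_cmo h hL)
    ⟨kx_ne h hlam, ?_⟩ V hG hG).1
  intro z
  constructor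
  · intro hz x hx
    obtain ⟨y, rfl⟩ := Ideal.mem_span_singleton.1 hx
    rw [mul_comm lam y, kx_mul h, mul_assoc]
    exact kx_cmo h hL y _ hz
  · intro hz
    exact hz lam (Ideal.mem_span_singleton_self lam)

include h hL hG hq hq2 hqD hnm in
lemma kx_ker (hlam : lam ≠ 0) (vl : V.valuation (emb lam) < 1) {z : ℂ}
    (hz : emb lam * z ∈ L.lattice) : InK V L (kX L) z := by
  obtain ⟨H, hI⟩ := kx_isoV h hL hG hq hq2 hqD hnm hlam
  exact MUXV.x_R2 V L L _ _ _ q H hI vl z hz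

include h hL hG in
lemma kx_tor (vm : V.valuation ((nm m : ℤ) : ℂ) = 1) {z : ℂ} (hz : emb m * z ∈ L.lattice)
    (hz' : InK V L (kX L) z) : z ∈ L.lattice := by
  obtain ⟨W, ξ, G⟩ := hG
  exact MUXV.q_TOR A B (kx_cq h) V W L _ _ ξ G (kx_cmo h hL) m vm z hz hz'

include h hL hG hq hq2 hqD hnm in
/-- `E[m lam]` meets the kernel of reduction trivially where `lam` is a unit -/
lemma kx_torN (hlam : lam ≠ 0) (vm : V.valuation ((nm m : ℤ) : ℂ) = 1)
    (vl : V.valuation (emb lam) = 1) {z : ℂ} (hz : emb (m * lam) * z ∈ L.lattice)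
    (hz' : InK V L (kX L) z) : z ∈ L.lattice := by
  obtain ⟨H, hI⟩ := kx_isoV h hL hG hq hq2 hqD hnm hlam
  obtain ⟨W, ξ, G⟩ := hG
  obtain ⟨n, hn⟩ := Int.eq_ofNat_of_zero_le (kx_nnn h m)
  have vn : V.valuation (n : ℂ) = 1 := by rw [hn] at vm; simpa using vm
  have h1 : emb lam * ((n : ℂ) * z) ∈ L.lattice := by
    have e := congrArg emb (kx_star h m)
    rw [kx_mul h, kx_int h, hn, Int.cast_natCast] at e
    have e2 : emb lam * ((n : ℂ) * z) = emb (star m) * (emb (m * lam) * z) := by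
      rw [kx_mul h, ← e]; ring
    rw [e2]
    exact kx_cmo h hL _ _ hz
  have h2 := MUXV.x_INJ V L L _ _ _ q H hI vl _ h1 (MUXV.inK_nat G hz' n)
  exact MUXV.mem_of_nat_mul G hz' vn h2

include h hL hG hq hq2 hqD hnm in
/-- `Θ_a(u + u')` is a unit -/
lemma kx_unit (hm : m ≠ 0) (hlam : lam ≠ 0) (hcop : IsCoprime m lam) (hu : ¬ IsUnit lam)
    (hmu : ¬ IsUnit m) (vm : V.valuation ((nm m : ℤ) : ℂ) = 1) {a : ℤ} {H : Finset ℂ}
    (hH : IsHalf L a H) (va : V.valuation (a : ℂ) = 1) (hcm : IsCoprime (a : OO A B) m)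
    (hcl : IsCoprime (a : OO A B) lam) :
    V.valuation (ThetaH L H (emb (1 : OO A B) * (Om / emb m) +
      emb (1 : OO A B) * (Om / emb lam))) = 1 := by
  obtain ⟨W, ξ, G⟩ := id hG
  refine (MUXV.q_THU V L (1 / 12) W ξ G a H va hH).1 _ fun hE => ?_
  have e : (a : ℂ) * (emb (1 : OO A B) * (Om / emb m) + emb (1 : OO A B) * (Om / emb lam)) =
      emb (a : OO A B) * (Om / emb m) + emb (a : OO A B) * (Om / emb lam) := by
    rw [kx_one h, kx_int h]; ring
  rcases (kx_vle h V lam).lt_or_eq with vl | vl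
  · have h1 := kx_ker h hL hG hq hq2 hqD hnm hlam vl (kx_tors h hL hlam (a : OO A B))
    rw [e] at hE
    have h2 := MUXV.inK_sub G hE h1
    rw [add_sub_cancel_right] at h2
    exact kx_notMem h hL hm hmu hcm (kx_tor h hL hG vm (kx_tors h hL hm _) h2)
  · rw [e] at hE
    exact kx_notMem2 h hL hm hlam hcop hu _ _ hcl
      (kx_torN h hL hG hq hq2 hqD hnm hlam vm vl (kx_torsN h hL hm hlam _ _) hE)

include h hL hG hq hq2 hqD hnm in
/-- the congruence at the places above `lam` -/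
lemma kx_cong (hm : m ≠ 0) (hlam : lam ≠ 0)
    (hmu : ¬ IsUnit m) (vm : V.valuation ((nm m : ℤ) : ℂ) = 1) {a : ℤ} {H : Finset ℂ}
    (hH : IsHalf L a H) (va : V.valuation (a : ℂ) = 1) (vl : V.valuation (emb lam) < 1)
    {y r : OO A B} (hy : IsCoprime y m) :
    V.valuation (ThetaH L H (emb y * (Om / emb m))) ≤ 1 ∧
      V.valuation (ThetaH L H (emb y * (Om / emb m) + emb r * (Om / emb lam)) -
        ThetaH L H (emb y * (Om / emb m))) < 1 := by
  obtain ⟨W, ξ, G⟩ := id hG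
  refine (MUXV.q_THU V L (1 / 12) W ξ G a H va hH).2 _ _ (fun hE => ?_)
    (kx_ker h hL hG hq hq2 hqD hnm hlam vl (kx_tors h hL hlam _))
  exact kx_notMem h hL hm hmu hy (kx_tor h hL hG vm (kx_tors h hL hm _) hE)

include h hL hG hq hq2 hqD hnm in
/-- the element `x(u + u') - x(u)` at the places above `lam` -/
lemma kx_tra (hm : m ≠ 0) (hlam : lam ≠ 0) (hu : ¬ IsUnit lam)
    (hm2 : ¬ m ∣ 2) (vm : V.valuation ((nm m : ℤ) : ℂ) = 1) (vl : V.valuation (emb lam) < 1) :
    V.valuation (xn L (Om / emb m + Om / emb lam) - xn L (Om / emb m)) ^ (q - 1) =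
      V.valuation (emb lam) := by
  obtain ⟨H, hI⟩ := kx_isoV h hL hG hq hq2 hqD hnm hlam
  obtain ⟨W, ξ, G⟩ := id hG
  have e1 : ∀ {n : OO A B}, emb (1 : OO A B) * (Om / emb n) = Om / emb n := by
    intro n; rw [kx_one h, one_mul]
  have hul : Om / emb lam ∉ L.lattice := by
    have := kx_notMem h hL hlam hu (isCoprime_one_left (x := lam))
    rwa [e1] at this
  have hkl : emb lam * (Om / emb lam) ∈ L.lattice := by
    have := kx_tors h hL hlam (1 : OO A B)
    rwa [e1] at this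
  have hkm : emb m * (Om / emb m) ∈ L.lattice := by
    have := kx_tors h hL hm (1 : OO A B)
    rwa [e1] at this
  have hin := kx_ker h hL hG hq hq2 hqD hnm hlam vl hkl
  have h1 : ¬ InK V L (kX L) (Om / emb m) := by
    intro hE
    have h3 := kx_tor h hL hG vm hkm hE
    apply hm2
    have h4 : emb (2 : OO A B) * (Om / emb m) ∈ L.lattice := kx_cmo h hL 2 _ h3
    exact (kx_div h hL hm 2).1 h4
  have h2 : ¬ InK V L (kX L) (2 * (Om / emb m)) := by
    intro hE
    have e2 : emb (2 : OO A B) = 2 := by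
      have := kx_int h 2
      simpa using this
    have h3 := kx_tor h hL hG vm (by
      rw [mul_left_comm]
      have := kx_cmo h hL 2 _ hkm
      rwa [e2] at this) hE
    apply hm2
    rw [← kx_div h hL hm 2, e2]
    exact h3
  obtain ⟨-, h3⟩ := MUXV.q_YUN V W L _ _ ξ G _ h1 h2
  have h4 := h3 _ hin hul
  have h5 := MUXV.x_TRA V L L _ _ _ q H hI (kx_int1 h hq hnm vl).1 vl _ hkl hul
  obtain ⟨-, h6, h7⟩ := MUXV.v_tX_lt G hin hul
  have h8 : V.valuation (xn L (Om / emb m + Om / emb lam) - xn L (Om / emb m)) =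
      V.valuation (tX (kX L) (fun z => L.derivWeierstrassP z / 2) (Om / emb lam)) := h4
  rw [h8]
  set t := V.valuation (tX (kX L) (fun z => L.derivWeierstrassP z / 2) (Om / emb lam)) with ht
  set x := V.valuation (kX L (Om / emb lam)) with hx
  have hodd : q - 1 = 2 * ((q - 1) / 2) := by
    obtain ⟨j, hj⟩ := hq.odd_of_ne_two hq2
    omega
  have h9 : V.valuation (emb lam) * x ^ ((q - 1) / 2) = 1 := h5
  have h10 : x * t ^ 2 = 1 := h7
  have hx0 : x ^ ((q - 1) / 2) ≠ 0 := right_ne_zero_of_mul_eq_one h9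
  have h11 : t ^ (q - 1) * x ^ ((q - 1) / 2) = 1 := by
    conv_lhs => rw [hodd]
    rw [show 2 * ((q - 1) / 2) = 2 * ((q - 1) / 2) from rfl, pow_mul]
    have : (2 * ((q - 1) / 2)) / 2 = (q - 1) / 2 := by omega
    rw [this, ← mul_pow, mul_comm, h10, one_pow]
  exact mul_right_cancel₀ hx0 (h11.trans h9.symm)

end

end

end Pool.Agent.MUXW


end

section

/-!
# MUX, block W, for (KOL): local facts at the places of good reduction (helper59)
-/

set_option autoImplicit false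

open WeierstrassCurve Polynomial NumberField IsDedekindDomain

namespace Pool.Agent.MUXW

open _root_.MU3 _root_.Pool.Agent.MU3A _root_.Pool.Agent.MU3B _root_.Pool.Agent.MU3C _root_.Pool.Agent.RI
open _root_.Pool.Agent.MUX _root_.Pool.Agent.ME _root_.Pool.Agent.MUXU
open _root_.Pool.Agent.MU3V (cls Sub GD)
open _root_.Pool.Agent.MUXV (GR InK tX CMO Ovr)

noncomputable section

variable {A B : ℤ}

/-- the coordinate `℘`, as `℘ - 0` -/
abbrev kX_E (L : PeriodPair) : ℂ → ℂ := fun z => L.weierstrassP z - 0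

/-- good reduction, in the form of the general statements, `c = 0` -/
def GR0 (V : ValuationSubring ℂ) (L : PeriodPair) : Prop :=
  ∃ (W : WeierstrassCurve.Affine ℂ) (ξ : ℂ →+ W.Point),
    GR V W L (fun z => L.weierstrassP z - 0) (fun z => L.derivWeierstrassP z / 2) ξ

section
variable (h : CaseE A B) {L : PeriodPair} {Om : ℂ} (hL : IsNE (⊤ : Ideal (OO A B)) L Om)
  {V : ValuationSubring ℂ} (hG : GR0 V L) {m lam : OO A B} {q : ℕ} (hq : q.Prime) (hq2 : q ≠ 2)
  (hqD : ¬ (q : ℤ) ∣ B ^ 2 + 4 * A) (hnm : nm lam = q)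

include h hL hG hq hq2 hqD hnm in
lemma kx_isoV_E (hlam : lam ≠ 0) :
    ∃ H : Finset ℂ, MUXV.IsoV V L L 0 0 (emb lam) q H := by
  refine (MUXV.q_ISQ A B (kx_cq h) (Ideal.span {lam}) q hq hq2 hqD
    (MUXV.q_DGL A B (kx_cq h) lam q hq hnm).1 L L 0 0 (emb lam) (kx_cmo_E h hL)
    ⟨kx_ne h hlam, ?_⟩ V hG hG).1
  intro z
  constructor
  · intro hz x hx
    obtain ⟨y, rfl⟩ := Ideal.mem_span_singleton.1 hx
    rw [mul_comm lam y, kx_mul h, mul_assoc]
    exact kx_cmo_E h hL y _ hz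
  · intro hz
    exact hz lam (Ideal.mem_span_singleton_self lam)

include h hL hG hq hq2 hqD hnm in
lemma kx_ker_E (hlam : lam ≠ 0) (vl : V.valuation (emb lam) < 1) {z : ℂ}
    (hz : emb lam * z ∈ L.lattice) : InK V L (kX_E L) z := by
  obtain ⟨H, hI⟩ := kx_isoV_E h hL hG hq hq2 hqD hnm hlam
  exact MUXV.x_R2 V L L _ _ _ q H hI vl z hz

include h hL hG in
lemma kx_tor_E (vm : V.valuation ((nm m : ℤ) : ℂ) = 1) {z : ℂ} (hz : emb m * z ∈ L.lattice)
    (hz' : InK V L (kX_E L) z) : z ∈ L.lattice := by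
  obtain ⟨W, ξ, G⟩ := hG
  exact MUXV.q_TOR A B (kx_cq h) V W L _ _ ξ G (kx_cmo_E h hL) m vm z hz hz'

include h hL hG hq hq2 hqD hnm in
/-- `E[m lam]` meets the kernel of reduction trivially where `lam` is a unit -/
lemma kx_torN_E (hlam : lam ≠ 0) (vm : V.valuation ((nm m : ℤ) : ℂ) = 1)
    (vl : V.valuation (emb lam) = 1) {z : ℂ} (hz : emb (m * lam) * z ∈ L.lattice)
    (hz' : InK V L (kX_E L) z) : z ∈ L.lattice := by
  obtain ⟨H, hI⟩ := kx_isoV_E h hL hG hq hq2 hqD hnm hlam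
  obtain ⟨W, ξ, G⟩ := hG
  obtain ⟨n, hn⟩ := Int.eq_ofNat_of_zero_le (kx_nnn h m)
  have vn : V.valuation (n : ℂ) = 1 := by rw [hn] at vm; simpa using vm
  have h1 : emb lam * ((n : ℂ) * z) ∈ L.lattice := by
    have e := congrArg emb (kx_star h m)
    rw [kx_mul h, kx_int h, hn, Int.cast_natCast] at e
    have e2 : emb lam * ((n : ℂ) * z) = emb (star m) * (emb (m * lam) * z) := by
      rw [kx_mul h, ← e]; ring
    rw [e2]
    exact kx_cmo_E h hL _ _ hz
  have h2 := MUXV.x_INJ V L L _ _ _ q H hI vl _ h1 (MUXV.inK_nat G hz' n)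
  exact MUXV.mem_of_nat_mul G hz' vn h2

include h hL hG hq hq2 hqD hnm in
/-- `Θ_a(u + u')` is a unit -/
lemma kx_unit_E (hm : m ≠ 0) (hlam : lam ≠ 0) (hcop : IsCoprime m lam) (hu : ¬ IsUnit lam)
    (hmu : ¬ IsUnit m) (vm : V.valuation ((nm m : ℤ) : ℂ) = 1) {a : ℤ} {H : Finset ℂ}
    (hH : IsHalf L a H) (va : V.valuation (a : ℂ) = 1) (hcm : IsCoprime (a : OO A B) m)
    (hcl : IsCoprime (a : OO A B) lam) :
    V.valuation (ThetaH L H (emb (1 : OO A B) * (Om / emb m) +
      emb (1 : OO A B) * (Om / emb lam))) = 1 := by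
  obtain ⟨W, ξ, G⟩ := id hG
  refine (MUXV.q_THU V L 0 W ξ G a H va hH).1 _ fun hE => ?_
  have e : (a : ℂ) * (emb (1 : OO A B) * (Om / emb m) + emb (1 : OO A B) * (Om / emb lam)) =
      emb (a : OO A B) * (Om / emb m) + emb (a : OO A B) * (Om / emb lam) := by
    rw [kx_one h, kx_int h]; ring
  rcases (kx_vle h V lam).lt_or_eq with vl | vl
  · have h1 := kx_ker_E h hL hG hq hq2 hqD hnm hlam vl (kx_tors_E h hL hlam (a : OO A B))
    rw [e] at hE
    have h2 := MUXV.inK_sub G hE h1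
    rw [add_sub_cancel_right] at h2
    exact kx_notMem_E h hL hm hmu hcm (kx_tor_E h hL hG vm (kx_tors_E h hL hm _) h2)
  · rw [e] at hE
    exact kx_notMem2_E h hL hm hlam hcop hu _ _ hcl
      (kx_torN_E h hL hG hq hq2 hqD hnm hlam vm vl (kx_torsN_E h hL hm hlam _ _) hE)

include h hL hG hq hq2 hqD hnm in
/-- the congruence at the places above `lam` -/
lemma kx_cong_E (hm : m ≠ 0) (hlam : lam ≠ 0)
    (hmu : ¬ IsUnit m) (vm : V.valuation ((nm m : ℤ) : ℂ) = 1) {a : ℤ} {H : Finset ℂ}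
    (hH : IsHalf L a H) (va : V.valuation (a : ℂ) = 1) (vl : V.valuation (emb lam) < 1)
    {y r : OO A B} (hy : IsCoprime y m) :
    V.valuation (ThetaH L H (emb y * (Om / emb m))) ≤ 1 ∧
      V.valuation (ThetaH L H (emb y * (Om / emb m) + emb r * (Om / emb lam)) -
        ThetaH L H (emb y * (Om / emb m))) < 1 := by
  obtain ⟨W, ξ, G⟩ := id hG
  refine (MUXV.q_THU V L 0 W ξ G a H va hH).2 _ _ (fun hE => ?_)
    (kx_ker_E h hL hG hq hq2 hqD hnm hlam vl (kx_tors_E h hL hlam _))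
  exact kx_notMem_E h hL hm hmu hy (kx_tor_E h hL hG vm (kx_tors_E h hL hm _) hE)

include h hL hG hq hq2 hqD hnm in
/-- the element `x(u + u') - x(u)` at the places above `lam` -/
lemma kx_tra_E (hm : m ≠ 0) (hlam : lam ≠ 0) (hu : ¬ IsUnit lam)
    (hm2 : ¬ m ∣ 2) (vm : V.valuation ((nm m : ℤ) : ℂ) = 1) (vl : V.valuation (emb lam) < 1) :
    V.valuation (xnE L (Om / emb m + Om / emb lam) - xnE L (Om / emb m)) ^ (q - 1) =
      V.valuation (emb lam) := by
  obtain ⟨H, hI⟩ := kx_isoV_E h hL hG hq hq2 hqD hnm hlam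
  obtain ⟨W, ξ, G⟩ := id hG
  have e1 : ∀ {n : OO A B}, emb (1 : OO A B) * (Om / emb n) = Om / emb n := by
    intro n; rw [kx_one h, one_mul]
  have hul : Om / emb lam ∉ L.lattice := by
    have := kx_notMem_E h hL hlam hu (isCoprime_one_left (x := lam))
    rwa [e1] at this
  have hkl : emb lam * (Om / emb lam) ∈ L.lattice := by
    have := kx_tors_E h hL hlam (1 : OO A B)
    rwa [e1] at this
  have hkm : emb m * (Om / emb m) ∈ L.lattice := by
    have := kx_tors_E h hL hm (1 : OO A B)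
    rwa [e1] at this
  have hin := kx_ker_E h hL hG hq hq2 hqD hnm hlam vl hkl
  have h1 : ¬ InK V L (kX_E L) (Om / emb m) := by
    intro hE
    have h3 := kx_tor_E h hL hG vm hkm hE
    apply hm2
    have h4 : emb (2 : OO A B) * (Om / emb m) ∈ L.lattice := kx_cmo_E h hL 2 _ h3
    exact (kx_div_E h hL hm 2).1 h4
  have h2 : ¬ InK V L (kX_E L) (2 * (Om / emb m)) := by
    intro hE
    have e2 : emb (2 : OO A B) = 2 := by
      have := kx_int h.toCQ 2
      simpa using this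
    have h3 := kx_tor_E h hL hG vm (by
      rw [mul_left_comm]
      have := kx_cmo_E h hL 2 _ hkm
      rwa [e2] at this) hE
    apply hm2
    rw [← kx_div_E h hL hm 2, e2]
    exact h3
  obtain ⟨-, h3⟩ := MUXV.q_YUN V W L _ _ ξ G _ h1 h2
  have h4 := h3 _ hin hul
  have h5 := MUXV.x_TRA V L L _ _ _ q H hI (kx_int1 h hq hnm vl).1 vl _ hkl hul
  obtain ⟨-, h6, h7⟩ := MUXV.v_tX_lt G hin hul
  have h8 : V.valuation (xnE L (Om / emb m + Om / emb lam) - xnE L (Om / emb m)) =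
      V.valuation (tX (kX_E L) (fun z => L.derivWeierstrassP z / 2) (Om / emb lam)) := by
    rw [← h4, sub_zero, sub_zero]
    rfl
  rw [h8]
  set t := V.valuation (tX (kX_E L) (fun z => L.derivWeierstrassP z / 2) (Om / emb lam)) with ht
  set x := V.valuation (kX_E L (Om / emb lam)) with hx
  have hodd : q - 1 = 2 * ((q - 1) / 2) := by
    obtain ⟨j, hj⟩ := hq.odd_of_ne_two hq2
    omega
  have h9 : V.valuation (emb lam) * x ^ ((q - 1) / 2) = 1 := h5
  have h10 : x * t ^ 2 = 1 := h7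
  have hx0 : x ^ ((q - 1) / 2) ≠ 0 := right_ne_zero_of_mul_eq_one h9
  have h11 : t ^ (q - 1) * x ^ ((q - 1) / 2) = 1 := by
    conv_lhs => rw [hodd]
    rw [show 2 * ((q - 1) / 2) = 2 * ((q - 1) / 2) from rfl, pow_mul]
    have : (2 * ((q - 1) / 2)) / 2 = (q - 1) / 2 := by omega
    rw [this, ← mul_pow, mul_comm, h10, one_pow]
  exact mul_right_cancel₀ hx0 (h11.trans h9.symm)

end

end

end Pool.Agent.MUXW


end

section

/-!
# MUX, block W, for (KOL): a lower bound for the inertia group (helper59)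
-/

set_option autoImplicit false

open NumberField IsDedekindDomain

namespace Pool.Agent.MUXW

/-- the valuation of a generator of the prime of `k` below, if `v` is unramified over `k` -/
lemma kx_val_lam (k D : Type) [Field k] [NumberField k] [Field D] [NumberField D] [Algebra k D]
    (v : HeightOneSpectrum (𝓞 D)) (hr : v.asIdeal.ramificationIdx (𝓞 k) = 1) (l : 𝓞 k)
    (hl0 : l ≠ 0) (hl : v.asIdeal.under (𝓞 k) = Ideal.span {l}) :
    v.valuation D (algebraMap k D (l : k)) = WithZero.exp (-1 : ℤ) := by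
  have hwp : v.asIdeal.IsPrime := v.isPrime
  have hpp : (v.asIdeal.under (𝓞 k)).IsPrime := inferInstance
  have hpb : v.asIdeal.under (𝓞 k) ≠ ⊥ := by
    rw [hl]
    simpa using hl0
  let p : HeightOneSpectrum (𝓞 k) := ⟨v.asIdeal.under (𝓞 k), hpp, hpb⟩
  have hlo : v.asIdeal.LiesOver p.asIdeal := ⟨rfl⟩
  have h2 : p.valuation k (l : k) = WithZero.exp (-1 : ℤ) := by
    rw [HeightOneSpectrum.valuation_of_algebraMap]
    exact HeightOneSpectrum.intValuation_singleton p hl0 hl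
  have h3 := HeightOneSpectrum.valuation_liesOver D p v (l : k)
  have h4 : p.asIdeal.ramificationIdx' v.asIdeal = 1 := by
    rw [Ideal.ramificationIdx'_eq_ramificationIdx p.asIdeal v.asIdeal hpb, hr]
  rw [h4, pow_one, h2] at h3
  exact h3.symm

/-- a lower bound for the number of elements of the inertia group -/
lemma kx_inertia (K F : Type) [Field K] [NumberField K] [Field F] [NumberField F] [Algebra K F]
    [IsGalois K F] (w : HeightOneSpectrum (𝓞 F)) (v : HeightOneSpectrum (𝓞 K))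
    (hv : w.asIdeal.under (𝓞 K) = v.asIdeal) (l : K)
    (hl : v.valuation K l = WithZero.exp (-1 : ℤ)) (t : F) (n : ℕ)
    (ht : w.valuation F t ^ n = w.valuation F (algebraMap K F l)) :
    n ≤ Nat.card (w.asIdeal.inertia Gal(F/K)) := by
  have hwp : w.asIdeal.IsPrime := w.isPrime
  have hpb : v.asIdeal ≠ ⊥ := v.ne_bot
  have hlo : w.asIdeal.LiesOver v.asIdeal := ⟨hv.symm⟩
  have hfin : Finite (𝓞 K ⧸ v.asIdeal) := Ideal.finiteQuotientOfFreeOfNeBot _ hpb
  have hmax : v.asIdeal.IsMaximal := v.isMaximal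
  have hfr : Finite v.asIdeal.ResidueField := inferInstance
  have hperf : PerfectField v.asIdeal.ResidueField := inferInstance
  have h1 : Nat.card (w.asIdeal.inertia Gal(F/K)) = v.asIdeal.ramificationIdx' w.asIdeal := by
    rw [Ideal.card_inertia_eq_ramificationIdxIn (R := 𝓞 K) v.asIdeal w.asIdeal,
      Ideal.ramificationIdxIn_eq_ramificationIdx v.asIdeal w.asIdeal Gal(F/K),
      Ideal.ramificationIdx'_eq_ramificationIdx v.asIdeal w.asIdeal hpb]
  have h3 := HeightOneSpectrum.valuation_liesOver F v w l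
  rw [hl, ← ht] at h3
  rw [h1]
  set e := v.asIdeal.ramificationIdx' w.asIdeal with he
  have hpos : 0 < e := Nat.pos_of_ne_zero
    (Ideal.IsDedekindDomain.ramificationIdx'_ne_zero_of_liesOver w.asIdeal v.ne_bot)
  by_cases hn : n = 0
  · omega
  have ht0 : w.valuation F t ≠ 0 := by
    intro h0
    rw [h0, zero_pow hn] at h3
    exact (pow_ne_zero e (WithZero.exp_ne_zero (a := (-1 : ℤ)))) h3
  obtain ⟨j, hj⟩ : ∃ j : ℤ, w.valuation F t = WithZero.exp j :=
    ⟨WithZero.log (w.valuation F t), (WithZero.exp_log ht0).symm⟩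
  rw [hj, ← WithZero.exp_nsmul, ← WithZero.exp_nsmul, WithZero.exp_inj, nsmul_eq_mul,
    nsmul_eq_mul] at h3
  have h4 : (e : ℤ) = n * (-j) := by linarith
  have h5 : 0 < -j := by
    by_contra h6
    push Not at h6
    have : (n : ℤ) * (-j) ≤ 0 := mul_nonpos_of_nonneg_of_nonpos (by positivity) h6
    omega
  have h6 : (n : ℤ) ≤ e := by
    rw [h4]
    nlinarith [(by positivity : (0 : ℤ) ≤ n)]
  exact_mod_cast h6

/-- if the inertia group is contained in a set with at most `n` elements, it is equal to it -/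
lemma kx_full (K F : Type) [Field K] [NumberField K] [Field F] [NumberField F] [Algebra K F]
    [IsGalois K F] (w : HeightOneSpectrum (𝓞 F)) (v : HeightOneSpectrum (𝓞 K))
    (hv : w.asIdeal.under (𝓞 K) = v.asIdeal) (l : K)
    (hl : v.valuation K l = WithZero.exp (-1 : ℤ)) (t : F) (n : ℕ)
    (ht : w.valuation F t ^ n = w.valuation F (algebraMap K F l)) (A : Set (F ≃ₐ[K] F))
    (hA : A.ncard ≤ n) (hsub : ∀ τ : F ≃ₐ[K] F, (∀ x : 𝓞 F, τ • x - x ∈ w.asIdeal) → τ ∈ A)
    (σ : F ≃ₐ[K] F) (hσ : σ ∈ A) (x : 𝓞 F) : σ • x - x ∈ w.asIdeal := by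
  have h1 := kx_inertia K F w v hv l hl t n ht
  have hs : (w.asIdeal.inertia Gal(F/K) : Set (F ≃ₐ[K] F)) ⊆ A := fun τ hτ => hsub τ hτ
  have heq := Set.eq_of_subset_of_ncard_le hs (hA.trans (h1.trans (le_of_eq rfl)))
    (Set.toFinite _)
  have h2 : σ ∈ (w.asIdeal.inertia Gal(F/K) : Set (F ≃ₐ[K] F)) := by
    rw [heq]; exact hσ
  exact h2 x

end Pool.Agent.MUXW


end

section

/-!
# MUX, block W: products over a group, characters of order `p` (helper59)
-/

set_option autoImplicit false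

namespace Pool.Agent.MUXW

/-- product over a group in bijection with `X × U` -/
lemma prod_all_abs {G X U : Type*} [Finite X] [Finite U]
    (a : G → X) (b : G → U) (hbij : Function.Bijective (fun g => (a g, b g)))
    (f : X → U → ℂ) : ∏ᶠ σ : G, f (a σ) (b σ) = ∏ᶠ x : X, ∏ᶠ u : U, f x u := by
  classical
  have e1 : ∏ᶠ σ : G, f (a σ) (b σ) = ∏ᶠ p : X × U, f p.1 p.2 :=
    finprod_eq_of_bijective (fun g => (a g, b g)) hbij (fun _ => rfl)
  have : Fintype X := Fintype.ofFinite X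
  have : Fintype U := Fintype.ofFinite U
  rw [e1, finprod_eq_prod_of_fintype, Fintype.prod_prod_type, finprod_eq_prod_of_fintype]
  refine Finset.prod_congr rfl fun x _ => ?_
  rw [finprod_eq_prod_of_fintype]

/-- product over the kernel of a character which comes from `U` -/
lemma prod_ker_abs {p : ℕ} (hp : p.Prime) {G X U : Type*} [Group G] [Group U] [Finite X]
    [Finite U] (a : G → X) (b : G → U) (hbij : Function.Bijective (fun g => (a g, b g)))
    (ψ : U →* Multiplicative (ZMod p)) (hψ : Function.Surjective ψ)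
    (χ : G →* Multiplicative (ZMod p)) (hχ : ∀ σ, χ σ = ψ (b σ)) (g : X → ℂ) :
    ∏ᶠ σ : χ.ker, g (a σ) = (∏ᶠ x : X, g x) ^ (Nat.card U / p) := by
  classical
  have hcard : Nat.card U = Nat.card ψ.ker * p := by
    have h1 := Subgroup.card_mul_index ψ.ker
    rw [Subgroup.index_ker, MonoidHom.range_eq_top.2 hψ] at h1
    rw [← h1]
    congr 1
    rw [Subgroup.card_top, Nat.card_congr Multiplicative.toAdd, Nat.card_zmod]
  have : Fintype X := Fintype.ofFinite X
  have : Fintype U := Fintype.ofFinite U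
  have : Fintype ψ.ker := Fintype.ofFinite _
  have e1 : ∏ᶠ σ : χ.ker, g (a σ) = ∏ᶠ p : X × ψ.ker, g p.1 := by
    refine finprod_eq_of_bijective (fun σ => (a σ, (⟨b σ, by
      have := σ.2
      rw [MonoidHom.mem_ker, hχ] at this
      exact this⟩ : ψ.ker))) ⟨?_, ?_⟩ (fun _ => rfl)
    · intro σ τ e
      have h1 := congrArg (fun p => p.1) e
      have h2 := congrArg (fun p => (p.2 : U)) e
      exact Subtype.ext (hbij.1 (Prod.ext h1 h2))
    · rintro ⟨x, ⟨u, hu⟩⟩
      obtain ⟨σ, hσ⟩ := hbij.2 (x, u)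
      have h1 : a σ = x := congrArg (fun p => p.1) hσ
      have h2 : b σ = u := congrArg (fun p => p.2) hσ
      refine ⟨⟨σ, ?_⟩, ?_⟩
      · rw [MonoidHom.mem_ker, hχ, h2]; exact hu
      · exact Prod.ext h1 (Subtype.ext h2)
  rw [e1, finprod_eq_prod_of_fintype, Fintype.prod_prod_type, finprod_eq_prod_of_fintype,
    hcard, Nat.mul_div_cancel _ hp.pos, ← Finset.prod_pow]
  refine Finset.prod_congr rfl fun x _ => ?_
  show ∏ _y : ψ.ker, g x = _
  rw [Finset.prod_const, Finset.card_univ, ← Nat.card_eq_fintype_card]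

/-- a character of order `p` of a cyclic group -/
lemma exists_psi {p : ℕ} {U : Type*} [Group U] [Finite U] [IsCyclic U]
    (hpU : p ∣ Nat.card U) : ∃ ψ : U →* Multiplicative (ZMod p), Function.Surjective ψ := by
  have : NeZero (Nat.card U) := ⟨Nat.card_pos.ne'⟩
  let e : U ≃* Multiplicative (ZMod (Nat.card U)) := (zmodCyclicMulEquiv ‹IsCyclic U›).symm
  let c : ZMod (Nat.card U) →+ ZMod p := (ZMod.castHom hpU (ZMod p)).toAddMonoidHom
  refine ⟨(AddMonoidHom.toMultiplicative c).comp e.toMonoidHom, ?_⟩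
  intro x
  obtain ⟨y, hy⟩ := ZMod.castHom_surjective hpU (Multiplicative.toAdd x)
  obtain ⟨u, hu⟩ := e.surjective (Multiplicative.ofAdd y)
  refine ⟨u, ?_⟩
  show Multiplicative.ofAdd (c (Multiplicative.toAdd (e u))) = x
  rw [hu]
  show Multiplicative.ofAdd (c y) = x
  have : c y = Multiplicative.toAdd x := hy
  rw [this]
  rfl

/-- a character of order `p` is trivial on the elements of order `2` if `2 p` divides the order of the
cyclic group -/
lemma psi_two {p : ℕ} {U : Type*} [Group U] [Finite U] [IsCyclic U]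
    (hpU : 2 * p ∣ Nat.card U) (ψ : U →* Multiplicative (ZMod p)) {x : U} (hx : x * x = 1) :
    ψ x = 1 := by
  obtain ⟨g, hg⟩ := IsCyclic.exists_generator (α := U)
  have hord : orderOf g = Nat.card U := orderOf_eq_card_of_forall_mem_zpowers hg
  obtain ⟨j, hj⟩ := Subgroup.mem_zpowers_iff.1 (hg x)
  rw [← hj, ← zpow_add] at hx
  have h1 : (Nat.card U : ℤ) ∣ j + j := by
    rw [← hord]
    exact orderOf_dvd_iff_zpow_eq_one.2 hx
  have h2 : (p : ℤ) ∣ j := by
    have h3 : ((2 * p : ℕ) : ℤ) ∣ j + j := (Int.natCast_dvd_natCast.2 hpU).trans h1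
    push_cast at h3
    obtain ⟨t, ht⟩ := h3
    exact ⟨t, by linarith⟩
  obtain ⟨t, rfl⟩ := h2
  rw [← hj, map_zpow, zpow_mul]
  have h4 : ψ g ^ (p : ℤ) = 1 := by
    rw [zpow_natCast]
    have : Multiplicative.toAdd (ψ g ^ p) = 0 := by
      rw [toAdd_pow]
      simp
    exact this
  rw [h4, one_zpow]

end Pool.Agent.MUXW


end

section

/-!
# MUX, block W: (KOL), the Kolyvagin input, for every prime `p` (helper59)
-/

set_option autoImplicit false

open WeierstrassCurve Polynomial NumberField IsDedekindDomain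

namespace Pool.Agent.MUXW

open _root_.MU3 _root_.Pool.Agent.MU3A _root_.Pool.Agent.MU3B _root_.Pool.Agent.MU3C _root_.Pool.Agent.RI
open _root_.Pool.Agent.MUX _root_.Pool.Agent.MUXU
open _root_.Pool.Agent.MU3V (cls Sub GD algDF towDF rsHom rsHom_apply rsHom_mem rsHom_surj rsHom_inj
  mem_GD rd rd_cls cls_eq_iff cls_mul cls_one cls_out isUnit_cls coprime_of_isUnit val_int_S)
open _root_.Pool.Agent.MUXV (GR InK tX CMO Ovr)

noncomputable section

variable {A B : ℤ}

/-- an element not divisible by `lam` is prime to `lam`, if `lam` generates a maximal ideal -/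
lemma kx_cop {lam x : OO A B} (hmax : (Ideal.span {lam} : Ideal (OO A B)).IsMaximal)
    (hx : ¬ lam ∣ x) : IsCoprime x lam := by
  obtain ⟨y, i, hi, e⟩ := hmax.exists_inv (x := x) (fun hx' => hx (Ideal.mem_span_singleton.1 hx'))
  obtain ⟨z, rfl⟩ := Ideal.mem_span_singleton.1 hi
  exact ⟨y, z, by rw [mul_comm z lam]; exact e⟩

/-- the automorphisms of `F / D` trivial on `F'` -/
def kA {D : IntermediateField ℚ ℂ} {F : IntermediateField (kk A B) ℂ} (hs : _root_.Pool.Agent.MU3V.Sub D F)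
    (F' : IntermediateField (kk A B) ℂ) : letI := algDF hs; Subgroup (F ≃ₐ[D] F) :=
  letI := algDF hs
  { carrier := {σ | ∀ x : F, (x : ℂ) ∈ F' → σ x = x}
    mul_mem' := fun {σ τ} hσ hτ x hx => by
      show σ (τ x) = x
      rw [hτ x hx, hσ x hx]
    one_mem' := fun x _ => rfl
    inv_mem' := fun {σ} hσ x hx => by
      show σ.symm x = x
      rw [AlgEquiv.symm_apply_eq]
      exact (hσ x hx).symm }

lemma mem_kA {D : IntermediateField ℚ ℂ} {F : IntermediateField (kk A B) ℂ} (hs : _root_.Pool.Agent.MU3V.Sub D F)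
    (F' : IntermediateField (kk A B) ℂ) : letI := algDF hs; ∀ σ : F ≃ₐ[D] F,
    σ ∈ kA hs F' ↔ ∀ x : F, (x : ℂ) ∈ F' → σ x = x := fun _ => Iff.rfl

/-- the elements of `kA` in terms of the restriction to `F'` -/
lemma mem_kA' {D : IntermediateField ℚ ℂ} (hk : kk A B ≤ D) {F : IntermediateField (kk A B) ℂ}
    (hs : _root_.Pool.Agent.MU3V.Sub D F) {F' : IntermediateField (kk A B) ℂ} (hle : F' ≤ F) (s : F' ≃ₐ[kk A B] F') :
    letI := algDF hs; ∀ σ : F ≃ₐ[D] F,
    (∀ (x : F') (hx : (x : ℂ) ∈ F), ((rsHom hk hs σ ⟨x, hx⟩ : F) : ℂ) = (s x : ℂ)) →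
    (σ ∈ kA hs F' ↔ s = 1) := by
  letI := algDF hs
  intro σ hres
  rw [mem_kA]
  constructor
  · intro hσ
    apply AlgEquiv.ext
    intro x
    apply Subtype.ext
    have h1 := hres x (hle x.2)
    rw [rsHom_apply, hσ ⟨x, hle x.2⟩ x.2] at h1
    exact h1.symm
  · intro hσ x hx
    apply Subtype.ext
    have h1 := hres ⟨x, hx⟩ x.2
    rw [hσ, rsHom_apply] at h1
    exact h1

/-- a subfield of an abelian extension is a Galois extension -/
lemma kx_galD {M : IntermediateField (kk A B) ℂ} (hg : IsGalois (kk A B) M)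
    (hfd : FiniteDimensional (kk A B) M)
    (hc : ∀ σ τ : M ≃ₐ[kk A B] M, σ * τ = τ * σ) {D : IntermediateField ℚ ℂ} (hk : kk A B ≤ D)
    (hs : _root_.Pool.Agent.MU3V.Sub D M) : letI := algC hk; IsGalois (kk A B) D := by
  letI := algC hk
  letI := algDF hs
  haveI := towDF hk hs
  let f : D →ₐ[kk A B] M := IsScalarTower.toAlgHom (kk A B) D M
  have h1 : IsGalois (kk A B) f.fieldRange := Pool.Agent.MU3.I2A.gal_fixed hc f.fieldRange
  let e : f.fieldRange ≃ₐ[kk A B] D := (AlgEquiv.ofInjectiveField f).symm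
  exact IsGalois.of_algEquiv e

theorem ty_KOL (hACM : Sy_ACM) (hKER : Sy_KER) (hTHG : Sy_THG) (hGRB : Sy_GRB) (hINV : Sy_INV)
    (hDIS : Sy_DIS) (hPRQ : Sy_PRQ) (hFRD : Sy_FRD) (hURA : Sy_URA) : Sy_KOL := by
  intro A B h T n ι _ R
  have hL : IsNL (⊤ : Ideal (OO A B)) (R.L R.i0) (R.om R.i0) := by
    have := R.nl R.i0; rwa [R.b0] at this
  generalize R.L R.i0 = L at hL ⊢
  generalize R.om R.i0 = Om at hL ⊢
  obtain ⟨n1, hn1, hF⟩ := hFRD A B h T n ι R
  obtain ⟨n2, hn2, hGR⟩ := hGRB A B h T ⊤ L Om hL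
  have hdisc : (B ^ 2 + 4 * A).natAbs ≠ 0 := Int.natAbs_ne_zero.2 (ne_of_lt h.neg)
  refine ⟨2 * (n1 * (n2 * (B ^ 2 + 4 * A).natAbs)), mul_ne_zero (by norm_num)
    (mul_ne_zero hn1 (mul_ne_zero hn2 hdisc)), ?_⟩
  intro p hp m hm hm2 a H ha hcm hH S hS0 hSa hSm θ hθ D _ _ hk hHas hD
  letI := algC hk
  intro c hc v q hg
  haveI := kx_dom h
  obtain ⟨hPR1, hPR2, -⟩ := hPRQ A B h
  have hq := hg.prime
  have hq0 : ¬ q ∣ 2 * (n1 * (n2 * (B ^ 2 + 4 * A).natAbs)) := fun hd => hg.notin (hS0 q hq hd)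
  have hqm : ¬ (q : ℤ) ∣ nm m := fun hd => hg.notin (hSm q hq hd)
  have hqa : ¬ (q : ℤ) ∣ a := fun hd => hg.notin (hSa q hq hd)
  have hqn1 : ¬ q ∣ n1 := fun hd => hq0 ((hd.mul_right _).mul_left 2)
  have hqn2 : ¬ q ∣ n2 := fun hd => hq0 (((hd.mul_right _).mul_left n1).mul_left 2)
  have hqD : ¬ (q : ℤ) ∣ B ^ 2 + 4 * A := fun hd =>
    hq0 ((((Int.natCast_dvd.1 hd).mul_left n2).mul_left n1).mul_left 2)
  have hq2 : q ≠ 2 := fun e => hq0 (by rw [e]; exact dvd_mul_right _ _)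
  obtain ⟨lam, hnm, hfrob, hP⟩ := hF p m hm D hk hHas hD S v q hg hqn1 hqm
  have hmu : ¬ IsUnit m := fun hu => hm2 hu.dvd
  have hlam : lam ≠ 0 := by
    rintro rfl
    rw [(kx_n0 h 0).2 rfl] at hnm
    exact hq.ne_zero (by exact_mod_cast hnm.symm)
  obtain ⟨hcardq, hmax, -, -, hZ⟩ := MUXV.q_DGL A B (kx_cq h) lam q hq hnm
  have hprl : Prime lam := (Ideal.span_singleton_prime hlam).1 hmax.isPrime
  have hul : ¬ IsUnit lam := hprl.not_isUnit
  have hnmdvd : ∀ x y : OO A B, x ∣ y → nm x ∣ nm y := by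
    rintro x y ⟨z, rfl⟩
    exact ⟨nm z, kx_nmul h x z⟩
  have hcop : IsCoprime m lam := by
    refine kx_cop hmax ?_
    intro hd
    apply hqm
    rw [← hnm]
    exact hnmdvd _ _ hd
  have hcl : IsCoprime (a : OO A B) lam := kx_cop hmax fun hd => hqa (hZ a hd)
  obtain ⟨hfld, hfin, hcyc, hcardU⟩ := kx_units h hq hnm
  have hpU : 2 * p ∣ Nat.card (OO A B ⧸ Ideal.span {lam})ˣ := by rw [hcardU]; exact hg.dvd
  obtain ⟨ψ, hψ⟩ := exists_psi (p := p) (U := (OO A B ⧸ Ideal.span {lam})ˣ)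
    ((dvd_mul_left p 2).trans hpU)
  have hψ1 : ψ (-1) = 1 := psi_two hpU ψ (by rw [neg_mul_neg, one_mul])
  have hN : m * lam ≠ 0 := mul_ne_zero hm hlam
  have hbN : (sp (m * lam) : Ideal (OO A B)) ≠ ⊥ := by
    rw [Ne, Ideal.span_singleton_eq_bot]; exact hN
  have hbm : (sp m : Ideal (OO A B)) ≠ ⊥ := by
    rw [Ne, Ideal.span_singleton_eq_bot]; exact hm
  have hfdM := T.fin _ hbN
  have hgalM := T.gal _ hbN
  have hcomm := T.comm _ hbN
  have hkN : NumberField (kk A B) := ⟨⟩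
  have hMQ : FiniteDimensional ℚ (RF (sp (m * lam)) : IntermediateField (kk A B) ℂ) :=
    FiniteDimensional.trans ℚ (kk A B) _
  have hMN : NumberField (RF (sp (m * lam)) : IntermediateField (kk A B) ℂ) := ⟨⟩
  have hle : (RF (sp m) : IntermediateField (kk A B) ℂ) ≤ RF (sp (m * lam)) :=
    RF_dvd (dvd_mul_right m lam)
  have hs : _root_.Pool.Agent.MU3V.Sub D (RF (sp (m * lam)) : IntermediateField (kk A B) ℂ) := fun x hx => hle (hD x hx)
  letI := algDF hs
  haveI := towDF hk hs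
  obtain ⟨c1, c2, c3, c4, c5, c6, c7, c8⟩ := hACM A B h L Om hL (m * lam) hN
  obtain ⟨d1, d2, d3, d4, d5, d6, d7, d8⟩ := hACM A B h L Om hL m hm
  -- the exponents on `F_m`
  have hxs0 : ∀ s : GD hk (RF (sp m) : IntermediateField (kk A B) ℂ), ∃ x : OO A B,
      ActH (s : (RF (sp m) : IntermediateField (kk A B) ℂ) ≃ₐ[kk A B] RF (sp m)) m x := fun s =>
    (hKER A B h T m hm).1 s.1 (trH_of_GD hk hHas s.2)
  choose xs hxs using hxs0
  obtain ⟨res, b, bu, hres, hb, hbm', hbu, hbij, hchi⟩ :=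
    bijX h hL hm hlam hm2 hcop hk hHas hD hs hACM hKER T hxs
  obtain ⟨χ, hχ⟩ := hchi p ψ hψ1
  have hfinm : Finite (GD hk (RF (sp m) : IntermediateField (kk A B) ℂ)) := by
    haveI := T.fin _ hbm
    infer_instance
  have hfinG : Finite ((RF (sp (m * lam)) : IntermediateField (kk A B) ℂ) ≃ₐ[D]
      RF (sp (m * lam))) := Finite.of_injective _ (rsHom_inj hk hs)
  have hUfin : Finite (OO A B ⧸ Ideal.span {lam})ˣ := inferInstance
  -- the values
  have hz1 : emb (1 : OO A B) * (Om / emb m) + emb (1 : OO A B) * (Om / emb lam) ∉ L.lattice :=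
    kx_notMem2 h hL hm hlam hcop hul 1 1 isCoprime_one_left
  have hz0 : emb (1 : OO A B) * (Om / emb m) + emb (0 : OO A B) * (Om / emb lam) ∉ L.lattice := by
    rw [kx_zero h, zero_mul, add_zero]
    exact kx_notMem h hL hm hmu isCoprime_one_left
  obtain ⟨-, -, hθM, -⟩ := hTHG A B h T ⊤ L Om hL (m * lam) hN a H ha hH _
    (kx_torsN h hL hm hlam 1 1) hz1
  obtain ⟨-, -, hθ0, -⟩ := hTHG A B h T ⊤ L Om hL (m * lam) hN a H ha hH _
    (kx_torsN h hL hm hlam 1 0) hz0
  have hblam : ∀ σ, lam ∣ b σ - Quotient.out ((bu σ : (OO A B ⧸ Ideal.span {lam})ˣ) :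
      OO A B ⧸ Ideal.span {lam}) := fun σ => cls_eq_iff.1 (by rw [cls_out, hbu])
  have hsig : ∀ σ : (RF (sp (m * lam)) : IntermediateField (kk A B) ℂ) ≃ₐ[D] RF (sp (m * lam)),
      ((σ ⟨_, hθM⟩ : (RF (sp (m * lam)) : IntermediateField (kk A B) ℂ)) : ℂ) =
        ThetaH L H (emb (xs (res σ)) * (Om / emb m) +
          emb (Quotient.out ((bu σ : (OO A B ⧸ Ideal.span {lam})ˣ) :
            OO A B ⧸ Ideal.span {lam})) * (Om / emb lam)) := by
    intro σ
    have h1 := kx_sigma h hL hm hlam hH hTHG T ha 1 1 hz1 (rsHom hk hs σ) (hb σ) (hbm' σ)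
      (hblam σ) hθM
    rw [one_mul, one_mul] at h1
    exact h1
  have hsig0 : ∀ σ : (RF (sp (m * lam)) : IntermediateField (kk A B) ℂ) ≃ₐ[D] RF (sp (m * lam)),
      ((σ ⟨_, hθ0⟩ : (RF (sp (m * lam)) : IntermediateField (kk A B) ℂ)) : ℂ) =
        ThetaH L H (emb (xs (res σ)) * (Om / emb m)) := by
    intro σ
    have h1 := kx_sigma h hL hm hlam hH hTHG T ha 1 0 hz0 (rsHom hk hs σ) (hb σ) (hbm' σ)
      (hblam σ) hθ0
    refine h1.trans ?_
    rw [one_mul, zero_mul, kx_zero h, zero_mul, add_zero]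
  have hcval : (c : ℂ) = ∏ᶠ s : GD hk (RF (sp m) : IntermediateField (kk A B) ℂ),
      ThetaH L H (emb (xs s) * (Om / emb m)) := by
    rw [hc]
    unfold cW
    refine finprod_congr fun s => ?_
    have hz : emb (1 : OO A B) * (Om / emb m) ∉ L.lattice :=
      kx_notMem h hL hm hmu isCoprime_one_left
    rw [kx_one h, one_mul] at hz
    have hkz := kx_tors h hL hm (1 : OO A B)
    rw [kx_one h, one_mul] at hkz
    obtain ⟨-, -, h3, -, h5⟩ := hTHG A B h T ⊤ L Om hL m hm a H ha hH _ hkz hz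
    have e : θ = ⟨_, h3⟩ := Subtype.ext hθ
    rw [e]
    exact h5 s.1 (xs s) (hxs s)
  -- valuations
  have hVQ : ∀ w : HeightOneSpectrum (𝓞 (RF (sp (m * lam)) : IntermediateField (kk A B) ℂ)),
      ∃ V : ValuationSubring ℂ,
      ∀ x : (RF (sp (m * lam)) : IntermediateField (kk A B) ℂ),
      ((algebraMap _ ℂ x) ∈ V ↔ w.valuation _ x ≤ 1) ∧
      (V.valuation (algebraMap _ ℂ x) < 1 ↔ w.valuation _ x < 1) ∧
      (V.valuation (algebraMap _ ℂ x) = 1 ↔ w.valuation _ x = 1) := fun w =>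
    MU3V.tv_EXT _ (algebraMap (RF (sp (m * lam)) : IntermediateField (kk A B) ℂ) ℂ) w
  have hnm0' : nm m ≠ 0 := fun h0 => hm ((kx_n0 h m).1 h0)
  -- `lam` as an element of the ring of integers of `M`
  obtain ⟨ℓ, hℓ⟩ : ∃ ℓ : 𝓞 (kk A B), ((ℓ : kk A B) : ℂ) = emb lam := hPR2 lam
  have hℓ0 : ℓ ≠ 0 := by
    rintro rfl
    apply kx_ne h hlam
    rw [← hℓ]
    simp
  have hℓM : ((algebraMap (𝓞 (kk A B)) (𝓞 (RF (sp (m * lam)) : IntermediateField (kk A B) ℂ)) ℓ :
      (RF (sp (m * lam)) : IntermediateField (kk A B) ℂ)) : ℂ) = emb lam := by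
    rw [← hℓ]; rfl
  have hℓv : ℓ ∈ v.asIdeal.under (𝓞 (kk A B)) := (hP ℓ lam hℓ).2 dvd_rfl
  have hvspan : v.asIdeal.under (𝓞 (kk A B)) = Ideal.span {ℓ} := by
    apply le_antisymm
    · intro x hx
      obtain ⟨y, hy⟩ := hPR1 x
      obtain ⟨z, hz⟩ := (hP x y hy).1 hx
      obtain ⟨z', hz'⟩ := hPR2 z
      rw [Ideal.mem_span_singleton]
      refine ⟨z', ?_⟩
      apply RingOfIntegers.ext
      apply Subtype.ext
      rw [hy, hz, kx_mul h, ← hℓ, ← hz']
      rfl
    · rw [Ideal.span_singleton_le_iff_mem]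
      exact hℓv
  have hvl : ∀ (w : HeightOneSpectrum (𝓞 (RF (sp (m * lam)) : IntermediateField (kk A B) ℂ)))
      (V : ValuationSubring ℂ),
      (∀ x : (RF (sp (m * lam)) : IntermediateField (kk A B) ℂ),
      ((algebraMap _ ℂ x) ∈ V ↔ w.valuation _ x ≤ 1) ∧
      (V.valuation (algebraMap _ ℂ x) < 1 ↔ w.valuation _ x < 1) ∧
      (V.valuation (algebraMap _ ℂ x) = 1 ↔ w.valuation _ x = 1)) →
      w.asIdeal.under (𝓞 (kk A B)) = v.asIdeal.under (𝓞 (kk A B)) →
      V.valuation (emb lam) < 1 := by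
    intro w V hV hw
    have hy : ℓ ∈ w.asIdeal.under (𝓞 (kk A B)) := by rw [hw]; exact hℓv
    rw [← hℓM]
    exact ((hV _).2.1).2 ((HeightOneSpectrum.valuation_lt_one_iff_mem w _).2 hy)
  have hval2 : ∀ (V : ValuationSubring ℂ), V.valuation ((n2 : ℕ) : ℂ) = 1 → GRn V L := fun V hV =>
    (hGR V hV).2.2.2.2
  have hSn2 : ∀ {w : HeightOneSpectrum (𝓞 (RF (sp (m * lam)) : IntermediateField (kk A B) ℂ))}
      {V : ValuationSubring ℂ},
      (∀ x : (RF (sp (m * lam)) : IntermediateField (kk A B) ℂ),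
      ((algebraMap _ ℂ x) ∈ V ↔ w.valuation _ x ≤ 1) ∧
      (V.valuation (algebraMap _ ℂ x) < 1 ↔ w.valuation _ x < 1) ∧
      (V.valuation (algebraMap _ ℂ x) = 1 ↔ w.valuation _ x = 1)) →
      ¬ Pool.Agent.MU3.Above S w → GRn V L := by
    intro w V hV hwS
    apply hval2
    have := val_int_S hV hwS (n := (n2 : ℤ)) (by exact_mod_cast hn2) (fun p hp hpd => by
      refine hS0 p hp (((Dvd.dvd.mul_right ?_ _).mul_left n1).mul_left 2)
      exact_mod_cast hpd)
    simpa using this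
  have hINVc : ∀ {w : HeightOneSpectrum (𝓞 (RF (sp (m * lam)) : IntermediateField (kk A B) ℂ))}
      {V : ValuationSubring ℂ},
      (∀ x : (RF (sp (m * lam)) : IntermediateField (kk A B) ℂ),
      ((algebraMap _ ℂ x) ∈ V ↔ w.valuation _ x ≤ 1) ∧
      (V.valuation (algebraMap _ ℂ x) < 1 ↔ w.valuation _ x < 1) ∧
      (V.valuation (algebraMap _ ℂ x) = 1 ↔ w.valuation _ x = 1)) →
      ∀ σ : (RF (sp (m * lam)) : IntermediateField (kk A B) ℂ) ≃ₐ[D] RF (sp (m * lam)),
      (∀ x : 𝓞 (RF (sp (m * lam)) : IntermediateField (kk A B) ℂ), σ • x - x ∈ w.asIdeal) →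
      ∀ x : (RF (sp (m * lam)) : IntermediateField (kk A B) ℂ), (x : ℂ) ∈ V →
        V.valuation ((((rsHom hk hs σ) x :
          (RF (sp (m * lam)) : IntermediateField (kk A B) ℂ)) : ℂ) - (x : ℂ)) < 1 := by
    intro w V hV σ hσ x hx
    have h2 := MU3V.tw_LOC A B (RF (sp (m * lam))) w V (fun y => ⟨(hV y).1, (hV y).2.1⟩)
      (rsHom hk hs σ) 1 one_pos (fun y => ⟨_, hσ y, by rw [pow_one]; rfl⟩) x hx
    rwa [pow_one] at h2
  have hAmem : ∀ σ : (RF (sp (m * lam)) : IntermediateField (kk A B) ℂ) ≃ₐ[D] RF (sp (m * lam)),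
      σ ∈ kA hs (RF (sp m) : IntermediateField (kk A B) ℂ) ↔ res σ = 1 := fun σ =>
    (mem_kA' hk hs hle (res σ).1 σ (hres σ)).trans
      ⟨fun e => Subtype.ext e, fun e => by rw [e]; rfl⟩
  refine Pool.Agent.MUXK.I2ABSP_thm p hp (kk A B) D
    (RF (sp (m * lam)) : IntermediateField (kk A B) ℂ) hcomm _ S c v q
    (kA hs (RF (sp m) : IntermediateField (kk A B) ℂ)) χ ?_ ?_ ?_ ⟨_, hθM⟩ ⟨_, hθ0⟩ ?_ ?_ ?_ ?_
  · -- the character is not trivial on `A`
    obtain ⟨r, hr⟩ := hψ (Multiplicative.ofAdd 1)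
    obtain ⟨σ, hσ⟩ := hbij.2 (1, r)
    have e1 : res σ = 1 := congrArg Prod.fst hσ
    have e2 : bu σ = r := congrArg Prod.snd hσ
    refine ⟨σ, (hAmem σ).2 e1, ?_⟩
    rw [hχ, e2, hr]
    intro e
    have h1 : (1 : ZMod p) = 0 := congrArg Multiplicative.toAdd e
    haveI := Fact.mk hp
    exact one_ne_zero h1
  · -- unramified
    intro w hwS hwk σ hσ
    obtain ⟨V, hV⟩ := hVQ w
    have vm : V.valuation ((nm m : ℤ) : ℂ) = 1 := val_int_S hV hwS hnm0' hSm
    have hGV := hSn2 hV hwS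
    have vl : V.valuation (emb lam) = 1 := by
      refine le_antisymm (kx_vle h V lam) (not_lt.1 fun hlt => hwk ?_)
      have hℓw : ℓ ∈ w.asIdeal.under (𝓞 (kk A B)) := by
        show algebraMap (𝓞 (kk A B)) (𝓞 (RF (sp (m * lam)) : IntermediateField (kk A B) ℂ)) ℓ ∈
          w.asIdeal
        rw [← HeightOneSpectrum.valuation_lt_one_iff_mem
          (K := (RF (sp (m * lam)) : IntermediateField (kk A B) ℂ)) w]
        apply ((hV _).2.1).1
        have : algebraMap (RF (sp (m * lam)) : IntermediateField (kk A B) ℂ) ℂ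
          (algebraMap (𝓞 (RF (sp (m * lam)) : IntermediateField (kk A B) ℂ))
          (RF (sp (m * lam)) : IntermediateField (kk A B) ℂ)
          (algebraMap (𝓞 (kk A B)) (𝓞 (RF (sp (m * lam)) : IntermediateField (kk A B) ℂ)) ℓ)) =
            emb lam := hℓM
        rw [this]
        exact hlt
      have hsub : v.asIdeal.under (𝓞 (kk A B)) ≤ w.asIdeal.under (𝓞 (kk A B)) := by
        rw [hvspan, Ideal.span_singleton_le_iff_mem]
        exact hℓw
      have hmax' : (v.asIdeal.under (𝓞 (kk A B))).IsMaximal := by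
        have hp : (v.asIdeal.under (𝓞 (kk A B))).IsPrime := Ideal.IsPrime.under _ _
        exact hp.isMaximal (v.under (𝓞 (kk A B))).ne_bot
      have hne : w.asIdeal.under (𝓞 (kk A B)) ≠ ⊤ := by
        have hp : (w.asIdeal.under (𝓞 (kk A B))).IsPrime := Ideal.IsPrime.under _ _
        exact hp.ne_top
      exact (hmax'.eq_of_le hne hsub).symm
    have h1 := hINV A B h L Om hL (m * lam) hN V hGV
      (fun z hz hE => kx_torN h hL hGV hq hq2 hqD hnm hlam vm vl hz hE) _ le_rfl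
      (rsHom hk hs σ) (hINVc hV σ hσ) (b σ) (hb σ)
    have h2 := c2 _ _ (b σ) 1 h1 (hb σ)
    have h3 : rsHom hk hs σ = 1 := c5 _ _ 1 h2 (c6 _)
    exact rsHom_inj hk hs (by rw [h3, map_one])
  · -- totally ramified
    intro w hw σ hσ x
    obtain ⟨V, hV⟩ := hVQ w
    have hlt := hvl w V hV hw
    obtain ⟨vq, hint, -⟩ := kx_int1 h hq hnm hlt
    have vm : V.valuation ((nm m : ℤ) : ℂ) = 1 := hint _ hqm
    have hGV : GRn V L := hval2 V (by
      have := hint (n2 : ℤ) (by exact_mod_cast hqn2)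
      simpa using this)
    haveI : IsGalois D (RF (sp (m * lam)) : IntermediateField (kk A B) ℂ) :=
      IsGalois.tower_top_of_isGalois (kk A B) D _
    -- the prime of `D` below `w`
    have hv'k : (w.under (𝓞 D)).asIdeal.under (𝓞 (kk A B)) = v.asIdeal.under (𝓞 (kk A B)) := by
      rw [← hw]
      exact Ideal.under_under w.asIdeal
    haveI := kx_galD hgalM hfdM hcomm hk hs
    have hr := hURA p (kk A B) D S v q hg (w.under (𝓞 D)) hv'k
    have hlD := kx_val_lam (kk A B) D (w.under (𝓞 D)) hr ℓ hℓ0 (hv'k.trans hvspan)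
    -- the element `x(u + u') - x(u)`
    have hu1 : Om / emb m + Om / emb lam ∉ L.lattice := by
      have := hz1; rwa [kx_one h, one_mul, one_mul] at this
    have hk1 : emb (m * lam) * (Om / emb m + Om / emb lam) ∈ L.lattice := by
      have := kx_torsN h hL hm hlam 1 1; rwa [kx_one h, one_mul, one_mul] at this
    have hu2 : Om / emb m ∉ L.lattice := by
      have := kx_notMem h hL hm hmu (isCoprime_one_left (x := m))
      rwa [kx_one h, one_mul] at this
    have hk2 : emb (m * lam) * (Om / emb m) ∈ L.lattice := by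
      have := kx_torsN h hL hm hlam 1 0
      rwa [kx_one h, one_mul, kx_zero h, zero_mul, add_zero] at this
    have hmemx : ∀ z : ℂ, z ∉ L.lattice → emb (m * lam) * z ∈ L.lattice →
        xn L z ∈ (RF (sp (m * lam)) : IntermediateField (kk A B) ℂ) := by
      intro z hz hkz
      refine IntermediateField.subset_adjoin _ _ ⟨⊤, L, Om, hL, Or.inr ⟨z, ?_, hz, rfl⟩⟩
      intro y hy
      obtain ⟨t, rfl⟩ := Ideal.mem_span_singleton.1 hy
      have e : emb (m * lam * t) * z = emb t * (emb (m * lam) * z) := by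
        rw [kx_mul h (m * lam) t]; ring
      rw [e]
      exact kx_cmo h hL t _ hkz
    have htM := sub_mem (hmemx _ hu1 hk1) (hmemx _ hu2 hk2)
    have htra := kx_tra h hL hGV hq hq2 hqD hnm hm hlam hul hm2 vm hlt
    have hvt : w.valuation _ (⟨_, htM⟩ : (RF (sp (m * lam)) : IntermediateField (kk A B) ℂ)) ^
        (q - 1) = w.valuation _ (algebraMap D (RF (sp (m * lam)) : IntermediateField (kk A B) ℂ)
          (algebraMap (kk A B) D (ℓ : kk A B))) := by
      set t : (RF (sp (m * lam)) : IntermediateField (kk A B) ℂ) := ⟨_, htM⟩ with ht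
      set lM : (RF (sp (m * lam)) : IntermediateField (kk A B) ℂ) :=
        algebraMap D (RF (sp (m * lam)) : IntermediateField (kk A B) ℂ)
          (algebraMap (kk A B) D (ℓ : kk A B)) with hlM
      have e1 : (lM : ℂ) = emb lam := hℓ
      have hne : lM ≠ 0 := by
        intro h0
        apply kx_ne h hlam
        rw [← e1, h0]
        rfl
      have h1 : V.valuation (((t ^ (q - 1) / lM :
          (RF (sp (m * lam)) : IntermediateField (kk A B) ℂ))) : ℂ) = 1 := by
        have e2 : (((t ^ (q - 1) / lM :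
            (RF (sp (m * lam)) : IntermediateField (kk A B) ℂ))) : ℂ) =
            (xn L (Om / emb m + Om / emb lam) - xn L (Om / emb m)) ^ (q - 1) / emb lam := by
          rw [IntermediateField.coe_div, IntermediateField.coe_pow, e1]
        rw [e2, map_div₀, map_pow, htra, div_self]
        exact (Valuation.ne_zero_iff _).2 (kx_ne h hlam)
      have h1' := (hV (t ^ (q - 1) / lM)).2.2.1 h1
      rw [map_div₀, map_pow] at h1'
      have h3 : w.valuation _ lM ≠ 0 := (Valuation.ne_zero_iff _).2 hne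
      rwa [div_eq_one_iff_eq h3] at h1'
    refine kx_full D _ w (w.under (𝓞 D)) rfl _ hlD _ (q - 1) hvt
      (kA hs (RF (sp m) : IntermediateField (kk A B) ℂ) : Set _) ?_ ?_ σ hσ x
    · -- the number of elements of `A`
      rw [← hcardU, ← Set.ncard_univ]
      refine Set.ncard_le_ncard_of_injOn bu (fun _ _ => Set.mem_univ _) ?_ (Set.toFinite _)
      intro σ₁ h₁ σ₂ h₂ e
      apply hbij.1
      exact Prod.ext (((hAmem σ₁).1 h₁).trans ((hAmem σ₂).1 h₂).symm) e
    · intro τ hτ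
      have h0 : ActH (rsHom hk hs τ) m (b τ) := c3 _ _ m _ (dvd_mul_right m lam) (hb τ)
      have h1 := hINV A B h L Om hL m hm V hGV
        (fun z hz hE => kx_tor h hL hGV vm hz hE) _ hle
        (rsHom hk hs τ) (hINVc hV τ hτ) (b τ) h0
      have h2 := d2 _ _ (b τ) 1 h1 h0
      show τ ∈ kA hs (RF (sp m) : IntermediateField (kk A B) ℂ)
      rw [hAmem]
      apply Subtype.ext
      have h3 : ActH (res τ).1 m 1 := by
        have h4 : m ∣ b τ - xs (res τ) := hbm' τ
        have h5 : m ∣ xs (res τ) - 1 ∨ m ∣ xs (res τ) + 1 := by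
          rcases h1 with h1 | h1
          · left
            have := dvd_sub h1 h4
            have e : b τ - 1 - (b τ - xs (res τ)) = xs (res τ) - 1 := by ring
            rwa [e] at this
          · right
            have := dvd_sub h1 h4
            have e : b τ + 1 - (b τ - xs (res τ)) = xs (res τ) + 1 := by ring
            rwa [e] at this
        exact d2 _ _ (xs (res τ)) 1 h5 (hxs (res τ))
      exact d5 _ _ 1 h3 (d6 _)
  · -- unit outside `S`
    intro w hwS
    obtain ⟨V, hV⟩ := hVQ w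
    have vm : V.valuation ((nm m : ℤ) : ℂ) = 1 := val_int_S hV hwS hnm0' hSm
    have va : V.valuation (a : ℂ) = 1 := val_int_S hV hwS ha hSa
    apply ((hV _).2.2).1
    exact kx_unit h hL (hSn2 hV hwS) hq hq2 hqD hnm hm hlam hcop hul hmu vm hH va hcm hcl
  · -- the congruence
    intro w hw σ
    obtain ⟨V, hV⟩ := hVQ w
    have hlt := hvl w V hV hw
    obtain ⟨vq, hint, -⟩ := kx_int1 h hq hnm hlt
    have vm : V.valuation ((nm m : ℤ) : ℂ) = 1 := hint _ hqm
    have va : V.valuation (a : ℂ) = 1 := hint _ hqa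
    have hGV : GRn V L := hval2 V (by
      have := hint (n2 : ℤ) (by exact_mod_cast hqn2)
      simpa using this)
    obtain ⟨k1, k2⟩ := kx_cong h hL hGV hq hq2 hqD hnm hm hlam hmu vm hH va hlt
      (y := xs (res σ)) (r := Quotient.out ((bu σ : (OO A B ⧸ Ideal.span {lam})ˣ) :
            OO A B ⧸ Ideal.span {lam})) (hxs (res σ)).cop
    constructor
    · apply ((hV _).1).1
      rw [← ValuationSubring.valuation_le_one_iff]
      have e : algebraMap (RF (sp (m * lam)) : IntermediateField (kk A B) ℂ) ℂ (σ ⟨_, hθ0⟩) = _ :=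
        hsig0 σ
      rw [e]
      exact k1
    · apply ((hV _).2.1).1
      rw [map_sub]
      have e : algebraMap (RF (sp (m * lam)) : IntermediateField (kk A B) ℂ) ℂ (σ ⟨_, hθ0⟩) = _ :=
        hsig0 σ
      have e' : algebraMap (RF (sp (m * lam)) : IntermediateField (kk A B) ℂ) ℂ (σ ⟨_, hθM⟩) = _ :=
        hsig σ
      rw [e, e']
      exact k2
  · -- the norm
    obtain ⟨C, hC, -, hCe⟩ := kx_norm h hL hm hlam hcop hH hACM hDIS T ha hcl hcm hmu hfld hk hxs
      hfrob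
    intro y hy g hg'
    apply hg'
    have : Fintype ((RF (sp (m * lam)) : IntermediateField (kk A B) ℂ) ≃ₐ[D] RF (sp (m * lam))) :=
      Fintype.ofFinite _
    have e1 := prod_all_abs (fun σ => res σ) (fun σ => bu σ) hbij
      (fun (s : GD hk (RF (sp m) : IntermediateField (kk A B) ℂ))
        (r : (OO A B ⧸ Ideal.span {lam})ˣ) =>
        ThetaH L H (emb (xs s) * (Om / emb m) +
          emb (Quotient.out (r : OO A B ⧸ Ideal.span {lam})) * (Om / emb lam)))
    rw [hCe, finprod_eq_prod_of_fintype] at e1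
    have e2 := congrArg (algebraMap (RF (sp (m * lam)) : IntermediateField (kk A B) ℂ) ℂ) hy
    rw [finprod_eq_prod_of_fintype, map_prod] at e2
    have e3 : (y : ℂ) = C := by
      refine e2.trans ?_
      refine (Finset.prod_congr rfl fun σ _ => ?_).trans e1
      exact hsig σ
    rw [e3]
    exact hC
  · -- the product over the kernel
    have : Fintype χ.ker := Fintype.ofFinite _
    apply (algebraMap (RF (sp (m * lam)) : IntermediateField (kk A B) ℂ) ℂ).injective
    have e1 := prod_ker_abs hp (fun σ => res σ) (fun σ => bu σ) hbij ψ hψ χ hχ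
      (fun (s : GD hk (RF (sp m) : IntermediateField (kk A B) ℂ)) =>
        ThetaH L H (emb (xs s) * (Om / emb m)))
    rw [← hcval, hcardU, finprod_eq_prod_of_fintype] at e1
    rw [finprod_eq_prod_of_fintype, map_prod, map_pow]
    refine (Finset.prod_congr rfl fun σ _ => ?_).trans e1
    exact hsig0 σ

end

end Pool.Agent.MUXW


end

section

/-!
# Module VB_INA: two different unramified extensions do not have the same group `U`
-/

set_option autoImplicit false

open NumberField IsDedekindDomain Filter Topology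
open scoped nonZeroDivisors Pointwise

namespace Pool.Agent.VB

open _root_.Pool.Agent.RI _root_.Pool.Agent.MU3 _root_.Pool.Agent.Lib_helper28.FROB

theorem tb_INA (hI : Sb_IDX) (hD : Sb_DLB) (hS : Sb_SPN) : Sb_INA := by
  intro L M M' N _ _ _ _ _ _ _ _ _ _ _ _ _ _ _ _ _ _ p hp hσ hM hM' hN hu hu' U S hUi hU hU'
  classical
  set D : Set (HeightOneSpectrum (𝓞 L)) := {v | Pool.Agent.HB.Deg1 L M v} with hDdef
  set D' : Set (HeightOneSpectrum (𝓞 L)) := {v | Pool.Agent.HB.Deg1 L M' v} with hD'def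
  have hp0 : (0 : ℝ) < p := by exact_mod_cast hp.pos
  have hp2 : (2 : ℝ) ≤ p := by exact_mod_cast hp.two_le
  obtain ⟨C1, hC1⟩ := hD L M
  obtain ⟨C2, hC2⟩ := hD L M'
  obtain ⟨C3, hC3⟩ := m_SPLS L N (p ^ 2) (D ∩ D') (fun v hv => by
    rw [← hN]
    exact hS L M M' N hσ v (hu v) (hu' v) hv.1 hv.2)
  set c : ℝ := 2 / p - 1 / (p : ℝ) ^ 2 with hc
  have hc0 : 0 < c := by
    have h1 : c = (2 * p - 1) / (p : ℝ) ^ 2 := by
      rw [hc]; field_simp
    rw [h1]
    apply div_pos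
    · linarith
    · positivity
  have key : ∃ C' : ℝ, ∀ᶠ s : ℝ in 𝓝[>] 1,
      c * Real.log (1 / (s - 1)) - C' ≤
        ∑' v, Set.indicator ((D ∪ D') \ (S : Set (HeightOneSpectrum (𝓞 L)))) (x s) v := by
    refine ⟨C1 / p + C2 / p + C3 / (p : ℝ) ^ 2 + S.card, ?_⟩
    filter_upwards [hC1, hC2, hC3, self_mem_nhdsWithin] with s hs1 hs2 hs3 hs
    have hs' : 1 < s := hs
    have hsum := summable_x (K := L) hs'
    have e1 : Summable (Set.indicator D (x s)) := hsum.indicator _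
    have e2 : Summable (Set.indicator D' (x s)) := hsum.indicator _
    have e3 : Summable (Set.indicator (D ∩ D') (x s)) := hsum.indicator _
    have e4 : Summable (Set.indicator ((D ∪ D') \ (S : Set (HeightOneSpectrum (𝓞 L)))) (x s)) :=
      hsum.indicator _
    have e5 : Summable (Set.indicator (S : Set (HeightOneSpectrum (𝓞 L))) (x s)) :=
      hsum.indicator _
    have h4 : ∑' v, Set.indicator D (x s) v + ∑' v, Set.indicator D' (x s) v ≤
        ∑' v, Set.indicator ((D ∪ D') \ (S : Set (HeightOneSpectrum (𝓞 L)))) (x s) v +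
          ∑' v, Set.indicator (S : Set (HeightOneSpectrum (𝓞 L))) (x s) v +
          ∑' v, Set.indicator (D ∩ D') (x s) v := by
      rw [← e1.tsum_add e2, ← e4.tsum_add e5, ← (e4.add e5).tsum_add e3]
      refine (e1.add e2).tsum_le_tsum (fun v => ?_) ((e4.add e5).add e3)
      have h0 := (x_pos s v).le
      by_cases hv : v ∈ D <;> by_cases hv' : v ∈ D' <;> by_cases hw : v ∈ S <;>
        simp [hv, hv', hw, h0]
    have h5 : ∑' v, Set.indicator (S : Set (HeightOneSpectrum (𝓞 L))) (x s) v ≤ S.card := by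
      rw [tsum_eq_sum (s := S) (fun v hv => by simp [hv])]
      have h6 : ∀ v ∈ S, Set.indicator (S : Set (HeightOneSpectrum (𝓞 L))) (x s) v ≤ 1 := by
        intro v hv
        rw [Set.indicator_of_mem (by exact_mod_cast hv)]
        have := x_le (s := s) hs'.le v
        linarith
      refine (Finset.sum_le_sum h6).trans ?_
      simp
    rw [hM] at hs1
    rw [hM'] at hs2
    push_cast at hs3
    have h7 : (Real.log (1 / (s - 1)) - C1) / p ≤ ∑' v, Set.indicator D (x s) v := by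
      rw [div_le_iff₀ hp0]; linarith
    have h8 : (Real.log (1 / (s - 1)) - C2) / p ≤ ∑' v, Set.indicator D' (x s) v := by
      rw [div_le_iff₀ hp0]; linarith
    have h9 : ∑' v, Set.indicator (D ∩ D') (x s) v ≤ (Real.log (1 / (s - 1)) + C3) / (p : ℝ) ^ 2 := by
      rw [le_div_iff₀ (by positivity)]; linarith
    have h10 : c * Real.log (1 / (s - 1)) - (C1 / p + C2 / p + C3 / (p : ℝ) ^ 2 + S.card) =
        (Real.log (1 / (s - 1)) - C1) / p + (Real.log (1 / (s - 1)) - C2) / p -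
          (Real.log (1 / (s - 1)) + C3) / (p : ℝ) ^ 2 - S.card := by
      rw [hc]; ring
    rw [h10]
    linarith
  have h := hI L ((D ∪ D') \ (S : Set (HeightOneSpectrum (𝓞 L)))) c hc0 key U (by
    rintro v ⟨hv | hv, hw⟩
    · exact hU v (by simpa using hw) hv
    · exact hU' v (by simpa using hw) hv)
  have h1 : (p : ℝ) * c ≤ 1 := by
    refine le_trans ?_ h
    exact mul_le_mul_of_nonneg_right (by exact_mod_cast hUi) hc0.le
  have h2 : (p : ℝ) * c = 2 - 1 / p := by
    rw [hc]; field_simp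
  rw [h2] at h1
  have h3 : 1 / (p : ℝ) ≤ 1 / 2 := one_div_le_one_div_of_le (by norm_num) hp2
  linarith

end Pool.Agent.VB


end

section

/-!
# VB, module DLB: the primes with a degree one prime above (helper30)
-/

set_option autoImplicit false

open NumberField IsDedekindDomain Ideal Filter Topology Asymptotics
open scoped nonZeroDivisors

namespace Pool.Agent.VB

open _root_.Pool.Agent.MU3 _root_.Pool.Agent.Lib_helper28.FROB

namespace DLB

variable (L M : Type) [Field L] [NumberField L] [Field M] [NumberField M] [Algebra L M]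

/-- the prime below -/
noncomputable def dn (w : HeightOneSpectrum (𝓞 M)) : HeightOneSpectrum (𝓞 L) :=
  ⟨w.asIdeal.under (𝓞 L), by
    have := w.isPrime
    infer_instance, fun h0 => w.ne_bot (Ideal.eq_bot_of_comap_eq_bot h0)⟩

lemma norm_dn (w : HeightOneSpectrum (𝓞 M)) (hp : (absNorm w.asIdeal).Prime) :
    absNorm w.asIdeal = absNorm (dn L M w).asIdeal := by
  have hinj : Function.Injective
      (Ideal.quotientMap w.asIdeal (algebraMap (𝓞 L) (𝓞 M)) (le_refl _)) :=
    Ideal.quotientMap_injective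
  have hdvd : Nat.card (𝓞 L ⧸ w.asIdeal.under (𝓞 L)) ∣ Nat.card (𝓞 M ⧸ w.asIdeal) :=
    AddSubgroup.card_dvd_of_injective
      (Ideal.quotientMap w.asIdeal (algebraMap (𝓞 L) (𝓞 M)) (le_refl _)).toAddMonoidHom hinj
  have h1 : absNorm (dn L M w).asIdeal ∣ absNorm w.asIdeal := hdvd
  rcases (Nat.dvd_prime hp).1 h1 with h | h
  · exact absurd (Ideal.absNorm_eq_one_iff.1 h) (dn L M w).isPrime.ne_top
  · exact h.symm

lemma exists_inj (v : HeightOneSpectrum (𝓞 L)) :
    ∃ e : HeightOneSpectrum (𝓞 M) → Fin (Module.finrank L M),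
      ∀ w w' : HeightOneSpectrum (𝓞 M), dn L M w = v → dn L M w' = v → e w = e w' → w = w' := by
  classical
  have hmax : v.asIdeal.IsMaximal := v.isMaximal
  have hnz : NoZeroSMulDivisors (𝓞 L) (𝓞 M) := ⟨fun {c x} h => by simpa using h⟩
  have hcard : (IsDedekindDomain.primesOverFinset v.asIdeal (𝓞 M)).card ≤ Module.finrank L M :=
    card_primesOverFinset_le_finrank (𝓞 M) L M v.ne_bot
  have hmem : ∀ w : HeightOneSpectrum (𝓞 M), dn L M w = v →
      w.asIdeal ∈ IsDedekindDomain.primesOverFinset v.asIdeal (𝓞 M) := by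
    intro w hw
    refine (IsDedekindDomain.mem_primesOverFinset_iff v.ne_bot _).2 ⟨w.isPrime, ⟨?_⟩⟩
    rw [← hw]
    rfl
  have hpos : 0 < Module.finrank L M := Module.finrank_pos
  refine ⟨fun w => if hw : dn L M w = v then
    Fin.castLE hcard ((IsDedekindDomain.primesOverFinset v.asIdeal (𝓞 M)).equivFin
      ⟨w.asIdeal, hmem w hw⟩) else ⟨0, hpos⟩, fun w w' hw hw' h => ?_⟩
  simp only [dif_pos hw, dif_pos hw'] at h
  have h1 := Fin.castLE_injective hcard h
  have h2 := (IsDedekindDomain.primesOverFinset v.asIdeal (𝓞 M)).equivFin.injective h1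
  exact HeightOneSpectrum.ext (congrArg Subtype.val h2)

end DLB

theorem tb_DLB : Sb_DLB := by
  classical
  intro L M _ _ _ _ _
  obtain ⟨C₁, hC₁⟩ := (isBigO_sum M).bound
  obtain ⟨C₂, hC₂⟩ := m_DEG2 M {w : HeightOneSpectrum (𝓞 M) | ¬ (absNorm w.asIdeal).Prime}
    (fun w hw => hw)
  choose e he using DLB.exists_inj L M
  set B : Set (HeightOneSpectrum (𝓞 L)) := {v | Pool.Agent.HB.Deg1 L M v} with hB
  set W : Set (HeightOneSpectrum (𝓞 M)) := {w | (absNorm w.asIdeal).Prime} with hW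
  have hWB : ∀ w : W, DLB.dn L M w.1 ∈ B := fun w =>
    ⟨w.1, rfl, DLB.norm_dn L M w.1 w.2⟩
  let g : W → B × Fin (Module.finrank L M) := fun w =>
    (⟨DLB.dn L M w.1, hWB w⟩, e (DLB.dn L M w.1) w.1)
  have hg : Function.Injective g := by
    intro w w' h
    have h1 : DLB.dn L M w.1 = DLB.dn L M w'.1 := congrArg (fun q => q.1.1) h
    have h2 : e (DLB.dn L M w.1) w.1 = e (DLB.dn L M w'.1) w'.1 := congrArg (fun q => q.2) h
    rw [← h1] at h2
    exact Subtype.ext (he (DLB.dn L M w.1) w.1 w'.1 rfl h1.symm h2)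
  refine ⟨C₁ + C₂, ?_⟩
  filter_upwards [hC₁, self_mem_nhdsWithin] with s hsC hs
  have hs' : (1 : ℝ) < s := hs
  rw [norm_one, mul_one, Real.norm_eq_abs] at hsC
  have h1 := neg_abs_le (∑' v : HeightOneSpectrum (𝓞 M), x s v - Real.log (1 / (s - 1)))
  have hsumL := summable_x (K := L) hs'
  have hsumM := summable_x (K := M) hs'
  have h2 := hC₂ s hs'
  -- splitting the sum
  have h3 : ∑' w : HeightOneSpectrum (𝓞 M), x s w = ∑' w, Set.indicator W (x s) w +
      ∑' w, Set.indicator {w : HeightOneSpectrum (𝓞 M) | ¬ (absNorm w.asIdeal).Prime} (x s) w := by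
    rw [← (hsumM.indicator W).tsum_add (hsumM.indicator _)]
    refine tsum_congr fun w => ?_
    by_cases hw : w ∈ W
    · have hn : w ∉ {w : HeightOneSpectrum (𝓞 M) | ¬ (absNorm w.asIdeal).Prime} := fun h => h hw
      rw [Set.indicator_of_mem hw, Set.indicator_of_notMem hn, add_zero]
    · rw [Set.indicator_of_notMem hw, Set.indicator_of_mem (show w ∈ {w : HeightOneSpectrum (𝓞 M) |
        ¬ (absNorm w.asIdeal).Prime} from hw), zero_add]
  -- the comparison
  have h4 : ∑' w, Set.indicator W (x s) w ≤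
      (Module.finrank L M : ℝ) * ∑' v, Set.indicator B (x s) v := by
    have hs2 : Summable fun q : B × Fin (Module.finrank L M) => x (K := L) s q.1.1 := by
      have h0 : Summable fun v : B => x (K := L) s v.1 := hsumL.subtype B
      have h5 := h0.mul_of_nonneg (g := fun _ : Fin (Module.finrank L M) => (1 : ℝ))
        (Summable.of_finite) (fun v => (x_pos s v.1).le) (fun _ => zero_le_one)
      refine h5.congr fun q => ?_
      rw [mul_one]
    have h6 : (Module.finrank L M : ℝ) * ∑' v, Set.indicator B (x s) v =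
        ∑' q : B × Fin (Module.finrank L M), x (K := L) s q.1.1 := by
      rw [← tsum_subtype, hs2.tsum_prod, ← tsum_mul_left]
      refine tsum_congr fun v => ?_
      simp
    rw [h6, ← tsum_subtype]
    refine Summable.tsum_le_tsum_of_inj g hg (fun q _ => (x_pos s q.1.1).le) (fun w => ?_)
      (hsumM.subtype W) hs2
    have h7 : absNorm w.1.asIdeal = absNorm (DLB.dn L M w.1).asIdeal := DLB.norm_dn L M w.1 w.2
    show x s w.1 ≤ x s (DLB.dn L M w.1)
    unfold x
    rw [h7]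
  linarith

end Pool.Agent.VB


end
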