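import Mathlib.Algebra.Group.ForwardDiff
import Pool.Agent.MVF.C034
import Pool.Agent.MVF.C098
import Pool.Agent.MVF.C110
import Pool.Agent.MVF.C114
import Pool.Agent.MVF.C115
import Pool.Agent.MVF.C116
import Pool.Agent.MVF.C118
import Pool.Agent.MVF.C119
import Pool.Agent.MVF.C120
import Pool.Agent.MVF.C121
import Pool.Agent.MVF.C122

/-! Parts: MUX.ZN, MUX.ZW, MUX.HY_IDE, MUX.HY_ALF, MUX.HX_KMX, MUX.HX_H5, MUX.HXAll, MUX.HYAll, MUX.EXAll, MUX.ZFin, MUX.ZFinal -/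

namespace Pool.Agent.MUXH.H5
end Pool.Agent.MUXH.H5
namespace Pool.Agent.MUXH.Kmx
end Pool.Agent.MUXH.Kmx
namespace Pool.Agent.MUXHY.Ide
end Pool.Agent.MUXHY.Ide

section

/-!
# MUX, blocks G and H: assembly (helper3)
-/

set_option autoImplicit false

namespace Pool.Agent.MUXN

open _root_.Pool.Agent.MUXF _root_.Pool.Agent.MUXU _root_.Pool.Agent.MUXC _root_.Pool.Agent.MU3B _root_.Pool.Agent.MUX
open _root_.MU3

theorem z_DV : Sg_DV := tg_DV
theorem z_GV : Sg_GV := tg_GV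
theorem z_GD : Sg_GD := tg_GD
theorem z_GP : Sg_GP := tg_GP z_GV z_GD
theorem z_RET : Sg_RET := tg_RET
theorem z_NFE : Sg_NFE := tg_NFE
theorem z_FGG : Sg_FGG := tg_FGG
theorem z_DSC : Sg_DSC := tg_DSC tg_DSI
theorem z_ZL : Sg_ZL := tg_ZL
theorem z_FK : Sg_FK := tg_FK u_AUF
theorem z_UNIT : Sg_UNIT := tg_UNIT xf_IDL xf_NIM
theorem z_QXP : Sg_QXP := tg_QXP z_UNIT xf_ALG xf_IDL xf_QB xf_BDD xf_TSM
theorem z_GDT : Sg_GDT := tg_GDT z_QXP MUXT.main_FTI xf_CHI MUXY.z_CON MUXY.z_ALP MUXY.z_ALM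
  MUXY.z_FEC MUXY.z_COP

end Pool.Agent.MUXN


end

section

/-!
# MUX, block W without hypotheses (helper3)
-/

set_option autoImplicit false

namespace Pool.Agent.MUXW

open _root_.Pool.Agent.MUXF _root_.Pool.Agent.MUXU _root_.Pool.Agent.MUXC _root_.Pool.Agent.MU3B _root_.Pool.Agent.MUXV _root_.Pool.Agent.MU3A

theorem z_ACM : Sy_ACM := ty_ACM q_EMB
theorem z_KER : Sy_KER := ty_KER q_EMB
theorem z_THC : Sy_THC := ty_THC u_PHI u_TSN
theorem z_THG : Sy_THG := ty_THG z_THC u_AUE u_AUF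
theorem z_GRB : Sy_GRB := ty_GRB c_NGR q_ALU
theorem z_INV : Sy_INV := ty_INV q_EMB
theorem z_FRH : Sy_FRH :=
  ty_FRH q_EMB u_DET c_FRX q_VQI q_ALU q_TOR q_CYQ q_DGI q_DGL z_GRB z_KER z_ACM
theorem z_MEM : Sy_MEM := ty_MEM
theorem z_TOW : Sy_TOW := ty_TOW z_MEM
theorem z_HIT : Sy_HIT := ty_HIT q_EMB u_DET
theorem z_CXS : Sy_CXS := ty_CXS z_HIT z_THG
theorem z_SUC : Sy_SUC := ty_SUC MU3X.v_EXT q_THU q_TOR q_EMB z_GRB u_AUE
theorem z_DIS : Sy_DIS := ty_DIS b_TDI b_TIN z_THG z_KER q_EMB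
theorem z_NRM : Sy_NRM := ty_NRM z_DIS z_KER z_ACM z_THG q_EMB
theorem z_I1 : Sy_I1 := ty_I1 z_NRM z_MEM
theorem z_PRQ : Sy_PRQ := ty_PRQ q_EMB
theorem z_FRD : Sy_FRD := ty_FRD z_FRH z_PRQ z_MEM MU3X.w_LOC MU3X.v_EXT
theorem z_URA : Sy_URA := ty_URA
theorem z_KOL : Sy_KOL := ty_KOL z_ACM z_KER z_THG z_GRB z_INV z_DIS z_PRQ z_FRD z_URA

end Pool.Agent.MUXW


end

section

/-!
# MUX, block HY, module IDE (helper96): the ideals `P`, `cjI P`, `f`
-/

set_option autoImplicit false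

namespace Pool.Agent.MUXHY

open _root_.MU3 _root_.Pool.Agent.MU3A _root_.Pool.Agent.MU3B _root_.Pool.Agent.MU3F _root_.Pool.Agent.MUX _root_.Pool.Agent.MUXH
  _root_.Pool.Agent.MuSym OnePoint
open scoped ComplexConjugate

noncomputable section

namespace Ide

variable {A B : ℤ}

theorem mem_cjI (b : Ideal (OO A B)) (x : OO A B) : x ∈ cjI b ↔ star x ∈ b := Iff.rfl

theorem nat_mem_cjI {b : Ideal (OO A B)} {n : ℕ} (h : (n : OO A B) ∈ b) :
    (n : OO A B) ∈ cjI b := by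
  rw [mem_cjI, star_natCast]
  exact h

end Ide

open _root_.Pool.Agent.MUXHY.Ide in
/-- (IDE) the ideals `P`, `cjI P`, `f`. -/
theorem ty_IDE (h1 : MUXF.Sx_ALG) : Sy_IDE := by
  intro p A B P V f hs
  have hcq := toCQ hs.case.toCQ
  obtain ⟨-, -, hint, hfin, hdom⟩ := h1 A B hcq
  have hpr := hs.hP.prime
  have hpp : p.Prime := by
    rcases hs.case.split with ⟨rfl, -⟩ | ⟨rfl, -⟩
    · exact Nat.prime_three
    · exact Nat.prime_two
  have hndvd : ¬ (p : ℤ) ∣ B ^ 2 + 4 * A := by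
    rcases hs.case.split with ⟨rfl, h⟩ | ⟨rfl, h⟩
    · push_cast; omega
    · push_cast; omega
  have hnat0 : ∀ n : ℕ, n ≠ 0 → (n : OO A B) ≠ 0 := by
    intro n hn h0
    have e1 := (hint (n : ℤ)).2
    have e2 : (((n : ℕ) : ℤ) : OO A B) = (n : OO A B) := by push_cast; rfl
    rw [e2, h0] at e1
    have e3 : nm (0 : OO A B) = 0 := by
      have := (hint 0).2
      simpa using this
    rw [e3] at e1
    have e4 : (n : ℤ) = 0 := by
      by_contra hne
      have := pow_ne_zero 2 hne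
      exact this e1.symm
    exact hn (by exact_mod_cast e4)
  have hpP := hs.hP.mem
  -- the integer `r`
  obtain ⟨r, hr1, hr2⟩ := Pool.Agent.MUXV.tq_DGI A B P p hpp hs.hP.norm
  have c1 : P ≠ ⊥ := by
    intro h
    rw [h] at hpP
    exact hnat0 p hpp.ne_zero (by simpa using hpP)
  have c2 : P.IsMaximal := by
    have := hfin P c1
    exact Ideal.Quotient.maximal_of_isField P (Finite.isField_of_domain (OO A B ⧸ P))
  have hpC : (p : OO A B) ∈ cjI P := nat_mem_cjI hpP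
  have c3 : IsCoprime P (cjI P) := by
    have hx : (⟨-r, 1⟩ : OO A B) ∈ P := (hr2 _).2 (by simp)
    have hy : (⟨-(B - r), 1⟩ : OO A B) ∈ cjI P := by
      rw [mem_cjI]
      refine (hr2 _).2 ?_
      simp
    have hcop : IsCoprime (B - 2 * r) (p : ℤ) := by
      have hp' := Nat.prime_iff_prime_int.1 hpp
      refine ((hp'.coprime_iff_not_dvd).2 ?_).symm
      intro hd
      apply hndvd
      have e1 : B ^ 2 + 4 * A = (B - 2 * r) * (B - 2 * r) - 4 * (r ^ 2 - B * r - A) := by ring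
      rw [e1]
      exact dvd_sub (hd.mul_right _) (hr1.mul_left _)
    obtain ⟨u, v, huv⟩ := hcop
    rw [Ideal.isCoprime_iff_exists]
    refine ⟨(u : OO A B) * ⟨-r, 1⟩ + (v : OO A B) * (p : OO A B),
      add_mem (P.mul_mem_left _ hx) (P.mul_mem_left _ hpP),
      -((u : OO A B) * ⟨-(B - r), 1⟩), neg_mem ((cjI P).mul_mem_left _ hy), ?_⟩
    have e1 : (⟨-r, 1⟩ : OO A B) = ⟨-(B - r), 1⟩ + ((B - 2 * r : ℤ) : OO A B) := by
      apply QuadraticAlgebra.ext
      · simp only [QuadraticAlgebra.re_add, QuadraticAlgebra.re_intCast, Int.cast_id]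
        ring
      · simp only [QuadraticAlgebra.im_add, QuadraticAlgebra.im_intCast, add_zero]
    have e2 : (u : OO A B) * ((B - 2 * r : ℤ) : OO A B) + (v : OO A B) * (p : OO A B) = 1 := by
      have := congrArg (fun n : ℤ => (n : OO A B)) huv
      simpa using this
    rw [e1]
    linear_combination e2
  have c4 : IsCoprime P (idl (A := A) (B := B) f) := by
    have hcop : IsCoprime (p : ℤ) (f : ℤ) := by
      rw [Nat.isCoprime_iff_coprime]
      exact (Nat.Prime.coprime_iff_not_dvd hpp).2 hs.fp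
    obtain ⟨u, v, huv⟩ := hcop
    rw [Ideal.isCoprime_iff_exists]
    refine ⟨(u : OO A B) * (p : OO A B), P.mul_mem_left _ hpP, (v : OO A B) * (f : OO A B),
      Ideal.mul_mem_left _ _ (Ideal.mem_span_singleton_self _), ?_⟩
    have := congrArg (fun n : ℤ => (n : OO A B)) huv
    simpa using this
  have c6 : ((p * f : ℕ) : OO A B) ∈ idl f * cjI P := by
    have e : ((p * f : ℕ) : OO A B) = (f : OO A B) * (p : OO A B) := by push_cast; ring
    rw [e]
    exact Ideal.mul_mem_mul (Ideal.mem_span_singleton_self _) hpC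
  refine ⟨c1, c2, c3, c4, ?_, c6, Ideal.mul_le_right, ?_, hpC, ?_⟩
  · intro h
    rw [h] at c6
    exact hnat0 (p * f) (mul_ne_zero hpp.ne_zero hs.f0) (by simpa using c6)
  · refine Ideal.mul_le_left.trans ?_
    rw [Ideal.span_singleton_le_span_singleton]
    obtain ⟨k, hk⟩ := hs.fD
    refine ⟨(k : OO A B), ?_⟩
    have := congrArg (fun n : ℤ => (n : OO A B)) hk
    simpa using this
  · intro h al hh hPal
    have hcc : IsCoprime (P ^ h) (cjI P) := IsCoprime.pow_left c3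
    refine ⟨?_, ?_, ?_⟩
    · rintro rfl
      have e1 : ((p : OO A B)) ^ h ∈ P ^ h := Ideal.pow_mem_pow hpP h
      rw [hPal] at e1
      have e2 : (((p ^ h : ℕ) : ℕ) : OO A B) = 0 := by
        push_cast
        simpa using e1
      exact hnat0 (p ^ h) (pow_ne_zero _ hpp.ne_zero) e2
    · rw [← hPal]
      exact (IsCoprime.pow_left c4).mul_right hcc
    · intro hal
      have e1 : sp al ≤ cjI P := by
        rw [Ideal.span_singleton_le_iff_mem]
        exact hal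
      rw [hPal, Ideal.isCoprime_iff_sup_eq, sup_eq_right.2 e1] at hcc
      have e2 : (1 : OO A B) ∈ cjI P := by rw [hcc]; trivial
      rw [mem_cjI, star_one] at e2
      exact hpr.ne_top ((Ideal.eq_top_iff_one _).2 e2)

end

end Pool.Agent.MUXHY


end

section

/-!
# MUX, module HY_ALF: the values of `PP 0` are algebraic and in a finitely generated group
-/

set_option autoImplicit false

namespace Pool.Agent.MUXHY

open _root_.MU3 _root_.Pool.Agent.MU3A _root_.Pool.Agent.MU3B _root_.Pool.Agent.MU3F _root_.Pool.Agent.MUX _root_.Pool.Agent.MUXH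
  _root_.Pool.Agent.MuSym OnePoint
open scoped ComplexConjugate

namespace Alf

/-- `PP 0` without the power of `P`. -/
lemma PP_zero {A B : ℤ} {n : ℕ} {ι : Type} [Fintype ι] (R : Reps A B n ι) (P : Ideal (OO A B))
    (e : OO A B → ℂ) (kk : ι → ℂ) (x y : OnePoint ℚ) :
    PP R P e kk 0 x y = ∑ c, (kk c / e ((nI (R.b c) : ℕ) : OO A B) / R.om R.i0) *
      PhiI (R.b c) e x y := by
  unfold PP
  rw [Finset.sum_div]
  apply Finset.sum_congr rfl
  intro c _
  rw [pow_zero, mul_one]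
  ring

/-- A multiple of an element of a finitely generated group. -/
lemma mul_mem_closure (S : Finset ℂ) (a z : ℂ) (hz : z ∈ AddSubgroup.closure (S : Set ℂ)) :
    a * z ∈ AddSubgroup.closure ((fun s => a * s) '' (S : Set ℂ)) := by
  have h1 : (AddMonoidHom.mulLeft a) z ∈
      (AddSubgroup.closure (S : Set ℂ)).map (AddMonoidHom.mulLeft a) :=
    AddSubgroup.mem_map_of_mem _ hz
  rw [AddMonoidHom.map_closure] at h1
  exact h1

end Alf

theorem ty_ALF (h1 : Sy_IDE) (h2 : Sy_ROU) (h3 : Sy_RAT) (h4 : MUXT.Xs_FTI) (h5 : MUXF.Sx_F7) :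
    Sy_ALF := by
  intro p A B P V f hS ι _ R e he kk hkk
  have hc : CQ A B := hS.case.toCQ
  obtain ⟨_, _, _, _, hg, hpf, _, _, _, _⟩ := h1 p A B P V f hS
  obtain ⟨r, hr, hr1⟩ := h2 A B hc _ e hg he
  have hp : p ≠ 0 := by
    rcases hS.case.split with ⟨h, _⟩ | ⟨h, _⟩ <;> omega
  refine ⟨fun x y => ?_, ?_⟩
  · rw [Alf.PP_zero]
    have hcoef : ∀ c, kk c / e ((nI (R.b c) : ℕ) : OO A B) / R.om R.i0 * PhiI (R.b c) e x y =
        kk c / e ((nI (R.b c) : ℕ) : OO A B) * (PhiI (R.b c) e x y / R.om c) *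
          (R.om c / R.om R.i0) := by
      intro c
      have h0 : R.om c ≠ 0 := (R.nl c).om_ne
      field_simp
    rw [Finset.sum_congr rfl fun c _ => hcoef c]
    rw [← mem_algebraicClosure_iff]
    apply sum_mem
    intro c _
    have hrat := h3 A B hc (R.b c) (R.L c) (R.om c) (R.nl c)
    refine mul_mem (mul_mem (div_mem ?_ ?_) ?_) ?_
    · exact mem_algebraicClosure_iff.2 (hkk c)
    · rw [mem_algebraicClosure_iff]
      by_cases h0 : e ((nI (R.b c) : ℕ) : OO A B) = 0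
      · rw [h0]; exact isAlgebraic_zero
      · have h6 := hr1 _ h0
        apply IsAlgebraic.of_pow (Nat.pos_of_ne_zero hr)
        rw [h6]
        exact isAlgebraic_one
    · exact mem_algebraicClosure_iff.2 (hrat.2 _ e hg he x y)
    · exact mem_algebraicClosure_iff.2 (hrat.1 _ _ _ (R.nl R.i0))
  · have hD : (0 : ℤ) < -(B ^ 2 + 4 * A) := by have := hc.neg; linarith
    obtain ⟨D, hDe⟩ : ∃ D : ℕ, (D : ℤ) = -(B ^ 2 + 4 * A) :=
      ⟨(-(B ^ 2 + 4 * A)).toNat, Int.toNat_of_nonneg hD.le⟩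
    have hD0 : D ≠ 0 := by
      rintro rfl
      simp at hDe
      omega
    have hG : 0 < p * f := Nat.mul_pos (Nat.pos_of_ne_zero hp) (Nat.pos_of_ne_zero hS.f0)
    have hN : D * (p * f) ^ 2 ≠ 0 := mul_ne_zero hD0 (pow_ne_zero _ hG.ne')
    have hex : ∀ c, ∃ S : Finset ℂ, ∀ x y, PhiI (R.b c) e x y ∈ AddSubgroup.closure (S : Set ℂ) := by
      intro c
      have h7 := h4 A B hc.hB hc.neg (R.b c) (R.nl c).b_ne e (p * f) hG he.mul ?_ he.neg
      · have h8 := (h7.2 (D * (p * f) ^ 2) hN ?_).1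
        · exact h5 A B (toCQ hc) (R.b c) _ e (R.nl c).b_ne hg (toEI he) _ hN h8
        · rw [← hDe]
          push_cast
          exact dvd_refl _
      · intro x y hxy
        apply he.per
        obtain ⟨z, hz⟩ := hxy
        rw [hz]
        exact Ideal.mul_mem_right _ _ hpf
    choose S hSm using hex
    classical
    refine ⟨Finset.univ.biUnion fun c => (S c).image fun s =>
      (kk c / e ((nI (R.b c) : ℕ) : OO A B) / R.om R.i0) * s, fun x y => ?_⟩
    rw [Alf.PP_zero]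
    apply sum_mem
    intro c _
    refine AddSubgroup.closure_mono ?_ (Alf.mul_mem_closure (S c) _ _ (hSm c x y))
    intro z hz
    obtain ⟨s, hs, rfl⟩ := hz
    simp only [Finset.coe_biUnion, Finset.coe_image, Set.mem_iUnion]
    exact ⟨c, Finset.mem_coe.2 (Finset.mem_univ c), s, hs, rfl⟩

end Pool.Agent.MUXHY


end

section

/-!
# MUX, block HX: module KMX (helper43)

The key lemma for a cycle of symbols, from the key lemma for one symbol over the Laurent polynomial ring.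
-/

set_option autoImplicit false

namespace Pool.Agent.MUXH

open _root_.MU3 _root_.Pool.Agent.MuSym OnePoint

noncomputable section

namespace Kmx

variable {R M : Type} [CommRing R] [AddCommGroup M] [Module R M]

/-- the twisted shift -/
def sh (h : ℕ) (h1 : 1 ≤ h) (a : R) : (Fin h → M) →ₗ[R] (Fin h → M) where
  toFun m i := if hi : (i : ℕ) + 1 < h then m ⟨(i : ℕ) + 1, hi⟩ else a • m ⟨0, h1⟩
  map_add' m m' := by
    funext i
    by_cases hi : (i : ℕ) + 1 < h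
    · simp [hi]
    · simp [hi, smul_add]
  map_smul' r m := by
    funext i
    by_cases hi : (i : ℕ) + 1 < h
    · simp [hi]
    · simp [hi, smul_comm a r]

/-- the inverse -/
def shi (h : ℕ) (h1 : 1 ≤ h) (a' : R) : (Fin h → M) →ₗ[R] (Fin h → M) where
  toFun m i := if (i : ℕ) = 0 then a' • m ⟨h - 1, by omega⟩ else m ⟨(i : ℕ) - 1, by omega⟩
  map_add' m m' := by
    funext i
    by_cases hi : (i : ℕ) = 0
    · simp [hi, smul_add]
    · simp [hi]
  map_smul' r m := by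
    funext i
    by_cases hi : (i : ℕ) = 0
    · simp [hi, smul_comm a' r]
    · simp [hi]

theorem sh_apply {h : ℕ} (h1 : 1 ≤ h) (a : R) (m : Fin h → M) (i : Fin h) :
    sh h h1 a m i = if hi : (i : ℕ) + 1 < h then m ⟨(i : ℕ) + 1, hi⟩ else a • m ⟨0, h1⟩ := rfl

theorem shi_apply {h : ℕ} (h1 : 1 ≤ h) (a' : R) (m : Fin h → M) (i : Fin h) :
    shi h h1 a' m i = if (i : ℕ) = 0 then a' • m ⟨h - 1, by omega⟩ else m ⟨(i : ℕ) - 1, by omega⟩ :=
  rfl

theorem sh_shi {h : ℕ} (h1 : 1 ≤ h) {a a' : R} (haa : a * a' = 1) (m : Fin h → M) :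
    sh h h1 a (shi h h1 a' m) = m := by
  funext i
  rw [sh_apply]
  split_ifs with hi
  · rw [shi_apply]
    rw [if_neg (by simp)]
    congr 1
  · rw [shi_apply, if_pos rfl, smul_smul, haa, one_smul]
    congr 1
    ext
    have := i.isLt
    show h - 1 = (i : ℕ)
    omega

theorem shi_sh {h : ℕ} (h1 : 1 ≤ h) {a a' : R} (haa : a * a' = 1) (m : Fin h → M) :
    shi h h1 a' (sh h h1 a m) = m := by
  funext i
  rw [shi_apply]
  split_ifs with hi
  · rw [sh_apply, dif_neg (by show ¬ (h - 1 + 1 < h); omega), smul_smul, mul_comm, haa, one_smul]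
    congr 1
    ext
    exact hi.symm
  · have := i.isLt
    rw [sh_apply, dif_pos (by show (i : ℕ) - 1 + 1 < h; omega)]
    congr 1
    ext
    show (i : ℕ) - 1 + 1 = (i : ℕ)
    omega

/-- the unit -/
def shu (h : ℕ) (h1 : 1 ≤ h) (a a' : R) (haa : a * a' = 1) : (Module.End R (Fin h → M))ˣ where
  val := sh h h1 a
  inv := shi h h1 a'
  val_inv := LinearMap.ext fun m => sh_shi h1 haa m
  inv_val := LinearMap.ext fun m => shi_sh h1 haa m

/-- the action of the Laurent polynomials -/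
def act (h : ℕ) (h1 : 1 ≤ h) (a a' : R) (haa : a * a' = 1) :
    LaurentPolynomial R →ₐ[R] Module.End R (Fin h → M) :=
  AddMonoidAlgebra.lift R (Module.End R (Fin h → M)) ℤ
    ((Units.coeHom _).comp (zpowersHom _ (shu h h1 a a' haa)))

theorem act_T {h : ℕ} (h1 : 1 ≤ h) {a a' : R} (haa : a * a' = 1) :
    act (M := M) h h1 a a' haa (LaurentPolynomial.T 1) = sh h h1 a := by
  unfold act LaurentPolynomial.T
  rw [AddMonoidAlgebra.lift_single, one_smul]
  simp [shu]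

end Kmx

open _root_.Pool.Agent.MUXH.Kmx in
theorem tx_KMX : Sx_KMX := by
  intro p hp N' s hpN hN R M _ _ _ χ Φ h h1 a ha k hk hχ1 hχm hχp hadd hE hT hTa hZ
  obtain ⟨a', haa⟩ := ha.exists_right_inv
  have hKM2 : Pool.Agent.MU3.S_KM2 :=
    Pool.Agent.MU3.t_KM2 Pool.Agent.MU3.t_KM1 Pool.Agent.MU3.t_KM1L
  let act' : LaurentPolynomial R →+* Module.End R (Fin h → M) :=
    (act h h1 a a' haa : LaurentPolynomial R →ₐ[R] Module.End R (Fin h → M)).toRingHom
  let inst : Module (LaurentPolynomial R) (Fin h → M) := Module.compHom (Fin h → M) act'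
  have hsm : ∀ (r : LaurentPolynomial R) (m : Fin h → M), r • m = act h h1 a a' haa r m :=
    fun r m => rfl
  have hT1 : ∀ m : Fin h → M, (LaurentPolynomial.T 1 : LaurentPolynomial R) • m = sh h h1 a m := by
    intro m
    rw [hsm, act_T]
  have hal : ∀ (r : R) (m : Fin h → M), algebraMap R (LaurentPolynomial R) r • m = r • m := by
    intro r m
    rw [hsm, AlgHom.commutes, Module.algebraMap_end_apply]
  -- vanishing of all the components
  have hZ' : ∀ i n : ℕ, 1 ≤ n → ∀ b : ℤ, ¬ (p : ℤ) ∣ b →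
      Φ i ∞ ((b / p ^ n : ℚ) : OnePoint ℚ) = 0 := by
    intro i
    induction i with
    | zero => exact hZ
    | succ i ih =>
      intro n hn b hb
      rw [hT]
      refine Finset.sum_eq_zero fun j _ => ?_
      have hpQ : (p : ℚ) ≠ 0 := by exact_mod_cast hp.ne_zero
      have e : ((b / p ^ n : ℚ) + j) / p = (((b + j * p ^ n : ℤ) : ℚ) / p ^ (n + 1) : ℚ) := by
        push_cast
        field_simp
        ring
      rw [e]
      refine ih (n + 1) (by omega) _ fun hcon => hb ?_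
      have h3 : (p : ℤ) ∣ j * p ^ n := Dvd.dvd.mul_left (dvd_pow_self _ (by omega)) _
      exact (dvd_add_left h3).1 hcon
  have key := @hKM2 p hp N' s hpN hN (LaurentPolynomial R) (Fin h → M) _ _ inst
    (fun d => algebraMap R (LaurentPolynomial R) (χ d)) (fun x y i => Φ i x y)
    (LaurentPolynomial.T 1) (LaurentPolynomial.isUnit_T 1) k
    (by
      intro x y
      rw [← Nat.cast_pow, Nat.cast_smul_eq_nsmul]
      funext i
      have h3 := hk i x y
      rw [← Nat.cast_pow, Nat.cast_smul_eq_nsmul] at h3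
      exact h3)
    (by rw [hχ1, map_one])
    (fun d d' => by rw [hχm, map_mul])
    (fun d d' hd => by rw [hχp d d' hd])
    (fun x y z => by
      funext i
      exact hadd i x y z)
    (fun a b c d hdet hc x y => by
      rw [hal]
      funext i
      exact hE i a b c d hdet hc x y)
    (fun x => by
      rw [hT1]
      funext i
      rw [sh_apply, Finset.sum_apply]
      split_ifs with hi
      · exact hT i x
      · have hi2 : (i : ℕ) + 1 = h := by
          have := i.isLt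
          omega
        rw [← hTa x, ← hT i x, hi2])
    (fun n hn b hb => by
      funext i
      exact hZ' i n hn b hb)
  intro α β γ δ hdet hγ hδ x
  exact congrFun (key α β γ δ hdet hγ hδ x) ⟨0, h1⟩

end

end Pool.Agent.MUXH


end

section

/-!
# MUX, block HX, module H5 (helper23), adapted from `MU3/H_H5.lean`
-/

set_option autoImplicit false

namespace Pool.Agent.MUXH

open _root_.MU3 _root_.Pool.Agent.MuSym OnePoint

noncomputable section

namespace H5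

/-- the start -/
def M0 (a : ℤ) (M : ℕ → ℤ → ℂ) : ℕ → ℤ → ℂ :=
  fun n b => (-(a : ℂ) ^ 2) * M n (a ^ 2 * b) - (-(a : ℂ)) * M n b

/-- the steps -/
def Mi (a g : ℤ) (M : ℕ → ℤ → ℂ) : ℕ → ℕ → ℤ → ℂ
  | 0 => M0 a M
  | i + 1 => fun n b => 1 * Mi a g M i n (g * b) - 1 * Mi a g M i n b

theorem Mi_succ (a g : ℤ) (M : ℕ → ℤ → ℂ) (i n : ℕ) (b : ℤ) :
    Mi a g M (i + 1) n b = Mi a g M i n (g * b) - Mi a g M i n b := by
  show 1 * Mi a g M i n (g * b) - 1 * Mi a g M i n b = _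
  ring

theorem Mi_fwd (a g : ℤ) (M : ℕ → ℤ → ℂ) (n : ℕ) (b : ℤ) (N y : ℕ) :
    Mi a g M N n (g ^ y * b) =
      ((fwdDiff (1 : ℕ))^[N] (fun j : ℕ => M0 a M n (g ^ j * b))) y := by
  induction N generalizing y with
  | zero => rfl
  | succ N ih =>
    rw [Function.iterate_succ_apply', fwdDiff, ← ih, ← ih, Mi_succ]
    congr 2
    ring

theorem Mi_sum (a g : ℤ) (M : ℕ → ℤ → ℂ) (n : ℕ) (b : ℤ) (N : ℕ) :
    Mi a g M N n b = ∑ k ∈ Finset.range (N + 1),
      ((-1 : ℂ) ^ (N - k) * (N.choose k : ℂ)) * M0 a M n (g ^ k * b) := by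
  have h := Mi_fwd a g M n b N 0
  rw [pow_zero, one_mul, fwdDiff_iter_eq_sum_shift] at h
  rw [h]
  refine Finset.sum_congr rfl fun k _ => ?_
  rw [zero_add, smul_eq_mul, mul_one, zsmul_eq_mul]
  push_cast
  rfl

theorem comb_eq (a g : ℤ) (M : ℕ → ℤ → ℂ) (N n : ℕ) (b : ℤ) :
    comb a g N (M n) b = (-1) ^ N * Mi a g M N n b := by
  unfold comb
  have h1 : ∀ j ∈ Finset.range (N + 1), ((-1 : ℂ) ^ (N - j) * (N.choose j : ℂ)) *
      ((a : ℂ) * M n (g ^ (N - j) * b) - (a : ℂ) ^ 2 * M n (g ^ (N - j) * a ^ 2 * b)) =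
      (fun k : ℕ => ((-1 : ℂ) ^ k * (N.choose k : ℂ)) * M0 a M n (g ^ k * b)) (N + 1 - 1 - j) := by
    intro j hj
    have hj' : j ≤ N := Nat.lt_succ_iff.1 (Finset.mem_range.1 hj)
    have e1 : N + 1 - 1 - j = N - j := by omega
    rw [e1]
    show _ = ((-1 : ℂ) ^ (N - j) * (N.choose (N - j) : ℂ)) * M0 a M n (g ^ (N - j) * b)
    rw [Nat.choose_symm hj']
    unfold M0
    have e2 : a ^ 2 * (g ^ (N - j) * b) = g ^ (N - j) * a ^ 2 * b := by ring
    rw [e2]
    ring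
  rw [Finset.sum_congr rfl h1, Finset.sum_range_reflect
    (fun k : ℕ => ((-1 : ℂ) ^ k * (N.choose k : ℂ)) * M0 a M n (g ^ k * b)) (N + 1), Mi_sum,
    Finset.mul_sum]
  refine Finset.sum_congr rfl fun k hk => ?_
  have hk' : k ≤ N := Nat.lt_succ_iff.1 (Finset.mem_range.1 hk)
  obtain ⟨m, rfl⟩ := Nat.exists_eq_add_of_le hk'
  rw [Nat.add_sub_cancel_left]
  have e3 : ((-1 : ℂ) ^ m) * (-1) ^ m = 1 := by
    rw [← mul_pow]
    norm_num
  rw [pow_add]
  linear_combination (-((-1 : ℂ) ^ k * ((k + m).choose k : ℂ) * M0 a M n (g ^ k * b))) * e3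

/-- the hypotheses -/
def Inv (p : ℕ) (V : ValuationSubring ℂ) (M : ℕ → ℤ → ℂ) : Prop :=
  Dist p M ∧ (∀ (n : ℕ) (b : ℤ), ¬ (p : ℤ) ^ n ∣ b → V.valuation (M n b) ≤ 1) ∧
    ∃ (n : ℕ) (b : ℤ), 1 ≤ n ∧ ¬ (p : ℤ) ∣ b ∧ V.valuation (M n b) = 1

theorem v_int (V : ValuationSubring ℂ) (k : ℤ) : V.valuation (k : ℂ) ≤ 1 :=
  (V.valuation_le_one_iff _).2 (intCast_mem V k)

theorem v_mulp (p : ℕ) (V : ValuationSubring ℂ) (hp : V.valuation (p : ℂ) < 1) {k : ℤ}
    (hk : (p : ℤ) ∣ k) : V.valuation (k : ℂ) < 1 := by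
  obtain ⟨m, rfl⟩ := hk
  push_cast
  rw [map_mul]
  calc V.valuation (p : ℂ) * V.valuation (m : ℂ) ≤ V.valuation (p : ℂ) * 1 :=
        mul_le_mul_right (v_int V m) _
    _ < 1 := by rwa [mul_one]

theorem v_a (p : ℕ) (V : ValuationSubring ℂ) (hp : V.valuation (p : ℂ) < 1) {a : ℤ}
    (ha : (p : ℤ) ∣ a - 1) : V.valuation (a : ℂ) = 1 := by
  have h1 := v_mulp p V hp ha
  have e : (a : ℂ) = 1 + ((a - 1 : ℤ) : ℂ) := by
    push_cast
    ring
  rw [e]
  exact Valuation.map_one_add_of_lt _ h1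

theorem inv0 (hSTP : Sx_STP) (p : ℕ) (hpp : p.Prime) (V : ValuationSubring ℂ)
    (hp : V.valuation (p : ℂ) < 1) (M : ℕ → ℤ → ℂ) (hM : Inv p V M)
    (a : ℤ) (ha : Q0 p a) (ha1 : a ≠ 1) : Inv p V (M0 a M) := by
  have hva := v_a p V hp ha.1
  have e : a ^ 2 - 1 = (a - 1) * (a + 1) := by ring
  refine hSTP p hpp V hp M hM.1 hM.2.1 hM.2.2 (a ^ 2) ⟨?_, fun h2 => ?_⟩ ?_
    (-(a : ℂ) ^ 2) (-(a : ℂ)) ?_ ?_
  · rw [e]
    exact Dvd.dvd.mul_right ha.1 _
  · rw [e]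
    exact Dvd.dvd.mul_right (ha.2 h2) _
  · intro h
    have e : (a - 1) * (a + 1) = 0 := by linear_combination h
    rcases mul_eq_zero.1 e with h1 | h1
    · exact ha1 (by linarith)
    · have h2 : a = -1 := by linarith
      subst h2
      have h3 : (p : ℤ) ∣ 2 := by
        have := ha.1
        rw [← Int.dvd_neg]
        exact this
      have h4 : p ∣ 2 := by exact_mod_cast h3
      have h5 : p = 2 := (Nat.prime_dvd_prime_iff_eq hpp Nat.prime_two).1 h4
      have h6 := ha.2 h5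
      norm_num at h6
  · rw [Valuation.map_neg, map_pow, hva, one_pow]
  · have e : -(a : ℂ) ^ 2 - -(a : ℂ) = -((a : ℂ) * ((a - 1 : ℤ) : ℂ)) := by
      push_cast
      ring
    rw [e, Valuation.map_neg, map_mul, hva, one_mul]
    exact v_mulp p V hp ha.1

theorem invs (hSTP : Sx_STP) (p : ℕ) (hpp : p.Prime) (V : ValuationSubring ℂ)
    (hp : V.valuation (p : ℂ) < 1) (M : ℕ → ℤ → ℂ) (hM : Inv p V M)
    (a g : ℤ) (ha : Q0 p a) (ha1 : a ≠ 1) (hg : Q0 p g) (hg1 : g ≠ 1) (N : ℕ) :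
    Inv p V (Mi a g M N) := by
  induction N with
  | zero => exact inv0 hSTP p hpp V hp M hM a ha ha1
  | succ N ih =>
    refine hSTP p hpp V hp (Mi a g M N) ih.1 ih.2.1 ih.2.2 g hg hg1 1 1 (map_one _) ?_
    rw [sub_self, map_zero]
    exact zero_lt_one

end H5

open _root_.Pool.Agent.MUXH.H5 in
theorem tx_H5 (hSTP : Sx_STP) : Sx_H5 := by
  intro p hpp V hp M hD hI hE a g ha ha1 hg hg1 N hN
  have hinv := invs hSTP p hpp V hp M ⟨hD, hI, hE⟩ a g ha ha1 hg hg1 N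
  have hv : ∀ n b, V.valuation (comb a g N (M n) b) = V.valuation (Mi a g M N n b) := by
    intro n b
    rw [comb_eq, map_mul, map_pow, Valuation.map_neg, map_one, one_pow, one_mul]
  refine ⟨⟨?_, ?_⟩, ?_, ?_⟩
  · intro n b c h
    show comb a g N (M n) b = comb a g N (M n) c
    rw [comb_eq, comb_eq, hinv.1.per n b c h]
  · intro n b
    show comb a g N (M n) b = ∑ j ∈ Finset.range p, comb a g N (M (n + 1)) (b + j * p ^ n)
    rw [comb_eq, hinv.1.add n b, Finset.mul_sum]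
    exact Finset.sum_congr rfl fun j _ => by rw [comb_eq]
  · intro n b
    rw [hv]
    by_cases h : (p : ℤ) ^ n ∣ b
    · obtain ⟨N', rfl⟩ : ∃ N', N = N' + 1 := ⟨N - 1, by omega⟩
      have hinv' := invs hSTP p hpp V hp M ⟨hD, hI, hE⟩ a g ha ha1 hg hg1 N'
      rw [Mi_succ, hinv'.1.per n (g * b) b (by
        have e : g * b - b = b * (g - 1) := by ring
        rw [e]
        exact Dvd.dvd.mul_right h _), sub_self, map_zero]
      exact zero_le_one
    · exact hinv.2.1 n b h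
  · obtain ⟨n, b, -, -, h⟩ := hinv.2.2
    exact ⟨n, b, by rw [hv]; exact h⟩

end

end Pool.Agent.MUXH


end

section

/-!
# MUX, block H, abstract part (helper27): everything unconditional
-/

set_option autoImplicit false

namespace Pool.Agent.MUXH

theorem x_HZ : Sx_HZ := tx_HZ
theorem x_STP : Sx_STP := tx_STP
theorem x_H5 : Sx_H5 := tx_H5 x_STP
theorem x_MD : Sx_MD := tx_MD
theorem x_MAX : Sx_MAX := tx_MAX
theorem x_ALB : Sx_ALB := tx_ALB
theorem x_DIS : Sx_DIS := tx_DIS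
theorem x_HK : Sx_HK := tx_HK
theorem x_KMX : Sx_KMX := tx_KMX
theorem x_FLD : Sx_FLD := tx_FLD x_MAX
theorem x_BD : Sx_BD := tx_BD x_MAX x_ALB
theorem x_H1 : Sx_H1 := tx_H1
theorem x_H2 : Sx_H2 := tx_H2 x_KMX x_H1 x_HK x_BD

/-- the abstract block H -/
theorem x_HA : Sx_HA := tx_HA x_HZ x_H5 x_MD x_MAX x_DIS x_HK x_FLD x_H2

end Pool.Agent.MUXH


end

section

/-!
# MUX, block H: all statements (helper16). Inputs: `Xs_FTI` (block XT), `Sy_RAT` (section 9), `Sy_GX` (Theorem G)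
-/

set_option autoImplicit false

namespace Pool.Agent.MUXHY

open _root_.Pool.Agent.MUXF

theorem y_VAL : Sy_VAL := ty_VAL
theorem y_IDE : Sy_IDE := ty_IDE xf_ALG
theorem y_CLN : Sy_CLN := ty_CLN xf_ALG xf_NIM
theorem y_ROU : Sy_ROU := ty_ROU xf_BDD
theorem y_CHR : Sy_CHR := ty_CHR y_VAL y_IDE y_ROU xf_CHI
theorem y_EIG : Sy_EIG := ty_EIG y_VAL y_IDE y_ROU xf_ALG
theorem y_SYM (hT : MUXT.Xs_FTI) : Sy_SYM := ty_SYM y_IDE hT xf_HU xf_PRI xf_NIM
theorem y_ALF (hT : MUXT.Xs_FTI) (hR : Sy_RAT) : Sy_ALF := ty_ALF y_IDE y_ROU hR hT xf_F7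
theorem y_PRX : Sy_PRX := ty_PRX y_VAL y_IDE xf_PHX xf_PRJ
theorem y_QSX : Sy_QSX := ty_QSX xf_F5 xf_PRD

theorem y_BRG (hT : MUXT.Xs_FTI) (hR : Sy_RAT) (hG : Sy_GX) : Sy_BRG :=
  ty_BRG y_VAL y_IDE y_ROU y_CHR y_EIG (y_SYM hT) (y_ALF hT hR) y_PRX hG

/-- block H -/
theorem y_HFX (hT : MUXT.Xs_FTI) (hR : Sy_RAT) (hG : Sy_GX) : Sy_HFX :=
  ty_HFX MUXH.x_HA y_VAL y_IDE (y_BRG hT hR hG) y_QSX y_CLN

end Pool.Agent.MUXHY


end

section

/-!
# MUX, block E: all statements, without hypotheses (helper66)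
-/

set_option autoImplicit false

namespace Pool.Agent.MUXE

open _root_.MU3 _root_.Pool.Agent.MU3A _root_.Pool.Agent.MU3B _root_.Pool.Agent.MUX _root_.Pool.Agent.MUXU _root_.Pool.Agent.RI

theorem xe_BAS : Pool.Agent.MU3E.Se_BAS := Pool.Agent.MU3E.te_BAS
theorem xe_PRD : Pool.Agent.MU3E.Se_PRD := Pool.Agent.MU3E.te_PRD
theorem xe_RNG : Sxe_RNG := te_RNG
theorem xe_CTX : Sxe_CTX := te_CTX
theorem xe_GAL : Sxe_GAL := te_GAL
theorem xe_PA : Sxe_PA := te_PA
theorem xe_PB : Sxe_PB := te_PB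
theorem xe_PC : Sxe_PC := te_PC xe_PA
theorem xe_TRA : Sxe_TRA := te_TRA
theorem xe_TRB : Sxe_TRB := te_TRB
theorem xe_KER : Sxe_KER := te_KER xe_PA xe_TRA xe_TRB u_BAC u_PFI
theorem xe_COP : Sxe_COP := te_COP xe_PA xe_PB xe_TRA xe_TRB xe_KER u_BAC u_PFI
theorem xe_TP : Sxe_TP := te_TP xe_PA xe_TRA xe_TRB xe_KER u_BAC u_PFI
theorem xe_FAC : Sxe_FAC := te_FAC xe_TRA
theorem xe_DEG : Sxe_DEG := te_DEG xe_PA xe_PB xe_FAC
theorem xe_RAM : Sxe_RAM := te_RAM xe_PA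
theorem xe_UNR : Sxe_UNR := te_UNR xe_RAM xe_COP xe_TRA xe_FAC
theorem xe_SIG : Sxe_SIG :=
  te_SIG xe_BAS xe_DEG xe_TP xe_COP xe_UNR xe_TRA xe_TRB xe_KER xe_FAC
theorem xe_NE1 : Sxe_NE1 := te_NE1 xe_PA xe_TRA
theorem xe_THE : Sxe_THE := te_THE xe_PRD b_TDL
theorem xe_GTH : Sxe_GTH := te_GTH xe_TRA
theorem xe_PT : Sxe_PT := te_PT xe_TRA
theorem xe_GAM : Sxe_GAM := te_GAM xe_PA
theorem xe_WI : Sxe_WI := te_WI xe_PA xe_KER xe_PT xe_TRA xe_TRB
theorem xe_MUV : Sxe_MUV := te_MUV xe_PA xe_KER xe_PT xe_TRA xe_TRB u_BAC u_PFI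
theorem xe_ONE : Sxe_ONE :=
  te_ONE xe_PA xe_TRA xe_KER xe_FAC xe_SIG xe_NE1 xe_THE xe_GTH xe_PT xe_GAM xe_PRD
theorem xe_MAIN0 : Sxe_MAIN0 := te_MAIN0 xe_ONE xe_CTX xe_GAL
theorem xe_BDL : Sxe_BDL := te_BDL xe_CTX xe_PT xe_NE1 xe_THE
theorem xe_EW : Sxe_EW := te_EW xe_MAIN0 xe_CTX xe_PT xe_WI xe_MUV xe_TRA xe_BDL

end Pool.Agent.MUXE


end

section

/-!
# MUX: the final theorem for split `p`, `p = 2, 3` (helper3)
-/

set_option autoImplicit false

namespace Pool.Agent.MUXZ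

open _root_.MU3 _root_.Pool.Agent.MU3 _root_.Pool.Agent.MU3A _root_.Pool.Agent.MU3B _root_.Pool.Agent.RI _root_.Pool.Agent.RID
  _root_.Pool.Agent.MUX _root_.Pool.Agent.MUXK _root_.Pool.Agent.MUXJ _root_.Pool.Agent.MUXW _root_.Pool.Agent.MUX2 _root_.Pool.Agent.MUX3
open _root_.Pool.Agent.MUXU _root_.Pool.Agent.MUXF

/-- good reduction of the normalised lattices -/
theorem z_GRX : MUXN.Sg_GRX := by
  intro p A B hC P hP V hV b L om hL
  have hCQ : MUX.CQ A B := hC.toCQ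
  obtain ⟨hd3, hd4⟩ := MUXY.z_CPD p A B hC
  have hF : LatFacts A B := MUXY.z_LAF A B hCQ hd3 hd4
  have hr : MUXE.RingE A B := MUXE.xe_RNG A B hCQ
  have hdom : IsDomain (OO A B) := by
    have := hr.ded
    infer_instance
  have hne : (⊤ : Ideal (OO A B)) ≠ ⊥ := bot_ne_top.symm
  have hmem : kap L ∈ (RF (⊤ : Ideal (OO A B)) : IntermediateField (kk A B) ℂ) :=
    IntermediateField.subset_adjoin _ _ ⟨b, L, om, hL, Or.inl rfl⟩
  refine ⟨GRB.alg_RF hCQ (MUXC.c_TOR A B hCQ) ⊤ hne hmem, ?_⟩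
  obtain ⟨o1, o2⟩ := MUXE.red_over hr hV
  rcases hC.split with ⟨hp, h8⟩ | ⟨hp, h8⟩
  · subst hp
    obtain ⟨hQ, hne', hP0⟩ := MUXE.red_other (by norm_num) hCQ hr (by exact_mod_cast h8) hP
    have hA : Above3 P V := by
      refine ⟨?_, o1, o2⟩
      have := o1 _ hP.mem
      obtain ⟨φ, hφ⟩ := hr.hom
      rw [← hφ, map_natCast] at this
      exact_mod_cast this
    obtain ⟨e1, e2, -⟩ := r3_GD3 A B hC h8 hF P (MUX.cjI P) V hP hQ hne' hA b L om hL
    exact ⟨e1, e2⟩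
  · subst hp
    obtain ⟨hQ, hne', hP0⟩ := MUXE.red_other (by norm_num) hCQ hr
      (by exact_mod_cast (dvd_trans (by norm_num) h8 : (2 : ℤ) ∣ B ^ 2 + 4 * A - 1)) hP
    have hA : Above2 P V := by
      refine ⟨?_, o1, o2⟩
      have := o1 _ hP.mem
      obtain ⟨φ, hφ⟩ := hr.hom
      rw [← hφ, map_natCast] at this
      exact_mod_cast this
    obtain ⟨e1, e2, -⟩ := r2_GD2 A B hC h8 hF P (MUX.cjI P) V hP hQ hne' hA b L om hL
    exact ⟨e1, e2⟩

/-- the reduction of the normalised lattices, in the form of block E -/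
theorem z_RED (p : ℕ) (A B : ℤ) (V : ValuationSubring ℂ)
    (P : Ideal (OO A B)) (hC : CaseP p A B) (hP : IsPN p P) (hV : OverI V P) :
    MUXE.RedE p P V := by
  have hCQ : MUX.CQ A B := hC.toCQ
  obtain ⟨hd3, hd4⟩ := MUXY.z_CPD p A B hC
  have hF : LatFacts A B := MUXY.z_LAF A B hCQ hd3 hd4
  have hr : MUXE.RingE A B := MUXE.xe_RNG A B hCQ
  rcases hC.split with ⟨hp, -⟩ | ⟨hp, -⟩
  · subst hp
    exact MUXE.red3 r3_GD3 r3_IN3 r2_GR2 r3_CH3 A B hC hr hF P hP V hV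
  · subst hp
    exact MUXE.red2 r2_GD2 r2_IN2 r2_GR2 r2_CH2 A B hC hr hF P hP V hV

theorem z_RATH : MUXHY.Sy_RAT := by
  intro A B hCQ b L om hL
  exact MUXY.z_ALQ A B hCQ (MUXC.c_TOR A B hCQ) b L om hL

theorem z_HFX : MUXHY.Sy_HFX := by
  refine MUXHY.y_HFX MUXT.main_FTI z_RATH ?_
  refine MUXN.tg_GFX MUXC.c_TOR ?_ MUXN.z_GDT z_GRX MUXHY.y_ROU ?_
  · exact MUXN.tg_GTHX (MUXN.tg_GJ (MUXN.tg_BIN MU3Q.wq MUXN.z_GP MUXN.z_DV) MUXN.z_RET
      MUXN.z_NFE MUXN.tg_LOC MUXN.z_FGG) MUXN.z_DSC MUXN.z_ZL MUXN.z_FK MUXN.z_FGG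
  · intro p A B P V f hS
    exact (MUXHY.y_IDE p A B P V f hS).2.2.2.2.1

theorem z_I3 : MUXI.Si_I3 := MUXI.z_I3 z_HFX

/-- THE MAIN THEOREM -/
theorem z_main (p : ℕ) (A B : ℤ) (hC : CaseP p A B)
    (F M K : IntermediateField ℚ ℂ) [FiniteDimensional ℚ M] (hF : kk A B ≤ F) (h : F ≤ M)
    (a : ℕ) (hT : TorU A B F) (hG : IsGalois F (IntermediateField.extendScalars h))
    (ha : Module.finrank F (IntermediateField.extendScalars h) = p ^ a) (hK : K ≤ M) :
    ∃ C : ℕ, ∀ (n : ℕ) (Q : IntermediateField ℚ ℂ), IsLayer p n Q →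
      padicValNat p (classNo (K ⊔ Q)) ≤ C * (n + 1) ^ C := by
  obtain ⟨P, V, hP, hV, hpV⟩ := j_VEX p A B hC
  have hCQ : MUX.CQ A B := hC.toCQ
  have hTor := MUXC.c_TOR A B hCQ
  have hR := z_RED p A B V P hC hP hV
  obtain ⟨hd3, hd4⟩ := MUXY.z_CPD p A B hC
  have hNL : NLex A B := by
    obtain ⟨L, om, hL⟩ := MUXY.z_NLE A B hCQ hd3 hd4 ⊤ (by
      have := (MUXE.xe_RNG A B hCQ).ded
      exact bot_ne_top.symm)
    exact ⟨⊤, L, om, hL⟩
  have hI : InpAll p A B V := tz_INP tz_LVX tz_LVF (tz_THN z_THG)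
    (tz_INW tz_LVX tz_LVF z_MEM z_TOW z_SUC z_I1 z_KOL) z_MEM z_CXS MUXE.xe_EW
    z_I3 MUXY.z_REX MUXY.z_CPD MUXE.xe_RNG p A B V hTor
    (fun P hC hP hV => z_RED p A B V P hC hP hV)
  exact j_FIN k_MAINKX p A B P V hC hP hV hpV (j_UNH p A B P V hR hTor) hTor hNL hI
    F M K hF h a hT hG ha hK

end Pool.Agent.MUXZ


end

section

/-!
# MUX: the final theorem in terms of the field `weberField d` (helper3)
-/

set_option autoImplicit false

namespace Pool.Agent.MUXZ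

open _root_.MU3 _root_.Pool.Agent.MU3 _root_.Pool.Agent.MU3A _root_.Pool.Agent.MU3B _root_.Pool.Agent.RI _root_.Pool.Agent.RID
  _root_.Pool.Agent.MUX _root_.Pool.Agent.MUXK _root_.Pool.Agent.MUXJ _root_.Pool.Agent.MUXW _root_.Pool.Agent.MU3Z

/-- from the statement for ray class fields to the statement for `weberField d` -/
theorem to_weber {p d : ℕ} (hd : Squarefree d) (h1 : d ≠ 1) (h3 : d ≠ 3)
    (T : TorX (pA d) (pB d))
    (H : ∀ (F M K : IntermediateField ℚ ℂ) [FiniteDimensional ℚ M] (_ : kk (pA d) (pB d) ≤ F)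
      (h : F ≤ M) (a : ℕ), TorU (pA d) (pB d) F →
      IsGalois F (IntermediateField.extendScalars h) →
      Module.finrank F (IntermediateField.extendScalars h) = p ^ a → K ≤ M →
      ∃ C : ℕ, ∀ (n : ℕ) (Q : IntermediateField ℚ ℂ), IsLayer p n Q →
        padicValNat p (classNo (K ⊔ Q)) ≤ C * (n + 1) ^ C)
    (K : IntermediateField ℚ ℂ) [FiniteDimensional ℚ K] (hK : K ≤ weberField d) :
    ∃ C : ℕ, ∀ (n : ℕ) (Q : IntermediateField ℚ ℂ), IsLayer p n Q →
      padicValNat p (classNo (K ⊔ Q)) ≤ C * (n + 1) ^ C := by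
  have hC := cq_p hd
  have hfk : FiniteDimensional ℚ (kk (pA d) (pB d)) := (j_FLD (pA d) (pB d) hC).1
  have hfF : FiniteDimensional ℚ ↥(K ⊔ kk (pA d) (pB d)) :=
    IntermediateField.finiteDimensional_sup K (kk (pA d) (pB d))
  have hUF : K ⊔ kk (pA d) (pB d) ≤ UF hC T := by
    refine sup_le (fun x hx => weber_le hd h1 h3 T x (hK hx)) (fun x hx => ?_)
    refine ⟨⊤, ?_, ?_⟩
    · have hdom : IsDomain (OO (pA d) (pB d)) := (MUXE.te_RNG _ _ hC).ded.toIsDomain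
      exact bot_ne_top.symm
    · exact (RF (⊤ : Ideal (OO (pA d) (pB d)))).algebraMap_mem ⟨x, hx⟩
  refine H (K ⊔ kk (pA d) (pB d)) (K ⊔ kk (pA d) (pB d)) K le_sup_right le_rfl 0
    (fun x hx => hUF hx) ?_ ?_ le_sup_left
  · rw [IntermediateField.extendScalars_self]
    infer_instance
  · rw [IntermediateField.extendScalars_self, pow_zero]
    exact IntermediateField.finrank_bot

theorem caseP_p {p d : ℕ} (hd : Squarefree d) (hp : p = 3 ∧ 3 ∣ d + 1 ∨ p = 2 ∧ 8 ∣ d + 1) :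
    CaseP p (pA d) (pB d) := by
  refine { cq_p hd with split := ?_ }
  have h := absD_p d
  unfold absD at h
  rcases hp with ⟨rfl, hp⟩ | ⟨rfl, hp⟩
  · left
    refine ⟨rfl, ?_⟩
    split_ifs at h <;> omega
  · right
    refine ⟨rfl, ?_⟩
    split_ifs at h <;> omega

/-- every finite extension of `ℚ` inside the maximal abelian extension of `ℚ(√-d)` -/
theorem final (p d : ℕ) (hd : Squarefree d) (hp : p = 3 ∧ 3 ∣ d + 1 ∨ p = 2 ∧ 8 ∣ d + 1)
    (K : IntermediateField ℚ ℂ) [FiniteDimensional ℚ K] (hK : K ≤ weberField d) :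
    ∃ C : ℕ, ∀ (n : ℕ) (Q : IntermediateField ℚ ℂ), IsLayer p n Q →
      padicValNat p (classNo (K ⊔ Q)) ≤ C * (n + 1) ^ C := by
  have h1 : d ≠ 1 := by rintro rfl; rcases hp with ⟨rfl, hp⟩ | ⟨rfl, hp⟩ <;> omega
  have h3 : d ≠ 3 := by rintro rfl; rcases hp with ⟨rfl, hp⟩ | ⟨rfl, hp⟩ <;> omega
  refine to_weber hd h1 h3 (MUXC.c_TOR _ _ (cq_p hd)) ?_ K hK
  intro F M K _ hF h a hT hG ha hK
  exact z_main p _ _ (caseP_p hd hp) F M K hF h a hT hG ha hK

end Pool.Agent.MUXZ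


end
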