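import Mathlib
import Pool.Agent.MVF.C028
import Pool.Agent.MVF.C099
import Pool.Agent.MVF.C100
import Pool.Agent.MVF.C101
import Pool.Agent.MVF.C102
import Pool.Agent.MVF.C123

/-! Parts: HB.JTAll -/

section

/-!
# JT: the final theorem for all finite abelian extensions of `k` (helper3)
-/

set_option autoImplicit false

open NumberField

namespace Pool.Agent.JT

open _root_.MU3 _root_.Pool.Agent.MU3A _root_.Pool.Agent.RI _root_.Pool.Agent.MUX _root_.Pool.Agent.MUXJ _root_.Pool.Agent.HB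

theorem j_JTA : Sj_JTA := tj_JTA h_JT1
theorem j_PHJ : Sj_PHJ := tj_PHJ
theorem j_FRQ : Sj_FRQ := tj_FRQ
theorem j_FRJ : Sj_FRJ := tj_FRJ j_FRQ
theorem j_JTC : Sj_JTC := tj_JTC j_JTA j_PHJ j_FRJ
theorem j_JTR : Sj_JTR := tj_JTR j_JTC
theorem j_JQF : Sj_JQF := tj_JQF
theorem j_PEX : Sj_PEX := tj_PEX

/-- `μ = 0` for all finite abelian extensions of `k`, `p` split in `k`, `p = 2, 3` -/
theorem finalJ (p : ℕ) (hp : p = 2 ∨ p = 3) (k K : IntermediateField ℚ ℂ)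
    [FiniteDimensional ℚ K] (h : k ≤ K) (h2 : Module.finrank ℚ k = 2)
    (hi : ∃ z ∈ k, (starRingEnd ℂ) z ≠ z)
    (hs : ∃ P Q : Ideal (𝓞 k), P.IsPrime ∧ Q.IsPrime ∧ (p : 𝓞 k) ∈ P ∧ (p : 𝓞 k) ∈ Q ∧ P ≠ Q)
    (hG : IsGalois k (IntermediateField.extendScalars h))
    (hc : ∀ σ τ : (IntermediateField.extendScalars h) ≃ₐ[k] (IntermediateField.extendScalars h),
      σ * τ = τ * σ) :
    ∃ C : ℕ, ∀ (n : ℕ) (Q : IntermediateField ℚ ℂ), IsLayer p n Q →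
      padicValNat p (classNo (K ⊔ Q)) ≤ C * (n + 1) ^ C := by
  obtain ⟨d, hd, rfl, hsp⟩ := j_JQF k h2 hi
  have hcase := MUXZ.caseP_p hd (hsp p hp hs)
  have hCQ : CQ (MUXZ.pA d) (MUXZ.pB d) := hcase.toCQ
  have hTor := MUXC.c_TOR _ _ hCQ
  obtain ⟨hd3, hd4⟩ := MUXY.z_CPD p _ _ hcase
  have hNL : NLex (MUXZ.pA d) (MUXZ.pB d) := by
    obtain ⟨L, om, hL⟩ := MUXY.z_NLE _ _ hCQ hd3 hd4 ⊤ (by
      have := (MUXE.xe_RNG _ _ hCQ).ded
      exact bot_ne_top.symm)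
    exact ⟨⊤, L, om, hL⟩
  have hU : TorU (MUXZ.pA d) (MUXZ.pB d) K := j_JTR _ _ hCQ hTor hNL K h hG hc
  refine MUXZ.z_main p _ _ hcase K K K h le_rfl 0 hU ?_ ?_ le_rfl
  · rw [IntermediateField.extendScalars_self]
    infer_instance
  · rw [IntermediateField.extendScalars_self, pow_zero]
    exact IntermediateField.finrank_bot

end Pool.Agent.JT


end
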