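import Mathlib
import Pool.Agent.MVF.C124

/-! Parts: HB.JTBase -/

section

/-!
# JT: from ray class fields to all finite abelian extensions of all imaginary quadratic fields (helper3)
-/

set_option autoImplicit false

open NumberField

namespace Pool.Agent.JT

open _root_.MU3 _root_.Pool.Agent.MU3A _root_.Pool.Agent.RI _root_.Pool.Agent.MUX _root_.Pool.Agent.MUXJ _root_.Pool.Agent.HB

/-- the bound for all finite abelian extensions of `ℚ(√-d)` -/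
def FinJ (p d : ℕ) : Prop :=
  ∀ (K : IntermediateField ℚ ℂ) [FiniteDimensional ℚ K]
    (h : kk (MUXZ.pA d) (MUXZ.pB d) ≤ K),
    IsGalois (kk (MUXZ.pA d) (MUXZ.pB d)) (IntermediateField.extendScalars h) →
    (∀ σ τ : (IntermediateField.extendScalars h) ≃ₐ[kk (MUXZ.pA d) (MUXZ.pB d)]
      (IntermediateField.extendScalars h), σ * τ = τ * σ) →
    ∃ C : ℕ, ∀ (n : ℕ) (Q : IntermediateField ℚ ℂ), IsLayer p n Q →
      padicValNat p (classNo (K ⊔ Q)) ≤ C * (n + 1) ^ C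

/-- the theorem for ray class fields -/
def ZallP (p : ℕ) : Prop :=
  ∀ (A B : ℤ) (_ : MUX.CQ A B) (_ : absD A B ≠ 3) (_ : absD A B ≠ 4)
    (F M K : IntermediateField ℚ ℂ) [FiniteDimensional ℚ M] (_ : kk A B ≤ F) (h : F ≤ M)
    (a : ℕ) (_ : TorU A B F) (_ : IsGalois F (IntermediateField.extendScalars h))
    (_ : Module.finrank F (IntermediateField.extendScalars h) = p ^ a) (_ : K ≤ M),
    ∃ C : ℕ, ∀ (n : ℕ) (Q : IntermediateField ℚ ℂ), IsLayer p n Q →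
      padicValNat p (classNo (K ⊔ Q)) ≤ C * (n + 1) ^ C

theorem finJ_of {p : ℕ} (H : ZallP p) (d : ℕ) (hd : Squarefree d) (h1 : d ≠ 1)
    (h3 : d ≠ 3) : FinJ p d := by
  intro K _ h hG hc
  have hCQ : CQ (MUXZ.pA d) (MUXZ.pB d) := MUXZ.cq_p hd
  have hTor := MUXC.c_TOR _ _ hCQ
  have hd3 : absD (MUXZ.pA d) (MUXZ.pB d) ≠ 3 := by
    rw [MUXZ.absD_p]
    split_ifs <;> omega
  have hd4 : absD (MUXZ.pA d) (MUXZ.pB d) ≠ 4 := by
    rw [MUXZ.absD_p]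
    split_ifs <;> omega
  have hNL : NLex (MUXZ.pA d) (MUXZ.pB d) := by
    obtain ⟨L, om, hL⟩ := MUXY.z_NLE _ _ hCQ hd3 hd4 ⊤ (by
      have := (MUXE.xe_RNG _ _ hCQ).ded
      exact bot_ne_top.symm)
    exact ⟨⊤, L, om, hL⟩
  have hU : TorU (MUXZ.pA d) (MUXZ.pB d) K := j_JTR _ _ hCQ hTor hNL K h hG hc
  have e1 : IsGalois K (IntermediateField.extendScalars (le_refl K)) := by
    rw [IntermediateField.extendScalars_self]
    infer_instance
  have e2 : Module.finrank K (IntermediateField.extendScalars (le_refl K)) = p ^ 0 := by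
    rw [IntermediateField.extendScalars_self, pow_zero]
    exact IntermediateField.finrank_bot
  exact H _ _ hCQ hd3 hd4 K K K h le_rfl 0 hU e1 e2 le_rfl

lemma kk_one : Complex.I ∈ kk (MUXZ.pA 1) (MUXZ.pB 1) := by
  have h : wC (MUXZ.pA 1) (MUXZ.pB 1) = Complex.I := by
    unfold wC
    rw [MUXZ.absD_p]
    unfold MUXZ.pB
    norm_num
  rw [← h]
  exact IntermediateField.subset_adjoin ℚ _ rfl

lemma kk_three : ∃ z ∈ kk (MUXZ.pA 3) (MUXZ.pB 3), z ^ 2 = -3 := by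
  refine ⟨2 * wC (MUXZ.pA 3) (MUXZ.pB 3) - 1, ?_, ?_⟩
  · have h1 : wC (MUXZ.pA 3) (MUXZ.pB 3) ∈ kk (MUXZ.pA 3) (MUXZ.pB 3) :=
      IntermediateField.subset_adjoin ℚ _ rfl
    have h2 : (2 : ℂ) ∈ kk (MUXZ.pA 3) (MUXZ.pB 3) := by
      exact_mod_cast (kk (MUXZ.pA 3) (MUXZ.pB 3)).algebraMap_mem 2
    have h3 : (1 : ℂ) ∈ kk (MUXZ.pA 3) (MUXZ.pB 3) := one_mem _
    exact sub_mem (mul_mem h2 h1) h3
  · unfold wC
    rw [MUXZ.absD_p]
    unfold MUXZ.pB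
    norm_num
    have h3 : ((Real.sqrt 3 : ℝ) : ℂ) ^ 2 = 3 := by
      rw [← Complex.ofReal_pow, Real.sq_sqrt (by norm_num)]
      norm_num
    ring_nf
    rw [h3, Complex.I_sq]
    norm_num

/-- all `k`, given all `d` -/
theorem final_all {p : ℕ} (H : ∀ d : ℕ, Squarefree d → FinJ p d)
    (k K : IntermediateField ℚ ℂ) [FiniteDimensional ℚ K] (h : k ≤ K)
    (h2 : Module.finrank ℚ k = 2) (hi : ∃ z ∈ k, (starRingEnd ℂ) z ≠ z)
    (hG : IsGalois k (IntermediateField.extendScalars h))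
    (hc : ∀ σ τ : (IntermediateField.extendScalars h) ≃ₐ[k] (IntermediateField.extendScalars h),
      σ * τ = τ * σ) :
    ∃ C : ℕ, ∀ (n : ℕ) (Q : IntermediateField ℚ ℂ), IsLayer p n Q →
      padicValNat p (classNo (K ⊔ Q)) ≤ C * (n + 1) ^ C := by
  obtain ⟨d, hd, rfl, -⟩ := j_JQF k h2 hi
  exact H d hd K h hG hc

/-- all `k` except `ℚ(i)` and `ℚ(√-3)` -/
theorem final_exc {p : ℕ} (H : ∀ d : ℕ, Squarefree d → d ≠ 1 → d ≠ 3 → FinJ p d)
    (k K : IntermediateField ℚ ℂ) [FiniteDimensional ℚ K] (h : k ≤ K)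
    (h2 : Module.finrank ℚ k = 2) (hi : ∃ z ∈ k, (starRingEnd ℂ) z ≠ z)
    (h4 : ∀ z ∈ k, z ^ 2 ≠ -1) (h3 : ∀ z ∈ k, z ^ 2 ≠ -3)
    (hG : IsGalois k (IntermediateField.extendScalars h))
    (hc : ∀ σ τ : (IntermediateField.extendScalars h) ≃ₐ[k] (IntermediateField.extendScalars h),
      σ * τ = τ * σ) :
    ∃ C : ℕ, ∀ (n : ℕ) (Q : IntermediateField ℚ ℂ), IsLayer p n Q →
      padicValNat p (classNo (K ⊔ Q)) ≤ C * (n + 1) ^ C := by
  obtain ⟨d, hd, rfl, -⟩ := j_JQF k h2 hi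
  refine H d hd ?_ ?_ K h hG hc
  · rintro rfl
    exact h4 _ kk_one Complex.I_sq
  · rintro rfl
    obtain ⟨z, hz, hz3⟩ := kk_three
    exact h3 z hz hz3

end Pool.Agent.JT


end
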