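import Mathlib
import Pool.Agent.MVF.C044
import Pool.Agent.MVF.C052
import Pool.Agent.MVF.C071
import Pool.Agent.MVF.C126

/-! Parts: N2.R_LIF, N2.StIT, N2.I_EPT, N2.I_CYC, N2.I_KAP -/

namespace Pool.Agent.N2I.EPT
end Pool.Agent.N2I.EPT

section

/-!
# MUX-2N, block R: module LIF, lifting of elements of the inertia group at a place above 2 (helper28)

The abstract part is `Pool.Agent.NSR.LIF` (helper13, `Pool/Agent/NS/RN_LIF.lean`).
-/

set_option autoImplicit false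

namespace Pool.Agent.N2R

open _root_.MU3 _root_.Pool.Agent.MU3A _root_.Pool.Agent.MU3B _root_.Pool.Agent.RI _root_.Pool.Agent.MUX _root_.Pool.Agent.MUXU
open _root_.Pool.Agent.MU3E.RAM _root_.Pool.Agent.NSR.LIF
open NumberField IsDedekindDomain
open scoped Pointwise

noncomputable section

theorem tr_LIF : Sr_LIF := by
  intro A B V hAB hv2 F₁ M _ _ _ σ hσ hσF
  have hwC : σ (wC A B) = wC A B := hσ
  -- sigma fixes `k`
  have hfix : ∀ x ∈ kk A B, σ x = x := by
    intro x hx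
    refine IntermediateField.adjoin_induction ℚ (p := fun x _ => σ x = x) ?_ ?_ ?_ ?_ ?_ hx
    · intro y hy
      rw [Set.mem_singleton_iff] at hy
      rw [hy, hwC]
    · intro r
      rw [eq_ratCast, map_ratCast]
    · intro a b _ _ ha hb
      rw [map_add, ha, hb]
    · intro a _ ha
      rw [map_inv₀, ha]
    · intro a b _ _ ha hb
      rw [map_mul, ha, hb]
  have hfd : FiniteDimensional ℚ (kk A B) := by
    apply IntermediateField.adjoin.finiteDimensional
    refine ⟨Polynomial.X ^ 2 - Polynomial.C (B : ℚ) * Polynomial.X - Polynomial.C (A : ℚ), ?_, ?_⟩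
    · monicity!
    · have h := wsq hAB
      simp only [Polynomial.eval₂_sub, Polynomial.eval₂_mul, Polynomial.eval₂_pow,
        Polynomial.eval₂_X, Polynomial.eval₂_C]
      rw [pow_two, h]
      simp
  have hk : NumberField (kk A B) := ⟨⟩
  let σK : ℂ ≃ₐ[kk A B] ℂ := AlgEquiv.ofRingEquiv (f := σ) (fun x => hfix x x.2)
  have hσK : ∀ x, σK x = σ x := fun x => rfl
  -- the normal closure
  have hfin : FiniteDimensional (kk A B) ↥(F₁ ⊔ M) := inferInstance
  obtain ⟨α, hα⟩ := Field.exists_primitive_element (kk A B) ↥(F₁ ⊔ M)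
  have hαi : IsIntegral (kk A B) (α : ℂ) := by
    have h : IsIntegral (kk A B) α := Algebra.IsIntegral.isIntegral α
    exact h.map (IntermediateField.val _)
  set pol := minpoly (kk A B) (α : ℂ) with hpol
  let E : IntermediateField (kk A B) ℂ := IntermediateField.adjoin (kk A B) (pol.rootSet ℂ)
  have hsf : pol.IsSplittingField (kk A B) E :=
    IntermediateField.adjoin_rootSet_isSplittingField (IsAlgClosed.splits _)
  have hαE : (α : ℂ) ∈ E := by
    apply IntermediateField.subset_adjoin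
    rw [Polynomial.mem_rootSet]
    exact ⟨minpoly.ne_zero hαi, minpoly.aeval _ _⟩
  have hle : F₁ ⊔ M ≤ E := by
    have h1 : IntermediateField.lift (IntermediateField.adjoin (kk A B) {α}) = F₁ ⊔ M := by
      rw [hα, IntermediateField.lift_top]
    rw [← h1, IntermediateField.lift_adjoin_simple, IntermediateField.adjoin_le_iff,
      Set.singleton_subset_iff]
    exact hαE
  have hE1 : F₁ ≤ E := le_sup_left.trans hle
  have hE2 : M ≤ E := le_sup_right.trans hle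
  have hEf : FiniteDimensional (kk A B) E := Polynomial.IsSplittingField.finiteDimensional E pol
  have hEn : Normal (kk A B) E := Normal.of_isSplittingField pol
  have hEg : IsGalois (kk A B) E := ⟨⟩
  have hFf : FiniteDimensional (kk A B) F₁ := inferInstance
  have hF1 : NumberField F₁ :=
    { to_finiteDimensional := Pool.Agent.FX.ftrans ℚ (kk A B) F₁ }
  have hE3 : NumberField E :=
    { to_finiteDimensional := Pool.Agent.FX.ftrans ℚ (kk A B) E }
  let alg : Algebra F₁ E := (IntermediateField.inclusion hE1).toRingHom.toAlgebra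
  have halg : ∀ x : F₁, ((algebraMap F₁ E x : E) : ℂ) = (x : ℂ) := fun x => rfl
  have tower := Pool.Agent.FX.tower (kk A B) F₁ E (fun x => rfl)
  have hgal : IsGalois F₁ E := IsGalois.tower_top_of_isGalois (kk A B) F₁ E
  -- restrictions of sigma
  let τ₀ : E ≃ₐ[kk A B] E := σK.restrictNormal E
  have hτ₀ : ∀ x : E, ((τ₀ x : E) : ℂ) = σ (x : ℂ) := fun x =>
    AlgEquiv.restrictNormal_commutes σK E x
  let σ₁ : F₁ ≃ₐ[kk A B] F₁ := σK.restrictNormal F₁
  have hσ₁ : ∀ x : F₁, ((σ₁ x : F₁) : ℂ) = σ (x : ℂ) := fun x =>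
    AlgEquiv.restrictNormal_commutes σK F₁ x
  let io : E →+* ℂ := algebraMap E ℂ
  have hio : ∀ x : E, io x = (x : ℂ) := fun x => rfl
  have e3 : io ((2 : 𝓞 E) : E) = 2 := by
    have h : ((2 : 𝓞 E) : E) = 2 := map_ofNat (algebraMap (𝓞 E) E) 2
    rw [h, map_ofNat]
  obtain ⟨w, hw⟩ := exists_prime (V := V) io (z := (2 : 𝓞 E)) (by
    intro h
    rw [h] at e3
    have h2 : io ((0 : 𝓞 E) : E) = 0 := by
      have h : ((0 : 𝓞 E) : E) = 0 := map_zero (algebraMap (𝓞 E) E)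
      rw [h, map_zero]
    rw [h2] at e3
    exact two_ne_zero e3.symm) (by
    rw [e3]
    exact hv2)
  obtain ⟨γ, hγ⟩ := lift_aux (V := V) io hw (τ₀ : E ≃+* E) (σ₁ : F₁ ≃+* F₁) (by
    intro x
    apply Subtype.ext
    exact (hτ₀ _).trans (hσ₁ x).symm) (by
    intro x
    have h1 := hσF (x : F₁) (x : F₁).2 (by
      exact int_le (V := V) (algebraMap F₁ ℂ) x)
    have h2 : io (algebraMap F₁ E ((σ₁ : F₁ ≃+* F₁) (x : F₁))) = σ ((x : F₁) : ℂ) := hσ₁ x
    rw [h2]
    exact h1)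
  -- the automorphism of `E`
  let τ : E ≃+* E := (τ₀ : E ≃+* E).trans (γ : E ≃+* E)
  have hτ : ∀ x : E, τ x = γ (τ₀ x) := fun x => rfl
  have hτF : ∀ x : F₁, τ (algebraMap F₁ E x) = algebraMap F₁ E (σ₁ x) := by
    intro x
    rw [hτ]
    have h : τ₀ (algebraMap F₁ E x) = algebraMap F₁ E (σ₁ x) := by
      apply Subtype.ext
      exact (hτ₀ _).trans (hσ₁ x).symm
    rw [h, γ.commutes]
  have hfin2 := of_int (V := V) io hw τ (fun x => hγ x)
  let EQ : IntermediateField ℚ ℂ := E.restrictScalars ℚ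
  have hEQ : Algebra.IsAlgebraic ℚ EQ := by
    have : FiniteDimensional ℚ E := hE3.to_finiteDimensional
    have h2 : FiniteDimensional ℚ EQ := this
    exact Algebra.IsAlgebraic.of_finite ℚ EQ
  obtain ⟨σ', hσ'⟩ := u_AUE EQ hEQ (io.comp (τ : E →+* E))
  have hσ'2 : ∀ x : E, σ' (x : ℂ) = ((τ x : E) : ℂ) := fun x => hσ' x
  have hF' : ∀ y ∈ F₁, σ' y = σ y := by
    intro y hy
    have h1 := hσ'2 (algebraMap F₁ E ⟨y, hy⟩)
    rw [hτF, halg, halg] at h1
    rw [h1, hσ₁]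
  refine ⟨σ', ?_, hF', ?_⟩
  · have h1 : wC A B ∈ F₁ := F₁.algebraMap_mem (⟨wC A B, wC_mem A B⟩ : kk A B)
    have h2 := hF' _ h1
    rw [hwC] at h2
    exact h2
  · intro y hy hvy
    have h1 := hfin2 ⟨y, hE2 hy⟩ hvy
    have h2 := hσ'2 ⟨y, hE2 hy⟩
    rw [hio, hio, ← h2] at h1
    exact h1

end

end Pool.Agent.N2R


end

section

/-!
# MUX-2N, block I2N (helper36): from blocks E2N, H2N to the input (I3) of block K, `2` inert in `k`

As `Pool/Agent/NS/StIN.lean` (3 inert). Every statement is a `def St_X : Prop`; a module proves `theorem tt_X (h : ..) ... : St_X`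
in the file `Pool/Agent/N2/I_X.lean`, namespace `Pool.Agent.N2I`. The general statements of `StIN.lean` (`Sn_FOU`, `Sn_E0`, `Sn_SUB`, `Sn_XMX`, `Sn_TSH`,
`Sn_TH`, `Sn_NR1`, `Sn_NRX`, `Sn_LEM1`, all proved: `Pool/Agent/NS/IAll.lean`) and of `MUX/StIX.lean` are used as they are, with `p = 2`.
-/

set_option autoImplicit false

namespace Pool.Agent.N2I

open _root_.MU3 _root_.Pool.Agent.MU3 _root_.Pool.Agent.MU3A _root_.Pool.Agent.MU3B _root_.Pool.Agent.RI _root_.Pool.Agent.RID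
  _root_.Pool.Agent.MUX _root_.Pool.Agent.MUXK _root_.Pool.Agent.MUXI _root_.Pool.Agent.NSI _root_.Pool.Agent.N2
open _root_.Pool.Agent.MU3I (w3 zt)

noncomputable section

/-! ## Definitions -/

lemma setL_T {A B : ℤ} {V : ValuationSubring ℂ} {f : ℕ} (h : SetT A B V f) : SetL 2 A B f :=
  ⟨h.case.toCQ, Or.inl rfl, h.f0, h.fp⟩

/-- the input from block E for one field `D` -/
structure EInpT {A B : ℤ} (V : ValuationSubring ℂ) (f : ℕ) {ι : Type}
    (R : Reps A B (2 * f) ι) (u : ℂ) (n : ℕ) {D : IntermediateField ℚ ℂ} (h : kk A B ≤ D)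
    (C : (letI := algC h; D ≃ₐ[kk A B] D) → ℂ) : Prop where
  ne : C (letI := algC h; 1) ≠ 0
  conj : letI := algC h
    ∀ τ : D ≃ₐ[kk A B] D, ∃ y : D, (y : ℂ) = C 1 ∧ ((τ y : D) : ℂ) = C τ
  ew : letI := algC h
    ∀ om : OO A B → ℂ, OddT f V om → ∀ g : (D ≃ₐ[kk A B] D) → ℤ,
      (∃ y ∈ D, y ^ 2 = ∏ᶠ τ : D ≃ₐ[kk A B] D, C τ ^ g τ) → ∀ τ' : D ≃ₐ[kk A B] D,
        V.valuation ((∑ᶠ τ : D ≃ₐ[kk A B] D, (g τ : ℂ) *
          TT2 R om (lvX 2 f n) (aX 2 f) h (τ * τ')) / u) ^ 2 ≤ V.valuation (2 : ℂ) ^ 3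

/-! ## Characters -/

/-- (KAP) the odd sign function modulo `D`, `D` odd.

PROOF. `Pool/Agent/MUX/Kap2.lean` (`kap_exists`, helper77), where `8 ∣ D - 1` is used only for `B = 1` and `D ≡ 1` modulo 4, i.e. `|D| ≡ 3` modulo 4; here `D ≡ 5` modulo 8. -/
def St_KAP : Prop :=
  ∀ A B : ℤ, CaseT A B → ∃ κ : OO A B → ℤ, Pool.Agent.MUX2.KapD A B κ

/-- (TE2) existence of the Teichmueller character.

PROOF. As `Pool/Agent/NS/I_TEI.lean` (3 inert). `2` is a prime element of `O` (`D ≡ 5` modulo 8: `w² - w - A` with `A` odd is irreducible modulo 2), `O/2` is a field with four elements, `(O/2)^*` is cyclic of order 3: its elements are the classes of `1, w, w + 1 = w²` (`w = ⟨0, 1⟩`, `w² = A + w`, `A` odd). `ζ = exp(2 π i/3)`.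
`∏_(j = 0, 1, 2) (emb w - ζ^j) = emb (w^3 - 1) ∈ 2 emb O` (`w^3 = A w + w² = (A + 1) w + A`, so `w^3 - 1 = (A + 1) w + (A - 1)`, both coefficients even). The differences `ζ^i - ζ^j` are units (`(1 - ζ)(1 - ζ²) = 3`, `v(3) = 1` since `v(2) < 1`), so exactly one factor has `v < 1`, the others `v = 1`, and
`v(emb w - ζ^j) ≤ v(2)` for this `j`. `ω = ζ^j`; `w(x) = 0, 1, ω, ω²` for the classes `0, 1, w, w + 1`. `cong` for `w + 1`: `emb (w + 1) - ω² = emb(w + 1 - w²) + (emb w ^2 - ω²)`. `emb O ⊆ V`: `emb x` is integral over `ℤ`. -/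
def St_TE2 : Prop :=
  ∀ (A B : ℤ) (V : ValuationSubring ℂ), CaseT A B → OverI V (idl (A := A) (B := B) 2) →
    ∃ w : OO A B → ℂ, IsTei2 V w

/-- (EPT) the weights and the odd character.

USES KAP, TE2, Sx_ALG. PROOF. `lvX 2 f 0 = 4 f`. `om x = κ(x) w(x)`, `κ` from KAP, `w` from TE2. `OddT`: `κ(-1) = -1`, `w(-x) = w(x)` (`-x - x ∈ (2)`); `per`: `|D| ∣ f`; `cong`: `x` prime to `2 f` is prime to `D`, so `κ x = ± 1`, and `v(- w x - emb x) ≤ max(v(w x - emb x), v(2 w x))` with `v(w x) = 1`.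
`e0` is periodic modulo `2 f`: let `x - y ∈ (2 f)`. If `x` is not prime to `2 f` (equivalently to `4 f`), neither is `y`, both values are `0`. Otherwise choose `y'` with `y y' ≡ 1` modulo `4 f`; `z = x y' ≡ 1` modulo `2 f`, so `z² ≡ 1` modulo `4 f` (`(1 + 2 f t)² = 1 + 4 f (t + f t²)`), `e0(z)² = 1` and `e0(z)^r = 1`, `r` odd, so `e0(z) = 1` and
`e0(x) = e0(x) e0(y) e0(y') = e0(y) e0(z) = e0(y)`. `e x = e0 x * om x`. `neg`: `e0(-1) = 1`, `om(-1) = -om(1) = -1`. `supp`: if `x` is prime to `2 f` all factors are `≠ 0`. `e^(6 r) = 1`: `κ^2 = 1`, `w^3 = 1`, `e0^r = 1`. -/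
def St_EPT : Prop :=
  ∀ (A B : ℤ) (V : ValuationSubring ℂ) (f : ℕ) (_ : SetT A B V f) (e0 : OO A B → ℂ) (r : ℕ)
    (_ : ¬ 2 ∣ r)
    (_ : e0 1 = 1) (_ : e0 (-1) = 1) (_ : ∀ x y, e0 (x * y) = e0 x * e0 y)
    (_ : ∀ x y, x - y ∈ idl (A := A) (B := B) (lvX 2 f 0) → e0 x = e0 y)
    (_ : ∀ x, e0 x ≠ 0 ↔ IsCoprime x ((lvX 2 f 0 : ℕ) : OO A B))
    (_ : ∀ x, e0 x ≠ 0 → e0 x ^ r = 1),
    ∃ (om e : OO A B → ℂ), OddT f V om ∧ IsEI (idl (A := A) (B := B) (2 * f)) e ∧
      (∀ x, e x ≠ 0 → e x ^ (2 * (3 * r)) = 1) ∧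
      ∀ x, IsCoprime x ((lvX 2 f 0 : ℕ) : OO A B) → e0 x * om x = e x

/-- (CYC) `K B_n` is in the compositum of `RF (4 f)` and the field of the `2^(n+2)`-th roots of unity.

USES Si_LAY. PROOF. `q0 2 * 2^n = 2^(n+2) = M`, `ζ = zt M`, `Bn = ℚ(ζ + ζ⁻¹)` (LAY). Let `σ` be trivial on `RF (4 f)` and on the `M`-th roots of unity. The `y` with `σ y = y` form an intermediate field of `ℂ / ℚ` which contains `K` and `ζ + ζ⁻¹`, so it contains `K ⊔ Bn`. -/
def St_CYC : Prop :=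
  ∀ (A B : ℤ) (f : ℕ) (K : IntermediateField ℚ ℂ),
    (∀ y ∈ K, y ∈ RF (idl (A := A) (B := B) (lvX 2 f 0))) → ∀ (n : ℕ)
    (Bn : IntermediateField ℚ ℂ), IsLayer 2 n Bn → InCyc A B f (2 ^ (n + 2)) (K ⊔ Bn)

/-! ## The result -/

/-- (I31) one level, `T`. Module of helper36. -/
def St_I31 : Prop :=
  ∀ (A B : ℤ) (V : ValuationSubring ℂ) (f : ℕ), SetT A B V f → TorX A B →
    ∀ (ι : Type) [Fintype ι] (R : Reps A B (2 * f) ι) (u el a1 a3 : ℂ),
    GoodT V (R.L R.i0) u el a1 a3 →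
    ∀ (K : IntermediateField ℚ ℂ) (Bn : ℕ → IntermediateField ℚ ℂ)
    [FiniteDimensional ℚ K] [∀ n, FiniteDimensional ℚ ↥(K ⊔ Bn n)]
    (hB : BasX 2 (kk A B) K Bn)
    (_ : ¬ 2 ∣ Module.finrank (kk A B) (IntermediateField.extendScalars hB.hk))
    (_ : ∀ y ∈ K, y ∈ RF (idl (A := A) (B := B) (lvX 2 f 0)))
    (hk : ∀ n, kk A B ≤ K ⊔ Bn n) (hkK : kk A B ≤ K)
    (C : ∀ n, (letI := algC (hk n); ↥(K ⊔ Bn n) ≃ₐ[kk A B] ↥(K ⊔ Bn n)) → ℂ)
    (_ : ∀ n, 2 ≤ n → EInpT V f R u n (hk n) (C n)) (c₀ : ℕ → ℂ)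
    (mem : ∀ n, c₀ n ∈ K ⊔ Bn n) (_ : ∀ n, 2 ≤ n → c₀ n = C n (letI := algC (hk n); 1))
    (χ : (letI := algC hkK; (↥K ≃ₐ[kk A B] ↥K) →* (IsLocalRing.ResidueField V)ˣ)) (n₀ : ℕ),
    ∃ n, n₀ ≤ n ∧ I3At (IsLocalRing.ResidueField V) 2 (kk A B) K Bn hkK χ 1 n (hk n) (c₀ n) (mem n)

/-- THE RESULT of block I2N: the inputs of block K. Module of helper36. -/
def St_INP : Prop :=
  ∀ (A B : ℤ) (V : ValuationSubring ℂ) (f : ℕ), SetT A B V f → TorX A B →
    ∀ (ι : Type) [Fintype ι] (R : Reps A B (2 * f) ι) (u el a1 a3 : ℂ),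
    GoodT V (R.L R.i0) u el a1 a3 →
    ∀ (K₀ K : IntermediateField ℚ ℂ) (Bn : ℕ → IntermediateField ℚ ℂ)
    [FiniteDimensional ℚ (kk A B)] [FiniteDimensional ℚ K] [∀ n, FiniteDimensional ℚ ↥(K ⊔ Bn n)]
    (_ : SetX 2 (kk A B) K₀ K Bn)
    (_ : ∀ y ∈ K₀, y ∈ RF (idl (A := A) (B := B) (lvX 2 f 0)))
    (hk : ∀ n, kk A B ≤ K ⊔ Bn n) (hk₀ : ∀ n, kk A B ≤ K₀ ⊔ Bn n) (hkK : kk A B ≤ K₀)
    (S : Finset ℕ) (c c₀ : ℕ → ℂ) (n₁ : ℕ)
    (_ : Pool.Agent.MUXZ.InpW 2 (kk A B) K₀ K Bn hk hk₀ S c c₀ n₁)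
    (C : ∀ n, (letI := algC (hk₀ n); ↥(K₀ ⊔ Bn n) ≃ₐ[kk A B] ↥(K₀ ⊔ Bn n)) → ℂ)
    (_ : ∀ n, 2 ≤ n → EInpT V f R u n (hk₀ n) (C n))
    (_ : ∀ n, 2 ≤ n → c₀ n = C n (letI := algC (hk₀ n); 1)),
    InpX (IsLocalRing.ResidueField V) 2 (kk A B) K₀ K Bn hk hk₀ hkK S c c₀ n₁

/-- the inputs of block J for `2` inert. Module of helper36 (model `Pool/Agent/MUX/Z_INP.lean`).

USES INP, CYC, S2_EFIN, `Zl_INW`, `Zl_LVX` (`NS/ZL.lean`), Sn_SUB, Sz_THN, Sy_MEM, Sy_CXS, Sy_REX. -/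
def St_INPG : Prop :=
  ∀ (A B : ℤ) (V : ValuationSubring ℂ), CaseT A B → OverI V (idl (A := A) (B := B) 2) →
    TorX A B → Pool.Agent.MUXJ.InpG 2 (3 * (absD A B).toNat) A B V

end

end Pool.Agent.N2I


end

section

/-!
# MUX-2N, block I2N: module EPT, the weights and the odd character

`om x = κ(x) w(x)`, `e x = e0(x) κ(x) w(x)`; `e0` is periodic modulo `2 f`: if `z ≡ 1` modulo `2 f` then `z² ≡ 1` modulo `4 f`,
and `e0` has odd order.
-/

set_option autoImplicit false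

namespace Pool.Agent.N2I

open _root_.MU3 _root_.Pool.Agent.MU3 _root_.Pool.Agent.MU3A _root_.Pool.Agent.MU3B _root_.Pool.Agent.RI _root_.Pool.Agent.RID
  _root_.Pool.Agent.MUX _root_.Pool.Agent.MUXK _root_.Pool.Agent.MUXI _root_.Pool.Agent.NSI _root_.Pool.Agent.N2

noncomputable section

namespace EPT

variable {A B : ℤ}

lemma cop_iff {x : OO A B} {m : ℕ} :
    IsCoprime (sp x) (idl (A := A) (B := B) m) ↔ IsCoprime x ((m : ℕ) : OO A B) :=
  Ideal.isCoprime_span_singleton_iff x _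

lemma idl_le {m n : ℕ} (h : m ∣ n) : idl (A := A) (B := B) n ≤ idl m := by
  obtain ⟨c, rfl⟩ := h
  rw [Ideal.span_singleton_le_iff_mem, Pool.Agent.MUX2.idl_mem]
  exact ⟨(c : OO A B), by push_cast; ring⟩

lemma cop_dvd {x : OO A B} {m n : ℕ} (h : m ∣ n) (hx : IsCoprime x ((n : ℕ) : OO A B)) :
    IsCoprime x ((m : ℕ) : OO A B) := by
  obtain ⟨c, rfl⟩ := h
  push_cast at hx
  exact (IsCoprime.mul_right_iff.1 hx).1

lemma cop4 {x : OO A B} {f : ℕ} :
    IsCoprime x ((lvX 2 f 0 : ℕ) : OO A B) ↔ IsCoprime x ((2 * f : ℕ) : OO A B) := by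
  have e : lvX 2 f 0 = 2 * (2 * f) := by
    unfold lvX q0
    simp
    ring
  rw [e]
  constructor
  · exact cop_dvd ⟨2, by ring⟩
  · intro h
    have h2 : IsCoprime x ((2 : ℕ) : OO A B) := cop_dvd ⟨f, rfl⟩ h
    rw [Nat.cast_mul]
    exact IsCoprime.mul_right h2 h

lemma cop_congr' {x y : OO A B} {m : ℕ} (h : x - y ∈ idl (A := A) (B := B) m)
    (hx : IsCoprime x ((m : ℕ) : OO A B)) : IsCoprime y ((m : ℕ) : OO A B) :=
  cop_iff.1 (Pool.Agent.MUX2.cop_congr h (cop_iff.2 hx))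

/-- `e0` is periodic modulo `2 f` -/
lemma per2 {f r : ℕ} (hr : ¬ 2 ∣ r) {e0 : OO A B → ℂ} (one : e0 1 = 1)
    (mul : ∀ x y, e0 (x * y) = e0 x * e0 y)
    (per : ∀ x y, x - y ∈ idl (A := A) (B := B) (lvX 2 f 0) → e0 x = e0 y)
    (supp : ∀ x, e0 x ≠ 0 ↔ IsCoprime x ((lvX 2 f 0 : ℕ) : OO A B))
    (pow : ∀ x, e0 x ≠ 0 → e0 x ^ r = 1) (x y : OO A B)
    (h : x - y ∈ idl (A := A) (B := B) (2 * f)) : e0 x = e0 y := by
  have e : lvX 2 f 0 = 4 * f := by
    unfold lvX q0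
    simp
    ring
  by_cases hx : IsCoprime x ((lvX 2 f 0 : ℕ) : OO A B)
  · have hy : IsCoprime y ((lvX 2 f 0 : ℕ) : OO A B) :=
      cop4.2 (cop_congr' h (cop4.1 hx))
    obtain ⟨a, b, hab⟩ := hy
    obtain ⟨c, hc⟩ := (Pool.Agent.MUX2.idl_mem _ _).1 h
    rw [e] at hab per
    push_cast at hab hc
    have hya : e0 y * e0 a = 1 := by
      rw [← mul, ← one]
      apply per
      rw [Pool.Agent.MUX2.idl_mem]
      refine ⟨-b, ?_⟩
      push_cast
      linear_combination hab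
    have hz2 : e0 (x * a) ^ 2 = 1 := by
      rw [pow_two, ← mul, ← one]
      apply per
      rw [Pool.Agent.MUX2.idl_mem]
      refine ⟨(c * a - 2 * b) + f * (c * a - 2 * b) ^ 2, ?_⟩
      have hz : x * a = 1 + 2 * f * (c * a - 2 * b) := by
        linear_combination a * hc + hab
      rw [hz]
      push_cast
      ring
    have hz0 : e0 (x * a) ≠ 0 := by
      intro h0
      rw [h0] at hz2
      norm_num at hz2
    have hz : e0 (x * a) = 1 := by
      obtain ⟨k, hk⟩ : ∃ k, r = 2 * k + 1 := ⟨r / 2, by omega⟩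
      have h3 := pow _ hz0
      rw [hk, pow_succ, pow_mul, hz2, one_pow, one_mul] at h3
      exact h3
    rw [mul] at hz
    have ha : e0 a ≠ 0 := by
      intro h0
      rw [h0, mul_zero] at hya
      exact zero_ne_one hya
    exact mul_right_cancel₀ ha (hz.trans hya.symm)
  · have hy : ¬ IsCoprime y ((lvX 2 f 0 : ℕ) : OO A B) := by
      intro hy
      apply hx
      have h' : y - x ∈ idl (A := A) (B := B) (2 * f) := by
        rw [← neg_sub]
        exact neg_mem h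
      exact cop4.2 (cop_congr' h' (cop4.1 hy))
    have h0 : e0 x = 0 := by
      by_contra h0
      exact hx ((supp x).1 h0)
    have h1 : e0 y = 0 := by
      by_contra h0
      exact hy ((supp y).1 h0)
    rw [h0, h1]

end EPT

open _root_.Pool.Agent.N2I.EPT in
theorem tt_EPT (h1 : St_KAP) (h2 : St_TE2) (h3 : Pool.Agent.MUXF.Sx_ALG) : St_EPT := by
  intro A B V f hS e0 r hr one neg mul per supp pow
  obtain ⟨κ, hκ⟩ := h1 A B hS.case
  obtain ⟨w, hw⟩ := h2 A B V hS.case hS.hV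
  have habs : 0 < absD A B := by
    have := hS.case.neg
    unfold absD
    omega
  have hDf : (absD A B).toNat ∣ f := by
    have h4 : absD A B ∣ (f : ℤ) := (dvd_mul_left _ 3).trans hS.fD
    rw [← Int.toNat_of_nonneg habs.le] at h4
    exact_mod_cast h4
  have hD2 : (absD A B).toNat ∣ 2 * f := hDf.trans (dvd_mul_left f 2)
  have hκneg : ∀ x, κ (-x) = -κ x := by
    intro x
    rw [← neg_one_mul, hκ.mul, hκ.neg, neg_one_mul]
  have hwneg : ∀ x, w (-x) = w x := by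
    intro x
    apply hw.per
    rw [Pool.Agent.MUX2.idl_mem]
    exact ⟨-x, by push_cast; ring⟩
  have hn2 : ∀ x, IsCoprime x ((2 * f : ℕ) : OO A B) → x ∉ idl (A := A) (B := B) 2 := by
    intro x hx hx2
    have hc : IsCoprime x ((2 : ℕ) : OO A B) := cop_dvd ⟨f, rfl⟩ hx
    obtain ⟨a, b, hab⟩ := hc
    have h5 : (1 : OO A B) ∈ idl (A := A) (B := B) 2 := by
      rw [← hab]
      exact add_mem (Ideal.mul_mem_left _ a hx2)
        (Ideal.mul_mem_left _ b (Ideal.mem_span_singleton_self _))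
    have h6 := (hS.hV 1).2 h5
    have h7 : emb (1 : OO A B) = 1 := by
      have h8 := ((h3 A B ⟨hS.case.hB, hS.case.neg, hS.case.fund1, hS.case.fund0⟩).2.2.1 1).1
      simpa using h8
    rw [h7, ValuationSubring.mem_nonunits_iff, map_one] at h6
    exact lt_irrefl _ h6
  have hκu : ∀ x, IsCoprime x ((2 * f : ℕ) : OO A B) → κ x = 1 ∨ κ x = -1 := by
    intro x hx
    exact hκ.unit x (cop_iff.2 (cop_dvd hD2 hx))
  have hodd : OddT f V (fun x => (κ x : ℂ) * w x) := by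
    refine ⟨?_, ?_, ?_⟩
    · intro x
      show (κ (-x) : ℂ) * w (-x) = -((κ x : ℂ) * w x)
      rw [hκneg, hwneg]
      push_cast
      ring
    · intro x y h
      show (κ x : ℂ) * w x = (κ y : ℂ) * w y
      rw [hκ.per x y (idl_le hD2 h), hw.per x y (idl_le ⟨f, rfl⟩ h)]
    · intro x hx
      show V.valuation ((κ x : ℂ) * w x - emb x) ≤ V.valuation (2 : ℂ)
      rcases hκu x hx with h | h
      · rw [h]
        have e : ((1 : ℤ) : ℂ) * w x - emb x = w x - emb x := by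
          push_cast
          ring
        rw [e]
        exact hw.cong x
      · rw [h]
        have e : ((-1 : ℤ) : ℂ) * w x - emb x = (w x - emb x) - 2 * w x := by
          push_cast
          ring
        rw [e]
        refine (Valuation.map_sub V.valuation _ _).trans (max_le (hw.cong x) ?_)
        rw [map_mul]
        have h9 := hw.pow x (hn2 x hx)
        have h4 : V.valuation (w x) ^ 3 = 1 := by
          rw [← map_pow, h9, map_one]
        have h5 : V.valuation (w x) ≤ 1 := by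
          by_contra h6
          push Not at h6
          exact absurd h4 (one_lt_pow₀ h6 (by norm_num)).ne'
        exact mul_le_of_le_one_right' h5
  have per2f := per2 hr one mul per supp pow
  refine ⟨fun x => (κ x : ℂ) * w x, fun x => e0 x * ((κ x : ℂ) * w x), hodd,
    ⟨?_, ?_, ?_, ?_, ?_⟩, ?_, ?_⟩
  · show e0 1 * ((κ 1 : ℂ) * w 1) = 1
    rw [one, hκ.one, hw.one]
    norm_num
  · intro x y
    show e0 (x * y) * ((κ (x * y) : ℂ) * w (x * y)) =
      (e0 x * ((κ x : ℂ) * w x)) * (e0 y * ((κ y : ℂ) * w y))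
    rw [mul, hκ.mul, hw.mul]
    push_cast
    ring
  · intro x y h
    show e0 x * ((κ x : ℂ) * w x) = e0 y * ((κ y : ℂ) * w y)
    rw [per2f x y h, hκ.per x y (idl_le hD2 h), hw.per x y (idl_le ⟨f, rfl⟩ h)]
  · intro x
    rw [cop_iff]
    constructor
    · intro h
      exact cop4.1 ((supp x).1 (left_ne_zero_of_mul h))
    · intro hx
      refine mul_ne_zero ((supp x).2 (cop4.2 hx)) (mul_ne_zero ?_ ?_)
      · rcases hκu x hx with h | h
        · rw [h]; norm_num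
        · rw [h]; norm_num
      · intro h0
        have h3 := hw.pow x (hn2 x hx)
        rw [h0] at h3
        norm_num at h3
  · show e0 (-1) * ((κ (-1) : ℂ) * w (-1)) = -1
    rw [neg, hκ.neg, hwneg, hw.one]
    norm_num
  · intro x hx
    have h0 : e0 x ≠ 0 := left_ne_zero_of_mul hx
    have hc : IsCoprime x ((2 * f : ℕ) : OO A B) := cop4.1 ((supp x).1 h0)
    show (e0 x * ((κ x : ℂ) * w x)) ^ (2 * (3 * r)) = 1
    have e1 : e0 x ^ (2 * (3 * r)) = 1 := by
      rw [show 2 * (3 * r) = r * 6 by ring, pow_mul, pow x h0, one_pow]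
    have e2 : (κ x : ℂ) ^ (2 * (3 * r)) = 1 := by
      have h3 : (κ x : ℂ) ^ 2 = 1 := by
        rcases hκu x hc with h | h
        · rw [h]; norm_num
        · rw [h]; norm_num
      rw [pow_mul, h3, one_pow]
    have e3 : w x ^ (2 * (3 * r)) = 1 := by
      rw [show 2 * (3 * r) = 3 * (2 * r) by ring, pow_mul, hw.pow x (hn2 x hc), one_pow]
    rw [mul_pow, mul_pow, e1, e2, e3]
    norm_num
  · intro x _
    rfl

end

end Pool.Agent.N2I


end

section

/-!
# MUX-2N, block I2N: `St_CYC` (helper45)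
-/

set_option autoImplicit false

namespace Pool.Agent.N2I

open _root_.MU3 _root_.Pool.Agent.MU3 _root_.Pool.Agent.MU3A _root_.Pool.Agent.MU3B _root_.Pool.Agent.RI _root_.Pool.Agent.RID
  _root_.Pool.Agent.MUX _root_.Pool.Agent.MUXK _root_.Pool.Agent.MUXI _root_.Pool.Agent.NSI _root_.Pool.Agent.N2
open _root_.Pool.Agent.MU3I (w3 zt)

noncomputable section

theorem tt_CYC (h1 : Pool.Agent.MUXI.Si_LAY) : St_CYC := by
  intro A B f K hK n Bn hBn σ _ hRF hz y hy
  set S : Subfield ℂ := RingHom.eqLocusField (σ : ℂ →+* ℂ) (RingHom.id ℂ) with hS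
  have hmem : ∀ x : ℂ, x ∈ S ↔ σ x = x := fun x => Iff.rfl
  have halg : ∀ x : ℚ, algebraMap ℚ ℂ x ∈ S := by
    intro x
    rw [hmem]
    simp
  set F : IntermediateField ℚ ℂ := S.toIntermediateField halg with hF
  have hmemF : ∀ x : ℂ, x ∈ F ↔ σ x = x := fun x => Iff.rfl
  have hKF : K ≤ F := by
    intro x hx
    rw [hmemF]
    exact hRF x (hK x hx)
  have hBF : Bn ≤ F := by
    rw [h1 2 n (Or.inl rfl) Bn hBn, IntermediateField.adjoin_le_iff, Set.singleton_subset_iff]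
    have hM : q0 2 * 2 ^ n = 2 ^ (n + 2) := by
      have : q0 2 = 4 := by simp [q0]
      rw [this]; ring
    have hzt : (zt (q0 2 * 2 ^ n)) ^ (2 ^ (n + 2)) = 1 := by
      rw [hM]
      unfold zt
      rw [← Complex.exp_nat_mul, Complex.exp_eq_one_iff]
      refine ⟨1, ?_⟩
      push_cast
      field_simp
    have h2 : σ (zt (q0 2 * 2 ^ n)) = zt (q0 2 * 2 ^ n) := hz _ hzt
    refine (hmemF _).2 ?_
    rw [map_add, map_inv₀, h2]
  have hsup : K ⊔ Bn ≤ F := sup_le hKF hBF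
  exact (hmemF y).1 (hsup hy)

end

end Pool.Agent.N2I


end

section

/-!
# MUX-2N, block I2N, module KAP: the odd sign function modulo `D` (helper76)

Model: `kap_exists` in `Pool/Agent/MUX/Kap2.lean` (helper77).
-/

set_option autoImplicit false

namespace Pool.Agent.N2I

open _root_.MU3 _root_.Pool.Agent.MU3 _root_.Pool.Agent.MU3A _root_.Pool.Agent.MU3B _root_.Pool.Agent.RI _root_.Pool.Agent.RID
  _root_.Pool.Agent.MUX _root_.Pool.Agent.MUXK _root_.Pool.Agent.MUXI _root_.Pool.Agent.NSI _root_.Pool.Agent.N2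
open _root_.Pool.Agent.MU3I (w3 zt)
open _root_.Pool.Agent.MUX2 (exists_three_mod_four)

noncomputable section

/-- KAP. -/
theorem tt_KAP : St_KAP := by
  intro A B hC
  have h8 : (8 : ℤ) ∣ B ^ 2 + 4 * A - 5 := hC.two
  have hB : B = 1 := by
    rcases hC.hB with h | h
    · subst h
      obtain ⟨c, hc⟩ := h8
      omega
    · exact h
  subst hB
  have hneg := hC.neg
  have habs : absD A 1 = -(1 + 4 * A) := by simp [absD]
  have hpos : 0 < absD A 1 := by rw [habs]; omega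
  have hmod : ((absD A 1).toNat) % 4 = 3 := by
    rw [habs] at hpos ⊢
    obtain ⟨c, hc⟩ := h8
    omega
  obtain ⟨q, hq, hq3, hqd⟩ := exists_three_mod_four hmod
  have : Fact q.Prime := ⟨hq⟩
  have hq2 : q ≠ 2 := by rintro rfl; norm_num at hq3
  have hD : ((1 + 4 * A : ℤ) : ZMod q) = 0 := by
    have h1 : (q : ℤ) ∣ absD A 1 := by
      have : ((absD A 1).toNat : ℤ) = absD A 1 := Int.toNat_of_nonneg hpos.le
      rw [← this]; exact_mod_cast hqd
    rw [habs, dvd_neg] at h1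
    exact (ZMod.intCast_zmod_eq_zero_iff_dvd _ _).2 h1
  have h20 : (2 : ZMod q) ≠ 0 := by
    intro h
    have h2 : ((2 : ℕ) : ZMod q) = 0 := by exact_mod_cast h
    rw [ZMod.natCast_eq_zero_iff] at h2
    exact hq2 ((Nat.prime_dvd_prime_iff_eq hq Nat.prime_two).1 h2)
  have hw : (2 : ZMod q)⁻¹ * (2 : ZMod q)⁻¹ = (A : ZMod q) + (2 : ZMod q)⁻¹ := by
    have h1 : (1 : ZMod q) + 4 * (A : ZMod q) = 0 := by
      have := hD; push_cast at this; exact this
    field_simp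
    linear_combination -h1
  -- the homomorphism `w ↦ 1/2`
  let φ : OO A 1 → ZMod q := fun x => (x.re : ZMod q) + (x.im : ZMod q) * (2 : ZMod q)⁻¹
  have φmul : ∀ x y, φ (x * y) = φ x * φ y := by
    intro x y
    simp only [φ, QuadraticAlgebra.re_mul, QuadraticAlgebra.im_mul]
    push_cast
    linear_combination (-(x.im : ZMod q) * (y.im : ZMod q)) * hw
  have r1 : (1 : OO A 1).re = 1 := rfl
  have i1 : (1 : OO A 1).im = 0 := rfl
  have φone : φ 1 = 1 := by
    simp only [φ, r1, i1]; push_cast; ring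
  have φneg : φ (-1) = -1 := by
    simp only [φ, QuadraticAlgebra.re_neg, QuadraticAlgebra.im_neg, r1, i1]; push_cast; ring
  have φsub : ∀ x y, φ (x - y) = φ x - φ y := by
    intro x y
    simp only [φ, QuadraticAlgebra.re_sub, QuadraticAlgebra.im_sub]
    push_cast; ring
  have φadd : ∀ x y, φ (x + y) = φ x + φ y := by
    intro x y
    simp only [φ, QuadraticAlgebra.re_add, QuadraticAlgebra.im_add]
    push_cast; ring
  have φD : ∀ x, x ∈ idl (A := A) (B := 1) (absD A 1).toNat → φ x = 0 := by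
    intro x hx
    obtain ⟨c, rfl⟩ := Ideal.mem_span_singleton'.1 hx
    rw [φmul]
    have h1 : φ (((absD A 1).toNat : ℕ) : OO A 1) = 0 := by
      have h2 : ((((absD A 1).toNat : ℕ) : OO A 1)).re = ((absD A 1).toNat : ℤ) := by simp
      have h3 : ((((absD A 1).toNat : ℕ) : OO A 1)).im = 0 := by simp
      simp only [φ, h2, h3]
      have : (((absD A 1).toNat : ℕ) : ZMod q) = 0 := (ZMod.natCast_eq_zero_iff _ _).2 hqd
      push_cast
      rw [this]; ring
    rw [h1, mul_zero]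
  refine ⟨fun x => quadraticChar (ZMod q) (φ x), ⟨?_, ?_, ?_, ?_, ?_⟩⟩
  · simp only [φone, map_one]
  · intro x y; simp only [φmul, map_mul]
  · simp only [φneg]
    rw [quadraticChar_neg_one (by rw [ZMod.ringChar_zmod_n]; exact hq2), ZMod.card]
    exact ZMod.χ₄_nat_three_mod_four hq3
  · intro x y hxy
    have h1 := φD _ hxy
    rw [φsub, sub_eq_zero] at h1
    simp only [h1]
  · intro x hx
    have h1 : φ x ≠ 0 := by
      intro h0
      obtain ⟨a, ha, b, hb, hab⟩ := Ideal.isCoprime_iff_exists.1 hx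
      obtain ⟨c, rfl⟩ := Ideal.mem_span_singleton'.1 ha
      have h2 : φ (c * x + b) = 1 := by rw [hab, φone]
      rw [φadd, φmul, h0, mul_zero, zero_add, φD b hb] at h2
      exact zero_ne_one h2
    exact quadraticChar_dichotomy h1

end

end Pool.Agent.N2I


end
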