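import Mathlib
import Pool.Agent.MVF.C047
import Pool.Agent.MVF.C058
import Pool.Agent.MVF.C063
import Pool.Agent.MVF.C068
import Pool.Agent.MVF.C120
import Pool.Agent.MVF.C127

/-! Parts: N2.V_CON, N2.V_DEG, N2.V_CTX, N2.V_PVI, ME2.StI3, N2.I_I31, N2.I_TE2, ME2.I3_CYC, ME2.I3_EPT, N2.I_INPG -/

namespace Pool.Agent.N2I.TE2
end Pool.Agent.N2I.TE2
namespace Pool.Agent.N2V.CON
end Pool.Agent.N2V.CON
namespace Pool.Agent.N2V.CtxUaux
end Pool.Agent.N2V.CtxUaux
namespace Pool.Agent.N2V.DEG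
end Pool.Agent.N2V.DEG
namespace Pool.Agent.N2V.PVI
end Pool.Agent.N2V.PVI

section

/-!
# MUX-2R, block ER2: module CON (helper28), the elements `c = 1 + N b`, `N = 2^(n-1) f a`
-/

set_option autoImplicit false

open Polynomial

namespace Pool.Agent.N2V

open _root_.MU3 _root_.Pool.Agent.MU3A _root_.Pool.Agent.MU3B _root_.Pool.Agent.MUX _root_.Pool.Agent.MUXU _root_.Pool.Agent.MUXE
open _root_.Pool.Agent.RI _root_.Pool.Agent.NS _root_.Pool.Agent.N2
open _root_.Pool.Agent.N2E (cc)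

noncomputable section

namespace CON

variable {A B : ℤ} {P : Ideal (OO A B)} {V : ValuationSubring ℂ} {n f a m m' : ℕ}

/-- numbers -/
theorem _root_.Pool.Agent.N2V.CON.nums (h : SetV A B P V n f a m m') :
    m' * a = 4 * NN n f a ∧ m * a = 8 * NN n f a ∧ m = 2 * m' ∧ (∃ r, NN n f a = 8 * r) ∧
      (∃ r, NN n f a = f * a * r) ∧ (∃ r, NN n f a = 4 * f * r) ∧ (∃ r, NN n f a = a * r) ∧
      (∃ r, NN n f a ^ 2 = 2 ^ (n + 2) * r) ∧ (∃ r, m' ^ 2 = 2 ^ (n + 2) * r) ∧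
      2 * NN n f a * 2 = m' * a := by
  obtain ⟨k, rfl⟩ : ∃ k, n = k + 5 := ⟨n - 5, by have := h.n5; omega⟩
  have h1 := h.hm
  have h2 := h.hm'
  have h3 : k + 5 - 1 = k + 4 := by omega
  have h4 : NN (k + 5) f a = 2 ^ (k + 4) * f * a := by rw [NN, h3]
  have h5 : (2 : ℕ) ^ (k + 5 + 2) = 128 * 2 ^ k := by ring
  have h6 : (2 : ℕ) ^ (k + 5 + 1) = 64 * 2 ^ k := by ring
  have h7 : (2 : ℕ) ^ (k + 4) = 16 * 2 ^ k := by ring
  rw [h4, h1, h2, h5, h6, h7]
  refine ⟨by ring, by ring, by ring, ⟨2 * 2 ^ k * f * a, by ring⟩, ⟨16 * 2 ^ k, by ring⟩,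
    ⟨4 * 2 ^ k * a, by ring⟩, ⟨16 * 2 ^ k * f, by ring⟩, ⟨2 * 2 ^ k * f ^ 2 * a ^ 2, by ring⟩,
    ⟨32 * 2 ^ k * f ^ 2, by ring⟩, by ring⟩

theorem Npos (h : SetV A B P V n f a m m') : NN n f a ≠ 0 := by
  have h1 := h.f3
  have h2 := h.a3
  unfold NN
  positivity

theorem m'pos (h : SetV A B P V n f a m m') : m' ≠ 0 := by
  have h1 := h.f3
  rw [h.hm']
  positivity

theorem _root_.Pool.Agent.N2V.CON.cast_dvd_mem {d e : ℕ} (h : ∃ r, e = d * r) (b : OO A B) :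
    ((e : ℕ) : OO A B) * b ∈ idl (A := A) (B := B) d := by
  obtain ⟨r, rfl⟩ := h
  rw [Ideal.mem_span_singleton]
  exact ⟨(r : OO A B) * b, by push_cast; ring⟩

theorem _root_.Pool.Agent.N2V.CON.cc_sub (N : ℕ) (b : OO A B) : cc N b - 1 = (N : OO A B) * b := by
  unfold cc
  ring

theorem _root_.Pool.Agent.N2V.CON.coprime_of {N M : ℕ} (h : ∃ r, N ^ 2 = M * r) (b : OO A B) :
    IsCoprime (cc N b) ((M : ℕ) : OO A B) := by
  have h1 : IsCoprime (cc N b) ((N : ℕ) : OO A B) := by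
    refine ⟨1, -b, ?_⟩
    unfold cc
    ring
  have h2 : IsCoprime (cc N b) (((N : ℕ) : OO A B) ^ 2) := h1.pow_right
  obtain ⟨r, hr⟩ := h
  have h3 : ((N : ℕ) : OO A B) ^ 2 = ((M : ℕ) : OO A B) * (r : OO A B) := by
    exact_mod_cast congrArg (fun x : ℕ => (x : OO A B)) hr
  rw [h3] at h2
  exact h2.of_mul_right_left

theorem _root_.Pool.Agent.N2V.CON.cc_ne {N : ℕ} (h : 2 ∣ N) (b : OO A B) : cc N b ≠ 0 := by
  intro h0
  have h1 := congrArg QuadraticAlgebra.re h0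
  have h2 : (cc N b).re = 1 + (N : ℤ) * b.re := by
    unfold cc
    simp only [QuadraticAlgebra.re_add, QuadraticAlgebra.re_one, QuadraticAlgebra.re_mul,
      QuadraticAlgebra.re_natCast, QuadraticAlgebra.im_natCast]
    ring
  rw [h2, QuadraticAlgebra.re_zero] at h1
  obtain ⟨r, rfl⟩ := h
  have h3 : (2 : ℤ) ∣ 1 := ⟨-(r * b.re), by push_cast at h1; linarith⟩
  norm_num at h3

theorem _root_.Pool.Agent.N2V.CON.nI_of (hq : CQ A B) {c : OO A B} (hc : c ≠ 0) {M : ℕ} (h : (M : ℤ) ∣ nm c - 1) :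
    ∃ j : ℕ, nI (sp c) = 1 + M * j := by
  obtain ⟨j, hj⟩ := h
  have h1 : 0 ≤ nm c := nm_nonneg hq c
  have h2 : nm c ≠ 0 := fun h => hc ((nm_eq_zero hq).1 h)
  rw [nI_sp hq hc]
  by_cases hM : M = 0
  · refine ⟨0, ?_⟩
    subst hM
    simp only [Nat.cast_zero, zero_mul] at hj
    have : nm c = 1 := by linarith
    rw [this]
    simp
  have hM' : (0 : ℤ) < M := by exact_mod_cast Nat.pos_of_ne_zero hM
  have hj0 : 0 ≤ j := by
    by_contra hneg
    push Not at hneg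
    have : (M : ℤ) * j < 0 := mul_neg_of_pos_of_neg hM' hneg
    omega
  refine ⟨j.natAbs, ?_⟩
  zify
  rw [abs_of_nonneg h1, abs_of_nonneg hj0]
  linarith

theorem two_mem (h : CtxU A B P V) : ((2 : ℕ) : OO A B) ∈ P := by
  by_contra hc
  have h1 := h.unit _ hc
  rw [_root_.Pool.Agent.MUX.emb_natCast h.cq] at h1
  exact absurd h.v2 (by rw [show (2 : ℂ) = ((2 : ℕ) : ℂ) by norm_num, h1]; exact lt_irrefl _)

theorem v2_ne : V.valuation (2 : ℂ) ≠ 0 := by
  rw [Valuation.ne_zero_iff]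
  norm_num

theorem dR_cases (A : ℤ) : dR A = 2 ∨ dR A = 3 := by
  unfold dR
  split_ifs <;> simp

theorem le_of_sq {x y : V.ValueGroup} (h : x ^ 2 ≤ y ^ 2) : x ≤ y := by
  by_contra hc
  rw [not_le] at hc
  exact absurd h (not_le.2 (pow_lt_pow_left₀ hc zero_le (by norm_num)))

theorem _root_.Pool.Agent.N2V.CON.coprime_mem {x : OO A B} {M : ℕ} (h : CtxU A B P V) (hx : IsCoprime x ((M : ℕ) : OO A B))
    (hM : 2 ∣ M) : x ∉ P := by
  intro hxP
  obtain ⟨u, v, huv⟩ := hx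
  obtain ⟨r, rfl⟩ := hM
  have h1 : ((2 * r : ℕ) : OO A B) ∈ P := by
    rw [Nat.cast_mul]
    exact P.mul_mem_right _ (two_mem h)
  have h2 : (1 : OO A B) ∈ P := by
    rw [← huv]
    exact P.add_mem (P.mul_mem_left _ hxP) (P.mul_mem_left _ h1)
  exact h.max.ne_top ((Ideal.eq_top_iff_one _).2 h2)

/-- the valuation of `a w0 x` -/
theorem v_awx (h : CtxU A B P V) (ha : ¬ 2 ∣ a) (x : OO A B) :
    V.valuation (emb ((a : OO A B) * w0 * x)) ^ 2 =
      V.valuation (2 : ℂ) ^ (dR A - 2) * V.valuation (emb x) ^ 2 := by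
  rw [_root_.Pool.Agent.MUX.emb_mul h.cq, _root_.Pool.Agent.MUX.emb_mul h.cq, _root_.Pool.Agent.MUX.emb_natCast h.cq, map_mul, map_mul, h.nat a ha, one_mul, mul_pow]
  congr 1
  exact h.w0

end CON

open _root_.Pool.Agent.N2V.CON in
theorem tv_CON : Sv_CON := by
  intro A B P V n f a m m' h
  obtain ⟨e1, e2, e3, e4, e5, e6, e7, e8, e9, e10⟩ := _root_.Pool.Agent.N2V.CON.nums h
  have hq := h.ctx.cq
  have hdom : IsDomain (OO A B) := isDomain hq
  have hN := Npos h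
  have hm' := m'pos h
  have hN2 : 2 ∣ NN n f a := by
    obtain ⟨r, hr⟩ := e4
    exact ⟨4 * r, by omega⟩
  have hMN : ∃ r, NN n f a ^ 2 = m * a * r := by
    obtain ⟨r, hr⟩ := e4
    refine ⟨r, ?_⟩
    rw [e2, pow_two]
    conv_lhs => rw [hr]
    rw [hr]
    ring
  have hmN : ∃ r, NN n f a ^ 2 = m * r := by
    obtain ⟨r, hr⟩ := hMN
    exact ⟨a * r, by rw [hr]; ring⟩
  have hB := h.ctx.B0
  have hA : A < 0 := by
    have := hq.neg
    rw [hB] at this
    omega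
  have hwre : (w0 : OO A B).re = 0 := rfl
  have hwim : (w0 : OO A B).im = 1 := rfl
  refine ⟨fun b => ⟨?_, ?_, ?_, ?_, ?_, ?_⟩, ⟨?_, ?_⟩, ?_, ?_, ?_, ?_⟩
  · rw [Ideal.isCoprime_span_singleton_iff]
    exact _root_.Pool.Agent.N2V.CON.coprime_of hMN b
  · exact _root_.Pool.Agent.N2V.CON.coprime_of hmN b
  · exact _root_.Pool.Agent.N2V.CON.cc_ne hN2 b
  · rw [_root_.Pool.Agent.N2V.CON.cc_sub]
    exact _root_.Pool.Agent.N2V.CON.cast_dvd_mem e5 b
  · rw [_root_.Pool.Agent.N2V.CON.cc_sub]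
    exact _root_.Pool.Agent.N2V.CON.cast_dvd_mem e6 b
  · rw [_root_.Pool.Agent.N2V.CON.cc_sub]
    exact _root_.Pool.Agent.N2V.CON.cast_dvd_mem e7 b
  · intro k
    refine _root_.Pool.Agent.N2V.CON.nI_of hq (_root_.Pool.Agent.N2V.CON.cc_ne hN2 _) (M := 2 ^ (n + 2)) ?_
    obtain ⟨r, hr⟩ := e8
    have h1 : nm (cc (NN n f a) ((k : OO A B) * w0)) - 1 = -A * (NN n f a : ℤ) ^ 2 * (k : ℤ) ^ 2 := by
      unfold cc nm
      simp only [QuadraticAlgebra.re_add, QuadraticAlgebra.im_add, QuadraticAlgebra.re_one,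
        QuadraticAlgebra.im_one, QuadraticAlgebra.re_mul, QuadraticAlgebra.im_mul,
        QuadraticAlgebra.re_natCast, QuadraticAlgebra.im_natCast, hwre, hwim, hB]
      ring
    rw [h1]
    have h2 : (NN n f a : ℤ) ^ 2 = (2 ^ (n + 2) : ℕ) * (r : ℤ) := by exact_mod_cast hr
    rw [h2]
    exact ⟨-A * r * k ^ 2, by ring⟩
  · intro b
    have h2m : 2 ∣ m' := ⟨2 ^ n * f, by rw [h.hm']; ring⟩
    refine _root_.Pool.Agent.N2V.CON.nI_of hq (_root_.Pool.Agent.N2V.CON.cc_ne h2m _) (M := 2 ^ (n + 2)) ?_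
    obtain ⟨r, hr⟩ := e9
    have h1 : nm (cc m' b) - 1 = 2 * (m' : ℤ) * b.re + (m' : ℤ) ^ 2 * (b.re ^ 2 - A * b.im ^ 2) := by
      unfold cc nm
      simp only [QuadraticAlgebra.re_add, QuadraticAlgebra.im_add, QuadraticAlgebra.re_one,
        QuadraticAlgebra.im_one, QuadraticAlgebra.re_mul, QuadraticAlgebra.im_mul,
        QuadraticAlgebra.re_natCast, QuadraticAlgebra.im_natCast, hB]
      ring
    rw [h1]
    have h2 : (m' : ℤ) ^ 2 = (2 ^ (n + 2) : ℕ) * (r : ℤ) := by exact_mod_cast hr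
    have h3 : 2 * (m' : ℤ) = (2 ^ (n + 2) : ℕ) * (f : ℤ) := by
      rw [h.hm']
      push_cast
      ring
    rw [h2, h3]
    exact ⟨f * b.re + r * (b.re ^ 2 - A * b.im ^ 2), by ring⟩
  · intro k l
    have h1 : cc (NN n f a) ((k : OO A B) * w0) * cc (NN n f a) ((l : OO A B) * w0) -
        cc (NN n f a) (((k + l : ℕ) : OO A B) * w0) =
        ((NN n f a ^ 2 : ℕ) : OO A B) * ((k : OO A B) * (l : OO A B) * w0 * w0) := by
      unfold cc
      push_cast
      ring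
    rw [h1]
    exact _root_.Pool.Agent.N2V.CON.cast_dvd_mem hMN _
  · rw [_root_.Pool.Agent.N2V.CON.cc_sub, e1]
    push_cast
    ring
  · intro x hx hmem
    have hxP : x ∉ P := _root_.Pool.Agent.N2V.CON.coprime_mem h.ctx hx ⟨m', e3⟩
    have h1 : cc (NN n f a) (((2 : ℕ) : OO A B) * w0) * x - x =
        ((2 * NN n f a : ℕ) : OO A B) * (w0 * x) := by
      unfold cc
      push_cast
      ring
    rw [h1, Ideal.mem_span_singleton] at hmem
    obtain ⟨y, hy⟩ := hmem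
    have h2 : ((m' : ℕ) : OO A B) * ((a : OO A B) * w0 * x) = ((m' : ℕ) : OO A B) * (2 * y) := by
      have h3 : ((2 * NN n f a * 2 : ℕ) : OO A B) = ((m' * a : ℕ) : OO A B) := by rw [e10]
      push_cast at h3 hy
      linear_combination 2 * hy - (w0 * x) * h3
    have h3 := mul_left_cancel₀ (natCast_ne_zero' hq hm') h2
    have h4 := v_awx h.ctx h.ao x
    rw [h3, h.ctx.unit x hxP, one_pow, mul_one, _root_.Pool.Agent.MUX.emb_mul hq, map_mul, mul_pow] at h4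
    have h5 : emb (2 : OO A B) = 2 := by
      have := _root_.Pool.Agent.MUX.emb_natCast hq 2
      exact_mod_cast this
    rw [h5] at h4
    have hv0 : V.valuation (2 : ℂ) ≠ 0 := v2_ne
    have hv1 := h.ctx.v2
    have h6 : V.valuation (2 : ℂ) ^ 2 < V.valuation (2 : ℂ) ^ (dR A - 2) := by
      apply pow_lt_pow_right_of_lt_one₀ (zero_lt_iff.2 hv0) hv1
      rcases dR_cases A with h7 | h7 <;> rw [h7] <;> norm_num
    have h7 : V.valuation (2 : ℂ) ^ 2 * V.valuation (emb y) ^ 2 ≤ V.valuation (2 : ℂ) ^ 2 :=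
      mul_le_of_le_one_right' (pow_le_one' (h.ctx.int y) 2)
    rw [h4] at h7
    exact absurd h6 (not_lt.2 h7)
  · intro L om hL
    have ham := hL.mem
    have hm'c : (m' : ℂ) ≠ 0 := by exact_mod_cast hm'
    have hNm : (NN n f a : ℂ) * 4 = m' * a := by
      have : ((m' * a : ℕ) : ℂ) = ((4 * NN n f a : ℕ) : ℂ) := by rw [e1]
      push_cast at this
      linear_combination -this
    have hom := hL.om_ne
    have key : ∀ x : OO A B, emb x * (emb (w0 : OO A B) * (a * om / 4)) ∈ L.lattice ↔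
        (a : OO A B) * w0 * x ∈ idl (A := A) (B := B) (2 ^ 2) := by
      intro x
      rw [ham, Ideal.mem_span_singleton]
      constructor
      · rintro ⟨y, -, hy⟩
        refine ⟨y, ?_⟩
        apply _root_.Pool.Agent.MUX.emb_inj hq
        rw [_root_.Pool.Agent.MUX.emb_mul hq, _root_.Pool.Agent.MUX.emb_mul hq, _root_.Pool.Agent.MUX.emb_mul hq, _root_.Pool.Agent.MUX.emb_natCast hq, _root_.Pool.Agent.MUX.emb_natCast hq]
        have h1 : om * (emb x * emb (w0 : OO A B) * a - 4 * emb y) = 0 := by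
          linear_combination 4 * hy
        have h2 := (mul_eq_zero.1 h1).resolve_left hom
        push_cast
        linear_combination h2
      · rintro ⟨y, hy⟩
        refine ⟨y, trivial, ?_⟩
        have h1 := congrArg emb hy
        rw [_root_.Pool.Agent.MUX.emb_mul hq, _root_.Pool.Agent.MUX.emb_mul hq, _root_.Pool.Agent.MUX.emb_mul hq, _root_.Pool.Agent.MUX.emb_natCast hq, _root_.Pool.Agent.MUX.emb_natCast hq] at h1
        push_cast at h1
        linear_combination (om / 4) * h1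
    have hv0 : V.valuation (2 : ℂ) ≠ 0 := v2_ne
    refine ⟨?_, ?_, ?_, ?_, ?_⟩
    · intro b
      unfold cc
      rw [_root_.Pool.Agent.MUX.emb_add hq, _root_.Pool.Agent.MUX.emb_one hq, _root_.Pool.Agent.MUX.emb_mul hq, _root_.Pool.Agent.MUX.emb_natCast hq]
      field_simp
      linear_combination (emb b) * hNm
    · intro k
      rw [_root_.Pool.Agent.MUX.emb_mul hq, _root_.Pool.Agent.MUX.emb_natCast hq]
      ring
    · intro x hx
      rw [key, h.ctx.dv]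
      apply le_of_sq
      rw [v_awx h.ctx h.ao x]
      have h1 := (h.ctx.pw _ _).1 hx
      refine (mul_le_mul_right h1 _).trans ?_
      rw [← pow_add, ← pow_mul]
      rcases dR_cases A with h7 | h7 <;> rw [h7]
    · intro ht
      obtain ⟨ϖ, hϖ⟩ := h.ctx.pi
      have h1 : ϖ ^ (5 - dR A) ∈ P ^ (5 - dR A) := by
        rw [h.ctx.pw, emb_pow hq, map_pow, ← pow_mul, mul_comm, pow_mul, hϖ]
      have h2 := ht _ h1
      rw [key, h.ctx.dv] at h2
      have h3 := v_awx h.ctx h.ao (ϖ ^ (5 - dR A))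
      have h4 : V.valuation (emb (ϖ ^ (5 - dR A))) ^ 2 = V.valuation (2 : ℂ) ^ (5 - dR A) := by
        rw [emb_pow hq, map_pow, ← pow_mul, mul_comm, pow_mul, hϖ]
      rw [h4, ← pow_add] at h3
      have h5 : dR A - 2 + (5 - dR A) = 3 := by
        rcases dR_cases A with h7 | h7 <;> rw [h7]
      rw [h5] at h3
      have h6 := pow_le_pow_left₀ zero_le h2 2
      rw [h3, ← pow_mul] at h6
      have h7 : V.valuation (2 : ℂ) ^ (2 * 2) < V.valuation (2 : ℂ) ^ 3 :=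
        pow_lt_pow_right_of_lt_one₀ (zero_lt_iff.2 hv0) h.ctx.v2 (by norm_num)
      exact absurd h7 (not_lt.2 h6)
    · intro Y hY
      obtain ⟨b', -, hb'⟩ := (ham _).1 hY
      obtain ⟨r, hr⟩ : ∃ r : ℤ, (a : ℤ) ^ 2 = 1 + 4 * r := by
        have h1 : a % 2 = 1 := by
          have := h.ao
          omega
        obtain ⟨s, hs⟩ : ∃ s, a = 2 * s + 1 := ⟨a / 2, by omega⟩
        refine ⟨(s : ℤ) ^ 2 + s, ?_⟩
        rw [hs]
        push_cast
        ring
      refine ⟨(a : OO A B) * b', ?_⟩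
      rw [ham]
      refine ⟨((-r : ℤ) : OO A B) * b', trivial, ?_⟩
      rw [_root_.Pool.Agent.MUX.emb_mul hq, _root_.Pool.Agent.MUX.emb_mul hq, _root_.Pool.Agent.MUX.emb_natCast hq, _root_.Pool.Agent.MUX.emb_intCast hq]
      have h2 : (a : ℂ) ^ 2 = 1 + 4 * (r : ℂ) := by exact_mod_cast congrArg (fun x : ℤ => (x : ℂ)) hr
      push_cast
      linear_combination (1 / 4 : ℂ) * hb' - (emb b' * om / 4) * h2

end

end Pool.Agent.N2V


end

section

/-!
# MUX-2R, block ER2, module DEG: the degree of `RF (2^(j+1) f)` over `RF (f)` (helper45)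

The proof of `Pool/Agent/N2/E_DEG.lean` (helper92), for `2` ramified: the classes modulo `2^(j+1)` of the elements `⟨r, s⟩`
not in `P` are determined by `r / 2` and `s`.
-/

set_option autoImplicit false

open Polynomial

namespace Pool.Agent.N2V

open _root_.MU3 _root_.Pool.Agent.MU3A _root_.Pool.Agent.MU3B _root_.Pool.Agent.MUX _root_.Pool.Agent.MUXU _root_.Pool.Agent.MUXE
open _root_.Pool.Agent.RI _root_.Pool.Agent.NS _root_.Pool.Agent.N2

noncomputable section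

namespace DEG

lemma mem_idl_of {A B : ℤ} (n : ℕ) (x : OO A B) (h1 : (n : ℤ) ∣ x.re) (h2 : (n : ℤ) ∣ x.im) :
    x ∈ idl (A := A) (B := B) n := by
  obtain ⟨a, ha⟩ := h1
  obtain ⟨b, hb⟩ := h2
  rw [Ideal.mem_span_singleton]
  refine ⟨⟨a, b⟩, ?_⟩
  ext <;> simp [ha, hb]

/-- the pairs of classes -/
def box (j : ℕ) : Finset (ℕ × ℕ) := Finset.range (2 ^ j) ×ˢ Finset.range (2 ^ (j + 1))

lemma card_box (j : ℕ) : (box j).card = 2 * 4 ^ j := by
  unfold box
  simp only [Finset.card_product, Finset.card_range]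
  have h2 : 2 ^ j * 2 ^ j = 4 ^ j := by rw [← mul_pow]; norm_num
  rw [pow_succ, ← mul_assoc, h2, mul_comm]

/-- the class of an element -/
def cls {A B : ℤ} (j : ℕ) (x : OO A B) : ℕ × ℕ :=
  ((x.re % (2 ^ (j + 1) : ℕ)).toNat / 2, (x.im % (2 ^ (j + 1) : ℕ)).toNat)

lemma cls_mem {A B : ℤ} (j : ℕ) (x : OO A B) : cls j x ∈ box j := by
  have hN : (0 : ℤ) < ((2 ^ (j + 1) : ℕ) : ℤ) := by positivity
  have h1 := Int.emod_nonneg x.re hN.ne'
  have h2 := Int.emod_lt_of_pos x.re hN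
  have h3 := Int.emod_nonneg x.im hN.ne'
  have h4 := Int.emod_lt_of_pos x.im hN
  unfold box cls
  simp only [Finset.mem_product, Finset.mem_range]
  have hp : 2 ^ (j + 1) = 2 * 2 ^ j := pow_succ' 2 j
  generalize hc : x.re % ((2 ^ (j + 1) : ℕ) : ℤ) = c at h1 h2 ⊢
  generalize hd : x.im % ((2 ^ (j + 1) : ℕ) : ℤ) = d at h3 h4 ⊢
  generalize he : 2 ^ (j + 1) = e at hp h2 h4 ⊢
  constructor
  · omega
  · omega

/-- the parity of the first coordinate -/
lemma par {A B : ℤ} (hB : B = 0) (hA : A % 4 = 2 ∨ A % 4 = 3) (x y : OO A B)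
    (hx : ¬ (2 : ℤ) ∣ nm x) (hy : ¬ (2 : ℤ) ∣ nm y) (h : (2 : ℤ) ∣ x.im - y.im) :
    (2 : ℤ) ∣ x.re - y.re := by
  have key : ∀ z : OO A B, ¬ (2 : ℤ) ∣ nm z → ¬ (2 : ℤ) ∣ z.re + A * z.im := by
    intro z hz h1
    apply hz
    have h2 : nm z = (z.re + A * z.im) + z.re * (z.re - 1) - A * (z.im * (z.im + 1)) := by
      unfold nm
      linear_combination (z.re * z.im) * hB
    have h3 : (2 : ℤ) ∣ z.re * (z.re - 1) := (Int.even_mul_pred_self z.re).two_dvd
    have h4 : (2 : ℤ) ∣ z.im * (z.im + 1) := (Int.even_mul_succ_self z.im).two_dvd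
    rw [h2]
    exact dvd_sub (dvd_add h1 h3) (dvd_mul_of_dvd_right h4 _)
  have h1 := key x hx
  have h2 := key y hy
  have h3 : (2 : ℤ) ∣ A * (x.im - y.im) := dvd_mul_of_dvd_right h _
  rw [mul_sub] at h3
  omega

lemma cls_inj {A B : ℤ} (hB : B = 0) (hA : A % 4 = 2 ∨ A % 4 = 3) (j : ℕ) (x y : OO A B)
    (hx : ¬ (2 : ℤ) ∣ nm x) (hy : ¬ (2 : ℤ) ∣ nm y) (h : cls j x = cls j y) :
    x - y ∈ idl (A := A) (B := B) (2 ^ (j + 1)) := by
  have hN : (0 : ℤ) < ((2 ^ (j + 1) : ℕ) : ℤ) := by positivity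
  have h1 := Int.emod_nonneg x.re hN.ne'
  have h2 := Int.emod_nonneg y.re hN.ne'
  have h3 := Int.emod_nonneg x.im hN.ne'
  have h4 := Int.emod_nonneg y.im hN.ne'
  unfold cls at h
  rw [Prod.mk.injEq] at h
  obtain ⟨e1, e2⟩ := h
  have e4 : x.im % ((2 ^ (j + 1) : ℕ) : ℤ) = y.im % ((2 ^ (j + 1) : ℕ) : ℤ) := by omega
  have e5 : ((2 ^ (j + 1) : ℕ) : ℤ) ∣ x.im - y.im := Int.ModEq.dvd (Int.ModEq.symm e4)
  have h5 : (2 : ℤ) ∣ ((2 ^ (j + 1) : ℕ) : ℤ) := by
    push_cast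
    exact dvd_pow_self 2 (by omega)
  have e6 := par hB hA x y hx hy (h5.trans e5)
  have e7 : (2 : ℤ) ∣ (x.re % ((2 ^ (j + 1) : ℕ) : ℤ)) - (y.re % ((2 ^ (j + 1) : ℕ) : ℤ)) := by
    have h6 := Int.emod_add_mul_ediv x.re ((2 ^ (j + 1) : ℕ) : ℤ)
    have h7 := Int.emod_add_mul_ediv y.re ((2 ^ (j + 1) : ℕ) : ℤ)
    have h8 : (x.re % ((2 ^ (j + 1) : ℕ) : ℤ)) - (y.re % ((2 ^ (j + 1) : ℕ) : ℤ)) =
        (x.re - y.re) - ((2 ^ (j + 1) : ℕ) : ℤ) *
          (x.re / ((2 ^ (j + 1) : ℕ) : ℤ) - y.re / ((2 ^ (j + 1) : ℕ) : ℤ)) := by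
      linear_combination h6 - h7
    rw [h8]
    exact dvd_sub e6 (dvd_mul_of_dvd_left h5 _)
  have e3 : x.re % ((2 ^ (j + 1) : ℕ) : ℤ) = y.re % ((2 ^ (j + 1) : ℕ) : ℤ) := by omega
  apply mem_idl_of
  · show ((2 ^ (j + 1) : ℕ) : ℤ) ∣ x.re - y.re
    exact Int.ModEq.dvd (Int.ModEq.symm e3)
  · exact e5

end DEG

open _root_.Pool.Agent.N2V.DEG in
theorem tv_DEG : Sv_DEG := by
  classical
  intro A B P V hC hG j f hf h3f
  have hR := hC.ring
  obtain ⟨f1, -, f3, -, f5⟩ := Pool.Agent.MUXE.te_FAC Pool.Agent.MUXE.te_TRA A B hR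
  -- ideals
  set m : Ideal (OO A B) := idl (A := A) (B := B) (2 ^ (j + 1) * f) with hm
  set m' : Ideal (OO A B) := idl (A := A) (B := B) f with hm'
  have hmm' : m ≤ m' := Ideal.span_singleton_le_span_singleton.2
    (by push_cast; exact Dvd.intro_left _ rfl)
  have h2P : (2 : OO A B) ∈ P := by
    have h4 := (hC.pw 1 (2 : OO A B)).2
    rw [pow_one, pow_one] at h4
    apply h4
    have h5 : emb (2 : OO A B) = (2 : ℂ) := by
      rw [← Pool.Agent.MUX.embHom_apply hC.cq]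
      exact map_ofNat _ 2
    rw [h5, sq]
    exact mul_le_of_le_one_left' hC.v2.le
  have hm3 : m ≤ P := by
    rw [hm]
    refine (Ideal.span_singleton_le_iff_mem _).2 ?_
    have h4 : (((2 ^ (j + 1) * f : ℕ)) : OO A B) = 2 ^ j * f * 2 := by push_cast; ring
    rw [h4]
    exact Ideal.mul_mem_left _ _ h2P
  have hm0 : m ≠ ⊥ := by
    intro h0
    have h4 : (((2 ^ (j + 1) * f : ℕ)) : OO A B) ∈ m := Ideal.mem_span_singleton_self _
    rw [h0, Ideal.mem_bot] at h4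
    obtain ⟨φ, hφ⟩ := hR.hom
    have h5 : φ (((2 ^ (j + 1) * f : ℕ)) : OO A B) = ((2 ^ (j + 1) * f : ℕ) : ℂ) := map_natCast φ _
    rw [h4, map_zero] at h5
    have h6 : (2 ^ (j + 1) * f : ℕ) = 0 := by exact_mod_cast h5.symm
    exact (mul_ne_zero (pow_ne_zero _ (by norm_num)) hf) h6
  have hcop : IsCoprime (((2 ^ (j + 1) : ℕ)) : OO A B) ((f : ℕ) : OO A B) := by
    have h4 : Nat.Coprime (2 ^ (j + 1)) f :=
      Nat.Coprime.pow_left _ ((Nat.Prime.coprime_iff_not_dvd Nat.prime_two).2 h3f)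
    have h5 := (Nat.isCoprime_iff_coprime.2 h4).intCast (R := OO A B)
    simpa using h5
  have hinf : ∀ x : OO A B, x ∈ idl (A := A) (B := B) (2 ^ (j + 1)) → x ∈ m' → x ∈ m := by
    intro x h4 h5
    rw [Ideal.mem_span_singleton] at h4 h5
    rw [hm, Ideal.mem_span_singleton, Nat.cast_mul]
    exact hcop.mul_dvd h4 h5
  -- fields
  have hF : RF m' ≤ RF m := f1 m m' hmm'
  have := hG.fin m hm0
  have := hG.gal m hm0
  rw [← Pool.Agent.FX.card_fix hF]
  refine Nat.mul_le_mul_right _ ?_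
  -- the kernel
  have hker : ∀ σ : Pool.Agent.FX.Fix (RF m') (RF m), ∃ α : OO A B, α - 1 ∈ m' ∧
      ActE (_root_.Pool.Agent.MU3A.em σ.1) m α := by
    intro σ
    refine hG.ker m m' hm0 hmm' (_root_.Pool.Agent.MU3A.em σ.1) ?_
    intro y hy hy'
    exact σ.2 y hy hy'
  choose α hα1 hα2 using hker
  have hα3 : ∀ σ, ¬ (2 : ℤ) ∣ nm (α σ) := by
    intro σ
    apply hC.nrm
    intro hσ
    have h4 := (hα2 σ).1
    have h5 : sp (α σ) ≤ P := (Ideal.span_singleton_le_iff_mem _).2 hσ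
    have h7 : sp (α σ) ⊔ m = ⊤ := Ideal.isCoprime_iff_sup_eq.1 h4
    have h8 : (⊤ : Ideal (OO A B)) ≤ P := h7 ▸ sup_le h5 hm3
    exact hC.max.ne_top (top_le_iff.1 h8)
  have hinj : ∀ σ τ, α σ - α τ ∈ idl (A := A) (B := B) (2 ^ (j + 1)) → σ = τ := by
    intro σ τ h
    have h4 : α σ - α τ ∈ m' := by
      have := sub_mem (hα1 σ) (hα1 τ)
      rwa [sub_sub_sub_cancel_right] at this
    have h5 : α σ - α τ ∈ m := hinf _ h h4
    have h6 := f5 m (RF m) (_root_.Pool.Agent.MU3A.em σ.1) (α σ) (α τ) (Or.inl h5) (hα2 σ)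
    have h7 := f3 m _ _ _ h6 (hα2 τ)
    exact Pool.Agent.FX.fix_ext fun x => DFunLike.congr_fun h7 x
  have hcard : Nat.card (Pool.Agent.FX.Fix (RF m') (RF m)) ≤ Nat.card (box j) := by
    refine Nat.card_le_card_of_injective (fun σ => ⟨cls j (α σ), cls_mem j _⟩) ?_
    intro σ τ h
    exact hinj _ _ (cls_inj hC.B0 hC.mod j _ _ (hα3 σ) (hα3 τ) (congrArg Subtype.val h))
  refine hcard.trans (le_of_eq ?_)
  rw [Nat.card_eq_fintype_card, Fintype.card_coe, card_box]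

end

end Pool.Agent.N2V


end

section

/-!
# MUX-2R, block ER2, module CTX: from the standing hypotheses to `CtxU` (after `E_CTX.lean`, `R_ALC.lean`, `NS/F_CTX.lean`)

`ϖ = ⟨t, 1⟩`, `t = 0` for `A` even, `t = 1` for `A` odd; `x = ix t x + x.im ϖ`.
-/

set_option autoImplicit false

namespace Pool.Agent.N2V

open _root_.MU3 _root_.Pool.Agent.MU3A _root_.Pool.Agent.MU3B _root_.Pool.Agent.MUX _root_.Pool.Agent.MUXU _root_.Pool.Agent.MUXE
open _root_.Pool.Agent.RI _root_.Pool.Agent.NS _root_.Pool.Agent.N2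
open _root_.Pool.Agent.N2R (ALC.v_int ALC.v_emb ALC.v_odd ALC.v_unit)

noncomputable section

namespace CtxUaux

variable {A B : ℤ} {V : ValuationSubring ℂ}

/-- the integer part of `x = i + s ϖ`, `ϖ = ⟨t, 1⟩` -/
def ix (t : ℤ) (x : OO A 0) : ℤ := x.re - t * x.im

/-- `ϖ = ⟨t, 1⟩` -/
def pi (A t : ℤ) : OO A 0 := ⟨t, 1⟩

/-- the case distinction: `t = 0`, `A = 4 c + 2`, or `t = 1`, `A = 4 c - 1` -/
def Cs (A t : ℤ) : Prop := (t = 0 ∧ ∃ c, A = 4 * c + 2) ∨ (t = 1 ∧ ∃ c, A = 4 * c - 1)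

lemma ex_Cs (h : A % 4 = 2 ∨ A % 4 = 3) : ∃ t, Cs A t := by
  rcases h with h | h
  · exact ⟨0, Or.inl ⟨rfl, (A - 2) / 4, by omega⟩⟩
  · exact ⟨1, Or.inr ⟨rfl, (A + 1) / 4, by omega⟩⟩

lemma emb_eq (t : ℤ) (x : OO A 0) :
    emb x = ((ix t x : ℤ) : ℂ) + (x.im : ℂ) * emb (pi A t) := by
  unfold emb ix pi
  push_cast
  ring

lemma wsq (h : CQ A 0) : wC A 0 * wC A 0 = (A : ℂ) := by
  rw [MUX.wC_sq h]
  push_cast
  ring

lemma v_pi (h : CQ A 0) (h2 : V.valuation (2 : ℂ) < 1) {t : ℤ} (ht : Cs A t) :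
    V.valuation (emb (pi A t)) ^ 2 = V.valuation (2 : ℂ) := by
  have hw := wsq h
  rcases ht with ⟨rfl, c, hc⟩ | ⟨rfl, c, hc⟩
  · have h1 : emb (pi A 0) * emb (pi A 0) = 2 * (((2 * c + 1 : ℤ)) : ℂ) := by
      have h3 : (A : ℂ) = 4 * (c : ℂ) + 2 := by exact_mod_cast hc
      unfold emb pi
      push_cast
      linear_combination hw + h3
    rw [sq, ← map_mul, h1, map_mul, ALC.v_odd h2 (by omega), mul_one]
  · have hu : V.valuation (emb (⟨2 * c, 1⟩ : OO A 0)) = 1 := by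
      refine ALC.v_unit h h2 ?_
      have h8 : nm (⟨2 * c, 1⟩ : OO A 0) = 4 * c ^ 2 - A := by
        unfold nm
        simp only
        ring
      rw [h8]
      omega
    have h1 : emb (pi A 1) * emb (pi A 1) = 2 * emb (⟨2 * c, 1⟩ : OO A 0) := by
      have h3 : (A : ℂ) = 4 * (c : ℂ) - 1 := by exact_mod_cast hc
      unfold emb pi
      push_cast
      linear_combination hw + h3
    rw [sq, ← map_mul, h1, map_mul, hu, mul_one]

lemma v_two0 : V.valuation (2 : ℂ) ≠ 0 := by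
  rw [Valuation.ne_zero_iff]
  norm_num

lemma v_pi_lt (h : CQ A 0) (h2 : V.valuation (2 : ℂ) < 1) {t : ℤ} (ht : Cs A t) :
    V.valuation (emb (pi A t)) < 1 := by
  have h1 := v_pi h h2 ht
  refine not_le.1 fun h3 => ?_
  have h4 : 1 ≤ V.valuation (emb (pi A t)) ^ 2 := one_le_pow₀ h3
  rw [h1] at h4
  exact not_lt.2 h4 h2

lemma lt_v_pi (h : CQ A 0) (h2 : V.valuation (2 : ℂ) < 1) {t : ℤ} (ht : Cs A t) :
    V.valuation (2 : ℂ) < V.valuation (emb (pi A t)) := by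
  have h1 := v_pi h h2 ht
  refine not_le.1 fun h3 => ?_
  have h4 : V.valuation (emb (pi A t)) ^ 2 ≤ V.valuation (2 : ℂ) ^ 2 := pow_le_pow_left₀ zero_le h3 2
  rw [h1, sq] at h4
  have h5 : V.valuation (2 : ℂ) * V.valuation (2 : ℂ) < V.valuation (2 : ℂ) * 1 :=
    (mul_lt_mul_iff_right₀ (zero_lt_iff.2 v_two0)).2 h2
  rw [mul_one] at h5
  exact not_lt.2 h4 h5

lemma v_even {n : ℤ} (hn : (2 : ℤ) ∣ n) :
    V.valuation (n : ℂ) ≤ V.valuation (2 : ℂ) := by
  obtain ⟨k, rfl⟩ := hn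
  push_cast
  rw [map_mul]
  exact mul_le_of_le_one_right' (ALC.v_int V k)

lemma v_spi_le (t : ℤ) (s : ℤ) :
    V.valuation ((s : ℂ) * emb (pi A t)) ≤ V.valuation (emb (pi A t)) := by
  rw [map_mul]
  exact mul_le_of_le_one_left' (ALC.v_int V s)

/-- `i` odd: a unit -/
lemma v_one (h : CQ A 0) (h2 : V.valuation (2 : ℂ) < 1) {t : ℤ} (ht : Cs A t) {x : OO A 0}
    (hx : ¬ (2 : ℤ) ∣ ix t x) : V.valuation (emb x) = 1 := by
  rw [emb_eq t x, Valuation.map_add_eq_of_lt_left]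
  · exact ALC.v_odd h2 hx
  · rw [ALC.v_odd h2 hx]
    exact lt_of_le_of_lt (v_spi_le t _) (v_pi_lt h h2 ht)

/-- `i` even -/
lemma v_le (h : CQ A 0) (h2 : V.valuation (2 : ℂ) < 1) {t : ℤ} (ht : Cs A t) {x : OO A 0}
    (hx : (2 : ℤ) ∣ ix t x) : V.valuation (emb x) ≤ V.valuation (emb (pi A t)) := by
  rw [emb_eq t x]
  refine Valuation.map_add_le _ ?_ (v_spi_le t _)
  exact (v_even hx).trans (lt_v_pi h h2 ht).le

/-- `i` even, `s` odd -/
lemma v_eq (h : CQ A 0) (h2 : V.valuation (2 : ℂ) < 1) {t : ℤ} (ht : Cs A t) {x : OO A 0}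
    (hx : (2 : ℤ) ∣ ix t x) (hs : ¬ (2 : ℤ) ∣ x.im) :
    V.valuation (emb x) = V.valuation (emb (pi A t)) := by
  have h3 : V.valuation ((x.im : ℂ) * emb (pi A t)) = V.valuation (emb (pi A t)) := by
    rw [map_mul, ALC.v_odd h2 hs, one_mul]
  rw [emb_eq t x, Valuation.map_add_eq_of_lt_right, h3]
  rw [h3]
  exact lt_of_le_of_lt (v_even hx) (lt_v_pi h h2 ht)

/-- `v x ≤ v 2`: divisible by 2 -/
lemma ex_half (h : CQ A 0) (h2 : V.valuation (2 : ℂ) < 1) {t : ℤ} (ht : Cs A t) {x : OO A 0}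
    (hx : V.valuation (emb x) ≤ V.valuation (2 : ℂ)) : ∃ y : OO A 0, x = 2 * y := by
  have h3 : (2 : ℤ) ∣ ix t x := by
    by_contra hc
    rw [v_one h h2 ht hc] at hx
    exact not_lt.2 hx h2
  have h4 : (2 : ℤ) ∣ x.im := by
    by_contra hc
    rw [v_eq h h2 ht h3 hc] at hx
    exact not_lt.2 hx (lt_v_pi h h2 ht)
  obtain ⟨a, ha⟩ := h3
  obtain ⟨b, hb⟩ := h4
  refine ⟨⟨a + t * b, b⟩, ?_⟩
  unfold ix at ha
  apply QuadraticAlgebra.ext
  · simp only [QuadraticAlgebra.re_mul, QuadraticAlgebra.re_ofNat, QuadraticAlgebra.im_ofNat]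
    linear_combination ha + t * hb
  · simp only [QuadraticAlgebra.im_mul, QuadraticAlgebra.re_ofNat, QuadraticAlgebra.im_ofNat]
    linear_combination hb

lemma v_two_mul (h : CQ A 0) (y : OO A 0) :
    V.valuation (emb (2 * y)) = V.valuation (2 : ℂ) * V.valuation (emb y) := by
  rw [MUX.emb_mul h, map_mul]
  have h1 := MUX.emb_natCast h 2
  rw [Nat.cast_ofNat] at h1
  rw [h1]
  norm_num

lemma dvd_iff (h : CQ A 0) (h2 : V.valuation (2 : ℂ) < 1) {t : ℤ} (ht : Cs A t) :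
    ∀ (k : ℕ) (x : OO A 0), x ∈ idl (A := A) (B := 0) (2 ^ k) ↔
      V.valuation (emb x) ≤ V.valuation (2 : ℂ) ^ k := by
  intro k
  induction k with
  | zero =>
    intro x
    refine ⟨fun _ => by rw [pow_zero]; exact ALC.v_emb h V x, fun _ => ?_⟩
    rw [Ideal.mem_span_singleton, pow_zero, Nat.cast_one]
    exact one_dvd x
  | succ k ih =>
    intro x
    constructor
    · intro hx
      obtain ⟨y, rfl⟩ := Ideal.mem_span_singleton.1 hx
      rw [MUX.emb_mul h, MUX.emb_natCast h, map_mul]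
      push_cast
      rw [map_pow]
      exact mul_le_of_le_one_right' (ALC.v_emb h V y)
    · intro hx
      have h3 : V.valuation (emb x) ≤ V.valuation (2 : ℂ) := by
        refine hx.trans ?_
        rw [pow_succ]
        exact mul_le_of_le_one_left' (pow_le_one₀ zero_le h2.le)
      obtain ⟨y, rfl⟩ := ex_half h h2 ht h3
      rw [v_two_mul h, pow_succ, mul_comm] at hx
      have h4 : V.valuation (emb y) ≤ V.valuation (2 : ℂ) ^ k :=
        (mul_le_mul_iff_left₀ (zero_lt_iff.2 v_two0)).1 hx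
      obtain ⟨z, rfl⟩ := Ideal.mem_span_singleton.1 ((ih y).2 h4)
      rw [Ideal.mem_span_singleton]
      refine ⟨z, ?_⟩
      push_cast
      ring

lemma two_sq {P : Ideal (OO A 0)} {t : ℤ} (ht : Cs A t) (h2 : (2 : OO A 0) ∈ P)
    (hp : pi A t ∈ P) : (2 : OO A 0) ∈ P ^ 2 := by
  have h22 : (2 : OO A 0) * 2 ∈ P ^ 2 := by rw [sq]; exact Ideal.mul_mem_mul h2 h2
  have h2p : (2 : OO A 0) * pi A t ∈ P ^ 2 := by rw [sq]; exact Ideal.mul_mem_mul h2 hp
  have hpp : pi A t * pi A t ∈ P ^ 2 := by rw [sq]; exact Ideal.mul_mem_mul hp hp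
  rcases ht with ⟨rfl, c, hc⟩ | ⟨rfl, c, hc⟩
  · have h1 : (2 : OO A 0) = pi A 0 * pi A 0 - (c : OO A 0) * (2 * 2) := by
      apply QuadraticAlgebra.ext
      · simp only [pi, QuadraticAlgebra.re_mul, QuadraticAlgebra.re_sub, QuadraticAlgebra.re_ofNat,
          QuadraticAlgebra.im_ofNat, QuadraticAlgebra.re_intCast, QuadraticAlgebra.im_intCast,
          QuadraticAlgebra.im_mul, Int.cast_id]
        linear_combination -hc
      · simp only [pi, QuadraticAlgebra.re_mul, QuadraticAlgebra.im_sub, QuadraticAlgebra.re_ofNat,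
          QuadraticAlgebra.im_ofNat, QuadraticAlgebra.re_intCast, QuadraticAlgebra.im_intCast,
          QuadraticAlgebra.im_mul, Int.cast_id]
        ring
    rw [h1]
    exact Ideal.sub_mem _ hpp (Ideal.mul_mem_left _ _ h22)
  · have h1 : (2 : OO A 0) = (c : OO A 0) * (2 * 2) + 2 * pi A 1 - pi A 1 * pi A 1 := by
      apply QuadraticAlgebra.ext
      · simp only [pi, QuadraticAlgebra.re_mul, QuadraticAlgebra.re_sub, QuadraticAlgebra.re_ofNat,
          QuadraticAlgebra.im_ofNat, QuadraticAlgebra.re_intCast, QuadraticAlgebra.im_intCast,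
          QuadraticAlgebra.im_mul, QuadraticAlgebra.re_add, Int.cast_id]
        linear_combination hc
      · simp only [pi, QuadraticAlgebra.re_mul, QuadraticAlgebra.im_sub, QuadraticAlgebra.re_ofNat,
          QuadraticAlgebra.im_ofNat, QuadraticAlgebra.re_intCast, QuadraticAlgebra.im_intCast,
          QuadraticAlgebra.im_mul, QuadraticAlgebra.im_add, Int.cast_id]
        ring
    rw [h1]
    exact Ideal.sub_mem _ (Ideal.add_mem _ (Ideal.mul_mem_left _ _ h22) h2p) hpp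

lemma _root_.Pool.Agent.N2V.CtxUaux.nm_odd {t : ℤ} (ht : Cs A t) {x : OO A 0} (hx : ¬ (2 : ℤ) ∣ ix t x) :
    ¬ (2 : ℤ) ∣ nm x := by
  intro h1
  apply hx
  have h3 : (2 : ℤ) ∣ ix t x ^ 2 := by
    rcases ht with ⟨rfl, c, hc⟩ | ⟨rfl, c, hc⟩
    · have h4 : ix 0 x ^ 2 = nm x + 2 * ((2 * c + 1) * x.im ^ 2) := by
        unfold nm ix
        linear_combination (x.im ^ 2) * hc
      rw [h4]
      exact dvd_add h1 (dvd_mul_right _ _)
    · have h4 : ix 1 x ^ 2 = nm x + 2 * (2 * c * x.im ^ 2 - x.re * x.im) := by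
        unfold nm ix
        linear_combination (x.im ^ 2) * hc
      rw [h4]
      exact dvd_add h1 (dvd_mul_right _ _)
  exact Int.prime_two.dvd_of_dvd_pow h3

end CtxUaux

open _root_.Pool.Agent.N2V.CtxUaux in
/-- (CTX) from the standing hypotheses to `CtxU` -/
theorem tv_CTX : Sv_CTX := by
  intro A B P V hC hP hV hT hG hF
  have h := hC.toCQ
  have hB := hC.b0
  have hmod := hC.mod
  subst hB
  obtain ⟨t, ht⟩ := ex_Cs hmod
  have h2P : (2 : OO A 0) ∈ P := by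
    have := hP.mem
    rwa [Nat.cast_ofNat] at this
  have h1P : (1 : OO A 0) ∉ P := fun h1 => hP.prime.ne_top ((Ideal.eq_top_iff_one P).2 h1)
  have hv2 : V.valuation (2 : ℂ) < 1 := by
    have h1 := (hV ((2 : ℕ) : OO A 0)).2 hP.mem
    rw [ValuationSubring.mem_nonunits_iff, MUX.emb_natCast h] at h1
    simpa using h1
  have hunit : ∀ x : OO A 0, x ∉ P → V.valuation (emb x) = 1 := fun x hx =>
    le_antisymm (ALC.v_emb h V x) (not_lt.1 fun h1 =>
      hx ((hV x).1 ((ValuationSubring.mem_nonunits_iff V).2 h1)))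
  have hlt : ∀ x : OO A 0, V.valuation (emb x) < 1 → x ∈ P := fun x hx =>
    (hV x).1 ((ValuationSubring.mem_nonunits_iff V).2 hx)
  have hmem : ∀ x : OO A 0, x ∈ P ↔ (2 : ℤ) ∣ ix t x := by
    intro x
    constructor
    · intro hx
      by_contra hc
      have h3 := (ValuationSubring.mem_nonunits_iff V).1 ((hV x).2 hx)
      rw [v_one h hv2 ht hc] at h3
      exact lt_irrefl _ h3
    · intro hx
      exact hlt x (lt_of_le_of_lt (v_le h hv2 ht hx) (v_pi_lt h hv2 ht))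
  have hone : ∀ x : OO A 0, x ∉ P → x - 1 ∈ P := by
    intro x hx
    rw [hmem] at hx ⊢
    have e1 : ix t (x - 1) = ix t x - 1 := by
      unfold ix
      rw [QuadraticAlgebra.re_sub, QuadraticAlgebra.im_sub, QuadraticAlgebra.re_one,
        QuadraticAlgebra.im_one]
      ring
    rw [e1]
    omega
  have hpiP : pi A t ∈ P := hlt _ (v_pi_lt h hv2 ht)
  have h2sq := two_sq ht h2P hpiP
  have hdv := dvd_iff (V := V) h hv2 ht
  have hpw1 : ∀ (k : ℕ) (x : OO A 0), x ∈ P ^ k →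
      V.valuation (emb x) ^ 2 ≤ V.valuation (2 : ℂ) ^ k := by
    intro k
    induction k with
    | zero =>
      intro x _
      rw [pow_zero]
      exact pow_le_one₀ zero_le (ALC.v_emb h V x)
    | succ k ih =>
      intro x hx
      rw [pow_succ] at hx
      refine Submodule.mul_induction_on hx ?_ ?_
      · intro a ha b hb
        rw [MUX.emb_mul h, map_mul, mul_pow, pow_succ]
        refine mul_le_mul' (ih a ha) ?_
        rw [← v_pi h hv2 ht]
        exact pow_le_pow_left₀ zero_le (v_le h hv2 ht ((hmem b).1 hb)) 2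
      · intro a b ha hb
        rw [MUX.emb_add h]
        rcases le_max_iff.1 (Valuation.map_add V.valuation (emb a) (emb b)) with h3 | h3
        · exact (pow_le_pow_left₀ zero_le h3 2).trans ha
        · exact (pow_le_pow_left₀ zero_le h3 2).trans hb
  have hpw2 : ∀ (k : ℕ) (x : OO A 0), V.valuation (emb x) ^ 2 ≤ V.valuation (2 : ℂ) ^ k →
      x ∈ P ^ k := by
    intro k
    induction k using Nat.twoStepInduction with
    | zero =>
      intro x _
      rw [pow_zero, Ideal.one_eq_top]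
      exact Submodule.mem_top
    | one =>
      intro x hx
      rw [pow_one] at hx ⊢
      refine hlt x (not_le.1 fun h3 => ?_)
      exact not_lt.2 ((one_le_pow₀ h3).trans hx) hv2
    | more k ih _ =>
      intro x hx
      have h3 : V.valuation (emb x) ≤ V.valuation (2 : ℂ) := by
        refine not_lt.1 fun h4 => ?_
        have h5 : V.valuation (2 : ℂ) ^ 2 < V.valuation (emb x) ^ 2 :=
          pow_lt_pow_left₀ h4 zero_le two_ne_zero
        refine not_lt.2 (hx.trans ?_) h5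
        rw [pow_add]
        exact mul_le_of_le_one_left' (pow_le_one₀ zero_le hv2.le)
      obtain ⟨y, rfl⟩ := ex_half h hv2 ht h3
      rw [v_two_mul h, mul_pow, pow_add, mul_comm] at hx
      have h4 : V.valuation (emb y) ^ 2 ≤ V.valuation (2 : ℂ) ^ k :=
        (mul_le_mul_iff_left₀ (zero_lt_iff.2 (pow_ne_zero 2 v_two0))).1 hx
      have h5 := Ideal.mul_mem_mul (ih y h4) h2sq
      rw [← pow_add] at h5
      rwa [mul_comm]
  refine
    { ring := te_RNG A 0 h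
      cq := h
      B0 := rfl
      mod := hmod
      v2 := hv2
      int := ALC.v_emb h V
      unit := hunit
      nat := ?_
      max := ?_
      one := hone
      nrm := fun x hx => _root_.Pool.Agent.N2V.CtxUaux.nm_odd ht fun hc => hx ((hmem x).2 hc)
      pi := ⟨pi A t, v_pi h hv2 ht⟩
      w0 := ?_
      pw := fun k x => ⟨hpw1 k x, hpw2 k x⟩
      dv := hdv
      good := hG
      val := ?_
      exq := ?_ }
  · intro n hn
    have := ALC.v_odd (V := V) hv2 (n := (n : ℤ)) (by omega)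
    simpa using this
  · rw [Ideal.isMaximal_iff]
    refine ⟨h1P, ?_⟩
    intro J x hJ hx hxJ
    have h4 : (1 : OO A 0) = x - (x - 1) := by ring
    rw [h4]
    exact J.sub_mem hxJ (hJ (hone x hx))
  · rw [MUX.emb_w, sq, ← map_mul, wsq h]
    rcases hmod with h3 | h3
    · have hd : dR A = 3 := by
        unfold dR
        rw [if_neg (by omega)]
      obtain ⟨c, hc⟩ : ∃ c : ℤ, A = 2 * (2 * c + 1) := ⟨(A - 2) / 4, by omega⟩
      have hc' : (A : ℂ) = 2 * ((2 * c + 1 : ℤ) : ℂ) := by exact_mod_cast hc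
      rw [hd, hc', map_mul, ALC.v_odd hv2 (by omega), mul_one, pow_one]
    · have hd : dR A = 2 := by
        unfold dR
        rw [if_pos h3]
      rw [hd, ALC.v_odd hv2 (by omega), pow_zero]
  · intro f _ hf y hy hy0
    exact hF f (Nat.not_even_iff_odd.1 fun he => hf he.two_dvd) y hy hy0
  · rintro L ⟨b, om, hL⟩
    have h20 : (2 : OO A 0) ≠ 0 := by
      intro h0
      have h1 := congrArg QuadraticAlgebra.re h0
      simp only [QuadraticAlgebra.re_ofNat, QuadraticAlgebra.re_zero] at h1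
      norm_num at h1
    have hPb : P ≠ ⊥ := by
      rintro rfl
      exact h20 (Ideal.mem_bot.1 h2P)
    obtain ⟨σ, -, hσ⟩ := hT.surj ⊤ (by
      intro h0
      have h4 : (2 : OO A 0) ∈ (⊤ : Ideal (OO A 0)) := Submodule.mem_top
      rw [h0] at h4
      exact h20 (Ideal.mem_bot.1 h4)) P hPb (Ideal.isCoprime_iff_sup_eq.2 (sup_top_eq _))
    obtain ⟨b', L', om', mu, hL', hact⟩ := hσ b L om hL
    exact ⟨L', mu, ⟨b', om', hL'⟩, hact.isq⟩

end

end Pool.Agent.N2V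


end

section

/-!
# MUX-2R, block ER2, module PVI (helper89): the multiplier of an isogeny whose kernel is in the kernel of reduction

The product formula (PFI) for `w = ω₁ / 5`, `z = ω₁ / 7`. Models: `Pool/Agent/NS/F_PIS.lean` (helper61), `Pool/Agent/N2/E_UNT.lean` (helper76).
-/

set_option autoImplicit false

open Polynomial

namespace Pool.Agent.N2V

open _root_.MU3 _root_.Pool.Agent.MU3A _root_.Pool.Agent.MU3B _root_.Pool.Agent.MUX _root_.Pool.Agent.MUXU _root_.Pool.Agent.MUXE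
open _root_.Pool.Agent.RI _root_.Pool.Agent.NS _root_.Pool.Agent.N2
open _root_.Pool.Agent.NSE (IntP)
open _root_.Pool.Agent.MUX2 (GRG)
open _root_.Pool.Agent.MUXV (InK tX)
open _root_.Pool.Agent.N2E (dlg AutC cc)

noncomputable section

namespace PVI

/-- rational multiples of the period `ω₁` -/
theorem rat_mul (L : PeriodPair) (x : ℚ) (hx : x.den ≠ 1) : ((x : ℚ) : ℂ) * L.ω₁ ∉ L.lattice := by
  intro hm
  have e : ((x : ℚ) : ℂ) * L.ω₁ = ((x : ℚ) : ℂ) * L.ω₁ + ((0 : ℚ) : ℂ) * L.ω₂ := by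
    push_cast
    ring
  rw [e, PeriodPair.mul_ω₁_add_mul_ω₂_mem_lattice] at hm
  exact hx hm.1

end PVI

open _root_.Pool.Agent.N2V.PVI in
theorem tv_PVI (h2 : Sv_GRT) : Sv_PVI := by
  intro V L N u e a1 a3 u' e' a1' a3' ν hg hg' hv2 hν hIsg R hR hRk
  obtain ⟨⟨ξ, G⟩, tL⟩ := h2 V L u e a1 a3 hg hv2
  obtain ⟨⟨ξ', G'⟩, tN⟩ := h2 V N u' e' a1' a3' hg' hv2
  have hu := hg.u0
  have hu' := hg'.u0
  -- integer multiples of the period
  have hω : ∀ k : ℤ, (k : ℂ) * L.ω₁ ∈ L.lattice := by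
    intro k
    have := L.lattice.smul_mem k L.ω₁_mem_lattice
    rwa [zsmul_eq_mul] at this
  -- a rational point of odd order
  have good : ∀ (x : ℚ) (n : ℕ) (k : ℤ), ¬ 2 ∣ n → (n : ℂ) * ((x : ℚ) : ℂ) = (k : ℂ) →
      x.den ≠ 1 →
      ¬ InK V L (xu L u e) (((x : ℚ) : ℂ) * L.ω₁) ∧ ν * (((x : ℚ) : ℂ) * L.ω₁) ∉ N.lattice ∧
      ¬ InK V N (xu N u' e') (ν * (((x : ℚ) : ℂ) * L.ω₁)) := by
    intro x n k hn hk hx
    have hnL : (n : ℂ) * (((x : ℚ) : ℂ) * L.ω₁) ∈ L.lattice := by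
      rw [← mul_assoc, hk]
      exact hω k
    have hxL := rat_mul L x hx
    have m0 : ¬ InK V L (xu L u e) (((x : ℚ) : ℂ) * L.ω₁) := fun hin =>
      hxL ((tL n hn).2 _ hnL hin)
    have m1 : ν * (((x : ℚ) : ℂ) * L.ω₁) ∉ N.lattice := by
      intro h8
      obtain ⟨q, hq, hqL⟩ := hR.surj _ h8 hxL
      exact m0 ((Pool.Agent.MUX2.gInK_congr G (Or.inl hqL)).2 (hRk q hq))
    refine ⟨m0, m1, fun hin => ?_⟩
    refine m1 ((tN n hn).2 _ ?_ hin)
    have h8 := hIsg _ hnL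
    rwa [show ν * ((n : ℂ) * (((x : ℚ) : ℂ) * L.ω₁)) = (n : ℂ) * (ν * (((x : ℚ) : ℂ) * L.ω₁)) by ring] at h8
  obtain ⟨w1, w2, w3⟩ := good (1 / 5) 5 1 (by norm_num) (by push_cast; norm_num) (by norm_num)
  obtain ⟨z1, z2, z3⟩ := good (1 / 7) 7 1 (by norm_num) (by push_cast; norm_num) (by norm_num)
  obtain ⟨p1, p2, p3⟩ := good (12 / 35) 35 12 (by norm_num) (by push_cast; norm_num) (by norm_num)
  obtain ⟨s1, s2, s3⟩ := good (-2 / 35) 35 (-2) (by norm_num) (by push_cast; norm_num) (by norm_num)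
  have ep : (((12 / 35 : ℚ) : ℚ) : ℂ) * L.ω₁ =
      (((1 / 7 : ℚ) : ℚ) : ℂ) * L.ω₁ + (((1 / 5 : ℚ) : ℚ) : ℂ) * L.ω₁ := by
    push_cast
    ring
  have es : (((-2 / 35 : ℚ) : ℚ) : ℂ) * L.ω₁ =
      (((1 / 7 : ℚ) : ℚ) : ℂ) * L.ω₁ - (((1 / 5 : ℚ) : ℚ) : ℂ) * L.ω₁ := by
    push_cast
    ring
  rw [ep] at p1 p2 p3
  rw [es] at s1 s2 s3
  generalize (((1 / 7 : ℚ) : ℚ) : ℂ) * L.ω₁ = z at z1 z2 z3 p1 p2 p3 s1 s2 s3
  generalize (((1 / 5 : ℚ) : ℚ) : ℂ) * L.ω₁ = w at w1 w2 w3 p1 p2 p3 s1 s2 s3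
  -- the product formula
  have pf := u_PFI L N ν R hν hIsg hR w w2 z z2
  have xd : ∀ a b : ℂ, L.weierstrassP a - L.weierstrassP b =
      u ^ 2 * (xu L u e a - xu L u e b) := by
    intro a b
    unfold xu
    field_simp
    ring
  have xd' : ∀ a b : ℂ, N.weierstrassP a - N.weierstrassP b =
      u' ^ 2 * (xu N u' e' a - xu N u' e' b) := by
    intro a b
    unfold xu
    field_simp
    ring
  have pf' : (ν * u' / u) ^ 2 * (xu N u' e' (ν * z) - xu N u' e' (ν * w)) *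
      ∏ q ∈ R, (xu L u e z - xu L u e q) =
      (xu L u e z - xu L u e w) * ∏ q ∈ R, (xu L u e z - xu L u e (w + q)) := by
    simp only [xd, xd', Finset.prod_mul_distrib, Finset.prod_const] at pf
    have hu2 : u ^ 2 * (u ^ 2) ^ R.card ≠ 0 := by positivity
    apply mul_left_cancel₀ hu2
    have e1 : u ^ 2 * (ν * u' / u) ^ 2 = ν ^ 2 * u' ^ 2 := by
      field_simp
    linear_combination pf + ((u ^ 2) ^ R.card *
      (xu N u' e' (ν * z) - xu N u' e' (ν * w)) * ∏ q ∈ R, (xu L u e z - xu L u e q)) * e1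
  have v1 : V.valuation (xu N u' e' (ν * z) - xu N u' e' (ν * w)) = 1 :=
    Pool.Agent.MUX2.gv_X_sub G' z3 w3 (by rw [← mul_add]; exact p3) (by rw [← mul_sub]; exact s3)
  have v2 : V.valuation (xu L u e z - xu L u e w) = 1 :=
    Pool.Agent.MUX2.gv_X_sub G z1 w1 p1 s1
  have v3 : ∀ q ∈ R, V.valuation (xu L u e z - xu L u e (w + q)) = 1 := by
    intro q hqR
    have hq := hRk q hqR
    refine Pool.Agent.MUX2.gv_X_sub G z1 (fun hin => w1 ?_) (fun hin => p1 ?_) (fun hin => s1 ?_)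
    · have := Pool.Agent.MUX2.gInK_sub G hin hq
      rwa [add_sub_cancel_right] at this
    · have := Pool.Agent.MUX2.gInK_sub G hin hq
      rwa [show z + (w + q) - q = z + w by ring] at this
    · have := Pool.Agent.MUX2.gInK_add G hin hq
      rwa [show z - (w + q) + q = z - w by ring] at this
  have hzint : V.valuation (xu L u e z) ≤ 1 := (Pool.Agent.MUXV.int_X z1).2
  have v4 : ∀ q ∈ R, V.valuation (xu L u e z - xu L u e q) = V.valuation (xu L u e q) := by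
    intro q hqR
    apply Valuation.map_sub_eq_of_lt_right
    have hq1 : 1 < V.valuation (xu L u e q) := by
      rcases hRk q hqR with h8 | h8
      · exact absurd h8 (hR.ne q hqR)
      · rwa [← not_le, ValuationSubring.valuation_le_one_iff]
    exact lt_of_le_of_lt hzint hq1
  have key := congrArg V.valuation pf'
  rw [map_mul, map_mul, map_mul, map_prod, map_prod, v1, v2, Finset.prod_congr rfl v3,
    Finset.prod_congr rfl v4, Finset.prod_const_one, map_pow, mul_one, mul_one] at key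
  exact key

end

end Pool.Agent.N2V


end

section

/-!
# ME2, `D = -3`, `p = 2`, block I (helper34): from blocks E, H to the input (I3) of block K

As `Pool/Agent/N2/StIT.lean` (2 inert), in the frame ME. The general statements of `ME/N/StIN.lean` are used as they are, with `p = 2`.
-/

set_option autoImplicit false

namespace Pool.Agent.ME2I

open _root_.MU3 _root_.Pool.Agent.MU3 _root_.Pool.Agent.MU3A _root_.Pool.Agent.MU3B _root_.Pool.Agent.RI _root_.Pool.Agent.RID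
  _root_.Pool.Agent.MUX _root_.Pool.Agent.MUXK _root_.Pool.Agent.MUXI _root_.Pool.Agent.NSI
open _root_.Pool.Agent.ME hiding ActE
open _root_.Pool.Agent.ME2 (SetT3 TT2E InCycE)
open _root_.Pool.Agent.N2 (GoodT OddT IsTei2)
open _root_.Pool.Agent.MU3I (w3 zt)

noncomputable section

/-! ## Definitions -/

lemma setL_3 {A B : ℤ} {V : ValuationSubring ℂ} {f : ℕ} (h : SetT3 A B V f) : SetL 2 A B f :=
  ⟨h.case.toCQ, Or.inl rfl, h.f0, h.fp⟩

/-- the input from block E for one field `D` -/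
structure EInp3 {A B : ℤ} (V : ValuationSubring ℂ) (f : ℕ) {ι : Type}
    (R : RepsE A B (2 * f) ι) (u : ℂ) (n : ℕ) {D : IntermediateField ℚ ℂ} (h : kk A B ≤ D)
    (C : (letI := algC h; D ≃ₐ[kk A B] D) → ℂ) : Prop where
  ne : C (letI := algC h; 1) ≠ 0
  conj : letI := algC h
    ∀ τ : D ≃ₐ[kk A B] D, ∃ y : D, (y : ℂ) = C 1 ∧ ((τ y : D) : ℂ) = C τ
  ew : letI := algC h
    ∀ om : OO A B → ℂ, OddT f V om → ∀ g : (D ≃ₐ[kk A B] D) → ℤ,
      (∃ y ∈ D, y ^ 2 = ∏ᶠ τ : D ≃ₐ[kk A B] D, C τ ^ g τ) → ∀ τ' : D ≃ₐ[kk A B] D,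
        V.valuation ((∑ᶠ τ : D ≃ₐ[kk A B] D, (g τ : ℂ) *
          TT2E R om (lvX 2 f n) (aX 2 f) h (τ * τ')) / u) ^ 2 ≤ V.valuation (2 : ℂ) ^ 3

/-! ## Characters -/

/-- (KAP) the odd sign function modulo `√-3` -/
def St3_KAP : Prop :=
  ∀ A B : ℤ, CaseE A B → B = 1 → ∃ κ : OO A B → ℤ, Pool.Agent.MUX2.KapD A B κ

/-- (TE2) existence of the Teichmueller character. -/
def St3_TE2 : Prop :=
  ∀ (A B : ℤ) (V : ValuationSubring ℂ), CaseE A B → OverI V (idl (A := A) (B := B) 2) →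
    ∃ w : OO A B → ℂ, IsTei2 V w

/-- (EPT) the weights and the odd character. -/
def St3_EPT : Prop :=
  ∀ (A B : ℤ) (V : ValuationSubring ℂ) (f : ℕ) (_ : SetT3 A B V f) (e0 : OO A B → ℂ) (r : ℕ)
    (_ : ¬ 2 ∣ r)
    (_ : e0 1 = 1) (_ : e0 (-1) = 1) (_ : ∀ x y, e0 (x * y) = e0 x * e0 y)
    (_ : ∀ x y, x - y ∈ idl (A := A) (B := B) (lvX 2 f 0) → e0 x = e0 y)
    (_ : ∀ x, e0 x ≠ 0 ↔ IsCoprime x ((lvX 2 f 0 : ℕ) : OO A B))
    (_ : ∀ x, e0 x ≠ 0 → e0 x ^ r = 1) (_ : ∀ z, IsUnit z → e0 z = 1),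
    ∃ (om e : OO A B → ℂ), OddT f V om ∧ IsEIE (idl (A := A) (B := B) (2 * f)) e ∧
      (∀ x, e x ≠ 0 → e x ^ (2 * (3 * r)) = 1) ∧
      ∀ x, IsCoprime x ((lvX 2 f 0 : ℕ) : OO A B) → e0 x * om x = e x

/-- (CYC) `K B_n` is in the compositum of `RFE (4 f)` and the field of the `2^(n+2)`-th roots of unity. -/
def St3_CYC : Prop :=
  ∀ (A B : ℤ) (f : ℕ) (K : IntermediateField ℚ ℂ),
    (∀ y ∈ K, y ∈ RFE (idl (A := A) (B := B) (lvX 2 f 0))) → ∀ (n : ℕ)
    (Bn : IntermediateField ℚ ℂ), IsLayer 2 n Bn → InCycE A B f (2 ^ (n + 2)) (K ⊔ Bn)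

/-! ## The result -/

/-- (I31) one level, `T`. -/
def St3_I31 : Prop :=
  ∀ (A B : ℤ) (V : ValuationSubring ℂ) (f : ℕ), SetT3 A B V f → TorXE A B →
    ∀ (ι : Type) [Fintype ι] (R : RepsE A B (2 * f) ι) (u el a1 a3 : ℂ),
    GoodT V (R.L R.i0) u el a1 a3 →
    ∀ (K : IntermediateField ℚ ℂ) (Bn : ℕ → IntermediateField ℚ ℂ)
    [FiniteDimensional ℚ K] [∀ n, FiniteDimensional ℚ ↥(K ⊔ Bn n)]
    (hB : BasX 2 (kk A B) K Bn)
    (_ : ¬ 2 ∣ Module.finrank (kk A B) (IntermediateField.extendScalars hB.hk))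
    (_ : ∀ y ∈ K, y ∈ RFE (idl (A := A) (B := B) (lvX 2 f 0)))
    (hk : ∀ n, kk A B ≤ K ⊔ Bn n) (hkK : kk A B ≤ K)
    (C : ∀ n, (letI := algC (hk n); ↥(K ⊔ Bn n) ≃ₐ[kk A B] ↥(K ⊔ Bn n)) → ℂ)
    (_ : ∀ n, 2 ≤ n → EInp3 V f R u n (hk n) (C n)) (c₀ : ℕ → ℂ)
    (mem : ∀ n, c₀ n ∈ K ⊔ Bn n) (_ : ∀ n, 2 ≤ n → c₀ n = C n (letI := algC (hk n); 1))
    (χ : (letI := algC hkK; (↥K ≃ₐ[kk A B] ↥K) →* (IsLocalRing.ResidueField V)ˣ)) (n₀ : ℕ),
    ∃ n, n₀ ≤ n ∧ I3At (IsLocalRing.ResidueField V) 2 (kk A B) K Bn hkK χ 1 n (hk n) (c₀ n) (mem n)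

/-- the inputs of block K. -/
def St3_INP : Prop :=
  ∀ (A B : ℤ) (V : ValuationSubring ℂ) (f : ℕ), SetT3 A B V f → TorXE A B →
    ∀ (ι : Type) [Fintype ι] (R : RepsE A B (2 * f) ι) (u el a1 a3 : ℂ),
    GoodT V (R.L R.i0) u el a1 a3 →
    ∀ (K₀ K : IntermediateField ℚ ℂ) (Bn : ℕ → IntermediateField ℚ ℂ)
    [FiniteDimensional ℚ (kk A B)] [FiniteDimensional ℚ K] [∀ n, FiniteDimensional ℚ ↥(K ⊔ Bn n)]
    (_ : SetX 2 (kk A B) K₀ K Bn)
    (_ : ∀ y ∈ K₀, y ∈ RFE (idl (A := A) (B := B) (lvX 2 f 0)))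
    (hk : ∀ n, kk A B ≤ K ⊔ Bn n) (hk₀ : ∀ n, kk A B ≤ K₀ ⊔ Bn n) (hkK : kk A B ≤ K₀)
    (S : Finset ℕ) (c c₀ : ℕ → ℂ) (n₁ : ℕ)
    (_ : Pool.Agent.MUXZ.InpW 2 (kk A B) K₀ K Bn hk hk₀ S c c₀ n₁)
    (C : ∀ n, (letI := algC (hk₀ n); ↥(K₀ ⊔ Bn n) ≃ₐ[kk A B] ↥(K₀ ⊔ Bn n)) → ℂ)
    (_ : ∀ n, 2 ≤ n → EInp3 V f R u n (hk₀ n) (C n))
    (_ : ∀ n, 2 ≤ n → c₀ n = C n (letI := algC (hk₀ n); 1)),
    InpX (IsLocalRing.ResidueField V) 2 (kk A B) K₀ K Bn hk hk₀ hkK S c c₀ n₁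

/-- the inputs of block J for `D = -3`, `p = 2`. -/
def St3_INPG : Prop :=
  ∀ (A B : ℤ) (V : ValuationSubring ℂ), CaseE A B → B = 1 → OverI V (idl (A := A) (B := B) 2) →
    TorXE A B → Pool.Agent.MUXJ.InpG_E 2 9 A B V

end

end Pool.Agent.ME2I


end

section

/-!
# MUX-2N, block I2N, module I31 (helper36): one level, from blocks E2N and H2N

Model: `Pool/Agent/NS/I_I31.lean`.
-/

set_option autoImplicit false

namespace Pool.Agent.N2I

open _root_.MU3 _root_.Pool.Agent.MU3 _root_.Pool.Agent.MU3A _root_.Pool.Agent.MU3B _root_.Pool.Agent.RI _root_.Pool.Agent.RID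
  _root_.Pool.Agent.MUX _root_.Pool.Agent.MUXK _root_.Pool.Agent.MUXI _root_.Pool.Agent.NSI _root_.Pool.Agent.N2
open _root_.Pool.Agent.MU3I (w3 zt St_ITG)

noncomputable section

namespace I31

lemma emb_nat {A B : ℤ} (n : ℕ) : emb (n : OO A B) = n := by
  have h1 : ((n : ℕ) : OO A B).re = n := by
    simp
  have h2 : ((n : ℕ) : OO A B).im = 0 := by
    simp
  unfold emb
  rw [h1, h2]
  push_cast
  ring

/-- the set `v(x)² ≤ v(2)³` -/
lemma val_prop (V : ValuationSubring ℂ) (u : ℂ) :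
    V.valuation ((0 : ℂ) / u) ^ 2 ≤ V.valuation (2 : ℂ) ^ 3 ∧
    (∀ x y : ℂ, V.valuation (x / u) ^ 2 ≤ V.valuation (2 : ℂ) ^ 3 →
      V.valuation (y / u) ^ 2 ≤ V.valuation (2 : ℂ) ^ 3 →
      V.valuation ((x + y) / u) ^ 2 ≤ V.valuation (2 : ℂ) ^ 3) ∧
    (∀ v x : ℂ, v ∈ V → V.valuation (x / u) ^ 2 ≤ V.valuation (2 : ℂ) ^ 3 →
      V.valuation (v * x / u) ^ 2 ≤ V.valuation (2 : ℂ) ^ 3) ∧
    ∀ v x : ℂ, v ∉ V.nonunits → V.valuation (v * x / u) ^ 2 ≤ V.valuation (2 : ℂ) ^ 3 →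
      V.valuation (x / u) ^ 2 ≤ V.valuation (2 : ℂ) ^ 3 := by
  refine ⟨by simp, ?_, ?_, ?_⟩
  · intro x y hx hy
    rw [add_div]
    have h1 := V.valuation.map_add (x / u) (y / u)
    rcases le_total (V.valuation (x / u)) (V.valuation (y / u)) with h | h
    · rw [max_eq_right h] at h1
      exact (pow_le_pow_left' h1 2).trans hy
    · rw [max_eq_left h] at h1
      exact (pow_le_pow_left' h1 2).trans hx
  · intro v x hv hx
    rw [mul_div_assoc, map_mul]
    have h1 : V.valuation v ≤ 1 := (V.valuation_le_one_iff v).2 hv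
    exact (pow_le_pow_left' (mul_le_of_le_one_left' h1) 2).trans hx
  · intro v x hv hx
    rw [mul_div_assoc, map_mul] at hx
    have h1 : 1 ≤ V.valuation v := by
      by_contra h2
      exact hv (V.mem_nonunits_iff.2 (lt_of_not_ge h2))
    exact (pow_le_pow_left' (le_mul_of_one_le_left' h1) 2).trans hx

/-- if the product is a square, then the sum is small -/
theorem pows (hFOU : Sn_FOU) (hTG : St_ITG) {A B : ℤ} (V : ValuationSubring ℂ) (f : ℕ)
    {ι : Type} (R : Reps A B (2 * f) ι) (u : ℂ)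
    (n : ℕ) (D : IntermediateField ℚ ℂ) [FiniteDimensional ℚ D] (h : kk A B ≤ D)
    (C : (letI := algC h; D ≃ₐ[kk A B] D) → ℂ) (hE : EInpT V f R u n h C) (w : OO A B → ℂ)
    (hw : OddT f V w) :
    letI := algC h
    ∀ (_ : ∀ σ τ : D ≃ₐ[kk A B] D, σ * τ = τ * σ) (c₁ : ℂ) (hc : c₁ ∈ D) (_ : c₁ = C 1)
      (γ : D ≃ₐ[kk A B] D) (Δ : Subgroup (D ≃ₐ[kk A B] D)) [Fintype Δ] (N : ℕ) (b : Δ → ℕ)
      (X : Δ →* ℂˣ) (_ : (∑ δ : Δ, (b δ : ℂ) * (X δ : ℂ)) ∉ V.nonunits) (y : D)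
      (_ : y ^ 2 = ∏ δ : Δ, ((δ : D ≃ₐ[kk A B] D) ((Tg γ)^[N] ⟨c₁, hc⟩)) ^ b δ),
      V.valuation ((∑ j ∈ Finset.range (N + 1),
        (((-1 : ℤ) ^ (N - j) * (N.choose j : ℤ) : ℤ) : ℂ) *
        ∑ δ : Δ, (((X δ)⁻¹ : ℂˣ) : ℂ) * TT2 R w (lvX 2 f n)
          (aX 2 f) h (γ ^ j * (δ : D ≃ₐ[kk A B] D))) / u) ^ 2 ≤ V.valuation (2 : ℂ) ^ 3 := by
  classical
  let akL : Algebra (kk A B) D := algC h
  intro comm c₁ hc hc1 γ Δ iΔ N b X hX y hy
  have fdk := Pool.Agent.FX.fd (kk A B) D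
  have iG : Fintype (D ≃ₐ[kk A B] D) := Fintype.ofFinite _
  let e : ℕ → ℤ := fun j => (-1 : ℤ) ^ (N - j) * (N.choose j : ℤ)
  let g : (D ≃ₐ[kk A B] D) → ℤ := fun τ => ∑ δ : Δ, ∑ j ∈ Finset.range (N + 1),
      if (δ : D ≃ₐ[kk A B] D) * γ ^ j = τ then (b δ : ℤ) * e j else 0
  have hcτ : ∀ τ : D ≃ₐ[kk A B] D, ((τ ⟨c₁, hc⟩ : D) : ℂ) = C τ := by
    intro τ
    obtain ⟨y', hy1, hy2⟩ := hE.conj τ
    have h3 : y' = ⟨c₁, hc⟩ := Subtype.ext (hy1.trans hc1.symm)
    rw [← h3]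
    exact hy2
  have hcne : (⟨c₁, hc⟩ : D) ≠ 0 := by
    intro h0
    apply hE.ne
    have h1 : c₁ = 0 := congrArg Subtype.val h0
    rw [hc1] at h1
    exact h1
  have hu : ∀ τ : D ≃ₐ[kk A B] D, C τ ≠ 0 := by
    intro τ h0
    rw [← hcτ τ] at h0
    have h1 : τ (⟨c₁, hc⟩ : D) = 0 := Subtype.ext h0
    exact hcne ((map_eq_zero_iff τ τ.injective).1 h1)
  have e1 : (y : ℂ) ^ 2 = ∏ᶠ τ : D ≃ₐ[kk A B] D, C τ ^ g τ := by
    rw [MU3I.I3F.prod_exp γ Δ _ hu (fun δ => (b δ : ℤ)) N e g (fun τ => rfl)]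
    have h1 : (y : ℂ) ^ 2 = D.val (y ^ 2) := rfl
    rw [h1, hy, map_prod]
    refine Finset.prod_congr rfl fun δ _ => ?_
    rw [MU3I.I3F.tg_pow hTG _ _ γ δ _ hcne N (b δ), map_prod]
    refine Finset.prod_congr rfl fun j _ => ?_
    rw [map_zpow₀]
    exact congrArg (fun w : ℂ => w ^ ((b δ : ℤ) * e j)) (hcτ ((δ : D ≃ₐ[kk A B] D) * γ ^ j))
  have e2 := hE.ew w hw g ⟨y, y.2, e1⟩
  obtain ⟨q1, q2, q3, q4⟩ := val_prop V u
  refine hFOU V (fun x => V.valuation (x / u) ^ 2 ≤ V.valuation (2 : ℂ) ^ 3) q1 q2 q3 q4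
    (D ≃ₐ[kk A B] D) comm γ Δ
    (fun τ => TT2 R w (lvX 2 f n) (aX 2 f) h τ) (fun δ => (b δ : ℤ)) N e X ?_ ?_
  · simpa using hX
  · intro τ'
    have e3 := e2 τ'
    rw [MU3I.I3F.sum_exp γ Δ (fun τ => TT2 R w (lvX 2 f n) (aX 2 f) h τ)
      (fun δ => (b δ : ℤ)) N e g (fun τ => rfl) τ'] at e3
    exact e3

lemma muX_ne {f : ℕ} (hf : f ≠ 0) {A B : ℤ} {ι : Type} (R : Reps A B (2 * f) ι) (i : ι) :
    muX R i ≠ 0 := by
  have h2 : nI (R.b i) ≠ 0 := by
    intro h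
    have h1 := R.cop i
    rw [h, Nat.coprime_zero_left] at h1
    omega
  unfold muX
  exact div_ne_zero (mul_ne_zero (R.nl i).om_ne (Nat.cast_ne_zero.2 h2)) (R.nl R.i0).om_ne

lemma kkC_pow {f : ℕ} (hf : f ≠ 0) {A B : ℤ} {ι : Type} (R : Reps A B (2 * f) ι) (kp : ι → ℂ)
    (r : ℕ) (hkp : ∀ i, kp i ^ r = 1) (i : ι) :
    kkC R kp (fun i => muX R i) 1 i ^ (2 * (3 * r)) = 1 := by
  have h1 : kp i * muX R i / muX R i = kp i := mul_div_cancel_right₀ _ (muX_ne hf R i)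
  unfold kkC
  rw [h1, if_pos rfl, mul_one, show 2 * (3 * r) = r * 6 by ring, pow_mul, hkp, one_pow]

end I31

/-- (I31) one level -/
theorem tt_I31 (hRES : Pool.Agent.MUXJ.Sj_RES) (hCHI : Si_CHI) (hFOU : Sn_FOU)
    (hTG : St_ITG) (hEPT : St_EPT) (hE0 : Sn_E0) (hARF : Si_ARF)
    (hXXF : Si_XXF) (hSUB : Sn_SUB) (hGAM : Si_GAM) (hXM : Sn_XMX) (hBIJ : Si_BIJ) (hTH : Sn_TH)
    (hGEN : Si_GEN) (hH : S2_HFIN) (hGAL : S_GALX) : St_I31 := by
  classical
  intro A B V f hS hTor ι iι R u el a1 a3 hG K Bn iK iKB hB hcop hKT hk hkK C hE c₀ mem hc₀ χ n₀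
  let aK : Algebra (kk A B) K := algC hkK
  have iP : Fact (Nat.Prime 2) := ⟨Nat.prime_two⟩
  have hCQ : CQ A B := hS.case.toCQ
  have hL : SetL 2 A B f := setL_T hS
  have hpV : ((2 : ℕ) : ℂ) ∈ V.nonunits := by
    have h1 := (hS.hV ((2 : ℕ) : OO A B)).2 (Ideal.mem_span_singleton_self _)
    rwa [I31.emb_nat] at h1
  obtain ⟨iF1, iF2⟩ := hRES 2 V hpV
  have galK : IsGalois (kk A B) K := (isGalois_algC hkK).2 hB.gal
  have fdkK := Pool.Agent.FX.fd (kk A B) K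
  have commK : ∀ a b : K ≃ₐ[kk A B] K, a * b = b * a := by
    intro a b
    have h1 := hB.ab ((extEquiv hkK).symm.autCongr a) ((extEquiv hkK).symm.autCongr b)
    rw [← map_mul, ← map_mul] at h1
    exact (extEquiv hkK).symm.autCongr.injective h1
  have iG0 : Fintype (K ≃ₐ[kk A B] K) := Fintype.ofFinite _
  have hcard : Fintype.card (K ≃ₐ[kk A B] K) =
      Module.finrank (kk A B) (IntermediateField.extendScalars hB.hk) := by
    rw [← Nat.card_eq_fintype_card, IsGalois.card_aut_eq_finrank]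
    exact (extEquiv hkK).toLinearEquiv.finrank_eq
  have hc3 : ¬ 2 ∣ Fintype.card (K ≃ₐ[kk A B] K) := by
    rw [hcard]
    exact hcop
  obtain ⟨X, θ, hXθ⟩ := hCHI 2 V hpV iF1 iF2 (K ≃ₐ[kk A B] K) commK hc3 χ
  obtain ⟨rr, hrr⟩ : ∃ rr, rr = Fintype.card (K ≃ₐ[kk A B] K) := ⟨_, rfl⟩
  have hXr : ∀ τ, X τ ^ rr = 1 := by
    intro τ
    rw [hrr, ← map_pow, pow_card_eq_one, map_one]
  rw [← hrr] at hc3
  obtain ⟨e0, kp, h01, h0m, h0mul, h0per, h0supp, h0pow, hkp, h0X⟩ := hE0 2 A B f hL hTor ι R K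
    hkK hKT galK X _ hXr
  obtain ⟨w, e, hw, hei, hepow, hes⟩ := hEPT A B V f hS e0 rr hc3 h01 h0m h0mul h0per h0supp
    h0pow
  have hkk := I31.kkC_pow hS.f0 R kp rr hkp
  have h8 : ¬ 2 ∣ 3 * rr := by
    intro h
    rcases (Nat.Prime.dvd_mul Nat.prime_two).1 h with h | h
    · omega
    · exact hc3 h
  obtain ⟨n, hn1, hnot⟩ := hH A B V f hS hTor ι R u el a1 a3 hG e hei (3 * rr) h8 hepow
    (kkC R kp (fun i => muX R i) 1) hkk (n₀ + 2)
  refine ⟨n, by omega, ?_⟩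
  have hn2 : 2 ≤ n := by omega
  let akL : Algebra (kk A B) ↥(K ⊔ Bn n) := algC (hk n)
  intro γ hγ iN r hr
  obtain ⟨gal, comm⟩ := hGAL 2 (kk A B) K Bn hB n (hk n)
  have hNL : ∃ (b : Ideal (OO A B)) (L : PeriodPair) (om : ℂ), IsNL b L om :=
    ⟨_, _, _, R.nl R.i0⟩
  have hsub := hSUB 2 A B f hL hTor hNL K hKT n (Bn n) (hB.lay n)
  obtain ⟨γ₀, hγ₀, hγ₀z⟩ := hGAM 2 (Or.inl rfl) (kk A B) K Bn hB n (hk n)
  have hXX := hXM 2 A B f hL hTor ι R K (Bn n) n (hk n) (hB.lay n) hsub gal γ₀ hγ₀z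
  obtain ⟨hbij, hrmul⟩ := hBIJ 2 (kk A B) K Bn hB n (hk n) hkK r hr
  have fdk := Pool.Agent.FX.fd (kk A B) ↥(K ⊔ Bn n)
  have iG : Finite (↥(K ⊔ Bn n) ≃ₐ[kk A B] ↥(K ⊔ Bn n)) := inferInstance
  let rh : NC (hk n) (Bn n) →* (K ≃ₐ[kk A B] K) := MonoidHom.mk' r hrmul
  let X' : NC (hk n) (Bn n) →* ℂˣ := X.comp rh
  have hX'θ : (∑ δ : NC (hk n) (Bn n),
      (((θ ((χ (r δ))⁻¹ : (IsLocalRing.ResidueField V)ˣ)).val : ℕ) : ℂ) * (X' δ : ℂ)) ∉
        V.nonunits := by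
    have h1 : (∑ δ : NC (hk n) (Bn n),
      (((θ ((χ (r δ))⁻¹ : (IsLocalRing.ResidueField V)ˣ)).val : ℕ) : ℂ) * (X' δ : ℂ)) =
        ∑ δ : K ≃ₐ[kk A B] K,
      (((θ ((χ δ)⁻¹ : (IsLocalRing.ResidueField V)ˣ)).val : ℕ) : ℂ) * (X δ : ℂ) :=
      Fintype.sum_bijective r hbij _ _ fun δ => rfl
    rw [h1]
    exact hXθ
  have hKD : K ≤ K ⊔ Bn n := le_sup_left
  have hq3 : q0 2 = 4 := by simp [q0]
  have hCc : ∀ i, (nI (R.b i)).Coprime (lvX 2 f n) := by
    intro i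
    have h1 := R.cop i
    have h2 : lvX 2 f n ∣ (2 * f) ^ (n + 2) := by
      have h4 : f ∣ f ^ (n + 2) := dvd_pow_self f (by omega)
      have h5 : lvX 2 f n = 2 ^ (n + 2) * f := by
        unfold lvX
        rw [hq3]
        ring
      rw [h5, mul_pow]
      exact mul_dvd_mul (dvd_refl _) h4
    exact Nat.Coprime.coprime_dvd_right h2 (Nat.Coprime.pow_right _ h1)
  have hm2 : 2 ≤ lvX 2 f n := by
    have h2 : 1 ≤ 2 ^ n := Nat.one_le_pow _ _ (by norm_num)
    have h3 : 1 ≤ f := Nat.one_le_iff_ne_zero.2 hS.f0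
    unfold lvX
    rw [hq3]
    nlinarith [Nat.mul_le_mul h3 h2]
  have hm0 : (idl (A := A) (B := B) (lvX 2 f n)) ≠ ⊥ := by
    intro h
    have h1 : ((lvX 2 f n : ℕ) : OO A B) = 0 := Ideal.span_singleton_eq_bot.1 h
    have h2 := congrArg emb h1
    rw [I31.emb_nat] at h2
    have h3 : emb (0 : OO A B) = 0 := by
      unfold emb
      simp
    rw [h3] at h2
    have h4 : lvX 2 f n = 0 := by exact_mod_cast h2
    omega
  have hlv : lvX 2 f 0 ∣ lvX 2 f n := by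
    unfold lvX
    rw [pow_zero, mul_one]
    exact dvd_mul_right _ _
  have hle : idl (A := A) (B := B) (lvX 2 f n) ≤ idl (lvX 2 f 0) := by
    refine Ideal.span_singleton_le_span_singleton.2 ?_
    exact_mod_cast Nat.cast_dvd_cast hlv
  have hchi : ∀ (δ : NC (hk n) (Bn n)) (j : ℕ),
      ∀ q ∈ XX R (lvX 2 f n) (hk n) (γ₀ ^ j * (δ : ↥(K ⊔ Bn n) ≃ₐ[kk A B] ↥(K ⊔ Bn n))),
      (((X' δ)⁻¹ : ℂˣ) : ℂ) = kp q.1 * e0 (Quotient.out q.2) := by
    intro δ j q hq
    have hqc : IsCoprime (Quotient.out q.2 : OO A B) ((lvX 2 f n : ℕ) : OO A B) := hq.1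
    have h1 := hXXF A B hCQ hTor (2 * f) ι R (lvX 2 f n) hm2 hCc (K ⊔ Bn n) (hk n) hsub gal
    have hq2 : (q.1, Ideal.Quotient.mk (idl (A := A) (B := B) (lvX 2 f n))
        (Quotient.out q.2)) = q := Prod.ext rfl (Quotient.out_eq' q.2)
    have h2 := (h1.1 (γ₀ ^ j * (δ : ↥(K ⊔ Bn n) ≃ₐ[kk A B] ↥(K ⊔ Bn n))) q.1
      (Quotient.out q.2) hqc).1 (by rw [hq2]; exact hq)
    obtain ⟨-, -, -, -, -, h3, -⟩ := hARF A B hCQ hTor hNL (idl (lvX 2 f n)) hm0 (K ⊔ Bn n)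
      (hk n) hsub gal
    have hγj : ∀ (i : ℕ) (z : ↥(K ⊔ Bn n)), (z : ℂ) ∈ K → (γ₀ ^ i) z = z := by
      intro i z hz
      induction i with
      | zero => rfl
      | succ i ih =>
        rw [pow_succ, AlgEquiv.mul_apply, (hγ₀ z).2 hz, ih]
    have h4 := h3 K hkK (idl (lvX 2 f 0)) hle hKD
      (γ₀ ^ j * (δ : ↥(K ⊔ Bn n) ≃ₐ[kk A B] ↥(K ⊔ Bn n))) (r δ)
      (sp (Quotient.out q.2) * cjI (R.b q.1)) (by
        intro x x' hx
        rw [AlgEquiv.mul_apply]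
        have h5 := hr δ x x' hx
        have h6 : (((δ : ↥(K ⊔ Bn n) ≃ₐ[kk A B] ↥(K ⊔ Bn n)) x' : ↥(K ⊔ Bn n)) : ℂ) ∈ K := by
          rw [h5]
          exact (r δ x).2
        rw [hγj j _ h6]
        exact h5) h2
    have hco : IsCoprime (Quotient.out q.2 : OO A B) ((lvX 2 f 0 : ℕ) : OO A B) := by
      have h7 : ((lvX 2 f 0 : ℕ) : OO A B) ∣ ((lvX 2 f n : ℕ) : OO A B) := by
        exact_mod_cast Nat.cast_dvd_cast hlv
      exact hqc.of_isCoprime_of_dvd_right h7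
    exact h0X (r δ) q.1 (Quotient.out q.2) hco h4
  -- the ideal `(2 f)`
  have hg1 : idl (A := A) (B := B) (lvX 2 f 0) ≤ idl (2 * f) := by
    refine Ideal.span_singleton_le_span_singleton.2 ?_
    have h1 : 2 * f ∣ lvX 2 f 0 := by
      unfold lvX
      rw [hq3, pow_zero, mul_one]
      exact ⟨2, by ring⟩
    exact_mod_cast Nat.cast_dvd_cast h1
  have hg2 : idl (A := A) (B := B) (2 * f) ≤ idl f := by
    refine Ideal.span_singleton_le_span_singleton.2 ?_
    have h1 : f ∣ 2 * f := dvd_mul_left f 2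
    exact_mod_cast Nat.cast_dvd_cast h1
  have hTHi := hTH 2 A B f hL (idl (2 * f)) hg1 hg2 ι R n _ γ₀ (NC (hk n) (Bn n))
    (fun τ => XX R (lvX 2 f n) (hk n) τ) hXX X' e0 kp (fun i => muX R i) w e 1
    (fun x y hxy => h0per x y (hle hxy)) (fun x y hxy => hw.per x y (hg1 (hle hxy))) hei
    (Or.inl rfl) (fun _ => rfl) (fun x hx => by rw [if_pos rfl, mul_one]; exact hes x hx) hchi
  -- the statement for `γ₀`
  have hcne : c₀ n ≠ 0 := by
    rw [hc₀ n hn2]
    exact (hE n hn2).ne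
  have key : ∀ y : ↥(K ⊔ Bn n), y ^ 2 ≠ ∏ δ : NC (hk n) (Bn n),
      ((δ : ↥(K ⊔ Bn n) ≃ₐ[kk A B] ↥(K ⊔ Bn n)) ((Tg γ₀)^[1] ⟨c₀ n, mem n⟩)) ^
        (θ ((χ (r δ))⁻¹ : (IsLocalRing.ResidueField V)ˣ)).val := by
    intro y hy
    have hHf := I31.pows hFOU hTG V f R u n (K ⊔ Bn n) (hk n) (C n) (hE n hn2) w
      hw comm (c₀ n) (mem n) (hc₀ n hn2) γ₀ (NC (hk n) (Bn n)) 1
      (fun δ => (θ ((χ (r δ))⁻¹ : (IsLocalRing.ResidueField V)ˣ)).val) X' hX'θ y hy
    refine absurd hHf (not_le_of_gt ?_)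
    have hS1 : ∑ j ∈ Finset.range (1 + 1),
        (((-1 : ℤ) ^ (1 - j) * (Nat.choose 1 j : ℤ) : ℤ) : ℂ) *
        ∑ δ : NC (hk n) (Bn n), (((X' δ)⁻¹ : ℂˣ) : ℂ) * TT2 R w (lvX 2 f n)
          (aX 2 f) (hk n) (γ₀ ^ j * (δ : ↥(K ⊔ Bn n) ≃ₐ[kk A B] ↥(K ⊔ Bn n))) =
        1 / 2 * ∑ j ∈ Finset.range 2, (-1) ^ (1 - j) *
        (STX R (lvX 2 f n) (2 ^ (n + 2)) (aX 2 f) e (kkC R kp (fun i => muX R i) 1) (5 ^ j) +
          STX R (lvX 2 f n) (2 ^ (n + 2)) (aX 2 f) e (kkC R kp (fun i => muX R i) 1)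
            (-(5 ^ j))) := by
      rw [Finset.mul_sum]
      refine Finset.sum_congr rfl fun j hj => ?_
      have hj1 : j ≤ 1 := by
        have := Finset.mem_range.1 hj
        omega
      have hch : Nat.choose 1 j = 1 := by
        interval_cases j <;> rfl
      have h9 := hTHi j
      have e1 : q0 2 * 2 ^ n = 2 ^ (n + 2) := by
        rw [hq3]
        ring
      have e2 : (1 + (q0 2 : ℤ)) = 5 := by
        rw [hq3]
        norm_num
      rw [e1, e2] at h9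
      have h10 : ∑ δ : NC (hk n) (Bn n), (((X' δ)⁻¹ : ℂˣ) : ℂ) * TT2 R w (lvX 2 f n)
          (aX 2 f) (hk n) (γ₀ ^ j * (δ : ↥(K ⊔ Bn n) ≃ₐ[kk A B] ↥(K ⊔ Bn n))) =
          1 / 2 * (STX R (lvX 2 f n) (2 ^ (n + 2)) (aX 2 f) e (kkC R kp (fun i => muX R i) 1)
            (5 ^ j) + ((1 : ℤ) : ℂ) * STX R (lvX 2 f n) (2 ^ (n + 2)) (aX 2 f) e
            (kkC R kp (fun i => muX R i) 1) (-5 ^ j)) := by
        rw [← h9, Finset.mul_sum]
        refine Finset.sum_congr rfl fun δ _ => ?_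
        unfold TT2
        ring
      rw [h10, hch]
      push_cast
      ring
    rw [hS1]
    exact hnot
  have key2 := hGEN 2 (kk A B) K Bn hB n (hk n) (c₀ n) (mem n) hcne 1 γ₀ hγ₀
    (fun δ => (θ ((χ (r δ))⁻¹ : (IsLocalRing.ResidueField V)ˣ)).val) key γ hγ
  exact ⟨θ, key2⟩

end

end Pool.Agent.N2I


end

section

/-!
# MUX-2N, block I2N, module TE2: existence of the Teichmueller character (adapted from `NS/I_TEI.lean` of helper80)

`2 O` is a prime ideal with four residue classes, so `x ^ 3 ≡ 1` modulo `2` for `x ∉ 2 O`. For such an `x`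
there is exactly one cube root of unity `η` with `v (emb x - η) < 1`, and then `v (emb x - η) ≤ v 2`
(the product of the `emb x - η` is `emb x ^ 3 - 1`, and different cube roots of unity differ by units at `V`).
Put `w x = η`, and `w x = 0` for `x ∈ 2 O`; everything follows from the uniqueness.
-/

set_option autoImplicit false

namespace Pool.Agent.N2I

open _root_.MU3 _root_.Pool.Agent.MU3 _root_.Pool.Agent.MU3A _root_.Pool.Agent.MU3B _root_.Pool.Agent.RI _root_.Pool.Agent.RID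
  _root_.Pool.Agent.MUX _root_.Pool.Agent.MUXK _root_.Pool.Agent.MUXI _root_.Pool.Agent.NSI _root_.Pool.Agent.N2
open _root_.Pool.Agent.MU3I (w3 zt)

noncomputable section

namespace TE2

/-! ### Cube roots of unity -/

lemma nat_le (V : ValuationSubring ℂ) (n : ℕ) : V.valuation (n : ℂ) ≤ 1 :=
  (V.valuation_le_one_iff _).2 (natCast_mem V.toSubring n)

lemma v3_of_v2 {V : ValuationSubring ℂ} (v2 : V.valuation (2 : ℂ) < 1) :
    V.valuation (3 : ℂ) = 1 := by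
  refine le_antisymm (by exact_mod_cast nat_le V 3) (not_lt.1 fun h => ?_)
  have h1 : V.valuation (3 - 2 : ℂ) < 1 := lt_of_le_of_lt (V.valuation.map_sub _ _) (max_lt h v2)
  have h2 : (3 - 2 : ℂ) = 1 := by norm_num
  rw [h2, map_one] at h1
  exact lt_irrefl _ h1

lemma v_root {V : ValuationSubring ℂ} {η : ℂ} (h : η ^ 3 = 1) : V.valuation η = 1 := by
  have h1 : V.valuation η ^ 3 = 1 := by rw [← map_pow, h, map_one]
  exact (pow_eq_one_iff.1 h1).resolve_right (by norm_num)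

/-- different cube roots of unity differ by a unit at `V` -/
lemma root_eq {V : ValuationSubring ℂ} (v2 : V.valuation (2 : ℂ) < 1) {η η' : ℂ} (h : η ^ 3 = 1)
    (h' : η' ^ 3 = 1) (hv : V.valuation (η - η') < 1) : η = η' := by
  have h0 : η' ≠ 0 := by
    rintro rfl
    norm_num at h'
  have hr8 : (η / η') ^ 3 = 1 := by rw [div_pow, h, h', div_one]
  have hrv : V.valuation (η / η') = 1 := v_root hr8
  have hrV : η / η' ∈ V := (V.valuation_le_one_iff _).1 hrv.le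
  have hd : V.valuation (η / η' - 1) < 1 := by
    have e1 : η / η' - 1 = (η - η') / η' := by
      rw [sub_div, div_self h0]
    rw [e1, map_div₀, v_root h', div_one]
    exact hv
  by_contra hne
  have hr1 : η / η' - 1 ≠ 0 := by
    intro h1
    exact hne ((div_eq_one_iff_eq h0).1 (sub_eq_zero.1 h1))
  generalize η / η' = ρ at hr8 hrV hd hr1
  have hgeom : 1 + ρ + ρ ^ 2 = 0 := by
    apply mul_left_cancel₀ hr1
    linear_combination hr8
  have h8 : (3 : ℂ) = -((ρ - 1) * (ρ + 2)) := by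
    linear_combination hgeom
  have hmem : ρ + 2 ∈ V := V.add_mem _ _ hrV (by exact_mod_cast natCast_mem V.toSubring 2)
  have hv8 : V.valuation (3 : ℂ) < 1 := by
    rw [h8, Valuation.map_neg, map_mul]
    exact mul_lt_one_of_lt_of_le hd ((V.valuation_le_one_iff _).2 hmem)
  rw [v3_of_v2 v2] at hv8
  exact lt_irrefl _ hv8

/-- `z ^ 3 ≡ 1` modulo `2`: then `z` is congruent to a cube root of unity -/
lemma exists_root {V : ValuationSubring ℂ} (v2 : V.valuation (2 : ℂ) < 1) {z : ℂ}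
    (hz : V.valuation (z ^ 3 - 1) ≤ V.valuation (2 : ℂ)) :
    ∃ η : ℂ, η ^ 3 = 1 ∧ V.valuation (η - z) ≤ V.valuation (2 : ℂ) := by
  have hprod : z ^ 3 - 1 = ∏ η ∈ Polynomial.nthRootsFinset 3 (1 : ℂ), (z - η) := by
    have h1 := Polynomial.X_pow_sub_one_eq_prod (R := ℂ) (n := 3) (by norm_num)
      (Complex.isPrimitiveRoot_exp 3 (by norm_num))
    have h2 := congrArg (Polynomial.eval z) h1
    rw [Polynomial.eval_prod] at h2
    simpa using h2
  have hS : ∀ η ∈ Polynomial.nthRootsFinset 3 (1 : ℂ), η ^ 3 = 1 := fun η hη =>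
    (Polynomial.mem_nthRootsFinset (by norm_num) (1 : ℂ)).1 hη
  by_cases h : ∃ η ∈ Polynomial.nthRootsFinset 3 (1 : ℂ), V.valuation (z - η) < 1
  · obtain ⟨η, hη, hv⟩ := h
    refine ⟨η, hS η hη, ?_⟩
    rw [Valuation.map_sub_swap]
    have h1 : V.valuation (z ^ 3 - 1) = V.valuation (z - η) := by
      rw [hprod, ← Finset.mul_prod_erase _ _ hη, map_mul, map_prod]
      have h2 : ∏ x ∈ (Polynomial.nthRootsFinset 3 (1 : ℂ)).erase η, V.valuation (z - x) = 1 := by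
        refine Finset.prod_eq_one fun x hx => ?_
        obtain ⟨hxne, hxS⟩ := Finset.mem_erase.1 hx
        have h3 : V.valuation (η - x) = 1 := by
          refine le_antisymm ?_ (not_lt.1 fun h4 => hxne (root_eq v2 (hS η hη) (hS x hxS) h4).symm)
          exact (V.valuation.map_sub _ _).trans
            (max_le (v_root (hS η hη)).le (v_root (hS x hxS)).le)
        have e1 : z - x = (z - η) + (η - x) := by ring
        rw [e1, Valuation.map_add_eq_of_lt_right _ (by rw [h3]; exact hv), h3]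
      rw [h2, mul_one]
    rw [← h1]
    exact hz
  · push Not at h
    exfalso
    have h1 : 1 ≤ V.valuation (z ^ 3 - 1) := by
      rw [hprod, map_prod]
      exact Finset.prod_induction (fun x => V.valuation (z - x)) (fun y => 1 ≤ y)
        (fun a b ha hb => one_le_mul_of_one_le_of_one_le ha hb) le_rfl h
    exact absurd v2 (not_lt.2 (h1.trans hz))

/-! ### The ring `O` -/

lemma wC_int {A B : ℤ} (hc : CQ A B) : IsIntegral ℤ (wC A B) := by
  refine ⟨Polynomial.X ^ 2 - Polynomial.C B * Polynomial.X - Polynomial.C A, ?_, ?_⟩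
  · monicity!
  · have := _root_.Pool.Agent.MUX.wC_sq hc
    simp only [Polynomial.eval₂_sub, Polynomial.eval₂_mul, Polynomial.eval₂_pow,
      Polynomial.eval₂_X, Polynomial.eval₂_C]
    simp only [algebraMap_int_eq, eq_intCast]
    linear_combination this

lemma emb_mem_V {A B : ℤ} (hc : CQ A B) (V : ValuationSubring ℂ) (x : OO A B) : emb x ∈ V := by
  have h1 : wC A B ∈ V := by
    have h2 : IsIntegral V (wC A B) := (wC_int hc).tower_top
    obtain ⟨y, hy⟩ := IsIntegrallyClosed.isIntegral_iff.1 h2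
    rw [← hy]
    exact y.2
  have h3 : ∀ n : ℤ, (n : ℂ) ∈ V := fun n => intCast_mem V.toSubring n
  exact V.add_mem _ _ (h3 _) (V.mul_mem _ _ (h3 _) h1)

section
variable {A B : ℤ} {V : ValuationSubring ℂ}

lemma v_emb (hc : CQ A B) (V : ValuationSubring ℂ) (x : OO A B) : V.valuation (emb x) ≤ 1 :=
  (V.valuation_le_one_iff _).2 (emb_mem_V hc V x)

lemma v_two (hc : CQ A B) (hV : OverI V (idl (A := A) (B := B) 2)) :
    V.valuation (2 : ℂ) < 1 := by
  have h1 : emb ((2 : ℕ) : OO A B) ∈ V.nonunits := (hV _).2 (Ideal.mem_span_singleton_self _)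
  rw [_root_.Pool.Agent.MUX.emb_natCast hc] at h1
  exact_mod_cast V.mem_nonunits_iff.1 h1

/-- the elements of `2 O` are `≤ v 2` at `V` -/
lemma v_mem (hc : CQ A B) (V : ValuationSubring ℂ) {x : OO A B}
    (hx : x ∈ idl (A := A) (B := B) 2) : V.valuation (emb x) ≤ V.valuation (2 : ℂ) := by
  obtain ⟨y, rfl⟩ := Ideal.mem_span_singleton.1 hx
  rw [_root_.Pool.Agent.MUX.emb_mul hc, _root_.Pool.Agent.MUX.emb_natCast hc, map_mul]
  exact mul_le_of_le_one_right' (v_emb hc V y)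

lemma prime (hc : CQ A B) (hV : OverI V (idl (A := A) (B := B) 2)) :
    (idl (A := A) (B := B) 2).IsPrime := by
  refine ⟨?_, ?_⟩
  · rw [Ideal.ne_top_iff_one]
    intro h
    have h1 := V.mem_nonunits_iff.1 ((hV 1).2 h)
    rw [_root_.Pool.Agent.MUX.emb_one hc, map_one] at h1
    exact lt_irrefl _ h1
  · intro x y hxy
    have h1 := V.mem_nonunits_iff.1 ((hV _).2 hxy)
    rw [_root_.Pool.Agent.MUX.emb_mul hc, map_mul] at h1
    by_contra hcon
    push Not at hcon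
    have hx : V.valuation (emb x) = 1 := le_antisymm (v_emb hc V x)
      (not_lt.1 fun h => hcon.1 ((hV x).1 (V.mem_nonunits_iff.2 h)))
    have hy : V.valuation (emb y) = 1 := le_antisymm (v_emb hc V y)
      (not_lt.1 fun h => hcon.2 ((hV y).1 (V.mem_nonunits_iff.2 h)))
    rw [hx, hy, one_mul] at h1
    exact lt_irrefl _ h1

/-- `x ^ 3 ≡ 1` modulo `2` -/
lemma pow3 (hc : CQ A B) (hV : OverI V (idl (A := A) (B := B) 2)) {x : OO A B}
    (hx : x ∉ idl (A := A) (B := B) 2) : x ^ 3 - 1 ∈ idl (A := A) (B := B) 2 := by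
  classical
  have : (idl (A := A) (B := B) 2).IsPrime := prime hc hV
  have h3 : ((2 : ℕ) : OO A B) ≠ 0 := natCast_ne_zero' hc (by norm_num)
  have : Finite (OO A B ⧸ idl (A := A) (B := B) 2) := by
    refine finite_quot hc ?_
    rw [Ne, Ideal.span_singleton_eq_bot]
    exact h3
  have hcard : Nat.card (OO A B ⧸ idl (A := A) (B := B) 2) = 4 := by
    have h1 : nI (sp ((2 : ℕ) : OO A B)) = (nm ((2 : ℕ) : OO A B)).natAbs := nI_sp hc h3
    have h2 : nm ((2 : ℕ) : OO A B) = 4 := by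
      have := nm_intCast (A := A) (B := B) 2
      push_cast at this ⊢
      rw [this]
    rw [h2] at h1
    exact h1
  let _ : Fintype (OO A B ⧸ idl (A := A) (B := B) 2) := Fintype.ofFinite _
  let _ : Field (OO A B ⧸ idl (A := A) (B := B) 2) := Fintype.fieldOfDomain _
  have hne : Ideal.Quotient.mk (idl (A := A) (B := B) 2) x ≠ 0 := by
    rw [Ne, Ideal.Quotient.eq_zero_iff_mem]
    exact hx
  have h1 := FiniteField.pow_card_sub_one_eq_one (Ideal.Quotient.mk (idl (A := A) (B := B) 2) x) hne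
  rw [← Nat.card_eq_fintype_card, hcard] at h1
  have h2 : Ideal.Quotient.mk (idl (A := A) (B := B) 2) (x ^ 3 - 1) = 0 := by
    rw [map_sub, map_pow, map_one, sub_eq_zero]
    exact h1
  exact Ideal.Quotient.eq_zero_iff_mem.1 h2

lemma exists_eta (hc : CQ A B) (hV : OverI V (idl (A := A) (B := B) 2)) {x : OO A B}
    (hx : x ∉ idl (A := A) (B := B) 2) :
    ∃ η : ℂ, η ^ 3 = 1 ∧ V.valuation (η - emb x) ≤ V.valuation (2 : ℂ) := by
  refine exists_root (v_two hc hV) ?_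
  have h1 := v_mem hc V (pow3 hc hV hx)
  rwa [_root_.Pool.Agent.MUX.emb_sub hc, emb_pow hc, _root_.Pool.Agent.MUX.emb_one hc] at h1

end

end TE2

open _root_.Pool.Agent.N2I.TE2 in
/-- (TE2) existence of the Teichmueller character -/
theorem tt_TE2 : St_TE2 := by
  classical
  intro A B V hC hV
  have hc : CQ A B := hC.toCQ
  have v2 := v_two hc hV
  have hP : (idl (A := A) (B := B) 2).IsPrime := prime hc hV
  choose η hη3 hηv using fun (x : OO A B) (hx : x ∉ idl (A := A) (B := B) 2) => exists_eta hc hV hx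
  have key : ∀ (x : OO A B) (hx : x ∉ idl (A := A) (B := B) 2) (ξ : ℂ), ξ ^ 3 = 1 →
      V.valuation (ξ - emb x) < 1 → η x hx = ξ := by
    intro x hx ξ hξ hv
    refine root_eq v2 (hη3 x hx) hξ ?_
    have e1 : η x hx - ξ = (η x hx - emb x) - (ξ - emb x) := by ring
    rw [e1]
    exact lt_of_le_of_lt (V.valuation.map_sub _ _) (max_lt (lt_of_le_of_lt (hηv x hx) v2) hv)
  refine ⟨fun x => if hx : x ∈ idl (A := A) (B := B) 2 then 0 else η x hx, ?_, ?_, ?_, ?_, ?_, ?_⟩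
  · have h1 : (1 : OO A B) ∉ idl (A := A) (B := B) 2 := (Ideal.ne_top_iff_one _).1 hP.ne_top
    rw [dif_neg h1]
    refine key 1 h1 1 (one_pow 3) ?_
    rw [_root_.Pool.Agent.MUX.emb_one hc, sub_self, map_zero]
    exact zero_lt_one
  · intro x y
    by_cases hx : x ∈ idl (A := A) (B := B) 2
    · rw [dif_pos hx, dif_pos (Ideal.mul_mem_right y _ hx), zero_mul]
    · by_cases hy : y ∈ idl (A := A) (B := B) 2
      · rw [dif_pos hy, dif_pos (Ideal.mul_mem_left _ x hy), mul_zero]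
      · have hxy : x * y ∉ idl (A := A) (B := B) 2 := fun h => (hP.mem_or_mem h).elim hx hy
        rw [dif_neg hx, dif_neg hy, dif_neg hxy]
        refine key (x * y) hxy _ (by rw [mul_pow, hη3, hη3, one_mul]) ?_
        have e1 : η x hx * η y hy - emb (x * y) =
            η x hx * (η y hy - emb y) + emb y * (η x hx - emb x) := by
          rw [_root_.Pool.Agent.MUX.emb_mul hc]
          ring
        rw [e1]
        refine lt_of_le_of_lt (V.valuation.map_add _ _) (max_lt ?_ ?_)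
        · rw [map_mul, v_root (hη3 x hx), one_mul]
          exact lt_of_le_of_lt (hηv y hy) v2
        · rw [map_mul]
          exact lt_of_le_of_lt (mul_le_of_le_one_left' (v_emb hc V y))
            (lt_of_le_of_lt (hηv x hx) v2)
  · intro x y hxy
    by_cases hx : x ∈ idl (A := A) (B := B) 2
    · have hy : y ∈ idl (A := A) (B := B) 2 := by
        have h := Ideal.sub_mem _ hx hxy
        rwa [sub_sub_cancel] at h
      rw [dif_pos hx, dif_pos hy]
    · have hy : y ∉ idl (A := A) (B := B) 2 := by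
        intro h
        apply hx
        have h := Ideal.add_mem _ hxy h
        rwa [sub_add_cancel] at h
      rw [dif_neg hx, dif_neg hy]
      refine key x hx _ (hη3 y hy) ?_
      have e1 : η y hy - emb x = (η y hy - emb y) - emb (x - y) := by
        rw [_root_.Pool.Agent.MUX.emb_sub hc]
        ring
      rw [e1]
      exact lt_of_le_of_lt (V.valuation.map_sub _ _)
        (max_lt (lt_of_le_of_lt (hηv y hy) v2) (lt_of_le_of_lt (v_mem hc V hxy) v2))
  · intro x hx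
    rw [dif_pos hx]
  · intro x hx
    rw [dif_neg hx]
    exact hη3 x hx
  · intro x
    by_cases hx : x ∈ idl (A := A) (B := B) 2
    · rw [dif_pos hx, zero_sub, Valuation.map_neg]
      exact v_mem hc V hx
    · rw [dif_neg hx]
      exact hηv x hx

end

end Pool.Agent.N2I


end

section

/-!
# ME2, `D = -3`, `p = 2`, block I: CYC (helper34; model `N2/I_CYC.lean` of helper45)
-/

set_option autoImplicit false

namespace Pool.Agent.ME2I

open _root_.MU3 _root_.Pool.Agent.MU3 _root_.Pool.Agent.MU3A _root_.Pool.Agent.MU3B _root_.Pool.Agent.RI _root_.Pool.Agent.RID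
  _root_.Pool.Agent.MUX _root_.Pool.Agent.MUXK _root_.Pool.Agent.MUXI _root_.Pool.Agent.NSI
open _root_.Pool.Agent.ME hiding ActE
open _root_.Pool.Agent.ME2 (SetT3 TT2E InCycE)
open _root_.Pool.Agent.N2 (GoodT OddT IsTei2)
open _root_.Pool.Agent.MU3I (w3 zt)

noncomputable section

theorem tt3_CYC (h1 : Pool.Agent.MUXI.Si_LAY) : St3_CYC := by
  intro A B f K hK n Bn hBn σ _ hRF hz y hy
  set S : Subfield ℂ := RingHom.eqLocusField (σ : ℂ →+* ℂ) (RingHom.id ℂ) with hS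
  have hmem : ∀ x : ℂ, x ∈ S ↔ σ x = x := fun x => Iff.rfl
  have halg : ∀ x : ℚ, algebraMap ℚ ℂ x ∈ S := by
    intro x
    rw [hmem]
    simp
  set F : IntermediateField ℚ ℂ := S.toIntermediateField halg with hF
  have hmemF : ∀ x : ℂ, x ∈ F ↔ σ x = x := fun x => Iff.rfl
  have hKF : K ≤ F := by
    intro x hx
    rw [hmemF]
    exact hRF x (hK x hx)
  have hBF : Bn ≤ F := by
    rw [h1 2 n (Or.inl rfl) Bn hBn, IntermediateField.adjoin_le_iff, Set.singleton_subset_iff]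
    have hM : q0 2 * 2 ^ n = 2 ^ (n + 2) := by
      have : q0 2 = 4 := by simp [q0]
      rw [this]; ring
    have hzt : (zt (q0 2 * 2 ^ n)) ^ (2 ^ (n + 2)) = 1 := by
      rw [hM]
      unfold zt
      rw [← Complex.exp_nat_mul, Complex.exp_eq_one_iff]
      refine ⟨1, ?_⟩
      push_cast
      field_simp
    have h2 : σ (zt (q0 2 * 2 ^ n)) = zt (q0 2 * 2 ^ n) := hz _ hzt
    refine (hmemF _).2 ?_
    rw [map_add, map_inv₀, h2]
  have hsup : K ⊔ Bn ≤ F := sup_le hKF hBF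
  exact (hmemF y).1 (hsup hy)

end

end Pool.Agent.ME2I


end

section

/-!
# ME2, `D = -3`, `p = 2`, block I: the characters (helper34; models `N2/I_TE2.lean`, `N2/I_KAP.lean`, `N2/I_EPT.lean`)

`κ` is the character of `(O/√-3)^*` of order two, `w2` the Teichmueller character of `(O/2)^*`; `κ(z) w2(z) = z` for the units `z`.
-/

set_option autoImplicit false

namespace Pool.Agent.ME2I

open _root_.MU3 _root_.Pool.Agent.MU3 _root_.Pool.Agent.MU3A _root_.Pool.Agent.MU3B _root_.Pool.Agent.RI _root_.Pool.Agent.RID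
  _root_.Pool.Agent.MUX _root_.Pool.Agent.MUXK _root_.Pool.Agent.MUXI _root_.Pool.Agent.NSI
open _root_.Pool.Agent.ME hiding ActE
open _root_.Pool.Agent.ME2 (SetT3 TT2E InCycE)
open _root_.Pool.Agent.N2 (GoodT OddT IsTei2)
open _root_.Pool.Agent.MU3I (w3 zt)

noncomputable section

open _root_.Pool.Agent.N2I.TE2 in
/-- (TE2) existence of the Teichmueller character -/
theorem tt3_TE2 : St3_TE2 := by
  classical
  intro A B V hC hV
  have hc : CQ A B := hC.toCQ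
  have v2 := v_two hc hV
  have hP : (idl (A := A) (B := B) 2).IsPrime := prime hc hV
  choose η hη3 hηv using fun (x : OO A B) (hx : x ∉ idl (A := A) (B := B) 2) => exists_eta hc hV hx
  have key : ∀ (x : OO A B) (hx : x ∉ idl (A := A) (B := B) 2) (ξ : ℂ), ξ ^ 3 = 1 →
      V.valuation (ξ - emb x) < 1 → η x hx = ξ := by
    intro x hx ξ hξ hv
    refine root_eq v2 (hη3 x hx) hξ ?_
    have e1 : η x hx - ξ = (η x hx - emb x) - (ξ - emb x) := by ring
    rw [e1]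
    exact lt_of_le_of_lt (V.valuation.map_sub _ _) (max_lt (lt_of_le_of_lt (hηv x hx) v2) hv)
  refine ⟨fun x => if hx : x ∈ idl (A := A) (B := B) 2 then 0 else η x hx, ?_, ?_, ?_, ?_, ?_, ?_⟩
  · have h1 : (1 : OO A B) ∉ idl (A := A) (B := B) 2 := (Ideal.ne_top_iff_one _).1 hP.ne_top
    rw [dif_neg h1]
    refine key 1 h1 1 (one_pow 3) ?_
    rw [_root_.Pool.Agent.MUX.emb_one hc, sub_self, map_zero]
    exact zero_lt_one
  · intro x y
    by_cases hx : x ∈ idl (A := A) (B := B) 2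
    · rw [dif_pos hx, dif_pos (Ideal.mul_mem_right y _ hx), zero_mul]
    · by_cases hy : y ∈ idl (A := A) (B := B) 2
      · rw [dif_pos hy, dif_pos (Ideal.mul_mem_left _ x hy), mul_zero]
      · have hxy : x * y ∉ idl (A := A) (B := B) 2 := fun h => (hP.mem_or_mem h).elim hx hy
        rw [dif_neg hx, dif_neg hy, dif_neg hxy]
        refine key (x * y) hxy _ (by rw [mul_pow, hη3, hη3, one_mul]) ?_
        have e1 : η x hx * η y hy - emb (x * y) =
            η x hx * (η y hy - emb y) + emb y * (η x hx - emb x) := by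
          rw [_root_.Pool.Agent.MUX.emb_mul hc]
          ring
        rw [e1]
        refine lt_of_le_of_lt (V.valuation.map_add _ _) (max_lt ?_ ?_)
        · rw [map_mul, v_root (hη3 x hx), one_mul]
          exact lt_of_le_of_lt (hηv y hy) v2
        · rw [map_mul]
          exact lt_of_le_of_lt (mul_le_of_le_one_left' (v_emb hc V y))
            (lt_of_le_of_lt (hηv x hx) v2)
  · intro x y hxy
    by_cases hx : x ∈ idl (A := A) (B := B) 2
    · have hy : y ∈ idl (A := A) (B := B) 2 := by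
        have h := Ideal.sub_mem _ hx hxy
        rwa [sub_sub_cancel] at h
      rw [dif_pos hx, dif_pos hy]
    · have hy : y ∉ idl (A := A) (B := B) 2 := by
        intro h
        apply hx
        have h := Ideal.add_mem _ hxy h
        rwa [sub_add_cancel] at h
      rw [dif_neg hx, dif_neg hy]
      refine key x hx _ (hη3 y hy) ?_
      have e1 : η y hy - emb x = (η y hy - emb y) - emb (x - y) := by
        rw [_root_.Pool.Agent.MUX.emb_sub hc]
        ring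
      rw [e1]
      exact lt_of_le_of_lt (V.valuation.map_sub _ _)
        (max_lt (lt_of_le_of_lt (hηv y hy) v2) (lt_of_le_of_lt (v_mem hc V hxy) v2))
  · intro x hx
    rw [dif_pos hx]
  · intro x hx
    rw [dif_neg hx]
    exact hη3 x hx
  · intro x
    by_cases hx : x ∈ idl (A := A) (B := B) 2
    · rw [dif_pos hx, zero_sub, Valuation.map_neg]
      exact v_mem hc V hx
    · rw [dif_neg hx]
      exact hηv x hx


/-- KAP. -/
theorem tt3_KAP : St3_KAP := by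
  intro A B hC hB
  subst hB
  have hA := hC.hA
  subst hA
  have habs : (absD (-1) 1).toNat = 3 := rfl
  -- the homomorphism `w ↦ -1`
  let φ : OO (-1) 1 → ZMod 3 := fun x => (x.re : ZMod 3) - (x.im : ZMod 3)
  have φmul : ∀ x y, φ (x * y) = φ x * φ y := by
    intro x y
    simp only [φ, QuadraticAlgebra.re_mul, QuadraticAlgebra.im_mul]
    push_cast
    have h3 : (3 : ZMod 3) = 0 := rfl
    linear_combination (-(x.im : ZMod 3) * (y.im : ZMod 3)) * h3
  have r1 : (1 : OO (-1) 1).re = 1 := rfl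
  have i1 : (1 : OO (-1) 1).im = 0 := rfl
  have φone : φ 1 = 1 := by
    simp only [φ, r1, i1]; push_cast; ring
  have φneg : φ (-1) = -1 := by
    simp only [φ, QuadraticAlgebra.re_neg, QuadraticAlgebra.im_neg, r1, i1]; push_cast; ring
  have φsub : ∀ x y, φ (x - y) = φ x - φ y := by
    intro x y
    simp only [φ, QuadraticAlgebra.re_sub, QuadraticAlgebra.im_sub]
    push_cast; ring
  have φadd : ∀ x y, φ (x + y) = φ x + φ y := by
    intro x y
    simp only [φ, QuadraticAlgebra.re_add, QuadraticAlgebra.im_add]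
    push_cast; ring
  have φD : ∀ x, x ∈ idl (A := -1) (B := 1) 3 → φ x = 0 := by
    intro x hx
    obtain ⟨c, rfl⟩ := Ideal.mem_span_singleton'.1 hx
    rw [φmul]
    have h1 : φ ((3 : ℕ) : OO (-1) 1) = 0 := by
      have h2 : (((3 : ℕ) : OO (-1) 1)).re = 3 := rfl
      have h3 : (((3 : ℕ) : OO (-1) 1)).im = 0 := rfl
      simp only [φ, h2, h3]
      rfl
    rw [h1, mul_zero]
  refine ⟨fun x => quadraticChar (ZMod 3) (φ x), ⟨?_, ?_, ?_, ?_, ?_⟩⟩
  · simp only [φone, map_one]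
  · intro x y; simp only [φmul, map_mul]
  · simp only [φneg]
    rw [quadraticChar_neg_one (by rw [ZMod.ringChar_zmod_n]; norm_num), ZMod.card]
    exact ZMod.χ₄_nat_three_mod_four (by norm_num)
  · intro x y hxy
    rw [habs] at hxy
    have h1 := φD _ hxy
    rw [φsub, sub_eq_zero] at h1
    simp only [h1]
  · intro x hx
    rw [habs] at hx
    have h1 : φ x ≠ 0 := by
      intro h0
      obtain ⟨a, ha, b, hb, hab⟩ := Ideal.isCoprime_iff_exists.1 hx
      obtain ⟨c, rfl⟩ := Ideal.mem_span_singleton'.1 ha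
      have h2 : φ (c * x + b) = 1 := by rw [hab, φone]
      rw [φadd, φmul, h0, mul_zero, zero_add, φD b hb] at h2
      exact zero_ne_one h2
    exact quadraticChar_dichotomy h1

/-- the third power of a unit -/
lemma unit_cube {A B : ℤ} (hC : CaseE A B) (hB : B = 1) {z : OO A B} (hz : IsUnit z) :
    z ^ 3 = 1 ∨ z ^ 3 = -1 := by
  have hA := hC.hA
  subst hA
  subst hB
  have hCQ : MUX.CQ (-1) 1 := hC.toCQ
  obtain ⟨y, hy⟩ := hz.exists_right_inv
  have h1 : nm z * nm y = 1 := by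
    rw [← nm_mul hCQ, hy]
    rfl
  have h2 : nm z = z.re * z.re + z.re * z.im + z.im * z.im := by
    unfold nm
    ring
  have h3 : nm z = 1 := by
    have h4 : 0 ≤ nm z := by
      rw [h2]
      nlinarith [mul_self_nonneg (z.re + z.im), mul_self_nonneg z.re, mul_self_nonneg z.im]
    exact Int.eq_one_of_mul_eq_one_right h4 h1
  rw [h2] at h3
  have h5 : z.re ≤ 1 := by nlinarith [mul_self_nonneg (z.re + 2 * z.im)]
  have h6 : -1 ≤ z.re := by nlinarith [mul_self_nonneg (z.re + 2 * z.im)]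
  have h7 : z.im ≤ 1 := by nlinarith [mul_self_nonneg (z.im + 2 * z.re)]
  have h8 : -1 ≤ z.im := by nlinarith [mul_self_nonneg (z.im + 2 * z.re)]
  have e : ∀ a b : ℤ, z.re = a → z.im = b → z = ⟨a, b⟩ := fun a b h h' =>
    QuadraticAlgebra.ext h h'
  have h9 : z.re = -1 ∨ z.re = 0 ∨ z.re = 1 := by omega
  have h10 : z.im = -1 ∨ z.im = 0 ∨ z.im = 1 := by omega
  rcases h9 with h9 | h9 | h9 <;> rcases h10 with h10 | h10 | h10 <;> rw [h9, h10] at h3 <;>
    first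
    | (exfalso; revert h3; decide)
    | (rw [e _ _ h9 h10]; exact Or.inl rfl)
    | (rw [e _ _ h9 h10]; exact Or.inr rfl)

/-- `κ(z) w2(z) = z` for the units -/
lemma unit_om {A B : ℤ} {V : ValuationSubring ℂ} (hC : CaseE A B) (hB : B = 1)
    (hV : OverI V (idl (A := A) (B := B) 2)) {κ : OO A B → ℤ} (hκ : Pool.Agent.MUX2.KapD A B κ)
    {w : OO A B → ℂ} (hw : IsTei2 V w) {z : OO A B} (hz : IsUnit z) :
    (κ z : ℂ) * w z = emb z := by
  have hCQ : MUX.CQ A B := hC.toCQ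
  have v2 := Pool.Agent.N2I.TE2.v_two hCQ hV
  have hP := Pool.Agent.N2I.TE2.prime hCQ hV
  have hz2 : z ∉ idl (A := A) (B := B) 2 := fun h => hP.ne_top (Ideal.eq_top_of_isUnit_mem _ h hz)
  have hk : κ z = 1 ∨ κ z = -1 := by
    refine hκ.unit z ?_
    have : sp z = ⊤ := Ideal.span_singleton_eq_top.2 hz
    rw [this, ← Ideal.one_eq_top]
    exact isCoprime_one_left
  have hk2 : κ z * κ z = 1 := by
    rcases hk with h | h <;> rw [h] <;> norm_num
  have hk3 : κ (z ^ 3) = κ z := by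
    rw [pow_succ, pow_two, hκ.mul, hκ.mul, hk2, one_mul]
  have h3 : ((κ z : ℂ) * emb z) ^ 3 = 1 := by
    have e1 : ((κ z : ℂ) * emb z) ^ 3 = ((κ z * κ z : ℤ) : ℂ) * ((κ z : ℂ) * emb (z ^ 3)) := by
      rw [emb_pow hCQ]
      push_cast
      ring
    rw [e1, hk2]
    rcases unit_cube hC hB hz with h | h
    · rw [h] at hk3
      rw [← hk3, hκ.one, h, _root_.Pool.Agent.MUX.emb_one hCQ]
      norm_num
    · rw [h] at hk3
      rw [← hk3, hκ.neg, h]
      have : emb (-1 : OO A B) = -1 := by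
        rw [_root_.Pool.Agent.MUX.emb_neg hCQ, _root_.Pool.Agent.MUX.emb_one hCQ]
      rw [this]
      norm_num
  have hv : V.valuation (w z - (κ z : ℂ) * emb z) < 1 := by
    have hc := lt_of_le_of_lt (hw.cong z) v2
    rcases hk with h | h
    · rw [h]
      push_cast
      rw [one_mul]
      exact hc
    · rw [h]
      have e2 : w z - ((-1 : ℤ) : ℂ) * emb z = (w z - emb z) + 2 * emb z := by
        push_cast
        ring
      rw [e2]
      refine lt_of_le_of_lt (V.valuation.map_add _ _) (max_lt hc ?_)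
      rw [map_mul]
      exact lt_of_le_of_lt (mul_le_of_le_one_right' (Pool.Agent.N2I.TE2.v_emb hCQ V z)) v2
  have h4 := Pool.Agent.N2I.TE2.root_eq v2 (hw.pow z hz2) h3 hv
  rw [h4, ← mul_assoc]
  have e3 : (κ z : ℂ) * (κ z : ℂ) = 1 := by exact_mod_cast hk2
  rw [e3, one_mul]

open _root_.Pool.Agent.N2I.EPT in
theorem tt3_EPT (h1 : St3_KAP) (h2 : St3_TE2) : St3_EPT := by
  intro A B V f hS e0 r hr one neg mul per supp pow uni
  obtain ⟨κ, hκ⟩ := h1 A B hS.case hS.hB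
  obtain ⟨w, hw⟩ := h2 A B V hS.case hS.hV
  have habs : 0 < absD A B := by
    have := hS.case.toCQ.neg
    unfold absD
    omega
  have hDf : (absD A B).toNat ∣ f := by
    have h4 : absD A B ∣ (f : ℤ) := (dvd_mul_left _ 3).trans hS.fD
    rw [← Int.toNat_of_nonneg habs.le] at h4
    exact_mod_cast h4
  have hD2 : (absD A B).toNat ∣ 2 * f := hDf.trans (dvd_mul_left f 2)
  have hκneg : ∀ x, κ (-x) = -κ x := by
    intro x
    rw [← neg_one_mul, hκ.mul, hκ.neg, neg_one_mul]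
  have hwneg : ∀ x, w (-x) = w x := by
    intro x
    apply hw.per
    rw [Pool.Agent.MUX2.idl_mem]
    exact ⟨-x, by push_cast; ring⟩
  have hn2 : ∀ x, IsCoprime x ((2 * f : ℕ) : OO A B) → x ∉ idl (A := A) (B := B) 2 := by
    intro x hx hx2
    have hc : IsCoprime x ((2 : ℕ) : OO A B) := cop_dvd ⟨f, rfl⟩ hx
    obtain ⟨a, b, hab⟩ := hc
    have h5 : (1 : OO A B) ∈ idl (A := A) (B := B) 2 := by
      rw [← hab]
      exact add_mem (Ideal.mul_mem_left _ a hx2)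
        (Ideal.mul_mem_left _ b (Ideal.mem_span_singleton_self _))
    have h6 := (hS.hV 1).2 h5
    have h7 : emb (1 : OO A B) = 1 := by
      exact _root_.Pool.Agent.MUX.emb_one hS.case.toCQ
    rw [h7, ValuationSubring.mem_nonunits_iff, map_one] at h6
    exact lt_irrefl _ h6
  have hκu : ∀ x, IsCoprime x ((2 * f : ℕ) : OO A B) → κ x = 1 ∨ κ x = -1 := by
    intro x hx
    exact hκ.unit x (cop_iff.2 (cop_dvd hD2 hx))
  have hodd : OddT f V (fun x => (κ x : ℂ) * w x) := by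
    refine ⟨?_, ?_, ?_⟩
    · intro x
      show (κ (-x) : ℂ) * w (-x) = -((κ x : ℂ) * w x)
      rw [hκneg, hwneg]
      push_cast
      ring
    · intro x y h
      show (κ x : ℂ) * w x = (κ y : ℂ) * w y
      rw [hκ.per x y (idl_le hD2 h), hw.per x y (idl_le ⟨f, rfl⟩ h)]
    · intro x hx
      show V.valuation ((κ x : ℂ) * w x - emb x) ≤ V.valuation (2 : ℂ)
      rcases hκu x hx with h | h
      · rw [h]
        have e : ((1 : ℤ) : ℂ) * w x - emb x = w x - emb x := by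
          push_cast
          ring
        rw [e]
        exact hw.cong x
      · rw [h]
        have e : ((-1 : ℤ) : ℂ) * w x - emb x = (w x - emb x) - 2 * w x := by
          push_cast
          ring
        rw [e]
        refine (Valuation.map_sub V.valuation _ _).trans (max_le (hw.cong x) ?_)
        rw [map_mul]
        have h9 := hw.pow x (hn2 x hx)
        have h4 : V.valuation (w x) ^ 3 = 1 := by
          rw [← map_pow, h9, map_one]
        have h5 : V.valuation (w x) ≤ 1 := by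
          by_contra h6
          push Not at h6
          exact absurd h4 (one_lt_pow₀ h6 (by norm_num)).ne'
        exact mul_le_of_le_one_right' h5
  have per2f := per2 hr one mul per supp pow
  refine ⟨fun x => (κ x : ℂ) * w x, fun x => e0 x * ((κ x : ℂ) * w x), hodd,
    ⟨⟨?_, ?_, ?_, ?_, ?_⟩, ?_⟩, ?_, ?_⟩
  · show e0 1 * ((κ 1 : ℂ) * w 1) = 1
    rw [one, hκ.one, hw.one]
    norm_num
  · intro x y
    show e0 (x * y) * ((κ (x * y) : ℂ) * w (x * y)) =
      (e0 x * ((κ x : ℂ) * w x)) * (e0 y * ((κ y : ℂ) * w y))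
    rw [mul, hκ.mul, hw.mul]
    push_cast
    ring
  · intro x y h
    show e0 x * ((κ x : ℂ) * w x) = e0 y * ((κ y : ℂ) * w y)
    rw [per2f x y h, hκ.per x y (idl_le hD2 h), hw.per x y (idl_le ⟨f, rfl⟩ h)]
  · intro x
    rw [cop_iff]
    constructor
    · intro h
      exact cop4.1 ((supp x).1 (left_ne_zero_of_mul h))
    · intro hx
      refine mul_ne_zero ((supp x).2 (cop4.2 hx)) (mul_ne_zero ?_ ?_)
      · rcases hκu x hx with h | h
        · rw [h]; norm_num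
        · rw [h]; norm_num
      · intro h0
        have h3 := hw.pow x (hn2 x hx)
        rw [h0] at h3
        norm_num at h3
  · show e0 (-1) * ((κ (-1) : ℂ) * w (-1)) = -1
    rw [neg, hκ.neg, hwneg, hw.one]
    norm_num
  · intro z hz
    show e0 z * ((κ z : ℂ) * w z) = emb z
    rw [uni z hz, one_mul]
    exact unit_om hS.case hS.hB hS.hV hκ hw hz
  · intro x hx
    have h0 : e0 x ≠ 0 := left_ne_zero_of_mul hx
    have hc : IsCoprime x ((2 * f : ℕ) : OO A B) := cop4.1 ((supp x).1 h0)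
    show (e0 x * ((κ x : ℂ) * w x)) ^ (2 * (3 * r)) = 1
    have e1 : e0 x ^ (2 * (3 * r)) = 1 := by
      rw [show 2 * (3 * r) = r * 6 by ring, pow_mul, pow x h0, one_pow]
    have e2 : (κ x : ℂ) ^ (2 * (3 * r)) = 1 := by
      have h3 : (κ x : ℂ) ^ 2 = 1 := by
        rcases hκu x hc with h | h
        · rw [h]; norm_num
        · rw [h]; norm_num
      rw [pow_mul, h3, one_pow]
    have e3 : w x ^ (2 * (3 * r)) = 1 := by
      rw [show 2 * (3 * r) = 3 * (2 * r) by ring, pow_mul, hw.pow x (hn2 x hc), one_pow]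
    rw [mul_pow, mul_pow, e1, e2, e3]
    norm_num
  · intro x _
    rfl

end

end Pool.Agent.ME2I


end

section

/-!
# MUX-2N, block I2N, module INPG (helper36): the inputs of block J, `2` inert

Model: `Pool/Agent/MUX/Z_INP.lean` (helper3).
-/

set_option autoImplicit false

open NumberField IsDedekindDomain

namespace Pool.Agent.N2I

open _root_.MU3 _root_.Pool.Agent.MU3 _root_.Pool.Agent.MU3A _root_.Pool.Agent.MU3B _root_.Pool.Agent.RI _root_.Pool.Agent.RID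
  _root_.Pool.Agent.MUX _root_.Pool.Agent.MUXK _root_.Pool.Agent.MUXJ _root_.Pool.Agent.MUXW _root_.Pool.Agent.MUXZ _root_.Pool.Agent.NSI
  _root_.Pool.Agent.NSZ _root_.Pool.Agent.N2
open _root_.Pool.Agent.MU3V (Sub GD)

noncomputable section

/-- the input of block I2N for the norm to any field `D ≤ RF (lvX 2 f n)` -/
theorem eInpT (hME : Sy_MEM) (hCX : Sy_CXS) (hEF : S2_EFIN)
    {A B : ℤ} {V : ValuationSubring ℂ} {f : ℕ}
    (hS : SetT A B V f) (hT : TorX A B) (hLV : Zl_LVX)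
    {ι : Type} [Fintype ι] (R : Reps A B (2 * f) ι) {u e a1 a3 : ℂ}
    (hG : GoodT V (R.L R.i0) u e a1 a3) {H : ι → Finset ℂ}
    {θ : ∀ n : ℕ, (RF (idl (A := A) (B := B) (lvX 2 f n)) : IntermediateField (kk A B) ℂ)}
    (hth : ThN 2 f R H θ) (n : ℕ) (hn : 2 ≤ n) (D : IntermediateField ℚ ℂ) (h : kk A B ≤ D)
    (hD : ∀ y ∈ D, y ∈ RF (idl (A := A) (B := B) (lvX 2 f n)))
    (hDc : InCyc A B f (2 ^ (n + 2)) D) :
    EInpT V f R u n h (fun τ => cWt h (θ n) τ) := by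
  obtain ⟨hl0, _, _, hl2, hlu, hodd, hac, _, _, hcop⟩ := hLV 2 A B f (setL_T hS) n
  have hb : (idl (A := A) (B := B) (lvX 2 f n)) ≠ ⊥ := by
    intro hh
    apply hl0
    have := (Ideal.span_singleton_eq_bot.mp hh)
    exact_mod_cast (by
      have h1 := congrArg (fun x : OO A B => x.re) this
      simpa using h1 : ((lvX 2 f n : ℕ) : ℤ) = 0)
  have := hT.fin _ hb
  have := hT.gal _ hb
  obtain ⟨h1, h2, h3, _, _⟩ := hME A B _ (hT.fin _ hb) (hT.gal _ hb) (hT.comm _ hb) D h hD (θ n)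
    (hth.ne n)
  let := algC h
  have hconj : ∀ τ : D ≃ₐ[kk A B] D, ∃ y : D, (y : ℂ) = cWt h (θ n) 1 ∧
      ((τ y : D) : ℂ) = cWt h (θ n) τ := by
    intro τ
    refine ⟨⟨cWt h (θ n) 1, (h2 1).1⟩, rfl, ?_⟩
    have hm : cW h (θ n) ∈ D := by rw [h1]; exact (h2 1).1
    have := h3 τ hm
    have he : (⟨cWt h (θ n) 1, (h2 1).1⟩ : D) = ⟨cW h (θ n), hm⟩ := Subtype.ext h1.symm
    rw [he]; exact this
  refine ⟨(h2 1).2, hconj, ?_⟩
  intro om hom g hg τ'
  refine (hEF A B V f hS hT ι R u e a1 a3 hG om hom n hn H hth.half D h hD hDc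
    (fun τ => cWt h (θ n) τ) hconj ?_).2 g hg τ'
  intro τ
  obtain ⟨S, hS1, hS2, hS3⟩ := hCX A B hS.case.toCQ hT (2 * f) ι R (lvX 2 f n) hl0
    (fun i => hcop _ (R.cop i)) hl2 (aX 2 f) H (by unfold aX; omega) hac hth.half (θ n)
    (hth.pt n) D h hD τ
  exact ⟨S, ⟨fun q hq => (hS1 q).2 (Or.inl hq), fun q hq => (hS1 q).1 hq, hS2⟩, hS3⟩

/-- the inputs of block J -/
theorem tt_INPG (hRF : S2_RFIN) (hEF : S2_EFIN) (hINP : St_INP) (hCYC : St_CYC) (hLV : Zl_LVX)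
    (hIW : Zl_INW) (hSUB : Sn_SUB) (hTH : Sz_THN) (hME : Sy_MEM) (hCX : Sy_CXS)
    (hRX : MUXY.Sy_REX) : St_INPG := by
  intro A B V hC hV hT f hf0 hfp hfd K₀ K Bn _ _ _ hX hK hH hk hk₀ hkK
  have hCQ : CQ A B := hC.toCQ
  have hpos : 0 < absD A B := by
    have := hCQ.neg
    unfold absD
    omega
  have hS : SetT A B V f := by
    refine ⟨hC, hV, hf0, hfp, ?_⟩
    have h1 : ((3 * (absD A B).toNat : ℕ) : ℤ) ∣ (f : ℤ) := by exact_mod_cast hfd
    have h2 : ((3 * (absD A B).toNat : ℕ) : ℤ) = 3 * absD A B := by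
      push_cast
      rw [Int.toNat_of_nonneg hpos.le]
    rwa [h2] at h1
  have hL : SetL 2 A B f := setL_T hS
  have : Fact (Nat.Prime 2) := ⟨Nat.prime_two⟩
  have hB1 : B = 1 := by
    rcases hCQ.hB with h | h
    · have h2 := hC.two
      rw [h] at h2
      omega
    · exact h
  have hd3 : absD A B ≠ 3 := by
    intro h
    apply hC.exc
    refine ⟨hB1, ?_⟩
    unfold absD at h
    rw [hB1] at h
    omega
  have hd4 : absD A B ≠ 4 := by
    intro h
    unfold absD at h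
    rw [hB1] at h
    omega
  obtain ⟨ι, hι, ⟨R⟩⟩ := hRX A B hCQ hd3 hd4 (2 * f) (Nat.mul_ne_zero two_ne_zero hf0)
  have hodd := (hLV 2 A B f hL 0).2.2.2.2.2.1
  obtain ⟨H, hHalf, hθ⟩ := hTH A B hCQ hT (2 * f) ι R (aX 2 f) hodd
  have hθ' : ∀ n : ℕ, ∃ θ : (RF (idl (A := A) (B := B) (lvX 2 f n)) :
      IntermediateField (kk A B) ℂ),
      (θ : ℂ) = ThetaH (R.L R.i0) (H R.i0) (pt R (lvX 2 f n) R.i0 1) ∧
      (θ : ℂ) = ThetaH (R.L R.i0) (H R.i0) (R.om R.i0 / emb ((lvX 2 f n : ℕ) : OO A B)) ∧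
      θ ≠ 0 := fun n =>
    hθ (lvX 2 f n) (hLV 2 A B f hL n).1 (hLV 2 A B f hL n).2.2.2.2.1
      (hLV 2 A B f hL n).2.2.2.2.2.2.1
  choose θ hθ1 hθ2 hθ3 using hθ'
  have hth : ThN 2 f R H θ := ⟨hHalf, hθ1, hθ2, hθ3⟩
  obtain ⟨S, hW⟩ := hIW 2 A B f hL hT ι R H θ hth K₀ K Bn hX hK hH hk hk₀
  obtain ⟨u, e, a1, a3, hG, -, -⟩ := (hRF A B V hC hV hT).1 _ _ _ (R.nl R.i0)
  have hNL : ∃ (b : Ideal (OO A B)) (L : PeriodPair) (om : ℂ), IsNL b L om :=
    ⟨_, _, _, R.nl R.i0⟩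
  have hK₀ : ∀ y ∈ K₀, y ∈ RF (idl (A := A) (B := B) (lvX 2 f 0)) := fun y hy => hK y (hX.le hy)
  have hDn : ∀ n, ∀ y ∈ K₀ ⊔ Bn n, y ∈ RF (idl (A := A) (B := B) (lvX 2 f n)) := fun n =>
    hSUB 2 A B f hL hT hNL K₀ hK₀ n (Bn n) (hX.b0.lay n)
  refine ⟨S, fun n => cW (hk n) (θ n), fun n => cW (hk₀ n) (θ n), 0, ?_⟩
  refine hINP A B V f hS hT ι R u e a1 a3 hG K₀ K Bn hX hK₀ hk hk₀ hkK S _ _ 0 hW
    (fun n τ => cWt (hk₀ n) (θ n) τ) (fun n hn => ?_) (fun n hn => ?_)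
  · exact eInpT hME hCX hEF hS hT hLV R hG hth n hn (K₀ ⊔ Bn n) (hk₀ n) (hDn n)
      (hCYC A B f K₀ hK₀ n (Bn n) (hX.b0.lay n))
  · have hb : (idl (A := A) (B := B) (lvX 2 f n)) ≠ ⊥ := by
      intro hh
      apply (hLV 2 A B f hL n).1
      have := (Ideal.span_singleton_eq_bot.mp hh)
      exact_mod_cast (by
        have h1 := congrArg (fun x : OO A B => x.re) this
        simpa using h1 : ((lvX 2 f n : ℕ) : ℤ) = 0)
    exact (hME A B _ (hT.fin _ hb) (hT.gal _ hb) (hT.comm _ hb) _ (hk₀ n) (hDn n) (θ n)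
      (hth.ne n)).1

end

end Pool.Agent.N2I


end
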