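import Mathlib.NumberTheory.LSeries.PrimesInAP
import Mathlib.NumberTheory.LegendreSymbol.JacobiSymbol
import Pool.Agent.MVF.C047
import Pool.Agent.MVF.C071
import Pool.Agent.MVF.C109

/-! Parts: N2.StIR, ME2.StI4, N2.IR_LEM1Y, N2.IR_GALY, N2.IR_NR1Y, N2.IR_NRXY, N2.IR_ORDY, N2.KapR, N2.IR_INP -/

namespace Pool.Agent.N2IR
end Pool.Agent.N2IR

section

/-!
# MUX-2R, block IR (helper36): from blocks E, H to the input (I3) of block K, `2` ramified in `k`, `D ≠ -4`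

As `Pool/Agent/N2/StIT.lean` (2 inert). Every statement is a `def Sr_X : Prop`; a module proves `theorem tr_X (h : ..) ... : Sr_X`
in the file `Pool/Agent/N2/IR_X.lean`, namespace `Pool.Agent.N2IR`. The general statements of `NS/StIN.lean` and of `MUX/StIX.lean` are used as they are.
New: `K` may contain the first layer `B 1` (`BasY`, `SetY`, `DefsR2.lean`); the constants in the norm relations between the `c₀ n` are in `K₀ B 1`, fixed by `γ²`; so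
block E, H give the statement for the operator `γ² - 1` (`I3Q`), and `(γ² - 1)` of the norm of `c₀ n` to the level `m` is `(γ² - 1) c₀ m`. `γ² - 1 = (γ - 1)²` modulo squares.
-/

set_option autoImplicit false

namespace Pool.Agent.N2IR

open _root_.MU3 _root_.Pool.Agent.MU3 _root_.Pool.Agent.MU3A _root_.Pool.Agent.MU3B _root_.Pool.Agent.RI _root_.Pool.Agent.RID
  _root_.Pool.Agent.MUX _root_.Pool.Agent.MUXK _root_.Pool.Agent.MUXI _root_.Pool.Agent.NSI _root_.Pool.Agent.N2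
open _root_.Pool.Agent.MU3I (w3 zt)

noncomputable section

/-! ## Definitions -/

lemma setL_Q {A B : ℤ} {P : Ideal (OO A B)} {V : ValuationSubring ℂ} {f : ℕ}
    (h : SetQ A B P V f) : SetL 2 A B f :=
  ⟨h.case.toCQ, Or.inl rfl, h.f0, h.fp⟩

/-- the input from block E for one field `D` -/
structure EInpQ {A B : ℤ} (V : ValuationSubring ℂ) (f : ℕ) {ι : Type}
    (R : Reps A B (2 * f) ι) (u : ℂ) (n : ℕ) {D : IntermediateField ℚ ℂ} (h : kk A B ≤ D)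
    (C : (letI := algC h; D ≃ₐ[kk A B] D) → ℂ) : Prop where
  ne : C (letI := algC h; 1) ≠ 0
  conj : letI := algC h
    ∀ τ : D ≃ₐ[kk A B] D, ∃ y : D, (y : ℂ) = C 1 ∧ ((τ y : D) : ℂ) = C τ
  ew : letI := algC h
    ∀ om : OO A B → ℂ, OddQ f V om → ∀ g : (D ≃ₐ[kk A B] D) → ℤ,
      (∃ y ∈ D, y ^ 2 = ∏ᶠ τ : D ≃ₐ[kk A B] D, C τ ^ g τ) → ∀ τ' : D ≃ₐ[kk A B] D,
        V.valuation ((∑ᶠ τ : D ≃ₐ[kk A B] D, (g τ : ℂ) *
          TT2 R om (lvX 2 f n) (aX 2 f) h (τ * τ')) / u) ^ 4 ≤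
            V.valuation (2 : ℂ) ^ (2 * dR A + 3)

/-- the norm relation between the levels, constants in the first layer -/
def NrRelY (p : ℕ) (k K : IntermediateField ℚ ℂ) (B : ℕ → IntermediateField ℚ ℂ)
    (hk : ∀ n, k ≤ K ⊔ B n) (c₀ : ℕ → ℂ) (mem : ∀ n, c₀ n ∈ K ⊔ B n) (n₁ : ℕ) : Prop :=
  ∀ m n : ℕ, n₁ ≤ m → 1 ≤ m → m ≤ n →
    letI := algC (hk n)
    ∀ γ : ↥(K ⊔ B n) ≃ₐ[k] ↥(K ⊔ B n), (∀ x : ↥(K ⊔ B n), γ x = x ↔ (x : ℂ) ∈ K) →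
    ∃ C ∈ K ⊔ B 1, C ≠ 0 ∧ ((∏ i ∈ Finset.range (p ^ (n - m)),
      (γ ^ (p ^ m * i)) ⟨c₀ n, mem n⟩ : ↥(K ⊔ B n)) : ℂ) = C * c₀ m

/-- the statement of (I3) for the character `χ`, the operator `γ^p - 1` and one level `n` -/
def I3Q (F : Type) [Field F] (p : ℕ) (k K : IntermediateField ℚ ℂ)
    (B : ℕ → IntermediateField ℚ ℂ) (hkK : k ≤ K)
    (χ : (letI := algC hkK; (↥K ≃ₐ[k] ↥K) →* Fˣ)) (n : ℕ) (hk : k ≤ K ⊔ B n) (c : ℂ)
    (mem : c ∈ K ⊔ B n) : Prop :=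
  letI := algC hk
  letI := algC hkK
    ∀ γ : ↥(K ⊔ B n) ≃ₐ[k] ↥(K ⊔ B n), (∀ x : ↥(K ⊔ B n), γ x = x ↔ (x : ℂ) ∈ K) →
    ∀ [Fintype (NC hk (B n))] (r : NC hk (B n) → (↥K ≃ₐ[k] ↥K)),
    (∀ (δ : NC hk (B n)) (x : ↥K) (x' : ↥(K ⊔ B n)), (x' : ℂ) = x →
      (((δ : ↥(K ⊔ B n) ≃ₐ[k] ↥(K ⊔ B n)) x' : ↥(K ⊔ B n)) : ℂ) = (r δ x : ↥K)) →
    ∃ θ : F →+ ZMod p, ∀ y : ↥(K ⊔ B n), y ^ p ≠ ∏ δ : NC hk (B n),
      ((δ : ↥(K ⊔ B n) ≃ₐ[k] ↥(K ⊔ B n)) (Tg (γ ^ p) ⟨c, mem⟩)) ^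
        (θ ((χ (r δ))⁻¹ : Fˣ)).val

/-! ## Characters -/

/-- (EPQ) the weights and the odd character.

PROOF. `lvX 2 f 0 = 4 f`. `κ` from `SetQ.kap`, `om x = κ x`, `e x = e0 x * κ x` (as complex numbers). `OddQ`: `per`: `idl (2 * f) ≤ idl f`; `cong`: `x` prime to `2 f` is prime to `f`, `κ x = ± 1`, and `v(0)`, `v(-2)` satisfy `v² ≤ v 2` (`2 ∈ V`, i.e. `v 2 ≤ 1`: every integer is in `V`).
`IsEI`, `supp`: `x` is prime to `2 f` iff it is prime to `4 f`; then `κ x = ± 1`, `e0 x ≠ 0`; otherwise `e0 x = 0`. `neg`: `e0 (-1) = 1`. KEY: if `x`, `y` are prime to `2 f` and `x - y ∈ (f)` then `e0 x = e0 y` (this gives `cond`, and `per` modulo `2 f`). Proof: choose `y'` with `y y' ≡ 1` modulo `4 f`, `z = x y' ≡ 1` modulo `f`,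
`z` prime to `2`. `z = a + b w`, `w² = A` (`CaseR2.b0`), `nm z = a² - A b²` is odd (`z u + 2 v = 1` gives `nm z * nm u = nm (1 - 2 v)` odd). `z² = (a² + A b²) + 2 a b w`, so `z² ≡ 1` modulo `2` (`a² + A b² ≡ nm z` modulo `2`), `z^4 = (1 + 2 s)² ≡ 1` modulo `4`; `z^4 ≡ 1` modulo `f`, and `f` is odd, so `z^4 ≡ 1` modulo `4 f`:
`e0(z)^4 = 1`, `e0(z)^r = 1`, `r` odd, so `e0 z = 1`; `e0 x = e0 x e0 (y y') = e0 y e0 z = e0 y`. `e^(2 r) = 1`: `κ^2 = 1`, `e0^r = 1`. Model: `N2/I_EPT.lean`. -/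
def Sr_EPQ : Prop :=
  ∀ (A B : ℤ) (P : Ideal (OO A B)) (V : ValuationSubring ℂ) (f : ℕ) (_ : SetQ A B P V f)
    (e0 : OO A B → ℂ) (r : ℕ) (_ : ¬ 2 ∣ r)
    (_ : e0 1 = 1) (_ : e0 (-1) = 1) (_ : ∀ x y, e0 (x * y) = e0 x * e0 y)
    (_ : ∀ x y, x - y ∈ idl (A := A) (B := B) (lvX 2 f 0) → e0 x = e0 y)
    (_ : ∀ x, e0 x ≠ 0 ↔ IsCoprime x ((lvX 2 f 0 : ℕ) : OO A B))
    (_ : ∀ x, e0 x ≠ 0 → e0 x ^ r = 1),
    ∃ (om e : OO A B → ℂ), OddQ f V om ∧ OddF f e ∧ (∀ x, e x ≠ 0 → e x ^ (2 * r) = 1) ∧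
      ∀ x, IsCoprime x ((lvX 2 f 0 : ℕ) : OO A B) → e0 x * om x = e x

/-! ## Fields: degrees counted from the first layer -/

/-- (GALY) `K B_n / k` is Galois with abelian group.

PROOF. `Pool/Agent/MUX/K_GALX.lean` (`t_GALX`), which uses only `gal`, `ab` and `IsLayer p n (B n)`. -/
def Sr_GALY : Prop := ∀ (p : ℕ) [Fact p.Prime] (k K : IntermediateField ℚ ℂ)
    (B : ℕ → IntermediateField ℚ ℂ)
    [FiniteDimensional ℚ K] [∀ n, FiniteDimensional ℚ ↥(K ⊔ B n)], BasY p k K B →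
    ∀ (n : ℕ) (h : k ≤ K ⊔ B n), letI := algC h
    IsGalois k ↥(K ⊔ B n) ∧ ∀ σ τ : ↥(K ⊔ B n) ≃ₐ[k] ↥(K ⊔ B n), σ * τ = τ * σ

/-- (ORDY) the automorphisms of `K B_(n+1)` with fixed field `K B_n`, `n ≥ 1`.

USES GALY. PROOF. `NC h (K ⊔ B n) ⊆ Gal(K_(n+1)/k)` has order `p` (`Pool.Agent.MUXK.K_NR1.card_NC` and `BasY.deg` for `n`, `n - 1`). (1) `σ ≠ 1` in a group of order `p` generates it, so `σ x = x` implies that `x` is fixed by `NC h (K ⊔ B n)`, hence in `K ⊔ B n` (`K_NR1.mem_of_fixed`). (2) The powers of `σ` are in `NC h (K ⊔ B n)`, so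
`orderOf σ ∣ p`, and `orderOf σ ≠ 1` since `K_(n+1) ≠ K_n` (degrees). -/
def Sr_ORDY : Prop := ∀ (p : ℕ) [Fact p.Prime] (k K : IntermediateField ℚ ℂ)
    (B : ℕ → IntermediateField ℚ ℂ)
    [FiniteDimensional ℚ K] [∀ n, FiniteDimensional ℚ ↥(K ⊔ B n)], BasY p k K B →
    ∀ (n : ℕ) (_ : 1 ≤ n) (h : k ≤ K ⊔ B (n + 1)), letI := algC h
    (∀ σ : ↥(K ⊔ B (n + 1)) ≃ₐ[k] ↥(K ⊔ B (n + 1)),
      (∀ x : ↥(K ⊔ B (n + 1)), (x : ℂ) ∈ K ⊔ B n → σ x = x) → σ ≠ 1 →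
      ∀ x : ↥(K ⊔ B (n + 1)), σ x = x ↔ (x : ℂ) ∈ K ⊔ B n) ∧
    ∀ σ : ↥(K ⊔ B (n + 1)) ≃ₐ[k] ↥(K ⊔ B (n + 1)),
      (∀ x : ↥(K ⊔ B (n + 1)), σ x = x ↔ (x : ℂ) ∈ K ⊔ B n) → orderOf σ = p

/-- (LFY) lifting from `K₀ B_n` to `K B_n`, `n ≥ 1`.

USES GALY, S_GALX. PROOF. `Pool.Agent.MUXK.K_NR1.res` with `L' = K ⊔ B n`, `L = K₀ ⊔ B n`, `A' = K ⊔ B 1`, `A = K₀ ⊔ B 1` (an automorphism trivial on `K₀ ⊔ B n` and on `K ⊔ B 1` is trivial on `K` and `B n`, so it is `1`: `GCC.triv`; degrees: `BasX.deg`, `BasY.deg`): the restriction `NC h (K ⊔ B 1) → NC h₀ (K₀ ⊔ B 1)` is bijective. -/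
def Sr_LFY : Prop := ∀ (p : ℕ) [Fact p.Prime] (k K₀ K : IntermediateField ℚ ℂ)
    (B : ℕ → IntermediateField ℚ ℂ)
    [FiniteDimensional ℚ K] [∀ n, FiniteDimensional ℚ ↥(K ⊔ B n)], BasX p k K₀ B → BasY p k K B →
    K₀ ≤ K → ∀ (n : ℕ) (_ : 1 ≤ n) (h : k ≤ K ⊔ B n) (h₀ : k ≤ K₀ ⊔ B n)
    (hh : K₀ ⊔ B n ≤ K ⊔ B n),
    letI := algC h
    letI := algC h₀
    ∀ γ : ↥(K₀ ⊔ B n) ≃ₐ[k] ↥(K₀ ⊔ B n),
      (∀ x : ↥(K₀ ⊔ B n), (x : ℂ) ∈ K₀ ⊔ B 1 → γ x = x) →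
    ∃ γ' : ↥(K ⊔ B n) ≃ₐ[k] ↥(K ⊔ B n), (∀ x : ↥(K ⊔ B n), (x : ℂ) ∈ K ⊔ B 1 → γ' x = x) ∧
      ∀ x : ↥(K₀ ⊔ B n), ((γ' ⟨x, hh x.2⟩ : ↥(K ⊔ B n)) : ℂ) = (γ x : ↥(K₀ ⊔ B n))

/-- (INWY) the inputs from block W, first level 1.

USES ORDY, `Zl_LVX`, `Sn_SUB`, Sy_MEM, Sy_TOW, Sy_SUC, Sy_I1, Sy_KOL. `Pool/Agent/NS/ZL.lean` (`tl_INW`), the same proof; `BasX.deg` of `K` is used there only in `ordP` (field `nrm`), replaced by ORDY (2) for `n ≥ 1`. -/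
def Sr_INWY : Prop :=
  ∀ (p : ℕ) (A B : ℤ) (f : ℕ)
    (_ : SetL p A B f) (_ : TorX A B) (ι : Type) [Finite ι] (R : Reps A B (p * f) ι)
    (H : ι → Finset ℂ)
    (θ : ∀ n : ℕ, (RF (idl (A := A) (B := B) (lvX p f n)) : IntermediateField (kk A B) ℂ))
    (_ : Pool.Agent.MUXZ.ThN p f R H θ)
    (K₀ K : IntermediateField ℚ ℂ) (Bn : ℕ → IntermediateField ℚ ℂ)
    [FiniteDimensional ℚ (kk A B)] [FiniteDimensional ℚ K] [∀ n, FiniteDimensional ℚ ↥(K ⊔ Bn n)]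
    (_ : SetY p (kk A B) K₀ K Bn) (_ : ∀ y ∈ K, y ∈ RF (idl (A := A) (B := B) (lvX p f 0)))
    (_ : ∀ y ∈ RF (⊤ : Ideal (OO A B)), y ∈ K)
    (hk : ∀ n, kk A B ≤ K ⊔ Bn n) (hk₀ : ∀ n, kk A B ≤ K₀ ⊔ Bn n),
    ∃ S : Finset ℕ, Pool.Agent.MUXZ.InpW p (kk A B) K₀ K Bn hk hk₀ S
      (fun n => Pool.Agent.MUXW.cW (hk n) (θ n)) (fun n => Pool.Agent.MUXW.cW (hk₀ n) (θ n)) 1

/-- (NR1Y) the norm relation for `c₀`, one step, `n ≥ 1`; the constant is in `K₀ B_1`.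

USES GALY, S_GALX, ORDY, LFY. PROOF. As `Pool/Agent/NS/I_NR1.lean`. `σ` is trivial on `K₀ ⊔ B n ⊇ K₀ ⊔ B 1`; `τ` from LFY extends it, is trivial on `K ⊔ B 1` and on `B n` (as `σ` is), so on `K ⊔ B n`, and `τ ≠ 1` (`σ ≠ 1`: degrees): ORDY (1). `Q = NC (hk (n+1)) (K₀ ⊔ B (n+1))`. `∏_i σ^i c₀(n+1) = ∏_i τ^i ∏_(g ∈ Q) g c(n+1) = ∏_g g (C c n) = C' c₀ n`
with `C ∈ K` from `hI.nrm`, `C' = ∏_(g ∈ Q) g C`; the restriction `Q → NC (hk n) (K₀ ⊔ B n)` is bijective (`K_NR1.res`, degrees for `n ≥ 1`), so `∏_(g ∈ Q) g (c n) = c₀ n`. `C'` is in `K` (`K/k` is normal) and fixed by `Q`, so in `K₀ ⊔ B (n+1)` (`mem_of_fixed`); let `ρ` be an automorphism of `K₀ ⊔ B (n+1)` trivial on `K₀ ⊔ B 1`; its lift (LFY) is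
trivial on `K`, so it fixes `C'`. So `C' ∈ K₀ ⊔ B 1` (`mem_of_fixed` for `K₀ ⊔ B (n+1)`). -/
def Sr_NR1Y : Prop := ∀ (p : ℕ) [Fact p.Prime]
    (k K₀ K : IntermediateField ℚ ℂ) (B : ℕ → IntermediateField ℚ ℂ)
    [FiniteDimensional ℚ k] [FiniteDimensional ℚ K] [∀ n, FiniteDimensional ℚ ↥(K ⊔ B n)]
    [∀ n, FiniteDimensional ℚ ↥(K₀ ⊔ B n)], SetY p k K₀ K B →
    ∀ (hk : ∀ n, k ≤ K ⊔ B n) (hk₀ : ∀ n, k ≤ K₀ ⊔ B n) (S : Finset ℕ) (c c₀ : ℕ → ℂ) (n₁ : ℕ)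
    (hI : Pool.Agent.MUXZ.InpW p k K₀ K B hk hk₀ S c c₀ n₁), ∀ n, n₁ ≤ n → 1 ≤ n →
    letI := algC (hk₀ (n + 1))
    ∀ σ : ↥(K₀ ⊔ B (n + 1)) ≃ₐ[k] ↥(K₀ ⊔ B (n + 1)),
      (∀ x : ↥(K₀ ⊔ B (n + 1)), σ x = x ↔ (x : ℂ) ∈ K₀ ⊔ B n) →
      ∃ C ∈ K₀ ⊔ B 1, C ≠ 0 ∧ ∏ i ∈ Finset.range p,
        (((σ ^ i) ⟨c₀ (n + 1), hI.mem₀ (n + 1)⟩ : ↥(K₀ ⊔ B (n + 1))) : ℂ) = C * c₀ n

/-- (NRXY) the norm relation from `K₀_n` to `K₀_m`, `m ≥ 1`.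

USES NR1Y, S_RSX. PROOF. `Pool/Agent/NS/I_NRX.lean`; there `γ C = C` is used only for the powers `γ^(p^m i)`, and `γ^(p^m)` is trivial on `K₀ ⊔ B m ⊇ K₀ ⊔ B 1` (`K_NRX.step` with the hypothesis `(g ^ q) C = C` instead of `g C = C`). -/
def Sr_NRXY : Prop := ∀ (p : ℕ) [Fact p.Prime]
    (k K₀ K : IntermediateField ℚ ℂ) (B : ℕ → IntermediateField ℚ ℂ)
    [FiniteDimensional ℚ k] [FiniteDimensional ℚ K] [∀ n, FiniteDimensional ℚ ↥(K ⊔ B n)]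
    [∀ n, FiniteDimensional ℚ ↥(K₀ ⊔ B n)], SetY p k K₀ K B →
    ∀ (hk : ∀ n, k ≤ K ⊔ B n) (hk₀ : ∀ n, k ≤ K₀ ⊔ B n) (S : Finset ℕ) (c c₀ : ℕ → ℂ) (n₁ : ℕ)
    (hI : Pool.Agent.MUXZ.InpW p k K₀ K B hk hk₀ S c c₀ n₁),
    NrRelY p k K₀ B hk₀ c₀ hI.mem₀ n₁

/-- (LEM1Y) one level is enough, with constants in `K B_1` and the operator `γ^p - 1`. Module of helper36. -/
def Sr_LEM1Y : Prop := ∀ (F : Type) [Field F] (p : ℕ) [Fact p.Prime]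
    (k K : IntermediateField ℚ ℂ) (B : ℕ → IntermediateField ℚ ℂ)
    [FiniteDimensional ℚ K] [∀ n, FiniteDimensional ℚ ↥(K ⊔ B n)] (hB : BasX p k K B)
    (_ : ¬ p ∣ Module.finrank k (IntermediateField.extendScalars hB.hk))
    (_ : ∃ ω ∈ K, IsPrimitiveRoot ω p)
    (hk : ∀ n, k ≤ K ⊔ B n) (hkK : k ≤ K) (c₀ : ℕ → ℂ) (mem : ∀ n, c₀ n ∈ K ⊔ B n)
    (_ : ∀ n, c₀ n ≠ 0) (n₁ : ℕ) (_ : NrRelY p k K B hk c₀ mem n₁)
    (χ : (letI := algC hkK; (↥K ≃ₐ[k] ↥K) →* Fˣ)),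
    (∀ n₀ : ℕ, ∃ n, n₀ ≤ n ∧ I3Q F p k K B hkK χ n (hk n) (c₀ n) (mem n)) →
    ∀ N n₀ : ℕ, ∃ n, n₀ ≤ n ∧ I3At F p k K B hkK χ N n (hk n) (c₀ n) (mem n)

/-! ## The result -/

/-- (I31) one level, `γ² - 1`. Module of helper36. -/
def Sr_I31 : Prop :=
  ∀ (A B : ℤ) (P : Ideal (OO A B)) (V : ValuationSubring ℂ) (f : ℕ), SetQ A B P V f →
    TorX A B → ∀ (ι : Type) [Fintype ι] (R : Reps A B (2 * f) ι) (u el a1 a3 : ℂ),
    GoodQ V (R.L R.i0) u el a1 a3 →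
    ∀ (K : IntermediateField ℚ ℂ) (Bn : ℕ → IntermediateField ℚ ℂ)
    [FiniteDimensional ℚ K] [∀ n, FiniteDimensional ℚ ↥(K ⊔ Bn n)]
    (hB : BasX 2 (kk A B) K Bn)
    (_ : ¬ 2 ∣ Module.finrank (kk A B) (IntermediateField.extendScalars hB.hk))
    (_ : ∀ y ∈ K, y ∈ RF (idl (A := A) (B := B) (lvX 2 f 0)))
    (hk : ∀ n, kk A B ≤ K ⊔ Bn n) (hkK : kk A B ≤ K)
    (C : ∀ n, (letI := algC (hk n); ↥(K ⊔ Bn n) ≃ₐ[kk A B] ↥(K ⊔ Bn n)) → ℂ)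
    (_ : ∀ n, 5 ≤ n → EInpQ V f R u n (hk n) (C n)) (c₀ : ℕ → ℂ)
    (mem : ∀ n, c₀ n ∈ K ⊔ Bn n) (_ : ∀ n, 5 ≤ n → c₀ n = C n (letI := algC (hk n); 1))
    (χ : (letI := algC hkK; (↥K ≃ₐ[kk A B] ↥K) →* (IsLocalRing.ResidueField V)ˣ)) (n₀ : ℕ),
    ∃ n, n₀ ≤ n ∧ I3Q (IsLocalRing.ResidueField V) 2 (kk A B) K Bn hkK χ n (hk n) (c₀ n) (mem n)

/-- THE RESULT of block IR: the inputs of block K. Module of helper36. -/
def Sr_INP : Prop :=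
  ∀ (A B : ℤ) (P : Ideal (OO A B)) (V : ValuationSubring ℂ) (f : ℕ), SetQ A B P V f →
    TorX A B → ∀ (ι : Type) [Fintype ι] (R : Reps A B (2 * f) ι) (u el a1 a3 : ℂ),
    GoodQ V (R.L R.i0) u el a1 a3 →
    ∀ (K₀ K : IntermediateField ℚ ℂ) (Bn : ℕ → IntermediateField ℚ ℂ)
    [FiniteDimensional ℚ (kk A B)] [FiniteDimensional ℚ K] [∀ n, FiniteDimensional ℚ ↥(K ⊔ Bn n)]
    (_ : SetY 2 (kk A B) K₀ K Bn)
    (_ : ∀ y ∈ K₀, y ∈ RF (idl (A := A) (B := B) (lvX 2 f 0)))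
    (hk : ∀ n, kk A B ≤ K ⊔ Bn n) (hk₀ : ∀ n, kk A B ≤ K₀ ⊔ Bn n) (hkK : kk A B ≤ K₀)
    (S : Finset ℕ) (c c₀ : ℕ → ℂ) (n₁ : ℕ)
    (_ : Pool.Agent.MUXZ.InpW 2 (kk A B) K₀ K Bn hk hk₀ S c c₀ n₁)
    (C : ∀ n, (letI := algC (hk₀ n); ↥(K₀ ⊔ Bn n) ≃ₐ[kk A B] ↥(K₀ ⊔ Bn n)) → ℂ)
    (_ : ∀ n, 5 ≤ n → EInpQ V f R u n (hk₀ n) (C n))
    (_ : ∀ n, 5 ≤ n → c₀ n = C n (letI := algC (hk₀ n); 1)),
    InpX (IsLocalRing.ResidueField V) 2 (kk A B) K₀ K Bn hk hk₀ hkK S c c₀ n₁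

end

end Pool.Agent.N2IR


end

section

/-!
# ME2, block I for `D = -4`, `p = 2` (helper36): from blocks E, H to the input (I3) of block K

Twin of `Pool/Agent/N2/StIR.lean` in the frame ME. Here the pair of fields satisfies `SetX`, the constants of the norm relation are in `K₀`; the operator is `γ² - 1`
as in the ramified case `D ≠ -4`.
-/

set_option autoImplicit false

namespace Pool.Agent.ME2I

open _root_.MU3 _root_.Pool.Agent.MU3 _root_.Pool.Agent.MU3A _root_.Pool.Agent.MU3B _root_.Pool.Agent.RI _root_.Pool.Agent.RID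
  _root_.Pool.Agent.MUX _root_.Pool.Agent.MUXK _root_.Pool.Agent.MUXI _root_.Pool.Agent.NSI _root_.Pool.Agent.ME2
open _root_.Pool.Agent.ME hiding ActE
open _root_.Pool.Agent.N2 (GoodQ et yt WT OddQ dR PTq)
open _root_.Pool.Agent.N2IR (I3Q NrRelY)
open _root_.Pool.Agent.MU3I (w3 zt)

noncomputable section

lemma setL_4 {A B : ℤ} {P : Ideal (OO A B)} {V : ValuationSubring ℂ} {f : ℕ}
    (h : SetT4 A B P V f) : SetL 2 A B f :=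
  ⟨h.case.toCQ, Or.inl rfl, h.f0, h.fp⟩

/-- the input from block E for one field `D` -/
structure EInp4 {A B : ℤ} (V : ValuationSubring ℂ) (f : ℕ) {ι : Type}
    (R : RepsE A B (2 * f) ι) (u : ℂ) (n : ℕ) {D : IntermediateField ℚ ℂ} (h : kk A B ≤ D)
    (C : (letI := algC h; D ≃ₐ[kk A B] D) → ℂ) : Prop where
  ne : C (letI := algC h; 1) ≠ 0
  conj : letI := algC h
    ∀ τ : D ≃ₐ[kk A B] D, ∃ y : D, (y : ℂ) = C 1 ∧ ((τ y : D) : ℂ) = C τ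
  ew : letI := algC h
    ∀ om : OO A B → ℂ, OddQ f V om → ∀ g : (D ≃ₐ[kk A B] D) → ℤ,
      (∃ y ∈ D, y ^ 2 = ∏ᶠ τ : D ≃ₐ[kk A B] D, C τ ^ g τ) → ∀ τ' : D ≃ₐ[kk A B] D,
        V.valuation ((∑ᶠ τ : D ≃ₐ[kk A B] D, (g τ : ℂ) *
          TT2E R om (lvX 2 f n) (aX 2 f) h (τ * τ')) / u) ^ 4 ≤
            V.valuation (2 : ℂ) ^ (2 * dR A + 3)

/-- (EPQ) the weights and the odd character; `e = e0 κ`, `om = κ` -/
def S4_EPQ : Prop :=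
  ∀ (A B : ℤ) (P : Ideal (OO A B)) (V : ValuationSubring ℂ) (f : ℕ) (_ : SetT4 A B P V f)
    (e0 : OO A B → ℂ) (r : ℕ) (_ : ¬ 2 ∣ r)
    (_ : e0 1 = 1) (_ : ∀ x y, e0 (x * y) = e0 x * e0 y)
    (_ : ∀ x y, x - y ∈ idl (A := A) (B := B) (lvX 2 f 0) → e0 x = e0 y)
    (_ : ∀ x, e0 x ≠ 0 ↔ IsCoprime x ((lvX 2 f 0 : ℕ) : OO A B))
    (_ : ∀ x, e0 x ≠ 0 → e0 x ^ r = 1) (_ : ∀ z, IsUnit z → e0 z = 1),
    ∃ (om e : OO A B → ℂ), OddQ f V om ∧ OddF4 f e ∧ (∀ x, e x ≠ 0 → e x ^ (4 * r) = 1) ∧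
      ∀ x, IsCoprime x ((lvX 2 f 0 : ℕ) : OO A B) → e0 x * om x = e x

/-- (CYC) `K B_n` is in the compositum of `RFE (4 f)` and the field of the `2^(n+2)`-th roots of unity -/
def S4_CYC : Prop :=
  ∀ (A B : ℤ) (f : ℕ) (K : IntermediateField ℚ ℂ),
    (∀ y ∈ K, y ∈ RFE (idl (A := A) (B := B) (lvX 2 f 0))) → ∀ (n : ℕ)
    (Bn : IntermediateField ℚ ℂ), IsLayer 2 n Bn → InCycE A B f (2 ^ (n + 2)) (K ⊔ Bn)

/-- (I31) one level, `γ² - 1` -/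
def S4_I31 : Prop :=
  ∀ (A B : ℤ) (P : Ideal (OO A B)) (V : ValuationSubring ℂ) (f : ℕ), SetT4 A B P V f →
    TorXE A B → ∀ (ι : Type) [Fintype ι] (R : RepsE A B (2 * f) ι) (u el a1 a3 : ℂ),
    GoodQ V (R.L R.i0) u el a1 a3 →
    ∀ (K : IntermediateField ℚ ℂ) (Bn : ℕ → IntermediateField ℚ ℂ)
    [FiniteDimensional ℚ K] [∀ n, FiniteDimensional ℚ ↥(K ⊔ Bn n)]
    (hB : BasX 2 (kk A B) K Bn)
    (_ : ¬ 2 ∣ Module.finrank (kk A B) (IntermediateField.extendScalars hB.hk))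
    (_ : ∀ y ∈ K, y ∈ RFE (idl (A := A) (B := B) (lvX 2 f 0)))
    (hk : ∀ n, kk A B ≤ K ⊔ Bn n) (hkK : kk A B ≤ K)
    (C : ∀ n, (letI := algC (hk n); ↥(K ⊔ Bn n) ≃ₐ[kk A B] ↥(K ⊔ Bn n)) → ℂ)
    (_ : ∀ n, 5 ≤ n → EInp4 V f R u n (hk n) (C n)) (c₀ : ℕ → ℂ)
    (mem : ∀ n, c₀ n ∈ K ⊔ Bn n) (_ : ∀ n, 5 ≤ n → c₀ n = C n (letI := algC (hk n); 1))
    (χ : (letI := algC hkK; (↥K ≃ₐ[kk A B] ↥K) →* (IsLocalRing.ResidueField V)ˣ)) (n₀ : ℕ),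
    ∃ n, n₀ ≤ n ∧ I3Q (IsLocalRing.ResidueField V) 2 (kk A B) K Bn hkK χ n (hk n) (c₀ n) (mem n)

/-- the inputs of block K -/
def S4_INP : Prop :=
  ∀ (A B : ℤ) (P : Ideal (OO A B)) (V : ValuationSubring ℂ) (f : ℕ), SetT4 A B P V f →
    TorXE A B → ∀ (ι : Type) [Fintype ι] (R : RepsE A B (2 * f) ι) (u el a1 a3 : ℂ),
    GoodQ V (R.L R.i0) u el a1 a3 →
    ∀ (K₀ K : IntermediateField ℚ ℂ) (Bn : ℕ → IntermediateField ℚ ℂ)
    [FiniteDimensional ℚ (kk A B)] [FiniteDimensional ℚ K] [∀ n, FiniteDimensional ℚ ↥(K ⊔ Bn n)]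
    (_ : SetX 2 (kk A B) K₀ K Bn)
    (_ : ∀ y ∈ K₀, y ∈ RFE (idl (A := A) (B := B) (lvX 2 f 0)))
    (hk : ∀ n, kk A B ≤ K ⊔ Bn n) (hk₀ : ∀ n, kk A B ≤ K₀ ⊔ Bn n) (hkK : kk A B ≤ K₀)
    (S : Finset ℕ) (c c₀ : ℕ → ℂ) (n₁ : ℕ)
    (_ : Pool.Agent.MUXZ.InpW 2 (kk A B) K₀ K Bn hk hk₀ S c c₀ n₁)
    (C : ∀ n, (letI := algC (hk₀ n); ↥(K₀ ⊔ Bn n) ≃ₐ[kk A B] ↥(K₀ ⊔ Bn n)) → ℂ)
    (_ : ∀ n, 5 ≤ n → EInp4 V f R u n (hk₀ n) (C n))
    (_ : ∀ n, 5 ≤ n → c₀ n = C n (letI := algC (hk₀ n); 1)),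
    InpX (IsLocalRing.ResidueField V) 2 (kk A B) K₀ K Bn hk hk₀ hkK S c c₀ n₁

end

end Pool.Agent.ME2I


end

section

/-!
# MUX-2R, block IR, module LEM1Y: one level is enough, constants in the first layer (helper36)

As `Pool/Agent/NS/I_LEM1.lean`.
-/

set_option autoImplicit false

open NumberField IsDedekindDomain Finset
open scoped nonZeroDivisors Pointwise

namespace Pool.Agent.N2IR

open _root_.Pool.Agent.MU3 _root_.Pool.Agent.RI _root_.Pool.Agent.RID _root_.Pool.Agent.MUXK _root_.Pool.Agent.NSI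
open _root_.Pool.Agent.NSI.LEM1

namespace LEM1Y

variable {k L : Type} [Field k] [Field L] [Algebra k L]

theorem coreY {M : Type} [Field M] [Algebra k M] (p : ℕ) [hp : Fact p.Prime] (j : M →+* L)
    (r : (L ≃ₐ[k] L) →* (M ≃ₐ[k] M))
    (hr : ∀ (σ : L ≃ₐ[k] L) (x : M), j (r σ x) = σ (j x))
    (comm : ∀ σ τ : L ≃ₐ[k] L, σ * τ = τ * σ) (γ : L ≃ₐ[k] L) (m n N : ℕ) (hmn : m ≤ n)
    (hN : N ≤ p ^ n - p ^ m)
    (hfix : ∀ x : L, (γ ^ (p ^ m)) x = x ↔ ∃ z : M, j z = x)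
    (D : Subgroup (L ≃ₐ[k] L)) [Fintype D] (D' : Subgroup (M ≃ₐ[k] M)) [Fintype D']
    (e : D ≃* D') (he : ∀ δ : D, ((e δ : D') : M ≃ₐ[k] M) = r δ)
    (cn : L) (hcn : cn ≠ 0) (cm : M) (hcm : cm ≠ 0) (C : L) (hC : C ≠ 0)
    (hCγ : (γ ^ p) C = C) (hCm : ∃ z : M, j z = C)
    (hnrm : ∏ i ∈ range (p ^ (n - m)), (γ ^ (p ^ m * i)) cn = C * j cm)
    (hω : ∀ w : L, w ^ p = 1 → γ w = w) (b : D → ℕ) (b' : D' → ℕ)
    (hb : ∀ δ, b δ = b' (e δ)) (y : L)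
    (hy : y ^ p = ∏ δ : D, ((δ : L ≃ₐ[k] L) ((Tg γ)^[N] cn)) ^ b δ) :
    ∃ t : M, t ^ p = ∏ δ : D', ((δ : M ≃ₐ[k] M) (Tg ((r γ) ^ p) cm)) ^ b' δ := by
  have hp0 : p ≠ 0 := hp.out.ne_zero
  -- apply `T ^ (Q - N)`
  obtain ⟨i, hi⟩ := Nat.exists_eq_add_of_le hN
  have hy1 : ((Tg γ)^[i] y) ^ p =
      ∏ δ : D, ((δ : L ≃ₐ[k] L) ((Tg γ)^[p ^ n - p ^ m] cn)) ^ b δ := by
    rw [← K_TNX.iter_pow, hy, Tg_prod_iter comm, ← Function.iterate_add_apply, hi, Nat.add_comm i N]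
  obtain ⟨w, hw0, hw⟩ := norm_id p γ m n hmn hcn
  rw [hnrm] at hw
  rw [hw] at hy1
  set y1 : L := (Tg γ)^[i] y with hy1d
  set W : L := ∏ δ : D, ((δ : L ≃ₐ[k] L) w) ^ b δ with hW
  have hW0 : W ≠ 0 := by
    rw [hW, prod_ne_zero_iff]
    intro δ _
    exact pow_ne_zero _ ((map_ne_zero _).mpr hw0)
  set s : L := ∏ δ : D, ((δ : L ≃ₐ[k] L) (C * j cm)) ^ b δ with hs
  have hjcm : j cm ≠ 0 := (map_ne_zero _).mpr hcm
  have hs0 : s ≠ 0 := by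
    rw [hs, prod_ne_zero_iff]
    intro δ _
    exact pow_ne_zero _ ((map_ne_zero _).mpr (mul_ne_zero hC hjcm))
  have hy2 : (y1 / W) ^ p = s := by
    rw [div_pow, div_eq_iff (pow_ne_zero _ hW0), hy1, hW, hs, ← prod_pow, ← prod_mul_distrib]
    refine prod_congr rfl fun δ _ => ?_
    rw [map_mul _ (C * j cm) (w ^ p), map_pow, mul_pow]
    congr 1
    rw [← pow_mul, ← pow_mul, mul_comm]
  set y2 : L := y1 / W with hy2d
  have hy20 : y2 ≠ 0 := by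
    intro h
    rw [h, zero_pow hp0] at hy2
    exact hs0 hy2.symm
  -- `T s`
  have hCTg : Tg (γ ^ p) (C * j cm) = j (Tg ((r γ) ^ p) cm) := by
    unfold Tg
    rw [map_mul, hCγ, mul_div_mul_left _ _ hC, map_div₀, ← map_pow, hr]
  have hTs : Tg (γ ^ p) s = j (∏ δ : D', ((δ : M ≃ₐ[k] M) (Tg ((r γ) ^ p) cm)) ^ b' δ) := by
    rw [hs, Tg_prod comm, hCTg, map_prod, ← e.toEquiv.prod_comp]
    refine prod_congr rfl fun δ _ => ?_
    rw [map_pow, hb δ]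
    congr 1
    rw [← hr]
    congr 1
    show (r δ) _ = ((e δ : D') : M ≃ₐ[k] M) _
    rw [he]
  -- `h` fixes `s`
  set h : L ≃ₐ[k] L := γ ^ (p ^ m) with hh
  have hhC : h C = C := (hfix C).2 hCm
  have hhj : ∀ z : M, h (j z) = j z := fun z => (hfix _).2 ⟨z, rfl⟩
  have hhδ : ∀ δ : D, h ((δ : L ≃ₐ[k] L) (C * j cm)) = (δ : L ≃ₐ[k] L) (C * j cm) := by
    intro δ
    have e3 : h ((δ : L ≃ₐ[k] L) (C * j cm)) = (δ : L ≃ₐ[k] L) (h (C * j cm)) :=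
      congrArg (fun f : L ≃ₐ[k] L => f (C * j cm)) (comm h (δ : L ≃ₐ[k] L))
    rw [e3, map_mul, hhC, hhj]
  have hhs : h s = s := by
    rw [hs, map_prod]
    refine prod_congr rfl fun δ _ => ?_
    rw [map_pow, hhδ]
  have hhy : h y2 ≠ 0 := (map_ne_zero _).mpr hy20
  have hw3 : (h y2 / y2) ^ p = 1 := by
    rw [div_pow, ← map_pow, hy2, hhs, div_self hs0]
  have hwγ : (γ ^ p) (h y2 / y2) = h y2 / y2 := by
    have h5 : ∀ i : ℕ, (γ ^ i) (h y2 / y2) = h y2 / y2 := by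
      intro i
      induction i with
      | zero => rfl
      | succ i ih => rw [pow_succ, AlgEquiv.mul_apply, hω _ hw3, ih]
    exact h5 _
  have hcomm : ∀ x : L, h ((γ ^ p) x) = (γ ^ p) (h x) := fun x =>
    congrArg (fun f : L ≃ₐ[k] L => f x) (comm h (γ ^ p))
  have hγy : (γ ^ p) y2 ≠ 0 := (map_ne_zero _).mpr hy20
  have ht : h (Tg (γ ^ p) y2) = Tg (γ ^ p) y2 := by
    unfold Tg
    rw [map_div₀, hcomm]
    rw [map_div₀] at hwγ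
    rw [div_eq_div_iff hγy hy20] at hwγ
    rw [div_eq_div_iff hhy hy20, hwγ, mul_comm]
  obtain ⟨t, htj⟩ := (hfix _).mp ht
  refine ⟨t, ?_⟩
  apply j.injective
  rw [map_pow, htj, ← hTs, ← hy2, K_TNX.Tg_pow]

end LEM1Y

/-- (LEM1Y) one level is enough -/
theorem tr_LEM1Y (h1 : S_GALX) (h2 : S_RSX) : Sr_LEM1Y := by
  intro F _ p hp k K B _ _ hB hcop hom hk hkK c₀ mem hne n₁ hN χ h3 N n₀
  obtain ⟨m, hm1, hm2⟩ := h3 (n₁ + 1)
  have hpos : 0 < p := hp.out.pos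
  obtain ⟨n, hn⟩ : ∃ n, n = m + (N + n₀) := ⟨_, rfl⟩
  refine ⟨n, by omega, ?_⟩
  have hmn : m ≤ n := by omega
  have hQ : N ≤ p ^ n - p ^ m := by
    have e1 : p ^ n - p ^ m = p ^ m * (p ^ (N + n₀) - 1) := by
      rw [hn, pow_add, Nat.mul_sub, mul_one]
    have e2 : 1 ≤ p ^ m := Nat.one_le_pow _ _ hpos
    have e3 : N + n₀ < p ^ (N + n₀) := Nat.lt_pow_self hp.out.one_lt
    rw [e1]
    calc N ≤ 1 * (p ^ (N + n₀) - 1) := by omega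
      _ ≤ p ^ m * (p ^ (N + n₀) - 1) := Nat.mul_le_mul_right _ e2
  let _ := algC (hk n)
  let _ := algC (hk m)
  let _ := algC hkK
  intro γ hγ _ r hr
  have hsub : K ⊔ B m ≤ K ⊔ B n := sup_le_sup_left (hB.mono hmn) K
  obtain ⟨r', hr', hrγ, e, he⟩ := h2 p k K B hB hcop m n hmn (hk n) (hk m) hsub
  obtain ⟨ρm, hρm⟩ := I3X19.restr h2 p k K B hB hcop hkK m (hk m)
  obtain ⟨hr1, hr2⟩ := hrγ γ hγ
  let _ : Fintype (NC (hk m) (B m)) := Fintype.ofEquiv _ e.toEquiv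
  obtain ⟨θ, hθ⟩ := hm2 (r' γ) hr1 (fun δ => ρm δ) hρm
  have hρ : ∀ δ, ρm (e δ) = r δ := by
    intro δ
    refine AlgEquiv.ext fun x => Subtype.ext ?_
    have hx1 : (x : ℂ) ∈ K ⊔ B m := le_sup_left (a := K) x.2
    rw [← hρm (e δ) x ⟨x, hx1⟩ rfl, ← hr δ x ⟨x, hsub hx1⟩ rfl, he]
    exact hr' _ ⟨x, hx1⟩
  refine ⟨θ, fun y hy => ?_⟩
  obtain ⟨ω, hωK, hω1⟩ := hom
  obtain ⟨C, hCk, hC0, hC⟩ := hN m n (by omega) (by omega) hmn γ hγ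
  have hB1m : K ⊔ B 1 ≤ K ⊔ B m := sup_le_sup_left (hB.mono (by omega)) K
  have hKn : K ⊔ B 1 ≤ K ⊔ B n := hB1m.trans hsub
  obtain ⟨j, hj⟩ := LEM1.incl hsub
  have hj' : ∀ z : ↥(K ⊔ B m), j z = ⟨z, hsub z.2⟩ := fun z => Subtype.ext (hj z)
  have b1 : ∀ (σ : ↥(K ⊔ B n) ≃ₐ[k] ↥(K ⊔ B n)) (x : ↥(K ⊔ B m)), j (r' σ x) = σ (j x) := by
    intro σ x
    apply Subtype.ext
    rw [hj, hr', hj']
  have b2 : ∀ x : ↥(K ⊔ B n), (γ ^ (p ^ m)) x = x ↔ ∃ z : ↥(K ⊔ B m), j z = x := by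
    intro x
    rw [hr2 x]
    constructor
    · intro hx
      exact ⟨⟨x, hx⟩, Subtype.ext (hj _)⟩
    · rintro ⟨z, rfl⟩
      rw [hj]
      exact z.2
  have b3 : (⟨C, hKn hCk⟩ : ↥(K ⊔ B n)) ≠ 0 := by
    intro h; exact hC0 (congrArg Subtype.val h)
  have b4 : (γ ^ p) (⟨C, hKn hCk⟩ : ↥(K ⊔ B n)) = ⟨C, hKn hCk⟩ := by
    have hsub1 : K ⊔ B 1 ≤ K ⊔ B n := hKn
    have hk1 : k ≤ K ⊔ B 1 := hk 1
    obtain ⟨r1, _, hrγ1, _⟩ := h2 p k K B hB hcop 1 n (by omega) (hk n) hk1 hsub1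
    have h5 := (hrγ1 γ hγ).2 ⟨C, hKn hCk⟩
    rw [pow_one] at h5
    exact h5.2 hCk
  have b4' : ∃ z : ↥(K ⊔ B m), j z = (⟨C, hKn hCk⟩ : ↥(K ⊔ B n)) :=
    ⟨⟨C, hB1m hCk⟩, Subtype.ext (hj _)⟩
  have b5 : ∏ i ∈ range (p ^ (n - m)), (γ ^ (p ^ m * i)) ⟨c₀ n, mem n⟩ =
      ⟨C, hKn hCk⟩ * j ⟨c₀ m, mem m⟩ := by
    apply Subtype.ext
    rw [hC, hj']
    rfl
  have b6 : ∀ w : ↥(K ⊔ B n), w ^ p = 1 → γ w = w := by
    intro w hw
    rw [hγ w]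
    have hw' : (w : ℂ) ^ p = 1 := congrArg Subtype.val hw
    have : NeZero p := ⟨hpos.ne'⟩
    obtain ⟨i, _, hi⟩ := hω1.eq_pow_of_pow_eq_one hw'
    rw [← hi]
    exact K.pow_mem hωK i
  have b7 : (⟨c₀ n, mem n⟩ : ↥(K ⊔ B n)) ≠ 0 := by
    intro h; exact hne n (congrArg Subtype.val h)
  have b8 : (⟨c₀ m, mem m⟩ : ↥(K ⊔ B m)) ≠ 0 := by
    intro h; exact hne m (congrArg Subtype.val h)
  obtain ⟨t, ht⟩ := LEM1Y.coreY (M := ↥(K ⊔ B m)) p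
    j r' b1
    (h1 p k K B hB n (hk n)).2 γ m n N hmn hQ b2 (NC (hk n) (B n)) (NC (hk m) (B m)) e he
    ⟨c₀ n, mem n⟩ b7 ⟨c₀ m, mem m⟩ b8 ⟨C, hKn hCk⟩ b3 b4 b4' b5 b6
    (fun δ => (θ ((χ (r δ))⁻¹ : Fˣ)).val) (fun δ => (θ ((χ (ρm δ))⁻¹ : Fˣ)).val)
    (fun δ => by rw [hρ]) y hy
  exact hθ t ht

end Pool.Agent.N2IR


end

section

/-!
# MUX-2R, block IR, module GALY: `K B_n / k` is Galois with abelian group (helper42)

The proof of `MUX/K_GALX.lean`.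
-/

set_option autoImplicit false

open NumberField IsDedekindDomain Finset
open scoped nonZeroDivisors Pointwise

namespace Pool.Agent.N2IR

open _root_.MU3 _root_.Pool.Agent.MU3 _root_.Pool.Agent.MU3A _root_.Pool.Agent.MU3B _root_.Pool.Agent.RI _root_.Pool.Agent.RID
  _root_.Pool.Agent.MUX _root_.Pool.Agent.MUXK _root_.Pool.Agent.MUXI _root_.Pool.Agent.NSI _root_.Pool.Agent.N2
open _root_.Pool.Agent.MU3.P_GALK

theorem tr_GALY : Sr_GALY := by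
  intro p _ k K B fdK fdKB hB n h
  let aL : Algebra k ↥(K ⊔ B n) := algC h
  obtain ⟨fdB, hGB, -⟩ := LAY_thm p n (B n) (hB.lay n)
  have hcyc : IsCyclic (B n ≃ₐ[ℚ] B n) := t_LAYC p n (B n) (hB.lay n)
  have fdk : FiniteDimensional ℚ k := FiniteDimensional.of_injective
    (IntermediateField.inclusion hB.hk).toLinearMap
    (IntermediateField.inclusion hB.hk).toRingHom.injective
  refine ⟨?_, ?_⟩
  · have h1 := BCH_thm.1 ⊥ (B n) k k (k ⊔ B n) bot_le le_sup_left (bot_sup_eq k).symm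
      (sup_comm k (B n)) (bot_gal hGB)
    have hfM : FiniteDimensional ℚ ↥(k ⊔ B n) := IntermediateField.finiteDimensional_sup k (B n)
    have h2 := BCH_thm.2 k K (k ⊔ B n) hB.hk le_sup_left (hB.hk.trans le_sup_left) hB.gal h1.1
    have e : K ⊔ (k ⊔ B n) = K ⊔ B n := by
      rw [← sup_assoc, sup_eq_left.2 hB.hk]
    exact (isGalois_algC h).2 (transp e _ h h2)
  · intro σ τ
    refine comm_of h σ τ ?_ ?_
    · intro x hx
      let aK : Algebra k K := algC hB.hk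
      let aKL : Algebra K ↥(K ⊔ B n) := algC le_sup_left
      have : IsScalarTower k K ↥(K ⊔ B n) := towerC hB.hk le_sup_left
      have : IsGalois k K := (isGalois_algC hB.hk).2 hB.gal
      have hab : ∀ a b : K ≃ₐ[k] K, a * b = b * a := by
        intro a b
        have h1 := hB.ab ((extEquiv hB.hk).symm.autCongr a) ((extEquiv hB.hk).symm.autCongr b)
        rw [← map_mul, ← map_mul] at h1
        exact (extEquiv hB.hk).symm.autCongr.injective h1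
      exact comm_on hab σ τ (⟨(x : ℂ), hx⟩ : K)
    · intro x hx
      let aBL : Algebra (B n) ↥(K ⊔ B n) := algC le_sup_right
      have : IsScalarTower ℚ (B n) ↥(K ⊔ B n) := IsScalarTower.of_algebraMap_eq (fun _ => rfl)
      have : IsScalarTower ℚ k ↥(K ⊔ B n) := IsScalarTower.of_algebraMap_eq (fun _ => rfl)
      have hab : ∀ a b : B n ≃ₐ[ℚ] B n, a * b = b * a := by
        intro a b
        obtain ⟨g, hg⟩ := hcyc.exists_generator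
        obtain ⟨i, rfl⟩ := hg a
        obtain ⟨j, rfl⟩ := hg b
        exact zpow_mul_comm g i j
      exact comm_on hab (σ.restrictScalars ℚ) (τ.restrictScalars ℚ) (⟨(x : ℂ), hx⟩ : B n)

end Pool.Agent.N2IR


end

section

/-!
# MUX-2R, block IR, module NR1Y (helper14): the norm relation for `c₀`, one step, `n ≥ 1`; the constant is in `K₀ B_1`.
After `NS/I_NR1.lean` and `MUX/K_NR1.lean` (helper73).
-/

set_option autoImplicit false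

open NumberField IsDedekindDomain Finset
open scoped nonZeroDivisors Pointwise

namespace Pool.Agent.N2IR

open _root_.MU3 _root_.Pool.Agent.MU3 _root_.Pool.Agent.MU3A _root_.Pool.Agent.MU3B _root_.Pool.Agent.RI _root_.Pool.Agent.RID
  _root_.Pool.Agent.MUX _root_.Pool.Agent.MUXK _root_.Pool.Agent.MUXI _root_.Pool.Agent.NSI _root_.Pool.Agent.N2
  _root_.Pool.Agent.Lib_helper28.FROB
open _root_.Pool.Agent.MU3I (w3 zt)

open _root_.Pool.Agent.MUXK.K_NR1 in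
/-- the norm relation, one step -/
theorem tr_NR1Y (h1 : Sr_GALY) (h2 : S_GALX) (h3 : Sr_ORDY) (h4 : Sr_LFY) : Sr_NR1Y := by
  intro p _ k K₀ K B _ _ _ _ hX hk hk₀ S c c₀ n₁ hI n hn hn1
  have hpr : p.Prime := Fact.out
  intro σ hσ
  have hBn : B n ≤ B (n + 1) := hX.b.mono (Nat.le_succ n)
  have hh : ∀ m, K₀ ⊔ B m ≤ K ⊔ B m := fun m => sup_le_sup_right hX.le _
  have hL : K ⊔ B n ≤ K ⊔ B (n + 1) := sup_le_sup_left hBn K
  have hM : K₀ ⊔ B n ≤ K₀ ⊔ B (n + 1) := sup_le_sup_left hBn K₀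
  have fK₀ : FiniteDimensional ℚ K₀ := FiniteDimensional.of_injective
    (IntermediateField.inclusion hX.le).toLinearMap
    (IntermediateField.inclusion hX.le).injective
  let aL' : Algebra k ↥(K ⊔ B (n + 1)) := algC (hk (n + 1))
  let aL : Algebra k ↥(K ⊔ B n) := algC (hk n)
  let aM' : Algebra k ↥(K₀ ⊔ B (n + 1)) := algC (hk₀ (n + 1))
  let aK : Algebra k K := algC hX.b.hk
  obtain ⟨gL', cL'⟩ := h1 p k K B hX.b (n + 1) (hk (n + 1))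
  obtain ⟨gL, cL⟩ := h1 p k K B hX.b n (hk n)
  obtain ⟨gM', cM'⟩ := h2 p k K₀ B hX.b0 (n + 1) (hk₀ (n + 1))
  have gK : IsGalois k K := (isGalois_algC hX.b.hk).2 hX.b.gal
  have fdL' := Pool.Agent.FX.fd k ↥(K ⊔ B (n + 1))
  have fdL := Pool.Agent.FX.fd k ↥(K ⊔ B n)
  have fdK := Pool.Agent.FX.fd k K
  -- lift
  obtain ⟨τ, hτK, hτ⟩ := h4 p k K₀ K B hX.b0 hX.b hX.le (n + 1) (Nat.le_add_left 1 n)
    (hk (n + 1)) (hk₀ (n + 1)) (hh (n + 1)) σ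
    (fun x hx => (hσ x).2 (sup_le_sup_left (hX.b.mono hn1) K₀ hx))
  -- fixed field of `τ`
  have hτf : ∀ x : ↥(K ⊔ B (n + 1)), τ x = x ↔ (x : ℂ) ∈ K ⊔ B n := by
    have hfixB : ∀ x : ↥(K ⊔ B (n + 1)), (x : ℂ) ∈ B n → τ x = x := by
      intro x hx
      have hx1 : (x : ℂ) ∈ K₀ ⊔ B n := (le_sup_right : B n ≤ K₀ ⊔ B n) hx
      have h5 := hτ ⟨(x : ℂ), hM hx1⟩
      rw [(hσ ⟨(x : ℂ), hM hx1⟩).2 hx1] at h5
      exact Subtype.ext h5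
    have hτS : ∀ x : ↥(K ⊔ B (n + 1)), (x : ℂ) ∈ K ⊔ B n → τ x = x := by
      let aLL : Algebra ↥(K ⊔ B n) ↥(K ⊔ B (n + 1)) := algC hL
      have tLL := towerC (hk n) hL
      have hres : ∀ (x : ↥(K ⊔ B n)),
          ((AlgEquiv.restrictNormalHom ↥(K ⊔ B n) τ x : ↥(K ⊔ B n)) : ℂ) =
            (τ ⟨(x : ℂ), hL x.2⟩ : ↥(K ⊔ B (n + 1))) := by
        intro x
        have q1 := AlgEquiv.restrictNormal_commutes τ ↥(K ⊔ B n) x
        have q2 : ∀ y : ↥(K ⊔ B n), algebraMap ↥(K ⊔ B n) ↥(K ⊔ B (n + 1)) y = ⟨(y : ℂ), hL y.2⟩ :=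
          fun y => rfl
        rw [q2, q2] at q1
        exact congrArg Subtype.val q1
      have hr1 : AlgEquiv.restrictNormalHom ↥(K ⊔ B n) τ = 1 := by
        apply GCC.triv (hk n)
        · intro x hx
          apply Subtype.ext
          rw [hres, hτK _ ((le_sup_left : K ≤ K ⊔ B 1) hx)]
        · intro x hx
          apply Subtype.ext
          rw [hres, hfixB _ hx]
      intro x hx
      have h5 := hres ⟨(x : ℂ), hx⟩
      rw [hr1] at h5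
      exact (Subtype.ext h5).symm
    have hτ1 : τ ≠ 1 := by
      intro h6
      have h7 : K₀ ⊔ B (n + 1) ≤ K₀ ⊔ B n := by
        intro z hz
        have h8 := hτ ⟨z, hz⟩
        rw [h6] at h8
        exact (hσ ⟨z, hz⟩).1 (Subtype.ext h8.symm)
      have h9 : K₀ ⊔ B (n + 1) = K₀ ⊔ B n := le_antisymm h7 hM
      have d1 := hX.b0.deg (n + 1)
      have d2 := hX.b0.deg n
      rw [h9, d2, pow_succ] at d1
      have d3 : 0 < Module.finrank ℚ K₀ := Module.finrank_pos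
      have d4 : 0 < p ^ n := pow_pos hpr.pos n
      have d5 : Module.finrank ℚ K₀ * p ^ n * 1 = Module.finrank ℚ K₀ * p ^ n * p := by
        rw [mul_one, mul_assoc]
        exact d1
      have d6 := Nat.eq_of_mul_eq_mul_left (Nat.mul_pos d3 d4) d5
      exact hpr.one_lt.ne d6
    exact (h3 p k K B hX.b n hn1 (hk (n + 1))).1 τ hτS hτ1
  obtain ⟨C, hC, hC0, hCe⟩ := hI.nrm n hn τ hτf
  -- powers of `τ` and `σ`
  have hpow : ∀ (i : ℕ) (x : ↥(K₀ ⊔ B (n + 1))),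
      (((τ ^ i) ⟨(x : ℂ), hh (n + 1) x.2⟩ : ↥(K ⊔ B (n + 1))) : ℂ) =
        (((σ ^ i) x : ↥(K₀ ⊔ B (n + 1))) : ℂ) := by
    intro i
    induction i with
    | zero =>
      intro x
      rw [pow_zero, pow_zero, AlgEquiv.one_apply, AlgEquiv.one_apply]
    | succ i ih =>
      intro x
      rw [pow_succ, pow_succ, AlgEquiv.mul_apply, AlgEquiv.mul_apply, ← ih (σ x)]
      congr 2
      exact Subtype.ext (hτ x)
  -- the groups
  have d1 := hX.b.deg n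
  have d2 : Module.finrank ℚ ↥(K ⊔ B n) = Module.finrank ℚ ↥(K ⊔ B 1) * p ^ (n - 1) := by
    have := hX.b.deg (n - 1)
    rwa [Nat.sub_add_cancel hn1] at this
  have d3 := hX.b0.deg (n + 1)
  have d4 := hX.b0.deg n
  have d5 : p ^ n = p ^ (n - 1) * p := by rw [← pow_succ, Nat.sub_add_cancel hn1]
  obtain ⟨e, he⟩ := res (A := K₀ ⊔ B n) (A' := K₀ ⊔ B (n + 1)) (hk n) (hk (n + 1)) hL (hk₀ n)
    (hk₀ (n + 1)) (hh n) (hh (n + 1)) hM gL gL'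
    (by
      intro ρ q1 q2
      apply GCC.triv (hk (n + 1)) ρ
      · intro x hx
        exact q1 x ((le_sup_left : K ≤ K ⊔ B n) hx)
      · intro x hx
        exact q2 x ((le_sup_right : B (n + 1) ≤ K₀ ⊔ B (n + 1)) hx))
    (by rw [d1, d2, d3, d4, pow_succ, d5]; ring)
  have fP : Fintype (NC (hk (n + 1)) (K₀ ⊔ B (n + 1))) := Fintype.ofFinite _
  have fQ : Fintype (NC (hk n) (K₀ ⊔ B n)) := Fintype.ofFinite _
  have pr1 : ∀ x : ↥(K ⊔ B n), ((∏ g : NC (hk (n + 1)) (K₀ ⊔ B (n + 1)),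
      (g : ↥(K ⊔ B (n + 1)) ≃ₐ[k] ↥(K ⊔ B (n + 1))) ⟨(x : ℂ), hL x.2⟩ : ↥(K ⊔ B (n + 1))) : ℂ) =
      ∏ g : NC (hk n) (K₀ ⊔ B n), (((g : ↥(K ⊔ B n) ≃ₐ[k] ↥(K ⊔ B n)) x : ↥(K ⊔ B n)) : ℂ) := by
    intro x
    refine (map_prod (K ⊔ B (n + 1)).val _ _).trans ?_
    exact Fintype.prod_equiv e _ _ (fun g => (he g x).symm)
  -- `c₀ (n + 1)` and `c₀ n`
  have hc' : (⟨c₀ (n + 1), hh (n + 1) (hI.mem₀ (n + 1))⟩ : ↥(K ⊔ B (n + 1))) =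
      ∏ g : NC (hk (n + 1)) (K₀ ⊔ B (n + 1)),
        (g : ↥(K ⊔ B (n + 1)) ≃ₐ[k] ↥(K ⊔ B (n + 1))) ⟨c (n + 1), hI.mem (n + 1)⟩ := by
    apply Subtype.ext
    refine Eq.trans ?_ (map_prod (K ⊔ B (n + 1)).val _ _).symm
    have h5 := hI.norm (n + 1)
    rw [finprod_eq_prod_of_fintype] at h5
    exact h5
  have hc : c₀ n = ∏ g : NC (hk n) (K₀ ⊔ B n),
      (((g : ↥(K ⊔ B n) ≃ₐ[k] ↥(K ⊔ B n)) ⟨c n, hI.mem n⟩ : ↥(K ⊔ B n)) : ℂ) := by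
    have h5 := hI.norm n
    rw [finprod_eq_prod_of_fintype] at h5
    exact h5
  -- the constant
  have hCL : C ∈ K ⊔ B (n + 1) := (le_sup_left : K ≤ K ⊔ B (n + 1)) hC
  let y : ↥(K ⊔ B (n + 1)) := ∏ g : NC (hk (n + 1)) (K₀ ⊔ B (n + 1)),
    (g : ↥(K ⊔ B (n + 1)) ≃ₐ[k] ↥(K ⊔ B (n + 1))) ⟨C, hCL⟩
  have hyK : (y : ℂ) ∈ K := by
    let aKL : Algebra K ↥(K ⊔ B (n + 1)) := algC le_sup_left
    have tKL := towerC hX.b.hk (le_sup_left : K ≤ K ⊔ B (n + 1))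
    have e1 : (y : ℂ) = ∏ g : NC (hk (n + 1)) (K₀ ⊔ B (n + 1)),
        (((g : ↥(K ⊔ B (n + 1)) ≃ₐ[k] ↥(K ⊔ B (n + 1))) ⟨C, hCL⟩ : ↥(K ⊔ B (n + 1))) : ℂ) :=
      map_prod (K ⊔ B (n + 1)).val _ _
    rw [e1]
    refine prod_mem fun g _ => ?_
    have q2 : ∀ z : K, algebraMap K ↥(K ⊔ B (n + 1)) z =
        ⟨(z : ℂ), (le_sup_left : K ≤ K ⊔ B (n + 1)) z.2⟩ := fun z => rfl
    have e2 := AlgEquiv.restrictNormal_commutes
      (g : ↥(K ⊔ B (n + 1)) ≃ₐ[k] ↥(K ⊔ B (n + 1))) ↥K ⟨C, hC⟩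
    rw [q2, q2] at e2
    have e3 : (((g : ↥(K ⊔ B (n + 1)) ≃ₐ[k] ↥(K ⊔ B (n + 1))) ⟨C, hCL⟩ :
        ↥(K ⊔ B (n + 1))) : ℂ) = ((AlgEquiv.restrictNormal
          (g : ↥(K ⊔ B (n + 1)) ≃ₐ[k] ↥(K ⊔ B (n + 1))) ↥K ⟨C, hC⟩ : ↥K) : ℂ) :=
      (congrArg Subtype.val e2).symm
    rw [e3]
    exact Subtype.mem _
  have hyM : (y : ℂ) ∈ K₀ ⊔ B (n + 1) := by
    apply mem_of_fixed (hk (n + 1)) (hk₀ (n + 1)) gL' y
    intro s hs
    show s (∏ g : NC (hk (n + 1)) (K₀ ⊔ B (n + 1)),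
      (g : ↥(K ⊔ B (n + 1)) ≃ₐ[k] ↥(K ⊔ B (n + 1))) ⟨C, hCL⟩) = _
    rw [map_prod]
    exact Fintype.prod_equiv
      (Equiv.mulLeft (⟨s, hs⟩ : NC (hk (n + 1)) (K₀ ⊔ B (n + 1)))) _ _ (fun g => rfl)
  have hkB : k ≤ K₀ ⊔ B 1 := hX.b0.hk.trans le_sup_left
  have hy : (y : ℂ) ∈ K₀ ⊔ B 1 := by
    refine mem_of_fixed (hk₀ (n + 1)) hkB gM' (⟨(y : ℂ), hyM⟩ : ↥(K₀ ⊔ B (n + 1))) ?_
    intro ρ hρ
    obtain ⟨ρ', hρ1, hρ2⟩ := h4 p k K₀ K B hX.b0 hX.b hX.le (n + 1) (Nat.le_add_left 1 n)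
      (hk (n + 1)) (hk₀ (n + 1)) (hh (n + 1)) ρ (fun x hx => hρ x hx)
    apply Subtype.ext
    rw [← hρ2 ⟨(y : ℂ), hyM⟩]
    have e4 : (⟨(y : ℂ), hh (n + 1) hyM⟩ : ↥(K ⊔ B (n + 1))) = y := rfl
    rw [e4, hρ1 y ((le_sup_left : K ≤ K ⊔ B 1) hyK)]
  have hy0 : (y : ℂ) ≠ 0 := by
    have h5 : y ≠ 0 := by
      apply Finset.prod_ne_zero_iff.2
      intro g _ h6
      have h7 : (⟨C, hCL⟩ : ↥(K ⊔ B (n + 1))) = 0 := by
        have h8 : (g : ↥(K ⊔ B (n + 1)) ≃ₐ[k] ↥(K ⊔ B (n + 1))) ⟨C, hCL⟩ =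
            (g : ↥(K ⊔ B (n + 1)) ≃ₐ[k] ↥(K ⊔ B (n + 1))) 0 := by rw [h6, map_zero]
        exact (g : ↥(K ⊔ B (n + 1)) ≃ₐ[k] ↥(K ⊔ B (n + 1))).injective h8
      exact hC0 (congrArg Subtype.val h7)
    intro h6
    exact h5 (Subtype.ext h6)
  refine ⟨y, hy, hy0, ?_⟩
  -- the computation
  have s1 : ∏ i ∈ range p, (((σ ^ i) ⟨c₀ (n + 1), hI.mem₀ (n + 1)⟩ : ↥(K₀ ⊔ B (n + 1))) : ℂ) =
      ((∏ i ∈ range p, (τ ^ i) ⟨c₀ (n + 1), hh (n + 1) (hI.mem₀ (n + 1))⟩ :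
        ↥(K ⊔ B (n + 1))) : ℂ) := by
    refine Eq.trans ?_ (map_prod (K ⊔ B (n + 1)).val _ _).symm
    exact Finset.prod_congr rfl fun i _ => (hpow i ⟨c₀ (n + 1), hI.mem₀ (n + 1)⟩).symm
  have s2 : (∏ i ∈ range p, (τ ^ i) ⟨c (n + 1), hI.mem (n + 1)⟩ : ↥(K ⊔ B (n + 1))) =
      ⟨C, (le_sup_left : K ≤ K ⊔ B (n + 1)) hC⟩ * ⟨c n, hL (hI.mem n)⟩ := by
    apply Subtype.ext
    refine (map_prod (K ⊔ B (n + 1)).val _ _).trans ?_
    exact hCe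
  have s3 : (∏ i ∈ range p, (τ ^ i) ⟨c₀ (n + 1), hh (n + 1) (hI.mem₀ (n + 1))⟩ :
        ↥(K ⊔ B (n + 1))) =
      (∏ g : NC (hk (n + 1)) (K₀ ⊔ B (n + 1)), (g : ↥(K ⊔ B (n + 1)) ≃ₐ[k] ↥(K ⊔ B (n + 1)))
        ⟨C, (le_sup_left : K ≤ K ⊔ B (n + 1)) hC⟩) *
      ∏ g : NC (hk (n + 1)) (K₀ ⊔ B (n + 1)), (g : ↥(K ⊔ B (n + 1)) ≃ₐ[k] ↥(K ⊔ B (n + 1)))
        ⟨c n, hL (hI.mem n)⟩ := by
    rw [hc', ← Finset.prod_mul_distrib]
    simp only [map_prod]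
    rw [Finset.prod_comm]
    refine Finset.prod_congr rfl fun g _ => ?_
    rw [← map_mul, ← s2, map_prod]
    refine Finset.prod_congr rfl fun i _ => ?_
    rw [← AlgEquiv.mul_apply, ← AlgEquiv.mul_apply, cL']
  have hcoe : ∀ (x y : ↥(K ⊔ B (n + 1))), ((x * y : ↥(K ⊔ B (n + 1))) : ℂ) = (x : ℂ) * (y : ℂ) :=
    fun x y => rfl
  rw [s1, s3, hcoe, pr1 ⟨c n, hI.mem n⟩, ← hc]

end Pool.Agent.N2IR


end

section

/-!
# MUX-2R, block IR, module NRXY: the norm relation from `K₀_n` to `K₀_m`, constants in `K₀ B_1` (adapted from `NS/I_NRX.lean`)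
-/

set_option autoImplicit false

open NumberField IsDedekindDomain Finset
open scoped nonZeroDivisors Pointwise

namespace Pool.Agent.N2IR

open _root_.MU3 _root_.Pool.Agent.MU3 _root_.Pool.Agent.MU3A _root_.Pool.Agent.MU3B _root_.Pool.Agent.RI _root_.Pool.Agent.RID
  _root_.Pool.Agent.MUX _root_.Pool.Agent.MUXK _root_.Pool.Agent.MUXI _root_.Pool.Agent.NSI _root_.Pool.Agent.N2
open _root_.Pool.Agent.MU3I (w3 zt)

namespace NRXYx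

/-- the abstract step: the product over `p a` elements -/
theorem step {k L : Type} [Field k] [Field L] [Algebra k L] (g : L ≃ₐ[k] L) (q a p : ℕ)
    (c x C : L) (hC : (g ^ q) C = C) (h : ∏ j ∈ range p, ((g ^ (q * a)) ^ j) c = C * x) :
    ∏ i ∈ range (p * a), (g ^ (q * i)) c = C ^ a * ∏ i ∈ range a, (g ^ (q * i)) x := by
  have hCn : ∀ n : ℕ, (g ^ (q * n)) C = C := by
    intro n
    rw [pow_mul]
    induction n with
    | zero => rfl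
    | succ n ih => rw [pow_succ, AlgEquiv.mul_apply, hC, ih]
  rw [K_NRX.prod_mul]
  have h1 : ∀ i ∈ range a, ∏ j ∈ range p, (g ^ (q * (j * a + i))) c = C * (g ^ (q * i)) x := by
    intro i _
    have h2 : ∀ j ∈ range p, (g ^ (q * (j * a + i))) c =
        (g ^ (q * i)) (((g ^ (q * a)) ^ j) c) := by
      intro j _
      rw [← AlgEquiv.mul_apply, ← pow_mul, ← pow_add]
      congr 2
      ring
    rw [Finset.prod_congr rfl h2, ← map_prod, h, map_mul, hCn]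
  rw [Finset.prod_congr rfl h1, Finset.prod_mul_distrib, Finset.prod_const, Finset.card_range]

end NRXYx

/-- the norm relation -/
theorem tr_NRXY (h1 : Sr_NR1Y) (h2 : S_RSX) : Sr_NRXY := by
  intro p _ k K₀ K B _ _ _ _ hS hk hk₀ S c c₀ n₁ hI m n hm hm1 hmn
  have hfin : FiniteDimensional ℚ K₀ :=
    FiniteDimensional.of_injective (IntermediateField.inclusion hS.le).toLinearMap
      (IntermediateField.inclusion hS.le).injective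
  induction n, hmn using Nat.le_induction with
  | base =>
    intro γ hγ
    refine ⟨1, one_mem _, one_ne_zero, ?_⟩
    rw [Nat.sub_self, pow_zero, Finset.prod_range_one, mul_zero, pow_zero, one_mul]
    rfl
  | succ n hmn ih =>
    intro γ hγ
    have hle : K₀ ⊔ B n ≤ K₀ ⊔ B (n + 1) := sup_le_sup le_rfl (hS.b0.mono (Nat.le_succ n))
    obtain ⟨r, hr, hfix, -⟩ := h2 p k K₀ B hS.b0 hS.cop n (n + 1) (Nat.le_succ n) (hk₀ (n + 1))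
      (hk₀ n) hle
    obtain ⟨hf1, hf2⟩ := hfix γ hγ
    obtain ⟨C, hC, hC0, hCe⟩ := h1 p k K₀ K B hS hk hk₀ S c c₀ n₁ hI n (hm.trans hmn) (hm1.trans hmn)
      (γ ^ (p ^ n)) hf2
    obtain ⟨C', hC', hC0', hCe'⟩ := ih (r γ) hf1
    let _ := algC (hk₀ (n + 1))
    let _ := algC (hk₀ n)
    have hq : p ^ m * p ^ (n - m) = p ^ n := by
      rw [← pow_add]
      congr 1
      omega
    have hr3 : p ^ (n + 1 - m) = p * p ^ (n - m) := by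
      rw [Nat.sub_add_comm hmn, pow_succ, mul_comm]
    have hCm : C ∈ K₀ ⊔ B m := (sup_le_sup le_rfl (hS.b0.mono hm1) : K₀ ⊔ B 1 ≤ K₀ ⊔ B m) hC
    have hlem : K₀ ⊔ B m ≤ K₀ ⊔ B (n + 1) :=
      sup_le_sup le_rfl (hS.b0.mono (hmn.trans (Nat.le_succ n)))
    have hCmem : C ∈ K₀ ⊔ B (n + 1) := hlem hCm
    obtain ⟨rm, hrm, hfixm, -⟩ := h2 p k K₀ B hS.b0 hS.cop m (n + 1) (hmn.trans (Nat.le_succ n))
      (hk₀ (n + 1)) (hk₀ m) hlem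
    have hgm := (hfixm γ hγ).2
    have hstep := NRXYx.step γ (p ^ m) (p ^ (n - m)) p
      (⟨c₀ (n + 1), hI.mem₀ (n + 1)⟩ : ↥(K₀ ⊔ B (n + 1)))
      (⟨c₀ n, hle (hI.mem₀ n)⟩ : ↥(K₀ ⊔ B (n + 1))) (⟨C, hCmem⟩ : ↥(K₀ ⊔ B (n + 1)))
      ((hgm _).mpr hCm) (by
        rw [hq]
        apply Subtype.ext
        have e0 : ((∏ j ∈ range p, ((γ ^ (p ^ n)) ^ j) (⟨c₀ (n + 1), hI.mem₀ (n + 1)⟩ :
            ↥(K₀ ⊔ B (n + 1))) : ↥(K₀ ⊔ B (n + 1))) : ℂ) =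
            ∏ j ∈ range p, ((((γ ^ (p ^ n)) ^ j) (⟨c₀ (n + 1), hI.mem₀ (n + 1)⟩ :
            ↥(K₀ ⊔ B (n + 1))) : ↥(K₀ ⊔ B (n + 1))) : ℂ) :=
          map_prod (K₀ ⊔ B (n + 1)).val _ _
        exact e0.trans hCe)
    refine ⟨C ^ (p ^ (n - m)) * C', mul_mem (pow_mem hC _) hC',
      mul_ne_zero (pow_ne_zero _ hC0) hC0', ?_⟩
    rw [hr3, hstep]
    have hprod : ((∏ i ∈ range (p ^ (n - m)), (γ ^ (p ^ m * i)) (⟨c₀ n, hle (hI.mem₀ n)⟩ :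
        ↥(K₀ ⊔ B (n + 1))) : ↥(K₀ ⊔ B (n + 1))) : ℂ) = C' * c₀ m := by
      rw [← hCe']
      have e1 : ((∏ i ∈ range (p ^ (n - m)), (γ ^ (p ^ m * i)) (⟨c₀ n, hle (hI.mem₀ n)⟩ :
          ↥(K₀ ⊔ B (n + 1))) : ↥(K₀ ⊔ B (n + 1))) : ℂ) =
          ∏ i ∈ range (p ^ (n - m)), (((γ ^ (p ^ m * i)) (⟨c₀ n, hle (hI.mem₀ n)⟩ :
          ↥(K₀ ⊔ B (n + 1))) : ↥(K₀ ⊔ B (n + 1))) : ℂ) :=
        map_prod (K₀ ⊔ B (n + 1)).val _ _
      have e2 : ((∏ i ∈ range (p ^ (n - m)), ((r γ) ^ (p ^ m * i)) (⟨c₀ n, hI.mem₀ n⟩ :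
          ↥(K₀ ⊔ B n)) : ↥(K₀ ⊔ B n)) : ℂ) =
          ∏ i ∈ range (p ^ (n - m)), ((((r γ) ^ (p ^ m * i)) (⟨c₀ n, hI.mem₀ n⟩ :
          ↥(K₀ ⊔ B n)) : ↥(K₀ ⊔ B n)) : ℂ) :=
        map_prod (K₀ ⊔ B n).val _ _
      rw [e1]
      refine Eq.trans ?_ e2.symm
      refine Finset.prod_congr rfl fun i _ => ?_
      rw [← map_pow, hr]
    have hcoe : ∀ (x y : ↥(K₀ ⊔ B (n + 1))),
        ((x * y : ↥(K₀ ⊔ B (n + 1))) : ℂ) = (x : ℂ) * (y : ℂ) :=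
      fun x y => rfl
    rw [hcoe, hprod]
    push_cast
    ring

end Pool.Agent.N2IR


end

section

/-!
# MUX-2R, block IR, module ORDY (helper12): the automorphisms of `K B_(n+1)` with fixed field `K B_n`
-/

set_option autoImplicit false

namespace Pool.Agent.N2IR

open _root_.MU3 _root_.Pool.Agent.MU3 _root_.Pool.Agent.MU3A _root_.Pool.Agent.MU3B _root_.Pool.Agent.RI _root_.Pool.Agent.RID
  _root_.Pool.Agent.MUX _root_.Pool.Agent.MUXK _root_.Pool.Agent.MUXI _root_.Pool.Agent.NSI _root_.Pool.Agent.N2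

noncomputable section

theorem tr_ORDY (h1 : Sr_GALY) : Sr_ORDY := by
  intro p _ k K B _ _ hB n hn h
  have hpr : p.Prime := Fact.out
  obtain ⟨n', rfl⟩ : ∃ n', n = n' + 1 := ⟨n - 1, by omega⟩
  have hle : K ⊔ B (n' + 1) ≤ K ⊔ B (n' + 1 + 1) := sup_le_sup_left (hB.mono (Nat.le_succ _)) K
  have hkA : k ≤ K ⊔ B (n' + 1) := hB.hk.trans le_sup_left
  let akL : Algebra k ↥(K ⊔ B (n' + 1 + 1)) := algC h
  obtain ⟨gal, -⟩ := h1 p k K B hB (n' + 1 + 1) h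
  have fdL := Pool.Agent.FX.fd k ↥(K ⊔ B (n' + 1 + 1))
  have hcard : Nat.card (NC h (K ⊔ B (n' + 1))) = p := by
    have e1 := K_NR1.card_NC h hkA hle gal
    rw [hB.deg (n' + 1), hB.deg n', pow_succ] at e1
    have p1 : 0 < Module.finrank ℚ ↥(K ⊔ B 1) := Module.finrank_pos
    have p2 : 0 < Module.finrank ℚ ↥(K ⊔ B 1) * p ^ n' := Nat.mul_pos p1 (pow_pos hpr.pos _)
    refine Nat.eq_of_mul_eq_mul_right p2 ?_
    rw [e1]
    ring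
  have hmem : ∀ σ : ↥(K ⊔ B (n' + 1 + 1)) ≃ₐ[k] ↥(K ⊔ B (n' + 1 + 1)),
      (∀ x : ↥(K ⊔ B (n' + 1 + 1)), (x : ℂ) ∈ K ⊔ B (n' + 1) → σ x = x) →
      σ ∈ NC h (K ⊔ B (n' + 1)) := fun σ hσ => hσ
  have hgen : ∀ σ : ↥(K ⊔ B (n' + 1 + 1)) ≃ₐ[k] ↥(K ⊔ B (n' + 1 + 1)),
      σ ∈ NC h (K ⊔ B (n' + 1)) → σ ≠ 1 →
      orderOf σ = p ∧ Subgroup.zpowers σ = NC h (K ⊔ B (n' + 1)) := by
    intro σ hσ h1
    have hz : Subgroup.zpowers σ ≤ NC h (K ⊔ B (n' + 1)) := by rwa [Subgroup.zpowers_le]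
    have hd : orderOf σ ∣ p := by
      rw [← Nat.card_zpowers, ← hcard]
      exact Subgroup.card_dvd_of_le hz
    have ho : orderOf σ = p := by
      rcases (Nat.dvd_prime hpr).1 hd with h2 | h2
      · exact absurd (orderOf_eq_one_iff.1 h2) h1
      · exact h2
    refine ⟨ho, ?_⟩
    apply Subgroup.eq_of_le_of_card_ge hz
    rw [hcard, Nat.card_zpowers, ho]
  refine ⟨?_, ?_⟩
  · intro σ hσ hσ1 x
    refine ⟨fun hx => ?_, hσ x⟩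
    obtain ⟨-, hz⟩ := hgen σ (hmem σ hσ) hσ1
    refine K_NR1.mem_of_fixed h hkA gal x ?_
    intro τ hτ
    rw [← hz] at hτ
    obtain ⟨j, hj⟩ := hτ
    have h2 : σ ∈ MulAction.stabilizer
        (↥(K ⊔ B (n' + 1 + 1)) ≃ₐ[k] ↥(K ⊔ B (n' + 1 + 1))) x := hx
    have h4 := zpow_mem h2 j
    have hj' : σ ^ j = τ := hj
    rw [hj'] at h4
    exact h4
  · intro σ hσ
    refine (hgen σ (hmem σ fun x hx => (hσ x).2 hx) ?_).1
    rintro rfl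
    have h7 : K ⊔ B (n' + 1 + 1) ≤ K ⊔ B (n' + 1) := fun z hz => (hσ ⟨z, hz⟩).1 rfl
    have h9 : K ⊔ B (n' + 1 + 1) = K ⊔ B (n' + 1) := le_antisymm h7 hle
    have d1 := hB.deg (n' + 1)
    have d2 := hB.deg n'
    rw [h9, d2, pow_succ] at d1
    have p1 : 0 < Module.finrank ℚ ↥(K ⊔ B 1) := Module.finrank_pos
    have p2 : 0 < Module.finrank ℚ ↥(K ⊔ B 1) * p ^ n' := Nat.mul_pos p1 (pow_pos hpr.pos _)
    have d5 : Module.finrank ℚ ↥(K ⊔ B 1) * p ^ n' * 1 =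
        Module.finrank ℚ ↥(K ⊔ B 1) * p ^ n' * p := by
      rw [mul_one, mul_assoc]
      exact d1
    exact hpr.one_lt.ne (Nat.eq_of_mul_eq_mul_left p2 d5)

end

end Pool.Agent.N2IR


end

section

/-!
# MUX-2R (helper77): the odd sign character, `2` ramified in `k`, `D ≠ -4`

There is a prime `q ≡ 3` modulo 4 which splits in `k`; `κ` is the quadratic character modulo a prime of degree one above `q`.
-/

set_option autoImplicit false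

namespace Pool.Agent.N2

open _root_.MU3 _root_.Pool.Agent.MU3 _root_.Pool.Agent.MU3A _root_.Pool.Agent.MU3B _root_.Pool.Agent.MUX _root_.Pool.Agent.MUX2

noncomputable section

/-- a residue with Jacobi symbol `-1` modulo `n`, `n > 1` odd and squarefree -/
theorem exists_jac_neg {n : ℕ} (hn : Squarefree n) (h2 : n % 2 = 1) (h1 : n ≠ 1) :
    ∃ a : ℕ, jacobiSym a n = -1 := by
  obtain ⟨l, hl, m, rfl⟩ := Nat.exists_prime_and_dvd h1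
  have : Fact l.Prime := ⟨hl⟩
  have hl2 : l ≠ 2 := by
    rintro rfl
    omega
  obtain ⟨s, hs⟩ := FiniteField.exists_nonsquare (F := ZMod l) (by
    rw [ZMod.ringChar_zmod_n]; exact hl2)
  have hcop : Nat.Coprime l m := by
    rw [hl.coprime_iff_not_dvd]
    intro h
    have h3 : l * l ∣ l * m := Nat.mul_dvd_mul_left l h
    have h4 := hn l h3
    rw [Nat.isUnit_iff] at h4
    exact hl.one_lt.ne' h4
  obtain ⟨a, ha1, ha2⟩ := Nat.chineseRemainder hcop s.val 1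
  refine ⟨a, ?_⟩
  have hm0 : m ≠ 0 := by
    rintro rfl
    simp at h2
  have : NeZero l := ⟨hl.ne_zero⟩
  have : NeZero m := ⟨hm0⟩
  rw [jacobiSym.mul_right]
  have e1 : jacobiSym (a : ℤ) l = -1 := by
    rw [← jacobiSym.legendreSym.to_jacobiSym, legendreSym.eq_neg_one_iff]
    have h3 : ((a : ℤ) : ZMod l) = s := by
      have h4 : ((a : ℕ) : ZMod l) = ((s.val : ℕ) : ZMod l) := (ZMod.natCast_eq_natCast_iff _ _ _).2 ha1
      rw [ZMod.natCast_zmod_val] at h4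
      rw [Int.cast_natCast]
      exact h4
    rw [h3]
    exact hs
  have e2 : jacobiSym (a : ℤ) m = 1 := by
    have h3 : ((a : ℤ) % (m : ℤ)) = ((1 : ℤ) % (m : ℤ)) := by
      have := ha2
      unfold Nat.ModEq at this
      exact_mod_cast this
    rw [jacobiSym.mod_left' h3]
    exact jacobiSym.one_left m
  rw [e1, e2, mul_one]

/-- a prime `q ≡ 3` modulo 4 which splits in `k` -/
theorem exists_split {A B : ℤ} (hC : CaseR2 A B) :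
    ∃ (q : ℕ) (r : ℤ), q.Prime ∧ q % 4 = 3 ∧ (q : ℤ) ∣ r ^ 2 - A := by
  have hB := hC.b0
  have hneg := hC.neg
  rw [hB] at hneg
  obtain ⟨hsq, -⟩ := hC.fund0 hB
  rcases hC.mod with h | h
  · -- `A` even
    have hpos : 0 < 1 - A := by omega
    have h4 : (1 - A).toNat % 4 = 3 := by omega
    obtain ⟨q, hq, hq3, hqd⟩ := exists_three_mod_four h4
    refine ⟨q, 1, hq, hq3, ?_⟩
    have h5 : (((1 - A).toNat : ℕ) : ℤ) = 1 - A := Int.toNat_of_nonneg hpos.le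
    have h6 : (q : ℤ) ∣ (((1 - A).toNat : ℕ) : ℤ) := by exact_mod_cast hqd
    rw [h5] at h6
    rwa [one_pow]
  · set n : ℕ := A.natAbs with hn
    have hnA : A = -(n : ℤ) := by omega
    have hn4 : n % 4 = 1 := by omega
    have hn1 : n ≠ 1 := by
      intro h1
      apply hC.exc
      rw [hnA, h1]
      norm_num
    have hsn : Squarefree n := Int.squarefree_natAbs.2 hsq
    obtain ⟨a, ha⟩ := exists_jac_neg hsn (by omega) hn1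
    have hcop4 : Nat.Coprime 4 n := by
      have h3 : Nat.Coprime 2 n := by
        rw [Nat.coprime_two_left, Nat.odd_iff]
        omega
      exact Nat.Coprime.pow_left 2 h3
    obtain ⟨c, hc1, hc2⟩ := Nat.chineseRemainder hcop4 3 a
    have hacop : Nat.Coprime a n := by
      by_contra h3
      have h4 : jacobiSym a n = 0 := by
        have : NeZero n := ⟨by omega⟩
        rw [jacobiSym.eq_zero_iff_not_coprime]
        simpa [Int.gcd_natCast_natCast] using h3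
      rw [h4] at ha
      norm_num at ha
    have hccop : Nat.Coprime c (4 * n) := by
      refine Nat.Coprime.mul_right ?_ ?_
      · have h3 : Nat.gcd c 4 = Nat.gcd 3 4 := by
          exact Nat.ModEq.gcd_eq hc1
        unfold Nat.Coprime
        rw [h3]
        norm_num
      · have h3 : Nat.gcd c n = Nat.gcd a n := Nat.ModEq.gcd_eq hc2
        unfold Nat.Coprime
        rw [h3]
        exact hacop
    have : NeZero (4 * n) := ⟨by omega⟩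
    obtain ⟨q, -, hq, hqc⟩ := Nat.forall_exists_prime_gt_and_eq_mod
      (q := 4 * n) (a := ((c : ℕ) : ZMod (4 * n))) ((ZMod.isUnit_iff_coprime c (4 * n)).2 hccop) 0
    have hq1 : q ≡ c [MOD 4 * n] := (ZMod.natCast_eq_natCast_iff _ _ _).1 hqc
    have hq4 : q ≡ 3 [MOD 4] := (Nat.ModEq.of_mul_right n hq1).trans hc1
    have hqn : q ≡ a [MOD n] := (Nat.ModEq.of_mul_left 4 hq1).trans hc2
    have hq3 : q % 4 = 3 := by
      have := hq4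
      unfold Nat.ModEq at this
      omega
    have : Fact q.Prime := ⟨hq⟩
    have hqo : Odd q := by rw [Nat.odd_iff]; omega
    have j1 : jacobiSym (n : ℤ) q = -1 := by
      rw [jacobiSym.quadratic_reciprocity_one_mod_four hn4 hqo]
      have h3 : ((q : ℤ) % (n : ℤ)) = ((a : ℤ) % (n : ℤ)) := by
        have := hqn
        unfold Nat.ModEq at this
        exact_mod_cast this
      rw [jacobiSym.mod_left' h3]
      exact ha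
    have j2 : jacobiSym A q = 1 := by
      rw [hnA, jacobiSym.neg _ hqo, j1, ZMod.χ₄_nat_three_mod_four hq3]
      norm_num
    rw [← jacobiSym.legendreSym.to_jacobiSym] at j2
    have hA0 : ((A : ℤ) : ZMod q) ≠ 0 := by
      intro h0
      rw [(legendreSym.eq_zero_iff q A).2 h0] at j2
      norm_num at j2
    obtain ⟨y, hy⟩ := (legendreSym.eq_one_iff q hA0).1 j2
    refine ⟨q, (y.val : ℤ), hq, hq3, ?_⟩
    rw [← ZMod.intCast_zmod_eq_zero_iff_dvd]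
    push_cast
    rw [ZMod.natCast_zmod_val, hy]
    ring

theorem sq_KAP : SQ_KAP := by
  intro A B hC
  obtain ⟨q, r, hq, hq3, hr⟩ := exists_split hC
  have hB := hC.b0
  subst hB
  have hneg := hC.neg
  have hmod := hC.mod
  obtain ⟨hsq, -⟩ := hC.fund0 rfl
  have hq2 : q ≠ 2 := by rintro rfl; norm_num at hq3
  have : Fact q.Prime := ⟨hq⟩
  set n : ℕ := if A % 4 = 3 then A.natAbs else A.natAbs / 2 with hn
  have hn2 : n % 2 = 1 := by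
    rw [hn]
    split_ifs <;> omega
  have hnD : absD A 0 ∣ 8 * (n : ℤ) := by
    have e1 : absD A 0 = 4 * (A.natAbs : ℤ) := by
      unfold absD
      omega
    rw [e1, hn]
    split_ifs with h
    · exact ⟨2, by ring⟩
    · refine ⟨1, ?_⟩
      have : (A.natAbs : ℤ) = 2 * ((A.natAbs / 2 : ℕ) : ℤ) := by omega
      push_cast at this ⊢
      linarith
  refine ⟨3 * q * n, ?_, ?_, ?_, ?_⟩
  · refine mul_ne_zero (mul_ne_zero (by norm_num) hq.ne_zero) ?_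
    omega
  · intro h
    rcases (Nat.Prime.dvd_mul Nat.prime_two).1 h with h1 | h1
    · rcases (Nat.Prime.dvd_mul Nat.prime_two).1 h1 with h3 | h3
      · norm_num at h3
      · exact hq2 ((Nat.prime_dvd_prime_iff_eq Nat.prime_two hq).1 h3).symm
    · omega
  · obtain ⟨t, ht⟩ := hnD
    refine ⟨q * t, ?_⟩
    push_cast
    linear_combination (3 * (q : ℤ)) * ht
  have hw : (r : ZMod q) * (r : ZMod q) = (A : ZMod q) := by
    have h1 := (ZMod.intCast_zmod_eq_zero_iff_dvd _ q).2 hr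
    push_cast at h1
    linear_combination h1
  -- the homomorphism `w ↦ r`
  let φ : OO A 0 → ZMod q := fun x => (x.re : ZMod q) + (x.im : ZMod q) * (r : ZMod q)
  have φmul : ∀ x y, φ (x * y) = φ x * φ y := by
    intro x y
    simp only [φ, QuadraticAlgebra.re_mul, QuadraticAlgebra.im_mul]
    push_cast
    linear_combination (-(x.im : ZMod q) * (y.im : ZMod q)) * hw
  have r1 : (1 : OO A 0).re = 1 := rfl
  have i1 : (1 : OO A 0).im = 0 := rfl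
  have φone : φ 1 = 1 := by
    simp only [φ, r1, i1]; push_cast; ring
  have φneg : φ (-1) = -1 := by
    simp only [φ, QuadraticAlgebra.re_neg, QuadraticAlgebra.im_neg, r1, i1]; push_cast; ring
  have φsub : ∀ x y, φ (x - y) = φ x - φ y := by
    intro x y
    simp only [φ, QuadraticAlgebra.re_sub, QuadraticAlgebra.im_sub]
    push_cast; ring
  have φadd : ∀ x y, φ (x + y) = φ x + φ y := by
    intro x y
    simp only [φ, QuadraticAlgebra.re_add, QuadraticAlgebra.im_add]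
    push_cast; ring
  have φD : ∀ x, x ∈ idl (A := A) (B := 0) (3 * q * n) → φ x = 0 := by
    intro x hx
    obtain ⟨c, rfl⟩ := Ideal.mem_span_singleton'.1 hx
    rw [φmul]
    have h1 : φ (((3 * q * n : ℕ) : ℕ) : OO A 0) = 0 := by
      have h2 : ((((3 * q * n : ℕ) : ℕ) : OO A 0)).re = ((3 * q * n : ℕ) : ℤ) := by
        rw [QuadraticAlgebra.re_natCast]
      have h3 : ((((3 * q * n : ℕ) : ℕ) : OO A 0)).im = 0 := by
        rw [QuadraticAlgebra.im_natCast]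
      simp only [φ, h2, h3]
      push_cast
      rw [ZMod.natCast_self]
      ring
    rw [h1, mul_zero]
  refine ⟨fun x => quadraticChar (ZMod q) (φ x), ⟨?_, ?_, ?_, ?_, ?_⟩⟩
  · simp only [φone, map_one]
  · intro x y; simp only [φmul, map_mul]
  · simp only [φneg]
    rw [quadraticChar_neg_one (by rw [ZMod.ringChar_zmod_n]; exact hq2), ZMod.card]
    exact ZMod.χ₄_nat_three_mod_four hq3
  · intro x y hxy
    have h1 := φD _ hxy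
    rw [φsub, sub_eq_zero] at h1
    simp only [h1]
  · intro x hx
    have h1 : φ x ≠ 0 := by
      intro h0
      obtain ⟨a, ha, b, hb, hab⟩ := Ideal.isCoprime_iff_exists.1 hx
      obtain ⟨c, rfl⟩ := Ideal.mem_span_singleton'.1 ha
      have h2 : φ (c * x + b) = 1 := by rw [hab, φone]
      rw [φadd, φmul, h0, mul_zero, zero_add, φD b hb] at h2
      exact zero_ne_one h2
    exact quadraticChar_dichotomy h1

end

end Pool.Agent.N2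


end

section

/-!
# MUX-2R, block IR, module INP (helper36): the inputs of block K
-/

set_option autoImplicit false

namespace Pool.Agent.N2IR

open _root_.MU3 _root_.Pool.Agent.MU3 _root_.Pool.Agent.MU3A _root_.Pool.Agent.MU3B _root_.Pool.Agent.RI _root_.Pool.Agent.RID
  _root_.Pool.Agent.MUX _root_.Pool.Agent.MUXK _root_.Pool.Agent.MUXI _root_.Pool.Agent.NSI _root_.Pool.Agent.N2

noncomputable section

/-- (INP) the inputs of block K -/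
theorem tr_INP (h1 : Sr_I31) (h2 : Sr_LEM1Y) (h3 : Sr_NRXY) : Sr_INP := by
  intro A B P V f hS hTor ι iι R u el a1 a3 hG K₀ K Bn ik iK iKB hX hKT hk hk₀ hkK S c c₀ n₁ hW C
    hE hc₀
  have iP : Fact (Nat.Prime 2) := ⟨Nat.prime_two⟩
  have iK₀ : FiniteDimensional ℚ K₀ := Pool.Agent.NSI.INP.fd hX.le
  have iKB₀ : ∀ n, FiniteDimensional ℚ ↥(K₀ ⊔ Bn n) := fun n =>
    Pool.Agent.NSI.INP.fd (E' := K ⊔ Bn n) (sup_le_sup_right hX.le _)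
  have hNr := h3 2 (kk A B) K₀ K Bn hX hk hk₀ S c c₀ n₁ hW
  have hI3 : ∀ (χ : (letI := algC hkK; (↥K₀ ≃ₐ[kk A B] ↥K₀) →*
      (IsLocalRing.ResidueField V)ˣ)) (N n₀ : ℕ), ∃ n, n₀ ≤ n ∧
      I3At (IsLocalRing.ResidueField V) 2 (kk A B) K₀ Bn hkK χ N n (hk₀ n) (c₀ n)
        (hW.mem₀ n) := by
    intro χ N n₀
    refine h2 (IsLocalRing.ResidueField V) 2 (kk A B) K₀ Bn hX.b0 hX.cop hX.om hk₀ hkK c₀ hW.mem₀
      (Pool.Agent.NSI.INP.c_ne hW) n₁ hNr χ (fun n₀ => ?_) N n₀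
    exact h1 A B P V f hS hTor ι R u el a1 a3 hG K₀ Bn hX.b0 hX.cop hKT hk₀ hkK C hE c₀ hW.mem₀
      hc₀ χ n₀
  exact
    { mem := hW.mem
      ne := hW.ne
      mem₀ := hW.mem₀
      norm := hW.norm
      prime := hW.prime
      su := hW.su
      nrm := hW.nrm
      kol := hW.kol
      i3 := hI3 }

end

end Pool.Agent.N2IR


end
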