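import Mathlib
import Pool.Agent.MVF.C041
import Pool.Agent.MVF.C044
import Pool.Agent.MVF.C068

/-! Parts: MUX.StJU, MUX.StJU2, MUX.J_SETU, MUX.J_K0U, MUX.J_LDU -/

namespace Pool.Agent.MUXJ.K0U
end Pool.Agent.MUXJ.K0U

section

/-!
# MUX, block J, `p = 2` ramified in `k`: first part (helper34)

The field theory of the last glue for `p = 2` ramified in `k` (`e = 2`). The new point: the first layer `ℚ(√2)` may be contained in the field `K = K₀(i) RF(⊤)`; the second layer is not. These statements do not use the new field structures of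
block K (`StKY.lean`); the others (`SETU`, `FINGU`) are in `StJU2.lean`.
-/

set_option autoImplicit false

open NumberField IsDedekindDomain
open scoped nonZeroDivisors Pointwise

namespace Pool.Agent.MUXJ

open _root_.MU3 _root_.Pool.Agent.MU3 _root_.Pool.Agent.MU3A _root_.Pool.Agent.MU3B _root_.Pool.Agent.RI _root_.Pool.Agent.RID
  _root_.Pool.Agent.MUX _root_.Pool.Agent.MUXK

noncomputable section

/-- The prime `P` above `2` (any behaviour of `2` in `k`) and the valuation ring `V` above `P`. -/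
structure AboU (A B : ℤ) (P : Ideal (OO A B)) (V : ValuationSubring ℂ) : Prop where
  cq : CQ A B
  prime : P.IsPrime
  mem : ((2 : ℕ) : OO A B) ∈ P
  hV : OverI V P
  hp : (2 : ℂ) ∈ V.nonunits

/-- JRAMU: the inertia group of a field which contains the roots of unity of order 16.
PROOF. `J_RAMG.lean` with `16` in place of `q0 p * p` (`φ(16) = 8`; `e = 2`): `w = {x ∈ 𝓞 F : v x < 1}`, `w ∩ 𝓞 k = P`, the inertia group has order `e(w | P)`; `e(w | 2) = e(w | P) e(P | 2)` is a multiple of `8`, because `2` is totally ramified in `ℚ(μ_16)`, and `e(P | 2)` is `1` or `2`. -/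
def Sj_RAMU : Prop := ∀ (A B : ℤ) (P : Ideal (OO A B)) (V : ValuationSubring ℂ),
    AboU A B P V →
    ∀ (F : IntermediateField (kk A B) ℂ) [FiniteDimensional (kk A B) F] [IsGalois (kk A B) F],
    (∃ ζ ∈ F, IsPrimitiveRoot ζ 16) →
    8 ∣ 2 * Nat.card {σ : F ≃ₐ[kk A B] F //
      ∀ x : F, V.valuation (x : ℂ) ≤ 1 → V.valuation ((σ x : ℂ) - x) < 1}

/-- JROTU: the second layer and the roots of unity of order 4.
Uses Sj_LAY. PROOF. The second layer is `ℚ(t)`, `t = ζ + ζ⁻¹`, `ζ = zt 16` (`J_LAY.lean`: `uniq2`, `B2`). `t² - 2 = ζ² + ζ⁻²`, `(t² - 2)² = 2`; `s = (t² - 2)/t ∈ K` satisfies `(ζ - ζ⁻¹)² = t² - 4 = -(4 - t²)` and `s² = 2/t² = 4 - t²` (as `t² (4 - t²) = 4 - (t² - 2)² = 2`). So `ζ - ζ⁻¹ = ± i s` and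
`ζ = (t ± i s)/2 ∈ K`, `i` a primitive fourth root of unity in `K`. -/
def Sj_ROTU : Prop := ∀ (B K : IntermediateField ℚ ℂ), IsLayer 2 2 B →
    B ≤ K → (∃ ζ ∈ K, IsPrimitiveRoot ζ 4) → ∃ ζ ∈ K, IsPrimitiveRoot ζ 16

/-- JLDU: a field which contains the layer `s` but not the layer `s + 1`.
PROOF. As `J_LDX.lean` (`ldx_gen`): `B n / ℚ` is Galois and cyclic of order `p^n`, its subfields are the `B i`, `i ≤ n`, so `K ⊓ B n = B s` for `n ≥ s`, and `[K B n : K] = [B n : K ⊓ B n] = p^(n - s)`. -/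
def Sj_LDU : Prop := ∀ (p : ℕ) [Fact p.Prime] (K : IntermediateField ℚ ℂ)
    (B : ℕ → IntermediateField ℚ ℂ) [FiniteDimensional ℚ K], (∀ n, IsLayer p n (B n)) →
    Monotone B → ∀ s : ℕ, B s ≤ K → ¬ B (s + 1) ≤ K →
    ∀ n, s ≤ n → Module.finrank ℚ ↥(K ⊔ B n) * p ^ s = Module.finrank ℚ K * p ^ n

/-- JK0U: fields of odd degree over `k` do not contain the first layer.
PROOF. Suppose `B₁ ≤ K₀`. `k B₁ ≤ K₀`, so the degree of `k B₁` over `k` divides the degree of `K₀` over `k`, which is odd; it is at most `[B₁ : ℚ] = 2`, so it is `1`: `B₁ ≤ k`; both have degree `2` over `ℚ` (`k = ℚ(w)`, `w² = A + B w`; or: `B₁ ≤ k` and `[k : ℚ] ≤ 2`), so `B₁ = k`, but `B₁` is real (`IsLayer`) and `wC A B ∈ k` is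
not real (`absD > 0`). -/
def Sj_K0U : Prop := ∀ (A B : ℤ), CQ A B → ∀ (K₀ : IntermediateField ℚ ℂ)
    [FiniteDimensional ℚ K₀] (hk : kk A B ≤ K₀),
    ¬ 2 ∣ Module.finrank (kk A B) (IntermediateField.extendScalars hk) →
    ∀ B₁ : IntermediateField ℚ ℂ, IsLayer 2 1 B₁ → ¬ B₁ ≤ K₀

end

end Pool.Agent.MUXJ


end

section

/-!
# MUX, block J, `p = 2` ramified in `k`: second part (helper34)

The statements which use the field structures `BasY`, `SetY`, `InpGY` of `Pool/Agent/N2/DefsR2.lean` (the degrees are counted from the first layer, which may be contained in `K`).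
-/

set_option autoImplicit false

open NumberField IsDedekindDomain
open scoped nonZeroDivisors Pointwise

namespace Pool.Agent.MUXJ

open _root_.MU3 _root_.Pool.Agent.MU3 _root_.Pool.Agent.MU3A _root_.Pool.Agent.MU3B _root_.Pool.Agent.RI _root_.Pool.Agent.RID
  _root_.Pool.Agent.MUX _root_.Pool.Agent.MUXK
open _root_.Pool.Agent.N2 (BasY SetY InpGY)

noncomputable section

/-- MAINKY: `S_MAINKX` with `SetY` in place of `SetX` (block K, `StKY.lean`, helper66). -/
def S_MAINKY : Prop := ∀ (F : Type) [Field F] (p : ℕ) [Fact p.Prime] [CharP F p] [IsAlgClosed F]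
    (k K₀ K : IntermediateField ℚ ℂ) (B : ℕ → IntermediateField ℚ ℂ)
    [FiniteDimensional ℚ k] [FiniteDimensional ℚ K] [∀ n, FiniteDimensional ℚ ↥(K ⊔ B n)],
    SetY p k K₀ K B →
    ∀ (hk : ∀ n, k ≤ K ⊔ B n) (hk₀ : ∀ n, k ≤ K₀ ⊔ B n)
    (hkK : k ≤ K₀) (S : Finset ℕ) (c c₀ : ℕ → ℂ) (n₁ : ℕ),
    InpX F p k K₀ K B hk hk₀ hkK S c c₀ n₁ →
    ∃ C : ℕ, ∀ n, padicValNat p (classNo (K₀ ⊔ B n)) ≤ C * (n + 1) ^ 2

/-- JSETU: the large field `K`, `p = 2`, any prime above `2`.
Uses Sj_DIR, Sj_RAMU, Sj_INJ, Sj_ROTU, Sj_LDX, Sj_LDU, Sj_GAL, Sj_LEVG, Sj_K0U. PROOF. `J_SETG.lean`: `K = K₀(i) RF(⊤)`. If `B₂ ≤ K` then `8 ∣ 2 |I| ∣ 2 [K₀(i) : k]` and `[K₀(i) : k]` is `1` or `2` times an odd number, false. `deg` by `Sj_LDU` with `s = 1` if `B₁ ≤ K`, otherwise `s = 0`. -/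
def Sj_SETU : Prop := ∀ (d : ℕ) (A B : ℤ) (P : Ideal (OO A B)) (V : ValuationSubring ℂ),
    AboU A B P V → d ≠ 0 → ¬ 2 ∣ d → UnrH A B V → TorX A B → NLex A B →
    ∀ (K₀ : IntermediateField ℚ ℂ) [FiniteDimensional ℚ K₀] (hk : kk A B ≤ K₀),
    ¬ 2 ∣ Module.finrank (kk A B) (IntermediateField.extendScalars hk) → TorU A B K₀ →
    ∀ (Bn : ℕ → IntermediateField ℚ ℂ), (∀ n, IsLayer 2 n (Bn n)) → Monotone Bn →
    ∃ (K : IntermediateField ℚ ℂ) (_ : FiniteDimensional ℚ K) (f : ℕ),
      SetY 2 (kk A B) K₀ K Bn ∧ f ≠ 0 ∧ ¬ 2 ∣ f ∧ d ∣ f ∧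
      (∀ y ∈ K, y ∈ RF (idl (A := A) (B := B) (lvX 2 f 0))) ∧
      ∀ y ∈ RF (⊤ : Ideal (OO A B)), y ∈ K

/-- JFINGU: the main theorem for all fields, from the inputs, `p = 2`, any prime above `2`.
Uses Sj_RES, Sj_LAY, Sj_DIR, Sj_GAL, Sj_SETU, Sj_UP, Sj_SUB, Sj_OMGG, Sj_FLD, S_MAINKY, P_SYL, P_PEX. PROOF. `J_FING.lean`. -/
def Sj_FINGU : Prop := ∀ (d : ℕ) (A B : ℤ) (P : Ideal (OO A B)) (V : ValuationSubring ℂ),
    AboU A B P V → d ≠ 0 → ¬ 2 ∣ d → UnrH A B V → TorX A B → NLex A B →
    InpGY 2 d A B V →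
    ∀ (F M K : IntermediateField ℚ ℂ) [FiniteDimensional ℚ M] (_ : kk A B ≤ F) (h : F ≤ M)
    (a : ℕ), TorU A B F → IsGalois F (IntermediateField.extendScalars h) →
    Module.finrank F (IntermediateField.extendScalars h) = 2 ^ a → K ≤ M →
    ∃ C : ℕ, ∀ (n : ℕ) (Q : IntermediateField ℚ ℂ), IsLayer 2 n Q →
      padicValNat 2 (classNo (K ⊔ Q)) ≤ C * (n + 1) ^ C

end

end Pool.Agent.MUXJ


end

section

/-!
# MUX, block J, module SETU: the large field `K`, `p = 2`, any prime above `2`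
-/

set_option autoImplicit false

open NumberField IsDedekindDomain
open scoped nonZeroDivisors Pointwise

namespace Pool.Agent.MUXJ

open _root_.MU3 _root_.Pool.Agent.MU3 _root_.Pool.Agent.MU3A _root_.Pool.Agent.MU3B _root_.Pool.Agent.RI _root_.Pool.Agent.RID
  _root_.Pool.Agent.MUX _root_.Pool.Agent.MUXK _root_.Pool.Agent.MUXE
open _root_.Pool.Agent.N2 (BasY SetY InpGY)

open _root_.Pool.Agent.MUXJ.JSET in
/-- JSETU. -/
theorem t_SETU (h1 : Sj_DIR) (h2 : Sj_RAMU) (h3 : Sj_INJ) (h4 : Sj_ROTU) (h5 : Sj_LDX)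
    (h5' : Sj_LDU) (h6 : Sj_GAL) (h7 : Sj_LEVG) (h8' : Sj_K0U) : Sj_SETU := by
  intro d A B P V hX hd0 hpd hU T hNL K₀ _ hk hcop hTor Bn hlay hmono
  have hp : Nat.Prime 2 := Nat.prime_two
  have : Fact (Nat.Prime 2) := ⟨hp⟩
  obtain ⟨M, hM, hKM⟩ := h1 A B hX.cq T K₀ hTor
  obtain ⟨f, hf0, hfp, hfd, hKf⟩ :=
    h7 2 d A B hX.cq (Or.inl rfl) hd0 hpd T hNL K₀ hk hcop M hM hKM
  have hlv0 : lvX 2 f 0 ≠ 0 := by
    simp only [lvX, q0, if_true, pow_zero, mul_one]
    exact mul_ne_zero hf0 (by norm_num)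
  set m₀ : Ideal (OO A B) := idl (lvX 2 f 0) with hm₀
  have hm₀b : m₀ ≠ ⊥ := idl_ne _ hlv0
  have h2p : 4 ∣ lvX 2 f 0 := by
    simp only [lvX, q0, if_true, pow_zero, mul_one]
    exact dvd_mul_left _ _
  have h2p0 : 4 ≠ 0 := by norm_num
  -- the root of unity
  obtain ⟨ζ, hζ⟩ : ∃ ζ : ℂ, IsPrimitiveRoot ζ 4 := ⟨_, Complex.isPrimitiveRoot_exp _ h2p0⟩
  have hζm : ζ ∈ RF m₀ := by
    obtain ⟨b, L, om, hL⟩ := hNL
    have hfix : FixK A B (RingEquiv.refl ℂ) := rfl
    obtain ⟨a, -, ha⟩ := T.act m₀ hm₀b (RingEquiv.refl ℂ) hfix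
    obtain ⟨b', L', om', mu, -, hact⟩ := ha b L om hL
    exact (T.zeta 4 m₀ a (RingEquiv.refl ℂ) b L L' om mu hm₀b hfix h2p0 (idl_le h2p) hL hact
      ζ hζ.pow_eq_one).1
  -- the fields
  have hkfd : FiniteDimensional ℚ (kk A B) :=
    FiniteDimensional.of_injective (IntermediateField.inclusion hk).toLinearMap
      (IntermediateField.inclusion hk).injective
  set E₀ : IntermediateField (kk A B) ℂ := IntermediateField.extendScalars hk with hE₀
  have hE₀m : E₀ ≤ RF m₀ := fun x hx => hKf x hx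
  set Z : IntermediateField (kk A B) ℂ := IntermediateField.adjoin (kk A B) {ζ} with hZ
  have hZm : Z ≤ RF m₀ := by
    rw [hZ, IntermediateField.adjoin_le_iff]
    intro x hx
    rw [Set.mem_singleton_iff] at hx
    rw [hx]
    exact hζm
  set K₁ : IntermediateField (kk A B) ℂ := E₀ ⊔ Z with hK₁
  have hK₁m : K₁ ≤ RF m₀ := sup_le hE₀m hZm
  set KK : IntermediateField (kk A B) ℂ := K₁ ⊔ RF (⊤ : Ideal (OO A B)) with hKK
  have hHm : RF (⊤ : Ideal (OO A B)) ≤ RF m₀ := T.mono ⊤ m₀ le_top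
  have hKKm : KK ≤ RF m₀ := sup_le hK₁m hHm
  have hζK₁ : ζ ∈ K₁ := (le_sup_right : Z ≤ K₁) (IntermediateField.mem_adjoin_simple_self _ ζ)
  have hmfd := T.fin m₀ hm₀b
  have hfdK₁ : FiniteDimensional (kk A B) K₁ :=
    FiniteDimensional.of_injective (IntermediateField.inclusion hK₁m).toLinearMap
      (IntermediateField.inclusion hK₁m).injective
  have hfdKK : FiniteDimensional (kk A B) KK :=
    FiniteDimensional.of_injective (IntermediateField.inclusion hKKm).toLinearMap
      (IntermediateField.inclusion hKKm).injective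
  set K : IntermediateField ℚ ℂ := KK.restrictScalars ℚ with hK
  have hkK : kk A B ≤ K := fun x hx => KK.algebraMap_mem ⟨x, hx⟩
  have hKK' : IntermediateField.extendScalars hkK = KK := SetLike.ext fun x => Iff.rfl
  have hk1 : kk A B ≤ K₁.restrictScalars ℚ := fun x hx => K₁.algebraMap_mem ⟨x, hx⟩
  have hK₁' : IntermediateField.extendScalars hk1 = K₁ := SetLike.ext fun x => Iff.rfl
  have hfdK : FiniteDimensional ℚ K := by
    have : FiniteDimensional ℚ KK := FiniteDimensional.trans ℚ (kk A B) KK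
    exact this
  have hK0K : K₀ ≤ K := fun x hx =>
    (le_sup_left : K₁ ≤ KK) ((le_sup_left : E₀ ≤ K₁) (show x ∈ E₀ from hx))
  obtain ⟨hgal0, -, hab0⟩ := h6 A B T m₀ hm₀b K₀ hk hKf
  obtain ⟨hgal, -, hab⟩ := h6 A B T m₀ hm₀b K hkK (fun x hx => hKKm hx)
  obtain ⟨hgal1, -, -⟩ := h6 A B T m₀ hm₀b (K₁.restrictScalars ℚ) hk1 (fun x hx => hK₁m hx)
  have hgalKK : IsGalois (kk A B) KK := by rw [← hKK']; exact hgal
  have hgalK₁ : IsGalois (kk A B) K₁ := by rw [← hK₁']; exact hgal1
  have hζK : ζ ∈ K := (le_sup_left : K₁ ≤ KK) hζK₁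
  -- the degree of `K₁`
  have hB2 : ¬ Bn 2 ≤ K := by
    intro hB
    have h8 := h4 (Bn 2) K (hlay 2) hB ⟨ζ, hζK, hζ⟩
    have h9 := h2 A B P V hX KK h8
    have h10 := h3 A B V hU T K₁ KK rfl
    have h11 := h9.trans (mul_dvd_mul_left 2 h10)
    have hEfd : FiniteDimensional (kk A B) E₀ :=
      FiniteDimensional.of_injective (IntermediateField.inclusion hE₀m).toLinearMap
        (IntermediateField.inclusion hE₀m).injective
    have hd : Module.finrank (kk A B) E₀ ∣ Module.finrank (kk A B) K₁ :=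
      IntermediateField.finrank_dvd_of_le_right (le_sup_left : E₀ ≤ K₁)
    have hle : Module.finrank (kk A B) K₁ ≤
        Module.finrank (kk A B) E₀ * Module.finrank (kk A B) Z :=
      IntermediateField.finrank_sup_le E₀ Z
    have hZ2 : Module.finrank (kk A B) Z ≤ 2 := by
      have hζ2 : ζ ^ 2 = -1 := by
        have h12 : (ζ ^ 2) ^ 2 = 1 := by rw [← pow_mul]; exact hζ.pow_eq_one
        rcases sq_eq_one_iff.mp h12 with h13 | h13
        · exact absurd h13 (hζ.pow_ne_one_of_pos_of_lt (by norm_num) (by norm_num))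
        · exact h13
      have hint : IsIntegral (kk A B) ζ := by
        refine ⟨Polynomial.X ^ 2 + 1, ?_, ?_⟩
        · have : (Polynomial.X ^ 2 + 1 : Polynomial (kk A B)) =
              Polynomial.X ^ 2 + Polynomial.C 1 := by simp
          rw [this]
          exact Polynomial.monic_X_pow_add_C _ two_ne_zero
        · simp [hζ2]
      rw [hZ, IntermediateField.adjoin.finrank hint]
      have h13 : Polynomial.aeval ζ (Polynomial.X ^ 2 + 1 : Polynomial (kk A B)) = 0 := by
        simp [hζ2]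
      have h14 : (Polynomial.X ^ 2 + 1 : Polynomial (kk A B)) =
          Polynomial.X ^ 2 + Polynomial.C 1 := by simp
      have h15 : (Polynomial.X ^ 2 + 1 : Polynomial (kk A B)) ≠ 0 := by
        rw [h14]
        exact (Polynomial.monic_X_pow_add_C _ two_ne_zero).ne_zero
      refine (Polynomial.natDegree_le_of_dvd (minpoly.dvd _ _ h13) h15).trans ?_
      rw [h14, Polynomial.natDegree_X_pow_add_C]
    have h12 : 4 ∣ Module.finrank (kk A B) K₁ := by omega
    have hpos : 0 < Module.finrank (kk A B) K₁ := Module.finrank_pos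
    obtain ⟨b, hb⟩ := hd
    have hposE : 0 < Module.finrank (kk A B) E₀ := Module.finrank_pos
    have hb2 : b ≤ 2 := by
      have h16 : Module.finrank (kk A B) E₀ * b ≤ Module.finrank (kk A B) E₀ * 2 := by
        rw [← hb]
        exact hle.trans (Nat.mul_le_mul_left _ hZ2)
      exact Nat.le_of_mul_le_mul_left h16 hposE
    apply hcop
    rw [hb] at h12 hpos
    have hbpos : b ≠ 0 := by rintro rfl; simp at hpos
    have hb12 : b = 1 ∨ b = 2 := by omega
    rcases hb12 with h16 | h16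
    · subst h16; omega
    · subst h16; omega
  have hB10 : ¬ Bn 1 ≤ K₀ := h8' A B hX.cq K₀ hk hcop (Bn 1) (hlay 1)
  have hb0 : BasX 2 (kk A B) K₀ Bn := ⟨hk, hgal0, hab0, h5 2 K₀ Bn hlay hmono hB10, hlay, hmono⟩
  have hom : ∃ ω ∈ K₀, IsPrimitiveRoot ω 2 :=
    ⟨-1, neg_mem (one_mem _), IsPrimitiveRoot.neg_one 0 (by norm_num)⟩
  have hB0 : Bn 0 ≤ K := by
    have h9 : Bn 0 = ⊥ := by
      rw [← IntermediateField.finrank_eq_one_iff]
      simpa using (hlay 0).1
    rw [h9]
    exact bot_le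
  have hdeg : ∀ n, Module.finrank ℚ ↥(K ⊔ Bn (n + 1)) = Module.finrank ℚ ↥(K ⊔ Bn 1) * 2 ^ n := by
    intro n
    by_cases hB1 : Bn 1 ≤ K
    · have e1 := h5' 2 K Bn hlay hmono 1 hB1 hB2 (n + 1) (by omega)
      rw [sup_eq_left.2 hB1]
      rw [pow_succ 2 n, pow_one] at e1
      nlinarith
    · have e0 := h5' 2 K Bn hlay hmono 0 hB0 hB1 (n + 1) (by omega)
      have e1 := h5' 2 K Bn hlay hmono 0 hB0 hB1 1 (by omega)
      rw [pow_zero, mul_one] at e0 e1
      rw [e0, e1]
      ring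
  refine ⟨K, hfdK, f, ?_, hf0, hfp, hfd, ?_, ?_⟩
  · exact
      { b0 := hb0
        b := ⟨hkK, hgal, hab, hdeg, hlay, hmono⟩
        le := hK0K
        cop := hcop
        om := hom
        ze := ⟨ζ, hζK, hζ⟩ }
  · exact fun y hy => hKKm hy
  · exact fun y hy => (le_sup_right : RF (⊤ : Ideal (OO A B)) ≤ KK) hy

end Pool.Agent.MUXJ


end

section

/-!
# MUX, block J, module K0U: fields of odd degree over `k` do not contain the first layer (helper69)
-/

set_option autoImplicit false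

open NumberField IsDedekindDomain
open scoped nonZeroDivisors Pointwise

namespace Pool.Agent.MUXJ

open _root_.MU3 _root_.Pool.Agent.MU3 _root_.Pool.Agent.MU3A _root_.Pool.Agent.MU3B _root_.Pool.Agent.RI _root_.Pool.Agent.RID
  _root_.Pool.Agent.MUX _root_.Pool.Agent.MUXK

noncomputable section

namespace K0U

/-- the polynomial of `w` -/
lemma poly (A B : ℤ) (h : CQ A B) : ∃ p : Polynomial ℚ, p.Monic ∧ p.natDegree ≤ 2 ∧
    Polynomial.aeval (wC A B) p = 0 := by
  have h1 : (0 : ℝ) ≤ (absD A B : ℝ) := by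
    have := h.neg
    have h0 : 0 ≤ absD A B := by
      unfold absD
      omega
    exact_mod_cast h0
  have h2 : ((Real.sqrt (absD A B) : ℝ) : ℂ) ^ 2 = (absD A B : ℂ) := by
    rw [← Complex.ofReal_pow, Real.sq_sqrt h1]
    norm_num
  have h3 : Complex.I ^ 2 = -1 := Complex.I_sq
  have h4 : (absD A B : ℂ) = -((B : ℂ) ^ 2 + 4 * A) := by simp [absD]
  have h5 : wC A B * wC A B = A + B * wC A B := by
    unfold _root_.MU3.wC
    linear_combination (Complex.I ^ 2 / 4) * h2 + ((absD A B : ℂ) / 4) * h3 - (1 / 4) * h4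
  refine ⟨Polynomial.X ^ 2 - Polynomial.C (B : ℚ) * Polynomial.X - Polynomial.C (A : ℚ), ?_, ?_,
    ?_⟩
  · monicity!
  · compute_degree
  · simp only [map_sub, map_mul, map_pow, Polynomial.aeval_X, Polynomial.aeval_C]
    simp only [eq_ratCast, Rat.cast_intCast]
    linear_combination h5

lemma im_pos (A B : ℤ) (h : CQ A B) : 0 < (wC A B).im := by
  have h2 : (wC A B).im = Real.sqrt (absD A B) / 2 := by
    simp [wC, Complex.add_im, Complex.mul_im]
  rw [h2]
  have h3 : (0 : ℝ) < (absD A B : ℝ) := by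
    have := h.neg
    have h0 : 0 < absD A B := by
      unfold absD
      omega
    exact_mod_cast h0
  positivity

end K0U

open _root_.Pool.Agent.MUXJ.K0U in
/-- K0U. -/
theorem t_K0U : Sj_K0U := by
  intro A B hC K₀ hfd hk hodd B₁ hB hle
  obtain ⟨hdeg, hreal, -⟩ := hB
  obtain ⟨p, hp1, hp2, hp3⟩ := poly A B hC
  have hint : IsIntegral ℚ (wC A B) := ⟨p, hp1, hp3⟩
  have hkf : FiniteDimensional ℚ (kk A B) := IntermediateField.adjoin.finiteDimensional hint
  have hk2 : Module.finrank ℚ (kk A B) ≤ 2 := by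
    have h1 : Module.finrank ℚ (kk A B) = (minpoly ℚ (wC A B)).natDegree :=
      IntermediateField.adjoin.finrank hint
    rw [h1]
    exact (Polynomial.natDegree_le_natDegree (minpoly.min ℚ _ hp1 hp3)).trans hp2
  have hB1 : FiniteDimensional ℚ B₁ :=
    Module.finite_of_finrank_pos (by rw [hdeg]; norm_num)
  -- the layer is not contained in `k`
  have hnot : ¬ B₁ ≤ kk A B := by
    intro h
    have h1 : B₁ = kk A B := IntermediateField.eq_of_le_of_finrank_le h (by
      rw [hdeg]; exact hk2)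
    have h2 : wC A B ∈ B₁ := by
      rw [h1]
      exact IntermediateField.mem_adjoin_simple_self ℚ (wC A B)
    have h3 := congrArg Complex.im (hreal _ h2)
    rw [Complex.conj_im] at h3
    have h4 := im_pos A B hC
    linarith
  obtain ⟨x, hx, hxk⟩ := SetLike.not_le_iff_exists.1 hnot
  -- the degree of `x` over `k`
  set X : IntermediateField.extendScalars hk := ⟨x, hle hx⟩ with hX
  have hKf : FiniteDimensional (kk A B) (IntermediateField.extendScalars hk) := by
    have h1 : FiniteDimensional ℚ (IntermediateField.extendScalars hk) := hfd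
    exact FiniteDimensional.right ℚ (kk A B) (IntermediateField.extendScalars hk)
  set P : Polynomial ℚ := minpoly ℚ (⟨x, hx⟩ : B₁) with hP
  have hP1 : P.Monic := minpoly.monic (Algebra.IsIntegral.isIntegral _)
  have hP2 : P.natDegree ≤ 2 := by
    have h1 := minpoly.natDegree_le (A := ℚ) (⟨x, hx⟩ : B₁)
    rw [hdeg] at h1
    exact h1
  have hP3 : Polynomial.aeval x P = 0 := by
    have h1 : Polynomial.aeval (⟨x, hx⟩ : B₁) P = 0 := minpoly.aeval _ _
    have h2 := congrArg (algebraMap B₁ ℂ) h1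
    rw [map_zero, ← Polynomial.aeval_algebraMap_apply] at h2
    exact h2
  set Q : Polynomial (kk A B) := P.map (algebraMap ℚ (kk A B)) with hQ
  have hQ1 : Q.Monic := hP1.map _
  have hQ2 : Q.natDegree ≤ 2 := by
    rw [hQ, hP1.natDegree_map]
    exact hP2
  have hQ3 : Polynomial.aeval X Q = 0 := by
    apply (algebraMap (IntermediateField.extendScalars hk) ℂ).injective
    rw [map_zero, ← Polynomial.aeval_algebraMap_apply, hQ]
    have h1 : algebraMap (IntermediateField.extendScalars hk) ℂ X = x := rfl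
    rw [h1, Polynomial.aeval_map_algebraMap]
    exact hP3
  have hd1 : (minpoly (kk A B) X).natDegree ≤ 2 :=
    (Polynomial.natDegree_le_natDegree (minpoly.min (kk A B) X hQ1 hQ3)).trans hQ2
  have hXi : IsIntegral (kk A B) X := ⟨Q, hQ1, hQ3⟩
  have hd2 : 0 < (minpoly (kk A B) X).natDegree := minpoly.natDegree_pos hXi
  have hd3 : (minpoly (kk A B) X).natDegree ≠ 1 := by
    intro h
    obtain ⟨y, hy⟩ := minpoly.natDegree_eq_one_iff.1 h
    apply hxk
    have h1 := congrArg (algebraMap (IntermediateField.extendScalars hk) ℂ) hy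
    have h2 : algebraMap (IntermediateField.extendScalars hk) ℂ X = x := rfl
    rw [h2] at h1
    rw [← h1]
    exact y.2
  have hd4 : (minpoly (kk A B) X).natDegree = 2 := by omega
  apply hodd
  rw [← hd4]
  exact minpoly.degree_dvd hXi

end

end Pool.Agent.MUXJ


end

section

/-!
# MUX, block J: LDU, the degree of a composite with a layer (helper50)
-/

set_option autoImplicit false

open NumberField IsDedekindDomain
open scoped nonZeroDivisors Pointwise

namespace Pool.Agent.MUXJ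

open _root_.MU3 _root_.Pool.Agent.MU3 _root_.Pool.Agent.MU3A _root_.Pool.Agent.MU3B _root_.Pool.Agent.RI _root_.Pool.Agent.RID
  _root_.Pool.Agent.MUX _root_.Pool.Agent.MUXK _root_.Pool.Agent.MUXE

noncomputable section

/-- the degree of a composite when one factor is Galois -/
theorem ldu_sup {F E : Type*} [Field F] [Field E] [Algebra F E]
    (K N D : IntermediateField F E) [FiniteDimensional F K] [FiniteDimensional F N]
    [IsGalois F N] (hD : K ⊓ N = D) :
    Module.finrank F ↥(K ⊔ N) * Module.finrank F D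
      = Module.finrank F K * Module.finrank F N := by
  have hDK : D ≤ K := hD ▸ inf_le_left
  have hDN : D ≤ N := hD ▸ inf_le_right
  have hDS : D ≤ K ⊔ N := hDK.trans le_sup_left
  have : IsGalois D (IntermediateField.extendScalars hDN) := by
    letI : Algebra D N := (IntermediateField.inclusion hDN).toAlgebra
    haveI := Pool.Agent.FX.tower F D N (fun x => rfl)
    have h1 : IsGalois D N := IsGalois.tower_top_of_isGalois F D N
    exact h1
  have hfK : Module.finrank F D * Module.finrank D (IntermediateField.extendScalars hDK)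
      = Module.finrank F K :=
    Pool.Agent.FX.fmul F D (IntermediateField.extendScalars hDK)
  have hfN : Module.finrank F D * Module.finrank D (IntermediateField.extendScalars hDN)
      = Module.finrank F N :=
    Pool.Agent.FX.fmul F D (IntermediateField.extendScalars hDN)
  have hfS : Module.finrank F D * Module.finrank D (IntermediateField.extendScalars hDS)
      = Module.finrank F ↥(K ⊔ N) :=
    Pool.Agent.FX.fmul F D (IntermediateField.extendScalars hDS)
  have hK0 : 0 < Module.finrank F K := Module.finrank_pos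
  have hN0 : 0 < Module.finrank F N := Module.finrank_pos
  have hfdK : FiniteDimensional D (IntermediateField.extendScalars hDK) :=
    Module.finite_of_finrank_pos (Nat.pos_of_ne_zero (fun h => by
      rw [h, mul_zero] at hfK; omega))
  have hfdN : FiniteDimensional D (IntermediateField.extendScalars hDN) :=
    Module.finite_of_finrank_pos (Nat.pos_of_ne_zero (fun h => by
      rw [h, mul_zero] at hfN; omega))
  have hbot : IntermediateField.extendScalars hDN ⊓ IntermediateField.extendScalars hDK = ⊥ := by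
    rw [eq_bot_iff]
    intro x hx
    have hx' : x ∈ D := by
      rw [← hD]
      exact ⟨hx.2, hx.1⟩
    exact IntermediateField.mem_bot.2 ⟨⟨x, hx'⟩, rfl⟩
  have hdis : (IntermediateField.extendScalars hDN).LinearDisjoint
      (IntermediateField.extendScalars hDK) := IntermediateField.LinearDisjoint.of_inf_eq_bot hbot
  have hs := hdis.finrank_sup
  have hsup : IntermediateField.extendScalars hDN ⊔ IntermediateField.extendScalars hDK
      = IntermediateField.extendScalars hDS := by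
    rw [IntermediateField.extendScalars_sup hDN hDK]
    congr 1
    exact sup_comm _ _
  rw [hsup] at hs
  rw [← hfS, hs, ← hfK, ← hfN]
  ring

/-- the statement over an arbitrary base field -/
theorem ldu_gen {F E : Type*} [Field F] [Field E] [Algebra F E] (p : ℕ) (hp : p.Prime)
    (K : IntermediateField F E) (B : ℕ → IntermediateField F E) (hK : FiniteDimensional F K)
    (hd : ∀ n, Module.finrank F (B n) = p ^ n) (hG : ∀ n, IsGalois F (B n))
    (hC : ∀ n, IsCyclic ((B n) ≃ₐ[F] (B n))) (hmono : Monotone B) (s : ℕ) (hs : B s ≤ K)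
    (hnot : ¬ B (s + 1) ≤ K) (n : ℕ) (hn : s ≤ n) :
    Module.finrank F ↥(K ⊔ B n) * p ^ s = Module.finrank F K * p ^ n := by
  have := hG n
  have := hC n
  have hdeg := hd n
  have hfin : FiniteDimensional F (B n) :=
    Module.finite_of_finrank_pos (by rw [hdeg]; exact pow_pos hp.pos n)
  have hdvd : Module.finrank F ↥(K ⊓ B n) ∣ p ^ n := by
    rw [← hdeg]
    exact IntermediateField.finrank_dvd_of_le_right inf_le_right
  obtain ⟨i, hi, hie⟩ := (Nat.dvd_prime_pow hp).1 hdvd
  have heq : K ⊓ B n = B i :=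
    MU3I.Ilay.uniq (K ⊓ B n) (B i) (B n) inf_le_right (hmono hi) (hie.trans (hd i).symm)
  have hi1 : i ≤ s := by
    by_contra h0
    apply hnot
    calc B (s + 1) ≤ B i := hmono (by omega)
      _ = K ⊓ B n := heq.symm
      _ ≤ K := inf_le_left
  have hi2 : s ≤ i := by
    have hfi : FiniteDimensional F (B i) :=
      Module.finite_of_finrank_pos (by rw [hd i]; exact pow_pos hp.pos i)
    have hle : B s ≤ B i := by
      rw [← heq]
      exact le_inf hs (hmono hn)
    have h1 : Module.finrank F (B s) ∣ Module.finrank F (B i) :=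
      IntermediateField.finrank_dvd_of_le_right hle
    rw [hd, hd] at h1
    exact (Nat.pow_dvd_pow_iff_le_right hp.one_lt).1 h1
  have his : i = s := le_antisymm hi1 hi2
  rw [his] at heq
  have h := ldu_sup K (B n) (B s) heq
  rw [hd, hd] at h
  exact h

theorem t_LDU : Sj_LDU := by
  intro p hp K B hK hB hmono s hs hnot n hn
  have key : ∀ (D : IntermediateField ℚ ℂ) (a b : Algebra ℚ D), @IsGalois ℚ _ D _ a →
      @IsGalois ℚ _ D _ b := by
    intro D a b h
    rw [Subsingleton.elim b a]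
    exact h
  have key2 : ∀ (D : IntermediateField ℚ ℂ) (a b : Algebra ℚ D),
      IsCyclic (@AlgEquiv ℚ D D _ _ _ a a) → IsCyclic (@AlgEquiv ℚ D D _ _ _ b b) := by
    intro D a b h
    have e : b = a := Subsingleton.elim b a
    subst e
    exact h
  exact ldu_gen (F := ℚ) (E := ℂ) p hp.out K B hK (fun n => (hB n).1)
    (fun n => key _ _ _ (LAY_thm p n (B n) (hB n)).2.1)
    (fun n => key2 _ _ _ (t_LAYC p n (B n) (hB n))) hmono s hs hnot n hn

end

end Pool.Agent.MUXJ


end
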