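import Mathlib
import Pool.Agent.MVF.C117
import Pool.Agent.MVF.C129
import Pool.Agent.MVF.C130

/-! Parts: N2.IR_LFY, N2.KY -/

section

/-!
# MUX-2R, block IR, module LFY: lifting from `K₀ B_n` to `K B_n`, `n ≥ 1`
-/

set_option autoImplicit false

namespace Pool.Agent.N2IR

open _root_.MU3 _root_.Pool.Agent.MU3 _root_.Pool.Agent.MU3A _root_.Pool.Agent.MU3B _root_.Pool.Agent.RI _root_.Pool.Agent.RID
  _root_.Pool.Agent.MUX _root_.Pool.Agent.MUXK _root_.Pool.Agent.MUXI _root_.Pool.Agent.NSI _root_.Pool.Agent.N2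
open _root_.Pool.Agent.MU3I (w3 zt)

/-- (LFY) -/
theorem tr_LFY (h1 : Sr_GALY) (h2 : S_GALX) : Sr_LFY := by
  intro p _ k K₀ K B _ _ hX₀ hY hle n hn h h₀ hh
  let aL' : Algebra k ↥(K ⊔ B n) := algC h
  let aL : Algebra k ↥(K₀ ⊔ B n) := algC h₀
  intro γ hγ
  obtain ⟨m, rfl⟩ : ∃ m, n = m + 1 := ⟨n - 1, by omega⟩
  have hhj : ∀ j, K₀ ⊔ B j ≤ K ⊔ B j := fun j => sup_le_sup_right hle _
  have fK₀ : FiniteDimensional ℚ K₀ := FiniteDimensional.of_injective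
    (IntermediateField.inclusion hle).toLinearMap
    (IntermediateField.inclusion hle).injective
  have fK₀B : ∀ j, FiniteDimensional ℚ ↥(K₀ ⊔ B j) := fun j => FiniteDimensional.of_injective
    (IntermediateField.inclusion (hhj j)).toLinearMap
    (IntermediateField.inclusion (hhj j)).injective
  have hB1 : B 1 ≤ B (m + 1) := hY.mono (Nat.succ_le_succ (Nat.zero_le m))
  have gal' := (h1 p k K B hY (m + 1) h).1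
  have gal := (h2 p k K₀ B hX₀ (m + 1) h₀).1
  have d1 := hY.deg m
  have d3 := hX₀.deg (m + 1)
  have d4 := hX₀.deg 1
  obtain ⟨e, he⟩ := K_NR1.res (A := K₀ ⊔ B 1) (A' := K ⊔ B 1) h₀ h hh
    (hX₀.hk.trans le_sup_left) (hY.hk.trans le_sup_left) (sup_le_sup_left hB1 K₀)
    (sup_le_sup_left hB1 K) (hhj 1) gal gal'
    (by
      intro ρ q1 q2
      apply GCC.triv h ρ
      · intro x hx
        exact q2 x ((le_sup_left : K ≤ K ⊔ B 1) hx)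
      · intro x hx
        exact q1 x ((le_sup_right : B (m + 1) ≤ K₀ ⊔ B (m + 1)) hx))
    (by rw [d1, d3, d4]; ring)
  have hmem : γ ∈ NC h₀ (K₀ ⊔ B 1) := hγ
  refine ⟨((e.symm ⟨γ, hmem⟩ : NC h (K ⊔ B 1)) : ↥(K ⊔ B (m + 1)) ≃ₐ[k] ↥(K ⊔ B (m + 1))),
    (e.symm ⟨γ, hmem⟩).2, ?_⟩
  intro x
  have h5 := he (e.symm ⟨γ, hmem⟩) x
  rw [Equiv.apply_symm_apply] at h5
  exact h5.symm

end Pool.Agent.N2IR


end

section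

/-!
# MUX-2R, block K: the growth of the class numbers, when the large field `K` may contain the first layer (helper66)

`j_MAINKY : S_MAINKY` (`Pool/Agent/MUX/StJU2.lean`): `S_MAINKX` with `N2.SetY` in place of `SetX`. The proofs are those of `K_RAMX`, `K_M0X`, `K_KOLX`, `K_SU0`, `K_I3X`, `K_MAINKX`
(`Pool/Agent/MUX`), with small changes: only `γ ^ p` lifts from `K₀ B_n` to `K B_n`, and the constants of the norm relations are in `K₀ B_1`, fixed by `γ ^ p`.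
-/

set_option autoImplicit false

open NumberField IsDedekindDomain Finset Filter Topology
open scoped nonZeroDivisors Pointwise

namespace Pool.Agent.N2K

open _root_.Pool.Agent.MU3 _root_.Pool.Agent.RI _root_.Pool.Agent.RID _root_.Pool.Agent.Lib_helper28.FROB _root_.Pool.Agent.MUXK
open _root_.Pool.Agent.N2 (BasY SetY)
open _root_.Pool.Agent.N2IR (Sr_GALY Sr_ORDY Sr_LFY Sr_NR1Y Sr_NRXY)

theorem y_GALY : Sr_GALY := Pool.Agent.N2IR.tr_GALY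
theorem y_ORDY : Sr_ORDY := Pool.Agent.N2IR.tr_ORDY y_GALY
theorem y_LFY : Sr_LFY := Pool.Agent.N2IR.tr_LFY y_GALY k_GALX
theorem y_NR1Y : Sr_NR1Y := Pool.Agent.N2IR.tr_NR1Y y_GALY k_GALX y_ORDY y_LFY
theorem y_NRXY : Sr_NRXY := Pool.Agent.N2IR.tr_NRXY y_NR1Y k_RSX

/-- as `S_RAMX` -/
def S_RAMY : Prop := ∀ (p : ℕ) [Fact p.Prime] (k K : IntermediateField ℚ ℂ)
    (B : ℕ → IntermediateField ℚ ℂ)
    [FiniteDimensional ℚ k] [FiniteDimensional ℚ K] [∀ n, FiniteDimensional ℚ ↥(K ⊔ B n)],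
    BasY p k K B → ∃ S' : Finset ℕ, 2 ∈ S' ∧ p ∈ S' ∧ (∀ ℓ ∈ S', ℓ.Prime) ∧
    ∀ S : Finset ℕ, S' ⊆ S → ∀ (n : ℕ) (h : k ≤ K ⊔ B n), letI := algC h
    ∀ v : HeightOneSpectrum (𝓞 ↥(K ⊔ B n)), ¬ Above S v → v.asIdeal.ramificationIdx (𝓞 k) = 1

/-- as `S_M0X` -/
def S_M0Y : Prop := ∀ (p : ℕ) [Fact p.Prime] (k K : IntermediateField ℚ ℂ)
    (B : ℕ → IntermediateField ℚ ℂ)
    [FiniteDimensional ℚ K] [∀ n, FiniteDimensional ℚ ↥(K ⊔ B n)], BasY p k K B →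
    ∀ S : Finset ℕ, (∀ ℓ ∈ S, ℓ.Prime) → ∃ m₀ : ℕ, ∀ (n : ℕ) (h : k ≤ K ⊔ B n), letI := algC h
    ∀ γ : ↥(K ⊔ B n) ≃ₐ[k] ↥(K ⊔ B n), (∀ x : ↥(K ⊔ B n), (x : ℂ) ∈ K → γ x = x) →
    ∀ v : HeightOneSpectrum (𝓞 ↥(K ⊔ B n)), Above S v → γ ^ (p ^ m₀) • v.asIdeal = v.asIdeal

/-- as `S_KOLX` -/
def S_KOLY : Prop := ∀ (F : Type) [Field F] (p : ℕ) [Fact p.Prime]
    (k K₀ K : IntermediateField ℚ ℂ) (B : ℕ → IntermediateField ℚ ℂ)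
    [FiniteDimensional ℚ k] [FiniteDimensional ℚ K] [∀ n, FiniteDimensional ℚ ↥(K ⊔ B n)]
    [∀ n, FiniteDimensional ℚ ↥(K₀ ⊔ B n)], SetY p k K₀ K B →
    ∃ S' : Finset ℕ, 2 ∈ S' ∧ p ∈ S' ∧ (∀ ℓ ∈ S', ℓ.Prime) ∧
    ∀ (hk : ∀ n, k ≤ K ⊔ B n) (hk₀ : ∀ n, k ≤ K₀ ⊔ B n) (hh : ∀ n, K₀ ⊔ B n ≤ K ⊔ B n)
    (hkK : k ≤ K₀) (S : Finset ℕ) (c c₀ : ℕ → ℂ) (n₁ : ℕ)
    (hI : InpX F p k K₀ K B hk hk₀ hkK S c c₀ n₁)
    (S₁ : Finset ℕ), S ∪ S' ⊆ S₁ → (∀ ℓ ∈ S₁, ℓ.Prime) → ∀ n, n₁ ≤ n →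
    letI := algC (hk n)
    letI := algC (hk₀ n)
    letI := algC (hh n)
    ∀ (g : ↥(K₀ ⊔ B n) ≃ₐ[k] ↥(K₀ ⊔ B n)) (g' : ↥(K ⊔ B n) ≃ₐ[k] ↥(K ⊔ B n)),
    (∀ x : ↥(K ⊔ B n), (x : ℂ) ∈ K → g' x = x) →
    (∀ x : ↥(K₀ ⊔ B n), ((g' ⟨x, hh n x.2⟩ : ↥(K ⊔ B n)) : ℂ) = (g x : ↥(K₀ ⊔ B n))) →
    (∀ v : HeightOneSpectrum (𝓞 ↥(K ⊔ B n)), Above S₁ v → g' • v.asIdeal = v.asIdeal) →
    ∀ u : (𝓞 ↥(K₀ ⊔ B n))ˣ,
    ((u : 𝓞 ↥(K₀ ⊔ B n)) : ↥(K₀ ⊔ B n)) = (g ^ p) ⟨c₀ n, hI.mem₀ n⟩ / ⟨c₀ n, hI.mem₀ n⟩ →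
    KRelX p k ↥(K₀ ⊔ B n) ↥(K ⊔ B n) S₁ u

/-- as `S_SU0` -/
def S_SU0Y : Prop := ∀ (F : Type) [Field F] (p : ℕ) [Fact p.Prime]
    (k K₀ K : IntermediateField ℚ ℂ) (B : ℕ → IntermediateField ℚ ℂ)
    [FiniteDimensional ℚ k] [FiniteDimensional ℚ K] [∀ n, FiniteDimensional ℚ ↥(K ⊔ B n)]
    [∀ n, FiniteDimensional ℚ ↥(K₀ ⊔ B n)], SetY p k K₀ K B →
    ∀ (hk : ∀ n, k ≤ K ⊔ B n) (hk₀ : ∀ n, k ≤ K₀ ⊔ B n)
    (hkK : k ≤ K₀) (S : Finset ℕ) (c c₀ : ℕ → ℂ) (n₁ : ℕ)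
    (hI : InpX F p k K₀ K B hk hk₀ hkK S c c₀ n₁), ∀ n, n₁ ≤ n →
    c₀ n ≠ 0 ∧ SU S ↥(K₀ ⊔ B n) ⟨c₀ n, hI.mem₀ n⟩

/-- as `S_I3X` -/
def S_I3Y : Prop := ∀ (F : Type) [Field F] (p : ℕ) [Fact p.Prime]
    (k K₀ K : IntermediateField ℚ ℂ) (B : ℕ → IntermediateField ℚ ℂ)
    [FiniteDimensional ℚ k] [FiniteDimensional ℚ K] [∀ n, FiniteDimensional ℚ ↥(K ⊔ B n)]
    [∀ n, FiniteDimensional ℚ ↥(K₀ ⊔ B n)], SetY p k K₀ K B →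
    ∀ (hk : ∀ n, k ≤ K ⊔ B n) (hk₀ : ∀ n, k ≤ K₀ ⊔ B n) (hh : ∀ n, K₀ ⊔ B n ≤ K ⊔ B n)
    (hkK : k ≤ K₀) (S : Finset ℕ) (c c₀ : ℕ → ℂ) (n₁ : ℕ)
    (hI : InpX F p k K₀ K B hk hk₀ hkK S c c₀ n₁)
    (m₀ : ℕ), ∃ m₁, n₁ ≤ m₁ ∧ 1 ≤ m₁ ∧ ∀ n, m₁ ≤ n →
    letI := algC (hk₀ n)
    letI := algC (hh n)
    ∀ γ : ↥(K₀ ⊔ B n) ≃ₐ[k] ↥(K₀ ⊔ B n), (∀ x : ↥(K₀ ⊔ B n), γ x = x ↔ (x : ℂ) ∈ K₀) →
    ∀ [Fintype (NC (hk₀ n) (B n))] (u : (𝓞 ↥(K₀ ⊔ B n))ˣ),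
    ((u : 𝓞 ↥(K₀ ⊔ B n)) : ↥(K₀ ⊔ B n)) =
      ((γ ^ (p ^ m₀)) ^ p) ⟨c₀ n, hI.mem₀ n⟩ / ⟨c₀ n, hI.mem₀ n⟩ →
    ∀ χ : NC (hk₀ n) (B n) →* Fˣ, ∃ m, m ≤ m₁ ∧ ∃ θ : F →+ ZMod p, ∀ y : ↥(K ⊔ B n),
      y ^ p ≠ algebraMap ↥(K₀ ⊔ B n) ↥(K ⊔ B n)
        ((sUnitP p (NC (hk₀ n) (B n)) γ m n χ θ u : 𝓞 ↥(K₀ ⊔ B n)) : ↥(K₀ ⊔ B n))

open _root_.Pool.Agent.MU3.P_RAMK in
/-- RAMY -/
theorem y_RAMY : S_RAMY := by
  classical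
  intro p hp k K B _ _ _ hB
  have h1 : _root_.MU3.N_RAMP := _root_.MU3.n_RAMP
  let a1 : Algebra k K := algC hB.hk
  have hfin := fin_ram k K
  choose f hf using exists_prime K
  refine ⟨insert 2 (insert p (hfin.toFinset.image f)), by simp, by simp, ?_, ?_⟩
  · intro q hq
    rcases Finset.mem_insert.1 hq with rfl | hq
    · exact Nat.prime_two
    · rcases Finset.mem_insert.1 hq with rfl | hq
      · exact hp.out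
      · obtain ⟨v, -, rfl⟩ := Finset.mem_image.1 hq
        exact (hf v).1
  · intro S hS n h v hv
    let a2 : Algebra K ↥(K ⊔ B n) := algC (le_sup_left : K ≤ K ⊔ B n)
    let a3 : Algebra k ↥(K ⊔ B n) := algC h
    have tow : IsScalarTower k K ↥(K ⊔ B n) := towerC hB.hk le_sup_left
    have hprime : v.asIdeal.IsPrime := v.isPrime
    have hvne : v.asIdeal.under (𝓞 K) ≠ ⊥ := by
      intro h0
      exact v.ne_bot (Ideal.eq_bot_of_comap_eq_bot h0)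
    let w : HeightOneSpectrum (𝓞 K) := ⟨v.asIdeal.under (𝓞 K), inferInstance, hvne⟩
    have hdown : ∀ q : ℕ, (q : 𝓞 K) ∈ w.asIdeal → (q : 𝓞 ↥(K ⊔ B n)) ∈ v.asIdeal := by
      intro q hq
      have h2 : algebraMap (𝓞 K) (𝓞 ↥(K ⊔ B n)) (q : 𝓞 K) ∈ v.asIdeal := hq
      rwa [map_natCast] at h2
    have e1 : v.asIdeal.ramificationIdx (𝓞 K) = 1 := by
      by_contra hne
      have h3 := h1 p n K (B n) (hB.lay n) v hne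
      exact hv ⟨p, hS (by simp), hdown p h3⟩
    have e2 : w.asIdeal.ramificationIdx (𝓞 k) = 1 := by
      by_contra hne
      refine hv ⟨f w, hS ?_, hdown _ (hf w).2⟩
      exact Finset.mem_insert_of_mem (Finset.mem_insert_of_mem
        (Finset.mem_image_of_mem f (hfin.mem_toFinset.2 hne)))
    have e3 := tower k K ↥(K ⊔ B n) v w rfl
    rw [e1, e2] at e3
    exact e3

/-- an automorphism of `K B` which is trivial on `K` has order dividing `[B : ℚ]` -/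
theorem ord_one {p n : ℕ} [Fact p.Prime] {k K B : IntermediateField ℚ ℂ} (hB : IsLayer p n B)
    (h : k ≤ K ⊔ B) :
    letI := algC h
    ∀ γ : ↥(K ⊔ B) ≃ₐ[k] ↥(K ⊔ B), (∀ x : ↥(K ⊔ B), (x : ℂ) ∈ K → γ x = x) →
      γ ^ (p ^ n) = 1 := by
  let _ := algC h
  intro γ hγ
  obtain ⟨fdB, hGB, -⟩ := LAY_thm p n B hB
  refine GCC.triv h (γ ^ (p ^ n)) ?_ ?_
  · exact K_MAINKX.triv_pow (fun x : ↥(K ⊔ B) => (x : ℂ) ∈ K) γ hγ _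
  · intro x hx
    let _ : Algebra B ↥(K ⊔ B) := algC le_sup_right
    have : IsScalarTower ℚ B ↥(K ⊔ B) := IsScalarTower.of_algebraMap_eq (fun _ => rfl)
    have : IsScalarTower ℚ k ↥(K ⊔ B) := IsScalarTower.of_algebraMap_eq (fun _ => rfl)
    have h1 : ((γ.restrictScalars ℚ).restrictNormal B) ^ (p ^ n) = 1 := by
      have h2 : Nat.card (B ≃ₐ[ℚ] B) = p ^ n := by
        rw [IsGalois.card_aut_eq_finrank, hB.1]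
      rw [← h2]
      exact pow_card_eq_one'
    have h3 : ∀ j : ℕ, ∀ y : B, ((((γ.restrictScalars ℚ).restrictNormal B) ^ j) y : ℂ) =
        ((γ ^ j) (algebraMap B ↥(K ⊔ B) y) : ↥(K ⊔ B)) := by
      intro j
      induction j with
      | zero => intro y; rfl
      | succ j ih =>
        intro y
        rw [pow_succ, AlgEquiv.mul_apply, ih, pow_succ, AlgEquiv.mul_apply]
        congr 2
        exact AlgEquiv.restrictNormal_commutes (γ.restrictScalars ℚ) B y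
    have h4 := h3 (p ^ n) ⟨x, hx⟩
    rw [h1] at h4
    exact Subtype.ext h4.symm

/-- M0Y -/
theorem y_M0Y : S_M0Y := by
  intro p _ k K B _ _ hB S hS
  classical
  have h3 : ∀ l : ℕ, ∃ C : ℕ, l ∈ S → ∀ n,
      Nat.card {v : HeightOneSpectrum (𝓞 ↥(K ⊔ B n)) // (l : 𝓞 ↥(K ⊔ B n)) ∈ v.asIdeal} ≤ C := by
    intro l
    by_cases hl : l ∈ S
    · obtain ⟨C, hC⟩ := kPRB p K B hB.lay l (hS l hl)
      exact ⟨C, fun _ => hC⟩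
    · exact ⟨0, fun h => absurd h hl⟩
  choose C hC using h3
  refine ⟨S.sup C, ?_⟩
  intro n h
  letI := Pool.Agent.RI.algC h
  intro γ hγ v hv
  obtain ⟨l, hl, hlv⟩ := hv
  have h4 : γ ^ (p ^ n) = 1 := ord_one (hB.lay n) h γ hγ
  exact K_M0X.aux p γ n (S.sup C) l (hS l hl).ne_zero h4
    (le_trans (hC l hl n) (Finset.le_sup hl)) v hlv

open K_KOLX in
/-- KOLY -/
theorem y_KOLY : S_KOLY := by
  intro F _ p _ k K₀ K B _ _ _ _ hS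
  obtain ⟨S', h2S', hpS', hS'p, hram⟩ := y_RAMY p k K B hS.b
  refine ⟨S', h2S', hpS', hS'p, ?_⟩
  intro hk hk₀ hh hkK S c c₀ n₁ hI S₁ hSS hS₁p n hn
  let : Algebra k ↥(K ⊔ B n) := algC (hk n)
  let : Algebra k ↥(K₀ ⊔ B n) := algC (hk₀ n)
  let : Algebra ↥(K₀ ⊔ B n) ↥(K ⊔ B n) := algC (hh n)
  intro g g' hg'K hgg' hfix u hu
  have tower := Pool.Agent.FX.tower k ↥(K₀ ⊔ B n) ↥(K ⊔ B n) (fun x => rfl)
  have fdK₀ : FiniteDimensional ℚ ↥K₀ :=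
    FiniteDimensional.of_injective (IntermediateField.inclusion hS.le).toLinearMap
      (IntermediateField.inclusion_injective hS.le)
  obtain ⟨galM, commM⟩ := y_GALY p k K B hS.b n (hk n)
  obtain ⟨galL, commL⟩ := k_GALX p k K₀ B hS.b0 n (hk₀ n)
  have hp : p.Prime := Fact.out
  have hsub : S ⊆ S₁ := Finset.subset_union_left.trans hSS
  have hsub' : S' ⊆ S₁ := Finset.subset_union_right.trans hSS
  have hcn : (⟨c n, hI.mem n⟩ : ↥(K ⊔ B n)) ≠ 0 := by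
    intro h0
    exact hI.ne n (congrArg Subtype.val h0)
  have su1 : SU S₁ ↥(K ⊔ B n) ⟨c n, hI.mem n⟩ := P_MONO.su hsub (hI.su n hn)
  have kol1 := kol_mono hsub (hI.kol n hn)
  obtain ⟨u', hu'⟩ := t_UNI k ↥(K ⊔ B n) S₁ ⟨c n, hI.mem n⟩ hcn su1 g' hfix p
  have hrel := k_KINX p k ↥(K ⊔ B n) commM S₁ (hsub' hpS') ⟨c n, hI.mem n⟩ hcn su1 _ kol1 g' hg'K
    hfix u' hu'
  have galLM : IsGalois ↥(K₀ ⊔ B n) ↥(K ⊔ B n) :=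
    IsGalois.tower_top_of_isGalois k ↥(K₀ ⊔ B n) ↥(K ⊔ B n)
  have fdLM : FiniteDimensional ↥(K₀ ⊔ B n) ↥(K ⊔ B n) := inferInstance
  have hgg : ∀ x : ↥(K₀ ⊔ B n), algebraMap ↥(K₀ ⊔ B n) ↥(K ⊔ B n) (g x) =
      g' (algebraMap ↥(K₀ ⊔ B n) ↥(K ⊔ B n) x) := fun x => Subtype.ext (hgg' x).symm
  have hnorm : Algebra.norm ↥(K₀ ⊔ B n) (⟨c n, hI.mem n⟩ : ↥(K ⊔ B n)) = ⟨c₀ n, hI.mem₀ n⟩ := by
    apply (algebraMap ↥(K₀ ⊔ B n) ↥(K ⊔ B n)).injective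
    rw [Algebra.norm_eq_prod_automorphisms]
    apply Subtype.ext
    have e1 : ((algebraMap ↥(K₀ ⊔ B n) ↥(K ⊔ B n) ⟨c₀ n, hI.mem₀ n⟩ : ↥(K ⊔ B n)) : ℂ) = c₀ n := rfl
    have e2 : ((∏ σ : ↥(K ⊔ B n) ≃ₐ[↥(K₀ ⊔ B n)] ↥(K ⊔ B n), σ ⟨c n, hI.mem n⟩ : ↥(K ⊔ B n)) : ℂ) =
        ∏ σ : ↥(K ⊔ B n) ≃ₐ[↥(K₀ ⊔ B n)] ↥(K ⊔ B n), ((σ ⟨c n, hI.mem n⟩ : ↥(K ⊔ B n)) : ℂ) :=
      map_prod (algebraMap ↥(K ⊔ B n) ℂ) _ _
    rw [e1, e2, hI.norm n, ← finprod_eq_prod_of_fintype]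
    refine finprod_eq_of_bijective
      (fun σ => ⟨σ.restrictScalars k, fun x hx => σ.commutes ⟨(x : ℂ), hx⟩⟩) ⟨?_, ?_⟩ fun σ => rfl
    · intro σ τ h
      have h5 := congrArg (fun θ : NC (hk n) (K₀ ⊔ B n) => (θ : ↥(K ⊔ B n) ≃ₐ[k] ↥(K ⊔ B n))) h
      ext x
      have h6 := congrArg (fun θ : ↥(K ⊔ B n) ≃ₐ[k] ↥(K ⊔ B n) => ((θ x : ↥(K ⊔ B n)) : ℂ)) h5
      exact h6
    · intro θ
      refine ⟨AlgEquiv.ofRingEquiv (f := ((θ : ↥(K ⊔ B n) ≃ₐ[k] ↥(K ⊔ B n)) : ↥(K ⊔ B n) ≃+* ↥(K ⊔ B n)))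
        (fun y => θ.2 _ y.2), ?_⟩
      apply Subtype.ext
      ext x
      rfl
  have hnu : ((u : 𝓞 ↥(K₀ ⊔ B n)) : ↥(K₀ ⊔ B n)) =
      Algebra.norm ↥(K₀ ⊔ B n) ((u' : 𝓞 ↥(K ⊔ B n)) : ↥(K ⊔ B n)) := by
    have hc0 : (⟨c₀ n, hI.mem₀ n⟩ : ↥(K₀ ⊔ B n)) ≠ 0 := by
      rw [← hnorm]
      exact Pool.Agent.FX.norm_ne hcn
    rw [hu, div_eq_iff hc0, ← hnorm, ← norm_comp_pow commM g g' hgg, ← map_mul, hu',
      div_mul_cancel₀ _ hcn]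
  obtain ⟨ζ, hζK, hζ⟩ := hS.ze
  have hζL : ζ ∈ K ⊔ B n := (le_sup_left : K ≤ K ⊔ B n) hζK
  have h2p : NeZero (2 * p) := ⟨by have := hp.pos; omega⟩
  have hζ' : IsPrimitiveRoot (⟨ζ, hζL⟩ : ↥(K ⊔ B n)) (2 * p) := by
    refine IsPrimitiveRoot.of_map_of_injective (f := algebraMap ↥(K ⊔ B n) ℂ) ?_ ?_
    · exact hζ
    · exact (algebraMap ↥(K ⊔ B n) ℂ).injective
  exact k_KNM p k ↥(K₀ ⊔ B n) ↥(K ⊔ B n) commM S₁ hζ'.toInteger hζ'.toInteger_isPrimitiveRoot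
    (hsub' h2S') (hsub' hpS') hS₁p (hram S₁ hsub' n (hk n)) u' u hnu hrel

open K_SU0 in
/-- SU0Y -/
theorem y_SU0Y : S_SU0Y := by
  intro F _ p _ k K₀ K B _ _ _ _ hX hk hk₀ hkK S c c₀ n₁ hI n hn
  have hh : K₀ ⊔ B n ≤ K ⊔ B n := sup_le_sup_right hX.le _
  let _ := algC (hk n)
  let _ := algC hh
  have : NumberField k := numC k
  have : FiniteDimensional ↥k ↥(K ⊔ B n) := by
    have : IsScalarTower ℚ ↥k ↥(K ⊔ B n) := IsScalarTower.of_algebraMap_eq fun x => rfl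
    exact Pool.Agent.FX.fright ℚ ↥k ↥(K ⊔ B n)
  have hfin : Finite (↥(K ⊔ B n) ≃ₐ[k] ↥(K ⊔ B n)) := inferInstance
  have := Fintype.ofFinite (NC (hk n) (K₀ ⊔ B n))
  have hc : (⟨c n, hI.mem n⟩ : ↥(K ⊔ B n)) ≠ 0 := by
    intro h
    exact hI.ne n (congrArg Subtype.val h)
  have hsu := hI.su n hn
  have hnorm := hI.norm n
  rw [finprod_eq_prod_of_fintype] at hnorm
  set y : ↥(K ⊔ B n) := ∏ g : NC (hk n) (K₀ ⊔ B n),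
    (g : ↥(K ⊔ B n) ≃ₐ[k] ↥(K ⊔ B n)) ⟨c n, hI.mem n⟩ with hy
  have hy1 : c₀ n = (y : ℂ) := by
    rw [hnorm, hy]
    exact (map_prod (K ⊔ B n).val _ _).symm
  have hy0 : y ≠ 0 := by
    rw [hy, Finset.prod_ne_zero_iff]
    intro g _ h
    exact hc ((map_eq_zero_iff _ (g : ↥(K ⊔ B n) ≃ₐ[k] ↥(K ⊔ B n)).injective).1 h)
  have hc0 : c₀ n ≠ 0 := by
    intro h
    apply hy0
    apply Subtype.ext
    rw [← hy1, h]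
    rfl
  refine ⟨hc0, ?_⟩
  have hx0 : (⟨c₀ n, hI.mem₀ n⟩ : ↥(K₀ ⊔ B n)) ≠ 0 := by
    intro h
    exact hc0 (congrArg Subtype.val h)
  refine su_down (M := ↥(K ⊔ B n)) hx0 ?_
  have e : algebraMap ↥(K₀ ⊔ B n) ↥(K ⊔ B n) ⟨c₀ n, hI.mem₀ n⟩ = y := Subtype.ext hy1
  rw [e, hy]
  exact su_prod _ fun g _ => su_act hsu _

open I3X19 in
theorem core {k L M F : Type} [Field k] [Field L] [NumberField L] [Field M] [Algebra k L]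
    [Algebra k M] [Field F] (p : ℕ) (hp : p ≠ 0) (j : M →+* L)
    (r : (L ≃ₐ[k] L) →* (M ≃ₐ[k] M))
    (hr : ∀ (σ : L ≃ₐ[k] L) (x : M), j (r σ x) = σ (j x))
    (comm : ∀ σ τ : M ≃ₐ[k] M, σ * τ = τ * σ) (γ : L ≃ₐ[k] L) (m n m₀ : ℕ)
    (hfix : ∀ x : L, (γ ^ (p ^ m)) x = x ↔ ∃ z : M, j z = x)
    (D : Subgroup (L ≃ₐ[k] L)) [Fintype D] (D' : Subgroup (M ≃ₐ[k] M)) [Fintype D']
    (e : D ≃* D') (he : ∀ δ : D, ((e δ : D') : M ≃ₐ[k] M) = r δ)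
    (cn : L) (cm : M) (hcm : cm ≠ 0) (C : L) (hC : C ≠ 0)
    (hCγ : (γ ^ (p ^ (m₀ + 1))) C = C)
    (hnrm : ∏ i ∈ range (p ^ (n - m)), (γ ^ (p ^ m * i)) cn = C * j cm)
    (hω : ∀ w : L, w ^ p = 1 → γ w = w) (u : (𝓞 L)ˣ)
    (hu : ((u : 𝓞 L) : L) = ((γ ^ (p ^ m₀)) ^ p) cn / cn)
    (χ : D →* Fˣ) (θ : F →+ ZMod p)
    (hi3 : ∀ y : M, y ^ p ≠ ∏ δ : D', ((δ : M ≃ₐ[k] M)
      ((Tg (r γ))^[p ^ (m₀ + 1) + 2] cm)) ^ (θ ((χ.comp e.symm.toMonoidHom δ)⁻¹ : Fˣ)).val)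
    (hTN : ∃ w : M, w ≠ 0 ∧ (Tg (r γ))^[p ^ (m₀ + 1)] cm =
      ((r γ) ^ (p ^ (m₀ + 1))) cm / cm * w ^ p) :
    ((sUnitP p D γ m n χ θ u : 𝓞 L) : L) ≠ 0 ∧
    ∀ y : L, y ^ p ≠ γ ((sUnitP p D γ m n χ θ u : 𝓞 L) : L) /
      ((sUnitP p D γ m n χ θ u : 𝓞 L) : L) := by
  rw [sUnit_val]
  set G : L ≃ₐ[k] L := (γ ^ (p ^ m₀)) ^ p with hG
  have hG' : G = γ ^ (p ^ (m₀ + 1)) := by rw [hG, ← pow_mul, pow_succ]
  set um : M := ((r γ) ^ (p ^ (m₀ + 1))) cm / cm with hum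
  have hjcm : j cm ≠ 0 := by rw [Ne, map_eq_zero]; exact hcm
  have hrG : r G = (r γ) ^ (p ^ (m₀ + 1)) := by rw [hG', map_pow]
  -- the norm of u
  have hN : ∏ i ∈ range (p ^ (n - m)), ((γ ^ (p ^ m)) ^ i) ((u : 𝓞 L) : L) = j um := by
    have e1 : ∀ i ∈ range (p ^ (n - m)), ((γ ^ (p ^ m)) ^ i) ((u : 𝓞 L) : L) =
        G ((γ ^ (p ^ m * i)) cn) / (γ ^ (p ^ m * i)) cn := by
      intro i _
      rw [hu, ← pow_mul, map_div₀]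
      congr 1
      rw [← AlgEquiv.mul_apply, ← AlgEquiv.mul_apply, hG', ← pow_add, ← pow_add, add_comm]
    have hGC : G C = C := by rw [hG']; exact hCγ
    rw [prod_congr rfl e1, prod_div_distrib, ← map_prod, hnrm, map_mul, hGC, ← hr, hrG,
      mul_div_mul_left _ _ hC, hum, map_div₀]
  rw [hN]
  -- the element of M
  set sm : M := ∏ δ : D', ((δ : M ≃ₐ[k] M) um) ^
    (θ ((χ.comp e.symm.toMonoidHom δ)⁻¹ : Fˣ)).val with hsm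
  have hs : ∏ δ : D, ((δ : L ≃ₐ[k] L) (j um)) ^ (θ ((χ δ)⁻¹ : Fˣ)).val = j sm := by
    rw [hsm, map_prod, ← e.toEquiv.prod_comp]
    refine prod_congr rfl fun δ _ => ?_
    rw [map_pow]
    congr 1
    · rw [← hr]
      congr 1
      show (r δ) um = ((e δ : D') : M ≃ₐ[k] M) um
      rw [he]
    · show _ = (θ ((χ (e.symm (e δ)))⁻¹ : Fˣ)).val
      rw [e.symm_apply_apply]
  rw [hs]
  have hum0 : um ≠ 0 := by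
    rw [hum]
    exact div_ne_zero ((map_ne_zero _).mpr hcm) hcm
  have hsm0 : sm ≠ 0 := by
    rw [hsm, prod_ne_zero_iff]
    intro δ _
    exact pow_ne_zero _ ((map_ne_zero _).mpr hum0)
  have hjsm0 : j sm ≠ 0 := (map_ne_zero _).mpr hsm0
  refine ⟨hjsm0, fun y hy => ?_⟩
  -- `y ^ p = j (T sm)`
  have hjT : ∀ x : M, γ (j x) / j x = j (Tg (r γ) x) := by
    intro x
    unfold Tg
    rw [map_div₀, hr]
  rw [hjT] at hy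
  have hTs0 : Tg (r γ) sm ≠ 0 := div_ne_zero ((map_ne_zero _).mpr hsm0) hsm0
  have hjTs0 : j (Tg (r γ) sm) ≠ 0 := (map_ne_zero _).mpr hTs0
  have hy0 : y ≠ 0 := by
    rintro rfl
    rw [zero_pow hp] at hy
    exact hjTs0 hy.symm
  set h : L ≃ₐ[k] L := γ ^ (p ^ m) with hh
  have hhy : h y ≠ 0 := (map_ne_zero _).mpr hy0
  have hw3 : (h y / y) ^ p = 1 := by
    rw [div_pow, ← map_pow, hy, (hfix (j (Tg (r γ) sm))).mpr ⟨_, rfl⟩, div_self hjTs0]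
  have hw : γ (h y / y) = h y / y := hω _ hw3
  have hcomm : ∀ x : L, h (γ x) = γ (h x) := by
    intro x
    rw [← AlgEquiv.mul_apply, ← AlgEquiv.mul_apply, hh, ← pow_succ, ← pow_succ']
  have hγy : γ y ≠ 0 := (map_ne_zero _).mpr hy0
  have ht : h (γ y / y) = γ y / y := by
    rw [map_div₀, hcomm]
    rw [map_div₀] at hw
    rw [div_eq_div_iff hγy hy0] at hw
    rw [div_eq_div_iff hhy hy0, hw, mul_comm]
  obtain ⟨t, htj⟩ := (hfix _).mp ht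
  -- T (T sm) = t ^ p
  have hT : Tg (r γ) (Tg (r γ) sm) = t ^ p := by
    apply j.injective
    rw [map_pow, htj, div_pow, ← map_pow, hy, hjT]
  obtain ⟨w, hw0, hTw⟩ := hTN
  have hTN' : (Tg (r γ))^[p ^ (m₀ + 1) + 2] cm =
      Tg (r γ) (Tg (r γ) um) * (Tg (r γ) (Tg (r γ) w)) ^ p := by
    rw [Function.iterate_succ_apply', Function.iterate_succ_apply', hTw, Tg_mul, Tg_pow, Tg_mul,
      Tg_pow]
  apply hi3 (t * ∏ δ : D', ((δ : M ≃ₐ[k] M) (Tg (r γ) (Tg (r γ) w))) ^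
      (θ ((χ.comp e.symm.toMonoidHom δ)⁻¹ : Fˣ)).val)
  rw [hTN', mul_pow, ← hT, hsm, Tg_prod p comm, Tg_prod p comm, ← prod_pow, ← prod_mul_distrib]
  refine prod_congr rfl fun δ _ => ?_
  rw [map_mul, map_pow, mul_pow]
  congr 1
  rw [← pow_mul, ← pow_mul, mul_comm]

/-- forget (I3) -/
theorem toW {F : Type} [Field F] {p : ℕ} {k K₀ K : IntermediateField ℚ ℂ}
    {B : ℕ → IntermediateField ℚ ℂ} [FiniteDimensional ℚ k]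
    [∀ n, FiniteDimensional ℚ ↥(K ⊔ B n)] {hk : ∀ n, k ≤ K ⊔ B n} {hk₀ : ∀ n, k ≤ K₀ ⊔ B n}
    {hkK : k ≤ K₀} {S : Finset ℕ} {c c₀ : ℕ → ℂ} {n₁ : ℕ}
    (h : InpX F p k K₀ K B hk hk₀ hkK S c c₀ n₁) :
    Pool.Agent.MUXZ.InpW p k K₀ K B hk hk₀ S c c₀ n₁ :=
  ⟨h.mem, h.ne, h.mem₀, h.norm, h.prime, h.su, h.nrm, h.kol⟩

open I3X19 in
/-- I3Y -/
theorem y_I3Y : S_I3Y := by
  intro F _ p _ k K₀ K B _ _ _ _ hX hk hk₀ hh hkK S c c₀ n₁ hI m₀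
  have hp0 : p ≠ 0 := (Fact.out : p.Prime).ne_zero
  have hfin : FiniteDimensional ℚ K₀ :=
    FiniteDimensional.of_injective (IntermediateField.inclusion hX.le).toLinearMap
      (IntermediateField.inclusion hX.le).injective
  obtain ⟨ω, hωK, hω1⟩ := hX.om
  let _ := algC hkK
  have htow : IsScalarTower ℚ k K₀ := IsScalarTower.of_algebraMap_eq fun x => rfl
  have hfin2 : FiniteDimensional k K₀ := Pool.Agent.FX.fright ℚ k K₀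
  have hfin3 : Finite (↥K₀ ≃ₐ[k] ↥K₀) := inferInstance
  have hfin4 : Finite ((↥K₀ ≃ₐ[k] ↥K₀) →* Fˣ) := inferInstance
  choose μ hμ1 hμ2 using fun χ : (↥K₀ ≃ₐ[k] ↥K₀) →* Fˣ => hI.i3 χ (p ^ (m₀ + 1) + 2) (max n₁ 1)
  obtain ⟨m₁, hm₁⟩ := (Set.finite_range μ).bddAbove
  have hm₁' : ∀ χ, μ χ ≤ m₁ := fun χ => hm₁ (Set.mem_range_self χ)
  have hm₁a := (hμ1 1).trans (hm₁' 1)
  refine ⟨m₁, (le_max_left _ _).trans hm₁a, (le_max_right _ _).trans hm₁a, ?_⟩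
  intro n hmn
  let _ := algC (hk₀ n)
  let _ := algC (hh n)
  let _ := algC (hk n)
  intro γ hγ _ u hu χ
  obtain ⟨ρn, hρn⟩ := restr k_RSX p k K₀ B hX.b0 hX.cop hkK n (hk₀ n)
  obtain ⟨ψ, hψ⟩ : ∃ ψ : (↥K₀ ≃ₐ[k] ↥K₀) →* Fˣ, ∀ δ, ψ (ρn δ) = χ δ :=
    ⟨χ.comp ρn.symm.toMonoidHom, fun δ => by
      show χ (ρn.symm (ρn δ)) = χ δ
      rw [ρn.symm_apply_apply]⟩
  have hm1 := hμ1 ψ
  have hm2 := hμ2 ψ
  have hm3 := hm₁' ψ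
  obtain ⟨m, hm⟩ : ∃ m, m = μ ψ := ⟨_, rfl⟩
  rw [← hm] at hm1 hm2 hm3
  refine ⟨m, hm3, ?_⟩
  let _ := algC (hk₀ m)
  have hmn' : m ≤ n := hm3.trans hmn
  have hsub : K₀ ⊔ B m ≤ K₀ ⊔ B n := sup_le_sup_left (hX.b0.mono hmn') K₀
  obtain ⟨r, hr, hrγ, e, he⟩ := k_RSX p k K₀ B hX.b0 hX.cop m n hmn' (hk₀ n) (hk₀ m) hsub
  obtain ⟨ρm, hρm⟩ := restr k_RSX p k K₀ B hX.b0 hX.cop hkK m (hk₀ m)
  obtain ⟨hr1, hr2⟩ := hrγ γ hγ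
  let _ : Fintype (NC (hk₀ m) (B m)) := Fintype.ofEquiv _ e.toEquiv
  obtain ⟨θ, hθ0⟩ := hm2 (r γ) hr1 (fun δ => ρm δ) hρm
  have hρ : ∀ δ, ρm (e δ) = ρn δ := by
    intro δ
    refine AlgEquiv.ext fun x => Subtype.ext ?_
    have hx1 : (x : ℂ) ∈ K₀ ⊔ B m := le_sup_left (a := K₀) x.2
    rw [← hρm (e δ) x ⟨x, hx1⟩ rfl, ← hρn δ x ⟨x, hsub hx1⟩ rfl, he]
    exact hr _ ⟨x, hx1⟩
  have hχ : ∀ δ, ψ (ρm δ) = (χ.comp e.symm.toMonoidHom) δ := by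
    intro δ
    show ψ (ρm δ) = χ (e.symm δ)
    rw [← hψ, ← hρ, e.apply_symm_apply]
  have hθ : ∀ y : ↥(K₀ ⊔ B m), y ^ p ≠ ∏ δ : NC (hk₀ m) (B m),
      ((δ : ↥(K₀ ⊔ B m) ≃ₐ[k] ↥(K₀ ⊔ B m)) ((Tg (r γ))^[p ^ (m₀ + 1) + 2] ⟨c₀ m, hI.mem₀ m⟩)) ^
        (θ (((χ.comp e.symm.toMonoidHom) δ)⁻¹ : Fˣ)).val := by
    intro y hy
    refine hθ0 y (hy.trans ?_)
    exact prod_congr rfl fun δ _ => by rw [hχ]
  obtain ⟨C, hCk, hC0, hC⟩ := y_NRXY p k K₀ K B hX hk hk₀ S c c₀ n₁ (toW hI) m n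
    ((le_max_left _ _).trans hm1) ((le_max_right _ _).trans hm1) hmn' γ hγ
  refine ⟨θ, ?_⟩
  have hc0 : ∀ i, c₀ i ≠ 0 := by
    intro i
    let _ := algC (hk i)
    rw [hI.norm i]
    refine finprod_induction (p := fun x : ℂ => x ≠ 0) one_ne_zero (fun x y hx hy => mul_ne_zero hx hy)
      fun g hg => ?_
    have h6 := (map_eq_zero ((g : NC (hk i) (K₀ ⊔ B i)) : ↥(K ⊔ B i) ≃ₐ[k] ↥(K ⊔ B i))).1
      (Subtype.ext hg)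
    exact hI.ne i (congrArg Subtype.val h6)
  have hcm : (⟨c₀ m, hI.mem₀ m⟩ : ↥(K₀ ⊔ B m)) ≠ 0 := by
    intro h; exact hc0 m (congrArg Subtype.val h)
  have a1 := k_TNX p k ↥(K₀ ⊔ B m) (r γ) (m₀ + 1) _ hcm
  have a2 := (k_GALX p k K₀ B hX.b0 m (hk₀ m)).2
  have b1 : ∀ (σ : ↥(K₀ ⊔ B n) ≃ₐ[k] ↥(K₀ ⊔ B n)) (x : ↥(K₀ ⊔ B m)),
      (IntermediateField.inclusion hsub : ↥(K₀ ⊔ B m) →+* ↥(K₀ ⊔ B n)) (r σ x) =
        σ ((IntermediateField.inclusion hsub : ↥(K₀ ⊔ B m) →+* ↥(K₀ ⊔ B n)) x) :=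
    fun σ x => Subtype.ext ((Pool.Agent.FX.incl_coe' hsub _).trans (hr σ x))
  have b2 : ∀ x : ↥(K₀ ⊔ B n), (γ ^ (p ^ m)) x = x ↔
      ∃ z : ↥(K₀ ⊔ B m),
        (IntermediateField.inclusion hsub : ↥(K₀ ⊔ B m) →+* ↥(K₀ ⊔ B n)) z = x := by
    intro x
    rw [hr2 x]
    constructor
    · intro hx
      exact ⟨⟨x, hx⟩, rfl⟩
    · rintro ⟨z, rfl⟩
      exact Pool.Agent.FX.incl_mem' hsub z
  have hK₀n : K₀ ≤ K₀ ⊔ B n := le_sup_left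
  have h1n : 1 ≤ n := ((le_max_right _ _).trans hm1).trans hmn'
  have hK1n : K₀ ⊔ B 1 ≤ K₀ ⊔ B n := sup_le_sup_left (hX.b0.mono h1n) K₀
  have b3 : (⟨C, hK1n hCk⟩ : ↥(K₀ ⊔ B n)) ≠ 0 := by
    intro h; exact hC0 (congrArg Subtype.val h)
  have b4 : (γ ^ (p ^ (m₀ + 1))) (⟨C, hK1n hCk⟩ : ↥(K₀ ⊔ B n)) = ⟨C, hK1n hCk⟩ := by
    let _ := algC (hk₀ 1)
    obtain ⟨r1, _, hr1γ, _⟩ := k_RSX p k K₀ B hX.b0 hX.cop 1 n h1n (hk₀ n) (hk₀ 1) hK1n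
    have h6 : (γ ^ (p ^ 1)) (⟨C, hK1n hCk⟩ : ↥(K₀ ⊔ B n)) = ⟨C, hK1n hCk⟩ :=
      ((hr1γ γ hγ).2 _).2 hCk
    have h7 : γ ^ (p ^ (m₀ + 1)) = (γ ^ (p ^ 1)) ^ (p ^ m₀) := by
      rw [← pow_mul, ← pow_add, add_comm]
    rw [h7]
    exact K_MAINKX.triv_pow (fun x : ↥(K₀ ⊔ B n) => x = ⟨C, hK1n hCk⟩) (γ ^ (p ^ 1))
      (fun x hx => by rw [hx]; exact h6) _ _ rfl
  have b5 : ∏ i ∈ range (p ^ (n - m)), (γ ^ (p ^ m * i)) ⟨c₀ n, hI.mem₀ n⟩ =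
      ⟨C, hK1n hCk⟩ *
        (IntermediateField.inclusion hsub : ↥(K₀ ⊔ B m) →+* ↥(K₀ ⊔ B n)) ⟨c₀ m, hI.mem₀ m⟩ :=
    Subtype.ext hC
  have b6 : ∀ w : ↥(K₀ ⊔ B n), w ^ p = 1 → γ w = w := by
    intro w hw
    rw [hγ w]
    have hw' : (w : ℂ) ^ p = 1 := congrArg Subtype.val hw
    have : NeZero p := ⟨hp0⟩
    obtain ⟨i, _, hi⟩ := hω1.eq_pow_of_pow_eq_one hw'
    rw [← hi]
    exact K₀.pow_mem hωK i
  have a4 := core (F := F) p hp0 _ r b1 a2 γ m n m₀ b2 (NC (hk₀ n) (B n)) (NC (hk₀ m) (B m)) e he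
  have a5 := a4 ⟨c₀ n, hI.mem₀ n⟩ ⟨c₀ m, hI.mem₀ m⟩ hcm _ b3 b4 b5 b6 u hu χ θ
  obtain ⟨a6, a7⟩ := a5 hθ a1
  intro y hy
  have hst := Pool.Agent.FX.tower k ↥(K₀ ⊔ B n) ↥(K ⊔ B n) fun x => rfl
  have hg1 := (k_GALX p k K₀ B hX.b0 n (hk₀ n)).1
  obtain ⟨hg2, hg3⟩ := y_GALY p k K B hX.b n (hk n)
  have hωn : ω ∈ K₀ ⊔ B n := hK₀n hωK
  have hω2 : IsPrimitiveRoot (⟨ω, hωn⟩ : ↥(K₀ ⊔ B n)) p := by
    refine IsPrimitiveRoot.of_map_of_injective (f := (K₀ ⊔ B n).val) ?_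
      (K₀ ⊔ B n).val.injective
    exact hω1
  obtain ⟨t, ht⟩ := k_NCP p k ↥(K₀ ⊔ B n) ↥(K ⊔ B n) hg3 γ ⟨ω, hωn⟩ hω2 ((hγ _).2 hωK) _ a6 y hy
  exact a7 t ht

open K_MAINKX in
/-- MAINKY -/
theorem j_MAINKY : Pool.Agent.MUXJ.S_MAINKY := by
  intro F _ p hp _ _ k K₀ K B _ _ _ hX hk hk₀ hkK S c c₀ n₁ hI
  have hh : ∀ n, K₀ ⊔ B n ≤ K ⊔ B n := fun n => sup_le_sup_right hX.le _
  have hfd : ∀ {E E' : IntermediateField ℚ ℂ}, E ≤ E' → FiniteDimensional ℚ E' →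
      FiniteDimensional ℚ E := by
    intro E E' hle hE'
    exact FiniteDimensional.of_injective (IntermediateField.inclusion hle).toLinearMap
      (IntermediateField.inclusion hle).injective
  haveI hfd₀ : FiniteDimensional ℚ K₀ := hfd hX.le inferInstance
  haveI hfdn : ∀ n, FiniteDimensional ℚ ↥(K₀ ⊔ B n) := fun n => hfd (hh n) inferInstance
  obtain ⟨S', h2S', hpS', hS'p, kol⟩ := y_KOLY F p k K₀ K B hX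
  obtain ⟨Sa, h2Sa, hpSa, hSap, rama⟩ := k_RAMX p k K₀ B hX.b0
  set S₁ : Finset ℕ := (S ∪ S') ∪ Sa with hS₁
  have hS₁p : ∀ ℓ ∈ S₁, ℓ.Prime := by
    intro ℓ hℓ
    rcases Finset.mem_union.1 hℓ with h | h
    · rcases Finset.mem_union.1 h with h | h
      · exact hI.prime ℓ h
      · exact hS'p ℓ h
    · exact hSap ℓ h
  have h2S₁ : 2 ∈ S₁ := Finset.mem_union_right _ h2Sa
  have hpS₁ : p ∈ S₁ := Finset.mem_union_right _ hpSa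
  obtain ⟨ma, hma⟩ := y_M0Y p k K B hX.b S₁ hS₁p
  obtain ⟨mb, hmb⟩ := k_M0X p k K₀ B hX.b0 S₁ hS₁p
  set m₀ : ℕ := max ma mb + 1 with hm₀
  obtain ⟨m, hmn₁, hm1, hm⟩ := y_I3Y F p k K₀ K B hX hk hk₀ hh hkK S c c₀ n₁ hI m₀
  set d : ℕ := Module.finrank ℚ ↥(K ⊔ B 1) / Module.finrank ℚ ↥(K₀ ⊔ B 1) with hd
  refine k_FINX p (p ^ (max m m₀ + 1) + 1 + d) k K₀ B hX.b0.hk hX.b0.deg hX.b0.lay hX.b0.mono ?_
  intro n h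
  letI : Algebra k ↥(K₀ ⊔ B n) := algC h
  intro g hg b
  have tw := k_TWX p k K₀ B hX.b0 hX.cop n h g hg
  rcases lt_or_ge n m with hnm | hmn
  · have hle : n ≤ max m m₀ + 1 := (hnm.le.trans (le_max_left _ _)).trans (Nat.le_succ _)
    have h11 : g ^ (p ^ (max m m₀ + 1)) = 1 := by
      rw [← orderOf_dvd_iff_pow_eq_one, tw.ord]
      exact pow_dvd_pow p hle
    obtain ⟨y, hy⟩ := iter_mem p (max m m₀ + 1) g h11 ((Pool.Agent.RID.dg g)^[1] ((Pool.Agent.RID.dg g)^[d] b))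
    refine ⟨y, 1, ?_⟩
    rw [Function.iterate_add_apply, Function.iterate_add_apply, hy, map_one, mul_one]
  · letI : Algebra k ↥(K ⊔ B n) := algC (hk n)
    letI : Algebra ↥(K₀ ⊔ B n) ↥(K ⊔ B n) := algC (hh n)
    haveI := Pool.Agent.FX.tower k ↥(K₀ ⊔ B n) ↥(K ⊔ B n) (fun _ => rfl)
    obtain ⟨gal₀, -⟩ := k_GALX p k K₀ B hX.b0 n h
    obtain ⟨gal, -⟩ := y_GALY p k K B hX.b n (hk n)
    have hn₁ : n₁ ≤ n := hmn₁.trans hmn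
    obtain ⟨hc0, hsu0⟩ := y_SU0Y F p k K₀ K B hX hk hk₀ hkK S c c₀ n₁ hI n hn₁
    have hcn : (⟨c₀ n, hI.mem₀ n⟩ : ↥(K₀ ⊔ B n)) ≠ 0 := by
      intro h0
      exact hc0 (congrArg Subtype.val h0)
    have hSS₁ : S ⊆ S₁ := fun x hx => Finset.mem_union_left _ (Finset.mem_union_left _ hx)
    have su1 := (t_MONO k ↥(K₀ ⊔ B n) S S₁ hSS₁ ⟨c₀ n, hI.mem₀ n⟩).1 hsu0
    have h1n : 1 ≤ n := hm1.trans hmn
    have hK1n : K₀ ⊔ B 1 ≤ K₀ ⊔ B n := sup_le_sup_left (hX.b0.mono h1n) K₀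
    have hgp : ∀ x : ↥(K₀ ⊔ B n), (x : ℂ) ∈ K₀ ⊔ B 1 → (g ^ p) x = x := by
      let _ := algC (hk₀ 1)
      obtain ⟨r1, _, hr1γ, _⟩ := k_RSX p k K₀ B hX.b0 hX.cop 1 n h1n h (hk₀ 1) hK1n
      intro x hx
      have h6 := ((hr1γ g hg).2 x).2 hx
      rwa [pow_one] at h6
    obtain ⟨γ', hγ1', hγ2⟩ := y_LFY p k K₀ K B hX.b0 hX.b hX.le n h1n (hk n) h (hh n) (g ^ p) hgp
    have hγ1 : ∀ x : ↥(K ⊔ B n), (x : ℂ) ∈ K → γ' x = x := fun x hx =>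
      hγ1' x ((le_sup_left : K ≤ K ⊔ B 1) hx)
    have hpow1 := triv_pow (fun x : ↥(K ⊔ B n) => (x : ℂ) ∈ K) γ' hγ1
    have hpow2 := lift_pow h (hk n) (hh n) (g ^ p) γ' hγ2
    have hgm : g ^ (p ^ m₀) = (g ^ p) ^ (p ^ (max ma mb)) := by
      rw [hm₀, ← pow_mul, pow_succ, mul_comm p]
    have hfix : ∀ v : HeightOneSpectrum (𝓞 ↥(K₀ ⊔ B n)), Above S₁ v →
        g ^ (p ^ m₀) • v.asIdeal = v.asIdeal := by
      intro v hv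
      exact fix_pow p mb m₀ ((le_max_right _ _).trans (Nat.le_succ _)) g v.asIdeal
        (hmb n h g (fun x hx => (hg x).2 hx) v hv)
    have hfix' : ∀ v : HeightOneSpectrum (𝓞 ↥(K ⊔ B n)), Above S₁ v →
        γ' ^ (p ^ (max ma mb)) • v.asIdeal = v.asIdeal := by
      intro v hv
      exact fix_pow p ma (max ma mb) (le_max_left _ _) γ' v.asIdeal (hma n (hk n) γ' hγ1 v hv)
    obtain ⟨u, hu⟩ := t_UNI k ↥(K₀ ⊔ B n) S₁ ⟨c₀ n, hI.mem₀ n⟩ hcn su1 (g ^ (p ^ m₀)) hfix p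
    have hrel := kol hk hk₀ hh hkK S c c₀ n₁ hI S₁ Finset.subset_union_left hS₁p n hn₁ (g ^ (p ^ m₀))
      (γ' ^ (p ^ (max ma mb))) (hpow1 _) (fun x => by rw [hgm]; exact hpow2 _ x) hfix' u hu
    have hfinNC : Finite (NC h (B n)) := inferInstance
    letI : Fintype (NC h (B n)) := Fintype.ofFinite _
    obtain ⟨ζ, hζK, hζ⟩ := hX.ze
    obtain ⟨z, hz⟩ := root (E := K ⊔ B n) (q := 2 * p) (by have := hp.out.pos; omega)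
      ((le_sup_left : K ≤ K ⊔ B n) hζK) hζ
    obtain ⟨n', rfl⟩ : ∃ n', n = n' + 1 := ⟨n - 1, by omega⟩
    have hfin : Module.finrank ↥(K₀ ⊔ B (n' + 1)) ↥(K ⊔ B (n' + 1)) = d :=
      finrank_quot (hh (n' + 1)) _ _ (p ^ n') Module.finrank_pos (pow_pos hp.out.pos n')
        (by rw [hX.b0.deg (n' + 1), hX.b0.deg 1]; ring) (hX.b.deg n')
    have hmain := k_NILP p F k ↥(K₀ ⊔ B (n' + 1)) ↥(K ⊔ B (n' + 1)) (n' + 1) m m₀ g (NC h (B (n' + 1))) tw hmn S₁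
      z hz h2S₁ hpS₁ hS₁p (rama S₁ Finset.subset_union_right (n' + 1) h) hfix u hrel
      (hm (n' + 1) hmn g hg u hu) b
    rw [hfin] at hmain
    exact hmain

end Pool.Agent.N2K


end
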