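import Mathlib
import Pool.Agent.MVF.C103
import Pool.Agent.MVF.C113

/-! Parts: ME.WLib, ME.X.W_DIS, ME.X.W_CXW, ME.X.W_KER, ME.X.W_FRH -/

section

/-!
# ME, block W: library (helper21)

An automorphism of `ℂ / k` acts on the points of level `m` of all normalised lattices as multiplication by one element `c`, which is `1` modulo `2` if `m ≤ (2)` (`actW`).
-/

set_option autoImplicit false

namespace Pool.Agent.MUXW

open _root_.MU3 _root_.Pool.Agent.MU3A _root_.Pool.Agent.MU3B _root_.Pool.Agent.RI _root_.Pool.Agent.MUX _root_.Pool.Agent.MUXU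
open _root_.Pool.Agent.ME

noncomputable section

variable {A B : ℤ}

lemma nrm_lat {L L' : PeriodPair} (h : NrmE A B L) (h' : NrmE A B L') (z : ℂ) :
    z ∈ L.lattice ↔ z ∈ L'.lattice := (MEC.c_SGQ A B L L' h h').1 z

lemma nrm_x {L L' : PeriodPair} (h : NrmE A B L) (h' : NrmE A B L') (z : ℂ) :
    xnE L z = xnE L' z := ((MEC.c_SGQ A B L L' h h').2.2 z).1

lemma nrm_y {L L' : PeriodPair} (h : NrmE A B L) (h' : NrmE A B L') (z : ℂ) :
    yy L z = yy L' z := ((MEC.c_SGQ A B L L' h h').2.2 z).2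

/-- from `GRE` to the model of the general statements, `c = 0` -/
lemma gre_zero {V : ValuationSubring ℂ} {L : PeriodPair} (h : MEC.GRE V L) :
    ∃ (W : WeierstrassCurve.Affine ℂ) (ξ : ℂ →+ W.Point),
      Pool.Agent.MUXV.GR V W L (fun z => L.weierstrassP z - 0)
        (fun z => L.derivWeierstrassP z / 2) ξ := by
  obtain ⟨W, ξ, G⟩ := h
  refine ⟨W, ξ, ?_⟩
  have e1 : (fun z => L.weierstrassP z - 0) = xnE L := by
    funext z
    rw [sub_zero]
    rfl
  rw [e1]
  exact G

lemma ink_zero (V : ValuationSubring ℂ) (L : PeriodPair) (z : ℂ) :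
    Pool.Agent.MUXV.InK V L (fun z => L.weierstrassP z - 0) z ↔
      Pool.Agent.MUXV.InK V L (xnE L) z := by
  have e1 : (fun z => L.weierstrassP z - 0) = xnE L := by
    funext z
    rw [sub_zero]
    rfl
  rw [e1]

/-- the converse of `gre_zero` -/
lemma gre_of {V : ValuationSubring ℂ} {L : PeriodPair}
    (h : ∃ (W : WeierstrassCurve.Affine ℂ) (ξ : ℂ →+ W.Point),
      Pool.Agent.MUXV.GR V W L (fun z => L.weierstrassP z - 0)
        (fun z => L.derivWeierstrassP z / 2) ξ) : MEC.GRE V L := by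
  obtain ⟨W, ξ, G⟩ := h
  refine ⟨W, ξ, ?_⟩
  have e1 : (fun z => L.weierstrassP z - 0) = xnE L := by
    funext z
    rw [sub_zero]
    rfl
  rw [e1] at G
  exact G

/-- change of both lattices -/
lemma actE_chg {m a : Ideal (OO A B)} {σ : ℂ ≃+* ℂ} {L L' M M' : PeriodPair} {mu : ℂ}
    (hL : NrmE A B L) (hL' : NrmE A B L') (hM : NrmE A B M) (hM' : NrmE A B M')
    (h : ME.ActE σ m a L L' mu) : ME.ActE σ m a M M' mu := by
  refine ⟨hM.kapc hM' σ, h.cop, ⟨h.isq.1, fun z => ?_⟩, fun z hz => ?_⟩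
  · rw [nrm_lat hM' hL', h.isq.2 z]
    exact forall₂_congr fun x _ => nrm_lat hL hM _
  · have hz' : Tor m L z := fun x hx => (nrm_lat hM hL _).1 (hz x hx)
    rcases h.act z hz' with ⟨f1, f2⟩ | ⟨f1, f2, f3, f4⟩
    · exact Or.inl ⟨(nrm_lat hL hM _).1 f1, (nrm_lat hL' hM' _).1 f2⟩
    · refine Or.inr ⟨fun g => f1 ((nrm_lat hL hM _).2 g), fun g => f2 ((nrm_lat hL' hM' _).2 g), ?_, ?_⟩
      · rw [nrm_x hM hL, nrm_x hM' hL', f3]
      · rw [nrm_y hM hL, nrm_y hM' hL', f4]

/-- the shape of the action -/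
lemma act_shape (h : CaseE A B) {m a : Ideal (OO A B)} (hm : m ≠ ⊥) {σ : ℂ ≃+* ℂ}
    (hσ : FixK A B σ) {b : Ideal (OO A B)} {L L' : PeriodPair} {om mu : ℂ} (hL : IsNE b L om)
    (hL' : NrmE A B L') (hA : ME.ActE σ m a L L' mu) :
    ∃ c : OO A B, mu = emb c ∧ a = sp c ∧ (m ≤ idl 2 → c - 1 ∈ idl (A := A) (B := B) 2) ∧
      ∀ (M M' : PeriodPair), NrmE A B M → NrmE A B M' → ME.ActE σ m (sp c) M M' (emb c) := by
  obtain ⟨⟨c, hc, hac, hc2⟩, -, -⟩ := MEC.c_TRV A B h m a σ b L L' om mu hm hσ hL hA hL'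
  refine ⟨c, hc, hac, hc2, fun M M' hM hM' => ?_⟩
  rw [← hc, ← hac]
  exact actE_chg hL.nrm hL' hM hM' hA

theorem top_ne_bot : (⊤ : Ideal (OO A B)) ≠ ⊥ := by
  intro h0
  have h3 : (1 : OO A B) ∈ (⊥ : Ideal (OO A B)) := h0 ▸ trivial
  rw [Ideal.mem_bot] at h3
  have h4 : (1 : ℤ) = 0 := congrArg QuadraticAlgebra.re h3
  exact one_ne_zero h4

/-- an automorphism acts on the points of level `m` as one element `c` -/
theorem actW (h : CaseE A B) (T : TorXE A B) {m : Ideal (OO A B)} (hm : m ≠ ⊥) {σ : ℂ ≃+* ℂ}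
    (hσ : FixK A B σ) :
    ∃ c : OO A B, IsCoprime (sp c) m ∧ (m ≤ idl 2 → c - 1 ∈ idl (A := A) (B := B) 2) ∧
      ∀ (M M' : PeriodPair), NrmE A B M → NrmE A B M' → ME.ActE σ m (sp c) M M' (emb c) := by
  obtain ⟨L₀, om₀, hL₀⟩ := MEC.exists_isNE h (⊤ : Ideal (OO A B)) top_ne_bot
  obtain ⟨a, hcop, ha⟩ := T.act m hm σ hσ
  obtain ⟨b', L', om', mu, hL', hA⟩ := ha _ _ _ hL₀
  obtain ⟨c, -, hac, hc2, hc⟩ := act_shape h hm hσ hL₀ hL'.nrm hA
  exact ⟨c, hac ▸ hcop, hc2, hc⟩

/-- the action on the coordinates -/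
lemma act_pt {m a : Ideal (OO A B)} {σ : ℂ ≃+* ℂ} {M : PeriodPair} {mu : ℂ}
    (hA : ME.ActE σ m a M M mu) {z : ℂ} (hz : Tor m M z) (hzM : z ∉ M.lattice) :
    mu * z ∉ M.lattice ∧ σ (xnE M z) = xnE M (mu * z) ∧ σ (yy M z) = yy M (mu * z) := by
  rcases hA.act z hz with ⟨f1, -⟩ | ⟨-, f2, f3, f4⟩
  · exact absurd f1 hzM
  · exact ⟨f2, f3, f4⟩

/-- every `c` prime to `m` which is `1` modulo `2` occurs, if `m ≤ (2)` -/
theorem surjW (h : CaseE A B) (T : TorXE A B) {m : Ideal (OO A B)} (hm : m ≠ ⊥)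
    (h2 : m ≤ idl 2) {c : OO A B} (hcm : IsCoprime (sp c) m) (hc2 : c - 1 ∈ idl (A := A) (B := B) 2) :
    ∃ σ : ℂ ≃+* ℂ, FixK A B σ ∧ ∃ c' : OO A B, (c' = c ∨ c' = -c) ∧
      ∀ (M M' : PeriodPair), NrmE A B M → NrmE A B M' → ME.ActE σ m (sp c) M M' (emb c') := by
  have hC := h.toCQ
  obtain ⟨L₀, om₀, hL₀⟩ := MEC.exists_isNE h (⊤ : Ideal (OO A B)) top_ne_bot
  have hc0 : c ≠ 0 := by
    rintro rfl
    rw [mem_two] at hc2
    have h9 : (2 : ℤ) ∣ ((0 : OO A B) - 1).re := hc2.1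
    have h10 : ((0 : OO A B) - 1).re = -1 := rfl
    rw [h10] at h9
    omega
  obtain ⟨σ, hσ, hs⟩ := T.surj m hm (sp c) (by rwa [Ne, Ideal.span_singleton_eq_bot]) hcm
  obtain ⟨b', L', om', mu, hL', hA⟩ := hs _ _ _ hL₀
  obtain ⟨c', hmu, hac, hc2', hc⟩ := act_shape h hm hσ hL₀ hL'.nrm hA
  have := isDomain hC
  obtain ⟨u, hu⟩ := Ideal.span_singleton_eq_span_singleton.1 hac
  refine ⟨σ, hσ, c', ?_, fun M M' hM hM' => ?_⟩
  · have h3 : (u : OO A B) - 1 ∈ idl (A := A) (B := B) 2 := by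
      have h4 : (u : OO A B) * (c - 1) ∈ idl (A := A) (B := B) 2 := Ideal.mul_mem_left _ _ hc2
      have h5 : (u : OO A B) - 1 = (c' - 1) - (u : OO A B) * (c - 1) := by rw [← hu]; ring
      rw [h5]
      exact sub_mem (hc2' h2) h4
    rcases unit_two h u.isUnit h3 with h6 | h6
    · left
      rw [← hu, h6, mul_one]
    · right
      rw [← hu, h6]
      ring
  · have := hc M M' hM hM'
    rwa [← hac] at this

/-- the exponents of automorphisms of `F_m`, `2 ∣ m`, are `1` modulo `2` -/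
theorem actH_two (h : CaseE A B) (T : TorXE A B) (hACM : Sy_ACM_E) {m a : OO A B} (hm : m ≠ 0)
    (h2 : (2 : OO A B) ∣ m)
    {σ : (RFE (sp m) : IntermediateField (kk A B) ℂ) ≃ₐ[kk A B] RFE (sp m)}
    (ha : ActH_E σ m a) : (2 : OO A B) ∣ a - 1 := by
  have hQ := h.toCQ
  have hm0 : (sp m : Ideal (OO A B)) ≠ ⊥ := by
    rwa [Ne, Ideal.span_singleton_eq_bot]
  let D : IntermediateField ℚ ℂ :=
    (RFE (sp m) : IntermediateField (kk A B) ℂ).restrictScalars ℚ
  have hle : kk A B ≤ D := fun x hx =>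
    (RFE (sp m) : IntermediateField (kk A B) ℂ).algebraMap_mem ⟨x, hx⟩
  have hDy : ∀ y ∈ D, y ∈ (RFE (sp m) : IntermediateField (kk A B) ℂ) := fun y hy => hy
  let := algC hle
  let τ : D ≃ₐ[kk A B] D := AlgEquiv.ofRingEquiv (f := (σ.toRingEquiv : D ≃+* D))
    (fun r => σ.commutes r)
  obtain ⟨s, hs, hs1⟩ := T.ext (sp m) hm0 D hle hDy τ
  have hs2 : ∀ y : (RFE (sp m) : IntermediateField (kk A B) ℂ),
      ((σ y : (RFE (sp m) : IntermediateField (kk A B) ℂ)) : ℂ) = s y := fun y =>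
    (hs1 y).symm
  obtain ⟨c, hcop, hc2, hA⟩ := actW h T hm0 hs
  have hcop' := (Ideal.isCoprime_span_singleton_iff c m).1 hcop
  have h2' : (sp m : Ideal (OO A B)) ≤ idl 2 := by
    rw [Ideal.span_singleton_le_span_singleton]
    exact_mod_cast h2
  have hc : ActH_E σ m c := by
    refine ⟨hcop', fun b L om hL hk => ?_, fun b L om hL z hz hz' => ?_⟩
    · rw [hs2]
      exact hL.nrm.fixk s
    · have ht : Tor (sp m) L z := by
        intro x hx
        obtain ⟨y, rfl⟩ := Ideal.mem_span_singleton'.1 hx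
        rw [Pool.Agent.MUX.emb_mul hQ, mul_assoc]
        exact hL.toIsLI.hasCM hQ y _ hz
      obtain ⟨h8, h9, -⟩ := act_pt (hA L L hL.nrm hL.nrm) ht hz'
      exact ⟨h8, fun hx => by rw [hs2]; exact h9⟩
  have hc2' : (2 : OO A B) ∣ c - 1 := by
    have h3 := Ideal.mem_span_singleton.1 (hc2 h2')
    exact_mod_cast h3
  obtain ⟨L₀, om₀, hL₀⟩ := MEC.exists_isNE h (⊤ : Ideal (OO A B)) top_ne_bot
  rcases (hACM A B hQ L₀ om₀ hL₀ m hm).1 _ σ a c le_rfl ha hc with h3 | h3
  · have h4 := dvd_add (h2.trans h3) hc2'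
    rwa [sub_add_sub_cancel] at h4
  · have h4 := dvd_sub (h2.trans h3) hc2'
    have h5 : (2 : OO A B) ∣ 2 := dvd_rfl
    have h6 := dvd_sub h4 h5
    have e : a + c - (c - 1) - 2 = a - 1 := by ring
    rwa [e] at h6

end

end Pool.Agent.MUXW


end

section

/-!
# MUX, block W, module DIS: distribution relation over `E[b]`, with constant in `H` (helper55)

Adapted from `Pool/Agent/MU3/W_DISI.lean`.
-/

set_option autoImplicit false

open WeierstrassCurve Polynomial NumberField IsDedekindDomain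

namespace Pool.Agent.MUXW

open _root_.MU3 _root_.Pool.Agent.MU3A _root_.Pool.Agent.MU3B _root_.Pool.Agent.MU3C _root_.Pool.Agent.RI _root_.Pool.Agent.RID
open _root_.Pool.Agent.MUX _root_.Pool.Agent.ME _root_.Pool.Agent.MUXU
open _root_.Pool.Agent.MU3V (cls Sub GD)
open _root_.Pool.Agent.MUXV (GR InK tX CMO Ovr Sq_EMB)

noncomputable section

theorem ty_DIS_E (hTDI : St_TDI) (hTIN : St_TIN) (hTHG : Sy_THG_E) (hKER : Sy_KER_E)
    (hEMB : Sq_EMB) : Sy_DIS_E := by
  classical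
  intro A B h T L Om hL b hb a H ha hab hH
  obtain ⟨emul, _, esub, eint, _, einj, _, _, _, _, _, _, hdom⟩ := hEMB A B ⟨h.hB, h.neg, h.fund1, h.fund0⟩
  have := hdom
  have ezero : emb (0 : OO A B) = 0 := by
    have := eint 0
    simpa using this
  have eone : emb (1 : OO A B) = 1 := by
    have := eint 1
    simpa using this
  have hfinQ : Finite (OO A B ⧸ Ideal.span {b}) :=
    Ideal.finiteQuotientOfFreeOfNeBot _ (by simpa [Ideal.span_singleton_eq_bot] using hb)
  letI : Fintype (OO A B ⧸ Ideal.span {b}) := Fintype.ofFinite _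
  have hb0 : emb b ≠ 0 := by
    intro h0
    exact hb (einj _ _ (by rw [h0, ezero]))
  have hOm : Om ≠ 0 := hL.om_ne
  have hmemL : ∀ z : ℂ, z ∈ L.lattice ↔ ∃ x : OO A B, z = Om * emb x := by
    intro z
    rw [hL.mem z]
    simp
  have hmulL : ∀ (x : OO A B) {z : ℂ}, z ∈ L.lattice → emb x * z ∈ L.lattice := by
    intro x z hz
    obtain ⟨y, rfl⟩ := (hmemL z).1 hz
    exact (hmemL _).2 ⟨x * y, by rw [emul]; ring⟩
  have hdiv : ∀ x : OO A B, emb x * (Om / emb b) ∈ L.lattice ↔ b ∣ x := by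
    intro x
    rw [hmemL]
    constructor
    · rintro ⟨y, hy⟩
      refine ⟨y, einj _ _ ?_⟩
      rw [emul]
      field_simp at hy
      linear_combination hy
    · rintro ⟨y, rfl⟩
      refine ⟨y, ?_⟩
      rw [emul]
      field_simp
  have htor : ∀ z : ℂ, emb b * z ∈ L.lattice ↔ ∃ x : OO A B, z = emb x * (Om / emb b) := by
    intro z
    rw [hmemL]
    constructor
    · rintro ⟨y, hy⟩
      refine ⟨y, ?_⟩
      field_simp
      linear_combination hy
    · rintro ⟨y, rfl⟩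
      refine ⟨y, ?_⟩
      field_simp
  have hcopL : ∀ {x y : OO A B}, IsCoprime x y → ∀ {z : ℂ}, emb x * z ∈ L.lattice →
      emb y * z ∈ L.lattice → z ∈ L.lattice := by
    intro x y hxy z hx hy
    obtain ⟨s, t, hst⟩ := hxy
    have e1 : z = emb s * (emb x * z) - emb (-t) * (emb y * z) := by
      have e2 : emb (s * x - (-t) * y) = 1 := by
        rw [← eone, ← hst]; congr 1; ring
      rw [esub, emul, emul] at e2
      linear_combination -z * e2
    rw [e1]
    exact sub_mem (hmulL s hx) (hmulL (-t) hy)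
  have hper := (hTIN L a H H hH hH).2.2
  have ea : emb ((a : ℤ) : OO A B) = (a : ℂ) := eint a
  have ha0 : (a : ℂ) ≠ 0 := by exact_mod_cast ha
  -- the map
  have hmk : ∀ x y : OO A B, (Ideal.Quotient.mk (Ideal.span {b}) x =
      Ideal.Quotient.mk (Ideal.span {b}) y) ↔ b ∣ x - y := by
    intro x y
    rw [Ideal.Quotient.eq, Ideal.mem_span_singleton]
  have hout : ∀ t : OO A B ⧸ Ideal.span {b},
      Ideal.Quotient.mk (Ideal.span {b}) (Quotient.out t) = t := fun t => Ideal.Quotient.mk_out t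
  set r : OO A B ⧸ Ideal.span {b} → ℂ := fun t => emb (Quotient.out t) * (Om / emb b) with hr
  have hsub : ∀ (x y : OO A B), b ∣ x - y → emb x * (Om / emb b) - emb y * (Om / emb b) ∈
      L.lattice := by
    intro x y hxy
    rw [← sub_mul, ← esub, hdiv]
    exact hxy
  have hinjL : ∀ t t', r t - r t' ∈ L.lattice → t = t' := by
    intro t t' htt
    simp only [hr] at htt
    rw [← sub_mul, ← esub, hdiv, ← hmk, hout, hout] at htt
    exact htt
  have hinj : Function.Injective r := by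
    intro t t' htt
    apply hinjL
    rw [htt, sub_self]; exact zero_mem _
  set R : Finset ℂ := (Finset.univ.erase 0).image r with hR
  have hr0 : ∀ t, t ≠ 0 → r t ∉ L.lattice := by
    intro t ht hm
    simp only [hr] at hm
    rw [hdiv] at hm
    apply ht
    rw [← hout t, ← map_zero (Ideal.Quotient.mk (Ideal.span {b})), hmk, sub_zero]
    exact hm
  have hrL : ∀ t, emb b * r t ∈ L.lattice := by
    intro t
    rw [htor]
    exact ⟨_, rfl⟩
  have hReps : IsReps L (emb b) R := by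
    constructor
    · intro q hq
      obtain ⟨t, ht, rfl⟩ := Finset.mem_image.1 hq
      exact hrL t
    · intro q hq
      obtain ⟨t, ht, rfl⟩ := Finset.mem_image.1 hq
      exact hr0 t (Finset.ne_of_mem_erase ht)
    · intro q hq q' hq' hqq
      obtain ⟨t, ht, rfl⟩ := Finset.mem_image.1 hq
      obtain ⟨t', ht', rfl⟩ := Finset.mem_image.1 hq'
      rw [hinjL t t' hqq]
    · intro z hz hzL
      obtain ⟨x, rfl⟩ := (htor z).1 hz
      refine ⟨r (Ideal.Quotient.mk _ x), Finset.mem_image.2 ⟨_, Finset.mem_erase.2 ⟨?_,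
        Finset.mem_univ _⟩, rfl⟩, ?_⟩
      · intro h0
        apply hzL
        rw [hdiv]
        rw [← map_zero (Ideal.Quotient.mk (Ideal.span {b})), hmk, sub_zero] at h0
        exact h0
      · apply hsub
        rw [← hmk, hout]
  have hprodR : ∀ g : ℂ → ℂ, ∏ q ∈ R, g q = ∏ t ∈ Finset.univ.erase 0, g (r t) := by
    intro g
    rw [hR, Finset.prod_image (fun x _ y _ hxy => hinj hxy)]
  obtain ⟨hne, hmain⟩ := hTDI L a (emb b) H R ha0 hb0
    (fun w hw => by have := hmulL ((a : ℤ) : OO A B) hw; rwa [ea] at this)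
    (fun w hw => hmulL b hw) hH hReps
    (fun z h1 h2 => hcopL hab (by rwa [ea]) h2)
  -- the constant is in `H`
  have hbot : sp b ≠ (⊥ : Ideal (OO A B)) := by
    intro h0
    exact hb (Ideal.span_singleton_eq_bot.1 h0)
  have hle : (RFE (⊤ : Ideal (OO A B)) : IntermediateField (kk A B) ℂ) ≤ RFE (sp b) :=
    T.mono ⊤ (sp b) le_top
  haveI hfd := T.fin (sp b) hbot
  haveI hgal := T.gal (sp b) hbot
  have hP : ∏ q ∈ R, ThetaH L H q ∈ (RFE (⊤ : Ideal (OO A B)) : IntermediateField (kk A B) ℂ) := by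
    have hΘ : ∀ t, t ≠ 0 → ∃ hz : ThetaH L H (r t) ∈ (RFE (sp b) : IntermediateField (kk A B) ℂ),
        ∀ (σ : (RFE (sp b) : IntermediateField (kk A B) ℂ) ≃ₐ[kk A B] RFE (sp b)) (c : OO A B),
          ActH_E σ b c →
          ((σ ⟨ThetaH L H (r t), hz⟩ : (RFE (sp b) : IntermediateField (kk A B) ℂ)) : ℂ) =
            ThetaH L H (emb c * r t) := by
      intro t ht
      obtain ⟨_, _, hz, _, h2⟩ := hTHG A B h T ⊤ L Om hL b hb a H ha hH (r t) (hrL t) (hr0 t ht)
      exact ⟨hz, h2⟩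
    set θ : OO A B ⧸ Ideal.span {b} → (RFE (sp b) : IntermediateField (kk A B) ℂ) := fun t =>
      if ht : t ≠ 0 then ⟨ThetaH L H (r t), (hΘ t ht).1⟩ else 1 with hθ
    have hθ1 : ∀ t, t ≠ 0 → ((θ t : (RFE (sp b) : IntermediateField (kk A B) ℂ)) : ℂ) =
        ThetaH L H (r t) := by
      intro t ht
      simp only [hθ]
      rw [dif_pos ht]
    have hcoe : ((∏ t ∈ Finset.univ.erase 0, θ t :
        (RFE (sp b) : IntermediateField (kk A B) ℂ)) : ℂ) = ∏ q ∈ R, ThetaH L H q := by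
      rw [hprodR]
      have e0 : ((∏ t ∈ Finset.univ.erase 0, θ t :
          (RFE (sp b) : IntermediateField (kk A B) ℂ)) : ℂ) =
          ∏ t ∈ Finset.univ.erase 0, ((θ t : (RFE (sp b) : IntermediateField (kk A B) ℂ)) : ℂ) :=
        map_prod (RFE (sp b) : IntermediateField (kk A B) ℂ).val _ _
      rw [e0]
      exact Finset.prod_congr rfl fun t ht => hθ1 t (Finset.ne_of_mem_erase ht)
    have hfix : ∀ σ : (RFE (sp b) : IntermediateField (kk A B) ℂ) ≃ₐ[kk A B] RFE (sp b), TrH_E σ →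
        σ (∏ t ∈ Finset.univ.erase 0, θ t) = ∏ t ∈ Finset.univ.erase 0, θ t := by
      intro σ hσ
      obtain ⟨c, hc⟩ := (hKER A B h T b hb).1 σ hσ
      apply Subtype.ext
      have e1 : ((σ (∏ t ∈ Finset.univ.erase 0, θ t) :
          (RFE (sp b) : IntermediateField (kk A B) ℂ)) : ℂ) =
          ∏ t ∈ Finset.univ.erase 0,
            ((σ (θ t) : (RFE (sp b) : IntermediateField (kk A B) ℂ)) : ℂ) := by
        rw [map_prod]
        exact map_prod (RFE (sp b) : IntermediateField (kk A B) ℂ).val _ _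
      rw [e1, hcoe, hprodR]
      have e2 : ∀ t ∈ Finset.univ.erase (0 : OO A B ⧸ Ideal.span {b}),
          ((σ (θ t) : (RFE (sp b) : IntermediateField (kk A B) ℂ)) : ℂ) =
            ThetaH L H (emb c * r t) := by
        intro t ht
        have ht0 := Finset.ne_of_mem_erase ht
        have e3 : θ t = ⟨ThetaH L H (r t), (hΘ t ht0).1⟩ := by
          simp only [hθ]; rw [dif_pos ht0]
        rw [e3]
        exact (hΘ t ht0).2 σ c hc
      rw [Finset.prod_congr rfl e2]
      -- multiplication by `c`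
      obtain ⟨x, y, hxy⟩ := hc.cop
      have hu : Ideal.Quotient.mk (Ideal.span {b}) x * Ideal.Quotient.mk (Ideal.span {b}) c = 1 := by
        rw [← map_mul, ← map_one (Ideal.Quotient.mk (Ideal.span {b})), hmk]
        exact ⟨-y, by rw [← hxy]; ring⟩
      have hu' : Ideal.Quotient.mk (Ideal.span {b}) c * Ideal.Quotient.mk (Ideal.span {b}) x = 1 := by
        rw [mul_comm]; exact hu
      let e : (OO A B ⧸ Ideal.span {b}) ≃ (OO A B ⧸ Ideal.span {b}) :=
        { toFun := fun t => Ideal.Quotient.mk (Ideal.span {b}) c * t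
          invFun := fun t => Ideal.Quotient.mk (Ideal.span {b}) x * t
          left_inv := fun t => by
            show Ideal.Quotient.mk (Ideal.span {b}) x *
              (Ideal.Quotient.mk (Ideal.span {b}) c * t) = t
            rw [← mul_assoc, hu, one_mul]
          right_inv := fun t => by
            show Ideal.Quotient.mk (Ideal.span {b}) c *
              (Ideal.Quotient.mk (Ideal.span {b}) x * t) = t
            rw [← mul_assoc, hu', one_mul] }
      refine Finset.prod_equiv e ?_ ?_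
      · intro t
        have : e t = 0 ↔ t = 0 := by
          constructor
          · intro h0
            have := congrArg e.symm h0
            rw [Equiv.symm_apply_apply] at this
            rw [this]
            show Ideal.Quotient.mk (Ideal.span {b}) x * 0 = 0
            rw [mul_zero]
          · rintro rfl
            show Ideal.Quotient.mk (Ideal.span {b}) c * 0 = 0
            rw [mul_zero]
        simp only [Finset.mem_erase, Finset.mem_univ, and_true, ne_eq, this]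
      · intro t ht
        have hd : b ∣ c * Quotient.out t - Quotient.out (e t) := by
          rw [← hmk, hout, map_mul, hout]
          rfl
        have h3 := hsub _ _ hd
        have h4 := hper (r (e t)) _ h3
        rw [← h4]
        congr 1
        simp only [hr]
        rw [emul]
        ring
    have hmem : (∏ t ∈ Finset.univ.erase 0, θ t) ∈
        IntermediateField.fixedField
          (IntermediateField.fixingSubgroup (IntermediateField.restrict hle)) := by
      rw [IntermediateField.mem_fixedField_iff]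
      intro σ hσ
      apply hfix
      intro x hx
      exact (IntermediateField.mem_fixingSubgroup_iff _ _).1 hσ x
        ((IntermediateField.mem_restrict hle x).2 hx)
    rw [IsGalois.fixedField_fixingSubgroup] at hmem
    rw [← hcoe]
    exact (IntermediateField.mem_restrict hle _).1 hmem
  have hbH : emb b ∈ (RFE (⊤ : Ideal (OO A B)) : IntermediateField (kk A B) ℂ) :=
    IntermediateField.algebraMap_mem (RFE (⊤ : Ideal (OO A B))) (⟨emb b, MU3A.emb_mem b⟩ : kk A B)
  refine ⟨emb b ^ (2 * H.card) * ∏ q ∈ R, ThetaH L H q, mul_mem (pow_mem hbH _) hP,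
    mul_ne_zero (pow_ne_zero _ hb0) hne, ?_⟩
  intro z hz
  have hz' : (a : ℂ) * emb b * z ∉ L.lattice := by
    rwa [mul_comm (a : ℂ)]
  rw [← hmain z hz', finprod_eq_prod_of_fintype, hprodR,
    ← Finset.mul_prod_erase Finset.univ _ (Finset.mem_univ (0 : OO A B ⧸ Ideal.span {b}))]
  congr 1
  apply hper
  rw [hdiv]
  have := hout 0
  rw [← map_zero (Ideal.Quotient.mk (Ideal.span {b})), hmk, map_zero, sub_zero] at this
  exact this

end

end Pool.Agent.MUXW


end

section

/-!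
# MUX, block W, module CXW: the product over `XX` is the square of `cWt` (helper86)
-/

set_option autoImplicit false

open WeierstrassCurve Polynomial NumberField IsDedekindDomain

namespace Pool.Agent.MUXW

open _root_.MU3 _root_.Pool.Agent.MU3A _root_.Pool.Agent.MU3B _root_.Pool.Agent.MU3C _root_.Pool.Agent.RI _root_.Pool.Agent.RID
open _root_.Pool.Agent.MUX _root_.Pool.Agent.ME _root_.Pool.Agent.MUXU
open _root_.Pool.Agent.MU3V (cls Sub GD cls_out cls_eq_iff)
open _root_.Pool.Agent.MUXV (Sq_EMB)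

noncomputable section

namespace CXW

variable {A B : ℤ}

/-- restriction to `F_m` -/
lemma restr_E (hT : TorXE A B) {m : Ideal (OO A B)} (hm : m ≠ ⊥) {s : ℂ ≃+* ℂ}
    (hs : FixK A B s) :
    ∃ σ : (RFE m : IntermediateField (kk A B) ℂ) ≃ₐ[kk A B] RFE m,
      ∀ y : (RFE m : IntermediateField (kk A B) ℂ),
        ((σ y : (RFE m : IntermediateField (kk A B) ℂ)) : ℂ) = s y := by
  haveI := hT.fin m hm
  haveI := hT.gal m hm
  let s' : ℂ ≃ₐ[kk A B] ℂ := AlgEquiv.ofRingEquiv (f := s) (fun r => fixk hs _ r.2)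
  exact ⟨s'.restrictNormal (RFE m), fun y => AlgEquiv.restrictNormal_commutes s' (RFE m) y⟩

/-- extension to `ℂ` -/
lemma extn_E (hT : TorXE A B) {m : Ideal (OO A B)} (hm : m ≠ ⊥)
    (σ : (RFE m : IntermediateField (kk A B) ℂ) ≃ₐ[kk A B] RFE m) :
    ∃ s : ℂ ≃+* ℂ, FixK A B s ∧ ∀ y : (RFE m : IntermediateField (kk A B) ℂ),
      s y = ((σ y : (RFE m : IntermediateField (kk A B) ℂ)) : ℂ) := by
  let D : IntermediateField ℚ ℂ :=
    (RFE m : IntermediateField (kk A B) ℂ).restrictScalars ℚ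
  have hkD : kk A B ≤ D := fun x hx =>
    (RFE m : IntermediateField (kk A B) ℂ).algebraMap_mem ⟨x, hx⟩
  letI := algC hkD
  let f : D ≃+* D :=
    { toFun := fun y => σ y
      invFun := fun y => σ.symm y
      left_inv := fun y => σ.symm_apply_apply y
      right_inv := fun y => σ.apply_symm_apply y
      map_mul' := fun x y => map_mul σ x y
      map_add' := fun x y => map_add σ x y }
  let τ : D ≃ₐ[kk A B] D := AlgEquiv.ofRingEquiv (f := f) (fun r => σ.commutes r)
  obtain ⟨s, hs, h1⟩ := hT.ext m hm D hkD (fun y hy => hy) τ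
  exact ⟨s, hs, fun y => h1 ⟨y, y.2⟩⟩

/-- an automorphism fixing `κ` and the coordinate of the base point is trivial on `F_m` -/
lemma triv_of_E (hEMB : Sq_EMB) (hCQ : CQ A B) (hT : TorXE A B) {m : ℕ} (hm : m ≠ 0)
    (h2m : 2 ∣ m)
    {L : PeriodPair} {om : ℂ} (hL : IsNE (⊤ : Ideal (OO A B)) L om) {t : ℂ ≃+* ℂ}
    (ht : FixK A B t) (hk : t (kapE L) = kapE L) (hx : t (xnE L (om / m)) = xnE L (om / m))
    (hz : om / m ∉ L.lattice) :
    ∀ y ∈ (RFE (idl m) : IntermediateField (kk A B) ℂ), t y = y := by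
  obtain ⟨emul, eadd, esub, eint, enat, einj, -, -, -, -, -, -, hdom⟩ :=
    hEMB A B ⟨hCQ.hB, hCQ.neg, hCQ.fund1, hCQ.fund0⟩
  haveI := hdom
  have eone : emb (1 : OO A B) = 1 := by
    have := enat 1
    rwa [Nat.cast_one, Nat.cast_one] at this
  have ezero : emb (0 : OO A B) = 0 := by
    have := enat 0
    rwa [Nat.cast_zero, Nat.cast_zero] at this
  have mC : ((m : ℕ) : ℂ) ≠ 0 := Nat.cast_ne_zero.2 hm
  have mO : ((m : ℕ) : OO A B) ≠ 0 := by
    intro h
    apply mC
    rw [← enat m, h, ezero]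
  have hm' : idl (A := A) (B := B) m ≠ ⊥ := by
    intro h
    rw [Ideal.span_singleton_eq_bot] at h
    exact mO h
  obtain ⟨a, hac, hact⟩ := hT.act (idl m) hm' t ht
  obtain ⟨b', L', om', mu, hL', hA⟩ := hact ⊤ L om hL
  have e1 : kapE L' = kapE L := hA.kapE.trans hk
  have hlat : L'.lattice = L.lattice := hL'.nrm.lat_eq hL.nrm
  have hsc := (Pool.Agent.MU3A.ta_SCP L L' 1 one_ne_zero
    (fun u => by rw [one_mul, hlat])).1
  have hP : ∀ z, L'.weierstrassP z = L.weierstrassP z := fun z => by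
    have := hsc z
    rwa [one_mul, one_pow, div_one] at this
  have hmem : ∀ z ∈ L.lattice, ∀ x : OO A B, emb x * z ∈ L.lattice := by
    intro z hz x
    obtain ⟨y, -, rfl⟩ := (hL.mem z).1 hz
    exact (hL.mem _).2 ⟨x * y, trivial, by rw [emul]; ring⟩
  have hT1 : ActE t ⊤ a L L' mu :=
    ⟨hA.kapE, cop_top _, hA.isq, fun z hz => hA.act z (fun x _ => hz x trivial)⟩
  have hT2 : ActE t (⊤ : Ideal (OO A B)) ⊤ L L' 1 := by
    refine ⟨hA.kapE, cop_top _, ⟨one_ne_zero, fun z => ?_⟩, fun z hz => ?_⟩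
    · rw [one_mul, hlat]
      constructor
      · intro hz x _
        exact hmem z hz x
      · intro hz
        have := hz 1 trivial
        rwa [eone, one_mul] at this
    · have h1 := hz 1 trivial
      rw [eone, one_mul] at h1
      left
      rw [one_mul, hlat]
      exact ⟨h1, h1⟩
  obtain ⟨x, y, -, hx0, hy0, -, hxy, hmu⟩ := hT.uniq ⊤ a ⊤ t L L' mu 1 top_ne_bot
    ⟨⊤, om, hL⟩ hT1 hT2
  rw [Ideal.mul_top] at hxy
  have hyc : y ∈ sp x * a := by
    rw [hxy]
    exact Ideal.mem_span_singleton_self y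
  obtain ⟨c, hca, hc⟩ := Ideal.mem_span_singleton_mul.1 hyc
  have hasp : a = sp c := by
    rw [← hc] at hxy
    have hxy' : Ideal.span {x} * a = Ideal.span {x} * Ideal.span {c} := by
      rw [Ideal.span_singleton_mul_span_singleton]
      exact hxy
    exact (Ideal.span_singleton_mul_right_inj hx0).1 hxy'
  have hex : emb x ≠ 0 := fun h => hx0 (einj _ _ (h.trans ezero.symm))
  have hey : emb y ≠ 0 := fun h => hy0 (einj _ _ (h.trans ezero.symm))
  have hmuc : mu = emb c := by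
    rw [← hc, emul] at hmu hey
    rw [eq_div_iff hey, one_mul] at hmu
    have h1 := mul_left_cancel₀ hex (hmu.trans (mul_comm mu (emb x)))
    exact h1.symm
  have hTor : Tor (idl (A := A) (B := B) m) L (om / m) := by
    intro w hw
    obtain ⟨w', rfl⟩ := Ideal.mem_span_singleton'.1 hw
    refine (hL.mem _).2 ⟨w', trivial, ?_⟩
    rw [emul, enat]
    field_simp
  rw [hT.triv (idl m) a t ⊤ L L' om mu hm'
    (Or.inl (Ideal.span_singleton_le_span_singleton.2 (Nat.cast_dvd_cast h2m))) ht hL hA hL'.nrm]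
  rcases hA.act _ hTor with ⟨h1, -⟩ | ⟨-, h1, h2, -⟩
  · exact absurd h1 hz
  rw [hmuc, hlat] at h1
  rw [hx, hmuc] at h2
  have h3 : L.weierstrassP (emb c * (om / m)) = L.weierstrassP (om / m) := by
    unfold xnE at h2
    rw [hP] at h2
    linear_combination -h2
  have hdiv : ∀ w : OO A B, emb w * (om / m) ∈ L.lattice → w ∈ idl (A := A) (B := B) m := by
    intro w hw
    obtain ⟨v, -, hv⟩ := (hL.mem _).1 hw
    refine Ideal.mem_span_singleton'.2 ⟨v, einj _ _ ?_⟩
    rw [emul, enat]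
    have hom := hL.om_ne
    field_simp at hv
    linear_combination -hv
  rcases Pool.Agent.MU3B.b_NEQ L (om / m) (emb c * (om / m)) hz h1 h3 with h4 | h4
  · refine ⟨c, hdiv _ ?_, hasp⟩
    rw [esub, eone, sub_mul, one_mul]
    exact h4
  · refine ⟨-c, ?_, ?_⟩
    · have h5 : -c - 1 = -(c + 1) := by ring
      rw [h5]
      refine (idl (A := A) (B := B) m).neg_mem (hdiv _ ?_)
      rw [eadd, eone, add_mul, one_mul]
      exact h4
    · rw [hasp]
      exact (Ideal.span_singleton_neg c).symm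

/-- an automorphism hits one pair only, and is determined on `F_m` by it -/
lemma same_of_E (hEMB : Sq_EMB) (hCQ : CQ A B) (hT : TorXE A B) {n : ℕ} {ι : Type}
    (R : RepsE A B n ι) {m : ℕ} (hm : m ≠ 0) (h2m : 2 ∣ m)
    (hpt : Pool.Agent.ME.ptE R m R.i0 1 = R.om R.i0 / m)
    (hz : Pool.Agent.ME.ptE R m R.i0 1 ∉ (R.L R.i0).lattice) {s s' : ℂ ≃+* ℂ}
    (hs : FixK A B s) (hs' : FixK A B s') {i : ι} {x : OO A B} (h : HitsE R m s i x)
    (h' : HitsE R m s' i x) :
    ∀ y ∈ (RFE (idl m) : IntermediateField (kk A B) ℂ), s y = s' y := by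
  have hL : IsNE (⊤ : Ideal (OO A B)) (R.L R.i0) (R.om R.i0) := by
    have := R.nl R.i0
    rwa [R.b0] at this
  have h1 := triv_of_E hEMB hCQ hT hm h2m hL (t := s.trans s'.symm) ?_ ?_ ?_ ?_
  · intro y hy
    have h2 := h1 y hy
    rw [RingEquiv.trans_apply, RingEquiv.symm_apply_eq] at h2
    exact h2
  · unfold FixK at hs hs' ⊢
    rw [RingEquiv.trans_apply, hs, RingEquiv.symm_apply_eq, hs']
  · rw [RingEquiv.trans_apply, RingEquiv.symm_apply_eq, ← h.1, ← h'.1]
  · rw [← hpt, RingEquiv.trans_apply, RingEquiv.symm_apply_eq, h.2.1, h'.2.1]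
  · rwa [hpt] at hz

end CXW

open _root_.Pool.Agent.MUXW.CXW in
theorem ty_CXW_E (h1 : Sy_HIT_E) (h2 : Sy_THG_E) (h4 : Sq_EMB) : Sy_CXW_E := by
  intro A B hCQ hT n ι R m hm h2m' hco h2m a H ha ham hH θ hθ D h hD
  letI := algC h
  intro τ
  obtain ⟨emul, eadd, esub, eint, enat, einj, -, -, -, -, -, -, hdom⟩ :=
    h4 A B ⟨hCQ.hB, hCQ.neg, hCQ.fund1, hCQ.fund0⟩
  haveI := hdom
  have eone : emb (1 : OO A B) = 1 := by
    have := enat 1
    rwa [Nat.cast_one, Nat.cast_one] at this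
  have ezero : emb (0 : OO A B) = 0 := by
    have := enat 0
    rwa [Nat.cast_zero, Nat.cast_zero] at this
  have mC : ((m : ℕ) : ℂ) ≠ 0 := Nat.cast_ne_zero.2 hm
  have mO : ((m : ℕ) : OO A B) ≠ 0 := by
    intro h
    apply mC
    rw [← enat m, h, ezero]
  have hm' : idl (A := A) (B := B) m ≠ ⊥ := by
    intro h
    rw [Ideal.span_singleton_eq_bot] at h
    exact mO h
  have hL : IsNE (⊤ : Ideal (OO A B)) (R.L R.i0) (R.om R.i0) := by
    have := R.nl R.i0
    rwa [R.b0] at this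
  have hnI : nI (R.b R.i0) = 1 := by
    rw [R.b0]
    unfold nI
    exact Nat.card_of_subsingleton (0 : OO A B ⧸ (⊤ : Ideal (OO A B)))
  have hpt : Pool.Agent.ME.ptE R m R.i0 1 = R.om R.i0 / m := by
    unfold Pool.Agent.ME.ptE
    rw [hnI, eone, Nat.cast_one, mul_one, mul_one]
  have hz : Pool.Agent.ME.ptE R m R.i0 1 ∉ (R.L R.i0).lattice := by
    rw [hpt]
    intro h0
    obtain ⟨w, -, hw⟩ := (hL.mem _).1 h0
    apply h2m
    have hom := hL.om_ne
    field_simp at hw
    have h5 : ((m : ℕ) : OO A B) * w = 1 := by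
      apply einj
      rw [emul, enat, eone]
      exact hw.symm
    exact ⟨w * 2, by rw [← mul_assoc, h5, one_mul]⟩
  have hzm : emb ((m : ℕ) : OO A B) * Pool.Agent.ME.ptE R m R.i0 1 ∈ (R.L R.i0).lattice := by
    rw [enat, hpt]
    refine (hL.mem _).2 ⟨1, trivial, ?_⟩
    rw [eone]
    field_simp
  obtain ⟨hk, hx, hzz, hTH, -⟩ := h2 A B hCQ hT ⊤ (R.L R.i0) (R.om R.i0) hL
    ((m : ℕ) : OO A B) mO (a : ℤ) (H R.i0) (by exact_mod_cast ha)
    (by rw [Int.cast_natCast]; exact hH R.i0) _ hzm hz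
  -- `HitsE` depends only on the restriction to `F_m`
  have htr : ∀ s s' : ℂ ≃+* ℂ,
      (∀ y : (RFE (idl m) : IntermediateField (kk A B) ℂ), s y = s' y) →
      ∀ i x, HitsE R m s i x → HitsE R m s' i x := by
    intro s s' hss i x hx'
    refine ⟨?_, ?_, hx'.2.2⟩
    · rw [hx'.1]; exact hss ⟨_, hk⟩
    · rw [← hx'.2.1]; exact (hss ⟨_, hx⟩).symm
  haveI := hT.fin _ hm'
  let S : Type := {σ : (RFE (idl m) : IntermediateField (kk A B) ℂ) ≃ₐ[kk A B]
    RFE (idl (A := A) (B := B) m) // Ext1 h τ σ}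
  haveI : Finite S := Subtype.finite
  haveI : Fintype S := Fintype.ofFinite S
  choose s hs hsv using fun σ : S => extn_E hT hm' σ.1
  choose I X hXc hXh hX2 hXi using fun σ : S => h1 A B hCQ hT n ι R m hm hco h2m (s σ) (hs σ)
  let sg : S → Bool → OO A B := fun σ b => if b then X σ else -X σ
  have hsg : ∀ (σ : S) (b : Bool) (y : OO A B), ((m : ℕ) : OO A B) ∣ y - sg σ b →
      HitsE R m (s σ) (I σ) y := by
    intro σ b y hy
    rw [hXi]
    refine ⟨rfl, ?_⟩
    cases b
    · right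
      have : y - sg σ false = y + X σ := by simp [sg]
      rwa [this] at hy
    · left
      have : y - sg σ true = y - X σ := by simp [sg]
      rwa [this] at hy
  let g : S × Bool → ι × (OO A B ⧸ idl (A := A) (B := B) m) := fun q =>
    (I q.1, cls ((m : ℕ) : OO A B) (sg q.1 q.2))
  have hout : ∀ (σ : S) (b : Bool), ((m : ℕ) : OO A B) ∣
      Quotient.out (cls ((m : ℕ) : OO A B) (sg σ b)) - sg σ b := fun σ b =>
    cls_eq_iff.1 (cls_out _)
  have hginj : Function.Injective g := by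
    rintro ⟨σ, b⟩ ⟨σ', b'⟩ e
    obtain ⟨e1, e2⟩ := Prod.mk.inj e
    have e3 := cls_eq_iff.1 e2
    have h5 : HitsE R m (s σ) (I σ) (sg σ b) := hsg σ b _ (by simp)
    have h6 : HitsE R m (s σ') (I σ) (sg σ b) := by
      have := hsg σ' b' (sg σ b) e3
      rwa [← e1] at this
    have h7 := same_of_E h4 hCQ hT R hm h2m' hpt hz (hs σ) (hs σ') h5 h6
    have h8 : σ = σ' := by
      apply Subtype.ext
      apply AlgEquiv.ext
      intro y
      apply Subtype.ext
      rw [← hsv, ← hsv]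
      exact h7 y y.2
    subst h8
    rw [Prod.mk.injEq]
    refine ⟨rfl, ?_⟩
    have h9 := hX2 σ
    cases b <;> cases b' <;> simp only [sg, if_true, if_false, Bool.false_eq_true] at e3 ⊢
    · exfalso
      apply h9
      have : -X σ - X σ = -(2 * X σ) := by ring
      rw [this, dvd_neg] at e3
      exact e3
    · exfalso
      apply h9
      have : X σ - -X σ = 2 * X σ := by ring
      rwa [this] at e3
  have hrange : XXE R m h τ = Set.range g := by
    ext ⟨j, c⟩
    constructor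
    · rintro ⟨hc, σc, hσc, hE, hHit⟩
      obtain ⟨σ, hσ⟩ := restr_E hT hm' hσc
      have hσE : Ext1 h τ σ := by
        intro y hy
        rw [hσ]
        exact hE y
      have h5 : ∀ y : (RFE (idl m) : IntermediateField (kk A B) ℂ), σc y = s ⟨σ, hσE⟩ y := by
        intro y
        rw [hsv, hσ]
      have h6 := htr σc (s ⟨σ, hσE⟩) h5 _ _ hHit
      rw [hXi] at h6
      obtain ⟨e1, e2⟩ := h6
      rcases e2 with e2 | e2
      · refine ⟨(⟨σ, hσE⟩, true), ?_⟩
        refine Prod.ext e1.symm ?_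
        show cls ((m : ℕ) : OO A B) (sg ⟨σ, hσE⟩ true) = c
        rw [← cls_out c, eq_comm, cls_eq_iff]
        simpa [sg] using e2
      · refine ⟨(⟨σ, hσE⟩, false), ?_⟩
        refine Prod.ext e1.symm ?_
        show cls ((m : ℕ) : OO A B) (sg ⟨σ, hσE⟩ false) = c
        rw [← cls_out c, eq_comm, cls_eq_iff]
        simpa [sg] using e2
    · rintro ⟨⟨σ, b⟩, hq⟩
      obtain ⟨rfl, rfl⟩ := Prod.mk.inj hq
      refine ⟨?_, s σ, hs σ, ?_, hsg σ b _ (hout σ b)⟩
      · obtain ⟨w, hw⟩ := hout σ b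
        have e1 : Quotient.out (cls ((m : ℕ) : OO A B) (sg σ b)) =
            sg σ b + ((m : ℕ) : OO A B) * w := by
          rw [← hw]; ring
        have e2 : IsCoprime (sg σ b) ((m : ℕ) : OO A B) := by
          cases b
          · simpa [sg] using (hXc σ).neg_left
          · simpa [sg] using hXc σ
        show IsCoprime (Quotient.out (cls ((m : ℕ) : OO A B) (sg σ b))) _
        rw [e1]
        exact e2.add_mul_left_left w
      · intro y
        have h5 := σ.2 y (hD y y.2)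
        rw [← hsv] at h5
        exact h5
  have hval : ∀ q : S × Bool, ThetaH (R.L (g q).1) (H (g q).1)
      (Pool.Agent.ME.ptE R m (g q).1 (Quotient.out (g q).2)) =
      ((q.1.1 θ : (RFE (idl m) : IntermediateField (kk A B) ℂ)) : ℂ) := by
    rintro ⟨σ, b⟩
    have h5 : HitsE R m (s σ) (I σ) (Quotient.out (cls ((m : ℕ) : OO A B) (sg σ b))) :=
      hsg σ b _ (hout σ b)
    have h6 := hTH σ.1 (R.b (I σ)) (R.L (I σ)) (R.om (I σ)) (H (I σ))
      (Pool.Agent.ME.ptE R m (I σ) (Quotient.out (cls ((m : ℕ) : OO A B) (sg σ b))))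
      (R.nl _) (by rw [Int.cast_natCast]; exact hH _) h5.2.2
      (by rw [← hsv]; exact h5.1.symm) (by rw [← hsv]; exact h5.2.1)
    have h7 : θ = ⟨_, hzz⟩ := Subtype.ext hθ
    show _ = ((σ.1 θ : (RFE (idl m) : IntermediateField (kk A B) ℂ)) : ℂ)
    rw [h7]
    exact h6.symm
  unfold cXE cWt
  rw [hrange, finprod_mem_range hginj, finprod_congr hval, finprod_eq_prod_of_fintype,
    Fintype.prod_prod_type, finprod_eq_prod_of_fintype]
  simp only [Finset.prod_const, Finset.card_univ, Fintype.card_bool]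
  rw [Finset.prod_pow]

end

end Pool.Agent.MUXW


end

section

/-!
# MUX, block W, module KER (helper65): the automorphisms of `F_m / H`
-/

set_option autoImplicit false

open WeierstrassCurve Polynomial NumberField IsDedekindDomain

namespace Pool.Agent.MUXW

open _root_.MU3 _root_.Pool.Agent.MU3A _root_.Pool.Agent.MU3B _root_.Pool.Agent.MU3C _root_.Pool.Agent.RI _root_.Pool.Agent.RID
open _root_.Pool.Agent.MUX _root_.Pool.Agent.ME _root_.Pool.Agent.MUXU
open _root_.Pool.Agent.MU3V (cls Sub GD)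
open _root_.Pool.Agent.MUXV (GR InK tX CMO Ovr)

noncomputable section

namespace KER

/-- from `ActE` to `ActH_E` -/
lemma mk_E {A B : ℤ} (hC : CQ A B) {m c : OO A B} {a : Ideal (OO A B)}
    {F : IntermediateField (kk A B) ℂ}
    (σ : F ≃ₐ[kk A B] F) (s : ℂ ≃+* ℂ) (hσ : ∀ y : F, ((σ y : F) : ℂ) = s y)
    (hc : IsCoprime c m)
    (h : ∀ (M M' : PeriodPair), NrmE A B M → NrmE A B M' → ActE s (sp m) a M M' (emb c)) :
    ActH_E σ m c := by
  refine ⟨hc, fun b L om hL hk => ?_, fun b L om hL z hz hz' => ?_⟩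
  · rw [hσ]
    exact hL.nrm.fixk s
  · have ht : Tor (sp m) L z := by
      intro x hx
      obtain ⟨y, rfl⟩ := Ideal.mem_span_singleton'.1 hx
      rw [Pool.Agent.MUX.emb_mul hC, mul_assoc]
      exact hL.toIsLI.hasCM hC y _ hz
    obtain ⟨h8, h9, -⟩ := act_pt (h L L hL.nrm hL.nrm) ht hz'
    exact ⟨h8, fun hx => by rw [hσ]; exact h9⟩

end KER

open _root_.Pool.Agent.MUXW.KER in
theorem ty_KER_E : Sy_KER_E := by
  intro A B hC T m hm
  have hQ := hC.toCQ
  have hm0 : (sp m : Ideal (OO A B)) ≠ ⊥ := by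
    rwa [Ne, Ideal.span_singleton_eq_bot]
  constructor
  · intro σ _
    let D : IntermediateField ℚ ℂ :=
      (RFE (sp m) : IntermediateField (kk A B) ℂ).restrictScalars ℚ
    have hle : kk A B ≤ D := fun x hx =>
      (RFE (sp m) : IntermediateField (kk A B) ℂ).algebraMap_mem ⟨x, hx⟩
    have hDy : ∀ y ∈ D, y ∈ (RFE (sp m) : IntermediateField (kk A B) ℂ) := fun y hy => hy
    letI := algC hle
    let τ : D ≃ₐ[kk A B] D := AlgEquiv.ofRingEquiv (f := (σ.toRingEquiv : D ≃+* D))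
      (fun r => σ.commutes r)
    obtain ⟨s, hs, hs1⟩ := T.ext (sp m) hm0 D hle hDy τ
    have hs2 : ∀ y : (RFE (sp m) : IntermediateField (kk A B) ℂ),
        ((σ y : (RFE (sp m) : IntermediateField (kk A B) ℂ)) : ℂ) = s y := fun y =>
      (hs1 y).symm
    obtain ⟨c, hcop, -, hA⟩ := actW hC T hm0 hs
    exact ⟨c, mk_E hQ σ s hs2 ((Ideal.isCoprime_span_singleton_iff c m).1 hcop) hA⟩
  · intro a ha h2m h2a
    have h2 : (sp m : Ideal (OO A B)) ≤ idl 2 := by
      rw [Ideal.span_singleton_le_span_singleton]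
      exact_mod_cast h2m
    have h2' : a - 1 ∈ idl (A := A) (B := B) 2 := by
      rw [Ideal.mem_span_singleton]
      exact_mod_cast h2a
    obtain ⟨s, hs, c, hc, hA⟩ := surjW hC T hm0 h2
      ((Ideal.isCoprime_span_singleton_iff a m).2 ha) h2'
    have := T.fin (sp m) hm0
    have := T.gal (sp m) hm0
    let s' : ℂ ≃ₐ[kk A B] ℂ := AlgEquiv.ofRingEquiv (f := s) (fun r => KER.fix hs _ r.2)
    have hs' : ∀ y : (RFE (sp m) : IntermediateField (kk A B) ℂ),
        ((s'.restrictNormal (RFE (sp m)) y : (RFE (sp m) : IntermediateField (kk A B) ℂ)) : ℂ) =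
          s y := fun y => AlgEquiv.restrictNormal_commutes s' (RFE (sp m)) y
    rcases hc with rfl | rfl
    · exact ⟨s'.restrictNormal (RFE (sp m)), mk_E hQ _ s hs' ha hA⟩
    · have ha' : IsCoprime (-a) m := ha.neg_left
      have h1 := mk_E hQ _ s hs' ha' hA
      refine ⟨s'.restrictNormal (RFE (sp m)), ha, h1.kapE, fun b L om hL z hz hz' => ?_⟩
      obtain ⟨g1, g2⟩ := h1.ptE b L om hL z hz hz'
      rw [Pool.Agent.MUX.emb_neg hQ, neg_mul] at g1 g2
      refine ⟨fun h => g1 (neg_mem h), fun hx => ?_⟩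
      rw [g2 hx]
      unfold xnE
      rw [L.weierstrassP_neg]

end

end Pool.Agent.MUXW


end

section

/-!
# ME, block W, module FRH (helper21): Frobenius automorphisms
-/

set_option autoImplicit false

open WeierstrassCurve Polynomial NumberField IsDedekindDomain

namespace Pool.Agent.MUXW

open _root_.MU3 _root_.Pool.Agent.MU3A _root_.Pool.Agent.MU3B _root_.Pool.Agent.MU3C _root_.Pool.Agent.RI _root_.Pool.Agent.RID
open _root_.Pool.Agent.MUX _root_.Pool.Agent.ME _root_.Pool.Agent.MUXU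
open _root_.Pool.Agent.MU3V (cls Sub GD)
open _root_.Pool.Agent.MUXV (GR InK tX CMO Ovr Sq_EMB Sq_FRX Sq_VQI Sq_ALU Sq_TOR Sq_CYQ Sq_DGI Sq_DGL)

noncomputable section

theorem ty_FRH_E (hVQI : Sq_VQI) : Sy_FRH_E := by
  intro A B hC T n ι hfin R
  have hQ := hC.toCQ
  obtain ⟨n₀, hn₀, hF⟩ := MEC.c_FRO A B hC
  refine ⟨n₀, hn₀, ?_⟩
  intro m hm h2m Q q hq hqn hqm hcard V hV σ hσ hTr
  have hmn : (sp m : Ideal (OO A B)) ≠ ⊥ := by rwa [Ne, Ideal.span_singleton_eq_bot]
  -- an extension of `σ`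
  let D : IntermediateField ℚ ℂ :=
    (RFE (sp m) : IntermediateField (kk A B) ℂ).restrictScalars ℚ
  have hle : kk A B ≤ D := fun x hx =>
    (RFE (sp m) : IntermediateField (kk A B) ℂ).algebraMap_mem ⟨x, hx⟩
  have hDy : ∀ y ∈ D, y ∈ (RFE (sp m) : IntermediateField (kk A B) ℂ) := fun y hy => hy
  let := algC hle
  let τ : D ≃ₐ[kk A B] D := AlgEquiv.ofRingEquiv (f := (σ.toRingEquiv : D ≃+* D))
    (fun r => σ.commutes r)
  obtain ⟨s, hs, hs1⟩ := T.ext (sp m) hmn D hle hDy τ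
  have hs2 : ∀ y : (RFE (sp m) : IntermediateField (kk A B) ℂ),
      ((σ y : (RFE (sp m) : IntermediateField (kk A B) ℂ)) : ℂ) = s y := fun y =>
    (hs1 y).symm
  have hnI : nI Q = q := hcard
  have hqm' : ¬ q ∣ nI (sp m : Ideal (OO A B)) := by
    rw [Pool.Agent.MUX.nI_sp hQ hm]
    exact fun h => hqm (Int.natCast_dvd.2 h)
  have hOv : OverI V Q := by
    obtain ⟨-, h1⟩ := hVQI A B (KER.cqF hQ) V
    obtain ⟨-, -, h2⟩ := h1 Q q hq hcard hV
    intro x
    rw [ValuationSubring.mem_nonunits_iff]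
    constructor
    · intro h3
      by_contra h4
      exact absurd (h2 x h4) h3.ne
    · exact fun h3 => hV x h3
  have hfr : ∀ x : ℂ, x ∈ (RFE (sp m) : IntermediateField (kk A B) ℂ) → x ∈ V →
      V.valuation (s x - x ^ q) < 1 := by
    intro x hx hxV
    have := hσ ⟨x, hx⟩ hxV
    rwa [hs2] at this
  have hact := hF (sp m) hmn Q q hq hnI hqn hqm' V hOv s hs hfr
  obtain ⟨L₀, om₀, hL₀⟩ := MEC.exists_isNE hC (⊤ : Ideal (OO A B)) top_ne_bot
  obtain ⟨b', L', om', mu, hL', hA⟩ := hact _ _ _ hL₀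
  obtain ⟨c, -, hac, -, hc⟩ := act_shape hC hmn hs hL₀ hL'.nrm hA
  have hA' := hA.cop
  rw [hac] at hA'
  have hcop : IsCoprime c m := (Ideal.isCoprime_span_singleton_iff c m).1 hA'
  refine ⟨c, hac, ?_, KER.mk_E hQ σ s hs2 hcop hc⟩
  have hc0 : c ≠ 0 := by
    rintro rfl
    refine MEC.FRO.ne_bot_of_prime Q hq hnI ?_
    rw [hac]
    exact Ideal.span_singleton_eq_bot.2 rfl
  have h1 : (nm c).natAbs = q := by
    rw [← Pool.Agent.MUX.nI_sp hQ hc0, ← hac]
    exact hnI
  have h2 : 0 ≤ nm c := nm_nonneg hQ c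
  rw [← h1]
  exact (Int.natAbs_of_nonneg h2).symm

end

end Pool.Agent.MUXW


end
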