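import Mathlib
import Pool.Agent.MVF.C047
import Pool.Agent.MVF.C113

/-! Parts: ME.X.I_ARF, ME.X.I_IAG, ME.X.Y_SAM, ME.X.Y_FIN, ME.X.Y_BRI, ME.X.Y_ALM, ME.X.YAll, ME.X.J_DIR, ME.X.J_GAL, ME.X.J_INJ, ME.X.J_LEV, ME.X.J_LEVG, ME.X.J_SETG -/

section

/-!
# MUX, block IX, module ARF: the Artin symbol for a field `D`, `k ≤ D ≤ RF m`
-/

set_option autoImplicit false

namespace Pool.Agent.MUXI

open _root_.MU3 _root_.Pool.Agent.MU3 _root_.Pool.Agent.MU3A _root_.Pool.Agent.MU3B _root_.Pool.Agent.RI _root_.Pool.Agent.RID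
  _root_.Pool.Agent.MUX _root_.Pool.Agent.ME _root_.Pool.Agent.MUXE _root_.Pool.Agent.MUXK
open _root_.Pool.Agent.MU3I (w3 zt)

namespace I_ARF

end I_ARF

open _root_.Pool.Agent.MUXI.I_ARF in
theorem ti_ARF_E (h1 : Si_IAF_E) (h2 : Si_IAG_E) : Si_ARF_E := by
  intro A B hQ hT hN m hm hm2 D h hD
  let aD : Algebra (kk A B) D := algC h
  intro hG
  obtain ⟨i1, i2, i3, -, -, -, i7, i8⟩ := h1 A B hQ hT hN m hm
  obtain ⟨g1, -, g3⟩ := h2 A B hQ hT hN m hm (Or.inl hm2)
  refine ⟨⟨RingEquiv.refl ℂ, g1, fun y => rfl⟩, ?_, ?_, ?_, ?_, ?_, ?_⟩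
  · intro a ha hc
    obtain ⟨σ, hσ⟩ := i2 a ha hc
    obtain ⟨τ, hτ⟩ := restr hσ.fix D h hG
    exact ⟨τ, σ, hσ, hτ⟩
  · intro τ
    obtain ⟨σ, hσ, hE⟩ := hT.ext m hm D h hD τ
    obtain ⟨a, ha⟩ := i1 σ hσ
    exact ⟨a, ha.cop, σ, ha, hE⟩
  · rintro τ τ' a a' ⟨σ, hσ, hE⟩ ⟨σ', hσ', hE'⟩ hR
    have h3 := (g3 σ σ' a a' hσ hσ').1 hR
    ext y
    have e1 : σ (y : ℂ) = ((τ y : D) : ℂ) := hE y
    have e2 : σ' (y : ℂ) = ((τ' y : D) : ℂ) := hE' y
    have e3 := h3 y (hD y y.2)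
    show ((τ y : D) : ℂ) = ((τ' y : D) : ℂ)
    rw [← e1, ← e2, e3]
  · rintro τ τ' a a' ⟨σ, hσ, hE⟩ ⟨σ', hσ', hE'⟩
    refine ⟨σ'.trans σ, ?_, ?_⟩
    · have h3 := i3 σ' σ a' a hσ' hσ
      rwa [mul_comm a' a] at h3
    · intro y
      have e1 : σ' (y : ℂ) = ((τ' y : D) : ℂ) := hE' y
      have e2 : σ ((τ' y : D) : ℂ) = ((τ (τ' y) : D) : ℂ) := hE (τ' y)
      show σ (σ' (y : ℂ)) = ((τ (τ' y) : D) : ℂ)
      rw [e1, e2]
  · intro K hK m' hmm hKD
    let aK : Algebra (kk A B) K := algC hK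
    rintro τ τK a hres ⟨σ, hσ, hE⟩
    refine ⟨σ, i7 σ a m' hmm hσ, ?_⟩
    intro x
    have e1 : σ (x : ℂ) = ((τ ⟨(x : ℂ), hKD x.2⟩ : D) : ℂ) := hE ⟨(x : ℂ), hKD x.2⟩
    show σ (x : ℂ) = ((τK x : K) : ℂ)
    rw [e1]
    exact hres x ⟨(x : ℂ), hKD x.2⟩ rfl
  · rintro M τ a z y hM hle ⟨σ, hσ, hE⟩ hz hy
    have h3 := (i8 M σ a z hM hle hσ hz).2
    have e1 : σ (y : ℂ) = ((τ y : D) : ℂ) := hE y
    rw [← e1, hy, map_add, map_inv₀, h3]

end Pool.Agent.MUXI


end

section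

/-!
# MUX, block IX, module IAG (helper37): facts on `IA`, second part
-/

set_option autoImplicit false

namespace Pool.Agent.MUXI

open _root_.MU3 _root_.Pool.Agent.MU3 _root_.Pool.Agent.MU3A _root_.Pool.Agent.MU3B _root_.Pool.Agent.RI _root_.Pool.Agent.RID
  _root_.Pool.Agent.MUX _root_.Pool.Agent.ME _root_.Pool.Agent.MUXE _root_.Pool.Agent.MUXK
open _root_.Pool.Agent.MU3I (w3 zt)

noncomputable section

namespace IagX

variable {A B : ℤ}

/-- the ideal of an automorphism is not zero -/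
lemma ne_bot_E (hex : ∃ (b : Ideal (OO A B)) (L : PeriodPair) (om : ℂ), IsNE b L om)
    {m a : Ideal (OO A B)} {σ : ℂ ≃+* ℂ} (h : IA_E σ m a) : a ≠ ⊥ := by
  rintro rfl
  obtain ⟨b, L, om, hL⟩ := hex
  obtain ⟨b', L', om', mu, -, hA⟩ := h.act b L om hL
  obtain ⟨hmu, hq⟩ := hA.isq
  apply L'.ω₁_div_two_notMem_lattice
  have h1 := (hq (L'.ω₁ / 2 / mu)).2 (fun x hx => by
    have hx0 : x = 0 := hx
    rw [hx0, emb_zero', zero_mul]
    exact zero_mem _)
  rwa [mul_div_cancel₀ _ hmu] at h1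

end IagX

open _root_.Pool.Agent.MUXI.IagX in
theorem ti_IAG_E (h1 : Si_IAF_E) : Si_IAG_E := by
  intro A B hcq T hex m hm hm2
  obtain ⟨I1, -, I3, I4, I5, I6', -, -⟩ := h1 A B hcq T hex m hm
  have I6 := I6' hm2
  have inv : ∀ σ a, IA_E σ m a → a ≠ ⊥ ∧ ∃ b c, IA_E σ.symm m b ∧ c - 1 ∈ m ∧ a * b = sp c := by
    intro σ a ha
    refine ⟨ne_bot_E hex ha, ?_⟩
    have hs : FixK A B σ.symm := by
      have h2 : σ (wC A B) = wC A B := ha.fix
      show σ.symm (wC A B) = wC A B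
      rw [RingEquiv.symm_apply_eq]
      exact h2.symm
    obtain ⟨b, hb⟩ := I1 σ.symm hs
    have h3 := I3 σ σ.symm a b ha hb
    obtain ⟨c, hc, hc'⟩ := (I6 _ _ h3).1 (fun y _ => by simp)
    exact ⟨b, c, hb, hc, hc'⟩
  refine ⟨?_, inv, ?_⟩
  · obtain ⟨a, ha⟩ := I1 (RingEquiv.refl ℂ) rfl
    obtain ⟨c, hc, hc'⟩ := (I6 _ _ ha).1 (fun y _ => rfl)
    have h0 := ne_bot_E hex ha
    rw [hc'] at h0
    have hc0 := ne_zero_of_sp h0
    have hsp1 : (sp (1 : OO A B)) = ⊤ := Ideal.span_singleton_one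
    refine I5 _ a ⊤ ha ?_ ⟨1, c, ?_, hc0, ?_, ?_, ?_⟩
    · rw [← Ideal.one_eq_top]
      exact isCoprime_one_left
    · intro h2
      apply hc0
      rw [← mul_one c, h2, mul_zero]
    · rw [hsp1, ← Ideal.one_eq_top]
      exact isCoprime_one_left
    · have := neg_mem hc
      rwa [neg_sub] at this
    · rw [hc', hsp1, Ideal.top_mul, Ideal.mul_top]
  · intro σ σ' a a' ha ha'
    obtain ⟨-, b, c', hb, hcm, hcb⟩ := inv σ' a' ha'
    have h3 := I3 σ σ'.symm a b ha hb
    have h3' := I3 σ' σ'.symm a' b ha' hb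
    constructor
    · rintro ⟨x, y, hx, hy, hxm, hxy, he⟩
      have h4 : RE m (a * b) (sp c') := ⟨x, y, hx, hy, hxm, hxy, by
        rw [← hcb, ← mul_assoc, ← mul_assoc, he]⟩
      have h5 := I5 _ _ _ h3 (cop_of_sub hcm) h4
      have h6 := (I6 _ _ h5).2 ⟨c', hcm, rfl⟩
      intro y hy
      have h7 := h6 y hy
      rw [RingEquiv.trans_apply, RingEquiv.symm_apply_eq] at h7
      exact h7
    · intro hσ
      obtain ⟨c, hc, hc'⟩ := (I6 _ _ h3).1 (fun y hy => by
        rw [RingEquiv.trans_apply, RingEquiv.symm_apply_eq]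
        exact hσ y hy)
      have n1 := ne_bot_E hex h3
      have n2 := ne_bot_E hex h3'
      rw [hc'] at n1
      rw [hcb] at n2
      refine ⟨c', c, ne_zero_of_sp n2, ne_zero_of_sp n1, cop_of_sub hcm, ?_, ?_⟩
      · have := sub_mem hcm hc
        rwa [sub_sub_sub_cancel_right] at this
      · rw [← hcb, ← hc', mul_comm (a * b) a', mul_comm a b, ← mul_assoc]

end

end Pool.Agent.MUXI


end

section

/-!
# MUX, section 9, module SAM: normalised lattices of the same class are equal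
-/

set_option autoImplicit false

namespace Pool.Agent.MUXY

open _root_.Pool.Agent.ME

open _root_.MU3 _root_.Pool.Agent.MU3A _root_.Pool.Agent.MU3B _root_.Pool.Agent.MUXU OnePoint
open _root_.Pool.Agent.MU3F (ex)
open _root_.Pool.Agent.MUXF (Sx_ALG Sx_IDL Sx_NIM Sx_QB Sx_SMB Sx_F4 qb sumB)

/-- all normalised lattices are equal -/
theorem ty_SAM_E : Sy_SAM_E := by
  intro A B hc b b' L L' om om' x y hL hL' hx hy hxy z
  exact hL.nrm.lat hL'.nrm z

end Pool.Agent.MUXY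


end

section

/-!
# MUX, section 9: conjugation of the symbols at finitely many pairs of cusps
-/

set_option autoImplicit false

namespace Pool.Agent.MUXY

open _root_.Pool.Agent.ME

open _root_.MU3 _root_.Pool.Agent.MU3A _root_.Pool.Agent.MU3B _root_.Pool.Agent.MUXU OnePoint
open _root_.Pool.Agent.MU3F (ex)
open _root_.Pool.Agent.MUXF (Sx_ALG Sx_IDL Sx_NIM Sx_QB Sx_SMB Sx_F4 qb sumB)

namespace Y_FIN

end Y_FIN

open _root_.Pool.Agent.MUXY.Y_FIN in
theorem ty_FIN_E (h2 : Sx_IDL) (h3 : Sx_NIM) (h4 : Sy_RAT) (h5 : Sy_EXI_E) : Sy_FIN_E := by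
  intro A B hQ hT n ι R g e hg hg1 he hcop σ hσ i S
  obtain ⟨m, hm, hmg, hS⟩ := level g (MUXF.nI g) (h2 A B (cqF hQ) g hg).1
    ((h3 A B (cqF hQ)).2.2.1 g hg).2.2.2 S
  obtain ⟨j, a, mu, hact, hz⟩ := h5 A B hQ hT n ι R σ hσ m hm i
  obtain ⟨C, hC, hx, hxy⟩ := h4 A B (cqF hQ) σ m a (R.b i) (R.b j) (R.L i) (R.L j) (R.om i)
    (R.om j) mu (liF (R.nl i).toIsLI) (liF (R.nl j).toIsLI) hact hz g e (eiF he) hg1 hm hmg
    (hcop i) (hcop j)
  exact ⟨j, C, hact.cj, hC, hx, fun q hq => hxy q.1 q.2 (hS q hq).1 (hS q hq).2⟩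

end Pool.Agent.MUXY


end

section

/-!
# MUX, section 9, module BRI (helper1): from `ActI` to `ActN`
-/

set_option autoImplicit false

namespace Pool.Agent.MUXY

open _root_.Pool.Agent.ME

open _root_.MU3 _root_.Pool.Agent.MU3A _root_.Pool.Agent.MU3B _root_.Pool.Agent.MUXU OnePoint
open _root_.Pool.Agent.MU3F (ex)
open _root_.Pool.Agent.MUXF (Sx_ALG Sx_IDL Sx_NIM Sx_QB Sx_SMB Sx_F4 qb sumB)

theorem ty_BRI_E (h1 : Sx_ALG) : Sy_BRI_E := by
  intro A B h σ m a b b' L L' L'' om om' mu hL hL' hact heq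
  obtain ⟨hA1, -, hA3, -, -⟩ := h1 A B (cqF h)
  have hs := Pool.Agent.MU3A.ta_SCP L' L'' 1 one_ne_zero
    (fun u => by rw [one_mul]; exact heq u)
  have hw : ∀ z, L''.weierstrassP z = L'.weierstrassP z := fun z => by simpa using hs.1 z
  have hw' : ∀ z, L''.derivWeierstrassP z = L'.derivWeierstrassP z := fun z => by
    simpa using hs.2.1 z
  have hg2 : L''.g₂ = L'.g₂ := by simpa using hs.2.2.1
  have hg3 : L''.g₃ = L'.g₃ := by simpa using hs.2.2.2
  have hk : L'.g₂ = σ L.g₂ := by rw [hL.nrm.fix2 σ]; exact hL'.nrm.g2_eq hL.nrm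
  have hk3 : L'.g₃ = σ L.g₃ := by rw [hL.nrm.fix3 σ]; exact hL'.nrm.g3_eq hL.nrm
  refine ⟨⟨by rw [hg2, hk], by rw [hg3, hk3]⟩, hact.cop, hact.isq.1,
    fun z => by rw [← heq]; exact hact.isq.2 z, fun z hz hzL => ?_⟩
  have hT : MUX.Tor (MUX.idl (A := A) (B := B) m) L z := by
    intro x hx
    obtain ⟨y, rfl⟩ := Ideal.mem_span_singleton'.1 hx
    obtain ⟨s, hs1, hs2⟩ := (hL.mem _).1 hz
    have em : emb ((m : ℕ) : OO A B) = m := by
      have := (hA3 (m : ℤ)).1
      rwa [Int.cast_natCast, Int.cast_natCast] at this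
    refine (hL.mem _).2 ⟨y * s, b.mul_mem_left y hs1, ?_⟩
    rw [(hA1 y _).1, (hA1 y s).1, em, mul_assoc, hs2]
    ring
  rcases hact.act z hT with ⟨h0, -⟩ | ⟨-, h2, h3, h4⟩
  · exact absurd h0 hzL
  · refine ⟨fun h0 => h2 ((heq _).2 h0), ?_, ?_⟩
    · rw [hw]
      unfold ME.xnE at h3
      exact h3.symm
    · rw [hw']
      unfold yy at h4
      rw [map_div₀, map_ofNat] at h4
      linear_combination -2 * h4

end Pool.Agent.MUXY


end

section

/-!
# MUX, section 9, module ALM: the multipliers are algebraic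
-/

set_option autoImplicit false

namespace Pool.Agent.MUXY

open _root_.Pool.Agent.ME

open _root_.MU3 _root_.Pool.Agent.MU3A _root_.Pool.Agent.MU3B _root_.Pool.Agent.MUXU OnePoint
open _root_.Pool.Agent.MU3F (ex)
open _root_.Pool.Agent.MUXF (Sx_ALG Sx_IDL Sx_NIM Sx_QB Sx_SMB Sx_F4 qb sumB)

noncomputable section

/-- two multipliers differ by a unit -/
lemma muu_E {A B : ℤ} (h : CaseE A B) (a : Ideal (OO A B)) (L L' : PeriodPair) (mu mu' : ℂ)
    (hL : NrmE A B L') (h1 : MUX.IsQ a L L' mu) (h2 : MUX.IsQ a L L' mu') :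
    ∃ z : OO A B, IsUnit z ∧ mu' = emb z * mu := by
  obtain ⟨h0, h1⟩ := h1
  obtain ⟨h0', h1'⟩ := h2
  have hs : mu' / mu ≠ 0 := div_ne_zero h0' h0
  have key : ∀ z : ℂ, z ∈ L'.lattice ↔ mu' / mu * z ∈ L'.lattice := by
    intro z
    have e1 : mu * (z / mu) = z := mul_div_cancel₀ z h0
    have e2 : mu' * (z / mu) = mu' / mu * z := by ring
    rw [← e2, h1', ← h1, e1]
  obtain ⟨z, hz, e⟩ := unit_scale h hL hL hs key
  exact ⟨z, hz, by rw [← e, div_mul_cancel₀ _ h0]⟩

/-- (ALM) -/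
theorem ty_ALM_E (h1 : Sx_ALG) (h2 : Sx_IDL) (h3 : Sy_EXI_E) (h4 : Sy_MUC)
    (h6 : Sy_MUI_E) (h7 : Su_AUT) : Sy_ALM_E := by
  intro A B hcq hT n ι hι R i
  have key : IsAlgebraic ℚ (ME.muXE R i) := by
    refine h7 (kk A B) (ALM.kk_alg h1 hcq) _ ?_
    have hfin : (⋃ l : ι, ⋃ j : ι, {s : ℂ | MUX.IsQ (MUX.cjI (R.b i)) (R.L l) (R.L j) s}).Finite := by
      refine Set.finite_iUnion fun l => Set.finite_iUnion fun j => ?_
      by_cases hex : ∃ s₀ : ℂ, MUX.IsQ (MUX.cjI (R.b i)) (R.L l) (R.L j) s₀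
      · obtain ⟨s₀, hs₀⟩ := hex
        refine ((Set.toFinite ({1, -1, ⟨0, 1⟩, ⟨0, -1⟩, ⟨1, -1⟩, ⟨-1, 1⟩} : Set (OO A B))).image
          (fun z => emb z * s₀)).subset fun s hs => ?_
        obtain ⟨z, hz, e⟩ := muu_E hcq (MUX.cjI (R.b i)) (R.L l) (R.L j) s₀ s (R.nl j).nrm hs₀ hs
        refine ⟨z, ?_, e.symm⟩
        rcases unit_list hcq hz with rfl | rfl | rfl | rfl | ⟨-, rfl | rfl⟩ <;> simp
      · refine Set.finite_empty.subset fun s hs => ?_
        exact absurd ⟨s, hs⟩ hex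
    refine hfin.subset ?_
    rintro y ⟨σ, hσ, rfl⟩
    have hfix : MUX.FixK A B σ := ALM.fixK σ hσ
    obtain ⟨l, _, _, hl, _⟩ := h3 A B hcq hT n ι R σ hfix 1 one_ne_zero R.i0
    obtain ⟨j, _, _, hj, _⟩ := h3 A B hcq hT n ι R σ hfix 1 one_ne_zero i
    have h8 := h4 A B hcq σ hfix (MUX.cjI (R.b i)) (R.b R.i0) (R.L R.i0) (R.L i) (R.L l) (R.L j)
      (R.om R.i0) (ME.muXE R i) (R.nl R.i0).toIsLI hl.cj hj.cj (h6 A B hcq n ι R i)
    exact Set.mem_iUnion.2 ⟨l, Set.mem_iUnion.2 ⟨j, h8⟩⟩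
  refine ⟨key, ?_⟩
  have hN : ((MUX.nI (R.b i) : ℕ) : ℂ) ≠ 0 := by
    have h8 : MUX.nI (R.b i) ≠ 0 := (h2 A B (cqF hcq) (R.b i) (R.nl i).b_ne).1
    exact_mod_cast h8
  have h9 : R.om i / R.om R.i0 = ME.muXE R i * ((MUX.nI (R.b i) : ℕ) : ℂ)⁻¹ := by
    unfold ME.muXE
    field_simp
  rw [h9]
  exact key.mul (isAlgebraic_natCast _).inv

end

end Pool.Agent.MUXY


end

section

/-!
# MUX, section 9 (rationality): all statements of `StYX.lean`, without hypotheses (helper41)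

`TorX A B` remains a hypothesis inside the statements EXI, FIN, CON, ALM, ALP.
-/

set_option autoImplicit false

namespace Pool.Agent.MUXY

open _root_.Pool.Agent.ME

open _root_.Pool.Agent.MUXF _root_.Pool.Agent.MUXU

theorem y_SAM_E : Sy_SAM_E := ty_SAM_E
theorem y_COP_E : Sy_COP_E := ty_COP_E
theorem y_BRI_E : Sy_BRI_E := ty_BRI_E xf_ALG
theorem y_EXI_E : Sy_EXI_E := ty_EXI_E y_SAM_E y_BRI_E
theorem y_UNJ_E : Sy_UNJ_E := ty_UNJ_E xf_ALG xf_IDL u_DET
theorem y_FIN_E : Sy_FIN_E := ty_FIN_E xf_IDL xf_NIM y_RAT y_EXI_E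
theorem y_MUI_E : Sy_MUI_E := ty_MUI_E xf_ALG xf_IDL
theorem y_CON_E : Sy_CON_E := ty_CON_E y_FIN_E y_UNJ_E y_EIC
theorem y_ALM_E : Sy_ALM_E := ty_ALM_E xf_ALG xf_IDL y_EXI_E y_MUC y_MUI_E u_AUT
theorem y_ALP_E : Sy_ALP_E := ty_ALP_E y_FIN_E y_FEC y_ALM_E u_AUT
end Pool.Agent.MUXY


end

section

/-!
# MUX, block J, module DIR: a finite extension in the union of the ray class fields is in one of them
-/

set_option autoImplicit false

open NumberField IsDedekindDomain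
open scoped nonZeroDivisors Pointwise

namespace Pool.Agent.MUXJ

open _root_.MU3 _root_.Pool.Agent.MU3 _root_.Pool.Agent.MU3A _root_.Pool.Agent.MU3B _root_.Pool.Agent.RI _root_.Pool.Agent.RID
  _root_.Pool.Agent.MUX _root_.Pool.Agent.ME _root_.Pool.Agent.MUXK _root_.Pool.Agent.MUXE

noncomputable section

/-- JDIR. -/
theorem t_DIR_E : Sj_DIR_E := by
  intro A B hcq hT K _ hK
  let b := Module.finBasis ℚ K
  choose m hm0 hm using fun i => hK (b i) (b i).2
  have hR : RingE A B := te_RNG A B hcq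
  choose N hN0 hN using fun i => hR.pos (m i) (hm0 i)
  refine ⟨∏ i, N i, Finset.prod_ne_zero_iff.2 fun i _ => (hN0 i).ne', ?_⟩
  intro x hx
  have h1 : ((∑ i, b.repr ⟨x, hx⟩ i • b i : K) : ℂ) = x :=
    congrArg (Subtype.val) (b.sum_repr ⟨x, hx⟩)
  have h2 : x = ∑ i, ((b.repr ⟨x, hx⟩ i : ℚ) : ℂ) * ((b i : K) : ℂ) := by
    refine h1.symm.trans ?_
    rw [AddSubmonoidClass.coe_finsetSum]
    refine Finset.sum_congr rfl fun i _ => ?_
    rw [IntermediateField.coe_smul, Rat.smul_def]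
  rw [h2]
  refine sum_mem fun i _ => mul_mem (SubfieldClass.ratCast_mem _ _) ?_
  refine hT.mono (m i) (idl (∏ i, N i)) ?_ (hm i)
  rw [Ideal.span_singleton_le_iff_mem]
  obtain ⟨c, hc⟩ := Finset.dvd_prod_of_mem N (Finset.mem_univ i)
  rw [hc, Nat.cast_mul]
  exact (m i).mul_mem_right _ (hN i)

end

end Pool.Agent.MUXJ


end

section

/-!
# MUX, block J, module GAL: subfields of the ray class fields are abelian over `k`
-/

set_option autoImplicit false

open NumberField IsDedekindDomain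
open scoped nonZeroDivisors Pointwise

namespace Pool.Agent.MUXJ

open _root_.MU3 _root_.Pool.Agent.MU3 _root_.Pool.Agent.MU3A _root_.Pool.Agent.MU3B _root_.Pool.Agent.RI _root_.Pool.Agent.RID
  _root_.Pool.Agent.MUX _root_.Pool.Agent.ME _root_.Pool.Agent.MUXK _root_.Pool.Agent.MUXE

theorem t_GAL_E : Sj_GAL_E := by
  intro A B T m hm K hk hK
  have hgal : IsGalois (kk A B) (RFE m) := T.gal m hm
  have hfd : FiniteDimensional (kk A B) (RFE m) := T.fin m hm
  have hab : IsAbelianGalois (kk A B) (RFE m) :=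
    { toIsGalois := hgal
      is_comm := ⟨fun σ τ => T.comm m hm σ τ⟩ }
  have hle : IntermediateField.extendScalars hk ≤ RFE m := fun x hx => hK x hx
  have hfin : IsAbelianGalois (kk A B) (IntermediateField.extendScalars hk) :=
    IsAbelianGalois.of_algHom (IntermediateField.inclusion hle)
  have hfd' : FiniteDimensional (kk A B) (IntermediateField.extendScalars hk) :=
    FiniteDimensional.of_injective (IntermediateField.inclusion hle).toLinearMap
      (IntermediateField.inclusion hle).injective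
  exact ⟨hfin.toIsGalois, hfd', fun σ τ => hfin.is_comm.comm σ τ⟩

end Pool.Agent.MUXJ


end

section

/-!
# MUX, block J: the inertia group of `K₁ ⊔ RF ⊤` injects into `Gal(K₁/k)` (INJ)
-/

set_option autoImplicit false

open NumberField IsDedekindDomain
open scoped nonZeroDivisors Pointwise

namespace Pool.Agent.MUXJ

open _root_.MU3 _root_.Pool.Agent.MU3 _root_.Pool.Agent.MU3A _root_.Pool.Agent.MU3B _root_.Pool.Agent.RI _root_.Pool.Agent.RID
  _root_.Pool.Agent.MUX _root_.Pool.Agent.ME _root_.Pool.Agent.MUXK _root_.Pool.Agent.MUXE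

noncomputable section

namespace Jinj

end Jinj

open _root_.Pool.Agent.MUXJ.Jinj in
theorem t_INJ_E : Sj_INJ_E := by
  intro A B V hU hT K₁ K _ _ _ _ hK
  have hle : K₁ ≤ K := by rw [hK]; exact le_sup_left
  have hleR : RFE (⊤ : Ideal (OO A B)) ≤ K := by rw [hK]; exact le_sup_right
  have htop : (⊤ : Ideal (OO A B)) ≠ ⊥ := top_ne_bot
  have galR := hT.gal ⊤ htop
  have finR := hT.fin ⊤ htop
  let _ : Algebra K₁ K := (IntermediateField.inclusion hle).toAlgebra
  have _ : IsScalarTower (kk A B) K₁ K := IsScalarTower.of_algebraMap_eq fun x => rfl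
  let _ : Algebra (RFE (⊤ : Ideal (OO A B))) K := (IntermediateField.inclusion hleR).toAlgebra
  have _ : IsScalarTower (kk A B) (RFE (⊤ : Ideal (OO A B))) K :=
    IsScalarTower.of_algebraMap_eq fun x => rfl
  have key : ∀ σ ∈ IG V K, AlgEquiv.restrictNormalHom K₁ σ = 1 → σ = 1 := by
    intro σ hσ hr
    -- `σ` is trivial on `K₁`
    have c1 : ∀ (y : ℂ) (hy : y ∈ K₁), σ ⟨y, hle hy⟩ = ⟨y, hle hy⟩ := by
      intro y hy
      have h1 := AlgEquiv.restrictNormal_commutes σ K₁ ⟨y, hy⟩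
      have h2 : σ.restrictNormal K₁ = 1 := hr
      rw [h2] at h1
      exact h1.symm
    -- `σ` is trivial on `RFE ⊤`
    have c2 : ∀ (y : ℂ) (hy : y ∈ RFE (⊤ : Ideal (OO A B))), σ ⟨y, hleR hy⟩ = ⟨y, hleR hy⟩ := by
      let D : IntermediateField ℚ ℂ := (RFE (⊤ : Ideal (OO A B))).restrictScalars ℚ
      have hD : kk A B ≤ D := fun x hx => (RFE (⊤ : Ideal (OO A B))).algebraMap_mem ⟨x, hx⟩
      let _ := algC hD
      let τ₀ := σ.restrictNormal (RFE (⊤ : Ideal (OO A B)))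
      let τ : D ≃ₐ[kk A B] D :=
        { toFun := τ₀
          invFun := τ₀.symm
          left_inv := τ₀.left_inv
          right_inv := τ₀.right_inv
          map_mul' := τ₀.map_mul
          map_add' := τ₀.map_add
          commutes' := τ₀.commutes }
      obtain ⟨σ', hσ', hext⟩ := hT.ext ⊤ htop D hD (fun y hy => hy) τ
      have e : ∀ (y : ℂ) (hy : y ∈ RFE (⊤ : Ideal (OO A B))), σ' y = (σ ⟨y, hleR hy⟩ : K) := by
        intro y hy
        have h1 : σ' y = ((τ ⟨y, hy⟩ : D) : ℂ) := hext ⟨y, hy⟩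
        have h2 := AlgEquiv.restrictNormal_commutes σ (RFE (⊤ : Ideal (OO A B))) ⟨y, hy⟩
        have h3 := congrArg (fun t : K => (t : ℂ)) h2
        rw [h1]
        exact h3
      have h4 := hU σ' hσ' (by
        intro y hy hyV
        rw [e y hy]
        have h5 := hσ ⟨y, hleR hy⟩ ((V.valuation_le_one_iff _).2 hyV)
        exact (V.mem_nonunits_iff).2 h5)
      intro y hy
      apply Subtype.ext
      rw [← e y hy]
      exact h4 y hy
    -- so it is trivial
    have c3 : K = IntermediateField.adjoin (kk A B)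
        ((K₁ : Set ℂ) ∪ (RFE (⊤ : Ideal (OO A B)) : Set ℂ)) := by
      rw [← IntermediateField.sup_def]
      exact hK
    have c4 : K.val.comp σ.toAlgHom = K.val := by
      refine IntermediateField.algHom_ext_of_eq_adjoin (kk A B) c3 ?_
      intro y hy
      rcases hy with hy | hy
      · exact congrArg (fun t : K => (t : ℂ)) (c1 y hy)
      · exact congrArg (fun t : K => (t : ℂ)) (c2 y hy)
    apply AlgEquiv.ext
    intro y
    apply Subtype.ext
    exact congrArg (fun f : K →ₐ[kk A B] ℂ => f y) c4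
  have inj : Function.Injective
      ((AlgEquiv.restrictNormalHom K₁).comp (IG V K).subtype :
        IG V K →* (K₁ ≃ₐ[kk A B] K₁)) := by
    rw [injective_iff_map_eq_one]
    intro σ hσ
    exact Subtype.ext (key σ.1 σ.2 hσ)
  have h1 := Subgroup.card_dvd_of_injective _ inj
  rw [IsGalois.card_aut_eq_finrank] at h1
  exact h1

end

end Pool.Agent.MUXJ


end

section

/-!
# MUX, block J, module LEV: a field of degree prime to `p` over `k` has a level `f q0` (helper2)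
-/

set_option autoImplicit false

namespace Pool.Agent.MUXJ

open _root_.MU3 _root_.Pool.Agent.MU3 _root_.Pool.Agent.MU3A _root_.Pool.Agent.MU3B _root_.Pool.Agent.RI _root_.Pool.Agent.RID
  _root_.Pool.Agent.MUX _root_.Pool.Agent.ME _root_.Pool.Agent.MUXK _root_.Pool.Agent.MUXE

noncomputable section

namespace LEV

variable {A B : ℤ}

/-- automorphisms of `RFE m` extend to `ℂ` -/
lemma lift_E (T : TorXE A B) {m : Ideal (OO A B)} (hm : m ≠ ⊥) (σ : RFE m ≃ₐ[kk A B] RFE m) :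
    ∃ s : ℂ ≃+* ℂ, FixK A B s ∧ ∀ y : RFE m, s (y : ℂ) = (σ y : ℂ) := by
  let D : IntermediateField ℚ ℂ := (RFE m).restrictScalars ℚ
  have h : kk A B ≤ D := fun x hx => (RFE m).algebraMap_mem ⟨x, hx⟩
  let _ := algC h
  let τ : D ≃ₐ[kk A B] D :=
    { toFun := fun x => ⟨(σ ⟨x.1, x.2⟩ : ℂ), (σ ⟨x.1, x.2⟩).2⟩
      invFun := fun x => ⟨(σ.symm ⟨x.1, x.2⟩ : ℂ), (σ.symm ⟨x.1, x.2⟩).2⟩
      left_inv := fun x => Subtype.ext
        (congrArg Subtype.val (σ.symm_apply_apply (⟨x.1, x.2⟩ : RFE m)))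
      right_inv := fun x => Subtype.ext
        (congrArg Subtype.val (σ.apply_symm_apply (⟨x.1, x.2⟩ : RFE m)))
      map_mul' := fun x y => Subtype.ext (by
        have := map_mul σ ⟨x.1, x.2⟩ ⟨y.1, y.2⟩
        exact congrArg Subtype.val this)
      map_add' := fun x y => Subtype.ext (by
        have := map_add σ ⟨x.1, x.2⟩ ⟨y.1, y.2⟩
        exact congrArg Subtype.val this)
      commutes' := fun r => Subtype.ext (by
        have := σ.commutes r
        exact congrArg Subtype.val this) }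
  obtain ⟨s, hs, hs1⟩ := T.ext m hm D h (fun y hy => hy) τ
  exact ⟨s, hs, fun y => hs1 ⟨y.1, y.2⟩⟩

/-- lowering the level -/
lemma act_mono_E {σ : ℂ ≃+* ℂ} {m m' a : Ideal (OO A B)} {L L' : PeriodPair} {mu : ℂ}
    (h : m' ≤ m) (ha : _root_.Pool.Agent.ME.ActE σ m' a L L' mu) : _root_.Pool.Agent.ME.ActE σ m a L L' mu := by
  refine ⟨ha.kapE, ?_, ha.isq, fun z hz => ha.act z fun x hx => hz x (h hx)⟩
  have h1 := ha.cop
  rw [Ideal.isCoprime_iff_sup_eq] at h1 ⊢
  exact top_unique (h1 ▸ sup_le_sup_left h a)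

end LEV

end

end Pool.Agent.MUXJ


end

section

/-!
# MUX, block J, module LEVG: a field of degree prime to `p` over `k` has a level `f q0`, `d ∣ f` (helper92)

The proof of `J_LEV.lean` with `f = d M'`.
-/

set_option autoImplicit false

namespace Pool.Agent.MUXJ

open _root_.MU3 _root_.Pool.Agent.MU3 _root_.Pool.Agent.MU3A _root_.Pool.Agent.MU3B _root_.Pool.Agent.RI _root_.Pool.Agent.RID
  _root_.Pool.Agent.MUX _root_.Pool.Agent.ME _root_.Pool.Agent.MUXK _root_.Pool.Agent.MUXE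

noncomputable section

open _root_.Pool.Agent.MUXJ.LEV in
/-- a field of degree prime to `p` over `k` is contained in a ray class field of level `f q0` -/
theorem t_LEVG_E : Sj_LEVG_E := by
  intro p d A B hC hp23 hd0 hdp hd2 T hN K _ hk hKp M hM0 hM
  have hp : p.Prime := by
    rcases hp23 with h | h
    · rw [h]; exact Nat.prime_two
    · rw [h]; exact Nat.prime_three
  obtain ⟨j, M', hM', hMj⟩ := Nat.exists_eq_pow_mul_and_not_dvd hM0 p hp.ne_one
  have hM'0 : M' ≠ 0 := by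
    rintro rfl
    exact hM' (dvd_zero p)
  set f : ℕ := d * M' with hf
  have hf0 : f ≠ 0 := mul_ne_zero hd0 hM'0
  have hfp : ¬ p ∣ f := by
    rw [hf, hp.dvd_mul]
    push Not
    exact ⟨hdp, hM'⟩
  have hq0 : q0 p ≠ 0 := by
    unfold q0
    split_ifs with h2
    · norm_num
    · exact hp.ne_zero
  have hpq0 : p ∣ q0 p := by
    unfold q0
    split_ifs with h2
    · rw [h2]; norm_num
    · exact dvd_rfl
  refine ⟨f, hf0, hfp, Dvd.intro _ rfl, ?_⟩
  -- the two levels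
  set m1 : Ideal (OO A B) := idl (lvX p f j) with hm1
  set m0 : Ideal (OO A B) := idl (lvX p f 0) with hm0
  have hm1' : m1 ≠ ⊥ := idl_ne (mul_ne_zero (mul_ne_zero hf0 hq0) (pow_ne_zero _ hp.ne_zero))
  have hm0' : m0 ≠ ⊥ := idl_ne (mul_ne_zero (mul_ne_zero hf0 hq0) (pow_ne_zero _ hp.ne_zero))
  have h2m0 : m0 ≤ idl 2 := idl_le (by
    unfold lvX q0
    rcases hp23 with h | h
    · rw [h]
      simp only [if_true, pow_zero, mul_one]
      exact Dvd.dvd.mul_left (by norm_num) f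
    · have h9 : 2 ∣ f := (hd2 h).trans (Dvd.intro _ rfl)
      exact (h9.mul_right _).mul_right _)
  have h01 : m1 ≤ m0 := idl_le (mul_dvd_mul_left _ (pow_dvd_pow p (Nat.zero_le j)))
  have hMm : m1 ≤ idl M := idl_le (by
    rw [hMj]
    exact ⟨d * q0 p, by unfold lvX; rw [hf]; ring⟩)
  have hK1 : ∀ x ∈ K, x ∈ RFE m1 := fun x hx => T.mono _ _ hMm (hM x hx)
  have hfin := T.fin m1 hm1'
  have hgal := T.gal m1 hm1'
  have h01' : RFE m0 ≤ RFE m1 := T.mono _ _ h01
  let K' : IntermediateField (kk A B) ℂ := IntermediateField.extendScalars hk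
  have hK' : K' ≤ RFE m1 := fun x hx => hK1 x hx
  let E : IntermediateField (kk A B) (RFE m1) := IntermediateField.restrict hK'
  let F0 : IntermediateField (kk A B) (RFE m1) := IntermediateField.restrict h01'
  have hcomm := T.comm m1 hm1'
  have hnorm : E.fixingSubgroup.Normal := by
    constructor
    intro n hn g
    rw [hcomm g n, mul_assoc, mul_inv_cancel, mul_one]
    exact hn
  have hidx : ¬ p ∣ E.fixingSubgroup.index := by
    rw [← IntermediateField.finrank_eq_fixingSubgroup_index,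
      ← (IntermediateField.restrictAlgEquiv hK').toLinearEquiv.finrank_eq]
    exact hKp
  -- elements which are trivial on `RFE m0`
  have hkey : F0.fixingSubgroup ≤ E.fixingSubgroup := by
    intro σ hσ
    rw [IntermediateField.mem_fixingSubgroup_iff] at hσ
    obtain ⟨s, hs, hsσ⟩ := lift_E T hm1' σ
    obtain ⟨a, hac, ha⟩ := T.act m1 hm1' s hs
    obtain ⟨b, L, om, hL⟩ := hN
    obtain ⟨b', L', om', mu, hL', hact⟩ := ha b L om hL
    have htr0 : ∀ y ∈ RFE m0, s y = y := by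
      intro y hy
      have h1 := hsσ ⟨y, h01' hy⟩
      have h2 := hσ ⟨y, h01' hy⟩ ((IntermediateField.mem_restrict h01' _).2 hy)
      rw [h2] at h1
      exact h1
    obtain ⟨x, hx, hax⟩ := (T.triv m0 a s b L L' om mu hm0' (Or.inl h2m0) hs hL (act_mono_E h01 hact) hL'.nrm).1 htr0
    -- powers
    have hpow : ∀ n : ℕ, ∃ t : ℂ ≃+* ℂ, FixK A B t ∧
        (∀ y : RFE m1, t (y : ℂ) = ((σ ^ (n + 1)) y : ℂ)) ∧
        ∃ (b' : Ideal (OO A B)) (L' : PeriodPair) (om' mu : ℂ), IsNE b' L' om' ∧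
          _root_.Pool.Agent.ME.ActE t m1 (a ^ (n + 1)) L L' mu := by
      intro n
      induction n with
      | zero =>
        refine ⟨s, hs, fun y => ?_, b', L', om', mu, hL', ?_⟩
        · rw [zero_add, pow_one]; exact hsσ y
        · rw [zero_add, pow_one]; exact hact
      | succ n ih =>
        obtain ⟨t, ht, ht1, b₁, L₁, om₁, mu₁, hL₁, hact₁⟩ := ih
        obtain ⟨b₂, L₂, om₂, mu₂, hL₂, hact₂⟩ := ha b₁ L₁ om₁ hL₁
        refine ⟨t.trans s, ?_, fun y => ?_, b₂, L₂, om₂, mu₂ * mu₁, hL₂, ?_⟩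
        · show s (t (wC A B)) = wC A B
          rw [show t (wC A B) = wC A B from ht]
          exact hs
        · show s (t (y : ℂ)) = _
          rw [ht1 y, hsσ, pow_succ' σ (n + 1)]
          rfl
        · rw [pow_succ a (n + 1)]
          exact T.comp m1 _ a t s L L₁ L₂ mu₁ mu₂ hact₁ hact₂
    have hpj : 0 < p ^ j := pow_pos hp.pos j
    obtain ⟨t, ht, ht1, b₁, L₁, om₁, mu₁, hL₁, hact₁⟩ := hpow (p ^ j - 1)
    rw [Nat.sub_add_cancel hpj] at ht1 hact₁
    have h3 : x ^ p ^ j - 1 ∈ m1 := by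
      have h4 : ((f * q0 p : ℕ) : OO A B) ∣ x - 1 := by
        have h5 := Ideal.mem_span_singleton.1 hx
        simpa [lvX] using h5
      have h5 : ((p : ℕ) : OO A B) ∣ ((f * q0 p : ℕ) : OO A B) :=
        Nat.cast_dvd_cast (hpq0.mul_left f)
      have h6 := pow_dvd p _ x h5 h4 j
      rw [hm1, Ideal.mem_span_singleton]
      unfold lvX
      push_cast at h6 ⊢
      exact h6
    have h4 : σ ^ p ^ j = 1 := by
      have h5 := (T.triv m1 _ t b L L₁ om mu₁ hm1' (Or.inl (h01.trans h2m0)) ht hL hact₁ hL₁.nrm).2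
        ⟨x ^ p ^ j, h3, by rw [hax, Ideal.span_singleton_pow]⟩
      refine AlgEquiv.ext fun y => Subtype.ext ?_
      rw [← ht1 y, h5 y y.2]
      rfl
    have h5 : σ ^ E.fixingSubgroup.index ∈ E.fixingSubgroup := Subgroup.pow_index_mem _ σ
    refine mem_of_pow_mem _ (m := p ^ j) (by rw [h4]; exact one_mem _) h5 ?_
    exact Nat.Coprime.pow_left j ((Nat.Prime.coprime_iff_not_dvd hp).2 hidx)
  have hEF : E ≤ F0 := by
    rw [← IsGalois.fixedField_fixingSubgroup F0, IntermediateField.le_iff_le]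
    exact hkey
  intro x hx
  have h1 : (⟨x, hK1 x hx⟩ : RFE m1) ∈ F0 :=
    hEF ((IntermediateField.mem_restrict hK' _).2 hx)
  exact (IntermediateField.mem_restrict h01' _).1 h1

end

end Pool.Agent.MUXJ


end

section

/-!
# MUX, block J, module SETG: the large field `K`, any prime above `p`
-/

set_option autoImplicit false

open NumberField IsDedekindDomain
open scoped nonZeroDivisors Pointwise

namespace Pool.Agent.MUXJ

open _root_.MU3 _root_.Pool.Agent.MU3 _root_.Pool.Agent.MU3A _root_.Pool.Agent.MU3B _root_.Pool.Agent.RI _root_.Pool.Agent.RID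
  _root_.Pool.Agent.MUX _root_.Pool.Agent.ME _root_.Pool.Agent.MUXK _root_.Pool.Agent.MUXE

open _root_.Pool.Agent.MUXJ.JSET in
/-- JSETG. -/
theorem t_SETG_E (h1 : Sj_DIR_E) (h2 : Sj_RAMG) (h3 : Sj_INJ_E) (h4 : Sj_ROT) (h5 : Sj_LDX) (h6 : Sj_GAL_E)
    (h7 : Sj_LEVG_E) : Sj_SETG_E := by
  intro p e d A B P V hX hd0 hpd hd2 hU T hNL K₀ _ hk hcop hTor hom Bn hlay hmono
  have hp23 : p = 2 ∨ p = 3 := hX.pp
  have hp : p.Prime := by
    rcases hp23 with h | h
    · rw [h]; exact Nat.prime_two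
    · rw [h]; exact Nat.prime_three
  have : Fact p.Prime := ⟨hp⟩
  obtain ⟨M, hM, hKM⟩ := h1 A B hX.cq T K₀ hTor
  obtain ⟨f, hf0, hfp, hfd, hKf⟩ :=
    h7 p d A B hX.cq hp23 hd0 hpd hd2 T hNL K₀ hk hcop M hM hKM
  have hlv0 : lvX p f 0 ≠ 0 := by
    unfold lvX q0
    refine mul_ne_zero (mul_ne_zero hf0 ?_) (pow_ne_zero _ hp.ne_zero)
    split_ifs
    · norm_num
    · exact hp.ne_zero
  set m₀ : Ideal (OO A B) := idl (lvX p f 0) with hm₀
  have hm₀b : m₀ ≠ ⊥ := idl_ne _ hlv0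
  have h2p : 2 * p ∣ lvX p f 0 := by
    unfold lvX q0
    rcases hp23 with h | h
    · subst h
      simp
    · subst h
      have h9 : 2 ∣ f := (hd2 rfl).trans hfd
      obtain ⟨c, rfl⟩ := h9
      exact ⟨c, by simp; ring⟩
  have h2p0 : 2 * p ≠ 0 := mul_ne_zero two_ne_zero hp.ne_zero
  -- the root of unity
  obtain ⟨ζ, hζ⟩ : ∃ ζ : ℂ, IsPrimitiveRoot ζ (2 * p) := ⟨_, Complex.isPrimitiveRoot_exp _ h2p0⟩
  have hζm : ζ ∈ RFE m₀ := by
    obtain ⟨b, L, om, hL⟩ := hNL
    have hfix : FixK A B (RingEquiv.refl ℂ) := rfl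
    obtain ⟨a, -, ha⟩ := T.act m₀ hm₀b (RingEquiv.refl ℂ) hfix
    obtain ⟨b', L', om', mu, -, hact⟩ := ha b L om hL
    exact (T.zeta (2 * p) m₀ a (RingEquiv.refl ℂ) b L L' om mu hm₀b hfix h2p0 (idl_le h2p) hL hact
      ζ hζ.pow_eq_one).1
  -- the fields
  have hkfd : FiniteDimensional ℚ (kk A B) :=
    FiniteDimensional.of_injective (IntermediateField.inclusion hk).toLinearMap
      (IntermediateField.inclusion hk).injective
  set E₀ : IntermediateField (kk A B) ℂ := IntermediateField.extendScalars hk with hE₀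
  have hE₀m : E₀ ≤ RFE m₀ := fun x hx => hKf x hx
  set Z : IntermediateField (kk A B) ℂ := IntermediateField.adjoin (kk A B) {ζ} with hZ
  have hZm : Z ≤ RFE m₀ := by
    rw [hZ, IntermediateField.adjoin_le_iff]
    intro x hx
    rw [Set.mem_singleton_iff] at hx
    rw [hx]
    exact hζm
  set K₁ : IntermediateField (kk A B) ℂ := E₀ ⊔ Z with hK₁
  have hK₁m : K₁ ≤ RFE m₀ := sup_le hE₀m hZm
  set KK : IntermediateField (kk A B) ℂ := K₁ ⊔ RFE (⊤ : Ideal (OO A B)) with hKK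
  have hHm : RFE (⊤ : Ideal (OO A B)) ≤ RFE m₀ := T.mono ⊤ m₀ le_top
  have hKKm : KK ≤ RFE m₀ := sup_le hK₁m hHm
  have hζK₁ : ζ ∈ K₁ := (le_sup_right : Z ≤ K₁) (IntermediateField.mem_adjoin_simple_self _ ζ)
  have hmfd := T.fin m₀ hm₀b
  have hfdK₁ : FiniteDimensional (kk A B) K₁ :=
    FiniteDimensional.of_injective (IntermediateField.inclusion hK₁m).toLinearMap
      (IntermediateField.inclusion hK₁m).injective
  have hfdKK : FiniteDimensional (kk A B) KK :=
    FiniteDimensional.of_injective (IntermediateField.inclusion hKKm).toLinearMap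
      (IntermediateField.inclusion hKKm).injective
  set K : IntermediateField ℚ ℂ := KK.restrictScalars ℚ with hK
  have hkK : kk A B ≤ K := fun x hx => KK.algebraMap_mem ⟨x, hx⟩
  have hKK' : IntermediateField.extendScalars hkK = KK := SetLike.ext fun x => Iff.rfl
  have hk1 : kk A B ≤ K₁.restrictScalars ℚ := fun x hx => K₁.algebraMap_mem ⟨x, hx⟩
  have hK₁' : IntermediateField.extendScalars hk1 = K₁ := SetLike.ext fun x => Iff.rfl
  have hfdK : FiniteDimensional ℚ K := by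
    have : FiniteDimensional ℚ KK := FiniteDimensional.trans ℚ (kk A B) KK
    exact this
  have hK0K : K₀ ≤ K := fun x hx =>
    (le_sup_left : K₁ ≤ KK) ((le_sup_left : E₀ ≤ K₁) (show x ∈ E₀ from hx))
  obtain ⟨hgal0, -, hab0⟩ := h6 A B T m₀ hm₀b K₀ hk hKf
  obtain ⟨hgal, -, hab⟩ := h6 A B T m₀ hm₀b K hkK (fun x hx => hKKm hx)
  obtain ⟨hgal1, -, -⟩ := h6 A B T m₀ hm₀b (K₁.restrictScalars ℚ) hk1 (fun x hx => hK₁m hx)
  have hgalKK : IsGalois (kk A B) KK := by rw [← hKK']; exact hgal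
  have hgalK₁ : IsGalois (kk A B) K₁ := by rw [← hK₁']; exact hgal1
  have hζK : ζ ∈ K := (le_sup_left : K₁ ≤ KK) hζK₁
  -- the degree of `K₁`
  have hB1 : ¬ Bn 1 ≤ K := by
    intro hB
    have h8 := h4 p hp23 (Bn 1) K (hlay 1) hB ⟨ζ, hζK, hζ⟩
    have h9 := h2 p e A B P V hX KK h8
    have h10 := h3 A B V hU T K₁ KK rfl
    have h11 := h9.trans (mul_dvd_mul_left e h10)
    have hEfd : FiniteDimensional (kk A B) E₀ :=
      FiniteDimensional.of_injective (IntermediateField.inclusion hE₀m).toLinearMap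
        (IntermediateField.inclusion hE₀m).injective
    rcases hp23 with h | h
    · subst h
      -- `p = 2`
      have hd : Module.finrank (kk A B) E₀ ∣ Module.finrank (kk A B) K₁ :=
        IntermediateField.finrank_dvd_of_le_right (le_sup_left : E₀ ≤ K₁)
      have hle : Module.finrank (kk A B) K₁ ≤
          Module.finrank (kk A B) E₀ * Module.finrank (kk A B) Z :=
        IntermediateField.finrank_sup_le E₀ Z
      have hZ2 : Module.finrank (kk A B) Z ≤ 2 := by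
        have hζ2 : ζ ^ 2 = -1 := by
          have h12 : (ζ ^ 2) ^ 2 = 1 := by rw [← pow_mul]; exact hζ.pow_eq_one
          rcases sq_eq_one_iff.mp h12 with h13 | h13
          · exact absurd h13 (hζ.pow_ne_one_of_pos_of_lt (by norm_num) (by norm_num))
          · exact h13
        have hint : IsIntegral (kk A B) ζ := by
          refine ⟨Polynomial.X ^ 2 + 1, ?_, ?_⟩
          · have : (Polynomial.X ^ 2 + 1 : Polynomial (kk A B)) =
                Polynomial.X ^ 2 + Polynomial.C 1 := by simp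
            rw [this]
            exact Polynomial.monic_X_pow_add_C _ two_ne_zero
          · simp [hζ2]
        rw [hZ, IntermediateField.adjoin.finrank hint]
        have h13 : Polynomial.aeval ζ (Polynomial.X ^ 2 + 1 : Polynomial (kk A B)) = 0 := by
          simp [hζ2]
        have h14 : (Polynomial.X ^ 2 + 1 : Polynomial (kk A B)) =
            Polynomial.X ^ 2 + Polynomial.C 1 := by simp
        have h15 : (Polynomial.X ^ 2 + 1 : Polynomial (kk A B)) ≠ 0 := by
          rw [h14]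
          exact (Polynomial.monic_X_pow_add_C _ two_ne_zero).ne_zero
        refine (Polynomial.natDegree_le_of_dvd (minpoly.dvd _ _ h13) h15).trans ?_
        rw [h14, Polynomial.natDegree_X_pow_add_C]
      have he1 : e = 1 := hX.two rfl
      rw [he1, one_mul] at h11
      have h12 : 4 ∣ Module.finrank (kk A B) K₁ := by simpa [q0] using h11
      have hpos : 0 < Module.finrank (kk A B) K₁ := Module.finrank_pos
      obtain ⟨b, hb⟩ := hd
      have hposE : 0 < Module.finrank (kk A B) E₀ := Module.finrank_pos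
      have hb2 : b ≤ 2 := by
        have h16 : Module.finrank (kk A B) E₀ * b ≤ Module.finrank (kk A B) E₀ * 2 := by
          rw [← hb]
          exact hle.trans (Nat.mul_le_mul_left _ hZ2)
        exact Nat.le_of_mul_le_mul_left h16 hposE
      apply hcop
      rw [hb] at h12 hpos
      have hbpos : b ≠ 0 := by rintro rfl; simp at hpos
      have hb12 : b = 1 ∨ b = 2 := by omega
      rcases hb12 with h16 | h16
      · subst h16; omega
      · subst h16; omega
    · subst h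
      -- `p = 3`
      obtain ⟨ω, hω, hω3⟩ := hom
      have hζ3 : (-ζ) ^ 3 = 1 := by
        have h12 : (ζ ^ 3) ^ 2 = 1 := by rw [← pow_mul]; exact hζ.pow_eq_one
        have h13 : ζ ^ 3 = -1 := by
          rcases sq_eq_one_iff.mp h12 with h13 | h13
          · exact absurd h13 (hζ.pow_ne_one_of_pos_of_lt (by norm_num) (by norm_num))
          · exact h13
        rw [Odd.neg_pow (by decide), h13, neg_neg]
      obtain ⟨i, -, hi⟩ := hω3.eq_pow_of_pow_eq_one hζ3
      have hζ0 : ζ ∈ K₀ := by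
        have : ζ = -(ω ^ i) := by rw [hi, neg_neg]
        rw [this]
        exact neg_mem (pow_mem hω i)
      have hEK : K₁ = E₀ := by
        apply le_antisymm _ le_sup_left
        refine sup_le le_rfl ?_
        rw [hZ, IntermediateField.adjoin_le_iff]
        intro x hx
        rw [Set.mem_singleton_iff] at hx
        rw [hx]
        exact hζ0
      apply hcop
      rw [hEK] at h11
      have h12 : 3 ∣ q0 3 * (3 - 1) := by decide
      rcases (Nat.Prime.dvd_mul Nat.prime_three).mp (h12.trans h11) with h13 | h13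
      · rcases hX.ee with h14 | h14
        · rw [h14] at h13; exact absurd h13 (by decide)
        · rw [h14] at h13; exact absurd h13 (by decide)
      · exact h13
  have hB10 : ¬ Bn 1 ≤ K₀ := fun h => hB1 (h.trans hK0K)
  refine ⟨K, hfdK, f, ?_, hf0, hfp, hfd, ?_, ?_⟩
  · exact
      { b0 := ⟨hk, hgal0, hab0, h5 p K₀ Bn hlay hmono hB10, hlay, hmono⟩
        b := ⟨hkK, hgal, hab, h5 p K Bn hlay hmono hB1, hlay, hmono⟩
        le := hK0K
        cop := hcop
        om := hom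
        ze := ⟨ζ, hζK, hζ⟩ }
  · exact fun y hy => hKKm hy
  · exact fun y hy => (le_sup_right : RFE (⊤ : Ideal (OO A B)) ≤ KK) hy

end Pool.Agent.MUXJ


end
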