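import Mathlib
import Pool.Agent.MVF.C110
import Pool.Agent.MVF.C117

/-! Parts: MUX.J_FING, MUX.J_SETG, MUX.J_LEVG, MUX.J_RAMG, MUX.JGAll -/

namespace Pool.Agent.MUXJ.JRAMG
end Pool.Agent.MUXJ.JRAMG

section

/-!
# MUX, block J, module FING: the main theorem for all fields, from the inputs, for any prime above `p`
-/

set_option autoImplicit false

open NumberField IsDedekindDomain
open scoped nonZeroDivisors Pointwise

namespace Pool.Agent.MUXJ

open _root_.MU3 _root_.Pool.Agent.MU3 _root_.Pool.Agent.MU3A _root_.Pool.Agent.MU3B _root_.Pool.Agent.RI _root_.Pool.Agent.RID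
  _root_.Pool.Agent.MUX _root_.Pool.Agent.MUXK _root_.Pool.Agent.MUXE

noncomputable section

namespace JFing

/-- the case of a field `K₀` of degree prime to `p` over `k` with the `p`-th roots of unity -/
theorem cop (hRES : Sj_RES) (hSET : Sj_SETG) (hMAIN : S_MAINKX) (p e d : ℕ) [Fact p.Prime]
    (A B : ℤ) (P : Ideal (OO A B)) (V : ValuationSubring ℂ) (hc : AboX p e A B P V) (hd : d ≠ 0)
    (hpd : ¬ p ∣ d) (h2d : p = 3 → 2 ∣ d) (hU : UnrH A B V) (hT : TorX A B)
    (hN : NLex A B) (hI : InpG p d A B V) (K₀ : IntermediateField ℚ ℂ) [FiniteDimensional ℚ K₀]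
    (hk : kk A B ≤ K₀) (hcop : ¬ p ∣ Module.finrank (kk A B) (IntermediateField.extendScalars hk))
    (hTU : TorU A B K₀) (hω : ∃ ω ∈ K₀, IsPrimitiveRoot ω p)
    (Bn : ℕ → IntermediateField ℚ ℂ) (hlay : ∀ n, IsLayer p n (Bn n)) (hmono : Monotone Bn) :
    ∃ C : ℕ, ∀ n, padicValNat p (classNo (K₀ ⊔ Bn n)) ≤ C * (n + 1) ^ 2 := by
  obtain ⟨K, hKfd, f, hSX, hf0, hpf, hdf, hKR, hHK⟩ :=
    hSET p e d A B P V hc hd hpd h2d hU hT hN K₀ hk hcop hTU hω Bn hlay hmono
  have hfk : FiniteDimensional ℚ (kk A B) :=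
    Module.Finite.of_injective (IntermediateField.inclusion hk).toLinearMap
      (IntermediateField.inclusion hk).injective
  have hfB : ∀ n, FiniteDimensional ℚ ↥(K ⊔ Bn n) := fun n => by
    obtain ⟨h1, -, -⟩ := LAY_thm p n (Bn n) (hlay n)
    exact IntermediateField.finiteDimensional_sup K (Bn n)
  have hkn : ∀ n, kk A B ≤ K ⊔ Bn n := fun n => (hk.trans hSX.le).trans le_sup_left
  have hk₀n : ∀ n, kk A B ≤ K₀ ⊔ Bn n := fun n => hk.trans le_sup_left
  obtain ⟨S, c, c₀, n₁, hInp⟩ := hI f hf0 hpf hdf K₀ K Bn hSX hKR hHK hkn hk₀n hk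
  obtain ⟨hchar, halg⟩ := hRES p V hc.hp
  exact hMAIN (IsLocalRing.ResidueField V) p (kk A B) K₀ K Bn hSX hkn hk₀n hk S c c₀ n₁ hInp

end JFing

open _root_.Pool.Agent.MUXJ.JFin (idl_ne_bot) in
theorem t_FING (h1 : Sj_RES) (h2 : Sj_LAY) (h3 : Sj_DIR) (h4 : Sj_GAL) (h5 : Sj_SETG)
    (h6 : Sj_UP) (h7 : Sj_SUB) (h8 : Sj_OMGG) (h9 : Sj_FLD) (h10 : S_MAINKX) (h11 : P_SYL)
    (h12 : P_PEX) : Sj_FING := by
  intro p e d A B P V hc hd hpd h2d hU hT hN hI F M K _ hkF hFM a hTU hgal hdeg hKM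
  have hpp : p = 2 ∨ p = 3 := hc.pp
  have hp : Fact p.Prime := by
    rcases hpp with rfl | rfl
    · exact ⟨Nat.prime_two⟩
    · exact ⟨Nat.prime_three⟩
  have hfF : FiniteDimensional ℚ F :=
    Module.Finite.of_injective (IntermediateField.inclusion hFM).toLinearMap
      (IntermediateField.inclusion hFM).injective
  obtain ⟨-, hTot⟩ := h9 A B hc.cq
  obtain ⟨Bn, hlay, hmono, huniq⟩ := h2 p hpp
  obtain ⟨M₀, hM₀, hFR⟩ := h3 A B hc.cq hT F hTU
  obtain ⟨hgF, -, hab⟩ := h4 A B hT (idl M₀) (idl_ne_bot hM₀) F hkF hFR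
  obtain ⟨F₀, hk₀, h₂, -, hn1, hg2, b, hb⟩ := h11 p (kk A B) F hkF hgF hab
  have hfF₀ : FiniteDimensional ℚ F₀ :=
    Module.Finite.of_injective (IntermediateField.inclusion h₂).toLinearMap
      (IntermediateField.inclusion h₂).injective
  have hTU₀ : TorU A B F₀ := fun x hx => hTU x (h₂ hx)
  obtain ⟨F₁, hFF, hf1, hTU₁, hω, hgF₁, hnFF, hnF1⟩ :=
    h8 p A B hc.cq hpp hT hN F₀ hk₀ hTU₀ hn1
  obtain ⟨C, hC⟩ := JFing.cop h1 h5 h10 p e d A B P V hc hd hpd h2d hU hT hN hI F₁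
    (hk₀.trans hFF) hnF1 hTU₁ hω Bn hlay hmono
  have hC0 : ∀ n, padicValNat p (classNo (F₀ ⊔ Bn n)) ≤ C * (n + 1) ^ 2 := fun n =>
    (h6 p F₀ F₁ (Bn n) n hFF (hlay n) hgF₁ hnFF).trans (hC n)
  have hE := h12 p b F₀ F Bn h₂ hg2 hb (hTot F₀ hk₀) hlay hmono ⟨C, 2, hC0⟩
  obtain ⟨C', j, hC'⟩ := h12 p a F M Bn hFM hgal hdeg (hTot F hkF) hlay hmono hE
  obtain ⟨C₁, hC₁⟩ := h7 p K M hKM
  refine ⟨C' + C₁ + j, fun n Q hQ => ?_⟩
  have e1 := hC₁ n Q hQ
  rw [huniq n Q hQ] at e1 ⊢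
  have e2 := hC' n
  have e3 : (n + 1) ^ j ≤ (n + 1) ^ (C' + C₁ + j) :=
    Nat.pow_le_pow_right (Nat.succ_pos n) (Nat.le_add_left _ _)
  have e4 : 1 ≤ (n + 1) ^ (C' + C₁ + j) := Nat.one_le_pow _ _ (Nat.succ_pos n)
  calc padicValNat p (classNo (K ⊔ Bn n)) ≤ padicValNat p (classNo (M ⊔ Bn n)) + C₁ := e1
    _ ≤ C' * (n + 1) ^ j + C₁ := by omega
    _ ≤ C' * (n + 1) ^ (C' + C₁ + j) + C₁ * (n + 1) ^ (C' + C₁ + j) :=
        add_le_add (Nat.mul_le_mul_left _ e3) (Nat.le_mul_of_pos_right _ e4)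
    _ = (C' + C₁) * (n + 1) ^ (C' + C₁ + j) := by rw [add_mul]
    _ ≤ (C' + C₁ + j) * (n + 1) ^ (C' + C₁ + j) :=
        Nat.mul_le_mul_right _ (Nat.le_add_right _ _)

end

end Pool.Agent.MUXJ


end

section

/-!
# MUX, block J, module SETG: the large field `K`, any prime above `p`
-/

set_option autoImplicit false

open NumberField IsDedekindDomain
open scoped nonZeroDivisors Pointwise

namespace Pool.Agent.MUXJ

open _root_.MU3 _root_.Pool.Agent.MU3 _root_.Pool.Agent.MU3A _root_.Pool.Agent.MU3B _root_.Pool.Agent.RI _root_.Pool.Agent.RID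
  _root_.Pool.Agent.MUX _root_.Pool.Agent.MUXK _root_.Pool.Agent.MUXE

open _root_.Pool.Agent.MUXJ.JSET in
/-- JSETG. -/
theorem t_SETG (h1 : Sj_DIR) (h2 : Sj_RAMG) (h3 : Sj_INJ) (h4 : Sj_ROT) (h5 : Sj_LDX) (h6 : Sj_GAL)
    (h7 : Sj_LEVG) : Sj_SETG := by
  intro p e d A B P V hX hd0 hpd hd2 hU T hNL K₀ _ hk hcop hTor hom Bn hlay hmono
  have hp23 : p = 2 ∨ p = 3 := hX.pp
  have hp : p.Prime := by
    rcases hp23 with h | h
    · rw [h]; exact Nat.prime_two
    · rw [h]; exact Nat.prime_three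
  have : Fact p.Prime := ⟨hp⟩
  obtain ⟨M, hM, hKM⟩ := h1 A B hX.cq T K₀ hTor
  obtain ⟨f, hf0, hfp, hfd, hKf⟩ :=
    h7 p d A B hX.cq hp23 hd0 hpd T hNL K₀ hk hcop M hM hKM
  have hlv0 : lvX p f 0 ≠ 0 := by
    unfold lvX q0
    refine mul_ne_zero (mul_ne_zero hf0 ?_) (pow_ne_zero _ hp.ne_zero)
    split_ifs
    · norm_num
    · exact hp.ne_zero
  set m₀ : Ideal (OO A B) := idl (lvX p f 0) with hm₀
  have hm₀b : m₀ ≠ ⊥ := idl_ne _ hlv0
  have h2p : 2 * p ∣ lvX p f 0 := by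
    unfold lvX q0
    rcases hp23 with h | h
    · subst h
      simp
    · subst h
      have h9 : 2 ∣ f := (hd2 rfl).trans hfd
      obtain ⟨c, rfl⟩ := h9
      exact ⟨c, by simp; ring⟩
  have h2p0 : 2 * p ≠ 0 := mul_ne_zero two_ne_zero hp.ne_zero
  -- the root of unity
  obtain ⟨ζ, hζ⟩ : ∃ ζ : ℂ, IsPrimitiveRoot ζ (2 * p) := ⟨_, Complex.isPrimitiveRoot_exp _ h2p0⟩
  have hζm : ζ ∈ RF m₀ := by
    obtain ⟨b, L, om, hL⟩ := hNL
    have hfix : FixK A B (RingEquiv.refl ℂ) := rfl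
    obtain ⟨a, -, ha⟩ := T.act m₀ hm₀b (RingEquiv.refl ℂ) hfix
    obtain ⟨b', L', om', mu, -, hact⟩ := ha b L om hL
    exact (T.zeta (2 * p) m₀ a (RingEquiv.refl ℂ) b L L' om mu hm₀b hfix h2p0 (idl_le h2p) hL hact
      ζ hζ.pow_eq_one).1
  -- the fields
  have hkfd : FiniteDimensional ℚ (kk A B) :=
    FiniteDimensional.of_injective (IntermediateField.inclusion hk).toLinearMap
      (IntermediateField.inclusion hk).injective
  set E₀ : IntermediateField (kk A B) ℂ := IntermediateField.extendScalars hk with hE₀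
  have hE₀m : E₀ ≤ RF m₀ := fun x hx => hKf x hx
  set Z : IntermediateField (kk A B) ℂ := IntermediateField.adjoin (kk A B) {ζ} with hZ
  have hZm : Z ≤ RF m₀ := by
    rw [hZ, IntermediateField.adjoin_le_iff]
    intro x hx
    rw [Set.mem_singleton_iff] at hx
    rw [hx]
    exact hζm
  set K₁ : IntermediateField (kk A B) ℂ := E₀ ⊔ Z with hK₁
  have hK₁m : K₁ ≤ RF m₀ := sup_le hE₀m hZm
  set KK : IntermediateField (kk A B) ℂ := K₁ ⊔ RF (⊤ : Ideal (OO A B)) with hKK
  have hHm : RF (⊤ : Ideal (OO A B)) ≤ RF m₀ := T.mono ⊤ m₀ le_top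
  have hKKm : KK ≤ RF m₀ := sup_le hK₁m hHm
  have hζK₁ : ζ ∈ K₁ := (le_sup_right : Z ≤ K₁) (IntermediateField.mem_adjoin_simple_self _ ζ)
  have hmfd := T.fin m₀ hm₀b
  have hfdK₁ : FiniteDimensional (kk A B) K₁ :=
    FiniteDimensional.of_injective (IntermediateField.inclusion hK₁m).toLinearMap
      (IntermediateField.inclusion hK₁m).injective
  have hfdKK : FiniteDimensional (kk A B) KK :=
    FiniteDimensional.of_injective (IntermediateField.inclusion hKKm).toLinearMap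
      (IntermediateField.inclusion hKKm).injective
  set K : IntermediateField ℚ ℂ := KK.restrictScalars ℚ with hK
  have hkK : kk A B ≤ K := fun x hx => KK.algebraMap_mem ⟨x, hx⟩
  have hKK' : IntermediateField.extendScalars hkK = KK := SetLike.ext fun x => Iff.rfl
  have hk1 : kk A B ≤ K₁.restrictScalars ℚ := fun x hx => K₁.algebraMap_mem ⟨x, hx⟩
  have hK₁' : IntermediateField.extendScalars hk1 = K₁ := SetLike.ext fun x => Iff.rfl
  have hfdK : FiniteDimensional ℚ K := by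
    have : FiniteDimensional ℚ KK := FiniteDimensional.trans ℚ (kk A B) KK
    exact this
  have hK0K : K₀ ≤ K := fun x hx =>
    (le_sup_left : K₁ ≤ KK) ((le_sup_left : E₀ ≤ K₁) (show x ∈ E₀ from hx))
  obtain ⟨hgal0, -, hab0⟩ := h6 A B T m₀ hm₀b K₀ hk hKf
  obtain ⟨hgal, -, hab⟩ := h6 A B T m₀ hm₀b K hkK (fun x hx => hKKm hx)
  obtain ⟨hgal1, -, -⟩ := h6 A B T m₀ hm₀b (K₁.restrictScalars ℚ) hk1 (fun x hx => hK₁m hx)
  have hgalKK : IsGalois (kk A B) KK := by rw [← hKK']; exact hgal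
  have hgalK₁ : IsGalois (kk A B) K₁ := by rw [← hK₁']; exact hgal1
  have hζK : ζ ∈ K := (le_sup_left : K₁ ≤ KK) hζK₁
  -- the degree of `K₁`
  have hB1 : ¬ Bn 1 ≤ K := by
    intro hB
    have h8 := h4 p hp23 (Bn 1) K (hlay 1) hB ⟨ζ, hζK, hζ⟩
    have h9 := h2 p e A B P V hX KK h8
    have h10 := h3 A B V hU T K₁ KK rfl
    have h11 := h9.trans (mul_dvd_mul_left e h10)
    have hEfd : FiniteDimensional (kk A B) E₀ :=
      FiniteDimensional.of_injective (IntermediateField.inclusion hE₀m).toLinearMap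
        (IntermediateField.inclusion hE₀m).injective
    rcases hp23 with h | h
    · subst h
      -- `p = 2`
      have hd : Module.finrank (kk A B) E₀ ∣ Module.finrank (kk A B) K₁ :=
        IntermediateField.finrank_dvd_of_le_right (le_sup_left : E₀ ≤ K₁)
      have hle : Module.finrank (kk A B) K₁ ≤
          Module.finrank (kk A B) E₀ * Module.finrank (kk A B) Z :=
        IntermediateField.finrank_sup_le E₀ Z
      have hZ2 : Module.finrank (kk A B) Z ≤ 2 := by
        have hζ2 : ζ ^ 2 = -1 := by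
          have h12 : (ζ ^ 2) ^ 2 = 1 := by rw [← pow_mul]; exact hζ.pow_eq_one
          rcases sq_eq_one_iff.mp h12 with h13 | h13
          · exact absurd h13 (hζ.pow_ne_one_of_pos_of_lt (by norm_num) (by norm_num))
          · exact h13
        have hint : IsIntegral (kk A B) ζ := by
          refine ⟨Polynomial.X ^ 2 + 1, ?_, ?_⟩
          · have : (Polynomial.X ^ 2 + 1 : Polynomial (kk A B)) =
                Polynomial.X ^ 2 + Polynomial.C 1 := by simp
            rw [this]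
            exact Polynomial.monic_X_pow_add_C _ two_ne_zero
          · simp [hζ2]
        rw [hZ, IntermediateField.adjoin.finrank hint]
        have h13 : Polynomial.aeval ζ (Polynomial.X ^ 2 + 1 : Polynomial (kk A B)) = 0 := by
          simp [hζ2]
        have h14 : (Polynomial.X ^ 2 + 1 : Polynomial (kk A B)) =
            Polynomial.X ^ 2 + Polynomial.C 1 := by simp
        have h15 : (Polynomial.X ^ 2 + 1 : Polynomial (kk A B)) ≠ 0 := by
          rw [h14]
          exact (Polynomial.monic_X_pow_add_C _ two_ne_zero).ne_zero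
        refine (Polynomial.natDegree_le_of_dvd (minpoly.dvd _ _ h13) h15).trans ?_
        rw [h14, Polynomial.natDegree_X_pow_add_C]
      have he1 : e = 1 := hX.two rfl
      rw [he1, one_mul] at h11
      have h12 : 4 ∣ Module.finrank (kk A B) K₁ := by simpa [q0] using h11
      have hpos : 0 < Module.finrank (kk A B) K₁ := Module.finrank_pos
      obtain ⟨b, hb⟩ := hd
      have hposE : 0 < Module.finrank (kk A B) E₀ := Module.finrank_pos
      have hb2 : b ≤ 2 := by
        have h16 : Module.finrank (kk A B) E₀ * b ≤ Module.finrank (kk A B) E₀ * 2 := by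
          rw [← hb]
          exact hle.trans (Nat.mul_le_mul_left _ hZ2)
        exact Nat.le_of_mul_le_mul_left h16 hposE
      apply hcop
      rw [hb] at h12 hpos
      have hbpos : b ≠ 0 := by rintro rfl; simp at hpos
      have hb12 : b = 1 ∨ b = 2 := by omega
      rcases hb12 with h16 | h16
      · subst h16; omega
      · subst h16; omega
    · subst h
      -- `p = 3`
      obtain ⟨ω, hω, hω3⟩ := hom
      have hζ3 : (-ζ) ^ 3 = 1 := by
        have h12 : (ζ ^ 3) ^ 2 = 1 := by rw [← pow_mul]; exact hζ.pow_eq_one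
        have h13 : ζ ^ 3 = -1 := by
          rcases sq_eq_one_iff.mp h12 with h13 | h13
          · exact absurd h13 (hζ.pow_ne_one_of_pos_of_lt (by norm_num) (by norm_num))
          · exact h13
        rw [Odd.neg_pow (by decide), h13, neg_neg]
      obtain ⟨i, -, hi⟩ := hω3.eq_pow_of_pow_eq_one hζ3
      have hζ0 : ζ ∈ K₀ := by
        have : ζ = -(ω ^ i) := by rw [hi, neg_neg]
        rw [this]
        exact neg_mem (pow_mem hω i)
      have hEK : K₁ = E₀ := by
        apply le_antisymm _ le_sup_left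
        refine sup_le le_rfl ?_
        rw [hZ, IntermediateField.adjoin_le_iff]
        intro x hx
        rw [Set.mem_singleton_iff] at hx
        rw [hx]
        exact hζ0
      apply hcop
      rw [hEK] at h11
      have h12 : 3 ∣ q0 3 * (3 - 1) := by decide
      rcases (Nat.Prime.dvd_mul Nat.prime_three).mp (h12.trans h11) with h13 | h13
      · rcases hX.ee with h14 | h14
        · rw [h14] at h13; exact absurd h13 (by decide)
        · rw [h14] at h13; exact absurd h13 (by decide)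
      · exact h13
  have hB10 : ¬ Bn 1 ≤ K₀ := fun h => hB1 (h.trans hK0K)
  refine ⟨K, hfdK, f, ?_, hf0, hfp, hfd, ?_, ?_⟩
  · exact
      { b0 := ⟨hk, hgal0, hab0, h5 p K₀ Bn hlay hmono hB10, hlay, hmono⟩
        b := ⟨hkK, hgal, hab, h5 p K Bn hlay hmono hB1, hlay, hmono⟩
        le := hK0K
        cop := hcop
        om := hom
        ze := ⟨ζ, hζK, hζ⟩ }
  · exact fun y hy => hKKm hy
  · exact fun y hy => (le_sup_right : RF (⊤ : Ideal (OO A B)) ≤ KK) hy

end Pool.Agent.MUXJ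


end

section

/-!
# MUX, block J, module LEVG: a field of degree prime to `p` over `k` has a level `f q0`, `d ∣ f` (helper92)

The proof of `J_LEV.lean` with `f = d M'`.
-/

set_option autoImplicit false

namespace Pool.Agent.MUXJ

open _root_.MU3 _root_.Pool.Agent.MU3 _root_.Pool.Agent.MU3A _root_.Pool.Agent.MU3B _root_.Pool.Agent.RI _root_.Pool.Agent.RID
  _root_.Pool.Agent.MUX _root_.Pool.Agent.MUXK _root_.Pool.Agent.MUXE

noncomputable section

open _root_.Pool.Agent.MUXJ.LEV in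
/-- a field of degree prime to `p` over `k` is contained in a ray class field of level `f q0` -/
theorem t_LEVG : Sj_LEVG := by
  intro p d A B hC hp23 hd0 hdp T hN K _ hk hKp M hM0 hM
  have hp : p.Prime := by
    rcases hp23 with h | h
    · rw [h]; exact Nat.prime_two
    · rw [h]; exact Nat.prime_three
  obtain ⟨j, M', hM', hMj⟩ := Nat.exists_eq_pow_mul_and_not_dvd hM0 p hp.ne_one
  have hM'0 : M' ≠ 0 := by
    rintro rfl
    exact hM' (dvd_zero p)
  set f : ℕ := d * M' with hf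
  have hf0 : f ≠ 0 := mul_ne_zero hd0 hM'0
  have hfp : ¬ p ∣ f := by
    rw [hf, hp.dvd_mul]
    push Not
    exact ⟨hdp, hM'⟩
  have hq0 : q0 p ≠ 0 := by
    unfold q0
    split_ifs with h2
    · norm_num
    · exact hp.ne_zero
  have hpq0 : p ∣ q0 p := by
    unfold q0
    split_ifs with h2
    · rw [h2]; norm_num
    · exact dvd_rfl
  refine ⟨f, hf0, hfp, Dvd.intro _ rfl, ?_⟩
  -- the two levels
  set m1 : Ideal (OO A B) := idl (lvX p f j) with hm1
  set m0 : Ideal (OO A B) := idl (lvX p f 0) with hm0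
  have hm1' : m1 ≠ ⊥ := idl_ne (mul_ne_zero (mul_ne_zero hf0 hq0) (pow_ne_zero _ hp.ne_zero))
  have hm0' : m0 ≠ ⊥ := idl_ne (mul_ne_zero (mul_ne_zero hf0 hq0) (pow_ne_zero _ hp.ne_zero))
  have h01 : m1 ≤ m0 := idl_le (mul_dvd_mul_left _ (pow_dvd_pow p (Nat.zero_le j)))
  have hMm : m1 ≤ idl M := idl_le (by
    rw [hMj]
    exact ⟨d * q0 p, by unfold lvX; rw [hf]; ring⟩)
  have hK1 : ∀ x ∈ K, x ∈ RF m1 := fun x hx => T.mono _ _ hMm (hM x hx)
  have hfin := T.fin m1 hm1'
  have hgal := T.gal m1 hm1'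
  have h01' : RF m0 ≤ RF m1 := T.mono _ _ h01
  let K' : IntermediateField (kk A B) ℂ := IntermediateField.extendScalars hk
  have hK' : K' ≤ RF m1 := fun x hx => hK1 x hx
  let E : IntermediateField (kk A B) (RF m1) := IntermediateField.restrict hK'
  let F0 : IntermediateField (kk A B) (RF m1) := IntermediateField.restrict h01'
  have hcomm := T.comm m1 hm1'
  have hnorm : E.fixingSubgroup.Normal := by
    constructor
    intro n hn g
    rw [hcomm g n, mul_assoc, mul_inv_cancel, mul_one]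
    exact hn
  have hidx : ¬ p ∣ E.fixingSubgroup.index := by
    rw [← IntermediateField.finrank_eq_fixingSubgroup_index,
      ← (IntermediateField.restrictAlgEquiv hK').toLinearEquiv.finrank_eq]
    exact hKp
  -- elements which are trivial on `RF m0`
  have hkey : F0.fixingSubgroup ≤ E.fixingSubgroup := by
    intro σ hσ
    rw [IntermediateField.mem_fixingSubgroup_iff] at hσ
    obtain ⟨s, hs, hsσ⟩ := lift T hm1' σ
    obtain ⟨a, hac, ha⟩ := T.act m1 hm1' s hs
    obtain ⟨b, L, om, hL⟩ := hN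
    obtain ⟨b', L', om', mu, hL', hact⟩ := ha b L om hL
    have htr0 : ∀ y ∈ RF m0, s y = y := by
      intro y hy
      have h1 := hsσ ⟨y, h01' hy⟩
      have h2 := hσ ⟨y, h01' hy⟩ ((IntermediateField.mem_restrict h01' _).2 hy)
      rw [h2] at h1
      exact h1
    obtain ⟨x, hx, hax⟩ := (T.triv m0 a s b L L' om mu hm0' hs hL (act_mono h01 hact) hL'.nrm).1 htr0
    -- powers
    have hpow : ∀ n : ℕ, ∃ t : ℂ ≃+* ℂ, FixK A B t ∧
        (∀ y : RF m1, t (y : ℂ) = ((σ ^ (n + 1)) y : ℂ)) ∧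
        ∃ (b' : Ideal (OO A B)) (L' : PeriodPair) (om' mu : ℂ), IsNL b' L' om' ∧
          ActI t m1 (a ^ (n + 1)) L L' mu := by
      intro n
      induction n with
      | zero =>
        refine ⟨s, hs, fun y => ?_, b', L', om', mu, hL', ?_⟩
        · rw [zero_add, pow_one]; exact hsσ y
        · rw [zero_add, pow_one]; exact hact
      | succ n ih =>
        obtain ⟨t, ht, ht1, b₁, L₁, om₁, mu₁, hL₁, hact₁⟩ := ih
        obtain ⟨b₂, L₂, om₂, mu₂, hL₂, hact₂⟩ := ha b₁ L₁ om₁ hL₁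
        refine ⟨t.trans s, ?_, fun y => ?_, b₂, L₂, om₂, mu₂ * mu₁, hL₂, ?_⟩
        · show s (t (wC A B)) = wC A B
          rw [show t (wC A B) = wC A B from ht]
          exact hs
        · show s (t (y : ℂ)) = _
          rw [ht1 y, hsσ, pow_succ' σ (n + 1)]
          rfl
        · rw [pow_succ a (n + 1)]
          exact T.comp m1 _ a t s L L₁ L₂ mu₁ mu₂ hact₁ hact₂
    have hpj : 0 < p ^ j := pow_pos hp.pos j
    obtain ⟨t, ht, ht1, b₁, L₁, om₁, mu₁, hL₁, hact₁⟩ := hpow (p ^ j - 1)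
    rw [Nat.sub_add_cancel hpj] at ht1 hact₁
    have h3 : x ^ p ^ j - 1 ∈ m1 := by
      have h4 : ((f * q0 p : ℕ) : OO A B) ∣ x - 1 := by
        have h5 := Ideal.mem_span_singleton.1 hx
        simpa [lvX] using h5
      have h5 : ((p : ℕ) : OO A B) ∣ ((f * q0 p : ℕ) : OO A B) :=
        Nat.cast_dvd_cast (hpq0.mul_left f)
      have h6 := pow_dvd p _ x h5 h4 j
      rw [hm1, Ideal.mem_span_singleton]
      unfold lvX
      push_cast at h6 ⊢
      exact h6
    have h4 : σ ^ p ^ j = 1 := by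
      have h5 := (T.triv m1 _ t b L L₁ om mu₁ hm1' ht hL hact₁ hL₁.nrm).2
        ⟨x ^ p ^ j, h3, by rw [hax, Ideal.span_singleton_pow]⟩
      refine AlgEquiv.ext fun y => Subtype.ext ?_
      rw [← ht1 y, h5 y y.2]
      rfl
    have h5 : σ ^ E.fixingSubgroup.index ∈ E.fixingSubgroup := Subgroup.pow_index_mem _ σ
    refine mem_of_pow_mem _ (m := p ^ j) (by rw [h4]; exact one_mem _) h5 ?_
    exact Nat.Coprime.pow_left j ((Nat.Prime.coprime_iff_not_dvd hp).2 hidx)
  have hEF : E ≤ F0 := by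
    rw [← IsGalois.fixedField_fixingSubgroup F0, IntermediateField.le_iff_le]
    exact hkey
  intro x hx
  have h1 : (⟨x, hK1 x hx⟩ : RF m1) ∈ F0 :=
    hEF ((IntermediateField.mem_restrict hK' _).2 hx)
  exact (IntermediateField.mem_restrict h01' _).1 h1

end

end Pool.Agent.MUXJ


end

section

/-!
# MUX, block J, module RAMG (helper95): the order of the inertia group of a field with many roots of unity, any prime
above `p`. After `J_RAM.lean` (helper48).
-/

set_option autoImplicit false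

open NumberField IsDedekindDomain
open scoped nonZeroDivisors Pointwise

namespace Pool.Agent.MUXJ

open _root_.MU3 _root_.Pool.Agent.MU3 _root_.Pool.Agent.MU3A _root_.Pool.Agent.MU3B _root_.Pool.Agent.RI _root_.Pool.Agent.RID
  _root_.Pool.Agent.MUX _root_.Pool.Agent.MUXK _root_.Pool.Agent.MUXE

noncomputable section

namespace JRAMG

open Ideal _root_.Pool.Agent.MU3E.RAM _root_.Pool.Agent.MUXE.RamE _root_.Pool.Agent.MUXJ.JRAM

section galois

variable {V : ValuationSubring ℂ} {k F : Type} [Field k] [NumberField k] [Field F] [NumberField F]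
  [Algebra k F] [IsGalois k F] (io : F →+* ℂ)

/-- the value above of an element below -/
theorem val_cardG {w : HeightOneSpectrum (𝓞 F)}
    (hw : ∀ x : 𝓞 F, x ∈ w.asIdeal ↔ V.valuation (io x) < 1)
    (v : HeightOneSpectrum (𝓞 k)) (hv : v.asIdeal = w.asIdeal.under (𝓞 k)) (q : 𝓞 k) :
    w.valuation F (algebraMap k F q) = v.intValuation q ^
      Nat.card {σ : F ≃ₐ[k] F // ∀ x : F, V.valuation (io x) ≤ 1 →
        V.valuation (io (σ x) - io x) < 1} := by
  have hlo' : w.asIdeal.LiesOver v.asIdeal := ⟨hv⟩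
  have hwp : w.asIdeal.IsPrime := w.isPrime
  have hpp : v.asIdeal.IsPrime := v.isPrime
  have hp0 : v.asIdeal ≠ ⊥ := v.ne_bot
  have hfin : Finite (𝓞 k ⧸ v.asIdeal) := Ideal.finiteQuotientOfFreeOfNeBot v.asIdeal hp0
  have hmax : v.asIdeal.IsMaximal := hpp.isMaximal hp0
  have hfr : Finite v.asIdeal.ResidueField :=
    Finite.of_surjective (algebraMap (𝓞 k ⧸ v.asIdeal) v.asIdeal.ResidueField)
      (Ideal.bijective_algebraMap_quotient_residueField v.asIdeal).2
  have h1 := Ideal.card_inertia_eq_ramificationIdxIn (G := F ≃ₐ[k] F) v.asIdeal w.asIdeal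
  have hcard : Nat.card {σ : F ≃ₐ[k] F // ∀ x : F, V.valuation (io x) ≤ 1 →
        V.valuation (io (σ x) - io x) < 1} = Nat.card (w.asIdeal.inertia (F ≃ₐ[k] F)) :=
    Nat.card_congr (Equiv.subtypeEquivRight fun σ => (mem_inertia io hw σ).symm)
  rw [Ideal.ramificationIdxIn_eq_ramificationIdx v.asIdeal w.asIdeal (F ≃ₐ[k] F)] at h1
  have h2 : v.asIdeal.ramificationIdx' w.asIdeal = Nat.card (w.asIdeal.inertia (F ≃ₐ[k] F)) := by
    rw [Ideal.ramificationIdx'_eq_ramificationIdx' v.asIdeal w.asIdeal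
      (Ideal.map_ne_bot_of_ne_bot hp0), ← h1]
  have h3 := HeightOneSpectrum.valuation_liesOver (K := k) F v w (algebraMap (𝓞 k) k q)
  rw [h2, HeightOneSpectrum.valuation_of_algebraMap] at h3
  rw [hcard]
  exact h3.symm

end galois

theorem eq_top_of_card {A B : ℤ} {b : Ideal (OO A B)} (h : nI b = 1) : b = ⊤ := by
  unfold nI at h
  rw [Nat.card_eq_one_iff_unique] at h
  have := h.1
  rwa [← Ideal.Quotient.subsingleton_iff]

/-- `p` is not in the cube of a prime ideal -/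
theorem not_cube {A B : ℤ} (hq : CQ A B) (hD : IsDedekindDomain (OO A B)) {p : ℕ} (hp : p.Prime)
    (P : Ideal (OO A B)) (hP : P.IsPrime) (hmem : ((p : ℕ) : OO A B) ∈ P) :
    ((p : ℕ) : OO A B) ∉ P ^ 3 := by
  intro h
  have hp0 : ((p : ℕ) : OO A B) ≠ 0 := natCast_ne_zero' hq hp.ne_zero
  have hP0 : P ≠ ⊥ := by
    rintro rfl
    exact hp0 (by simpa using hmem)
  obtain ⟨J, hJ⟩ := Ideal.dvd_span_singleton.2 h
  have hsp : (Ideal.span {((p : ℕ) : OO A B)} : Ideal (OO A B)) ≠ ⊥ := by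
    rw [Ne, Ideal.span_singleton_eq_bot]
    exact hp0
  have hJ0 : J ≠ ⊥ := by
    rintro rfl
    rw [Ideal.mul_bot] at hJ
    exact hsp hJ
  have h2 := mul_ne_bot hq hP0 hP0
  have h3 := mul_ne_bot hq h2 hP0
  have e3 : P ^ 3 = P * P * P := by rw [pow_succ, pow_two]
  have hn : nI (sp ((p : ℕ) : OO A B)) = nI P * nI P * nI P * nI J := by
    show nI (Ideal.span {((p : ℕ) : OO A B)}) = _
    rw [hJ, e3, nI_mul hq h3 hJ0, nI_mul hq h2 hP0, nI_mul hq hP0 hP0]
  have hnm : nI (sp ((p : ℕ) : OO A B)) = p ^ 2 := by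
    rw [nI_sp hq hp0]
    have e4 : nm ((p : ℕ) : OO A B) = ((p ^ 2 : ℕ) : ℤ) := by
      have := nm_intCast (A := A) (B := B) (p : ℤ)
      push_cast at this ⊢
      exact this
    rw [e4]
    exact Int.natAbs_natCast _
  rw [hnm] at hn
  have hdvd : nI P ∣ p ^ 2 := ⟨nI P * nI P * nI J, by rw [hn]; ring⟩
  obtain ⟨i, hi, hie⟩ := (Nat.dvd_prime_pow hp).1 hdvd
  have hi0 : i ≠ 0 := by
    rintro rfl
    rw [pow_zero] at hie
    exact hP.ne_top (eq_top_of_card hie)
  have hdvd3 : p ^ 3 ∣ p ^ 2 := by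
    rw [hn, hie]
    refine Dvd.dvd.mul_right ?_ _
    rw [← pow_add, ← pow_add]
    exact pow_dvd_pow p (by omega)
  have := (Nat.pow_dvd_pow_iff_le_right hp.one_lt).1 hdvd3
  omega

end JRAMG

open _root_.Pool.Agent.MUXJ.JRAM _root_.Pool.Agent.MUXJ.JRAMG _root_.Pool.Agent.MU3E.RAM in
theorem t_RAMG : Sj_RAMG := by
  intro p ee A B P V hC F _ _ ⟨ζ, hζF, hζ⟩
  have hp23 : p = 3 ∨ p = 2 := hC.pp.symm
  have hp : p.Prime := by
    rcases hp23 with rfl | rfl
    · exact Nat.prime_three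
    · exact Nat.prime_two
  obtain ⟨⟨φ, hφ⟩, hinj, hded, hpos, hint⟩ := te_RNG A B hC.cq
  have hcube : ((p : ℕ) : OO A B) ∉ P ^ 3 := not_cube hC.cq hded hp P hC.prime hC.mem
  have hw0 : IsIntegral ℤ (wC A B) := by
    rw [hint _ (wC_mem A B)]
    exact ⟨⟨0, 1⟩, by simp [emb]⟩
  have hfd : FiniteDimensional ℚ (kk A B) :=
    IntermediateField.adjoin.finiteDimensional hw0.tower_top
  have hk : NumberField (kk A B) := ⟨⟩
  have hFQ : FiniteDimensional ℚ F := FiniteDimensional.trans ℚ (kk A B) F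
  have hF : NumberField F := ⟨⟩
  have hIn : ∀ x : OO A B, IsIntegral ℤ (ek x) := by
    intro x
    have h2 : IsIntegral ℤ (emb x) := (hint (emb x) (MU3A.emb_mem x)).mpr ⟨x, rfl⟩
    have h3 : algebraMap (kk A B) ℂ (ek x) = emb x := rfl
    rw [← h3] at h2
    exact (isIntegral_algebraMap_iff (FaithfulSMul.algebraMap_injective (kk A B) ℂ)).mp h2
  -- the ring isomorphism
  let e : OO A B →+* 𝓞 (kk A B) :=
    { toFun := fun x => ⟨ek x, hIn x⟩
      map_one' := by
        apply RingOfIntegers.ext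
        apply Subtype.ext
        change emb 1 = 1
        rw [← hφ, map_one]
      map_mul' := by
        intro a b
        apply RingOfIntegers.ext
        apply Subtype.ext
        change emb (a * b) = emb a * emb b
        rw [← hφ, ← hφ, ← hφ, map_mul]
      map_zero' := by
        apply RingOfIntegers.ext
        apply Subtype.ext
        change emb 0 = 0
        rw [← hφ, map_zero]
      map_add' := by
        intro a b
        apply RingOfIntegers.ext
        apply Subtype.ext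
        change emb (a + b) = emb a + emb b
        rw [← hφ, ← hφ, ← hφ, map_add] }
  have he : ∀ x, (((e x : 𝓞 (kk A B)) : kk A B) : ℂ) = emb x := fun x => rfl
  have hesurj : Function.Surjective e := by
    intro x
    have h2 : IsIntegral ℤ ((x : kk A B) : ℂ) :=
      (RingOfIntegers.isIntegral_coe x).map (Algebra.ofId (kk A B) ℂ |>.restrictScalars ℤ)
    obtain ⟨z, hz⟩ := (hint _ (x : kk A B).2).mp h2
    refine ⟨z, ?_⟩
    apply RingOfIntegers.ext
    apply Subtype.ext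
    rw [he, hz]
  have heinj : Function.Injective e := by
    rw [injective_iff_map_eq_zero]
    intro x hx
    apply hinj
    rw [← he, hx]
    rfl
  have hpC : emb ((p : ℕ) : OO A B) = (p : ℂ) := by rw [← hφ, map_natCast]
  have hpne : (p : ℂ) ≠ 0 := by exact_mod_cast hp.ne_zero
  have hvP : ∀ x : OO A B, V.valuation (emb x) < 1 ↔ x ∈ P := fun x => by
    rw [← hC.hV x, ValuationSubring.mem_nonunits_iff]
  obtain ⟨w, hw⟩ := exists_prime (V := V) (algebraMap F ℂ)
    (z := ((p : ℕ) : 𝓞 F)) (by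
      intro h
      have h1 := congrArg (fun t : 𝓞 F => algebraMap F ℂ (t : F)) h
      have h2 : ((p : ℕ) : ℂ) = 0 := by
        simpa using h1
      exact hpne h2) (by
      have h2 : (algebraMap F ℂ) ((((p : ℕ) : 𝓞 F)) : F) = (p : ℂ) := by simp
      rw [h2, ← hpC, hvP]
      exact hC.mem)
  have hcomap : (w.asIdeal.under (𝓞 (kk A B))).comap e = P := by
    ext z
    have hxw : z ∈ (w.asIdeal.under (𝓞 (kk A B))).comap e ↔ V.valuation (emb z) < 1 := by
      exact hw (algebraMap (𝓞 (kk A B)) (𝓞 F) (e z))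
    rw [hxw, hvP]
  have hmap : P.map e = w.asIdeal.under (𝓞 (kk A B)) := by
    rw [← hcomap]
    exact Ideal.map_comap_of_surjective e hesurj _
  have hep : e ((p : ℕ) : OO A B) = ((p : ℕ) : 𝓞 (kk A B)) := map_natCast e p
  have hq1 : ((p : ℕ) : 𝓞 (kk A B)) ∈ w.asIdeal.under (𝓞 (kk A B)) := by
    rw [← hmap, ← hep]
    exact Ideal.mem_map_of_mem e hC.mem
  have hqn : ∀ n : ℕ, ((p : ℕ) : OO A B) ∉ P ^ n →
      ((p : ℕ) : 𝓞 (kk A B)) ∉ (w.asIdeal.under (𝓞 (kk A B))) ^ n := by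
    intro n hn
    rw [← hmap, ← Ideal.map_pow, ← hep, Ideal.mem_map_iff_of_surjective e hesurj]
    rintro ⟨z, hz, hz2⟩
    rw [heinj hz2] at hz
    exact hn hz
  have hord := val_cardG (k := kk A B) (algebraMap F ℂ) hw (w.under (𝓞 (kk A B))) rfl
    ((p : ℕ) : 𝓞 (kk A B))
  -- the value of `p` at the prime of `k`
  set v := w.under (𝓞 (kk A B)) with hv
  have hvas : v.asIdeal = w.asIdeal.under (𝓞 (kk A B)) := rfl
  have hv1 : v.intValuation ((p : ℕ) : 𝓞 (kk A B)) ≤ WithZero.exp (-((1 : ℕ) : ℤ)) := by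
    rw [HeightOneSpectrum.intValuation_le_pow_iff_mem, pow_one, hvas]
    exact hq1
  have hvn : ∀ n : ℕ, ((p : ℕ) : OO A B) ∉ P ^ n →
      WithZero.exp (-((n : ℕ) : ℤ)) < v.intValuation ((p : ℕ) : 𝓞 (kk A B)) := by
    intro n hn
    rw [← not_le, HeightOneSpectrum.intValuation_le_pow_iff_mem, hvas]
    exact hqn n hn
  have hv0 : v.intValuation ((p : ℕ) : 𝓞 (kk A B)) ≠ 0 :=
    (lt_of_le_of_lt (zero_le) (hvn 3 hcube)).ne'
  obtain ⟨l, hl⟩ : ∃ l : ℤ, v.intValuation ((p : ℕ) : 𝓞 (kk A B)) = WithZero.exp l :=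
    ⟨_, (WithZero.exp_log hv0).symm⟩
  rw [hl] at hv1 hord
  rw [hl] at hvn
  rw [WithZero.exp_le_exp] at hv1
  have hvn3 := hvn 3 hcube
  rw [WithZero.exp_lt_exp] at hvn3
  have hl1 : ee = 1 → l = -1 := by
    intro he1
    have h := hvn 2 (hC.unr he1)
    rw [WithZero.exp_lt_exp] at h
    push_cast at h hv1
    omega
  obtain ⟨m, hm1, hm2⟩ := tot_eq hp23
  have hζ' : IsPrimitiveRoot (⟨ζ, hζF⟩ : F) (p ^ (m + 1)) := by
    rw [hm1] at hζ
    exact IsPrimitiveRoot.of_map_of_injective (f := algebraMap F ℂ) hζ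
      (FaithfulSMul.algebraMap_injective F ℂ)
  have hcy := val_p w hp hζ'
  have hpF : (algebraMap (kk A B) F (((p : ℕ) : 𝓞 (kk A B)) : kk A B)) = (p : F) := by
    simp
  rw [hpF, hcy, hm2] at hord
  change q0 p * (p - 1) ∣ ee * Nat.card {σ : F ≃ₐ[kk A B] F // ∀ x : F,
    V.valuation ((algebraMap F ℂ) x) ≤ 1 →
      V.valuation ((algebraMap F ℂ) (σ x) - (algebraMap F ℂ) x) < 1}
  set N := Nat.card {σ : F ≃ₐ[kk A B] F // ∀ x : F,
    V.valuation ((algebraMap F ℂ) x) ≤ 1 →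
      V.valuation ((algebraMap F ℂ) (σ x) - (algebraMap F ℂ) x) < 1} with hN
  have h0 : w.valuation F (1 - (⟨ζ, hζF⟩ : F)) ≠ 0 := by
    intro h0
    rw [h0] at hord
    have h5 : (WithZero.exp l) ^ N ≠ (0 : WithZero (Multiplicative ℤ)) :=
      pow_ne_zero _ WithZero.exp_ne_zero
    apply h5
    rw [← hord]
    apply zero_pow
    rw [← hm2]
    exact (Nat.totient_pos.2 (pow_pos hp.pos _)).ne'
  rw [← WithZero.exp_log h0, ← WithZero.exp_nsmul, ← WithZero.exp_nsmul, WithZero.exp_inj,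
    nsmul_eq_mul, nsmul_eq_mul] at hord
  have h6 : ((q0 p * (p - 1) : ℕ) : ℤ) ∣ (N : ℤ) * l :=
    ⟨WithZero.log (w.valuation F (1 - (⟨ζ, hζF⟩ : F))), by linear_combination -hord⟩
  have h7 : ((q0 p * (p - 1) : ℕ) : ℤ) ∣ ((ee * N : ℕ) : ℤ) := by
    push_cast at hv1 hvn3
    rcases hC.ee with h | h
    · rw [hl1 h] at h6
      rw [h, one_mul]
      rwa [mul_neg_one, dvd_neg] at h6
    · have h8 : l = -1 ∨ l = -2 := by omega
      have h9 : ((ee * N : ℕ) : ℤ) = 2 * (N : ℤ) := by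
        rw [h]
        push_cast
        ring
      rw [h9]
      rcases h8 with h8 | h8
      · rw [h8, mul_neg_one, dvd_neg] at h6
        exact h6.mul_left 2
      · rw [h8, mul_neg, dvd_neg, mul_comm (N : ℤ) 2] at h6
        exact h6
  exact_mod_cast h7

end

end Pool.Agent.MUXJ


end

section

/-! # Block J for any prime above `p`, assembled

`StJG.lean` states the last glue for `p = 3` (any prime above 3) and `p = 2` (unramified). Here the statements are put
together: `j_FING : Sj_FING` has no hypothesis. -/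

namespace Pool.Agent.MUXJ

open _root_.Pool.Agent.MUXK

theorem j_RAMG : Sj_RAMG := t_RAMG
theorem j_LEVG : Sj_LEVG := t_LEVG
theorem j_SETG : Sj_SETG := t_SETG j_DIR j_RAMG j_INJ j_ROT j_LDX j_GAL j_LEVG
theorem j_OMGG : Sj_OMGG := t_OMGG j_DIR
theorem j_FING : Sj_FING :=
  t_FING j_RES j_LAY j_DIR j_GAL j_SETG j_UP j_SUB j_OMGG j_FLD k_MAINKX MU3.u_SYL MU3.u_PEX

end Pool.Agent.MUXJ


end
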