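import Mathlib
import Pool.Agent.MVF.C132
import Pool.Agent.MVF.C133
import Pool.Agent.MVF.C134

/-! Parts: ME.X.JAll, ME.X.J_FING, ME.X.J_OMGG, ME.X.JGAll, NS.ZVex2, ME.ZLib, ME2.J_JFIN4, ME2.ZFinE -/

section

/-! # Block J of the project MUX, assembled

`StJX.lean` states the field theory of the last glue; the files `J_*.lean` prove the statements. Here they are put
together: `j_X : Sj_X` without hypotheses, except for `j_FIN`, which takes the main theorem of block K. -/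

namespace Pool.Agent.MUXJ

open _root_.Pool.Agent.ME

open _root_.Pool.Agent.MUXK

theorem j_INJ_E : Sj_INJ_E := t_INJ_E
theorem j_DIR_E : Sj_DIR_E := t_DIR_E
theorem j_GAL_E : Sj_GAL_E := t_GAL_E
end Pool.Agent.MUXJ


end

section

/-!
# MUX, block J, module FING: the main theorem for all fields, from the inputs, for any prime above `p`
-/

set_option autoImplicit false

open NumberField IsDedekindDomain
open scoped nonZeroDivisors Pointwise

namespace Pool.Agent.MUXJ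

open _root_.MU3 _root_.Pool.Agent.MU3 _root_.Pool.Agent.MU3A _root_.Pool.Agent.MU3B _root_.Pool.Agent.RI _root_.Pool.Agent.RID
  _root_.Pool.Agent.MUX _root_.Pool.Agent.ME _root_.Pool.Agent.MUXK _root_.Pool.Agent.MUXE

noncomputable section

namespace JFing

/-- the case of a field `K₀` of degree prime to `p` over `k` with the `p`-th roots of unity -/
theorem cop_E (hRES : Sj_RES) (hSET : Sj_SETG_E) (hMAIN : S_MAINKX) (p e d : ℕ) [Fact p.Prime]
    (A B : ℤ) (P : Ideal (OO A B)) (V : ValuationSubring ℂ) (hc : AboX p e A B P V) (hd : d ≠ 0)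
    (hpd : ¬ p ∣ d) (h2d : p = 3 → 2 ∣ d) (hU : UnrH_E A B V) (hT : TorXE A B)
    (hN : NLex_E A B) (hI : InpG_E p d A B V) (K₀ : IntermediateField ℚ ℂ) [FiniteDimensional ℚ K₀]
    (hk : kk A B ≤ K₀) (hcop : ¬ p ∣ Module.finrank (kk A B) (IntermediateField.extendScalars hk))
    (hTU : TorU_E A B K₀) (hω : ∃ ω ∈ K₀, IsPrimitiveRoot ω p)
    (Bn : ℕ → IntermediateField ℚ ℂ) (hlay : ∀ n, IsLayer p n (Bn n)) (hmono : Monotone Bn) :
    ∃ C : ℕ, ∀ n, padicValNat p (classNo (K₀ ⊔ Bn n)) ≤ C * (n + 1) ^ 2 := by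
  obtain ⟨K, hKfd, f, hSX, hf0, hpf, hdf, hKR, hHK⟩ :=
    hSET p e d A B P V hc hd hpd h2d hU hT hN K₀ hk hcop hTU hω Bn hlay hmono
  have hfk : FiniteDimensional ℚ (kk A B) :=
    Module.Finite.of_injective (IntermediateField.inclusion hk).toLinearMap
      (IntermediateField.inclusion hk).injective
  have hfB : ∀ n, FiniteDimensional ℚ ↥(K ⊔ Bn n) := fun n => by
    obtain ⟨h1, -, -⟩ := LAY_thm p n (Bn n) (hlay n)
    exact IntermediateField.finiteDimensional_sup K (Bn n)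
  have hkn : ∀ n, kk A B ≤ K ⊔ Bn n := fun n => (hk.trans hSX.le).trans le_sup_left
  have hk₀n : ∀ n, kk A B ≤ K₀ ⊔ Bn n := fun n => hk.trans le_sup_left
  obtain ⟨S, c, c₀, n₁, hInp⟩ := hI f hf0 hpf hdf K₀ K Bn hSX hKR hHK hkn hk₀n hk
  obtain ⟨hchar, halg⟩ := hRES p V hc.hp
  exact hMAIN (IsLocalRing.ResidueField V) p (kk A B) K₀ K Bn hSX hkn hk₀n hk S c c₀ n₁ hInp

end JFing

open _root_.Pool.Agent.MUXJ.JFin (idl_ne_bot) in
theorem t_FING_E (h1 : Sj_RES) (h2 : Sj_LAY) (h3 : Sj_DIR_E) (h4 : Sj_GAL_E) (h5 : Sj_SETG_E)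
    (h6 : Sj_UP) (h7 : Sj_SUB) (h8 : Sj_OMGG_E) (h9 : Sj_FLD) (h10 : S_MAINKX) (h11 : P_SYL)
    (h12 : P_PEX) : Sj_FING_E := by
  intro p e d A B P V hc hd hpd h2d hU hT hN hI F M K _ hkF hFM a hTU hgal hdeg hKM
  have hpp : p = 2 ∨ p = 3 := hc.pp
  have hp : Fact p.Prime := by
    rcases hpp with rfl | rfl
    · exact ⟨Nat.prime_two⟩
    · exact ⟨Nat.prime_three⟩
  have hfF : FiniteDimensional ℚ F :=
    Module.Finite.of_injective (IntermediateField.inclusion hFM).toLinearMap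
      (IntermediateField.inclusion hFM).injective
  obtain ⟨-, hTot⟩ := h9 A B hc.cq
  obtain ⟨Bn, hlay, hmono, huniq⟩ := h2 p hpp
  obtain ⟨M₀, hM₀, hFR⟩ := h3 A B hc.cq hT F hTU
  obtain ⟨hgF, -, hab⟩ := h4 A B hT (idl M₀) (idl_ne_bot hM₀) F hkF hFR
  obtain ⟨F₀, hk₀, h₂, -, hn1, hg2, b, hb⟩ := h11 p (kk A B) F hkF hgF hab
  have hfF₀ : FiniteDimensional ℚ F₀ :=
    Module.Finite.of_injective (IntermediateField.inclusion h₂).toLinearMap
      (IntermediateField.inclusion h₂).injective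
  have hTU₀ : TorU_E A B F₀ := fun x hx => hTU x (h₂ hx)
  obtain ⟨F₁, hFF, hf1, hTU₁, hω, hgF₁, hnFF, hnF1⟩ :=
    h8 p A B hc.cq hpp hT hN F₀ hk₀ hTU₀ hn1
  obtain ⟨C, hC⟩ := JFing.cop_E h1 h5 h10 p e d A B P V hc hd hpd h2d hU hT hN hI F₁
    (hk₀.trans hFF) hnF1 hTU₁ hω Bn hlay hmono
  have hC0 : ∀ n, padicValNat p (classNo (F₀ ⊔ Bn n)) ≤ C * (n + 1) ^ 2 := fun n =>
    (h6 p F₀ F₁ (Bn n) n hFF (hlay n) hgF₁ hnFF).trans (hC n)
  have hE := h12 p b F₀ F Bn h₂ hg2 hb (hTot F₀ hk₀) hlay hmono ⟨C, 2, hC0⟩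
  obtain ⟨C', j, hC'⟩ := h12 p a F M Bn hFM hgal hdeg (hTot F hkF) hlay hmono hE
  obtain ⟨C₁, hC₁⟩ := h7 p K M hKM
  refine ⟨C' + C₁ + j, fun n Q hQ => ?_⟩
  have e1 := hC₁ n Q hQ
  rw [huniq n Q hQ] at e1 ⊢
  have e2 := hC' n
  have e3 : (n + 1) ^ j ≤ (n + 1) ^ (C' + C₁ + j) :=
    Nat.pow_le_pow_right (Nat.succ_pos n) (Nat.le_add_left _ _)
  have e4 : 1 ≤ (n + 1) ^ (C' + C₁ + j) := Nat.one_le_pow _ _ (Nat.succ_pos n)
  calc padicValNat p (classNo (K ⊔ Bn n)) ≤ padicValNat p (classNo (M ⊔ Bn n)) + C₁ := e1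
    _ ≤ C' * (n + 1) ^ j + C₁ := by omega
    _ ≤ C' * (n + 1) ^ (C' + C₁ + j) + C₁ * (n + 1) ^ (C' + C₁ + j) :=
        add_le_add (Nat.mul_le_mul_left _ e3) (Nat.le_mul_of_pos_right _ e4)
    _ = (C' + C₁) * (n + 1) ^ (C' + C₁ + j) := by rw [add_mul]
    _ ≤ (C' + C₁ + j) * (n + 1) ^ (C' + C₁ + j) :=
        Nat.mul_le_mul_right _ (Nat.le_add_right _ _)

end

end Pool.Agent.MUXJ


end

section

/-!
# MUX, block J, module OMGG: adjoining the `p`-th roots of unity, `p = 2, 3`, no hypothesis on the splitting of `p`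
(helper19; adapted from `J_OMG.lean`, helper42)
-/

set_option autoImplicit false

open NumberField IsDedekindDomain Polynomial
open scoped nonZeroDivisors Pointwise

namespace Pool.Agent.MUXJ

open _root_.MU3 _root_.Pool.Agent.MU3 _root_.Pool.Agent.MU3A _root_.Pool.Agent.MU3B _root_.Pool.Agent.RI _root_.Pool.Agent.RID
  _root_.Pool.Agent.MUX _root_.Pool.Agent.ME _root_.Pool.Agent.MUXK _root_.Pool.Agent.MUXE

noncomputable section

open _root_.Pool.Agent.MUXJ.Omg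

/-- the module OMGG -/
theorem t_OMGG_E (h1 : Sj_DIR_E) : Sj_OMGG_E := by
  intro p A B hc hp23 hT hNL F hF hk hU hp
  rcases hp23 with rfl | rfl
  · refine ⟨F, le_rfl, hF, hU, ⟨-1, F.neg_mem F.one_mem, IsPrimitiveRoot.neg_one 0 (by norm_num)⟩,
      ?_, ?_, hp⟩
    · rw [IntermediateField.extendScalars_self]
      infer_instance
    · rw [IntermediateField.extendScalars_self, IntermediateField.finrank_bot]
      norm_num
  · obtain ⟨M, hM, hMF⟩ := h1 A B hc hT F hU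
    obtain ⟨b, L, om, hL⟩ := hNL
    obtain ⟨ζ, hω⟩ : ∃ ζ : ℂ, IsPrimitiveRoot ζ 3 :=
      ⟨_, Complex.isPrimitiveRoot_exp 3 (by norm_num)⟩
    have hq : ζ ^ 2 + ζ + 1 = 0 := by
      have h1 := hω.pow_eq_one
      have h2 := hω.ne_one (by norm_num)
      have h3 : (ζ - 1) * (ζ ^ 2 + ζ + 1) = 0 := by linear_combination h1
      rcases mul_eq_zero.1 h3 with h4 | h4
      · exact absurd (sub_eq_zero.1 h4) h2
      · exact h4
    have hm : (idl (3 * M) : Ideal (OO A B)) ≠ ⊥ := idl_ne (by positivity)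
    obtain ⟨a, -, ha⟩ := hT.act (idl (3 * M)) hm (RingEquiv.refl ℂ) rfl
    obtain ⟨b', L', om', mu, hL', hA⟩ := ha b L om hL
    have hz := (hT.zeta 3 (idl (3 * M)) a (RingEquiv.refl ℂ) b L L' om mu hm rfl (by norm_num)
      (idl_le (Dvd.intro _ rfl)) hL hA ζ hω.pow_eq_one).1
    obtain ⟨F₁, h, hfd, hT1, hω1, hg, h3⟩ := omega_ext F ζ hω hq
      ((RFE (idl (3 * M) : Ideal (OO A B))).restrictScalars ℚ)
      (fun x hx => hT.mono _ _ (idl_le (Dvd.intro_left _ rfl)) (hMF x hx)) hz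
    refine ⟨F₁, h, hfd, fun x hx => ⟨_, hm, hT1 hx⟩, ⟨_, hω1, hω⟩, hg, h3, ?_⟩
    rw [tower hk h, Nat.prime_three.dvd_mul]
    exact not_or.2 ⟨hp, h3⟩

end

end Pool.Agent.MUXJ


end

section

/-! # Block J for any prime above `p`, assembled

`StJG.lean` states the last glue for `p = 3` (any prime above 3) and `p = 2` (unramified). Here the statements are put
together: `j_FING : Sj_FING` has no hypothesis. -/

namespace Pool.Agent.MUXJ

open _root_.Pool.Agent.ME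

open _root_.Pool.Agent.MUXK

theorem j_LEVG_E : Sj_LEVG_E := t_LEVG_E
theorem j_SETG_E : Sj_SETG_E := t_SETG_E j_DIR_E j_RAMG j_INJ_E j_ROT j_LDX j_GAL_E j_LEVG_E
theorem j_OMGG_E : Sj_OMGG_E := t_OMGG_E j_DIR_E
theorem j_FING_E : Sj_FING_E :=
  t_FING_E j_RES j_LAY j_DIR_E j_GAL_E j_SETG_E j_UP j_SUB j_OMGG_E j_FLD k_MAINKX MU3.u_SYL MU3.u_PEX

end Pool.Agent.MUXJ


end

section

/-!
# MUX: a prime ideal of norm `p` from a root of `X² - B X - A` modulo `p` (helper36)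

For the ramified cases `p = 2`, `p = 3`.
-/

set_option autoImplicit false

namespace Pool.Agent.NSZ

open _root_.MU3 _root_.Pool.Agent.MU3 _root_.Pool.Agent.MU3A _root_.Pool.Agent.MU3B _root_.Pool.Agent.RI _root_.Pool.Agent.RID
  _root_.Pool.Agent.MUX _root_.Pool.Agent.MUXK _root_.Pool.Agent.MUXE _root_.Pool.Agent.MUXJ

noncomputable section

/-- the homomorphism `O → ℤ/p` which maps `w` to `c` -/
def psiC (p : ℕ) (A B c : ℤ) (h : (p : ℤ) ∣ A + B * c - c ^ 2) : OO A B →+* ZMod p :=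
  (QuadraticAlgebra.lift (R := ℤ) (a := A) (b := B) (A := ZMod p)
    ⟨(c : ZMod p), by
      have h1 : ((A + B * c - c ^ 2 : ℤ) : ZMod p) = 0 :=
        (ZMod.intCast_zmod_eq_zero_iff_dvd _ _).2 h
      push_cast at h1
      simp only [zsmul_eq_mul, mul_one]
      linear_combination -h1⟩).toRingHom

/-- a prime ideal of norm `p` -/
theorem exists_isPN (p : ℕ) (hp : p.Prime) (A B c : ℤ) (h : (p : ℤ) ∣ A + B * c - c ^ 2) :
    ∃ P : Ideal (OO A B), IsPN p P ∧ P.IsMaximal := by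
  haveI : Fact p.Prime := ⟨hp⟩
  let ψ := psiC p A B c h
  have hsurj : Function.Surjective ψ := ZMod.ringHom_surjective ψ
  have hmax : (RingHom.ker ψ).IsMaximal := RingHom.ker_isMaximal_of_surjective ψ hsurj
  refine ⟨RingHom.ker ψ, ⟨hmax.isPrime, ?_, ?_⟩, hmax⟩
  · rw [RingHom.mem_ker, map_natCast, CharP.cast_eq_zero]
  · unfold MUX.nI
    rw [Nat.card_congr (RingHom.quotientKerEquivOfSurjective hsurj).toEquiv, Nat.card_zmod]

end

end Pool.Agent.NSZ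


end

section

/-!
# ME, final assemblies: the field `RFE ⊤` is `k`, `UnrH_E`, `NLex_E` (helper21)
-/

set_option autoImplicit false

namespace Pool.Agent.MEZ

open _root_.MU3 _root_.Pool.Agent.MU3A _root_.Pool.Agent.MU3B _root_.Pool.Agent.RI _root_.Pool.Agent.MUX _root_.Pool.Agent.MUXU
open _root_.Pool.Agent.ME _root_.Pool.Agent.MUXJ

noncomputable section

variable {A B : ℤ}

/-- `kapE` is a rational number -/
lemma kapE_rat {L : PeriodPair} (h : NrmE A B L) : ∃ q : ℚ, kapE L = (q : ℂ) := by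
  unfold kapE
  rw [h.g2, h.g3]
  unfold g2E g3E
  split_ifs
  · exact ⟨4, by push_cast; ring⟩
  · exact ⟨-4, by push_cast; ring⟩

/-- `RFE ⊤ = k` -/
theorem rfe_topE (h : CaseE A B) :
    (RFE (⊤ : Ideal (OO A B)) : IntermediateField (kk A B) ℂ) = ⊥ := by
  rw [eq_bot_iff]
  unfold RFE
  rw [IntermediateField.adjoin_le_iff]
  rintro c ⟨b, L, om, hL, hc | ⟨z, hz, hzL, -⟩⟩
  · obtain ⟨q, hq⟩ := kapE_rat hL.nrm
    rw [hc, hq]
    exact ((⊥ : IntermediateField (kk A B) ℂ).restrictScalars ℚ).algebraMap_mem q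
  · exfalso
    apply hzL
    have h1 := hz 1 trivial
    rwa [Pool.Agent.MUX.emb_one h.toCQ, one_mul] at h1

theorem mem_of_top (h : CaseE A B) {y : ℂ} (hy : y ∈ RFE (⊤ : Ideal (OO A B))) : y ∈ kk A B := by
  rw [rfe_topE h, IntermediateField.mem_bot] at hy
  obtain ⟨x, rfl⟩ := hy
  exact x.2

theorem unrH_E (h : CaseE A B) (V : ValuationSubring ℂ) : UnrH_E A B V := by
  intro σ hσ _ y hy
  exact Pool.Agent.MEC.TRV.fix hσ y (mem_of_top h hy)

theorem nlex_E (h : CaseE A B) : NLex_E A B := by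
  obtain ⟨L, om, hL⟩ := MEC.exists_isNE h (⊤ : Ideal (OO A B)) Pool.Agent.MUXW.top_ne_bot
  exact ⟨⊤, L, om, hL⟩

end

end Pool.Agent.MEZ


end

section

/-!
# ME2: blocks K and J for `p = 2`, `D = -4` (helper21)

`K = K₀` (the degree of `K₀ / k` is odd, `k = ℚ(i)`).
-/

set_option autoImplicit false

open NumberField IsDedekindDomain
open scoped nonZeroDivisors Pointwise

namespace Pool.Agent.ME2

open _root_.MU3 _root_.Pool.Agent.MU3 _root_.Pool.Agent.MU3A _root_.Pool.Agent.MU3B _root_.Pool.Agent.RI _root_.Pool.Agent.RID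
  _root_.Pool.Agent.MUX _root_.Pool.Agent.MUXK _root_.Pool.Agent.MUXE _root_.Pool.Agent.MUXJ
open _root_.Pool.Agent.ME hiding ActE

noncomputable section

namespace JF4

variable {A B : ℤ}

lemma w4 (h : CaseE A B) (hB : B = 0) : IsPrimitiveRoot (wC A B) 4 := by
  have hw := MEC.w_sq h
  rw [hB] at hw ⊢
  push_cast at hw
  rw [zero_mul, add_zero] at hw
  have h4 : wC A 0 ^ 4 = 1 := by
    calc wC A 0 ^ 4 = (wC A 0 ^ 2) ^ 2 := by ring
      _ = 1 := by rw [hw]; ring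
  refine IsPrimitiveRoot.mk_of_lt _ (by norm_num) h4 ?_
  intro l hl0 hl4 hl
  have h2 : wC A 0 ^ 2 ≠ 1 := by
    rw [hw]
    norm_num
  interval_cases l
  · apply h2
    rw [pow_one] at hl
    rw [hl]
    norm_num
  · exact h2 hl
  · apply h2
    have h5 : wC A 0 ^ 4 = wC A 0 := by
      calc wC A 0 ^ 4 = wC A 0 ^ 3 * wC A 0 := by ring
        _ = wC A 0 := by rw [hl, one_mul]
    rw [← h5, h4]
    norm_num

/-- the degree of a cyclotomic field -/
lemma fin_cyc {ζ : ℂ} {n : ℕ} (hn : 0 < n) (hζ : IsPrimitiveRoot ζ n) :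
    Module.finrank ℚ (IntermediateField.adjoin ℚ {ζ}) = n.totient := by
  have h1 : IsIntegral ℚ ζ := (hζ.isIntegral hn).tower_top
  rw [IntermediateField.adjoin.finrank h1, ← Polynomial.cyclotomic_eq_minpoly_rat hζ hn,
    Polynomial.natDegree_cyclotomic]

lemma fin_k (h : CaseE A B) (hB : B = 0) : Module.finrank ℚ (kk A B) = 2 := by
  have h1 := fin_cyc (by norm_num) (w4 h hB)
  have h2 : Nat.totient 4 = 2 := by decide
  rw [h2] at h1
  exact h1

lemma set4 (h : CaseE A B) (hB : B = 0) {d : ℕ} (hd : d ≠ 0) (h2d : ¬ 2 ∣ d) (hT : TorXE A B)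
    (hN : NLex_E A B) (K₀ : IntermediateField ℚ ℂ) [FiniteDimensional ℚ K₀] (hk : kk A B ≤ K₀)
    (hcop : ¬ 2 ∣ Module.finrank (kk A B) (IntermediateField.extendScalars hk))
    (hTU : TorU_E A B K₀) (Bn : ℕ → IntermediateField ℚ ℂ) (hlay : ∀ n, IsLayer 2 n (Bn n))
    (hmono : Monotone Bn) :
    ∃ f : ℕ, SetX 2 (kk A B) K₀ K₀ Bn ∧ f ≠ 0 ∧ ¬ 2 ∣ f ∧ d ∣ f ∧
      (∀ y ∈ K₀, y ∈ RFE (idl (A := A) (B := B) (lvX 2 f 0))) ∧
      ∀ y ∈ RFE (⊤ : Ideal (OO A B)), y ∈ K₀ := by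
  have hcq := h.toCQ
  obtain ⟨M, hM, hKM⟩ := j_DIR_E A B hcq hT K₀ hTU
  obtain ⟨f, hf0, hfp, hfd, hKf⟩ := j_LEVG_E 2 d A B hcq (Or.inl rfl) hd h2d (by norm_num) hT hN K₀
    hk hcop M hM hKM
  have hlv0 : (idl (A := A) (B := B) (lvX 2 f 0)) ≠ ⊥ := by
    have h1 : lvX 2 f 0 ≠ 0 := by
      unfold lvX q0
      simp [hf0]
    rw [Ne, Ideal.span_singleton_eq_bot]
    exact natCast_ne_zero' hcq h1
  obtain ⟨hgal0, -, hab0⟩ := j_GAL_E A B hT _ hlv0 K₀ hk hKf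
  have hi : wC A B ∈ K₀ := hk (IntermediateField.mem_adjoin_simple_self ℚ (wC A B))
  have hw4 := w4 h hB
  have hB1 : ¬ Bn 1 ≤ K₀ := by
    intro hB1
    obtain ⟨ζ, hζK, hζ⟩ := j_ROT 2 (Or.inl rfl) (Bn 1) K₀ (hlay 1) hB1 ⟨wC A B, hi, hw4⟩
    have h8 : q0 2 * 2 = 8 := rfl
    rw [h8] at hζ
    have hle : IntermediateField.adjoin ℚ {ζ} ≤ K₀ := by
      rw [IntermediateField.adjoin_le_iff]
      rintro x hx
      rw [Set.mem_singleton_iff] at hx
      rw [hx]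
      exact hζK
    have h1 := fin_cyc (by norm_num) hζ
    have h2 : Nat.totient 8 = 4 := by decide
    rw [h2] at h1
    have h3 := IntermediateField.finrank_dvd_of_le_right hle
    rw [h1] at h3
    have h4 : Module.finrank ℚ (kk A B) *
        Module.finrank (kk A B) (IntermediateField.extendScalars hk) = Module.finrank ℚ K₀ :=
      Pool.Agent.FX.fmul ℚ (kk A B) (IntermediateField.extendScalars hk)
    rw [fin_k h hB] at h4
    rw [← h4] at h3
    apply hcop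
    omega
  refine ⟨f, ?_, hf0, hfp, hfd, hKf, fun y hy => hk (MEZ.mem_of_top h hy)⟩
  have hb : BasX 2 (kk A B) K₀ Bn := ⟨hk, hgal0, hab0, j_LDX 2 K₀ Bn hlay hmono hB1, hlay, hmono⟩
  exact
    { b0 := hb
      b := hb
      le := le_rfl
      cop := hcop
      om := ⟨-1, neg_mem (one_mem _), IsPrimitiveRoot.neg_one 0 (by norm_num)⟩
      ze := ⟨wC A B, hi, hw4⟩ }

/-- the case of a field `K₀` of odd degree over `k` -/
theorem cop4 (h : CaseE A B) (hB : B = 0) (V : ValuationSubring ℂ)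
    (hV2 : (2 : ℂ) ∈ V.nonunits) {d : ℕ} (hd : d ≠ 0)
    (h2d : ¬ 2 ∣ d) (hT : TorXE A B) (hN : NLex_E A B) (hI : InpG_E 2 d A B V)
    (K₀ : IntermediateField ℚ ℂ) [FiniteDimensional ℚ K₀]
    (hk : kk A B ≤ K₀) (hcop : ¬ 2 ∣ Module.finrank (kk A B) (IntermediateField.extendScalars hk))
    (hTU : TorU_E A B K₀)
    (Bn : ℕ → IntermediateField ℚ ℂ) (hlay : ∀ n, IsLayer 2 n (Bn n)) (hmono : Monotone Bn) :
    ∃ C : ℕ, ∀ n, padicValNat 2 (classNo (K₀ ⊔ Bn n)) ≤ C * (n + 1) ^ 2 := by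
  have : Fact (Nat.Prime 2) := ⟨Nat.prime_two⟩
  obtain ⟨f, hSX, hf0, hpf, hdf, hKR, hHK⟩ := set4 h hB hd h2d hT hN K₀ hk hcop hTU Bn hlay hmono
  have hfk : FiniteDimensional ℚ (kk A B) :=
    Module.Finite.of_injective (IntermediateField.inclusion hk).toLinearMap
      (IntermediateField.inclusion hk).injective
  have hfB : ∀ n, FiniteDimensional ℚ ↥(K₀ ⊔ Bn n) := fun n => by
    obtain ⟨h1, -, -⟩ := LAY_thm 2 n (Bn n) (hlay n)
    exact IntermediateField.finiteDimensional_sup K₀ (Bn n)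
  have hkn : ∀ n, kk A B ≤ K₀ ⊔ Bn n := fun n => hk.trans le_sup_left
  obtain ⟨S, c, c₀, n₁, hInp⟩ := hI f hf0 hpf hdf K₀ K₀ Bn hSX hKR hHK hkn hkn hk
  obtain ⟨hchar, halg⟩ := j_RES 2 V (by exact_mod_cast hV2)
  exact k_MAINKX (IsLocalRing.ResidueField V) 2 (kk A B) K₀ K₀ Bn hSX hkn hkn hk S c c₀ n₁ hInp

end JF4

/-- (JFIN) blocks K and J for `p = 2`, `D = -4` -/
theorem j4_JFIN : T4_JFIN := by
  intro A B P V d hc hB hP hV hd h2d hT hN hI F M K _ hkF hFM a hTU hgal hdeg hKM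
  have : Fact (Nat.Prime 2) := ⟨Nat.prime_two⟩
  have hcq := hc.toCQ
  have hV2 : (2 : ℂ) ∈ V.nonunits := by
    have h1 := (hV ((2 : ℕ) : OO A B)).2 (by
      have h2 := nI_mem hcq (b := P) (by
        rintro rfl
        exact MEC.FRO.ne_bot_of_prime _ Nat.prime_two hP.norm rfl)
      rwa [hP.norm] at h2)
    rw [Pool.Agent.MUX.emb_natCast hcq] at h1
    exact_mod_cast h1
  have hfF : FiniteDimensional ℚ F :=
    Module.Finite.of_injective (IntermediateField.inclusion hFM).toLinearMap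
      (IntermediateField.inclusion hFM).injective
  obtain ⟨-, hTot⟩ := j_FLD A B hcq
  obtain ⟨Bn, hlay, hmono, huniq⟩ := j_LAY 2 (Or.inl rfl)
  obtain ⟨M₀, hM₀, hFR⟩ := j_DIR_E A B hcq hT F hTU
  have hM₀' : (idl (A := A) (B := B) M₀) ≠ ⊥ := by
    rw [Ne, Ideal.span_singleton_eq_bot]
    exact natCast_ne_zero' hcq hM₀
  obtain ⟨hgF, -, hab⟩ := j_GAL_E A B hT (idl M₀) hM₀' F hkF hFR
  obtain ⟨F₀, hk₀, h₂, -, hn1, hg2, b, hb⟩ := MU3.u_SYL 2 (kk A B) F hkF hgF hab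
  have hfF₀ : FiniteDimensional ℚ F₀ :=
    Module.Finite.of_injective (IntermediateField.inclusion h₂).toLinearMap
      (IntermediateField.inclusion h₂).injective
  have hTU₀ : TorU_E A B F₀ := fun x hx => hTU x (h₂ hx)
  obtain ⟨C, hC0⟩ := JF4.cop4 hc hB V hV2 hd h2d hT hN hI F₀ hk₀ hn1 hTU₀ Bn hlay hmono
  have hE := MU3.u_PEX 2 b F₀ F Bn h₂ hg2 hb (hTot F₀ hk₀) hlay hmono ⟨C, 2, hC0⟩
  obtain ⟨C', j, hC'⟩ := MU3.u_PEX 2 a F M Bn hFM hgal hdeg (hTot F hkF) hlay hmono hE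
  obtain ⟨C₁, hC₁⟩ := j_SUB 2 K M hKM
  refine ⟨C' + C₁ + j, fun n Q hQ => ?_⟩
  have e1 := hC₁ n Q hQ
  rw [huniq n Q hQ] at e1 ⊢
  have e2 := hC' n
  have e3 : (n + 1) ^ j ≤ (n + 1) ^ (C' + C₁ + j) :=
    Nat.pow_le_pow_right (Nat.succ_pos n) (Nat.le_add_left _ _)
  have e4 : 1 ≤ (n + 1) ^ (C' + C₁ + j) := Nat.one_le_pow _ _ (Nat.succ_pos n)
  calc padicValNat 2 (classNo (K ⊔ Bn n)) ≤ padicValNat 2 (classNo (M ⊔ Bn n)) + C₁ := e1
    _ ≤ C' * (n + 1) ^ j + C₁ := by omega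
    _ ≤ C' * (n + 1) ^ (C' + C₁ + j) + C₁ * (n + 1) ^ (C' + C₁ + j) :=
        add_le_add (Nat.mul_le_mul_left _ e3) (Nat.le_mul_of_pos_right _ e4)
    _ = (C' + C₁) * (n + 1) ^ (C' + C₁ + j) := by rw [add_mul]
    _ ≤ (C' + C₁ + j) * (n + 1) ^ (C' + C₁ + j) :=
        Nat.mul_le_mul_right _ (Nat.le_add_right _ _)

end

end Pool.Agent.ME2


end

section

/-!
# ME: the final theorems for `D = -3, -4`, `p = 2, 3`, from the inputs of block J (helper21)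

`E34_INPG` : `D = -4`, `p = 3`; `T3_INPG` : `D = -3`, `p = 2`; `T4_INPG` (`Defs4.lean`) : `D = -4`, `p = 2`. (`D = -3`, `p = 3` is in `ME/Z3All.lean`.)
-/

set_option autoImplicit false

open NumberField IsDedekindDomain

namespace Pool.Agent.ME2

open _root_.MU3 _root_.Pool.Agent.MU3 _root_.Pool.Agent.MU3A _root_.Pool.Agent.MU3B _root_.Pool.Agent.RI _root_.Pool.Agent.RID
  _root_.Pool.Agent.MUX _root_.Pool.Agent.MUXK _root_.Pool.Agent.MUXE _root_.Pool.Agent.MUXJ _root_.Pool.Agent.NSZ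
open _root_.Pool.Agent.ME hiding ActE

/-- (INPG) the inputs of block J for `D = -4`, `p = 3` -/
def E34_INPG : Prop :=
  ∀ (A B : ℤ) (V : ValuationSubring ℂ), CaseE A B → B = 0 →
    OverI V (idl (A := A) (B := B) 3) → TorXE A B →
    ∃ d : ℕ, d ≠ 0 ∧ ¬ 3 ∣ d ∧ 2 ∣ d ∧ InpG_E 3 d A B V

/-- (INPG) the inputs of block J for `D = -3`, `p = 2` -/
def T3_INPG : Prop :=
  ∀ (A B : ℤ) (V : ValuationSubring ℂ), CaseE A B → B = 1 →
    OverI V (idl (A := A) (B := B) 2) → TorXE A B →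
    ∃ d : ℕ, d ≠ 0 ∧ ¬ 2 ∣ d ∧ InpG_E 2 d A B V

/-- `3` is a prime element of `ℤ[i]` -/
theorem three_max4 {A B : ℤ} (hC : CaseE A B) (hB : B = 0) : (idl (A := A) (B := B) 3).IsMaximal := by
  have hA := hC.hA
  subst hB
  apply idl_max 3 Nat.prime_three
  intro a b h
  push_cast at h ⊢
  rw [hA] at h
  have hxy : (3 : ℤ) ∣ a ^ 2 + b ^ 2 := by
    have e : a ^ 2 + 0 * a * b - -1 * b ^ 2 = a ^ 2 + b ^ 2 := by ring
    rwa [e] at h
  have hx : a % 3 = 0 ∨ a % 3 = 1 ∨ a % 3 = 2 := by omega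
  have hy : b % 3 = 0 ∨ b % 3 = 1 ∨ b % 3 = 2 := by omega
  have hm : (a ^ 2 + b ^ 2) % 3 = 0 := Int.emod_eq_zero_of_dvd hxy
  rw [Int.add_emod, pow_two, pow_two, Int.mul_emod a a, Int.mul_emod b b] at hm
  rcases hx with hx | hx | hx <;> rcases hy with hy | hy | hy <;> rw [hx, hy] at hm <;>
    first
      | exact ⟨Int.dvd_of_emod_eq_zero hx, Int.dvd_of_emod_eq_zero hy⟩
      | (exfalso; norm_num at hm)

/-- `2` is a prime element of `ℤ[ζ_3]` -/
theorem two_max3 {A B : ℤ} (hC : CaseE A B) (hB : B = 1) : (idl (A := A) (B := B) 2).IsMaximal := by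
  have hA := hC.hA
  subst hB
  apply idl_max 2 Nat.prime_two
  intro a b h
  push_cast at h ⊢
  rw [hA] at h
  rcases Int.emod_two_eq_zero_or_one a with ha | ha <;>
    rcases Int.emod_two_eq_zero_or_one b with hb | hb
  · omega
  all_goals
    exfalso
    obtain ⟨c, hc⟩ := h
    have h3 : (a ^ 2 + 1 * a * b - -1 * b ^ 2) % 2 = 0 := by
      rw [hc]
      omega
    rw [Int.sub_emod, Int.add_emod, Int.mul_emod (-1), pow_two, pow_two, Int.mul_emod a a,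
      Int.mul_emod (1 * a) b, Int.mul_emod 1 a, Int.mul_emod b b, ha, hb] at h3
    norm_num at h3

/-- THE MAIN THEOREM, `D = -4`, `p = 3` -/
theorem z_main43 (hG : E34_INPG) (A B : ℤ) (hC : CaseE A B) (hB : B = 0)
    (F M K : IntermediateField ℚ ℂ) [FiniteDimensional ℚ M] (hF : kk A B ≤ F) (h : F ≤ M)
    (a : ℕ) (hT : TorU_E A B F) (hGal : IsGalois F (IntermediateField.extendScalars h))
    (ha : Module.finrank F (IntermediateField.extendScalars h) = 3 ^ a) (hK : K ≤ M) :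
    ∃ C : ℕ, ∀ (n : ℕ) (Q : IntermediateField ℚ ℂ), IsLayer 3 n Q →
      padicValNat 3 (classNo (K ⊔ Q)) ≤ C * (n + 1) ^ C := by
  have : Fact (Nat.Prime 3) := ⟨Nat.prime_three⟩
  have hCQ : MUX.CQ A B := hC.toCQ
  have hmax := three_max4 hC hB
  obtain ⟨V, hV⟩ := vex hCQ _ hmax
  have hTor := MEC.c_TORE A B hC
  obtain ⟨d, hd0, h3d, h2d, hI⟩ := hG A B V hC hB hV hTor
  exact j_FING_E 3 1 d A B (idl 3) V (aboX 3 (Or.inr rfl) hCQ hmax V hV) hd0 h3d
    (fun _ => h2d) (MEZ.unrH_E hC V) hTor (MEZ.nlex_E hC) hI F M K hF h a hT hGal ha hK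

/-- THE MAIN THEOREM, `D = -3`, `p = 2` -/
theorem z_main32 (hG : T3_INPG) (A B : ℤ) (hC : CaseE A B) (hB : B = 1)
    (F M K : IntermediateField ℚ ℂ) [FiniteDimensional ℚ M] (hF : kk A B ≤ F) (h : F ≤ M)
    (a : ℕ) (hT : TorU_E A B F) (hGal : IsGalois F (IntermediateField.extendScalars h))
    (ha : Module.finrank F (IntermediateField.extendScalars h) = 2 ^ a) (hK : K ≤ M) :
    ∃ C : ℕ, ∀ (n : ℕ) (Q : IntermediateField ℚ ℂ), IsLayer 2 n Q →
      padicValNat 2 (classNo (K ⊔ Q)) ≤ C * (n + 1) ^ C := by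
  have : Fact (Nat.Prime 2) := ⟨Nat.prime_two⟩
  have hCQ : MUX.CQ A B := hC.toCQ
  have hmax := two_max3 hC hB
  obtain ⟨V, hV⟩ := vex hCQ _ hmax
  have hTor := MEC.c_TORE A B hC
  obtain ⟨d, hd0, h2d, hI⟩ := hG A B V hC hB hV hTor
  exact j_FING_E 2 1 d A B (idl 2) V (aboX 2 (Or.inl rfl) hCQ hmax V hV) hd0 h2d
    (fun h => by omega) (MEZ.unrH_E hC V) hTor (MEZ.nlex_E hC) hI F M K hF h a hT hGal ha hK

/-- THE MAIN THEOREM, `D = -4`, `p = 2` -/
theorem z_main42 (hKAP : T4_KAP) (hG : T4_INPG) (A B : ℤ) (hC : CaseE A B) (hB : B = 0)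
    (F M K : IntermediateField ℚ ℂ) [FiniteDimensional ℚ M] (hF : kk A B ≤ F) (h : F ≤ M)
    (a : ℕ) (hT : TorU_E A B F) (hGal : IsGalois F (IntermediateField.extendScalars h))
    (ha : Module.finrank F (IntermediateField.extendScalars h) = 2 ^ a) (hK : K ≤ M) :
    ∃ C : ℕ, ∀ (n : ℕ) (Q : IntermediateField ℚ ℂ), IsLayer 2 n Q →
      padicValNat 2 (classNo (K ⊔ Q)) ≤ C * (n + 1) ^ C := by
  have hCQ : MUX.CQ A B := hC.toCQ
  obtain ⟨P, hP, hmax⟩ := exists_isPN 2 Nat.prime_two A B 1 (by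
    rw [hC.hA, hB]
    norm_num)
  obtain ⟨V, hV⟩ := vex hCQ _ hmax
  have hTor := MEC.c_TORE A B hC
  obtain ⟨d, hd0, h2d, hd, hκ⟩ := hKAP A B hC hB
  exact j4_JFIN A B P V d hC hB hP hV hd0 h2d hTor (MEZ.nlex_E hC)
    (hG A B P V d hC hB hP hV hTor hd0 h2d hd hκ) F M K hF h a hT hGal ha hK

end Pool.Agent.ME2


end
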