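import Mathlib
import Pool.Agent.MVF.C129
import Pool.Agent.MVF.C130
import Pool.Agent.MVF.C134

/-! Parts: MUX.J_FINGU, MUX.J_ROTU, MUX.J_RAMU, MUX.JUAll, N2.IR_EPQ -/

namespace Pool.Agent.MUXJ.Rotu
end Pool.Agent.MUXJ.Rotu

section

/-!
# MUX, block J, module FINGU: the main theorem for all fields, from the inputs, `p = 2`, any prime above `2`
-/

set_option autoImplicit false

open NumberField IsDedekindDomain
open scoped nonZeroDivisors Pointwise

namespace Pool.Agent.MUXJ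

open _root_.MU3 _root_.Pool.Agent.MU3 _root_.Pool.Agent.MU3A _root_.Pool.Agent.MU3B _root_.Pool.Agent.RI _root_.Pool.Agent.RID
  _root_.Pool.Agent.MUX _root_.Pool.Agent.MUXK _root_.Pool.Agent.MUXE
open _root_.Pool.Agent.N2 (BasY SetY InpGY)

noncomputable section

namespace JFingU

/-- the case of a field `K₀` of odd degree over `k` -/
theorem cop (hRES : Sj_RES) (hSET : Sj_SETU) (hMAIN : S_MAINKY) (d : ℕ)
    (A B : ℤ) (P : Ideal (OO A B)) (V : ValuationSubring ℂ) (hc : AboU A B P V) (hd : d ≠ 0)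
    (hpd : ¬ 2 ∣ d) (hU : UnrH A B V) (hT : TorX A B)
    (hN : NLex A B) (hI : InpGY 2 d A B V) (K₀ : IntermediateField ℚ ℂ) [FiniteDimensional ℚ K₀]
    (hk : kk A B ≤ K₀) (hcop : ¬ 2 ∣ Module.finrank (kk A B) (IntermediateField.extendScalars hk))
    (hTU : TorU A B K₀)
    (Bn : ℕ → IntermediateField ℚ ℂ) (hlay : ∀ n, IsLayer 2 n (Bn n)) (hmono : Monotone Bn) :
    ∃ C : ℕ, ∀ n, padicValNat 2 (classNo (K₀ ⊔ Bn n)) ≤ C * (n + 1) ^ 2 := by
  have : Fact (Nat.Prime 2) := ⟨Nat.prime_two⟩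
  obtain ⟨K, hKfd, f, hSX, hf0, hpf, hdf, hKR, hHK⟩ :=
    hSET d A B P V hc hd hpd hU hT hN K₀ hk hcop hTU Bn hlay hmono
  have hfk : FiniteDimensional ℚ (kk A B) :=
    Module.Finite.of_injective (IntermediateField.inclusion hk).toLinearMap
      (IntermediateField.inclusion hk).injective
  have hfB : ∀ n, FiniteDimensional ℚ ↥(K ⊔ Bn n) := fun n => by
    obtain ⟨h1, -, -⟩ := LAY_thm 2 n (Bn n) (hlay n)
    exact IntermediateField.finiteDimensional_sup K (Bn n)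
  have hkn : ∀ n, kk A B ≤ K ⊔ Bn n := fun n => (hk.trans hSX.le).trans le_sup_left
  have hk₀n : ∀ n, kk A B ≤ K₀ ⊔ Bn n := fun n => hk.trans le_sup_left
  obtain ⟨S, c, c₀, n₁, hInp⟩ := hI f hf0 hpf hdf K₀ K Bn hSX hKR hHK hkn hk₀n hk
  obtain ⟨hchar, halg⟩ := hRES 2 V (by exact_mod_cast hc.hp)
  exact hMAIN (IsLocalRing.ResidueField V) 2 (kk A B) K₀ K Bn hSX hkn hk₀n hk S c c₀ n₁ hInp

end JFingU

open _root_.Pool.Agent.MUXJ.JFin (idl_ne_bot) in
theorem t_FINGU (h1 : Sj_RES) (h2 : Sj_LAY) (h3 : Sj_DIR) (h4 : Sj_GAL) (h5 : Sj_SETU)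
    (h6 : Sj_UP) (h7 : Sj_SUB) (h8 : Sj_OMGG) (h9 : Sj_FLD) (h10 : S_MAINKY) (h11 : P_SYL)
    (h12 : P_PEX) : Sj_FINGU := by
  intro d A B P V hc hd hpd hU hT hN hI F M K _ hkF hFM a hTU hgal hdeg hKM
  have hp : Fact (Nat.Prime 2) := ⟨Nat.prime_two⟩
  have hfF : FiniteDimensional ℚ F :=
    Module.Finite.of_injective (IntermediateField.inclusion hFM).toLinearMap
      (IntermediateField.inclusion hFM).injective
  obtain ⟨-, hTot⟩ := h9 A B hc.cq
  obtain ⟨Bn, hlay, hmono, huniq⟩ := h2 2 (Or.inl rfl)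
  obtain ⟨M₀, hM₀, hFR⟩ := h3 A B hc.cq hT F hTU
  obtain ⟨hgF, -, hab⟩ := h4 A B hT (idl M₀) (idl_ne_bot hM₀) F hkF hFR
  obtain ⟨F₀, hk₀, h₂, -, hn1, hg2, b, hb⟩ := h11 2 (kk A B) F hkF hgF hab
  have hfF₀ : FiniteDimensional ℚ F₀ :=
    Module.Finite.of_injective (IntermediateField.inclusion h₂).toLinearMap
      (IntermediateField.inclusion h₂).injective
  have hTU₀ : TorU A B F₀ := fun x hx => hTU x (h₂ hx)
  obtain ⟨F₁, hFF, hf1, hTU₁, -, hgF₁, hnFF, hnF1⟩ :=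
    h8 2 A B hc.cq (Or.inl rfl) hT hN F₀ hk₀ hTU₀ hn1
  obtain ⟨C, hC⟩ := JFingU.cop h1 h5 h10 d A B P V hc hd hpd hU hT hN hI F₁
    (hk₀.trans hFF) hnF1 hTU₁ Bn hlay hmono
  have hC0 : ∀ n, padicValNat 2 (classNo (F₀ ⊔ Bn n)) ≤ C * (n + 1) ^ 2 := fun n =>
    (h6 2 F₀ F₁ (Bn n) n hFF (hlay n) hgF₁ hnFF).trans (hC n)
  have hE := h12 2 b F₀ F Bn h₂ hg2 hb (hTot F₀ hk₀) hlay hmono ⟨C, 2, hC0⟩
  obtain ⟨C', j, hC'⟩ := h12 2 a F M Bn hFM hgal hdeg (hTot F hkF) hlay hmono hE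
  obtain ⟨C₁, hC₁⟩ := h7 2 K M hKM
  refine ⟨C' + C₁ + j, fun n Q hQ => ?_⟩
  have e1 := hC₁ n Q hQ
  rw [huniq n Q hQ] at e1 ⊢
  have e2 := hC' n
  have e3 : (n + 1) ^ j ≤ (n + 1) ^ (C' + C₁ + j) :=
    Nat.pow_le_pow_right (Nat.succ_pos n) (Nat.le_add_left _ _)
  have e4 : 1 ≤ (n + 1) ^ (C' + C₁ + j) := Nat.one_le_pow _ _ (Nat.succ_pos n)
  calc padicValNat 2 (classNo (K ⊔ Bn n)) ≤ padicValNat 2 (classNo (M ⊔ Bn n)) + C₁ := e1
    _ ≤ C' * (n + 1) ^ j + C₁ := by omega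
    _ ≤ C' * (n + 1) ^ (C' + C₁ + j) + C₁ * (n + 1) ^ (C' + C₁ + j) :=
        add_le_add (Nat.mul_le_mul_left _ e3) (Nat.le_mul_of_pos_right _ e4)
    _ = (C' + C₁) * (n + 1) ^ (C' + C₁ + j) := by rw [add_mul]
    _ ≤ (C' + C₁ + j) * (n + 1) ^ (C' + C₁ + j) :=
        Nat.mul_le_mul_right _ (Nat.le_add_right _ _)

end

end Pool.Agent.MUXJ


end

section

/-!
# MUX, block J (2 ramified): module ROTU, the second layer and the roots of unity of order 4
-/

set_option autoImplicit false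

open NumberField IsDedekindDomain

namespace Pool.Agent.MUXJ

open _root_.MU3 _root_.Pool.Agent.MU3 _root_.Pool.Agent.MU3A _root_.Pool.Agent.MU3B _root_.Pool.Agent.RI _root_.Pool.Agent.RID
  _root_.Pool.Agent.MUX _root_.Pool.Agent.MUXK

noncomputable section

namespace Rotu

open _root_.Pool.Agent.MU3I

/-- the field of `ζ + ζ⁻¹`, `ζ` of order `16`, is a second layer -/
lemma lay4 : IsLayer 2 2 (IntermediateField.adjoin ℚ {zt 16 + (zt 16)⁻¹}) := by
  have hM : (16 : ℕ) ≠ 0 := by norm_num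
  set ζ := zt 16 with hζ
  have hζp : IsPrimitiveRoot ζ 16 := Ilay.zt_prim _ hM
  have hζ0 : ζ ≠ 0 := hζp.ne_zero hM
  have hζc : (starRingEnd ℂ) ζ = ζ⁻¹ := Ilay.conj_root hM hζp.pow_eq_one
  set R := IntermediateField.adjoin ℚ {ζ + ζ⁻¹} with hR
  set c : ℂ →ₐ[ℚ] ℂ := (Complex.conjAe.toAlgHom).restrictScalars ℚ with hc
  have hcz : ∀ z : ℂ, c z = (starRingEnd ℂ) z := fun z => rfl
  have hRr : ∀ x ∈ R, c x = x := by
    have hRR : R ≤ (AlgHom.equalizer c (AlgHom.id ℚ ℂ)).toIntermediateField (fun x hx => by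
        have hx' : c x = x := hx
        show c x⁻¹ = x⁻¹
        rw [map_inv₀, hx']) := by
      rw [hR, IntermediateField.adjoin_simple_le_iff]
      show c (ζ + ζ⁻¹) = ζ + ζ⁻¹
      rw [map_add, map_inv₀, hcz, hζc, inv_inv, add_comm]
    exact fun x hx => hRR hx
  refine ⟨?_, fun z hz => hRr z hz, 4, ?_⟩
  · apply Ilay.deg ζ (2 ^ 2) hζ0
    · have hint : IsIntegral ℚ ζ := (hζp.isIntegral (Nat.pos_of_ne_zero hM)).tower_top
      rw [IntermediateField.adjoin.finrank hint,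
        ← Polynomial.cyclotomic_eq_minpoly_rat hζp (Nat.pos_of_ne_zero hM),
        Polynomial.natDegree_cyclotomic]
      decide
    · intro h1
      have h2 := hRr _ h1
      rw [hcz, hζc] at h2
      have h3 : ζ ^ 2 = 1 := by
        rw [pow_two]
        nth_rewrite 1 [← h2]
        exact inv_mul_cancel₀ hζ0
      have h4 := hζp.dvd_of_pow_eq_one 2 h3
      omega
  · have hζj : ζ ∈ IntermediateField.adjoin ℚ {z : ℂ | z ^ (2 ^ 4) = 1} := by
      apply IntermediateField.subset_adjoin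
      show ζ ^ 2 ^ 4 = 1
      norm_num
      exact hζp.pow_eq_one
    rw [hR, IntermediateField.adjoin_simple_le_iff]
    exact add_mem hζj (inv_mem hζj)

end Rotu

open _root_.Pool.Agent.MUXJ.Rotu _root_.Pool.Agent.MU3I in
theorem t_ROTU (h1 : Sj_LAY) : Sj_ROTU := by
  intro B K hB hBK hζ
  obtain ⟨η, hηK, hη⟩ := hζ
  obtain ⟨Bn, -, -, hu⟩ := h1 2 (Or.inl rfl)
  have hBR : B = IntermediateField.adjoin ℚ {zt 16 + (zt 16)⁻¹} :=
    (hu 2 B hB).trans (hu 2 _ lay4).symm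
  have hM : (16 : ℕ) ≠ 0 := by norm_num
  have hζp : IsPrimitiveRoot (zt 16) 16 := Ilay.zt_prim _ hM
  have hζ0 : zt 16 ≠ 0 := hζp.ne_zero hM
  refine ⟨zt 16, ?_, hζp⟩
  have ht : zt 16 + (zt 16)⁻¹ ∈ K := by
    apply hBK
    rw [hBR]
    exact IntermediateField.mem_adjoin_simple_self ℚ _
  have h8 : zt 16 ^ 8 = -1 := by
    have h : (zt 16 ^ 8) ^ 2 = 1 := by rw [← pow_mul]; exact hζp.pow_eq_one
    rcases sq_eq_one_iff.1 h with h | h
    · exact absurd (hζp.dvd_of_pow_eq_one 8 h) (by norm_num)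
    · exact h
  have hi2 : η ^ 2 = -1 := by
    have h : (η ^ 2) ^ 2 = 1 := by rw [← pow_mul]; exact hη.pow_eq_one
    rcases sq_eq_one_iff.1 h with h | h
    · exact absurd (hη.dvd_of_pow_eq_one 2 h) (by norm_num)
    · exact h
  set z := zt 16 with hz
  set w := z⁻¹ with hw
  have hzw : z * w = 1 := mul_inv_cancel₀ hζ0
  -- `t² - 2 = z² + w²` and `(t² - 2)² = 2`
  have hw8 : w ^ 8 = -1 := by rw [hw, inv_pow, h8]; norm_num
  have h44 : z ^ 4 + w ^ 4 = 0 := by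
    have h : z ^ 4 * (z ^ 4 + w ^ 4) = 0 := by
      have h1 : z ^ 4 * w ^ 4 = 1 := by rw [← mul_pow, hzw, one_pow]
      have h2 : z ^ 4 * z ^ 4 = -1 := by rw [← pow_add]; exact h8
      rw [mul_add, h1, h2]; norm_num
    rcases mul_eq_zero.1 h with h | h
    · exact absurd h (pow_ne_zero _ hζ0)
    · exact h
  set t := z + w with htd
  have ht2 : (t ^ 2 - 2) ^ 2 = 2 := by
    have h : (t ^ 2 - 2) ^ 2 = z ^ 4 + w ^ 4 + 2 * (z * w) ^ 2 + 4 * (z * w - 1) * (z ^ 2 + w ^ 2)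
        + 4 * (z * w - 1) ^ 2 := by
      rw [htd]; ring
    rw [h, h44, hzw]; norm_num
  have ht0 : t ≠ 0 := by
    intro h
    rw [h] at ht2
    norm_num at ht2
  have hs : ((t ^ 2 - 2) / t) ^ 2 = 4 - t ^ 2 := by
    rw [div_pow, ht2, div_eq_iff (pow_ne_zero 2 ht0)]
    linear_combination ht2
  have hd : (z - w) ^ 2 = (η * ((t ^ 2 - 2) / t)) ^ 2 := by
    rw [mul_pow, hi2, hs, htd]
    linear_combination (-4 : ℂ) * hzw
  have hsK : η * ((t ^ 2 - 2) / t) ∈ K := by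
    refine mul_mem hηK (div_mem (sub_mem (pow_mem ht 2) ?_) ht)
    exact ofNat_mem K 2
  have hdK : z - w ∈ K := by
    rcases sq_eq_sq_iff_eq_or_eq_neg.1 hd with h | h
    · rw [h]; exact hsK
    · rw [h]; exact neg_mem hsK
  have hzz : z = (t + (z - w)) * (2 : ℂ)⁻¹ := by
    rw [htd]; ring
  rw [hzz]
  exact mul_mem (add_mem ht hdK) (inv_mem (ofNat_mem K 2))

end

end Pool.Agent.MUXJ


end

section

/-!
# MUX, block J, module RAMU (helper14): the order of the inertia group of a field which contains the roots of unity of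
order 16, any prime above 2. After `J_RAMG.lean` (helper95).
-/

set_option autoImplicit false

open NumberField IsDedekindDomain
open scoped nonZeroDivisors Pointwise

namespace Pool.Agent.MUXJ

open _root_.MU3 _root_.Pool.Agent.MU3 _root_.Pool.Agent.MU3A _root_.Pool.Agent.MU3B _root_.Pool.Agent.RI _root_.Pool.Agent.RID
  _root_.Pool.Agent.MUX _root_.Pool.Agent.MUXK _root_.Pool.Agent.MUXE

noncomputable section

open _root_.Pool.Agent.MUXJ.JRAM _root_.Pool.Agent.MUXJ.JRAMG _root_.Pool.Agent.MU3E.RAM in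
theorem t_RAMU : Sj_RAMU := by
  intro A B P V hC F _ _ ⟨ζ, hζF, hζ⟩
  obtain ⟨p, hp2⟩ : ∃ p : ℕ, p = 2 := ⟨2, rfl⟩
  have hp : p.Prime := hp2 ▸ Nat.prime_two
  have hpm : ((p : ℕ) : OO A B) ∈ P := hp2 ▸ hC.mem
  obtain ⟨⟨φ, hφ⟩, hinj, hded, hpos, hint⟩ := te_RNG A B hC.cq
  have hcube : ((p : ℕ) : OO A B) ∉ P ^ 3 := not_cube hC.cq hded hp P hC.prime hpm
  have hw0 : IsIntegral ℤ (wC A B) := by
    rw [hint _ (wC_mem A B)]
    exact ⟨⟨0, 1⟩, by simp [emb]⟩
  have hfd : FiniteDimensional ℚ (kk A B) :=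
    IntermediateField.adjoin.finiteDimensional hw0.tower_top
  have hk : NumberField (kk A B) := ⟨⟩
  have hFQ : FiniteDimensional ℚ F := FiniteDimensional.trans ℚ (kk A B) F
  have hF : NumberField F := ⟨⟩
  have hIn : ∀ x : OO A B, IsIntegral ℤ (ek x) := by
    intro x
    have h2 : IsIntegral ℤ (emb x) := (hint (emb x) (MU3A.emb_mem x)).mpr ⟨x, rfl⟩
    have h3 : algebraMap (kk A B) ℂ (ek x) = emb x := rfl
    rw [← h3] at h2
    exact (isIntegral_algebraMap_iff (FaithfulSMul.algebraMap_injective (kk A B) ℂ)).mp h2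
  -- the ring isomorphism
  let e : OO A B →+* 𝓞 (kk A B) :=
    { toFun := fun x => ⟨ek x, hIn x⟩
      map_one' := by
        apply RingOfIntegers.ext
        apply Subtype.ext
        change emb 1 = 1
        rw [← hφ, map_one]
      map_mul' := by
        intro a b
        apply RingOfIntegers.ext
        apply Subtype.ext
        change emb (a * b) = emb a * emb b
        rw [← hφ, ← hφ, ← hφ, map_mul]
      map_zero' := by
        apply RingOfIntegers.ext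
        apply Subtype.ext
        change emb 0 = 0
        rw [← hφ, map_zero]
      map_add' := by
        intro a b
        apply RingOfIntegers.ext
        apply Subtype.ext
        change emb (a + b) = emb a + emb b
        rw [← hφ, ← hφ, ← hφ, map_add] }
  have he : ∀ x, (((e x : 𝓞 (kk A B)) : kk A B) : ℂ) = emb x := fun x => rfl
  have hesurj : Function.Surjective e := by
    intro x
    have h2 : IsIntegral ℤ ((x : kk A B) : ℂ) :=
      (RingOfIntegers.isIntegral_coe x).map (Algebra.ofId (kk A B) ℂ |>.restrictScalars ℤ)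
    obtain ⟨z, hz⟩ := (hint _ (x : kk A B).2).mp h2
    refine ⟨z, ?_⟩
    apply RingOfIntegers.ext
    apply Subtype.ext
    rw [he, hz]
  have heinj : Function.Injective e := by
    rw [injective_iff_map_eq_zero]
    intro x hx
    apply hinj
    rw [← he, hx]
    rfl
  have hpC : emb ((p : ℕ) : OO A B) = (p : ℂ) := by rw [← hφ, map_natCast]
  have hpne : (p : ℂ) ≠ 0 := by exact_mod_cast hp.ne_zero
  have hvP : ∀ x : OO A B, V.valuation (emb x) < 1 ↔ x ∈ P := fun x => by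
    rw [← hC.hV x, ValuationSubring.mem_nonunits_iff]
  obtain ⟨w, hw⟩ := exists_prime (V := V) (algebraMap F ℂ)
    (z := ((p : ℕ) : 𝓞 F)) (by
      intro h
      have h1 := congrArg (fun t : 𝓞 F => algebraMap F ℂ (t : F)) h
      have h2 : ((p : ℕ) : ℂ) = 0 := by
        simpa using h1
      exact hpne h2) (by
      have h2 : (algebraMap F ℂ) ((((p : ℕ) : 𝓞 F)) : F) = (p : ℂ) := by simp
      rw [h2, ← hpC, hvP]
      exact hpm)
  have hcomap : (w.asIdeal.under (𝓞 (kk A B))).comap e = P := by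
    ext z
    have hxw : z ∈ (w.asIdeal.under (𝓞 (kk A B))).comap e ↔ V.valuation (emb z) < 1 := by
      exact hw (algebraMap (𝓞 (kk A B)) (𝓞 F) (e z))
    rw [hxw, hvP]
  have hmap : P.map e = w.asIdeal.under (𝓞 (kk A B)) := by
    rw [← hcomap]
    exact Ideal.map_comap_of_surjective e hesurj _
  have hep : e ((p : ℕ) : OO A B) = ((p : ℕ) : 𝓞 (kk A B)) := map_natCast e p
  have hq1 : ((p : ℕ) : 𝓞 (kk A B)) ∈ w.asIdeal.under (𝓞 (kk A B)) := by
    rw [← hmap, ← hep]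
    exact Ideal.mem_map_of_mem e hpm
  have hqn : ∀ n : ℕ, ((p : ℕ) : OO A B) ∉ P ^ n →
      ((p : ℕ) : 𝓞 (kk A B)) ∉ (w.asIdeal.under (𝓞 (kk A B))) ^ n := by
    intro n hn
    rw [← hmap, ← Ideal.map_pow, ← hep, Ideal.mem_map_iff_of_surjective e hesurj]
    rintro ⟨z, hz, hz2⟩
    rw [heinj hz2] at hz
    exact hn hz
  have hord := val_cardG (k := kk A B) (algebraMap F ℂ) hw (w.under (𝓞 (kk A B))) rfl
    ((p : ℕ) : 𝓞 (kk A B))
  -- the value of `p` at the prime of `k`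
  set v := w.under (𝓞 (kk A B)) with hv
  have hvas : v.asIdeal = w.asIdeal.under (𝓞 (kk A B)) := rfl
  have hv1 : v.intValuation ((p : ℕ) : 𝓞 (kk A B)) ≤ WithZero.exp (-((1 : ℕ) : ℤ)) := by
    rw [HeightOneSpectrum.intValuation_le_pow_iff_mem, pow_one, hvas]
    exact hq1
  have hvn : ∀ n : ℕ, ((p : ℕ) : OO A B) ∉ P ^ n →
      WithZero.exp (-((n : ℕ) : ℤ)) < v.intValuation ((p : ℕ) : 𝓞 (kk A B)) := by
    intro n hn
    rw [← not_le, HeightOneSpectrum.intValuation_le_pow_iff_mem, hvas]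
    exact hqn n hn
  have hv0 : v.intValuation ((p : ℕ) : 𝓞 (kk A B)) ≠ 0 :=
    (lt_of_le_of_lt (zero_le) (hvn 3 hcube)).ne'
  obtain ⟨l, hl⟩ : ∃ l : ℤ, v.intValuation ((p : ℕ) : 𝓞 (kk A B)) = WithZero.exp l :=
    ⟨_, (WithZero.exp_log hv0).symm⟩
  rw [hl] at hv1 hord
  rw [hl] at hvn
  rw [WithZero.exp_le_exp] at hv1
  have hvn3 := hvn 3 hcube
  rw [WithZero.exp_lt_exp] at hvn3
  have hm1 : (16 : ℕ) = p ^ (3 + 1) := by rw [hp2]; norm_num
  have hm2 : (p ^ (3 + 1)).totient = 8 := by rw [hp2]; decide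
  have hζ' : IsPrimitiveRoot (⟨ζ, hζF⟩ : F) (p ^ (3 + 1)) := by
    rw [hm1] at hζ
    exact IsPrimitiveRoot.of_map_of_injective (f := algebraMap F ℂ) hζ
      (FaithfulSMul.algebraMap_injective F ℂ)
  have hcy := val_p w hp hζ'
  have hpF : (algebraMap (kk A B) F (((p : ℕ) : 𝓞 (kk A B)) : kk A B)) = (p : F) := by
    simp
  rw [hpF, hcy, hm2] at hord
  change 8 ∣ 2 * Nat.card {σ : F ≃ₐ[kk A B] F // ∀ x : F,
    V.valuation ((algebraMap F ℂ) x) ≤ 1 →
      V.valuation ((algebraMap F ℂ) (σ x) - (algebraMap F ℂ) x) < 1}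
  set N := Nat.card {σ : F ≃ₐ[kk A B] F // ∀ x : F,
    V.valuation ((algebraMap F ℂ) x) ≤ 1 →
      V.valuation ((algebraMap F ℂ) (σ x) - (algebraMap F ℂ) x) < 1} with hN
  have h0 : w.valuation F (1 - (⟨ζ, hζF⟩ : F)) ≠ 0 := by
    intro h0
    rw [h0] at hord
    have h5 : (WithZero.exp l) ^ N ≠ (0 : WithZero (Multiplicative ℤ)) :=
      pow_ne_zero _ WithZero.exp_ne_zero
    apply h5
    rw [← hord]
    apply zero_pow
    rw [← hm2]
    exact (Nat.totient_pos.2 (pow_pos hp.pos _)).ne'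
  rw [← WithZero.exp_log h0, ← WithZero.exp_nsmul, ← WithZero.exp_nsmul, WithZero.exp_inj,
    nsmul_eq_mul, nsmul_eq_mul] at hord
  have h6 : ((8 : ℕ) : ℤ) ∣ (N : ℤ) * l :=
    ⟨WithZero.log (w.valuation F (1 - (⟨ζ, hζF⟩ : F))), by linear_combination -hord⟩
  have h7 : ((8 : ℕ) : ℤ) ∣ ((2 * N : ℕ) : ℤ) := by
    push_cast at hv1 hvn3
    have h8 : l = -1 ∨ l = -2 := by omega
    have h9 : ((2 * N : ℕ) : ℤ) = 2 * (N : ℤ) := by
      push_cast
      ring
    rw [h9]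
    rcases h8 with h8 | h8
    · rw [h8, mul_neg_one, dvd_neg] at h6
      exact h6.mul_left 2
    · rw [h8, mul_neg, dvd_neg, mul_comm (N : ℤ) 2] at h6
      exact h6
  exact_mod_cast h7

end

end Pool.Agent.MUXJ


end

section

/-! # Block J for `p = 2`, any prime above `2`, assembled

`j_FINGU` takes the main theorem of block K for the structures `SetY`; `j_JFIN : SQ_JFIN` is the form of `DefsR2.lean`. -/

namespace Pool.Agent.MUXJ

open _root_.Pool.Agent.MUXK _root_.Pool.Agent.MUX _root_.Pool.Agent.N2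

theorem j_RAMU : Sj_RAMU := t_RAMU
theorem j_ROTU : Sj_ROTU := t_ROTU j_LAY
theorem j_LDU : Sj_LDU := t_LDU
theorem j_K0U : Sj_K0U := t_K0U
theorem j_SETU : Sj_SETU := t_SETU j_DIR j_RAMU j_INJ j_ROTU j_LDX j_LDU j_GAL j_LEVG j_K0U
theorem j_FINGU (h : S_MAINKY) : Sj_FINGU :=
  t_FINGU j_RES j_LAY j_DIR j_GAL j_SETU j_UP j_SUB j_OMGG j_FLD h MU3.u_SYL MU3.u_PEX

/-- the form of `DefsR2.lean` -/
theorem j_JFIN (h : S_MAINKY) : SQ_JFIN := by
  intro A B P V d hc hP hV hd hpd hU hT hN hI F M K _ hkF hFM a hTU hgal hdeg hKM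
  have h2 : (2 : ℂ) ∈ V.nonunits := by
    have h0 := (hV ((2 : ℕ) : MU3.OO A B)).2 hP.mem
    rwa [Pool.Agent.MUX.emb_natCast hc.toCQ] at h0
  exact j_FINGU h d A B P V ⟨hc.toCQ, hP.prime, hP.mem, hV, h2⟩ hd hpd hU hT hN hI F M K hkF hFM a
    hTU hgal hdeg hKM

end Pool.Agent.MUXJ


end

section

/-!
# MUX-2R, block IR, module EPQ: the weights and the odd character
-/

set_option autoImplicit false

namespace Pool.Agent.N2IR

open _root_.MU3 _root_.Pool.Agent.MU3 _root_.Pool.Agent.MU3A _root_.Pool.Agent.MU3B _root_.Pool.Agent.RI _root_.Pool.Agent.RID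
  _root_.Pool.Agent.MUX _root_.Pool.Agent.MUXK _root_.Pool.Agent.MUXI _root_.Pool.Agent.NSI _root_.Pool.Agent.N2
open _root_.Pool.Agent.MU3I (w3 zt)

noncomputable section

private lemma epq_lv_N2IR_EPQ (f : ℕ) : lvX 2 f 0 = 2 * (2 * f) := by
  simp [lvX, q0]
  ring

private lemma epq_cop_N2IR_EPQ {A B : ℤ} (f : ℕ) (x : OO A B) :
    IsCoprime x ((lvX 2 f 0 : ℕ) : OO A B) ↔ IsCoprime x ((2 * f : ℕ) : OO A B) := by
  rw [epq_lv_N2IR_EPQ]
  push_cast
  rw [IsCoprime.mul_right_iff, IsCoprime.mul_right_iff]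
  tauto

/-- a unit modulo `2` has square `1` modulo `2` -/
private lemma epq_sq_N2IR_EPQ {A : ℤ} (z : OO A 0) (h : IsCoprime z 2) : (2 : OO A 0) ∣ z ^ 2 - 1 := by
  obtain ⟨u, v, h⟩ := h
  have h1 : u.re * z.re + A * u.im * z.im + v.re * 2 = 1 := by
    have := congrArg QuadraticAlgebra.re h
    simpa [QuadraticAlgebra.re_ofNat, QuadraticAlgebra.im_ofNat, QuadraticAlgebra.re_one] using this
  have h2 : u.re * z.im + u.im * z.re + v.im * 2 = 0 := by
    have := congrArg QuadraticAlgebra.im h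
    simpa [QuadraticAlgebra.re_ofNat, QuadraticAlgebra.im_ofNat, QuadraticAlgebra.im_one] using this
  have h3 : ((z.re ^ 2 + A * z.im ^ 2 - 1 : ℤ) : ZMod 2) = 0 := by
    have g1 := congrArg (fun n : ℤ => (n : ZMod 2)) h1
    have g2 := congrArg (fun n : ℤ => (n : ZMod 2)) h2
    push_cast at g1 g2 ⊢
    have two : (2 : ZMod 2) = 0 := by decide
    rw [two, mul_zero, add_zero] at g1 g2
    generalize (z.re : ZMod 2) = a at *
    generalize (z.im : ZMod 2) = b at *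
    generalize (u.re : ZMod 2) = c at *
    generalize (u.im : ZMod 2) = d at *
    generalize (A : ZMod 2) = e at *
    revert a b c d e
    decide
  rw [ZMod.intCast_zmod_eq_zero_iff_dvd] at h3
  obtain ⟨k, hk⟩ := h3
  refine ⟨⟨k, z.re * z.im⟩, ?_⟩
  apply QuadraticAlgebra.ext
  · simp only [pow_two, QuadraticAlgebra.re_sub, QuadraticAlgebra.re_mul,
      QuadraticAlgebra.re_ofNat, QuadraticAlgebra.im_ofNat, QuadraticAlgebra.re_one]
    push_cast at hk
    linarith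
  · simp only [pow_two, QuadraticAlgebra.im_sub, QuadraticAlgebra.im_mul,
      QuadraticAlgebra.re_ofNat, QuadraticAlgebra.im_ofNat, QuadraticAlgebra.im_one]
    ring

/-- the fourth power of an element prime to `2` and `1` modulo `f`, `f` odd, is `1` modulo `4 f` -/
private lemma epq_four_N2IR_EPQ {A : ℤ} (f : ℕ) (hf : ¬ 2 ∣ f) (z : OO A 0) (h : IsCoprime z 2)
    (h1 : ((f : ℕ) : OO A 0) ∣ z - 1) : ((2 * (2 * f) : ℕ) : OO A 0) ∣ z ^ 4 - 1 := by
  have h2 : (4 : OO A 0) ∣ z ^ 4 - 1 := by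
    obtain ⟨s, hs⟩ := epq_sq_N2IR_EPQ z h
    refine ⟨s + s ^ 2, ?_⟩
    have : z ^ 2 = 1 + 2 * s := by linear_combination hs
    have h4 : z ^ 4 = (z ^ 2) ^ 2 := by ring
    rw [h4, this]
    ring
  have h3 : ((f : ℕ) : OO A 0) ∣ z ^ 4 - 1 := by
    have : z ^ 4 - 1 = (z - 1) * (z ^ 3 + z ^ 2 + z + 1) := by ring
    rw [this]
    exact h1.mul_right _
  have h5 : IsCoprime (4 : OO A 0) ((f : ℕ) : OO A 0) := by
    have h6 : Nat.Coprime 4 f := by
      have : Nat.Coprime 2 f := (Nat.Prime.coprime_iff_not_dvd Nat.prime_two).2 hf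
      have h7 := Nat.Coprime.pow_left 2 this
      simpa using h7
    have h7 := Nat.isCoprime_iff_coprime.2 h6
    have h8 := h7.map (Int.castRingHom (OO A 0))
    simpa using h8
  have h6 := h5.mul_dvd h2 h3
  have e : ((2 * (2 * f) : ℕ) : OO A 0) = 4 * ((f : ℕ) : OO A 0) := by
    push_cast
    ring
  rw [e]
  exact h6

private lemma epq_key_N2IR_EPQ {A : ℤ} (f : ℕ) (hf : ¬ 2 ∣ f) (e0 : OO A 0 → ℂ) (r : ℕ) (hr : ¬ 2 ∣ r)
    (h1 : e0 1 = 1) (hm : ∀ x y, e0 (x * y) = e0 x * e0 y)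
    (hp : ∀ x y, x - y ∈ idl (A := A) (B := 0) (lvX 2 f 0) → e0 x = e0 y)
    (hs : ∀ x, e0 x ≠ 0 ↔ IsCoprime x ((lvX 2 f 0 : ℕ) : OO A 0))
    (hr1 : ∀ x, e0 x ≠ 0 → e0 x ^ r = 1) (x y : OO A 0)
    (hx : IsCoprime x ((2 * f : ℕ) : OO A 0)) (hy : IsCoprime y ((2 * f : ℕ) : OO A 0))
    (hxy : x - y ∈ idl (A := A) (B := 0) f) : e0 x = e0 y := by
  rw [← epq_cop_N2IR_EPQ] at hx hy
  obtain ⟨a, b, hab⟩ := hy
  have ha : IsCoprime a ((lvX 2 f 0 : ℕ) : OO A 0) := ⟨y, b, by rw [mul_comm y a]; exact hab⟩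
  have hz : IsCoprime (x * a) ((lvX 2 f 0 : ℕ) : OO A 0) := hx.mul_left ha
  have hz2 : IsCoprime (x * a) 2 := by
    have h3 := hz
    rw [epq_lv_N2IR_EPQ] at h3
    push_cast at h3
    exact (IsCoprime.mul_right_iff.1 h3).1
  have hya : e0 (y * a) = 1 := by
    rw [← h1]
    refine hp _ _ ?_
    rw [Ideal.mem_span_singleton]
    exact ⟨-b, by linear_combination hab⟩
  have hfz : ((f : ℕ) : OO A 0) ∣ x * a - 1 := by
    rw [Ideal.mem_span_singleton] at hxy
    obtain ⟨c, hc⟩ := hxy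
    refine ⟨c * a - b * 4, ?_⟩
    rw [epq_lv_N2IR_EPQ] at hab
    push_cast at hab
    linear_combination a * hc + hab
  have h4 : e0 (x * a) ^ 4 = 1 := by
    have h5 : e0 ((x * a) ^ 4) = 1 := by
      rw [← h1]
      refine hp _ _ ?_
      rw [Ideal.mem_span_singleton, epq_lv_N2IR_EPQ]
      exact epq_four_N2IR_EPQ f hf _ hz2 hfz
    have h6 : (x * a) ^ 4 = (x * a) * (x * a) * ((x * a) * (x * a)) := by ring
    rw [h6, hm, hm] at h5
    rw [← h5]
    ring
  have h5 : e0 (x * a) = 1 := by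
    have h6 := hr1 _ ((hs _).2 hz)
    rw [← orderOf_eq_one_iff]
    have h7 := orderOf_dvd_of_pow_eq_one h4
    have h8 := orderOf_dvd_of_pow_eq_one h6
    have h9 : Nat.Coprime 4 r := by
      have : Nat.Coprime 2 r := (Nat.Prime.coprime_iff_not_dvd Nat.prime_two).2 hr
      have h7 := Nat.Coprime.pow_left 2 this
      simpa using h7
    exact Nat.eq_one_of_dvd_coprimes h9 h7 h8
  calc e0 x = e0 x * e0 (y * a) := by rw [hya, mul_one]
    _ = e0 y * e0 (x * a) := by rw [hm, hm]; ring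
    _ = e0 y := by rw [h5, mul_one]

/-- (EPQ) the weights and the odd character -/
theorem tr_EPQ : Sr_EPQ := by
  intro A B P V f hS e0 r hr h1 hn hm hp hs hr1
  obtain rfl : B = 0 := hS.case.b0
  obtain ⟨κ, hκ⟩ := hS.kap
  have hle : idl (A := A) (B := 0) (2 * f) ≤ idl (A := A) (B := 0) f := by
    rw [Ideal.span_singleton_le_span_singleton]
    exact ⟨2, by push_cast; ring⟩
  have hcf : ∀ x : OO A 0, IsCoprime x ((2 * f : ℕ) : OO A 0) →
      IsCoprime (sp x) (idl (A := A) (B := 0) f) := by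
    intro x hx
    rw [Ideal.isCoprime_span_singleton_iff]
    push_cast at hx
    exact (IsCoprime.mul_right_iff.1 hx).2
  have hkey := epq_key_N2IR_EPQ f hS.fp e0 r hr h1 hm hp hs hr1
  have hsx : ∀ x : OO A 0, e0 x ≠ 0 ↔ IsCoprime x ((2 * f : ℕ) : OO A 0) := fun x =>
    (hs x).trans (epq_cop_N2IR_EPQ f x)
  have hκ0 : ∀ x : OO A 0, IsCoprime x ((2 * f : ℕ) : OO A 0) → (κ x : ℂ) ≠ 0 := by
    intro x hx
    rcases hκ.unit x (hcf x hx) with h | h <;> rw [h] <;> norm_num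
  have hV2 : V.valuation (2 : ℂ) ≤ 1 := by
    rw [ValuationSubring.valuation_le_one_iff]
    have : (2 : ℂ) = 1 + 1 := by norm_num
    rw [this]
    exact V.add_mem _ _ V.one_mem V.one_mem
  refine ⟨fun x => (κ x : ℂ), fun x => e0 x * (κ x : ℂ), ⟨?_, ?_, ?_⟩, ⟨⟨?_, ?_, ?_, ?_, ?_⟩, ?_⟩,
    ?_, fun x _ => rfl⟩
  · intro x
    have h2 : -x = -1 * x := by ring
    simp only [h2, hκ.mul, hκ.neg]
    push_cast
    ring
  · intro x y hxy
    simp only [hκ.per x y (hle hxy)]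
  · intro x hx
    rcases hκ.unit x (hcf x hx) with h | h
    · simp [h]
    · simp only [h]
      have h2 : ((-1 : ℤ) : ℂ) - 1 = -2 := by push_cast; ring
      rw [h2, Valuation.map_neg, pow_two]
      exact mul_le_of_le_one_left' hV2
  · simp only [h1, hκ.one]
    simp
  · intro x y
    simp only [hm, hκ.mul]
    push_cast
    ring
  · intro x y hxy
    simp only [hκ.per x y (hle hxy)]
    by_cases hx : IsCoprime x ((2 * f : ℕ) : OO A 0)
    · have hy : IsCoprime y ((2 * f : ℕ) : OO A 0) := by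
        rw [Ideal.mem_span_singleton] at hxy
        obtain ⟨c, hc⟩ := hxy
        have h2 : y = x + ((2 * f : ℕ) : OO A 0) * (-c) := by linear_combination -hc
        rw [h2]
        exact IsCoprime.add_mul_left_left hx _
      rw [hkey x y hx hy (hle hxy)]
    · have hy : ¬ IsCoprime y ((2 * f : ℕ) : OO A 0) := by
        intro hy
        apply hx
        rw [Ideal.mem_span_singleton] at hxy
        obtain ⟨c, hc⟩ := hxy
        have h2 : x = y + ((2 * f : ℕ) : OO A 0) * c := by linear_combination hc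
        rw [h2]
        exact IsCoprime.add_mul_left_left hy _
      rw [← hsx, not_not] at hx hy
      rw [hx, hy]
  · intro x
    rw [Ideal.isCoprime_span_singleton_iff, ← hsx, mul_ne_zero_iff]
    constructor
    · exact fun h => h.1
    · exact fun h => ⟨h, hκ0 x ((hsx x).1 h)⟩
  · simp only [hn, hκ.neg]
    push_cast
    ring
  · intro x y hx hy hxy
    simp only [hκ.per x y hxy, hkey x y hx hy hxy]
  · intro x hx
    have h2 := left_ne_zero_of_mul hx
    rcases hκ.unit x (hcf x ((hsx x).1 h2)) with h | h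
    · simp only [h]
      push_cast
      rw [mul_one, mul_comm 2 r, pow_mul, hr1 x h2, one_pow]
    · simp only [h]
      push_cast
      rw [mul_pow, mul_comm 2 r, pow_mul, hr1 x h2, one_pow, mul_comm r 2, pow_mul]
      norm_num

end

end Pool.Agent.N2IR


end
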