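import Mathlib
import Pool.Agent.MVF.C096
import Pool.Agent.MVF.C110
import Pool.Agent.MVF.C115
import Pool.Agent.MVF.C118
import Pool.Agent.MVF.C120

/-! Parts: NS.I_TH, ME.N.I_TH, ME.N.I_TSH, ME.N.I_EPS, ME.N.I_SUB, NS.I_NR1, NS.I_TSH, NS.I_E0, NS.I_FOU, NS.IAll -/

namespace Pool.Agent.NSI.Fou41
end Pool.Agent.NSI.Fou41
namespace Pool.Agent.NSI.TH
end Pool.Agent.NSI.TH

section

/-!
# MUX-NS, block IN: module TH, the sums `That_j`, no condition on the decomposition of `p` (helper73)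
-/

set_option autoImplicit false

namespace Pool.Agent.NSI

open _root_.MU3 _root_.Pool.Agent.MU3 _root_.Pool.Agent.MU3A _root_.Pool.Agent.MU3B _root_.Pool.Agent.RI _root_.Pool.Agent.RID
  _root_.Pool.Agent.MUX _root_.Pool.Agent.MUXK _root_.Pool.Agent.MUXI _root_.Pool.Agent.NS
open _root_.Pool.Agent.MU3I (w3 zt)

noncomputable section

namespace TH

lemma q0_cases {p : ℕ} (h : p = 2 ∨ p = 3) : (p = 3 ∧ q0 p = 3) ∨ (p = 2 ∧ q0 p = 4) := by
  rcases h with rfl | rfl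
  · exact Or.inr ⟨rfl, rfl⟩
  · exact Or.inl ⟨rfl, rfl⟩

/-- norm prime to `p` and prime to `f`: prime to the level -/
lemma cop_lv {p : ℕ} {A B : ℤ} {f : ℕ} (hp : p = 2 ∨ p = 3) (n : ℕ) (x : OO A B)
    (hx : ¬ (p : ℤ) ∣ nm x) (hf : IsCoprime x ((f : ℕ) : OO A B)) :
    IsCoprime x ((lvX p f n : ℕ) : OO A B) := by
  have hpr : p.Prime := by
    rcases hp with rfl | rfl
    · exact Nat.prime_two
    · exact Nat.prime_three
  have h1 : IsCoprime (nm x) (p : ℤ) :=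
    ((Prime.coprime_iff_not_dvd (Nat.prime_iff_prime_int.1 hpr)).2 hx).symm
  have h2 : IsCoprime ((nm x : ℤ) : OO A B) (((p : ℕ) : ℤ) : OO A B) := h1.intCast
  rw [← MUXI.TH.mul_star_nm, Int.cast_natCast] at h2
  have h3 : IsCoprime x ((p : ℕ) : OO A B) := h2.of_mul_left_left
  have h4 : IsCoprime x ((q0 p : ℕ) : OO A B) := by
    rcases q0_cases hp with ⟨h5, h6⟩ | ⟨h5, h6⟩
    · rw [h6]
      rw [h5] at h3
      exact h3
    · rw [h6]
      rw [h5] at h3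
      have h7 : ((4 : ℕ) : OO A B) = ((2 : ℕ) : OO A B) * ((2 : ℕ) : OO A B) := by
        push_cast
        norm_num
      rw [h7]
      exact h3.mul_right h3
  unfold lvX
  rw [Nat.cast_mul, Nat.cast_mul, Nat.cast_pow]
  exact (hf.mul_right h4).mul_right h3.pow_right

lemma cop_f {A B : ℤ} {f : ℕ} {g : Ideal (OO A B)} (hg : g ≤ idl f) {x : OO A B}
    (h : IsCoprime (sp x) g) : IsCoprime x ((f : ℕ) : OO A B) := by
  have h1 : IsCoprime (sp x) (idl (A := A) (B := B) f) := by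
    rw [Ideal.isCoprime_iff_sup_eq] at h ⊢
    rw [eq_top_iff, ← h]
    exact sup_le_sup_left hg _
  exact Ideal.isCoprime_span_singleton_iff _ _ |>.1 h1

/-! ### One summand -/

open Classical in
lemma _root_.Pool.Agent.NSI.TH.term {p : ℕ} {A B : ℤ} {f : ℕ}
    (hS : SetL p A B f) (n : ℕ) {e0 e w : OO A B → ℂ} {s : ℤ} {g : Ideal (OO A B)} (hg : g ≤ idl f)
    (hE : IsEI g e) (hs : s = 1 ∨ s = -1) (hs2 : p = 2 → s = 1)
    (hes : ∀ x, IsCoprime x ((lvX p f 0 : ℕ) : OO A B) →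
        e0 x * w x = e x * (if s = 1 then 1 else (w3 (nm x) : ℂ)))
    (N : ℕ) (j : ℕ) (kp d c : ℂ) (x : OO A B) :
    (if IsCoprime x ((lvX p f n : ℕ) : OO A B) ∧
      (((q0 p * p ^ n : ℕ) : ℤ) ∣ nm x * N - (1 + (q0 p : ℤ)) ^ j ∨
      ((q0 p * p ^ n : ℕ) : ℤ) ∣ nm x * N + (1 + (q0 p : ℤ)) ^ j) then
      (kp * e0 x) * (w x * c * d) else 0) =
    (kp * c * (if s = 1 then 1 else (w3 N : ℂ))) *
      ((if ((q0 p * p ^ n : ℕ) : ℤ) ∣ nm x * N - (1 + (q0 p : ℤ)) ^ j then e x * d else 0) +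
      s * (if ((q0 p * p ^ n : ℕ) : ℤ) ∣ nm x * N - -(1 + (q0 p : ℤ)) ^ j then e x * d else 0)) := by
  set t : ℤ := (1 + (q0 p : ℤ)) ^ j with ht
  have ht1 : (q0 p : ℤ) ∣ t - 1 := MUXI.TH.pow_mod _ _
  have hM : (q0 p : ℤ) ∣ ((q0 p * p ^ n : ℕ) : ℤ) := ⟨(p : ℤ) ^ n, by push_cast; ring⟩
  have hpq : (p : ℤ) ∣ (q0 p : ℤ) := by
    rcases q0_cases hS.hp with ⟨h4, h5⟩ | ⟨h4, h5⟩
    · rw [h4, show q0 3 = 3 from rfl]
    · rw [h4, show q0 2 = 4 from rfl]; norm_num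
  have hp2 : (p : ℤ) = 3 ∨ (p : ℤ) = 2 := by
    rcases q0_cases hS.hp with ⟨h4, h5⟩ | ⟨h4, h5⟩
    · rw [h4]; left; rfl
    · rw [h4]; right; rfl
  have hq2 : (q0 p : ℤ) = 3 ∨ (q0 p : ℤ) = 4 := by
    rcases q0_cases hS.hp with ⟨h4, h5⟩ | ⟨h4, h5⟩
    · rw [h5]; left; rfl
    · rw [h5]; right; rfl
  -- not prime to the level, then `e x = 0`
  have hzero : ∀ u : ℤ, (p : ℤ) ∣ nm x * N - u → ¬ (p : ℤ) ∣ u →
      ¬ IsCoprime x ((lvX p f n : ℕ) : OO A B) → e x = 0 := by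
    intro u hu hnu hnc
    by_contra h0
    apply hnc
    refine cop_lv hS.hp n x ?_ (cop_f hg ((hE.supp x).1 h0))
    intro h1
    apply hnu
    have h2 : (p : ℤ) ∣ nm x * N := h1.mul_right _
    have h4 := dvd_sub h2 hu
    rwa [sub_sub_cancel] at h4
  have hlv : IsCoprime x ((lvX p f n : ℕ) : OO A B) →
      IsCoprime x ((lvX p f 0 : ℕ) : OO A B) := by
    intro h1
    refine h1.of_isCoprime_of_dvd_right ⟨((p ^ n : ℕ) : OO A B), ?_⟩
    unfold lvX
    push_cast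
    ring
  have hnt : ¬ (p : ℤ) ∣ t := by
    intro h1
    have h2 := hpq.trans ht1
    have h4 := dvd_sub h1 h2
    rw [sub_sub_cancel] at h4
    rcases hp2 with h5 | h5 <;> rw [h5] at h4 <;> omega
  have hnt' : ¬ (p : ℤ) ∣ -t := fun h1 => hnt ((dvd_neg).1 h1)
  have hnb : ((q0 p * p ^ n : ℕ) : ℤ) ∣ nm x * N - t →
      ¬ ((q0 p * p ^ n : ℕ) : ℤ) ∣ nm x * N - -t := by
    intro h1 h2
    have h4 := hM.trans (dvd_sub h2 h1)
    have h5 : nm x * N - -t - (nm x * N - t) = 2 * (t - 1) + 2 := by ring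
    rw [h5] at h4
    have h6 := (Int.dvd_add_right (ht1.mul_left 2)).1 h4
    rcases hq2 with h7 | h7 <;> rw [h7] at h6 <;> omega
  by_cases h1 : ((q0 p * p ^ n : ℕ) : ℤ) ∣ nm x * N - t
  · rw [if_pos h1, if_neg (hnb h1), mul_zero, add_zero]
    by_cases hc : IsCoprime x ((lvX p f n : ℕ) : OO A B)
    · rw [if_pos ⟨hc, Or.inl h1⟩]
      have h2 := hes x (hlv hc)
      have h4 : (if s = 1 then 1 else (w3 (nm x) : ℂ)) = (if s = 1 then 1 else (w3 N : ℂ)) := by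
        by_cases hs1 : s = 1
        · rw [if_pos hs1, if_pos hs1]
        · rw [if_neg hs1, if_neg hs1]
          rcases q0_cases hS.hp with ⟨h5, h6⟩ | ⟨h5, h6⟩
          · have h7 := dvd_add (hM.trans h1) ht1
            rw [sub_add_sub_cancel, h6] at h7
            rw [MUXI.TH.w3_mul_eq (by exact_mod_cast h7)]
          · exact absurd (hs2 h5) hs1
      rw [h4] at h2
      linear_combination (kp * c * d) * h2
    · rw [if_neg (fun h2 => hc h2.1), hzero t ((hpq.trans hM).trans h1) hnt hc, zero_mul, mul_zero]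
  · by_cases h2 : ((q0 p * p ^ n : ℕ) : ℤ) ∣ nm x * N - -t
    · rw [if_neg h1, if_pos h2, zero_add]
      have h2' : ((q0 p * p ^ n : ℕ) : ℤ) ∣ nm x * N + t := by
        rwa [sub_neg_eq_add] at h2
      by_cases hc : IsCoprime x ((lvX p f n : ℕ) : OO A B)
      · rw [if_pos ⟨hc, Or.inr h2'⟩]
        have h3 := hes x (hlv hc)
        have h4 : (if s = 1 then 1 else (w3 (nm x) : ℂ)) =
            (if s = 1 then 1 else (w3 N : ℂ)) * s := by
          rcases hs with hs1 | hs1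
          · rw [if_pos hs1, if_pos hs1, hs1]; simp
          · have hs3 : s ≠ 1 := by rw [hs1]; decide
            rw [if_neg hs3, if_neg hs3]
            rcases q0_cases hS.hp with ⟨h5, h6⟩ | ⟨h5, h6⟩
            · have h7 := dvd_sub (hM.trans h2') ht1
              rw [show nm x * N + t - (t - 1) = nm x * N + 1 by ring, h6] at h7
              rw [MUXI.TH.w3_mul_neg (by exact_mod_cast h7), hs1]
              push_cast
              ring
            · exact absurd (hs2 h5) hs3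
        rw [h4] at h3
        linear_combination (kp * c * d) * h3
      · rw [if_neg (fun h3 => hc h3.1), hzero (-t) ((hpq.trans hM).trans h2) hnt' hc, zero_mul,
          mul_zero, mul_zero]
    · rw [if_neg h1, if_neg h2, if_neg]
      · ring
      · rintro ⟨-, h4 | h4⟩
        · exact h1 h4
        · apply h2
          rwa [sub_neg_eq_add]

lemma q0_ne {p : ℕ} (h : p = 2 ∨ p = 3) : q0 p ≠ 0 := by
  rcases q0_cases h with ⟨-, h5⟩ | ⟨-, h5⟩ <;> rw [h5] <;> norm_num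

lemma _root_.Pool.Agent.NSI.TH.lvX_ne {p : ℕ} {A B : ℤ} {f : ℕ} (hS : SetL p A B f) (n : ℕ) : lvX p f n ≠ 0 := by
  have hp : p ≠ 0 := by
    rcases q0_cases hS.hp with ⟨h5, -⟩ | ⟨h5, -⟩ <;> rw [h5] <;> norm_num
  unfold lvX
  exact mul_ne_zero (mul_ne_zero hS.f0 (q0_ne hS.hp)) (pow_ne_zero _ hp)

lemma _root_.Pool.Agent.NSI.TH.muX_ne {p : ℕ} {A B : ℤ} {f : ℕ}
    (hS : SetL p A B f) {ι : Type} (R : Reps A B (p * f) ι) (i : ι) : muX R i ≠ 0 := by
  have h1 : nI (R.b i) ≠ 0 := by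
    intro h0
    have h2 := R.cop i
    rw [h0, Nat.coprime_zero_left] at h2
    have h3 : p = 1 := Nat.eq_one_of_mul_eq_one_right h2
    rcases q0_cases hS.hp with ⟨h5, -⟩ | ⟨h5, -⟩ <;> omega
  unfold muX
  refine div_ne_zero (mul_ne_zero (R.nl i).om_ne ?_) (R.nl R.i0).om_ne
  exact_mod_cast h1

end TH

open _root_.Pool.Agent.NSI.TH in
/-- (TH) the sums `That_j` -/
theorem tn_TH (h1 : Sn_TSH) : Sn_TH := by
  classical
  intro p A B f hS g hlv hg ι _ R n G _ _ γ Δ _ X hM χ e0 kp c w e s _ _ hE hs hs2 hes hχ j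
  have hfin : Finite (OO A B ⧸ idl (A := A) (B := B) (lvX p f n)) := MUXI.TH.finR _ (_root_.Pool.Agent.NSI.TH.lvX_ne hS n)
  rw [MUXI.TH.sum_disj (fun δ : Δ => X (γ ^ j * (δ : G)))
    (fun q δ δ' h2 h4 => Subtype.ext (mul_left_cancel (hM.uniq q _ _ h2 h4)))
    (fun δ => (((χ δ)⁻¹ : ℂˣ) : ℂ)) _ (fun q => kp q.1 * e0 (Quotient.out q.2))
    (fun δ q hq => hχ δ j q hq)]
  have hind : ∀ q : ι × (OO A B ⧸ idl (A := A) (B := B) (lvX p f n)),
      (if ∃ δ : Δ, q ∈ X (γ ^ j * (δ : G)) then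
        kp q.1 * e0 (Quotient.out q.2) * (w (Quotient.out q.2) *
        c q.1 * dlX (R.L q.1) (aX p f) (pt R (lvX p f n) q.1 (Quotient.out q.2))) else 0) =
      kp q.1 * c q.1 * (if s = 1 then 1 else (w3 (nI (R.b q.1)) : ℂ)) *
      ((if ((q0 p * p ^ n : ℕ) : ℤ) ∣ nm (Quotient.out q.2) * nI (R.b q.1) -
          (1 + (q0 p : ℤ)) ^ j then
        e (Quotient.out q.2) * dlX (R.L q.1) (aX p f)
          (pt R (lvX p f n) q.1 (Quotient.out q.2)) else 0) +
      s * (if ((q0 p * p ^ n : ℕ) : ℤ) ∣ nm (Quotient.out q.2) * nI (R.b q.1) -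
          -(1 + (q0 p : ℤ)) ^ j then
        e (Quotient.out q.2) * dlX (R.L q.1) (aX p f)
          (pt R (lvX p f n) q.1 (Quotient.out q.2)) else 0)) := by
    intro q
    rw [if_congr (MUXI.TH.mem_iff hM q j) rfl rfl]
    exact _root_.Pool.Agent.NSI.TH.term hS n hg hE hs hs2 hes _ j _ _ _ _
  rw [finsum_congr hind, MUXI.TH.sum_pairs]
  unfold STX
  rw [Finset.mul_sum, ← Finset.sum_add_distrib]
  refine Finset.sum_congr rfl fun i _ => ?_
  have hT := h1 p A B f hS g hlv ι R n e hE i ((1 + (q0 p : ℤ)) ^ j)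
  have hT' := h1 p A B f hS g hlv ι R n e hE i (-(1 + (q0 p : ℤ)) ^ j)
  rw [MUXI.TH.comb_sum (kp i * c i * (if s = 1 then 1 else (w3 (nI (R.b i)) : ℂ))) (s : ℂ) _ _ _
    (fun x => rfl), ← hT, ← hT']
  have hmu := _root_.Pool.Agent.NSI.TH.muX_ne hS R i
  unfold kkC sumMod
  field_simp

end

end Pool.Agent.NSI


end

section

/-!
# MUX-NS, block IN: module TH, the sums `That_j`, no condition on the decomposition of `p` (frame ME: the sum over the `x ≡ 1` modulo `2` is `1/r` times the sum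
over all `x`)
-/

set_option autoImplicit false

namespace Pool.Agent.NSI

open _root_.MU3 _root_.Pool.Agent.MU3 _root_.Pool.Agent.MU3A _root_.Pool.Agent.MU3B _root_.Pool.Agent.RI _root_.Pool.Agent.RID
  _root_.Pool.Agent.MUX _root_.Pool.Agent.ME _root_.Pool.Agent.MUXK _root_.Pool.Agent.MUXI _root_.Pool.Agent.NS
open _root_.Pool.Agent.MU3I (w3 zt)

noncomputable section

namespace TH

/-! ### One summand -/

lemma muX_ne_E {p : ℕ} {A B : ℤ} {f : ℕ}
    (hS : SetL p A B f) {ι : Type} (R : RepsE A B (p * f) ι) (i : ι) : muXE R i ≠ 0 := by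
  have h1 : nI (R.b i) ≠ 0 := by
    intro h0
    have h2 := R.cop i
    rw [h0, Nat.coprime_zero_left] at h2
    have h3 : p = 1 := Nat.eq_one_of_mul_eq_one_right h2
    rcases _root_.Pool.Agent.NSI.TH.q0_cases hS.hp with ⟨h5, -⟩ | ⟨h5, -⟩ <;> omega
  unfold muXE
  refine div_ne_zero (mul_ne_zero (R.nl i).om_ne ?_) (R.nl R.i0).om_ne
  exact_mod_cast h1

lemma ptE_mul {A B : ℤ} (hC : CQ A B) {n : ℕ} {ι : Type} (R : RepsE A B n ι) (m : ℕ) (i : ι)
    (z x : OO A B) : ptE R m i (z * x) = emb z * ptE R m i x := by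
  unfold ptE
  rw [_root_.Pool.Agent.MUX.emb_mul hC]
  ring

/-- norms of congruent elements are congruent -/
lemma nm_per {A B : ℤ} {m : ℕ} {x y : OO A B} (h : x - y ∈ idl (A := A) (B := B) m) :
    (m : ℤ) ∣ nm x - nm y := by
  obtain ⟨t, ht⟩ := Ideal.mem_span_singleton.1 h
  obtain ⟨h1, h2⟩ := (MUXI.TH.nat_dvd_iff m (x - y)).1 ⟨t, ht⟩
  rw [QuadraticAlgebra.re_sub] at h1
  rw [QuadraticAlgebra.im_sub] at h2
  obtain ⟨s, hs⟩ := h1
  obtain ⟨t', ht'⟩ := h2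
  unfold nm
  have e1 : x.re = y.re + m * s := by linarith
  have e2 : x.im = y.im + m * t' := by linarith
  rw [e1, e2]
  refine ⟨2 * y.re * s + m * s ^ 2 + B * (y.re * t' + s * y.im + m * s * t') -
    A * (2 * y.im * t' + m * t' ^ 2), ?_⟩
  ring

end TH

open _root_.Pool.Agent.NSI.TH in
open Classical in
/-- (TH) the sums `That_j` -/
theorem tn_TH_E (h1 : Sn_TSH_E) (hP : Pool.Agent.MUXI.Si_PTP_E) : Sn_TH_E := by
  intro p A B f hS hE2 h2 g hlv hg ι _ R n G _ _ γ Δ _ X hM χ e0 kp c w e s _ _ hE hs hs2 hes hχ j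
  have hfin : Finite (OO A B ⧸ idl (A := A) (B := B) (lvX p f n)) := MUXI.TH.finR _ (_root_.Pool.Agent.NSI.TH.lvX_ne hS n)
  rw [MUXI.TH.sum_disj (fun δ : Δ => X (γ ^ j * (δ : G)))
    (fun q δ δ' h2 h4 => Subtype.ext (mul_left_cancel (hM.uniq q _ _ h2 h4)))
    (fun δ => (((χ δ)⁻¹ : ℂˣ) : ℂ)) _ (fun q => kp q.1 * e0 (Quotient.out q.2))
    (fun δ q hq => hχ δ j q hq)]
  set GG : ι → OO A B → ℂ := fun i x =>
      kp i * c i * (if s = 1 then 1 else (w3 (nI (R.b i)) : ℂ)) *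
      ((if ((q0 p * p ^ n : ℕ) : ℤ) ∣ nm x * nI (R.b i) -
          (1 + (q0 p : ℤ)) ^ j then
        e x * dlX (R.L i) (aX p f) (ptE R (lvX p f n) i x) else 0) +
      s * (if ((q0 p * p ^ n : ℕ) : ℤ) ∣ nm x * nI (R.b i) -
          -(1 + (q0 p : ℤ)) ^ j then
        e x * dlX (R.L i) (aX p f) (ptE R (lvX p f n) i x) else 0)) with hGG
  have hind : ∀ q : ι × (OO A B ⧸ idl (A := A) (B := B) (lvX p f n)),
      (if ∃ δ : Δ, q ∈ X (γ ^ j * (δ : G)) then
        kp q.1 * e0 (Quotient.out q.2) * (w (Quotient.out q.2) *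
        c q.1 * dlX (R.L q.1) (aX p f) (ptE R (lvX p f n) q.1 (Quotient.out q.2))) else 0) =
      if (Quotient.out q.2 : OO A B) - 1 ∈ idl (A := A) (B := B) 2 then
        GG q.1 (Quotient.out q.2) else 0 := by
    intro q
    rw [if_congr (MUXI.TH.mem_iff_E hM q j) rfl rfl, ite_and]
    refine if_congr Iff.rfl ?_ rfl
    exact _root_.Pool.Agent.NSI.TH.term hS n hg hE.toIsEI hs hs2 hes _ j _ _ _ _
  have hlvd : ((q0 p * p ^ n : ℕ) : ℤ) ∣ ((lvX p f n : ℕ) : ℤ) := ⟨(f : ℤ), by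
    unfold lvX; push_cast; ring⟩
  have hq02 : p = 2 → (2 : ℤ) ∣ ((q0 p * p ^ n : ℕ) : ℤ) := by
    rintro rfl
    exact ⟨2 * 2 ^ n, by
      rw [show q0 2 = 4 from rfl]; push_cast; ring⟩
  have hle0 : idl (A := A) (B := B) (lvX p f n) ≤ idl (A := A) (B := B) (lvX p f 0) := by
    refine Ideal.span_singleton_le_span_singleton.2 ⟨((p ^ n : ℕ) : OO A B), ?_⟩
    unfold lvX
    push_cast
    ring
  have h2n : 2 ∣ lvX p f n := by
    refine h2.trans ⟨p ^ n, ?_⟩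
    unfold lvX
    ring
  have hus : ∀ i : ι, (rE A B : ℂ) * ∑ᶠ q : OO A B ⧸ idl (A := A) (B := B) (lvX p f n),
      (if (Quotient.out q : OO A B) - 1 ∈ idl (A := A) (B := B) 2 then
        GG i (Quotient.out q) else 0) =
      ∑ᶠ q : OO A B ⧸ idl (A := A) (B := B) (lvX p f n), GG i (Quotient.out q) := by
    intro i
    refine USum.usum hE2 (_root_.Pool.Agent.NSI.TH.lvX_ne hS n) h2n (GG i) ?_ ?_ ?_
    · intro x y hxy
      have e1 : e x = e y := hE.per x y (hlv (hle0 hxy))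
      have e2 := (hP A B hE2.toCQ (p * f) ι R (lvX p f n) (_root_.Pool.Agent.NSI.TH.lvX_ne hS n) i).1 x y hxy
      have e3 := e2.2.2 (aX p f)
      have e4 : ∀ t : ℤ, ((q0 p * p ^ n : ℕ) : ℤ) ∣ nm x * nI (R.b i) - t ↔
          ((q0 p * p ^ n : ℕ) : ℤ) ∣ nm y * nI (R.b i) - t := by
        intro t
        have e5 : ((q0 p * p ^ n : ℕ) : ℤ) ∣ (nm x - nm y) * nI (R.b i) :=
          (hlvd.trans (nm_per hxy)).mul_right _
        have e6 : nm x * nI (R.b i) - t = (nm y * nI (R.b i) - t) + (nm x - nm y) * nI (R.b i) := by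
          ring
        rw [e6]
        exact (Int.dvd_add_left e5)
      simp only [hGG]
      rw [e1, e3, if_congr (e4 _) rfl rfl, if_congr (e4 _) rfl rfl]
    · intro x hx
      -- `e x ≠ 0` and one of the congruences
      have e1 : e x ≠ 0 := by
        intro h0
        apply hx
        simp only [hGG, h0, zero_mul, ite_self, mul_zero, add_zero]
      have e2 : ∃ t : ℤ, ((q0 p * p ^ n : ℕ) : ℤ) ∣ nm x * nI (R.b i) - t ∧
          (q0 p : ℤ) ∣ t ^ 2 - 1 := by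
        have e7 : (q0 p : ℤ) ∣ ((1 + (q0 p : ℤ)) ^ j) - 1 := MUXI.TH.pow_mod _ _
        by_contra hno
        apply hx
        have n1 : ¬ ((q0 p * p ^ n : ℕ) : ℤ) ∣ nm x * nI (R.b i) - (1 + (q0 p : ℤ)) ^ j :=
          fun h5 => hno ⟨_, h5, by
            have e8 : ((1 + (q0 p : ℤ)) ^ j) ^ 2 - 1 =
              ((1 + (q0 p : ℤ)) ^ j - 1) * ((1 + (q0 p : ℤ)) ^ j + 1) := by ring
            rw [e8]
            exact e7.mul_right _⟩
        have n2 : ¬ ((q0 p * p ^ n : ℕ) : ℤ) ∣ nm x * nI (R.b i) - -(1 + (q0 p : ℤ)) ^ j :=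
          fun h5 => hno ⟨_, h5, by
            have e8 : (-(1 + (q0 p : ℤ)) ^ j) ^ 2 - 1 =
              ((1 + (q0 p : ℤ)) ^ j - 1) * ((1 + (q0 p : ℤ)) ^ j + 1) := by ring
            rw [e8]
            exact e7.mul_right _⟩
        simp only [hGG]
        rw [if_neg n1, if_neg n2]
        ring
      rcases _root_.Pool.Agent.NSI.TH.q0_cases hS.hp with ⟨h5, h6⟩ | ⟨h5, h6⟩
      · -- `p = 3`: `2 ∣ f`
        have h7 : 2 ∣ f := by
          unfold lvX at h2
          rw [h6, pow_zero, mul_one] at h2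
          omega
        have h8 : IsCoprime x ((f : ℕ) : OO A B) := cop_f hg ((hE.supp x).1 e1)
        obtain ⟨k, hk⟩ := h7
        have h9 : (2 : OO A B) ∣ ((f : ℕ) : OO A B) := ⟨(k : OO A B), by rw [hk]; push_cast; rfl⟩
        exact h8.of_isCoprime_of_dvd_right h9
      · -- `p = 2`: the norm is odd
        obtain ⟨t, ht, ht2⟩ := e2
        have h7 : ¬ (2 : ℤ) ∣ nm x := by
          intro h8
          have h9 := (hq02 h5).trans ht
          have h10 : (2 : ℤ) ∣ nm x * nI (R.b i) := h8.mul_right _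
          have h11 : (2 : ℤ) ∣ t := by
            have h12 := dvd_sub h10 h9
            rwa [sub_sub_cancel] at h12
          rw [h6] at ht2
          have h13 : (2 : ℤ) ∣ t ^ 2 - 1 := (by norm_num : (2 : ℤ) ∣ ((4 : ℕ) : ℤ)).trans ht2
          have h14 : (2 : ℤ) ∣ t ^ 2 := dvd_pow h11 two_ne_zero
          omega
        have h8 : IsCoprime (nm x) (2 : ℤ) :=
          ((Prime.coprime_iff_not_dvd Int.prime_two).2 h7).symm
        have h9 : IsCoprime ((nm x : ℤ) : OO A B) ((2 : ℤ) : OO A B) := h8.intCast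
        rw [← MUXI.TH.mul_star_nm] at h9
        have h10 := h9.of_mul_left_left
        rwa [Int.cast_ofNat] at h10
    · intro z x hz
      have e1 : nm (z * x) = nm x := by
        rw [nm_mul hE2.toCQ, (isUnit_nm hE2 z).1 hz, one_mul]
      have e2 : e (z * x) = emb z * e x := by rw [hE.mul, hE.unit z hz]
      have e3 : dlX (R.L i) (aX p f) (ptE R (lvX p f n) i (z * x)) =
          dlX (R.L i) (aX p f) (ptE R (lvX p f n) i x) / emb z := by
        rw [ptE_mul hE2.toCQ]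
        exact dlX_unit hE2 (R.nl i).toIsLI hz _ _
      have hz0 : emb z ≠ 0 := _root_.Pool.Agent.MUX.emb_ne_zero hE2.toCQ fun h0 => not_isUnit_zero (by
        haveI := isDomain hE2.toCQ
        exact (h0 ▸ hz : IsUnit (0 : OO A B)))
      have e4 : e (z * x) * dlX (R.L i) (aX p f) (ptE R (lvX p f n) i (z * x)) =
          e x * dlX (R.L i) (aX p f) (ptE R (lvX p f n) i x) := by
        rw [e2, e3]
        field_simp
      simp only [hGG]
      rw [e1, e4]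
  rw [finsum_congr hind, MUXI.TH.sum_pairs, Finset.mul_sum, Finset.sum_congr rfl fun i _ => hus i]
  unfold STXE
  rw [Finset.mul_sum, ← Finset.sum_add_distrib]
  refine Finset.sum_congr rfl fun i _ => ?_
  have hT := h1 p A B f hS g hlv ι R n e hE.toIsEI i ((1 + (q0 p : ℤ)) ^ j)
  have hT' := h1 p A B f hS g hlv ι R n e hE.toIsEI i (-(1 + (q0 p : ℤ)) ^ j)
  rw [MUXI.TH.comb_sum (kp i * c i * (if s = 1 then 1 else (w3 (nI (R.b i)) : ℂ))) (s : ℂ) _ _ _
    (fun x => rfl), ← hT, ← hT']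
  have hmu := muX_ne_E hS R i
  unfold kkC_E sumMod
  field_simp

end

end Pool.Agent.NSI


end

section

/-!
# MUX-NS, block IN: the sums of the logarithmic derivatives (TSH), `e` modulo any ideal `g` dividing `f q0`
-/

set_option autoImplicit false

namespace Pool.Agent.NSI

open _root_.MU3 _root_.Pool.Agent.MU3 _root_.Pool.Agent.MU3A _root_.Pool.Agent.MU3B _root_.Pool.Agent.RI _root_.Pool.Agent.RID
  _root_.Pool.Agent.MUX _root_.Pool.Agent.ME _root_.Pool.Agent.MUXK _root_.Pool.Agent.MUXI _root_.Pool.Agent.NS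
open _root_.Pool.Agent.MU3I (w3 zt)

noncomputable section

open _root_.Pool.Agent.MUXI.TSH in
theorem tn_TSH_E (h1 : Pool.Agent.MUXI.Si_PTP_E) (h3 : Pool.Agent.MUXF.Sx_ALG) : Sn_TSH_E := by
  intro p A B f hS g hg ι R n e he i t
  have hCQ : CQ A B := hS.cq
  obtain ⟨alg1, alg2, alg3, alg4, -⟩ := h3 A B (Pool.Agent.MUXY.cqF hCQ)
  have hpq : p ∣ q0 p := by
    unfold q0
    split_ifs with h
    · rw [h]; norm_num
    · exact dvd_rfl
  have hp0 : p ≠ 0 := by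
    rcases hS.hp with h | h
    · rw [h]; norm_num
    · rw [h]; norm_num
  have hq0 : q0 p ≠ 0 := by
    unfold q0
    split_ifs with h
    · norm_num
    · exact hp0
  have hm0 : lvX p f n ≠ 0 := mul_ne_zero (mul_ne_zero hS.f0 hq0) (pow_ne_zero _ hp0)
  obtain ⟨ptp1, ptp2⟩ := h1 A B hCQ (p * f) ι R (lvX p f n) hm0 i
  have hmO : ((lvX p f n : ℕ) : OO A B) ≠ 0 := by
    intro h0
    have h5 := (alg3 (lvX p f n : ℤ)).1
    rw [Int.cast_natCast, h0, (alg2 0).1.2 rfl] at h5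
    apply hm0
    exact_mod_cast h5.symm
  have hfin : Finite (OO A B ⧸ Ideal.span {((lvX p f n : ℕ) : OO A B)}) := by
    apply alg4
    rw [Ne, Ideal.span_singleton_eq_bot]
    exact hmO
  have hmM : lvX p f n = f * (q0 p * p ^ n) := by unfold lvX; ring
  have hcN := cop_nat p f n hpq
  have hcZ : IsCoprime ((aX p f : ℕ) : ℤ) ((lvX p f n : ℕ) : ℤ) :=
    Nat.isCoprime_iff_coprime.2 hcN
  have hcO : IsCoprime ((aX p f : ℕ) : OO A B) ((lvX p f n : ℕ) : OO A B) := by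
    have h5 := hcZ.map (Int.castRingHom (OO A B))
    simpa using h5
  have hl0 : ((lvX p f 0 : ℕ) : OO A B) ∈ g := hg (Ideal.mem_span_singleton_self _)
  have hle : idl (A := A) (B := B) (lvX p f n) ≤ g := by
    rw [Ideal.span_singleton_le_iff_mem]
    have h5 : ((lvX p f n : ℕ) : OO A B) = ((lvX p f 0 : ℕ) : OO A B) * ((p ^ n : ℕ) : OO A B) := by
      rw [← Nat.cast_mul]
      congr 1
      unfold lvX
      ring
    rw [h5]
    exact g.mul_mem_right _ hl0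
  have hea : ∀ x, e (((aX p f : ℕ) : OO A B) * x) = e x := by
    intro x
    rw [he.mul, he.per ((aX p f : ℕ) : OO A B) 1, he.one, one_mul]
    have h5 : ((aX p f : ℕ) : OO A B) - 1 = ((lvX p f 0 : ℕ) : OO A B) * 2 := by
      unfold aX lvX
      push_cast
      ring
    rw [h5]
    exact g.mul_mem_right _ hl0
  -- the summands
  set F0 : ℤ → OO A B → ℂ := fun c x =>
    if ((q0 p * p ^ n : ℕ) : ℤ) ∣ nm x * nI (R.b i) - c then
      e x * ee (R.L i) (ptE R (lvX p f n) i x) else 0 with hF0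
  have hMm : ((q0 p * p ^ n : ℕ) : ℤ) ∣ ((lvX p f n : ℕ) : ℤ) :=
    ⟨f, by rw [hmM]; push_cast; ring⟩
  have hper : ∀ c, Per ((lvX p f n : ℕ) : OO A B) (F0 c) := by
    intro c x y hxy
    have h5 : ((q0 p * p ^ n : ℕ) : ℤ) ∣ nm x * nI (R.b i) - nm y * nI (R.b i) := by
      rw [← sub_mul]
      exact (hMm.trans (nm_per _ hxy)).mul_right _
    have h6 : ((q0 p * p ^ n : ℕ) : ℤ) ∣ nm x * nI (R.b i) - c ↔
        ((q0 p * p ^ n : ℕ) : ℤ) ∣ nm y * nI (R.b i) - c := by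
      constructor
      · intro h7
        have := dvd_sub h7 h5
        rwa [sub_sub_sub_cancel_left, show nm y * (nI (R.b i) : ℤ) - c =
          nm y * (nI (R.b i) : ℤ) - c from rfl] at this
      · intro h7
        have := dvd_add h5 h7
        rwa [sub_add_sub_cancel] at this
    simp only [hF0]
    rw [he.per x y (hle hxy), (ptp1 x y hxy).2.1]
    by_cases h7 : ((q0 p * p ^ n : ℕ) : ℤ) ∣ nm x * nI (R.b i) - c
    · rw [if_pos h7, if_pos (h6.1 h7)]
    · rw [if_neg h7, if_neg (fun h8 => h7 (h6.2 h8))]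
  have hcop2 : IsCoprime ((q0 p * p ^ n : ℕ) : ℤ) ((aX p f : ℤ) ^ 2) := by
    have h5 := (hcZ.of_isCoprime_of_dvd_right hMm).symm
    exact h5.pow_right
  have hnma : ∀ x : OO A B, nm (((aX p f : ℕ) : OO A B) * x) = (aX p f : ℤ) ^ 2 * nm x := by
    intro x
    have h5 := (alg3 (aX p f : ℤ)).2
    rw [Int.cast_natCast] at h5
    rw [(alg1 _ _).2.2, h5]
  have hdv : ∀ x : OO A B, ((q0 p * p ^ n : ℕ) : ℤ) ∣
      nm (((aX p f : ℕ) : OO A B) * x) * nI (R.b i) - (aX p f : ℤ) ^ 2 * t ↔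
      ((q0 p * p ^ n : ℕ) : ℤ) ∣ nm x * nI (R.b i) - t := by
    intro x
    rw [hnma, show (aX p f : ℤ) ^ 2 * nm x * (nI (R.b i) : ℤ) - (aX p f : ℤ) ^ 2 * t =
      (aX p f : ℤ) ^ 2 * (nm x * (nI (R.b i) : ℤ) - t) by ring]
    exact ⟨fun h => hcop2.dvd_of_dvd_mul_left h, fun h => h.mul_left _⟩
  have hS1 : ∀ c, SnXE R (lvX p f n) (q0 p * p ^ n) e i c =
      muXE R i * sumMod ((lvX p f n : ℕ) : OO A B) (F0 c) := fun c => rfl
  have hS2 : sumMod ((lvX p f n : ℕ) : OO A B) (F0 ((aX p f : ℤ) ^ 2 * t)) =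
      sumMod ((lvX p f n : ℕ) : OO A B)
        (fun x => F0 ((aX p f : ℤ) ^ 2 * t) (((aX p f : ℕ) : OO A B) * x)) :=
    (sumMod_mul hcO (hper _)).symm
  rw [hS1, hS1, hS2]
  have key : sumMod ((lvX p f n : ℕ) : OO A B) (fun x =>
      if ((q0 p * p ^ n : ℕ) : ℤ) ∣ nm x * nI (R.b i) - t then
        e x * dlX (R.L i) (aX p f) (ptE R (lvX p f n) i x) else 0) =
      (aX p f : ℂ) * sumMod ((lvX p f n : ℕ) : OO A B)
        (fun x => F0 ((aX p f : ℤ) ^ 2 * t) (((aX p f : ℕ) : OO A B) * x)) -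
      (aX p f : ℂ) ^ 2 * sumMod ((lvX p f n : ℕ) : OO A B) (F0 t) := by
    rw [← sumMod_cmul, ← sumMod_cmul, ← sumMod_sub hfin]
    congr 1
    funext x
    simp only [hF0]
    by_cases h7 : ((q0 p * p ^ n : ℕ) : ℤ) ∣ nm x * nI (R.b i) - t
    · rw [if_pos h7, if_pos ((hdv x).2 h7), if_pos h7, hea, ← ptp2]
      unfold dlX
      ring
    · rw [if_neg h7, if_neg (fun h8 => h7 ((hdv x).1 h8)), if_neg h7]
      ring
  rw [key]
  ring

end

end Pool.Agent.NSI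


end

section

/-!
# MUX-NS, block IN: module EPS, the odd character, the sign `s` and the type `i`

`(O/3)^*` is cyclic of order 8, generated by the class of `gy = 1 + δ`, `δ = 2 w - B`, `δ² = B² + 4 A ≡ -1` modulo `3`.
`Y ≡ gy` modulo `3`, `Y ≡ 1` modulo `f`: `w Y` is a primitive 8th root of unity and `e0 Y = (w Y)^j`, so `e0 x = (w x)^j` for all
`x ≡ 1` modulo `f`, `x` prime to `3`. Moreover `w3 (nm x) = (w x)^4` for `x` prime to `3`.
-/

set_option autoImplicit false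

namespace Pool.Agent.NSI

open _root_.MU3 _root_.Pool.Agent.MU3 _root_.Pool.Agent.MU3A _root_.Pool.Agent.MU3B _root_.Pool.Agent.RI _root_.Pool.Agent.RID
  _root_.Pool.Agent.MUX _root_.Pool.Agent.ME _root_.Pool.Agent.MUXK _root_.Pool.Agent.MUXI _root_.Pool.Agent.NS
open _root_.Pool.Agent.MU3I (w3 zt)

noncomputable section

namespace EPS

variable {A B : ℤ}

end EPS

open _root_.Pool.Agent.NSI.EPS

theorem tn_EPS_E : Sn_EPS_E := by
  intro A B V f hS w hw e0 r h1 hm1 hmul hper hsupp hpow hun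
  have hc : CQ A B := hS.case.toCQ
  obtain ⟨t, ht⟩ : ∃ t : ℤ, B ^ 2 + 4 * A + 1 = 3 * t := ⟨-1, by
    rw [hS.hB, hS.case.hA]
    norm_num⟩
  have lv : lvX 3 f 0 = 3 * f := by
    simp [lvX, q0, mul_comm]
  rw [lv] at hper hsupp
  rw [lv]
  -- valuations
  have v3 : V.valuation (3 : ℂ) < 1 := by
    have h1 : emb ((3 : ℕ) : OO A B) ∈ V.nonunits := (hS.hV _).2 (Ideal.mem_span_singleton_self _)
    rw [MUX.emb_natCast hc] at h1
    exact_mod_cast V.mem_nonunits_iff.1 h1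
  -- `w (-1) = -1`
  have wm1 : w (-1) = -1 := by
    have h2 : w (-1) * w (-1) = 1 := by
      rw [← hw.mul, neg_mul_neg, one_mul, hw.one]
    rcases mul_self_eq_one_iff.1 h2 with h | h
    · exfalso
      have h4 := hw.cong (-1)
      rw [h, MUX.emb_neg hc, MUX.emb_one hc] at h4
      have e : (1 : ℂ) - -1 = 2 := by norm_num
      rw [e] at h4
      have h5 : V.valuation (1 : ℂ) < 1 := by
        have e1 : (1 : ℂ) = 3 - 2 := by norm_num
        rw [e1]
        exact (Valuation.map_sub _ _ _).trans_lt (max_lt v3 (h4.trans_lt v3))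
      rw [map_one] at h5
      exact lt_irrefl _ h5
    · exact h
  -- the units
  have wunit : ∀ z : OO A B, IsUnit z → w z = emb z := by
    have hsq : ∀ z : OO A B, z * z = -1 → w z = emb z := by
      intro z hz
      have h2 : w z * w z = -1 := by rw [← hw.mul, hz, wm1]
      have h3 : emb z * emb z = -1 := by
        rw [← MUX.emb_mul hc, hz, MUX.emb_neg hc, MUX.emb_one hc]
      have h4 : (w z - emb z) * (w z + emb z) = 0 := by linear_combination h2 - h3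
      rcases mul_eq_zero.1 h4 with h5 | h5
      · exact sub_eq_zero.1 h5
      · exfalso
        have h6 := hw.cong z
        have e : w z - emb z = -(2 * emb z) := by linear_combination h5
        rw [e, Valuation.map_neg, map_mul] at h6
        have h7 : V.valuation (emb z) = 1 := by
          have h8 : V.valuation (emb z) * V.valuation (emb z) = 1 := by
            rw [← map_mul, h3, Valuation.map_neg, map_one]
          rw [← pow_two] at h8
          rcases pow_eq_one_iff.1 h8 with h9 | h9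
          · exact h9
          · omega
        rw [h7, mul_one] at h6
        have h5 : V.valuation (1 : ℂ) < 1 := by
          have e1 : (1 : ℂ) = 3 - 2 := by norm_num
          rw [e1]
          exact (Valuation.map_sub _ _ _).trans_lt (max_lt v3 (h6.trans_lt v3))
        rw [map_one] at h5
        exact lt_irrefl _ h5
    intro z hz
    rcases unit_list hS.case hz with rfl | rfl | rfl | rfl | ⟨hB, -⟩
    · rw [hw.one, MUX.emb_one hc]
    · rw [wm1, MUX.emb_neg hc, MUX.emb_one hc]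
    · apply hsq
      ext <;> simp [hS.case.hA, hS.hB, QuadraticAlgebra.re_one, QuadraticAlgebra.im_one]
    · apply hsq
      ext <;> simp [hS.case.hA, hS.hB, QuadraticAlgebra.re_one, QuadraticAlgebra.im_one]
    · rw [hS.hB] at hB
      norm_num at hB
  -- the lift `Y` of the generator
  have hcop : IsCoprime (f : ℤ) 3 := by
    have h2 : Nat.Coprime f 3 := ((Nat.Prime.coprime_iff_not_dvd Nat.prime_three).2 hS.fp).symm
    have h3 := Nat.isCoprime_iff_coprime.2 h2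
    exact_mod_cast h3
  obtain ⟨a, b, hab⟩ := hcop
  have habO : (a : OO A B) * (f : OO A B) + (b : OO A B) * 3 = 1 := by
    have := congrArg (fun n : ℤ => (n : OO A B)) hab
    push_cast at this
    exact this
  have hcopO : IsCoprime ((3 : ℕ) : OO A B) ((f : ℕ) : OO A B) := by
    refine ⟨b, a, ?_⟩
    push_cast
    linear_combination habO
  have mem3f : ∀ z : OO A B, z ∈ idl (A := A) (B := B) 3 → z ∈ idl (A := A) (B := B) f →
      z ∈ idl (A := A) (B := B) (3 * f) := by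
    intro z hz3 hzf
    rw [mem_idl] at hz3 hzf ⊢
    have := hcopO.mul_dvd hz3 hzf
    push_cast at this ⊢
    exact this
  have le3 : ∀ z : OO A B, z ∈ idl (A := A) (B := B) (3 * f) → z ∈ idl (A := A) (B := B) 3 := by
    intro z hz
    rw [mem_idl] at hz ⊢
    refine dvd_trans ⟨(f : OO A B), ?_⟩ hz
    push_cast
    ring
  obtain ⟨Y, hY3, hYf⟩ : ∃ Y : OO A B, Y - gy A B ∈ idl (A := A) (B := B) 3 ∧
      Y - 1 ∈ idl (A := A) (B := B) f := by
    refine ⟨1 + a * f * (gy A B - 1), ?_, ?_⟩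
    · rw [mem_idl]
      refine ⟨-(gy A B - 1) * b, ?_⟩
      push_cast
      linear_combination (gy A B - 1) * habO
    · rw [mem_idl]
      refine ⟨a * (gy A B - 1), ?_⟩
      ring
  have hYk3 : ∀ k : ℕ, Y ^ k - gy A B ^ k ∈ idl (A := A) (B := B) 3 := fun k => by
    rw [mem_idl] at hY3 ⊢
    exact hY3.trans (sub_dvd_pow_sub_pow _ _ _)
  have hYkf : ∀ k : ℕ, Y ^ k - 1 ∈ idl (A := A) (B := B) f := fun k => by
    rw [mem_idl] at hYf ⊢
    have h2 := sub_dvd_pow_sub_pow Y 1 k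
    rw [one_pow] at h2
    exact hYf.trans h2
  have hY4 : Y ^ 4 - (-1) ∈ idl (A := A) (B := B) 3 := by
    have := Ideal.add_mem _ (hYk3 4) (gy4 ht)
    have e : Y ^ 4 - gy A B ^ 4 + (gy A B ^ 4 + 1) = Y ^ 4 - (-1) := by ring
    rwa [e] at this
  have hY8 : Y ^ 8 - 1 ∈ idl (A := A) (B := B) 3 := by
    have := Ideal.mul_mem_left (idl (A := A) (B := B) 3) (Y ^ 4 - 1) hY4
    have e : (Y ^ 4 - 1) * (Y ^ 4 - (-1)) = Y ^ 8 - 1 := by ring
    rwa [e] at this
  -- `w Y` is a primitive 8th root of unity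
  have wY4 : w Y ^ 4 = -1 := by
    rw [← mul_pow' hw.one hw.mul, hw.per _ _ hY4, wm1]
  have wY8 : w Y ^ 8 = 1 := by
    have e : w Y ^ 8 = (w Y ^ 4) ^ 2 := by ring
    rw [e, wY4]
    norm_num
  have hprim : IsPrimitiveRoot (w Y) 8 := by
    have h2 : orderOf (w Y) = 2 ^ (2 + 1) := by
      apply orderOf_eq_prime_pow
      · rw [show (2 : ℕ) ^ 2 = 4 by norm_num, wY4]
        norm_num
      · rw [show (2 : ℕ) ^ (2 + 1) = 8 by norm_num, wY8]
    have h3 := IsPrimitiveRoot.orderOf (w Y)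
    rw [h2] at h3
    exact_mod_cast h3
  have eY8 : e0 Y ^ 8 = 1 := by
    rw [← mul_pow' h1 hmul, hper _ 1 (mem3f _ hY8 (hYkf 8)), h1]
  obtain ⟨j, hj8, hj⟩ := hprim.eq_pow_of_pow_eq_one eY8
  -- `e0 = w ^ j` on the elements `≡ 1` modulo `f`
  have he0 : ∀ x, x - 1 ∈ idl (A := A) (B := B) f → x ∉ idl (A := A) (B := B) 3 →
      e0 x = w x ^ j := by
    intro x hxf hx3
    obtain ⟨k, hk⟩ := rep ht hx3
    have h4 : x - Y ^ k ∈ idl (A := A) (B := B) 3 := by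
      have := Ideal.sub_mem _ hk (hYk3 k)
      have e : x - gy A B ^ k - (Y ^ k - gy A B ^ k) = x - Y ^ k := by ring
      rwa [e] at this
    have h5 : x - Y ^ k ∈ idl (A := A) (B := B) f := by
      have := Ideal.sub_mem _ hxf (hYkf k)
      have e : x - 1 - (Y ^ k - 1) = x - Y ^ k := by ring
      rwa [e] at this
    rw [hper _ _ (mem3f _ h4 h5), hw.per _ _ h4, mul_pow' h1 hmul, mul_pow' hw.one hw.mul, ← hj,
      ← pow_mul, ← pow_mul, mul_comm]
  -- `w3 (nm x) = w x ^ 4`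
  have hw3 : ∀ x, x ∉ idl (A := A) (B := B) 3 → ((w3 (nm x) : ℤ) : ℂ) = w x ^ 4 := by
    intro x hx3
    obtain ⟨k, hk⟩ := rep ht hx3
    have h4 : x - Y ^ k ∈ idl (A := A) (B := B) 3 := by
      have := Ideal.sub_mem _ hk (hYk3 k)
      have e : x - gy A B ^ k - (Y ^ k - gy A B ^ k) = x - Y ^ k := by ring
      rwa [e] at this
    have h5 : w3 (nm x) = (-1) ^ k := by
      rw [w3_congr (nm_congr hk), nm_pow hc, w3_pow, nm_gy]
      have h6 : w3 (1 - (B ^ 2 + 4 * A)) = -1 := by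
        unfold w3
        have h7 : (1 - (B ^ 2 + 4 * A)) % 3 = 2 := by omega
        rw [h7]
        norm_num
      rw [h6]
    rw [h5, hw.per _ _ h4, mul_pow' hw.one hw.mul, ← pow_mul, mul_comm k 4, pow_mul, wY4]
    push_cast
    rfl
  -- norms
  have nm3 : ∀ x : OO A B, x ∉ idl (A := A) (B := B) 3 → ¬ (3 : ℤ) ∣ nm x := by
    intro x hx
    rw [← w3_ne]
    intro h
    have h4 := hw3 x hx
    rw [h] at h4
    have h5 := hw.pow x hx
    have e : w x ^ 8 = (w x ^ 4) ^ 2 := by ring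
    rw [e, ← h4] at h5
    norm_num at h5
  have wne : ∀ x, x ∉ idl (A := A) (B := B) 3 → w x ≠ 0 := by
    intro x hx h
    have h5 := hw.pow x hx
    rw [h] at h5
    norm_num at h5
  -- the general construction
  have main : ∀ (s : ℤ) (i : ℕ), (s = 1 ∨ s = -1) → 4 ≤ i → i ≤ 7 →
      (∀ x, x ∉ idl (A := A) (B := B) 3 →
        w x ^ j * w x * (if s = 1 then 1 else ((w3 (nm x) : ℤ) : ℂ)) = w x ^ i) →
      ∃ (e : OO A B → ℂ) (s : ℤ) (i : ℕ), IsEIE (idl (A := A) (B := B) (3 * f)) e ∧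
      (s = 1 ∨ s = -1) ∧ 4 ≤ i ∧ i ≤ 7 ∧
      (∀ x, x - 1 ∈ idl (A := A) (B := B) f → x ∉ idl (A := A) (B := B) 3 → e x = w x ^ i) ∧
      (∀ x, e x ≠ 0 → e x ^ (8 * r) = 1) ∧
      ∀ x, IsCoprime x ((3 * f : ℕ) : OO A B) →
        e0 x * w x = e x * (if s = 1 then 1 else (w3 (nm x) : ℂ)) := by
    intro s i hs h4i hi7 hwi
    have sq : ∀ x, x ∉ idl (A := A) (B := B) 3 →
        (if s = 1 then (1 : ℂ) else (w3 (nm x) : ℂ)) ^ 2 = 1 := by
      intro x hx
      split_ifs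
      · norm_num
      · exact_mod_cast w3_sq (nm3 x hx)
    refine ⟨fun x => e0 x * w x * (if s = 1 then 1 else ((w3 (nm x) : ℤ) : ℂ)), s, i, ?_, hs, h4i,
      hi7, ?_, ?_, ?_⟩
    · refine ⟨⟨?_, ?_, ?_, ?_, ?_⟩, ?_⟩
      · have e : w3 (nm (1 : OO A B)) = 1 := by
          rw [nm_one]
          rfl
        simp only [h1, hw.one, e]
        simp
      · intro x y
        simp only [hmul, hw.mul, nm_mul hc, w3_mul]
        split_ifs
        · ring
        · push_cast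
          ring
      · intro x y hxy
        rw [hper x y hxy, hw.per x y (le3 _ hxy), w3_congr (nm_congr (le3 _ hxy))]
      · intro x
        rw [Ideal.isCoprime_span_singleton_iff]
        constructor
        · intro h
          exact (hsupp x).1 (left_ne_zero_of_mul (left_ne_zero_of_mul h))
        · intro h
          have hx3 := notMem_of_cop (Dvd.intro _ rfl) h
          refine mul_ne_zero (mul_ne_zero ((hsupp x).2 h) (wne x hx3)) ?_
          intro h0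
          have := sq x hx3
          rw [h0] at this
          norm_num at this
      · have e : w3 (nm (-1 : OO A B)) = 1 := by
          rw [nm_neg_one]
          rfl
        simp only [hm1, wm1, e]
        simp
      · intro z hz
        have e : w3 (nm z) = 1 := by
          rw [(isUnit_nm hS.case z).1 hz]
          rfl
        simp only [hun z hz, wunit z hz, e]
        simp
    · intro x hxf hx3
      beta_reduce
      rw [he0 x hxf hx3, hwi x hx3]
    · intro x hx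
      beta_reduce at hx ⊢
      have hcx := (hsupp x).1 (left_ne_zero_of_mul (left_ne_zero_of_mul hx))
      have hx3 := notMem_of_cop (Dvd.intro _ rfl) hcx
      have e1 : e0 x ^ (8 * r) = 1 := by
        rw [mul_comm, pow_mul, hpow x ((hsupp x).2 hcx), one_pow]
      have e2 : w x ^ (8 * r) = 1 := by
        rw [pow_mul, hw.pow x hx3, one_pow]
      have e3 : (if s = 1 then (1 : ℂ) else (w3 (nm x) : ℂ)) ^ (8 * r) = 1 := by
        have e : 8 * r = 2 * (4 * r) := by ring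
        rw [e, pow_mul, sq x hx3, one_pow]
      rw [mul_pow, mul_pow, e1, e2, e3]
      norm_num
    · intro x hx
      have hx3 := notMem_of_cop (Dvd.intro _ rfl) hx
      have h2 := sq x hx3
      beta_reduce
      rw [mul_assoc, ← pow_two, h2, mul_one]
  have w8 : ∀ x, x ∉ idl (A := A) (B := B) 3 → w x ^ 8 = 1 := hw.pow
  by_cases c1 : 3 ≤ j ∧ j ≤ 6
  · refine main 1 (j + 1) (Or.inl rfl) (by omega) (by omega) ?_
    intro x _
    rw [if_pos rfl, mul_one, pow_succ]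
  · by_cases c2 : j = 7
    · refine main (-1) 4 (Or.inr rfl) (by omega) (by omega) ?_
      intro x hx
      rw [if_neg (by norm_num), hw3 x hx, c2, ← pow_succ, w8 x hx, one_mul]
    · refine main (-1) (j + 5) (Or.inr rfl) (by omega) (by omega) ?_
      intro x hx
      rw [if_neg (by norm_num), hw3 x hx]
      ring

end

end Pool.Agent.NSI


end

section

/-!
# Module SUB of block IN: the fields `K B_n` are contained in the ray class fields
(the proof of `Pool/Agent/MUX/I_SUB.lean`, with `SetL`)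
-/

set_option autoImplicit false

namespace Pool.Agent.NSI

open _root_.MU3 _root_.Pool.Agent.MU3 _root_.Pool.Agent.MU3A _root_.Pool.Agent.MU3B _root_.Pool.Agent.RI _root_.Pool.Agent.RID
  _root_.Pool.Agent.MUX _root_.Pool.Agent.ME _root_.Pool.Agent.MUXK _root_.Pool.Agent.MUXI _root_.Pool.Agent.NS
open _root_.Pool.Agent.MU3I (w3 zt)

namespace IxSUB

end IxSUB

open _root_.Pool.Agent.NSI.IxSUB

/-- Module SUB. -/
theorem tn_SUB_E (h1 : Si_LAY) (h2 : Si_IAF_E) : Sn_SUB_E := by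
  intro p A B f hS hT hL K hK n Bn hlay
  have hp : p = 2 ∨ p = 3 := hS.hp
  have hp0 : p ≠ 0 := by rcases hp with rfl | rfl <;> norm_num
  have hM : q0 p * p ^ n ≠ 0 := Nat.mul_ne_zero (IxSUB.q0_ne hp) (pow_ne_zero n hp0)
  have hlv : lvX p f n = f * (q0 p * p ^ n) := by unfold lvX; ring
  have hlv0 : lvX p f n ≠ 0 := by
    rw [hlv]; exact Nat.mul_ne_zero hS.f0 hM
  have hm := IxSUB.idl_ne (A := A) (B := B) hlv0
  have hle : idl (A := A) (B := B) (lvX p f n) ≤ idl (q0 p * p ^ n) :=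
    IxSUB.idl_le ⟨f, by rw [hlv]; ring⟩
  have hle0 : idl (A := A) (B := B) (lvX p f n) ≤ idl (lvX p f 0) :=
    IxSUB.idl_le ⟨p ^ n, by unfold lvX; ring⟩
  obtain ⟨i1, -, -, -, -, -, -, i8⟩ := h2 A B hS.cq hT hL _ hm
  obtain ⟨a, ha⟩ := i1 (RingEquiv.refl ℂ) rfl
  have hz := (i8 (q0 p * p ^ n) (RingEquiv.refl ℂ) a (zt (q0 p * p ^ n)) hM hle ha
    (IxSUB.zt_pow _ hM)).1
  have hBn : Bn ≤ IntermediateField.restrictScalars ℚ (RFE (idl (A := A) (B := B) (lvX p f n))) := by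
    rw [h1 p n hp Bn hlay, IntermediateField.adjoin_le_iff]
    intro x hx
    rw [Set.mem_singleton_iff] at hx
    rw [hx]
    exact add_mem hz (inv_mem hz)
  have hK' : K ≤ IntermediateField.restrictScalars ℚ (RFE (idl (A := A) (B := B) (lvX p f n))) := by
    intro x hx
    exact hT.mono _ _ hle0 (hK x hx)
  intro y hy
  exact (sup_le hK' hBn) hy

end Pool.Agent.NSI


end

section

/-!
# MUX-NS, block IN, module NR1: the norm relation for `c₀`, one step (proof: helper73, `MUX/K_NR1.lean`)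
-/

set_option autoImplicit false

open NumberField IsDedekindDomain Finset
open scoped nonZeroDivisors Pointwise

namespace Pool.Agent.NSI

open _root_.Pool.Agent.MU3 _root_.Pool.Agent.RI _root_.Pool.Agent.RID _root_.Pool.Agent.MUXK _root_.Pool.Agent.Lib_helper28.FROB


open _root_.Pool.Agent.MUXK.K_NR1 in
/-- the norm relation, one step -/
theorem tn_NR1 (h1 : S_GALX) (h2 : S_GENX) (h3 : S_LFX) : Sn_NR1 := by
  intro p _ k K₀ K B _ _ _ _ hX hk hk₀ S c c₀ n₁ hI n hn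
  have hpr : p.Prime := Fact.out
  intro σ hσ
  have hBn : B n ≤ B (n + 1) := hX.b.mono (Nat.le_succ n)
  have hh : ∀ m, K₀ ⊔ B m ≤ K ⊔ B m := fun m => sup_le_sup_right hX.le _
  have hL : K ⊔ B n ≤ K ⊔ B (n + 1) := sup_le_sup_left hBn K
  have hM : K₀ ⊔ B n ≤ K₀ ⊔ B (n + 1) := sup_le_sup_left hBn K₀
  let aL' : Algebra k ↥(K ⊔ B (n + 1)) := algC (hk (n + 1))
  let aL : Algebra k ↥(K ⊔ B n) := algC (hk n)
  let aM' : Algebra k ↥(K₀ ⊔ B (n + 1)) := algC (hk₀ (n + 1))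
  let aK : Algebra k K := algC hX.b.hk
  obtain ⟨gL', cL'⟩ := h1 p k K B hX.b (n + 1) (hk (n + 1))
  obtain ⟨gL, cL⟩ := h1 p k K B hX.b n (hk n)
  have gK : IsGalois k K := (isGalois_algC hX.b.hk).2 hX.b.gal
  have fdL' := Pool.Agent.FX.fd k ↥(K ⊔ B (n + 1))
  have fdL := Pool.Agent.FX.fd k ↥(K ⊔ B n)
  have fdK := Pool.Agent.FX.fd k K
  -- lift
  obtain ⟨τ, hτK, hτ⟩ := h3 p k K₀ K B hX.b0 hX.b hX.le (n + 1) (hk (n + 1)) (hk₀ (n + 1))
    (hh (n + 1)) σ (fun x hx => (hσ x).2 ((le_sup_left : K₀ ≤ K₀ ⊔ B n) hx))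
  -- fixed field of `τ`
  have hτf : ∀ x : ↥(K ⊔ B (n + 1)), τ x = x ↔ (x : ℂ) ∈ K ⊔ B n := by
    obtain ⟨g, hg1, hg2, hg3⟩ := h2 p k K B hX.b.hk hX.b.deg hX.b.lay hX.b.mono (n + 1)
      (hk (n + 1))
    obtain ⟨hg4, hg5⟩ := hg3 n (Nat.le_succ n)
    have hkL : k ≤ K ⊔ B n := hk n
    have ez := P_TWK.zp (g ^ (p ^ n)) (GCC.sub (hk (n + 1)) (K ⊔ B n) hkL)
      (fun x => (hg5 x).trans (GCC.mem_sub (hk (n + 1)) (K ⊔ B n) hkL x).symm)
    have hfixB : ∀ x : ↥(K ⊔ B (n + 1)), (x : ℂ) ∈ B n → τ x = x := by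
      intro x hx
      have hx1 : (x : ℂ) ∈ K₀ ⊔ B n := (le_sup_right : B n ≤ K₀ ⊔ B n) hx
      have h5 := hτ ⟨(x : ℂ), hM hx1⟩
      rw [(hσ ⟨(x : ℂ), hM hx1⟩).2 hx1] at h5
      exact Subtype.ext h5
    have hτS : τ ∈ (GCC.sub (hk (n + 1)) (K ⊔ B n) hkL).fixingSubgroup := by
      let aLL : Algebra ↥(K ⊔ B n) ↥(K ⊔ B (n + 1)) := algC hL
      have tLL := towerC (hk n) hL
      have hres : ∀ (x : ↥(K ⊔ B n)),
          ((AlgEquiv.restrictNormalHom ↥(K ⊔ B n) τ x : ↥(K ⊔ B n)) : ℂ) =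
            (τ ⟨(x : ℂ), hL x.2⟩ : ↥(K ⊔ B (n + 1))) := by
        intro x
        have q1 := AlgEquiv.restrictNormal_commutes τ ↥(K ⊔ B n) x
        have q2 : ∀ y : ↥(K ⊔ B n), algebraMap ↥(K ⊔ B n) ↥(K ⊔ B (n + 1)) y = ⟨(y : ℂ), hL y.2⟩ :=
          fun y => rfl
        rw [q2, q2] at q1
        exact congrArg Subtype.val q1
      have hr1 : AlgEquiv.restrictNormalHom ↥(K ⊔ B n) τ = 1 := by
        apply GCC.triv (hk n)
        · intro x hx
          apply Subtype.ext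
          rw [hres, hτK _ hx]
        · intro x hx
          apply Subtype.ext
          rw [hres, hfixB _ hx]
      intro x
      obtain ⟨x, hx⟩ := x
      have h5 := hres ⟨(x : ℂ), hx⟩
      rw [hr1] at h5
      exact (Subtype.ext h5).symm
    have hτ1 : τ ≠ 1 := by
      intro h6
      have h7 : K₀ ⊔ B (n + 1) ≤ K₀ ⊔ B n := by
        intro z hz
        have h8 := hτ ⟨z, hz⟩
        rw [h6] at h8
        exact (hσ ⟨z, hz⟩).1 (Subtype.ext h8.symm)
      have h9 : K₀ ⊔ B (n + 1) = K₀ ⊔ B n := le_antisymm h7 hM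
      have d1 := hX.b0.deg (n + 1)
      have d2 := hX.b0.deg n
      rw [h9, d2, pow_succ] at d1
      have fK₀ : FiniteDimensional ℚ K₀ := FiniteDimensional.of_injective
        (IntermediateField.inclusion hX.le).toLinearMap
        (IntermediateField.inclusion hX.le).injective
      have d3 : 0 < Module.finrank ℚ K₀ := Module.finrank_pos
      have d4 : 0 < p ^ n := pow_pos hpr.pos n
      have d5 : Module.finrank ℚ K₀ * p ^ n * 1 = Module.finrank ℚ K₀ * p ^ n * p := by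
        rw [mul_one, mul_assoc]
        exact d1
      have d6 := Nat.eq_of_mul_eq_mul_left (Nat.mul_pos d3 d4) d5
      exact hpr.one_lt.ne d6
    rw [ez] at hτS
    intro x
    rw [fix_prime (g ^ (p ^ n)) τ p hpr (by rw [hg4]; simp) hτS hτ1 x]
    exact hg5 x
  obtain ⟨C, hC, hC0, hCe⟩ := hI.nrm n hn τ hτf
  -- powers of `τ` and `σ`
  have hpow : ∀ (i : ℕ) (x : ↥(K₀ ⊔ B (n + 1))),
      (((τ ^ i) ⟨(x : ℂ), hh (n + 1) x.2⟩ : ↥(K ⊔ B (n + 1))) : ℂ) =
        (((σ ^ i) x : ↥(K₀ ⊔ B (n + 1))) : ℂ) := by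
    intro i
    induction i with
    | zero =>
      intro x
      rw [pow_zero, pow_zero, AlgEquiv.one_apply, AlgEquiv.one_apply]
    | succ i ih =>
      intro x
      rw [pow_succ, pow_succ, AlgEquiv.mul_apply, AlgEquiv.mul_apply, ← ih (σ x)]
      congr 2
      exact Subtype.ext (hτ x)
  -- the groups
  have d1 := hX.b.deg (n + 1)
  have d2 := hX.b.deg n
  have d3 := hX.b0.deg (n + 1)
  have d4 := hX.b0.deg n
  obtain ⟨e, he⟩ := res (A := K₀ ⊔ B n) (A' := K₀ ⊔ B (n + 1)) (hk n) (hk (n + 1)) hL (hk₀ n)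
    (hk₀ (n + 1)) (hh n) (hh (n + 1)) hM gL gL'
    (by
      intro ρ q1 q2
      apply GCC.triv (hk (n + 1)) ρ
      · intro x hx
        exact q1 x ((le_sup_left : K ≤ K ⊔ B n) hx)
      · intro x hx
        exact q2 x ((le_sup_right : B (n + 1) ≤ K₀ ⊔ B (n + 1)) hx))
    (by rw [d1, d2, d3, d4]; ring)
  obtain ⟨e', he'⟩ := res (A := K₀) (A' := K₀ ⊔ B (n + 1)) hX.b.hk (hk (n + 1))
    (le_sup_left : K ≤ K ⊔ B (n + 1)) hX.b0.hk
    (hk₀ (n + 1)) hX.le (hh (n + 1)) (le_sup_left : K₀ ≤ K₀ ⊔ B (n + 1)) gK gL'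
    (by
      intro ρ q1 q2
      apply GCC.triv (hk (n + 1)) ρ
      · intro x hx
        exact q1 x hx
      · intro x hx
        exact q2 x ((le_sup_right : B (n + 1) ≤ K₀ ⊔ B (n + 1)) hx))
    (by rw [d1, d3]; ring)
  have fP : Fintype (NC (hk (n + 1)) (K₀ ⊔ B (n + 1))) := Fintype.ofFinite _
  have fQ : Fintype (NC (hk n) (K₀ ⊔ B n)) := Fintype.ofFinite _
  have fR : Fintype (NC hX.b.hk K₀) := Fintype.ofFinite _
  have pr1 : ∀ x : ↥(K ⊔ B n), ((∏ g : NC (hk (n + 1)) (K₀ ⊔ B (n + 1)),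
      (g : ↥(K ⊔ B (n + 1)) ≃ₐ[k] ↥(K ⊔ B (n + 1))) ⟨(x : ℂ), hL x.2⟩ : ↥(K ⊔ B (n + 1))) : ℂ) =
      ∏ g : NC (hk n) (K₀ ⊔ B n), (((g : ↥(K ⊔ B n) ≃ₐ[k] ↥(K ⊔ B n)) x : ↥(K ⊔ B n)) : ℂ) := by
    intro x
    refine (map_prod (K ⊔ B (n + 1)).val _ _).trans ?_
    exact Fintype.prod_equiv e _ _ (fun g => (he g x).symm)
  have pr2 : ∀ x : K, ((∏ g : NC (hk (n + 1)) (K₀ ⊔ B (n + 1)),
      (g : ↥(K ⊔ B (n + 1)) ≃ₐ[k] ↥(K ⊔ B (n + 1)))
        ⟨(x : ℂ), (le_sup_left : K ≤ K ⊔ B (n + 1)) x.2⟩ : ↥(K ⊔ B (n + 1))) : ℂ) =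
      ((∏ g : NC hX.b.hk K₀, (g : K ≃ₐ[k] K) x : K) : ℂ) := by
    intro x
    refine (map_prod (K ⊔ B (n + 1)).val _ _).trans ?_
    refine Eq.trans ?_ (map_prod K.val _ _).symm
    exact Fintype.prod_equiv e' _ _ (fun g => (he' g x).symm)
  -- `c₀ (n + 1)` and `c₀ n`
  have hc' : (⟨c₀ (n + 1), hh (n + 1) (hI.mem₀ (n + 1))⟩ : ↥(K ⊔ B (n + 1))) =
      ∏ g : NC (hk (n + 1)) (K₀ ⊔ B (n + 1)),
        (g : ↥(K ⊔ B (n + 1)) ≃ₐ[k] ↥(K ⊔ B (n + 1))) ⟨c (n + 1), hI.mem (n + 1)⟩ := by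
    apply Subtype.ext
    refine Eq.trans ?_ (map_prod (K ⊔ B (n + 1)).val _ _).symm
    have h5 := hI.norm (n + 1)
    rw [finprod_eq_prod_of_fintype] at h5
    exact h5
  have hc : c₀ n = ∏ g : NC (hk n) (K₀ ⊔ B n),
      (((g : ↥(K ⊔ B n) ≃ₐ[k] ↥(K ⊔ B n)) ⟨c n, hI.mem n⟩ : ↥(K ⊔ B n)) : ℂ) := by
    have h5 := hI.norm n
    rw [finprod_eq_prod_of_fintype] at h5
    exact h5
  -- the constant
  let y : K := ∏ g : NC hX.b.hk K₀, (g : K ≃ₐ[k] K) ⟨C, hC⟩
  have hy : (y : ℂ) ∈ K₀ := by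
    apply mem_of_fixed hX.b.hk hX.b0.hk gK y
    intro s hs
    show s (∏ g : NC hX.b.hk K₀, (g : K ≃ₐ[k] K) ⟨C, hC⟩) = _
    rw [map_prod]
    exact Fintype.prod_equiv (Equiv.mulLeft (⟨s, hs⟩ : NC hX.b.hk K₀)) _ _ (fun g => rfl)
  have hy0 : (y : ℂ) ≠ 0 := by
    have h5 : y ≠ 0 := by
      apply Finset.prod_ne_zero_iff.2
      intro g _ h6
      have h7 : (⟨C, hC⟩ : K) = 0 := by
        have h8 : (g : K ≃ₐ[k] K) ⟨C, hC⟩ = (g : K ≃ₐ[k] K) 0 := by rw [h6, map_zero]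
        exact (g : K ≃ₐ[k] K).injective h8
      exact hC0 (congrArg Subtype.val h7)
    intro h6
    exact h5 (Subtype.ext h6)
  refine ⟨y, hy, hy0, ?_⟩
  -- the computation
  have s1 : ∏ i ∈ range p, (((σ ^ i) ⟨c₀ (n + 1), hI.mem₀ (n + 1)⟩ : ↥(K₀ ⊔ B (n + 1))) : ℂ) =
      ((∏ i ∈ range p, (τ ^ i) ⟨c₀ (n + 1), hh (n + 1) (hI.mem₀ (n + 1))⟩ :
        ↥(K ⊔ B (n + 1))) : ℂ) := by
    refine Eq.trans ?_ (map_prod (K ⊔ B (n + 1)).val _ _).symm
    exact Finset.prod_congr rfl fun i _ => (hpow i ⟨c₀ (n + 1), hI.mem₀ (n + 1)⟩).symm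
  have s2 : (∏ i ∈ range p, (τ ^ i) ⟨c (n + 1), hI.mem (n + 1)⟩ : ↥(K ⊔ B (n + 1))) =
      ⟨C, (le_sup_left : K ≤ K ⊔ B (n + 1)) hC⟩ * ⟨c n, hL (hI.mem n)⟩ := by
    apply Subtype.ext
    refine (map_prod (K ⊔ B (n + 1)).val _ _).trans ?_
    exact hCe
  have s3 : (∏ i ∈ range p, (τ ^ i) ⟨c₀ (n + 1), hh (n + 1) (hI.mem₀ (n + 1))⟩ :
        ↥(K ⊔ B (n + 1))) =
      (∏ g : NC (hk (n + 1)) (K₀ ⊔ B (n + 1)), (g : ↥(K ⊔ B (n + 1)) ≃ₐ[k] ↥(K ⊔ B (n + 1)))
        ⟨C, (le_sup_left : K ≤ K ⊔ B (n + 1)) hC⟩) *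
      ∏ g : NC (hk (n + 1)) (K₀ ⊔ B (n + 1)), (g : ↥(K ⊔ B (n + 1)) ≃ₐ[k] ↥(K ⊔ B (n + 1)))
        ⟨c n, hL (hI.mem n)⟩ := by
    rw [hc', ← Finset.prod_mul_distrib]
    simp only [map_prod]
    rw [Finset.prod_comm]
    refine Finset.prod_congr rfl fun g _ => ?_
    rw [← map_mul, ← s2, map_prod]
    refine Finset.prod_congr rfl fun i _ => ?_
    rw [← AlgEquiv.mul_apply, ← AlgEquiv.mul_apply, cL']
  have hcoe : ∀ (x y : ↥(K ⊔ B (n + 1))), ((x * y : ↥(K ⊔ B (n + 1))) : ℂ) = (x : ℂ) * (y : ℂ) :=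
    fun x y => rfl
  rw [s1, s3, hcoe, pr2 ⟨C, hC⟩, pr1 ⟨c n, hI.mem n⟩, ← hc]

end Pool.Agent.NSI


end

section

/-!
# MUX-NS, block IN: the sums of the logarithmic derivatives (TSH), `e` modulo any ideal `g` dividing `f q0`
-/

set_option autoImplicit false

namespace Pool.Agent.NSI

open _root_.MU3 _root_.Pool.Agent.MU3 _root_.Pool.Agent.MU3A _root_.Pool.Agent.MU3B _root_.Pool.Agent.RI _root_.Pool.Agent.RID
  _root_.Pool.Agent.MUX _root_.Pool.Agent.MUXK _root_.Pool.Agent.MUXI _root_.Pool.Agent.NS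
open _root_.Pool.Agent.MU3I (w3 zt)

noncomputable section

open _root_.Pool.Agent.MUXI.TSH in
theorem tn_TSH (h1 : Pool.Agent.MUXI.Si_PTP) (h3 : Pool.Agent.MUXF.Sx_ALG) : Sn_TSH := by
  intro p A B f hS g hg ι R n e he i t
  have hCQ : CQ A B := hS.cq
  obtain ⟨alg1, alg2, alg3, alg4, -⟩ := h3 A B (Pool.Agent.MUXY.cqF hCQ)
  have hpq : p ∣ q0 p := by
    unfold q0
    split_ifs with h
    · rw [h]; norm_num
    · exact dvd_rfl
  have hp0 : p ≠ 0 := by
    rcases hS.hp with h | h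
    · rw [h]; norm_num
    · rw [h]; norm_num
  have hq0 : q0 p ≠ 0 := by
    unfold q0
    split_ifs with h
    · norm_num
    · exact hp0
  have hm0 : lvX p f n ≠ 0 := mul_ne_zero (mul_ne_zero hS.f0 hq0) (pow_ne_zero _ hp0)
  obtain ⟨ptp1, ptp2⟩ := h1 A B hCQ (p * f) ι R (lvX p f n) hm0 i
  have hmO : ((lvX p f n : ℕ) : OO A B) ≠ 0 := by
    intro h0
    have h5 := (alg3 (lvX p f n : ℤ)).1
    rw [Int.cast_natCast, h0, (alg2 0).1.2 rfl] at h5
    apply hm0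
    exact_mod_cast h5.symm
  have hfin : Finite (OO A B ⧸ Ideal.span {((lvX p f n : ℕ) : OO A B)}) := by
    apply alg4
    rw [Ne, Ideal.span_singleton_eq_bot]
    exact hmO
  have hmM : lvX p f n = f * (q0 p * p ^ n) := by unfold lvX; ring
  have hcN := cop_nat p f n hpq
  have hcZ : IsCoprime ((aX p f : ℕ) : ℤ) ((lvX p f n : ℕ) : ℤ) :=
    Nat.isCoprime_iff_coprime.2 hcN
  have hcO : IsCoprime ((aX p f : ℕ) : OO A B) ((lvX p f n : ℕ) : OO A B) := by
    have h5 := hcZ.map (Int.castRingHom (OO A B))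
    simpa using h5
  have hl0 : ((lvX p f 0 : ℕ) : OO A B) ∈ g := hg (Ideal.mem_span_singleton_self _)
  have hle : idl (A := A) (B := B) (lvX p f n) ≤ g := by
    rw [Ideal.span_singleton_le_iff_mem]
    have h5 : ((lvX p f n : ℕ) : OO A B) = ((lvX p f 0 : ℕ) : OO A B) * ((p ^ n : ℕ) : OO A B) := by
      rw [← Nat.cast_mul]
      congr 1
      unfold lvX
      ring
    rw [h5]
    exact g.mul_mem_right _ hl0
  have hea : ∀ x, e (((aX p f : ℕ) : OO A B) * x) = e x := by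
    intro x
    rw [he.mul, he.per ((aX p f : ℕ) : OO A B) 1, he.one, one_mul]
    have h5 : ((aX p f : ℕ) : OO A B) - 1 = ((lvX p f 0 : ℕ) : OO A B) * 2 := by
      unfold aX lvX
      push_cast
      ring
    rw [h5]
    exact g.mul_mem_right _ hl0
  -- the summands
  set F0 : ℤ → OO A B → ℂ := fun c x =>
    if ((q0 p * p ^ n : ℕ) : ℤ) ∣ nm x * nI (R.b i) - c then
      e x * ee (R.L i) (pt R (lvX p f n) i x) else 0 with hF0
  have hMm : ((q0 p * p ^ n : ℕ) : ℤ) ∣ ((lvX p f n : ℕ) : ℤ) :=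
    ⟨f, by rw [hmM]; push_cast; ring⟩
  have hper : ∀ c, Per ((lvX p f n : ℕ) : OO A B) (F0 c) := by
    intro c x y hxy
    have h5 : ((q0 p * p ^ n : ℕ) : ℤ) ∣ nm x * nI (R.b i) - nm y * nI (R.b i) := by
      rw [← sub_mul]
      exact (hMm.trans (nm_per _ hxy)).mul_right _
    have h6 : ((q0 p * p ^ n : ℕ) : ℤ) ∣ nm x * nI (R.b i) - c ↔
        ((q0 p * p ^ n : ℕ) : ℤ) ∣ nm y * nI (R.b i) - c := by
      constructor
      · intro h7
        have := dvd_sub h7 h5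
        rwa [sub_sub_sub_cancel_left, show nm y * (nI (R.b i) : ℤ) - c =
          nm y * (nI (R.b i) : ℤ) - c from rfl] at this
      · intro h7
        have := dvd_add h5 h7
        rwa [sub_add_sub_cancel] at this
    simp only [hF0]
    rw [he.per x y (hle hxy), (ptp1 x y hxy).2.1]
    by_cases h7 : ((q0 p * p ^ n : ℕ) : ℤ) ∣ nm x * nI (R.b i) - c
    · rw [if_pos h7, if_pos (h6.1 h7)]
    · rw [if_neg h7, if_neg (fun h8 => h7 (h6.2 h8))]
  have hcop2 : IsCoprime ((q0 p * p ^ n : ℕ) : ℤ) ((aX p f : ℤ) ^ 2) := by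
    have h5 := (hcZ.of_isCoprime_of_dvd_right hMm).symm
    exact h5.pow_right
  have hnma : ∀ x : OO A B, nm (((aX p f : ℕ) : OO A B) * x) = (aX p f : ℤ) ^ 2 * nm x := by
    intro x
    have h5 := (alg3 (aX p f : ℤ)).2
    rw [Int.cast_natCast] at h5
    rw [(alg1 _ _).2.2, h5]
  have hdv : ∀ x : OO A B, ((q0 p * p ^ n : ℕ) : ℤ) ∣
      nm (((aX p f : ℕ) : OO A B) * x) * nI (R.b i) - (aX p f : ℤ) ^ 2 * t ↔
      ((q0 p * p ^ n : ℕ) : ℤ) ∣ nm x * nI (R.b i) - t := by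
    intro x
    rw [hnma, show (aX p f : ℤ) ^ 2 * nm x * (nI (R.b i) : ℤ) - (aX p f : ℤ) ^ 2 * t =
      (aX p f : ℤ) ^ 2 * (nm x * (nI (R.b i) : ℤ) - t) by ring]
    exact ⟨fun h => hcop2.dvd_of_dvd_mul_left h, fun h => h.mul_left _⟩
  have hS1 : ∀ c, SnX R (lvX p f n) (q0 p * p ^ n) e i c =
      muX R i * sumMod ((lvX p f n : ℕ) : OO A B) (F0 c) := fun c => rfl
  have hS2 : sumMod ((lvX p f n : ℕ) : OO A B) (F0 ((aX p f : ℤ) ^ 2 * t)) =
      sumMod ((lvX p f n : ℕ) : OO A B)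
        (fun x => F0 ((aX p f : ℤ) ^ 2 * t) (((aX p f : ℕ) : OO A B) * x)) :=
    (sumMod_mul hcO (hper _)).symm
  rw [hS1, hS1, hS2]
  have key : sumMod ((lvX p f n : ℕ) : OO A B) (fun x =>
      if ((q0 p * p ^ n : ℕ) : ℤ) ∣ nm x * nI (R.b i) - t then
        e x * dlX (R.L i) (aX p f) (pt R (lvX p f n) i x) else 0) =
      (aX p f : ℂ) * sumMod ((lvX p f n : ℕ) : OO A B)
        (fun x => F0 ((aX p f : ℤ) ^ 2 * t) (((aX p f : ℕ) : OO A B) * x)) -
      (aX p f : ℂ) ^ 2 * sumMod ((lvX p f n : ℕ) : OO A B) (F0 t) := by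
    rw [← sumMod_cmul, ← sumMod_cmul, ← sumMod_sub hfin]
    congr 1
    funext x
    simp only [hF0]
    by_cases h7 : ((q0 p * p ^ n : ℕ) : ℤ) ∣ nm x * nI (R.b i) - t
    · rw [if_pos h7, if_pos ((hdv x).2 h7), if_pos h7, hea, ← ptp2]
      unfold dlX
      ring
    · rw [if_neg h7, if_neg (fun h8 => h7 ((hdv x).1 h8)), if_neg h7]
      ring
  rw [key]
  ring

end

end Pool.Agent.NSI


end

section

/-!
# MUX-NS, block IN, module E0: the characters `e0` and `kp`, for `SetL`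
(`Pool/Agent/MUX/I_E0.lean` by helper42 is for `SetP`; its lemmas are used)
-/

set_option autoImplicit false

namespace Pool.Agent.NSI

open _root_.MU3 _root_.Pool.Agent.MU3 _root_.Pool.Agent.MU3A _root_.Pool.Agent.MU3B _root_.Pool.Agent.RI _root_.Pool.Agent.RID
  _root_.Pool.Agent.MUX _root_.Pool.Agent.MUXK _root_.Pool.Agent.MUXI _root_.Pool.Agent.NS
open _root_.Pool.Agent.MU3I (w3 zt)

noncomputable section

open _root_.Pool.Agent.MUXI.E0

/-- the module E0 -/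
theorem tn_E0 (h1 : Pool.Agent.MUXI.Si_ARF) (h4 : Pool.Agent.MUXF.Sx_NIM) : Sn_E0 := by
  intro p A B f S T ι R K hK hKm hG X r hX
  have hp : p = 3 ∨ p = 2 := S.hp.symm
  have hlv : 3 ≤ lvX p f 0 := by
    have hf : 1 ≤ f := Nat.one_le_iff_ne_zero.2 S.f0
    unfold lvX q0
    rcases hp with rfl | rfl
    · simp; omega
    · simp; omega
  have hm : (idl (lvX p f 0) : Ideal (OO A B)) ≠ ⊥ := by
    rw [Ne, Ideal.span_singleton_eq_bot]
    exact nat_ne (by omega)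
  have hm1 : (idl (lvX p f 0) : Ideal (OO A B)) ≠ ⊤ := by
    rw [Ne, Ideal.span_singleton_eq_top]
    intro hu
    obtain ⟨y, hy⟩ := hu.exists_right_inv
    have h := congrArg QuadraticAlgebra.re hy
    rw [QuadraticAlgebra.re_mul] at h
    simp only [QuadraticAlgebra.re_natCast, QuadraticAlgebra.im_natCast, QuadraticAlgebra.re_one,
      mul_zero, zero_mul, add_zero] at h
    have h' : ((lvX p f 0 : ℕ) : ℤ) ∣ 1 := ⟨_, h.symm⟩
    have h'' := Int.le_of_dvd one_pos h'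
    omega
  have hbot : ∀ a : Ideal (OO A B), IsCoprime a (idl (lvX p f 0)) → a ≠ ⊥ := by
    rintro a ha rfl
    apply hm1
    rw [← Ideal.isCoprime_iff_sup_eq.1 ha, bot_sup_eq]
  obtain ⟨a1, a2, -, a4, a5, -, -⟩ := h1 A B S.cq T ⟨_, _, _, R.nl R.i0⟩
    (idl (lvX p f 0)) hm K hK hKm hG
  let _ : Algebra (kk A B) K := algC hK
  obtain ⟨ψ, s1, s2, s3, s4, s5, s6⟩ := psi (idl (lvX p f 0))
    (fun τ a => AR hK (idl (lvX p f 0)) τ a) X r hX a1
    (fun a ha => a2 a (hbot a ha) ha)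
    (fun τ a h => by obtain ⟨σ, h, -⟩ := h; exact h.cop)
    a4 a5
  have hcop : ∀ x : OO A B, IsCoprime (sp x) (idl (lvX p f 0)) ↔
      IsCoprime x ((lvX p f 0 : ℕ) : OO A B) := fun x => Ideal.isCoprime_span_singleton_iff _ _
  refine ⟨fun x => ψ (sp x), fun i => ψ (cjI (R.b i)), ?_, ?_, ?_, ?_, ?_, ?_, ?_, ?_⟩
  · show ψ (sp 1) = 1
    rw [sp, Ideal.span_singleton_one, s3]
  · show ψ (sp (-1)) = 1
    rw [sp, Ideal.span_singleton_neg, Ideal.span_singleton_one, s3]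
  · intro x y
    show ψ (sp (x * y)) = ψ (sp x) * ψ (sp y)
    rw [← s2, sp, sp, sp, Ideal.span_singleton_mul_span_singleton]
  · intro x y hxy
    show ψ (sp x) = ψ (sp y)
    by_cases hx : IsCoprime (sp x) (idl (lvX p f 0))
    · have hy := cop_sub hxy hx
      have hx0 : x ≠ 0 := by
        rintro rfl
        exact hbot _ hx (by rw [sp, Ideal.span_singleton_eq_bot])
      have hy0 : y ≠ 0 := by
        rintro rfl
        exact hbot _ hy (by rw [sp, Ideal.span_singleton_eq_bot])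
      refine s6 _ _ ⟨y, x, hy0, hx0, hy, ?_, mul_comm _ _⟩ hx hy
      rw [← neg_sub]
      exact neg_mem hxy
    · have hy : ¬ IsCoprime (sp y) (idl (lvX p f 0)) := fun hy => hx (cop_sub (by
        rw [← neg_sub]
        exact neg_mem hxy) hy)
      rw [not_not.1 fun h => hx ((s4 _).1 h), not_not.1 fun h => hy ((s4 _).1 h)]
  · intro x
    exact (s4 _).trans (hcop x)
  · intro x hx
    exact s5 _ hx
  · intro i
    apply s5
    rw [s4]
    obtain ⟨-, -, n3, -⟩ := h4 A B (Pool.Agent.MUXY.cqF S.cq)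
    obtain ⟨-, -, -, n4⟩ := n3 (R.b i) (R.nl i).b_ne
    have h5 : ((nI (R.b i) : ℕ) : OO A B) ∈ cjI (R.b i) := by
      show (starRingEnd (OO A B)) ((nI (R.b i) : ℕ) : OO A B) ∈ R.b i
      rw [map_natCast]
      exact n4
    obtain ⟨u, v, huv⟩ := cop_nat (A := A) (B := B) (lv_cop (R.cop i))
    exact Ideal.isCoprime_iff_exists.2 ⟨u * _, Ideal.mul_mem_left _ _ h5, v * _,
      Ideal.mul_mem_left _ _ (Ideal.mem_span_singleton_self _), huv⟩
  · intro τ i x hx hA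
    show (((X τ)⁻¹ : ℂˣ) : ℂ) = ψ (cjI (R.b i)) * ψ (sp x)
    rw [← s1 τ _ hA, s2, mul_comm]

end

end Pool.Agent.NSI


end

section

/-!
# MUX-NS, block IN: `Sn_FOU` (model `Pool/Agent/MUX/I_FOU.lean`)
-/

set_option autoImplicit false

namespace Pool.Agent.NSI

open _root_.MU3 _root_.Pool.Agent.MU3 _root_.Pool.Agent.MU3A _root_.Pool.Agent.MU3B _root_.Pool.Agent.RI _root_.Pool.Agent.RID
  _root_.Pool.Agent.MUX _root_.Pool.Agent.MUXK _root_.Pool.Agent.MUXI _root_.Pool.Agent.NS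
open _root_.Pool.Agent.MU3I (w3 zt)

namespace Fou41

lemma fou_mem (V : ValuationSubring ℂ) (x : ℂ) (n : ℕ) (hn : n ≠ 0) (hx : x ^ n = 1) :
    x ∈ V := by
  rw [← ValuationSubring.valuation_le_one_iff]
  have h : V.valuation x ^ n = 1 := by rw [← map_pow, hx, map_one]
  exact ((pow_eq_one_iff_of_nonneg zero_le hn).1 h).le

lemma fou_sum {Q : ℂ → Prop} (h0 : Q 0) (hadd : ∀ x y, Q x → Q y → Q (x + y)) {ι : Type}
    (s : Finset ι) (f : ι → ℂ) (hf : ∀ i ∈ s, Q (f i)) : Q (∑ i ∈ s, f i) := by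
  classical
  induction s using Finset.induction_on with
  | empty => simpa using h0
  | insert a s ha ih =>
    rw [Finset.sum_insert ha]
    exact hadd _ _ (hf a (Finset.mem_insert_self a s))
      (ih fun i hi => hf i (Finset.mem_insert_of_mem hi))

end Fou41

open _root_.Pool.Agent.NSI.Fou41 in
theorem tn_FOU : Sn_FOU := by
  intro V Q h0 hadd hmul hdiv G _ _ hcomm γ Δ _ T b N c X hb hT
  refine hdiv _ _ hb ?_
  have hinv : ∀ δ : Δ, (((X δ)⁻¹ : ℂˣ) : ℂ) ∈ V := by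
    intro δ
    refine fou_mem V _ (Fintype.card Δ) Fintype.card_ne_zero ?_
    rw [← Units.val_pow_eq_pow_val, ← map_inv, ← map_pow, pow_card_eq_one, map_one, Units.val_one]
  have key : (∑ δ : Δ, (b δ : ℂ) * (X δ : ℂ)) * (∑ j ∈ Finset.range (N + 1), (c j : ℂ) *
      ∑ δ : Δ, (((X δ)⁻¹ : ℂˣ) : ℂ) * T (γ ^ j * (δ : G))) =
      ∑ δ' : Δ, (((X δ')⁻¹ : ℂˣ) : ℂ) * ∑ δ : Δ, ∑ j ∈ Finset.range (N + 1),
      (b δ : ℂ) * (c j : ℂ) * T ((δ : G) * γ ^ j * (δ' : G)) := by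
    rw [Finset.sum_mul]
    simp only [Finset.mul_sum]
    conv_rhs => rw [Finset.sum_comm]
    refine Finset.sum_congr rfl fun δ _ => ?_
    conv_rhs => rw [Finset.sum_comm]
    refine Finset.sum_congr rfl fun j _ => ?_
    rw [← Equiv.sum_comp (Equiv.mulLeft δ)]
    refine Finset.sum_congr rfl fun δ' _ => ?_
    have h1 : γ ^ j * ((Equiv.mulLeft δ δ' : Δ) : G) = (δ : G) * γ ^ j * (δ' : G) := by
      simp only [Equiv.coe_mulLeft, Subgroup.coe_mul]
      rw [← mul_assoc, hcomm (γ ^ j) (δ : G)]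
    rw [h1]
    have h2 : (((X (Equiv.mulLeft δ δ'))⁻¹ : ℂˣ) : ℂ) =
        (((X δ)⁻¹ : ℂˣ) : ℂ) * (((X δ')⁻¹ : ℂˣ) : ℂ) := by
      simp only [Equiv.coe_mulLeft, map_mul, mul_inv, Units.val_mul]
    rw [h2]
    have h3 : (X δ : ℂ) * (((X δ)⁻¹ : ℂˣ) : ℂ) = 1 := Units.mul_inv (X δ)
    linear_combination ((b δ : ℂ) * (c j : ℂ) * (((X δ')⁻¹ : ℂˣ) : ℂ) *
      T ((δ : G) * γ ^ j * (δ' : G))) * h3
  rw [key]
  exact fou_sum h0 hadd _ _ fun δ' _ => hmul _ _ (hinv δ') (hT δ')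

end Pool.Agent.NSI


end

section

/-!
# MUX-NS, block IN: all statements of `StIN.lean` (helper36). The only input is `Sn_HFIN` (block H)
-/

set_option autoImplicit false

namespace Pool.Agent.NSI

open _root_.Pool.Agent.MUXF _root_.Pool.Agent.MUXU _root_.Pool.Agent.MUXY _root_.Pool.Agent.MUXK _root_.Pool.Agent.MUXI

theorem n_EPS : Sn_EPS := tn_EPS
theorem n_TEI : Sn_TEI := tn_TEI
theorem n_FOU : Sn_FOU := tn_FOU
theorem n_E0 : Sn_E0 := tn_E0 i_ARF xf_NIM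
theorem n_SUB : Sn_SUB := tn_SUB i_LAY i_IAF
theorem n_XMX : Sn_XMX := tn_XMX i_XXF i_ARF i_LAY
theorem n_TSH : Sn_TSH := tn_TSH i_PTP xf_ALG
theorem n_TH : Sn_TH := tn_TH n_TSH
theorem n_NR1 : Sn_NR1 := tn_NR1 k_GALX k_GENX k_LFX
theorem n_NRX : Sn_NRX := tn_NRX n_NR1 k_RSX
theorem n_LEM1 : Sn_LEM1 := tn_LEM1 k_GALX k_RSX
theorem n_I31 (hH : Pool.Agent.NS.Sn_HFIN) : Sn_I31 :=
  tn_I31 Pool.Agent.MUXJ.j_RES i_CHI n_FOU Pool.Agent.MU3I.t_ITG n_EPS n_TEI n_E0 i_ARF i_XXF n_SUB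
    i_GAM n_XMX i_BIJ n_TH i_GEN hH k_GALX

/-- the result of block IN -/
theorem n_INP (hH : Pool.Agent.NS.Sn_HFIN) : Sn_INP := tn_INP (n_I31 hH) n_LEM1 n_NRX

end Pool.Agent.NSI


end
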