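import Mathlib
import Pool.Agent.MVF.C047
import Pool.Agent.MVF.C105
import Pool.Agent.MVF.C108
import Pool.Agent.MVF.C113
import Pool.Agent.MVF.C116

/-! Parts: N2.G_GdnQ, N2.G_GptT, N2.GS_Gde, ME.G_Lib, ME2.G_GPT3, VB.V_BND -/

namespace Pool.Agent.VB.BND
end Pool.Agent.VB.BND

section

/-!
# N2, block G2N (helper6): the data for Theorem G, for the translates by `t / q` of the symbols (`NS/G_Gdn.lean`, `27` replaced by `q`)
-/

set_option autoImplicit false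

namespace Pool.Agent.N2

open _root_.MU3 _root_.Pool.Agent.MU3A _root_.Pool.Agent.MU3B _root_.Pool.Agent.MU3Q _root_.Pool.Agent.MUX _root_.Pool.Agent.MuSym
  _root_.Pool.Agent.MUXN _root_.Pool.Agent.NS _root_.Pool.Agent.NSG OnePoint UpperHalfPlane

noncomputable section

variable {A B : ℤ} {n : ℕ} {ι : Type} (q : ℕ)

/-- the symbols -/
def PsQ (R : Reps A B n ι) (e : OO A B → ℂ) (j : ι × EC e × Fin q) (x y : OnePoint ℚ) : ℂ :=
  PhiI (R.b j.1) j.2.1 (mob q (j.2.2 : ℕ) 0 q x) (mob q (j.2.2 : ℕ) 0 q y)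

/-- their primitives -/
def ThQ (R : Reps A B n ι) (e : OO A B → ℂ) (j : ι × EC e × Fin q) (τ : ℂ) : ℂ :=
  thetaIntI (R.b j.1) j.2.1 (τ + ((j.2.2 : ℕ) : ℤ) / q)

/-- `ζ_q` -/
def zq : ℂ := Complex.exp (2 * Real.pi * Complex.I / q)

/-- the first coefficients -/
def a1Q (R : Reps A B n ι) (e : OO A B → ℂ) (j : ι × EC e × Fin q) : ℂ :=
  open Classical in if j.1 = R.i0 then zq q ^ (j.2.2 : ℕ) else 0

theorem zq_pow {q : ℕ} (hq : q ≠ 0) : zq q ^ q = 1 :=
  (Complex.isPrimitiveRoot_exp q hq).pow_eq_one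

theorem zq_int {q : ℕ} (hq : q ≠ 0) : IsIntegral ℤ (zq q) :=
  IsIntegral.of_pow (n := q) (Nat.pos_of_ne_zero hq) (by rw [zq_pow hq]; exact isIntegral_one)

open _root_.Pool.Agent.MUXY in
/-- the data for Theorem G, for `g = (n)` -/
theorem gdatQ {q : ℕ} (hq : 0 < q) (h2 : MUXT.Xs_FTI) (h3 : MUXF.Sx_CHI) (h4 : Sy_CON) (h5 : Sy_ALP)
    (h7 : Sy_FEC) (h8 : Sy_COP) (hA : MUXF.Sx_ALG) (hI : MUXF.Sx_IDL) (hQB : MUXF.Sx_QB)
    (hBD : MUXF.Sx_BDD) (hTS : MUXF.Sx_TSM) (hQ : MUX.CQ A B)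
    (u1 : ∀ x : OO A B, nm x = 1 → x = 1 ∨ x = -1)
    (u2 : ∀ (b : Ideal (OO A B)) (_ : b ≠ ⊥) (x : OO A B), x ∈ b → nm x = MUX.nI b → b = MUX.sp x)
    (hT : TorX A B) [hι : Finite ι] (hn : 2 ≤ n) (R : Reps A B n ι) (e : OO A B → ℂ)
    (he : IsEI (idl n) e) (r : ℕ) (hr : r ≠ 0) (her : ∀ x, e x ≠ 0 → e x ^ r = 1) (u : ℂ)
    (hu : u ≠ 0) (hua : IsAlgebraic ℚ u) (N' : ℕ) (hN : N' ≠ 0)
    (hNd : absD A B * (n : ℤ) ^ 2 ∣ (N' : ℤ)) :
    GDatN A B (ι × EC e × Fin q) (PsQ q R e) (ThQ q R e) (a1Q q R e) (u * R.om R.i0)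
      (q ^ 2 * N') := by
  classical
  have hn0 : n ≠ 0 := by omega
  set g : Ideal (OO A B) := idl n with hg
  have hpf : ((n : ℕ) : OO A B) ∈ g := Ideal.mem_span_singleton_self _
  have hgb : g ≠ ⊥ := by
    intro h
    rw [h, Ideal.mem_bot] at hpf
    exact Gdt.nat_ne _ hn0 hpf
  have hgt : g ≠ ⊤ := by
    intro h
    rw [Ideal.eq_top_iff_one, hg, Ideal.mem_span_singleton] at h
    obtain ⟨y, hy⟩ := h
    have h1 := congrArg QuadraticAlgebra.re hy
    rw [QuadraticAlgebra.re_one, QuadraticAlgebra.re_mul, QuadraticAlgebra.re_natCast,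
      QuadraticAlgebra.im_natCast, mul_zero, zero_mul, add_zero] at h1
    have h9 : (n : ℤ) ∣ 1 := ⟨y.re, h1⟩
    have h10 : (n : ℤ) ≤ 1 := Int.le_of_dvd one_pos h9
    omega
  have hcop : ∀ i, IsCoprime (MUX.sp ((MUX.nI (R.b i) : ℕ) : OO A B)) g :=
    h8 A B n ι R g 1 (by rw [pow_one]; exact hpf)
  have hEI : ∀ e' ∈ EC e, IsEI g e' := by
    rintro e' ⟨σ, rfl⟩
    exact Gdt.ei_conj he σ
  have hEr : ∀ e' ∈ EC e, ∀ x, e' x ≠ 0 → e' x ^ r = 1 := by
    rintro e' ⟨σ, rfl⟩ x hx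
    show σ (e x) ^ r = 1
    have hx' : e x ≠ 0 := by
      intro h0
      apply hx
      show σ (e x) = 0
      rw [h0, map_zero]
    rw [← map_pow, her x hx', map_one]
  have hEG : ∀ e' ∈ EC e, ∀ x y : OO A B, ((n : ℕ) : OO A B) ∣ x - y → e' x = e' y := by
    rintro e' he' x y ⟨z, hz⟩
    apply (hEI e' he').per
    rw [hz]
    exact Ideal.mul_mem_right _ _ hpf
  have hb : ∀ i, R.b i ≠ ⊥ := fun i => (R.nl i).b_ne
  have hNd' : -(B ^ 2 + 4 * A) * ((n : ℕ) : ℤ) ^ 2 ∣ (N' : ℤ) := by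
    have : -(B ^ 2 + 4 * A) * ((n : ℕ) : ℤ) ^ 2 = absD A B * n ^ 2 := by
      unfold absD
      push_cast
      ring
    rw [this]
    exact hNd
  have hF : ∀ e' ∈ EC e, ∀ i, _ := fun e' he' i =>
    (h2 A B hQ.hB hQ.neg (R.b i) (hb i) e' n (Nat.pos_of_ne_zero hn0)
      (hEI e' he').mul (hEG e' he') (hEI e' he').neg).2 N' hN hNd'
  have hDN : absD A B ∣ (N' : ℤ) := dvd_trans (Dvd.intro _ rfl) hNd
  have hGN : ((n : ℕ) : ℤ) ∣ (N' : ℤ) := by
    refine dvd_trans ?_ hNd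
    exact ⟨absD A B * n, by push_cast; ring⟩
  have hnu : ∀ e' ∈ EC e, ∀ d : ℤ, (N' : ℤ) ∣ d - 1 →
      (MUXT.chiQ A B d : ℂ) * e' (d : OO A B) = 1 := by
    intro e' he' d hd
    have h10 : MUXF.chiQ A B d = 1 := by
      have := (h3 A B (cqF hQ) 1 isCoprime_one_left).2.2 d (by
        rw [← dvd_neg, neg_sub]
        exact dvd_trans hDN hd)
      rw [this, Gdt.chiQ_one]
    have h11 : e' (d : OO A B) = 1 := by
      rw [← (hEI e' he').one]
      apply (hEI e' he').per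
      obtain ⟨t, ht⟩ := dvd_trans hGN hd
      have h12 : (d : OO A B) - 1 = ((n : ℕ) : OO A B) * (t : OO A B) := by
        have := congrArg (fun z : ℤ => (z : OO A B)) ht
        push_cast at this
        push_cast
        exact this
      rw [h12]
      exact Ideal.mul_mem_right _ _ hpf
    have h13 : MUXT.chiQ A B d = 1 := h10
    rw [h13, h11]
    norm_num
  have hS : ∀ (i : ι) (e' : OO A B → ℂ), e' ∈ EC e →
      SymN N' (PhiI (R.b i) e') (thetaIntI (R.b i) e') := by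
    intro i e' he'
    refine
      { pos := Nat.pos_of_ne_zero hN
        add := ?_
        inv := ?_
        per := ?_
        cusp := ?_ }
    · intro x y z
      unfold PhiI
      ring
    · intro a b c d hdet hc hd x y
      have := (hF e' he' i).1.equiv a b c d hdet hc x y
      rw [hnu e' he' d hd, one_mul] at this
      exact this
    · intro a b c d hdet hc hd τ hτ
      have := ((hF e' he' i).2.1 a b c d hdet hc τ hτ).2
      rw [hnu e' he' d hd, one_mul] at this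
      exact this
    · intro a b c d hdet
      obtain ⟨w, hw⟩ := (hF e' he' i).2.2 a b c d hdet
      exact ⟨_, w, hw⟩
  have hqC : (q : ℂ) ≠ 0 := by exact_mod_cast hq.ne'
  have hST : ∀ j : ι × EC e × Fin q, SymN (q ^ 2 * N') (PsQ q R e j) (ThQ q R e j) := fun j =>
    TrQ.tr (hS j.1 j.2.1 j.2.1.2) q hq ((j.2.2 : ℕ) : ℤ)
  refine
    { pos := Nat.mul_pos (by positivity) (Nat.pos_of_ne_zero hN)
      add := fun j => (hST j).add
      inv := fun j => (hST j).inv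
      per := fun j => (hST j).per
      cusp := fun j => (hST j).cusp
      qexp := ?_
      rat := ?_
      alg := ?_ }
  · rintro ⟨i, ⟨e', he'⟩, t⟩
    obtain ⟨α, hα1, ⟨K, hK1, hK2⟩, hα3, hα4, hα5⟩ :=
      qx hA hI hQB hBD hTS A B hQ u1 u2 n ι R g hgb e' (hEI e' he') r hr (hEr e' he') i
    refine ⟨fun m => α m * zq q ^ ((t : ℕ) * m), ?_, ?_, ?_, ?_⟩
    · intro m
      exact (hα1 m).mul ((zq_int hq.ne').pow _)
    · set K1 : IntermediateField ℚ ℂ := K.toIntermediateField fun x => by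
        have : (algebraMap ℚ ℂ x) = (x : ℂ) := rfl
        rw [this]
        exact SubfieldClass.ratCast_mem K x
      set K2 : IntermediateField ℚ ℂ := IntermediateField.adjoin ℚ {zq q}
      have hf1 : FiniteDimensional ℚ K1 := hK1.to_finiteDimensional
      have hf2 : FiniteDimensional ℚ K2 :=
        IntermediateField.adjoin.finiteDimensional (zq_int hq.ne').tower_top
      have hf3 : FiniteDimensional ℚ ↥(K1 ⊔ K2) := IntermediateField.finiteDimensional_sup K1 K2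
      refine ⟨(K1 ⊔ K2).toSubfield, ?_, fun m => ?_⟩
      · have h4 : NumberField ↥(K1 ⊔ K2) := ⟨⟩
        exact h4
      · show α m * zq q ^ ((t : ℕ) * m) ∈ K1 ⊔ K2
        have m1 : α m ∈ K1 ⊔ K2 := (le_sup_left : K1 ≤ K1 ⊔ K2) (hK2 m)
        have m2 : zq q ∈ K1 ⊔ K2 := (le_sup_right : K2 ≤ K1 ⊔ K2)
          (IntermediateField.mem_adjoin_simple_self ℚ (zq q))
        exact mul_mem m1 (pow_mem m2 _)
    · show α 1 * zq q ^ ((t : ℕ) * 1) = if i = R.i0 then zq q ^ (t : ℕ) else 0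
      rw [mul_one]
      split_ifs with hi
      · rw [hα3 hi, one_mul]
      · rw [hα4 hi, zero_mul]
    · intro τ hτ
      have him : 0 < (τ + (((t : ℕ) : ℤ) : ℂ) / q).im := by
        have : ((((t : ℕ) : ℤ) : ℂ) / q).im = 0 := by
          have : ((((t : ℕ) : ℤ) : ℂ) / q) = (((t : ℕ) / q : ℝ) : ℂ) := by push_cast; ring
          rw [this]
          exact Complex.ofReal_im _
        rw [Complex.add_im, this, add_zero]
        exact hτ
      have h9 := hα5 _ him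
      show HasSum _ (thetaIntI (R.b i) e' (τ + (((t : ℕ) : ℤ) : ℂ) / q))
      have e1 : (fun m : ℕ => α m / m * Complex.exp (2 * Real.pi * Complex.I *
          (τ + (((t : ℕ) : ℤ) : ℂ) / q)) ^ m) = fun m : ℕ => α m * zq q ^ ((t : ℕ) * m) / m *
          Complex.exp (2 * Real.pi * Complex.I * τ) ^ m := by
        funext m
        have e2 : Complex.exp (2 * Real.pi * Complex.I * (τ + (((t : ℕ) : ℤ) : ℂ) / q)) =
            zq q ^ (t : ℕ) * Complex.exp (2 * Real.pi * Complex.I * τ) := by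
          unfold zq
          rw [← Complex.exp_nat_mul, ← Complex.exp_add]
          congr 1
          push_cast
          ring
        rw [e2, mul_pow, ← pow_mul]
        ring
      rw [e1] at h9
      exact h9
  · intro σ hσ
    rintro ⟨i, ⟨e', he'⟩, t⟩
    obtain ⟨-, j, C, -, hC0, hC⟩ := h4 A B hQ hT n ι R g e' hgb hgt (hEI e' he') hcop σ hσ i
    obtain ⟨τ, hτ⟩ := he'
    subst hτ
    refine ⟨⟨j, ⟨fun x => σ (τ (e x)), ⟨τ.trans σ, rfl⟩⟩, t⟩, C * u / σ u, fun x y => ?_⟩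
    have hσu : σ u ≠ 0 := (map_ne_zero σ).2 hu
    have ho : R.om R.i0 ≠ 0 := (R.nl R.i0).om_ne
    have e1 : PsQ q R e (i, ⟨fun x => τ (e x), ⟨τ, rfl⟩⟩, t) x y / (u * R.om R.i0) =
        PhiI (R.b i) (fun x => τ (e x)) (mob q (t : ℕ) 0 q x) (mob q (t : ℕ) 0 q y) /
          R.om R.i0 / u := by
      unfold PsQ
      rw [div_div, mul_comm u]
    rw [e1, map_div₀, hC]
    unfold PsQ
    field_simp
  · rintro ⟨i, ⟨e', he'⟩, t⟩ x y
    have h9 := (h5 A B hQ hT n ι hι R g e' hgb hgt (hEI e' he') hcop r hr (hEr e' he') i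
      (mob q (t : ℕ) 0 q x) (mob q (t : ℕ) 0 q y)).2
    have e1 : PsQ q R e (i, ⟨e', he'⟩, t) x y / (u * R.om R.i0) =
        PhiI (R.b i) e' (mob q (t : ℕ) 0 q x) (mob q (t : ℕ) 0 q y) / R.om R.i0 * u⁻¹ := by
      unfold PsQ
      have ho : R.om R.i0 ≠ 0 := (R.nl R.i0).om_ne
      field_simp
    rw [e1]
    exact h9.mul hua.inv

end

end Pool.Agent.N2


end

section

/-!
# N2, block G2N (helper6): Theorem G for combinations of translates of `PhiK R e kk / (u om)`, and `S2_GPT`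
-/

set_option autoImplicit false

namespace Pool.Agent.N2

open _root_.MU3 _root_.Pool.Agent.MU3A _root_.Pool.Agent.MU3B _root_.Pool.Agent.MU3Q _root_.Pool.Agent.MUX _root_.Pool.Agent.MuSym
  _root_.Pool.Agent.MUXN _root_.Pool.Agent.NS _root_.Pool.Agent.NSG OnePoint UpperHalfPlane

noncomputable section

variable {A B : ℤ}

/-- Theorem G for the combination `Σ_t cc t P(x + t/q, y + t/q)` of translates of `P = PhiK R e kk / (u om)` -/
theorem gptQ (k1 : Sg_RET) (k2 : Sg_NFE) (k3 : Sg_DSC) (k4 : Sg_ZL) (k5 : Sg_FK) (k6 : Sg_FGG)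
    (h2 : MUXT.Xs_FTI)
    (h3 : MUXF.Sx_CHI) (h4 : MUXY.Sy_CON) (h5 : MUXY.Sy_ALP)
    (h7 : MUXY.Sy_FEC) (h8 : MUXY.Sy_COP) (hA : MUXF.Sx_ALG) (hI : MUXF.Sx_IDL)
    (hQB : MUXF.Sx_QB) (hBD : MUXF.Sx_BDD) (hTS : MUXF.Sx_TSM) {V : ValuationSubring ℂ}
    (hc : CQ A B) (u1 : ∀ x : OO A B, nm x = 1 → x = 1 ∨ x = -1)
    (u2 : ∀ (b : Ideal (OO A B)) (_ : b ≠ ⊥) (x : OO A B), x ∈ b → nm x = MUX.nI b → b = MUX.sp x)
    (hLoc : LocN A B V) (hT : TorX A B) {n : ℕ} (hn : 2 ≤ n) {ι : Type} [Fintype ι]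
    (R : Reps A B n ι) {u : ℂ} (hu : u ≠ 0) (hua : IsAlgebraic ℚ u) {L' : PeriodPair}
    {S₀ : Finset ℂ} (hB : BinP V L' S₀) (hL : LatO A B L' (u * R.om R.i0)) {e : OO A B → ℂ}
    (he : IsEI (idl (A := A) (B := B) n) e) {r : ℕ} (hr : r ≠ 0)
    (her : ∀ x, e x ≠ 0 → e x ^ r = 1) {kk : ι → ℂ} (hkk : V.valuation (kk R.i0) = 1)
    {N' : ℕ} (hN' : N' ≠ 0) (hNd : absD A B * ((n : ℕ) : ℤ) ^ 2 ∣ (N' : ℤ)) {q : ℕ} (hq : 0 < q)
    (cc : Fin q → ℂ) (hs : ∑ t, cc t * zq q ^ (t : ℕ) ≠ 0) :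
    ∃ a b c d : ℤ, a * d - b * c = 1 ∧ (N' : ℤ) ∣ c ∧ (N' : ℤ) ∣ d - 1 ∧
      V.valuation (∑ t, cc t * zq q ^ (t : ℕ)) ≤ V.valuation (∑ t : Fin q, cc t *
        (PhiK R e kk (mob q (t : ℕ) 0 q ∞) (mob q (t : ℕ) 0 q (mob a b c d ∞)) /
          (u * R.om R.i0))) := by
  classical
  have hD := gdatQ hq h2 h3 h4 h5 h7 h8 hA hI hQB hBD hTS hc u1 u2 hT hn R e he r hr her u hu
    hua N' hN' hNd
  have hfE : Finite (EC e) := (h7 A B e r hr her).1
  have hFt : Fintype (EC e) := Fintype.ofFinite _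
  have heE : e ∈ EC e := ⟨RingEquiv.refl ℂ, rfl⟩
  obtain ⟨s, hs'⟩ : ∃ s, s = ∑ t, cc t * zq q ^ (t : ℕ) := ⟨_, rfl⟩
  rw [← hs'] at hs ⊢
  set w : ι × EC e × Fin q → ℂ := fun j => if j.2.1 = ⟨e, heE⟩ then kk j.1 * cc j.2.2 / s else 0
    with hw
  have hsum : ∀ F : ι × EC e × Fin q → ℂ, ∑ j, w j * F j =
      ∑ i, ∑ t, kk i * cc t / s * F (i, ⟨e, heE⟩, t) := by
    intro F
    rw [Fintype.sum_prod_type]
    refine Finset.sum_congr rfl fun i _ => ?_
    rw [Fintype.sum_prod_type, Finset.sum_eq_single (⟨e, heE⟩ : EC e)]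
    · refine Finset.sum_congr rfl fun t _ => ?_
      rw [hw]
      beta_reduce
      rw [if_pos rfl]
    · intro e' _ he'
      refine Finset.sum_eq_zero fun t _ => ?_
      rw [hw]
      beta_reduce
      rw [if_neg he', zero_mul]
    · intro h
      exact absurd (Finset.mem_univ _) h
  have hα : ∑ j, w j * a1Q q R e j = kk R.i0 := by
    rw [hsum, Finset.sum_eq_single R.i0]
    · have e1 : ∀ t : Fin q, kk R.i0 * cc t / s * a1Q q R e (R.i0, ⟨e, heE⟩, t) =
          kk R.i0 / s * (cc t * zq q ^ (t : ℕ)) := by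
        intro t
        unfold a1Q
        rw [if_pos rfl]
        ring
      rw [Finset.sum_congr rfl fun t _ => e1 t, ← Finset.mul_sum, ← hs', div_mul_cancel₀ _ hs]
    · intro i _ hi
      refine Finset.sum_eq_zero fun t _ => ?_
      unfold a1Q
      rw [if_neg hi, mul_zero]
    · intro h
      exact absurd (Finset.mem_univ _) h
  obtain ⟨a, b, c, d, m1, m2, m3, m4⟩ := gen_GTH k1 k2 k3 k4 k5 k6 hc hD hLoc hB hL w (by
      rw [hα, ValuationSubring.mem_nonunits_iff, hkk]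
      exact lt_irrefl _)
  have hcast : ((q ^ 2 * N' : ℕ) : ℤ) = (q : ℤ) ^ 2 * (N' : ℤ) := by push_cast; ring
  rw [hcast] at m2 m3
  refine ⟨a, b, c, d, m1, dvd_trans (Dvd.intro_left _ rfl) m2, dvd_trans (Dvd.intro_left _ rfl) m3,
    ?_⟩
  rw [ValuationSubring.mem_nonunits_iff, not_lt, hsum] at m4
  have e2 : (∑ i, ∑ t, kk i * cc t / s * PsQ q R e (i, ⟨e, heE⟩, t) ∞ (mob a b c d ∞)) /
      (u * R.om R.i0) = (∑ t : Fin q, cc t *
        (PhiK R e kk (mob q (t : ℕ) 0 q ∞) (mob q (t : ℕ) 0 q (mob a b c d ∞)) /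
          (u * R.om R.i0))) / s := by
    rw [Finset.sum_comm, Finset.sum_div, Finset.sum_div]
    refine Finset.sum_congr rfl fun t _ => ?_
    unfold PhiK PsQ
    dsimp only
    rw [Finset.sum_div, Finset.sum_div, Finset.mul_sum, Finset.sum_div]
    refine Finset.sum_congr rfl fun i _ => ?_
    ring
  rw [e2, map_div₀] at m4
  have hs3 : (0 : V.ValueGroup) < V.valuation s := zero_lt_iff.2 ((Valuation.ne_zero_iff _).2 hs)
  have := (le_div_iff₀ hs3).1 m4
  rw [one_mul] at this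
  exact this

theorem zq_prim {q : ℕ} (hq : q ≠ 0) : IsPrimitiveRoot (zq q) q :=
  Complex.isPrimitiveRoot_exp q hq

theorem v16 (V : ValuationSubring ℂ) : V.valuation (1 - zq 16) ^ 8 = V.valuation (2 : ℂ) := by
  have h1 : V.valuation (zq 16 - 1) ^ 8 = V.valuation (2 : ℂ) := by
    have := MUXH.Hz.val_p 2 Nat.prime_two V 3 (zq 16) (by
      have : (2 : ℕ) ^ (3 + 1) = 16 := by norm_num
      rw [this]
      exact zq_prim (by norm_num))
    norm_num at this
    exact this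
  rw [← h1, ← neg_sub, Valuation.map_neg]

theorem v4 (V : ValuationSubring ℂ) : V.valuation (1 - zq 16 ^ 4) ^ 2 = V.valuation (2 : ℂ) := by
  have h1 : V.valuation (zq 16 ^ 4 - 1) ^ 2 = V.valuation (2 : ℂ) := by
    have := MUXH.Hz.val_p 2 Nat.prime_two V 1 (zq 16 ^ 4) (by
      have : (2 : ℕ) ^ (1 + 1) = 4 := by norm_num
      rw [this]
      exact (zq_prim (q := 16) (by norm_num)).pow (by norm_num) (by norm_num))
    norm_num at this
    exact this
  rw [← h1, ← neg_sub, Valuation.map_neg]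

/-- (GPT) Theorem G for the translates. -/
theorem gPT_T (k1 : Sg_RET) (k2 : Sg_NFE) (k3 : Sg_DSC) (k4 : Sg_ZL) (k5 : Sg_FK) (k6 : Sg_FGG)
    (hWQ : St_WQ) (hGP : Sg_GP) (hDV : Sg_DV) (hS : MUXU.Su_SCX) (h2 : MUXT.Xs_FTI)
    (h3 : MUXF.Sx_CHI) (h4 : MUXY.Sy_CON) (h5 : MUXY.Sy_ALP)
    (h7 : MUXY.Sy_FEC) (h8 : MUXY.Sy_COP) (hA : MUXF.Sx_ALG) (hI : MUXF.Sx_IDL)
    (hN : MUXF.Sx_NIM) (hQB : MUXF.Sx_QB) (hBD : MUXF.Sx_BDD) (hTS : MUXF.Sx_TSM) : S2_GPT := by
  classical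
  intro A B V f hST hT ι _ R u el a1 a3 hg e he r hr her kk hkk N' hN' hNd
  have hc : CQ A B := hST.case.toCQ
  obtain ⟨u1, u2⟩ := unit_T hI hN hST.case
  have hv2 : V.valuation (2 : ℂ) < 1 := by
    have := vp (p := 2) hST.hV
    exact_mod_cast this
  have hLoc := loc_p Nat.prime_two hc hST.hV
  obtain ⟨L', S₀, hB, hL⟩ := legT hS hWQ hGP hDV hc hT R hv2 hg
  have hn : 2 ≤ 2 * f := by
    have := Nat.pos_of_ne_zero hST.f0
    omega
  have hua := (legT_alg hc hT (R.nl R.i0) hg).1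
  have key := fun (cc : Fin 16 → ℂ) (hs : ∑ t, cc t * zq 16 ^ (t : ℕ) ≠ 0) =>
    gptQ k1 k2 k3 k4 k5 k6 h2 h3 h4 h5 h7 h8 hA hI hQB hBD hTS hc u1 u2 hLoc hT hn R hg.u0 hua
      hB hL he hr her hkk hN' hNd (q := 16) (by norm_num) cc hs
  have hz16 : (1 : ℂ) - zq 16 ≠ 0 := by
    intro h0
    exact (zq_prim (q := 16) (by norm_num)).ne_one (by norm_num) (by linear_combination -h0)
  have hz4 : (1 : ℂ) - zq 16 ^ 4 ≠ 0 := by
    intro h0
    have h1 : zq 16 ^ 4 = 1 := by linear_combination -h0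
    have h2 := (zq_prim (q := 16) (by norm_num)).pow_eq_one_iff_dvd 4
    have h3 := h2.1 h1
    norm_num at h3
  constructor
  · obtain ⟨cc, hcc⟩ : ∃ cc : Fin 16 → ℂ, cc = fun t => (if t = 0 then 1 else 0) -
      (if t = 1 then 1 else 0) := ⟨_, rfl⟩
    have hF : ∀ F : Fin 16 → ℂ, ∑ t, cc t * F t = F 0 - F 1 := by
      intro F
      rw [hcc]
      simp only [sub_mul, ite_mul, one_mul, zero_mul, Finset.sum_sub_distrib, Finset.sum_ite_eq',
        Finset.mem_univ, if_true]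
    have hs : ∑ t, cc t * zq 16 ^ (t : ℕ) = 1 - zq 16 := by
      rw [hF (fun t => zq 16 ^ (t : ℕ))]
      norm_num
    obtain ⟨a, b, c, d, m1, m2, m3, m4⟩ := key cc (by rw [hs]; exact hz16)
    refine ⟨a, b, c, d, m1, m2, m3, ?_⟩
    rw [hs, hF (fun t => PhiK R e kk (mob (16 : ℕ) (t : ℕ) 0 (16 : ℕ) ∞)
      (mob (16 : ℕ) (t : ℕ) 0 (16 : ℕ) (mob a b c d ∞)) / (u * R.om R.i0))] at m4
    rw [← v16 V]
    refine pow_le_pow_left₀ zero_le ?_ 8
    unfold PTq
    dsimp only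
    have e0 : (((0 : Fin 16) : ℕ) : ℤ) = 0 := rfl
    have e1 : (((1 : Fin 16) : ℕ) : ℤ) = 1 := rfl
    rw [e0, e1] at m4
    rw [TrQ.mob_zero _ (by norm_num), TrQ.mob_zero _ (by norm_num)] at m4
    exact m4
  · obtain ⟨cc, hcc⟩ : ∃ cc : Fin 16 → ℂ, cc = fun t => (if t = 0 then 1 else 0) -
      (if t = 1 then 1 else 0) - (if t = 4 then 1 else 0) + (if t = 5 then 1 else 0) := ⟨_, rfl⟩
    have hF : ∀ F : Fin 16 → ℂ, ∑ t, cc t * F t = F 0 - F 1 - F 4 + F 5 := by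
      intro F
      rw [hcc]
      simp only [sub_mul, add_mul, ite_mul, one_mul, zero_mul, Finset.sum_sub_distrib,
        Finset.sum_add_distrib, Finset.sum_ite_eq', Finset.mem_univ, if_true]
    have hs : ∑ t, cc t * zq 16 ^ (t : ℕ) = (1 - zq 16) * (1 - zq 16 ^ 4) := by
      rw [hF (fun t => zq 16 ^ (t : ℕ))]
      norm_num
      ring
    obtain ⟨a, b, c, d, m1, m2, m3, m4⟩ := key cc (by rw [hs]; exact mul_ne_zero hz16 hz4)
    refine ⟨a, b, c, d, m1, m2, m3, ?_⟩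
    rw [hs, hF (fun t => PhiK R e kk (mob (16 : ℕ) (t : ℕ) 0 (16 : ℕ) ∞)
      (mob (16 : ℕ) (t : ℕ) 0 (16 : ℕ) (mob a b c d ∞)) / (u * R.om R.i0))] at m4
    have hv : V.valuation (2 : ℂ) ^ 5 = V.valuation ((1 - zq 16) * (1 - zq 16 ^ 4)) ^ 8 := by
      rw [map_mul, mul_pow, v16, show (8 : ℕ) = 2 * 4 by norm_num, pow_mul, v4, ← pow_succ']
    rw [hv]
    refine pow_le_pow_left₀ zero_le ?_ 8
    unfold PTq
    dsimp only
    have e0 : (((0 : Fin 16) : ℕ) : ℤ) = 0 := rfl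
    have e1 : (((1 : Fin 16) : ℕ) : ℤ) = 1 := rfl
    have e4 : (((4 : Fin 16) : ℕ) : ℤ) = 4 := rfl
    have e5 : (((5 : Fin 16) : ℕ) : ℤ) = 5 := rfl
    rw [e0, e1, e4, e5] at m4
    rw [TrQ.mob_zero _ (by norm_num), TrQ.mob_zero _ (by norm_num)] at m4
    have t4 : ∀ x : OnePoint ℚ, mob 4 1 0 4 x = mob ((16 : ℕ) : ℤ) 4 0 ((16 : ℕ) : ℤ) x := by
      intro x
      have := TrQ.mob_red 4 1 4 (by norm_num) (by norm_num) x
      norm_num at this ⊢
      exact this.symm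
    have t5 : ∀ x : OnePoint ℚ, mob 4 1 0 4 (mob 16 1 0 16 x) =
        mob ((16 : ℕ) : ℤ) 5 0 ((16 : ℕ) : ℤ) x := by
      intro x
      have h1 := TrQ.mob_mob 4 1 16 1 (by norm_num) (by norm_num) x
      have h2 := TrQ.mob_red 16 5 4 (by norm_num) (by norm_num) x
      norm_num at h1 h2 ⊢
      rw [h1, h2]
    rw [t5, t5, t4, t4]
    refine m4.trans (le_of_eq ?_)
    congr 1
    push_cast
    ring

end

end Pool.Agent.N2


end

section

/-!
# N2, block GS (helper6): the `q`-expansion of `thetaIntI`, with the coefficients of even index (`NS/G_Qxn.lean`), and the data `GDatE`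
-/

set_option autoImplicit false

namespace Pool.Agent.N2

open _root_.MU3 _root_.Pool.Agent.MU3A _root_.Pool.Agent.MU3B _root_.Pool.Agent.MU3Q _root_.Pool.Agent.MUX _root_.Pool.Agent.MuSym
  _root_.Pool.Agent.MUXN _root_.Pool.Agent.NS _root_.Pool.Agent.NSG OnePoint UpperHalfPlane
open _root_.Pool.Agent.MUXF (Sx_ALG Sx_IDL Sx_QB Sx_BDD Sx_TSM qb)
open _root_.Pool.Agent.MUXY (cqF eiF)
open scoped ComplexConjugate

noncomputable section

open N_QXP in
theorem qx2 (hA : Sx_ALG) (hI : Sx_IDL) (hQB : Sx_QB) (hBD : Sx_BDD) (hTS : Sx_TSM)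
    (A B : ℤ) (hc : MUX.CQ A B) (u1 : ∀ x : OO A B, nm x = 1 → x = 1 ∨ x = -1)
    (u2 : ∀ (b : Ideal (OO A B)) (_ : b ≠ ⊥) (x : OO A B), x ∈ b → nm x = MUX.nI b → b = MUX.sp x)
    (n : ℕ) (ι : Type) (R : Reps A B n ι)
    (g : Ideal (OO A B)) (hg : g ≠ ⊥) (e : OO A B → ℂ) (he : _root_.Pool.Agent.MUX.IsEI g e) (r : ℕ) (hr : r ≠ 0)
    (her : ∀ x, e x ≠ 0 → e x ^ r = 1) (i : ι) :
    ∃ α : ℕ → ℂ, (∀ n, IsIntegral ℤ (α n)) ∧
      (∃ K : Subfield ℂ, NumberField K ∧ ∀ n, α n ∈ K) ∧ (i = R.i0 → α 1 = 1) ∧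
      (i ≠ R.i0 → α 1 = 0) ∧ (∀ τ : ℂ, 0 < τ.im → HasSum (fun n : ℕ => α n / n *
        Complex.exp (2 * Real.pi * Complex.I * τ) ^ n) (_root_.Pool.Agent.MUX.thetaIntI (R.b i) e τ)) ∧
      ∀ m : ℕ, (∀ x : OO A B, nm x = MUX.nI (R.b i) * m → e x = 0) → α m = 0 := by
  classical
  have hb : R.b i ≠ ⊥ := (R.nl i).b_ne
  obtain ⟨a1, a2, a3, a4, -⟩ := hA A B (cqF hc)
  obtain ⟨q1, -, -⟩ := hQB A B (cqF hc) (R.b i) hb
  have hnb : MUX.nI (R.b i) ≠ 0 := (hI A B (cqF hc) (R.b i) hb).1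
  have hnbC : ((MUX.nI (R.b i) : ℕ) : ℂ) ≠ 0 := by exact_mod_cast hnb
  obtain ⟨hfin, C, hC0, hC⟩ := hBD A B (cqF hc) g e hg (eiF he)
  set b : Ideal (OO A B) := R.b i with hbdef
  set S : ℕ → Finset b := fun m => (fin_fib hc hQB b hb m).toFinset with hSdef
  have hS : ∀ (m : ℕ) (x : b), x ∈ S m ↔ (qb b (x : OO A B)).toNat = m := by
    intro m x
    rw [hSdef]
    simp
  set t : b → ℂ := fun x => e x * conj (emb (x : OO A B)) with htdef
  have hconj : ∀ x : OO A B, conj (emb x) = emb (star x) := fun x => ((a2 x).2.2.2.2.2.1).symm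
  have hnmneg : ∀ x : OO A B, nm (-x) = nm x := by
    intro x
    unfold nm
    have h1 : (-x).im = -x.im := rfl
    have h2 : (-x).re = -x.re := rfl
    rw [h1, h2]
    ring
  have hembneg : ∀ x : OO A B, emb (-x) = -emb x := by
    intro x
    rw [← N_GJ.eHom_apply hc, ← N_GJ.eHom_apply hc, map_neg]
  have heneg : ∀ x : OO A B, e (-x) = -e x := by
    intro x
    have h1 := he.mul (-1) x
    rw [neg_one_mul, he.neg, neg_one_mul] at h1
    exact h1
  have htneg : ∀ x : b, t (-x) = t x := by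
    intro x
    show e (-(x : OO A B)) * conj (emb (-(x : OO A B))) = e x * conj (emb (x : OO A B))
    rw [heneg, hembneg, map_neg, neg_mul_neg]
  have hqbneg : ∀ x : OO A B, qb b (-x) = qb b x := by
    intro x
    unfold qb
    rw [hnmneg]
  have hSneg : ∀ m, ∀ x ∈ S m, -x ∈ S m := by
    intro m x hx
    rw [hS] at hx ⊢
    show (qb b (-(x : OO A B))).toNat = m
    rw [hqbneg, hx]
  have hqb0 : qb b (0 : OO A B) = 0 := by
    unfold qb nm
    simp
  have hS0 : ∀ m, m ≠ 0 → (0 : b) ∉ S m := by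
    intro m hm h
    rw [hS] at h
    apply hm
    rw [← h]
    show (qb b (0 : OO A B)).toNat = 0
    rw [hqb0]
    rfl
  have hnmS : ∀ (m : ℕ) (x : b), x ∈ S m → nm (x : OO A B) = MUX.nI b * m := by
    intro m x hx
    rw [hS] at hx
    obtain ⟨h2, h3⟩ := q1 x x.2
    have h4 : qb b (x : OO A B) = m := by omega
    rw [h2, h4]
    rfl
  have hS00 : ∀ x ∈ S 0, t x = 0 := by
    intro x hx
    have h1 := hnmS 0 x hx
    have h2 : (x : OO A B) = 0 := (a2 x).2.1.1 (by rw [h1]; simp)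
    rw [htdef]
    beta_reduce
    rw [h2, (a2 0).1.2 rfl]
    simp
  set α : ℕ → ℂ := fun m => (1 / 2) * ∑ x ∈ S m, t x with hαdef
  have hα0 : α 0 = 0 := by
    rw [hαdef]
    beta_reduce
    rw [Finset.sum_eq_zero hS00, mul_zero]
  have hαn : ∀ m, m ≠ 0 → α m = ∑ x ∈ (S m).filter (fun x : b => PH (x : OO A B)), t x := by
    intro m hm
    rw [hαdef]
    beta_reduce
    rw [half_sum (S m) (hSneg m) (hS0 m hm) t htneg]
    ring
  have htint : ∀ x : b, IsIntegral ℤ (t x) := by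
    intro x
    show IsIntegral ℤ (e x * conj (emb (x : OO A B)))
    rw [hconj]
    refine IsIntegral.mul ?_ (emb_int hc _)
    by_cases h : e x = 0
    · rw [h]
      exact isIntegral_zero
    · exact IsIntegral.of_pow (n := r) (Nat.pos_of_ne_zero hr)
        (by rw [her x h]; exact isIntegral_one)
  refine ⟨α, ?_, ?_, ?_, ?_, ?_, ?_⟩
  rotate_right
  · intro m hm
    show (1 / 2) * ∑ x ∈ S m, t x = 0
    rw [Finset.sum_eq_zero fun x hx => ?_, mul_zero]
    show e x * conj (emb (x : OO A B)) = 0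
    rw [hm x (hnmS m x hx), zero_mul]
  · intro m
    by_cases hm : m = 0
    · rw [hm, hα0]
      exact isIntegral_zero
    · rw [hαn m hm]
      exact IsIntegral.sum _ fun x _ => htint x
  · have hfin2 : (Set.range e ∪ {wC A B}).Finite := hfin.union (Set.finite_singleton _)
    have hfin3 : Finite ↑(Set.range e ∪ {wC A B}) := hfin2
    set K : IntermediateField ℚ ℂ := IntermediateField.adjoin ℚ (Set.range e ∪ {wC A B}) with hK
    have hKfd : FiniteDimensional ℚ K := by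
      apply IntermediateField.finiteDimensional_adjoin
      rintro x (⟨y, rfl⟩ | hx)
      · by_cases h : e y = 0
        · rw [h]
          exact isIntegral_zero
        · exact IsIntegral.of_pow (n := r) (Nat.pos_of_ne_zero hr)
            (by rw [her y h]; exact isIntegral_one)
      · rw [Set.mem_singleton_iff] at hx
        rw [hx]
        exact (N_GJ.wC_int hc).tower_top
    have hKe : ∀ x, e x ∈ K := fun x =>
      IntermediateField.subset_adjoin ℚ _ (Or.inl ⟨x, rfl⟩)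
    have hKw : wC A B ∈ K := IntermediateField.subset_adjoin ℚ _ (Or.inr rfl)
    have hKemb : ∀ x : OO A B, emb x ∈ K := fun x =>
      add_mem (intCast_mem _ _) (mul_mem (intCast_mem _ _) hKw)
    refine ⟨K.toSubfield, ?_, ?_⟩
    · have h4 : NumberField K := ⟨⟩
      exact h4
    · intro m
      show α m ∈ K
      refine mul_mem (div_mem (one_mem _) (ofNat_mem K 2)) (sum_mem fun x _ => ?_)
      show e x * conj (emb (x : OO A B)) ∈ K
      rw [hconj]
      exact mul_mem (hKe _) (hKemb _)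
  · intro hi
    have hbt : b = ⊤ := by rw [hbdef, hi, R.b0]
    have hn1 : MUX.nI b = 1 := by
      rw [hbt]
      unfold MUX.nI
      exact Nat.card_unique
    have h1mem : (1 : OO A B) ∈ b := by rw [hbt]; trivial
    rw [hαn 1 one_ne_zero]
    have hfil : (S 1).filter (fun x : b => PH (x : OO A B)) = {⟨1, h1mem⟩} := by
      ext x
      rw [Finset.mem_filter, Finset.mem_singleton]
      constructor
      · rintro ⟨h1, h2⟩
        have h3 := hnmS 1 x h1
        rw [hn1] at h3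
        rcases u1 x (by rw [h3]; norm_num) with h4 | h4
        · exact Subtype.ext h4
        · exfalso
          rw [h4] at h2
          have h5 : (-1 : OO A B).im = 0 := neg_zero
          have h6 : (-1 : OO A B).re = -1 := rfl
          unfold PH at h2
          rw [h5, h6] at h2
          omega
      · intro h
        rw [h]
        constructor
        · rw [hS]
          show (qb b (1 : OO A B)).toNat = 1
          have h3 := (q1 1 h1mem).1
          have h4 : (MUX.nI b : ℤ) = 1 := by rw [hn1]; rfl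
          have h5 : nm (1 : OO A B) = 1 := by
            unfold nm
            rw [QuadraticAlgebra.re_one, QuadraticAlgebra.im_one]
            ring
          have h6 : nm (1 : OO A B) = (MUX.nI b : ℤ) * qb b (1 : OO A B) := h3
          rw [h4, h5, one_mul] at h6
          rw [← h6]
          rfl
        · unfold PH
          right
          exact ⟨QuadraticAlgebra.im_one, by
            show (0 : ℤ) < (1 : OO A B).re
            rw [QuadraticAlgebra.re_one]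
            exact one_pos⟩
    rw [hfil, Finset.sum_singleton]
    show e 1 * conj (emb (1 : OO A B)) = 1
    rw [he.one, ← N_GJ.eHom_apply hc, map_one, map_one, one_mul]
  · intro hi
    have hS1 : S 1 = ∅ := by
      apply Finset.eq_empty_of_forall_notMem
      intro x hx
      have h1 := hnmS 1 x hx
      rw [Nat.cast_one, mul_one] at h1
      have h2 := u2 b hb x x.2 h1
      apply hi
      have hx0 : (x : OO A B) ≠ 0 := by
        intro h0
        rw [h0] at h1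
        have h3 : nm (0 : OO A B) = 0 := by
          unfold nm
          simp
        rw [h3] at h1
        exact hnb (by exact_mod_cast h1.symm)
      have hone : (1 : OO A B) ≠ 0 := by
        intro h0
        apply hx0
        rw [← mul_one (x : OO A B), h0, mul_zero]
      refine R.inj i R.i0 1 x hone hx0 ?_
      rw [R.b0]
      show sp (1 : OO A B) * b = sp (x : OO A B) * ⊤
      rw [← h2, Ideal.mul_top]
      show Ideal.span {(1 : OO A B)} * b = b
      rw [Ideal.span_singleton_one, Ideal.top_mul]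
    show (1 / 2) * ∑ x ∈ S 1, t x = 0
    rw [hS1, Finset.sum_empty, mul_zero]
  · intro τ hτ
    have hsum := hTS A B (cqF hc) b hb e C hC τ hτ
    have hq : ∀ x : b, ((nm (x : OO A B) : ℤ) : ℂ) / ((MUX.nI b : ℕ) : ℂ) =
        ((qb b (x : OO A B) : ℤ) : ℂ) := by
      intro x
      have h1 : nm (x : OO A B) = (MUX.nI b : ℤ) * qb b (x : OO A B) := (q1 x x.2).1
      rw [h1]
      push_cast
      field_simp
    set f : b → ℂ := fun x => e x * conj (emb (x : OO A B)) /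
      (((nm (x : OO A B) : ℤ) : ℂ) / ((MUX.nI b : ℕ) : ℂ)) *
        Complex.exp (2 * Real.pi * Complex.I *
          (((nm (x : OO A B) : ℤ) : ℂ) / ((MUX.nI b : ℕ) : ℂ)) * τ) with hf
    have hfs : Summable f := by
      refine Summable.of_norm_bounded hsum.norm fun x => ?_
      rw [hf]
      beta_reduce
      show _ ≤ ‖e x * conj (emb (x : OO A B)) * Complex.exp (2 * Real.pi * Complex.I *
          (((nm (x : OO A B) : ℤ) : ℂ) / ((MUX.nI b : ℕ) : ℂ)) * τ)‖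
      rw [hq x, norm_mul, norm_mul (e x * conj (emb (x : OO A B))), norm_div]
      refine mul_le_mul_of_nonneg_right ?_ (norm_nonneg _)
      by_cases h0 : qb b (x : OO A B) = 0
      · rw [h0, Int.cast_zero, norm_zero, div_zero]
        exact norm_nonneg _
      · have h1 : 1 ≤ qb b (x : OO A B) := by
          have := (q1 x x.2).2
          omega
        have h2 : (1 : ℝ) ≤ ‖((qb b (x : OO A B) : ℤ) : ℂ)‖ := by
          rw [Complex.norm_intCast]
          have h3 : (1 : ℝ) ≤ ((qb b (x : OO A B) : ℤ) : ℝ) := by exact_mod_cast h1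
          exact h3.trans (le_abs_self _)
        exact div_le_self (norm_nonneg _) h2
    have hfib := hfs.hasSum.tsum_fiberwise (fun x : b => (qb b (x : OO A B)).toNat)
    have hfib2 := hfib.mul_left (1 / 2 : ℂ)
    have e1 : (fun m : ℕ => α m / m * Complex.exp (2 * Real.pi * Complex.I * τ) ^ m) =
        fun m : ℕ => (1 / 2 : ℂ) * ∑' x : (fun x : b => (qb b (x : OO A B)).toNat) ⁻¹' {m},
          f x := by
      funext m
      have h1 : (fun x : b => (qb b (x : OO A B)).toNat) ⁻¹' {m} = ((S m : Finset b) : Set b) := by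
        ext x
        rw [Finset.mem_coe, hS]
        rfl
      rw [h1, Finset.tsum_subtype' (S m) f, hαdef]
      beta_reduce
      rw [mul_div_assoc, mul_assoc]
      congr 1
      rw [div_mul_eq_mul_div, Finset.sum_mul, Finset.sum_div]
      refine Finset.sum_congr rfl fun x hx => ?_
      have h2 : ((qb b (x : OO A B) : ℤ) : ℂ) = (m : ℂ) := by
        rw [hS] at hx
        have h3 := (q1 x x.2).2
        have h4 : qb b (x : OO A B) = m := by omega
        rw [h4]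
        simp
      rw [hf, htdef]
      beta_reduce
      rw [hq x, h2, ← Complex.exp_nat_mul]
      rw [show 2 * (Real.pi : ℂ) * Complex.I * (m : ℂ) * τ =
        (m : ℂ) * (2 * Real.pi * Complex.I * τ) by ring]
      ring
    rw [e1]
    exact hfib2

/-- the norm of an element prime to an even number is odd -/
theorem nm_odd {A B : ℤ} {n : ℕ} (hn : 2 ∣ n) {x : OO A B}
    (hx : IsCoprime (MUX.sp x) (idl (A := A) (B := B) n)) : ¬ (2 : ℤ) ∣ nm x := by
  rintro ⟨k, hk⟩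
  obtain ⟨m, rfl⟩ := hn
  rw [Ideal.isCoprime_iff_exists] at hx
  obtain ⟨i, hi, j, hj, hij⟩ := hx
  rw [MUX.sp, Ideal.mem_span_singleton] at hi
  rw [Ideal.mem_span_singleton] at hj
  obtain ⟨y, rfl⟩ := hi
  obtain ⟨z, rfl⟩ := hj
  have hmul : ∀ x y : OO A B, nm (x * y) = nm x * nm y := by
    intro x y
    unfold nm
    rw [QuadraticAlgebra.re_mul, QuadraticAlgebra.im_mul]
    ring
  have h1 : x * y = 1 - 2 * (((m : ℕ) : OO A B) * z) := by
    rw [← hij]
    push_cast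
    ring
  obtain ⟨w, hw⟩ : ∃ w, w = ((m : ℕ) : OO A B) * z := ⟨_, rfl⟩
  rw [← hw] at h1
  have h2 : nm (x * y) = 1 - 4 * w.re - 2 * B * w.im + 4 * nm w := by
    have h3 : x * y = 1 - (w + w) := by rw [h1]; ring
    have e1 : (x * y).re = 1 - 2 * w.re := by
      rw [h3, QuadraticAlgebra.re_sub, QuadraticAlgebra.re_add, QuadraticAlgebra.re_one]
      ring
    have e2 : (x * y).im = -2 * w.im := by
      rw [h3, QuadraticAlgebra.im_sub, QuadraticAlgebra.im_add, QuadraticAlgebra.im_one]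
      ring
    unfold nm
    rw [e1, e2]
    ring
  rw [hmul, hk] at h2
  have h3 : (2 : ℤ) ∣ 1 := ⟨k * nm y + 2 * w.re + B * w.im - 2 * nm w, by linear_combination -h2⟩
  norm_num at h3

variable {A B : ℤ} {n : ℕ} {ι : Type} (q : ℕ)

open _root_.Pool.Agent.MUXY in
/-- the data for Theorem G+, for `g = (n)`, `n` even -/
theorem gdatE {q : ℕ} (hq : 0 < q) (h2 : MUXT.Xs_FTI) (h3 : MUXF.Sx_CHI) (h4 : Sy_CON) (h5 : Sy_ALP)
    (h7 : Sy_FEC) (h8 : Sy_COP) (hA : MUXF.Sx_ALG) (hI : MUXF.Sx_IDL) (hQB : MUXF.Sx_QB)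
    (hBD : MUXF.Sx_BDD) (hTS : MUXF.Sx_TSM) (hQ : MUX.CQ A B)
    (u1 : ∀ x : OO A B, nm x = 1 → x = 1 ∨ x = -1)
    (u2 : ∀ (b : Ideal (OO A B)) (_ : b ≠ ⊥) (x : OO A B), x ∈ b → nm x = MUX.nI b → b = MUX.sp x)
    (hT : TorX A B) [hι : Finite ι] (hn : 2 ≤ n) (hn2 : 2 ∣ n) (R : Reps A B n ι) (e : OO A B → ℂ)
    (he : _root_.Pool.Agent.MUX.IsEI (idl n) e) (r : ℕ) (hr : r ≠ 0) (her : ∀ x, e x ≠ 0 → e x ^ r = 1) (u : ℂ)
    (hu : u ≠ 0) (hua : IsAlgebraic ℚ u) (N' : ℕ) (hN : N' ≠ 0)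
    (hNd : absD A B * (n : ℤ) ^ 2 ∣ (N' : ℤ)) :
    GDatE A B (ι × EC e × Fin q) (PsQ q R e) (ThQ q R e) (a1Q q R e) (u * R.om R.i0)
      (q ^ 2 * N') := by
  classical
  refine
    { toGDatN := gdatQ hq h2 h3 h4 h5 h7 h8 hA hI hQB hBD hTS hQ u1 u2 hT hn R e he r hr her u hu
        hua N' hN hNd
      qe := ?_ }
  have hn0 : n ≠ 0 := by omega
  set g : Ideal (OO A B) := idl n with hg
  have hpf : ((n : ℕ) : OO A B) ∈ g := Ideal.mem_span_singleton_self _
  have hgb : g ≠ ⊥ := by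
    intro h
    rw [h, Ideal.mem_bot] at hpf
    exact Gdt.nat_ne _ hn0 hpf
  have hEI : ∀ e' ∈ EC e, _root_.Pool.Agent.MUX.IsEI g e' := by
    rintro e' ⟨σ, rfl⟩
    exact Gdt.ei_conj he σ
  have hEr : ∀ e' ∈ EC e, ∀ x, e' x ≠ 0 → e' x ^ r = 1 := by
    rintro e' ⟨σ, rfl⟩ x hx
    show σ (e x) ^ r = 1
    have hx' : e x ≠ 0 := by
      intro h0
      apply hx
      show σ (e x) = 0
      rw [h0, map_zero]
    rw [← map_pow, her x hx', map_one]
  rintro ⟨i, ⟨e', he'⟩, t⟩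
  obtain ⟨α, hα1, ⟨K, hK1, hK2⟩, hα3, hα4, hα5, hα6⟩ :=
    qx2 hA hI hQB hBD hTS A B hQ u1 u2 n ι R g hgb e' (hEI e' he') r hr (hEr e' he') i
  refine ⟨fun m => α m * zq q ^ ((t : ℕ) * m), ?_, ?_, ?_, ?_, ?_⟩
  · intro m
    exact (hα1 m).mul ((zq_int hq.ne').pow _)
  · set K1 : IntermediateField ℚ ℂ := K.toIntermediateField fun x => by
      have : (algebraMap ℚ ℂ x) = (x : ℂ) := rfl
      rw [this]
      exact SubfieldClass.ratCast_mem K x
    set K2 : IntermediateField ℚ ℂ := IntermediateField.adjoin ℚ {zq q}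
    have hf1 : FiniteDimensional ℚ K1 := hK1.to_finiteDimensional
    have hf2 : FiniteDimensional ℚ K2 :=
      IntermediateField.adjoin.finiteDimensional (zq_int hq.ne').tower_top
    have hf3 : FiniteDimensional ℚ ↥(K1 ⊔ K2) := IntermediateField.finiteDimensional_sup K1 K2
    refine ⟨(K1 ⊔ K2).toSubfield, ?_, fun m => ?_⟩
    · have h4 : NumberField ↥(K1 ⊔ K2) := ⟨⟩
      exact h4
    · show α m * zq q ^ ((t : ℕ) * m) ∈ K1 ⊔ K2
      have m1 : α m ∈ K1 ⊔ K2 := (le_sup_left : K1 ≤ K1 ⊔ K2) (hK2 m)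
      have m2 : zq q ∈ K1 ⊔ K2 := (le_sup_right : K2 ≤ K1 ⊔ K2)
        (IntermediateField.mem_adjoin_simple_self ℚ (zq q))
      exact mul_mem m1 (pow_mem m2 _)
  · show α 1 * zq q ^ ((t : ℕ) * 1) = if i = R.i0 then zq q ^ (t : ℕ) else 0
    rw [mul_one]
    split_ifs with hi
    · rw [hα3 hi, one_mul]
    · rw [hα4 hi, zero_mul]
  · intro τ hτ
    have him : 0 < (τ + (((t : ℕ) : ℤ) : ℂ) / q).im := by
      have : ((((t : ℕ) : ℤ) : ℂ) / q).im = 0 := by
        have : ((((t : ℕ) : ℤ) : ℂ) / q) = (((t : ℕ) / q : ℝ) : ℂ) := by push_cast; ring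
        rw [this]
        exact Complex.ofReal_im _
      rw [Complex.add_im, this, add_zero]
      exact hτ
    have h9 := hα5 _ him
    show HasSum _ (_root_.Pool.Agent.MUX.thetaIntI (R.b i) e' (τ + (((t : ℕ) : ℤ) : ℂ) / q))
    have e1 : (fun m : ℕ => α m / m * Complex.exp (2 * Real.pi * Complex.I *
        (τ + (((t : ℕ) : ℤ) : ℂ) / q)) ^ m) = fun m : ℕ => α m * zq q ^ ((t : ℕ) * m) / m *
        Complex.exp (2 * Real.pi * Complex.I * τ) ^ m := by
      funext m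
      have e2 : Complex.exp (2 * Real.pi * Complex.I * (τ + (((t : ℕ) : ℤ) : ℂ) / q)) =
          zq q ^ (t : ℕ) * Complex.exp (2 * Real.pi * Complex.I * τ) := by
        unfold zq
        rw [← Complex.exp_nat_mul, ← Complex.exp_add]
        congr 1
        push_cast
        ring
      rw [e2, mul_pow, ← pow_mul]
      ring
    rw [e1] at h9
    exact h9
  · intro m hm
    have h9 : α m = 0 := by
      apply hα6
      intro x hx
      by_contra h10
      refine nm_odd hn2 (((hEI e' he').supp x).1 h10) ?_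
      rw [hx]
      obtain ⟨k, hk⟩ := hm
      exact Dvd.dvd.mul_left ⟨(k : ℤ), by rw [hk]; push_cast; ring⟩ _
    show α m * zq q ^ ((t : ℕ) * m) = 0
    rw [h9, zero_mul]

end

end Pool.Agent.N2


end

section

/-!
# ME, block G of the exceptional fields (helper6): the data for Theorem G in the frame of `ME/DefsE.lean`
-/

set_option autoImplicit false

namespace Pool.Agent.MEG

open _root_.MU3 _root_.Pool.Agent.MU3A _root_.Pool.Agent.MU3B _root_.Pool.Agent.MU3Q _root_.Pool.Agent.MUX _root_.Pool.Agent.MuSym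
  _root_.Pool.Agent.MUXN _root_.Pool.Agent.NS _root_.Pool.Agent.NSG _root_.Pool.Agent.N2 OnePoint UpperHalfPlane
open _root_.Pool.Agent.ME hiding ActE
open _root_.Pool.Agent.MUXF (Sx_ALG Sx_IDL Sx_QB Sx_BDD Sx_TSM qb)
open _root_.Pool.Agent.MUXY (cqF eiF)
open scoped ComplexConjugate

noncomputable section

open N_QXP in
/-- the units in the upper half -/
theorem unitsE {A B : ℤ} (hE : CaseE A B) :
    ∃ U : Finset (OO A B), U.card = rE A B ∧ ∀ y, y ∈ U ↔ nm y = 1 ∧ PH y := by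
  classical
  have hA := hE.hA
  subst hA
  rcases hE.hB with hB | hB
  · subst hB
    refine ⟨{⟨1, 0⟩, ⟨0, 1⟩}, ?_, fun y => ?_⟩
    · rw [Finset.card_pair]
      · rfl
      · intro h
        have := congrArg QuadraticAlgebra.re h
        exact one_ne_zero this
    · rw [Finset.mem_insert, Finset.mem_singleton]
      obtain ⟨a, b⟩ := y
      unfold nm PH
      simp only [QuadraticAlgebra.mk.injEq]
      constructor
      · rintro (⟨rfl, rfl⟩ | ⟨rfl, rfl⟩) <;> norm_num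
      · rintro ⟨h1, h2⟩
        have ha : a ^ 2 ≤ 1 := by nlinarith [sq_nonneg b]
        have hb : b ^ 2 ≤ 1 := by nlinarith [sq_nonneg a]
        have ha1 : -1 ≤ a ∧ a ≤ 1 := abs_le.1 (abs_le_one_iff_mul_self_le_one.2 (by nlinarith))
        have hb1 : -1 ≤ b ∧ b ≤ 1 := abs_le.1 (abs_le_one_iff_mul_self_le_one.2 (by nlinarith))
        obtain ⟨a1, a2⟩ := ha1
        obtain ⟨b1, b2⟩ := hb1
        interval_cases a <;> interval_cases b <;> simp_all
  · subst hB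
    refine ⟨{⟨1, 0⟩, ⟨0, 1⟩, ⟨-1, 1⟩}, ?_, fun y => ?_⟩
    · rw [Finset.card_insert_of_notMem, Finset.card_pair]
      · rfl
      · intro h
        have := congrArg QuadraticAlgebra.re h
        norm_num at this
      · rw [Finset.mem_insert, Finset.mem_singleton]
        rintro (h | h)
        · have := congrArg QuadraticAlgebra.re h
          norm_num at this
        · have := congrArg QuadraticAlgebra.re h
          norm_num at this
    · rw [Finset.mem_insert, Finset.mem_insert, Finset.mem_singleton]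
      obtain ⟨a, b⟩ := y
      unfold nm PH
      simp only [QuadraticAlgebra.mk.injEq]
      constructor
      · rintro (⟨rfl, rfl⟩ | ⟨rfl, rfl⟩ | ⟨rfl, rfl⟩) <;> norm_num
      · rintro ⟨h1, h2⟩
        have ha : a ^ 2 ≤ 1 := by nlinarith [sq_nonneg (2 * b + a)]
        have hb : b ^ 2 ≤ 1 := by nlinarith [sq_nonneg (2 * a + b)]
        have ha1 : -1 ≤ a ∧ a ≤ 1 := abs_le.1 (abs_le_one_iff_mul_self_le_one.2 (by nlinarith))
        have hb1 : -1 ≤ b ∧ b ≤ 1 := abs_le.1 (abs_le_one_iff_mul_self_le_one.2 (by nlinarith))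
        obtain ⟨a1, a2⟩ := ha1
        obtain ⟨b1, b2⟩ := hb1
        interval_cases a <;> interval_cases b <;> simp_all

open N_QXP in
/-- the `q`-expansion of `thetaIntI ⊤ e'` -/
theorem qxE {A B : ℤ} (hE : CaseE A B) (b : Ideal (OO A B)) (hbt : b = ⊤)
    (g : Ideal (OO A B)) (hg : g ≠ ⊥) (e : OO A B → ℂ) (he' : IsEIE g e) (r : ℕ) (hr : r ≠ 0)
    (her : ∀ x, e x ≠ 0 → e x ^ r = 1) :
    ∃ α : ℕ → ℂ, (∀ n, IsIntegral ℤ (α n)) ∧
      (∃ K : Subfield ℂ, NumberField K ∧ ∀ n, α n ∈ K) ∧ α 1 = (rE A B : ℂ) ∧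
      (∀ τ : ℂ, 0 < τ.im → HasSum (fun n : ℕ => α n / n *
        Complex.exp (2 * Real.pi * Complex.I * τ) ^ n) (thetaIntI b e τ)) ∧
      ∀ m : ℕ, (∀ x : OO A B, nm x = m → e x = 0) → α m = 0 := by
  classical
  have hc : MUX.CQ A B := hE.toCQ
  have he : _root_.Pool.Agent.MUX.IsEI g e := he'.toIsEI
  have hQB : Sx_QB := Pool.Agent.MUXF.xf_QB
  have hb : b ≠ ⊥ := by
    rw [hbt]
    intro h0
    have h3 : (1 : OO A B) ∈ (⊥ : Ideal (OO A B)) := h0 ▸ trivial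
    rw [Ideal.mem_bot] at h3
    have h4 : (1 : ℤ) = 0 := congrArg QuadraticAlgebra.re h3
    exact one_ne_zero h4
  obtain ⟨a1, a2, a3, a4, -⟩ := Pool.Agent.MUXF.xf_ALG A B (cqF hc)
  obtain ⟨q1, -, -⟩ := hQB A B (cqF hc) b hb
  have hn1 : MUX.nI b = 1 := by
    rw [hbt]
    unfold MUX.nI
    exact Nat.card_unique
  have hnb : MUX.nI b ≠ 0 := by rw [hn1]; exact one_ne_zero
  have hnbC : ((MUX.nI b : ℕ) : ℂ) ≠ 0 := by exact_mod_cast hnb
  obtain ⟨hfin, C, hC0, hC⟩ := Pool.Agent.MUXF.xf_BDD A B (cqF hc) g e hg (eiF he)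
  set S : ℕ → Finset b := fun m => (fin_fib hc hQB b hb m).toFinset with hSdef
  have hS : ∀ (m : ℕ) (x : b), x ∈ S m ↔ (qb b (x : OO A B)).toNat = m := by
    intro m x
    rw [hSdef]
    simp
  set t : b → ℂ := fun x => e x * conj (emb (x : OO A B)) with htdef
  have hconj : ∀ x : OO A B, conj (emb x) = emb (star x) := fun x => ((a2 x).2.2.2.2.2.1).symm
  have hnmneg : ∀ x : OO A B, nm (-x) = nm x := by
    intro x
    unfold nm
    have h1 : (-x).im = -x.im := rfl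
    have h2 : (-x).re = -x.re := rfl
    rw [h1, h2]
    ring
  have hembneg : ∀ x : OO A B, emb (-x) = -emb x := by
    intro x
    rw [← N_GJ.eHom_apply hc, ← N_GJ.eHom_apply hc, map_neg]
  have heneg : ∀ x : OO A B, e (-x) = -e x := by
    intro x
    have h1 := he.mul (-1) x
    rw [neg_one_mul, he.neg, neg_one_mul] at h1
    exact h1
  have htneg : ∀ x : b, t (-x) = t x := by
    intro x
    show e (-(x : OO A B)) * conj (emb (-(x : OO A B))) = e x * conj (emb (x : OO A B))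
    rw [heneg, hembneg, map_neg, neg_mul_neg]
  have hqbneg : ∀ x : OO A B, qb b (-x) = qb b x := by
    intro x
    unfold qb
    rw [hnmneg]
  have hSneg : ∀ m, ∀ x ∈ S m, -x ∈ S m := by
    intro m x hx
    rw [hS] at hx ⊢
    show (qb b (-(x : OO A B))).toNat = m
    rw [hqbneg, hx]
  have hqb0 : qb b (0 : OO A B) = 0 := by
    unfold qb nm
    simp
  have hS0 : ∀ m, m ≠ 0 → (0 : b) ∉ S m := by
    intro m hm h
    rw [hS] at h
    apply hm
    rw [← h]
    show (qb b (0 : OO A B)).toNat = 0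
    rw [hqb0]
    rfl
  have hnmS : ∀ (m : ℕ) (x : b), x ∈ S m → nm (x : OO A B) = MUX.nI b * m := by
    intro m x hx
    rw [hS] at hx
    obtain ⟨h2, h3⟩ := q1 x x.2
    have h4 : qb b (x : OO A B) = m := by omega
    rw [h2, h4]
    rfl
  have hS00 : ∀ x ∈ S 0, t x = 0 := by
    intro x hx
    have h1 := hnmS 0 x hx
    have h2 : (x : OO A B) = 0 := (a2 x).2.1.1 (by rw [h1]; simp)
    rw [htdef]
    beta_reduce
    rw [h2, (a2 0).1.2 rfl]
    simp
  set α : ℕ → ℂ := fun m => (1 / 2) * ∑ x ∈ S m, t x with hαdef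
  have hα0 : α 0 = 0 := by
    rw [hαdef]
    beta_reduce
    rw [Finset.sum_eq_zero hS00, mul_zero]
  have hαn : ∀ m, m ≠ 0 → α m = ∑ x ∈ (S m).filter (fun x : b => PH (x : OO A B)), t x := by
    intro m hm
    rw [hαdef]
    beta_reduce
    rw [half_sum (S m) (hSneg m) (hS0 m hm) t htneg]
    ring
  have htint : ∀ x : b, IsIntegral ℤ (t x) := by
    intro x
    show IsIntegral ℤ (e x * conj (emb (x : OO A B)))
    rw [hconj]
    refine IsIntegral.mul ?_ (emb_int hc _)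
    by_cases h : e x = 0
    · rw [h]
      exact isIntegral_zero
    · exact IsIntegral.of_pow (n := r) (Nat.pos_of_ne_zero hr)
        (by rw [her x h]; exact isIntegral_one)
  refine ⟨α, ?_, ?_, ?_, ?_, ?_⟩
  rotate_right
  · intro m hm
    show (1 / 2) * ∑ x ∈ S m, t x = 0
    rw [Finset.sum_eq_zero fun x hx => ?_, mul_zero]
    show e x * conj (emb (x : OO A B)) = 0
    rw [hm x (by rw [hnmS m x hx, hn1]; push_cast; ring), zero_mul]
  · intro m
    by_cases hm : m = 0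
    · rw [hm, hα0]
      exact isIntegral_zero
    · rw [hαn m hm]
      exact IsIntegral.sum _ fun x _ => htint x
  · have hfin2 : (Set.range e ∪ {wC A B}).Finite := hfin.union (Set.finite_singleton _)
    have hfin3 : Finite ↑(Set.range e ∪ {wC A B}) := hfin2
    set K : IntermediateField ℚ ℂ := IntermediateField.adjoin ℚ (Set.range e ∪ {wC A B}) with hK
    have hKfd : FiniteDimensional ℚ K := by
      apply IntermediateField.finiteDimensional_adjoin
      rintro x (⟨y, rfl⟩ | hx)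
      · by_cases h : e y = 0
        · rw [h]
          exact isIntegral_zero
        · exact IsIntegral.of_pow (n := r) (Nat.pos_of_ne_zero hr)
            (by rw [her y h]; exact isIntegral_one)
      · rw [Set.mem_singleton_iff] at hx
        rw [hx]
        exact (N_GJ.wC_int hc).tower_top
    have hKe : ∀ x, e x ∈ K := fun x =>
      IntermediateField.subset_adjoin ℚ _ (Or.inl ⟨x, rfl⟩)
    have hKw : wC A B ∈ K := IntermediateField.subset_adjoin ℚ _ (Or.inr rfl)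
    have hKemb : ∀ x : OO A B, emb x ∈ K := fun x =>
      add_mem (intCast_mem _ _) (mul_mem (intCast_mem _ _) hKw)
    refine ⟨K.toSubfield, ?_, ?_⟩
    · have h4 : NumberField K := ⟨⟩
      exact h4
    · intro m
      show α m ∈ K
      refine mul_mem (div_mem (one_mem _) (ofNat_mem K 2)) (sum_mem fun x _ => ?_)
      show e x * conj (emb (x : OO A B)) ∈ K
      rw [hconj]
      exact mul_mem (hKe _) (hKemb _)
  · rw [hαn 1 one_ne_zero]
    -- every term is one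
    have ht1 : ∀ x ∈ (S 1).filter (fun x : b => PH (x : OO A B)), t x = 1 := by
      intro x hx
      have h1 := hnmS 1 x (Finset.mem_filter.1 hx).1
      rw [hn1] at h1
      have h2 : nm (x : OO A B) = 1 := by rw [h1]; norm_num
      have hu1 : (x : OO A B) * star (x : OO A B) = 1 := by
        rw [(a2 (x : OO A B)).2.2.2.2.1, h2, Int.cast_one]
      have hu : IsUnit (x : OO A B) := IsUnit.of_mul_eq_one _ hu1
      show e x * conj (emb (x : OO A B)) = 1
      rw [he'.unit _ hu, hconj, ← (a1 _ _).1, hu1]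
      have h5 := (a3 1).1
      rw [Int.cast_one, Int.cast_one] at h5
      exact h5
    rw [Finset.sum_congr rfl ht1, Finset.sum_const, nsmul_eq_mul, mul_one]
    congr 1
    obtain ⟨U, hU1, hU2⟩ := unitsE hE
    rw [← hU1, ← Finset.card_image_of_injective _ (Subtype.val_injective (p := fun x => x ∈ b))]
    congr 1
    ext y
    rw [hU2, Finset.mem_image]
    constructor
    · rintro ⟨x, hx, rfl⟩
      obtain ⟨hx1, hx2⟩ := Finset.mem_filter.1 hx
      refine ⟨?_, hx2⟩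
      rw [hnmS 1 x hx1, hn1]
      norm_num
    · rintro ⟨h1, h2⟩
      have hyb : y ∈ b := by rw [hbt]; trivial
      refine ⟨⟨y, hyb⟩, Finset.mem_filter.2 ⟨?_, h2⟩, rfl⟩
      rw [hS]
      show (qb b y).toNat = 1
      have h6 := (q1 y hyb).1
      have h7 : nm y = (MUX.nI b : ℤ) * qb b y := h6
      rw [h1, hn1] at h7
      omega
  · intro τ hτ
    have hsum := Pool.Agent.MUXF.xf_TSM A B (cqF hc) b hb e C hC τ hτ
    have hq : ∀ x : b, ((nm (x : OO A B) : ℤ) : ℂ) / ((MUX.nI b : ℕ) : ℂ) =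
        ((qb b (x : OO A B) : ℤ) : ℂ) := by
      intro x
      have h1 : nm (x : OO A B) = (MUX.nI b : ℤ) * qb b (x : OO A B) := (q1 x x.2).1
      rw [h1]
      push_cast
      field_simp
    set f : b → ℂ := fun x => e x * conj (emb (x : OO A B)) /
      (((nm (x : OO A B) : ℤ) : ℂ) / ((MUX.nI b : ℕ) : ℂ)) *
        Complex.exp (2 * Real.pi * Complex.I *
          (((nm (x : OO A B) : ℤ) : ℂ) / ((MUX.nI b : ℕ) : ℂ)) * τ) with hf
    have hfs : Summable f := by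
      refine Summable.of_norm_bounded hsum.norm fun x => ?_
      rw [hf]
      beta_reduce
      show _ ≤ ‖e x * conj (emb (x : OO A B)) * Complex.exp (2 * Real.pi * Complex.I *
          (((nm (x : OO A B) : ℤ) : ℂ) / ((MUX.nI b : ℕ) : ℂ)) * τ)‖
      rw [hq x, norm_mul, norm_mul (e x * conj (emb (x : OO A B))), norm_div]
      refine mul_le_mul_of_nonneg_right ?_ (norm_nonneg _)
      by_cases h0 : qb b (x : OO A B) = 0
      · rw [h0, Int.cast_zero, norm_zero, div_zero]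
        exact norm_nonneg _
      · have h1 : 1 ≤ qb b (x : OO A B) := by
          have := (q1 x x.2).2
          omega
        have h2 : (1 : ℝ) ≤ ‖((qb b (x : OO A B) : ℤ) : ℂ)‖ := by
          rw [Complex.norm_intCast]
          have h3 : (1 : ℝ) ≤ ((qb b (x : OO A B) : ℤ) : ℝ) := by exact_mod_cast h1
          exact h3.trans (le_abs_self _)
        exact div_le_self (norm_nonneg _) h2
    have hfib := hfs.hasSum.tsum_fiberwise (fun x : b => (qb b (x : OO A B)).toNat)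
    have hfib2 := hfib.mul_left (1 / 2 : ℂ)
    have e1 : (fun m : ℕ => α m / m * Complex.exp (2 * Real.pi * Complex.I * τ) ^ m) =
        fun m : ℕ => (1 / 2 : ℂ) * ∑' x : (fun x : b => (qb b (x : OO A B)).toNat) ⁻¹' {m},
          f x := by
      funext m
      have h1 : (fun x : b => (qb b (x : OO A B)).toNat) ⁻¹' {m} = ((S m : Finset b) : Set b) := by
        ext x
        rw [Finset.mem_coe, hS]
        rfl
      rw [h1, Finset.tsum_subtype' (S m) f, hαdef]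
      beta_reduce
      rw [mul_div_assoc, mul_assoc]
      congr 1
      rw [div_mul_eq_mul_div, Finset.sum_mul, Finset.sum_div]
      refine Finset.sum_congr rfl fun x hx => ?_
      have h2 : ((qb b (x : OO A B) : ℤ) : ℂ) = (m : ℂ) := by
        rw [hS] at hx
        have h3 := (q1 x x.2).2
        have h4 : qb b (x : OO A B) = m := by omega
        rw [h4]
        simp
      rw [hf, htdef]
      beta_reduce
      rw [hq x, h2, ← Complex.exp_nat_mul]
      rw [show 2 * (Real.pi : ℂ) * Complex.I * (m : ℂ) * τ =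
        (m : ℂ) * (2 * Real.pi * Complex.I * τ) by ring]
      ring
    rw [e1]
    exact hfib2

/-! ### Conjugation of the symbols -/

/-- two pairs of cusps -/
theorem con2 {A B : ℤ} (h : CaseE A B) (T : TorXE A B) {b : Ideal (OO A B)} {L : PeriodPair}
    {om : ℂ} (hL : IsNE b L om) {g : Ideal (OO A B)} {e : OO A B → ℂ} (he : _root_.Pool.Agent.MUX.IsEI g e) (hg : g ≠ ⊤)
    {n : ℕ} (hn : n ≠ 0) (hng : ((n : ℕ) : OO A B) ∈ g)
    (hcop : IsCoprime (_root_.Pool.Agent.MUX.sp ((nI b : ℕ) : OO A B)) g) {σ : ℂ ≃+* ℂ} (hσ : FixK A B σ)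
    (x y x' y' : OnePoint ℚ) :
    ∃ C : ℂ, C ≠ 0 ∧ σ (PhiI b e x y / om) = C * (PhiI b (fun x => σ (e x)) x y / om) ∧
      σ (PhiI b e x' y' / om) = C * (PhiI b (fun x => σ (e x)) x' y' / om) := by
  obtain ⟨m, hm⟩ : ∃ m, m = 2 * n * ((Pool.Agent.N2T.dc x * Pool.Agent.N2T.dc y) *
    (Pool.Agent.N2T.dc x' * Pool.Agent.N2T.dc y')) := ⟨_, rfl⟩
  have hm0 : m ≠ 0 := by
    rw [hm]
    exact mul_ne_zero (mul_ne_zero two_ne_zero hn)
      (mul_ne_zero (mul_ne_zero (Pool.Agent.N2T.dc_pos x) (Pool.Agent.N2T.dc_pos y))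
        (mul_ne_zero (Pool.Agent.N2T.dc_pos x') (Pool.Agent.N2T.dc_pos y')))
  have hx : MUXY.Dn m x := Pool.Agent.N2T.dn_of (by
    rw [hm]
    exact ((dvd_mul_right _ _).trans (dvd_mul_right _ _)).trans (dvd_mul_left _ _))
  have hy : MUXY.Dn m y := Pool.Agent.N2T.dn_of (by
    rw [hm]
    exact ((dvd_mul_left _ _).trans (dvd_mul_right _ _)).trans (dvd_mul_left _ _))
  have hx' : MUXY.Dn m x' := Pool.Agent.N2T.dn_of (by
    rw [hm]
    exact ((dvd_mul_right _ _).trans (dvd_mul_left _ _)).trans (dvd_mul_left _ _))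
  have hy' : MUXY.Dn m y' := Pool.Agent.N2T.dn_of (by
    rw [hm]
    exact ((dvd_mul_left _ _).trans (dvd_mul_left _ _)).trans (dvd_mul_left _ _))
  have hmg : ((m : ℕ) : OO A B) ∈ g := by
    rw [hm, Nat.cast_mul, Nat.cast_mul]
    exact g.mul_mem_right _ (g.mul_mem_left _ hng)
  obtain ⟨c, -, -, hA, hz⟩ := ME2.actE h T hm0 (by
    rw [hm, mul_assoc]
    exact dvd_mul_right _ _) hσ
  obtain ⟨C, hC0, -, hS⟩ := MUXY.y_RAT A B (cqF h.toCQ) σ m (_root_.Pool.Agent.MUX.sp c) b b L L om om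
    (emb c) (MUXY.liF hL.toIsLI) (MUXY.liF hL.toIsLI) (hA b L om hL) hz g e (eiF he) hg hm0
    hmg hcop hcop
  exact ⟨C, hC0, hS x y hx hy, hS x' y' hx' hy'⟩

/-- conjugation of the symbols, for all pairs of cusps at once -/
theorem conE {A B : ℤ} (h : CaseE A B) (T : TorXE A B) {b : Ideal (OO A B)} {L : PeriodPair}
    {om : ℂ} (hL : IsNE b L om) {g : Ideal (OO A B)} {e : OO A B → ℂ} (he : _root_.Pool.Agent.MUX.IsEI g e) (hg : g ≠ ⊤)
    {n : ℕ} (hn : n ≠ 0) (hng : ((n : ℕ) : OO A B) ∈ g)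
    (hcop : IsCoprime (_root_.Pool.Agent.MUX.sp ((nI b : ℕ) : OO A B)) g) {σ : ℂ ≃+* ℂ} (hσ : FixK A B σ) :
    ∃ C : ℂ, C ≠ 0 ∧ ∀ x y : OnePoint ℚ,
      σ (PhiI b e x y / om) = C * (PhiI b (fun x => σ (e x)) x y / om) := by
  by_cases h0 : ∃ q : OnePoint ℚ × OnePoint ℚ, PhiI b (fun x => σ (e x)) q.1 q.2 / om ≠ 0
  · obtain ⟨q0, hq0⟩ := h0
    obtain ⟨C, hC, h1, -⟩ := con2 h T hL he hg hn hng hcop hσ q0.1 q0.2 q0.1 q0.2
    refine ⟨C, hC, fun x y => ?_⟩
    obtain ⟨C', hC', h5, h6⟩ := con2 h T hL he hg hn hng hcop hσ q0.1 q0.2 x y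
    have h8 : C = C' := mul_right_cancel₀ hq0 (h1.symm.trans h5)
    rw [h8]
    exact h6
  · push Not at h0
    refine ⟨1, one_ne_zero, fun x y => ?_⟩
    obtain ⟨C, hC, h1, -⟩ := con2 h T hL he hg hn hng hcop hσ x y x y
    rw [h1, h0 (x, y), mul_zero, mul_zero]

/-! ### The data -/

/-- the conjugates of `e` over `k` -/
abbrev ECK {A B : ℤ} (e : OO A B → ℂ) : Set (OO A B → ℂ) :=
  {e' | ∃ σ : ℂ ≃+* ℂ, FixK A B σ ∧ e' = fun x => σ (e x)}

theorem eck_fin {A B : ℤ} {e : OO A B → ℂ} {r : ℕ} (hr : r ≠ 0)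
    (her : ∀ x, e x ≠ 0 → e x ^ r = 1) : (ECK e).Finite :=
  (MUXY.y_FEC A B e r hr her).1.subset (by rintro e' ⟨σ, -, rfl⟩; exact ⟨σ, rfl⟩)

theorem fixK_emb {A B : ℤ} {σ : ℂ ≃+* ℂ} (hσ : FixK A B σ) (x : OO A B) : σ (emb x) = emb x := by
  unfold emb
  rw [map_add, map_mul, map_intCast, map_intCast]
  congr 2

theorem eie_conj {A B : ℤ} {g : Ideal (OO A B)} {e : OO A B → ℂ} (he : IsEIE g e)
    {σ : ℂ ≃+* ℂ} (hσ : FixK A B σ) : IsEIE g (fun x => σ (e x)) where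
  toIsEI := Gdt.ei_conj he.toIsEI σ
  unit := fun z hz => by rw [he.unit z hz, fixK_emb hσ]

variable {A B : ℤ} {n : ℕ} {ι : Type}

/-- the symbols -/
def PsE (q : ℕ) (R : RepsE A B n ι) (e : OO A B → ℂ) (j : ECK e × Fin q) (x y : OnePoint ℚ) : ℂ :=
  PhiI (R.b R.i0) j.1 (mob q (j.2 : ℕ) 0 q x) (mob q (j.2 : ℕ) 0 q y)

/-- their primitives -/
def ThE (q : ℕ) (R : RepsE A B n ι) (e : OO A B → ℂ) (j : ECK e × Fin q) (τ : ℂ) : ℂ :=
  thetaIntI (R.b R.i0) j.1 (τ + ((j.2 : ℕ) : ℤ) / q)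

/-- the first coefficients -/
def a1E (A B : ℤ) (q : ℕ) (e : OO A B → ℂ) (j : ECK e × Fin q) : ℂ :=
  rE A B * zq q ^ (j.2 : ℕ)

/-- the `q`-expansions -/
theorem qexpE (hE : CaseE A B) (q : ℕ) (hq : 0 < q) (R : RepsE A B n ι) (hn0 : n ≠ 0)
    (e : OO A B → ℂ) (he : IsEIE (idl n) e) (r : ℕ) (hr : r ≠ 0)
    (her : ∀ x, e x ≠ 0 → e x ^ r = 1) (j : ECK e × Fin q) :
    ∃ α : ℕ → ℂ, (∀ n, IsIntegral ℤ (α n)) ∧
    (∃ K : Subfield ℂ, NumberField K ∧ ∀ n, α n ∈ K) ∧ α 1 = a1E A B q e j ∧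
    (∀ τ : ℂ, 0 < τ.im → HasSum (fun n : ℕ => α n / n *
      Complex.exp (2 * Real.pi * Complex.I * τ) ^ n) (ThE q R e j τ)) ∧
    ∀ m : ℕ, (∀ x : OO A B, nm x = m → e x = 0) → α m = 0 := by
  have hpf : ((n : ℕ) : OO A B) ∈ idl (A := A) (B := B) n := Ideal.mem_span_singleton_self _
  have hgb : idl (A := A) (B := B) n ≠ ⊥ := by
    intro h
    rw [h, Ideal.mem_bot] at hpf
    exact Gdt.nat_ne _ hn0 hpf
  obtain ⟨⟨e', σ₀, hσ₀, he'⟩, t⟩ := j
  subst he'
  obtain ⟨α, hα1, ⟨K, hK1, hK2⟩, hα3, hα5, hα6⟩ :=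
    qxE hE (R.b R.i0) R.b0 (idl n) hgb (fun x => σ₀ (e x)) (eie_conj he hσ₀) r hr (by
      intro x hx
      have hx' : e x ≠ 0 := by
        intro h0
        apply hx
        rw [h0, map_zero]
      rw [← map_pow, her x hx', map_one])
  refine ⟨fun m => α m * zq q ^ ((t : ℕ) * m), ?_, ?_, ?_, ?_, ?_⟩
  · intro m
    exact (hα1 m).mul ((zq_int hq.ne').pow _)
  · set K1 : IntermediateField ℚ ℂ := K.toIntermediateField fun x => by
      have : (algebraMap ℚ ℂ x) = (x : ℂ) := rfl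
      rw [this]
      exact SubfieldClass.ratCast_mem K x
    set K2 : IntermediateField ℚ ℂ := IntermediateField.adjoin ℚ {zq q}
    have hf1 : FiniteDimensional ℚ K1 := hK1.to_finiteDimensional
    have hf2 : FiniteDimensional ℚ K2 :=
      IntermediateField.adjoin.finiteDimensional (zq_int hq.ne').tower_top
    have hf3 : FiniteDimensional ℚ ↥(K1 ⊔ K2) := IntermediateField.finiteDimensional_sup K1 K2
    refine ⟨(K1 ⊔ K2).toSubfield, ?_, fun m => ?_⟩
    · have h4 : NumberField ↥(K1 ⊔ K2) := ⟨⟩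
      exact h4
    · show α m * zq q ^ ((t : ℕ) * m) ∈ K1 ⊔ K2
      have m1 : α m ∈ K1 ⊔ K2 := (le_sup_left : K1 ≤ K1 ⊔ K2) (hK2 m)
      have m2 : zq q ∈ K1 ⊔ K2 := (le_sup_right : K2 ≤ K1 ⊔ K2)
        (IntermediateField.mem_adjoin_simple_self ℚ (zq q))
      exact mul_mem m1 (pow_mem m2 _)
  · show α 1 * zq q ^ ((t : ℕ) * 1) = rE A B * zq q ^ (t : ℕ)
    rw [mul_one, hα3]
  · intro τ hτ
    have him : 0 < (τ + (((t : ℕ) : ℤ) : ℂ) / q).im := by
      have : ((((t : ℕ) : ℤ) : ℂ) / q).im = 0 := by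
        have : ((((t : ℕ) : ℤ) : ℂ) / q) = (((t : ℕ) / q : ℝ) : ℂ) := by push_cast; ring
        rw [this]
        exact Complex.ofReal_im _
      rw [Complex.add_im, this, add_zero]
      exact hτ
    have h9 := hα5 _ him
    show HasSum _ (thetaIntI (R.b R.i0) (fun x => σ₀ (e x)) (τ + (((t : ℕ) : ℤ) : ℂ) / q))
    have e1 : (fun m : ℕ => α m / m * Complex.exp (2 * Real.pi * Complex.I *
        (τ + (((t : ℕ) : ℤ) : ℂ) / q)) ^ m) = fun m : ℕ => α m * zq q ^ ((t : ℕ) * m) / m *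
        Complex.exp (2 * Real.pi * Complex.I * τ) ^ m := by
      funext m
      have e2 : Complex.exp (2 * Real.pi * Complex.I * (τ + (((t : ℕ) : ℤ) : ℂ) / q)) =
          zq q ^ (t : ℕ) * Complex.exp (2 * Real.pi * Complex.I * τ) := by
        unfold zq
        rw [← Complex.exp_nat_mul, ← Complex.exp_add]
        congr 1
        push_cast
        ring
      rw [e2, mul_pow, ← pow_mul]
      ring
    rw [e1] at h9
    exact h9
  · intro m hm
    have h9 : α m = 0 := by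
      apply hα6
      intro x hx
      rw [hm x hx, map_zero]
    show α m * zq q ^ ((t : ℕ) * m) = 0
    rw [h9, zero_mul]

/-- the data for Theorem G, for `g = (n)` -/
theorem gdatQE (hE : CaseE A B) (hT : TorXE A B) {q : ℕ} (hq : 0 < q) (hn : 2 ≤ n)
    (R : RepsE A B n ι) (e : OO A B → ℂ) (he : IsEIE (idl n) e) (r : ℕ) (hr : r ≠ 0)
    (her : ∀ x, e x ≠ 0 → e x ^ r = 1) (u : ℂ) (hu : u ≠ 0) (hua : IsAlgebraic ℚ u) (N' : ℕ)
    (hN : N' ≠ 0) (hNd : absD A B * (n : ℤ) ^ 2 ∣ (N' : ℤ)) :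
    GDatN A B (ECK e × Fin q) (PsE q R e) (ThE q R e) (a1E A B q e) (u * R.om R.i0)
      (q ^ 2 * N') := by
  classical
  have hQ : MUX.CQ A B := hE.toCQ
  have hn0 : n ≠ 0 := by omega
  set g : Ideal (OO A B) := idl n with hg
  have hpf : ((n : ℕ) : OO A B) ∈ g := Ideal.mem_span_singleton_self _
  have hgb : g ≠ ⊥ := by
    intro h
    rw [h, Ideal.mem_bot] at hpf
    exact Gdt.nat_ne _ hn0 hpf
  have hgt : g ≠ ⊤ := by
    intro h
    rw [Ideal.eq_top_iff_one, hg, Ideal.mem_span_singleton] at h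
    obtain ⟨y, hy⟩ := h
    have h1 := congrArg QuadraticAlgebra.re hy
    rw [QuadraticAlgebra.re_one, QuadraticAlgebra.re_mul, QuadraticAlgebra.re_natCast,
      QuadraticAlgebra.im_natCast, mul_zero, zero_mul, add_zero] at h1
    have h9 : (n : ℤ) ∣ 1 := ⟨y.re, h1⟩
    have h10 : (n : ℤ) ≤ 1 := Int.le_of_dvd one_pos h9
    omega
  have hn1 : MUX.nI (R.b R.i0) = 1 := by
    rw [R.b0]
    unfold MUX.nI
    exact Nat.card_unique
  have hcop : IsCoprime (MUX.sp ((MUX.nI (R.b R.i0) : ℕ) : OO A B)) g := by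
    rw [hn1, Nat.cast_one, MUX.sp, Ideal.span_singleton_one, ← Ideal.one_eq_top]
    exact isCoprime_one_left
  have hEI : ∀ e' ∈ ECK e, _root_.Pool.Agent.MUX.IsEI g e' := by
    rintro e' ⟨σ, -, rfl⟩
    exact Gdt.ei_conj he.toIsEI σ
  have hEr : ∀ e' ∈ ECK e, ∀ x, e' x ≠ 0 → e' x ^ r = 1 := by
    rintro e' ⟨σ, -, rfl⟩ x hx
    show σ (e x) ^ r = 1
    have hx' : e x ≠ 0 := by
      intro h0
      apply hx
      show σ (e x) = 0
      rw [h0, map_zero]
    rw [← map_pow, her x hx', map_one]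
  have hEG : ∀ e' ∈ ECK e, ∀ x y : OO A B, ((n : ℕ) : OO A B) ∣ x - y → e' x = e' y := by
    rintro e' he' x y ⟨z, hz⟩
    apply (hEI e' he').per
    rw [hz]
    exact Ideal.mul_mem_right _ _ hpf
  have hb : R.b R.i0 ≠ ⊥ := (R.nl R.i0).b_ne
  have hNd' : -(B ^ 2 + 4 * A) * ((n : ℕ) : ℤ) ^ 2 ∣ (N' : ℤ) := by
    have : -(B ^ 2 + 4 * A) * ((n : ℕ) : ℤ) ^ 2 = absD A B * n ^ 2 := by
      unfold absD
      push_cast
      ring
    rw [this]
    exact hNd
  have hF : ∀ e' ∈ ECK e, _ := fun e' he' =>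
    (Pool.Agent.MUXT.main_FTI A B hQ.hB hQ.neg (R.b R.i0) hb e' n (Nat.pos_of_ne_zero hn0)
      (hEI e' he').mul (hEG e' he') (hEI e' he').neg).2 N' hN hNd'
  have hDN : absD A B ∣ (N' : ℤ) := dvd_trans (Dvd.intro _ rfl) hNd
  have hGN : ((n : ℕ) : ℤ) ∣ (N' : ℤ) := by
    refine dvd_trans ?_ hNd
    exact ⟨absD A B * n, by push_cast; ring⟩
  have hnu : ∀ e' ∈ ECK e, ∀ d : ℤ, (N' : ℤ) ∣ d - 1 →
      (MUXT.chiQ A B d : ℂ) * e' (d : OO A B) = 1 := by
    intro e' he' d hd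
    have h10 : MUXF.chiQ A B d = 1 := by
      have := (Pool.Agent.MUXF.xf_CHI A B (cqF hQ) 1 isCoprime_one_left).2.2 d (by
        rw [← dvd_neg, neg_sub]
        exact dvd_trans hDN hd)
      rw [this, Gdt.chiQ_one]
    have h11 : e' (d : OO A B) = 1 := by
      rw [← (hEI e' he').one]
      apply (hEI e' he').per
      obtain ⟨t, ht⟩ := dvd_trans hGN hd
      have h12 : (d : OO A B) - 1 = ((n : ℕ) : OO A B) * (t : OO A B) := by
        have := congrArg (fun z : ℤ => (z : OO A B)) ht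
        push_cast at this
        push_cast
        exact this
      rw [h12]
      exact Ideal.mul_mem_right _ _ hpf
    have h13 : MUXT.chiQ A B d = 1 := h10
    rw [h13, h11]
    norm_num
  have hS : ∀ (e' : OO A B → ℂ), e' ∈ ECK e →
      SymN N' (PhiI (R.b R.i0) e') (thetaIntI (R.b R.i0) e') := by
    intro e' he'
    refine
      { pos := Nat.pos_of_ne_zero hN
        add := ?_
        inv := ?_
        per := ?_
        cusp := ?_ }
    · intro x y z
      unfold PhiI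
      ring
    · intro a b c d hdet hc hd x y
      have := (hF e' he').1.equiv a b c d hdet hc x y
      rw [hnu e' he' d hd, one_mul] at this
      exact this
    · intro a b c d hdet hc hd τ hτ
      have := ((hF e' he').2.1 a b c d hdet hc τ hτ).2
      rw [hnu e' he' d hd, one_mul] at this
      exact this
    · intro a b c d hdet
      obtain ⟨w, hw⟩ := (hF e' he').2.2 a b c d hdet
      exact ⟨_, w, hw⟩
  have hST : ∀ j : ECK e × Fin q, SymN (q ^ 2 * N') (PsE q R e j) (ThE q R e j) := fun j =>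
    TrQ.tr (hS j.1 j.1.2) q hq ((j.2 : ℕ) : ℤ)
  have ho : R.om R.i0 ≠ 0 := (R.nl R.i0).om_ne
  refine
    { pos := Nat.mul_pos (by positivity) (Nat.pos_of_ne_zero hN)
      add := fun j => (hST j).add
      inv := fun j => (hST j).inv
      per := fun j => (hST j).per
      cusp := fun j => (hST j).cusp
      qexp := ?_
      rat := ?_
      alg := ?_ }
  · intro j
    obtain ⟨α, k1, k2, k3, k4, -⟩ := qexpE hE q hq R hn0 e he r hr her j
    exact ⟨α, k1, k2, k3, k4⟩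
  · intro σ hσ
    rintro ⟨⟨e', he'⟩, t⟩
    obtain ⟨C, hC0, hC⟩ := conE hE hT (R.nl R.i0) (hEI e' he') hgt hn0 hpf hcop hσ
    obtain ⟨τ, hτ1, hτ⟩ := he'
    subst hτ
    refine ⟨⟨⟨fun x => σ (τ (e x)), ⟨τ.trans σ, ?_, rfl⟩⟩, t⟩, C * u / σ u, fun x y => ?_⟩
    · show σ (τ _) = _
      rw [hτ1, hσ]
    have hσu : σ u ≠ 0 := (map_ne_zero σ).2 hu
    have e1 : PsE q R e (⟨fun x => τ (e x), ⟨τ, hτ1, rfl⟩⟩, t) x y / (u * R.om R.i0) =
        PhiI (R.b R.i0) (fun x => τ (e x)) (mob q (t : ℕ) 0 q x) (mob q (t : ℕ) 0 q y) /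
          R.om R.i0 / u := by
      unfold PsE
      rw [div_div, mul_comm u]
    rw [e1, map_div₀, hC]
    unfold PsE
    field_simp
  · rintro ⟨⟨e', he'⟩, t⟩ x y
    have h9 := ME2.algE hE hT (R.nl R.i0) (hEI e' he') hgt hn0 hpf hcop hr (hEr e' he')
      (mob q (t : ℕ) 0 q x) (mob q (t : ℕ) 0 q y)
    have e1 : PsE q R e (⟨e', he'⟩, t) x y / (u * R.om R.i0) =
        PhiI (R.b R.i0) e' (mob q (t : ℕ) 0 q x) (mob q (t : ℕ) 0 q y) / R.om R.i0 * u⁻¹ := by
      unfold PsE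
      field_simp
    rw [e1]
    exact h9.mul hua.inv

/-- the data for Theorem G+ at `p = 2`, for `g = (n)`, `n` even -/
theorem gdatEE (hE : CaseE A B) (hT : TorXE A B) {q : ℕ} (hq : 0 < q) (hn : 2 ≤ n) (hn2 : 2 ∣ n)
    (R : RepsE A B n ι) (e : OO A B → ℂ) (he : IsEIE (idl n) e) (r : ℕ) (hr : r ≠ 0)
    (her : ∀ x, e x ≠ 0 → e x ^ r = 1) (u : ℂ) (hu : u ≠ 0) (hua : IsAlgebraic ℚ u) (N' : ℕ)
    (hN : N' ≠ 0) (hNd : absD A B * (n : ℤ) ^ 2 ∣ (N' : ℤ)) :
    GDatE A B (ECK e × Fin q) (PsE q R e) (ThE q R e) (a1E A B q e) (u * R.om R.i0)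
      (q ^ 2 * N') := by
  refine
    { toGDatN := gdatQE hE hT hq hn R e he r hr her u hu hua N' hN hNd
      qe := fun j => ?_ }
  obtain ⟨α, k1, k2, k3, k4, k5⟩ := qexpE hE q hq R (by omega) e he r hr her j
  refine ⟨α, k1, k2, k3, k4, fun m hm => ?_⟩
  apply k5
  intro x hx
  by_contra h10
  refine nm_odd hn2 ((he.supp x).1 h10) ?_
  rw [hx]
  obtain ⟨k, hk⟩ := hm
  exact ⟨(k : ℤ), by rw [hk]; push_cast; ring⟩

end

end Pool.Agent.MEG


end

section

/-!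
# ME2, block G (helper6): Theorem G for combinations of translates in the frame of the exceptional fields; `T3_GPT`
-/

set_option autoImplicit false

namespace Pool.Agent.MEG

open _root_.MU3 _root_.Pool.Agent.MU3A _root_.Pool.Agent.MU3B _root_.Pool.Agent.MU3Q _root_.Pool.Agent.MUX _root_.Pool.Agent.MuSym
  _root_.Pool.Agent.MUXN _root_.Pool.Agent.NS _root_.Pool.Agent.NSG _root_.Pool.Agent.N2 OnePoint UpperHalfPlane
open _root_.Pool.Agent.ME hiding ActE
open _root_.Pool.Agent.MUXU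

noncomputable section

variable {A B : ℤ} {n : ℕ} {ι : Type}

theorem rE_ne (A B : ℤ) : (rE A B : ℂ) ≠ 0 := by
  unfold rE
  split_ifs <;> norm_num

/-- the sum over the one element -/
theorem phiKE_eq (hE : CaseE A B) [Fintype ι] (R : RepsE A B n ι) (e : OO A B → ℂ) (kk : ι → ℂ)
    (x y : OnePoint ℚ) : PhiKE R e kk x y = kk R.i0 * PhiI (R.b R.i0) e x y := by
  unfold PhiKE
  rw [Finset.sum_eq_single R.i0]
  · intro i _ hi
    exact absurd (ME2.one_elt hE R i) hi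
  · intro h
    exact absurd (Finset.mem_univ _) h

/-- Theorem G for the combination `Σ_t cc t P(x + t/q, y + t/q)` of translates of `P = PhiKE R e kk / (u om)` -/
theorem gptQE (hE : CaseE A B) (hT : TorXE A B) {V : ValuationSubring ℂ} (hLoc : LocN A B V)
    (hn : 2 ≤ n) [Fintype ι] (R : RepsE A B n ι) {u : ℂ} (hu : u ≠ 0) (hua : IsAlgebraic ℚ u)
    {L' : PeriodPair} {S₀ : Finset ℂ} (hB : BinP V L' S₀) (hL : LatO A B L' (u * R.om R.i0))
    {e : OO A B → ℂ} (he : IsEIE (idl (A := A) (B := B) n) e) {r : ℕ} (hr : r ≠ 0)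
    (her : ∀ x, e x ≠ 0 → e x ^ r = 1) {kk : ι → ℂ} (hkk : V.valuation (kk R.i0) = 1)
    {N' : ℕ} (hN' : N' ≠ 0) (hNd : absD A B * ((n : ℕ) : ℤ) ^ 2 ∣ (N' : ℤ)) {q : ℕ} (hq : 0 < q)
    (cc : Fin q → ℂ) (hs : ∑ t, cc t * zq q ^ (t : ℕ) ≠ 0) :
    ∃ a b c d : ℤ, a * d - b * c = 1 ∧ (N' : ℤ) ∣ c ∧ (N' : ℤ) ∣ d - 1 ∧
      V.valuation (rE A B : ℂ) * V.valuation (∑ t, cc t * zq q ^ (t : ℕ)) ≤
        V.valuation (∑ t : Fin q, cc t *
        (PhiKE R e kk (mob q (t : ℕ) 0 q ∞) (mob q (t : ℕ) 0 q (mob a b c d ∞)) /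
          (u * R.om R.i0))) := by
  classical
  have hD := gdatQE hE hT hq hn R e he r hr her u hu hua N' hN' hNd
  have hfE : Finite (ECK e) := eck_fin hr her
  have hFt : Fintype (ECK e) := Fintype.ofFinite _
  have heE : e ∈ ECK e := ⟨RingEquiv.refl ℂ, rfl, rfl⟩
  obtain ⟨s, hs'⟩ : ∃ s, s = (rE A B : ℂ) * ∑ t, cc t * zq q ^ (t : ℕ) := ⟨_, rfl⟩
  have hs0 : s ≠ 0 := by
    rw [hs']
    exact mul_ne_zero (rE_ne A B) hs
  rw [← map_mul, ← hs']
  set w : ECK e × Fin q → ℂ := fun j => if j.1 = ⟨e, heE⟩ then kk R.i0 * cc j.2 / s else 0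
    with hw
  have hsum : ∀ F : ECK e × Fin q → ℂ, ∑ j, w j * F j =
      ∑ t, kk R.i0 * cc t / s * F (⟨e, heE⟩, t) := by
    intro F
    rw [Fintype.sum_prod_type, Finset.sum_eq_single (⟨e, heE⟩ : ECK e)]
    · refine Finset.sum_congr rfl fun t _ => ?_
      rw [hw]
      beta_reduce
      rw [if_pos rfl]
    · intro e' _ he'
      refine Finset.sum_eq_zero fun t _ => ?_
      rw [hw]
      beta_reduce
      rw [if_neg he', zero_mul]
    · intro h
      exact absurd (Finset.mem_univ _) h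
  have hα : ∑ j, w j * a1E A B q e j = kk R.i0 := by
    rw [hsum]
    have e1 : ∀ t : Fin q, kk R.i0 * cc t / s * a1E A B q e (⟨e, heE⟩, t) =
        kk R.i0 / s * ((rE A B : ℂ) * (cc t * zq q ^ (t : ℕ))) := by
      intro t
      unfold a1E
      ring
    rw [Finset.sum_congr rfl fun t _ => e1 t, ← Finset.mul_sum, ← Finset.mul_sum, ← hs',
      div_mul_cancel₀ _ hs0]
  obtain ⟨a, b, c, d, m1, m2, m3, m4⟩ := gen_GTH tg_RET tg_NFE (tg_DSC tg_DSI) tg_ZL
    (tg_FK u_AUF) tg_FGG hE.toCQ hD hLoc hB hL w (by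
      rw [hα, ValuationSubring.mem_nonunits_iff, hkk]
      exact lt_irrefl _)
  have hcast : ((q ^ 2 * N' : ℕ) : ℤ) = (q : ℤ) ^ 2 * (N' : ℤ) := by push_cast; ring
  rw [hcast] at m2 m3
  refine ⟨a, b, c, d, m1, dvd_trans (Dvd.intro_left _ rfl) m2, dvd_trans (Dvd.intro_left _ rfl) m3,
    ?_⟩
  rw [ValuationSubring.mem_nonunits_iff, not_lt, hsum] at m4
  have e2 : (∑ t, kk R.i0 * cc t / s * PsE q R e (⟨e, heE⟩, t) ∞ (mob a b c d ∞)) /
      (u * R.om R.i0) = (∑ t : Fin q, cc t *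
        (PhiKE R e kk (mob q (t : ℕ) 0 q ∞) (mob q (t : ℕ) 0 q (mob a b c d ∞)) /
          (u * R.om R.i0))) / s := by
    rw [Finset.sum_div, Finset.sum_div]
    refine Finset.sum_congr rfl fun t _ => ?_
    rw [phiKE_eq hE]
    unfold PsE
    dsimp only
    ring
  rw [e2, map_div₀] at m4
  have hs3 : (0 : V.ValueGroup) < V.valuation s := zero_lt_iff.2 ((Valuation.ne_zero_iff _).2 hs0)
  have := (le_div_iff₀ hs3).1 m4
  rw [one_mul] at this
  exact this

/-- Theorem G+ at `p = 2` for the combination `Σ_t cc t P(x + t/q, y + t/q)` -/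
theorem gptEE (hE : CaseE A B) (hT : TorXE A B) {V : ValuationSubring ℂ} (hLoc : LocN A B V)
    (hn : 2 ≤ n) (hn2 : 2 ∣ n) [Fintype ι] (R : RepsE A B n ι) {u : ℂ} (hu : u ≠ 0)
    (hua : IsAlgebraic ℚ u) {L' : PeriodPair} {S₀ : Finset ℂ} (hB : BinE V L' S₀)
    (hL : LatO A B L' (u * R.om R.i0)) {e : OO A B → ℂ}
    (he : IsEIE (idl (A := A) (B := B) n) e) {r : ℕ} (hr : r ≠ 0)
    (her : ∀ x, e x ≠ 0 → e x ^ r = 1) {kk : ι → ℂ} (hkk : V.valuation (kk R.i0) = 1)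
    {N' : ℕ} (hN' : N' ≠ 0) (hNd : absD A B * ((n : ℕ) : ℤ) ^ 2 ∣ (N' : ℤ)) {q : ℕ} (hq : 0 < q)
    (cc : Fin q → ℂ) (hs : V.valuation (2 : ℂ) < V.valuation (∑ t, cc t * zq q ^ (t : ℕ)) ^ 3) :
    ∃ a b c d : ℤ, a * d - b * c = 1 ∧ (N' : ℤ) ∣ c ∧ (N' : ℤ) ∣ d - 1 ∧
      V.valuation (rE A B : ℂ) < V.valuation (∑ t : Fin q, cc t *
        (PhiKE R e kk (mob q (t : ℕ) 0 q ∞) (mob q (t : ℕ) 0 q (mob a b c d ∞)) /
          (u * R.om R.i0))) := by
  classical
  have hD := gdatEE hE hT hq hn hn2 R e he r hr her u hu hua N' hN' hNd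
  have hfE : Finite (ECK e) := eck_fin hr her
  have hFt : Fintype (ECK e) := Fintype.ofFinite _
  have heE : e ∈ ECK e := ⟨RingEquiv.refl ℂ, rfl, rfl⟩
  obtain ⟨s, hs'⟩ : ∃ s, s = ∑ t, cc t * zq q ^ (t : ℕ) := ⟨_, rfl⟩
  rw [← hs'] at hs
  have hr0 := rE_ne A B
  set w : ECK e × Fin q → ℂ := fun j => if j.1 = ⟨e, heE⟩ then kk R.i0 * cc j.2 / rE A B else 0
    with hw
  have hsum : ∀ F : ECK e × Fin q → ℂ, ∑ j, w j * F j =
      ∑ t, kk R.i0 * cc t / rE A B * F (⟨e, heE⟩, t) := by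
    intro F
    rw [Fintype.sum_prod_type, Finset.sum_eq_single (⟨e, heE⟩ : ECK e)]
    · refine Finset.sum_congr rfl fun t _ => ?_
      rw [hw]
      beta_reduce
      rw [if_pos rfl]
    · intro e' _ he'
      refine Finset.sum_eq_zero fun t _ => ?_
      rw [hw]
      beta_reduce
      rw [if_neg he', zero_mul]
    · intro h
      exact absurd (Finset.mem_univ _) h
  have hα : ∑ j, w j * a1E A B q e j = kk R.i0 * s := by
    rw [hsum]
    have e1 : ∀ t : Fin q, kk R.i0 * cc t / rE A B * a1E A B q e (⟨e, heE⟩, t) =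
        kk R.i0 * (cc t * zq q ^ (t : ℕ)) := by
      intro t
      unfold a1E
      field_simp
    rw [Finset.sum_congr rfl fun t _ => e1 t, ← Finset.mul_sum, ← hs']
  obtain ⟨a, b, c, d, m1, m2, m3, m4⟩ := gen_GTH_E tg_RET tg_NFE (tg_DSC tg_DSI) tg_ZL
    (tg_FK u_AUF) tg_FGG hE.toCQ hD hLoc hB hL w (by
      unfold TV
      rw [hα, map_mul, hkk, one_mul]
      exact not_le.2 hs)
  have hcast : ((q ^ 2 * N' : ℕ) : ℤ) = (q : ℤ) ^ 2 * (N' : ℤ) := by push_cast; ring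
  rw [hcast] at m2 m3
  refine ⟨a, b, c, d, m1, dvd_trans (Dvd.intro_left _ rfl) m2, dvd_trans (Dvd.intro_left _ rfl) m3,
    ?_⟩
  rw [← V.valuation_le_one_iff, not_le, hsum] at m4
  have e2 : (∑ t, kk R.i0 * cc t / rE A B * PsE q R e (⟨e, heE⟩, t) ∞ (mob a b c d ∞)) /
      (u * R.om R.i0) = (∑ t : Fin q, cc t *
        (PhiKE R e kk (mob q (t : ℕ) 0 q ∞) (mob q (t : ℕ) 0 q (mob a b c d ∞)) /
          (u * R.om R.i0))) / rE A B := by
    rw [Finset.sum_div, Finset.sum_div]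
    refine Finset.sum_congr rfl fun t _ => ?_
    rw [phiKE_eq hE]
    unfold PsE
    dsimp only
    ring
  rw [e2, map_div₀] at m4
  have hs3 : (0 : V.ValueGroup) < V.valuation (rE A B : ℂ) :=
    zero_lt_iff.2 ((Valuation.ne_zero_iff _).2 hr0)
  have := (lt_div_iff₀ hs3).1 m4
  rw [one_mul] at this
  exact this

/-! ### The lattice -/

/-- the values of `℘` at torsion points of normalised lattices are algebraic -/
theorem tor_algE (hE : CaseE A B) (hT : TorXE A B) {b : Ideal (OO A B)} {L : PeriodPair} {om : ℂ}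
    (hL : IsNE b L om) {n : ℕ} (hn : n ≠ 0) {z : ℂ} (hz : (n : ℂ) * z ∈ L.lattice)
    (hz' : z ∉ L.lattice) : IsAlgebraic ℚ (L.weierstrassP z) := by
  have hc := hE.toCQ
  have hm : idl (A := A) (B := B) n ≠ ⊥ := by
    intro h0
    rw [Ideal.span_singleton_eq_bot] at h0
    have h1 := congrArg QuadraticAlgebra.re h0
    rw [QuadraticAlgebra.re_natCast, QuadraticAlgebra.re_zero] at h1
    exact hn (by exact_mod_cast h1)
  have hf := hT.fin _ hm
  have hmem : xnE L z ∈ RFE (idl (A := A) (B := B) n) :=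
    IntermediateField.subset_adjoin _ _ ⟨b, L, om, hL, Or.inr
      ⟨z, Pool.Agent.NSR.UNR.tor_of_mul hc hL.toIsLI hz, hz', rfl⟩⟩
  have h1 : IsAlgebraic (kk A B) (⟨xnE L z, hmem⟩ : RFE (idl (A := A) (B := B) n)) :=
    Algebra.IsAlgebraic.isAlgebraic _
  exact alg_of hc (h1.algebraMap (A := ℂ))

theorem g_algE {L : PeriodPair} (hL : NrmE A B L) : IsAlgebraic ℚ L.g₂ ∧ IsAlgebraic ℚ L.g₃ := by
  have hq : ∀ q : ℚ, IsAlgebraic ℚ (q : ℂ) := fun q => isAlgebraic_algebraMap (A := ℂ) q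
  rw [hL.g2, hL.g3]
  unfold g2E g3E
  constructor
  · split_ifs
    · exact_mod_cast hq 4
    · exact_mod_cast hq 0
  · split_ifs
    · exact_mod_cast hq 0
    · exact_mod_cast hq (-4)

/-- algebraicity of the coefficients of a model with two points of order three -/
theorem leg3_algE (hE : CaseE A B) (hT : TorXE A B) {b : Ideal (OO A B)} {L : PeriodPair} {om : ℂ}
    (hL : IsNE b L om) {u e a1 a3 : ℂ} (hu0 : u ≠ 0)
    (htor : ∃ w1 w2 : ℂ, 3 * w1 ∈ L.lattice ∧ 3 * w2 ∈ L.lattice ∧ w1 ∉ L.lattice ∧ w2 ∉ L.lattice ∧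
      w2 - w1 ∉ L.lattice ∧ w2 + w1 ∉ L.lattice ∧ e = L.weierstrassP w1 ∧
      u ^ 2 = L.weierstrassP w2 - L.weierstrassP w1)
    (heq : ∀ z ∉ L.lattice, (L.derivWeierstrassP z / u ^ 3) ^ 2 =
      4 * ((L.weierstrassP z - e) / u ^ 2) ^ 3 + (a1 * ((L.weierstrassP z - e) / u ^ 2) + a3) ^ 2) :
    IsAlgebraic ℚ u ∧ IsAlgebraic ℚ e ∧ IsAlgebraic ℚ a1 ∧ IsAlgebraic ℚ a3 := by
  obtain ⟨k2, k3⟩ := g_algE hL.nrm
  have hq : ∀ q : ℚ, IsAlgebraic ℚ (q : ℂ) := fun q => isAlgebraic_algebraMap (A := ℂ) q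
  obtain ⟨w1, w2, t1, t2, n1, n2, -, -, he, hu⟩ := htor
  have p1 : IsAlgebraic ℚ (L.weierstrassP w1) :=
    tor_algE hE hT hL (n := 3) (by norm_num) (by exact_mod_cast t1) n1
  have p2 : IsAlgebraic ℚ (L.weierstrassP w2) :=
    tor_algE hE hT hL (n := 3) (by norm_num) (by exact_mod_cast t2) n2
  have hu2 : IsAlgebraic ℚ (u ^ 2) := by rw [hu]; exact p2.sub p1
  have hua : IsAlgebraic ℚ u := IsAlgebraic.of_pow (by norm_num) hu2
  have dsq : ∀ w : ℂ, w ∉ L.lattice → IsAlgebraic ℚ (L.weierstrassP w) →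
      IsAlgebraic ℚ ((L.derivWeierstrassP w / u ^ 3) ^ 2) := by
    intro w hw ha
    have e1 : (L.derivWeierstrassP w / u ^ 3) ^ 2 = (((4 : ℚ) : ℂ) * L.weierstrassP w ^ 3 -
        L.g₂ * L.weierstrassP w - L.g₃) * ((u ^ 2) ^ 3)⁻¹ := by
      rw [div_pow, L.derivWeierstrassP_sq w hw]
      push_cast
      rw [div_eq_mul_inv]
      congr 2
      ring
    rw [e1]
    exact ((((hq 4).mul (ha.pow 3)).sub (k2.mul ha)).sub k3).mul (hu2.pow 3).inv
  have ha3 : IsAlgebraic ℚ a3 := by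
    have h1 := heq w1 n1
    rw [he, sub_self, zero_div, mul_zero, zero_add] at h1
    have h2 : a3 ^ 2 = (L.derivWeierstrassP w1 / u ^ 3) ^ 2 := by
      rw [h1]
      ring
    refine IsAlgebraic.of_pow (n := 2) (by norm_num) ?_
    rw [h2]
    exact dsq w1 n1 p1
  refine ⟨hua, by rw [he]; exact p1, ?_, ha3⟩
  have h1 := heq w2 n2
  have e1 : (L.weierstrassP w2 - e) / u ^ 2 = 1 := by
    rw [he, ← hu]
    exact div_self (pow_ne_zero _ hu0)
  rw [e1] at h1
  have h2 : (a1 + a3) ^ 2 = (L.derivWeierstrassP w2 / u ^ 3) ^ 2 - ((4 : ℚ) : ℂ) := by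
    rw [h1]
    push_cast
    ring
  have h3 : IsAlgebraic ℚ (a1 + a3) := by
    refine IsAlgebraic.of_pow (n := 2) (by norm_num) ?_
    rw [h2]
    exact (dsq w2 n2 p2).sub (hq 4)
  have h4 : a1 = (a1 + a3) - a3 := by ring
  rw [h4]
  exact h3.sub ha3

/-- the lattice `u L` is `u om O` -/
theorem latE {n : ℕ} (R : RepsE A B n ι) {u : ℂ} (hu : u ≠ 0) {L' : PeriodPair}
    (hL' : ∀ z, z ∈ (R.L R.i0).lattice ↔ u * z ∈ L'.lattice) :
    LatO A B L' (u * R.om R.i0) := by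
  have ho : R.om R.i0 ≠ 0 := (R.nl R.i0).om_ne
  refine ⟨mul_ne_zero hu ho, fun z => ?_⟩
  have e1 : z = u * (u⁻¹ * z) := by rw [mul_inv_cancel_left₀ hu]
  rw [e1, ← hL' (u⁻¹ * z), (R.nl R.i0).mem]
  constructor
  · rintro ⟨x, -, hx⟩
    exact ⟨x, by rw [hx]; ring⟩
  · rintro ⟨x, hx⟩
    refine ⟨x, by rw [R.b0]; trivial, ?_⟩
    apply mul_left_cancel₀ hu
    rw [hx]
    ring

/-- the lattice `u L`, its integrality property at `V` -/
theorem legTE (hE : CaseE A B) (hT : TorXE A B) {n : ℕ}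
    (R : RepsE A B n ι) {V : ValuationSubring ℂ} (h2V : V.valuation (2 : ℂ) < 1) {u e a1 a3 : ℂ}
    (h : GoodT V (R.L R.i0) u e a1 a3) :
    ∃ (L' : PeriodPair) (S : Finset ℂ), BinP V L' S ∧ LatO A B L' (u * R.om R.i0) := by
  obtain ⟨L', hL'⟩ := u_SCX (R.L R.i0) u h.u0
  obtain ⟨s1, s2, -, -⟩ := ta_SCP (R.L R.i0) L' u h.u0 hL'
  obtain ⟨-, -, k1, k3⟩ := leg3_algE hE hT (R.nl R.i0) h.u0 h.tor h.eq
  refine ⟨L', {a1, a3}, ?_, latE R h.u0 hL'⟩
  refine bin_T Pool.Agent.MU3Q.wq (tg_GP tg_GV tg_GD) tg_DV V h2V L' (e / u ^ 2) a1 a3 ?_ k1 k3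
    h.v1 h.v3
  intro z hz
  have e1 : z = u * (u⁻¹ * z) := by rw [mul_inv_cancel_left₀ h.u0]
  have hz' : u⁻¹ * z ∉ (R.L R.i0).lattice := by
    intro h4
    apply hz
    rw [e1]
    exact (hL' _).1 h4
  have h5 := h.eq _ hz'
  rw [e1, s1, s2, h5]
  have hu := h.u0
  ring

/-- (GPT) `p = 2`, `D = -3` -/
theorem g_GPT3 : Pool.Agent.ME2.T3_GPT := by
  classical
  intro A B V f hST hT ι _ R u el a1 a3 hg e he r hr her kk hkk N' hN' hNd
  have hE : CaseE A B := hST.case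
  have hc : CQ A B := hE.toCQ
  have hv2 : V.valuation (2 : ℂ) < 1 := by
    have := vp (p := 2) hST.hV
    exact_mod_cast this
  have hLoc := loc_p Nat.prime_two hc hST.hV
  obtain ⟨L', S₀, hB, hL⟩ := legTE hE hT R hv2 hg
  have hn : 2 ≤ 2 * f := by
    have := Nat.pos_of_ne_zero hST.f0
    omega
  have hua := (leg3_algE hE hT (R.nl R.i0) hg.u0 hg.tor hg.eq).1
  have hrE : V.valuation (rE A B : ℂ) = 1 := by
    have h3 : rE A B = 3 := by
      unfold rE
      rw [hST.hB]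
      rfl
    rw [h3]
    exact vNp V 2 Nat.prime_two (by exact_mod_cast hv2) 3 (by norm_num)
  have key : ∀ (cc : Fin 16 → ℂ) (hs : ∑ t, cc t * zq 16 ^ (t : ℕ) ≠ 0), _ :=
    fun (cc : Fin 16 → ℂ) (hs : ∑ t, cc t * zq 16 ^ (t : ℕ) ≠ 0) =>
    gptQE hE hT hLoc hn R hg.u0 hua
      hB hL he hr her hkk hN' hNd (q := 16) (by norm_num) cc hs
  rw [hrE] at key
  simp only [one_mul] at key
  have hz16 : (1 : ℂ) - zq 16 ≠ 0 := by
    intro h0
    exact (zq_prim (q := 16) (by norm_num)).ne_one (by norm_num) (by linear_combination -h0)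
  have hz4 : (1 : ℂ) - zq 16 ^ 4 ≠ 0 := by
    intro h0
    have h1 : zq 16 ^ 4 = 1 := by linear_combination -h0
    have h2 := (zq_prim (q := 16) (by norm_num)).pow_eq_one_iff_dvd 4
    have h3 := h2.1 h1
    norm_num at h3
  constructor
  · obtain ⟨cc, hcc⟩ : ∃ cc : Fin 16 → ℂ, cc = fun t => (if t = 0 then 1 else 0) -
      (if t = 1 then 1 else 0) := ⟨_, rfl⟩
    have hF : ∀ F : Fin 16 → ℂ, ∑ t, cc t * F t = F 0 - F 1 := by
      intro F
      rw [hcc]
      simp only [sub_mul, ite_mul, one_mul, zero_mul, Finset.sum_sub_distrib, Finset.sum_ite_eq',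
        Finset.mem_univ, if_true]
    have hs : ∑ t, cc t * zq 16 ^ (t : ℕ) = 1 - zq 16 := by
      rw [hF (fun t => zq 16 ^ (t : ℕ))]
      norm_num
    obtain ⟨a, b, c, d, m1, m2, m3, m4⟩ := key cc (by rw [hs]; exact hz16)
    refine ⟨a, b, c, d, m1, m2, m3, ?_⟩
    rw [hs, hF (fun t => PhiKE R e kk (mob (16 : ℕ) (t : ℕ) 0 (16 : ℕ) ∞)
      (mob (16 : ℕ) (t : ℕ) 0 (16 : ℕ) (mob a b c d ∞)) / (u * R.om R.i0))] at m4
    rw [← v16 V]
    refine pow_le_pow_left₀ zero_le ?_ 8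
    unfold PTq
    dsimp only
    have e0 : (((0 : Fin 16) : ℕ) : ℤ) = 0 := rfl
    have e1 : (((1 : Fin 16) : ℕ) : ℤ) = 1 := rfl
    rw [e0, e1] at m4
    rw [TrQ.mob_zero _ (by norm_num), TrQ.mob_zero _ (by norm_num)] at m4
    exact m4
  · obtain ⟨cc, hcc⟩ : ∃ cc : Fin 16 → ℂ, cc = fun t => (if t = 0 then 1 else 0) -
      (if t = 1 then 1 else 0) - (if t = 4 then 1 else 0) + (if t = 5 then 1 else 0) := ⟨_, rfl⟩
    have hF : ∀ F : Fin 16 → ℂ, ∑ t, cc t * F t = F 0 - F 1 - F 4 + F 5 := by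
      intro F
      rw [hcc]
      simp only [sub_mul, add_mul, ite_mul, one_mul, zero_mul, Finset.sum_sub_distrib,
        Finset.sum_add_distrib, Finset.sum_ite_eq', Finset.mem_univ, if_true]
    have hs : ∑ t, cc t * zq 16 ^ (t : ℕ) = (1 - zq 16) * (1 - zq 16 ^ 4) := by
      rw [hF (fun t => zq 16 ^ (t : ℕ))]
      norm_num
      ring
    obtain ⟨a, b, c, d, m1, m2, m3, m4⟩ := key cc (by rw [hs]; exact mul_ne_zero hz16 hz4)
    refine ⟨a, b, c, d, m1, m2, m3, ?_⟩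
    rw [hs, hF (fun t => PhiKE R e kk (mob (16 : ℕ) (t : ℕ) 0 (16 : ℕ) ∞)
      (mob (16 : ℕ) (t : ℕ) 0 (16 : ℕ) (mob a b c d ∞)) / (u * R.om R.i0))] at m4
    have hv : V.valuation (2 : ℂ) ^ 5 = V.valuation ((1 - zq 16) * (1 - zq 16 ^ 4)) ^ 8 := by
      rw [map_mul, mul_pow, v16, show (8 : ℕ) = 2 * 4 by norm_num, pow_mul, v4, ← pow_succ']
    rw [hv]
    refine pow_le_pow_left₀ zero_le ?_ 8
    unfold PTq
    dsimp only
    have e0 : (((0 : Fin 16) : ℕ) : ℤ) = 0 := rfl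
    have e1 : (((1 : Fin 16) : ℕ) : ℤ) = 1 := rfl
    have e4 : (((4 : Fin 16) : ℕ) : ℤ) = 4 := rfl
    have e5 : (((5 : Fin 16) : ℕ) : ℤ) = 5 := rfl
    rw [e0, e1, e4, e5] at m4
    rw [TrQ.mob_zero _ (by norm_num), TrQ.mob_zero _ (by norm_num)] at m4
    have t4 : ∀ x : OnePoint ℚ, mob 4 1 0 4 x = mob ((16 : ℕ) : ℤ) 4 0 ((16 : ℕ) : ℤ) x := by
      intro x
      have := TrQ.mob_red 4 1 4 (by norm_num) (by norm_num) x
      norm_num at this ⊢
      exact this.symm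
    have t5 : ∀ x : OnePoint ℚ, mob 4 1 0 4 (mob 16 1 0 16 x) =
        mob ((16 : ℕ) : ℤ) 5 0 ((16 : ℕ) : ℤ) x := by
      intro x
      have h1 := TrQ.mob_mob 4 1 16 1 (by norm_num) (by norm_num) x
      have h2 := TrQ.mob_red 16 5 4 (by norm_num) (by norm_num) x
      norm_num at h1 h2 ⊢
      rw [h1, h2]
    rw [t5, t5, t4, t4]
    refine m4.trans (le_of_eq ?_)
    congr 1
    push_cast
    ring

end

end Pool.Agent.MEG


end

section

/-!
# BND: the elements which are invariant under `γ^(p^j)` modulo `p`-th powers (helper28)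
-/

set_option autoImplicit false

namespace Pool.Agent.VB

open _root_.Pool.Agent.RI

namespace BND

/-- a field of the tower contains the `p`-th roots of unity -/
lemma zeta_mem {p : ℕ} {F L : IntermediateField ℚ ℂ} (h : ∃ ζ ∈ F, IsPrimitiveRoot ζ p)
    (hL : F ≤ L) : ∃ ζ ∈ L, IsPrimitiveRoot ζ p := by
  obtain ⟨ζ, hζ, h1⟩ := h
  exact ⟨ζ, hL hζ, h1⟩

lemma pl_mono {p : ℕ} {L L' : IntermediateField ℚ ℂ} (h : L ≤ L') : PL p L ≤ PL p L' := by
  rintro x ⟨t, ht, rfl⟩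
  exact ⟨t, h ht, rfl⟩

/-- descent of one element -/
lemma descend (hKDX : Sb_KDX) (hVD2 : Sb_VD2) (hDGR : Sb_DGR) (hLIM : Sb_LIM) {p : ℕ}
    [Fact p.Prime] {F : IntermediateField ℚ ℂ} {B : ℕ → IntermediateField ℚ ℂ} {n₁ : ℕ}
    {γ : ℂ ≃+* ℂ} (hT : Tow p F B n₁ γ) (j : ℕ) (x : ℂˣ)
    (h1 : ∃ m : ℕ, InD p (F ⊔ B (n₁ + m)) (x : ℂ))
    (h2 : ∃ w ∈ Finf F B, (γ ^ p ^ j) (x : ℂ) = (x : ℂ) * w ^ p) :
    ∃ x₀ : ℂˣ, InD p (F ⊔ B (n₁ + (j + 1))) (x₀ : ℂ) ∧ x / x₀ ∈ PL p (Finf F B) := by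
  have hle : ∀ {a b : ℕ}, a ≤ b → F ⊔ B a ≤ F ⊔ B b := fun h => sup_le_sup_left (hT.mono h) F
  obtain ⟨m₁, hm₁⟩ := h1
  obtain ⟨w, hw, hγ⟩ := h2
  obtain ⟨n, hn⟩ := (hLIM F B hT.mono).1 w hw
  obtain ⟨m, hm1, hm2, hm3⟩ : ∃ m : ℕ, j ≤ m ∧ m₁ ≤ m ∧ n ≤ m :=
    ⟨max j (max m₁ n), le_max_left _ _, (le_max_left _ _).trans (le_max_right _ _),
      (le_max_right _ _).trans (le_max_right _ _)⟩
  have := hT.fd (n₁ + m₁)
  have := hT.fd (n₁ + (m + 1))
  have hxm : (x : ℂ) ∈ F ⊔ B (n₁ + m) := hle (by omega) hm₁.1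
  have hwm : w ∈ F ⊔ B (n₁ + m) := hle (by omega) hn
  obtain ⟨x', hx', u, hu, hu0, hxu⟩ :=
    hKDX p F B n₁ γ hT j m (x : ℂ) w hm1 hxm x.ne_zero hwm hγ
  have hx'0 : x' ≠ 0 := by
    rintro rfl
    rw [zero_mul] at hxu
    exact x.ne_zero hxu
  have hD := hDGR p (F ⊔ B (n₁ + m₁)) (zeta_mem hT.zeta le_sup_left)
  have hD' := hDGR p (F ⊔ B (n₁ + (m + 1))) (zeta_mem hT.zeta le_sup_left)
  have h3 : InD p (F ⊔ B (n₁ + (m + 1))) (x : ℂ) := hD.2.2.2.1 _ (hle (by omega)) _ hm₁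
  have h4 : InD p (F ⊔ B (n₁ + (m + 1))) (u⁻¹ ^ p) := hD'.1 _ (inv_mem hu) (inv_ne_zero hu0)
  have h5 : InD p (F ⊔ B (n₁ + (m + 1))) x' := by
    have h6 := hD'.2.1 _ _ h3 h4
    have h7 : (x : ℂ) * u⁻¹ ^ p = x' := by
      rw [hxu, mul_assoc, ← mul_pow, mul_inv_cancel₀ hu0, one_pow, mul_one]
    rwa [h7] at h6
  refine ⟨Units.mk0 x' hx'0, ⟨hle (by omega) hx', hx'0, ?_⟩, Units.mk0 u hu0,
    le_Finf F B (n₁ + (m + 1)) hu, ?_⟩
  · intro y hy V
    exact hVD2 p F B n₁ γ hT j (m + 1) x' y V hx' hx'0 hy (by omega) (h5.2.2 y hy V)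
  · rw [eq_div_iff_mul_eq']
    apply Units.ext
    rw [Units.val_mul, Units.val_pow_eq_pow_val, Units.val_mk0, Units.val_mk0]
    rw [mul_comm]
    exact hxu.symm

end BND

open _root_.Pool.Agent.VB.BND in
theorem tb_BND (hKDX : Sb_KDX) (hVD2 : Sb_VD2) (hDGR : Sb_DGR) (hCNT : Sb_CNT)
    (hLIM : Sb_LIM) : Sb_BND := by
  classical
  intro p _ F B n₁ γ hT hTC j T hT1 hT2
  have h1 : ∀ x : T, ∃ x₀ : ℂˣ, InD p (F ⊔ B (n₁ + (j + 1))) (x₀ : ℂ) ∧
      (x : ℂˣ) / x₀ ∈ PL p (Finf F B) := fun x =>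
    descend hKDX hVD2 hDGR hLIM hT j x (hT1 x x.2).1 (hT1 x x.2).2
  choose f hf1 hf2 using h1
  have key : ∀ x x' : T, f x / f x' ∈ PL p (Finf F B) → x = x' := by
    intro x x' h
    by_contra hne
    have hne' : (x : ℂˣ) ≠ x' := fun h' => hne (Subtype.ext h')
    apply hT2 x x.2 x' x'.2 hne'
    have h3 : (x : ℂˣ) / x' = ((x : ℂˣ) / f x) * (f x / f x') * ((x' : ℂˣ) / f x')⁻¹ := by
      rw [inv_div, div_mul_div_cancel, div_mul_div_cancel]
    rw [h3]
    exact mul_mem (mul_mem (hf2 x) h) (inv_mem (hf2 x'))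
  have hinj : Function.Injective f := by
    intro x x' h
    apply key
    rw [h, div_self']
    exact one_mem _
  have := hT.fd (n₁ + (j + 1))
  have h4 := hCNT p (F ⊔ B (n₁ + (j + 1))) (tcx_mono le_sup_left hTC)
    (zeta_mem hT.zeta le_sup_left) (Finset.univ.image f) ?_ ?_
  · rwa [Finset.card_image_of_injective _ hinj, Finset.card_univ, Fintype.card_coe] at h4
  · intro z hz
    obtain ⟨x, -, rfl⟩ := Finset.mem_image.1 hz
    exact hf1 x
  · intro z hz z' hz' hne h5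
    obtain ⟨x, -, rfl⟩ := Finset.mem_image.1 hz
    obtain ⟨x', -, rfl⟩ := Finset.mem_image.1 hz'
    exact hne (congrArg f (key x x' (pl_mono (le_Finf F B _) h5)))

end Pool.Agent.VB


end
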