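import Mathlib
import Pool.Agent.MVF.C047
import Pool.Agent.MVF.C113

/-! Parts: NS.T_SGM, NS.T_SGU, N2.T2_ACT, NS.T_TYF, NS.T_ALV, NS.T_FGV, NS.T_RTU, N2.T2_TYF, ME2.T_TYF3 -/

namespace Pool.Agent.NST.RTU
end Pool.Agent.NST.RTU
namespace Pool.Agent.NST.SGM
end Pool.Agent.NST.SGM
namespace Pool.Agent.NST.SGU
end Pool.Agent.NST.SGU
namespace Pool.Agent.NST.TYF
end Pool.Agent.NST.TYF

section

/-!
# NST, module SGM: the signs `d_i`
-/

set_option autoImplicit false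

namespace Pool.Agent.NST

open _root_.MU3 _root_.Pool.Agent.MU3A _root_.Pool.Agent.MU3B _root_.Pool.Agent.RI _root_.Pool.Agent.MUX _root_.Pool.Agent.MUXU
open OnePoint _root_.Pool.Agent.NS
open _root_.Pool.Agent.MUXV (GR InK)
open _root_.Pool.Agent.NSE (CtxN E3 su ru Rep)
open _root_.Pool.Agent.MUXY (ActN Dn Sy_MUI Sy_MUC Sy_MUU)

noncomputable section

namespace SGM

theorem zmul_mem {L : PeriodPair} (n : ℤ) {w : ℂ} (h : w ∈ L.lattice) : (n : ℂ) * w ∈ L.lattice := by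
  have h1 := zsmul_mem h n
  rwa [zsmul_eq_mul] at h1

theorem phi_cong {A B : ℤ} {σ : ℂ ≃+* ℂ} {L : PeriodPair} {Φ : ℂ → ℂ} (hΦ : IsPhi σ L L Φ)
    {m : ℕ} {a : Ideal (OO A B)} {mu : ℂ} (h : ActN σ m a L L mu) {z : ℂ}
    (hz : (m : ℂ) * z ∈ L.lattice) (hzL : z ∉ L.lattice) : Φ z - mu * z ∈ L.lattice := by
  obtain ⟨h1, h2, h3⟩ := h.act z hz hzL
  refine u_EQP L _ _ ((hΦ.mem z).not.2 hzL) h1 ?_ ?_
  · rw [hΦ.P z hzL, h2]
  · rw [hΦ.P' z hzL, h3]

/-- `Φ z ≡ d z` if `c ≡ 1` modulo `m'` and `m' z ∈ L` -/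
theorem phi_d {A B : ℤ} (hC : CQ A B) {σ : ℂ ≃+* ℂ} {b : Ideal (OO A B)} {L : PeriodPair} {om : ℂ}
    (hL : IsLI b L om) {Φ : ℂ → ℂ} (hΦ : IsPhi σ L L Φ)
    {j m' : ℕ} {a : Ideal (OO A B)} {c : OO A B} (hc : c - 1 ∈ idl (A := A) (B := B) m') {d : ℤ}
    (h : ActN σ (3 ^ (j + 1) * m') a L L (d * emb c)) {z : ℂ}
    (hz : (m' : ℂ) * z ∈ L.lattice) (hzL : z ∉ L.lattice) : Φ z - d * z ∈ L.lattice := by
  have h1 : ((3 ^ (j + 1) * m' : ℕ) : ℂ) * z ∈ L.lattice := by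
    have h2 := nsmul_mem hz (3 ^ (j + 1))
    rw [nsmul_eq_mul, ← mul_assoc, ← Nat.cast_mul] at h2
    exact h2
  have h3 := phi_cong hΦ h h1 hzL
  obtain ⟨y, hy⟩ := Ideal.mem_span_singleton'.1 hc
  have h4 : emb c = emb y * m' + 1 := by
    have h5 : c = y * ((m' : ℕ) : OO A B) + 1 := by rw [hy]; ring
    rw [h5, Pool.Agent.MUX.emb_add hC, Pool.Agent.MUX.emb_mul hC,
      Pool.Agent.MUX.emb_natCast hC, Pool.Agent.MUX.emb_one hC]
  have h5 : emb y * (m' * z) ∈ L.lattice := by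
    obtain ⟨t, ht, he⟩ := (hL.mem _).1 hz
    rw [he]
    refine (hL.mem _).2 ⟨y * t, b.mul_mem_left y ht, ?_⟩
    rw [Pool.Agent.MUX.emb_mul hC]; ring
  have h6 := add_mem h3 (zmul_mem d h5)
  have h7 : Φ z - d * emb c * z + d * (emb y * (m' * z)) = Φ z - d * z := by
    rw [h4]; ring
  rwa [h7] at h6

end SGM

open _root_.Pool.Agent.NST.SGM in
theorem nt_SGM (hI : Sy_MUI) (hMC : Sy_MUC) (hMU : Sy_MUU) : Nt_SGM := by
  intro A B f hC hf ι R j m' hm' hfm σ c d hc hact i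
  have hN0 : nI (R.b i) ≠ 0 := by
    intro h
    have h1 := R.cop i
    rw [h, Nat.coprime_zero_left] at h1
    omega
  have hμ : muX R i ≠ 0 := by
    unfold muX
    exact div_ne_zero (mul_ne_zero (R.nl i).om_ne (by exact_mod_cast hN0)) (R.nl R.i0).om_ne
  have hQ := hI A B hC _ ι R i
  have hQ' := hMC A B hC σ hact.fix (cjI (R.b i)) (R.b R.i0) (R.L R.i0) (R.L i) (R.L R.i0) (R.L i)
    (R.om R.i0) (muX R i) (R.nl R.i0).toIsLI (hact.act R.i0).cj (hact.act i).cj hQ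
  have hs := hMU A B _ _ _ _ _ (R.nl i).nrm hQ hQ'
  have hisg : Isg (R.L R.i0) (R.L i) (muX R i) := by
    intro w hw
    refine (hQ.2 w).2 fun x _ => ?_
    obtain ⟨t, ht, rfl⟩ := ((R.nl R.i0).mem w).1 hw
    refine ((R.nl R.i0).mem _).2 ⟨x * t, (R.b R.i0).mul_mem_left x ht, ?_⟩
    rw [Pool.Agent.MUX.emb_mul hC]; ring
  obtain ⟨Φ, hΦ⟩ := u_PHI σ _ _ (hact.act R.i0).cj
  obtain ⟨Ψ, hΨ⟩ := u_PHI σ _ _ (hact.act i).cj
  obtain ⟨-, hfun⟩ := u_FUN σ _ _ _ _ (muX R i) Φ Ψ hμ hisg (hact.act R.i0).cj (hact.act i).cj hΦ hΨ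
  have hm0 : (m' : ℂ) ≠ 0 := by exact_mod_cast hm'
  -- the point
  obtain ⟨z, hz⟩ : ∃ z : ℂ, z = R.om R.i0 / m' := ⟨_, rfl⟩
  have hmz : (m' : ℂ) * z = R.om R.i0 := by rw [hz]; field_simp
  have hom0 : R.om R.i0 ∈ (R.L R.i0).lattice := by
    refine ((R.nl R.i0).mem _).2 ⟨1, by rw [R.b0]; trivial, ?_⟩
    rw [Pool.Agent.MUX.emb_one hC, mul_one]
  have hμz : (m' : ℂ) * (muX R i * z) = R.om i * nI (R.b i) := by
    rw [mul_left_comm, hmz]
    unfold muX
    have := (R.nl R.i0).om_ne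
    field_simp
  have h2 : 2 * (muX R i * z) ∉ (R.L i).lattice := by
    intro h
    obtain ⟨x, -, hx⟩ := ((R.nl i).mem _).1 h
    have h3 : emb (((2 * nI (R.b i) : ℕ) : OO A B)) = emb (((m' : ℕ) : OO A B) * x) := by
      rw [Pool.Agent.MUX.emb_mul hC, Pool.Agent.MUX.emb_natCast hC, Pool.Agent.MUX.emb_natCast hC]
      apply mul_left_cancel₀ (R.nl i).om_ne
      push_cast
      linear_combination -2 * hμz + (m' : ℂ) * hx
    have h4 := Pool.Agent.MUX.emb_inj hC h3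
    have h5 : ((2 * nI (R.b i) : ℕ) : ℤ) = (m' : ℤ) * x.re := by
      have h6 := congrArg QuadraticAlgebra.re h4
      rw [QuadraticAlgebra.re_natCast, QuadraticAlgebra.re_mul, QuadraticAlgebra.re_natCast,
        QuadraticAlgebra.im_natCast] at h6
      rw [h6]; ring
    have h6 : m' ∣ 2 * nI (R.b i) := by
      have : (m' : ℤ) ∣ ((2 * nI (R.b i) : ℕ) : ℤ) := ⟨_, h5⟩
      exact_mod_cast this
    have h7 : f ∣ 2 * nI (R.b i) := hfm.trans h6
    have h8 : Nat.Coprime f (nI (R.b i)) := ((R.cop i).coprime_mul_left_right).symm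
    have h9 := h8.dvd_of_dvd_mul_right h7
    exact absurd (Nat.le_of_dvd (by norm_num) h9) (by omega)
  have h1 : muX R i * z ∉ (R.L i).lattice := fun h => h2 (by
    have := add_mem h h
    rwa [← two_mul] at this)
  have hz0 : z ∉ (R.L R.i0).lattice := fun h => h1 (hisg z h)
  have e1 := phi_d hC (R.nl R.i0).toIsLI hΦ hc (hact.act R.i0) (hmz ▸ hom0) hz0
  have e2 : Ψ (muX R i * z) - d i * (muX R i * z) ∈ (R.L i).lattice := by
    refine phi_d hC (R.nl i).toIsLI hΨ hc (hact.act i) ?_ h1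
    rw [mul_left_comm, hmz]
    exact hisg _ hom0
  have e3 := hfun z
  have e4 := hisg _ e1
  -- the sign
  obtain ⟨s, hs1, hs2⟩ : ∃ s : ℤ, (s = 1 ∨ s = -1) ∧ σ (muX R i) = s * muX R i := by
    rcases hs with h | h
    · exact ⟨1, Or.inl rfl, by rw [h]; push_cast; ring⟩
    · exact ⟨-1, Or.inr rfl, by rw [h]; push_cast; ring⟩
  rw [hs2] at e3 ⊢
  have e5 : ((d i - s * d R.i0 : ℤ) : ℂ) * (muX R i * z) ∈ (R.L i).lattice := by
    have h6 := add_mem (sub_mem e3 e2) (zmul_mem s e4)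
    have h7 : Ψ (muX R i * z) - s * muX R i * Φ z - (Ψ (muX R i * z) - d i * (muX R i * z)) +
        s * (muX R i * (Φ z - d R.i0 * z)) =
        ((d i - s * d R.i0 : ℤ) : ℂ) * (muX R i * z) := by
      push_cast; ring
    rwa [h7] at h6
  have e6 : d i = s * d R.i0 := by
    by_contra hne
    have h8 : d i - s * d R.i0 = 2 ∨ d i - s * d R.i0 = -2 := by
      rcases hact.sgn i with h9 | h9 <;> rcases hact.sgn R.i0 with h10 | h10 <;>
        rcases hs1 with h11 | h11 <;> rw [h9, h10, h11] at hne ⊢ <;> simp at hne ⊢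
    apply h2
    rcases h8 with h8 | h8
    · rw [h8] at e5
      exact_mod_cast e5
    · rw [h8] at e5
      have := neg_mem e5
      push_cast at this
      rwa [← neg_mul, neg_neg] at this
  rw [e6]
  rcases hact.sgn R.i0 with h10 | h10 <;> rw [h10] <;> push_cast <;> ring

end

end Pool.Agent.NST


end

section

/-!
# MUX-NS, block TN, module SGU: the sign `d_0`
-/

set_option autoImplicit false

namespace Pool.Agent.NST

open _root_.MU3 _root_.Pool.Agent.MU3A _root_.Pool.Agent.MU3B _root_.Pool.Agent.RI _root_.Pool.Agent.MUX _root_.Pool.Agent.MUXU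
open OnePoint _root_.Pool.Agent.NS
open _root_.Pool.Agent.MUXV (GR InK)
open _root_.Pool.Agent.NSE (CtxN E3 su ru Rep)
open _root_.Pool.Agent.MUXY (ActN Dn)

noncomputable section

namespace SGU

theorem absD_ge {A B : ℤ} (h : CQ A B) : 3 ≤ absD A B := by
  have h1 := h.neg
  unfold absD
  rcases h.hB with hB | hB <;> subst hB <;> omega

theorem six_le {A B : ℤ} {V : ValuationSubring ℂ} {f : ℕ} (hS : SetN A B V f) : 6 ≤ f := by
  have h1 := absD_ge hS.case.toCQ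
  have h2 := Int.le_of_dvd (by have := hS.f0; omega) hS.fD
  omega

theorem der_congr (L : PeriodPair) {z w : ℂ} (h : w - z ∈ L.lattice) :
    L.derivWeierstrassP w = L.derivWeierstrassP z := by
  have h4 := L.derivWeierstrassP_add_coe z ⟨w - z, h⟩
  have h5 : z + ((⟨w - z, h⟩ : L.lattice) : ℂ) = w := by
    show z + (w - z) = w
    ring
  rw [h5] at h4
  exact h4

end SGU

open _root_.Pool.Agent.NST.SGU in
/-- (SGU) the sign `d_0` -/
theorem nt_SGU (hG : NSE.Se_GRN) (hT : NSE.Se_TPN) : Nt_SGU := by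
  intro A B V f hS ι R u e lam hGd j m' hm0 hm3 hfm σ c d hcm hAct hσu hlast
  have hC := hS.case.toCQ
  have hf6 := six_le hS
  have hm6 : 6 ≤ m' := le_trans hf6 (Nat.le_of_dvd (Nat.pos_of_ne_zero hm0) hfm)
  set L := R.L R.i0 with hL
  set om := R.om R.i0 with hom
  have hmem : ∀ z : ℂ, z ∈ L.lattice ↔ ∃ x : OO A B, z = om * emb x := by
    intro z
    rw [(R.nl R.i0).mem, R.b0]
    exact ⟨fun ⟨x, _, hx⟩ => ⟨x, hx⟩, fun ⟨x, hx⟩ => ⟨x, trivial, hx⟩⟩
  have hom0 : om ≠ 0 := (R.nl R.i0).om_ne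
  have hmC : (m' : ℂ) ≠ 0 := Nat.cast_ne_zero.2 hm0
  -- `v 3 < 1`
  have h3 : V.valuation (3 : ℂ) < 1 := by
    have h1 : (3 : OO A B) ∈ idl (A := A) (B := B) 3 := Ideal.subset_span (by simp)
    have h2 := (hS.hV 3).2 h1
    rw [ValuationSubring.mem_nonunits_iff] at h2
    have h4 := Pool.Agent.MUX.emb_natCast hC 3
    push_cast at h4
    rwa [h4] at h2
  obtain ⟨ξ, G⟩ := hG V L u e lam hGd h3
  obtain ⟨hT1, -⟩ := hT V L u e lam hGd h3
  obtain ⟨-, hT2⟩ := hT1 m' hm3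
  set z : ℂ := om / m' with hz
  have hmz : (m' : ℂ) * z = om := by rw [hz]; field_simp
  have homL : om ∈ L.lattice := (hmem om).2 ⟨1, by rw [Pool.Agent.MUX.emb_one hC, mul_one]⟩
  have hzz : z + z ∉ L.lattice := by
    intro h
    obtain ⟨x, hx⟩ := (hmem _).1 h
    have h1 : (m' : ℂ) * emb x = 2 := by
      have h2 : om * ((m' : ℂ) * emb x) = om * 2 := by
        linear_combination (-(m' : ℂ)) * hx + 2 * hmz
      exact mul_left_cancel₀ hom0 h2
    have h2 : ((m' : ℕ) : OO A B) * x = ((2 : ℕ) : OO A B) := by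
      apply Pool.Agent.MUX.emb_inj hC
      rw [Pool.Agent.MUX.emb_mul hC, Pool.Agent.MUX.emb_natCast hC,
        Pool.Agent.MUX.emb_natCast hC, h1]
      norm_num
    have h4 := congrArg nm h2
    rw [Pool.Agent.MUX.nm_mul hC] at h4
    have h5 := Pool.Agent.MUX.nm_intCast (A := A) (B := B) (m' : ℤ)
    have h6 := Pool.Agent.MUX.nm_intCast (A := A) (B := B) (2 : ℤ)
    rw [Int.cast_natCast] at h5
    have h7 : ((2 : ℤ) : OO A B) = ((2 : ℕ) : OO A B) := by push_cast; rfl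
    rw [h7] at h6
    rw [h5, h6] at h4
    have h8 : ((m' : ℤ) ^ 2) ∣ 2 ^ 2 := ⟨_, h4.symm⟩
    have h9 := Int.le_of_dvd (by norm_num) h8
    have h10 : (6 : ℤ) ≤ m' := by exact_mod_cast hm6
    nlinarith
  have hzL : z ∉ L.lattice := fun h => hzz (add_mem h h)
  have hzK : ¬ InK V L (xu L u e) z := fun h => hzL (hT2 z (by rw [hmz]; exact homL) h)
  have hzzK : ¬ InK V L (xu L u e) (z + z) := fun h => hzz (hT2 (z + z) (by
    rw [mul_add, hmz]
    exact add_mem homL homL) h)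
  -- `v (yu z) = 1`
  have hy1 : V.valuation (yu L u z) = 1 := by
    obtain ⟨hns, hxi⟩ := G.some z hzL
    have e1 := (Pool.Agent.MUXV.inE_iff G z).not.2 hzK
    have e2 := (Pool.Agent.MUXV.inE_iff G (z + z)).not.2 hzzK
    rw [map_add, hxi] at e2
    rw [hxi] at e1
    exact Pool.Agent.MU3.Val.v_y_unit G.int G.two G.disc hns e1 e2
  -- the action
  have hact := hAct.act R.i0
  have hmzL : ((3 ^ (j + 1) * m' : ℕ) : ℂ) * z ∈ L.lattice := by
    have h1 : ((3 ^ (j + 1) * m' : ℕ) : ℂ) * z = (3 ^ (j + 1) : ℕ) * om := by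
      rw [← hmz]; push_cast; ring
    rw [h1, ← nsmul_eq_mul]
    exact nsmul_mem homL _
  obtain ⟨-, -, hP'⟩ := hact.act z hmzL hzL
  have hcz : emb c * z - z ∈ L.lattice := by
    obtain ⟨y, hy⟩ := Ideal.mem_span_singleton'.1 hcm
    refine (hmem _).2 ⟨y, ?_⟩
    have h1 : emb c - 1 = emb y * m' := by
      have h2 := congrArg emb hy
      rw [Pool.Agent.MUX.emb_mul hC, Pool.Agent.MUX.emb_natCast hC, Pool.Agent.MUX.emb_sub hC,
        Pool.Agent.MUX.emb_one hC] at h2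
      exact h2.symm
    have h2 : emb c * z - z = (emb c - 1) * z := by ring
    rw [h2, h1, mul_assoc, hmz, mul_comm]
  have hder : σ (L.derivWeierstrassP z) = d R.i0 * L.derivWeierstrassP z := by
    rw [← hP']
    rcases hAct.sgn R.i0 with hd | hd
    · rw [hd]
      push_cast
      rw [one_mul, one_mul]
      exact der_congr L hcz
    · rw [hd]
      push_cast
      have h1 : -1 * emb c * z = -(emb c * z) := by ring
      rw [h1, L.derivWeierstrassP_neg, der_congr L hcz]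
      ring
  have hu0 := hGd.u0
  have hd2 : (d R.i0 : ℂ) * d R.i0 = 1 := by
    rcases hAct.sgn R.i0 with hd | hd <;> rw [hd] <;> norm_num
  have hs : σ u = d R.i0 * u ∨ σ u = -(d R.i0 * u) := by
    have h1 : (σ u) ^ 2 = (d R.i0 * u) ^ 2 := by
      rw [← map_pow, hσu]
      linear_combination (-(u ^ 2)) * hd2
    exact sq_eq_sq_iff_eq_or_eq_neg.1 h1
  rcases hs with hs | hs
  · exact hs
  · exfalso
    have hσy : σ (yu L u z) = -yu L u z := by
      unfold yu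
      rw [map_div₀, map_mul, map_pow, hs, hder, map_ofNat]
      have hd0 : (d R.i0 : ℂ) ≠ 0 := fun h0 => by
        rw [h0, zero_mul] at hd2
        exact zero_ne_one hd2
      rw [div_eq_iff (by
        refine mul_ne_zero two_ne_zero (pow_ne_zero _ ?_)
        exact neg_ne_zero.2 (mul_ne_zero hd0 hu0))]
      have h5 : (d R.i0 : ℂ) ^ 3 = d R.i0 := by linear_combination (d R.i0 : ℂ) * hd2
      have h6 : (2 : ℂ) * (-(d R.i0 * u)) ^ 3 = -(d R.i0 * (2 * u ^ 3)) := by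
        linear_combination (-2 * u ^ 3) * h5
      rw [h6]
      field_simp
    have h1 := hlast hy1.le
    rw [hσy] at h1
    have h2 : -yu L u z - yu L u z = -(2 * yu L u z) := by ring
    rw [h2, Valuation.map_neg, map_mul, hy1, G.two, one_mul] at h1
    exact lt_irrefl _ h1

end

end Pool.Agent.NST


end

section

/-!
# MUX-2N, block T2N (helper4): the action of an automorphism in the inertia group, `2` inert

Adaptation of the block TN (`Pool/Agent/NS/StTN.lean`). `σ` in the inertia group acts on the points of level `m = 2^(j+1) m'` of `L_i` as `d_i c`, `c ≡ 1` modulo `m'`,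
`d_i = ±1` (`aci2`); `σ (u a3) = d_0 u a3` (`sgu2`; the sign of `σ u` is not determined); `σ mu_i = d_0 d_i mu_i` (`sgm2`); `e(c) σ(P/(u a3 om_0)) = P/(u a3 om_0)` (`vak2`).
-/

set_option autoImplicit false

namespace Pool.Agent.N2T

open _root_.MU3 _root_.Pool.Agent.MU3A _root_.Pool.Agent.MU3B _root_.Pool.Agent.RI _root_.Pool.Agent.MUX _root_.Pool.Agent.MUXU
open OnePoint _root_.Pool.Agent.NS _root_.Pool.Agent.N2 _root_.Pool.Agent.NST
open _root_.Pool.Agent.MUXY (ActN Dn y_MUU y_BRI y_MUI y_MUC y_RA1)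

noncomputable section

lemma two_ne_top {A B : ℤ} : (1 : OO A B) ∉ idl (A := A) (B := B) 2 := by
  intro h
  obtain ⟨x, hx⟩ := Ideal.mem_span_singleton'.1 h
  have h1 := congrArg QuadraticAlgebra.re hx
  have h2 : (x * ((2 : ℕ) : OO A B)).re = 2 * x.re := by
    have e1 : ((2 : ℕ) : OO A B).re = ((2 : ℕ) : ℤ) := QuadraticAlgebra.re_natCast _
    have e2 : ((2 : ℕ) : OO A B).im = 0 := QuadraticAlgebra.im_natCast _
    rw [QuadraticAlgebra.re_mul, e1, e2]
    push_cast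
    ring
  rw [h2] at h1
  have h4 : (1 : OO A B).re = 1 := rfl
  rw [h4] at h1
  omega

open ACI in
/-- the number `c` and the signs `d_i` -/
theorem aci2 (hR : S2_RFIN) {A B : ℤ} {V : ValuationSubring ℂ} (hCI : CaseT A B)
    (hV : OverI V (idl (A := A) (B := B) 2)) (T : TorX A B) {n : ℕ} {ι : Type}
    (R : Reps A B n ι) (j m' : ℕ) (hm' : m' ≠ 0) (h3m' : ¬ 2 ∣ m') (σ : ℂ ≃+* ℂ)
    (hσ : FixK A B σ)
    (hin : ∀ y ∈ RF (idl (A := A) (B := B) m'), y ∈ V → σ y - y ∈ V.nonunits) :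
    (∀ y ∈ RF (idl (A := A) (B := B) m'), σ y = y) ∧
    ∃ (c : OO A B) (d : ι → ℤ), c - 1 ∈ idl (A := A) (B := B) m' ∧
      c ∉ idl (A := A) (B := B) 2 ∧ ActT R (2 ^ (j + 1) * m') σ c d := by
  have hC : CQ A B := hCI.toCQ
  have hfix := (hR A B V hCI hV T).2 m' hm' h3m' σ hσ hin
  refine ⟨hfix, ?_⟩
  set m : ℕ := 2 ^ (j + 1) * m' with hmdef
  have hm : m ≠ 0 := mul_ne_zero (pow_ne_zero _ (by norm_num)) hm'
  have hI : idl (A := A) (B := B) m ≠ ⊥ := by
    rw [Ne, Ideal.span_singleton_eq_bot]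
    exact natCast_ne_zero' hC hm
  have hI' : idl (A := A) (B := B) m' ≠ ⊥ := by
    rw [Ne, Ideal.span_singleton_eq_bot]
    exact natCast_ne_zero' hC hm'
  have hle : idl (A := A) (B := B) m ≤ idl (A := A) (B := B) m' := idl_le (Dvd.intro_left _ rfl)
  have hle2 : idl (A := A) (B := B) m ≤ idl (A := A) (B := B) 2 :=
    idl_le (Dvd.dvd.mul_right (dvd_pow_self 2 (Nat.succ_ne_zero j)) m')
  obtain ⟨a, hcop, ha⟩ := T.act (idl m) hI σ hσ
  obtain ⟨b₀, L₀, om₀, mu₀, hL₀, hA₀⟩ := ha _ _ _ (R.nl R.i0)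
  have hA' : ActI σ (idl m') a (R.L R.i0) L₀ mu₀ := by
    refine ⟨hA₀.kap, ?_, hA₀.isq, fun z hz => hA₀.act z fun x hx => hz x (hle hx)⟩
    have h3 := hcop
    rw [Ideal.isCoprime_iff_sup_eq] at h3 ⊢
    rw [eq_top_iff, ← h3]
    exact sup_le_sup_left hle a
  obtain ⟨c, hc1, hca⟩ := (T.triv (idl m') a σ _ _ _ _ mu₀ hI' hσ (R.nl R.i0) hA' hL₀.nrm).1 hfix
  subst hca
  have hc3 : c ∉ idl (A := A) (B := B) 2 := by
    intro hc
    have h3 := hcop
    rw [Ideal.isCoprime_iff_sup_eq] at h3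
    have h4 : (sp c) ⊔ idl (A := A) (B := B) m ≤ idl (A := A) (B := B) 2 :=
      sup_le ((Ideal.span_singleton_le_iff_mem _).2 hc) hle2
    rw [h3] at h4
    exact two_ne_top (h4 trivial)
  have hc0 : c ≠ 0 := by
    rintro rfl
    exact hc3 (Ideal.zero_mem _)
  have key : ∀ i, ∃ d : ℤ, (d = 1 ∨ d = -1) ∧
      ActN σ m (sp c) (R.L i) (R.L i) ((d : ℂ) * emb c) := by
    intro i
    obtain ⟨b', L', om', mu, hL', hA⟩ := ha _ _ _ (R.nl i)
    have hk : kap L' = kap (R.L i) := by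
      rw [hA.kap]
      exact hfix _ (IntermediateField.subset_adjoin _ _ ⟨R.b i, R.L i, R.om i, R.nl i, Or.inl rfl⟩)
    have hg2 : L'.g₂ = (R.L i).g₂ := by
      unfold kap at hk
      linear_combination (1728 / 12) * hk
    have hg3 : L'.g₃ = (R.L i).g₃ := by
      have e1 := hL'.nrm
      have e2 := (R.nl i).nrm
      rw [hg2, e2] at e1
      linear_combination (1 / 18) * e1
    have hlat : L'.lattice = (R.L i).lattice := u_DET L' (R.L i) hg2 hg3
    have hN : ActN σ m (sp c) (R.L i) (R.L i) mu :=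
      y_BRI A B hC σ m (sp c) (R.b i) b' (R.L i) L' (R.L i) (R.om i) om' mu (R.nl i) hL' hA
        (fun z => by rw [hlat])
    have hq1 : IsQ (sp c) (R.L i) (R.L i) mu := ⟨hN.ne, hN.isq⟩
    have hCM : HasCM A B (R.L i) := (R.nl i).toIsLI.hasCM hC
    have hq2 : IsQ (sp c) (R.L i) (R.L i) (emb c) := by
      refine ⟨_root_.Pool.Agent.MUX.emb_ne_zero hC hc0, fun z => ⟨fun hz x hx => ?_, fun hz => ?_⟩⟩
      · obtain ⟨y, rfl⟩ := Ideal.mem_span_singleton'.1 hx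
        rw [_root_.Pool.Agent.MUX.emb_mul hC, mul_assoc]
        exact hCM y _ hz
      · exact hz c (Ideal.mem_span_singleton_self c)
    rcases y_MUU A B (sp c) (R.L i) (R.L i) (emb c) mu (R.nl i).nrm hq2 hq1 with h | h
    · refine ⟨1, Or.inl rfl, ?_⟩
      have e : (((1 : ℤ) : ℂ)) * emb c = mu := by rw [h]; push_cast; ring
      rw [e]
      exact hN
    · refine ⟨-1, Or.inr rfl, ?_⟩
      have e : (((-1 : ℤ) : ℂ)) * emb c = mu := by rw [h]; push_cast; ring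
      rw [e]
      exact hN
  choose d hd hact using key
  refine ⟨c, d, hc1, hc3, hσ, hd, hact, fun z hz => ?_⟩
  exact (T.zeta m (idl m) (sp c) σ _ _ _ _ mu₀ hI hσ hm le_rfl (R.nl R.i0) hA₀ z hz).2


open SGM in
/-- `Φ z ≡ d z` if `c ≡ 1` modulo `m'` and `m' z ∈ L` -/
theorem phi_d2 {A B : ℤ} (hC : CQ A B) {σ : ℂ ≃+* ℂ} {b : Ideal (OO A B)} {L : PeriodPair} {om : ℂ}
    (hL : IsLI b L om) {Φ : ℂ → ℂ} (hΦ : IsPhi σ L L Φ)
    {m m' : ℕ} (hmm : m' ∣ m) {a : Ideal (OO A B)} {c : OO A B} (hc : c - 1 ∈ idl (A := A) (B := B) m') {d : ℤ}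
    (h : ActN σ m a L L (d * emb c)) {z : ℂ}
    (hz : (m' : ℂ) * z ∈ L.lattice) (hzL : z ∉ L.lattice) : Φ z - d * z ∈ L.lattice := by
  have h1 : (m : ℂ) * z ∈ L.lattice := by
    obtain ⟨k, rfl⟩ := hmm
    have h2 := nsmul_mem hz k
    rw [nsmul_eq_mul, ← mul_assoc, ← Nat.cast_mul, mul_comm k m'] at h2
    exact h2
  have h3 := phi_cong hΦ h h1 hzL
  obtain ⟨y, hy⟩ := Ideal.mem_span_singleton'.1 hc
  have h4 : emb c = emb y * m' + 1 := by
    have h5 : c = y * ((m' : ℕ) : OO A B) + 1 := by rw [hy]; ring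
    rw [h5, Pool.Agent.MUX.emb_add hC, Pool.Agent.MUX.emb_mul hC,
      Pool.Agent.MUX.emb_natCast hC, Pool.Agent.MUX.emb_one hC]
  have h5 : emb y * (m' * z) ∈ L.lattice := by
    obtain ⟨t, ht, he⟩ := (hL.mem _).1 hz
    rw [he]
    refine (hL.mem _).2 ⟨y * t, b.mul_mem_left y ht, ?_⟩
    rw [Pool.Agent.MUX.emb_mul hC]; ring
  have h6 := add_mem h3 (zmul_mem d h5)
  have h7 : Φ z - d * emb c * z + d * (emb y * (m' * z)) = Φ z - d * z := by
    rw [h4]; ring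
  rwa [h7] at h6

open SGM in
/-- the signs `d_i` -/
theorem sgm2 {A B : ℤ} {f p : ℕ} (hC : CQ A B) (hf : 3 ≤ f) {ι : Type} (R : Reps A B (p * f) ι)
    {m m' : ℕ} (hmm : m' ∣ m) (hm' : m' ≠ 0) (hfm : f ∣ m') (σ : ℂ ≃+* ℂ) (c : OO A B)
    (d : ι → ℤ) (hc : c - 1 ∈ idl (A := A) (B := B) m') (hact : ActT R m σ c d) (i : ι) :
    σ (muX R i) = d R.i0 * d i * muX R i := by
  have hN0 : nI (R.b i) ≠ 0 := by
    intro h
    have h1 := R.cop i
    rw [h, Nat.coprime_zero_left] at h1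
    have h2 : f ∣ 1 := h1 ▸ dvd_mul_left f p
    have := Nat.le_of_dvd one_pos h2
    omega
  have hμ : muX R i ≠ 0 := by
    unfold muX
    exact div_ne_zero (mul_ne_zero (R.nl i).om_ne (by exact_mod_cast hN0)) (R.nl R.i0).om_ne
  have hQ := y_MUI A B hC _ ι R i
  have hQ' := y_MUC A B hC σ hact.fix (cjI (R.b i)) (R.b R.i0) (R.L R.i0) (R.L i) (R.L R.i0) (R.L i)
    (R.om R.i0) (muX R i) (R.nl R.i0).toIsLI (hact.act R.i0).cj (hact.act i).cj hQ
  have hs := y_MUU A B _ _ _ _ _ (R.nl i).nrm hQ hQ'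
  have hisg : Isg (R.L R.i0) (R.L i) (muX R i) := by
    intro w hw
    refine (hQ.2 w).2 fun x _ => ?_
    obtain ⟨t, ht, rfl⟩ := ((R.nl R.i0).mem w).1 hw
    refine ((R.nl R.i0).mem _).2 ⟨x * t, (R.b R.i0).mul_mem_left x ht, ?_⟩
    rw [Pool.Agent.MUX.emb_mul hC]; ring
  obtain ⟨Φ, hΦ⟩ := u_PHI σ _ _ (hact.act R.i0).cj
  obtain ⟨Ψ, hΨ⟩ := u_PHI σ _ _ (hact.act i).cj
  obtain ⟨-, hfun⟩ := u_FUN σ _ _ _ _ (muX R i) Φ Ψ hμ hisg (hact.act R.i0).cj (hact.act i).cj hΦ hΨ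
  have hm0 : (m' : ℂ) ≠ 0 := by exact_mod_cast hm'
  -- the point
  obtain ⟨z, hz⟩ : ∃ z : ℂ, z = R.om R.i0 / m' := ⟨_, rfl⟩
  have hmz : (m' : ℂ) * z = R.om R.i0 := by rw [hz]; field_simp
  have hom0 : R.om R.i0 ∈ (R.L R.i0).lattice := by
    refine ((R.nl R.i0).mem _).2 ⟨1, by rw [R.b0]; trivial, ?_⟩
    rw [Pool.Agent.MUX.emb_one hC, mul_one]
  have hμz : (m' : ℂ) * (muX R i * z) = R.om i * nI (R.b i) := by
    rw [mul_left_comm, hmz]
    unfold muX
    have := (R.nl R.i0).om_ne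
    field_simp
  have h2 : 2 * (muX R i * z) ∉ (R.L i).lattice := by
    intro h
    obtain ⟨x, -, hx⟩ := ((R.nl i).mem _).1 h
    have h3 : emb (((2 * nI (R.b i) : ℕ) : OO A B)) = emb (((m' : ℕ) : OO A B) * x) := by
      rw [Pool.Agent.MUX.emb_mul hC, Pool.Agent.MUX.emb_natCast hC, Pool.Agent.MUX.emb_natCast hC]
      apply mul_left_cancel₀ (R.nl i).om_ne
      push_cast
      linear_combination -2 * hμz + (m' : ℂ) * hx
    have h4 := Pool.Agent.MUX.emb_inj hC h3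
    have h5 : ((2 * nI (R.b i) : ℕ) : ℤ) = (m' : ℤ) * x.re := by
      have h6 := congrArg QuadraticAlgebra.re h4
      rw [QuadraticAlgebra.re_natCast, QuadraticAlgebra.re_mul, QuadraticAlgebra.re_natCast,
        QuadraticAlgebra.im_natCast] at h6
      rw [h6]; ring
    have h6 : m' ∣ 2 * nI (R.b i) := by
      have : (m' : ℤ) ∣ ((2 * nI (R.b i) : ℕ) : ℤ) := ⟨_, h5⟩
      exact_mod_cast this
    have h7 : f ∣ 2 * nI (R.b i) := hfm.trans h6
    have h8 : Nat.Coprime f (nI (R.b i)) := ((R.cop i).coprime_mul_left_right).symm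
    have h9 := h8.dvd_of_dvd_mul_right h7
    exact absurd (Nat.le_of_dvd (by norm_num) h9) (by omega)
  have h1 : muX R i * z ∉ (R.L i).lattice := fun h => h2 (by
    have := add_mem h h
    rwa [← two_mul] at this)
  have hz0 : z ∉ (R.L R.i0).lattice := fun h => h1 (hisg z h)
  have e1 := phi_d2 hC (R.nl R.i0).toIsLI hΦ hmm hc (hact.act R.i0) (hmz ▸ hom0) hz0
  have e2 : Ψ (muX R i * z) - d i * (muX R i * z) ∈ (R.L i).lattice := by
    refine phi_d2 hC (R.nl i).toIsLI hΨ hmm hc (hact.act i) ?_ h1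
    rw [mul_left_comm, hmz]
    exact hisg _ hom0
  have e3 := hfun z
  have e4 := hisg _ e1
  -- the sign
  obtain ⟨s, hs1, hs2⟩ : ∃ s : ℤ, (s = 1 ∨ s = -1) ∧ σ (muX R i) = s * muX R i := by
    rcases hs with h | h
    · exact ⟨1, Or.inl rfl, by rw [h]; push_cast; ring⟩
    · exact ⟨-1, Or.inr rfl, by rw [h]; push_cast; ring⟩
  rw [hs2] at e3 ⊢
  have e5 : ((d i - s * d R.i0 : ℤ) : ℂ) * (muX R i * z) ∈ (R.L i).lattice := by
    have h6 := add_mem (sub_mem e3 e2) (zmul_mem s e4)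
    have h7 : Ψ (muX R i * z) - s * muX R i * Φ z - (Ψ (muX R i * z) - d i * (muX R i * z)) +
        s * (muX R i * (Φ z - d R.i0 * z)) =
        ((d i - s * d R.i0 : ℤ) : ℂ) * (muX R i * z) := by
      push_cast; ring
    rwa [h7] at h6
  have e6 : d i = s * d R.i0 := by
    by_contra hne
    have h8 : d i - s * d R.i0 = 2 ∨ d i - s * d R.i0 = -2 := by
      rcases hact.sgn i with h9 | h9 <;> rcases hact.sgn R.i0 with h10 | h10 <;>
        rcases hs1 with h11 | h11 <;> rw [h9, h10, h11] at hne ⊢ <;> simp at hne ⊢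
    apply h2
    rcases h8 with h8 | h8
    · rw [h8] at e5
      exact_mod_cast e5
    · rw [h8] at e5
      have := neg_mem e5
      push_cast at this
      rwa [← neg_mul, neg_neg] at this
  rw [e6]
  rcases hact.sgn R.i0 with h10 | h10 <;> rw [h10] <;> push_cast <;> ring


/-- conjugation of the values; `u` is any number with `σ u = d_0 u` -/
theorem vak2 {A B : ℤ} {f p : ℕ} (hQ : CQ A B) (hf : 3 ≤ f) {ι : Type} [Fintype ι]
    (R : Reps A B (p * f) ι) (hp : 3 ∣ p * f) (e : OO A B → ℂ)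
    (he : IsEI (idl (A := A) (B := B) (p * f)) e) {m m' : ℕ} (hmm : m' ∣ m) (hm : m' ≠ 0)
    (hm0 : m ≠ 0) (hfm : f ∣ m') (hpm : p * f ∣ m) (σ : ℂ ≃+* ℂ) (c : OO A B) (d : ι → ℤ)
    (hc : c - 1 ∈ idl (A := A) (B := B) m') (hT : ActT R m σ c d) (hσ : ∀ x, σ (e x) = e x)
    (kk : ι → ℂ) (hkk : ∀ i, σ (kk i) = kk i) (u : ℂ) (hu : u ≠ 0) (hσu : σ u = d R.i0 * u)
    (x y : OnePoint ℚ) (hx : Dn m x) (hy : Dn m y) :
    e c * σ (PhiK R e kk x y / (u * R.om R.i0)) = PhiK R e kk x y / (u * R.om R.i0) := by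
  have hsq : ∀ i, ((d i : ℤ) : ℂ) * ((d i : ℤ) : ℂ) = 1 := by
    intro i
    rcases hT.sgn i with hd | hd <;> rw [hd] <;> norm_num
  have hd0 : ∀ i, ((d i : ℤ) : ℂ) ≠ 0 := fun i h0 => by
    have := hsq i
    rw [h0, zero_mul] at this
    exact zero_ne_one this
  have hom0 : R.om R.i0 ≠ 0 := (R.nl R.i0).om_ne
  have hval : ∀ i, e c * σ (PhiI (R.b i) e x y / R.om i) =
      d i * (PhiI (R.b i) e x y / R.om i) := by
    have h2 := nt_VAL y_RA1
    intro i
    have hgen : ∀ (g : ℕ) (R' : Reps A B g ι) (_ : IsEI (idl (A := A) (B := B) g) e)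
        (_ : ActT R' m σ c d) (_ : 3 ∣ g) (_ : g ≠ 0) (_ : g ∣ m),
        e c * σ (PhiI (R'.b i) e x y / R'.om i) = d i * (PhiI (R'.b i) e x y / R'.om i) := by
      intro g R' he' hT' h3 hg hgm
      obtain ⟨k, rfl⟩ := h3
      exact h2 A B k hQ (by omega) ι R' e he' m hm0 hgm σ c d hT' hσ i x y hx hy
    refine hgen _ R he hT hp ?_ hpm
    intro h0
    rw [h0] at hpm
    exact hm0 (zero_dvd_iff.1 hpm)
  have key : ∀ i, e c * σ (kk i * PhiI (R.b i) e x y / (u * R.om R.i0)) =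
      kk i * PhiI (R.b i) e x y / (u * R.om R.i0) := by
    intro i
    have homi : R.om i ≠ 0 := (R.nl i).om_ne
    have hn : ((nI (R.b i) : ℕ) : ℂ) ≠ 0 :=
      Nat.cast_ne_zero.2 (Pool.Agent.MUX.nI_ne_zero hQ (R.nl i).b_ne)
    have e1 : kk i * PhiI (R.b i) e x y / (u * R.om R.i0) =
        kk i * (PhiI (R.b i) e x y / R.om i) * muX R i / (nI (R.b i) * u) := by
      rw [muX]
      field_simp
    have e2 := sgm2 hQ hf R hmm hm hfm σ c d hc hT i
    have e3 := hval i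
    rw [e1, map_div₀, map_mul, map_mul, map_mul, hkk, e2, map_natCast, hσu]
    have e4 : e c * (kk i * σ (PhiI (R.b i) e x y / R.om i) *
        (d R.i0 * d i * muX R i) / (nI (R.b i) * (d R.i0 * u))) =
        kk i * (e c * σ (PhiI (R.b i) e x y / R.om i)) *
        (d i * muX R i) / (nI (R.b i) * u) := by
      field_simp [hd0 R.i0]
    rw [e4, e3]
    have e5 : kk i * (d i * (PhiI (R.b i) e x y / R.om i)) * (d i * muX R i) =
        (d i * d i : ℂ) * (kk i * (PhiI (R.b i) e x y / R.om i) * muX R i) := by ring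
    rw [e5, hsq i, one_mul]
  rw [PhiK, Finset.sum_div, map_sum, Finset.mul_sum]
  exact Finset.sum_congr rfl fun i _ => key i

/-- `u a3` -/
theorem sgu2 {A B : ℤ} {V : ValuationSubring ℂ} (hC : CQ A B) {n : ℕ} {ι : Type}
    (R : Reps A B n ι) {u e a1 a3 : ℂ} (hG : GoodT V (R.L R.i0) u e a1 a3) {m m' : ℕ}
    (hmm : m' ∣ m) (h3 : 3 ∣ m') (σ : ℂ ≃+* ℂ) (c : OO A B) (d : ι → ℤ)
    (hc : c - 1 ∈ idl (A := A) (B := B) m') (hT : ActT R m σ c d) :
    σ (u * a3) = d R.i0 * (u * a3) := by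
  set L := R.L R.i0 with hL
  obtain ⟨w1, w2, h31, h32, hw1, hw2, -, -, he, hu2⟩ := hG.tor
  have hu0 := hG.u0
  -- the action on the points of order three
  have hact : ∀ w : ℂ, 3 * w ∈ L.lattice → w ∉ L.lattice →
      σ (L.weierstrassP w) = L.weierstrassP w ∧
      σ (L.derivWeierstrassP w) = d R.i0 * L.derivWeierstrassP w := by
    intro w h3w hw
    have hmul : ∀ k : ℕ, 3 ∣ k → (k : ℂ) * w ∈ L.lattice := by
      rintro _ ⟨k, rfl⟩
      have h1 := nsmul_mem h3w k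
      rw [nsmul_eq_mul] at h1
      have e1 : ((3 * k : ℕ) : ℂ) * w = (k : ℂ) * (3 * w) := by push_cast; ring
      rw [e1]
      exact h1
    obtain ⟨-, hP, hP'⟩ := (hT.act R.i0).act w (hmul m (h3.trans hmm)) hw
    have hcw : emb c * w - w ∈ L.lattice := by
      obtain ⟨y, hy⟩ := Ideal.mem_span_singleton'.1 hc
      have h1 : emb c - 1 = emb y * m' := by
        have h2 := congrArg emb hy
        rw [Pool.Agent.MUX.emb_mul hC, Pool.Agent.MUX.emb_natCast hC, Pool.Agent.MUX.emb_sub hC,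
          Pool.Agent.MUX.emb_one hC] at h2
        exact h2.symm
      have h2 : emb c * w - w = emb y * (m' * w) := by
        linear_combination w * h1
      rw [h2]
      exact (R.nl R.i0).toIsLI.hasCM hC y _ (hmul m' h3)
    have hPc : L.weierstrassP (emb c * w) = L.weierstrassP w := by
      have h4 := L.weierstrassP_add_coe w ⟨emb c * w - w, hcw⟩
      have h5 : w + ((⟨emb c * w - w, hcw⟩ : L.lattice) : ℂ) = emb c * w := by
        show w + (emb c * w - w) = emb c * w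
        ring
      rw [h5] at h4
      exact h4
    have hDc := SGU.der_congr L hcw
    rcases hT.sgn R.i0 with hd | hd
    · rw [hd] at hP hP' ⊢
      push_cast at hP hP' ⊢
      rw [one_mul] at hP hP' ⊢
      exact ⟨by rw [← hP, hPc], by rw [← hP', hDc]⟩
    · rw [hd] at hP hP' ⊢
      push_cast at hP hP' ⊢
      have h1 : -1 * emb c * w = -(emb c * w) := by ring
      rw [h1] at hP hP'
      rw [L.weierstrassP_neg] at hP
      rw [L.derivWeierstrassP_neg] at hP'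
      exact ⟨by rw [← hP, hPc], by rw [← hP', hDc]; ring⟩
  obtain ⟨hP1, hD1⟩ := hact w1 h31 hw1
  obtain ⟨hP2, -⟩ := hact w2 h32 hw2
  have hsu2 : σ (u ^ 2) = u ^ 2 := by
    rw [hu2, map_sub, hP1, hP2]
  -- `u a3 = ± ℘'(w1)/u²`
  have heq := hG.eq w1 hw1
  rw [← he, sub_self, zero_div, mul_zero, zero_add, zero_pow (by norm_num), mul_zero,
    zero_add] at heq
  have hua : u * a3 = L.derivWeierstrassP w1 / u ^ 2 ∨
      u * a3 = -(L.derivWeierstrassP w1 / u ^ 2) := by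
    apply sq_eq_sq_iff_eq_or_eq_neg.1
    rw [mul_pow, ← heq]
    field_simp
  have h5 : σ (L.derivWeierstrassP w1 / u ^ 2) =
      d R.i0 * (L.derivWeierstrassP w1 / u ^ 2) := by
    rw [map_div₀, hD1, hsu2, mul_div_assoc]
  rcases hua with hua | hua
  · rw [hua, h5]
  · rw [hua, map_neg, h5, mul_neg]

end

end Pool.Agent.N2T


end

section

/-!
# MUX-NS, block TN: the result (helper4)
-/

set_option autoImplicit false

namespace Pool.Agent.NST

open _root_.MU3 _root_.Pool.Agent.MU3A _root_.Pool.Agent.MU3B _root_.Pool.Agent.RI _root_.Pool.Agent.MUX _root_.Pool.Agent.MUXU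
open OnePoint _root_.Pool.Agent.NS
open _root_.Pool.Agent.MUXV (GR InK)
open _root_.Pool.Agent.NSE (CtxN E3 su ru Rep)
open _root_.Pool.Agent.MUXY (ActN Dn)

noncomputable section

namespace TYF

lemma dn_mono {m n : ℕ} (h : m ∣ n) {x : OnePoint ℚ} (hx : Dn m x) : Dn n x :=
  fun r hr => (hx r hr).trans h

lemma absD_ge {A B : ℤ} (h : CQ A B) : 3 ≤ absD A B := by
  have h1 := h.neg
  unfold absD
  rcases h.hB with rfl | rfl
  · have h2 : 4 * A < 0 := by linarith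
    have h3 : A < 0 := by omega
    omega
  · have h2 : 1 + 4 * A < 0 := by linarith
    omega

lemma mem_idl_of_dvd {A B : ℤ} {m n : ℕ} (h : m ∣ n) :
    idl (A := A) (B := B) n ≤ idl (A := A) (B := B) m := by
  rw [Ideal.span_singleton_le_span_singleton]
  obtain ⟨k, rfl⟩ := h
  exact ⟨(k : OO A B), by push_cast; ring⟩

lemma idl_ne_bot {A B : ℤ} (h : CQ A B) {n : ℕ} (hn : n ≠ 0) :
    idl (A := A) (B := B) n ≠ ⊥ := by
  intro h1
  exact MUX.natCast_ne_zero' h hn (Ideal.span_singleton_eq_bot.1 h1)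

lemma nat_mul_ne_one {A B : ℤ} (h : CQ A B) {n : ℕ} (hn : n ≠ 1) (x : OO A B) :
    ((n : ℕ) : OO A B) * x ≠ 1 := by
  intro h1
  have h2 := congrArg nm h1
  have h3 : nm ((n : ℕ) : OO A B) = (n : ℤ) ^ 2 := by
    have := nm_intCast (A := A) (B := B) (n : ℤ)
    rwa [Int.cast_natCast] at this
  have h5 : nm (1 : OO A B) = 1 := by
    have := nm_intCast (A := A) (B := B) 1
    rwa [Int.cast_one, one_pow] at this
  rw [MUX.nm_mul h, h3, h5] at h2
  have h4 : (n : ℤ) ∣ 1 := ⟨n * nm x, by rw [← h2]; ring⟩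
  have h6 : n ∣ 1 := by exact_mod_cast h4
  exact hn (Nat.dvd_one.1 h6)

end TYF

open _root_.Pool.Agent.NST.TYF in
theorem nt_TYF (hR : Sn_RFIN) (hCTX : Pool.Agent.NSE.Se_CTX) (hRTU : Nt_RTU) (hGLC : Nt_GLC)
    (hUNF : Nt_UNF) (hFGP : Nt_FGP) (hFGV : Nt_FGV) (hALV : Nt_ALV) (hALT : Nt_ALT)
    (hACI : Nt_ACI) (hSGU : Nt_SGU) (hVAK : Nt_VAK) (hTAU : Nt_TAU) : Sn_TYF := by
  intro A B V f hS hT ι _ R u el lam hG w hw e he r hr her i hi ka hka
  have hQ : CQ A B := hS.case.toCQ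
  have hC : CtxN A B V := hCTX A B V hS.case hS.hV hT hR
  have hu0 : u ≠ 0 := hG.u0
  have hr0 : r ≠ 0 := by
    rintro rfl
    exact hr (dvd_zero 3)
  have hD := absD_ge hQ
  have hf2 : 2 ∣ f := by
    have h1 : (2 : ℤ) ∣ (f : ℤ) := (Dvd.intro _ rfl).trans hS.fD
    exact_mod_cast h1
  have hf3 : 3 ≤ f := by
    have h1 := Int.le_of_dvd (by exact_mod_cast Nat.pos_of_ne_zero hS.f0) hS.fD
    omega
  have h3f : 3 * f ≠ 0 := mul_ne_zero (by norm_num) hS.f0
  obtain ⟨T, hTT⟩ := hFGV A B hQ (3 * f) ι R (idl (3 * f)) e (idl_ne_bot hQ h3f) he ka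
    (u * R.om R.i0)
  obtain ⟨S, j, N, hN0, hN3, hSD, hgen⟩ :=
    hFGP (fun x y => PhiK R e ka x y / (u * R.om R.i0)) T hTT
  obtain ⟨tau, htau8, htaua, htau⟩ := hTAU A B V hC hT (3 * f) ι R u el lam hG w hw
  obtain ⟨hu2, hel, hlam, hua, hALTz⟩ := hALT A B hQ hT V hC.v3 (R.b R.i0) (R.L R.i0)
    (R.om R.i0) (R.nl R.i0) u el lam hG
  set m' := f * N with hm'
  have hm'0 : m' ≠ 0 := mul_ne_zero hS.f0 hN0
  have hm'3 : ¬ 3 ∣ m' := by
    intro h
    rcases (Nat.Prime.dvd_mul Nat.prime_three).1 h with h | h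
    · exact hS.fp h
    · exact hN3 h
  have hm'C : (m' : ℂ) ≠ 0 := by exact_mod_cast hm'0
  have hfm : f ∣ m' := Dvd.intro _ rfl
  have hm'1 : m' ≠ 1 := by
    intro h
    rw [h] at hfm
    have := Nat.le_of_dvd one_pos hfm
    omega
  -- the point of level `m'`
  have hom : R.om R.i0 ≠ 0 := (R.nl R.i0).om_ne
  have hz1 : R.om R.i0 / m' ∉ (R.L R.i0).lattice := by
    intro h
    obtain ⟨x, -, hx⟩ := ((R.nl R.i0).mem _).1 h
    apply nat_mul_ne_one hQ hm'1 x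
    apply MUX.emb_inj hQ
    rw [MUX.emb_mul hQ, MUX.emb_natCast hQ, MUX.emb_one hQ]
    field_simp at hx
    rw [← hx]
  have hz2 : (m' : ℂ) * (R.om R.i0 / m') ∈ (R.L R.i0).lattice := by
    rw [mul_div_cancel₀ _ hm'C]
    refine ((R.nl R.i0).mem _).2 ⟨1, ?_, ?_⟩
    · rw [R.b0]
      trivial
    · rw [MUX.emb_one hQ, mul_one]
  have hYa := (hALTz m' hm'0 _ hz1 hz2).2.1
  -- the field
  set Q : OnePoint ℚ × OnePoint ℚ → ℂ :=
    fun q => PhiK R e ka q.1 q.2 / (u * R.om R.i0) with hQdef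
  have h8r : 8 * r ≠ 0 := mul_ne_zero (by norm_num) hr0
  set Ts : Set ℂ := (Q '' (S : Set (OnePoint ℚ × OnePoint ℚ))) ∪
    ({tau, yu (R.L R.i0) u (R.om R.i0 / m')} ∪
      ((Polynomial.nthRootsFinset (8 * r) (1 : ℂ) : Finset ℂ) : Set ℂ)) with hTs
  have hTfin : Ts.Finite := by
    refine Set.Finite.union ?_ (Set.Finite.union ?_ ?_)
    · exact (Finset.finite_toSet S).image _
    · exact Set.toFinite _
    · exact Finset.finite_toSet _
  have hTalg : ∀ t ∈ Ts, IsAlgebraic ℚ t := by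
    rintro t (⟨q, -, rfl⟩ | (ht | ht))
    · exact hALV A B hQ hT f hS.f0 ι R e he r hr0 her ka hka u hua q.1 q.2
    · rcases ht with rfl | ht
      · exact htaua
      · rw [Set.mem_singleton_iff] at ht
        rw [ht]
        exact hYa
    · rw [Finset.mem_coe, Polynomial.mem_nthRootsFinset (Nat.pos_of_ne_zero h8r)] at ht
      refine ⟨Polynomial.X ^ (8 * r) - 1, Polynomial.X_pow_sub_C_ne_zero
        (Nat.pos_of_ne_zero h8r) (1 : ℚ), ?_⟩
      simp [ht]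
  obtain ⟨F, hFf, hFg, hEF, hTF⟩ := hGLC A B hQ (RF (idl (A := A) (B := B) m'))
    (hT.fin _ (idl_ne_bot hQ hm'0)) Ts hTfin hTalg
  have htau0 : tau ≠ 0 := by
    rintro rfl
    rw [map_zero, zero_pow (by norm_num)] at htau8
    exact (V.valuation.ne_zero_iff.2 (by norm_num : (3 : ℂ) ≠ 0)) htau8.symm
  have htauF : tau ∈ F := hTF (Or.inr (Or.inl (Or.inl rfl)))
  have hyF : yu (R.L R.i0) u (R.om R.i0 / m') ∈ F := hTF (Or.inr (Or.inl (Or.inr rfl)))
  have hrF : ∀ z : ℂ, z ^ (8 * r) = 1 → z ∈ F := fun z hz => hTF (Or.inr (Or.inr (by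
    rw [Finset.mem_coe, Polynomial.mem_nthRootsFinset (Nat.pos_of_ne_zero h8r)]
    exact hz)))
  have h38r : ¬ 3 ∣ 8 * r := by
    intro h
    rcases (Nat.Prime.dvd_mul Nat.prime_three).1 h with h | h
    · omega
    · exact hr h
  -- the key point
  have hkey : ∀ σ : ℂ ≃+* ℂ, InI A B V (F : Set ℂ) σ → ∀ q ∈ S, σ (Q q * tau ^ i) = Q q * tau ^ i := by
    intro σ hσ q hq
    obtain ⟨hRF, c, d, hc1, hc3, hact⟩ := hACI A B V hS.case hS.hV hT hR (3 * f) ι R j m' hm'0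
      hm'3 σ hσ.fix (fun y hy hyV => hσ.iner y (hEF hy) hyV)
    have hle : (RF (idl (A := A) (B := B) 2) : IntermediateField (kk A B) ℂ) ≤
        RF (idl (A := A) (B := B) m') :=
      hT.mono _ _ (mem_idl_of_dvd (hf2.trans hfm))
    have hsu2 : σ (u ^ 2) = u ^ 2 := hRF _ (hle hu2)
    have hsel : σ el = el := hRF _ (hle hel)
    have hsu : σ u = d R.i0 * u := by
      refine hSGU A B V f hS ι R u el lam hG j m' hm'0 hm'3 hfm σ c d hc1 hact hsu2 ?_
      intro h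
      have h1 := hσ.iner _ hyF ((V.valuation_le_one_iff _).1 h)
      rwa [ValuationSubring.mem_nonunits_iff] at h1
    have hroot : ∀ z : ℂ, (z = 0 ∨ z ^ (8 * r) = 1) → σ z = z := by
      refine (hRTU V hC.v3 (8 * r) h38r).2 σ ?_
      intro z hz
      have hz1 : V.valuation z = 1 := by
        have h1 : (V.valuation z) ^ (8 * r) = 1 := by rw [← map_pow, hz, map_one]
        exact (pow_eq_one_iff.1 h1).resolve_right h8r
      have h1 := hσ.iner z (hrF z hz) ((V.valuation_le_one_iff _).1 hz1.le)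
      rwa [ValuationSubring.mem_nonunits_iff] at h1
    have hse : ∀ x, σ (e x) = e x := by
      intro x
      apply hroot
      by_cases hx : e x = 0
      · exact Or.inl hx
      · right
        rw [mul_comm, pow_mul, her x hx, one_pow]
    have hsw : ∀ x, σ (w x) = w x := by
      intro x
      apply hroot
      by_cases hx : x ∈ idl (A := A) (B := B) 3
      · exact Or.inl (hw.zero x hx)
      · right
        rw [pow_mul, hw.pow x hx, one_pow]
    have hsk : ∀ l, σ (ka l) = ka l := by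
      intro l
      apply hroot
      right
      rw [mul_comm, pow_mul, hka l, one_pow]
    have hdvd : 3 ^ j * N ∣ 3 ^ (j + 1) * m' :=
      mul_dvd_mul (pow_dvd_pow 3 (Nat.le_succ j)) (Dvd.intro_left _ rfl)
    have h1 := hVAK A B f hQ hf3 ι R e he j m' hm'0 hfm σ c d hc1 hact hse ka hsk u hu0 hsu
      q.1 q.2 (dn_mono hdvd (hSD q hq).1) (dn_mono hdvd (hSD q hq).2)
    have h2 : σ tau = w c * tau := by
      refine htau (3 ^ (j + 1) * m') ?_ σ c d hact hc3 hsu hsel hsw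
      exact (dvd_pow_self 3 (Nat.succ_ne_zero j)).mul_right _
    have h3 : e c = w c ^ i := hi c (mem_idl_of_dvd hfm hc1) hc3
    have h4 : e c * σ (Q q) = Q q := h1
    rw [map_mul, map_pow, h2, mul_pow, ← h3]
    calc σ (Q q) * (e c * tau ^ i) = (e c * σ (Q q)) * tau ^ i := by ring
      _ = Q q * tau ^ i := by rw [h4]
  refine ⟨(tau ^ i)⁻¹, KIn A B V F, ?_, hUNF A B V hS.case hS.hV F, ?_⟩
  · have hle : AddSubgroup.closure (Q '' (S : Set (OnePoint ℚ × OnePoint ℚ))) ≤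
        ((KIn A B V F).toAddSubgroup).map (AddMonoidHom.mulLeft ((tau ^ i)⁻¹)) := by
      rw [AddSubgroup.closure_le]
      rintro _ ⟨q, hq, rfl⟩
      refine ⟨Q q * tau ^ i, ⟨?_, fun σ hσ => hkey σ hσ q hq⟩, ?_⟩
      · exact F.mul_mem (hTF (Or.inl ⟨q, hq, rfl⟩)) (F.pow_mem htauF i)
      · rw [AddMonoidHom.coe_mulLeft]
        field_simp
    intro x y
    obtain ⟨w', hw', hw2⟩ := hle (hgen x y)
    exact ⟨w', hw', hw2.symm⟩
  · rw [map_inv₀, map_pow, inv_pow, ← pow_mul, mul_comm i 8, pow_mul, htau8]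
    exact inv_mul_cancel₀ (pow_ne_zero _ (V.valuation.ne_zero_iff.2 (by norm_num)))

end

end Pool.Agent.NST


end

section

/-!
# MUX-NS, block TN, module ALV (helper83): the values are algebraic
-/

set_option autoImplicit false

namespace Pool.Agent.NST

open _root_.MU3 _root_.Pool.Agent.MU3A _root_.Pool.Agent.MU3B _root_.Pool.Agent.RI _root_.Pool.Agent.MUX _root_.Pool.Agent.MUXU
open OnePoint _root_.Pool.Agent.NS
open _root_.Pool.Agent.MUXV (GR InK)
open _root_.Pool.Agent.NSE (CtxN E3 su ru Rep)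
open _root_.Pool.Agent.MUXY (ActN Dn)

namespace ALV

lemma ne_bot {A B : ℤ} (hC : CQ A B) {n : ℕ} (hn : n ≠ 0) : idl (A := A) (B := B) n ≠ ⊥ := by
  intro h0
  rw [Ideal.span_singleton_eq_bot] at h0
  exact natCast_ne_zero' hC hn h0

lemma ne_top {A B : ℤ} (hC : CQ A B) {n : ℕ} (hn : 2 ≤ n) : idl (A := A) (B := B) n ≠ ⊤ := by
  intro h0
  have h1 : (1 : OO A B) ∈ idl (A := A) (B := B) n := by
    rw [h0]; exact Submodule.mem_top
  obtain ⟨y, hy⟩ := Ideal.mem_span_singleton'.1 h1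
  have h2 := congrArg nm hy
  have h3 : nm (((n : ℕ) : OO A B)) = (n : ℤ) ^ 2 := by
    have := nm_intCast (A := A) (B := B) (n : ℤ)
    rwa [Int.cast_natCast] at this
  have h4 : nm (1 : OO A B) = 1 := by
    have := nm_intCast (A := A) (B := B) 1
    simpa using this
  rw [nm_mul hC, h3, h4] at h2
  have h5 := Int.eq_one_or_neg_one_of_mul_eq_one ((mul_comm _ _).trans h2)
  have h6 : (2 : ℤ) ≤ n := by exact_mod_cast hn
  rcases h5 with h5 | h5 <;> nlinarith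

lemma cop {A B : ℤ} {n : ℕ} {ι : Type} (R : Reps A B n ι) (i : ι) :
    IsCoprime (sp ((nI (R.b i) : ℕ) : OO A B)) (idl (A := A) (B := B) n) := by
  obtain ⟨u, v, huv⟩ := Nat.isCoprime_iff_coprime.2 (R.cop i)
  rw [Ideal.isCoprime_iff_exists]
  refine ⟨(u : OO A B) * ((nI (R.b i) : ℕ) : OO A B), ?_, (v : OO A B) * ((n : ℕ) : OO A B),
    ?_, ?_⟩
  · exact Ideal.mul_mem_left _ _ (Ideal.mem_span_singleton_self _)
  · exact Ideal.mul_mem_left _ _ (Ideal.mem_span_singleton_self _)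
  · have h2 := congrArg (fun z : ℤ => (z : OO A B)) huv
    push_cast at h2
    exact h2

lemma sum {ι : Type} (s : Finset ι) (t : ι → ℂ) (ht : ∀ i ∈ s, IsAlgebraic ℚ (t i)) :
    IsAlgebraic ℚ (∑ i ∈ s, t i) :=
  mem_algebraicClosure_iff.1 (sum_mem (S := algebraicClosure ℚ ℂ) (t := s) (f := t) fun i hi =>
    (mem_algebraicClosure_iff.2 (ht i hi)))

end ALV

theorem nt_ALV (h : Pool.Agent.MUXY.Sy_ALP) : Nt_ALV := by
  intro A B hC hX f hf ι _ R e he r hr her kk hkk u hu x y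
  have h3f : 3 * f ≠ 0 := by omega
  have hbot : idl (A := A) (B := B) (3 * f) ≠ ⊥ := ALV.ne_bot hC h3f
  have htop : idl (A := A) (B := B) (3 * f) ≠ ⊤ := ALV.ne_top hC (by omega)
  have hval := fun i => (h A B hC hX (3 * f) ι inferInstance R _ e hbot htop he
    (fun i => ALV.cop R i) r hr her i x y).2
  have hsum : PhiK R e kk x y / (u * R.om R.i0) =
      ∑ i, kk i * (PhiI (R.b i) e x y / R.om R.i0) * u⁻¹ := by
    rw [PhiK, Finset.sum_div]
    refine Finset.sum_congr rfl fun i _ => ?_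
    rw [div_eq_mul_inv, mul_inv, div_eq_mul_inv]
    ring
  rw [hsum]
  refine ALV.sum _ _ fun i _ => ?_
  have hk : IsAlgebraic ℚ (kk i) := by
    refine IsAlgebraic.of_pow (n := r) (Nat.pos_of_ne_zero hr) ?_
    rw [hkk i]
    exact isAlgebraic_one
  exact (hk.mul (hval i)).mul hu.inv

end Pool.Agent.NST


end

section

/-!
# MUX-NS, block TN: module FGV, the values are in a finitely generated group
-/

set_option autoImplicit false

namespace Pool.Agent.NST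

open _root_.MU3 _root_.Pool.Agent.MU3A _root_.Pool.Agent.MU3B _root_.Pool.Agent.RI _root_.Pool.Agent.MUX _root_.Pool.Agent.MUXU
open OnePoint _root_.Pool.Agent.NS
open _root_.Pool.Agent.MUXV (GR InK)
open _root_.Pool.Agent.NSE (CtxN E3 su ru Rep)
open _root_.Pool.Agent.MUXY (ActN Dn)

noncomputable section

/-- FGV. -/
theorem nt_FGV : Nt_FGV := by
  classical
  intro A B h n ι _ R g e hg he kk s
  have hex : ∀ i : ι, ∃ S : Finset ℂ, ∀ x y,
      PhiI (R.b i) e x y ∈ AddSubgroup.closure (S : Set ℂ) := fun i =>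
    Pool.Agent.MUXT.fg_EI A B (Pool.Agent.MUXY.cqF h) (R.b i) g e (R.nl i).b_ne hg
      (Pool.Agent.MUXY.eiF he)
  choose S hS using hex
  refine ⟨Finset.univ.biUnion fun i => (S i).image fun z => kk i / s * z, fun x y => ?_⟩
  have key : ∀ i z, z ∈ AddSubgroup.closure (S i : Set ℂ) → kk i / s * z ∈
      AddSubgroup.closure
        ((Finset.univ.biUnion fun i => (S i).image fun z => kk i / s * z : Finset ℂ) : Set ℂ) := by
    intro i z hz
    have hle : AddSubgroup.closure (S i : Set ℂ) ≤ (AddSubgroup.closure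
        ((Finset.univ.biUnion fun i => (S i).image fun z => kk i / s * z : Finset ℂ) :
          Set ℂ)).comap (AddMonoidHom.mulLeft (kk i / s)) := by
      rw [AddSubgroup.closure_le]
      intro t ht
      refine AddSubgroup.subset_closure ?_
      rw [Finset.mem_coe, Finset.mem_biUnion]
      exact ⟨i, Finset.mem_univ _, Finset.mem_image.2 ⟨t, ht, rfl⟩⟩
    exact hle hz
  have e1 : PhiK R e kk x y / s = ∑ i, kk i / s * PhiI (R.b i) e x y := by
    unfold PhiK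
    rw [Finset.sum_div]
    exact Finset.sum_congr rfl fun i _ => by ring
  rw [e1]
  exact AddSubgroup.sum_mem _ fun i _ => key i _ (hS i x y)

end

end Pool.Agent.NST


end

section

/-!
# MUX-NS, block TN, module RTU (helper91): roots of unity of order prime to `3` are determined by their residues
-/

set_option autoImplicit false

namespace Pool.Agent.NST

open _root_.MU3 _root_.Pool.Agent.MU3A _root_.Pool.Agent.MU3B _root_.Pool.Agent.RI _root_.Pool.Agent.MUX _root_.Pool.Agent.MUXU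
open OnePoint _root_.Pool.Agent.NS

noncomputable section

namespace RTU

lemma v_nat {V : ValuationSubring ℂ} (h3 : V.valuation (3 : ℂ) < 1)
    {M : ℕ} (hM : ¬ 3 ∣ M) : ¬ V.valuation (M : ℂ) < 1 := by
  intro hMV
  have hint : ∀ n : ℤ, V.valuation (n : ℂ) ≤ 1 := fun n =>
    (V.valuation_le_one_iff _).2 (intCast_mem V n)
  have hcop : Nat.Coprime 3 M := (Nat.prime_three.coprime_iff_not_dvd).2 hM
  have h5 := Nat.gcd_eq_gcd_ab 3 M
  rw [hcop.gcd_eq_one] at h5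
  have h6 : (1 : ℂ) = (3 : ℂ) * ((Nat.gcdA 3 M : ℤ) : ℂ) + (M : ℂ) * ((Nat.gcdB 3 M : ℤ) : ℂ) := by
    have := congrArg (fun t : ℤ => (t : ℂ)) h5
    simpa using this
  have h7 : V.valuation (1 : ℂ) < 1 := by
    rw [h6]
    refine Valuation.map_add_lt _ ?_ ?_
    · rw [map_mul]
      exact mul_lt_one_of_lt_of_le h3 (hint _)
    · rw [map_mul]
      exact mul_lt_one_of_lt_of_le hMV (hint _)
  rw [map_one] at h7
  exact lt_irrefl _ h7

lemma v_root {V : ValuationSubring ℂ} {M : ℕ} (hM : M ≠ 0) {z : ℂ} (hz : z ^ M = 1) :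
    V.valuation z = 1 := by
  have h1 : (V.valuation z) ^ M = 1 := by rw [← map_pow, hz, map_one]
  exact (pow_eq_one_iff.1 h1).resolve_right hM

lemma root_one {V : ValuationSubring ℂ} {M : ℕ} (hM : M ≠ 0) {t : ℂ} (ht : t ^ M = 1)
    (hv : V.valuation (t - 1) < 1) (hMV : ¬ V.valuation (M : ℂ) < 1) : t = 1 := by
  by_contra hne
  have h1 : (∑ i ∈ Finset.range M, t ^ i) * (t - 1) = 0 := by
    rw [geom_sum_mul, ht, sub_self]
  have h2 : ∑ i ∈ Finset.range M, t ^ i = 0 :=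
    (mul_eq_zero.1 h1).resolve_right (sub_ne_zero.2 hne)
  apply hMV
  have h3 : (M : ℂ) = - ∑ i ∈ Finset.range M, (t ^ i - 1) := by
    rw [Finset.sum_sub_distrib, h2]
    simp
  have h4 : V.valuation t = 1 := v_root hM ht
  rw [h3, Valuation.map_neg]
  have h5 : ∀ i ∈ Finset.range M, V.valuation (t ^ i - 1) < 1 := by
    intro i _
    have h6 : t ^ i - 1 = (t - 1) * ∑ j ∈ Finset.range i, t ^ j := (mul_geom_sum t i).symm
    rw [h6, map_mul]
    refine mul_lt_one_of_lt_of_le hv ?_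
    refine Valuation.map_sum_le _ fun j _ => ?_
    rw [map_pow, h4, one_pow]
  exact Valuation.map_sum_lt _ one_ne_zero h5

lemma eq_of {V : ValuationSubring ℂ} (h3 : V.valuation (3 : ℂ) < 1) {r : ℕ} (hr : ¬ 3 ∣ r)
    (z z' : ℂ) (hz : z ^ r = 1) (hz' : z' ^ r = 1) (hv : V.valuation (z' - z) < 1) : z' = z := by
  have hr0 : r ≠ 0 := by
    rintro rfl
    exact hr (dvd_zero 3)
  have hz0 : z ≠ 0 := by
    rintro rfl
    rw [zero_pow hr0] at hz
    exact zero_ne_one hz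
  have h1 : (z' / z) ^ r = 1 := by
    rw [div_pow, hz', hz, div_one]
  have h2 : V.valuation (z' / z - 1) < 1 := by
    have h4 : z' / z - 1 = (z' - z) / z := by
      rw [sub_div, div_self hz0]
    rw [h4, map_div₀, v_root hr0 hz, div_one]
    exact hv
  exact (div_eq_one_iff_eq hz0).1 (root_one hr0 h1 h2 (v_nat h3 hr))

end RTU

open _root_.Pool.Agent.NST.RTU in
theorem nt_RTU : Nt_RTU := by
  intro V h3 r hr
  refine ⟨fun z z' hz hz' hv => eq_of h3 hr z z' hz hz' hv, fun σ hσ z hz => ?_⟩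
  rcases hz with rfl | hz
  · exact map_zero σ
  · refine eq_of h3 hr z (σ z) hz ?_ (hσ z hz)
    rw [← map_pow, hz, map_one]

end

end Pool.Agent.NST


end

section

/-!
# MUX-2N, block T2N (helper4): the result `S2_TYF`, `2` inert
-/

set_option autoImplicit false

namespace Pool.Agent.N2T

open _root_.MU3 _root_.Pool.Agent.MU3A _root_.Pool.Agent.MU3B _root_.Pool.Agent.RI _root_.Pool.Agent.MUX _root_.Pool.Agent.MUXU
open OnePoint _root_.Pool.Agent.NS _root_.Pool.Agent.N2 _root_.Pool.Agent.NST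
open _root_.Pool.Agent.MUXY (ActN Dn y_MUU y_BRI y_MUI y_MUC y_RA1 y_ALP)

noncomputable section

/-! ### Roots of unity -/

lemma v_odd {V : ValuationSubring ℂ} (h2 : V.valuation (2 : ℂ) < 1) {M : ℕ} (hM : ¬ 2 ∣ M) :
    ¬ V.valuation (M : ℂ) < 1 := by
  intro hMV
  obtain ⟨k, rfl⟩ : ∃ k, M = 2 * k + 1 := ⟨M / 2, by omega⟩
  have h3 : V.valuation (2 * (k : ℂ)) < 1 := by
    rw [map_mul]
    exact mul_lt_one_of_lt_of_le h2 ((V.valuation_le_one_iff _).2 (natCast_mem V k))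
  have h4 : V.valuation (1 : ℂ) < 1 := by
    have e1 : (1 : ℂ) = ((2 * k + 1 : ℕ) : ℂ) - 2 * (k : ℂ) := by push_cast; ring
    rw [e1]
    exact lt_of_le_of_lt (V.valuation.map_sub _ _) (max_lt hMV h3)
  rw [map_one] at h4
  exact lt_irrefl _ h4

lemma rtu2 {V : ValuationSubring ℂ} (h2 : V.valuation (2 : ℂ) < 1) {r : ℕ} (hr : ¬ 2 ∣ r)
    (σ : ℂ ≃+* ℂ) (hσ : ∀ z : ℂ, z ^ r = 1 → V.valuation (σ z - z) < 1) (z : ℂ)
    (hz : z = 0 ∨ z ^ (2 * r) = 1) : σ z = z := by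
  have hr0 : r ≠ 0 := by
    rintro rfl
    exact hr (dvd_zero 2)
  -- roots of odd order
  have key : ∀ z : ℂ, z ^ r = 1 → σ z = z := by
    intro z hz
    have hz0 : z ≠ 0 := by
      rintro rfl
      rw [zero_pow hr0] at hz
      exact zero_ne_one hz
    have h1 : (σ z / z) ^ r = 1 := by
      rw [div_pow, ← map_pow, hz, map_one, div_one]
    have h3 : V.valuation (σ z / z - 1) < 1 := by
      have h4 : σ z / z - 1 = (σ z - z) / z := by
        rw [sub_div, div_self hz0]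
      rw [h4, map_div₀, RTU.v_root hr0 hz, div_one]
      exact hσ z hz
    exact (div_eq_one_iff_eq hz0).1 (RTU.root_one hr0 h1 h3 (v_odd h2 hr))
  rcases hz with rfl | hz
  · exact map_zero σ
  · have h1 : (z ^ r) ^ 2 = 1 := by rw [← pow_mul, mul_comm]; exact hz
    have h2 : (z ^ r - 1) * (z ^ r + 1) = 0 := by linear_combination h1
    rcases mul_eq_zero.1 h2 with h3 | h3
    · exact key z (sub_eq_zero.1 h3)
    · replace h3 : z ^ r = -1 := eq_neg_of_add_eq_zero_left h3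
      have h4 : (-z) ^ r = 1 := by
        rw [Odd.neg_pow (Nat.odd_iff.2 (by omega)), h3, neg_neg]
      have h5 := key _ h4
      rw [map_neg] at h5
      exact neg_inj.1 h5

/-! ### `O/2` has four elements -/

lemma mem_idl2 {A B : ℤ} {x : OO A B} :
    x ∈ idl (A := A) (B := B) 2 ↔ (2 : ℤ) ∣ x.re ∧ (2 : ℤ) ∣ x.im := by
  rw [Ideal.mem_span_singleton]
  have e1 : ((2 : ℕ) : OO A B).re = 2 := by
    rw [QuadraticAlgebra.re_natCast]; rfl
  have e2 : ((2 : ℕ) : OO A B).im = 0 := QuadraticAlgebra.im_natCast _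
  constructor
  · rintro ⟨y, rfl⟩
    rw [QuadraticAlgebra.re_mul, QuadraticAlgebra.im_mul, e1, e2]
    exact ⟨⟨y.re, by ring⟩, ⟨y.im, by ring⟩⟩
  · rintro ⟨⟨a, ha⟩, ⟨b, hb⟩⟩
    refine ⟨⟨a, b⟩, ?_⟩
    ext
    · rw [QuadraticAlgebra.re_mul, e1, e2, ha]; ring
    · rw [QuadraticAlgebra.im_mul, e1, e2, hb]; ring

lemma cube {A B : ℤ} (hC : CaseT A B) {c : OO A B} (hc : c ∉ idl (A := A) (B := B) 2) :
    c ^ 3 - 1 ∈ idl (A := A) (B := B) 2 := by
  have hB : B = 1 := by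
    rcases hC.hB with h | h
    · exfalso
      have := hC.two
      rw [h] at this
      omega
    · exact h
  subst hB
  have hA : (A : ZMod 2) = 1 := by
    have h1 := hC.two
    have h2 : A % 2 = 1 := by omega
    have h3 : (A : ZMod 2) = ((A % 2 : ℤ) : ZMod 2) := by
      rw [ZMod.intCast_eq_intCast_iff_dvd_sub]
      exact ⟨A / 2 * (-1), by push_cast; omega⟩
    rw [h3, h2]
    rfl
  rw [mem_idl2] at hc ⊢
  have hre : (c ^ 3 - 1).re = c.re ^ 3 + 3 * A * c.re * c.im ^ 2 + A * c.im ^ 3 - 1 := by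
    rw [pow_succ, pow_two, QuadraticAlgebra.re_sub]
    simp only [QuadraticAlgebra.re_mul, QuadraticAlgebra.im_mul, QuadraticAlgebra.re_one]
    ring
  have him : (c ^ 3 - 1).im = 3 * c.re ^ 2 * c.im + 3 * c.re * c.im ^ 2 + (1 + A) * c.im ^ 3 := by
    rw [pow_succ, pow_two, QuadraticAlgebra.im_sub]
    simp only [QuadraticAlgebra.re_mul, QuadraticAlgebra.im_mul, QuadraticAlgebra.im_one]
    ring
  rw [hre, him]
  have key : ∀ z : ℤ, (2 : ℤ) ∣ z ↔ (z : ZMod 2) = 0 := fun z => by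
    have := ZMod.intCast_zmod_eq_zero_iff_dvd z 2
    exact_mod_cast this.symm
  rw [key, key] at hc ⊢
  push_cast
  rw [hA]
  generalize (c.re : ZMod 2) = a at hc ⊢
  generalize (c.im : ZMod 2) = b at hc ⊢
  revert a b
  decide

/-! ### Valuations of the elements of the inertia field -/

lemma v_int {V : ValuationSubring ℂ} (h2 : V.valuation (2 : ℂ) < 1) {y : ℤ} (hy : y ≠ 0) :
    ∃ a : ℕ, V.valuation (y : ℂ) = V.valuation (2 : ℂ) ^ a := by
  obtain ⟨a, b, hb, hab⟩ := Nat.exists_eq_pow_mul_and_not_dvd (Int.natAbs_ne_zero.2 hy) 2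
    (by norm_num)
  refine ⟨a, ?_⟩
  have h3 : V.valuation (b : ℂ) = 1 :=
    le_antisymm ((V.valuation_le_one_iff _).2 (natCast_mem V b)) (not_lt.1 (v_odd h2 hb))
  have h4 : V.valuation ((y.natAbs : ℕ) : ℂ) = V.valuation (2 : ℂ) ^ a := by
    rw [hab]
    push_cast
    rw [map_mul, map_pow, h3, mul_one]
  rcases Int.natAbs_eq y with h5 | h5
  · have h6 : (y : ℂ) = ((y.natAbs : ℕ) : ℂ) :=
      (congrArg (fun z : ℤ => (z : ℂ)) h5).trans (Int.cast_natCast _)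
    rw [h6, h4]
  · have h6 : (y : ℂ) = -((y.natAbs : ℕ) : ℂ) :=
      (congrArg (fun z : ℤ => (z : ℂ)) h5).trans (by rw [Int.cast_neg, Int.cast_natCast])
    rw [h6, Valuation.map_neg, h4]

/-- the valuation of an algebraic number is at least a power of `v 2` -/
lemma arch {V : ValuationSubring ℂ} (h2 : V.valuation (2 : ℂ) < 1) {w : ℂ}
    (hw : IsAlgebraic ℚ w) (hw0 : w ≠ 0) :
    ∃ N : ℕ, V.valuation (2 : ℂ) ^ N ≤ V.valuation w := by
  have h1 : IsAlgebraic ℤ (w⁻¹) := (IsFractionRing.isAlgebraic_iff ℤ ℚ ℂ).2 hw.inv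
  obtain ⟨y, hy0, hy⟩ := h1.exists_integral_multiple
  have h3 : V.valuation (y • w⁻¹) ≤ 1 := by
    rw [V.valuation_le_one_iff]
    exact Pool.Agent.MU3A2.mem_of_integral hy
  obtain ⟨a, ha⟩ := v_int h2 hy0
  refine ⟨a, ?_⟩
  rw [zsmul_eq_mul, map_mul, map_inv₀, ha] at h3
  have hw1 : V.valuation w ≠ 0 := (Valuation.ne_zero_iff _).2 hw0
  rwa [← div_eq_mul_inv, div_le_one₀ (zero_lt_iff.2 hw1)] at h3

/-- the values of `v` on a field on which `v` is unramified are the powers of `v 2` -/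
lemma disc {V : ValuationSubring ℂ} (h2 : V.valuation (2 : ℂ) < 1) (K : Subfield ℂ)
    (hK : ∀ w ∈ K, V.valuation w < 1 → V.valuation w ≤ V.valuation (2 : ℂ)) {w : ℂ} (hw : w ∈ K)
    (hwa : IsAlgebraic ℚ w) (hw0 : w ≠ 0) :
    ∃ k : ℤ, V.valuation w = V.valuation (2 : ℂ) ^ k := by
  have h20 : (2 : ℂ) ≠ 0 := two_ne_zero
  have hv2 : V.valuation (2 : ℂ) ≠ 0 := (Valuation.ne_zero_iff _).2 h20
  have h2K : (2 : ℂ) ∈ K := by
    have := natCast_mem K 2
    exact_mod_cast this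
  have key : ∀ (M : ℕ) (w : ℂ), w ∈ K → V.valuation w ≤ 1 →
      V.valuation (2 : ℂ) ^ M ≤ V.valuation w → ∃ j : ℕ, V.valuation w = V.valuation (2 : ℂ) ^ j := by
    intro M
    induction M with
    | zero =>
      intro w _ h1 h3
      exact ⟨0, le_antisymm (by simpa using h1) (by simpa using h3)⟩
    | succ M ih =>
      intro w hw h1 h3
      rcases h1.lt_or_eq with h1 | h1
      · have h4 := hK w hw h1
        obtain ⟨j, hj⟩ := ih (w / 2) (K.div_mem hw h2K) (by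
          rw [map_div₀]
          exact (div_le_one₀ (zero_lt_iff.2 hv2)).2 h4) (by
          rw [map_div₀, le_div_iff₀ (zero_lt_iff.2 hv2), ← pow_succ]
          exact h3)
        refine ⟨j + 1, ?_⟩
        rw [map_div₀, div_eq_iff hv2] at hj
        rw [hj, pow_succ]
      · exact ⟨0, by rw [h1, pow_zero]⟩
  obtain ⟨N, hN⟩ := arch h2 hwa hw0
  obtain ⟨N', hN'⟩ := arch h2 hwa.inv (inv_ne_zero hw0)
  have hw1 : V.valuation w ≠ 0 := (Valuation.ne_zero_iff _).2 hw0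
  obtain ⟨j, hj⟩ := key (N + N') (w * 2 ^ N') (K.mul_mem hw (K.pow_mem h2K _)) (by
    rw [map_inv₀] at hN'
    rw [map_mul, map_pow]
    calc V.valuation w * V.valuation (2 : ℂ) ^ N' ≤ V.valuation w * (V.valuation w)⁻¹ :=
          mul_le_mul' le_rfl hN'
      _ = 1 := mul_inv_cancel₀ hw1) (by
    rw [map_mul, map_pow, pow_add]
    exact mul_le_mul' hN le_rfl)
  refine ⟨j - N', ?_⟩
  rw [map_mul, map_pow] at hj
  rw [zpow_sub₀ hv2, zpow_natCast, zpow_natCast, ← hj, mul_div_assoc,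
    div_self (pow_ne_zero _ hv2), mul_one]

/-! ### Algebraicity -/

lemma alg_ua {A B : ℤ} (hC : CQ A B) (T : TorX A B) {V : ValuationSubring ℂ}
    {b : Ideal (OO A B)} {L : PeriodPair} {om : ℂ} (hL : IsNL b L om) {u e a1 a3 : ℂ}
    (hG : GoodT V L u e a1 a3) : IsAlgebraic ℚ (u * a3) := by
  obtain ⟨w1, w2, h31, h32, hw1, hw2, -, -, he, hu2⟩ := hG.tor
  have hu0 := hG.u0
  have h31' : ((3 : ℕ) : ℂ) * w1 ∈ L.lattice := by exact_mod_cast h31
  have h32' : ((3 : ℕ) : ℂ) * w2 ∈ L.lattice := by exact_mod_cast h32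
  have hP1 : IsAlgebraic ℚ (L.weierstrassP w1) :=
    ALT.alg_RF hC T three_ne_zero (ALT.wp_mem hC hL hw1 h31')
  have hP2 : IsAlgebraic ℚ (L.weierstrassP w2) :=
    ALT.alg_RF hC T three_ne_zero (ALT.wp_mem hC hL hw2 h32')
  have hu2a : IsAlgebraic ℚ (u ^ 2) := by rw [hu2]; exact hP2.sub hP1
  have hk : IsAlgebraic ℚ (kap L) := ALT.alg_RF hC T three_ne_zero (n := 3)
    (IntermediateField.subset_adjoin _ _ ⟨b, L, om, hL, Or.inl rfl⟩)
  have hg2 : IsAlgebraic ℚ L.g₂ := by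
    have h8 : L.g₂ = ((1 / 12 : ℚ) : ℂ) + ((144 : ℚ) : ℂ) * kap L := by
      unfold kap
      push_cast
      ring
    rw [h8]
    exact (ALT.alg_num _).add ((ALT.alg_num _).mul hk)
  have hg3 : IsAlgebraic ℚ L.g₃ := by
    have h8 : L.g₃ = ((-1 / 18 : ℚ) : ℂ) * L.g₂ := by
      rw [hL.nrm]
      push_cast
      ring
    rw [h8]
    exact (ALT.alg_num _).mul hg2
  have hD : IsAlgebraic ℚ (L.derivWeierstrassP w1) := by
    apply IsAlgebraic.of_pow two_pos
    rw [L.derivWeierstrassP_sq w1 hw1]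
    have h4 : IsAlgebraic ℚ (4 : ℂ) := by simpa using ALT.alg_num 4
    exact ((h4.mul (hP1.pow 3)).sub (hg2.mul hP1)).sub hg3
  have heq := hG.eq w1 hw1
  rw [← he, sub_self, zero_div, mul_zero, zero_add, zero_pow (by norm_num), mul_zero,
    zero_add] at heq
  have hua : (u * a3) ^ 2 = (L.derivWeierstrassP w1) ^ 2 * ((u ^ 2) ^ 2)⁻¹ := by
    rw [mul_pow, ← heq]
    field_simp
  apply IsAlgebraic.of_pow two_pos
  rw [hua]
  exact (hD.pow 2).mul (hu2a.pow 2).inv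

/-! ### The result -/

open TYF in
/-- TYPE at `2`, from `S2_RFIN` -/
theorem t2_TYF (hR : S2_RFIN) : S2_TYF := by
  intro A B V f hS hT ι _ R u el a1 a3 hG e he r hr her ka hka
  have hQ : CQ A B := hS.case.toCQ
  have hu0 : u ≠ 0 := hG.u0
  have ha30 : a3 ≠ 0 := by
    rintro rfl
    have := hG.v3
    rw [map_zero] at this
    exact zero_ne_one this
  have hr0 : r ≠ 0 := by
    rintro rfl
    exact hr (dvd_zero 2)
  have h2r0 : 2 * r ≠ 0 := mul_ne_zero two_ne_zero hr0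
  -- `v 2 < 1`
  have h2 : V.valuation (2 : ℂ) < 1 := by
    have h1 : ((2 : ℕ) : OO A B) ∈ idl (A := A) (B := B) 2 := Ideal.mem_span_singleton_self _
    have h3 := (hS.hV _).2 h1
    rw [ValuationSubring.mem_nonunits_iff, MUX.emb_natCast hQ] at h3
    exact_mod_cast h3
  have hv2 : V.valuation (2 : ℂ) ≠ 0 := (Valuation.ne_zero_iff _).2 two_ne_zero
  have hD := absD_ge hQ
  have h3f : 3 ∣ f := by
    have h1 : (3 : ℤ) ∣ (f : ℤ) := (Dvd.intro _ rfl).trans hS.fD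
    exact_mod_cast h1
  have hf3 : 3 ≤ f := Nat.le_of_dvd (Nat.pos_of_ne_zero hS.f0) h3f
  have h2f : 2 * f ≠ 0 := mul_ne_zero (by norm_num) hS.f0
  have hp : 3 ∣ 2 * f := h3f.mul_left 2
  obtain ⟨U, hU⟩ : ∃ U, U = u * a3 := ⟨_, rfl⟩
  have hU0 : U ≠ 0 := by rw [hU]; exact mul_ne_zero hu0 ha30
  have hUa : IsAlgebraic ℚ U := by
    rw [hU]
    exact alg_ua hQ hT (R.nl R.i0) hG
  -- the values of `P = PhiK/(u a3 om_0)`
  obtain ⟨T, hTT⟩ := nt_FGV A B hQ (2 * f) ι R (idl (2 * f)) e (idl_ne_bot hQ h2f) he ka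
    (U * R.om R.i0)
  obtain ⟨S, j0, N0, hN00, -, hSD0, hgen⟩ :=
    fgp (fun x y => PhiK R e ka x y / (U * R.om R.i0)) T hTT
  obtain ⟨j, N, hN2, hjN⟩ := Nat.exists_eq_pow_mul_and_not_dvd
    (mul_ne_zero (pow_ne_zero j0 (by norm_num : (3 : ℕ) ≠ 0)) hN00) 2 (by norm_num)
  rw [hjN] at hSD0
  have hN0 : N ≠ 0 := by
    rintro rfl
    exact hN2 (dvd_zero 2)
  obtain ⟨m', hm'⟩ : ∃ m', m' = f * N := ⟨_, rfl⟩
  have hm'0 : m' ≠ 0 := by rw [hm']; exact mul_ne_zero hS.f0 hN0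
  have hm'2 : ¬ 2 ∣ m' := by
    intro h
    rw [hm'] at h
    rcases (Nat.Prime.dvd_mul Nat.prime_two).1 h with h | h
    · exact hS.fp h
    · exact hN2 h
  have hfm : f ∣ m' := by rw [hm']; exact Dvd.intro _ rfl
  have h3m : 3 ∣ m' := h3f.trans hfm
  obtain ⟨m, hm⟩ : ∃ m, m = 2 ^ (j + 1) * m' := ⟨_, rfl⟩
  have hm0 : m ≠ 0 := by rw [hm]; exact mul_ne_zero (by positivity) hm'0
  have hmm : m' ∣ m := by rw [hm]; exact dvd_mul_left _ _
  have hpm : 2 * f ∣ m := by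
    rw [hm, pow_succ, mul_assoc, mul_comm (2 ^ j)]
    exact (mul_dvd_mul_left 2 hfm).mul_right _
  -- the field
  obtain ⟨Q, hQdef⟩ : ∃ Q : OnePoint ℚ × OnePoint ℚ → ℂ,
    Q = fun q => PhiK R e ka q.1 q.2 / (U * R.om R.i0) := ⟨_, rfl⟩
  have hgen' : ∀ x y, Q (x, y) ∈ AddSubgroup.closure
      (Q '' (S : Set (OnePoint ℚ × OnePoint ℚ))) := by
    rw [hQdef]
    exact hgen
  have hQalg : ∀ q, IsAlgebraic ℚ (Q q) := by
    have hALV := nt_ALV y_ALP
    intro q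
    have hG : ∀ (g : ℕ) (R' : Reps A B g ι) (_ : IsEI (idl (A := A) (B := B) g) e)
        (_ : 3 ∣ g) (_ : g ≠ 0), IsAlgebraic ℚ (PhiK R' e ka q.1 q.2 / (U * R'.om R'.i0)) := by
      intro g R' he' h3 hg
      obtain ⟨k, rfl⟩ := h3
      exact hALV A B hQ hT k (by omega) ι R' e he' (2 * r) h2r0 her ka hka U hUa q.1 q.2
    rw [hQdef]
    exact hG _ R he hp h2f
  set Ts : Set ℂ := (Q '' (S : Set (OnePoint ℚ × OnePoint ℚ))) ∪
    ((Polynomial.nthRootsFinset r (1 : ℂ) : Finset ℂ) : Set ℂ) with hTs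
  have hTfin : Ts.Finite :=
    Set.Finite.union ((Finset.finite_toSet S).image _) (Finset.finite_toSet _)
  have hTalg : ∀ t ∈ Ts, IsAlgebraic ℚ t := by
    rintro t (⟨q, -, rfl⟩ | ht)
    · exact hQalg q
    · rw [Finset.mem_coe, Polynomial.mem_nthRootsFinset (Nat.pos_of_ne_zero hr0)] at ht
      refine ⟨Polynomial.X ^ r - 1, Polynomial.X_pow_sub_C_ne_zero
        (Nat.pos_of_ne_zero hr0) (1 : ℚ), ?_⟩
      simp [ht]
  obtain ⟨F, hFf, hFg, hEF, hTF⟩ := nt_GLC A B hQ (RF (idl (A := A) (B := B) m'))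
    (hT.fin _ (idl_ne_bot hQ hm'0)) Ts hTfin hTalg
  have hrF : ∀ z : ℂ, z ^ r = 1 → z ∈ F := fun z hz => hTF (Or.inr (by
    rw [Finset.mem_coe, Polynomial.mem_nthRootsFinset (Nat.pos_of_ne_zero hr0)]
    exact hz))
  have hQF : ∀ q ∈ S, Q q ∈ F := fun q hq => hTF (Or.inl ⟨q, hq, rfl⟩)
  have hunf := unf2 hQ hS.hV F
  -- the key point
  have hkey : ∀ σ : ℂ ≃+* ℂ, InI A B V (F : Set ℂ) σ →
      ∃ ε : ℂ, ε ^ 3 = 1 ∧ ∀ q ∈ S, ε * σ (Q q) = Q q := by
    intro σ hσ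
    obtain ⟨hRF, c, d, hc1, hc2, hact⟩ := aci2 hR hS.case hS.hV hT R j m' hm'0
      hm'2 σ hσ.fix (fun y hy hyV => hσ.iner y (hEF hy) hyV)
    rw [← hm] at hact
    have hsu : σ U = d R.i0 * U := by
      rw [hU]
      exact sgu2 hQ R hG hmm h3m σ c d hc1 hact
    have hroot : ∀ z : ℂ, (z = 0 ∨ z ^ (2 * r) = 1) → σ z = z := by
      refine rtu2 h2 hr σ ?_
      intro z hz
      have hz1 : V.valuation z = 1 := RTU.v_root hr0 hz
      have h1 := hσ.iner z (hrF z hz) ((V.valuation_le_one_iff _).1 hz1.le)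
      rwa [ValuationSubring.mem_nonunits_iff] at h1
    have hse : ∀ x, σ (e x) = e x := by
      intro x
      apply hroot
      by_cases hx : e x = 0
      · exact Or.inl hx
      · exact Or.inr (her x hx)
    have hsk : ∀ l, σ (ka l) = ka l := fun l => hroot _ (Or.inr (hka l))
    have hdvd : 2 ^ j * N ∣ m := by
      rw [hm, hm']
      exact mul_dvd_mul (pow_dvd_pow 2 (Nat.le_succ j)) (Dvd.intro_left _ rfl)
    refine ⟨e c, ?_, fun q hq => ?_⟩
    · have h1 : e (c ^ 3) = e c ^ 3 := by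
        rw [pow_succ, pow_two, he.mul, he.mul, pow_succ, pow_two]
      rw [← h1, ← he.one]
      apply he.per
      -- `c³ ≡ 1` modulo `2 f`
      have h3 := cube hS.case hc2
      have h4 : c ^ 3 - 1 ∈ idl (A := A) (B := B) f := by
        have h5 : c ^ 3 - 1 = (c ^ 2 + c + 1) * (c - 1) := by ring
        rw [h5]
        exact Ideal.mul_mem_left _ _ (mem_idl_of_dvd hfm hc1)
      rw [Ideal.mem_span_singleton] at h3 h4 ⊢
      have h5 : IsCoprime ((2 : ℕ) : OO A B) ((f : ℕ) : OO A B) := by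
        have h6 : Nat.Coprime 2 f := (Nat.Prime.coprime_iff_not_dvd Nat.prime_two).2 hS.fp
        exact (Nat.isCoprime_iff_coprime.2 h6).map (Int.castRingHom (OO A B))
      have h6 := h5.mul_dvd h3 h4
      rw [← Nat.cast_mul] at h6
      exact h6
    · have h1 := vak2 hQ hf3 R hp e he hmm hm'0 hm0 hfm hpm σ c d hc1 hact hse ka hsk U hU0 hsu
        q.1 q.2 (dn_mono hdvd (hSD0 q hq).1) (dn_mono hdvd (hSD0 q hq).2)
      rw [hQdef]
      exact h1
  have hQU : ∀ x y, PhiK R e ka x y / (u * R.om R.i0) = a3 * Q (x, y) := by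
    intro x y
    rw [hQdef, hU]
    field_simp
  by_cases hS0 : ∀ q ∈ S, Q q = 0
  · -- all values are zero
    refine ⟨1, KIn A B V F, 0, by norm_num, fun x y => ⟨0, (KIn A B V F).zero_mem, ?_⟩,
      fun w hw hw1 => hunf w hw hw1, by rw [map_one, one_pow, pow_zero, one_mul]⟩
    have h1 : AddSubgroup.closure (Q '' (S : Set (OnePoint ℚ × OnePoint ℚ))) ≤ ⊥ := by
      rw [AddSubgroup.closure_le]
      rintro _ ⟨q, hq, rfl⟩
      exact hS0 q hq
    have h3 : Q (x, y) = 0 := h1 (hgen' x y)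
    rw [hQU, h3, mul_zero, mul_zero]
  push Not at hS0
  obtain ⟨q0, hq0, hq00⟩ := hS0
  -- the quotients
  have hquo : ∀ q ∈ S, Q q / Q q0 ∈ KIn A B V F := by
    intro q hq
    refine ⟨F.div_mem (hQF q hq) (hQF q0 hq0), fun σ hσ => ?_⟩
    obtain ⟨ε, hε, h1⟩ := hkey σ hσ
    have hε0 : ε ≠ 0 := by
      rintro rfl
      norm_num at hε
    have h3 := h1 q hq
    have h4 := h1 q0 hq0
    rw [map_div₀]
    nth_rewrite 2 [← h3]
    nth_rewrite 2 [← h4]
    rw [mul_div_mul_left _ _ hε0]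
  have hcub : Q q0 ^ 3 ∈ KIn A B V F := by
    refine ⟨F.pow_mem (hQF q0 hq0) 3, fun σ hσ => ?_⟩
    obtain ⟨ε, hε, h1⟩ := hkey σ hσ
    have h4 := h1 q0 hq0
    rw [map_pow]
    nth_rewrite 2 [← h4]
    rw [mul_pow, hε, one_mul]
  obtain ⟨k, hk⟩ := disc h2 (KIn A B V F) (fun w hw hw1 => hunf w hw hw1) hcub
    ((hQalg q0).pow 3) (pow_ne_zero 3 hq00)
  -- `k = 3 l - i`
  obtain ⟨l, i, hi, hkl⟩ : ∃ (l : ℤ) (i : ℕ), i ≤ 2 ∧ k = 3 * l - i := by
    refine ⟨(k + 2) / 3, (3 * ((k + 2) / 3) - k).toNat, ?_, ?_⟩ <;> omega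
  have h2K : (2 : ℂ) ∈ KIn A B V F := by
    have := natCast_mem (KIn A B V F) 2
    exact_mod_cast this
  have h2l : (2 : ℂ) ^ l ∈ KIn A B V F := zpow_mem h2K l
  have h2l0 : (2 : ℂ) ^ l ≠ 0 := zpow_ne_zero _ two_ne_zero
  refine ⟨a3 * Q q0 / 2 ^ l, KIn A B V F, i, hi, fun x y => ?_,
    fun w hw hw1 => hunf w hw hw1, ?_⟩
  · have hle : AddSubgroup.closure (Q '' (S : Set (OnePoint ℚ × OnePoint ℚ))) ≤
        ((KIn A B V F).toAddSubgroup).map (AddMonoidHom.mulLeft (Q q0)) := by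
      rw [AddSubgroup.closure_le]
      rintro _ ⟨q, hq, rfl⟩
      refine ⟨Q q / Q q0, hquo q hq, ?_⟩
      rw [AddMonoidHom.coe_mulLeft]
      field_simp
    obtain ⟨w', hw', hw2⟩ := hle (hgen' x y)
    refine ⟨2 ^ l * w', (KIn A B V F).mul_mem h2l hw', ?_⟩
    rw [hQU, ← hw2, AddMonoidHom.coe_mulLeft]
    field_simp
  · have h1 : V.valuation (a3 * Q q0 / 2 ^ l) ^ 3 = V.valuation (2 : ℂ) ^ (-(i : ℤ)) := by
      rw [map_div₀, map_mul, hG.v3, one_mul, div_pow, ← map_pow, hk, map_zpow₀, hkl]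
      rw [← zpow_natCast (V.valuation (2 : ℂ) ^ l) 3, ← zpow_mul, ← zpow_sub₀ hv2]
      congr 1
      push_cast
      ring
    rw [h1, zpow_neg, zpow_natCast]
    exact inv_mul_cancel₀ (pow_ne_zero _ hv2)

end

end Pool.Agent.N2T


end

section

/-!
# ME2, block T, `p = 2`, `D = -3` (helper4): the result `T3_TYF`

`σ` in the inertia group at `V` of a large Galois extension `F / k` acts on the points of level `m` as `c`, `c ≡ 1` modulo `2` (`actE`), and `c ≡ η` modulo `3`, `η ∈ O^*` (`unit3`), so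
`σ(u a3) = η⁻¹ u a3` (`sguE`), and `ε σ Q = Q` for the values `Q = PhiI/(u a3 om)`, `ε = e(c) η⁻¹`. `σ³` acts on the points of order three as `± 1`, so it is trivial on `RFE (2 m')` (`T3_RFIN`) and
`c³ ≡ ± 1` modulo `2 m'`: `ε³ = 1`. So the quotients of the values and `Q³` are in the inertia field.
-/

set_option autoImplicit false

namespace Pool.Agent.ME2

open _root_.MU3 _root_.Pool.Agent.MU3A _root_.Pool.Agent.MU3B _root_.Pool.Agent.RI _root_.Pool.Agent.MUX _root_.Pool.Agent.MUXU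
open OnePoint _root_.Pool.Agent.NS
open _root_.Pool.Agent.ME hiding ActE
open _root_.Pool.Agent.N2 (GoodT)
open _root_.Pool.Agent.MUXY (ActN Dn)
open _root_.Pool.Agent.NST (KIn nt_GLC)
open _root_.Pool.Agent.NST.TYF (dn_mono idl_ne_bot)

noncomputable section

/-! ### Units modulo 3 -/

/-- the elements prime to 3 are congruent to units modulo 3 -/
lemma unit3 {A B : ℤ} (hC : CQ A B) (hA : A = -1) (hB : B = 1) {c : OO A B}
    (hc : IsCoprime (sp c) (idl (A := A) (B := B) 3)) :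
    ∃ η η' : OO A B, η * η' = 1 ∧ (η ^ 3 = 1 ∨ η ^ 3 = -1) ∧
      c - η ∈ idl (A := A) (B := B) 3 := by
  subst hA
  subst hB
  have hne : ¬ (3 : ℤ) ∣ c.re - c.im := by
    rintro ⟨k, hk⟩
    obtain ⟨p, hp, q, hq, hpq⟩ := Ideal.isCoprime_iff_exists.1 hc
    obtain ⟨t, rfl⟩ := Ideal.mem_span_singleton'.1 hp
    have hn : nm (t * c) = nm t * nm c := nm_mul hC t c
    rw [mem_idl_iff] at hq
    obtain ⟨⟨q1, hq1⟩, ⟨q2, hq2⟩⟩ := hq
    have hp' : t * c = 1 - q := by rw [← hpq]; ring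
    have e1 : (1 - q).re = 1 - q.re := by
      rw [QuadraticAlgebra.re_sub, QuadraticAlgebra.re_one]
    have e2 : (1 - q).im = -q.im := by
      rw [QuadraticAlgebra.im_sub, QuadraticAlgebra.im_one]
      ring
    have h1 : nm (1 - q) = (1 - q.re) ^ 2 + (1 - q.re) * (-q.im) + q.im ^ 2 := by
      unfold nm
      rw [e1, e2]
      ring
    have h2 : nm c = c.re ^ 2 + c.re * c.im + c.im ^ 2 := by
      unfold nm
      ring
    rw [hp', h1, h2] at hn
    push_cast at hq1 hq2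
    have hre : c.re = c.im + 3 * k := by linarith
    rw [hre, hq1, hq2] at hn
    have h3 : (3 : ℤ) ∣ 1 := by
      refine ⟨nm t * (c.im ^ 2 + 3 * k * c.im + 3 * k ^ 2) - (-2 * q1 + 3 * q1 ^ 2 - q2 +
        3 * q1 * q2 + 3 * q2 ^ 2), ?_⟩
      linear_combination hn
    omega
  have key : ∀ (η η' : OO (-1) 1), η * η' = 1 → (η ^ 3 = 1 ∨ η ^ 3 = -1) →
      (3 : ℤ) ∣ c.re - η.re → (3 : ℤ) ∣ c.im - η.im →
      ∃ η η' : OO (-1) 1, η * η' = 1 ∧ (η ^ 3 = 1 ∨ η ^ 3 = -1) ∧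
        c - η ∈ idl (A := -1) (B := 1) 3 := by
    intro η η' h1 h2 h3 h4
    refine ⟨η, η', h1, h2, ?_⟩
    rw [mem_idl_iff, QuadraticAlgebra.re_sub, QuadraticAlgebra.im_sub]
    exact ⟨h3, h4⟩
  have h1 : c.re % 3 = 0 ∨ c.re % 3 = 1 ∨ c.re % 3 = 2 := by omega
  have h2 : c.im % 3 = 0 ∨ c.im % 3 = 1 ∨ c.im % 3 = 2 := by omega
  rcases h1 with h1 | h1 | h1 <;> rcases h2 with h2 | h2 | h2
  · omega
  · exact key ⟨0, 1⟩ ⟨1, -1⟩ (QuadraticAlgebra.ext rfl rfl)
      (Or.inr (QuadraticAlgebra.ext rfl rfl)) (by show (3 : ℤ) ∣ c.re - 0; omega)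
      (by show (3 : ℤ) ∣ c.im - 1; omega)
  · exact key ⟨0, -1⟩ ⟨-1, 1⟩ (QuadraticAlgebra.ext rfl rfl)
      (Or.inl (QuadraticAlgebra.ext rfl rfl)) (by show (3 : ℤ) ∣ c.re - 0; omega)
      (by show (3 : ℤ) ∣ c.im - -1; omega)
  · exact key ⟨1, 0⟩ ⟨1, 0⟩ (QuadraticAlgebra.ext rfl rfl)
      (Or.inl (QuadraticAlgebra.ext rfl rfl)) (by show (3 : ℤ) ∣ c.re - 1; omega)
      (by show (3 : ℤ) ∣ c.im - 0; omega)
  · omega
  · exact key ⟨1, -1⟩ ⟨0, 1⟩ (QuadraticAlgebra.ext rfl rfl)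
      (Or.inr (QuadraticAlgebra.ext rfl rfl)) (by show (3 : ℤ) ∣ c.re - 1; omega)
      (by show (3 : ℤ) ∣ c.im - -1; omega)
  · exact key ⟨-1, 0⟩ ⟨-1, 0⟩ (QuadraticAlgebra.ext rfl rfl)
      (Or.inr (QuadraticAlgebra.ext rfl rfl)) (by show (3 : ℤ) ∣ c.re - -1; omega)
      (by show (3 : ℤ) ∣ c.im - 0; omega)
  · exact key ⟨-1, 1⟩ ⟨0, -1⟩ (QuadraticAlgebra.ext rfl rfl)
      (Or.inl (QuadraticAlgebra.ext rfl rfl)) (by show (3 : ℤ) ∣ c.re - -1; omega)
      (by show (3 : ℤ) ∣ c.im - 1; omega)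
  · omega

/-! ### The multiplier of `u a3` -/

section
variable {A B : ℤ} {L : PeriodPair} {om : ℂ} {b : Ideal (OO A B)}

/-- units are homotheties of `L` -/
lemma unit_hom (hC : CQ A B) (hL : IsLI b L om) {η η' : OO A B} (hη : η * η' = 1) :
    emb η ≠ 0 ∧ (∀ z, z ∈ L.lattice ↔ emb η * z ∈ L.lattice) ∧
      (∀ z, L.weierstrassP (emb η * z) = L.weierstrassP z / emb η ^ 2) ∧
      ∀ z, L.derivWeierstrassP (emb η * z) = L.derivWeierstrassP z / emb η ^ 3 := by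
  have hee : emb η * emb η' = 1 := by
    rw [← MUX.emb_mul hC, hη, MUX.emb_one hC]
  have h0 : emb η ≠ 0 := left_ne_zero_of_mul_eq_one hee
  have hiff : ∀ z, z ∈ L.lattice ↔ emb η * z ∈ L.lattice := by
    intro z
    refine ⟨fun h => hL.hasCM hC η z h, fun h => ?_⟩
    have h1 := hL.hasCM hC η' _ h
    rwa [← mul_assoc, mul_comm (emb η'), hee, one_mul] at h1
  obtain ⟨h1, h2, -⟩ := ta_SCP L L (emb η) h0 hiff
  exact ⟨h0, hiff, h1, h2⟩

/-- congruent multipliers -/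
lemma wp_cong (hC : CQ A B) (hL : IsLI b L om) {n : ℕ} {c c' : OO A B}
    (hc : c - c' ∈ idl (A := A) (B := B) n) {w : ℂ} (hw : (n : ℂ) * w ∈ L.lattice) :
    L.weierstrassP (emb c * w) = L.weierstrassP (emb c' * w) ∧
      L.derivWeierstrassP (emb c * w) = L.derivWeierstrassP (emb c' * w) := by
  obtain ⟨y, hy⟩ := Ideal.mem_span_singleton'.1 hc
  have h1 : emb c * w - emb c' * w = emb y * (n * w) := by
    have h2 : emb c - emb c' = emb y * n := by
      rw [← MUX.emb_sub hC, ← hy, MUX.emb_mul hC, MUX.emb_natCast hC]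
    linear_combination w * h2
  have h3 : emb c * w - emb c' * w ∈ L.lattice := by
    rw [h1]
    exact hL.hasCM hC y _ hw
  refine ⟨?_, NST.SGU.der_congr L h3⟩
  have h4 := L.weierstrassP_add_coe (emb c' * w) ⟨_, h3⟩
  have h5 : emb c' * w + ((⟨emb c * w - emb c' * w, h3⟩ : L.lattice) : ℂ) = emb c * w := by
    show emb c' * w + (emb c * w - emb c' * w) = emb c * w
    ring
  rw [h5] at h4
  exact h4

theorem sguE {V : ValuationSubring ℂ} (hC : CQ A B) (hL : IsLI b L om) {u e a1 a3 : ℂ}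
    (hG : GoodT V L u e a1 a3) {m : ℕ} (h3 : 3 ∣ m) {σ : ℂ ≃+* ℂ} {c η η' : OO A B}
    (hA : ActN σ m (sp c) L L (emb c)) (hη : η * η' = 1)
    (hc : c - η ∈ idl (A := A) (B := B) 3) : emb η * σ (u * a3) = u * a3 := by
  obtain ⟨w1, w2, h31, h32, hw1, hw2, -, -, he, hu2⟩ := hG.tor
  have hu0 := hG.u0
  obtain ⟨hη0, -, hP, hP'⟩ := unit_hom hC hL hη
  -- the action on the points of order three
  have hact : ∀ w : ℂ, 3 * w ∈ L.lattice → w ∉ L.lattice →
      σ (L.weierstrassP w) = L.weierstrassP w / emb η ^ 2 ∧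
      σ (L.derivWeierstrassP w) = L.derivWeierstrassP w / emb η ^ 3 := by
    intro w h3w hw
    have hmul : (m : ℂ) * w ∈ L.lattice := by
      obtain ⟨k, rfl⟩ := h3
      have h1 := nsmul_mem h3w k
      rw [nsmul_eq_mul] at h1
      have e1 : ((3 * k : ℕ) : ℂ) * w = (k : ℂ) * (3 * w) := by push_cast; ring
      rw [e1]
      exact h1
    obtain ⟨-, h1, h2⟩ := hA.act w hmul hw
    obtain ⟨h4, h5⟩ := wp_cong hC hL hc (w := w) (by exact_mod_cast h3w)
    rw [← h1, ← h2, h4, h5, hP, hP']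
    exact ⟨rfl, rfl⟩
  obtain ⟨hP1, hD1⟩ := hact w1 h31 hw1
  obtain ⟨hP2, -⟩ := hact w2 h32 hw2
  have hsu2 : σ (u ^ 2) = u ^ 2 / emb η ^ 2 := by
    rw [hu2, map_sub, hP1, hP2, sub_div]
  have heq := hG.eq w1 hw1
  rw [← he, sub_self, zero_div, mul_zero, zero_add, zero_pow (by norm_num), mul_zero,
    zero_add] at heq
  have hua : u * a3 = L.derivWeierstrassP w1 / u ^ 2 ∨
      u * a3 = -(L.derivWeierstrassP w1 / u ^ 2) := by
    apply sq_eq_sq_iff_eq_or_eq_neg.1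
    rw [mul_pow, ← heq]
    field_simp
  have h5 : emb η * σ (L.derivWeierstrassP w1 / u ^ 2) = L.derivWeierstrassP w1 / u ^ 2 := by
    rw [map_div₀, hD1, hsu2]
    field_simp
  rcases hua with hua | hua
  · rw [hua, h5]
  · rw [hua, map_neg, mul_neg, h5]

/-- points killed by `n` are killed by the ideal `(n)` -/
lemma tor_of_mul (hC : CQ A B) (hL : IsLI b L om) {n : ℕ} {z : ℂ}
    (hz : (n : ℂ) * z ∈ L.lattice) : Tor (idl (A := A) (B := B) n) L z := by
  intro x hx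
  obtain ⟨y, rfl⟩ := Ideal.mem_span_singleton'.1 hx
  rw [MUX.emb_mul hC, MUX.emb_natCast hC, mul_assoc]
  exact hL.hasCM hC y _ hz

lemma wp_mem (hC : CQ A B) (hL : IsNE b L om) {n : ℕ} {z : ℂ} (hz : z ∉ L.lattice)
    (hz' : (n : ℂ) * z ∈ L.lattice) :
    L.weierstrassP z ∈ RFE (idl (A := A) (B := B) n) :=
  IntermediateField.subset_adjoin _ _
    ⟨b, L, om, hL, Or.inr ⟨z, tor_of_mul hC hL.toIsLI hz', hz, rfl⟩⟩

lemma alg_RFE (hC : CQ A B) (T : TorXE A B) {n : ℕ} (hn : n ≠ 0) {y : ℂ}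
    (hy : y ∈ RFE (idl (A := A) (B := B) n)) : IsAlgebraic ℚ y := by
  have hkk := Pool.Agent.MUXC.FGL.isAlgebraic_kk hC
  have hfd := T.fin _ (idl_ne_bot hC hn)
  have h1 : IsAlgebraic (kk A B) (⟨y, hy⟩ : RFE (idl (A := A) (B := B) n)) :=
    Algebra.IsAlgebraic.isAlgebraic _
  have h2 : IsAlgebraic (kk A B) y := h1.algebraMap (A := ℂ)
  exact h2.restrictScalars ℚ

lemma alg_uaE (hC : CQ A B) (T : TorXE A B) {V : ValuationSubring ℂ} (hL : IsNE b L om)
    {u e a1 a3 : ℂ} (hG : GoodT V L u e a1 a3) : IsAlgebraic ℚ (u * a3) := by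
  obtain ⟨w1, w2, h31, h32, hw1, hw2, -, -, he, hu2⟩ := hG.tor
  have hu0 := hG.u0
  have h31' : ((3 : ℕ) : ℂ) * w1 ∈ L.lattice := by exact_mod_cast h31
  have h32' : ((3 : ℕ) : ℂ) * w2 ∈ L.lattice := by exact_mod_cast h32
  have hP1 : IsAlgebraic ℚ (L.weierstrassP w1) :=
    alg_RFE hC T three_ne_zero (wp_mem hC hL hw1 h31')
  have hP2 : IsAlgebraic ℚ (L.weierstrassP w2) :=
    alg_RFE hC T three_ne_zero (wp_mem hC hL hw2 h32')
  have hu2a : IsAlgebraic ℚ (u ^ 2) := by rw [hu2]; exact hP2.sub hP1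
  have h4 : IsAlgebraic ℚ (4 : ℂ) := by simpa using NST.ALT.alg_num 4
  have h0 : IsAlgebraic ℚ (0 : ℂ) := isAlgebraic_zero
  have hg2 : IsAlgebraic ℚ L.g₂ := by
    rw [hL.nrm.g2]
    unfold g2E
    split_ifs
    · exact h4
    · exact h0
  have hg3 : IsAlgebraic ℚ L.g₃ := by
    rw [hL.nrm.g3]
    unfold g3E
    split_ifs
    · exact h0
    · exact h4.neg
  have hD : IsAlgebraic ℚ (L.derivWeierstrassP w1) := by
    apply IsAlgebraic.of_pow two_pos
    rw [L.derivWeierstrassP_sq w1 hw1]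
    exact ((h4.mul (hP1.pow 3)).sub (hg2.mul hP1)).sub hg3
  have heq := hG.eq w1 hw1
  rw [← he, sub_self, zero_div, mul_zero, zero_add, zero_pow (by norm_num), mul_zero,
    zero_add] at heq
  have hua : (u * a3) ^ 2 = (L.derivWeierstrassP w1) ^ 2 * ((u ^ 2) ^ 2)⁻¹ := by
    rw [mul_pow, ← heq]
    field_simp
  apply IsAlgebraic.of_pow two_pos
  rw [hua]
  exact (hD.pow 2).mul (hu2a.pow 2).inv

/-- the cube of `σ` -/
lemma act3 (hC : CQ A B) (hL : IsLI b L om) {m : ℕ} {σ : ℂ ≃+* ℂ} {c : OO A B}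
    (hA : ActN σ m (sp c) L L (emb c)) {z : ℂ} (hz : (m : ℂ) * z ∈ L.lattice)
    (hz0 : z ∉ L.lattice) : emb (c ^ 3) * z ∉ L.lattice ∧
      σ (σ (σ (L.weierstrassP z))) = L.weierstrassP (emb (c ^ 3) * z) := by
  have hm : ∀ w : ℂ, (m : ℂ) * w ∈ L.lattice → (m : ℂ) * (emb c * w) ∈ L.lattice := by
    intro w hw
    rw [mul_left_comm]
    exact hL.hasCM hC c _ hw
  obtain ⟨h1, h2, -⟩ := hA.act z hz hz0
  obtain ⟨h3, h4, -⟩ := hA.act _ (hm z hz) h1
  obtain ⟨h5, h6, -⟩ := hA.act _ (hm _ (hm z hz)) h3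
  have e : emb (c ^ 3) * z = emb c * (emb c * (emb c * z)) := by
    rw [MUX.emb_pow hC]
    ring
  rw [e]
  exact ⟨h5, by rw [h6, h4, h2]⟩

end

/-! ### The result -/

open _root_.Pool.Agent.N2T in
theorem t3_TYF (hR : T3_RFIN) : T3_TYF := by
  intro A B V f hS hT ι _ R u el a1 a3 hG e he r hr her ka hka
  have hE := hS.case
  have hQ : CQ A B := hE.toCQ
  have hL := R.nl R.i0
  have hom0 : R.om R.i0 ≠ 0 := hL.om_ne
  have hu0 : u ≠ 0 := hG.u0
  have ha30 : a3 ≠ 0 := by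
    rintro rfl
    have := hG.v3
    rw [map_zero] at this
    exact zero_ne_one this
  have hr0 : r ≠ 0 := by
    rintro rfl
    exact hr (dvd_zero 2)
  have h2r0 : 2 * r ≠ 0 := mul_ne_zero two_ne_zero hr0
  -- `v 2 < 1`
  have h2 : V.valuation (2 : ℂ) < 1 := by
    have h1 : ((2 : ℕ) : OO A B) ∈ idl (A := A) (B := B) 2 := Ideal.mem_span_singleton_self _
    have h3 := (hS.hV _).2 h1
    rw [ValuationSubring.mem_nonunits_iff, MUX.emb_natCast hQ] at h3
    exact_mod_cast h3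
  have hv2 : V.valuation (2 : ℂ) ≠ 0 := (Valuation.ne_zero_iff _).2 two_ne_zero
  have h3f : 3 ∣ f := by
    have h1 : (3 : ℤ) ∣ (f : ℤ) := (Dvd.intro _ rfl).trans hS.fD
    exact_mod_cast h1
  have hf3 : 3 ≤ f := Nat.le_of_dvd (Nat.pos_of_ne_zero hS.f0) h3f
  have h2f : 2 * f ≠ 0 := mul_ne_zero (by norm_num) hS.f0
  have hgt : idl (A := A) (B := B) (2 * f) ≠ ⊤ := NST.VAL.idl_ne_top (by omega)
  have hgb : idl (A := A) (B := B) (2 * f) ≠ ⊥ := idl_ne_bot hQ h2f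
  have hcopb : IsCoprime (sp ((nI (R.b R.i0) : ℕ) : OO A B))
      (idl (A := A) (B := B) (2 * f)) := NST.VAL.coprime_idl (R.cop R.i0)
  obtain ⟨U, hU⟩ : ∃ U, U = u * a3 := ⟨_, rfl⟩
  have hU0 : U ≠ 0 := by rw [hU]; exact mul_ne_zero hu0 ha30
  have hUa : IsAlgebraic ℚ U := by
    rw [hU]
    exact alg_uaE hQ hT hL hG
  -- the values of `P = PhiI/(u a3 om_0)`
  obtain ⟨Q, hQdef⟩ : ∃ Q : OnePoint ℚ × OnePoint ℚ → ℂ,
    Q = fun q => PhiI (R.b R.i0) e q.1 q.2 / (U * R.om R.i0) := ⟨_, rfl⟩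
  obtain ⟨S, N00, hN00, hSD0, hgen⟩ := fgE hQ hL.b_ne hgb he.toIsEI (U * R.om R.i0)
  have hgen' : ∀ x y, Q (x, y) ∈ AddSubgroup.closure
      (Q '' (S : Set (OnePoint ℚ × OnePoint ℚ))) := by
    rw [hQdef]
    exact hgen
  obtain ⟨j, N, hN2, hjN⟩ := Nat.exists_eq_pow_mul_and_not_dvd hN00 2 (by norm_num)
  rw [hjN] at hSD0
  have hN0 : N ≠ 0 := by
    rintro rfl
    exact hN2 (dvd_zero 2)
  obtain ⟨m', hm'⟩ : ∃ m', m' = f * N := ⟨_, rfl⟩
  have hm'0 : m' ≠ 0 := by rw [hm']; exact mul_ne_zero hS.f0 hN0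
  have hm'2 : ¬ 2 ∣ m' := by
    intro h
    rw [hm'] at h
    rcases (Nat.Prime.dvd_mul Nat.prime_two).1 h with h | h
    · exact hS.fp h
    · exact hN2 h
  have hfm : f ∣ m' := by rw [hm']; exact Dvd.intro _ rfl
  have h3m : 3 ∣ m' := h3f.trans hfm
  obtain ⟨m, hm⟩ : ∃ m, m = 2 ^ (j + 1) * m' := ⟨_, rfl⟩
  have hm0 : m ≠ 0 := by rw [hm]; exact mul_ne_zero (by positivity) hm'0
  have hmm : 2 * m' ∣ m := by
    rw [hm, pow_succ]
    exact mul_dvd_mul (dvd_mul_left _ _) dvd_rfl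
  have hpm : 2 * f ∣ 2 * m' := mul_dvd_mul_left 2 hfm
  have h3m2 : 3 ∣ 2 * m' := h3m.mul_left 2
  have hdvd : 2 ^ j * N ∣ m := by
    rw [hm, hm']
    exact mul_dvd_mul (pow_dvd_pow 2 (Nat.le_succ j)) (Dvd.intro_left _ rfl)
  have hQalg : ∀ q, IsAlgebraic ℚ (Q q) := by
    intro q
    have h1 := algE hE hT hL he.toIsEI hgt h2f (natCast_mem_idl (2 * f)) hcopb h2r0 her q.1 q.2
    have h3 : Q q = PhiI (R.b R.i0) e q.1 q.2 / R.om R.i0 * U⁻¹ := by
      rw [hQdef]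
      field_simp
    rw [h3]
    exact h1.mul hUa.inv
  -- the field
  set Ts : Set ℂ := (Q '' (S : Set (OnePoint ℚ × OnePoint ℚ))) ∪
    ((Polynomial.nthRootsFinset r (1 : ℂ) : Finset ℂ) : Set ℂ) with hTs
  have hTfin : Ts.Finite :=
    Set.Finite.union ((Finset.finite_toSet S).image _) (Finset.finite_toSet _)
  have hTalg : ∀ t ∈ Ts, IsAlgebraic ℚ t := by
    rintro t (⟨q, -, rfl⟩ | ht)
    · exact hQalg q
    · rw [Finset.mem_coe, Polynomial.mem_nthRootsFinset (Nat.pos_of_ne_zero hr0)] at ht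
      refine ⟨Polynomial.X ^ r - 1, Polynomial.X_pow_sub_C_ne_zero
        (Nat.pos_of_ne_zero hr0) (1 : ℚ), ?_⟩
      simp [ht]
  obtain ⟨F, hFf, hFg, hEF, hTF⟩ := nt_GLC A B hQ (RFE (idl (A := A) (B := B) (2 * m')))
    (hT.fin _ (idl_ne_bot hQ (mul_ne_zero two_ne_zero hm'0))) Ts hTfin hTalg
  have hrF : ∀ z : ℂ, z ^ r = 1 → z ∈ F := fun z hz => hTF (Or.inr (by
    rw [Finset.mem_coe, Polynomial.mem_nthRootsFinset (Nat.pos_of_ne_zero hr0)]
    exact hz))
  have hQF : ∀ q ∈ S, Q q ∈ F := fun q hq => hTF (Or.inl ⟨q, hq, rfl⟩)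
  have hunf := unf2 hQ hS.hV F
  -- the key point
  have hkey : ∀ σ : ℂ ≃+* ℂ, InI A B V (F : Set ℂ) σ →
      ∃ ε : ℂ, ε ^ 3 = 1 ∧ ∀ q ∈ S, ε * σ (Q q) = Q q := by
    intro σ hσ
    obtain ⟨c, -, hcop, hact, hz⟩ := actE hE hT hm0 ((dvd_mul_right 2 m').trans hmm) hσ.fix
    have hA := hact _ _ _ hL
    have h3m3 : 3 ∣ m := h3m2.trans hmm
    have hcop3 : IsCoprime (sp c) (idl (A := A) (B := B) 3) := by
      rw [Ideal.isCoprime_iff_sup_eq] at hcop ⊢
      rw [eq_top_iff, ← hcop]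
      exact sup_le_sup_left (idl_mono h3m3) _
    obtain ⟨η, η', hη, hη3, hcη⟩ := unit3 hQ hE.hA hS.hB hcop3
    have hη0 : emb η ≠ 0 := (unit_hom hQ hL.toIsLI hη).1
    have hsu : emb η * σ U = U := by
      rw [hU]
      exact sguE hQ hL.toIsLI hG h3m3 hA hη hcη
    have hroot : ∀ z : ℂ, (z = 0 ∨ z ^ (2 * r) = 1) → σ z = z := by
      refine rtu2 h2 hr σ ?_
      intro z hz
      have hz1 : V.valuation z = 1 := NST.RTU.v_root hr0 hz
      have h1 := hσ.iner z (hrF z hz) ((V.valuation_le_one_iff _).1 hz1.le)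
      rwa [ValuationSubring.mem_nonunits_iff] at h1
    have hse : ∀ x, σ (e x) = e x := by
      intro x
      apply hroot
      by_cases hx : e x = 0
      · exact Or.inl hx
      · exact Or.inr (her x hx)
    -- `c³` is `± 1` modulo `3`
    have hc3 : c ^ 3 - η ^ 3 ∈ idl (A := A) (B := B) 3 := by
      have h1 : c ^ 3 - η ^ 3 = (c ^ 2 + c * η + η ^ 2) * (c - η) := by ring
      rw [h1]
      exact Ideal.mul_mem_left _ _ hcη
    -- the cube of `σ`
    obtain ⟨s3, hs3⟩ : ∃ s3 : ℂ ≃+* ℂ, ∀ z, s3 z = σ (σ (σ z)) :=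
      ⟨(σ.trans σ).trans σ, fun z => rfl⟩
    have hs3f : FixK A B s3 := by
      show s3 (wC A B) = wC A B
      rw [hs3, hσ.fix, hσ.fix, hσ.fix]
    have hs3i : ∀ y ∈ RFE (idl (A := A) (B := B) (2 * m')), y ∈ V → s3 y - y ∈ V.nonunits := by
      intro y hy hyV
      have hn : ∀ y ∈ F, y ∈ V → V.valuation (σ y - y) < 1 ∧ σ y ∈ F ∧ σ y ∈ V := by
        intro y hy hyV
        have h1 := hσ.iner y hy hyV
        rw [ValuationSubring.mem_nonunits_iff] at h1
        refine ⟨h1, hσ.stab y hy, ?_⟩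
        have h3 : σ y = (σ y - y) + y := by ring
        rw [h3]
        exact V.add_mem _ _ ((V.valuation_le_one_iff _).1 h1.le) hyV
      obtain ⟨a1, a2, a3'⟩ := hn y (hEF hy) hyV
      obtain ⟨b1, b2, b3⟩ := hn _ a2 a3'
      obtain ⟨c1, -, -⟩ := hn _ b2 b3
      rw [ValuationSubring.mem_nonunits_iff, hs3]
      have h3 : σ (σ (σ y)) - y = (σ (σ (σ y)) - σ (σ y)) + (σ (σ y) - σ y) + (σ y - y) := by
        ring
      rw [h3]
      exact lt_of_le_of_lt (V.valuation.map_add _ _) (max_lt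
        (lt_of_le_of_lt (V.valuation.map_add _ _) (max_lt c1 b1)) a1)
    have hs3t : ∀ y ∈ RFE (idl (A := A) (B := B) 3), s3 y = y := by
      intro y hy
      unfold RFE at hy
      induction hy using IntermediateField.adjoin_induction with
      | mem x hx =>
        obtain ⟨b, L, om, hLn, rfl | ⟨z, hzT, hz0, rfl⟩⟩ := hx
        · unfold kapE
          rw [hLn.nrm.g2, hLn.nrm.g3]
          unfold g2E g3E
          split_ifs
          · rw [add_zero, map_ofNat]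
          · rw [zero_add, map_neg, map_ofNat]
        · have h3z : ((3 : ℕ) : ℂ) * z ∈ L.lattice := by
            have h1 := hzT _ (natCast_mem_idl 3)
            rwa [MUX.emb_natCast hQ] at h1
          have hmz : (m : ℂ) * z ∈ L.lattice := by
            obtain ⟨k, rfl⟩ := h3m3
            have h1 := nsmul_mem h3z k
            rw [nsmul_eq_mul] at h1
            have e1 : ((3 * k : ℕ) : ℂ) * z = (k : ℂ) * (((3 : ℕ) : ℂ) * z) := by
              push_cast; ring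
            rw [e1]
            exact h1
          obtain ⟨-, h4⟩ := act3 hQ hLn.toIsLI (hact b L om hLn) hmz hz0
          show s3 (L.weierstrassP z) = L.weierstrassP z
          rw [hs3, h4, (wp_cong hQ hLn.toIsLI hc3 h3z).1]
          rcases hη3 with h5 | h5
          · rw [h5, MUX.emb_one hQ, one_mul]
          · rw [h5, MUX.emb_neg hQ, MUX.emb_one hQ, neg_one_mul, L.weierstrassP_neg]
      | algebraMap x => exact Pool.Agent.MUXC.FGL.fix hs3f _ x.2
      | add x y _ _ hx hy => rw [map_add, hx, hy]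
      | inv x _ hx => rw [map_inv₀, hx]
      | mul x y _ _ hx hy => rw [map_mul, hx, hy]
    have hfix := (hR A B V hE hS.hB hS.hV hT).2 m' hm'0 hm'2 h3m s3 hs3f hs3i hs3t
    -- `c³` is `± 1` modulo `2 m'`
    have hm2 : 2 ≤ 2 * m' := by omega
    have hL0 : IsNE (⊤ : Ideal (OO A B)) (R.L R.i0) (R.om R.i0) := by
      have h1 := hL
      rw [R.b0] at h1
      exact h1
    have hmC : ((2 * m' : ℕ) : ℂ) ≠ 0 := by
      have : 2 * m' ≠ 0 := by omega
      exact_mod_cast this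
    have hzl : ((2 * m' : ℕ) : ℂ) * (R.om R.i0 / ((2 * m' : ℕ) : ℂ)) ∈ (R.L R.i0).lattice := by
      rw [mul_div_cancel₀ _ hmC]
      exact (hL0.mem _).2 ⟨1, trivial, by rw [MUX.emb_one hQ, mul_one]⟩
    have hz0 : R.om R.i0 / ((2 * m' : ℕ) : ℂ) ∉ (R.L R.i0).lattice := by
      intro h
      obtain ⟨x, -, hx⟩ := (hL0.mem _).1 h
      have h1 : emb (1 : OO A B) = emb (((2 * m' : ℕ) : OO A B) * x) := by
        rw [MUX.emb_mul hQ, MUX.emb_natCast hQ, MUX.emb_one hQ]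
        rw [div_eq_iff hmC] at hx
        apply mul_left_cancel₀ hom0
        linear_combination hx
      have h3 := MUX.emb_inj hQ h1
      have h4 : (1 : OO A B) ∈ idl (A := A) (B := B) (2 * m') := by
        rw [h3]
        exact Ideal.mul_mem_right _ _ (natCast_mem_idl _)
      rw [mem_idl_iff] at h4
      have h5 : ((2 * m' : ℕ) : ℤ) ∣ 1 := h4.1
      have := Int.le_of_dvd one_pos h5
      omega
    have hmz : (m : ℂ) * (R.om R.i0 / ((2 * m' : ℕ) : ℂ)) ∈ (R.L R.i0).lattice := by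
      obtain ⟨k, hk⟩ := hmm
      have h1 := nsmul_mem hzl k
      rw [nsmul_eq_mul] at h1
      have e1 : (m : ℂ) * (R.om R.i0 / ((2 * m' : ℕ) : ℂ)) =
          (k : ℂ) * (((2 * m' : ℕ) : ℂ) * (R.om R.i0 / ((2 * m' : ℕ) : ℂ))) := by
        rw [hk]
        push_cast
        ring
      rw [e1]
      exact h1
    obtain ⟨h6, h7⟩ := act3 hQ hL.toIsLI hA hmz hz0
    have hpm1 := cong_pm hQ hm2 (σ := s3) hL0 (c := c ^ 3) (by rw [hs3, h7]) h6
      (hfix _ (wp_mem hQ hL hz0 hzl))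
    -- `ε³ = 1`
    have hsig : ∃ s : ℤ, (s = 1 ∨ s = -1) ∧ c ^ 3 - (s : OO A B) ∈
        idl (A := A) (B := B) (2 * m') := by
      rcases hpm1 with h | h
      · exact ⟨1, Or.inl rfl, by rw [Int.cast_one]; exact h⟩
      · exact ⟨-1, Or.inr rfl, by rw [Int.cast_neg, Int.cast_one, sub_neg_eq_add]; exact h⟩
    obtain ⟨s, hs, hcs⟩ := hsig
    have hec : e c ^ 3 = (s : ℂ) := by
      have h1 : e c ^ 3 = e (c ^ 3) := by
        rw [pow_succ c, pow_two c, he.mul, he.mul]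
        ring
      rw [h1, he.per _ _ (idl_mono hpm hcs)]
      rcases hs with rfl | rfl
      · rw [Int.cast_one, Int.cast_one, he.one]
      · rw [Int.cast_neg, Int.cast_one, Int.cast_neg, Int.cast_one, he.neg]
    have hηs : η ^ 3 = (s : OO A B) := by
      have h1 := Ideal.sub_mem _ (idl_mono h3m2 hcs) hc3
      have h3 : c ^ 3 - (s : OO A B) - (c ^ 3 - η ^ 3) = η ^ 3 - (s : OO A B) := by ring
      rw [h3] at h1
      rcases hη3 with h5 | h5 <;> rcases hs with rfl | rfl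
      · rw [h5, Int.cast_one]
      · exfalso
        rw [h5, mem_idl_iff] at h1
        have h4 : (3 : ℤ) ∣ 1 - (-1) := h1.1
        omega
      · exfalso
        rw [h5, mem_idl_iff] at h1
        have h4 : (3 : ℤ) ∣ -1 - 1 := h1.1
        omega
      · rw [h5, Int.cast_neg, Int.cast_one]
    refine ⟨e c * (emb η)⁻¹, ?_, fun q hq => ?_⟩
    · rw [mul_pow, hec, inv_pow, ← MUX.emb_pow hQ, hηs, MUX.emb_intCast hQ]
      rcases hs with rfl | rfl <;> norm_num
    · have h1 := valE hQ hL.toIsLI hm0 hA hz he.toIsEI hgt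
        (idl_mono (hpm.trans hmm) (natCast_mem_idl m)) hcopb hse q.1 q.2
        (dn_mono hdvd (hSD0 q hq).1) (dn_mono hdvd (hSD0 q hq).2)
      have hσU : σ U = U / emb η := by
        rw [eq_div_iff hη0, mul_comm]
        exact hsu
      have h3 : ∀ q, Q q = PhiI (R.b R.i0) e q.1 q.2 / R.om R.i0 / U := by
        intro q
        rw [hQdef]
        field_simp
      rw [h3, map_div₀, hσU]
      nth_rewrite 2 [← h1]
      field_simp
  have hi0 : ∀ i, i = R.i0 := one_elt hE R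
  have hQU : ∀ x y, PhiKE R e ka x y / (u * R.om R.i0) = ka R.i0 * a3 * Q (x, y) := by
    intro x y
    unfold PhiKE
    rw [Finset.sum_eq_single R.i0 (fun i _ hi => absurd (hi0 i) hi)
      (fun h => absurd (Finset.mem_univ _) h), hQdef, hU]
    field_simp
  have hvk : V.valuation (ka R.i0) = 1 := NST.RTU.v_root h2r0 (hka R.i0)
  by_cases hS0 : ∀ q ∈ S, Q q = 0
  · -- all values are zero
    refine ⟨1, KIn A B V F, 0, by norm_num, fun x y => ⟨0, (KIn A B V F).zero_mem, ?_⟩,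
      fun w hw hw1 => hunf w hw hw1, by rw [map_one, one_pow, pow_zero, one_mul]⟩
    have h1 : AddSubgroup.closure (Q '' (S : Set (OnePoint ℚ × OnePoint ℚ))) ≤ ⊥ := by
      rw [AddSubgroup.closure_le]
      rintro _ ⟨q, hq, rfl⟩
      exact hS0 q hq
    have h3 : Q (x, y) = 0 := h1 (hgen' x y)
    rw [hQU, h3, mul_zero, mul_zero]
  push Not at hS0
  obtain ⟨q0, hq0, hq00⟩ := hS0
  -- the quotients
  have hquo : ∀ q ∈ S, Q q / Q q0 ∈ KIn A B V F := by
    intro q hq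
    refine ⟨F.div_mem (hQF q hq) (hQF q0 hq0), fun σ hσ => ?_⟩
    obtain ⟨ε, hε, h1⟩ := hkey σ hσ
    have hε0 : ε ≠ 0 := by
      rintro rfl
      norm_num at hε
    have h3 := h1 q hq
    have h4 := h1 q0 hq0
    rw [map_div₀]
    nth_rewrite 2 [← h3]
    nth_rewrite 2 [← h4]
    rw [mul_div_mul_left _ _ hε0]
  have hcub : Q q0 ^ 3 ∈ KIn A B V F := by
    refine ⟨F.pow_mem (hQF q0 hq0) 3, fun σ hσ => ?_⟩
    obtain ⟨ε, hε, h1⟩ := hkey σ hσ
    have h4 := h1 q0 hq0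
    rw [map_pow]
    nth_rewrite 2 [← h4]
    rw [mul_pow, hε, one_mul]
  obtain ⟨k, hk⟩ := disc h2 (KIn A B V F) (fun w hw hw1 => hunf w hw hw1) hcub
    ((hQalg q0).pow 3) (pow_ne_zero 3 hq00)
  -- `k = 3 l - i`
  obtain ⟨l, i, hi, hkl⟩ : ∃ (l : ℤ) (i : ℕ), i ≤ 2 ∧ k = 3 * l - i := by
    refine ⟨(k + 2) / 3, (3 * ((k + 2) / 3) - k).toNat, ?_, ?_⟩ <;> omega
  have h2K : (2 : ℂ) ∈ KIn A B V F := by
    have := natCast_mem (KIn A B V F) 2
    exact_mod_cast this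
  have h2l : (2 : ℂ) ^ l ∈ KIn A B V F := zpow_mem h2K l
  have h2l0 : (2 : ℂ) ^ l ≠ 0 := zpow_ne_zero _ two_ne_zero
  refine ⟨ka R.i0 * a3 * Q q0 / 2 ^ l, KIn A B V F, i, hi, fun x y => ?_,
    fun w hw hw1 => hunf w hw hw1, ?_⟩
  · have hle : AddSubgroup.closure (Q '' (S : Set (OnePoint ℚ × OnePoint ℚ))) ≤
        ((KIn A B V F).toAddSubgroup).map (AddMonoidHom.mulLeft (Q q0)) := by
      rw [AddSubgroup.closure_le]
      rintro _ ⟨q, hq, rfl⟩
      refine ⟨Q q / Q q0, hquo q hq, ?_⟩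
      rw [AddMonoidHom.coe_mulLeft]
      field_simp
    obtain ⟨w', hw', hw2⟩ := hle (hgen' x y)
    refine ⟨2 ^ l * w', (KIn A B V F).mul_mem h2l hw', ?_⟩
    rw [hQU, ← hw2, AddMonoidHom.coe_mulLeft]
    field_simp
  · have h1 : V.valuation (ka R.i0 * a3 * Q q0 / 2 ^ l) ^ 3 =
        V.valuation (2 : ℂ) ^ (-(i : ℤ)) := by
      rw [map_div₀, map_mul, map_mul, hvk, hG.v3, one_mul, one_mul, div_pow, ← map_pow, hk,
        map_zpow₀, hkl]
      rw [← zpow_natCast (V.valuation (2 : ℂ) ^ l) 3, ← zpow_mul, ← zpow_sub₀ hv2]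
      congr 1
      push_cast
      ring
    rw [h1, zpow_neg, zpow_natCast]
    exact inv_mul_cancel₀ (pow_ne_zero _ hv2)

end

end Pool.Agent.ME2


end
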