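import Mathlib
import Pool.Agent.MVF.C050
import Pool.Agent.MVF.C058
import Pool.Agent.MVF.C063
import Pool.Agent.MVF.C139

/-! Parts: N2.V_ORB, N2.V_SQR, N2.V_TPU, ME2.EU_GPO, N2.T3_TYF -/

namespace Pool.Agent.ME2E.GPO
end Pool.Agent.ME2E.GPO
namespace Pool.Agent.N2V.ORB
end Pool.Agent.N2V.ORB
namespace Pool.Agent.N2V.SQR
end Pool.Agent.N2V.SQR
namespace Pool.Agent.N2V.TPU
end Pool.Agent.N2V.TPU

section

/-!
# MUX-2R, block ER2: module ORB, the sum over one orbit of `1 + N w0`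

`c_k = 1 + N k w0`, `N = 2^(n-1) f a`, `Q = om_0/m'`, `ξ_j = x(Q + j Y)`. The product of the fibres over the orbit is the same rational function over `V` at the
four points `ξ_j`, and it takes the same value at them: its logarithmic derivative is small (`LAG`, `DST`).
-/

set_option autoImplicit false

open Polynomial

namespace Pool.Agent.N2V

open _root_.MU3 _root_.Pool.Agent.MU3A _root_.Pool.Agent.MU3B _root_.Pool.Agent.MUX _root_.Pool.Agent.MUXU _root_.Pool.Agent.MUXE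
open _root_.Pool.Agent.RI _root_.Pool.Agent.NS _root_.Pool.Agent.N2
open _root_.Pool.Agent.NSE (IntP)
open _root_.Pool.Agent.MUX2 (GRG)
open _root_.Pool.Agent.MUXV (InK tX)
open _root_.Pool.Agent.N2E (dlg AutC cc Sd_LAG Sd_PRD)

noncomputable section

namespace ORB

lemma _root_.Pool.Agent.N2V.ORB.pf (j f : ℕ) (hf : f ≠ 0) : (2 ^ j * f).primeFactors ⊆ (2 * f).primeFactors := by
  intro p hp
  have h := Nat.mem_primeFactors.1 hp
  rw [Nat.mem_primeFactors]
  refine ⟨h.1, ?_, by omega⟩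
  rcases (Nat.Prime.dvd_mul h.1).1 h.2.1 with h2 | h2
  · exact (h.1.dvd_of_dvd_pow h2).mul_right _
  · exact h2.mul_left _

variable {V : ValuationSubring ℂ}

/-- the values of a polynomial over `V` -/
lemma ev {P : ℂ[X]} (hP : IntP V P) {x : ℂ} (hx : V.valuation x ≤ 1) :
    V.valuation (P.eval x) ≤ 1 := by
  rw [eval_eq_sum_range]
  refine Valuation.map_sum_le _ fun i _ => ?_
  rw [map_mul, map_pow]
  exact mul_le_one' (hP i) (pow_le_one' hx _)

lemma der {P : ℂ[X]} (hP : IntP V P) : IntP V (derivative P) := fun i => by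
  rw [coeff_derivative, map_mul]
  refine mul_le_one' (hP _) ?_
  have h : ((i : ℂ) + 1) = ((i + 1 : ℕ) : ℂ) := by push_cast; rfl
  rw [h]
  exact (V.valuation_le_one_iff _).2 (natCast_mem V.toSubring _)

/-- the logarithmic derivative and its numerator -/
lemma _root_.Pool.Agent.N2V.ORB.v_dlg {P Q : ℂ[X]} {x : ℂ} (hP : V.valuation (P.eval x) = 1)
    (hQ : V.valuation (Q.eval x) = 1) : V.valuation (dlg P Q x) =
    V.valuation ((derivative P).eval x * Q.eval x - P.eval x * (derivative Q).eval x) := by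
  unfold dlg
  rw [map_div₀, map_mul (V.valuation) (P.eval x), hP, hQ, one_mul, div_one]

lemma _root_.Pool.Agent.N2V.ORB.v_dlg_le {P Q : ℂ[X]} {x : ℂ} (hP : IntP V P) (hQ : IntP V Q) (hx : V.valuation x ≤ 1)
    (hP1 : V.valuation (P.eval x) = 1) (hQ1 : V.valuation (Q.eval x) = 1) :
    V.valuation (dlg P Q x) ≤ 1 := by
  rw [_root_.Pool.Agent.N2V.ORB.v_dlg hP1 hQ1]
  refine (Valuation.map_sub _ _ _).trans (max_le ?_ ?_)
  · rw [map_mul]
    exact mul_le_one' (ev (der hP) hx) hQ1.le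
  · rw [map_mul]
    exact mul_le_one' hP1.le (ev (der hQ) hx)

end ORB

open _root_.Pool.Agent.N2V.ORB

/-- (ORB) the sum over one orbit of `1 + N w0` -/
theorem tv_ORB (h1 : Sd_LAG) (h2 : Sd_PRD) (h4 : Sv_DST) (h5 : Sv_CON) (h6 : Sv_NE1)
    (h8 : Sv_FIB) (h7 : Sv_GPO) : Sv_ORB := by
  intro A B P V n f a m m' hE ι R u e a1 a3 hg H i hH x hx
  have hc : CQ A B := hE.ctx.cq
  have hv2 := hE.ctx.v2
  have hf0 : f ≠ 0 := by have := hE.f3; omega
  have hm0 : m ≠ 0 := by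
    rw [hE.hm]
    positivity
  have hm0' : m' ≠ 0 := by
    rw [hE.hm']
    positivity
  have hmC' : (m' : ℂ) ≠ 0 := by exact_mod_cast hm0'
  have hpf' : m'.primeFactors ⊆ (2 * f).primeFactors := by
    rw [hE.hm']
    exact _root_.Pool.Agent.N2V.ORB.pf (n + 1) f hf0
  have hmm' : m = 2 * m' := by
    rw [hE.hm, hE.hm']
    ring
  -- facts on the points
  obtain ⟨-, -, -, hPT0⟩ := te_PT te_TRA A B hE.ctx.ring (2 * f) ι R (by omega) R.i0
  -- elements prime to `m` are units at `V`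
  have h2P : ((2 : ℕ) : OO A B) ∈ P := by
    have h9 := (hE.ctx.pw 1 ((2 : ℕ) : OO A B)).2 (by
      rw [MUX.emb_natCast hc, pow_one]
      push_cast
      exact pow_le_of_le_one zero_le hv2.le (by norm_num))
    rwa [pow_one] at h9
  have hunit : ∀ y : OO A B, IsCoprime y ((m : ℕ) : OO A B) → y ∉ P := by
    intro y hy hy2
    obtain ⟨s, t, hst⟩ := hy
    have hmax := hE.ctx.max.ne_top
    apply hmax
    rw [Ideal.eq_top_iff_one, ← hst]
    refine Ideal.add_mem _ (Ideal.mul_mem_left _ _ hy2) (Ideal.mul_mem_left _ _ ?_)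
    rw [hmm']
    push_cast
    have h9 := Ideal.mul_mem_right ((m' : ℕ) : OO A B) P h2P
    push_cast at h9
    exact h9
  -- (1)
  have part1 : ∀ y : OO A B, IsCoprime y ((m : ℕ) : OO A B) →
      V.valuation (muX R i * FFib R a m m' i y / u) ≤ V.valuation (2 : ℂ) := by
    intro y hy
    obtain ⟨κ, k, P1, Q1, hP, hQ, -, hc1⟩ := h7 A B P V n f a m m' hE ι R u e a1 a3 hg H i hH y
      (hunit y hy)
    obtain ⟨q1, q2, q3, q4, -, q6⟩ := hc1 1 (by rwa [one_mul])
    rw [one_mul] at q6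
    have e1 : V.valuation (emb y) = 1 := hE.ctx.unit y (hunit y hy)
    have e2 : V.valuation (muX R i * emb y * FFib R a m m' i y / u) ≤ V.valuation (2 : ℂ) := by
      rw [q6, map_mul, map_mul, mul_assoc]
      exact mul_le_of_le_one_right' (mul_le_one' (_root_.Pool.Agent.N2V.ORB.v_dlg_le hP hQ q1 q3 q4) q2)
    have e3 : muX R i * emb y * FFib R a m m' i y / u =
        emb y * (muX R i * FFib R a m m' i y / u) := by ring
    rwa [e3, map_mul, e1, one_mul] at e2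
  refine ⟨part1 x hx, ?_⟩
  -- (2)
  intro y hy
  obtain ⟨c1, -, c3, c4, -, c6⟩ := h5 A B P V n f a m m' hE
  have hom : IsNL (⊤ : Ideal (OO A B)) (R.L R.i0) (R.om R.i0) := by
    have := R.nl R.i0
    rwa [R.b0] at this
  obtain ⟨d1, d2, d3, d4, -⟩ := c6 (R.L R.i0) (R.om R.i0) hom
  set N : ℕ := NN n f a with hN
  set L0 := R.L R.i0 with hL0
  set om := R.om R.i0 with hom0
  have hNL : NL A B L0 := ⟨_, _, hom⟩
  set c : ℕ → OO A B := fun k => cc N ((k : OO A B) * w0) with hcdef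
  have hcc : ∀ k, IsCoprime (c k) ((m : ℕ) : OO A B) := fun k => (c1 _).2.1
  have hc0 : c 0 = 1 := by
    simp [hcdef, cc]
  have hmma : idl (A := A) (B := B) (m * a) ≤ idl (A := A) (B := B) m' := by
    refine Ideal.span_singleton_le_span_singleton.2 ⟨((2 * a : ℕ) : OO A B), ?_⟩
    rw [hmm']
    push_cast
    ring
  have hm'a : ((m' * a : ℕ) : OO A B) * w0 ∈ idl (A := A) (B := B) m' := by
    rw [Ideal.mem_span_singleton]
    refine ⟨(a : OO A B) * w0, ?_⟩
    push_cast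
    ring
  -- the points `Q + k Y`
  set Rp : ℂ := emb (w0 : OO A B) * (a * om / 4) with hRp
  have hck : ∀ k : ℕ, emb (c k) * (om / m') = om / m' + k * Rp := by
    intro k
    rw [hcdef]
    simp only
    rw [d1, d2]
  have hP0 : ∀ c : ℕ, (c : ℂ) * (om / m') ∈ L0.lattice → f ∣ c := by
    intro c hcL
    have h9 := ((hPT0 m' hm0' hpf' 1).2.2.2 ((c : ℕ) : OO A B)).1 (by
      rw [MUX.emb_natCast hc]
      exact hcL)
    obtain ⟨z, hz⟩ := h9
    have h10 := congrArg QuadraticAlgebra.re hz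
    have h11 : (c : ℤ) = (m' : ℤ) * z.re := by simpa using h10
    have h12 : m' ∣ c := Int.natCast_dvd_natCast.1 ⟨z.re, h11⟩
    refine dvd_trans ?_ h12
    rw [hE.hm']
    exact dvd_mul_left _ _
  have hmP : ((2 ^ (n + 1) * f : ℕ) : ℂ) * (om / m') ∈ L0.lattice := by
    rw [← hE.hm', mul_div_cancel₀ _ hmC']
    refine (hom.mem _).2 ⟨1, trivial, ?_⟩
    rw [MUX.emb_one hc, mul_one]
  obtain ⟨nk1, nk2, -⟩ := h6 V L0 u e a1 a3 hg hv2 (n + 1) f a hE.f3 hE.fo hE.ao hE.af (om / m')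
    hmP hP0
  obtain ⟨S, hS1, hS2, hS3⟩ := (h4 A B P V hE.ctx L0 u e a1 a3 hNL hg (om / m') nk1 nk2).2
    Rp d3 d4
  -- the fibres
  obtain ⟨κf, -, -, hfib⟩ := h8 A B P V n f a m m' hE ι R H i hH
  -- the data for `x_k = c_k x`
  have hxk : ∀ k, IsCoprime (c k * x) ((m : ℕ) : OO A B) := fun k => (hcc k).mul_left hx
  have data := fun k : ℕ => h7 A B P V n f a m m' hE ι R u e a1 a3 hg H i hH (c k * x)
    (hunit _ (hxk k))
  choose κ kk P1 Q1 hP hQ hκ hdat using data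
  set ξ : ℕ → ℂ := fun j => xu L0 u e (om / m' + j * Rp) with hξ
  have hξ0 : ξ 0 = xu L0 u e (om / m') := by
    rw [hξ]
    simp
  have D : ∀ j k : ℕ, V.valuation (ξ j) ≤ 1 ∧
      V.valuation ((P1 k).eval (ξ j)) = 1 ∧ V.valuation ((Q1 k).eval (ξ j)) = 1 ∧
      GFib R H m m' i (c j * (c k * x)) * (Q1 k).eval (ξ j) =
        κ k * (P1 k).eval (ξ j) := by
    intro j k
    obtain ⟨q1, -, q3, q4, q5, -⟩ := hdat k (c j) ((hcc j).mul_left (hxk k))
    rw [hck] at q1 q3 q4 q5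
    exact ⟨q1, q3, q4, q5⟩
  -- the product of the fibres does not depend on `j`
  set Th : ℕ → ℂ := fun r => GFib R H m m' i (c r * x) with hTh
  have hcong : ∀ j k : ℕ, c j * (c k * x) - c (j + k) * x ∈ idl (A := A) (B := B) m' := by
    intro j k
    have h9 := Ideal.mul_mem_left _ x (hmma (c3 j k))
    have h10 : x * (c j * c k - c (j + k)) = c j * (c k * x) - c (j + k) * x := by ring
    have h11 : x * (cc N ((j : OO A B) * w0) * cc N ((k : OO A B) * w0) -
        cc N (((j + k : ℕ) : OO A B) * w0)) = x * (c j * c k - c (j + k)) := rfl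
    rw [h11, h10] at h9
    exact h9
  have hTjk : ∀ j k : ℕ, GFib R H m m' i (c j * (c k * x)) = Th (j + k) :=
    fun j k => ((hfib (c (j + k) * x) (hxk _)).2.2 _ (hcong j k)).1
  have hT4 : ∀ r : ℕ, Th (r + 4) = Th r := by
    intro r
    have h9 : c (r + 4) * x - c r * x ∈ idl (A := A) (B := B) m' := by
      have h10 := hmma (c3 r 4)
      have h11 : c 4 - 1 ∈ idl (A := A) (B := B) m' := by
        have h12 : c 4 - 1 = ((m' * a : ℕ) : OO A B) * w0 := c4
        rw [h12]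
        exact hm'a
      have h13 : (c (r + 4) - c r) = -(c r * c 4 - c (r + 4)) + c r * (c 4 - 1) := by ring
      have h14 : c (r + 4) * x - c r * x = x * (c (r + 4) - c r) := by ring
      rw [h14, h13]
      refine Ideal.mul_mem_left _ _ (Ideal.add_mem _ (neg_mem h10) (Ideal.mul_mem_left _ _ h11))
    exact ((hfib (c r * x) (hxk _)).2.2 _ h9).1
  have hprod : ∀ j, j < 4 → ∏ k ∈ Finset.range 4, Th (j + k) = ∏ k ∈ Finset.range 4, Th k := by
    intro j hj
    have e4 := hT4 0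
    have e5 := hT4 1
    have e6 := hT4 2
    simp only [Finset.prod_range_succ, Finset.prod_range_zero, one_mul]
    norm_num at e4 e5 e6
    interval_cases j
    · simp
    · norm_num
      rw [e4]
      ring
    · norm_num
      rw [e4, e5]
      ring
    · norm_num
      rw [e4, e5, e6]
      ring
  have hκ0 : ∀ k, κ k ≠ 0 := by
    intro k h0
    have h9 := hκ k
    rw [h0, map_zero] at h9
    have h10 : V.valuation (2 : ℂ) ≠ 0 := (Valuation.ne_zero_iff _).2 two_ne_zero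
    exact pow_ne_zero 2 (zpow_ne_zero (kk k) h10) h9.symm
  -- the products of the rational functions
  obtain ⟨P', Q', hP', hQ', hPQ⟩ := h2 V ℕ (Finset.range 4) P1 Q1 (fun _ => 1)
    (ξ '' {j | j < 4}) (fun k _ => ⟨hP k, hQ k, by
      rintro _ ⟨j, -, rfl⟩
      exact ⟨(D j k).2.1, (D j k).2.2.1⟩⟩)
  have hne : ∀ {w : ℂ}, V.valuation w = 1 → w ≠ 0 := fun {w} hw h0 => by
    rw [h0, map_zero] at hw
    exact zero_ne_one hw
  have hval : ∀ j, j < 4 → P'.eval (ξ j) * ∏ k ∈ Finset.range 4, κ k =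
      Q'.eval (ξ j) * ∏ k ∈ Finset.range 4, Th k := by
    intro j hj
    obtain ⟨-, -, q3, -⟩ := hPQ (ξ j) ⟨j, hj, rfl⟩
    simp only [zpow_one] at q3
    have e1 : (∏ k ∈ Finset.range 4, Th k) * ∏ k ∈ Finset.range 4, (Q1 k).eval (ξ j) =
        (∏ k ∈ Finset.range 4, κ k) * ∏ k ∈ Finset.range 4, (P1 k).eval (ξ j) := by
      rw [← hprod j hj, ← Finset.prod_mul_distrib, ← Finset.prod_mul_distrib]
      refine Finset.prod_congr rfl fun k _ => ?_
      rw [← hTjk]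
      exact (D j k).2.2.2
    have e2 : (∏ k ∈ Finset.range 4, (Q1 k).eval (ξ j)) ≠ 0 :=
      Finset.prod_ne_zero_iff.2 fun k _ => hne (D j k).2.2.1
    apply mul_right_cancel₀ e2
    linear_combination (∏ k ∈ Finset.range 4, κ k) * q3 - Q'.eval (ξ j) * e1
  have hKK : (∏ k ∈ Finset.range 4, κ k) ≠ 0 := Finset.prod_ne_zero_iff.2 fun k _ => hκ0 k
  have hcross : ∀ j, j < 4 → P'.eval (ξ j) * Q'.eval (ξ 0) = P'.eval (ξ 0) * Q'.eval (ξ j) := by
    intro j hj
    apply mul_right_cancel₀ hKK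
    linear_combination Q'.eval (ξ 0) * hval j hj - Q'.eval (ξ j) * hval 0 (by norm_num)
  -- `LAG`
  obtain ⟨p1, p2, -, p4⟩ := hPQ (ξ 0) ⟨0, by norm_num, rfl⟩
  have hS1' : ξ 0 ∉ S := by
    rw [hξ0]
    exact hS1
  have hlag := (h1 V S (ξ 0) hS1' (D 0 0).1 (fun s hs => (hS2 s hs).1)).2.2.1 P' Q' hP' hQ' (by
    intro s hs
    obtain ⟨-, k, hk, rfl⟩ := hS2 s hs
    exact hcross k hk)
  have hdR : dR A = 2 ∨ dR A = 3 := by
    unfold dR
    split_ifs
    · exact Or.inl rfl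
    · exact Or.inr rfl
  have hdl : V.valuation (dlg P' Q' (ξ 0)) ^ 8 ≤ V.valuation (2 : ℂ) ^ (3 * (dR A - 1)) := by
    rw [_root_.Pool.Agent.N2V.ORB.v_dlg p1 p2]
    refine (pow_le_pow_left₀ zero_le hlag 8).trans ?_
    rw [hξ0]
    exact hS3
  -- the sum with the weights `emb x_k`
  have hsum : ∑ k ∈ Finset.range 4, muX R i * emb (c k * x) *
      FFib R a m m' i (c k * x) / u = 2 * dlg P' Q' (ξ 0) * et L0 u (om / m') := by
    rw [p4, Finset.mul_sum, Finset.sum_mul]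
    refine Finset.sum_congr rfl fun k _ => ?_
    obtain ⟨-, -, -, -, -, q6⟩ := hdat k 1 (by rw [one_mul]; exact hxk k)
    rw [one_mul, MUX.emb_one hc, one_mul] at q6
    rw [q6, hξ0]
    push_cast
    ring
  have het : V.valuation (et L0 u (om / m')) ≤ 1 := by
    obtain ⟨-, q2, -⟩ := hdat 0 1 (by rw [one_mul]; exact hxk 0)
    rwa [MUX.emb_one hc, one_mul] at q2
  have hsum2 : V.valuation (∑ k ∈ Finset.range 4, muX R i * emb (c k * x) *
      FFib R a m m' i (c k * x) / u) ^ 8 ≤ V.valuation (2 : ℂ) ^ (3 * dR A + 5) := by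
    rw [hsum, map_mul, map_mul, mul_pow, mul_pow]
    refine (mul_le_of_le_one_right' (pow_le_one' het 8)).trans ?_
    refine (mul_le_mul' le_rfl hdl).trans ?_
    rw [← pow_add]
    refine le_of_eq ?_
    congr 1
    omega
  -- replace the weights by `emb x`
  have v4 : V.valuation (4 : ℂ) = V.valuation (2 : ℂ) ^ 2 := by
    rw [← map_pow]
    norm_num
  have hdiff : V.valuation (∑ k ∈ Finset.range 4, (emb (c k * x) - emb x) *
      (muX R i * FFib R a m m' i (c k * x) / u)) ≤ V.valuation (2 : ℂ) ^ 3 := by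
    refine Valuation.map_sum_le _ fun k _ => ?_
    rw [map_mul]
    have e1 : V.valuation (emb (c k * x) - emb x) ≤ V.valuation (4 : ℂ) := by
      have e2 : c k * x - x = ((4 : ℕ) : OO A B) * (((2 ^ (n - 3) * f * a : ℕ) : OO A B) *
          ((k : OO A B) * w0) * x) := by
        have e3 : N = 4 * (2 ^ (n - 3) * f * a) := by
          have e4 : 2 ^ (n - 1) = 4 * 2 ^ (n - 3) := by
            have := hE.n5
            have e6 : n - 1 = 2 + (n - 3) := by omega
            rw [e6, pow_add]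
            norm_num
          rw [hN, NN, e4]
          ring
        have e5 : c k = 1 + ((N : ℕ) : OO A B) * ((k : OO A B) * w0) := rfl
        rw [e5, e3]
        push_cast
        ring
      rw [← MUX.emb_sub hc, e2, MUX.emb_mul hc, MUX.emb_natCast hc, map_mul]
      push_cast
      exact mul_le_of_le_one_right' (hE.ctx.int _)
    refine (mul_le_mul' e1 (part1 _ (hxk k))).trans (le_of_eq ?_)
    rw [v4]
    exact (pow_succ _ 2).symm
  have key : emb x * ((∑ k ∈ Finset.range 4, muX R i * FFib R a m m' i (y k)) / u) =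
      (∑ k ∈ Finset.range 4, muX R i * emb (c k * x) *
        FFib R a m m' i (c k * x) / u) -
      ∑ k ∈ Finset.range 4, (emb (c k * x) - emb x) *
        (muX R i * FFib R a m m' i (c k * x) / u) := by
    rw [← Finset.sum_sub_distrib, Finset.sum_div, Finset.mul_sum]
    refine Finset.sum_congr rfl fun k hk => ?_
    rw [((hfib (c k * x) (hxk k)).2.2 _ (hy k (Finset.mem_range.1 hk))).2]
    show emb x * (muX R i * FFib R a m m' i (c k * x) / u) = _
    ring
  have vx : V.valuation (emb x) = 1 := hE.ctx.unit x (hunit x hx)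
  have e7 : V.valuation ((∑ k ∈ Finset.range 4, muX R i *
      FFib R a m m' i (y k)) / u) = V.valuation (emb x *
      ((∑ k ∈ Finset.range 4, muX R i * FFib R a m m' i (y k)) / u)) := by
    rw [map_mul, vx, one_mul]
  rw [e7, key]
  have e8 := Valuation.map_sub V.valuation (∑ k ∈ Finset.range 4, muX R i * emb (c k * x) *
        FFib R a m m' i (c k * x) / u)
      (∑ k ∈ Finset.range 4, (emb (c k * x) - emb x) *
        (muX R i * FFib R a m m' i (c k * x) / u))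
  refine (pow_le_pow_left₀ zero_le e8 8).trans ?_
  rcases le_total (V.valuation (∑ k ∈ Finset.range 4, muX R i * emb (c k * x) *
        FFib R a m m' i (c k * x) / u))
      (V.valuation (∑ k ∈ Finset.range 4, (emb (c k * x) - emb x) *
        (muX R i * FFib R a m m' i (c k * x) / u))) with h | h
  · rw [max_eq_right h]
    refine (pow_le_pow_left₀ zero_le hdiff 8).trans ?_
    rw [← pow_mul]
    refine pow_le_pow_of_le_one zero_le hv2.le ?_
    omega
  · rw [max_eq_left h]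
    exact hsum2

end

end Pool.Agent.N2V


end

section

/-!
# MUX-2R, block ER2, module SQR: the improved criterion for squares (helper1, after helper42)
-/

set_option autoImplicit false

open Polynomial

namespace Pool.Agent.N2V

open _root_.MU3 _root_.Pool.Agent.MU3A _root_.Pool.Agent.MU3B _root_.Pool.Agent.MUX _root_.Pool.Agent.MUXU _root_.Pool.Agent.MUXE
open _root_.Pool.Agent.RI _root_.Pool.Agent.NS _root_.Pool.Agent.N2
open _root_.Pool.Agent.NSE (IntP)
open _root_.Pool.Agent.MUX2 (GRG)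
open _root_.Pool.Agent.MUXV (InK tX)
open _root_.Pool.Agent.N2E (dlg AutC cc Sd_LAG Sd_PRD Sd_AUT Sd_GTA)

noncomputable section

namespace SQR

lemma _root_.Pool.Agent.N2V.SQR.v2_ne (V : ValuationSubring ℂ) : V.valuation (2 : ℂ) ≠ 0 :=
  (Valuation.ne_zero_iff _).2 (by norm_num)

/-- squares of powers of `v(2)` -/
def _root_.Pool.Agent.N2V.SQR.Sb (V : ValuationSubring ℂ) (x : ℂ) : Prop :=
  ∃ k : ℤ, V.valuation x = (V.valuation (2 : ℂ) ^ k) ^ 2

lemma Sb.one (V : ValuationSubring ℂ) : _root_.Pool.Agent.N2V.SQR.Sb V 1 := ⟨0, by simp⟩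

lemma Sb.mul {V : ValuationSubring ℂ} {x y : ℂ} (hx : _root_.Pool.Agent.N2V.SQR.Sb V x) (hy : _root_.Pool.Agent.N2V.SQR.Sb V y) : _root_.Pool.Agent.N2V.SQR.Sb V (x * y) := by
  obtain ⟨k, hk⟩ := hx
  obtain ⟨l, hl⟩ := hy
  exact ⟨k + l, by rw [map_mul, hk, hl, zpow_add₀ (_root_.Pool.Agent.N2V.SQR.v2_ne V), mul_pow]⟩

lemma Sb.zpow {V : ValuationSubring ℂ} {x : ℂ} (hx : _root_.Pool.Agent.N2V.SQR.Sb V x) (g : ℤ) : _root_.Pool.Agent.N2V.SQR.Sb V (x ^ g) := by
  obtain ⟨k, hk⟩ := hx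
  exact ⟨k * g, by rw [map_zpow₀, hk, pow_two, mul_zpow, ← pow_two, zpow_mul]⟩

lemma _root_.Pool.Agent.N2V.SQR.prodZ {J κ : Type} [Fintype J] (X : J → Finset κ) (g : J → ℤ) (F : κ → ℂ) :
    ∏ j, (∏ q ∈ X j, F q) ^ g j = ∏ p ∈ Finset.univ.sigma X, F p.2 ^ g p.1 := by
  rw [Finset.prod_sigma]
  exact Finset.prod_congr rfl fun j _ => (Finset.prod_zpow _ _ _).symm

lemma two_mem {A B : ℤ} {P : Ideal (OO A B)} {V : ValuationSubring ℂ} (hC : CtxU A B P V) :
    (2 : OO A B) ∈ P := by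
  obtain ⟨φ, hφ⟩ := hC.ring.hom
  have h := (hC.pw 1 (2 : OO A B)).2 (by
    rw [← hφ, map_ofNat, pow_one, pow_two]
    exact mul_le_of_le_one_left' hC.v2.le)
  rwa [pow_one] at h

lemma not_mem {A B : ℤ} {P : Ideal (OO A B)} {V : ValuationSubring ℂ} (hC : CtxU A B P V)
    {n f : ℕ} {x : OO A B}
    (hx : IsCoprime x ((2 ^ (n + 2) * f : ℕ) : OO A B)) : x ∉ P := by
  intro h
  apply hC.max.ne_top
  rw [Ideal.eq_top_iff_one]
  obtain ⟨b1, b2, hb⟩ := hx
  rw [← hb]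
  refine add_mem (Ideal.mul_mem_left _ _ h) (Ideal.mul_mem_left _ _ ?_)
  have h1 : ((2 ^ (n + 2) * f : ℕ) : OO A B) = ((2 ^ (n + 1) * f : ℕ) : OO A B) * 2 := by
    push_cast
    ring
  rw [h1]
  exact Ideal.mul_mem_left _ _ (two_mem hC)

/-- `x + m' w` is prime to `m = 2 m'`, `m'` even -/
lemma cop_add {A B : ℤ} {m m' k : ℕ} (h1 : m = 2 * m') (h2 : m' = 2 * k) {x : OO A B}
    (hx : IsCoprime x ((m : ℕ) : OO A B)) (w : OO A B) :
    IsCoprime (x + (m' : OO A B) * w) ((m : ℕ) : OO A B) := by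
  have h3 : IsCoprime x ((m' : ℕ) : OO A B) := by
    refine hx.of_isCoprime_of_dvd_right ⟨2, ?_⟩
    rw [h1]
    push_cast
    ring
  have h4 : IsCoprime (x + (m' : OO A B) * w) ((m' : ℕ) : OO A B) := by
    obtain ⟨b1, b2, hb⟩ := h3
    exact ⟨b1, b2 - b1 * w, by linear_combination hb⟩
  refine (h4.pow_right (n := 2)).of_isCoprime_of_dvd_right ⟨(k : OO A B), ?_⟩
  rw [h1, h2]
  push_cast
  ring

/-- `Θ` is periodic -/
lemma th_per (L : PeriodPair) (a : ℂ) {H : Finset ℂ} (hH : IsHalf L a H) {z w : ℂ}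
    (h : z - w ∈ L.lattice) : ThetaH L H z = ThetaH L H w := by
  have := (b_TIN L a H H hH hH).2.2 w (z - w) h
  rwa [add_sub_cancel] at this

/-- the base point has exact order `m` -/
lemma _root_.Pool.Agent.N2V.SQR.base {A B : ℤ} (hring : RingE A B) {L : PeriodPair} {om : ℂ}
    (hL : IsNL (⊤ : Ideal (OO A B)) L om) {m : ℕ} (hm : m ≠ 0) :
    (m : ℂ) * (om / m) ∈ L.lattice ∧ ∀ c : ℕ, (c : ℂ) * (om / m) ∈ L.lattice → m ∣ c := by
  obtain ⟨φ, hφ⟩ := hring.hom
  have hm' : (m : ℂ) ≠ 0 := by exact_mod_cast hm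
  refine ⟨?_, fun c hc => ?_⟩
  · rw [mul_div_cancel₀ _ hm']
    exact (hL.mem _).2 ⟨1, trivial, by rw [← hφ, map_one, mul_one]⟩
  · obtain ⟨x, -, hx⟩ := (hL.mem _).1 hc
    have hom := hL.om_ne
    have h1 : emb ((c : ℕ) : OO A B) = emb (((m : ℕ) : OO A B) * x) := by
      rw [← hφ, ← hφ, map_mul, map_natCast, map_natCast, hφ]
      apply mul_left_cancel₀ hom
      rw [mul_div_assoc', div_eq_iff hm'] at hx
      linear_combination hx
    have h2 : ((c : ℕ) : OO A B) = ((m : ℕ) : OO A B) * x := by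
      rw [← sub_eq_zero]
      apply hring.inj0
      rw [← hφ, map_sub, hφ, hφ, h1, sub_self]
    have h3 := congrArg QuadraticAlgebra.re h2
    simp at h3
    exact Int.natCast_dvd_natCast.1 ⟨_, h3⟩

end SQR

open _root_.Pool.Agent.N2V.SQR in
theorem tv_SQR (h1 : Sd_LAG) (h2 : Sd_PRD) (h3 : Sv_COE) (h4 : Sv_DST) (h5 : Sd_AUT) (h6 : Sd_GTA)
    (h7 : Sv_CON) (h8 : Sv_SIG) (h9 : Sv_NE1) (h10 : Sv_GPO) : Sv_SQR := by
  intro A B P' V n f a m m' hS ι R u e a1 a3 hgood H hH J _ X g hX ⟨y, hy, hinv, hy2⟩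
  have hC := hS.ctx
  have hring := hC.ring
  obtain ⟨φ, hφ⟩ := hring.hom
  have emul : ∀ x y : OO A B, emb (x * y) = emb x * emb y := fun x y => by
    rw [← hφ, map_mul, hφ, hφ]
  have eone : emb (1 : OO A B) = 1 := by rw [← hφ, map_one]
  have enat : ∀ n : ℕ, emb ((n : ℕ) : OO A B) = n := fun n => by rw [← hφ, map_natCast]
  have hf3 := hS.f3
  have ha3 := hS.a3
  have hm0 : m ≠ 0 := by
    rw [hS.hm]
    exact mul_ne_zero (by positivity) (by omega)
  have hm2' : m = 2 * m' := by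
    rw [hS.hm, hS.hm']
    ring
  have hm4 : m' = 2 * (2 ^ n * f) := by
    rw [hS.hm']
    ring
  have hm0' : m' ≠ 0 := by omega
  have hNL0 : IsNL (⊤ : Ideal (OO A B)) (R.L R.i0) (R.om R.i0) := by
    have := R.nl R.i0
    rwa [R.b0] at this
  obtain ⟨c1, -, -, -, -, c7⟩ := h7 A B P' V n f a m m' hS
  obtain ⟨c71, c72, c73, c74, c75⟩ := c7 (R.L R.i0) (R.om R.i0) hNL0
  obtain ⟨ξ, hξ⟩ : ∃ ξ : OO A B → ℂ, ∀ b, ξ b = xu (R.L R.i0) u e
      (emb (cc (NN n f a) b) * (R.om R.i0 / m')) := ⟨_, fun _ => rfl⟩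
  have hc0 : cc (NN n f a) (0 : OO A B) = 1 := by rw [cc, mul_zero, add_zero]
  have hξ0 : ξ 0 = xu (R.L R.i0) u e (R.om R.i0 / m') := by rw [hξ, hc0, eone, one_mul]
  -- the rational functions
  have hG : ∀ q : ι × OO A B, ∃ (κ : ℂ) (k : ℤ) (P Q : ℂ[X]), q.2 ∉ P' →
      IntP V P ∧ IntP V Q ∧ V.valuation κ = (V.valuation (2 : ℂ) ^ k) ^ 2 ∧
      ∀ c : OO A B, IsCoprime (c * q.2) ((m : ℕ) : OO A B) →
        V.valuation (xu (R.L R.i0) u e (emb c * (R.om R.i0 / m'))) ≤ 1 ∧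
        V.valuation (et (R.L R.i0) u (emb c * (R.om R.i0 / m'))) ≤ 1 ∧
        V.valuation (P.eval (xu (R.L R.i0) u e (emb c * (R.om R.i0 / m')))) = 1 ∧
        V.valuation (Q.eval (xu (R.L R.i0) u e (emb c * (R.om R.i0 / m')))) = 1 ∧
        GFib R H m m' q.1 (c * q.2) *
            Q.eval (xu (R.L R.i0) u e (emb c * (R.om R.i0 / m'))) =
          κ * P.eval (xu (R.L R.i0) u e (emb c * (R.om R.i0 / m'))) ∧
        muX R q.1 * emb q.2 * FFib R a m m' q.1 (c * q.2) / u =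
          2 * dlg P Q (xu (R.L R.i0) u e (emb c * (R.om R.i0 / m'))) *
            et (R.L R.i0) u (emb c * (R.om R.i0 / m')) := by
    intro q
    by_cases hq : q.2 ∈ P'
    · exact ⟨0, 0, 0, 0, fun h => absurd hq h⟩
    · obtain ⟨κ, k, P, Q, h⟩ := h10 A B P' V n f a m m' hS ι R u e a1 a3 hgood H q.1 (hH q.1)
        q.2 hq
      exact ⟨κ, k, P, Q, fun _ => h⟩
  choose κ k P Q hG using hG
  have hq2 : ∀ j, ∀ q ∈ X j, q.2 ∉ P' := fun j q hq =>
    not_mem hC (n := n) (f := f) (by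
      have := hX j q hq
      rwa [hS.hm] at this)
  have hGb := fun j q (hq : q ∈ X j) (b : OO A B) =>
    (hG q (hq2 j q hq)).2.2.2 (cc (NN n f a) b) (((c1 b).2.1).mul_left (hX j q hq))
  obtain ⟨κ1, k1, P1, Q1, -, -, -, hG1⟩ := h10 A B P' V n f a m m' hS ι R u e a1 a3 hgood H R.i0
    (hH R.i0) 1 (not_mem hC (n := n) (f := f) isCoprime_one_left)
  have vξ : ∀ b, V.valuation (ξ b) ≤ 1 := fun b => by
    rw [hξ]
    exact (hG1 _ (by rw [mul_one]; exact (c1 b).2.1)).1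
  have vet : V.valuation (et (R.L R.i0) u (R.om R.i0 / m')) ≤ 1 := by
    have := (hG1 1 (by rw [mul_one]; exact isCoprime_one_left)).2.1
    rwa [eone, one_mul] at this
  -- the product
  obtain ⟨P1', Q1', hP', hQ', hPQ⟩ := h2 V (Σ _ : J, ι × OO A B) (Finset.univ.sigma X)
    (fun p => P p.2) (fun p => Q p.2) (fun p => g p.1) (Set.range ξ) (by
      intro p hp
      have hp' := (Finset.mem_sigma.1 hp).2
      refine ⟨(hG _ (hq2 _ _ hp')).1, (hG _ (hq2 _ _ hp')).2.1, ?_⟩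
      rintro _ ⟨b, rfl⟩
      have := hGb _ _ hp' b
      rw [hξ]
      exact ⟨this.2.2.1, this.2.2.2.1⟩)
  have hPb := fun b => hPQ (ξ b) ⟨b, rfl⟩
  obtain ⟨κ0, hκ0⟩ : ∃ κ0 : ℂ, κ0 = ∏ p ∈ Finset.univ.sigma X, κ p.2 ^ g p.1 := ⟨_, rfl⟩
  have hW : ∀ b : OO A B, (∏ j, (∏ q ∈ X j, GFib R H m m' q.1
      (cc (NN n f a) b * q.2)) ^ g j) * Q1'.eval (ξ b) =
      κ0 * P1'.eval (ξ b) := by
    intro b
    obtain ⟨p1, p2, p3, -⟩ := hPb b
    have hne : ∏ p ∈ Finset.univ.sigma X, (Q p.2).eval (ξ b) ^ g p.1 ≠ 0 := by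
      refine Finset.prod_ne_zero_iff.2 fun p hp => zpow_ne_zero _ fun h0 => ?_
      have := (hGb _ _ (Finset.mem_sigma.1 hp).2 b).2.2.2.1
      rw [← hξ, h0, map_zero] at this
      exact zero_ne_one this
    have h11 : (∏ p ∈ Finset.univ.sigma X, GFib R H m m' p.2.1
        (cc (NN n f a) b * p.2.2) ^ g p.1) *
        ∏ p ∈ Finset.univ.sigma X, (Q p.2).eval (ξ b) ^ g p.1 =
        κ0 * ∏ p ∈ Finset.univ.sigma X, (P p.2).eval (ξ b) ^ g p.1 := by
      rw [hκ0, ← Finset.prod_mul_distrib, ← Finset.prod_mul_distrib]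
      refine Finset.prod_congr rfl fun p hp => ?_
      have := (hGb _ _ (Finset.mem_sigma.1 hp).2 b).2.2.2.2.1
      rw [← hξ] at this
      rw [← mul_zpow, ← mul_zpow, this]
    rw [_root_.Pool.Agent.N2V.SQR.prodZ X g (fun q => GFib R H m m' q.1 (cc (NN n f a) b * q.2))]
    apply mul_right_cancel₀ hne
    linear_combination (Q1'.eval (ξ b)) * h11 - κ0 * p3
  have hκS : _root_.Pool.Agent.N2V.SQR.Sb V κ0 := by
    rw [hκ0]
    exact Finset.prod_induction _ (_root_.Pool.Agent.N2V.SQR.Sb V) (fun _ _ => Sb.mul) (Sb.one V) fun p hp =>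
      Sb.zpow ⟨_, (hG _ (hq2 _ _ (Finset.mem_sigma.1 hp).2)).2.2.1⟩ _
  obtain ⟨K, hK⟩ := hκS
  have hW0 := hW 0
  simp only [hc0, one_mul] at hW0
  rw [← hy2] at hW0
  have vy : V.valuation y = V.valuation (2 : ℂ) ^ K := by
    have h12 := congrArg V.valuation hW0
    rw [map_mul, map_mul, (hPb 0).1, (hPb 0).2.1, mul_one, mul_one, map_pow, hK] at h12
    exact (pow_left_inj₀ zero_le zero_le (by norm_num)).1 h12
  have h2K : (2 : ℂ) ^ K ≠ 0 := zpow_ne_zero _ (by norm_num)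
  obtain ⟨w, hw⟩ : ∃ w : ℂ, w = y / 2 ^ K := ⟨_, rfl⟩
  have hyw : y = w * 2 ^ K := by rw [hw, div_mul_cancel₀ _ h2K]
  have vw : V.valuation w = 1 := by
    rw [hw, map_div₀, map_zpow₀, vy, div_self (zpow_ne_zero _ (_root_.Pool.Agent.N2V.SQR.v2_ne V))]
  have hwM : w ∈ RF (idl (A := A) (B := B) (m' * a)) := by
    rw [hw]
    refine div_mem ((te_FAC te_TRA A B hring).1 _ _ ?_ hy) (zpow_mem (ofNat_mem _ 2) K)
    rw [Ideal.span_singleton_le_span_singleton]
    exact ⟨(a : OO A B), by push_cast; ring⟩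
  obtain ⟨h, hh, hwh, hsh⟩ := h8 A B P' V n f a m m' hS (R.L R.i0) (R.om R.i0) u e a1 a3 hNL0 hgood w
    hwM vw.le
  -- the automorphisms
  have hbot : idl (A := A) (B := B) (m * a) ≠ ⊥ := by
    intro h0
    rw [Ideal.span_singleton_eq_bot] at h0
    have h11 := congrArg emb h0
    rw [enat, ← hφ 0, map_zero] at h11
    have h12 : m * a ≠ 0 := mul_ne_zero hm0 (by omega)
    exact h12 (by exact_mod_cast h11)
  have hs : ∀ b : OO A B, ∃ s : ℂ ≃+* ℂ, AutC (idl (m * a)) (cc (NN n f a) b) s := fun b =>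
    h5 A B hring hS.tor ⟨_, ⟨_, _, hNL0⟩⟩ _ hbot _ (c1 b).2.2.1 (c1 b).1
  have hmf : m.primeFactors ⊆ (2 * f).primeFactors := by
    rw [hS.hm, Nat.primeFactors_mul (by positivity) (by omega), Nat.primeFactors_pow _ (by omega),
      Nat.primeFactors_mul (by norm_num) (by omega)]
  have hm2 : 2 ≤ m := by
    rw [hS.hm]
    have : 0 < 2 ^ n := by positivity
    rw [pow_add]
    nlinarith
  have hsG : ∀ (b : OO A B) (s : ℂ ≃+* ℂ), AutC (idl (m * a)) (cc (NN n f a) b) s →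
      ∀ (i : ι) (x : OO A B), IsCoprime x ((m : ℕ) : OO A B) →
      s (GFib R H m m' i x) = GFib R H m m' i (cc (NN n f a) b * x) := by
    intro b s hs i x hx
    rw [GFib, GFib, map_prod]
    refine Finset.prod_congr rfl fun l _ => ?_
    have hz := cop_add hm2' hm4 hx (bb l)
    obtain ⟨z, hzd⟩ : ∃ z, z = x + (m' : OO A B) * bb l := ⟨_, rfl⟩
    rw [← hzd] at hz ⊢
    obtain ⟨-, -, -, hpt⟩ := te_PT te_TRA A B hring (2 * f) ι R (by omega) i
    obtain ⟨-, hzm, hzo, -⟩ := hpt m hm0 hmf z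
    have hNLi : NL A B (R.L i) := ⟨_, _, R.nl i⟩
    have hzL : pt R m i z ∉ (R.L i).lattice := by
      intro h0
      have := hzo hz 1 (by rwa [Nat.cast_one, one_mul])
      have := Nat.le_of_dvd one_pos this
      omega
    have hzT : Tor (idl (A := A) (B := B) (m * a)) (R.L i) (pt R m i z) := by
      refine ((te_TRA A B hring _ hNLi).2.2.2.2.1 _ _).2 ?_
      rw [enat]
      have h1 := nsmul_mem hzm a
      rw [nsmul_eq_mul] at h1
      have h2 : ((m * a : ℕ) : ℂ) * pt R m i z = (a : ℂ) * ((m : ℂ) * pt R m i z) := by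
        push_cast
        ring
      rw [h2]
      exact h1
    rw [h6 A B hring _ hNLi a (H i) (hH i) (idl (A := A) (B := B) (m * a)) (by
      rw [Ideal.span_singleton_le_span_singleton]
      exact ⟨((m : ℕ) : OO A B), by push_cast; ring⟩) _ s hs (c1 b).2.2.2.2.2 _ hzT hzL]
    apply th_per (R.L i) (a : ℂ) (hH i)
    obtain ⟨t, ht⟩ := Ideal.mem_span_singleton.1 (c1 b).2.2.2.2.1
    have hdi : cc (NN n f a) b * z = (cc (NN n f a) b * x + (m' : OO A B) * bb l) +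
        (m : OO A B) * (2 * (f : OO A B) * t * bb l) := by
      rw [hzd, hm2']
      push_cast
      have ht' : cc (NN n f a) b = 1 + 4 * (f : OO A B) * t := by
        rw [← sub_add_cancel (cc (NN n f a) b) 1, ht]
        push_cast
        ring
      rw [ht']
      ring
    have hmC : (m : ℂ) ≠ 0 := by exact_mod_cast hm0
    have hzt := (hpt m hm0 hmf (2 * (f : OO A B) * t * bb l)).2.1
    have eadd : ∀ x y : OO A B, emb (x + y) = emb x + emb y := fun x y => by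
      rw [← hφ, map_add, hφ, hφ]
    have e1 : emb (cc (NN n f a) b) * pt R m i z -
        pt R m i (cc (NN n f a) b * x + (m' : OO A B) * bb l) =
        (m : ℂ) * pt R m i (2 * (f : OO A B) * t * bb l) := by
      have e2 := congrArg emb hdi
      rw [emul, eadd, emul (m : OO A B), enat] at e2
      unfold pt
      field_simp
      linear_combination (R.om i * nI (R.b i)) * e2
    rw [e1]
    exact hzt
  have hsy : ∀ (b : OO A B) (s : ℂ ≃+* ℂ), AutC (idl (m * a)) (cc (NN n f a) b) s →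
      s w = h.eval (ξ b) ∧ (s y) ^ 2 = ∏ j, (∏ q ∈ X j, GFib R H m m' q.1
        (cc (NN n f a) b * q.2)) ^ g j ∧ s y = s w * 2 ^ K := by
    intro b s hs
    refine ⟨?_, ?_, ?_⟩
    · rw [hξ]
      exact hsh _ _ hs (c1 b).2.2.2.1
    · rw [← map_pow, hy2, map_prod]
      refine Finset.prod_congr rfl fun j _ => ?_
      rw [map_zpow₀, map_prod]
      congr 1
      refine Finset.prod_congr rfl fun q hq => ?_
      exact hsG b s hs q.1 q.2 (hX j q hq)
    · rw [hyw, map_mul, map_zpow₀, map_ofNat]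
  have hκne : κ0 ≠ 0 := by
    intro h0
    rw [h0, map_zero] at hK
    exact (pow_ne_zero 2 (zpow_ne_zero K (_root_.Pool.Agent.N2V.SQR.v2_ne V))) hK.symm
  have key : ∀ b, P1'.eval (ξ b) = ((2 ^ K) ^ 2 / κ0) * h.eval (ξ b) ^ 2 * Q1'.eval (ξ b) := by
    intro b
    obtain ⟨s, hs⟩ := hs b
    obtain ⟨s1, s2, s3⟩ := hsy b s hs
    have h11 := hW b
    rw [← s2, s3, s1] at h11
    field_simp
    linear_combination -h11
  have vκ : V.valuation ((2 ^ K) ^ 2 / κ0) = 1 := by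
    rw [map_div₀, map_pow, map_zpow₀, hK, div_self (pow_ne_zero 2 (zpow_ne_zero K (_root_.Pool.Agent.N2V.SQR.v2_ne V)))]
  -- the distances
  obtain ⟨hz1, hz2⟩ := _root_.Pool.Agent.N2V.SQR.base hring hNL0 hm0'
  obtain ⟨i1, i2, -⟩ := h9 V (R.L R.i0) u e a1 a3 hgood hC.v2 (n + 1) f a hS.f3 hS.fo hS.ao hS.af
    (R.om R.i0 / m') (by rw [← hS.hm']; exact hz1)
    (fun c hc => dvd_trans ⟨2 ^ (n + 1), by rw [hS.hm']; ring⟩ (hz2 c hc))
  obtain ⟨⟨S, hS0, hS1, hS2⟩, hS'⟩ := h4 A B P' V hC (R.L R.i0) u e a1 a3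
    ⟨_, _, hNL0⟩ hgood _ i1 i2
  obtain ⟨S', hS0', hS1', hS2'⟩ := hS' _ c73 c74
  obtain ⟨-, -, -, -, -, -, -, -, -, hper⟩ := h3 V (R.L R.i0) u e a1 a3 hgood hC.v2
  have hSb : ∀ x ∈ S, ∃ b, x = ξ b := by
    intro x hx
    obtain ⟨Y, hY, rfl⟩ := (hS1 x hx).2
    obtain ⟨b, hb⟩ := c75 Y hY
    refine ⟨b, ?_⟩
    rw [hξ, c71 b, ← ((hper (R.om R.i0 / m' + emb b * (a * R.om R.i0 / 4))).1 _ hb).1]
    congr 1
    ring
  have hSh : ∀ x ∈ S', h.eval x = h.eval (xu (R.L R.i0) u e (R.om R.i0 / m')) := by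
    intro x hx
    obtain ⟨k', -, rfl⟩ := (hS1' x hx).2
    obtain ⟨s, hs⟩ := hs ((k' : OO A B) * w0)
    have hk : xu (R.L R.i0) u e (R.om R.i0 / m' + k' * (emb (w0 : OO A B) *
        (a * R.om R.i0 / 4))) = ξ ((k' : OO A B) * w0) := by
      rw [hξ, c71, c72]
    obtain ⟨s1, -, s3⟩ := hsy _ s hs
    have s4 := hinv k' s hs
    rw [hk, ← s1, ← hwh]
    apply mul_right_cancel₀ h2K
    rw [← s3, s4]
    exact hyw
  have hLag := (h1 V S _ hS0 (by rw [← hξ0]; exact vξ 0) (fun x hx => (hS1 x hx).1)).2.2.2 P1' Q1' h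
    ((2 ^ K) ^ 2 / κ0) S' hP' hQ' hh vκ.le hS0' (fun x hx => (hS1' x hx).1)
    (by rw [← hξ0]; exact key 0)
    (fun x hx => by obtain ⟨b, rfl⟩ := hSb x hx; exact key b) hSh
  have hd : dR A = 2 ∨ dR A = 3 := by
    unfold dR
    split <;> simp
  have hdl : V.valuation (dlg P1' Q1' (ξ 0)) ^ 8 ≤ V.valuation (2 : ℂ) ^ (3 * dR A + 5) := by
    rw [dlg, map_div₀, map_mul, (hPb 0).1, (hPb 0).2.1, mul_one, div_one, hξ0]
    refine (pow_le_pow_left' hLag 8).trans ?_
    rcases le_total (V.valuation (2 : ℂ) * ∏ x ∈ S', V.valuation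
      (xu (R.L R.i0) u e (R.om R.i0 / m') - x)) (∏ x ∈ S, V.valuation
      (xu (R.L R.i0) u e (R.om R.i0 / m') - x)) with h11 | h11
    · rw [max_eq_right h11]
      refine (pow_le_pow_left' hS2 8).trans ?_
      rw [← pow_mul]
      exact pow_le_pow_right_of_le_one' hC.v2.le (by omega)
    · rw [max_eq_left h11, mul_pow]
      have e1 : 3 * dR A + 5 = 8 + 3 * (dR A - 1) := by omega
      rw [e1, pow_add]
      exact mul_le_mul' le_rfl hS2'
  have hsum : (∑ j, (g j : ℂ) * ∑ q ∈ X j, emb q.2 * muX R q.1 *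
      FFib R a m m' q.1 q.2) / u =
      2 * dlg P1' Q1' (ξ 0) * et (R.L R.i0) u (R.om R.i0 / m') := by
    rw [(hPb 0).2.2.2, Finset.sum_sigma, Finset.mul_sum, Finset.sum_mul, Finset.sum_div]
    refine Finset.sum_congr rfl fun j _ => ?_
    rw [Finset.mul_sum, Finset.sum_div, Finset.mul_sum, Finset.sum_mul]
    refine Finset.sum_congr rfl fun q hq => ?_
    have h12 := (hGb j q hq 0).2.2.2.2.2
    rw [← hξ, hc0, eone, one_mul, one_mul] at h12
    rw [mul_div_assoc (g j : ℂ)]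
    linear_combination (g j : ℂ) * h12
  rw [hsum, map_mul, map_mul, mul_pow, mul_pow]
  refine (mul_le_of_le_one_right' (pow_le_one' vet 8)).trans ?_
  have e2 : 3 * dR A + 13 = 8 + (3 * dR A + 5) := by omega
  rw [e2, pow_add]
  exact mul_le_mul' le_rfl hdl

end

end Pool.Agent.N2V


end

section

/-!
# MUX-2R, block ER2: the points of exact order `P^(j+1)` (TPU), `2` ramified

Adapted from `NS/F_TPR.lean` (helper1).
-/

set_option autoImplicit false

open Polynomial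

namespace Pool.Agent.N2V

open _root_.MU3 _root_.Pool.Agent.MU3A _root_.Pool.Agent.MU3B _root_.Pool.Agent.MUX _root_.Pool.Agent.MUXU _root_.Pool.Agent.MUXE
open _root_.Pool.Agent.RI _root_.Pool.Agent.NS _root_.Pool.Agent.N2
open _root_.Pool.Agent.NSE (IntP)
open _root_.Pool.Agent.MUX2 (GRG)
open _root_.Pool.Agent.MUXV (InK tX)
open _root_.Pool.Agent.N2E (dlg AutC cc)

noncomputable section

namespace TPU

theorem lt_one_of_sq {Γ : Type*} [LinearOrderedCommGroupWithZero Γ] {a b : Γ}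
    (h : a ^ 2 = b) (hb : b < 1) : a < 1 := by
  by_contra hc
  have hc' : 1 ≤ a := not_lt.1 hc
  have h1 : 1 ≤ a ^ 2 := one_le_pow₀ hc'
  rw [h] at h1
  exact absurd hb (not_lt.2 h1)

theorem one_lt_of {Γ : Type*} [LinearOrderedCommGroupWithZero Γ] {T π : Γ}
    (h : π * T = 1) (hπ : π < 1) : 1 < T := by
  by_contra hc
  have hc' : T ≤ 1 := not_lt.1 hc
  have h2 : π * T < 1 := lt_of_le_of_lt (mul_le_of_le_one_right' hc') hπ
  rw [h] at h2
  exact lt_irrefl _ h2

/-- the coordinate is periodic -/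
theorem xu_per (L : PeriodPair) (u e : ℂ) {z w : ℂ} (h : z - w ∈ L.lattice) :
    xu L u e z = xu L u e w := by
  unfold xu
  have h1 := L.weierstrassP_add_coe w ⟨z - w, h⟩
  have h2 : w + (z - w) = z := by ring
  rw [show w + ((⟨z - w, h⟩ : L.lattice) : ℂ) = z from h2] at h1
  rw [h1]

/-- the claim of the induction -/
theorem claim (h2 : Sv_GRT) (h4 : Sv_PST) {A B : ℤ} {P : Ideal (OO A B)} {V : ValuationSubring ℂ}
    (h : CtxU A B P V) (j : ℕ) : ∀ (L : PeriodPair) (u e a1 a3 : ℂ), NL A B L →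
      GoodQ V L u e a1 a3 → ∀ z, Tor (P ^ (j + 1)) L z → ¬ Tor (P ^ j) L z →
      InK V L (xu L u e) z ∧ z ∉ L.lattice ∧ 1 < V.valuation (xu L u e z) ∧
      V.valuation (2 : ℂ) * V.valuation (xu L u e z) ^ (2 ^ j) = 1 := by
  obtain ⟨φ, hφ⟩ := h.ring.hom
  have embn : ∀ n : ℕ, emb ((n : ℕ) : OO A B) = n := fun n => by rw [← hφ, map_natCast]
  have hv2 := h.v2
  have mem2 : ((2 : ℕ) : OO A B) ∈ P := by
    have h8 := (h.pw 1 ((2 : ℕ) : OO A B)).2 (by
      rw [embn, pow_one, Nat.cast_ofNat, sq]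
      exact mul_le_of_le_one_right' hv2.le)
    rwa [pow_one] at h8
  induction j with
  | zero =>
    intro L u e a1 a3 hL hg z hz hz0
    obtain ⟨tra1, -⟩ := te_TRA A B h.ring L hL
    have hzL : z ∉ L.lattice := fun h8 => hz0 fun x _ => tra1 x z h8
    rw [zero_add, pow_one] at hz
    obtain ⟨N, ν, hN, hQ⟩ := h.exq L hL
    obtain ⟨u', e', a1', a3', hg'⟩ := h.good N hN
    obtain ⟨-, q, k1, k2, k3, k4⟩ := h4 A B P V h L N ν u e a1 a3 u' e' a1' a3' hL hN hQ hg hg'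
    obtain ⟨q', hq', hzq⟩ := k3.surj z ((hQ.2 z).2 hz) hzL
    rw [Finset.mem_singleton] at hq'
    rw [hq'] at hzq
    have hx := xu_per L u e hzq
    have h1 := one_lt_of k4 hv2
    rw [← hx] at h1 k4
    refine ⟨Or.inr fun hin => ?_, hzL, h1, by simpa using k4⟩
    exact absurd h1 (not_lt.2 ((V.valuation_le_one_iff _).2 hin))
  | succ j ih =>
    intro L u e a1 a3 hL hg z hz hz0
    obtain ⟨tra1, tra2, tra3, tra4, tra5, tra6, tra7, tra8, tra9⟩ := te_TRA A B h.ring L hL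
    obtain ⟨N, ν, hN, hQ⟩ := h.exq L hL
    obtain ⟨u', e', a1', a3', hg'⟩ := h.good N hN
    obtain ⟨hmu, q, k1, k2, k3, k4⟩ := h4 A B P V h L N ν u e a1 a3 u' e' a1' a3' hL hN hQ hg hg'
    have hν : ν ≠ 0 := hQ.1
    have hTor : ∀ z, ν * z ∈ N.lattice ↔ Tor P L z := hQ.2
    have hIsg : Isg L N ν := fun w hw => (hTor w).2 (fun x _ => tra1 x w hw)
    obtain ⟨⟨ξ, G⟩, hodd⟩ := h2 V L u e a1 a3 hg hv2
    have hodd' := (h2 V N u' e' a1' a3' hg' hv2).2
    have hu := hg.u0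
    have hu' := hg'.u0
    have hzL : z ∉ L.lattice := fun h8 => hz0 fun x _ => tra1 x z h8
    -- the point of order 5
    have hw5 : ((5 : ℕ) : ℂ) * (L.ω₁ / 5) ∈ L.lattice := by
      have h8 : ((5 : ℕ) : ℂ) * (L.ω₁ / 5) = L.ω₁ := by
        push_cast
        ring
      rw [h8]
      exact L.ω₁_mem_lattice
    have n1 := TP.fifth L
    set w : ℂ := L.ω₁ / 5 with hw
    have i1 : ¬ InK V L (xu L u e) w := fun hin =>
      n1 ((hodd 5 (by norm_num)).2 w hw5 hin)
    have m1 : ν * w ∉ N.lattice := by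
      intro h8
      have h9 := (hTor w).1 h8 _ mem2
      rw [embn] at h9
      apply n1
      have h10 := sub_mem hw5 (add_mem h9 h9)
      have h11 : ((5 : ℕ) : ℂ) * w - (((2 : ℕ) : ℂ) * w + ((2 : ℕ) : ℂ) * w) = w := by
        push_cast
        ring
      rwa [h11] at h10
    have i1' : ¬ InK V N (xu N u' e') (ν * w) := by
      intro hin
      refine m1 ((hodd' 5 (by norm_num)).2 _ ?_ hin)
      have h8 := hIsg _ hw5
      rwa [show ν * (((5 : ℕ) : ℂ) * w) = ((5 : ℕ) : ℂ) * (ν * w) by ring] at h8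
    -- the point `z' = ν z`
    have hz1 : Tor (P ^ (j + 1)) N (ν * z) := by
      intro x hx
      have h8 : Tor P L (emb x * z) := by
        apply tra6 (P ^ (j + 1)) P x z hx
        rw [← pow_succ]
        exact hz
      have h9 := (hTor _).2 h8
      rwa [show ν * (emb x * z) = emb x * (ν * z) by ring] at h9
    have hz2 : ¬ Tor (P ^ j) N (ν * z) := by
      intro h8
      apply hz0
      rw [pow_succ]
      apply tra7
      intro x hx
      have h9 := h8 x hx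
      rw [show emb x * (ν * z) = ν * (emb x * z) by ring] at h9
      exact (hTor _).1 h9
    obtain ⟨y1, y2, y3, y4⟩ := ih N u' e' a1' a3' hN hg' (ν * z) hz1 hz2
    have hq1 := one_lt_of k4 hv2
    have hqK : InK V L (xu L u e) q := Or.inr fun hin =>
      absurd hq1 (not_lt.2 ((V.valuation_le_one_iff _).2 hin))
    -- the product formula
    have pf := u_PFI L N ν {q} hν hIsg k3 w m1 z y2
    have xd : ∀ a b : ℂ, L.weierstrassP a - L.weierstrassP b =
        u ^ 2 * (xu L u e a - xu L u e b) := by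
      intro a b
      unfold xu
      field_simp
      ring
    have xd' : ∀ a b : ℂ, N.weierstrassP a - N.weierstrassP b =
        u' ^ 2 * (xu N u' e' a - xu N u' e' b) := by
      intro a b
      unfold xu
      field_simp
      ring
    have pf' : (ν * u' / u) ^ 2 * (xu N u' e' (ν * z) - xu N u' e' (ν * w)) *
        ∏ q ∈ ({q} : Finset ℂ), (xu L u e z - xu L u e q) =
        (xu L u e z - xu L u e w) *
          ∏ q ∈ ({q} : Finset ℂ), (xu L u e z - xu L u e (w + q)) := by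
      rw [Finset.prod_singleton, Finset.prod_singleton] at pf ⊢
      rw [xd, xd, xd, xd'] at pf
      apply mul_left_cancel₀ (mul_ne_zero (pow_ne_zero 2 hu) (pow_ne_zero 2 hu))
      have e1 : u ^ 2 * (ν * u' / u) ^ 2 = ν ^ 2 * u' ^ 2 := by
        field_simp
      linear_combination pf + (u ^ 2 *
        (xu N u' e' (ν * z) - xu N u' e' (ν * w)) * (xu L u e z - xu L u e q)) * e1
    have hm0 : V.valuation (ν * u' / u) ≠ 0 :=
      (Valuation.ne_zero_iff _).2 (div_ne_zero (mul_ne_zero hν hu') hu)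
    have hm1 : V.valuation (ν * u' / u) < 1 := lt_one_of_sq hmu hv2
    obtain ⟨X1, X2⟩ := TP.num V.valuation 2 (2 ^ j) (by norm_num) (by positivity) {q}
      (Finset.card_singleton q)
      (ν * u' / u) (xu N u' e' (ν * z)) (xu N u' e' (ν * w)) (xu L u e z) (xu L u e w)
      (fun q => xu L u e q) (fun q => xu L u e (w + q)) (V.valuation (xu L u e q))
      (V.valuation (ν * u' / u)) hm0 hm1 rfl
      (by rw [hmu]; simpa using k4)
      hq1 (fun q' hq' => by rw [Finset.mem_singleton.1 hq'])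
      (fun q' hq' => by
        rw [Finset.mem_singleton.1 hq']
        exact (Pool.Agent.MUXV.int_X (fun hin => i1 (by
          have := Pool.Agent.MUX2.gInK_sub G hin hqK
          rwa [add_sub_cancel_right] at this))).2)
      (Pool.Agent.MUXV.int_X i1).2 (Pool.Agent.MUXV.int_X i1').2
      y3 (by rw [hmu]; simpa using y4) pf'
    refine ⟨Or.inr fun hin => ?_, hzL, X1, ?_⟩
    · exact absurd X1 (not_lt.2 ((V.valuation_le_one_iff _).2 hin))
    · rw [← y4, ← X2, ← pow_mul, pow_succ' 2 j]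

end TPU

open _root_.Pool.Agent.N2V.TPU in
theorem tv_TPU (h2 : Sv_GRT) (h4 : Sv_PST) : Sv_TPU := by
  intro A B P V h j L u e a1 a3 hL hg z hz hz0
  obtain ⟨k1, k2, k3, k4⟩ := claim h2 h4 h j L u e a1 a3 hL hg z hz hz0
  refine ⟨k1, k2, ?_⟩
  obtain ⟨⟨ξ, G⟩, -⟩ := h2 V L u e a1 a3 hg h.v2
  obtain ⟨-, -, h5⟩ := Pool.Agent.MUX2.gv_tX_lt G k1 k2
  have hx0 : V.valuation (xu L u e z) ^ (2 ^ j) ≠ 0 := by
    refine pow_ne_zero _ fun h0 => ?_
    rw [h0] at k3
    exact absurd k3 (not_lt.2 zero_le)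
  apply mul_left_cancel₀ hx0
  rw [mul_comm _ (V.valuation (2 : ℂ)), k4, pow_succ' 2 j, pow_mul, ← mul_pow, h5, one_pow]

end

end Pool.Agent.N2V


end

section

/-!
# MUX-2N, block E2N, module GPO (helper89)

The values of `Θ_a` at the points `(i, x)` as rational functions over `V` of `x(P)`.
Model: the lemma `point` of `Pool/Agent/NS/E_ONE.lean` (helper76).
-/

set_option autoImplicit false

open Polynomial

namespace Pool.Agent.ME2E

open _root_.MU3 _root_.Pool.Agent.MU3A _root_.Pool.Agent.MU3B _root_.Pool.Agent.MUX _root_.Pool.Agent.MUXU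
open _root_.Pool.Agent.RI _root_.Pool.Agent.NS
open _root_.Pool.Agent.ME hiding ActE
open _root_.Pool.Agent.MEE _root_.Pool.Agent.ME2
open _root_.Pool.Agent.MUXE (RingE)
open _root_.Pool.Agent.N2 (GoodT et yt WT IsTei2 OddT PTq)
open _root_.Pool.Agent.N2E (dlg del cc IsoT Sd_LAG Sd_PRD Sd_COE Sd_GRT Sd_TPT Sd_UNT Sd_RAT Sd_THT Sd_DST Sd_NE1 Sd_PRT)
open _root_.Pool.Agent.NSE (IntP)
open _root_.Pool.Agent.MUX2 (GRG)
open _root_.Pool.Agent.MUXV (InK tX)

noncomputable section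

namespace GPO

/-- `6 ∣ |H|` if `a` is prime to `6` -/
lemma card6 {L : PeriodPair} {a : ℕ} {H : Finset ℂ} (ha : a ≠ 0) (h2 : ¬ 2 ∣ a) (h3 : ¬ 3 ∣ a)
    (hH : IsHalf L (a : ℂ) H) : 6 ∣ H.card := by
  obtain ⟨-, -, h⟩ := b_HRE L a H (by exact_mod_cast ha) (fun w hw => by
    have := nsmul_mem hw a
    rwa [nsmul_eq_mul] at this) hH
  have h1 : 2 * H.card + 1 = a ^ 2 := by
    rw [Complex.norm_natCast] at h
    exact_mod_cast h
  have h4 : a ^ 2 % 12 = 1 := by
    rw [Nat.pow_mod]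
    have h5 : a % 12 = 1 ∨ a % 12 = 5 ∨ a % 12 = 7 ∨ a % 12 = 11 := by omega
    rcases h5 with h5 | h5 | h5 | h5 <;> rw [h5]
  omega

/-- `v(u²)³` is a power of `v 2` -/
lemma _root_.Pool.Agent.ME2E.GPO.usq (h7 : Sy_UNR) {A B : ℤ} {V : ValuationSubring ℂ} (hC : CtxU A B V)
    (hT : TorXE A B) {L : PeriodPair} {u e a1 a3 : ℂ} (hL : NLE A B L)
    (hg : GoodT V L u e a1 a3) :
    ∃ k : ℤ, V.valuation (u ^ 2) ^ 3 = V.valuation (2 : ℂ) ^ k := by
  obtain ⟨w₁, w₂, h1, h2, h1', h2', -, -, -, hu⟩ := hg.tor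
  have hring := hC.ring
  obtain ⟨φ, hφ⟩ := hring.hom
  have e3 : emb ((3 : ℕ) : OO A B) = 3 := by rw [← hφ, map_natCast]; norm_num
  obtain ⟨-, hx, -⟩ := tm_FAC tm_TRA A B hring
  have hsp := (tm_TRA A B hring L hL).2.2.2.2.1
  have m1 : xnE L w₁ ∈ RFE (idl (A := A) (B := B) 3) :=
    (hx _ L hL).2 w₁ ((hsp _ _).2 (by rw [e3]; exact h1)) h1'
  have m2 : xnE L w₂ ∈ RFE (idl (A := A) (B := B) 3) :=
    (hx _ L hL).2 w₂ ((hsp _ _).2 (by rw [e3]; exact h2)) h2'
  have e4 : u ^ 2 = xnE L w₂ - xnE L w₁ := by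
    rw [hu, xnE, xnE]
  have hle : RFE (idl (A := A) (B := B) 3) ≤ RFE (idl (A := A) (B := B) (2 * 3)) :=
    (tm_FAC tm_TRA A B hring).1 _ _ (by
      rw [Ideal.span_singleton_le_span_singleton]
      exact ⟨((2 : ℕ) : OO A B), by push_cast; ring⟩)
  refine h7 A B V hC hT 3 (by norm_num) (by norm_num) _ (hle ?_) (pow_ne_zero 2 hg.u0)
  rw [e4]
  exact sub_mem m2 m1

end GPO

open _root_.Pool.Agent.ME2E.GPO in
/-- (GPO) the values of `Θ_a` at the points `(i, x)`. -/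
theorem ty_GPO (h2 : Sd_GRT) (h3 : Sd_THT) (h4 : Sd_NE1) (h5 : Sy_MUL)
    (h6 : Sy_UNR) : Sy_GPO := by
  intro A B V n f a m hS ι R u e a1 a3 hgood i H hH x hx
  have hC := hS.ctx
  have hT := hS.tor
  have hf3 := hS.f3
  have hf := hS.fo
  have hpa := hS.ao
  have ha0 : a ≠ 0 := by have := hS.a3; omega
  have hring := hC.ring
  obtain ⟨φ, hφ⟩ := hring.hom
  have emul : ∀ x y : OO A B, emb (x * y) = emb x * emb y := fun x y => by
    rw [← hφ, map_mul, hφ, hφ]
  obtain rfl := hS.hm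
  obtain ⟨hmu, hisg, hodd⟩ := h5 A B V hC (2 * f) ι R (by omega) (dvd_mul_right _ _) i x hx
  have hm0 : 2 ^ (n + 2) * f ≠ 0 := mul_ne_zero (by positivity) (by omega)
  have hmf : (2 ^ (n + 2) * f).primeFactors ⊆ (2 * f).primeFactors := by
    rw [Nat.primeFactors_mul (by positivity) (by omega), Nat.primeFactors_pow _ (by omega),
      Nat.primeFactors_mul (by norm_num) (by omega)]
  obtain ⟨-, -, -, hpt⟩ := tm_PT tm_TRA A B hring (2 * f) ι R (by omega) i
  obtain ⟨u', e', a1', a3', hg'⟩ := hC.good (R.L i) ⟨_, _, R.nl i⟩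
  have hI : IsoT V (R.L R.i0) (R.L i) u e a1 a3 u' e' a1' a3' (muXE R i * emb x) :=
    ⟨hgood, hg', hC.v2, hmu, hisg, hodd⟩
  obtain ⟨P, Q, hP, hQ, hPQ⟩ := h3 V (R.L R.i0) (R.L i) u e a1 a3 u' e' a1' a3' _ hI a H ha0 hH
  obtain ⟨k, hk⟩ := _root_.Pool.Agent.ME2E.GPO.usq h6 hC hT ⟨_, _, R.nl i⟩ hg'
  have h3a : ¬ 3 ∣ a := fun h => by
    have h1 := Nat.dvd_gcd h hS.fd
    rw [hS.af] at h1
    omega
  obtain ⟨t, ht⟩ := card6 ha0 hpa h3a hH
  refine ⟨(u' ^ 2) ^ H.card, k * t, P, Q, hP, hQ, ?_, ?_⟩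
  · have e6 : V.valuation (u' ^ 2) ^ (6 * t) = (V.valuation (u' ^ 2) ^ 3) ^ (2 * t) := by
      rw [← pow_mul]
      congr 1
      ring
    rw [map_pow, ht, e6, hk, ← zpow_natCast, ← zpow_natCast, ← zpow_mul, ← zpow_mul]
    congr 1
    push_cast
    ring
  intro c hc
  obtain ⟨hz, hzm, hzo, -⟩ := hpt (2 ^ (n + 2) * f) hm0 hmf (c * x)
  obtain ⟨hzK, -, hza, hzq⟩ := h4 V (R.L i) u' e' a1' a3' hg' hC.v2 (n + 2) f a hf3 hf hpa
    hS.af _ hzm (hzo hc)
  have ez : muXE R i * emb x * (emb c * (R.om R.i0 / (2 ^ (n + 2) * f : ℕ))) =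
      ptE R (2 ^ (n + 2) * f) i (c * x) := by
    rw [hz, emul]
    ring
  obtain ⟨k1, k2, k3, k4, k5⟩ := hPQ (emb c * (R.om R.i0 / (2 ^ (n + 2) * f : ℕ)))
    (by rw [ez]; exact hzK) (by rw [ez]; exact hza) (fun q hq => by
      rw [ez]
      exact hzq q (hH.mem q hq) (fun hqL => hH.ne q hq (by
        have hqq := add_mem hqL hqL
        rwa [← two_mul] at hqq)))
  rw [ez] at k4 k5
  obtain ⟨ξ, G⟩ := h2 V (R.L R.i0) u e a1 a3 hgood hC.v2
  have vx := (Pool.Agent.MUXV.int_X k1).2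
  have vy := Pool.Agent.MUX2.gInt_Y G k1
  have v2 : V.valuation (2 : ℂ) ≤ 1 := hC.v2.le
  have e1 : et (R.L R.i0) u (emb c * (R.om R.i0 / (2 ^ (n + 2) * f : ℕ))) =
      2 * yt (R.L R.i0) u e a1 a3 (emb c * (R.om R.i0 / (2 ^ (n + 2) * f : ℕ))) +
        a1 * xu (R.L R.i0) u e (emb c * (R.om R.i0 / (2 ^ (n + 2) * f : ℕ))) + a3 := by
    rw [yt]
    ring
  have ve : V.valuation (et (R.L R.i0) u (emb c * (R.om R.i0 / (2 ^ (n + 2) * f : ℕ)))) ≤ 1 := by
    rw [e1]
    refine (Valuation.map_add _ _ _).trans (max_le ?_ hgood.v3.le)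
    refine (Valuation.map_add _ _ _).trans (max_le ?_ ?_)
    · rw [map_mul]
      exact mul_le_one' v2 vy
    · rw [map_mul]
      exact mul_le_one' (hgood.v1.trans v2) vx
  exact ⟨vx, ve, k2, k3, k4, k5⟩

end

end Pool.Agent.ME2E


end

section

/-!
# MUX-2R, block T (helper4): the result `SQ_TYF`, `2` ramified

`σ` in the inertia group at `V` of a large Galois extension `F / k` fixes `RF (m')`, `m'` odd, so it acts on the points of level `m = 2^(j+1) m'` of
every `L_i` as `d_i c`, `c ≡ 1` modulo `m'`, `c` prime to `m`. So `e(c) = 1` (`OddF.cond`), and `PhiK/(u a3 om_0)` is fixed by `σ` (`vak2`).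
The values of `v` on the inertia field are those of `T3_UNF.lean`. The field `F` contains generators of the values for the single weights, so that
`pi = a3` and `KI` do not depend on `kk`.
-/

set_option autoImplicit false

namespace Pool.Agent.N2T

open _root_.MU3 _root_.Pool.Agent.MU3A _root_.Pool.Agent.MU3B _root_.Pool.Agent.RI _root_.Pool.Agent.MUX _root_.Pool.Agent.MUXU
open OnePoint _root_.Pool.Agent.NS _root_.Pool.Agent.N2 _root_.Pool.Agent.NST
open _root_.Pool.Agent.MUXY (ActN Dn y_MUU y_BRI y_MUI y_MUC y_RA1 y_ALP)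

noncomputable section

/-- `u a3` -/
theorem sgu3 {A B : ℤ} {V : ValuationSubring ℂ} (hC : CQ A B) {n : ℕ} {ι : Type}
    (R : Reps A B n ι) {u e a1 a3 : ℂ} (hG : GoodQ V (R.L R.i0) u e a1 a3) {m m' : ℕ}
    (hmm : m' ∣ m) (h3 : 3 ∣ m') (σ : ℂ ≃+* ℂ) (c : OO A B) (d : ι → ℤ)
    (hc : c - 1 ∈ idl (A := A) (B := B) m') (hT : ActT R m σ c d) :
    σ (u * a3) = d R.i0 * (u * a3) := by
  set L := R.L R.i0 with hL
  obtain ⟨w1, w2, h31, h32, hw1, hw2, -, -, he, hu2⟩ := hG.tor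
  have hu0 := hG.u0
  -- the action on the points of order three
  have hact : ∀ w : ℂ, 3 * w ∈ L.lattice → w ∉ L.lattice →
      σ (L.weierstrassP w) = L.weierstrassP w ∧
      σ (L.derivWeierstrassP w) = d R.i0 * L.derivWeierstrassP w := by
    intro w h3w hw
    have hmul : ∀ k : ℕ, 3 ∣ k → (k : ℂ) * w ∈ L.lattice := by
      rintro _ ⟨k, rfl⟩
      have h1 := nsmul_mem h3w k
      rw [nsmul_eq_mul] at h1
      have e1 : ((3 * k : ℕ) : ℂ) * w = (k : ℂ) * (3 * w) := by push_cast; ring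
      rw [e1]
      exact h1
    obtain ⟨-, hP, hP'⟩ := (hT.act R.i0).act w (hmul m (h3.trans hmm)) hw
    have hcw : emb c * w - w ∈ L.lattice := by
      obtain ⟨y, hy⟩ := Ideal.mem_span_singleton'.1 hc
      have h1 : emb c - 1 = emb y * m' := by
        have h2 := congrArg emb hy
        rw [Pool.Agent.MUX.emb_mul hC, Pool.Agent.MUX.emb_natCast hC, Pool.Agent.MUX.emb_sub hC,
          Pool.Agent.MUX.emb_one hC] at h2
        exact h2.symm
      have h2 : emb c * w - w = emb y * (m' * w) := by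
        linear_combination w * h1
      rw [h2]
      exact (R.nl R.i0).toIsLI.hasCM hC y _ (hmul m' h3)
    have hPc : L.weierstrassP (emb c * w) = L.weierstrassP w := by
      have h4 := L.weierstrassP_add_coe w ⟨emb c * w - w, hcw⟩
      have h5 : w + ((⟨emb c * w - w, hcw⟩ : L.lattice) : ℂ) = emb c * w := by
        show w + (emb c * w - w) = emb c * w
        ring
      rw [h5] at h4
      exact h4
    have hDc := SGU.der_congr L hcw
    rcases hT.sgn R.i0 with hd | hd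
    · rw [hd] at hP hP' ⊢
      push_cast at hP hP' ⊢
      rw [one_mul] at hP hP' ⊢
      exact ⟨by rw [← hP, hPc], by rw [← hP', hDc]⟩
    · rw [hd] at hP hP' ⊢
      push_cast at hP hP' ⊢
      have h1 : -1 * emb c * w = -(emb c * w) := by ring
      rw [h1] at hP hP'
      rw [L.weierstrassP_neg] at hP
      rw [L.derivWeierstrassP_neg] at hP'
      exact ⟨by rw [← hP, hPc], by rw [← hP', hDc]; ring⟩
  obtain ⟨hP1, hD1⟩ := hact w1 h31 hw1
  obtain ⟨hP2, -⟩ := hact w2 h32 hw2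
  have hsu2 : σ (u ^ 2) = u ^ 2 := by
    rw [hu2, map_sub, hP1, hP2]
  -- `u a3 = ± ℘'(w1)/u²`
  have heq := hG.eq w1 hw1
  rw [← he, sub_self, zero_div, mul_zero, zero_add, zero_pow (by norm_num), mul_zero,
    zero_add] at heq
  have hua : u * a3 = L.derivWeierstrassP w1 / u ^ 2 ∨
      u * a3 = -(L.derivWeierstrassP w1 / u ^ 2) := by
    apply sq_eq_sq_iff_eq_or_eq_neg.1
    rw [mul_pow, ← heq]
    field_simp
  have h5 : σ (L.derivWeierstrassP w1 / u ^ 2) =
      d R.i0 * (L.derivWeierstrassP w1 / u ^ 2) := by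
    rw [map_div₀, hD1, hsu2, mul_div_assoc]
  rcases hua with hua | hua
  · rw [hua, h5]
  · rw [hua, map_neg, h5, mul_neg]

/-! ### Algebraicity -/

lemma alg_ua3 {A B : ℤ} (hC : CQ A B) (T : TorX A B) {V : ValuationSubring ℂ}
    {b : Ideal (OO A B)} {L : PeriodPair} {om : ℂ} (hL : IsNL b L om) {u e a1 a3 : ℂ}
    (hG : GoodQ V L u e a1 a3) : IsAlgebraic ℚ (u * a3) := by
  obtain ⟨w1, w2, h31, h32, hw1, hw2, -, -, he, hu2⟩ := hG.tor
  have hu0 := hG.u0
  have h31' : ((3 : ℕ) : ℂ) * w1 ∈ L.lattice := by exact_mod_cast h31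
  have h32' : ((3 : ℕ) : ℂ) * w2 ∈ L.lattice := by exact_mod_cast h32
  have hP1 : IsAlgebraic ℚ (L.weierstrassP w1) :=
    ALT.alg_RF hC T three_ne_zero (ALT.wp_mem hC hL hw1 h31')
  have hP2 : IsAlgebraic ℚ (L.weierstrassP w2) :=
    ALT.alg_RF hC T three_ne_zero (ALT.wp_mem hC hL hw2 h32')
  have hu2a : IsAlgebraic ℚ (u ^ 2) := by rw [hu2]; exact hP2.sub hP1
  have hk : IsAlgebraic ℚ (kap L) := ALT.alg_RF hC T three_ne_zero (n := 3)
    (IntermediateField.subset_adjoin _ _ ⟨b, L, om, hL, Or.inl rfl⟩)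
  have hg2 : IsAlgebraic ℚ L.g₂ := by
    have h8 : L.g₂ = ((1 / 12 : ℚ) : ℂ) + ((144 : ℚ) : ℂ) * kap L := by
      unfold kap
      push_cast
      ring
    rw [h8]
    exact (ALT.alg_num _).add ((ALT.alg_num _).mul hk)
  have hg3 : IsAlgebraic ℚ L.g₃ := by
    have h8 : L.g₃ = ((-1 / 18 : ℚ) : ℂ) * L.g₂ := by
      rw [hL.nrm]
      push_cast
      ring
    rw [h8]
    exact (ALT.alg_num _).mul hg2
  have hD : IsAlgebraic ℚ (L.derivWeierstrassP w1) := by
    apply IsAlgebraic.of_pow two_pos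
    rw [L.derivWeierstrassP_sq w1 hw1]
    have h4 : IsAlgebraic ℚ (4 : ℂ) := by simpa using ALT.alg_num 4
    exact ((h4.mul (hP1.pow 3)).sub (hg2.mul hP1)).sub hg3
  have heq := hG.eq w1 hw1
  rw [← he, sub_self, zero_div, mul_zero, zero_add, zero_pow (by norm_num), mul_zero,
    zero_add] at heq
  have hua : (u * a3) ^ 2 = (L.derivWeierstrassP w1) ^ 2 * ((u ^ 2) ^ 2)⁻¹ := by
    rw [mul_pow, ← heq]
    field_simp
  apply IsAlgebraic.of_pow two_pos
  rw [hua]
  exact (hD.pow 2).mul (hu2a.pow 2).inv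

section
variable {A B : ℤ} {n : ℕ} {ι : Type} [Fintype ι] [DecidableEq ι]

/-- the sum over the single weights -/
lemma phiK_sum (R : Reps A B n ι) (e : OO A B → ℂ) (kk : ι → ℂ) (x y : OnePoint ℚ) :
    PhiK R e kk x y = ∑ i, kk i * PhiK R e (Pi.single i 1) x y := by
  unfold PhiK
  refine Finset.sum_congr rfl fun i _ => ?_
  have h1 : ∑ j, (Pi.single i (1 : ℂ) : ι → ℂ) j * PhiI (R.b j) e x y = PhiI (R.b i) e x y := by
    rw [Finset.sum_eq_single i]
    · rw [Pi.single_eq_same, one_mul]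
    · intro j _ hj
      rw [Pi.single_eq_of_ne hj, zero_mul]
    · intro h
      exact absurd (Finset.mem_univ i) h
  rw [h1]

/-- the values for a single weight are algebraic -/
lemma alg_single (hQ : CQ A B) (hT : TorX A B) (hn : 3 ∣ n) (hn0 : n ≠ 0) (R : Reps A B n ι)
    (e : OO A B → ℂ) (he : IsEI (idl (A := A) (B := B) n) e) {r : ℕ} (hr : r ≠ 0)
    (her : ∀ x, e x ≠ 0 → e x ^ (2 * r) = 1) {u : ℂ} (hu : IsAlgebraic ℚ u) (i : ι)
    (x y : OnePoint ℚ) : IsAlgebraic ℚ (PhiK R e (Pi.single i 1) x y / (u * R.om R.i0)) := by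
  have hALV := nt_ALV y_ALP
  have h2r0 : 2 * r ≠ 0 := mul_ne_zero two_ne_zero hr
  have hG : ∀ (g : ℕ) (R' : Reps A B g ι) (_ : IsEI (idl (A := A) (B := B) g) e)
      (_ : 3 ∣ g) (_ : g ≠ 0) (ka : ι → ℂ) (_ : ∀ j, ka j ^ (2 * r) = 1),
      IsAlgebraic ℚ (PhiK R' e ka x y / (u * R'.om R'.i0)) := by
    intro g R' he' h3 hg ka hka
    obtain ⟨k, rfl⟩ := h3
    exact hALV A B hQ hT k (by omega) ι R' e he' (2 * r) h2r0 her ka hka u hu x y
  have h1 := hG n R he hn hn0 (fun _ => 1) (fun _ => one_pow _)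
  have h2 := hG n R he hn hn0 (Function.update (fun _ => 1) i (-1)) (fun j => by
    by_cases h : j = i
    · rw [h, Function.update_self, pow_mul, neg_one_sq, one_pow]
    · rw [Function.update_of_ne h, one_pow])
  have h3 : PhiK R e (Pi.single i 1) x y / (u * R.om R.i0) =
      (1 / 2 : ℚ) • (PhiK R e (fun _ => 1) x y / (u * R.om R.i0) -
        PhiK R e (Function.update (fun _ => 1) i (-1)) x y / (u * R.om R.i0)) := by
    have h4 : PhiK R e (Pi.single i 1) x y = (1 / 2 : ℂ) * (PhiK R e (fun _ => 1) x y -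
        PhiK R e (Function.update (fun _ => 1) i (-1)) x y) := by
      unfold PhiK
      rw [← Finset.sum_sub_distrib, Finset.mul_sum]
      refine Finset.sum_congr rfl fun j _ => ?_
      by_cases h : j = i
      · rw [h, Pi.single_eq_same, Function.update_self]
        ring
      · rw [Pi.single_eq_of_ne h, Function.update_of_ne h]
        ring
    rw [h4, Algebra.smul_def]
    simp only [one_div, map_inv₀, map_ofNat]
    ring
  rw [h3]
  exact (h1.sub h2).smul _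

end

/-! ### The result -/

open TYF in
/-- TYPE at `2`, ramified, from `SQ_RFIN` -/
theorem t3_TYF (hR : SQ_RFIN) : SQ_TYF := by
  classical
  intro A B P V f hS hT ι _ R u el a1 a3 hG e he r hr her
  have hC := hS.case
  have hQ : CQ A B := hS.case.toCQ
  have hu0 : u ≠ 0 := hG.u0
  have ha30 : a3 ≠ 0 := by
    rintro rfl
    have := hG.v3
    rw [map_zero] at this
    exact zero_ne_one this
  have hr0 : r ≠ 0 := by
    rintro rfl
    exact hr (dvd_zero 2)
  have h2 : V.valuation (2 : ℂ) < 1 := r_v2 hQ hS.hP hS.hV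
  obtain ⟨ϖ, hϖ, hϖ2, hϖv⟩ := r_unif hC hS.hP hS.hV
  have h3f : 3 ∣ f := by
    have h1 : (3 : ℤ) ∣ 8 * (f : ℤ) := (Dvd.intro _ rfl).trans hS.fD
    omega
  have hf3 : 3 ≤ f := Nat.le_of_dvd (Nat.pos_of_ne_zero hS.f0) h3f
  have h2f : 2 * f ≠ 0 := mul_ne_zero (by norm_num) hS.f0
  have hp : 3 ∣ 2 * f := h3f.mul_left 2
  obtain ⟨U, hU⟩ : ∃ U, U = u * a3 := ⟨_, rfl⟩
  have hU0 : U ≠ 0 := by rw [hU]; exact mul_ne_zero hu0 ha30
  have hUa : IsAlgebraic ℚ U := by
    rw [hU]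
    exact alg_ua3 hQ hT (R.nl R.i0) hG
  -- the values of `P = PhiK/(u a3 om_0)` for the single weights
  obtain ⟨Q, hQdef⟩ : ∃ Q : ι → OnePoint ℚ × OnePoint ℚ → ℂ,
    Q = fun i q => PhiK R e (Pi.single i 1) q.1 q.2 / (U * R.om R.i0) := ⟨_, rfl⟩
  have hgen0 : ∀ i : ι, ∃ (S : Finset (OnePoint ℚ × OnePoint ℚ)) (N : ℕ), N ≠ 0 ∧
      (∀ q ∈ S, Dn N q.1 ∧ Dn N q.2) ∧ ∀ x y, Q i (x, y) ∈ AddSubgroup.closure
        (Q i '' (S : Set (OnePoint ℚ × OnePoint ℚ))) := by
    intro i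
    obtain ⟨T, hTT⟩ := nt_FGV A B hQ (2 * f) ι R (idl (2 * f)) e (idl_ne_bot hQ h2f)
      he.toIsEI (Pi.single i 1) (U * R.om R.i0)
    obtain ⟨S, j0, N0, hN00, -, hSD0, hgen⟩ :=
      fgp (fun x y => PhiK R e (Pi.single i 1) x y / (U * R.om R.i0)) T hTT
    refine ⟨S, 3 ^ j0 * N0, mul_ne_zero (pow_ne_zero _ three_ne_zero) hN00, hSD0, ?_⟩
    rw [hQdef]
    exact hgen
  choose S Nn hNn0 hSD hgen using hgen0
  obtain ⟨j, N, hN2, hjN⟩ := Nat.exists_eq_pow_mul_and_not_dvd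
    (Finset.prod_ne_zero_iff.2 fun i (_ : i ∈ (Finset.univ : Finset ι)) => hNn0 i) 2
    (by norm_num)
  have hNd : ∀ i, Nn i ∣ 2 ^ j * N := fun i => by
    rw [← hjN]
    exact Finset.dvd_prod_of_mem Nn (Finset.mem_univ i)
  have hN0 : N ≠ 0 := by
    rintro rfl
    exact hN2 (dvd_zero 2)
  obtain ⟨m', hm'⟩ : ∃ m', m' = f * N := ⟨_, rfl⟩
  have hm'0 : m' ≠ 0 := by rw [hm']; exact mul_ne_zero hS.f0 hN0
  have hm'2 : ¬ 2 ∣ m' := by
    intro h
    rw [hm'] at h
    rcases (Nat.Prime.dvd_mul Nat.prime_two).1 h with h | h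
    · exact hS.fp h
    · exact hN2 h
  have hfm : f ∣ m' := by rw [hm']; exact Dvd.intro _ rfl
  have h3m : 3 ∣ m' := h3f.trans hfm
  obtain ⟨m, hm⟩ : ∃ m, m = 2 ^ (j + 1) * m' := ⟨_, rfl⟩
  have hm0 : m ≠ 0 := by rw [hm]; exact mul_ne_zero (by positivity) hm'0
  have hmm : m' ∣ m := by rw [hm]; exact dvd_mul_left _ _
  have hpm : 2 * f ∣ m := by
    rw [hm, pow_succ, mul_assoc, mul_comm (2 ^ j)]
    exact (mul_dvd_mul_left 2 hfm).mul_right _
  have hdvd : 2 ^ j * N ∣ m := by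
    rw [hm, hm']
    exact mul_dvd_mul (pow_dvd_pow 2 (Nat.le_succ j)) (Dvd.intro_left _ rfl)
  have hQalg : ∀ i q, IsAlgebraic ℚ (Q i q) := by
    intro i q
    rw [hQdef]
    exact alg_single hQ hT hp h2f R e he.toIsEI hr0 her hUa i q.1 q.2
  -- the field
  set Ts : Set ℂ := (⋃ i, (Q i '' (S i : Set (OnePoint ℚ × OnePoint ℚ)))) ∪
    ((Polynomial.nthRootsFinset r (1 : ℂ) : Finset ℂ) : Set ℂ) with hTs
  have hTfin : Ts.Finite := by
    refine Set.Finite.union (Set.finite_iUnion fun i => ?_) (Finset.finite_toSet _)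
    exact (Finset.finite_toSet (S i)).image _
  have hTalg : ∀ t ∈ Ts, IsAlgebraic ℚ t := by
    rintro t (ht | ht)
    · obtain ⟨i, q, -, rfl⟩ := Set.mem_iUnion.1 ht
      exact hQalg i q
    · rw [Finset.mem_coe, Polynomial.mem_nthRootsFinset (Nat.pos_of_ne_zero hr0)] at ht
      refine ⟨Polynomial.X ^ r - 1, Polynomial.X_pow_sub_C_ne_zero
        (Nat.pos_of_ne_zero hr0) (1 : ℚ), ?_⟩
      simp [ht]
  obtain ⟨F, hFf, hFg, hEF, hTF⟩ := nt_GLC A B hQ (RF (idl (A := A) (B := B) m'))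
    (hT.fin _ (idl_ne_bot hQ hm'0)) Ts hTfin hTalg
  have hrF : ∀ z : ℂ, z ^ r = 1 → z ∈ F := fun z hz => hTF (Or.inr (by
    rw [Finset.mem_coe, Polynomial.mem_nthRootsFinset (Nat.pos_of_ne_zero hr0)]
    exact hz))
  have hQF : ∀ i, ∀ q ∈ S i, Q i q ∈ F := fun i q hq =>
    hTF (Or.inl (Set.mem_iUnion.2 ⟨i, q, hq, rfl⟩))
  have hroot : ∀ σ : ℂ ≃+* ℂ, InI A B V (F : Set ℂ) σ →
      ∀ z : ℂ, (z = 0 ∨ z ^ (2 * r) = 1) → σ z = z := by
    intro σ hσ
    refine rtu2 h2 hr σ ?_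
    intro z hz
    have hz1 : V.valuation z = 1 := RTU.v_root hr0 hz
    have h1 := hσ.iner z (hrF z hz) ((V.valuation_le_one_iff _).1 hz1.le)
    rwa [ValuationSubring.mem_nonunits_iff] at h1
  -- the values are in the inertia field
  have hkey : ∀ σ : ℂ ≃+* ℂ, InI A B V (F : Set ℂ) σ → ∀ i, ∀ q ∈ S i, σ (Q i q) = Q i q := by
    intro σ hσ i q hq
    have hRF := (hR A B P V hC hS.hP hS.hV hT).2 m' hm'0 hm'2 σ hσ.fix
      (fun y hy hyV => hσ.iner y (hEF hy) hyV)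
    obtain ⟨c, d, hc1, hcop, hact⟩ := Pool.Agent.NSTR.tw_ACF y_MUU y_BRI A B hQ hT (2 * f) ι R
      m m' hm0 hmm σ hσ.fix hRF
    have hsu : σ U = d R.i0 * U := by
      rw [hU]
      exact sgu3 hQ R hG hmm h3m σ c d hc1 hact
    have hse : ∀ x, σ (e x) = e x := by
      intro x
      apply hroot σ hσ
      by_cases hx : e x = 0
      · exact Or.inl hx
      · exact Or.inr (her x hx)
    have hsk : ∀ l, σ ((Pi.single i (1 : ℂ) : ι → ℂ) l) = (Pi.single i (1 : ℂ) : ι → ℂ) l := by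
      intro l
      apply hroot σ hσ
      by_cases hl : l = i
      · right
        rw [hl, Pi.single_eq_same, one_pow]
      · left
        exact Pi.single_eq_of_ne hl _
    have hec : e c = 1 := by
      rw [← he.one]
      apply he.cond
      · have h3 := Ideal.isCoprime_iff_exists.1 hcop
        obtain ⟨a, ha, b, hb, hab⟩ := h3
        obtain ⟨a', rfl⟩ := Ideal.mem_span_singleton'.1 ha
        obtain ⟨b', rfl⟩ := Ideal.mem_span_singleton'.1 hb
        obtain ⟨k, hk⟩ := hpm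
        refine ⟨a', b' * ((k : ℕ) : OO A B), ?_⟩
        rw [← hab, hk]
        push_cast
        ring
      · exact isCoprime_one_left
      · exact mem_idl_of_dvd hfm hc1
    have h1 := vak2 hQ hf3 R hp e he.toIsEI hmm hm'0 hm0 hfm hpm σ c d hc1 hact hse
      (Pi.single i 1) hsk U hU0 hsu q.1 q.2 (dn_mono ((hNd i).trans hdvd) (hSD i q hq).1)
      (dn_mono ((hNd i).trans hdvd) (hSD i q hq).2)
    rw [hec, one_mul] at h1
    rw [hQdef]
    exact h1
  have hin : ∀ i x y, Q i (x, y) ∈ KIn A B V F := by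
    intro i x y
    have hle : AddSubgroup.closure (Q i '' (S i : Set (OnePoint ℚ × OnePoint ℚ))) ≤
        (KIn A B V F).toAddSubgroup := by
      rw [AddSubgroup.closure_le]
      rintro _ ⟨q, hq, rfl⟩
      exact ⟨hQF i q hq, fun σ hσ => hkey σ hσ i q hq⟩
    exact hle (hgen i x y)
  have hkin : ∀ z : ℂ, (z = 0 ∨ z ^ (2 * r) = 1) → z ∈ KIn A B V F := by
    intro z hz
    refine ⟨?_, fun σ hσ => hroot σ hσ z hz⟩
    rcases hz with rfl | hz
    · exact F.zero_mem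
    · have h1 : (z ^ r) ^ 2 = 1 := by rw [← pow_mul, mul_comm]; exact hz
      have h3 : (z ^ r - 1) * (z ^ r + 1) = 0 := by linear_combination h1
      rcases mul_eq_zero.1 h3 with h3 | h3
      · exact hrF z (sub_eq_zero.1 h3)
      · replace h3 : z ^ r = -1 := eq_neg_of_add_eq_zero_left h3
        have h4 : (-z) ^ r = 1 := by
          rw [Odd.neg_pow (Nat.odd_iff.2 (by omega)), h3, neg_neg]
        have h5 := F.neg_mem (hrF _ h4)
        rwa [neg_neg] at h5
  refine ⟨a3, KIn A B V F, ?_, ?_, ⟨emb ϖ, ⟨?_, ?_⟩, hϖv⟩, hG.v3⟩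
  · intro kk hkk x y
    refine ⟨∑ i, kk i * Q i (x, y), ?_, ?_⟩
    · exact sum_mem fun i _ => mul_mem (hkin _ (hkk i)) (hin i x y)
    · rw [phiK_sum, hQdef, hU, Finset.sum_div, Finset.mul_sum]
      refine Finset.sum_congr rfl fun i _ => ?_
      have := (R.nl R.i0).om_ne
      field_simp
  · intro w hw hw1
    have h1 := unfP hQ hS.hV hϖ hϖ2 F w hw hw1
    have h3 := pow_le_pow_left₀ zero_le h1 2
    rwa [hϖv] at h3
  · exact F.algebraMap_mem ⟨emb ϖ, MUX.emb_mem ϖ⟩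
  · intro σ hσ
    have h1 : σ (wC A B) = wC A B := hσ.fix
    unfold emb
    rw [map_add, map_mul, map_intCast, map_intCast, h1]

end

end Pool.Agent.N2T


end
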