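import Mathlib
import Pool.Agent.MVF.C041
import Pool.Agent.MVF.C083

/-! Parts: N2.StHT, N2.H_DVT, N2.H_PAIT, N2.H_KYT, N2.H_LOCT, N2.H_TYT, N2.H_H1T, N2.H_SHT, N2.H_HKT, N2.H_BDT, N2.H_HT, N2.HTAll, N2.StHU, N2.HU_DVU, N2.HU_KYU, N2.HU_SHU, N2.HU_HU -/

namespace Pool.Agent.N2H.Dvu
end Pool.Agent.N2H.Dvu
namespace Pool.Agent.N2H.H1T
end Pool.Agent.N2H.H1T
namespace Pool.Agent.N2H.HTG
end Pool.Agent.N2H.HTG
namespace Pool.Agent.N2H.HUG
end Pool.Agent.N2H.HUG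
namespace Pool.Agent.N2H.KYT
end Pool.Agent.N2H.KYT
namespace Pool.Agent.N2H.KYU
end Pool.Agent.N2H.KYU
namespace Pool.Agent.N2H.LocT
end Pool.Agent.N2H.LocT

section

/-!
# MUX-2N, block HT (helper66): PAPER_2N.md, sections 4, 7, 8, abstract. `p = 2`, `2` inert

The twin of block HN (`Pool/Agent/MUX/StHN.lean`, proofs `Pool/Agent/MUX/HN_*.lean`, namespace `Pool.Agent.MUXHN`) for `p = 2`. Nothing here depends on
the field `k`. Every statement is a `def St_X : Prop`; a module proves `theorem tt_X (h : ..) ... : St_X` in `Pool/Agent/N2/H_X.lean`, namespace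
`Pool.Agent.N2H`; the hypotheses are the statements named under USES. `v = V.valuation` (multiplicative). `PTq q P x y = P x y - P (x + 1/q) (y + 1/q)` (DefsT.lean), `sgnPart`, `IsSym`
(`MU3/Base.lean`), `comb` (`MUX/StHX.lean`): `comb a g 1 F b = (a F b - a² F(a² b)) - (a F(g b) - a² F(g a² b))` up to the sign.
-/

set_option autoImplicit false

namespace Pool.Agent.N2H

open _root_.MU3 _root_.Pool.Agent.MuSym _root_.Pool.Agent.MUXH _root_.Pool.Agent.N2 OnePoint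

noncomputable section

/-- the standing hypotheses: `P = Σ_i kk_i PhiI (b_i) / (u Om)`; `KI` a field on which `v` is unramified, all values are in `pi * KI`,
`v(pi)³ v(2)^i = 1`, `i ≤ 2`. -/
structure HypT (V : ValuationSubring ℂ) (N₀ s₀ i : ℕ) (nu : ℤ → ℂ)
    (P : OnePoint ℚ → OnePoint ℚ → ℂ) (pi : ℂ) (KI : Subfield ℂ) : Prop where
  vp : V.valuation (2 : ℂ) < 1
  N0 : 2 ≤ N₀
  cop : Nat.Coprime 2 N₀
  nu1 : nu 1 = 1
  num : ∀ d d', nu (d * d') = nu d * nu d'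
  nuper : ∀ d d', ((2 * N₀ : ℕ) : ℤ) ∣ d - d' → nu d = nu d'
  nuv : ∀ d, V.valuation (nu d) ≤ 1
  sym : IsSym (2 ^ (s₀ + 1) * N₀) nu P
  dep : ∀ x : ℚ, ∑ j ∈ Finset.range 2, P ∞ (((x + j) / 2 : ℚ) : OnePoint ℚ) = 0
  alg : ∀ x y, IsAlgebraic ℚ (P x y)
  fin : ∃ T : Finset ℂ, ∀ x y, P x y ∈ AddSubgroup.closure (T : Set ℂ)
  typ : ∀ x y, ∃ w ∈ KI, P x y = pi * w
  unr : ∀ w ∈ KI, V.valuation w < 1 → V.valuation w ≤ V.valuation (2 : ℂ)
  i2 : i ≤ 2
  vpi : V.valuation pi ^ 3 * V.valuation (2 : ℂ) ^ i = 1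
  /-- Theorem G for `P_(1/16)`, `v(1 - ζ_16)^8 = v 2` -/
  G1 : ∀ N' : ℕ, N' ≠ 0 → 2 ^ (s₀ + 1) * N₀ ∣ N' → ∃ α β γ δ : ℤ, α * δ - β * γ = 1 ∧
    (N' : ℤ) ∣ γ ∧ (N' : ℤ) ∣ δ - 1 ∧
    V.valuation (2 : ℂ) ≤ V.valuation (PTq 16 P ∞ (mob α β γ δ ∞)) ^ 8
  /-- Theorem G for `P_(1/4, 1/16)` -/
  G2 : ∀ N' : ℕ, N' ≠ 0 → 2 ^ (s₀ + 1) * N₀ ∣ N' → ∃ α β γ δ : ℤ, α * δ - β * γ = 1 ∧
    (N' : ℤ) ∣ γ ∧ (N' : ℤ) ∣ δ - 1 ∧
    V.valuation (2 : ℂ) ^ 5 ≤ V.valuation (PTq 16 (PTq 4 P) ∞ (mob α β γ δ ∞)) ^ 8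
  /-- the projector; the integers `q` are odd -/
  prj : ∃ (q : ℕ) (c : ℕ → ℂ), q ≠ 0 ∧ (∀ t, V.valuation (c t) ≤ 1) ∧ ∀ x y : OnePoint ℚ,
    ∑ t ∈ Finset.range q, c t * sgnPart (1 : ℂ) P (mob q t 0 q x) (mob q t 0 q y) = P x y

/-- (BDT) bounded denominators. USES `MUXH.Sx_MAX`, `MUXH.Sx_ALB` (proved: `tx_MAX`, `tx_ALB` in `HX_MAX`, `HX_ALB`).
MODEL: `MUX/HN_BDN.lean` (`2` instead of `3`). -/
def St_BDT : Prop :=
  ∀ (V : ValuationSubring ℂ) (_ : V.valuation (2 : ℂ) < 1) (P : OnePoint ℚ → OnePoint ℚ → ℂ)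
    (_ : ∀ x y, IsAlgebraic ℚ (P x y))
    (_ : ∃ T : Finset ℂ, ∀ x y, P x y ∈ AddSubgroup.closure (T : Set ℂ)),
    ∃ k : ℕ, ∀ x y, V.valuation (2 ^ k * P x y) ≤ 1

/-- (HKT) the part `1` of the symbol. MODEL: `MUX/HN_HKN.lean`. -/
def St_HKT : Prop :=
  ∀ (N' : ℕ) (nu : ℤ → ℂ) (P : OnePoint ℚ → OnePoint ℚ → ℂ) (s : ℂ), IsSym N' nu P → nu 1 = 1 →
    (∀ x : ℚ, ∑ j ∈ Finset.range 2, P ∞ (((x + j) / 2 : ℚ) : OnePoint ℚ) = 0) →
    IsSym N' nu (sgnPart s P) ∧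
    (∀ (r : ℚ) (k : ℤ), sgnPart s P ∞ ((r + k : ℚ) : OnePoint ℚ) =
      sgnPart s P ∞ (r : OnePoint ℚ)) ∧
    ∀ x : ℚ, ∑ j ∈ Finset.range 2, sgnPart s P ∞ (((x + j) / 2 : ℚ) : OnePoint ℚ) = 0

/-- (SHT) `Q_(1/4)` is a symbol with the same character.

PROOF. `τ = mob 4 1 0 4` (`x ↦ x + 1/4`). Additivity: clear. `h = (a b; c d)`, `2^(s+5) N₀ ∣ c`: `a d ≡ 1` modulo `8`, `a`, `d` odd, so `4 ∣ d - a`;
`τ (h x) = h' (τ x)` with `h' = (a + c/4, b + (d - a)/4 - c/16; c, d - c/4)`, integral, determinant 1, `2^(s+1) N₀ ∣ c`, and `nu (d - c/4) = nu d` because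
`2 N₀ ∣ c/4`. Use `mob_mul`-type lemmas as in `MUX/HN_KYN.lean` (there `τ = mob 27 1 0 27`). -/
def St_SHT : Prop :=
  ∀ (N₀ s : ℕ) (nu : ℤ → ℂ) (Q : OnePoint ℚ → OnePoint ℚ → ℂ),
    (∀ d d', ((2 * N₀ : ℕ) : ℤ) ∣ d - d' → nu d = nu d') → IsSym (2 ^ (s + 1) * N₀) nu Q →
    IsSym (2 ^ (s + 5) * N₀) nu (PTq 4 Q)

/-- (H1T) Theorem G for the part `1`.

MODEL: `MUX/HN_H1N.lean`. PROOF. `q`, `c` from `prj`, `h` from `G1` resp. `G2` for `N' q²`. With `T_t = mob q t 0 q` (it commutes on the cusps with the translations by `1/16`, `1/4`):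
`PTq 16 P ∞ (h ∞) = Σ_t c_t PTq 16 (sgnPart 1 P) ∞ (h_t ∞)`, `T_t (h ∞) = h_t ∞`, `h_t = (α + t γ/q, β + t (δ - α)/q - t² γ/q²; γ, δ - t γ/q)`, integral and in `Γ₁(N')`. If all terms were
smaller than the bound then so would the sum be. The same for `PTq 16 (PTq 4 P)`. -/
def St_H1T : Prop :=
  ∀ (V : ValuationSubring ℂ) (N₀ s₀ i : ℕ) (nu : ℤ → ℂ) (P : OnePoint ℚ → OnePoint ℚ → ℂ)
    (pi : ℂ) (KI : Subfield ℂ), HypT V N₀ s₀ i nu P pi KI →
    ∀ N' : ℕ, N' ≠ 0 → 2 ^ (s₀ + 1) * N₀ ∣ N' →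
    (∃ α β γ δ : ℤ, α * δ - β * γ = 1 ∧ (N' : ℤ) ∣ γ ∧ (N' : ℤ) ∣ δ - 1 ∧
      V.valuation (2 : ℂ) ≤ V.valuation (PTq 16 (sgnPart (1 : ℂ) P) ∞ (mob α β γ δ ∞)) ^ 8) ∧
    ∃ α β γ δ : ℤ, α * δ - β * γ = 1 ∧ (N' : ℤ) ∣ γ ∧ (N' : ℤ) ∣ δ - 1 ∧
      V.valuation (2 : ℂ) ^ 5 ≤
        V.valuation (PTq 16 (PTq 4 (sgnPart (1 : ℂ) P)) ∞ (mob α β γ δ ∞)) ^ 8

/-- (TYT) arithmetic of types.

PROOF. `t = v 2`, `0 < t < 1`, `v(pi)³ t^i = 1`, so `v pi ≥ 1`. If `v w < 1` then `v w ≤ t`. (1) If `1 < v w` then `v(w⁻¹) < 1`, so `v(w⁻¹) ≤ t`, `t v(w) ≥ 1`. (2) `x = pi w`, `v(x)³ t^i = v(w)³`: so `1 ≤ v(x)³ t^i` iff `1 ≤ v w`.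
(3) `i = 2`, `t ≤ v(x)^8`: if `v w ≤ t` then `v(x)^24 t^16 = v(w)^24 ≤ t^24`, and `v(x)^24 ≥ t³`: `t^19 ≤ t^24`, contradiction. (4) `i ≤ 1`, `t^5 ≤ v(x)^8`: if `v w ≤ t` then `t^15 t^(8 i) ≤ v(x)^24 t^(8 i) = v(w)^24 ≤ t^24`, but `15 + 8 i ≤ 23`. -/
def St_TYT : Prop :=
  ∀ (V : ValuationSubring ℂ) (_ : V.valuation (2 : ℂ) < 1) (KI : Subfield ℂ)
    (_ : ∀ w ∈ KI, V.valuation w < 1 → V.valuation w ≤ V.valuation (2 : ℂ)) (i : ℕ) (_ : i ≤ 2)
    (pi : ℂ) (_ : V.valuation pi ^ 3 * V.valuation (2 : ℂ) ^ i = 1),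
    1 ≤ V.valuation pi ∧ ∀ w ∈ KI,
    (1 < V.valuation w → 1 ≤ V.valuation w * V.valuation (2 : ℂ)) ∧
    (1 ≤ V.valuation (pi * w) ^ 3 * V.valuation (2 : ℂ) ^ i ↔ 1 ≤ V.valuation w) ∧
    (i = 2 → V.valuation (2 : ℂ) ≤ V.valuation (pi * w) ^ 8 → 1 ≤ V.valuation w) ∧
    (i ≤ 1 → V.valuation (2 : ℂ) ^ 5 ≤ V.valuation (pi * w) ^ 8 → 1 ≤ V.valuation w)

/-- (LOCT) if the combinations are in `m` then `z` is locally constant modulo `m` on the odd numbers, uniformly in the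
level. `m` is any `V`-submodule of `ℂ`.

MODEL: `MUX/HN_LOC.lean` with `2` instead of `3`; `4 ∣ α - 1`, `4 ∣ g - 1` (`Q0 2`, see `MUX/HX_STP.lean` for the step `u^(2^j) ≡ 1 + 2^(e+j) w`, `w` odd, `e ≥ 2`). PROOF. Write `E_u y (b) = y (u b)` and `x ≡ y` for `x - y ∈ m`. `comb α g N z = ± A (E_g - 1)^N z`, `A y = α y - α² E_(α²) y`.
(1) Let `y n = (E_g - 1)^N (z n)`: `α y (b) ≡ α² y (α² b)` for `b` odd, `n ≥ n₀`; `α` is a unit of
`V`, so `y (α^(2 i) b) ≡ α^(-i) y (b)`; for `2^k ∣ i`: `α^i - 1` is divisible by `2^k` and `2^k y ∈ m`: `y (α^(2 i) b) ≡ y (b)`.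
Let `e ≥ 2` be the exponent of `2` in `α² - 1` (`α ≠ ±1`). For every `n` the powers of `α^(2 2^k)` are, modulo `2^n`, all classes `≡ 1`
modulo `2^(e+k)`. So `y n b ≡ y n b'` for
`2^(e+k) ∣ b - b'`, `b` odd. (2) Step down: if `y' = E_g y - y` is locally constant (mod `2^r`) then so is `y`: let `u = g^(2^r)`
(`2^r ∣ u - 1`), `S (b) = Σ_(i < 2^r) y' (g^i b)`: `y (u b) - y (b) = S (b)`, `S (u b) ≡ S (b)`, so `y (u^j b) - y (b) ≡ j S (b)`, which is in
`m` for `2^(k+1) ∣ j`; the powers of `u^(2^(k+1))` are all classes `≡ 1` modulo `2^(r')`. Induction on `N`. -/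
def St_LOCT : Prop :=
  ∀ (V : ValuationSubring ℂ) (_ : V.valuation (2 : ℂ) < 1) (m : Submodule V ℂ) (z : ℕ → ℤ → ℂ)
    (k n₀ : ℕ) (_ : ∀ (n : ℕ) (b c : ℤ), (2 : ℤ) ^ n ∣ b - c → z n b = z n c)
    (_ : ∀ n b, (2 : ℂ) ^ k * z n b ∈ m) (α g : ℤ) (_ : (4 : ℤ) ∣ α - 1) (_ : α ≠ 1)
    (_ : (4 : ℤ) ∣ g - 1) (_ : g ≠ 1) (N : ℕ)
    (_ : ∀ n, n₀ ≤ n → ∀ b : ℤ, ¬ (2 : ℤ) ∣ b → comb α g N (z n) b ∈ m),
    ∃ r : ℕ, ∀ n, n₀ ≤ n → ∀ b b' : ℤ, ¬ (2 : ℤ) ∣ b → (2 : ℤ) ^ r ∣ b - b' →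
      z n b - z n b' ∈ m

/-- (PAIT) the value at a pair of determinant `2^n`. MODEL: `MUX/HN_PAI.lean`. -/
def St_PAIT : Prop :=
  ∀ (N' : ℕ) (nu : ℤ → ℂ) (Q : OnePoint ℚ → OnePoint ℚ → ℂ), IsSym N' nu Q →
    ∀ (n : ℕ) (a b c d : ℤ), c ≠ 0 → d ≠ 0 → IsCoprime a c → (N' : ℤ) ∣ c →
      a * d - b * c = 2 ^ n → ∃ e : ℤ, (2 : ℤ) ^ n ∣ a * e - b ∧
      nu a * Q (((a : ℚ) / c : ℚ) : OnePoint ℚ) (((b : ℚ) / d : ℚ) : OnePoint ℚ) =
        Q ∞ (((e : ℚ) / 2 ^ n : ℚ) : OnePoint ℚ)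

/-- (KYT) from locally constant values to vanishing closed cycles of `Q_(1/16)`.

USES PAIT, `NSY.key0_two` (file `Pool/Agent/NS/Y_Key0.lean`). MODEL: `MUX/HN_KYN.lean`. PROOF. `M = ℂ ⧸ m` (`m` as an additive group; it is a `V`-submodule, so an odd integer `q`,
a unit of `V`, has no torsion). `R = 8 + (s₀ + 1) + r + 1`, `Φ x y` = the class of `PTq 16 Q x y`. `inv` for `Γ₁(2^R N₀)`: `τ h τ⁻¹ =
(a + c/16, b + (d - a)/16 - c/256; c, d - c/16)` is integral (`2^R ∣ c`, `d - 1`, `a - 1`) and in `Γ₀(2^(s₀+1) N₀)` with lower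
right entry `≡ 1` modulo `2 N₀`; `nu = 1` for it and for `h`. (A), `n ≥ n₁ := n₀ + r + 5`: `(a, c)`, `(b, d)` as in `key0_two`; `2` divides `c`, so
`a` is odd; `a` is prime to `N₀`; `d = (2^n + b c)/a`, so `2^(r+5) ∣ d` and `b` is odd. PAIT for `Q`: `nu a Q u w = Q ∞ (e/2^n)`, `a e ≡ b` modulo
`2^n`. PAIT for `u + t = (a + c/16, c)`, `w + t = (b + d/16, d)` (primitive, same determinant, `nu (a + c/16) = nu a`):
`nu a Q (u+t) (w+t) = Q ∞ (e'/2^n)`, `(a + c/16) e' ≡ b + d/16`. Modulo `2^(r+1)`: `a e' ≡ b ≡ a e`, so `2^r ∣ e - e'`, `e` is odd, and the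
difference `Q ∞ (e/2^n) - Q ∞ (e'/2^n)` is in `m`; divide by the unit `nu a`. (A0): `b/2^n + 1/16 = (b + 2^(n-4))/2^n`. -/
def St_KYT : Prop :=
  ∀ (V : ValuationSubring ℂ) (_ : V.valuation (2 : ℂ) < 1) (m : Submodule V ℂ) (N₀ s₀ : ℕ)
    (nu : ℤ → ℂ) (Q : OnePoint ℚ → OnePoint ℚ → ℂ) (_ : 2 ≤ N₀) (_ : Nat.Coprime 2 N₀)
    (_ : nu 1 = 1) (_ : ∀ d d', ((2 * N₀ : ℕ) : ℤ) ∣ d - d' → nu d = nu d')
    (_ : ∀ d, IsCoprime d ((2 * N₀ : ℕ) : ℤ) → V.valuation (nu d) = 1)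
    (_ : IsSym (2 ^ (s₀ + 1) * N₀) nu Q) (r n₀ : ℕ)
    (_ : ∀ n, n₀ ≤ n → ∀ b b' : ℤ, ¬ (2 : ℤ) ∣ b → (2 : ℤ) ^ r ∣ b - b' →
      Q ∞ (((b : ℚ) / 2 ^ n : ℚ) : OnePoint ℚ) - Q ∞ (((b' : ℚ) / 2 ^ n : ℚ) : OnePoint ℚ) ∈ m),
    ∃ R : ℕ, ∀ a b c d : ℤ, a * d - b * c = 1 → (2 : ℤ) ^ R * N₀ ∣ c →
      (2 : ℤ) ^ R * N₀ ∣ d - 1 → ∀ x, PTq 16 Q x (mob a b c d x) ∈ m

/-- (DVT) the character sums of a depleted function with values of one type.

MODEL: `MUX/HN_DVN.lean`. PROOF. `t = v 2`. Let `y b* ≠ 0` have maximal valuation among the `y b` (finitely many classes), `W b = y b/y b* ∈ K ∩ V`, `W b* = 1`; we may take `0 ≤ b* < q`, `q = 2^n`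
(`y (b + q) = - y b`). `ζ^q = -1`, so `Σ_(b < 2q) ζ^b y b = 2 y b* Σ_(b < q) ζ^b W b`. Write (Newton
expansion, `shift_pow` of `MU3/H_HZ.lean`) `P(T) = Σ_(b < q) W b T^b`, `P(1 + X) = Σ_(i < q) c_i X^i`, `c_i ∈ K ∩ V`. Some `c_i` is a unit (otherwise, as `W b = ± Σ binom.. c_i` is an integral combination of the `c_i`, `v(W b*) < 1`). Let `i₀` be the smallest `i` with
`v c_i = 1`; for `i < i₀`: `v c_i < 1`, so `v c_i ≤ t`. `x = v(ζ - 1)`: `x^q = t` (`ζ` of order `2^(n+1)`), `x < 1`. So `v(P(ζ)) = x^(i₀) > x^q = t`: (1) `v(Σ) > t² v(y b*)`.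
(2) (`n ≥ 1`, `q' = q/2`.) CLAIM: `i₀ < q'` if some difference `y (b₁ + q') - y b₁` has maximal valuation. Otherwise `(T - 1)^(q')` divides `P` modulo the maximal ideal, `(T-1)^(q') = T^(q') + 1` (characteristic 2), so `P = (T^(q') + 1) P₁` modulo it, `deg P₁ < q'`: `W (b + q') ≡ W b` modulo the maximal
ideal for `0 ≤ b < q'`, and then for all `b` (`W (b + q) = - W b ≡ W b + 2 (..)`): so `v(y (b₁ + q') - y b₁) < v(y b*)`, but it is `≥ v(y b*)`. (Direct form: if `c_i` is in the maximal ideal for `i < q'` then the coefficients `W b`, `b < q`, of `P(T) = Σ_i c_i (T-1)^i ≡ Σ_(q' ≤ i < q) c_i (T^(q') + 1)(T - 1)^(i - q')`.)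
Then `v(Σ)² = t² v(y b*)² x^(2 i₀) > t² v(y b*)² x^(2 q') = t³ v(y b*)²`. -/
def St_DVT : Prop :=
  ∀ (V : ValuationSubring ℂ) (_ : V.valuation (2 : ℂ) < 1) (K : Subfield ℂ)
    (_ : ∀ w ∈ K, V.valuation w < 1 → V.valuation w ≤ V.valuation (2 : ℂ)) (n : ℕ) (_ : 1 ≤ n)
    (y : ℤ → ℂ)
    (_ : ∀ b c : ℤ, (2 : ℤ) ^ (n + 1) ∣ b - c → y b = y c)
    (_ : ∀ b : ℤ, y (b + 2 ^ n) = -y b)
    (_ : ∀ b b' : ℤ, y b' ≠ 0 → y b / y b' ∈ K) (b₀ : ℤ) (_ : y b₀ ≠ 0)
    (ζ : ℂ) (_ : IsPrimitiveRoot ζ (2 ^ (n + 1))),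
    V.valuation (2 : ℂ) ^ 2 * V.valuation (y b₀) <
      V.valuation (∑ b ∈ Finset.range (2 ^ (n + 1)), ζ ^ b * y b) ∧
    ∀ b₁ : ℤ, (∀ b, V.valuation (y b) ≤ V.valuation (y (b₁ + 2 ^ (n - 1)) - y b₁)) →
      V.valuation (2 : ℂ) ^ 3 * V.valuation (y b₀) ^ 2 <
        V.valuation (∑ b ∈ Finset.range (2 ^ (n + 1)), ζ ^ b * y b) ^ 2

/-- (HT) the conclusion of the block: infinitely many levels with large character sums.

USES BDT, HKT, SHT, H1T, TYT, LOCT, KYT, DVT. MODEL: `MUX/HN_HN.lean`. PROOF (helper66, glue). `t = v 2`, `Q = sgnPart 1 P`, `z n b = Q ∞ (b/2^n)`. Suppose that for some `n₀` and all `n ≥ n₀` there is `ζ` with `v(Σ)² ≤ t³`. Let `n ≥ n₀`, `n ≥ 3`,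
`Y b = comb α g 1 (z n) b`: period `2^n`, `Y (b + 2^(n-1)) = - Y b`, values in `pi KI`.
`i = 2`: `m = {x : v(x)³ t² < 1}`. If `Y b ∉ m` then `v(Y b)³ t² ≥ 1`, DVT (1): `v(Σ)³ > t⁶ v(Y b)³ ≥ t⁴`, `v(Σ)⁶ > t⁸ > t⁹`, contradiction. So all `Y b ∈ m`, LOCT, KYT for `Q`, H1T (1), TYT (3): contradiction.
`i ≤ 1`: `m = {x : v(x)³ t^i < 1}`. `Y b = pi w_b`. If `v w_b > 1` then `v w_b t ≥ 1`, `v(Y b) t ≥ v pi ≥ 1`, DVT (1): `v(Σ) > t`, contradiction. So `v(Y b) ≤ v pi` for all `b`. If `Y (b₁ + 2^(n-2)) - Y b₁ = pi w'` is not in `m` then `v w' ≥ 1`, so it has maximal valuation and is `≥ v pi ≥ 1`, one of `Y (b₁ + 2^(n-2))`, `Y b₁`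
has valuation `≥ 1`, DVT (2): `v(Σ)² > t³`: contradiction. So all differences are in `m`. With `Q' = PTq 4 Q` (SHT), `z' n b = Q' ∞ (b/2^n) = z n b - z n (b + 2^(n-2))`: `comb α g 1 (z' n) b = Y b - Y (b + 2^(n-2))` (because `α² 2^(n-2) ≡ g 2^(n-2) ≡ 2^(n-2)` modulo `2^n`) is in `m`. LOCT, KYT for `Q'`, H1T (2), TYT (4): contradiction. -/
def St_HT : Prop :=
  ∀ (V : ValuationSubring ℂ) (N₀ s₀ i : ℕ) (nu : ℤ → ℂ) (P : OnePoint ℚ → OnePoint ℚ → ℂ)
    (pi : ℂ) (KI : Subfield ℂ), HypT V N₀ s₀ i nu P pi KI →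
    ∀ (α g : ℤ), (4 : ℤ) ∣ α - 1 → α ≠ 1 → (4 : ℤ) ∣ g - 1 → g ≠ 1 → ∀ n₀ : ℕ,
      ∃ n, n₀ ≤ n ∧ ∀ ζ : ℂ, IsPrimitiveRoot ζ (2 ^ n) →
        V.valuation (2 : ℂ) ^ 3 < V.valuation (∑ b ∈ Finset.range (2 ^ n), ζ ^ b *
          comb α g 1 (fun b => sgnPart (1 : ℂ) P ∞ (((b : ℚ) / 2 ^ n : ℚ) : OnePoint ℚ)) b) ^ 2

end

end Pool.Agent.N2H


end

section

/-!
# MUX-2N, block HT, module DVT (helper11)

The character sums of a depleted function with values of one type: `tt_DVT : St_DVT`. Twin of `MUX/HN_DVN.lean`.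
-/

set_option autoImplicit false

namespace Pool.Agent.N2H

open _root_.MU3 _root_.Pool.Agent.MuSym _root_.Pool.Agent.MUXH _root_.Pool.Agent.N2 OnePoint

noncomputable section

open _root_.Pool.Agent.MUXH.Hz in
theorem tt_DVT : St_DVT := by
  intro V hV K hK n hn y hper hneg hyK b₀ hb₀ ζ hζ
  obtain ⟨m, rfl⟩ : ∃ m, n = m + 1 := ⟨n - 1, by omega⟩
  rw [Nat.add_sub_cancel]
  obtain ⟨e, he⟩ : ∃ e : ℕ, e = 2 ^ m := ⟨_, rfl⟩
  obtain ⟨q, hq⟩ : ∃ q : ℕ, q = 2 ^ (m + 1) := ⟨_, rfl⟩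
  have hqe : q = 2 * e := by rw [hq, he, pow_succ]; ring
  have hepos : 0 < e := by rw [he]; positivity
  have hqpos : 0 < q := by omega
  have hN : 2 ^ (m + 1 + 1) = 2 * q := by rw [hq, pow_succ]; ring
  have hNz : (2 : ℤ) ^ (m + 1 + 1) = ((2 * q : ℕ) : ℤ) := by rw [← hN]; push_cast; rfl
  have ht0 : (0 : V.ValueGroup) < V.valuation (2 : ℂ) :=
    lt_of_le_of_ne zero_le ((Valuation.ne_zero_iff _).2 (by norm_num)).symm
  have hnegN : ∀ b : ℕ, y ((b + q : ℕ) : ℤ) = -y b := by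
    intro b
    rw [← hneg b, hq]
    push_cast
    rfl
  have hnegZ : ∀ b : ℤ, y (b + 2 ^ m + 2 ^ m) = -y b := by
    intro b
    rw [← hneg b]
    congr 1
    rw [pow_succ]
    ring
  have red : ∀ b : ℤ, ∃ c : ℕ, c < 2 * q ∧ (2 : ℤ) ^ (m + 1 + 1) ∣ b - c := by
    intro b
    have hpos : (0 : ℤ) < (2 : ℤ) ^ (m + 1 + 1) := by positivity
    have h0 := Int.emod_nonneg b hpos.ne'
    have h1 := Int.emod_lt_of_pos b hpos
    refine ⟨(b % (2 : ℤ) ^ (m + 1 + 1)).toNat, ?_, ?_⟩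
    · have h3 : (((b % (2 : ℤ) ^ (m + 1 + 1)).toNat : ℕ) : ℤ) < ((2 * q : ℕ) : ℤ) := by
        rw [Int.toNat_of_nonneg h0, ← hNz]
        exact h1
      exact_mod_cast h3
    · rw [Int.toNat_of_nonneg h0]
      have := Int.emod_add_mul_ediv b ((2 : ℤ) ^ (m + 1 + 1))
      exact ⟨b / (2 : ℤ) ^ (m + 1 + 1), by linarith⟩
  -- the maximal value
  obtain ⟨bs, hbs, hmax⟩ := Finset.exists_max_image (Finset.range q)
    (fun b : ℕ => V.valuation (y b)) ⟨0, Finset.mem_range.2 hqpos⟩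
  have hall : ∀ b : ℤ, V.valuation (y b) ≤ V.valuation (y bs) := by
    intro b
    obtain ⟨c, hc, hcb⟩ := red b
    rw [hper _ _ hcb]
    rcases lt_or_ge c q with h | h
    · exact hmax c (Finset.mem_range.2 h)
    · have h1 : c = (c - q) + q := by omega
      rw [h1, hnegN, Valuation.map_neg]
      exact hmax _ (Finset.mem_range.2 (by omega))
  have hvb0 : (0 : V.ValueGroup) < V.valuation (y b₀) :=
    lt_of_le_of_ne zero_le ((Valuation.ne_zero_iff _).2 hb₀).symm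
  have hvs0 : (0 : V.ValueGroup) < V.valuation (y bs) := lt_of_lt_of_le hvb0 (hall b₀)
  have hys0 : y bs ≠ 0 := fun h => by
    rw [h, map_zero] at hvs0
    exact lt_irrefl _ hvs0
  obtain ⟨W, hWdef⟩ : ∃ W : ℕ → ℂ, ∀ b, W b = y b / y bs := ⟨_, fun _ => rfl⟩
  have hWK : ∀ b, W b ∈ K := fun b => by
    rw [hWdef]
    exact hyK b bs hys0
  have hW1 : ∀ b, V.valuation (W b) ≤ 1 := by
    intro b
    rw [hWdef, map_div₀]
    exact div_le_one_of_le₀ (hall b) zero_le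
  have hWs : W bs = 1 := by
    rw [hWdef]
    exact div_self hys0
  have hyW : ∀ b : ℕ, y b = y bs * W b := by
    intro b
    rw [hWdef]
    field_simp
  obtain ⟨c, hc⟩ : ∃ c : ℕ → ℂ, ∀ k, c k =
      ∑ b ∈ Finset.range q, ((b.choose k : ℕ) : ℂ) * W b := ⟨_, fun _ => rfl⟩
  have hcK : ∀ k, c k ∈ K := fun k => by
    rw [hc]
    exact sum_mem fun b _ => mul_mem (natCast_mem K _) (hWK _)
  have hc1 : ∀ k, V.valuation (c k) ≤ 1 := fun k => by
    rw [hc]
    refine Valuation.map_sum_le _ fun b _ => ?_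
    rw [map_mul]
    exact mul_le_one' (val_nat V _) (hW1 _)
  have hnewton : ∀ f : ℕ → ℤ, ∑ b ∈ Finset.range q, (f b : ℂ) * W b =
      ∑ k ∈ Finset.range q, (((fwdDiff 1)^[k] f 0 : ℤ) : ℂ) * c k := by
    intro f
    rw [newton q W f]
    refine Finset.sum_congr rfl fun k _ => ?_
    rw [hc]
  have hex1 : ∃ k, k < q ∧ V.valuation (c k) = 1 := by
    by_contra hcon
    have hlt : ∀ k < q, V.valuation (c k) < 1 := fun k hk =>
      lt_of_le_of_ne (hc1 k) fun h => hcon ⟨k, hk, h⟩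
    have h1 := hnewton (fun b => if b = bs then 1 else 0)
    have h2 : ∑ b ∈ Finset.range q, (((if b = bs then 1 else 0 : ℤ)) : ℂ) * W b
        = W bs := by
      rw [Finset.sum_eq_single bs]
      · simp
      · intro b _ hb
        rw [if_neg hb]
        simp
      · intro h
        exact absurd hbs h
    rw [h2] at h1
    have h3 : V.valuation (W bs) < 1 := by
      rw [h1]
      refine Valuation.map_sum_lt _ one_ne_zero fun k hk => ?_
      rw [map_mul]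
      exact lt_of_le_of_lt (mul_le_of_le_one_left' (val_int V _))
        (hlt k (Finset.mem_range.1 hk))
    rw [hWs, map_one] at h3
    exact lt_irrefl _ h3
  classical
  obtain ⟨hk₀, hk₁⟩ := Nat.find_spec hex1
  obtain ⟨k₀, hk₀def⟩ : ∃ k₀, k₀ = Nat.find hex1 := ⟨_, rfl⟩
  rw [← hk₀def] at hk₀ hk₁
  have hmin1 : ∀ k < k₀, V.valuation (c k) < 1 := by
    intro k hk
    refine lt_of_le_of_ne (hc1 k) fun h => ?_
    rw [hk₀def] at hk
    exact Nat.find_min hex1 hk ⟨lt_trans hk (by rw [← hk₀def]; exact hk₀), h⟩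
  have hmin : ∀ k < k₀, V.valuation (c k) ≤ V.valuation (2 : ℂ) := fun k hk =>
    hK _ (hcK k) (hmin1 k hk)
  -- the valuation of `ζ - 1`
  have hx : V.valuation (ζ - 1) ^ q = V.valuation (2 : ℂ) := by
    have := val_p 2 Nat.prime_two V (m + 1) ζ hζ
    rw [show 2 ^ (m + 1) * (2 - 1) = q by rw [hq]; omega] at this
    simpa using this
  obtain ⟨x, hxdef⟩ : ∃ x, x = V.valuation (ζ - 1) := ⟨_, rfl⟩
  rw [← hxdef] at hx
  have hx0 : 0 < x := by
    rw [hxdef]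
    refine lt_of_le_of_ne zero_le fun h => ?_
    rw [hxdef, ← h, zero_pow (by omega)] at hx
    exact ht0.ne hx
  have hx1 : x < 1 := by
    by_contra h
    have h1 : 1 ≤ x := not_lt.1 h
    have : 1 ≤ x ^ q := one_le_pow₀ h1
    rw [hx] at this
    exact absurd this (not_le.2 hV)
  have hval : V.valuation (∑ b ∈ Finset.range q, ζ ^ b * W b) = x ^ k₀ := by
    rw [shift_pow q W ζ]
    have hsc : ∑ k ∈ Finset.range q, (ζ - 1) ^ k *
        ∑ b ∈ Finset.range q, ((b.choose k : ℕ) : ℂ) * W b =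
        ∑ k ∈ Finset.range q, (ζ - 1) ^ k * c k :=
      Finset.sum_congr rfl fun k _ => by rw [hc]
    rw [hsc]
    have hk₀N : k₀ ∈ Finset.range q := Finset.mem_range.2 hk₀
    rw [← Finset.add_sum_erase _ _ hk₀N]
    have ha : V.valuation ((ζ - 1) ^ k₀ * c k₀) = x ^ k₀ := by
      rw [map_mul, map_pow, hk₁, mul_one, hxdef]
    have hb : V.valuation (∑ k ∈ (Finset.range q).erase k₀, (ζ - 1) ^ k * c k)
        < x ^ k₀ := by
      refine Valuation.map_sum_lt _ (pow_pos hx0 k₀).ne' fun k hk => ?_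
      have hne := Finset.ne_of_mem_erase hk
      rw [map_mul, map_pow, ← hxdef]
      rcases lt_or_gt_of_ne hne with hlt | hgt
      · refine lt_of_le_of_lt (mul_le_of_le_one_left' (pow_le_one' hx1.le k)) ?_
        refine lt_of_le_of_lt (hmin k hlt) ?_
        rw [← hx]
        exact pow_lt_pow_right_of_lt_one₀ hx0 hx1 hk₀
      · refine lt_of_le_of_lt (mul_le_of_le_one_right' (hc1 k)) ?_
        exact pow_lt_pow_right_of_lt_one₀ hx0 hx1 hgt
    have := Valuation.map_add_eq_of_lt_left V.valuation (x := (ζ - 1) ^ k₀ * c k₀)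
      (y := ∑ k ∈ (Finset.range q).erase k₀, (ζ - 1) ^ k * c k) (by rw [ha]; exact hb)
    rw [this, ha]
  have hζq : ζ ^ q = -1 := by
    have h1 : IsPrimitiveRoot (ζ ^ q) 2 := by
      refine hζ.pow (by positivity) ?_
      rw [hN]
      ring
    exact h1.eq_neg_one_of_two_right
  -- the sum
  have hsum : ∑ b ∈ Finset.range (2 ^ (m + 1 + 1)), ζ ^ b * y b =
      2 * (y bs * ∑ b ∈ Finset.range q, ζ ^ b * W b) := by
    rw [hN, show 2 * q = q + q by ring, Finset.sum_range_add]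
    have h1 : ∀ b ∈ Finset.range q, ζ ^ (q + b) * y ((q + b : ℕ) : ℤ) = ζ ^ b * y b := by
      intro b _
      rw [pow_add, hζq, add_comm q b, hnegN]
      ring
    have h2 : ∑ b ∈ Finset.range q, ζ ^ b * y b =
        y bs * ∑ b ∈ Finset.range q, ζ ^ b * W b := by
      rw [Finset.mul_sum]
      refine Finset.sum_congr rfl fun b _ => ?_
      rw [hyW b]
      ring
    rw [Finset.sum_congr rfl h1, h2]
    ring
  have hvsum : V.valuation (∑ b ∈ Finset.range (2 ^ (m + 1 + 1)), ζ ^ b * y b) =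
      V.valuation (2 : ℂ) * V.valuation (y bs) * x ^ k₀ := by
    rw [hsum, map_mul, map_mul, hval, mul_assoc]
  rw [hvsum]
  constructor
  · have h2 : V.valuation (2 : ℂ) < x ^ k₀ := by
      conv_lhs => rw [← hx]
      exact pow_lt_pow_right_of_lt_one₀ hx0 hx1 hk₀
    calc V.valuation (2 : ℂ) ^ 2 * V.valuation (y b₀)
        ≤ V.valuation (2 : ℂ) ^ 2 * V.valuation (y bs) := mul_le_mul_right (hall b₀) _
      _ = V.valuation (2 : ℂ) * V.valuation (y bs) * V.valuation (2 : ℂ) := by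
          rw [pow_two, mul_assoc, mul_assoc, mul_comm (V.valuation (y bs)) (V.valuation (2 : ℂ))]
      _ < V.valuation (2 : ℂ) * V.valuation (y bs) * x ^ k₀ :=
          mul_lt_mul_of_pos_left h2 (mul_pos ht0 hvs0)
  · intro b₁ hb₁
    have hke : k₀ < e := by
      by_contra hcon
      have hlt : ∀ k < e, V.valuation (c k) < 1 := fun k hk =>
        hmin1 k (lt_of_lt_of_le hk (not_lt.1 hcon))
      -- `W r + W (r + e)` is small
      have hS0 : ∀ r : ℕ, r < e → V.valuation (W r + W (r + e)) < 1 := by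
        intro r hr
        have h1 := hnewton (fun b => if b % 2 ^ m = r then 1 else 0)
        have h2 : ∑ b ∈ Finset.range q, (((if b % 2 ^ m = r then 1 else 0 : ℤ)) : ℂ) * W b
            = W r + W (r + e) := by
          rw [hqe, show 2 * e = e + e by ring, Finset.sum_range_add]
          congr 1
          · rw [Finset.sum_eq_single r]
            · rw [Nat.mod_eq_of_lt (by rw [← he]; exact hr)]
              simp
            · intro b hb hbr
              rw [Nat.mod_eq_of_lt (by rw [← he]; exact Finset.mem_range.1 hb), if_neg hbr]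
              simp
            · intro h
              exact absurd (Finset.mem_range.2 hr) h
          · rw [Finset.sum_eq_single r]
            · rw [← he, Nat.add_mod_left, Nat.mod_eq_of_lt hr, add_comm e r]
              simp
            · intro b hb hbr
              rw [← he, Nat.add_mod_left, Nat.mod_eq_of_lt (Finset.mem_range.1 hb), if_neg hbr]
              simp
            · intro h
              exact absurd (Finset.mem_range.2 hr) h
        rw [h2] at h1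
        rw [h1]
        refine Valuation.map_sum_lt _ one_ne_zero fun k _ => ?_
        rw [map_mul]
        rcases lt_or_ge k e with hk | hk
        · exact lt_of_le_of_lt (mul_le_of_le_one_left' (val_int V _)) (hlt k hk)
        · have h5 := dvd_diff 2 Nat.prime_two m (fun b => if b % 2 ^ m = r then 1 else 0)
            (fun b => by simp) k (by rw [← he]; exact hk) 0
          obtain ⟨w, hw⟩ := h5
          rw [hw]
          push_cast
          rw [map_mul]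
          refine lt_of_le_of_lt (mul_le_of_le_one_right' (hc1 k)) ?_
          exact lt_of_le_of_lt (mul_le_of_le_one_right' (val_int V _)) hV
      have hS1 : ∀ r : ℕ, r < e →
          V.valuation (y (r : ℤ) + y ((r : ℤ) + 2 ^ m)) < V.valuation (y bs) := by
        intro r hr
        have h1 : (r : ℤ) + 2 ^ m = ((r + e : ℕ) : ℤ) := by rw [he]; push_cast; rfl
        rw [h1, hyW r, hyW (r + e), ← mul_add, map_mul]
        exact mul_lt_of_lt_one_right hvs0 (hS0 r hr)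
      have hS2 : ∀ b : ℤ, V.valuation (y b + y (b + 2 ^ m)) < V.valuation (y bs) →
          V.valuation (y (b + 2 ^ m) - y b) < V.valuation (y bs) := by
        intro b hb
        have h1 : y (b + 2 ^ m) - y b = (y b + y (b + 2 ^ m)) - 2 * y b := by ring
        rw [h1]
        refine lt_of_le_of_lt (Valuation.map_sub _ _ _) (max_lt hb ?_)
        rw [map_mul]
        exact lt_of_le_of_lt (mul_le_mul_right (hall b) _) (mul_lt_of_lt_one_left hvs0 hV)
      have hS3 : ∀ (j r : ℕ), r < e → V.valuation (y ((r : ℤ) + j * 2 ^ m) +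
          y ((r : ℤ) + j * 2 ^ m + 2 ^ m)) < V.valuation (y bs) := by
        intro j
        induction j with
        | zero =>
          intro r hr
          simpa using hS1 r hr
        | succ j ih =>
          intro r hr
          have h1 := hS2 _ (ih r hr)
          have h2 : (r : ℤ) + ((j + 1 : ℕ) : ℤ) * 2 ^ m = (r : ℤ) + j * 2 ^ m + 2 ^ m := by
            push_cast
            ring
          rw [h2, hnegZ, ← sub_eq_add_neg]
          exact h1
      obtain ⟨d, _, hdb⟩ := red b₁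
      have h6 := hS3 (d / e) (d % e) (Nat.mod_lt _ hepos)
      have h7 : ((d % e : ℕ) : ℤ) + ((d / e : ℕ) : ℤ) * 2 ^ m = d := by
        have h8 := Nat.mod_add_div d e
        have h9 : (((d % e + e * (d / e) : ℕ)) : ℤ) = (d : ℤ) := by rw [h8]
        have h10 : (e : ℤ) = 2 ^ m := by rw [he]; push_cast; rfl
        rw [← h9, ← h10]
        push_cast
        ring
      rw [h7] at h6
      have h11 := hS2 _ h6
      have h12 := hb₁ bs
      rw [hper b₁ d hdb, hper (b₁ + 2 ^ m) (d + 2 ^ m) (by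
        rw [show b₁ + 2 ^ m - ((d : ℤ) + 2 ^ m) = b₁ - d by ring]
        exact hdb)] at h12
      exact absurd h12 (not_le.2 h11)
    have h3 : V.valuation (2 : ℂ) < (x ^ k₀) ^ 2 := by
      conv_lhs => rw [← hx, hqe]
      rw [← pow_mul]
      exact pow_lt_pow_right_of_lt_one₀ hx0 hx1 (by omega)
    calc V.valuation (2 : ℂ) ^ 3 * V.valuation (y b₀) ^ 2
        ≤ V.valuation (2 : ℂ) ^ 3 * V.valuation (y bs) ^ 2 :=
          mul_le_mul_right (pow_le_pow_left₀ zero_le (hall b₀) 2) _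
      _ = (V.valuation (2 : ℂ) * V.valuation (y bs)) ^ 2 * V.valuation (2 : ℂ) := by
          rw [mul_pow, pow_succ (V.valuation (2 : ℂ)) 2, mul_assoc, mul_assoc,
            mul_comm (V.valuation (2 : ℂ)) (V.valuation (y bs) ^ 2)]
      _ < (V.valuation (2 : ℂ) * V.valuation (y bs)) ^ 2 * (x ^ k₀) ^ 2 :=
          mul_lt_mul_of_pos_left h3 (pow_pos (mul_pos ht0 hvs0) 2)
      _ = (V.valuation (2 : ℂ) * V.valuation (y bs) * x ^ k₀) ^ 2 := by
          rw [mul_pow _ (x ^ k₀)]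

end

end Pool.Agent.N2H


end

section

/-!
# MUX-2N, block HT, module PAIT (helper97): the value at a pair of determinant `2^n`

Adapted from `Pool/Agent/MUX/HN_PAI.lean` (helper7).
-/

set_option autoImplicit false

namespace Pool.Agent.N2H

open _root_.MU3 _root_.Pool.Agent.MuSym _root_.Pool.Agent.MUXH _root_.Pool.Agent.N2 OnePoint

noncomputable section

/-- PAIT. -/
theorem tt_PAIT : St_PAIT := by
  intro N' nu Q hQ n a b c d hc hd hac hN hdet
  obtain ⟨u, v, huv⟩ := hac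
  have hc' : (c : ℚ) ≠ 0 := by exact_mod_cast hc
  have hd' : (d : ℚ) ≠ 0 := by exact_mod_cast hd
  have h3 : ((2 : ℚ) ^ n) ≠ 0 := by positivity
  have hdet' : (a : ℚ) * d - b * c = 2 ^ n := by exact_mod_cast hdet
  refine ⟨u * b + v * d, ⟨v, ?_⟩, ?_⟩
  · linear_combination b * huv + v * hdet
  · have h1 := hQ.equiv u v (-c) a (by linear_combination huv) ((dvd_neg).2 hN)
      (((a : ℚ) / c : ℚ) : OnePoint ℚ) (((b : ℚ) / d : ℚ) : OnePoint ℚ)
    rw [← h1]
    have e1 : mob u v (-c) a (((a : ℚ) / c : ℚ) : OnePoint ℚ) = ∞ := by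
      show (if ((-c : ℤ) : ℚ) * ((a : ℚ) / c) + a = 0 then (∞ : OnePoint ℚ) else _) = _
      rw [if_pos]
      push_cast
      field_simp
      ring
    have e2 : mob u v (-c) a (((b : ℚ) / d : ℚ) : OnePoint ℚ) =
        ((((u * b + v * d : ℤ) : ℚ) / 2 ^ n : ℚ) : OnePoint ℚ) := by
      have h2 : ((-c : ℤ) : ℚ) * ((b : ℚ) / d) + a = 2 ^ n / d := by
        rw [← hdet']
        push_cast
        field_simp
        ring
      show (if ((-c : ℤ) : ℚ) * ((b : ℚ) / d) + a = 0 then (∞ : OnePoint ℚ) else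
        (((u * ((b : ℚ) / d) + v) / (((-c : ℤ) : ℚ) * ((b : ℚ) / d) + a) : ℚ) : OnePoint ℚ)) = _
      rw [h2, if_neg (div_ne_zero h3 hd')]
      congr 1
      push_cast
      field_simp
    rw [e1, e2]

end

end Pool.Agent.N2H


end

section

/-!
# MUX-2N, block HT: KYT, from locally constant values to vanishing closed cycles (helper83)
-/

set_option autoImplicit false

namespace Pool.Agent.N2H

open _root_.MU3 _root_.Pool.Agent.MuSym _root_.Pool.Agent.MUXH _root_.Pool.Agent.N2 OnePoint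

noncomputable section

namespace KYT

open _root_.Pool.Agent

/-- the translation by `1/16` on the finite cusps -/
theorem tau (x : ℚ) : mob 16 1 0 16 (x : OnePoint ℚ) = ((x + 1 / 16 : ℚ) : OnePoint ℚ) := by
  rw [NSY.mob_coe _ _ _ _ _ (by norm_num)]
  congr 1
  push_cast
  ring

theorem tau_inf : mob 16 1 0 16 (∞ : OnePoint ℚ) = ∞ := NSY.mob_infty0 _ _ _

/-- conjugation of a matrix by the translation by `1/16` -/
theorem conj (a b c d a' b' d' : ℤ) (ha : 16 * a' = 16 * a + c)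
    (hb : 256 * b' = 256 * b + 16 * (d - a) - c) (hd : 16 * d' = 16 * d - c) (x : OnePoint ℚ) :
    mob 16 1 0 16 (mob a b c d x) = mob a' b' c d' (mob 16 1 0 16 x) := by
  have ha' : (a' : ℚ) = a + c / 16 := by
    have : (16 : ℚ) * a' = 16 * a + c := by exact_mod_cast ha
    linarith
  have hb' : (b' : ℚ) = b + (d - a) / 16 - c / 256 := by
    have : (256 : ℚ) * b' = 256 * b + 16 * (d - a) - c := by exact_mod_cast hb
    linarith
  have hd' : (d' : ℚ) = d - c / 16 := by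
    have : (16 : ℚ) * d' = 16 * d - c := by exact_mod_cast hd
    linarith
  induction x using OnePoint.rec with
  | infty =>
    by_cases hc : c = 0
    · subst hc
      rw [NSY.mob_infty0, tau_inf, NSY.mob_infty0]
    · have hc' : (c : ℚ) ≠ 0 := by exact_mod_cast hc
      rw [NSY.mob_infty _ _ _ _ hc, tau, tau_inf, NSY.mob_infty _ _ _ _ hc, ha']
      congr 1
      field_simp
  | coe r =>
    rw [tau]
    have e : (c : ℚ) * (r + 1 / 16) + d' = c * r + d := by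
      rw [hd']
      ring
    by_cases h : (c : ℚ) * r + d = 0
    · have h1 : mob a b c d (r : OnePoint ℚ) = ∞ := by
        unfold mob
        simp [h]
      have h2 : mob a' b' c d' ((r + 1 / 16 : ℚ) : OnePoint ℚ) = ∞ := by
        have e' : (c : ℚ) * (r + 16⁻¹) + d' = 0 := by
          rw [← h, ← e]
          ring
        unfold mob
        simp [e']
      rw [h1, h2, tau_inf]
    · rw [NSY.mob_coe _ _ _ _ _ h, tau, NSY.mob_coe _ _ _ _ _ (by rw [e]; exact h), e]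
      congr 1
      have h' : (c : ℚ) * r + d ≠ 0 := h
      rw [eq_div_iff h', add_mul, div_mul_cancel₀ _ h', ha', hb']
      ring

/-- odd integers are units of `V` -/
theorem unit (V : ValuationSubring ℂ) (hv : V.valuation (2 : ℂ) < 1) (q : ℕ)
    (hq : q.Coprime 2) : V.valuation (q : ℂ) = 1 := by
  have h1 : V.valuation (q : ℂ) ≤ 1 := by
    rw [ValuationSubring.valuation_le_one_iff]
    exact natCast_mem V q
  refine le_antisymm h1 (not_lt.1 fun h => ?_)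
  obtain ⟨u, w, huw⟩ := Nat.isCoprime_iff_coprime.2 hq
  have e : ((u : ℂ) * q + w * 2) = 1 := by exact_mod_cast huw
  have h2 : V.valuation ((u : ℂ) * q + w * 2) < 1 := by
    apply Valuation.map_add_lt
    · rw [map_mul]
      have hu : V.valuation (u : ℂ) ≤ 1 := by
        rw [ValuationSubring.valuation_le_one_iff]
        exact intCast_mem V u
      calc V.valuation (u : ℂ) * V.valuation (q : ℂ) ≤ 1 * V.valuation (q : ℂ) := by gcongr
        _ < 1 := by rw [one_mul]; exact h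
    · rw [map_mul]
      have hw : V.valuation (w : ℂ) ≤ 1 := by
        rw [ValuationSubring.valuation_le_one_iff]
        exact intCast_mem V w
      calc V.valuation (w : ℂ) * V.valuation (2 : ℂ) ≤ 1 * V.valuation (2 : ℂ) := by gcongr
        _ < 1 := by rw [one_mul]; exact hv
  rw [e, map_one] at h2
  exact lt_irrefl _ h2

/-- a submodule is closed under division by units -/
theorem div (V : ValuationSubring ℂ) (m : Submodule V ℂ) (u z : ℂ)
    (hu : V.valuation u = 1) (h : u * z ∈ m) : z ∈ m := by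
  have hu0 : u ≠ 0 := by
    rintro rfl
    rw [map_zero] at hu
    exact zero_ne_one hu
  have hi : u⁻¹ ∈ V := by
    rw [← ValuationSubring.valuation_le_one_iff, map_inv₀, hu, inv_one]
  have h2 := m.smul_mem ⟨u⁻¹, hi⟩ h
  have e : (⟨u⁻¹, hi⟩ : V) • (u * z) = z := by
    show u⁻¹ * (u * z) = z
    field_simp
  rwa [e] at h2

end KYT

open _root_.Pool.Agent.N2H.KYT _root_.Pool.Agent in
theorem tt_KYT (h1 : St_PAIT) : St_KYT := by
  intro V hv m N₀ s₀ nu Q hN₀ hcop hnu1 hnuper hnuv hsym r n₀ hloc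
  have hN1 : 1 < N₀ := by omega
  set R : ℕ := 8 + (s₀ + 1) + r + 1 with hR
  have hpow : ∀ {i j : ℕ}, i ≤ j → (2 : ℤ) ^ i ∣ 2 ^ j := fun h => pow_dvd_pow 2 h
  -- divisors of the level
  have hlev : ∀ c : ℤ, (2 : ℤ) ^ R * N₀ ∣ c → ((2 ^ (s₀ + 1) * N₀ : ℕ) : ℤ) ∣ c := by
    intro c hc
    refine dvd_trans ?_ hc
    push_cast
    exact mul_dvd_mul_right (hpow (by omega)) _
  have hlev3 : ∀ c : ℤ, (2 : ℤ) ^ R * N₀ ∣ c → ((2 * N₀ : ℕ) : ℤ) ∣ c := by
    intro c hc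
    refine dvd_trans ?_ hc
    push_cast
    exact mul_dvd_mul_right (dvd_pow_self 2 (by omega)) _
  -- `c = 16 c₁`
  have hc1 : ∀ c : ℤ, (2 : ℤ) ^ R * N₀ ∣ c → ∃ c₁ : ℤ, c = 16 * c₁ ∧
      ((2 * N₀ : ℕ) : ℤ) ∣ c₁ ∧ (2 : ℤ) ^ (r + 1) ∣ c₁ ∧ (16 : ℤ) ∣ c₁ := by
    rintro c ⟨k, rfl⟩
    refine ⟨2 ^ (R - 4) * N₀ * k, ?_, ?_, ?_, ?_⟩
    · have e : (2 : ℤ) ^ R = 16 * 2 ^ (R - 4) := by
        conv_lhs => rw [show R = 4 + (R - 4) by omega, pow_add]
        norm_num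
      rw [e]
      ring
    · push_cast
      apply Dvd.dvd.mul_right
      exact mul_dvd_mul_right (dvd_pow_self 2 (by omega)) _
    · apply Dvd.dvd.mul_right
      apply Dvd.dvd.mul_right
      exact hpow (by omega)
    · apply Dvd.dvd.mul_right
      apply Dvd.dvd.mul_right
      have : (16 : ℤ) = 2 ^ 4 := by norm_num
      rw [this]
      exact hpow (by omega)
  have key := NSY.key0_two (M := ℂ ⧸ m) (N := N₀) (r := R) (n0 := n₀ + r + 5)
    (Φ := fun x y => Submodule.Quotient.mk (PTq 16 Q x y)) hN1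
    (Nat.coprime_two_left.mp hcop) (by omega) ?_ ?_ ?_ ?_ ?_
  · refine ⟨R, fun a b c d hdet hc hd x => ?_⟩
    have h := key a b c d hdet hc hd x
    exact (Submodule.Quotient.mk_eq_zero m).1 h
  · -- no torsion
    intro q hq x hx
    obtain ⟨z, rfl⟩ := Submodule.Quotient.mk_surjective m x
    rw [← Submodule.Quotient.mk_smul, Submodule.Quotient.mk_eq_zero, nsmul_eq_mul] at hx
    rw [Submodule.Quotient.mk_eq_zero]
    exact KYT.div V m q z (KYT.unit V hv q (Nat.coprime_two_right.mpr hq)) hx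
  · -- additivity
    intro x y z
    show Submodule.Quotient.mk (PTq 16 Q x y) + Submodule.Quotient.mk (PTq 16 Q y z) =
      (Submodule.Quotient.mk (PTq 16 Q x z) : ℂ ⧸ m)
    rw [← Submodule.Quotient.mk_add]
    congr 1
    unfold PTq
    rw [← hsym.add x y z, ← hsym.add (mob 16 1 0 16 x) (mob 16 1 0 16 y) (mob 16 1 0 16 z)]
    ring
  · -- invariance
    intro a b c d hdet hc' hd' x y
    have ha' : (2 : ℤ) ^ R * N₀ ∣ a - 1 := by
      have e : a - 1 = b * c - a * (d - 1) := by linear_combination hdet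
      rw [e]
      exact dvd_sub (hc'.mul_left b) (hd'.mul_left a)
    obtain ⟨c₁, hcc, hcN, -, c₂, hc2⟩ := hc1 c hc'
    obtain ⟨d₁, hdd, -, -, -⟩ := hc1 _ hd'
    obtain ⟨a₁, haa, -, -, -⟩ := hc1 _ ha'
    have hnud : nu d = 1 := by
      rw [hnuper d 1 (hlev3 _ hd'), hnu1]
    have hnud' : nu (d - c₁) = 1 := by
      rw [hnuper (d - c₁) 1 ?_, hnu1]
      have e : d - c₁ - 1 = d - 1 - c₁ := by ring
      rw [e]
      exact dvd_sub (hlev3 _ hd') hcN
    have hconj := KYT.conj a b c d (a + c₁) (b + (d₁ - a₁) - c₂) (d - c₁)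
      (by rw [hcc]; ring) (by
        have e : d - a = 16 * (d₁ - a₁) := by linear_combination hdd - haa
        rw [e, hcc, hc2]
        ring) (by rw [hcc]; ring)
    have hdet' : (a + c₁) * (d - c₁) - (b + (d₁ - a₁) - c₂) * c = 1 := by
      have e1 : (16 : ℤ) * (d₁ - a₁) = d - a := by linear_combination haa - hdd
      have e2 : c = 16 * c₁ := hcc
      have e3 : (16 : ℤ) * c₂ = c₁ := hc2.symm
      have : (a + c₁) * (d - c₁) - (b + (d₁ - a₁) - c₂) * c =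
          (a * d - b * c) + c₁ * (d - a - 16 * (d₁ - a₁)) - c₁ * (c₁ - 16 * c₂) := by
        rw [e2]
        ring
      rw [this, hdet, e1, e3]
      ring
    show (Submodule.Quotient.mk (PTq 16 Q (mob a b c d x) (mob a b c d y)) : ℂ ⧸ m) =
      Submodule.Quotient.mk (PTq 16 Q x y)
    congr 1
    unfold PTq
    rw [hconj x, hconj y, hsym.equiv a b c d hdet (hlev _ hc') x y,
      hsym.equiv _ _ c _ hdet' (hlev _ hc'), hnud, hnud', one_mul, one_mul]
  · -- (A)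
    intro a b c d n hn hc hd hac hbd hN' hdet2
    obtain ⟨c₁, hcc, hcN, hcr, hc16⟩ := hc1 c hN'
    have h2c : (2 : ℤ) ∣ c := (Dvd.intro _ rfl : (2 : ℤ) ∣ 2 * N₀).trans
      (by simpa using hlev3 c hN')
    have ha2 : IsCoprime a (2 : ℤ) := hac.of_isCoprime_of_dvd_right h2c
    -- `d`
    have hdd : (2 : ℤ) ^ (r + 5) ∣ d := by
      have h2 : (2 : ℤ) ^ (r + 5) ∣ a * d := by
        have e : a * d = 2 ^ n + b * c := by linear_combination hdet2
        rw [e]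
        apply dvd_add (hpow (by omega))
        apply Dvd.dvd.mul_left
        exact dvd_trans (dvd_trans (hpow (by omega : r + 5 ≤ R)) (Dvd.intro _ rfl)) hN'
      exact (ha2.symm.pow_left).dvd_of_dvd_mul_left h2
    obtain ⟨d₂, hd2⟩ := hdd
    set d₁ : ℤ := 2 ^ (r + 1) * d₂ with hd1
    have hdd1 : d = 16 * d₁ := by
      rw [hd2, hd1, pow_add, pow_add]
      ring
    have h2d : (2 : ℤ) ∣ d := ⟨8 * d₁, by rw [hdd1]; ring⟩
    have hb2 : ¬ (2 : ℤ) ∣ b := by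
      intro h
      have h4 : IsCoprime (2 : ℤ) 2 := (hbd.of_isCoprime_of_dvd_left h).of_isCoprime_of_dvd_right h2d
      rw [isCoprime_self, Int.isUnit_iff] at h4
      omega
    -- PAIT for `Q`
    obtain ⟨e, he, hQe⟩ := h1 _ nu Q hsym n a b c d hc hd hac (hlev _ hN') hdet2
    have hac' : IsCoprime (a + c₁) c := by
      have h5 : IsCoprime (a + c₁) c₁ := by
        have : IsCoprime a c₁ := hac.of_isCoprime_of_dvd_right ⟨16, by rw [hcc]; ring⟩
        have h6 := IsCoprime.add_mul_left_left this 1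
        rwa [mul_one] at h6
      have h6 : IsCoprime (a + c₁) (16 : ℤ) := h5.of_isCoprime_of_dvd_right hc16
      rw [hcc]
      exact h6.mul_right h5
    obtain ⟨e', he', hQe'⟩ := h1 _ nu Q hsym n (a + c₁) (b + d₁) c d hc hd hac' (hlev _ hN') (by
      rw [← hdet2]
      have : (a + c₁) * d - (b + d₁) * c = a * d - b * c + (c₁ * d - d₁ * c) := by ring
      rw [this, hcc, hdd1]
      ring)
    have hnua : nu (a + c₁) = nu a := by
      apply hnuper
      have : a + c₁ - a = c₁ := by ring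
      rw [this]
      exact hcN
    rw [hnua] at hQe'
    -- the two cusps
    have hcQ : (c : ℚ) ≠ 0 := by exact_mod_cast hc
    have hdQ : (d : ℚ) ≠ 0 := by exact_mod_cast hd
    have hcq : (c : ℚ) = 16 * c₁ := by exact_mod_cast hcc
    have hdq : (d : ℚ) = 16 * d₁ := by exact_mod_cast hdd1
    have eu : ((a + c₁ : ℤ) : ℚ) / c = (a : ℚ) / c + 1 / 16 := by
      push_cast
      have h7 : (c₁ : ℚ) = c / 16 := by rw [hcq]; ring
      rw [h7]
      field_simp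
    have ew : ((b + d₁ : ℤ) : ℚ) / d = (b : ℚ) / d + 1 / 16 := by
      push_cast
      have h7 : (d₁ : ℚ) = d / 16 := by rw [hdq]; ring
      rw [h7]
      field_simp
    rw [eu, ew] at hQe'
    -- comparison of `e` and `e'`
    have hrn : (2 : ℤ) ^ (r + 1) ∣ 2 ^ n := hpow (by omega)
    have hee : (2 : ℤ) ^ r ∣ e - e' := by
      have h8 : (2 : ℤ) ^ (r + 1) ∣ a * (e - e') := by
        have e1 : a * (e - e') = (a * e - b) - ((a + c₁) * e' - (b + d₁)) + c₁ * e' - d₁ := by ring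
        rw [e1]
        apply dvd_sub
        · apply dvd_add
          · exact dvd_sub (hrn.trans he) (hrn.trans he')
          · exact hcr.mul_right _
        · exact Dvd.intro _ rfl
      have h9 : (2 : ℤ) ^ (r + 1) ∣ e - e' := (ha2.symm.pow_left).dvd_of_dvd_mul_left h8
      exact (hpow (by omega)).trans h9
    have he2 : ¬ (2 : ℤ) ∣ e := by
      intro h
      apply hb2
      have e1 : b = a * e - (a * e - b) := by ring
      rw [e1]
      apply dvd_sub (h.mul_left a)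
      exact (dvd_trans (dvd_pow_self 2 (by omega : n ≠ 0)) he)
    have hl := hloc n (by omega) e e' he2 hee
    rw [← hQe, ← hQe', ← mul_sub] at hl
    have hva : V.valuation (nu a) = 1 := by
      apply hnuv
      exact hac.of_isCoprime_of_dvd_right (hlev3 _ hN')
    have hfin := KYT.div V m _ _ hva hl
    show (Submodule.Quotient.mk (PTq 16 Q _ _) : ℂ ⧸ m) = 0
    rw [Submodule.Quotient.mk_eq_zero]
    unfold PTq
    rw [tau, tau]
    exact hfin
  · -- (A0)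
    intro b n hn hb
    have hb2 : ¬ (2 : ℤ) ∣ b := by
      rw [← even_iff_two_dvd, Int.not_even_iff_odd]
      exact hb
    show (Submodule.Quotient.mk (PTq 16 Q _ _) : ℂ ⧸ m) = 0
    rw [Submodule.Quotient.mk_eq_zero]
    unfold PTq
    rw [tau_inf, tau]
    have hl := hloc n (by omega) b (b + 2 ^ (n - 4)) hb2 (by
      have e : b - (b + 2 ^ (n - 4)) = -(2 ^ (n - 4)) := by ring
      rw [e, dvd_neg]
      exact hpow (by omega))
    have e : (((b + 2 ^ (n - 4) : ℤ) : ℚ) / 2 ^ n) = (b : ℚ) / 2 ^ n + 1 / 16 := by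
      have e2 : (2 : ℚ) ^ n = 16 * 2 ^ (n - 4) := by
        conv_lhs => rw [show n = 4 + (n - 4) by omega, pow_add]
        norm_num
      push_cast
      rw [e2]
      field_simp
    rw [e] at hl
    exact hl

end

end Pool.Agent.N2H


end

section

/-!
# MUX-2N, block HT, module LOCT: local constancy modulo a submodule, `p = 2`
-/

set_option autoImplicit false

namespace Pool.Agent.N2H

open _root_.MU3 _root_.Pool.Agent.MuSym _root_.Pool.Agent.MUXH _root_.Pool.Agent.N2 OnePoint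

noncomputable section

namespace LocT

theorem nd_mul {u b : ℤ} (hu : (4 : ℤ) ∣ u - 1) (h : ¬ (2 : ℤ) ∣ b) : ¬ (2 : ℤ) ∣ u * b := by
  intro h1
  have hu : (2 : ℤ) ∣ u - 1 := (by norm_num : (2 : ℤ) ∣ 4).trans hu
  rcases Int.prime_two.dvd_or_dvd h1 with h2 | h2
  · have h3 : (2 : ℤ) ∣ 1 := by
      have h4 := dvd_sub h2 hu
      have e : u - (u - 1) = 1 := by ring
      rwa [e] at h4
    exact absurd h3 (by norm_num)
  · exact h h2

theorem nd_pow {u b : ℤ} (hu : (4 : ℤ) ∣ u - 1) (h : ¬ (2 : ℤ) ∣ b) (i : ℕ) :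
    ¬ (2 : ℤ) ∣ u ^ i * b := by
  induction i with
  | zero => simpa using h
  | succ i ih =>
    have e : u ^ (i + 1) * b = u * (u ^ i * b) := by ring
    rw [e]
    exact nd_mul hu ih

theorem dvd_pow_sub {u : ℤ} (hu : (4 : ℤ) ∣ u - 1) (i : ℕ) : (4 : ℤ) ∣ u ^ i - 1 := by
  have h := sub_dvd_pow_sub_pow u 1 i
  rw [one_pow] at h
  exact hu.trans h

/-- `2^r` divides `g^(2^r) - 1` -/
theorem two_pow_dvd {g : ℤ} (hg : (4 : ℤ) ∣ g - 1) (r : ℕ) : (2 : ℤ) ^ r ∣ g ^ 2 ^ r - 1 := by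
  induction r with
  | zero => rw [pow_zero]; exact one_dvd _
  | succ r ih =>
    obtain ⟨c, hc⟩ := ih
    obtain ⟨d, hd⟩ := dvd_pow_sub hg (2 ^ r)
    have e1 : g ^ 2 ^ (r + 1) = (g ^ 2 ^ r) ^ 2 := by rw [← pow_mul, pow_succ]
    refine ⟨c * (1 + 2 * d), ?_⟩
    have e2 : g ^ 2 ^ (r + 1) - 1 = (g ^ 2 ^ r - 1) * (2 + (g ^ 2 ^ r - 1)) := by
      rw [e1]
      ring
    rw [e2]
    have e3 : (g ^ 2 ^ r - 1) * (2 + (g ^ 2 ^ r - 1)) = (2 ^ r * c) * (2 + 4 * d) := by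
      rw [← hd]
      rw [← hc]
    rw [e3, pow_succ]
    ring

/-- the powers of `u` are, modulo `2^n`, all classes `≡ 1` modulo `2^s` -/
theorem gen {u : ℤ} (hu : (4 : ℤ) ∣ u - 1) (hu1 : u ≠ 1) : ∃ s : ℕ, ∀ (n : ℕ) (b b' : ℤ),
    ¬ (2 : ℤ) ∣ b → (2 : ℤ) ^ s ∣ b - b' → ∃ i : ℕ, (2 : ℤ) ^ n ∣ u ^ i * b - b' := by
  obtain ⟨w, hw, hw3⟩ := (Int.finiteMultiplicity_iff.2
    ⟨by norm_num, sub_ne_zero.2 hu1⟩ : FiniteMultiplicity (2 : ℤ) (u - 1)).exists_eq_pow_mul_and_not_dvd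
  obtain ⟨k, hk⟩ : ∃ k, k = multiplicity (2 : ℤ) (u - 1) := ⟨_, rfl⟩
  rw [← hk] at hw
  have hk2 : 2 ≤ k := by
    by_contra h
    obtain ⟨c, hc⟩ := hu
    rcases (by omega : k = 0 ∨ k = 1) with h0 | h0
    · rw [h0, pow_zero, one_mul] at hw
      exact hw3 ⟨2 * c, by rw [← hw, hc]; ring⟩
    · rw [h0, pow_one] at hw
      exact hw3 ⟨c, by linarith⟩
  have hk1 : 1 ≤ k := by omega
  refine ⟨k, fun n b b' hb hbb => ?_⟩
  rcases le_total n k with hn | hn
  · refine ⟨0, ?_⟩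
    rw [pow_zero, one_mul]
    exact (pow_dvd_pow 2 hn).trans hbb
  · induction n, hn using Nat.le_induction with
    | base => exact ⟨0, by rw [pow_zero, one_mul]; exact hbb⟩
    | succ n hn ih =>
      obtain ⟨i, c, hc⟩ := ih
      obtain ⟨w', h1, h2⟩ := MUXH.Stp.pow_u (p := 2) (w := w) Nat.prime_two hk1
        (fun _ => hk2) (by rw [hw]; norm_num) (by rw [show ((2 : ℕ) : ℤ) = 2 from rfl]; exact hw3) n hn
      rw [show ((2 : ℕ) : ℤ) = 2 from rfl] at h1 h2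
      have hb2 := nd_pow hu hb i
      -- the target class
      obtain ⟨t, ht⟩ : ∃ t : ℕ, (2 : ℤ) ∣ t + c := by
        refine ⟨((-c) % 2).toNat, ?_⟩
        have h3 : 0 ≤ (-c) % 2 := Int.emod_nonneg _ (by norm_num)
        rw [Int.toNat_of_nonneg h3]
        omega
      obtain ⟨j, hj⟩ := MUXH.Stp.solve (p := 2) Nat.prime_two (w := w') (b := u ^ i * b)
        (by rw [show ((2 : ℕ) : ℤ) = 2 from rfl]; exact h2)
        (by rw [show ((2 : ℕ) : ℤ) = 2 from rfl]; exact hb2) t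
      rw [show ((2 : ℕ) : ℤ) = 2 from rfl] at hj
      obtain ⟨q, hq⟩ := MUXH.Stp.pow_one_add (p := 2) (hk1.trans hn) w' j
      rw [show ((2 : ℕ) : ℤ) = 2 from rfl] at hq
      refine ⟨2 ^ (n - k) * j + i, ?_⟩
      obtain ⟨a, ha⟩ := hj
      obtain ⟨d, hd⟩ := ht
      have e1 : u ^ (2 ^ (n - k) * j + i) * b = (1 + (2 : ℤ) ^ n * w') ^ j * (u ^ i * b) := by
        rw [pow_add, pow_mul, h1]
        ring
      have e2 : (1 + (2 : ℤ) ^ n * w') ^ j = 2 ^ (n + 1) * q + (1 + j * ((2 : ℤ) ^ n * w')) := by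
        linarith
      rw [e1, e2]
      refine ⟨q * (u ^ i * b) + a + d, ?_⟩
      have e3 : u ^ i * b = b' + 2 ^ n * c := by linarith
      have e4 : (j : ℤ) * (w' * (u ^ i * b)) = 2 * a + t := by linarith
      have e5 : (c : ℤ) = 2 * d - t := by linarith
      calc (2 ^ (n + 1) * q + (1 + j * ((2 : ℤ) ^ n * w'))) * (u ^ i * b) - b'
          = 2 ^ (n + 1) * q * (u ^ i * b) + (u ^ i * b - b') +
            2 ^ n * (j * (w' * (u ^ i * b))) := by ring
        _ = 2 ^ (n + 1) * q * (u ^ i * b) + (2 ^ n * (2 * d - t)) + 2 ^ n * (2 * a + t) := by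
            rw [e4, hc, e5]
        _ = 2 ^ (n + 1) * (q * (u ^ i * b) + a + d) := by ring

variable {V : ValuationSubring ℂ}

/-- locally constant modulo `m` -/
def LC (m : Submodule V ℂ) (r : ℕ) (y : ℤ → ℂ) : Prop :=
  ∀ b b' : ℤ, ¬ (2 : ℤ) ∣ b → (2 : ℤ) ^ r ∣ b - b' → y b - y b' ∈ m

theorem int_mul (m : Submodule V ℂ) {x : ℂ} (hx : x ∈ m) (c : ℤ) : (c : ℂ) * x ∈ m := by
  have h := zsmul_mem hx c
  rwa [zsmul_eq_mul] at h

/-- an integer divisible by `2^k` times a value -/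
theorem dvd_mul_mem (m : Submodule V ℂ) {k : ℕ} {x : ℂ} (hx : (2 : ℂ) ^ k * x ∈ m) {c : ℤ}
    (hc : (2 : ℤ) ^ k ∣ c) : (c : ℂ) * x ∈ m := by
  obtain ⟨d, rfl⟩ := hc
  have h := int_mul m hx d
  have e : (((2 : ℤ) ^ k * d : ℤ) : ℂ) * x = (d : ℂ) * ((2 : ℂ) ^ k * x) := by
    push_cast
    ring
  rwa [e]

/-- from invariance under `u` to local constancy -/
theorem lc_of_inv {u : ℤ} (hu : (4 : ℤ) ∣ u - 1) (hu1 : u ≠ 1) : ∃ s : ℕ,
    ∀ (m : Submodule V ℂ) (n : ℕ) (y : ℤ → ℂ), (∀ b c : ℤ, (2 : ℤ) ^ n ∣ b - c → y b = y c) →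
      (∀ b : ℤ, ¬ (2 : ℤ) ∣ b → y b - y (u * b) ∈ m) → LC m s y := by
  obtain ⟨s, hs⟩ := gen hu hu1
  refine ⟨s, fun m n y hper hinv b b' hb hbb => ?_⟩
  obtain ⟨i, hi⟩ := hs n b b' hb hbb
  rw [← hper _ _ hi]
  clear hi
  induction i with
  | zero =>
    rw [pow_zero, one_mul, sub_self]
    exact zero_mem _
  | succ i ih =>
    have h := hinv _ (nd_pow hu hb i)
    have e : u ^ (i + 1) * b = u * (u ^ i * b) := by ring
    rw [e]
    have e2 : y b - y (u * (u ^ i * b)) = (y b - y (u ^ i * b)) +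
        (y (u ^ i * b) - y (u * (u ^ i * b))) := by ring
    rw [e2]
    exact add_mem ih h

/-- the difference operator -/
def D (g : ℤ) (y : ℤ → ℂ) : ℤ → ℂ := fun b => y b - y (g * b)

theorem D_per {g : ℤ} {n : ℕ} {y : ℤ → ℂ} (hper : ∀ b c : ℤ, (2 : ℤ) ^ n ∣ b - c → y b = y c) :
    ∀ b c : ℤ, (2 : ℤ) ^ n ∣ b - c → D g y b = D g y c := by
  intro b c h
  unfold D
  rw [hper b c h, hper (g * b) (g * c) (by rw [← mul_sub]; exact Dvd.dvd.mul_left h g)]

theorem D_mem {g : ℤ} {k : ℕ} {m : Submodule V ℂ} {y : ℤ → ℂ} (h : ∀ b, (2 : ℂ) ^ k * y b ∈ m) :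
    ∀ b, (2 : ℂ) ^ k * D g y b ∈ m := by
  intro b
  unfold D
  rw [mul_sub]
  exact sub_mem (h b) (h _)

theorem pow_ne_one' {u : ℤ} (hu : (4 : ℤ) ∣ u - 1) (hu1 : u ≠ 1) {i : ℕ} (hi : i ≠ 0) :
    u ^ i ≠ 1 := by
  intro h
  have h1 : u.natAbs ^ i = 1 := by
    rw [← Int.natAbs_pow, h]
    rfl
  have h2 : u.natAbs = 1 := (pow_eq_one_iff_of_nonneg (Nat.zero_le _) hi).1 h1
  rcases Int.natAbs_eq u with h3 | h3
  · rw [h2] at h3
    exact hu1 h3
  · rw [h2] at h3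
    rw [h3] at hu
    norm_num at hu

/-- step down -/
theorem step {g : ℤ} (hg : (4 : ℤ) ∣ g - 1) (hg1 : g ≠ 1) (k r : ℕ) : ∃ s : ℕ,
    ∀ (m : Submodule V ℂ) (n : ℕ) (y : ℤ → ℂ), (∀ b c : ℤ, (2 : ℤ) ^ n ∣ b - c → y b = y c) →
      (∀ b, (2 : ℂ) ^ k * y b ∈ m) → LC m r (D g y) → LC m s y := by
  obtain ⟨u, hu⟩ : ∃ u : ℤ, u = g ^ 2 ^ r := ⟨_, rfl⟩
  have hu3 : (4 : ℤ) ∣ u - 1 := by rw [hu]; exact dvd_pow_sub hg _
  have hur : (2 : ℤ) ^ r ∣ u - 1 := by
    rw [hu]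
    exact two_pow_dvd hg r
  have hu1 : u ≠ 1 := by rw [hu]; exact pow_ne_one' hg hg1 (by positivity)
  obtain ⟨s, hs⟩ := lc_of_inv (V := V) (dvd_pow_sub hu3 (2 ^ k)) (pow_ne_one' hu3 hu1 (i := 2 ^ k)
    (by positivity))
  refine ⟨s, fun m n y hper hk hlc => hs m n y hper ?_⟩
  -- the sums
  obtain ⟨S, hS⟩ : ∃ S : ℤ → ℂ, ∀ b, S b = y b - y (u * b) := ⟨_, fun _ => rfl⟩
  have hS2 : ∀ b, S b = ∑ i ∈ Finset.range (2 ^ r), D g y (g ^ i * b) := by
    intro b
    have h1 : ∀ i : ℕ, D g y (g ^ i * b) = y (g ^ i * b) - y (g ^ (i + 1) * b) := by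
      intro i
      unfold D
      rw [show g ^ (i + 1) * b = g * (g ^ i * b) by ring]
    rw [Finset.sum_congr rfl fun i _ => h1 i, Finset.sum_range_sub', hS, hu]
    rw [pow_zero, one_mul]
  have hSu : ∀ b : ℤ, ¬ (2 : ℤ) ∣ b → S b - S (u * b) ∈ m := by
    intro b hb
    rw [hS2, hS2, ← Finset.sum_sub_distrib]
    refine Submodule.sum_mem _ fun i _ => hlc _ _ (nd_pow hg hb i) ?_
    have e : g ^ i * b - g ^ i * (u * b) = (u - 1) * (-(g ^ i * b)) := by ring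
    rw [e]
    exact Dvd.dvd.mul_right hur _
  have hSj : ∀ (j : ℕ) (b : ℤ), ¬ (2 : ℤ) ∣ b → S b - S (u ^ j * b) ∈ m := by
    intro j b hb
    induction j with
    | zero =>
      rw [pow_zero, one_mul, sub_self]
      exact zero_mem _
    | succ j ih =>
      have h := hSu _ (nd_pow hu3 hb j)
      have e : u ^ (j + 1) * b = u * (u ^ j * b) := by ring
      rw [e]
      have e2 : S b - S (u * (u ^ j * b)) = (S b - S (u ^ j * b)) +
          (S (u ^ j * b) - S (u * (u ^ j * b))) := by ring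
      rw [e2]
      exact add_mem ih h
  intro b hb
  have hSk : (2 : ℂ) ^ k * S b ∈ m := by
    rw [hS, mul_sub]
    exact sub_mem (hk _) (hk _)
  have h2 : y b - y (u ^ 2 ^ k * b) = ((2 : ℂ) ^ k) * S b -
      ∑ j ∈ Finset.range (2 ^ k), (S b - S (u ^ j * b)) := by
    have h1 : ∀ j : ℕ, S (u ^ j * b) = y (u ^ j * b) - y (u ^ (j + 1) * b) := by
      intro j
      rw [hS, show u ^ (j + 1) * b = u * (u ^ j * b) by ring]
    rw [Finset.sum_sub_distrib, Finset.sum_const, Finset.card_range, nsmul_eq_mul,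
      Finset.sum_congr rfl fun j _ => h1 j, Finset.sum_range_sub', pow_zero, one_mul]
    push_cast
    ring
  rw [h2]
  exact sub_mem hSk (Submodule.sum_mem _ fun j _ => hSj j b hb)

/-- iteration of the step down -/
theorem steps {g : ℤ} (hg : (4 : ℤ) ∣ g - 1) (hg1 : g ≠ 1) (k N : ℕ) : ∀ r : ℕ, ∃ s : ℕ,
    ∀ (m : Submodule V ℂ) (n : ℕ) (y : ℤ → ℂ), (∀ b c : ℤ, (2 : ℤ) ^ n ∣ b - c → y b = y c) →
      (∀ b, (2 : ℂ) ^ k * y b ∈ m) → LC m r ((D g)^[N] y) → LC m s y := by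
  induction N with
  | zero => exact fun r => ⟨r, fun m n y _ _ h => h⟩
  | succ N ih =>
    intro r
    obtain ⟨s, hs⟩ := ih r
    obtain ⟨s', hs'⟩ := step (V := V) hg hg1 k s
    refine ⟨s', fun m n y hper hk h => hs' m n y hper hk ?_⟩
    rw [Function.iterate_succ_apply] at h
    exact hs m n (D g y) (D_per hper) (D_mem hk) h

theorem iter_per {g : ℤ} {n : ℕ} (N : ℕ) : ∀ {y : ℤ → ℂ},
    (∀ b c : ℤ, (2 : ℤ) ^ n ∣ b - c → y b = y c) →
    ∀ b c : ℤ, (2 : ℤ) ^ n ∣ b - c → (D g)^[N] y b = (D g)^[N] y c := by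
  induction N with
  | zero => exact fun h => h
  | succ N ih =>
    intro y h
    rw [Function.iterate_succ_apply]
    exact ih (D_per h)

theorem iter_mem {g : ℤ} {k : ℕ} {m : Submodule V ℂ} (N : ℕ) : ∀ {y : ℤ → ℂ},
    (∀ b, (2 : ℂ) ^ k * y b ∈ m) → ∀ b, (2 : ℂ) ^ k * (D g)^[N] y b ∈ m := by
  induction N with
  | zero => exact fun h => h
  | succ N ih =>
    intro y h
    rw [Function.iterate_succ_apply]
    exact ih (D_mem h)

/-- the substitution operator -/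
def E (g : ℤ) : Module.End ℂ (ℤ → ℂ) where
  toFun y := fun b => y (g * b)
  map_add' _ _ := rfl
  map_smul' _ _ := rfl

theorem E_pow (g : ℤ) (i : ℕ) (y : ℤ → ℂ) (b : ℤ) : ((E g) ^ i) y b = y (g ^ i * b) := by
  induction i generalizing b with
  | zero => simp
  | succ i ih =>
    rw [pow_succ', Module.End.mul_apply]
    have h1 : (E g) (((E g) ^ i) y) b = ((E g) ^ i) y (g * b) := rfl
    rw [h1, ih, pow_succ]
    ring_nf

theorem iter_eq (g : ℤ) (N : ℕ) (y : ℤ → ℂ) :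
    (D g)^[N] y = ((1 + -(E g)) ^ N) y := by
  induction N generalizing y with
  | zero => rfl
  | succ N ih =>
    rw [Function.iterate_succ_apply, ih, pow_succ, Module.End.mul_apply]
    have h : D g y = (1 + -(E g)) y := by
      funext b
      show y b - y (g * b) = y b + -(y (g * b))
      ring
    rw [h]

theorem iter_sum (g : ℤ) (N : ℕ) (y : ℤ → ℂ) (b : ℤ) :
    (D g)^[N] y b = ∑ j ∈ Finset.range (N + 1), ((-1 : ℂ) ^ (N - j) * (N.choose j : ℂ)) *
      y (g ^ (N - j) * b) := by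
  rw [iter_eq, (Commute.one_left (-(E g))).add_pow, LinearMap.sum_apply, Finset.sum_apply]
  refine Finset.sum_congr rfl fun j _ => ?_
  rw [one_pow, one_mul, neg_pow (E g), Module.End.mul_apply, Module.End.mul_apply]
  have h1 : ((N.choose j : ℕ) : Module.End ℂ (ℤ → ℂ)) y = ((N.choose j : ℕ) : ℂ) • y := by
    funext c
    rw [Module.End.natCast_apply]
    simp
  rw [h1, _root_.map_smul, _root_.map_smul]
  have h2 : ∀ (x : ℤ → ℂ) (i : ℕ), ((-1 : Module.End ℂ (ℤ → ℂ)) ^ i) x = ((-1 : ℂ) ^ i) • x := by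
    intro x i
    induction i with
    | zero => simp
    | succ i ih =>
      rw [pow_succ', Module.End.mul_apply, ih, _root_.map_smul, pow_succ']
      funext c
      simp
  rw [h2]
  simp only [Pi.smul_apply, smul_eq_mul, E_pow]
  ring

theorem comb_eq (α g : ℤ) (N : ℕ) (y : ℤ → ℂ) (b : ℤ) : comb α g N y b =
    (α : ℂ) * (D g)^[N] y b - (α : ℂ) ^ 2 * (D g)^[N] y (α ^ 2 * b) := by
  unfold comb
  rw [iter_sum, iter_sum, Finset.mul_sum, Finset.mul_sum, ← Finset.sum_sub_distrib]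
  refine Finset.sum_congr rfl fun j _ => ?_
  rw [← mul_assoc (g ^ (N - j)) (α ^ 2) b]
  ring

end LocT

open _root_.Pool.Agent.N2H.LocT in
theorem tt_LOCT : St_LOCT := by
  intro V h3 m z k n₀ hper hk α g hα hα1 hg hg1 N hcomb
  -- `α` is a unit
  have hint : ∀ n : ℤ, V.valuation (n : ℂ) ≤ 1 := by
    intro n
    have h := V.zsmul_mem (V.one_mem) n
    rw [zsmul_eq_mul, mul_one] at h
    exact (ValuationSubring.valuation_le_one_iff _ _).2 h
  have hαv : V.valuation (α : ℂ) = 1 := by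
    refine le_antisymm (hint α) (not_lt.1 fun hlt => ?_)
    obtain ⟨c, hc⟩ := hα
    have h4 : V.valuation ((2 * c : ℂ) * 2) < 1 := by
      rw [map_mul]
      refine lt_of_le_of_lt (mul_le_of_le_one_left' ?_) h3
      have h7 := hint (2 * c)
      push_cast at h7
      exact h7
    have h5 : V.valuation ((α : ℂ) - (2 * c : ℂ) * 2) < 1 :=
      lt_of_le_of_lt (V.valuation.map_sub _ _) (max_lt hlt h4)
    have e : (α : ℂ) - (2 * c : ℂ) * 2 = 1 := by
      have h6 : (α : ℂ) - 1 = 4 * c := by exact_mod_cast hc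
      linear_combination h6
    rw [e, map_one] at h5
    exact lt_irrefl _ h5
  have hα0 : (α : ℂ) ≠ 0 := by
    intro h0
    rw [h0, map_zero] at hαv
    exact zero_ne_one hαv
  have hαinv : (α : ℂ)⁻¹ ∈ V := by
    rw [← ValuationSubring.valuation_le_one_iff, map_inv₀, hαv, inv_one]
  -- the number `u`
  obtain ⟨u, hu⟩ : ∃ u : ℤ, u = (α ^ 2) ^ 2 ^ k := ⟨_, rfl⟩
  have hα2 : (4 : ℤ) ∣ α ^ 2 - 1 := dvd_pow_sub hα 2
  have hu3 : (4 : ℤ) ∣ u - 1 := by rw [hu]; exact dvd_pow_sub hα2 _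
  have hα21 : α ^ 2 ≠ 1 := pow_ne_one' hα hα1 two_ne_zero
  have hu1 : u ≠ 1 := by rw [hu]; exact pow_ne_one' hα2 hα21 (by positivity)
  have hαk : (2 : ℤ) ^ k ∣ α ^ 2 ^ k - 1 := by
    exact two_pow_dvd hα k
  obtain ⟨s, hs⟩ := lc_of_inv (V := V) hu3 hu1
  obtain ⟨r, hr⟩ := steps (V := V) hg hg1 k N s
  refine ⟨r, fun n hn => hr m n (z n) (hper n) (hk n) ?_⟩
  refine hs m n _ (iter_per N (hper n)) ?_
  have hYk : ∀ b, (2 : ℂ) ^ k * (D g)^[N] (z n) b ∈ m := iter_mem N (hk n)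
  obtain ⟨Y, hY⟩ : ∃ Y : ℤ → ℂ, Y = (D g)^[N] (z n) := ⟨_, rfl⟩
  rw [← hY] at hYk ⊢
  have hstep : ∀ b : ℤ, ¬ (2 : ℤ) ∣ b → Y b - (α : ℂ) * Y (α ^ 2 * b) ∈ m := by
    intro b hb
    have h1 := hcomb n hn b hb
    rw [comb_eq, ← hY] at h1
    have h2 := m.smul_mem (⟨(α : ℂ)⁻¹, hαinv⟩ : V) h1
    have e : (⟨(α : ℂ)⁻¹, hαinv⟩ : V) • ((α : ℂ) * Y b - (α : ℂ) ^ 2 * Y (α ^ 2 * b)) =
        Y b - (α : ℂ) * Y (α ^ 2 * b) := by
      show (α : ℂ)⁻¹ * ((α : ℂ) * Y b - (α : ℂ) ^ 2 * Y (α ^ 2 * b)) = _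
      field_simp
    rwa [e] at h2
  have hi : ∀ (i : ℕ) (b : ℤ), ¬ (2 : ℤ) ∣ b →
      Y b - (α : ℂ) ^ i * Y ((α ^ 2) ^ i * b) ∈ m := by
    intro i b hb
    induction i with
    | zero =>
      rw [pow_zero, pow_zero, one_mul, one_mul, sub_self]
      exact zero_mem _
    | succ i ih =>
      have h1 := hstep _ (nd_pow hα2 hb i)
      have h2 := int_mul m h1 (α ^ i)
      have e : (α ^ 2) ^ (i + 1) * b = α ^ 2 * ((α ^ 2) ^ i * b) := by ring
      rw [e]
      have e2 : Y b - (α : ℂ) ^ (i + 1) * Y (α ^ 2 * ((α ^ 2) ^ i * b)) =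
          (Y b - (α : ℂ) ^ i * Y ((α ^ 2) ^ i * b)) +
          ((α ^ i : ℤ) : ℂ) * (Y ((α ^ 2) ^ i * b) - (α : ℂ) * Y (α ^ 2 * ((α ^ 2) ^ i * b))) := by
        push_cast
        ring
      rw [e2]
      exact add_mem ih h2
  intro b hb
  have h1 := hi (2 ^ k) b hb
  rw [← hu] at h1
  have h2 := dvd_mul_mem m (hYk (u * b)) hαk
  have e : Y b - Y (u * b) = (Y b - (α : ℂ) ^ 2 ^ k * Y (u * b)) +
      ((α ^ 2 ^ k - 1 : ℤ) : ℂ) * Y (u * b) := by
    push_cast
    ring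
  rw [e]
  exact add_mem h1 h2

end

end Pool.Agent.N2H


end

section

/-!
# MUX-2N, block HT, module TYT (helper27): arithmetic of types
-/

set_option autoImplicit false

namespace Pool.Agent.N2H

open _root_.MU3 _root_.Pool.Agent.MuSym _root_.Pool.Agent.MUXH _root_.Pool.Agent.N2 OnePoint

noncomputable section

namespace TYT

variable {Γ : Type*} [LinearOrderedCommGroupWithZero Γ]

private lemma one_le_of_pow_N2H_TYT {a : Γ} {n : ℕ} (h : 1 ≤ a ^ n) (hn : n ≠ 0) : 1 ≤ a := by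
  by_contra hc
  exact absurd h (not_le.2 (pow_lt_one₀ zero_le' (not_le.1 hc) hn))

private lemma cube_N2H_TYT {t p x : Γ} {i : ℕ} (hp : p ^ 3 * t ^ i = 1) : (p * x) ^ 3 * t ^ i = x ^ 3 := by
  rw [mul_pow, mul_right_comm, hp, one_mul]

private lemma key_N2H_TYT {t p x : Γ} (ht0 : t ≠ 0) (ht : t < 1) (hx : x < 1 → x ≤ t) {i j : ℕ}
    (hp : p ^ 3 * t ^ i = 1) (hij : 3 * j + 8 * i < 24) (h : t ^ j ≤ (p * x) ^ 8) : 1 ≤ x := by
  by_contra hx1
  have hxt := hx (not_le.1 hx1)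
  have h2 : t ^ (3 * j + 8 * i) ≤ t ^ 24 := by
    calc t ^ (3 * j + 8 * i) = (t ^ j) ^ 3 * t ^ (8 * i) := by
          rw [pow_add, mul_comm 3 j, pow_mul]
      _ ≤ ((p * x) ^ 8) ^ 3 * t ^ (8 * i) := mul_le_mul' (pow_le_pow_left' h 3) le_rfl
      _ = ((p * x) ^ 3 * t ^ i) ^ 8 := by
          rw [mul_pow ((p * x) ^ 3), ← pow_mul, ← pow_mul, ← pow_mul, mul_comm i 8]
      _ = (x ^ 3) ^ 8 := by rw [cube_N2H_TYT hp]
      _ = x ^ 24 := by rw [← pow_mul]
      _ ≤ t ^ 24 := pow_le_pow_left' hxt 24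
  exact absurd h2 (not_le.2 (pow_lt_pow_right_of_lt_one₀ (zero_lt_iff.2 ht0) ht hij))

end TYT

open TYT in
theorem tt_TYT : St_TYT := by
  intro V hv KI hKI i hi pi hpi
  have ht0 : V.valuation (2 : ℂ) ≠ 0 := (Valuation.ne_zero_iff _).2 two_ne_zero
  have hp1 : 1 ≤ V.valuation pi := by
    apply one_le_of_pow_N2H_TYT (n := 3) _ (by norm_num)
    calc (1 : V.ValueGroup) = V.valuation pi ^ 3 * V.valuation (2 : ℂ) ^ i := hpi.symm
      _ ≤ V.valuation pi ^ 3 * 1 := mul_le_mul' le_rfl (pow_le_one' hv.le i)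
      _ = V.valuation pi ^ 3 := mul_one _
  refine ⟨hp1, fun w hw => ⟨fun h1 => ?_, ?_, fun h2 h => ?_, fun h1 h => ?_⟩⟩
  · have hw0 : V.valuation w ≠ 0 := (zero_lt_one.trans h1).ne'
    have hlt : V.valuation w⁻¹ < 1 := by
      rw [map_inv₀]
      exact inv_lt_one_of_one_lt₀ h1
    have hle := hKI w⁻¹ (KI.inv_mem hw) hlt
    calc (1 : V.ValueGroup) = V.valuation w * V.valuation w⁻¹ := by
          rw [map_inv₀, mul_inv_cancel₀ hw0]
      _ ≤ V.valuation w * V.valuation (2 : ℂ) := mul_le_mul' le_rfl hle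
  · rw [map_mul, cube_N2H_TYT hpi]
    exact ⟨fun h => one_le_of_pow_N2H_TYT h (by norm_num), fun h => one_le_pow_of_one_le' h 3⟩
  · rw [map_mul] at h
    exact key_N2H_TYT (j := 1) ht0 hv (hKI w hw) hpi (by omega) (by rwa [pow_one])
  · rw [map_mul] at h
    exact key_N2H_TYT (j := 5) ht0 hv (hKI w hw) hpi (by omega) h

end

end Pool.Agent.N2H


end

section

/-!
# MUX-2N, block HT, module H1T: Theorem G for the part `1` of the symbol (helper76)
-/

set_option autoImplicit false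

namespace Pool.Agent.N2H

open _root_.MU3 _root_.Pool.Agent.MuSym _root_.Pool.Agent.MUXH _root_.Pool.Agent.N2 OnePoint

noncomputable section

namespace H1T

/-- the projector for the differences -/
theorem prj_PTq (r : ℤ) (hr : r ≠ 0) (q : ℕ) (hq : q ≠ 0) (c : ℕ → ℂ)
    (P Q : OnePoint ℚ → OnePoint ℚ → ℂ)
    (h : ∀ x y, ∑ t ∈ Finset.range q, c t * Q (mob q t 0 q x) (mob q t 0 q y) = P x y) :
    ∀ x y, ∑ t ∈ Finset.range q, c t * (Q (mob q t 0 q x) (mob q t 0 q y) -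
        Q (mob r 1 0 r (mob q t 0 q x)) (mob r 1 0 r (mob q t 0 q y))) =
      P x y - P (mob r 1 0 r x) (mob r 1 0 r y) := by
  intro x y
  have hq0 : (q : ℤ) ≠ 0 := by exact_mod_cast hq
  rw [← h x y, ← h (mob r 1 0 r x) (mob r 1 0 r y), ← Finset.sum_sub_distrib]
  refine Finset.sum_congr rfl fun k _ => ?_
  rw [MUXHN.H1N.mob_comm q k r 1 hq0 hr x, MUXHN.H1N.mob_comm q k r 1 hq0 hr y, mul_sub]

/-- the transfer of the bound -/
theorem gen {V : ValuationSubring ℂ} (P Q : OnePoint ℚ → OnePoint ℚ → ℂ) (bd : V.ValueGroup)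
    (hbd : 0 < bd) (q : ℕ) (hq : q ≠ 0) (c : ℕ → ℂ) (hc : ∀ t, V.valuation (c t) ≤ 1)
    (hprj : ∀ x y, ∑ t ∈ Finset.range q, c t * Q (mob q t 0 q x) (mob q t 0 q y) = P x y)
    (M : ℕ) (hG : ∃ α β γ δ : ℤ, α * δ - β * γ = 1 ∧ ((M * q ^ 2 : ℕ) : ℤ) ∣ γ ∧
      ((M * q ^ 2 : ℕ) : ℤ) ∣ δ - 1 ∧ bd ≤ V.valuation (P ∞ (mob α β γ δ ∞)) ^ 8) :
    ∃ α β γ δ : ℤ, α * δ - β * γ = 1 ∧ (M : ℤ) ∣ γ ∧ (M : ℤ) ∣ δ - 1 ∧
      bd ≤ V.valuation (Q ∞ (mob α β γ δ ∞)) ^ 8 := by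
  by_contra hcon
  push Not at hcon
  obtain ⟨D, hD⟩ : ∃ D : ℤ, D = (q : ℤ) := ⟨_, rfl⟩
  have hD0 : D ≠ 0 := by rw [hD]; exact_mod_cast hq
  obtain ⟨α, β, γ, δ, h1, h2, h3, h4⟩ := hG
  have hcast : ((M * q ^ 2 : ℕ) : ℤ) = M * D ^ 2 := by
    push_cast
    rw [hD]
  rw [hcast] at h2 h3
  obtain ⟨u, hu⟩ := h2
  obtain ⟨t, ht⟩ := h3
  have hterm : ∀ k ∈ Finset.range q, V.valuation (c k *
      Q (mob q k 0 q ∞) (mob q k 0 q (mob α β γ δ ∞))) ^ 8 < bd := by
    intro k _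
    have e1 : γ = D ^ 2 * (M * u) := by rw [hu]; ring
    have e2 : mob D k 0 D (mob α β γ δ ∞) =
        mob (α + k * D * (M * u)) (β + k * D * M * (t - (β * u - α * t)) - k ^ 2 * (M * u))
          (D ^ 2 * (M * u)) (δ - k * D * (M * u)) ∞ := by
      rw [e1]
      exact MUXH.H1.conj_mob D k α (M * u) hD0 _ _ _ _
    have hδ2 : δ = 1 + M * D ^ 2 * t := by linarith
    have hα2 : α = 1 + M * D ^ 2 * (β * u - α * t) := by
      have h5 : α = 1 + β * γ - α * (δ - 1) := by linarith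
      rw [ht, hu] at h5
      linarith
    rw [← hD, e2, MUXH.H1.mob_inf, map_mul]
    have h5 := hcon (α + k * D * (M * u))
      (β + k * D * M * (t - (β * u - α * t)) - k ^ 2 * (M * u))
      (D ^ 2 * (M * u)) (δ - k * D * (M * u)) ?_ ?_ ?_
    · refine lt_of_le_of_lt (pow_le_pow_left₀ zero_le (mul_le_of_le_one_left' (hc k)) 8) h5
    · have e3 : δ - α = M * D ^ 2 * (t - (β * u - α * t)) := by linarith
      have e4 : α * δ - β * (D ^ 2 * (M * u)) = 1 := by rw [← e1]; exact h1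
      linear_combination e4 + (k * D * (M * u)) * e3
    · exact Dvd.intro_left (D ^ 2 * u) (by ring)
    · refine ⟨D ^ 2 * t - k * D * u, ?_⟩
      rw [hδ2]
      ring
  have hsum : V.valuation (∑ k ∈ Finset.range q, c k *
      Q (mob q k 0 q ∞) (mob q k 0 q (mob α β γ δ ∞))) ^ 8 < bd := by
    refine Finset.sum_induction _ (fun x => V.valuation x ^ 8 < bd) ?_ ?_ hterm
    · intro x y hx hy
      have h := V.valuation.map_add x y
      rcases le_total (V.valuation x) (V.valuation y) with hxy | hxy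
      · rw [max_eq_right hxy] at h
        exact lt_of_le_of_lt (pow_le_pow_left₀ zero_le h 8) hy
      · rw [max_eq_left hxy] at h
        exact lt_of_le_of_lt (pow_le_pow_left₀ zero_le h 8) hx
    · show V.valuation 0 ^ 8 < _
      rw [map_zero, zero_pow (by norm_num)]
      exact hbd
  rw [hprj] at hsum
  exact absurd h4 (not_le.2 hsum)

end H1T

open _root_.Pool.Agent.N2H.H1T in
theorem tt_H1T : St_H1T := by
  intro V N₀ s₀ i nu P pi KI hyp N' hN' hdvd
  obtain ⟨q, c, hq, hc, hprj⟩ := hyp.prj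
  have h2pos : (0 : V.ValueGroup) < V.valuation (2 : ℂ) :=
    lt_of_le_of_ne zero_le ((Valuation.ne_zero_iff _).2 (by norm_num)).symm
  have h16 := prj_PTq 16 (by norm_num) q hq c _ _ hprj
  have h4 := prj_PTq 4 (by norm_num) q hq c _ _ hprj
  have h164 := prj_PTq 16 (by norm_num) q hq c _ (PTq 4 (sgnPart (1 : ℂ) P)) h4
  have hne : N' * q ^ 2 ≠ 0 := mul_ne_zero hN' (pow_ne_zero _ hq)
  exact ⟨gen (PTq 16 P) (PTq 16 (sgnPart (1 : ℂ) P)) _ h2pos q hq c hc h16 N'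
      (hyp.G1 _ hne (Dvd.dvd.mul_right hdvd _)),
    gen (PTq 16 (PTq 4 P)) (PTq 16 (PTq 4 (sgnPart (1 : ℂ) P))) _ (pow_pos h2pos 5) q hq c hc
      h164 N' (hyp.G2 _ hne (Dvd.dvd.mul_right hdvd _))⟩

end

end Pool.Agent.N2H


end

section

/-!
# MUX-2N, block HT, module SHT: `Q_(1/4)` is a symbol with the same character. Model:
`Pool/Agent/MUX/HN_KYN.lean` (helper95)
-/

set_option autoImplicit false

namespace Pool.Agent.N2H

open _root_.MU3 _root_.Pool.Agent.MuSym _root_.Pool.Agent.MUXH _root_.Pool.Agent.N2 OnePoint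

noncomputable section

/-- the translation by `1/4` on the finite cusps -/
theorem sht_tau (x : ℚ) : mob 4 1 0 4 (x : OnePoint ℚ) = ((x + 1 / 4 : ℚ) : OnePoint ℚ) := by
  rw [NSY.mob_coe _ _ _ _ _ (by norm_num)]
  congr 1
  push_cast
  ring

theorem sht_tau_inf : mob 4 1 0 4 (∞ : OnePoint ℚ) = ∞ := NSY.mob_infty0 _ _ _

/-- conjugation of a matrix by the translation by `1/4` -/
theorem sht_conj (a b c d a' b' d' : ℤ) (ha : 4 * a' = 4 * a + c)
    (hb : 16 * b' = 16 * b + 4 * (d - a) - c) (hd : 4 * d' = 4 * d - c) (x : OnePoint ℚ) :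
    mob 4 1 0 4 (mob a b c d x) = mob a' b' c d' (mob 4 1 0 4 x) := by
  have ha' : (a' : ℚ) = a + c / 4 := by
    have : (4 : ℚ) * a' = 4 * a + c := by exact_mod_cast ha
    linarith
  have hb' : (b' : ℚ) = b + (d - a) / 4 - c / 16 := by
    have : (16 : ℚ) * b' = 16 * b + 4 * (d - a) - c := by exact_mod_cast hb
    linarith
  have hd' : (d' : ℚ) = d - c / 4 := by
    have : (4 : ℚ) * d' = 4 * d - c := by exact_mod_cast hd
    linarith
  induction x using OnePoint.rec with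
  | infty =>
    by_cases hc : c = 0
    · subst hc
      rw [NSY.mob_infty0, sht_tau_inf, NSY.mob_infty0]
    · have hc' : (c : ℚ) ≠ 0 := by exact_mod_cast hc
      rw [NSY.mob_infty _ _ _ _ hc, sht_tau, sht_tau_inf, NSY.mob_infty _ _ _ _ hc, ha']
      congr 1
      field_simp
  | coe r =>
    rw [sht_tau]
    have e : (c : ℚ) * (r + 1 / 4) + d' = c * r + d := by
      rw [hd']
      ring
    by_cases h : (c : ℚ) * r + d = 0
    · have h1 : mob a b c d (r : OnePoint ℚ) = ∞ := by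
        unfold mob
        simp [h]
      have h2 : mob a' b' c d' ((r + 1 / 4 : ℚ) : OnePoint ℚ) = ∞ := by
        have e' : (c : ℚ) * (r + 4⁻¹) + d' = 0 := by
          rw [← h, ← e]
          ring
        unfold mob
        simp [e']
      rw [h1, h2, sht_tau_inf]
    · rw [NSY.mob_coe _ _ _ _ _ h, sht_tau, NSY.mob_coe _ _ _ _ _ (by rw [e]; exact h), e]
      congr 1
      have h' : (c : ℚ) * r + d ≠ 0 := h
      rw [eq_div_iff h', add_mul, div_mul_cancel₀ _ h', ha', hb']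
      ring

/-- (SHT) -/
theorem tt_SHT : St_SHT := by
  intro N₀ s nu Q hper hsym
  refine ⟨fun x y z => ?_, fun a b c d hdet hc x y => ?_⟩
  · unfold PTq
    rw [← hsym.add x y z, ← hsym.add (mob 4 1 0 4 x) (mob 4 1 0 4 y) (mob 4 1 0 4 z)]
    ring
  · obtain ⟨k, hk⟩ := hc
    -- `c = 16 c₂`, `c₁ = c/4`
    obtain ⟨c₂, hc2⟩ : ∃ c₂ : ℤ, c₂ = 2 ^ (s + 1) * N₀ * k := ⟨_, rfl⟩
    have hc : c = 16 * c₂ := by
      rw [hk, hc2]
      push_cast
      rw [show s + 5 = 4 + (s + 1) by omega, pow_add]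
      ring
    have hlev : ((2 ^ (s + 1) * N₀ : ℕ) : ℤ) ∣ c := by
      rw [hc, hc2]
      push_cast
      exact ⟨16 * k, by ring⟩
    have h2N : ((2 * N₀ : ℕ) : ℤ) ∣ 4 * c₂ := by
      rw [hc2]
      push_cast
      exact ⟨4 * 2 ^ s * k, by ring⟩
    -- `4 ∣ d - a`
    have h4 : (4 : ℤ) ∣ d - a := by
      have h1 : a * d = 1 + 4 * (4 * (b * c₂)) := by
        rw [hc] at hdet
        linear_combination hdet
      have h2 : (a * d) % 4 = 1 := by omega
      have ha : a % 4 = 0 ∨ a % 4 = 1 ∨ a % 4 = 2 ∨ a % 4 = 3 := by omega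
      have hd : d % 4 = 0 ∨ d % 4 = 1 ∨ d % 4 = 2 ∨ d % 4 = 3 := by omega
      rw [Int.mul_emod] at h2
      rcases ha with ha | ha | ha | ha <;> rcases hd with hd | hd | hd | hd <;>
        rw [ha, hd] at h2 <;> norm_num at h2 <;> omega
    obtain ⟨e, he⟩ := h4
    have hconj := sht_conj a b c d (a + 4 * c₂) (b + e - c₂) (d - 4 * c₂)
      (by rw [hc]; ring) (by rw [hc, he]; ring) (by rw [hc]; ring)
    have hdet' : (a + 4 * c₂) * (d - 4 * c₂) - (b + e - c₂) * c = 1 := by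
      rw [hc] at hdet ⊢
      linear_combination hdet + 4 * c₂ * he
    have hnu : nu (d - 4 * c₂) = nu d := by
      apply hper
      have e1 : d - 4 * c₂ - d = -(4 * c₂) := by ring
      rw [e1, dvd_neg]
      exact h2N
    unfold PTq
    rw [hconj x, hconj y, hsym.equiv a b c d hdet hlev x y, hsym.equiv _ _ c _ hdet' hlev, hnu]
    ring

end

end Pool.Agent.N2H


end

section

/-!
# MUX-2N, block HT, module HKT: the part `s` of the symbol (adapted from `MUX/HN_HKN.lean`)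
-/

set_option autoImplicit false

namespace Pool.Agent.N2H

open _root_.MU3 _root_.Pool.Agent.MuSym _root_.Pool.Agent.MUXH _root_.Pool.Agent.N2 OnePoint

noncomputable section

/-- (HKT) the part `s` of the symbol. -/
theorem tt_HKT : St_HKT := by
  intro N' nu P s hP hnu hdep
  obtain ⟨h1, h2, -⟩ := tx_HK 2 (by norm_num) N' nu P P hP hnu s
  refine ⟨h2, h1, ?_⟩
  have ht : ∀ (r : ℚ) (k : ℤ), P ∞ ((r + k : ℚ) : OnePoint ℚ) = P ∞ (r : OnePoint ℚ) := by
    intro r k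
    have h := hP.equiv 1 k 0 1 (by ring) (dvd_zero _) ∞ (r : OnePoint ℚ)
    rw [Hk.mob_inf, Hk.mob_tr, hnu, one_mul] at h
    exact h
  have hs : ∀ r : ℚ, sgnPart s P ∞ (r : OnePoint ℚ) =
      P ∞ (r : OnePoint ℚ) + s * P ∞ ((-r : ℚ) : OnePoint ℚ) := by
    intro r
    unfold sgnPart
    rw [Hk.mob_inf, Hk.mob_neg]
  intro x
  have e1 := hdep x
  have e2 := hdep (-x)
  simp only [Finset.sum_range_succ, Finset.sum_range_zero, zero_add] at e1 e2 ⊢
  have a0 : (-((x + ((0 : ℕ) : ℚ)) / 2) : ℚ) = (-x + ((0 : ℕ) : ℚ)) / 2 := by push_cast; ring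
  have a1 : (-((x + ((1 : ℕ) : ℚ)) / 2) : ℚ) = (-x + ((1 : ℕ) : ℚ)) / 2 + ((-1 : ℤ) : ℚ) := by
    push_cast; ring
  rw [hs, hs, a0, a1, ht]
  linear_combination e1 + s * e2

end

end Pool.Agent.N2H


end

section

/-!
# MUX-2N, block HT, module BDT: bounded denominators (adapted from `MUX/HN_BDN.lean`)
-/

set_option autoImplicit false

namespace Pool.Agent.N2H

open _root_.MU3 _root_.Pool.Agent.MuSym _root_.Pool.Agent.MUXH _root_.Pool.Agent.N2 OnePoint

noncomputable section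

/-- (BDT) bounded denominators. -/
theorem tt_BDT : St_BDT := by
  intro V hv P halg hfin
  obtain ⟨T, hT⟩ := hfin
  obtain ⟨⟨l, ⟨x0, y0, rfl⟩, hmax⟩, -⟩ := tx_MAX V T {z | ∃ x y, P x y = z} (by
      rintro _ ⟨x, y, rfl⟩
      exact hT x y) ⟨_, ∞, ∞, rfl⟩
  obtain ⟨k, hk⟩ := tx_ALB 2 Nat.prime_two V (by exact_mod_cast hv) _ (halg x0 y0)
  refine ⟨k, fun x y => ?_⟩
  have hk' : V.valuation (2 ^ k * P x0 y0) ≤ 1 := by exact_mod_cast hk
  refine le_trans ?_ hk'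
  rw [map_mul, map_mul]
  exact mul_le_mul_right (hmax _ ⟨x, y, rfl⟩) _

end

end Pool.Agent.N2H


end

section

/-!
# MUX-2N, block HT: glue (helper66)
-/

set_option autoImplicit false

namespace Pool.Agent.N2H

open _root_.MU3 _root_.Pool.Agent.MuSym _root_.Pool.Agent.MUXH _root_.Pool.Agent.N2 OnePoint

noncomputable section

namespace HTG

/-- the elements `x` with `v(x)³ t^i < 1`, as a submodule of `ℂ` -/
def mT (V : ValuationSubring ℂ) (i : ℕ) : Submodule V ℂ where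
  carrier := {x | V.valuation x ^ 3 * V.valuation (2 : ℂ) ^ i < 1}
  add_mem' := by
    intro a b ha hb
    change V.valuation (a + b) ^ 3 * V.valuation (2 : ℂ) ^ i < 1
    have ha' : V.valuation a ^ 3 * V.valuation (2 : ℂ) ^ i < 1 := ha
    have hb' : V.valuation b ^ 3 * V.valuation (2 : ℂ) ^ i < 1 := hb
    rcases le_total (V.valuation a) (V.valuation b) with h | h
    · have h1 : V.valuation (a + b) ≤ V.valuation b :=
        (V.valuation.map_add a b).trans (max_le h le_rfl)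
      exact lt_of_le_of_lt (mul_le_mul_left (pow_le_pow_left' h1 3) _) hb'
    · have h1 : V.valuation (a + b) ≤ V.valuation a :=
        (V.valuation.map_add a b).trans (max_le le_rfl h)
      exact lt_of_le_of_lt (mul_le_mul_left (pow_le_pow_left' h1 3) _) ha'
  zero_mem' := by
    change V.valuation 0 ^ 3 * V.valuation (2 : ℂ) ^ i < 1
    rw [map_zero, zero_pow (by norm_num), zero_mul]
    exact zero_lt_one
  smul_mem' := by
    intro c x hx
    change V.valuation ((c : ℂ) * x) ^ 3 * V.valuation (2 : ℂ) ^ i < 1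
    have h1 : V.valuation (c : ℂ) ≤ 1 := (V.valuation_le_one_iff _).2 c.2
    have h2 : V.valuation x ^ 3 * V.valuation (2 : ℂ) ^ i < 1 := hx
    have h3 : V.valuation ((c : ℂ) * x) ≤ V.valuation x := by
      rw [map_mul]
      exact mul_le_of_le_one_left' h1
    exact lt_of_le_of_lt (mul_le_mul_left (pow_le_pow_left' h3 3) _) h2

lemma mem_mT {V : ValuationSubring ℂ} {i : ℕ} {x : ℂ} :
    x ∈ mT V i ↔ V.valuation x ^ 3 * V.valuation (2 : ℂ) ^ i < 1 := Iff.rfl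

/-- from small combinations to vanishing cycles -/
lemma fin_aux (hLOCT : St_LOCT) (hKYT : St_KYT) (V : ValuationSubring ℂ)
    (hV : V.valuation (2 : ℂ) < 1) (m : Submodule V ℂ) (N₀ s : ℕ) (nu : ℤ → ℂ)
    (F : OnePoint ℚ → OnePoint ℚ → ℂ) (hN2 : 2 ≤ N₀) (hcop : Nat.Coprime 2 N₀) (hnu1 : nu 1 = 1)
    (hper : ∀ d d', ((2 * N₀ : ℕ) : ℤ) ∣ d - d' → nu d = nu d')
    (hunit : ∀ d, IsCoprime d ((2 * N₀ : ℕ) : ℤ) → V.valuation (nu d) = 1)
    (hF : IsSym (2 ^ (s + 1) * N₀) nu F) (k n₁ : ℕ)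
    (hFp : ∀ (r : ℚ) (k : ℤ), F ∞ ((r + k : ℚ) : OnePoint ℚ) = F ∞ (r : OnePoint ℚ))
    (hk : ∀ x y, (2 : ℂ) ^ k * F x y ∈ m) (α g : ℤ) (hα : (4 : ℤ) ∣ α - 1) (hα1 : α ≠ 1)
    (hg : (4 : ℤ) ∣ g - 1) (hg1 : g ≠ 1)
    (hall : ∀ n, n₁ ≤ n → ∀ b : ℤ, ¬ (2 : ℤ) ∣ b →
      comb α g 1 (fun b => F ∞ (((b : ℚ) / 2 ^ n : ℚ) : OnePoint ℚ)) b ∈ m) :
    ∃ R : ℕ, ∀ a b c d : ℤ, a * d - b * c = 1 → (2 : ℤ) ^ R * N₀ ∣ c →
      (2 : ℤ) ^ R * N₀ ∣ d - 1 → ∀ x, PTq 16 F x (mob a b c d x) ∈ m := by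
  let z : ℕ → ℤ → ℂ := fun n b => F ∞ (((b : ℚ) / 2 ^ n : ℚ) : OnePoint ℚ)
  have hzper : ∀ (n : ℕ) (b c : ℤ), (2 : ℤ) ^ n ∣ b - c → z n b = z n c := by
    rintro n b c ⟨t, ht⟩
    have e : ((b : ℚ) / 2 ^ n : ℚ) = (c : ℚ) / 2 ^ n + t := by
      have h3 : ((2 : ℚ) ^ n) ≠ 0 := by positivity
      have : (b : ℚ) = c + 2 ^ n * t := by
        have : (b : ℤ) = c + 2 ^ n * t := by linear_combination ht
        exact_mod_cast this
      rw [this]
      field_simp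
    change F ∞ (((b : ℚ) / 2 ^ n : ℚ) : OnePoint ℚ) = F ∞ (((c : ℚ) / 2 ^ n : ℚ) : OnePoint ℚ)
    rw [e]
    exact hFp _ t
  obtain ⟨r, hr⟩ := hLOCT V hV m z k n₁ hzper (fun n b => hk _ _) α g hα hα1 hg hg1 1 hall
  exact hKYT V hV m N₀ s nu F hN2 hcop hnu1 hper hunit hF r n₁ hr

lemma mob_trq (q : ℤ) (hq : q ≠ 0) (r : ℚ) :
    mob q 1 0 q (r : OnePoint ℚ) = ((r + 1 / q : ℚ) : OnePoint ℚ) := by
  rw [MUXHN.H1N.mob_tr q 1 hq]
  push_cast
  rfl

end HTG

open _root_.Pool.Agent.N2H.HTG in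
/-- (HT) -/
theorem tt_HT (hBDT : St_BDT) (hHKT : St_HKT) (hSHT : St_SHT) (hH1T : St_H1T) (hTYT : St_TYT)
    (hLOCT : St_LOCT) (hKYT : St_KYT) (hDVT : St_DVT) : St_HT := by
  intro V N₀ s₀ i nu P pi KI H α g hα hα1 hg hg1 n₀
  by_contra hcon
  push Not at hcon
  obtain ⟨hQs, hQp, hQd⟩ := hHKT _ nu P (1 : ℂ) H.sym H.nu1 H.dep
  obtain ⟨k, hk⟩ := hBDT V H.vp P H.alg H.fin
  set Q := sgnPart (1 : ℂ) P with hQ
  set t := V.valuation (2 : ℂ) with ht
  have ht0 : (0 : V.ValueGroup) < t := by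
    rw [ht]
    exact zero_lt_iff.2 ((V.valuation.ne_zero_iff).2 two_ne_zero)
  have ht1 : t < 1 := H.vp
  have hti : t ^ i ≤ 1 := pow_le_one' ht1.le i
  have hti0 : (0 : V.ValueGroup) < t ^ i := pow_pos ht0 i
  have hpi : pi ≠ 0 := by
    rintro rfl
    have := H.vpi
    rw [map_zero, zero_pow (by norm_num), zero_mul] at this
    exact zero_ne_one this
  have hpi1 : 1 ≤ V.valuation pi := (hTYT V H.vp KI H.unr i H.i2 pi H.vpi).1
  have hTY := (hTYT V H.vp KI H.unr i H.i2 pi H.vpi).2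
  -- the values of `Q`
  have hQtyp : ∀ x y, ∃ w ∈ KI, Q x y = pi * w := by
    intro x y
    obtain ⟨w1, hw1, e1⟩ := H.typ x y
    obtain ⟨w2, hw2, e2⟩ := H.typ (mob (-1) 0 0 1 x) (mob (-1) 0 0 1 y)
    refine ⟨w1 + w2, add_mem hw1 hw2, ?_⟩
    rw [hQ]
    unfold sgnPart
    rw [e1, e2]
    ring
  have hQk : ∀ x y, V.valuation (2 ^ k * Q x y) ≤ 1 := by
    intro x y
    have e : (2 : ℂ) ^ k * Q x y = 2 ^ k * P x y +
        (2 ^ k * P (mob (-1) 0 0 1 x) (mob (-1) 0 0 1 y)) := by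
      rw [hQ]
      unfold sgnPart
      ring
    rw [e]
    exact (V.valuation.map_add _ _).trans (max_le (hk _ _) (hk _ _))
  have hsmall : ∀ x : ℂ, V.valuation (2 ^ k * x) ≤ 1 → (2 : ℂ) ^ (k + 1) * x ∈ mT V i := by
    intro x hx
    rw [mem_mT]
    have e : (2 : ℂ) ^ (k + 1) * x = 2 * (2 ^ k * x) := by ring
    rw [e, map_mul]
    have h1 : V.valuation (2 : ℂ) * V.valuation (2 ^ k * x) < 1 := by
      exact mul_lt_one_of_lt_of_le H.vp hx
    have h2 : (V.valuation (2 : ℂ) * V.valuation (2 ^ k * x)) ^ 3 < 1 :=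
      pow_lt_one' h1 (by norm_num)
    exact mul_lt_one_of_lt_of_le h2 hti
  -- the functions on the levels
  let z : ℕ → ℤ → ℂ := fun n b => Q ∞ (((b : ℚ) / 2 ^ n : ℚ) : OnePoint ℚ)
  have hzper : ∀ (n : ℕ) (b c : ℤ), (2 : ℤ) ^ n ∣ b - c → z n b = z n c := by
    rintro n b c ⟨t, ht⟩
    have e : ((b : ℚ) / 2 ^ n : ℚ) = (c : ℚ) / 2 ^ n + t := by
      have h3 : ((2 : ℚ) ^ n) ≠ 0 := by positivity
      have : (b : ℚ) = c + 2 ^ n * t := by
        have : (b : ℤ) = c + 2 ^ n * t := by linear_combination ht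
        exact_mod_cast this
      rw [this]
      field_simp
    change Q ∞ (((b : ℚ) / 2 ^ n : ℚ) : OnePoint ℚ) = Q ∞ (((c : ℚ) / 2 ^ n : ℚ) : OnePoint ℚ)
    rw [e]
    exact hQp _ t
  have hzdep : ∀ (n : ℕ) (b : ℤ), z (n + 1) (b + 2 ^ n) = - z (n + 1) b := by
    intro n b
    have h := hQd ((b : ℚ) / 2 ^ n)
    rw [Finset.sum_range_succ, Finset.sum_range_one] at h
    have h3 : ((2 : ℚ) ^ n) ≠ 0 := by positivity
    have e1 : (((b : ℚ) / 2 ^ n + ((0 : ℕ) : ℚ)) / 2 : ℚ) = ((b : ℤ) : ℚ) / 2 ^ (n + 1) := by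
      push_cast
      field_simp
      ring
    have e2 : (((b : ℚ) / 2 ^ n + ((1 : ℕ) : ℚ)) / 2 : ℚ) =
        ((b + 2 ^ n : ℤ) : ℚ) / 2 ^ (n + 1) := by
      push_cast
      field_simp
      ring
    rw [e1, e2] at h
    exact eq_neg_of_add_eq_zero_right h
  have hztyp : ∀ n b, ∃ w ∈ KI, z n b = pi * w := fun n b => hQtyp _ _
  have hint : ∀ a : ℤ, (a : ℂ) ∈ KI := fun a => intCast_mem KI a
  have hYtyp : ∀ n b, ∃ w ∈ KI, comb α g 1 (z n) b = pi * w := by
    intro n b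
    choose w hw hw' using hztyp n
    refine ⟨∑ j ∈ Finset.range (1 + 1), ((-1 : ℂ) ^ (1 - j) * ((1 : ℕ).choose j : ℂ)) *
      ((α : ℂ) * w (g ^ (1 - j) * b) - (α : ℂ) ^ 2 * w (g ^ (1 - j) * α ^ 2 * b)), ?_, ?_⟩
    · refine sum_mem fun j _ => mul_mem (mul_mem (pow_mem (neg_mem (one_mem _)) _)
        (natCast_mem KI _)) (sub_mem (mul_mem (hint α) (hw _))
        (mul_mem (pow_mem (hint α) 2) (hw _)))
    · unfold comb
      rw [Finset.mul_sum]
      refine Finset.sum_congr rfl fun j _ => ?_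
      rw [hw', hw']
      ring
  have hYper : ∀ n, ∀ b c : ℤ, (2 : ℤ) ^ n ∣ b - c →
      comb α g 1 (z n) b = comb α g 1 (z n) c := by
    intro n b c hbc
    unfold comb
    refine Finset.sum_congr rfl fun j _ => ?_
    rw [hzper n (g ^ (1 - j) * b) (g ^ (1 - j) * c) (by
        rw [← mul_sub]; exact hbc.mul_left _),
      hzper n (g ^ (1 - j) * α ^ 2 * b) (g ^ (1 - j) * α ^ 2 * c) (by
        rw [← mul_sub]; exact hbc.mul_left _)]
  have hpow : ∀ (u : ℤ), (4 : ℤ) ∣ u - 1 → ∀ j : ℕ, (4 : ℤ) ∣ u ^ j - 1 := by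
    intro u hu j
    have := sub_dvd_pow_sub_pow u 1 j
    rw [one_pow] at this
    exact hu.trans this
  -- a shift by `2^e`, `n ≤ e + 2`
  have hshift : ∀ (n e : ℕ), n ≤ e + 2 → ∀ (u : ℤ), (4 : ℤ) ∣ u - 1 → ∀ b : ℤ,
      z n (u * (b + 2 ^ e)) = z n (u * b + 2 ^ e) := by
    intro n e hne u hu b
    refine hzper _ _ _ ?_
    obtain ⟨w, hw⟩ := hu
    have e1 : u * (b + 2 ^ e) - (u * b + 2 ^ e) = 2 ^ (e + 2) * w := by
      have : u = 1 + 4 * w := by linear_combination hw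
      rw [this, pow_add]
      ring
    rw [e1]
    exact (pow_dvd_pow 2 hne).mul_right _
  have hgα : ∀ j : ℕ, (4 : ℤ) ∣ g ^ j * α ^ 2 - 1 := by
    intro j
    have e : g ^ j * α ^ 2 - 1 = (g ^ j - 1) * α ^ 2 + (α ^ 2 - 1) := by ring
    rw [e]
    exact dvd_add ((hpow g hg _).mul_right _) (hpow α hα 2)
  have hYdep : ∀ (m : ℕ) (b : ℤ), comb α g 1 (z (m + 1)) (b + 2 ^ m) =
      - comb α g 1 (z (m + 1)) b := by
    intro m b
    unfold comb
    rw [← Finset.sum_neg_distrib]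
    refine Finset.sum_congr rfl fun j _ => ?_
    rw [hshift (m + 1) m (by omega) _ (hpow g hg (1 - j)) b,
      hshift (m + 1) m (by omega) _ (hgα (1 - j)) b, hzdep, hzdep]
    ring
  have hYdiv : ∀ n, ∀ b b' : ℤ, comb α g 1 (z n) b' ≠ 0 →
      comb α g 1 (z n) b / comb α g 1 (z n) b' ∈ KI := by
    intro n b b' hb'
    obtain ⟨w, hw, e⟩ := hYtyp n b
    obtain ⟨w', hw', e'⟩ := hYtyp n b'
    rw [e, e', mul_div_mul_left _ _ hpi]
    exact div_mem hw hw'
  have hnuv : ∀ d, IsCoprime d ((2 * N₀ : ℕ) : ℤ) → V.valuation (nu d) = 1 := by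
    intro d hd
    obtain ⟨a, b, hab⟩ := hd
    have h1 : nu (d * a) = nu 1 := H.nuper _ _ ⟨-b, by linear_combination hab⟩
    rw [H.num, H.nu1] at h1
    refine le_antisymm (H.nuv d) ?_
    have h2 : V.valuation (nu d) * V.valuation (nu a) = 1 := by
      rw [← map_mul, h1, map_one]
    calc (1 : V.ValueGroup) = V.valuation (nu d) * V.valuation (nu a) := h2.symm
      _ ≤ V.valuation (nu d) * 1 := by
        exact mul_le_mul_right (H.nuv a) _
      _ = V.valuation (nu d) := mul_one _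
  have hN0 : N₀ ≠ 0 := by have := H.N0; omega
  rcases Nat.lt_or_ge i 2 with hi | hi
  · -- `i ≤ 1`
    have hi1 : i ≤ 1 := by omega
    -- the values of the combinations
    have hY1 : ∀ n, max n₀ 3 ≤ n → ∀ b, V.valuation (comb α g 1 (z n) b) ≤ V.valuation pi := by
      intro n hn b
      obtain ⟨m, rfl⟩ : ∃ m, n = m + 1 := ⟨n - 1, by omega⟩
      by_contra hb
      rw [not_le] at hb
      obtain ⟨ζ, hζ, hle⟩ := hcon (m + 1) (by omega)
      obtain ⟨w, hw, e⟩ := hYtyp (m + 1) b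
      have hY0 : comb α g 1 (z (m + 1)) b ≠ 0 := by
        intro h0
        rw [h0, map_zero] at hb
        exact not_lt_zero hb
      have hw1 : 1 < V.valuation w := by
        by_contra hw1
        rw [not_lt] at hw1
        rw [e, map_mul] at hb
        exact absurd hb (not_lt.2 (mul_le_of_le_one_right' hw1))
      have h1 := (hTY w hw).1 hw1
      have h2 := (hDVT V H.vp KI H.unr m (by omega) (comb α g 1 (z (m + 1)))
        (hYper (m + 1)) (hYdep m) (hYdiv (m + 1)) b hY0 ζ hζ).1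
      -- `t < v(Σ)`
      have h3 : t < V.valuation (∑ b ∈ Finset.range (2 ^ (m + 1)), ζ ^ b *
          comb α g 1 (z (m + 1)) b) := by
        refine lt_of_le_of_lt ?_ h2
        rw [e, map_mul]
        calc t = t * 1 := (mul_one _).symm
          _ ≤ t * (V.valuation pi * (V.valuation w * t)) := by
            exact mul_le_mul_right (one_le_mul hpi1 h1) t
          _ = t ^ 2 * (V.valuation pi * V.valuation w) := by
            rw [sq]
            ac_rfl
      have h4 : t ^ 3 < V.valuation (∑ b ∈ Finset.range (2 ^ (m + 1)), ζ ^ b *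
          comb α g 1 (z (m + 1)) b) ^ 2 := by
        calc t ^ 3 ≤ t ^ 2 := pow_le_pow_right_of_le_one' ht1.le (by norm_num)
          _ < _ := pow_lt_pow_left₀ h3 zero_le (by norm_num)
      exact absurd hle (not_le.2 h4)
    have hY2 : ∀ n, max n₀ 3 ≤ n → ∀ b, comb α g 1 (z n) b -
        comb α g 1 (z n) (b + 2 ^ (n - 2)) ∈ mT V i := by
      intro n hn b₁
      obtain ⟨m, rfl⟩ : ∃ m, n = m + 1 := ⟨n - 1, by omega⟩
      by_contra hb
      rw [mem_mT, not_lt] at hb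
      obtain ⟨ζ, hζ, hle⟩ := hcon (m + 1) (by omega)
      have e0 : m + 1 - 2 = m - 1 := by omega
      rw [e0] at hb
      obtain ⟨w, hw, e⟩ := hYtyp (m + 1) b₁
      obtain ⟨w', hw', e'⟩ := hYtyp (m + 1) (b₁ + 2 ^ (m - 1))
      have e1 : comb α g 1 (z (m + 1)) b₁ - comb α g 1 (z (m + 1)) (b₁ + 2 ^ (m - 1)) =
          pi * (w - w') := by
        rw [e, e']
        ring
      rw [e1] at hb
      have hww : 1 ≤ V.valuation (w - w') := (hTY (w - w') (sub_mem hw hw')).2.1.1 hb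
      have hd1 : V.valuation pi ≤ V.valuation (comb α g 1 (z (m + 1)) (b₁ + 2 ^ (m - 1)) -
          comb α g 1 (z (m + 1)) b₁) := by
        rw [Valuation.map_sub_swap, e1, map_mul]
        exact le_mul_of_one_le_right' hww
      -- one of the two values has valuation `≥ 1`
      obtain ⟨b₀, hb₀, hb₀1⟩ : ∃ b₀, comb α g 1 (z (m + 1)) b₀ ≠ 0 ∧
          1 ≤ V.valuation (comb α g 1 (z (m + 1)) b₀) := by
        by_contra hno
        push Not at hno
        have hlt : ∀ b, V.valuation (comb α g 1 (z (m + 1)) b) < 1 := by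
          intro b
          by_cases h0 : comb α g 1 (z (m + 1)) b = 0
          · rw [h0, map_zero]
            exact zero_lt_one
          · exact hno b h0
        have h5 : V.valuation (comb α g 1 (z (m + 1)) (b₁ + 2 ^ (m - 1)) -
            comb α g 1 (z (m + 1)) b₁) < 1 :=
          lt_of_le_of_lt (V.valuation.map_sub _ _) (max_lt (hlt _) (hlt _))
        exact absurd (hpi1.trans hd1) (not_le.2 h5)
      have h2 := (hDVT V H.vp KI H.unr m (by omega) (comb α g 1 (z (m + 1)))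
        (hYper (m + 1)) (hYdep m) (hYdiv (m + 1)) b₀ hb₀ ζ hζ).2 b₁
        (fun b => (hY1 (m + 1) hn b).trans hd1)
      have h4 : t ^ 3 < V.valuation (∑ b ∈ Finset.range (2 ^ (m + 1)), ζ ^ b *
          comb α g 1 (z (m + 1)) b) ^ 2 := by
        refine lt_of_le_of_lt ?_ h2
        exact le_mul_of_one_le_right' (one_le_pow_of_one_le' hb₀1 2)
      exact absurd hle (not_le.2 h4)
    -- the symbol `Q' = PTq 4 Q`
    have hQ's : IsSym (2 ^ (s₀ + 4 + 1) * N₀) nu (PTq 4 Q) := hSHT N₀ s₀ nu Q H.nuper hQs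
    have hQ'eq : ∀ n, 2 ≤ n → ∀ b : ℤ, PTq 4 Q ∞ (((b : ℚ) / 2 ^ n : ℚ) : OnePoint ℚ) =
        z n b - z n (b + 2 ^ (n - 2)) := by
      intro n hn b
      obtain ⟨m, rfl⟩ : ∃ m, n = m + 2 := ⟨n - 2, by omega⟩
      unfold PTq
      rw [MUXH.H1.mob_inf, mob_trq 4 (by norm_num)]
      have e : ((b : ℚ) / 2 ^ (m + 2) + 1 / ((4 : ℤ) : ℚ) : ℚ) =
          ((b + 2 ^ (m + 2 - 2) : ℤ) : ℚ) / 2 ^ (m + 2) := by
        have h3 : ((2 : ℚ) ^ m) ≠ 0 := by positivity
        rw [Nat.add_sub_cancel]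
        push_cast
        rw [pow_add]
        field_simp
        ring
      rw [e]
    have hQ'p : ∀ (r : ℚ) (k : ℤ), PTq 4 Q ∞ ((r + k : ℚ) : OnePoint ℚ) =
        PTq 4 Q ∞ (r : OnePoint ℚ) := by
      intro r k
      unfold PTq
      rw [MUXH.H1.mob_inf, mob_trq 4 (by norm_num), mob_trq 4 (by norm_num), hQp]
      have e : (r + k + 1 / ((4 : ℤ) : ℚ) : ℚ) = r + 1 / ((4 : ℤ) : ℚ) + k := by ring
      rw [e, hQp]
    obtain ⟨R, hR⟩ := fin_aux hLOCT hKYT V H.vp (mT V i) N₀ (s₀ + 4) nu (PTq 4 Q) H.N0 H.cop H.nu1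
      H.nuper hnuv hQ's (k + 1) (max n₀ 3) hQ'p (by
        intro x y
        unfold PTq
        rw [mul_sub]
        exact sub_mem (hsmall _ (hQk _ _)) (hsmall _ (hQk _ _))) α g hα hα1 hg hg1 (by
        intro n hn b _
        have h := hY2 n hn b
        have e : comb α g 1 (fun b => PTq 4 Q ∞ (((b : ℚ) / 2 ^ n : ℚ) : OnePoint ℚ)) b =
            comb α g 1 (z n) b - comb α g 1 (z n) (b + 2 ^ (n - 2)) := by
          unfold comb
          rw [← Finset.sum_sub_distrib]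
          refine Finset.sum_congr rfl fun j _ => ?_
          rw [hshift n (n - 2) (by omega) _ (hpow g hg (1 - j)) b,
            hshift n (n - 2) (by omega) _ (hgα (1 - j)) b]
          beta_reduce
          rw [hQ'eq n (by omega), hQ'eq n (by omega)]
          ring
        rw [e]
        exact h)
    obtain ⟨a, b, c, d, hdet, hc, hd, hv⟩ := (hH1T V N₀ s₀ i nu P pi KI H
      (2 ^ (R + (s₀ + 1)) * N₀) (mul_ne_zero (pow_ne_zero _ (by norm_num)) hN0)
      (mul_dvd_mul_right (pow_dvd_pow 2 (Nat.le_add_left _ _)) _)).2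
    have hdvd : (2 : ℤ) ^ R * (N₀ : ℤ) ∣ ((2 ^ (R + (s₀ + 1)) * N₀ : ℕ) : ℤ) := by
      push_cast
      exact mul_dvd_mul_right (pow_dvd_pow 2 (Nat.le_add_right _ _)) _
    have h1 := hR a b c d hdet (hdvd.trans hc) (hdvd.trans hd) ∞
    have hQ'typ : ∀ x y, ∃ w ∈ KI, PTq 4 Q x y = pi * w := by
      intro x y
      obtain ⟨w1, hw1, e1⟩ := hQtyp x y
      obtain ⟨w2, hw2, e2⟩ := hQtyp (mob 4 1 0 4 x) (mob 4 1 0 4 y)
      refine ⟨w1 - w2, sub_mem hw1 hw2, ?_⟩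
      unfold PTq
      rw [e1, e2]
      ring
    obtain ⟨w1, hw1, e1⟩ := hQ'typ ∞ (mob a b c d ∞)
    obtain ⟨w2, hw2, e2⟩ := hQ'typ (mob 16 1 0 16 ∞) (mob 16 1 0 16 (mob a b c d ∞))
    have e3 : PTq 16 (PTq 4 Q) ∞ (mob a b c d ∞) = pi * (w1 - w2) := by
      change PTq 4 Q ∞ (mob a b c d ∞) -
        PTq 4 Q (mob 16 1 0 16 ∞) (mob 16 1 0 16 (mob a b c d ∞)) = _
      rw [e1, e2]
      ring
    rw [mem_mT, e3] at h1
    rw [← hQ, e3] at hv
    have hww := (hTY (w1 - w2) (sub_mem hw1 hw2)).2.2.2 hi1 hv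
    exact absurd h1 (not_lt.2 ((hTY (w1 - w2) (sub_mem hw1 hw2)).2.1.2 hww))
  · -- `i = 2`
    obtain rfl : i = 2 := le_antisymm H.i2 hi
    have hY : ∀ n, max n₀ 3 ≤ n → ∀ b, comb α g 1 (z n) b ∈ mT V 2 := by
      intro n hn b
      obtain ⟨m, rfl⟩ : ∃ m, n = m + 1 := ⟨n - 1, by omega⟩
      by_contra hb
      rw [mem_mT, not_lt] at hb
      obtain ⟨ζ, hζ, hle⟩ := hcon (m + 1) (by omega)
      have hY0 : comb α g 1 (z (m + 1)) b ≠ 0 := by
        intro h0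
        rw [h0, map_zero, zero_pow (by norm_num), zero_mul] at hb
        exact absurd hb (not_le.2 zero_lt_one)
      have h2 := (hDVT V H.vp KI H.unr m (by omega) (comb α g 1 (z (m + 1)))
        (hYper (m + 1)) (hYdep m) (hYdiv (m + 1)) b hY0 ζ hζ).1
      set S := V.valuation (∑ b ∈ Finset.range (2 ^ (m + 1)), ζ ^ b *
          comb α g 1 (z (m + 1)) b) with hS
      have hle' : S ^ 2 ≤ t ^ 3 := hle
      set Yb := V.valuation (comb α g 1 (z (m + 1)) b) with hYb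
      have h3 : t ^ 4 < S ^ 3 := by
        calc t ^ 4 = t ^ 4 * 1 := (mul_one _).symm
          _ ≤ t ^ 4 * (Yb ^ 3 * t ^ 2) := mul_le_mul_right hb _
          _ = (t ^ 2 * Yb) ^ 3 := by
            rw [mul_left_comm, ← pow_add, mul_pow, ← pow_mul, mul_comm]
          _ < S ^ 3 := pow_lt_pow_left₀ h2 zero_le (by norm_num)
      have h4 : t ^ 8 < S ^ 6 := by
        calc t ^ 8 = (t ^ 4) ^ 2 := by rw [← pow_mul]
          _ < (S ^ 3) ^ 2 := pow_lt_pow_left₀ h3 zero_le (by norm_num)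
          _ = S ^ 6 := by rw [← pow_mul]
      have h5 : S ^ 6 ≤ t ^ 9 := by
        calc S ^ 6 = (S ^ 2) ^ 3 := by rw [← pow_mul]
          _ ≤ (t ^ 3) ^ 3 := pow_le_pow_left' hle' 3
          _ = t ^ 9 := by rw [← pow_mul]
      have h6 : t ^ 9 ≤ t ^ 8 := pow_le_pow_right_of_le_one' ht1.le (by norm_num)
      exact absurd (h5.trans h6) (not_le.2 h4)
    obtain ⟨R, hR⟩ := fin_aux hLOCT hKYT V H.vp (mT V 2) N₀ s₀ nu Q H.N0 H.cop H.nu1
      H.nuper hnuv hQs (k + 1) (max n₀ 3) hQp (fun x y => hsmall _ (hQk _ _)) α g hα hα1 hg hg1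
      (fun n hn b _ => hY n hn b)
    obtain ⟨a, b, c, d, hdet, hc, hd, hv⟩ := (hH1T V N₀ s₀ 2 nu P pi KI H
      (2 ^ (R + (s₀ + 1)) * N₀) (mul_ne_zero (pow_ne_zero _ (by norm_num)) hN0)
      (mul_dvd_mul_right (pow_dvd_pow 2 (Nat.le_add_left _ _)) _)).1
    have hdvd : (2 : ℤ) ^ R * (N₀ : ℤ) ∣ ((2 ^ (R + (s₀ + 1)) * N₀ : ℕ) : ℤ) := by
      push_cast
      exact mul_dvd_mul_right (pow_dvd_pow 2 (Nat.le_add_right _ _)) _
    have h1 := hR a b c d hdet (hdvd.trans hc) (hdvd.trans hd) ∞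
    obtain ⟨w1, hw1, e1⟩ := hQtyp ∞ (mob a b c d ∞)
    obtain ⟨w2, hw2, e2⟩ := hQtyp (mob 16 1 0 16 ∞) (mob 16 1 0 16 (mob a b c d ∞))
    have e3 : PTq 16 Q ∞ (mob a b c d ∞) = pi * (w1 - w2) := by
      unfold PTq
      rw [e1, e2]
      ring
    rw [mem_mT, e3] at h1
    rw [← hQ, e3] at hv
    have hww := (hTY (w1 - w2) (sub_mem hw1 hw2)).2.2.1 rfl hv
    exact absurd h1 (not_lt.2 ((hTY (w1 - w2) (sub_mem hw1 hw2)).2.1.2 hww))

end

end Pool.Agent.N2H


end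

section

/-!
# MUX-2N, block HT: the result without hypotheses (helper66)
-/

set_option autoImplicit false

namespace Pool.Agent.N2H

theorem ht_HT : St_HT :=
  tt_HT tt_BDT tt_HKT tt_SHT tt_H1T tt_TYT tt_LOCT (tt_KYT tt_PAIT) tt_DVT

end Pool.Agent.N2H


end

section

/-!
# MUX-2R, block HU (helper66): abstract evaluation, `p = 2` RAMIFIED in `k`

The twin of block HT (`N2/StHT.lean`, proofs `N2/H_*.lean`) for `2` ramified. Nothing here depends on the field `k`. `v = V.valuation` (multiplicative), `t = v 2`.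
`P` is the symbol `Σ_(N b_i ∈ H) kk_i Φ_i(x, y) + Σ_(N b_i ∈ -H) kk_i Φ_i(-x, -y)` over `u Om`, `H = {1, h}` modulo `8` the group of the norms of the units of `O_P` (`h = 5, 3, 7`); it has only exponents in `H` (`rel`). All values are in
`pi * KI`, `v pi = 1`, and `v` has values in `(1/2) ℤ` (additive) on `KI`. `Pp` is the holomorphic part (`prj`: it is a combination of translates of `P` by `t/q`, `q` odd). No part `sgnPart` here.
`d = dH h` is the exponent of the different (`2` for `h = 5`, else `3`). Result: additive valuation `< d/2 + 3/4` for infinitely many levels.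
Modules: SHU, H1U, KYU, DVU (open) and HU (helper66); BDT, LOCT, PAIT are those of `StHT.lean`. Module `X` proves `theorem tu_X .. : Su_X` in `Pool/Agent/N2/HU_X.lean`, namespace `Pool.Agent.N2H`.
-/

set_option autoImplicit false

namespace Pool.Agent.N2H

open _root_.MU3 _root_.Pool.Agent.MuSym _root_.Pool.Agent.MUXH _root_.Pool.Agent.N2 OnePoint

noncomputable section

/-- the exponent of the different -/
def dH (h : ℕ) : ℕ := if h = 5 then 2 else 3

/-- the standing hypotheses -/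
structure HypU (V : ValuationSubring ℂ) (N₀ s₀ : ℕ) (nu : ℤ → ℂ)
    (P Pp : OnePoint ℚ → OnePoint ℚ → ℂ) (pi : ℂ) (KI : Subfield ℂ) (om : ℂ) (h : ℕ) : Prop where
  vp : V.valuation (2 : ℂ) < 1
  N0 : 2 ≤ N₀
  cop : Nat.Coprime 2 N₀
  nu1 : nu 1 = 1
  num : ∀ d d', nu (d * d') = nu d * nu d'
  nuper : ∀ d d', ((8 * N₀ : ℕ) : ℤ) ∣ d - d' → nu d = nu d'
  nuv : ∀ d, V.valuation (nu d) ≤ 1
  sym : IsSym (2 ^ (s₀ + 1) * N₀) nu P
  om8 : IsPrimitiveRoot om 8
  hh : h = 3 ∨ h = 5 ∨ h = 7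
  rel : ∀ x : ℚ, P ∞ ((x + 1 / 4 : ℚ) : OnePoint ℚ) -
    (om + om ^ h) * P ∞ ((x + 1 / 8 : ℚ) : OnePoint ℚ) + om ^ (1 + h) * P ∞ (x : OnePoint ℚ) = 0
  alg : ∀ x y, IsAlgebraic ℚ (P x y)
  fin : ∃ T : Finset ℂ, ∀ x y, P x y ∈ AddSubgroup.closure (T : Set ℂ)
  typ : ∀ x y, ∃ w ∈ KI, P x y = pi * w
  unr : ∀ w ∈ KI, V.valuation w < 1 → V.valuation w ^ 2 ≤ V.valuation (2 : ℂ)
  hlf : ∃ w ∈ KI, V.valuation w ^ 2 = V.valuation (2 : ℂ)
  vpi : V.valuation pi = 1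
  /-- Theorem G for the translates by `1/8`, `1/32` of the holomorphic part -/
  G : ∀ N' : ℕ, N' ≠ 0 → 2 ^ (s₀ + 1) * N₀ ∣ N' → ∃ α β γ δ : ℤ, α * δ - β * γ = 1 ∧
    (N' : ℤ) ∣ γ ∧ (N' : ℤ) ∣ δ - 1 ∧
    1 < V.valuation (PTq 32 (PTq 8 Pp) ∞ (mob α β γ δ ∞))
  /-- the projector; the integer `q` is odd in the application -/
  prj : ∃ (q : ℕ) (c : ℕ → ℂ), q ≠ 0 ∧ (∀ t, V.valuation (c t) ≤ 1) ∧ ∀ x y : OnePoint ℚ,
    ∑ t ∈ Finset.range q, c t * P (mob q t 0 q x) (mob q t 0 q y) = Pp x y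

/-- (SHU) `Q_(1/8)` is a symbol with the same character.

MODEL: `N2/H_SHT.lean` (translation by `1/4`). PROOF. `τ = mob 8 1 0 8` (`x ↦ x + 1/8`). `h = (a b; c d)`, `2^(s+7) N₀ ∣ c`: `a d ≡ 1` modulo `8`, `a, d` odd, so `a ≡ d` modulo `8`; `τ (h x) = h' (τ x)` with
`h' = (a + c/8, b + (d - a)/8 - c/64; c, d - c/8)`, integral, determinant 1, `2^(s+1) N₀ ∣ c`, and `nu (d - c/8) = nu d` because `8 N₀ ∣ c/8`. -/
def Su_SHU : Prop :=
  ∀ (N₀ s : ℕ) (nu : ℤ → ℂ) (Q : OnePoint ℚ → OnePoint ℚ → ℂ),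
    (∀ d d', ((8 * N₀ : ℕ) : ℤ) ∣ d - d' → nu d = nu d') → IsSym (2 ^ (s + 1) * N₀) nu Q →
    IsSym (2 ^ (s + 7) * N₀) nu (PTq 8 Q)

/-- (H1U) Theorem G for `P` from Theorem G for the holomorphic part.

MODEL: `N2/H_H1T.lean`. PROOF. `q`, `c` from `prj`, `h` from `G` for `N' q²`. With `T_t = mob q t 0 q` (it commutes on the cusps with the translations by `1/8`, `1/32`):
`PTq 32 (PTq 8 Pp) ∞ (h ∞) = Σ_t c_t PTq 32 (PTq 8 P) ∞ (h_t ∞)`, `T_t (h ∞) = h_t ∞`, `h_t = (α + t γ/q, β + t (δ - α)/q - t² γ/q²; γ, δ - t γ/q)`, integral and in `Γ₁(N')`. If all terms had valuation `≤ 1` then so would the sum. -/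
def Su_H1U : Prop :=
  ∀ (V : ValuationSubring ℂ) (N₀ s₀ : ℕ) (nu : ℤ → ℂ) (P Pp : OnePoint ℚ → OnePoint ℚ → ℂ)
    (pi : ℂ) (KI : Subfield ℂ) (om : ℂ) (h : ℕ), HypU V N₀ s₀ nu P Pp pi KI om h →
    ∀ N' : ℕ, N' ≠ 0 → 2 ^ (s₀ + 1) * N₀ ∣ N' →
    ∃ α β γ δ : ℤ, α * δ - β * γ = 1 ∧ (N' : ℤ) ∣ γ ∧ (N' : ℤ) ∣ δ - 1 ∧
      1 < V.valuation (PTq 32 (PTq 8 P) ∞ (mob α β γ δ ∞))

/-- (KYU) from locally constant values to vanishing closed cycles of `Q_(1/32)`.

MODEL: `N2/H_KYT.lean` (translation by `1/16`, `nu` periodic modulo `2 N₀`). The same proof: `R = 10 + (s₀ + 1) + r + 3`, `M = ℂ ⧸ m`, `Φ x y` = the class of `PTq 32 Q x y`; `h ∈ Γ₁(2^R N₀)`: `τ h τ⁻¹ = (a + c/32, b + (d - a)/32 - c/1024; c, d - c/32)`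
is integral and in `Γ₀(2^(s₀+1) N₀)` with lower right entry `≡ 1` modulo `8 N₀`. (A) for `n ≥ n₀ + r + 8` with PAIT for `Q`: `nu (a + c/32) = nu a` because `8 N₀ ∣ c/32`; `2^(r+5) ∣ d`. -/
def Su_KYU : Prop :=
  ∀ (V : ValuationSubring ℂ) (_ : V.valuation (2 : ℂ) < 1) (m : Submodule V ℂ) (N₀ s₀ : ℕ)
    (nu : ℤ → ℂ) (Q : OnePoint ℚ → OnePoint ℚ → ℂ) (_ : 2 ≤ N₀) (_ : Nat.Coprime 2 N₀)
    (_ : nu 1 = 1) (_ : ∀ d d', ((8 * N₀ : ℕ) : ℤ) ∣ d - d' → nu d = nu d')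
    (_ : ∀ d, IsCoprime d ((2 * N₀ : ℕ) : ℤ) → V.valuation (nu d) = 1)
    (_ : IsSym (2 ^ (s₀ + 1) * N₀) nu Q) (r n₀ : ℕ)
    (_ : ∀ n, n₀ ≤ n → ∀ b b' : ℤ, ¬ (2 : ℤ) ∣ b → (2 : ℤ) ^ r ∣ b - b' →
      Q ∞ (((b : ℚ) / 2 ^ n : ℚ) : OnePoint ℚ) - Q ∞ (((b' : ℚ) / 2 ^ n : ℚ) : OnePoint ℚ) ∈ m),
    ∃ R : ℕ, ∀ a b c d : ℤ, a * d - b * c = 1 → (2 : ℤ) ^ R * N₀ ∣ c →
      (2 : ℤ) ^ R * N₀ ∣ d - 1 → ∀ x, PTq 32 Q x (mob a b c d x) ∈ m

/-- (DVU) the character sums of a function with exponents in `{1, h}` modulo `8`; `ζ^(2^n) = om⁻¹`, `M = 2^(n+3)`.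

PROOF. `t = v 2`. (0) `v(om - 1)⁴ = t` (`8`-th cyclotomic polynomial; `IsPrimitiveRoot` lemmas as in `MUX/HN_DVN.lean`), `om^4 = -1`, `v(om² - 1)² = t`; `om - om^h = om (1 - om^(h-1))`, `om^(h-1) = om^4 = -1` (`h = 5`), `om²` (`h = 3`), `om^6 = -om²` (`h = 7`), so `v(om - om^h)² = t^(4 - d)`.
`v(1 + om^(1-h))² ≤ t` (it is `0`, or `1 ± om²`), `v(om + om^h) < 1`, `v(om^(1+h) - 1) < 1` (all `8`-th roots of unity are `≡ 1`). (1) On the span of the translates, shift by `2^n` satisfies `X² - (om + om^h) X + om^(1+h) = 0`: `A b = (y (b + 2^n) - om^h y b)/(om - om^h)`, `B b = (om y b - y (b + 2^n))/(om - om^h)` satisfy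
`A (b + 2^n) = om A b`, `B (b + 2^n) = om^h B b`, `y = A + B`, so `y (b + k 2^n) = om^k A b + om^(h k) B b`. `Σ_(b < 2^(n+3)) ζ^b y b = Σ_(b < 2^n) ζ^b Σ_(k < 8) om^(-k) y (b + k 2^n) = 8 Σ_(b < 2^n) ζ^b A b` (`Σ_k om^((h-1) k) = 0`). And `Σ_(b < 2^n) ζ^b y (b + 2^n) = om Σ_(2^n ≤ b < 2^(n+1)) ζ^b y b`. So
`(om - om^h) Σ = 8 (om Σ_[2^n, 2^(n+1)) ζ^b y b - om^h Σ_[0, 2^n) ζ^b y b) = - 8 om^h (Σ_(b < 2^(n+1)) ζ^b y b - (1 + om^(1-h)) Σ_[2^n, 2^(n+1)) ζ^b y b)`.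
(2) `y b* ≠ 0` of maximal valuation, `W b = y b/y b* ∈ K ∩ V`. Modulo the maximal ideal `W (b + 2^(n+1)) ≡ W b` (the relation and (0)), so we may take `0 ≤ b* < 2^(n+1)`. `P(T) = Σ_(b < 2^(n+1)) W b T^b`, `P(1 + X) = Σ_(i < 2^(n+1)) c_i X^i`, `c_i ∈ K ∩ V`; some `c_i` is a unit; `i₀` the smallest `i` with `v c_i = 1`; for `i < i₀`: `v(c_i)² ≤ t`.
`x = v(ζ - 1)`, `x^(2^(n+2)) = t`. `v(P(ζ)) = x^(i₀)`: for `i < i₀`: `v(c_i)² x^(2i) ≤ t x^(2i) = x^(2^(n+2) + 2i) < x^(2 i₀)` because `i₀ < 2^(n+1)`. The other term: `v(1 + om^(1-h))² ≤ t < x^(2 i₀)`. So `v(om - om^h) v(Σ) = t³ v(y b*) x^(i₀)`, `i₀ < 2^(n+1)`: squares: `t^(4-d) v(Σ)² > t⁶ v(y b*)² t`. This is (1).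
(3) If some difference `y (b₁ + 2^n) - y b₁` has maximal valuation then `i₀ < 2^n`: otherwise modulo the maximal ideal `P = (T - 1)^(2^n) P₁ = (T^(2^n) + 1) P₁`, `deg P₁ < 2^n`, `W (b + 2^n) ≡ W b` for `0 ≤ b < 2^n`, then for all `b` (`W (b + 2^(n+1)) ≡ W b`): contradiction. So `x^(4 i₀) > x^(4 2^n) = t`, fourth powers: `t^(8 - 2d) v(Σ)⁴ > t^12 v(y b*)⁴ t`. -/
def Su_DVU : Prop :=
  ∀ (V : ValuationSubring ℂ) (_ : V.valuation (2 : ℂ) < 1) (K : Subfield ℂ)
    (_ : ∀ w ∈ K, V.valuation w < 1 → V.valuation w ^ 2 ≤ V.valuation (2 : ℂ)) (om : ℂ)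
    (_ : IsPrimitiveRoot om 8) (h : ℕ) (_ : h = 3 ∨ h = 5 ∨ h = 7) (n : ℕ) (y : ℤ → ℂ)
    (_ : ∀ b c : ℤ, (2 : ℤ) ^ (n + 3) ∣ b - c → y b = y c)
    (_ : ∀ b : ℤ, y (b + 2 ^ (n + 1)) - (om + om ^ h) * y (b + 2 ^ n) + om ^ (1 + h) * y b = 0)
    (_ : ∀ b b' : ℤ, y b' ≠ 0 → y b / y b' ∈ K) (b₀ : ℤ) (_ : y b₀ ≠ 0)
    (ζ : ℂ) (_ : IsPrimitiveRoot ζ (2 ^ (n + 3))) (_ : ζ ^ 2 ^ n * om = 1),
    V.valuation (2 : ℂ) ^ (dH h + 3) * V.valuation (y b₀) ^ 2 <
      V.valuation (∑ b ∈ Finset.range (2 ^ (n + 3)), ζ ^ b * y b) ^ 2 ∧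
    ∀ b₁ : ℤ, (∀ b, V.valuation (y b) ≤ V.valuation (y (b₁ + 2 ^ n) - y b₁)) →
      V.valuation (2 : ℂ) ^ (2 * dH h + 5) * V.valuation (y b₀) ^ 4 <
        V.valuation (∑ b ∈ Finset.range (2 ^ (n + 3)), ζ ^ b * y b) ^ 4

/-- (HU) the conclusion of the block: infinitely many levels with large character sums (additive valuation `< d/2 + 3/4`).

USES St_BDT, Su_SHU, Su_H1U, St_LOCT, Su_KYU, Su_DVU. PROOF (helper66, glue). `t = v 2`, `z n b = P ∞ (b/2^n)`. Suppose that for some `n₀` and all `n ≥ n₀` there is `ζ` with `v(Σ)⁴ ≤ t^(2d+3)`. `Y b = comb α g 1 (z n) b`: period `2^n`, the relation (`α² ≡ g ≡ 1` modulo `8`), values in `pi KI`. If `v(Y b)² t > 1` then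
`v(Y b)² t² ≥ 1` (`hlf`, `unr`), DVU (1): `v(Σ)² > t^(d+1)`, contradiction. So `v(Y b)² t ≤ 1`. If `v(Y (b + 2^(n-3)) - Y b) > 1` then its square times `t` is `≥ 1`, so it is maximal and DVU (2): `v(Σ)⁴ > t^(2d+3)`, contradiction. So the combinations for `Q' = PTq 8 P` are in `V`; LOCT with `m = V`, KYU, H1U: contradiction. -/
def Su_HU : Prop :=
  ∀ (V : ValuationSubring ℂ) (N₀ s₀ : ℕ) (nu : ℤ → ℂ) (P Pp : OnePoint ℚ → OnePoint ℚ → ℂ)
    (pi : ℂ) (KI : Subfield ℂ) (om : ℂ) (h : ℕ), HypU V N₀ s₀ nu P Pp pi KI om h →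
    ∀ (α g : ℤ), (8 : ℤ) ∣ α - 1 → α ≠ 1 → (8 : ℤ) ∣ g - 1 → g ≠ 1 → ∀ n₀ : ℕ,
      ∃ n, n₀ ≤ n ∧ ∀ ζ : ℂ, IsPrimitiveRoot ζ (2 ^ n) → ζ ^ 2 ^ (n - 3) * om = 1 →
        V.valuation (2 : ℂ) ^ (2 * dH h + 3) < V.valuation (∑ b ∈ Finset.range (2 ^ n), ζ ^ b *
          comb α g 1 (fun b => P ∞ (((b : ℚ) / 2 ^ n : ℚ) : OnePoint ℚ)) b) ^ 4

end

end Pool.Agent.N2H


end

section

/-!
# MUX-2R, block HU, module DVU (helper54)

The character sums of a function with exponents in `{1, h}` modulo `8`: `tu_DVU : Su_DVU`. Twin of `N2/H_DVT.lean`.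
-/

set_option autoImplicit false

namespace Pool.Agent.N2H

open _root_.MU3 _root_.Pool.Agent.MuSym _root_.Pool.Agent.MUXH _root_.Pool.Agent.N2 OnePoint

noncomputable section

namespace Dvu

/-- a property invariant under the translation by `q` holds everywhere if it holds on `0, .., q - 1` -/
theorem reduce (q : ℕ) (hq : 0 < q) (D : ℤ → Prop) (h : ∀ b, D b ↔ D (b + q))
    (h0 : ∀ r : ℕ, r < q → D r) (b : ℤ) : D b := by
  have h1 : ∀ (t : ℤ) (r : ℕ), D r ↔ D (r + q * t) := by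
    intro t r
    induction t using Int.induction_on with
    | zero => rw [mul_zero, add_zero]
    | succ i ih =>
      have e : (r : ℤ) + q * ((i : ℤ) + 1) = (r + q * i) + q := by ring
      rw [e, ← h]
      exact ih
    | pred i ih =>
      have e : (r : ℤ) + q * (-(i : ℤ)) = (r + q * (-(i : ℤ) - 1)) + q := by ring
      rw [e, ← h] at ih
      exact ih
  have hpos : (0 : ℤ) < q := by exact_mod_cast hq
  have h2 := Int.emod_nonneg b hpos.ne'
  have h3 := Int.emod_lt_of_pos b hpos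
  obtain ⟨r, hr⟩ := Int.eq_ofNat_of_zero_le h2
  have h4 : r < q := by
    have : (r : ℤ) < q := by rw [← hr]; exact h3
    exact_mod_cast this
  have h5 : b = (r : ℤ) + q * (b / q) := by
    rw [← hr]
    exact (Int.emod_add_mul_ediv b q).symm
  rw [h5]
  exact (h1 _ r).1 (h0 r h4)

/-- a linear recurrence with roots `1`, `w` -/
theorem rec_sum (a : ℕ → ℂ) (w : ℂ) (ha : ∀ j, a (j + 2) = (1 + w) * a (j + 1) - w * a j)
    (hw : w ^ 8 = 1) (hw1 : w ≠ 1) :
    (w - 1) * ∑ j ∈ Finset.range 8, a j = 8 * (w * a 0 - a 1) := by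
  have h1 : ∀ j, a (j + 1) - a j = w ^ j * (a 1 - a 0) := by
    intro j
    induction j with
    | zero => simp
    | succ j ih =>
      rw [ha j, pow_succ]
      linear_combination w * ih
  have h2 : ∀ j, (w - 1) * a j = (w - 1) * a 0 + (w ^ j - 1) * (a 1 - a 0) := by
    intro j
    induction j with
    | zero => simp
    | succ j ih =>
      rw [pow_succ]
      linear_combination ih + (w - 1) * h1 j
  have h3 : ∑ j ∈ Finset.range 8, w ^ j = 0 := by
    have h4 := geom_sum_mul w 8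
    rw [hw, sub_self] at h4
    exact (mul_eq_zero.1 h4).resolve_right (sub_ne_zero.2 hw1)
  have h4 : ∑ j ∈ Finset.range 8, ((w - 1) * a 0 + (w ^ j - 1) * (a 1 - a 0)) =
      8 * ((w - 1) * a 0) + (∑ j ∈ Finset.range 8, w ^ j - 8) * (a 1 - a 0) := by
    simp only [Finset.sum_range_succ, Finset.sum_range_zero]
    ring
  rw [Finset.mul_sum, Finset.sum_congr rfl fun j _ => h2 j, h4, h3]
  ring

/-- the sum of a function with exponents in `{1, h}` -/
theorem sum_two (q : ℕ) (om ζ : ℂ) (h : ℕ) (hom : om ^ 8 = 1) (hζ : ζ ^ q * om = 1)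
    (hne : om ^ h ≠ om) (y : ℕ → ℂ)
    (hy : ∀ b, y (b + 2 * q) - (om + om ^ h) * y (b + q) + om ^ (1 + h) * y b = 0) :
    (om - om ^ h) * ∑ b ∈ Finset.range (8 * q), ζ ^ b * y b =
      -8 * om ^ h * ∑ b ∈ Finset.range (2 * q), ζ ^ b * y b +
        8 * (1 + ζ ^ q * om ^ h) * ∑ b ∈ Finset.range q, ζ ^ b * y (b + q) := by
  have hom0 : om ≠ 0 := right_ne_zero_of_mul_eq_one hζ
  obtain ⟨z, hz⟩ : ∃ z, z = ζ ^ q := ⟨_, rfl⟩
  rw [← hz] at hζ ⊢
  have hz8 : z ^ 8 = 1 := by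
    have h1 : (z * om) ^ 8 = 1 := by rw [hζ, one_pow]
    rwa [mul_pow, hom, mul_one] at h1
  -- the inner sums
  have hin : ∀ b : ℕ, (om - om ^ h) * ∑ j ∈ Finset.range 8, z ^ j * y (j * q + b) =
      8 * (y (b + q) - om ^ h * y b) := by
    intro b
    have h1 := rec_sum (fun j => z ^ j * y (j * q + b)) (z * om ^ h) (fun j => by
      show z ^ (j + 2) * y ((j + 2) * q + b) =
        (1 + z * om ^ h) * (z ^ (j + 1) * y ((j + 1) * q + b)) -
          z * om ^ h * (z ^ j * y (j * q + b))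
      have h2 := hy (j * q + b)
      have e1 : j * q + b + 2 * q = (j + 2) * q + b := by ring
      have e2 : j * q + b + q = (j + 1) * q + b := by ring
      rw [e1, e2, pow_add om 1 h, pow_one] at h2
      rw [pow_succ z (j + 1), pow_succ z j]
      linear_combination (z ^ j * z * z) * h2 +
        (z ^ j * z * y ((j + 1) * q + b) - z ^ j * z * om ^ h * y (j * q + b)) * hζ) (by
      rw [mul_pow, hz8, ← pow_mul, mul_comm h 8, pow_mul, hom, one_pow, one_mul]) (by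
      intro h3
      apply hne
      have h4 : om * (z * om ^ h) = om := by rw [h3, mul_one]
      linear_combination h4 - om ^ h * hζ)
    have h5 : ∑ j ∈ Finset.range 8, (fun j => z ^ j * y (j * q + b)) j =
      ∑ j ∈ Finset.range 8, z ^ j * y (j * q + b) := rfl
    rw [h5] at h1
    simp only [pow_zero, pow_one, one_mul, zero_mul, zero_add] at h1
    rw [add_comm q b] at h1
    linear_combination (-om) * h1 + (om ^ h * (∑ j ∈ Finset.range 8, z ^ j * y (j * q + b)) -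
      8 * om ^ h * y b + 8 * y (b + q)) * hζ
  have h1 : (om - om ^ h) * ∑ b ∈ Finset.range (8 * q), ζ ^ b * y b =
      ∑ b ∈ Finset.range q, ζ ^ b * (8 * (y (b + q) - om ^ h * y b)) := by
    rw [Hz.sum_range_mul' (fun b => ζ ^ b * y b) q 8, Finset.sum_comm, Finset.mul_sum]
    refine Finset.sum_congr rfl fun b _ => ?_
    rw [← hin b, Finset.mul_sum, Finset.mul_sum, Finset.mul_sum]
    refine Finset.sum_congr rfl fun j _ => ?_
    rw [pow_add, mul_comm j q, pow_mul, ← hz]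
    ring
  have h2 : ∑ b ∈ Finset.range (2 * q), ζ ^ b * y b =
      ∑ b ∈ Finset.range q, ζ ^ b * y b + z * ∑ b ∈ Finset.range q, ζ ^ b * y (b + q) := by
    rw [two_mul, Finset.sum_range_add]
    congr 1
    rw [Finset.mul_sum]
    refine Finset.sum_congr rfl fun b _ => ?_
    rw [pow_add, ← hz, add_comm q b]
    ring
  have h3 : ∑ b ∈ Finset.range q, ζ ^ b * (8 * (y (b + q) - om ^ h * y b)) =
      8 * ∑ b ∈ Finset.range q, ζ ^ b * y (b + q) -
        8 * om ^ h * ∑ b ∈ Finset.range q, ζ ^ b * y b := by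
    rw [Finset.mul_sum, Finset.mul_sum, ← Finset.sum_sub_distrib]
    refine Finset.sum_congr rfl fun b _ => ?_
    ring
  rw [h1, h2, h3]
  ring

/-- the valuations of the roots of unity -/
theorem roots (V : ValuationSubring ℂ) (hV : V.valuation (2 : ℂ) < 1) (om : ℂ)
    (hom : IsPrimitiveRoot om 8) (h : ℕ) (hh : h = 3 ∨ h = 5 ∨ h = 7) (z : ℂ) (hz : z * om = 1) :
    om ^ h ≠ om ∧ V.valuation (1 + z * om ^ h) ^ 2 ≤ V.valuation (2 : ℂ) ∧
    V.valuation (om + om ^ h) < 1 ∧ V.valuation (om ^ (1 + h) + 1) < 1 ∧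
    V.valuation (2 : ℂ) ^ dH h * V.valuation (om - om ^ h) ^ 2 = V.valuation (2 : ℂ) ^ 4 := by
  have h4 : om ^ 4 = -1 := by
    have h1 : IsPrimitiveRoot (om ^ 4) 2 := hom.pow (by norm_num) (by norm_num)
    exact h1.eq_neg_one_of_two_right
  have hv1 : V.valuation om = 1 := Hz.val_root V 8 (by norm_num) om hom.pow_eq_one
  have hz3 : z = -om ^ 3 := by
    linear_combination (-om ^ 3) * hz + z * h4
  have hi : IsPrimitiveRoot (om ^ 2) 4 := hom.pow (by norm_num) (by norm_num)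
  have hi' : IsPrimitiveRoot (-om ^ 2) 4 := by
    have h1 := hi.pow_of_coprime 3 (by norm_num)
    have h2 : (om ^ 2) ^ 3 = -om ^ 2 := by linear_combination om ^ 2 * h4
    rwa [h2] at h1
  have hm : V.valuation (om ^ 2 - 1) ^ 2 = V.valuation (2 : ℂ) := by
    have := Hz.val_p 2 Nat.prime_two V 1 (om ^ 2) (by simpa using hi)
    simpa using this
  have hp : V.valuation (om ^ 2 + 1) ^ 2 = V.valuation (2 : ℂ) := by
    have := Hz.val_p 2 Nat.prime_two V 1 (-om ^ 2) (by simpa using hi')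
    have e : -om ^ 2 - 1 = -(om ^ 2 + 1) := by ring
    rw [e, Valuation.map_neg] at this
    simpa using this
  have hsq : ∀ w : ℂ, V.valuation w ^ 2 ≤ V.valuation (2 : ℂ) → V.valuation w < 1 := by
    intro w hw
    by_contra hc
    exact absurd (lt_of_le_of_lt hw hV) (not_lt.2 (one_le_pow₀ (not_lt.1 hc)))
  have hom0 : om ≠ 0 := right_ne_zero_of_mul_eq_one hz
  have ht0 : V.valuation (2 : ℂ) ≠ 0 := (Valuation.ne_zero_iff _).2 (by norm_num)
  have key : ∀ w : ℂ, V.valuation (om * w) = V.valuation w := fun w => by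
    rw [map_mul, hv1, one_mul]
  have hz' : ∀ w : ℂ, V.valuation (om + om * w) = V.valuation (1 + w) := fun w => by
    rw [← key (1 + w), mul_add, mul_one]
  rcases hh with rfl | rfl | rfl
  · -- `h = 3`
    have e1 : z * om ^ 3 = om ^ 2 := by linear_combination om ^ 2 * hz
    have e2 : om + om ^ 3 = om * (om ^ 2 + 1) := by ring
    have e3 : om ^ (1 + 3) + 1 = 0 := by rw [show 1 + 3 = 4 from rfl, h4]; ring
    have e4 : om - om ^ 3 = -(om * (om ^ 2 - 1)) := by ring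
    refine ⟨?_, ?_, ?_, ?_, ?_⟩
    · intro hc
      have h5 : om ^ 2 - 1 = 0 := by
        have h6 : om * (om ^ 2 - 1) = 0 := by linear_combination hc
        exact (mul_eq_zero.1 h6).resolve_left hom0
      rw [h5, map_zero, zero_pow two_ne_zero] at hm
      exact ht0 hm.symm
    · rw [e1, add_comm, hp]
    · rw [e2, key]
      exact hsq _ hp.le
    · rw [e3, map_zero]
      exact zero_lt_one
    · rw [e4, Valuation.map_neg, key, hm, dH, if_neg (by norm_num), ← pow_succ]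
  · -- `h = 5`
    have e1 : 1 + z * om ^ 5 = 0 := by linear_combination om ^ 4 * hz + h4
    have e2 : om + om ^ 5 = 0 := by linear_combination om * h4
    have e3 : om ^ (1 + 5) + 1 = -(om ^ 2 - 1) := by
      rw [show 1 + 5 = 6 from rfl]
      linear_combination om ^ 2 * h4
    have e4 : om - om ^ 5 = om * 2 := by linear_combination (-om) * h4
    refine ⟨?_, ?_, ?_, ?_, ?_⟩
    · intro hc
      have h5 : om * 2 = 0 := by linear_combination -hc - e4
      exact hom0 ((mul_eq_zero.1 h5).resolve_right (by norm_num))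
    · rw [e1, map_zero, zero_pow two_ne_zero]
      exact zero_le
    · rw [e2, map_zero]
      exact zero_lt_one
    · rw [e3, Valuation.map_neg]
      exact hsq _ hm.le
    · rw [e4, key, dH, if_pos rfl, ← pow_add]
  · -- `h = 7`
    have e1 : 1 + z * om ^ 7 = -(om ^ 2 - 1) := by
      linear_combination om ^ 6 * hz + om ^ 2 * h4
    have e2 : om + om ^ 7 = -(om * (om ^ 2 - 1)) := by linear_combination om ^ 3 * h4
    have e3 : om ^ (1 + 7) + 1 = 2 := by
      rw [show 1 + 7 = 8 from rfl, hom.pow_eq_one]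
      norm_num
    have e4 : om - om ^ 7 = om * (om ^ 2 + 1) := by linear_combination (-om ^ 3) * h4
    refine ⟨?_, ?_, ?_, ?_, ?_⟩
    · intro hc
      have h5 : om ^ 2 + 1 = 0 := by
        have h6 : om * (om ^ 2 + 1) = 0 := by linear_combination -hc - e4
        exact (mul_eq_zero.1 h6).resolve_left hom0
      rw [h5, map_zero, zero_pow two_ne_zero] at hp
      exact ht0 hp.symm
    · rw [e1, Valuation.map_neg, hm]
    · rw [e2, Valuation.map_neg, key]
      exact hsq _ hm.le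
    · rw [e3]
      exact hV
    · rw [e4, key, hp, dH, if_neg (by norm_num), ← pow_succ]

end Dvu

open _root_.Pool.Agent.N2H.Dvu _root_.Pool.Agent.MUXH.Hz in
theorem tu_DVU : Su_DVU := by
  intro V hV K hK om hom h hh n y hper hrel hyK b₀ hb₀ ζ hζ hζom
  obtain ⟨q, hq⟩ : ∃ q : ℕ, q = 2 ^ n := ⟨_, rfl⟩
  have hqz : (2 : ℤ) ^ n = (q : ℤ) := by rw [hq]; push_cast; rfl
  have hqz1 : (2 : ℤ) ^ (n + 1) = ((2 * q : ℕ) : ℤ) := by
    rw [pow_succ, hqz]; push_cast; ring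
  have hqpos : 0 < q := by rw [hq]; positivity
  have hN : 2 ^ (n + 3) = 8 * q := by rw [hq, pow_add]; ring
  have hNz : (2 : ℤ) ^ (n + 3) = ((8 * q : ℕ) : ℤ) := by rw [← hN]; push_cast; rfl
  rw [← hq] at hζom
  simp only [hqz] at hrel ⊢
  obtain ⟨hne, hw, hu1, hg1, hD⟩ := roots V hV om hom h hh (ζ ^ q) hζom
  have ht0 : (0 : V.ValueGroup) < V.valuation (2 : ℂ) :=
    lt_of_le_of_ne zero_le ((Valuation.ne_zero_iff _).2 (by norm_num)).symm
  have hvom : V.valuation om = 1 := val_root V 8 (by norm_num) om hom.pow_eq_one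
  have red : ∀ b : ℤ, ∃ c : ℕ, c < 8 * q ∧ (2 : ℤ) ^ (n + 3) ∣ b - c := by
    intro b
    have hpos : (0 : ℤ) < (2 : ℤ) ^ (n + 3) := by positivity
    have h0 := Int.emod_nonneg b hpos.ne'
    have h1 := Int.emod_lt_of_pos b hpos
    refine ⟨(b % (2 : ℤ) ^ (n + 3)).toNat, ?_, ?_⟩
    · have h3 : (((b % (2 : ℤ) ^ (n + 3)).toNat : ℕ) : ℤ) < ((8 * q : ℕ) : ℤ) := by
        rw [Int.toNat_of_nonneg h0, ← hNz]
        exact h1
      exact_mod_cast h3
    · rw [Int.toNat_of_nonneg h0]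
      have := Int.emod_add_mul_ediv b ((2 : ℤ) ^ (n + 3))
      exact ⟨b / (2 : ℤ) ^ (n + 3), by linarith⟩
  -- the maximal value
  obtain ⟨bs, hbs, hmax⟩ := Finset.exists_max_image (Finset.range (8 * q))
    (fun b : ℕ => V.valuation (y b)) ⟨0, Finset.mem_range.2 (by omega)⟩
  have hall : ∀ b : ℤ, V.valuation (y b) ≤ V.valuation (y bs) := by
    intro b
    obtain ⟨c, hc, hcb⟩ := red b
    rw [hper _ _ hcb]
    exact hmax c (Finset.mem_range.2 hc)
  have hvb0 : (0 : V.ValueGroup) < V.valuation (y b₀) :=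
    lt_of_le_of_ne zero_le ((Valuation.ne_zero_iff _).2 hb₀).symm
  have hvs0 : (0 : V.ValueGroup) < V.valuation (y bs) := lt_of_lt_of_le hvb0 (hall b₀)
  have hys0 : y bs ≠ 0 := fun h => by
    rw [h, map_zero] at hvs0
    exact lt_irrefl _ hvs0
  obtain ⟨W, hWdef⟩ : ∃ W : ℤ → ℂ, ∀ b, W b = y b / y bs := ⟨_, fun _ => rfl⟩
  have hWK : ∀ b, W b ∈ K := fun b => by
    rw [hWdef]
    exact hyK b bs hys0
  have hW1 : ∀ b, V.valuation (W b) ≤ 1 := by
    intro b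
    rw [hWdef, map_div₀]
    exact div_le_one_of_le₀ (hall b) zero_le
  have hWs : W bs = 1 := by
    rw [hWdef]
    exact div_self hys0
  have hyW : ∀ b : ℤ, y b = y bs * W b := by
    intro b
    rw [hWdef]
    field_simp
  have hWrel : ∀ b : ℤ, W (b + ((2 * q : ℕ) : ℤ)) - (om + om ^ h) * W (b + q) +
      om ^ (1 + h) * W b = 0 := by
    intro b
    have h1 := hrel b
    rw [hqz1, hyW, hyW (b + q), hyW b] at h1
    have h2 : y bs * (W (b + ((2 * q : ℕ) : ℤ)) - (om + om ^ h) * W (b + q) +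
      om ^ (1 + h) * W b) = 0 := by linear_combination h1
    exact (mul_eq_zero.1 h2).resolve_left hys0
  -- period `2 q` modulo the maximal ideal
  have hW2 : ∀ b : ℤ, V.valuation (W (b + ((2 * q : ℕ) : ℤ)) - W b) < 1 := by
    intro b
    have h1 : W (b + ((2 * q : ℕ) : ℤ)) - W b = (om + om ^ h) * W (b + q) -
      (om ^ (1 + h) + 1) * W b := by linear_combination hWrel b
    rw [h1]
    refine Valuation.map_sub_lt _ ?_ ?_
    · rw [map_mul]
      exact lt_of_le_of_lt (mul_le_of_le_one_right' (hW1 _)) hu1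
    · rw [map_mul]
      exact lt_of_le_of_lt (mul_le_of_le_one_right' (hW1 _)) hg1
  -- a value of valuation one
  obtain ⟨r, hr, hWr⟩ : ∃ r : ℕ, r < 2 * q ∧ V.valuation (W r) = 1 := by
    by_contra hcon
    have h1 : ∀ b, V.valuation (W b) < 1 := by
      refine reduce (2 * q) (by omega) (fun b => V.valuation (W b) < 1) (fun b => ?_)
        (fun r hr => lt_of_le_of_ne (hW1 r) fun h => hcon ⟨r, hr, h⟩)
      show V.valuation (W b) < 1 ↔ V.valuation (W (b + ((2 * q : ℕ) : ℤ))) < 1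
      constructor
      · intro h2
        have e : W (b + ((2 * q : ℕ) : ℤ)) = (W (b + ((2 * q : ℕ) : ℤ)) - W b) + W b := by ring
        rw [e]
        exact Valuation.map_add_lt _ (hW2 b) h2
      · intro h2
        have e : W b = W (b + ((2 * q : ℕ) : ℤ)) - (W (b + ((2 * q : ℕ) : ℤ)) - W b) := by ring
        rw [e]
        exact Valuation.map_sub_lt _ h2 (hW2 b)
    have h2 := h1 bs
    rw [hWs, map_one] at h2
    exact lt_irrefl _ h2
  obtain ⟨c, hc⟩ : ∃ c : ℕ → ℂ, ∀ k, c k =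
      ∑ b ∈ Finset.range (2 * q), ((b.choose k : ℕ) : ℂ) * W b := ⟨_, fun _ => rfl⟩
  have hcK : ∀ k, c k ∈ K := fun k => by
    rw [hc]
    exact sum_mem fun b _ => mul_mem (natCast_mem K _) (hWK _)
  have hc1 : ∀ k, V.valuation (c k) ≤ 1 := fun k => by
    rw [hc]
    refine Valuation.map_sum_le _ fun b _ => ?_
    rw [map_mul]
    exact mul_le_one' (val_nat V _) (hW1 _)
  have hnewton : ∀ f : ℕ → ℤ, ∑ b ∈ Finset.range (2 * q), (f b : ℂ) * W b =
      ∑ k ∈ Finset.range (2 * q), (((fwdDiff 1)^[k] f 0 : ℤ) : ℂ) * c k := by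
    intro f
    rw [newton (2 * q) (fun b => W b) f]
    refine Finset.sum_congr rfl fun k _ => ?_
    rw [hc]
  have hex1 : ∃ k, k < 2 * q ∧ V.valuation (c k) = 1 := by
    by_contra hcon
    have hlt : ∀ k < 2 * q, V.valuation (c k) < 1 := fun k hk =>
      lt_of_le_of_ne (hc1 k) fun h => hcon ⟨k, hk, h⟩
    have h1 := hnewton (fun b => if b = r then 1 else 0)
    have h2 : ∑ b ∈ Finset.range (2 * q), (((if b = r then 1 else 0 : ℤ)) : ℂ) * W b
        = W r := by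
      rw [Finset.sum_eq_single r]
      · simp
      · intro b _ hb
        rw [if_neg hb]
        simp
      · intro h
        exact absurd (Finset.mem_range.2 hr) h
    rw [h2] at h1
    have h3 : V.valuation (W r) < 1 := by
      rw [h1]
      refine Valuation.map_sum_lt _ one_ne_zero fun k hk => ?_
      rw [map_mul]
      exact lt_of_le_of_lt (mul_le_of_le_one_left' (val_int V _))
        (hlt k (Finset.mem_range.1 hk))
    exact absurd hWr h3.ne
  classical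
  obtain ⟨hk₀, hk₁⟩ := Nat.find_spec hex1
  obtain ⟨k₀, hk₀def⟩ : ∃ k₀, k₀ = Nat.find hex1 := ⟨_, rfl⟩
  rw [← hk₀def] at hk₀ hk₁
  have hmin1 : ∀ k < k₀, V.valuation (c k) < 1 := by
    intro k hk
    refine lt_of_le_of_ne (hc1 k) fun h => ?_
    rw [hk₀def] at hk
    exact Nat.find_min hex1 hk ⟨lt_trans hk (by rw [← hk₀def]; exact hk₀), h⟩
  have hmin : ∀ k < k₀, V.valuation (c k) ^ 2 ≤ V.valuation (2 : ℂ) := fun k hk =>
    hK _ (hcK k) (hmin1 k hk)
  -- the valuation of `ζ - 1`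
  have hx : V.valuation (ζ - 1) ^ (4 * q) = V.valuation (2 : ℂ) := by
    have := val_p 2 Nat.prime_two V (n + 2) ζ hζ
    rw [show 2 ^ (n + 2) * (2 - 1) = 4 * q by rw [hq, pow_add]; omega] at this
    simpa using this
  obtain ⟨x, hxdef⟩ : ∃ x, x = V.valuation (ζ - 1) := ⟨_, rfl⟩
  rw [← hxdef] at hx
  have hx0 : 0 < x := by
    rw [hxdef]
    refine lt_of_le_of_ne zero_le fun h => ?_
    rw [hxdef, ← h, zero_pow (by omega)] at hx
    exact ht0.ne hx
  have hx1 : x < 1 := by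
    by_contra h
    have h1 : 1 ≤ x := not_lt.1 h
    have : 1 ≤ x ^ (4 * q) := one_le_pow₀ h1
    rw [hx] at this
    exact absurd this (not_le.2 hV)
  have hxk : V.valuation (2 : ℂ) < (x ^ k₀) ^ 2 := by
    rw [← hx, ← pow_mul]
    exact pow_lt_pow_right_of_lt_one₀ hx0 hx1 (by omega)
  have hval : V.valuation (∑ b ∈ Finset.range (2 * q), ζ ^ b * W b) = x ^ k₀ := by
    rw [shift_pow (2 * q) (fun b => W b) ζ]
    have hsc : ∑ k ∈ Finset.range (2 * q), (ζ - 1) ^ k *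
        ∑ b ∈ Finset.range (2 * q), ((b.choose k : ℕ) : ℂ) * W b =
        ∑ k ∈ Finset.range (2 * q), (ζ - 1) ^ k * c k :=
      Finset.sum_congr rfl fun k _ => by rw [hc]
    rw [hsc]
    have hk₀N : k₀ ∈ Finset.range (2 * q) := Finset.mem_range.2 hk₀
    rw [← Finset.add_sum_erase _ _ hk₀N]
    have ha : V.valuation ((ζ - 1) ^ k₀ * c k₀) = x ^ k₀ := by
      rw [map_mul, map_pow, hk₁, mul_one, hxdef]
    have hb : V.valuation (∑ k ∈ (Finset.range (2 * q)).erase k₀, (ζ - 1) ^ k * c k)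
        < x ^ k₀ := by
      refine Valuation.map_sum_lt _ (pow_pos hx0 k₀).ne' fun k hk => ?_
      have hne := Finset.ne_of_mem_erase hk
      rw [map_mul, map_pow, ← hxdef]
      rcases lt_or_gt_of_ne hne with hlt | hgt
      · refine lt_of_le_of_lt (mul_le_of_le_one_left' (pow_le_one' hx1.le k)) ?_
        exact lt_of_pow_lt_pow_left₀ 2 (pow_pos hx0 k₀).le (lt_of_le_of_lt (hmin k hlt) hxk)
      · refine lt_of_le_of_lt (mul_le_of_le_one_right' (hc1 k)) ?_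
        exact pow_lt_pow_right_of_lt_one₀ hx0 hx1 hgt
    have := Valuation.map_add_eq_of_lt_left V.valuation (x := (ζ - 1) ^ k₀ * c k₀)
      (y := ∑ k ∈ (Finset.range (2 * q)).erase k₀, (ζ - 1) ^ k * c k) (by rw [ha]; exact hb)
    rw [this, ha]
  -- the sum
  have hvζ : V.valuation ζ = 1 := by
    refine val_root V (2 ^ (n + 3)) (by positivity) ζ hζ.pow_eq_one
  have hsum := sum_two q om ζ h hom.pow_eq_one hζom hne (fun b => W b) (fun b => by
    have h1 := hWrel b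
    have e1 : (((b + 2 * q : ℕ)) : ℤ) = (b : ℤ) + ((2 * q : ℕ) : ℤ) := by push_cast; ring
    have e2 : (((b + q : ℕ)) : ℤ) = (b : ℤ) + (q : ℤ) := by push_cast; ring
    show W ((b + 2 * q : ℕ) : ℤ) - (om + om ^ h) * W ((b + q : ℕ) : ℤ) +
      om ^ (1 + h) * W (b : ℤ) = 0
    rw [e1, e2]
    exact h1)
  have h8 : V.valuation (8 : ℂ) = V.valuation (2 : ℂ) ^ 3 := by
    rw [← map_pow]
    norm_num
  have hvs : V.valuation (om - om ^ h) * V.valuation (∑ b ∈ Finset.range (8 * q), ζ ^ b * W b) =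
      V.valuation (2 : ℂ) ^ 3 * x ^ k₀ := by
    have ha : V.valuation (-8 * om ^ h * ∑ b ∈ Finset.range (2 * q), ζ ^ b * W b) =
        V.valuation (2 : ℂ) ^ 3 * x ^ k₀ := by
      rw [map_mul, map_mul, Valuation.map_neg, h8, map_pow, hvom, one_pow, mul_one, hval]
    have hb : V.valuation (8 * (1 + ζ ^ q * om ^ h) *
        ∑ b ∈ Finset.range q, ζ ^ b * W ((b + q : ℕ) : ℤ)) < V.valuation (2 : ℂ) ^ 3 * x ^ k₀ := by
      rw [map_mul, map_mul, h8, mul_assoc]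
      refine mul_lt_mul_of_pos_left ?_ (pow_pos ht0 3)
      refine lt_of_le_of_lt (mul_le_of_le_one_right' ?_) ?_
      · refine Valuation.map_sum_le _ fun b _ => ?_
        rw [map_mul, map_pow, hvζ, one_pow, one_mul]
        exact hW1 _
      · exact lt_of_pow_lt_pow_left₀ 2 (pow_pos hx0 k₀).le (lt_of_le_of_lt hw hxk)
    have h1 : (om - om ^ h) * ∑ b ∈ Finset.range (8 * q), ζ ^ b * W b =
        -8 * om ^ h * ∑ b ∈ Finset.range (2 * q), ζ ^ b * W b +
          8 * (1 + ζ ^ q * om ^ h) * ∑ b ∈ Finset.range q, ζ ^ b * W ((b + q : ℕ) : ℤ) := hsum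
    rw [← map_mul, h1, Valuation.map_add_eq_of_lt_left V.valuation (by rw [ha]; exact hb), ha]
  have hys : ∑ b ∈ Finset.range (2 ^ (n + 3)), ζ ^ b * y b =
      y bs * ∑ b ∈ Finset.range (8 * q), ζ ^ b * W b := by
    rw [hN, Finset.mul_sum]
    refine Finset.sum_congr rfl fun b _ => ?_
    rw [hyW b]
    ring
  obtain ⟨S, hS⟩ : ∃ S, S = V.valuation (∑ b ∈ Finset.range (8 * q), ζ ^ b * W b) := ⟨_, rfl⟩
  obtain ⟨D, hDdef⟩ : ∃ D, D = V.valuation (om - om ^ h) := ⟨_, rfl⟩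
  obtain ⟨t, ht⟩ : ∃ t, t = V.valuation (2 : ℂ) := ⟨_, rfl⟩
  rw [← hS, ← hDdef, ← ht] at hvs
  rw [← hDdef, ← ht] at hD
  rw [hys, map_mul, ← hS, ← ht]
  rw [← ht] at hV ht0 hxk hx
  have htd : 0 < t ^ dH h := pow_pos ht0 _
  -- the square
  have hS2 : t ^ 4 * S ^ 2 = t ^ dH h * (t ^ 6 * (x ^ k₀) ^ 2) := by
    calc t ^ 4 * S ^ 2 = (t ^ dH h * D ^ 2) * S ^ 2 := by rw [hD]
      _ = t ^ dH h * (D * S) ^ 2 := by rw [mul_assoc, mul_pow]
      _ = t ^ dH h * (t ^ 6 * (x ^ k₀) ^ 2) := by rw [hvs, mul_pow, ← pow_mul]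
  have hS2' : S ^ 2 = t ^ dH h * (t ^ 2 * (x ^ k₀) ^ 2) := by
    have h1 : t ^ 4 * S ^ 2 = t ^ 4 * (t ^ dH h * (t ^ 2 * (x ^ k₀) ^ 2)) := by
      rw [hS2, show t ^ 6 = t ^ 4 * t ^ 2 by rw [← pow_add], mul_assoc, mul_left_comm]
    exact mul_left_cancel₀ (pow_pos ht0 4).ne' h1
  have hvs2 : V.valuation (y b₀) ^ 2 ≤ V.valuation (y bs) ^ 2 :=
    pow_le_pow_left₀ zero_le (hall b₀) 2
  constructor
  · calc t ^ (dH h + 3) * V.valuation (y b₀) ^ 2
        ≤ t ^ (dH h + 3) * V.valuation (y bs) ^ 2 := mul_le_mul_right hvs2 _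
      _ = V.valuation (y bs) ^ 2 * (t ^ dH h * (t ^ 2 * t)) := by
          rw [mul_comm, pow_add, ← pow_succ]
      _ < V.valuation (y bs) ^ 2 * (t ^ dH h * (t ^ 2 * (x ^ k₀) ^ 2)) := by
          refine mul_lt_mul_of_pos_left ?_ (pow_pos hvs0 2)
          refine mul_lt_mul_of_pos_left ?_ htd
          exact mul_lt_mul_of_pos_left hxk (pow_pos ht0 2)
      _ = (V.valuation (y bs) * S) ^ 2 := by rw [mul_pow, hS2']
  · intro b₁ hb₁
    have hke : k₀ < q := by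
      by_contra hcon
      have hlt : ∀ k < q, V.valuation (c k) < 1 := fun k hk =>
        hmin1 k (lt_of_lt_of_le hk (not_lt.1 hcon))
      -- `W r + W (r + q)` is small
      have hS0 : ∀ r : ℕ, r < q → V.valuation (W r + W ((r : ℤ) + q)) < 1 := by
        intro r hr
        have h1 := hnewton (fun b => if b % 2 ^ n = r then 1 else 0)
        have h2 : ∑ b ∈ Finset.range (2 * q), (((if b % 2 ^ n = r then 1 else 0 : ℤ)) : ℂ) * W b
            = W r + W ((r : ℤ) + q) := by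
          rw [show 2 * q = q + q by ring, Finset.sum_range_add]
          congr 1
          · rw [Finset.sum_eq_single r]
            · rw [Nat.mod_eq_of_lt (by rw [← hq]; exact hr)]
              simp
            · intro b hb hbr
              rw [Nat.mod_eq_of_lt (by rw [← hq]; exact Finset.mem_range.1 hb), if_neg hbr]
              simp
            · intro h
              exact absurd (Finset.mem_range.2 hr) h
          · rw [Finset.sum_eq_single r]
            · rw [← hq, Nat.add_mod_left, Nat.mod_eq_of_lt hr, add_comm q r]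
              simp
            · intro b hb hbr
              rw [← hq, Nat.add_mod_left, Nat.mod_eq_of_lt (Finset.mem_range.1 hb), if_neg hbr]
              simp
            · intro h
              exact absurd (Finset.mem_range.2 hr) h
        rw [h2] at h1
        rw [h1]
        refine Valuation.map_sum_lt _ one_ne_zero fun k _ => ?_
        rw [map_mul]
        rcases lt_or_ge k q with hk | hk
        · exact lt_of_le_of_lt (mul_le_of_le_one_left' (val_int V _)) (hlt k hk)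
        · have h5 := dvd_diff 2 Nat.prime_two n (fun b => if b % 2 ^ n = r then 1 else 0)
            (fun b => by simp) k (by rw [← hq]; exact hk) 0
          obtain ⟨w, hw⟩ := h5
          rw [hw]
          push_cast
          rw [map_mul]
          refine lt_of_le_of_lt (mul_le_of_le_one_right' (hc1 k)) ?_
          rw [← ht]
          exact lt_of_le_of_lt (mul_le_of_le_one_right' (val_int V _)) hV
      have hall2 : ∀ b : ℤ, V.valuation (W (b + q) - W b) < 1 := by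
        refine reduce q hqpos (fun b => V.valuation (W (b + q) - W b) < 1) (fun b => ?_)
          (fun r hr => ?_)
        · show V.valuation (W (b + q) - W b) < 1 ↔ V.valuation (W (b + q + q) - W (b + q)) < 1
          have h2 := hW2 b
          rw [show b + ((2 * q : ℕ) : ℤ) = b + q + q by push_cast; ring] at h2
          constructor
          · intro h3
            have e : W (b + q + q) - W (b + q) = (W (b + q + q) - W b) - (W (b + q) - W b) := by
              ring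
            rw [e]
            exact Valuation.map_sub_lt _ h2 h3
          · intro h3
            have e : W (b + q) - W b = (W (b + q + q) - W b) - (W (b + q + q) - W (b + q)) := by
              ring
            rw [e]
            exact Valuation.map_sub_lt _ h2 h3
        · show V.valuation (W ((r : ℤ) + q) - W r) < 1
          have e : W ((r : ℤ) + q) - W r = (W r + W ((r : ℤ) + q)) - 2 * W r := by ring
          rw [e]
          refine Valuation.map_sub_lt _ (hS0 r hr) ?_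
          rw [map_mul, ← ht]
          exact lt_of_le_of_lt (mul_le_of_le_one_right' (hW1 _)) hV
      have h3 := hb₁ bs
      rw [hyW (b₁ + q), hyW b₁, ← mul_sub, map_mul] at h3
      have h4 : V.valuation (y bs) * V.valuation (W (b₁ + q) - W b₁) < V.valuation (y bs) :=
        mul_lt_of_lt_one_right hvs0 (hall2 b₁)
      exact absurd h4 (not_lt.2 h3)
    have hxk4 : t < (x ^ k₀) ^ 4 := by
      rw [← hx, ← pow_mul]
      exact pow_lt_pow_right_of_lt_one₀ hx0 hx1 (by omega)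
    calc t ^ (2 * dH h + 5) * V.valuation (y b₀) ^ 4
        ≤ t ^ (2 * dH h + 5) * V.valuation (y bs) ^ 4 :=
          mul_le_mul_right (pow_le_pow_left₀ zero_le (hall b₀) 4) _
      _ = V.valuation (y bs) ^ 4 * (t ^ (2 * dH h) * (t ^ 4 * t)) := by
          rw [mul_comm, pow_add, ← pow_succ]
      _ < V.valuation (y bs) ^ 4 * (t ^ (2 * dH h) * (t ^ 4 * (x ^ k₀) ^ 4)) := by
          refine mul_lt_mul_of_pos_left ?_ (pow_pos hvs0 4)
          refine mul_lt_mul_of_pos_left ?_ (pow_pos ht0 _)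
          exact mul_lt_mul_of_pos_left hxk4 (pow_pos ht0 4)
      _ = (V.valuation (y bs) * S) ^ 4 := by
          have h5 : S ^ 4 = t ^ (2 * dH h) * (t ^ 4 * (x ^ k₀) ^ 4) := by
            calc S ^ 4 = (S ^ 2) ^ 2 := by rw [← pow_mul]
              _ = (t ^ dH h * (t ^ 2 * (x ^ k₀) ^ 2)) ^ 2 := by rw [hS2']
              _ = t ^ (2 * dH h) * (t ^ 4 * (x ^ k₀) ^ 4) := by
                  rw [mul_pow, mul_pow, ← pow_mul, ← pow_mul, ← pow_mul, mul_comm (dH h) 2]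
          rw [mul_pow, h5]

end

end Pool.Agent.N2H


end

section

/-!
# MUX-2R, block HU: KYU, from locally constant values to vanishing closed cycles (helper90, after `H_KYU.lean` of helper83)
-/

set_option autoImplicit false

namespace Pool.Agent.N2H

open _root_.MU3 _root_.Pool.Agent.MuSym _root_.Pool.Agent.MUXH _root_.Pool.Agent.N2 OnePoint

noncomputable section

namespace KYU

open _root_.Pool.Agent

/-- the translation by `1/32` on the finite cusps -/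
theorem tau (x : ℚ) : mob 32 1 0 32 (x : OnePoint ℚ) = ((x + 1 / 32 : ℚ) : OnePoint ℚ) := by
  rw [NSY.mob_coe _ _ _ _ _ (by norm_num)]
  congr 1
  push_cast
  ring

theorem tau_inf : mob 32 1 0 32 (∞ : OnePoint ℚ) = ∞ := NSY.mob_infty0 _ _ _

/-- conjugation of a matrix by the translation by `1/32` -/
theorem conj (a b c d a' b' d' : ℤ) (ha : 32 * a' = 32 * a + c)
    (hb : 1024 * b' = 1024 * b + 32 * (d - a) - c) (hd : 32 * d' = 32 * d - c) (x : OnePoint ℚ) :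
    mob 32 1 0 32 (mob a b c d x) = mob a' b' c d' (mob 32 1 0 32 x) := by
  have ha' : (a' : ℚ) = a + c / 32 := by
    have : (32 : ℚ) * a' = 32 * a + c := by exact_mod_cast ha
    linarith
  have hb' : (b' : ℚ) = b + (d - a) / 32 - c / 1024 := by
    have : (1024 : ℚ) * b' = 1024 * b + 32 * (d - a) - c := by exact_mod_cast hb
    linarith
  have hd' : (d' : ℚ) = d - c / 32 := by
    have : (32 : ℚ) * d' = 32 * d - c := by exact_mod_cast hd
    linarith
  induction x using OnePoint.rec with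
  | infty =>
    by_cases hc : c = 0
    · subst hc
      rw [NSY.mob_infty0, tau_inf, NSY.mob_infty0]
    · have hc' : (c : ℚ) ≠ 0 := by exact_mod_cast hc
      rw [NSY.mob_infty _ _ _ _ hc, tau, tau_inf, NSY.mob_infty _ _ _ _ hc, ha']
      congr 1
      field_simp
  | coe r =>
    rw [tau]
    have e : (c : ℚ) * (r + 1 / 32) + d' = c * r + d := by
      rw [hd']
      ring
    by_cases h : (c : ℚ) * r + d = 0
    · have h1 : mob a b c d (r : OnePoint ℚ) = ∞ := by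
        unfold mob
        simp [h]
      have h2 : mob a' b' c d' ((r + 1 / 32 : ℚ) : OnePoint ℚ) = ∞ := by
        have e' : (c : ℚ) * (r + 32⁻¹) + d' = 0 := by
          rw [← h, ← e]
          ring
        unfold mob
        simp [e']
      rw [h1, h2, tau_inf]
    · rw [NSY.mob_coe _ _ _ _ _ h, tau, NSY.mob_coe _ _ _ _ _ (by rw [e]; exact h), e]
      congr 1
      have h' : (c : ℚ) * r + d ≠ 0 := h
      rw [eq_div_iff h', add_mul, div_mul_cancel₀ _ h', ha', hb']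
      ring

/-- odd integers are units of `V` -/
theorem unit (V : ValuationSubring ℂ) (hv : V.valuation (2 : ℂ) < 1) (q : ℕ)
    (hq : q.Coprime 2) : V.valuation (q : ℂ) = 1 := by
  have h1 : V.valuation (q : ℂ) ≤ 1 := by
    rw [ValuationSubring.valuation_le_one_iff]
    exact natCast_mem V q
  refine le_antisymm h1 (not_lt.1 fun h => ?_)
  obtain ⟨u, w, huw⟩ := Nat.isCoprime_iff_coprime.2 hq
  have e : ((u : ℂ) * q + w * 2) = 1 := by exact_mod_cast huw
  have h2 : V.valuation ((u : ℂ) * q + w * 2) < 1 := by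
    apply Valuation.map_add_lt
    · rw [map_mul]
      have hu : V.valuation (u : ℂ) ≤ 1 := by
        rw [ValuationSubring.valuation_le_one_iff]
        exact intCast_mem V u
      calc V.valuation (u : ℂ) * V.valuation (q : ℂ) ≤ 1 * V.valuation (q : ℂ) := by gcongr
        _ < 1 := by rw [one_mul]; exact h
    · rw [map_mul]
      have hw : V.valuation (w : ℂ) ≤ 1 := by
        rw [ValuationSubring.valuation_le_one_iff]
        exact intCast_mem V w
      calc V.valuation (w : ℂ) * V.valuation (2 : ℂ) ≤ 1 * V.valuation (2 : ℂ) := by gcongr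
        _ < 1 := by rw [one_mul]; exact hv
  rw [e, map_one] at h2
  exact lt_irrefl _ h2

/-- a submodule is closed under division by units -/
theorem div (V : ValuationSubring ℂ) (m : Submodule V ℂ) (u z : ℂ)
    (hu : V.valuation u = 1) (h : u * z ∈ m) : z ∈ m := by
  have hu0 : u ≠ 0 := by
    rintro rfl
    rw [map_zero] at hu
    exact zero_ne_one hu
  have hi : u⁻¹ ∈ V := by
    rw [← ValuationSubring.valuation_le_one_iff, map_inv₀, hu, inv_one]
  have h2 := m.smul_mem ⟨u⁻¹, hi⟩ h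
  have e : (⟨u⁻¹, hi⟩ : V) • (u * z) = z := by
    show u⁻¹ * (u * z) = z
    field_simp
  rwa [e] at h2

end KYU

open _root_.Pool.Agent.N2H.KYU _root_.Pool.Agent in
theorem tu_KYU (h1 : St_PAIT) : Su_KYU := by
  intro V hv m N₀ s₀ nu Q hN₀ hcop hnu1 hnuper hnuv hsym r n₀ hloc
  have hN1 : 1 < N₀ := by omega
  set R : ℕ := 10 + (s₀ + 1) + r + 3 with hR
  have hpow : ∀ {i j : ℕ}, i ≤ j → (2 : ℤ) ^ i ∣ 2 ^ j := fun h => pow_dvd_pow 2 h
  -- divisors of the level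
  have hlev : ∀ c : ℤ, (2 : ℤ) ^ R * N₀ ∣ c → ((2 ^ (s₀ + 1) * N₀ : ℕ) : ℤ) ∣ c := by
    intro c hc
    refine dvd_trans ?_ hc
    push_cast
    exact mul_dvd_mul_right (hpow (by omega)) _
  have h8 : ∀ {i : ℕ}, 3 ≤ i → (8 : ℤ) ∣ 2 ^ i := fun h => by
    have : (8 : ℤ) = 2 ^ 3 := by norm_num
    rw [this]
    exact hpow h
  have hlev2 : ∀ c : ℤ, (2 : ℤ) ^ R * N₀ ∣ c → ((2 * N₀ : ℕ) : ℤ) ∣ c := by
    intro c hc
    refine dvd_trans ?_ hc
    push_cast
    exact mul_dvd_mul_right (dvd_pow_self 2 (by omega)) _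
  have hlev3 : ∀ c : ℤ, (2 : ℤ) ^ R * N₀ ∣ c → ((8 * N₀ : ℕ) : ℤ) ∣ c := by
    intro c hc
    refine dvd_trans ?_ hc
    push_cast
    exact mul_dvd_mul_right (h8 (by omega)) _
  -- `c = 32 c₁`
  have hc1 : ∀ c : ℤ, (2 : ℤ) ^ R * N₀ ∣ c → ∃ c₁ : ℤ, c = 32 * c₁ ∧
      ((8 * N₀ : ℕ) : ℤ) ∣ c₁ ∧ (2 : ℤ) ^ (r + 1) ∣ c₁ ∧ (32 : ℤ) ∣ c₁ := by
    rintro c ⟨k, rfl⟩
    refine ⟨2 ^ (R - 5) * N₀ * k, ?_, ?_, ?_, ?_⟩
    · have e : (2 : ℤ) ^ R = 32 * 2 ^ (R - 5) := by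
        conv_lhs => rw [show R = 5 + (R - 5) by omega, pow_add]
        norm_num
      rw [e]
      ring
    · push_cast
      apply Dvd.dvd.mul_right
      exact mul_dvd_mul_right (h8 (by omega)) _
    · apply Dvd.dvd.mul_right
      apply Dvd.dvd.mul_right
      exact hpow (by omega)
    · apply Dvd.dvd.mul_right
      apply Dvd.dvd.mul_right
      have : (32 : ℤ) = 2 ^ 5 := by norm_num
      rw [this]
      exact hpow (by omega)
  have key := NSY.key0_two (M := ℂ ⧸ m) (N := N₀) (r := R) (n0 := n₀ + r + 8)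
    (Φ := fun x y => Submodule.Quotient.mk (PTq 32 Q x y)) hN1
    (Nat.coprime_two_left.mp hcop) (by omega) ?_ ?_ ?_ ?_ ?_
  · refine ⟨R, fun a b c d hdet hc hd x => ?_⟩
    have h := key a b c d hdet hc hd x
    exact (Submodule.Quotient.mk_eq_zero m).1 h
  · -- no torsion
    intro q hq x hx
    obtain ⟨z, rfl⟩ := Submodule.Quotient.mk_surjective m x
    rw [← Submodule.Quotient.mk_smul, Submodule.Quotient.mk_eq_zero, nsmul_eq_mul] at hx
    rw [Submodule.Quotient.mk_eq_zero]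
    exact KYU.div V m q z (KYU.unit V hv q (Nat.coprime_two_right.mpr hq)) hx
  · -- additivity
    intro x y z
    show Submodule.Quotient.mk (PTq 32 Q x y) + Submodule.Quotient.mk (PTq 32 Q y z) =
      (Submodule.Quotient.mk (PTq 32 Q x z) : ℂ ⧸ m)
    rw [← Submodule.Quotient.mk_add]
    congr 1
    unfold PTq
    rw [← hsym.add x y z, ← hsym.add (mob 32 1 0 32 x) (mob 32 1 0 32 y) (mob 32 1 0 32 z)]
    ring
  · -- invariance
    intro a b c d hdet hc' hd' x y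
    have ha' : (2 : ℤ) ^ R * N₀ ∣ a - 1 := by
      have e : a - 1 = b * c - a * (d - 1) := by linear_combination hdet
      rw [e]
      exact dvd_sub (hc'.mul_left b) (hd'.mul_left a)
    obtain ⟨c₁, hcc, hcN, -, c₂, hc2⟩ := hc1 c hc'
    obtain ⟨d₁, hdd, -, -, -⟩ := hc1 _ hd'
    obtain ⟨a₁, haa, -, -, -⟩ := hc1 _ ha'
    have hnud : nu d = 1 := by
      rw [hnuper d 1 (hlev3 _ hd'), hnu1]
    have hnud' : nu (d - c₁) = 1 := by
      rw [hnuper (d - c₁) 1 ?_, hnu1]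
      have e : d - c₁ - 1 = d - 1 - c₁ := by ring
      rw [e]
      exact dvd_sub (hlev3 _ hd') hcN
    have hconj := KYU.conj a b c d (a + c₁) (b + (d₁ - a₁) - c₂) (d - c₁)
      (by rw [hcc]; ring) (by
        have e : d - a = 32 * (d₁ - a₁) := by linear_combination hdd - haa
        rw [e, hcc, hc2]
        ring) (by rw [hcc]; ring)
    have hdet' : (a + c₁) * (d - c₁) - (b + (d₁ - a₁) - c₂) * c = 1 := by
      have e1 : (32 : ℤ) * (d₁ - a₁) = d - a := by linear_combination haa - hdd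
      have e2 : c = 32 * c₁ := hcc
      have e3 : (32 : ℤ) * c₂ = c₁ := hc2.symm
      have : (a + c₁) * (d - c₁) - (b + (d₁ - a₁) - c₂) * c =
          (a * d - b * c) + c₁ * (d - a - 32 * (d₁ - a₁)) - c₁ * (c₁ - 32 * c₂) := by
        rw [e2]
        ring
      rw [this, hdet, e1, e3]
      ring
    show (Submodule.Quotient.mk (PTq 32 Q (mob a b c d x) (mob a b c d y)) : ℂ ⧸ m) =
      Submodule.Quotient.mk (PTq 32 Q x y)
    congr 1
    unfold PTq
    rw [hconj x, hconj y, hsym.equiv a b c d hdet (hlev _ hc') x y,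
      hsym.equiv _ _ c _ hdet' (hlev _ hc'), hnud, hnud', one_mul, one_mul]
  · -- (A)
    intro a b c d n hn hc hd hac hbd hN' hdet2
    obtain ⟨c₁, hcc, hcN, hcr, hc32⟩ := hc1 c hN'
    have h2c : (2 : ℤ) ∣ c := (Dvd.intro _ rfl : (2 : ℤ) ∣ 2 * N₀).trans
      (by simpa using hlev2 c hN')
    have ha2 : IsCoprime a (2 : ℤ) := hac.of_isCoprime_of_dvd_right h2c
    -- `d`
    have hdd : (2 : ℤ) ^ (r + 6) ∣ d := by
      have h2 : (2 : ℤ) ^ (r + 6) ∣ a * d := by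
        have e : a * d = 2 ^ n + b * c := by linear_combination hdet2
        rw [e]
        apply dvd_add (hpow (by omega))
        apply Dvd.dvd.mul_left
        exact dvd_trans (dvd_trans (hpow (by omega : r + 6 ≤ R)) (Dvd.intro _ rfl)) hN'
      exact (ha2.symm.pow_left).dvd_of_dvd_mul_left h2
    obtain ⟨d₂, hd2⟩ := hdd
    set d₁ : ℤ := 2 ^ (r + 1) * d₂ with hd1
    have hdd1 : d = 32 * d₁ := by
      rw [hd2, hd1, pow_add, pow_add]
      ring
    have h2d : (2 : ℤ) ∣ d := ⟨16 * d₁, by rw [hdd1]; ring⟩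
    have hb2 : ¬ (2 : ℤ) ∣ b := by
      intro h
      have h4 : IsCoprime (2 : ℤ) 2 := (hbd.of_isCoprime_of_dvd_left h).of_isCoprime_of_dvd_right h2d
      rw [isCoprime_self, Int.isUnit_iff] at h4
      omega
    -- PAIT for `Q`
    obtain ⟨e, he, hQe⟩ := h1 _ nu Q hsym n a b c d hc hd hac (hlev _ hN') hdet2
    have hac' : IsCoprime (a + c₁) c := by
      have h5 : IsCoprime (a + c₁) c₁ := by
        have : IsCoprime a c₁ := hac.of_isCoprime_of_dvd_right ⟨32, by rw [hcc]; ring⟩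
        have h6 := IsCoprime.add_mul_left_left this 1
        rwa [mul_one] at h6
      have h6 : IsCoprime (a + c₁) (32 : ℤ) := h5.of_isCoprime_of_dvd_right hc32
      rw [hcc]
      exact h6.mul_right h5
    obtain ⟨e', he', hQe'⟩ := h1 _ nu Q hsym n (a + c₁) (b + d₁) c d hc hd hac' (hlev _ hN') (by
      rw [← hdet2]
      have : (a + c₁) * d - (b + d₁) * c = a * d - b * c + (c₁ * d - d₁ * c) := by ring
      rw [this, hcc, hdd1]
      ring)
    have hnua : nu (a + c₁) = nu a := by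
      apply hnuper
      have : a + c₁ - a = c₁ := by ring
      rw [this]
      exact hcN
    rw [hnua] at hQe'
    -- the two cusps
    have hcQ : (c : ℚ) ≠ 0 := by exact_mod_cast hc
    have hdQ : (d : ℚ) ≠ 0 := by exact_mod_cast hd
    have hcq : (c : ℚ) = 32 * c₁ := by exact_mod_cast hcc
    have hdq : (d : ℚ) = 32 * d₁ := by exact_mod_cast hdd1
    have eu : ((a + c₁ : ℤ) : ℚ) / c = (a : ℚ) / c + 1 / 32 := by
      push_cast
      have h7 : (c₁ : ℚ) = c / 32 := by rw [hcq]; ring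
      rw [h7]
      field_simp
    have ew : ((b + d₁ : ℤ) : ℚ) / d = (b : ℚ) / d + 1 / 32 := by
      push_cast
      have h7 : (d₁ : ℚ) = d / 32 := by rw [hdq]; ring
      rw [h7]
      field_simp
    rw [eu, ew] at hQe'
    -- comparison of `e` and `e'`
    have hrn : (2 : ℤ) ^ (r + 1) ∣ 2 ^ n := hpow (by omega)
    have hee : (2 : ℤ) ^ r ∣ e - e' := by
      have h8 : (2 : ℤ) ^ (r + 1) ∣ a * (e - e') := by
        have e1 : a * (e - e') = (a * e - b) - ((a + c₁) * e' - (b + d₁)) + c₁ * e' - d₁ := by ring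
        rw [e1]
        apply dvd_sub
        · apply dvd_add
          · exact dvd_sub (hrn.trans he) (hrn.trans he')
          · exact hcr.mul_right _
        · exact Dvd.intro _ rfl
      have h9 : (2 : ℤ) ^ (r + 1) ∣ e - e' := (ha2.symm.pow_left).dvd_of_dvd_mul_left h8
      exact (hpow (by omega)).trans h9
    have he2 : ¬ (2 : ℤ) ∣ e := by
      intro h
      apply hb2
      have e1 : b = a * e - (a * e - b) := by ring
      rw [e1]
      apply dvd_sub (h.mul_left a)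
      exact (dvd_trans (dvd_pow_self 2 (by omega : n ≠ 0)) he)
    have hl := hloc n (by omega) e e' he2 hee
    rw [← hQe, ← hQe', ← mul_sub] at hl
    have hva : V.valuation (nu a) = 1 := by
      apply hnuv
      exact hac.of_isCoprime_of_dvd_right (hlev2 _ hN')
    have hfin := KYU.div V m _ _ hva hl
    show (Submodule.Quotient.mk (PTq 32 Q _ _) : ℂ ⧸ m) = 0
    rw [Submodule.Quotient.mk_eq_zero]
    unfold PTq
    rw [tau, tau]
    exact hfin
  · -- (A0)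
    intro b n hn hb
    have hb2 : ¬ (2 : ℤ) ∣ b := by
      rw [← even_iff_two_dvd, Int.not_even_iff_odd]
      exact hb
    show (Submodule.Quotient.mk (PTq 32 Q _ _) : ℂ ⧸ m) = 0
    rw [Submodule.Quotient.mk_eq_zero]
    unfold PTq
    rw [tau_inf, tau]
    have hl := hloc n (by omega) b (b + 2 ^ (n - 5)) hb2 (by
      have e : b - (b + 2 ^ (n - 5)) = -(2 ^ (n - 5)) := by ring
      rw [e, dvd_neg]
      exact hpow (by omega))
    have e : (((b + 2 ^ (n - 5) : ℤ) : ℚ) / 2 ^ n) = (b : ℚ) / 2 ^ n + 1 / 32 := by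
      have e2 : (2 : ℚ) ^ n = 32 * 2 ^ (n - 5) := by
        conv_lhs => rw [show n = 5 + (n - 5) by omega, pow_add]
        norm_num
      push_cast
      rw [e2]
      field_simp
    rw [e] at hl
    exact hl

end

end Pool.Agent.N2H


end

section

/-!
# MUX-2R, block HU, module SHU (helper58): `Q_(1/8)` is a symbol with the same character. Model: `N2/H_SHT.lean` (helper46)
-/

set_option autoImplicit false

namespace Pool.Agent.N2H

open _root_.MU3 _root_.Pool.Agent.MuSym _root_.Pool.Agent.MUXH _root_.Pool.Agent.N2 OnePoint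

noncomputable section

/-- the translation by `1/8` on the finite cusps -/
theorem shu_tau (x : ℚ) : mob 8 1 0 8 (x : OnePoint ℚ) = ((x + 1 / 8 : ℚ) : OnePoint ℚ) := by
  rw [NSY.mob_coe _ _ _ _ _ (by norm_num)]
  congr 1
  push_cast
  ring

theorem shu_tau_inf : mob 8 1 0 8 (∞ : OnePoint ℚ) = ∞ := NSY.mob_infty0 _ _ _

/-- conjugation of a matrix by the translation by `1/8` -/
theorem shu_conj (a b c d a' b' d' : ℤ) (ha : 8 * a' = 8 * a + c)
    (hb : 64 * b' = 64 * b + 8 * (d - a) - c) (hd : 8 * d' = 8 * d - c) (x : OnePoint ℚ) :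
    mob 8 1 0 8 (mob a b c d x) = mob a' b' c d' (mob 8 1 0 8 x) := by
  have ha' : (a' : ℚ) = a + c / 8 := by
    have : (8 : ℚ) * a' = 8 * a + c := by exact_mod_cast ha
    linarith
  have hb' : (b' : ℚ) = b + (d - a) / 8 - c / 64 := by
    have : (64 : ℚ) * b' = 64 * b + 8 * (d - a) - c := by exact_mod_cast hb
    linarith
  have hd' : (d' : ℚ) = d - c / 8 := by
    have : (8 : ℚ) * d' = 8 * d - c := by exact_mod_cast hd
    linarith
  induction x using OnePoint.rec with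
  | infty =>
    by_cases hc : c = 0
    · subst hc
      rw [NSY.mob_infty0, shu_tau_inf, NSY.mob_infty0]
    · have hc' : (c : ℚ) ≠ 0 := by exact_mod_cast hc
      rw [NSY.mob_infty _ _ _ _ hc, shu_tau, shu_tau_inf, NSY.mob_infty _ _ _ _ hc, ha']
      congr 1
      field_simp
  | coe r =>
    rw [shu_tau]
    have e : (c : ℚ) * (r + 1 / 8) + d' = c * r + d := by
      rw [hd']
      ring
    by_cases h : (c : ℚ) * r + d = 0
    · have h1 : mob a b c d (r : OnePoint ℚ) = ∞ := by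
        unfold mob
        simp [h]
      have h2 : mob a' b' c d' ((r + 1 / 8 : ℚ) : OnePoint ℚ) = ∞ := by
        have e' : (c : ℚ) * (r + 8⁻¹) + d' = 0 := by
          rw [← h, ← e]
          ring
        unfold mob
        simp [e']
      rw [h1, h2, shu_tau_inf]
    · rw [NSY.mob_coe _ _ _ _ _ h, shu_tau, NSY.mob_coe _ _ _ _ _ (by rw [e]; exact h), e]
      congr 1
      have h' : (c : ℚ) * r + d ≠ 0 := h
      rw [eq_div_iff h', add_mul, div_mul_cancel₀ _ h', ha', hb']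
      ring

/-- (SHU) -/
theorem tu_SHU : Su_SHU := by
  intro N₀ s nu Q hper hsym
  refine ⟨fun x y z => ?_, fun a b c d hdet hc x y => ?_⟩
  · unfold PTq
    rw [← hsym.add x y z, ← hsym.add (mob 8 1 0 8 x) (mob 8 1 0 8 y) (mob 8 1 0 8 z)]
    ring
  · obtain ⟨k, hk⟩ := hc
    obtain ⟨c₂, hc2⟩ : ∃ c₂ : ℤ, c₂ = 2 ^ (s + 1) * N₀ * k := ⟨_, rfl⟩
    have hc : c = 64 * c₂ := by
      rw [hk, hc2]
      push_cast
      rw [show s + 7 = 6 + (s + 1) by omega, pow_add]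
      ring
    have hlev : ((2 ^ (s + 1) * N₀ : ℕ) : ℤ) ∣ c := by
      rw [hc, hc2]
      push_cast
      exact ⟨64 * k, by ring⟩
    have h2N : ((8 * N₀ : ℕ) : ℤ) ∣ 8 * c₂ := by
      rw [hc2]
      push_cast
      exact ⟨2 ^ (s + 1) * k, by ring⟩
    -- `8 ∣ d - a`
    have h4 : (8 : ℤ) ∣ d - a := by
      have h1 : a * d = 1 + 8 * (8 * (b * c₂)) := by
        rw [hc] at hdet
        linear_combination hdet
      have h2 : (a * d) % 8 = 1 := by omega
      have ha : a % 8 = 0 ∨ a % 8 = 1 ∨ a % 8 = 2 ∨ a % 8 = 3 ∨ a % 8 = 4 ∨ a % 8 = 5 ∨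
        a % 8 = 6 ∨ a % 8 = 7 := by omega
      have hd : d % 8 = 0 ∨ d % 8 = 1 ∨ d % 8 = 2 ∨ d % 8 = 3 ∨ d % 8 = 4 ∨ d % 8 = 5 ∨
        d % 8 = 6 ∨ d % 8 = 7 := by omega
      rw [Int.mul_emod] at h2
      rcases ha with ha | ha | ha | ha | ha | ha | ha | ha <;>
        rcases hd with hd | hd | hd | hd | hd | hd | hd | hd <;>
        rw [ha, hd] at h2 <;> norm_num at h2 <;> omega
    obtain ⟨e, he⟩ := h4
    have hconj := shu_conj a b c d (a + 8 * c₂) (b + e - c₂) (d - 8 * c₂)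
      (by rw [hc]; ring) (by rw [hc, he]; ring) (by rw [hc]; ring)
    have hdet' : (a + 8 * c₂) * (d - 8 * c₂) - (b + e - c₂) * c = 1 := by
      rw [hc] at hdet ⊢
      linear_combination hdet + 8 * c₂ * he
    have hnu : nu (d - 8 * c₂) = nu d := by
      apply hper
      have e1 : d - 8 * c₂ - d = -(8 * c₂) := by ring
      rw [e1, dvd_neg]
      exact h2N
    unfold PTq
    rw [hconj x, hconj y, hsym.equiv a b c d hdet hlev x y, hsym.equiv _ _ c _ hdet' hlev, hnu]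
    ring

end

end Pool.Agent.N2H


end

section

/-!
# MUX-2R, block HU: glue (helper66)
-/

set_option autoImplicit false

namespace Pool.Agent.N2H

open _root_.MU3 _root_.Pool.Agent.MuSym _root_.Pool.Agent.MUXH _root_.Pool.Agent.N2 OnePoint

noncomputable section

namespace HUG

/-- the valuation ring as a submodule of `ℂ` -/
def mU (V : ValuationSubring ℂ) : Submodule V ℂ where
  carrier := {x | V.valuation x ≤ 1}
  add_mem' := by
    intro a b ha hb
    have ha' : V.valuation a ≤ 1 := ha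
    have hb' : V.valuation b ≤ 1 := hb
    exact (V.valuation.map_add a b).trans (max_le ha' hb')
  zero_mem' := by
    change V.valuation 0 ≤ 1
    rw [map_zero]
    exact zero_le_one
  smul_mem' := by
    intro c x hx
    change V.valuation ((c : ℂ) * x) ≤ 1
    rw [map_mul]
    exact mul_le_one' ((V.valuation_le_one_iff _).2 c.2) hx

lemma mem_mU {V : ValuationSubring ℂ} {x : ℂ} : x ∈ mU V ↔ V.valuation x ≤ 1 := Iff.rfl

/-- from small combinations to vanishing cycles, translation by `1/32` -/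
lemma fin_aux (hLOCT : St_LOCT) (hKYU : Su_KYU) (V : ValuationSubring ℂ)
    (hV : V.valuation (2 : ℂ) < 1) (m : Submodule V ℂ) (N₀ s : ℕ) (nu : ℤ → ℂ)
    (F : OnePoint ℚ → OnePoint ℚ → ℂ) (hN2 : 2 ≤ N₀) (hcop : Nat.Coprime 2 N₀) (hnu1 : nu 1 = 1)
    (hper : ∀ d d', ((8 * N₀ : ℕ) : ℤ) ∣ d - d' → nu d = nu d')
    (hunit : ∀ d, IsCoprime d ((2 * N₀ : ℕ) : ℤ) → V.valuation (nu d) = 1)
    (hF : IsSym (2 ^ (s + 1) * N₀) nu F) (k n₁ : ℕ)
    (hFp : ∀ (r : ℚ) (k : ℤ), F ∞ ((r + k : ℚ) : OnePoint ℚ) = F ∞ (r : OnePoint ℚ))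
    (hk : ∀ x y, (2 : ℂ) ^ k * F x y ∈ m) (α g : ℤ) (hα : (4 : ℤ) ∣ α - 1) (hα1 : α ≠ 1)
    (hg : (4 : ℤ) ∣ g - 1) (hg1 : g ≠ 1)
    (hall : ∀ n, n₁ ≤ n → ∀ b : ℤ, ¬ (2 : ℤ) ∣ b →
      comb α g 1 (fun b => F ∞ (((b : ℚ) / 2 ^ n : ℚ) : OnePoint ℚ)) b ∈ m) :
    ∃ R : ℕ, ∀ a b c d : ℤ, a * d - b * c = 1 → (2 : ℤ) ^ R * N₀ ∣ c →
      (2 : ℤ) ^ R * N₀ ∣ d - 1 → ∀ x, PTq 32 F x (mob a b c d x) ∈ m := by
  let z : ℕ → ℤ → ℂ := fun n b => F ∞ (((b : ℚ) / 2 ^ n : ℚ) : OnePoint ℚ)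
  have hzper : ∀ (n : ℕ) (b c : ℤ), (2 : ℤ) ^ n ∣ b - c → z n b = z n c := by
    rintro n b c ⟨t, ht⟩
    have e : ((b : ℚ) / 2 ^ n : ℚ) = (c : ℚ) / 2 ^ n + t := by
      have h3 : ((2 : ℚ) ^ n) ≠ 0 := by positivity
      have : (b : ℚ) = c + 2 ^ n * t := by
        have : (b : ℤ) = c + 2 ^ n * t := by linear_combination ht
        exact_mod_cast this
      rw [this]
      field_simp
    change F ∞ (((b : ℚ) / 2 ^ n : ℚ) : OnePoint ℚ) = F ∞ (((c : ℚ) / 2 ^ n : ℚ) : OnePoint ℚ)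
    rw [e]
    exact hFp _ t
  obtain ⟨r, hr⟩ := hLOCT V hV m z k n₁ hzper (fun n b => hk _ _) α g hα hα1 hg hg1 1 hall
  exact hKYU V hV m N₀ s nu F hN2 hcop hnu1 hper hunit hF r n₁ hr

/-- translations by integers -/
lemma sym_tr {N : ℕ} {nu : ℤ → ℂ} {P : OnePoint ℚ → OnePoint ℚ → ℂ} (hP : IsSym N nu P)
    (hnu1 : nu 1 = 1) (r : ℚ) (k : ℤ) :
    P ∞ ((r + k : ℚ) : OnePoint ℚ) = P ∞ (r : OnePoint ℚ) := by
  have h := hP.equiv 1 k 0 1 (by ring) (dvd_zero _) ∞ (r : OnePoint ℚ)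
  rw [hnu1, one_mul, MUXH.Hk.mob_inf, MUXH.Hk.mob_tr] at h
  exact h

end HUG

open _root_.Pool.Agent.N2H.HUG in
/-- (HU) -/
theorem tu_HU (hBDT : St_BDT) (hSHU : Su_SHU) (hH1U : Su_H1U) (hLOCT : St_LOCT)
    (hKYU : Su_KYU) (hDVU : Su_DVU) : Su_HU := by
  intro V N₀ s₀ nu P Pp pi KI om h H α g hα hα1 hg hg1 n₀
  by_contra hcon
  push Not at hcon
  obtain ⟨k, hk⟩ := hBDT V H.vp P H.alg H.fin
  have hPp : ∀ (r : ℚ) (k : ℤ), P ∞ ((r + k : ℚ) : OnePoint ℚ) = P ∞ (r : OnePoint ℚ) :=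
    fun r k => sym_tr H.sym H.nu1 r k
  set t := V.valuation (2 : ℂ) with ht
  set d := dH h with hd
  have ht0 : (0 : V.ValueGroup) < t := by
    rw [ht]
    exact zero_lt_iff.2 ((V.valuation.ne_zero_iff).2 two_ne_zero)
  have ht1 : t < 1 := H.vp
  have hpi : pi ≠ 0 := by
    rintro rfl
    have := H.vpi
    rw [map_zero] at this
    exact zero_ne_one this
  -- arithmetic of the values
  have hTY : ∀ w ∈ KI, 1 < V.valuation w → 1 ≤ V.valuation w ^ 2 * t := by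
    intro w hw h1
    have hw0 : w ≠ 0 := by
      rintro rfl
      rw [map_zero] at h1
      exact not_lt_zero h1
    have hv0 : V.valuation w ≠ 0 := (V.valuation.ne_zero_iff).2 hw0
    have h2 : V.valuation w⁻¹ < 1 := by
      rw [map_inv₀]
      exact inv_lt_one_of_one_lt₀ h1
    have h3 := H.unr w⁻¹ (inv_mem hw) h2
    rw [map_inv₀, inv_pow] at h3
    calc (1 : V.ValueGroup) = V.valuation w ^ 2 * (V.valuation w ^ 2)⁻¹ :=
          (mul_inv_cancel₀ (pow_ne_zero 2 hv0)).symm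
      _ ≤ V.valuation w ^ 2 * t := mul_le_mul_right h3 _
  obtain ⟨ϖ, hϖ, hϖv⟩ := H.hlf
  have hTY2 : ∀ w ∈ KI, 1 < V.valuation w ^ 2 * t → 1 ≤ V.valuation w ^ 2 * t ^ 2 := by
    intro w hw h1
    have e1 : V.valuation (w * ϖ) ^ 2 = V.valuation w ^ 2 * t := by
      rw [map_mul, mul_pow, hϖv]
    have h2 : 1 < V.valuation (w * ϖ) := by
      by_contra h3
      rw [not_lt] at h3
      rw [← e1] at h1
      exact absurd h1 (not_lt.2 (pow_le_one' h3 2))
    have h3 := hTY (w * ϖ) (mul_mem hw hϖ) h2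
    rw [e1, mul_assoc, ← sq] at h3
    exact h3
  -- the functions on the levels
  let z : ℕ → ℤ → ℂ := fun n b => P ∞ (((b : ℚ) / 2 ^ n : ℚ) : OnePoint ℚ)
  have hzper : ∀ (n : ℕ) (b c : ℤ), (2 : ℤ) ^ n ∣ b - c → z n b = z n c := by
    rintro n b c ⟨t, ht⟩
    have e : ((b : ℚ) / 2 ^ n : ℚ) = (c : ℚ) / 2 ^ n + t := by
      have h3 : ((2 : ℚ) ^ n) ≠ 0 := by positivity
      have : (b : ℚ) = c + 2 ^ n * t := by
        have : (b : ℤ) = c + 2 ^ n * t := by linear_combination ht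
        exact_mod_cast this
      rw [this]
      field_simp
    change P ∞ (((b : ℚ) / 2 ^ n : ℚ) : OnePoint ℚ) = P ∞ (((c : ℚ) / 2 ^ n : ℚ) : OnePoint ℚ)
    rw [e]
    exact hPp _ t
  have hzrel : ∀ (n : ℕ) (b : ℤ), z (n + 3) (b + 2 ^ (n + 1)) -
      (om + om ^ h) * z (n + 3) (b + 2 ^ n) + om ^ (1 + h) * z (n + 3) b = 0 := by
    intro n b
    have h0 := H.rel ((b : ℚ) / 2 ^ (n + 3))
    have h3 : ((2 : ℚ) ^ n) ≠ 0 := by positivity
    have e1 : ((b : ℚ) / 2 ^ (n + 3) + 1 / 4 : ℚ) =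
        ((b + 2 ^ (n + 1) : ℤ) : ℚ) / 2 ^ (n + 3) := by
      push_cast
      rw [pow_add, pow_add]
      field_simp
      ring
    have e2 : ((b : ℚ) / 2 ^ (n + 3) + 1 / 8 : ℚ) =
        ((b + 2 ^ n : ℤ) : ℚ) / 2 ^ (n + 3) := by
      push_cast
      rw [pow_add]
      field_simp
      ring
    rw [e1, e2] at h0
    exact h0
  have hztyp : ∀ n b, ∃ w ∈ KI, z n b = pi * w := fun n b => H.typ _ _
  have hint : ∀ a : ℤ, (a : ℂ) ∈ KI := fun a => intCast_mem KI a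
  have hYtyp : ∀ n b, ∃ w ∈ KI, comb α g 1 (z n) b = pi * w := by
    intro n b
    choose w hw hw' using hztyp n
    refine ⟨∑ j ∈ Finset.range (1 + 1), ((-1 : ℂ) ^ (1 - j) * ((1 : ℕ).choose j : ℂ)) *
      ((α : ℂ) * w (g ^ (1 - j) * b) - (α : ℂ) ^ 2 * w (g ^ (1 - j) * α ^ 2 * b)), ?_, ?_⟩
    · refine sum_mem fun j _ => mul_mem (mul_mem (pow_mem (neg_mem (one_mem _)) _)
        (natCast_mem KI _)) (sub_mem (mul_mem (hint α) (hw _))
        (mul_mem (pow_mem (hint α) 2) (hw _)))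
    · unfold comb
      rw [Finset.mul_sum]
      refine Finset.sum_congr rfl fun j _ => ?_
      rw [hw', hw']
      ring
  have hYper : ∀ n, ∀ b c : ℤ, (2 : ℤ) ^ n ∣ b - c →
      comb α g 1 (z n) b = comb α g 1 (z n) c := by
    intro n b c hbc
    unfold comb
    refine Finset.sum_congr rfl fun j _ => ?_
    rw [hzper n (g ^ (1 - j) * b) (g ^ (1 - j) * c) (by
        rw [← mul_sub]; exact hbc.mul_left _),
      hzper n (g ^ (1 - j) * α ^ 2 * b) (g ^ (1 - j) * α ^ 2 * c) (by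
        rw [← mul_sub]; exact hbc.mul_left _)]
  have hpow : ∀ (u : ℤ), (8 : ℤ) ∣ u - 1 → ∀ j : ℕ, (8 : ℤ) ∣ u ^ j - 1 := by
    intro u hu j
    have := sub_dvd_pow_sub_pow u 1 j
    rw [one_pow] at this
    exact hu.trans this
  -- a shift by `2^e`, `n ≤ e + 3`
  have hshift : ∀ (n e : ℕ), n ≤ e + 3 → ∀ (u : ℤ), (8 : ℤ) ∣ u - 1 → ∀ b : ℤ,
      z n (u * (b + 2 ^ e)) = z n (u * b + 2 ^ e) := by
    intro n e hne u hu b
    refine hzper _ _ _ ?_
    obtain ⟨w, hw⟩ := hu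
    have e1 : u * (b + 2 ^ e) - (u * b + 2 ^ e) = 2 ^ (e + 3) * w := by
      have : u = 1 + 8 * w := by linear_combination hw
      rw [this, pow_add]
      ring
    rw [e1]
    exact (pow_dvd_pow 2 hne).mul_right _
  have hgα : ∀ j : ℕ, (8 : ℤ) ∣ g ^ j * α ^ 2 - 1 := by
    intro j
    have e : g ^ j * α ^ 2 - 1 = (g ^ j - 1) * α ^ 2 + (α ^ 2 - 1) := by ring
    rw [e]
    exact dvd_add ((hpow g hg _).mul_right _) (hpow α hα 2)
  have hYrel : ∀ (m : ℕ) (b : ℤ), comb α g 1 (z (m + 3)) (b + 2 ^ (m + 1)) -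
      (om + om ^ h) * comb α g 1 (z (m + 3)) (b + 2 ^ m) +
        om ^ (1 + h) * comb α g 1 (z (m + 3)) b = 0 := by
    intro m b
    unfold comb
    rw [Finset.mul_sum, Finset.mul_sum, ← Finset.sum_sub_distrib, ← Finset.sum_add_distrib]
    refine Finset.sum_eq_zero fun j _ => ?_
    rw [hshift (m + 3) (m + 1) (by omega) _ (hpow g hg (1 - j)) b,
      hshift (m + 3) (m + 1) (by omega) _ (hgα (1 - j)) b,
      hshift (m + 3) m (by omega) _ (hpow g hg (1 - j)) b,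
      hshift (m + 3) m (by omega) _ (hgα (1 - j)) b]
    have h1 := hzrel m (g ^ (1 - j) * b)
    have h2 := hzrel m (g ^ (1 - j) * α ^ 2 * b)
    linear_combination ((-1 : ℂ) ^ (1 - j) * ((1 : ℕ).choose j : ℂ)) * ((α : ℂ) * h1 -
      (α : ℂ) ^ 2 * h2)
  have hYdiv : ∀ n, ∀ b b' : ℤ, comb α g 1 (z n) b' ≠ 0 →
      comb α g 1 (z n) b / comb α g 1 (z n) b' ∈ KI := by
    intro n b b' hb'
    obtain ⟨w, hw, e⟩ := hYtyp n b
    obtain ⟨w', hw', e'⟩ := hYtyp n b'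
    rw [e, e', mul_div_mul_left _ _ hpi]
    exact div_mem hw hw'
  have hvpi : ∀ w, V.valuation (pi * w) = V.valuation w := by
    intro w
    rw [map_mul, H.vpi, one_mul]
  have hnuv : ∀ d, IsCoprime d ((2 * N₀ : ℕ) : ℤ) → V.valuation (nu d) = 1 := by
    intro d hd
    have hd8 : IsCoprime d ((8 * N₀ : ℕ) : ℤ) := by
      have h1 : IsCoprime d (2 : ℤ) := hd.of_isCoprime_of_dvd_right (by
        push_cast
        exact dvd_mul_right _ _)
      have h2 : IsCoprime d (N₀ : ℤ) := hd.of_isCoprime_of_dvd_right (by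
        push_cast
        exact dvd_mul_left _ _)
      have h3 : IsCoprime d ((2 : ℤ) ^ 3) := h1.pow_right
      have e : ((8 * N₀ : ℕ) : ℤ) = (2 : ℤ) ^ 3 * N₀ := by push_cast; norm_num
      rw [e]
      exact h3.mul_right h2
    obtain ⟨a, b, hab⟩ := hd8
    have h1 : nu (d * a) = nu 1 := H.nuper _ _ ⟨-b, by linear_combination hab⟩
    rw [H.num, H.nu1] at h1
    refine le_antisymm (H.nuv d) ?_
    have h2 : V.valuation (nu d) * V.valuation (nu a) = 1 := by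
      rw [← map_mul, h1, map_one]
    calc (1 : V.ValueGroup) = V.valuation (nu d) * V.valuation (nu a) := h2.symm
      _ ≤ V.valuation (nu d) * 1 := by
        exact mul_le_mul_right (H.nuv a) _
      _ = V.valuation (nu d) := mul_one _
  have hN0 : N₀ ≠ 0 := by have := H.N0; omega
  -- the values of the combinations
  have hY1 : ∀ n, max n₀ 3 ≤ n → ∀ b, V.valuation (comb α g 1 (z n) b) ^ 2 * t ≤ 1 := by
    intro n hn b
    obtain ⟨m, rfl⟩ : ∃ m, n = m + 3 := ⟨n - 3, by omega⟩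
    by_contra hb
    rw [not_le] at hb
    obtain ⟨ζ, hζ, hζ2, hle⟩ := hcon (m + 3) (by omega)
    obtain ⟨w, hw, e⟩ := hYtyp (m + 3) b
    have hY0 : comb α g 1 (z (m + 3)) b ≠ 0 := by
      intro h0
      rw [h0, map_zero, zero_pow (by norm_num), zero_mul] at hb
      exact not_lt_zero hb
    have hv : V.valuation (comb α g 1 (z (m + 3)) b) = V.valuation w := by rw [e, hvpi]
    rw [hv] at hb
    have h1 := hTY2 w hw hb
    have hζ3 : ζ ^ 2 ^ m * om = 1 := by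
      rw [Nat.add_sub_cancel] at hζ2
      exact hζ2
    have h2 := (hDVU V H.vp KI H.unr om H.om8 h H.hh m (comb α g 1 (z (m + 3)))
      (hYper (m + 3)) (hYrel m) (hYdiv (m + 3)) b hY0 ζ hζ hζ3).1
    set S := V.valuation (∑ b ∈ Finset.range (2 ^ (m + 3)), ζ ^ b *
        comb α g 1 (z (m + 3)) b) with hS
    have hle' : S ^ 4 ≤ t ^ (2 * d + 3) := hle
    rw [hv] at h2
    have h3 : t ^ (d + 1) < S ^ 2 := by
      calc t ^ (d + 1) = t ^ (d + 1) * 1 := (mul_one _).symm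
        _ ≤ t ^ (d + 1) * (V.valuation w ^ 2 * t ^ 2) := mul_le_mul_right h1 _
        _ = t ^ (d + 3) * V.valuation w ^ 2 := by
          rw [show d + 3 = (d + 1) + 2 from rfl, pow_add t (d + 1) 2]
          ac_rfl
        _ < S ^ 2 := h2
    have h4 : t ^ (2 * d + 3) < S ^ 4 := by
      calc t ^ (2 * d + 3) ≤ t ^ (2 * d + 2) :=
            pow_le_pow_right_of_le_one' ht1.le (by omega)
        _ = (t ^ (d + 1)) ^ 2 := by
          rw [← pow_mul]
          congr 1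
          ring
        _ < (S ^ 2) ^ 2 := pow_lt_pow_left₀ h3 zero_le (by norm_num)
        _ = S ^ 4 := by rw [← pow_mul]
    exact absurd hle' (not_le.2 h4)
  have hY2 : ∀ n, max n₀ 3 ≤ n → ∀ b, comb α g 1 (z n) b -
      comb α g 1 (z n) (b + 2 ^ (n - 3)) ∈ mU V := by
    intro n hn b₁
    obtain ⟨m, rfl⟩ : ∃ m, n = m + 3 := ⟨n - 3, by omega⟩
    by_contra hb
    rw [mem_mU, not_le] at hb
    obtain ⟨ζ, hζ, hζ2, hle⟩ := hcon (m + 3) (by omega)
    rw [Nat.add_sub_cancel] at hb hζ2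
    obtain ⟨w, hw, e⟩ := hYtyp (m + 3) b₁
    obtain ⟨w', hw', e'⟩ := hYtyp (m + 3) (b₁ + 2 ^ m)
    have e1 : comb α g 1 (z (m + 3)) b₁ - comb α g 1 (z (m + 3)) (b₁ + 2 ^ m) =
        pi * (w - w') := by
      rw [e, e']
      ring
    rw [e1, hvpi] at hb
    have hww : 1 ≤ V.valuation (w - w') ^ 2 * t := hTY (w - w') (sub_mem hw hw') hb
    have hD : V.valuation (comb α g 1 (z (m + 3)) (b₁ + 2 ^ m) -
        comb α g 1 (z (m + 3)) b₁) = V.valuation (w - w') := by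
      rw [Valuation.map_sub_swap, e1, hvpi]
    have hsqle : ∀ a b : V.ValueGroup, a ^ 2 ≤ b ^ 2 → a ≤ b := by
      intro a b hab
      by_contra hc
      rw [not_le] at hc
      exact absurd hab (not_le.2 (pow_lt_pow_left₀ hc zero_le (by norm_num)))
    have hmax : ∀ b, V.valuation (comb α g 1 (z (m + 3)) b) ≤
        V.valuation (comb α g 1 (z (m + 3)) (b₁ + 2 ^ m) - comb α g 1 (z (m + 3)) b₁) := by
      intro b
      rw [hD]
      refine hsqle _ _ ?_
      have h1 : V.valuation (comb α g 1 (z (m + 3)) b) ^ 2 * t ≤ V.valuation (w - w') ^ 2 * t :=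
        (hY1 (m + 3) hn b).trans hww
      exact le_of_mul_le_mul_right h1 ht0
    -- one of the two values is large
    obtain ⟨b₀, hb₀, hb₀1⟩ : ∃ b₀, comb α g 1 (z (m + 3)) b₀ ≠ 0 ∧
        1 ≤ V.valuation (comb α g 1 (z (m + 3)) b₀) ^ 2 * t := by
      have h1 : V.valuation (w - w') ≤ max (V.valuation w) (V.valuation w') :=
        V.valuation.map_sub _ _
      rcases le_total (V.valuation w) (V.valuation w') with h2 | h2
      · rw [max_eq_right h2] at h1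
        have h3 : 1 ≤ V.valuation w' ^ 2 * t :=
          hww.trans (mul_le_mul_left (pow_le_pow_left' h1 2) _)
        refine ⟨b₁ + 2 ^ m, ?_, ?_⟩
        · intro h0
          rw [e'] at h0
          have h4 : w' = 0 := by
            rcases mul_eq_zero.1 h0 with h5 | h5
            · exact absurd h5 hpi
            · exact h5
          rw [h4, map_zero, zero_pow (by norm_num), zero_mul] at h3
          exact absurd h3 (not_le.2 zero_lt_one)
        · rw [e', hvpi]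
          exact h3
      · rw [max_eq_left h2] at h1
        have h3 : 1 ≤ V.valuation w ^ 2 * t :=
          hww.trans (mul_le_mul_left (pow_le_pow_left' h1 2) _)
        refine ⟨b₁, ?_, ?_⟩
        · intro h0
          rw [e] at h0
          have h4 : w = 0 := by
            rcases mul_eq_zero.1 h0 with h5 | h5
            · exact absurd h5 hpi
            · exact h5
          rw [h4, map_zero, zero_pow (by norm_num), zero_mul] at h3
          exact absurd h3 (not_le.2 zero_lt_one)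
        · rw [e, hvpi]
          exact h3
    have h2 := (hDVU V H.vp KI H.unr om H.om8 h H.hh m (comb α g 1 (z (m + 3)))
      (hYper (m + 3)) (hYrel m) (hYdiv (m + 3)) b₀ hb₀ ζ hζ hζ2).2 b₁ hmax
    set Yb := V.valuation (comb α g 1 (z (m + 3)) b₀) with hYb
    have h4 : t ^ (2 * d + 3) < V.valuation (∑ b ∈ Finset.range (2 ^ (m + 3)), ζ ^ b *
        comb α g 1 (z (m + 3)) b) ^ 4 := by
      refine lt_of_le_of_lt ?_ h2
      calc t ^ (2 * d + 3) = t ^ (2 * d + 3) * 1 := (mul_one _).symm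
        _ ≤ t ^ (2 * d + 3) * (Yb ^ 2 * t) ^ 2 :=
            mul_le_mul_right (one_le_pow_of_one_le' hb₀1 2) _
        _ = t ^ (2 * d + 5) * Yb ^ 4 := by
            rw [mul_pow, ← pow_mul, show 2 * d + 5 = (2 * d + 3) + 2 from rfl,
              pow_add t (2 * d + 3) 2]
            ac_rfl
    exact absurd hle (not_le.2 h4)
  -- the symbol `Q' = PTq 8 P`
  have hQ's : IsSym (2 ^ (s₀ + 6 + 1) * N₀) nu (PTq 8 P) := hSHU N₀ s₀ nu P H.nuper H.sym
  have hQ'eq : ∀ n, 3 ≤ n → ∀ b : ℤ, PTq 8 P ∞ (((b : ℚ) / 2 ^ n : ℚ) : OnePoint ℚ) =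
      z n b - z n (b + 2 ^ (n - 3)) := by
    intro n hn b
    obtain ⟨m, rfl⟩ : ∃ m, n = m + 3 := ⟨n - 3, by omega⟩
    unfold PTq
    rw [MUXH.H1.mob_inf, HTG.mob_trq 8 (by norm_num)]
    have e : ((b : ℚ) / 2 ^ (m + 3) + 1 / ((8 : ℤ) : ℚ) : ℚ) =
        ((b + 2 ^ (m + 3 - 3) : ℤ) : ℚ) / 2 ^ (m + 3) := by
      have h3 : ((2 : ℚ) ^ m) ≠ 0 := by positivity
      rw [Nat.add_sub_cancel]
      push_cast
      rw [pow_add]
      field_simp
      ring
    rw [e]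
  have hQ'p : ∀ (r : ℚ) (k : ℤ), PTq 8 P ∞ ((r + k : ℚ) : OnePoint ℚ) =
      PTq 8 P ∞ (r : OnePoint ℚ) := by
    intro r k
    unfold PTq
    rw [MUXH.H1.mob_inf, HTG.mob_trq 8 (by norm_num), HTG.mob_trq 8 (by norm_num), hPp]
    have e : (r + k + 1 / ((8 : ℤ) : ℚ) : ℚ) = r + 1 / ((8 : ℤ) : ℚ) + k := by ring
    rw [e, hPp]
  have hα4 : (4 : ℤ) ∣ α - 1 := (show (4 : ℤ) ∣ 8 by norm_num).trans hα
  have hg4 : (4 : ℤ) ∣ g - 1 := (show (4 : ℤ) ∣ 8 by norm_num).trans hg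
  obtain ⟨R, hR⟩ := fin_aux hLOCT hKYU V H.vp (mU V) N₀ (s₀ + 6) nu (PTq 8 P) H.N0 H.cop H.nu1
    H.nuper hnuv hQ's k (max n₀ 3) hQ'p (by
      intro x y
      unfold PTq
      rw [mul_sub]
      exact sub_mem (hk _ _) (hk _ _)) α g hα4 hα1 hg4 hg1 (by
      intro n hn b _
      have h2 := hY2 n hn b
      have e : comb α g 1 (fun b => PTq 8 P ∞ (((b : ℚ) / 2 ^ n : ℚ) : OnePoint ℚ)) b =
          comb α g 1 (z n) b - comb α g 1 (z n) (b + 2 ^ (n - 3)) := by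
        unfold comb
        rw [← Finset.sum_sub_distrib]
        refine Finset.sum_congr rfl fun j _ => ?_
        rw [hshift n (n - 3) (by omega) _ (hpow g hg (1 - j)) b,
          hshift n (n - 3) (by omega) _ (hgα (1 - j)) b]
        beta_reduce
        rw [hQ'eq n (by omega), hQ'eq n (by omega)]
        ring
      rw [e]
      exact h2)
  obtain ⟨a, b, c, d', hdet, hc, hd', hv⟩ := hH1U V N₀ s₀ nu P Pp pi KI om h H
    (2 ^ (R + (s₀ + 1)) * N₀) (mul_ne_zero (pow_ne_zero _ (by norm_num)) hN0)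
    (mul_dvd_mul_right (pow_dvd_pow 2 (Nat.le_add_left _ _)) _)
  have hdvd : (2 : ℤ) ^ R * (N₀ : ℤ) ∣ ((2 ^ (R + (s₀ + 1)) * N₀ : ℕ) : ℤ) := by
    push_cast
    exact mul_dvd_mul_right (pow_dvd_pow 2 (Nat.le_add_right _ _)) _
  have h1 := hR a b c d' hdet (hdvd.trans hc) (hdvd.trans hd') ∞
  rw [mem_mU] at h1
  exact absurd hv (not_lt.2 h1)

end

end Pool.Agent.N2H


end
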