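import Mathlib.NumberTheory.LegendreSymbol.JacobiSymbol
import Pool.Agent.MVF.C109
import Pool.Agent.MVF.C113
import Pool.Agent.MVF.C116
import Pool.Agent.MVF.C127
import Pool.Agent.MVF.C141

/-! Parts: N2.U_QSU, N2.U_Num, N2.U_Prj, N2.U_Rel, N2.U_Sym, N2.H_ChT, N2.H_DepT, N2.H_HfinT, N2.U_Hyp, N2.U_Hfin, N2.I_INP -/

section

/-!
# N2, 2 ramified, block H: the quantity of the final statement as a character sum, for `g = 25` and the two parts of
the symbol (helper41)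
-/

set_option autoImplicit false

namespace Pool.Agent.N2U

open _root_.MU3 _root_.Pool.Agent.MU3A _root_.Pool.Agent.MU3B _root_.Pool.Agent.MU3F _root_.Pool.Agent.MUX _root_.Pool.Agent.MUXH
  _root_.Pool.Agent.MUXHY _root_.Pool.Agent.MuSym OnePoint
open scoped ComplexConjugate

noncomputable section

/-- the sum over norms is zero if no norm is in the class -/
theorem SnX_zero {A B : ℤ} {n : ℕ} {ι : Type} (R : Reps A B n ι) (m M : ℕ) (e : OO A B → ℂ)
    (i : ι) (c d : ℤ) (hd : d ∣ (M : ℤ))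
    (h : ∀ x : OO A B, e x ≠ 0 → ¬ d ∣ nm x * nI (R.b i) - c) : SnX R m M e i c = 0 := by
  unfold SnX sumMod
  rw [show (fun q : OO A B ⧸ Ideal.span {((m : ℕ) : OO A B)} =>
      (if (M : ℤ) ∣ nm (Quotient.out q) * nI (R.b i) - c then
        e (Quotient.out q) * ee (R.L i) (pt R m i (Quotient.out q)) else 0)) = fun _ => 0 from ?_]
  · simp
  · funext q
    split_ifs with h1
    · by_cases h2 : e (Quotient.out q) = 0
      · rw [h2, zero_mul]
      · exact absurd (hd.trans h1) (h _ h2)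
    · rfl

open _root_.Pool.Agent.MU3H.Qs in
/-- the algebra of character sums -/
theorem qs_gen {M : ℕ} (hM : M ≠ 0) {a u : ℤ} (ha : IsCoprime a (M : ℤ))
    (hu : IsCoprime u (M : ℤ)) (N : ℕ) (Q : ℤ → ℂ) (hQ : ∀ b k : ℤ, Q (b + M * k) = Q b)
    (K : ℂ) (T : ℕ → ℂ)
    (hT : ∀ j ≤ N, T j = K * ((a : ℂ) * ∑ b ∈ Finset.range M,
        ex (((-((b : ℤ) * (a ^ 2 * u ^ j)) : ℤ) : ℚ) / (M : ℚ)) * Q b -
      (a : ℂ) ^ 2 * ∑ b ∈ Finset.range M, ex (((-((b : ℤ) * u ^ j) : ℤ) : ℚ) / (M : ℚ)) * Q b)) :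
    ∑ j ∈ Finset.range (N + 1), ((-1 : ℂ) ^ (N - j) * (N.choose j : ℂ)) * T j =
      K * ∑ b ∈ Finset.range M, ex (((-(u ^ N * a ^ 2) : ℤ) : ℚ) / (M : ℚ)) ^ b *
        comb a u N Q b := by
  have : NeZero M := ⟨hM⟩
  have hMQ : (M : ℚ) ≠ 0 := Nat.cast_ne_zero.2 hM
  set E : ℤ → ℂ := fun k => ex (k / (M : ℚ)) with hEdef
  have hEadd : ∀ k l : ℤ, E (k + l) = E k * E l := by
    intro k l
    simp only [hEdef]
    rw [← ex_add]
    congr 1
    push_cast
    ring
  have hEq : ∀ k : ℤ, E (M * k) = 1 := by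
    intro k
    simp only [hEdef]
    rw [← ex_int k]
    congr 1
    push_cast
    field_simp
  have hEper : ∀ b k : ℤ, E (b + M * k) = E b := by
    intro b k
    rw [hEadd, hEq, mul_one]
  set W : ℤ → ℂ := fun c => ∑ b ∈ Finset.range M, E (-(b * c)) * Q b with hWdef
  have hsub : ∀ (c u : ℤ), IsCoprime u (M : ℤ) →
      W c = ∑ b ∈ Finset.range M, E (-(b * (u * c))) * Q (u * b) := by
    intro c u hu
    have hG : ∀ b k : ℤ, (fun b : ℤ => E (-(b * c)) * Q b) (b + M * k) =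
        (fun b : ℤ => E (-(b * c)) * Q b) b := by
      intro b k
      show E (-((b + M * k) * c)) * Q (b + M * k) = E (-(b * c)) * Q b
      rw [hQ, show -((b + M * k) * c) = -(b * c) + M * (-(k * c)) by ring, hEper]
    have h := sum_mul (G := fun b : ℤ => E (-(b * c)) * Q b) hG hu
    simp only [hWdef]
    rw [← h]
    refine Finset.sum_congr rfl (fun b _ => ?_)
    show E (-((u * (b : ℤ)) * c)) * Q (u * (b : ℤ)) = _
    rw [show -((u * (b : ℤ)) * c) = -(b * (u * c)) by ring]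
  have hz : ∀ b : ℕ, ex (((-(u ^ N * a ^ 2) : ℤ) : ℚ) / (M : ℚ)) ^ b =
      E (-(b * (u ^ N * a ^ 2))) := by
    intro b
    rw [ex_pow]
    simp only [hEdef]
    congr 1
    push_cast
    ring
  have hTW : ∀ j ≤ N, T j = K * ((a : ℂ) * W (a ^ 2 * u ^ j) - (a : ℂ) ^ 2 * W (u ^ j)) :=
    hT
  have hterm : ∀ j ∈ Finset.range (N + 1),
      (a : ℂ) * W (a ^ 2 * u ^ j) - (a : ℂ) ^ 2 * W (u ^ j) =
        ∑ b ∈ Finset.range M, E (-(b * (u ^ N * a ^ 2))) *
          ((a : ℂ) * Q (u ^ (N - j) * b) - (a : ℂ) ^ 2 * Q (u ^ (N - j) * a ^ 2 * b)) := by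
    intro j hj
    have hjN : N - j + j = N := Nat.sub_add_cancel (Nat.lt_succ_iff.mp (Finset.mem_range.mp hj))
    have e4 : u ^ (N - j) * u ^ j = u ^ N := by rw [← pow_add, hjN]
    rw [hsub (a ^ 2 * u ^ j) (u ^ (N - j)) hu.pow_left,
      hsub (u ^ j) (u ^ (N - j) * a ^ 2) (hu.pow_left.mul_left ha.pow_left),
      Finset.mul_sum, Finset.mul_sum, ← Finset.sum_sub_distrib]
    refine Finset.sum_congr rfl (fun b _ => ?_)
    rw [show u ^ (N - j) * (a ^ 2 * u ^ j) = u ^ N * a ^ 2 by rw [← e4]; ring,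
      show u ^ (N - j) * a ^ 2 * u ^ j = u ^ N * a ^ 2 by rw [← e4]; ring]
    ring
  have hlhs : ∀ j ∈ Finset.range (N + 1),
      ((-1 : ℂ) ^ (N - j) * (N.choose j : ℂ)) * T j =
      K * ∑ b ∈ Finset.range M, E (-(b * (u ^ N * a ^ 2))) *
        (((-1 : ℂ) ^ (N - j) * (N.choose j : ℂ)) *
          ((a : ℂ) * Q (u ^ (N - j) * b) - (a : ℂ) ^ 2 * Q (u ^ (N - j) * a ^ 2 * b))) := by
    intro j hj
    rw [hTW j (Nat.lt_succ_iff.mp (Finset.mem_range.mp hj)), hterm j hj, Finset.mul_sum,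
      Finset.mul_sum, Finset.mul_sum]
    refine Finset.sum_congr rfl (fun b _ => ?_)
    ring
  rw [Finset.sum_congr rfl hlhs, ← Finset.mul_sum, Finset.sum_comm]
  congr 1
  refine Finset.sum_congr rfl (fun b _ => ?_)
  rw [hz b, ← Finset.mul_sum]
  congr 1

open Qsx _root_.Pool.Agent.MU3H.Qs in
/-- (QSU) the quantity of the final statement as a character sum, for any `u = 1` modulo `8` and
the two parts `kP`, `kM` of the weights: `kk_i = kP_i` if classes `c = 1` modulo `8` occur as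
`N(x) N(b_i)`, `kk_i = kM_i` if classes `c = -1` occur. -/
theorem qsu (h1 : MUXF.Sx_F5) (h2 : MUXF.Sx_PRD) {A B : ℤ} (hC : CQ A B) {f : ℕ} (hf : f ≠ 0)
    {ι : Type} [Fintype ι] (R : Reps A B (2 * f) ι) {g : Ideal (OO A B)} {e : OO A B → ℂ}
    (he : IsEI g e) (hg : ((2 * f : ℕ) : OO A B) ∈ g) (kk kP kM : ι → ℂ) (N n : ℕ) {u : ℤ}
    (hu : (8 : ℤ) ∣ u - 1)
    (hP : ∀ (i : ι) (c : ℤ), (8 : ℤ) ∣ c - 1 →
      kk i * SnX R (lvX 2 f n) (q0 2 * 2 ^ n) e i c = kP i * SnX R (lvX 2 f n) (q0 2 * 2 ^ n) e i c)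
    (hM : ∀ (i : ι) (c : ℤ), (8 : ℤ) ∣ c - 1 →
      kk i * SnX R (lvX 2 f n) (q0 2 * 2 ^ n) e i (-c) =
        kM i * SnX R (lvX 2 f n) (q0 2 * 2 ^ n) e i (-c)) :
    ∑ j ∈ Finset.range (N + 1), ((-1 : ℂ) ^ (N - j) * (N.choose j : ℂ)) *
        (STX R (lvX 2 f n) (q0 2 * 2 ^ n) (aX 2 f) e kk (u ^ j) +
          STX R (lvX 2 f n) (q0 2 * 2 ^ n) (aX 2 f) e kk (-u ^ j)) =
      2 * f * ∑ b ∈ Finset.range (q0 2 * 2 ^ n),
        ex (((-(u ^ N * (aX 2 f : ℤ) ^ 2) : ℤ) : ℚ) / ((q0 2 * 2 ^ n : ℕ) : ℚ)) ^ b *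
          comb (aX 2 f) u N (fun b =>
            PP R ⊤ e kP 0 ∞ ((b / ((q0 2 * 2 ^ n : ℕ) : ℚ) : ℚ) : OnePoint ℚ) +
            PP R ⊤ e kM 0 (mob (-1) 0 0 1 ∞)
              (mob (-1) 0 0 1 ((b / ((q0 2 * 2 ^ n : ℕ) : ℚ) : ℚ) : OnePoint ℚ))) b := by
  have hp : Nat.Prime 2 := Nat.prime_two
  have hMdef : q0 2 * 2 ^ n ≠ 0 := mul_ne_zero (q0_ne hp) (pow_ne_zero _ hp.ne_zero)
  have hSnX := fun i c => SnX_eq h1 hC hp hf R he hg n i c
  have hodd : ∀ u : ℤ, (8 : ℤ) ∣ u - 1 → IsCoprime u ((q0 2 * 2 ^ n : ℕ) : ℤ) := by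
    intro u hu
    have h3 : IsCoprime u (2 : ℤ) := by
      obtain ⟨t, ht⟩ := hu
      exact ⟨1, -(4 * t), by linear_combination ht⟩
    have h4 : ((q0 2 * 2 ^ n : ℕ) : ℤ) = 2 ^ (n + 2) := by
      unfold q0
      push_cast
      norm_num
      ring
    rw [h4]
    exact h3.pow_right
  have ha8 : (8 : ℤ) ∣ (aX 2 f : ℤ) - 1 := by
    refine ⟨f, ?_⟩
    unfold aX q0
    push_cast
    norm_num
  have hmul8 : ∀ x y : ℤ, (8 : ℤ) ∣ x - 1 → (8 : ℤ) ∣ y - 1 → (8 : ℤ) ∣ x * y - 1 := by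
    intro x y hx hy
    have h1 : x * y - 1 = (x - 1) * y + (y - 1) := by ring
    rw [h1]
    exact dvd_add (Dvd.dvd.mul_right hx y) hy
  have hpow8 : ∀ j : ℕ, (8 : ℤ) ∣ u ^ j - 1 := by
    intro j
    have := sub_dvd_pow_sub_pow u 1 j
    rw [one_pow] at this
    exact hu.trans this
  generalize hMM : q0 2 * 2 ^ n = M at *
  have : NeZero M := ⟨hMdef⟩
  have hMQ : (M : ℚ) ≠ 0 := Nat.cast_ne_zero.2 hMdef
  set FP : ℤ → ℂ := fun b => PP R ⊤ e kP 0 ∞ ((b / (M : ℚ) : ℚ) : OnePoint ℚ) with hFPdef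
  set FM : ℤ → ℂ := fun b => PP R ⊤ e kM 0 ∞ ((b / (M : ℚ) : ℚ) : OnePoint ℚ) with hFMdef
  set Q : ℤ → ℂ := fun b => PP R ⊤ e kP 0 ∞ ((b / (M : ℚ) : ℚ) : OnePoint ℚ) +
            PP R ⊤ e kM 0 (mob (-1) 0 0 1 ∞)
              (mob (-1) 0 0 1 ((b / (M : ℚ) : ℚ) : OnePoint ℚ)) with hQdef
  set E : ℤ → ℂ := fun k => ex (k / (M : ℚ)) with hEdef
  have hPF : ∀ b : ℤ, Q b = FP b + FM (-b) := by
    intro b
    simp only [hQdef, hFPdef, hFMdef]
    rw [mob_inf, mob_neg]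
    congr 4
    push_cast
    ring
  have hper : ∀ (k' : ι → ℂ) (b k : ℤ),
      PP R ⊤ e k' 0 ∞ (((b + M * k : ℤ) / (M : ℚ) : ℚ) : OnePoint ℚ) =
        PP R ⊤ e k' 0 ∞ ((b / (M : ℚ) : ℚ) : OnePoint ℚ) := by
    intro k' b k
    have h := PP_per h2 hC R ⊤ e k' (b / (M : ℚ)) k
    rw [← h]
    congr 3
    push_cast
    field_simp
  have hQper : ∀ b k : ℤ, Q (b + M * k) = Q b := by
    intro b k
    rw [hPF, hPF]
    congr 1
    · exact hper kP b k
    · have := hper kM (-b) (-k)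
      simp only [hFMdef]
      rw [← this]
      congr 3
      push_cast
      ring
  have hEadd : ∀ k l : ℤ, E (k + l) = E k * E l := by
    intro k l
    simp only [hEdef]
    rw [← ex_add]
    congr 1
    push_cast
    ring
  have hEq : ∀ k : ℤ, E (M * k) = 1 := by
    intro k
    simp only [hEdef]
    rw [← ex_int k]
    congr 1
    push_cast
    field_simp
  have hEper : ∀ b k : ℤ, E (b + M * k) = E b := by
    intro b k
    rw [hEadd, hEq, mul_one]
  -- the transform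
  have hSn : ∀ (k' : ι → ℂ) (c : ℤ), ∑ i, k' i * SnX R (lvX 2 f n) M e i c =
      (2 * f) * ∑ b ∈ Finset.range M, E (-(b * c)) *
        PP R ⊤ e k' 0 ∞ ((((b : ℕ) : ℤ) / (M : ℚ) : ℚ) : OnePoint ℚ) := by
    intro k' c
    have h3 : ∀ i, k' i * SnX R (lvX 2 f n) M e i c = ∑ b ∈ Finset.range M, (2 * f) *
        (E (-(b * c)) * (k' i / e ((nI (R.b i) : ℕ) : OO A B) *
          PhiI (R.b i) e ∞ ((((b : ℕ) : ℤ) / (M : ℚ) : ℚ) : OnePoint ℚ) / R.om R.i0)) := by
      intro i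
      rw [hSnX i c, Finset.mul_sum, Finset.mul_sum, Finset.mul_sum]
      refine Finset.sum_congr rfl fun b _ => ?_
      have h4 : E (-(b * c)) = ex (-(b * c) / (M : ℚ)) := by
        simp only [hEdef]
        push_cast
        rfl
      rw [h4, Int.cast_natCast]
      ring
    rw [Finset.sum_congr rfl (fun i _ => h3 i), Finset.sum_comm, Finset.mul_sum]
    refine Finset.sum_congr rfl fun b _ => ?_
    rw [← Finset.mul_sum, ← Finset.mul_sum, ← Finset.sum_div]
    congr 2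
    simp only [PP]
    rw [pow_zero]
    simp only [mul_one]
  have hneg : ∀ c : ℤ, ∑ b ∈ Finset.range M, E (-(b * (-c))) * FM b =
      ∑ b ∈ Finset.range M, E (-(b * c)) * FM (-b) := by
    intro c
    have hG : ∀ b k : ℤ, (fun b : ℤ => E (-(b * (-c))) * FM b) (b + M * k) =
        (fun b : ℤ => E (-(b * (-c))) * FM b) b := by
      intro b k
      show E (-((b + M * k) * (-c))) * FM (b + M * k) = E (-(b * (-c))) * FM b
      have : FM (b + M * k) = FM b := hper kM b k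
      rw [this, show -((b + M * k) * (-c)) = -(b * (-c)) + M * (k * c) by ring, hEper]
    have h := sum_mul (G := fun b : ℤ => E (-(b * (-c))) * FM b) hG (u := -1)
      (by exact (isCoprime_one_left).neg_left)
    rw [← h]
    refine Finset.sum_congr rfl (fun b _ => ?_)
    show E (-((-1 * (b : ℤ)) * (-c))) * FM (-1 * (b : ℤ)) = _
    rw [show -((-1 * (b : ℤ)) * (-c)) = -(b * c) by ring, show -1 * (b : ℤ) = -b by ring]
  have hSW : ∀ c : ℤ, (8 : ℤ) ∣ c - 1 → ∑ i, kk i * SnX R (lvX 2 f n) M e i c +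
      ∑ i, kk i * SnX R (lvX 2 f n) M e i (-c) =
      (2 * f) * ∑ b ∈ Finset.range M, E (-(b * c)) * Q b := by
    intro c hc
    rw [Finset.sum_congr rfl (fun i _ => hP i c hc), Finset.sum_congr rfl (fun i _ => hM i c hc),
      hSn kP c, hSn kM (-c)]
    have h5 := hneg c
    simp only [hFMdef] at h5
    rw [h5, ← mul_add, ← Finset.sum_add_distrib]
    congr 1
    refine Finset.sum_congr rfl (fun b _ => ?_)
    rw [hPF, mul_add]
  have ha2 : (8 : ℤ) ∣ (aX 2 f : ℤ) ^ 2 - 1 := by rw [sq]; exact hmul8 _ _ ha8 ha8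
  refine qs_gen hMdef (hodd _ ha8) (hodd _ hu) N Q hQper (2 * f) (fun j =>
    STX R (lvX 2 f n) M (aX 2 f) e kk (u ^ j) + STX R (lvX 2 f n) M (aX 2 f) e kk (-u ^ j)) ?_
  intro j _
  have e0 : ∀ c, STX R (lvX 2 f n) M (aX 2 f) e kk c =
      ((aX 2 f : ℕ) : ℂ) * ∑ i, kk i * SnX R (lvX 2 f n) M e i ((aX 2 f : ℤ) ^ 2 * c) -
        ((aX 2 f : ℕ) : ℂ) ^ 2 * ∑ i, kk i * SnX R (lvX 2 f n) M e i c := by
    intro c
    unfold STX
    rw [Finset.mul_sum, Finset.mul_sum, ← Finset.sum_sub_distrib]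
    refine Finset.sum_congr rfl fun i _ => ?_
    ring
  have e1 := hSW (u ^ j) (hpow8 j)
  have e2 := hSW ((aX 2 f : ℤ) ^ 2 * u ^ j) (hmul8 _ _ ha2 (hpow8 j))
  simp only [hEdef] at e1 e2
  beta_reduce
  rw [e0, e0, show (aX 2 f : ℤ) ^ 2 * -u ^ j = -((aX 2 f : ℤ) ^ 2 * u ^ j) by ring,
    Int.cast_natCast]
  linear_combination ((aX 2 f : ℕ) : ℂ) * e2 - ((aX 2 f : ℕ) : ℂ) ^ 2 * e1

end

end Pool.Agent.N2U


end

section

/-!
# N2, 2 ramified, block H (helper41): norms modulo 8 and the Jacobi symbol modulo the odd part of `A`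
-/

set_option autoImplicit false

namespace Pool.Agent.N2U

open _root_.MU3 _root_.Pool.Agent.MU3A _root_.Pool.Agent.MU3B _root_.Pool.Agent.MUX

/-- the norms of the units of `O_P` modulo `8` are `{1, h}` -/
def hR (A : ℤ) : ℕ := if A % 4 = 3 then 5 else if A % 8 = 6 then 3 else 7

/-- the class of `k` modulo `8` is in `{1, h}` -/
def InH (A k : ℤ) : Prop := k % 8 = 1 ∨ k % 8 = hR A

/-- the odd part of `|A|` -/
def qR (A : ℤ) : ℕ := if A % 4 = 3 then A.natAbs else A.natAbs / 2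

/-- the three cases -/
theorem hR_cases {A : ℤ} (hA : A % 4 = 2 ∨ A % 4 = 3) :
    (A % 4 = 3 ∧ hR A = 5) ∨ (A % 8 = 6 ∧ hR A = 3) ∨ (A % 8 = 2 ∧ hR A = 7) := by
  unfold hR
  rcases hA with h | h
  · have h1 : A % 8 = 2 ∨ A % 8 = 6 := by omega
    rcases h1 with h1 | h1
    · right; right
      rw [if_neg (by omega), if_neg (by omega)]
      exact ⟨h1, rfl⟩
    · right; left
      rw [if_neg (by omega), if_pos h1]
      exact ⟨h1, rfl⟩
  · left
    rw [if_pos h]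
    exact ⟨h, rfl⟩

/-- squares modulo 8 -/
theorem sq8 (k : ℤ) : (k % 2 = 1 ∧ k ^ 2 % 8 = 1) ∨ (k % 4 = 0 ∧ k ^ 2 % 8 = 0) ∨
    (k % 4 = 2 ∧ k ^ 2 % 8 = 4) := by
  have h8 : k % 8 = 0 ∨ k % 8 = 1 ∨ k % 8 = 2 ∨ k % 8 = 3 ∨ k % 8 = 4 ∨ k % 8 = 5 ∨
    k % 8 = 6 ∨ k % 8 = 7 := by omega
  have h2 : k ^ 2 % 8 = ((k % 8) * (k % 8)) % 8 := by rw [sq, Int.mul_emod]
  rcases h8 with h | h | h | h | h | h | h | h <;> rw [h2, h] <;> omega

/-- odd norms are in `{1, h}` modulo 8 -/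
theorem nm_inH {A : ℤ} (hA : A % 4 = 2 ∨ A % 4 = 3) (x : OO A 0) (hx : nm x % 2 = 1) :
    InH A (nm x) := by
  have h1 : nm x = x.re ^ 2 - A * x.im ^ 2 := by
    unfold nm
    ring
  have h2 : nm x % 8 = (x.re ^ 2 % 8 - (A % 8) * (x.im ^ 2 % 8)) % 8 := by
    rw [h1, Int.sub_emod, Int.mul_emod]
    generalize A % 8 * (x.im ^ 2 % 8) = t
    generalize x.re ^ 2 = r
    omega
  have h3 := sq8 x.re
  have h4 := sq8 x.im
  have hA8 : A % 8 = 2 ∨ A % 8 = 3 ∨ A % 8 = 6 ∨ A % 8 = 7 := by omega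
  unfold InH hR
  rcases hA8 with h5 | h5 | h5 | h5 <;> rw [h5] at h2
  · rw [if_neg (by omega), if_neg (by omega)]
    rcases h3 with ⟨-, h3⟩ | ⟨-, h3⟩ | ⟨-, h3⟩ <;> rcases h4 with ⟨-, h4⟩ | ⟨-, h4⟩ | ⟨-, h4⟩ <;>
      rw [h3, h4] at h2 <;> omega
  · rw [if_pos (by omega)]
    rcases h3 with ⟨-, h3⟩ | ⟨-, h3⟩ | ⟨-, h3⟩ <;> rcases h4 with ⟨-, h4⟩ | ⟨-, h4⟩ | ⟨-, h4⟩ <;>
      rw [h3, h4] at h2 <;> omega
  · rw [if_neg (by omega), if_pos h5]
    rcases h3 with ⟨-, h3⟩ | ⟨-, h3⟩ | ⟨-, h3⟩ <;> rcases h4 with ⟨-, h4⟩ | ⟨-, h4⟩ | ⟨-, h4⟩ <;>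
      rw [h3, h4] at h2 <;> omega
  · rw [if_pos (by omega)]
    rcases h3 with ⟨-, h3⟩ | ⟨-, h3⟩ | ⟨-, h3⟩ <;> rcases h4 with ⟨-, h4⟩ | ⟨-, h4⟩ | ⟨-, h4⟩ <;>
      rw [h3, h4] at h2 <;> omega

/-- `{1, h}` is a group -/
theorem inH_mul {A : ℤ} (hA : A % 4 = 2 ∨ A % 4 = 3) {a b : ℤ} (ha : InH A a) :
    InH A (a * b) ↔ InH A b := by
  have h1 : (a * b) % 8 = ((a % 8) * (b % 8)) % 8 := Int.mul_emod a b 8
  have h2 : b % 8 = 0 ∨ b % 8 = 1 ∨ b % 8 = 2 ∨ b % 8 = 3 ∨ b % 8 = 4 ∨ b % 8 = 5 ∨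
    b % 8 = 6 ∨ b % 8 = 7 := by omega
  unfold InH at ha ⊢
  rcases hR_cases hA with ⟨-, h⟩ | ⟨-, h⟩ | ⟨-, h⟩ <;> rw [h] at ha ⊢ <;> push_cast at ha ⊢ <;>
    rcases ha with ha | ha <;> rw [ha] at h1 <;>
    rcases h2 with h2 | h2 | h2 | h2 | h2 | h2 | h2 | h2 <;> rw [h2] at h1 ⊢ <;> rw [h1] <;>
    norm_num

theorem inH_congr {A a b : ℤ} (h : (8 : ℤ) ∣ a - b) : InH A a ↔ InH A b := by
  have h1 : a % 8 = b % 8 := by omega
  unfold InH
  rw [h1]

theorem inH_odd {A a : ℤ} (hA : A % 4 = 2 ∨ A % 4 = 3) (h : InH A a) : a % 2 = 1 := by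
  unfold InH at h
  rcases hR_cases hA with ⟨-, h1⟩ | ⟨-, h1⟩ | ⟨-, h1⟩ <;> rw [h1] at h <;> push_cast at h <;> omega

theorem inH_one (A : ℤ) : InH A 1 := Or.inl rfl

/-- the odd part -/
theorem qR_spec {A : ℤ} (hA0 : A < 0) (hA : A % 4 = 2 ∨ A % 4 = 3) :
    Odd (qR A) ∧ ((A % 4 = 3 ∧ qR A % 4 = 1 ∧ A = -(qR A : ℤ)) ∨
      (A % 8 = 6 ∧ qR A % 4 = 1 ∧ A = -2 * (qR A : ℤ)) ∨
      (A % 8 = 2 ∧ qR A % 4 = 3 ∧ A = -2 * (qR A : ℤ))) := by
  rw [Nat.odd_iff]
  unfold qR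
  rcases hA with h | h
  · rw [if_neg (by omega)]
    omega
  · rw [if_pos h]
    omega

/-- the Jacobi symbol modulo the odd part of `A` -/
theorem jac {A : ℤ} (hA0 : A < 0) (hA : A % 4 = 2 ∨ A % 4 = 3) (n : ℕ)
    (hn : n % 2 = 1) (hJ : jacobiSym A n = 1) :
    (InH A n → jacobiSym n (qR A) = 1) ∧ (InH A (-n) → jacobiSym (-n) (qR A) = -1) := by
  obtain ⟨hq, hc⟩ := qR_spec hA0 hA
  have hq2 : qR A % 2 = 1 := Nat.odd_iff.1 hq
  have hno : Odd n := Nat.odd_iff.2 hn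
  have h4 := ZMod.χ₄_nat_eq_if_mod_four n
  have h8 := ZMod.χ₈_nat_eq_if_mod_eight n
  have h4q := ZMod.χ₄_nat_eq_if_mod_four (qR A)
  have hrec := jacobiSym.quadratic_reciprocity_if hq2 hn
  have hneg : jacobiSym (-n) (qR A) = ZMod.χ₄ (qR A) * jacobiSym n (qR A) :=
    jacobiSym.neg _ hq
  have h8n : n % 8 = 1 ∨ n % 8 = 3 ∨ n % 8 = 5 ∨ n % 8 = 7 := by omega
  set J := jacobiSym (n : ℤ) (qR A) with hJd
  unfold InH
  rcases hc with ⟨a1, a2, a3⟩ | ⟨a1, a2, a3⟩ | ⟨a1, a2, a3⟩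
  · have hh : hR A = 5 := by
      unfold hR
      rw [if_pos a1]
    have e1 : jacobiSym A n = ZMod.χ₄ n * jacobiSym (qR A : ℤ) n := by
      conv_lhs => rw [a3]
      exact jacobiSym.neg _ hno
    rw [hJ] at e1
    rw [← hrec] at e1
    rw [hneg, hh]
    rw [h4] at e1
    rw [h4q]
    rcases h8n with h | h | h | h
    · rw [if_neg (by omega), if_pos (by omega), if_neg (by omega)] at e1
      rw [if_neg (by omega), if_pos (by omega)]
      constructor
      · intro _; linarith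
      · intro h1; exfalso; omega
    · rw [if_neg (by omega), if_neg (by omega), if_neg (by omega)] at e1
      rw [if_neg (by omega), if_pos (by omega)]
      constructor
      · intro h1; exfalso; omega
      · intro _; linarith
    · rw [if_neg (by omega), if_pos (by omega), if_neg (by omega)] at e1
      rw [if_neg (by omega), if_pos (by omega)]
      constructor
      · intro _; linarith
      · intro h1; exfalso; omega
    · rw [if_neg (by omega), if_neg (by omega), if_neg (by omega)] at e1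
      rw [if_neg (by omega), if_pos (by omega)]
      constructor
      · intro h1; exfalso; omega
      · intro _; linarith
  · have hh : hR A = 3 := by
      unfold hR
      rw [if_neg (by omega), if_pos a1]
    have e1 : jacobiSym A n = ZMod.χ₄ n * (ZMod.χ₈ n * jacobiSym (qR A : ℤ) n) := by
      conv_lhs => rw [a3, show (-2 * (qR A : ℤ)) = -(2 * (qR A : ℤ)) by ring]
      rw [jacobiSym.neg _ hno, jacobiSym.mul_left, jacobiSym.at_two hno]
    rw [hJ] at e1
    rw [← hrec] at e1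
    rw [hneg, hh]
    rw [h4, h8] at e1
    rw [h4q]
    rcases h8n with h | h | h | h
    · rw [if_neg (by omega), if_pos (by omega), if_neg (by omega), if_pos (by omega),
        if_neg (by omega)] at e1
      rw [if_neg (by omega), if_pos (by omega)]
      constructor
      · intro _; linarith
      · intro h1; exfalso; omega
    · rw [if_neg (by omega), if_neg (by omega), if_neg (by omega), if_neg (by omega),
        if_neg (by omega)] at e1
      rw [if_neg (by omega), if_pos (by omega)]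
      constructor
      · intro _; linarith
      · intro h1; exfalso; omega
    · rw [if_neg (by omega), if_pos (by omega), if_neg (by omega), if_neg (by omega),
        if_neg (by omega)] at e1
      rw [if_neg (by omega), if_pos (by omega)]
      constructor
      · intro h1; exfalso; omega
      · intro _; linarith
    · rw [if_neg (by omega), if_neg (by omega), if_neg (by omega), if_pos (by omega),
        if_neg (by omega)] at e1
      rw [if_neg (by omega), if_pos (by omega)]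
      constructor
      · intro h1; exfalso; omega
      · intro _; linarith
  · have hh : hR A = 7 := by
      unfold hR
      rw [if_neg (by omega), if_neg (by omega)]
    have e1 : jacobiSym A n = ZMod.χ₄ n * (ZMod.χ₈ n * jacobiSym (qR A : ℤ) n) := by
      conv_lhs => rw [a3, show (-2 * (qR A : ℤ)) = -(2 * (qR A : ℤ)) by ring]
      rw [jacobiSym.neg _ hno, jacobiSym.mul_left, jacobiSym.at_two hno]
    rw [hJ] at e1
    rw [← hrec] at e1
    rw [hneg, hh]
    rw [h4, h8] at e1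
    rw [h4q]
    rcases h8n with h | h | h | h
    · rw [if_neg (by omega), if_pos (by omega), if_neg (by omega), if_pos (by omega),
        if_neg (by omega)] at e1
      rw [if_neg (by omega), if_neg (by omega)]
      constructor
      · intro _; linarith
      · intro _; linarith
    · rw [if_neg (by omega), if_neg (by omega), if_neg (by omega), if_neg (by omega),
        if_pos (by omega)] at e1
      rw [if_neg (by omega), if_neg (by omega)]
      constructor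
      · intro h1; exfalso; omega
      · intro h1; exfalso; omega
    · rw [if_neg (by omega), if_pos (by omega), if_neg (by omega), if_neg (by omega),
        if_neg (by omega)] at e1
      rw [if_neg (by omega), if_neg (by omega)]
      constructor
      · intro h1; exfalso; omega
      · intro h1; exfalso; omega
    · rw [if_neg (by omega), if_neg (by omega), if_neg (by omega), if_pos (by omega),
        if_pos (by omega)] at e1
      rw [if_neg (by omega), if_neg (by omega)]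
      constructor
      · intro _; linarith
      · intro _; linarith

end Pool.Agent.N2U


end

section

/-!
# N2, 2 ramified, block H (helper41): the exponents, and the projector of odd modulus
-/

set_option autoImplicit false

namespace Pool.Agent.N2U

open _root_.MU3 _root_.Pool.Agent.MU3A _root_.Pool.Agent.MU3B _root_.Pool.Agent.MU3F _root_.Pool.Agent.MUX _root_.Pool.Agent.MUXH
  _root_.Pool.Agent.MUXHY _root_.Pool.Agent.MuSym _root_.Pool.Agent.N2 OnePoint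
open scoped ComplexConjugate

noncomputable section

/-- the exponents which occur in theta -/
theorem exp_facts {A : ℤ} (hcq : CQ A 0) (hA : A % 4 = 2 ∨ A % 4 = 3) {f : ℕ}
    (hqf : qR A ∣ f) {e : OO A 0 → ℂ} (he : IsEI (idl (A := A) (B := 0) (2 * f)) e)
    {b : Ideal (OO A 0)} (hb : b ≠ ⊥) {x : OO A 0} (hx : x ∈ b) (hx0 : e x ≠ 0) :
    InH A (nm x) ∧ 0 < MUXF.qb b x ∧ MUXF.qb b x % 2 = 1 ∧
      nm x = (nI b : ℤ) * MUXF.qb b x ∧ jacobiSym A (MUXF.qb b x).toNat = 1 := by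
  have hA0 : A < 0 := by
    have := hcq.neg
    omega
  obtain ⟨h1, h2⟩ := (MUXF.xf_QB A 0 (toCQ hcq) b hb).1 x hx
  have h5 := (he.supp _).1 hx0
  -- the norm is odd
  have hcop2 : IsCoprime x ((2 : ℕ) : OO A 0) := by
    rw [← Ideal.isCoprime_span_singleton_iff]
    rw [Ideal.isCoprime_iff_sup_eq] at h5 ⊢
    refine top_le_iff.1 (h5 ▸ sup_le_sup_left ?_ _)
    rw [Ideal.span_singleton_le_span_singleton]
    exact ⟨((f : ℕ) : OO A 0), by push_cast; ring⟩
  have hcopq : IsCoprime x ((qR A : ℕ) : OO A 0) := by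
    rw [← Ideal.isCoprime_span_singleton_iff]
    rw [Ideal.isCoprime_iff_sup_eq] at h5 ⊢
    refine top_le_iff.1 (h5 ▸ sup_le_sup_left ?_ _)
    rw [Ideal.span_singleton_le_span_singleton]
    obtain ⟨t, ht⟩ := hqf
    exact ⟨((2 * t : ℕ) : OO A 0), by rw [ht]; push_cast; ring⟩
  have hcopD : IsCoprime x ((absD A 0 : ℤ) : OO A 0) := by
    have h6 : IsCoprime x (((8 * qR A : ℕ) : OO A 0)) := by
      have h7 : ((8 * qR A : ℕ) : OO A 0) = ((2 : ℕ) : OO A 0) ^ 3 * ((qR A : ℕ) : OO A 0) := by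
        push_cast
        ring
      rw [h7]
      exact (hcop2.pow_right).mul_right hcopq
    have h7 : (absD A 0 : ℤ) ∣ ((8 * qR A : ℕ) : ℤ) := by
      obtain ⟨-, h8⟩ := qR_spec hA0 hA
      rcases h8 with ⟨-, -, h8⟩ | ⟨-, -, h8⟩ | ⟨-, -, h8⟩
      · exact ⟨2, by unfold absD; push_cast; linarith⟩
      · exact ⟨1, by unfold absD; push_cast; linarith⟩
      · exact ⟨1, by unfold absD; push_cast; linarith⟩
    obtain ⟨t, ht⟩ := h7
    have h8 : ((8 * qR A : ℕ) : OO A 0) = ((absD A 0 : ℤ) : OO A 0) * ((t : ℤ) : OO A 0) := by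
      have h9 : ((8 * qR A : ℕ) : OO A 0) = (((8 * qR A : ℕ) : ℤ) : OO A 0) := by
        push_cast
        rfl
      rw [h9, ht]
      push_cast
      rfl
    rw [h8] at h6
    exact h6.of_mul_right_left
  have hodd : nm x % 2 = 1 := by
    obtain ⟨s, t, hst⟩ := hcop2
    have e1 := congrArg QuadraticAlgebra.re hst
    have e2 := congrArg QuadraticAlgebra.im hst
    rw [QuadraticAlgebra.re_add, QuadraticAlgebra.re_mul, QuadraticAlgebra.re_mul,
      QuadraticAlgebra.re_natCast, QuadraticAlgebra.im_natCast, QuadraticAlgebra.re_one] at e1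
    rw [QuadraticAlgebra.im_add, QuadraticAlgebra.im_mul, QuadraticAlgebra.im_mul,
      QuadraticAlgebra.re_natCast, QuadraticAlgebra.im_natCast, QuadraticAlgebra.im_one] at e2
    by_contra hne
    have h0 : nm x % 2 = 0 := by omega
    have hnm : nm x = x.re ^ 2 - A * x.im ^ 2 := by unfold nm; ring
    -- `nm s nm x = 1` modulo 2
    have h9 : (s.re ^ 2 - A * s.im ^ 2) * (x.re ^ 2 - A * x.im ^ 2) =
        (s.re * x.re + A * s.im * x.im) ^ 2 - A * (s.re * x.im + s.im * x.re) ^ 2 := by ring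
    have e3 : s.re * x.re + A * s.im * x.im = 1 - 2 * t.re := by
      push_cast at e1
      linarith
    have e4 : s.re * x.im + s.im * x.re = -(2 * t.im) := by
      push_cast at e2
      linarith
    rw [e3, e4, ← hnm] at h9
    obtain ⟨m, hm⟩ : ∃ m, nm x = 2 * m := ⟨nm x / 2, by omega⟩
    rw [hm] at h9
    have h10 : 2 * ((s.re ^ 2 - A * s.im ^ 2) * m - (2 * t.re ^ 2 - 2 * t.re -
        2 * A * t.im ^ 2)) = 1 := by linear_combination h9
    omega
  have hqb1 : MUXF.qb b x % 2 = 1 := by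
    by_contra hne
    have h0 : MUXF.qb b x % 2 = 0 := by omega
    obtain ⟨m, hm⟩ : ∃ m, MUXF.qb b x = 2 * m := ⟨MUXF.qb b x / 2, by omega⟩
    have h9 : nm x = 2 * ((MUXF.nI b : ℤ) * m) := by rw [h1, hm]; ring
    omega
  obtain ⟨h6, h7⟩ := MUXF.xf_REC A 0 (toCQ hcq) b hb x hx hcopD
  have hpos : 0 < MUXF.qb b x := by omega
  refine ⟨nm_inH hA x hodd, hpos, hqb1, h1, ?_⟩
  have h8 : MUXF.chiQ A 0 (MUXF.qb b x) =
      jacobiSym A (MUXF.qb b x).natAbs * (MUXF.qb b x).sign := by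
    unfold MUXF.chiQ
    rw [if_neg (by norm_num)]
  rw [h7, Int.sign_eq_one_of_pos hpos, mul_one] at h8
  have h9 : (MUXF.qb b x).natAbs = (MUXF.qb b x).toNat := by omega
  rw [← h9]
  exact h8.symm

open _root_.Pool.Agent.MUXF.PRJ in
/-- the projector on the part of the symbol with exponents in the support of `φ` -/
theorem prj_pos {A B : ℤ} (hcq : CQ A B) {b g : Ideal (OO A B)} (hb : b ≠ ⊥) (hg : g ≠ ⊥)
    {e : OO A B → ℂ} (he : IsEI g e) {q : ℕ} (hq : q ≠ 0) {φ : ℤ → ℂ}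
    (hφ : ∀ n, φ (n + q) = φ n)
    (hv : ∀ x ∈ b, e x ≠ 0 → φ (MUXF.qb b x) = 1) (x y : OnePoint ℚ) :
    ∑ a ∈ Finset.range q, cf q φ a * PhiI b e (mob q a 0 q x) (mob q a 0 q y) =
      PhiI b e x y := by
  obtain ⟨-, C, -, hC⟩ := MUXF.xf_BDD A B (toCQ hcq) g e hg (toEI he)
  have a1 : ∀ r : ℚ, ∑ a ∈ Finset.range q, cf q φ a * MUXF.IvI b e (r + (1 : ℤ) * (a / q)) =
      1 * MUXF.IvI b e r :=
    twistI MUXF.xf_QB MUXF.xf_ALG MUXF.xf_TSM MUXF.xf_ITG (toCQ hcq) hb hg (toEI he) hC hq hφ 1 1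
      (by
        intro x hx hx0
        rw [one_mul]
        exact hv x hx hx0)
  have b1 : ∀ x : OnePoint ℚ, ∑ a ∈ Finset.range q, cf q φ a * MUXF.IcI b e (mob q a 0 q x) =
      MUXF.IcI b e x := by
    intro x
    induction x using OnePoint.rec with
    | infty =>
      have e1 : ∀ a : ℤ, MUXF.IcI b e (mob q a 0 q ∞) = 0 := by
        intro a
        rw [mob2 _ _ _ _ rfl]
        rfl
      have e2 : MUXF.IcI b e ∞ = 0 := rfl
      simp only [e1, e2, mul_zero, Finset.sum_const_zero]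
    | coe r =>
      have e1 := a1 r
      have e2 : MUXF.IcI b e ((r : ℚ) : OnePoint ℚ) = MUXF.IvI b e r := rfl
      rw [e2, ← one_mul (MUXF.IvI b e r), ← e1]
      refine Finset.sum_congr rfl fun a _ => ?_
      rw [mob1 hq]
      have e3 : MUXF.IcI b e ((r + ((a : ℤ) : ℚ) / (q : ℚ) : ℚ) : OnePoint ℚ) =
        MUXF.IvI b e (r + ((a : ℤ) : ℚ) / (q : ℚ)) := rfl
      rw [e3]
      congr 2
      push_cast
      ring
  show ∑ a ∈ Finset.range q, cf q φ a * MUXF.PhiI b e (mob q a 0 q x) (mob q a 0 q y) =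
      MUXF.PhiI b e x y
  have e1 : ∀ a ∈ Finset.range q, cf q φ a * MUXF.PhiI b e (mob q a 0 q x) (mob q a 0 q y) =
      cf q φ a * MUXF.IcI b e (mob q a 0 q x) - cf q φ a * MUXF.IcI b e (mob q a 0 q y) := by
    intro a _
    unfold MUXF.PhiI
    ring
  rw [Finset.sum_congr rfl e1, Finset.sum_sub_distrib, b1, b1]
  rfl

open _root_.Pool.Agent.MUXF.PRJ in
/-- the projector on the part of the symbol with exponents not in the support of `φ` -/
theorem prj_neg {A B : ℤ} (hcq : CQ A B) {b g : Ideal (OO A B)} (hb : b ≠ ⊥) (hg : g ≠ ⊥)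
    {e : OO A B → ℂ} (he : IsEI g e) {q : ℕ} (hq : q ≠ 0) {φ : ℤ → ℂ}
    (hφ : ∀ n, φ (n + q) = φ n)
    (hv : ∀ x ∈ b, e x ≠ 0 → φ (-MUXF.qb b x) = 0) (x y : OnePoint ℚ) :
    ∑ a ∈ Finset.range q, cf q φ a * PhiI b e (mob (-1) 0 0 1 (mob q a 0 q x))
      (mob (-1) 0 0 1 (mob q a 0 q y)) = 0 := by
  obtain ⟨-, C, -, hC⟩ := MUXF.xf_BDD A B (toCQ hcq) g e hg (toEI he)
  have a2 : ∀ r : ℚ, ∑ a ∈ Finset.range q, cf q φ a * MUXF.IvI b e (r + (-1 : ℤ) * (a / q)) =
      0 * MUXF.IvI b e r :=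
    twistI MUXF.xf_QB MUXF.xf_ALG MUXF.xf_TSM MUXF.xf_ITG (toCQ hcq) hb hg (toEI he) hC hq hφ
      (-1) 0 (by
        intro x hx hx0
        rw [neg_one_mul]
        exact hv x hx hx0)
  have b2 : ∀ x : OnePoint ℚ, ∑ a ∈ Finset.range q,
      cf q φ a * MUXF.IcI b e (mob (-1) 0 0 1 (mob q a 0 q x)) = 0 := by
    intro x
    induction x using OnePoint.rec with
    | infty =>
      have e1 : ∀ a : ℤ, MUXF.IcI b e (mob (-1) 0 0 1 (mob q a 0 q ∞)) = 0 := by
        intro a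
        rw [mob2 _ _ _ _ rfl, mob2 _ _ _ _ rfl]
        rfl
      simp only [e1, mul_zero, Finset.sum_const_zero]
    | coe r =>
      have e1 := a2 (-r)
      rw [zero_mul] at e1
      rw [← e1]
      refine Finset.sum_congr rfl fun a _ => ?_
      rw [mob1 hq, mob3]
      have e3 : MUXF.IcI b e ((-(r + ((a : ℤ) : ℚ) / (q : ℚ)) : ℚ) : OnePoint ℚ) =
        MUXF.IvI b e (-(r + ((a : ℤ) : ℚ) / (q : ℚ))) := rfl
      rw [e3]
      congr 2
      push_cast
      ring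
  show ∑ a ∈ Finset.range q, cf q φ a * MUXF.PhiI b e (mob (-1) 0 0 1 (mob q a 0 q x))
      (mob (-1) 0 0 1 (mob q a 0 q y)) = 0
  have e1 : ∀ a ∈ Finset.range q, cf q φ a * MUXF.PhiI b e (mob (-1) 0 0 1 (mob q a 0 q x))
      (mob (-1) 0 0 1 (mob q a 0 q y)) =
      cf q φ a * MUXF.IcI b e (mob (-1) 0 0 1 (mob q a 0 q x)) -
        cf q φ a * MUXF.IcI b e (mob (-1) 0 0 1 (mob q a 0 q y)) := by
    intro a _
    unfold MUXF.PhiI
    ring
  rw [Finset.sum_congr rfl e1, Finset.sum_sub_distrib, b2, b2, sub_zero]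

end

end Pool.Agent.N2U


end

section

/-!
# N2, 2 ramified, block H (helper41): linear relations between translates of the symbols
-/

set_option autoImplicit false

namespace Pool.Agent.N2U

open _root_.MU3 _root_.Pool.Agent.MU3A _root_.Pool.Agent.MU3B _root_.Pool.Agent.MU3F _root_.Pool.Agent.MUX _root_.Pool.Agent.MUXH
  _root_.Pool.Agent.MUXHY _root_.Pool.Agent.MuSym _root_.Pool.Agent.N2 OnePoint
open scoped ComplexConjugate

noncomputable section

variable {A B : ℤ}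

/-- linear relations between the translates of theta -/
theorem theta_rel (hcq : CQ A B) {g : Ideal (OO A B)} (hg : g ≠ ⊥) {e : OO A B → ℂ}
    (he : IsEI g e) {b : Ideal (OO A B)} (hb : b ≠ ⊥) (J : Finset ℕ) (c : ℕ → ℂ) (r : ℕ → ℚ)
    (h : ∀ x ∈ b, e x ≠ 0 → ∑ j ∈ J, c j * ex (r j * (MUXF.qb b x : ℤ)) = 0) (z : ℂ)
    (hz : 0 < z.im) : ∑ j ∈ J, c j * thetaI b e (z + (r j : ℂ)) = 0 := by
  have hcq' := toCQ hcq
  obtain ⟨-, C, hC0, hC⟩ := MUXF.xf_BDD A B hcq' _ e hg (toEI he)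
  have him : ∀ j : ℕ, 0 < (z + (r j : ℂ)).im := by
    intro j
    have : ((r j : ℚ) : ℂ).im = 0 := by
      rw [← Complex.ofReal_ratCast]
      exact Complex.ofReal_im _
    rw [Complex.add_im, this, add_zero]
    exact hz
  have hsum : ∀ j : ℕ, Summable (fun x : b => c j * (e x * (starRingEnd ℂ) (emb (x : OO A B)) *
      Complex.exp (2 * Real.pi * Complex.I * ((nm (x : OO A B) : ℂ) / nI b) *
        (z + (r j : ℂ))))) :=
    fun j : ℕ => (MUXF.xf_TSM A B hcq' b hb e C hC (z + (r j : ℂ)) (him j)).mul_left (c j)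
  have e1 : ∑ j ∈ J, c j * thetaI b e (z + (r j : ℂ)) =
      (1 / 2) * ∑ j ∈ J, ∑' x : b, c j * (e x * (starRingEnd ℂ) (emb (x : OO A B)) *
        Complex.exp (2 * Real.pi * Complex.I * ((nm (x : OO A B) : ℂ) / nI b) *
          (z + (r j : ℂ)))) := by
    rw [Finset.mul_sum]
    refine Finset.sum_congr rfl fun j _ => ?_
    rw [tsum_mul_left]
    unfold thetaI
    ring
  rw [e1, ← Summable.tsum_finsetSum (fun j _ => hsum j)]
  have e2 : ∀ x : b, ∑ j ∈ J, c j * (e x * (starRingEnd ℂ) (emb (x : OO A B)) *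
      Complex.exp (2 * Real.pi * Complex.I * ((nm (x : OO A B) : ℂ) / nI b) *
        (z + (r j : ℂ)))) = 0 := by
    intro x
    by_cases h0 : e x = 0
    · rw [h0]
      simp
    · obtain ⟨h1, h2⟩ := (MUXF.xf_QB A B hcq' b hb).1 x x.2
      have hnI : ((nI b : ℕ) : ℂ) ≠ 0 := by
        have := (MUXF.xf_IDL A B hcq' b hb).1
        exact_mod_cast this
      have h4 : ((nm (x : OO A B) : ℤ) : ℂ) / ((nI b : ℕ) : ℂ) =
          ((MUXF.qb b (x : OO A B) : ℤ) : ℂ) := by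
        have h5 : nm (x : OO A B) = (nI b : ℤ) * MUXF.qb b (x : OO A B) := h1
        rw [h5]
        push_cast
        field_simp
      have e3 : ∀ j ∈ J, c j * (e x * (starRingEnd ℂ) (emb (x : OO A B)) *
          Complex.exp (2 * Real.pi * Complex.I * ((nm (x : OO A B) : ℂ) / nI b) *
          (z + (r j : ℂ)))) = e x * (starRingEnd ℂ) (emb (x : OO A B)) *
          Complex.exp (2 * Real.pi * Complex.I * ((MUXF.qb b (x : OO A B) : ℤ) : ℂ) * z) *
            (c j * ex (r j * (MUXF.qb b (x : OO A B) : ℤ))) := by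
        intro j _
        rw [h4]
        have e4 : Complex.exp (2 * Real.pi * Complex.I * ((MUXF.qb b (x : OO A B) : ℤ) : ℂ) *
            (z + (r j : ℂ))) =
            Complex.exp (2 * Real.pi * Complex.I * ((MUXF.qb b (x : OO A B) : ℤ) : ℂ) * z) *
            ex (r j * (MUXF.qb b (x : OO A B) : ℤ)) := by
          unfold ex
          rw [← Complex.exp_add]
          congr 1
          push_cast
          ring
        rw [e4]
        ring
      rw [Finset.sum_congr rfl e3, ← Finset.mul_sum, h x x.2 h0, mul_zero]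
  rw [tsum_congr e2, tsum_zero, mul_zero]

/-- linear relations between the translates of a symbol -/
theorem phi_rel (hcq : CQ A B) {g : Ideal (OO A B)} (hg : g ≠ ⊥) {e : OO A B → ℂ}
    (he : IsEI g e) {b : Ideal (OO A B)} (hb : b ≠ ⊥) (J : Finset ℕ) (c : ℕ → ℂ) (r : ℕ → ℚ)
    (h : ∀ x ∈ b, e x ≠ 0 → ∑ j ∈ J, c j * ex (r j * (MUXF.qb b x : ℤ)) = 0) (x : ℚ) :
    ∑ j ∈ J, c j * PhiI b e ∞ ((x + r j : ℚ) : OnePoint ℚ) = 0 := by
  have hcq' := toCQ hcq
  have hI := fun r : ℚ => MUXF.xf_ITG A B hcq' b _ e hb hg (toEI he) r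
  have e1 : ∀ j ∈ J, c j * PhiI b e ∞ ((x + r j : ℚ) : OnePoint ℚ) =
      2 * Real.pi * ∫ t in Set.Ioi (0 : ℝ), c j * thetaI b e (((x : ℚ) : ℂ) + t * Complex.I +
        (r j : ℂ)) := by
    intro j _
    rw [Qsx.PhiI_inf, MeasureTheory.integral_const_mul]
    unfold IvI
    have e2 : ∫ t in Set.Ioi (0 : ℝ), thetaI b e (((x + r j : ℚ) : ℂ) + t * Complex.I) =
        ∫ t in Set.Ioi (0 : ℝ), thetaI b e (((x : ℚ) : ℂ) + t * Complex.I + (r j : ℂ)) := by
      refine MeasureTheory.integral_congr_ae (Filter.Eventually.of_forall fun t => ?_)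
      show thetaI b e _ = thetaI b e _
      congr 1
      push_cast
      ring
    rw [e2]
    ring
  rw [Finset.sum_congr rfl e1, ← Finset.mul_sum, ← MeasureTheory.integral_finsetSum]
  · have e2 : ∫ t in Set.Ioi (0 : ℝ), ∑ j ∈ J,
        c j * thetaI b e (((x : ℚ) : ℂ) + t * Complex.I + (r j : ℂ)) = 0 := by
      rw [MeasureTheory.setIntegral_congr_fun (g := fun _ => (0 : ℂ)) measurableSet_Ioi]
      · simp
      · intro t ht
        refine theta_rel hcq hg he hb J c r h _ ?_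
        have h1 : (((x : ℚ) : ℂ)).im = 0 := by
          rw [← Complex.ofReal_ratCast]
          exact Complex.ofReal_im _
        rw [Complex.add_im, h1, zero_add, Complex.mul_im]
        simpa using ht
    rw [e2, mul_zero]
  · intro j _
    have h1 : MeasureTheory.IntegrableOn (fun t : ℝ => c j *
        thetaI b e (((x + r j : ℚ) : ℂ) + t * Complex.I)) (Set.Ioi 0) :=
      (hI (x + r j)).const_mul (c j)
    refine h1.congr_fun ?_ measurableSet_Ioi
    intro t _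
    show c j * thetaI b e _ = c j * thetaI b e _
    congr 2
    push_cast
    ring

end

end Pool.Agent.N2U


end

section

/-!
# N2, 2 ramified, block H (helper41): the symbol with exponents in `{1, h}` modulo 8
-/

set_option autoImplicit false

namespace Pool.Agent.N2U

open _root_.MU3 _root_.Pool.Agent.MU3A _root_.Pool.Agent.MU3B _root_.Pool.Agent.MU3F _root_.Pool.Agent.MUX _root_.Pool.Agent.MUXH
  _root_.Pool.Agent.MUXHY _root_.Pool.Agent.MuSym _root_.Pool.Agent.N2 OnePoint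
open scoped ComplexConjugate

noncomputable section

/-- the two parts of the symbol: `Σ kP_i Φ_i(x, y) + Σ kM_i Φ_i(-x, -y)` -/
def PhiU {A B : ℤ} {n : ℕ} {ι : Type} [Fintype ι] (R : Reps A B n ι) (e : OO A B → ℂ)
    (kP kM : ι → ℂ) (x y : OnePoint ℚ) : ℂ :=
  PhiK R e kP x y + PhiK R e kM (mob (-1) 0 0 1 x) (mob (-1) 0 0 1 y)

theorem isSym_neg {N : ℕ} {nu : ℤ → ℂ} {P : OnePoint ℚ → OnePoint ℚ → ℂ}
    (hP : IsSym N nu P) : IsSym N nu (fun x y => P (mob (-1) 0 0 1 x) (mob (-1) 0 0 1 y)) := by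
  refine ⟨fun x y z => hP.add _ _ _, ?_⟩
  intro a b c d hdet hc x y
  beta_reduce
  rw [Hk.mob_conj, Hk.mob_conj, hP.equiv a (-b) (-c) d (by linarith) ((dvd_neg).2 hc)]

theorem isSym_add {N : ℕ} {nu : ℤ → ℂ} {P Q : OnePoint ℚ → OnePoint ℚ → ℂ}
    (hP : IsSym N nu P) (hQ : IsSym N nu Q) : IsSym N nu (fun x y => P x y + Q x y) := by
  refine ⟨fun x y z => ?_, ?_⟩
  · beta_reduce
    rw [← hP.add x y z, ← hQ.add x y z]
    ring
  · intro a b c d hdet hc x y
    beta_reduce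
    rw [hP.equiv a b c d hdet hc, hQ.equiv a b c d hdet hc]
    ring

theorem ex_add' (r t : ℚ) : ex (r + t) = ex r * ex t := by
  unfold ex
  rw [← Complex.exp_add]
  congr 1
  push_cast
  ring

theorem ex_int' (k : ℤ) : ex (k : ℚ) = 1 := by
  unfold ex
  rw [Complex.exp_eq_one_iff]
  exact ⟨k, by push_cast; ring⟩

theorem ex_pow' (r : ℚ) (b : ℕ) : ex r ^ b = ex (b * r) := by
  induction b with
  | zero =>
    rw [pow_zero]
    have := ex_int' 0
    simpa using this.symm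
  | succ b ih =>
    rw [pow_succ, ih, ← ex_add']
    congr 1
    push_cast
    ring

/-- `ex (n / 8)` depends on `n` modulo 8 -/
theorem ex8 (n m : ℤ) (h : n % 8 = m % 8) : ex ((n : ℚ) / 8) = ex ((m : ℚ) / 8) := by
  obtain ⟨k, hk⟩ : ∃ k, n = m + 8 * k := ⟨(n - m) / 8, by omega⟩
  rw [hk]
  have h1 : (((m + 8 * k : ℤ) : ℚ) / 8) = (m : ℚ) / 8 + ((k : ℤ) : ℚ) := by
    push_cast
    ring
  rw [h1, ex_add', ex_int', mul_one]

theorem om8_prim : IsPrimitiveRoot (ex (1 / 8)) 8 := by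
  have h := Complex.isPrimitiveRoot_exp 8 (by norm_num)
  have e1 : ex (1 / 8) = Complex.exp (2 * Real.pi * Complex.I / (8 : ℕ)) := by
    unfold ex
    congr 1
    push_cast
    ring
  rw [e1]
  exact h

/-- the quadratic relation for one exponent -/
theorem quad {A n : ℤ} (h : InH A n) : ex ((1 / 4) * n) -
    (ex (1 / 8) + ex (1 / 8) ^ hR A) * ex ((1 / 8) * n) + ex (1 / 8) ^ (1 + hR A) = 0 := by
  have e1 : ex ((1 / 4) * (n : ℚ)) = ex ((n : ℚ) / 8) ^ 2 := by
    rw [ex_pow']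
    congr 1
    push_cast
    ring
  have e2 : ex ((1 / 8) * (n : ℚ)) = ex ((n : ℚ) / 8) := by
    congr 1
    ring
  have e3 : ex ((n : ℚ) / 8) = ex (1 / 8) ∨ ex ((n : ℚ) / 8) = ex (1 / 8) ^ hR A := by
    rcases h with h | h
    · left
      rw [ex8 n 1 (by omega)]
      norm_num
    · right
      rw [ex_pow', ex8 n (hR A) (by
        have h5 : hR A < 8 := by
          unfold hR
          split_ifs <;> norm_num
        omega)]
      congr 1
      push_cast
      ring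
  rw [e1, e2, pow_add, pow_one]
  rcases e3 with e3 | e3 <;> rw [e3] <;> ring

/-- the relation for a symbol with exponents in `H` (`s = 1`) or in `-H` (`s = -1`) -/
theorem rel_one {A : ℤ} (hcq : CQ A 0) {g : Ideal (OO A 0)} (hg : g ≠ ⊥) {e : OO A 0 → ℂ}
    (he : IsEI g e) {b : Ideal (OO A 0)} (hb : b ≠ ⊥) (s : ℤ)
    (h : ∀ x ∈ b, e x ≠ 0 → InH A (s * MUXF.qb b x)) (x : ℚ) :
    PhiI b e ∞ ((x + s * (1 / 4) : ℚ) : OnePoint ℚ) -
      (ex (1 / 8) + ex (1 / 8) ^ hR A) * PhiI b e ∞ ((x + s * (1 / 8) : ℚ) : OnePoint ℚ) +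
      ex (1 / 8) ^ (1 + hR A) * PhiI b e ∞ (x : OnePoint ℚ) = 0 := by
  have h1 := phi_rel hcq hg he hb (Finset.range 3)
    (fun j => if j = 0 then 1 else if j = 1 then -(ex (1 / 8) + ex (1 / 8) ^ hR A) else
      ex (1 / 8) ^ (1 + hR A))
    (fun j => if j = 0 then s * (1 / 4) else if j = 1 then s * (1 / 8) else 0) (by
      intro y hy hy0
      have h2 := quad (h y hy hy0)
      rw [Finset.sum_range_succ, Finset.sum_range_succ, Finset.sum_range_succ,
        Finset.sum_range_zero]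
      norm_num
      have h3 : ex 0 = 1 := by
        have := ex_int' 0
        simpa using this
      rw [h3]
      have e1 : ((s : ℚ) * (1 / 4) * ((MUXF.qb b y : ℤ) : ℚ)) =
          (1 / 4) * (((s * MUXF.qb b y : ℤ)) : ℚ) := by push_cast; ring
      have e2 : ((s : ℚ) * (1 / 8) * ((MUXF.qb b y : ℤ) : ℚ)) =
          (1 / 8) * (((s * MUXF.qb b y : ℤ)) : ℚ) := by push_cast; ring
      rw [e1, e2]
      linear_combination h2) x
  rw [Finset.sum_range_succ, Finset.sum_range_succ, Finset.sum_range_succ,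
    Finset.sum_range_zero] at h1
  norm_num at h1
  norm_num
  linear_combination h1

theorem mob_inf' : mob (-1) 0 0 1 ∞ = ∞ := by
  show (if (0 : ℤ) = 0 then (∞ : OnePoint ℚ) else ((((-1 : ℤ) : ℚ) / (0 : ℤ) : ℚ) : OnePoint ℚ)) = ∞
  rw [if_pos rfl]

/-- the relation for the whole symbol -/
theorem relU {A : ℤ} (hcq : CQ A 0) {g : Ideal (OO A 0)} (hg : g ≠ ⊥) {e : OO A 0 → ℂ}
    (he : IsEI g e) {n : ℕ} {ι : Type} [Fintype ι] (R : Reps A 0 n ι) (kP kM : ι → ℂ)
    (hP : ∀ i, kP i ≠ 0 → ∀ x ∈ R.b i, e x ≠ 0 → InH A (MUXF.qb (R.b i) x))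
    (hM : ∀ i, kM i ≠ 0 → ∀ x ∈ R.b i, e x ≠ 0 → InH A (-MUXF.qb (R.b i) x)) (x : ℚ) :
    PhiU R e kP kM ∞ ((x + 1 / 4 : ℚ) : OnePoint ℚ) -
      (ex (1 / 8) + ex (1 / 8) ^ hR A) * PhiU R e kP kM ∞ ((x + 1 / 8 : ℚ) : OnePoint ℚ) +
      ex (1 / 8) ^ (1 + hR A) * PhiU R e kP kM ∞ (x : OnePoint ℚ) = 0 := by
  have h1 : PhiK R e kP ∞ ((x + 1 / 4 : ℚ) : OnePoint ℚ) -
      (ex (1 / 8) + ex (1 / 8) ^ hR A) * PhiK R e kP ∞ ((x + 1 / 8 : ℚ) : OnePoint ℚ) +
      ex (1 / 8) ^ (1 + hR A) * PhiK R e kP ∞ (x : OnePoint ℚ) = 0 := by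
    unfold PhiK
    rw [Finset.mul_sum, Finset.mul_sum, ← Finset.sum_sub_distrib, ← Finset.sum_add_distrib]
    refine Finset.sum_eq_zero fun i _ => ?_
    by_cases h0 : kP i = 0
    · rw [h0]
      ring
    · have h2 := rel_one hcq hg he (R.nl i).b_ne 1 (by
        intro y hy hy0
        rw [one_mul]
        exact hP i h0 y hy hy0) x
      have e1 : (x + ((1 : ℤ) : ℚ) * (1 / 4) : ℚ) = x + 1 / 4 := by norm_num
      have e2 : (x + ((1 : ℤ) : ℚ) * (1 / 8) : ℚ) = x + 1 / 8 := by norm_num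
      rw [e1, e2] at h2
      linear_combination kP i * h2
  have h2 : PhiK R e kM ∞ ((-(x + 1 / 4) : ℚ) : OnePoint ℚ) -
      (ex (1 / 8) + ex (1 / 8) ^ hR A) * PhiK R e kM ∞ ((-(x + 1 / 8) : ℚ) : OnePoint ℚ) +
      ex (1 / 8) ^ (1 + hR A) * PhiK R e kM ∞ ((-x : ℚ) : OnePoint ℚ) = 0 := by
    unfold PhiK
    rw [Finset.mul_sum, Finset.mul_sum, ← Finset.sum_sub_distrib, ← Finset.sum_add_distrib]
    refine Finset.sum_eq_zero fun i _ => ?_
    by_cases h0 : kM i = 0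
    · rw [h0]
      ring
    · have h2 := rel_one hcq hg he (R.nl i).b_ne (-1) (by
        intro y hy hy0
        rw [neg_one_mul]
        exact hM i h0 y hy hy0) (-x)
      have e1 : (-x + ((-1 : ℤ) : ℚ) * (1 / 4) : ℚ) = -(x + 1 / 4) := by push_cast; ring
      have e2 : (-x + ((-1 : ℤ) : ℚ) * (1 / 8) : ℚ) = -(x + 1 / 8) := by push_cast; ring
      rw [e1, e2] at h2
      linear_combination kM i * h2
  unfold PhiU
  rw [mob_inf', Pool.Agent.MU3H.Qs.mob_neg, Pool.Agent.MU3H.Qs.mob_neg,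
    Pool.Agent.MU3H.Qs.mob_neg]
  linear_combination h1 + h2

/-- classes of norms which occur -/
theorem inH_nI {A : ℤ} (hcq : CQ A 0) (hA : A % 4 = 2 ∨ A % 4 = 3) {f : ℕ} (hqf : qR A ∣ f)
    {e : OO A 0 → ℂ} (he : IsEI (idl (A := A) (B := 0) (2 * f)) e) {b : Ideal (OO A 0)}
    (hb : b ≠ ⊥) (s : ℤ) (hs : InH A (s * nI b)) {x : OO A 0} (hx : x ∈ b) (hx0 : e x ≠ 0) :
    InH A (s * MUXF.qb b x) ∨ ¬ (s = 1 ∨ s = -1) := by
  by_cases h1 : s = 1 ∨ s = -1
  · left
    obtain ⟨h2, -, -, h3, -⟩ := exp_facts hcq hA hqf he hb hx hx0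
    have h4 : s * s = 1 := by rcases h1 with rfl | rfl <;> norm_num
    have h5 : InH A ((s * nI b) * (s * MUXF.qb b x)) := by
      have h6 : (s * nI b) * (s * MUXF.qb b x) = nm x := by
        rw [h3]
        linear_combination ((nI b : ℤ) * MUXF.qb b x) * h4
      rw [h6]
      exact h2
    exact (inH_mul hA hs).1 h5
  · exact Or.inr h1

/-- the projector -/
theorem prjU (V : ValuationSubring ℂ) {A : ℤ} (hcq : CQ A 0) (hA : A % 4 = 2 ∨ A % 4 = 3)
    (hr : ∀ (r : ℕ) (z : ℂ), r ≠ 0 → z ^ r = 1 → V.valuation z = 1)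
    (hv : V.valuation ((qR A : ℕ) : ℂ) = 1) {f : ℕ} (hqf : qR A ∣ f)
    (hg : idl (A := A) (B := 0) (2 * f) ≠ ⊥)
    {e : OO A 0 → ℂ} (he : IsEI (idl (A := A) (B := 0) (2 * f)) e) {n : ℕ} {ι : Type}
    [Fintype ι] (R : Reps A 0 n ι) (kP kM : ι → ℂ)
    (hP : ∀ i, kP i ≠ 0 → InH A (nI (R.b i)))
    (hM : ∀ i, kM i ≠ 0 → InH A (-(nI (R.b i) : ℤ))) (Z : ℂ) :
    ∃ (q : ℕ) (c : ℕ → ℂ), q ≠ 0 ∧ (∀ t, V.valuation (c t) ≤ 1) ∧ ∀ x y : OnePoint ℚ,
      ∑ t ∈ Finset.range q, c t * (PhiU R e kP kM (mob q t 0 q x) (mob q t 0 q y) / Z) =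
        PhiK R e kP x y / Z := by
  have hA0 : A < 0 := by
    have := hcq.neg
    omega
  obtain ⟨hqo, -⟩ := qR_spec hA0 hA
  have hq0 : qR A ≠ 0 := by
    rintro h
    rw [h] at hqo
    exact absurd hqo (by decide)
  obtain ⟨φ, hφd⟩ : ∃ φ : ℤ → ℂ, φ = fun n => if jacobiSym n (qR A) = 1 then 1 else 0 :=
    ⟨_, rfl⟩
  have hφ01 : ∀ n, φ n = 0 ∨ φ n = 1 := by
    intro n
    rw [hφd]
    beta_reduce
    split_ifs
    · exact Or.inr rfl
    · exact Or.inl rfl
  have hφp : ∀ n, φ (n + (qR A : ℤ)) = φ n := by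
    intro n
    have h1 : jacobiSym (n + (qR A : ℤ)) (qR A) = jacobiSym n (qR A) := by
      apply jacobiSym.mod_left'
      rw [Int.add_emod_right]
    rw [hφd]
    beta_reduce
    rw [h1]
  refine ⟨qR A, MUXF.PRJ.cf (qR A) φ, hq0, fun t => Prx.val_le V hr _ hq0 hv φ hφ01 t,
    fun x y => ?_⟩
  have key1 : ∀ i, ∑ t ∈ Finset.range (qR A), MUXF.PRJ.cf (qR A) φ t *
      (kP i * PhiI (R.b i) e (mob (qR A) t 0 (qR A) x) (mob (qR A) t 0 (qR A) y)) =
      kP i * PhiI (R.b i) e x y := by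
    intro i
    by_cases h0 : kP i = 0
    · rw [h0]
      simp
    · rw [← prj_pos hcq (R.nl i).b_ne hg he hq0 hφp (by
        intro y hy hy0
        obtain ⟨h2, h3, h4, h5, h6⟩ := exp_facts hcq hA hqf he (R.nl i).b_ne hy hy0
        have h7 : InH A (MUXF.qb (R.b i) y) := by
          have h8 := inH_nI hcq hA hqf he (R.nl i).b_ne 1 (by rw [one_mul]; exact hP i h0) hy hy0
          rcases h8 with h8 | h8
          · rwa [one_mul] at h8
          · exact absurd (Or.inl rfl) h8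
        have h9 := (jac hA0 hA (MUXF.qb (R.b i) y).toNat (by omega) h6).1
        rw [Int.toNat_of_nonneg h3.le] at h9
        rw [hφd]
        beta_reduce
        rw [if_pos (h9 h7)]) x y, Finset.mul_sum]
      refine Finset.sum_congr rfl fun t _ => ?_
      ring
  have key2 : ∀ i, ∑ t ∈ Finset.range (qR A), MUXF.PRJ.cf (qR A) φ t *
      (kM i * PhiI (R.b i) e (mob (-1) 0 0 1 (mob (qR A) t 0 (qR A) x))
        (mob (-1) 0 0 1 (mob (qR A) t 0 (qR A) y))) = 0 := by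
    intro i
    by_cases h0 : kM i = 0
    · rw [h0]
      simp
    · have h1 := prj_neg hcq (R.nl i).b_ne hg he hq0 hφp (by
        intro y hy hy0
        obtain ⟨h2, h3, h4, h5, h6⟩ := exp_facts hcq hA hqf he (R.nl i).b_ne hy hy0
        have h7 : InH A (-MUXF.qb (R.b i) y) := by
          have h8 := inH_nI hcq hA hqf he (R.nl i).b_ne (-1)
            (by rw [neg_one_mul]; exact hM i h0) hy hy0
          rcases h8 with h8 | h8
          · rwa [neg_one_mul] at h8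
          · exact absurd (Or.inr rfl) h8
        have h9 := (jac hA0 hA (MUXF.qb (R.b i) y).toNat (by omega) h6).2
        rw [Int.toNat_of_nonneg h3.le] at h9
        rw [hφd]
        beta_reduce
        rw [if_neg (by rw [h9 h7]; norm_num)]) x y
      have h2 : ∑ t ∈ Finset.range (qR A), MUXF.PRJ.cf (qR A) φ t *
          (kM i * PhiI (R.b i) e (mob (-1) 0 0 1 (mob (qR A) t 0 (qR A) x))
          (mob (-1) 0 0 1 (mob (qR A) t 0 (qR A) y))) = kM i *
          ∑ t ∈ Finset.range (qR A), MUXF.PRJ.cf (qR A) φ t *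
          PhiI (R.b i) e (mob (-1) 0 0 1 (mob (qR A) t 0 (qR A) x))
          (mob (-1) 0 0 1 (mob (qR A) t 0 (qR A) y)) := by
        rw [Finset.mul_sum]
        refine Finset.sum_congr rfl fun t _ => ?_
        ring
      rw [h2, h1, mul_zero]
  have e1 : ∀ t ∈ Finset.range (qR A), MUXF.PRJ.cf (qR A) φ t *
      (PhiU R e kP kM (mob (qR A) t 0 (qR A) x) (mob (qR A) t 0 (qR A) y) / Z) =
      (∑ i, MUXF.PRJ.cf (qR A) φ t *
      (kP i * PhiI (R.b i) e (mob (qR A) t 0 (qR A) x) (mob (qR A) t 0 (qR A) y)) +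
      ∑ i, MUXF.PRJ.cf (qR A) φ t *
      (kM i * PhiI (R.b i) e (mob (-1) 0 0 1 (mob (qR A) t 0 (qR A) x))
        (mob (-1) 0 0 1 (mob (qR A) t 0 (qR A) y)))) / Z := by
    intro t _
    unfold PhiU PhiK
    rw [← Finset.mul_sum, ← Finset.mul_sum]
    ring
  rw [Finset.sum_congr rfl e1, ← Finset.sum_div, Finset.sum_add_distrib, Finset.sum_comm,
    Finset.sum_congr rfl (fun i _ => key1 i)]
  have e2 : ∑ t ∈ Finset.range (qR A), ∑ i, MUXF.PRJ.cf (qR A) φ t *
      (kM i * PhiI (R.b i) e (mob (-1) 0 0 1 (mob (qR A) t 0 (qR A) x))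
        (mob (-1) 0 0 1 (mob (qR A) t 0 (qR A) y))) = 0 := by
    rw [Finset.sum_comm]
    exact Finset.sum_eq_zero fun i _ => key2 i
  rw [e2, add_zero]
  rfl

end

end Pool.Agent.N2U


end

section

/-!
# N2, block H (helper41): elementary facts and the nebentypus, for `2` inert (model `NS/H_Chn.lean`)
-/

set_option autoImplicit false

namespace Pool.Agent.N2H

open _root_.MU3 _root_.Pool.Agent.MU3A _root_.Pool.Agent.MU3B _root_.Pool.Agent.MU3F _root_.Pool.Agent.MUX _root_.Pool.Agent.MUXH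
  _root_.Pool.Agent.MUXHY _root_.Pool.Agent.MuSym _root_.Pool.Agent.NS _root_.Pool.Agent.N2 OnePoint

noncomputable section

variable {A B : ℤ}

/-- elementary facts -/
theorem valT {V : ValuationSubring ℂ} {f : ℕ} (H : SetT A B V f) :
    V.valuation (2 : ℂ) < 1 ∧ (∀ n : ℤ, V.valuation (n : ℂ) ≤ 1) ∧
    (∀ n : ℤ, ¬ (2 : ℤ) ∣ n → V.valuation (n : ℂ) = 1) ∧
    (∀ (r : ℕ) (z : ℂ), r ≠ 0 → z ^ r = 1 → V.valuation z = 1) ∧
    0 < absD A B ∧ ¬ (2 : ℤ) ∣ absD A B ∧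
    idl (A := A) (B := B) (2 * f) ≤ sp ((absD A B : ℤ) : OO A B) ∧
    idl (A := A) (B := B) (2 * f) ≠ ⊥ ∧ idl (A := A) (B := B) (2 * f) ≠ ⊤ ∧
    ((2 * f : ℕ) : OO A B) ∈ idl (A := A) (B := B) (2 * f) := by
  have h3 : V.valuation (2 : ℂ) < 1 := by
    have h1 : emb ((2 : ℕ) : OO A B) ∈ V.nonunits :=
      (H.hV _).2 (Ideal.mem_span_singleton_self _)
    have h2 : emb ((2 : ℕ) : OO A B) = 2 := by
      unfold emb
      rw [QuadraticAlgebra.re_natCast, QuadraticAlgebra.im_natCast]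
      norm_num
    rw [h2, ValuationSubring.mem_nonunits_iff] at h1
    exact h1
  have hle : ∀ z : ℤ, V.valuation (z : ℂ) ≤ 1 := fun z =>
    (V.valuation_le_one_iff _).2 (intCast_mem V z)
  have hD0 : 0 < absD A B := by
    have := H.case.neg
    unfold absD
    omega
  have h3f : ((2 * f : ℕ) : OO A B) ∈ idl (A := A) (B := B) (2 * f) :=
    Ideal.mem_span_singleton_self _
  have hf0 := H.f0
  refine ⟨h3, hle, ?_, ?_, hD0, ?_, ?_, ?_, ?_, h3f⟩
  · intro n hn
    have hc : IsCoprime n 2 := by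
      rw [isCoprime_comm]
      exact (Int.prime_two.coprime_iff_not_dvd).2 hn
    obtain ⟨a, b, hab⟩ := hc
    by_contra hne
    have hlt : V.valuation (n : ℂ) < 1 := lt_of_le_of_ne (hle n) hne
    have h1 : V.valuation ((a : ℂ) * n + b * 2) < 1 := by
      refine lt_of_le_of_lt (V.valuation.map_add _ _) (max_lt ?_ ?_)
      · rw [map_mul]
        exact mul_lt_one_of_nonneg_of_lt_one_right (hle a) zero_le hlt
      · rw [map_mul]
        exact mul_lt_one_of_nonneg_of_lt_one_right (hle b) zero_le h3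
    have h2 : (a : ℂ) * n + b * 2 = 1 := by exact_mod_cast hab
    rw [h2, map_one] at h1
    exact lt_irrefl _ h1
  · intro r z hr hz
    have h1 : V.valuation z ^ r = 1 := by rw [← map_pow, hz, map_one]
    exact (pow_eq_one_iff_of_nonneg zero_le hr).1 h1
  · have h5 := H.case.two
    rcases H.case.hB with hB | hB
    · subst hB
      unfold absD
      omega
    · subst hB
      unfold absD
      omega
  · rw [Ideal.span_singleton_le_iff_mem, Ideal.mem_span_singleton]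
    obtain ⟨t, ht⟩ := H.fD
    refine ⟨(2 * 3 * t : ℤ), ?_⟩
    have h1 : ((2 * f : ℕ) : OO A B) = ((2 * (f : ℤ) : ℤ) : OO A B) := by push_cast; rfl
    rw [h1, ht]
    push_cast
    ring
  · intro h
    rw [h, Ideal.mem_bot] at h3f
    have h1 := congrArg QuadraticAlgebra.re h3f
    simp only [QuadraticAlgebra.re_natCast, QuadraticAlgebra.re_zero] at h1
    have h2 : (2 * f : ℕ) = 0 := by exact_mod_cast h1
    omega
  · intro h
    rw [Ideal.eq_top_iff_one, Ideal.mem_span_singleton] at h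
    obtain ⟨y, hy⟩ := h
    have h1 := congrArg QuadraticAlgebra.re hy
    rw [QuadraticAlgebra.re_one, QuadraticAlgebra.re_mul, QuadraticAlgebra.re_natCast,
      QuadraticAlgebra.im_natCast, mul_zero, zero_mul, add_zero] at h1
    have h9 : ((2 * f : ℕ) : ℤ) ∣ 1 := ⟨y.re, h1⟩
    have h10 := Int.le_of_dvd one_pos h9
    have : 0 < f := Nat.pos_of_ne_zero hf0
    omega

theorem chrT (h4 : MUXF.Sx_CHI) {V : ValuationSubring ℂ} {f : ℕ} (H : SetT A B V f)
    {e : OO A B → ℂ} (he : IsEI (idl (A := A) (B := B) (2 * f)) e) {r : ℕ} (hr0 : r ≠ 0)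
    (hr : ∀ x, e x ≠ 0 → e x ^ r = 1) :
    nuX e 1 = 1 ∧ (∀ d d', nuX e (d * d') = nuX e d * nuX e d') ∧
    (∀ d d' : ℤ, ((2 * N0X A B f : ℕ) : ℤ) ∣ d - d' → nuX e d = nuX e d') ∧
    (∀ d, V.valuation (nuX e d) ≤ 1) := by
  obtain ⟨-, vZ, -, vru, hDpos, -, hgD, hg0, -, hpf⟩ := valT H
  have hcq : CQ A B := H.case.toCQ
  have ev : ∀ x, V.valuation (e x) ≤ 1 := by
    intro x
    by_cases hx : e x = 0
    · rw [hx, map_zero]
      exact zero_le_one
    · exact (vru r (e x) hr0 (hr x hx)).le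
  have hcopD : ∀ d : ℤ, e (d : OO A B) ≠ 0 → IsCoprime d (absD A B) := by
    intro d hd
    have h5 := (he.supp _).1 hd
    apply Chr.coprime_int (A := A) (B := B)
    rw [← Ideal.isCoprime_span_singleton_iff]
    rw [Ideal.isCoprime_iff_sup_eq] at h5 ⊢
    exact top_le_iff.1 (h5 ▸ sup_le_sup_left hgD _)
  refine ⟨?_, ?_, ?_, ?_⟩
  · unfold nuX
    have : ((1 : ℤ) : OO A B) = 1 := by push_cast; rfl
    rw [Chr.chiX_one, this, he.one]
    norm_num
  · intro d d'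
    unfold nuX
    have : ((d * d' : ℤ) : OO A B) = (d : OO A B) * (d' : OO A B) := by push_cast; rfl
    rw [Chr.chiX_mul, this, he.mul]
    push_cast
    ring
  · intro d d' hd
    have hDnat : (((absD A B).toNat : ℕ) : ℤ) = absD A B := Int.toNat_of_nonneg hDpos.le
    have hd2 : (2 : ℤ) * (absD A B * (f : ℤ) ^ 2) ∣ d - d' := by
      have h5 : ((2 * N0X A B f : ℕ) : ℤ) = (2 : ℤ) * (absD A B * (f : ℤ) ^ 2) := by
        unfold N0X
        push_cast
        rw [hDnat]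
      rwa [h5] at hd
    obtain ⟨t, ht⟩ := hd2
    have hD : absD A B ∣ d - d' := ⟨(2 : ℤ) * (f : ℤ) ^ 2 * t, by rw [ht]; ring⟩
    unfold nuX
    by_cases hcop : IsCoprime d (absD A B)
    · have h5 : chiX A B d' = chiX A B d := ((h4 A B (toCQ hcq) d hcop).2.2 d' hD)
      have h6 : e (d : OO A B) = e (d' : OO A B) := by
        apply he.per
        have h7 : (d : OO A B) - (d' : OO A B) =
            (((absD A B * f * t : ℤ)) : OO A B) * ((2 * f : ℕ) : OO A B) := by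
          have h8 : (d : OO A B) - (d' : OO A B) = ((d - d' : ℤ) : OO A B) := by push_cast; rfl
          rw [h8, ht]
          push_cast
          ring
        rw [h7]
        exact Ideal.mul_mem_left _ _ hpf
      rw [h5, h6]
    · have h5 : e (d : OO A B) = 0 := by
        by_contra hne
        exact hcop (hcopD d hne)
      have h6 : e (d' : OO A B) = 0 := by
        by_contra hne
        apply hcop
        obtain ⟨s, hs⟩ := hD
        have h7 : d = d' + absD A B * s := by linarith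
        rw [h7]
        exact (IsCoprime.add_mul_left_left_iff).2 (hcopD d' hne)
      rw [h5, h6, mul_zero, mul_zero]
  · intro d
    unfold nuX
    rw [map_mul]
    exact mul_le_one' (vZ _) (ev _)

end

end Pool.Agent.N2H


end

section

/-!
# N2, block H (helper41): projector and depletion, for `2` inert (models `NS/H_Prn.lean`, `NS/H_Dep.lean`)
-/

set_option autoImplicit false

namespace Pool.Agent.N2H

open _root_.MU3 _root_.Pool.Agent.MU3A _root_.Pool.Agent.MU3B _root_.Pool.Agent.MU3F _root_.Pool.Agent.MUX _root_.Pool.Agent.MUXH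
  _root_.Pool.Agent.MUXHY _root_.Pool.Agent.MuSym _root_.Pool.Agent.NS _root_.Pool.Agent.N2 OnePoint
open scoped ComplexConjugate

noncomputable section

variable {A B : ℤ}

lemma sgn_PK {n : ℕ} {ι : Type} [Fintype ι] (R : Reps A B n ι) (e : OO A B → ℂ) (kk : ι → ℂ)
    (Z s : ℂ) (x y : OnePoint ℚ) :
    sgnPart s (fun x y => PhiK R e kk x y / Z) x y =
      (∑ c, kk c * sgnPart s (PhiI (R.b c) e) x y) / Z := by
  unfold sgnPart PhiK
  rw [← mul_div_assoc, ← add_div, Finset.mul_sum, ← Finset.sum_add_distrib]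
  congr 1
  refine Finset.sum_congr rfl fun c _ => ?_
  ring

/-- the projector -/
theorem prT (h3 : MUXF.Sx_PHX) (h4 : MUXF.Sx_PRJ) {V : ValuationSubring ℂ} {f : ℕ}
    (hS : SetT A B V f) {n : ℕ} {ι : Type} [Fintype ι] (R : Reps A B n ι) {e : OO A B → ℂ}
    (he : IsEI (idl (A := A) (B := B) (2 * f)) e) (kk : ι → ℂ) (Z s : ℂ) :
    ∃ (q : ℕ) (c : ℕ → ℂ), ¬ 2 ∣ q ∧ q ≠ 0 ∧ (∀ t, V.valuation (c t) ≤ 1) ∧ ∀ x y : OnePoint ℚ,
      ∑ t ∈ Finset.range q, c t * sgnPart s (fun x y => PhiK R e kk x y / Z) (mob q t 0 q x)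
        (mob q t 0 q y) = PhiK R e kk x y / Z := by
  obtain ⟨-, -, hv1, hr, hD, hD3, hgD, hg, -, -⟩ := valT hS
  obtain ⟨φ, hφ, hper, hφ2⟩ := h3 A B (toCQ hS.case.toCQ)
  have hqD : (((absD A B).toNat : ℕ) : ℤ) = absD A B := Int.toNat_of_nonneg hD.le
  have hq : (absD A B).toNat ≠ 0 := by omega
  have hv : V.valuation (((absD A B).toNat : ℕ) : ℂ) = 1 := by
    have h5 : (((absD A B).toNat : ℕ) : ℂ) = ((absD A B : ℤ) : ℂ) := by
      rw [← Int.cast_natCast (R := ℂ) (absD A B).toNat, hqD]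
    rw [h5]
    exact hv1 _ hD3
  refine ⟨(absD A B).toNat, fun t => (1 / ((absD A B).toNat : ℂ)) *
    ∑ n ∈ Finset.range (absD A B).toNat, φ n * ex (-(t * n) / (absD A B).toNat), by omega, hq,
    fun t => Prx.val_le V hr _ hq hv φ hφ t, fun x y => ?_⟩
  have key : ∀ c, ∑ t ∈ Finset.range (absD A B).toNat, ((1 / ((absD A B).toNat : ℂ)) *
      ∑ n ∈ Finset.range (absD A B).toNat, φ n * ex (-(t * n) / (absD A B).toNat)) *
      sgnPart s (PhiI (R.b c) e) (mob (absD A B).toNat t 0 (absD A B).toNat x)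
        (mob (absD A B).toNat t 0 (absD A B).toNat y) = PhiI (R.b c) e x y := by
    intro c
    exact h4 A B (toCQ hS.case.toCQ) (R.b c) _ e (R.nl c).b_ne hg (toEI he) _ φ hq
      (fun n => by rw [hqD]; exact hper n)
      (hφ2 (R.b c) _ e (R.nl c).b_ne (toEI he) hgD) s x y
  simp only [sgn_PK]
  simp only [← mul_div_assoc]
  rw [← Finset.sum_div]
  congr 1
  simp only [Finset.mul_sum (s := (Finset.univ : Finset ι))]
  rw [Finset.sum_comm]
  unfold PhiK
  refine Finset.sum_congr rfl fun c _ => ?_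
  rw [← key c, Finset.mul_sum]
  refine Finset.sum_congr rfl fun t _ => ?_
  ring

/-- for `2` inert, `e x = 0` if `2` divides the exponent -/
theorem e_zero (hQB : MUXF.Sx_QB) {V : ValuationSubring ℂ} {f : ℕ} (hS : SetT A B V f)
    {e : OO A B → ℂ} (he : IsEI (idl (A := A) (B := B) (2 * f)) e) {b : Ideal (OO A B)}
    (hb : b ≠ ⊥) {x : OO A B} (hx : x ∈ b) (h3 : (2 : ℤ) ∣ MUXF.qb b x) : e x = 0 := by
  obtain ⟨h1, -⟩ := (hQB A B (toCQ hS.case.toCQ) b hb).1 x hx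
  have h2 : (2 : ℤ) ∣ nm x := by rw [h1]; exact Dvd.dvd.mul_left h3 _
  have h4 : (2 : ℤ) ∣ x.re ∧ (2 : ℤ) ∣ x.im := by
    have h5 := hS.case.two
    unfold nm at h2
    rcases hS.case.hB with hB | hB
    · subst hB
      omega
    · subst hB
      obtain ⟨k, hk⟩ := h5
      obtain ⟨l, hl⟩ := h2
      have hA : A - 1 = 2 * k := by linarith
      have h6 : (2 : ℤ) ∣ x.re ^ 2 + x.re * x.im + x.im ^ 2 := by
        refine ⟨l + (k + 1) * x.im ^ 2, ?_⟩
        linear_combination hl + x.im ^ 2 * hA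
      have e1 : x.re % 2 = 0 ∨ x.re % 2 = 1 := by omega
      have e2 : x.im % 2 = 0 ∨ x.im % 2 = 1 := by omega
      rw [Int.dvd_iff_emod_eq_zero, Int.add_emod, Int.add_emod (x.re ^ 2), pow_two,
        pow_two, Int.mul_emod, Int.mul_emod x.re x.im, Int.mul_emod x.im x.im] at h6
      rcases e1 with e1 | e1 <;> rcases e2 with e2 | e2 <;>
        rw [e1, e2] at h6 <;> omega
  by_contra hne
  have h5 := (he.supp _).1 hne
  obtain ⟨⟨s, hs⟩, ⟨t, ht⟩⟩ := h4
  have h6 : x = ((2 : ℕ) : OO A B) * ⟨s, t⟩ := by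
    ext
    · rw [QuadraticAlgebra.re_mul, QuadraticAlgebra.re_natCast, QuadraticAlgebra.im_natCast, hs]
      push_cast
      ring
    · rw [QuadraticAlgebra.im_mul, QuadraticAlgebra.re_natCast, QuadraticAlgebra.im_natCast, ht]
      push_cast
      ring
  obtain ⟨i, hi, j, hj, hij⟩ := (Ideal.isCoprime_iff_exists).1 h5
  rw [Ideal.mem_span_singleton] at hi hj
  obtain ⟨i', hi'⟩ := hi
  obtain ⟨j', hj'⟩ := hj
  have h7 : ((2 : ℕ) : OO A B) * (⟨s, t⟩ * i' + ((f : ℕ) : OO A B) * j') = 1 := by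
    rw [← hij, hi', hj']
    conv_rhs => rw [h6]
    push_cast
    ring
  have h8 := congrArg QuadraticAlgebra.re h7
  rw [QuadraticAlgebra.re_mul, QuadraticAlgebra.re_natCast, QuadraticAlgebra.im_natCast,
    QuadraticAlgebra.re_one] at h8
  omega

/-- the sum over the translates by halves of theta is zero -/
theorem theta_dep {V : ValuationSubring ℂ} {f : ℕ} (hS : SetT A B V f)
    {e : OO A B → ℂ} (he : IsEI (idl (A := A) (B := B) (2 * f)) e) {b : Ideal (OO A B)}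
    (hb : b ≠ ⊥) (z : ℂ) (hz : 0 < z.im) :
    ∑ j ∈ Finset.range 2, thetaI b e (z + (j : ℂ) / 2) = 0 := by
  obtain ⟨-, -, -, -, -, -, -, hg, -, -⟩ := valT hS
  have hcq := toCQ hS.case.toCQ
  obtain ⟨-, C, hC0, hC⟩ := MUXF.xf_BDD A B hcq _ e hg (toEI he)
  have him : ∀ j : ℕ, 0 < (z + (j : ℂ) / 2).im := by
    intro j
    have : ((j : ℂ) / 2).im = 0 := by
      have : ((j : ℂ) / 2) = (((j : ℝ) / 2 : ℝ) : ℂ) := by push_cast; ring
      rw [this]
      exact Complex.ofReal_im _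
    rw [Complex.add_im, this, add_zero]
    exact hz
  have hsum : ∀ j : ℕ, Summable (fun x : b => e x * (starRingEnd ℂ) (emb (x : OO A B)) *
      Complex.exp (2 * Real.pi * Complex.I * ((nm (x : OO A B) : ℂ) / nI b) *
        (z + (j : ℂ) / 2))) :=
    fun j : ℕ => MUXF.xf_TSM A B hcq b hb e C hC (z + (j : ℂ) / 2) (him j)
  have e1 : ∑ j ∈ Finset.range 2, thetaI b e (z + (j : ℂ) / 2) =
      (1 / 2) * ∑ j ∈ Finset.range 2, ∑' x : b, e x * (starRingEnd ℂ) (emb (x : OO A B)) *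
        Complex.exp (2 * Real.pi * Complex.I * ((nm (x : OO A B) : ℂ) / nI b) *
          (z + (j : ℂ) / 2)) := by
    rw [Finset.mul_sum]
    rfl
  rw [e1, ← Summable.tsum_finsetSum (fun j _ => hsum j)]
  have e2 : ∀ x : b, ∑ j ∈ Finset.range 2, e x * (starRingEnd ℂ) (emb (x : OO A B)) *
      Complex.exp (2 * Real.pi * Complex.I * ((nm (x : OO A B) : ℂ) / nI b) *
        (z + (j : ℂ) / 2)) = 0 := by
    intro x
    obtain ⟨h1, h2⟩ := (MUXF.xf_QB A B hcq b hb).1 x x.2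
    have hnI : ((nI b : ℕ) : ℂ) ≠ 0 := by
      have := (MUXF.xf_IDL A B hcq b hb).1
      exact_mod_cast this
    by_cases h3 : (2 : ℤ) ∣ MUXF.qb b (x : OO A B)
    · rw [e_zero MUXF.xf_QB hS he hb x.2 h3]
      simp
    · have h4 : ((nm (x : OO A B) : ℤ) : ℂ) / ((nI b : ℕ) : ℂ) = ((MUXF.qb b (x : OO A B) : ℤ) : ℂ) := by
        have h5 : nm (x : OO A B) = (nI b : ℤ) * MUXF.qb b (x : OO A B) := h1
        rw [h5]
        push_cast
        field_simp
      set N : ℤ := MUXF.qb b (x : OO A B) with hN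
      have e3 : ∀ j : ℕ, Complex.exp (2 * Real.pi * Complex.I * ((nm (x : OO A B) : ℂ) / nI b) *
          (z + (j : ℂ) / 2)) = Complex.exp (2 * Real.pi * Complex.I * N * z) *
            Complex.exp (2 * Real.pi * Complex.I * N / 2) ^ j := by
        intro j
        rw [← Complex.exp_nat_mul, ← Complex.exp_add, h4]
        congr 1
        ring
      simp only [e3]
      set q : ℂ := Complex.exp (2 * Real.pi * Complex.I * N / 2) with hq
      have hq3 : q ^ 2 = 1 := by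
        rw [hq, ← Complex.exp_nat_mul, Complex.exp_eq_one_iff]
        exact ⟨N, by push_cast; ring⟩
      have hq1 : q ≠ 1 := by
        intro h
        rw [hq, Complex.exp_eq_one_iff] at h
        obtain ⟨k, hk⟩ := h
        apply h3
        refine ⟨k, ?_⟩
        have hpi : (2 * Real.pi * Complex.I : ℂ) ≠ 0 := Complex.two_pi_I_ne_zero
        have h6 : (2 * Real.pi * Complex.I : ℂ) * N = (2 * Real.pi * Complex.I) * (2 * k) := by
          linear_combination 2 * hk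
        have h7 := mul_left_cancel₀ hpi h6
        exact_mod_cast h7
      have h5 : ∑ j ∈ Finset.range 2, q ^ j = 0 := by
        have h6 := mul_geom_sum q 2
        rw [hq3, sub_self] at h6
        exact (mul_eq_zero.1 h6).resolve_left (sub_ne_zero.2 hq1)
      have h6 : ∀ j ∈ Finset.range 2, e x * (starRingEnd ℂ) (emb (x : OO A B)) *
          (Complex.exp (2 * Real.pi * Complex.I * N * z) * q ^ j) =
          e x * (starRingEnd ℂ) (emb (x : OO A B)) *
          Complex.exp (2 * Real.pi * Complex.I * N * z) * q ^ j := fun j _ => by ring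
      rw [Finset.sum_congr rfl h6, ← Finset.mul_sum, h5, mul_zero]
  rw [tsum_congr e2, tsum_zero, mul_zero]

/-- depletion -/
theorem phi_dep {V : ValuationSubring ℂ} {f : ℕ} (hS : SetT A B V f)
    {e : OO A B → ℂ} (he : IsEI (idl (A := A) (B := B) (2 * f)) e) {b : Ideal (OO A B)}
    (hb : b ≠ ⊥) (x : ℚ) :
    ∑ j ∈ Finset.range 2, PhiI b e ∞ (((x + j) / 2 : ℚ) : OnePoint ℚ) = 0 := by
  obtain ⟨-, -, -, -, -, -, -, hg, -, -⟩ := valT hS
  have hcq := toCQ hS.case.toCQ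
  have hI := fun r : ℚ => MUXF.xf_ITG A B hcq b _ e hb hg (toEI he) r
  have e1 : ∀ j ∈ Finset.range 2, PhiI b e ∞ (((x + j) / 2 : ℚ) : OnePoint ℚ) =
      2 * Real.pi * ∫ t in Set.Ioi (0 : ℝ), thetaI b e (((x / 2 : ℚ) : ℂ) + t * Complex.I +
        (j : ℂ) / 2) := by
    intro j _
    rw [Qsx.PhiI_inf]
    unfold IvI
    rw [neg_mul, neg_neg]
    congr 1
    refine MeasureTheory.integral_congr_ae (Filter.Eventually.of_forall fun t => ?_)
    show thetaI b e _ = thetaI b e _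
    congr 1
    push_cast
    ring
  rw [Finset.sum_congr rfl e1, ← Finset.mul_sum, ← MeasureTheory.integral_finsetSum]
  · have e2 : ∫ t in Set.Ioi (0 : ℝ), ∑ j ∈ Finset.range 2,
        thetaI b e (((x / 2 : ℚ) : ℂ) + t * Complex.I + (j : ℂ) / 2) = 0 := by
      rw [MeasureTheory.setIntegral_congr_fun (g := fun _ => (0 : ℂ)) measurableSet_Ioi]
      · simp
      · intro t ht
        refine theta_dep hS he hb _ ?_
        have h1 : (((x / 2 : ℚ) : ℂ)).im = 0 := by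
          rw [← Complex.ofReal_ratCast]
          exact Complex.ofReal_im _
        rw [Complex.add_im, h1, zero_add, Complex.mul_im]
        simpa using ht
    rw [e2, mul_zero]
  · intro j _
    have h1 := hI ((x + j) / 2)
    refine h1.congr_fun ?_ measurableSet_Ioi
    intro t _
    show thetaI b e _ = thetaI b e _
    congr 1
    push_cast
    ring

end

end Pool.Agent.N2H


end

section

/-!
# N2, block H (helper41): the character sums, for `2` inert (glue; model `NS/H_Hfin.lean`)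
-/

set_option autoImplicit false

namespace Pool.Agent.N2H

open _root_.MU3 _root_.Pool.Agent.MU3A _root_.Pool.Agent.MU3B _root_.Pool.Agent.MU3F _root_.Pool.Agent.MUX _root_.Pool.Agent.MUXH
  _root_.Pool.Agent.MUXHY _root_.Pool.Agent.MuSym _root_.Pool.Agent.NS _root_.Pool.Agent.N2 OnePoint
open scoped ComplexConjugate

noncomputable section

variable {A B : ℤ}

/-- the `x`-coordinates of torsion points of normalised lattices are algebraic -/
theorem xn_alg (hc : CQ A B) (hT : TorX A B) {b : Ideal (OO A B)} {L : PeriodPair} {om : ℂ}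
    (hL : IsNL b L om) {n : ℕ} (hn : n ≠ 0) {z : ℂ} (hz : n * z ∈ L.lattice)
    (hz' : z ∉ L.lattice) : IsAlgebraic ℚ (L.weierstrassP z) := by
  have hn' : ((n : ℕ) : OO A B) ≠ 0 := natCast_ne_zero' hc hn
  have hm : idl (A := A) (B := B) n ≠ ⊥ := by
    intro h
    exact hn' (Ideal.span_singleton_eq_bot.1 h)
  have hf := hT.fin _ hm
  have htor : Tor (idl (A := A) (B := B) n) L z := by
    refine (tor_span hc (IsLI.hasCM hc hL.toIsLI) _).2 ?_
    rw [_root_.Pool.Agent.MUX.emb_natCast hc]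
    exact hz
  have hmem : xn L z ∈ RF (idl (A := A) (B := B) n) :=
    IntermediateField.subset_adjoin _ _ ⟨b, L, om, hL, Or.inr ⟨z, htor, hz', rfl⟩⟩
  have h1 : IsAlgebraic (kk A B) (⟨xn L z, hmem⟩ : RF (idl (A := A) (B := B) n)) :=
    Algebra.IsAlgebraic.isAlgebraic _
  have h2 : IsAlgebraic (kk A B) (xn L z) := h1.algebraMap (A := ℂ)
  have h3 : Algebra.IsAlgebraic ℚ (kk A B) := MUXN.FK.isAlgebraic_kk hc
  have h4 : IsAlgebraic ℚ (xn L z) := h2.restrictScalars ℚ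
  have e1 : L.weierstrassP z = xn L z + ((1 / 12 : ℚ) : ℂ) := by
    unfold xn
    push_cast
    ring
  rw [e1]
  exact h4.add (isAlgebraic_algebraMap (A := ℂ) (1 / 12 : ℚ))

theorem u_alg (hc : CQ A B) (hT : TorX A B) {b : Ideal (OO A B)} {L : PeriodPair} {om : ℂ}
    (hL : IsNL b L om) {V : ValuationSubring ℂ} {u e a1 a3 : ℂ} (h : GoodT V L u e a1 a3) :
    IsAlgebraic ℚ u := by
  obtain ⟨w1, w2, h1, h2, h3, h4, -, -, -, h5⟩ := h.tor
  have k1 : IsAlgebraic ℚ (L.weierstrassP w1) := xn_alg hc hT hL (n := 3) (by norm_num)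
    (by push_cast; exact h1) h3
  have k2 : IsAlgebraic ℚ (L.weierstrassP w2) := xn_alg hc hT hL (n := 3) (by norm_num)
    (by push_cast; exact h2) h4
  have k3 : IsAlgebraic ℚ (u ^ 2) := by
    rw [h5]
    exact k2.sub k1
  exact k3.of_pow (by norm_num)

theorem sum_alg {ι : Type} (S : Finset ι) (F : ι → ℂ) (h : ∀ c ∈ S, IsAlgebraic ℚ (F c)) :
    IsAlgebraic ℚ (∑ c ∈ S, F c) := by
  rw [← mem_algebraicClosure_iff]
  exact sum_mem fun c hc => mem_algebraicClosure_iff.2 (h c hc)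

/-- the hypotheses of the abstract part -/
theorem hypT (hG : S2_GPT) (hT' : S2_TYF) (hP : MUXY.Sy_ALP) (hCOP : MUXY.Sy_COP)
    {V : ValuationSubring ℂ} {f : ℕ}
    (hS : SetT A B V f) (hT : TorX A B) {ι : Type} [Fintype ι] (R : Reps A B (2 * f) ι)
    {u el a1 a3 : ℂ} (hg : GoodT V (R.L R.i0) u el a1 a3)
    {e : OO A B → ℂ} (he : IsEI (idl (A := A) (B := B) (2 * f)) e) {r : ℕ} (hr2 : ¬ 2 ∣ r)
    (her : ∀ x, e x ≠ 0 → e x ^ (2 * r) = 1) {kk : ι → ℂ} (hkk : ∀ i, kk i ^ (2 * r) = 1) :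
    ∃ (pi : ℂ) (KI : Subfield ℂ) (i : ℕ), HypT V (N0X A B f) 1 i (nuX e)
      (fun x y => PhiK R e kk x y / (u * R.om R.i0)) pi KI := by
  obtain ⟨pi, KI, i, hi, typ, unr, vpi⟩ := hT' A B V f hS hT ι R u el a1 a3 hg e he r hr2 her kk
    hkk
  obtain ⟨v2, vZ, v1, vr, D0, D2, gD, gb, gt, h2f⟩ := valT hS
  have hcq : CQ A B := hS.case.toCQ
  have hr0 : r ≠ 0 := by
    rintro rfl
    exact hr2 (dvd_zero 2)
  have hr20 : 2 * r ≠ 0 := by omega
  have hf0 := hS.f0
  obtain ⟨nu1, num, nuper, nuv⟩ := chrT MUXF.xf_CHI hS he hr20 her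
  have hN0 : ((N0X A B f : ℕ) : ℤ) = absD A B * (f : ℤ) ^ 2 := Brg.N0X_cast f D0
  have hDz : absD A B * ((2 * f : ℕ) : ℤ) ^ 2 = ((2 ^ (1 + 1) * N0X A B f : ℕ) : ℤ) := by
    push_cast
    rw [hN0]
    ring
  have hfz : (f : ℤ) ≠ 0 := by exact_mod_cast hf0
  have hf1 : (0 : ℤ) < f := by exact_mod_cast Nat.pos_of_ne_zero hf0
  have hD2 : 2 ≤ absD A B := by
    have h5 := hS.case.two
    have h6 := hS.case.neg
    rcases hS.case.hB with hB | hB
    · subst hB
      unfold absD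
      omega
    · subst hB
      unfold absD
      omega
  have hN2 : 2 ≤ N0X A B f := by
    have h1 : (2 : ℤ) ≤ ((N0X A B f : ℕ) : ℤ) := by
      rw [hN0]
      have h2 : (1 : ℤ) ≤ (f : ℤ) ^ 2 := by
        have : 0 < (f : ℤ) ^ 2 := by positivity
        omega
      nlinarith
    exact_mod_cast h1
  have hNne : N0X A B f ≠ 0 := by omega
  have hcop : ∀ i, IsCoprime (MUX.sp ((MUX.nI (R.b i) : ℕ) : OO A B))
      (idl (A := A) (B := B) (2 * f)) :=
    hCOP A B (2 * f) ι R _ 1 (by rw [pow_one]; exact h2f)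
  have hGG := hG A B V f hS hT ι R u el a1 a3 hg e he (2 * r) hr20 her kk (vr _ _ hr20 (hkk _))
  refine ⟨pi, KI, i, ?_⟩
  exact
    { vp := v2
      N0 := hN2
      cop := by
        rw [Nat.Prime.coprime_iff_not_dvd Nat.prime_two]
        intro h
        have h1 : (2 : ℤ) ∣ ((N0X A B f : ℕ) : ℤ) := by exact_mod_cast h
        rw [hN0] at h1
        rcases Int.prime_two.dvd_or_dvd h1 with h2 | h2
        · exact D2 h2
        · have h4 := Int.prime_two.dvd_of_dvd_pow h2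
          exact hS.fp (by exact_mod_cast h4)
      nu1 := nu1
      num := num
      nuper := nuper
      nuv := nuv
      sym := by
        have h1 : ∀ c, IsSym (2 ^ (1 + 1) * N0X A B f) (nuX e) (PhiI (R.b c) e) := fun c =>
          MUXT.sym_EI (toCQ hcq) (R.b c) (R.nl c).b_ne _ e (toEI he) (2 * f) (by omega) h2f _
            (mul_ne_zero (by norm_num) hNne) (by rw [hDz])
        exact Sym.isSym_lin h1 kk (u * R.om R.i0)
      dep := by
        intro x
        unfold PhiK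
        rw [← Finset.sum_div, Finset.sum_comm]
        have h1 : ∀ c, ∑ j ∈ Finset.range 2, kk c * PhiI (R.b c) e ∞
            (((x + j) / 2 : ℚ) : OnePoint ℚ) = 0 := by
          intro c
          rw [← Finset.mul_sum, phi_dep hS he (R.nl c).b_ne x, mul_zero]
        rw [Finset.sum_eq_zero fun c _ => h1 c, zero_div]
      alg := by
        intro x y
        have hua : IsAlgebraic ℚ u := u_alg hcq hT (R.nl R.i0) hg
        have hka : ∀ c, IsAlgebraic ℚ (kk c) := fun c =>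
          IsAlgebraic.of_pow (Nat.pos_of_ne_zero hr20) (by rw [hkk c]; exact isAlgebraic_one)
        have h1 := fun c =>
          (hP A B hcq hT (2 * f) ι inferInstance R _ e gb gt he hcop (2 * r) hr20 her c x y).2
        have e1 : PhiK R e kk x y / (u * R.om R.i0) =
            (∑ c, kk c * (PhiI (R.b c) e x y / R.om R.i0)) * u⁻¹ := by
          unfold PhiK
          have ho : R.om R.i0 ≠ 0 := (R.nl R.i0).om_ne
          have hu := hg.u0
          rw [mul_comm u, ← div_div, Finset.sum_div, div_eq_mul_inv]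
          congr 1
          refine Finset.sum_congr rfl fun c _ => ?_
          ring
        rw [e1]
        exact (sum_alg _ _ fun c _ => (hka c).mul (h1 c)).mul hua.inv
      fin := by
        classical
        have h1 := fun c => MUXT.fg_EI A B (toCQ hcq) (R.b c) _ e (R.nl c).b_ne gb (toEI he)
        choose S hS' using h1
        set Z : ℂ := u * R.om R.i0 with hZ
        refine ⟨Finset.univ.biUnion fun c => (S c).image fun t => kk c / Z * t, fun x y => ?_⟩
        have e1 : PhiK R e kk x y / Z = ∑ c, kk c / Z * PhiI (R.b c) e x y := by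
          unfold PhiK
          rw [Finset.sum_div]
          refine Finset.sum_congr rfl fun c _ => ?_
          ring
        rw [e1]
        refine sum_mem fun c _ => ?_
        have h2 := hS' c x y
        have h3 : AddMonoidHom.mulLeft (kk c / Z) (PhiI (R.b c) e x y) ∈
            (AddSubgroup.closure (S c : Set ℂ)).map (AddMonoidHom.mulLeft (kk c / Z)) :=
          AddSubgroup.mem_map_of_mem _ h2
        rw [AddMonoidHom.map_closure] at h3
        refine AddSubgroup.closure_mono ?_ h3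
        rintro _ ⟨t, ht, rfl⟩
        simp only [Finset.coe_biUnion, Set.mem_iUnion]
        exact ⟨c, by simp, Finset.mem_coe.2 (Finset.mem_image.2 ⟨t, ht, rfl⟩)⟩
      typ := typ
      unr := unr
      i2 := hi
      vpi := vpi
      G1 := by
        intro N' hN' hd
        refine (hGG N' hN' ?_).1
        rw [hDz]
        exact_mod_cast hd
      G2 := by
        intro N' hN' hd
        refine (hGG N' hN' ?_).2
        rw [hDz]
        exact_mod_cast hd
      prj := by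
        obtain ⟨q, c, -, h1, h2, h3⟩ := prT MUXF.xf_PHX MUXF.xf_PRJ hS R he kk
          (u * R.om R.i0) 1
        exact ⟨q, c, h1, h2, h3⟩ }

/-- the character sums -/
theorem th_HFIN (hHT : St_HT) (hG : S2_GPT) (hT' : S2_TYF) (hP : MUXY.Sy_ALP)
    (hCOP : MUXY.Sy_COP) : S2_HFIN := by
  intro A B V f hS hT ι _ R u el a1 a3 hg e he r hr2 her kk hkk n₀
  obtain ⟨v2, vZ, v1, vr, D0, D2, gD, gb, gt, h2f⟩ := valT hS
  have hcq : CQ A B := hS.case.toCQ
  have hf0 := hS.f0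
  set kk' : ι → ℂ := fun c => kk c / e ((nI (R.b c) : ℕ) : OO A B) with hkk'
  have heN : ∀ c, e ((nI (R.b c) : ℕ) : OO A B) ≠ 0 := Brg.e_nI R he h2f
  have hk1 : ∀ c, kk' c ^ (2 * r) = 1 := by
    intro c
    rw [hkk']
    beta_reduce
    rw [div_pow, hkk, her _ (heN c), div_one]
  obtain ⟨pi, KI, i, hyp⟩ := hypT hG hT' hP hCOP hS hT R hg he hr2 her hk1
  have hfz : (0 : ℤ) < f := by exact_mod_cast Nat.pos_of_ne_zero hf0
  have haz : ((aX 2 f : ℕ) : ℤ) - 1 = 4 * (2 * f) := by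
    unfold aX q0
    push_cast
    norm_num
    ring
  have ha4 : (4 : ℤ) ∣ ((aX 2 f : ℕ) : ℤ) - 1 := by rw [haz]; exact Dvd.intro _ rfl
  have ha1 : ((aX 2 f : ℕ) : ℤ) ≠ 1 := by
    intro h
    rw [h] at haz
    omega
  obtain ⟨n, hn, hmain⟩ := hHT V (N0X A B f) 1 i (nuX e) _ pi KI hyp ((aX 2 f : ℕ) : ℤ) 5 ha4 ha1
    (by norm_num) (by norm_num) (n₀ + 2)
  obtain ⟨m, rfl⟩ : ∃ m, n = m + 2 := ⟨n - 2, by omega⟩
  refine ⟨m, by omega, ?_⟩
  have hQS := ty_QSX MUXF.xf_F5 MUXF.xf_PRD 2 Nat.prime_two A B hcq ⊤ f hf0 ι inferInstance R _ e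
    he h2f kk 1 1 m
  have hM : q0 2 * 2 ^ m = 2 ^ (m + 2) := by
    unfold q0
    norm_num
    ring
  have hq3 : (q0 2 : ℤ) = 4 := by
    unfold q0
    norm_num
  have hq3' : (q0 2 : ℚ) = 4 := by
    unfold q0
    norm_num
  rw [hM, hq3, hq3'] at hQS
  have e4 : (1 + 4 : ℤ) = 5 := by norm_num
  have e4' : (1 + 4 : ℚ) = 5 := by norm_num
  rw [e4, e4'] at hQS
  have hL : ∑ j ∈ Finset.range 2, (-1 : ℂ) ^ (1 - j) *
        (STX R (lvX 2 f m) (2 ^ (m + 2)) (aX 2 f) e kk (5 ^ j) +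
          STX R (lvX 2 f m) (2 ^ (m + 2)) (aX 2 f) e kk (-(5 ^ j))) =
      ∑ j ∈ Finset.range (1 + 1), ((-1 : ℂ) ^ (1 - j) * ((1 : ℕ).choose j : ℂ)) *
        (STX R (lvX 2 f m) (2 ^ (m + 2)) (aX 2 f) e kk (5 ^ j) +
          ((1 : ℤ) : ℂ) * STX R (lvX 2 f m) (2 ^ (m + 2)) (aX 2 f) e kk (-5 ^ j)) := by
    refine Finset.sum_congr rfl fun j hj => ?_
    have hj2 : j = 0 ∨ j = 1 := by
      have := Finset.mem_range.1 hj
      omega
    rcases hj2 with rfl | rfl <;> simp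
  rw [hL, hQS]
  have hprim := Hfx.prim 2 (m + 2) Nat.prime_two (-(5 * ((aX 2 f : ℕ) : ℤ) ^ 2)) (by
    intro h
    rw [dvd_neg] at h
    rcases Int.prime_two.dvd_or_dvd h with h | h
    · omega
    · have h5 := Int.prime_two.dvd_of_dvd_pow h
      omega)
  have hζ : ex (-((5 : ℚ) ^ 1 * (aX 2 f : ℚ) ^ 2) / ((2 ^ (m + 2) : ℕ) : ℚ)) =
      ex (((-(5 * ((aX 2 f : ℕ) : ℤ) ^ 2) : ℤ) : ℚ) / (2 : ℕ) ^ (m + 2)) := by
    push_cast
    rw [pow_one]
  rw [hζ]
  set ζ : ℂ := ex (((-(5 * ((aX 2 f : ℕ) : ℤ) ^ 2) : ℤ) : ℚ) / (2 : ℕ) ^ (m + 2)) with hζd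
  have h1 := hmain ζ hprim
  have hu := hg.u0
  have e5 : (1 / 2 * (2 * (f : ℂ) * ∑ b ∈ Finset.range (2 ^ (m + 2)), ζ ^ b *
      comb ((aX 2 f : ℕ) : ℤ) 5 1 (fun b => sgnPart ((1 : ℤ) : ℂ) (PP R ⊤ e kk 0) ∞
        ((b / ((2 ^ (m + 2) : ℕ) : ℚ) : ℚ) : OnePoint ℚ)) b)) / u =
      f * ∑ b ∈ Finset.range (2 ^ (m + 2)), ζ ^ b *
      comb ((aX 2 f : ℕ) : ℤ) 5 1 (fun b => sgnPart (1 : ℂ)
        (fun x y => PhiK R e kk' x y / (u * R.om R.i0)) ∞
        (((b : ℚ) / 2 ^ (m + 2) : ℚ) : OnePoint ℚ)) b := by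
    have e0 : ∀ S : ℂ, (1 / 2 * (2 * (f : ℂ) * S)) / u = f * (S / u) := by
      intro S
      ring
    rw [e0, Finset.sum_div]
    congr 1
    refine Finset.sum_congr rfl fun b _ => ?_
    rw [mul_div_assoc]
    congr 1
    unfold comb
    rw [Finset.sum_div]
    refine Finset.sum_congr rfl fun j _ => ?_
    rw [mul_div_assoc]
    congr 1
    have e6 : ∀ b : ℤ, sgnPart ((1 : ℤ) : ℂ) (PP R ⊤ e kk 0) ∞
        ((b / ((2 ^ (m + 2) : ℕ) : ℚ) : ℚ) : OnePoint ℚ) = u * sgnPart (1 : ℂ)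
        (fun x y => PhiK R e kk' x y / (u * R.om R.i0)) ∞
        (((b : ℚ) / 2 ^ (m + 2) : ℚ) : OnePoint ℚ) := by
      intro b
      have e7 : ∀ x y, PP R ⊤ e kk 0 x y = u * (PhiK R e kk' x y / (u * R.om R.i0)) := by
        intro x y
        rw [Brg.PP_zero, ← mul_div_assoc, mul_div_mul_left _ _ hu]
      unfold sgnPart
      rw [e7, e7]
      push_cast
      ring
    beta_reduce
    rw [e6, e6]
    field_simp
  rw [e5, map_mul]
  have e9 : V.valuation (f : ℂ) = 1 := by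
    have := v1 f (by
      intro h
      exact hS.fp (by exact_mod_cast h))
    exact_mod_cast this
  rw [e9, one_mul]
  exact h1

end

end Pool.Agent.N2H


end

section

/-!
# N2, 2 ramified, block H (helper41): the hypotheses of the abstract part
-/

set_option autoImplicit false

namespace Pool.Agent.N2U

open _root_.MU3 _root_.Pool.Agent.MU3A _root_.Pool.Agent.MU3B _root_.Pool.Agent.MU3F _root_.Pool.Agent.MUX _root_.Pool.Agent.MUXH
  _root_.Pool.Agent.MUXHY _root_.Pool.Agent.MuSym _root_.Pool.Agent.NS _root_.Pool.Agent.N2 _root_.Pool.Agent.N2H OnePoint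
open scoped ComplexConjugate

noncomputable section

/-- elementary facts -/
theorem valQ {A B : ℤ} {P : Ideal (OO A B)} {V : ValuationSubring ℂ} {f : ℕ}
    (H : SetQ A B P V f) :
    V.valuation (2 : ℂ) < 1 ∧ (∀ n : ℤ, V.valuation (n : ℂ) ≤ 1) ∧
    (∀ n : ℤ, ¬ (2 : ℤ) ∣ n → V.valuation (n : ℂ) = 1) ∧
    (∀ (r : ℕ) (z : ℂ), r ≠ 0 → z ^ r = 1 → V.valuation z = 1) ∧
    idl (A := A) (B := B) (2 * f) ≠ ⊥ ∧ idl (A := A) (B := B) (2 * f) ≠ ⊤ ∧
    ((2 * f : ℕ) : OO A B) ∈ idl (A := A) (B := B) (2 * f) := by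
  have h3 : V.valuation (2 : ℂ) < 1 := by
    have h1 : emb ((2 : ℕ) : OO A B) ∈ V.nonunits := (H.hV _).2 H.hP.mem
    have h2 : emb ((2 : ℕ) : OO A B) = 2 := by
      unfold emb
      rw [QuadraticAlgebra.re_natCast, QuadraticAlgebra.im_natCast]
      norm_num
    rw [h2, ValuationSubring.mem_nonunits_iff] at h1
    exact h1
  have hle : ∀ z : ℤ, V.valuation (z : ℂ) ≤ 1 := fun z =>
    (V.valuation_le_one_iff _).2 (intCast_mem V z)
  have h3f : ((2 * f : ℕ) : OO A B) ∈ idl (A := A) (B := B) (2 * f) :=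
    Ideal.mem_span_singleton_self _
  have hf0 := H.f0
  refine ⟨h3, hle, ?_, ?_, ?_, ?_, h3f⟩
  · intro n hn
    have hc : IsCoprime n 2 := by
      rw [isCoprime_comm]
      exact (Int.prime_two.coprime_iff_not_dvd).2 hn
    obtain ⟨a, b, hab⟩ := hc
    by_contra hne
    have hlt : V.valuation (n : ℂ) < 1 := lt_of_le_of_ne (hle n) hne
    have h1 : V.valuation ((a : ℂ) * n + b * 2) < 1 := by
      refine lt_of_le_of_lt (V.valuation.map_add _ _) (max_lt ?_ ?_)
      · rw [map_mul]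
        exact mul_lt_one_of_nonneg_of_lt_one_right (hle a) zero_le hlt
      · rw [map_mul]
        exact mul_lt_one_of_nonneg_of_lt_one_right (hle b) zero_le h3
    have h2 : (a : ℂ) * n + b * 2 = 1 := by exact_mod_cast hab
    rw [h2, map_one] at h1
    exact lt_irrefl _ h1
  · intro r z hr hz
    have h1 : V.valuation z ^ r = 1 := by rw [← map_pow, hz, map_one]
    exact (pow_eq_one_iff_of_nonneg zero_le hr).1 h1
  · intro h
    rw [h, Ideal.mem_bot] at h3f
    have h1 := congrArg QuadraticAlgebra.re h3f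
    simp only [QuadraticAlgebra.re_natCast, QuadraticAlgebra.re_zero] at h1
    have h2 : (2 * f : ℕ) = 0 := by exact_mod_cast h1
    omega
  · intro h
    rw [Ideal.eq_top_iff_one, Ideal.mem_span_singleton] at h
    obtain ⟨y, hy⟩ := h
    have h1 := congrArg QuadraticAlgebra.re hy
    rw [QuadraticAlgebra.re_one, QuadraticAlgebra.re_mul, QuadraticAlgebra.re_natCast,
      QuadraticAlgebra.im_natCast, mul_zero, zero_mul, add_zero] at h1
    have h9 : ((2 * f : ℕ) : ℤ) ∣ 1 := ⟨y.re, h1⟩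
    have h10 := Int.le_of_dvd one_pos h9
    have : 0 < f := Nat.pos_of_ne_zero hf0
    omega

/-- the level `f` and the odd part of `A` -/
theorem lev {A : ℤ} {P : Ideal (OO A 0)} {V : ValuationSubring ℂ} {f : ℕ}
    (H : SetQ A 0 P V f) : A < 0 ∧ qR A ∣ f ∧ 3 ∣ f ∧ absD A 0 ∣ 8 * (qR A : ℤ) ∧
      (absD A 0 = 4 * qR A ∨ absD A 0 = 8 * qR A) := by
  have hA0 : A < 0 := by
    have := H.case.neg
    omega
  obtain ⟨hqo, hc⟩ := qR_spec hA0 H.case.mod
  have hfD := H.fD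
  have h2 : (absD A 0 = 4 * qR A ∨ absD A 0 = 8 * qR A) := by
    rcases hc with ⟨-, -, h⟩ | ⟨-, -, h⟩ | ⟨-, -, h⟩
    · left
      unfold absD
      linarith
    · right
      unfold absD
      linarith
    · right
      unfold absD
      linarith
  have h3 : 3 * (qR A : ℤ) ∣ 2 * (f : ℤ) := by
    obtain ⟨t, ht⟩ := hfD
    rcases h2 with h2 | h2
    · refine ⟨t, ?_⟩
      rw [h2] at ht
      linarith
    · refine ⟨2 * t, ?_⟩
      rw [h2] at ht
      linarith
  have hq2 : IsCoprime (qR A : ℤ) 2 := by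
    rw [isCoprime_comm]
    refine (Int.prime_two.coprime_iff_not_dvd).2 ?_
    rintro ⟨t, ht⟩
    obtain ⟨s, hs⟩ := hqo
    omega
  refine ⟨hA0, ?_, ?_, ?_, h2⟩
  · have h4 : (qR A : ℤ) ∣ 2 * (f : ℤ) := (Dvd.intro_left _ rfl).trans h3
    exact_mod_cast hq2.dvd_of_dvd_mul_left h4
  · have h4 : (3 : ℤ) ∣ 2 * (f : ℤ) := (Dvd.intro _ rfl).trans h3
    omega
  · rcases h2 with h2 | h2
    · exact ⟨2, by rw [h2]; ring⟩
    · exact ⟨1, by rw [h2]; ring⟩

/-- coprimality from `e x ≠ 0` -/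
theorem copQ {A : ℤ} {P : Ideal (OO A 0)} {V : ValuationSubring ℂ} {f : ℕ}
    (H : SetQ A 0 P V f) {e : OO A 0 → ℂ} (he : IsEI (idl (A := A) (B := 0) (2 * f)) e)
    {x : OO A 0} (hx0 : e x ≠ 0) : IsCoprime x ((absD A 0 : ℤ) : OO A 0) := by
  obtain ⟨hA0, hqf, -, hD8, -⟩ := lev H
  have h5 := (he.supp _).1 hx0
  have hcop2 : IsCoprime x ((2 : ℕ) : OO A 0) := by
    rw [← Ideal.isCoprime_span_singleton_iff]
    rw [Ideal.isCoprime_iff_sup_eq] at h5 ⊢
    refine top_le_iff.1 (h5 ▸ sup_le_sup_left ?_ _)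
    rw [Ideal.span_singleton_le_span_singleton]
    exact ⟨((f : ℕ) : OO A 0), by push_cast; ring⟩
  have hcopq : IsCoprime x ((qR A : ℕ) : OO A 0) := by
    rw [← Ideal.isCoprime_span_singleton_iff]
    rw [Ideal.isCoprime_iff_sup_eq] at h5 ⊢
    refine top_le_iff.1 (h5 ▸ sup_le_sup_left ?_ _)
    rw [Ideal.span_singleton_le_span_singleton]
    obtain ⟨t, ht⟩ := hqf
    exact ⟨((2 * t : ℕ) : OO A 0), by rw [ht]; push_cast; ring⟩
  have h6 : IsCoprime x (((8 * qR A : ℕ) : OO A 0)) := by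
    have h7 : ((8 * qR A : ℕ) : OO A 0) = ((2 : ℕ) : OO A 0) ^ 3 * ((qR A : ℕ) : OO A 0) := by
      push_cast
      ring
    rw [h7]
    exact (hcop2.pow_right).mul_right hcopq
  obtain ⟨t, ht⟩ := hD8
  have h8 : ((8 * qR A : ℕ) : OO A 0) = ((absD A 0 : ℤ) : OO A 0) * ((t : ℤ) : OO A 0) := by
    have h9 : ((8 * qR A : ℕ) : OO A 0) = ((8 * (qR A : ℤ) : ℤ) : OO A 0) := by
      push_cast
      rfl
    rw [h9, ht]
    push_cast
    rfl
  rw [h8] at h6
  exact h6.of_mul_right_left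

theorem chrU {A : ℤ} {P : Ideal (OO A 0)} {V : ValuationSubring ℂ} {f : ℕ}
    (H : SetQ A 0 P V f) {e : OO A 0 → ℂ} (he : IsEI (idl (A := A) (B := 0) (2 * f)) e)
    {r : ℕ} (hr0 : r ≠ 0) (hr : ∀ x, e x ≠ 0 → e x ^ r = 1) :
    nuX e 1 = 1 ∧ (∀ d d', nuX e (d * d') = nuX e d * nuX e d') ∧
    (∀ d d' : ℤ, ((8 * (qR A * f ^ 2) : ℕ) : ℤ) ∣ d - d' → nuX e d = nuX e d') ∧
    (∀ d, V.valuation (nuX e d) ≤ 1) := by
  obtain ⟨-, vZ, -, vru, hg0, -, hpf⟩ := valQ H
  obtain ⟨hA0, hqf, -, hD8, -⟩ := lev H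
  have hcq : CQ A 0 := H.case.toCQ
  have ev : ∀ x, V.valuation (e x) ≤ 1 := by
    intro x
    by_cases hx : e x = 0
    · rw [hx, map_zero]
      exact zero_le_one
    · exact (vru r (e x) hr0 (hr x hx)).le
  have hcopD : ∀ d : ℤ, e (d : OO A 0) ≠ 0 → IsCoprime d (absD A 0) := fun d hd =>
    Chr.coprime_int (copQ H he hd)
  refine ⟨?_, ?_, ?_, ?_⟩
  · unfold nuX
    have : ((1 : ℤ) : OO A 0) = 1 := by push_cast; rfl
    rw [Chr.chiX_one, this, he.one]
    norm_num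
  · intro d d'
    unfold nuX
    have : ((d * d' : ℤ) : OO A 0) = (d : OO A 0) * (d' : OO A 0) := by push_cast; rfl
    rw [Chr.chiX_mul, this, he.mul]
    push_cast
    ring
  · intro d d' hd
    have hd2 : (8 : ℤ) * (qR A : ℤ) * (f : ℤ) ^ 2 ∣ d - d' := by
      have h5 : ((8 * (qR A * f ^ 2) : ℕ) : ℤ) = (8 : ℤ) * (qR A : ℤ) * (f : ℤ) ^ 2 := by
        push_cast
        ring
      rwa [h5] at hd
    have hD : absD A 0 ∣ d - d' := (hD8.trans (Dvd.intro _ rfl)).trans hd2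
    obtain ⟨t, ht⟩ := hd2
    unfold nuX
    by_cases hcop : IsCoprime d (absD A 0)
    · have h5 : chiX A 0 d' = chiX A 0 d := ((MUXF.xf_CHI A 0 (toCQ hcq) d hcop).2.2 d' hD)
      have h6 : e (d : OO A 0) = e (d' : OO A 0) := by
        apply he.per
        have h7 : (d : OO A 0) - (d' : OO A 0) =
            (((4 * (qR A : ℤ) * f * t : ℤ)) : OO A 0) * ((2 * f : ℕ) : OO A 0) := by
          have h8 : (d : OO A 0) - (d' : OO A 0) = ((d - d' : ℤ) : OO A 0) := by push_cast; rfl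
          rw [h8, ht]
          push_cast
          ring
        rw [h7]
        exact Ideal.mul_mem_left _ _ hpf
      rw [h5, h6]
    · have h5 : e (d : OO A 0) = 0 := by
        by_contra hne
        exact hcop (hcopD d hne)
      have h6 : e (d' : OO A 0) = 0 := by
        by_contra hne
        apply hcop
        obtain ⟨s, hs⟩ := hD
        have h7 : d = d' + absD A 0 * s := by linarith
        rw [h7]
        exact (IsCoprime.add_mul_left_left_iff).2 (hcopD d' hne)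
      rw [h5, h6, mul_zero, mul_zero]
  · intro d
    unfold nuX
    rw [map_mul]
    exact mul_le_one' (vZ _) (ev _)

theorem uQ_alg {A B : ℤ} (hc : CQ A B) (hT : TorX A B) {b : Ideal (OO A B)} {L : PeriodPair}
    {om : ℂ} (hL : IsNL b L om) {V : ValuationSubring ℂ} {u e a1 a3 : ℂ}
    (h : GoodQ V L u e a1 a3) : IsAlgebraic ℚ u := by
  obtain ⟨w1, w2, h1, h2, h3, h4, -, -, -, h5⟩ := h.tor
  have k1 : IsAlgebraic ℚ (L.weierstrassP w1) := xn_alg hc hT hL (n := 3) (by norm_num)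
    (by push_cast; exact h1) h3
  have k2 : IsAlgebraic ℚ (L.weierstrassP w2) := xn_alg hc hT hL (n := 3) (by norm_num)
    (by push_cast; exact h2) h4
  have k3 : IsAlgebraic ℚ (u ^ 2) := by
    rw [h5]
    exact k2.sub k1
  exact k3.of_pow (by norm_num)

/-- algebraicity of the combinations -/
theorem algU {A : ℤ} {P : Ideal (OO A 0)} {V : ValuationSubring ℂ} {f : ℕ}
    (H : SetQ A 0 P V f) (hT : TorX A 0) {ι : Type} [Fintype ι] (R : Reps A 0 (2 * f) ι)
    {u el a1 a3 : ℂ} (hg : GoodQ V (R.L R.i0) u el a1 a3) {e : OO A 0 → ℂ}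
    (he : IsEI (idl (A := A) (B := 0) (2 * f)) e) {r : ℕ} (hr0 : r ≠ 0)
    (hr : ∀ x, e x ≠ 0 → e x ^ r = 1) (kk : ι → ℂ) (hk : ∀ i, kk i = 0 ∨ kk i ^ r = 1)
    (x y : OnePoint ℚ) : IsAlgebraic ℚ (PhiK R e kk x y / (u * R.om R.i0)) := by
  obtain ⟨-, -, -, -, gb, gt, hpf⟩ := valQ H
  have hcq : CQ A 0 := H.case.toCQ
  have hua : IsAlgebraic ℚ u := uQ_alg hcq hT (R.nl R.i0) hg
  have hcop : ∀ i, IsCoprime (MUX.sp ((MUX.nI (R.b i) : ℕ) : OO A 0))
      (idl (A := A) (B := 0) (2 * f)) :=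
    MUXY.y_COP A 0 (2 * f) ι R _ 1 (by rw [pow_one]; exact hpf)
  have hka : ∀ c, IsAlgebraic ℚ (kk c) := by
    intro c
    rcases hk c with h | h
    · rw [h]
      exact isAlgebraic_zero
    · exact IsAlgebraic.of_pow (Nat.pos_of_ne_zero hr0) (by rw [h]; exact isAlgebraic_one)
  have h1 := fun c =>
    (MUXY.y_ALP A 0 hcq hT (2 * f) ι inferInstance R _ e gb gt he hcop r hr0 hr c x y).2
  have e1 : PhiK R e kk x y / (u * R.om R.i0) =
      (∑ c, kk c * (PhiI (R.b c) e x y / R.om R.i0)) * u⁻¹ := by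
    unfold PhiK
    have ho : R.om R.i0 ≠ 0 := (R.nl R.i0).om_ne
    have hu := hg.u0
    rw [mul_comm u, ← div_div, Finset.sum_div, div_eq_mul_inv]
    congr 1
    refine Finset.sum_congr rfl fun c _ => ?_
    ring
  rw [e1]
  exact (sum_alg _ _ fun c _ => (hka c).mul (h1 c)).mul hua.inv

/-- the values are in a finitely generated group -/
theorem finU {A : ℤ} {P : Ideal (OO A 0)} {V : ValuationSubring ℂ} {f : ℕ}
    (H : SetQ A 0 P V f) {ι : Type} [Fintype ι] (R : Reps A 0 (2 * f) ι)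
    {e : OO A 0 → ℂ} (he : IsEI (idl (A := A) (B := 0) (2 * f)) e) (kk : ι → ℂ) (Z : ℂ) :
    ∃ T : Finset ℂ, ∀ x y, PhiK R e kk x y / Z ∈ AddSubgroup.closure (T : Set ℂ) := by
  classical
  obtain ⟨-, -, -, -, gb, -, -⟩ := valQ H
  have h1 := fun c => MUXT.fg_EI A 0 (toCQ H.case.toCQ) (R.b c) _ e (R.nl c).b_ne gb (toEI he)
  choose S hS' using h1
  refine ⟨Finset.univ.biUnion fun c => (S c).image fun t => kk c / Z * t, fun x y => ?_⟩
  have e1 : PhiK R e kk x y / Z = ∑ c, kk c / Z * PhiI (R.b c) e x y := by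
    unfold PhiK
    rw [Finset.sum_div]
    refine Finset.sum_congr rfl fun c _ => ?_
    ring
  rw [e1]
  refine sum_mem fun c _ => ?_
  have h2 := hS' c x y
  have h3 : AddMonoidHom.mulLeft (kk c / Z) (PhiI (R.b c) e x y) ∈
      (AddSubgroup.closure (S c : Set ℂ)).map (AddMonoidHom.mulLeft (kk c / Z)) :=
    AddSubgroup.mem_map_of_mem _ h2
  rw [AddMonoidHom.map_closure] at h3
  refine AddSubgroup.closure_mono ?_ h3
  rintro _ ⟨t, ht, rfl⟩
  simp only [Finset.coe_biUnion, Set.mem_iUnion]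
  exact ⟨c, by simp, Finset.mem_coe.2 (Finset.mem_image.2 ⟨t, ht, rfl⟩)⟩

open Classical in
/-- the part of the weights in `J+` (`s = 1`) or `J-` (`s = -1`) -/
def kS {A : ℤ} {n : ℕ} {ι : Type} (R : Reps A 0 n ι) (s : ℤ) (kk : ι → ℂ) (i : ι) : ℂ :=
  if InH A (s * nI (R.b i)) then kk i else 0

theorem kS_zero {A : ℤ} {n : ℕ} {ι : Type} (R : Reps A 0 n ι) (s : ℤ) (kk : ι → ℂ) (i : ι)
    (h : kS R s kk i ≠ 0) : InH A (s * nI (R.b i)) := by
  unfold kS at h
  by_contra h1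
  rw [if_neg h1] at h
  exact h rfl

theorem kS_pow {A : ℤ} {n : ℕ} {ι : Type} (R : Reps A 0 n ι) (s : ℤ) {kk : ι → ℂ} {r : ℕ}
    (hk : ∀ i, kk i ^ r = 1) (i : ι) : kS R s kk i = 0 ∨ kS R s kk i ^ r = 1 := by
  unfold kS
  split_ifs
  · exact Or.inr (hk i)
  · exact Or.inl rfl

theorem nI_i0 {A : ℤ} {n : ℕ} {ι : Type} (R : Reps A 0 n ι) : nI (R.b R.i0) = 1 := by
  rw [R.b0]
  unfold nI
  have : Subsingleton (OO A 0 ⧸ (⊤ : Ideal (OO A 0))) := Ideal.Quotient.subsingleton_iff.2 rfl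
  exact Nat.card_of_subsingleton 0

/-- the hypotheses of the abstract part -/
theorem hypU (hG : SQ_GPT) (hT' : SQ_TYF) {A : ℤ} {P : Ideal (OO A 0)}
    {V : ValuationSubring ℂ} {f : ℕ}
    (hS : SetQ A 0 P V f) (hT : TorX A 0) {ι : Type} [Fintype ι] (R : Reps A 0 (2 * f) ι)
    {u el a1 a3 : ℂ} (hg : GoodQ V (R.L R.i0) u el a1 a3)
    {e : OO A 0 → ℂ} (he : OddF f e) {r : ℕ} (hr2 : ¬ 2 ∣ r)
    (her : ∀ x, e x ≠ 0 → e x ^ (2 * r) = 1) {kk : ι → ℂ} (hkk : ∀ i, kk i ^ (2 * r) = 1) :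
    ∃ (pi : ℂ) (KI : Subfield ℂ), HypU V (qR A * f ^ 2) 4 (nuX e)
      (fun x y => PhiU R e (kS R 1 kk) (kS R (-1) kk) x y / (u * R.om R.i0))
      (fun x y => PhiK R e (kS R 1 kk) x y / (u * R.om R.i0)) pi KI (ex (1 / 8)) (hR A) := by
  obtain ⟨pi, KI, typ, unr, hlf, vpi⟩ := hT' A 0 P V f hS hT ι R u el a1 a3 hg e he r hr2 her
  obtain ⟨v2, vZ, v1, vr, gb, gt, h2f⟩ := valQ hS
  obtain ⟨hA0, hqf, h3f, hD8, hDc⟩ := lev hS
  have hcq : CQ A 0 := hS.case.toCQ
  have hA := hS.case.mod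
  have heI := he.toIsEI
  have hr0 : r ≠ 0 := by
    rintro rfl
    exact hr2 (dvd_zero 2)
  have hr20 : 2 * r ≠ 0 := by omega
  have hf0 := hS.f0
  obtain ⟨nu1, num, nuper, nuv⟩ := chrU hS heI hr20 her
  obtain ⟨hqo, hqc⟩ := qR_spec hA0 hA
  have hq0 : qR A ≠ 0 := by
    rintro h
    rw [h] at hqo
    exact absurd hqo (by decide)
  have hf3 : 3 ≤ f := Nat.le_of_dvd (Nat.pos_of_ne_zero hf0) h3f
  have hN2 : 2 ≤ qR A * f ^ 2 := by
    have h1 : 1 ≤ qR A := Nat.one_le_iff_ne_zero.2 hq0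
    nlinarith
  have hDz : absD A 0 * ((2 * f : ℕ) : ℤ) ^ 2 ∣ ((2 ^ (4 + 1) * (qR A * f ^ 2) : ℕ) : ℤ) := by
    rcases hDc with h | h
    · exact ⟨2, by rw [h]; push_cast; ring⟩
    · exact ⟨1, by rw [h]; push_cast; ring⟩
  have hDne : 2 ^ (4 + 1) * (qR A * f ^ 2) ≠ 0 := by positivity
  have hq2 : ¬ (2 : ℤ) ∣ ((qR A : ℕ) : ℤ) := by
    rintro ⟨t, ht⟩
    obtain ⟨s, hs⟩ := hqo
    omega
  have hk0 : V.valuation (kS R 1 kk R.i0) = 1 := by
    have h1 : kS R 1 kk R.i0 = kk R.i0 := by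
      unfold kS
      rw [if_pos]
      rw [nI_i0]
      exact Or.inl rfl
    rw [h1]
    exact vr _ _ hr20 (hkk _)
  have hGG := hG A 0 P V f hS hT ι R u el a1 a3 hg e heI (2 * r) hr20 her (kS R 1 kk) hk0
  have hsymK : ∀ k' : ι → ℂ, IsSym (2 ^ (4 + 1) * (qR A * f ^ 2)) (nuX e)
      (fun x y => PhiK R e k' x y / (u * R.om R.i0)) := by
    intro k'
    have h1 : ∀ c, IsSym (2 ^ (4 + 1) * (qR A * f ^ 2)) (nuX e) (PhiI (R.b c) e) := fun c =>
      MUXT.sym_EI (toCQ hcq) (R.b c) (R.nl c).b_ne _ e (toEI heI) (2 * f) (by omega) h2f _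
        hDne hDz
    exact Sym.isSym_lin h1 k' (u * R.om R.i0)
  have hsplit : ∀ x y, PhiU R e (kS R 1 kk) (kS R (-1) kk) x y / (u * R.om R.i0) =
      PhiK R e (kS R 1 kk) x y / (u * R.om R.i0) +
      PhiK R e (kS R (-1) kk) (mob (-1) 0 0 1 x) (mob (-1) 0 0 1 y) / (u * R.om R.i0) := by
    intro x y
    unfold PhiU
    rw [add_div]
  have hPn : ∀ i, kS R 1 kk i ≠ 0 → InH A (nI (R.b i)) := by
    intro i hi
    have := kS_zero R 1 kk i hi
    rwa [one_mul] at this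
  have hMn : ∀ i, kS R (-1) kk i ≠ 0 → InH A (-(nI (R.b i) : ℤ)) := by
    intro i hi
    have := kS_zero R (-1) kk i hi
    rwa [neg_one_mul] at this
  refine ⟨pi, KI, ?_⟩
  exact
    { vp := v2
      N0 := hN2
      cop := by
        rw [Nat.Prime.coprime_iff_not_dvd Nat.prime_two]
        intro h
        rcases (Nat.Prime.dvd_mul Nat.prime_two).1 h with h | h
        · exact hq2 (by exact_mod_cast h)
        · exact hS.fp (Nat.prime_two.dvd_of_dvd_pow h)
      nu1 := nu1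
      num := num
      nuper := nuper
      nuv := nuv
      sym := by
        have h1 := isSym_add (hsymK (kS R 1 kk)) (isSym_neg (hsymK (kS R (-1) kk)))
        have h2 : (fun x y => PhiU R e (kS R 1 kk) (kS R (-1) kk) x y / (u * R.om R.i0)) =
            (fun x y => PhiK R e (kS R 1 kk) x y / (u * R.om R.i0) +
            PhiK R e (kS R (-1) kk) (mob (-1) 0 0 1 x) (mob (-1) 0 0 1 y) /
              (u * R.om R.i0)) := by
          funext x y
          exact hsplit x y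
        rw [h2]
        exact h1
      om8 := om8_prim
      hh := by
        rcases hR_cases hA with ⟨-, h⟩ | ⟨-, h⟩ | ⟨-, h⟩ <;> rw [h] <;> norm_num
      rel := by
        intro x
        have h1 := relU hcq gb heI R (kS R 1 kk) (kS R (-1) kk)
          (by
            intro i hi y hy hy0
            have h8 := inH_nI hcq hA hqf heI (R.nl i).b_ne 1
              (by rw [one_mul]; exact hPn i hi) hy hy0
            rcases h8 with h8 | h8
            · rwa [one_mul] at h8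
            · exact absurd (Or.inl rfl) h8)
          (by
            intro i hi y hy hy0
            have h8 := inH_nI hcq hA hqf heI (R.nl i).b_ne (-1)
              (by rw [neg_one_mul]; exact hMn i hi) hy hy0
            rcases h8 with h8 | h8
            · rwa [neg_one_mul] at h8
            · exact absurd (Or.inr rfl) h8) x
        beta_reduce
        linear_combination (1 / (u * R.om R.i0)) * h1
      alg := by
        intro x y
        beta_reduce
        rw [hsplit]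
        exact (algU hS hT R hg heI hr20 her _ (kS_pow R 1 hkk) x y).add
          (algU hS hT R hg heI hr20 her _ (kS_pow R (-1) hkk) _ _)
      fin := by
        classical
        obtain ⟨T1, hT1⟩ := finU hS R heI (kS R 1 kk) (u * R.om R.i0)
        obtain ⟨T2, hT2⟩ := finU hS R heI (kS R (-1) kk) (u * R.om R.i0)
        refine ⟨T1 ∪ T2, fun x y => ?_⟩
        beta_reduce
        rw [hsplit]
        refine add_mem ?_ ?_
        · exact AddSubgroup.closure_mono (by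
            rw [Finset.coe_union]
            exact Set.subset_union_left) (hT1 x y)
        · exact AddSubgroup.closure_mono (by
            rw [Finset.coe_union]
            exact Set.subset_union_right) (hT2 _ _)
      typ := by
        intro x y
        obtain ⟨w1, hw1, e1⟩ := typ (kS R 1 kk) (kS_pow R 1 hkk) x y
        obtain ⟨w2, hw2, e2⟩ := typ (kS R (-1) kk) (kS_pow R (-1) hkk) (mob (-1) 0 0 1 x)
          (mob (-1) 0 0 1 y)
        refine ⟨w1 + w2, add_mem hw1 hw2, ?_⟩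
        beta_reduce
        rw [hsplit, e1, e2]
        ring
      unr := unr
      hlf := hlf
      vpi := vpi
      G := by
        intro N' hN' hd
        refine hGG N' hN' ?_
        refine hDz.trans ?_
        exact_mod_cast hd
      prj := prjU V hcq hA vr (by
          have := v1 _ hq2
          exact_mod_cast this) hqf gb heI R (kS R 1 kk) (kS R (-1) kk) hPn hMn
        (u * R.om R.i0) }

end

end Pool.Agent.N2U


end

section

/-!
# N2, 2 ramified, block H (helper41): the final statement `SQ_HFIN`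
-/

set_option autoImplicit false

namespace Pool.Agent.N2U

open _root_.MU3 _root_.Pool.Agent.MU3A _root_.Pool.Agent.MU3B _root_.Pool.Agent.MU3F _root_.Pool.Agent.MUX _root_.Pool.Agent.MUXH
  _root_.Pool.Agent.MUXHY _root_.Pool.Agent.MuSym _root_.Pool.Agent.NS _root_.Pool.Agent.N2 _root_.Pool.Agent.N2H OnePoint
open scoped ComplexConjugate

noncomputable section

theorem dH_eq (A : ℤ) (hA : A % 4 = 2 ∨ A % 4 = 3) : dH (hR A) = dR A := by
  unfold dH dR
  rcases hR_cases hA with ⟨h0, h⟩ | ⟨h0, h⟩ | ⟨h0, h⟩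
  · rw [h, if_pos rfl, if_pos h0]
  · rw [h, if_neg (by norm_num), if_neg (by omega)]
  · rw [h, if_neg (by norm_num), if_neg (by omega)]

/-- the sums over the classes `c`, `-c` see only one part of the weights -/
theorem part {A : ℤ} {P : Ideal (OO A 0)} {V : ValuationSubring ℂ} {f : ℕ}
    (H : SetQ A 0 P V f) {ι : Type} (R : Reps A 0 (2 * f) ι) {e : OO A 0 → ℂ}
    (he : IsEI (idl (A := A) (B := 0) (2 * f)) e) (kk : ι → ℂ) (m M : ℕ) (hM : 8 ∣ M) (s : ℤ)
    (hs : s = 1 ∨ s = -1) (i : ι) (c : ℤ) (hc : (8 : ℤ) ∣ c - 1) :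
    kk i * SnX R m M e i (s * c) = kS R s kk i * SnX R m M e i (s * c) := by
  obtain ⟨hA0, hqf, -, -, -⟩ := lev H
  have hA := H.case.mod
  unfold kS
  by_cases h : InH A (s * nI (R.b i))
  · rw [if_pos h]
  · rw [if_neg h, zero_mul]
    have htop : (⊤ : Ideal (OO A 0)) ≠ ⊥ := top_ne_bot
    rw [SnX_zero R m M e i (s * c) 8 (by exact_mod_cast hM), mul_zero]
    intro x hx0 h1
    apply h
    obtain ⟨h2, -⟩ := exp_facts H.case.toCQ hA hqf he htop (x := x) Submodule.mem_top hx0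
    have h3 : InH A (nm x * (s * nI (R.b i))) := by
      refine (inH_congr ?_).2 (inH_one A)
      have hss : s * s = 1 := by rcases hs with rfl | rfl <;> norm_num
      obtain ⟨t, ht⟩ := h1
      obtain ⟨w, hw⟩ := hc
      refine ⟨s * t + w, ?_⟩
      linear_combination s * ht + (c : ℤ) * hss + hw
    exact (inH_mul hA h2).1 h3

/-- the character sums, `2` ramified -/
theorem tu_HFIN (hHU : Su_HU) (hG : SQ_GPT) (hT' : SQ_TYF) : SQ_HFIN := by
  intro A B P V f hS hT ι _ R u el a1 a3 hg e he r hr2 her kk hkk n₀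
  have hB := hS.case.b0
  subst hB
  obtain ⟨v2, vZ, v1, vr, gb, gt, h2f⟩ := valQ hS
  have hcq : CQ A 0 := hS.case.toCQ
  have hA := hS.case.mod
  have heI := he.toIsEI
  have hf0 := hS.f0
  set kk' : ι → ℂ := fun c => kk c / e ((nI (R.b c) : ℕ) : OO A 0) with hkk'
  have heN : ∀ c, e ((nI (R.b c) : ℕ) : OO A 0) ≠ 0 := Brg.e_nI R heI h2f
  have hk1 : ∀ c, kk' c ^ (2 * r) = 1 := by
    intro c
    rw [hkk']
    beta_reduce
    rw [div_pow, hkk, her _ (heN c), div_one]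
  obtain ⟨pi, KI, hyp⟩ := hypU hG hT' hS hT R hg he hr2 her hk1
  have haz : ((aX 2 f : ℕ) : ℤ) - 1 = 8 * f := by
    unfold aX q0
    push_cast
    norm_num
  have ha8 : (8 : ℤ) ∣ ((aX 2 f : ℕ) : ℤ) - 1 := by rw [haz]; exact Dvd.intro _ rfl
  have ha1 : ((aX 2 f : ℕ) : ℤ) ≠ 1 := by
    intro h
    rw [h] at haz
    omega
  obtain ⟨n, hn, hmain⟩ := hHU V (qR A * f ^ 2) 4 (nuX e) _ _ pi KI (ex (1 / 8)) (hR A) hyp
    ((aX 2 f : ℕ) : ℤ) 25 ha8 ha1 (by norm_num) (by norm_num) (n₀ + 3)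
  obtain ⟨m, rfl⟩ : ∃ m, n = m + 2 := ⟨n - 2, by omega⟩
  have hm1 : 1 ≤ m := by omega
  refine ⟨m, by omega, ?_⟩
  have hM : q0 2 * 2 ^ m = 2 ^ (m + 2) := by
    unfold q0
    norm_num
    ring
  have h8M : 8 ∣ q0 2 * 2 ^ m := by
    rw [hM]
    obtain ⟨k, rfl⟩ : ∃ k, m = k + 1 := ⟨m - 1, by omega⟩
    exact ⟨2 ^ k, by ring⟩
  have hQS := qsu MUXF.xf_F5 MUXF.xf_PRD hcq hf0 R heI h2f kk (kS R 1 kk) (kS R (-1) kk) 1 m
    (u := 25) (by norm_num)
    (by
      intro i c hc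
      have := part hS R heI kk (lvX 2 f m) (q0 2 * 2 ^ m) h8M 1 (Or.inl rfl) i c hc
      rwa [one_mul] at this)
    (by
      intro i c hc
      have := part hS R heI kk (lvX 2 f m) (q0 2 * 2 ^ m) h8M (-1) (Or.inr rfl) i c hc
      rwa [neg_one_mul] at this)
  rw [hM] at hQS
  have hL : ∑ j ∈ Finset.range 2, (-1 : ℂ) ^ (1 - j) *
        (STX R (lvX 2 f m) (2 ^ (m + 2)) (aX 2 f) e kk (25 ^ j) +
          STX R (lvX 2 f m) (2 ^ (m + 2)) (aX 2 f) e kk (-(25 ^ j))) =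
      ∑ j ∈ Finset.range (1 + 1), ((-1 : ℂ) ^ (1 - j) * ((1 : ℕ).choose j : ℂ)) *
        (STX R (lvX 2 f m) (2 ^ (m + 2)) (aX 2 f) e kk (25 ^ j) +
          STX R (lvX 2 f m) (2 ^ (m + 2)) (aX 2 f) e kk (-25 ^ j)) := by
    refine Finset.sum_congr rfl fun j hj => ?_
    have hj2 : j = 0 ∨ j = 1 := by
      have := Finset.mem_range.1 hj
      omega
    rcases hj2 with rfl | rfl <;> simp
  rw [hL, hQS]
  have hprim := Hfx.prim 2 (m + 2) Nat.prime_two (-(25 ^ 1 * ((aX 2 f : ℕ) : ℤ) ^ 2)) (by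
    intro h
    rw [dvd_neg] at h
    rcases Int.prime_two.dvd_or_dvd h with h | h
    · norm_num at h
    · have h5 := Int.prime_two.dvd_of_dvd_pow h
      omega)
  have hζ : ex (((-(25 ^ 1 * ((aX 2 f : ℕ) : ℤ) ^ 2) : ℤ) : ℚ) / ((2 ^ (m + 2) : ℕ) : ℚ)) =
      ex (((-(25 ^ 1 * ((aX 2 f : ℕ) : ℤ) ^ 2) : ℤ) : ℚ) / (2 : ℕ) ^ (m + 2)) := by
    push_cast
    rfl
  rw [hζ]
  set ζ : ℂ := ex (((-(25 ^ 1 * ((aX 2 f : ℕ) : ℤ) ^ 2) : ℤ) : ℚ) / (2 : ℕ) ^ (m + 2)) with hζd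
  have hζ8 : ζ ^ 2 ^ (m + 2 - 3) * ex (1 / 8) = 1 := by
    rw [hζd, ex_pow', ← ex_add']
    obtain ⟨k, rfl⟩ : ∃ k, m = k + 1 := ⟨m - 1, by omega⟩
    have e1 : k + 1 + 2 - 3 = k := by omega
    rw [e1]
    obtain ⟨w, hw⟩ : (8 : ℤ) ∣ 1 - 25 ^ 1 * ((aX 2 f : ℕ) : ℤ) ^ 2 := by
      have h1 : ((aX 2 f : ℕ) : ℤ) = 1 + 8 * f := by linarith
      rw [h1]
      exact ⟨-(3 + 25 * (2 * f + 8 * f ^ 2)), by ring⟩
    rw [← ex_int' w]
    congr 1
    have h2 : (1 : ℚ) - 25 ^ 1 * ((aX 2 f : ℕ) : ℚ) ^ 2 = 8 * w := by exact_mod_cast hw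
    have h3 : ((2 : ℚ) ^ k) ≠ 0 := pow_ne_zero _ (by norm_num)
    push_cast
    rw [show ((2 : ℚ) ^ (k + 1 + 2)) = 2 ^ k * 8 by ring]
    field_simp
    linear_combination h2
  have h1 := hmain ζ hprim hζ8
  have hu := hg.u0
  have hPPU : ∀ b : ℤ, PP R ⊤ e (kS R 1 kk) 0 ∞ ((b / ((2 ^ (m + 2) : ℕ) : ℚ) : ℚ) : OnePoint ℚ) +
      PP R ⊤ e (kS R (-1) kk) 0 (mob (-1) 0 0 1 ∞)
        (mob (-1) 0 0 1 ((b / ((2 ^ (m + 2) : ℕ) : ℚ) : ℚ) : OnePoint ℚ)) =
      u * (PhiU R e (kS R 1 kk') (kS R (-1) kk') ∞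
        (((b : ℚ) / 2 ^ (m + 2) : ℚ) : OnePoint ℚ) / (u * R.om R.i0)) := by
    intro b
    have e7 : ∀ s x y, PP R ⊤ e (kS R s kk) 0 x y = PhiK R e (kS R s kk') x y / R.om R.i0 := by
      intro s x y
      rw [Brg.PP_zero]
      unfold PhiK
      congr 1
      refine Finset.sum_congr rfl fun c _ => ?_
      unfold kS
      beta_reduce
      by_cases h : InH A (s * nI (R.b c))
      · rw [if_pos h, if_pos h]
      · rw [if_neg h, if_neg h, zero_div]
    rw [e7, e7]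
    unfold PhiU
    rw [← mul_div_assoc, mul_div_mul_left _ _ hu, add_div]
    push_cast
    rfl
  have e5 : (1 / 2 * (2 * (f : ℂ) * ∑ b ∈ Finset.range (2 ^ (m + 2)), ζ ^ b *
      comb ((aX 2 f : ℕ) : ℤ) 25 1 (fun b => PP R ⊤ e (kS R 1 kk) 0 ∞
          ((b / ((2 ^ (m + 2) : ℕ) : ℚ) : ℚ) : OnePoint ℚ) +
        PP R ⊤ e (kS R (-1) kk) 0 (mob (-1) 0 0 1 ∞)
          (mob (-1) 0 0 1 ((b / ((2 ^ (m + 2) : ℕ) : ℚ) : ℚ) : OnePoint ℚ))) b)) / u =
      f * ∑ b ∈ Finset.range (2 ^ (m + 2)), ζ ^ b *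
      comb ((aX 2 f : ℕ) : ℤ) 25 1 (fun b => PhiU R e (kS R 1 kk') (kS R (-1) kk') ∞
        (((b : ℚ) / 2 ^ (m + 2) : ℚ) : OnePoint ℚ) / (u * R.om R.i0)) b := by
    have e0 : ∀ S : ℂ, (1 / 2 * (2 * (f : ℂ) * S)) / u = f * (S / u) := by
      intro S
      ring
    rw [e0, Finset.sum_div]
    congr 1
    refine Finset.sum_congr rfl fun b _ => ?_
    rw [mul_div_assoc]
    congr 1
    unfold comb
    rw [Finset.sum_div]
    refine Finset.sum_congr rfl fun j _ => ?_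
    rw [mul_div_assoc]
    congr 1
    beta_reduce
    rw [hPPU, hPPU]
    field_simp
  rw [e5, map_mul]
  have e9 : V.valuation (f : ℂ) = 1 := by
    have := v1 f (by
      intro h
      exact hS.fp (by exact_mod_cast h))
    exact_mod_cast this
  rw [e9, one_mul, ← dH_eq A hA]
  exact h1

end

end Pool.Agent.N2U


end

section

/-!
# MUX-2N, block I2N, module INP (helper36): the inputs of block K
-/

set_option autoImplicit false

namespace Pool.Agent.N2I

open _root_.MU3 _root_.Pool.Agent.MU3 _root_.Pool.Agent.MU3A _root_.Pool.Agent.MU3B _root_.Pool.Agent.RI _root_.Pool.Agent.RID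
  _root_.Pool.Agent.MUX _root_.Pool.Agent.MUXK _root_.Pool.Agent.MUXI _root_.Pool.Agent.NSI _root_.Pool.Agent.N2

noncomputable section

/-- (INP) the inputs of block K -/
theorem tt_INP (h1 : St_I31) (h2 : Sn_LEM1) (h3 : Sn_NRX) : St_INP := by
  intro A B V f hS hTor ι iι R u el a1 a3 hG K₀ K Bn ik iK iKB hX hKT hk hk₀ hkK S c c₀ n₁ hW C hE
    hc₀
  have iP : Fact (Nat.Prime 2) := ⟨Nat.prime_two⟩
  have iK₀ : FiniteDimensional ℚ K₀ := Pool.Agent.NSI.INP.fd hX.le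
  have iKB₀ : ∀ n, FiniteDimensional ℚ ↥(K₀ ⊔ Bn n) := fun n =>
    Pool.Agent.NSI.INP.fd (E' := K ⊔ Bn n) (sup_le_sup_right hX.le _)
  have hNr := h3 2 (kk A B) K₀ K Bn hX hk hk₀ S c c₀ n₁ hW
  have hI3 : ∀ (χ : (letI := algC hkK; (↥K₀ ≃ₐ[kk A B] ↥K₀) →*
      (IsLocalRing.ResidueField V)ˣ)) (N n₀ : ℕ), ∃ n, n₀ ≤ n ∧
      I3At (IsLocalRing.ResidueField V) 2 (kk A B) K₀ Bn hkK χ N n (hk₀ n) (c₀ n)
        (hW.mem₀ n) := by
    intro χ N n₀
    refine h2 (IsLocalRing.ResidueField V) 2 (kk A B) K₀ Bn hX.b0 hX.cop hX.om hk₀ hkK c₀ hW.mem₀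
      (Pool.Agent.NSI.INP.c_ne hW) n₁ hNr χ (fun n₀ => ?_) N n₀
    exact h1 A B V f hS hTor ι R u el a1 a3 hG K₀ Bn hX.b0 hX.cop hKT hk₀ hkK C hE c₀ hW.mem₀ hc₀ χ n₀
  exact
    { mem := hW.mem
      ne := hW.ne
      mem₀ := hW.mem₀
      norm := hW.norm
      prime := hW.prime
      su := hW.su
      nrm := hW.nrm
      kol := hW.kol
      i3 := hI3 }

end

end Pool.Agent.N2I


end
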