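import Mathlib
import Pool.Agent.MVF.C120
import Pool.Agent.MVF.C127
import Pool.Agent.MVF.C129
import Pool.Agent.MVF.C138

/-! Parts: ME.X.StHX2, ME.X.HY_QSX, N2.GS_Gpt, ME2.G_GPT4, N2.IR_INPG -/

section

/-!
# MUX, block H, bridge (helper16): from theta series of ideals to `HypA`, and the final statement of the block

`StHX.lean` (helper27) is the abstract part: `HypA` implies `Sx_HA`. Here: for the family `R : Reps A B (p * f) ι`,
an odd character `e` of conductor dividing `f cjI P` and units `kk : ι → ℂ` the symbols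
`PP R P e kk i = (Σ_c kk_c/e(N b_c) PhiI (b_c P^i) e)/om_(i0)` satisfy `HypA` (`Sy_BRG`), the quantity of the final
statement is a character sum of `PP .. 0` (`Sy_QSX`), and the final statement is `Sy_HFX`. Both `p = 3` and `p = 2`
(for `p = 2` with the factor `1/2`).

Every statement is a `def Sy_X : Prop`; a module proves `theorem ty_X (h : ..) ... : Sy_X` in the file `HY_X.lean`,
namespace `Pool.Agent.MUXHY`; the hypotheses are the statements named under USES (fewer is fine). `Sx_..` in USES is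
`Pool.Agent.MUXF.Sx_..` (`StXF.lean`), `Xs_FTI` is `Pool.Agent.MUXT.Xs_FTI` (`StXT.lean`). The structures `CQ`,
`IsEI`, `IsLI` exist twice (`MUX`, `MUXF`), with the conversions `toCQ`, `toEI`, `toLI` below; all functions
(`nI`, `cjI`, `PhiI`, `chiX` = `chiQ`, `nuX` = `nuQ`) are equal by `rfl` (lemmas below). `v = V.valuation`:
`v x ≤ 1 ↔ x ∈ V`, `v x < 1 ↔ x ∈ V.nonunits` (`ValuationSubring.valuation_le_one_iff`,
`ValuationSubring.mem_nonunits_iff`).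
-/

set_option autoImplicit false

namespace Pool.Agent.MUXHY

open _root_.MU3 _root_.Pool.Agent.MU3A _root_.Pool.Agent.MU3B _root_.Pool.Agent.MU3F _root_.Pool.Agent.MUX _root_.Pool.Agent.ME _root_.Pool.Agent.MUXH
  _root_.Pool.Agent.MuSym OnePoint
open scoped ComplexConjugate

noncomputable section

/-! ## The two sets of definitions -/

section
variable {A B : ℤ}

end

/-! ## The cycle of symbols -/

/-- `PP_E i = (Σ_c kk_c/e(N b_c) PhiI (b_c P^i) e)/om_(i0)` -/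
def PP_E {A B : ℤ} {n : ℕ} {ι : Type} [Fintype ι] (R : RepsE A B n ι) (P : Ideal (OO A B))
    (e : OO A B → ℂ) (kk : ι → ℂ) (i : ℕ) (x y : OnePoint ℚ) : ℂ :=
  (∑ c, kk c / e ((nI (R.b c) : ℕ) : OO A B) * PhiI (R.b c * P ^ i) e x y) / R.om R.i0

/-! ## Inputs from other blocks -/

/-! ## Valuations and ideals -/

/-! ## The character -/

/-! ## The symbols `PP i` -/

/-! ## The character sum -/

/-- (QSX) the quantity of the final statement as a character sum. Model: `MU3/H_QS.lean` (copy and adapt).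

USES `Sx_F5`, `Sx_PRD`. PROOF. `m = lvX p f n = f M`, `M = q0 p * p ^ n` (a power of `p`). `Sx_F5` for `b_i`, `L_i`, `om_i` (`nl i`; `m ∈ g` because `p f ∈ g` and `p ∣ q0 p`; `N b_i` is prime to `p f`, so to `m`): `SnXE i c = (2 f/(om_(i0) e(N b_i))) Σ_(b < M) ex(-b c/M) PhiI b_i e ∞ (b/M)`
(`mu_i = om_i N b_i/om_(i0)`, `m/M = f`), so `Σ_i kk_i SnXE i c = 2 f Σ_b ex(-b c/M) F b`, `F b = PP_E R P e kk 0 ∞ (b/M)` (`P ^ 0 = 1`). `F` depends only on the class of `b` modulo `M`: `Sx_PRD` gives `IvI b e (r + k) = IvI b e r`. The rest as in `H_QS.lean` with `4`, `6 f`, `3 ^ (n + 1)`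
replaced by `1 + q0 p`, `2 q0 p f`, `M`: both `1 + q0 p` and `a = aX p f = 1 + 2 q0 p f` are prime to `M`; the substitutions `b = u^(N-j) b'` and `b = u^(N-j) a² b'` (`u = 1 + q0 p`) in the sums `W c = Σ_b ex(-b c/M) (F b + s F (-b))`. -/
def Sy_QSX_E : Prop :=
  ∀ (p : ℕ) (_ : p.Prime) (A B : ℤ) (_ : CQ A B) (P : Ideal (OO A B)) (f : ℕ) (_ : f ≠ 0)
    (ι : Type) (_ : Fintype ι) (R : RepsE A B (p * f) ι) (g : Ideal (OO A B)) (e : OO A B → ℂ)
    (_ : IsEI g e) (_ : ((p * f : ℕ) : OO A B) ∈ g) (kk : ι → ℂ) (s : ℤ) (N n : ℕ),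
    ∑ j ∈ Finset.range (N + 1), ((-1 : ℂ) ^ (N - j) * (N.choose j : ℂ)) *
        (STXE R (lvX p f n) (q0 p * p ^ n) (aX p f) e kk ((1 + (q0 p : ℤ)) ^ j) +
          s * STXE R (lvX p f n) (q0 p * p ^ n) (aX p f) e kk (-(1 + (q0 p : ℤ)) ^ j)) =
      2 * f * ∑ b ∈ Finset.range (q0 p * p ^ n),
        ex (-((1 + (q0 p : ℚ)) ^ N * (aX p f : ℚ) ^ 2) / ((q0 p * p ^ n : ℕ) : ℚ)) ^ b *
          comb (aX p f) (1 + (q0 p : ℤ)) N (fun b => sgnPart (s : ℂ) (PP_E R P e kk 0) ∞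
            ((b / ((q0 p * p ^ n : ℕ) : ℚ) : ℚ) : OnePoint ℚ)) b

/-! ## The final statement -/

end

end Pool.Agent.MUXHY


end

section

/-!
# MUX, block HY, QSX: the quantity of the final statement as a character sum
-/

set_option autoImplicit false

namespace Pool.Agent.MUXHY

open _root_.MU3 _root_.Pool.Agent.MU3A _root_.Pool.Agent.MU3B _root_.Pool.Agent.MU3F _root_.Pool.Agent.MUX _root_.Pool.Agent.ME _root_.Pool.Agent.MUXH
  _root_.Pool.Agent.MuSym OnePoint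
open scoped ComplexConjugate

noncomputable section

namespace Qsx

open _root_.Pool.Agent.MU3H.Qs

theorem PP_per_E (h2 : MUXF.Sx_PRD) {A B : ℤ} (hC : CQ A B) {m : ℕ} {ι : Type} [Fintype ι]
    (R : RepsE A B m ι) (P : Ideal (OO A B)) (e : OO A B → ℂ) (kk : ι → ℂ) (r : ℚ) (k : ℤ) :
    PP_E R P e kk 0 ∞ ((r + k : ℚ) : OnePoint ℚ) = PP_E R P e kk 0 ∞ ((r : ℚ) : OnePoint ℚ) := by
  unfold PP_E
  congr 1
  refine Finset.sum_congr rfl fun c _ => ?_
  rw [PhiI_per h2 hC]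
  rw [pow_zero, mul_one]
  exact (R.nl c).b_ne

theorem SnX_eq_E (h1 : MUXF.Sx_F5) {A B : ℤ} (hC : CQ A B) {p f : ℕ} (hp : p.Prime) (hf : f ≠ 0)
    {ι : Type} (R : RepsE A B (p * f) ι) {g : Ideal (OO A B)} {e : OO A B → ℂ} (he : IsEI g e)
    (hg : ((p * f : ℕ) : OO A B) ∈ g) (n : ℕ) (i : ι) (c : ℤ) :
    SnXE R (lvX p f n) (q0 p * p ^ n) e i c =
      (2 * f / R.om R.i0) * ((1 / e ((nI (R.b i) : ℕ) : OO A B)) *
        ∑ β ∈ Finset.range (q0 p * p ^ n), ex (-(β * c) / ((q0 p * p ^ n : ℕ) : ℚ)) *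
          PhiI (R.b i) e ∞ (((β / ((q0 p * p ^ n : ℕ) : ℚ) : ℚ) : ℚ) : OnePoint ℚ)) := by
  have hM0 : q0 p * p ^ n ≠ 0 := mul_ne_zero (q0_ne hp) (pow_ne_zero _ hp.ne_zero)
  have hm : lvX p f n = f * (q0 p * p ^ n) := by unfold lvX; ring
  have hm0 : lvX p f n ≠ 0 := by rw [hm]; exact mul_ne_zero hf hM0
  obtain ⟨t, ht⟩ := q0_dvd p
  have hmg : ((lvX p f n : ℕ) : OO A B) ∈ g := by
    have h3 : ((lvX p f n : ℕ) : OO A B) = ((p * f : ℕ) : OO A B) * ((t * p ^ n : ℕ) : OO A B) := by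
      rw [← Nat.cast_mul, hm, ht]
      congr 1
      ring
    rw [h3]
    exact Ideal.mul_mem_right _ _ hg
  have hcop : (nI (R.b i)).Coprime (lvX p f n) := by
    have hc := R.cop i
    have hcp : (nI (R.b i)).Coprime p := Nat.Coprime.coprime_mul_right_right hc
    have hcf : (nI (R.b i)).Coprime f := Nat.Coprime.coprime_mul_left_right hc
    rw [hm]
    exact Nat.Coprime.mul_right hcf (Nat.Coprime.mul_right (cop_q0 hcp)
      (Nat.Coprime.pow_right n hcp))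
  have hN0 : nI (R.b i) ≠ 0 := by
    intro h0
    have hc := R.cop i
    rw [h0, Nat.coprime_zero_left] at hc
    have h5 := Nat.eq_one_of_mul_eq_one_right hc
    exact hp.one_lt.ne' h5
  obtain ⟨heN, h5⟩ := h1 A B (toCQ hC) (R.b i) (R.L i) (R.om i) (toLI (R.nl i).toIsLI) g e
    (toEI he) (lvX p f n) (q0 p * p ^ n) hm0 hmg hM0 ⟨f, by rw [hm]; ring⟩ hcop
  have h6 := h5 c
  have h7 : SnXE R (lvX p f n) (q0 p * p ^ n) e i c = muXE R i *
      (2 * (lvX p f n : ℂ) / (R.om i * (nI (R.b i) : ℕ) * ((q0 p * p ^ n : ℕ) : ℂ) *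
        e ((nI (R.b i) : ℕ) : OO A B)) * ∑ β ∈ Finset.range (q0 p * p ^ n),
        ex (-(β * c) / ((q0 p * p ^ n : ℕ) : ℚ)) *
          PhiI (R.b i) e ∞ (((β / ((q0 p * p ^ n : ℕ) : ℚ) : ℚ) : ℚ) : OnePoint ℚ)) := by
    unfold SnXE
    rw [← PhiI_eq]
    refine congrArg (muXE R i * ·) ?_
    refine Eq.trans ?_ h6
    unfold sumMod
    refine finsum_congr fun q => ?_
    beta_reduce
    have hiff : ((q0 p * p ^ n : ℕ) : ℤ) ∣ nm (Quotient.out q) * (nI (R.b i) : ℤ) - c ↔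
        ((q0 p * p ^ n : ℕ) : ℤ) ∣ (MUXF.nI (R.b i) : ℤ) * nm (Quotient.out q) - c := by
      rw [nI_eq, mul_comm (nm (Quotient.out q))]
    by_cases hd : ((q0 p * p ^ n : ℕ) : ℤ) ∣ nm (Quotient.out q) * (nI (R.b i) : ℤ) - c
    · rw [if_pos hd, if_pos (hiff.1 hd)]
      rfl
    · rw [if_neg hd, if_neg (mt hiff.2 hd)]
  rw [h7]
  have ho := (R.nl i).om_ne
  have ho0 := (R.nl R.i0).om_ne
  have hMc : ((q0 p * p ^ n : ℕ) : ℂ) ≠ 0 := Nat.cast_ne_zero.2 hM0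
  have hNc : ((nI (R.b i) : ℕ) : ℂ) ≠ 0 := Nat.cast_ne_zero.2 hN0
  have hmc : ((lvX p f n : ℕ) : ℂ) = f * ((q0 p * p ^ n : ℕ) : ℂ) := by
    rw [hm]; push_cast; ring
  rw [hmc]
  unfold muXE
  generalize (∑ β ∈ Finset.range (q0 p * p ^ n), ex (-(β * c) / ((q0 p * p ^ n : ℕ) : ℚ)) *
          PhiI (R.b i) e ∞ (((β / ((q0 p * p ^ n : ℕ) : ℚ) : ℚ) : ℚ) : OnePoint ℚ)) = S
  generalize ((q0 p * p ^ n : ℕ) : ℂ) = M at hMc ⊢
  have heN' : e ((nI (R.b i) : ℕ) : OO A B) ≠ 0 := heN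
  field_simp

end Qsx

open _root_.Pool.Agent.MUXHY.Qsx _root_.Pool.Agent.MU3H.Qs in
/-- (QSX) the quantity of the final statement as a character sum -/
theorem ty_QSX_E (h1 : MUXF.Sx_F5) (h2 : MUXF.Sx_PRD) : Sy_QSX_E := by
  intro p hp A B hC P f hf ι hι R g e he hg kk s N n
  have hMdef : q0 p * p ^ n ≠ 0 := mul_ne_zero (q0_ne hp) (pow_ne_zero _ hp.ne_zero)
  have hSnX := fun i c => SnX_eq_E h1 hC hp hf R he hg n i c
  have hMp : ∀ u : ℤ, (p : ℤ) ∣ u - 1 → IsCoprime u ((q0 p * p ^ n : ℕ) : ℤ) := by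
    intro u hu
    have h3 : IsCoprime u (p : ℤ) := by
      obtain ⟨t, ht⟩ := hu
      exact ⟨1, -t, by linear_combination ht⟩
    have h4 : IsCoprime u ((q0 p : ℕ) : ℤ) := by
      unfold q0
      by_cases h2' : p = 2
      · rw [if_pos h2']
        rw [h2'] at h3
        have : (((4 : ℕ) : ℤ)) = ((2 : ℕ) : ℤ) ^ 2 := by norm_num
        rw [this]
        exact h3.pow_right
      · rw [if_neg h2']
        exact h3
    push_cast
    exact h4.mul_right h3.pow_right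
  have hq0p : (p : ℤ) ∣ (q0 p : ℤ) := Int.natCast_dvd_natCast.2 (q0_dvd p)
  generalize hMM : q0 p * p ^ n = M at *
  have : NeZero M := ⟨hMdef⟩
  have hMQ : (M : ℚ) ≠ 0 := Nat.cast_ne_zero.2 hMdef
  -- the values
  set F : ℤ → ℂ := fun b => PP_E R P e kk 0 ∞ ((b / (M : ℚ) : ℚ) : OnePoint ℚ) with hFdef
  set Q : ℤ → ℂ := fun b => sgnPart (s : ℂ) (PP_E R P e kk 0) ∞ ((b / (M : ℚ) : ℚ) : OnePoint ℚ)
    with hQdef
  set E : ℤ → ℂ := fun k => ex (k / (M : ℚ)) with hEdef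
  have hPF : ∀ b : ℤ, Q b = F b + s * F (-b) := by
    intro b
    simp only [hQdef, hFdef, sgnPart]
    rw [mob_inf, mob_neg]
    congr 4
    push_cast
    ring
  have hFper : ∀ b k : ℤ, F (b + M * k) = F b := by
    intro b k
    simp only [hFdef]
    have h := PP_per_E h2 hC R P e kk (b / (M : ℚ)) k
    rw [← h]
    congr 3
    push_cast
    field_simp
  have hPper : ∀ b k : ℤ, Q (b + M * k) = Q b := by
    intro b k
    rw [hPF, hPF, hFper]
    congr 2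
    have := hFper (-b) (-k)
    rw [← this]
    congr 1
    ring
  have hEadd : ∀ k l : ℤ, E (k + l) = E k * E l := by
    intro k l
    simp only [hEdef]
    rw [← ex_add]
    congr 1
    push_cast
    ring
  have hEq : ∀ k : ℤ, E (M * k) = 1 := by
    intro k
    simp only [hEdef]
    rw [← ex_int k]
    congr 1
    push_cast
    field_simp
  have hEper : ∀ b k : ℤ, E (b + M * k) = E b := by
    intro b k
    rw [hEadd, hEq, mul_one]
  -- the transform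
  set S : ℤ → ℂ := fun c => ∑ i, kk i * SnXE R (lvX p f n) M e i c with hSdef
  have hSn : ∀ c : ℤ, S c = (2 * f) * ∑ b ∈ Finset.range M, E (-(b * c)) * F b := by
    intro c
    have h3 : ∀ i, kk i * SnXE R (lvX p f n) M e i c = ∑ b ∈ Finset.range M, (2 * f) *
        (E (-(b * c)) * (kk i / e ((nI (R.b i) : ℕ) : OO A B) *
          PhiI (R.b i) e ∞ (((b / (M : ℚ) : ℚ) : ℚ) : OnePoint ℚ) / R.om R.i0)) := by
      intro i
      rw [hSnX i c, Finset.mul_sum, Finset.mul_sum, Finset.mul_sum]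
      refine Finset.sum_congr rfl fun b _ => ?_
      have h4 : E (-(b * c)) = ex (-(b * c) / (M : ℚ)) := by
        simp only [hEdef]
        push_cast
        rfl
      rw [h4]
      ring
    simp only [hSdef]
    rw [Finset.sum_congr rfl (fun i _ => h3 i), Finset.sum_comm, Finset.mul_sum]
    refine Finset.sum_congr rfl fun b _ => ?_
    rw [← Finset.mul_sum, ← Finset.mul_sum, ← Finset.sum_div]
    congr 2
    simp only [hFdef, PP_E]
    rw [pow_zero]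
    simp only [mul_one]
    rfl
  set W : ℤ → ℂ := fun c => ∑ b ∈ Finset.range M, E (-(b * c)) * Q b with hWdef
  have hSW : ∀ c : ℤ, S c + s * S (-c) = (2 * f) * W c := by
    intro c
    rw [hSn c, hSn (-c)]
    have h1 : ∑ b ∈ Finset.range M, E (-(b * (-c))) * F b =
        ∑ b ∈ Finset.range M, E (-(b * c)) * F (-b) := by
      have hG : ∀ b k : ℤ, (fun b : ℤ => E (-(b * (-c))) * F b) (b + M * k) =
          (fun b : ℤ => E (-(b * (-c))) * F b) b := by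
        intro b k
        show E (-((b + M * k) * (-c))) * F (b + M * k) = E (-(b * (-c))) * F b
        rw [hFper, show -((b + M * k) * (-c)) = -(b * (-c)) + M * (k * c) by ring, hEper]
      have h := sum_mul (G := fun b : ℤ => E (-(b * (-c))) * F b) hG (u := -1)
        (by exact (isCoprime_one_left).neg_left)
      rw [← h]
      refine Finset.sum_congr rfl (fun b _ => ?_)
      show E (-((-1 * (b : ℤ)) * (-c))) * F (-1 * (b : ℤ)) = _
      rw [show -((-1 * (b : ℤ)) * (-c)) = -(b * c) by ring, show -1 * (b : ℤ) = -b by ring]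
    rw [h1]
    simp only [hWdef]
    have h5 : ∑ b ∈ Finset.range M, E (-(b * c)) * Q b =
        ∑ b ∈ Finset.range M, E (-(b * c)) * F b +
          s * ∑ b ∈ Finset.range M, E (-(b * c)) * F (-b) := by
      rw [Finset.mul_sum, ← Finset.sum_add_distrib]
      refine Finset.sum_congr rfl fun b _ => ?_
      rw [hPF]
      ring
    rw [h5]
    ring
  -- substitution
  have hsub : ∀ (c u : ℤ), IsCoprime u (M : ℤ) →
      W c = ∑ b ∈ Finset.range M, E (-(b * (u * c))) * Q (u * b) := by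
    intro c u hu
    have hG : ∀ b k : ℤ, (fun b : ℤ => E (-(b * c)) * Q b) (b + M * k) =
        (fun b : ℤ => E (-(b * c)) * Q b) b := by
      intro b k
      show E (-((b + M * k) * c)) * Q (b + M * k) = E (-(b * c)) * Q b
      rw [hPper, show -((b + M * k) * c) = -(b * c) + M * (-(k * c)) by ring, hEper]
    have h := sum_mul (G := fun b : ℤ => E (-(b * c)) * Q b) hG hu
    simp only [hWdef]
    rw [← h]
    refine Finset.sum_congr rfl (fun b _ => ?_)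
    show E (-((u * (b : ℤ)) * c)) * Q (u * (b : ℤ)) = _
    rw [show -((u * (b : ℤ)) * c) = -(b * (u * c)) by ring]
  -- coprimality
  set a : ℤ := (aX p f : ℤ) with ha
  set u : ℤ := 1 + (q0 p : ℤ) with hu
  have h3mul : ∀ x y : ℤ, (p : ℤ) ∣ x - 1 → (p : ℤ) ∣ y - 1 → (p : ℤ) ∣ x * y - 1 := by
    intro x y hx hy
    have h1 : x * y - 1 = (x - 1) * y + (y - 1) := by ring
    rw [h1]
    exact dvd_add (Dvd.dvd.mul_right hx y) hy
  have h4 : ∀ j : ℕ, (p : ℤ) ∣ u ^ j - 1 := by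
    intro j
    have := sub_dvd_pow_sub_pow u 1 j
    rw [one_pow] at this
    refine dvd_trans ?_ this
    rw [hu]
    simpa using hq0p
  have h3a : (p : ℤ) ∣ a - 1 := by
    rw [ha]
    unfold aX
    have : (((1 + 2 * q0 p * f : ℕ) : ℤ)) - 1 = (q0 p : ℤ) * (2 * f) := by push_cast; ring
    rw [this]
    exact Dvd.dvd.mul_right hq0p _
  have h3a2 : (p : ℤ) ∣ a ^ 2 - 1 := by rw [sq]; exact h3mul a a h3a h3a
  have haC : ((a : ℤ) : ℂ) = ((aX p f : ℕ) : ℂ) := by rw [ha]; push_cast; rfl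
  -- the left hand side
  have hST : ∀ c : ℤ, STXE R (lvX p f n) M (aX p f) e kk c +
      s * STXE R (lvX p f n) M (aX p f) e kk (-c) =
        (2 * f) * ((a : ℂ) * W (a ^ 2 * c) - (a : ℂ) ^ 2 * W c) := by
    intro c
    have e0 : ∀ c, STXE R (lvX p f n) M (aX p f) e kk c = (a : ℂ) * S (a ^ 2 * c) -
        (a : ℂ) ^ 2 * S c := by
      intro c
      unfold STXE
      simp only [hSdef]
      rw [Finset.mul_sum, Finset.mul_sum, ← Finset.sum_sub_distrib]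
      refine Finset.sum_congr rfl fun i _ => ?_
      rw [← haC]
      ring
    have e1 := hSW c
    have e2 := hSW (a ^ 2 * c)
    rw [e0, e0, show a ^ 2 * -c = -(a ^ 2 * c) by ring]
    linear_combination (a : ℂ) * e2 - (a : ℂ) ^ 2 * e1
  -- comparison term by term
  have hz : ∀ b : ℕ, ex (-((1 + (q0 p : ℚ)) ^ N * (aX p f : ℚ) ^ 2) / (M : ℚ)) ^ b =
      E (-(b * (u ^ N * a ^ 2))) := by
    intro b
    rw [ex_pow]
    simp only [hEdef]
    congr 1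
    rw [ha, hu]
    push_cast
    ring
  have hterm : ∀ j ∈ Finset.range (N + 1),
      (a : ℂ) * W (a ^ 2 * u ^ j) - (a : ℂ) ^ 2 * W (u ^ j) =
        ∑ b ∈ Finset.range M, E (-(b * (u ^ N * a ^ 2))) *
          ((a : ℂ) * Q (u ^ (N - j) * b) - (a : ℂ) ^ 2 * Q (u ^ (N - j) * a ^ 2 * b)) := by
    intro j hj
    have hjN : N - j + j = N := Nat.sub_add_cancel (Nat.lt_succ_iff.mp (Finset.mem_range.mp hj))
    have e4 : u ^ (N - j) * u ^ j = u ^ N := by rw [← pow_add, hjN]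
    rw [hsub (a ^ 2 * u ^ j) (u ^ (N - j)) (hMp _ (h4 _)),
      hsub (u ^ j) (u ^ (N - j) * a ^ 2) (hMp _ (h3mul _ _ (h4 _) h3a2)),
      Finset.mul_sum, Finset.mul_sum, ← Finset.sum_sub_distrib]
    refine Finset.sum_congr rfl (fun b _ => ?_)
    rw [show u ^ (N - j) * (a ^ 2 * u ^ j) = u ^ N * a ^ 2 by rw [← e4]; ring,
      show u ^ (N - j) * a ^ 2 * u ^ j = u ^ N * a ^ 2 by rw [← e4]; ring]
    ring
  have hlhs : ∀ j ∈ Finset.range (N + 1),
      ((-1 : ℂ) ^ (N - j) * (N.choose j : ℂ)) *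
        (STXE R (lvX p f n) M (aX p f) e kk (u ^ j) +
          s * STXE R (lvX p f n) M (aX p f) e kk (-u ^ j)) =
      (2 * f) * ∑ b ∈ Finset.range M, E (-(b * (u ^ N * a ^ 2))) *
        (((-1 : ℂ) ^ (N - j) * (N.choose j : ℂ)) *
          ((a : ℂ) * Q (u ^ (N - j) * b) - (a : ℂ) ^ 2 * Q (u ^ (N - j) * a ^ 2 * b))) := by
    intro j hj
    rw [hST (u ^ j), hterm j hj, Finset.mul_sum, Finset.mul_sum, Finset.mul_sum]
    refine Finset.sum_congr rfl (fun b _ => ?_)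
    ring
  rw [Finset.sum_congr rfl hlhs, ← Finset.mul_sum, Finset.sum_comm]
  congr 1
  refine Finset.sum_congr rfl (fun b _ => ?_)
  rw [hz b, ← Finset.mul_sum]
  congr 1

end

end Pool.Agent.MUXHY


end

section

/-!
# N2, block GS (helper6): Theorem G+ for combinations of translates of `PhiK R e kk / (u om)`, and `SQ_GPT`
-/

set_option autoImplicit false

namespace Pool.Agent.N2

open _root_.MU3 _root_.Pool.Agent.MU3A _root_.Pool.Agent.MU3B _root_.Pool.Agent.MU3Q _root_.Pool.Agent.MUX _root_.Pool.Agent.MuSym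
  _root_.Pool.Agent.MUXN _root_.Pool.Agent.NS _root_.Pool.Agent.NSG OnePoint UpperHalfPlane

noncomputable section

variable {A B : ℤ}

/-- Theorem G+ for the combination `Σ_t cc t P(x + t/q, y + t/q)` of translates of `P = PhiK R e kk / (u om)` -/
theorem gptE (k1 : Sg_RET) (k2 : Sg_NFE) (k3 : Sg_DSC) (k4 : Sg_ZL) (k5 : Sg_FK) (k6 : Sg_FGG)
    (h2 : MUXT.Xs_FTI)
    (h3 : MUXF.Sx_CHI) (h4 : MUXY.Sy_CON) (h5 : MUXY.Sy_ALP)
    (h7 : MUXY.Sy_FEC) (h8 : MUXY.Sy_COP) (hA : MUXF.Sx_ALG) (hI : MUXF.Sx_IDL)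
    (hQB : MUXF.Sx_QB) (hBD : MUXF.Sx_BDD) (hTS : MUXF.Sx_TSM) {V : ValuationSubring ℂ}
    (hc : CQ A B) (u1 : ∀ x : OO A B, nm x = 1 → x = 1 ∨ x = -1)
    (u2 : ∀ (b : Ideal (OO A B)) (_ : b ≠ ⊥) (x : OO A B), x ∈ b → nm x = MUX.nI b → b = MUX.sp x)
    (hLoc : LocN A B V) (hT : TorX A B) {n : ℕ} (hn : 2 ≤ n) (hn2 : 2 ∣ n) {ι : Type} [Fintype ι]
    (R : Reps A B n ι) {u : ℂ} (hu : u ≠ 0) (hua : IsAlgebraic ℚ u) {L' : PeriodPair}
    {S₀ : Finset ℂ} (hB : BinE V L' S₀) (hL : LatO A B L' (u * R.om R.i0)) {e : OO A B → ℂ}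
    (he : IsEI (idl (A := A) (B := B) n) e) {r : ℕ} (hr : r ≠ 0)
    (her : ∀ x, e x ≠ 0 → e x ^ r = 1) {kk : ι → ℂ} (hkk : V.valuation (kk R.i0) = 1)
    {N' : ℕ} (hN' : N' ≠ 0) (hNd : absD A B * ((n : ℕ) : ℤ) ^ 2 ∣ (N' : ℤ)) {q : ℕ} (hq : 0 < q)
    (cc : Fin q → ℂ) (hs : V.valuation (2 : ℂ) < V.valuation (∑ t, cc t * zq q ^ (t : ℕ)) ^ 3) :
    ∃ a b c d : ℤ, a * d - b * c = 1 ∧ (N' : ℤ) ∣ c ∧ (N' : ℤ) ∣ d - 1 ∧
      1 < V.valuation (∑ t : Fin q, cc t *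
        (PhiK R e kk (mob q (t : ℕ) 0 q ∞) (mob q (t : ℕ) 0 q (mob a b c d ∞)) /
          (u * R.om R.i0))) := by
  classical
  have hD := gdatE hq h2 h3 h4 h5 h7 h8 hA hI hQB hBD hTS hc u1 u2 hT hn hn2 R e he r hr her u hu
    hua N' hN' hNd
  have hfE : Finite (EC e) := (h7 A B e r hr her).1
  have hFt : Fintype (EC e) := Fintype.ofFinite _
  have heE : e ∈ EC e := ⟨RingEquiv.refl ℂ, rfl⟩
  obtain ⟨s, hs'⟩ : ∃ s, s = ∑ t, cc t * zq q ^ (t : ℕ) := ⟨_, rfl⟩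
  rw [← hs'] at hs
  set w : ι × EC e × Fin q → ℂ := fun j => if j.2.1 = ⟨e, heE⟩ then kk j.1 * cc j.2.2 else 0
    with hw
  have hsum : ∀ F : ι × EC e × Fin q → ℂ, ∑ j, w j * F j =
      ∑ i, ∑ t, kk i * cc t * F (i, ⟨e, heE⟩, t) := by
    intro F
    rw [Fintype.sum_prod_type]
    refine Finset.sum_congr rfl fun i _ => ?_
    rw [Fintype.sum_prod_type, Finset.sum_eq_single (⟨e, heE⟩ : EC e)]
    · refine Finset.sum_congr rfl fun t _ => ?_
      rw [hw]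
      beta_reduce
      rw [if_pos rfl]
    · intro e' _ he'
      refine Finset.sum_eq_zero fun t _ => ?_
      rw [hw]
      beta_reduce
      rw [if_neg he', zero_mul]
    · intro h
      exact absurd (Finset.mem_univ _) h
  have hα : ∑ j, w j * a1Q q R e j = kk R.i0 * s := by
    rw [hsum, Finset.sum_eq_single R.i0]
    · have e1 : ∀ t : Fin q, kk R.i0 * cc t * a1Q q R e (R.i0, ⟨e, heE⟩, t) =
          kk R.i0 * (cc t * zq q ^ (t : ℕ)) := by
        intro t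
        unfold a1Q
        rw [if_pos rfl]
        ring
      rw [Finset.sum_congr rfl fun t _ => e1 t, ← Finset.mul_sum, ← hs']
    · intro i _ hi
      refine Finset.sum_eq_zero fun t _ => ?_
      unfold a1Q
      rw [if_neg hi, mul_zero]
    · intro h
      exact absurd (Finset.mem_univ _) h
  obtain ⟨a, b, c, d, m1, m2, m3, m4⟩ := gen_GTH_E k1 k2 k3 k4 k5 k6 hc hD hLoc hB hL w (by
      unfold TV
      rw [hα, map_mul, hkk, one_mul]
      exact not_le.2 hs)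
  have hcast : ((q ^ 2 * N' : ℕ) : ℤ) = (q : ℤ) ^ 2 * (N' : ℤ) := by push_cast; ring
  rw [hcast] at m2 m3
  refine ⟨a, b, c, d, m1, dvd_trans (Dvd.intro_left _ rfl) m2, dvd_trans (Dvd.intro_left _ rfl) m3,
    ?_⟩
  rw [← V.valuation_le_one_iff, not_le, hsum] at m4
  have e2 : (∑ i, ∑ t, kk i * cc t * PsQ q R e (i, ⟨e, heE⟩, t) ∞ (mob a b c d ∞)) /
      (u * R.om R.i0) = ∑ t : Fin q, cc t *
        (PhiK R e kk (mob q (t : ℕ) 0 q ∞) (mob q (t : ℕ) 0 q (mob a b c d ∞)) /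
          (u * R.om R.i0)) := by
    rw [Finset.sum_comm, Finset.sum_div]
    refine Finset.sum_congr rfl fun t _ => ?_
    unfold PhiK PsQ
    dsimp only
    rw [Finset.sum_div, Finset.sum_div, Finset.mul_sum]
    refine Finset.sum_congr rfl fun i _ => ?_
    ring
  rwa [e2] at m4

/-- algebraicity of `u`, `e`, `a1`, `a3` -/
theorem legQ_alg (hc : CQ A B) (hT : TorX A B) {b : Ideal (OO A B)} {L : PeriodPair} {om : ℂ}
    (hL : IsNL b L om) {V : ValuationSubring ℂ} {u e a1 a3 : ℂ} (h : GoodQ V L u e a1 a3) :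
    IsAlgebraic ℚ u ∧ IsAlgebraic ℚ e ∧ IsAlgebraic ℚ a1 ∧ IsAlgebraic ℚ a3 := by
  obtain ⟨k2, k3⟩ := g_alg hc hT hL
  have hq : ∀ q : ℚ, IsAlgebraic ℚ (q : ℂ) := fun q => isAlgebraic_algebraMap (A := ℂ) q
  obtain ⟨w1, w2, t1, t2, n1, n2, -, -, he, hu⟩ := h.tor
  have p1 : IsAlgebraic ℚ (L.weierstrassP w1) :=
    tor_alg hc hT hL (n := 3) (by norm_num) (by exact_mod_cast t1) n1
  have p2 : IsAlgebraic ℚ (L.weierstrassP w2) :=
    tor_alg hc hT hL (n := 3) (by norm_num) (by exact_mod_cast t2) n2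
  have hu2 : IsAlgebraic ℚ (u ^ 2) := by rw [hu]; exact p2.sub p1
  have hua : IsAlgebraic ℚ u := IsAlgebraic.of_pow (by norm_num) hu2
  have dsq : ∀ w : ℂ, w ∉ L.lattice → IsAlgebraic ℚ (L.weierstrassP w) →
      IsAlgebraic ℚ ((L.derivWeierstrassP w / u ^ 3) ^ 2) := by
    intro w hw ha
    have e1 : (L.derivWeierstrassP w / u ^ 3) ^ 2 = (((4 : ℚ) : ℂ) * L.weierstrassP w ^ 3 -
        L.g₂ * L.weierstrassP w - L.g₃) * ((u ^ 2) ^ 3)⁻¹ := by
      rw [div_pow, L.derivWeierstrassP_sq w hw]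
      push_cast
      rw [div_eq_mul_inv]
      congr 2
      ring
    rw [e1]
    exact ((((hq 4).mul (ha.pow 3)).sub (k2.mul ha)).sub k3).mul (hu2.pow 3).inv
  have ha3 : IsAlgebraic ℚ a3 := by
    have h1 := h.eq w1 n1
    rw [he, sub_self, zero_div, mul_zero, zero_add] at h1
    have h2 : a3 ^ 2 = (L.derivWeierstrassP w1 / u ^ 3) ^ 2 := by
      rw [h1]
      ring
    refine IsAlgebraic.of_pow (n := 2) (by norm_num) ?_
    rw [h2]
    exact dsq w1 n1 p1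
  refine ⟨hua, by rw [he]; exact p1, ?_, ha3⟩
  have h1 := h.eq w2 n2
  have e1 : (L.weierstrassP w2 - e) / u ^ 2 = 1 := by
    rw [he, ← hu]
    exact div_self (pow_ne_zero _ h.u0)
  rw [e1] at h1
  have h2 : (a1 + a3) ^ 2 = (L.derivWeierstrassP w2 / u ^ 3) ^ 2 - ((4 : ℚ) : ℂ) := by
    rw [h1]
    push_cast
    ring
  have h3 : IsAlgebraic ℚ (a1 + a3) := by
    refine IsAlgebraic.of_pow (n := 2) (by norm_num) ?_
    rw [h2]
    exact (dsq w2 n2 p2).sub (hq 4)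
  have h4 : a1 = (a1 + a3) - a3 := by ring
  rw [h4]
  exact h3.sub ha3

/-- the lattice `u L`, its integrality property at `V` -/
theorem legQ (hS : MUXU.Su_SCX) (hWQ : St_WQ) (hDV : Sg_DV) (hc : CQ A B)
    (hT : TorX A B) {n : ℕ} {ι : Type}
    (R : Reps A B n ι) {V : ValuationSubring ℂ} (h2V : V.valuation (2 : ℂ) < 1) {u e a1 a3 : ℂ}
    (h : GoodQ V (R.L R.i0) u e a1 a3) :
    ∃ (L' : PeriodPair) (S : Finset ℂ), BinE V L' S ∧ LatO A B L' (u * R.om R.i0) := by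
  obtain ⟨L', hL'⟩ := hS (R.L R.i0) u h.u0
  obtain ⟨s1, s2, -, -⟩ := ta_SCP (R.L R.i0) L' u h.u0 hL'
  have ho : R.om R.i0 ≠ 0 := (R.nl R.i0).om_ne
  obtain ⟨-, -, k1, k3⟩ := legQ_alg hc hT (R.nl R.i0) h
  have hv1 : V.valuation a1 ≤ 1 := by
    by_contra hcon
    push Not at hcon
    have h1 := h.v1
    have h3 : (1 : V.ValueGroup) < V.valuation a1 ^ 2 := one_lt_pow₀ hcon two_ne_zero
    exact absurd (h3.trans_le h1) (not_lt.2 h2V.le)
  obtain ⟨S, hB⟩ := bin_E hWQ hDV V h2V L' (e / u ^ 2) a1 a3 (by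
    intro z hz
    have e1 : z = u * (u⁻¹ * z) := by rw [mul_inv_cancel_left₀ h.u0]
    have hz' : u⁻¹ * z ∉ (R.L R.i0).lattice := by
      intro h4
      apply hz
      rw [e1]
      exact (hL' _).1 h4
    have h5 := h.eq _ hz'
    rw [e1, s1, s2, h5]
    have hu := h.u0
    ring) k1 k3 hv1 h.v3
  refine ⟨L', S, hB, mul_ne_zero h.u0 ho, ?_⟩
  intro z
  have e1 : z = u * (u⁻¹ * z) := by rw [mul_inv_cancel_left₀ h.u0]
  rw [e1, ← hL' (u⁻¹ * z), (R.nl R.i0).mem]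
  constructor
  · rintro ⟨x, -, hx⟩
    exact ⟨x, by rw [hx]; ring⟩
  · rintro ⟨x, hx⟩
    refine ⟨x, by rw [R.b0]; trivial, ?_⟩
    have hu := h.u0
    apply mul_left_cancel₀ hu
    rw [hx]
    ring

theorem CaseR2.ge {A B : ℤ} (hc : CaseR2 A B) : 5 ≤ -(B ^ 2 + 4 * A) := by
  have h0 := hc.b0
  have h1 := hc.mod
  have h2 := hc.exc
  have h3 := hc.neg
  subst h0
  simp only [ne_eq, OfNat.ofNat_ne_zero, not_false_eq_true, zero_pow, zero_add] at h3 ⊢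
  omega

theorem v32 (V : ValuationSubring ℂ) : V.valuation (1 - zq 32) ^ 16 = V.valuation (2 : ℂ) := by
  have h1 : V.valuation (zq 32 - 1) ^ 16 = V.valuation (2 : ℂ) := by
    have := MUXH.Hz.val_p 2 Nat.prime_two V 4 (zq 32) (by
      have : (2 : ℕ) ^ (4 + 1) = 32 := by norm_num
      rw [this]
      exact zq_prim (by norm_num))
    norm_num at this
    exact this
  rw [← h1, ← neg_sub, Valuation.map_neg]

theorem v8 (V : ValuationSubring ℂ) : V.valuation (1 - zq 32 ^ 4) ^ 4 = V.valuation (2 : ℂ) := by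
  have h1 : V.valuation (zq 32 ^ 4 - 1) ^ 4 = V.valuation (2 : ℂ) := by
    have := MUXH.Hz.val_p 2 Nat.prime_two V 2 (zq 32 ^ 4) (by
      have : (2 : ℕ) ^ (2 + 1) = 8 := by norm_num
      rw [this]
      exact (zq_prim (q := 32) (by norm_num)).pow (by norm_num) (by norm_num))
    norm_num at this
    exact this
  rw [← h1, ← neg_sub, Valuation.map_neg]

/-- (GPT) Theorem G+ for the translates. -/
theorem gPT_Q (k1 : Sg_RET) (k2 : Sg_NFE) (k3 : Sg_DSC) (k4 : Sg_ZL) (k5 : Sg_FK) (k6 : Sg_FGG)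
    (k7 : Sg_LOC) (hWQ : St_WQ) (hDV : Sg_DV) (hS : MUXU.Su_SCX) (h2 : MUXT.Xs_FTI)
    (h3 : MUXF.Sx_CHI) (h4 : MUXY.Sy_CON) (h5 : MUXY.Sy_ALP)
    (h7 : MUXY.Sy_FEC) (h8 : MUXY.Sy_COP) (hA : MUXF.Sx_ALG) (hI : MUXF.Sx_IDL)
    (hN : MUXF.Sx_NIM) (hQB : MUXF.Sx_QB) (hBD : MUXF.Sx_BDD) (hTS : MUXF.Sx_TSM) : SQ_GPT := by
  classical
  intro A B P V f hSQ hT ι _ R u el a1 a3 hg e he r hr her kk hkk N' hN' hNd
  have hc : CQ A B := hSQ.case.toCQ
  obtain ⟨u1, u2⟩ := unit_5 hI hN hc hSQ.case.ge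
  have hv2 : V.valuation (2 : ℂ) < 1 := by
    have h1 : emb ((2 : ℕ) : OO A B) ∈ V.nonunits := (hSQ.hV _).2 hSQ.hP.mem
    have h2 : emb ((2 : ℕ) : OO A B) = 2 := by
      unfold emb
      rw [QuadraticAlgebra.re_natCast, QuadraticAlgebra.im_natCast]
      push_cast
      ring
    rw [h2, ValuationSubring.mem_nonunits_iff] at h1
    exact h1
  have hLoc : LocN A B V := by
    intro S hS
    obtain ⟨t, ht, hy⟩ := k7 A B hc 2 Nat.prime_two P hSQ.hP V hSQ.hV S hS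
    refine ⟨t, ?_, hy⟩
    have hle : V.valuation (emb t) ≤ 1 := (V.valuation_le_one_iff _).2 (N_GJ.emb_mem_V hc V t)
    refine le_antisymm hle (not_lt.1 fun hlt => ht ((hSQ.hV t).1 ?_))
    exact (ValuationSubring.mem_nonunits_iff _).2 hlt
  obtain ⟨L', S₀, hB, hL⟩ := legQ hS hWQ hDV hc hT R hv2 hg
  have hn : 2 ≤ 2 * f := by
    have := Nat.pos_of_ne_zero hSQ.f0
    omega
  have hua := (legQ_alg hc hT (R.nl R.i0) hg).1
  have hv20 : V.valuation (2 : ℂ) ≠ 0 := (Valuation.ne_zero_iff _).2 two_ne_zero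
  obtain ⟨cc, hcc⟩ : ∃ cc : Fin 32 → ℂ, cc = fun t => (if t = 0 then 1 else 0) -
    (if t = 1 then 1 else 0) - (if t = 4 then 1 else 0) + (if t = 5 then 1 else 0) := ⟨_, rfl⟩
  have hF : ∀ F : Fin 32 → ℂ, ∑ t, cc t * F t = F 0 - F 1 - F 4 + F 5 := by
    intro F
    rw [hcc]
    simp only [sub_mul, add_mul, ite_mul, one_mul, zero_mul, Finset.sum_sub_distrib,
      Finset.sum_add_distrib, Finset.sum_ite_eq', Finset.mem_univ, if_true]
  have hs : ∑ t, cc t * zq 32 ^ (t : ℕ) = (1 - zq 32) * (1 - zq 32 ^ 4) := by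
    rw [hF (fun t => zq 32 ^ (t : ℕ))]
    norm_num
    ring
  have hvs : V.valuation (2 : ℂ) < V.valuation (∑ t, cc t * zq 32 ^ (t : ℕ)) ^ 3 := by
    rw [hs]
    by_contra hcon
    push Not at hcon
    have h9 := pow_le_pow_left' hcon 16
    have h10 : (V.valuation ((1 - zq 32) * (1 - zq 32 ^ 4)) ^ 3) ^ 16 =
        V.valuation (2 : ℂ) ^ 15 := by
      calc (V.valuation ((1 - zq 32) * (1 - zq 32 ^ 4)) ^ 3) ^ 16
          = (V.valuation (1 - zq 32) ^ 16) ^ 3 * (V.valuation (1 - zq 32 ^ 4) ^ 4) ^ 12 := by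
            rw [map_mul, ← pow_mul, ← pow_mul, ← pow_mul, mul_pow]
        _ = _ := by rw [v32, v8, ← pow_add]
    rw [h10, pow_succ (V.valuation (2 : ℂ)) 15] at h9
    have h11 : (0 : V.ValueGroup) < V.valuation (2 : ℂ) ^ 15 :=
      zero_lt_iff.2 (pow_ne_zero _ hv20)
    have h12 : V.valuation (2 : ℂ) ^ 15 * V.valuation (2 : ℂ) < V.valuation (2 : ℂ) ^ 15 * 1 :=
      mul_lt_mul_of_pos_left hv2 h11
    rw [mul_one] at h12
    exact absurd h9 (not_le.2 h12)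
  obtain ⟨a, b, c, d, m1, m2, m3, m4⟩ :=
    gptE k1 k2 k3 k4 k5 k6 h2 h3 h4 h5 h7 h8 hA hI hQB hBD hTS hc u1 u2 hLoc hT hn
      (Dvd.intro _ rfl) R hg.u0 hua hB hL he hr her hkk hN' hNd (q := 32) (by norm_num) cc hvs
  refine ⟨a, b, c, d, m1, m2, m3, ?_⟩
  rw [hF (fun t => PhiK R e kk (mob (32 : ℕ) (t : ℕ) 0 (32 : ℕ) ∞)
    (mob (32 : ℕ) (t : ℕ) 0 (32 : ℕ) (mob a b c d ∞)) / (u * R.om R.i0))] at m4
  unfold PTq
  dsimp only
  have e0 : (((0 : Fin 32) : ℕ) : ℤ) = 0 := rfl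
  have e1 : (((1 : Fin 32) : ℕ) : ℤ) = 1 := rfl
  have e4 : (((4 : Fin 32) : ℕ) : ℤ) = 4 := rfl
  have e5 : (((5 : Fin 32) : ℕ) : ℤ) = 5 := rfl
  rw [e0, e1, e4, e5] at m4
  rw [TrQ.mob_zero _ (by norm_num), TrQ.mob_zero _ (by norm_num)] at m4
  have t4 : ∀ x : OnePoint ℚ, mob 8 1 0 8 x = mob ((32 : ℕ) : ℤ) 4 0 ((32 : ℕ) : ℤ) x := by
    intro x
    have := TrQ.mob_red 8 1 4 (by norm_num) (by norm_num) x
    norm_num at this ⊢
    exact this.symm
  have t5 : ∀ x : OnePoint ℚ, mob 8 1 0 8 (mob 32 1 0 32 x) =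
      mob ((32 : ℕ) : ℤ) 5 0 ((32 : ℕ) : ℤ) x := by
    intro x
    have h1 := TrQ.mob_mob 8 1 32 1 (by norm_num) (by norm_num) x
    have h2 := TrQ.mob_red 32 5 8 (by norm_num) (by norm_num) x
    norm_num at h1 h2 ⊢
    rw [h1, h2]
  rw [t5, t5, t4, t4]
  refine m4.trans_le (le_of_eq ?_)
  congr 1
  push_cast
  ring

end

end Pool.Agent.N2


end

section

/-!
# ME2, block G (helper6): Theorem G+ at `p = 2` in the frame of the exceptional fields (`2` ramified): the translates by `1/8`, `1/32` of `PhiKE R e kk / (rE u om)`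
-/

set_option autoImplicit false

namespace Pool.Agent.MEG

open _root_.MU3 _root_.Pool.Agent.MU3A _root_.Pool.Agent.MU3B _root_.Pool.Agent.MU3Q _root_.Pool.Agent.MUX _root_.Pool.Agent.MuSym
  _root_.Pool.Agent.MUXN _root_.Pool.Agent.NS _root_.Pool.Agent.NSG _root_.Pool.Agent.N2 OnePoint UpperHalfPlane
open _root_.Pool.Agent.ME hiding ActE
open _root_.Pool.Agent.MUXU

noncomputable section

variable {A B : ℤ} {n : ℕ} {ι : Type}

/-- the lattice `u L`, its integrality property at `V` -/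
theorem legQE (hE : CaseE A B) (hT : TorXE A B) {n : ℕ}
    (R : RepsE A B n ι) {V : ValuationSubring ℂ} (h2V : V.valuation (2 : ℂ) < 1) {u e a1 a3 : ℂ}
    (h : GoodQ V (R.L R.i0) u e a1 a3) :
    ∃ (L' : PeriodPair) (S : Finset ℂ), BinE V L' S ∧ LatO A B L' (u * R.om R.i0) := by
  obtain ⟨L', hL'⟩ := u_SCX (R.L R.i0) u h.u0
  obtain ⟨s1, s2, -, -⟩ := ta_SCP (R.L R.i0) L' u h.u0 hL'
  obtain ⟨-, -, k1, k3⟩ := leg3_algE hE hT (R.nl R.i0) h.u0 h.tor h.eq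
  have hv1 : V.valuation a1 ≤ 1 := by
    by_contra hcon
    push Not at hcon
    have h1 := h.v1
    have h3 : (1 : V.ValueGroup) < V.valuation a1 ^ 2 := one_lt_pow₀ hcon two_ne_zero
    exact absurd (h3.trans_le h1) (not_lt.2 h2V.le)
  obtain ⟨S, hB⟩ := bin_E Pool.Agent.MU3Q.wq tg_DV V h2V L' (e / u ^ 2) a1 a3 (by
    intro z hz
    have e1 : z = u * (u⁻¹ * z) := by rw [mul_inv_cancel_left₀ h.u0]
    have hz' : u⁻¹ * z ∉ (R.L R.i0).lattice := by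
      intro h4
      apply hz
      rw [e1]
      exact (hL' _).1 h4
    have h5 := h.eq _ hz'
    rw [e1, s1, s2, h5]
    have hu := h.u0
    ring) k1 k3 hv1 h.v3
  exact ⟨L', S, hB, latE R h.u0 hL'⟩

/-- (GPT) Theorem G+ for the translates, `2` ramified -/
theorem gptQ4 (hE : CaseE A B) (hT : TorXE A B) {P : Ideal (OO A B)} (hP : IsPN 2 P)
    {V : ValuationSubring ℂ} (hV : OverI V P) (hn : 2 ≤ n) (hn2 : 2 ∣ n) [Fintype ι]
    (R : RepsE A B n ι) {u el a1 a3 : ℂ} (hg : GoodQ V (R.L R.i0) u el a1 a3) {e : OO A B → ℂ}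
    (he : IsEIE (idl (A := A) (B := B) n) e) {r : ℕ} (hr : r ≠ 0)
    (her : ∀ x, e x ≠ 0 → e x ^ r = 1) {kk : ι → ℂ} (hkk : V.valuation (kk R.i0) = 1)
    {N' : ℕ} (hN' : N' ≠ 0) (hNd : absD A B * ((n : ℕ) : ℤ) ^ 2 ∣ (N' : ℤ)) :
    ∃ a b c d : ℤ, a * d - b * c = 1 ∧ (N' : ℤ) ∣ c ∧ (N' : ℤ) ∣ d - 1 ∧
      V.valuation (rE A B : ℂ) < V.valuation (PTq 32 (PTq 8
        (fun x y => PhiKE R e kk x y / (u * R.om R.i0))) ∞ (mob a b c d ∞)) := by
  classical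
  have hc : CQ A B := hE.toCQ
  have hv2 : V.valuation (2 : ℂ) < 1 := by
    have h1 : emb ((2 : ℕ) : OO A B) ∈ V.nonunits := (hV _).2 hP.mem
    have h2 : emb ((2 : ℕ) : OO A B) = 2 := by
      unfold emb
      rw [QuadraticAlgebra.re_natCast, QuadraticAlgebra.im_natCast]
      push_cast
      ring
    rw [h2, ValuationSubring.mem_nonunits_iff] at h1
    exact h1
  have hLoc : LocN A B V := by
    intro S hS
    obtain ⟨t, ht, hy⟩ := tg_LOC A B hc 2 Nat.prime_two P hP V hV S hS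
    refine ⟨t, ?_, hy⟩
    have hle : V.valuation (emb t) ≤ 1 := (V.valuation_le_one_iff _).2 (N_GJ.emb_mem_V hc V t)
    refine le_antisymm hle (not_lt.1 fun hlt => ht ((hV t).1 ?_))
    exact (ValuationSubring.mem_nonunits_iff _).2 hlt
  obtain ⟨L', S₀, hB, hL⟩ := legQE hE hT R hv2 hg
  have hua := (leg3_algE hE hT (R.nl R.i0) hg.u0 hg.tor hg.eq).1
  have hv20 : V.valuation (2 : ℂ) ≠ 0 := (Valuation.ne_zero_iff _).2 two_ne_zero
  obtain ⟨cc, hcc⟩ : ∃ cc : Fin 32 → ℂ, cc = fun t => (if t = 0 then 1 else 0) -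
    (if t = 1 then 1 else 0) - (if t = 4 then 1 else 0) + (if t = 5 then 1 else 0) := ⟨_, rfl⟩
  have hF : ∀ F : Fin 32 → ℂ, ∑ t, cc t * F t = F 0 - F 1 - F 4 + F 5 := by
    intro F
    rw [hcc]
    simp only [sub_mul, add_mul, ite_mul, one_mul, zero_mul, Finset.sum_sub_distrib,
      Finset.sum_add_distrib, Finset.sum_ite_eq', Finset.mem_univ, if_true]
  have hs : ∑ t, cc t * zq 32 ^ (t : ℕ) = (1 - zq 32) * (1 - zq 32 ^ 4) := by
    rw [hF (fun t => zq 32 ^ (t : ℕ))]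
    norm_num
    ring
  have hvs : V.valuation (2 : ℂ) < V.valuation (∑ t, cc t * zq 32 ^ (t : ℕ)) ^ 3 := by
    rw [hs]
    by_contra hcon
    push Not at hcon
    have h9 := pow_le_pow_left' hcon 16
    have h10 : (V.valuation ((1 - zq 32) * (1 - zq 32 ^ 4)) ^ 3) ^ 16 =
        V.valuation (2 : ℂ) ^ 15 := by
      calc (V.valuation ((1 - zq 32) * (1 - zq 32 ^ 4)) ^ 3) ^ 16
          = (V.valuation (1 - zq 32) ^ 16) ^ 3 * (V.valuation (1 - zq 32 ^ 4) ^ 4) ^ 12 := by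
            rw [map_mul, ← pow_mul, ← pow_mul, ← pow_mul, mul_pow]
        _ = _ := by rw [v32, v8, ← pow_add]
    rw [h10, pow_succ (V.valuation (2 : ℂ)) 15] at h9
    have h11 : (0 : V.ValueGroup) < V.valuation (2 : ℂ) ^ 15 :=
      zero_lt_iff.2 (pow_ne_zero _ hv20)
    have h12 : V.valuation (2 : ℂ) ^ 15 * V.valuation (2 : ℂ) < V.valuation (2 : ℂ) ^ 15 * 1 :=
      mul_lt_mul_of_pos_left hv2 h11
    rw [mul_one] at h12
    exact absurd h9 (not_le.2 h12)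
  obtain ⟨a, b, c, d, m1, m2, m3, m4⟩ :=
    gptEE hE hT hLoc hn hn2 R hg.u0 hua hB hL he hr her hkk hN' hNd (q := 32) (by norm_num) cc hvs
  refine ⟨a, b, c, d, m1, m2, m3, ?_⟩
  rw [hF (fun t => PhiKE R e kk (mob (32 : ℕ) (t : ℕ) 0 (32 : ℕ) ∞)
    (mob (32 : ℕ) (t : ℕ) 0 (32 : ℕ) (mob a b c d ∞)) / (u * R.om R.i0))] at m4
  unfold PTq
  dsimp only
  have e0 : (((0 : Fin 32) : ℕ) : ℤ) = 0 := rfl
  have e1 : (((1 : Fin 32) : ℕ) : ℤ) = 1 := rfl
  have e4 : (((4 : Fin 32) : ℕ) : ℤ) = 4 := rfl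
  have e5 : (((5 : Fin 32) : ℕ) : ℤ) = 5 := rfl
  rw [e0, e1, e4, e5] at m4
  rw [TrQ.mob_zero _ (by norm_num), TrQ.mob_zero _ (by norm_num)] at m4
  have t4 : ∀ x : OnePoint ℚ, mob 8 1 0 8 x = mob ((32 : ℕ) : ℤ) 4 0 ((32 : ℕ) : ℤ) x := by
    intro x
    have := TrQ.mob_red 8 1 4 (by norm_num) (by norm_num) x
    norm_num at this ⊢
    exact this.symm
  have t5 : ∀ x : OnePoint ℚ, mob 8 1 0 8 (mob 32 1 0 32 x) =
      mob ((32 : ℕ) : ℤ) 5 0 ((32 : ℕ) : ℤ) x := by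
    intro x
    have h1 := TrQ.mob_mob 8 1 32 1 (by norm_num) (by norm_num) x
    have h2 := TrQ.mob_red 32 5 8 (by norm_num) (by norm_num) x
    norm_num at h1 h2 ⊢
    rw [h1, h2]
  rw [t5, t5, t4, t4]
  refine m4.trans_le (le_of_eq ?_)
  congr 1
  push_cast
  ring

/-- the same for the symbol divided by `2` (`D = -4`) -/
theorem gptQ4' (hE : CaseE A B) (hB0 : B = 0) (hT : TorXE A B) {P : Ideal (OO A B)}
    (hP : IsPN 2 P) {V : ValuationSubring ℂ} (hV : OverI V P) (hn : 2 ≤ n) (hn2 : 2 ∣ n)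
    [Fintype ι] (R : RepsE A B n ι) {u el a1 a3 : ℂ} (hg : GoodQ V (R.L R.i0) u el a1 a3)
    {e : OO A B → ℂ} (he : IsEIE (idl (A := A) (B := B) n) e) {r : ℕ} (hr : r ≠ 0)
    (her : ∀ x, e x ≠ 0 → e x ^ r = 1) {kk : ι → ℂ} (hkk : V.valuation (kk R.i0) = 1)
    {N' : ℕ} (hN' : N' ≠ 0) (hNd : absD A B * ((n : ℕ) : ℤ) ^ 2 ∣ (N' : ℤ)) :
    ∃ a b c d : ℤ, a * d - b * c = 1 ∧ (N' : ℤ) ∣ c ∧ (N' : ℤ) ∣ d - 1 ∧
      1 < V.valuation (PTq 32 (PTq 8
        (fun x y => PhiKE R e kk x y / (2 * u * R.om R.i0))) ∞ (mob a b c d ∞)) := by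
  obtain ⟨a, b, c, d, m1, m2, m3, m4⟩ := gptQ4 hE hT hP hV hn hn2 R hg he hr her hkk hN' hNd
  refine ⟨a, b, c, d, m1, m2, m3, ?_⟩
  have hrE : (rE A B : ℂ) = 2 := by
    have h3 : rE A B = 2 := by
      unfold rE
      rw [hB0]
      rfl
    rw [h3]
    rfl
  rw [hrE] at m4
  have hv20 : (0 : V.ValueGroup) < V.valuation (2 : ℂ) :=
    zero_lt_iff.2 ((Valuation.ne_zero_iff _).2 two_ne_zero)
  have hu := hg.u0
  have ho : R.om R.i0 ≠ 0 := (R.nl R.i0).om_ne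
  have e1 : PTq 32 (PTq 8 (fun x y => PhiKE R e kk x y / (u * R.om R.i0))) ∞ (mob a b c d ∞) =
      2 * PTq 32 (PTq 8 (fun x y => PhiKE R e kk x y / (2 * u * R.om R.i0))) ∞
        (mob a b c d ∞) := by
    unfold PTq
    dsimp only
    field_simp
  rw [e1, map_mul] at m4
  by_contra hcon
  push Not at hcon
  have := mul_le_mul_of_nonneg_left hcon hv20.le
  rw [mul_one] at this
  exact absurd m4 (not_lt.2 this)

end

end Pool.Agent.MEG


end

section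

/-!
# MUX-2R, block IR, module INPG (helper36): the inputs of block J, `2` ramified, `D ≠ -4`

Model: `Pool/Agent/N2/I_INPG.lean`.
-/

set_option autoImplicit false

open NumberField IsDedekindDomain

namespace Pool.Agent.N2IR

open _root_.MU3 _root_.Pool.Agent.MU3 _root_.Pool.Agent.MU3A _root_.Pool.Agent.MU3B _root_.Pool.Agent.RI _root_.Pool.Agent.RID
  _root_.Pool.Agent.MUX _root_.Pool.Agent.MUXK _root_.Pool.Agent.MUXJ _root_.Pool.Agent.MUXW _root_.Pool.Agent.MUXZ _root_.Pool.Agent.NSI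
  _root_.Pool.Agent.NSZ _root_.Pool.Agent.N2
open _root_.Pool.Agent.MU3V (Sub GD)

noncomputable section

/-- the input of block IR for the norm to any field `D ≤ RF (lvX 2 f n)` -/
theorem eInpQ (hME : Sy_MEM) (hCX : Sy_CXS) (hEF : SQ_EFIN)
    {A B : ℤ} {P : Ideal (OO A B)} {V : ValuationSubring ℂ} {f : ℕ}
    (hS : SetQ A B P V f) (hT : TorX A B) (hLV : Zl_LVX)
    {ι : Type} [Fintype ι] (R : Reps A B (2 * f) ι) {u e a1 a3 : ℂ}
    (hG : GoodQ V (R.L R.i0) u e a1 a3) {H : ι → Finset ℂ}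
    {θ : ∀ n : ℕ, (RF (idl (A := A) (B := B) (lvX 2 f n)) : IntermediateField (kk A B) ℂ)}
    (hth : ThN 2 f R H θ) (n : ℕ) (hn : 5 ≤ n) (D : IntermediateField ℚ ℂ) (h : kk A B ≤ D)
    (hD : ∀ y ∈ D, y ∈ RF (idl (A := A) (B := B) (lvX 2 f n)))
    (hDc : InCyc A B f (2 ^ (n + 2)) D) :
    EInpQ V f R u n h (fun τ => cWt h (θ n) τ) := by
  obtain ⟨hl0, _, _, hl2, hlu, hodd, hac, _, _, hcop⟩ := hLV 2 A B f (setL_Q hS) n
  have hb : (idl (A := A) (B := B) (lvX 2 f n)) ≠ ⊥ := by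
    intro hh
    apply hl0
    have := (Ideal.span_singleton_eq_bot.mp hh)
    exact_mod_cast (by
      have h1 := congrArg (fun x : OO A B => x.re) this
      simpa using h1 : ((lvX 2 f n : ℕ) : ℤ) = 0)
  have := hT.fin _ hb
  have := hT.gal _ hb
  obtain ⟨h1, h2, h3, _, _⟩ := hME A B _ (hT.fin _ hb) (hT.gal _ hb) (hT.comm _ hb) D h hD (θ n)
    (hth.ne n)
  let := algC h
  have hconj : ∀ τ : D ≃ₐ[kk A B] D, ∃ y : D, (y : ℂ) = cWt h (θ n) 1 ∧
      ((τ y : D) : ℂ) = cWt h (θ n) τ := by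
    intro τ
    refine ⟨⟨cWt h (θ n) 1, (h2 1).1⟩, rfl, ?_⟩
    have hm : cW h (θ n) ∈ D := by rw [h1]; exact (h2 1).1
    have := h3 τ hm
    have he : (⟨cWt h (θ n) 1, (h2 1).1⟩ : D) = ⟨cW h (θ n), hm⟩ := Subtype.ext h1.symm
    rw [he]; exact this
  refine ⟨(h2 1).2, hconj, ?_⟩
  intro om hom g hg τ'
  refine (hEF A B P V f hS hT ι R u e a1 a3 hG om hom n hn H hth.half D h hD hDc
    (fun τ => cWt h (θ n) τ) hconj ?_).2 g hg τ'
  intro τ
  obtain ⟨S, hS1, hS2, hS3⟩ := hCX A B hS.case.toCQ hT (2 * f) ι R (lvX 2 f n) hl0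
    (fun i => hcop _ (R.cop i)) hl2 (aX 2 f) H (by unfold aX; omega) hac hth.half (θ n)
    (hth.pt n) D h hD τ
  exact ⟨S, ⟨fun q hq => (hS1 q).2 (Or.inl hq), fun q hq => (hS1 q).1 hq, hS2⟩, hS3⟩

/-- the inputs of block J -/
theorem tr_INPG (hRF : SQ_RFIN) (hEF : SQ_EFIN) (hINP : Sr_INP) (hCYC : Pool.Agent.N2I.St_CYC)
    (hLV : Zl_LVX) (hIW : Sr_INWY) (hSUB : Sn_SUB) (hTH : Sz_THN) (hME : Sy_MEM) (hCX : Sy_CXS)
    (hRX : MUXY.Sy_REX) : SQ_INPG := by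
  intro A B P V d hC hP hV hT hd0 hd2 hdD hkap f hf0 hfp hfd K₀ K Bn _ _ _ hX hK hH hk hk₀ hkK
  have hCQ : CQ A B := hC.toCQ
  have hS : SetQ A B P V f := by
    refine ⟨hC, hP, hV, hf0, hfp, ?_, ?_⟩
    · have h1 : 8 * (d : ℤ) ∣ 8 * (f : ℤ) := mul_dvd_mul_left 8 (by exact_mod_cast hfd)
      exact hdD.trans h1
    · obtain ⟨κ, hκ⟩ := hkap
      have hle : idl (A := A) (B := B) f ≤ idl d := by
        refine Ideal.span_singleton_le_span_singleton.2 ?_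
        exact_mod_cast Nat.cast_dvd_cast hfd
      refine ⟨κ, hκ.one, hκ.mul, hκ.neg, fun x y hxy => hκ.per x y (hle hxy), fun x hx => ?_⟩
      refine hκ.unit x ?_
      rw [Ideal.isCoprime_iff_sup_eq] at hx ⊢
      exact top_le_iff.1 (hx ▸ sup_le_sup_left hle _)
  have hL : SetL 2 A B f := setL_Q hS
  have : Fact (Nat.Prime 2) := ⟨Nat.prime_two⟩
  have hB0 : B = 0 := hC.b0
  have hd3 : absD A B ≠ 3 := by
    intro h
    unfold absD at h
    rw [hB0] at h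
    omega
  have hd4 : absD A B ≠ 4 := by
    intro h
    apply hC.exc
    unfold absD at h
    rw [hB0] at h
    omega
  obtain ⟨ι, hι, ⟨R⟩⟩ := hRX A B hCQ hd3 hd4 (2 * f) (Nat.mul_ne_zero two_ne_zero hf0)
  have hodd := (hLV 2 A B f hL 0).2.2.2.2.2.1
  obtain ⟨H, hHalf, hθ⟩ := hTH A B hCQ hT (2 * f) ι R (aX 2 f) hodd
  have hθ' : ∀ n : ℕ, ∃ θ : (RF (idl (A := A) (B := B) (lvX 2 f n)) :
      IntermediateField (kk A B) ℂ),
      (θ : ℂ) = ThetaH (R.L R.i0) (H R.i0) (pt R (lvX 2 f n) R.i0 1) ∧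
      (θ : ℂ) = ThetaH (R.L R.i0) (H R.i0) (R.om R.i0 / emb ((lvX 2 f n : ℕ) : OO A B)) ∧
      θ ≠ 0 := fun n =>
    hθ (lvX 2 f n) (hLV 2 A B f hL n).1 (hLV 2 A B f hL n).2.2.2.2.1
      (hLV 2 A B f hL n).2.2.2.2.2.2.1
  choose θ hθ1 hθ2 hθ3 using hθ'
  have hth : ThN 2 f R H θ := ⟨hHalf, hθ1, hθ2, hθ3⟩
  obtain ⟨S, hW⟩ := hIW 2 A B f hL hT ι R H θ hth K₀ K Bn hX hK hH hk hk₀
  obtain ⟨u, e, a1, a3, hG, -, -⟩ := (hRF A B P V hC hP hV hT).1 _ _ _ (R.nl R.i0)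
  have hNL : ∃ (b : Ideal (OO A B)) (L : PeriodPair) (om : ℂ), IsNL b L om :=
    ⟨_, _, _, R.nl R.i0⟩
  have hK₀ : ∀ y ∈ K₀, y ∈ RF (idl (A := A) (B := B) (lvX 2 f 0)) := fun y hy => hK y (hX.le hy)
  have hDn : ∀ n, ∀ y ∈ K₀ ⊔ Bn n, y ∈ RF (idl (A := A) (B := B) (lvX 2 f n)) := fun n =>
    hSUB 2 A B f hL hT hNL K₀ hK₀ n (Bn n) (hX.b0.lay n)
  refine ⟨S, fun n => cW (hk n) (θ n), fun n => cW (hk₀ n) (θ n), 1, ?_⟩
  refine hINP A B P V f hS hT ι R u e a1 a3 hG K₀ K Bn hX hK₀ hk hk₀ hkK S _ _ 1 hW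
    (fun n τ => cWt (hk₀ n) (θ n) τ) (fun n hn => ?_) (fun n hn => ?_)
  · exact eInpQ hME hCX hEF hS hT hLV R hG hth n hn (K₀ ⊔ Bn n) (hk₀ n) (hDn n)
      (hCYC A B f K₀ hK₀ n (Bn n) (hX.b0.lay n))
  · have hb : (idl (A := A) (B := B) (lvX 2 f n)) ≠ ⊥ := by
      intro hh
      apply (hLV 2 A B f hL n).1
      have := (Ideal.span_singleton_eq_bot.mp hh)
      exact_mod_cast (by
        have h1 := congrArg (fun x : OO A B => x.re) this
        simpa using h1 : ((lvX 2 f n : ℕ) : ℤ) = 0)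
    exact (hME A B _ (hT.fin _ hb) (hT.gal _ hb) (hT.comm _ hb) _ (hk₀ n) (hDn n) (θ n)
      (hth.ne n)).1

end

end Pool.Agent.N2IR


end
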