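import Mathlib
import Pool.Agent.MVF.C049
import Pool.Agent.MVF.C058
import Pool.Agent.MVF.C068
import Pool.Agent.MVF.C090
import Pool.Agent.MVF.C114
import Pool.Agent.MVF.C127

/-! Parts: N2.V_HAL, N2.R_XIT, N2.R_VL2, N2.R_UNR, N2.R_UNQ, N2.R_SCL, N2.R_RED, N2.R_NRC, N2.R_MFD, N2.R_ISO, N2.R_GRT, N2.R_FXL, N2.R_EQL, N2.R_DU2, N2.RAll -/

namespace Pool.Agent.N2R.ISO
end Pool.Agent.N2R.ISO
namespace Pool.Agent.N2R.UNQ
end Pool.Agent.N2R.UNQ
namespace Pool.Agent.N2R.UNR
end Pool.Agent.N2R.UNR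
namespace Pool.Agent.N2R.VL2
end Pool.Agent.N2R.VL2
namespace Pool.Agent.N2R.XIT
end Pool.Agent.N2R.XIT

section

/-!
# MUX-2R, block ER2: module HAL, half systems which are stable under `1 + N w0` and `m' b`
-/

set_option autoImplicit false

open Polynomial

namespace Pool.Agent.N2V

open _root_.MU3 _root_.Pool.Agent.MU3A _root_.Pool.Agent.MU3B _root_.Pool.Agent.MUX _root_.Pool.Agent.MUXU _root_.Pool.Agent.MUXE
open _root_.Pool.Agent.RI _root_.Pool.Agent.NS _root_.Pool.Agent.N2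
open _root_.Pool.Agent.NSE (IntP)
open _root_.Pool.Agent.MUX2 (GRG)
open _root_.Pool.Agent.MUXV (InK tX)
open _root_.Pool.Agent.N2E (dlg AutC cc)

noncomputable section

open _root_.Pool.Agent.N2E.HAL in
/-- HAL. -/
theorem tv_HAL (h1 : Sv_CON) (h2 : Sv_XXS) : Sv_HAL := by
  classical
  intro A B P V n f a m m' hS ι _ R D h
  letI := algC h
  intro τ hst htr
  have hcq := hS.ctx.cq
  have hf3 := hS.f3
  have hm : m ≠ 0 := by
    rw [hS.hm]
    exact mul_ne_zero (pow_ne_zero _ two_ne_zero) (by omega)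
  have hfm : f ∣ m := by
    rw [hS.hm]
    exact dvd_mul_left _ _
  have hfm' : f ∣ m' := by
    rw [hS.hm']
    exact dvd_mul_left _ _
  have hbot : ∀ k : ℕ, k ≠ 0 → idl (A := A) (B := B) k ≠ ⊥ := by
    intro k hk h0
    rw [Ideal.span_singleton_eq_bot] at h0
    exact natCast_ne_zero' hcq hk h0
  haveI : Finite (OO A B ⧸ idl (A := A) (B := B) m) := finite_quot hcq (hbot m hm)
  haveI : Finite (OO A B ⧸ idl (A := A) (B := B) f) := finite_quot hcq (hbot f (by omega))
  have hle : idl (A := A) (B := B) m ≤ idl (A := A) (B := B) f := by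
    rw [Ideal.span_singleton_le_span_singleton]
    obtain ⟨k, hk⟩ := hfm
    exact ⟨(k : OO A B), by rw [hk]; push_cast; ring⟩
  set r : (OO A B ⧸ idl (A := A) (B := B) m) →+* (OO A B ⧸ idl (A := A) (B := B) f) :=
    Ideal.Quotient.factor hle with hr
  have hrm : ∀ x : OO A B, r (Ideal.Quotient.mk _ x) = Ideal.Quotient.mk _ x := fun x =>
    Ideal.Quotient.factor_mk hle x
  obtain ⟨j, hj⟩ := exists_injective_nat (OO A B ⧸ idl (A := A) (B := B) f)
  set c : OO A B := cc (NN n f a) w0 with hc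
  have hc1 : r (Ideal.Quotient.mk _ c) = 1 := by
    rw [hrm, ← map_one (Ideal.Quotient.mk (idl (A := A) (B := B) f)), Ideal.Quotient.eq]
    have h3 := ((h1 A B P V n f a m m' hS).1 w0).2.2.2.2.1
    rw [← hc] at h3
    have h4 : idl (A := A) (B := B) (4 * f) ≤ idl (A := A) (B := B) f := by
      rw [Ideal.span_singleton_le_span_singleton]
      exact ⟨4, by push_cast; ring⟩
    exact h4 h3
  have hrc : ∀ X, r (Ideal.Quotient.mk _ c * X) = r X := by
    intro X
    rw [map_mul, hc1, one_mul]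
  have hrt : ∀ X, ∀ b : OO A B, r (X + Ideal.Quotient.mk _ ((m' : OO A B) * b)) = r X := by
    intro X b
    have h3 : r (Ideal.Quotient.mk _ ((m' : OO A B) * b)) = 0 := by
      rw [hrm, Ideal.Quotient.eq_zero_iff_mem, Ideal.mem_span_singleton]
      obtain ⟨k, hk⟩ := hfm'
      exact ⟨(k : OO A B) * b, by rw [hk]; push_cast; ring⟩
    rw [map_add, h3, add_zero]
  have hne : ∀ q ∈ XX R m h τ, r q.2 ≠ -r q.2 := by
    intro q hq h0
    have h3 : q.2 = Ideal.Quotient.mk _ (Quotient.out q.2 : OO A B) := (Quotient.out_eq q.2).symm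
    have h4 : r q.2 + r q.2 = 0 := by
      nth_rewrite 1 [h0]
      exact neg_add_cancel _
    rw [h3, hrm, ← map_add, Ideal.Quotient.eq_zero_iff_mem, ← two_mul] at h4
    exact two_mul_notMem hf3 hS.fo hfm hq.1 h4
  have hfin : {q | q ∈ XX R m h τ ∧ j (r q.2) < j (-r q.2)}.Finite := Set.toFinite _
  have hmem : ∀ q, q ∈ hfin.toFinset ↔ q ∈ XX R m h τ ∧ j (r q.2) < j (-r q.2) := by
    intro q
    rw [Set.Finite.mem_toFinset]
    rfl
  refine ⟨hfin.toFinset, ⟨?_, ?_, ?_⟩, ?_, ?_⟩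
  · intro q hq
    exact ((hmem q).1 hq).1
  · intro q hq
    have h3 : j (r q.2) ≠ j (-r q.2) := fun h4 => hne q hq (hj h4)
    rcases lt_or_gt_of_ne h3 with h4 | h4
    · exact Or.inl ((hmem q).2 ⟨hq, h4⟩)
    · right
      refine (hmem _).2 ⟨(h2 A B P V n f a m m' hS ι R D h τ q hq).1, ?_⟩
      change j (r (-q.2)) < j (-r (-q.2))
      rw [map_neg, neg_neg]
      exact h4
  · intro q hq h3
    have h4 := ((hmem q).1 hq).2
    have h5 : j (r (-q.2)) < j (-r (-q.2)) := ((hmem _).1 h3).2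
    rw [map_neg, neg_neg] at h5
    omega
  · intro q hq
    obtain ⟨h3, h4⟩ := (hmem q).1 hq
    refine (hmem _).2 ⟨hst q h3, ?_⟩
    change j (r (Ideal.Quotient.mk _ c * q.2)) < j (-r (Ideal.Quotient.mk _ c * q.2))
    rw [hrc]
    exact h4
  · intro q hq b
    obtain ⟨h3, h4⟩ := (hmem q).1 hq
    refine (hmem _).2 ⟨htr q h3 b, ?_⟩
    change j (r (q.2 + Ideal.Quotient.mk _ ((m' : OO A B) * b))) <
      j (-r (q.2 + Ideal.Quotient.mk _ ((m' : OO A B) * b)))
    rw [hrt]
    exact h4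

end

end Pool.Agent.N2V


end

section

/-!
# MUX-2N, block R, module XIT: the group isomorphism in Deuring form (helper76)

Model: `Pool/Agent/MUX/R2_GR2.lean` (helper46).
-/

set_option autoImplicit false

open WeierstrassCurve Polynomial

namespace Pool.Agent.N2R

open _root_.MU3 _root_.Pool.Agent.MU3A _root_.Pool.Agent.MU3B _root_.Pool.Agent.RI _root_.Pool.Agent.MUX _root_.Pool.Agent.MUXU
open _root_.Pool.Agent.MUXV (InK tX)
open _root_.Pool.Agent.MUX2 (GRG)
open _root_.Pool.Agent.NS (xu)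
open _root_.Pool.Agent.N2 (WT yt et GoodT CaseT)

noncomputable section

namespace XIT

open WeierstrassCurve.Affine

theorem some_eq {W : WeierstrassCurve.Affine ℂ} {x y x' y' : ℂ} (h : W.Nonsingular x y)
    (h' : W.Nonsingular x' y') (hx : x = x') (hy : y = y') :
    Point.some x y h = Point.some x' y' h' := by
  subst hx hy
  rfl

theorem disc (a c : ℂ) : (WT a c).Δ = c ^ 3 * (a ^ 3 - 27 * c) := by
  have w1 : (WT a c).a₁ = a := rfl
  have w2 : (WT a c).a₂ = 0 := rfl
  have w3 : (WT a c).a₃ = c := rfl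
  have w4 : (WT a c).a₄ = 0 := rfl
  have w6 : (WT a c).a₆ = 0 := rfl
  rw [WeierstrassCurve.Δ, WeierstrassCurve.b₂, WeierstrassCurve.b₄, WeierstrassCurve.b₆,
    WeierstrassCurve.b₈, w1, w2, w3, w4, w6]
  ring

end XIT

open _root_.Pool.Agent.N2R.XIT WeierstrassCurve.Affine in
theorem tr_XIT (hDEF : Sr_DEF) : Sr_XIT := by
  intro L u e a c hD0
  classical
  obtain ⟨he, hc0, hac, hg2, hg3, -, -⟩ := hDEF L u e a c hD0
  have hu := hD0.u0
  have hu2 : u ^ 2 ≠ 0 := pow_ne_zero 2 hu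
  have hu3 : u ^ 3 ≠ 0 := pow_ne_zero 3 hu
  obtain ⟨P, hP⟩ : ∃ P : ℂ → ℂ, P = L.weierstrassP := ⟨_, rfl⟩
  obtain ⟨D, hD⟩ : ∃ D : ℂ → ℂ, D = L.derivWeierstrassP := ⟨_, rfl⟩
  obtain ⟨X, hX0⟩ : ∃ X : ℂ → ℂ, X = xu L u e := ⟨_, rfl⟩
  obtain ⟨T, hT0⟩ : ∃ T : ℂ → ℂ, T = et L u := ⟨_, rfl⟩
  obtain ⟨Y, hY0⟩ : ∃ Y : ℂ → ℂ, Y = yt L u e a c := ⟨_, rfl⟩
  have hPX : ∀ z, P z = u ^ 2 * X z + e := fun z => by
    rw [hX0, xu, hP]
    field_simp
    ring
  have hDT : ∀ z, D z = u ^ 3 * T z := fun z => by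
    rw [hT0, et, hD]
    field_simp
  have hYe : ∀ z, Y z = (T z - a * X z - c) / 2 := fun z => by
    rw [hX0, hT0, hY0, yt]
  obtain ⟨W, hW⟩ : ∃ W : WeierstrassCurve.Affine ℂ, W = WT a c := ⟨_, rfl⟩
  have w1 : W.a₁ = a := by rw [hW]; rfl
  have w2 : W.a₂ = 0 := by rw [hW]; rfl
  have w3 : W.a₃ = c := by rw [hW]; rfl
  have w4 : W.a₄ = 0 := by rw [hW]; rfl
  have w6 : W.a₆ = 0 := by rw [hW]; rfl
  have wΔ : W.Δ ≠ 0 := by
    rw [hW, disc]
    exact mul_ne_zero (pow_ne_zero 3 hc0) (sub_ne_zero.2 hac)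
  -- the facts
  have hTsq : ∀ z, z ∉ L.lattice → T z ^ 2 = 4 * X z ^ 3 + (a * X z + c) ^ 2 := fun z hz => by
    rw [hX0, hT0, et]
    exact hD0.eq z hz
  have hpar : ∀ z, P (-z) = P z ∧ D (-z) = -D z := fun z => by
    rw [hP, hD]
    exact ⟨L.weierstrassP_neg z, L.derivWeierstrassP_neg z⟩
  have hper : ∀ z, ∀ v ∈ L.lattice, P (z + v) = P z ∧ D (z + v) = D z := by
    intro z v hv
    rw [hP, hD]
    exact ⟨L.weierstrassP_add_coe z ⟨v, hv⟩, L.derivWeierstrassP_add_coe z ⟨v, hv⟩⟩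
  have eqX : ∀ z z', P z = P z' → X z = X z' := by
    intro z z' h
    rw [hPX, hPX] at h
    exact mul_left_cancel₀ hu2 (add_right_cancel h)
  have eqT : ∀ z z', D z = D z' → T z = T z' := by
    intro z z' h
    rw [hDT, hDT] at h
    exact mul_left_cancel₀ hu3 h
  have hinj : ∀ z z', z ∉ L.lattice → z' ∉ L.lattice → P z = P z' →
      z - z' ∈ L.lattice ∨ z + z' ∈ L.lattice := fun z z' hz hz' hx => by
    rw [hP] at hx
    exact b_NEQ L z' z hz' hz hx
  have hy0 : ∀ z, z ∉ L.lattice → (D z = 0 ↔ 2 * z ∈ L.lattice) := fun z hz => by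
    rw [hD]
    exact b_ZER L z hz
  have hadd := b_ADD L
  have hdbl := b_DUP L
  rw [← hP, ← hD] at hadd hdbl
  have ns : ∀ z, z ∉ L.lattice → W.Nonsingular (X z) (Y z) := by
    intro z hz
    rw [← equation_iff_nonsingular_of_Δ_ne_zero wΔ, WeierstrassCurve.Affine.equation_iff, w1, w2,
      w3, w4, w6, hYe]
    linear_combination (1 / 4) * hTsq z hz
  obtain ⟨f, hf⟩ : ∃ f : ℂ → W.Point,
      f = fun z => if h : z ∈ L.lattice then 0 else Point.some _ _ (ns z h) := ⟨_, rfl⟩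
  have hf0 : ∀ z, z ∈ L.lattice → f z = 0 := fun z hz => by rw [hf]; exact dif_pos hz
  have hf1 : ∀ z (hz : z ∉ L.lattice), f z = Point.some _ _ (ns z hz) := fun z hz => by
    rw [hf]; exact dif_neg hz
  have hfper : ∀ z, ∀ v ∈ L.lattice, f (z + v) = f z := by
    intro z v hv
    by_cases hz : z ∈ L.lattice
    · rw [hf0 z hz, hf0 _ (add_mem hz hv)]
    · have hzu : z + v ∉ L.lattice := fun h => hz (by
        have := sub_mem h hv
        rwa [add_sub_cancel_right] at this)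
      have h1 := eqX _ _ (hper z v hv).1
      have h2 := eqT _ _ (hper z v hv).2
      rw [hf1 z hz, hf1 _ hzu]
      exact some_eq _ _ h1 (by rw [hYe, hYe, h1, h2])
  have hnegY : ∀ x y : ℂ, W.negY x y = -y - a * x - c := by
    intro x y
    rw [WeierstrassCurve.Affine.negY, w1, w3]
  have hmap : ∀ z z', f (z + z') = f z + f z' := by
    intro z z'
    by_cases hz : z ∈ L.lattice
    · rw [hf0 z hz, zero_add, add_comm z z', hfper z' z hz]
    by_cases hz' : z' ∈ L.lattice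
    · rw [hf0 z' hz', add_zero, hfper z z' hz']
    by_cases hzz : z + z' ∈ L.lattice
    · rw [hf0 _ hzz, hf1 z hz, hf1 z' hz']
      have e1 : z = -z' + (z + z') := by ring
      have hx : X z = X z' := by
        apply eqX
        rw [e1, (hper (-z') _ hzz).1, (hpar z').1]
      have hy : T z = -T z' := by
        have h1 : D z = -D z' := by
          rw [e1, (hper (-z') _ hzz).2, (hpar z').2]
        rw [hDT, hDT] at h1
        apply mul_left_cancel₀ hu3
        rw [h1]
        ring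
      exact (Point.add_of_Y_eq hx (by rw [hnegY, hYe, hYe, hx, hy]; ring)).symm
    by_cases hzd : z - z' ∈ L.lattice
    · have e1 : f z' = f z := by
        have := hfper z' _ hzd
        rw [← this]
        congr 1
        ring
      have e2 : f (z + z') = f (2 * z) := by
        have := hfper (z + z') _ hzd
        rw [← this]
        congr 1
        ring
      have h2z : 2 * z ∉ L.lattice := by
        intro h
        apply hzz
        have := sub_mem h hzd
        have e : z + z' = 2 * z - (z - z') := by ring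
        rwa [e]
      have ht : T z ≠ 0 := fun h => h2z ((hy0 z hz).1 (by rw [hDT, h, mul_zero]))
      have hyne : Y z ≠ W.negY (X z) (Y z) := by
        rw [hnegY, hYe]
        intro h0
        apply ht
        linear_combination h0
      rw [e1, e2, hf1 z hz, hf1 _ h2z, Point.add_self_of_Y_ne hyne]
      obtain ⟨m, hm⟩ : ∃ m : ℂ, m = (6 * X z ^ 2 + a ^ 2 * X z + a * c) / (2 * T z) := ⟨_, rfl⟩
      have hM : (6 * P z ^ 2 - L.g₂ / 2) / (2 * D z) = u * m := by
        have h1 : 6 * P z ^ 2 - L.g₂ / 2 = u ^ 4 * (6 * X z ^ 2 + a ^ 2 * X z + a * c) := by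
          rw [hPX, hg2]
          linear_combination (u ^ 2 * X z + e / 2 + u ^ 2 * a ^ 2 / 24) * he
        rw [h1, hDT, hm]
        field_simp
      have hsl : W.slope (X z) (X z) (Y z) (Y z) = m - a / 2 := by
        rw [WeierstrassCurve.Affine.slope_of_Y_ne rfl hyne, hnegY, w1, w2, w4]
        have h3 : Y z - (-Y z - a * X z - c) = T z := by rw [hYe]; ring
        rw [h3, hYe, hm]
        field_simp
        ring
      obtain ⟨hd1, hd2⟩ := hdbl z h2z
      rw [hM, hPX, hPX] at hd1 hd2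
      rw [hDT, hDT] at hd2
      have hx2 : X (2 * z) + 2 * X z + a ^ 2 / 4 = m ^ 2 := by
        apply mul_left_cancel₀ hu2
        linear_combination hd1 - (1 / 4) * he
      have ht2 : T (2 * z) + T z = -2 * m * (X (2 * z) - X z) := by
        apply mul_left_cancel₀ hu3
        linear_combination hd2
      have hX : W.addX (X z) (X z)
          (W.slope (X z) (X z) (Y z) (Y z)) = X (2 * z) := by
        rw [WeierstrassCurve.Affine.addX, hsl, w1, w2]
        linear_combination -hx2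
      apply some_eq
      · exact hX.symm
      · rw [WeierstrassCurve.Affine.addY, WeierstrassCurve.Affine.negAddY, hnegY, hX, hsl]
        rw [hYe, hYe]
        linear_combination (1 / 2) * ht2
    · have hxne : X z ≠ X z' := by
        intro h
        rcases hinj z z' hz hz' (by rw [hPX, hPX, h]) with h3 | h3
        · exact hzd h3
        · exact hzz h3
      have hxne' : X z - X z' ≠ 0 := sub_ne_zero.2 hxne
      rw [hf1 z hz, hf1 z' hz', hf1 _ hzz, Point.add_of_X_ne hxne]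
      obtain ⟨m, hm⟩ : ∃ m : ℂ, m = (T z - T z') / (2 * (X z - X z')) := ⟨_, rfl⟩
      have hM : (D z - D z') / (2 * (P z - P z')) = u * m := by
        have h1 : P z - P z' = u ^ 2 * (X z - X z') := by rw [hPX, hPX]; ring
        have h2 : D z - D z' = u ^ 3 * (T z - T z') := by rw [hDT, hDT]; ring
        rw [h1, h2, hm]
        field_simp
      have hsl : W.slope (X z) (X z') (Y z) (Y z') = m - a / 2 := by
        rw [WeierstrassCurve.Affine.slope_of_X_ne hxne, hYe, hYe, hm]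
        field_simp
        ring
      obtain ⟨ha1, ha2⟩ := hadd z' z hz' hz hzz hzd
      rw [hM, hPX, hPX] at ha1 ha2
      rw [hPX z'] at ha1
      rw [hDT, hDT] at ha2
      have hx2 : X (z + z') + X z + X z' + a ^ 2 / 4 = m ^ 2 := by
        apply mul_left_cancel₀ hu2
        linear_combination ha1 - (1 / 4) * he
      have ht2 : T (z + z') + T z = -2 * m * (X (z + z') - X z) := by
        apply mul_left_cancel₀ hu3
        linear_combination ha2
      have hX : W.addX (X z) (X z')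
          (W.slope (X z) (X z') (Y z) (Y z')) = X (z + z') := by
        rw [WeierstrassCurve.Affine.addX, hsl, w1, w2]
        linear_combination -hx2
      apply some_eq
      · exact hX.symm
      · rw [WeierstrassCurve.Affine.addY, WeierstrassCurve.Affine.negAddY, hnegY, hX, hsl]
        rw [hYe, hYe]
        linear_combination (1 / 2) * ht2
  subst hW
  refine ⟨⟨⟨f, hf0 0 L.lattice.zero_mem⟩, hmap⟩, ?_, ?_, ?_⟩
  · intro z
    refine ⟨fun h => ?_, fun h => hf0 z h⟩
    by_contra hz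
    have h1 : f z = 0 := h
    rw [hf1 z hz] at h1
    exact Point.some_ne_zero _ h1
  · intro p
    rcases p with _ | ⟨x, y, h⟩
    · exact ⟨0, hf0 0 L.lattice.zero_mem⟩
    · have heq := (WeierstrassCurve.Affine.equation_iff _ _).1 h.1
      rw [w1, w2, w3, w4, w6] at heq
      obtain ⟨z, hz, hzP, hzD⟩ := (b_DSC L).2 (u ^ 2 * x + e) (u ^ 3 * (2 * y + a * x + c)) (by
        rw [hg2, hg3]
        have he' : e = u ^ 2 * a ^ 2 / 12 := by linear_combination (1 / 12) * he
        rw [he']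
        linear_combination (4 * u ^ 6) * heq)
      refine ⟨z, ?_⟩
      have h1 : f z = _ := hf1 z hz
      refine h1.trans ?_
      have h2 : X z = x := by
        apply mul_left_cancel₀ hu2
        have h3 := hPX z
        rw [hP, hzP] at h3
        exact (add_right_cancel h3).symm
      have h4 : T z = 2 * y + a * x + c := by
        apply mul_left_cancel₀ hu3
        have h3 := hDT z
        rw [hD, hzD] at h3
        exact h3.symm
      exact some_eq _ _ h2 (by rw [hYe, h2, h4]; ring)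
  · intro z hz
    rw [← hX0, ← hY0]
    exact ⟨ns z hz, hf1 z hz⟩

end

end Pool.Agent.N2R


end

section

/-!
# MUX-2N, block R, module VL2: the values of `RF (f)` at `V`, `f` odd; 2 inert, and 2 ramified
-/

set_option autoImplicit false

open WeierstrassCurve Polynomial

namespace Pool.Agent.N2R

open _root_.MU3 _root_.Pool.Agent.MU3A _root_.Pool.Agent.MU3B _root_.Pool.Agent.RI _root_.Pool.Agent.MUX _root_.Pool.Agent.MUXU

noncomputable section

namespace VL2

open _root_.Pool.Agent.NSR.VAL3 _root_.Pool.Agent.NSR.ALRaux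

/-- odd integers are units at `V` -/
lemma v_odd {V : ValuationSubring ℂ} (h2 : V.valuation (2 : ℂ) < 1) {n : ℤ}
    (hn : ¬ (2 : ℤ) ∣ n) : V.valuation (n : ℂ) = 1 := by
  refine le_antisymm (v_int V n) (not_lt.1 fun hlt => ?_)
  obtain ⟨k, hk⟩ : ∃ k : ℤ, n = 2 * k + 1 := ⟨n / 2, by omega⟩
  have h5 : V.valuation ((2 : ℂ) * (k : ℂ)) < 1 := by
    rw [map_mul]
    exact lt_of_le_of_lt (mul_le_of_le_one_right' (v_int V k)) h2
  have h6 := Valuation.map_sub_lt V.valuation hlt h5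
  have h7 : (n : ℂ) - 2 * (k : ℂ) = 1 := by
    rw [hk]
    push_cast
    ring
  rw [h7, map_one] at h6
  exact lt_irrefl _ h6

/-- the common part: a finite Galois extension with trivial inertia -/
lemma main (hU : Sr_UNR) {A B : ℤ} {V : ValuationSubring ℂ} {β : OO A B} {N : ℕ}
    (hN : CtxB A B V β N) (hT : TorX A B) {P : Ideal (OO A B)} (hP : P ≠ ⊥) (hV : OverI V P)
    {ϖ : OO A B} (h1 : ϖ ∈ P) (h2 : ϖ ∉ P ^ 2) {f : ℕ} (hf : Odd f) {y : ℂ}
    (hy : y ∈ RF (idl (A := A) (B := B) f)) (hy0 : y ≠ 0) :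
    ∃ k : ℤ, V.valuation y = V.valuation (emb ϖ) ^ k := by
  have hC : CQ A B := hN.cq
  have hf0 : f ≠ 0 := by
    rintro rfl
    exact absurd hf (by decide)
  have _ : FiniteDimensional (kk A B) (RF (idl (A := A) (B := B) f)) := hT.fin _ (idl_ne hC hf0)
  have _ : IsGalois (kk A B) (RF (idl (A := A) (B := B) f)) := hT.gal _ (idl_ne hC hf0)
  exact Pool.Agent.NSR.tr_RAM A B V P ϖ hC (isPrime hC hV) hP hV h1 h2
    (RF (idl (A := A) (B := B) f)) (by
      intro σ hσ
      obtain ⟨s, hs, hsσ⟩ := Pool.Agent.MUXC.CMM.ext tu_AUE hC _ σ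
      have h4 := hU A B V β N hN hT f hf s hs (by
        intro z hz hvz
        have h5 := hσ ⟨z, hz⟩ hvz
        rw [← hsσ] at h5
        exact h5)
      ext z
      have h5 := h4 z z.2
      rw [hsσ] at h5
      exact h5) y hy hy0

/-- `v x ≤ v β` for the elements of the maximal ideal, if `v(β)² = v 2` -/
lemma le_beta {V : ValuationSubring ℂ} (v2 : V.valuation (2 : ℂ) < 1) {β : ℂ}
    (hβ : V.valuation β ^ 2 = V.valuation (2 : ℂ)) (hβ1 : V.valuation β < 1) (n m : ℤ)
    (hx : V.valuation ((n : ℂ) + m * β) < 1) :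
    V.valuation ((n : ℂ) + m * β) ≤ V.valuation β := by
  have h1 : V.valuation ((m : ℂ) * β) ≤ V.valuation β := by
    rw [map_mul]
    exact mul_le_of_le_one_left' (v_int V m)
  have h2 : V.valuation (n : ℂ) < 1 := by
    have h3 := Valuation.map_sub_lt V.valuation hx (lt_of_le_of_lt h1 hβ1)
    rwa [add_sub_cancel_right] at h3
  have h3 : (2 : ℤ) ∣ n := by
    by_contra hno
    rw [v_odd v2 hno] at h2
    exact lt_irrefl _ h2
  obtain ⟨k, rfl⟩ := h3
  have h4 : V.valuation (((2 * k : ℤ)) : ℂ) ≤ V.valuation β := by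
    push_cast
    rw [map_mul, ← hβ, sq]
    calc V.valuation β * V.valuation β * V.valuation (k : ℂ)
        ≤ V.valuation β * V.valuation β := mul_le_of_le_one_right' (v_int V k)
      _ ≤ V.valuation β := mul_le_of_le_one_right' hβ1.le
  exact le_trans (Valuation.map_add _ _ _) (max_le h4 h1)

/-- a uniformiser of the prime over 2, 2 ramified -/
lemma unif {A B : ℤ} {V : ValuationSubring ℂ} {P : Ideal (OO A B)} (hC : CQ A B)
    (hV : OverI V P) (v2 : V.valuation (2 : ℂ) < 1) (β : OO A B)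
    (hβ : V.valuation (emb β) ^ 2 = V.valuation (2 : ℂ))
    (hx : ∀ x : OO A B, ∃ n m : ℤ, emb x = n + m * emb β) :
    β ∈ P ∧ β ∉ P ^ 2 := by
  have hβ1 : V.valuation (emb β) < 1 := by
    rw [← not_le]
    intro h
    have h1 := one_le_pow₀ (n := 2) h
    rw [hβ] at h1
    exact absurd v2 (not_lt.2 h1)
  have hβ0 : V.valuation (emb β) ≠ 0 := by
    intro h
    rw [h, zero_pow two_ne_zero] at hβ
    have h2 : V.valuation (2 : ℂ) ≠ 0 := by
      rw [Ne, map_eq_zero]
      norm_num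
    exact h2 hβ.symm
  refine ⟨(hV β).1 (V.mem_nonunits_iff.2 hβ1), fun h => ?_⟩
  have hP : ∀ x ∈ P, V.valuation (emb x) ≤ V.valuation (emb β) := by
    intro x hxP
    obtain ⟨n, m, h1⟩ := hx x
    have h2 := V.mem_nonunits_iff.1 ((hV x).2 hxP)
    rw [h1] at h2 ⊢
    exact le_beta v2 hβ hβ1 n m h2
  have hP2 : ∀ x ∈ P ^ 2, V.valuation (emb x) ≤ V.valuation (emb β) * V.valuation (emb β) := by
    intro x hxP
    rw [sq] at hxP
    refine Submodule.mul_induction_on hxP (fun a ha b hb => ?_) (fun a b ha hb => ?_)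
    · rw [_root_.Pool.Agent.MUX.emb_mul hC, map_mul]
      exact mul_le_mul' (hP a ha) (hP b hb)
    · rw [_root_.Pool.Agent.MUX.emb_add hC]
      exact le_trans (Valuation.map_add _ _ _) (max_le ha hb)
  have h1 := hP2 β h
  have h2 : V.valuation (emb β) * V.valuation (emb β) < V.valuation (emb β) * 1 :=
    (mul_lt_mul_iff_right₀ (zero_lt_iff.2 hβ0)).2 hβ1
  rw [mul_one] at h2
  exact absurd h1 (not_le.2 h2)

/-- there is a uniformiser with `v(β)² = v 2` -/
lemma exists_unif {A B : ℤ} {V : ValuationSubring ℂ} (hC : CQ A B)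
    (hD : (2 : ℤ) ∣ B ^ 2 + 4 * A) (v2 : V.valuation (2 : ℂ) < 1) :
    ∃ β : OO A B, V.valuation (emb β) ^ 2 = V.valuation (2 : ℂ) ∧
      ∀ x : OO A B, ∃ n m : ℤ, emb x = n + m * emb β := by
  have hw := _root_.Pool.Agent.MUX.wC_sq hC
  have hB : B = 0 := by
    rcases hC.hB with h | h
    · exact h
    · subst h
      omega
  subst hB
  have hf := hC.fund0 rfl
  have hn4 : ¬ (4 : ℤ) ∣ A := by
    rintro ⟨c, hc⟩
    have h2 := hf.1 2 ⟨c, by rw [hc]; ring⟩
    exact absurd (Int.isUnit_iff.1 h2) (by norm_num)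
  have hf2 := hf.2
  by_cases hA : (2 : ℤ) ∣ A
  · obtain ⟨a, ha⟩ := hA
    have ha2 : ¬ (2 : ℤ) ∣ a := by omega
    refine ⟨⟨0, 1⟩, ?_, fun x => ⟨x.re, x.im, ?_⟩⟩
    · rw [MUX.emb_w, sq, ← map_mul, hw]
      have h6 : ((A : ℤ) : ℂ) + ((0 : ℤ) : ℂ) * wC A 0 = 2 * (a : ℂ) := by
        rw [ha]
        push_cast
        ring
      rw [h6, map_mul, v_odd v2 ha2, mul_one]
    · rw [MUX.emb_w]
      rfl
  · have hA2 : A % 4 = 3 := by omega
    refine ⟨⟨1, 1⟩, ?_, fun x => ⟨x.re - x.im, x.im, ?_⟩⟩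
    · have h5 : emb (⟨1, 1⟩ : OO A 0) = 1 + wC A 0 := by
        unfold emb
        push_cast
        ring
      obtain ⟨a, ha⟩ : ∃ a : ℤ, A = 4 * a + 3 := ⟨A / 4, by omega⟩
      -- `β² = 2 (2 (a + 1) + w)`
      have h6 : (1 + wC A 0) * (1 + wC A 0) = 2 * (2 * ((a + 1 : ℤ) : ℂ) + wC A 0) := by
        have h7 : ((A : ℤ) : ℂ) = 4 * (a : ℂ) + 3 := by
          rw [ha]
          push_cast
          ring
        rw [h7] at hw
        push_cast at hw ⊢
        linear_combination hw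
      have h8 : V.valuation (wC A 0) = 1 := by
        have h9 : V.valuation (wC A 0) ^ 2 = 1 := by
          rw [sq, ← map_mul, hw]
          have h10 : ((A : ℤ) : ℂ) + ((0 : ℤ) : ℂ) * wC A 0 = ((A : ℤ) : ℂ) := by
            push_cast
            ring
          rw [h10]
          exact v_odd v2 (by omega)
        exact (pow_eq_one_iff_of_nonneg zero_le two_ne_zero).1 h9
      have h11 : V.valuation (2 * ((a + 1 : ℤ) : ℂ)) < 1 := by
        rw [map_mul]
        exact lt_of_le_of_lt (mul_le_of_le_one_right' (v_int V _)) v2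
      have h12 : V.valuation (2 * ((a + 1 : ℤ) : ℂ) + wC A 0) = 1 := by
        rw [Valuation.map_add_eq_of_lt_right _ (by rw [h8]; exact h11), h8]
      rw [h5, sq, ← map_mul, h6, map_mul, h12, mul_one]
    · unfold emb
      push_cast
      ring

end VL2

open _root_.Pool.Agent.N2R.VL2 in
/-- (VL2) the values of `RF (f)` at `V` -/
theorem tr_VL2 (h1 : Sr_ALB) (h2 : Sr_ALC) (h3 : Sr_UNR) : Sr_VL2 := by
  refine ⟨?_, ?_⟩
  · intro A B V hC hD hV hT f hf y hy hy0
    obtain ⟨β, N, hN, -⟩ := h1 A B V hC hD hV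
    have hmem : ((2 : ℕ) : OO A B) ∈ idl (A := A) (B := B) 2 := Ideal.mem_span_singleton_self _
    have hnot : ((2 : ℕ) : OO A B) ∉ idl (A := A) (B := B) 2 ^ 2 := by
      intro h
      rw [Ideal.span_singleton_pow, Ideal.mem_span_singleton] at h
      obtain ⟨x, hx⟩ := h
      have h4 := congrArg emb hx
      rw [_root_.Pool.Agent.MUX.emb_mul hC, emb_pow hC, _root_.Pool.Agent.MUX.emb_natCast hC] at h4
      have h5 : emb (((2 : ℕ) : OO A B) * x) = 1 := by
        rw [_root_.Pool.Agent.MUX.emb_mul hC, _root_.Pool.Agent.MUX.emb_natCast hC]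
        push_cast at h4 ⊢
        linear_combination -(1 / 2) * h4
      have h6 := (hV _).2 ((idl (A := A) (B := B) 2).mul_mem_right x hmem)
      rw [h5, ValuationSubring.mem_nonunits_iff, map_one] at h6
      exact lt_irrefl _ h6
    obtain ⟨k, hk⟩ := main h3 hN hT (Pool.Agent.NSR.VAL3.idl_ne hC (by norm_num)) hV hmem hnot hf
      hy hy0
    refine ⟨k, ?_⟩
    rw [hk, _root_.Pool.Agent.MUX.emb_natCast hC]
    norm_num
  · intro A B V P hC hD hV h2P hT f hf y hy hy0
    obtain ⟨β, N, hN, -⟩ := h2 A B V P hC hD hV h2P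
    obtain ⟨ϖ, hϖ, hx⟩ := exists_unif hC hD hN.v2
    obtain ⟨hm, hn⟩ := unif hC hV hN.v2 ϖ hϖ hx
    have hP : P ≠ ⊥ := by
      rintro rfl
      exact Pool.Agent.NSR.VAL3.natCast_ne hC (by norm_num) ((Submodule.mem_bot _).1 h2P)
    obtain ⟨k, hk⟩ := main h3 hN hT hP hV hm hn hf hy hy0
    refine ⟨k, ?_⟩
    rw [hk, ← hϖ, ← zpow_natCast, ← zpow_natCast, ← zpow_mul, ← zpow_mul, mul_comm]

end

end Pool.Agent.N2R


end

section

/-!
# MUX-2N, block R, module UNR: the inertia groups of `RF (idl f)` are trivial, `f` odd (helper40)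
-/

set_option autoImplicit false

open WeierstrassCurve Polynomial

namespace Pool.Agent.N2R

open _root_.MU3 _root_.Pool.Agent.MU3A _root_.Pool.Agent.MU3B _root_.Pool.Agent.RI _root_.Pool.Agent.MUX _root_.Pool.Agent.MUXU
open _root_.Pool.Agent.MUXV (InK tX)
open _root_.Pool.Agent.MUX2 (GRG)
open _root_.Pool.Agent.NS (xu)
open _root_.Pool.Agent.N2 (WT yt et GoodT CaseT)

noncomputable section

namespace UNR

variable {A B : ℤ}

/-- an automorphism which fixes `wC` fixes `k` -/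
lemma fix_kk {σ : ℂ ≃+* ℂ} (hσ : FixK A B σ) : ∀ y ∈ kk A B, σ y = y := by
  intro y hy
  induction hy using IntermediateField.adjoin_induction with
  | mem x hx => rw [Set.mem_singleton_iff] at hx; rw [hx]; exact hσ
  | algebraMap x => simp
  | add x y _ _ hx hy => rw [map_add, hx, hy]
  | inv x _ hx => rw [map_inv₀, hx]
  | mul x y _ _ hx hy => rw [map_mul, hx, hy]

/-- odd natural numbers are units -/
lemma v_odd {V : ValuationSubring ℂ} (h2 : V.valuation (2 : ℂ) < 1) {f : ℕ} (hf : Odd f) :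
    V.valuation (f : ℂ) = 1 := by
  obtain ⟨k, rfl⟩ := hf
  have hle : V.valuation (k : ℂ) ≤ 1 := (ValuationSubring.valuation_le_one_iff _ _).2 (by
    have := intCast_mem V k
    exact_mod_cast this)
  have h6 : V.valuation ((2 : ℂ) * k) < 1 := by
    rw [map_mul]
    calc V.valuation (2 : ℂ) * V.valuation (k : ℂ) ≤ V.valuation (2 : ℂ) * 1 :=
          mul_le_mul_right hle _
      _ < 1 := by rw [mul_one]; exact h2
  have h7 := V.valuation.map_add_eq_of_lt_right (x := (2 : ℂ) * k) (y := 1)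
    (by rw [map_one]; exact h6)
  push_cast
  rw [h7, map_one]

/-- points killed by `n` are killed by the ideal `(n)` -/
lemma tor_of_mul (h : CQ A B) {b : Ideal (OO A B)} {L : PeriodPair} {om : ℂ} (hL : IsLI b L om)
    {n : ℕ} {z : ℂ} (hz : (n : ℂ) * z ∈ L.lattice) : Tor (idl (A := A) (B := B) n) L z := by
  intro x hx
  obtain ⟨y, rfl⟩ := Ideal.mem_span_singleton.1 hx
  obtain ⟨t, ht, e⟩ := (hL.mem _).1 hz
  refine (hL.mem _).2 ⟨y * t, b.mul_mem_left _ ht, ?_⟩
  rw [_root_.Pool.Agent.MUX.emb_mul h, _root_.Pool.Agent.MUX.emb_mul h, _root_.Pool.Agent.MUX.emb_natCast h]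
  linear_combination (emb y) * e

end UNR

open _root_.Pool.Agent.N2R.UNR in
/-- (UNR) inertia groups are trivial -/
theorem tr_UNR (h1 : Sr_HPD) (h2 : Sr_RED) (h7 : Sr_NRC) (h3 : Sr_TOR) (h4 : Sr_LIF)
    (h5 : Sr_MFD) (h6 : Sr_FXL) : Sr_UNR := by
  intro A B V β N hc T f hfo σ hσ hin
  have hcq := hc.cq
  have hf0 : f ≠ 0 := by
    rintro rfl
    exact absurd hfo (by decide)
  have hidf : idl (A := A) (B := B) f ≠ ⊥ := by
    intro h0
    rw [Ideal.span_singleton_eq_bot] at h0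
    have h7 := _root_.Pool.Agent.MUX.emb_natCast (A := A) (B := B) hcq f
    rw [h0, _root_.Pool.Agent.MUX.emb_zero hcq] at h7
    exact hf0 (by exact_mod_cast h7.symm)
  have hvf : V.valuation (f : ℂ) = 1 := v_odd hc.v2 hfo
  have hN0 : N ≠ 0 := by
    have := hc.one
    omega
  have hvF : V.valuation ((N * f : ℕ) : ℂ) = 1 := by
    rw [Nat.cast_mul, map_mul, hc.vN, hvf, one_mul]
  -- the generators
  have key : ∀ (b : Ideal (OO A B)) (L : PeriodPair) (om : ℂ), IsNL b L om →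
      σ (kap L) = kap L ∧ ∀ z, Tor (idl (A := A) (B := B) f) L z → z ∉ L.lattice →
        σ (xn L z) = xn L z := by
    intro b L om hL
    obtain ⟨w₁, w₂, u, a, c, hW, hw2, hne, hu2, hD, va, vc, vac⟩ := h1 V L hc.v3
    set e : ℂ := L.weierstrassP w₁ with he
    obtain ⟨_, va1, vc1⟩ := h2 A B V β N hc b L om hL.toIsLI u e a c hD va vc vac
    obtain ⟨l, hl0, hl3, vl, hD1, _⟩ := h7 V L u e a c hD vc1
    have va' : V.valuation (a / l) ≤ 1 := by
      rw [map_div₀, vl, div_one]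
      exact va
    obtain ⟨M, hMf, haM, hM⟩ := h5 A B hcq (fun m hm => T.fin m hm) b L om hL (u * l) e (a / l)
      hD1 (N * f) (mul_ne_zero hN0 hf0)
    obtain ⟨σ', hσ', hσσ, hσM⟩ := h4 A B V hcq hc.v2 (RF (idl (A := A) (B := B) f)) M
      (T.fin _ hidf) (T.gal _ hidf) hMf σ hσ hin
    obtain ⟨hk, hx⟩ := h6 A B V β N hc b L om hL (u * l) e (a / l) hD1 va' (N * f)
      (Dvd.intro f rfl) hvF σ' hσ' (hσM _ haM va') (fun z hz hz' => by
        obtain ⟨g1, g2⟩ := h3 V L (u * l) e (a / l) 1 va' (by rw [map_one]) hD1 (N * f) hvF z hz hz'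
        obtain ⟨g3, g4⟩ := hM z hz hz'
        exact ⟨hσM _ g3 g1, hσM _ g4 g2⟩)
    refine ⟨?_, fun z hz hzL => ?_⟩
    · have hm : kap L ∈ RF (idl (A := A) (B := B) f) :=
        IntermediateField.subset_adjoin _ _ ⟨b, L, om, hL, Or.inl rfl⟩
      rw [← hσσ _ hm]
      exact hk
    · have hm : xn L z ∈ RF (idl (A := A) (B := B) f) :=
        IntermediateField.subset_adjoin _ _ ⟨b, L, om, hL, Or.inr ⟨z, hz, hzL, rfl⟩⟩
      rw [← hσσ _ hm]
      apply hx z hzL
      have h8 := hz ((f : ℕ) : OO A B) (Ideal.mem_span_singleton_self _)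
      rw [_root_.Pool.Agent.MUX.emb_natCast hcq] at h8
      have h9 := L.lattice.nsmul_mem h8 N
      rw [nsmul_eq_mul] at h9
      have e9 : ((N * f : ℕ) : ℂ) * z = (N : ℂ) * ((f : ℂ) * z) := by push_cast; ring
      rw [e9]
      exact h9
  intro y hy
  induction hy using IntermediateField.adjoin_induction with
  | mem x hx =>
    obtain ⟨b, L, om, hL, h | ⟨z, hz, hzL, h⟩⟩ := hx
    · rw [h]; exact (key b L om hL).1
    · rw [h]; exact (key b L om hL).2 z hz hzL
  | algebraMap x => exact fix_kk hσ _ x.2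
  | add x y _ _ hx hy => rw [map_add, hx, hy]
  | inv x _ hx => rw [map_inv₀, hx]
  | mul x y _ _ hx hy => rw [map_mul, hx, hy]

end

end Pool.Agent.N2R


end

section

/-!
# MUX-2N, block R: an automorphism in the inertia group fixes `a` (UNQ)
-/

set_option autoImplicit false

open WeierstrassCurve Polynomial

namespace Pool.Agent.N2R

open _root_.MU3 _root_.Pool.Agent.MU3A _root_.Pool.Agent.MU3B _root_.Pool.Agent.RI _root_.Pool.Agent.MUX _root_.Pool.Agent.MUXU
open _root_.Pool.Agent.MUXV (InK tX)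
open _root_.Pool.Agent.MUX2 (GRG)
open _root_.Pool.Agent.NS (xu)
open _root_.Pool.Agent.N2 (WT yt et GoodT CaseT)

noncomputable section

namespace UNQ

open _root_.Pool.Agent.NSR.UNQ (per v_nat order)

/-- the congruence of the summands -/
theorem term {V : ValuationSubring ℂ} {x y x' y' : ℂ} {d : V.ValueGroup}
    (vx : V.valuation x = 1) (vy : V.valuation y = 1) (vx' : V.valuation x' = 1)
    (vy' : V.valuation y' = 1) (hx : V.valuation (x' - x) ≤ d) (hy : V.valuation (y' - y) ≤ d) :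
    V.valuation ((1 / x' + x' ^ 2 / y') - (1 / x + x ^ 2 / y)) ≤ d := by
  have x0 : x ≠ 0 := by
    intro h
    rw [h, map_zero] at vx
    exact zero_ne_one vx
  have y0 : y ≠ 0 := by
    intro h
    rw [h, map_zero] at vy
    exact zero_ne_one vy
  have x0' : x' ≠ 0 := by
    intro h
    rw [h, map_zero] at vx'
    exact zero_ne_one vx'
  have y0' : y' ≠ 0 := by
    intro h
    rw [h, map_zero] at vy'
    exact zero_ne_one vy'
  have e : (1 / x' + x' ^ 2 / y') - (1 / x + x ^ 2 / y) =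
      -(x' - x) / (x' * x) + ((x' - x) * ((x' + x) * y) - (y' - y) * x ^ 2) / (y' * y) := by
    field_simp
    ring
  rw [e]
  refine le_trans (V.valuation.map_add _ _) (max_le ?_ ?_)
  · rw [map_div₀, Valuation.map_neg, map_mul, vx, vx', one_mul, div_one]
    exact hx
  · rw [map_div₀, map_mul V.valuation y' y, vy, vy', one_mul, div_one]
    refine le_trans (V.valuation.map_sub _ _) (max_le ?_ ?_)
    · rw [map_mul, map_mul, vy, mul_one]
      have h1 : V.valuation (x' + x) ≤ 1 := by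
        refine le_trans (V.valuation.map_add _ _) (max_le vx'.le vx.le)
      calc V.valuation (x' - x) * V.valuation (x' + x) ≤ V.valuation (x' - x) * 1 :=
            mul_le_mul_right h1 _
        _ = V.valuation (x' - x) := mul_one _
        _ ≤ d := hx
    · rw [map_mul, map_pow, vx, one_pow, mul_one]
      exact hy

theorem close_unit {V : ValuationSubring ℂ} {x x' : ℂ} (vx : V.valuation x = 1)
    (h : V.valuation (x' - x) < 1) : V.valuation x' = 1 := by
  have e7 : x' = (x' - x) + x := by ring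
  rw [e7, Valuation.map_add_eq_of_lt_right, vx]
  rw [vx]
  exact h

end UNQ

open _root_.Pool.Agent.N2R.UNQ _root_.Pool.Agent.NSR.UNQ in
/-- (UNQ) the hypotheses `Su_` are the theorems `u_` of `MUX/UAll.lean` -/
theorem tr_UNQ (h1 : Sr_DEF) (h2 : Sr_RED) (h3 : Sr_TOR) (h4 : Sr_TRA) (h5 : Sr_CML)
    (h6 : Sr_CLO) (u1 : Su_BAC) (u2 : Su_CJE) (u3 : Su_PHI) (u4 : Su_TSN) : Sr_UNQ := by
  intro A B V β N hC b L om hL u e a hDeu hva σ hσ hσa hX
  obtain ⟨-, -, -, -, -, ⟨w, hw⟩, -⟩ := h1 L u e a 1 hDeu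
  have v1 : V.valuation (1 : ℂ) ≤ 1 := by rw [map_one]
  obtain ⟨-, va1, -⟩ := h2 A B V β N hC b L om hL u e a 1 hDeu hva v1 (Or.inr (map_one _))
  have hcm : HasCM A B L := hL.hasCM hC.cq
  -- the conjugate lattice
  obtain ⟨L', hcj⟩ := u2 σ L
  obtain ⟨Φ, hΦ⟩ := u3 σ L L' hcj
  obtain ⟨tsn, -⟩ := u4 σ L L' Φ hcj hΦ
  have hσ2 : σ 2 = 2 := map_ofNat σ 2
  have hσu : σ u ≠ 0 := by
    rw [Ne, map_eq_zero_iff σ σ.injective]
    exact hDeu.u0
  have hxu : ∀ z, z ∉ L.lattice → xu L' (σ u) (σ e) (Φ z) = σ (xu L u e z) := by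
    intro z hz
    unfold xu
    rw [hΦ.P z hz, map_div₀, map_sub, map_pow]
  have het : ∀ z, z ∉ L.lattice → L'.derivWeierstrassP (Φ z) / (σ u) ^ 3 =
      σ (L.derivWeierstrassP z / u ^ 3) := by
    intro z hz
    rw [hΦ.P' z hz, map_div₀, map_pow]
  have hyt : ∀ z, z ∉ L.lattice → yt L' (σ u) (σ e) (σ a) 1 (Φ z) = σ (yt L u e a 1 z) := by
    intro z hz
    have h9 := hxu z hz
    have h10 := het z hz
    unfold yt et
    rw [h9, h10]
    have e9 : σ ((L.derivWeierstrassP z / u ^ 3 - a * xu L u e z - 1) / 2) =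
        (σ (L.derivWeierstrassP z / u ^ 3) - σ a * σ (xu L u e z) - 1) / 2 := by
      rw [map_div₀ σ _ 2, map_sub, map_sub, map_mul, map_one, hσ2]
    rw [e9]
  have hDeu' : Deu L' (σ u) (σ e) (σ a) 1 := by
    refine ⟨hσu, fun z' hz' => ?_⟩
    obtain ⟨z, hz⟩ := hΦ.surj z'
    have hzL : z ∉ L.lattice := by
      intro h7
      apply hz'
      have h8 := sub_mem ((hΦ.mem z).2 h7) hz
      rwa [sub_sub_cancel] at h8
    have e1 := per L' hz
    have h8 := hxu z hzL
    have h8' : xu L' (σ u) (σ e) z' = xu L' (σ u) (σ e) (Φ z) := by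
      unfold xu
      rw [e1.1]
    rw [h8', ← e1.2, h8, het z hzL]
    have h10 := congrArg σ (hDeu.eq z hzL)
    rw [map_pow, map_add, map_mul, map_pow, map_pow, map_add, map_mul, map_one, map_ofNat] at h10
    exact h10
  by_contra hne
  set δ : ℂ := σ a - a with hδ
  have hδ0 : δ ≠ 0 := sub_ne_zero.2 hne
  have hvδ : V.valuation δ ≠ 0 := by
    rw [Ne, map_eq_zero]
    exact hδ0
  -- the multiplier `α`
  have hN1 := hC.one
  obtain ⟨α', hnrm⟩ := hC.nrm
  have hal0 : alB β ≠ 0 := by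
    intro h0
    rw [h0, mul_zero] at hnrm
    have h8 : N = 0 := by exact_mod_cast hnrm
    omega
  have halz : ∀ z, alB β * z = z + emb β * (3 * z) := by
    intro z
    unfold alB
    ring
  have hisg : Isg L L (alB β) := by
    intro z hz
    rw [halz]
    have h7 := hcm β _ (nsmul_mem hz 3)
    rw [nsmul_eq_mul] at h7
    exact add_mem hz (by exact_mod_cast h7)
  obtain ⟨⟨R, hR⟩, -⟩ := u1.2 L L (alB β) hal0 hisg
  have hNal : ∀ z, alB β * z ∈ L.lattice → (N : ℂ) * z ∈ L.lattice := by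
    intro z hz
    have h7 := hcm α' _ hz
    rwa [← mul_assoc, ← hnrm] at h7
  have hσb : σ (emb β) = emb β := Pool.Agent.MUXC.CJN.emb_fix hσ β
  have hσal : σ (alB β) = alB β := by
    unfold alB
    rw [map_add, map_mul, map_one, hσb, map_ofNat]
  have halw : ∀ z, alB β * (z + w) ∈ L.lattice → alB β * z ∈ L.lattice → False := by
    intro z h7 h8
    have h9 := sub_mem h7 h8
    rw [mul_add, add_sub_cancel_left, halz] at h9
    have h10 := hcm β _ hw.three
    exact hw.ne ((add_mem_cancel_right h10).1 h9)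
  -- the points `q`
  have hXYq : ∀ q ∈ R, V.valuation (xu L u e q) ≤ 1 ∧ V.valuation (yt L u e a 1 q) ≤ 1 :=
    fun q hq => h3 V L u e a 1 hva v1 hDeu N hC.vN q (hR.ne q hq) (hNal q (hR.mem q hq))
  have hpw : ∀ q ∈ R, q + w ∉ L.lattice := fun q hq hqw =>
    halw q (hisg _ hqw) (hR.mem q hq)
  have hmw : ∀ q ∈ R, q - w ∉ L.lattice := by
    intro q hq hqw
    have h7 := neg_mem (hisg _ hqw)
    have h8 := neg_mem (hR.mem q hq)
    refine halw (-q) ?_ ?_
    · have e7 : alB β * (-q + w) = -(alB β * (q - w)) := by ring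
      rw [e7]
      exact h7
    · have e7 : alB β * -q = -(alB β * q) := by ring
      rw [e7]
      exact h8
  have hv3N : V.valuation ((3 * N : ℕ) : ℂ) = 1 := by
    push_cast
    rw [map_mul, hC.v3, hC.vN, one_mul]
  have h3w : ∀ q ∈ R, ((3 * N : ℕ) : ℂ) * q ∈ L.lattice := by
    intro q hq
    have h7 := nsmul_mem (hNal q (hR.mem q hq)) 3
    rw [nsmul_eq_mul] at h7
    have e7 : ((3 * N : ℕ) : ℂ) * q = ((3 : ℕ) : ℂ) * ((N : ℂ) * q) := by
      push_cast
      ring
    rw [e7]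
    exact h7
  have h3w' : ((3 * N : ℕ) : ℂ) * w ∈ L.lattice := by
    have h7 := nsmul_mem hw.three N
    rw [nsmul_eq_mul] at h7
    have e7 : ((3 * N : ℕ) : ℂ) * w = (N : ℂ) * (3 * w) := by
      push_cast
      ring
    rw [e7]
    exact h7
  have hXp : ∀ q ∈ R, V.valuation (xu L u e (q + w)) ≤ 1 := fun q hq =>
    (h3 V L u e a 1 hva v1 hDeu (3 * N) hv3N (q + w) (hpw q hq)
      (by rw [mul_add]; exact add_mem (h3w q hq) h3w')).1
  have hXm : ∀ q ∈ R, V.valuation (xu L u e (q - w)) ≤ 1 := fun q hq =>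
    (h3 V L u e a 1 hva v1 hDeu (3 * N) hv3N (q - w) (hmw q hq)
      (by rw [mul_sub]; exact sub_mem (h3w q hq) h3w')).1
  have htra := fun (q : ℂ) (hq : q ∈ R) =>
    h4 L u e a 1 w hDeu hw q (hR.ne q hq) (hpw q hq) (hmw q hq)
  have hvX : ∀ q ∈ R, V.valuation (xu L u e q) = 1 := by
    intro q hq
    obtain ⟨-, -, t3⟩ := htra q hq
    have h7 := congrArg V.valuation t3
    rw [map_mul, map_mul, one_pow, Valuation.map_neg, map_one] at h7
    refine le_antisymm (hXYq q hq).1 ?_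
    calc (1 : V.ValueGroup) = V.valuation (xu L u e q) * V.valuation (xu L u e (q + w)) *
          V.valuation (xu L u e (q - w)) := h7.symm
      _ ≤ V.valuation (xu L u e q) * 1 * 1 :=
          mul_le_mul' (mul_le_mul' le_rfl (hXp q hq)) (hXm q hq)
      _ = V.valuation (xu L u e q) := by rw [mul_one, mul_one]
  have hvY : ∀ q ∈ R, V.valuation (yt L u e a 1 q) = 1 := by
    intro q hq
    have h7 : yt L u e a 1 q * (yt L u e a 1 q + a * xu L u e q + 1) = xu L u e q ^ 3 := by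
      have h8 := hDeu.eq q (hR.ne q hq)
      unfold yt et
      linear_combination (1 / 4 : ℂ) * h8
    have h8 := congrArg V.valuation h7
    rw [map_mul, map_pow, hvX q hq, one_pow] at h8
    have h9 : V.valuation (yt L u e a 1 q + a * xu L u e q + 1) ≤ 1 := by
      refine le_trans (V.valuation.map_add _ _) (max_le ?_ v1)
      refine le_trans (V.valuation.map_add _ _) (max_le (hXYq q hq).2 ?_)
      rw [map_mul, hvX q hq, mul_one]
      exact hva
    refine le_antisymm (hXYq q hq).2 ?_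
    calc (1 : V.ValueGroup) = V.valuation (yt L u e a 1 q) *
          V.valuation (yt L u e a 1 q + a * xu L u e q + 1) := h8.symm
      _ ≤ V.valuation (yt L u e a 1 q) * 1 := mul_le_mul' le_rfl h9
      _ = V.valuation (yt L u e a 1 q) := mul_one _
  -- (CLO)
  have hclo : ∀ q ∈ R, V.valuation (σ (xu L u e q) - xu L u e q) ≤ V.valuation δ ∧
      V.valuation (σ (yt L u e a 1 q) - yt L u e a 1 q) ≤ V.valuation δ := by
    intro q hq
    have hqL := hR.ne q hq
    have hNq := hNal q (hR.mem q hq)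
    obtain ⟨n, n1, n2, n3, n4, n5⟩ := order L V hC.odd hC.vN hqL hNq
    have htsn : ∀ k : ℕ, (k : ℂ) * Φ q ∈ L'.lattice ↔ (k : ℂ) * q ∈ L.lattice := by
      intro k
      have h7 := tsn (k : ℤ) q
      rwa [Int.cast_natCast] at h7
    obtain ⟨x1, x2⟩ := hX q hqL hNq
    have h7 := h6 V L L' u e a (σ u) (σ e) (σ a) hC.v3 hDeu hDeu' va1 hσa n n1 n2 n3 q
      (Φ q) (fun k k1 k2 => ⟨n5 k k1 k2, fun h8 => n5 k k1 k2 ((htsn k).1 h8)⟩) n4
      ((htsn n).2 n4) (by rw [hxu q hqL]; exact x1) (by rw [hyt q hqL]; exact x2)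
    rwa [hxu q hqL, hyt q hqL] at h7
  -- (CML) and its conjugate
  have hR' : IsReps L (alB β) R := ⟨hR.mem, hR.ne, hR.inj, hR.surj⟩
  have c1 := h5 A B b L om hC.cq hL u e a 1 w hDeu hw β R hR'
  obtain ⟨t, ht⟩ : ∃ t : ℂ → ℂ, ∀ q, t q = 1 / xu L u e q + xu L u e q ^ 2 / yt L u e a 1 q :=
    ⟨_, fun _ => rfl⟩
  have hsum : ∑ q ∈ R, (1 / xu L u e q - 1 / xu L u e (w + q)) = ∑ q ∈ R, t q := by
    refine Finset.sum_congr rfl fun q hq => ?_
    obtain ⟨t1, t2, -⟩ := htra q hq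
    rw [ht, add_comm w q]
    have y0 : yt L u e a 1 q ≠ 0 := by
      intro h
      have h7 := hvY q hq
      rw [h, map_zero] at h7
      exact zero_ne_one h7
    have x2 : xu L u e (q + w) ≠ 0 := by
      intro h
      rw [h, zero_mul, one_mul] at t2
      exact y0 (neg_eq_zero.1 t2.symm)
    have e7 : 1 / xu L u e (q + w) = -(xu L u e q ^ 2 / yt L u e a 1 q) := by
      field_simp
      rw [one_mul] at t2
      linear_combination t2
    rw [e7]
    ring
  rw [hsum, mul_one] at c1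
  have c2 := congrArg σ c1
  rw [map_mul, map_sub, map_one, hσal, map_mul, hσ2, map_sum] at c2
  have c3 : δ * (alB β - 1) = 2 * ∑ q ∈ R, (σ (t q) - t q) := by
    rw [Finset.sum_sub_distrib, hδ]
    linear_combination c2 - c1
  have c5 : V.valuation (∑ q ∈ R, (σ (t q) - t q)) ≤ V.valuation δ := by
    refine Valuation.map_sum_le _ fun q hq => ?_
    obtain ⟨x1, x2⟩ := hX q (hR.ne q hq) (hNal q (hR.mem q hq))
    have h7 := term (hvX q hq) (hvY q hq) (close_unit (hvX q hq) x1) (close_unit (hvY q hq) x2)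
      (hclo q hq).1 (hclo q hq).2
    have e7 : σ (t q) = 1 / σ (xu L u e q) + σ (xu L u e q) ^ 2 / σ (yt L u e a 1 q) := by
      rw [ht, map_add, map_div₀, map_div₀, map_one, map_pow]
    rw [e7, ht]
    exact h7
  have c6 := congrArg V.valuation c3
  have c6' : alB β - 1 = 3 * emb β := by
    unfold alB
    ring
  rw [map_mul, map_mul, c6', map_mul, hC.v3, one_mul] at c6
  have c7 : V.valuation δ * V.valuation (emb β) ≤ V.valuation δ * V.valuation (2 : ℂ) := by
    rw [c6, mul_comm]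
    exact mul_le_mul' c5 le_rfl
  have hδpos : 0 < V.valuation δ := zero_lt_iff.2 hvδ
  have c8 : V.valuation (emb β) ≤ V.valuation (2 : ℂ) := le_of_mul_le_mul_left c7 hδpos
  exact absurd hC.vb (not_lt.2 c8)

end

end Pool.Agent.N2R


end

section

/-!
# MUX-2N, block R: module SCL, the scaled lattice (helper84)
-/

set_option autoImplicit false

open WeierstrassCurve Polynomial

namespace Pool.Agent.N2R

open _root_.MU3 _root_.Pool.Agent.MU3A _root_.Pool.Agent.MU3B _root_.Pool.Agent.RI _root_.Pool.Agent.MUX _root_.Pool.Agent.MUXU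
open _root_.Pool.Agent.MUXV (InK tX)
open _root_.Pool.Agent.MUX2 (GRG)
open _root_.Pool.Agent.NS (xu)
open _root_.Pool.Agent.N2 (WT yt et GoodT CaseT)

noncomputable section

theorem tr_SCL (h : Sr_GRT) : Sr_SCL := by
  intro V L u e a c h3 ha hc hL
  obtain ⟨ξ, hξ, -⟩ := h V L u e a c h3 ha hc hL
  have hu := hL.u0
  obtain ⟨L₁, hL₁⟩ := tu_SCX L u hu
  obtain ⟨k1, k2, -, -⟩ := ta_SCP L L₁ u hu hL₁
  refine ⟨L₁, hL₁, k1, k2, WT a c, fun z => yt L u e a c (z / u),
    ξ.comp (AddMonoidHom.mulRight u⁻¹), ?_⟩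
  refine ⟨hξ.int, hξ.disc, ?_, ?_⟩
  · intro z hz
    have h1 : z / u ∉ L.lattice := by
      intro h2
      refine hz ?_
      have h3 := (hL₁ (z / u)).1 h2
      rwa [mul_div_cancel₀ _ hu] at h3
    have h4 : L₁.weierstrassP z - e / u ^ 2 = xu L u e (z / u) := by
      have h5 := k1 (z / u)
      rw [mul_div_cancel₀ _ hu] at h5
      rw [h5]
      unfold xu
      ring
    have h6 := hξ.some (z / u) h1
    show ∃ h, ξ (z * u⁻¹) = Affine.Point.some (L₁.weierstrassP z - e / u ^ 2) _ h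
    rw [← div_eq_mul_inv, h4]
    exact h6
  · intro z hz
    show ξ (z * u⁻¹) = 0
    rw [← div_eq_mul_inv]
    refine hξ.zero _ ?_
    rw [hL₁, mul_div_cancel₀ _ hu]
    exact hz

end

end Pool.Agent.N2R


end

section

/-!
# MUX-2N, block R, module RED: supersingular reduction (adapted from `NS/RN_RED.lean`)
-/

set_option autoImplicit false

open WeierstrassCurve Polynomial

namespace Pool.Agent.N2R

open _root_.MU3 _root_.Pool.Agent.MU3A _root_.Pool.Agent.MU3B _root_.Pool.Agent.RI _root_.Pool.Agent.MUX _root_.Pool.Agent.MUXU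
open _root_.Pool.Agent.MUXV (InK tX)
open _root_.Pool.Agent.MUX2 (GRG)
open _root_.Pool.Agent.NS (xu)
open _root_.Pool.Agent.N2 (WT yt et GoodT CaseT)

noncomputable section

theorem tr_RED (h1 : Sr_CMQ) (h2 : Sr_TOR) (h3 : Sr_DEF) : Sr_RED := by
  intro A B V β N hC b L om hL u e a c hdeu ha hc hac
  obtain ⟨-, -, -, -, -, ⟨w, hw⟩, -⟩ := h3 L u e a c hdeu
  have cm : ∀ x : OO A B, ∀ z ∈ L.lattice, emb x * z ∈ L.lattice := by
    intro x z hz
    obtain ⟨y, hy, rfl⟩ := (hL.mem z).1 hz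
    refine (hL.mem _).2 ⟨x * y, b.mul_mem_left x hy, ?_⟩
    rw [MUX.emb_mul hC.cq]; ring
  obtain ⟨α', hα'⟩ := hC.nrm
  have hα : alB β ≠ 0 := by
    intro h0
    rw [h0, mul_zero] at hα'
    have h4 := hC.one
    have h5 : N = 0 := by exact_mod_cast hα'
    omega
  have cmα : ∀ z ∈ L.lattice, alB β * z ∈ L.lattice := by
    intro z hz
    have h4 := add_mem hz (nsmul_mem (cm β z hz) 3)
    have h5 : z + 3 • (emb β * z) = alB β * z := by
      simp only [nsmul_eq_mul]
      unfold alB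
      push_cast
      ring
    rwa [h5] at h4
  obtain ⟨R, hR⟩ := b_REP L (alB β) hα cmα
  have key := h1 A B b L om hC.cq hL u e a c w hdeu hw β R hR
  have hαw : alB β * w ∉ L.lattice := by
    intro h
    apply hw.ne
    have h5 := cm β _ hw.three
    have h6 := sub_mem h h5
    have h7 : alB β * w - emb β * (3 * w) = w := by
      unfold alB
      ring
    rwa [h7] at h6
  have hN : ∀ q, alB β * q ∈ L.lattice → (N : ℂ) * q ∈ L.lattice := by
    intro q hq
    rw [hα', mul_assoc]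
    exact cm _ _ hq
  have v3N : V.valuation ((3 * N : ℕ) : ℂ) = 1 := by
    push_cast
    rw [map_mul, hC.v3, hC.vN, one_mul]
  have vq : ∀ q ∈ R, V.valuation (xu L u e q) ≤ 1 := fun q hq =>
    (h2 V L u e a c ha hc hdeu N hC.vN q (hR.ne q hq) (hN q (hR.mem q hq))).1
  have hwq : ∀ q ∈ R, w + q ∉ L.lattice := by
    intro q hq h
    apply hαw
    have h5 := sub_mem (cmα _ h) (hR.mem q hq)
    have h6 : alB β * (w + q) - alB β * q = alB β * w := by ring
    rwa [h6] at h5
  have vwq : ∀ q ∈ R, V.valuation (xu L u e (w + q)) ≤ 1 := by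
    intro q hq
    refine (h2 V L u e a c ha hc hdeu (3 * N) v3N _ (hwq q hq) ?_).1
    have h5 := nsmul_mem hw.three N
    have h6 := nsmul_mem (hN q (hR.mem q hq)) 3
    have h7 := add_mem h5 h6
    have h8 : N • (3 * w) + 3 • ((N : ℂ) * q) = ((3 * N : ℕ) : ℂ) * (w + q) := by
      simp only [nsmul_eq_mul]
      push_cast
      ring
    rwa [h8] at h7
  have vS : V.valuation (∑ q ∈ R, (xu L u e (w + q) - xu L u e q)) ≤ 1 := by
    refine Valuation.map_sum_le _ fun q hq => ?_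
    exact (Valuation.map_sub _ _ _).trans (max_le (vwq q hq) (vq q hq))
  -- the valuations of `12` and of `α² - 1`
  have v12 : V.valuation (12 : ℂ) = V.valuation (2 : ℂ) ^ 2 := by
    have h5 : (12 : ℂ) = 2 ^ 2 * 3 := by norm_num
    rw [h5, map_mul, map_pow, hC.v3, mul_one]
  have v3b : V.valuation (3 * emb β) = V.valuation (emb β) := by
    rw [map_mul, hC.v3, one_mul]
  have v23b : V.valuation (2 + 3 * emb β) = V.valuation (emb β) := by
    have h5 : V.valuation (2 : ℂ) < V.valuation (3 * emb β) := by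
      rw [v3b]
      exact hC.vb
    rw [Valuation.map_add_eq_of_lt_right _ h5, v3b]
  have vα : V.valuation (alB β ^ 2 - 1) = V.valuation (emb β) ^ 2 := by
    have h5 : alB β ^ 2 - 1 = (3 * emb β) * (2 + 3 * emb β) := by
      unfold alB
      ring
    rw [h5, map_mul, v3b, v23b, pow_two]
  have main2 : (V.valuation a * V.valuation (emb β)) ^ 2 ≤ V.valuation (2 : ℂ) ^ 2 := by
    have h5 := congrArg V.valuation key
    rw [map_mul, map_mul, map_pow, vα, v12] at h5
    rw [mul_pow, h5]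
    exact mul_le_of_le_one_right' vS
  have main : V.valuation a * V.valuation (emb β) ≤ V.valuation (2 : ℂ) :=
    le_of_pow_le_pow_left₀ two_ne_zero zero_le main2
  have hlt : V.valuation a < 1 := by
    by_contra hge
    rw [not_lt] at hge
    exact absurd hC.vb (not_lt.2 ((le_mul_of_one_le_left' hge).trans main))
  refine ⟨main, hlt, ?_⟩
  rcases hac with h | h
  · exact absurd h hlt.ne
  · exact h

end

end Pool.Agent.N2R


end

section

/-!
# MUX-2N, block R2N, module NRC (helper99): the normalisation `c = 1` of the Deuring form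
-/

set_option autoImplicit false

open WeierstrassCurve Polynomial

namespace Pool.Agent.N2R

open _root_.MU3 _root_.Pool.Agent.MU3A _root_.Pool.Agent.MU3B _root_.Pool.Agent.RI _root_.Pool.Agent.MUX _root_.Pool.Agent.MUXU
open _root_.Pool.Agent.MUXV (InK tX)
open _root_.Pool.Agent.MUX2 (GRG)
open _root_.Pool.Agent.NS (xu)
open _root_.Pool.Agent.N2 (WT yt et GoodT CaseT)

noncomputable section

/-- NRC. -/
theorem tr_NRC : Sr_NRC := by
  intro V L u e a c hD hc
  have hc0 : c ≠ 0 := by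
    rintro rfl
    rw [map_zero] at hc
    exact zero_ne_one hc
  obtain ⟨l, hl⟩ := IsAlgClosed.exists_pow_nat_eq c (n := 3) (by norm_num)
  have hl0 : l ≠ 0 := by
    rintro rfl
    apply hc0
    rw [← hl]
    ring
  have hu0 := hD.u0
  have hvl : V.valuation l = 1 := by
    have h1 : V.valuation l ^ 3 = 1 := by rw [← map_pow, hl, hc]
    rcases lt_trichotomy (V.valuation l) 1 with h | h | h
    · exact absurd h1 (pow_lt_one₀ zero_le h (by norm_num)).ne
    · exact h
    · exact absurd h1 (one_lt_pow₀ h (by norm_num)).ne'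
  have hx : ∀ z, xu L (u * l) e z = xu L u e z / l ^ 2 := by
    intro z
    unfold xu
    field_simp
  refine ⟨l, hl0, hl, hvl, ⟨mul_ne_zero hu0 hl0, ?_⟩, ?_⟩
  · intro z hz
    have h1 := hD.eq z hz
    rw [hx z]
    have h2 : (L.derivWeierstrassP z / (u * l) ^ 3) ^ 2 =
        (L.derivWeierstrassP z / u ^ 3) ^ 2 / c ^ 2 := by
      rw [← hl]
      field_simp
    rw [h2, h1, ← hl]
    field_simp
  · intro z
    refine ⟨hx z, ?_⟩
    unfold yt et
    rw [hx z, ← hl]
    field_simp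

end

end Pool.Agent.N2R


end

section

/-!
# MUX-2N, block R, module MFD: a finite extension which contains all the coordinates
-/

set_option autoImplicit false

open WeierstrassCurve Polynomial

namespace Pool.Agent.N2R

open _root_.MU3 _root_.Pool.Agent.MU3A _root_.Pool.Agent.MU3B _root_.Pool.Agent.RI _root_.Pool.Agent.MUX _root_.Pool.Agent.MUXU
open _root_.Pool.Agent.MUXV (InK tX)
open _root_.Pool.Agent.MUX2 (GRG)
open _root_.Pool.Agent.NS (xu)
open _root_.Pool.Agent.N2 (WT yt et GoodT CaseT)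
open _root_.Pool.Agent.NSR.MFD (RF_mono num_mem rp exists_rp deriv_rp)

noncomputable section

/-- MFD. -/
theorem tr_MFD (h : Sr_DEF) : Sr_MFD := by
  intro A B hQ hfin b L om hL u e a hD F hF
  classical
  obtain ⟨h12, -, -, -, -, ⟨w, hw⟩, -⟩ := h L u e a 1 hD
  have hI : idl (A := A) (B := B) (3 * F) ≠ ⊥ := by
    intro h
    rw [Ideal.span_singleton_eq_bot] at h
    exact natCast_ne_zero' hQ (mul_ne_zero three_ne_zero hF) h
  set K : IntermediateField (kk A B) ℂ := RF (idl (A := A) (B := B) (3 * F)) with hK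
  have hfK : FiniteDimensional (kk A B) K := hfin _ hI
  have hCM : HasCM A B L := IsLI.hasCM hQ hL.toIsLI
  have hk : kap L ∈ K := IntermediateField.subset_adjoin _ _ ⟨b, L, om, hL, Or.inl rfl⟩
  have hx : ∀ z ∉ L.lattice, ((3 * F : ℕ) : ℂ) * z ∈ L.lattice → xn L z ∈ K := by
    intro z hz hFz
    refine IntermediateField.subset_adjoin _ _ ⟨b, L, om, hL, Or.inr ⟨z, ?_, hz, rfl⟩⟩
    refine (tor_span hQ hCM _).2 ?_
    rw [_root_.Pool.Agent.MUX.emb_natCast hQ]
    exact hFz
  have hP : ∀ z ∉ L.lattice, ((3 * F : ℕ) : ℂ) * z ∈ L.lattice → L.weierstrassP z ∈ K := by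
    intro z hz hFz
    have h1 : L.weierstrassP z = xn L z + ((1 : ℕ) : ℂ) / ((12 : ℕ) : ℂ) := by
      unfold xn
      push_cast
      ring
    rw [h1]
    exact add_mem (hx z hz hFz) (div_mem (num_mem K 1) (num_mem K 12))
  have h3F : ∀ z : ℂ, (F : ℂ) * z ∈ L.lattice → ((3 * F : ℕ) : ℂ) * z ∈ L.lattice := by
    intro z hFz
    have h1 : ((3 * F : ℕ) : ℂ) * z = F * z + F * z + F * z := by push_cast; ring
    rw [h1]
    exact add_mem (add_mem hFz hFz) hFz
  have hF3 : ((3 * F : ℕ) : ℂ) * w ∈ L.lattice := by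
    have h1 : ((3 * F : ℕ) : ℂ) * w = F • (3 * w) := by
      rw [nsmul_eq_mul]
      push_cast
      ring
    rw [h1]
    exact nsmul_mem hw.three F
  have hg2 : L.g₂ ∈ K := by
    have h1 : L.g₂ = (((1728 : ℕ) : ℂ) * kap L + ((1 : ℕ) : ℂ)) / ((12 : ℕ) : ℂ) := by
      unfold kap
      push_cast
      ring
    rw [h1]
    exact div_mem (add_mem (mul_mem (num_mem K _) hk) (num_mem K 1)) (num_mem K 12)
  have hg3 : L.g₃ ∈ K := by
    have h1 : L.g₃ = -(L.g₂ / ((18 : ℕ) : ℂ)) := by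
      rw [hL.nrm]
      push_cast
      ring
    rw [h1]
    exact neg_mem (div_mem hg2 (num_mem K 18))
  have heK : e ∈ K := by
    rw [← hw.P]
    exact hP w hw.ne hF3
  have hint : ∀ y ∈ K, _root_.IsIntegral (kk A B) y := by
    intro y hy
    exact (Algebra.IsIntegral.isIntegral (R := kk A B) (⟨y, hy⟩ : K)).map K.val
  have hsq' : ∀ z ∉ L.lattice, ((3 * F : ℕ) : ℂ) * z ∈ L.lattice →
      L.derivWeierstrassP z ^ 2 ∈ K := by
    intro z hz hFz
    rw [L.derivWeierstrassP_sq z hz]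
    exact sub_mem (sub_mem (mul_mem (num_mem K 4) (pow_mem (hP z hz hFz) 3))
      (mul_mem hg2 (hP z hz hFz))) hg3
  have hsq : ∀ z ∉ L.lattice, ((3 * F : ℕ) : ℂ) * z ∈ L.lattice →
      _root_.IsIntegral (kk A B) (L.derivWeierstrassP z) := fun z hz hFz =>
    IsIntegral.of_pow (n := 2) (by norm_num) (hint _ (hsq' z hz hFz))
  have hu6 : u ^ 6 ∈ K := by
    have h1 := hsq' w hw.ne hF3
    rw [hw.D, mul_one, ← pow_mul] at h1
    exact h1
  have hau : (a * u) ^ 2 ∈ K := by
    have h1 : (a * u) ^ 2 = ((12 : ℕ) : ℂ) * e := by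
      push_cast
      linear_combination -h12
    rw [h1]
    exact mul_mem (num_mem K 12) heK
  let T : Set ℂ := {u, a * u} ∪ ((fun p : ℕ × ℕ => L.derivWeierstrassP (rp L F p.1 p.2)) ''
    {p : ℕ × ℕ | p.1 < F ∧ p.2 < F ∧ rp L F p.1 p.2 ∉ L.lattice})
  have hTfin : T.Finite := by
    refine (Set.toFinite {u, a * u}).union (Set.Finite.image _ ?_)
    refine Set.Finite.subset ((Finset.range F ×ˢ Finset.range F).finite_toSet) ?_
    rintro ⟨i, j⟩ ⟨h1, h2, -⟩
    simp only [Finset.coe_product, Set.mem_prod, Finset.mem_coe, Finset.mem_range]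
    exact ⟨h1, h2⟩
  have hFC : (F : ℂ) ≠ 0 := by exact_mod_cast hF
  have hrpF : ∀ i j : ℕ, (F : ℂ) * rp L F i j ∈ L.lattice := by
    intro i j
    refine PeriodPair.mem_lattice.2 ⟨i, j, ?_⟩
    unfold rp
    rw [mul_div_cancel₀ _ hFC]
    push_cast
    rfl
  have hTint : ∀ t ∈ T, _root_.IsIntegral (kk A B) t := by
    rintro t ((ht | ht) | ⟨⟨i, j⟩, ⟨-, -, h3⟩, rfl⟩)
    · rw [ht]
      exact IsIntegral.of_pow (n := 6) (by norm_num) (hint _ hu6)
    · rw [Set.mem_singleton_iff.1 ht]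
      exact IsIntegral.of_pow (n := 2) (by norm_num) (hint _ hau)
    · exact hsq _ h3 (h3F _ (hrpF i j))
  have : Finite T := hTfin.to_subtype
  have hTfd : FiniteDimensional (kk A B) (IntermediateField.adjoin (kk A B) T) :=
    IntermediateField.finiteDimensional_adjoin hTint
  have hKM : K ≤ K ⊔ IntermediateField.adjoin (kk A B) T := le_sup_left
  have hTM : ∀ t ∈ T, t ∈ K ⊔ IntermediateField.adjoin (kk A B) T := fun t ht =>
    (le_sup_right : IntermediateField.adjoin (kk A B) T ≤ _)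
      (IntermediateField.subset_adjoin _ _ ht)
  have huM : u ∈ K ⊔ IntermediateField.adjoin (kk A B) T := hTM _ (Or.inl (Or.inl rfl))
  have haM : a ∈ K ⊔ IntermediateField.adjoin (kk A B) T := by
    have h1 : a = a * u / u := by
      rw [mul_div_cancel_right₀ _ hD.u0]
    rw [h1]
    exact div_mem (hTM _ (Or.inl (Or.inr rfl))) huM
  refine ⟨K ⊔ IntermediateField.adjoin (kk A B) T, inferInstance, haM, ?_⟩
  intro z hz hFz
  have hX : xu L u e z ∈ K ⊔ IntermediateField.adjoin (kk A B) T := by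
    unfold xu
    exact div_mem (hKM (sub_mem (hP z hz (h3F z hFz)) heK)) (pow_mem huM 2)
  refine ⟨hX, ?_⟩
  obtain ⟨i, j, hi, hj, hij⟩ := exists_rp L F hF z hFz
  have hnot : rp L F i j ∉ L.lattice := by
    intro h
    have h2 := add_mem hij h
    rw [sub_add_cancel] at h2
    exact hz h2
  have h3 : L.derivWeierstrassP z ∈ K ⊔ IntermediateField.adjoin (kk A B) T := by
    rw [deriv_rp L hij]
    exact hTM _ (Or.inr ⟨(i, j), ⟨hi, hj, hnot⟩, rfl⟩)
  unfold yt
  have hnum : ∀ n : ℕ, (n : ℂ) ∈ K ⊔ IntermediateField.adjoin (kk A B) T := fun n => num_mem _ n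
  have h2 := hnum 2
  have h1 := hnum 1
  push_cast at h1 h2
  exact div_mem (sub_mem (sub_mem (div_mem h3 (pow_mem huM 3)) (mul_mem haM hX)) h1) h2

end

end Pool.Agent.N2R


end

section

/-!
# MUX-2N, block R, module ISO: integral formulas for isogenies of odd degree (helper64)

Adapted from `NS/RN_ISO.lean`.
-/

set_option autoImplicit false

open WeierstrassCurve Polynomial

namespace Pool.Agent.N2R

open _root_.MU3 _root_.Pool.Agent.MU3A _root_.Pool.Agent.MU3B _root_.Pool.Agent.RI _root_.Pool.Agent.MUX _root_.Pool.Agent.MUXU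
open _root_.Pool.Agent.MUXV (InK tX)
open _root_.Pool.Agent.MUX2 (GRG)
open _root_.Pool.Agent.NS (xu)
open _root_.Pool.Agent.N2 (WT yt et GoodT CaseT)

noncomputable section

namespace ISO

lemma int_iff (V : ValuationSubring ℂ) (p : ℂ[X]) :
    (∀ i, V.valuation (p.coeff i) ≤ 1) ↔ p ∈ Polynomial.lifts V.subtype := by
  rw [Polynomial.lifts_iff_coeff_lifts]
  refine forall_congr' fun i => ?_
  rw [ValuationSubring.valuation_le_one_iff]
  constructor
  · intro h
    exact ⟨⟨_, h⟩, rfl⟩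
  · rintro ⟨x, hx⟩
    rw [← hx]
    exact x.2

lemma C_mem {V : ValuationSubring ℂ} {a : ℂ} (h : V.valuation a ≤ 1) :
    (C a : ℂ[X]) ∈ Polynomial.lifts V.subtype := by
  rw [ValuationSubring.valuation_le_one_iff] at h
  exact Polynomial.C_mem_lifts V.subtype ⟨a, h⟩

lemma X_sub_mem {V : ValuationSubring ℂ} {a : ℂ} (h : V.valuation a ≤ 1) :
    (X - C a : ℂ[X]) ∈ Polynomial.lifts V.subtype := by
  have h1 : (X - C a : ℂ[X]) = X + C (-a) := by rw [C_neg, sub_eq_add_neg]
  rw [h1]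
  exact add_mem (Polynomial.X_mem_lifts _) (C_mem (by rwa [Valuation.map_neg]))

lemma v_odd {V : ValuationSubring ℂ} (v2 : V.valuation (2 : ℂ) < 1) {n : ℕ} (hn : Odd n) :
    V.valuation (n : ℂ) = 1 := by
  obtain ⟨k, rfl⟩ := hn
  have hk : V.valuation (k : ℂ) ≤ 1 := by
    rw [ValuationSubring.valuation_le_one_iff]
    exact natCast_mem V k
  have h1 : V.valuation (2 * (k : ℂ)) < 1 := by
    rw [map_mul]
    exact mul_lt_one_of_lt_of_le v2 hk
  have h2 : ((2 * k + 1 : ℕ) : ℂ) = 2 * (k : ℂ) + 1 := by push_cast; rfl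
  rw [h2, Valuation.map_add_eq_of_lt_right _ (by rw [map_one]; exact h1), map_one]

lemma frac (L : PeriodPair) (b : ℕ) (hb : 1 < b) : L.ω₁ / b ∉ L.lattice := by
  intro hm
  have hb' : (b : ℚ) ≠ 0 := by exact_mod_cast (Nat.ne_of_gt (lt_trans Nat.zero_lt_one hb))
  have e : L.ω₁ / b = ((1 / b : ℚ) : ℂ) * L.ω₁ + ((0 : ℚ) : ℂ) * L.ω₂ := by
    push_cast
    ring
  rw [e, PeriodPair.mul_ω₁_add_mul_ω₂_mem_lattice] at hm
  have h1 : ((((1 / b : ℚ)).num : ℤ) : ℚ) = (1 / b : ℚ) := (Rat.den_eq_one_iff _).1 hm.1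
  have h2 : ((b : ℤ) : ℚ) * ((((1 / b : ℚ)).num : ℤ) : ℚ) = 1 := by
    rw [h1]
    push_cast
    field_simp
  have h3 : (b : ℤ) * ((1 / b : ℚ)).num = 1 := by exact_mod_cast h2
  have h4 : (b : ℤ) ∣ 1 := ⟨_, h3.symm⟩
  have h5 := Int.le_of_dvd one_pos h4
  have h6 : (b : ℤ) ≤ 1 := h5
  omega

lemma unit_nu (h1 : Sr_SCL) {V : ValuationSubring ℂ}
    {L M : PeriodPair} {u e a c u' e' a' c' mu : ℂ} {n : ℕ}
    (v3 : V.valuation (3 : ℂ) = 1) (hL : Deu L u e a c) (hM : Deu M u' e' a' c')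
    (ha : V.valuation a < 1) (hc : V.valuation c = 1) (ha' : V.valuation a' < 1)
    (hc' : V.valuation c' = 1) (hmu : mu ≠ 0)
    (hI : Isg L M mu) (hvn : V.valuation (n : ℂ) = 1)
    (hker : ∀ z, mu * z ∈ M.lattice → n * z ∈ L.lattice) :
    V.valuation (mu * u' / u) = 1 := by
  obtain ⟨L₁, hL1, -, -, WL, YL, ξL, gL⟩ := h1 V L u e a c v3 ha hc hL
  obtain ⟨M₁, hM1, -, -, WM, YM, ξM, gM⟩ := h1 V M u' e' a' c' v3 ha' hc' hM
  have hu := hL.u0
  have hu' := hM.u0
  have hnu0 : mu * u' / u ≠ 0 := div_ne_zero (mul_ne_zero hmu hu') hu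
  have hn0 : (n : ℂ) ≠ 0 := by
    intro h
    rw [h, map_zero] at hvn
    exact zero_ne_one hvn
  have e1 : V.valuation (mu * u' / u) ≤ 1 := by
    refine (Pool.Agent.MUX2.r2_IT2 V L₁ M₁ (e / u ^ 2) (e' / u' ^ 2) (mu * u' / u) YL YM
      ⟨WL, ξL, gL⟩ ⟨WM, ξM, gM⟩ hnu0 ?_).1
    intro w hw
    have h : w = u * (w / u) := by field_simp
    have h2 : w / u ∈ L.lattice := (hL1 _).2 (by rwa [← h])
    have h3 := (hM1 _).1 (hI _ h2)
    have h5 : u' * (mu * (w / u)) = mu * u' / u * w := by field_simp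
    rwa [h5] at h3
  have e2 : V.valuation (n / (mu * u' / u)) ≤ 1 := by
    refine (Pool.Agent.MUX2.r2_IT2 V M₁ L₁ (e' / u' ^ 2) (e / u ^ 2) (n / (mu * u' / u)) YM YL
      ⟨WM, ξM, gM⟩ ⟨WL, ξL, gL⟩ (div_ne_zero hn0 hnu0) ?_).1
    intro w hw
    have h : w = u' * (w / u') := by field_simp
    have h2 : w / u' ∈ M.lattice := (hM1 _).2 (by rwa [← h])
    have h3 : mu * (w / u' / mu) ∈ M.lattice := by
      have h4 : mu * (w / u' / mu) = w / u' := by field_simp
      rwa [h4]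
    have h4 := (hL1 _).1 (hker _ h3)
    have h5 : u * (n * (w / u' / mu)) = n / (mu * u' / u) * w := by field_simp
    rwa [h5] at h4
  refine le_antisymm e1 ?_
  rw [map_div₀, hvn] at e2
  have h6 : V.valuation (mu * u' / u) ≠ 0 := (_root_.map_ne_zero _).2 hnu0
  rw [one_div] at e2
  exact (inv_le_one₀ (zero_lt_iff.2 h6)).1 e2

lemma cancel_eval {P₁ P₂ P₃ : ℂ[X]} (h3 : P₃ ≠ 0)
    (h : ∀ x, P₁.eval x * P₃.eval x = P₂.eval x * P₃.eval x) : P₁ = P₂ := by
  refine mul_right_cancel₀ h3 (Polynomial.funext fun x => ?_)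
  rw [eval_mul, eval_mul]
  exact h x

end ISO

open _root_.Pool.Agent.N2R.ISO in
theorem tr_ISO (h1 : Sr_SCL) (h2 : Sr_TOR) : Sr_ISO := by
  intro V L M u e a c u' e' a' c' mu n v2 v3 hL hM ha hc ha' hc' hmu hI hodd hker R hR
  have hu := hL.u0
  have hu' := hM.u0
  have hvn : V.valuation (n : ℂ) = 1 := v_odd v2 hodd
  have hnu := unit_nu h1 v3 hL hM ha hc ha' hc' hmu hI hvn hker
  have hxq : ∀ q ∈ R, V.valuation (xu L u e q) ≤ 1 := fun q hq =>
    (h2 V L u e a c ha.le hc.le hL n hvn q (hR.ne q hq) (hker q (hR.mem q hq))).1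
  refine ⟨hnu, hxq, ?_⟩
  obtain ⟨A₀, hA0, hdeg, -, hiso⟩ := u_ISO L M mu R hmu hI hR
  set B₀ : ℂ[X] := C (mu ^ 2) * ∏ q ∈ R, (X - C (L.weierstrassP q)) with hB0
  set Q : ℂ[X] := C (u ^ 2) * X + C e with hQ
  have hu2 : u ^ 2 ≠ 0 := pow_ne_zero 2 hu
  -- the coordinates
  have hxe : ∀ z, u ^ 2 * xu L u e z + e = L.weierstrassP z := by
    intro z
    unfold xu
    field_simp
    ring
  have hQe : ∀ z, Q.eval (xu L u e z) = L.weierstrassP z := by
    intro z
    rw [hQ, eval_add, eval_mul, eval_C, eval_X, eval_C, hxe]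
  -- the polynomial `B`
  have hB : C ((mu * u' / u) ^ 2) * ∏ q ∈ R, (X - C (xu L u e q)) =
      C (u' ^ 2 * ((u ^ 2) ^ (R.card + 1))⁻¹) * B₀.comp Q := by
    have h5 : B₀.comp Q = C (mu ^ 2) * C (u ^ 2) ^ R.card * ∏ q ∈ R, (X - C (xu L u e q)) := by
      rw [hB0, mul_comp, C_comp, prod_comp]
      have h6 : ∀ q ∈ R, (X - C (L.weierstrassP q) : ℂ[X]).comp Q =
          C (u ^ 2) * (X - C (xu L u e q)) := by
        intro q _
        rw [sub_comp, X_comp, C_comp, hQ, ← hxe q, C_add, C_mul, mul_sub]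
        ring
      rw [Finset.prod_congr rfl h6, Finset.prod_mul_distrib, Finset.prod_const, mul_assoc]
    rw [h5, ← C_pow, ← C_mul, ← mul_assoc, ← C_mul]
    congr 2
    rw [pow_succ (u ^ 2) R.card]
    field_simp
  rw [hB]
  set κ : ℂ := ((u ^ 2) ^ (R.card + 1))⁻¹ with hκ
  clear_value B₀ Q
  have hκ0 : κ ≠ 0 := inv_ne_zero (pow_ne_zero _ hu2)
  -- degrees
  have hQd : Q.natDegree = 1 := by
    rw [hQ]
    exact natDegree_linear hu2
  have hQl : Q.leadingCoeff = u ^ 2 := by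
    rw [hQ]
    exact leadingCoeff_linear hu2
  have hB0d : B₀.natDegree ≤ R.card := by
    rw [hB0]
    refine (natDegree_C_mul_le _ _).trans ?_
    rw [natDegree_prod_of_monic _ _ (fun q _ => monic_X_sub_C _)]
    simp
  have hA1d : (A₀ - C e' * B₀).natDegree = R.card + 1 := by
    rw [natDegree_sub_eq_left_of_natDegree_lt, hdeg]
    refine lt_of_le_of_lt ((natDegree_C_mul_le _ _).trans hB0d) ?_
    rw [hdeg]
    exact Nat.lt_succ_self _
  have hA1m : (A₀ - C e' * B₀).Monic := by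
    refine hA0.sub_of_left ?_
    refine degree_lt_degree ?_
    refine lt_of_le_of_lt ((natDegree_C_mul_le _ _).trans hB0d) ?_
    rw [hdeg]
    exact Nat.lt_succ_self _
  have hAm : (C κ * (A₀ - C e' * B₀).comp Q).Monic := by
    show leadingCoeff _ = 1
    rw [leadingCoeff_mul, leadingCoeff_C, leadingCoeff_comp (by rw [hQd]; exact one_ne_zero),
      hA1m.leadingCoeff, hQl, hA1d, one_mul, hκ]
    exact inv_mul_cancel₀ (pow_ne_zero _ hu2)
  have hAd : (C κ * (A₀ - C e' * B₀).comp Q).natDegree = R.card + 1 := by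
    rw [natDegree_C_mul hκ0, natDegree_comp, hA1d, hQd, mul_one]
  -- the two formulas
  have hzL : ∀ z, mu * z ∉ M.lattice → z ∉ L.lattice := fun z h h' => h (hI z h')
  have f1 : ∀ z, mu * z ∉ M.lattice →
      xu M u' e' (mu * z) * (C (u' ^ 2 * κ) * B₀.comp Q).eval (xu L u e z) =
        (C κ * (A₀ - C e' * B₀).comp Q).eval (xu L u e z) := by
    intro z hz
    simp only [eval_mul, eval_C, eval_comp, hQe, eval_sub, ← hiso.P z (hzL z hz) hz]
    unfold xu
    field_simp
  have f2 : ∀ z, mu * z ∉ M.lattice →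
      mu * u' / u * (M.derivWeierstrassP (mu * z) / u' ^ 3) *
          (C (u' ^ 2 * κ) * B₀.comp Q).eval (xu L u e z) ^ 2 =
        (derivative (C κ * (A₀ - C e' * B₀).comp Q) * (C (u' ^ 2 * κ) * B₀.comp Q) -
          (C κ * (A₀ - C e' * B₀).comp Q) * derivative (C (u' ^ 2 * κ) * B₀.comp Q)).eval
            (xu L u e z) * (L.derivWeierstrassP z / u ^ 3) := by
    intro z hz
    have h5 := u_DER L M mu A₀ B₀ hiso z (hzL z hz) hz
    have hQ' : derivative Q = C (u ^ 2) := by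
      rw [hQ]
      simp
    rw [derivative_C_mul, derivative_C_mul, derivative_comp, derivative_comp, hQ']
    simp only [eval_sub, eval_mul, eval_C, eval_comp, hQe, derivative_sub, derivative_C_mul] at h5 ⊢
    have h6 : mu * u' / u * (M.derivWeierstrassP (mu * z) / u' ^ 3) *
        (u' ^ 2 * κ * eval (L.weierstrassP z) B₀) ^ 2 =
        (u' ^ 2 * κ ^ 2 / u) * (mu * M.derivWeierstrassP (mu * z) *
          eval (L.weierstrassP z) B₀ ^ 2) := by
      field_simp
    rw [h6, h5]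
    field_simp
    ring
  refine ⟨C κ * (A₀ - C e' * B₀).comp Q, hAm, hAd, ?_, fun z hz => ⟨f1 z hz, f2 z hz⟩⟩
  -- integrality
  obtain ⟨w, hwdef⟩ : ∃ w, w = L.ω₁ / ((n + 2 : ℕ) : ℂ) := ⟨_, rfl⟩
  have hw : w ∉ L.lattice := by
    rw [hwdef]
    exact frac L (n + 2) (by omega)
  have hl0 : ((n + 2 : ℕ) : ℂ) ≠ 0 := Nat.cast_ne_zero.2 (by omega)
  have hwl : ((n + 2 : ℕ) : ℂ) * w ∈ L.lattice := by
    rw [hwdef, mul_div_cancel₀ _ hl0]
    exact L.ω₁_mem_lattice
  have hvl : V.valuation ((n + 2 : ℕ) : ℂ) = 1 := v_odd v2 (hodd.add_even even_two)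
  have hmw : mu * w ∉ M.lattice := by
    intro h
    have h5 := hker w h
    obtain ⟨k, hk⟩ := hodd
    have hw2 : 2 * w ∈ L.lattice := by
      have h6 : 2 * w = ((n + 2 : ℕ) : ℂ) * w - n * w := by
        push_cast
        ring
      rw [h6]
      exact sub_mem hwl h5
    apply hw
    have h6 : w = n * w - k • (2 * w) := by
      rw [hk, nsmul_eq_mul]
      push_cast
      ring
    rw [h6]
    exact sub_mem h5 (nsmul_mem hw2 k)
  have hwq : ∀ q ∈ R, w + q ∉ L.lattice := by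
    intro q hq h
    apply hmw
    have h5 : mu * w = mu * (w + q) - mu * q := by ring
    rw [h5]
    exact sub_mem (hI _ h) (hR.mem q hq)
  have hXwq : ∀ q ∈ R, V.valuation (xu L u e (w + q)) ≤ 1 := by
    intro q hq
    refine (h2 V L u e a c ha.le hc.le hL ((n + 2) * n) ?_ (w + q) (hwq q hq) ?_).1
    · rw [Nat.cast_mul, map_mul, hvn, hvl, mul_one]
    · have h5 : (((n + 2) * n : ℕ) : ℂ) * (w + q) =
          n • (((n + 2 : ℕ) : ℂ) * w) + (n + 2) • (n * q) := by
        rw [nsmul_eq_mul, nsmul_eq_mul]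
        push_cast
        ring
      rw [h5]
      exact add_mem (nsmul_mem hwl n) (nsmul_mem (hker q (hR.mem q hq)) (n + 2))
  have hXw : V.valuation (xu L u e w) ≤ 1 :=
    (h2 V L u e a c ha.le hc.le hL (n + 2) hvl w hw hwl).1
  have hXmw : V.valuation (xu M u' e' (mu * w)) ≤ 1 := by
    refine (h2 V M u' e' a' c' ha'.le hc'.le hM (n + 2) hvl (mu * w) hmw ?_).1
    have h5 := hI _ hwl
    have h6 : ((n + 2 : ℕ) : ℂ) * (mu * w) = mu * (((n + 2 : ℕ) : ℂ) * w) := by
      ring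
    rwa [h6]
  have hprodV : C ((mu * u' / u) ^ 2) * ∏ q ∈ R, (X - C (xu L u e q)) ∈
      Polynomial.lifts V.subtype := by
    refine mul_mem (C_mem ?_) (prod_mem fun q hq => X_sub_mem (hxq q hq))
    rw [map_pow, hnu, one_pow]
  -- the polynomial identity
  have hid : C κ * (A₀ - C e' * B₀).comp Q =
      C (xu M u' e' (mu * w)) * (C (u' ^ 2 * κ) * B₀.comp Q) +
        (X - C (xu L u e w)) * ∏ q ∈ R, (X - C (xu L u e (w + q))) := by
    have hm : (∏ q ∈ R, (X - C (xu L u e q)) : ℂ[X]) ≠ 0 :=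
      (monic_prod_of_monic _ _ (fun q _ => monic_X_sub_C _)).ne_zero
    refine cancel_eval hm fun x => ?_
    obtain ⟨z, hz, hzx⟩ := b_SUR L (u ^ 2 * x + e)
    have hx : x = xu L u e z := by
      unfold xu
      rw [hzx]
      field_simp
      ring
    by_cases hmz : mu * z ∈ M.lattice
    · obtain ⟨q, hq, hqz⟩ := hR.surj z hmz hz
      have h5 : (∏ q ∈ R, (X - C (xu L u e q)) : ℂ[X]).eval x = 0 := by
        rw [eval_prod]
        refine Finset.prod_eq_zero hq ?_
        rw [eval_sub, eval_X, eval_C, hx]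
        unfold xu
        have h6 : L.weierstrassP z = L.weierstrassP q := by
          have h7 := L.weierstrassP_add_coe q ⟨z - q, hqz⟩
          rw [← h7]
          congr 1
          simp
        rw [h6, sub_self]
      rw [h5, mul_zero, mul_zero]
    · congr 1
      rw [eval_add, hx, ← f1 z hmz, ← hB]
      have h5 := u_PFI L M mu R hmu hI hR w hmw z hmz
      have h6 : ∀ y : ℂ, L.weierstrassP z - L.weierstrassP y =
          u ^ 2 * (xu L u e z - xu L u e y) := by
        intro y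
        rw [← hxe z, ← hxe y]
        ring
      have h7 : M.weierstrassP (mu * z) - M.weierstrassP (mu * w) =
          u' ^ 2 * (xu M u' e' (mu * z) - xu M u' e' (mu * w)) := by
        unfold xu
        field_simp
        ring
      simp only [h6, h7, Finset.prod_mul_distrib, Finset.prod_const] at h5
      have h8 : mu ^ 2 * (u' ^ 2 * (xu M u' e' (mu * z) - xu M u' e' (mu * w))) *
          ∏ q ∈ R, (xu L u e z - xu L u e q) =
          u ^ 2 * (xu L u e z - xu L u e w) * ∏ q ∈ R, (xu L u e z - xu L u e (w + q)) := by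
        have h9 : (u ^ 2) ^ R.card ≠ 0 := pow_ne_zero _ hu2
        refine mul_left_cancel₀ h9 ?_
        linear_combination h5
      simp only [eval_mul, eval_C, eval_prod, eval_sub, eval_X]
      have h10 : (xu L u e z - xu L u e w) * ∏ q ∈ R, (xu L u e z - xu L u e (w + q)) =
          (mu ^ 2 * (u' ^ 2 * (xu M u' e' (mu * z) - xu M u' e' (mu * w))) *
          ∏ q ∈ R, (xu L u e z - xu L u e q)) / u ^ 2 := by
        rw [h8]
        field_simp
      rw [h10]
      field_simp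
      ring
  rw [int_iff, hid, ← hB]
  exact add_mem (mul_mem (C_mem hXmw) hprodV) (mul_mem (X_sub_mem hXw)
    (prod_mem fun q hq => X_sub_mem (hXwq q hq)))

end

end Pool.Agent.N2R


end

section

/-!
# MUX-2N, block R: good reduction of the Deuring form (helper94)
-/

set_option autoImplicit false

open WeierstrassCurve Polynomial

namespace Pool.Agent.N2R

open _root_.MU3 _root_.Pool.Agent.MU3A _root_.Pool.Agent.MU3B _root_.Pool.Agent.RI _root_.Pool.Agent.MUX _root_.Pool.Agent.MUXU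
open _root_.Pool.Agent.MUX2 (GRG)
open _root_.Pool.Agent.NS (xu)
open _root_.Pool.Agent.N2 (WT yt et GoodT CaseT)

noncomputable section

/-- the discriminant of the Deuring curve -/
theorem GRT_disc (a c : ℂ) : (WT a c).Δ = c ^ 3 * (a ^ 3 - 27 * c) := by
  simp only [WeierstrassCurve.Δ, WeierstrassCurve.b₂, WeierstrassCurve.b₄, WeierstrassCurve.b₆,
    WeierstrassCurve.b₈, WT]
  ring

theorem GRT_unit (V : ValuationSubring ℂ) (a c : ℂ) (h3 : V.valuation (3 : ℂ) = 1)
    (ha : V.valuation a < 1) (hc : V.valuation c = 1) :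
    V.valuation (a ^ 3 - 27 * c) = 1 := by
  have e27 : V.valuation (27 * c) = 1 := by
    have : (27 : ℂ) * c = 3 ^ 3 * c := by norm_num
    rw [this, map_mul, map_pow, h3, hc]
    simp
  have ea : V.valuation (a ^ 3) < 1 := by
    rw [map_pow]
    exact pow_lt_one₀ zero_le' ha (by norm_num)
  rw [Valuation.map_sub_eq_of_lt_right, e27]
  rwa [e27]

theorem tr_GRT (h : Sr_XIT) : Sr_GRT := by
  intro V L u e a c h3 ha hc hD
  obtain ⟨ξ, hk, hs, hp⟩ := h L u e a c hD
  refine ⟨ξ, ⟨⟨ha.le, ?_, hc.le, ?_, ?_⟩, ?_, hp, fun z hz => (hk z).2 hz⟩, hs⟩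
  · show V.valuation (0 : ℂ) ≤ 1
    rw [map_zero]
    exact zero_le_one
  · show V.valuation (0 : ℂ) ≤ 1
    rw [map_zero]
    exact zero_le_one
  · show V.valuation (0 : ℂ) ≤ 1
    rw [map_zero]
    exact zero_le_one
  · rw [GRT_disc, map_mul, map_pow, hc, GRT_unit V a c h3 ha hc]
    simp

end

end Pool.Agent.N2R


end

section

/-!
# MUX-2N, block R2N, module FXL (helper31): an automorphism in the inertia group fixes the `x`-coordinates of
the points of order prime to 2. The proof follows `NS/RN_FXL.lean` (helper19).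

`tr_FXL : Sr_UNQ → Sr_EQL → Sr_RED → Sr_GRT → Sr_TOR → Sr_FXL`.
-/

set_option autoImplicit false

open WeierstrassCurve Polynomial

namespace Pool.Agent.N2R

open _root_.MU3 _root_.Pool.Agent.MU3A _root_.Pool.Agent.MU3B _root_.Pool.Agent.RI _root_.Pool.Agent.MUX _root_.Pool.Agent.MUXU
open _root_.Pool.Agent.MUXV (InK tX)
open _root_.Pool.Agent.MUX2 (GRG)
open _root_.Pool.Agent.NS (xu)
open _root_.Pool.Agent.N2 (WT yt et GoodT CaseT)

noncomputable section

theorem tr_FXL (h1 : Sr_UNQ) (h2 : Sr_EQL) (h3 : Sr_RED) (h4 : Sr_GRT) (h5 : Sr_TOR) :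
    Sr_FXL := by
  intro A B V β N hC b L om hL u e a hDeu ha F hNF hF σ hσ hσa hin
  have hv1 : V.valuation (1 : ℂ) = 1 := map_one _
  have hu := hDeu.u0
  have hσa' : σ a = a := by
    refine h1 A B V β N hC b L om hL.toIsLI u e a hDeu ha σ hσ hσa fun z hz hNz => hin z hz ?_
    obtain ⟨k, rfl⟩ := hNF
    have h6 : ((N * k : ℕ) : ℂ) * z = (k : ℕ) • ((N : ℂ) * z) := by
      rw [nsmul_eq_mul]; push_cast; ring
    rw [h6]
    exact nsmul_mem hNz k
  obtain ⟨hσu, hσe, hσ2, hσ3, hσk⟩ := h2 L u e a hDeu hL.nrm σ hσa'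
  refine ⟨hσk, fun z hz hFz => ?_⟩
  have hCj : IsCj σ L L := ⟨hσ2.symm, hσ3.symm⟩
  obtain ⟨Φ, hΦ⟩ := u_PHI σ L L hCj
  have hΦz : Φ z ∉ L.lattice := fun h => hz ((hΦ.mem z).1 h)
  have hFΦ : (F : ℂ) * Φ z ∈ L.lattice := by
    have := ((u_TSN σ L L Φ hCj hΦ).1 (F : ℤ) z).2 (by simpa using hFz)
    simpa using this
  have hX : xu L u e (Φ z) = σ (xu L u e z) := by
    rw [xu, xu, hΦ.P z hz, map_div₀, map_sub, hσu, hσe]
  have hlt : V.valuation (xu L u e z - xu L u e (Φ z)) < 1 := by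
    rw [hX, Valuation.map_sub_swap]
    exact (hin z hz hFz).1
  have hred := (h3 A B V β N hC b L om hL.toIsLI u e a 1 hDeu ha hv1.le (Or.inr hv1)).2.1
  obtain ⟨ξ, G, -⟩ := h4 V L u e a 1 hC.v3 hred hv1 hDeu
  have nK : ∀ w : ℂ, w ∉ L.lattice → (F : ℂ) * w ∈ L.lattice → ¬ InK V L (xu L u e) w := by
    intro w hw hFw h
    rcases h with h | h
    · exact hw h
    · exact h ((ValuationSubring.valuation_le_one_iff _ _).1
        (h5 V L u e a 1 ha hv1.le hDeu F hF w hw hFw).1)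
  have hP : L.weierstrassP (Φ z) = L.weierstrassP z := by
    by_cases hp : InK V L (xu L u e) (z + Φ z)
    · have h6 := Pool.Agent.MUX2.gmem_of_nat_mul G hp hF (by
        rw [mul_add]; exact add_mem hFz hFΦ)
      have h7 : Φ z = -z + ((⟨z + Φ z, h6⟩ : L.lattice) : ℂ) := by
        show Φ z = -z + (z + Φ z)
        ring
      rw [h7, L.weierstrassP_add_coe, L.weierstrassP_neg]
    · by_cases hm : InK V L (xu L u e) (z - Φ z)
      · have h6 := Pool.Agent.MUX2.gmem_of_nat_mul G hm hF (by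
          rw [mul_sub]; exact sub_mem hFz hFΦ)
        have h7 : z = Φ z + ((⟨z - Φ z, h6⟩ : L.lattice) : ℂ) := by
          show z = Φ z + (z - Φ z)
          ring
        have h8 := L.weierstrassP_add_coe (Φ z) ⟨z - Φ z, h6⟩
        rw [← h7] at h8
        exact h8.symm
      · exact absurd (Pool.Agent.MUX2.gv_X_sub G (nK z hz hFz) (nK _ hΦz hFΦ) hp hm) hlt.ne
  have h6 := hΦ.P z hz
  rw [hP] at h6
  rw [xn, map_sub, ← h6, map_div₀, map_one, map_ofNat]

end

end Pool.Agent.N2R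


end

section

/-!
# MUX-2N, block R, module EQL: an automorphism which fixes `a` fixes all invariants (model `NS/RN_EQL.lean`)
-/

set_option autoImplicit false

open WeierstrassCurve Polynomial

namespace Pool.Agent.N2R

open _root_.MU3 _root_.Pool.Agent.MU3A _root_.Pool.Agent.MU3B _root_.Pool.Agent.RI _root_.Pool.Agent.MUX _root_.Pool.Agent.MUXU
open _root_.Pool.Agent.NS (xu)
open _root_.Pool.Agent.N2 (WT yt et GoodT CaseT)

theorem tr_EQL (h : Sr_DEF) : Sr_EQL := by
  intro L u e a hL hn σ hσ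
  obtain ⟨he, -, -, h2, h3, -, -⟩ := h L u e a 1 hL
  have hu : u ≠ 0 := hL.u0
  have hP : a ^ 4 - 24 * a = u ^ 2 * (a ^ 6 - 36 * a ^ 3 + 216) := by
    have h1 : u ^ 4 * (a ^ 4 - 24 * a - u ^ 2 * (a ^ 6 - 36 * a ^ 3 + 216)) = 0 := by
      rw [h2, h3] at hn
      linear_combination 12 * hn
    exact sub_eq_zero.1 ((mul_eq_zero.1 h1).resolve_left (pow_ne_zero 4 hu))
  have hQ : a ^ 6 - 36 * a ^ 3 + 216 ≠ 0 := by
    intro h0
    rw [h0, mul_zero] at hP
    have hP' : a * (a ^ 3 - 24) = 0 := by linear_combination hP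
    rcases mul_eq_zero.1 hP' with h1 | h1
    · rw [h1] at h0
      norm_num at h0
    · have h4 : (72 : ℂ) = 0 := by linear_combination (a ^ 3 - 12) * h1 - h0
      norm_num at h4
  have hu2 : u ^ 2 = (a ^ 4 - 24 * a) / (a ^ 6 - 36 * a ^ 3 + 216) := by
    rw [eq_div_iff hQ]
    linear_combination -hP
  have hsu : σ (u ^ 2) = u ^ 2 := by
    rw [hu2]
    simp only [map_div₀, map_mul, map_add, map_sub, map_pow, map_ofNat, hσ]
  have he' : e = u ^ 2 * a ^ 2 / 12 := by
    rw [eq_div_iff (by norm_num : (12 : ℂ) ≠ 0)]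
    linear_combination he
  have hse : σ e = e := by
    rw [he']
    simp only [map_div₀, map_mul, map_pow _ a, map_ofNat, hσ, hsu]
  have hs2 : σ L.g₂ = L.g₂ := by
    have h4 : L.g₂ = (u ^ 2) ^ 2 * (a ^ 4 - 24 * a) / 12 := by rw [h2]; ring
    rw [h4]
    simp only [map_div₀, map_mul, map_pow _ (u ^ 2), map_sub, map_pow _ a,
      map_ofNat, hσ, hsu]
  have hs3 : σ L.g₃ = L.g₃ := by
    have h4 : L.g₃ = -(1 / 18) * L.g₂ := by linear_combination (1 / 18) * hn
    rw [h4]
    simp only [map_div₀, map_mul, map_neg, map_one, map_ofNat, hs2]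
  refine ⟨hsu, hse, hs2, hs3, ?_⟩
  unfold kap
  simp only [map_div₀, map_mul, map_sub, map_one, map_ofNat, hs2]

end Pool.Agent.N2R


end

section

/-!
# MUX-2N, block R, module DU2 (helper96): duplication in Deuring form
-/

set_option autoImplicit false

open WeierstrassCurve Polynomial

namespace Pool.Agent.N2R

open _root_.MU3 _root_.Pool.Agent.MU3A _root_.Pool.Agent.MU3B _root_.Pool.Agent.RI _root_.Pool.Agent.MUX _root_.Pool.Agent.MUXU
open _root_.Pool.Agent.MUXV (InK tX)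
open _root_.Pool.Agent.MUX2 (GRG)
open _root_.Pool.Agent.NS (xu)
open _root_.Pool.Agent.N2 (WT yt et GoodT CaseT)

theorem tr_DU2 (h1 : Sr_CHT) : Sr_DU2 := by
  intro L u e a c hD z hz
  have he := hD.eq z hz
  refine ⟨fun h2 => ?_, fun h2 => ?_⟩
  · have h0 : L.derivWeierstrassP z = 0 := (b_ZER L z hz).2 h2
    rw [← he, h0]
    simp
  · obtain ⟨-, hdup⟩ := h1 L u e a c hD
    obtain ⟨hne, h3, -⟩ := hdup z h2
    have hY : L.derivWeierstrassP z / u ^ 3 = 2 * yt L u e a c z + a * xu L u e z + c := by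
      simp only [yt, et]
      ring
    rw [hY] at he
    rw [h3]
    generalize xu L u e z = X at *
    generalize yt L u e a c z = Y at *
    have e1 : (3 * X ^ 2 - a * Y) / (2 * Y + a * X + c) * (2 * Y + a * X + c) =
        3 * X ^ 2 - a * Y := div_mul_cancel₀ _ hne
    generalize (3 * X ^ 2 - a * Y) / (2 * Y + a * X + c) = l at *
    rw [← he]
    have e2 : (l ^ 2 + a * l - 2 * X) * (2 * Y + a * X + c) ^ 2 =
        (3 * X ^ 2 - a * Y) ^ 2 + a * (3 * X ^ 2 - a * Y) * (2 * Y + a * X + c) -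
          2 * X * (2 * Y + a * X + c) ^ 2 := by
      rw [← e1]
      ring
    rw [e2]
    linear_combination (-(a ^ 2) / 4 - 2 * X) * he

end Pool.Agent.N2R


end

section

/-!
# MUX-2N, 2R: block R without hypotheses (helper77)
-/

set_option autoImplicit false

namespace Pool.Agent.N2R

open _root_.Pool.Agent.MUXU

theorem r_DEF : Sr_DEF := tr_DEF
theorem r_XIT : Sr_XIT := tr_XIT r_DEF
theorem r_HPD : Sr_HPD := tr_HPD r_DEF
theorem r_NRC : Sr_NRC := tr_NRC
theorem r_TOR : Sr_TOR := tr_TOR r_XIT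
theorem r_TRA : Sr_TRA := tr_TRA r_DEF
theorem r_CMQ : Sr_CMQ := tr_CMQ r_DEF
theorem r_CML : Sr_CML := tr_CML r_DEF
theorem r_ALB : Sr_ALB := tr_ALB
theorem r_ALC : Sr_ALC := tr_ALC
theorem r_RED : Sr_RED := tr_RED r_CMQ r_TOR r_DEF
theorem r_GRT : Sr_GRT := tr_GRT r_XIT
theorem r_CHT : Sr_CHT := tr_CHT r_DEF
theorem r_CLO : Sr_CLO := tr_CLO r_GRT r_CHT
theorem r_UNQ : Sr_UNQ := tr_UNQ r_DEF r_RED r_TOR r_TRA r_CML r_CLO u_BAC u_CJE u_PHI u_TSN
theorem r_EQL : Sr_EQL := tr_EQL r_DEF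
theorem r_FXL : Sr_FXL := tr_FXL r_UNQ r_EQL r_RED r_GRT r_TOR
theorem r_LIF : Sr_LIF := tr_LIF
theorem r_MFD : Sr_MFD := tr_MFD r_DEF
theorem r_UNR : Sr_UNR := tr_UNR r_HPD r_RED r_NRC r_TOR r_LIF r_MFD r_FXL
theorem r_VL2 : Sr_VL2 := tr_VL2 r_ALB r_ALC r_UNR
theorem r_DU2 : Sr_DU2 := tr_DU2 r_CHT
theorem r_TP2 : Sr_TP2 := tr_TP2 r_DU2
theorem r_SCL : Sr_SCL := tr_SCL r_GRT
theorem r_ISO : Sr_ISO := tr_ISO r_SCL r_TOR
theorem r_FLD : Sr_FLD := tr_FLD r_DEF

/-- `2` inert -/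
theorem r_RFIN : Pool.Agent.N2.S2_RFIN := tr_RFN r_ALB r_HPD r_RED r_FLD r_UNR

/-- `2` ramified -/
theorem r_RFINQ : Pool.Agent.N2.SQ_RFIN := tr_RFQ r_ALC r_HPD r_RED r_FLD r_UNR

end Pool.Agent.N2R


end
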