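import Mathlib
import Pool.Agent.MVF.C050
import Pool.Agent.MVF.C058
import Pool.Agent.MVF.C063
import Pool.Agent.MVF.C080
import Pool.Agent.MVF.C109

/-! Parts: ME2.EU_XXS, ME2.StE4, ME2.F4_COS, ME2.EU_HAL, ME2.EU_HEQ, ME2.F4_HEQ, ME2.F4_GLC, ME2.F4_SQR, ME2.F4_GPO, ME2.F4_FIB, ME2.F4_CTX, ME2.F4_TPU, ME2.F4_PST, ME2.EU_AUT, N2.V_SIG, ME2.EU_ORB, ME2.H_ChT, ME2.H_DepT -/

namespace Pool.Agent.ME2E.HAL
end Pool.Agent.ME2E.HAL
namespace Pool.Agent.ME2E.ORB
end Pool.Agent.ME2E.ORB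
namespace Pool.Agent.ME2E.XXS
end Pool.Agent.ME2E.XXS
namespace Pool.Agent.ME2F.CtxUaux
end Pool.Agent.ME2F.CtxUaux
namespace Pool.Agent.ME2F.FIB61
end Pool.Agent.ME2F.FIB61
namespace Pool.Agent.ME2F.GPO
end Pool.Agent.ME2F.GPO
namespace Pool.Agent.ME2F.PST
end Pool.Agent.ME2F.PST
namespace Pool.Agent.ME2F.SQR
end Pool.Agent.ME2F.SQR
namespace Pool.Agent.ME2F.TPU
end Pool.Agent.ME2F.TPU

section

/-!
# MUX-2N, block E2N, module XXS: stability of the sets `XXE` (helper96)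
-/

set_option autoImplicit false

namespace Pool.Agent.ME2E

open _root_.MU3 _root_.Pool.Agent.MU3A _root_.Pool.Agent.MU3B _root_.Pool.Agent.MUX _root_.Pool.Agent.MUXU
open _root_.Pool.Agent.RI _root_.Pool.Agent.NS
open _root_.Pool.Agent.ME hiding ActE
open _root_.Pool.Agent.MEE _root_.Pool.Agent.ME2
open _root_.Pool.Agent.MUXE (RingE)
open _root_.Pool.Agent.N2 (GoodT et yt WT IsTei2 OddT PTq)
open _root_.Pool.Agent.N2E (dlg del cc IsoT Sd_LAG Sd_PRD Sd_COE Sd_GRT Sd_TPT Sd_UNT Sd_RAT Sd_THT Sd_DST Sd_NE1 Sd_PRT)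

noncomputable section

namespace XXS

/-- congruent elements give congruent points -/
lemma _root_.Pool.Agent.ME2E.XXS.pt_cong {A B : ℤ} (hr : RingE A B) {n : ℕ} {ι : Type} (R : RepsE A B n ι)
    (hn : n ≠ 0) (i : ι) {m : ℕ} (hm0 : m ≠ 0) {x y : OO A B}
    (hy : x - y ∈ idl (A := A) (B := B) m) :
    ptE R m i x - ptE R m i y ∈ (R.L i).lattice := by
  obtain ⟨hmu0, hmuL, -, -⟩ := tm_PT tm_TRA A B hr n ι R hn i
  obtain ⟨t, ht⟩ := Ideal.mem_span_singleton.1 hy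
  obtain ⟨φ, hφ⟩ := hr.hom
  have e1 : emb x = (m : ℂ) * emb t + emb y := by
    have : x = ((m : ℕ) : OO A B) * t + y := by rw [← ht]; ring
    rw [this, ← hφ, ← hφ, ← hφ, map_add, map_mul, map_natCast]
  have hmc : (m : ℂ) ≠ 0 := by exact_mod_cast hm0
  have hu : R.om R.i0 * emb t ∈ (R.L R.i0).lattice := by
    rw [(R.nl R.i0).mem]
    exact ⟨t, by rw [R.b0]; trivial, rfl⟩
  have h5 := hmuL _ hu
  have hom : R.om R.i0 ≠ 0 := (R.nl R.i0).om_ne
  have e4 : muXE R i * (R.om R.i0 * emb t) = ptE R m i x - ptE R m i y := by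
    unfold muXE ptE
    rw [e1]
    field_simp
    ring
  rwa [e4] at h5

/-- the point of level `m` is killed by `m` -/
lemma _root_.Pool.Agent.ME2E.XXS.pt_mul {A B : ℤ} (hr : RingE A B) {n : ℕ} {ι : Type} (R : RepsE A B n ι)
    (hn : n ≠ 0) (i : ι) {m : ℕ} (hm0 : m ≠ 0) (x : OO A B) :
    (m : ℂ) * ptE R m i x ∈ (R.L i).lattice := by
  obtain ⟨hmu0, hmuL, -, -⟩ := tm_PT tm_TRA A B hr n ι R hn i
  have hmc : (m : ℂ) ≠ 0 := by exact_mod_cast hm0
  have hu : R.om R.i0 * emb x ∈ (R.L R.i0).lattice := by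
    rw [(R.nl R.i0).mem]
    exact ⟨x, by rw [R.b0]; trivial, rfl⟩
  have h5 := hmuL _ hu
  have hom : R.om R.i0 ≠ 0 := (R.nl R.i0).om_ne
  have e4 : muXE R i * (R.om R.i0 * emb x) = (m : ℂ) * ptE R m i x := by
    unfold muXE ptE
    field_simp
  rwa [e4] at h5

/-- `c x ≡ y` modulo `m` implies that `y` is prime to `m` -/
lemma _root_.Pool.Agent.ME2E.XXS.cop_of {A B : ℤ} {m : ℕ} {x y : OO A B} (hx : IsCoprime x ((m : ℕ) : OO A B))
    (h : x - y ∈ idl (A := A) (B := B) m) : IsCoprime y ((m : ℕ) : OO A B) := by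
  obtain ⟨t, ht⟩ := Ideal.mem_span_singleton.1 h
  have e1 : y = x + ((m : ℕ) : OO A B) * (-t) := by
    have : y = x - ((m : ℕ) : OO A B) * t := by rw [← ht]; ring
    rw [this]; ring
  rw [e1]
  exact IsCoprime.add_mul_left_left hx _

end XXS

open _root_.Pool.Agent.ME2E.XXS in
theorem ty_XXS : Sy_XXS := by
  intro A B V n f a m hS ι R D h
  letI := algC h
  intro τ q hq
  have hr := hS.ctx.ring
  have hf : f ≠ 0 := by have := hS.f3; omega
  have hm0 : m ≠ 0 := by rw [hS.hm]; positivity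
  have h2f : 2 * f ≠ 0 := by omega
  have hNL : NLE A B (R.L q.1) := ⟨R.b q.1, R.om q.1, R.nl q.1⟩
  obtain ⟨t1, -, t3, -, t5, -, -, -, t9⟩ := tm_TRA A B hr (R.L q.1) hNL
  obtain ⟨φ, hφ⟩ := hr.hom
  obtain ⟨a1, σ, a2, a3, ⟨a4, a5, a6⟩⟩ := hq
  refine ⟨?_, ?_⟩
  · -- `-1`
    have hmk : -(Quotient.out q.2 : OO A B) - Quotient.out (-q.2) ∈
        idl (A := A) (B := B) m := by
      rw [← Ideal.Quotient.eq_zero_iff_mem, map_sub, map_neg, Ideal.Quotient.mk_out,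
        Ideal.Quotient.mk_out]
      exact sub_self _
    refine ⟨_root_.Pool.Agent.ME2E.XXS.cop_of a1.neg_left hmk, σ, a2, a3, a4, ?_⟩
    have e1 := _root_.Pool.Agent.ME2E.XXS.pt_cong hr R h2f q.1 hm0 hmk
    have e2 : ptE R m q.1 (-(Quotient.out q.2 : OO A B)) = -ptE R m q.1 (Quotient.out q.2) := by
      unfold ptE
      rw [← hφ, ← hφ, map_neg]
      ring
    rw [e2] at e1
    have hnz : -(ptE R m q.1 (Quotient.out q.2 : OO A B)) ∉ (R.L q.1).lattice :=
      fun h => a6 (by simpa using neg_mem h)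
    obtain ⟨b1, b2⟩ := t9 _ _ e1
    obtain ⟨c1, -, c3⟩ := b2 hnz
    refine ⟨?_, fun h => hnz (b1.2 h)⟩
    rw [a5, ← c1, ← c3, neg_neg]
  · intro c s hc hs hsD
    have hmk : c * (Quotient.out q.2 : OO A B) -
        Quotient.out (Ideal.Quotient.mk (idl (A := A) (B := B) m) c * q.2) ∈
        idl (A := A) (B := B) m := by
      rw [← Ideal.Quotient.eq_zero_iff_mem, map_sub, map_mul, Ideal.Quotient.mk_out,
        Ideal.Quotient.mk_out]
      exact sub_self _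
    refine ⟨_root_.Pool.Agent.ME2E.XXS.cop_of (hc.mul_left a1) hmk, σ.trans s, ?_, ?_, ?_, ?_⟩
    · show s (σ (wC A B)) = wC A B
      rw [show σ (wC A B) = wC A B from a2]
      exact hs.fix
    · intro y
      show s (σ (y : ℂ)) = _
      rw [a3 y]
      exact hsD _ (τ y).2
    · show kapE (R.L q.1) = s (σ (kapE (R.L R.i0)))
      rw [← a4]
      exact (hs.kapE _ hNL).symm
    · have hma : Tor (idl (A := A) (B := B) (m * a)) (R.L q.1)
          (ptE R m q.1 (Quotient.out q.2 : OO A B)) := by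
        rw [show idl (A := A) (B := B) (m * a) = sp ((m * a : ℕ) : OO A B) from rfl, t5]
        have e3 : emb ((m * a : ℕ) : OO A B) = (a : ℂ) * m := by
          rw [← hφ, map_natCast]
          push_cast
          ring
        rw [e3, mul_assoc]
        have h7 := nsmul_mem (_root_.Pool.Agent.ME2E.XXS.pt_mul hr R h2f q.1 hm0 (Quotient.out q.2 : OO A B)) a
        rwa [nsmul_eq_mul] at h7
      obtain ⟨d1, d2⟩ := hs.xnE _ hNL _ hma a6
      have e1 := _root_.Pool.Agent.ME2E.XXS.pt_cong hr R h2f q.1 hm0 hmk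
      have e2 : ptE R m q.1 (c * (Quotient.out q.2 : OO A B)) =
          emb c * ptE R m q.1 (Quotient.out q.2) := by
        unfold ptE
        rw [← hφ, ← hφ, ← hφ, map_mul]
        ring
      rw [e2] at e1
      obtain ⟨b1, b2⟩ := t9 _ _ e1
      obtain ⟨c1, -, -⟩ := b2 d1
      refine ⟨?_, fun h => d1 (b1.2 h)⟩
      show s (σ (xnE (R.L R.i0) (ptE R m R.i0 1))) = _
      rw [a5, d2, c1]

end

end Pool.Agent.ME2E


end

section

/-!
# ME2, block E for `D = -4`, `p = 2` (ramified): squares and logarithmic derivatives (helper59)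

Twin of `Pool/Agent/N2/StER2.lean` (block ER2, finished: `Pool/Agent/N2/VAll.lean`, theorems `Pool.Agent.N2V.v_X : Sv_X`, proofs `tv_X` in `Pool/Agent/N2/V_X.lean`) in the frame of `ME/DefsE.lean`, `ME/StXEE.lean`, `ME2/StE3.lean`: `(A, B) = (-1, 0)`, `O = ℤ[i]`, `P = (1 + i)`, `2 O = P²`, `w0 = i`, `d = dR A = 2`.
The statements on lattices `Sv_COE, GRT, UNT, RAT, THT, NE1, PVI, TWO, DS2` are used as they are (`Pool.Agent.N2V.v_COE`, .. in `N2/VAll.lean`), also `Sd_LAG, Sd_PRD` (`Pool.Agent.N2E.td_X`) and helper34's `AutCE`, `Sy_AUT`, `Sy_GTA` (general `CaseE`; `ME2/StE3.lean`). All levels are even, `RFE (2 f)` (`f` odd) has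
ramification index 2 over `k` at `V`: the values on it are in `(1/4) ℤ` (UNR). Automorphisms are given for `c ≡ 1` modulo `2` only; `c = 1 + N b`, `1 + m' b` satisfy this. The numbers are those of `StER2.lean` with `d = 2`; they are written with `dR A` so that the proofs can be copied.

Module: theorem `t4_X (h : ...) : S4_X` in `Pool/Agent/ME2/F4_X.lean`, namespace `Pool.Agent.ME2F`. All are PORTS of `Pool/Agent/N2/V_X.lean`: `CtxU → CtxF`, `SetV → SetF`, `TorX → TorXE`, `GalE → GalEE`, `RF → RFE`, `NL → NLE`, `IsNL → IsNE`, `xn L z → xnE L z = ℘ z` (no `1/12`), `kap → kapE`, `Reps → RepsE`, `pt → ptE`, `muX → muXE`, `XX → XXE`, `HalfS → HalfSE`,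
`TT2 → TT2E`, `AutC → AutCE`, `InCyc → InCycE`, `te_TRA, TRB, FAC, GTH, PT, GAL → tm_TRA, ..` (`Pool/Agent/ME/X_*.lean`, namespace `Pool.Agent.MEE`). Only CTX, UNR, DEG, SIG, GPO (value of `κ`), GLC have changes.
-/

set_option autoImplicit false

open Polynomial

namespace Pool.Agent.ME2F

open _root_.MU3 _root_.Pool.Agent.MU3A _root_.Pool.Agent.MU3B _root_.Pool.Agent.MUX _root_.Pool.Agent.MUXU
open _root_.Pool.Agent.RI _root_.Pool.Agent.NS
open _root_.Pool.Agent.ME hiding ActE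
open _root_.Pool.Agent.MEE _root_.Pool.Agent.ME2
open _root_.Pool.Agent.MUXE (RingE)
open _root_.Pool.Agent.N2 (GoodQ OddQ dR et yt WT PTq)
open _root_.Pool.Agent.N2E (dlg cc)
open _root_.Pool.Agent.N2V (IsoU NN w0 bb)
open _root_.Pool.Agent.ME2E (AutCE)
open _root_.Pool.Agent.NSE (IntP)
open _root_.Pool.Agent.MUX2 (GRG)
open _root_.Pool.Agent.MUXV (InK tX)

noncomputable section

/-! ## Definitions -/

/-- everything on `O`, `k`, `P`, `V` and the reduction which is used -/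
structure CtxF (A B : ℤ) (P : Ideal (OO A B)) (V : ValuationSubring ℂ) : Prop where
  ring : RingE A B
  cq : CQ A B
  case : CaseE A B
  B0 : B = 0
  mod : A % 4 = 2 ∨ A % 4 = 3
  v2 : V.valuation (2 : ℂ) < 1
  int : ∀ x : OO A B, V.valuation (emb x) ≤ 1
  unit : ∀ x : OO A B, x ∉ P → V.valuation (emb x) = 1
  nat : ∀ n : ℕ, ¬ 2 ∣ n → V.valuation (n : ℂ) = 1
  max : P.IsMaximal
  one : ∀ x : OO A B, x ∉ P → x - 1 ∈ P
  nrm : ∀ x : OO A B, x ∉ P → ¬ (2 : ℤ) ∣ nm x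
  pi : ∃ ϖ : OO A B, V.valuation (emb ϖ) ^ 2 = V.valuation (2 : ℂ)
  w0 : V.valuation (emb (⟨0, 1⟩ : OO A B)) ^ 2 = V.valuation (2 : ℂ) ^ (dR A - 2)
  /-- the powers of `P`, with the valuation -/
  pw : ∀ (k : ℕ) (x : OO A B), x ∈ P ^ k ↔
    V.valuation (emb x) ^ 2 ≤ V.valuation (2 : ℂ) ^ k
  /-- divisibility by `2^k`, with the valuation -/
  dv : ∀ (k : ℕ) (x : OO A B), x ∈ idl (A := A) (B := B) (2 ^ k) ↔
    V.valuation (emb x) ≤ V.valuation (2 : ℂ) ^ k
  good : ∀ L, NLE A B L → ∃ u e a1 a3 : ℂ, GoodQ V L u e a1 a3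
  iner : ∀ f : ℕ, f ≠ 0 → ¬ 2 ∣ f → 3 ∣ f → ∀ σ : ℂ ≃+* ℂ, FixK A B σ →
    (∀ y ∈ RFE (idl (A := A) (B := B) (2 * f)), y ∈ V → σ y - y ∈ V.nonunits) →
    ((∀ y ∈ RFE (idl (A := A) (B := B) 3), σ y = y) →
      ∀ y ∈ RFE (idl (A := A) (B := B) (2 * f)), σ y = y) ∧
    ((∀ y ∈ RFE (idl (A := A) (B := B) 3), σ y = y) ∨
      ∀ (b : Ideal (OO A B)) (L : PeriodPair) (om : ℂ), IsNE b L om →
        ∀ w ∉ L.lattice, 3 * w ∈ L.lattice → σ (L.weierstrassP w) = -L.weierstrassP w)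
  exq : ∀ (L : PeriodPair), NLE A B L → ∃ (N : PeriodPair) (nu : ℂ), NLE A B N ∧ IsQ P L N nu

/-- the hypotheses on the levels: `m = 2^(n+2) f` (points, sets `XXE`), `m' = 2^(n+1) f` (fields) -/
structure SetF (A B : ℤ) (P : Ideal (OO A B)) (V : ValuationSubring ℂ) (n f a m m' : ℕ) :
    Prop where
  ctx : CtxF A B P V
  tor : TorXE A B
  n5 : 5 ≤ n
  f3 : 3 ≤ f
  fd : 3 ∣ f
  fo : ¬ 2 ∣ f
  a3 : 3 ≤ a
  ao : ¬ 2 ∣ a
  af : a.Coprime f
  hm : m = 2 ^ (n + 2) * f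
  hm' : m' = 2 ^ (n + 1) * f

/-- the product over one fibre -/
def GFibE {A B : ℤ} {n : ℕ} {ι : Type} (R : RepsE A B n ι) (H : ι → Finset ℂ) (m m' : ℕ) (i : ι)
    (x : OO A B) : ℂ :=
  ∏ l ∈ Finset.range 4, ThetaH (R.L i) (H i) (ptE R m i (x + (m' : OO A B) * bb l))

/-- the sum over one fibre -/
def FFibE {A B : ℤ} {n : ℕ} {ι : Type} (R : RepsE A B n ι) (a m m' : ℕ) (i : ι)
    (x : OO A B) : ℂ :=
  ∑ l ∈ Finset.range 4, dlX (R.L i) a (ptE R m i (x + (m' : OO A B) * bb l))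

/-! ## Points of order a power of 2 -/

/-- (PST) one step `L → N = ν P⁻¹ L`. PORT of `V_PST.lean`.

Uses Sv_TWO, Sv_PVI, Su_BAC. PROOF. `q ∈ Tor P L`, `q ∉ L`: `2 ∈ P` (`pw`, `k = 1`), so `2 q ∈ L`, `q ∈ InK`, `v(2) v(x q) ≤ 1` (TWO). Let `R` be representatives of the nonzero classes of `{z : ν z ∈ N} = {z : Tor P L z}` (BAC). `E[P]` has two elements: `q, q' ∉ L` in `E[P]` are congruent modulo `L`: by `tm_TRB` (2) (`P` maximal) `q' ≡ emb x q`, `x ∉ P`,
and `x - 1 ∈ P` (`one`). And `E[P] ≠ 0` (`tm_TRB`, or: otherwise (PVI) with `R = ∅` gives `v(ν u'/u) = 1` in what follows). So `R = {q}` or `R = ∅`, and in both cases (PVI) and (TWO) give `v 2 ≤ v(ν u'/u)²` (*). Let `N'`, `ν'` be a second step (`exq` for `N`; `good`): `v 2 ≤ v(ν' u''/u')²`. The composition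
`ν ν' : L → N'` has the kernel `{z : emb p (emb p' z) ∈ L for all p, p' ∈ P} = {z : 2 z ∈ L}`: `←`: `p p' ∈ P ^ 2`, `p p' = 2 y` (`pw`, `dv`: `v(p p') ≤ v 2`, so `p p' ∈ (2)`); `→`: `2 ∈ P ^ 2 = P * P` (`pw`) is a sum of products `p p'` (`Submodule.mul_induction_on`). So there is `R` with `IsRpM L L 2 R` (BAC) and `IsRpM L N' (ν ν') R`:
(PVI), (TWO (3)): `v(ν ν' u''/u)² = v(2)²`, and `(ν u'/u)(ν' u''/u') = ν ν' u''/u`. So both factors in (*) are equal to `v 2`, in particular `R = {q}`, `v(2) v(x q) = 1` (PVI). -/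
def S4_PST : Prop :=
  ∀ (A B : ℤ) (P : Ideal (OO A B)) (V : ValuationSubring ℂ), CtxF A B P V →
    ∀ (L N : PeriodPair) (nu u e a1 a3 u' e' a1' a3' : ℂ), NLE A B L → NLE A B N → IsQ P L N nu →
      GoodQ V L u e a1 a3 → GoodQ V N u' e' a1' a3' →
      V.valuation (nu * u' / u) ^ 2 = V.valuation (2 : ℂ) ∧
      ∃ q, Tor P L q ∧ q ∉ L.lattice ∧ IsRpM L N nu {q} ∧
        V.valuation (2 : ℂ) * V.valuation (xu L u e q) = 1

/-- (TPU) the points of exact order `P^(j+1)`. PORT of `V_TPU.lean`.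

Uses Sv_COE, Sv_GRT, Sv_TWO, S4_PST, Su_PFI. PROOF. Claim: `1 < v(x z)`, `v(x z)^(2^j) v(2) = 1`; then `v(t z)² v(x z) = 1` (`gv_tX_lt`) gives `v(t z)^(2^(j+1)) = v 2`. Induction on `j`, for all lattices; `j = 0`: (PST) (`Tor (P^0) L z` iff `z ∈ L`; `z ≡ q` by `IsRpM.surj`, `ν z ∈ N`).
Step (as `Sf_TPR`, `StER.lean`): `Tor (P^(j+2)) L z`, not `Tor (P^(j+1)) L z`. `N`, `ν` (`exq`), `u', ..` (`good`), `z' = ν z`: `Tor (P^(j+1)) N z'`, not `Tor (P^j) N z'` (`emb x (ν z) ∈ N` iff `emb p (emb x z) ∈ L` for all `p ∈ P`; `P ^ (j+1) = P * P ^ j`), so `Y = v(x' z') > 1`, `Y^(2^j) v(2) = 1`. `q` from (PST), `T = v(x q)`, `v(2) T = 1`, `T > 1`,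
so `Y ≤ T` (`Y^(2^j) = T`). `w = ω₁/5`: `w, w + q ∉ InK V L`, `ν w ∉ InK V N` (see PVI). (PFI): `(ν u'/u)² (x'(z') - x'(ν w)) (x z - x q) = (x z - x w)(x z - x(w + q))`, `v(ν u'/u)² = v 2`, `v(x'(z') - x'(ν w)) = Y`. If `v(x z) ≤ 1`: left side `v(2) Y T = Y > 1`, right side `≤ 1`: false. So
`X = v(x z) > 1`, right side `X²`. `X > T`: `v(2) Y X = X²`, `X = v(2) Y ≤ v(2) T = 1`: false. `X = T`: `X² ≤ v(2) Y T = Y ≤ T = X`, false. So `X < T`: `v(2) Y T = X²`, `X² = Y`. -/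
def S4_TPU : Prop :=
  ∀ (A B : ℤ) (P : Ideal (OO A B)) (V : ValuationSubring ℂ), CtxF A B P V →
    ∀ (j : ℕ) (L : PeriodPair) (u e a1 a3 : ℂ), NLE A B L → GoodQ V L u e a1 a3 →
      ∀ z, Tor (P ^ (j + 1)) L z → ¬ Tor (P ^ j) L z → InK V L (xu L u e) z ∧ z ∉ L.lattice ∧
        V.valuation (tX (xu L u e) (yt L u e a1 a3) z) ^ (2 ^ (j + 1)) = V.valuation (2 : ℂ)

/-- (DST) the distances. PORT of `V_DST.lean`.

Uses Sv_COE, Sv_GRT, Sv_TWO, S4_TPU, Su_BAC. PROOF. For `Y ∈ InK`, `Y ∉ L`: `gnear` and `gv_DX` (`2 Q ∉ InK`): `Q + Y ∉ InK` and `v(x(Q + Y) - x Q) = v(t Y)`. If `x(Q + Y) = x(Q + Y')`, `Y, Y' ∈ InK`, then `Y ≡ Y'` (`b_NEQ`; `2 Q ≡ -Y - Y'` is impossible). (1) `R` with `IsRpM L L 4 R` (BAC), in `InK` (TWO (2)), `S` = the `x(Q + q)`, `q ∈ R`;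
`v(t q)² v(x q) = 1` (`gv_tX_lt`), so (TWO (3)) `(∏ v(t q))² = v(2)⁴`. (2) `S = {x(Q + Y), x(Q + 2 Y), x(Q + 3 Y)}`. `d = 2` or `3`. `Y` and `3 Y` have exact order `P^(6-d)` (`3` is prime to `P`), `2 Y` has exact order `P^(4-d)`: `emb x (2 Y) ∈ L` iff `2 x ∈ ..`: `Tor (P^(4-d)) L (2 Y)` because `2 P^(4-d) ⊆ P^(6-d)` (`pw`);
not `Tor (P^(3-d)) L (2 Y)`: every `x ∈ P^(5-d)` is `2 y` with `y ∈ P^(3-d)` (`dv`, `pw`), so it would give `Tor (P^(5-d)) L Y` (`d = 2`: `x ∈ P³`, `y ∈ P`; `d = 3`: `x ∈ P²`, `y ∈ P^0`). (TPU), `d = 2`: `α = v(t Y) = v(t(3 Y))`, `α^16 = v 2`, `β = v(t(2 Y))`, `β⁴ = v 2`: `(α β α)^8 = v(2)³`. `d = 3`: `α^8 = v 2`, `β² = v 2`: `(α β α)^8 = v(2)^6`. -/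
def S4_DST : Prop :=
  ∀ (A B : ℤ) (P : Ideal (OO A B)) (V : ValuationSubring ℂ), CtxF A B P V →
    ∀ (L : PeriodPair) (u e a1 a3 : ℂ), NLE A B L → GoodQ V L u e a1 a3 →
    ∀ Q : ℂ, ¬ InK V L (xu L u e) Q → ¬ InK V L (xu L u e) (2 * Q) →
    (∃ S : Finset ℂ, xu L u e Q ∉ S ∧
      (∀ x ∈ S, V.valuation x ≤ 1 ∧ ∃ Y, 4 * Y ∈ L.lattice ∧ x = xu L u e (Q + Y)) ∧
      ∏ x ∈ S, V.valuation (xu L u e Q - x) ≤ V.valuation (2 : ℂ) ^ 2) ∧
    ∀ Y, Tor (P ^ (6 - dR A)) L Y → ¬ Tor (P ^ (5 - dR A)) L Y →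
      ∃ S : Finset ℂ, xu L u e Q ∉ S ∧
        (∀ x ∈ S, V.valuation x ≤ 1 ∧ ∃ k : ℕ, k < 4 ∧ x = xu L u e (Q + k * Y)) ∧
        (∏ x ∈ S, V.valuation (xu L u e Q - x)) ^ 8 ≤ V.valuation (2 : ℂ) ^ (3 * (dR A - 1))

/-! ## The fields -/

/-- (CTX) from the standing hypotheses to `CtxF`. PORT of `tv_CTX` (`V_CTX.lean`) for `A = -1`, `B = 0`.

PROOF. `A = -1` (`CaseE.hA`), `A % 4 = 3`, `dR A = 2`; `ϖ = 1 + i`, `v(emb ϖ)² = v 2`, `w0 = i` a unit. The proof of `tv_CTX` uses `CaseR2` only for `CQ`, `B = 0` and `mod`. `ring`: `Pool.Agent.MUXE.te_RNG`. `exq`: `TorXE.surj` for `m = ⊤`, `a = P`. `good`, `iner`: `T4_RFIN`. -/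
def S4_CTX : Prop :=
  ∀ (A B : ℤ) (P : Ideal (OO A B)) (V : ValuationSubring ℂ), CaseE A B → B = 0 → IsPN 2 P →
    OverI V P → TorXE A B → T4_RFIN → CtxF A B P V

/-- (UNR) the ramification index of `RFE (2 f)` over `k` at `V` divides `2`, if `f` is odd.

Model: `EU_UNR.lean`; uses `ramI` (`Pool/Agent/ME2/L_RamI.lean`). PROOF. `RFE (2 f) ≤ RFE (6 f)` (`tm_FAC`), so suppose `3 ∣ f`; `F = RFE (idl (2 f))`, `RFE (3) ≤ F`. `I` from `ramI`. `σ ∈ I` extends to an automorphism of `ℂ` (`FixK`), so (`CtxF.iner`) either it fixes `RFE (3)`, and then `σ = 1`, or it acts as `-1` on the `x`-coordinates of the points of order three of all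
normalised lattices. Two `σ, σ'` of the second type: `σ⁻¹ σ' ∈ I` fixes these coordinates and `kapE L` (`= 4`), so it fixes `RFE (3)`, so it is `1`. So `|I| ≤ 2`, and `v(y)²` is a power of `v(emb ϖ)`, `v(emb ϖ)² = v 2`. -/
def S4_UNR : Prop :=
  ∀ (A B : ℤ) (P : Ideal (OO A B)) (V : ValuationSubring ℂ), CtxF A B P V → TorXE A B →
    ∀ f : ℕ, f ≠ 0 → ¬ 2 ∣ f → ∀ y ∈ RFE (idl (A := A) (B := B) (2 * f)), y ≠ 0 →
      ∃ k : ℤ, V.valuation y ^ 4 = V.valuation (2 : ℂ) ^ k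

/-- (DEG) the degree of `RFE (2^(j+1) f)` over `RFE (2 f)`. Model `V_DEG.lean`, `Sy_DEG` of `StE3.lean`.

PROOF. `σ` trivial on `RFE (2 f)` acts as `α ≡ 1` modulo `2 f` (`GalEE.ker`): `4^j` classes modulo `2^(j+1) f` (`tm_FAC`: the action of `σ` is determined by the class of `α`). -/
def S4_DEG : Prop :=
  ∀ (A B : ℤ) (P : Ideal (OO A B)) (V : ValuationSubring ℂ), CtxF A B P V → GalEE A B →
    ∀ (j f : ℕ), f ≠ 0 → ¬ 2 ∣ f →
    Module.finrank (kk A B) (RFE (idl (A := A) (B := B) (2 ^ (j + 1) * f))) ≤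
      4 ^ j * Module.finrank (kk A B) (RFE (idl (A := A) (B := B) (2 * f)))

/-- (CON) the elements `c = 1 + N b`, `N = NN n f a = 2^(n-1) f a`. PORT of `V_CON.lean` (new: `c - 1 ∈ (2 f a)`, as `n ≥ 2`).

PROOF. `m' a = 4 N`, `m = 2 m'`. (1) `n - 1 ≥ 2`: `c ≡ 1` modulo `4 f`, `a`; so `c` is prime to `m a` and not 0. (2) `nm (1 + t w0) = 1 - t² A` (`B = 0`) for integers `t`, `≥ 1`, `t = N k`, `2^(n+2) ∣ N²` (`2 (n - 1) ≥ n + 2`). `nm (1 + m' b) = (1 + m' b₁)² - m'² b₂² A`, `b = ⟨b₁, b₂⟩`: `2 m' = m` and `m'²` are divisible by `2^(n+2)`; it is `> 0`. `nI (sp x) = |nm x|` (see `E_CON.lean`).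
(3) `c_k c_l - c_(k+l) = N² k l A`, `m a ∣ N²`. (4) `c_4 - 1 = 4 N w0 = m' a w0`. (5) `c_2 x - x = 2 N w0 x`; if it is in `(m')` then `2 ∣ a w0 x`: `v(a w0 x)² = v(w0)² ≥ v 2 > v(2)²` (`CtxF.w0`, `unit`; `x` is prime to `m` so `∉ P`), contradiction to `dv`. (6) `N/m' = a/4`. `R = emb w0 (a om/4)`: `emb x R ∈ L = om emb O` iff `4 ∣ a w0 x` iff (`dv`) `v(x)² v(w0)² ≤ v(2)⁴` iff
`v(x)² ≤ v(2)^(6-d)` iff `x ∈ P^(6-d)` (`pw`); and `P^(5-d)` is not contained in `P^(6-d)` (powers of `ϖ`). (7) `L = om emb O`: `Y = om emb b'/4`, take `b = a b'`, `a² ≡ 1` modulo 4. -/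
def S4_CON : Prop :=
  ∀ (A B : ℤ) (P : Ideal (OO A B)) (V : ValuationSubring ℂ) (n f a m m' : ℕ),
    SetF A B P V n f a m m' →
    (∀ b : OO A B, IsCoprime (sp (cc (NN n f a) b)) (idl (m * a)) ∧
      IsCoprime (cc (NN n f a) b) ((m : ℕ) : OO A B) ∧
      cc (NN n f a) b ≠ 0 ∧ cc (NN n f a) b - 1 ∈ idl (2 * (f * a)) ∧
      cc (NN n f a) b - 1 ∈ idl (4 * f) ∧ cc (NN n f a) b - 1 ∈ idl a) ∧
    ((∀ k : ℕ, ∃ j : ℕ, nI (sp (cc (NN n f a) ((k : OO A B) * w0))) = 1 + 2 ^ (n + 2) * j) ∧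
      ∀ b : OO A B, ∃ j : ℕ, nI (sp (cc m' b)) = 1 + 2 ^ (n + 2) * j) ∧
    (∀ k l : ℕ, cc (NN n f a) ((k : OO A B) * w0) * cc (NN n f a) ((l : OO A B) * w0) -
      cc (NN n f a) (((k + l : ℕ) : OO A B) * w0) ∈ idl (m * a)) ∧
    (cc (NN n f a) (((4 : ℕ) : OO A B) * w0) - 1 = ((m' * a : ℕ) : OO A B) * w0) ∧
    (∀ x : OO A B, IsCoprime x ((m : ℕ) : OO A B) →
      cc (NN n f a) (((2 : ℕ) : OO A B) * w0) * x - x ∉ idl m') ∧
    ∀ (L : PeriodPair) (om : ℂ), IsNE (⊤ : Ideal (OO A B)) L om →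
      (∀ b : OO A B, emb (cc (NN n f a) b) * (om / m') = om / m' + emb b * (a * om / 4)) ∧
      (∀ k : ℕ, emb ((k : OO A B) * w0) * (a * om / 4) =
        k * (emb (w0 : OO A B) * (a * om / 4))) ∧
      Tor (P ^ (6 - dR A)) L (emb (w0 : OO A B) * (a * om / 4)) ∧
      ¬ Tor (P ^ (5 - dR A)) L (emb (w0 : OO A B) * (a * om / 4)) ∧
      ∀ Y, 4 * Y ∈ L.lattice → ∃ b : OO A B, Y - emb b * (a * om / 4) ∈ L.lattice

/-- (SIG) integral elements of the ray class field are polynomials in `x(Q)`, `Q = om/m'`. PORT of `V_SIG.lean`.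

Uses Sv_COE, Sv_GRT, S4_TPU, S4_UNR, S4_DEG, `te_BAS` (`Pool.Agent.NSE.te_BAS`). PROOF. As there with `M₀ = RFE (2 f a)`, `M = RFE (m' a)`, `m' a = 2^(n+1) (f a)`: `[M : M₀] ≤ 4^n` (DEG with `j = n`), `v(π)^(2^(2n+2)) = v 2`. (BAS) with `N = 4^n` and any `p ∈ ℂ` with `p^4 = 2`: `(v(π)^(4^n))^4 = v 2 = (v p)^4`, so `v(π)^(4^n) = v p`; for `y ∈ M₀`, `y ≠ 0`: `v(y)^4 = v(2)^k`
(UNR), so `v y = (v p)^k`. `e, u² ∈ RFE (3) ≤ M₀` (`3 ∣ f`; `GoodQ.tor`). `s` is trivial on `M₀` (`AutCE.triv`: `c - 1 ∈ (2 f a)`). -/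
def S4_SIG : Prop :=
  ∀ (A B : ℤ) (P : Ideal (OO A B)) (V : ValuationSubring ℂ) (n f a m m' : ℕ),
    SetF A B P V n f a m m' →
    ∀ (L : PeriodPair) (om u e a1 a3 : ℂ), IsNE (⊤ : Ideal (OO A B)) L om →
    GoodQ V L u e a1 a3 →
    ∀ w ∈ RFE (idl (A := A) (B := B) (m' * a)), V.valuation w ≤ 1 →
    ∃ h : ℂ[X], IntP V h ∧ w = h.eval (xu L u e (om / m')) ∧
      ∀ (c : OO A B) (s : ℂ ≃+* ℂ), AutCE (idl (m * a)) c s → c - 1 ∈ idl (2 * (f * a)) →
        s w = h.eval (xu L u e (emb c * (om / m')))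

/-! ## The points -/

/-- (MUL) the isogenies `μ_i x : L_(i0) → L_i` have odd degree. PORT of `V_MUL.lean`. -/
def S4_MUL : Prop :=
  ∀ (A B : ℤ) (P : Ideal (OO A B)) (V : ValuationSubring ℂ), CtxF A B P V →
    ∀ (n : ℕ) (ι : Type) (R : RepsE A B n ι),
    n ≠ 0 → 2 ∣ n → ∀ (i : ι) (x : OO A B), x ∉ P →
      muXE R i * emb x ≠ 0 ∧ Isg (R.L R.i0) (R.L i) (muXE R i * emb x) ∧
      ∃ N : ℕ, ¬ 2 ∣ N ∧ ∀ z, muXE R i * emb x * z ∈ (R.L i).lattice →
        (N : ℂ) * z ∈ (R.L R.i0).lattice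

/-- (FIB) the fibres: `G_(i,x)` and `F_(i,x)` in terms of the point `ptE R m' i x`.

Uses Sv_GRT, Sv_TWO, Sv_DS2, Su_BAC, `tm_PT`. PROOF. `ptE R m i (x + m' b) = ptE R m i x + N(b_i) om_i emb b/2` (`m = 2 m'`), `2 ptE R m i x = ptE R m' i x`. The four points `z_l = N(b_i) om_i emb (bb l)/2` represent `{z : 2 z ∈ L_i}/L_i`: `2 z_l ∈ L_i` (`N(b_i) ∈ b_i`); `z = om_i emb y/2`, `y ∈ b_i`: `N(b_i)` is odd: `y ≡ N(b_i) y'` modulo `2 b_i`, `y' = y N(b_i)`
(`N(b_i)² ≡ 1` modulo 2), and `y' ≡ bb l` modulo 2 for exactly one `l < 4`, `N(b_i) (y' - bb l) ∈ 2 b_i`. Different `l`: if `N(b_i) (bb l - bb l') ∈ 2 b_i` then `2 ∣ bb l - bb l'` (`N(b_i)` odd, `b_i` contained in `O`). So with `R' = {z_1, z_2, z_3}` `IsRpM L_i L_i 2 R'`, and (DS2) for `z = ptE R m i x` (`a ptE R m' i x ∉ L_i`). `κ = (-4)^|H| ∏∏(℘ h - ℘ q)`: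
`℘ h - ℘ q = u'² (x h - x q)`, `v(x h - x q) = v(x q)` (`h ∉ InK` of odd order, `q ∈ InK`), `∏_(q ∈ R') v(x q) v(2)² = 1` (TWO (3)): `v κ = (v(2)² v(u'²)³ v(2)⁻²)^|H| = v(u'²)^(3|H|)`. The points `ptE R m i (x + m' b)` only matter modulo `L_i`: `m b' ∈ (m)`. -/
def S4_FIB : Prop :=
  ∀ (A B : ℤ) (P : Ideal (OO A B)) (V : ValuationSubring ℂ) (n f a m m' : ℕ),
    SetF A B P V n f a m m' →
    ∀ (ι : Type) (R : RepsE A B (2 * f) ι) (H : ι → Finset ℂ) (i : ι),
    IsHalf (R.L i) (a : ℂ) (H i) →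
    ∃ κ : ℂ, κ ≠ 0 ∧
      (∀ u' e' a1' a3' : ℂ, GoodQ V (R.L i) u' e' a1' a3' →
        V.valuation κ = V.valuation (u' ^ 2) ^ (3 * (H i).card)) ∧
      ∀ x : OO A B, IsCoprime x ((m : ℕ) : OO A B) →
        GFibE R H m m' i x = κ * ThetaH (R.L i) (H i) (ptE R m' i x) ∧
        FFibE R a m m' i x = 2 * dlX (R.L i) a (ptE R m' i x) ∧
        (∀ y : OO A B, y - x ∈ idl (A := A) (B := B) m' →
          GFibE R H m m' i y = GFibE R H m m' i x ∧ FFibE R a m m' i y = FFibE R a m m' i x)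

/-- (GPO) the fibres as rational functions over `V` of `x(Q)`, `Q = om_0/m'`. PORT of `V_GPO.lean`.

Uses Sv_COE, Sv_GRT, Sv_THT, Sv_NE1, S4_MUL, S4_FIB, S4_UNR. PROOF. As there; only the value of `κ = κ_FIB (u'²)^|H|` changes: `v κ = v(u'²)^(4|H|)`, `u'² = ℘ w2 - ℘ w1 ∈ RFE (3) ≤ RFE (6)` (`GoodQ.tor`, `tm_FAC`), `v(u'²)^4 = v(2)^k` (UNR with `f = 3`), so `v κ = v(2)^(k |H|)`, and `|H|` is even (`b_HRE`: `2 |H| + 1 = a²`, `a` odd, so `8 ∣ a² - 1`). -/
def S4_GPO : Prop :=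
  ∀ (A B : ℤ) (P : Ideal (OO A B)) (V : ValuationSubring ℂ) (n f a m m' : ℕ),
    SetF A B P V n f a m m' →
    ∀ (ι : Type) (R : RepsE A B (2 * f) ι) (u e a1 a3 : ℂ), GoodQ V (R.L R.i0) u e a1 a3 →
    ∀ (H : ι → Finset ℂ) (i : ι), IsHalf (R.L i) (a : ℂ) (H i) →
    ∀ x : OO A B, x ∉ P →
    ∃ (κ : ℂ) (k : ℤ) (Pq Qr : ℂ[X]), IntP V Pq ∧ IntP V Qr ∧
      V.valuation κ = (V.valuation (2 : ℂ) ^ k) ^ 2 ∧
      ∀ c : OO A B, IsCoprime (c * x) ((m : ℕ) : OO A B) →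
        V.valuation (xu (R.L R.i0) u e (emb c * (R.om R.i0 / m'))) ≤ 1 ∧
        V.valuation (et (R.L R.i0) u (emb c * (R.om R.i0 / m'))) ≤ 1 ∧
        V.valuation (Pq.eval (xu (R.L R.i0) u e (emb c * (R.om R.i0 / m')))) = 1 ∧
        V.valuation (Qr.eval (xu (R.L R.i0) u e (emb c * (R.om R.i0 / m')))) = 1 ∧
        GFibE R H m m' i (c * x) * Qr.eval (xu (R.L R.i0) u e (emb c * (R.om R.i0 / m'))) =
          κ * Pq.eval (xu (R.L R.i0) u e (emb c * (R.om R.i0 / m'))) ∧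
        muXE R i * emb x * FFibE R a m m' i (c * x) / u =
          2 * dlg Pq Qr (xu (R.L R.i0) u e (emb c * (R.om R.i0 / m'))) *
            et (R.L R.i0) u (emb c * (R.om R.i0 / m'))

/-! ## The two estimates -/

/-- (SQR) squares, for products over arbitrary finite families of fibres `(i, x)`. PORT of `V_SQR.lean`.

Uses Sd_LAG, Sd_PRD, Sv_COE, S4_DST, Sy_AUT, Sy_GTA, S4_CON, S4_SIG, Sv_NE1, S4_FIB, S4_GPO. PROOF. `E_SQR.lean` with `m'` for `m`, `NN n f a` for `2^n f a`, `GFibE`, `FFibE`. The automorphisms `s_b` with `AutCE (idl (m a)) c_b s_b`: `s_b(Θ(ptE R m i z)) = Θ(emb c_b ptE R m i z) = Θ(ptE R m i (c_b z))` (GTA), `c_b (x + m' bb l) = c_b x + m' (c_b bb l)` and `c_b bb l ≡ bb l` modulo 2, so modulo `m`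
`c_b (x + m' bb l) ≡ c_b x + m' bb l`: `s_b(G_(i,x)) = G_(i, c_b x)`. So `P(ξ_b) = κ h(ξ_b)² Q(ξ_b)` for all `b ∈ O`; `S` from (DST (1)): `∏ ≤ v(2)²`, `S'` from (DST (2)) with `Y = emb w0 (a om_0/4)`: `(∏_(S'))^8 ≤ v(2)^(3(d-1))`, `h` is constant on `S'` as `s y = y` by hypothesis. (LAG (4)): `v(P' Q - P Q')^8 ≤ max (v(2)^8 v(2)^(3(d-1))) (v(2)^16) = v(2)^(3 d + 5)`
(`3 d + 5 ≤ 16`), and the sum is `2 dlg P Q (ξ_0) et(Q)`: `v^8 ≤ v(2)^(3 d + 13)`. -/
def S4_SQR : Prop :=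
  ∀ (A B : ℤ) (P : Ideal (OO A B)) (V : ValuationSubring ℂ) (n f a m m' : ℕ),
    SetF A B P V n f a m m' →
    ∀ (ι : Type) (R : RepsE A B (2 * f) ι) (u e a1 a3 : ℂ), GoodQ V (R.L R.i0) u e a1 a3 →
    ∀ (H : ι → Finset ℂ), (∀ i, IsHalf (R.L i) (a : ℂ) (H i)) →
    ∀ (J : Type) [Fintype J] (X : J → Finset (ι × OO A B)) (g : J → ℤ),
      (∀ j, ∀ q ∈ X j, IsCoprime q.2 ((m : ℕ) : OO A B)) →
      (∃ y ∈ RFE (idl (A := A) (B := B) m'),
        (∀ (k : ℕ) (s : ℂ ≃+* ℂ),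
          AutCE (idl (m * a)) (cc (NN n f a) ((k : OO A B) * w0)) s → s y = y) ∧
        y ^ 2 = ∏ j, (∏ q ∈ X j, GFibE R H m m' q.1 q.2) ^ g j) →
      V.valuation ((∑ j, (g j : ℂ) * ∑ q ∈ X j, emb q.2 * muXE R q.1 *
        FFibE R a m m' q.1 q.2) / u) ^ 8 ≤ V.valuation (2 : ℂ) ^ (3 * dR A + 13)

/-- (ORB) the sum over one orbit of `1 + N w0`. PORT of `V_ORB.lean`.

Uses Sd_LAG, Sd_PRD, Sv_COE, S4_DST, S4_CON, Sv_NE1, S4_FIB, S4_GPO. PROOF. `E_ORB.lean` with `m'`, `GFibE`, `FFibE`: (1) (GPO) with `c = 1`: the factor 2. (2) `x_k = c_k x`, `c_j x_k ≡ c_(j+k) x` modulo `m'`, `c_4 ≡ 1` modulo `m'` (CON), `G` depends only on the class modulo `m'` (FIB): `∏_k G_(i, c_j x_k)` does not depend on `j < 4`. (DST (2)), (LAG (3)): `v(dlg P Q ξ_0)^8 ≤ v(2)^(3(d-1))`, times 2.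
`emb x_k - emb x = emb x N k emb w0`, `v ≤ v(4)`. -/
def S4_ORB : Prop :=
  ∀ (A B : ℤ) (P : Ideal (OO A B)) (V : ValuationSubring ℂ) (n f a m m' : ℕ),
    SetF A B P V n f a m m' →
    ∀ (ι : Type) (R : RepsE A B (2 * f) ι) (u e a1 a3 : ℂ), GoodQ V (R.L R.i0) u e a1 a3 →
    ∀ (H : ι → Finset ℂ) (i : ι), IsHalf (R.L i) (a : ℂ) (H i) →
    ∀ x : OO A B, IsCoprime x ((m : ℕ) : OO A B) →
      V.valuation (muXE R i * FFibE R a m m' i x / u) ≤ V.valuation (2 : ℂ) ∧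
      ∀ y : ℕ → OO A B,
        (∀ k < 4, y k - cc (NN n f a) ((k : OO A B) * w0) * x ∈ idl m') →
        V.valuation ((∑ k ∈ Finset.range 4, muXE R i * FFibE R a m m' i (y k)) / u) ^ 8 ≤
          V.valuation (2 : ℂ) ^ (3 * dR A + 5)

/-! ## The sets `XXE` -/

/-- (GLC) the automorphisms `1 + k N w0` and `1 + m' b` are trivial on `D`, and `D ≤ RFE (m')`. PORT of `V_GLC.lean` (the levels `4 f`, `m'` are even, so `AutCE.triv`, `TorXE.triv` apply).

Uses S4_CON, `tm_GAL`. PROOF. As `E_GLC.lean` (`m' b ∈ (4 f)`). Last part: `y ∈ D`, so `y ∈ RFE (m)`; it is fixed by all `σ ∈ Gal(RFE (m)/k)` which are trivial on `RFE (m')`: extend `σ` to `s ∈ Aut(ℂ)` (`TorXE.ext` for `RFE m` as a field over `ℚ`), `FixK`; `s` is trivial on `RFE (4 f) ≤ RFE (m')`; `TorXE.act` (`m`): `ActI s (idl m) a' L L' mu`, and for `idl m'`: `TorXE.triv`: `a' = sp c`, `c - 1 ∈ (m')`,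
so `c = 1 + m' b`, `s z = z^(nI a') = z` for `z^(2^(n+2)) = 1` (`TorXE.zeta`, CON (2)). `InCycE`: `s y = y`. Galois theory: `RFE m/k` is Galois, `y` is in the fixed field of `Gal(RFE m/RFE m')`, which is `RFE m'` (see `E_SIG`-type arguments in `Pool/Agent/NS/F_RP1.lean` or `IsGalois.fixedField_fixingSubgroup`). -/
def S4_GLC : Prop :=
  ∀ (A B : ℤ) (P : Ideal (OO A B)) (V : ValuationSubring ℂ) (n f a m m' : ℕ),
    SetF A B P V n f a m m' →
    ∀ D : IntermediateField ℚ ℂ, InCycE A B f (2 ^ (n + 2)) D →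
    (∀ (k : ℕ) (s : ℂ ≃+* ℂ),
      AutCE (idl (m * a)) (cc (NN n f a) ((k : OO A B) * w0)) s → ∀ y ∈ D, s y = y) ∧
    (∀ (b : OO A B) (s : ℂ ≃+* ℂ), AutCE (idl (m * a)) (cc m' b) s → ∀ y ∈ D, s y = y) ∧
    ((∀ y ∈ D, y ∈ RFE (idl (A := A) (B := B) m)) →
      (∃ L, NLE A B L) → ∀ y ∈ D, y ∈ RFE (idl (A := A) (B := B) m'))

/-- (XXS) stability of `XXE` under `-1` and under `c`. PORT of `V_XXS.lean`. -/
def S4_XXS : Prop :=
  ∀ (A B : ℤ) (P : Ideal (OO A B)) (V : ValuationSubring ℂ) (n f a m m' : ℕ),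
    SetF A B P V n f a m m' →
    ∀ (ι : Type) (R : RepsE A B (2 * f) ι) (D : IntermediateField ℚ ℂ) (h : kk A B ≤ D),
    letI := algC h
    ∀ (τ : D ≃ₐ[kk A B] D), ∀ q ∈ XXE R m h τ, (q.1, -q.2) ∈ XXE R m h τ ∧
      ∀ (c : OO A B) (s : ℂ ≃+* ℂ), IsCoprime c ((m : ℕ) : OO A B) → AutCE (idl (m * a)) c s →
        (∀ y ∈ D, s y = y) →
          (q.1, Ideal.Quotient.mk (idl (A := A) (B := B) m) c * q.2) ∈ XXE R m h τ

/-- (HEQ) sums and products of even functions over half systems. PORT of `V_HEQ.lean`. Uses S4_XXS. -/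
def S4_HEQ : Prop :=
  ∀ (A B : ℤ) (P : Ideal (OO A B)) (V : ValuationSubring ℂ) (n f a m m' : ℕ),
    SetF A B P V n f a m m' →
    ∀ (ι : Type) (R : RepsE A B (2 * f) ι) (D : IntermediateField ℚ ℂ) (h : kk A B ≤ D),
    letI := algC h
    ∀ (τ : D ≃ₐ[kk A B] D) (S : Finset (ι × (OO A B ⧸ idl (A := A) (B := B) m))),
      HalfSE R m h τ S → ∀ F : ι × (OO A B ⧸ idl (A := A) (B := B) m) → ℂ,
      (∀ q ∈ XXE R m h τ, F (q.1, -q.2) = F q) →
      (∀ S', HalfSE R m h τ S' → ∏ q ∈ S, F q = ∏ q ∈ S', F q) ∧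
      ∑ᶠ q ∈ XXE R m h τ, F q = 2 * ∑ q ∈ S, F q

/-- (HAL) half systems which are stable under `1 + N w0` and under the translations by `m' b`. PORT of `V_HAL.lean`.

Uses S4_CON, S4_XXS. PROOF. `S = {q ∈ XXE : j(r(q.2)) < j(-r(q.2))}` as in `E_HAL.lean`, `r` the class modulo `f` (`f` divides `c - 1` and `m'`); `(q.1, q.2 + m' b) ∈ XXE` by hypothesis. -/
def S4_HAL : Prop :=
  ∀ (A B : ℤ) (P : Ideal (OO A B)) (V : ValuationSubring ℂ) (n f a m m' : ℕ),
    SetF A B P V n f a m m' →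
    ∀ (ι : Type) [Finite ι] (R : RepsE A B (2 * f) ι) (D : IntermediateField ℚ ℂ)
      (h : kk A B ≤ D),
    letI := algC h
    ∀ (τ : D ≃ₐ[kk A B] D),
      (∀ q ∈ XXE R m h τ, (q.1, Ideal.Quotient.mk (idl (A := A) (B := B) m) (cc (NN n f a) w0) *
        q.2) ∈ XXE R m h τ) →
      (∀ q ∈ XXE R m h τ, ∀ b : OO A B, (q.1, q.2 +
        Ideal.Quotient.mk (idl (A := A) (B := B) m) ((m' : OO A B) * b)) ∈ XXE R m h τ) →
      ∃ S : Finset (ι × (OO A B ⧸ idl (A := A) (B := B) m)), HalfSE R m h τ S ∧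
        (∀ q ∈ S, (q.1, Ideal.Quotient.mk (idl (A := A) (B := B) m) (cc (NN n f a) w0) * q.2) ∈ S) ∧
        ∀ q ∈ S, ∀ b : OO A B, (q.1, q.2 +
          Ideal.Quotient.mk (idl (A := A) (B := B) m) ((m' : OO A B) * b)) ∈ S

/-- (COS) a stable set is a union of orbits of 16 elements.

Uses S4_CON. PROOF. `c_k = cc N (k w0)`. Strong induction on the number of elements of `S`: if `S` is not empty take `q ∈ S`, `x = out q.2` (prime to `m` by hypothesis). The 16 elements `q_(k,l) = (q.1, mk (c_k x + m' bb l))`, `k, l < 4`, are in `S`: `(q.1, mk c_1 ^ k * q.2) ∈ S` by induction, `c_1^k ≡ c_k` modulo `m` (CON (3), induction), and the translations. They are different: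
`c_k x + m' bb l ≡ c_k' x + m' bb l'` modulo `m`; modulo `m'`: `c_k x ≡ c_k' x`; if `k ≠ k'`, say `k < k'`: multiply by `c_(4-k)`: `c_4 x ≡ c_(4 + k' - k) x`, `x ≡ c_(k'-k) x` modulo `m'` (CON (3), (4)), and doubling (multiply by `c_(k'-k)`) `x ≡ c_(2(k'-k)) x` gives for odd `k' - k` again `x ≡ c_2 x` (use `c_4 ≡ 1`), and for `k' - k = 2` directly: contradiction to CON (5).
So `k = k'` and `m' (bb l - bb l') ∈ (m)`, `2 ∣ bb l - bb l'`, `l = l'`. Let `S' = S` without these 16 elements; it is stable: the map `q ↦ (q.1, mk c_1 * q.2)` is injective on `S` and maps the 16 elements onto themselves (`c_1 c_k ≡ c_(k+1)`, `c_1 m' bb l ≡ m' bb l` modulo `m`, `c_4 x ≡ x + m' (a w0 x)` is in the set with `k = 0`), and the translations are permutations with inverse `-b`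
(`b + bb l ≡ bb l'` modulo 2). `T` = the one for `S'`, together with `(q.1, x)`. -/
def S4_COS : Prop :=
  ∀ (A B : ℤ) (P : Ideal (OO A B)) (V : ValuationSubring ℂ) (n f a m m' : ℕ),
    SetF A B P V n f a m m' →
    ∀ (ι : Type) (S : Finset (ι × (OO A B ⧸ idl (A := A) (B := B) m))),
      (∀ q ∈ S, IsCoprime (Quotient.out q.2 : OO A B) ((m : ℕ) : OO A B)) →
      (∀ q ∈ S, (q.1, Ideal.Quotient.mk (idl (A := A) (B := B) m) (cc (NN n f a) w0) * q.2) ∈ S) →
      (∀ q ∈ S, ∀ b : OO A B, (q.1, q.2 +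
        Ideal.Quotient.mk (idl (A := A) (B := B) m) ((m' : OO A B) * b)) ∈ S) →
      ∃ T : Finset (ι × OO A B), (∀ t ∈ T, IsCoprime t.2 ((m : ℕ) : OO A B)) ∧
        (∀ F : ι × (OO A B ⧸ idl (A := A) (B := B) m) → ℂ, ∑ q ∈ S, F q =
          ∑ t ∈ T, ∑ k ∈ Finset.range 4, ∑ l ∈ Finset.range 4,
            F (t.1, Ideal.Quotient.mk _ (cc (NN n f a) ((k : OO A B) * w0) * t.2 +
              (m' : OO A B) * bb l))) ∧
        ∀ F : ι × (OO A B ⧸ idl (A := A) (B := B) m) → ℂ, ∏ q ∈ S, F q =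
          ∏ t ∈ T, ∏ k ∈ Finset.range 4, ∏ l ∈ Finset.range 4,
            F (t.1, Ideal.Quotient.mk _ (cc (NN n f a) ((k : OO A B) * w0) * t.2 +
              (m' : OO A B) * bb l))

/-- (MAIN) both estimates for families of sets of pairs which are stable under `c = 1 + N w0` and the translations by `m' b`. PORT of `V_MAIN.lean`.

Uses S4_CON, S4_SQR, S4_ORB, S4_COS, S4_FIB. PROOF. `c_k = cc N (k w0)`, `T_j` from (COS). `F q = om(out q.2) muXE dlX(..)/u`; for `q = (i, mk y)`: `out ≡ y` modulo `m`, so `om(out) = om y` (`OddQ.per`, `2 f ∣ m`) and `dlX(ptE R m i out) = dlX(ptE R m i y)` (periodic: `b_TDL`/`ee`, `tm_PT`; the same for `Θ`); for `y = c_k t.2 + m' bb l`: `om y = om t.2` (`2 f ∣ m'`, `c_k - 1 ∈ (4 f)`).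
So the sum over the orbit of `t` is `om(t.2) Σ_k muXE FFibE(c_k t.2)/u`. `v(om x)  ≤ 1`. (i) (ORB (2)). (ii) (SQR) for `X j = {(t.1, c_k t.2) : t ∈ T_j, k < 4}` (injective by the argument in (COS); or write the product over `T_j × range 4` and use (SQR) with `J' = J × Fin 4`, `X (j, k) = {(t.1, c_k t.2) : t ∈ T_j}`, where `t ↦ (t.1, c_k t.2)` is injective: `c_k ≠ 0`, `O` a domain):
`v(Σ g_j Σ_q emb(q.2) E q)^8 ≤ v(2)^(3d+13)`, `E q = muXE FFibE/u`, `v(E q) ≤ v 2` (ORB (1)). The difference to the claim is `Σ_j g_j Σ_(t ∈ T_j) D_t`, `D_t = (om(x) - emb(x)) Σ_k E(c_k x) - Σ_k (emb(c_k x) - emb x) E(c_k x)`, `x = t.2`: `v(om x - emb x)² ≤ v 2` (`OddQ.cong`; `x - 1 ∈ P`, `pw`), so the first term has `v^8 ≤ v(2)^4 v(2)^(3d+5)`;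
the second `v ≤ v(4) v(2)`, `v^8 ≤ v(2)^24`. -/
def S4_MAIN : Prop :=
  ∀ (A B : ℤ) (P : Ideal (OO A B)) (V : ValuationSubring ℂ) (n f a m m' : ℕ),
    SetF A B P V n f a m m' →
    ∀ (ι : Type) (R : RepsE A B (2 * f) ι) (u e a1 a3 : ℂ), GoodQ V (R.L R.i0) u e a1 a3 →
    ∀ (H : ι → Finset ℂ), (∀ i, IsHalf (R.L i) (a : ℂ) (H i)) →
    ∀ om : OO A B → ℂ, OddQ f V om →
    ∀ (J : Type) [Fintype J] (S : J → Finset (ι × (OO A B ⧸ idl (A := A) (B := B) m))),
      (∀ j, ∀ q ∈ S j, IsCoprime (Quotient.out q.2 : OO A B) ((m : ℕ) : OO A B)) →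
      (∀ j, ∀ q ∈ S j,
        (q.1, Ideal.Quotient.mk (idl (A := A) (B := B) m) (cc (NN n f a) w0) * q.2) ∈ S j) →
      (∀ j, ∀ q ∈ S j, ∀ b : OO A B, (q.1, q.2 +
        Ideal.Quotient.mk (idl (A := A) (B := B) m) ((m' : OO A B) * b)) ∈ S j) →
      (∀ j, V.valuation ((∑ q ∈ S j, om (Quotient.out q.2) * muXE R q.1 *
        dlX (R.L q.1) a (ptE R m q.1 (Quotient.out q.2))) / u) ^ 8 ≤
          V.valuation (2 : ℂ) ^ (3 * dR A + 5)) ∧
      ∀ g : J → ℤ,
        (∃ y ∈ RFE (idl (A := A) (B := B) m'),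
          (∀ (k : ℕ) (s : ℂ ≃+* ℂ),
            AutCE (idl (m * a)) (cc (NN n f a) ((k : OO A B) * w0)) s → s y = y) ∧
          y ^ 2 = ∏ j, (∏ q ∈ S j,
            ThetaH (R.L q.1) (H q.1) (ptE R m q.1 (Quotient.out q.2))) ^ g j) →
        V.valuation ((∑ j, (g j : ℂ) * ∑ q ∈ S j, om (Quotient.out q.2) * muXE R q.1 *
          dlX (R.L q.1) a (ptE R m q.1 (Quotient.out q.2))) / u) ^ 8 ≤
            V.valuation (2 : ℂ) ^ (3 * dR A + 9)

/-- (FIN) the final form. PORT of `V_FIN.lean`.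

Uses S4_CTX, Sy_AUT, S4_CON, S4_GLC, S4_XXS, S4_HEQ, S4_HAL, S4_MAIN. PROOF. `m = lvX 2 f n = f * 4 * 2^n = 2^(n+2) f`, `m' = 2^(n+1) f`, `a = aX 2 f = 1 + 8 f`, `f ≥ 3`, `3 ∣ f`, `SetF` (CTX). (GLC): the automorphisms `c_1` and `1 + m' b` are trivial on `D`, `D ≤ RFE (m')`. Stability of `XXE` under `c_1`: (AUT), (XXS). Under translations: `q ∈ XXE`, `b`: `x = out q.2` is prime to 2,
so there is `b'` with `b' x ≡ b` modulo 2 (`IsCoprime`), `c = cc m' b'`: `mk c * q.2 = q.2 + mk (m' b)` (`m = 2 m'`), `c` is prime to `m a`.. (`c ≡ 1` modulo `m'`; prime to `a`: replace `b'` by `b' a a'`, `a a' ≡ 1` modulo 2; then `c ≡ 1` modulo `m' a`). (HAL): stable half systems `S τ`. `C τ = ∏_(q ∈ S τ) Θ` (HEQ). `TT2E = 1/2 · 2 Σ_(q ∈ S τ) om muXE dlX` (HEQ). First claim: (MAIN (i)):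
`v^8 ≤ v(2)^(3d+5) ≤ v(2)^(4d+2)` (`3 d + 5 ≥ 4 d + 2` as `d ≤ 3`), take square roots (`pow_le_pow_left₀` for squares: `(v^4)² ≤ (v(2)^(2d+1))²`). Second claim: as in `E_FIN.lean`, (MAIN (ii)): `v^8 ≤ v(2)^(3d+9) ≤ v(2)^(4d+6)`. -/
def S4_FIN : Prop := T4_RFIN → T4_EFIN

end

end Pool.Agent.ME2F


end

section

/-!
# MUX-2R, block ER2: COS, a stable set is a union of orbits of 16 elements
-/

set_option autoImplicit false

namespace Pool.Agent.ME2F

open _root_.MU3 _root_.Pool.Agent.MU3A _root_.Pool.Agent.MU3B _root_.Pool.Agent.MUX _root_.Pool.Agent.MUXU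
open _root_.Pool.Agent.RI _root_.Pool.Agent.NS
open _root_.Pool.Agent.ME hiding ActE
open _root_.Pool.Agent.MEE _root_.Pool.Agent.ME2
open _root_.Pool.Agent.MUXE (RingE)
open _root_.Pool.Agent.N2 (GoodQ OddQ dR et yt WT PTq)
open _root_.Pool.Agent.N2E (dlg cc Sd_LAG Sd_PRD)
open _root_.Pool.Agent.N2V (IsoU NN w0 bb Sv_COE Sv_GRT Sv_UNT Sv_RAT Sv_THT Sv_NE1 Sv_PVI Sv_TWO Sv_DS2)
open _root_.Pool.Agent.ME2E (AutCE Sy_AUT Sy_GTA)
open _root_.Pool.Agent.NSE (IntP)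
open _root_.Pool.Agent.MUX2 (GRG)
open _root_.Pool.Agent.MUXV (InK tX)

noncomputable section

namespace COS

/-- a finite set which is a union of classes -/
theorem classes {α : Type} [DecidableEq α] (O : α → Finset α) (S : Finset α)
    (h1 : ∀ q ∈ S, q ∈ O q) (h2 : ∀ q ∈ S, O q ⊆ S) (h3 : ∀ q ∈ S, ∀ r ∈ O q, O r = O q) :
    ∃ T : Finset α, T ⊆ S ∧ (∀ t ∈ T, ∀ t' ∈ T, t ≠ t' → Disjoint (O t) (O t')) ∧
      T.biUnion O = S := by
  classical
  let rep : Finset α → Option α := fun U => if h : U.Nonempty then some h.choose else none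
  have hrep : ∀ q ∈ S, ∃ t, rep (O q) = some t ∧ t ∈ O q := by
    intro q hq
    have hne : (O q).Nonempty := ⟨q, h1 q hq⟩
    exact ⟨hne.choose, dif_pos hne, hne.choose_spec⟩
  let T : Finset α := S.filter fun t => rep (O t) = some t
  refine ⟨T, Finset.filter_subset _ _, ?_, ?_⟩
  · intro t ht t' ht' hne
    obtain ⟨hS, hr⟩ := Finset.mem_filter.1 ht
    obtain ⟨hS', hr'⟩ := Finset.mem_filter.1 ht'
    rw [Finset.disjoint_left]
    intro y hy hy'
    apply hne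
    have e : O t = O t' := (h3 t hS y hy).symm.trans (h3 t' hS' y hy')
    rw [e, hr'] at hr
    exact (Option.some_injective _ hr).symm
  · ext q
    rw [Finset.mem_biUnion]
    constructor
    · rintro ⟨t, ht, hq⟩
      exact h2 t (Finset.mem_filter.1 ht).1 hq
    · intro hq
      obtain ⟨t, ht1, ht2⟩ := hrep q hq
      have e : O t = O q := h3 q hq t ht2
      refine ⟨t, Finset.mem_filter.2 ⟨h2 q hq ht2, ?_⟩, ?_⟩
      · rw [e]
        exact ht1
      · rw [e]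
        exact h1 q hq

variable {A B : ℤ}

theorem red (b : OO A B) : ∃ l < 4, ∃ y : OO A B, b = bb l + (y + y) := by
  have e1 : b.re % 2 = 0 ∨ b.re % 2 = 1 := by omega
  have e2 : b.im % 2 = 0 ∨ b.im % 2 = 1 := by omega
  rcases e1 with e1 | e1 <;> rcases e2 with e2 | e2
  · refine ⟨0, by norm_num, ⟨b.re / 2, b.im / 2⟩, ?_⟩
    apply QuadraticAlgebra.ext <;> simp [bb] <;> omega
  · refine ⟨2, by norm_num, ⟨b.re / 2, b.im / 2⟩, ?_⟩
    apply QuadraticAlgebra.ext <;> simp [bb] <;> omega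
  · refine ⟨1, by norm_num, ⟨b.re / 2, b.im / 2⟩, ?_⟩
    apply QuadraticAlgebra.ext <;> simp [bb] <;> omega
  · refine ⟨3, by norm_num, ⟨b.re / 2, b.im / 2⟩, ?_⟩
    apply QuadraticAlgebra.ext <;> simp [bb] <;> omega

theorem bb_inj {m' : ℕ} (hm : m' ≠ 0) {l l' : ℕ} (hl : l < 4) (hl' : l' < 4) {y : OO A B}
    (h : (m' : OO A B) * bb l - (m' : OO A B) * bb l' = ((2 * m' : ℕ) : OO A B) * y) : l = l' := by
  have hm' : (m' : ℤ) ≠ 0 := by exact_mod_cast hm
  have h1 := congrArg QuadraticAlgebra.re h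
  have h2 := congrArg QuadraticAlgebra.im h
  simp only [QuadraticAlgebra.re_sub, QuadraticAlgebra.im_sub, QuadraticAlgebra.re_mul,
    QuadraticAlgebra.im_mul, QuadraticAlgebra.re_natCast, QuadraticAlgebra.im_natCast, zero_mul,
    mul_zero, add_zero, bb] at h1 h2
  push_cast at h1 h2
  have h3 : ((l : ℤ) % 2) - ((l' : ℤ) % 2) = 2 * y.re := by
    apply mul_left_cancel₀ hm'
    linear_combination h1
  have h4 : ((l : ℤ) / 2) - ((l' : ℤ) / 2) = 2 * y.im := by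
    apply mul_left_cancel₀ hm'
    linear_combination h2
  omega

end COS

theorem t4_COS (hCON : S4_CON) : S4_COS := by
  classical
  intro A B P V n f a m m' hS ι S hcop hst1 hst2
  obtain ⟨-, -, c3, c4, c5, -⟩ := hCON A B P V n f a m m' hS
  set N : ℕ := NN n f a with hN
  let π := Ideal.Quotient.mk (idl (A := A) (B := B) m)
  let C : ℕ → (OO A B ⧸ idl (A := A) (B := B) m) := fun k => π (cc N ((k : OO A B) * w0))
  let T : OO A B → (OO A B ⧸ idl (A := A) (B := B) m) := fun b => π ((m' : OO A B) * b)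
  have hm2 : m = 2 * m' := by
    rw [hS.hm, hS.hm', pow_succ 2 (n + 1)]
    ring
  have hm0 : m' ≠ 0 := by
    rw [hS.hm']
    have := hS.f3
    positivity
  have mem_m : ∀ x : OO A B, x ∈ idl (A := A) (B := B) m ↔ ∃ y, x = ((m : ℕ) : OO A B) * y :=
    fun x => Ideal.mem_span_singleton
  have hπ : ∀ x y : OO A B, π x = π y ↔ ∃ z, x - y = ((m : ℕ) : OO A B) * z := by
    intro x y
    rw [← mem_m]
    exact Ideal.Quotient.eq
  -- multiplicativity
  have hle : ∀ x : OO A B, x ∈ idl (A := A) (B := B) (m * a) → x ∈ idl (A := A) (B := B) m := by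
    intro x hx
    obtain ⟨y, rfl⟩ := Ideal.mem_span_singleton.1 hx
    refine Ideal.mem_span_singleton.2 ⟨(a : OO A B) * y, ?_⟩
    push_cast
    ring
  have hC : ∀ k l, C k * C l = C (k + l) := by
    intro k l
    show π _ * π _ = π _
    rw [← map_mul]
    exact Ideal.Quotient.eq.2 (hle _ (c3 k l))
  have hC0 : C 0 = 1 := by
    show π (cc N (((0 : ℕ) : OO A B) * w0)) = 1
    rw [Nat.cast_zero, zero_mul]
    unfold cc
    rw [mul_zero, add_zero, map_one]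
  have hC4 : C 4 = 1 + T ((a : OO A B) * w0) := by
    show π _ = 1 + π _
    rw [← map_one π, ← map_add]
    congr 1
    have := c4
    push_cast at this ⊢
    linear_combination this
  have hT : ∀ b b', T (b + b') = T b + T b' := by
    intro b b'
    show π _ = π _ + π _
    rw [← map_add]
    congr 1
    ring
  have hT2 : ∀ y, T (y + y) = 0 := by
    intro y
    show π _ = 0
    rw [← map_zero π, hπ]
    refine ⟨y, ?_⟩
    rw [hm2]
    push_cast
    ring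
  have hNev : ∃ N' : ℕ, N = 2 * N' := by
    refine ⟨2 ^ (n - 2) * f * a, ?_⟩
    rw [hN]
    unfold NN
    have h5 := hS.n5
    have : n - 1 = (n - 2) + 1 := by omega
    rw [this, pow_succ]
    ring
  have hCT : ∀ k b, C k * T b = T b := by
    intro k b
    obtain ⟨N', hN'⟩ := hNev
    show π _ * π _ = π _
    rw [← map_mul, hπ]
    refine ⟨(N' : OO A B) * ((k : OO A B) * w0) * b, ?_⟩
    unfold cc
    rw [hN', hm2]
    push_cast
    ring
  have hTm : ∀ b y, T b * π y = T (b * y) := by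
    intro b y
    show π _ * π _ = π _
    rw [← map_mul]
    congr 1
    ring
  -- normal form
  have nfT : ∀ b, ∃ l < 4, T b = T (bb l) := by
    intro b
    obtain ⟨l, hl, y, hy⟩ := COS.red b
    refine ⟨l, hl, ?_⟩
    rw [hy, hT, hT2, add_zero]
  have nf : ∀ K : ℕ, ∀ (b : OO A B) (x : OO A B), ∃ k < 4, ∃ l < 4,
      C K * π x + T b = C k * π x + T (bb l) := by
    intro K
    induction K using Nat.strong_induction_on with
    | _ K ih =>
      intro b x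
      rcases Nat.lt_or_ge K 4 with h | h
      · obtain ⟨l, hl, e⟩ := nfT b
        exact ⟨K, h, l, hl, by rw [e]⟩
      · obtain ⟨J, rfl⟩ : ∃ J, K = 4 + J := ⟨K - 4, by omega⟩
        obtain ⟨k, hk, l, hl, e⟩ := ih J (by omega) ((a : OO A B) * w0 * x + b) x
        refine ⟨k, hk, l, hl, ?_⟩
        rw [← e, ← hC, hC4, hT, ← hTm ((a : OO A B) * w0) x]
        have : (1 + T ((a : OO A B) * w0)) * C J * π x =
            C J * π x + C J * T ((a : OO A B) * w0) * π x := by ring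
        rw [this, hCT]
        ring
  -- the orbits
  let φ : ι × (OO A B ⧸ idl (A := A) (B := B) m) → ℕ × ℕ →
      ι × (OO A B ⧸ idl (A := A) (B := B) m) := fun q j => (q.1, C j.1 * q.2 + T (bb j.2))
  let R : Finset (ℕ × ℕ) := Finset.range 4 ×ˢ Finset.range 4
  let O : ι × (OO A B ⧸ idl (A := A) (B := B) m) →
      Finset (ι × (OO A B ⧸ idl (A := A) (B := B) m)) := fun q => R.image (φ q)
  have hRm : ∀ j, j ∈ R ↔ j.1 < 4 ∧ j.2 < 4 := by
    intro j
    simp only [R, Finset.mem_product, Finset.mem_range]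
  have hCS : ∀ k, ∀ q ∈ S, ((q.1, C k * q.2) : ι × (OO A B ⧸ idl (A := A) (B := B) m)) ∈ S := by
    intro k
    induction k with
    | zero =>
      intro q hq
      rw [hC0, one_mul]
      exact hq
    | succ k ih =>
      intro q hq
      have h1 := hst1 _ (ih q hq)
      have e : C (k + 1) * q.2 = π (cc N w0) * (C k * q.2) := by
        rw [add_comm k 1, ← hC, mul_assoc]
        congr 1
        show π _ = π _
        rw [Nat.cast_one, one_mul]
      rw [e]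
      exact h1
  have hφS : ∀ q ∈ S, ∀ j, φ q j ∈ S := fun q hq j => hst2 _ (hCS j.1 q hq) (bb j.2)
  have hbb0 : T (bb 0) = 0 := by
    show π _ = 0
    have : (bb 0 : OO A B) = 0 := by
      unfold bb
      apply QuadraticAlgebra.ext <;> simp
    rw [this, mul_zero, map_zero]
  have hφ0 : ∀ q, φ q (0, 0) = q := by
    intro q
    show (q.1, C 0 * q.2 + T (bb 0)) = q
    rw [hC0, one_mul, hbb0, add_zero]
  -- injectivity
  have key : ∀ x : OO A B, IsCoprime x ((m : ℕ) : OO A B) → ∀ k k' : ℕ, k < k' → k' < 4 →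
      ∀ b b' : OO A B, C k * π x + T b ≠ C k' * π x + T b' := by
    intro x hx k k' hkk hk4 b b' h
    -- everything modulo `m'`
    let π' := Ideal.Quotient.mk (idl (A := A) (B := B) m')
    let D : ℕ → (OO A B ⧸ idl (A := A) (B := B) m') := fun k => π' (cc N ((k : OO A B) * w0))
    have hle' : ∀ x : OO A B, x ∈ idl (A := A) (B := B) m → x ∈ idl (A := A) (B := B) m' := by
      intro x hx
      obtain ⟨y, rfl⟩ := Ideal.mem_span_singleton.1 hx
      refine Ideal.mem_span_singleton.2 ⟨2 * y, ?_⟩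
      rw [hm2]
      push_cast
      ring
    have hD : ∀ k l, D k * D l = D (k + l) := by
      intro k l
      show π' _ * π' _ = π' _
      rw [← map_mul]
      exact Ideal.Quotient.eq.2 (hle' _ (hle _ (c3 k l)))
    have hD4 : D 4 = 1 := by
      show π' _ = 1
      rw [← map_one π']
      refine Ideal.Quotient.eq.2 ?_
      rw [c4]
      refine Ideal.mem_span_singleton.2 ⟨(a : OO A B) * w0, ?_⟩
      push_cast
      ring
    have e1 : D k * π' x = D k' * π' x := by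
      have h1 : π (cc N ((k : OO A B) * w0) * x + (m' : OO A B) * b) =
          π (cc N ((k' : OO A B) * w0) * x + (m' : OO A B) * b') := by
        rw [map_add, map_add, map_mul, map_mul]
        exact h
      obtain ⟨z, hz⟩ := (hπ _ _).1 h1
      show π' _ * π' _ = π' _ * π' _
      rw [← map_mul, ← map_mul]
      refine Ideal.Quotient.eq.2 (Ideal.mem_span_singleton.2 ⟨2 * z - b + b', ?_⟩)
      rw [hm2] at hz
      push_cast at hz
      linear_combination hz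
    have e2 : π' x = D (k' - k) * π' x := by
      have h1 := congrArg (fun t => D (4 - k) * t) e1
      simp only [← mul_assoc, hD] at h1
      have h2 : 4 - k + k = 4 := by omega
      have h3 : 4 - k + k' = 4 + (k' - k) := by omega
      rw [h2, h3, ← hD, hD4, one_mul, one_mul] at h1
      exact h1
    have e3 : π' x = D 2 * π' x := by
      have hj : k' - k = 1 ∨ k' - k = 2 ∨ k' - k = 3 := by omega
      rcases hj with hj | hj | hj
      · rw [hj] at e2
        calc π' x = D 1 * π' x := e2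
          _ = D 1 * (D 1 * π' x) := congrArg (fun t => D 1 * t) e2
          _ = D 2 * π' x := by rw [← mul_assoc, hD]
      · rw [hj] at e2
        exact e2
      · rw [hj] at e2
        calc π' x = D 3 * π' x := e2
          _ = D 3 * (D 3 * π' x) := congrArg (fun t => D 3 * t) e2
          _ = D 2 * π' x := by
            rw [← mul_assoc, hD, show 3 + 3 = 4 + 2 from rfl, ← hD, hD4, one_mul]
    refine c5 x hx ?_
    have e4 : π' (cc N (((2 : ℕ) : OO A B) * w0) * x) = π' x := by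
      rw [map_mul]
      exact e3.symm
    exact Ideal.Quotient.eq.1 e4
  have hπout : ∀ y : OO A B ⧸ idl (A := A) (B := B) m, π (Quotient.out y) = y := fun y =>
    Ideal.Quotient.mk_out y
  have hinj : ∀ q ∈ S, Set.InjOn (φ q) (R : Set (ℕ × ℕ)) := by
    intro q hq j hj j' hj' h
    obtain ⟨h1, h2⟩ := (hRm j).1 hj
    obtain ⟨h1', h2'⟩ := (hRm j').1 hj'
    have h3 : C j.1 * q.2 + T (bb j.2) = C j'.1 * q.2 + T (bb j'.2) := congrArg Prod.snd h
    have hx := hcop q hq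
    rw [← hπout q.2] at h3
    rcases lt_trichotomy j.1 j'.1 with h4 | h4 | h4
    · exact absurd h3 (key _ hx _ _ h4 h1' _ _)
    · rw [h4] at h3
      have h5 := add_left_cancel h3
      obtain ⟨z, hz⟩ := (hπ _ _).1 h5
      rw [hm2] at hz
      exact Prod.ext h4 (COS.bb_inj hm0 h2 h2' hz)
    · exact absurd h3.symm (key _ hx _ _ h4 h1 _ _)
  have hcard : ∀ q ∈ S, (O q).card = R.card := fun q hq => Finset.card_image_of_injOn (hinj q hq)
  have hOS : ∀ q ∈ S, O q ⊆ S := by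
    intro q hq r hr
    obtain ⟨j, -, rfl⟩ := Finset.mem_image.1 hr
    exact hφS q hq j
  have hO3 : ∀ q ∈ S, ∀ r ∈ O q, O r = O q := by
    intro q hq r hr
    have hrS := hOS q hq hr
    refine Finset.eq_of_subset_of_card_le ?_ (by rw [hcard q hq, hcard r hrS])
    intro s hs
    obtain ⟨j, -, rfl⟩ := Finset.mem_image.1 hr
    obtain ⟨i, -, rfl⟩ := Finset.mem_image.1 hs
    obtain ⟨k, hk, l, hl, e⟩ := nf (i.1 + j.1) (bb j.2 + bb i.2) (Quotient.out q.2)
    rw [hπout] at e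
    refine Finset.mem_image.2 ⟨(k, l), (hRm _).2 ⟨hk, hl⟩, ?_⟩
    show (q.1, C k * q.2 + T (bb l)) = (q.1, C i.1 * (C j.1 * q.2 + T (bb j.2)) + T (bb i.2))
    rw [← e, ← hC, hT, mul_add, hCT]
    congr 1
    ring
  obtain ⟨U, hUS, hdis, hun⟩ := COS.classes O S
    (fun q hq => Finset.mem_image.2 ⟨(0, 0), (hRm _).2 ⟨by norm_num, by norm_num⟩, hφ0 q⟩)
    hOS hO3
  let ψ : ι × (OO A B ⧸ idl (A := A) (B := B) m) → ι × OO A B := fun q => (q.1, Quotient.out q.2)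
  have hψ : Set.InjOn ψ (U : Set _) := by
    intro q _ q' _ h
    have h0 : ψ q = ψ q' := h
    have h1 : (ψ q).1 = (ψ q').1 := congrArg Prod.fst h0
    have h2 : (ψ q).2 = (ψ q').2 := congrArg Prod.snd h0
    have h3 : (Quotient.out q.2 : OO A B) = Quotient.out q'.2 := h2
    refine Prod.ext h1 ?_
    rw [← hπout q.2, ← hπout q'.2, h3]
  have hval : ∀ (q : ι × (OO A B ⧸ idl (A := A) (B := B) m)) (k l : ℕ),
      (((ψ q).1, Ideal.Quotient.mk (idl (A := A) (B := B) m)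
        (cc N ((k : OO A B) * w0) * (ψ q).2 + (m' : OO A B) * bb l)) :
        ι × (OO A B ⧸ idl (A := A) (B := B) m)) = φ q (k, l) := by
    intro q k l
    refine Prod.ext rfl ?_
    show π _ = C k * q.2 + T (bb l)
    rw [map_add, map_mul]
    show C k * π (Quotient.out q.2) + T (bb l) = _
    rw [hπout]
  refine ⟨U.image ψ, ?_, ?_, ?_⟩
  · intro t ht
    obtain ⟨q, hq, rfl⟩ := Finset.mem_image.1 ht
    exact hcop q (hUS hq)
  · intro F
    rw [Finset.sum_image hψ, ← hun, Finset.sum_biUnion (by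
      intro t ht t' ht' hne
      exact hdis t ht t' ht' hne)]
    refine Finset.sum_congr rfl fun q hq => ?_
    rw [Finset.sum_image (hinj q (hUS hq)), Finset.sum_product]
    refine Finset.sum_congr rfl fun k _ => Finset.sum_congr rfl fun l _ => ?_
    rw [hval]
  · intro F
    rw [Finset.prod_image hψ, ← hun, Finset.prod_biUnion (by
      intro t ht t' ht' hne
      exact hdis t ht t' ht' hne)]
    refine Finset.prod_congr rfl fun q hq => ?_
    rw [Finset.prod_image (hinj q (hUS hq)), Finset.prod_product]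
    refine Finset.prod_congr rfl fun k _ => Finset.prod_congr rfl fun l _ => ?_
    rw [hval]

end

end Pool.Agent.ME2F


end

section

/-!
# MUX-2N, block E2N: module HAL, half systems which are stable under `1 + N del`
-/

set_option autoImplicit false

open Polynomial

namespace Pool.Agent.ME2E

open _root_.MU3 _root_.Pool.Agent.MU3A _root_.Pool.Agent.MU3B _root_.Pool.Agent.MUX _root_.Pool.Agent.MUXU
open _root_.Pool.Agent.RI _root_.Pool.Agent.NS
open _root_.Pool.Agent.ME hiding ActE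
open _root_.Pool.Agent.MEE _root_.Pool.Agent.ME2
open _root_.Pool.Agent.MUXE (RingE)
open _root_.Pool.Agent.N2 (GoodT et yt WT IsTei2 OddT PTq)
open _root_.Pool.Agent.N2E (dlg del cc IsoT Sd_LAG Sd_PRD Sd_COE Sd_GRT Sd_TPT Sd_UNT Sd_RAT Sd_THT Sd_DST Sd_NE1 Sd_PRT)
open _root_.Pool.Agent.NSE (IntP)
open _root_.Pool.Agent.MUX2 (GRG)
open _root_.Pool.Agent.MUXV (InK tX)

noncomputable section

namespace HAL

variable {A B : ℤ}

lemma not_unit {f : ℕ} (hf : 3 ≤ f) : ¬ IsUnit ((f : ℕ) : OO A B) := by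
  intro hu
  obtain ⟨y, hy⟩ := hu.exists_right_inv
  have h1 := congrArg QuadraticAlgebra.re hy
  rw [QuadraticAlgebra.re_mul, QuadraticAlgebra.re_natCast, QuadraticAlgebra.im_natCast,
    QuadraticAlgebra.re_one] at h1
  have h2 : (f : ℤ) ∣ 1 := ⟨y.re, by linear_combination -h1⟩
  have h3 := Int.le_of_dvd one_pos h2
  omega

lemma _root_.Pool.Agent.ME2E.HAL.two_mul_notMem {f m : ℕ} (hf : 3 ≤ f) (h2 : ¬ 2 ∣ f) (hfm : f ∣ m) {x : OO A B}
    (hx : IsCoprime x ((m : ℕ) : OO A B)) : 2 * x ∉ idl (A := A) (B := B) f := by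
  intro h0
  have h1 : ((f : ℕ) : OO A B) ∣ 2 * x := Ideal.mem_span_singleton.1 h0
  have hc : IsCoprime ((f : ℕ) : OO A B) 2 := by
    have h3 : Nat.Coprime f 2 := ((Nat.Prime.coprime_iff_not_dvd Nat.prime_two).2 h2).symm
    have h4 : IsCoprime (f : ℤ) ((2 : ℕ) : ℤ) := Nat.isCoprime_iff_coprime.2 h3
    have h5 := h4.map (Int.castRingHom (OO A B))
    simpa using h5
  have h6 : ((f : ℕ) : OO A B) ∣ x := hc.dvd_of_dvd_mul_left h1
  have h7 : ((f : ℕ) : OO A B) ∣ ((m : ℕ) : OO A B) := by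
    obtain ⟨k, rfl⟩ := hfm
    exact ⟨(k : OO A B), by push_cast; ring⟩
  exact not_unit hf (hx.isUnit_of_dvd' h6 h7)

end HAL

open _root_.Pool.Agent.ME2E.HAL in
/-- HAL. -/
theorem ty_HAL (h1 : Sy_CON) (h2 : Sy_XXS) : Sy_HAL := by
  classical
  intro A B V n f a m hS ι _ R D h
  letI := algC h
  intro τ hst
  have hcq := hS.ctx.cq
  have hf3 := hS.f3
  have hm : m ≠ 0 := by
    rw [hS.hm]
    exact mul_ne_zero (pow_ne_zero _ two_ne_zero) (by omega)
  have hfm : f ∣ m := by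
    rw [hS.hm]
    exact dvd_mul_left _ _
  have hbot : ∀ k : ℕ, k ≠ 0 → idl (A := A) (B := B) k ≠ ⊥ := by
    intro k hk h0
    rw [Ideal.span_singleton_eq_bot] at h0
    exact natCast_ne_zero' hcq hk h0
  haveI : Finite (OO A B ⧸ idl (A := A) (B := B) m) := finite_quot hcq (hbot m hm)
  haveI : Finite (OO A B ⧸ idl (A := A) (B := B) f) := finite_quot hcq (hbot f (by omega))
  have hle : idl (A := A) (B := B) m ≤ idl (A := A) (B := B) f := by
    rw [Ideal.span_singleton_le_span_singleton]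
    obtain ⟨k, hk⟩ := hfm
    exact ⟨(k : OO A B), by rw [hk]; push_cast; ring⟩
  set r : (OO A B ⧸ idl (A := A) (B := B) m) →+* (OO A B ⧸ idl (A := A) (B := B) f) :=
    Ideal.Quotient.factor hle with hr
  have hrm : ∀ x : OO A B, r (Ideal.Quotient.mk _ x) = Ideal.Quotient.mk _ x := fun x =>
    Ideal.Quotient.factor_mk hle x
  obtain ⟨j, hj⟩ := exists_injective_nat (OO A B ⧸ idl (A := A) (B := B) f)
  set c : OO A B := cc (2 ^ n * f * a) del with hc
  have hc1 : r (Ideal.Quotient.mk _ c) = 1 := by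
    rw [hrm, ← map_one (Ideal.Quotient.mk (idl (A := A) (B := B) f)), Ideal.Quotient.eq]
    have h3 := ((h1 A B V n f a m hS).1 del).2.2.2.2.1
    rw [← hc] at h3
    have h4 : idl (A := A) (B := B) (4 * f) ≤ idl (A := A) (B := B) f := by
      rw [Ideal.span_singleton_le_span_singleton]
      exact ⟨4, by push_cast; ring⟩
    exact h4 h3
  have hrc : ∀ X, r (Ideal.Quotient.mk _ c * X) = r X := by
    intro X
    rw [map_mul, hc1, one_mul]
  have hne : ∀ q ∈ XXE R m h τ, r q.2 ≠ -r q.2 := by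
    intro q hq h0
    have h3 : q.2 = Ideal.Quotient.mk _ (Quotient.out q.2 : OO A B) := (Quotient.out_eq q.2).symm
    have h4 : r q.2 + r q.2 = 0 := by
      nth_rewrite 1 [h0]
      exact neg_add_cancel _
    rw [h3, hrm, ← map_add, Ideal.Quotient.eq_zero_iff_mem, ← two_mul] at h4
    exact _root_.Pool.Agent.ME2E.HAL.two_mul_notMem hf3 hS.fo hfm hq.1 h4
  have hfin : {q | q ∈ XXE R m h τ ∧ j (r q.2) < j (-r q.2)}.Finite := Set.toFinite _
  have hmem : ∀ q, q ∈ hfin.toFinset ↔ q ∈ XXE R m h τ ∧ j (r q.2) < j (-r q.2) := by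
    intro q
    rw [Set.Finite.mem_toFinset]
    rfl
  refine ⟨hfin.toFinset, ⟨?_, ?_, ?_⟩, ?_⟩
  · intro q hq
    exact ((hmem q).1 hq).1
  · intro q hq
    have h3 : j (r q.2) ≠ j (-r q.2) := fun h4 => hne q hq (hj h4)
    rcases lt_or_gt_of_ne h3 with h4 | h4
    · exact Or.inl ((hmem q).2 ⟨hq, h4⟩)
    · right
      refine (hmem _).2 ⟨(h2 A B V n f a m hS ι R D h τ q hq).1, ?_⟩
      change j (r (-q.2)) < j (-r (-q.2))
      rw [map_neg, neg_neg]
      exact h4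
  · intro q hq h3
    have h4 := ((hmem q).1 hq).2
    have h5 : j (r (-q.2)) < j (-r (-q.2)) := ((hmem _).1 h3).2
    rw [map_neg, neg_neg] at h5
    omega
  · intro q hq
    obtain ⟨h3, h4⟩ := (hmem q).1 hq
    refine (hmem _).2 ⟨hst q h3, ?_⟩
    change j (r (Ideal.Quotient.mk _ c * q.2)) < j (-r (Ideal.Quotient.mk _ c * q.2))
    rw [hrc]
    exact h4

end

end Pool.Agent.ME2E


end

section

/-!
# MUX-2N, block E2N, module HEQ (helper4): sums and products of even functions over half systems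
-/

set_option autoImplicit false

namespace Pool.Agent.ME2E

open _root_.MU3 _root_.Pool.Agent.MU3A _root_.Pool.Agent.MU3B _root_.Pool.Agent.MUX _root_.Pool.Agent.MUXU
open _root_.Pool.Agent.RI _root_.Pool.Agent.NS
open _root_.Pool.Agent.ME hiding ActE
open _root_.Pool.Agent.MEE _root_.Pool.Agent.ME2
open _root_.Pool.Agent.MUXE (RingE)
open _root_.Pool.Agent.N2 (GoodT et yt WT IsTei2 OddT PTq)
open _root_.Pool.Agent.N2E (dlg del cc IsoT Sd_LAG Sd_PRD Sd_COE Sd_GRT Sd_TPT Sd_UNT Sd_RAT Sd_THT Sd_DST Sd_NE1 Sd_PRT)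

noncomputable section

namespace HEQ

variable {α : Type} [DecidableEq α] {X : Set α} {S S' : Finset α} {ν : α → α}

lemma prod_eq (hνν : ∀ q, ν (ν q) = q) (sub : ∀ q ∈ S, q ∈ X) (cov : ∀ q ∈ X, q ∈ S ∨ ν q ∈ S)
    (dis : ∀ q ∈ S, ν q ∉ S) (sub' : ∀ q ∈ S', q ∈ X) (cov' : ∀ q ∈ X, q ∈ S' ∨ ν q ∈ S')
    (dis' : ∀ q ∈ S', ν q ∉ S') (F : α → ℂ) (hF : ∀ q ∈ X, F (ν q) = F q) :
    ∏ q ∈ S, F q = ∏ q ∈ S', F q := by
  refine Finset.prod_bij' (fun q _ => if q ∈ S' then q else ν q)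
    (fun q _ => if q ∈ S then q else ν q) ?_ ?_ ?_ ?_ ?_
  · intro q hq
    by_cases h : q ∈ S'
    · simp only [if_pos h]; exact h
    · simp only [if_neg h]; exact (cov' q (sub q hq)).resolve_left h
  · intro q hq
    by_cases h : q ∈ S
    · simp only [if_pos h]; exact h
    · simp only [if_neg h]; exact (cov q (sub' q hq)).resolve_left h
  · intro q hq
    by_cases h : q ∈ S'
    · simp only [if_pos h, if_pos hq]
    · simp only [if_neg h, if_neg (dis q hq), hνν]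
  · intro q hq
    by_cases h : q ∈ S
    · simp only [if_pos h, if_pos hq]
    · simp only [if_neg h, if_neg (dis' q hq), hνν]
  · intro q hq
    by_cases h : q ∈ S'
    · simp only [if_pos h]
    · simp only [if_neg h]; exact (hF q (sub q hq)).symm

lemma sum_eq (hνν : ∀ q, ν (ν q) = q) (hν : ∀ q ∈ X, ν q ∈ X) (sub : ∀ q ∈ S, q ∈ X)
    (cov : ∀ q ∈ X, q ∈ S ∨ ν q ∈ S) (dis : ∀ q ∈ S, ν q ∉ S) (F : α → ℂ)
    (hF : ∀ q ∈ X, F (ν q) = F q) :
    ∑ᶠ q ∈ X, F q = 2 * ∑ q ∈ S, F q := by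
  have h1 : X = ((S ∪ S.image ν : Finset α) : Set α) := by
    ext q
    rw [Finset.mem_coe, Finset.mem_union, Finset.mem_image]
    constructor
    · intro hq
      rcases cov q hq with h | h
      · exact Or.inl h
      · exact Or.inr ⟨ν q, h, hνν q⟩
    · rintro (h | ⟨p, hp, rfl⟩)
      · exact sub q h
      · exact hν p (sub p hp)
  have h2 : Disjoint S (S.image ν) := by
    rw [Finset.disjoint_left]
    intro q hq h
    obtain ⟨p, hp, rfl⟩ := Finset.mem_image.1 h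
    exact dis p hp hq
  have h3 : ∑ᶠ q ∈ X, F q = ∑ q ∈ S ∪ S.image ν, F q := by
    rw [h1, finsum_mem_coe_finset]
  rw [h3, Finset.sum_union h2, Finset.sum_image (fun x _ y _ hxy => by
    have := congrArg ν hxy
    rwa [hνν, hνν] at this), two_mul]
  congr 1
  exact Finset.sum_congr rfl fun q hq => hF q (sub q hq)

end HEQ

theorem ty_HEQ (h1 : Sy_XXS) : Sy_HEQ := by
  classical
  intro A B V n f a m hS ι R D h
  letI := algC h
  intro τ S hHS F hF
  have hνν : ∀ q : ι × (OO A B ⧸ idl (A := A) (B := B) m),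
      (fun q : ι × (OO A B ⧸ idl (A := A) (B := B) m) => (q.1, -q.2))
        ((fun q : ι × (OO A B ⧸ idl (A := A) (B := B) m) => (q.1, -q.2)) q) = q := by
    intro q
    simp
  refine ⟨fun S' hS' => ?_, ?_⟩
  · exact HEQ.prod_eq (ν := fun q => (q.1, -q.2)) hνν hHS.sub hHS.cov hHS.dis hS'.sub hS'.cov
      hS'.dis F hF
  · exact HEQ.sum_eq (ν := fun q => (q.1, -q.2)) hνν
      (fun q hq => (h1 A B V n f a m hS ι R D h τ q hq).1) hHS.sub hHS.cov hHS.dis F hF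

end

end Pool.Agent.ME2E


end

section

/-!
# MUX-2R, block ER2, module HEQ (helper31): sums and products of even functions over half systems
-/

set_option autoImplicit false

namespace Pool.Agent.ME2F

open _root_.MU3 _root_.Pool.Agent.MU3A _root_.Pool.Agent.MU3B _root_.Pool.Agent.MUX _root_.Pool.Agent.MUXU
open _root_.Pool.Agent.RI _root_.Pool.Agent.NS
open _root_.Pool.Agent.ME hiding ActE
open _root_.Pool.Agent.MEE _root_.Pool.Agent.ME2
open _root_.Pool.Agent.MUXE (RingE)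
open _root_.Pool.Agent.N2 (GoodQ OddQ dR et yt WT PTq)
open _root_.Pool.Agent.N2E (dlg cc Sd_LAG Sd_PRD)
open _root_.Pool.Agent.N2V (IsoU NN w0 bb Sv_COE Sv_GRT Sv_UNT Sv_RAT Sv_THT Sv_NE1 Sv_PVI Sv_TWO Sv_DS2)
open _root_.Pool.Agent.ME2E (AutCE Sy_AUT Sy_GTA)

noncomputable section

theorem t4_HEQ (h1 : S4_XXS) : S4_HEQ := by
  classical
  intro A B P V n f a m m' hS ι R D h
  letI := algC h
  intro τ S hHS F hF
  have hνν : ∀ q : ι × (OO A B ⧸ idl (A := A) (B := B) m),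
      (fun q : ι × (OO A B ⧸ idl (A := A) (B := B) m) => (q.1, -q.2))
        ((fun q : ι × (OO A B ⧸ idl (A := A) (B := B) m) => (q.1, -q.2)) q) = q := by
    intro q
    simp
  refine ⟨fun S' hS' => ?_, ?_⟩
  · exact ME2E.HEQ.prod_eq (ν := fun q => (q.1, -q.2)) hνν hHS.sub hHS.cov hHS.dis hS'.sub hS'.cov
      hS'.dis F hF
  · exact ME2E.HEQ.sum_eq (ν := fun q => (q.1, -q.2)) hνν
      (fun q hq => (h1 A B P V n f a m m' hS ι R D h τ q hq).1) hHS.sub hHS.cov hHS.dis F hF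

end

end Pool.Agent.ME2F


end

section

/-!
# MUX-2R, block ER2: module GLC, the automorphisms `1 + k N w0` and `1 + m' b` are trivial on `D`,
and `D ≤ RFE (m')` (helper64)
-/

set_option autoImplicit false

open Polynomial

namespace Pool.Agent.ME2F

open _root_.MU3 _root_.Pool.Agent.MU3A _root_.Pool.Agent.MU3B _root_.Pool.Agent.MUX _root_.Pool.Agent.MUXU
open _root_.Pool.Agent.RI _root_.Pool.Agent.NS
open _root_.Pool.Agent.ME hiding ActE
open _root_.Pool.Agent.MEE _root_.Pool.Agent.ME2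
open _root_.Pool.Agent.MUXE (RingE)
open _root_.Pool.Agent.N2 (GoodQ OddQ dR et yt WT PTq)
open _root_.Pool.Agent.N2E (dlg cc Sd_LAG Sd_PRD)
open _root_.Pool.Agent.N2V (IsoU NN w0 bb Sv_COE Sv_GRT Sv_UNT Sv_RAT Sv_THT Sv_NE1 Sv_PVI Sv_TWO Sv_DS2)
open _root_.Pool.Agent.ME2E (AutCE Sy_AUT Sy_GTA)
open _root_.Pool.Agent.NSE (IntP)
open _root_.Pool.Agent.MUX2 (GRG)
open _root_.Pool.Agent.MUXV (InK tX)

noncomputable section

namespace GLC

lemma idl_le {A B : ℤ} {m n : ℕ} (h : n ∣ m) :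
    idl (A := A) (B := B) m ≤ idl (A := A) (B := B) n := by
  obtain ⟨c, rfl⟩ := h
  rw [Ideal.span_singleton_le_span_singleton]
  exact ⟨(c : OO A B), by push_cast; ring⟩

lemma lv4 (f : ℕ) : lvX 2 f 0 = 4 * f := by
  unfold lvX q0
  norm_num
  ring

end GLC

/-- GLC. -/
theorem t4_GLC (h1 : S4_CON) : S4_GLC := by
  intro A B P V n f a m m' hE D hD
  obtain ⟨c1, ⟨c2, c2'⟩, -⟩ := h1 A B P V n f a m m' hE
  have hm := hE.hm
  have hm' := hE.hm'
  have hp : 2 ^ (n + 2) ≠ 0 := pow_ne_zero _ two_ne_zero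
  have hone : ∀ (j : ℕ) (z : ℂ), z ^ 2 ^ (n + 2) = 1 → z ^ (1 + 2 ^ (n + 2) * j) = z := by
    intro j z hz
    rw [pow_add, pow_one, pow_mul, hz, one_pow, mul_one]
  have d4 : 4 * f ∣ m' := ⟨2 ^ (n - 1), by
    obtain ⟨n', rfl⟩ : ∃ n', n = n' + 1 := ⟨n - 1, by have := hE.n5; omega⟩
    rw [hm']
    simp only [Nat.add_sub_cancel]
    ring⟩
  have dm : m' ∣ m := ⟨2, by rw [hm, hm']; ring⟩
  have dma : 4 * f ∣ m * a := (d4.trans dm).trans (dvd_mul_right _ _)
  have dz : 2 ^ (n + 2) ∣ m * a := ⟨f * a, by rw [hm]; ring⟩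
  have hb4 : ∀ b : OO A B, cc m' b - 1 ∈ idl (A := A) (B := B) (4 * f) := by
    intro b
    have e1 : cc m' b - 1 = (m' : OO A B) * b := by
      unfold cc
      ring
    rw [e1]
    exact Ideal.mul_mem_right _ _ (GLC.idl_le d4 (Ideal.mem_span_singleton_self _))
  refine ⟨?_, ?_, ?_⟩
  · intro k s hs y hy
    obtain ⟨-, -, -, -, c4, -⟩ := c1 ((k : OO A B) * w0)
    obtain ⟨j, hj⟩ := c2 k
    refine hD s hs.fix ?_ ?_ y hy
    · refine hs.triv (idl (lvX 2 f 0)) (GLC.idl_le ?_) (GLC.idl_le ?_) ?_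
      · rw [GLC.lv4]; exact dma
      · rw [GLC.lv4]; exact ⟨2 * f, by ring⟩
      · rw [GLC.lv4]; exact c4
    · intro z hz
      rw [hs.zeta (2 ^ (n + 2)) hp (GLC.idl_le dz) z hz, hj]
      exact hone j z hz
  · intro b s hs y hy
    obtain ⟨j, hj⟩ := c2' b
    refine hD s hs.fix ?_ ?_ y hy
    · refine hs.triv (idl (lvX 2 f 0)) (GLC.idl_le ?_) (GLC.idl_le ?_) ?_
      · rw [GLC.lv4]; exact dma
      · rw [GLC.lv4]; exact ⟨2 * f, by ring⟩
      · rw [GLC.lv4]; exact hb4 b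
    · intro z hz
      rw [hs.zeta (2 ^ (n + 2)) hp (GLC.idl_le dz) z hz, hj]
      exact hone j z hz
  · intro hDm hNL y hy
    have T := hE.tor
    have hR := hE.ctx.ring
    obtain ⟨φ, hφ⟩ := hR.hom
    have hn0 : ∀ n : ℕ, n ≠ 0 → idl (A := A) (B := B) n ≠ ⊥ := by
      intro n hn h0
      have h4 : ((n : ℕ) : OO A B) ∈ idl (A := A) (B := B) n := Ideal.mem_span_singleton_self _
      rw [h0, Ideal.mem_bot] at h4
      have h5 : φ ((n : ℕ) : OO A B) = ((n : ℕ) : ℂ) := map_natCast φ _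
      rw [h4, map_zero] at h5
      exact hn (by exact_mod_cast h5.symm)
    have hf0 : f ≠ 0 := by have := hE.f3; omega
    have hm0 : m ≠ 0 := by rw [hm]; exact mul_ne_zero hp hf0
    have hm'0 : m' ≠ 0 := by rw [hm']; exact mul_ne_zero (pow_ne_zero _ two_ne_zero) hf0
    have h2m' : 2 ∣ m' := Dvd.dvd.trans ⟨2 * f, by ring⟩ d4
    have i0 := hn0 m hm0
    have i0' := hn0 m' hm'0
    have hmm : idl (A := A) (B := B) m ≤ idl (A := A) (B := B) m' := GLC.idl_le dm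
    have hF : RFE (idl (A := A) (B := B) m') ≤ RFE (idl (A := A) (B := B) m) :=
      T.mono _ _ hmm
    haveI := T.fin _ i0
    haveI := T.gal _ i0
    set E : IntermediateField (kk A B) (RFE (idl (A := A) (B := B) m)) :=
      IntermediateField.restrict hF with hEd
    have key : (⟨y, hDm y hy⟩ : RFE (idl (A := A) (B := B) m)) ∈ E := by
      rw [← IsGalois.fixedField_fixingSubgroup E, IntermediateField.mem_fixedField_iff]
      intro σ hσ
      obtain ⟨s, hs, hs1⟩ := Pool.Agent.MEE.GalX.extd T i0 (_root_.Pool.Agent.MU3A.em σ)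
      have htr : ∀ x ∈ RFE (idl (A := A) (B := B) m'), s x = x := by
        intro x hx
        have hx' := hF hx
        have h4 : (⟨x, hx'⟩ : RFE (idl (A := A) (B := B) m)) ∈ E :=
          (IntermediateField.mem_restrict hF _).2 hx
        have h5 := (IntermediateField.mem_fixingSubgroup_iff E _).1 hσ ⟨x, hx'⟩ h4
        rw [← hs1 ⟨x, hx'⟩]
        exact congrArg Subtype.val h5
      obtain ⟨L, b₀, om, hL⟩ := hNL
      obtain ⟨c, ha, ha'⟩ := T.act _ i0 s hs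
      obtain ⟨b', L', om', mu, hL', hA⟩ := ha' b₀ L om hL
      have hA' : Pool.Agent.ME.ActE s (idl (A := A) (B := B) m') c L L' mu := by
        refine ⟨hA.kapE, ?_, hA.isq, fun z hz => hA.act z fun x hx => hz x (hmm hx)⟩
        rw [Ideal.isCoprime_iff_sup_eq] at ha ⊢
        rw [eq_top_iff, ← ha]
        exact sup_le_sup_left hmm c
      obtain ⟨x, hx1, hx⟩ := (T.triv _ c s b₀ L L' om mu i0' (Or.inl (GLC.idl_le h2m')) hs hL hA' hL'.nrm).1 htr
      obtain ⟨b, hb⟩ := Ideal.mem_span_singleton'.1 hx1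
      have hxc : x = cc m' b := by
        unfold cc
        linear_combination -hb
      obtain ⟨j, hj⟩ := c2' b
      have hsy : s y = y := by
        refine hD s hs ?_ ?_ y hy
        · intro x hx
          refine htr x (T.mono _ _ (GLC.idl_le ?_) hx)
          rw [GLC.lv4]
          exact d4
        · intro z hz
          have h6 := (T.zeta (2 ^ (n + 2)) _ c s b₀ L L' om mu i0 hs hp
            (GLC.idl_le (dvd_trans ⟨f, by rw [hm]⟩ dvd_rfl)) hL hA z hz).2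
          rw [h6, hx, hxc, hj]
          exact hone j z hz
      apply Subtype.ext
      show _root_.Pool.Agent.MU3A.em σ ⟨y, hDm y hy⟩ = y
      rw [hs1]
      exact hsy
    exact (IntermediateField.mem_restrict hF _).1 key

end

end Pool.Agent.ME2F


end

section

/-!
# MUX-2R, block ER2, module SQR: the improved criterion for squares (helper1, after helper42)
-/

set_option autoImplicit false

open Polynomial

namespace Pool.Agent.ME2F

open _root_.MU3 _root_.Pool.Agent.MU3A _root_.Pool.Agent.MU3B _root_.Pool.Agent.MUX _root_.Pool.Agent.MUXU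
open _root_.Pool.Agent.RI _root_.Pool.Agent.NS
open _root_.Pool.Agent.ME hiding ActE
open _root_.Pool.Agent.MEE _root_.Pool.Agent.ME2
open _root_.Pool.Agent.MUXE (RingE)
open _root_.Pool.Agent.N2 (GoodQ OddQ dR et yt WT PTq)
open _root_.Pool.Agent.N2E (dlg cc Sd_LAG Sd_PRD)
open _root_.Pool.Agent.N2V (IsoU NN w0 bb Sv_COE Sv_GRT Sv_UNT Sv_RAT Sv_THT Sv_NE1 Sv_PVI Sv_TWO Sv_DS2)
open _root_.Pool.Agent.ME2E (AutCE Sy_AUT Sy_GTA)
open _root_.Pool.Agent.NSE (IntP)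
open _root_.Pool.Agent.MUX2 (GRG)
open _root_.Pool.Agent.MUXV (InK tX)

noncomputable section

namespace SQR

lemma _root_.Pool.Agent.ME2F.SQR.v2_ne (V : ValuationSubring ℂ) : V.valuation (2 : ℂ) ≠ 0 :=
  (Valuation.ne_zero_iff _).2 (by norm_num)

/-- squares of powers of `v(2)` -/
def _root_.Pool.Agent.ME2F.SQR.Sb (V : ValuationSubring ℂ) (x : ℂ) : Prop :=
  ∃ k : ℤ, V.valuation x = (V.valuation (2 : ℂ) ^ k) ^ 2

lemma Sb.one (V : ValuationSubring ℂ) : _root_.Pool.Agent.ME2F.SQR.Sb V 1 := ⟨0, by simp⟩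

lemma Sb.mul {V : ValuationSubring ℂ} {x y : ℂ} (hx : _root_.Pool.Agent.ME2F.SQR.Sb V x) (hy : _root_.Pool.Agent.ME2F.SQR.Sb V y) : _root_.Pool.Agent.ME2F.SQR.Sb V (x * y) := by
  obtain ⟨k, hk⟩ := hx
  obtain ⟨l, hl⟩ := hy
  exact ⟨k + l, by rw [map_mul, hk, hl, zpow_add₀ (_root_.Pool.Agent.ME2F.SQR.v2_ne V), mul_pow]⟩

lemma Sb.zpow {V : ValuationSubring ℂ} {x : ℂ} (hx : _root_.Pool.Agent.ME2F.SQR.Sb V x) (g : ℤ) : _root_.Pool.Agent.ME2F.SQR.Sb V (x ^ g) := by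
  obtain ⟨k, hk⟩ := hx
  exact ⟨k * g, by rw [map_zpow₀, hk, pow_two, mul_zpow, ← pow_two, zpow_mul]⟩

lemma _root_.Pool.Agent.ME2F.SQR.prodZ {J κ : Type} [Fintype J] (X : J → Finset κ) (g : J → ℤ) (F : κ → ℂ) :
    ∏ j, (∏ q ∈ X j, F q) ^ g j = ∏ p ∈ Finset.univ.sigma X, F p.2 ^ g p.1 := by
  rw [Finset.prod_sigma]
  exact Finset.prod_congr rfl fun j _ => (Finset.prod_zpow _ _ _).symm

lemma two_mem {A B : ℤ} {P : Ideal (OO A B)} {V : ValuationSubring ℂ} (hC : CtxF A B P V) :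
    (2 : OO A B) ∈ P := by
  obtain ⟨φ, hφ⟩ := hC.ring.hom
  have h := (hC.pw 1 (2 : OO A B)).2 (by
    rw [← hφ, map_ofNat, pow_one, pow_two]
    exact mul_le_of_le_one_left' hC.v2.le)
  rwa [pow_one] at h

lemma _root_.Pool.Agent.ME2F.SQR.not_mem {A B : ℤ} {P : Ideal (OO A B)} {V : ValuationSubring ℂ} (hC : CtxF A B P V)
    {n f : ℕ} {x : OO A B}
    (hx : IsCoprime x ((2 ^ (n + 2) * f : ℕ) : OO A B)) : x ∉ P := by
  intro h
  apply hC.max.ne_top
  rw [Ideal.eq_top_iff_one]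
  obtain ⟨b1, b2, hb⟩ := hx
  rw [← hb]
  refine add_mem (Ideal.mul_mem_left _ _ h) (Ideal.mul_mem_left _ _ ?_)
  have h1 : ((2 ^ (n + 2) * f : ℕ) : OO A B) = ((2 ^ (n + 1) * f : ℕ) : OO A B) * 2 := by
    push_cast
    ring
  rw [h1]
  exact Ideal.mul_mem_left _ _ (two_mem hC)

/-- `x + m' w` is prime to `m = 2 m'`, `m'` even -/
lemma _root_.Pool.Agent.ME2F.SQR.cop_add {A B : ℤ} {m m' k : ℕ} (h1 : m = 2 * m') (h2 : m' = 2 * k) {x : OO A B}
    (hx : IsCoprime x ((m : ℕ) : OO A B)) (w : OO A B) :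
    IsCoprime (x + (m' : OO A B) * w) ((m : ℕ) : OO A B) := by
  have h3 : IsCoprime x ((m' : ℕ) : OO A B) := by
    refine hx.of_isCoprime_of_dvd_right ⟨2, ?_⟩
    rw [h1]
    push_cast
    ring
  have h4 : IsCoprime (x + (m' : OO A B) * w) ((m' : ℕ) : OO A B) := by
    obtain ⟨b1, b2, hb⟩ := h3
    exact ⟨b1, b2 - b1 * w, by linear_combination hb⟩
  refine (h4.pow_right (n := 2)).of_isCoprime_of_dvd_right ⟨(k : OO A B), ?_⟩
  rw [h1, h2]
  push_cast
  ring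

/-- `Θ` is periodic -/
lemma _root_.Pool.Agent.ME2F.SQR.th_per (L : PeriodPair) (a : ℂ) {H : Finset ℂ} (hH : IsHalf L a H) {z w : ℂ}
    (h : z - w ∈ L.lattice) : ThetaH L H z = ThetaH L H w := by
  have := (b_TIN L a H H hH hH).2.2 w (z - w) h
  rwa [add_sub_cancel] at this

/-- the base point has exact order `m` -/
lemma _root_.Pool.Agent.ME2F.SQR.base {A B : ℤ} (hring : RingE A B) {L : PeriodPair} {om : ℂ}
    (hL : IsNE (⊤ : Ideal (OO A B)) L om) {m : ℕ} (hm : m ≠ 0) :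
    (m : ℂ) * (om / m) ∈ L.lattice ∧ ∀ c : ℕ, (c : ℂ) * (om / m) ∈ L.lattice → m ∣ c := by
  obtain ⟨φ, hφ⟩ := hring.hom
  have hm' : (m : ℂ) ≠ 0 := by exact_mod_cast hm
  refine ⟨?_, fun c hc => ?_⟩
  · rw [mul_div_cancel₀ _ hm']
    exact (hL.mem _).2 ⟨1, trivial, by rw [← hφ, map_one, mul_one]⟩
  · obtain ⟨x, -, hx⟩ := (hL.mem _).1 hc
    have hom := hL.om_ne
    have h1 : emb ((c : ℕ) : OO A B) = emb (((m : ℕ) : OO A B) * x) := by
      rw [← hφ, ← hφ, map_mul, map_natCast, map_natCast, hφ]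
      apply mul_left_cancel₀ hom
      rw [mul_div_assoc', div_eq_iff hm'] at hx
      linear_combination hx
    have h2 : ((c : ℕ) : OO A B) = ((m : ℕ) : OO A B) * x := by
      rw [← sub_eq_zero]
      apply hring.inj0
      rw [← hφ, map_sub, hφ, hφ, h1, sub_self]
    have h3 := congrArg QuadraticAlgebra.re h2
    simp at h3
    exact Int.natCast_dvd_natCast.1 ⟨_, h3⟩

end SQR

open _root_.Pool.Agent.ME2F.SQR in
theorem t4_SQR (h1 : Sd_LAG) (h2 : Sd_PRD) (h3 : Sv_COE) (h4 : S4_DST) (h5 : Sy_AUT) (h6 : Sy_GTA)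
    (h7 : S4_CON) (h8 : S4_SIG) (h9 : Sv_NE1) (h10 : S4_GPO) : S4_SQR := by
  intro A B P' V n f a m m' hS ι R u e a1 a3 hgood H hH J _ X g hX ⟨y, hy, hinv, hy2⟩
  have hC := hS.ctx
  have hring := hC.ring
  obtain ⟨φ, hφ⟩ := hring.hom
  have emul : ∀ x y : OO A B, emb (x * y) = emb x * emb y := fun x y => by
    rw [← hφ, map_mul, hφ, hφ]
  have eone : emb (1 : OO A B) = 1 := by rw [← hφ, map_one]
  have enat : ∀ n : ℕ, emb ((n : ℕ) : OO A B) = n := fun n => by rw [← hφ, map_natCast]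
  have hf3 := hS.f3
  have ha3 := hS.a3
  have hm0 : m ≠ 0 := by
    rw [hS.hm]
    exact mul_ne_zero (by positivity) (by omega)
  have hm2' : m = 2 * m' := by
    rw [hS.hm, hS.hm']
    ring
  have hm4 : m' = 2 * (2 ^ n * f) := by
    rw [hS.hm']
    ring
  have hm0' : m' ≠ 0 := by omega
  have hNL0 : IsNE (⊤ : Ideal (OO A B)) (R.L R.i0) (R.om R.i0) := by
    have := R.nl R.i0
    rwa [R.b0] at this
  obtain ⟨c1, -, -, -, -, c7⟩ := h7 A B P' V n f a m m' hS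
  obtain ⟨c71, c72, c73, c74, c75⟩ := c7 (R.L R.i0) (R.om R.i0) hNL0
  obtain ⟨ξ, hξ⟩ : ∃ ξ : OO A B → ℂ, ∀ b, ξ b = xu (R.L R.i0) u e
      (emb (cc (NN n f a) b) * (R.om R.i0 / m')) := ⟨_, fun _ => rfl⟩
  have hc0 : cc (NN n f a) (0 : OO A B) = 1 := by rw [cc, mul_zero, add_zero]
  have hξ0 : ξ 0 = xu (R.L R.i0) u e (R.om R.i0 / m') := by rw [hξ, hc0, eone, one_mul]
  -- the rational functions
  have hG : ∀ q : ι × OO A B, ∃ (κ : ℂ) (k : ℤ) (P Q : ℂ[X]), q.2 ∉ P' →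
      IntP V P ∧ IntP V Q ∧ V.valuation κ = (V.valuation (2 : ℂ) ^ k) ^ 2 ∧
      ∀ c : OO A B, IsCoprime (c * q.2) ((m : ℕ) : OO A B) →
        V.valuation (xu (R.L R.i0) u e (emb c * (R.om R.i0 / m'))) ≤ 1 ∧
        V.valuation (et (R.L R.i0) u (emb c * (R.om R.i0 / m'))) ≤ 1 ∧
        V.valuation (P.eval (xu (R.L R.i0) u e (emb c * (R.om R.i0 / m')))) = 1 ∧
        V.valuation (Q.eval (xu (R.L R.i0) u e (emb c * (R.om R.i0 / m')))) = 1 ∧
        GFibE R H m m' q.1 (c * q.2) *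
            Q.eval (xu (R.L R.i0) u e (emb c * (R.om R.i0 / m'))) =
          κ * P.eval (xu (R.L R.i0) u e (emb c * (R.om R.i0 / m'))) ∧
        muXE R q.1 * emb q.2 * FFibE R a m m' q.1 (c * q.2) / u =
          2 * dlg P Q (xu (R.L R.i0) u e (emb c * (R.om R.i0 / m'))) *
            et (R.L R.i0) u (emb c * (R.om R.i0 / m')) := by
    intro q
    by_cases hq : q.2 ∈ P'
    · exact ⟨0, 0, 0, 0, fun h => absurd hq h⟩
    · obtain ⟨κ, k, P, Q, h⟩ := h10 A B P' V n f a m m' hS ι R u e a1 a3 hgood H q.1 (hH q.1)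
        q.2 hq
      exact ⟨κ, k, P, Q, fun _ => h⟩
  choose κ k P Q hG using hG
  have hq2 : ∀ j, ∀ q ∈ X j, q.2 ∉ P' := fun j q hq =>
    _root_.Pool.Agent.ME2F.SQR.not_mem hC (n := n) (f := f) (by
      have := hX j q hq
      rwa [hS.hm] at this)
  have hGb := fun j q (hq : q ∈ X j) (b : OO A B) =>
    (hG q (hq2 j q hq)).2.2.2 (cc (NN n f a) b) (((c1 b).2.1).mul_left (hX j q hq))
  obtain ⟨κ1, k1, P1, Q1, -, -, -, hG1⟩ := h10 A B P' V n f a m m' hS ι R u e a1 a3 hgood H R.i0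
    (hH R.i0) 1 (_root_.Pool.Agent.ME2F.SQR.not_mem hC (n := n) (f := f) isCoprime_one_left)
  have vξ : ∀ b, V.valuation (ξ b) ≤ 1 := fun b => by
    rw [hξ]
    exact (hG1 _ (by rw [mul_one]; exact (c1 b).2.1)).1
  have vet : V.valuation (et (R.L R.i0) u (R.om R.i0 / m')) ≤ 1 := by
    have := (hG1 1 (by rw [mul_one]; exact isCoprime_one_left)).2.1
    rwa [eone, one_mul] at this
  -- the product
  obtain ⟨P1', Q1', hP', hQ', hPQ⟩ := h2 V (Σ _ : J, ι × OO A B) (Finset.univ.sigma X)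
    (fun p => P p.2) (fun p => Q p.2) (fun p => g p.1) (Set.range ξ) (by
      intro p hp
      have hp' := (Finset.mem_sigma.1 hp).2
      refine ⟨(hG _ (hq2 _ _ hp')).1, (hG _ (hq2 _ _ hp')).2.1, ?_⟩
      rintro _ ⟨b, rfl⟩
      have := hGb _ _ hp' b
      rw [hξ]
      exact ⟨this.2.2.1, this.2.2.2.1⟩)
  have hPb := fun b => hPQ (ξ b) ⟨b, rfl⟩
  obtain ⟨κ0, hκ0⟩ : ∃ κ0 : ℂ, κ0 = ∏ p ∈ Finset.univ.sigma X, κ p.2 ^ g p.1 := ⟨_, rfl⟩
  have hW : ∀ b : OO A B, (∏ j, (∏ q ∈ X j, GFibE R H m m' q.1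
      (cc (NN n f a) b * q.2)) ^ g j) * Q1'.eval (ξ b) =
      κ0 * P1'.eval (ξ b) := by
    intro b
    obtain ⟨p1, p2, p3, -⟩ := hPb b
    have hne : ∏ p ∈ Finset.univ.sigma X, (Q p.2).eval (ξ b) ^ g p.1 ≠ 0 := by
      refine Finset.prod_ne_zero_iff.2 fun p hp => zpow_ne_zero _ fun h0 => ?_
      have := (hGb _ _ (Finset.mem_sigma.1 hp).2 b).2.2.2.1
      rw [← hξ, h0, map_zero] at this
      exact zero_ne_one this
    have h11 : (∏ p ∈ Finset.univ.sigma X, GFibE R H m m' p.2.1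
        (cc (NN n f a) b * p.2.2) ^ g p.1) *
        ∏ p ∈ Finset.univ.sigma X, (Q p.2).eval (ξ b) ^ g p.1 =
        κ0 * ∏ p ∈ Finset.univ.sigma X, (P p.2).eval (ξ b) ^ g p.1 := by
      rw [hκ0, ← Finset.prod_mul_distrib, ← Finset.prod_mul_distrib]
      refine Finset.prod_congr rfl fun p hp => ?_
      have := (hGb _ _ (Finset.mem_sigma.1 hp).2 b).2.2.2.2.1
      rw [← hξ] at this
      rw [← mul_zpow, ← mul_zpow, this]
    rw [_root_.Pool.Agent.ME2F.SQR.prodZ X g (fun q => GFibE R H m m' q.1 (cc (NN n f a) b * q.2))]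
    apply mul_right_cancel₀ hne
    linear_combination (Q1'.eval (ξ b)) * h11 - κ0 * p3
  have hκS : _root_.Pool.Agent.ME2F.SQR.Sb V κ0 := by
    rw [hκ0]
    exact Finset.prod_induction _ (_root_.Pool.Agent.ME2F.SQR.Sb V) (fun _ _ => Sb.mul) (Sb.one V) fun p hp =>
      Sb.zpow ⟨_, (hG _ (hq2 _ _ (Finset.mem_sigma.1 hp).2)).2.2.1⟩ _
  obtain ⟨K, hK⟩ := hκS
  have hW0 := hW 0
  simp only [hc0, one_mul] at hW0
  rw [← hy2] at hW0
  have vy : V.valuation y = V.valuation (2 : ℂ) ^ K := by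
    have h12 := congrArg V.valuation hW0
    rw [map_mul, map_mul, (hPb 0).1, (hPb 0).2.1, mul_one, mul_one, map_pow, hK] at h12
    exact (pow_left_inj₀ zero_le zero_le (by norm_num)).1 h12
  have h2K : (2 : ℂ) ^ K ≠ 0 := zpow_ne_zero _ (by norm_num)
  obtain ⟨w, hw⟩ : ∃ w : ℂ, w = y / 2 ^ K := ⟨_, rfl⟩
  have hyw : y = w * 2 ^ K := by rw [hw, div_mul_cancel₀ _ h2K]
  have vw : V.valuation w = 1 := by
    rw [hw, map_div₀, map_zpow₀, vy, div_self (zpow_ne_zero _ (_root_.Pool.Agent.ME2F.SQR.v2_ne V))]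
  have hwM : w ∈ RFE (idl (A := A) (B := B) (m' * a)) := by
    rw [hw]
    refine div_mem ((tm_FAC tm_TRA A B hring).1 _ _ ?_ hy) (zpow_mem (ofNat_mem _ 2) K)
    rw [Ideal.span_singleton_le_span_singleton]
    exact ⟨(a : OO A B), by push_cast; ring⟩
  obtain ⟨h, hh, hwh, hsh⟩ := h8 A B P' V n f a m m' hS (R.L R.i0) (R.om R.i0) u e a1 a3 hNL0 hgood w
    hwM vw.le
  -- the automorphisms
  have hbot : idl (A := A) (B := B) (m * a) ≠ ⊥ := by
    intro h0
    rw [Ideal.span_singleton_eq_bot] at h0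
    have h11 := congrArg emb h0
    rw [enat, ← hφ 0, map_zero] at h11
    have h12 : m * a ≠ 0 := mul_ne_zero hm0 (by omega)
    exact h12 (by exact_mod_cast h11)
  have hs : ∀ b : OO A B, ∃ s : ℂ ≃+* ℂ, AutCE (idl (m * a)) (cc (NN n f a) b) s := fun b =>
    h5 A B hC.case hring hS.tor ⟨_, ⟨_, _, hNL0⟩⟩ _ hbot (by
      rw [Ideal.span_singleton_le_span_singleton, hS.hm]
      exact ⟨((2 ^ (n + 1) * f * a : ℕ) : OO A B), by push_cast; ring⟩) _ (c1 b).2.2.1 (c1 b).1 (by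
      have h20 := (c1 b).2.2.2.1
      obtain ⟨t, ht⟩ := Ideal.mem_span_singleton'.1 h20
      refine Ideal.mem_span_singleton'.2 ⟨t * ((f * a : ℕ) : OO A B), ?_⟩
      rw [← ht]
      push_cast
      ring)
  have hmf : m.primeFactors ⊆ (2 * f).primeFactors := by
    rw [hS.hm, Nat.primeFactors_mul (by positivity) (by omega), Nat.primeFactors_pow _ (by omega),
      Nat.primeFactors_mul (by norm_num) (by omega)]
  have hm2 : 2 ≤ m := by
    rw [hS.hm]
    have : 0 < 2 ^ n := by positivity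
    rw [pow_add]
    nlinarith
  have hsG : ∀ (b : OO A B) (s : ℂ ≃+* ℂ), AutCE (idl (m * a)) (cc (NN n f a) b) s →
      ∀ (i : ι) (x : OO A B), IsCoprime x ((m : ℕ) : OO A B) →
      s (GFibE R H m m' i x) = GFibE R H m m' i (cc (NN n f a) b * x) := by
    intro b s hs i x hx
    rw [GFibE, GFibE, map_prod]
    refine Finset.prod_congr rfl fun l _ => ?_
    have hz := _root_.Pool.Agent.ME2F.SQR.cop_add hm2' hm4 hx (bb l)
    obtain ⟨z, hzd⟩ : ∃ z, z = x + (m' : OO A B) * bb l := ⟨_, rfl⟩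
    rw [← hzd] at hz ⊢
    obtain ⟨-, -, -, hpt⟩ := tm_PT tm_TRA A B hring (2 * f) ι R (by omega) i
    obtain ⟨-, hzm, hzo, -⟩ := hpt m hm0 hmf z
    have hNLi : NLE A B (R.L i) := ⟨_, _, R.nl i⟩
    have hzL : ptE R m i z ∉ (R.L i).lattice := by
      intro h0
      have := hzo hz 1 (by rwa [Nat.cast_one, one_mul])
      have := Nat.le_of_dvd one_pos this
      omega
    have hzT : Tor (idl (A := A) (B := B) (m * a)) (R.L i) (ptE R m i z) := by
      refine ((tm_TRA A B hring _ hNLi).2.2.2.2.1 _ _).2 ?_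
      rw [enat]
      have h1 := nsmul_mem hzm a
      rw [nsmul_eq_mul] at h1
      have h2 : ((m * a : ℕ) : ℂ) * ptE R m i z = (a : ℂ) * ((m : ℂ) * ptE R m i z) := by
        push_cast
        ring
      rw [h2]
      exact h1
    rw [h6 A B hring _ hNLi a (H i) (hH i) (idl (A := A) (B := B) (m * a)) (by
      rw [Ideal.span_singleton_le_span_singleton]
      exact ⟨((m : ℕ) : OO A B), by push_cast; ring⟩) _ s hs (c1 b).2.2.2.2.2 _ hzT hzL]
    apply _root_.Pool.Agent.ME2F.SQR.th_per (R.L i) (a : ℂ) (hH i)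
    obtain ⟨t, ht⟩ := Ideal.mem_span_singleton.1 (c1 b).2.2.2.2.1
    have hdi : cc (NN n f a) b * z = (cc (NN n f a) b * x + (m' : OO A B) * bb l) +
        (m : OO A B) * (2 * (f : OO A B) * t * bb l) := by
      rw [hzd, hm2']
      push_cast
      have ht' : cc (NN n f a) b = 1 + 4 * (f : OO A B) * t := by
        rw [← sub_add_cancel (cc (NN n f a) b) 1, ht]
        push_cast
        ring
      rw [ht']
      ring
    have hmC : (m : ℂ) ≠ 0 := by exact_mod_cast hm0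
    have hzt := (hpt m hm0 hmf (2 * (f : OO A B) * t * bb l)).2.1
    have eadd : ∀ x y : OO A B, emb (x + y) = emb x + emb y := fun x y => by
      rw [← hφ, map_add, hφ, hφ]
    have e1 : emb (cc (NN n f a) b) * ptE R m i z -
        ptE R m i (cc (NN n f a) b * x + (m' : OO A B) * bb l) =
        (m : ℂ) * ptE R m i (2 * (f : OO A B) * t * bb l) := by
      have e2 := congrArg emb hdi
      rw [emul, eadd, emul (m : OO A B), enat] at e2
      unfold ptE
      field_simp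
      linear_combination (R.om i * nI (R.b i)) * e2
    rw [e1]
    exact hzt
  have hsy : ∀ (b : OO A B) (s : ℂ ≃+* ℂ), AutCE (idl (m * a)) (cc (NN n f a) b) s →
      s w = h.eval (ξ b) ∧ (s y) ^ 2 = ∏ j, (∏ q ∈ X j, GFibE R H m m' q.1
        (cc (NN n f a) b * q.2)) ^ g j ∧ s y = s w * 2 ^ K := by
    intro b s hs
    refine ⟨?_, ?_, ?_⟩
    · rw [hξ]
      exact hsh _ _ hs (c1 b).2.2.2.1
    · rw [← map_pow, hy2, map_prod]
      refine Finset.prod_congr rfl fun j _ => ?_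
      rw [map_zpow₀, map_prod]
      refine congrArg (fun t : ℂ => t ^ g j) ?_
      refine Finset.prod_congr rfl fun q hq => ?_
      exact hsG b s hs q.1 q.2 (hX j q hq)
    · rw [hyw, map_mul, map_zpow₀, map_ofNat]
  have hκne : κ0 ≠ 0 := by
    intro h0
    rw [h0, map_zero] at hK
    exact (pow_ne_zero 2 (zpow_ne_zero K (_root_.Pool.Agent.ME2F.SQR.v2_ne V))) hK.symm
  have key : ∀ b, P1'.eval (ξ b) = ((2 ^ K) ^ 2 / κ0) * h.eval (ξ b) ^ 2 * Q1'.eval (ξ b) := by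
    intro b
    obtain ⟨s, hs⟩ := hs b
    obtain ⟨s1, s2, s3⟩ := hsy b s hs
    have h11 := hW b
    rw [← s2, s3, s1] at h11
    field_simp
    linear_combination -h11
  have vκ : V.valuation ((2 ^ K) ^ 2 / κ0) = 1 := by
    rw [map_div₀, map_pow, map_zpow₀, hK, div_self (pow_ne_zero 2 (zpow_ne_zero K (_root_.Pool.Agent.ME2F.SQR.v2_ne V)))]
  -- the distances
  obtain ⟨hz1, hz2⟩ := _root_.Pool.Agent.ME2F.SQR.base hring hNL0 hm0'
  obtain ⟨i1, i2, -⟩ := h9 V (R.L R.i0) u e a1 a3 hgood hC.v2 (n + 1) f a hS.f3 hS.fo hS.ao hS.af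
    (R.om R.i0 / m') (by rw [← hS.hm']; exact hz1)
    (fun c hc => dvd_trans ⟨2 ^ (n + 1), by rw [hS.hm']; ring⟩ (hz2 c hc))
  obtain ⟨⟨S, hS0, hS1, hS2⟩, hS'⟩ := h4 A B P' V hC (R.L R.i0) u e a1 a3
    ⟨_, _, hNL0⟩ hgood _ i1 i2
  obtain ⟨S', hS0', hS1', hS2'⟩ := hS' _ c73 c74
  obtain ⟨-, -, -, -, -, -, -, -, -, hper⟩ := h3 V (R.L R.i0) u e a1 a3 hgood hC.v2
  have hSb : ∀ x ∈ S, ∃ b, x = ξ b := by
    intro x hx
    obtain ⟨Y, hY, rfl⟩ := (hS1 x hx).2
    obtain ⟨b, hb⟩ := c75 Y hY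
    refine ⟨b, ?_⟩
    rw [hξ, c71 b, ← ((hper (R.om R.i0 / m' + emb b * (a * R.om R.i0 / 4))).1 _ hb).1]
    congr 1
    ring
  have hSh : ∀ x ∈ S', h.eval x = h.eval (xu (R.L R.i0) u e (R.om R.i0 / m')) := by
    intro x hx
    obtain ⟨k', -, rfl⟩ := (hS1' x hx).2
    obtain ⟨s, hs⟩ := hs ((k' : OO A B) * w0)
    have hk : xu (R.L R.i0) u e (R.om R.i0 / m' + k' * (emb (w0 : OO A B) *
        (a * R.om R.i0 / 4))) = ξ ((k' : OO A B) * w0) := by
      rw [hξ, c71, c72]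
    obtain ⟨s1, -, s3⟩ := hsy _ s hs
    have s4 := hinv k' s hs
    rw [hk, ← s1, ← hwh]
    apply mul_right_cancel₀ h2K
    rw [← s3, s4]
    exact hyw
  have hLag := (h1 V S _ hS0 (by rw [← hξ0]; exact vξ 0) (fun x hx => (hS1 x hx).1)).2.2.2 P1' Q1' h
    ((2 ^ K) ^ 2 / κ0) S' hP' hQ' hh vκ.le hS0' (fun x hx => (hS1' x hx).1)
    (by rw [← hξ0]; exact key 0)
    (fun x hx => by obtain ⟨b, rfl⟩ := hSb x hx; exact key b) hSh
  have hd : dR A = 2 ∨ dR A = 3 := by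
    unfold dR
    split <;> simp
  have hdl : V.valuation (dlg P1' Q1' (ξ 0)) ^ 8 ≤ V.valuation (2 : ℂ) ^ (3 * dR A + 5) := by
    rw [dlg, map_div₀, map_mul, (hPb 0).1, (hPb 0).2.1, mul_one, div_one, hξ0]
    refine (pow_le_pow_left' hLag 8).trans ?_
    rcases le_total (V.valuation (2 : ℂ) * ∏ x ∈ S', V.valuation
      (xu (R.L R.i0) u e (R.om R.i0 / m') - x)) (∏ x ∈ S, V.valuation
      (xu (R.L R.i0) u e (R.om R.i0 / m') - x)) with h11 | h11
    · rw [max_eq_right h11]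
      refine (pow_le_pow_left' hS2 8).trans ?_
      rw [← pow_mul]
      exact pow_le_pow_right_of_le_one' hC.v2.le (by omega)
    · rw [max_eq_left h11, mul_pow]
      have e1 : 3 * dR A + 5 = 8 + 3 * (dR A - 1) := by omega
      rw [e1, pow_add]
      exact mul_le_mul' le_rfl hS2'
  have hsum : (∑ j, (g j : ℂ) * ∑ q ∈ X j, emb q.2 * muXE R q.1 *
      FFibE R a m m' q.1 q.2) / u =
      2 * dlg P1' Q1' (ξ 0) * et (R.L R.i0) u (R.om R.i0 / m') := by
    rw [(hPb 0).2.2.2, Finset.sum_sigma, Finset.mul_sum, Finset.sum_mul, Finset.sum_div]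
    refine Finset.sum_congr rfl fun j _ => ?_
    rw [Finset.mul_sum, Finset.sum_div, Finset.mul_sum, Finset.sum_mul]
    refine Finset.sum_congr rfl fun q hq => ?_
    have h12 := (hGb j q hq 0).2.2.2.2.2
    rw [← hξ, hc0, eone, one_mul, one_mul] at h12
    rw [mul_div_assoc (g j : ℂ)]
    linear_combination (g j : ℂ) * h12
  rw [hsum, map_mul, map_mul, mul_pow, mul_pow]
  refine (mul_le_of_le_one_right' (pow_le_one' vet 8)).trans ?_
  have e2 : 3 * dR A + 13 = 8 + (3 * dR A + 5) := by omega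
  rw [e2, pow_add]
  exact mul_le_mul' le_rfl hdl

end

end Pool.Agent.ME2F


end

section

/-!
# MUX-2R, block ER2, module GPO (helper96)

The fibres as rational functions over `V` of `x(Q)`, `Q = om_0/m'`.
Model: `Pool/Agent/N2/E_GPO.lean` (helper89).
-/

set_option autoImplicit false

open Polynomial

namespace Pool.Agent.ME2F

open _root_.MU3 _root_.Pool.Agent.MU3A _root_.Pool.Agent.MU3B _root_.Pool.Agent.MUX _root_.Pool.Agent.MUXU
open _root_.Pool.Agent.RI _root_.Pool.Agent.NS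
open _root_.Pool.Agent.ME hiding ActE
open _root_.Pool.Agent.MEE _root_.Pool.Agent.ME2
open _root_.Pool.Agent.MUXE (RingE)
open _root_.Pool.Agent.N2 (GoodQ OddQ dR et yt WT PTq)
open _root_.Pool.Agent.N2E (dlg cc Sd_LAG Sd_PRD)
open _root_.Pool.Agent.N2V (IsoU NN w0 bb Sv_COE Sv_GRT Sv_UNT Sv_RAT Sv_THT Sv_NE1 Sv_PVI Sv_TWO Sv_DS2)
open _root_.Pool.Agent.ME2E (AutCE Sy_AUT Sy_GTA)
open _root_.Pool.Agent.NSE (IntP)
open _root_.Pool.Agent.MUX2 (GRG)
open _root_.Pool.Agent.MUXV (InK tX)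

noncomputable section

namespace GPO

/-- `v(u²)²` is a power of `v 2` -/
lemma _root_.Pool.Agent.ME2F.GPO.usq (hU : S4_UNR) {A B : ℤ} {P : Ideal (OO A B)} {V : ValuationSubring ℂ} (hC : CtxF A B P V)
    (hT : TorXE A B) {L : PeriodPair} {u e a1 a3 : ℂ} (hL : NLE A B L)
    (hg : GoodQ V L u e a1 a3) :
    ∃ k : ℤ, V.valuation (u ^ 2) ^ 4 = V.valuation (2 : ℂ) ^ k := by
  obtain ⟨w₁, w₂, h1, h2, h1', h2', -, -, -, hu⟩ := hg.tor
  have hring := hC.ring
  obtain ⟨φ, hφ⟩ := hring.hom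
  have e3 : emb ((3 : ℕ) : OO A B) = 3 := by rw [← hφ, map_natCast]; norm_num
  obtain ⟨-, hx, -⟩ := tm_FAC tm_TRA A B hring
  have hsp := (tm_TRA A B hring L hL).2.2.2.2.1
  have m1 : xnE L w₁ ∈ RFE (idl (A := A) (B := B) 3) :=
    (hx _ L hL).2 w₁ ((hsp _ _).2 (by rw [e3]; exact h1)) h1'
  have m2 : xnE L w₂ ∈ RFE (idl (A := A) (B := B) 3) :=
    (hx _ L hL).2 w₂ ((hsp _ _).2 (by rw [e3]; exact h2)) h2'
  have e4 : u ^ 2 = xnE L w₂ - xnE L w₁ := by
    rw [hu, xnE, xnE]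
  refine hU A B P V hC hT 3 (by norm_num) (by norm_num) _ ?_ (pow_ne_zero 2 hg.u0)
  rw [e4]
  have hle : RFE (idl (A := A) (B := B) 3) ≤ RFE (idl (A := A) (B := B) (2 * 3)) := by
    apply (tm_FAC tm_TRA A B hring).1
    rw [idl, idl, Ideal.span_singleton_le_span_singleton]
    exact ⟨((2 : ℕ) : OO A B), by push_cast; ring⟩
  exact hle (sub_mem m2 m1)

lemma _root_.Pool.Agent.ME2F.GPO.card2 {L : PeriodPair} {a : ℕ} {H : Finset ℂ} (ha : a ≠ 0) (h2 : ¬ 2 ∣ a)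
    (hH : IsHalf L (a : ℂ) H) : 2 ∣ H.card := by
  obtain ⟨-, -, h⟩ := b_HRE L a H (by exact_mod_cast ha) (fun w hw => by
    have := nsmul_mem hw a
    rwa [nsmul_eq_mul] at this) hH
  have h1 : 2 * H.card + 1 = a ^ 2 := by
    rw [Complex.norm_natCast] at h
    exact_mod_cast h
  have h3 : a ^ 2 % 4 = 1 := by
    rw [Nat.pow_mod]
    have h4 : a % 4 = 1 ∨ a % 4 = 3 := by omega
    rcases h4 with h4 | h4 <;> rw [h4]
  omega

end GPO

open _root_.Pool.Agent.ME2F.GPO in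
/-- (GPO) the fibres as rational functions over `V` of `x(Q)`, `Q = om_0/m'`. -/
theorem t4_GPO (h2 : Sv_GRT) (h3 : Sv_THT) (h4 : Sv_NE1) (h5 : S4_MUL) (h6 : S4_FIB)
    (hU : S4_UNR) : S4_GPO := by
  intro A B P V n f a m m' hS ι R u e a1 a3 hgood H i hH x hx
  have hC := hS.ctx
  have hf3 := hS.f3
  have hf := hS.fo
  have hpa := hS.ao
  have ha0 : a ≠ 0 := by have := hS.a3; omega
  have hring := hC.ring
  obtain ⟨φ, hφ⟩ := hring.hom
  have emul : ∀ x y : OO A B, emb (x * y) = emb x * emb y := fun x y => by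
    rw [← hφ, map_mul, hφ, hφ]
  obtain ⟨κ₀, hκ0, hκv, hκ⟩ := h6 A B P V n f a m m' hS ι R H i hH
  have hmm : m = 2 * m' := by rw [hS.hm, hS.hm']; ring
  have hdvd : ((m' : ℕ) : OO A B) ∣ ((m : ℕ) : OO A B) := by
    rw [hmm]
    push_cast
    exact dvd_mul_left _ _
  have hm' := hS.hm'
  obtain ⟨hmu, hisg, hodd⟩ := h5 A B P V hC (2 * f) ι R (by omega) (dvd_mul_right _ _) i x hx
  have hm0 : m' ≠ 0 := by rw [hm']; exact mul_ne_zero (by positivity) (by omega)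
  have hmf : m'.primeFactors ⊆ (2 * f).primeFactors := by
    rw [hm', Nat.primeFactors_mul (by positivity) (by omega), Nat.primeFactors_pow _ (by omega),
      Nat.primeFactors_mul (by norm_num) (by omega)]
  obtain ⟨-, -, -, hpt⟩ := tm_PT tm_TRA A B hring (2 * f) ι R (by omega) i
  obtain ⟨u', e', a1', a3', hg'⟩ := hC.good (R.L i) ⟨_, _, R.nl i⟩
  have hI : IsoU V (R.L R.i0) (R.L i) u e a1 a3 u' e' a1' a3' (muXE R i * emb x) :=
    ⟨hgood, hg', hC.v2, hmu, hisg, hodd⟩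
  obtain ⟨Pq, Qr, hP, hQ, hPQ⟩ :=
    h3 V (R.L R.i0) (R.L i) u e a1 a3 u' e' a1' a3' _ hI a (H i) ha0 hH
  obtain ⟨k, hk⟩ := _root_.Pool.Agent.ME2F.GPO.usq hU hC hS.tor ⟨_, _, R.nl i⟩ hg'
  obtain ⟨t, ht⟩ := _root_.Pool.Agent.ME2F.GPO.card2 ha0 hpa hH
  refine ⟨κ₀ * (u' ^ 2) ^ (H i).card, k * t, Pq, Qr, hP, hQ, ?_, ?_⟩
  · rw [map_mul, map_pow, hκv _ _ _ _ hg', ← pow_add, zpow_mul, ← hk, zpow_natCast,
      ← pow_mul, ← pow_mul, ht]
    congr 1
    ring
  intro c hc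
  obtain ⟨hG, hF, -⟩ := hκ (c * x) hc
  have hc' : IsCoprime (c * x) ((m' : ℕ) : OO A B) := hc.of_isCoprime_of_dvd_right hdvd
  obtain ⟨hz, hzm, hzo, -⟩ := hpt m' hm0 hmf (c * x)
  obtain ⟨hzK, -, hza, hzq⟩ := h4 V (R.L i) u' e' a1' a3' hg' hC.v2 (n + 1) f a hf3 hf hpa
    hS.af _ (by rw [← hm']; exact hzm) (fun c' hc0 => by
      have := hzo hc' c' hc0
      rw [hm'] at this
      exact (dvd_mul_left _ _).trans this)
  have ez : muXE R i * emb x * (emb c * (R.om R.i0 / m')) =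
      ptE R m' i (c * x) := by
    rw [hz, emul]
    ring
  obtain ⟨k1, k2, k3, k4, k5⟩ := hPQ (emb c * (R.om R.i0 / m'))
    (by rw [ez]; exact hzK) (by rw [ez]; exact hza) (fun q hq => by
      rw [ez]
      exact hzq q (hH.mem q hq) (fun hqL => hH.ne q hq (by
        have hqq := add_mem hqL hqL
        rwa [← two_mul] at hqq)))
  rw [ez] at k4 k5
  obtain ⟨⟨ξ, G⟩, -⟩ := h2 V (R.L R.i0) u e a1 a3 hgood hC.v2
  have vx := (Pool.Agent.MUXV.int_X k1).2
  have vy := Pool.Agent.MUX2.gInt_Y G k1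
  have v2 : V.valuation (2 : ℂ) ≤ 1 := hC.v2.le
  have va1 : V.valuation a1 ≤ 1 := by
    by_contra h
    push Not at h
    have h1 : 1 < V.valuation a1 ^ 2 := one_lt_pow₀ h (by norm_num)
    exact absurd (hgood.v1.trans v2) (not_le.2 h1)
  have e1 : et (R.L R.i0) u (emb c * (R.om R.i0 / m')) =
      2 * yt (R.L R.i0) u e a1 a3 (emb c * (R.om R.i0 / m')) +
        a1 * xu (R.L R.i0) u e (emb c * (R.om R.i0 / m')) + a3 := by
    rw [yt]
    ring
  have ve : V.valuation (et (R.L R.i0) u (emb c * (R.om R.i0 / m'))) ≤ 1 := by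
    rw [e1]
    refine (Valuation.map_add _ _ _).trans (max_le ?_ hgood.v3.le)
    refine (Valuation.map_add _ _ _).trans (max_le ?_ ?_)
    · rw [map_mul]
      exact mul_le_one' v2 vy
    · rw [map_mul]
      exact mul_le_one' va1 vx
  refine ⟨vx, ve, k2, k3, ?_, ?_⟩
  · rw [hG, mul_assoc, k4]
    ring
  · rw [hF]
    have e5 : muXE R i * emb x * (2 * dlX (R.L i) a (ptE R m' i (c * x))) / u =
        2 * (muXE R i * emb x * dlX (R.L i) a (ptE R m' i (c * x)) / u) := by ring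
    rw [e5, k5]
    ring

end

end Pool.Agent.ME2F


end

section

/-!
# MUX-2R, block ER2, module FIB: the fibres in terms of the points of level `m'` (helper61)
-/

set_option autoImplicit false

namespace Pool.Agent.ME2F

open _root_.MU3 _root_.Pool.Agent.MU3A _root_.Pool.Agent.MU3B _root_.Pool.Agent.MUX _root_.Pool.Agent.MUXU
open _root_.Pool.Agent.RI _root_.Pool.Agent.NS
open _root_.Pool.Agent.ME hiding ActE
open _root_.Pool.Agent.MEE _root_.Pool.Agent.ME2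
open _root_.Pool.Agent.MUXE (RingE)
open _root_.Pool.Agent.N2 (GoodQ OddQ dR et yt WT PTq)
open _root_.Pool.Agent.N2E (dlg cc Sd_LAG Sd_PRD)
open _root_.Pool.Agent.N2V (IsoU NN w0 bb Sv_COE Sv_GRT Sv_UNT Sv_RAT Sv_THT Sv_NE1 Sv_PVI Sv_TWO Sv_DS2)
open _root_.Pool.Agent.ME2E (AutCE Sy_AUT Sy_GTA)
open _root_.Pool.Agent.MUXV (InK tX)

noncomputable section

namespace FIB61

lemma _root_.Pool.Agent.ME2F.FIB61.inj {A B : ℤ} (hR : RingE A B) (x y : OO A B) (h : emb x = emb y) : x = y := by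
  obtain ⟨φ, hφ⟩ := hR.hom
  have h1 : emb (x - y) = 0 := by
    rw [← hφ, map_sub, hφ, hφ, h, sub_self]
  exact sub_eq_zero.1 (hR.inj0 _ h1)

lemma _root_.Pool.Agent.ME2F.FIB61.nI_mem {A B : ℤ} (hR : RingE A B) (b : Ideal (OO A B)) :
    ((nI b : ℕ) : OO A B) ∈ b := by
  have := hR.ded
  change ((Ideal.absNorm b : ℕ) : OO A B) ∈ b
  exact Ideal.absNorm_mem b

lemma _root_.Pool.Agent.ME2F.FIB61.nI_ne {A B : ℤ} (hR : RingE A B) (b : Ideal (OO A B)) (hb : b ≠ ⊥) : nI b ≠ 0 := by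
  have := hR.ded
  change Ideal.absNorm b ≠ 0
  rw [Ne, Ideal.absNorm_eq_zero_iff]
  exact hb

lemma _root_.Pool.Agent.ME2F.FIB61.nat_dvd {A B : ℤ} (m k : ℕ) (h : ((m : ℕ) : OO A B) ∣ ((k : ℕ) : OO A B)) :
    m ∣ k := by
  obtain ⟨z, hz⟩ := h
  have h5 : (k : ℤ) = (m : ℤ) * z.re := by
    have := congrArg QuadraticAlgebra.re hz
    simpa using this
  exact Int.natCast_dvd_natCast.1 ⟨z.re, h5⟩

/-- representatives modulo 2 -/
lemma mod2 {A B : ℤ} (y : OO A B) : ∃ l < 4, ∃ t : OO A B, y - bb l = t + t := by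
  have h1 : y.re % 2 = 0 ∨ y.re % 2 = 1 := by omega
  have h2 : y.im % 2 = 0 ∨ y.im % 2 = 1 := by omega
  rcases h1 with h1 | h1 <;> rcases h2 with h2 | h2
  · refine ⟨0, by norm_num, ⟨y.re / 2, y.im / 2⟩, ?_⟩
    ext <;> simp [bb] <;> omega
  · refine ⟨2, by norm_num, ⟨y.re / 2, y.im / 2⟩, ?_⟩
    ext <;> simp [bb] <;> omega
  · refine ⟨1, by norm_num, ⟨y.re / 2, y.im / 2⟩, ?_⟩
    ext <;> simp [bb] <;> omega
  · refine ⟨3, by norm_num, ⟨y.re / 2, y.im / 2⟩, ?_⟩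
    ext <;> simp [bb] <;> omega

lemma mod2_inj {A B : ℤ} {l l' : ℕ} (hl : l < 4) (hl' : l' < 4)
    (h : ∃ t : OO A B, (bb l - bb l' : OO A B) = t + t) : l = l' := by
  obtain ⟨t, ht⟩ := h
  have h1 := congrArg QuadraticAlgebra.re ht
  have h2 := congrArg QuadraticAlgebra.im ht
  simp [bb] at h1 h2
  omega

lemma _root_.Pool.Agent.ME2F.FIB61.bb_zero {A B : ℤ} : (bb 0 : OO A B) = 0 := by
  ext <;> simp [bb]

/-- the facts on the lattice which are used; `N = N(b_i)` -/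
structure _root_.Pool.Agent.ME2F.FIB61.Fa (A B : ℤ) (b : Ideal (OO A B)) (L : PeriodPair) (om : ℂ) (N : ℕ) : Prop where
  ring : RingE A B
  li : IsLI b L om
  mem : ((N : ℕ) : OO A B) ∈ b
  odd : ¬ 2 ∣ N
  ne : N ≠ 0

section
variable {A B : ℤ} {b : Ideal (OO A B)} {L : PeriodPair} {om : ℂ} {N : ℕ}

/-- the points of order two -/
def _root_.Pool.Agent.ME2F.FIB61.zz (A B : ℤ) (om : ℂ) (N l : ℕ) : ℂ := om * N * emb (bb l : OO A B) / 2

lemma _root_.Pool.Agent.ME2F.FIB61.hom2 (h : _root_.Pool.Agent.ME2F.FIB61.Fa A B b L om N) : (∀ x y : OO A B, emb (x * y) = emb x * emb y) ∧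
    (∀ x y : OO A B, emb (x + y) = emb x + emb y) ∧
    (∀ x y : OO A B, emb (x - y) = emb x - emb y) ∧
    (∀ k : ℕ, emb ((k : ℕ) : OO A B) = (k : ℂ)) := by
  obtain ⟨φ, hφ⟩ := h.ring.hom
  refine ⟨fun x y => ?_, fun x y => ?_, fun x y => ?_, fun k => ?_⟩
  · rw [← hφ, ← hφ, ← hφ, map_mul]
  · rw [← hφ, ← hφ, ← hφ, map_add]
  · rw [← hφ, ← hφ, ← hφ, map_sub]
  · rw [← hφ, map_natCast]

/-- the multiples `N(b) y` with `y ∈ O` -/
lemma _root_.Pool.Agent.ME2F.FIB61.nmem (h : _root_.Pool.Agent.ME2F.FIB61.Fa A B b L om N) (y : OO A B) : om * N * emb y ∈ L.lattice := by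
  obtain ⟨hm, ha, hs, hn⟩ := _root_.Pool.Agent.ME2F.FIB61.hom2 h
  refine (h.li.mem _).2 ⟨((N : ℕ) : OO A B) * y, b.mul_mem_right _ h.mem, ?_⟩
  rw [hm, hn]
  ring

/-- `N(b) y / 2` -/
lemma half_mem (h : _root_.Pool.Agent.ME2F.FIB61.Fa A B b L om N) (y : OO A B) (hy : om * N * emb y / 2 ∈ L.lattice) :
    ∃ t : OO A B, y = t + t := by
  obtain ⟨hm, ha, hs, hn⟩ := _root_.Pool.Agent.ME2F.FIB61.hom2 h
  obtain ⟨x, hx, he⟩ := (h.li.mem _).1 hy
  have hom := h.li.om_ne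
  obtain ⟨k, hk⟩ : ∃ k, N = 2 * k + 1 := ⟨N / 2, by have := h.odd; omega⟩
  refine ⟨x - (k : ℕ) * y, ?_⟩
  have h1 : ((N : ℕ) : OO A B) * y = x + x := by
    refine _root_.Pool.Agent.ME2F.FIB61.inj h.ring _ _ ?_
    rw [hm, ha, hn]
    have h2 : om * ((N : ℂ) * emb y) = om * (emb x + emb x) := by linear_combination 2 * he
    exact mul_left_cancel₀ hom h2
  rw [hk] at h1
  push_cast at h1
  linear_combination h1

lemma _root_.Pool.Agent.ME2F.FIB61.rp (h : _root_.Pool.Agent.ME2F.FIB61.Fa A B b L om N) :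
    IsRpM L L 2 ((Finset.Ico 1 4).image (_root_.Pool.Agent.ME2F.FIB61.zz A B om N)) ∧
    Set.InjOn (_root_.Pool.Agent.ME2F.FIB61.zz A B om N) (Finset.Ico 1 4) := by
  obtain ⟨hm, ha, hs, hn⟩ := _root_.Pool.Agent.ME2F.FIB61.hom2 h
  have hinj : ∀ l < 4, ∀ l' < 4, _root_.Pool.Agent.ME2F.FIB61.zz A B om N l - _root_.Pool.Agent.ME2F.FIB61.zz A B om N l' ∈ L.lattice → l = l' := by
    intro l hl l' hl' hll
    refine mod2_inj (A := A) (B := B) hl hl' (half_mem h _ ?_)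
    rw [hs]
    have e : om * N * (emb (bb l : OO A B) - emb (bb l' : OO A B)) / 2 =
        _root_.Pool.Agent.ME2F.FIB61.zz A B om N l - _root_.Pool.Agent.ME2F.FIB61.zz A B om N l' := by
      unfold _root_.Pool.Agent.ME2F.FIB61.zz; ring
    rw [e]; exact hll
  have h0 : _root_.Pool.Agent.ME2F.FIB61.zz A B om N 0 = 0 := by
    unfold _root_.Pool.Agent.ME2F.FIB61.zz
    rw [_root_.Pool.Agent.ME2F.FIB61.bb_zero]
    obtain ⟨φ, hφ⟩ := h.ring.hom
    rw [← hφ, map_zero]; ring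
  refine ⟨⟨?_, ?_, ?_, ?_⟩, ?_⟩
  · intro q hq
    obtain ⟨l, hl, rfl⟩ := Finset.mem_image.1 hq
    have e : 2 * _root_.Pool.Agent.ME2F.FIB61.zz A B om N l = om * N * emb (bb l : OO A B) := by unfold _root_.Pool.Agent.ME2F.FIB61.zz; ring
    rw [e]
    exact _root_.Pool.Agent.ME2F.FIB61.nmem h _
  · intro q hq hqL
    obtain ⟨l, hl, rfl⟩ := Finset.mem_image.1 hq
    rw [Finset.mem_Ico] at hl
    have := hinj l hl.2 0 (by norm_num) (by rw [h0, sub_zero]; exact hqL)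
    omega
  · intro q hq q' hq' hqq
    obtain ⟨l, hl, rfl⟩ := Finset.mem_image.1 hq
    obtain ⟨l', hl', rfl⟩ := Finset.mem_image.1 hq'
    rw [Finset.mem_Ico] at hl hl'
    rw [hinj l hl.2 l' hl'.2 hqq]
  · intro z hz hzL
    obtain ⟨y, hy, he⟩ := (h.li.mem _).1 hz
    obtain ⟨l, hl, t, ht⟩ := mod2 y
    obtain ⟨k, hk⟩ : ∃ k, N = 2 * k + 1 := ⟨N / 2, by have := h.odd; omega⟩
    have hz2 : z - _root_.Pool.Agent.ME2F.FIB61.zz A B om N l = om * emb (-((k : ℕ) : OO A B) * y + ((N : ℕ) : OO A B) * t) := by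
      have h1 : y - ((N : ℕ) : OO A B) * bb l =
          (-((k : ℕ) : OO A B) * y + ((N : ℕ) : OO A B) * t) +
            (-((k : ℕ) : OO A B) * y + ((N : ℕ) : OO A B) * t) := by
        have h2 : ((N : ℕ) : OO A B) = 2 * ((k : ℕ) : OO A B) + 1 := by
          rw [hk]; push_cast; ring
        linear_combination ((N : ℕ) : OO A B) * ht - y * h2
      have h3 := congrArg emb h1
      rw [ha, hs, hm (((N : ℕ) : OO A B)), hn] at h3
      unfold _root_.Pool.Agent.ME2F.FIB61.zz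
      linear_combination (1 / 2) * he + (om / 2) * h3
    have hmem : z - _root_.Pool.Agent.ME2F.FIB61.zz A B om N l ∈ L.lattice := by
      refine (h.li.mem _).2 ⟨_, ?_, hz2⟩
      exact b.add_mem (b.mul_mem_left _ hy) (b.mul_mem_right _ h.mem)
    refine ⟨_, Finset.mem_image_of_mem _ ?_, hmem⟩
    rw [Finset.mem_Ico]
    refine ⟨?_, hl⟩
    rcases Nat.eq_zero_or_pos l with rfl | hl0
    · rw [h0, sub_zero] at hmem
      exact absurd hmem hzL
    · exact hl0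
  · intro l hl l' hl' hll
    rw [Finset.coe_Ico, Set.mem_Ico] at hl hl'
    exact hinj l hl.2 l' hl'.2 (by rw [hll, sub_self]; exact zero_mem _)

/-- the value of the constant -/
lemma _root_.Pool.Agent.ME2F.FIB61.val (h2 : Sv_GRT) (h3 : Sv_TWO) {V : ValuationSubring ℂ} {u e a1 a3 : ℂ}
    (hg : GoodQ V L u e a1 a3) (hv : V.valuation (2 : ℂ) < 1) {a : ℕ} (ha : ¬ 2 ∣ a)
    {H : Finset ℂ} (hH : IsHalf L (a : ℂ) H) {R : Finset ℂ} (hR : IsRpM L L 2 R)
    (hc : R.card = 3) :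
    V.valuation ((-4) ^ H.card * ∏ h ∈ H, ∏ q ∈ R, (L.weierstrassP h - L.weierstrassP q)) =
      V.valuation (u ^ 2) ^ (3 * H.card) := by
  obtain ⟨-, htor⟩ := h2 V L u e a1 a3 hg hv
  obtain ⟨-, hk, hp, -⟩ := h3 V L u e a1 a3 hg hv
  have hp := hp R hR
  have hu : u ≠ 0 := hg.u0
  have key : ∀ h ∈ H, ∀ q ∈ R, V.valuation (L.weierstrassP h - L.weierstrassP q) =
      V.valuation (u ^ 2) * V.valuation (xu L u e q) := by
    intro h hh q hq
    have e1 : L.weierstrassP h - L.weierstrassP q = u ^ 2 * (xu L u e h - xu L u e q) := by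
      unfold xu; field_simp; ring
    have hhL : h ∉ L.lattice := by
      intro hm
      refine hH.ne h hh ?_
      have := nsmul_mem hm 2
      rw [nsmul_eq_mul] at this
      exact_mod_cast this
    have hhK : ¬ InK V L (xu L u e) h := fun hK => hhL ((htor a ha).2 h (hH.mem h hh) hK)
    have hx1 : V.valuation (xu L u e h) ≤ 1 := by
      rw [ValuationSubring.valuation_le_one_iff]
      by_contra hcon
      exact hhK (Or.inr hcon)
    have hqL : q ∉ L.lattice := hR.ne q hq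
    have hqK : InK V L (xu L u e) q := hk 1 q (by rw [pow_one]; exact hR.mem q hq)
    have hx2 : 1 < V.valuation (xu L u e q) := by
      rw [← not_le, ValuationSubring.valuation_le_one_iff]
      rcases hqK with h | h
      · exact absurd h hqL
      · exact h
    rw [e1, map_mul, Valuation.map_sub_eq_of_lt_right _ (lt_of_le_of_lt hx1 hx2)]
  have v4 : V.valuation (-4 : ℂ) = V.valuation (2 : ℂ) ^ 2 := by
    rw [Valuation.map_neg, ← map_pow]; norm_num
  have h5 : ∀ h ∈ H, V.valuation (∏ q ∈ R, (L.weierstrassP h - L.weierstrassP q)) =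
      V.valuation (u ^ 2) ^ 3 * ∏ q ∈ R, V.valuation (xu L u e q) := by
    intro h hh
    rw [map_prod, Finset.prod_congr rfl (key h hh), Finset.prod_mul_distrib, Finset.prod_const, hc]
  rw [map_mul, map_pow, v4, map_prod, Finset.prod_congr rfl h5, Finset.prod_const, ← mul_pow,
    mul_left_comm, hp, mul_one, ← pow_mul]

end

end FIB61

open _root_.Pool.Agent.ME2F.FIB61 in
/-- FIB. -/
theorem t4_FIB (h1 : Sv_GRT) (h2 : Sv_TWO) (h3 : Sv_DS2) : S4_FIB := by
  intro A B P V n f a m m' hS ι R H i hH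
  have hR := hS.ctx.ring
  have hnl := R.nl i
  set L := R.L i with hL
  set om := R.om i with hom
  set N := nI (R.b i) with hN
  have hN0 : N ≠ 0 := _root_.Pool.Agent.ME2F.FIB61.nI_ne hR _ hnl.b_ne
  have hcop : N.Coprime (2 * f) := R.cop i
  have hNodd : ¬ 2 ∣ N := by
    intro h
    have h4 := Nat.Coprime.coprime_mul_right_right hcop
    have h5 := Nat.dvd_gcd h (dvd_refl 2)
    rw [Nat.Coprime] at h4
    rw [h4] at h5
    omega
  have hF : _root_.Pool.Agent.ME2F.FIB61.Fa A B (R.b i) L om N := ⟨hR, hnl.toIsLI, _root_.Pool.Agent.ME2F.FIB61.nI_mem hR _, hNodd, hN0⟩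
  obtain ⟨hm, ha, hs, hn⟩ := _root_.Pool.Agent.ME2F.FIB61.hom2 hF
  obtain ⟨hRp, hinj⟩ := _root_.Pool.Agent.ME2F.FIB61.rp hF
  set R' := (Finset.Ico 1 4).image (_root_.Pool.Agent.ME2F.FIB61.zz A B om N) with hR'
  obtain ⟨hc3, hne, hdist⟩ := h3 L R' hRp a (H i) hS.ao hH
  set C : ℂ := ∏ h ∈ H i, ∏ q ∈ R', (L.weierstrassP h - L.weierstrassP q) with hC
  have hom0 : om ≠ 0 := hnl.om_ne
  have hNC : (N : ℂ) ≠ 0 := by exact_mod_cast hN0
  have hf0 : f ≠ 0 := by have := hS.f3; omega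
  have hm'0 : m' ≠ 0 := by
    rw [hS.hm']
    exact mul_ne_zero (pow_ne_zero _ (by norm_num)) hf0
  have hm'C : (m' : ℂ) ≠ 0 := by exact_mod_cast hm'0
  have hmm : m = 2 * m' := by
    rw [hS.hm, hS.hm', show n + 2 = (n + 1) + 1 by ring, pow_succ]
    ring
  have hmC : (m : ℂ) = 2 * m' := by rw [hmm]; push_cast; ring
  have hNm : N.Coprime m' := by
    rw [hS.hm']
    exact Nat.Coprime.mul_right
      (Nat.Coprime.pow_right _ (Nat.Coprime.coprime_mul_right_right hcop))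
      (Nat.Coprime.coprime_mul_left_right hcop)
  have ham : a.Coprime m' := by
    rw [hS.hm']
    refine Nat.Coprime.mul_right (Nat.Coprime.pow_right _ ?_) hS.af
    exact ((Nat.Prime.coprime_iff_not_dvd Nat.prime_two).2 hS.ao).symm
  have hm'1 : m' ≠ 1 := by
    rw [hS.hm', pow_succ]
    intro h
    have : 2 ∣ 1 := ⟨2 ^ n * f, by rw [← h]; ring⟩
    omega
  have hpt : ∀ x : OO A B, 2 * ptE R m i x = ptE R m' i x := by
    intro x
    unfold ptE
    rw [hmC]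
    field_simp
  have hptl : ∀ (x : OO A B) (l : ℕ), ptE R m i (x + (m' : OO A B) * bb l) =
      ptE R m i x + _root_.Pool.Agent.ME2F.FIB61.zz A B om N l := by
    intro x l
    unfold ptE _root_.Pool.Agent.ME2F.FIB61.zz
    rw [ha, hm, hn, hmC]
    field_simp
    ring
  have hz0 : _root_.Pool.Agent.ME2F.FIB61.zz A B om N 0 = 0 := by
    unfold _root_.Pool.Agent.ME2F.FIB61.zz
    rw [_root_.Pool.Agent.ME2F.FIB61.bb_zero]
    obtain ⟨φ, hφ⟩ := hR.hom
    rw [← hφ, map_zero]; ring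
  have hcopx : ∀ x : OO A B, IsCoprime x ((m : ℕ) : OO A B) →
      IsCoprime x ((m' : ℕ) : OO A B) := by
    intro x hx
    rw [hmm] at hx
    push_cast at hx
    exact IsCoprime.of_mul_right_right hx
  have hnot : ∀ x : OO A B, IsCoprime x ((m : ℕ) : OO A B) →
      (a : ℂ) * (2 * ptE R m i x) ∉ L.lattice := by
    intro x hx hmem
    rw [hpt] at hmem
    obtain ⟨y, -, hy⟩ := (hnl.mem _).1 hmem
    have e1 : ((N : ℕ) : OO A B) * (((a : ℕ) : OO A B) * x) = ((m' : ℕ) : OO A B) * y := by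
      refine _root_.Pool.Agent.ME2F.FIB61.inj hR _ _ ?_
      rw [hm, hm, hm, hn, hn, hn]
      unfold ptE at hy
      have h5 : om * ((N : ℂ) * ((a : ℂ) * emb x)) = om * ((m' : ℂ) * emb y) := by
        have h6 : (a : ℂ) * (om * N * emb x / m') * m' = om * emb y * m' := by
          rw [← hy]
        have h7 : (a : ℂ) * (om * N * emb x / m') * m' = a * (om * N * emb x) := by
          field_simp
        rw [h7] at h6
        linear_combination h6
      exact mul_left_cancel₀ hom0 h5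
    have hNm2 : IsCoprime ((N : ℕ) : OO A B) ((m' : ℕ) : OO A B) := by
      obtain ⟨s, t, hst⟩ := Nat.isCoprime_iff_coprime.2 hNm
      refine ⟨(s : OO A B), (t : OO A B), ?_⟩
      have := congrArg (fun k : ℤ => (k : OO A B)) hst
      push_cast at this
      exact this
    have d1 : ((m' : ℕ) : OO A B) ∣ ((a : ℕ) : OO A B) * x :=
      hNm2.symm.dvd_of_dvd_mul_left ⟨y, e1⟩
    have d2 : ((m' : ℕ) : OO A B) ∣ ((a : ℕ) : OO A B) :=
      (hcopx x hx).symm.dvd_of_dvd_mul_right d1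
    have d3 := _root_.Pool.Agent.ME2F.FIB61.nat_dvd _ _ d2
    exact hm'1 (Nat.Coprime.eq_one_of_dvd ham.symm d3)
  have main : ∀ x : OO A B, IsCoprime x ((m : ℕ) : OO A B) →
      GFibE R H m m' i x = ((-4) ^ (H i).card * C) * ThetaH L (H i) (ptE R m' i x) ∧
        FFibE R a m m' i x = 2 * dlX L a (ptE R m' i x) := by
    intro x hx
    obtain ⟨h5, h6⟩ := hdist (ptE R m i x) (hnot x hx)
    rw [hpt] at h5 h6
    constructor
    · rw [← h5]
      unfold GFibE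
      rw [Finset.range_eq_Ico, Finset.prod_eq_prod_Ico_succ_bot (by norm_num)]
      simp only [hptl]
      rw [hz0, add_zero, hR', Finset.prod_image hinj]
    · rw [← h6]
      unfold FFibE
      rw [Finset.range_eq_Ico, Finset.sum_eq_sum_Ico_succ_bot (by norm_num)]
      simp only [hptl]
      rw [hz0, add_zero, hR', Finset.sum_image hinj]
  refine ⟨(-4) ^ (H i).card * C, mul_ne_zero (pow_ne_zero _ (by norm_num)) hne, ?_, ?_⟩
  · intro u' e' a1' a3' hg
    exact _root_.Pool.Agent.ME2F.FIB61.val h1 h2 hg hS.ctx.v2 hS.ao hH hRp hc3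
  · intro x hx
    obtain ⟨h5, h6⟩ := main x hx
    refine ⟨h5, h6, ?_⟩
    intro y hy
    obtain ⟨t, ht⟩ := Ideal.mem_span_singleton.1 hy
    have hyx : y = x + ((m' : ℕ) : OO A B) * t := by linear_combination ht
    have hym' : IsCoprime y ((m' : ℕ) : OO A B) := by
      rw [hyx]
      exact (IsCoprime.add_mul_left_left_iff).2 (hcopx x hx)
    have hym : IsCoprime y ((m : ℕ) : OO A B) := by
      rw [hmm]
      push_cast
      refine IsCoprime.mul_right ?_ hym'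
      have h7 : ((m' : ℕ) : OO A B) = 2 * ((2 ^ n * f : ℕ) : OO A B) := by
        rw [hS.hm']; push_cast; ring
      rw [h7] at hym'
      exact IsCoprime.of_mul_right_left hym'
    obtain ⟨h7, h8⟩ := main y hym
    have hpy : ptE R m' i y = ptE R m' i x + om * N * emb t := by
      rw [hyx]
      unfold ptE
      rw [ha, hm, hn]
      field_simp
      ring
    have hper := (b_PER L).1
    rw [h5, h6, h7, h8, hpy]
    refine ⟨?_, ?_⟩
    · rw [(b_TIN L a _ _ hH hH).2.2 _ _ (_root_.Pool.Agent.ME2F.FIB61.nmem hF t)]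
    · unfold dlX
      rw [mul_add, hper _ _ (_root_.Pool.Agent.ME2F.FIB61.nmem hF t)]
      have h9 : (a : ℂ) * (om * N * emb t) ∈ L.lattice := by
        have := nsmul_mem (_root_.Pool.Agent.ME2F.FIB61.nmem hF t) a
        rwa [nsmul_eq_mul] at this
      rw [hper _ _ h9]

end

end Pool.Agent.ME2F


end

section

/-!
# MUX-2R, block ER2, module CTX: from the standing hypotheses to `CtxF` (after `E_CTX.lean`, `R_ALC.lean`, `NS/F_CTX.lean`)

`ϖ = ⟨t, 1⟩`, `t = 0` for `A` even, `t = 1` for `A` odd; `x = ix t x + x.im ϖ`.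
-/

set_option autoImplicit false

namespace Pool.Agent.ME2F

open _root_.MU3 _root_.Pool.Agent.MU3A _root_.Pool.Agent.MU3B _root_.Pool.Agent.MUX _root_.Pool.Agent.MUXU
open _root_.Pool.Agent.RI _root_.Pool.Agent.NS
open _root_.Pool.Agent.ME hiding ActE
open _root_.Pool.Agent.MEE _root_.Pool.Agent.ME2
open _root_.Pool.Agent.MUXE (RingE)
open _root_.Pool.Agent.N2 (GoodQ OddQ dR et yt WT PTq)
open _root_.Pool.Agent.N2E (dlg cc Sd_LAG Sd_PRD)
open _root_.Pool.Agent.N2V (IsoU NN w0 bb Sv_COE Sv_GRT Sv_UNT Sv_RAT Sv_THT Sv_NE1 Sv_PVI Sv_TWO Sv_DS2)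
open _root_.Pool.Agent.ME2E (AutCE Sy_AUT Sy_GTA)
open _root_.Pool.Agent.N2R

noncomputable section

namespace CtxUaux

variable {A B : ℤ} {V : ValuationSubring ℂ}

/-- the integer part of `x = i + s ϖ`, `ϖ = ⟨t, 1⟩` -/
def ix (t : ℤ) (x : OO A 0) : ℤ := x.re - t * x.im

/-- `ϖ = ⟨t, 1⟩` -/
def pi (A t : ℤ) : OO A 0 := ⟨t, 1⟩

/-- the case distinction: `t = 0`, `A = 4 c + 2`, or `t = 1`, `A = 4 c - 1` -/
def Cs (A t : ℤ) : Prop := (t = 0 ∧ ∃ c, A = 4 * c + 2) ∨ (t = 1 ∧ ∃ c, A = 4 * c - 1)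

lemma _root_.Pool.Agent.ME2F.CtxUaux.ex_Cs (h : A % 4 = 2 ∨ A % 4 = 3) : ∃ t, Cs A t := by
  rcases h with h | h
  · exact ⟨0, Or.inl ⟨rfl, (A - 2) / 4, by omega⟩⟩
  · exact ⟨1, Or.inr ⟨rfl, (A + 1) / 4, by omega⟩⟩

lemma emb_eq (t : ℤ) (x : OO A 0) :
    emb x = ((ix t x : ℤ) : ℂ) + (x.im : ℂ) * emb (pi A t) := by
  unfold emb ix pi
  push_cast
  ring

lemma _root_.Pool.Agent.ME2F.CtxUaux.wsq (h : CQ A 0) : wC A 0 * wC A 0 = (A : ℂ) := by
  rw [MUX.wC_sq h]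
  push_cast
  ring

lemma _root_.Pool.Agent.ME2F.CtxUaux.v_pi (h : CQ A 0) (h2 : V.valuation (2 : ℂ) < 1) {t : ℤ} (ht : Cs A t) :
    V.valuation (emb (pi A t)) ^ 2 = V.valuation (2 : ℂ) := by
  have hw := _root_.Pool.Agent.ME2F.CtxUaux.wsq h
  rcases ht with ⟨rfl, c, hc⟩ | ⟨rfl, c, hc⟩
  · have h1 : emb (pi A 0) * emb (pi A 0) = 2 * (((2 * c + 1 : ℤ)) : ℂ) := by
      have h3 : (A : ℂ) = 4 * (c : ℂ) + 2 := by exact_mod_cast hc
      unfold emb pi
      push_cast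
      linear_combination hw + h3
    rw [sq, ← map_mul, h1, map_mul, ALC.v_odd h2 (by omega), mul_one]
  · have hu : V.valuation (emb (⟨2 * c, 1⟩ : OO A 0)) = 1 := by
      refine ALC.v_unit h h2 ?_
      have h8 : nm (⟨2 * c, 1⟩ : OO A 0) = 4 * c ^ 2 - A := by
        unfold nm
        simp only
        ring
      rw [h8]
      omega
    have h1 : emb (pi A 1) * emb (pi A 1) = 2 * emb (⟨2 * c, 1⟩ : OO A 0) := by
      have h3 : (A : ℂ) = 4 * (c : ℂ) - 1 := by exact_mod_cast hc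
      unfold emb pi
      push_cast
      linear_combination hw + h3
    rw [sq, ← map_mul, h1, map_mul, hu, mul_one]

lemma _root_.Pool.Agent.ME2F.CtxUaux.v_two0 : V.valuation (2 : ℂ) ≠ 0 := by
  rw [Valuation.ne_zero_iff]
  norm_num

lemma _root_.Pool.Agent.ME2F.CtxUaux.v_pi_lt (h : CQ A 0) (h2 : V.valuation (2 : ℂ) < 1) {t : ℤ} (ht : Cs A t) :
    V.valuation (emb (pi A t)) < 1 := by
  have h1 := _root_.Pool.Agent.ME2F.CtxUaux.v_pi h h2 ht
  refine not_le.1 fun h3 => ?_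
  have h4 : 1 ≤ V.valuation (emb (pi A t)) ^ 2 := one_le_pow₀ h3
  rw [h1] at h4
  exact not_lt.2 h4 h2

lemma lt_v_pi (h : CQ A 0) (h2 : V.valuation (2 : ℂ) < 1) {t : ℤ} (ht : Cs A t) :
    V.valuation (2 : ℂ) < V.valuation (emb (pi A t)) := by
  have h1 := _root_.Pool.Agent.ME2F.CtxUaux.v_pi h h2 ht
  refine not_le.1 fun h3 => ?_
  have h4 : V.valuation (emb (pi A t)) ^ 2 ≤ V.valuation (2 : ℂ) ^ 2 := pow_le_pow_left₀ zero_le h3 2
  rw [h1, sq] at h4
  have h5 : V.valuation (2 : ℂ) * V.valuation (2 : ℂ) < V.valuation (2 : ℂ) * 1 :=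
    (mul_lt_mul_iff_right₀ (zero_lt_iff.2 _root_.Pool.Agent.ME2F.CtxUaux.v_two0)).2 h2
  rw [mul_one] at h5
  exact not_lt.2 h4 h5

lemma v_even {n : ℤ} (hn : (2 : ℤ) ∣ n) :
    V.valuation (n : ℂ) ≤ V.valuation (2 : ℂ) := by
  obtain ⟨k, rfl⟩ := hn
  push_cast
  rw [map_mul]
  exact mul_le_of_le_one_right' (ALC.v_int V k)

lemma v_spi_le (t : ℤ) (s : ℤ) :
    V.valuation ((s : ℂ) * emb (pi A t)) ≤ V.valuation (emb (pi A t)) := by
  rw [map_mul]
  exact mul_le_of_le_one_left' (ALC.v_int V s)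

/-- `i` odd: a unit -/
lemma _root_.Pool.Agent.ME2F.CtxUaux.v_one (h : CQ A 0) (h2 : V.valuation (2 : ℂ) < 1) {t : ℤ} (ht : Cs A t) {x : OO A 0}
    (hx : ¬ (2 : ℤ) ∣ ix t x) : V.valuation (emb x) = 1 := by
  rw [emb_eq t x, Valuation.map_add_eq_of_lt_left]
  · exact ALC.v_odd h2 hx
  · rw [ALC.v_odd h2 hx]
    exact lt_of_le_of_lt (v_spi_le t _) (_root_.Pool.Agent.ME2F.CtxUaux.v_pi_lt h h2 ht)

/-- `i` even -/
lemma _root_.Pool.Agent.ME2F.CtxUaux.v_le (h : CQ A 0) (h2 : V.valuation (2 : ℂ) < 1) {t : ℤ} (ht : Cs A t) {x : OO A 0}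
    (hx : (2 : ℤ) ∣ ix t x) : V.valuation (emb x) ≤ V.valuation (emb (pi A t)) := by
  rw [emb_eq t x]
  refine Valuation.map_add_le _ ?_ (v_spi_le t _)
  exact (v_even hx).trans (lt_v_pi h h2 ht).le

/-- `i` even, `s` odd -/
lemma v_eq (h : CQ A 0) (h2 : V.valuation (2 : ℂ) < 1) {t : ℤ} (ht : Cs A t) {x : OO A 0}
    (hx : (2 : ℤ) ∣ ix t x) (hs : ¬ (2 : ℤ) ∣ x.im) :
    V.valuation (emb x) = V.valuation (emb (pi A t)) := by
  have h3 : V.valuation ((x.im : ℂ) * emb (pi A t)) = V.valuation (emb (pi A t)) := by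
    rw [map_mul, ALC.v_odd h2 hs, one_mul]
  rw [emb_eq t x, Valuation.map_add_eq_of_lt_right, h3]
  rw [h3]
  exact lt_of_le_of_lt (v_even hx) (lt_v_pi h h2 ht)

/-- `v x ≤ v 2`: divisible by 2 -/
lemma _root_.Pool.Agent.ME2F.CtxUaux.ex_half (h : CQ A 0) (h2 : V.valuation (2 : ℂ) < 1) {t : ℤ} (ht : Cs A t) {x : OO A 0}
    (hx : V.valuation (emb x) ≤ V.valuation (2 : ℂ)) : ∃ y : OO A 0, x = 2 * y := by
  have h3 : (2 : ℤ) ∣ ix t x := by
    by_contra hc
    rw [_root_.Pool.Agent.ME2F.CtxUaux.v_one h h2 ht hc] at hx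
    exact not_lt.2 hx h2
  have h4 : (2 : ℤ) ∣ x.im := by
    by_contra hc
    rw [v_eq h h2 ht h3 hc] at hx
    exact not_lt.2 hx (lt_v_pi h h2 ht)
  obtain ⟨a, ha⟩ := h3
  obtain ⟨b, hb⟩ := h4
  refine ⟨⟨a + t * b, b⟩, ?_⟩
  unfold ix at ha
  apply QuadraticAlgebra.ext
  · simp only [QuadraticAlgebra.re_mul, QuadraticAlgebra.re_ofNat, QuadraticAlgebra.im_ofNat]
    linear_combination ha + t * hb
  · simp only [QuadraticAlgebra.im_mul, QuadraticAlgebra.re_ofNat, QuadraticAlgebra.im_ofNat]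
    linear_combination hb

lemma _root_.Pool.Agent.ME2F.CtxUaux.v_two_mul (h : CQ A 0) (y : OO A 0) :
    V.valuation (emb (2 * y)) = V.valuation (2 : ℂ) * V.valuation (emb y) := by
  rw [MUX.emb_mul h, map_mul]
  have h1 := MUX.emb_natCast h 2
  rw [Nat.cast_ofNat] at h1
  rw [h1]
  norm_num

lemma _root_.Pool.Agent.ME2F.CtxUaux.dvd_iff (h : CQ A 0) (h2 : V.valuation (2 : ℂ) < 1) {t : ℤ} (ht : Cs A t) :
    ∀ (k : ℕ) (x : OO A 0), x ∈ idl (A := A) (B := 0) (2 ^ k) ↔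
      V.valuation (emb x) ≤ V.valuation (2 : ℂ) ^ k := by
  intro k
  induction k with
  | zero =>
    intro x
    refine ⟨fun _ => by rw [pow_zero]; exact ALC.v_emb h V x, fun _ => ?_⟩
    rw [Ideal.mem_span_singleton, pow_zero, Nat.cast_one]
    exact one_dvd x
  | succ k ih =>
    intro x
    constructor
    · intro hx
      obtain ⟨y, rfl⟩ := Ideal.mem_span_singleton.1 hx
      rw [MUX.emb_mul h, MUX.emb_natCast h, map_mul]
      push_cast
      rw [map_pow]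
      exact mul_le_of_le_one_right' (ALC.v_emb h V y)
    · intro hx
      have h3 : V.valuation (emb x) ≤ V.valuation (2 : ℂ) := by
        refine hx.trans ?_
        rw [pow_succ]
        exact mul_le_of_le_one_left' (pow_le_one₀ zero_le h2.le)
      obtain ⟨y, rfl⟩ := _root_.Pool.Agent.ME2F.CtxUaux.ex_half h h2 ht h3
      rw [_root_.Pool.Agent.ME2F.CtxUaux.v_two_mul h, pow_succ, mul_comm] at hx
      have h4 : V.valuation (emb y) ≤ V.valuation (2 : ℂ) ^ k :=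
        (mul_le_mul_iff_left₀ (zero_lt_iff.2 _root_.Pool.Agent.ME2F.CtxUaux.v_two0)).1 hx
      obtain ⟨z, rfl⟩ := Ideal.mem_span_singleton.1 ((ih y).2 h4)
      rw [Ideal.mem_span_singleton]
      refine ⟨z, ?_⟩
      push_cast
      ring

lemma _root_.Pool.Agent.ME2F.CtxUaux.two_sq {P : Ideal (OO A 0)} {t : ℤ} (ht : Cs A t) (h2 : (2 : OO A 0) ∈ P)
    (hp : pi A t ∈ P) : (2 : OO A 0) ∈ P ^ 2 := by
  have h22 : (2 : OO A 0) * 2 ∈ P ^ 2 := by rw [sq]; exact Ideal.mul_mem_mul h2 h2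
  have h2p : (2 : OO A 0) * pi A t ∈ P ^ 2 := by rw [sq]; exact Ideal.mul_mem_mul h2 hp
  have hpp : pi A t * pi A t ∈ P ^ 2 := by rw [sq]; exact Ideal.mul_mem_mul hp hp
  rcases ht with ⟨rfl, c, hc⟩ | ⟨rfl, c, hc⟩
  · have h1 : (2 : OO A 0) = pi A 0 * pi A 0 - (c : OO A 0) * (2 * 2) := by
      apply QuadraticAlgebra.ext
      · simp only [pi, QuadraticAlgebra.re_mul, QuadraticAlgebra.re_sub, QuadraticAlgebra.re_ofNat,
          QuadraticAlgebra.im_ofNat, QuadraticAlgebra.re_intCast, QuadraticAlgebra.im_intCast,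
          QuadraticAlgebra.im_mul, Int.cast_id]
        linear_combination -hc
      · simp only [pi, QuadraticAlgebra.re_mul, QuadraticAlgebra.im_sub, QuadraticAlgebra.re_ofNat,
          QuadraticAlgebra.im_ofNat, QuadraticAlgebra.re_intCast, QuadraticAlgebra.im_intCast,
          QuadraticAlgebra.im_mul, Int.cast_id]
        ring
    rw [h1]
    exact Ideal.sub_mem _ hpp (Ideal.mul_mem_left _ _ h22)
  · have h1 : (2 : OO A 0) = (c : OO A 0) * (2 * 2) + 2 * pi A 1 - pi A 1 * pi A 1 := by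
      apply QuadraticAlgebra.ext
      · simp only [pi, QuadraticAlgebra.re_mul, QuadraticAlgebra.re_sub, QuadraticAlgebra.re_ofNat,
          QuadraticAlgebra.im_ofNat, QuadraticAlgebra.re_intCast, QuadraticAlgebra.im_intCast,
          QuadraticAlgebra.im_mul, QuadraticAlgebra.re_add, Int.cast_id]
        linear_combination hc
      · simp only [pi, QuadraticAlgebra.re_mul, QuadraticAlgebra.im_sub, QuadraticAlgebra.re_ofNat,
          QuadraticAlgebra.im_ofNat, QuadraticAlgebra.re_intCast, QuadraticAlgebra.im_intCast,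
          QuadraticAlgebra.im_mul, QuadraticAlgebra.im_add, Int.cast_id]
        ring
    rw [h1]
    exact Ideal.sub_mem _ (Ideal.add_mem _ (Ideal.mul_mem_left _ _ h22) h2p) hpp

lemma _root_.Pool.Agent.ME2F.CtxUaux.nm_odd {t : ℤ} (ht : Cs A t) {x : OO A 0} (hx : ¬ (2 : ℤ) ∣ ix t x) :
    ¬ (2 : ℤ) ∣ nm x := by
  intro h1
  apply hx
  have h3 : (2 : ℤ) ∣ ix t x ^ 2 := by
    rcases ht with ⟨rfl, c, hc⟩ | ⟨rfl, c, hc⟩
    · have h4 : ix 0 x ^ 2 = nm x + 2 * ((2 * c + 1) * x.im ^ 2) := by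
        unfold nm ix
        linear_combination (x.im ^ 2) * hc
      rw [h4]
      exact dvd_add h1 (dvd_mul_right _ _)
    · have h4 : ix 1 x ^ 2 = nm x + 2 * (2 * c * x.im ^ 2 - x.re * x.im) := by
        unfold nm ix
        linear_combination (x.im ^ 2) * hc
      rw [h4]
      exact dvd_add h1 (dvd_mul_right _ _)
  exact Int.prime_two.dvd_of_dvd_pow h3

end CtxUaux

open _root_.Pool.Agent.ME2F.CtxUaux in
/-- (CTX) from the standing hypotheses to `CtxF` -/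
theorem t4_CTX : S4_CTX := by
  intro A B P V hC hB hP hV hT hRF
  obtain ⟨hF1, hF2⟩ := hRF A B P V hC hB hP hV hT
  have h := hC.toCQ
  have hmod : A % 4 = 2 ∨ A % 4 = 3 := by
    right
    rw [hC.hA]
    norm_num
  subst hB
  obtain ⟨t, ht⟩ := _root_.Pool.Agent.ME2F.CtxUaux.ex_Cs hmod
  have h2P : (2 : OO A 0) ∈ P := by
    have := hP.mem
    rwa [Nat.cast_ofNat] at this
  have h1P : (1 : OO A 0) ∉ P := fun h1 => hP.prime.ne_top ((Ideal.eq_top_iff_one P).2 h1)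
  have hv2 : V.valuation (2 : ℂ) < 1 := by
    have h1 := (hV ((2 : ℕ) : OO A 0)).2 hP.mem
    rw [ValuationSubring.mem_nonunits_iff, MUX.emb_natCast h] at h1
    simpa using h1
  have hunit : ∀ x : OO A 0, x ∉ P → V.valuation (emb x) = 1 := fun x hx =>
    le_antisymm (ALC.v_emb h V x) (not_lt.1 fun h1 =>
      hx ((hV x).1 ((ValuationSubring.mem_nonunits_iff V).2 h1)))
  have hlt : ∀ x : OO A 0, V.valuation (emb x) < 1 → x ∈ P := fun x hx =>
    (hV x).1 ((ValuationSubring.mem_nonunits_iff V).2 hx)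
  have hmem : ∀ x : OO A 0, x ∈ P ↔ (2 : ℤ) ∣ ix t x := by
    intro x
    constructor
    · intro hx
      by_contra hc
      have h3 := (ValuationSubring.mem_nonunits_iff V).1 ((hV x).2 hx)
      rw [_root_.Pool.Agent.ME2F.CtxUaux.v_one h hv2 ht hc] at h3
      exact lt_irrefl _ h3
    · intro hx
      exact hlt x (lt_of_le_of_lt (_root_.Pool.Agent.ME2F.CtxUaux.v_le h hv2 ht hx) (_root_.Pool.Agent.ME2F.CtxUaux.v_pi_lt h hv2 ht))
  have hone : ∀ x : OO A 0, x ∉ P → x - 1 ∈ P := by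
    intro x hx
    rw [hmem] at hx ⊢
    have e1 : ix t (x - 1) = ix t x - 1 := by
      unfold ix
      rw [QuadraticAlgebra.re_sub, QuadraticAlgebra.im_sub, QuadraticAlgebra.re_one,
        QuadraticAlgebra.im_one]
      ring
    rw [e1]
    omega
  have hpiP : pi A t ∈ P := hlt _ (_root_.Pool.Agent.ME2F.CtxUaux.v_pi_lt h hv2 ht)
  have h2sq := _root_.Pool.Agent.ME2F.CtxUaux.two_sq ht h2P hpiP
  have hdv := _root_.Pool.Agent.ME2F.CtxUaux.dvd_iff (V := V) h hv2 ht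
  have hpw1 : ∀ (k : ℕ) (x : OO A 0), x ∈ P ^ k →
      V.valuation (emb x) ^ 2 ≤ V.valuation (2 : ℂ) ^ k := by
    intro k
    induction k with
    | zero =>
      intro x _
      rw [pow_zero]
      exact pow_le_one₀ zero_le (ALC.v_emb h V x)
    | succ k ih =>
      intro x hx
      rw [pow_succ] at hx
      refine Submodule.mul_induction_on hx ?_ ?_
      · intro a ha b hb
        rw [MUX.emb_mul h, map_mul, mul_pow, pow_succ]
        refine mul_le_mul' (ih a ha) ?_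
        rw [← _root_.Pool.Agent.ME2F.CtxUaux.v_pi h hv2 ht]
        exact pow_le_pow_left₀ zero_le (_root_.Pool.Agent.ME2F.CtxUaux.v_le h hv2 ht ((hmem b).1 hb)) 2
      · intro a b ha hb
        rw [MUX.emb_add h]
        rcases le_max_iff.1 (Valuation.map_add V.valuation (emb a) (emb b)) with h3 | h3
        · exact (pow_le_pow_left₀ zero_le h3 2).trans ha
        · exact (pow_le_pow_left₀ zero_le h3 2).trans hb
  have hpw2 : ∀ (k : ℕ) (x : OO A 0), V.valuation (emb x) ^ 2 ≤ V.valuation (2 : ℂ) ^ k →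
      x ∈ P ^ k := by
    intro k
    induction k using Nat.twoStepInduction with
    | zero =>
      intro x _
      rw [pow_zero, Ideal.one_eq_top]
      exact Submodule.mem_top
    | one =>
      intro x hx
      rw [pow_one] at hx ⊢
      refine hlt x (not_le.1 fun h3 => ?_)
      exact not_lt.2 ((one_le_pow₀ h3).trans hx) hv2
    | more k ih _ =>
      intro x hx
      have h3 : V.valuation (emb x) ≤ V.valuation (2 : ℂ) := by
        refine not_lt.1 fun h4 => ?_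
        have h5 : V.valuation (2 : ℂ) ^ 2 < V.valuation (emb x) ^ 2 :=
          pow_lt_pow_left₀ h4 zero_le two_ne_zero
        refine not_lt.2 (hx.trans ?_) h5
        rw [pow_add]
        exact mul_le_of_le_one_left' (pow_le_one₀ zero_le hv2.le)
      obtain ⟨y, rfl⟩ := _root_.Pool.Agent.ME2F.CtxUaux.ex_half h hv2 ht h3
      rw [_root_.Pool.Agent.ME2F.CtxUaux.v_two_mul h, mul_pow, pow_add, mul_comm] at hx
      have h4 : V.valuation (emb y) ^ 2 ≤ V.valuation (2 : ℂ) ^ k :=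
        (mul_le_mul_iff_left₀ (zero_lt_iff.2 (pow_ne_zero 2 _root_.Pool.Agent.ME2F.CtxUaux.v_two0))).1 hx
      have h5 := Ideal.mul_mem_mul (ih y h4) h2sq
      rw [← pow_add] at h5
      rwa [mul_comm]
  refine
    { ring := Pool.Agent.MUXE.te_RNG A 0 h
      cq := h
      case := hC
      B0 := rfl
      mod := hmod
      v2 := hv2
      int := ALC.v_emb h V
      unit := hunit
      nat := ?_
      max := ?_
      one := hone
      nrm := fun x hx => _root_.Pool.Agent.ME2F.CtxUaux.nm_odd ht fun hc => hx ((hmem x).2 hc)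
      pi := ⟨pi A t, _root_.Pool.Agent.ME2F.CtxUaux.v_pi h hv2 ht⟩
      w0 := ?_
      pw := fun k x => ⟨hpw1 k x, hpw2 k x⟩
      dv := hdv
      good := ?_
      iner := hF2
      exq := ?_ }
  · intro n hn
    have := ALC.v_odd (V := V) hv2 (n := (n : ℤ)) (by omega)
    simpa using this
  · rw [Ideal.isMaximal_iff]
    refine ⟨h1P, ?_⟩
    intro J x hJ hx hxJ
    have h4 : (1 : OO A 0) = x - (x - 1) := by ring
    rw [h4]
    exact J.sub_mem hxJ (hJ (hone x hx))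
  · rw [MUX.emb_w, sq, ← map_mul, _root_.Pool.Agent.ME2F.CtxUaux.wsq h]
    rcases hmod with h3 | h3
    · have hd : dR A = 3 := by
        unfold dR
        rw [if_neg (by omega)]
      obtain ⟨c, hc⟩ : ∃ c : ℤ, A = 2 * (2 * c + 1) := ⟨(A - 2) / 4, by omega⟩
      have hc' : (A : ℂ) = 2 * ((2 * c + 1 : ℤ) : ℂ) := by exact_mod_cast hc
      rw [hd, hc', map_mul, ALC.v_odd hv2 (by omega), mul_one, pow_one]
    · have hd : dR A = 2 := by
        unfold dR
        rw [if_pos h3]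
      rw [hd, ALC.v_odd hv2 (by omega), pow_zero]
  · rintro L ⟨b, om, hL⟩
    obtain ⟨u, e, a1, a3, h1, -⟩ := hF1 b L om hL
    exact ⟨u, e, a1, a3, h1⟩
  · rintro L ⟨b, om, hL⟩
    have h20 : (2 : OO A 0) ≠ 0 := by
      intro h0
      have h1 := congrArg QuadraticAlgebra.re h0
      simp only [QuadraticAlgebra.re_ofNat, QuadraticAlgebra.re_zero] at h1
      norm_num at h1
    have hPb : P ≠ ⊥ := by
      rintro rfl
      exact h20 (Ideal.mem_bot.1 h2P)
    obtain ⟨σ, -, hσ⟩ := hT.surj ⊤ (by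
      intro h0
      have h4 : (2 : OO A 0) ∈ (⊤ : Ideal (OO A 0)) := Submodule.mem_top
      rw [h0] at h4
      exact h20 (Ideal.mem_bot.1 h4)) P hPb (Ideal.isCoprime_iff_sup_eq.2 (sup_top_eq _))
    obtain ⟨b', L', om', mu, hL', hact⟩ := hσ b L om hL
    exact ⟨L', mu, ⟨b', om', hL'⟩, hact.isq⟩

end

end Pool.Agent.ME2F


end

section

/-!
# MUX-2R, block ER2: the points of exact order `P^(j+1)` (TPU), `2` ramified

Adapted from `NS/F_TPR.lean` (helper1).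
-/

set_option autoImplicit false

open Polynomial

namespace Pool.Agent.ME2F

open _root_.MU3 _root_.Pool.Agent.MU3A _root_.Pool.Agent.MU3B _root_.Pool.Agent.MUX _root_.Pool.Agent.MUXU
open _root_.Pool.Agent.RI _root_.Pool.Agent.NS
open _root_.Pool.Agent.ME hiding ActE
open _root_.Pool.Agent.MEE _root_.Pool.Agent.ME2
open _root_.Pool.Agent.MUXE (RingE)
open _root_.Pool.Agent.N2 (GoodQ OddQ dR et yt WT PTq)
open _root_.Pool.Agent.N2E (dlg cc Sd_LAG Sd_PRD)
open _root_.Pool.Agent.N2V (IsoU NN w0 bb Sv_COE Sv_GRT Sv_UNT Sv_RAT Sv_THT Sv_NE1 Sv_PVI Sv_TWO Sv_DS2)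
open _root_.Pool.Agent.ME2E (AutCE Sy_AUT Sy_GTA)
open _root_.Pool.Agent.NSE (IntP)
open _root_.Pool.Agent.MUX2 (GRG)
open _root_.Pool.Agent.MUXV (InK tX)

noncomputable section

namespace TPU

theorem lt_one_of_sq {Γ : Type*} [LinearOrderedCommGroupWithZero Γ] {a b : Γ}
    (h : a ^ 2 = b) (hb : b < 1) : a < 1 := by
  by_contra hc
  have hc' : 1 ≤ a := not_lt.1 hc
  have h1 : 1 ≤ a ^ 2 := one_le_pow₀ hc'
  rw [h] at h1
  exact absurd hb (not_lt.2 h1)

theorem one_lt_of {Γ : Type*} [LinearOrderedCommGroupWithZero Γ] {T π : Γ}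
    (h : π * T = 1) (hπ : π < 1) : 1 < T := by
  by_contra hc
  have hc' : T ≤ 1 := not_lt.1 hc
  have h2 : π * T < 1 := lt_of_le_of_lt (mul_le_of_le_one_right' hc') hπ
  rw [h] at h2
  exact lt_irrefl _ h2

/-- the coordinate is periodic -/
theorem xu_per (L : PeriodPair) (u e : ℂ) {z w : ℂ} (h : z - w ∈ L.lattice) :
    xu L u e z = xu L u e w := by
  unfold xu
  have h1 := L.weierstrassP_add_coe w ⟨z - w, h⟩
  have h2 : w + (z - w) = z := by ring
  rw [show w + ((⟨z - w, h⟩ : L.lattice) : ℂ) = z from h2] at h1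
  rw [h1]

/-- the claim of the induction -/
theorem _root_.Pool.Agent.ME2F.TPU.claim (h2 : Sv_GRT) (h4 : S4_PST) {A B : ℤ} {P : Ideal (OO A B)} {V : ValuationSubring ℂ}
    (h : CtxF A B P V) (j : ℕ) : ∀ (L : PeriodPair) (u e a1 a3 : ℂ), NLE A B L →
      GoodQ V L u e a1 a3 → ∀ z, Tor (P ^ (j + 1)) L z → ¬ Tor (P ^ j) L z →
      InK V L (xu L u e) z ∧ z ∉ L.lattice ∧ 1 < V.valuation (xu L u e z) ∧
      V.valuation (2 : ℂ) * V.valuation (xu L u e z) ^ (2 ^ j) = 1 := by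
  obtain ⟨φ, hφ⟩ := h.ring.hom
  have embn : ∀ n : ℕ, emb ((n : ℕ) : OO A B) = n := fun n => by rw [← hφ, map_natCast]
  have hv2 := h.v2
  have mem2 : ((2 : ℕ) : OO A B) ∈ P := by
    have h8 := (h.pw 1 ((2 : ℕ) : OO A B)).2 (by
      rw [embn, pow_one, Nat.cast_ofNat, sq]
      exact mul_le_of_le_one_right' hv2.le)
    rwa [pow_one] at h8
  induction j with
  | zero =>
    intro L u e a1 a3 hL hg z hz hz0
    obtain ⟨tra1, -⟩ := tm_TRA A B h.ring L hL
    have hzL : z ∉ L.lattice := fun h8 => hz0 fun x _ => tra1 x z h8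
    rw [zero_add, pow_one] at hz
    obtain ⟨N, ν, hN, hQ⟩ := h.exq L hL
    obtain ⟨u', e', a1', a3', hg'⟩ := h.good N hN
    obtain ⟨-, q, k1, k2, k3, k4⟩ := h4 A B P V h L N ν u e a1 a3 u' e' a1' a3' hL hN hQ hg hg'
    obtain ⟨q', hq', hzq⟩ := k3.surj z ((hQ.2 z).2 hz) hzL
    rw [Finset.mem_singleton] at hq'
    rw [hq'] at hzq
    have hx := xu_per L u e hzq
    have h1 := one_lt_of k4 hv2
    rw [← hx] at h1 k4
    refine ⟨Or.inr fun hin => ?_, hzL, h1, by simpa using k4⟩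
    exact absurd h1 (not_lt.2 ((V.valuation_le_one_iff _).2 hin))
  | succ j ih =>
    intro L u e a1 a3 hL hg z hz hz0
    obtain ⟨tra1, tra2, tra3, tra4, tra5, tra6, tra7, tra8, tra9⟩ := tm_TRA A B h.ring L hL
    obtain ⟨N, ν, hN, hQ⟩ := h.exq L hL
    obtain ⟨u', e', a1', a3', hg'⟩ := h.good N hN
    obtain ⟨hmu, q, k1, k2, k3, k4⟩ := h4 A B P V h L N ν u e a1 a3 u' e' a1' a3' hL hN hQ hg hg'
    have hν : ν ≠ 0 := hQ.1
    have hTor : ∀ z, ν * z ∈ N.lattice ↔ Tor P L z := hQ.2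
    have hIsg : Isg L N ν := fun w hw => (hTor w).2 (fun x _ => tra1 x w hw)
    obtain ⟨⟨ξ, G⟩, hodd⟩ := h2 V L u e a1 a3 hg hv2
    have hodd' := (h2 V N u' e' a1' a3' hg' hv2).2
    have hu := hg.u0
    have hu' := hg'.u0
    have hzL : z ∉ L.lattice := fun h8 => hz0 fun x _ => tra1 x z h8
    -- the point of order 5
    have hw5 : ((5 : ℕ) : ℂ) * (L.ω₁ / 5) ∈ L.lattice := by
      have h8 : ((5 : ℕ) : ℂ) * (L.ω₁ / 5) = L.ω₁ := by
        push_cast
        ring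
      rw [h8]
      exact L.ω₁_mem_lattice
    have n1 := Pool.Agent.MUXE.TP.fifth L
    set w : ℂ := L.ω₁ / 5 with hw
    have i1 : ¬ InK V L (xu L u e) w := fun hin =>
      n1 ((hodd 5 (by norm_num)).2 w hw5 hin)
    have m1 : ν * w ∉ N.lattice := by
      intro h8
      have h9 := (hTor w).1 h8 _ mem2
      rw [embn] at h9
      apply n1
      have h10 := sub_mem hw5 (add_mem h9 h9)
      have h11 : ((5 : ℕ) : ℂ) * w - (((2 : ℕ) : ℂ) * w + ((2 : ℕ) : ℂ) * w) = w := by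
        push_cast
        ring
      rwa [h11] at h10
    have i1' : ¬ InK V N (xu N u' e') (ν * w) := by
      intro hin
      refine m1 ((hodd' 5 (by norm_num)).2 _ ?_ hin)
      have h8 := hIsg _ hw5
      rwa [show ν * (((5 : ℕ) : ℂ) * w) = ((5 : ℕ) : ℂ) * (ν * w) by ring] at h8
    -- the point `z' = ν z`
    have hz1 : Tor (P ^ (j + 1)) N (ν * z) := by
      intro x hx
      have h8 : Tor P L (emb x * z) := by
        apply tra6 (P ^ (j + 1)) P x z hx
        rw [← pow_succ]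
        exact hz
      have h9 := (hTor _).2 h8
      rwa [show ν * (emb x * z) = emb x * (ν * z) by ring] at h9
    have hz2 : ¬ Tor (P ^ j) N (ν * z) := by
      intro h8
      apply hz0
      rw [pow_succ]
      apply tra7
      intro x hx
      have h9 := h8 x hx
      rw [show emb x * (ν * z) = ν * (emb x * z) by ring] at h9
      exact (hTor _).1 h9
    obtain ⟨y1, y2, y3, y4⟩ := ih N u' e' a1' a3' hN hg' (ν * z) hz1 hz2
    have hq1 := one_lt_of k4 hv2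
    have hqK : InK V L (xu L u e) q := Or.inr fun hin =>
      absurd hq1 (not_lt.2 ((V.valuation_le_one_iff _).2 hin))
    -- the product formula
    have pf := u_PFI L N ν {q} hν hIsg k3 w m1 z y2
    have xd : ∀ a b : ℂ, L.weierstrassP a - L.weierstrassP b =
        u ^ 2 * (xu L u e a - xu L u e b) := by
      intro a b
      unfold xu
      field_simp
      ring
    have xd' : ∀ a b : ℂ, N.weierstrassP a - N.weierstrassP b =
        u' ^ 2 * (xu N u' e' a - xu N u' e' b) := by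
      intro a b
      unfold xu
      field_simp
      ring
    have pf' : (ν * u' / u) ^ 2 * (xu N u' e' (ν * z) - xu N u' e' (ν * w)) *
        ∏ q ∈ ({q} : Finset ℂ), (xu L u e z - xu L u e q) =
        (xu L u e z - xu L u e w) *
          ∏ q ∈ ({q} : Finset ℂ), (xu L u e z - xu L u e (w + q)) := by
      rw [Finset.prod_singleton, Finset.prod_singleton] at pf ⊢
      rw [xd, xd, xd, xd'] at pf
      apply mul_left_cancel₀ (mul_ne_zero (pow_ne_zero 2 hu) (pow_ne_zero 2 hu))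
      have e1 : u ^ 2 * (ν * u' / u) ^ 2 = ν ^ 2 * u' ^ 2 := by
        field_simp
      linear_combination pf + (u ^ 2 *
        (xu N u' e' (ν * z) - xu N u' e' (ν * w)) * (xu L u e z - xu L u e q)) * e1
    have hm0 : V.valuation (ν * u' / u) ≠ 0 :=
      (Valuation.ne_zero_iff _).2 (div_ne_zero (mul_ne_zero hν hu') hu)
    have hm1 : V.valuation (ν * u' / u) < 1 := lt_one_of_sq hmu hv2
    obtain ⟨X1, X2⟩ := Pool.Agent.MUXE.TP.num V.valuation 2 (2 ^ j) (by norm_num) (by positivity) {q}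
      (Finset.card_singleton q)
      (ν * u' / u) (xu N u' e' (ν * z)) (xu N u' e' (ν * w)) (xu L u e z) (xu L u e w)
      (fun q => xu L u e q) (fun q => xu L u e (w + q)) (V.valuation (xu L u e q))
      (V.valuation (ν * u' / u)) hm0 hm1 rfl
      (by rw [hmu]; simpa using k4)
      hq1 (fun q' hq' => by rw [Finset.mem_singleton.1 hq'])
      (fun q' hq' => by
        rw [Finset.mem_singleton.1 hq']
        exact (Pool.Agent.MUXV.int_X (fun hin => i1 (by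
          have := Pool.Agent.MUX2.gInK_sub G hin hqK
          rwa [add_sub_cancel_right] at this))).2)
      (Pool.Agent.MUXV.int_X i1).2 (Pool.Agent.MUXV.int_X i1').2
      y3 (by rw [hmu]; simpa using y4) pf'
    refine ⟨Or.inr fun hin => ?_, hzL, X1, ?_⟩
    · exact absurd X1 (not_lt.2 ((V.valuation_le_one_iff _).2 hin))
    · rw [← y4, ← X2, ← pow_mul, pow_succ' 2 j]

end TPU

open _root_.Pool.Agent.ME2F.TPU in
theorem t4_TPU (h2 : Sv_GRT) (h4 : S4_PST) : S4_TPU := by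
  intro A B P V h j L u e a1 a3 hL hg z hz hz0
  obtain ⟨k1, k2, k3, k4⟩ := _root_.Pool.Agent.ME2F.TPU.claim h2 h4 h j L u e a1 a3 hL hg z hz hz0
  refine ⟨k1, k2, ?_⟩
  obtain ⟨⟨ξ, G⟩, -⟩ := h2 V L u e a1 a3 hg h.v2
  obtain ⟨-, -, h5⟩ := Pool.Agent.MUX2.gv_tX_lt G k1 k2
  have hx0 : V.valuation (xu L u e z) ^ (2 ^ j) ≠ 0 := by
    refine pow_ne_zero _ fun h0 => ?_
    rw [h0] at k3
    exact absurd k3 (not_lt.2 zero_le)
  apply mul_left_cancel₀ hx0
  rw [mul_comm _ (V.valuation (2 : ℂ)), k4, pow_succ' 2 j, pow_mul, ← mul_pow, h5, one_pow]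

end

end Pool.Agent.ME2F


end

section

/-!
# MUX-2R, block ER2: one step `L → N = ν P⁻¹ L` (PST), `2 = P²` ramified in `k` (helper78)

The kernel of one step has one nonzero class, which gives a lower bound for the multiplier; the
composition of two steps has the kernel of multiplication by `2`, so both bounds are equalities.
-/

set_option autoImplicit false

open Polynomial

namespace Pool.Agent.ME2F

open _root_.MU3 _root_.Pool.Agent.MU3A _root_.Pool.Agent.MU3B _root_.Pool.Agent.MUX _root_.Pool.Agent.MUXU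
open _root_.Pool.Agent.RI _root_.Pool.Agent.NS
open _root_.Pool.Agent.ME hiding ActE
open _root_.Pool.Agent.MEE _root_.Pool.Agent.ME2
open _root_.Pool.Agent.MUXE (RingE)
open _root_.Pool.Agent.N2 (GoodQ OddQ dR et yt WT PTq)
open _root_.Pool.Agent.N2E (dlg cc Sd_LAG Sd_PRD)
open _root_.Pool.Agent.N2V (IsoU NN w0 bb Sv_COE Sv_GRT Sv_UNT Sv_RAT Sv_THT Sv_NE1 Sv_PVI Sv_TWO Sv_DS2)
open _root_.Pool.Agent.ME2E (AutCE Sy_AUT Sy_GTA)
open _root_.Pool.Agent.NSE (IntP)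
open _root_.Pool.Agent.MUX2 (GRG)
open _root_.Pool.Agent.MUXV (InK tX)

noncomputable section

namespace PST

variable {A B : ℤ} {P : Ideal (OO A B)} {V : ValuationSubring ℂ}

/-- `2 ∈ P` -/
theorem two_mem (h : CtxF A B P V) : ((2 : ℕ) : OO A B) ∈ P := by
  obtain ⟨φ, hφ⟩ := h.ring.hom
  have embn : ∀ n : ℕ, emb ((n : ℕ) : OO A B) = n := fun n => by rw [← hφ, map_natCast]
  have h1 := (h.pw 1 ((2 : ℕ) : OO A B)).2 (by
    rw [embn, pow_one]
    push_cast
    have h2 : V.valuation (2 : ℂ) ≤ 1 := h.v2.le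
    calc V.valuation (2 : ℂ) ^ 2 = V.valuation (2 : ℂ) * V.valuation (2 : ℂ) := pow_two _
      _ ≤ V.valuation (2 : ℂ) * 1 := mul_le_mul_right h2 _
      _ = V.valuation (2 : ℂ) := mul_one _)
  rwa [pow_one] at h1

/-- the first part of one step -/
theorem _root_.Pool.Agent.ME2F.PST.step (hTWO : Sv_TWO) (hPVI : Sv_PVI) (hBAC : Su_BAC) (h : CtxF A B P V)
    {L N : PeriodPair} {nu u e a1 a3 u' e' a1' a3' : ℂ} (hL : NLE A B L) (hQ : IsQ P L N nu)
    (hg : GoodQ V L u e a1 a3) (hg' : GoodQ V N u' e' a1' a3') :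
    ∃ q, Tor P L q ∧ q ∉ L.lattice ∧ IsRpM L N nu {q} ∧
      V.valuation (nu * u' / u) ^ 2 * V.valuation (xu L u e q) = 1 ∧
      V.valuation (2 : ℂ) ≤ V.valuation (nu * u' / u) ^ 2 := by
  obtain ⟨φ, hφ⟩ := h.ring.hom
  have embn : ∀ n : ℕ, emb ((n : ℕ) : OO A B) = n := fun n => by rw [← hφ, map_natCast]
  have mem2 := two_mem h
  have hPbot : P ≠ ⊥ := by
    intro h0
    rw [h0, Ideal.mem_bot] at mem2
    have h9 := embn 2
    rw [mem2, ← hφ, map_zero] at h9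
    norm_num at h9
  obtain ⟨tra1, -⟩ := tm_TRA A B h.ring L hL
  have hν : nu ≠ 0 := hQ.1
  have hTor : ∀ z, nu * z ∈ N.lattice ↔ Tor P L z := hQ.2
  have hIsg : Isg L N nu := fun w hw => (hTor w).2 (fun x _ => tra1 x w hw)
  obtain ⟨⟨R, hR⟩, -⟩ := hBAC.2 L N nu hν hIsg
  have torR : ∀ q ∈ R, Tor P L q := fun q hq => (hTor q).1 (hR.mem q hq)
  obtain ⟨two1, two2, -, -⟩ := hTWO V L u e a1 a3 hg h.v2
  have tor2 : ∀ q, Tor P L q → 2 * q ∈ L.lattice := by
    intro q hq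
    have := hq _ mem2
    rw [embn] at this
    exact_mod_cast this
  have cong : ∀ q q', Tor P L q → Tor P L q' → q ∉ L.lattice → q' ∉ L.lattice →
      q' - q ∈ L.lattice := by
    intro q q' hq hq' hqL hqL'
    obtain ⟨x, hx⟩ := (tm_TRB A B h.ring L hL).2 P hPbot h.max q q' hq hq' hqL
    by_cases hxP : x ∈ P
    · exfalso
      apply hqL'
      have := add_mem hx (hq x hxP)
      rwa [sub_add_cancel] at this
    · have h9 := add_mem hx (hq _ (h.one x hxP))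
      rw [← hφ (x - 1), map_sub, map_one, hφ] at h9
      convert h9 using 1
      ring
  obtain ⟨q0', hq0', hq0L'⟩ : ∃ q, Tor P L q ∧ q ∉ L.lattice := by
    obtain ⟨q, k1, k2⟩ := (tm_TRB A B h.ring L hL).1 ⊤ P hPbot h.max.ne_top.lt_top
    exact ⟨q, k1, fun h8 => k2 fun x _ => tra1 x q h8⟩
  obtain ⟨q0, hq0R, -⟩ := hR.surj q0' ((hTor q0').2 hq0') hq0L'
  have hq0L := hR.ne q0 hq0R
  have hq0T := torR q0 hq0R
  have hR1 : R = {q0} := by
    ext q
    rw [Finset.mem_singleton]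
    constructor
    · intro hq
      exact hR.inj q hq q0 hq0R (cong q0 q hq0T (torR q hq) hq0L (hR.ne q hq))
    · rintro rfl
      exact hq0R
  rw [hR1] at hR
  obtain ⟨t1, t2⟩ := two1 q0 (tor2 q0 hq0T) hq0L
  have p1 := hPVI V L N u e a1 a3 u' e' a1' a3' nu hg hg' h.v2 hν hIsg {q0} hR (by
    intro q hq
    rw [Finset.mem_singleton] at hq
    rw [hq]
    refine two2 1 q0 ?_
    rw [pow_one]
    exact tor2 q0 hq0T)
  rw [Finset.prod_singleton] at p1
  refine ⟨q0, hq0T, hq0L, hR, p1, ?_⟩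
  have hX : 0 < V.valuation (xu L u e q0) := lt_trans zero_lt_one t1
  rw [← p1] at t2
  exact le_of_mul_le_mul_right t2 hX

end PST

open _root_.Pool.Agent.ME2F.PST in
theorem t4_PST (hTWO : Sv_TWO) (hPVI : Sv_PVI) (hBAC : Su_BAC) : S4_PST := by
  intro A B P V h L N nu u e a1 a3 u' e' a1' a3' hL hN hQ hg hg'
  obtain ⟨φ, hφ⟩ := h.ring.hom
  have embn : ∀ n : ℕ, emb ((n : ℕ) : OO A B) = n := fun n => by rw [← hφ, map_natCast]
  have hv0 : V.valuation (2 : ℂ) ≠ 0 := (Valuation.ne_zero_iff _).2 (by norm_num)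
  obtain ⟨q, s1, s2, s3, s4, s5⟩ := _root_.Pool.Agent.ME2F.PST.step hTWO hPVI hBAC h hL hQ hg hg'
  obtain ⟨N', nu', hN', hQ'⟩ := h.exq N hN
  obtain ⟨u'', e'', a1'', a3'', hg''⟩ := h.good N' hN'
  obtain ⟨-, -, -, -, -, r5⟩ := _root_.Pool.Agent.ME2F.PST.step hTWO hPVI hBAC h hN hQ' hg' hg''
  obtain ⟨tra1, tra2, tra3, tra4, tra5, tra6, tra7, -⟩ := tm_TRA A B h.ring L hL
  have hu' := hg'.u0
  -- the kernel of the composition
  have ker : ∀ z, nu * nu' * z ∈ N'.lattice ↔ 2 * z ∈ L.lattice := by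
    intro z
    rw [show nu * nu' * z = nu' * (nu * z) by ring, hQ'.2 (nu * z)]
    constructor
    · intro hz
      have h1 : Tor (P * P) L z := by
        apply tra7
        intro x hx
        have h2 := hz x hx
        rw [show emb x * (nu * z) = nu * (emb x * z) by ring] at h2
        exact (hQ.2 _).1 h2
      have h3 : ((2 : ℕ) : OO A B) ∈ P * P := by
        rw [← pow_two]
        refine (h.pw 2 _).2 ?_
        rw [embn]
        push_cast
        exact le_rfl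
      have h4 := h1 _ h3
      rw [embn] at h4
      exact_mod_cast h4
    · intro hz x hx
      rw [show emb x * (nu * z) = nu * (emb x * z) by ring]
      refine (hQ.2 _).2 fun p hp => ?_
      have h1 : p * x ∈ P ^ 2 := by
        rw [pow_two]
        exact Ideal.mul_mem_mul hp hx
      have h2 : p * x ∈ idl (A := A) (B := B) (2 ^ 1) := by
        refine (h.dv 1 _).2 ?_
        rw [pow_one]
        exact (pow_le_pow_iff_left₀ zero_le zero_le two_ne_zero).1 ((h.pw 2 _).1 h1)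
      unfold idl at h2
      rw [Ideal.mem_span_singleton] at h2
      obtain ⟨y, hy⟩ := h2
      have h3 : emb p * (emb x * z) = emb y * (2 * z) := by
        have h4 : emb (p * x) = emb p * emb x := by rw [← hφ, map_mul, hφ, hφ]
        rw [← mul_assoc, ← h4, hy, ← hφ, map_mul, hφ y]
        push_cast
        rw [map_ofNat]
        ring
      rw [h3]
      exact tra1 y _ hz
  have hIsg2 : Isg L L 2 := by
    intro w hw
    rw [two_mul]
    exact add_mem hw hw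
  have hIsg' : Isg L N' (nu * nu') := fun w hw => (ker w).2 (hIsg2 w hw)
  obtain ⟨⟨R, hR⟩, -⟩ := hBAC.2 L L 2 (by norm_num) hIsg2
  have hR' : IsRpM L N' (nu * nu') R :=
    ⟨fun q hq => (ker q).2 (hR.mem q hq), hR.ne, hR.inj, fun z hz => hR.surj z ((ker z).1 hz)⟩
  obtain ⟨-, two2, two3, -⟩ := hTWO V L u e a1 a3 hg h.v2
  have p1 := hPVI V L N' u e a1 a3 u'' e'' a1'' a3'' (nu * nu') hg hg'' h.v2
    (mul_ne_zero hQ.1 hQ'.1) hIsg' R hR' (fun q hq => two2 1 q (by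
      rw [pow_one]
      exact hR.mem q hq))
  have p2 := two3 R hR
  have hprod : ∏ q ∈ R, V.valuation (xu L u e q) ≠ 0 := by
    intro h0
    rw [h0, mul_zero] at p2
    exact zero_ne_one p2
  have p3 : V.valuation (nu * nu' * u'' / u) ^ 2 = V.valuation (2 : ℂ) ^ 2 :=
    mul_right_cancel₀ hprod (p1.trans p2.symm)
  have e1 : nu * nu' * u'' / u = (nu * u' / u) * (nu' * u'' / u') := by
    field_simp
  rw [e1, map_mul, mul_pow] at p3
  have key : V.valuation (nu * u' / u) ^ 2 = V.valuation (2 : ℂ) := by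
    refine le_antisymm ?_ s5
    have h1 : V.valuation (nu * u' / u) ^ 2 * V.valuation (2 : ℂ) ≤
        V.valuation (2 : ℂ) * V.valuation (2 : ℂ) := by
      calc V.valuation (nu * u' / u) ^ 2 * V.valuation (2 : ℂ)
          ≤ V.valuation (nu * u' / u) ^ 2 * V.valuation (nu' * u'' / u') ^ 2 :=
            mul_le_mul_right r5 _
        _ = V.valuation (2 : ℂ) ^ 2 := p3
        _ = V.valuation (2 : ℂ) * V.valuation (2 : ℂ) := pow_two _
    exact le_of_mul_le_mul_right h1 (zero_lt_iff.2 hv0)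
  refine ⟨key, q, s1, s2, s3, ?_⟩
  rw [← key]
  exact s4

end

end Pool.Agent.ME2F


end

section

/-!
# MUX-2N, block E2N, module AUT: automorphisms of `ℂ` which act as a principal ideal. Model:
`Pool/Agent/MUX/E_GAL.lean` (helper44), whose lemmas are used
-/

set_option autoImplicit false

open Polynomial

namespace Pool.Agent.ME2E

open _root_.MU3 _root_.Pool.Agent.MU3A _root_.Pool.Agent.MU3B _root_.Pool.Agent.MUX _root_.Pool.Agent.MUXU
open _root_.Pool.Agent.RI _root_.Pool.Agent.NS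
open _root_.Pool.Agent.ME hiding ActE
open _root_.Pool.Agent.MEE _root_.Pool.Agent.ME2
open _root_.Pool.Agent.MUXE (RingE)
open _root_.Pool.Agent.N2 (GoodT et yt WT IsTei2 OddT PTq)
open _root_.Pool.Agent.N2E (dlg del cc IsoT Sd_LAG Sd_PRD Sd_COE Sd_GRT Sd_TPT Sd_UNT Sd_RAT Sd_THT Sd_DST Sd_NE1 Sd_PRT)
open _root_.Pool.Agent.NSE (IntP)
open _root_.Pool.Agent.MUX2 (GRG)
open _root_.Pool.Agent.MUXV (InK tX)

noncomputable section

/-- (AUT) -/
theorem ty_AUT : Sy_AUT := by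
  intro A B hCE hR T hN m hm hm2 c hc0 hc hc1
  obtain ⟨s, hs, hact⟩ := T.surj m hm (sp c)
    (fun h => hc0 (Ideal.span_singleton_eq_bot.1 h)) hc
  obtain ⟨L₀, b₀, om₀, hL₀⟩ := hN
  obtain ⟨b₁, L₁, om₁, mu₁, hL₁, hA₁⟩ := hact b₀ L₀ om₀ hL₀
  have hmu : ∀ (b : Ideal (OO A B)) (L L' : PeriodPair) (om mu : ℂ), IsNE b L om →
      ME.ActE s m (sp c) L L' mu → NrmE A B L' → mu = emb c ∨ mu = -emb c := by
    intro b L L' om mu hL hA hn
    obtain ⟨c', h1, h2, h3⟩ := T.two m (sp c) s b L L' om mu hm hm2 hs hL hA hn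
    rcases GalX.gens hCE hR h2 hc1 h3 with h | h
    · left
      rw [h1, h]
    · right
      rw [h1, h]
      obtain ⟨φ, hφ⟩ := hR.hom
      rw [← hφ, map_neg, hφ]
  refine ⟨s, hs, ?_, ?_, ?_, ?_⟩
  · rintro L ⟨b, om, hL⟩
    obtain ⟨b', L', om', mu, hL', hA⟩ := hact b L om hL
    rw [← hA.kapE, (GalX.core hR hL hA.isq (hmu b L L' om mu hL hA hL'.nrm)).1]
  · rintro L ⟨b, om, hL⟩ z hz hz'
    obtain ⟨b', L', om', mu, hL', hA⟩ := hact b L om hL
    have h2 := hmu b L L' om mu hL hA hL'.nrm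
    obtain ⟨h1, h3, h4⟩ := GalX.core hR hL hA.isq h2
    rcases hA.act z hz with ⟨h5, -⟩ | ⟨-, h6, h7, -⟩
    · exact absurd h5 hz'
    · rw [← h3] at h6
      have h8 : emb c * z ∉ L.lattice := by
        rcases h2 with h | h
        · rw [← h]
          exact h6
        · intro h9
          apply h6
          rw [h, neg_mul]
          exact neg_mem h9
      refine ⟨h8, ?_⟩
      rw [h7]
      unfold xnE
      rw [h4]
      rcases h2 with h | h
      · rw [h]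
      · rw [h, neg_mul, L.weierstrassP_neg]
  · intro m' hmm hm2' hc1 y hy
    have hm' : m' ≠ ⊥ := by
      intro h0
      exact hm (le_bot_iff.1 (h0 ▸ hmm))
    have hA' : ME.ActE s m' (sp c) L₀ L₁ mu₁ := by
      refine ⟨hA₁.kapE, ?_, hA₁.isq, fun z hz => hA₁.act z fun x hx => hz x (hmm hx)⟩
      rw [Ideal.isCoprime_iff_sup_eq] at hc ⊢
      rw [eq_top_iff, ← hc]
      exact sup_le_sup_left hmm _
    exact (T.triv m' (sp c) s b₀ L₀ L₁ om₀ mu₁ hm' (Or.inl hm2') hs hL₀ hA' hL₁.nrm).2 ⟨c, hc1, rfl⟩ y hy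
  · intro M hM hmM z hz
    exact (T.zeta M m (sp c) s b₀ L₀ L₁ om₀ mu₁ hm hs hM hmM hL₀ hA₁ z hz).2

end

end Pool.Agent.ME2E


end

section

/-!
# MUX-2R, block ER2, module SIG: integral elements of the ray class field are polynomials in `x(Q)` (port of `N2/E_SIG.lean`)
-/

set_option autoImplicit false

open Polynomial

namespace Pool.Agent.N2V

open _root_.MU3 _root_.Pool.Agent.MU3A _root_.Pool.Agent.MU3B _root_.Pool.Agent.MUX _root_.Pool.Agent.MUXU _root_.Pool.Agent.MUXE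
open _root_.Pool.Agent.RI _root_.Pool.Agent.NS _root_.Pool.Agent.N2
open _root_.Pool.Agent.NSE (IntP)
open _root_.Pool.Agent.NSE.SIG (rat_mem intP_sum)
open _root_.Pool.Agent.MUX2 (GRG)
open _root_.Pool.Agent.MUXV (InK tX)
open _root_.Pool.Agent.N2E (AutC)

noncomputable section

theorem tv_SIG (h2 : Sv_GRT) (h3 : Sv_TPU) (h5 : Sv_DEG) : Sv_SIG := by
  intro A B P V n f a m m' S L om u e a1 a3 hL hgood w hw hvw
  obtain ⟨hC, hT, hn, hf, h3f, h2f, -, h2a, -, rfl, rfl⟩ := S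
  have hR := hC.ring
  have hG : GalE A B := te_GAL A B hR hT
  obtain ⟨φ, hφ⟩ := hR.hom
  have hmul : ∀ x y : OO A B, emb (x * y) = emb x * emb y := fun x y => by
    rw [← hφ, map_mul, hφ, hφ]
  have hnat : ∀ k : ℕ, emb ((k : ℕ) : OO A B) = k := fun k => by rw [← hφ, map_natCast]
  have hLn : NL A B L := ⟨⊤, om, hL⟩
  have hom0 := hL.om_ne
  have hv2 := hC.v2
  have hf0 : f ≠ 0 := by omega
  have ha : a ≠ 0 := by rintro rfl; exact h2a (dvd_zero 2)
  have hfa0 : f * a ≠ 0 := Nat.mul_ne_zero hf0 ha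
  have h2fa : ¬ 2 ∣ f * a := fun h => by
    rcases (Nat.Prime.dvd_mul (by norm_num)).1 h with h | h
    · exact h2f h
    · exact h2a h
  have hm0' : 2 ^ (n + 1) * f * a ≠ 0 := by positivity
  have hne : ∀ k : ℕ, k ≠ 0 → idl (A := A) (B := B) k ≠ ⊥ := by
    intro k hk h
    rw [Ideal.span_singleton_eq_bot] at h
    apply hk
    have h' := hnat k
    rw [h, ← hφ, map_zero] at h'
    exact_mod_cast h'.symm
  -- the fields
  have hmm : idl (A := A) (B := B) (2 ^ (n + 1) * f * a) ≤ idl (f * a) := by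
    rw [Ideal.span_singleton_le_span_singleton]
    refine ⟨((2 ^ (n + 1) : ℕ) : OO A B), ?_⟩
    push_cast; ring
  have hmm2 : idl (A := A) (B := B) (2 ^ (n + 2) * f * a) ≤ idl (f * a) := by
    rw [Ideal.span_singleton_le_span_singleton]
    refine ⟨((2 ^ (n + 2) : ℕ) : OO A B), ?_⟩
    push_cast; ring
  obtain ⟨c1, c2, c3, c4, c5⟩ := Pool.Agent.MUXE.te_FAC Pool.Agent.MUXE.te_TRA A B hR
  have hle := c1 _ _ hmm
  obtain ⟨⟨ξ, G⟩, t1⟩ := h2 V L u e a1 a3 hgood hv2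
  obtain ⟨w₁, w₂, hw₁, hw₂, hw₁L, hw₂L, -, -, he, hu2⟩ := hgood.tor
  -- torsion points
  have hTor : ∀ (k : ℕ) (z : ℂ), (k : ℂ) * z ∈ L.lattice → Tor (idl (A := A) (B := B) k) L z := by
    intro k z hz x hx
    obtain ⟨y, rfl⟩ := Ideal.mem_span_singleton'.1 hx
    rw [hmul, hnat, mul_assoc]
    obtain ⟨c, -, hc⟩ := (hL.mem _).1 hz
    exact (hL.mem _).2 ⟨y * c, Submodule.mem_top, by rw [hc, hmul]; ring⟩
  have hint : ∀ (k : ℤ) (z : ℂ), z ∈ L.lattice → (k : ℂ) * z ∈ L.lattice := by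
    intro k z hz
    simpa [zsmul_eq_mul] using L.lattice.smul_mem k hz
  obtain ⟨f', hf'⟩ := h3f
  have hthree : ∀ z : ℂ, 3 * z ∈ L.lattice → Tor (idl (A := A) (B := B) (f * a)) L z := by
    intro z hz
    apply hTor
    have h11 := hint ((f' * a : ℕ) : ℤ) _ hz
    have h12 : ((f * a : ℕ) : ℂ) * z = (((f' * a : ℕ) : ℤ) : ℂ) * (3 * z) := by
      rw [hf']; push_cast; ring
    rw [h12]; exact h11
  have hx1 : xn L w₁ ∈ RF (idl (A := A) (B := B) (f * a)) :=
    (c2 _ L hLn).2 _ (hthree _ hw₁) hw₁L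
  have hx2 : xn L w₂ ∈ RF (idl (A := A) (B := B) (f * a)) :=
    (c2 _ L hLn).2 _ (hthree _ hw₂) hw₂L
  have heM : e ∈ RF (idl (A := A) (B := B) (f * a)) := by
    have h11 : e = xn L w₁ + ((1 / 12 : ℚ) : ℂ) := by rw [he]; unfold xn; push_cast; ring
    rw [h11]
    refine add_mem hx1 ?_
    exact SubfieldClass.ratCast_mem _ _
  have huM : u ^ 2 ∈ RF (idl (A := A) (B := B) (f * a)) := by
    have h11 : u ^ 2 = xn L w₂ - xn L w₁ := by rw [hu2]; unfold xn; ring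
    rw [h11]
    exact sub_mem hx2 hx1
  -- the points
  have hcop : IsCoprime ((2 ^ (n + 1) : ℕ) : ℤ) (f : ℤ) := by
    rw [Nat.isCoprime_iff_coprime]
    exact Nat.Coprime.pow_left _ ((Nat.Prime.coprime_iff_not_dvd (by norm_num)).2 h2f)
  obtain ⟨α, β, hαβ⟩ := hcop
  push_cast at hαβ
  obtain ⟨P₀, hP₀⟩ : ∃ z, z = (α : ℂ) / (f : ℕ) * om := ⟨_, rfl⟩
  obtain ⟨P₁, hP₁⟩ : ∃ z, z = (β : ℂ) / ((2 ^ (n + 1) : ℕ) : ℂ) * om := ⟨_, rfl⟩
  obtain ⟨Pt, hPt⟩ : ∃ z, z = om / ((2 ^ (n + 1) * f : ℕ) : ℂ) := ⟨_, rfl⟩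
  rw [← hPt]
  have hfc : (f : ℂ) ≠ 0 := by exact_mod_cast hf0
  have h2c : (2 : ℂ) ^ (n + 1) ≠ 0 := pow_ne_zero _ (by norm_num)
  have hsum : P₀ + P₁ = Pt := by
    have h11 : (α : ℂ) * 2 ^ (n + 1) + β * f = 1 := by exact_mod_cast hαβ
    rw [hP₀, hP₁, hPt]
    push_cast
    field_simp
    linear_combination h11
  have hfP₀ : (f : ℂ) * P₀ ∈ L.lattice := by
    have h11 : (f : ℂ) * P₀ = (((f : ℤ) * α : ℤ) : ℂ) / ((f : ℕ) : ℂ) * om := by
      rw [hP₀]; push_cast; ring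
    rw [h11, rat_mem hR hL _ hf0]
    exact dvd_mul_right _ _
  have h2P₀ : 2 * P₀ ∉ L.lattice := by
    have h11 : 2 * P₀ = ((2 * α : ℤ) : ℂ) / ((f : ℕ) : ℂ) * om := by
      rw [hP₀]; push_cast; ring
    rw [h11, rat_mem hR hL _ hf0]
    intro h12
    have h13 : IsCoprime (f : ℤ) α := ⟨β, 2 ^ (n + 1), by linear_combination hαβ⟩
    have h14 := h13.dvd_of_dvd_mul_right h12
    have h15 := Int.le_of_dvd (by norm_num) h14
    omega
  have hP₀L : P₀ ∉ L.lattice := fun h => h2P₀ (by rw [two_mul]; exact add_mem h h)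
  have hP₀E : ¬ InK V L (xu L u e) P₀ := fun h => hP₀L ((t1 f h2f).2 P₀ hfP₀ h)
  have h2P₀E : ¬ InK V L (xu L u e) (2 * P₀) := fun h => h2P₀ ((t1 f h2f).2 _ (by
    have h11 : (f : ℂ) * (2 * P₀) = f * P₀ + f * P₀ := by ring
    rw [h11]; exact add_mem hfP₀ hfP₀) h)
  have h2P₁ : Tor (P ^ (2 * n + 1 + 1)) L P₁ := by
    have h11 : ((2 ^ (n + 1) : ℕ) : ℂ) * P₁ ∈ L.lattice := by
      have h12 : ((2 ^ (n + 1) : ℕ) : ℂ) * P₁ =
          ((((2 ^ (n + 1) : ℕ) : ℤ) * β : ℤ) : ℂ) / ((2 ^ (n + 1) : ℕ) : ℂ) * om := by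
        rw [hP₁]; push_cast; ring
      rw [h12, rat_mem hR hL _ (by positivity)]
      exact dvd_mul_right _ _
    intro x hx
    refine hTor _ _ h11 x ?_
    rw [hC.pw] at hx
    rw [hC.dv]
    rw [show 2 * n + 1 + 1 = (n + 1) * 2 by ring, pow_mul] at hx
    exact le_of_not_gt fun h => absurd hx (not_le.2 (pow_lt_pow_left₀ h zero_le two_ne_zero))
  obtain ⟨ϖ, hϖ⟩ := hC.pi
  have hv20 : V.valuation (2 : ℂ) ≠ 0 := (Valuation.ne_zero_iff _).2 two_ne_zero
  have hvϖ0 : V.valuation (emb ϖ) ≠ 0 := by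
    intro h
    rw [h, zero_pow two_ne_zero] at hϖ
    exact hv20 hϖ.symm
  have hϖ0 : emb ϖ ≠ 0 := (Valuation.ne_zero_iff _).1 hvϖ0
  have hvϖ1 : V.valuation (emb ϖ) < 1 := by
    by_contra h
    have h11 := one_le_pow₀ (not_lt.1 h) (n := 2)
    rw [hϖ] at h11
    exact absurd hv2 (not_lt.2 h11)
  have hβ : V.valuation (β : ℂ) = 1 := by
    have h11 : ¬ 2 ∣ β.natAbs := by
      intro h12
      have h13 : (2 : ℤ) ∣ β := Int.natCast_dvd.2 h12
      have h14 : (2 : ℤ) ∣ 1 := by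
        rw [← hαβ]
        exact dvd_add (Dvd.dvd.mul_left (dvd_pow_self 2 (Nat.succ_ne_zero n)) _)
          (Dvd.dvd.mul_right h13 _)
      omega
    have h12 := hC.nat _ h11
    rcases Int.natAbs_eq β with h13 | h13
    · have h14 : (β : ℂ) = ((β.natAbs : ℕ) : ℂ) := by
        rw [← Int.cast_natCast (R := ℂ), ← h13]
      rw [h14]; exact h12
    · have h14 : (β : ℂ) = -((β.natAbs : ℕ) : ℂ) := by
        rw [← Int.cast_natCast (R := ℂ), ← Int.cast_neg, ← h13]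
      rw [h14, Valuation.map_neg]; exact h12
  have h2P₁' : ¬ Tor (P ^ (2 * n + 1)) L P₁ := by
    intro h11
    have h12 : ((2 ^ n : ℕ) : OO A B) * ϖ ∈ P ^ (2 * n + 1) := by
      rw [hC.pw, hmul, hnat, map_mul, mul_pow, hϖ]
      push_cast
      rw [map_pow, ← pow_mul, ← pow_succ, mul_comm n 2]
    obtain ⟨c, -, hc⟩ := (hL.mem _).1 (h11 _ h12)
    have h13 : (2 : ℂ) ^ n * emb ϖ * β = 2 ^ (n + 1) * emb c := by
      rw [hmul, hnat, hP₁] at hc
      have h14 : (2 : ℂ) ^ n * emb ϖ * ((β : ℂ) / 2 ^ (n + 1)) = emb c := by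
        apply mul_right_cancel₀ hom0
        push_cast at hc
        linear_combination hc
      rw [← h14]
      field_simp
    have h14 := congrArg V.valuation h13
    simp only [map_mul, map_pow, hβ, mul_one] at h14
    rw [pow_succ, mul_assoc] at h14
    have h15 : V.valuation (emb ϖ) = V.valuation (2 : ℂ) * V.valuation (emb c) :=
      mul_left_cancel₀ (pow_ne_zero n hv20) h14
    have h16 : V.valuation (emb ϖ) ≤ V.valuation (2 : ℂ) := by
      rw [h15]; exact mul_le_of_le_one_right' (hC.int c)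
    have h17 : V.valuation (2 : ℂ) ≤ V.valuation (emb ϖ) * V.valuation (2 : ℂ) := by
      calc V.valuation (2 : ℂ) = V.valuation (emb ϖ) * V.valuation (emb ϖ) := by
            rw [← hϖ, pow_two]
        _ ≤ _ := mul_le_mul_right h16 _
    have h18 : V.valuation (emb ϖ) * V.valuation (2 : ℂ) < V.valuation (2 : ℂ) :=
      mul_lt_of_lt_one_left (zero_lt_iff.2 hv20) hvϖ1
    exact absurd h17 (not_le.2 h18)
  obtain ⟨hP₁E, hP₁L, hP₁v⟩ := h3 A B P V hC (2 * n + 1) L u e a1 a3 hLn hgood P₁ h2P₁ h2P₁'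
  obtain ⟨hPE, hnr, -, -⟩ := Pool.Agent.MUX2.gnear G hP₀E hP₁E hP₁L
  have hDX := Pool.Agent.MUX2.gv_DX G hP₀E h2P₀E
  rw [hsum] at hPE hnr
  have hPL : Pt ∉ L.lattice := fun h => hPE (Or.inl h)
  -- the uniformiser
  obtain ⟨π, hπ⟩ : ∃ z, z = xu L u e Pt - xu L u e P₀ := ⟨_, rfl⟩
  have hsq : ∀ x y : V.ValueGroup, x ^ 2 = y ^ 2 → x = y := fun x y h =>
    (pow_left_inj₀ zero_le zero_le two_ne_zero).1 h
  have hvπ : V.valuation π ^ (2 * 4 ^ n) = V.valuation (emb ϖ) := by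
    obtain ⟨h12, h12', -⟩ := Pool.Agent.MUX2.gv_tX_lt G hP₁E hP₁L
    have h13 : V.valuation (tX (xu L u e) (yt L u e a1 a3) P₁) ^ 2 <
        V.valuation (tX (xu L u e) (yt L u e a1 a3) P₁) := by
      rw [pow_two]
      exact mul_lt_of_lt_one_right (zero_lt_iff.2 h12') h12
    rw [← hπ] at hnr
    have h14 : V.valuation ((2 * yt L u e a1 a3 P₀ + (WT a1 a3).a₁ * xu L u e P₀ +
        (WT a1 a3).a₃) * tX (xu L u e) (yt L u e a1 a3) P₁) =
        V.valuation (tX (xu L u e) (yt L u e a1 a3) P₁) := by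
      rw [map_mul, hDX, one_mul]
    have h15 : V.valuation π = V.valuation (tX (xu L u e) (yt L u e a1 a3) P₁) := by
      have h16 := Valuation.map_add_eq_of_lt_left V.valuation
        (x := (2 * yt L u e a1 a3 P₀ + (WT a1 a3).a₁ * xu L u e P₀ +
          (WT a1 a3).a₃) * tX (xu L u e) (yt L u e a1 a3) P₁)
        (y := π - (2 * yt L u e a1 a3 P₀ + (WT a1 a3).a₁ * xu L u e P₀ +
          (WT a1 a3).a₃) * tX (xu L u e) (yt L u e a1 a3) P₁)
        (by rw [h14]; exact lt_of_le_of_lt hnr h13)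
      rw [add_sub_cancel, h14] at h16
      exact h16
    rw [h15]
    apply hsq
    rw [hϖ, ← hP₁v, ← pow_mul]
    congr 1
    rw [show (4 : ℕ) = 2 ^ 2 by norm_num, ← pow_mul]
    ring
  have hTorPt : Tor (idl (A := A) (B := B) (2 ^ (n + 1) * f * a)) L Pt := by
    refine hTor _ _ ?_
    have h11 : ((2 ^ (n + 1) * f * a : ℕ) : ℂ) * Pt = ((a : ℤ) : ℂ) / ((1 : ℕ) : ℂ) * om := by
      rw [hPt]; push_cast; field_simp
    rw [h11, rat_mem hR hL _ one_ne_zero]
    exact ⟨a, by simp⟩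
  have hTorPt2 : Tor (idl (A := A) (B := B) (2 ^ (n + 2) * f * a)) L Pt := by
    refine hTor _ _ ?_
    have h11 : ((2 ^ (n + 2) * f * a : ℕ) : ℂ) * Pt =
        ((2 * a : ℤ) : ℂ) / ((1 : ℕ) : ℂ) * om := by
      rw [hPt]; push_cast; field_simp; ring
    rw [h11, rat_mem hR hL _ one_ne_zero]
    exact ⟨2 * a, by simp⟩
  have hPM : xn L Pt ∈ RF (idl (A := A) (B := B) (2 ^ (n + 1) * f * a)) :=
    (c2 _ L hLn).2 _ hTorPt hPL
  have hP₀M : xn L P₀ ∈ RF (idl (A := A) (B := B) (f * a)) := by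
    refine (c2 _ L hLn).2 _ (hTor _ _ ?_) hP₀L
    have h11 : ((f * a : ℕ) : ℂ) * P₀ = ((a : ℤ) : ℂ) * (f * P₀) := by push_cast; ring
    rw [h11]
    exact hint _ _ hfP₀
  have hxx : ∀ z : ℂ, xu L u e z = (xn L z + 1 / 12 - e) / u ^ 2 := by
    intro z; unfold xu xn; ring
  have h12M : ∀ m' : Ideal (OO A B), (1 / 12 : ℂ) ∈ RF m' := by
    intro m'
    have h11 : (1 / 12 : ℂ) = ((1 / 12 : ℚ) : ℂ) := by push_cast; ring
    rw [h11]
    exact SubfieldClass.ratCast_mem _ _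
  have hx0M : xu L u e P₀ ∈ RF (idl (A := A) (B := B) (f * a)) := by
    rw [hxx]
    exact div_mem (sub_mem (add_mem hP₀M (h12M _)) heM) huM
  have hxPM : xu L u e Pt ∈ RF (idl (A := A) (B := B) (2 ^ (n + 1) * f * a)) := by
    rw [hxx]
    exact div_mem (sub_mem (add_mem hPM (h12M _)) (hle heM)) (hle huM)
  have hπM : π ∈ RF (idl (A := A) (B := B) (2 ^ (n + 1) * f * a)) := by
    rw [hπ]; exact sub_mem hxPM (hle hx0M)
  have := hG.fin _ (hne _ hfa0)
  have := hG.fin _ (hne _ hm0')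
  have hdeg := h5 A B P V hC hG n (f * a) hfa0 h2fa
  rw [← mul_assoc] at hdeg
  have hval : ∀ y ∈ RF (idl (A := A) (B := B) (f * a)), y ≠ 0 →
      ∃ k : ℤ, V.valuation y = V.valuation (emb ϖ) ^ k := by
    intro y hy hy0
    obtain ⟨k, hk⟩ := hC.val (f * a) hfa0 h2fa y hy hy0
    refine ⟨k, hsq _ _ ?_⟩
    rw [hk, ← hϖ, ← zpow_natCast, ← zpow_natCast, ← zpow_mul, ← zpow_mul, mul_comm]
  obtain ⟨c, hc1, hc2⟩ := Pool.Agent.NSE.te_BAS (kk A B) ℂ V.ValueGroup V.valuation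
    (RF (idl (A := A) (B := B) (f * a))) (RF (idl (A := A) (B := B) (2 ^ (n + 1) * f * a)))
    (2 * 4 ^ n) (emb ϖ) π hle (by positivity) hdeg hϖ0 hvϖ1 hval hπM hvπ w hw hvw
  -- the function
  have hvx0 : V.valuation (xu L u e P₀) ≤ 1 := (Pool.Agent.MUXV.int_X hP₀E).2
  obtain ⟨Pol, hPol⟩ : ∃ Q : ℂ[X], Q = ∑ i : Fin (2 * 4 ^ n),
    C ((c i : ℂ)) * (X - C (xu L u e P₀)) ^ (i : ℕ) := ⟨_, rfl⟩
  have hPolI : IntP V Pol := by
    rw [hPol]; exact intP_sum _ _ hc1 hvx0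
  have hPolE : ∀ t : ℂ, Pol.eval t =
      ∑ i : Fin (2 * 4 ^ n), (c i : ℂ) * (t - xu L u e P₀) ^ (i : ℕ) := by
    intro t
    rw [hPol, eval_finsetSum]
    refine Finset.sum_congr rfl fun i _ => ?_
    simp
  have hPolw : w = Pol.eval (xu L u e Pt) := by rw [hPolE, ← hπ, ← hc2]
  refine ⟨Pol, hPolI, hPolw, ?_⟩
  intro x s hs hx
  have hsM : ∀ y ∈ RF (idl (A := A) (B := B) (f * a)), s y = y := hs.triv _ hmm2 hx
  have hsx : s (xu L u e Pt) = xu L u e (emb x * Pt) := by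
    rw [hxx, map_div₀, map_sub, map_add, (hs.xn L hLn Pt hTorPt2 hPL).2, hsM _ (h12M _), hsM _ heM,
      hsM _ huM, ← hxx]
  rw [hPolw, hPolE, hPolE, map_sum]
  refine Finset.sum_congr rfl fun i _ => ?_
  rw [map_mul, map_pow, map_sub, hsM _ (c i).2, hsx, hsM _ hx0M]

end

end Pool.Agent.N2V


end

section

/-!
# MUX-2N, block E2N: module ORB, the sum over one orbit of `1 + N del`

`c_k = 1 + N k del`, `N = 2^n f a`, `P = om_0/m`, `ξ_j = x(P + j R)`. The product of the values of `Θ_a` over the orbit is the same rational function over `V` at the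
four points `ξ_j`, and it takes the same value at them: its logarithmic derivative is small (`LAG`, `DST`).
-/

set_option autoImplicit false

open Polynomial

namespace Pool.Agent.ME2E

open _root_.MU3 _root_.Pool.Agent.MU3A _root_.Pool.Agent.MU3B _root_.Pool.Agent.MUX _root_.Pool.Agent.MUXU
open _root_.Pool.Agent.RI _root_.Pool.Agent.NS
open _root_.Pool.Agent.ME hiding ActE
open _root_.Pool.Agent.MEE _root_.Pool.Agent.ME2
open _root_.Pool.Agent.MUXE (RingE)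
open _root_.Pool.Agent.N2 (GoodT et yt WT IsTei2 OddT PTq)
open _root_.Pool.Agent.N2E (dlg del cc IsoT Sd_LAG Sd_PRD Sd_COE Sd_GRT Sd_TPT Sd_UNT Sd_RAT Sd_THT Sd_DST Sd_NE1 Sd_PRT)
open _root_.Pool.Agent.NSE (IntP)
open _root_.Pool.Agent.MUX2 (GRG)
open _root_.Pool.Agent.MUXV (InK tX)

noncomputable section

namespace ORB

lemma _root_.Pool.Agent.ME2E.ORB.pf (n f : ℕ) (hf : f ≠ 0) : (2 ^ (n + 2) * f).primeFactors ⊆ (2 * f).primeFactors := by
  intro p hp
  have h := Nat.mem_primeFactors.1 hp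
  rw [Nat.mem_primeFactors]
  refine ⟨h.1, ?_, by omega⟩
  rcases (Nat.Prime.dvd_mul h.1).1 h.2.1 with h2 | h2
  · exact (h.1.dvd_of_dvd_pow h2).mul_right _
  · exact h2.mul_left _

variable {V : ValuationSubring ℂ}

/-- the values of a polynomial over `V` -/
lemma ev {P : ℂ[X]} (hP : IntP V P) {x : ℂ} (hx : V.valuation x ≤ 1) :
    V.valuation (P.eval x) ≤ 1 := by
  rw [eval_eq_sum_range]
  refine Valuation.map_sum_le _ fun i _ => ?_
  rw [map_mul, map_pow]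
  exact mul_le_one' (hP i) (pow_le_one' hx _)

lemma der {P : ℂ[X]} (hP : IntP V P) : IntP V (derivative P) := fun i => by
  rw [coeff_derivative, map_mul]
  refine mul_le_one' (hP _) ?_
  have h : ((i : ℂ) + 1) = ((i + 1 : ℕ) : ℂ) := by push_cast; rfl
  rw [h]
  exact (V.valuation_le_one_iff _).2 (natCast_mem V.toSubring _)

/-- the logarithmic derivative and its numerator -/
lemma _root_.Pool.Agent.ME2E.ORB.v_dlg {P Q : ℂ[X]} {x : ℂ} (hP : V.valuation (P.eval x) = 1)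
    (hQ : V.valuation (Q.eval x) = 1) : V.valuation (dlg P Q x) =
    V.valuation ((derivative P).eval x * Q.eval x - P.eval x * (derivative Q).eval x) := by
  unfold dlg
  rw [map_div₀, map_mul (V.valuation) (P.eval x), hP, hQ, one_mul, div_one]

lemma _root_.Pool.Agent.ME2E.ORB.v_dlg_le {P Q : ℂ[X]} {x : ℂ} (hP : IntP V P) (hQ : IntP V Q) (hx : V.valuation x ≤ 1)
    (hP1 : V.valuation (P.eval x) = 1) (hQ1 : V.valuation (Q.eval x) = 1) :
    V.valuation (dlg P Q x) ≤ 1 := by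
  rw [_root_.Pool.Agent.ME2E.ORB.v_dlg hP1 hQ1]
  refine (Valuation.map_sub _ _ _).trans (max_le ?_ ?_)
  · rw [map_mul]
    exact mul_le_one' (ev (der hP) hx) hQ1.le
  · rw [map_mul]
    exact mul_le_one' hP1.le (ev (der hQ) hx)

/-- `dlX` is periodic -/
lemma _root_.Pool.Agent.ME2E.ORB.dlX_per (L : PeriodPair) (a : ℕ) {z w : ℂ} (h : z - w ∈ L.lattice) :
    dlX L a z = dlX L a w := by
  obtain ⟨h1, -⟩ := b_PER L
  unfold dlX
  have e1 : ee L z = ee L w := by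
    have := h1 w (z - w) h
    rwa [add_sub_cancel] at this
  have e2 : ee L (a * z) = ee L (a * w) := by
    have h2 : (a : ℂ) * (z - w) ∈ L.lattice := by
      have := nsmul_mem h a
      rwa [nsmul_eq_mul] at this
    have := h1 (a * w) _ h2
    have e : (a : ℂ) * w + a * (z - w) = a * z := by ring
    rwa [e] at this
  rw [e1, e2]

/-- `Θ` is periodic -/
lemma _root_.Pool.Agent.ME2E.ORB.th_per (L : PeriodPair) (a : ℂ) {H : Finset ℂ} (hH : IsHalf L a H) {z w : ℂ}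
    (h : z - w ∈ L.lattice) : ThetaH L H z = ThetaH L H w := by
  have := (b_TIN L a H H hH hH).2.2 w (z - w) h
  rwa [add_sub_cancel] at this

end ORB

open _root_.Pool.Agent.ME2E.ORB

/-- (ORB) the sum over one orbit of `1 + N del` -/
theorem ty_ORB (h1 : Sd_LAG) (h2 : Sd_PRD) (h4 : Sd_DST) (h5 : Sy_CON) (h6 : Sd_NE1)
    (h7 : Sy_GPO) : Sy_ORB := by
  intro A B V n f a m hE ι R u e a1 a3 hg i H hH x hx
  have hc : CQ A B := hE.ctx.cq
  have hv2 := hE.ctx.v2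
  have hf0 : f ≠ 0 := by have := hE.f3; omega
  have hm0 : m ≠ 0 := by
    rw [hE.hm]
    positivity
  have hmC : (m : ℂ) ≠ 0 := by exact_mod_cast hm0
  have hpf : m.primeFactors ⊆ (2 * f).primeFactors := by
    rw [hE.hm]
    exact _root_.Pool.Agent.ME2E.ORB.pf n f hf0
  have h2m : 2 ∣ m := by
    rw [hE.hm]
    exact ((dvd_pow_self 2 (by omega)).mul_right _)
  -- facts on the points
  obtain ⟨-, -, -, hPT⟩ := tm_PT tm_TRA A B hE.ctx.ring (2 * f) ι R (by omega) i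
  obtain ⟨-, -, -, hPT0⟩ := tm_PT tm_TRA A B hE.ctx.ring (2 * f) ι R (by omega) R.i0
  -- elements prime to `m` are units at `V`
  have hunit : ∀ y : OO A B, IsCoprime y ((m : ℕ) : OO A B) →
      y ∉ idl (A := A) (B := B) 2 := by
    intro y hy hy2
    obtain ⟨s, t, hst⟩ := hy
    have hmax := hE.ctx.max.ne_top
    apply hmax
    rw [Ideal.eq_top_iff_one, ← hst]
    refine Ideal.add_mem _ (Ideal.mul_mem_left _ _ hy2) (Ideal.mul_mem_left _ _ ?_)
    obtain ⟨m', hm'⟩ := h2m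
    rw [Ideal.mem_span_singleton]
    exact ⟨(m' : OO A B), by rw [hm']; push_cast; rfl⟩
  -- points congruent modulo `m`
  have hpt : ∀ y y' : OO A B, y - y' ∈ idl (A := A) (B := B) m →
      ptE R m i y - ptE R m i y' ∈ (R.L i).lattice := by
    intro y y' hy
    obtain ⟨t, ht⟩ := Ideal.mem_span_singleton.1 hy
    have h8 := (hPT m hm0 hpf t).2.1
    have e1 : ptE R m i y - ptE R m i y' = (m : ℂ) * ptE R m i t := by
      have e2 : emb y - emb y' = (m : ℂ) * emb t := by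
        rw [← MUX.emb_sub hc, ht, MUX.emb_mul hc, MUX.emb_natCast hc]
      unfold ptE
      field_simp
      linear_combination (R.om i * nI (R.b i)) * e2
    rw [e1]
    exact h8
  -- (1)
  have part1 : ∀ y : OO A B, IsCoprime y ((m : ℕ) : OO A B) →
      V.valuation (muXE R i * dlX (R.L i) a (ptE R m i y) / u) ≤ 1 := by
    intro y hy
    obtain ⟨κ, k, P, Q, hP, hQ, -, hc1⟩ := h7 A B V n f a m hE ι R u e a1 a3 hg i H hH y
      (hunit y hy)
    obtain ⟨q1, q2, q3, q4, -, q6⟩ := hc1 1 (by rwa [one_mul])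
    rw [one_mul] at q6
    have e1 : V.valuation (emb y) = 1 := hE.ctx.unit y (hunit y hy)
    have e2 : V.valuation (muXE R i * emb y * dlX (R.L i) a (ptE R m i y) / u) ≤ 1 := by
      rw [q6, map_mul]
      exact mul_le_one' (_root_.Pool.Agent.ME2E.ORB.v_dlg_le hP hQ q1 q3 q4) q2
    have e3 : muXE R i * emb y * dlX (R.L i) a (ptE R m i y) / u =
        emb y * (muXE R i * dlX (R.L i) a (ptE R m i y) / u) := by ring
    rwa [e3, map_mul, e1, one_mul] at e2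
  refine ⟨part1 x hx, ?_⟩
  -- (2)
  intro y hy
  obtain ⟨c1, -, c3, c4, -, c6⟩ := h5 A B V n f a m hE
  have hom : IsNE (⊤ : Ideal (OO A B)) (R.L R.i0) (R.om R.i0) := by
    have := R.nl R.i0
    rwa [R.b0] at this
  obtain ⟨d1, d2, d3, d4, -⟩ := c6 (R.L R.i0) (R.om R.i0) hom
  set N : ℕ := 2 ^ n * f * a with hN
  set L0 := R.L R.i0 with hL0
  set om := R.om R.i0 with hom0
  set c : ℕ → OO A B := fun k => cc N ((k : OO A B) * del) with hcdef
  have hcc : ∀ k, IsCoprime (c k) ((m : ℕ) : OO A B) := fun k => (c1 _).2.1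
  have hc0 : c 0 = 1 := by
    simp [hcdef, cc]
  have hmma : idl (A := A) (B := B) (m * a) ≤ idl (A := A) (B := B) m := by
    refine Ideal.span_singleton_le_span_singleton.2 ⟨(a : OO A B), ?_⟩
    push_cast
    rfl
  -- the points `P + k R`
  set Rp : ℂ := emb (del : OO A B) * (a * om / 4) with hRp
  have hck : ∀ k : ℕ, emb (c k) * (om / m) = om / m + k * Rp := by
    intro k
    rw [hcdef]
    simp only
    rw [d1, d2]
  have hP0 : ∀ c : ℕ, (c : ℂ) * (om / m) ∈ L0.lattice → 2 ^ (n + 2) * f ∣ c := by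
    intro c hcL
    have h8 := ((hPT0 m hm0 hpf 1).2.2.2 ((c : ℕ) : OO A B)).1 (by
      rw [MUX.emb_natCast hc]
      exact hcL)
    obtain ⟨z, hz⟩ := h8
    have h9 := congrArg QuadraticAlgebra.re hz
    have h10 : (c : ℤ) = (m : ℤ) * z.re := by simpa using h9
    rw [← hE.hm]
    exact Int.natCast_dvd_natCast.1 ⟨z.re, h10⟩
  have hmP : ((2 ^ (n + 2) * f : ℕ) : ℂ) * (om / m) ∈ L0.lattice := by
    rw [← hE.hm, mul_div_cancel₀ _ hmC]
    refine (hom.mem _).2 ⟨1, trivial, ?_⟩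
    rw [MUX.emb_one hc, mul_one]
  obtain ⟨nk1, nk2, -⟩ := h6 V L0 u e a1 a3 hg hv2 (n + 2) f a hE.f3 hE.fo hE.ao hE.af (om / m)
    hmP hP0
  obtain ⟨S, hS1, hS2, hS3⟩ := (h4 V L0 u e a1 a3 hg hv2 (om / m) nk1 nk2).2 Rp d3 d4
  -- the data for `x_k = c_k x`
  have hxk : ∀ k, IsCoprime (c k * x) ((m : ℕ) : OO A B) := fun k => (hcc k).mul_left hx
  have data := fun k : ℕ => h7 A B V n f a m hE ι R u e a1 a3 hg i H hH (c k * x)
    (hunit _ (hxk k))
  choose κ kk P Q hP hQ hκ hdat using data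
  set ξ : ℕ → ℂ := fun j => xu L0 u e (om / m + j * Rp) with hξ
  have hξ0 : ξ 0 = xu L0 u e (om / m) := by
    rw [hξ]
    simp
  have D : ∀ j k : ℕ, V.valuation (ξ j) ≤ 1 ∧
      V.valuation ((P k).eval (ξ j)) = 1 ∧ V.valuation ((Q k).eval (ξ j)) = 1 ∧
      ThetaH (R.L i) H (ptE R m i (c j * (c k * x))) * (Q k).eval (ξ j) =
        κ k * (P k).eval (ξ j) := by
    intro j k
    obtain ⟨q1, -, q3, q4, q5, -⟩ := hdat k (c j) ((hcc j).mul_left (hxk k))
    rw [hck] at q1 q3 q4 q5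
    exact ⟨q1, q3, q4, q5⟩
  -- the product of the values of `Θ` does not depend on `j`
  set Th : ℕ → ℂ := fun r => ThetaH (R.L i) H (ptE R m i (c r * x)) with hTh
  have hcong : ∀ j k : ℕ, c j * (c k * x) - c (j + k) * x ∈ idl (A := A) (B := B) m := by
    intro j k
    have h8 := Ideal.mul_mem_left _ x (hmma (c3 j k))
    have h9 : x * (c j * c k - c (j + k)) = c j * (c k * x) - c (j + k) * x := by ring
    have h10 : x * (cc N ((j : OO A B) * del) * cc N ((k : OO A B) * del) -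
        cc N (((j + k : ℕ) : OO A B) * del)) = x * (c j * c k - c (j + k)) := rfl
    rw [h10, h9] at h8
    exact h8
  have hTjk : ∀ j k : ℕ, ThetaH (R.L i) H (ptE R m i (c j * (c k * x))) = Th (j + k) :=
    fun j k => _root_.Pool.Agent.ME2E.ORB.th_per _ _ hH (hpt _ _ (hcong j k))
  have hT4 : ∀ r : ℕ, Th (r + 4) = Th r := by
    intro r
    have h8 : c (r + 4) * x - c r * x ∈ idl (A := A) (B := B) m := by
      have h9 := hmma (c3 r 4)
      have h10 := hmma c4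
      have h11 : (c (r + 4) - c r) = -(c r * c 4 - c (r + 4)) + c r * (c 4 - 1) := by ring
      have h12 : c (r + 4) * x - c r * x = x * (c (r + 4) - c r) := by ring
      rw [h12, h11]
      refine Ideal.mul_mem_left _ _ (Ideal.add_mem _ (neg_mem h9) (Ideal.mul_mem_left _ _ h10))
    exact _root_.Pool.Agent.ME2E.ORB.th_per _ _ hH (hpt _ _ h8)
  have hprod : ∀ j, j < 4 → ∏ k ∈ Finset.range 4, Th (j + k) = ∏ k ∈ Finset.range 4, Th k := by
    intro j hj
    have e4 := hT4 0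
    have e5 := hT4 1
    have e6 := hT4 2
    simp only [Finset.prod_range_succ, Finset.prod_range_zero, one_mul]
    norm_num at e4 e5 e6
    interval_cases j
    · simp
    · norm_num
      rw [e4]
      ring
    · norm_num
      rw [e4, e5]
      ring
    · norm_num
      rw [e4, e5, e6]
      ring
  have hκ0 : ∀ k, κ k ≠ 0 := by
    intro k h0
    have h8 := hκ k
    rw [h0, map_zero] at h8
    have h9 : V.valuation (2 : ℂ) ≠ 0 := (Valuation.ne_zero_iff _).2 two_ne_zero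
    exact pow_ne_zero 2 (zpow_ne_zero (kk k) h9) h8.symm
  -- the products of the rational functions
  obtain ⟨P', Q', hP', hQ', hPQ⟩ := h2 V ℕ (Finset.range 4) P Q (fun _ => 1)
    (ξ '' {j | j < 4}) (fun k _ => ⟨hP k, hQ k, by
      rintro _ ⟨j, -, rfl⟩
      exact ⟨(D j k).2.1, (D j k).2.2.1⟩⟩)
  have hne : ∀ {w : ℂ}, V.valuation w = 1 → w ≠ 0 := fun {w} hw h0 => by
    rw [h0, map_zero] at hw
    exact zero_ne_one hw
  have hval : ∀ j, j < 4 → P'.eval (ξ j) * ∏ k ∈ Finset.range 4, κ k =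
      Q'.eval (ξ j) * ∏ k ∈ Finset.range 4, Th k := by
    intro j hj
    obtain ⟨-, -, q3, -⟩ := hPQ (ξ j) ⟨j, hj, rfl⟩
    simp only [zpow_one] at q3
    have e1 : (∏ k ∈ Finset.range 4, Th k) * ∏ k ∈ Finset.range 4, (Q k).eval (ξ j) =
        (∏ k ∈ Finset.range 4, κ k) * ∏ k ∈ Finset.range 4, (P k).eval (ξ j) := by
      rw [← hprod j hj, ← Finset.prod_mul_distrib, ← Finset.prod_mul_distrib]
      refine Finset.prod_congr rfl fun k _ => ?_
      rw [← hTjk]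
      exact (D j k).2.2.2
    have e2 : (∏ k ∈ Finset.range 4, (Q k).eval (ξ j)) ≠ 0 :=
      Finset.prod_ne_zero_iff.2 fun k _ => hne (D j k).2.2.1
    apply mul_right_cancel₀ e2
    linear_combination (∏ k ∈ Finset.range 4, κ k) * q3 - Q'.eval (ξ j) * e1
  have hKK : (∏ k ∈ Finset.range 4, κ k) ≠ 0 := Finset.prod_ne_zero_iff.2 fun k _ => hκ0 k
  have hcross : ∀ j, j < 4 → P'.eval (ξ j) * Q'.eval (ξ 0) = P'.eval (ξ 0) * Q'.eval (ξ j) := by
    intro j hj
    apply mul_right_cancel₀ hKK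
    linear_combination Q'.eval (ξ 0) * hval j hj - Q'.eval (ξ j) * hval 0 (by norm_num)
  -- `LAG`
  obtain ⟨p1, p2, -, p4⟩ := hPQ (ξ 0) ⟨0, by norm_num, rfl⟩
  have hS1' : ξ 0 ∉ S := by
    rw [hξ0]
    exact hS1
  have hlag := (h1 V S (ξ 0) hS1' (D 0 0).1 (fun s hs => (hS2 s hs).1)).2.2.1 P' Q' hP' hQ' (by
    intro s hs
    obtain ⟨-, k, hk, rfl⟩ := hS2 s hs
    exact hcross k hk)
  have hdl : V.valuation (dlg P' Q' (ξ 0)) ^ 2 ≤ V.valuation (2 : ℂ) := by
    rw [_root_.Pool.Agent.ME2E.ORB.v_dlg p1 p2]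
    refine (pow_le_pow_left₀ zero_le hlag 2).trans ?_
    rw [hξ0]
    exact hS3
  -- the sum with the weights `emb x_k`
  have hsum : ∑ k ∈ Finset.range 4, muXE R i * emb (c k * x) *
      dlX (R.L i) a (ptE R m i (c k * x)) / u = dlg P' Q' (ξ 0) * et L0 u (om / m) := by
    rw [p4, Finset.sum_mul]
    refine Finset.sum_congr rfl fun k _ => ?_
    obtain ⟨-, -, -, -, -, q6⟩ := hdat k 1 (by rw [one_mul]; exact hxk k)
    rw [one_mul, MUX.emb_one hc, one_mul] at q6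
    rw [q6, hξ0]
    push_cast
    ring
  have het : V.valuation (et L0 u (om / m)) ≤ 1 := by
    obtain ⟨-, q2, -⟩ := hdat 0 1 (by rw [one_mul]; exact hxk 0)
    rwa [MUX.emb_one hc, one_mul] at q2
  have hsum2 : V.valuation (∑ k ∈ Finset.range 4, muXE R i * emb (c k * x) *
      dlX (R.L i) a (ptE R m i (c k * x)) / u) ^ 2 ≤ V.valuation (2 : ℂ) := by
    rw [hsum, map_mul, mul_pow]
    exact (mul_le_of_le_one_right' (pow_le_one' het 2)).trans hdl
  -- replace the weights by `emb x`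
  have v4 : V.valuation (4 : ℂ) = V.valuation (2 : ℂ) ^ 2 := by
    rw [← map_pow]
    norm_num
  have hdiff : V.valuation (∑ k ∈ Finset.range 4, (emb (c k * x) - emb x) *
      (muXE R i * dlX (R.L i) a (ptE R m i (c k * x)) / u)) ≤ V.valuation (4 : ℂ) := by
    refine Valuation.map_sum_le _ fun k _ => ?_
    rw [map_mul]
    have e1 : V.valuation (emb (c k * x) - emb x) ≤ V.valuation (4 : ℂ) := by
      have e2 : c k * x - x = ((4 : ℕ) : OO A B) * (((2 ^ (n - 2) * f * a : ℕ) : OO A B) *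
          ((k : OO A B) * del) * x) := by
        have e3 : N = 4 * (2 ^ (n - 2) * f * a) := by
          rw [hN]
          have e4 : 2 ^ n = 4 * 2 ^ (n - 2) := by
            have := hE.n2
            obtain ⟨n', rfl⟩ := Nat.exists_eq_add_of_le this
            rw [Nat.add_sub_cancel_left, pow_add]
            norm_num
          rw [e4]
          ring
        have e5 : c k = 1 + ((N : ℕ) : OO A B) * ((k : OO A B) * del) := rfl
        rw [e5, e3]
        push_cast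
        ring
      rw [← MUX.emb_sub hc, e2, MUX.emb_mul hc, MUX.emb_natCast hc, map_mul]
      push_cast
      exact mul_le_of_le_one_right' (hE.ctx.int _)
    exact (mul_le_mul' e1 (part1 _ (hxk k))).trans (by rw [mul_one])
  have key : emb x * ((∑ k ∈ Finset.range 4, muXE R i * dlX (R.L i) a (ptE R m i (y k))) / u) =
      (∑ k ∈ Finset.range 4, muXE R i * emb (c k * x) *
        dlX (R.L i) a (ptE R m i (c k * x)) / u) -
      ∑ k ∈ Finset.range 4, (emb (c k * x) - emb x) *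
        (muXE R i * dlX (R.L i) a (ptE R m i (c k * x)) / u) := by
    rw [← Finset.sum_sub_distrib, Finset.sum_div, Finset.mul_sum]
    refine Finset.sum_congr rfl fun k hk => ?_
    rw [_root_.Pool.Agent.ME2E.ORB.dlX_per (R.L i) a (hpt _ _ (hy k (Finset.mem_range.1 hk)))]
    show emb x * (muXE R i * dlX (R.L i) a (ptE R m i (c k * x)) / u) = _
    ring
  have vx : V.valuation (emb x) = 1 := hE.ctx.unit x (hunit x hx)
  have e7 : V.valuation ((∑ k ∈ Finset.range 4, muXE R i *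
      dlX (R.L i) a (ptE R m i (y k))) / u) = V.valuation (emb x *
      ((∑ k ∈ Finset.range 4, muXE R i * dlX (R.L i) a (ptE R m i (y k))) / u)) := by
    rw [map_mul, vx, one_mul]
  rw [e7, key]
  have e8 := Valuation.map_sub V.valuation (∑ k ∈ Finset.range 4, muXE R i * emb (c k * x) *
        dlX (R.L i) a (ptE R m i (c k * x)) / u)
      (∑ k ∈ Finset.range 4, (emb (c k * x) - emb x) *
        (muXE R i * dlX (R.L i) a (ptE R m i (c k * x)) / u))
  refine (pow_le_pow_left₀ zero_le e8 2).trans ?_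
  rcases le_total (V.valuation (∑ k ∈ Finset.range 4, muXE R i * emb (c k * x) *
        dlX (R.L i) a (ptE R m i (c k * x)) / u))
      (V.valuation (∑ k ∈ Finset.range 4, (emb (c k * x) - emb x) *
        (muXE R i * dlX (R.L i) a (ptE R m i (c k * x)) / u))) with h | h
  · rw [max_eq_right h]
    refine (pow_le_pow_left₀ zero_le hdiff 2).trans ?_
    rw [v4, ← pow_mul]
    exact pow_le_of_le_one zero_le hv2.le (by norm_num)
  · rw [max_eq_left h]
    exact hsum2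

end

end Pool.Agent.ME2E


end

section

/-!
# N2, block H (helper41): elementary facts and the nebentypus, for `2` inert (model `NS/H_Chn.lean`)
-/

set_option autoImplicit false

namespace Pool.Agent.ME2H

open _root_.MU3 _root_.Pool.Agent.MU3A _root_.Pool.Agent.MU3B _root_.Pool.Agent.MU3F _root_.Pool.Agent.MUX _root_.Pool.Agent.MUXH
  _root_.Pool.Agent.MUXHY _root_.Pool.Agent.MuSym _root_.Pool.Agent.NS _root_.Pool.Agent.N2 _root_.Pool.Agent.ME2 OnePoint
open _root_.Pool.Agent.ME hiding ActE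

noncomputable section

variable {A B : ℤ}

/-- elementary facts -/
theorem valT {V : ValuationSubring ℂ} {f : ℕ} (H : SetT3 A B V f) :
    V.valuation (2 : ℂ) < 1 ∧ (∀ n : ℤ, V.valuation (n : ℂ) ≤ 1) ∧
    (∀ n : ℤ, ¬ (2 : ℤ) ∣ n → V.valuation (n : ℂ) = 1) ∧
    (∀ (r : ℕ) (z : ℂ), r ≠ 0 → z ^ r = 1 → V.valuation z = 1) ∧
    0 < absD A B ∧ ¬ (2 : ℤ) ∣ absD A B ∧
    idl (A := A) (B := B) (2 * f) ≤ sp ((absD A B : ℤ) : OO A B) ∧
    idl (A := A) (B := B) (2 * f) ≠ ⊥ ∧ idl (A := A) (B := B) (2 * f) ≠ ⊤ ∧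
    ((2 * f : ℕ) : OO A B) ∈ idl (A := A) (B := B) (2 * f) := by
  have h3 : V.valuation (2 : ℂ) < 1 := by
    have h1 : emb ((2 : ℕ) : OO A B) ∈ V.nonunits :=
      (H.hV _).2 (Ideal.mem_span_singleton_self _)
    have h2 : emb ((2 : ℕ) : OO A B) = 2 := by
      unfold emb
      rw [QuadraticAlgebra.re_natCast, QuadraticAlgebra.im_natCast]
      norm_num
    rw [h2, ValuationSubring.mem_nonunits_iff] at h1
    exact h1
  have hle : ∀ z : ℤ, V.valuation (z : ℂ) ≤ 1 := fun z =>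
    (V.valuation_le_one_iff _).2 (intCast_mem V z)
  have hD0 : 0 < absD A B := by
    have := H.case.neg
    unfold absD
    omega
  have h3f : ((2 * f : ℕ) : OO A B) ∈ idl (A := A) (B := B) (2 * f) :=
    Ideal.mem_span_singleton_self _
  have hf0 := H.f0
  refine ⟨h3, hle, ?_, ?_, hD0, ?_, ?_, ?_, ?_, h3f⟩
  · intro n hn
    have hc : IsCoprime n 2 := by
      rw [isCoprime_comm]
      exact (Int.prime_two.coprime_iff_not_dvd).2 hn
    obtain ⟨a, b, hab⟩ := hc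
    by_contra hne
    have hlt : V.valuation (n : ℂ) < 1 := lt_of_le_of_ne (hle n) hne
    have h1 : V.valuation ((a : ℂ) * n + b * 2) < 1 := by
      refine lt_of_le_of_lt (V.valuation.map_add _ _) (max_lt ?_ ?_)
      · rw [map_mul]
        exact mul_lt_one_of_nonneg_of_lt_one_right (hle a) zero_le hlt
      · rw [map_mul]
        exact mul_lt_one_of_nonneg_of_lt_one_right (hle b) zero_le h3
    have h2 : (a : ℂ) * n + b * 2 = 1 := by exact_mod_cast hab
    rw [h2, map_one] at h1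
    exact lt_irrefl _ h1
  · intro r z hr hz
    have h1 : V.valuation z ^ r = 1 := by rw [← map_pow, hz, map_one]
    exact (pow_eq_one_iff_of_nonneg zero_le hr).1 h1
  · unfold absD
    rw [H.case.hA, H.hB]
    norm_num
  · rw [Ideal.span_singleton_le_iff_mem, Ideal.mem_span_singleton]
    obtain ⟨t, ht⟩ := H.fD
    refine ⟨(2 * 3 * t : ℤ), ?_⟩
    have h1 : ((2 * f : ℕ) : OO A B) = ((2 * (f : ℤ) : ℤ) : OO A B) := by push_cast; rfl
    rw [h1, ht]
    push_cast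
    ring
  · intro h
    rw [h, Ideal.mem_bot] at h3f
    have h1 := congrArg QuadraticAlgebra.re h3f
    simp only [QuadraticAlgebra.re_natCast, QuadraticAlgebra.re_zero] at h1
    have h2 : (2 * f : ℕ) = 0 := by exact_mod_cast h1
    omega
  · intro h
    rw [Ideal.eq_top_iff_one, Ideal.mem_span_singleton] at h
    obtain ⟨y, hy⟩ := h
    have h1 := congrArg QuadraticAlgebra.re hy
    rw [QuadraticAlgebra.re_one, QuadraticAlgebra.re_mul, QuadraticAlgebra.re_natCast,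
      QuadraticAlgebra.im_natCast, mul_zero, zero_mul, add_zero] at h1
    have h9 : ((2 * f : ℕ) : ℤ) ∣ 1 := ⟨y.re, h1⟩
    have h10 := Int.le_of_dvd one_pos h9
    have : 0 < f := Nat.pos_of_ne_zero hf0
    omega

theorem chrT (h4 : MUXF.Sx_CHI) {V : ValuationSubring ℂ} {f : ℕ} (H : SetT3 A B V f)
    {e : OO A B → ℂ} (he : IsEI (idl (A := A) (B := B) (2 * f)) e) {r : ℕ} (hr0 : r ≠ 0)
    (hr : ∀ x, e x ≠ 0 → e x ^ r = 1) :
    nuX e 1 = 1 ∧ (∀ d d', nuX e (d * d') = nuX e d * nuX e d') ∧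
    (∀ d d' : ℤ, ((2 * N0X A B f : ℕ) : ℤ) ∣ d - d' → nuX e d = nuX e d') ∧
    (∀ d, V.valuation (nuX e d) ≤ 1) := by
  obtain ⟨-, vZ, -, vru, hDpos, -, hgD, hg0, -, hpf⟩ := valT H
  have hcq : CQ A B := H.case.toCQ
  have ev : ∀ x, V.valuation (e x) ≤ 1 := by
    intro x
    by_cases hx : e x = 0
    · rw [hx, map_zero]
      exact zero_le_one
    · exact (vru r (e x) hr0 (hr x hx)).le
  have hcopD : ∀ d : ℤ, e (d : OO A B) ≠ 0 → IsCoprime d (absD A B) := by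
    intro d hd
    have h5 := (he.supp _).1 hd
    apply Chr.coprime_int (A := A) (B := B)
    rw [← Ideal.isCoprime_span_singleton_iff]
    rw [Ideal.isCoprime_iff_sup_eq] at h5 ⊢
    exact top_le_iff.1 (h5 ▸ sup_le_sup_left hgD _)
  refine ⟨?_, ?_, ?_, ?_⟩
  · unfold nuX
    have : ((1 : ℤ) : OO A B) = 1 := by push_cast; rfl
    rw [Chr.chiX_one, this, he.one]
    norm_num
  · intro d d'
    unfold nuX
    have : ((d * d' : ℤ) : OO A B) = (d : OO A B) * (d' : OO A B) := by push_cast; rfl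
    rw [Chr.chiX_mul, this, he.mul]
    push_cast
    ring
  · intro d d' hd
    have hDnat : (((absD A B).toNat : ℕ) : ℤ) = absD A B := Int.toNat_of_nonneg hDpos.le
    have hd2 : (2 : ℤ) * (absD A B * (f : ℤ) ^ 2) ∣ d - d' := by
      have h5 : ((2 * N0X A B f : ℕ) : ℤ) = (2 : ℤ) * (absD A B * (f : ℤ) ^ 2) := by
        unfold N0X
        push_cast
        rw [hDnat]
      rwa [h5] at hd
    obtain ⟨t, ht⟩ := hd2
    have hD : absD A B ∣ d - d' := ⟨(2 : ℤ) * (f : ℤ) ^ 2 * t, by rw [ht]; ring⟩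
    unfold nuX
    by_cases hcop : IsCoprime d (absD A B)
    · have h5 : chiX A B d' = chiX A B d := ((h4 A B (toCQ hcq) d hcop).2.2 d' hD)
      have h6 : e (d : OO A B) = e (d' : OO A B) := by
        apply he.per
        have h7 : (d : OO A B) - (d' : OO A B) =
            (((absD A B * f * t : ℤ)) : OO A B) * ((2 * f : ℕ) : OO A B) := by
          have h8 : (d : OO A B) - (d' : OO A B) = ((d - d' : ℤ) : OO A B) := by push_cast; rfl
          rw [h8, ht]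
          push_cast
          ring
        rw [h7]
        exact Ideal.mul_mem_left _ _ hpf
      rw [h5, h6]
    · have h5 : e (d : OO A B) = 0 := by
        by_contra hne
        exact hcop (hcopD d hne)
      have h6 : e (d' : OO A B) = 0 := by
        by_contra hne
        apply hcop
        obtain ⟨s, hs⟩ := hD
        have h7 : d = d' + absD A B * s := by linarith
        rw [h7]
        exact (IsCoprime.add_mul_left_left_iff).2 (hcopD d' hne)
      rw [h5, h6, mul_zero, mul_zero]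
  · intro d
    unfold nuX
    rw [map_mul]
    exact mul_le_one' (vZ _) (ev _)

end

end Pool.Agent.ME2H


end

section

/-!
# N2, block H (helper41): projector and depletion, for `2` inert (models `NS/H_Prn.lean`, `NS/H_Dep.lean`)
-/

set_option autoImplicit false

namespace Pool.Agent.ME2H

open _root_.MU3 _root_.Pool.Agent.MU3A _root_.Pool.Agent.MU3B _root_.Pool.Agent.MU3F _root_.Pool.Agent.MUX _root_.Pool.Agent.MUXH
  _root_.Pool.Agent.MUXHY _root_.Pool.Agent.MuSym _root_.Pool.Agent.NS _root_.Pool.Agent.N2 _root_.Pool.Agent.ME2 OnePoint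
open _root_.Pool.Agent.ME hiding ActE
open scoped ComplexConjugate

noncomputable section

variable {A B : ℤ}

lemma sgn_PK {n : ℕ} {ι : Type} [Fintype ι] (R : RepsE A B n ι) (e : OO A B → ℂ) (kk : ι → ℂ)
    (Z s : ℂ) (x y : OnePoint ℚ) :
    sgnPart s (fun x y => PhiKE R e kk x y / Z) x y =
      (∑ c, kk c * sgnPart s (PhiI (R.b c) e) x y) / Z := by
  unfold sgnPart PhiKE
  rw [← mul_div_assoc, ← add_div, Finset.mul_sum, ← Finset.sum_add_distrib]
  congr 1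
  refine Finset.sum_congr rfl fun c _ => ?_
  ring

/-- the projector -/
theorem prT (h3 : MUXF.Sx_PHX) (h4 : MUXF.Sx_PRJ) {V : ValuationSubring ℂ} {f : ℕ}
    (hS : SetT3 A B V f) {n : ℕ} {ι : Type} [Fintype ι] (R : RepsE A B n ι) {e : OO A B → ℂ}
    (he : IsEI (idl (A := A) (B := B) (2 * f)) e) (kk : ι → ℂ) (Z s : ℂ) :
    ∃ (q : ℕ) (c : ℕ → ℂ), ¬ 2 ∣ q ∧ q ≠ 0 ∧ (∀ t, V.valuation (c t) ≤ 1) ∧ ∀ x y : OnePoint ℚ,
      ∑ t ∈ Finset.range q, c t * sgnPart s (fun x y => PhiKE R e kk x y / Z) (mob q t 0 q x)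
        (mob q t 0 q y) = PhiKE R e kk x y / Z := by
  obtain ⟨-, -, hv1, hr, hD, hD3, hgD, hg, -, -⟩ := valT hS
  obtain ⟨φ, hφ, hper, hφ2⟩ := h3 A B (toCQ hS.case.toCQ)
  have hqD : (((absD A B).toNat : ℕ) : ℤ) = absD A B := Int.toNat_of_nonneg hD.le
  have hq : (absD A B).toNat ≠ 0 := by omega
  have hv : V.valuation (((absD A B).toNat : ℕ) : ℂ) = 1 := by
    have h5 : (((absD A B).toNat : ℕ) : ℂ) = ((absD A B : ℤ) : ℂ) := by
      rw [← Int.cast_natCast (R := ℂ) (absD A B).toNat, hqD]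
    rw [h5]
    exact hv1 _ hD3
  refine ⟨(absD A B).toNat, fun t => (1 / ((absD A B).toNat : ℂ)) *
    ∑ n ∈ Finset.range (absD A B).toNat, φ n * ex (-(t * n) / (absD A B).toNat), by omega, hq,
    fun t => Prx.val_le V hr _ hq hv φ hφ t, fun x y => ?_⟩
  have key : ∀ c, ∑ t ∈ Finset.range (absD A B).toNat, ((1 / ((absD A B).toNat : ℂ)) *
      ∑ n ∈ Finset.range (absD A B).toNat, φ n * ex (-(t * n) / (absD A B).toNat)) *
      sgnPart s (PhiI (R.b c) e) (mob (absD A B).toNat t 0 (absD A B).toNat x)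
        (mob (absD A B).toNat t 0 (absD A B).toNat y) = PhiI (R.b c) e x y := by
    intro c
    exact h4 A B (toCQ hS.case.toCQ) (R.b c) _ e (R.nl c).b_ne hg (toEI he) _ φ hq
      (fun n => by rw [hqD]; exact hper n)
      (hφ2 (R.b c) _ e (R.nl c).b_ne (toEI he) hgD) s x y
  simp only [sgn_PK]
  simp only [← mul_div_assoc]
  rw [← Finset.sum_div]
  congr 1
  simp only [Finset.mul_sum (s := (Finset.univ : Finset ι))]
  rw [Finset.sum_comm]
  unfold PhiKE
  refine Finset.sum_congr rfl fun c _ => ?_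
  rw [← key c, Finset.mul_sum]
  refine Finset.sum_congr rfl fun t _ => ?_
  ring

/-- for `2` inert, `e x = 0` if `2` divides the exponent -/
theorem e_zero (hQB : MUXF.Sx_QB) {V : ValuationSubring ℂ} {f : ℕ} (hS : SetT3 A B V f)
    {e : OO A B → ℂ} (he : IsEI (idl (A := A) (B := B) (2 * f)) e) {b : Ideal (OO A B)}
    (hb : b ≠ ⊥) {x : OO A B} (hx : x ∈ b) (h3 : (2 : ℤ) ∣ MUXF.qb b x) : e x = 0 := by
  obtain ⟨h1, -⟩ := (hQB A B (toCQ hS.case.toCQ) b hb).1 x hx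
  have h2 : (2 : ℤ) ∣ nm x := by rw [h1]; exact Dvd.dvd.mul_left h3 _
  have h4 : (2 : ℤ) ∣ x.re ∧ (2 : ℤ) ∣ x.im := by
    have h5 := (show (8 : ℤ) ∣ B ^ 2 + 4 * A - 5 by rw [hS.case.hA, hS.hB]; norm_num)
    unfold nm at h2
    rcases hS.case.hB with hB | hB
    · subst hB
      omega
    · subst hB
      obtain ⟨k, hk⟩ := h5
      obtain ⟨l, hl⟩ := h2
      have hA : A - 1 = 2 * k := by linarith
      have h6 : (2 : ℤ) ∣ x.re ^ 2 + x.re * x.im + x.im ^ 2 := by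
        refine ⟨l + (k + 1) * x.im ^ 2, ?_⟩
        linear_combination hl + x.im ^ 2 * hA
      have e1 : x.re % 2 = 0 ∨ x.re % 2 = 1 := by omega
      have e2 : x.im % 2 = 0 ∨ x.im % 2 = 1 := by omega
      rw [Int.dvd_iff_emod_eq_zero, Int.add_emod, Int.add_emod (x.re ^ 2), pow_two,
        pow_two, Int.mul_emod, Int.mul_emod x.re x.im, Int.mul_emod x.im x.im] at h6
      rcases e1 with e1 | e1 <;> rcases e2 with e2 | e2 <;>
        rw [e1, e2] at h6 <;> omega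
  by_contra hne
  have h5 := (he.supp _).1 hne
  obtain ⟨⟨s, hs⟩, ⟨t, ht⟩⟩ := h4
  have h6 : x = ((2 : ℕ) : OO A B) * ⟨s, t⟩ := by
    ext
    · rw [QuadraticAlgebra.re_mul, QuadraticAlgebra.re_natCast, QuadraticAlgebra.im_natCast, hs]
      push_cast
      ring
    · rw [QuadraticAlgebra.im_mul, QuadraticAlgebra.re_natCast, QuadraticAlgebra.im_natCast, ht]
      push_cast
      ring
  obtain ⟨i, hi, j, hj, hij⟩ := (Ideal.isCoprime_iff_exists).1 h5
  rw [Ideal.mem_span_singleton] at hi hj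
  obtain ⟨i', hi'⟩ := hi
  obtain ⟨j', hj'⟩ := hj
  have h7 : ((2 : ℕ) : OO A B) * (⟨s, t⟩ * i' + ((f : ℕ) : OO A B) * j') = 1 := by
    rw [← hij, hi', hj']
    conv_rhs => rw [h6]
    push_cast
    ring
  have h8 := congrArg QuadraticAlgebra.re h7
  rw [QuadraticAlgebra.re_mul, QuadraticAlgebra.re_natCast, QuadraticAlgebra.im_natCast,
    QuadraticAlgebra.re_one] at h8
  omega

/-- the sum over the translates by halves of theta is zero -/
theorem theta_dep {V : ValuationSubring ℂ} {f : ℕ} (hS : SetT3 A B V f)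
    {e : OO A B → ℂ} (he : IsEI (idl (A := A) (B := B) (2 * f)) e) {b : Ideal (OO A B)}
    (hb : b ≠ ⊥) (z : ℂ) (hz : 0 < z.im) :
    ∑ j ∈ Finset.range 2, thetaI b e (z + (j : ℂ) / 2) = 0 := by
  obtain ⟨-, -, -, -, -, -, -, hg, -, -⟩ := valT hS
  have hcq := toCQ hS.case.toCQ
  obtain ⟨-, C, hC0, hC⟩ := MUXF.xf_BDD A B hcq _ e hg (toEI he)
  have him : ∀ j : ℕ, 0 < (z + (j : ℂ) / 2).im := by
    intro j
    have : ((j : ℂ) / 2).im = 0 := by
      have : ((j : ℂ) / 2) = (((j : ℝ) / 2 : ℝ) : ℂ) := by push_cast; ring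
      rw [this]
      exact Complex.ofReal_im _
    rw [Complex.add_im, this, add_zero]
    exact hz
  have hsum : ∀ j : ℕ, Summable (fun x : b => e x * (starRingEnd ℂ) (emb (x : OO A B)) *
      Complex.exp (2 * Real.pi * Complex.I * ((nm (x : OO A B) : ℂ) / nI b) *
        (z + (j : ℂ) / 2))) :=
    fun j : ℕ => MUXF.xf_TSM A B hcq b hb e C hC (z + (j : ℂ) / 2) (him j)
  have e1 : ∑ j ∈ Finset.range 2, thetaI b e (z + (j : ℂ) / 2) =
      (1 / 2) * ∑ j ∈ Finset.range 2, ∑' x : b, e x * (starRingEnd ℂ) (emb (x : OO A B)) *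
        Complex.exp (2 * Real.pi * Complex.I * ((nm (x : OO A B) : ℂ) / nI b) *
          (z + (j : ℂ) / 2)) := by
    rw [Finset.mul_sum]
    rfl
  rw [e1, ← Summable.tsum_finsetSum (fun j _ => hsum j)]
  have e2 : ∀ x : b, ∑ j ∈ Finset.range 2, e x * (starRingEnd ℂ) (emb (x : OO A B)) *
      Complex.exp (2 * Real.pi * Complex.I * ((nm (x : OO A B) : ℂ) / nI b) *
        (z + (j : ℂ) / 2)) = 0 := by
    intro x
    obtain ⟨h1, h2⟩ := (MUXF.xf_QB A B hcq b hb).1 x x.2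
    have hnI : ((nI b : ℕ) : ℂ) ≠ 0 := by
      have := (MUXF.xf_IDL A B hcq b hb).1
      exact_mod_cast this
    by_cases h3 : (2 : ℤ) ∣ MUXF.qb b (x : OO A B)
    · rw [e_zero MUXF.xf_QB hS he hb x.2 h3]
      simp
    · have h4 : ((nm (x : OO A B) : ℤ) : ℂ) / ((nI b : ℕ) : ℂ) = ((MUXF.qb b (x : OO A B) : ℤ) : ℂ) := by
        have h5 : nm (x : OO A B) = (nI b : ℤ) * MUXF.qb b (x : OO A B) := h1
        rw [h5]
        push_cast
        field_simp
      set N : ℤ := MUXF.qb b (x : OO A B) with hN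
      have e3 : ∀ j : ℕ, Complex.exp (2 * Real.pi * Complex.I * ((nm (x : OO A B) : ℂ) / nI b) *
          (z + (j : ℂ) / 2)) = Complex.exp (2 * Real.pi * Complex.I * N * z) *
            Complex.exp (2 * Real.pi * Complex.I * N / 2) ^ j := by
        intro j
        rw [← Complex.exp_nat_mul, ← Complex.exp_add, h4]
        congr 1
        ring
      simp only [e3]
      set q : ℂ := Complex.exp (2 * Real.pi * Complex.I * N / 2) with hq
      have hq3 : q ^ 2 = 1 := by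
        rw [hq, ← Complex.exp_nat_mul, Complex.exp_eq_one_iff]
        exact ⟨N, by push_cast; ring⟩
      have hq1 : q ≠ 1 := by
        intro h
        rw [hq, Complex.exp_eq_one_iff] at h
        obtain ⟨k, hk⟩ := h
        apply h3
        refine ⟨k, ?_⟩
        have hpi : (2 * Real.pi * Complex.I : ℂ) ≠ 0 := Complex.two_pi_I_ne_zero
        have h6 : (2 * Real.pi * Complex.I : ℂ) * N = (2 * Real.pi * Complex.I) * (2 * k) := by
          linear_combination 2 * hk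
        have h7 := mul_left_cancel₀ hpi h6
        exact_mod_cast h7
      have h5 : ∑ j ∈ Finset.range 2, q ^ j = 0 := by
        have h6 := mul_geom_sum q 2
        rw [hq3, sub_self] at h6
        exact (mul_eq_zero.1 h6).resolve_left (sub_ne_zero.2 hq1)
      have h6 : ∀ j ∈ Finset.range 2, e x * (starRingEnd ℂ) (emb (x : OO A B)) *
          (Complex.exp (2 * Real.pi * Complex.I * N * z) * q ^ j) =
          e x * (starRingEnd ℂ) (emb (x : OO A B)) *
          Complex.exp (2 * Real.pi * Complex.I * N * z) * q ^ j := fun j _ => by ring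
      rw [Finset.sum_congr rfl h6, ← Finset.mul_sum, h5, mul_zero]
  rw [tsum_congr e2, tsum_zero, mul_zero]

/-- depletion -/
theorem phi_dep {V : ValuationSubring ℂ} {f : ℕ} (hS : SetT3 A B V f)
    {e : OO A B → ℂ} (he : IsEI (idl (A := A) (B := B) (2 * f)) e) {b : Ideal (OO A B)}
    (hb : b ≠ ⊥) (x : ℚ) :
    ∑ j ∈ Finset.range 2, PhiI b e ∞ (((x + j) / 2 : ℚ) : OnePoint ℚ) = 0 := by
  obtain ⟨-, -, -, -, -, -, -, hg, -, -⟩ := valT hS
  have hcq := toCQ hS.case.toCQ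
  have hI := fun r : ℚ => MUXF.xf_ITG A B hcq b _ e hb hg (toEI he) r
  have e1 : ∀ j ∈ Finset.range 2, PhiI b e ∞ (((x + j) / 2 : ℚ) : OnePoint ℚ) =
      2 * Real.pi * ∫ t in Set.Ioi (0 : ℝ), thetaI b e (((x / 2 : ℚ) : ℂ) + t * Complex.I +
        (j : ℂ) / 2) := by
    intro j _
    rw [Qsx.PhiI_inf]
    unfold IvI
    rw [neg_mul, neg_neg]
    congr 1
    refine MeasureTheory.integral_congr_ae (Filter.Eventually.of_forall fun t => ?_)
    show thetaI b e _ = thetaI b e _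
    congr 1
    push_cast
    ring
  rw [Finset.sum_congr rfl e1, ← Finset.mul_sum, ← MeasureTheory.integral_finsetSum]
  · have e2 : ∫ t in Set.Ioi (0 : ℝ), ∑ j ∈ Finset.range 2,
        thetaI b e (((x / 2 : ℚ) : ℂ) + t * Complex.I + (j : ℂ) / 2) = 0 := by
      rw [MeasureTheory.setIntegral_congr_fun (g := fun _ => (0 : ℂ)) measurableSet_Ioi]
      · simp
      · intro t ht
        refine theta_dep hS he hb _ ?_
        have h1 : (((x / 2 : ℚ) : ℂ)).im = 0 := by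
          rw [← Complex.ofReal_ratCast]
          exact Complex.ofReal_im _
        rw [Complex.add_im, h1, zero_add, Complex.mul_im]
        simpa using ht
    rw [e2, mul_zero]
  · intro j _
    have h1 := hI ((x + j) / 2)
    refine h1.congr_fun ?_ measurableSet_Ioi
    intro t _
    show thetaI b e _ = thetaI b e _
    congr 1
    push_cast
    ring

end

end Pool.Agent.ME2H


end
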