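import Mathlib
import Pool.Agent.MVF.C125
import Pool.Agent.MVF.C131
import Pool.Agent.MVF.C135
import Pool.Agent.MVF.C136
import Pool.Agent.MVF.C137
import Pool.Agent.MVF.C144
import Pool.Agent.MVF.C145
import Pool.Agent.MVF.C148

/-! Parts: N2.HAllU, N2.IAllT, N2.IAllR, N2.ZFinT, N2.ZInert2, N2.ZFinR, N2.ZAll2, HB.JT2 -/

section

/-!
# N2, block H without hypotheses (helper41)
-/

set_option autoImplicit false

namespace Pool.Agent.N2Z

open _root_.Pool.Agent.N2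

/-- the character sums, `2` inert -/
theorem h_HFINT0 : S2_HFIN := h_HFINT Pool.Agent.N2R.r_RFIN

/-- the character sums, `2` ramified -/
theorem h_HFINU0 : SQ_HFIN := h_HFINU gq_GPT Pool.Agent.N2R.r_RFINQ

end Pool.Agent.N2Z


end

section

/-!
# MUX-2N, block I2N without hypotheses (helper36): `2` inert; the inputs are blocks R, E, H
-/

set_option autoImplicit false

namespace Pool.Agent.N2I

open _root_.Pool.Agent.MUXF _root_.Pool.Agent.MUXI _root_.Pool.Agent.MUXK _root_.Pool.Agent.NSI _root_.Pool.Agent.N2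

theorem t_KAP : St_KAP := tt_KAP
theorem t_TE2 : St_TE2 := tt_TE2
theorem t_EPT : St_EPT := tt_EPT t_KAP t_TE2 xf_ALG
theorem t_CYC : St_CYC := tt_CYC i_LAY

theorem t_LVX : Pool.Agent.NSZ.Zl_LVX := Pool.Agent.NSZ.tl_LVX

theorem t_INW : Pool.Agent.NSZ.Zl_INW :=
  Pool.Agent.NSZ.tl_INW t_LVX n_SUB MUXW.z_MEM MUXW.z_TOW MUXW.z_SUC MUXW.z_I1 MUXW.z_KOL

theorem t_THN : Pool.Agent.MUXZ.Sz_THN := Pool.Agent.MUXZ.tz_THN MUXW.z_THG

theorem t_I31 (hH : S2_HFIN) : St_I31 :=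
  tt_I31 Pool.Agent.MUXJ.j_RES i_CHI n_FOU Pool.Agent.MU3I.t_ITG t_EPT n_E0 i_ARF i_XXF n_SUB
    i_GAM n_XMX i_BIJ n_TH i_GEN hH k_GALX

theorem t_INP (hH : S2_HFIN) : St_INP := tt_INP (t_I31 hH) n_LEM1 n_NRX

/-- the result of block I2N -/
theorem t_INPG (hRF : S2_RFIN) (hEF : S2_EFIN) (hH : S2_HFIN) : St_INPG :=
  tt_INPG hRF hEF (t_INP hH) t_CYC t_LVX t_INW n_SUB t_THN MUXW.z_MEM MUXW.z_CXS MUXY.z_REX

end Pool.Agent.N2I


end

section

/-!
# MUX-2R, block IR without hypotheses (helper36): `2` ramified, `D ≠ -4`; the inputs are blocks R, E, H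
-/

set_option autoImplicit false

namespace Pool.Agent.N2IR

open _root_.Pool.Agent.MUXF _root_.Pool.Agent.MUXI _root_.Pool.Agent.MUXK _root_.Pool.Agent.NSI _root_.Pool.Agent.N2
open _root_.Pool.Agent.N2I (t_LVX t_THN t_CYC)

theorem r_EPQ : Sr_EPQ := tr_EPQ
theorem r_GALY : Sr_GALY := tr_GALY
theorem r_ORDY : Sr_ORDY := tr_ORDY r_GALY
theorem r_LFY : Sr_LFY := tr_LFY r_GALY k_GALX
theorem r_INWY : Sr_INWY :=
  tr_INWY r_ORDY t_LVX n_SUB MUXW.z_MEM MUXW.z_TOW MUXW.z_SUC MUXW.z_I1 MUXW.z_KOL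
theorem r_NR1Y : Sr_NR1Y := tr_NR1Y r_GALY k_GALX r_ORDY r_LFY
theorem r_NRXY : Sr_NRXY := tr_NRXY r_NR1Y k_RSX
theorem r_LEM1Y : Sr_LEM1Y := tr_LEM1Y k_GALX k_RSX

theorem r_I31 (hH : SQ_HFIN) : Sr_I31 :=
  tr_I31 Pool.Agent.MUXJ.j_RES i_CHI n_FOU Pool.Agent.MU3I.t_ITG r_EPQ n_E0 i_ARF i_XXF n_SUB
    i_GAM n_XMX i_BIJ n_TH i_GEN hH k_GALX

theorem r_INP (hH : SQ_HFIN) : Sr_INP := tr_INP (r_I31 hH) r_LEM1Y r_NRXY

/-- the result of block IR -/
theorem r_INPG (hRF : SQ_RFIN) (hEF : SQ_EFIN) (hH : SQ_HFIN) : SQ_INPG :=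
  tr_INPG hRF hEF (r_INP hH) t_CYC t_LVX r_INWY n_SUB t_THN MUXW.z_MEM MUXW.z_CXS MUXY.z_REX

end Pool.Agent.N2IR


end

section

/-!
# MUX-2N: the final theorem for `p = 2` inert in `k`, `D ≠ -3` (helper36)
-/

set_option autoImplicit false

open NumberField IsDedekindDomain

namespace Pool.Agent.N2Z

open _root_.MU3 _root_.Pool.Agent.MU3 _root_.Pool.Agent.MU3A _root_.Pool.Agent.MU3B _root_.Pool.Agent.RI _root_.Pool.Agent.RID
  _root_.Pool.Agent.MUX _root_.Pool.Agent.MUXK _root_.Pool.Agent.MUXJ _root_.Pool.Agent.MUXZ _root_.Pool.Agent.MU3Z _root_.Pool.Agent.NSZ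
  _root_.Pool.Agent.N2 _root_.Pool.Agent.N2I

theorem caseT_B {A B : ℤ} (hC : CaseT A B) : B = 1 := by
  rcases hC.hB with h | h
  · have h2 := hC.two
    rw [h] at h2
    omega
  · exact h

/-- `2` is a prime element of `O` -/
theorem two_max {A B : ℤ} (hC : CaseT A B) : (idl (A := A) (B := B) 2).IsMaximal := by
  have hB := caseT_B hC
  have h2 := hC.two
  subst hB
  apply idl_max 2 Nat.prime_two
  intro a b h
  have hA : A % 2 = 1 := by omega
  push_cast at h ⊢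
  rcases Int.emod_two_eq_zero_or_one a with ha | ha <;>
    rcases Int.emod_two_eq_zero_or_one b with hb | hb
  · omega
  all_goals
    exfalso
    obtain ⟨c, hc⟩ := h
    have h3 : (a ^ 2 + 1 * a * b - A * b ^ 2) % 2 = 0 := by
      rw [hc]
      omega
    rw [Int.sub_emod, Int.add_emod, Int.mul_emod A, pow_two, pow_two, Int.mul_emod a a,
      Int.mul_emod (1 * a) b, Int.mul_emod 1 a, Int.mul_emod b b, ha, hb, hA] at h3
    norm_num at h3

/-- THE MAIN THEOREM, `2` inert -/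
theorem z_main2 (hRF : S2_RFIN) (hG : St_INPG) (A B : ℤ) (hC : CaseT A B)
    (F M K : IntermediateField ℚ ℂ) [FiniteDimensional ℚ M] (hF : kk A B ≤ F) (h : F ≤ M)
    (a : ℕ) (hT : TorU A B F) (hGal : IsGalois F (IntermediateField.extendScalars h))
    (ha : Module.finrank F (IntermediateField.extendScalars h) = 2 ^ a) (hK : K ≤ M) :
    ∃ C : ℕ, ∀ (n : ℕ) (Q : IntermediateField ℚ ℂ), IsLayer 2 n Q →
      padicValNat 2 (classNo (K ⊔ Q)) ≤ C * (n + 1) ^ C := by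
  have : Fact (Nat.Prime 2) := ⟨Nat.prime_two⟩
  have hCQ : MUX.CQ A B := hC.toCQ
  have hmax := two_max hC
  obtain ⟨V, hV⟩ := vex hCQ _ hmax
  have hTor := MUXC.c_TOR A B hCQ
  have hB := caseT_B hC
  have hpos : 0 < absD A B := by
    have := hCQ.neg
    unfold absD
    omega
  have hodd : absD A B % 2 = 1 := by
    unfold absD
    rw [hB]
    omega
  have hd3 : absD A B ≠ 3 := by
    intro h
    apply hC.exc
    refine ⟨hB, ?_⟩
    unfold absD at h
    rw [hB] at h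
    omega
  have hd4 : absD A B ≠ 4 := by omega
  have hNL : NLex A B := by
    obtain ⟨L, om, hL⟩ := MUXY.z_NLE A B hCQ hd3 hd4 ⊤ (by
      have := (MUXE.xe_RNG A B hCQ).ded
      exact bot_ne_top.symm)
    exact ⟨⊤, L, om, hL⟩
  have hU : UnrH A B V := by
    have h1 := (hRF A B V hC hV hTor).2 1 one_ne_zero (by norm_num)
    have h2 : idl (A := A) (B := B) 1 = ⊤ := by
      unfold idl
      rw [Nat.cast_one, Ideal.span_singleton_one]
    rw [h2] at h1
    exact h1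
  refine j_FING 2 1 (3 * (absD A B).toNat) A B (idl 2) V (aboX 2 (Or.inl rfl) hCQ hmax V hV)
    (by omega) (by omega) (by norm_num) hU hTor hNL (hG A B V hC hV hTor) F M K hF h a hT hGal
    ha hK

/-- every finite extension of `ℚ` inside the maximal abelian extension of `ℚ(√-d)`, `d ≡ 3` modulo 8,
`d ≠ 3` -/
theorem final2 (hRF : S2_RFIN) (hG : St_INPG) (d : ℕ) (hd : Squarefree d) (h8 : d % 8 = 3)
    (h3 : d ≠ 3) (K : IntermediateField ℚ ℂ) [FiniteDimensional ℚ K] (hK : K ≤ weberField d) :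
    ∃ C : ℕ, ∀ (n : ℕ) (Q : IntermediateField ℚ ℂ), IsLayer 2 n Q →
      padicValNat 2 (classNo (K ⊔ Q)) ≤ C * (n + 1) ^ C := by
  have h1 : d ≠ 1 := by omega
  have hC : CaseT (pA d) (pB d) := by
    have h4 := absD_p d
    have hB : pB d = 1 := by
      unfold pB
      rw [if_pos (by omega)]
    refine { cq_p hd with two := ?_, exc := ?_ }
    · unfold absD at h4
      rw [if_pos (by omega)] at h4
      omega
    · rintro ⟨-, h5⟩
      unfold absD at h4
      rw [if_pos (by omega), hB, h5] at h4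
      omega
  refine to_weber hd h1 h3 (MUXC.c_TOR _ _ (cq_p hd)) ?_ K hK
  intro F M K _ hF h a hT hGal ha hK
  exact z_main2 hRF hG _ _ hC F M K hF h a hT hGal ha hK

end Pool.Agent.N2Z


end

section

/-!
# MUX-2N, all blocks put together: `p = 2` inert in `k`, `D ≠ -3`, no hypotheses (helper41)
-/

set_option autoImplicit false

open NumberField IsDedekindDomain

namespace Pool.Agent.N2Z

open _root_.MU3 _root_.Pool.Agent.MU3 _root_.Pool.Agent.MU3A _root_.Pool.Agent.MU3B _root_.Pool.Agent.RI _root_.Pool.Agent.RID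
  _root_.Pool.Agent.MUX _root_.Pool.Agent.MUXK _root_.Pool.Agent.MUXJ _root_.Pool.Agent.MUXZ _root_.Pool.Agent.MU3Z _root_.Pool.Agent.NSZ
  _root_.Pool.Agent.N2 _root_.Pool.Agent.N2I

/-- the inputs of block J, `2` inert -/
theorem i_INPG2 : St_INPG :=
  Pool.Agent.N2I.t_INPG Pool.Agent.N2R.r_RFIN (Pool.Agent.N2E.d_EFIN Pool.Agent.N2R.r_RFIN)
    (h_HFINT Pool.Agent.N2R.r_RFIN)

/-- the main theorem for ray class fields, `2` inert -/
theorem z_main2u (A B : ℤ) (hC : CaseT A B)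
    (F M K : IntermediateField ℚ ℂ) [FiniteDimensional ℚ M] (hF : kk A B ≤ F) (h : F ≤ M)
    (a : ℕ) (hT : TorU A B F) (hGal : IsGalois F (IntermediateField.extendScalars h))
    (ha : Module.finrank F (IntermediateField.extendScalars h) = 2 ^ a) (hK : K ≤ M) :
    ∃ C : ℕ, ∀ (n : ℕ) (Q : IntermediateField ℚ ℂ), IsLayer 2 n Q →
      padicValNat 2 (classNo (K ⊔ Q)) ≤ C * (n + 1) ^ C :=
  z_main2 Pool.Agent.N2R.r_RFIN i_INPG2 A B hC F M K hF h a hT hGal ha hK

/-- every finite extension of `ℚ` inside the maximal abelian extension of `ℚ(√-d)`, `d ≡ 3` modulo 8,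
`d ≠ 3` -/
theorem final2u (d : ℕ) (hd : Squarefree d) (h8 : d % 8 = 3)
    (h3 : d ≠ 3) (K : IntermediateField ℚ ℂ) [FiniteDimensional ℚ K] (hK : K ≤ weberField d) :
    ∃ C : ℕ, ∀ (n : ℕ) (Q : IntermediateField ℚ ℂ), IsLayer 2 n Q →
      padicValNat 2 (classNo (K ⊔ Q)) ≤ C * (n + 1) ^ C :=
  final2 Pool.Agent.N2R.r_RFIN i_INPG2 d hd h8 h3 K hK

end Pool.Agent.N2Z


end

section

/-!
# MUX-2R: the final theorem for `p = 2` ramified in `k`, `D ≠ -4` (helper36)
-/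

set_option autoImplicit false

open NumberField IsDedekindDomain

namespace Pool.Agent.N2Z

open _root_.MU3 _root_.Pool.Agent.MU3 _root_.Pool.Agent.MU3A _root_.Pool.Agent.MU3B _root_.Pool.Agent.RI _root_.Pool.Agent.RID
  _root_.Pool.Agent.MUX _root_.Pool.Agent.MUXK _root_.Pool.Agent.MUXJ _root_.Pool.Agent.MUXZ _root_.Pool.Agent.MU3Z _root_.Pool.Agent.NSZ
  _root_.Pool.Agent.N2

/-- THE MAIN THEOREM, `2` ramified -/
theorem z_main2R (hKAP : SQ_KAP) (hRF : SQ_RFIN) (hG : SQ_INPG) (hJ : SQ_JFIN) (A B : ℤ)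
    (hC : CaseR2 A B) (F M K : IntermediateField ℚ ℂ) [FiniteDimensional ℚ M] (hF : kk A B ≤ F)
    (h : F ≤ M) (a : ℕ) (hT : TorU A B F)
    (hGal : IsGalois F (IntermediateField.extendScalars h))
    (ha : Module.finrank F (IntermediateField.extendScalars h) = 2 ^ a) (hK : K ≤ M) :
    ∃ C : ℕ, ∀ (n : ℕ) (Q : IntermediateField ℚ ℂ), IsLayer 2 n Q →
      padicValNat 2 (classNo (K ⊔ Q)) ≤ C * (n + 1) ^ C := by
  have hCQ : MUX.CQ A B := hC.toCQ
  have hB := hC.b0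
  obtain ⟨P, hP, hmax⟩ := exists_isPN 2 Nat.prime_two A B A (by
    rw [hB]
    have h1 : A % 2 = 0 ∨ A % 2 = 1 := by omega
    push_cast
    rcases h1 with h1 | h1
    · obtain ⟨c, hc⟩ : (2 : ℤ) ∣ A := Int.dvd_of_emod_eq_zero h1
      exact ⟨c - c * A, by rw [hc]; ring⟩
    · obtain ⟨c, hc⟩ : (2 : ℤ) ∣ A - 1 := by omega
      exact ⟨-(c * A), by linear_combination (-A) * hc⟩)
  obtain ⟨V, hV⟩ := vex hCQ P hmax
  have hTor := MUXC.c_TOR A B hCQ
  have hd3 : absD A B ≠ 3 := by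
    intro h
    unfold absD at h
    rw [hB] at h
    omega
  have hd4 : absD A B ≠ 4 := by
    intro h
    apply hC.exc
    unfold absD at h
    rw [hB] at h
    omega
  have hNL : NLex A B := by
    obtain ⟨L, om, hL⟩ := MUXY.z_NLE A B hCQ hd3 hd4 ⊤ (by
      have := (MUXE.xe_RNG A B hCQ).ded
      exact bot_ne_top.symm)
    exact ⟨⊤, L, om, hL⟩
  have hU : UnrH A B V := by
    have h1 := (hRF A B P V hC hP hV hTor).2 1 one_ne_zero (by norm_num)
    have h2 : idl (A := A) (B := B) 1 = ⊤ := by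
      unfold idl
      rw [Nat.cast_one, Ideal.span_singleton_one]
    rw [h2] at h1
    exact h1
  obtain ⟨d, hd0, hd2, hdD, hκ⟩ := hKAP A B hC
  exact hJ A B P V d hC hP hV hd0 hd2 hU hTor hNL (hG A B P V d hC hP hV hTor hd0 hd2 hdD hκ)
    F M K hF h a hT hGal ha hK

/-- every finite extension of `ℚ` inside the maximal abelian extension of `ℚ(√-d)`, `d ≡ 1, 2`
modulo 4, `d ≠ 1` -/
theorem final2R (hKAP : SQ_KAP) (hRF : SQ_RFIN) (hG : SQ_INPG) (hJ : SQ_JFIN) (d : ℕ)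
    (hd : Squarefree d) (h4 : d % 4 ≠ 3) (h1 : d ≠ 1) (K : IntermediateField ℚ ℂ)
    [FiniteDimensional ℚ K] (hK : K ≤ weberField d) :
    ∃ C : ℕ, ∀ (n : ℕ) (Q : IntermediateField ℚ ℂ), IsLayer 2 n Q →
      padicValNat 2 (classNo (K ⊔ Q)) ≤ C * (n + 1) ^ C := by
  have h3 : d ≠ 3 := by omega
  have hC : CaseR2 (pA d) (pB d) := by
    have h5 := absD_p d
    have hB : pB d = 0 := by
      unfold pB
      rw [if_neg (by omega)]
    refine { cq_p hd with two := ?_, exc := ?_ }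
    · rw [hB]
      exact ⟨2 * pA d, by ring⟩
    · intro h6
      unfold absD at h5
      rw [if_neg (by omega), hB, h6] at h5
      omega
  refine to_weber hd h1 h3 (MUXC.c_TOR _ _ (cq_p hd)) ?_ K hK
  intro F M K _ hF h a hT hGal ha hK
  exact z_main2R hKAP hRF hG hJ _ _ hC F M K hF h a hT hGal ha hK

end Pool.Agent.N2Z


end

section

/-!
# MUX: the theorem for `p = 2` and all imaginary quadratic fields except `ℚ(i)`, `ℚ(√-3)` (helper36)

The three cases: `2` split (`MUX/ZFin.lean`, helper3), inert (`N2/ZInert2.lean`: blocks R helper77, E helper34, G, T, H helper6, helper4, helper66,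
helper41, I helper36), ramified (`N2/ZFinR.lean`: blocks R, KAP helper77, E helper59, G, T, H helper6, helper4, helper66, helper41, I helper36, K helper66,
J helper34).
-/

set_option autoImplicit false

open NumberField IsDedekindDomain

namespace Pool.Agent.N2Z

open _root_.MU3 _root_.Pool.Agent.MU3 _root_.Pool.Agent.MU3A _root_.Pool.Agent.MU3B _root_.Pool.Agent.RI _root_.Pool.Agent.RID
  _root_.Pool.Agent.MUX _root_.Pool.Agent.MUXK _root_.Pool.Agent.MUXJ _root_.Pool.Agent.MUXZ _root_.Pool.Agent.MU3Z _root_.Pool.Agent.NSZ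
  _root_.Pool.Agent.N2

theorem r_INPG2 : SQ_INPG :=
  Pool.Agent.N2IR.r_INPG Pool.Agent.N2R.r_RFINQ (Pool.Agent.N2V.v_EFIN Pool.Agent.N2R.r_RFINQ)
    h_HFINU0

/-- `p = 2`, ramified in `k`, `k ≠ ℚ(i)`, for ray class fields -/
theorem z_main2r (A B : ℤ) (hC : CaseR2 A B) (F M K : IntermediateField ℚ ℂ)
    [FiniteDimensional ℚ M] (hF : kk A B ≤ F) (h : F ≤ M) (a : ℕ) (hT : TorU A B F)
    (hG : IsGalois F (IntermediateField.extendScalars h))
    (ha : Module.finrank F (IntermediateField.extendScalars h) = 2 ^ a) (hK : K ≤ M) :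
    ∃ C : ℕ, ∀ (n : ℕ) (Q : IntermediateField ℚ ℂ), IsLayer 2 n Q →
      padicValNat 2 (classNo (K ⊔ Q)) ≤ C * (n + 1) ^ C :=
  z_main2R sq_KAP Pool.Agent.N2R.r_RFINQ r_INPG2 (j_JFIN Pool.Agent.N2K.j_MAINKY) A B hC F M K hF h
    a hT hG ha hK

/-- `p = 2`, all `k` except `ℚ(i)`, `ℚ(√-3)`, for ray class fields -/
theorem z_all2 (A B : ℤ) (hC : MUX.CQ A B) (h3 : absD A B ≠ 3) (h4 : absD A B ≠ 4)
    (F M K : IntermediateField ℚ ℂ) [FiniteDimensional ℚ M] (hF : kk A B ≤ F) (h : F ≤ M)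
    (a : ℕ) (hT : TorU A B F) (hG : IsGalois F (IntermediateField.extendScalars h))
    (ha : Module.finrank F (IntermediateField.extendScalars h) = 2 ^ a) (hK : K ≤ M) :
    ∃ C : ℕ, ∀ (n : ℕ) (Q : IntermediateField ℚ ℂ), IsLayer 2 n Q →
      padicValNat 2 (classNo (K ⊔ Q)) ≤ C * (n + 1) ^ C := by
  unfold absD at h3 h4
  rcases hC.hB with hB | hB
  · have hR : CaseR2 A B := { hC with
      two := by
        rw [hB]
        exact ⟨2 * A, by ring⟩
      exc := by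
        intro h5
        rw [hB, h5] at h4
        norm_num at h4 }
    exact z_main2r A B hR F M K hF h a hT hG ha hK
  · have h0 : (B ^ 2 + 4 * A) % 8 = 1 ∨ (B ^ 2 + 4 * A) % 8 = 5 := by
      rw [hB]
      omega
    rcases h0 with h0 | h0
    · have hP : CaseP 2 A B := { hC with
        split := Or.inr ⟨rfl, by omega⟩ }
      exact z_main 2 A B hP F M K hF h a hT hG ha hK
    · have hI : CaseT A B := { hC with
        two := by omega
        exc := by
          rintro ⟨h5, h6⟩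
          rw [h5, h6] at h3
          norm_num at h3 }
      exact z_main2u A B hI F M K hF h a hT hG ha hK

/-- `p = 2`, in terms of `weberField d`, `d ≠ 1, 3` -/
theorem final2_all (d : ℕ) (hd : Squarefree d) (h1 : d ≠ 1) (h3 : d ≠ 3)
    (K : IntermediateField ℚ ℂ) [FiniteDimensional ℚ K] (hK : K ≤ weberField d) :
    ∃ C : ℕ, ∀ (n : ℕ) (Q : IntermediateField ℚ ℂ), IsLayer 2 n Q →
      padicValNat 2 (classNo (K ⊔ Q)) ≤ C * (n + 1) ^ C := by
  have h5 := absD_p d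
  refine to_weber hd h1 h3 (MUXC.c_TOR _ _ (cq_p hd)) ?_ K hK
  intro F M K _ hF h a hT hG ha hK
  refine z_all2 _ _ (cq_p hd) ?_ ?_ F M K hF h a hT hG ha hK <;>
  · rw [h5]
    split_ifs <;> omega

end Pool.Agent.N2Z


end

section

/-!
# JT: `p = 2`, all imaginary quadratic fields except `ℚ(i)`, `ℚ(√-3)` (helper3)
-/

set_option autoImplicit false

open NumberField

namespace Pool.Agent.JT

open _root_.MU3 _root_.Pool.Agent.MU3A _root_.Pool.Agent.RI _root_.Pool.Agent.MUX _root_.Pool.Agent.MUXJ _root_.Pool.Agent.HB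
  _root_.Pool.Agent.N2Z _root_.Pool.Agent.N2

theorem finJ2_non (d : ℕ) (hd : Squarefree d) (h1 : d ≠ 1) (h3 : d ≠ 3) : FinJ 2 d :=
  finJ_of (fun A B hC h3 h4 F M K _ hF h a hT hG ha hK => z_all2 A B hC h3 h4 F M K hF h a hT hG ha hK)
    d hd h1 h3

end Pool.Agent.JT


end
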