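import Mathlib
import Pool.Agent.MVF.C034
import Pool.Agent.MVF.C041
import Pool.Agent.MVF.C044
import Pool.Agent.MVF.C076
import Pool.Agent.MVF.C079

/-! Parts: NS.StGR, NS.GR_UNR, NS.GR_RSC, NS.GR_QB3, NS.GR_PHR, NS.GR_ODU, NS.GR_GVP, NS.GR_GTP, NS.F_DIF, NS.ZR_VEX -/

namespace Pool.Agent.NSER.DIF
end Pool.Agent.NSER.DIF
namespace Pool.Agent.NSGR.QB3
end Pool.Agent.NSGR.QB3
namespace Pool.Agent.NSGR.RSC
end Pool.Agent.NSGR.RSC

section

/-!
# MUX-NS, block GR (helper87): Theorem G+ and the producers of `HypR`, ramified case (`3 = P²`, `D ≠ -3`)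

Definitions: `NS/DefsR.lean`, `NS/StGN.lean`. THEOREM G+: let `g = Σ b_n q^n` be a form in the span with `b_n = 0` for `3 ∣ n` (depleted), all closed periods
divided by `Om` in `V`. Then `v(b_1)^12 ≤ v 3` (additively: at least `1/12`). IDEA. `Z = ∫ g`, `Z(τ) + Z(τ + 1/3) + Z(τ + 2/3) = 0`, so the three points
`Q = (X, Y)`, `α Q`, `α² Q` (`α : q ↦ ω q`, `ω` a third root of unity) of the curve over the field of `q`-series are collinear, and `α ≡ 1` modulo `ω - 1`, `v(ω - 1)² = v 3`.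
Then as in helper3's Gauss lemma (`Sg_GV`, `Sg_GP`, `Sg_BIN`, `Sg_GJ`, `Sg_GTHX`).

Every statement is a `def Sv_X : Prop`; the module NSG_X (table `modules`: `NSGR_X`) proves `theorem tv_X (h : ..) .. : Sv_X` in `Pool/Agent/NS/GR_X.lean`, namespace
`Pool.Agent.NSGR` (private lemmas in `Pool.Agent.NSGR.X`), with the statements named under USES as hypotheses (fewer is fine). Unconditional and usable: `Pool.Agent.MU3B.b_X : St_X`
(`MU3/BAll.lean`), the theorems of `Pool/Agent/MU3/Q_*.lean` (`t_ODE`, `t_ODEK`, ..), `Pool.Agent.MU3A.ta_SCP`, `Pool.Agent.MUXU.u_X : Su_X` (`MUX/UAll.lean`), `Pool.Agent.MUXF.xf_X : Sx_X`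
(`MUX/XFAll.lean`). `v = V.valuation`.
-/

set_option autoImplicit false

namespace Pool.Agent.NSGR

open _root_.MU3 _root_.Pool.Agent.MU3A _root_.Pool.Agent.MU3B _root_.Pool.Agent.MU3Q _root_.Pool.Agent.MUX _root_.Pool.Agent.NS
  _root_.Pool.Agent.NSRD _root_.Pool.Agent.NSG _root_.Pool.Agent.MUXN _root_.Pool.Agent.MuSym OnePoint UpperHalfPlane
open _root_.Pool.Agent.MUXF (qb)
open scoped MatrixGroups

noncomputable section

/-! ## Definitions -/

/-- `S` solves the differential equation of `1/x(Z)`, with the right first coefficients -/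
structure OdeS (a2 a4 : ℂ) (z S : PowerSeries ℂ) : Prop where
  c0 : PowerSeries.coeff 0 S = 0
  c1 : PowerSeries.coeff 1 S = 0
  c2 : PowerSeries.coeff 2 S = PowerSeries.coeff 1 z ^ 2
  ode : thetaD S ^ 2 = 4 * S * (1 + a2 • S + a4 • S ^ 2) * thetaD z ^ 2

/-- the three points `Z`, `α Z`, `α² Z` are collinear, in terms of `S = 1/x`; `S₁ = S(ω q)`, `S₂ = S(ω² q)`, `g = θ z` -/
def ColS (ω a2 a4 : ℂ) (z S : PowerSeries ℂ) : Prop :=
  (S * PowerSeries.rescale ω S + S * PowerSeries.rescale (ω ^ 2) S +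
      PowerSeries.rescale ω S * PowerSeries.rescale (ω ^ 2) S +
      a2 • (S * PowerSeries.rescale ω S * PowerSeries.rescale (ω ^ 2) S)) *
    (thetaD S * PowerSeries.rescale ω (thetaD z) * PowerSeries.rescale ω S ^ 2 +
      PowerSeries.rescale ω (thetaD S) * thetaD z * S ^ 2) ^ 2 =
  4 * S * PowerSeries.rescale ω S * PowerSeries.rescale (ω ^ 2) S * thetaD z ^ 2 *
    PowerSeries.rescale ω (thetaD z) ^ 2 *
    (S ^ 2 + S * PowerSeries.rescale ω S + PowerSeries.rescale ω S ^ 2 +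
      a2 • (S * PowerSeries.rescale ω S * (S + PowerSeries.rescale ω S)) +
      a4 • (S ^ 2 * PowerSeries.rescale ω S ^ 2)) ^ 2

/-- the part of the family of weights with `N b_i ≡ 1` modulo `3` -/
def kkp {A B : ℤ} {n : ℕ} {ι : Type} (R : Reps A B n ι) (kk : ι → ℂ) (i : ι) : ℂ :=
  open Classical in if (3 : ℤ) ∣ (nI (R.b i) : ℤ) - 1 then kk i else 0

/-- the part with `N b_i ≡ 2` modulo `3` -/
def kkm {A B : ℤ} {n : ℕ} {ι : Type} (R : Reps A B n ι) (kk : ι → ℂ) (i : ι) : ℂ :=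
  open Classical in if (3 : ℤ) ∣ (nI (R.b i) : ℤ) - 1 then 0 else kk i

/-- `(Φ⁺ + ι^* Φ⁻)/Om`, `Om = u om_(i0)` -/
def PR {A B : ℤ} {n : ℕ} {ι : Type} [Fintype ι] (R : Reps A B n ι) (e : OO A B → ℂ)
    (kk : ι → ℂ) (u : ℂ) (x y : OnePoint ℚ) : ℂ :=
  (PhiK R e (kkp R kk) x y +
    PhiK R e (kkm R kk) (mob (-1) 0 0 1 x) (mob (-1) 0 0 1 y)) / (u * R.om R.i0)

/-! ## Theorem G+ -/

/-- (ODU) uniqueness of the solution of the differential equation.

PROOF. Strong induction on `n`: `coeff n S = coeff n S'`. `n ≤ 2`: given. `n = k + 3`: as in `Q_ODEK.step` (`Pool/Agent/MU3/Q_ODEK.lean`): let `T` be the common truncation of `S`, `S'` below `k + 3`; the coefficient `k + 5` of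
`θT² - 4 T (1 + a2 T + a4 T²) θz²` is `-4 (k + 2) z_1² coeff (k+3) S` and also `-4 (k+2) z_1² coeff (k+3) S'`. -/
def Sv_ODU : Prop :=
  ∀ (a2 a4 : ℂ) (z S S' : PowerSeries ℂ), PowerSeries.coeff 1 z ≠ 0 → OdeS a2 a4 z S →
    OdeS a2 a4 z S' → S = S'

/-- (COL) collinearity.

PROOF. Everything as in the proof of `t_ODE` (`Pool/Agent/MU3/Q_ODE.lean`; `Ser`, `sf`, `sf_ode`): `φ(q) = Σ z_n q^n` near `0`, `S` = the Taylor series of `F = sf L c0 ∘ φ`. `PowerSeries.rescale ω f` is the series of `q ↦ f(ω q)`. `φ(q) + φ(ω q) + φ(ω² q) = 0`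
(`1 + ω^n + ω^(2n) = 0` for `3 ∤ n`, `z_n = 0` for `3 ∣ n`). For small `q ≠ 0` put `u_j = φ(ω^j q)`: `u_0, u_1, u_2`, `u_0 - u_1` are not in `L` (small and `≠ 0`: the leading coefficients are `ω^j z_1`, `(1 - ω) z_1`), `x_j = ℘(u_j) + c0 = 1/s_j`, `s_j = F(ω^j q)`, `y_j = ℘'(u_j)/2`.
Addition theorem (`b_ADD : St_ADD`, block B): `℘(u_0 + u_1) = ((℘'(u_0) - ℘'(u_1))/(℘(u_0) - ℘(u_1)))²/4 - ℘(u_0) - ℘(u_1)`, `u_0 + u_1 = -u_2`, `℘` even; the constants are compared by `hrel`: comparing `℘'² = 4℘³ - g₂℘ - g₃` with `hrel` gives `a2 = -3 c0`. So `x_0 + x_1 + x_2 + a2 = ((y_0 - y_1)/(x_0 - x_1))²`,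
and `(y_0 - y_1)(y_0 + y_1) = (x_0 - x_1) N`, `N = x_0² + x_0 x_1 + x_1² + a2 (x_0 + x_1) + a4`; so `(x_0 + x_1 + x_2 + a2)(y_0 + y_1)² = N²`. Next `F' = sf'(φ) φ'`, `sf'(u) = -℘'(u)/(℘(u) + c0)² = -2 y s²` (proof of `sf_ode`), so `θS` has the value `-2 y_0 s_0² g_0` and `rescale ω (θS)` the value `-2 y_1 s_1² g_1` at `q`
(`g_j` = value of `θz` at `ω^j q`; `θ` commutes with rescaling). Insert: both sides of `ColS` agree for all small `q ≠ 0`, so for all small `q`, and the power series are equal (`Ser.unique`). -/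
def Sv_COL : Prop :=
  ∀ (L : PeriodPair) (c0 a2 a4 a6 : ℂ),
    (∀ u : ℂ, u ∉ L.lattice → L.derivWeierstrassP u ^ 2 / 4 =
      (L.weierstrassP u + c0) ^ 3 + a2 * (L.weierstrassP u + c0) ^ 2 +
        a4 * (L.weierstrassP u + c0) + a6) → a6 = 0 →
    ∀ (Z : ℍ → ℂ) (z : PowerSeries ℂ), QS Z z → PowerSeries.coeff 1 z ≠ 0 →
      (∀ n, 3 ∣ n → PowerSeries.coeff n z = 0) → ∀ ω : ℂ, IsPrimitiveRoot ω 3 →
      ∃ S : PowerSeries ℂ, OdeS a2 a4 z S ∧ ColS ω a2 a4 z S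

/-- (GVP) the abstract estimate.

PROOF. `θ = v 3 < 1`, `d² = θ`, `d < 1`, `v 2 = 1`. `δ = al X - X`: `v δ ≤ d v(X)`, `X + al X + al (al X) = 3 X + 3 δ + (al δ - δ)` has valuation `≤ θ v(X)`. `v(al Y - Y) ≤ d v(Y)`, so `v(Y + al Y) = v(Y)` (if `Y = 0` then `D X = 0`.. use the hypothesis `Y ≠ 0`). `N = X² + X (X + δ) + (X + δ)² + a2 (2X + δ) + a4 = 3X² + 3Xδ + δ² + a2 (2X + δ) + a4`.
Case `v X ≤ 1`: `v(a2) < 1` (`v(a2)² ≤ θ`), so `v N = v a4 = 1`, `v Y ≤ 1` (equation), and the left side of the collinearity has valuation `< 1`: contradiction. Case `x = v X > 1`: `v(Y)² = x³` (compare the terms of the equation; `v(a2 X²) ≤ v(a2) x² < x³`, `v(a4 X) = x < x³`). `v(g)² = v(D X)²/v(2 Y)² ≤ x²/x³ = 1/x`, so it is enough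
that `θ x⁶ ≥ 1` (`v(g)^12 ≤ x^(-6) ≤ θ`). Suppose `θ x⁶ < 1`. Then `θ x² < 1`, `(v(a2) x)² ≤ θ x² < 1`: `v N = 1`. Left side: `v ≤ max(θ x, v(a2)) x³`, and `θ x⁴ < 1`, `(v(a2) x³)² ≤ θ x⁶ < 1`: `< 1`, contradiction. -/
def Sv_GVP : Prop :=
  ∀ (E Γ : Type) [Field E] [LinearOrderedCommGroupWithZero Γ] (v : Valuation E Γ)
    (D : E → E) (al : E ≃+* E) (d : Γ) (_ : v (3 : E) < 1) (_ : v (3 : E) ≠ 0) (_ : d ^ 2 = v (3 : E))
    (_ : ∀ x, v (D x) ≤ v x) (_ : ∀ x, v (al x - x) ≤ d * v x)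
    (a2 a4 X Y g : E) (_ : v a2 ^ 2 ≤ v (3 : E)) (_ : v a4 = 1)
    (_ : Y ^ 2 = X ^ 3 + a2 * X ^ 2 + a4 * X) (_ : D X = 2 * Y * g) (_ : Y ≠ 0) (_ : X ≠ 0)
    (_ : (X + al X + al (al X) + a2) * (Y + al Y) ^ 2 =
      (X ^ 2 + X * al X + al X ^ 2 + a2 * (X + al X) + a4) ^ 2),
    v g ^ 12 ≤ v (3 : E)

/-- (RSC) rescaling by a third root of unity on the fraction field of `O⟦q⟧`. `O` a discrete valuation ring, `v`, `D` as in `Sg_GD`.

PROOF. `Sg_GD` (`tg_GD`, see its construction: `Pool/Agent/MUX/N_GD.lean`) gives `v`, `D`. `al` = the automorphism of the fraction field induced by `PowerSeries.rescale ω` (an automorphism of `O⟦q⟧`, inverse `rescale ω²`; `IsFractionRing.ringEquivOfRingEquiv`/`IsFractionRing.fieldEquivOfRingEquiv`).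
`v(al f) = v f` for `f ∈ O⟦q⟧`: both of `v(al f) ≤ v f` and (with the inverse) `≥`: if `v f = v(C c)`.. use the third property (`v f ≤ v(C c)` implies `C c ∣ f`, so `C c ∣ al f` as `al (C c) = C c`, so `v(al f) ≤ v(C c)`), where every value `v f`, `f ≠ 0`, is some `v(C c)` (add this from the construction: `c = ϖ^n`).
`al f - f = Σ (ω^n - 1) f_n q^n` is divisible by `C (ω - 1)`, and if `v f ≤ v (C c)` then `f = C c f'`, so `v(al f - f) ≤ v(C (ω - 1)) v f` for `f ∈ O⟦q⟧`. Quotients: `al(a/b) - a/b = (b (al a - a) - a (al b - b))/(b al b)`. `d = v(C (ω - 1))`: `(ω - 1)² = -3 ω`, `ω` a unit. -/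
def Sv_RSC : Prop :=
  ∀ (O : Type) [CommRing O] [IsDomain O] [IsDiscreteValuationRing O] (ω : O)
    (_ : ω ^ 2 + ω + 1 = 0) (_ : (3 : O) ≠ 0),
    ∃ (v : Valuation (FractionRing (PowerSeries O)) (WithZero (Multiplicative ℤ)))
      (D : Derivation ℤ (FractionRing (PowerSeries O)) (FractionRing (PowerSeries O)))
      (al : FractionRing (PowerSeries O) ≃+* FractionRing (PowerSeries O))
      (d : WithZero (Multiplicative ℤ)),
      (∀ f : PowerSeries O, v (algebraMap _ _ f) ≤ 1) ∧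
      (∀ u : O, IsUnit u → v (algebraMap _ _ (PowerSeries.C u)) = 1) ∧
      (∀ u : O, ¬ IsUnit u → v (algebraMap _ _ (PowerSeries.C u)) < 1) ∧
      (∀ (f : PowerSeries O) (c : O), c ≠ 0 →
        v (algebraMap _ _ f) ≤ v (algebraMap _ _ (PowerSeries.C c)) → PowerSeries.C c ∣ f) ∧
      (∀ x, v (D x) ≤ v x) ∧
      (∀ f : PowerSeries O, D (algebraMap _ _ f) =
        algebraMap _ _ (PowerSeries.mk fun n => (n : O) * PowerSeries.coeff n f)) ∧
      (∀ f : PowerSeries O, al (algebraMap _ _ f) = algebraMap _ _ (PowerSeries.rescale ω f)) ∧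
      (∀ x, v (al x - x) ≤ d * v x) ∧ d ^ 2 = v (algebraMap _ _ (PowerSeries.C (3 : O)))

/-- (GPP) the Gauss lemma for power series, depleted case. `x = P/Q`, `g = G/c`, `W₀ = Q θP - P θQ`, `P₁ = P(ω q)` and so on.

Uses RSC, GVP. PROOF. As `Sg_GP` (`Pool/Agent/MUX/N_GP.lean`). `E` the fraction field, `X = P/Q`, `g = G/C c`, `DX = W₀/Q²`, `Y = DX/(2 g)`. The first equation (divided by `4 Q⁴ G²`) is `Y² = X³ + a2 X² + a4 X`. `D` commutes with `al` on power series, so `al Y = al(DX)/(2 al g)`, `al (DX) = W₁/Q₁²`, `W₁ = rescale ω W₀`. The second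
equation divided by `4 Q⁵ Q₁⁵ Q₂ G² G₁²` is the collinearity: `X + al X + al² X + a2 = (P Q₁ Q₂ + P₁ Q Q₂ + P₂ Q Q₁ + a2 Q Q₁ Q₂)/(Q Q₁ Q₂)`, `Y + al Y = c (W₀ Q₁² G₁ + W₁ Q² G)/(2 Q² Q₁² G G₁)`, `N = (P² Q₁² + P P₁ Q Q₁ + P₁² Q² + a2 Q Q₁ (P Q₁ + P₁ Q) + a4 Q² Q₁²)/(Q² Q₁²)`.
`v(2) = 1`: `2` is a unit as `3` is not and `3 - 2 = 1`. GVP: `v(g)^12 ≤ v(3)`, i.e. `v(G^12) ≤ v(C (3 c^12))`. (`al (al f) = rescale ω² f`: `PowerSeries.rescale_rescale`.) If `G = 0` clear. -/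
def Sv_GPP : Prop :=
  ∀ (O : Type) [CommRing O] [IsDomain O] [IsDiscreteValuationRing O] (_ : (3 : O) ≠ 0)
    (_ : ¬ IsUnit (3 : O)) (_ : (2 : O) ≠ 0) (ω : O) (_ : ω ^ 2 + ω + 1 = 0) (a2 a4 : O)
    (_ : (3 : O) ∣ a2 ^ 2) (_ : IsUnit a4) (P Q G : PowerSeries O) (c : O) (_ : c ≠ 0)
    (W₀ : PowerSeries O) (_ : Q ≠ 0) (_ : P ≠ 0) (_ : W₀ ≠ 0)
    (_ : W₀ = Q * (PowerSeries.mk fun n => (n : O) * PowerSeries.coeff n P) -
      P * (PowerSeries.mk fun n => (n : O) * PowerSeries.coeff n Q))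
    (_ : PowerSeries.C c ^ 2 * W₀ ^ 2 =
      Q * (4 * P ^ 3 + 4 * PowerSeries.C a2 * P ^ 2 * Q + 4 * PowerSeries.C a4 * P * Q ^ 2) * G ^ 2)
    (P₁ Q₁ G₁ W₁ P₂ Q₂ : PowerSeries O) (_ : P₁ = PowerSeries.rescale ω P)
    (_ : Q₁ = PowerSeries.rescale ω Q) (_ : G₁ = PowerSeries.rescale ω G)
    (_ : W₁ = PowerSeries.rescale ω W₀) (_ : P₂ = PowerSeries.rescale (ω ^ 2) P)
    (_ : Q₂ = PowerSeries.rescale (ω ^ 2) Q)
    (_ : PowerSeries.C c ^ 2 * (P * Q₁ * Q₂ + P₁ * Q * Q₂ + P₂ * Q * Q₁ +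
        PowerSeries.C a2 * Q * Q₁ * Q₂) * (W₀ * Q₁ ^ 2 * G₁ + W₁ * Q ^ 2 * G) ^ 2 =
      4 * Q * Q₁ * Q₂ * G ^ 2 * G₁ ^ 2 * (P ^ 2 * Q₁ ^ 2 + P * P₁ * Q * Q₁ + P₁ ^ 2 * Q ^ 2 +
        PowerSeries.C a2 * Q * Q₁ * (P * Q₁ + P₁ * Q) + PowerSeries.C a4 * Q ^ 2 * Q₁ ^ 2) ^ 2),
    PowerSeries.C (3 * c ^ 12) ∣ G ^ 12

/-- (BNP) as `bin_leg` (`Pool/Agent/NS/G_Bin.lean`), for a depleted series.

Uses St_WQ, Sg_DV, ODU, COL, GPP. PROOF. As `bin_leg` (same lines, `K`, `O = V.comap K.subtype`, `A`, `B`, `lft`). WQ gives `S`, `A S = B` with `OdeS (-(1 + lam)) lam z S` (`a6 = 0`: `0 • S^3 = 0`); by COL and ODU `ColS ω (-(1 + lam)) lam z S`. Multiply `ColS` by the right powers of `A`, `A₁ = rescale ω A`, `A₂` (`P = A`, `Q = B`,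
`θS = (A θB - B θA)/A² = - W₀/A²`, `W₀ = B θA - A θB`; `C c θz = G`) to get the last equation of GPP for the series over `O` (map to `ℂ⟦q⟧` is injective and commutes with `rescale`: `ω ∈ K ∩ V`). GPP: `3 c^12 ∣ G^12`; `coeff 0 G = 0`, so `coeff 12 (G^12) = (coeff 1 G)^12 = (c z_1)^12`, and it is `3 c^12` times an element of `V`.
`v(a2)² ≤ v 3` means `3 ∣ a2²` in `O`. `3 ∈ V.nonunits`: `3` is not a unit of `O`. -/
def Sv_BNP : Prop :=
  ∀ (K : Subfield ℂ) [NumberField K] (V : ValuationSubring ℂ) (_ : V.valuation (3 : ℂ) < 1)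
    (N : ℕ) (_ : 0 < N) (_ : Complex.exp (2 * Real.pi * Complex.I / N) ∈ K) (ω : ℂ) (_ : ω ∈ K)
    (_ : IsPrimitiveRoot ω 3) (L : PeriodPair) (e lam : ℂ)
    (_ : ∀ z ∉ L.lattice, L.derivWeierstrassP z ^ 2 / 4 =
      (L.weierstrassP z - e) * (L.weierstrassP z - e - 1) * (L.weierstrassP z - e - lam))
    (_ : lam ∈ K) (_ : V.valuation lam = 1) (_ : V.valuation (1 + lam) ^ 2 ≤ V.valuation (3 : ℂ))
    (Z : ℍ → ℂ) (z : PowerSeries ℂ) (_ : QS Z z) (_ : ∀ n, PowerSeries.coeff n z ∈ K)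
    (_ : ∀ n, 3 ∣ n → PowerSeries.coeff n z = 0)
    (_ : ∃ c ∈ K, c ≠ 0 ∧ c ∈ V ∧ ∀ n : ℕ, c * (n * PowerSeries.coeff n z) ∈ V)
    (_ : ∀ γ : SL(2, ℤ), ∃ (C : ℂ) (w : ℕ → ℂ), ∀ τ : ℍ, HasSum (fun n : ℕ => w n *
      Complex.exp (2 * Real.pi * Complex.I * (τ : ℂ) / N) ^ (n + 1)) (Z (γ • τ) - C))
    (_ : ∀ γ ∈ CongruenceSubgroup.Gamma1 N, ∀ τ : ℍ, Z (γ • τ) - Z τ ∈ L.lattice),
    V.valuation (PowerSeries.coeff 1 z) ^ 12 ≤ V.valuation (3 : ℂ)

/-- (GJP) as `Sn_GJ` (`NS/StGN.lean`, proof `tn_GJ` in `G_Gj.lean`), depleted.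

Uses BNP, Sg_RET, Sg_NFE. PROOF. `tn_GJ` with `p = 3`, `ω = exp(2πi/3)` added to the field `K`, and BNP in place of `bin_leg` at the end. The hypothesis `coeff n z = 0` for `3 ∣ n`: `Z τ + Z (τ + 1/3) + Z (τ + 2/3) = 0` (hypothesis on the `Θ j`), whose power series is `3 Σ_(3 ∣ n) z_n q^n`; uniqueness (`St_QA`, `t_QA`). At the end
`z_1 = emb t Σ y' α₁`, `v(emb t) = 1`. -/
def Sv_GJP : Prop :=
  ∀ (A B : ℤ) (_ : _root_.Pool.Agent.MUX.CQ A B) (J : Type) [Fintype J] (Ψ : J → OnePoint ℚ → OnePoint ℚ → ℂ)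
    (Θ : J → ℂ → ℂ) (α₁ : J → ℂ) (om : ℂ) (N' : ℕ) (_ : GDatN A B J Ψ Θ α₁ om N')
    (_ : ∀ j, ∀ τ : ℂ, 0 < τ.im → Θ j τ + Θ j (τ + 1 / 3) + Θ j (τ + 2 / 3) = 0)
    (V : ValuationSubring ℂ) (_ : V.valuation (3 : ℂ) < 1) (_ : LocN A B V) (L' : PeriodPair)
    (e lam : ℂ) (_ : LegN A B V L' om e lam) (_ : V.valuation (1 + lam) ^ 2 ≤ V.valuation (3 : ℂ))
    (r : ℕ) (h : Fin r → SL(2, ℤ)) (_ : ∀ i, h i ∈ CongruenceSubgroup.Gamma1 N')
    (_ : ∀ (ρ : SL(2, ℤ) → ℂ) (_ : ∀ g ∈ CongruenceSubgroup.Gamma1 N',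
        ∀ g' ∈ CongruenceSubgroup.Gamma1 N', ρ (g * g') = ρ g + ρ g') (M : AddSubgroup ℂ)
      (_ : ∀ i, ρ (h i) ∈ M), ∀ g ∈ CongruenceSubgroup.Gamma1 N', ρ g ∈ M)
    (w : Fin r → ℂ) (_ : ∀ i, w i ∈ kk A B ∧ w i ∈ V) (y : J → ℂ)
    (_ : ∀ l', ∑ c : J, y c * (Ψ c ∞
      (mob (h l' 0 0) (h l' 0 1) (h l' 1 0) (h l' 1 1) ∞) / om) = w l'),
    ∃ y' : J → ℂ, (∀ l', ∑ c : J, y' c * (Ψ c ∞
      (mob (h l' 0 0) (h l' 0 1) (h l' 1 0) (h l' 1 1) ∞) / om) = w l') ∧
      V.valuation (∑ c : J, y' c * α₁ c) ^ 12 ≤ V.valuation (3 : ℂ)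

/-- (GTP) THEOREM G+.

Uses GJP, Sg_DSC, Sg_ZL, Sg_FK, Sg_FGG. PROOF. `tn_GTH` (`NS/G_Gth.lean`) with two changes: by contradiction all closed values are in `V` (not only in `V.nonunits`), so `x l' ∈ V`, and the `β_j = Σ y' α₁` have `v(β_j)^12 ≤ v 3`: `Σ_j kk_j α₁ j = Σ_j x_j β_j` has `v(..)^12 ≤ v 3` (ultrametric), against the hypothesis. -/
def Sv_GTP : Prop :=
  ∀ (A B : ℤ) (_ : _root_.Pool.Agent.MUX.CQ A B) (J : Type) [Fintype J] (Ψ : J → OnePoint ℚ → OnePoint ℚ → ℂ)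
    (Θ : J → ℂ → ℂ) (α₁ : J → ℂ) (om : ℂ) (N' : ℕ) (_ : GDatN A B J Ψ Θ α₁ om N')
    (_ : ∀ j, ∀ τ : ℂ, 0 < τ.im → Θ j τ + Θ j (τ + 1 / 3) + Θ j (τ + 2 / 3) = 0)
    (V : ValuationSubring ℂ) (_ : V.valuation (3 : ℂ) < 1) (_ : LocN A B V) (L' : PeriodPair)
    (e lam : ℂ) (_ : LegN A B V L' om e lam) (_ : V.valuation (1 + lam) ^ 2 ≤ V.valuation (3 : ℂ))
    (kk : J → ℂ) (_ : V.valuation (3 : ℂ) < V.valuation (∑ j, kk j * α₁ j) ^ 12),
    ∃ a b c d : ℤ, a * d - b * c = 1 ∧ (N' : ℤ) ∣ c ∧ (N' : ℤ) ∣ d - 1 ∧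
      1 < V.valuation ((∑ j, kk j * Ψ j ∞ (mob a b c d ∞)) / om)

/-! ## The lattice, units, denominators -/

/-- (UNR) units. MODEL: `NS/G_Unn.lean` (`unit_I`), with `CaseR`: `5 ≤ |D|`, since `3 ∣ D`, `D ≠ -3`. The same conclusion. Also the existence of the units part is all that is used by `gdat` (`NS/G_Gdn.lean`). -/
def Sv_UNR : Prop :=
  ∀ (A B : ℤ), CaseR A B → (∀ x : OO A B, nm x = 1 → x = 1 ∨ x = -1) ∧
    ∀ (b : Ideal (OO A B)) (_ : b ≠ ⊥) (x : OO A B), x ∈ b → nm x = MUX.nI b → b = MUX.sp x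

/-- (LCR) common denominators. MODEL: `Sg_LOC` (`tg_LOC` in `Pool/Agent/MUX/N_LOC.lean`, gives `t ∉ P`) and `loc_I` (`NS/G_Lcn.lean`).

PROOF. `Sg_LOC` for `l = 3`; `v(emb t) = 1`: `emb t ∉ V.nonunits` (`OverI`) and `v(emb t) ≤ 1` (integral). -/
def Sv_LCR : Prop :=
  ∀ (A B : ℤ) (_ : _root_.Pool.Agent.MUX.CQ A B) (P : Ideal (OO A B)) (_ : IsPN 3 P) (V : ValuationSubring ℂ)
    (_ : OverI V P), LocN A B V

/-- (LGR) the lattice `u L_(i0)` in Legendre form, and algebraicity. MODEL: `cub`, `leg_alg`, `legN` of `NS/G_Leg.lean` (with `GoodR` instead of `GoodN`; `v(1 + lam)² ≤ v 3 < 1` gives `v(1 + lam) < 1`). `Su_SCX` is `Pool.Agent.MUXU.u_SCX`. -/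
def Sv_LGR : Prop :=
  ∀ (A B : ℤ) (_ : _root_.Pool.Agent.MUX.CQ A B) (_ : TorX A B) (n : ℕ) (ι : Type) (R : Reps A B n ι)
    (V : ValuationSubring ℂ) (_ : V.valuation (3 : ℂ) < 1) (u e lam : ℂ)
    (_ : GoodR V (R.L R.i0) u e lam),
    (IsAlgebraic ℚ u ∧ IsAlgebraic ℚ e ∧ IsAlgebraic ℚ lam) ∧
    ∃ (L' : PeriodPair), LegN A B V L' (u * R.om R.i0) (e / u ^ 2) lam

/-! ## The exponents of the theta series modulo 3 -/

/-- (QB3) the exponents modulo 3.

PROOF. `e x ≠ 0` gives `IsCoprime (sp x) (idl (3 f))`, so `x ∉ P` (`3 f ∈ P`; `P` is prime, `≠ ⊤`). `O/P` has 3 elements represented by `0, 1, -1` (`IsPN`), so `x - a ∈ P` with `a = ± 1`. `nm x - 1 = nm x - a²`; `x = a + p`, `nm x = a² + a tr p + nm p` with `tr p = p.re*2 + B p.im`, and `p ∈ P` implies `nm p, tr p ∈ P ∩ ℤ = 3 ℤ`: `nm p = p star p ∈ P`;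
`tr p = p + star p` and `star p ∈ P`, because `P` is the only prime above `3`: `3 ∣ D`: `(2 p - tr p)² = (p - star p)² = D p.im² ∈ 3 O ⊆ P`, so `p - star p ∈ P` and `star p ∈ P`. So `3 ∣ nm x - 1`. `nm x = nI b * qb b x` (`xf_QB`, or exact division: `Sx_QB`), `N = nI b` is prime to `3`: `qb b x ≡ N⁻¹ ≡ N` modulo `3`. -/
def Sv_QB3 : Prop :=
  ∀ (A B : ℤ) (P : Ideal (OO A B)) (V : ValuationSubring ℂ) (f : ℕ), SetR A B P V f →
    ∀ e : OO A B → ℂ, _root_.Pool.Agent.MUX.IsEI (idl (A := A) (B := B) (3 * f)) e →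
    ∀ b : Ideal (OO A B), b ≠ ⊥ → (_root_.Pool.Agent.MUX.nI b).Coprime (3 * f) → ∀ x ∈ b, e x ≠ 0 →
      (3 : ℤ) ∣ nm x - 1 ∧ (3 : ℤ) ∣ qb b x - _root_.Pool.Agent.MUX.nI b ∧ ¬ (3 : ℤ) ∣ qb b x

/-- (TYI) the type `i ≤ 1` of `e`. `w = wP P`.

PROOF. (1) `x ≡ 1` modulo `f` and modulo `P`: `x³ ≡ 1` modulo `f`, and `x³ - 1 = (x - 1)³ + 3 x (x - 1)`, `(x - 1)³ ∈ P³ ⊆ P² = (3)` (`(x - 1)² ∈ 3 O` for `x - 1 ∈ P`: in QB3 `p - star p ∈ P`..; or: `CaseR`, `IsPN 3 P`: `P² = (3)`, look at `CR_*`-type lemmas or do it by hand: `P = {x : 3 ∣ nm x}`). So `x³ ≡ 1` modulo `3 f`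
(`f` prime to `3`): `e(x)³ = 1`, and `e x ≠ 0` (`x` is prime to `3 f`: `x³ - 1 ∈ idl (3 f)`), `e(x)^r = 1`, `r` prime to `3`: `e x = 1`. (2) `y` an integer, `y ≡ 1` modulo `f`, `y ≡ -1` modulo `3`: `y² ≡ 1` modulo `3 f`, so `e(y) = ±1`; `i = 0` if `e y = 1`, `i = 1` otherwise. (3) `x ≡ 1` modulo `f`, `x ∉ P`: `x ≡ ±1` modulo `P`
(`O/P` has three elements, as in QB3). If `x ≡ 1`: (1), and `w x = 1`. If `x ≡ -1`: `x y ≡ 1` modulo `f` and `P`, so `e x e y = 1`, `e x = e y = (-1)^i`, `w x = -1` (`1 ≢ -1` modulo `P`). -/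
def Sv_TYI : Prop :=
  ∀ (A B : ℤ) (P : Ideal (OO A B)) (V : ValuationSubring ℂ) (f : ℕ), SetR A B P V f →
    ∀ e : OO A B → ℂ, _root_.Pool.Agent.MUX.IsEI (idl (A := A) (B := B) (3 * f)) e → ∀ r : ℕ, ¬ 3 ∣ r →
    (∀ x, e x ≠ 0 → e x ^ r = 1) →
    ∃ i : ℕ, i ≤ 1 ∧ ∀ x, x - 1 ∈ idl (A := A) (B := B) f → x ∉ P →
      e x = ((wP P x : ℤ) : ℂ) ^ i

/-- (SH3) the symbol under `x ↦ x + k/3`.

PROOF. `twist`-type lemma in `Pool/Agent/MUX/F_PRJ.lean` (`twist`, `twistI`: translation of `thetaI`, `IvI` by a rational number, term by term): `thetaI b e (z + k/3) = Σ .. exp (2πi n (z + k/3))`, `n = qb b x`, `exp (2πi n k/3) = ex (t k/3)` as `n ≡ t` modulo `3`. So `IvI b e (r + k/3) = ex (t k/3) IvI b e r`, `PhiI b e ∞ r = -IvI b e r`.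
The primitive: `thetaIntI` in the same way (for `3 ∤ t` this gives the depletion: `1 + ex(t/3) + ex(2t/3) = 0`). -/
def Sv_SH3 : Prop :=
  ∀ (A B : ℤ) (_ : _root_.Pool.Agent.MUX.CQ A B) (b g : Ideal (OO A B)) (e : OO A B → ℂ) (_ : b ≠ ⊥) (_ : g ≠ ⊥)
    (_ : _root_.Pool.Agent.MUX.IsEI g e) (t : ℤ) (_ : ∀ x ∈ b, e x ≠ 0 → (3 : ℤ) ∣ qb b x - t),
    (∀ (r : ℚ) (k : ℤ), _root_.Pool.Agent.MUX.PhiI b e ∞ ((r + k / 3 : ℚ) : OnePoint ℚ) =
      Complex.exp (2 * Real.pi * Complex.I * (t * k / 3)) * _root_.Pool.Agent.MUX.PhiI b e ∞ (r : OnePoint ℚ)) ∧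
    ∀ τ : ℂ, 0 < τ.im → ∀ k : ℤ, _root_.Pool.Agent.MUX.thetaIntI b e (τ + k / 3) =
      Complex.exp (2 * Real.pi * Complex.I * (t * k / 3)) * _root_.Pool.Agent.MUX.thetaIntI b e τ

/-! ## The projector -/

/-- (PHR) the function `φ` modulo `D' = |D|/3`.

PROOF. `Sx_PHX` (`xf_PHX`) gives `φ₀` of period `|D|` (`CQ` of `MUXF`: `MUXY.cqF`, `eiF`). `3 D' = |D|`, `3 ∤ D'` (`B = 1`: `D` squarefree; `B = 0`: `|D| = 4 |A|`, `A` squarefree). For `n` let `n'` be an integer with `n' ≡ n` modulo `D'`, `n' ≡ 1` modulo `3` (CRT: `n' = n + D' j`, `j` with `D' j ≡ 1 - n` modulo 3), `φ n := φ₀ n'`; well defined (`φ₀` has period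
`3 D'`), period `D'`. If `n = qb b x ≡ 1` modulo `3` then `φ n = φ₀ n = 1`; if `n ≡ -1` then `-n ≡ 1` and `φ(-n) = φ₀(-n) = 0`. -/
def Sv_PHR : Prop :=
  ∀ A B : ℤ, CaseR A B → ∃ (D' : ℕ) (φ : ℤ → ℂ), (3 * D' : ℤ) = absD A B ∧ ¬ 3 ∣ D' ∧ D' ≠ 0 ∧
    (∀ n, φ n = 0 ∨ φ n = 1) ∧ (∀ n, φ (n + D') = φ n) ∧
    ∀ (b g : Ideal (OO A B)) (e : OO A B → ℂ), b ≠ ⊥ → _root_.Pool.Agent.MUX.IsEI g e →
      g ≤ _root_.Pool.Agent.MUX.sp ((absD A B : ℤ) : OO A B) → ∀ x ∈ b, e x ≠ 0 →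
      ((3 : ℤ) ∣ qb b x - 1 → φ (qb b x) = 1) ∧ ((3 : ℤ) ∣ qb b x + 1 → φ (-qb b x) = 0)

/-- (TWR) the two halves of the projector. MODEL: `Pool/Agent/MUX/F_PRJ.lean` (`tx_PRJ`, its lemmas `inv`, `twistI`, `mob1`, `mob2`, `mob3`).

PROOF. `Σ_a c_a ex (a k/q) = φ k` (`inv`). (1) `Σ_a c_a IvI (r + a/q) = IvI r` (coefficients `φ (qb b x) = 1`). (2) `Σ_a c_a IvI (-(r + a/q)) = 0` (coefficients `φ (-qb b x) = 0`). At infinity everything is `0`. -/
def Sv_TWR : Prop :=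
  ∀ (A B : ℤ), _root_.Pool.Agent.MUX.CQ A B → ∀ (b g : Ideal (OO A B)) (e : OO A B → ℂ), b ≠ ⊥ → g ≠ ⊥ → _root_.Pool.Agent.MUX.IsEI g e →
    ∀ (q : ℕ) (φ : ℤ → ℂ), q ≠ 0 → (∀ n, φ (n + q) = φ n) →
    ((∀ x ∈ b, e x ≠ 0 → φ (qb b x) = 1) → ∀ x y : OnePoint ℚ,
      ∑ a ∈ Finset.range q, ((1 / q) * ∑ n ∈ Finset.range q, φ n *
        Complex.exp (2 * Real.pi * Complex.I * (-(a * n) / q))) *
        _root_.Pool.Agent.MUX.PhiI b e (mob q a 0 q x) (mob q a 0 q y) = _root_.Pool.Agent.MUX.PhiI b e x y) ∧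
    ((∀ x ∈ b, e x ≠ 0 → φ (-qb b x) = 0) → ∀ x y : OnePoint ℚ,
      ∑ a ∈ Finset.range q, ((1 / q) * ∑ n ∈ Finset.range q, φ n *
        Complex.exp (2 * Real.pi * Complex.I * (-(a * n) / q))) *
        _root_.Pool.Agent.MUX.PhiI b e (mob (-1) 0 0 1 (mob q a 0 q x)) (mob (-1) 0 0 1 (mob q a 0 q y)) = 0)

/-- (PJR) the projector for `PR`.

Uses PHR, TWR, QB3. PROOF. `q = D'`, `c_a = (1/q) Σ_n φ n exp(..)`, `v(c_a) ≤ 1` (`3 ∤ q`, so `v q = 1`; roots of unity). `g = idl (3 f) ≤ sp |D|`: `2 |D| ∣ 3 f·..` (`SetR.fD`). For `i` with `N b_i ≡ 1`: `qb ≡ 1` (QB3), TWR (1); for the others (`N b_i ≡ 2 ≡ -1`, as `N b_i` is prime to `3`) TWR (2). `PhiK` is the sum over `i`. -/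
def Sv_PJR : Prop :=
  ∀ (A B : ℤ) (P : Ideal (OO A B)) (V : ValuationSubring ℂ) (f : ℕ), SetR A B P V f →
    ∀ (ι : Type) [Fintype ι] (R : Reps A B (3 * f) ι) (e : OO A B → ℂ),
    _root_.Pool.Agent.MUX.IsEI (idl (A := A) (B := B) (3 * f)) e → ∀ (kk : ι → ℂ) (u : ℂ),
    ∃ (q : ℕ) (c : ℕ → ℂ), q ≠ 0 ∧ (∀ t, V.valuation (c t) ≤ 1) ∧ ∀ x y : OnePoint ℚ,
      ∑ t ∈ Finset.range q, c t * PR R e kk u (mob q t 0 q x) (mob q t 0 q y) =
        PhiK R e (kkp R kk) x y / (u * R.om R.i0)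

/-- (RLR) the relation `P ∞ (x + 1/3) = om P ∞ x`.

Uses QB3, SH3. PROOF. `om = exp(2πi/3)`. `PhiI (b_i) e ∞ (r + 1/3) = exp(2πi N/3) PhiI ∞ r`, `N = nI b_i ≡ 1` for the first part; for the second `mob (-1) 0 0 1 (r + 1/3) = -r - 1/3`, factor `exp(-2πi N/3)`, `N ≡ 2`: `exp(-4πi/3) = exp(2πi/3)`. -/
def Sv_RLR : Prop :=
  ∀ (A B : ℤ) (P : Ideal (OO A B)) (V : ValuationSubring ℂ) (f : ℕ), SetR A B P V f →
    ∀ (ι : Type) [Fintype ι] (R : Reps A B (3 * f) ι) (e : OO A B → ℂ),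
    _root_.Pool.Agent.MUX.IsEI (idl (A := A) (B := B) (3 * f)) e → ∀ (kk : ι → ℂ) (u : ℂ) (x : ℚ),
      PR R e kk u ∞ ((x + 1 / 3 : ℚ) : OnePoint ℚ) =
        Complex.exp (2 * Real.pi * Complex.I / 3) * PR R e kk u ∞ (x : OnePoint ℚ)

/-- (GPR) Theorem G+ for `PT (PhiK R e kk/(u om_(i0)))`.

Uses GTP, QB3, SH3, UNR, LCR, LGR and the hypotheses of `gdat` (`NS/G_Gdn.lean`). PROOF. As `gPT` (`NS/G_Gpt.lean`): index set `ι × EC e × Fin 27`, `PsT`, `ThT`, `a1T`; weights `kk_i` at `t = 0`, `-kk_i` at `t = 1`. `Σ w α₁ = kk_(i0) (1 - ζ_27)`, `v(1 - ζ_27)^18 = v 3`, `v(kk_(i0)) = 1`: `v(..)^12 > v 3` (`θ = v 3 < 1`, `x^18 = θ`, so `x^12 > θ`).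
Depletion: `ThT (τ) + ThT (τ + 1/3) + ThT (τ + 2/3) = 0` by SH3 with `t = nI b_i`, `3 ∤ nI b_i` (every `e' ∈ EC e` satisfies `IsEI` with the same zeros). -/
def Sv_GPR : Prop :=
  ∀ (A B : ℤ) (P : Ideal (OO A B)) (V : ValuationSubring ℂ) (f : ℕ), SetR A B P V f →
    TorX A B → ∀ (ι : Type) [Fintype ι] (R : Reps A B (3 * f) ι) (u el lam : ℂ),
    GoodR V (R.L R.i0) u el lam → ∀ e : OO A B → ℂ, _root_.Pool.Agent.MUX.IsEI (idl (A := A) (B := B) (3 * f)) e →
    ∀ r : ℕ, r ≠ 0 → (∀ x, e x ≠ 0 → e x ^ r = 1) → ∀ kk : ι → ℂ, V.valuation (kk R.i0) = 1 →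
    ∀ N' : ℕ, N' ≠ 0 → absD A B * ((3 * f : ℕ) : ℤ) ^ 2 ∣ (N' : ℤ) →
    ∃ a b c d : ℤ, a * d - b * c = 1 ∧ (N' : ℤ) ∣ c ∧ (N' : ℤ) ∣ d - 1 ∧
      1 < V.valuation (MUXHN.PT (fun x y => PhiK R e kk x y / (u * R.om R.i0)) ∞
        (mob a b c d ∞))

/-- (GQR) Theorem G+ for `PT (PR ..)`.

Uses GPR, PJR. MODEL: `Pool/Agent/MUX/HN_H1N.lean`. PROOF. `q`, `c` from PJR, `h` from GPR for `kkp R kk` (`kkp R kk i0 = kk i0`: `nI ⊤ = 1`) and the level `N' q²`. `T_t = mob q t 0 q`, `τ = mob 27 1 0 27` commute: `PT (PhiK kkp/..) ∞ (h ∞) = Σ_t c_t PT (PR ..) ∞ (h_t ∞)`, `h_t = T_t h T_t⁻¹ ∈ Γ₁(N')` integral. If all terms had `v ≤ 1` then so would the sum. -/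
def Sv_GQR : Prop :=
  ∀ (A B : ℤ) (P : Ideal (OO A B)) (V : ValuationSubring ℂ) (f : ℕ), SetR A B P V f →
    TorX A B → ∀ (ι : Type) [Fintype ι] (R : Reps A B (3 * f) ι) (u el lam : ℂ),
    GoodR V (R.L R.i0) u el lam → ∀ e : OO A B → ℂ, _root_.Pool.Agent.MUX.IsEI (idl (A := A) (B := B) (3 * f)) e →
    ∀ r : ℕ, r ≠ 0 → (∀ x, e x ≠ 0 → e x ^ r = 1) → ∀ kk : ι → ℂ, V.valuation (kk R.i0) = 1 →
    ∀ N' : ℕ, N' ≠ 0 → absD A B * ((3 * f : ℕ) : ℤ) ^ 2 ∣ (N' : ℤ) →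
    ∃ a b c d : ℤ, a * d - b * c = 1 ∧ (N' : ℤ) ∣ c ∧ (N' : ℤ) ∣ d - 1 ∧
      1 < V.valuation (MUXHN.PT (PR R e kk u) ∞ (mob a b c d ∞))

end

end Pool.Agent.NSGR


end

section

/-!
# MUX-NS, block GR, module NSGR_UNR: units for `3` ramified, `D ≠ -3` (after helper6's `unit_I`)
-/

set_option autoImplicit false

namespace Pool.Agent.NSGR

open _root_.MU3 _root_.Pool.Agent.MU3A _root_.Pool.Agent.MU3B _root_.Pool.Agent.MU3Q _root_.Pool.Agent.MUX _root_.Pool.Agent.NS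
  _root_.Pool.Agent.NSRD _root_.Pool.Agent.NSG _root_.Pool.Agent.MUXN _root_.Pool.Agent.MuSym OnePoint UpperHalfPlane
open _root_.Pool.Agent.MUXF (qb)
open scoped MatrixGroups

theorem tv_UNR (h : MUXF.Sx_IDL) (h' : MUXF.Sx_NIM) : Sv_UNR := by
  intro A B hc
  have hD : 5 ≤ -(B ^ 2 + 4 * A) := by
    have h3 := hc.three
    have hex := hc.exc
    have hn := hc.neg
    rcases hc.hB with hB | hB
    · subst hB
      simp only [ne_eq, OfNat.ofNat_ne_zero, not_false_eq_true, zero_pow, zero_add, true_and] at h3 hn hex ⊢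
      omega
    · subst hB
      simp only [one_pow, true_and] at h3 hn hex ⊢
      omega
  refine ⟨fun x hx => ?_, fun b hb x hx hn => ?_⟩
  · have h4 : (2 * x.re + B * x.im) ^ 2 + -(B ^ 2 + 4 * A) * x.im ^ 2 = 4 := by
      unfold nm at hx
      linear_combination 4 * hx
    have him : x.im = 0 := by
      by_contra him
      have h1 : 1 ≤ x.im ^ 2 := by
        have : 0 < x.im ^ 2 := by positivity
        omega
      nlinarith [sq_nonneg (2 * x.re + B * x.im)]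
    have hre : x.re ^ 2 = 1 := by
      rw [him] at h4
      linarith
    rcases (sq_eq_sq_iff_eq_or_eq_neg.1 (hre.trans (one_pow 2).symm)) with h1 | h1
    · left
      ext
      · exact h1
      · exact him
    · right
      ext
      · exact h1
      · exact him
  · have hcq : MUXF.CQ A B := MUXY.cqF hc.toCQ
    have hn0 : MUX.nI b ≠ 0 := (h A B hcq b hb).1
    obtain ⟨-, h2, -, -⟩ := h' A B hcq
    have hx0 : x ≠ 0 := by
      rintro rfl
      apply hn0
      have : nm (0 : OO A B) = 0 := by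
        unfold nm
        simp
      rw [this] at hn
      exact_mod_cast hn.symm
    have hle : sp x ≤ b := (Ideal.span_singleton_le_iff_mem b).2 hx
    have hcard : Nat.card (OO A B ⧸ sp x) = Nat.card (OO A B ⧸ b) := by
      have h3 := (h2 x).resolve_right hx0
      have h4 : (nm x).natAbs = MUX.nI b := by
        rw [hn]
        simp
      exact h3.trans h4
    have : Finite (OO A B ⧸ sp x) := by
      apply Nat.finite_of_card_ne_zero
      rw [hcard]
      exact hn0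
    have hbij := Function.Surjective.bijective_of_nat_card_le (Ideal.Quotient.factor_surjective hle)
      hcard.le
    apply le_antisymm _ hle
    intro y hy
    rw [← Ideal.Quotient.eq_zero_iff_mem]
    apply hbij.injective
    rw [map_zero, Ideal.Quotient.factor_mk]
    exact Ideal.Quotient.eq_zero_iff_mem.2 hy

end Pool.Agent.NSGR


end

section

/-!
# MUX-NS, block GR, module RSC (helper99): rescaling by a third root of unity on the fraction field
of the power series over a discrete valuation ring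
-/

set_option autoImplicit false

namespace Pool.Agent.NSGR

open _root_.MU3 _root_.Pool.Agent.MU3A _root_.Pool.Agent.MU3B _root_.Pool.Agent.MU3Q _root_.Pool.Agent.MUX _root_.Pool.Agent.NS
  _root_.Pool.Agent.NSRD _root_.Pool.Agent.NSG _root_.Pool.Agent.MUXN _root_.Pool.Agent.MuSym OnePoint UpperHalfPlane
open _root_.Pool.Agent.MUXF (qb)
open scoped MatrixGroups

noncomputable section

namespace RSC

open _root_.Pool.Agent.MUXN.GD PowerSeries

variable {O : Type} [CommRing O]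

theorem resc (a b : O) (h : a * b = 1) (f : PowerSeries O) :
    PowerSeries.rescale a (PowerSeries.rescale b f) = f := by
  ext n
  rw [coeff_rescale, coeff_rescale, ← mul_assoc, ← mul_pow, h, one_pow, one_mul]

/-- the automorphism `q ↦ a q` of the power series, `a b = 1` -/
def rE (a b : O) (h : a * b = 1) : PowerSeries O ≃+* PowerSeries O :=
  { (PowerSeries.rescale a : PowerSeries O →+* PowerSeries O) with
    invFun := PowerSeries.rescale b
    left_inv := fun f => resc b a (by rw [mul_comm]; exact h) f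
    right_inv := fun f => resc a b h f }

theorem rE_apply (a b : O) (h : a * b = 1) (f : PowerSeries O) :
    rE a b h f = PowerSeries.rescale a f := rfl

variable [IsDomain O] [IsDiscreteValuationRing O]

theorem vR_resc_le (ϖ : O) (h : Prime ϖ) (c : O) (f : PowerSeries O) :
    vR ϖ h (PowerSeries.rescale c f) ≤ vR ϖ h f := by
  by_cases hf : f = 0
  · simp [hf]
  rw [vR_apply ϖ h hf, vR_le, ← map_pow, C_dvd_iff]
  intro n
  rw [coeff_rescale]
  have h1 : C ϖ ^ multiplicity (C ϖ) f ∣ f := pow_multiplicity_dvd _ _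
  rw [← map_pow, C_dvd_iff] at h1
  exact (h1 n).mul_left _

theorem vR_resc (ϖ : O) (h : Prime ϖ) (a b : O) (hab : a * b = 1) (f : PowerSeries O) :
    vR ϖ h (PowerSeries.rescale a f) = vR ϖ h f := by
  refine le_antisymm (vR_resc_le ϖ h a f) ?_
  have h1 := vR_resc_le ϖ h b (PowerSeries.rescale a f)
  rwa [resc b a (by rw [mul_comm]; exact hab)] at h1

theorem vR_sub (ϖ : O) (h : Prime ϖ) (a : O) (f : PowerSeries O) :
    vR ϖ h (PowerSeries.rescale a f - f) ≤ vR ϖ h (C (a - 1)) * vR ϖ h f := by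
  by_cases hf : f = 0
  · simp [hf]
  obtain ⟨g, hg⟩ : C ϖ ^ multiplicity (C ϖ) f ∣ f := pow_multiplicity_dvd _ _
  have hgd : C (a - 1) ∣ PowerSeries.rescale a g - g := by
    rw [C_dvd_iff]
    intro n
    rw [map_sub, coeff_rescale]
    have h1 : a ^ n * coeff n g - coeff n g = (a ^ n - 1) * coeff n g := by ring
    rw [h1]
    have h2 : a - 1 ∣ a ^ n - 1 := by
      have := sub_dvd_pow_sub_pow a 1 n
      rwa [one_pow] at this
    exact h2.mul_right _
  obtain ⟨k, hk⟩ := hgd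
  have h3 : PowerSeries.rescale a f - f =
      C (a - 1) * (C ϖ ^ multiplicity (C ϖ) f * k) := by
    calc PowerSeries.rescale a f - f
        = PowerSeries.rescale a (C ϖ ^ multiplicity (C ϖ) f * g) -
            C ϖ ^ multiplicity (C ϖ) f * g := by rw [← hg]
      _ = C ϖ ^ multiplicity (C ϖ) f * (PowerSeries.rescale a g - g) := by
          rw [map_mul, map_pow]
          have h4 : PowerSeries.rescale a (C ϖ : PowerSeries O) = C ϖ := by
            ext n
            rw [coeff_rescale, coeff_C]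
            by_cases hn : n = 0
            · simp [hn]
            · simp [hn]
          rw [h4]
          ring
      _ = _ := by rw [hk]; ring
  rw [h3, map_mul, map_mul]
  refine mul_le_mul_right ?_ _
  calc vR ϖ h (C ϖ ^ multiplicity (C ϖ) f) * vR ϖ h k
      ≤ vR ϖ h (C ϖ ^ multiplicity (C ϖ) f) * 1 := mul_le_mul_right (vR_le_one ϖ h _) _
    _ = vR ϖ h (C ϖ ^ multiplicity (C ϖ) f) := mul_one _
    _ = vR ϖ h f := by
        rw [map_pow, vR_C ϖ h, vR_apply ϖ h hf, ← WithZero.exp_nsmul]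
        congr 1
        simp

theorem vR_nonunit (ϖ : O) (h : Prime ϖ) (u : O) (hu : ¬ IsUnit u) : vR ϖ h (C u) < 1 := by
  have h1 : ϖ ∣ u := by
    by_cases hu0 : u = 0
    · rw [hu0]; exact dvd_zero _
    obtain ⟨n, w, rfl⟩ := IsDiscreteValuationRing.eq_unit_mul_pow_irreducible hu0 h.irreducible
    cases n with
    | zero => exact absurd (by simp) hu
    | succ n => exact (Dvd.intro_left _ (pow_succ _ _).symm).mul_left _
  have h2 : vR ϖ h (C u) ≤ WithZero.exp (-((1 : ℕ) : ℤ)) := by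
    rw [vR_le, pow_one]
    exact (C : O →+* PowerSeries O).map_dvd h1
  refine lt_of_le_of_lt h2 ?_
  rw [← WithZero.exp_zero, WithZero.exp_lt_exp]
  norm_num

end RSC

open _root_.Pool.Agent.NSGR.RSC _root_.Pool.Agent.MUXN.GD PowerSeries in
/-- RSC. -/
theorem tv_RSC : Sv_RSC := by
  intro O _ _ _ ω hω _
  obtain ⟨ϖ, hϖ⟩ := IsDiscreteValuationRing.exists_irreducible O
  have h : Prime ϖ := hϖ.prime
  have hω3 : ω * ω ^ 2 = 1 := by linear_combination (ω - 1) * hω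
  have hS : nonZeroDivisors (PowerSeries O) ≤ (vR ϖ h).supp.primeCompl := by
    intro s hs hs'
    exact vR_ne ϖ h (nonZeroDivisors.ne_zero hs) hs'
  set v := (vR ϖ h).extendToLocalization hS (FractionRing (PowerSeries O)) with hv
  have hva : ∀ f : PowerSeries O, v (algebraMap _ _ f) = vR ϖ h f := fun f =>
    Valuation.extendToLocalization_apply_map_apply _ _ _ f
  let al : FractionRing (PowerSeries O) ≃+* FractionRing (PowerSeries O) :=
    IsFractionRing.ringEquivOfRingEquiv (rE ω (ω ^ 2) hω3)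
  have hal : ∀ f : PowerSeries O, al (algebraMap _ _ f) =
      algebraMap _ _ (PowerSeries.rescale ω f) := by
    intro f
    exact IsFractionRing.ringEquivOfRingEquiv_algebraMap (rE ω (ω ^ 2) hω3) f
  refine ⟨v, dd O, al, v (algebraMap _ _ (C (ω - 1))), ?_, ?_, ?_, ?_, ?_, ?_, hal, ?_, ?_⟩
  · intro f
    rw [hva]
    exact vR_le_one ϖ h f
  · intro u hu
    rw [hva]
    exact vR_unit ϖ h u hu
  · intro u hu
    rw [hva]
    exact vR_nonunit ϖ h u hu
  · intro f c hc hfc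
    rw [hva, hva] at hfc
    exact vR_dvd ϖ h f c hc hfc
  · have hth : ∀ f : PowerSeries O, v (dd O (algebraMap _ _ f)) ≤ v (algebraMap _ _ f) := by
      intro f
      rw [dd_alg, hva, hva]
      by_cases hf : f = 0
      · simp [hf]
      rw [vR_apply ϖ h hf, vR_le, ← map_pow, C_dvd_iff]
      intro n
      rw [th_coeff]
      have h1 : C ϖ ^ multiplicity (C ϖ) f ∣ f := pow_multiplicity_dvd _ _
      rw [← map_pow, C_dvd_iff] at h1
      exact (h1 n).mul_left _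
    intro x
    obtain ⟨a, b, hb, rfl⟩ := IsFractionRing.div_surjective (A := PowerSeries O) x
    have hb0 : algebraMap (PowerSeries O) (FractionRing (PowerSeries O)) b ≠ 0 :=
      IsFractionRing.to_map_ne_zero_of_mem_nonZeroDivisors hb
    set x := algebraMap (PowerSeries O) (FractionRing (PowerSeries O)) a /
      algebraMap (PowerSeries O) (FractionRing (PowerSeries O)) b with hx
    have hxb : algebraMap (PowerSeries O) (FractionRing (PowerSeries O)) a =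
      x * algebraMap (PowerSeries O) (FractionRing (PowerSeries O)) b := by
      rw [hx]
      field_simp
    have h1 := hth a
    have h2 := hth b
    rw [hxb, Derivation.leibniz, smul_eq_mul, smul_eq_mul] at h1
    have hvb : v (algebraMap (PowerSeries O) (FractionRing (PowerSeries O)) b) ≠ 0 :=
      (Valuation.ne_zero_iff v).2 hb0
    have h3 : v (algebraMap (PowerSeries O) (FractionRing (PowerSeries O)) b * dd O x) ≤
        v (x * algebraMap (PowerSeries O) (FractionRing (PowerSeries O)) b) := by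
      have h4 : algebraMap (PowerSeries O) (FractionRing (PowerSeries O)) b * dd O x =
          (x * dd O (algebraMap (PowerSeries O) (FractionRing (PowerSeries O)) b) +
            algebraMap (PowerSeries O) (FractionRing (PowerSeries O)) b * dd O x) -
          x * dd O (algebraMap (PowerSeries O) (FractionRing (PowerSeries O)) b) := by ring
      rw [h4]
      refine (Valuation.map_sub _ _ _).trans (max_le h1 ?_)
      rw [map_mul, map_mul]
      exact mul_le_mul_right h2 _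
    rw [map_mul, map_mul, mul_comm] at h3
    exact le_of_mul_le_mul_right h3 (zero_lt_iff.2 hvb)
  · intro f
    rw [dd_alg, th_eq]
  · intro x
    obtain ⟨a, b, hb, rfl⟩ := IsFractionRing.div_surjective (A := PowerSeries O) x
    have hb0 : algebraMap (PowerSeries O) (FractionRing (PowerSeries O)) b ≠ 0 :=
      IsFractionRing.to_map_ne_zero_of_mem_nonZeroDivisors hb
    set x := algebraMap (PowerSeries O) (FractionRing (PowerSeries O)) a /
      algebraMap (PowerSeries O) (FractionRing (PowerSeries O)) b with hx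
    have hxb : algebraMap (PowerSeries O) (FractionRing (PowerSeries O)) a =
      x * algebraMap (PowerSeries O) (FractionRing (PowerSeries O)) b := by
      rw [hx]
      field_simp
    have hvb : v (algebraMap (PowerSeries O) (FractionRing (PowerSeries O)) b) ≠ 0 :=
      (Valuation.ne_zero_iff v).2 hb0
    have hdl : ∀ f : PowerSeries O, v (al (algebraMap _ _ f) - algebraMap _ _ f) ≤
        v (algebraMap _ _ (C (ω - 1))) * v (algebraMap _ _ f) := by
      intro f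
      rw [hal, ← map_sub, hva, hva, hva]
      exact vR_sub ϖ h ω f
    have hvab : v (al (algebraMap (PowerSeries O) (FractionRing (PowerSeries O)) b)) =
        v (algebraMap (PowerSeries O) (FractionRing (PowerSeries O)) b) := by
      rw [hal, hva, hva, vR_resc ϖ h ω (ω ^ 2) hω3]
    have h1 := hdl a
    have h2 := hdl b
    have h3 : v ((al x - x) * al (algebraMap (PowerSeries O) (FractionRing (PowerSeries O)) b)) ≤
        v (algebraMap _ _ (C (ω - 1))) *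
          (v x * v (algebraMap (PowerSeries O) (FractionRing (PowerSeries O)) b)) := by
      have h4 : (al x - x) * al (algebraMap (PowerSeries O) (FractionRing (PowerSeries O)) b) =
          (al (algebraMap (PowerSeries O) (FractionRing (PowerSeries O)) a) -
            algebraMap (PowerSeries O) (FractionRing (PowerSeries O)) a) -
          x * (al (algebraMap (PowerSeries O) (FractionRing (PowerSeries O)) b) -
            algebraMap (PowerSeries O) (FractionRing (PowerSeries O)) b) := by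
        rw [hxb, map_mul]
        ring
      rw [h4]
      refine (Valuation.map_sub _ _ _).trans (max_le ?_ ?_)
      · refine h1.trans (le_of_eq ?_)
        rw [hxb, map_mul]
      · rw [map_mul]
        calc v x * v (al (algebraMap (PowerSeries O) (FractionRing (PowerSeries O)) b) -
              algebraMap (PowerSeries O) (FractionRing (PowerSeries O)) b)
            ≤ v x * (v (algebraMap _ _ (C (ω - 1))) *
                v (algebraMap (PowerSeries O) (FractionRing (PowerSeries O)) b)) :=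
              mul_le_mul_right h2 _
          _ = _ := by ac_rfl
    rw [map_mul, hvab, ← mul_assoc] at h3
    exact le_of_mul_le_mul_right h3 (zero_lt_iff.2 hvb)
  · rw [hva, hva, ← map_pow, ← map_pow]
    have hu : IsUnit (-ω ^ 2 : O) := by
      refine IsUnit.neg (IsUnit.pow 2 ?_)
      exact IsUnit.of_mul_eq_one _ hω3
    have h3 : (3 : O) = (ω - 1) ^ 2 * (-ω ^ 2) := by
      linear_combination (ω ^ 2 - 3 * ω + 3) * hω
    have h4 : (C (3 : O) : PowerSeries O) = C ((ω - 1) ^ 2) * C (-ω ^ 2) := by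
      rw [← map_mul, ← h3]
    rw [h4, map_mul, vR_unit ϖ h _ hu, mul_one]

end

end Pool.Agent.NSGR


end

section

/-!
# MUX-NS, block GR, module QB3 (helper22): the exponents of the theta series modulo 3

The prime `P` and the ring `V` are not used: if `e x ≠ 0` then `a x + c 3 f = 1`, so
`nm a nm x = nm (1 - 3 y) ≡ 1` modulo `3`, and `4 nm x = t² - D x.im²` with `3 ∣ D`.
-/

set_option autoImplicit false

namespace Pool.Agent.NSGR

open _root_.MU3 _root_.Pool.Agent.MU3A _root_.Pool.Agent.MU3B _root_.Pool.Agent.MU3Q _root_.Pool.Agent.MUX _root_.Pool.Agent.NS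
  _root_.Pool.Agent.NSRD _root_.Pool.Agent.NSG _root_.Pool.Agent.MUXN _root_.Pool.Agent.MuSym OnePoint UpperHalfPlane
open _root_.Pool.Agent.MUXF (qb)
open scoped MatrixGroups

noncomputable section

namespace QB3

theorem nm_one_sub {A B : ℤ} (w : OO A B) :
    nm (1 - (3 : ℤ) • w) = 1 - 3 * (2 * w.re + B * w.im - 3 * nm w) := by
  simp only [nm, QuadraticAlgebra.re_sub, QuadraticAlgebra.im_sub, QuadraticAlgebra.re_one,
    QuadraticAlgebra.im_one, QuadraticAlgebra.re_smul, QuadraticAlgebra.im_smul, smul_eq_mul]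
  ring

theorem four_nm {A B : ℤ} (x : OO A B) :
    4 * nm x = (2 * x.re + B * x.im) ^ 2 - (B ^ 2 + 4 * A) * x.im ^ 2 := by
  unfold nm; ring

/-- if `3` does not divide the norm then the norm is `1` modulo `3` -/
theorem nm_mod {A B : ℤ} (hD : (3 : ℤ) ∣ B ^ 2 + 4 * A) (x : OO A B) (h : ¬ (3 : ℤ) ∣ nm x) :
    (3 : ℤ) ∣ nm x - 1 := by
  obtain ⟨k, hk⟩ := hD
  have h4 := four_nm x
  rw [hk] at h4
  generalize 2 * x.re + B * x.im = t at h4
  have ht : t % 3 = 0 ∨ t % 3 = 1 ∨ t % 3 = 2 := by omega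
  have hsq : (t ^ 2) % 3 = 0 ∨ (t ^ 2) % 3 = 1 := by
    rcases ht with h | h | h <;> simp [pow_two, Int.mul_emod, h]
  have h5 : 3 * k * x.im ^ 2 = 3 * (k * x.im ^ 2) := by ring
  rw [h5] at h4
  generalize k * x.im ^ 2 = s at h4
  generalize t ^ 2 = u at h4 hsq
  omega

/-- units modulo 3 -/
theorem inv_mod {N q m : ℤ} (h : m = N * q) (hm : (3 : ℤ) ∣ m - 1) :
    (3 : ℤ) ∣ q - N ∧ ¬ (3 : ℤ) ∣ q := by
  have h1 : (N * q) % 3 = 1 := by rw [← h]; omega
  have hN : N % 3 = 0 ∨ N % 3 = 1 ∨ N % 3 = 2 := by omega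
  have hq : q % 3 = 0 ∨ q % 3 = 1 ∨ q % 3 = 2 := by omega
  rw [Int.mul_emod] at h1
  rcases hN with hN | hN | hN <;> rcases hq with hq | hq | hq <;> rw [hN, hq] at h1 <;>
    (constructor <;> omega)

end QB3

open _root_.Pool.Agent.NSGR.QB3 in
/-- (QB3) the exponents modulo 3 -/
theorem tv_QB3 : Sv_QB3 := by
  intro A B P V f hS e he b hb _ x hx hex
  have hc := MUXY.cqF hS.case.toCQ
  obtain ⟨halg, -, -, -, -⟩ := MUXF.xf_ALG A B hc
  obtain ⟨hq, -, -⟩ := MUXF.xf_QB A B hc b hb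
  obtain ⟨hqx, -⟩ := hq x hx
  have h1 := (he.supp x).1 hex
  rw [Ideal.isCoprime_span_singleton_iff] at h1
  obtain ⟨a, c, hac⟩ := h1
  have h2 : a * x = 1 - (3 : ℤ) • (c * ((f : ℕ) : OO A B)) := by
    have e1 : c * (((3 * f : ℕ)) : OO A B) = (3 : ℤ) • (c * ((f : ℕ) : OO A B)) := by
      rw [zsmul_eq_mul]
      push_cast
      ring
    rw [← e1, ← hac]
    ring
  have h3 : nm a * nm x = 1 - 3 * (2 * (c * ((f : ℕ) : OO A B)).re +
      B * (c * ((f : ℕ) : OO A B)).im - 3 * nm (c * ((f : ℕ) : OO A B))) := by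
    rw [← nm_one_sub, ← h2]
    exact ((halg a x).2.2).symm
  have h4 : ¬ (3 : ℤ) ∣ nm x := by
    rintro ⟨k, hk⟩
    rw [hk] at h3
    have e1 : nm a * (3 * k) = 3 * (nm a * k) := by ring
    rw [e1] at h3
    omega
  have h5 := nm_mod hS.case.three x h4
  exact ⟨h5, inv_mod hqx h5⟩

end

end Pool.Agent.NSGR


end

section

/-!
# MUX-NS, block GR, module PHR (helper50): the function `φ` modulo `D' = |D|/3`
-/

set_option autoImplicit false

namespace Pool.Agent.NSGR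

open _root_.MU3 _root_.Pool.Agent.MU3A _root_.Pool.Agent.MU3B _root_.Pool.Agent.MU3Q _root_.Pool.Agent.MUX _root_.Pool.Agent.NS
  _root_.Pool.Agent.NSRD _root_.Pool.Agent.NSG _root_.Pool.Agent.MUXN _root_.Pool.Agent.MuSym OnePoint UpperHalfPlane
open _root_.Pool.Agent.MUXF (qb)
open scoped MatrixGroups

noncomputable section

namespace PHR

private theorem per_mul_NSGR_PHR {φ : ℤ → ℂ} {d : ℤ} (h : ∀ n, φ (n + d) = φ n) :
    ∀ (k n : ℤ), φ (n + d * k) = φ n := by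
  intro k
  induction k using Int.induction_on with
  | zero => intro n; simp
  | succ i ih =>
    intro n
    have := h (n + d * i)
    rw [ih n] at this
    rw [← this]
    congr 1
    ring
  | pred i ih =>
    intro n
    have := h (n + d * (-i - 1))
    rw [← this]
    have h2 := ih n
    rw [← h2]
    congr 1
    ring

private theorem nine_NSGR_PHR {A B : ℤ} (h : _root_.Pool.Agent.MUX.CQ A B) : ¬ (9 : ℤ) ∣ B ^ 2 + 4 * A := by
  have hu : ¬ IsUnit (3 : ℤ) := by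
    intro hu
    rcases Int.isUnit_iff.1 hu with h | h <;> omega
  intro hd
  rcases h.hB with hB | hB
  · have hs := (h.fund0 hB).1
    subst hB
    apply hu
    apply hs 3
    obtain ⟨c, hc⟩ := hd
    refine ⟨A - 2 * c, ?_⟩
    omega
  · have hs := h.fund1 hB
    subst hB
    apply hu
    apply hs 3
    obtain ⟨c, hc⟩ := hd
    exact ⟨c, by omega⟩

end PHR

open PHR in
theorem tv_PHR (h1 : MUXF.Sx_PHX) : Sv_PHR := by
  intro A B hc
  obtain ⟨φ, v01, hper, hval⟩ := h1 A B (Pool.Agent.MUXY.cqF hc.toCQ)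
  obtain ⟨c, hc3⟩ := hc.three
  have hneg := hc.neg
  have h9 := nine_NSGR_PHR hc.toCQ
  have hcneg : c < 0 := by omega
  have habs : (3 * ((-c).toNat : ℕ) : ℤ) = absD A B := by
    rw [Int.toNat_of_nonneg (by omega)]
    unfold absD
    omega
  have hD : (((-c).toNat : ℕ) : ℤ) = -c := Int.toNat_of_nonneg (by omega)
  set D : ℕ := (-c).toNat with hDdef
  have h3D : ¬ (3 : ℤ) ∣ (D : ℤ) := by
    intro hd
    rw [hD] at hd
    apply h9
    obtain ⟨d, hd⟩ := hd
    exact ⟨-d, by omega⟩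
  have hsq : (3 : ℤ) ∣ (D : ℤ) ^ 2 - 1 := by
    have hm : (D : ℤ) % 3 = 1 ∨ (D : ℤ) % 3 = 2 := by omega
    rcases hm with hm | hm
    · obtain ⟨k, hk⟩ : ∃ k : ℤ, (D : ℤ) = 3 * k + 1 := ⟨(D : ℤ) / 3, by omega⟩
      rw [hk]
      exact ⟨3 * k ^ 2 + 2 * k, by ring⟩
    · obtain ⟨k, hk⟩ : ∃ k : ℤ, (D : ℤ) = 3 * k + 2 := ⟨(D : ℤ) / 3, by omega⟩
      rw [hk]
      exact ⟨3 * k ^ 2 + 4 * k + 1, by ring⟩
  have hpm : ∀ k n : ℤ, φ (n + 3 * (D : ℤ) * k) = φ n := by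
    intro k n
    rw [habs]
    exact per_mul_NSGR_PHR hper k n
  refine ⟨D, fun n => φ (n + (D : ℤ) ^ 2 * (1 - n)), habs, ?_, ?_, ?_, ?_, ?_⟩
  · intro hd
    exact h3D (by exact_mod_cast hd)
  · intro h0
    apply h3D
    rw [h0]
    simp
  · intro n
    exact v01 _
  · intro n
    obtain ⟨k, hk⟩ := hsq
    have := hpm (-k) (n + (D : ℤ) ^ 2 * (1 - n))
    show φ (n + (D : ℤ) + (D : ℤ) ^ 2 * (1 - (n + (D : ℤ)))) = φ (n + (D : ℤ) ^ 2 * (1 - n))
    rw [← this]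
    congr 1
    linear_combination (-(D : ℤ)) * hk
  · intro b g e hb he hg x hx hex
    obtain ⟨v1, v2⟩ := hval b g e hb (Pool.Agent.MUXY.eiF he) hg x hx hex
    constructor
    · rintro ⟨k, hk⟩
      show φ (qb b x + (D : ℤ) ^ 2 * (1 - qb b x)) = 1
      have := hpm (-((D : ℤ) * k)) (qb b x)
      rw [v1] at this
      rw [← this]
      congr 1
      linear_combination (-(D : ℤ) ^ 2) * hk
    · rintro ⟨k, hk⟩
      show φ (-qb b x + (D : ℤ) ^ 2 * (1 - -qb b x)) = 0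
      have := hpm ((D : ℤ) * k) (-qb b x)
      rw [v2] at this
      rw [← this]
      congr 1
      linear_combination ((D : ℤ) ^ 2) * hk

end

end Pool.Agent.NSGR


end

section

/-!
# MUX-NS, block GR: module ODU, uniqueness of the solution of the differential equation
-/

set_option autoImplicit false

namespace Pool.Agent.NSGR

open _root_.MU3 _root_.Pool.Agent.MU3A _root_.Pool.Agent.MU3B _root_.Pool.Agent.MU3Q _root_.Pool.Agent.MUX _root_.Pool.Agent.NS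
  _root_.Pool.Agent.NSRD _root_.Pool.Agent.NSG _root_.Pool.Agent.MUXN _root_.Pool.Agent.MuSym OnePoint UpperHalfPlane
open _root_.Pool.Agent.MUXF (qb)
open scoped MatrixGroups

noncomputable section

namespace ODU

private lemma cth_NSGR_ODU (S : PowerSeries ℂ) (n : ℕ) :
    PowerSeries.coeff n (thetaD S) = (n : ℂ) * PowerSeries.coeff n S := by
  rw [thetaD, PowerSeries.coeff_mk]

private lemma step_NSGR_ODU (a2 a4 : ℂ) (z S S' : PowerSeries ℂ) (hz1 : PowerSeries.coeff 1 z ≠ 0)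
    (h : OdeS a2 a4 z S) (h' : OdeS a2 a4 z S') (k : ℕ)
    (ih : ∀ m < k + 3, PowerSeries.coeff m S = PowerSeries.coeff m S') :
    PowerSeries.coeff (k + 3) S = PowerSeries.coeff (k + 3) S' := by
  obtain ⟨R, hR⟩ : (PowerSeries.X : PowerSeries ℂ) ^ (k + 3) ∣ S - S' := by
    rw [PowerSeries.X_pow_dvd_iff]
    intro m hm
    rw [map_sub, ih m hm, sub_self]
  have hR0 : PowerSeries.constantCoeff R =
      PowerSeries.coeff (k + 3) S - PowerSeries.coeff (k + 3) S' := by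
    have h := congrArg (PowerSeries.coeff (0 + (k + 3))) hR
    rw [PowerSeries.coeff_X_pow_mul, map_sub, zero_add] at h
    rw [h, PowerSeries.coeff_zero_eq_constantCoeff_apply]
  obtain ⟨Q, hQ⟩ : (PowerSeries.X : PowerSeries ℂ) ^ (k + 3) ∣ thetaD S - thetaD S' := by
    rw [PowerSeries.X_pow_dvd_iff]
    intro m hm
    rw [map_sub, cth_NSGR_ODU, cth_NSGR_ODU, ih m hm, sub_self]
  have hQ0 : PowerSeries.constantCoeff Q = ((k + 3 : ℕ) : ℂ) *
      (PowerSeries.coeff (k + 3) S - PowerSeries.coeff (k + 3) S') := by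
    have h := congrArg (PowerSeries.coeff (0 + (k + 3))) hQ
    rw [PowerSeries.coeff_X_pow_mul, map_sub, zero_add, cth_NSGR_ODU, cth_NSGR_ODU, ← mul_sub] at h
    rw [h, PowerSeries.coeff_zero_eq_constantCoeff_apply]
  obtain ⟨T, hT⟩ : (PowerSeries.X : PowerSeries ℂ) ^ 2 ∣ thetaD S + thetaD S' := by
    rw [PowerSeries.X_pow_dvd_iff]
    intro m hm
    rw [map_add, cth_NSGR_ODU, cth_NSGR_ODU]
    rcases (show m = 0 ∨ m = 1 by omega) with rfl | rfl
    · rw [h.c0, h'.c0, mul_zero, add_zero]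
    · rw [h.c1, h'.c1, mul_zero, add_zero]
  have hT0 : PowerSeries.constantCoeff T = 4 * PowerSeries.coeff 1 z ^ 2 := by
    have e := congrArg (PowerSeries.coeff (0 + 2)) hT
    rw [PowerSeries.coeff_X_pow_mul, map_add, zero_add, cth_NSGR_ODU, cth_NSGR_ODU, h.c2, h'.c2] at e
    rw [← PowerSeries.coeff_zero_eq_constantCoeff_apply, ← e]
    push_cast
    ring
  obtain ⟨W, hW⟩ : (PowerSeries.X : PowerSeries ℂ) ^ 1 ∣ thetaD z := by
    rw [PowerSeries.X_pow_dvd_iff]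
    intro m hm
    obtain rfl : m = 0 := by omega
    rw [cth_NSGR_ODU, Nat.cast_zero, zero_mul]
  have hW0 : PowerSeries.constantCoeff W = PowerSeries.coeff 1 z := by
    have h := congrArg (PowerSeries.coeff (0 + 1)) hW
    rw [PowerSeries.coeff_X_pow_mul, zero_add, cth_NSGR_ODU] at h
    rw [← PowerSeries.coeff_zero_eq_constantCoeff_apply, ← h]
    norm_num
  have hSc : PowerSeries.constantCoeff S = 0 := by
    rw [← PowerSeries.coeff_zero_eq_constantCoeff_apply, h.c0]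
  have hS'c : PowerSeries.constantCoeff S' = 0 := by
    rw [← PowerSeries.coeff_zero_eq_constantCoeff_apply, h'.c0]
  have ho := h.ode
  have ho' := h'.ode
  simp only [PowerSeries.smul_eq_C_mul] at ho ho'
  set G : PowerSeries ℂ := 1 + PowerSeries.C a2 * (S + S') +
    PowerSeries.C a4 * (S ^ 2 + S * S' + S' ^ 2) with hG
  have hG0 : PowerSeries.constantCoeff G = 1 := by
    rw [hG]
    simp [hSc, hS'c]
  have key : (PowerSeries.X : PowerSeries ℂ) ^ (k + 5) * (Q * T) =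
      PowerSeries.X ^ (k + 5) * (4 * R * G * W ^ 2) := by
    have e1 : (PowerSeries.X : PowerSeries ℂ) ^ (k + 5) * (Q * T) =
        (thetaD S - thetaD S') * (thetaD S + thetaD S') := by
      rw [hQ, hT]
      ring
    have e2 : (PowerSeries.X : PowerSeries ℂ) ^ (k + 5) * (4 * R * G * W ^ 2) =
        4 * (S - S') * G * thetaD z ^ 2 := by
      rw [hR, hW]
      ring
    rw [e1, e2, hG]
    linear_combination ho - ho'
  have key2 : Q * T = 4 * R * G * W ^ 2 :=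
    mul_left_cancel₀ (pow_ne_zero _ PowerSeries.X_ne_zero) key
  have hc := congrArg PowerSeries.constantCoeff key2
  have e4 : PowerSeries.constantCoeff (4 : PowerSeries ℂ) = 4 := by
    have := map_natCast (PowerSeries.constantCoeff (R := ℂ)) 4
    simpa using this
  rw [map_mul, map_mul, map_mul, map_mul, map_pow, e4, hR0, hG0, hW0, hQ0, hT0] at hc
  push_cast at hc
  have hk : (k : ℂ) + 2 ≠ 0 := by
    have : ((k + 2 : ℕ) : ℂ) ≠ 0 := Nat.cast_ne_zero.2 (by omega)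
    push_cast at this
    exact this
  have h0 : (4 * ((k : ℂ) + 2) * PowerSeries.coeff 1 z ^ 2) *
      (PowerSeries.coeff (k + 3) S - PowerSeries.coeff (k + 3) S') = 0 := by
    linear_combination hc
  rcases mul_eq_zero.1 h0 with h1 | h1
  · exact absurd h1 (mul_ne_zero (mul_ne_zero (by norm_num) hk) (pow_ne_zero 2 hz1))
  · exact sub_eq_zero.1 h1

end ODU

/-- ODU. -/
theorem tv_ODU : Sv_ODU := by
  intro a2 a4 z S S' hz1 h h'
  ext n
  induction n using Nat.strong_induction_on with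
  | _ n ih =>
    rcases (show n = 0 ∨ n = 1 ∨ n = 2 ∨ ∃ k, n = k + 3 by
      rcases Nat.lt_or_ge n 3 with h | h
      · omega
      · exact Or.inr (Or.inr (Or.inr ⟨n - 3, by omega⟩))) with rfl | rfl | rfl | ⟨k, rfl⟩
    · rw [h.c0, h'.c0]
    · rw [h.c1, h'.c1]
    · rw [h.c2, h'.c2]
    · exact ODU.step_NSGR_ODU a2 a4 z S S' hz1 h h' k ih

end

end Pool.Agent.NSGR


end

section

/-!
# MUX-NS, block GR, module GVP (helper43): the abstract estimate of Theorem G+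
-/

set_option autoImplicit false

namespace Pool.Agent.NSGR

open _root_.MU3 _root_.Pool.Agent.MU3A _root_.Pool.Agent.MU3B _root_.Pool.Agent.MU3Q _root_.Pool.Agent.MUX _root_.Pool.Agent.NS
  _root_.Pool.Agent.NSRD _root_.Pool.Agent.NSG _root_.Pool.Agent.MUXN _root_.Pool.Agent.MuSym OnePoint UpperHalfPlane
open _root_.Pool.Agent.MUXF (qb)
open scoped MatrixGroups

namespace GVP

section

variable {Γ : Type} [LinearOrderedCommGroupWithZero Γ]

theorem lt1_of_sq {a b : Γ} (h : a ^ 2 ≤ b) (hb : b < 1) : a < 1 := by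
  by_contra hcon
  have h1 : 1 ≤ a := not_lt.1 hcon
  exact absurd (lt_of_le_of_lt ((one_le_pow₀ h1).trans h) hb) (lt_irrefl _)

theorem mul_lt_one {a b : Γ} (ha : a < 1) (hb : b ≤ 1) : a * b < 1 := by
  calc a * b ≤ a * 1 := mul_le_mul_right hb a
    _ = a := mul_one a
    _ < 1 := ha

theorem mul_lt_one' {a b : Γ} (ha : a ≤ 1) (hb : b < 1) : a * b < 1 := by
  rw [mul_comm]
  exact mul_lt_one hb ha

end

section

variable {E Γ : Type} [Field E] [LinearOrderedCommGroupWithZero Γ] (v : Valuation E Γ)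

theorem v2 (h3 : v (3 : E) < 1) : v (2 : E) = 1 := by
  have e : (2 : E) = 3 + (-1) := by norm_num
  rw [e, Valuation.map_add_eq_of_lt_right]
  · rw [Valuation.map_neg, Valuation.map_one]
  · rw [Valuation.map_neg, Valuation.map_one]
    exact h3

theorem vadd {x y : E} {b : Γ} (hx : v x ≤ b) (hy : v y ≤ b) : v (x + y) ≤ b :=
  Valuation.map_add_le v hx hy

theorem vadd_lt {x y : E} {b : Γ} (hx : v x < b) (hy : v y < b) : v (x + y) < b :=
  Valuation.map_add_lt v hx hy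

/-- `v(Y + al Y) = v Y` -/
theorem vY (al : E ≃+* E) {d : Γ} (hd : d < 1) (h3 : v (3 : E) < 1)
    (hal : ∀ x, v (al x - x) ≤ d * v x) {Y : E} (hY : Y ≠ 0) : v (Y + al Y) = v Y := by
  have e : Y + al Y = 2 * Y + (al Y - Y) := by ring
  have hvY : 0 < v Y := (Valuation.pos_iff v).2 hY
  rw [e, Valuation.map_add_eq_of_lt_left]
  · rw [map_mul, v2 v h3, one_mul]
  · rw [map_mul, v2 v h3, one_mul]
    refine lt_of_le_of_lt (hal Y) ?_
    calc d * v Y < 1 * v Y := by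
          exact (mul_lt_mul_iff_of_pos_right hvY).2 hd
      _ = v Y := one_mul _

/-- the sum of the three conjugates -/
theorem vS (al : E ≃+* E) {d : Γ} (hd : d < 1) (hd2 : d ^ 2 = v (3 : E))
    (hal : ∀ x, v (al x - x) ≤ d * v x) (X : E) :
    v (X + al X + al (al X)) ≤ v (3 : E) * v X := by
  have e : X + al X + al (al X) =
      (3 * X + 3 * (al X - X)) + (al (al X - X) - (al X - X)) := by
    rw [map_sub]
    ring
  have h1 : v (al X - X) ≤ v X := by
    refine (hal X).trans ?_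
    calc d * v X ≤ 1 * v X := mul_le_mul_left hd.le _
      _ = v X := one_mul _
  rw [e]
  refine vadd v (vadd v ?_ ?_) ?_
  · rw [map_mul]
  · rw [map_mul]
    exact mul_le_mul_right h1 _
  · refine (hal _).trans ?_
    calc d * v (al X - X) ≤ d * (d * v X) := mul_le_mul_right (hal X) _
      _ = d ^ 2 * v X := by rw [pow_two, mul_assoc]
      _ = v (3 : E) * v X := by rw [hd2]

/-- `v N = 1` -/
theorem vN (al : E ≃+* E) {d : Γ} (hd : d < 1) (hd2 : d ^ 2 = v (3 : E))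
    (hal : ∀ x, v (al x - x) ≤ d * v x) (a2 a4 X : E) (h4 : v a4 = 1)
    (h5 : v (3 : E) * v X ^ 2 < 1) (h6 : v a2 * v X < 1) :
    v (X ^ 2 + X * al X + al X ^ 2 + a2 * (X + al X) + a4) = 1 := by
  have h1 : v (al X - X) ≤ v X := by
    refine (hal X).trans ?_
    calc d * v X ≤ 1 * v X := mul_le_mul_left hd.le _
      _ = v X := one_mul _
  have e : X ^ 2 + X * al X + al X ^ 2 + a2 * (X + al X) + a4 =
      ((3 * X ^ 2 + 3 * (X * (al X - X))) + ((al X - X) ^ 2 + a2 * (X + al X))) + a4 := by ring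
  have hX2 : v (X + al X) ≤ v X := by
    have e2 : X + al X = (X + X) + (al X - X) := by ring
    rw [e2]
    exact vadd v (vadd v le_rfl le_rfl) h1
  rw [e, Valuation.map_add_eq_of_lt_right, h4]
  rw [h4]
  refine vadd_lt v (vadd_lt v ?_ ?_) (vadd_lt v ?_ ?_)
  · rw [map_mul, map_pow]
    exact h5
  · rw [map_mul, map_mul]
    refine lt_of_le_of_lt ?_ h5
    rw [pow_two]
    exact mul_le_mul_right (mul_le_mul_right h1 _) _
  · rw [map_pow]
    refine lt_of_le_of_lt ?_ h5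
    calc v (al X - X) ^ 2 ≤ (d * v X) ^ 2 := pow_le_pow_left₀ zero_le (hal X) 2
      _ = v (3 : E) * v X ^ 2 := by rw [mul_pow, hd2]
  · rw [map_mul]
    exact lt_of_le_of_lt (mul_le_mul_right hX2 _) h6

end

end GVP

theorem tv_GVP : Sv_GVP := by
  intro E Γ _ _ v D al d h3 h30 hd2 hD hal a2 a4 X Y g ha2 ha4 hY hg hY0 hX0 hcol
  have hd : d < 1 := GVP.lt1_of_sq hd2.le h3
  have h2 := GVP.v2 v h3
  have ha21 : v a2 < 1 := GVP.lt1_of_sq ha2 h3
  have hx0 : 0 < v X := (Valuation.pos_iff v).2 hX0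
  have hy0 : 0 < v Y := (Valuation.pos_iff v).2 hY0
  have hvY := GVP.vY v al hd h3 hal hY0
  have hvS := GVP.vS v al hd hd2 hal X
  have hcol' : v (X + al X + al (al X) + a2) * v Y ^ 2 =
      v (X ^ 2 + X * al X + al X ^ 2 + a2 * (X + al X) + a4) ^ 2 := by
    rw [← hvY, ← map_pow, ← map_mul, hcol, map_pow]
  -- the key contradiction
  have key : ∀ b : Γ, v (3 : E) * v X ≤ b → v a2 ≤ b → b * v Y ^ 2 < 1 →
      v (3 : E) * v X ^ 2 < 1 → v a2 * v X < 1 → False := by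
    intro b h1 h1' h4 h5 h6
    have hN := GVP.vN v al hd hd2 hal a2 a4 X ha4 h5 h6
    rw [hN, one_pow] at hcol'
    have h7 : v (X + al X + al (al X) + a2) ≤ b := GVP.vadd v (hvS.trans h1) h1'
    have h8 : v (X + al X + al (al X) + a2) * v Y ^ 2 ≤ b * v Y ^ 2 := mul_le_mul_left h7 _
    rw [hcol'] at h8
    exact absurd (lt_of_le_of_lt h8 h4) (lt_irrefl _)
  rcases le_or_gt (v X) 1 with hx | hx
  · exfalso
    have hY2 : v Y ^ 2 ≤ 1 := by
      rw [← map_pow, hY]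
      refine GVP.vadd v (GVP.vadd v ?_ ?_) ?_
      · rw [map_pow]
        exact pow_le_one₀ zero_le hx
      · rw [map_mul, map_pow]
        exact mul_le_one' ha21.le (pow_le_one₀ zero_le hx)
      · rw [map_mul, ha4, one_mul]
        exact hx
    have h5 : v (3 : E) * v X < 1 := GVP.mul_lt_one h3 hx
    refine key (max (v (3 : E) * v X) (v a2)) (le_max_left _ _) (le_max_right _ _)
      (GVP.mul_lt_one (max_lt h5 ha21) hY2) (GVP.mul_lt_one h3 (pow_le_one₀ zero_le hx))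
      (GVP.mul_lt_one ha21 hx)
  · have hY2 : v Y ^ 2 = v X ^ 3 := by
      have hlt : v (a2 * X ^ 2 + a4 * X) < v (X ^ 3) := by
        rw [map_pow]
        refine GVP.vadd_lt v ?_ ?_
        · rw [map_mul, map_pow]
          calc v a2 * v X ^ 2 < 1 * v X ^ 2 :=
                (mul_lt_mul_iff_of_pos_right (pow_pos hx0 2)).2 ha21
            _ = v X ^ 2 := one_mul _
            _ ≤ v X ^ 3 := pow_le_pow_right₀ hx.le (by norm_num)
        · rw [map_mul, ha4, one_mul]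
          calc v X = v X ^ 1 := (pow_one _).symm
            _ < v X ^ 3 := pow_lt_pow_right₀ hx (by norm_num)
      rw [← map_pow, hY, add_assoc, Valuation.map_add_eq_of_lt_left v hlt, map_pow]
    -- `v g ^ 2 * v X ≤ 1`
    have hg2 : v g ^ 2 * v X ≤ 1 := by
      have h7 : v X ^ 3 * v g ^ 2 ≤ v X ^ 2 := by
        calc v X ^ 3 * v g ^ 2 = v (D X) ^ 2 := by
              rw [hg, map_mul, map_mul, h2, one_mul, mul_pow, hY2]
          _ ≤ v X ^ 2 := pow_le_pow_left₀ zero_le (hD X) 2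
      have h8 : v X ^ 2 * (v g ^ 2 * v X) ≤ v X ^ 2 * 1 := by
        calc v X ^ 2 * (v g ^ 2 * v X) = v X ^ 3 * v g ^ 2 := by
              rw [pow_succ (v X) 2]
              ac_rfl
          _ ≤ v X ^ 2 * 1 := by rw [mul_one]; exact h7
      exact le_of_mul_le_mul_left h8 (pow_pos hx0 2)
    have hg12 : v g ^ 12 * v X ^ 6 ≤ 1 := by
      calc v g ^ 12 * v X ^ 6 = (v g ^ 2 * v X) ^ 6 := by rw [mul_pow, ← pow_mul]
        _ ≤ 1 := pow_le_one₀ zero_le hg2
    by_cases h6 : 1 ≤ v (3 : E) * v X ^ 6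
    · calc v g ^ 12 = v g ^ 12 * 1 := (mul_one _).symm
        _ ≤ v g ^ 12 * (v (3 : E) * v X ^ 6) := mul_le_mul_right h6 _
        _ = v (3 : E) * (v g ^ 12 * v X ^ 6) := by ac_rfl
        _ ≤ v (3 : E) * 1 := mul_le_mul_right hg12 _
        _ = v (3 : E) := mul_one _
    · exfalso
      have h6' : v (3 : E) * v X ^ 6 < 1 := not_le.1 h6
      have mono : ∀ n ≤ 6, v (3 : E) * v X ^ n < 1 := fun n hn =>
        lt_of_le_of_lt (mul_le_mul_right (pow_le_pow_right₀ hx.le hn) _) h6'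
      have hA : v a2 * v X < 1 := by
        refine GVP.lt1_of_sq (b := v (3 : E) * v X ^ 2) ?_ (mono 2 (by norm_num))
        rw [mul_pow]
        exact mul_le_mul_left ha2 _
      have hB : v a2 * v X ^ 3 < 1 := by
        refine GVP.lt1_of_sq (b := v (3 : E) * v X ^ 6) ?_ h6'
        rw [mul_pow, ← pow_mul]
        exact mul_le_mul_left ha2 _
      have hC : v (3 : E) * v X * v X ^ 3 < 1 := by
        have := mono 4 (by norm_num)
        rw [mul_assoc, ← pow_succ']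
        exact this
      refine key (max (v (3 : E) * v X) (v a2)) (le_max_left _ _) (le_max_right _ _) ?_
        (mono 2 (by norm_num)) hA
      rw [hY2]
      rcases le_total (v (3 : E) * v X) (v a2) with h | h
      · rw [max_eq_right h]
        exact hB
      · rw [max_eq_left h]
        exact hC

end Pool.Agent.NSGR


end

section

/-!
# NS, block GR, module GTP: THEOREM G+ (adapted from `NS/G_Gth.lean`)
-/

set_option autoImplicit false

namespace Pool.Agent.NSGR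

open _root_.MU3 _root_.Pool.Agent.MU3A _root_.Pool.Agent.MU3B _root_.Pool.Agent.MU3Q _root_.Pool.Agent.MUX _root_.Pool.Agent.NS
  _root_.Pool.Agent.NSRD _root_.Pool.Agent.NSG _root_.Pool.Agent.MUXN _root_.Pool.Agent.MuSym OnePoint UpperHalfPlane
open scoped MatrixGroups

noncomputable section

namespace GTP

/-- the elements with `v(x)^12 ≤ θ` are closed under sums -/
lemma pw_sum {ι : Type*} (V : ValuationSubring ℂ) (θ : V.ValueGroup) (J : Finset ι) (f : ι → ℂ)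
    (hf : ∀ j ∈ J, V.valuation (f j) ^ 12 ≤ θ) : V.valuation (∑ j ∈ J, f j) ^ 12 ≤ θ := by
  classical
  induction J using Finset.induction_on with
  | empty =>
    rw [Finset.sum_empty, map_zero, zero_pow (by norm_num)]
    exact zero_le
  | insert a s ha ih =>
    rw [Finset.sum_insert ha]
    have h1 := hf a (Finset.mem_insert_self _ _)
    have h2 := ih fun j hj => hf j (Finset.mem_insert_of_mem hj)
    rcases le_max_iff.1 (V.valuation.map_add (f a) (∑ j ∈ s, f j)) with h | h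
    · exact (pow_le_pow_left' h 12).trans h1
    · exact (pow_le_pow_left' h 12).trans h2

end GTP

open _root_.Pool.Agent.MU3G in
theorem tv_GTP (h1 : Sv_GJP) (h2 : Sg_DSC) (h3 : Sg_ZL) (h4 : Sg_FK) (h5 : Sg_FGG) : Sv_GTP := by
  classical
  intro A B hc J' _ Ψ Θ α₁ Om N' hG hTh V h3V hLoc L' el lam hL hlam kk' hkk
  by_contra hcon
  push Not at hcon
  have hOm0 : Om ≠ 0 := hL.om0
  obtain ⟨r, h, hh, hfg⟩ := h5 N' hG.pos
  set Pm : Fin r → J' → ℂ := fun l' c => Ψ c ∞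
      (mob (h l' 0 0) (h l' 0 1) (h l' 1 0) (h l' 1 1) ∞) / Om with hPm
  -- the space of the period vectors
  let T : (J' → ℂ) →ₗ[ℂ] (Fin r → ℂ) :=
    { toFun := fun y l' => ∑ c, y c * Pm l' c
      map_add' := by
        intro y z
        funext l'
        simp only [Pi.add_apply, add_mul, Finset.sum_add_distrib]
      map_smul' := by
        intro a y
        funext l'
        simp only [Pi.smul_apply, smul_eq_mul, RingHom.id_apply, Finset.mul_sum, mul_assoc] }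
  have hT : ∀ y l', T y l' = ∑ c, y c * Pm l' c := fun y l' => rfl
  set X : Submodule ℂ (Fin r → ℂ) := LinearMap.range T with hX
  have hcol : ∀ c : J', (fun l' => Pm l' c) ∈ X := by
    intro c
    refine ⟨Pi.single c 1, ?_⟩
    funext l'
    rw [hT, Finset.sum_eq_single c]
    · simp
    · intro c' _ hc'
      simp [Pi.single_eq_of_ne hc']
    · intro hc'
      exact absurd (Finset.mem_univ _) hc'
  obtain ⟨hfk, hfk2⟩ := h4 A B hc
  have hst : ∀ σ : ℂ ≃+* ℂ, (∀ a ∈ (kk A B : Set ℂ), σ a = a) → ∀ x ∈ X,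
      (fun i => σ (x i)) ∈ X := by
    intro σ hσ x hx
    obtain ⟨y, rfl⟩ := hx
    have hF : FixK A B σ := (hfk σ).2 hσ
    have hcol' : ∀ c : J', (fun l' => σ (Pm l' c)) ∈ X := by
      intro c
      obtain ⟨j, u, hu⟩ := hG.rat σ hF c
      have e1 : (fun l' => σ (Pm l' c)) = u • (fun l' => Pm l' j) := by
        funext l'
        simp only [Pi.smul_apply, smul_eq_mul, hPm, hu]
      rw [e1]
      exact X.smul_mem _ (hcol _)
    have e3 : (fun i => σ (T y i)) = ∑ c, (σ (y c)) • (fun l' => σ (Pm l' c)) := by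
      funext l'
      rw [hT, map_sum, Finset.sum_apply]
      refine Finset.sum_congr rfl fun c _ => ?_
      simp
    rw [e3]
    exact X.sum_mem fun c _ => X.smul_mem _ (hcol' c)
  obtain ⟨J, ej, hJ, hJX⟩ := h2 (kk A B : Set ℂ)
    (fun x hx => hfk2 x fun σ hσ => hx σ ((hfk σ).1 hσ)) V r X hst
  have hgj : ∀ j : Fin r, j ∈ J → ∃ y' : J' → ℂ, (∀ l', ∑ c, y' c * Pm l' c = ej j l') ∧
      V.valuation (∑ c : J', y' c * α₁ c) ^ 12 ≤ V.valuation (3 : ℂ) := by
    intro j hj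
    obtain ⟨hX1, hX2, -⟩ := hJ j hj
    obtain ⟨y, hy⟩ := hX1
    exact h1 A B hc J' Ψ Θ α₁ Om N' hG hTh V h3V hLoc L' el lam hL hlam r h hh hfg (ej j) hX2 y
      (fun l' => by rw [← hy]; rfl)
  choose! y' hy'1 hy'2 using hgj
  -- the vector `x`
  set x : Fin r → ℂ := T kk' with hx
  have hxnu : ∀ l', V.valuation (x l') ≤ 1 := by
    intro l'
    obtain ⟨m1, m2⟩ := G6c.mem1 (hh l')
    have h6 := hcon (h l' 0 0) (h l' 0 1) (h l' 1 0) (h l' 1 1) (G6c.det_eq (h l')) m1 m2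
    have e1 : x l' = (∑ j, kk' j * Ψ j ∞ (mob (h l' 0 0) (h l' 0 1) (h l' 1 0) (h l' 1 1) ∞)) /
        Om := by
      rw [hx, hT, Finset.sum_div]
      refine Finset.sum_congr rfl fun c _ => ?_
      rw [hPm]
      ring
    rw [e1]
    exact h6
  have hxJ : x = ∑ j ∈ J, x j • ej j := hJX x ⟨kk', rfl⟩
  set yp : J' → ℂ := fun c => kk' c - ∑ j ∈ J, x j * y' j c with hyp
  have hyp0 : ∀ l', ∑ c, yp c * Pm l' c = 0 := by
    intro l'
    have e1 : ∑ c, yp c * Pm l' c = x l' - ∑ j ∈ J, x j * ej j l' := by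
      have e2 : ∑ j ∈ J, x j * ej j l' = ∑ c, (∑ j ∈ J, x j * y' j c) * Pm l' c := by
        simp_rw [Finset.sum_mul]
        rw [Finset.sum_comm]
        refine Finset.sum_congr rfl fun j hj => ?_
        rw [← hy'1 j hj l', Finset.mul_sum]
        refine Finset.sum_congr rfl fun c _ => ?_
        ring
      rw [e2, hx, hT, ← Finset.sum_sub_distrib]
      refine Finset.sum_congr rfl fun c _ => ?_
      rw [hyp]
      ring
    have e3 := congrFun hxJ l'
    rw [Finset.sum_apply] at e3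
    simp only [Pi.smul_apply, smul_eq_mul] at e3
    rw [e1, ← e3, sub_self]
  -- the form
  choose α hα using fun j => hG.qexp j
  set Z : ℍ → ℂ := fun τ => ∑ c : J', yp c * Θ c (τ : ℂ) with hZ
  set z : PowerSeries ℂ := PowerSeries.mk fun n => ∑ c : J', yp c * (α c n / n) with hz
  have hzn : ∀ n, PowerSeries.coeff n z = ∑ c : J', yp c * (α c n / n) :=
    fun n => by rw [hz, PowerSeries.coeff_mk]
  have hsmul : ∀ (γ : SL(2, ℤ)) (τ : ℍ), ((γ • τ : ℍ) : ℂ) =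
      (((γ 0 0 : ℤ) : ℂ) * τ + ((γ 0 1 : ℤ) : ℂ)) /
          (((γ 1 0 : ℤ) : ℂ) * τ + ((γ 1 1 : ℤ) : ℂ)) := by
    intro γ τ
    rw [UpperHalfPlane.specialLinearGroup_apply]
    simp
  have hQS : QS Z z := by
    intro τ
    have hs := (hasSum_sum (s := Finset.univ) fun c (_ : c ∈ (Finset.univ : Finset (J'))) =>
      ((hα c).2.2.2 (τ : ℂ) τ.2).mul_left (yp c))
    have e2 : (fun n : ℕ => PowerSeries.coeff n z * qq τ ^ n) = fun n : ℕ =>
        ∑ c : J', yp c * (α c n / n *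
          Complex.exp (2 * Real.pi * Complex.I * (τ : ℂ)) ^ n) := by
      funext n
      rw [hzn n, qq, Finset.sum_mul]
      refine Finset.sum_congr rfl fun c _ => ?_
      ring
    rw [e2]
    exact hs
  have hcusp : ∀ γ : SL(2, ℤ), ∃ (C : ℂ) (w : ℕ → ℂ), ∀ τ : ℍ, HasSum (fun n : ℕ => w n *
      Complex.exp (2 * Real.pi * Complex.I * (τ : ℂ) / N') ^ (n + 1)) (Z (γ • τ) - C) := by
    intro γ
    choose C W hW using fun c : J' => hG.cusp c (γ 0 0) (γ 0 1) (γ 1 0) (γ 1 1)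
      (G6c.det_eq γ)
    refine ⟨∑ c : J', yp c * C c, fun n => ∑ c : J', yp c * W c n, ?_⟩
    intro τ
    have hs := (hasSum_sum (s := Finset.univ) fun c (_ : c ∈ (Finset.univ : Finset (J'))) =>
      (hW c (τ : ℂ) τ.2).mul_left (yp c))
    have e1 : (fun n : ℕ => (∑ c : J', yp c * W c n) *
        Complex.exp (2 * Real.pi * Complex.I * (τ : ℂ) / N') ^ (n + 1)) = fun n : ℕ =>
        ∑ c : J', yp c * (W c n *
          Complex.exp (2 * Real.pi * Complex.I * (τ : ℂ) / N') ^ (n + 1)) := by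
      funext n
      rw [Finset.sum_mul]
      refine Finset.sum_congr rfl fun c _ => ?_
      ring
    have e2 : Z (γ • τ) - ∑ c : J', yp c * C c = ∑ c : J', yp c *
        (Θ c ((((γ 0 0 : ℤ) : ℂ) * τ + ((γ 0 1 : ℤ) : ℂ)) /
          (((γ 1 0 : ℤ) : ℂ) * τ + ((γ 1 1 : ℤ) : ℂ))) - C c) := by
      rw [hZ]
      beta_reduce
      rw [← Finset.sum_sub_distrib, hsmul]
      refine Finset.sum_congr rfl fun c _ => ?_
      ring
    rw [e1, e2]
    exact hs
  -- the periods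
  set ρ : SL(2, ℤ) → ℂ := fun g => ∑ c : J', yp c *
    (Ψ c ∞ (G6c.mI g) / Om) with hρ
  have hρadd : ∀ g ∈ CongruenceSubgroup.Gamma1 N', ∀ g' ∈ CongruenceSubgroup.Gamma1 N',
      ρ (g * g') = ρ g + ρ g' := by
    intro g hg g' hg'
    rw [hρ]
    beta_reduce
    rw [← Finset.sum_add_distrib]
    refine Finset.sum_congr rfl fun c _ => ?_
    obtain ⟨m1, m2⟩ := G6c.mem1 hg
    have a1 := hG.add c ∞ (G6c.mI g) (G6c.mI (g * g'))
    have a2 := hG.inv c (g 0 0) (g 0 1) (g 1 0) (g 1 1) (G6c.det_eq g) m1 m2 ∞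
      (G6c.mI g')
    rw [← G6c.mI_mul] at a2
    have a3 : mob (g 0 0) (g 0 1) (g 1 0) (g 1 1) ∞ = G6c.mI g := rfl
    rw [a3] at a2
    rw [← a1, a2]
    ring
  have hρ0 : ∀ g ∈ CongruenceSubgroup.Gamma1 N', ρ g = 0 := by
    intro g hg
    have := hfg ρ hρadd ⊥ (fun i => by
      rw [AddSubgroup.mem_bot]
      exact hyp0 i) g hg
    rwa [AddSubgroup.mem_bot] at this
  have hper : ∀ γ ∈ CongruenceSubgroup.Gamma1 N', ∀ τ : ℍ, Z (γ • τ) = Z τ := by
    intro γ hγ τ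
    obtain ⟨m1, m2⟩ := G6c.mem1 hγ
    have e1 : Z (γ • τ) - Z τ = Om * ρ γ := by
      rw [hZ, hρ]
      beta_reduce
      rw [hsmul, ← Finset.sum_sub_distrib, Finset.mul_sum _ _ Om]
      refine Finset.sum_congr rfl fun c _ => ?_
      rw [hG.per c (γ 0 0) (γ 0 1) (γ 1 0) (γ 1 1) (G6c.det_eq γ) m1 m2 (τ : ℂ) τ.2]
      have a3 : mob (γ 0 0) (γ 0 1) (γ 1 0) (γ 1 1) ∞ = G6c.mI γ := rfl
      rw [a3]
      field_simp
      ring
    rw [hρ0 γ hγ, mul_zero] at e1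
    exact sub_eq_zero.1 e1
  have hz0 : z = 0 := h3 N' hG.pos Z z hQS (by rw [hzn]; simp) hcusp hper
  have hc1 := hzn 1
  rw [hz0, map_zero] at hc1
  have e1 : (∑ c : J', yp c * (α c 1 / (1 : ℕ))) = ∑ c : J', yp c * α₁ c := by
    refine Finset.sum_congr rfl fun c _ => ?_
    rw [(hα c).2.2.1]
    simp
  have e2 : ∑ c : J', yp c * α₁ c = ∑ j, kk' j * α₁ j - ∑ j ∈ J, x j * ∑ c : J', y' j c * α₁ c := by
    have e4 : ∑ c : J', (∑ j ∈ J, x j * y' j c) * α₁ c =
        ∑ j ∈ J, x j * ∑ c : J', y' j c * α₁ c := by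
      simp_rw [Finset.sum_mul, Finset.mul_sum]
      rw [Finset.sum_comm]
      refine Finset.sum_congr rfl fun j _ => Finset.sum_congr rfl fun c _ => ?_
      ring
    rw [← e4, ← Finset.sum_sub_distrib]
    refine Finset.sum_congr rfl fun c _ => ?_
    rw [hyp]
    ring
  have e5 : ∑ j, kk' j * α₁ j = ∑ j ∈ J, x j * ∑ c : J', y' j c * α₁ c := by
    rw [e1, e2] at hc1
    exact (sub_eq_zero.1 hc1.symm)
  rw [e5] at hkk
  refine absurd hkk (not_lt.2 (GTP.pw_sum V _ J _ fun j hj => ?_))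
  rw [map_mul, mul_pow]
  exact mul_le_of_le_one_of_le (pow_le_one' (hxnu j) 12) (hy'2 j hj)

end

end Pool.Agent.NSGR


end

section

/-!
# MUX-NS, block ER: the differences `x(b^l z₁) - x(z₁)` (DIF), `3` ramified (helper45)
-/

set_option autoImplicit false

open Polynomial

namespace Pool.Agent.NSER

open _root_.MU3 _root_.Pool.Agent.MU3A _root_.Pool.Agent.MU3B _root_.Pool.Agent.MUX _root_.Pool.Agent.MUXU _root_.Pool.Agent.MUXE
open _root_.Pool.Agent.RI _root_.Pool.Agent.NS _root_.Pool.Agent.NSRD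
open _root_.Pool.Agent.MUXV (GR InK tX)
open _root_.Pool.Agent.NSE (E3 su ru WL IntP Rep)

noncomputable section

namespace DIF

theorem sum3 (F : ℕ → ℕ) (k : ℕ) : ∑ l ∈ Finset.range (3 * k), F l =
    ∑ l ∈ Finset.range k, (F (3 * l) + F (3 * l + 1) + F (3 * l + 2)) := by
  induction k with
  | zero => simp
  | succ k ih =>
    rw [show 3 * (k + 1) = 3 * k + 1 + 1 + 1 by ring, Finset.sum_range_succ,
      Finset.sum_range_succ, Finset.sum_range_succ, ih, Finset.sum_range_succ]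
    ring

/-- the exponent of the difference number `l` -/
def ex (l : ℕ) : ℕ := if l = 0 then 0 else 27 * 9 ^ (padicValNat 3 l)

theorem ex_mul (l : ℕ) : ex (3 * l) = 9 * ex l := by
  unfold ex
  by_cases h : l = 0
  · simp [h]
  · have : Fact (Nat.Prime 3) := ⟨by norm_num⟩
    rw [if_neg (by omega), if_neg h, padicValNat.mul (by norm_num) h, padicValNat_self]
    ring

theorem ex_of_not {l : ℕ} (h : ¬ 3 ∣ l) : ex l = 27 := by
  unfold ex
  rw [if_neg (by rintro rfl; exact h (dvd_zero _)), padicValNat.eq_zero_of_not_dvd h]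
  rfl

theorem ex_sum (M : ℕ) : ∑ l ∈ Finset.range (3 ^ M), ex l + 9 * 3 ^ M = 9 * 9 ^ M := by
  induction M with
  | zero => simp [ex]
  | succ M ih =>
    rw [pow_succ', sum3]
    have h1 : ∑ l ∈ Finset.range (3 ^ M), (ex (3 * l) + ex (3 * l + 1) + ex (3 * l + 2)) =
        9 * ∑ l ∈ Finset.range (3 ^ M), ex l + 54 * 3 ^ M := by
      have h2 : ∀ l : ℕ, ex (3 * l) + ex (3 * l + 1) + ex (3 * l + 2) = 9 * ex l + 54 := by
        intro l
        rw [ex_mul, ex_of_not (l := 3 * l + 1) (by omega),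
          ex_of_not (l := 3 * l + 2) (by omega)]
      simp only [h2]
      rw [Finset.sum_add_distrib, ← Finset.mul_sum, Finset.sum_const, Finset.card_range,
        smul_eq_mul]
      ring
    rw [h1, pow_succ]
    linarith

theorem ex_sum' (M : ℕ) : ∑ l ∈ Finset.Ico 1 (3 ^ M), ex l = 3 ^ M * (9 * (3 ^ M - 1)) := by
  have h1 := ex_sum M
  have h0 : 1 ≤ 3 ^ M := Nat.one_le_pow _ _ (by norm_num)
  rw [Finset.range_eq_Ico, Finset.sum_eq_sum_Ico_succ_bot (by omega)] at h1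
  have h2 : ex 0 = 0 := by simp [ex]
  rw [h2, zero_add, zero_add] at h1
  obtain ⟨y, hy⟩ := Nat.exists_eq_add_of_le h0
  have h3 : (9 : ℕ) ^ M = 3 ^ M * 3 ^ M := by
    rw [← mul_pow]
    norm_num
  rw [h3] at h1
  rw [hy] at h1 ⊢
  rw [Nat.add_sub_cancel_left]
  nlinarith

theorem pow_inj {Γ : Type*} [LinearOrderedCommGroupWithZero Γ] {a b : Γ} {k : ℕ} (hk : k ≠ 0)
    (h : a ^ k = b ^ k) : a = b :=
  (pow_left_inj₀ zero_le zero_le hk).1 h

end DIF

open _root_.Pool.Agent.NSER.DIF in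
theorem tf_DIF (h1 : Sf_GRN) (h2 : Sf_TNC) (h3 : Sf_TPR) (h4 : Sf_IDL) (h5 : Sf_BPW) :
    Sf_DIF := by
  intro A B P V hC hT hG N u e lam hN hg n f hn hf h3f z₁ hz₁ b hb t ht
  have hR := hC.ring
  have hded := hR.ded
  obtain ⟨φ, hφ⟩ := hR.hom
  have hmul : ∀ x y : OO A B, emb (x * y) = emb x * emb y := fun x y => by
    rw [← hφ, map_mul, hφ, hφ]
  have hsub : ∀ x y : OO A B, emb (x - y) = emb x - emb y := fun x y => by
    rw [← hφ, map_sub, hφ, hφ]
  have hone : emb (1 : OO A B) = 1 := by rw [← hφ, map_one]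
  have hnat : ∀ k : ℕ, emb ((k : ℕ) : OO A B) = k := fun k => by rw [← hφ, map_natCast]
  have hint : ∀ k : ℤ, emb ((k : ℤ) : OO A B) = k := fun k => by rw [← hφ, map_intCast]
  have hnz : ∀ k : ℕ, k ≠ 0 → ((k : ℕ) : OO A B) ≠ 0 := by
    intro k hk h
    have h' := hnat k
    rw [h, ← hφ, map_zero] at h'
    exact hk (by exact_mod_cast h'.symm)
  have hv3 := hC.v3
  have hv30 : V.valuation (3 : ℂ) ≠ 0 := (Valuation.ne_zero_iff _).2 (by norm_num)
  have hf0 : f ≠ 0 := by omega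
  obtain ⟨i1, i2, i3, i4, i5⟩ := h4 A B P V hC
  obtain ⟨j1, j2, j3, j4, j5, j6, j7⟩ := i5 f n hf0
  obtain ⟨b1, b2, -⟩ := h5 A B P V hC f n b hf0 hb
  obtain ⟨ξ, G⟩ := h1 V N u e lam hg hv3
  have hlv : lvX 3 f n = 3 ^ (n + 1) * f := by
    unfold lvX q0
    rw [if_neg (by norm_num)]
    ring
  rw [hlv] at b2
  -- the points `z₁`, `2 z₁`
  have hord : ∀ k : ℕ, InK V N (xu N u e) ((k : ℂ) * z₁) → f ∣ k := by
    intro k hk
    have e1 := Pool.Agent.MUXV.inK_nat G hk (3 ^ (n + 1))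
    have e2 := (h2 V N u e lam hg hv3 f h3f).2 _ (by
      have e3 := (hz₁ (((3 ^ (n + 1) * f * k : ℕ)) : OO A B)).2
        ((j6 _).2 (dvd_mul_right _ _))
      rw [hnat] at e3
      convert e3 using 1
      push_cast
      ring) e1
    have e4 : emb (((3 ^ (n + 1) * k : ℕ)) : OO A B) * z₁ ∈ N.lattice := by
      rw [hnat]
      convert e2 using 1
      push_cast
      ring
    have e5 := (j6 _).1 ((hz₁ _).1 e4)
    exact (Nat.mul_dvd_mul_iff_left (by positivity)).1 e5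
  have hz1 : ¬ InK V N (xu N u e) z₁ := by
    intro h
    have e1 := hord 1 (by simpa using h)
    have e2 := Nat.le_of_dvd (by norm_num) e1
    omega
  have hz2 : ¬ InK V N (xu N u e) (2 * z₁) := by
    intro h
    have e1 := hord 2 (by exact_mod_cast h)
    have e2 := Nat.le_of_dvd (by norm_num) e1
    omega
  -- the discriminant
  have hdd : dD A B * dD A B = ((B ^ 2 + 4 * A : ℤ) : OO A B) := by
    have re_int : ∀ n : ℤ, ((n : ℤ) : OO A B).re = n := fun n => rfl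
    have im_int : ∀ n : ℤ, ((n : ℤ) : OO A B).im = 0 := fun n => rfl
    ext
    · rw [QuadraticAlgebra.re_mul, re_int]
      simp only [dD]
      ring
    · rw [QuadraticAlgebra.im_mul, im_int]
      simp only [dD]
      ring
  have hvD : V.valuation (((B ^ 2 + 4 * A : ℤ)) : ℂ) = V.valuation (3 : ℂ) := by
    rw [← hint, ← hdd, hmul, map_mul, ← sq, hC.vd]
  have hvint : ∀ k : ℤ, V.valuation (k : ℂ) ≤ 1 := fun k => by
    rw [← hint]; exact hC.int _
  have hD3 : (3 : ℤ) ∣ B ^ 2 + 4 * A := by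
    by_contra hc
    have e1 : ¬ 3 ∣ (B ^ 2 + 4 * A).natAbs := by
      intro h
      exact hc (Int.natCast_dvd.2 h)
    have e2 := hC.nat _ e1
    have e3 : V.valuation (((B ^ 2 + 4 * A).natAbs : ℕ) : ℂ) =
        V.valuation (((B ^ 2 + 4 * A : ℤ)) : ℂ) := by
      rcases Int.natAbs_eq (B ^ 2 + 4 * A) with h | h
      · rw [← Int.cast_natCast, ← h]
      · rw [← Valuation.map_neg, ← Int.cast_natCast, ← Int.cast_neg, ← h]
    rw [e3, hvD] at e2
    exact absurd e2 hv3.ne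
  obtain ⟨D', hD'⟩ := hD3
  have hD'3 : ¬ (3 : ℤ) ∣ D' := by
    rintro ⟨D'', hD''⟩
    have e1 : (((B ^ 2 + 4 * A : ℤ)) : ℂ) = 3 * (3 * (D'' : ℂ)) := by
      rw [hD', hD'']
      push_cast
      ring
    rw [e1, map_mul, map_mul] at hvD
    have e2 : V.valuation (3 : ℂ) * V.valuation (D'' : ℂ) = 1 := by
      apply mul_left_cancel₀ hv30
      rw [hvD, mul_one]
    have e3 : V.valuation (3 : ℂ) * V.valuation (D'' : ℂ) < 1 :=
      mul_lt_one_of_lt_of_le hv3 (hvint _)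
    exact absurd e2 e3.ne
  obtain ⟨α, β, hαβ⟩ : IsCoprime (3 : ℤ) D' := by
    rw [Int.isCoprime_iff_gcd_eq_one]
    have hp : Prime (3 : ℤ) := Int.prime_three
    exact Int.isCoprime_iff_gcd_eq_one.1 ((Prime.coprime_iff_not_dvd hp).2 hD'3)
  have hsq : ∀ y ∈ P, ∀ p ∈ P, dD A B * y = 3 * p → y ∈ P * P := by
    intro y hy p hp hyp
    have e1 : (D' : OO A B) * y = dD A B * p := by
      have e2 : (3 : OO A B) ≠ 0 := by exact_mod_cast hnz 3 (by norm_num)
      apply mul_left_cancel₀ e2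
      have e3 : dD A B * (dD A B * y) = (3 : OO A B) * ((D' : OO A B) * y) := by
        rw [← mul_assoc, hdd, hD']
        push_cast
        ring
      rw [← e3, hyp]
      ring
    have e4 : (D' : OO A B) * y ∈ P * P := by
      rw [e1]
      exact Ideal.mul_mem_mul hC.dP hp
    have e5 : (3 : OO A B) * y ∈ P * P := by
      rw [hC.sq]
      exact Ideal.mul_mem_right _ _ (Ideal.mem_span_singleton'.2 ⟨1, by push_cast; ring⟩)
    have e6 : y = (α : OO A B) * ((3 : OO A B) * y) + (β : OO A B) * ((D' : OO A B) * y) := by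
      have e7 : ((α * 3 + β * D' : ℤ) : OO A B) = 1 := by rw [hαβ]; norm_num
      push_cast at e7
      linear_combination (-y) * e7
    rw [e6]
    exact add_mem (Ideal.mul_mem_left _ _ e5) (Ideal.mul_mem_left _ _ e4)
  -- one difference
  have key : ∀ l, 0 < l → l < 3 ^ (n - 1) →
      V.valuation (xu N u e (emb (b ^ l) * z₁) - xu N u e z₁) = V.valuation t ^ ex l := by
    intro l hl0 hl
    have : Fact (Nat.Prime 3) := ⟨by norm_num⟩
    set j := padicValNat 3 l with hj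
    have d1 : 3 ^ j ∣ l := pow_padicValNat_dvd
    have d2 : ¬ 3 ^ (j + 1) ∣ l := pow_succ_padicValNat_not_dvd hl0.ne'
    have d3 : j < n - 1 :=
      (Nat.pow_lt_pow_iff_right (by norm_num)).1 (lt_of_le_of_lt (Nat.le_of_dvd hl0 d1) hl)
    obtain ⟨k, hk⟩ : ∃ k, n = k + j + 2 := ⟨n - 2 - j, by omega⟩
    obtain ⟨y, hy, hyP, hys⟩ := b2 l j d1 d2 (by omega)
    have hs : b ^ l - 1 - ((3 ^ (j + 1) * f : ℕ) : OO A B) * y ∈ lvR P f n := j3 hys
    obtain ⟨P₂, hP₂⟩ : ∃ w, w = emb (b ^ l - 1) * z₁ := ⟨_, rfl⟩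
    have hzz : emb (b ^ l) * z₁ = z₁ + P₂ := by
      rw [hP₂, hsub, hone]
      ring
    have hx : ∀ x : OO A B, emb x * P₂ ∈ N.lattice ↔
        x * (((3 ^ (j + 1) * f : ℕ) : OO A B) * y) ∈ lvR P f n := by
      intro x
      rw [hP₂, ← mul_assoc, ← hmul, hz₁]
      have e1 : x * (b ^ l - 1) = x * (b ^ l - 1 - ((3 ^ (j + 1) * f : ℕ) : OO A B) * y) +
          x * (((3 ^ (j + 1) * f : ℕ) : OO A B) * y) := by ring
      rw [e1]
      exact Ideal.add_mem_iff_right _ (Ideal.mul_mem_left _ _ hs)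
    have t1 : Tor (P ^ (2 * k + 1 + 1)) N P₂ := by
      intro x hxP
      rw [show 2 * k + 1 + 1 = 2 * (k + 1) by ring, i3] at hxP
      obtain ⟨c, rfl⟩ := Ideal.mem_span_singleton'.1 hxP
      rw [hx, j1]
      refine ⟨c * y, Ideal.mul_mem_left _ _ hy, ?_⟩
      rw [hk]
      push_cast
      ring
    have t2 : ¬ Tor (P ^ (2 * k + 1)) N P₂ := by
      intro hTor
      have e1 : ((3 ^ k : ℕ) : OO A B) * dD A B ∈ P ^ (2 * k + 1) := by
        rw [pow_succ, i3]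
        exact Ideal.mul_mem_mul (Ideal.mem_span_singleton_self _) hC.dP
      have e2 := hTor _ e1
      rw [hx, j1] at e2
      obtain ⟨p, hp, hpe⟩ := e2
      apply hyP
      apply hsq y hy p hp
      have e3 : ((3 ^ (k + j + 1) * f : ℕ) : OO A B) ≠ 0 := hnz _ (by positivity)
      apply mul_left_cancel₀ e3
      rw [hk] at hpe
      push_cast at hpe ⊢
      linear_combination hpe
    have hP₂L : P₂ ∉ N.lattice := by
      intro h
      apply t2
      intro x _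
      obtain ⟨tra1, -⟩ := te_TRA A B hR N hN
      exact tra1 x P₂ h
    obtain ⟨q1, q2, q3⟩ := h3 A B P V hC hT hG (2 * k + 1) N u e lam hN hg P₂ t1 t2
    have h11 := (Pool.Agent.MUXV.tq_YUN V (WL lam) N (xu N u e) (yu N u) ξ G z₁ hz1 hz2).2 P₂
      q1 hP₂L
    obtain ⟨-, h12, h13⟩ := Pool.Agent.MUXV.v_tX_lt G q1 hP₂L
    have h14 : V.valuation (su N u e P₂) = V.valuation (tX (xu N u e) (yu N u) P₂) ^ 2 := by
      unfold su
      rw [map_inv₀]
      exact inv_eq_of_mul_eq_one_right h13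
    rw [hzz, h11]
    have hexl : ex l = 27 * 9 ^ j := by
      unfold ex
      rw [if_neg hl0.ne']
    rw [hexl]
    apply pow_inj (k := 4 * 3 ^ (2 * k + 1)) (by positivity)
    rw [h14, ← pow_mul] at q3
    have e5 : 4 * 3 ^ (2 * k + 1) = 2 * (2 * 3 ^ (2 * k + 1)) := by ring
    rw [e5, q3, ← ht, ← pow_mul, hk]
    congr 1
    have e6 : (9 : ℕ) = 3 ^ 2 := by norm_num
    have e7 : (27 : ℕ) = 3 ^ 3 := by norm_num
    rw [e6, e7, ← pow_mul, ← pow_mul]
    ring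
  refine ⟨?_, ?_⟩
  · intro l hl0 hl heq
    have e1 := key l hl0 hl
    rw [heq, sub_self, map_zero] at e1
    have e2 : V.valuation t = 0 := by
      by_contra hc
      exact pow_ne_zero _ hc e1.symm
    rw [e2, zero_pow (by positivity)] at ht
    exact hv30 ht.symm
  · rw [map_prod]
    have e1 : ∀ l ∈ Finset.Ico 1 (3 ^ (n - 1)),
        V.valuation (xu N u e z₁ - xu N u e (emb (b ^ l) * z₁)) = V.valuation t ^ ex l := by
      intro l hl
      obtain ⟨hl1, hl2⟩ := Finset.mem_Ico.1 hl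
      rw [← key l (by omega) hl2, Valuation.map_sub_swap]
    rw [Finset.prod_congr rfl e1, Finset.prod_pow_eq_pow_sum, ex_sum']

end

end Pool.Agent.NSER


end

section

/-!
# MUX-NS (helper87): existence of `V` above a maximal ideal; existence of `P`, `V` for `3` ramified
-/

set_option autoImplicit false

open NumberField IsDedekindDomain
open scoped nonZeroDivisors Pointwise

namespace Pool.Agent.NSIR

open _root_.MU3 _root_.Pool.Agent.MU3 _root_.Pool.Agent.MU3A _root_.Pool.Agent.MU3B _root_.Pool.Agent.RI _root_.Pool.Agent.RID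
  _root_.Pool.Agent.MUX _root_.Pool.Agent.MUXK _root_.Pool.Agent.MUXE _root_.Pool.Agent.MUXJ _root_.Pool.Agent.NSRD

noncomputable section

/-- every maximal ideal of `O` is `V ∩ O` for a valuation ring `V` of `ℂ` -/
theorem vex_gen (p : ℕ) (A B : ℤ) (h : CQ A B) (P : Ideal (OO A B))
    (hp : ((p : ℕ) : OO A B) ∈ P)
    (hm : P.IsMaximal) : ∃ V : ValuationSubring ℂ, OverI V P ∧ (p : ℂ) ∈ V.nonunits := by
  let φ : OO A B →+* ℂ := RNGaux.eH h
  have hφ : ∀ x, φ x = emb x := RNGaux.eH_apply h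
  have hinj : ∀ x y, φ x = φ y → x = y := by
    intro x y hxy
    rw [hφ, hφ] at hxy
    exact RNGaux.emb_inj h hxy
  let I : Ideal φ.range := P.map φ.rangeRestrict
  have hmem : ∀ y, y ∈ I ↔ ∃ x ∈ P, φ.rangeRestrict x = y := fun y =>
    Ideal.mem_map_iff_of_surjective _ φ.rangeRestrict_surjective
  have hI : I ≠ ⊤ := by
    intro hI
    have h1 : (1 : φ.range) ∈ I := by rw [hI]; trivial
    obtain ⟨x, hx, hx1⟩ := (hmem _).1 h1
    have h2 : φ x = φ 1 := by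
      have := congrArg Subtype.val hx1
      rw [map_one]
      simpa using this
    rw [hinj _ _ h2] at hx
    exact hm.ne_top ((Ideal.eq_top_iff_one P).2 hx)
  obtain ⟨V, hV, hVI⟩ := Ideal.image_subset_nonunits_valuationSubring I hI
  have hle : ∀ x : OO A B, V.valuation (emb x) ≤ 1 := by
    intro x
    rw [← hφ]
    exact (V.valuation_le_one_iff _).2 (hV ⟨x, rfl⟩)
  have hP1 : ∀ x ∈ P, emb x ∈ V.nonunits := by
    intro x hx
    rw [← hφ]
    exact hVI ⟨φ.rangeRestrict x, (hmem _).2 ⟨x, hx, rfl⟩, rfl⟩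
  have hO : OverI V P := by
    intro x
    refine ⟨fun hx => ?_, hP1 x⟩
    by_contra hxP
    obtain ⟨y, i, hi, hy⟩ := hm.exists_inv hxP
    have h1 : emb y * emb x + emb i = 1 := by
      rw [← hφ, ← hφ, ← hφ, ← map_mul, ← map_add, hy, map_one]
    rw [ValuationSubring.mem_nonunits_iff] at hx
    have hi' := hP1 i hi
    rw [ValuationSubring.mem_nonunits_iff] at hi'
    have h2 : V.valuation (emb y * emb x) < 1 := by
      rw [map_mul]
      exact lt_of_le_of_lt (mul_le_of_le_one_left' (hle y)) hx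
    have h3 : V.valuation (emb y * emb x + emb i) < 1 := Valuation.map_add_lt _ h2 hi'
    rw [h1, map_one] at h3
    exact lt_irrefl _ h3
  refine ⟨V, hO, ?_⟩
  have h4 : emb ((p : ℕ) : OO A B) = (p : ℂ) := by
    rw [← hφ, map_natCast]
  rw [← h4]
  exact (hO _).2 hp

/-- the homomorphism `O → ℤ/3` which maps `w` to `-B` -/
def psiR (A B : ℤ) (h : (3 : ℤ) ∣ B ^ 2 + 4 * A) : OO A B →+* ZMod 3 :=
  (QuadraticAlgebra.lift (R := ℤ) (a := A) (b := B) (A := ZMod 3)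
    ⟨((-B : ℤ) : ZMod 3), by
      have h0 : ((3 : ℕ) : ℤ) ∣ B ^ 2 + A := by
        have h1 : B ^ 2 + A = (B ^ 2 + 4 * A) - 3 * A := by ring
        rw [h1]
        exact_mod_cast dvd_sub h (Dvd.intro _ rfl)
      have h1 : ((B ^ 2 + A : ℤ) : ZMod 3) = 0 := (ZMod.intCast_zmod_eq_zero_iff_dvd _ _).2 h0
      have h3 : (3 : ZMod 3) = 0 := by decide
      push_cast at h1
      simp only [zsmul_eq_mul, mul_one]
      push_cast
      linear_combination (-1 : ZMod 3) * h1 + (B : ZMod 3) ^ 2 * h3⟩).toRingHom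

/-- existence of `P` and `V` -/
theorem vexR (A B : ℤ) (h : CaseR A B) : ∃ (P : Ideal (OO A B)) (V : ValuationSubring ℂ),
    IsPN 3 P ∧ OverI V P ∧ (3 : ℂ) ∈ V.nonunits := by
  haveI : Fact (Nat.Prime 3) := ⟨Nat.prime_three⟩
  let ψ := psiR A B h.three
  have hsurj : Function.Surjective ψ := ZMod.ringHom_surjective ψ
  have hmax : (RingHom.ker ψ).IsMaximal := RingHom.ker_isMaximal_of_surjective ψ hsurj
  have hP : IsPN 3 (RingHom.ker ψ) := by
    refine ⟨hmax.isPrime, ?_, ?_⟩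
    · rw [RingHom.mem_ker, map_natCast]
      rfl
    · unfold MUX.nI
      rw [Nat.card_congr (RingHom.quotientKerEquivOfSurjective hsurj).toEquiv, Nat.card_zmod]
  obtain ⟨V, hV, hpV⟩ := vex_gen 3 A B h.toCQ _ hP.mem hmax
  exact ⟨_, V, hP, hV, by exact_mod_cast hpV⟩

/-- the frame of block J -/
theorem aboR {A B : ℤ} {P : Ideal (OO A B)} {V : ValuationSubring ℂ} (h : CaseR A B)
    (hP : IsPN 3 P) (hV : OverI V P) (h3 : (3 : ℂ) ∈ V.nonunits) : AboX 3 2 A B P V :=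
  ⟨h.toCQ, Or.inr rfl, Or.inr rfl, fun h => by omega, hP.prime, hP.mem, fun h => by omega, hV,
    by exact_mod_cast h3⟩

/-- `RF ⊤` is unramified at `V` -/
theorem unhR (hRF : Sq_RFIN) {A B : ℤ} {P : Ideal (OO A B)} {V : ValuationSubring ℂ}
    (h : CaseR A B) (hP : IsPN 3 P) (hV : OverI V P) (hT : TorX A B) : UnrH A B V := by
  intro σ hσ hy
  have e : (idl (A := A) (B := B) 1) = ⊤ := by
    unfold idl
    rw [Nat.cast_one, Ideal.span_singleton_one]
  have h2 := (hRF A B P V h hP hV hT).2 1 one_ne_zero (by norm_num) σ hσ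
  rw [e] at h2
  exact h2 hy

end

end Pool.Agent.NSIR


end
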