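import Mathlib.LinearAlgebra.Lagrange
import Pool.Agent.MVF.C034
import Pool.Agent.MVF.C057

/-! Parts: ME.StE3, ME.E3_CTX, NS.E_TPN, NS.E_PTS, NS.E_LEG, NS.E_ISO, NS.E_GRN, NS.E_CTX, NS.E_ADD, ME.E3_SIG, ME.E3_RP1, ME.E3_PIS, ME.E3_IDL, ME.E3_DEG, ME.E3_BPW, NS.F_PUL, NS.F_PTS -/

namespace Pool.Agent.ME3.CtxRaux
end Pool.Agent.ME3.CtxRaux
namespace Pool.Agent.ME3.DEG
end Pool.Agent.ME3.DEG
namespace Pool.Agent.ME3.IDLaux
end Pool.Agent.ME3.IDLaux
namespace Pool.Agent.ME3.PIS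
end Pool.Agent.ME3.PIS
namespace Pool.Agent.ME3.SIG
end Pool.Agent.ME3.SIG
namespace Pool.Agent.NSE.AddE
end Pool.Agent.NSE.AddE
namespace Pool.Agent.NSE.CtxNaux
end Pool.Agent.NSE.CtxNaux
namespace Pool.Agent.NSE.ISO
end Pool.Agent.NSE.ISO
namespace Pool.Agent.NSE.PTS
end Pool.Agent.NSE.PTS
namespace Pool.Agent.NSE.TPN
end Pool.Agent.NSE.TPN

section

/-!
# ME, block E for `D = -3` (`3 = P²`): cubes and logarithmic derivatives (helper86)

The statements of `Pool/Agent/NS/StER.lean` which see the frame, for the frame of `DefsE.lean`; all levels are even. The other statements of block ER (`Pool.Agent.NSER.Sf_ALG, PRO, PUL, COE, GRN, LEG,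
TW3, PTS, TNC, ADD, UNT, RAT, ISO, THN, NE1, ORB`) are used as they are: they are statements on lattices with `GoodR`. `S3_RFIN` (helper58) is the twin of `Sq_RFIN`, `S3_EFIN` is the result: the weights
are `w x` in the sixth roots of unity, `w x ≡ emb x` modulo `3` (`IsTei6`). No partial sums over the small group are needed.
-/

set_option autoImplicit false

open Polynomial

namespace Pool.Agent.ME3

open _root_.MU3 _root_.Pool.Agent.MU3A _root_.Pool.Agent.MU3B _root_.Pool.Agent.MUX _root_.Pool.Agent.MUXU _root_.Pool.Agent.RI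
open _root_.Pool.Agent.NS _root_.Pool.Agent.NSRD
open _root_.Pool.Agent.ME hiding ActE
open _root_.Pool.Agent.MEE
open _root_.Pool.Agent.MUXE (RingE)
open _root_.Pool.Agent.MUXV (GR InK tX)
open _root_.Pool.Agent.NSE (E3 su ru WL IntP Rep)
open _root_.Pool.Agent.NSER (PtsR Ex)

noncomputable section

/-- (RFIN) the reduction of the normalised lattices at `V | 3`, `D = -3`. -/
def S3_RFIN : Prop :=
  ∀ (A B : ℤ) (P : Ideal (OO A B)) (V : ValuationSubring ℂ), CaseE A B → B = 1 → IsPN 3 P →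
    OverI V P → TorXE A B →
    (∀ (b : Ideal (OO A B)) (L : PeriodPair) (om : ℂ), IsNE b L om →
      ∃ u e lam : ℂ, GoodR V L u e lam ∧ u ^ 2 ∈ RFE (idl (A := A) (B := B) 2) ∧
        e ∈ RFE (idl (A := A) (B := B) 2) ∧ lam ∈ RFE (idl (A := A) (B := B) 2)) ∧
    ∀ f : ℕ, f ≠ 0 → 2 ∣ f → ¬ 3 ∣ f → ∀ σ : ℂ ≃+* ℂ, FixK A B σ →
      (∀ y ∈ RFE (idl (A := A) (B := B) f), y ∈ V → σ y - y ∈ V.nonunits) →
      ∀ y ∈ RFE (idl (A := A) (B := B) f), σ y = y

/-- (EFIN) the result: additive valuation at least `3/2` for cubes, with the weights `w`; `f ≥ 3` (`SetE3` allows also `f = 2`). `S3_EFI2` is the same without the condition on `D`. -/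
def S3_EFIN : Prop :=
  ∀ (A B : ℤ) (P : Ideal (OO A B)) (V : ValuationSubring ℂ) (f : ℕ), SetE3 A B P V f → 3 ≤ f →
    TorXE A B → ∀ (ι : Type) [Fintype ι] (R : RepsE A B (3 * f) ι) (u e lam : ℂ),
    GoodR V (R.L R.i0) u e lam → ∀ w : OO A B → ℂ, IsTei6 P V w → ∀ n : ℕ, 1 ≤ n →
    ∀ (H : ι → Finset ℂ), (∀ i, IsHalf (R.L i) (aX 3 f : ℂ) (H i)) →
    ∀ (D : IntermediateField ℚ ℂ) (h : kk A B ≤ D), (∀ y ∈ D, y ∈ RFE (lvR P f n)) →
    (∀ σ : ℂ ≃+* ℂ, FixK A B σ → (∀ y ∈ RFE (idl (A := A) (B := B) (3 * f)), σ y = y) →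
      (∀ z : ℂ, z ^ 3 ^ (n + 1) = 1 → σ z = z) → ∀ y ∈ D, σ y = y) →
    letI := algC h
    (∀ τ : D ≃ₐ[kk A B] D, ∃ y : D, (y : ℂ) = cXE R (lvX 3 f n) H h 1 ∧
      ((τ y : D) : ℂ) = cXE R (lvX 3 f n) H h τ) →
    ∀ g : (D ≃ₐ[kk A B] D) → ℤ,
      (∃ y ∈ D, y ^ 3 = ∏ᶠ τ : D ≃ₐ[kk A B] D, cXE R (lvX 3 f n) H h τ ^ g τ) →
      ∀ τ' : D ≃ₐ[kk A B] D,
        V.valuation ((∑ᶠ τ : D ≃ₐ[kk A B] D, (g τ : ℂ) *
          TTNE R w (lvX 3 f n) (aX 3 f) h (τ * τ')) / u) ^ 2 ≤ V.valuation (3 : ℂ) ^ 3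

/-- (EFIN), the stronger form: the result: additive valuation at least `3/2` for cubes, with the weights `w`; `f ≥ 3` (`SetE3` allows also `f = 2`). This is `Sq_EFIN_E` with `3 ≤ f`. -/
def S3_EFI2 : Prop :=
  ∀ (A B : ℤ) (P : Ideal (OO A B)) (V : ValuationSubring ℂ) (f : ℕ), SetE3 A B P V f → 3 ≤ f →
    TorXE A B → ∀ (ι : Type) [Fintype ι] (R : RepsE A B (3 * f) ι) (u e lam : ℂ),
    GoodR V (R.L R.i0) u e lam → ∀ w : OO A B → ℂ, IsTei6 P V w → ∀ n : ℕ, 1 ≤ n →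
    ∀ (H : ι → Finset ℂ), (∀ i, IsHalf (R.L i) (aX 3 f : ℂ) (H i)) →
    ∀ (D : IntermediateField ℚ ℂ) (h : kk A B ≤ D), (∀ y ∈ D, y ∈ RFE (lvR P f n)) →
    letI := algC h
    (∀ τ : D ≃ₐ[kk A B] D, ∃ y : D, (y : ℂ) = cXE R (lvX 3 f n) H h 1 ∧
      ((τ y : D) : ℂ) = cXE R (lvX 3 f n) H h τ) →
    ∀ g : (D ≃ₐ[kk A B] D) → ℤ,
      (∃ y ∈ D, y ^ 3 = ∏ᶠ τ : D ≃ₐ[kk A B] D, cXE R (lvX 3 f n) H h τ ^ g τ) →
      ∀ τ' : D ≃ₐ[kk A B] D,
        V.valuation ((∑ᶠ τ : D ≃ₐ[kk A B] D, (g τ : ℂ) *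
          TTNE R w (lvX 3 f n) (aX 3 f) h (τ * τ')) / u) ^ 2 ≤ V.valuation (3 : ℂ) ^ 3

/-- everything on `O`, `k`, `P`, `V` and the reduction which is used -/
structure CtxR3 (A B : ℤ) (P : Ideal (OO A B)) (V : ValuationSubring ℂ) : Prop where
  case : CaseE A B
  ring : RingE A B
  cq : CQ A B
  v3 : V.valuation (3 : ℂ) < 1
  int : ∀ x : OO A B, V.valuation (emb x) ≤ 1
  unit : ∀ x : OO A B, x ∉ P → V.valuation (emb x) = 1
  vP : ∀ x ∈ P, V.valuation (emb x) ^ 2 ≤ V.valuation (3 : ℂ)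
  nat : ∀ n : ℕ, ¬ 3 ∣ n → V.valuation (n : ℂ) = 1
  max : P.IsMaximal
  nP : nI P = 3
  sq : P * P = idl (A := A) (B := B) 3
  nrm : ∀ x : OO A B, x ∉ P → ¬ (3 : ℤ) ∣ nm x
  pm : ∀ x : OO A B, x ∉ P → x - 1 ∈ P ∨ x + 1 ∈ P
  dP : dD A B ∈ P
  vd : V.valuation (emb (dD A B)) ^ 2 = V.valuation (3 : ℂ)
  good : ∀ L, NLE A B L → ∃ u e lam : ℂ, GoodR V L u e lam
  iner : ∀ f : ℕ, f ≠ 0 → 2 ∣ f → ¬ 3 ∣ f → ∀ σ : ℂ ≃+* ℂ, FixK A B σ →
    (∀ y ∈ RFE (idl (A := A) (B := B) f), y ∈ V → σ y - y ∈ V.nonunits) →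
    ∀ y ∈ RFE (idl (A := A) (B := B) f), σ y = y
  exq : ∀ L, NLE A B L → ∃ (N : PeriodPair) (nu : ℂ), NLE A B N ∧ IsQ P L N nu

/-- (CTX) from the standing hypotheses to `CtxR3`.

PROOF. Model: `E_CTX.lean` (`Se_CTX`). `δ = dD A B = 2 w - B`, `δ² = B² + 4A = D`, `3 ∣ D`, `9 ∤ D` (`B = 1`: squarefree; `B = 0`: `D = 4A`, `A` squarefree). `P` prime (`IsPN`), `(3 : O) ∈ P`, so `δ² ∈ P`, `δ ∈ P`. `v 3 < 1` (`OverI`). `v(δ)² = v(D) = v 3 · v(D/3)`, and `v(D/3) = 1` (integers prime to `3`: `nat`).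
`nP`: `IsPN`. `max`: a nonzero prime of a Dedekind domain (`te_RNG`), or `O/P` is a finite domain. `pm`: `O/P` has three elements. `int`, `unit`: as in the inert case (`emb x` is integral over `ℤ`; `OverI`). `sq`: `3 ∈ P * P`: `δ² = D = 3 D'`, `D' = 3 t ± 1`, so `3 = ±(δ² - 9 t)`, `9 = 3 · 3 ∈ P * P`. Conversely `P * P ⊆ (3)`:
norms (`O/(3)` has `9` elements, `O/P²` has `9`), or: `P = (3, δ)` (an element `x = r + s w` of `P`: `2 x = (2 r + s B) + s δ`, so `2 r + s B ∈ P ∩ ℤ = 3 ℤ`, `x = -(x + ..)`: `x ≡ -2 x` modulo `3 P`... precisely `x = 3 x - 2 x`, `3 x ∈ (3)`, `2 x ∈ (3, δ)`), and the products `9, 3 δ, δ²` are in `(3)`. `vP`: `x ∈ P`: `x² ∈ (3)`, `v(x)² ≤ v 3`.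
`nrm`: `nm x = x star x`; `star P = P` (`P = (3, δ)`, `star δ = -δ`); if `3 ∣ nm x` then `x star x ∈ P`, so `x ∈ P`. `good`, `iner`: `S3_RFIN`. `exq`: `TorXE.surj` for `m = ⊤`, `a = P` (coprime to `⊤`): `ActE.isq`. -/
def S3_CTX : Prop :=
  ∀ (A B : ℤ) (P : Ideal (OO A B)) (V : ValuationSubring ℂ), CaseE A B → B = 1 → IsPN 3 P →
    OverI V P → TorXE A B → S3_RFIN → CtxR3 A B P V

/-- (IDL) the ideals `lvR P f n = f P^(2n+1) = 3^n f P`.

PROOF. `P² = (3)` (`sq`), so `P^(2n) = (3^n)`, `P^(2n+1) = 3^n P` (`Ideal.span_singleton_pow`, `Ideal.mem_span_singleton_mul`). If `x P ⊆ (3) = P P` then `x ∈ P` (cancel `P`: `O` is a Dedekind domain; or `x δ ∈ (3)` gives `x δ² ∈ 3 P`... `D x = 3 D' x`, `D' x ∈ P`, `D'` a unit modulo `P`). Prime: `max`. `x ∈ 3^n f P` iff `p x ∈ (3^(n+1) f)` for all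
`p ∈ P`: `→`: `p p' ∈ (3)`; `←`: `3 x ∈ P P x`, precisely with `p = δ`: `δ x = 3^(n+1) f y`, `D x = 3^(n+1) f δ y`, `D' x = 3^n f (δ y)`, and `D' c = 1 + 3 t` with integers, `x = D' c x - 3 t x`, `3 x = 3^(n+1) f y'` (`3 ∈ P`). Natural numbers: `k = 3^n f p` with `p ∈ P`: compare coordinates (`re`, `im`): `p` is an integer in `P`, divisible by `3`. -/
def S3_IDL : Prop :=
  ∀ (A B : ℤ) (P : Ideal (OO A B)) (V : ValuationSubring ℂ), CtxR3 A B P V →
    (3 : OO A B) ∈ P ∧ (∀ x : OO A B, (∀ p ∈ P, p * x ∈ P * P) → x ∈ P) ∧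
    (∀ n : ℕ, P ^ (2 * n) = idl (A := A) (B := B) (3 ^ n)) ∧
    (∀ k : ℕ, (k : OO A B) ∈ P ↔ 3 ∣ k) ∧
    ∀ f n : ℕ, f ≠ 0 →
      (∀ x : OO A B, x ∈ lvR P f n ↔ ∃ p ∈ P, x = ((3 ^ n * f : ℕ) : OO A B) * p) ∧
      (∀ x : OO A B, x ∈ lvR P f n ↔ ∀ p ∈ P, p * x ∈ idl (A := A) (B := B) (3 ^ (n + 1) * f)) ∧
      idl (A := A) (B := B) (3 ^ (n + 1) * f) ≤ lvR P f n ∧
      lvR P f n ≤ idl (A := A) (B := B) (3 ^ n * f) ∧ lvR P f n ≠ ⊥ ∧
      (∀ k : ℕ, (k : OO A B) ∈ lvR P f n ↔ 3 ^ (n + 1) * f ∣ k) ∧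
      (∀ c : OO A B, IsCoprime c ((3 * f : ℕ) : OO A B) → IsCoprime (sp c) (lvR P f n) ∧
        IsCoprime c ((3 ^ (n + 1) * f : ℕ) : OO A B))

/-- (UNR) `RFE (f)` is unramified over `k` at `V` if `f` is prime to `3`.

PROOF. `Pool.Agent.NSR.tr_RAM` (`Sr_RAM`) with `ϖ = dD A B`: `dD ∈ P` (`dP`), `dD ∉ P² = (3)` (`sq`; the coordinate `im` of `dD` is `2`), `OverI V P`: from `unit` and `vP`. `F = RFE (idl f)` (finite, Galois: `TorXE`; `idl f ≠ ⊥`). `σ ∈ Gal(F/k)` in the inertia group: extend it to `s ∈ Aut(ℂ)`, `FixK` (`TorXE.ext` for `F` as a field over `ℚ`; see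
`Pool/Agent/NS/E_UNR.lean`, `te_UNR`); `CtxR3.iner`: `s y = y` for all `y ∈ F`, so `σ = 1`. -/
def S3_UNR : Prop :=
  ∀ (A B : ℤ) (P : Ideal (OO A B)) (V : ValuationSubring ℂ), CtxR3 A B P V → TorXE A B →
    ∀ f : ℕ, f ≠ 0 → 2 ∣ f → ¬ 3 ∣ f → ∀ y ∈ RFE (idl (A := A) (B := B) f), y ≠ 0 →
      ∃ k : ℤ, V.valuation y = V.valuation (emb (dD A B)) ^ k

/-- (DEG) the degree of `RFE (f P^(2n+1))` over `RFE (f)`.

Uses S3_IDL. PROOF. As `E_DEG.lean` (`te_DEG`). `σ ∈ Gal(RFE (lvR P f n)/k)` trivial on `RFE (f)` acts as some `α` with `α - 1 ∈ (f)` (`GalEE.ker`), `α ∉ P`; `σ` is determined by the class of `α` modulo `P^(2n+1)` (if `α ≡ α'` modulo `P^(2n+1)` and modulo `(f)`, then modulo `lvR P f n = (f) P^(2n+1)`, as `(f)` and `P` are coprime; `Pool.Agent.MEE.tm_FAC`). The number of classes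
modulo `P^(2n+1)` of elements outside `P` is `3^(2n+1) - 3^(2n) = 2 · 9^n`: `O/P^(2n+1)` has `3^(2n+1)` elements (`nP`; `Ideal.absNorm` or `Submodule.cardQuot` is multiplicative) and is mapped onto `O/P` with `3` elements, all fibres have the same number `9^n`. (Or: `x = r + s w`; `P = {x : 3 ∣ 2 r + s B}`; `3^n P` has the representatives
`r, s` modulo `3^n` times ...) -/
def S3_DEG : Prop :=
  ∀ (A B : ℤ) (P : Ideal (OO A B)) (V : ValuationSubring ℂ), CtxR3 A B P V → GalEE A B →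
    ∀ (n f : ℕ), f ≠ 0 → 2 ∣ f → ¬ 3 ∣ f →
      Module.finrank (kk A B) (RFE (lvR P f n)) ≤
        (2 * 9 ^ n) * Module.finrank (kk A B) (RFE (idl (A := A) (B := B) f))

/-- (RP1) the coordinates of the points of `E[P]` are in `RFE (2)`.

Uses Sf_LEG, S3_IDL. PROOF. `u² = xnE w₂ - xnE w₁`, `e = xnE w₁ + 1/12` with `w₁, w₂` of order two (LEG; see `ONE.usq` in `E_ONE.lean`). `M = RFE (idl 2 * P) ≥ M₀ = RFE (idl 2)`, finite and Galois over `k` (`GalEE`), `xnE L z ∈ M` (`Pool.Agent.MEE.tm_FAC` (2); `Tor P` implies `Tor (idl 2 * P)`). Let `σ ∈ Gal(M/k)` be trivial on `M₀`: `GalEE.ker` (`m = idl 2 * P ≤ m' = idl 2`):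
`ActEE (em σ) m α`, `α` prime to `P`, so `α ≡ ± 1` modulo `P` (`pm`), `emb α z ≡ ± z` modulo `L` and `σ (xnE L z) = xnE L (emb α z) = xnE L z`. So `xnE L z` is fixed by all `σ ∈ Gal(M/k)` which are trivial on `M₀`: it is in `M₀` (Galois theory: `M₀` as an intermediate field of `M/k` is the fixed field of its fixing subgroup). -/
def S3_RP1 : Prop :=
  ∀ (A B : ℤ) (P : Ideal (OO A B)) (V : ValuationSubring ℂ), CtxR3 A B P V → GalEE A B →
    ∀ (L : PeriodPair) (u e lam : ℂ), NLE A B L → GoodR V L u e lam →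
      u ^ 2 ∈ RFE (idl (A := A) (B := B) 2) ∧ e ∈ RFE (idl (A := A) (B := B) 2) ∧
      ∀ z, Tor P L z → z ∉ L.lattice → xnE L z ∈ RFE (idl (A := A) (B := B) 2) ∧
        xu L u e z ∈ RFE (idl (A := A) (B := B) 2)

/-- (RPV) the values of the points of `E[P]`.

Uses Sf_COE, Sf_TW3, S3_UNR, S3_RP1. PROOF. `3 ∈ P` so `z ∈ E3 L`. TW3: `v(s) < 1`, `lam² s⁴ = 3 - 4 (1 + lam) s + 6 lam s²`. `ρ = v(dD)`, `ρ² = v 3`, `ρ < 1`. `x ∈ RFE (2)` (RP1), so `v(s) = ρ^k` (UNR with `f = 2`), `k ≥ 1`. If `k ≥ 2`: `v(4 (1 + lam) s) ≤ ρ ρ^k < ρ²` (`v(1 + lam)² ≤ v 3`, so `v(1 + lam) ≤ ρ`), `v(6 lam s²) ≤ ρ² ρ^(2k) < ρ²`, so the right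
side has valuation `ρ²` and the left side `ρ^(4k)`, `4 k = 2`: impossible. So `k = 1`. -/
def S3_RPV : Prop :=
  ∀ (A B : ℤ) (P : Ideal (OO A B)) (V : ValuationSubring ℂ), CtxR3 A B P V → TorXE A B →
    GalEE A B → ∀ (L : PeriodPair) (u e lam : ℂ), NLE A B L → GoodR V L u e lam →
      ∀ z, Tor P L z → z ∉ L.lattice → InK V L (xu L u e) z ∧ xu L u e z ≠ 0 ∧
        V.valuation (su L u e z) ^ 2 = V.valuation (3 : ℂ)

/-- (PIS) the multiplier of `L → ν P⁻¹ L`.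

Uses Sf_GRN, Sf_TNC, S3_RPV, Su_BAC, Su_PFI. PROOF. `μ = ν`: `Isg L N ν`, and `ν z ∈ N` iff `Tor P L z` (`IsQ`). `R` representatives of the nonzero classes of `E[P]/L` (BAC, `IsRpM`). `|R| = 2`: by `Pool.Agent.MEE.tm_TRB` (2) (`P` maximal) and `pm`, with `q ∈ R` every point of `E[P]` is `≡ 0, q, -q`, and `q ≢ -q`. Choose two different primes `l, l' > 3` with
`w = ω₁/l`, `z = ω₁/l'` (`ω₁` a period of `L`): `w, z, z ± w ∉ InK V L` (TNC), `w + q ∉ InK` (`q ∈ InK` by RPV, so `w` would be in `InK`), `z ± (w + q)` the same; `ν w, ν z, ν (z ± w) ∉ N` (they are killed by `l l'`, and `3` kills `E[P]/L`), not in `InK V N`. (PFI) in the coordinates (`℘ = u² x + e`):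
`(ν u'/u)² (x'(ν z) - x'(ν w)) ∏_(q ∈ R) (x z - x q) = (x z - x w) ∏_(q ∈ R) (x z - x(w + q))`; the differences `x' - x'`, `x z - x w`, `x z - x(w + q)` are units (`MUXV.v_X_sub`), and `v(x z - x q) = v(x q) > 1 ≥ v(x z)`, `v(x q)² v 3 = 1` (RPV). So `v(ν u'/u)² v(x q) v(x q') = 1`, `v(ν u'/u)² = v 3`. -/
def S3_PIS : Prop :=
  ∀ (A B : ℤ) (P : Ideal (OO A B)) (V : ValuationSubring ℂ), CtxR3 A B P V → TorXE A B →
    GalEE A B → ∀ (L N : PeriodPair) (nu u e lam u' e' lam' : ℂ), NLE A B L → NLE A B N →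
      IsQ P L N nu → GoodR V L u e lam → GoodR V N u' e' lam' →
      V.valuation (nu * u' / u) ^ 2 = V.valuation (3 : ℂ)

/-- (TPR) the values of the points of exact order `P^(j+1)`.

Uses Sf_COE, Sf_GRN, Sf_TNC, S3_RPV, S3_PIS, Su_BAC, Su_PFI. PROOF. Induction on `j`, for all lattices; `j = 0` is (RPV) (`Tor (P^0) L z` iff `z ∈ L`). Step: `Tor (P^(j+2)) L z`, not `Tor (P^(j+1)) L z`. `N`, `ν` (`exq`), `u', e', lam'` (`good`), `z' = ν z`: `Tor (P^(j+1)) N z'`, not `Tor (P^j) N z'` (`IsQ`), so by induction `v(x' z') = Y > 1`,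
`Y^(2·3^j) v 3 = 1`. `R` as in (PIS), `|R| = 2`, `v(x q) = T`, `T² v 3 = 1`, `T > 1`, `Y ≤ T` (`Y^(2·3^j) = T²`). `w = ω₁/5`: `w, w + q ∉ InK V L`, `ν w ∉ InK V N`. (PFI): `(ν u'/u)² (x'(z') - x'(ν w)) ∏ (x z - x q) = (x z - x w) ∏ (x z - x(w + q))`, `v(ν u'/u)² = v 3` (PIS). If `x z ∈ V`: the left side has valuation `v(3) Y T² = Y > 1`, the right side
`≤ 1`. So `X = v(x z) > 1`, the right side has valuation `X³`. If `X > T`: `v(3) Y X² = X³`, `X = v(3) Y < Y ≤ T`. If `X = T`: `T³ ≤ v(3) Y T² = Y ≤ T`, but `T³ > T`. So `X < T`, `X³ = v(3) Y T² = Y`. (`x z ≠ 0`, `su = 1/x`.) -/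
def S3_TPR : Prop :=
  ∀ (A B : ℤ) (P : Ideal (OO A B)) (V : ValuationSubring ℂ), CtxR3 A B P V → TorXE A B →
    GalEE A B → ∀ (j : ℕ) (L : PeriodPair) (u e lam : ℂ), NLE A B L → GoodR V L u e lam →
      ∀ z, Tor (P ^ (j + 1)) L z → ¬ Tor (P ^ j) L z → InK V L (xu L u e) z ∧
        xu L u e z ≠ 0 ∧ V.valuation (su L u e z) ^ (2 * 3 ^ j) = V.valuation (3 : ℂ)

/-- (EXO) exact orders of the points of level `m = 3^(n+1) f`.

Uses S3_IDL. PROOF. `Pool.Agent.MEE.tm_PT Pool.Agent.MEE.tm_TRA`: `ptE R m i x = μ_i (emb x (om_0/m))`. `emb c * pt = μ_i (emb (c x) (om_0/m))`; by part (3) of PT with `r = m` it is in `L_i` iff `emb (c x) (om_0/m) ∈ L_0` iff `m ∣ c x` iff `m ∣ c` (`x` prime to `m`). On `N`: `emb c (ν z) ∈ N` iff `emb p (emb c z) ∈ L` for all `p ∈ P` (`IsQ`) iff `p c ∈ (m)` for all `p ∈ P` iff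
`c ∈ lvR P f n` (IDL). Third part: `q ∈ E[P] ∖ L` and `3^(n+1) f (z + l q) ∈ L`; `c (z + l q) ∈ L` implies `3 c z ∈ L`, `3^(n+1) f ∣ 3 c`. Last part: `N_i = ν_i P⁻¹ L_i`, `ν_i pt = (μ_i emb x ν_i/ν_0) (ν_0 om_0/m)`. -/
def S3_EXO : Prop :=
  ∀ (A B : ℤ) (P : Ideal (OO A B)) (V : ValuationSubring ℂ), CtxR3 A B P V →
    ∀ (n f : ℕ) (ι : Type) (R : RepsE A B (3 * f) ι), f ≠ 0 → ∀ (i : ι) (x : OO A B),
    IsCoprime x ((3 ^ (n + 1) * f : ℕ) : OO A B) →
      Ex (idl (A := A) (B := B) (3 ^ (n + 1) * f)) (R.L i) (ptE R (3 ^ (n + 1) * f) i x) ∧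
      (∀ (N : PeriodPair) (nu : ℂ), IsQ P (R.L i) N nu →
        Ex (lvR P f n) N (nu * ptE R (3 ^ (n + 1) * f) i x)) ∧
      (∀ q : ℂ, Tor P (R.L i) q → ∀ l : ℕ,
        ((3 ^ (n + 1) * f : ℕ) : ℂ) * (ptE R (3 ^ (n + 1) * f) i x + l * q) ∈ (R.L i).lattice ∧
        ∀ c : ℕ, (c : ℂ) * (ptE R (3 ^ (n + 1) * f) i x + l * q) ∈ (R.L i).lattice → f ∣ c) ∧
      ∀ nu nu0 : ℂ, nu0 ≠ 0 → nu * ptE R (3 ^ (n + 1) * f) i x =
        (muXE R i * emb x * nu / nu0) * (nu0 * (R.om R.i0 / (3 ^ (n + 1) * f : ℕ)))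

/-- (MUL) the isogenies `μ_i x : L_(i0) → L_i` and `μ_i x ν/ν_0 : N_0 → N` have degree prime to `3`.

PROOF. First part: as `te_MUL` (`E_MUL.lean`). Second: `z ∈ N_0`, `w = z/ν_0`: `emb p w ∈ L_0` for all `p ∈ P` (`IsQ`), so `emb p (μ w) ∈ L_i` (`μ = μ_i emb x`), `ν (μ w) ∈ N`. Kernel: `ν μ w ∈ N`: `μ (emb p w) ∈ L_i` for all `p`, `n (emb p w) ∈ L_0`, `ν_0 (n w) ∈ N_0`. -/
def S3_MUL : Prop :=
  ∀ (A B : ℤ) (P : Ideal (OO A B)) (V : ValuationSubring ℂ), CtxR3 A B P V →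
    ∀ (n : ℕ) (ι : Type) (R : RepsE A B n ι),
    n ≠ 0 → 3 ∣ n → ∀ (i : ι) (x : OO A B), x ∉ P →
      (muXE R i * emb x ≠ 0 ∧ Isg (R.L R.i0) (R.L i) (muXE R i * emb x) ∧
      ∃ N : ℕ, ¬ 3 ∣ N ∧ ∀ z, muXE R i * emb x * z ∈ (R.L i).lattice →
        (N : ℂ) * z ∈ (R.L R.i0).lattice) ∧
      ∀ (N0 N : PeriodPair) (nu0 nu : ℂ), IsQ P (R.L R.i0) N0 nu0 → IsQ P (R.L i) N nu →
        muXE R i * emb x * nu / nu0 ≠ 0 ∧ Isg N0 N (muXE R i * emb x * nu / nu0) ∧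
        ∃ m : ℕ, ¬ 3 ∣ m ∧ ∀ z, muXE R i * emb x * nu / nu0 * z ∈ N.lattice →
          (m : ℂ) * z ∈ N0.lattice

/-- (UNI) a uniformiser of `RFE (f a P^(2n+1))` over `RFE (f a)`.

Uses Sf_GRN, Sf_LEG, Sf_TNC, S3_TPR, S3_UNR, S3_DEG, S3_RP1, S3_IDL, `Pool.Agent.NSE.te_BAS`. PROOF. As `E_SIG.lean`, first half. Integers `α 3^(n+1) + β f = 1`; `P₀ = α 3^(n+1) z₁`, `P₁ = β f z₁`, `z₁ = P₀ + P₁`. `f P₀ ∈ N` (`3^(n+1) f ∈ lvR`), `2 P₀ ∉ N` (otherwise `3^(n+1) f ∣ 2 α 3^(n+1)` (IDL), `f ∣ 2`, `f` is prime to `α`), so `P₀, 2 P₀ ∉ InK` (TNC).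
`Tor (P^(2n+1)) N P₁`, not `Tor (P^(2n)) N P₁` (`P^(2n) = (3^n)`; `3^n β f ∉ lvR P f n` because `3 ∤ β f`): `v(s P₁)^(2·9^n) = v 3` (TPR with `j = 2n`). `z₁ ∉ InK`. `π = x(z₁) - x(P₀)`: `v π = v(t P₁)` (`Pool.Agent.MUXV.tq_YUN`, see `E_SIG.lean`), `v(t P₁)² = v(s P₁)`, so `(v(π)^(2·9^n))² = v 3 = v(dD)²`. `xu = (xnE + 1/12 - e)/u²`. (BAS) with `p = emb (dD A B)`,
`N = 2·9^n` (DEG and UNR for `f a`; `RFE (idl (f a)) ≤ RFE (lvR P (f a) n)`). -/
def S3_UNI : Prop :=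
  ∀ (A B : ℤ) (P : Ideal (OO A B)) (V : ValuationSubring ℂ), CtxR3 A B P V → TorXE A B →
    GalEE A B → ∀ (N : PeriodPair) (u e lam : ℂ), NLE A B N → GoodR V N u e lam →
    ∀ n f a : ℕ, 3 ≤ f → 2 ∣ f → ¬ 3 ∣ f → a ≠ 0 → ¬ 3 ∣ a → ∀ z₁ : ℂ, Ex (lvR P f n) N z₁ →
    ∃ (P₀ : ℂ) (k : ℤ), P₀ = k * z₁ ∧ (f : ℂ) * P₀ ∈ N.lattice ∧ P₀ ∉ N.lattice ∧
      2 * P₀ ∉ N.lattice ∧ z₁ - P₀ ∉ N.lattice ∧ z₁ + P₀ ∉ N.lattice ∧
      ¬ InK V N (xu N u e) P₀ ∧ ¬ InK V N (xu N u e) (2 * P₀) ∧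
      ¬ InK V N (xu N u e) z₁ ∧ ¬ InK V N (xu N u e) (2 * z₁) ∧
      xu N u e P₀ ∈ RFE (idl (A := A) (B := B) (f * a)) ∧
      xu N u e z₁ - xu N u e P₀ ∈ RFE (lvR P (f * a) n) ∧
      V.valuation (xu N u e z₁ - xu N u e P₀) ^ (2 * 9 ^ n) = V.valuation (emb (dD A B)) ∧
      ∀ w ∈ RFE (lvR P (f * a) n), V.valuation w ≤ 1 →
        ∃ c : Fin (2 * 9 ^ n) → RFE (idl (A := A) (B := B) (f * a)),
          (∀ i, V.valuation (c i : ℂ) ≤ 1) ∧
          w = ∑ i, (c i : ℂ) * (xu N u e z₁ - xu N u e P₀) ^ (i : ℕ)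

/-- (SIG) `Y ↦ σ_Y(w)` for `w` in the ray class field, `σ_Y(z₁) = z₁ + Y`.

Uses Sf_ALG, Sf_PRO, Sf_LEG, Sf_PTS, Sf_ADD, S3_UNI, S3_RP1, S3_IDL. PROOF. As `E_SIG.lean`, second half. (UNI): `w = Σ c_i π^i`, `F Y = Σ c_i (x(z₁ + Y) - x(P₀))^i`: a polynomial over `V` in `x(z₁ + Y)` (`v(x P₀) ≤ 1`), represented by `(w, β)` (ADD, PRO (1)). `σ` acts trivially on `RFE (f a)` (`Pool.Agent.MEE.tm_FAC`; `c - 1 ∈ (f a)`), so on `c_i`, `e`, `u²`, `x(P₀)`, and
`σ(xnE z₁) = xnE (emb c z₁) = xnE (z₁ + emb (c - 1) z₁)` (`Tor` for `idl (3^(n+1) f a)`; all in `RFE (idl (3^(n+1) * f * a))` by `Pool.Agent.MEE.tm_FAC` (1), (2)). -/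
def S3_SIG : Prop :=
  ∀ (A B : ℤ) (P : Ideal (OO A B)) (V : ValuationSubring ℂ), CtxR3 A B P V → TorXE A B →
    GalEE A B → ∀ (N : PeriodPair) (u e lam : ℂ), NLE A B N → GoodR V N u e lam →
    ∀ n f a : ℕ, 3 ≤ f → 2 ∣ f → ¬ 3 ∣ f → a ≠ 0 → ¬ 3 ∣ a → ∀ z₁ : ℂ, Ex (lvR P f n) N z₁ →
    ∀ w ∈ RFE (lvR P (f * a) n), V.valuation w ≤ 1 →
    ∃ (F : ℂ → ℂ) (β : ℂ), V.valuation β ≤ 1 ∧ _root_.Pool.Agent.NSE.Rep V (E3 N) (su N u e) (ru N u e) F w β ∧
      ∀ (c : OO A B), c - 1 ∈ idl (A := A) (B := B) (f * a) →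
      ∀ (σ : RFE (idl (A := A) (B := B) (3 ^ (n + 1) * f * a)) ≃ₐ[kk A B]
        RFE (idl (A := A) (B := B) (3 ^ (n + 1) * f * a))),
      ActEE (_root_.Pool.Agent.MU3A.em σ) (idl (A := A) (B := B) (3 ^ (n + 1) * f * a)) c →
      ∀ hw : w ∈ RFE (idl (A := A) (B := B) (3 ^ (n + 1) * f * a)),
        (σ ⟨w, hw⟩ : ℂ) = F (emb (c - 1) * z₁)

/-- (DIS) the distribution relation for `L → N = ν P⁻¹ L`.

Uses Su_BAC, Su_PFI. PROOF. `R = {q, -q}` are representatives of the nonzero classes of `{z : ν z ∈ N} = E[P]` modulo `L` (`Pool.Agent.MEE.tm_TRB` (2), `pm`; `2 q ∉ L` as `3 q ∈ L`). (PFI) with `w = h ∈ H` (`ν h ∉ N`: otherwise `3 h ∈ L`, `a h ∈ L`, `h ∈ L`): `ν² (℘_N(ν z) - ℘_N(ν h)) (℘ z - ℘ q)² = (℘ z - ℘ h)(℘ z - ℘(h + q))(℘ z - ℘(h - q))`. Identity (*)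
`(℘(z + q) - ℘ h)(℘(z - q) - ℘ h)(℘ z - ℘ q)² = (℘ z - ℘(h + q))(℘ z - ℘(h - q))(℘ h - ℘ q)²`: by `b_ADD` (for `q` and `-q`) `S = ℘(z+q) + ℘(z-q)`, `Π = ℘(z+q) ℘(z-q)` satisfy `S (X - Q)² = (X + Q)(2 X Q - g₂/2) - g₃`, `Π (X - Q)² = (X Q + g₂/4)² + g₃ (X + Q)` (`X = ℘ z`, `Q = ℘ q`), and both sides of (*) are the same symmetric polynomial
`X²Y² + Y²Q² + X²Q² - 2 X Y Q (X + Y + Q) + (g₂/2)(X Y + Y Q + X Q) + g₃ (X + Y + Q) + g₂²/16`, `Y = ℘ h`. Multiply over `h ∈ H`: `∏_l Θ(z + l q) = ν^(2|H|) ∏_h (℘ h - ℘ q)² ∏_h (℘_N(ν z) - ℘_N(ν h))` (`l q`, `l = 0, 1, 2`, is `0, q, -q` modulo `L`), and `ν H` is a half system of `N` for `a` (`3 ∤ a`), so the last product is `Θ_N(ν z)`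
(`b_TIN`). `C ≠ 0` (`b_NEQ`). Derivatives: both sides have logarithmic derivatives (`b_TDL`, `dlX`, `‖a‖² = a²`), the relation holds on an open set. -/
def S3_DIS : Prop :=
  ∀ (A B : ℤ) (P : Ideal (OO A B)) (V : ValuationSubring ℂ), CtxR3 A B P V →
    ∀ (L N : PeriodPair) (nu : ℂ), NLE A B L → NLE A B N → IsQ P L N nu →
    ∀ (a : ℕ) (H H' : Finset ℂ), a ≠ 0 → ¬ 3 ∣ a → IsHalf L (a : ℂ) H → IsHalf N (a : ℂ) H' →
    ∀ q : ℂ, Tor P L q → q ∉ L.lattice → ∃ C : ℂ, C ≠ 0 ∧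
      ∀ z : ℂ, (a : ℂ) * (nu * z) ∉ N.lattice →
        (∏ l ∈ Finset.range 3, ThetaH L H (z + l * q)) = C * ThetaH N H' (nu * z) ∧
        (∑ l ∈ Finset.range 3, dlX L a (z + l * q)) = nu * dlX N a (nu * z)

/-- (INN) integrality, and the sums over `E[P]`.

Uses Sf_THN, Sf_NE1, S3_EXO, S3_MUL, S3_PIS, S3_DIS, `Pool.Agent.MUX` (HAL: half systems exist for odd `a`). PROOF. `m = 3^(n+1) f`, `z = ptE R m i x`, `z' = z + l q`: `m z' ∈ L_i`, `c z' ∈ L_i` implies `f ∣ c` (EXO), so (NE1) and (THN) (`μ = μ_i emb x : L_0 → L_i`, `v(emb x) = 1`) apply to `z'`: the first two claims (`3 ∣ |H|`: `ONE.card3` in `E_ONE.lean`; `a ≡ 1` or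
`2` modulo 3). Third: `N_i = ν_i P⁻¹ L_i`, `N_0 = ν_0 P⁻¹ L_0` (`exq`, `good`), `H'` a half system for `a` on `N_i` (`b_HAL`; `a` odd); `ν_i z` has the exact order `lvR P f n` on `N_i` (EXO), so `m ν_i z ∈ N_i`, `c ν_i z ∈ N_i` implies `f ∣ c` (IDL), (NE1), (THN) for `μ' = μ_i emb x ν_i/ν_0 : N_0 → N_i`: `v(μ' dl_(N_i)(ν_i z)/u_(N_0)) ≤ 1`, and by (DIS)
`μ_i emb x Σ_l dl_(L_i)(z + l q)/u = (μ' dl_(N_i)(ν_i z)/u_(N_0)) (ν_0 u_(N_0)/u)`, `v(ν_0 u_(N_0)/u)² = v 3` (PIS). -/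
def S3_INN : Prop :=
  ∀ (A B : ℤ) (P : Ideal (OO A B)) (V : ValuationSubring ℂ), CtxR3 A B P V → TorXE A B →
    GalEE A B → ∀ (n f a : ℕ), 3 ≤ f → 2 ∣ f → ¬ 3 ∣ f → 3 ≤ a → Odd a → ¬ 3 ∣ a → a.Coprime f →
    ∀ (ι : Type) (R : RepsE A B (3 * f) ι) (u e lam : ℂ), GoodR V (R.L R.i0) u e lam →
    ∀ (H : ι → Finset ℂ), (∀ i, IsHalf (R.L i) (a : ℂ) (H i)) →
    ∀ (i : ι) (x : OO A B), IsCoprime x ((3 ^ (n + 1) * f : ℕ) : OO A B) →
    ∀ q : ℂ, Tor P (R.L i) q →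
      (∀ l : ℕ, (∃ k : ℤ, V.valuation (ThetaH (R.L i) (H i) (ptE R (3 ^ (n + 1) * f) i x + l * q)) =
          V.valuation (emb (dD A B)) ^ (3 * k)) ∧
        V.valuation (muXE R i * dlX (R.L i) a (ptE R (3 ^ (n + 1) * f) i x + l * q) / u) ≤ 1) ∧
      (q ∉ (R.L i).lattice → V.valuation (muXE R i * (∑ l ∈ Finset.range 3,
        dlX (R.L i) a (ptE R (3 ^ (n + 1) * f) i x + l * q)) / u) ^ 2 ≤ V.valuation (3 : ℂ))

/-- (ONE) Lemma E for products over finite families of points.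

Uses Sf_ALG, Sf_PRO, Sf_PTS, Sf_THN, S3_SIG, Sf_NE1, S3_MUL, S3_EXO, S3_IDL, S3_DIS, S3_PIS, S3_INN. PROOF. As `E_ONE.lean`. `m = 3^(n+1) f`. `N_i, ν_i` (`exq`), models `u_i', e_i', lam_i'` (`good`), half systems `H_i'` of `N_i` (`a` odd, `b_HAL`); `N_0, ν_0` for `i0`, `z₁ = ν_0 om_0/m = ν_0 ptE R m i0 1`, exact order `lvR P f n` (EXO). `W = ∏_j (∏_k ∏_l Θ)^(g_j) = y³`;
`v(W) = ρ^(3K)`, `ρ = v(dD)` (INN), so `w = y/emb(dD)^K ∈ RFE (lvR P f n) ≤ RFE (lvR P (f a) n)`, `v w = 1`. (SIG) for `N_0`, `z₁`, `w`: `F`, `β`. Let `c - 1 ∈ lvR P (f a) (n - 1)`; `c` is prime to `3^(n+1) f a` (`n ≥ 1`), `c - 1 ∈ P`, `σ` with `ActEE (em σ) (idl (3^(n+1) f a)) c`. (`Pool.Agent.MEE.tm_GTH`) `σ(Θ(z + l q)) = Θ(c z + l c q) = Θ(c z + l q)` (`c q ≡ q`), so by (DIS)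
`σ(∏_l Θ(z + l q)) = C Θ_(N_i)(ν_i c z)`, `ν_i c z = ν_i z + μ' Y`, `Y = emb (c - 1) z₁`, `μ' = μ_i emb x ν_i/ν_0` (EXO), `∏_l Θ(z + l q) = C Θ_(N_i)(ν_i z)` with the same `C` (DIS for the chosen `q`), and `σ(emb dD) = emb dD`. So `∏_j (∏_k Θ_(N_i)(ν_i z + μ' Y)/Θ_(N_i)(ν_i z))^(g_j) = (F(Y)/w)³` for `Y = emb (c - 1) z₁`. Every `Y ∈ E3 N_0` is congruent
modulo `N_0` to such a point: `Y = ν_0 om_0 t`, `3 p t ∈ emb O` for `p ∈ P` (`IsQ`, `b0`); `m t = f 3^n (3 t)`, `3 t P ⊆ O`, so `3 (3 t) ∈ emb P` (`3 ∈ P P`) and `m t = 3^(n-1) f p'`, `p' ∈ P`; with `a a' ≡ 1` modulo 3: `c = 1 + 3^(n-1) f a a' p'`, `(a a' - 1) 3^(n-1) f p' ∈ lvR P f n`. (THN) for `μ' : N_0 → N_i` (MUL, NE1): represented by `(1, μ' dl_(N_i)(ν_i z)/u_0')`. (PRO (2), (3)):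
`v(S') ≤ v 3`, `S' = Σ g_j Σ_k μ' dl_(N_i)(ν_i z)/u_0' = (Σ g_j Σ_k emb x μ_i Σ_l dl_(L_i)(z + l q)/u) (u/(ν_0 u_0'))` (DIS), `v(ν_0 u_0'/u)² = v 3` (PIS): `v(Σ)² ≤ v(3)² v 3`. -/
def S3_ONE : Prop :=
  ∀ (A B : ℤ) (P : Ideal (OO A B)) (V : ValuationSubring ℂ), CtxR3 A B P V → TorXE A B →
    GalEE A B →
    ∀ (n f a : ℕ), 1 ≤ n → 3 ≤ f → 2 ∣ f → ¬ 3 ∣ f → 3 ≤ a → Odd a → ¬ 3 ∣ a → a.Coprime f →
    ∀ (ι : Type) (R : RepsE A B (3 * f) ι) (u e lam : ℂ), GoodR V (R.L R.i0) u e lam →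
    ∀ (H : ι → Finset ℂ), (∀ i, IsHalf (R.L i) (a : ℂ) (H i)) →
    ∀ (J κ : Type) [Fintype J] (X : J → Finset κ) (g : J → ℤ) (i : κ → ι) (x : κ → OO A B)
      (q : κ → ℂ),
      (∀ j, ∀ k ∈ X j, IsCoprime (x k) ((3 ^ (n + 1) * f : ℕ) : OO A B) ∧
        Tor P (R.L (i k)) (q k) ∧ q k ∉ (R.L (i k)).lattice) →
      (∃ y ∈ RFE (lvR P f n), y ^ 3 =
        ∏ j, (∏ k ∈ X j, ∏ l ∈ Finset.range 3, ThetaH (R.L (i k)) (H (i k))
          (ptE R (3 ^ (n + 1) * f) (i k) (x k) + l * q k)) ^ g j) →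
      V.valuation ((∑ j, (g j : ℂ) * ∑ k ∈ X j, emb (x k) * muXE R (i k) *
        ∑ l ∈ Finset.range 3, dlX (R.L (i k)) a
          (ptE R (3 ^ (n + 1) * f) (i k) (x k) + l * q k)) / u) ^ 2 ≤ V.valuation (3 : ℂ) ^ 3

/-- (MAIN) Lemma E for a conjugate family.

Uses S3_ONE. PROOF. As `E_MAIN.lean` or `Pool/Agent/MUX/E_MAIN0.lean` (`Sxe_MAIN0`): apply `τ'` to `y^3 = ∏ C τ ^ g τ`: `(τ' y)³ = ∏ C(τ τ')^(g τ)` (`hC`, `Gal(D/k)` is commutative: `TorXE.comm`, `D ≤ RFE (lvR P f n)`), then (ONE) with `J = Gal(D/k)`, `X τ = S (τ τ')`. `lvX 3 f n = f * 3 * 3^n = 3^(n+1) * f`, `aX 3 f = 1 + 6 f` is odd, prime to `3` and `f`. -/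
def S3_MAIN : Prop :=
  ∀ (A B : ℤ) (P : Ideal (OO A B)) (V : ValuationSubring ℂ), CtxR3 A B P V → TorXE A B →
    GalEE A B →
    ∀ (n f : ℕ), 1 ≤ n → 3 ≤ f → 2 ∣ f → ¬ 3 ∣ f →
    ∀ (ι : Type) (R : RepsE A B (3 * f) ι) (u e lam : ℂ), GoodR V (R.L R.i0) u e lam →
    ∀ (H : ι → Finset ℂ), (∀ i, IsHalf (R.L i) (aX 3 f : ℂ) (H i)) →
    ∀ (D : IntermediateField ℚ ℂ) (h : kk A B ≤ D), (∀ y ∈ D, y ∈ RFE (lvR P f n)) →
    letI := algC h
    ∀ (C : (D ≃ₐ[kk A B] D) → ℂ) (κ : Type) (S : (D ≃ₐ[kk A B] D) → Finset κ) (i : κ → ι)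
      (x : κ → OO A B) (q : κ → ℂ),
    (∀ τ : D ≃ₐ[kk A B] D, ∃ y : D, (y : ℂ) = C 1 ∧ ((τ y : D) : ℂ) = C τ) →
    (∀ τ, ∀ k ∈ S τ, IsCoprime (x k) ((lvX 3 f n : ℕ) : OO A B) ∧
        Tor P (R.L (i k)) (q k) ∧ q k ∉ (R.L (i k)).lattice) →
    (∀ τ, C τ = ∏ k ∈ S τ, ∏ l ∈ Finset.range 3, ThetaH (R.L (i k)) (H (i k))
      (ptE R (lvX 3 f n) (i k) (x k) + l * q k)) →
    ∀ g : (D ≃ₐ[kk A B] D) → ℤ,
      (∃ y ∈ D, y ^ 3 = ∏ᶠ τ : D ≃ₐ[kk A B] D, C τ ^ g τ) →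
      ∀ τ' : D ≃ₐ[kk A B] D,
        V.valuation ((∑ᶠ τ : D ≃ₐ[kk A B] D, (g τ : ℂ) * ∑ k ∈ S (τ * τ'),
          emb (x k) * muXE R (i k) * ∑ l ∈ Finset.range 3, dlX (R.L (i k)) (aX 3 f)
            (ptE R (lvX 3 f n) (i k) (x k) + l * q k)) / u) ^ 2 ≤ V.valuation (3 : ℂ) ^ 3

/-- (BPW) the powers of `b`, where `b c̄ ≡ c` modulo `m = lvX 3 f n = f 3^(n+1)`, `c = 1 + T`, `c̄ = 1 - T`, `T = 3 f δ`, `δ = dD A B`.

Uses S3_IDL. PROOF. `c c̄ = 1 - T²`, so `c`, `c̄` are prime to `3 f`, to `m`; `c' c̄ ≡ 1` modulo `m`. (1) `b ≡ c c'` is prime to `m`. (2) `b - 1 ≡ (c - c̄) c' = 2 T c' = 3 f y₁`, `y₁ = 2 δ c' ∈ P`, `y₁ ∉ (3) = P P` (`δ ∉ (3)`: its coordinate `im` is 2; multiply by the inverse of `2 c'` modulo `3`). If `b^k ≡ 1 + 3^i f y`, `i ≥ 1`, `y ∈ P ∖ (3)`, then `b^(3k) ≡ 1 + 3^(i+1) f y (1 + 3^i f y + 3^(2i-1) f² y²)`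
and the last factor is `≡ 1` modulo `P`, so the product with `y` is in `P ∖ (3)` (IDL (2), `P` prime: if `y t ∈ P P`, `t ∉ P`, then `y ∈ P P`; with `t t' = 1 + p`, `p ∈ P`: `y = y t t' - y p ∈ P P`). And `(1 + 3^i f y)^l ≡ 1 + 3^i f y (l + p)`, `p ∈ P`, for `3 ∤ l`. Induction on `j`. (3) `b^(3^n) ≡ 1`: the same with `i = n` (`n = 0`: `b - 1 ∈ (3 f)`). (4) `nm b · nm c̄ ≡ nm c`
modulo `3^(n+1)` (norms of congruent elements are congruent), `nm c = nm c̄` is prime to 3. (5) `b ≡ 1` modulo `3 f P`: (2) for `l = 1`, or `b - 1 ≡ 3 f y₁`. -/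
def S3_BPW : Prop :=
  ∀ (A B : ℤ) (P : Ideal (OO A B)) (V : ValuationSubring ℂ), CtxR3 A B P V →
    ∀ (f n : ℕ) (b : OO A B), f ≠ 0 → IsB f n b →
      IsCoprime b ((lvX 3 f n : ℕ) : OO A B) ∧
      (∀ l j : ℕ, 3 ^ j ∣ l → ¬ 3 ^ (j + 1) ∣ l → j + 1 ≤ n → ∃ y ∈ P, y ∉ P * P ∧
        b ^ l - 1 - ((3 ^ (j + 1) * f : ℕ) : OO A B) * y ∈ idl (A := A) (B := B) (lvX 3 f n)) ∧
      b ^ (3 ^ n) - 1 ∈ idl (A := A) (B := B) (lvX 3 f n) ∧
      (3 ^ (n + 1) : ℤ) ∣ nm b - 1 ∧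
      (1 ≤ n → ∀ l : ℕ, b ^ l - 1 ∈ lvR P f 1)

/-- (STB) the sets `XXE` are stable under multiplication by `b`, if `b ≡ 1` modulo `lvR P f n` is prime to `m`.

Uses S3_IDL. PROOF. `m = lvX 3 f n`. `(i, x) ∈ XXE`: `σ` (`FixK`, extending `τ`) with `HitsE R m σ i x`. `ρ` with the ideal `sp b` of level `m` (`TorXE.surj`), multiplier `± b` (`TorXE.two`, `b ≡ 1` modulo `2`); it is trivial on `RFE (lvR P f n)` (`TorXE.triv`), so on `D`. `σ` acts on `E[m]` as `z ↦ μ z` (`TorXE.act`) with `μ z₀ ≡ ± pt i x`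
(`z₀ = pt i0 1`), so `σ ρ` (`ρ` first) extends `τ` and maps the base point to `± pt i (b x)`. -/
def S3_STB : Prop :=
  ∀ (A B : ℤ) (P : Ideal (OO A B)) (V : ValuationSubring ℂ), CtxR3 A B P V → TorXE A B →
    ∀ (n f : ℕ), 1 ≤ n → f ≠ 0 → 2 ∣ f → ¬ 3 ∣ f → ∀ (ι : Type) (R : RepsE A B (3 * f) ι)
    (D : IntermediateField ℚ ℂ) (h : kk A B ≤ D), (∀ y ∈ D, y ∈ RFE (lvR P f n)) →
    letI := algC h
    ∀ (τ : D ≃ₐ[kk A B] D) (b : OO A B), IsCoprime b ((lvX 3 f n : ℕ) : OO A B) →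
      b - 1 ∈ lvR P f n → ∀ q ∈ XXE R (lvX 3 f n) h τ,
        (q.1, q.2 * Ideal.Quotient.mk (idl (A := A) (B := B) (lvX 3 f n)) b) ∈
          XXE R (lvX 3 f n) h τ

/-- (RED) the final form, from CtxR3.

Uses S3_MAIN, S3_INN, Sf_ORB, S3_STB, S3_EXO, S3_IDL. PROOF. As `F_RED.lean` (`Sf_RED`) with the orbits of `b = 1 + t`, `t = 3^n f δ ∈ lvR P f n`, of length `3` (`t² ∈ (m)`, `3 t ∈ (m)`, `δ ∉ P²`), and with other weights: `TTNE(τ) = Σ_((i, x) ∈ T τ) μ_i w(x) Σ_(l < 3) dl(pt x + l q)`, `w (x b^l) = w x` (`b ≡ 1` modulo `3`). The difference with the sums in (MAIN) is a sum of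
`μ_i (emb x - w x) Σ_(l < 3) dl(pt x + l q)`, `emb x - w x ∈ 3 V` (`IsTei6.cong`), and `v(μ_i Σ_l dl/u)² ≤ v 3` (INN): so `v² ≤ v(3)³`. -/
def S3_RED : Prop :=
  ∀ (A B : ℤ) (P : Ideal (OO A B)) (V : ValuationSubring ℂ), CtxR3 A B P V → TorXE A B →
    GalEE A B → ∀ (n f : ℕ), 1 ≤ n → 3 ≤ f → 2 ∣ f → ¬ 3 ∣ f →
    ∀ (ι : Type) [Fintype ι] (R : RepsE A B (3 * f) ι) (u e lam : ℂ),
    GoodR V (R.L R.i0) u e lam → ∀ w : OO A B → ℂ, IsTei6 P V w →
    ∀ (H : ι → Finset ℂ), (∀ i, IsHalf (R.L i) (aX 3 f : ℂ) (H i)) →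
    ∀ (D : IntermediateField ℚ ℂ) (h : kk A B ≤ D), (∀ y ∈ D, y ∈ RFE (lvR P f n)) →
    letI := algC h
    (∀ τ : D ≃ₐ[kk A B] D, ∃ y : D, (y : ℂ) = cXE R (lvX 3 f n) H h 1 ∧
      ((τ y : D) : ℂ) = cXE R (lvX 3 f n) H h τ) →
    ∀ g : (D ≃ₐ[kk A B] D) → ℤ,
      (∃ y ∈ D, y ^ 3 = ∏ᶠ τ : D ≃ₐ[kk A B] D, cXE R (lvX 3 f n) H h τ ^ g τ) →
      ∀ τ' : D ≃ₐ[kk A B] D,
        V.valuation ((∑ᶠ τ : D ≃ₐ[kk A B] D, (g τ : ℂ) *
          TTNE R w (lvX 3 f n) (aX 3 f) h (τ * τ')) / u) ^ 2 ≤ V.valuation (3 : ℂ) ^ 3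

/-- (FIN) the final form.

Uses S3_CTX, S3_RED. -/
def S3_FIN : Prop := S3_RFIN → S3_EFI2

end

end Pool.Agent.ME3


end

section

/-!
# MUX-NS, block ER, module CTX: from the standing hypotheses to `CtxR3`
-/

set_option autoImplicit false

open Polynomial

namespace Pool.Agent.ME3

open _root_.MU3 _root_.Pool.Agent.MU3A _root_.Pool.Agent.MU3B _root_.Pool.Agent.MUX _root_.Pool.Agent.MUXU _root_.Pool.Agent.MUXE
open _root_.Pool.Agent.RI _root_.Pool.Agent.NS _root_.Pool.Agent.NSRD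
open _root_.Pool.Agent.ME hiding ActE
open _root_.Pool.Agent.MEE
open _root_.Pool.Agent.NSER (PtsR Ex Sf_ALG Sf_PRO Sf_PUL Sf_COE Sf_GRN Sf_LEG Sf_TW3 Sf_PTS Sf_TNC Sf_UNT Sf_RAT Sf_ISO Sf_ADD Sf_THN Sf_NE1 Sf_ORB)
open _root_.Pool.Agent.MUXV (GR InK tX)
open _root_.Pool.Agent.NSE (E3 su ru WL IntP Rep)

noncomputable section

namespace CtxRaux

variable {A B : ℤ} {P : Ideal (OO A B)}

/-- the trace -/
def tr (x : OO A B) : ℤ := 2 * x.re + B * x.im

lemma two_mul_eq (x : OO A B) :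
    2 * x = ((tr x : ℤ) : OO A B) + ((x.im : ℤ) : OO A B) * dD A B := by
  apply QuadraticAlgebra.ext
  · simp only [QuadraticAlgebra.re_mul, QuadraticAlgebra.re_add, QuadraticAlgebra.re_intCast,
      QuadraticAlgebra.im_intCast, QuadraticAlgebra.re_ofNat, QuadraticAlgebra.im_ofNat, tr, dD,
      Int.cast_id]
    ring
  · simp only [QuadraticAlgebra.im_mul, QuadraticAlgebra.im_add, QuadraticAlgebra.re_intCast,
      QuadraticAlgebra.im_intCast, QuadraticAlgebra.re_ofNat, QuadraticAlgebra.im_ofNat, tr, dD,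
      Int.cast_id]
    ring

lemma _root_.Pool.Agent.ME3.CtxRaux.dD_sq : dD A B * dD A B = ((B ^ 2 + 4 * A : ℤ) : OO A B) := by
  apply QuadraticAlgebra.ext
  · simp only [QuadraticAlgebra.re_mul, QuadraticAlgebra.re_intCast, dD, Int.cast_id]
    ring
  · simp only [QuadraticAlgebra.im_mul, QuadraticAlgebra.im_intCast, dD]
    ring

lemma _root_.Pool.Agent.ME3.CtxRaux.int_mem (h1 : (1 : OO A B) ∉ P) (h3 : (3 : OO A B) ∈ P) (n : ℤ) :
    ((n : ℤ) : OO A B) ∈ P ↔ (3 : ℤ) ∣ n := by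
  constructor
  · intro hn
    by_contra hnd
    obtain ⟨a, b, hab⟩ := (Int.prime_three.coprime_iff_not_dvd).2 hnd
    apply h1
    have h4 := congrArg (Int.cast : ℤ → OO A B) hab
    push_cast at h4
    rw [← h4]
    exact P.add_mem (P.mul_mem_left _ h3) (P.mul_mem_left _ hn)
  · rintro ⟨k, rfl⟩
    push_cast
    exact P.mul_mem_right _ h3

lemma _root_.Pool.Agent.ME3.CtxRaux.mem_iff (h1 : (1 : OO A B) ∉ P) (h3 : (3 : OO A B) ∈ P) (hd : dD A B ∈ P) (x : OO A B) :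
    x ∈ P ↔ (3 : ℤ) ∣ tr x := by
  rw [← _root_.Pool.Agent.ME3.CtxRaux.int_mem h1 h3]
  have h2 := two_mul_eq x
  constructor
  · intro hx
    have h4 : ((tr x : ℤ) : OO A B) = 2 * x - ((x.im : ℤ) : OO A B) * dD A B := by
      rw [h2]
      ring
    rw [h4]
    exact P.sub_mem (P.mul_mem_left _ hx) (P.mul_mem_left _ hd)
  · intro hx
    have h4 : x = 3 * x - (((tr x : ℤ) : OO A B) + ((x.im : ℤ) : OO A B) * dD A B) := by
      rw [← h2]
      ring
    rw [h4]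
    exact P.sub_mem (P.mul_mem_right _ h3) (P.add_mem hx (P.mul_mem_left _ hd))

lemma _root_.Pool.Agent.ME3.CtxRaux.disc (h : CQ A B) (h3 : (3 : ℤ) ∣ B ^ 2 + 4 * A) :
    ∃ D : ℤ, B ^ 2 + 4 * A = 3 * D ∧ ¬ (3 : ℤ) ∣ D := by
  obtain ⟨D, hD⟩ := h3
  refine ⟨D, hD, ?_⟩
  rintro ⟨c, hc⟩
  have hu : ¬ IsUnit (3 : ℤ) := by
    rw [Int.isUnit_iff]
    norm_num
  rcases h.hB with hB | hB
  · subst hB
    have h5 : (9 : ℤ) ∣ A := by omega
    obtain ⟨k, hk⟩ := h5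
    exact hu ((h.fund0 rfl).1 3 ⟨k, by rw [hk]; ring⟩)
  · subst hB
    exact hu (h.fund1 rfl 3 ⟨c, by linarith⟩)

lemma _root_.Pool.Agent.ME3.CtxRaux.three_ne_zero' : (3 : OO A B) ≠ 0 := by
  intro h
  have h1 := congrArg QuadraticAlgebra.re h
  simp only [QuadraticAlgebra.re_ofNat, QuadraticAlgebra.re_zero] at h1
  norm_num at h1

lemma _root_.Pool.Agent.ME3.CtxRaux.sq_le (h3 : ∀ x ∈ P, (3 : ℤ) ∣ tr x) {D : ℤ} (hD : B ^ 2 + 4 * A = 3 * D) {x y : OO A B}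
    (hx : x ∈ P) (hy : y ∈ P) : x * y ∈ idl (A := A) (B := B) 3 := by
  obtain ⟨a, ha⟩ := h3 x hx
  obtain ⟨b, hb⟩ := h3 y hy
  have h1 := two_mul_eq x
  have h2 := two_mul_eq y
  have h4 : dD A B * dD A B = 3 * ((D : ℤ) : OO A B) := by
    rw [_root_.Pool.Agent.ME3.CtxRaux.dD_sq, hD]
    push_cast
    rfl
  rw [ha] at h1
  rw [hb] at h2
  push_cast at h1 h2
  rw [Ideal.mem_span_singleton]
  refine ⟨3 * (a : OO A B) * b + (x.im : OO A B) * (y.im : OO A B) * (D : OO A B) +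
    ((a : OO A B) * (y.im : OO A B) + (b : OO A B) * (x.im : OO A B)) * dD A B - x * y, ?_⟩
  push_cast
  linear_combination (2 * y) * h1 + (3 * (a : OO A B) + (x.im : OO A B) * dD A B) * h2 +
    (x.im : OO A B) * (y.im : OO A B) * h4

end CtxRaux

open _root_.Pool.Agent.ME3.CtxRaux _root_.Pool.Agent.NSR.ALRaux in
/-- (CTX) from the standing hypotheses to `CtxR3` -/
theorem t3_CTX : S3_CTX := by
  intro A B P V hC hB hP hV hT hF
  obtain ⟨hF1, hF2⟩ := hF A B P V hC hB hP hV hT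
  have hthree : (3 : ℤ) ∣ B ^ 2 + 4 * A := by
    rw [hC.hA, hB]
    norm_num
  have h := hC.toCQ
  have h3P : (3 : OO A B) ∈ P := by
    have := hP.mem
    rwa [Nat.cast_ofNat] at this
  have h1P : (1 : OO A B) ∉ P := fun h1 => hP.prime.ne_top ((Ideal.eq_top_iff_one P).2 h1)
  have hv3 : V.valuation (3 : ℂ) < 1 := by
    have h1 := (hV ((3 : ℕ) : OO A B)).2 hP.mem
    rw [ValuationSubring.mem_nonunits_iff, MUX.emb_natCast h] at h1
    simpa using h1
  obtain ⟨D, hD, hD3⟩ := _root_.Pool.Agent.ME3.CtxRaux.disc h hthree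
  have hdP : dD A B ∈ P := by
    have h1 : dD A B * dD A B ∈ P := by
      rw [_root_.Pool.Agent.ME3.CtxRaux.dD_sq, _root_.Pool.Agent.ME3.CtxRaux.int_mem h1P h3P]
      exact hthree
    rcases hP.prime.mem_or_mem h1 with h2 | h2 <;> exact h2
  have hmem := _root_.Pool.Agent.ME3.CtxRaux.mem_iff (P := P) h1P h3P hdP
  have hunit : ∀ x : OO A B, x ∉ P → V.valuation (emb x) = 1 := fun x hx =>
    le_antisymm (v_emb h V x) (not_lt.1 fun h1 =>
      hx ((hV x).1 ((ValuationSubring.mem_nonunits_iff V).2 h1)))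
  have hpm : ∀ x : OO A B, x ∉ P → x - 1 ∈ P ∨ x + 1 ∈ P := by
    intro x hx
    rw [hmem] at hx ⊢
    rw [hmem]
    have e1 : tr (x - 1) = tr x - 2 := by
      unfold tr
      rw [QuadraticAlgebra.re_sub, QuadraticAlgebra.im_sub, QuadraticAlgebra.re_one,
        QuadraticAlgebra.im_one]
      ring
    have e2 : tr (x + 1) = tr x + 2 := by
      unfold tr
      rw [QuadraticAlgebra.re_add, QuadraticAlgebra.im_add, QuadraticAlgebra.re_one,
        QuadraticAlgebra.im_one]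
      ring
    rw [e1, e2]
    omega
  have hsub : ∀ x ∈ P, ∀ y ∈ P, x * y ∈ idl (A := A) (B := B) 3 := fun x hx y hy =>
    _root_.Pool.Agent.ME3.CtxRaux.sq_le (fun x hx => (hmem x).1 hx) hD hx hy
  have hsq : P * P = idl (A := A) (B := B) 3 := by
    refine le_antisymm (Ideal.mul_le.2 hsub) ?_
    rw [Ideal.span_singleton_le_iff_mem, Nat.cast_ofNat]
    have h9 : (3 : OO A B) * 3 ∈ P * P := Ideal.mul_mem_mul h3P h3P
    have hdd : dD A B * dD A B ∈ P * P := Ideal.mul_mem_mul hdP hdP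
    obtain ⟨a, b, hab⟩ := (Int.prime_three.coprime_iff_not_dvd).2 hD3
    have h4 := congrArg (Int.cast : ℤ → OO A B) hab
    have h5 : dD A B * dD A B = 3 * ((D : ℤ) : OO A B) := by
      rw [_root_.Pool.Agent.ME3.CtxRaux.dD_sq, hD]
      push_cast
      rfl
    push_cast at h4
    have h6 : (3 : OO A B) = (a : OO A B) * (3 * 3) + (b : OO A B) * (dD A B * dD A B) := by
      linear_combination (-3 : OO A B) * h4 - (b : OO A B) * h5
    rw [h6]
    exact Ideal.add_mem _ (Ideal.mul_mem_left _ _ h9) (Ideal.mul_mem_left _ _ hdd)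
  have hmul : ∀ x y : OO A B, V.valuation (emb (x * y)) =
      V.valuation (emb x) * V.valuation (emb y) := fun x y => by
    rw [MUX.emb_mul h, map_mul]
  have hidl : ∀ x ∈ idl (A := A) (B := B) 3, V.valuation (emb x) ≤ V.valuation (3 : ℂ) := by
    intro x hx
    obtain ⟨y, rfl⟩ := Ideal.mem_span_singleton.1 hx
    rw [hmul, MUX.emb_natCast h, Nat.cast_ofNat]
    exact mul_le_of_le_one_right' (v_emb h V y)
  refine
    { case := hC
      ring := te_RNG A B h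
      cq := h
      v3 := hv3
      int := v_emb h V
      unit := hunit
      vP := ?_
      nat := ?_
      max := ?_
      nP := hP.norm
      sq := hsq
      nrm := ?_
      pm := hpm
      dP := hdP
      vd := ?_
      good := ?_
      iner := hF2
      exq := ?_ }
  · intro x hx
    rw [sq, ← hmul]
    exact hidl _ (hsub x hx x hx)
  · intro n hn
    have := v_int_unit (V := V) hv3 (n := (n : ℤ)) (by omega)
    simpa using this
  · rw [Ideal.isMaximal_iff]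
    refine ⟨h1P, ?_⟩
    intro J x hJ hx hxJ
    rcases hpm x hx with h2 | h2
    · have h4 : (1 : OO A B) = x - (x - 1) := by ring
      rw [h4]
      exact J.sub_mem hxJ (hJ h2)
    · have h4 : (1 : OO A B) = (x + 1) - x := by ring
      rw [h4]
      exact J.sub_mem (hJ h2) hxJ
  · intro x hx h1
    apply hx
    rw [hmem]
    have h2 := RNGaux.four_nm x
    have h4 : tr x ^ 2 = 4 * nm x + 3 * (D * x.im ^ 2) := by
      unfold tr
      rw [h2]
      unfold absD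
      rw [← mul_assoc, ← hD]
      ring
    exact Int.prime_three.dvd_of_dvd_pow (n := 2) (by
      rw [h4]
      exact dvd_add (h1.mul_left _) (dvd_mul_right _ _))
  · rw [sq, ← hmul, _root_.Pool.Agent.ME3.CtxRaux.dD_sq, MUX.emb_intCast h, hD]
    push_cast
    rw [map_mul, v_int_unit hv3 hD3, mul_one]
  · rintro L ⟨b, om, hL⟩
    obtain ⟨u, e, lam, h1, -⟩ := hF1 b L om hL
    exact ⟨u, e, lam, h1⟩
  · rintro L ⟨b, om, hL⟩
    have hPb : P ≠ ⊥ := by
      rintro rfl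
      exact _root_.Pool.Agent.ME3.CtxRaux.three_ne_zero' (Ideal.mem_bot.1 h3P)
    obtain ⟨σ, -, hσ⟩ := hT.surj ⊤ (by
      intro h0
      have h4 : (3 : OO A B) ∈ (⊤ : Ideal (OO A B)) := Submodule.mem_top
      rw [h0] at h4
      exact _root_.Pool.Agent.ME3.CtxRaux.three_ne_zero' (Ideal.mem_bot.1 h4)) P hPb (Ideal.isCoprime_iff_sup_eq.2 (sup_top_eq _))
    obtain ⟨b', L', om', mu, hL', hact⟩ := hσ b L om hL
    exact ⟨L', mu, ⟨b', om', hL'⟩, hact.isq⟩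

end

end Pool.Agent.ME3


end

section

/-!
# MUX-NS, block EN: torsion points (TPN)
-/

set_option autoImplicit false

open Polynomial

namespace Pool.Agent.NSE

open _root_.MU3 _root_.Pool.Agent.MU3A _root_.Pool.Agent.MU3B _root_.Pool.Agent.MUX _root_.Pool.Agent.MUXU _root_.Pool.Agent.MUXE
open _root_.Pool.Agent.RI _root_.Pool.Agent.NS
open _root_.Pool.Agent.MUXV (GR InK tX)

noncomputable section

namespace TPN

theorem v_int (V : ValuationSubring ℂ) (a : ℤ) : V.valuation (a : ℂ) ≤ 1 :=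
  (V.valuation_le_one_iff _).2 (intCast_mem V a)

/-- integers prime to `3` are units at `V` -/
theorem v_nat (V : ValuationSubring ℂ) (h3 : V.valuation (3 : ℂ) < 1) (N : ℕ) (hN : ¬ 3 ∣ N) :
    V.valuation (N : ℂ) = 1 := by
  have hc : Nat.Coprime N 3 := ((Nat.Prime.coprime_iff_not_dvd Nat.prime_three).2 hN).symm
  obtain ⟨a, b, hab⟩ := Nat.isCoprime_iff_coprime.2 hc
  refine le_antisymm ?_ ?_
  · have := v_int V (N : ℤ)
    rwa [Int.cast_natCast] at this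
  · by_contra hlt
    have hlt' : V.valuation (N : ℂ) < 1 := not_le.1 hlt
    have e : (a : ℂ) * (N : ℂ) + (b : ℂ) * 3 = 1 := by
      have := congrArg (fun t : ℤ => (t : ℂ)) hab
      push_cast at this
      exact this
    have h1 : V.valuation ((a : ℂ) * (N : ℂ)) < 1 := by
      rw [map_mul]
      exact lt_of_le_of_lt (mul_le_of_le_one_left' (v_int V a)) hlt'
    have h2 : V.valuation ((b : ℂ) * 3) < 1 := by
      rw [map_mul]
      exact lt_of_le_of_lt (mul_le_of_le_one_left' (v_int V b)) h3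
    have h4 := Valuation.map_add_lt V.valuation h1 h2
    rw [e, map_one] at h4
    exact lt_irrefl _ h4

theorem one_lt_of {Γ : Type*} [LinearOrderedCommGroupWithZero Γ] {T π : Γ} {m : ℕ}
    (h : T ^ m * π = 1) (hπ : π < 1) : 1 < T := by
  by_contra hc
  have hc' : T ≤ 1 := not_lt.1 hc
  have h1 : T ^ m ≤ 1 := pow_le_one' hc' m
  have h2 : T ^ m * π ≤ 1 * π := mul_le_mul_left h1 π
  rw [h, one_mul] at h2
  exact absurd hπ (not_lt.2 h2)

theorem inv_pow_eq {Γ : Type*} [LinearOrderedCommGroupWithZero Γ] {T π : Γ} {m : ℕ}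
    (hT : T ≠ 0) (h : T⁻¹ ^ m = π) : T ^ m * π = 1 := by
  rw [← h, inv_pow]
  exact mul_inv_cancel₀ (pow_ne_zero _ hT)

end TPN

open _root_.Pool.Agent.NSE.TPN in
theorem te_TPN (h1 : Se_COE) (h2 : Se_GRN) (h3 : Se_LEG) (h4 : Se_TW3) (h5 : Su_PFI) :
    Se_TPN := by
  intro V L u e lam hG hv3
  obtain ⟨ξ, G⟩ := h2 V L u e lam hG hv3
  obtain ⟨-, -, -, -, -, -, -, -, per⟩ := h1 V L u e lam hG hv3
  refine ⟨fun N hN => ⟨v_nat V hv3 N hN, fun z hz hK =>
    Pool.Agent.MUXV.mem_of_nat_mul G hK (v_nat V hv3 N hN) hz⟩, ?_⟩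
  obtain ⟨w, -, hw2, hwL, -, -, -, -, hxw⟩ := h3 V L u e lam hG hv3
  have hπ0 : V.valuation (3 : ℂ) ≠ 0 := (Valuation.ne_zero_iff _).2 (by norm_num)
  have three_mul_mem : ∀ z ∈ L.lattice, (3 : ℂ) * z ∈ L.lattice := by
    intro z hz
    have := add_mem (add_mem hz hz) hz
    convert this using 1
    ring
  obtain ⟨R, hR⟩ := b_REP L 3 (by norm_num) three_mul_mem
  have hRM : IsRpM L L 3 R := ⟨hR.mem, hR.ne, hR.inj, hR.surj⟩
  have hcard : R.card = 9 - 1 := by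
    have := b_NUM L 3 R (by norm_num) three_mul_mem hR
    have h9 : ‖(3 : ℂ)‖ ^ 2 = 9 := by
      rw [show (3 : ℂ) = ((3 : ℝ) : ℂ) by norm_num, Complex.norm_real]
      norm_num
    rw [h9] at this
    have h10 : (R.card : ℝ) = 8 := by linarith
    exact_mod_cast h10
  have hw3 : (3 : ℂ) * w ∉ L.lattice := by
    intro h
    apply hwL
    have := sub_mem h hw2
    convert this using 1
    ring
  have hxw3 : xu L u e (3 * w) = 0 := by
    have := ((per w).1 (2 * w) hw2).1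
    rw [← hxw, ← this]
    congr 1
    ring
  have hwK : ¬ InK V L (xu L u e) w := by
    rintro (h | h)
    · exact hwL h
    · apply h
      rw [hxw]
      exact zero_mem _
  -- the points of `R`
  have hq : ∀ q ∈ R, InK V L (xu L u e) q ∧ xu L u e q ≠ 0 ∧
      V.valuation (xu L u e q) ^ 4 * V.valuation (3 : ℂ) = 1 := by
    intro q hqR
    obtain ⟨k1, k2, k3⟩ := h4 V L u e lam hG hv3 q ⟨hR.mem q hqR, hR.ne q hqR⟩
    refine ⟨k1, k2, ?_⟩
    unfold su at k3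
    rw [map_inv₀] at k3
    exact inv_pow_eq ((Valuation.ne_zero_iff _).2 k2) k3
  have hRne : R.Nonempty := by
    rw [← Finset.card_pos, hcard]
    norm_num
  obtain ⟨q0, hq0R⟩ := hRne
  have hRT : ∀ q ∈ R, V.valuation (xu L u e q) = V.valuation (xu L u e q0) := by
    intro q hqR
    have h6 : V.valuation (xu L u e q) ^ 4 * V.valuation (3 : ℂ) =
        V.valuation (xu L u e q0) ^ 4 * V.valuation (3 : ℂ) := by
      rw [(hq q hqR).2.2, (hq q0 hq0R).2.2]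
    exact (pow_left_inj₀ zero_le zero_le four_ne_zero).1 (mul_right_cancel₀ hπ0 h6)
  -- the product formula
  have hu := hG.u0
  have pfi : ∀ z : ℂ, (3 : ℂ) * z ∉ L.lattice →
      (3 : ℂ) ^ 2 * (xu L u e (3 * z) - xu L u e (3 * w)) * ∏ q ∈ R, (xu L u e z - xu L u e q) =
        (xu L u e z - xu L u e w) * ∏ q ∈ R, (xu L u e z - xu L u e (w + q)) := by
    intro z hz
    have pf := h5 L L 3 R (by norm_num) three_mul_mem hRM w hw3 z hz
    have xd : ∀ a b : ℂ, L.weierstrassP a - L.weierstrassP b =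
        u ^ 2 * (xu L u e a - xu L u e b) := by
      intro a b
      unfold xu
      field_simp
      ring
    simp only [xd, Finset.prod_mul_distrib, Finset.prod_const] at pf
    have hu' : u ^ 2 * (u ^ 2) ^ R.card ≠ 0 := by positivity
    apply mul_left_cancel₀ hu'
    linear_combination pf
  intro j
  induction j with
  | zero =>
    intro z hz hz0
    obtain ⟨k1, k2, k3⟩ := h4 V L u e lam hG hv3 z ⟨by simpa using hz, by simpa using hz0⟩
    exact ⟨k1, k2, by simpa using k3⟩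
  | succ j ih =>
    intro z hz hz0
    have hz' : 3 ^ (j + 1) * (3 * z) ∈ L.lattice := by
      have : (3 : ℂ) ^ (j + 1) * (3 * z) = 3 ^ (j + 1 + 1) * z := by ring
      rw [this]; exact hz
    have hz0' : 3 ^ j * (3 * z) ∉ L.lattice := by
      have : (3 : ℂ) ^ j * (3 * z) = 3 ^ (j + 1) * z := by ring
      rw [this]; exact hz0
    obtain ⟨y1, y2, y3⟩ := ih (3 * z) hz' hz0'
    have pow_mem : ∀ (i : ℕ) (a : ℂ), a ∈ L.lattice → (3 : ℂ) ^ i * a ∈ L.lattice := by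
      intro i a ha
      induction i with
      | zero => simpa using ha
      | succ i ih' =>
        have := three_mul_mem _ ih'
        convert this using 1
        ring
    have h3z : (3 : ℂ) * z ∉ L.lattice := fun h => hz0' (pow_mem j _ h)
    have hy0 : V.valuation (xu L u e (3 * z)) ≠ 0 := (Valuation.ne_zero_iff _).2 y2
    have hyk : V.valuation (xu L u e (3 * z)) ^ (4 * 9 ^ j) * V.valuation (3 : ℂ) = 1 := by
      unfold su at y3
      rw [map_inv₀] at y3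
      exact inv_pow_eq hy0 y3
    have hT : V.valuation (3 : ℂ) ^ 2 * V.valuation (xu L u e q0) ^ (9 - 1) = 1 := by
      have h6 := (hq q0 hq0R).2.2
      calc V.valuation (3 : ℂ) ^ 2 * V.valuation (xu L u e q0) ^ (9 - 1)
          = (V.valuation (xu L u e q0) ^ 4 * V.valuation (3 : ℂ)) ^ 2 := by
            rw [mul_pow, ← pow_mul, mul_comm]
        _ = 1 := by rw [h6, one_pow]
    have hyk' : V.valuation (3 : ℂ) ^ 2 *
        V.valuation (xu L u e (3 * z)) ^ ((9 - 1) * 9 ^ j) = 1 := by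
      calc V.valuation (3 : ℂ) ^ 2 * V.valuation (xu L u e (3 * z)) ^ ((9 - 1) * 9 ^ j)
          = (V.valuation (xu L u e (3 * z)) ^ (4 * 9 ^ j) * V.valuation (3 : ℂ)) ^ 2 := by
            rw [mul_pow, ← pow_mul, mul_comm]
            congr 2
            ring
        _ = 1 := by rw [hyk, one_pow]
    obtain ⟨X1, X2⟩ := TP.num V.valuation 9 (9 ^ j) (by norm_num) (by positivity) R hcard 3
      (xu L u e (3 * z)) (xu L u e (3 * w)) (xu L u e z) (xu L u e w) (fun q => xu L u e q)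
      (fun q => xu L u e (w + q)) (V.valuation (xu L u e q0)) (V.valuation (3 : ℂ)) hπ0 hv3 rfl
      hT (one_lt_of (hq q0 hq0R).2.2 hv3) hRT
      (fun q hqR => (Pool.Agent.MUXV.int_X (fun hin => hwK (by
        have := Pool.Agent.MUXV.inK_sub G hin (hq q hqR).1
        rwa [add_sub_cancel_right] at this))).2)
      (by rw [hxw, map_zero]; exact zero_le) (by rw [hxw3, map_zero]; exact zero_le)
      (one_lt_of hyk hv3) hyk' (pfi z h3z)
    have hx0 : xu L u e z ≠ 0 := by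
      intro h0
      rw [h0, map_zero] at X1
      exact absurd X1 (not_lt.2 zero_le)
    refine ⟨Or.inr fun hin => ?_, hx0, ?_⟩
    · exact absurd X1 (not_lt.2 ((V.valuation_le_one_iff _).2 hin))
    · calc V.valuation (su L u e z) ^ (4 * 9 ^ (j + 1))
          = (V.valuation (su L u e z) ^ 9) ^ (4 * 9 ^ j) := by
            rw [← pow_mul]
            congr 1
            ring
        _ = V.valuation (su L u e (3 * z)) ^ (4 * 9 ^ j) := by
            unfold su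
            rw [map_inv₀, map_inv₀, inv_pow, X2]
        _ = V.valuation (3 : ℂ) := y3

end

end Pool.Agent.NSE


end

section

/-!
# MUX-NS, block EN, module PTS: the points of order three satisfy `Pts`
-/

set_option autoImplicit false

open Polynomial

namespace Pool.Agent.NSE

open _root_.MU3 _root_.Pool.Agent.MU3A _root_.Pool.Agent.MU3B _root_.Pool.Agent.MUX _root_.Pool.Agent.MUXU _root_.Pool.Agent.MUXE
open _root_.Pool.Agent.RI _root_.Pool.Agent.NS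
open _root_.Pool.Agent.MUXV (GR InK tX)

noncomputable section

namespace PTS

/-- `(a ω₁ + b ω₂)/3 ∈ L` only if `3 ∣ a`, `3 ∣ b` -/
lemma third (L : PeriodPair) (a b : ℤ) (h : ((a : ℂ) * L.ω₁ + b * L.ω₂) / 3 ∈ L.lattice) :
    (3 : ℤ) ∣ a ∧ (3 : ℤ) ∣ b := by
  obtain ⟨m, n, hmn⟩ := PeriodPair.mem_lattice.1 h
  have h1 : ((a - 3 * m : ℤ) : ℝ) • L.ω₁ + ((b - 3 * n : ℤ) : ℝ) • L.ω₂ = 0 := by
    rw [Complex.real_smul, Complex.real_smul]
    push_cast
    linear_combination -3 * hmn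
  have h2 := LinearIndependent.pair_iff.1 L.indep _ _ h1
  have h3 : a - 3 * m = 0 := by exact_mod_cast h2.1
  have h4 : b - 3 * n = 0 := by exact_mod_cast h2.2
  exact ⟨⟨m, by linarith⟩, ⟨n, by linarith⟩⟩

/-- the coefficients of the four points -/
def ca : Fin 4 → ℤ := ![1, 0, 1, 1]

/-- the coefficients of the four points -/
def cb : Fin 4 → ℤ := ![0, 1, 1, -1]

lemma sep : ∀ i j : Fin 4, ((3 : ℤ) ∣ ca i - ca j ∧ (3 : ℤ) ∣ cb i - cb j) ∨
    ((3 : ℤ) ∣ ca i + ca j ∧ (3 : ℤ) ∣ cb i + cb j) → i = j := by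
  decide

lemma nz : ∀ i : Fin 4, ¬ ((3 : ℤ) ∣ ca i ∧ (3 : ℤ) ∣ cb i) := by
  decide

/-- the four points -/
def pnt (L : PeriodPair) (i : Fin 4) : ℂ := ((ca i : ℂ) * L.ω₁ + (cb i : ℂ) * L.ω₂) / 3

lemma pnt_mem (L : PeriodPair) (i : Fin 4) : pnt L i ∈ E3 L := by
  constructor
  · rw [pnt, mul_div_cancel₀ _ (by norm_num : (3 : ℂ) ≠ 0)]
    exact PeriodPair.mem_lattice.2 ⟨_, _, rfl⟩
  · intro h
    exact nz i (third L _ _ h)

end PTS

open _root_.Pool.Agent.NSE.PTS in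
/-- PTS. -/
theorem te_PTS (hCOE : Se_COE) (hTW3 : Se_TW3) : Se_PTS := by
  intro V L u e lam hG h3
  obtain ⟨-, -, -, -, hl, -, heq, -, hper⟩ := hCOE V L u e lam hG h3
  have htw := hTW3 V L u e lam hG h3
  have hE : ∀ Y ∈ E3 L, ∀ w ∈ L.lattice, Y + w ∈ E3 L := by
    intro Y hY w hw
    constructor
    · rw [mul_add]
      refine add_mem hY.1 ?_
      have h1 : (3 : ℂ) * w = w + w + w := by ring
      rw [h1]
      exact add_mem (add_mem hw hw) hw
    · intro h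
      apply hY.2
      have h1 := sub_mem h hw
      rwa [add_sub_cancel_right] at h1
  have hP : ∀ (z w : ℂ), w ∈ L.lattice → su L u e (z + w) = su L u e z ∧
      ru L u e (z + w) = ru L u e z := by
    intro z w hw
    obtain ⟨h1, h2⟩ := (hper z).1 w hw
    unfold su ru
    rw [h1, h2]
    exact ⟨rfl, rfl⟩
  refine ⟨⟨h3, ?_, hl.le, fun Y hY => (htw Y hY).2.2, ?_, ?_, ?_, ?_⟩, ?_⟩
  · rw [Valuation.map_neg]
    exact hG.lam1.trans h3.le
  · intro Y hY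
    have hx : xu L u e Y ≠ 0 := (htw Y hY).2.1
    have h1 := heq Y hY.2
    unfold ru su
    rw [div_pow, neg_sq, h1]
    field_simp
    ring
  · intro Y hY
    refine ⟨-Y, ⟨?_, ?_⟩, ?_, ?_⟩
    · rw [mul_neg]
      exact neg_mem hY.1
    · intro h
      apply hY.2
      have h1 := neg_mem h
      rwa [neg_neg] at h1
    · unfold su
      rw [(hper Y).2.1]
    · unfold ru
      rw [(hper Y).2.1, (hper Y).2.2, neg_div, neg_div, neg_neg]
  · refine ⟨pnt L, pnt_mem L, ?_⟩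
    intro i j hij
    simp only [su] at hij
    have h1 : xu L u e (pnt L i) = xu L u e (pnt L j) := inv_injective hij
    have h2 : L.weierstrassP (pnt L i) = L.weierstrassP (pnt L j) := by
      unfold xu at h1
      have hu : u ^ 2 ≠ 0 := pow_ne_zero 2 hG.u0
      have h4 := (div_left_inj' hu).1 h1
      exact sub_left_injective h4
    apply sep
    rcases b_NEQ L (pnt L j) (pnt L i) (pnt_mem L j).2 (pnt_mem L i).2 h2 with h | h
    · left
      apply third L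
      have e1 : (((ca i - ca j : ℤ) : ℂ) * L.ω₁ + ((cb i - cb j : ℤ) : ℂ) * L.ω₂) / 3 =
          pnt L i - pnt L j := by
        unfold pnt
        push_cast
        ring
      rw [e1]
      exact h
    · right
      apply third L
      have e1 : (((ca i + ca j : ℤ) : ℂ) * L.ω₁ + ((cb i + cb j : ℤ) : ℂ) * L.ω₂) / 3 =
          pnt L i + pnt L j := by
        unfold pnt
        push_cast
        ring
      rw [e1]
      exact h
  · refine (Set.finite_range (fun p : Fin 3 × Fin 3 =>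
      (su L u e (((p.1 : ℕ) * L.ω₁ + (p.2 : ℕ) * L.ω₂) / 3),
        ru L u e (((p.1 : ℕ) * L.ω₁ + (p.2 : ℕ) * L.ω₂) / 3)))).subset ?_
    rintro _ ⟨Y, hY, rfl⟩
    obtain ⟨i, j, hij⟩ := PeriodPair.mem_lattice.1 hY.1
    have hi0 : 0 ≤ i % 3 := Int.emod_nonneg i (by norm_num)
    have hi1 : i % 3 < 3 := Int.emod_lt_of_pos i (by norm_num)
    have hj0 : 0 ≤ j % 3 := Int.emod_nonneg j (by norm_num)
    have hj1 : j % 3 < 3 := Int.emod_lt_of_pos j (by norm_num)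
    have hi : i = 3 * (i / 3) + i % 3 := (Int.mul_ediv_add_emod i 3).symm
    have hj : j = 3 * (j / 3) + j % 3 := (Int.mul_ediv_add_emod j 3).symm
    refine ⟨(⟨(i % 3).toNat, by omega⟩, ⟨(j % 3).toNat, by omega⟩), ?_⟩
    have c1 : (((i % 3).toNat : ℕ) : ℂ) = ((i % 3 : ℤ) : ℂ) := by
      have := Int.toNat_of_nonneg hi0
      exact_mod_cast congrArg (fun n : ℤ => (n : ℂ)) this
    have c2 : (((j % 3).toNat : ℕ) : ℂ) = ((j % 3 : ℤ) : ℂ) := by
      have := Int.toNat_of_nonneg hj0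
      exact_mod_cast congrArg (fun n : ℤ => (n : ℂ)) this
    have hiC : (i : ℂ) = 3 * ((i / 3 : ℤ) : ℂ) + ((i % 3 : ℤ) : ℂ) := by
      exact_mod_cast congrArg (fun n : ℤ => (n : ℂ)) hi
    have hjC : (j : ℂ) = 3 * ((j / 3 : ℤ) : ℂ) + ((j % 3 : ℤ) : ℂ) := by
      exact_mod_cast congrArg (fun n : ℤ => (n : ℂ)) hj
    have e1 : Y = (((i % 3).toNat : ℕ) * L.ω₁ + ((j % 3).toNat : ℕ) * L.ω₂) / 3 +
        (((i / 3 : ℤ) : ℂ) * L.ω₁ + ((j / 3 : ℤ) : ℂ) * L.ω₂) := by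
      rw [c1, c2]
      have h4 : (3 : ℂ) ≠ 0 := by norm_num
      apply mul_left_cancel₀ h4
      rw [← hij, hiC, hjC]
      ring
    have h5 := hP ((((i % 3).toNat : ℕ) * L.ω₁ + ((j % 3).toNat : ℕ) * L.ω₂) / 3) _
      (PeriodPair.mem_lattice.2 ⟨i / 3, j / 3, rfl⟩)
    rw [← e1] at h5
    simp only [h5.1, h5.2]
  · intro Y hY w hw
    exact ⟨hE Y hY w hw, hP Y w hw⟩

end

end Pool.Agent.NSE


end

section

/-!
# MUX-NS, block EN, module LEG (helper86): the points of order two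
-/

set_option autoImplicit false

open Polynomial

namespace Pool.Agent.NSE

open _root_.MU3 _root_.Pool.Agent.MU3A _root_.Pool.Agent.MU3B _root_.Pool.Agent.MUX _root_.Pool.Agent.MUXU _root_.Pool.Agent.MUXE
open _root_.Pool.Agent.RI _root_.Pool.Agent.NS
open _root_.Pool.Agent.MUXV (GR InK tX)

noncomputable section

theorem te_LEG : Se_LEG := by
  intro V L u e lam h h3
  have hu := h.u0
  obtain ⟨w₁, hw₁, h1⟩ := b_SUR L e
  obtain ⟨w₂, hw₂, h2⟩ := b_SUR L (e + u ^ 2)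
  have x1 : xu L u e w₁ = 0 := by
    unfold xu
    rw [h1]
    simp
  have x2 : xu L u e w₂ = 1 := by
    unfold xu
    rw [h2]
    field_simp
    ring
  have key : ∀ w : ℂ, w ∉ L.lattice → (xu L u e w = 0 ∨ xu L u e w = 1) →
      2 * w ∈ L.lattice := by
    intro w hw hx
    have h5 : yu L u w ^ 2 = xu L u e w * (xu L u e w - 1) * (xu L u e w - lam) := h.eq w hw
    have h6 : yu L u w ^ 2 = 0 := by
      rw [h5]
      rcases hx with hx | hx
      · rw [hx]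
        ring
      · rw [hx]
        ring
    have h7 : yu L u w = 0 := by
      exact pow_eq_zero_iff (two_ne_zero) |>.mp h6
    have h8 : L.derivWeierstrassP w = 0 := by
      unfold yu at h7
      rcases div_eq_zero_iff.mp h7 with h9 | h9
      · exact h9
      · exact absurd h9 (mul_ne_zero two_ne_zero (pow_ne_zero 3 hu))
    exact (b_ZER L w hw).mp h8
  refine ⟨w₁, w₂, key w₁ hw₁ (Or.inl x1), hw₁, key w₂ hw₂ (Or.inr x2), hw₂, h1, ?_, x1⟩
  rw [h1, h2]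
  ring

end

end Pool.Agent.NSE


end

section

/-!
# MUX-NS, block EN, module ISO: the isogeny on the points of order three
-/

set_option autoImplicit false

open Polynomial

namespace Pool.Agent.NSE

open _root_.MU3 _root_.Pool.Agent.MU3A _root_.Pool.Agent.MU3B _root_.Pool.Agent.MUX _root_.Pool.Agent.MUXU _root_.Pool.Agent.MUXE
open _root_.Pool.Agent.RI _root_.Pool.Agent.NS
open _root_.Pool.Agent.MUXV (GR InK tX)

noncomputable section

namespace ISO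

variable {V : ValuationSubring ℂ}

lemma intP_iff {P : ℂ[X]} : IntP V P ↔ ∃ p : V[X], p.map (algebraMap V ℂ) = P := by
  constructor
  · intro h
    have h1 : P ∈ Polynomial.lifts (algebraMap V ℂ) := by
      rw [Polynomial.lifts_iff_coeff_lifts]
      intro n
      exact ⟨⟨P.coeff n, (V.valuation_le_one_iff _).1 (h n)⟩, rfl⟩
    exact (Polynomial.mem_lifts _).1 h1
  · rintro ⟨p, rfl⟩ i
    rw [Polynomial.coeff_map]
    exact (V.valuation_le_one_iff _).2 (p.coeff i).2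

lemma intP_W {P Q : ℂ[X]} (hP : IntP V P) (hQ : IntP V Q) :
    IntP V (derivative P * Q - P * derivative Q) := by
  obtain ⟨p, rfl⟩ := intP_iff.1 hP
  obtain ⟨q, rfl⟩ := intP_iff.1 hQ
  refine intP_iff.2 ⟨derivative p * q - p * derivative q, ?_⟩
  rw [Polynomial.map_sub, Polynomial.map_mul, Polynomial.map_mul, Polynomial.derivative_map,
    Polynomial.derivative_map]

lemma intP_reflect {P : ℂ[X]} (N : ℕ) (h : IntP V P) : IntP V (reflect N P) := fun i => by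
  rw [coeff_reflect]
  exact h _

lemma eval_reflect {P : ℂ[X]} {N : ℕ} (hf : P.natDegree ≤ N) {x : ℂ} (hx : x ≠ 0) :
    P.eval x = x ^ N * (reflect N P).eval x⁻¹ := by
  let _ := invertibleOfNonzero hx
  have h := eval₂_reflect_mul_pow (RingHom.id ℂ) x N P hf
  rw [invOf_eq_inv] at h
  unfold Polynomial.eval
  rw [← h, mul_comm]

lemma eval_reflect_zero (P : ℂ[X]) (N : ℕ) : (reflect N P).eval 0 = P.coeff N := by
  rw [← coeff_zero_eq_eval_zero, coeff_reflect, revAt_zero]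

lemma deg_W {P Q : ℂ[X]} (hPQ : P.natDegree = Q.natDegree + 1) :
    (derivative P * Q - P * derivative Q).natDegree ≤ Q.natDegree + Q.natDegree := by
  refine (natDegree_sub_le _ _).trans (max_le ?_ ?_)
  · refine natDegree_mul_le.trans ?_
    have h := natDegree_derivative_le P
    omega
  · rcases Nat.eq_zero_or_pos Q.natDegree with h0 | h0
    · have h1 : derivative Q = 0 := by
        rw [eq_C_of_natDegree_eq_zero h0, derivative_C]
      rw [h1, mul_zero, natDegree_zero]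
      omega
    · refine natDegree_mul_le.trans ?_
      have h := natDegree_derivative_le Q
      omega

lemma coeff_W {P Q : ℂ[X]} (hm : P.Monic) (hPQ : P.natDegree = Q.natDegree + 1) :
    (derivative P * Q - P * derivative Q).coeff (Q.natDegree + Q.natDegree) =
      Q.leadingCoeff := by
  have hP1 : P.coeff (Q.natDegree + 1) = 1 := by
    rw [← hPQ]
    exact hm
  have h1 : (derivative P * Q).coeff (Q.natDegree + Q.natDegree) =
      (Q.natDegree + 1) * Q.leadingCoeff := by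
    have h' : (derivative P).natDegree ≤ Q.natDegree := by
      have h := natDegree_derivative_le P
      omega
    rw [coeff_mul_add_eq_of_natDegree_le h' le_rfl, coeff_derivative, hP1, one_mul]
    rfl
  have h2 : (P * derivative Q).coeff (Q.natDegree + Q.natDegree) =
      Q.natDegree * Q.leadingCoeff := by
    rcases Nat.eq_zero_or_pos Q.natDegree with h0 | h0
    · have h1 : derivative Q = 0 := by
        rw [eq_C_of_natDegree_eq_zero h0, derivative_C]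
      rw [h1, mul_zero, coeff_zero, h0, Nat.cast_zero, zero_mul]
    · obtain ⟨d, hd⟩ : ∃ d, Q.natDegree = d + 1 := ⟨Q.natDegree - 1, by omega⟩
      have h3 : Q.natDegree + Q.natDegree = (d + 2) + d := by omega
      have h4 : (derivative Q).natDegree ≤ d := by
        have h := natDegree_derivative_le Q
        omega
      have h5 : P.natDegree ≤ d + 2 := by omega
      rw [h3, coeff_mul_add_eq_of_natDegree_le h5 h4, coeff_derivative]
      have h6 : P.coeff (d + 2) = 1 := by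
        rw [hd] at hP1
        exact hP1
      rw [h6, one_mul]
      unfold Polynomial.leadingCoeff
      rw [hd]
      push_cast
      ring
  rw [coeff_sub, h1, h2]
  ring

end ISO

open _root_.Pool.Agent.NSE.ISO in
/-- ISO. -/
theorem te_ISO (h1 : Se_ALG) (h2 : Se_PRO) (h3 : Se_PTS) (h4 : Se_TW3) (h5 : Se_UNT)
    (h6 : Se_RAT) : Se_ISO := by
  intro V L M u e lam u' e' lam' μ N hL hM hv hμ hI hN hz
  have hE : ∀ Y ∈ E3 L, μ * Y ∈ E3 M := by
    rintro Y ⟨hY3, hY⟩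
    refine ⟨?_, fun hmem => hY ?_⟩
    · have h7 := hI _ hY3
      rwa [mul_left_comm] at h7
    · have h7 := hz Y hmem
      have h8 : IsCoprime (3 : ℤ) (N : ℤ) := by
        rw [show (3 : ℤ) = ((3 : ℕ) : ℤ) by norm_num, Nat.isCoprime_iff_coprime]
        exact (Nat.Prime.coprime_iff_not_dvd Nat.prime_three).2 hN
      obtain ⟨a, b, hab⟩ := h8
      have h9 := add_mem (L.lattice.smul_mem a hY3) (L.lattice.smul_mem b h7)
      have h10 : a • (3 * Y) + b • ((N : ℂ) * Y) = Y := by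
        have h11 : (a : ℂ) * 3 + b * N = 1 := by exact_mod_cast hab
        rw [zsmul_eq_mul, zsmul_eq_mul]
        linear_combination Y * h11
      rwa [h10] at h9
  refine ⟨hE, ?_⟩
  have hν := h5 V L M u e lam u' e' lam' μ N hL hM hv hμ hI hN hz
  obtain ⟨P, Q, hP, hQ, hPm, hPQ, hQl, hPE⟩ := h6 V L M u e lam u' e' lam' μ N hL hM hv hμ hI hN hz
  set ν : ℂ := μ * u' / u with hνdef
  have hν0 : ν ≠ 0 := by
    intro h0
    rw [h0, map_zero] at hν
    exact zero_ne_one hν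
  have hpts := (h3 V L u e lam hL hv).1
  obtain ⟨hc, hs, hr, hch, -, hmul, hinv, -, -⟩ :=
    h1 V (E3 L) (su L u e) (ru L u e) (-(1 + lam)) lam hpts
  obtain ⟨hpol, -, -⟩ := h2 V (E3 L) (su L u e) (ru L u e) (-(1 + lam)) lam hpts
  -- exact change of representatives
  have hch0 : ∀ (F G : ℂ → ℂ) (α β α' β' : ℂ), Rep V (E3 L) (su L u e) (ru L u e) F α β →
      (∀ Y ∈ E3 L, G Y = F Y) → α' = α → β' = β →
      Rep V (E3 L) (su L u e) (ru L u e) G α' β' := by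
    intro F G α β α' β' hF hG ha hb
    refine hch F G α β α' β' hF hG ?_ ?_
    · rw [ha, sub_self, map_zero]
      exact zero_le
    · rw [hb, sub_self, map_zero]
      exact zero_le
  have hpR : ∀ (R : ℂ[X]) (n : ℕ), IntP V R → Rep V (E3 L) (su L u e) (ru L u e)
      (fun Y => (reflect n R).eval (su L u e Y)) (R.coeff n) 0 := by
    intro R n hR
    refine hch0 _ _ _ _ _ _ (hpol (su L u e) 0 0 (reflect n R) hs (intP_reflect n hR))
      (fun _ _ => rfl) ?_ ?_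
    · rw [eval_reflect_zero]
    · rw [zero_mul]
  have hP1 : P.coeff (Q.natDegree + 1) = 1 := by
    rw [← hPQ]
    exact hPm
  have rp := hpR P (Q.natDegree + 1) hP
  rw [hP1] at rp
  have rq := hpR Q Q.natDegree hQ
  have rw' := hpR (derivative P * Q - P * derivative Q) (Q.natDegree + Q.natDegree) (intP_W hP hQ)
  rw [coeff_W hPm hPQ, hQl] at rw'
  have hq0 : Q.coeff Q.natDegree = ν ^ 2 := hQl
  rw [hq0] at rq
  obtain ⟨hpu, rpi⟩ := hinv _ 1 0 rp (map_one _)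
  have rpi' : Rep V (E3 L) (su L u e) (ru L u e)
      (fun Y => ((reflect (Q.natDegree + 1) P).eval (su L u e Y))⁻¹) 1 0 := by
    refine hch0 _ _ _ _ _ _ rpi (fun _ _ => rfl) ?_ ?_
    · rw [inv_one]
    · rw [neg_zero, zero_div]
  have r1 := hmul _ _ _ _ _ _ hs (hmul _ _ _ _ _ _ rq rpi')
  have hνi : V.valuation ν⁻¹ ≤ 1 := by
    rw [map_inv₀, hν, inv_one]
  have r2 := hmul _ _ _ _ _ _ (hc ν⁻¹ hνi)
    (hmul _ _ _ _ _ _ hr (hmul _ _ _ _ _ _ rw' (hmul _ _ _ _ _ _ rpi' rpi')))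
  -- the identities
  have key : ∀ Y ∈ E3 L,
      su M u' e' (μ * Y) = su L u e Y * ((reflect Q.natDegree Q).eval (su L u e Y) *
        ((reflect (Q.natDegree + 1) P).eval (su L u e Y))⁻¹) ∧
      ru M u' e' (μ * Y) = ν⁻¹ * (ru L u e Y *
        ((reflect (Q.natDegree + Q.natDegree) (derivative P * Q - P * derivative Q)).eval
          (su L u e Y) * (((reflect (Q.natDegree + 1) P).eval (su L u e Y))⁻¹ *
            ((reflect (Q.natDegree + 1) P).eval (su L u e Y))⁻¹))) := by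
    intro Y hY
    obtain ⟨-, hx0, -⟩ := h4 V L u e lam hL hv Y hY
    obtain ⟨e1, e2⟩ := hPE Y (hE Y hY).2
    have hp1 := hpu Y hY
    have hPe := eval_reflect (P := P) (N := Q.natDegree + 1) hPQ.le hx0
    have hQe := eval_reflect (P := Q) (N := Q.natDegree) le_rfl hx0
    have hWe := eval_reflect (P := derivative P * Q - P * derivative Q) (deg_W hPQ) hx0
    have hsu : su L u e Y = (xu L u e Y)⁻¹ := rfl
    have hru : ru L u e Y = -yu L u Y / xu L u e Y ^ 2 := rfl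
    have hsu' : su M u' e' (μ * Y) = (xu M u' e' (μ * Y))⁻¹ := rfl
    have hru' : ru M u' e' (μ * Y) = -yu M u' (μ * Y) / xu M u' e' (μ * Y) ^ 2 := rfl
    rw [hsu] at hp1 ⊢
    rw [hru, hsu', hru']
    rw [hQe, hPe] at e1
    rw [hQe, hWe] at e2
    clear hPe hQe hWe hsu hru hsu' hru' r1 r2 rp rq rw' rpi rpi'
    generalize (reflect (Q.natDegree + 1) P).eval (xu L u e Y)⁻¹ = p at *
    generalize (reflect Q.natDegree Q).eval (xu L u e Y)⁻¹ = q at *
    generalize (reflect (Q.natDegree + Q.natDegree)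
      (derivative P * Q - P * derivative Q)).eval (xu L u e Y)⁻¹ = w at *
    generalize xu L u e Y = x at *
    generalize xu M u' e' (μ * Y) = x' at *
    generalize yu L u Y = y at *
    generalize yu M u' (μ * Y) = y' at *
    generalize Q.natDegree = d at *
    have hp0 : p ≠ 0 := by
      intro h0
      rw [h0, map_zero] at hp1
      exact zero_ne_one hp1
    have hxd : x ^ d ≠ 0 := pow_ne_zero _ hx0
    have e1' : x' * q = x * p := by
      apply mul_left_cancel₀ hxd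
      rw [pow_succ] at e1
      linear_combination e1
    have hx'0 : x' ≠ 0 := by
      rintro rfl
      rw [zero_mul] at e1'
      exact mul_ne_zero hx0 hp0 e1'.symm
    have hq0 : q ≠ 0 := by
      rintro rfl
      rw [mul_zero] at e1'
      exact mul_ne_zero hx0 hp0 e1'.symm
    have e2' : ν * y' * q ^ 2 = y * w := by
      apply mul_left_cancel₀ (mul_ne_zero hxd hxd)
      rw [pow_add] at e2
      linear_combination e2
    constructor
    · field_simp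
      linear_combination -e1'
    · have hx'e : x' = x * p / q := by
        field_simp
        exact e1'
      have hy'e : y' = y * w / (ν * q ^ 2) := by
        field_simp
        linear_combination e2'
      rw [hx'e, hy'e]
      field_simp
  refine ⟨?_, ?_⟩
  · refine hch0 _ _ _ _ _ _ r1 (fun Y hY => (key Y hY).1) ?_ ?_
    · rw [zero_mul]
    · ring
  · refine hch0 _ _ _ _ _ _ r2 (fun Y hY => (key Y hY).2) ?_ ?_
    · ring
    · field_simp
      ring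

end

end Pool.Agent.NSE


end

section

/-!
# MUX-NS, block EN, module GRN: the Legendre model has good reduction (helper2)

The proof of the group law is that of `Pool/Agent/MUX/R_XIC.lean`, in the scaled coordinates.
-/

set_option autoImplicit false

open Polynomial

namespace Pool.Agent.NSE

open _root_.MU3 _root_.Pool.Agent.MU3A _root_.Pool.Agent.MU3B _root_.Pool.Agent.MUX _root_.Pool.Agent.MUXU _root_.Pool.Agent.MUXE
open _root_.Pool.Agent.RI _root_.Pool.Agent.NS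
open _root_.Pool.Agent.MUXV (GR InK tX)

noncomputable section

namespace GRN

open WeierstrassCurve.Affine

theorem some_eq {W : WeierstrassCurve.Affine ℂ} {x y x' y' : ℂ} (h : W.Nonsingular x y)
    (h' : W.Nonsingular x' y') (hx : x = x') (hy : y = y') :
    Point.some x y h = Point.some x' y' h' := by
  subst hx hy
  rfl

/-- the group homomorphism in the coordinates `v² (℘ - c)`, `v³ ℘'/2` -/
theorem xi (L : PeriodPair) (c v : ℂ) (hv : v ≠ 0) (W : WeierstrassCurve.Affine ℂ)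
    (w1 : W.a₁ = 0) (w2 : W.a₂ = 3 * c * v ^ 2) (w3 : W.a₃ = 0)
    (w4 : W.a₄ = (3 * c ^ 2 - L.g₂ / 4) * v ^ 4)
    (w6 : W.a₆ = (c ^ 3 - L.g₂ / 4 * c - L.g₃ / 4) * v ^ 6) :
    ∃ ξ : ℂ →+ W.Point, (∀ z ∈ L.lattice, ξ z = 0) ∧
      ∀ z, z ∉ L.lattice → ∃ h, ξ z = .some ((L.weierstrassP z - c) * v ^ 2)
        (L.derivWeierstrassP z / 2 * v ^ 3) h := by
  classical
  set P : ℂ → ℂ := L.weierstrassP with hP
  set D : ℂ → ℂ := L.derivWeierstrassP with hD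
  -- the facts
  have hsq : ∀ z, z ∉ L.lattice → D z ^ 2 = 4 * P z ^ 3 - L.g₂ * P z - L.g₃ :=
    fun z hz => L.derivWeierstrassP_sq z hz
  have hpar : ∀ z, P (-z) = P z ∧ D (-z) = -D z := fun z =>
    ⟨L.weierstrassP_neg z, L.derivWeierstrassP_neg z⟩
  have hper : ∀ z, ∀ u ∈ L.lattice, P (z + u) = P z ∧ D (z + u) = D z := by
    intro z u hu
    exact ⟨L.weierstrassP_add_coe z ⟨u, hu⟩, L.derivWeierstrassP_add_coe z ⟨u, hu⟩⟩
  have hinj : ∀ z z', z ∉ L.lattice → z' ∉ L.lattice → P z = P z' →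
      z - z' ∈ L.lattice ∨ z + z' ∈ L.lattice := fun z z' hz hz' hx =>
    b_NEQ L z' z hz' hz hx
  have hy0 : ∀ z, z ∉ L.lattice → (D z = 0 ↔ 2 * z ∈ L.lattice) := fun z hz => b_ZER L z hz
  have hadd := b_ADD L
  have hdbl := b_DUP L
  have hv2 : v ^ 2 ≠ 0 := pow_ne_zero 2 hv
  have hv3 : v ^ 3 ≠ 0 := pow_ne_zero 3 hv
  have ns : ∀ z, z ∉ L.lattice → W.Nonsingular ((P z - c) * v ^ 2) (D z / 2 * v ^ 3) := by
    intro z hz
    rw [WeierstrassCurve.Affine.nonsingular_iff', WeierstrassCurve.Affine.equation_iff, w1, w2, w3,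
      w4, w6]
    refine ⟨by linear_combination (v ^ 6 / 4) * hsq z hz, ?_⟩
    by_contra hcon
    rw [not_or, not_not, not_not] at hcon
    obtain ⟨hx, hy⟩ := hcon
    have h1 := hsq z hz
    have h2 : D z = 0 := by
      apply mul_left_cancel₀ hv3
      linear_combination hy
    rw [h2] at h1
    have e2 : L.g₂ = 12 * P z ^ 2 := by
      apply mul_left_cancel₀ (pow_ne_zero 4 hv)
      linear_combination 4 * hx
    have e3 : L.g₃ = -8 * P z ^ 3 := by
      linear_combination h1 - P z * e2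
    apply (b_DSC L).1
    rw [e2, e3]
    ring
  set f : ℂ → W.Point := fun z => if h : z ∈ L.lattice then 0 else Point.some _ _ (ns z h) with hf
  have hf0 : ∀ z, z ∈ L.lattice → f z = 0 := fun z hz => dif_pos hz
  have hf1 : ∀ z (hz : z ∉ L.lattice), f z = Point.some _ _ (ns z hz) := fun z hz => dif_neg hz
  have hfper : ∀ z, ∀ u ∈ L.lattice, f (z + u) = f z := by
    intro z u hu
    by_cases hz : z ∈ L.lattice
    · rw [hf0 z hz, hf0 _ (add_mem hz hu)]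
    · have hzu : z + u ∉ L.lattice := fun h => hz (by
        have := sub_mem h hu
        rwa [add_sub_cancel_right] at this)
      rw [hf1 z hz, hf1 _ hzu]
      exact some_eq _ _ (by rw [(hper z u hu).1]) (by rw [(hper z u hu).2])
  have hnegY : ∀ x y : ℂ, W.negY x y = -y := by
    intro x y
    rw [WeierstrassCurve.Affine.negY, w1, w3]
    ring
  have hmap : ∀ z z', f (z + z') = f z + f z' := by
    intro z z'
    by_cases hz : z ∈ L.lattice
    · rw [hf0 z hz, zero_add, add_comm z z', hfper z' z hz]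
    by_cases hz' : z' ∈ L.lattice
    · rw [hf0 z' hz', add_zero, hfper z z' hz']
    by_cases hzz : z + z' ∈ L.lattice
    · rw [hf0 _ hzz, hf1 z hz, hf1 z' hz']
      have e : z = -z' + (z + z') := by ring
      have hx : P z = P z' := by
        rw [e, (hper (-z') _ hzz).1, (hpar z').1]
      have hy : D z = -D z' := by
        rw [e, (hper (-z') _ hzz).2, (hpar z').2]
      exact (Point.add_of_Y_eq (by rw [hx]) (by rw [hnegY, hy]; ring)).symm
    by_cases hzd : z - z' ∈ L.lattice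
    · have e1 : f z' = f z := by
        have := hfper z' _ hzd
        rw [← this]
        congr 1
        ring
      have e2 : f (z + z') = f (2 * z) := by
        have := hfper (z + z') _ hzd
        rw [← this]
        congr 1
        ring
      have h2z : 2 * z ∉ L.lattice := by
        intro h
        apply hzz
        have := sub_mem h hzd
        have e : z + z' = 2 * z - (z - z') := by ring
        rwa [e]
      have hy : D z ≠ 0 := fun h => h2z ((hy0 z hz).1 h)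
      have hyne : D z / 2 * v ^ 3 ≠ W.negY ((P z - c) * v ^ 2) (D z / 2 * v ^ 3) := by
        rw [hnegY]
        intro h0
        apply hy
        apply mul_left_cancel₀ hv3
        linear_combination h0
      rw [e1, e2, hf1 z hz, hf1 _ h2z, Point.add_self_of_Y_ne hyne]
      have hsl : W.slope ((P z - c) * v ^ 2) ((P z - c) * v ^ 2) (D z / 2 * v ^ 3)
          (D z / 2 * v ^ 3) = (6 * P z ^ 2 - L.g₂ / 2) / (2 * D z) * v := by
        rw [WeierstrassCurve.Affine.slope_of_Y_ne rfl hyne, hnegY, w1, w2, w4]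
        have h3 : D z / 2 * v ^ 3 - -(D z / 2 * v ^ 3) = D z * v ^ 3 := by ring
        rw [h3]
        field_simp
        ring
      obtain ⟨hd1, hd2⟩ := hdbl z h2z
      have hX : W.addX ((P z - c) * v ^ 2) ((P z - c) * v ^ 2)
          (W.slope ((P z - c) * v ^ 2) ((P z - c) * v ^ 2) (D z / 2 * v ^ 3)
          (D z / 2 * v ^ 3)) = (P (2 * z) - c) * v ^ 2 := by
        rw [WeierstrassCurve.Affine.addX, hsl, w1, w2]
        linear_combination -(v ^ 2) * hd1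
      apply some_eq
      · exact hX.symm
      · rw [WeierstrassCurve.Affine.addY, WeierstrassCurve.Affine.negAddY, hnegY, hX, hsl]
        linear_combination (v ^ 3 / 2) * hd2
    · have hxne : P z ≠ P z' := by
        intro h
        rcases hinj z z' hz hz' h with h3 | h3
        · exact hzd h3
        · exact hzz h3
      have hxne' : (P z - c) * v ^ 2 ≠ (P z' - c) * v ^ 2 := fun h => hxne (by
        have := mul_right_cancel₀ hv2 h
        linear_combination this)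
      rw [hf1 z hz, hf1 z' hz', hf1 _ hzz, Point.add_of_X_ne hxne']
      have hsl : W.slope ((P z - c) * v ^ 2) ((P z' - c) * v ^ 2) (D z / 2 * v ^ 3)
          (D z' / 2 * v ^ 3) = (D z - D z') / (2 * (P z - P z')) * v := by
        rw [WeierstrassCurve.Affine.slope_of_X_ne hxne']
        have h3 : P z - P z' ≠ 0 := sub_ne_zero.2 hxne
        have h4 : (P z - c) * v ^ 2 - (P z' - c) * v ^ 2 = (P z - P z') * v ^ 2 := by ring
        rw [h4]
        field_simp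
      obtain ⟨ha1, ha2⟩ := hadd z' z hz' hz hzz hzd
      have hX : W.addX ((P z - c) * v ^ 2) ((P z' - c) * v ^ 2)
          (W.slope ((P z - c) * v ^ 2) ((P z' - c) * v ^ 2) (D z / 2 * v ^ 3)
          (D z' / 2 * v ^ 3)) = (P (z + z') - c) * v ^ 2 := by
        rw [WeierstrassCurve.Affine.addX, hsl, w1, w2]
        linear_combination -(v ^ 2) * ha1
      apply some_eq
      · exact hX.symm
      · rw [WeierstrassCurve.Affine.addY, WeierstrassCurve.Affine.negAddY, hnegY, hX, hsl]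
        linear_combination (v ^ 3 / 2) * ha2
  exact ⟨⟨⟨f, hf0 0 L.lattice.zero_mem⟩, hmap⟩, fun z hz => hf0 z hz,
    fun z hz => ⟨ns z hz, hf1 z hz⟩⟩

end GRN

/-- (GRN) the Legendre model has good reduction -/
theorem te_GRN (h : Se_COE) : Se_GRN := by
  intro V L u e lam hG h3
  obtain ⟨e1, e2, e3, v2, vl, vl1, -, -, -⟩ := h V L u e lam hG h3
  have hu := hG.u0
  have c1 : (WL lam).a₁ = 0 := rfl
  have c2 : (WL lam).a₂ = -(1 + lam) := rfl
  have c3 : (WL lam).a₃ = 0 := rfl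
  have c4 : (WL lam).a₄ = lam := rfl
  have c6 : (WL lam).a₆ = 0 := rfl
  have hui : u⁻¹ ≠ 0 := inv_ne_zero hu
  have huu : u * u⁻¹ = 1 := mul_inv_cancel₀ hu
  obtain ⟨ξ, h0, h1⟩ := GRN.xi L e u⁻¹ hui (WL lam) c1
    (by
      rw [c2]
      field_simp
      linear_combination -e1)
    c3
    (by
      rw [c4, e2]
      field_simp
      ring)
    (by
      rw [c6, e3]
      ring)
  have v2' : V.valuation (2 : ℂ) = 1 := v2
  refine ⟨ξ, ⟨rfl, rfl, ?_, ?_, ?_⟩, v2', ?_, fun z hz => ?_, h0⟩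
  · rw [c2, Valuation.map_neg]
    refine (V.valuation.map_add _ _).trans ?_
    rw [map_one, vl, max_self]
  · rw [c4, vl]
  · rw [c6, map_zero]; exact zero_le_one
  · have hD : (WL lam).Δ = 2 * 2 * 2 * 2 * (lam * lam) * ((1 - lam) * (1 - lam)) := by
      unfold WeierstrassCurve.Δ WeierstrassCurve.b₂ WeierstrassCurve.b₄ WeierstrassCurve.b₆
        WeierstrassCurve.b₈
      rw [c1, c2, c3, c4, c6]
      ring
    rw [hD]
    simp only [map_mul, v2', vl, vl1, mul_one]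
  · obtain ⟨hn, hx⟩ := h1 z hz
    have g1 : (L.weierstrassP z - e) * u⁻¹ ^ 2 = xu L u e z := by
      unfold xu
      field_simp
    have g2 : L.derivWeierstrassP z / 2 * u⁻¹ ^ 3 = yu L u z := by
      unfold yu
      field_simp
    have hn' : (WL lam).Nonsingular (xu L u e z) (yu L u z) := by
      rw [← g1, ← g2]; exact hn
    exact ⟨hn', hx.trans (GRN.some_eq _ _ g1 g2)⟩

end

end Pool.Agent.NSE


end

section

/-!
# MUX-NS, block EN, module CTX: from the standing hypotheses to `CtxN`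
-/

set_option autoImplicit false

namespace Pool.Agent.NSE

open _root_.MU3 _root_.Pool.Agent.MU3A _root_.Pool.Agent.MU3B _root_.Pool.Agent.MUX _root_.Pool.Agent.MUXU _root_.Pool.Agent.MUXE
open _root_.Pool.Agent.RI _root_.Pool.Agent.NS

noncomputable section

namespace CtxNaux

variable {A B : ℤ}

lemma mem_idl (m : ℕ) (x : OO A B) :
    x ∈ idl (A := A) (B := B) m ↔ (m : ℤ) ∣ x.re ∧ (m : ℤ) ∣ x.im := by
  rw [Ideal.mem_span_singleton]
  constructor
  · rintro ⟨t, rfl⟩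
    refine ⟨⟨t.re, ?_⟩, ⟨t.im, ?_⟩⟩
    · rw [QuadraticAlgebra.re_mul]; simp
    · rw [QuadraticAlgebra.im_mul]; simp
  · rintro ⟨⟨s, hs⟩, ⟨t, ht⟩⟩
    refine ⟨⟨s, t⟩, ?_⟩
    apply QuadraticAlgebra.ext
    · rw [QuadraticAlgebra.re_mul]; simp [hs]
    · rw [QuadraticAlgebra.im_mul]; simp [ht]

lemma emb_nat (h : CQ A B) (n : ℕ) : emb ((n : ℕ) : OO A B) = (n : ℂ) := by
  rw [← RNGaux.eH_apply h, map_natCast]

lemma sq_mod {a b : ℤ} (h : (3 : ℤ) ∣ a ^ 2 + b ^ 2) : (3 : ℤ) ∣ a ∧ (3 : ℤ) ∣ b := by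
  have h1 : a % 3 = 0 ∨ a % 3 = 1 ∨ a % 3 = 2 := by omega
  have h2 : b % 3 = 0 ∨ b % 3 = 1 ∨ b % 3 = 2 := by omega
  have h3 : (a ^ 2 + b ^ 2) % 3 = ((a % 3) ^ 2 + (b % 3) ^ 2) % 3 :=
    ((Int.mod_modEq a 3).symm.pow 2).add ((Int.mod_modEq b 3).symm.pow 2)
  have h4 : (a ^ 2 + b ^ 2) % 3 = 0 := Int.emod_eq_zero_of_dvd h
  rw [h4] at h3
  rcases h1 with h1 | h1 | h1 <;> rcases h2 with h2 | h2 | h2 <;> rw [h1, h2] at h3 <;>
    first
      | exact ⟨Int.dvd_of_emod_eq_zero h1, Int.dvd_of_emod_eq_zero h2⟩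
      | (exfalso; revert h3; decide)

lemma nrm (h : (3 : ℤ) ∣ B ^ 2 + 4 * A + 1) {x : OO A B}
    (hx : x ∉ idl (A := A) (B := B) 3) : ¬ (3 : ℤ) ∣ nm x := by
  intro h1
  apply hx
  have h2 := RNGaux.four_nm x
  have h3 : (3 : ℤ) ∣ (2 * x.re + B * x.im) ^ 2 + x.im ^ 2 := by
    have h4 : (2 * x.re + B * x.im) ^ 2 + x.im ^ 2 =
        4 * nm x + (B ^ 2 + 4 * A + 1) * x.im ^ 2 := by
      rw [h2]
      unfold absD
      ring
    rw [h4]
    exact dvd_add (h1.mul_left _) (h.mul_right _)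
  obtain ⟨h4, h5⟩ := sq_mod h3
  rw [mem_idl]
  refine ⟨?_, by exact_mod_cast h5⟩
  have h6 : (3 : ℤ) ∣ 2 * x.re := (dvd_add_left (h5.mul_left B)).1 h4
  have h7 : (3 : ℤ) ∣ x.re := by omega
  exact_mod_cast h7

lemma maxi (h : (3 : ℤ) ∣ B ^ 2 + 4 * A + 1) : (idl (A := A) (B := B) 3).IsMaximal := by
  rw [Ideal.isMaximal_iff]
  refine ⟨?_, ?_⟩
  · intro h1
    rw [mem_idl] at h1
    have h2 := h1.1
    rw [QuadraticAlgebra.re_one] at h2
    norm_num at h2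
  · intro J x hJ hx hxJ
    have h1 : IsCoprime (nm x) (3 : ℤ) :=
      isCoprime_comm.1 ((Int.prime_three.coprime_iff_not_dvd).2 (nrm h hx))
    obtain ⟨u, v, huv⟩ := h1
    have h2 : ((nm x : ℤ) : OO A B) ∈ J := by
      rw [← RNGaux.mul_star']
      exact J.mul_mem_right _ hxJ
    have h3 : ((3 : ℕ) : OO A B) ∈ J := hJ (Ideal.mem_span_singleton_self _)
    have h4 := congrArg (Int.cast : ℤ → OO A B) huv
    push_cast at h4
    rw [← h4]
    refine J.add_mem (J.mul_mem_left _ h2) (J.mul_mem_left _ ?_)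
    simpa using h3

lemma val_le (h : CQ A B) (V : ValuationSubring ℂ) (x : OO A B) : V.valuation (emb x) ≤ 1 := by
  rw [ValuationSubring.valuation_le_one_iff]
  have h1 : IsIntegral V (emb x) := (RNGaux.emb_int h x).tower_top
  obtain ⟨y, hy⟩ := IsIntegrallyClosed.isIntegral_iff.1 h1
  rw [← hy]
  exact y.2

lemma val_unit (h : CQ A B) {V : ValuationSubring ℂ} (hV : OverI V (idl (A := A) (B := B) 3))
    {x : OO A B} (hx : x ∉ idl (A := A) (B := B) 3) : V.valuation (emb x) = 1 := by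
  refine le_antisymm (val_le h V x) (not_lt.1 fun h1 => hx ((hV x).1 ?_))
  exact (ValuationSubring.mem_nonunits_iff V).2 h1

lemma val_emb (h : CQ A B) {V : ValuationSubring ℂ} (hV : OverI V (idl (A := A) (B := B) 3)) :
    ∀ (n : ℕ) (x : OO A B), x ≠ 0 → (nm x).toNat ≤ n →
      ∃ j : ℕ, V.valuation (emb x) = V.valuation (3 : ℂ) ^ j := by
  intro n
  induction n with
  | zero =>
    intro x hx hn
    have := RNGaux.nm_pos h hx
    omega
  | succ n ih =>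
    intro x hx hn
    by_cases h3 : x ∈ idl (A := A) (B := B) 3
    · obtain ⟨y, hy⟩ := Ideal.mem_span_singleton.1 h3
      have hy0 : y ≠ 0 := by
        rintro rfl
        rw [mul_zero] at hy
        exact hx hy
      have hnm : nm x = 9 * nm y := by
        have h4 : ((3 : ℕ) : OO A B).re = 3 := QuadraticAlgebra.re_natCast 3
        have h5 : ((3 : ℕ) : OO A B).im = 0 := QuadraticAlgebra.im_natCast 3
        rw [hy]
        unfold nm
        rw [QuadraticAlgebra.re_mul, QuadraticAlgebra.im_mul, h4, h5]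
        ring
      have hpos := RNGaux.nm_pos h hy0
      obtain ⟨j, hj⟩ := ih y hy0 (by omega)
      refine ⟨j + 1, ?_⟩
      rw [hy, ← RNGaux.eH_apply h, map_mul, RNGaux.eH_apply h, RNGaux.eH_apply h, emb_nat h,
        map_mul, hj, pow_succ, mul_comm]
      norm_num
    · exact ⟨0, by rw [pow_zero, val_unit h hV h3]⟩

lemma alg_kk (h : CQ A B) (y : ℂ) (hy : y ∈ kk A B) : IsAlgebraic ℤ y := by
  have h1 : Algebra.IsAlgebraic ℚ (kk A B) :=
    IntermediateField.isAlgebraic_adjoin_simple (RNGaux.w_intQ h)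
  have h2 : IsAlgebraic ℚ y := by
    have h3 := h1.isAlgebraic ⟨y, hy⟩
    exact h3.algebraMap
  exact (IsFractionRing.isAlgebraic_iff ℤ ℚ ℂ).2 h2

end CtxNaux

open _root_.Pool.Agent.NSE.CtxNaux in
/-- (CTX) from the standing hypotheses to `CtxN` -/
theorem te_CTX : Se_CTX := by
  intro A B V hC hV hT hF
  obtain ⟨hF1, hF2⟩ := hF A B V hC hV hT
  have h := hC.toCQ
  have hv3 : V.valuation (3 : ℂ) < 1 := by
    have h1 := (hV ((3 : ℕ) : OO A B)).2 (Ideal.mem_span_singleton_self _)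
    rw [ValuationSubring.mem_nonunits_iff, emb_nat h] at h1
    exact_mod_cast h1
  have hv0 : V.valuation (3 : ℂ) ≠ 0 := by
    rw [Valuation.ne_zero_iff]
    norm_num
  have hR : RingE A B := te_RNG A B h
  refine
    { ring := hR
      cq := h
      v3 := hv3
      int := val_le h V
      unit := fun x hx => val_unit h hV hx
      nat := ?_
      max := maxi hC.three
      nrm := fun x hx => nrm hC.three hx
      kval := ?_
      good := ?_
      iner := hF2 }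
  · intro n hn
    rw [← emb_nat h]
    refine val_unit h hV fun h1 => hn ?_
    rw [mem_idl] at h1
    have h2 := h1.1
    rw [QuadraticAlgebra.re_natCast] at h2
    exact_mod_cast h2
  · intro y hy hy0
    obtain ⟨n, hn, hint⟩ := (alg_kk h y hy).exists_integral_multiple
    have hnk : n • y ∈ kk A B := zsmul_mem hy n
    obtain ⟨x, hx⟩ := (hR.int _ hnk).1 hint
    have hnC : (n : ℂ) ≠ 0 := by exact_mod_cast hn
    have hxe : (n : ℂ) * y = emb x := by
      rw [← hx, zsmul_eq_mul]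
    have hx0 : x ≠ 0 := by
      rintro rfl
      rw [← RNGaux.eH_apply h, map_zero] at hxe
      exact mul_ne_zero hnC hy0 hxe
    have hne : emb ((n : ℤ) : OO A B) = (n : ℂ) := by
      rw [← RNGaux.eH_apply h, map_intCast]
    have hn0 : ((n : ℤ) : OO A B) ≠ 0 := by
      intro h0
      rw [h0, ← RNGaux.eH_apply h, map_zero] at hne
      exact hnC hne.symm
    obtain ⟨j, hj⟩ := val_emb h hV _ x hx0 le_rfl
    obtain ⟨i, hi⟩ := val_emb h hV _ ((n : ℤ) : OO A B) hn0 le_rfl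
    rw [hne] at hi
    have h2 := congrArg V.valuation hxe
    rw [map_mul, hi, hj] at h2
    refine ⟨(j : ℤ) - i, ?_⟩
    rw [zpow_sub₀ hv0, zpow_natCast, zpow_natCast, ← h2]
    field_simp
  · rintro L ⟨b, om, hL⟩
    obtain ⟨u, e, lam, h1, -⟩ := hF1 b L om hL
    exact ⟨u, e, lam, h1⟩

end

end Pool.Agent.NSE


end

section

/-!
# MUX-NS, block EN, module ADD: addition of a point of order three (helper42)
-/

set_option autoImplicit false

open Polynomial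

namespace Pool.Agent.NSE

open _root_.MU3 _root_.Pool.Agent.MU3A _root_.Pool.Agent.MU3B _root_.Pool.Agent.MUX _root_.Pool.Agent.MUXU _root_.Pool.Agent.MUXE
open _root_.Pool.Agent.RI _root_.Pool.Agent.NS
open _root_.Pool.Agent.MUXV (GR InK tX)

noncomputable section

namespace AddE

lemma intP_quad {V : ValuationSubring ℂ} {a b c : ℂ} (ha : V.valuation a ≤ 1)
    (hb : V.valuation b ≤ 1) (hc : V.valuation c ≤ 1) : IntP V (C a + C b * X + C c * X ^ 2) := by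
  intro i
  rcases i with _ | _ | _ | i
  · simpa using ha
  · simpa [coeff_X, coeff_C] using hb
  · simpa [coeff_X, coeff_C] using hc
  · simp

/-- a function `A(s) + r c` with `A` of degree at most two -/
lemma rep_quad {V : ValuationSubring ℂ} {S : Set ℂ} {s r F : ℂ → ℂ} {a b c d : ℂ}
    (ha : V.valuation a ≤ 1) (hb : V.valuation b ≤ 1) (hc : V.valuation c ≤ 1)
    (hd : V.valuation d ≤ 1)
    (hF : ∀ Y ∈ S, F Y = a + b * s Y + c * s Y ^ 2 + r Y * d) : Rep V S s r F a d := by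
  refine ⟨C a + C b * X + C c * X ^ 2, C d, intP_quad ha hb hc, ?_, ?_, ?_, ?_⟩
  · intro i
    rw [coeff_C]
    split_ifs
    · exact hd
    · simp
  · intro Y hY
    rw [hF Y hY]
    simp
  · simp
  · simp

end AddE

open _root_.Pool.Agent.NSE.AddE

/-- the module ADD -/
theorem te_ADD (h1 : Se_ALG) (h2 : Se_COE) (h3 : Se_GRN) (h4 : Se_TW3) (h5 : Se_PTS) :
    Se_ADD := by
  intro V L u e lam hG h30 z hz
  obtain ⟨ξ, G⟩ := h3 V L u e lam hG h30
  obtain ⟨c1, -, -, c2, c3, -, c4, -, -⟩ := h2 V L u e lam hG h30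
  obtain ⟨hP, -⟩ := h5 V L u e lam hG h30
  obtain ⟨-, -, -, a4, -, a6, a7, -, -⟩ := h1 V (E3 L) (su L u e) (ru L u e) _ _ hP
  obtain ⟨hzL, hx⟩ := Pool.Agent.MUXV.int_X hz
  have hy := Pool.Agent.MUXV.int_Y G hz
  have hu := hG.u0
  have hl : V.valuation lam ≤ 1 := c3.le
  have ha2 : V.valuation (-(1 + lam)) ≤ 1 := by
    rw [Valuation.map_neg]
    exact hG.lam1.trans h30.le
  set x := xu L u e z with hxdef
  set y := yu L u z with hydef
  have h2x : V.valuation (2 * (-(1 + lam)) * x) ≤ 1 := by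
    rw [map_mul, map_mul, c2, one_mul]
    exact mul_le_one' ha2 hx
  have hxx : V.valuation (x ^ 2) ≤ 1 := by
    rw [map_pow]
    exact pow_le_one₀ zero_le hx
  -- numerator and denominator
  have hN : Rep V (E3 L) (su L u e) (ru L u e)
      (fun Y => x + (x ^ 2 + lam + 2 * (-(1 + lam)) * x) * su L u e Y + (lam * x) * su L u e Y ^ 2 +
        ru L u e Y * (2 * y)) x (2 * y) := by
    refine rep_quad hx ?_ ?_ ?_ fun Y _ => rfl
    · exact V.valuation.map_add_le (V.valuation.map_add_le hxx hl) h2x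
    · rw [map_mul]
      exact mul_le_one' hl hx
    · rw [map_mul, c2, one_mul]
      exact hy
  have hD : Rep V (E3 L) (su L u e) (ru L u e) (fun Y => (1 - su L u e Y * x) ^ 2) 1 0 := by
    refine rep_quad (b := -(2 * x)) (c := x ^ 2) (by simp) ?_ hxx (by simp) fun Y _ => ?_
    · rw [Valuation.map_neg, map_mul, c2, one_mul]
      exact hx
    · ring
  obtain ⟨d1, d2⟩ := a7 _ _ _ hD (by simp)
  have hM := a6 _ _ _ _ _ _ hN d2
  refine a4 _ _ _ _ _ _ hM ?_ (by simp) (by simp)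
  intro Y hY
  obtain ⟨t1, t2, -⟩ := h4 V L u e lam hG h30 Y hY
  have hYL : Y ∉ L.lattice := hY.2
  have hzp : z + Y ∉ L.lattice := fun h => hz (by
    have := Pool.Agent.MUXV.inK_sub G (Pool.Agent.MUXV.inK_of_mem h) t1
    rwa [add_sub_cancel_right] at this)
  have hzm : z - Y ∉ L.lattice := fun h => hz (by
    have := Pool.Agent.MUXV.inK_add G (Pool.Agent.MUXV.inK_of_mem h) t1
    rwa [sub_add_cancel] at this)
  have hadd := (b_ADD L Y z hYL hzL hzp hzm).1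
  have hxY : xu L u e Y ∉ V := t1.resolve_left hYL
  have hne : x - xu L u e Y ≠ 0 := by
    intro h
    apply hxY
    rw [← sub_eq_zero.1 h]
    exact (ValuationSubring.valuation_le_one_iff _ _).1 hx
  have e1 : ∀ w, L.weierstrassP w = u ^ 2 * xu L u e w + e := by
    intro w
    unfold xu
    field_simp
    ring
  have e2 : ∀ w, L.derivWeierstrassP w = 2 * u ^ 3 * yu L u w := by
    intro w
    unfold yu
    field_simp
  rw [e1 (z + Y), e1 z, e1 Y, e2 z, e2 Y, ← hxdef, ← hydef] at hadd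
  have k1 := c4 z hzL
  have k2 := c4 Y hYL
  rw [← hxdef, ← hydef] at k1
  have hD1 : (1 - su L u e Y * x) ^ 2 ≠ 0 := by
    intro h
    have := d1 Y hY
    simp only [h, map_zero] at this
    exact zero_ne_one this
  show xu L u e (z + Y) = _ * ((1 - su L u e Y * x) ^ 2)⁻¹
  rw [eq_mul_inv_iff_mul_eq₀ hD1]
  unfold su ru
  set X' := xu L u e Y with hX'
  set Y' := yu L u Y with hY'
  set W := xu L u e (z + Y) with hW
  have hm : (2 * u ^ 3 * y - 2 * u ^ 3 * Y') / (2 * (u ^ 2 * x + e - (u ^ 2 * X' + e))) =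
      u * ((y - Y') / (x - X')) := by
    have : u ^ 2 * x + e - (u ^ 2 * X' + e) = u ^ 2 * (x - X') := by ring
    rw [this]
    field_simp
  rw [hm] at hadd
  have k3 : (W + x + X' - (1 + lam)) * (x - X') ^ 2 = (y - Y') ^ 2 := by
    have h6 : u ^ 2 * ((W + x + X' - (1 + lam)) * (x - X') ^ 2) = u ^ 2 * (y - Y') ^ 2 := by
      have h7 : u ^ 2 * (W + x + X' - (1 + lam)) = (u * ((y - Y') / (x - X'))) ^ 2 := by
        linear_combination hadd - c1
      calc u ^ 2 * ((W + x + X' - (1 + lam)) * (x - X') ^ 2)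
          = (u ^ 2 * (W + x + X' - (1 + lam))) * (x - X') ^ 2 := by ring
        _ = (u * ((y - Y') / (x - X'))) ^ 2 * (x - X') ^ 2 := by rw [h7]
        _ = u ^ 2 * (y - Y') ^ 2 := by field_simp
    exact mul_left_cancel₀ (pow_ne_zero 2 hu) h6
  field_simp
  linear_combination k3 + k1 + k2

end

end Pool.Agent.NSE


end

section

/-!
# MUX-NS, block ER, module SIG: `Y ↦ σ_Y(w)` for `w` in the ray class field, ramified case
-/

set_option autoImplicit false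

open Polynomial

namespace Pool.Agent.ME3

open _root_.MU3 _root_.Pool.Agent.MU3A _root_.Pool.Agent.MU3B _root_.Pool.Agent.MUX _root_.Pool.Agent.MUXU _root_.Pool.Agent.MUXE
open _root_.Pool.Agent.RI _root_.Pool.Agent.NS _root_.Pool.Agent.NSRD
open _root_.Pool.Agent.ME hiding ActE
open _root_.Pool.Agent.MEE
open _root_.Pool.Agent.NSER (PtsR Ex Sf_ALG Sf_PRO Sf_PUL Sf_COE Sf_GRN Sf_LEG Sf_TW3 Sf_PTS Sf_TNC Sf_UNT Sf_RAT Sf_ISO Sf_ADD Sf_THN Sf_NE1 Sf_ORB)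
open _root_.Pool.Agent.MUXV (GR InK tX)
open _root_.Pool.Agent.NSE (E3 su ru WL IntP Rep)

noncomputable section

namespace SIG

variable {A B : ℤ}

/-- polynomials over `V` -/
theorem intP_iff {V : ValuationSubring ℂ} {P : ℂ[X]} :
    IntP V P ↔ P ∈ Polynomial.liftsRing (algebraMap V ℂ) := by
  rw [← Polynomial.lifts_iff_liftsRing, Polynomial.lifts_iff_coeff_lifts]
  refine forall_congr' fun i => ?_
  rw [ValuationSubring.valuation_le_one_iff]
  constructor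
  · intro h
    exact ⟨⟨_, h⟩, rfl⟩
  · rintro ⟨c, hc⟩
    rw [← hc]
    exact c.2

theorem _root_.Pool.Agent.ME3.SIG.intP_sum {V : ValuationSubring ℂ} {N : ℕ} (a : Fin N → ℂ) (c : ℂ)
    (ha : ∀ i, V.valuation (a i) ≤ 1) (hc : V.valuation c ≤ 1) :
    IntP V (∑ i, C (a i) * (X - C c) ^ (i : ℕ)) := by
  have hC : ∀ b : ℂ, V.valuation b ≤ 1 → C b ∈ Polynomial.liftsRing (algebraMap V ℂ) := by
    intro b hb
    rw [← intP_iff]
    intro i
    rw [coeff_C]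
    split_ifs
    · exact hb
    · rw [map_zero]; exact zero_le
  rw [intP_iff]
  refine sum_mem fun i _ => mul_mem (hC _ (ha i)) (pow_mem (sub_mem ?_ (hC _ hc)) _)
  rw [← intP_iff]
  intro i
  rw [coeff_X]
  split_ifs
  · rw [map_one]
  · rw [map_zero]; exact zero_le

end SIG

open _root_.Pool.Agent.ME3.SIG in
theorem t3_SIG (h1 : Sf_ALG) (h2 : Sf_PRO) (h5 : Sf_PTS) (h7 : Sf_ADD) (h8 : S3_UNI)
    (h9 : S3_RP1) (h10 : S3_IDL) : S3_SIG := by
  intro A B P V hC hT hG N u e lam hN hgood n f a hf h2f h3f ha h3a z₁ hz₁ w hw hvw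
  have hR := hC.ring
  obtain ⟨φ, hφ⟩ := hR.hom
  have hmul : ∀ x y : OO A B, emb (x * y) = emb x * emb y := fun x y => by
    rw [← hφ, map_mul, hφ, hφ]
  have hsub : ∀ x y : OO A B, emb (x - y) = emb x - emb y := fun x y => by
    rw [← hφ, map_sub, hφ, hφ]
  have hone : emb (1 : OO A B) = 1 := by rw [← hφ, map_one]
  have hv3 := hC.v3
  have hf0 : f ≠ 0 := by omega
  obtain ⟨P₀, k, hP₀, hfP₀, hP₀L, h2P₀, -, -, hP₀E, -, hz₁E, -, hx0M, -, -, hexp⟩ :=
    h8 A B P V hC hT hG N u e lam hN hgood n f a hf h2f h3f ha h3a z₁ hz₁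
  obtain ⟨hu2M, heM, -⟩ := h9 A B P V hC hG N u e lam hN hgood
  obtain ⟨-, -, -, -, hidl⟩ := h10 A B P V hC
  obtain ⟨-, -, hmle, -, -, -, -⟩ := hidl f n hf0
  -- the fields
  have hmm : idl (A := A) (B := B) (3 ^ (n + 1) * f * a) ≤ idl (f * a) := by
    rw [Ideal.span_singleton_le_span_singleton]
    refine ⟨((3 ^ (n + 1) : ℕ) : OO A B), ?_⟩
    push_cast; ring
  have hmf : idl (A := A) (B := B) (3 ^ (n + 1) * f * a) ≤ idl (3 ^ (n + 1) * f) := by
    rw [Ideal.span_singleton_le_span_singleton]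
    refine ⟨(a : OO A B), ?_⟩
    push_cast; ring
  have hm2 : idl (A := A) (B := B) (f * a) ≤ idl 2 := by
    obtain ⟨f', rfl⟩ := h2f
    rw [Ideal.span_singleton_le_span_singleton]
    refine ⟨((f' * a : ℕ) : OO A B), ?_⟩
    push_cast; ring
  obtain ⟨c1, c2, c3, c4, c5⟩ := Pool.Agent.MEE.tm_FAC Pool.Agent.MEE.tm_TRA A B hR
  have hle := c1 _ _ hmm
  have huM : u ^ 2 ∈ RFE (idl (A := A) (B := B) (f * a)) := c1 _ _ hm2 hu2M
  have heM : e ∈ RFE (idl (A := A) (B := B) (f * a)) := c1 _ _ hm2 heM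
  obtain ⟨hP, -⟩ := h5 V N u e lam hgood hv3
  -- torsion
  have hTor : Tor (idl (A := A) (B := B) (3 ^ (n + 1) * f * a)) N z₁ := by
    intro x hx
    exact (hz₁ x).2 (hmle (hmf hx))
  have hz₁L : z₁ ∉ N.lattice := fun h => hz₁E (Or.inl h)
  have hPM : xnE N z₁ ∈ RFE (idl (A := A) (B := B) (3 ^ (n + 1) * f * a)) :=
    (c2 _ N hN).2 _ hTor hz₁L
  have hxx : ∀ z : ℂ, xu N u e z = (xnE N z + ((0 : ℚ) : ℂ) - e) / u ^ 2 := by
    intro z; unfold xu xnE; push_cast; ring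
  have hxPM : xu N u e z₁ ∈ RFE (idl (A := A) (B := B) (3 ^ (n + 1) * f * a)) := by
    rw [hxx]
    exact div_mem (sub_mem (add_mem hPM (SubfieldClass.ratCast_mem _ _)) (hle heM)) (hle huM)
  obtain ⟨π, hπ⟩ : ∃ z, z = xu N u e z₁ - xu N u e P₀ := ⟨_, rfl⟩
  have hπM : π ∈ RFE (idl (A := A) (B := B) (3 ^ (n + 1) * f * a)) := by
    rw [hπ]; exact sub_mem hxPM (hle hx0M)
  obtain ⟨c, hc1, hc2⟩ := hexp w hw hvw
  rw [← hπ] at hc2
  -- the function
  have hvx0 : V.valuation (xu N u e P₀) ≤ 1 := (Pool.Agent.MUXV.int_X hP₀E).2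
  obtain ⟨Pol, hPol⟩ : ∃ Q : ℂ[X], Q = ∑ i : Fin (2 * 9 ^ n),
    C ((c i : ℂ)) * (X - C (xu N u e P₀)) ^ (i : ℕ) := ⟨_, rfl⟩
  have hPolI : IntP V Pol := by
    rw [hPol]; exact _root_.Pool.Agent.ME3.SIG.intP_sum _ _ hc1 hvx0
  have hPolE : ∀ t : ℂ, Pol.eval t =
      ∑ i : Fin (2 * 9 ^ n), (c i : ℂ) * (t - xu N u e P₀) ^ (i : ℕ) := by
    intro t
    rw [hPol, eval_finsetSum]
    refine Finset.sum_congr rfl fun i _ => ?_
    simp
  have hPolw : Pol.eval (xu N u e z₁) = w := by rw [hPolE, ← hπ, ← hc2]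
  have hRep := (h2 V (E3 N) (su N u e) (ru N u e) _ _ hP).1 _ _ _ Pol
    (h7 V N u e lam hgood hv3 z₁ hz₁E) hPolI
  have hβ := ((h1 V (E3 N) (su N u e) (ru N u e) _ _ hP).2.2.2.2.2.2.2.1 _ _ _ hRep).2.1
  rw [hPolw] at hRep
  refine ⟨_, _, hβ, hRep, ?_⟩
  intro y hy σ hσ hw'
  have hc4 : ∀ (t : ℂ) (ht : t ∈ RFE (idl (A := A) (B := B) (3 ^ (n + 1) * f * a))),
      t ∈ RFE (idl (A := A) (B := B) (f * a)) → (σ ⟨t, ht⟩ : ℂ) = t := by
    intro t ht ht'
    exact c4 _ _ hmm (_root_.Pool.Agent.MU3A.em σ) _ hσ hy t ht ht'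
  have hemb3 : emb y * z₁ = z₁ + emb (y - 1) * z₁ := by
    rw [hsub, hone]
    ring
  have hσx : (σ ⟨xnE N z₁, hPM⟩ : ℂ) = xnE N (z₁ + emb (y - 1) * z₁) := by
    rw [← hemb3]
    exact ((hσ.2 N hN).2 z₁ hTor hz₁L).2 hPM
  have hσπ : (σ ⟨π, hπM⟩ : ℂ) = xu N u e (z₁ + emb (y - 1) * z₁) - xu N u e P₀ := by
    have h11 : (⟨π, hπM⟩ : RFE (idl (A := A) (B := B) (3 ^ (n + 1) * f * a))) =
        (⟨xnE N z₁, hPM⟩ + (((0 : ℚ)) : RFE (idl (A := A) (B := B) (3 ^ (n + 1) * f * a))) -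
          ⟨e, hle heM⟩) / ⟨u ^ 2, hle huM⟩ - ⟨xu N u e P₀, hle hx0M⟩ := by
      apply Subtype.ext
      show π = _
      rw [hπ, hxx z₁]
      rfl
    rw [h11, map_sub, map_div₀, map_sub, map_add, map_ratCast]
    show ((σ ⟨xnE N z₁, hPM⟩ : ℂ) + ((0 : ℚ) : ℂ) - (σ ⟨e, hle heM⟩ : ℂ)) /
      (σ ⟨u ^ 2, hle huM⟩ : ℂ) - (σ ⟨xu N u e P₀, hle hx0M⟩ : ℂ) = _
    rw [hσx, hc4 _ _ heM, hc4 _ _ huM, hc4 _ _ hx0M, ← hxx]
  have hww : (⟨w, hw'⟩ : RFE (idl (A := A) (B := B) (3 ^ (n + 1) * f * a))) =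
      ∑ i : Fin (2 * 9 ^ n), ⟨(c i : ℂ), hle (c i).2⟩ * ⟨π, hπM⟩ ^ (i : ℕ) := by
    apply Subtype.ext
    rw [IntermediateField.coe_sum]
    show w = _
    rw [hc2]
    rfl
  rw [hww, map_sum]
  show _ = Pol.eval (xu N u e (z₁ + emb (y - 1) * z₁))
  rw [hPolE, IntermediateField.coe_sum]
  refine Finset.sum_congr rfl fun i _ => ?_
  rw [map_mul, map_pow]
  show (σ ⟨(c i : ℂ), hle (c i).2⟩ : ℂ) * (σ ⟨π, hπM⟩ : ℂ) ^ (i : ℕ) = _
  rw [hc4 _ _ (c i).2, hσπ]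

end

end Pool.Agent.ME3


end

section

/-!
# MUX-NS, block ER, module RP1: the coordinates of the points of `E[P]` are in `RFE (2)`
-/

set_option autoImplicit false

open Polynomial

namespace Pool.Agent.ME3

open _root_.MU3 _root_.Pool.Agent.MU3A _root_.Pool.Agent.MU3B _root_.Pool.Agent.MUX _root_.Pool.Agent.MUXU _root_.Pool.Agent.MUXE
open _root_.Pool.Agent.RI _root_.Pool.Agent.NS _root_.Pool.Agent.NSRD
open _root_.Pool.Agent.ME hiding ActE
open _root_.Pool.Agent.MEE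
open _root_.Pool.Agent.NSER (PtsR Ex Sf_ALG Sf_PRO Sf_PUL Sf_COE Sf_GRN Sf_LEG Sf_TW3 Sf_PTS Sf_TNC Sf_UNT Sf_RAT Sf_ISO Sf_ADD Sf_THN Sf_NE1 Sf_ORB)
open _root_.Pool.Agent.MUXV (GR InK tX)
open _root_.Pool.Agent.NSE (E3 su ru WL IntP Rep)

noncomputable section

theorem t3_RP1 (h1 : Sf_LEG) : S3_RP1 := by
  classical
  intro A B P V hC hG L u e lam hL hg
  have hR := hC.ring
  have hded := hR.ded
  obtain ⟨φ, hφ⟩ := hR.hom
  obtain ⟨f1, hx, -, -, -⟩ := Pool.Agent.MEE.tm_FAC Pool.Agent.MEE.tm_TRA A B hR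
  obtain ⟨-, -, -, -, hsp, -, -, -, hper⟩ := Pool.Agent.MEE.tm_TRA A B hR L hL
  -- the points of order two
  obtain ⟨w₁, w₂, a1, a1', a2, a2', he, hu, -⟩ := h1 V L u e lam hg hC.v3
  have e2 : emb ((2 : ℕ) : OO A B) = 2 := by rw [← hφ, map_natCast]; norm_num
  have m1 : xnE L w₁ ∈ RFE (idl (A := A) (B := B) 2) :=
    (hx _ L hL).2 w₁ ((hsp _ _).2 (by rw [e2]; exact a1)) a1'
  have m2 : xnE L w₂ ∈ RFE (idl (A := A) (B := B) 2) :=
    (hx _ L hL).2 w₂ ((hsp _ _).2 (by rw [e2]; exact a2)) a2'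
  have e3 : u ^ 2 = xnE L w₂ - xnE L w₁ := by
    rw [← hu, xnE, xnE]
  have hq : (0 : ℂ) ∈ RFE (idl (A := A) (B := B) 2) := by
    exact zero_mem _
  have hu2 : u ^ 2 ∈ RFE (idl (A := A) (B := B) 2) := by
    rw [e3]
    exact sub_mem m2 m1
  have e4 : e = xnE L w₁ + 0 := by
    rw [← he, xnE]
    ring
  have he2 : e ∈ RFE (idl (A := A) (B := B) 2) := by
    rw [e4]
    exact add_mem m1 hq
  refine ⟨hu2, he2, ?_⟩
  intro z hz hzL
  -- the fields
  set m' : Ideal (OO A B) := idl (A := A) (B := B) 2 with hm'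
  set m : Ideal (OO A B) := m' * P with hm
  have hmm' : m ≤ m' := Ideal.mul_le_left
  have hmP : m ≤ P := Ideal.mul_le_right
  have hm2 : m' ≤ idl (A := A) (B := B) 2 := le_of_eq hm'
  have hn0 : ∀ n : ℕ, n ≠ 0 → idl (A := A) (B := B) n ≠ ⊥ := by
    intro n hn h0
    have h4 : ((n : ℕ) : OO A B) ∈ idl (A := A) (B := B) n := Ideal.mem_span_singleton_self _
    rw [h0, Ideal.mem_bot] at h4
    have h5 : φ ((n : ℕ) : OO A B) = ((n : ℕ) : ℂ) := map_natCast φ _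
    rw [h4, map_zero] at h5
    exact hn (by exact_mod_cast h5.symm)
  have hP0 : P ≠ ⊥ := by
    intro h0
    apply hn0 3 (by norm_num)
    rw [← hC.sq, h0]
    simp
  have hm0 : m ≠ ⊥ := mul_ne_zero (hn0 2 (by norm_num)) hP0
  have hF : RFE m' ≤ RFE m := f1 m m' hmm'
  have hfin := hG.fin m hm0
  have hgal := hG.gal m hm0
  have hzm : Tor m L z := fun x hxm => hz x (hmP hxm)
  have hxz : xnE L z ∈ RFE m := (hx m L hL).2 z hzm hzL
  set E : IntermediateField (kk A B) (RFE m) := IntermediateField.restrict hF with hE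
  have key : (⟨xnE L z, hxz⟩ : RFE m) ∈ E := by
    rw [← IsGalois.fixedField_fixingSubgroup E, IntermediateField.mem_fixedField_iff]
    intro σ hσ
    obtain ⟨α, hα1, hα2⟩ := hG.ker m m' hm0 hmm' hm2 (_root_.Pool.Agent.MU3A.em σ) (by
      intro y hy hy'
      have h4 : (⟨y, hy⟩ : RFE m) ∈ E := (IntermediateField.mem_restrict hF _).2 hy'
      have h5 := (IntermediateField.mem_fixingSubgroup_iff E _).1 hσ ⟨y, hy⟩ h4
      exact congrArg Subtype.val h5)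
    have hαP : α ∉ P := by
      intro hα
      have h5 : sp α ≤ P := (Ideal.span_singleton_le_iff_mem P).2 hα
      have h7 : sp α ⊔ m = ⊤ := Ideal.isCoprime_iff_sup_eq.1 hα2.1
      have h8 : (⊤ : Ideal (OO A B)) ≤ P := h7 ▸ sup_le h5 hmP
      exact hC.max.ne_top (top_le_iff.1 h8)
    obtain ⟨b1, b2⟩ := (hα2.2 L hL).2 z hzm hzL
    have b3 : _root_.Pool.Agent.MU3A.em σ ⟨xnE L z, hxz⟩ = xnE L (emb α * z) := b2 hxz
    have b4 : xnE L (emb α * z) = xnE L z := by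
      rcases hC.pm α hαP with h | h
      · have h5 := hz _ h
        have h6 : emb (α - 1) * z = emb α * z - z := by
          rw [← hφ, map_sub, map_one, hφ]; ring
        rw [h6] at h5
        exact ((hper _ _ h5).2 b1).1
      · have h5 := hz _ h
        have h6 : emb (α + 1) * z = emb α * z - (-z) := by
          rw [← hφ, map_add, map_one, hφ]; ring
        rw [h6] at h5
        rw [((hper _ _ h5).2 b1).1]
        exact ((hper z z (by simp)).2 hzL).2.2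
    apply Subtype.ext
    show _root_.Pool.Agent.MU3A.em σ ⟨xnE L z, hxz⟩ = xnE L z
    rw [b3, b4]
  have hx2 : xnE L z ∈ RFE m' := (IntermediateField.mem_restrict hF _).1 key
  refine ⟨hx2, ?_⟩
  have e5 : xu L u e z = (xnE L z + 0 - e) / u ^ 2 := by
    rw [xu, xnE]
    ring
  rw [e5]
  exact div_mem (sub_mem (add_mem hx2 hq) he2) hu2

end

end Pool.Agent.ME3


end

section

/-!
# MUX-NS, block ER: the multiplier of `L → ν P⁻¹ L` (PIS), `3` ramified (helper61)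

The product formula (PFI) for `w = ω₁ / 5`, `z = ω₁ / 7`; the preparations are those of helper1's `F_TPR.lean`.
-/

set_option autoImplicit false

open Polynomial

namespace Pool.Agent.ME3

open _root_.MU3 _root_.Pool.Agent.MU3A _root_.Pool.Agent.MU3B _root_.Pool.Agent.MUX _root_.Pool.Agent.MUXU _root_.Pool.Agent.MUXE
open _root_.Pool.Agent.RI _root_.Pool.Agent.NS _root_.Pool.Agent.NSRD
open _root_.Pool.Agent.ME hiding ActE
open _root_.Pool.Agent.MEE
open _root_.Pool.Agent.NSER (PtsR Ex Sf_ALG Sf_PRO Sf_PUL Sf_COE Sf_GRN Sf_LEG Sf_TW3 Sf_PTS Sf_TNC Sf_UNT Sf_RAT Sf_ISO Sf_ADD Sf_THN Sf_NE1 Sf_ORB)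
open _root_.Pool.Agent.MUXV (GR InK tX)
open _root_.Pool.Agent.NSE (E3 su ru WL IntP Rep)

noncomputable section

namespace PIS

theorem _root_.Pool.Agent.ME3.PIS.inv_pow_eq {Γ : Type*} [LinearOrderedCommGroupWithZero Γ] {T π : Γ} {m : ℕ}
    (hT : T ≠ 0) (h : T⁻¹ ^ m = π) : T ^ m * π = 1 := by
  rw [← h, inv_pow]
  exact mul_inv_cancel₀ (pow_ne_zero _ hT)

theorem _root_.Pool.Agent.ME3.PIS.one_lt_of {Γ : Type*} [LinearOrderedCommGroupWithZero Γ] {T π : Γ} {m : ℕ}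
    (h : T ^ m * π = 1) (hπ : π < 1) : 1 < T := by
  by_contra hc
  have hc' : T ≤ 1 := not_lt.1 hc
  have h1 : T ^ m ≤ 1 := pow_le_one' hc' m
  have h2 : T ^ m * π ≤ 1 * π := mul_le_mul_left h1 π
  rw [h, one_mul] at h2
  exact absurd hπ (not_lt.2 h2)

/-- rational multiples of the period `ω₁` -/
theorem _root_.Pool.Agent.ME3.PIS.rat_mul (L : PeriodPair) (x : ℚ) (hx : x.den ≠ 1) : ((x : ℚ) : ℂ) * L.ω₁ ∉ L.lattice := by
  intro hm
  have e : ((x : ℚ) : ℂ) * L.ω₁ = ((x : ℚ) : ℂ) * L.ω₁ + ((0 : ℚ) : ℂ) * L.ω₂ := by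
    push_cast
    ring
  rw [e, PeriodPair.mul_ω₁_add_mul_ω₂_mem_lattice] at hm
  exact hx hm.1

end PIS

open _root_.Pool.Agent.ME3.PIS in
theorem t3_PIS (h2 : Sf_GRN) (h3 : Sf_TNC) (h4 : S3_RPV) (h6 : Su_BAC) (h7 : Su_PFI) :
    S3_PIS := by
  intro A B P V h hT hG L N ν u e lam u' e' lam' hL hN hQ hg hg'
  obtain ⟨φ, hφ⟩ := h.ring.hom
  have embn : ∀ n : ℕ, emb ((n : ℕ) : OO A B) = n := fun n => by rw [← hφ, map_natCast]
  have hv3 := h.v3
  have mem3 : ((3 : ℕ) : OO A B) ∈ P := by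
    have h8 : ((3 : ℕ) : OO A B) ∈ idl (A := A) (B := B) 3 :=
      Ideal.subset_span (Set.mem_singleton _)
    rw [← h.sq] at h8
    exact Ideal.mul_le_left h8
  have hPbot : P ≠ ⊥ := by
    intro h0
    rw [h0, Ideal.mem_bot] at mem3
    have h9 := embn 3
    rw [mem3, ← hφ, map_zero] at h9
    norm_num at h9
  have hπ0 : V.valuation (3 : ℂ) ≠ 0 := (Valuation.ne_zero_iff _).2 (by norm_num)
  obtain ⟨tra1, tra2, tra3, tra4, tra5, tra6, tra7, tra8, tra9⟩ := tm_TRA A B h.ring L hL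
  have hν : ν ≠ 0 := hQ.1
  have hTor : ∀ z, ν * z ∈ N.lattice ↔ Tor P L z := hQ.2
  have hIsg : Isg L N ν := fun w hw => (hTor w).2 (fun x _ => tra1 x w hw)
  obtain ⟨⟨R, hR⟩, -⟩ := h6.2 L N ν hν hIsg
  obtain ⟨ξ, G⟩ := h2 V L u e lam hg hv3
  obtain ⟨ξ', G'⟩ := h2 V N u' e' lam' hg' hv3
  have hu := hg.u0
  have hu' := hg'.u0
  -- the points of orders 5, 7, 35
  have hω : ∀ k : ℤ, (k : ℂ) * L.ω₁ ∈ L.lattice := by
    intro k
    have := L.lattice.smul_mem k L.ω₁_mem_lattice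
    rwa [zsmul_eq_mul] at this
  -- a rational point of order prime to three
  have good : ∀ (x : ℚ) (n : ℕ) (k : ℤ), ¬ 3 ∣ n → (n : ℂ) * ((x : ℚ) : ℂ) = (k : ℂ) →
      x.den ≠ 1 →
      ¬ InK V L (xu L u e) (((x : ℚ) : ℂ) * L.ω₁) ∧ ν * (((x : ℚ) : ℂ) * L.ω₁) ∉ N.lattice ∧
      ¬ InK V N (xu N u' e') (ν * (((x : ℚ) : ℂ) * L.ω₁)) := by
    intro x n k hn hk hx
    have hnL : (n : ℂ) * (((x : ℚ) : ℂ) * L.ω₁) ∈ L.lattice := by
      rw [← mul_assoc, hk]
      exact hω k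
    have hxL := _root_.Pool.Agent.ME3.PIS.rat_mul L x hx
    have m1 : ν * (((x : ℚ) : ℂ) * L.ω₁) ∉ N.lattice := by
      intro h8
      have h9 := (hTor _).1 h8 _ mem3
      rw [embn] at h9
      apply hxL
      have hcop : Int.gcd 3 n = 1 := by
        have : Nat.Coprime 3 n := (Nat.Prime.coprime_iff_not_dvd Nat.prime_three).2 hn
        simpa [Int.gcd] using this
      have hb := Int.gcd_eq_gcd_ab 3 n
      rw [hcop] at hb
      have h10 := add_mem (L.lattice.smul_mem (Int.gcdA 3 n) h9) (L.lattice.smul_mem (Int.gcdB 3 n) hnL)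
      rw [zsmul_eq_mul, zsmul_eq_mul] at h10
      have hb' : (1 : ℂ) = 3 * (Int.gcdA 3 n : ℂ) + n * (Int.gcdB 3 n : ℂ) := by exact_mod_cast hb
      convert h10 using 1
      push_cast
      linear_combination (((x : ℚ) : ℂ) * L.ω₁) * hb'
    refine ⟨fun hin => hxL ((h3 V L u e lam hg hv3 n hn).2 _ hnL hin), m1, fun hin => ?_⟩
    refine m1 ((h3 V N u' e' lam' hg' hv3 n hn).2 _ ?_ hin)
    have h8 := hIsg _ hnL
    rwa [show ν * ((n : ℂ) * (((x : ℚ) : ℂ) * L.ω₁)) = (n : ℂ) * (ν * (((x : ℚ) : ℂ) * L.ω₁)) by ring] at h8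
  obtain ⟨w1, w2, w3⟩ := good (1 / 5) 5 1 (by norm_num) (by push_cast; norm_num) (by norm_num)
  obtain ⟨z1, z2, z3⟩ := good (1 / 7) 7 1 (by norm_num) (by push_cast; norm_num) (by norm_num)
  obtain ⟨p1, p2, p3⟩ := good (12 / 35) 35 12 (by norm_num) (by push_cast; norm_num) (by norm_num)
  obtain ⟨s1, s2, s3⟩ := good (-2 / 35) 35 (-2) (by norm_num) (by push_cast; norm_num) (by norm_num)
  have ep : (((12 / 35 : ℚ) : ℚ) : ℂ) * L.ω₁ =
      (((1 / 7 : ℚ) : ℚ) : ℂ) * L.ω₁ + (((1 / 5 : ℚ) : ℚ) : ℂ) * L.ω₁ := by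
    push_cast
    ring
  have es : (((-2 / 35 : ℚ) : ℚ) : ℂ) * L.ω₁ =
      (((1 / 7 : ℚ) : ℚ) : ℂ) * L.ω₁ - (((1 / 5 : ℚ) : ℚ) : ℂ) * L.ω₁ := by
    push_cast
    ring
  rw [ep] at p1 p2 p3
  rw [es] at s1 s2 s3
  generalize (((1 / 7 : ℚ) : ℚ) : ℂ) * L.ω₁ = z at z1 z2 z3 p1 p2 p3 s1 s2 s3
  generalize (((1 / 5 : ℚ) : ℚ) : ℂ) * L.ω₁ = w at w1 w2 w3 p1 p2 p3 s1 s2 s3
  -- the representatives
  have torR : ∀ q ∈ R, Tor P L q := fun q hq => (hTor q).1 (hR.mem q hq)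
  have hRk : ∀ q ∈ R, InK V L (xu L u e) q ∧ xu L u e q ≠ 0 ∧
      V.valuation (xu L u e q) ^ 2 * V.valuation (3 : ℂ) = 1 := by
    intro q hq
    obtain ⟨k1, k2, k3⟩ := h4 A B P V h hT hG L u e lam hL hg q (torR q hq) (hR.ne q hq)
    refine ⟨k1, k2, ?_⟩
    unfold su at k3
    rw [map_inv₀] at k3
    exact _root_.Pool.Agent.ME3.PIS.inv_pow_eq ((Valuation.ne_zero_iff _).2 k2) k3
  -- congruence of the points of `E[P]`
  have cong : ∀ q q', Tor P L q → Tor P L q' → q ∉ L.lattice → q' ∉ L.lattice →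
      q' - q ∈ L.lattice ∨ q' + q ∈ L.lattice := by
    intro q q' hq hq' hqL hqL'
    obtain ⟨x, hx⟩ := (tm_TRB A B h.ring L hL).2 P hPbot h.max q q' hq hq' hqL
    by_cases hxP : x ∈ P
    · exfalso
      apply hqL'
      have := add_mem hx (hq x hxP)
      rwa [sub_add_cancel] at this
    · rcases h.pm x hxP with h8 | h8
      · left
        have h9 := add_mem hx (hq _ h8)
        rw [← hφ (x - 1), map_sub, map_one, hφ] at h9
        convert h9 using 1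
        ring
      · right
        have h9 := add_mem hx (hq _ h8)
        rw [← hφ (x + 1), map_add, map_one, hφ] at h9
        convert h9 using 1
        ring
  obtain ⟨q0', hq0', hq0L'⟩ : ∃ q, Tor P L q ∧ q ∉ L.lattice := by
    obtain ⟨q, k1, k2⟩ := (tm_TRB A B h.ring L hL).1 ⊤ P hPbot h.max.ne_top.lt_top
    exact ⟨q, k1, fun h8 => k2 fun x _ => tra1 x q h8⟩
  obtain ⟨q0, hq0R, -⟩ := hR.surj q0' ((hTor q0').2 hq0') hq0L'
  have hq0L := hR.ne q0 hq0R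
  have hq0T := torR q0 hq0R
  have hpq : (3 : ℂ) * q0 ∈ L.lattice := by
    have := hq0T _ mem3
    rw [embn] at this
    exact_mod_cast this
  have hcard : R.card = 3 - 1 := by
    have hnT : Tor P L (-q0) := fun x hx => by
      rw [mul_neg]
      exact neg_mem (hq0T x hx)
    have hnL : -q0 ∉ L.lattice := fun h8 => hq0L (by simpa using neg_mem h8)
    obtain ⟨q1, hq1R, hq1⟩ := hR.surj (-q0) ((hTor _).2 hnT) hnL
    have hne : q0 ≠ q1 := by
      rintro rfl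
      apply hq0L
      have h8 := add_mem hq1 hpq
      convert h8 using 1
      ring
    have : R = {q0, q1} := by
      ext q
      rw [Finset.mem_insert, Finset.mem_singleton]
      constructor
      · intro hq
        rcases cong q0 q hq0T (torR q hq) hq0L (hR.ne q hq) with h8 | h8
        · exact Or.inl (hR.inj q hq q0 hq0R h8)
        · right
          apply hR.inj q hq q1 hq1R
          have h9 := add_mem h8 hq1
          convert h9 using 1
          ring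
      · rintro (rfl | rfl)
        · exact hq0R
        · exact hq1R
    rw [this, Finset.card_pair hne]
  have hRT : ∀ q ∈ R, V.valuation (xu L u e q) = V.valuation (xu L u e q0) := by
    intro q hq
    have h8 : V.valuation (xu L u e q) ^ 2 * V.valuation (3 : ℂ) =
        V.valuation (xu L u e q0) ^ 2 * V.valuation (3 : ℂ) := by
      rw [(hRk q hq).2.2, (hRk q0 hq0R).2.2]
    exact (pow_left_inj₀ zero_le zero_le two_ne_zero).1 (mul_right_cancel₀ hπ0 h8)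
  -- the product formula
  have pf := h7 L N ν R hν hIsg hR w w2 z z2
  have xd : ∀ a b : ℂ, L.weierstrassP a - L.weierstrassP b =
      u ^ 2 * (xu L u e a - xu L u e b) := by
    intro a b
    unfold xu
    field_simp
    ring
  have xd' : ∀ a b : ℂ, N.weierstrassP a - N.weierstrassP b =
      u' ^ 2 * (xu N u' e' a - xu N u' e' b) := by
    intro a b
    unfold xu
    field_simp
    ring
  have pf' : (ν * u' / u) ^ 2 * (xu N u' e' (ν * z) - xu N u' e' (ν * w)) *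
      ∏ q ∈ R, (xu L u e z - xu L u e q) =
      (xu L u e z - xu L u e w) * ∏ q ∈ R, (xu L u e z - xu L u e (w + q)) := by
    simp only [xd, xd', Finset.prod_mul_distrib, Finset.prod_const] at pf
    have hu2 : u ^ 2 * (u ^ 2) ^ R.card ≠ 0 := by positivity
    apply mul_left_cancel₀ hu2
    have e1 : u ^ 2 * (ν * u' / u) ^ 2 = ν ^ 2 * u' ^ 2 := by
      field_simp
    linear_combination pf + ((u ^ 2) ^ R.card *
      (xu N u' e' (ν * z) - xu N u' e' (ν * w)) * ∏ q ∈ R, (xu L u e z - xu L u e q)) * e1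
  have hT1 : 1 < V.valuation (xu L u e q0) := _root_.Pool.Agent.ME3.PIS.one_lt_of (hRk q0 hq0R).2.2 hv3
  have v1 : V.valuation (xu N u' e' (ν * z) - xu N u' e' (ν * w)) = 1 :=
    Pool.Agent.MUXV.v_X_sub G' z3 w3 (by rw [← mul_add]; exact p3) (by rw [← mul_sub]; exact s3)
  have v2 : V.valuation (xu L u e z - xu L u e w) = 1 :=
    Pool.Agent.MUXV.v_X_sub G z1 w1 p1 s1
  have v3 : ∀ q ∈ R, V.valuation (xu L u e z - xu L u e (w + q)) = 1 := by
    intro q hqR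
    have hq := (hRk q hqR).1
    refine Pool.Agent.MUXV.v_X_sub G z1 (fun hin => w1 ?_) (fun hin => p1 ?_) (fun hin => s1 ?_)
    · have := Pool.Agent.MUXV.inK_sub G hin hq
      rwa [add_sub_cancel_right] at this
    · have := Pool.Agent.MUXV.inK_sub G hin hq
      rwa [show z + (w + q) - q = z + w by ring] at this
    · have := Pool.Agent.MUXV.inK_add G hin hq
      rwa [show z - (w + q) + q = z - w by ring] at this
  have hzint : V.valuation (xu L u e z) ≤ 1 := (Pool.Agent.MUXV.int_X z1).2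
  have v4 : ∀ q ∈ R, V.valuation (xu L u e z - xu L u e q) = V.valuation (xu L u e q0) := by
    intro q hqR
    rw [← hRT q hqR]
    apply Valuation.map_sub_eq_of_lt_right
    rw [hRT q hqR]
    exact lt_of_le_of_lt hzint hT1
  have key := congrArg V.valuation pf'
  rw [map_mul, map_mul, map_mul, map_prod, map_prod, v1, v2, Finset.prod_congr rfl v3,
    Finset.prod_congr rfl v4, Finset.prod_const, Finset.prod_const_one, hcard, map_pow,
    mul_one, mul_one] at key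
  have hq0' : V.valuation (xu L u e q0) ^ 2 ≠ 0 :=
    pow_ne_zero _ ((Valuation.ne_zero_iff _).2 (hRk q0 hq0R).2.1)
  apply mul_right_cancel₀ hq0'
  rw [mul_comm (V.valuation (3 : ℂ)), (hRk q0 hq0R).2.2]
  exact key

end

end Pool.Agent.ME3


end

section

/-!
# MUX-NS, block ER, module IDL: the ideals `f P^(2n+1) = 3^n f P` (helper29)

`P² = (3)`, so `lvR P f n = (3^n f) P`; the ideal `P` is cancelled in the Dedekind domain `O`.
-/

set_option autoImplicit false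

open Polynomial

namespace Pool.Agent.ME3

open _root_.MU3 _root_.Pool.Agent.MU3A _root_.Pool.Agent.MU3B _root_.Pool.Agent.MUX _root_.Pool.Agent.MUXU _root_.Pool.Agent.MUXE
open _root_.Pool.Agent.RI _root_.Pool.Agent.NS _root_.Pool.Agent.NSRD
open _root_.Pool.Agent.ME hiding ActE
open _root_.Pool.Agent.MEE
open _root_.Pool.Agent.NSER (PtsR Ex Sf_ALG Sf_PRO Sf_PUL Sf_COE Sf_GRN Sf_LEG Sf_TW3 Sf_PTS Sf_TNC Sf_UNT Sf_RAT Sf_ISO Sf_ADD Sf_THN Sf_NE1 Sf_ORB)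

noncomputable section

namespace IDLaux

variable {A B : ℤ} {P : Ideal (OO A B)}

lemma _root_.Pool.Agent.ME3.IDLaux.three_mem (hsq : P * P = idl (A := A) (B := B) 3) : (3 : OO A B) ∈ P := by
  have h0 : ((3 : ℕ) : OO A B) ∈ P * P := by
    rw [hsq]
    exact Ideal.mem_span_singleton_self _
  have h1 := Ideal.mul_le_left h0
  exact_mod_cast h1

lemma _root_.Pool.Agent.ME3.IDLaux.nat_re (k : ℕ) : ((k : ℕ) : OO A B).re = (k : ℤ) := by
  simp

lemma _root_.Pool.Agent.ME3.IDLaux.nat_im (k : ℕ) : ((k : ℕ) : OO A B).im = 0 := by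
  simp

lemma _root_.Pool.Agent.ME3.IDLaux.nat_ne (k : ℕ) (hk : k ≠ 0) : ((k : ℕ) : OO A B) ≠ 0 := by
  intro h
  have h1 := congrArg QuadraticAlgebra.re h
  rw [_root_.Pool.Agent.ME3.IDLaux.nat_re, QuadraticAlgebra.re_zero] at h1
  exact hk (by exact_mod_cast h1)

lemma _root_.Pool.Agent.ME3.IDLaux.int_mem (h1 : (1 : OO A B) ∉ P) (h3 : (3 : OO A B) ∈ P) (n : ℤ) :
    ((n : ℤ) : OO A B) ∈ P ↔ (3 : ℤ) ∣ n := by
  constructor
  · intro hn
    by_contra hnd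
    obtain ⟨a, b, hab⟩ := (Int.prime_three.coprime_iff_not_dvd).2 hnd
    apply h1
    have h4 := congrArg (Int.cast : ℤ → OO A B) hab
    push_cast at h4
    rw [← h4]
    exact P.add_mem (P.mul_mem_left _ h3) (P.mul_mem_left _ hn)
  · rintro ⟨k, rfl⟩
    push_cast
    exact P.mul_mem_right _ h3

/-- cancelling `P` -/
lemma _root_.Pool.Agent.ME3.IDLaux.cancel {R : Type} [CommRing R] [IsDedekindDomain R] {P : Ideal R} (hP : P ≠ ⊥)
    (J : Ideal R) (x : R) (h : ∀ p ∈ P, p * x ∈ J * P) : x ∈ J := by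
  have h1 : Ideal.span {x} * P ≤ J * P := by
    rw [Ideal.mul_le]
    intro r hr s hs
    obtain ⟨y, rfl⟩ := Ideal.mem_span_singleton.1 hr
    have h2 : x * y * s = y * (s * x) := by ring
    rw [h2]
    exact Ideal.mul_mem_left _ _ (h s hs)
  have h2 : J * P ∣ Ideal.span {x} * P := Ideal.dvd_iff_le.2 h1
  have hP0 : P ≠ 0 := hP
  have h3 : J ∣ Ideal.span {x} := (mul_dvd_mul_iff_right hP0).1 h2
  have h4 : Ideal.span {x} ≤ J := Ideal.dvd_iff_le.1 h3
  exact (Ideal.span_singleton_le_iff_mem _).1 h4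

lemma _root_.Pool.Agent.ME3.IDLaux.pow_two_mul (hsq : P * P = idl (A := A) (B := B) 3) (n : ℕ) :
    P ^ (2 * n) = idl (A := A) (B := B) (3 ^ n) := by
  rw [pow_mul, pow_two, hsq]
  unfold idl
  rw [Ideal.span_singleton_pow, Nat.cast_pow]

lemma _root_.Pool.Agent.ME3.IDLaux.idl_mul (a b : ℕ) : idl (A := A) (B := B) (a * b) = idl a * idl b := by
  unfold idl
  rw [Ideal.span_singleton_mul_span_singleton, Nat.cast_mul]

lemma _root_.Pool.Agent.ME3.IDLaux.lvR_eq (hsq : P * P = idl (A := A) (B := B) 3) (f n : ℕ) :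
    lvR P f n = idl (A := A) (B := B) (3 ^ n * f) * P := by
  unfold lvR
  rw [pow_succ, _root_.Pool.Agent.ME3.IDLaux.pow_two_mul hsq, ← mul_assoc, mul_comm (3 ^ n) f, _root_.Pool.Agent.ME3.IDLaux.idl_mul]

end IDLaux

open _root_.Pool.Agent.ME3.IDLaux in
/-- (IDL) the ideals `lvR P f n = f P^(2n+1) = 3^n f P` -/
theorem t3_IDL : S3_IDL := by
  intro A B P V hc
  have := hc.ring.ded
  have h3 : (3 : OO A B) ∈ P := _root_.Pool.Agent.ME3.IDLaux.three_mem hc.sq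
  have h1 : (1 : OO A B) ∉ P := fun h => hc.max.ne_top ((Ideal.eq_top_iff_one P).2 h)
  have hP : P ≠ ⊥ := by
    intro h
    rw [h, Ideal.mem_bot] at h3
    exact _root_.Pool.Agent.ME3.IDLaux.nat_ne (A := A) (B := B) 3 (by norm_num) (by exact_mod_cast h3)
  refine ⟨h3, fun x hx => _root_.Pool.Agent.ME3.IDLaux.cancel hP P x hx, _root_.Pool.Agent.ME3.IDLaux.pow_two_mul hc.sq, ?_, ?_⟩
  · intro k
    have h := _root_.Pool.Agent.ME3.IDLaux.int_mem h1 h3 (k : ℤ)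
    rw [Int.cast_natCast] at h
    rw [h]
    exact_mod_cast Iff.rfl
  intro f n hf
  have hlv := _root_.Pool.Agent.ME3.IDLaux.lvR_eq hc.sq f n
  have hc0 : 3 ^ n * f ≠ 0 := mul_ne_zero (pow_ne_zero _ (by norm_num)) hf
  have hc1 : 3 ^ (n + 1) * f ≠ 0 := mul_ne_zero (pow_ne_zero _ (by norm_num)) hf
  have e1 : 3 ^ (n + 1) * f = 3 ^ n * f * 3 := by rw [pow_succ]; ring
  have hmem : ∀ x : OO A B, x ∈ lvR P f n ↔ ∃ p ∈ P, x = ((3 ^ n * f : ℕ) : OO A B) * p := by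
    intro x
    rw [hlv]
    exact Ideal.mem_span_singleton_mul.trans
      ⟨fun ⟨p, hp, h⟩ => ⟨p, hp, h.symm⟩, fun ⟨p, hp, h⟩ => ⟨p, hp, h.symm⟩⟩
  have e2 : idl (A := A) (B := B) (3 ^ (n + 1) * f) = lvR P f n * P := by
    rw [e1, _root_.Pool.Agent.ME3.IDLaux.idl_mul, hlv, ← hc.sq, mul_assoc]
  have hle : idl (A := A) (B := B) (3 ^ (n + 1) * f) ≤ lvR P f n := by
    rw [e2]
    exact Ideal.mul_le_left
  refine ⟨hmem, ?_, hle, ?_, ?_, ?_, ?_⟩
  · intro x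
    rw [e2]
    constructor
    · intro hx p hp
      rw [mul_comm p x]
      exact Ideal.mul_mem_mul hx hp
    · intro hx
      exact _root_.Pool.Agent.ME3.IDLaux.cancel hP _ x hx
  · rw [hlv]
    exact Ideal.mul_le_left
  · intro h
    have h4 : ((3 ^ (n + 1) * f : ℕ) : OO A B) ∈ lvR P f n :=
      hle (Ideal.mem_span_singleton_self _)
    rw [h, Ideal.mem_bot] at h4
    exact _root_.Pool.Agent.ME3.IDLaux.nat_ne _ hc1 h4
  · intro k
    constructor
    · intro hk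
      obtain ⟨p, hp, h4⟩ := (hmem _).1 hk
      have hre := congrArg QuadraticAlgebra.re h4
      have him := congrArg QuadraticAlgebra.im h4
      rw [QuadraticAlgebra.re_mul, _root_.Pool.Agent.ME3.IDLaux.nat_re, _root_.Pool.Agent.ME3.IDLaux.nat_re, _root_.Pool.Agent.ME3.IDLaux.nat_im] at hre
      rw [QuadraticAlgebra.im_mul, _root_.Pool.Agent.ME3.IDLaux.nat_re, _root_.Pool.Agent.ME3.IDLaux.nat_im, _root_.Pool.Agent.ME3.IDLaux.nat_im] at him
      have hcz : ((3 ^ n * f : ℕ) : ℤ) ≠ 0 := by exact_mod_cast hc0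
      have him0 : p.im = 0 := by
        have h5 : ((3 ^ n * f : ℕ) : ℤ) * p.im = 0 := by linarith
        exact (mul_eq_zero.1 h5).resolve_left hcz
      have hp1 : p = ((p.re : ℤ) : OO A B) := by
        apply QuadraticAlgebra.ext
        · rw [QuadraticAlgebra.re_intCast]
          simp
        · rw [QuadraticAlgebra.im_intCast, him0]
      rw [hp1, _root_.Pool.Agent.ME3.IDLaux.int_mem h1 h3] at hp
      obtain ⟨t, ht⟩ := hp
      have h6 : ((3 ^ (n + 1) * f : ℕ) : ℤ) ∣ (k : ℤ) := by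
        refine ⟨t, ?_⟩
        rw [hre, ht, e1]
        push_cast
        ring
      exact_mod_cast h6
    · rintro ⟨t, rfl⟩
      rw [Nat.cast_mul]
      exact Ideal.mul_mem_right _ _ (hle (Ideal.mem_span_singleton_self _))
  · intro c hcop
    have h4 : IsCoprime c ((3 ^ (n + 1) * f : ℕ) : OO A B) := by
      rw [Nat.cast_mul] at hcop
      have h5 := IsCoprime.of_mul_right_left hcop
      have h6 := IsCoprime.of_mul_right_right hcop
      rw [Nat.cast_mul, Nat.cast_pow]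
      exact IsCoprime.mul_right h5.pow_right h6
    refine ⟨?_, h4⟩
    have h7 : IsCoprime (sp c) (idl (A := A) (B := B) (3 ^ (n + 1) * f)) :=
      (Ideal.isCoprime_span_singleton_iff _ _).2 h4
    rw [Ideal.isCoprime_iff_sup_eq] at h7 ⊢
    rw [eq_top_iff] at h7 ⊢
    exact h7.trans (sup_le_sup_left hle _)

end

end Pool.Agent.ME3


end

section

/-!
# MUX-NS, block ER, module DEG: the degree of `RFE (f P^(2n+1))` over `RFE (f)`
-/

set_option autoImplicit false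

open Polynomial

namespace Pool.Agent.ME3

open _root_.MU3 _root_.Pool.Agent.MU3A _root_.Pool.Agent.MU3B _root_.Pool.Agent.MUX _root_.Pool.Agent.MUXU _root_.Pool.Agent.MUXE
open _root_.Pool.Agent.RI _root_.Pool.Agent.NS _root_.Pool.Agent.NSRD
open _root_.Pool.Agent.ME hiding ActE
open _root_.Pool.Agent.MEE
open _root_.Pool.Agent.NSER (PtsR Ex Sf_ALG Sf_PRO Sf_PUL Sf_COE Sf_GRN Sf_LEG Sf_TW3 Sf_PTS Sf_TNC Sf_UNT Sf_RAT Sf_ISO Sf_ADD Sf_THN Sf_NE1 Sf_ORB)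
open _root_.Pool.Agent.MUXV (GR InK tX)
open _root_.Pool.Agent.NSE (E3 su ru WL IntP Rep)

noncomputable section

namespace DEG

/-- the pairs `(u, s)`, `u` modulo `3^(n+1)` prime to `3`, `s` modulo `3^n` -/
def _root_.Pool.Agent.ME3.DEG.box (n : ℕ) : Finset (ℕ × ℕ) :=
  (Finset.range (3 ^ (n + 1)) \ (Finset.range (3 ^ n)).image fun q => 3 * q) ×ˢ
    Finset.range (3 ^ n)

lemma _root_.Pool.Agent.ME3.DEG.card_box (n : ℕ) : (_root_.Pool.Agent.ME3.DEG.box n).card = 2 * 9 ^ n := by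
  unfold _root_.Pool.Agent.ME3.DEG.box
  rw [Finset.card_product, Finset.card_sdiff_of_subset, Finset.card_image_of_injective]
  · simp only [Finset.card_range]
    have h1 : 3 ^ (n + 1) - 3 ^ n = 2 * 3 ^ n := by rw [pow_succ]; omega
    have h2 : 3 ^ n * 3 ^ n = 9 ^ n := by rw [← mul_pow]; norm_num
    rw [h1, mul_assoc, h2]
  · intro a b h
    simp only at h
    omega
  · intro q hq
    simp only [Finset.mem_image, Finset.mem_range] at hq ⊢
    obtain ⟨q', h1, rfl⟩ := hq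
    rw [pow_succ]
    omega

/-- the class of an element -/
def _root_.Pool.Agent.ME3.DEG.cls {A B : ℤ} (n : ℕ) (x : OO A B) : ℕ × ℕ :=
  (((2 * x.re + x.im * B) % (3 ^ (n + 1) : ℕ)).toNat, (x.im % (3 ^ n : ℕ)).toNat)

lemma int_mul {A B : ℤ} (a b t : ℤ) (x : OO A B) (ha : a = 2)
    (h : 2 * x.re + x.im * B = b * t) :
    ((a : ℤ) : OO A B) * x =
      ((b : ℤ) : OO A B) * ((t : ℤ) : OO A B) + ((x.im : ℤ) : OO A B) * dD A B := by
  ext
  · simp [dD]
    rw [ha]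
    linarith
  · simp [dD]
    rw [ha]
    ring

lemma nat_mul {A B : ℤ} (N : ℕ) (r s : ℤ) (x : OO A B) (h1 : x.re = N * r) (h2 : x.im = N * s) :
    x = (N : OO A B) * (⟨r, s⟩ : OO A B) := by
  ext <;> simp [h1, h2]

/-- the elements of `P` -/
lemma mem_P {A B : ℤ} (P : Ideal (OO A B)) (h3 : (3 : OO A B) ∈ P) (hd : dD A B ∈ P)
    (x : OO A B) (h : (3 : ℤ) ∣ 2 * x.re + x.im * B) : x ∈ P := by
  obtain ⟨t, ht⟩ := h
  have e1 : (2 : OO A B) * x = 3 * ((t : ℤ) : OO A B) + ((x.im : ℤ) : OO A B) * dD A B := by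
    have hx : (2 : OO A B) * x = (((2 : ℤ)) : OO A B) * x := by norm_num
    have h3' : (3 : OO A B) = (((3 : ℤ)) : OO A B) := by norm_num
    rw [hx, h3']
    exact int_mul 2 3 t x rfl ht
  have e2 : (2 : OO A B) * x ∈ P := by
    rw [e1]
    exact P.add_mem (P.mul_mem_right _ h3) (P.mul_mem_left _ hd)
  have e3 : x = 3 * x - 2 * x := by ring
  rw [e3]
  exact P.sub_mem (P.mul_mem_right _ h3) e2

lemma _root_.Pool.Agent.ME3.DEG.cls_mem {A B : ℤ} (P : Ideal (OO A B)) (h3 : (3 : OO A B) ∈ P) (hd : dD A B ∈ P)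
    (n : ℕ) (x : OO A B) (hx : x ∉ P) : _root_.Pool.Agent.ME3.DEG.cls n x ∈ _root_.Pool.Agent.ME3.DEG.box n := by
  have hN : (0 : ℤ) < ((3 ^ (n + 1) : ℕ) : ℤ) := by positivity
  have hN' : (0 : ℤ) < ((3 ^ n : ℕ) : ℤ) := by positivity
  have h1 := Int.emod_nonneg (2 * x.re + x.im * B) hN.ne'
  have h2 := Int.emod_lt_of_pos (2 * x.re + x.im * B) hN
  have h4 := Int.emod_nonneg x.im hN'.ne'
  have h5 := Int.emod_lt_of_pos x.im hN'
  unfold _root_.Pool.Agent.ME3.DEG.box _root_.Pool.Agent.ME3.DEG.cls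
  rw [Finset.mem_product, Finset.mem_sdiff]
  refine ⟨⟨?_, ?_⟩, ?_⟩
  · simp only [Finset.mem_range]
    omega
  · intro h
    simp only [Finset.mem_image, Finset.mem_range] at h
    obtain ⟨q, -, e1⟩ := h
    apply hx
    apply mem_P P h3 hd
    have h6 : (3 : ℤ) ∣ ((3 ^ (n + 1) : ℕ) : ℤ) := by
      push_cast
      exact dvd_pow_self 3 (by omega)
    have h7 := Int.emod_add_mul_ediv (2 * x.re + x.im * B) ((3 ^ (n + 1) : ℕ) : ℤ)
    rw [← h7]
    refine dvd_add ?_ (dvd_mul_of_dvd_left h6 _)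
    exact ⟨q, by omega⟩
  · simp only [Finset.mem_range]
    omega

lemma _root_.Pool.Agent.ME3.DEG.cls_inj {A B : ℤ} (P : Ideal (OO A B)) (h3 : (3 : OO A B) ∈ P) (hd : dD A B ∈ P)
    (n : ℕ) (hn : P ^ (2 * n) = idl (A := A) (B := B) (3 ^ n)) (x y : OO A B)
    (h : _root_.Pool.Agent.ME3.DEG.cls n x = _root_.Pool.Agent.ME3.DEG.cls n y) : x - y ∈ P ^ (2 * n + 1) := by
  have hN : (0 : ℤ) < ((3 ^ (n + 1) : ℕ) : ℤ) := by positivity
  have hN' : (0 : ℤ) < ((3 ^ n : ℕ) : ℤ) := by positivity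
  have h1 := Int.emod_nonneg (2 * x.re + x.im * B) hN.ne'
  have h2 := Int.emod_nonneg (2 * y.re + y.im * B) hN.ne'
  have h4 := Int.emod_nonneg x.im hN'.ne'
  have h5 := Int.emod_nonneg y.im hN'.ne'
  unfold _root_.Pool.Agent.ME3.DEG.cls at h
  rw [Prod.mk.injEq] at h
  obtain ⟨e1, e2⟩ := h
  have e3 : (2 * x.re + x.im * B) % ((3 ^ (n + 1) : ℕ) : ℤ) =
      (2 * y.re + y.im * B) % ((3 ^ (n + 1) : ℕ) : ℤ) := by omega
  have e4 : x.im % ((3 ^ n : ℕ) : ℤ) = y.im % ((3 ^ n : ℕ) : ℤ) := by omega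
  have e5 : ((3 ^ (n + 1) : ℕ) : ℤ) ∣ (2 * x.re + x.im * B) - (2 * y.re + y.im * B) :=
    Int.ModEq.dvd (Int.ModEq.symm e3)
  have e6 : ((3 ^ n : ℕ) : ℤ) ∣ x.im - y.im := Int.ModEq.dvd (Int.ModEq.symm e4)
  have e7 : ((3 ^ n : ℕ) : ℤ) ∣ 2 * (x.re - y.re) := by
    have e8 : ((3 ^ n : ℕ) : ℤ) ∣ ((3 ^ (n + 1) : ℕ) : ℤ) := by
      push_cast
      exact pow_dvd_pow 3 (by omega)
    have e9 : 2 * (x.re - y.re) =
        ((2 * x.re + x.im * B) - (2 * y.re + y.im * B)) - (x.im - y.im) * B := by ring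
    rw [e9]
    exact dvd_sub (e8.trans e5) (dvd_mul_of_dvd_left e6 _)
  have e10 : ((3 ^ n : ℕ) : ℤ) ∣ x.re - y.re := by
    have hc : IsCoprime ((3 ^ n : ℕ) : ℤ) 2 := by
      push_cast
      exact IsCoprime.pow_left ⟨1, -1, by norm_num⟩
    exact hc.dvd_of_dvd_mul_left e7
  obtain ⟨s, hs⟩ := e6
  obtain ⟨r, hr⟩ := e10
  have e11 : x - y = ((3 ^ n : ℕ) : OO A B) * (⟨r, s⟩ : OO A B) := nat_mul _ r s _ hr hs
  have e12 : (⟨r, s⟩ : OO A B) ∈ P := by
    apply mem_P P h3 hd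
    show (3 : ℤ) ∣ 2 * r + s * B
    have e13 : (2 * x.re + x.im * B) - (2 * y.re + y.im * B) =
        ((3 ^ n : ℕ) : ℤ) * (2 * r + s * B) := by
      have : (2 * x.re + x.im * B) - (2 * y.re + y.im * B) =
        2 * (x.re - y.re) + (x.im - y.im) * B := by ring
      rw [this, hr, hs]
      ring
    rw [e13] at e5
    have e14 : ((3 ^ (n + 1) : ℕ) : ℤ) = ((3 ^ n : ℕ) : ℤ) * 3 := by
      push_cast
      exact pow_succ 3 n
    rw [e14] at e5
    exact Int.dvd_of_mul_dvd_mul_left hN'.ne' e5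
  rw [e11, pow_succ, hn]
  exact Ideal.mul_mem_mul (Ideal.mem_span_singleton_self _) e12

end DEG

open _root_.Pool.Agent.ME3.DEG in
theorem t3_DEG (hIDL : S3_IDL) : S3_DEG := by
  classical
  intro A B P V hC hG n f hf h2f h3f
  have hR := hC.ring
  obtain ⟨f1, -, f3, -, f5⟩ := Pool.Agent.MEE.tm_FAC Pool.Agent.MEE.tm_TRA A B hR
  obtain ⟨i3, -, ipow, -, ilv⟩ := hIDL A B P V hC
  obtain ⟨-, -, -, -, ibot, -⟩ := ilv f n hf
  have hd := hC.dP
  -- ideals
  set m : Ideal (OO A B) := lvR P f n with hm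
  set m' : Ideal (OO A B) := idl (A := A) (B := B) f with hm'
  have hmm' : m ≤ m' := Ideal.mul_le_left
  have hm2 : m' ≤ idl (A := A) (B := B) 2 := Ideal.span_singleton_le_span_singleton.2
    (by exact_mod_cast (Nat.cast_dvd_cast (α := OO A B) h2f))
  have hmP : m ≤ P := Ideal.mul_le_right.trans (Ideal.pow_le_self (by omega))
  have hm0 : m ≠ ⊥ := ibot
  have hcop0 : IsCoprime (((3 ^ (n + 1) : ℕ)) : OO A B) ((f : ℕ) : OO A B) := by
    have h4 : Nat.Coprime (3 ^ (n + 1)) f :=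
      Nat.Coprime.pow_left _ ((Nat.Prime.coprime_iff_not_dvd Nat.prime_three).2 h3f)
    have h5 := (Nat.isCoprime_iff_coprime.2 h4).intCast (R := OO A B)
    simpa using h5
  have hmem3 : (((3 ^ (n + 1) : ℕ)) : OO A B) ∈ P ^ (2 * n + 1) := by
    rw [pow_succ, ipow n]
    have : (((3 ^ (n + 1) : ℕ)) : OO A B) = ((3 ^ n : ℕ) : OO A B) * 3 := by
      push_cast
      exact pow_succ 3 n
    rw [this]
    exact Ideal.mul_mem_mul (Ideal.mem_span_singleton_self _) i3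
  have hcop : IsCoprime m' (P ^ (2 * n + 1)) := by
    rw [Ideal.isCoprime_iff_exists]
    obtain ⟨a, b, hab⟩ := hcop0
    exact ⟨b * (f : OO A B), Ideal.mul_mem_left _ _ (Ideal.mem_span_singleton_self _),
      a * ((3 ^ (n + 1) : ℕ) : OO A B), Ideal.mul_mem_left _ _ hmem3, by rw [add_comm]; exact hab⟩
  have hinf : ∀ x : OO A B, x ∈ P ^ (2 * n + 1) → x ∈ m' → x ∈ m := by
    intro x h4 h5
    have h6 : m' * P ^ (2 * n + 1) = m' ⊓ P ^ (2 * n + 1) := Ideal.mul_eq_inf_of_isCoprime hcop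
    show x ∈ m' * P ^ (2 * n + 1)
    rw [h6]
    exact ⟨h5, h4⟩
  -- fields
  have hF : RFE m' ≤ RFE m := f1 m m' hmm'
  haveI := hG.fin m hm0
  haveI := hG.gal m hm0
  rw [← Pool.Agent.FX.card_fix hF]
  refine Nat.mul_le_mul_right _ ?_
  -- the kernel
  have hker : ∀ σ : Pool.Agent.FX.Fix (RFE m') (RFE m), ∃ α : OO A B, α - 1 ∈ m' ∧
      ActEE (_root_.Pool.Agent.MU3A.em σ.1) m α := by
    intro σ
    refine hG.ker m m' hm0 hmm' hm2 (_root_.Pool.Agent.MU3A.em σ.1) ?_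
    intro y hy hy'
    exact σ.2 y hy hy'
  choose α hα1 hα2 using hker
  have hα3 : ∀ σ, α σ ∉ P := by
    intro σ hσ
    have h4 := (hα2 σ).1
    have h5 : sp (α σ) ≤ P := (Ideal.span_singleton_le_iff_mem _).2 hσ
    have h7 : sp (α σ) ⊔ m = ⊤ := Ideal.isCoprime_iff_sup_eq.1 h4
    have h8 : (⊤ : Ideal (OO A B)) ≤ P := h7 ▸ sup_le h5 hmP
    exact hC.max.ne_top (top_le_iff.1 h8)
  have hinj : ∀ σ τ, α σ - α τ ∈ P ^ (2 * n + 1) → σ = τ := by
    intro σ τ h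
    have h4 : α σ - α τ ∈ m' := by
      have := sub_mem (hα1 σ) (hα1 τ)
      rwa [sub_sub_sub_cancel_right] at this
    have h5 : α σ - α τ ∈ m := hinf _ h h4
    have h6 := f5 m (RFE m) (_root_.Pool.Agent.MU3A.em σ.1) (α σ) (α τ) (Or.inl h5) (hα2 σ)
    have h7 := f3 m _ _ _ h6 (hα2 τ)
    exact Pool.Agent.FX.fix_ext fun x => DFunLike.congr_fun h7 x
  have hcard : Nat.card (Pool.Agent.FX.Fix (RFE m') (RFE m)) ≤ Nat.card (_root_.Pool.Agent.ME3.DEG.box n) := by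
    refine Nat.card_le_card_of_injective
      (fun σ => ⟨_root_.Pool.Agent.ME3.DEG.cls n (α σ), _root_.Pool.Agent.ME3.DEG.cls_mem P i3 hd n _ (hα3 σ)⟩) ?_
    intro σ τ h
    exact hinj _ _ (_root_.Pool.Agent.ME3.DEG.cls_inj P i3 hd n (ipow n) _ _ (congrArg Subtype.val h))
  refine hcard.trans (le_of_eq ?_)
  rw [Nat.card_eq_fintype_card, Fintype.card_coe, _root_.Pool.Agent.ME3.DEG.card_box]

end

end Pool.Agent.ME3


end

section

/-!
# MUX-NS, block ER: (BPW) the powers of `b` (helper39)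
-/

set_option autoImplicit false

namespace Pool.Agent.ME3

open _root_.MU3 _root_.Pool.Agent.MU3A _root_.Pool.Agent.MU3B _root_.Pool.Agent.MUX _root_.Pool.Agent.MUXU _root_.Pool.Agent.MUXE
open _root_.Pool.Agent.RI _root_.Pool.Agent.NS _root_.Pool.Agent.NSRD
open _root_.Pool.Agent.ME hiding ActE
open _root_.Pool.Agent.MEE
open _root_.Pool.Agent.NSER (PtsR Ex Sf_ALG Sf_PRO Sf_PUL Sf_COE Sf_GRN Sf_LEG Sf_TW3 Sf_PTS Sf_TNC Sf_UNT Sf_RAT Sf_ISO Sf_ADD Sf_THN Sf_NE1 Sf_ORB)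

namespace BPW

lemma cancel {R : Type} [CommRing R] {P : Ideal R} (hP : P.IsMaximal) {y t : R} (hy : y ∈ P)
    (ht : t ∉ P) (h : y * t ∈ P * P) : y ∈ P * P := by
  obtain ⟨t', p, hp, h1⟩ := hP.exists_inv ht
  have h2 : y = y * t * t' + y * p := by
    calc y = y * 1 := by ring
      _ = y * (t' * t + p) := by rw [h1]
      _ = _ := by ring
  rw [h2]
  exact (P * P).add_mem ((P * P).mul_mem_right _ h) (Ideal.mul_mem_mul hy hp)

lemma one_add_pow {R : Type} [CommRing R] (X : R) (l : ℕ) :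
    ∃ s : R, (1 + X) ^ l = 1 + X * (l + X * s) := by
  induction l with
  | zero => exact ⟨0, by simp⟩
  | succ l ih =>
    obtain ⟨s, hs⟩ := ih
    refine ⟨s + l + X * s, ?_⟩
    rw [pow_succ, hs]
    push_cast
    ring

lemma nm_add_mul {A B : ℤ} (x t : OO A B) (m : ℕ) :
    ∃ r : ℤ, nm (x + (m : OO A B) * t) = nm x + m * r := by
  refine ⟨2 * x.re * t.re + m * t.re ^ 2 + B * (x.re * t.im + t.re * x.im + m * t.re * t.im) -
    A * (2 * x.im * t.im + m * t.im ^ 2), ?_⟩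
  simp only [nm, QuadraticAlgebra.re_add, QuadraticAlgebra.im_add, QuadraticAlgebra.re_mul,
    QuadraticAlgebra.im_mul, QuadraticAlgebra.re_natCast, QuadraticAlgebra.im_natCast]
  ring

lemma nm_mul1 {A B : ℤ} (x y : OO A B) : nm (x * y) = nm x * nm y := by
  simp only [nm, QuadraticAlgebra.re_mul, QuadraticAlgebra.im_mul]
  ring

end BPW

theorem t3_BPW (h : S3_IDL) : S3_BPW := by
  intro A B P V hc f n b hf hb
  obtain ⟨h3P, -, -, hnP, hI⟩ := h A B P V hc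
  have hmax := hc.max
  have hsq := hc.sq
  have hlv : lvX 3 f n = 3 ^ (n + 1) * f := by simp [lvX, q0]; ring
  unfold IsB at hb
  rw [hlv] at hb ⊢
  set δ : OO A B := dD A B with hδ
  set m : OO A B := ((3 ^ (n + 1) * f : ℕ) : OO A B) with hm
  set cb : OO A B := 1 - ((3 * f : ℕ) : OO A B) * δ with hcb
  -- `c̄` is prime to `m`
  have hco0 : IsCoprime cb ((3 * f : ℕ) : OO A B) := ⟨1, δ, by rw [hcb]; ring⟩
  have hdv : m ∣ ((3 * f : ℕ) : OO A B) ^ (n + 1) := by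
    refine ⟨((f ^ n : ℕ) : OO A B), ?_⟩
    rw [hm]
    push_cast
    ring
  have hco : IsCoprime cb m := (hco0.pow_right).of_isCoprime_of_dvd_right hdv
  obtain ⟨c', t', hct⟩ := hco
  rw [Ideal.mem_span_singleton] at hb
  obtain ⟨s, hs⟩ := hb
  have hmP : m ∈ P := by
    have : m = ((3 ^ n * f : ℕ) : OO A B) * 3 := by rw [hm]; push_cast; ring
    rw [this]
    exact P.mul_mem_left _ h3P
  have h1P : (1 : OO A B) ∉ P := fun h1 => hmax.ne_top ((Ideal.eq_top_iff_one P).2 h1)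
  -- `b - 1`
  have hb1 : b - 1 = ((3 * f : ℕ) : OO A B) * (δ * (2 * c')) + m * (c' * s + (b - 1) * t') := by
    have e1 : (b - 1) * cb = 2 * (((3 * f : ℕ) : OO A B) * δ) + m * s := by
      have : b * cb = 1 + ((3 * f : ℕ) : OO A B) * δ + m * s := by
        linear_combination hs
      rw [sub_mul, this, hcb]; ring
    calc b - 1 = (b - 1) * (c' * cb + t' * m) := by rw [hct, mul_one]
      _ = c' * ((b - 1) * cb) + (b - 1) * (t' * m) := by ring
      _ = _ := by rw [e1]; ring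
  have hc'P : c' ∉ P := by
    intro h1
    apply h1P
    rw [← hct]
    exact P.add_mem (P.mul_mem_right _ h1) (P.mul_mem_left _ hmP)
  have h2P : (2 : OO A B) ∉ P := by
    intro h1
    apply h1P
    have : (1 : OO A B) = 3 - 2 := by norm_num
    rw [this]
    exact P.sub_mem h3P h1
  have h2c : (2 * c' : OO A B) ∉ P := by
    intro h1
    rcases hmax.isPrime.mem_or_mem h1 with h2 | h2
    · exact h2P h2
    · exact hc'P h2
  have hδPP : δ ∉ P * P := by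
    rw [hsq, Ideal.mem_span_singleton]
    rintro ⟨z, hz⟩
    have h1 := congrArg QuadraticAlgebra.im hz
    rw [hδ] at h1
    simp only [dD, QuadraticAlgebra.im_mul, QuadraticAlgebra.re_natCast,
      QuadraticAlgebra.im_natCast] at h1
    push_cast at h1
    omega
  have hδP : δ ∈ P := hc.dP
  have hy1 : δ * (2 * c') ∈ P := P.mul_mem_right _ hδP
  have hy1' : δ * (2 * c') ∉ P * P := fun h1 => hδPP (BPW.cancel hmax hδP h2c h1)
  -- the powers `b ^ (3 ^ j)`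
  have hpw : ∀ j : ℕ, ∃ y ∈ P, y ∉ P * P ∧
      ∃ r, b ^ (3 ^ j) = 1 + ((3 ^ (j + 1) * f : ℕ) : OO A B) * y + m * r := by
    intro j
    induction j with
    | zero =>
      refine ⟨δ * (2 * c'), hy1, hy1', c' * s + (b - 1) * t', ?_⟩
      have : b = 1 + (b - 1) := by ring
      rw [pow_zero, pow_one, zero_add, pow_one]
      linear_combination hb1
    | succ j ih =>
      obtain ⟨y, hy, hy', r, hr⟩ := ih
      set X : OO A B := ((3 ^ (j + 1) * f : ℕ) : OO A B) * y with hX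
      have hXP : X ∈ P := P.mul_mem_left _ hy
      have ht : (1 + (X + ((3 ^ j * f : ℕ) : OO A B) * y * X) : OO A B) ∉ P := by
        intro h1
        apply h1P
        have := P.sub_mem h1 (P.add_mem hXP (P.mul_mem_left (((3 ^ j * f : ℕ) : OO A B) * y) hXP))
        simpa using this
      refine ⟨y * (1 + (X + ((3 ^ j * f : ℕ) : OO A B) * y * X)), P.mul_mem_right _ hy,
        fun h1 => hy' (BPW.cancel hmax hy ht h1),
        3 * (1 + X) ^ 2 * r + 3 * (1 + X) * m * r ^ 2 + m ^ 2 * r ^ 3, ?_⟩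
      have e1 : b ^ (3 ^ (j + 1)) = (b ^ (3 ^ j)) ^ 3 := by rw [← pow_mul, pow_succ]
      rw [e1, hr, hX]
      push_cast
      ring
  have hcong : ∀ u v : OO A B, (∃ r, u = v + m * r) → ∀ l : ℕ, ∃ r, u ^ l = v ^ l + m * r := by
    rintro u v ⟨r, rfl⟩ l
    obtain ⟨w, hw⟩ := sub_dvd_pow_sub_pow (v + m * r) v l
    refine ⟨r * w, ?_⟩
    linear_combination hw
  refine ⟨?_, ?_, ?_, ?_, ?_⟩
  · -- (1)
    have h1 : IsCoprime (1 + ((3 * f : ℕ) : OO A B) * δ) m :=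
      (IsCoprime.pow_right (n := n + 1) (⟨1, -δ, by ring⟩ :
        IsCoprime (1 + ((3 * f : ℕ) : OO A B) * δ) ((3 * f : ℕ) : OO A B))).of_isCoprime_of_dvd_right
        hdv
    have h2 : b * cb = 1 + ((3 * f : ℕ) : OO A B) * δ + m * s := by linear_combination hs
    have h3 : IsCoprime (b * cb) m := by
      rw [h2]
      exact h1.add_mul_left_left s
    exact h3.of_mul_left_left
  · -- (2)
    intro l j hl hl' _
    obtain ⟨k, rfl⟩ := hl
    have hk : ¬ 3 ∣ k := by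
      rintro ⟨k', rfl⟩
      exact hl' ⟨k', by ring⟩
    obtain ⟨y, hy, hy', r, hr⟩ := hpw j
    obtain ⟨r', hr'⟩ := hcong _ _ ⟨r, hr⟩ k
    set X : OO A B := ((3 ^ (j + 1) * f : ℕ) : OO A B) * y with hX
    have hXP : X ∈ P := P.mul_mem_left _ hy
    obtain ⟨w, hw⟩ := BPW.one_add_pow X k
    have ht : (k + X * w : OO A B) ∉ P := by
      intro h1
      have h2 := P.sub_mem h1 (P.mul_mem_right w hXP)
      rw [add_sub_cancel_right] at h2
      exact hk ((hnP k).1 h2)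
    refine ⟨y * (k + X * w), P.mul_mem_right _ hy, fun h1 => hy' (BPW.cancel hmax hy ht h1), ?_⟩
    rw [Ideal.mem_span_singleton]
    refine ⟨r', ?_⟩
    rw [pow_mul, hr', hw, hX]
    ring
  · -- (3)
    obtain ⟨y, -, -, r, hr⟩ := hpw n
    rw [Ideal.mem_span_singleton]
    refine ⟨y + r, ?_⟩
    rw [hr]
    ring
  · -- (4)
    have h2 : b * cb = 1 + ((3 * f : ℕ) : OO A B) * δ + m * s := by linear_combination hs
    obtain ⟨r, hr⟩ := BPW.nm_add_mul (1 + ((3 * f : ℕ) : OO A B) * δ) s (3 ^ (n + 1) * f)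
    have h3 : nm (b * cb) = nm (1 + ((3 * f : ℕ) : OO A B) * δ) + (3 ^ (n + 1) * f : ℕ) * r := by
      rw [h2, hm]; exact hr
    rw [BPW.nm_mul1] at h3
    have e1 : nm (1 + ((3 * f : ℕ) : OO A B) * δ) = 1 - 9 * (f : ℤ) ^ 2 * (B ^ 2 + 4 * A) := by
      simp only [hδ, dD, nm, QuadraticAlgebra.re_add, QuadraticAlgebra.im_add,
        QuadraticAlgebra.re_mul, QuadraticAlgebra.im_mul, QuadraticAlgebra.re_natCast,
        QuadraticAlgebra.im_natCast, QuadraticAlgebra.re_one, QuadraticAlgebra.im_one]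
      push_cast
      ring
    have e2 : nm cb = 1 - 9 * (f : ℤ) ^ 2 * (B ^ 2 + 4 * A) := by
      simp only [hcb, hδ, dD, nm, QuadraticAlgebra.re_sub, QuadraticAlgebra.im_sub,
        QuadraticAlgebra.re_mul, QuadraticAlgebra.im_mul, QuadraticAlgebra.re_natCast,
        QuadraticAlgebra.im_natCast, QuadraticAlgebra.re_one, QuadraticAlgebra.im_one]
      push_cast
      ring
    rw [e1, e2] at h3
    set q : ℤ := 1 - 9 * (f : ℤ) ^ 2 * (B ^ 2 + 4 * A) with hq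
    have h4 : q * (nm b - 1) = 3 ^ (n + 1) * (f * r) := by
      push_cast at h3
      linear_combination h3
    have h5 : IsCoprime ((3 : ℤ) ^ (n + 1)) q := by
      apply IsCoprime.pow_left
      exact ⟨3 * (f : ℤ) ^ 2 * (B ^ 2 + 4 * A), 1, by rw [hq]; ring⟩
    exact h5.dvd_of_dvd_mul_left ⟨f * r, h4⟩
  · -- (5)
    intro hn l
    have h6 : b - 1 ∈ lvR P f 1 := by
      rw [(hI f 1 hf).1]
      refine ⟨δ * (2 * c') + 3 ^ n * (c' * s + (b - 1) * t'), P.add_mem hy1 ?_, ?_⟩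
      · obtain ⟨k, rfl⟩ : ∃ k, n = k + 1 := ⟨n - 1, by omega⟩
        rw [pow_succ, mul_assoc]
        exact P.mul_mem_left _ (P.mul_mem_right _ h3P)
      · have := hb1
        rw [hm] at this
        push_cast at this ⊢
        linear_combination this
    obtain ⟨w, hw⟩ := sub_dvd_pow_sub_pow b 1 l
    rw [one_pow] at hw
    rw [hw]
    exact Ideal.mul_mem_right _ _ h6

end Pool.Agent.ME3


end

section

/-!
# MUX-NS, block EN: pullback of representable functions (helper96)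

`F = A(s') + r' B(s')` on `S'`, `ρ : S → S'` with `s' ∘ ρ` represented by `(0, 0)` and `r' ∘ ρ` by
`(0, c)`: then `F ∘ ρ` is represented by `(α, β c)`.
-/

set_option autoImplicit false

open Polynomial

namespace Pool.Agent.NSER

open _root_.MU3 _root_.Pool.Agent.MU3A _root_.Pool.Agent.MU3B _root_.Pool.Agent.MUX _root_.Pool.Agent.MUXU _root_.Pool.Agent.MUXE
open _root_.Pool.Agent.RI _root_.Pool.Agent.NS _root_.Pool.Agent.NSRD
open _root_.Pool.Agent.NSE (E3 su ru WL IntP Rep)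
open _root_.Pool.Agent.MUXV (GR InK tX)

theorem tf_PUL (hA : Sf_ALG) (hP : Sf_PRO) : Sf_PUL := by
  intro V S S' s r s' r' a2 a4 ρ c hpts hρ hs hr F α β hF
  obtain ⟨-, -, -, hch, hadd, hmul, -, hval, -⟩ := hA V S s r a2 a4 hpts
  obtain ⟨hpol, -, -⟩ := hP V S s r a2 a4 hpts
  obtain ⟨P, Q, iP, iQ, hFe, hPα, hQβ⟩ := hF
  have hc : V.valuation c ≤ 1 := (hval _ _ _ hr).2.1
  have h1 := hpol _ _ _ P hs iP
  have h2 := hpol _ _ _ Q hs iQ
  have h3 := hmul _ _ _ _ _ _ hr h2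
  have h4 := hadd _ _ _ _ _ _ h1 h3
  refine hch _ _ _ _ _ _ h4 (fun Y hY => hFe (ρ Y) (hρ Y hY)) ?_ ?_
  · have e1 : α - (P.eval 0 + 0 * Q.eval 0) = -(P.coeff 0 - α) := by
      rw [coeff_zero_eq_eval_zero P]
      ring
    rw [e1, Valuation.map_neg]
    exact hPα
  · have e2 : β * c - (0 * (derivative P).eval 0 +
        (0 * (0 * (derivative Q).eval 0) + Q.eval 0 * c)) = -(Q.coeff 0 - β) * c := by
      rw [coeff_zero_eq_eval_zero Q]
      ring
    rw [e2, map_mul, Valuation.map_neg]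
    calc V.valuation (Q.coeff 0 - β) * V.valuation c
        ≤ V.valuation (3 : ℂ) * 1 := mul_le_mul' hQβ hc
      _ = V.valuation (3 : ℂ) := mul_one _

end Pool.Agent.NSER


end

section

/-!
# MUX-NS, block ER, module PTS: the points of order three satisfy `PtsR` (helper95; after `E_PTS.lean`)
-/

set_option autoImplicit false

open Polynomial

namespace Pool.Agent.NSER

open _root_.MU3 _root_.Pool.Agent.MU3A _root_.Pool.Agent.MU3B _root_.Pool.Agent.MUX _root_.Pool.Agent.MUXU _root_.Pool.Agent.MUXE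
open _root_.Pool.Agent.RI _root_.Pool.Agent.NS _root_.Pool.Agent.NSRD
open _root_.Pool.Agent.MUXV (GR InK tX)
open _root_.Pool.Agent.NSE (E3 su ru WL IntP Rep)
open _root_.Pool.Agent.NSE.PTS (ca cb sep nz third pnt pnt_mem)

noncomputable section

/-- the product of the four roots of a quartic polynomial -/
theorem pts_prod {a b c d : ℂ} (ha : a ≠ 0) (s : Fin 4 → ℂ) (hs : Function.Injective s)
    (h : ∀ i, a * s i ^ 4 + b * s i ^ 2 + c * s i + d = 0) : a * ∏ i, s i = d := by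
  have hdeg : (C a * X ^ 4 + C b * X ^ 2 + C c * X + C d : ℂ[X]).degree = 4 := by
    have h4 : (C a * X ^ 4 + C b * X ^ 2 + C c * X + C d : ℂ[X]) =
        C a * X ^ 4 + (C b * X ^ 2 + C c * X + C d) := by ring
    rw [h4]
    have h1 : (C a * X ^ 4 : ℂ[X]).degree = 4 := degree_C_mul_X_pow 4 ha
    have h2 : (C b * X ^ 2 + C c * X + C d : ℂ[X]).degree < (C a * X ^ 4 : ℂ[X]).degree := by
      rw [h1]
      exact lt_of_le_of_lt degree_quadratic_le (by norm_num)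
    rw [degree_add_eq_left_of_degree_lt h2, h1]
  have hlead : (C a * X ^ 4 + C b * X ^ 2 + C c * X + C d : ℂ[X]).leadingCoeff = a := by
    have h1 : (C a * X ^ 4 + C b * X ^ 2 + C c * X + C d : ℂ[X]).natDegree = 4 :=
      natDegree_eq_of_degree_eq_some hdeg
    rw [leadingCoeff, h1]
    simp
  set Q : ℂ[X] := C a * ∏ i : Fin 4, (X - C (s i)) with hQ
  have hQm : (∏ i : Fin 4, (X - C (s i)) : ℂ[X]).Monic := monic_prod_X_sub_C _ _
  have hQn : (∏ i : Fin 4, (X - C (s i)) : ℂ[X]).natDegree = 4 := by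
    rw [natDegree_finsetProd_X_sub_C_eq_card]
    simp
  have hQd : Q.degree = 4 := by
    rw [hQ, degree_C_mul ha, degree_eq_natDegree hQm.ne_zero, hQn]
    rfl
  have hQl : Q.leadingCoeff = a := by
    rw [hQ, leadingCoeff_mul, leadingCoeff_C, hQm.leadingCoeff, mul_one]
  have key : (C a * X ^ 4 + C b * X ^ 2 + C c * X + C d : ℂ[X]) = Q := by
    apply eq_of_degree_sub_lt_of_eval_index_eq (s := Finset.univ) (v := s) hs.injOn
    · have := degree_sub_lt_left (hdeg.trans hQd.symm) (by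
        intro h0
        rw [h0] at hdeg
        simp at hdeg) (hlead.trans hQl.symm)
      rw [hdeg] at this
      simpa using this
    · intro i _
      have e1 : Q.eval (s i) = 0 := by
        rw [hQ, eval_mul, eval_prod]
        have : ∏ j : Fin 4, eval (s i) (X - C (s j)) = 0 :=
          Finset.prod_eq_zero (Finset.mem_univ i) (by simp)
        rw [this, mul_zero]
      rw [e1]
      simp only [eval_add, eval_mul, eval_C, eval_pow, eval_X]
      exact h i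
  have h0 := congrArg (fun p : ℂ[X] => p.eval 0) key
  simp only [eval_add, eval_mul, eval_C, eval_pow, eval_X, hQ, eval_prod, eval_sub] at h0
  rw [Fin.prod_univ_four] at h0 ⊢
  linear_combination -h0

/-- PTS. -/
theorem tf_PTS (hCOE : Sf_COE) (hTW3 : Sf_TW3) : Sf_PTS := by
  intro V L u e lam hG h3
  obtain ⟨-, -, -, -, hl, -, heq, -, hper⟩ := hCOE V L u e lam hG h3
  have htw := hTW3 V L u e lam hG h3
  have hE : ∀ Y ∈ E3 L, ∀ w ∈ L.lattice, Y + w ∈ E3 L := by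
    intro Y hY w hw
    constructor
    · rw [mul_add]
      refine add_mem hY.1 ?_
      have h1 : (3 : ℂ) * w = w + w + w := by ring
      rw [h1]
      exact add_mem (add_mem hw hw) hw
    · intro h
      apply hY.2
      have h1 := sub_mem h hw
      rwa [add_sub_cancel_right] at h1
  have hP : ∀ (z w : ℂ), w ∈ L.lattice → su L u e (z + w) = su L u e z ∧
      ru L u e (z + w) = ru L u e z := by
    intro z w hw
    obtain ⟨h1, h2⟩ := (hper z).1 w hw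
    unfold su ru
    rw [h1, h2]
    exact ⟨rfl, rfl⟩
  refine ⟨⟨h3, ?_, hl.le, ?_, ?_, ?_, ?_, ?_⟩, ?_⟩
  · rw [Valuation.map_neg]
    by_contra hgt
    rw [not_le] at hgt
    have h1 : (1 : V.ValueGroup) < V.valuation (1 + lam) ^ 2 := one_lt_pow₀ hgt two_ne_zero
    exact absurd (h1.trans_le hG.lam1) (not_lt.2 h3.le)
  · intro Y hY
    refine ⟨?_, (htw Y hY).2.2.1⟩
    unfold su
    exact inv_ne_zero (htw Y hY).2.1
  · intro Y hY
    have hx : xu L u e Y ≠ 0 := (htw Y hY).2.1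
    have h1 := heq Y hY.2
    unfold ru su
    rw [div_pow, neg_sq, h1]
    field_simp
    ring
  · intro Y hY
    refine ⟨-Y, ⟨?_, ?_⟩, ?_, ?_⟩
    · rw [mul_neg]
      exact neg_mem hY.1
    · intro h
      apply hY.2
      have h1 := neg_mem h
      rwa [neg_neg] at h1
    · unfold su
      rw [(hper Y).2.1]
    · unfold ru
      rw [(hper Y).2.1, (hper Y).2.2, neg_div, neg_div, neg_neg]
  · have hinj : Function.Injective fun i => su L u e (pnt L i) := by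
      intro i j hij
      simp only [su] at hij
      have h1 : xu L u e (pnt L i) = xu L u e (pnt L j) := inv_injective hij
      have h2 : L.weierstrassP (pnt L i) = L.weierstrassP (pnt L j) := by
        unfold xu at h1
        have hu : u ^ 2 ≠ 0 := pow_ne_zero 2 hG.u0
        have h4 := (div_left_inj' hu).1 h1
        exact sub_left_injective h4
      apply sep
      rcases b_NEQ L (pnt L j) (pnt L i) (pnt_mem L j).2 (pnt_mem L i).2 h2 with h | h
      · left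
        apply third L
        have e1 : (((ca i - ca j : ℤ) : ℂ) * L.ω₁ + ((cb i - cb j : ℤ) : ℂ) * L.ω₂) / 3 =
            pnt L i - pnt L j := by
          unfold pnt
          push_cast
          ring
        rw [e1]
        exact h
      · right
        apply third L
        have e1 : (((ca i + ca j : ℤ) : ℂ) * L.ω₁ + ((cb i + cb j : ℤ) : ℂ) * L.ω₂) / 3 =
            pnt L i + pnt L j := by
          unfold pnt
          push_cast
          ring
        rw [e1]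
        exact h
    refine ⟨pnt L, pnt_mem L, hinj, ?_⟩
    have hl0 : lam ^ 2 ≠ 0 := by
      intro h0
      have h1 : V.valuation (lam ^ 2) = 1 := by rw [map_pow, hl, one_pow]
      rw [h0, map_zero] at h1
      exact zero_ne_one h1
    have hprod := pts_prod (a := lam ^ 2) (b := -(6 * lam)) (c := 4 * (1 + lam)) (d := -3) hl0
      (fun i => su L u e (pnt L i)) hinj (fun i => by
        have h5 := (htw _ (pnt_mem L i)).2.2.2
        linear_combination h5)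
    have h6 := congrArg V.valuation hprod
    rw [map_mul, map_pow, hl, one_pow, one_mul, Valuation.map_neg] at h6
    exact h6.le
  · refine (Set.finite_range (fun p : Fin 3 × Fin 3 =>
      (su L u e (((p.1 : ℕ) * L.ω₁ + (p.2 : ℕ) * L.ω₂) / 3),
        ru L u e (((p.1 : ℕ) * L.ω₁ + (p.2 : ℕ) * L.ω₂) / 3)))).subset ?_
    rintro _ ⟨Y, hY, rfl⟩
    obtain ⟨i, j, hij⟩ := PeriodPair.mem_lattice.1 hY.1
    have hi0 : 0 ≤ i % 3 := Int.emod_nonneg i (by norm_num)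
    have hi1 : i % 3 < 3 := Int.emod_lt_of_pos i (by norm_num)
    have hj0 : 0 ≤ j % 3 := Int.emod_nonneg j (by norm_num)
    have hj1 : j % 3 < 3 := Int.emod_lt_of_pos j (by norm_num)
    have hi : i = 3 * (i / 3) + i % 3 := (Int.mul_ediv_add_emod i 3).symm
    have hj : j = 3 * (j / 3) + j % 3 := (Int.mul_ediv_add_emod j 3).symm
    refine ⟨(⟨(i % 3).toNat, by omega⟩, ⟨(j % 3).toNat, by omega⟩), ?_⟩
    have c1 : (((i % 3).toNat : ℕ) : ℂ) = ((i % 3 : ℤ) : ℂ) := by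
      have := Int.toNat_of_nonneg hi0
      exact_mod_cast congrArg (fun n : ℤ => (n : ℂ)) this
    have c2 : (((j % 3).toNat : ℕ) : ℂ) = ((j % 3 : ℤ) : ℂ) := by
      have := Int.toNat_of_nonneg hj0
      exact_mod_cast congrArg (fun n : ℤ => (n : ℂ)) this
    have hiC : (i : ℂ) = 3 * ((i / 3 : ℤ) : ℂ) + ((i % 3 : ℤ) : ℂ) := by
      exact_mod_cast congrArg (fun n : ℤ => (n : ℂ)) hi
    have hjC : (j : ℂ) = 3 * ((j / 3 : ℤ) : ℂ) + ((j % 3 : ℤ) : ℂ) := by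
      exact_mod_cast congrArg (fun n : ℤ => (n : ℂ)) hj
    have e1 : Y = (((i % 3).toNat : ℕ) * L.ω₁ + ((j % 3).toNat : ℕ) * L.ω₂) / 3 +
        (((i / 3 : ℤ) : ℂ) * L.ω₁ + ((j / 3 : ℤ) : ℂ) * L.ω₂) := by
      rw [c1, c2]
      have h4 : (3 : ℂ) ≠ 0 := by norm_num
      apply mul_left_cancel₀ h4
      rw [← hij, hiC, hjC]
      ring
    have h5 := hP ((((i % 3).toNat : ℕ) * L.ω₁ + ((j % 3).toNat : ℕ) * L.ω₂) / 3) _
      (PeriodPair.mem_lattice.2 ⟨i / 3, j / 3, rfl⟩)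
    rw [← e1] at h5
    simp only [h5.1, h5.2]
  · intro Y hY w hw
    exact ⟨hE Y hY w hw, hP Y w hw⟩

end

end Pool.Agent.NSER


end
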