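import Mathlib
import Pool.Agent.MVF.C049
import Pool.Agent.MVF.C071
import Pool.Agent.MVF.C109
import Pool.Agent.MVF.C150

/-! Parts: NS.E_TW3, NS.E_THN, NS.E_MAIN, NS.GR_TYI, NS.StIR, NS.IR_Pow -/

namespace Pool.Agent.NSE.TW3
end Pool.Agent.NSE.TW3
namespace Pool.Agent.NSGR.TYI
end Pool.Agent.NSGR.TYI

section

/-!
# MUX-NS, block EN: module TW3, the points of order three
-/

set_option autoImplicit false

open Polynomial

namespace Pool.Agent.NSE

open _root_.MU3 _root_.Pool.Agent.MU3A _root_.Pool.Agent.MU3B _root_.Pool.Agent.MUX _root_.Pool.Agent.MUXU _root_.Pool.Agent.MUXE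
open _root_.Pool.Agent.RI _root_.Pool.Agent.NS
open _root_.Pool.Agent.MUXV (GR InK tX)

noncomputable section

namespace TW3

/-- the valuation of the roots of `a⁴`-type polynomial -/
theorem val {V : ValuationSubring ℂ} (h3 : V.valuation (3 : ℂ) < 1) {a2 a4 s : ℂ}
    (h2 : V.valuation a2 ≤ V.valuation (3 : ℂ)) (h4 : V.valuation a4 = 1)
    (heq : a4 ^ 2 * s ^ 4 = 3 + 4 * a2 * s + 6 * a4 * s ^ 2) :
    V.valuation s ^ 4 = V.valuation (3 : ℂ) ∧ V.valuation s < 1 := by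
  have hn : ∀ n : ℕ, V.valuation (n : ℂ) ≤ 1 := fun n =>
    (V.valuation_le_one_iff _).2 (natCast_mem V n)
  have h30 : V.valuation (3 : ℂ) ≠ 0 := by simp
  have hv4 : V.valuation (4 : ℂ) ≤ 1 := by simpa using hn 4
  have hv2 : V.valuation (2 : ℂ) ≤ 1 := by simpa using hn 2
  have hv6 : V.valuation (6 : ℂ) ≤ V.valuation (3 : ℂ) := by
    rw [show (6 : ℂ) = 2 * 3 by norm_num, map_mul]
    exact mul_le_of_le_one_left zero_le hv2
  have hL : V.valuation (a4 ^ 2 * s ^ 4) = V.valuation s ^ 4 := by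
    rw [map_mul, map_pow, map_pow, h4, one_pow, one_mul]
  have hA : V.valuation (4 * a2 * s) ≤ V.valuation (3 : ℂ) * V.valuation s := by
    rw [map_mul, map_mul]
    exact mul_le_mul_left (le_trans (mul_le_of_le_one_left zero_le hv4) h2) _
  have hB : V.valuation (6 * a4 * s ^ 2) ≤ V.valuation (3 : ℂ) * V.valuation s ^ 2 := by
    rw [map_mul, map_mul, map_pow, h4, mul_one]
    exact mul_le_mul_left hv6 _
  have hs : V.valuation s < 1 := by
    by_contra hge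
    rw [not_lt] at hge
    have h1 : V.valuation (3 + 4 * a2 * s + 6 * a4 * s ^ 2) ≤
        V.valuation (3 : ℂ) * V.valuation s ^ 2 := by
      have hs2 : 1 ≤ V.valuation s ^ 2 := one_le_pow₀ hge
      refine le_trans (V.valuation.map_add _ _) (max_le (le_trans (V.valuation.map_add _ _)
        (max_le ?_ ?_)) hB)
      · exact le_mul_of_one_le_right zero_le hs2
      · refine le_trans hA (mul_le_mul_right ?_ _)
        rw [pow_two]
        exact le_mul_of_one_le_right zero_le hge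
    rw [← heq, hL] at h1
    have h5 : V.valuation s ^ 4 < V.valuation s ^ 2 := by
      refine lt_of_le_of_lt h1 ?_
      have hs0 : 0 < V.valuation s ^ 2 := lt_of_lt_of_le zero_lt_one (one_le_pow₀ hge)
      exact mul_lt_of_lt_one_left hs0 h3
    have h6 : V.valuation s ^ 2 ≤ V.valuation s ^ 4 := pow_le_pow_right₀ hge (by norm_num)
    exact absurd h5 (not_lt.2 h6)
  refine ⟨?_, hs⟩
  have h7 : V.valuation (4 * a2 * s + 6 * a4 * s ^ 2) < V.valuation (3 : ℂ) := by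
    have h30' : 0 < V.valuation (3 : ℂ) := lt_of_le_of_ne zero_le h30.symm
    refine lt_of_le_of_lt (V.valuation.map_add _ _) (max_lt ?_ ?_)
    · exact lt_of_le_of_lt hA (mul_lt_of_lt_one_right h30' hs)
    · exact lt_of_le_of_lt hB (mul_lt_of_lt_one_right h30' (pow_lt_one₀ zero_le hs two_ne_zero))
  rw [← hL, heq, add_assoc]
  exact Valuation.map_add_eq_of_lt_left _ h7

end TW3

open _root_.Pool.Agent.NSE.TW3 in
theorem te_TW3 (h : Se_COE) : Se_TW3 := by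
  intro V L u e lam hG h3 Y hY
  obtain ⟨he, hg2, hg3, hv2, hlam, -, hsq, -, hper⟩ := h V L u e lam hG h3
  obtain ⟨h3Y, hYL⟩ := hY
  have h2Y : 2 * Y ∉ L.lattice := by
    intro h2
    apply hYL
    have := sub_mem h3Y h2
    convert this using 1
    ring
  have hu := hG.u0
  have hP : ∀ z, L.weierstrassP z = u ^ 2 * xu L u e z + e := by
    intro z
    unfold xu
    field_simp
    ring
  have hP' : L.derivWeierstrassP Y = 2 * u ^ 3 * yu L u Y := by
    unfold yu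
    field_simp
  have hx2 : xu L u e (2 * Y) = xu L u e Y := by
    have h1 : 2 * Y = -Y + 3 * Y := by ring
    rw [h1, ((hper (-Y)).1 _ h3Y).1, (hper Y).2.1]
  have hd0 : L.derivWeierstrassP Y ≠ 0 := fun h0 => h2Y ((b_ZER L Y hYL).1 h0)
  have hd := (b_DUP L Y h2Y).1
  set x := xu L u e Y with hx
  set y := yu L u Y with hy
  have hy0 : y ≠ 0 := by
    intro h0
    apply hd0
    rw [hP', h0, mul_zero]
  rw [hP, hP, hP', hx2, hg2] at hd
  have hyy : y ^ 2 = x ^ 3 - (1 + lam) * x ^ 2 + lam * x := hsq Y hYL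
  -- the quartic
  have hq : 3 * x ^ 4 - 4 * (1 + lam) * x ^ 3 + 6 * lam * x ^ 2 - lam ^ 2 = 0 := by
    have e1 : (3 * (u ^ 2 * x + e)) * (4 * u ^ 3 * y) ^ 2 =
        (6 * (u ^ 2 * x + e) ^ 2 - 2 * (3 * e ^ 2 - lam * u ^ 4)) ^ 2 := by
      have e2 : u ^ 2 * x + e + 2 * (u ^ 2 * x + e) = 3 * (u ^ 2 * x + e) := by ring
      rw [e2] at hd
      rw [hd]
      field_simp
      ring
    have e3 : e = -(1 + lam) * u ^ 2 / 3 := by
      field_simp
      linear_combination he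
    rw [e3, mul_pow, hyy] at e1
    have e4 : u ^ 8 * (3 * x ^ 4 - 4 * (1 + lam) * x ^ 3 + 6 * lam * x ^ 2 - lam ^ 2) = 0 := by
      linear_combination e1 / 4
    exact (mul_eq_zero.1 e4).resolve_left (pow_ne_zero _ hu)
  have hlam0 : lam ≠ 0 := by
    rintro rfl
    rw [map_zero] at hlam
    exact zero_ne_one hlam
  have hx0 : x ≠ 0 := by
    intro h0
    rw [h0] at hq
    apply hlam0
    have : lam ^ 2 = 0 := by linear_combination -hq
    exact pow_eq_zero_iff two_ne_zero |>.1 this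
  have hval := val (V := V) h3 (a2 := -(1 + lam)) (a4 := lam) (s := su L u e Y)
    (by rw [Valuation.map_neg]; exact hG.lam1) hlam (by
      unfold su
      rw [← hx]
      field_simp
      linear_combination -hq)
  refine ⟨Or.inr ?_, hx0, hval.1⟩
  intro hin
  have h5 : V.valuation (xu L u e Y) ≤ 1 := (V.valuation_le_one_iff _).2 hin
  have h6 := hval.2
  unfold su at h6
  rw [map_inv₀] at h6
  have h7 : V.valuation x * (V.valuation x)⁻¹ < 1 := by
    have hxv : V.valuation x ≠ 0 := by simpa using hx0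
    exact lt_of_le_of_lt (mul_le_of_le_one_left zero_le h5) h6
  rw [mul_inv_cancel₀ (by simpa using hx0)] at h7
  exact lt_irrefl _ h7

end

end Pool.Agent.NSE


end

section

/-!
# MUX-NS, block EN: module THN, the functions `Θ_a(z + μ Y)` on the points of order three
-/

set_option autoImplicit false

open Polynomial

namespace Pool.Agent.NSE

open _root_.MU3 _root_.Pool.Agent.MU3A _root_.Pool.Agent.MU3B _root_.Pool.Agent.MUX _root_.Pool.Agent.MUXU _root_.Pool.Agent.MUXE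
open _root_.Pool.Agent.RI _root_.Pool.Agent.NS
open _root_.Pool.Agent.MUXV (GR InK tX)

noncomputable section

/-- THN. -/
theorem te_THN (h1 : Se_ALG) (h2 : Se_PRO) (h3 : Se_PUL) (h4 : Se_GRN) (h5 : Se_ISO)
    (h6 : Se_ADD) (h7 : Se_PTS) : Se_THN := by
  intro V L M u e lam u' e' lam' μ N hL hM v3 hμ hI hN hNz a H ha hH z hz haz hq
  obtain ⟨ξ, G⟩ := h4 V M u' e' lam' hM v3
  have P := (h7 V L u e lam hL v3).1
  obtain ⟨a1, -, -, a4, a5, a6, -, a8, -⟩ := h1 V (E3 L) (su L u e) (ru L u e) _ _ P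
  obtain ⟨-, p2, -⟩ := h2 V (E3 L) (su L u e) (ru L u e) _ _ P
  obtain ⟨i1, i2, i3⟩ := h5 V L M u e lam u' e' lam' μ N hL hM v3 hμ hI hN hNz
  have hu' : u' ≠ 0 := hM.u0
  have hu : u ≠ 0 := hL.u0
  have hx : ∀ w q, M.weierstrassP w - M.weierstrassP q =
      u' ^ 2 * (xu M u' e' w - xu M u' e' q) := by
    intro w q
    unfold xu
    field_simp
    ring
  have hcv : ∀ q : H, V.valuation (xu M u' e' z - xu M u' e' q) = 1 := fun q =>
    Pool.Agent.MUXV.v_X_sub G hz (hq q q.2).1 (hq q q.2).2.1 (hq q q.2).2.2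
  have hc0 : ∀ q : H, xu M u' e' z - xu M u' e' q ≠ 0 := fun q h0 => by
    have := hcv q
    rw [h0, map_zero] at this
    exact zero_ne_one this
  have hTh : ∀ w, ThetaH M H w =
      (u' ^ 2) ^ H.card * ∏ q : H, (xu M u' e' w - xu M u' e' q) := by
    intro w
    unfold ThetaH
    rw [← Finset.prod_coe_sort, ← Fintype.card_coe H, ← Finset.card_univ, ← Finset.prod_const,
      ← Finset.prod_mul_distrib]
    exact Finset.prod_congr rfl fun q _ => hx w q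
  have hnat : ∀ w ∈ M.lattice, (a : ℂ) * w ∈ M.lattice := by
    intro w hw
    have := M.lattice.smul_mem (a : ℤ) hw
    rwa [zsmul_eq_mul, Int.cast_natCast] at this
  have hdl : ∑ q : H, M.derivWeierstrassP z / (M.weierstrassP z - M.weierstrassP q) =
      dlX M a z := by
    have h8 := (b_TDL M (a : ℂ) H (Nat.cast_ne_zero.2 ha) hnat hH z haz).1
    unfold dlX
    rw [← Finset.sum_coe_sort] at h8
    have h9 : ((‖(a : ℂ)‖ ^ 2 : ℝ) : ℂ) = (a : ℂ) ^ 2 := by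
      rw [Complex.norm_natCast]; push_cast; rfl
    rw [h9] at h8
    exact h8
  have r1 := h3 V (E3 L) (E3 M) (su L u e) (ru L u e) (su M u' e') (ru M u' e') _ _
    (fun Y => μ * Y) (μ * u' / u) P i1 i2 i3 (fun Y => xu M u' e' (z + Y)) (xu M u' e' z)
    (2 * yu M u' z) (h6 V M u' e' lam' hM v3 z hz)
  have z0 : ∀ {x y : ℂ}, x = y → V.valuation (x - y) ≤ V.valuation (3 : ℂ) := by
    rintro x y rfl
    rw [sub_self, map_zero]
    exact zero_le
  have r2 : ∀ q : H, Rep V (E3 L) (su L u e) (ru L u e)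
      (fun Y => xu M u' e' (z + μ * Y) - xu M u' e' q) (xu M u' e' z - xu M u' e' q)
      ((xu M u' e' z - xu M u' e' q) *
        (2 * yu M u' z * (μ * u' / u) / (xu M u' e' z - xu M u' e' q))) := by
    intro q
    have s1 := a5 _ _ _ _ _ _ r1 (a1 (-xu M u' e' q)
      (by rw [Valuation.map_neg]; exact (Pool.Agent.MUXV.int_X (hq q q.2).1).2))
    refine a4 _ _ _ _ _ _ s1 (fun Y _ => sub_eq_add_neg _ _) (z0 (sub_eq_add_neg _ _)) (z0 ?_)
    rw [mul_div_cancel₀ _ (hc0 q), add_zero]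
  obtain ⟨v1, r3⟩ := p2 H (fun q Y => xu M u' e' (z + μ * Y) - xu M u' e' q)
    (fun q => xu M u' e' z - xu M u' e' q)
    (fun q => 2 * yu M u' z * (μ * u' / u) / (xu M u' e' z - xu M u' e' q)) (fun _ => 1) r2 hcv
  have hP0 : ∏ q : H, (xu M u' e' z - xu M u' e' q) ^ (1 : ℤ) ≠ 0 :=
    Finset.prod_ne_zero_iff.2 fun q _ => zpow_ne_zero _ (hc0 q)
  have r4 := a6 _ _ _ _ _ _ r3 (a1 (∏ q : H, (xu M u' e' z - xu M u' e' q) ^ (1 : ℤ))⁻¹
    (by rw [map_inv₀, v1, inv_one]))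
  have r5 : Rep V (E3 L) (su L u e) (ru L u e)
      (fun Y => ThetaH M H (z + μ * Y) / ThetaH M H z) 1 (μ * dlX M a z / u) := by
    refine a4 _ _ _ _ _ _ r4 (fun Y _ => ?_) (z0 (mul_inv_cancel₀ hP0).symm) (z0 ?_)
    · have hk : (u' ^ 2) ^ H.card ≠ 0 := pow_ne_zero _ (pow_ne_zero _ hu')
      change ThetaH M H (z + μ * Y) / ThetaH M H z =
        (∏ q : H, (xu M u' e' (z + μ * Y) - xu M u' e' q) ^ (1 : ℤ)) *
          (∏ q : H, (xu M u' e' z - xu M u' e' q) ^ (1 : ℤ))⁻¹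
      rw [hTh, hTh, mul_div_mul_left _ _ hk, div_eq_mul_inv]
      simp only [zpow_one]
    · rw [mul_zero, zero_add, inv_mul_cancel_left₀ hP0, ← hdl, mul_div_right_comm,
        Finset.mul_sum]
      refine Finset.sum_congr rfl fun q _ => ?_
      have := hc0 q
      rw [hx]
      unfold yu
      push_cast
      field_simp
  refine ⟨?_, (a8 _ _ _ r5).2.1, r5⟩
  rw [hTh, map_mul, map_pow, map_prod, Finset.prod_eq_one fun q _ => hcv q, mul_one]

end

end Pool.Agent.NSE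


end

section

/-!
# MUX-NS, block EN, module MAIN: Lemma E for arbitrary families of pairs
-/

set_option autoImplicit false

namespace Pool.Agent.NSE

open _root_.MU3 _root_.Pool.Agent.MU3A _root_.Pool.Agent.MU3B _root_.Pool.Agent.MUX _root_.Pool.Agent.MUXU _root_.Pool.Agent.MUXE
open _root_.Pool.Agent.RI _root_.Pool.Agent.NS

noncomputable section

lemma mn_f {A B : ℤ} {V : ValuationSubring ℂ} {f : ℕ} (h : SetN A B V f) :
    3 ≤ f ∧ 2 ∣ f := by
  have h0 := h.f0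
  have h1 := h.fD
  have h2 := h.case.neg
  have h4 : 2 * absD A B ≤ (f : ℤ) := Int.le_of_dvd (by positivity) h1
  have h5 : 2 ≤ absD A B := by
    unfold absD
    rcases h.case.hB with rfl | rfl
    · simp at h2 ⊢
      omega
    · simp at h2 ⊢
      omega
  refine ⟨by omega, ?_⟩
  have h6 : (2 : ℤ) ∣ (f : ℤ) := (dvd_mul_right 2 (absD A B)).trans h1
  exact_mod_cast h6

theorem te_MAIN (h1 : Se_ONE) (h2 : Se_CTX) : Se_MAIN := by
  classical
  intro A B V f hS hT hRF ι _ R u e lam hG w hw n hn H hH D hD hDF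
  intro C S hC hcop hprod g hcube τ'
  letI := algC hD
  have hctx := h2 A B V hS.case hS.hV hT hRF
  have hr := hctx.ring
  have hgal := Pool.Agent.MUXE.te_GAL A B hr hT
  have hlv : lvX 3 f n = 3 ^ (n + 1) * f := by
    simp [lvX, q0]
    ring
  obtain ⟨ha3, hap, haf⟩ := m0_aX (p := 3) (Or.inr rfl) hS.f0
  obtain ⟨hf3, hf2⟩ := mn_f hS
  have hm0 : lvX 3 f n ≠ 0 := by
    rw [hlv]
    exact mul_ne_zero (pow_ne_zero _ (by norm_num)) hS.f0
  have hmb := m0_ne A B hr hm0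
  have := hT.fin _ hmb
  -- D is finite over k
  have := Pool.Agent.FX.fd_of_le hD hDF
  have : Finite (D ≃ₐ[kk A B] D) := inferInstance
  letI : Fintype (D ≃ₐ[kk A B] D) := Fintype.ofFinite _
  have hcom := m0_comm hT _ hmb D hD hDF
  have hout : Function.Injective
      (fun q : ι × (OO A B ⧸ idl (A := A) (B := B) (lvX 3 f n)) =>
        ((q.1, Quotient.out q.2) : ι × OO A B)) := by
    intro q q' hq
    have hq0 : ((q.1, Quotient.out q.2) : ι × OO A B) = (q'.1, Quotient.out q'.2) := hq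
    have h4 : q.1 = q'.1 := (Prod.mk.inj hq0).1
    have h5 : (Quotient.out q.2 : OO A B) = Quotient.out q'.2 := (Prod.mk.inj hq0).2
    have h6 : Ideal.Quotient.mk (idl (A := A) (B := B) (lvX 3 f n)) (Quotient.out q.2) =
        Ideal.Quotient.mk (idl (A := A) (B := B) (lvX 3 f n)) (Quotient.out q'.2) :=
      congrArg _ h5
    rw [Ideal.Quotient.mk_out, Ideal.Quotient.mk_out] at h6
    exact Prod.ext h4 h6
  set X : (D ≃ₐ[kk A B] D) → Finset (ι × OO A B) := fun τ =>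
    (S (τ * τ')).image (fun q => (q.1, Quotient.out q.2)) with hX
  have hcopX : ∀ τ : D ≃ₐ[kk A B] D, ∀ y ∈ X τ,
      IsCoprime y.2 ((3 ^ (n + 1) * f : ℕ) : OO A B) := by
    intro τ y hy
    rw [hX] at hy
    obtain ⟨q, hq, rfl⟩ := Finset.mem_image.1 hy
    have := hcop (τ * τ') q hq
    rw [← hlv]
    exact this
  have key := h1 A B V hctx hT hgal n f (aX 3 f) hn hf3 hf2 hS.fp ha3 hap haf ι R u e lam hG H
    hH w hw (D ≃ₐ[kk A B] D) X g hcopX
  rw [← hlv] at key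
  have hprodX : ∀ τ : D ≃ₐ[kk A B] D,
      ∏ y ∈ X τ, ThetaH (R.L y.1) (H y.1) (pt R (lvX 3 f n) y.1 y.2) = C (τ * τ') := by
    intro τ
    rw [hX, Finset.prod_image (fun x _ y _ hxy => hout hxy), hprod (τ * τ')]
  have hsumX : ∀ τ : D ≃ₐ[kk A B] D,
      ∑ y ∈ X τ, w y.2 * muX R y.1 * dlX (R.L y.1) (aX 3 f) (pt R (lvX 3 f n) y.1 y.2) =
      ∑ q ∈ S (τ * τ'), w (Quotient.out q.2) * muX R q.1 *
        dlX (R.L q.1) (aX 3 f) (pt R (lvX 3 f n) q.1 (Quotient.out q.2)) := by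
    intro τ
    rw [hX, Finset.sum_image (fun x _ y _ hxy => hout hxy)]
  rw [finsum_eq_sum_of_fintype]
  have e1 : (∑ τ : D ≃ₐ[kk A B] D, (g τ : ℂ) * ∑ q ∈ S (τ * τ'),
      w (Quotient.out q.2) * muX R q.1 *
        dlX (R.L q.1) (aX 3 f) (pt R (lvX 3 f n) q.1 (Quotient.out q.2))) =
      ∑ j : D ≃ₐ[kk A B] D, (g j : ℂ) * ∑ y ∈ X j, w y.2 * muX R y.1 *
      dlX (R.L y.1) (aX 3 f) (pt R (lvX 3 f n) y.1 y.2) :=
    Finset.sum_congr rfl (fun τ _ => by rw [hsumX])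
  rw [e1]
  apply key
  obtain ⟨v, hv, hvp⟩ := hcube
  rw [finprod_eq_prod_of_fintype] at hvp
  obtain ⟨y, hy1, -⟩ := hC 1
  have hyτ : ∀ τ : D ≃ₐ[kk A B] D, ((τ y : D) : ℂ) = C τ := by
    intro τ
    obtain ⟨y', hy', hy''⟩ := hC τ
    have : y' = y := Subtype.ext (hy'.trans hy1.symm)
    rw [← hy'', this]
  have hw4 : (⟨v, hv⟩ : D) ^ 3 = ∏ τ : D ≃ₐ[kk A B] D, (τ y) ^ g τ := by
    apply Subtype.ext
    rw [IntermediateField.coe_prod]
    rw [show (((⟨v, hv⟩ : D) ^ 3 : D) : ℂ) = v ^ 3 from rfl, hvp]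
    refine Finset.prod_congr rfl (fun τ _ => ?_)
    rw [← hyτ τ, ← m0_zpc (D := D)]
  refine ⟨(τ' ⟨v, hv⟩ : D), hDF _ (τ' ⟨v, hv⟩).2, ?_⟩
  have hw5 := congrArg τ' hw4
  rw [map_pow, map_prod] at hw5
  have hw6 := congrArg (fun y : D => (y : ℂ)) hw5
  push_cast at hw6
  rw [hw6]
  refine Finset.prod_congr rfl (fun τ _ => ?_)
  rw [hprodX, hcom τ τ', map_zpow₀, ← hyτ (τ' * τ), m0_zpc]
  rfl

end

end Pool.Agent.NSE


end

section

/-!
# MUX-NS, block GR, module TYI (helper58): the type of the character at the ramified prime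
-/

set_option autoImplicit false

namespace Pool.Agent.NSGR

open _root_.MU3 _root_.Pool.Agent.MU3A _root_.Pool.Agent.MU3B _root_.Pool.Agent.MU3Q _root_.Pool.Agent.MUX _root_.Pool.Agent.NS
  _root_.Pool.Agent.NSRD _root_.Pool.Agent.NSG _root_.Pool.Agent.MUXN _root_.Pool.Agent.MuSym OnePoint UpperHalfPlane
open _root_.Pool.Agent.MUXF (qb)
open scoped MatrixGroups

noncomputable section

namespace TYI

variable {A B : ℤ} {P : Ideal (OO A B)}

open _root_.Pool.Agent.MUXI.EPS3 (QI)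

lemma qi (hP : IsPN 3 P) : QI P := by
  have h3 : (3 : OO A B) ∈ P := by simpa using hP.mem
  have h1 : (1 : OO A B) ∉ P := fun h => hP.prime.ne_top ((Ideal.eq_top_iff_one _).2 h)
  constructor
  · intro x
    have hc : Nat.card (OO A B ⧸ P) = 3 := hP.norm
    have hfin : Finite (OO A B ⧸ P) := Nat.finite_of_card_ne_zero (by rw [hc]; norm_num)
    have ho : addOrderOf (1 : OO A B ⧸ P) = 3 := by
      have : Fact (Nat.Prime 3) := ⟨Nat.prime_three⟩
      refine addOrderOf_eq_prime ?_ ?_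
      · have h0 : (Ideal.Quotient.mk P) (3 : OO A B) = 0 := Ideal.Quotient.eq_zero_iff_mem.2 h3
        rw [nsmul_eq_mul, mul_one, Nat.cast_ofNat, ← h0, map_ofNat]
      · intro h
        exact h1 (Ideal.Quotient.eq_zero_iff_mem.1 (by simpa using h))
    have htop : AddSubgroup.zmultiples (1 : OO A B ⧸ P) = ⊤ := by
      apply AddSubgroup.eq_top_of_card_eq
      rw [Nat.card_zmultiples, ho, hc]
    have hx : Ideal.Quotient.mk P x ∈ AddSubgroup.zmultiples (1 : OO A B ⧸ P) := by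
      rw [htop]
      trivial
    obtain ⟨n, hn⟩ := AddSubgroup.mem_zmultiples_iff.1 hx
    refine ⟨n, Ideal.Quotient.eq_zero_iff_mem.1 ?_⟩
    rw [map_sub, ← hn, map_intCast, zsmul_eq_mul, mul_one, sub_self]
  · intro n
    constructor
    · intro hn
      by_contra h
      have hcop : IsCoprime (3 : ℤ) n := (Int.prime_three.coprime_iff_not_dvd).2 h
      obtain ⟨a, b, hab⟩ := hcop
      apply h1
      have : (1 : OO A B) = (a : OO A B) * 3 + (b : OO A B) * (n : OO A B) := by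
        have := congrArg (fun t : ℤ => (t : OO A B)) hab
        push_cast at this
        exact this.symm
      rw [this]
      exact P.add_mem (P.mul_mem_left _ h3) (P.mul_mem_left _ hn)
    · rintro ⟨c, rfl⟩
      push_cast
      exact P.mul_mem_right _ h3

/-- `p ^ 2 = tr p * p - nm p` -/
lemma sq_eq (p : OO A B) :
    p ^ 2 = ((2 * p.re + B * p.im : ℤ) : OO A B) * p - ((nm p : ℤ) : OO A B) := by
  have hc : ∀ n : ℤ, ((n : ℤ) : OO A B) = ⟨n, 0⟩ := fun n => by ext <;> simp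
  rw [hc, hc, pow_two]
  ext
  · simp [nm]
    ring
  · simp [nm]
    ring

lemma sq_mem (h3D : (3 : ℤ) ∣ B ^ 2 + 4 * A) (hP : IsPN 3 P) {p : OO A B} (hp : p ∈ P) :
    ∃ y : OO A B, p ^ 2 = 3 * y := by
  have hq := qi hP
  have h1 : (3 : ℤ) ∣ nm p := by
    rw [← hq.int, ← Pool.Agent.MUXF.AlgX.mul_star' p]
    exact P.mul_mem_right _ hp
  have h2 : (3 : ℤ) ∣ 2 * p.re + B * p.im := by
    have : (3 : ℤ) ∣ (2 * p.re + B * p.im) ^ 2 := by
      have e : (2 * p.re + B * p.im) ^ 2 = 4 * nm p + (B ^ 2 + 4 * A) * p.im ^ 2 := by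
        unfold nm
        ring
      rw [e]
      exact dvd_add (Dvd.dvd.mul_left h1 _) (Dvd.dvd.mul_right h3D _)
    exact Int.prime_three.dvd_of_dvd_pow this
  obtain ⟨a, ha⟩ := h1
  obtain ⟨b, hb⟩ := h2
  refine ⟨(b : OO A B) * p - (a : OO A B), ?_⟩
  rw [sq_eq, ha, hb]
  push_cast
  ring

lemma cube_mem (h3D : (3 : ℤ) ∣ B ^ 2 + 4 * A) (hP : IsPN 3 P) {f : ℕ} (hf : ¬ 3 ∣ f) {x : OO A B}
    (hx : x - 1 ∈ idl (A := A) (B := B) f) (hx3 : x - 1 ∈ P) :
    x ^ 3 - 1 ∈ idl (A := A) (B := B) (3 * f) := by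
  obtain ⟨y, hy⟩ := sq_mem h3D hP hx3
  obtain ⟨c, hc⟩ := Ideal.mem_span_singleton'.1 hx
  have hcop : IsCoprime (3 : ℤ) (f : ℤ) :=
    (Int.prime_three.coprime_iff_not_dvd).2 (by exact_mod_cast hf)
  obtain ⟨a, b, hab⟩ := hcop
  have hab' : (a : OO A B) * 3 + (b : OO A B) * (f : OO A B) = 1 := by
    have := congrArg (fun t : ℤ => (t : OO A B)) hab
    push_cast at this
    exact this
  have e1 : x ^ 3 - 1 = 3 * (y * (x - 1) + x * (x - 1)) := by
    have : x ^ 3 - 1 = (x - 1) ^ 2 * (x - 1) + 3 * (x * (x - 1)) := by ring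
    rw [this, hy]
    ring
  have e2 : x ^ 3 - 1 = (f : OO A B) * (c * (x ^ 2 + x + 1)) := by
    have : x ^ 3 - 1 = (x - 1) * (x ^ 2 + x + 1) := by ring
    rw [this, ← hc]
    ring
  refine Ideal.mem_span_singleton'.2 ⟨a * (c * (x ^ 2 + x + 1)) +
    b * (y * (x - 1) + x * (x - 1)), ?_⟩
  have e3 : x ^ 3 - 1 = (a : OO A B) * 3 * (x ^ 3 - 1) + (b : OO A B) * (f : OO A B) * (x ^ 3 - 1) := by
    rw [← add_mul, hab', one_mul]
  rw [e3]
  push_cast
  linear_combination -(a : OO A B) * 3 * e2 - (b : OO A B) * (f : OO A B) * e1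

lemma e_one (h3D : (3 : ℤ) ∣ B ^ 2 + 4 * A) (hP : IsPN 3 P) {f : ℕ} (hf : ¬ 3 ∣ f)
    {e : OO A B → ℂ} (he : _root_.Pool.Agent.MUX.IsEI (idl (A := A) (B := B) (3 * f)) e) {r : ℕ} (hr : ¬ 3 ∣ r)
    (her : ∀ x, e x ≠ 0 → e x ^ r = 1) {x : OO A B}
    (hx : x - 1 ∈ idl (A := A) (B := B) f) (hx3 : x - 1 ∈ P) : e x = 1 := by
  have h1 : e x ^ 3 = 1 := by
    have h2 := he.per _ _ (cube_mem h3D hP hf hx hx3)
    rw [he.one] at h2
    rw [← h2]
    have e3 : x ^ 3 = x * (x * x) := by ring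
    rw [e3, he.mul, he.mul]
    ring
  have h0 : e x ≠ 0 := by
    intro h
    rw [h] at h1
    norm_num at h1
  have h2 := her x h0
  have hcop : Nat.Coprime 3 r := (Nat.Prime.coprime_iff_not_dvd Nat.prime_three).2 hr
  have h3 : orderOf (e x) ∣ Nat.gcd 3 r :=
    Nat.dvd_gcd (orderOf_dvd_of_pow_eq_one h1) (orderOf_dvd_of_pow_eq_one h2)
  rw [hcop] at h3
  exact orderOf_eq_one_iff.1 (Nat.dvd_one.1 h3)

end TYI

open _root_.Pool.Agent.NSGR.TYI in
theorem tv_TYI : Sv_TYI := by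
  intro A B P V f hS e he r hr her
  have h3D := hS.case.three
  have hP := hS.hP
  have hf := hS.fp
  have hq := qi hP
  -- the integer `y`
  obtain ⟨y, hyf, hy3⟩ : ∃ y : ℤ, (f : ℤ) ∣ y - 1 ∧ (3 : ℤ) ∣ y + 1 := by
    have hcop : IsCoprime (3 : ℤ) (f : ℤ) :=
      (Int.prime_three.coprime_iff_not_dvd).2 (by exact_mod_cast hf)
    obtain ⟨a, b, hab⟩ := hcop
    refine ⟨1 - 2 * (b * f), ⟨-2 * b, by ring⟩, ⟨2 * a, ?_⟩⟩
    linear_combination -2 * hab
  have hy2 : e (y : OO A B) * e (y : OO A B) = 1 := by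
    rw [← he.mul, ← he.one]
    apply he.per
    obtain ⟨c, hc⟩ := hyf
    obtain ⟨d, hd⟩ := hy3
    have hdv : ((3 * f : ℕ) : ℤ) ∣ y * y - 1 := by
      refine ⟨c * d, ?_⟩
      push_cast
      linear_combination (y + 1) * hc + (f : ℤ) * c * hd
    obtain ⟨k, hk⟩ := hdv
    refine Ideal.mem_span_singleton'.2 ⟨(k : OO A B), ?_⟩
    have := congrArg (fun t : ℤ => (t : OO A B)) hk
    push_cast at this ⊢
    rw [this]
    ring
  have hyf' : (y : OO A B) - 1 ∈ idl (A := A) (B := B) f := by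
    obtain ⟨c, hc⟩ := hyf
    refine Ideal.mem_span_singleton'.2 ⟨(c : OO A B), ?_⟩
    have := congrArg (fun t : ℤ => (t : OO A B)) hc
    push_cast at this ⊢
    rw [this]
    ring
  have hy3' : (y : OO A B) + 1 ∈ P := by
    have := (hq.int (y + 1)).2 hy3
    push_cast at this
    exact this
  have hminus : ∀ x : OO A B, x - 1 ∈ idl (A := A) (B := B) f → x + 1 ∈ P → e x * e (y : OO A B) = 1 := by
    intro x hx hx1
    rw [← he.mul]
    refine e_one h3D hP hf he hr her ?_ ?_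
    · have e1 : x * (y : OO A B) - 1 = (y : OO A B) * (x - 1) + ((y : OO A B) - 1) := by ring
      rw [e1]
      exact Ideal.add_mem _ (Ideal.mul_mem_left _ _ hx) hyf'
    · have e1 : x * (y : OO A B) - 1 = (y : OO A B) * (x + 1) - ((y : OO A B) + 1) := by ring
      rw [e1]
      exact Ideal.sub_mem _ (Ideal.mul_mem_left _ _ hx1) hy3'
  rcases mul_self_eq_one_iff.1 hy2 with hy | hy
  · refine ⟨0, by norm_num, fun x hx hxP => ?_⟩
    rcases Pool.Agent.MUXI.EPS3.cases hq hxP with ⟨h1, hw⟩ | ⟨h1, hw⟩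
    · rw [e_one h3D hP hf he hr her hx h1, pow_zero]
    · have := hminus x hx h1
      rw [hy, mul_one] at this
      rw [this, pow_zero]
  · refine ⟨1, le_refl _, fun x hx hxP => ?_⟩
    rcases Pool.Agent.MUXI.EPS3.cases hq hxP with ⟨h1, hw⟩ | ⟨h1, hw⟩
    · rw [e_one h3D hP hf he hr her hx h1, hw]
      norm_num
    · have := hminus x hx h1
      rw [hy] at this
      rw [hw]
      push_cast
      linear_combination -this

end

end Pool.Agent.NSGR


end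

section

/-!
# MUX-NS, block IR (helper87, after helper36's `StIN.lean`): from the results of blocks E, H to the input (I3) of block K, ramified case

`3 = P²`, `D ≠ -3`. The weights are the signs `wP P`; `s = 1`.
-/

set_option autoImplicit false

namespace Pool.Agent.NSIR

open _root_.MU3 _root_.Pool.Agent.MU3 _root_.Pool.Agent.MU3A _root_.Pool.Agent.MU3B _root_.Pool.Agent.RI _root_.Pool.Agent.RID
  _root_.Pool.Agent.MUX _root_.Pool.Agent.MUXK _root_.Pool.Agent.MUXI _root_.Pool.Agent.NS _root_.Pool.Agent.NSRD _root_.Pool.Agent.NSI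
open _root_.Pool.Agent.MU3I (w3 zt)

noncomputable section

/-- additive valuation of `x/u` at least `5/4 - (5/6)/3^n` -/
def BdE (V : ValuationSubring ℂ) (n : ℕ) (u x : ℂ) : Prop :=
  V.valuation (x / u) ^ (12 * 3 ^ n) * V.valuation (3 : ℂ) ^ 10 ≤ V.valuation (3 : ℂ) ^ (15 * 3 ^ n)

/-- the input from block E for one field `D` -/
structure EInpR {A B : ℤ} (P : Ideal (OO A B)) (V : ValuationSubring ℂ) (f : ℕ) {ι : Type}
    (R : Reps A B (3 * f) ι) (u : ℂ) (n : ℕ) {D : IntermediateField ℚ ℂ} (h : kk A B ≤ D)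
    (C : (letI := algC h; D ≃ₐ[kk A B] D) → ℂ) : Prop where
  ne : C (letI := algC h; 1) ≠ 0
  conj : letI := algC h
    ∀ τ : D ≃ₐ[kk A B] D, ∃ y : D, (y : ℂ) = C 1 ∧ ((τ y : D) : ℂ) = C τ
  ew : letI := algC h
    ∀ g : (D ≃ₐ[kk A B] D) → ℤ,
      (∃ y ∈ D, y ^ 3 = ∏ᶠ τ : D ≃ₐ[kk A B] D, C τ ^ g τ) → ∀ τ' : D ≃ₐ[kk A B] D,
        BdE V n u (∑ᶠ τ : D ≃ₐ[kk A B] D, (g τ : ℂ) *
          TTX R P (lvX 3 f n) (aX 3 f) h (τ * τ'))

/-- (SUB) `K B_n ≤ RF (lvR P f n)` for `n ≥ 1`; and the field condition of `Sq_EFIN`.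

USES Si_LAY, Si_IAF. PROOF. As `tn_SUB` (`NS/I_SUB.lean`): `lvR P f n ≤ idl (3 f)` (`P^(2n+1) ≤ P² = (3)`), so `K ≤ RF (lvR)` by `mono`. `ζ`, `ζ^(3^(n+1)) = 1`, is in `RF (lvR P f n)`: `σ` an automorphism of `ℂ` trivial on `RF (lvR)`; act with `m = idl (lvX 3 f n)`, `ActI σ m a L L' mu`, also `ActI` for the larger ideal `lvR`, so (`triv`)
`a = sp c`, `c - 1 ∈ lvR`, `nm c ≡ 1` modulo `3^(n+1)`: `c = 1 + y`, `y ∈ P^(2n+1) = 3^n P`, `nm c = 1 + tr y + nm y`, `tr P ⊆ 3 ℤ`; (`zeta`) `σ ζ = ζ^(nI (sp c)) = ζ`. So `ζ ∈ RF (lvR)` (AUF). -/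
def Sp_SUB : Prop :=
  ∀ (A B : ℤ) (P : Ideal (OO A B)) (V : ValuationSubring ℂ) (f : ℕ), SetR A B P V f →
    TorX A B → (∃ (b : Ideal (OO A B)) (L : PeriodPair) (om : ℂ), IsNL b L om) →
    ∀ (K : IntermediateField ℚ ℂ), (∀ y ∈ K, y ∈ RF (idl (A := A) (B := B) (3 * f))) →
    ∀ (n : ℕ) (Bn : IntermediateField ℚ ℂ), 1 ≤ n → IsLayer 3 n Bn →
    (∀ y ∈ K ⊔ Bn, y ∈ RF (lvR P f n)) ∧
    ∀ σ : ℂ ≃+* ℂ, FixK A B σ → (∀ y ∈ RF (idl (A := A) (B := B) (3 * f)), σ y = y) →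
      (∀ z : ℂ, z ^ 3 ^ (n + 1) = 1 → σ z = z) → ∀ y ∈ K ⊔ Bn, σ y = y

/-- (I3) one level, `T`. -/
def Sp_I31 : Prop :=
  ∀ (A B : ℤ) (P : Ideal (OO A B)) (V : ValuationSubring ℂ) (f : ℕ), SetR A B P V f →
    TorX A B → ∀ (ι : Type) [Fintype ι] (R : Reps A B (3 * f) ι) (u el lam : ℂ),
    GoodR V (R.L R.i0) u el lam →
    ∀ (K : IntermediateField ℚ ℂ) (Bn : ℕ → IntermediateField ℚ ℂ)
    [FiniteDimensional ℚ K] [∀ n, FiniteDimensional ℚ ↥(K ⊔ Bn n)]
    (hB : BasX 3 (kk A B) K Bn)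
    (_ : ¬ 3 ∣ Module.finrank (kk A B) (IntermediateField.extendScalars hB.hk))
    (_ : ∀ y ∈ K, y ∈ RF (idl (A := A) (B := B) (lvX 3 f 0)))
    (hk : ∀ n, kk A B ≤ K ⊔ Bn n) (hkK : kk A B ≤ K)
    (C : ∀ n, (letI := algC (hk n); ↥(K ⊔ Bn n) ≃ₐ[kk A B] ↥(K ⊔ Bn n)) → ℂ)
    (_ : ∀ n, 1 ≤ n → EInpR P V f R u n (hk n) (C n)) (c₀ : ℕ → ℂ)
    (mem : ∀ n, c₀ n ∈ K ⊔ Bn n) (_ : ∀ n, 1 ≤ n → c₀ n = C n (letI := algC (hk n); 1))
    (χ : (letI := algC hkK; (↥K ≃ₐ[kk A B] ↥K) →* (IsLocalRing.ResidueField V)ˣ)) (n₀ : ℕ),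
    ∃ n, n₀ ≤ n ∧ I3At (IsLocalRing.ResidueField V) 3 (kk A B) K Bn hkK χ 1 n (hk n) (c₀ n) (mem n)

/-- THE RESULT of block IR: the inputs of block K. -/
def Sp_INP : Prop :=
  ∀ (A B : ℤ) (P : Ideal (OO A B)) (V : ValuationSubring ℂ) (f : ℕ), SetR A B P V f →
    TorX A B → ∀ (ι : Type) [Fintype ι] (R : Reps A B (3 * f) ι) (u el lam : ℂ),
    GoodR V (R.L R.i0) u el lam →
    ∀ (K₀ K : IntermediateField ℚ ℂ) (Bn : ℕ → IntermediateField ℚ ℂ)
    [FiniteDimensional ℚ (kk A B)] [FiniteDimensional ℚ K] [∀ n, FiniteDimensional ℚ ↥(K ⊔ Bn n)]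
    (_ : SetX 3 (kk A B) K₀ K Bn)
    (_ : ∀ y ∈ K₀, y ∈ RF (idl (A := A) (B := B) (lvX 3 f 0)))
    (hk : ∀ n, kk A B ≤ K ⊔ Bn n) (hk₀ : ∀ n, kk A B ≤ K₀ ⊔ Bn n) (hkK : kk A B ≤ K₀)
    (S : Finset ℕ) (c c₀ : ℕ → ℂ) (n₁ : ℕ)
    (_ : Pool.Agent.MUXZ.InpW 3 (kk A B) K₀ K Bn hk hk₀ S c c₀ n₁)
    (C : ∀ n, (letI := algC (hk₀ n); ↥(K₀ ⊔ Bn n) ≃ₐ[kk A B] ↥(K₀ ⊔ Bn n)) → ℂ)
    (_ : ∀ n, 1 ≤ n → EInpR P V f R u n (hk₀ n) (C n))
    (_ : ∀ n, 1 ≤ n → c₀ n = C n (letI := algC (hk₀ n); 1)),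
    InpX (IsLocalRing.ResidueField V) 3 (kk A B) K₀ K Bn hk hk₀ hkK S c c₀ n₁

end

end Pool.Agent.NSIR


end

section

/-!
# MUX-NS, block IR (helper87): one level, from blocks E and H, ramified case

After helper36's `I_I31.lean`.
-/

set_option autoImplicit false

namespace Pool.Agent.NSIR

open _root_.MU3 _root_.Pool.Agent.MU3 _root_.Pool.Agent.MU3A _root_.Pool.Agent.MU3B _root_.Pool.Agent.RI _root_.Pool.Agent.RID
  _root_.Pool.Agent.MUX _root_.Pool.Agent.MUXK _root_.Pool.Agent.MUXI _root_.Pool.Agent.NS _root_.Pool.Agent.NSRD _root_.Pool.Agent.NSI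
open _root_.Pool.Agent.MU3I (w3 zt St_ITG)

noncomputable section

/-- the property `BdE` -/
lemma bd_prop (V : ValuationSubring ℂ) (n : ℕ) (u : ℂ) :
    BdE V n u 0 ∧ (∀ x y : ℂ, BdE V n u x → BdE V n u y → BdE V n u (x + y)) ∧
    (∀ v x : ℂ, v ∈ V → BdE V n u x → BdE V n u (v * x)) ∧
    ∀ v x : ℂ, v ∉ V.nonunits → BdE V n u (v * x) → BdE V n u x := by
  have mono : ∀ x y : ℂ, V.valuation (x / u) ≤ V.valuation (y / u) → BdE V n u y →
      BdE V n u x := by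
    intro x y h hy
    unfold BdE at hy ⊢
    exact (mul_le_mul_left (pow_le_pow_left₀ zero_le h _) _).trans hy
  refine ⟨?_, ?_, ?_, ?_⟩
  · unfold BdE
    have h1 : 12 * 3 ^ n ≠ 0 := by positivity
    simp [h1]
  · intro x y hx hy
    have h1 : V.valuation ((x + y) / u) ≤ max (V.valuation (x / u)) (V.valuation (y / u)) := by
      rw [add_div]
      exact V.valuation.map_add _ _
    rcases le_total (V.valuation (x / u)) (V.valuation (y / u)) with h | h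
    · rw [max_eq_right h] at h1
      exact mono _ _ h1 hy
    · rw [max_eq_left h] at h1
      exact mono _ _ h1 hx
  · intro v x hv hx
    refine mono _ _ ?_ hx
    rw [mul_div_assoc, map_mul]
    exact mul_le_of_le_one_left' ((V.valuation_le_one_iff v).2 hv)
  · intro v x hv hx
    refine mono _ _ ?_ hx
    rw [mul_div_assoc, map_mul]
    have h1 : 1 ≤ V.valuation v := by
      by_contra h2
      exact hv (V.mem_nonunits_iff.2 (lt_of_not_ge h2))
    exact le_mul_of_one_le_left' h1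

/-- if the product is a cube, then the sum is small -/
theorem pows (hFOU : Sn_FOU) (hTG : St_ITG) {A B : ℤ} (P : Ideal (OO A B)) (V : ValuationSubring ℂ)
    (f : ℕ) {ι : Type} (R : Reps A B (3 * f) ι) (u : ℂ)
    (n : ℕ) (D : IntermediateField ℚ ℂ) [FiniteDimensional ℚ D] (h : kk A B ≤ D)
    (C : (letI := algC h; D ≃ₐ[kk A B] D) → ℂ) (hE : EInpR P V f R u n h C) :
    letI := algC h
    ∀ (_ : ∀ σ τ : D ≃ₐ[kk A B] D, σ * τ = τ * σ) (c₁ : ℂ) (hc : c₁ ∈ D) (_ : c₁ = C 1)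
      (γ : D ≃ₐ[kk A B] D) (Δ : Subgroup (D ≃ₐ[kk A B] D)) [Fintype Δ] (N : ℕ) (b : Δ → ℕ)
      (X : Δ →* ℂˣ) (_ : (∑ δ : Δ, (b δ : ℂ) * (X δ : ℂ)) ∉ V.nonunits) (y : D)
      (_ : y ^ 3 = ∏ δ : Δ, ((δ : D ≃ₐ[kk A B] D) ((Tg γ)^[N] ⟨c₁, hc⟩)) ^ b δ),
      BdE V n u (∑ j ∈ Finset.range (N + 1),
        (((-1 : ℤ) ^ (N - j) * (N.choose j : ℤ) : ℤ) : ℂ) *
        ∑ δ : Δ, (((X δ)⁻¹ : ℂˣ) : ℂ) * TTX R P (lvX 3 f n)
          (aX 3 f) h (γ ^ j * (δ : D ≃ₐ[kk A B] D))) := by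
  classical
  let akL : Algebra (kk A B) D := algC h
  intro comm c₁ hc hc1 γ Δ iΔ N b X hX y hy
  have fdk := Pool.Agent.FX.fd (kk A B) D
  have iG : Fintype (D ≃ₐ[kk A B] D) := Fintype.ofFinite _
  let e : ℕ → ℤ := fun j => (-1 : ℤ) ^ (N - j) * (N.choose j : ℤ)
  let g : (D ≃ₐ[kk A B] D) → ℤ := fun τ => ∑ δ : Δ, ∑ j ∈ Finset.range (N + 1),
      if (δ : D ≃ₐ[kk A B] D) * γ ^ j = τ then (b δ : ℤ) * e j else 0
  have hcτ : ∀ τ : D ≃ₐ[kk A B] D, ((τ ⟨c₁, hc⟩ : D) : ℂ) = C τ := by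
    intro τ
    obtain ⟨y', hy1, hy2⟩ := hE.conj τ
    have h3 : y' = ⟨c₁, hc⟩ := Subtype.ext (hy1.trans hc1.symm)
    rw [← h3]
    exact hy2
  have hcne : (⟨c₁, hc⟩ : D) ≠ 0 := by
    intro h0
    apply hE.ne
    have h1 : c₁ = 0 := congrArg Subtype.val h0
    rw [hc1] at h1
    exact h1
  have hu : ∀ τ : D ≃ₐ[kk A B] D, C τ ≠ 0 := by
    intro τ h0
    rw [← hcτ τ] at h0
    have h1 : τ (⟨c₁, hc⟩ : D) = 0 := Subtype.ext h0
    exact hcne ((map_eq_zero_iff τ τ.injective).1 h1)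
  have e1 : (y : ℂ) ^ 3 = ∏ᶠ τ : D ≃ₐ[kk A B] D, C τ ^ g τ := by
    rw [MU3I.I3F.prod_exp γ Δ _ hu (fun δ => (b δ : ℤ)) N e g (fun τ => rfl)]
    have h1 : (y : ℂ) ^ 3 = D.val (y ^ 3) := rfl
    rw [h1, hy, map_prod]
    refine Finset.prod_congr rfl fun δ _ => ?_
    rw [MU3I.I3F.tg_pow hTG _ _ γ δ _ hcne N (b δ), map_prod]
    refine Finset.prod_congr rfl fun j _ => ?_
    rw [map_zpow₀]
    exact congrArg (fun w : ℂ => w ^ ((b δ : ℤ) * e j)) (hcτ ((δ : D ≃ₐ[kk A B] D) * γ ^ j))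
  have e2 := hE.ew g ⟨y, y.2, e1⟩
  obtain ⟨q1, q2, q3, q4⟩ := bd_prop V n u
  refine hFOU V (BdE V n u) q1 q2 q3 q4
    (D ≃ₐ[kk A B] D) comm γ Δ
    (fun τ => TTX R P (lvX 3 f n) (aX 3 f) h τ) (fun δ => (b δ : ℤ)) N e X ?_ ?_
  · simpa using hX
  · intro τ'
    have e3 := e2 τ'
    rw [MU3I.I3F.sum_exp γ Δ (fun τ => TTX R P (lvX 3 f n) (aX 3 f) h τ)
      (fun δ => (b δ : ℤ)) N e g (fun τ => rfl) τ'] at e3
    exact e3

lemma cast_wP_sq {A B : ℤ} {P : Ideal (OO A B)} (hq : EPS3.QI P) {x : OO A B} (h : x ∉ P) :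
    ((wP P x : ℤ) : ℂ) ^ 2 = 1 := by
  have h1 := EPS3.wP_sq hq h
  have h2 : (((wP P x) ^ 2 : ℤ) : ℂ) = 1 := by rw [h1]; norm_num
  simpa using h2

/-- the odd character -/
lemma epsR {A B : ℤ} {P : Ideal (OO A B)} {V : ValuationSubring ℂ} {f : ℕ}
    (hS : SetR A B P V f) (e0 : OO A B → ℂ) (r : ℕ)
    (h01 : e0 1 = 1) (h0m : e0 (-1) = 1) (h0mul : ∀ x y, e0 (x * y) = e0 x * e0 y)
    (h0per : ∀ x y, x - y ∈ idl (A := A) (B := B) (lvX 3 f 0) → e0 x = e0 y)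
    (h0supp : ∀ x, e0 x ≠ 0 ↔ IsCoprime x ((lvX 3 f 0 : ℕ) : OO A B))
    (h0pow : ∀ x, e0 x ≠ 0 → e0 x ^ r = 1) :
    IsEI (idl (A := A) (B := B) (3 * f)) (fun x => e0 x * ((wP P x : ℤ) : ℂ)) ∧
    (∀ x, e0 x * ((wP P x : ℤ) : ℂ) ≠ 0 → (e0 x * ((wP P x : ℤ) : ℂ)) ^ (2 * r) = 1) := by
  have hq : EPS3.QI P := Pool.Agent.NSGR.TYI.qi hS.hP
  have hlv : lvX 3 f 0 = 3 * f := by
    unfold lvX q0
    norm_num
    ring
  have h3P : ((3 * f : ℕ) : OO A B) ∈ P := by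
    have h1 := P.mul_mem_right ((f : ℕ) : OO A B) hS.hP.mem
    push_cast at h1 ⊢
    exact h1
  have h1P : (1 : OO A B) ∉ P := fun h => hS.hP.prime.ne_top ((Ideal.eq_top_iff_one _).2 h)
  have hcop : ∀ x : OO A B, IsCoprime x ((3 * f : ℕ) : OO A B) → x ∉ P := by
    rintro x ⟨a, b, hab⟩ hx
    apply h1P
    rw [← hab]
    exact P.add_mem (P.mul_mem_left _ hx) (P.mul_mem_left _ h3P)
  have w1 : wP P (1 : OO A B) = 1 := by
    have h := EPS3.wP_eq hq (x := 1) (n := 1) (by simp)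
    rw [h]
    decide
  constructor
  · constructor
    · rw [h01, w1]
      norm_num
    · intro x y
      rw [h0mul, EPS3.wP_mul hq]
      push_cast
      ring
    · intro x y hxy
      have h1 : x - y ∈ P := by
        have h2 : idl (A := A) (B := B) (3 * f) ≤ P := by
          rw [Ideal.span_singleton_le_iff_mem]
          exact h3P
        exact h2 hxy
      rw [h0per x y (by rw [hlv]; exact hxy), EPS3.wP_per hq h1]
    · intro x
      constructor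
      · intro h
        have h1 : e0 x ≠ 0 := left_ne_zero_of_mul h
        have h2 := (h0supp x).1 h1
        rw [hlv] at h2
        exact (Ideal.isCoprime_span_singleton_iff x ((3 * f : ℕ) : OO A B)).2 h2
      · intro h
        have h2 : IsCoprime x ((3 * f : ℕ) : OO A B) :=
          (Ideal.isCoprime_span_singleton_iff x ((3 * f : ℕ) : OO A B)).1 h
        have h3 : e0 x ≠ 0 := (h0supp x).2 (by rw [hlv]; exact h2)
        have h4 : wP P x ≠ 0 := (EPS3.wP_ne hq x).2 (hcop x h2)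
        exact mul_ne_zero h3 (by exact_mod_cast h4)
    · rw [h0m, EPS3.wP_neg hq, w1]
      norm_num
  · intro x h
    have h1 : e0 x ≠ 0 := left_ne_zero_of_mul h
    have h2 := (h0supp x).1 h1
    rw [hlv] at h2
    rw [mul_pow, mul_comm 2 r, pow_mul, h0pow x h1, one_pow, one_mul, mul_comm r 2, pow_mul,
      cast_wP_sq hq (hcop x h2), one_pow]

end

end Pool.Agent.NSIR


end
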