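import Mathlib
import Pool.Agent.MVF.C117
import Pool.Agent.MVF.C151
import Pool.Agent.MVF.C152

/-! Parts: NS.GR_PJR, NS.GR_LCR, NS.IR_I31, ME.E3_MUL -/

namespace Pool.Agent.NSGR.PJR
end Pool.Agent.NSGR.PJR

section

/-!
# MUX-NS, block GR, module PJR: the projector for `PR`

`q = D' = |D|/3`, `c_t = (1/q) Σ_n φ(n) exp(-2πi t n/q)`. The first half of `TWR` for the ideals of norm `≡ 1` modulo 3, the second half for the others.
-/

set_option autoImplicit false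

namespace Pool.Agent.NSGR

open _root_.MU3 _root_.Pool.Agent.MU3A _root_.Pool.Agent.MU3B _root_.Pool.Agent.MU3Q _root_.Pool.Agent.MUX _root_.Pool.Agent.NS
  _root_.Pool.Agent.NSRD _root_.Pool.Agent.NSG _root_.Pool.Agent.MUXN _root_.Pool.Agent.MuSym OnePoint UpperHalfPlane
open _root_.Pool.Agent.MUXF (qb)
open scoped MatrixGroups

noncomputable section

namespace PJR

/-- `v (exp (2πi r/q)) = 1` -/
lemma v_exp (V : ValuationSubring ℂ) (q : ℕ) (hq : q ≠ 0) (m : ℤ) :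
    V.valuation (Complex.exp (2 * Real.pi * Complex.I * (m / q))) = 1 := by
  have hqC : (q : ℂ) ≠ 0 := by exact_mod_cast hq
  have h1 : Complex.exp (2 * Real.pi * Complex.I * (m / q)) ^ q = 1 := by
    rw [← Complex.exp_nat_mul, Complex.exp_eq_one_iff]
    refine ⟨m, ?_⟩
    field_simp
  have h2 := congrArg V.valuation h1
  rw [map_pow, map_one] at h2
  exact (pow_eq_one_iff_of_nonneg zero_le hq).1 h2

/-- `v n ≤ 1` -/
lemma v_nat_le (V : ValuationSubring ℂ) (n : ℕ) : V.valuation (n : ℂ) ≤ 1 :=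
  (V.valuation_le_one_iff _).2 (natCast_mem V.toSubring n)

/-- the integers prime to `3` are units at `V` -/
lemma v_nat_one (V : ValuationSubring ℂ) (h3 : V.valuation (3 : ℂ) < 1) {q : ℕ} (hq : ¬ 3 ∣ q) :
    V.valuation (q : ℂ) = 1 := by
  refine le_antisymm (v_nat_le V q) (not_lt.1 fun h => ?_)
  have hcop : IsCoprime (q : ℤ) 3 := by
    have h2 : Nat.Coprime q 3 := ((Nat.Prime.coprime_iff_not_dvd Nat.prime_three).2 hq).symm
    have h4 := Nat.isCoprime_iff_coprime.2 h2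
    exact_mod_cast h4
  obtain ⟨a, b, hab⟩ := hcop
  have habC : (a : ℂ) * q + (b : ℂ) * 3 = 1 := by
    have := congrArg (fun n : ℤ => (n : ℂ)) hab
    push_cast at this
    exact this
  have hint : ∀ n : ℤ, V.valuation (n : ℂ) ≤ 1 := fun n =>
    (V.valuation_le_one_iff _).2 (intCast_mem V.toSubring n)
  have h1 : V.valuation (1 : ℂ) < 1 := by
    rw [← habC]
    refine (Valuation.map_add _ _ _).trans_lt (max_lt ?_ ?_)
    · rw [map_mul]
      exact mul_lt_one_of_nonneg_of_lt_one_right (hint a) zero_le h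
    · rw [map_mul]
      exact mul_lt_one_of_nonneg_of_lt_one_right (hint b) zero_le h3
  rw [map_one] at h1
  exact lt_irrefl _ h1

end PJR

open _root_.Pool.Agent.NSGR.PJR

/-- (PJR) the projector for `PR` -/
theorem tv_PJR (h1 : Sv_PHR) (h2 : Sv_TWR) (h3 : Sv_QB3) : Sv_PJR := by
  intro A B P V f hS ι _ R e he kk u
  have hc : _root_.Pool.Agent.MUX.CQ A B := hS.case.toCQ
  obtain ⟨D', φ, hD3, hD'3, hD0, hφ, hper, hph⟩ := h1 A B hS.case
  have v3 : V.valuation (3 : ℂ) < 1 := by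
    have h4 : emb ((3 : ℕ) : OO A B) ∈ V.nonunits := (hS.hV _).2 hS.hP.mem
    rw [MUX.emb_natCast hc] at h4
    exact_mod_cast V.mem_nonunits_iff.1 h4
  have hg : idl (A := A) (B := B) (3 * f) ≤ _root_.Pool.Agent.MUX.sp ((absD A B : ℤ) : OO A B) := by
    refine Ideal.span_singleton_le_span_singleton.2 ?_
    have h4 : absD A B ∣ 3 * (f : ℤ) := (Dvd.intro_left _ rfl).trans hS.fD
    obtain ⟨m, hm⟩ := h4
    refine ⟨(m : OO A B), ?_⟩
    have h5 := congrArg (fun n : ℤ => (n : OO A B)) hm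
    push_cast at h5 ⊢
    exact h5
  have hg0 : idl (A := A) (B := B) (3 * f) ≠ ⊥ := by
    rw [Ne, Ideal.span_singleton_eq_bot]
    exact natCast_ne_zero' hc (by have := hS.f0; omega)
  refine ⟨D', fun a => (1 / D') * ∑ n ∈ Finset.range D', φ n *
        Complex.exp (2 * Real.pi * Complex.I * (-(a * n) / D')), hD0, ?_, ?_⟩
  · intro t
    have hq1 : V.valuation ((1 : ℂ) / D') = 1 := by
      rw [map_div₀, map_one, v_nat_one V v3 hD'3, div_one]
    rw [map_mul, hq1, one_mul]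
    refine Valuation.map_sum_le _ fun n _ => ?_
    rw [map_mul]
    have e1 : Complex.exp (2 * Real.pi * Complex.I * (-((t : ℂ) * n) / D')) =
        Complex.exp (2 * Real.pi * Complex.I * (((-((t : ℤ) * n) : ℤ) : ℂ) / D')) := by
      push_cast
      rfl
    rw [e1, v_exp V D' hD0, mul_one]
    rcases hφ n with h | h
    · rw [h, map_zero]
      exact zero_le
    · rw [h, map_one]
  · intro x y
    -- the two halves, for one ideal
    have hb : ∀ i, R.b i ≠ ⊥ := fun i => (R.nl i).b_ne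
    have hN : ∀ i, ¬ (3 : ℤ) ∣ (_root_.Pool.Agent.MUX.nI (R.b i) : ℤ) := by
      intro i h
      have h4 := R.cop i
      have h5 : 3 ∣ _root_.Pool.Agent.MUX.nI (R.b i) := by exact_mod_cast h
      have h6 : 3 ∣ Nat.gcd (_root_.Pool.Agent.MUX.nI (R.b i)) (3 * f) := Nat.dvd_gcd h5 (Dvd.intro _ rfl)
      rw [h4] at h6
      omega
    have k1 : ∀ i, (3 : ℤ) ∣ (_root_.Pool.Agent.MUX.nI (R.b i) : ℤ) - 1 → ∀ x y : OnePoint ℚ,
        ∑ a ∈ Finset.range D', ((1 / D') * ∑ n ∈ Finset.range D', φ n *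
          Complex.exp (2 * Real.pi * Complex.I * (-(a * n) / D'))) *
          _root_.Pool.Agent.MUX.PhiI (R.b i) e (mob D' a 0 D' x) (mob D' a 0 D' y) = _root_.Pool.Agent.MUX.PhiI (R.b i) e x y := by
      intro i hi
      refine (h2 A B hc (R.b i) _ e (hb i) hg0 he D' φ hD0 hper).1 ?_
      intro z hz hez
      have h4 := (h3 A B P V f hS e he (R.b i) (hb i) (R.cop i) z hz hez).2.1
      refine (hph (R.b i) _ e (hb i) he hg z hz hez).1 ?_
      omega
    have k2 : ∀ i, ¬ (3 : ℤ) ∣ (_root_.Pool.Agent.MUX.nI (R.b i) : ℤ) - 1 → ∀ x y : OnePoint ℚ,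
        ∑ a ∈ Finset.range D', ((1 / D') * ∑ n ∈ Finset.range D', φ n *
          Complex.exp (2 * Real.pi * Complex.I * (-(a * n) / D'))) *
          _root_.Pool.Agent.MUX.PhiI (R.b i) e (mob (-1) 0 0 1 (mob D' a 0 D' x))
            (mob (-1) 0 0 1 (mob D' a 0 D' y)) = 0 := by
      intro i hi
      refine (h2 A B hc (R.b i) _ e (hb i) hg0 he D' φ hD0 hper).2 ?_
      intro z hz hez
      have h4 := (h3 A B P V f hS e he (R.b i) (hb i) (R.cop i) z hz hez).2.1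
      have h5 := hN i
      refine (hph (R.b i) _ e (hb i) he hg z hz hez).2 ?_
      omega
    generalize hcc : (fun a : ℕ => (1 / (D' : ℂ)) * ∑ n ∈ Finset.range D', φ n *
        Complex.exp (2 * Real.pi * Complex.I * (-((a : ℂ) * n) / D'))) = c at *
    have hcc' : ∀ a : ℕ, (1 / (D' : ℂ)) * ∑ n ∈ Finset.range D', φ n *
        Complex.exp (2 * Real.pi * Complex.I * (-((a : ℂ) * n) / D')) = c a := fun a => by
      rw [← hcc]
    simp only [hcc'] at k1 k2 ⊢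
    -- the sums over `i`
    have s1 : ∑ t ∈ Finset.range D', c t *
        PhiK R e (kkp R kk) (mob D' t 0 D' x) (mob D' t 0 D' y) = PhiK R e (kkp R kk) x y := by
      unfold PhiK
      simp only [Finset.mul_sum]
      rw [Finset.sum_comm]
      refine Finset.sum_congr rfl fun i _ => ?_
      by_cases hi : (3 : ℤ) ∣ (_root_.Pool.Agent.MUX.nI (R.b i) : ℤ) - 1
      · rw [← k1 i hi x y, Finset.mul_sum]
        refine Finset.sum_congr rfl fun t _ => ?_
        ring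
      · have h0 : kkp R kk i = 0 := by
          unfold kkp
          rw [if_neg hi]
        rw [h0, zero_mul]
        refine Finset.sum_eq_zero fun t _ => ?_
        rw [zero_mul, mul_zero]
    have s2 : ∑ t ∈ Finset.range D', c t *
        PhiK R e (kkm R kk) (mob (-1) 0 0 1 (mob D' t 0 D' x))
          (mob (-1) 0 0 1 (mob D' t 0 D' y)) = 0 := by
      unfold PhiK
      simp only [Finset.mul_sum]
      rw [Finset.sum_comm]
      refine Finset.sum_eq_zero fun i _ => ?_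
      by_cases hi : (3 : ℤ) ∣ (_root_.Pool.Agent.MUX.nI (R.b i) : ℤ) - 1
      · have h0 : kkm R kk i = 0 := by
          unfold kkm
          rw [if_pos hi]
        refine Finset.sum_eq_zero fun t _ => ?_
        rw [h0, zero_mul, mul_zero]
      · have h4 := k2 i hi x y
        have h5 : ∑ t ∈ Finset.range D', c t * (kkm R kk i *
            _root_.Pool.Agent.MUX.PhiI (R.b i) e (mob (-1) 0 0 1 (mob D' t 0 D' x))
              (mob (-1) 0 0 1 (mob D' t 0 D' y))) = kkm R kk i *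
            ∑ t ∈ Finset.range D', c t * _root_.Pool.Agent.MUX.PhiI (R.b i) e (mob (-1) 0 0 1 (mob D' t 0 D' x))
              (mob (-1) 0 0 1 (mob D' t 0 D' y)) := by
          rw [Finset.mul_sum]
          refine Finset.sum_congr rfl fun t _ => ?_
          ring
        rw [h5, h4, mul_zero]
    calc ∑ t ∈ Finset.range D', c t * PR R e kk u (mob D' t 0 D' x) (mob D' t 0 D' y)
        = (∑ t ∈ Finset.range D', c t *
            PhiK R e (kkp R kk) (mob D' t 0 D' x) (mob D' t 0 D' y) +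
          ∑ t ∈ Finset.range D', c t *
            PhiK R e (kkm R kk) (mob (-1) 0 0 1 (mob D' t 0 D' x))
              (mob (-1) 0 0 1 (mob D' t 0 D' y))) / (u * R.om R.i0) := by
          rw [← Finset.sum_add_distrib, Finset.sum_div]
          refine Finset.sum_congr rfl fun t _ => ?_
          unfold PR
          ring
      _ = _ := by rw [s1, s2, add_zero]

end

end Pool.Agent.NSGR


end

section

/-!
# MUX-NS, block GR, module LCR (helper4): common denominators, ramified case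
-/

set_option autoImplicit false

namespace Pool.Agent.NSGR

open _root_.MU3 _root_.Pool.Agent.MU3A _root_.Pool.Agent.MU3B _root_.Pool.Agent.MU3Q _root_.Pool.Agent.MUX _root_.Pool.Agent.NS
  _root_.Pool.Agent.NSRD _root_.Pool.Agent.NSG _root_.Pool.Agent.MUXN _root_.Pool.Agent.MuSym OnePoint UpperHalfPlane
open _root_.Pool.Agent.MUXF (qb)
open scoped MatrixGroups

noncomputable section

theorem tv_LCR (h1 : Sg_LOC) : Sv_LCR := by
  intro A B hc P hP V hV S hS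
  obtain ⟨t, ht, hy⟩ := h1 A B hc 3 Nat.prime_three P hP V hV S hS
  refine ⟨t, ?_, hy⟩
  have hle : V.valuation (emb t) ≤ 1 := (V.valuation_le_one_iff _).2 (N_GJ.emb_mem_V hc V t)
  refine le_antisymm hle (not_lt.1 fun hlt => ht ((hV t).1 ?_))
  exact (ValuationSubring.mem_nonunits_iff _).2 hlt

end

end Pool.Agent.NSGR


end

section

/-!
# MUX-NS, block IR (helper87): one level, from blocks E and H, ramified case (glue)

After helper36's `I_I31.lean`.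
-/

set_option autoImplicit false

namespace Pool.Agent.NSIR

open _root_.MU3 _root_.Pool.Agent.MU3 _root_.Pool.Agent.MU3A _root_.Pool.Agent.MU3B _root_.Pool.Agent.RI _root_.Pool.Agent.RID
  _root_.Pool.Agent.MUX _root_.Pool.Agent.MUXK _root_.Pool.Agent.MUXI _root_.Pool.Agent.NS _root_.Pool.Agent.NSRD _root_.Pool.Agent.NSI
open _root_.Pool.Agent.MU3I (w3 zt St_ITG)

noncomputable section

/-- (I31) one level -/
theorem tp_I31 (hRES : Pool.Agent.MUXJ.Sj_RES) (hCHI : Si_CHI) (hFOU : Sn_FOU)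
    (hTG : St_ITG) (hE0 : Sn_E0) (hARF : Si_ARF)
    (hXXF : Si_XXF) (hSUB : Sn_SUB) (hGAM : Si_GAM) (hXM : Sn_XMX) (hBIJ : Si_BIJ) (hTH : Sn_TH)
    (hGEN : Si_GEN) (hH : Sq_HFIN) (hGAL : S_GALX) : Sp_I31 := by
  classical
  intro A B P V f hS hTor ι iι R u el lam hG K Bn iK iKB hB hcop hKT hk hkK C hE c₀ mem hc₀ χ n₀
  let aK : Algebra (kk A B) K := algC hkK
  have iP : Fact (Nat.Prime 3) := ⟨Nat.prime_three⟩
  have hCQ : CQ A B := hS.case.toCQ
  have hL : SetL 3 A B f := ⟨hCQ, Or.inr rfl, hS.f0, hS.fp⟩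
  have hq : EPS3.QI P := Pool.Agent.NSGR.TYI.qi hS.hP
  have hpV : ((3 : ℕ) : ℂ) ∈ V.nonunits := by
    have h1 := (hS.hV ((3 : ℕ) : OO A B)).2 hS.hP.mem
    have h2 : emb ((3 : ℕ) : OO A B) = ((3 : ℕ) : ℂ) := by
      unfold emb
      rw [QuadraticAlgebra.re_natCast, QuadraticAlgebra.im_natCast]
      norm_num
    rwa [h2] at h1
  obtain ⟨iF1, iF2⟩ := hRES 3 V hpV
  have galK : IsGalois (kk A B) K := (isGalois_algC hkK).2 hB.gal
  have fdkK := Pool.Agent.FX.fd (kk A B) K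
  have commK : ∀ a b : K ≃ₐ[kk A B] K, a * b = b * a := by
    intro a b
    have h1 := hB.ab ((extEquiv hkK).symm.autCongr a) ((extEquiv hkK).symm.autCongr b)
    rw [← map_mul, ← map_mul] at h1
    exact (extEquiv hkK).symm.autCongr.injective h1
  have iG0 : Fintype (K ≃ₐ[kk A B] K) := Fintype.ofFinite _
  have hcard : Fintype.card (K ≃ₐ[kk A B] K) =
      Module.finrank (kk A B) (IntermediateField.extendScalars hB.hk) := by
    rw [← Nat.card_eq_fintype_card, IsGalois.card_aut_eq_finrank]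
    exact (extEquiv hkK).toLinearEquiv.finrank_eq
  have hc3 : ¬ 3 ∣ Fintype.card (K ≃ₐ[kk A B] K) := by
    rw [hcard]
    exact hcop
  obtain ⟨X, θ, hXθ⟩ := hCHI 3 V hpV iF1 iF2 (K ≃ₐ[kk A B] K) commK hc3 χ
  obtain ⟨rr, hrr⟩ : ∃ rr, rr = Fintype.card (K ≃ₐ[kk A B] K) := ⟨_, rfl⟩
  have hXr : ∀ τ, X τ ^ rr = 1 := by
    intro τ
    rw [hrr, ← map_pow, pow_card_eq_one, map_one]
  rw [← hrr] at hc3
  obtain ⟨e0, kp, h01, h0m, h0mul, h0per, h0supp, h0pow, hkp, h0X⟩ := hE0 3 A B f hL hTor ι R K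
    hkK hKT galK X _ hXr
  obtain ⟨hei, hepow⟩ := epsR hS e0 rr h01 h0m h0mul h0per h0supp h0pow
  -- the weights
  have hmu : ∀ i, muX R i ≠ 0 := by
    intro i
    have h2 : nI (R.b i) ≠ 0 := by
      intro h
      have h1 := R.cop i
      rw [h, Nat.coprime_zero_left] at h1
      have h3 := Nat.eq_one_of_mul_eq_one_right h1
      omega
    unfold muX
    exact div_ne_zero (mul_ne_zero (R.nl i).om_ne (Nat.cast_ne_zero.2 h2)) (R.nl R.i0).om_ne
  have hkkC : ∀ i, kkC R kp (fun i => muX R i) 1 i = kp i := by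
    intro i
    unfold kkC
    rw [mul_div_cancel_right₀ _ (hmu i), if_pos rfl, mul_one]
  have hkk : ∀ i, kkC R kp (fun i => muX R i) 1 i ^ (2 * rr) = 1 := by
    intro i
    rw [hkkC, mul_comm, pow_mul, hkp, one_pow]
  have h8 : ¬ 3 ∣ 2 * rr := by
    intro h
    rcases (Nat.Prime.dvd_mul Nat.prime_three).1 h with h | h
    · omega
    · exact hc3 h
  set e : OO A B → ℂ := fun x => e0 x * ((wP P x : ℤ) : ℂ) with he
  obtain ⟨n, hn1, hn2, hnot⟩ := hH A B P V f hS hTor ι R u el lam hG e hei (2 * rr) h8 hepow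
    (kkC R kp (fun i => muX R i) 1) hkk (n₀ + 1)
  refine ⟨n, by omega, ?_⟩
  let akL : Algebra (kk A B) ↥(K ⊔ Bn n) := algC (hk n)
  intro γ hγ iN r hr
  obtain ⟨gal, comm⟩ := hGAL 3 (kk A B) K Bn hB n (hk n)
  have hNL : ∃ (b : Ideal (OO A B)) (L : PeriodPair) (om : ℂ), IsNL b L om :=
    ⟨_, _, _, R.nl R.i0⟩
  have hsub := hSUB 3 A B f hL hTor hNL K hKT n (Bn n) (hB.lay n)
  obtain ⟨γ₀, hγ₀, hγ₀z⟩ := hGAM 3 (Or.inr rfl) (kk A B) K Bn hB n (hk n)
  have hXX := hXM 3 A B f hL hTor ι R K (Bn n) n (hk n) (hB.lay n) hsub gal γ₀ hγ₀z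
  obtain ⟨hbij, hrmul⟩ := hBIJ 3 (kk A B) K Bn hB n (hk n) hkK r hr
  have fdk := Pool.Agent.FX.fd (kk A B) ↥(K ⊔ Bn n)
  have iG : Finite (↥(K ⊔ Bn n) ≃ₐ[kk A B] ↥(K ⊔ Bn n)) := inferInstance
  let rh : NC (hk n) (Bn n) →* (K ≃ₐ[kk A B] K) := MonoidHom.mk' r hrmul
  let X' : NC (hk n) (Bn n) →* ℂˣ := X.comp rh
  have hX'θ : (∑ δ : NC (hk n) (Bn n),
      (((θ ((χ (r δ))⁻¹ : (IsLocalRing.ResidueField V)ˣ)).val : ℕ) : ℂ) * (X' δ : ℂ)) ∉
        V.nonunits := by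
    have h1 : (∑ δ : NC (hk n) (Bn n),
      (((θ ((χ (r δ))⁻¹ : (IsLocalRing.ResidueField V)ˣ)).val : ℕ) : ℂ) * (X' δ : ℂ)) =
        ∑ δ : K ≃ₐ[kk A B] K,
      (((θ ((χ δ)⁻¹ : (IsLocalRing.ResidueField V)ˣ)).val : ℕ) : ℂ) * (X δ : ℂ) :=
      Fintype.sum_bijective r hbij _ _ fun δ => rfl
    rw [h1]
    exact hXθ
  have hKD : K ≤ K ⊔ Bn n := le_sup_left
  have hq3 : q0 3 = 3 := by simp [q0]
  have hCc : ∀ i, (nI (R.b i)).Coprime (lvX 3 f n) := fun i => I3P.cop_lv (R.cop i) n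
  have hm2 : 2 ≤ lvX 3 f n := I3P.two_le_lv (Or.inr rfl) hS.f0 n
  have hm0 : (idl (A := A) (B := B) (lvX 3 f n)) ≠ ⊥ := by
    intro h
    have h1 : ((lvX 3 f n : ℕ) : OO A B) = 0 := Ideal.span_singleton_eq_bot.1 h
    have h2 := congrArg QuadraticAlgebra.re h1
    rw [QuadraticAlgebra.re_natCast, QuadraticAlgebra.re_zero] at h2
    have h4 : lvX 3 f n = 0 := by exact_mod_cast h2
    omega
  have hlv : lvX 3 f 0 ∣ lvX 3 f n := I3P.lv_dvd 3 f n
  have hle : idl (A := A) (B := B) (lvX 3 f n) ≤ idl (lvX 3 f 0) := by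
    refine Ideal.span_singleton_le_span_singleton.2 ?_
    exact_mod_cast Nat.cast_dvd_cast hlv
  have hchi : ∀ (δ : NC (hk n) (Bn n)) (j : ℕ),
      ∀ q ∈ XX R (lvX 3 f n) (hk n) (γ₀ ^ j * (δ : ↥(K ⊔ Bn n) ≃ₐ[kk A B] ↥(K ⊔ Bn n))),
      (((X' δ)⁻¹ : ℂˣ) : ℂ) = kp q.1 * e0 (Quotient.out q.2) := by
    intro δ j q hq
    have hqc : IsCoprime (Quotient.out q.2 : OO A B) ((lvX 3 f n : ℕ) : OO A B) := hq.1
    have h1 := hXXF A B hCQ hTor (3 * f) ι R (lvX 3 f n) hm2 hCc (K ⊔ Bn n) (hk n) hsub gal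
    have hq2 : (q.1, Ideal.Quotient.mk (idl (A := A) (B := B) (lvX 3 f n))
        (Quotient.out q.2)) = q := Prod.ext rfl (Quotient.out_eq' q.2)
    have h2 := (h1.1 (γ₀ ^ j * (δ : ↥(K ⊔ Bn n) ≃ₐ[kk A B] ↥(K ⊔ Bn n))) q.1
      (Quotient.out q.2) hqc).1 (by rw [hq2]; exact hq)
    obtain ⟨-, -, -, -, -, h3, -⟩ := hARF A B hCQ hTor hNL (idl (lvX 3 f n)) hm0 (K ⊔ Bn n)
      (hk n) hsub gal
    have hγj : ∀ (i : ℕ) (z : ↥(K ⊔ Bn n)), (z : ℂ) ∈ K → (γ₀ ^ i) z = z := by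
      intro i z hz
      induction i with
      | zero => rfl
      | succ i ih =>
        rw [pow_succ, AlgEquiv.mul_apply, (hγ₀ z).2 hz, ih]
    have h4 := h3 K hkK (idl (lvX 3 f 0)) hle hKD
      (γ₀ ^ j * (δ : ↥(K ⊔ Bn n) ≃ₐ[kk A B] ↥(K ⊔ Bn n))) (r δ)
      (sp (Quotient.out q.2) * cjI (R.b q.1)) (by
        intro x x' hx
        rw [AlgEquiv.mul_apply]
        have h5 := hr δ x x' hx
        have h6 : (((δ : ↥(K ⊔ Bn n) ≃ₐ[kk A B] ↥(K ⊔ Bn n)) x' : ↥(K ⊔ Bn n)) : ℂ) ∈ K := by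
          rw [h5]
          exact (r δ x).2
        rw [hγj j _ h6]
        exact h5) h2
    have hco : IsCoprime (Quotient.out q.2 : OO A B) ((lvX 3 f 0 : ℕ) : OO A B) := by
      have h7 : ((lvX 3 f 0 : ℕ) : OO A B) ∣ ((lvX 3 f n : ℕ) : OO A B) := by
        exact_mod_cast Nat.cast_dvd_cast hlv
      exact hqc.of_isCoprime_of_dvd_right h7
    exact h0X (r δ) q.1 (Quotient.out q.2) hco h4
  -- the ideal `(3 f)`
  have hg1 : idl (A := A) (B := B) (lvX 3 f 0) ≤ idl (3 * f) := by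
    refine Ideal.span_singleton_le_span_singleton.2 ?_
    have h1 : 3 * f ∣ lvX 3 f 0 := by
      unfold lvX
      rw [hq3, pow_zero, mul_one, mul_comm]
    exact_mod_cast Nat.cast_dvd_cast h1
  have hg2 : idl (A := A) (B := B) (3 * f) ≤ idl f := by
    refine Ideal.span_singleton_le_span_singleton.2 ?_
    have h1 : f ∣ 3 * f := dvd_mul_left f 3
    exact_mod_cast Nat.cast_dvd_cast h1
  have hg3 : idl (A := A) (B := B) (lvX 3 f n) ≤ P := by
    rw [Ideal.span_singleton_le_iff_mem]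
    have h1 : ((lvX 3 f n : ℕ) : OO A B) = ((3 : ℕ) : OO A B) * ((f * 3 ^ n : ℕ) : OO A B) := by
      unfold lvX
      rw [hq3]
      push_cast
      ring
    rw [h1]
    exact P.mul_mem_right _ hS.hP.mem
  have hTHi := hTH 3 A B f hL (idl (3 * f)) hg1 hg2 ι R n _ γ₀ (NC (hk n) (Bn n))
    (fun τ => XX R (lvX 3 f n) (hk n) τ) hXX X' e0 kp (fun i => muX R i)
    (fun x => ((wP P x : ℤ) : ℂ)) e 1
    (fun x y hxy => h0per x y (hle hxy))
    (fun x y hxy => by rw [EPS3.wP_per hq (hg3 hxy)]) hei (Or.inl rfl)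
    (fun h => rfl) (fun x _ => by rw [he, if_pos rfl, mul_one]) hchi
  -- the statement for `γ₀`
  have hcne : c₀ n ≠ 0 := by
    rw [hc₀ n hn2]
    exact (hE n hn2).ne
  have v3 : V.valuation (3 : ℂ) < 1 := by
    have h1 := (V.mem_nonunits_iff).1 hpV
    exact_mod_cast h1
  have v30 : V.valuation (3 : ℂ) ≠ 0 := (Valuation.ne_zero_iff _).2 (by norm_num)
  have key : ∀ y : ↥(K ⊔ Bn n), y ^ 3 ≠ ∏ δ : NC (hk n) (Bn n),
      ((δ : ↥(K ⊔ Bn n) ≃ₐ[kk A B] ↥(K ⊔ Bn n)) ((Tg γ₀)^[1] ⟨c₀ n, mem n⟩)) ^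
        (θ ((χ (r δ))⁻¹ : (IsLocalRing.ResidueField V)ˣ)).val := by
    intro y hy
    have hHf := pows hFOU hTG P V f R u n (K ⊔ Bn n) (hk n) (C n) (hE n hn2)
      comm (c₀ n) (mem n) (hc₀ n hn2) γ₀ (NC (hk n) (Bn n)) 1
      (fun δ => (θ ((χ (r δ))⁻¹ : (IsLocalRing.ResidueField V)ˣ)).val) X' hX'θ y hy
    have hS1 : ∑ j ∈ Finset.range (1 + 1),
        (((-1 : ℤ) ^ (1 - j) * (Nat.choose 1 j : ℤ) : ℤ) : ℂ) *
        ∑ δ : NC (hk n) (Bn n), (((X' δ)⁻¹ : ℂˣ) : ℂ) * TTX R P (lvX 3 f n)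
          (aX 3 f) (hk n) (γ₀ ^ j * (δ : ↥(K ⊔ Bn n) ≃ₐ[kk A B] ↥(K ⊔ Bn n))) =
        ∑ j ∈ Finset.range 2, (-1) ^ (1 - j) *
        (STX R (lvX 3 f n) (3 ^ (n + 1)) (aX 3 f) e (kkC R kp (fun i => muX R i) 1) (4 ^ j) +
          STX R (lvX 3 f n) (3 ^ (n + 1)) (aX 3 f) e (kkC R kp (fun i => muX R i) 1)
            (-(4 ^ j))) := by
      refine Finset.sum_congr rfl fun j hj => ?_
      have hj1 : j ≤ 1 := by
        have := Finset.mem_range.1 hj
        omega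
      have hch : Nat.choose 1 j = 1 := by
        interval_cases j <;> rfl
      have h9 := hTHi j
      have e1 : q0 3 * 3 ^ n = 3 ^ (n + 1) := by
        rw [hq3]
        ring
      have e2 : (1 + (q0 3 : ℤ)) = 4 := by
        rw [hq3]
        norm_num
      rw [e1, e2] at h9
      have h10 : ∑ δ : NC (hk n) (Bn n), (((X' δ)⁻¹ : ℂˣ) : ℂ) * TTX R P (lvX 3 f n)
          (aX 3 f) (hk n) (γ₀ ^ j * (δ : ↥(K ⊔ Bn n) ≃ₐ[kk A B] ↥(K ⊔ Bn n))) = _ := h9
      rw [h10, hch]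
      push_cast
      ring
    rw [hS1] at hHf
    unfold BdE at hHf
    set Q := V.valuation ((∑ j ∈ Finset.range 2, (-1) ^ (1 - j) *
        (STX R (lvX 3 f n) (3 ^ (n + 1)) (aX 3 f) e (kkC R kp (fun i => muX R i) 1) (4 ^ j) +
          STX R (lvX 3 f n) (3 ^ (n + 1)) (aX 3 f) e (kkC R kp (fun i => muX R i) 1)
            (-(4 ^ j)))) / u) ^ (12 * 3 ^ n) with hQ
    have h1 : V.valuation (3 : ℂ) ^ (15 * 3 ^ n) ≤
        V.valuation (3 : ℂ) ^ (15 * 3 ^ n) * V.valuation (3 : ℂ) ^ 2 := by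
      calc V.valuation (3 : ℂ) ^ (15 * 3 ^ n) ≤ Q * V.valuation (3 : ℂ) ^ 12 := hnot
        _ = Q * V.valuation (3 : ℂ) ^ 10 * V.valuation (3 : ℂ) ^ 2 := by
            rw [mul_assoc, ← pow_add]
        _ ≤ V.valuation (3 : ℂ) ^ (15 * 3 ^ n) * V.valuation (3 : ℂ) ^ 2 :=
            mul_le_mul_left hHf _
    have h2 : 0 < V.valuation (3 : ℂ) ^ (15 * 3 ^ n) := zero_lt_iff.2 (pow_ne_zero _ v30)
    have h3 : V.valuation (3 : ℂ) ^ 2 < 1 := pow_lt_one₀ zero_le v3 (by norm_num)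
    have h4 : V.valuation (3 : ℂ) ^ (15 * 3 ^ n) * V.valuation (3 : ℂ) ^ 2 <
        V.valuation (3 : ℂ) ^ (15 * 3 ^ n) * 1 := mul_lt_mul_of_pos_left h3 h2
    rw [mul_one] at h4
    exact absurd h1 (not_le_of_gt h4)
  have key2 := hGEN 3 (kk A B) K Bn hB n (hk n) (c₀ n) (mem n) hcne 1 γ₀ hγ₀
    (fun δ => (θ ((χ (r δ))⁻¹ : (IsLocalRing.ResidueField V)ˣ)).val) key γ hγ
  exact ⟨θ, key2⟩

/-- a subfield of a finite-dimensional field is finite-dimensional -/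
lemma fd {E E' : IntermediateField ℚ ℂ} [FiniteDimensional ℚ E'] (h : E ≤ E') :
    FiniteDimensional ℚ E :=
  FiniteDimensional.of_injective (IntermediateField.inclusion h).toLinearMap
    (IntermediateField.inclusion h).injective

lemma c_ne {p : ℕ} {k K₀ K : IntermediateField ℚ ℂ} {B : ℕ → IntermediateField ℚ ℂ}
    [FiniteDimensional ℚ k] [∀ n, FiniteDimensional ℚ ↥(K ⊔ B n)] {hk : ∀ n, k ≤ K ⊔ B n}
    {hk₀ : ∀ n, k ≤ K₀ ⊔ B n} {S : Finset ℕ} {c c₀ : ℕ → ℂ} {n₁ : ℕ}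
    (hI : Pool.Agent.MUXZ.InpW p k K₀ K B hk hk₀ S c c₀ n₁) (i : ℕ) : c₀ i ≠ 0 := by
  let _ := algC (hk i)
  rw [hI.norm i]
  refine finprod_induction (p := fun x : ℂ => x ≠ 0) one_ne_zero
    (fun x y hx hy => mul_ne_zero hx hy) fun g hg => ?_
  have h6 := (map_eq_zero ((g : NC (hk i) (K₀ ⊔ B i)) : ↥(K ⊔ B i) ≃ₐ[k] ↥(K ⊔ B i))).1
    (Subtype.ext hg)
  exact hI.ne i (congrArg Subtype.val h6)

/-- (INP) the inputs of block K -/
theorem tp_INP (h1 : Sp_I31) (h2 : Sn_LEM1) (h3 : Sn_NRX) : Sp_INP := by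
  intro A B P V f hS hTor ι iι R u el lam hG K₀ K Bn ik iK iKB hX hKT hk hk₀ hkK S c c₀ n₁ hW C hE
    hc₀
  have iP : Fact (Nat.Prime 3) := ⟨Nat.prime_three⟩
  have iK₀ : FiniteDimensional ℚ K₀ := fd hX.le
  have iKB₀ : ∀ n, FiniteDimensional ℚ ↥(K₀ ⊔ Bn n) := fun n =>
    fd (E' := K ⊔ Bn n) (sup_le_sup_right hX.le _)
  have hNr := h3 3 (kk A B) K₀ K Bn hX hk hk₀ S c c₀ n₁ hW
  have hI3 : ∀ (χ : (letI := algC hkK; (↥K₀ ≃ₐ[kk A B] ↥K₀) →*
      (IsLocalRing.ResidueField V)ˣ)) (N n₀ : ℕ), ∃ n, n₀ ≤ n ∧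
      I3At (IsLocalRing.ResidueField V) 3 (kk A B) K₀ Bn hkK χ N n (hk₀ n) (c₀ n)
        (hW.mem₀ n) := by
    intro χ N n₀
    refine h2 (IsLocalRing.ResidueField V) 3 (kk A B) K₀ Bn hX.b0 hX.cop hX.om hk₀ hkK c₀ hW.mem₀
      (c_ne hW) n₁ hNr χ (fun n₀ => ?_) N n₀
    exact h1 A B P V f hS hTor ι R u el lam hG K₀ Bn hX.b0 hX.cop hKT hk₀ hkK C hE c₀ hW.mem₀ hc₀ χ
      n₀
  exact
    { mem := hW.mem
      ne := hW.ne
      mem₀ := hW.mem₀
      norm := hW.norm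
      prime := hW.prime
      su := hW.su
      nrm := hW.nrm
      kol := hW.kol
      i3 := hI3 }

end

end Pool.Agent.NSIR


end

section

/-!
# MUX-NS, block ER, module MUL: the isogenies `μ_i x : L_(i0) → L_i` and `μ_i x ν/ν_0 : N_0 → N`
have degree prime to 3 (first part adapted from helper83's `E_MUL.lean`)
-/

set_option autoImplicit false

namespace Pool.Agent.ME3

open _root_.MU3 _root_.Pool.Agent.MU3A _root_.Pool.Agent.MU3B _root_.Pool.Agent.MUX _root_.Pool.Agent.MUXU _root_.Pool.Agent.MUXE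
open _root_.Pool.Agent.RI _root_.Pool.Agent.NS _root_.Pool.Agent.NSRD
open _root_.Pool.Agent.ME hiding ActE
open _root_.Pool.Agent.MEE
open _root_.Pool.Agent.NSER (PtsR Ex Sf_ALG Sf_PRO Sf_PUL Sf_COE Sf_GRN Sf_LEG Sf_TW3 Sf_PTS Sf_TNC Sf_UNT Sf_RAT Sf_ISO Sf_ADD Sf_THN Sf_NE1 Sf_ORB)

noncomputable section

namespace MUL

/-- the first part -/
lemma first {A B : ℤ} {P : Ideal (OO A B)} {V : ValuationSubring ℂ} (hC : CtxR3 A B P V)
    {n : ℕ} {ι : Type} (R : RepsE A B n ι) (h3n : 3 ∣ n) (i : ι) (x : OO A B) (hx : x ∉ P) :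
    muXE R i * emb x ≠ 0 ∧ Isg (R.L R.i0) (R.L i) (muXE R i * emb x) ∧
      ∃ N : ℕ, ¬ 3 ∣ N ∧ ∀ z, muXE R i * emb x * z ∈ (R.L i).lattice →
        (N : ℂ) * z ∈ (R.L R.i0).lattice := by
  have h := hC.cq
  have hnl := R.nl i
  have hnl0 := R.nl R.i0
  have hom : R.om i ≠ 0 := hnl.om_ne
  have hom0 : R.om R.i0 ≠ 0 := hnl0.om_ne
  have hN0 : nI (R.b i) ≠ 0 := nI_ne_zero h hnl.b_ne
  have hNC : ((nI (R.b i) : ℕ) : ℂ) ≠ 0 := by exact_mod_cast hN0
  have hNb : ((nI (R.b i) : ℕ) : OO A B) ∈ R.b i := nI_mem h hnl.b_ne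
  have hx0 : x ≠ 0 := by
    rintro rfl
    exact hx (Ideal.zero_mem _)
  have hex : emb x ≠ 0 := _root_.Pool.Agent.MUX.emb_ne_zero h hx0
  have hmu : muXE R i ≠ 0 := by
    unfold muXE
    exact div_ne_zero (mul_ne_zero hom hNC) hom0
  have hL0 : ∀ z, z ∈ (R.L R.i0).lattice ↔ ∃ x : OO A B, z = R.om R.i0 * emb x := by
    intro z
    rw [hnl0.mem, R.b0]
    simp
  have h3 : Nat.Prime 3 := Nat.prime_three
  refine ⟨mul_ne_zero hmu hex, ?_, (nm x).natAbs * nI (R.b i), ?_, ?_⟩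
  · intro u hu
    obtain ⟨y, rfl⟩ := (hL0 u).1 hu
    rw [hnl.mem]
    refine ⟨(nI (R.b i) : ℕ) * (x * y), (R.b i).mul_mem_right _ hNb, ?_⟩
    rw [_root_.Pool.Agent.MUX.emb_mul h, _root_.Pool.Agent.MUX.emb_mul h, _root_.Pool.Agent.MUX.emb_natCast h]
    unfold muXE
    field_simp
  · intro hd
    rcases h3.dvd_mul.1 hd with h4 | h4
    · apply hC.nrm x hx
      exact Int.natCast_dvd.2 h4
    · have h5 : 3 ∣ Nat.gcd (nI (R.b i)) n := Nat.dvd_gcd h4 h3n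
      rw [Nat.Coprime.gcd_eq_one (R.cop i)] at h5
      omega
  · intro z hz
    obtain ⟨y, -, hy⟩ := (hnl.mem _).1 hz
    rw [hL0]
    refine ⟨star x * y, ?_⟩
    have h1 : (nI (R.b i) : ℂ) * emb x * z = R.om R.i0 * emb y := by
      unfold muXE at hy
      field_simp at hy
      linear_combination hy
    have h2 : (((nm x).natAbs : ℕ) : ℂ) = emb x * emb (star x) := by
      have h6 : (((nm x).natAbs : ℕ) : ℤ) = nm x := Int.natAbs_of_nonneg (nm_nonneg h x)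
      rw [← _root_.Pool.Agent.MUX.emb_mul h, mul_star, _root_.Pool.Agent.MUX.emb_intCast h, ← Int.cast_natCast, h6]
    rw [_root_.Pool.Agent.MUX.emb_mul h]
    have h7 : (((nm x).natAbs : ℕ) : ℂ) * (nI (R.b i) : ℂ) * z =
        R.om R.i0 * (emb (star x) * emb y) := by
      rw [h2]
      linear_combination (emb (star x)) * h1
    rw [← h7, Nat.cast_mul]

end MUL

theorem t3_MUL : S3_MUL := by
  intro A B P V hC n ι R _ h3n i x hx
  obtain ⟨h1, h2, m, hm, h3⟩ := MUL.first hC R h3n i x hx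
  refine ⟨⟨h1, h2, m, hm, h3⟩, ?_⟩
  intro N0 N nu0 nu hq0 hq
  set μ : ℂ := muXE R i * emb x with hμ
  have n0 : nu0 ≠ 0 := hq0.1
  have n1 : nu ≠ 0 := hq.1
  refine ⟨div_ne_zero (mul_ne_zero h1 n1) n0, ?_, m, hm, ?_⟩
  · intro z hz
    have e1 : nu0 * (z / nu0) = z := by field_simp
    have h4 := (hq0.2 (z / nu0)).1 (by rw [e1]; exact hz)
    have e2 : μ * nu / nu0 * z = nu * (μ * (z / nu0)) := by field_simp
    rw [e2, hq.2]
    intro p hp
    have h5 := h2 _ (h4 p hp)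
    have e3 : emb p * (μ * (z / nu0)) = μ * (emb p * (z / nu0)) := by ring
    rw [e3]
    exact h5
  · intro z hz
    have e2 : μ * nu / nu0 * z = nu * (μ * (z / nu0)) := by field_simp
    rw [e2, hq.2] at hz
    have e1 : (m : ℂ) * z = nu0 * (m * (z / nu0)) := by field_simp
    rw [e1, hq0.2]
    intro p hp
    have h5 := hz p hp
    have e3 : emb p * (μ * (z / nu0)) = μ * (emb p * (z / nu0)) := by ring
    rw [e3] at h5
    have h6 := h3 _ h5
    have e4 : emb p * ((m : ℂ) * (z / nu0)) = m * (emb p * (z / nu0)) := by ring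
    rw [e4]
    exact h6

end

end Pool.Agent.ME3


end
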