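import Mathlib
import Pool.Agent.MVF.C115
import Pool.Agent.MVF.C116
import Pool.Agent.MVF.C139
import Pool.Agent.MVF.C150

/-! Parts: MUX.StHR, MUX.HN_HR, MUX.HN_DVR, MUX.HN_TYR, MUX.HRAll, NS.HGR_Sup, NS.HGR_Chr, NS.HGR -/

namespace Pool.Agent.MUXHN.DVR
end Pool.Agent.MUXHN.DVR
namespace Pool.Agent.MUXHN.HRG
end Pool.Agent.MUXHN.HRG

section

/-!
# MUX-NS, block HR (helper87): the ramified case (`3 = p²` in `k`, `D ≠ -3`), abstract

PAPER_NS.md, section 8, with helper21's repairs (1), (3). Same conventions as `StHN.lean`; theorems `tn_X : Sn_X` in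
`Pool/Agent/MUX/HN_X.lean`. `v(3)` has additive valuation 1; values in a field on which the valuations are in `(1/2) ℤ`.
-/

set_option autoImplicit false

namespace Pool.Agent.MUXHN

open _root_.MU3 _root_.Pool.Agent.MuSym _root_.Pool.Agent.MUXH OnePoint

noncomputable section

/-- the standing hypotheses, ramified case: `P = (Φ⁺ + ι^* Φ⁻)/Om`; `P ∞ (x + 1/3) = om * P ∞ x`; the values are in
`pi * KI`, `v(pi) = v(3)^(-i/4)`, `i ≤ 1` (TYPE); `G` is strict (LEMMA G+ for `t = 1/27`) -/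
structure HypR (V : ValuationSubring ℂ) (N₀ s₀ i : ℕ) (nu : ℤ → ℂ)
    (P : OnePoint ℚ → OnePoint ℚ → ℂ) (pi : ℂ) (KI : Subfield ℂ) (om : ℂ) : Prop where
  vp : V.valuation (3 : ℂ) < 1
  N0 : N₀ ≠ 0
  cop : Nat.Coprime 3 N₀
  nu1 : nu 1 = 1
  num : ∀ d d', nu (d * d') = nu d * nu d'
  nuper : ∀ d d', ((3 * N₀ : ℕ) : ℤ) ∣ d - d' → nu d = nu d'
  nuv : ∀ d, V.valuation (nu d) ≤ 1
  sym : IsSym (3 ^ (s₀ + 1) * N₀) nu P
  omp : IsPrimitiveRoot om 3
  rel : ∀ x : ℚ, P ∞ ((x + 1 / 3 : ℚ) : OnePoint ℚ) = om * P ∞ (x : OnePoint ℚ)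
  alg : ∀ x y, IsAlgebraic ℚ (P x y)
  fin : ∃ T : Finset ℂ, ∀ x y, P x y ∈ AddSubgroup.closure (T : Set ℂ)
  typ : ∀ x y, ∃ w ∈ KI, P x y = pi * w
  unr : ∀ w ∈ KI, V.valuation w < 1 → V.valuation w ^ 2 ≤ V.valuation (3 : ℂ)
  i1 : i ≤ 1
  vpi : V.valuation pi ^ 4 * V.valuation (3 : ℂ) ^ i = 1
  /-- Theorem G+ for `P_t` -/
  G : ∀ N' : ℕ, N' ≠ 0 → 3 ^ (s₀ + 1) * N₀ ∣ N' → ∃ α β γ δ : ℤ, α * δ - β * γ = 1 ∧
    (N' : ℤ) ∣ γ ∧ (N' : ℤ) ∣ δ - 1 ∧ 1 < V.valuation (PT P ∞ (mob α β γ δ ∞))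

/-- (TYR) arithmetic of types.

PROOF. `t = v 3`, `0 < t < 1`, `x = pi w`, `v(pi)^4 t^i = 1`. `i = 0`: `v(pi) = 1`, so `v w > 1`, `w⁻¹ ∈ KI`, `v(w⁻¹)² ≤ t`. `i = 1`:
`v(x)^4 t = v(w)^4`. If `v w < 1` then `v(w)^4 ≤ t² < t`, so `v(x)^4 t < t`, `v(x)^4 < 1`. If `v w = 1`: `v(x)^4 t = 1`. If `v w > 1`: as
before `1 ≤ v(w)² t`, so `1 ≤ v(w)^4 t² = v(x)^4 t³`. -/
def Sn_TYR : Prop :=
  ∀ (V : ValuationSubring ℂ) (_ : V.valuation (3 : ℂ) < 1) (KI : Subfield ℂ)
    (_ : ∀ w ∈ KI, V.valuation w < 1 → V.valuation w ^ 2 ≤ V.valuation (3 : ℂ)) (pi : ℂ),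
    (V.valuation pi ^ 4 = 1 → ∀ w ∈ KI, 1 < V.valuation (pi * w) →
      1 ≤ V.valuation (pi * w) ^ 2 * V.valuation (3 : ℂ)) ∧
    (V.valuation pi ^ 4 * V.valuation (3 : ℂ) = 1 → ∀ w ∈ KI, 1 < V.valuation (pi * w) →
      V.valuation (pi * w) ^ 4 * V.valuation (3 : ℂ) = 1 ∨
        1 ≤ V.valuation (pi * w) ^ 4 * V.valuation (3 : ℂ) ^ 3)

/-- (DVR) the character sums of a function with `y (b + 3^n) = om y b`. MODEL: `HN_DVN.lean` (`Sn_DVN`).

PROOF. `q = 3^n`, `W b = y b/y b₀ ∈ K ∩ V`, `W b₀ = 1`, `W (b + q) = om W b`, and `ζ^q om = 1`: the sum over `range (3 q)` of `ζ^b y b` is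
`3` times the sum over `range q` (the terms `b`, `b + q`, `b + 2 q` are equal). `Σ_(b < q) ζ^b W b = Σ_(i < q) c_i (ζ - 1)^i`,
`c_i = Σ_(b < q) binom(b, i) W b ∈ K ∩ V` (`shift_pow` of `MU3/H_HZ.lean`), and `W b = Σ_(i < q) (-1)^(i-b) binom(i, b) c_i` for `0 ≤ b < q`. So not
all `c_i` are in the maximal ideal (`v (W b) = v (W (b + q))`, so some `0 ≤ b < q` has `v (W b) = 1`). Let `j < q` be the smallest `i` with
`v c_i = 1`. For `i < j`: `v(c_i)² ≤ v 3 = x^(2 q)`, `x = v(ζ - 1) < 1` (`x^(2 q) = v 3` as in `Sx_HZ`), so `v c_i ≤ x^q < x^j`. So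
`v(Σ c_i (ζ-1)^i) = x^j`. If `j = q - 1` then, modulo the maximal ideal, `c_i = 0` for `i < q - 1`, so `W b ≡ (-1)^(q-1-b) binom(q-1, b) c_(q-1) ≡
c_(q-1)` for `0 ≤ b < q` (`binom(q-1, b) ≡ (-1)^b` modulo `3`, `q - 1` even), and `W (b + q) = om W b ≡ W b` (`v(om - 1) < 1`): all
`W b` are congruent; `W b - W b' ∈ K` has `v < 1`, so `v(W b - W b')² ≤ v 3`. -/
def Sn_DVR : Prop :=
  ∀ (V : ValuationSubring ℂ) (_ : V.valuation (3 : ℂ) < 1) (K : Subfield ℂ)
    (_ : ∀ w ∈ K, V.valuation w < 1 → V.valuation w ^ 2 ≤ V.valuation (3 : ℂ)) (n : ℕ)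
    (y : ℤ → ℂ) (om : ℂ) (_ : IsPrimitiveRoot om 3)
    (_ : ∀ b : ℤ, y (b + 3 ^ n) = om * y b)
    (_ : ∀ b b' : ℤ, y b' ≠ 0 → y b / y b' ∈ K) (b₀ : ℤ) (_ : y b₀ ≠ 0)
    (_ : ∀ b, V.valuation (y b) ≤ V.valuation (y b₀)) (ζ : ℂ)
    (_ : IsPrimitiveRoot ζ (3 ^ (n + 1))) (_ : ζ ^ 3 ^ n * om = 1),
    ∃ j : ℕ, j < 3 ^ n ∧
      V.valuation (∑ b ∈ Finset.range (3 ^ (n + 1)), ζ ^ b * y b) =
        V.valuation (3 : ℂ) * V.valuation (y b₀) * V.valuation (ζ - 1) ^ j ∧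
      V.valuation (ζ - 1) ^ (2 * 3 ^ n) = V.valuation (3 : ℂ) ∧
      (j = 3 ^ n - 1 → ∀ b b' : ℤ, V.valuation (y b - y b') ^ 2 ≤
        V.valuation (y b₀) ^ 2 * V.valuation (3 : ℂ))

/-- (HR) the conclusion of the block, ramified case.

USES BDN, LOC, KYN, TYR, DVR. PROOF (helper87, glue). `z n b = P ∞ (b/3^n)`. For all `n₀` there are `n ≥ n₀` and `b` with `v(comb α g (i+1) (z n) b) > 1`
(otherwise LOC and KYN with `m = V` contradict `G`). -/
def Sn_HR : Prop :=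
  ∀ (V : ValuationSubring ℂ) (N₀ s₀ i : ℕ) (nu : ℤ → ℂ) (P : OnePoint ℚ → OnePoint ℚ → ℂ)
    (pi : ℂ) (KI : Subfield ℂ) (om : ℂ), HypR V N₀ s₀ i nu P pi KI om →
    ∀ (α g : ℤ), (3 : ℤ) ∣ α - 1 → α ≠ 1 → (3 : ℤ) ∣ g - 1 → g ≠ 1 → ∀ n₀ : ℕ,
      ∃ n, n₀ ≤ n ∧ ∀ ζ : ℂ, IsPrimitiveRoot ζ (3 ^ (n + 1)) → ζ ^ 3 ^ n * om = 1 →
        (i = 0 → V.valuation (3 : ℂ) < V.valuation (∑ b ∈ Finset.range (3 ^ (n + 1)), ζ ^ b *
          comb α g 1 (fun b => P ∞ (((b : ℚ) / 3 ^ (n + 1) : ℚ) : OnePoint ℚ)) b)) ∧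
        (i = 1 → V.valuation (3 : ℂ) ^ 5 ≤
          V.valuation (∑ b ∈ Finset.range (3 ^ (n + 1)), ζ ^ b *
            comb α g 1 (fun b => P ∞ (((b : ℚ) / 3 ^ (n + 1) : ℚ) : OnePoint ℚ)) b) ^ 4 *
          V.valuation (ζ - 1) ^ 8)

end

end Pool.Agent.MUXHN


end

section

/-!
# MUX-NS, block HR: glue (helper87)
-/

set_option autoImplicit false

namespace Pool.Agent.MUXHN

open _root_.MU3 _root_.Pool.Agent.MuSym _root_.Pool.Agent.MUXH OnePoint

noncomputable section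

namespace HRG

/-- the valuation ring as a submodule of `ℂ` -/
def oV (V : ValuationSubring ℂ) : Submodule V ℂ where
  carrier := {x | V.valuation x ≤ 1}
  add_mem' := by
    intro a b ha hb
    have ha' : V.valuation a ≤ 1 := ha
    have hb' : V.valuation b ≤ 1 := hb
    exact (V.valuation.map_add a b).trans (max_le ha' hb')
  zero_mem' := by
    change V.valuation 0 ≤ 1
    rw [map_zero]
    exact zero_le_one
  smul_mem' := by
    intro c x hx
    change V.valuation ((c : ℂ) * x) ≤ 1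
    rw [map_mul]
    exact mul_le_one' ((V.valuation_le_one_iff _).2 c.2) hx

lemma mem_oV {V : ValuationSubring ℂ} {x : ℂ} : x ∈ oV V ↔ V.valuation x ≤ 1 := Iff.rfl

section arith

variable {Γ : Type*} [LinearOrderedCommGroupWithZero Γ] {t x y : Γ} {q j : ℕ}

lemma lt_one_of_pow_lt_one {a : Γ} {n : ℕ} (h : a ^ n < 1) : a < 1 := by
  by_contra hc
  rw [not_lt] at hc
  exact absurd h (not_lt.2 (one_le_pow₀ hc))

lemma arith0 (ht0 : t ≠ 0) (ht : t < 1) (hx : x ^ (2 * q) = t) (hj : j < q)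
    (hy : 1 ≤ y ^ 2 * t) : t < t * y * x ^ j := by
  have hx1 : x < 1 := lt_one_of_pow_lt_one (n := 2 * q) (by rw [hx]; exact ht)
  have hx0 : x ≠ 0 := by
    rintro rfl
    rw [zero_pow (by omega)] at hx
    exact ht0 hx.symm
  have hxp : 0 < x := zero_lt_iff.2 hx0
  have htp : 0 < t := zero_lt_iff.2 ht0
  have h1 : t < x ^ (2 * j) := by
    rw [← hx]
    exact pow_lt_pow_right_of_lt_one₀ hxp hx1 (by omega)
  have hy0 : y ≠ 0 := by
    rintro rfl
    rw [zero_pow two_ne_zero, zero_mul] at hy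
    exact absurd hy (not_le.2 zero_lt_one)
  have h2 : 1 < (y * x ^ j) ^ 2 := by
    have h3 : y ^ 2 * t < y ^ 2 * x ^ (2 * j) :=
      mul_lt_mul_of_pos_left h1 (pow_pos (zero_lt_iff.2 hy0) 2)
    calc (1 : Γ) ≤ y ^ 2 * t := hy
      _ < y ^ 2 * x ^ (2 * j) := h3
      _ = (y * x ^ j) ^ 2 := by rw [mul_pow, ← pow_mul, mul_comm j 2]
  have h4 : 1 < y * x ^ j := by
    by_contra hc
    rw [not_lt] at hc
    exact absurd h2 (not_lt.2 (pow_le_one₀ zero_le hc))
  calc t = t * 1 := (mul_one t).symm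
    _ < t * (y * x ^ j) := mul_lt_mul_of_pos_left h4 htp
    _ = t * y * x ^ j := (mul_assoc _ _ _).symm

lemma arith1 (ht0 : t ≠ 0) (ht : t < 1) (hx : x ^ (2 * q) = t) (hj : j < q)
    (hy : y ^ 4 * t = 1 ∧ j ≠ q - 1 ∨ 1 ≤ y ^ 4 * t ^ 3) :
    t ^ 5 ≤ (t * y * x ^ j) ^ 4 * x ^ 8 := by
  have hx1 : x < 1 := lt_one_of_pow_lt_one (n := 2 * q) (by rw [hx]; exact ht)
  have hx0 : x ≠ 0 := by
    rintro rfl
    rw [zero_pow (by omega)] at hx
    exact ht0 hx.symm
  have e : (t * y * x ^ j) ^ 4 * x ^ 8 = t ^ 4 * y ^ 4 * x ^ (4 * j + 8) := by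
    rw [mul_pow, mul_pow, ← pow_mul, mul_comm j 4, mul_assoc, ← pow_add]
  have hx4 : x ^ (4 * q) = t ^ 2 := by
    rw [← hx, ← pow_mul]
    congr 1
    ring
  rw [e]
  rcases hy with ⟨h1, h2⟩ | h1
  · have h3 : x ^ (4 * q) ≤ x ^ (4 * j + 8) :=
      pow_le_pow_of_le_one zero_le hx1.le (by omega)
    rw [hx4] at h3
    calc t ^ 5 = t ^ 3 * (y ^ 4 * t) * t ^ 2 := by rw [h1, mul_one, ← pow_add]
      _ = t ^ 4 * y ^ 4 * t ^ 2 := by
        rw [show t ^ 4 = t ^ 3 * t from pow_succ t 3]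
        simp only [mul_comm, mul_left_comm, mul_assoc]
      _ ≤ t ^ 4 * y ^ 4 * x ^ (4 * j + 8) := mul_le_mul_right h3 _
  · have h3 : x ^ (4 * q) * x ^ (4 * q) ≤ x ^ (4 * j + 8) := by
      rw [← pow_add]
      exact pow_le_pow_of_le_one zero_le hx1.le (by omega)
    rw [hx4, ← pow_add] at h3
    calc t ^ 5 = t ^ 1 * 1 * t ^ 4 := by rw [mul_one, ← pow_add]
      _ ≤ t ^ 1 * (y ^ 4 * t ^ 3) * t ^ 4 := by
        exact mul_le_mul_left (mul_le_mul_right h1 _) _
      _ = t ^ 4 * y ^ 4 * t ^ (2 + 2) := by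
        rw [pow_one, show t ^ 4 = t ^ 3 * t from pow_succ t 3]
        simp only [mul_comm, mul_left_comm, mul_assoc]
      _ ≤ t ^ 4 * y ^ 4 * x ^ (4 * j + 8) := mul_le_mul_right h3 _

end arith

end HRG

open _root_.Pool.Agent.MUXHN.HRG in
/-- (HR) -/
theorem tn_HR (hBDN : Sn_BDN) (hLOC : Sn_LOC) (hKYN : Sn_KYN) (hTYR : Sn_TYR)
    (hDVR : Sn_DVR) : Sn_HR := by
  intro V N₀ s₀ i nu P pi KI om H α g hα hα1 hg hg1 n₀
  obtain ⟨k, hk⟩ := hBDN V H.vp P H.alg H.fin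
  have hom3 : om ^ 3 = 1 := H.omp.pow_eq_one
  -- the functions on the levels
  let z : ℕ → ℤ → ℂ := fun n b => P ∞ (((b : ℚ) / 3 ^ n : ℚ) : OnePoint ℚ)
  have hT : ∀ (r : ℚ) (m : ℤ), P ∞ ((r + m : ℚ) : OnePoint ℚ) = P ∞ (r : OnePoint ℚ) := by
    have hstep : ∀ r : ℚ, P ∞ ((r + 1 : ℚ) : OnePoint ℚ) = P ∞ (r : OnePoint ℚ) := by
      intro r
      have e : (r + 1 : ℚ) = r + 1 / 3 + 1 / 3 + 1 / 3 := by ring
      rw [e, H.rel, H.rel, H.rel]
      linear_combination (P ∞ (r : OnePoint ℚ)) * hom3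
    intro r m
    induction m using Int.induction_on with
    | zero => simp
    | succ m ih =>
      rw [← ih, ← hstep (r + ((m : ℕ) : ℤ))]
      congr 2
      push_cast
      ring
    | pred m ih =>
      rw [← ih, ← hstep (r + ((-(m : ℤ) - 1 : ℤ) : ℚ))]
      congr 2
      push_cast
      ring
  have hzper : ∀ (n : ℕ) (b c : ℤ), (3 : ℤ) ^ n ∣ b - c → z n b = z n c := by
    rintro n b c ⟨t, ht⟩
    have e : ((b : ℚ) / 3 ^ n : ℚ) = (c : ℚ) / 3 ^ n + t := by
      have h3 : ((3 : ℚ) ^ n) ≠ 0 := by positivity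
      have : (b : ℚ) = c + 3 ^ n * t := by
        have : (b : ℤ) = c + 3 ^ n * t := by linear_combination ht
        exact_mod_cast this
      rw [this]
      field_simp
    change P ∞ (((b : ℚ) / 3 ^ n : ℚ) : OnePoint ℚ) = P ∞ (((c : ℚ) / 3 ^ n : ℚ) : OnePoint ℚ)
    rw [e]
    exact hT _ t
  have hzom : ∀ (n : ℕ) (b : ℤ), z (n + 1) (b + 3 ^ n) = om * z (n + 1) b := by
    intro n b
    rw [show om * z (n + 1) b = P ∞ ((((b : ℚ) / 3 ^ (n + 1) + 1 / 3 : ℚ)) : OnePoint ℚ) from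
      (H.rel _).symm]
    change P ∞ ((((b + 3 ^ n : ℤ) : ℚ) / 3 ^ (n + 1) : ℚ) : OnePoint ℚ) = _
    congr 2
    have h3 : ((3 : ℚ) ^ n) ≠ 0 := by positivity
    push_cast
    field_simp
    ring
  have hz3 : ∀ n b, (3 : ℂ) ^ k * z n b ∈ oV V := fun n b => hk _ _
  -- level `2 N₀`
  have hN0 : N₀ ≠ 0 := H.N0
  have hN2 : 2 ≤ 2 * N₀ := by omega
  have hcop2 : Nat.Coprime 3 (2 * N₀) := Nat.Coprime.mul_right (by norm_num) H.cop
  have hdvN : ((3 * N₀ : ℕ) : ℤ) ∣ ((3 * (2 * N₀) : ℕ) : ℤ) :=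
    Int.natCast_dvd_natCast.2 ⟨2, by ring⟩
  have hper2 : ∀ d d', ((3 * (2 * N₀) : ℕ) : ℤ) ∣ d - d' → nu d = nu d' :=
    fun d d' h => H.nuper d d' (hdvN.trans h)
  have hnuv2 : ∀ d, IsCoprime d ((3 * (2 * N₀) : ℕ) : ℤ) → V.valuation (nu d) = 1 := by
    intro d hd
    have hd' : IsCoprime d ((3 * N₀ : ℕ) : ℤ) := hd.of_isCoprime_of_dvd_right hdvN
    obtain ⟨a, b, hab⟩ := hd'
    have h1 : nu (d * a) = nu 1 := H.nuper _ _ ⟨-b, by linear_combination hab⟩
    rw [H.num, H.nu1] at h1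
    refine le_antisymm (H.nuv d) ?_
    have h2 : V.valuation (nu d) * V.valuation (nu a) = 1 := by
      rw [← map_mul, h1, map_one]
    calc (1 : V.ValueGroup) = V.valuation (nu d) * V.valuation (nu a) := h2.symm
      _ ≤ V.valuation (nu d) * 1 := by
        exact mul_le_mul_right (H.nuv a) _
      _ = V.valuation (nu d) := mul_one _
  have hQs2 : IsSym (3 ^ (s₀ + 1) * (2 * N₀)) nu P := by
    refine ⟨H.sym.add, fun a b c d hdet hc => H.sym.equiv a b c d hdet (dvd_trans ?_ hc)⟩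
    exact Int.natCast_dvd_natCast.2 ⟨2, by ring⟩
  -- there are combinations which are not integral
  have hex : ∃ n, n₀ + 1 ≤ n ∧ ∃ b : ℤ, ¬ (3 : ℤ) ∣ b ∧ comb α g (i + 1) (z n) b ∉ oV V := by
    by_contra hcon
    push Not at hcon
    obtain ⟨r, hr⟩ := hLOC V H.vp (oV V) z k (n₀ + 1) hzper hz3 α g hα hα1 hg hg1 (i + 1) hcon
    obtain ⟨R, hR⟩ := hKYN V H.vp (oV V) (2 * N₀) s₀ nu P hN2 hcop2 H.nu1 hper2 hnuv2 hQs2 r
      (n₀ + 1) hr
    obtain ⟨a, b, c, d, hdet, hc, hd, hv⟩ := H.G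
      (3 ^ (R + (s₀ + 1)) * (2 * N₀)) (mul_ne_zero (pow_ne_zero _ (by norm_num)) (by omega))
      (mul_dvd_mul (pow_dvd_pow 3 (Nat.le_add_left _ _)) (Dvd.intro_left _ rfl))
    have hdvd : (3 : ℤ) ^ R * ((2 * N₀ : ℕ) : ℤ) ∣
        ((3 ^ (R + (s₀ + 1)) * (2 * N₀) : ℕ) : ℤ) := by
      push_cast
      exact mul_dvd_mul_right (pow_dvd_pow 3 (Nat.le_add_right _ _)) _
    have h1 := hR a b c d hdet (hdvd.trans hc) (hdvd.trans hd) ∞
    exact absurd hv (not_lt.2 h1)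
  obtain ⟨m, hm, b, hb3, hb⟩ := hex
  obtain ⟨n, rfl⟩ : ∃ n, m = n + 1 := ⟨m - 1, by omega⟩
  rw [mem_oV, not_le] at hb
  refine ⟨n, by omega, fun ζ hζ hζom => ?_⟩
  set Y : ℤ → ℂ := comb α g 1 (z (n + 1)) with hY
  change (i = 0 → V.valuation (3 : ℂ) < V.valuation (∑ b ∈ Finset.range (3 ^ (n + 1)),
      ζ ^ b * Y b)) ∧ (i = 1 → V.valuation (3 : ℂ) ^ 5 ≤
      V.valuation (∑ b ∈ Finset.range (3 ^ (n + 1)), ζ ^ b * Y b) ^ 4 *
        V.valuation (ζ - 1) ^ 8)
  have hpow : ∀ (u : ℤ), (3 : ℤ) ∣ u - 1 → ∀ j : ℕ, (3 : ℤ) ∣ u ^ j - 1 := by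
    intro u hu j
    have := sub_dvd_pow_sub_pow u 1 j
    rw [one_pow] at this
    exact hu.trans this
  -- properties of `Y`
  have hzu : ∀ u b : ℤ, (3 : ℤ) ∣ u - 1 → z (n + 1) (u * (b + 3 ^ n)) =
      om * z (n + 1) (u * b) := by
    intro u b hu
    rw [← hzom]
    apply hzper
    obtain ⟨t, ht⟩ := hu
    exact ⟨t, by
      have : u = 1 + 3 * t := by linear_combination ht
      rw [this]
      ring⟩
  have hYom : ∀ b : ℤ, Y (b + 3 ^ n) = om * Y b := by
    intro b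
    rw [hY]
    unfold comb
    rw [Finset.mul_sum]
    refine Finset.sum_congr rfl fun j _ => ?_
    have h2 : (3 : ℤ) ∣ g ^ (1 - j) * α ^ 2 - 1 := by
      have e : g ^ (1 - j) * α ^ 2 - 1 = (g ^ (1 - j) - 1) * α ^ 2 + (α ^ 2 - 1) := by ring
      rw [e]
      exact dvd_add ((hpow g hg _).mul_right _) (hpow α hα 2)
    rw [hzu _ b (hpow g hg (1 - j)), hzu _ b h2]
    ring
  have hYper : ∀ b c : ℤ, (3 : ℤ) ^ (n + 1) ∣ b - c → Y b = Y c := by
    intro b c hbc
    rw [hY]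
    unfold comb
    refine Finset.sum_congr rfl fun j _ => ?_
    rw [hzper (n + 1) (g ^ (1 - j) * b) (g ^ (1 - j) * c) (by
        rw [← mul_sub]; exact hbc.mul_left _),
      hzper (n + 1) (g ^ (1 - j) * α ^ 2 * b) (g ^ (1 - j) * α ^ 2 * c) (by
        rw [← mul_sub]; exact hbc.mul_left _)]
  have hYtyp : ∀ b, ∃ w ∈ KI, Y b = pi * w := by
    intro b
    have hztyp : ∀ b, ∃ w ∈ KI, z (n + 1) b = pi * w := fun b => H.typ _ _
    choose w hw hw' using hztyp
    refine ⟨∑ j ∈ Finset.range (1 + 1), ((-1 : ℂ) ^ (1 - j) * ((1 : ℕ).choose j : ℂ)) *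
      ((α : ℂ) * w (g ^ (1 - j) * b) - (α : ℂ) ^ 2 * w (g ^ (1 - j) * α ^ 2 * b)), ?_, ?_⟩
    · refine sum_mem fun j _ => mul_mem (mul_mem (pow_mem (neg_mem (one_mem _)) _)
        (natCast_mem KI _)) (sub_mem (mul_mem (intCast_mem KI α) (hw _))
        (mul_mem (pow_mem (intCast_mem KI α) 2) (hw _)))
    · rw [hY]
      unfold comb
      rw [Finset.mul_sum]
      refine Finset.sum_congr rfl fun j _ => ?_
      rw [hw', hw']
      ring
  have hpi : pi ≠ 0 := by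
    rintro rfl
    have := H.vpi
    rw [map_zero, zero_pow (by norm_num), zero_mul] at this
    exact zero_ne_one this
  -- a value which is not integral
  have hbig : ∃ b : ℤ, 1 < V.valuation (Y b) := by
    rcases Nat.le_one_iff_eq_zero_or_eq_one.1 H.i1 with hi | hi
    · subst hi
      exact ⟨b, hb⟩
    · subst hi
      by_contra hcon
      push Not at hcon
      have e : comb α g (1 + 1) (z (n + 1)) b = Y b - Y (g * b) := by
        rw [hY]
        unfold comb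
        simp [Finset.sum_range_succ]
        have e1 : g ^ 2 * b = g * (g * b) := by ring
        have e2 : g ^ 2 * α ^ 2 * b = g * α ^ 2 * (g * b) := by ring
        have e3 : α ^ 2 * (g * b) = g * α ^ 2 * b := by ring
        rw [e1, e2, e3]
        ring
      rw [e] at hb
      refine absurd hb (not_lt.2 ((V.valuation.map_sub _ _).trans (max_le (hcon _) (hcon _))))
  obtain ⟨b₀, hb₀⟩ : ∃ b₀ : ℤ, ∀ b, V.valuation (Y b) ≤ V.valuation (Y b₀) := by
    have hne : (Finset.range (3 ^ (n + 1))).Nonempty :=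
      ⟨0, Finset.mem_range.2 (by positivity)⟩
    obtain ⟨c, _, hc⟩ := Finset.exists_max_image (Finset.range (3 ^ (n + 1)))
      (fun c : ℕ => V.valuation (Y c)) hne
    refine ⟨c, fun b => ?_⟩
    have h3 : (0 : ℤ) < 3 ^ (n + 1) := by positivity
    have h4 : Y b = Y ((b % 3 ^ (n + 1)).toNat : ℤ) := by
      apply hYper
      rw [Int.toNat_of_nonneg (Int.emod_nonneg _ h3.ne')]
      exact Int.dvd_self_sub_emod
    rw [h4]
    apply hc
    rw [Finset.mem_range]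
    have h5 := Int.emod_lt_of_pos b h3
    have h6 := Int.emod_nonneg b h3.ne'
    zify
    rw [Int.toNat_of_nonneg h6]
    exact h5
  have hY1 : 1 < V.valuation (Y b₀) := by
    obtain ⟨b, hb⟩ := hbig
    exact hb.trans_le (hb₀ b)
  have hY0 : Y b₀ ≠ 0 := by
    intro h
    rw [h, map_zero] at hY1
    exact absurd hY1 (not_lt.2 zero_le)
  obtain ⟨j, hj, hsum, hx, hconst⟩ := hDVR V H.vp KI H.unr n Y om H.omp hYom (by
    intro b b' hb'
    obtain ⟨w, hw, e⟩ := hYtyp b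
    obtain ⟨w', hw', e'⟩ := hYtyp b'
    rw [e, e', mul_div_mul_left _ _ hpi]
    exact div_mem hw hw') b₀ hY0 hb₀ ζ hζ hζom
  have ht0 : V.valuation (3 : ℂ) ≠ 0 := by
    rw [Ne, map_eq_zero]
    norm_num
  obtain ⟨hty0, hty1⟩ := hTYR V H.vp KI H.unr pi
  obtain ⟨w, hw, ew⟩ := hYtyp b₀
  refine ⟨fun hi => ?_, fun hi => ?_⟩
  · rw [hsum]
    apply arith0 ht0 H.vp hx hj
    have hv := H.vpi
    rw [hi, pow_zero, mul_one] at hv
    rw [ew] at hY1 ⊢
    exact hty0 hv w hw hY1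
  · rw [hsum]
    apply arith1 ht0 H.vp hx hj
    have hv := H.vpi
    rw [hi, pow_one] at hv
    have h1 := hty1 hv w hw (by rw [← ew]; exact hY1)
    rw [← ew] at h1
    rcases h1 with h1 | h1
    · left
      refine ⟨h1, fun hjq => ?_⟩
      subst hi
      have e : comb α g (1 + 1) (z (n + 1)) b = Y b - Y (g * b) := by
        rw [hY]
        unfold comb
        simp [Finset.sum_range_succ]
        have e1 : g ^ 2 * b = g * (g * b) := by ring
        have e2 : g ^ 2 * α ^ 2 * b = g * α ^ 2 * (g * b) := by ring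
        have e3 : α ^ 2 * (g * b) = g * α ^ 2 * b := by ring
        rw [e1, e2, e3]
        ring
      rw [e] at hb
      have h2 := hconst hjq b (g * b)
      have h3 : V.valuation (Y b - Y (g * b)) ^ 4 ≤ V.valuation (3 : ℂ) := by
        calc V.valuation (Y b - Y (g * b)) ^ 4 = (V.valuation (Y b - Y (g * b)) ^ 2) ^ 2 := by
              rw [← pow_mul]
          _ ≤ (V.valuation (Y b₀) ^ 2 * V.valuation (3 : ℂ)) ^ 2 := pow_le_pow_left' h2 2
          _ = V.valuation (Y b₀) ^ 4 * V.valuation (3 : ℂ) * V.valuation (3 : ℂ) := by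
              rw [mul_pow, ← pow_mul, mul_assoc, ← sq (V.valuation (3 : ℂ))]
          _ = V.valuation (3 : ℂ) := by rw [h1, one_mul]
      exact absurd (one_le_pow₀ hb.le : 1 ≤ V.valuation (Y b - Y (g * b)) ^ 4)
        (not_le.2 (h3.trans_lt H.vp))
    · right
      exact h1

end

end Pool.Agent.MUXHN


end

section

/-!
# MUX-NS, block HR, module DVR (helper23): character sums of a function with `y (b + 3^n) = om y b`
-/

set_option autoImplicit false

namespace Pool.Agent.MUXHN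

open _root_.MU3 _root_.Pool.Agent.MuSym _root_.Pool.Agent.MUXH OnePoint

noncomputable section

namespace DVR

/-- a property invariant under the translation by `q` holds everywhere if it holds on `0, .., q - 1` -/
theorem reduce (q : ℕ) (hq : 0 < q) (D : ℤ → Prop) (h : ∀ b, D b ↔ D (b + q))
    (h0 : ∀ r : ℕ, r < q → D r) (b : ℤ) : D b := by
  have h1 : ∀ (t : ℤ) (r : ℕ), D r ↔ D (r + q * t) := by
    intro t r
    induction t using Int.induction_on with
    | zero => rw [mul_zero, add_zero]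
    | succ i ih =>
      have e : (r : ℤ) + q * ((i : ℤ) + 1) = (r + q * i) + q := by ring
      rw [e, ← h]
      exact ih
    | pred i ih =>
      have e : (r : ℤ) + q * (-(i : ℤ)) = (r + q * (-(i : ℤ) - 1)) + q := by ring
      rw [e, ← h] at ih
      exact ih
  have hpos : (0 : ℤ) < q := by exact_mod_cast hq
  have h2 := Int.emod_nonneg b hpos.ne'
  have h3 := Int.emod_lt_of_pos b hpos
  obtain ⟨r, hr⟩ := Int.eq_ofNat_of_zero_le h2
  have h4 : r < q := by
    have : (r : ℤ) < q := by rw [← hr]; exact h3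
    exact_mod_cast this
  have h5 : b = (r : ℤ) + q * (b / q) := by
    rw [← hr]
    exact (Int.emod_add_mul_ediv b q).symm
  rw [h5]
  exact (h1 _ r).1 (h0 r h4)

end DVR

open _root_.Pool.Agent.MUXHN.DVR _root_.Pool.Agent.MUXH.Hz in
theorem tn_DVR : Sn_DVR := by
  intro V hV K hK n y om hom hper hyK b₀ hb₀ hmax ζ hζ hζom
  set q : ℕ := 3 ^ n with hq
  have hq0 : 0 < q := pow_pos (by norm_num) n
  have hqz : ((q : ℕ) : ℤ) = 3 ^ n := by rw [hq]; push_cast; rfl
  -- the roots of unity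
  have hvom : V.valuation om = 1 := val_root V 3 (by norm_num) om hom.pow_eq_one
  have hom1 : V.valuation (om - 1) < 1 := by
    have h1 := val_p 3 Nat.prime_three V 0 om (by simpa using hom)
    by_contra hc
    have h2 : 1 ≤ V.valuation (om - 1) ^ (3 ^ 0 * (3 - 1)) := one_le_pow₀ (not_lt.1 hc)
    rw [h1] at h2
    exact absurd h2 (not_le.2 (by simpa using hV))
  have hx : V.valuation (ζ - 1) ^ (2 * q) = V.valuation (3 : ℂ) := by
    have h1 := val_p 3 Nat.prime_three V n ζ hζ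
    rw [mul_comm 2 q]
    simpa using h1
  set x := V.valuation (ζ - 1) with hxdef
  have h3pos : (0 : V.ValueGroup) < V.valuation (3 : ℂ) :=
    lt_of_le_of_ne zero_le ((Valuation.ne_zero_iff _).2 (by norm_num)).symm
  have h2q : 2 * q ≠ 0 := by omega
  have hx0 : 0 < x := by
    refine lt_of_le_of_ne zero_le fun h => ?_
    rw [← h, zero_pow h2q] at hx
    exact h3pos.ne hx
  have hx1 : x < 1 := by
    by_contra h
    have : 1 ≤ x ^ (2 * q) := one_le_pow₀ (not_lt.1 h)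
    rw [hx] at this
    exact absurd this (not_le.2 hV)
  -- the normalised function
  set W : ℤ → ℂ := fun b => y b / y b₀ with hW
  have hvb : (0 : V.ValueGroup) < V.valuation (y b₀) :=
    lt_of_le_of_ne zero_le ((Valuation.ne_zero_iff _).2 hb₀).symm
  have hyW : ∀ b, y b = y b₀ * W b := fun b => by
    simp only [hW]
    field_simp
  have hWK : ∀ b, W b ∈ K := fun b => hyK b b₀ hb₀
  have hW1 : ∀ b, V.valuation (W b) ≤ 1 := by
    intro b
    have h1 := hmax b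
    rw [hyW b, map_mul] at h1
    by_contra hc
    have h2 : V.valuation (y b₀) * 1 < V.valuation (y b₀) * V.valuation (W b) :=
      mul_lt_mul_of_pos_left (not_le.1 hc) hvb
    rw [mul_one] at h2
    exact absurd h1 (not_le.2 h2)
  have hWper : ∀ b, W (b + q) = om * W b := by
    intro b
    simp only [hW]
    rw [hqz, hper b, mul_div_assoc]
  -- a class with value of valuation one
  obtain ⟨r, hr, hWr⟩ : ∃ r : ℕ, r < q ∧ V.valuation (W r) = 1 := by
    by_contra hcon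
    have h1 : ∀ b, V.valuation (W b) ≠ 1 := by
      refine reduce q hq0 (fun b => V.valuation (W b) ≠ 1) (fun b => ?_) (fun r hr h => ?_)
      · show V.valuation (W b) ≠ 1 ↔ V.valuation (W (b + q)) ≠ 1
        rw [hWper, map_mul, hvom, one_mul]
      · exact hcon ⟨r, hr, h⟩
    apply h1 b₀
    have e : W b₀ = 1 := div_self hb₀
    rw [e, map_one]
  -- the coefficients
  set c : ℕ → ℂ := fun k => ∑ b ∈ Finset.range q, ((b.choose k : ℕ) : ℂ) * W b with hc
  have hcK : ∀ k, c k ∈ K := fun k => sum_mem fun b _ => mul_mem (natCast_mem K _) (hWK _)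
  have hc1 : ∀ k, V.valuation (c k) ≤ 1 := fun k =>
    Valuation.map_sum_le _ fun b _ => by
      rw [map_mul]
      exact mul_le_one' (val_nat V _) (hW1 _)
  have hex1 : ∃ k, k < q ∧ V.valuation (c k) = 1 := by
    by_contra hcon
    have hlt : ∀ k < q, V.valuation (c k) < 1 := fun k hk =>
      lt_of_le_of_ne (hc1 k) fun h => hcon ⟨k, hk, h⟩
    have h1 : ∑ b ∈ Finset.range q, (((if b = r then (1 : ℤ) else 0) : ℤ) : ℂ) * W b = W r := by
      rw [Finset.sum_eq_single r]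
      · simp
      · intro b _ hbr
        rw [if_neg hbr]
        simp
      · intro h
        exact absurd (Finset.mem_range.2 hr) h
    rw [newton q (fun b => W b) (fun b => if b = r then (1 : ℤ) else 0)] at h1
    have h2 : V.valuation (W r) < 1 := by
      rw [← h1]
      refine Valuation.map_sum_lt _ one_ne_zero fun k hk => ?_
      rw [map_mul]
      exact lt_of_le_of_lt (mul_le_of_le_one_left' (val_int V _))
        (hlt k (Finset.mem_range.1 hk))
    exact absurd hWr h2.ne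
  classical
  obtain ⟨hk₀, hk₁⟩ := Nat.find_spec hex1
  set k₀ := Nat.find hex1 with hk₀def
  have hlt₀ : ∀ k < k₀, V.valuation (c k) < 1 := by
    intro k hk
    refine lt_of_le_of_ne (hc1 k) fun h => ?_
    exact Nat.find_min hex1 hk ⟨lt_trans hk hk₀, h⟩
  have hmin : ∀ k < k₀, V.valuation (c k) ^ 2 ≤ V.valuation (3 : ℂ) := fun k hk =>
    hK _ (hcK k) (hlt₀ k hk)
  have hval : V.valuation (∑ b ∈ Finset.range q, ζ ^ b * W b) = x ^ k₀ := by
    rw [shift_pow q (fun b => W b) ζ]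
    have hk₀N : k₀ ∈ Finset.range q := Finset.mem_range.2 hk₀
    rw [← Finset.add_sum_erase _ _ hk₀N]
    have ha : V.valuation ((ζ - 1) ^ k₀ * c k₀) = x ^ k₀ := by
      rw [map_mul, map_pow, hk₁, mul_one]
    have hb : V.valuation (∑ k ∈ (Finset.range q).erase k₀, (ζ - 1) ^ k * c k) < x ^ k₀ := by
      refine Valuation.map_sum_lt _ (pow_pos hx0 k₀).ne' fun k hk => ?_
      have hne := Finset.ne_of_mem_erase hk
      rw [map_mul, map_pow]
      rcases lt_or_gt_of_ne hne with hlt | hgt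
      · refine lt_of_le_of_lt (mul_le_of_le_one_left' (pow_le_one' hx1.le k)) ?_
        refine lt_of_pow_lt_pow_left₀ 2 (pow_pos hx0 k₀).le ?_
        refine lt_of_le_of_lt (hmin k hlt) ?_
        rw [← hx, ← pow_mul]
        exact pow_lt_pow_right_of_lt_one₀ hx0 hx1 (by omega)
      · refine lt_of_le_of_lt (mul_le_of_le_one_right' (hc1 k)) ?_
        exact pow_lt_pow_right_of_lt_one₀ hx0 hx1 hgt
    have := Valuation.map_add_eq_of_lt_left V.valuation (x := (ζ - 1) ^ k₀ * c k₀)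
      (y := ∑ k ∈ (Finset.range q).erase k₀, (ζ - 1) ^ k * c k) (by rw [ha]; exact hb)
    rw [this, ha]
  -- the sum over three periods
  have hWj : ∀ (j b : ℕ), W ((j * q + b : ℕ) : ℤ) = om ^ j * W b := by
    intro j b
    induction j with
    | zero => simp
    | succ j ih =>
      have e : (((j + 1) * q + b : ℕ) : ℤ) = ((j * q + b : ℕ) : ℤ) + q := by push_cast; ring
      rw [e, hWper, ih, pow_succ]
      ring
  have hsum : ∑ b ∈ Finset.range (3 ^ (n + 1)), ζ ^ b * y b =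
      3 * y b₀ * ∑ b ∈ Finset.range q, ζ ^ b * W b := by
    have e3 : 3 ^ (n + 1) = 3 * q := by rw [hq, pow_succ]; ring
    rw [e3, sum_range_mul' (fun b : ℕ => ζ ^ b * y b) q 3]
    have h1 : ∀ j ∈ Finset.range 3, ∑ b ∈ Finset.range q,
        ζ ^ (j * q + b) * y ((j * q + b : ℕ) : ℤ) =
        y b₀ * ∑ b ∈ Finset.range q, ζ ^ b * W b := by
      intro j _
      rw [Finset.mul_sum]
      refine Finset.sum_congr rfl fun b _ => ?_
      rw [hyW ((j * q + b : ℕ) : ℤ), hWj, pow_add, mul_comm j q, pow_mul]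
      have e : (ζ ^ q) ^ j * om ^ j = 1 := by rw [← mul_pow, hζom, one_pow]
      linear_combination (ζ ^ b * W b * y b₀) * e
    rw [Finset.sum_congr rfl h1, Finset.sum_const, Finset.card_range, nsmul_eq_mul]
    push_cast
    ring
  refine ⟨k₀, hk₀, ?_, hx, ?_⟩
  · rw [hsum, map_mul, map_mul, hval]
  · intro hj
    -- consecutive values
    have hcons : ∀ b : ℕ, b + 1 < q → V.valuation (W ((b + 1 : ℕ) : ℤ) - W b) < 1 := by
      intro b hb
      set g : ℕ → ℤ := fun x => if x % q = b + 1 then (1 : ℤ) else 0 with hg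
      have hgper : ∀ x, g (x + 3 ^ n) = g x := fun x => by
        simp only [hg, ← hq, Nat.add_mod_right]
      have hgx : ∀ x, x < q → fwdDiff 1 g x =
          (if x = b then (1 : ℤ) else 0) - (if x = b + 1 then (1 : ℤ) else 0) := by
        intro x hx'
        rw [fwdDiff]
        simp only [hg]
        rw [Nat.mod_eq_of_lt hx']
        congr 1
        rcases Nat.lt_or_ge (x + 1) q with h | h
        · rw [Nat.mod_eq_of_lt h]
          by_cases hxb : x = b
          · rw [if_pos (by omega), if_pos hxb]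
          · rw [if_neg (by omega), if_neg hxb]
        · have e : x + 1 = q := by omega
          rw [e, Nat.mod_self, if_neg (by omega), if_neg (by omega)]
      have h1 : ∑ x ∈ Finset.range q, ((fwdDiff 1 g x : ℤ) : ℂ) * W x =
          W b - W ((b + 1 : ℕ) : ℤ) := by
        have h2 : ∀ x ∈ Finset.range q, ((fwdDiff 1 g x : ℤ) : ℂ) * W x =
            (if x = b then W x else 0) - (if x = b + 1 then W x else 0) := by
          intro x hx'
          rw [hgx x (Finset.mem_range.1 hx')]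
          push_cast
          rw [sub_mul, ite_mul, ite_mul, one_mul, zero_mul]
        rw [Finset.sum_congr rfl h2, Finset.sum_sub_distrib, Finset.sum_ite_eq',
          Finset.sum_ite_eq', if_pos (Finset.mem_range.2 (by omega)),
          if_pos (Finset.mem_range.2 hb)]
      rw [newton q (fun x => W x) (fwdDiff 1 g)] at h1
      rw [← neg_sub, Valuation.map_neg, ← h1]
      refine Valuation.map_sum_lt _ one_ne_zero fun k hk => ?_
      rw [map_mul]
      rcases Nat.lt_or_ge k k₀ with h | h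
      · exact lt_of_le_of_lt (mul_le_of_le_one_left' (val_int V _)) (hlt₀ k h)
      · have e : k = q - 1 := by
          have := Finset.mem_range.1 hk
          omega
        refine lt_of_le_of_lt (mul_le_of_le_one_right' (hc1 k)) ?_
        have h5 : (fwdDiff 1)^[k] (fwdDiff 1 g) 0 = (fwdDiff 1)^[3 ^ n] g 0 := by
          have h6 : k.succ = 3 ^ n := by
            show k + 1 = 3 ^ n
            omega
          rw [← Function.iterate_succ_apply, h6]
        rw [h5]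
        exact lt_of_le_of_lt
          (val_int_p 3 V _ (dvd_diff_aux 3 Nat.prime_three n g hgper 0)) (by simpa using hV)
    have hD0 : ∀ b : ℕ, b < q → V.valuation (W b - W 0) < 1 := by
      intro b
      induction b with
      | zero =>
        intro _
        simp
      | succ b ih =>
        intro hb
        have h1 := ih (by omega)
        have h2 := hcons b hb
        have e : W ((b + 1 : ℕ) : ℤ) - W 0 = (W ((b + 1 : ℕ) : ℤ) - W b) + (W b - W 0) := by ring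
        rw [e]
        exact Valuation.map_add_lt _ h2 h1
    have hD : ∀ b : ℤ, V.valuation (W b - W 0) < 1 := by
      refine reduce q hq0 (fun b => V.valuation (W b - W 0) < 1) (fun b => ?_) hD0
      show V.valuation (W b - W 0) < 1 ↔ V.valuation (W (b + q) - W 0) < 1
      rw [hWper]
      have hs : V.valuation ((om - 1) * W 0) < 1 := by
        rw [map_mul]
        exact lt_of_le_of_lt (mul_le_of_le_one_right' (hW1 0)) hom1
      constructor
      · intro h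
        have e : om * W b - W 0 = om * (W b - W 0) + (om - 1) * W 0 := by ring
        rw [e]
        refine Valuation.map_add_lt _ ?_ hs
        rw [map_mul, hvom, one_mul]
        exact h
      · intro h
        have e : om * (W b - W 0) = (om * W b - W 0) - (om - 1) * W 0 := by ring
        have h2 : V.valuation (om * (W b - W 0)) < 1 := by
          rw [e]
          exact Valuation.map_sub_lt _ h hs
        rwa [map_mul, hvom, one_mul] at h2
    intro b b'
    have h1 : V.valuation (W b - W b') < 1 := by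
      have e : W b - W b' = (W b - W 0) - (W b' - W 0) := by ring
      rw [e]
      exact Valuation.map_sub_lt _ (hD b) (hD b')
    have h2 : V.valuation (W b - W b') ^ 2 ≤ V.valuation (3 : ℂ) :=
      hK _ (sub_mem (hWK b) (hWK b')) h1
    rw [hyW b, hyW b', ← mul_sub, map_mul, mul_pow]
    exact mul_le_mul' le_rfl h2

end

end Pool.Agent.MUXHN


end

section

/-!
# MUX-NS, block HR, module TYR: arithmetic of types
-/

set_option autoImplicit false

namespace Pool.Agent.MUXHN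

open _root_.MU3 _root_.Pool.Agent.MuSym _root_.Pool.Agent.MUXH OnePoint

noncomputable section

/-- TYR. -/
theorem tn_TYR : Sn_TYR := by
  intro V h3 KI hunr pi
  have h30 : V.valuation (3 : ℂ) ≠ 0 := by
    rw [Valuation.ne_zero_iff]
    norm_num
  have h3p : 0 < V.valuation (3 : ℂ) := zero_lt_iff.2 h30
  -- the case `v w > 1`
  have key : ∀ w ∈ KI, 1 < V.valuation w → 1 ≤ V.valuation w ^ 2 * V.valuation (3 : ℂ) := by
    intro w hw h1
    have hw0 : V.valuation w ≠ 0 := (lt_trans zero_lt_one h1).ne'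
    have h2 : V.valuation w⁻¹ < 1 := by
      rw [map_inv₀]
      exact inv_lt_one_of_one_lt₀ h1
    have h4 := hunr _ (KI.inv_mem hw) h2
    rw [map_inv₀, inv_pow] at h4
    have h5 : V.valuation w ^ 2 ≠ 0 := pow_ne_zero _ hw0
    calc (1 : V.ValueGroup) = V.valuation w ^ 2 * (V.valuation w ^ 2)⁻¹ := (mul_inv_cancel₀ h5).symm
      _ ≤ V.valuation w ^ 2 * V.valuation (3 : ℂ) := by gcongr
  refine ⟨fun hp w hw h1 => ?_, fun hp w hw h1 => ?_⟩
  · have hp1 : V.valuation pi = 1 := (pow_eq_one_iff_of_nonneg zero_le (by norm_num)).1 hp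
    rw [map_mul, hp1, one_mul] at h1 ⊢
    exact key w hw h1
  · have hx : V.valuation (pi * w) ^ 4 * V.valuation (3 : ℂ) = V.valuation w ^ 4 := by
      rw [map_mul, mul_pow, mul_right_comm, hp, one_mul]
    rcases lt_trichotomy (V.valuation w) 1 with h | h | h
    · exfalso
      have h2 := hunr w hw h
      have h4 : V.valuation w ^ 4 ≤ V.valuation (3 : ℂ) ^ 2 := by
        calc V.valuation w ^ 4 = (V.valuation w ^ 2) ^ 2 := by rw [← pow_mul]
          _ ≤ V.valuation (3 : ℂ) ^ 2 := by gcongr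
      have h5 : V.valuation (3 : ℂ) ^ 2 < V.valuation (3 : ℂ) := by
        calc V.valuation (3 : ℂ) ^ 2 = V.valuation (3 : ℂ) * V.valuation (3 : ℂ) := pow_two _
          _ < V.valuation (3 : ℂ) * 1 := by
              exact mul_lt_mul_of_pos_left h3 h3p
          _ = V.valuation (3 : ℂ) := mul_one _
      have h6 : (1 : V.ValueGroup) ≤ V.valuation (pi * w) ^ 4 := one_le_pow₀ h1.le
      have h7 : V.valuation (3 : ℂ) ≤ V.valuation (pi * w) ^ 4 * V.valuation (3 : ℂ) := by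
        calc V.valuation (3 : ℂ) = 1 * V.valuation (3 : ℂ) := (one_mul _).symm
          _ ≤ V.valuation (pi * w) ^ 4 * V.valuation (3 : ℂ) := by gcongr
      rw [hx] at h7
      exact absurd (h7.trans h4) (not_le.2 h5)
    · left
      rw [hx, h, one_pow]
    · right
      have h2 := key w hw h
      calc (1 : V.ValueGroup) = 1 ^ 2 := (one_pow _).symm
        _ ≤ (V.valuation w ^ 2 * V.valuation (3 : ℂ)) ^ 2 := by gcongr
        _ = V.valuation w ^ 4 * V.valuation (3 : ℂ) ^ 2 := by rw [mul_pow, ← pow_mul]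
        _ = V.valuation (pi * w) ^ 4 * V.valuation (3 : ℂ) ^ 3 := by
            rw [← hx, mul_assoc, ← pow_succ']

end

end Pool.Agent.MUXHN


end

section

/-!
# MUX-NS, block HR: all statements, without hypotheses (helper87)
-/

set_option autoImplicit false

namespace Pool.Agent.MUXHN

theorem xn_TYR : Sn_TYR := tn_TYR
theorem xn_DVR : Sn_DVR := tn_DVR
theorem xn_HR : Sn_HR := tn_HR xn_BDN xn_LOC xn_KYN xn_TYR xn_DVR

end Pool.Agent.MUXHN


end

section

/-!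
# MUX-NS, ramified case, glue (helper87): the quantity of the final statement as a character sum

The sum `STX .. (4^j)` sees only the classes with `N b_i ≡ 1` modulo 3, the sum `STX .. (-4^j)` only those with `N b_i ≡ -1`.
-/

set_option autoImplicit false

namespace Pool.Agent.NSHR

open _root_.MU3 _root_.Pool.Agent.MU3A _root_.Pool.Agent.MU3B _root_.Pool.Agent.MU3F _root_.Pool.Agent.MUX _root_.Pool.Agent.MUXH
  _root_.Pool.Agent.MUXHY _root_.Pool.Agent.MuSym _root_.Pool.Agent.NS _root_.Pool.Agent.NSRD _root_.Pool.Agent.NSGR OnePoint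

noncomputable section

variable {A B : ℤ}

/-- the sums over the other genus vanish -/
theorem SnX_zero (hQ : Sv_QB3) {P : Ideal (OO A B)} {V : ValuationSubring ℂ} {f : ℕ}
    (H : SetR A B P V f) {e : OO A B → ℂ} (he : IsEI (idl (A := A) (B := B) (3 * f)) e) {ι : Type}
    (R : Reps A B (3 * f) ι) (m M : ℕ) (hM : 3 ∣ M) (i : ι) (c : ℤ)
    (hc : ¬ (3 : ℤ) ∣ (nI (R.b i) : ℤ) - c) : SnX R m M e i c = 0 := by
  unfold SnX
  have h0 : ∀ x : OO A B, (if (M : ℤ) ∣ nm x * nI (R.b i) - c then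
      e x * ee (R.L i) (pt R m i x) else 0) = 0 := by
    intro x
    split_ifs with h
    · by_cases hx : e x = 0
      · rw [hx, zero_mul]
      · exfalso
        obtain ⟨h1, -, -⟩ := hQ A B P V f H e he ⊤ (by
          intro h2
          have h3 := (Ideal.eq_top_iff_one (I := (⊤ : Ideal (OO A B)))).1 rfl
          rw [h2, Ideal.mem_bot] at h3
          have h4 := congrArg QuadraticAlgebra.re h3
          rw [QuadraticAlgebra.re_one, QuadraticAlgebra.re_zero] at h4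
          omega) (by
            have h5 : nI (⊤ : Ideal (OO A B)) = 1 := by
              have := R.cop R.i0
              unfold nI
              simp
            rw [h5]
            exact Nat.coprime_one_left _) x trivial hx
        apply hc
        have h2 : (3 : ℤ) ∣ nm x * nI (R.b i) - c := by
          refine dvd_trans ?_ h
          exact_mod_cast hM
        have h3 : ((nI (R.b i) : ℕ) : ℤ) - c = (nm x * nI (R.b i) - c) -
            (nm x - 1) * nI (R.b i) := by ring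
        rw [h3]
        exact dvd_sub h2 (Dvd.dvd.mul_right h1 _)
    · rfl
  have h1 : sumMod ((m : ℕ) : OO A B) (fun x => if (M : ℤ) ∣ nm x * nI (R.b i) - c then
      e x * ee (R.L i) (pt R m i x) else 0) = 0 := by
    unfold sumMod
    exact finsum_eq_zero_of_forall_eq_zero fun q => h0 _
  rw [h1, mul_zero]

/-- splitting of `STX`, for `c ≡ 1` modulo 3 -/
theorem STX_one (hQ : Sv_QB3) {P : Ideal (OO A B)} {V : ValuationSubring ℂ} {f : ℕ}
    (H : SetR A B P V f) {e : OO A B → ℂ} (he : IsEI (idl (A := A) (B := B) (3 * f)) e) {ι : Type}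
    [Fintype ι] (R : Reps A B (3 * f) ι) (m M a : ℕ) (hM : 3 ∣ M) (ha : (3 : ℤ) ∣ (a : ℤ) - 1)
    (kk : ι → ℂ) (c : ℤ) (hc : (3 : ℤ) ∣ c - 1) :
    STX R m M a e (kkp R kk) c = STX R m M a e kk c ∧ STX R m M a e (kkm R kk) c = 0 := by
  have hac : (3 : ℤ) ∣ (a : ℤ) ^ 2 * c - 1 := by
    have : (a : ℤ) ^ 2 * c - 1 = ((a : ℤ) - 1) * ((a + 1) * c) + (c - 1) := by ring
    rw [this]
    exact dvd_add (Dvd.dvd.mul_right ha _) hc
  have key : ∀ i, ¬ (3 : ℤ) ∣ (nI (R.b i) : ℤ) - 1 → SnX R m M e i ((a : ℤ) ^ 2 * c) = 0 ∧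
      SnX R m M e i c = 0 := by
    intro i hi
    refine ⟨SnX_zero hQ H he R m M hM i _ fun h => hi ?_,
      SnX_zero hQ H he R m M hM i _ fun h => hi ?_⟩
    · have := dvd_add h hac
      rwa [show (nI (R.b i) : ℤ) - (a : ℤ) ^ 2 * c + ((a : ℤ) ^ 2 * c - 1) =
        (nI (R.b i) : ℤ) - 1 by ring] at this
    · have := dvd_add h hc
      rwa [show (nI (R.b i) : ℤ) - c + (c - 1) = (nI (R.b i) : ℤ) - 1 by ring] at this
  constructor
  · unfold STX
    refine Finset.sum_congr rfl fun i _ => ?_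
    unfold kkp
    split_ifs with h
    · rfl
    · obtain ⟨h1, h2⟩ := key i h
      rw [h1, h2]
      ring
  · unfold STX
    refine Finset.sum_eq_zero fun i _ => ?_
    unfold kkm
    split_ifs with h
    · ring
    · obtain ⟨h1, h2⟩ := key i h
      rw [h1, h2]
      ring

/-- splitting of `STX`, for `c ≡ -1` modulo 3 -/
theorem STX_neg (hQ : Sv_QB3) {P : Ideal (OO A B)} {V : ValuationSubring ℂ} {f : ℕ}
    (H : SetR A B P V f) {e : OO A B → ℂ} (he : IsEI (idl (A := A) (B := B) (3 * f)) e) {ι : Type}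
    [Fintype ι] (R : Reps A B (3 * f) ι) (m M a : ℕ) (hM : 3 ∣ M) (ha : (3 : ℤ) ∣ (a : ℤ) - 1)
    (kk : ι → ℂ) (c : ℤ) (hc : (3 : ℤ) ∣ c + 1) :
    STX R m M a e (kkm R kk) c = STX R m M a e kk c ∧ STX R m M a e (kkp R kk) c = 0 := by
  have hac : (3 : ℤ) ∣ (a : ℤ) ^ 2 * c + 1 := by
    have : (a : ℤ) ^ 2 * c + 1 = ((a : ℤ) - 1) * ((a + 1) * c) + (c + 1) := by ring
    rw [this]
    exact dvd_add (Dvd.dvd.mul_right ha _) hc
  have key : ∀ i, (3 : ℤ) ∣ (nI (R.b i) : ℤ) - 1 → SnX R m M e i ((a : ℤ) ^ 2 * c) = 0 ∧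
      SnX R m M e i c = 0 := by
    intro i hi
    have h3 : ∀ c' : ℤ, (3 : ℤ) ∣ c' + 1 → ¬ (3 : ℤ) ∣ (nI (R.b i) : ℤ) - c' := by
      intro c' h1 h2
      have h4 := dvd_add h1 h2
      have h5 := dvd_sub h4 hi
      rw [show c' + 1 + ((nI (R.b i) : ℤ) - c') - ((nI (R.b i) : ℤ) - 1) = 2 by ring] at h5
      omega
    exact ⟨SnX_zero hQ H he R m M hM i _ (h3 _ hac), SnX_zero hQ H he R m M hM i _ (h3 _ hc)⟩
  constructor
  · unfold STX
    refine Finset.sum_congr rfl fun i _ => ?_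
    unfold kkm
    split_ifs with h
    · obtain ⟨h1, h2⟩ := key i h
      rw [h1, h2]
      ring
    · rfl
  · unfold STX
    refine Finset.sum_eq_zero fun i _ => ?_
    unfold kkp
    split_ifs with h
    · obtain ⟨h1, h2⟩ := key i h
      rw [h1, h2]
      ring
    · ring

/-- `comb` is additive -/
lemma comb_lin (a g : ℤ) (N : ℕ) (F G : ℤ → ℂ) (s t : ℂ) (b : ℤ) :
    comb a g N (fun b => s * F b + t * G b) b = s * comb a g N F b + t * comb a g N G b := by
  unfold comb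
  rw [Finset.mul_sum, Finset.mul_sum, ← Finset.sum_add_distrib]
  refine Finset.sum_congr rfl fun j _ => ?_
  ring

/-- the quantity of the final statement as a character sum -/
theorem qsr (hQS : Sy_QSX) (hQ : Sv_QB3) {P : Ideal (OO A B)} {V : ValuationSubring ℂ} {f : ℕ}
    (H : SetR A B P V f) {e : OO A B → ℂ} (he : IsEI (idl (A := A) (B := B) (3 * f)) e) {ι : Type}
    [Fintype ι] (R : Reps A B (3 * f) ι) (kk : ι → ℂ) (m : ℕ) :
    ∑ j ∈ Finset.range 2, (-1 : ℂ) ^ (1 - j) *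
        (STX R (lvX 3 f m) (3 ^ (m + 1)) (aX 3 f) e kk (4 ^ j) +
          STX R (lvX 3 f m) (3 ^ (m + 1)) (aX 3 f) e kk (-(4 ^ j))) =
      2 * f * ∑ b ∈ Finset.range (3 ^ (m + 1)),
        ex (-((4 : ℚ) ^ 1 * (aX 3 f : ℚ) ^ 2) / ((3 ^ (m + 1) : ℕ) : ℚ)) ^ b *
          comb (aX 3 f) 4 1 (fun b => PP R ⊤ e (kkp R kk) 0 ∞
              ((b / ((3 ^ (m + 1) : ℕ) : ℚ) : ℚ) : OnePoint ℚ) +
            PP R ⊤ e (kkm R kk) 0 (mob (-1) 0 0 1 ∞)
              (mob (-1) 0 0 1 ((b / ((3 ^ (m + 1) : ℕ) : ℚ) : ℚ) : OnePoint ℚ))) b := by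
  have hcq : CQ A B := H.case.toCQ
  have h3f : ((3 * f : ℕ) : OO A B) ∈ idl (A := A) (B := B) (3 * f) :=
    Ideal.mem_span_singleton_self _
  have hM : q0 3 * 3 ^ m = 3 ^ (m + 1) := by
    unfold q0
    norm_num
    ring
  have hq3 : (q0 3 : ℤ) = 3 := by
    unfold q0
    norm_num
  have hq3' : (q0 3 : ℚ) = 3 := by
    unfold q0
    norm_num
  have e4 : (1 + 3 : ℤ) = 4 := by norm_num
  have e4' : (1 + 3 : ℚ) = 4 := by norm_num
  have haz : ((aX 3 f : ℕ) : ℤ) - 1 = 3 * (2 * f) := by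
    unfold aX q0
    push_cast
    norm_num
    ring
  have ha3 : (3 : ℤ) ∣ ((aX 3 f : ℕ) : ℤ) - 1 := by rw [haz]; exact Dvd.intro _ rfl
  have h3M : 3 ∣ 3 ^ (m + 1) := dvd_pow_self 3 (Nat.succ_ne_zero m)
  have Q := fun (k : ι → ℂ) (s : ℤ) => hQS 3 Nat.prime_three A B hcq ⊤ f H.f0 ι inferInstance R _ e
    he h3f k s 1 m
  rw [hM, hq3, hq3', e4, e4'] at Q
  have c1 : ∀ j : ℕ, (3 : ℤ) ∣ 4 ^ j - 1 := by
    intro j
    have := sub_dvd_pow_sub_pow (4 : ℤ) 1 j
    rw [one_pow] at this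
    exact dvd_trans (by norm_num) this
  have c2 : ∀ j : ℕ, (3 : ℤ) ∣ -4 ^ j + 1 := by
    intro j
    have := (dvd_neg).2 (c1 j)
    rwa [neg_sub, sub_eq_neg_add] at this
  have P1 := fun j => STX_one hQ H he R (lvX 3 f m) (3 ^ (m + 1)) (aX 3 f) h3M ha3 kk (4 ^ j) (c1 j)
  have P2 := fun j => STX_neg hQ H he R (lvX 3 f m) (3 ^ (m + 1)) (aX 3 f) h3M ha3 kk (-4 ^ j) (c2 j)
  set ζ : ℂ := ex (-((4 : ℚ) ^ 1 * (aX 3 f : ℚ) ^ 2) / ((3 ^ (m + 1) : ℕ) : ℚ)) with hζ
  -- the four sums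
  have A1 := Q (kkp R kk) 1
  have A2 := Q (kkp R kk) (-1)
  have B1 := Q (kkm R kk) 1
  have B2 := Q (kkm R kk) (-1)
  have L1 : ∀ s : ℤ, ∑ j ∈ Finset.range (1 + 1), ((-1 : ℂ) ^ (1 - j) * ((1 : ℕ).choose j : ℂ)) *
      (STX R (lvX 3 f m) (3 ^ (m + 1)) (aX 3 f) e (kkp R kk) (4 ^ j) +
        s * STX R (lvX 3 f m) (3 ^ (m + 1)) (aX 3 f) e (kkp R kk) (-4 ^ j)) =
      ∑ j ∈ Finset.range 2, (-1 : ℂ) ^ (1 - j) *
        STX R (lvX 3 f m) (3 ^ (m + 1)) (aX 3 f) e kk (4 ^ j) := by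
    intro s
    refine Finset.sum_congr rfl fun j hj => ?_
    rw [(P1 j).1, (P2 j).2]
    have hj2 : j = 0 ∨ j = 1 := by
      have := Finset.mem_range.1 hj
      omega
    rcases hj2 with rfl | rfl <;> simp
  have L2 : ∀ s : ℤ, ∑ j ∈ Finset.range (1 + 1), ((-1 : ℂ) ^ (1 - j) * ((1 : ℕ).choose j : ℂ)) *
      (STX R (lvX 3 f m) (3 ^ (m + 1)) (aX 3 f) e (kkm R kk) (4 ^ j) +
        s * STX R (lvX 3 f m) (3 ^ (m + 1)) (aX 3 f) e (kkm R kk) (-4 ^ j)) =
      s * ∑ j ∈ Finset.range 2, (-1 : ℂ) ^ (1 - j) *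
        STX R (lvX 3 f m) (3 ^ (m + 1)) (aX 3 f) e kk (-4 ^ j) := by
    intro s
    rw [Finset.mul_sum]
    refine Finset.sum_congr rfl fun j hj => ?_
    rw [(P1 j).2, (P2 j).1]
    have hj2 : j = 0 ∨ j = 1 := by
      have := Finset.mem_range.1 hj
      omega
    rcases hj2 with rfl | rfl <;> simp
  rw [L1] at A1 A2
  rw [L2] at B1 B2
  have E : ∀ b : ℕ, comb (aX 3 f) 4 1 (fun b => PP R ⊤ e (kkp R kk) 0 ∞
              ((b / ((3 ^ (m + 1) : ℕ) : ℚ) : ℚ) : OnePoint ℚ) +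
            PP R ⊤ e (kkm R kk) 0 (mob (-1) 0 0 1 ∞)
              (mob (-1) 0 0 1 ((b / ((3 ^ (m + 1) : ℕ) : ℚ) : ℚ) : OnePoint ℚ))) b =
      (1 / 2) * (comb (aX 3 f) 4 1 (fun b => sgnPart (((1 : ℤ)) : ℂ) (PP R ⊤ e (kkp R kk) 0) ∞
            ((b / ((3 ^ (m + 1) : ℕ) : ℚ) : ℚ) : OnePoint ℚ)) b +
        comb (aX 3 f) 4 1 (fun b => sgnPart (((-1 : ℤ)) : ℂ) (PP R ⊤ e (kkp R kk) 0) ∞
            ((b / ((3 ^ (m + 1) : ℕ) : ℚ) : ℚ) : OnePoint ℚ)) b) +
      (1 / 2) * (comb (aX 3 f) 4 1 (fun b => sgnPart (((1 : ℤ)) : ℂ) (PP R ⊤ e (kkm R kk) 0) ∞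
            ((b / ((3 ^ (m + 1) : ℕ) : ℚ) : ℚ) : OnePoint ℚ)) b -
        comb (aX 3 f) 4 1 (fun b => sgnPart (((-1 : ℤ)) : ℂ) (PP R ⊤ e (kkm R kk) 0) ∞
            ((b / ((3 ^ (m + 1) : ℕ) : ℚ) : ℚ) : OnePoint ℚ)) b) := by
    intro b
    unfold comb sgnPart
    rw [← Finset.sum_add_distrib, ← Finset.sum_sub_distrib, Finset.mul_sum, Finset.mul_sum,
      ← Finset.sum_add_distrib]
    refine Finset.sum_congr rfl fun j _ => ?_
    push_cast
    ring
  have hL : ∑ j ∈ Finset.range 2, (-1 : ℂ) ^ (1 - j) *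
        (STX R (lvX 3 f m) (3 ^ (m + 1)) (aX 3 f) e kk (4 ^ j) +
          STX R (lvX 3 f m) (3 ^ (m + 1)) (aX 3 f) e kk (-(4 ^ j))) =
      ∑ j ∈ Finset.range 2, (-1 : ℂ) ^ (1 - j) *
        STX R (lvX 3 f m) (3 ^ (m + 1)) (aX 3 f) e kk (4 ^ j) +
      ∑ j ∈ Finset.range 2, (-1 : ℂ) ^ (1 - j) *
        STX R (lvX 3 f m) (3 ^ (m + 1)) (aX 3 f) e kk (-4 ^ j) := by
    rw [← Finset.sum_add_distrib]
    refine Finset.sum_congr rfl fun j _ => ?_
    ring
  rw [hL]
  simp only [E, mul_add, Finset.sum_add_distrib, mul_sub, Finset.sum_sub_distrib]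
  have hs : ∀ G : ℕ → ℂ, ∑ b ∈ Finset.range (3 ^ (m + 1)), ζ ^ b * (1 / 2 * G b) =
      (1 / 2) * ∑ b ∈ Finset.range (3 ^ (m + 1)), ζ ^ b * G b := by
    intro G
    rw [Finset.mul_sum]
    refine Finset.sum_congr rfl fun b _ => ?_
    ring
  rw [hs, hs, hs, hs]
  push_cast at A1 A2 B1 B2 ⊢
  linear_combination (1 / 2) * A1 + (1 / 2) * A2 + (1 / 2) * B1 - (1 / 2) * B2

end

end Pool.Agent.NSHR


end

section

/-!
# MUX-NS, ramified case, glue (helper87): elementary facts and the nebentypus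

After helper6's `H_Chn.lean` (3 inert).
-/

set_option autoImplicit false

namespace Pool.Agent.NSHR

open _root_.MU3 _root_.Pool.Agent.MU3A _root_.Pool.Agent.MU3B _root_.Pool.Agent.MU3F _root_.Pool.Agent.MUX _root_.Pool.Agent.MUXH
  _root_.Pool.Agent.MUXHY _root_.Pool.Agent.MuSym _root_.Pool.Agent.NS _root_.Pool.Agent.NSRD OnePoint

noncomputable section

variable {A B : ℤ}

/-- the level without its 3-part: `(|D|/3) f²` -/
def N0R (A B : ℤ) (f : ℕ) : ℕ := (absD A B / 3).toNat * f ^ 2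

lemma absD_pos (h : CQ A B) : 0 < absD A B := by
  have := h.neg
  unfold absD
  omega

/-- `|D| = 3 D'`, `3 ∤ D'` -/
lemma absD_three (h : CaseR A B) : (3 : ℤ) * (absD A B / 3) = absD A B ∧
    ¬ (3 : ℤ) ∣ absD A B / 3 ∧ 0 < absD A B / 3 := by
  have h0 := absD_pos h.toCQ
  have h3 : (3 : ℤ) ∣ absD A B := by
    have := h.three
    unfold absD
    rwa [dvd_neg]
  have e : (3 : ℤ) * (absD A B / 3) = absD A B := Int.mul_ediv_cancel' h3
  refine ⟨e, ?_, by omega⟩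
  rintro ⟨k, hk⟩
  have e2 : absD A B = 3 * (3 * k) := by rw [← e, hk]
  unfold absD at e2
  rcases h.hB with hB | hB
  · obtain ⟨hsq, -⟩ := h.fund0 hB
    subst hB
    have h4 : (3 : ℤ) * 3 ∣ A := by
      have h5 : (3 : ℤ) * 3 ∣ 4 * A := ⟨-k, by linarith⟩
      exact (IsCoprime.dvd_of_dvd_mul_left (by norm_num : IsCoprime ((3 : ℤ) * 3) 4) h5)
    have h6 := hsq 3 h4
    rw [Int.isUnit_iff] at h6
    omega
  · have hsq := h.fund1 hB
    subst hB
    have h4 : (3 : ℤ) * 3 ∣ 1 + 4 * A := ⟨-k, by linarith⟩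
    have h6 := hsq 3 h4
    rw [Int.isUnit_iff] at h6
    omega

lemma N0R_cast (h : CaseR A B) (f : ℕ) :
    ((3 * N0R A B f : ℕ) : ℤ) = absD A B * (f : ℤ) ^ 2 := by
  obtain ⟨e, -, hp⟩ := absD_three h
  unfold N0R
  push_cast
  rw [Int.toNat_of_nonneg hp.le, ← mul_assoc, e]

/-- elementary facts -/
theorem valR {P : Ideal (OO A B)} {V : ValuationSubring ℂ} {f : ℕ} (H : SetR A B P V f) :
    V.valuation (3 : ℂ) < 1 ∧ (∀ n : ℤ, V.valuation (n : ℂ) ≤ 1) ∧
    (∀ n : ℤ, ¬ (3 : ℤ) ∣ n → V.valuation (n : ℂ) = 1) ∧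
    (∀ (r : ℕ) (z : ℂ), r ≠ 0 → z ^ r = 1 → V.valuation z = 1) ∧
    0 < absD A B ∧
    idl (A := A) (B := B) (3 * f) ≤ sp ((absD A B : ℤ) : OO A B) ∧
    idl (A := A) (B := B) (3 * f) ≠ ⊥ ∧ idl (A := A) (B := B) (3 * f) ≠ ⊤ ∧
    ((3 * f : ℕ) : OO A B) ∈ idl (A := A) (B := B) (3 * f) := by
  have h3 : V.valuation (3 : ℂ) < 1 := by
    have h1 : emb ((3 : ℕ) : OO A B) ∈ V.nonunits := (H.hV _).2 H.hP.mem
    have h2 : emb ((3 : ℕ) : OO A B) = 3 := by
      unfold emb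
      rw [QuadraticAlgebra.re_natCast, QuadraticAlgebra.im_natCast]
      norm_num
    rw [h2, ValuationSubring.mem_nonunits_iff] at h1
    exact h1
  have hle : ∀ z : ℤ, V.valuation (z : ℂ) ≤ 1 := fun z =>
    (V.valuation_le_one_iff _).2 (intCast_mem V z)
  have hD0 : 0 < absD A B := absD_pos H.case.toCQ
  have h3f : ((3 * f : ℕ) : OO A B) ∈ idl (A := A) (B := B) (3 * f) :=
    Ideal.mem_span_singleton_self _
  have hf0 := H.f0
  refine ⟨h3, hle, ?_, ?_, hD0, ?_, ?_, ?_, h3f⟩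
  · intro n hn
    have hc : IsCoprime n 3 := by
      rw [isCoprime_comm]
      exact (Int.prime_three.coprime_iff_not_dvd).2 hn
    obtain ⟨a, b, hab⟩ := hc
    by_contra hne
    have hlt : V.valuation (n : ℂ) < 1 := lt_of_le_of_ne (hle n) hne
    have h1 : V.valuation ((a : ℂ) * n + b * 3) < 1 := by
      refine lt_of_le_of_lt (V.valuation.map_add _ _) (max_lt ?_ ?_)
      · rw [map_mul]
        exact mul_lt_one_of_nonneg_of_lt_one_right (hle a) zero_le hlt
      · rw [map_mul]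
        exact mul_lt_one_of_nonneg_of_lt_one_right (hle b) zero_le h3
    have h2 : (a : ℂ) * n + b * 3 = 1 := by exact_mod_cast hab
    rw [h2, map_one] at h1
    exact lt_irrefl _ h1
  · intro r z hr hz
    have h1 : V.valuation z ^ r = 1 := by rw [← map_pow, hz, map_one]
    exact (pow_eq_one_iff_of_nonneg zero_le hr).1 h1
  · rw [Ideal.span_singleton_le_iff_mem, Ideal.mem_span_singleton]
    obtain ⟨t, ht⟩ := H.fD
    refine ⟨(2 * t : ℤ), ?_⟩
    have h1 : ((3 * f : ℕ) : OO A B) = ((3 * (f : ℤ) : ℤ) : OO A B) := by push_cast; rfl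
    rw [h1, ht]
    push_cast
    ring
  · intro h
    rw [h, Ideal.mem_bot] at h3f
    have h1 := congrArg QuadraticAlgebra.re h3f
    simp only [QuadraticAlgebra.re_natCast, QuadraticAlgebra.re_zero] at h1
    have h2 : (3 * f : ℕ) = 0 := by exact_mod_cast h1
    omega
  · intro h
    rw [Ideal.eq_top_iff_one, Ideal.mem_span_singleton] at h
    obtain ⟨y, hy⟩ := h
    have h1 := congrArg QuadraticAlgebra.re hy
    rw [QuadraticAlgebra.re_one, QuadraticAlgebra.re_mul, QuadraticAlgebra.re_natCast,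
      QuadraticAlgebra.im_natCast, mul_zero, zero_mul, add_zero] at h1
    have h9 : ((3 * f : ℕ) : ℤ) ∣ 1 := ⟨y.re, h1⟩
    have h10 := Int.le_of_dvd one_pos h9
    have : 0 < f := Nat.pos_of_ne_zero hf0
    omega

theorem chrR (h4 : MUXF.Sx_CHI) {P : Ideal (OO A B)} {V : ValuationSubring ℂ} {f : ℕ}
    (H : SetR A B P V f)
    {e : OO A B → ℂ} (he : IsEI (idl (A := A) (B := B) (3 * f)) e) {r : ℕ} (hr0 : r ≠ 0)
    (hr : ∀ x, e x ≠ 0 → e x ^ r = 1) :
    nuX e 1 = 1 ∧ (∀ d d', nuX e (d * d') = nuX e d * nuX e d') ∧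
    (∀ d d' : ℤ, ((3 * N0R A B f : ℕ) : ℤ) ∣ d - d' → nuX e d = nuX e d') ∧
    (∀ d, V.valuation (nuX e d) ≤ 1) := by
  obtain ⟨-, vZ, -, vru, hDpos, hgD, hg0, -, hpf⟩ := valR H
  have hcq : CQ A B := H.case.toCQ
  have ev : ∀ x, V.valuation (e x) ≤ 1 := by
    intro x
    by_cases hx : e x = 0
    · rw [hx, map_zero]
      exact zero_le_one
    · exact (vru r (e x) hr0 (hr x hx)).le
  have hcopD : ∀ d : ℤ, e (d : OO A B) ≠ 0 → IsCoprime d (absD A B) := by
    intro d hd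
    have h5 := (he.supp _).1 hd
    apply Chr.coprime_int (A := A) (B := B)
    rw [← Ideal.isCoprime_span_singleton_iff]
    rw [Ideal.isCoprime_iff_sup_eq] at h5 ⊢
    exact top_le_iff.1 (h5 ▸ sup_le_sup_left hgD _)
  refine ⟨?_, ?_, ?_, ?_⟩
  · unfold nuX
    have : ((1 : ℤ) : OO A B) = 1 := by push_cast; rfl
    rw [Chr.chiX_one, this, he.one]
    norm_num
  · intro d d'
    unfold nuX
    have : ((d * d' : ℤ) : OO A B) = (d : OO A B) * (d' : OO A B) := by push_cast; rfl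
    rw [Chr.chiX_mul, this, he.mul]
    push_cast
    ring
  · intro d d' hd
    rw [N0R_cast H.case] at hd
    obtain ⟨t, ht⟩ := hd
    have hD : absD A B ∣ d - d' := ⟨(f : ℤ) ^ 2 * t, by rw [ht]; ring⟩
    obtain ⟨e3, -, -⟩ := absD_three H.case
    unfold nuX
    by_cases hcop : IsCoprime d (absD A B)
    · have h5 : chiX A B d' = chiX A B d := ((h4 A B (toCQ hcq) d hcop).2.2 d' hD)
      have h6 : e (d : OO A B) = e (d' : OO A B) := by
        apply he.per
        have h7 : (d : OO A B) - (d' : OO A B) =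
            (((absD A B / 3 * f * t : ℤ)) : OO A B) * ((3 * f : ℕ) : OO A B) := by
          have h8 : (d : OO A B) - (d' : OO A B) = ((d - d' : ℤ) : OO A B) := by push_cast; rfl
          rw [h8, ht, ← e3]
          have h9 : 3 * (absD A B / 3) / 3 = absD A B / 3 := by omega
          rw [h9]
          push_cast
          ring
        rw [h7]
        exact Ideal.mul_mem_left _ _ hpf
      rw [h5, h6]
    · have h5 : e (d : OO A B) = 0 := by
        by_contra hne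
        exact hcop (hcopD d hne)
      have h6 : e (d' : OO A B) = 0 := by
        by_contra hne
        apply hcop
        obtain ⟨s, hs⟩ := hD
        have h7 : d = d' + absD A B * s := by linarith
        rw [h7]
        exact (IsCoprime.add_mul_left_left_iff).2 (hcopD d' hne)
      rw [h5, h6, mul_zero, mul_zero]
  · intro d
    unfold nuX
    rw [map_mul]
    exact mul_le_one' (vZ _) (ev _)

end

end Pool.Agent.NSHR


end

section

/-!
# MUX-NS, ramified case, glue (helper87): the character sums (`Sq_HFIN`)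
-/

set_option autoImplicit false

namespace Pool.Agent.NSHR

open _root_.MU3 _root_.Pool.Agent.MU3A _root_.Pool.Agent.MU3B _root_.Pool.Agent.MU3F _root_.Pool.Agent.MUX _root_.Pool.Agent.MUXH
  _root_.Pool.Agent.MUXHY _root_.Pool.Agent.MuSym _root_.Pool.Agent.NS _root_.Pool.Agent.NSRD _root_.Pool.Agent.NSGR _root_.Pool.Agent.MUXHN
  OnePoint

noncomputable section

variable {A B : ℤ}

/-- the symbol `ι^* P` -/
theorem isSym_neg {N : ℕ} {nu : ℤ → ℂ} {P : OnePoint ℚ → OnePoint ℚ → ℂ} (h : IsSym N nu P) :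
    IsSym N nu (fun x y => P (mob (-1) 0 0 1 x) (mob (-1) 0 0 1 y)) := by
  constructor
  · intro x y z
    exact h.add _ _ _
  · intro a b c d hd hc x y
    show P (mob (-1) 0 0 1 (mob a b c d x)) (mob (-1) 0 0 1 (mob a b c d y)) = _
    rw [Hk.mob_conj, Hk.mob_conj]
    exact h.equiv a (-b) (-c) d (by linear_combination hd) (hc.neg_right) _ _

theorem isSym_add {N : ℕ} {nu : ℤ → ℂ} {P Q : OnePoint ℚ → OnePoint ℚ → ℂ} (h : IsSym N nu P)
    (h' : IsSym N nu Q) (s : ℂ) : IsSym N nu (fun x y => (P x y + Q x y) / s) := by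
  constructor
  · intro x y z
    rw [← h.add x y z, ← h'.add x y z]
    ring
  · intro a b c d hd hc x y
    show (P (mob a b c d x) (mob a b c d y) + Q (mob a b c d x) (mob a b c d y)) / s = _
    rw [h.equiv a b c d hd hc, h'.equiv a b c d hd hc]
    ring

/-- the hypotheses of the abstract part -/
theorem hypR (hG : Sv_GQR) (hT' : Sq_TYF) (hRL : Sv_RLR) (hP : MUXY.Sy_ALP)
    (hCOP : MUXY.Sy_COP) {P : Ideal (OO A B)} {V : ValuationSubring ℂ} {f : ℕ}
    (hS : SetR A B P V f) (hT : TorX A B) {ι : Type} [Fintype ι] (R : Reps A B (3 * f) ι)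
    {u el lam : ℂ} (hg : GoodR V (R.L R.i0) u el lam) (hua : IsAlgebraic ℚ u)
    {e : OO A B → ℂ} (he : IsEI (idl (A := A) (B := B) (3 * f)) e) {r : ℕ} (hr3 : ¬ 3 ∣ r)
    (her : ∀ x, e x ≠ 0 → e x ^ r = 1) {i : ℕ} (hi : i ≤ 1)
    (hty : ∀ x, x - 1 ∈ idl (A := A) (B := B) f → x ∉ P → e x = ((wP P x : ℤ) : ℂ) ^ i)
    {kk : ι → ℂ} (hkk : ∀ i, kk i ^ r = 1) :
    ∃ (pi : ℂ) (KI : Subfield ℂ), HypR V (N0R A B f) 2 i (nuX e)
      (PR R e kk u) pi KI (Complex.exp (2 * Real.pi * Complex.I / 3)) := by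
  have hp0 : ∀ j, kkp R kk j = 0 ∨ kkp R kk j ^ r = 1 := by
    intro j
    unfold kkp
    split_ifs
    · exact Or.inr (hkk j)
    · exact Or.inl rfl
  have hm0 : ∀ j, kkm R kk j = 0 ∨ kkm R kk j ^ r = 1 := by
    intro j
    unfold kkm
    split_ifs
    · exact Or.inl rfl
    · exact Or.inr (hkk j)
  obtain ⟨pi, KI, typ, typ', unr, vpi⟩ := hT' A B P V f hS hT ι R u el lam hg e he r hr3 her i hi
    hty (kkp R kk) (kkm R kk) hp0 hm0
  obtain ⟨v3, vZ, v1, vr, D0, gD, gb, gt, h3f⟩ := valR hS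
  have hcq : CQ A B := hS.case.toCQ
  have hr0 : r ≠ 0 := by
    rintro rfl
    exact hr3 (dvd_zero 3)
  have hf0 := hS.f0
  obtain ⟨nu1, num, nuper, nuv⟩ := chrR MUXF.xf_CHI hS he hr0 her
  have hN0 : ((3 * N0R A B f : ℕ) : ℤ) = absD A B * (f : ℤ) ^ 2 := N0R_cast hS.case f
  have hDz : absD A B * ((3 * f : ℕ) : ℤ) ^ 2 = ((3 ^ (2 + 1) * N0R A B f : ℕ) : ℤ) := by
    push_cast at hN0 ⊢
    linear_combination (-9) * hN0
  have hfz : (f : ℤ) ≠ 0 := by exact_mod_cast hf0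
  have hNne : N0R A B f ≠ 0 := by
    intro h
    rw [h, mul_zero] at hN0
    have h1 : absD A B * (f : ℤ) ^ 2 = 0 := by rw [← hN0]; rfl
    exact mul_ne_zero D0.ne' (pow_ne_zero _ hfz) h1
  have hcop : ∀ i, IsCoprime (MUX.sp ((MUX.nI (R.b i) : ℕ) : OO A B))
      (idl (A := A) (B := B) (3 * f)) :=
    hCOP A B (3 * f) ι R _ 1 (by rw [pow_one]; exact h3f)
  have hka : ∀ k : ι → ℂ, (∀ j, k j = 0 ∨ k j ^ r = 1) → ∀ c, IsAlgebraic ℚ (k c) := by
    intro k hk c
    rcases hk c with h | h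
    · rw [h]; exact isAlgebraic_zero
    · exact IsAlgebraic.of_pow (Nat.pos_of_ne_zero hr0) (by rw [h]; exact isAlgebraic_one)
  have halg : ∀ k : ι → ℂ, (∀ j, k j = 0 ∨ k j ^ r = 1) → ∀ x y,
      IsAlgebraic ℚ (PhiK R e k x y / (u * R.om R.i0)) := by
    intro k hk x y
    have h1 := fun c => (hP A B hcq hT (3 * f) ι inferInstance R _ e gb gt he hcop r hr0 her c x y).2
    have e1 : PhiK R e k x y / (u * R.om R.i0) =
        (∑ c, k c * (PhiI (R.b c) e x y / R.om R.i0)) * u⁻¹ := by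
      unfold PhiK
      have ho : R.om R.i0 ≠ 0 := (R.nl R.i0).om_ne
      have hu := hg.u0
      rw [mul_comm u, ← div_div, Finset.sum_div, div_eq_mul_inv]
      congr 1
      refine Finset.sum_congr rfl fun c _ => ?_
      ring
    rw [e1]
    exact (NST.ALV.sum _ _ fun c _ => (hka k hk c).mul (h1 c)).mul hua.inv
  have hPR : ∀ x y, PR R e kk u x y = PhiK R e (kkp R kk) x y / (u * R.om R.i0) +
      PhiK R e (kkm R kk) (mob (-1) 0 0 1 x) (mob (-1) 0 0 1 y) / (u * R.om R.i0) := by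
    intro x y
    unfold PR
    rw [add_div]
  have hsymc : ∀ c, IsSym (3 ^ (2 + 1) * N0R A B f) (nuX e) (PhiI (R.b c) e) := fun c =>
    MUXT.sym_EI (toCQ hcq) (R.b c) (R.nl c).b_ne _ e (toEI he) (3 * f) (by omega) h3f _
      (mul_ne_zero (by norm_num) hNne) (by rw [hDz])
  refine ⟨pi, KI, ?_⟩
  exact
    { vp := v3
      N0 := hNne
      cop := by
        rw [Nat.Prime.coprime_iff_not_dvd Nat.prime_three]
        intro h
        obtain ⟨e3, hD3, -⟩ := absD_three hS.case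
        have h1 : (3 : ℤ) * 3 ∣ ((3 * N0R A B f : ℕ) : ℤ) := by
          obtain ⟨k, hk⟩ := h
          refine ⟨(k : ℤ), ?_⟩
          rw [hk]
          push_cast
          ring
        rw [hN0, ← e3, mul_assoc, mul_dvd_mul_iff_left (by norm_num : (3 : ℤ) ≠ 0)] at h1
        rcases Int.prime_three.dvd_or_dvd h1 with h2 | h2
        · exact hD3 h2
        · have h4 := Int.prime_three.dvd_of_dvd_pow h2
          exact hS.fp (by exact_mod_cast h4)
      nu1 := nu1
      num := num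
      nuper := nuper
      nuv := nuv
      sym := by
        have h1 := Sym.isSym_lin hsymc (kkp R kk) 1
        have h2 := isSym_neg (Sym.isSym_lin hsymc (kkm R kk) 1)
        have h3 := isSym_add h1 h2 (u * R.om R.i0)
        have h4 : (fun x y => ((∑ c, kkp R kk c * PhiI (R.b c) e x y) / 1 +
            (∑ c, kkm R kk c * PhiI (R.b c) e (mob (-1) 0 0 1 x) (mob (-1) 0 0 1 y)) / 1) /
              (u * R.om R.i0)) = PR R e kk u := by
          funext x y
          unfold PR PhiK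
          rw [div_one, div_one]
        rw [← h4]
        exact h3
      omp := by
        have := Complex.isPrimitiveRoot_exp 3 (by norm_num)
        exact_mod_cast this
      rel := fun x => hRL A B P V f hS ι R e he kk u x
      alg := by
        intro x y
        rw [hPR]
        exact (halg _ hp0 _ _).add (halg _ hm0 _ _)
      fin := by
        classical
        obtain ⟨T, hT1⟩ := NST.nt_FGV A B hcq (3 * f) ι R _ e gb he (kkp R kk) (u * R.om R.i0)
        obtain ⟨T', hT2⟩ := NST.nt_FGV A B hcq (3 * f) ι R _ e gb he (kkm R kk) (u * R.om R.i0)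
        refine ⟨T ∪ T', fun x y => ?_⟩
        rw [hPR]
        refine add_mem ?_ ?_
        · exact AddSubgroup.closure_mono (by rw [Finset.coe_union]; exact Set.subset_union_left)
            (hT1 x y)
        · exact AddSubgroup.closure_mono (by rw [Finset.coe_union]; exact Set.subset_union_right)
            (hT2 _ _)
      typ := by
        intro x y
        obtain ⟨w, hw, hw1⟩ := typ x y
        obtain ⟨w', hw', hw2⟩ := typ' (mob (-1) 0 0 1 x) (mob (-1) 0 0 1 y)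
        refine ⟨w + w', KI.add_mem hw hw', ?_⟩
        rw [hPR, hw1, hw2]
        ring
      unr := unr
      i1 := hi
      vpi := vpi
      G := by
        intro N' hN' hd
        refine hG A B P V f hS hT ι R u el lam hg e he r hr0 her kk (vr r _ hr0 (hkk _)) N' hN' ?_
        rw [hDz]
        exact_mod_cast hd }

lemma pow_lem {Γ : Type} [LinearOrderedCommGroupWithZero Γ] {t : Γ} (ht : t ≤ 1) {a b : ℕ}
    (h : a ≤ b) : t ^ b ≤ t ^ a := pow_le_pow_right_of_le_one' ht h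

/-- the character sums -/
theorem tq_HFIN (hG : Sv_GQR) (hT' : Sq_TYF) (hTI : Sv_TYI) (hRL : Sv_RLR) (hQ : Sv_QB3)
    (hP : MUXY.Sy_ALP) (hCOP : MUXY.Sy_COP)
    (hLG : Sv_LGR) : Sq_HFIN := by
  intro A B P V f hS hT ι _ R u el lam hg e he r hr3 her kk hkk n₀
  obtain ⟨v3, vZ, v1, vr, D0, gD, gb, gt, h3f⟩ := valR hS
  have hcq : CQ A B := hS.case.toCQ
  have hr0 : r ≠ 0 := by
    rintro rfl
    exact hr3 (dvd_zero 3)
  have hf0 := hS.f0
  obtain ⟨i, hi, hty⟩ := hTI A B P V f hS e he r hr3 her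
  have hua : IsAlgebraic ℚ u := (hLG A B hcq hT (3 * f) ι R V v3 u el lam hg).1.1
  set kk' : ι → ℂ := fun c => kk c / e ((nI (R.b c) : ℕ) : OO A B) with hkk'
  have heN : ∀ c, e ((nI (R.b c) : ℕ) : OO A B) ≠ 0 := Brg.e_nI R he h3f
  have hk1 : ∀ c, kk' c ^ r = 1 := by
    intro c
    rw [hkk']
    beta_reduce
    rw [div_pow, hkk, her _ (heN c), div_one]
  obtain ⟨pi, KI, hyp⟩ := hypR hG hT' hRL hP hCOP hS hT R hg hua he hr3 her hi hty hk1
  have hfz : (0 : ℤ) < f := by exact_mod_cast Nat.pos_of_ne_zero hf0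
  have haz : ((aX 3 f : ℕ) : ℤ) - 1 = 3 * (2 * f) := by
    unfold aX q0
    push_cast
    norm_num
    ring
  have ha3 : (3 : ℤ) ∣ ((aX 3 f : ℕ) : ℤ) - 1 := by rw [haz]; exact Dvd.intro _ rfl
  have ha1 : ((aX 3 f : ℕ) : ℤ) ≠ 1 := by
    intro h
    rw [h] at haz
    omega
  obtain ⟨m, hn, hmain⟩ := xn_HR V (N0R A B f) 2 i (nuX e) _ pi KI _ hyp ((aX 3 f : ℕ) : ℤ) 4
    ha3 ha1 (by norm_num) (by norm_num) (n₀ + 2)
  refine ⟨m, by omega, by omega, ?_⟩
  rw [qsr (ty_QSX MUXF.xf_F5 MUXF.xf_PRD) hQ hS he R kk m]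
  have hprim := Hfx.prim 3 (m + 1) Nat.prime_three (-(4 * ((aX 3 f : ℕ) : ℤ) ^ 2)) (by
    intro h
    rw [dvd_neg] at h
    rcases Int.prime_three.dvd_or_dvd h with h | h
    · omega
    · have h5 := Int.prime_three.dvd_of_dvd_pow h
      have h6 := dvd_sub h5 ha3
      rw [sub_sub_cancel] at h6
      omega)
  have hζ : ex (-((4 : ℚ) ^ 1 * (aX 3 f : ℚ) ^ 2) / ((3 ^ (m + 1) : ℕ) : ℚ)) =
      ex (((-(4 * ((aX 3 f : ℕ) : ℤ) ^ 2) : ℤ) : ℚ) / (3 : ℕ) ^ (m + 1)) := by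
    push_cast
    rw [pow_one]
  rw [hζ]
  set ζ : ℂ := ex (((-(4 * ((aX 3 f : ℕ) : ℤ) ^ 2) : ℤ) : ℚ) / (3 : ℕ) ^ (m + 1)) with hζd
  have hrel : ζ ^ 3 ^ m * Complex.exp (2 * Real.pi * Complex.I / 3) = 1 := by
    have h1 : Complex.exp (2 * Real.pi * Complex.I / 3) = ex ((1 : ℚ) / 3) := by
      unfold ex
      congr 1
      push_cast
      ring
    have h2 : ζ ^ 3 ^ m = ex (((-(4 * ((aX 3 f : ℕ) : ℤ) ^ 2) : ℤ) : ℚ) / 3) := by
      rw [hζd, Pool.Agent.MU3H.Qs.ex_pow]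
      congr 1
      push_cast
      have : (3 : ℚ) ^ m ≠ 0 := pow_ne_zero _ (by norm_num)
      field_simp
      try ring
    obtain ⟨t, ht⟩ := ha3
    have h3 : ∃ k : ℤ, (-(4 * ((aX 3 f : ℕ) : ℤ) ^ 2) : ℤ) + 1 = 3 * k := by
      refine ⟨-(12 * t ^ 2 + 8 * t + 1), ?_⟩
      have h4 : ((aX 3 f : ℕ) : ℤ) = 1 + 3 * t := by linarith
      rw [h4]
      ring
    obtain ⟨k, hk⟩ := h3
    rw [h1, h2, ← Pool.Agent.MU3H.Qs.ex_add]
    have h5 : ((-(4 * ((aX 3 f : ℕ) : ℤ) ^ 2) : ℤ) : ℚ) / 3 + 1 / 3 = (k : ℚ) := by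
      have h6 : (((-(4 * ((aX 3 f : ℕ) : ℤ) ^ 2) : ℤ) + 1 : ℤ) : ℚ) = ((3 * k : ℤ) : ℚ) := by
        rw [hk]
      push_cast at h6 ⊢
      linear_combination (1 / 3) * h6
    rw [h5]
    exact Pool.Agent.MU3H.Qs.ex_int k
  obtain ⟨hm0, hm1⟩ := hmain ζ hprim hrel
  have hz : V.valuation (ζ - 1) ^ (2 * 3 ^ m) = V.valuation (3 : ℂ) := by
    have h1 := Hz.val_p 3 Nat.prime_three V m ζ hprim
    rw [mul_comm 2 (3 ^ m)]
    simpa using h1
  have hu := hg.u0
  set Y : ℂ := ∑ b ∈ Finset.range (3 ^ (m + 1)), ζ ^ b *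
      comb ((aX 3 f : ℕ) : ℤ) 4 1 (fun b => PR R e kk' u ∞
        (((b : ℚ) / 3 ^ (m + 1) : ℚ) : OnePoint ℚ)) b with hY
  have e5 : (2 * (f : ℂ) * ∑ b ∈ Finset.range (3 ^ (m + 1)), ζ ^ b *
      comb ((aX 3 f : ℕ) : ℤ) 4 1 (fun b => PP R ⊤ e (kkp R kk) 0 ∞
              ((b / ((3 ^ (m + 1) : ℕ) : ℚ) : ℚ) : OnePoint ℚ) +
            PP R ⊤ e (kkm R kk) 0 (mob (-1) 0 0 1 ∞)
              (mob (-1) 0 0 1 ((b / ((3 ^ (m + 1) : ℕ) : ℚ) : ℚ) : OnePoint ℚ))) b) / u =
      2 * f * Y := by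
    rw [mul_div_assoc, Finset.sum_div, hY]
    congr 1
    refine Finset.sum_congr rfl fun b _ => ?_
    rw [mul_div_assoc]
    congr 1
    have e6 : ∀ b : ℤ, PP R ⊤ e (kkp R kk) 0 ∞
              ((b / ((3 ^ (m + 1) : ℕ) : ℚ) : ℚ) : OnePoint ℚ) +
            PP R ⊤ e (kkm R kk) 0 (mob (-1) 0 0 1 ∞)
              (mob (-1) 0 0 1 ((b / ((3 ^ (m + 1) : ℕ) : ℚ) : ℚ) : OnePoint ℚ)) =
        u * PR R e kk' u ∞ (((b : ℚ) / 3 ^ (m + 1) : ℚ) : OnePoint ℚ) := by
      intro b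
      have e7 : ∀ (k k' : ι → ℂ), (∀ c, k' c = k c / e ((nI (R.b c) : ℕ) : OO A B)) → ∀ x y,
          PP R ⊤ e k 0 x y = PhiK R e k' x y / R.om R.i0 := by
        intro k k' hk x y
        have h1 : k' = fun c => k c / e ((nI (R.b c) : ℕ) : OO A B) := funext hk
        rw [h1]
        exact Brg.PP_zero R ⊤ e k x y
      have e8 : ∀ c, kkp R kk' c = kkp R kk c / e ((nI (R.b c) : ℕ) : OO A B) := by
        intro c
        unfold kkp
        split_ifs
        · rfl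
        · rw [zero_div]
      have e9 : ∀ c, kkm R kk' c = kkm R kk c / e ((nI (R.b c) : ℕ) : OO A B) := by
        intro c
        unfold kkm
        split_ifs
        · rw [zero_div]
        · rfl
      rw [e7 _ _ e8, e7 _ _ e9]
      unfold PR
      have ho : R.om R.i0 ≠ 0 := (R.nl R.i0).om_ne
      push_cast
      field_simp
    unfold comb
    rw [Finset.sum_div]
    refine Finset.sum_congr rfl fun j _ => ?_
    rw [mul_div_assoc]
    congr 1
    beta_reduce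
    rw [e6, e6]
    field_simp
  have e5' : V.valuation ((2 * (f : ℂ) * ∑ b ∈ Finset.range (3 ^ (m + 1)), ζ ^ b *
      comb (aX 3 f) 4 1 (fun b => PP R ⊤ e (kkp R kk) 0 ∞
              ((b / ((3 ^ (m + 1) : ℕ) : ℚ) : ℚ) : OnePoint ℚ) +
            PP R ⊤ e (kkm R kk) 0 (mob (-1) 0 0 1 ∞)
              (mob (-1) 0 0 1 ((b / ((3 ^ (m + 1) : ℕ) : ℚ) : ℚ) : OnePoint ℚ))) b) / u) =
      V.valuation Y := by
    rw [e5, map_mul, map_mul]
    have e8 : V.valuation (2 : ℂ) = 1 := by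
      have := v1 2 (by norm_num)
      exact_mod_cast this
    have e9 : V.valuation (f : ℂ) = 1 := by
      have := v1 f (by
        intro h
        exact hS.fp (by exact_mod_cast h))
      exact_mod_cast this
    rw [e8, e9, one_mul, one_mul]
  rw [e5']
  have h9 : 9 ≤ 3 ^ m := by
    calc 9 = 3 ^ 2 := by norm_num
      _ ≤ 3 ^ m := Nat.pow_le_pow_right (by norm_num) (by omega)
  rcases Nat.le_one_iff_eq_zero_or_eq_one.1 hi with h0 | h0
  · have h1 := hm0 h0
    calc V.valuation (3 : ℂ) ^ (15 * 3 ^ m) =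
        V.valuation (3 : ℂ) ^ (12 * 3 ^ m) * V.valuation (3 : ℂ) ^ (3 * 3 ^ m) := by
          rw [← pow_add]
          congr 1
          ring
      _ ≤ V.valuation Y ^ (12 * 3 ^ m) * V.valuation (3 : ℂ) ^ 12 := by
          refine mul_le_mul' (pow_le_pow_left₀ zero_le h1.le _) (pow_lem v3.le ?_)
          omega
  · have h1 := hm1 h0
    calc V.valuation (3 : ℂ) ^ (15 * 3 ^ m) = (V.valuation (3 : ℂ) ^ 5) ^ (3 * 3 ^ m) := by
          rw [← pow_mul]
          congr 1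
          ring
      _ ≤ (V.valuation Y ^ 4 * V.valuation (ζ - 1) ^ 8) ^ (3 * 3 ^ m) :=
          pow_le_pow_left₀ zero_le h1 _
      _ = V.valuation Y ^ (12 * 3 ^ m) * (V.valuation (ζ - 1) ^ (2 * 3 ^ m)) ^ 12 := by
          rw [mul_pow, ← pow_mul, ← pow_mul, ← pow_mul]
          congr 2 <;> ring
      _ = V.valuation Y ^ (12 * 3 ^ m) * V.valuation (3 : ℂ) ^ 12 := by rw [hz]

end

end Pool.Agent.NSHR


end
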