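import Mathlib
import Pool.Agent.MVF.C034
import Pool.Agent.MVF.C046
import Pool.Agent.MVF.C049
import Pool.Agent.MVF.C063
import Pool.Agent.MVF.C068
import Pool.Agent.MVF.C076
import Pool.Agent.MVF.C078
import Pool.Agent.MVF.C086
import Pool.Agent.MVF.C126

/-! Parts: NS.RN_TR3, NS.RN_PM3, NS.RN_FXL, NS.RN_EQL, NS.RN_TWO, NS.RN_CLO, NS.RN_CHT, NS.RN_GRL, NS.RN_XIL, NS.RN_LGF, NS.RN_TOR, NS.RN_CMI, NS.RN_RED, NS.RN_HPD, NS.RN_ALP, NS.RN_RFIN, NS.RN_ALL, NS.T_TAU, NS.F_XCJ, NS.F_TRV, NS.F_TNC, NS.F_ORB, NS.F_LEG, NS.F_EXO, NS.F_CTX, NS.TR_ALT -/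

namespace Pool.Agent.NSER.CtxRaux
end Pool.Agent.NSER.CtxRaux
namespace Pool.Agent.NSER.FTNC
end Pool.Agent.NSER.FTNC
namespace Pool.Agent.NSER.Trv
end Pool.Agent.NSER.Trv
namespace Pool.Agent.NSER.XCJ
end Pool.Agent.NSER.XCJ
namespace Pool.Agent.NSR.ALPaux
end Pool.Agent.NSR.ALPaux
namespace Pool.Agent.NSR.CHT
end Pool.Agent.NSR.CHT
namespace Pool.Agent.NSR.CLO
end Pool.Agent.NSR.CLO
namespace Pool.Agent.NSR.TR3
end Pool.Agent.NSR.TR3
namespace Pool.Agent.NST.TAU
end Pool.Agent.NST.TAU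

section

/-!
# MUX-NS, block RN, module TR3 (helper37): multiplication by 3 in Legendre form
-/

set_option autoImplicit false

namespace Pool.Agent.NSR

open _root_.MU3 _root_.Pool.Agent.MU3A _root_.Pool.Agent.MU3B _root_.Pool.Agent.RI _root_.Pool.Agent.MUX _root_.Pool.Agent.MUXU
open _root_.Pool.Agent.NS

namespace TR3

lemma xu_congr (L : PeriodPair) (u e : ℂ) {a b : ℂ} (h : a - b ∈ L.lattice) :
    xu L u e a = xu L u e b := by
  have h1 := L.weierstrassP_add_coe b ⟨a - b, h⟩
  have h2 : b + ((⟨a - b, h⟩ : L.lattice) : ℂ) = a := by simp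
  rw [h2] at h1
  unfold xu
  rw [h1]

lemma xu_neg (L : PeriodPair) (u e z : ℂ) : xu L u e (-z) = xu L u e z := by
  unfold xu
  rw [L.weierstrassP_neg]

end TR3

open _root_.Pool.Agent.NSR.TR3 in
theorem tr_TR3 (h1 : Sr_PM3) (h2 : Sr_LGF) : Sr_TR3 := by
  intro L u e lam hleg z hz
  obtain ⟨-, hl0, hl1, -, -, -, hr⟩ := h2 L u e lam hleg
  obtain ⟨hp, hd⟩ := h1 L u e lam hleg
  constructor
  · intro h3
    have h2z : 2 * z ∉ L.lattice := by
      intro h
      apply hz
      have := sub_mem h3 h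
      rwa [show 3 * z - 2 * z = z by ring] at this
    have e1 : xu L u e (2 * z) = xu L u e z := by
      rw [← xu_neg L u e z]
      exact xu_congr L u e (by rwa [show 2 * z - -z = 3 * z by ring])
    have e2 := hd z h2z
    rw [e1] at e2
    linear_combination e2
  · intro h3
    by_cases h2z : 2 * z ∈ L.lattice
    · have e1 : xu L u e (3 * z) = xu L u e z :=
        xu_congr L u e (by rwa [show 3 * z - z = 2 * z by ring])
      rw [e1]
      rcases hr z hz h2z with h | h | h <;> rw [h] <;> ring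
    · have e2 := hd z h2z
      have hx0 : xu L u e z ≠ 0 := by
        intro h
        rw [h] at e2
        have h4 : lam ^ 2 = 0 := by linear_combination -e2
        exact hl0 (pow_eq_zero_iff (by norm_num) |>.1 h4)
      have hd0 : 4 * (xu L u e z * (xu L u e z - 1) * (xu L u e z - lam)) ≠ 0 := by
        intro h
        rw [h, mul_zero] at e2
        have h4 : xu L u e z ^ 2 - lam = 0 := pow_eq_zero_iff (by norm_num) |>.1 e2.symm
        rcases mul_eq_zero.1 h with h | h
        · norm_num at h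
        rcases mul_eq_zero.1 h with h | h
        · rcases mul_eq_zero.1 h with h | h
          · exact hx0 h
          · apply hl1
            have h5 : xu L u e z = 1 := by linear_combination h
            rw [h5] at h4
            linear_combination -h4
        · have h5 : xu L u e z = lam := by linear_combination h
          rw [h5] at h4
          have h6 : lam * (lam - 1) = 0 := by linear_combination h4
          rcases mul_eq_zero.1 h6 with h | h
          · exact hl0 h
          · exact hl1 (by linear_combination h)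
      have e3 := hp (2 * z) z h2z hz (by rwa [show 2 * z + z = 3 * z by ring])
        (by rwa [show 2 * z - z = z by ring])
      rw [show 2 * z + z = 3 * z by ring, show 2 * z - z = z by ring] at e3
      set x := xu L u e z with hx
      set y := xu L u e (2 * z) with hy
      set t := xu L u e (3 * z) with ht
      set d := 4 * (x * (x - 1) * (x - lam)) with hdd
      have e4 : t * x * (y * d - x * d) ^ 2 = (y * d * x - lam * d) ^ 2 := by
        linear_combination d ^ 2 * e3
      rw [e2] at e4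
      have e5 : x * (t * (3 * x ^ 4 - 4 * (1 + lam) * x ^ 3 + 6 * lam * x ^ 2 - lam ^ 2) ^ 2) =
          x * (x * (x ^ 4 - 6 * lam * x ^ 2 + 4 * lam * (1 + lam) * x - 3 * lam ^ 2) ^ 2) := by
        rw [hdd] at e4
        linear_combination e4
      exact mul_left_cancel₀ hx0 e5

end Pool.Agent.NSR


end

section

/-!
# MUX-NS, block RN, module PM3 (helper43): the formula for `X(z+w) X(z-w)`, and duplication
-/

set_option autoImplicit false

open WeierstrassCurve Polynomial

namespace Pool.Agent.NSR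

open _root_.MU3 _root_.Pool.Agent.MU3A _root_.Pool.Agent.MU3B _root_.Pool.Agent.RI _root_.Pool.Agent.MUX _root_.Pool.Agent.MUXU
open _root_.Pool.Agent.MUXV (GR InK tX)
open _root_.Pool.Agent.NS

theorem tr_PM3 (h1 : Sr_CHT) : Sr_PM3 := by
  intro L u e lam hleg
  obtain ⟨hadd, hdup⟩ := h1 L u e lam hleg
  have heq : ∀ z, z ∉ L.lattice → yu L u z ^ 2 =
      xu L u e z * (xu L u e z - 1) * (xu L u e z - lam) := fun z hz => hleg.eq z hz
  constructor
  · intro z w hz hw hzw hzw'
    have hw' : -w ∉ L.lattice := fun h => hw (by simpa using neg_mem h)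
    have hX : xu L u e (-w) = xu L u e w := by
      unfold xu
      rw [L.weierstrassP_neg]
    have hY : yu L u (-w) = -yu L u w := by
      unfold yu
      rw [L.derivWeierstrassP_neg]
      ring
    obtain ⟨hne, h2, -⟩ := hadd z w hz hw hzw hzw'
    obtain ⟨-, h3, -⟩ := hadd z (-w) hz hw' (by rwa [← sub_eq_add_neg]) (by rwa [sub_neg_eq_add])
    rw [hX, hY, ← sub_eq_add_neg] at h3
    have e1 := heq z hz
    have e2 := heq w hw
    rw [h2, h3]
    generalize xu L u e z = a at *
    generalize xu L u e w = b at *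
    generalize yu L u z = y at *
    generalize yu L u w = t at *
    have e3 : (y ^ 2 - t ^ 2) = (a - b) * (a ^ 2 + a * b + b ^ 2 - (1 + lam) * (a + b) + lam) := by
      rw [e1, e2]
      ring
    have e4 : (y - t) / (a - b) * ((y - -t) / (a - b)) * (a - b) =
        a ^ 2 + a * b + b ^ 2 - (1 + lam) * (a + b) + lam := by
      have e5 : (y - t) / (a - b) * ((y - -t) / (a - b)) * (a - b) = (y ^ 2 - t ^ 2) / (a - b) := by
        field_simp
        ring
      rw [e5, e3]
      field_simp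
    have e6 : (((y - t) / (a - b)) * (a - b)) = y - t := by field_simp
    have e7 : (((y - -t) / (a - b)) * (a - b)) = y + t := by
      field_simp
      ring
    generalize (y - t) / (a - b) = m at *
    generalize (y - -t) / (a - b) = n at *
    have e8 : (m * (a - b)) ^ 2 + (n * (a - b)) ^ 2 = 2 * (y ^ 2 + t ^ 2) := by
      rw [e6, e7]
      ring
    rw [e1, e2] at e8
    linear_combination (m * n * (a - b) + (a ^ 2 + a * b + b ^ 2 - (1 + lam) * (a + b) + lam)) * e4 +
      ((1 + lam) - a - b) * e8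
  · intro z hz
    have hz' : z ∉ L.lattice := fun h => hz (by
      rw [two_mul]
      exact add_mem h h)
    obtain ⟨hne, h2, -⟩ := hdup z hz
    have e1 := heq z hz'
    rw [h2, ← e1]
    generalize xu L u e z = a at *
    generalize yu L u z = y at *
    have e2 : ((3 * a ^ 2 - 2 * (1 + lam) * a + lam) / (2 * y)) ^ 2 * (4 * y ^ 2) =
        (3 * a ^ 2 - 2 * (1 + lam) * a + lam) ^ 2 := by
      field_simp
      ring
    generalize (3 * a ^ 2 - 2 * (1 + lam) * a + lam) / (2 * y) = m at *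
    linear_combination e2 + 4 * ((1 + lam) - 2 * a) * e1

end Pool.Agent.NSR


end

section

/-!
# MUX-NS, block RN, module FXL (helper19): an automorphism in the inertia group fixes the `x`-coordinates of the
points of order prime to 3

`tr_FXL : Sr_UNQ → Sr_EQL → Sr_RED → Sr_GRL → Sr_TOR → Sr_FXL`.
-/

set_option autoImplicit false

open WeierstrassCurve Polynomial

namespace Pool.Agent.NSR

open _root_.MU3 _root_.Pool.Agent.MU3A _root_.Pool.Agent.MU3B _root_.Pool.Agent.RI _root_.Pool.Agent.MUX _root_.Pool.Agent.MUXU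
open _root_.Pool.Agent.MUXV (GR InK tX)
open _root_.Pool.Agent.NS

noncomputable section

theorem tr_FXL (h1 : Sr_UNQ) (h2 : Sr_EQL) (h3 : Sr_RED) (h4 : Sr_GRL) (h5 : Sr_TOR) :
    Sr_FXL := by
  intro A B V N hC b L om hL u e lam hLeg hlam F hNF hF σ hσ hσl hin
  have hu := hLeg.u0
  have hσlam : σ lam = lam := by
    refine h1 A B V N hC b L om hL.toIsLI u e lam hLeg hlam σ hσ hσl fun z hz hNz => hin z hz ?_
    obtain ⟨k, rfl⟩ := hNF
    have h6 : ((N * k : ℕ) : ℂ) * z = (k : ℕ) • ((N : ℂ) * z) := by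
      rw [nsmul_eq_mul]; push_cast; ring
    rw [h6]
    exact nsmul_mem hNz k
  obtain ⟨hσu, hσe, hσ2, hσ3, hσk⟩ := h2 L u e lam hLeg hL.nrm σ hσlam
  refine ⟨hσk, fun z hz hFz => ?_⟩
  have hCj : IsCj σ L L := ⟨hσ2.symm, hσ3.symm⟩
  obtain ⟨Φ, hΦ⟩ := u_PHI σ L L hCj
  have hΦz : Φ z ∉ L.lattice := fun h => hz ((hΦ.mem z).1 h)
  have hFΦ : (F : ℂ) * Φ z ∈ L.lattice := by
    have := ((u_TSN σ L L Φ hCj hΦ).1 (F : ℤ) z).2 (by simpa using hFz)
    simpa using this
  have hX : xu L u e (Φ z) = σ (xu L u e z) := by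
    rw [xu, xu, hΦ.P z hz, map_div₀, map_sub, hσu, hσe]
  have hlt : V.valuation (xu L u e z - xu L u e (Φ z)) < 1 := by
    rw [hX, Valuation.map_sub_swap]
    exact (hin z hz hFz).1
  have hred := (h3 A B V N hC b L om hL.toIsLI u e lam hLeg hlam).2.1
  obtain ⟨ξ, G, -⟩ := h4 V L u e lam hC.v2 hred hLeg
  have nK : ∀ w : ℂ, w ∉ L.lattice → (F : ℂ) * w ∈ L.lattice → ¬ InK V L (xu L u e) w := by
    intro w hw hFw h
    rcases h with h | h
    · exact hw h
    · exact h ((ValuationSubring.valuation_le_one_iff _ _).1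
        (h5 V L u e lam hC.v2 hlam hLeg F hF w hw hFw).1)
  have hP : L.weierstrassP (Φ z) = L.weierstrassP z := by
    by_cases hp : InK V L (xu L u e) (z + Φ z)
    · have h6 := Pool.Agent.MUXV.mem_of_nat_mul G hp hF (by rw [mul_add]; exact add_mem hFz hFΦ)
      have h7 : Φ z = -z + ((⟨z + Φ z, h6⟩ : L.lattice) : ℂ) := by
        show Φ z = -z + (z + Φ z)
        ring
      rw [h7, L.weierstrassP_add_coe, L.weierstrassP_neg]
    · by_cases hm : InK V L (xu L u e) (z - Φ z)
      · have h6 := Pool.Agent.MUXV.mem_of_nat_mul G hm hF (by rw [mul_sub]; exact sub_mem hFz hFΦ)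
        have h7 : z = Φ z + ((⟨z - Φ z, h6⟩ : L.lattice) : ℂ) := by
          show z = Φ z + (z - Φ z)
          ring
        have h8 := L.weierstrassP_add_coe (Φ z) ⟨z - Φ z, h6⟩
        rw [← h7] at h8
        exact h8.symm
      · exact absurd (Pool.Agent.MUXV.v_X_sub G (nK z hz hFz) (nK _ hΦz hFΦ) hp hm) hlt.ne
  have h6 := hΦ.P z hz
  rw [hP] at h6
  rw [xn, map_sub, ← h6, map_div₀, map_one, map_ofNat]

end

end Pool.Agent.NSR


end

section

/-!
# MUX-NS, block RN, module EQL: an automorphism which fixes `lam` fixes all invariants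
-/

set_option autoImplicit false

open WeierstrassCurve Polynomial

namespace Pool.Agent.NSR

open _root_.MU3 _root_.Pool.Agent.MU3A _root_.Pool.Agent.MU3B _root_.Pool.Agent.RI _root_.Pool.Agent.MUX _root_.Pool.Agent.MUXU
open _root_.Pool.Agent.MUXV (GR InK tX)
open _root_.Pool.Agent.NS

theorem tr_EQL (h : Sr_LGF) : Sr_EQL := by
  intro L u e lam hL hn σ hσ
  obtain ⟨he, -, -, h2, h3, -, -⟩ := h L u e lam hL
  have hu : u ≠ 0 := hL.u0
  have hP : lam ^ 2 - lam + 1 = -2 * u ^ 2 * ((1 + lam) * (lam - 2) * (2 * lam - 1)) := by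
    have h1 : u ^ 4 * (lam ^ 2 - lam + 1 -
        -2 * u ^ 2 * ((1 + lam) * (lam - 2) * (2 * lam - 1))) = 0 := by
      rw [h2, h3] at hn
      linear_combination (3 / 4) * hn
    exact sub_eq_zero.1 ((mul_eq_zero.1 h1).resolve_left (pow_ne_zero 4 hu))
  have hQ : (1 + lam) * (lam - 2) * (2 * lam - 1) ≠ 0 := by
    intro h0
    rw [h0, mul_zero] at hP
    rcases mul_eq_zero.1 h0 with h0 | h0
    · rcases mul_eq_zero.1 h0 with h0 | h0
      · have h4 : (3 : ℂ) = 0 := by linear_combination hP + (2 - lam) * h0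
        norm_num at h4
      · have h4 : (3 : ℂ) = 0 := by linear_combination hP - (lam + 1) * h0
        norm_num at h4
    · have h4 : (3 : ℂ) = 0 := by linear_combination 4 * hP - (2 * lam - 1) * h0
      norm_num at h4
  have hu2 : u ^ 2 = -(lam ^ 2 - lam + 1) / (2 * ((1 + lam) * (lam - 2) * (2 * lam - 1))) := by
    rw [eq_div_iff (mul_ne_zero two_ne_zero hQ)]
    linear_combination hP
  have hsu : σ (u ^ 2) = u ^ 2 := by
    rw [hu2]
    simp only [map_div₀, map_mul, map_neg, map_add, map_sub, map_pow, map_one, map_ofNat, hσ]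
  have he' : e = -(1 + lam) * u ^ 2 / 3 := by
    rw [eq_div_iff (by norm_num : (3 : ℂ) ≠ 0)]
    linear_combination he
  have hse : σ e = e := by
    rw [he']
    simp only [map_div₀, map_mul, map_neg, map_add, map_one, map_ofNat, hσ, hsu]
  have hs2 : σ L.g₂ = L.g₂ := by
    have h4 : L.g₂ = 4 / 3 * (u ^ 2) ^ 2 * (lam ^ 2 - lam + 1) := by rw [h2]; ring
    rw [h4]
    simp only [map_div₀, map_mul, map_pow _ (u ^ 2), map_add, map_sub, map_pow _ lam, map_one,
      map_ofNat, hσ, hsu]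
  have hs3 : σ L.g₃ = L.g₃ := by
    have h4 : L.g₃ = -(1 / 18) * L.g₂ := by linear_combination (1 / 18) * hn
    rw [h4]
    simp only [map_div₀, map_mul, map_neg, map_one, map_ofNat, hs2]
  refine ⟨hsu, hse, hs2, hs3, ?_⟩
  unfold kap
  simp only [map_div₀, map_mul, map_sub, map_one, map_ofNat, hs2]

end Pool.Agent.NSR


end

section

/-!
# MUX-NS, block RN, module TWO (helper37): translation by the point of order two with `X = 0`
-/

set_option autoImplicit false

namespace Pool.Agent.NSR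

open _root_.MU3 _root_.Pool.Agent.MU3A _root_.Pool.Agent.MU3B _root_.Pool.Agent.RI _root_.Pool.Agent.MUX _root_.Pool.Agent.MUXU
open _root_.Pool.Agent.NS

theorem tr_TWO (h : Sr_LGF) : Sr_TWO := by
  intro L u e lam w hleg hw h2w he z hz hzw
  obtain ⟨h3e, -, -, hg2, -⟩ := h L u e lam hleg
  have hu := hleg.u0
  have h1 := (ta_TW2 b_ADD b_ZER b_NEQ L w hw h2w).2 z hz hzw
  rw [he, hg2] at h1
  have h2 : (L.weierstrassP (z + w) - e) * (L.weierstrassP z - e) = lam * u ^ 4 := by
    rw [h1]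
    have h4 : e = -(1 + lam) * u ^ 2 / 3 := by linear_combination h3e / 3
    rw [h4]
    ring
  unfold xu
  rw [div_mul_div_comm, h2]
  field_simp

end Pool.Agent.NSR


end

section

/-!
# MUX-NS, block RN, module CLO (helper58): torsion points of close curves are close
-/

set_option autoImplicit false

open WeierstrassCurve Polynomial

namespace Pool.Agent.NSR

open _root_.MU3 _root_.Pool.Agent.MU3A _root_.Pool.Agent.MU3B _root_.Pool.Agent.RI _root_.Pool.Agent.MUX _root_.Pool.Agent.MUXU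
open _root_.Pool.Agent.MUXV _root_.Pool.Agent.MU3.Val
open _root_.Pool.Agent.NS

noncomputable section

namespace CLO

section cg

variable {Γ₀ : Type} [LinearOrderedCommGroupWithZero Γ₀] {v : Valuation ℂ Γ₀} {d : Γ₀}

/-- congruence modulo `d` -/
def Cg (v : Valuation ℂ Γ₀) (d : Γ₀) (a b : ℂ) : Prop := v (a - b) ≤ d

theorem Cg.add {a b a' b' : ℂ} (h : Cg v d a b) (h' : Cg v d a' b') :
    Cg v d (a + a') (b + b') := by
  unfold Cg at *
  rw [show a + a' - (b + b') = (a - b) + (a' - b') by ring]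
  exact v_add_le h h'

theorem Cg.sub {a b a' b' : ℂ} (h : Cg v d a b) (h' : Cg v d a' b') :
    Cg v d (a - a') (b - b') := by
  unfold Cg at *
  rw [show a - a' - (b - b') = (a - b) - (a' - b') by ring]
  exact v_sub_le h h'

theorem Cg.neg {a b : ℂ} (h : Cg v d a b) : Cg v d (-a) (-b) := by
  unfold Cg at *
  rw [show -a - -b = -(a - b) by ring, Valuation.map_neg]
  exact h

theorem Cg.mul {a b a' b' : ℂ} (h : Cg v d a b) (h' : Cg v d a' b') (ha' : v a' ≤ 1)
    (hb : v b ≤ 1) : Cg v d (a * a') (b * b') := by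
  unfold Cg at *
  rw [show a * a' - b * b' = a' * (a - b) + b * (a' - b') by ring]
  exact v_add_le (v_mul_le_right ha' h) (v_mul_le_right hb h')

theorem Cg.refl (a : ℂ) : Cg v d a a := by
  unfold Cg
  rw [sub_self, map_zero]
  exact zero_le

theorem Cg.div {a b a' b' : ℂ} (h : Cg v d a b) (h' : Cg v d a' b') (ha' : v a' = 1)
    (hb' : v b' = 1) (hb : v b ≤ 1) : Cg v d (a / a') (b / b') := by
  unfold Cg at *
  have h1 : a' ≠ 0 := by
    rintro rfl
    rw [map_zero] at ha'
    exact zero_ne_one ha'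
  have h2 : b' ≠ 0 := by
    rintro rfl
    rw [map_zero] at hb'
    exact zero_ne_one hb'
  rw [show a / a' - b / b' = (b' * (a - b) - b * (a' - b')) / (a' * b') by field_simp; ring,
    map_div₀, map_mul, ha', hb', one_mul, div_one]
  exact v_sub_le (v_mul_le_right hb'.le h) (v_mul_le_right hb h')

theorem v_div_le {a b : ℂ} (ha : v a ≤ 1) (hb : v b = 1) : v (a / b) ≤ 1 := by
  rw [map_div₀, hb, div_one]
  exact ha

end cg

variable {V : ValuationSubring ℂ} {W : WeierstrassCurve.Affine ℂ} {L : PeriodPair}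
  {X Y : ℂ → ℂ} {ξ : ℂ →+ W.Point}

/-- `Y` is a unit -/
theorem y_unit (G : GR V W L X Y ξ) {z : ℂ} (hz : ¬ InK V L X z) (h2 : ¬ InK V L X (2 * z)) :
    V.valuation (Y z) = 1 := by
  obtain ⟨h3, e3⟩ := G.some z (int_X hz).1
  rw [← inE_iff G] at hz h2
  rw [two_mul, map_add, e3] at h2
  rw [e3] at hz
  exact v_y_unit G.int G.two G.disc h3 hz h2

theorem X_neg (G : GR V W L X Y ξ) {z : ℂ} (hz : z ∉ L.lattice) : X (-z) = X z ∧ Y (-z) = -Y z := by
  obtain ⟨h3, e3⟩ := G.some z hz
  have hz' : -z ∉ L.lattice := fun h => hz (by simpa using neg_mem h)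
  obtain ⟨h4, e4⟩ := G.some (-z) hz'
  rw [map_neg, e3, Affine.Point.neg_some] at e4
  obtain ⟨e5, e6⟩ : X z = X (-z) ∧ W.negY (X z) (Y z) = Y (-z) := by simpa using e4
  refine ⟨e5.symm, ?_⟩
  rw [← e6, Affine.negY, G.int.a1, G.int.a3]
  ring

theorem X_add_mem (G : GR V W L X Y ξ) {z w : ℂ} (hz : z ∉ L.lattice) (hw : w ∈ L.lattice) :
    X (z + w) = X z ∧ Y (z + w) = Y z := by
  have h3 := G.zero w hw
  obtain ⟨h4, e4⟩ := G.some z hz
  have hzw : z + w ∉ L.lattice := fun h5 => hz (by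
    have := sub_mem h5 hw; rwa [add_sub_cancel_right] at this)
  obtain ⟨h5, e5⟩ := G.some (z + w) hzw
  rw [map_add, h3, add_zero, e4] at e5
  obtain ⟨e6, e7⟩ : X z = X (z + w) ∧ Y z = Y (z + w) := by simpa using e5
  exact ⟨e6.symm, e7.symm⟩

end CLO

open _root_.Pool.Agent.NSR.CLO in
theorem tr_CLO (h1 : Sr_GRL) (h2 : Sr_CHT) : Sr_CLO := by
  intro V L L' u e lam u' e' lam' v2 hL hL' h1lam hδ n hodd hn1 vn q q' hq hnq hnq' hx hy
  have h1lam' : V.valuation (1 + lam') < 1 := by
    rw [show 1 + lam' = (1 + lam) + (lam' - lam) by ring]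
    exact lt_of_le_of_lt (V.valuation.map_add _ _) (max_lt h1lam hδ)
  obtain ⟨ξ, G, hsurj⟩ := h1 V L u e lam v2 h1lam hL
  obtain ⟨ξ', G', -⟩ := h1 V L' u' e' lam' v2 h1lam' hL'
  obtain ⟨cadd, cdup⟩ := h2 L u e lam hL
  obtain ⟨cadd', cdup'⟩ := h2 L' u' e' lam' hL'
  set X : ℂ → ℂ := xu L u e with hX
  set Y : ℂ → ℂ := yu L u with hY
  set X' : ℂ → ℂ := xu L' u' e' with hX'
  set Y' : ℂ → ℂ := yu L' u' with hY'
  set d := V.valuation (lam' - lam) with hd
  have hd1 : d ≤ 1 := hδ.le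
  have vm1 : V.valuation (-1) = 1 := by rw [Valuation.map_neg, map_one]
  have vlam : V.valuation lam = 1 := by
    rw [show lam = (1 + lam) + (-1) by ring, Valuation.map_add_eq_of_lt_right, vm1]
    rw [vm1]
    exact h1lam
  have vlam' : V.valuation lam' = 1 := by
    rw [show lam' = (1 + lam') + (-1) by ring, Valuation.map_add_eq_of_lt_right, vm1]
    rw [vm1]
    exact h1lam'
  have hn3 : 2 < n := by
    obtain ⟨m, hm⟩ := hodd
    omega
  -- the multiples of `q`, `q'`
  have hk : ∀ k : ℕ, 0 < k → k < n → ¬ InK V L X (k * q) := by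
    intro k hk0 hkn h
    refine (hq k hk0 hkn).1 (mem_of_nat_mul G h vn ?_)
    rw [show (n : ℂ) * (k * q) = (k : ℕ) • (n * q) by rw [nsmul_eq_mul]; ring]
    exact nsmul_mem hnq k
  have hk' : ∀ k : ℕ, 0 < k → k < n → ¬ InK V L' X' (k * q') := by
    intro k hk0 hkn h
    refine (hq k hk0 hkn).2 (mem_of_nat_mul G' h vn ?_)
    rw [show (n : ℂ) * (k * q') = (k : ℕ) • (n * q') by rw [nsmul_eq_mul]; ring]
    exact nsmul_mem hnq' k
  have kq : ¬ InK V L X q := by simpa using hk 1 one_pos (by omega)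
  have kq' : ¬ InK V L' X' q' := by simpa using hk' 1 one_pos (by omega)
  have k2q : ¬ InK V L X (2 * q) := by simpa using hk 2 (by omega) hn3
  have k2q' : ¬ InK V L' X' (2 * q') := by simpa using hk' 2 (by omega) hn3
  have vY : V.valuation (Y q) = 1 := y_unit G kq k2q
  have vY' : V.valuation (Y' q') = 1 := y_unit G' kq' k2q'
  have vX : V.valuation (X q) ≤ 1 := (int_X kq).2
  have vX' : V.valuation (X' q') ≤ 1 := (int_X kq').2
  -- the nearby point on the first curve
  have heq' : Y' q' ^ 2 = X' q' * (X' q' - 1) * (X' q' - lam') := hL'.eq q' (int_X kq').1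
  obtain ⟨y, hy1, hy2⟩ : ∃ y : ℂ, y ^ 2 = X' q' * (X' q' - 1) * (X' q' - lam) ∧
      V.valuation (y - Y' q') ≤ d := by
    obtain ⟨y, hy0⟩ := IsAlgClosed.exists_pow_nat_eq (X' q' * (X' q' - 1) * (X' q' - lam))
      (n := 2) (by norm_num)
    have vf1 : V.valuation (X' q' - 1) ≤ 1 := v_sub_le vX' (by rw [map_one])
    have vfl : V.valuation (X' q' - lam) ≤ 1 := v_sub_le vX' vlam.le
    have hyV : V.valuation y ≤ 1 := by
      have h3 : V.valuation y ^ 2 ≤ 1 := by
        rw [← map_pow, hy0, map_mul, map_mul]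
        exact mul_le_one' (mul_le_one' vX' vf1) vfl
      by_contra hc
      push Not at hc
      exact absurd h3 (not_le.2 (one_lt_pow₀ hc (by norm_num)))
    have hprod : V.valuation (y - Y' q') * V.valuation (y + Y' q') ≤ d := by
      rw [← map_mul, show (y - Y' q') * (y + Y' q') =
        (X' q' * (X' q' - 1)) * (lam' - lam) by linear_combination hy0 - heq', map_mul, ← hd]
      exact mul_le_of_le_one_left' (by rw [map_mul]; exact mul_le_one' vX' vf1)
    have h2Y : V.valuation (2 * Y' q') = 1 := by rw [map_mul, v2, vY', one_mul]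
    rcases le_or_gt 1 (V.valuation (y + Y' q')) with h | h
    · refine ⟨y, hy0, le_trans ?_ hprod⟩
      exact le_mul_of_one_le_right' h
    · refine ⟨-y, by rw [neg_sq, hy0], ?_⟩
      have h3 : V.valuation (y - Y' q') = 1 := by
        rw [show y - Y' q' = (y + Y' q') + -(2 * Y' q') by ring,
          Valuation.map_add_eq_of_lt_right, Valuation.map_neg, h2Y]
        rw [Valuation.map_neg, h2Y]
        exact h
      rw [h3, one_mul] at hprod
      rw [show -y - Y' q' = -(y + Y' q') by ring, Valuation.map_neg]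
      exact hprod
  have hΔ : (WL lam).Δ ≠ 0 := by
    intro h
    have := G.disc
    rw [h, map_zero] at this
    exact zero_ne_one this
  have hns : (WL lam).Nonsingular (X' q') y := by
    refine (Affine.equation_iff_nonsingular_of_Δ_ne_zero hΔ).1 ?_
    rw [Affine.equation_iff]
    simp only [WL]
    linear_combination hy1
  obtain ⟨z, hz⟩ := hsurj (Affine.Point.some (X' q') y hns)
  have hzL : z ∉ L.lattice := by
    intro h
    rw [G.zero z h] at hz
    exact absurd hz.symm (by simp)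
  obtain ⟨hXz, hYz⟩ : X z = X' q' ∧ Y z = y := by
    obtain ⟨h3, e3⟩ := G.some z hzL
    rw [hz] at e3
    obtain ⟨e4, e5⟩ : X' q' = X z ∧ y = Y z := by simpa using e3
    exact ⟨e4.symm, e5.symm⟩
  have kz : ¬ InK V L X z := by
    unfold InK
    push Not
    refine ⟨hzL, ?_⟩
    rw [← ValuationSubring.valuation_le_one_iff, hXz]
    exact vX'
  have vYz : V.valuation (Y z) ≤ 1 := by
    rw [hYz, show y = (y - Y' q') + Y' q' by ring]
    exact v_add_le (hy2.trans hd1) vY'.le
  -- `z - q` is in the kernel of reduction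
  have hx2 : V.valuation (X z - X q) < 1 := by rw [hXz]; exact hx
  have hy3 : V.valuation (Y z - Y q) < 1 := by
    rw [hYz, show y - Y q = (y - Y' q') + (Y' q' - Y q) by ring]
    exact lt_of_le_of_lt (V.valuation.map_add _ _) (max_lt (lt_of_le_of_lt hy2 hδ) hy)
  have ks : InK V L X (z - q) := by
    by_contra hc
    by_cases hp : InK V L X (z + q)
    · have hnq2 : ¬ InK V L X (-q) := fun h => kq (by simpa using inK_neg G h)
      have h3 := (near_lt G hnq2 hp).2
      rw [show -q + (z + q) = z by ring, (X_neg G (int_X kq).1).2] at h3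
      have h4 : V.valuation (2 * Y q) < 1 := by
        rw [show 2 * Y q = (Y z - -Y q) - (Y z - Y q) by ring]
        exact lt_of_le_of_lt (V.valuation.map_sub _ _) (max_lt h3 hy3)
      rw [map_mul, v2, vY, one_mul] at h4
      exact lt_irrefl _ h4
    · have h3 := v_X_sub G kz kq hp hc
      rw [h3] at hx2
      exact lt_irrefl _ hx2
  set s := z - q with hs
  have hzs : z = q + s := by rw [hs]; ring
  have hkz : ∀ k : ℕ, 0 < k → k < n → ¬ InK V L X (k * z) := by
    intro k hk0 hkn h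
    refine hk k hk0 hkn ?_
    rw [← inK_congr G (z := k * z) (w := k * q)]
    · exact h
    · rw [← mul_sub, ← hs]
      exact inK_nat G ks k
  -- the chain
  have key : ∀ k : ℕ, 0 < k → k < n →
      Cg V.valuation d (X (k * z)) (X' (k * q')) ∧ Cg V.valuation d (Y (k * z)) (Y' (k * q')) := by
    have c1 : Cg V.valuation d (X z) (X' q') := by rw [hXz]; exact Cg.refl _
    have c1y : Cg V.valuation d (Y z) (Y' q') := by rw [hYz]; exact hy2
    have cl : Cg V.valuation d (1 + lam) (1 + lam') := by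
      unfold Cg
      rw [show 1 + lam - (1 + lam') = -(lam' - lam) by ring, Valuation.map_neg]
    have cl0 : Cg V.valuation d lam lam' := by
      unfold Cg
      rw [show lam - lam' = -(lam' - lam) by ring, Valuation.map_neg]
    have v1l : V.valuation (1 + lam) ≤ 1 := h1lam.le
    have v1l' : V.valuation (1 + lam') ≤ 1 := h1lam'.le
    have vYz1 : V.valuation (Y z) = 1 := y_unit G kz (by simpa using hkz 2 (by omega) hn3)
    intro k
    induction k with
    | zero => intro h; exact absurd h (lt_irrefl 0)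
    | succ k ih =>
      intro _ hkn
      rcases Nat.eq_zero_or_pos k with rfl | hk0
      · simp only [zero_add, Nat.cast_one, one_mul]
        exact ⟨c1, c1y⟩
      obtain ⟨ih1, ih2⟩ := ih hk0 (by omega)
      rcases Nat.eq_or_lt_of_le (Nat.succ_le_of_lt hk0) with hk1 | hk1
      · -- duplication
        have hk1' : k = 1 := hk1.symm
        subst hk1'
        have e2 : (((1 + 1 : ℕ) : ℕ) : ℂ) = 2 := by norm_num
        rw [e2]
        have n2z : 2 * z ∉ L.lattice := (int_X (by simpa using hkz 2 (by omega) hn3)).1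
        have n2q' : 2 * q' ∉ L'.lattice := (int_X k2q').1
        obtain ⟨-, f1, f2⟩ := cdup z n2z
        obtain ⟨-, f1', f2'⟩ := cdup' q' n2q'
        have vn1 : V.valuation (3 * X z ^ 2 - 2 * (1 + lam) * X z + lam) ≤ 1 := by
          refine v_add_le (v_sub_le ?_ ?_) vlam.le
          · exact v_mul_le_right (v_three _) (by
              rw [map_pow]; exact pow_le_one' (int_X kz).2 2)
          · rw [mul_assoc]
            exact v_mul_le_right (v_two _) (v_mul_le_right v1l (int_X kz).2)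
        have vn1' : V.valuation (3 * X' q' ^ 2 - 2 * (1 + lam') * X' q' + lam') ≤ 1 := by
          refine v_add_le (v_sub_le ?_ ?_) vlam'.le
          · exact v_mul_le_right (v_three _) (by
              rw [map_pow]; exact pow_le_one' vX' 2)
          · rw [mul_assoc]
            exact v_mul_le_right (v_two _) (v_mul_le_right v1l' vX')
        have cn : Cg V.valuation d (3 * X z ^ 2 - 2 * (1 + lam) * X z + lam)
            (3 * X' q' ^ 2 - 2 * (1 + lam') * X' q' + lam') := by
          refine Cg.add (Cg.sub ?_ ?_) cl0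
          · rw [pow_two, pow_two]
            refine Cg.mul (Cg.refl _) (Cg.mul c1 c1 (int_X kz).2 vX') ?_ (v_three _)
            rw [map_mul]
            exact mul_le_one' (int_X kz).2 (int_X kz).2
          · refine Cg.mul (Cg.mul (Cg.refl _) cl v1l (v_two _)) c1 (int_X kz).2 ?_
            exact v_mul_le_right (v_two _) v1l'
        have vd : V.valuation (2 * Y z) = 1 := by rw [map_mul, v2, vYz1, one_mul]
        have vd' : V.valuation (2 * Y' q') = 1 := by rw [map_mul, v2, vY', one_mul]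
        have cd : Cg V.valuation d (2 * Y z) (2 * Y' q') :=
          Cg.mul (Cg.refl _) c1y vYz (v_two _)
        have cm := Cg.div cn cd vd vd' vn1'
        have vm := v_div_le vn1 vd
        have vm' := v_div_le vn1' vd'
        set m := (3 * X z ^ 2 - 2 * (1 + lam) * X z + lam) / (2 * Y z) with hm
        set m' := (3 * X' q' ^ 2 - 2 * (1 + lam') * X' q' + lam') / (2 * Y' q') with hm'
        have cX : Cg V.valuation d (X (2 * z)) (X' (2 * q')) := by
          rw [f1, f1', pow_two, pow_two]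
          exact Cg.sub (Cg.add (Cg.mul cm cm vm vm') cl)
            (Cg.mul (Cg.refl _) c1 (int_X kz).2 (v_two _))
        refine ⟨cX, ?_⟩
        rw [f2, f2']
        refine Cg.neg (Cg.add c1y (Cg.mul cm (Cg.sub cX c1) ?_ vm'))
        exact v_sub_le (int_X (by simpa using hkz 2 (by omega) hn3)).2 (int_X kz).2
      · -- addition
        have hk2 : 2 ≤ k := hk1
        have nz : z ∉ L.lattice := hzL
        have kkz := hkz k hk0 (by omega)
        have kkq := hk' k hk0 (by omega)
        have e1 : ((k + 1 : ℕ) : ℂ) * z = k * z + z := by push_cast; ring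
        have e1' : ((k + 1 : ℕ) : ℂ) * q' = k * q' + q' := by push_cast; ring
        have e2 : k * z - z = ((k - 1 : ℕ) : ℂ) * z := by
          rw [Nat.cast_sub (by omega)]; push_cast; ring
        have e2' : k * q' - q' = ((k - 1 : ℕ) : ℂ) * q' := by
          rw [Nat.cast_sub (by omega)]; push_cast; ring
        have kp := hkz (k + 1) (by omega) hkn
        have km := hkz (k - 1) (by omega) (by omega)
        have kp' := hk' (k + 1) (by omega) hkn
        have km' := hk' (k - 1) (by omega) (by omega)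
        rw [e1] at kp ⊢
        rw [e1'] at kp' ⊢
        rw [← e2] at km
        rw [← e2'] at km'
        obtain ⟨-, f1, f2⟩ := cadd (k * z) z (int_X kkz).1 nz (int_X kp).1 (int_X km).1
        obtain ⟨-, f1', f2'⟩ := cadd' (k * q') q' (int_X kkq).1 (int_X kq').1 (int_X kp').1
          (int_X km').1
        have vd := v_X_sub G kkz kz kp km
        have vd' := v_X_sub G' kkq kq' kp' km'
        have cd : Cg V.valuation d (X (k * z) - X z) (X' (k * q') - X' q') := Cg.sub ih1 c1
        have cn : Cg V.valuation d (Y (k * z) - Y z) (Y' (k * q') - Y' q') := Cg.sub ih2 c1y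
        have vn1 : V.valuation (Y (k * z) - Y z) ≤ 1 := v_sub_le (int_Y G kkz) vYz
        have vn1' : V.valuation (Y' (k * q') - Y' q') ≤ 1 := v_sub_le (int_Y G' kkq) vY'.le
        have cm := Cg.div cn cd vd vd' vn1'
        have vm := v_div_le vn1 vd
        have vm' := v_div_le vn1' vd'
        set m := (Y (k * z) - Y z) / (X (k * z) - X z) with hm
        set m' := (Y' (k * q') - Y' q') / (X' (k * q') - X' q') with hm'
        have cX : Cg V.valuation d (X (k * z + z)) (X' (k * q' + q')) := by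
          rw [f1, f1', pow_two, pow_two]
          exact Cg.sub (Cg.sub (Cg.add (Cg.mul cm cm vm vm') cl) ih1) c1
        refine ⟨cX, ?_⟩
        rw [f2, f2']
        exact Cg.neg (Cg.add ih2 (Cg.mul cm (Cg.sub cX ih1)
          (v_sub_le (int_X kp).2 (int_X kkz).2) vm'))
  -- the end
  obtain ⟨kX, -⟩ := key (n - 1) (by omega) (by omega)
  have e3 : ((n - 1 : ℕ) : ℂ) * q' = -q' + n * q' := by
    rw [Nat.cast_sub (by omega)]; push_cast; ring
  have e4 : ((n - 1 : ℕ) : ℂ) * z = (-z + n * s) + n * q := by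
    rw [Nat.cast_sub (by omega), hzs]; push_cast; ring
  have nq' : -q' ∉ L'.lattice := fun h => (int_X kq').1 (by simpa using neg_mem h)
  rw [e3, (X_add_mem G' nq' hnq').1, (X_neg G' (int_X kq').1).1, ← hXz] at kX
  have knz : ¬ InK V L X (-z) := fun h => kz (by simpa using inK_neg G h)
  have kns : InK V L X (n * s) := inK_nat G ks n
  have knzs : ¬ InK V L X (-z + n * s) := fun h => knz (by
    have := inK_sub G h kns
    rwa [add_sub_cancel_right] at this)
  rw [e4, (X_add_mem G (int_X knzs).1 hnq).1, ← (X_neg G hzL).1] at kX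
  by_cases hsL : s ∈ L.lattice
  · have : X z = X q := by
      rw [hzs]
      exact (X_add_mem G (int_X kq).1 hsL).1
    rw [← hXz, this, sub_self, map_zero]
    exact zero_le
  · have hnsL : n * s ∉ L.lattice := fun h => hsL (mem_of_nat_mul G ks vn h)
    have hr := v_tX_nat G ks vn hsL hnsL
    obtain ⟨r1, r0, -⟩ := v_tX_lt G ks hsL
    obtain ⟨-, i1, -, -⟩ := near G knz kns hnsL
    obtain ⟨-, -, i2, -⟩ := near G kq ks hsL
    rw [hr] at i1
    set r := V.valuation (tX X Y s) with hrdef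
    have vYnz : V.valuation (Y (-z)) = 1 := by
      rw [(X_neg G hzL).2, Valuation.map_neg]
      exact y_unit G kz (by simpa using hkz 2 (by omega) hn3)
    have h5 : V.valuation (2 * Y (-z) * tX X Y (n * s)) = r := by
      rw [map_mul, map_mul, v2, vYnz, one_mul, one_mul, hr]
    have hr2 : r ^ 2 < r := by
      rw [pow_two]
      exact mul_lt_of_lt_one_right (zero_lt_iff.2 r0) r1
    have h6 : V.valuation (X (-z + n * s) - X (-z)) = r := by
      rw [show X (-z + n * s) - X (-z) = (X (-z + n * s) - X (-z) - 2 * Y (-z) * tX X Y (n * s)) +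
        2 * Y (-z) * tX X Y (n * s) by ring, Valuation.map_add_eq_of_lt_right, h5]
      rw [h5]
      exact lt_of_le_of_lt i1 hr2
    unfold Cg at kX
    rw [h6] at kX
    rw [← hXz]
    rw [← hzs] at i2
    exact i2.trans kX

end

end Pool.Agent.NSR


end

section

/-!
# NSR, module CHT: addition formulas in Legendre form (helper80)

`℘ = u² X + e`, `℘' = 2 u³ Y`; the slope of the chord (tangent) in Legendre form is the slope of
`b_ADD` (`b_DUP`) divided by `u`.
-/

set_option autoImplicit false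

namespace Pool.Agent.NSR

open _root_.MU3 _root_.Pool.Agent.MU3A _root_.Pool.Agent.MU3B _root_.Pool.Agent.RI _root_.Pool.Agent.MUX _root_.Pool.Agent.MUXU
open _root_.Pool.Agent.MUXV (GR InK tX)
open _root_.Pool.Agent.NS

noncomputable section

namespace CHT

/-- the algebra: from the Weierstrass form (slope `M`) to the Legendre form (slope `m = M / u`) -/
lemma alg_x {u e lam P Q S M m : ℂ} (hu : u ≠ 0) (he : 3 * e = -(1 + lam) * u ^ 2)
    (hS : S + P + Q = M ^ 2) (hm : m = M / u) :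
    (S - e) / u ^ 2 = m ^ 2 + (1 + lam) - (P - e) / u ^ 2 - (Q - e) / u ^ 2 := by
  have hS' : S = M ^ 2 - P - Q := by linear_combination hS
  rw [hm, hS']
  field_simp
  linear_combination -he

lemma alg_y {u e P S P' S' M m : ℂ} (hu : u ≠ 0) (hS : S' + P' = -2 * M * (S - P))
    (hm : m = M / u) :
    S' / (2 * u ^ 3) = -(P' / (2 * u ^ 3) + m * ((S - e) / u ^ 2 - (P - e) / u ^ 2)) := by
  have hS' : S' = -2 * M * (S - P) - P' := by linear_combination hS
  rw [hm, hS']
  field_simp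
  ring

end CHT

open _root_.Pool.Agent.NSR.CHT in
theorem tr_CHT (hLGF : Sr_LGF) : Sr_CHT := by
  intro L u e lam hL
  obtain ⟨he, -, -, hg2, -, -, -⟩ := hLGF L u e lam hL
  have hu : u ≠ 0 := hL.u0
  refine ⟨fun z w hz hw hzw hzmw => ?_, fun z h2z => ?_⟩
  · obtain ⟨h1, h2⟩ := b_ADD L w z hw hz hzw hzmw
    have hne : L.weierstrassP z - L.weierstrassP w ≠ 0 := by
      intro h0
      rcases b_NEQ L w z hw hz (sub_eq_zero.1 h0) with h | h
      · exact hzmw h
      · exact hzw h
    have hXX : xu L u e z - xu L u e w = (L.weierstrassP z - L.weierstrassP w) / u ^ 2 := by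
      unfold xu
      ring
    have hm : (yu L u z - yu L u w) / (xu L u e z - xu L u e w) =
        (L.derivWeierstrassP z - L.derivWeierstrassP w) /
          (2 * (L.weierstrassP z - L.weierstrassP w)) / u := by
      rw [hXX]
      unfold yu
      field_simp
    refine ⟨?_, ?_, ?_⟩
    · rw [hXX]
      exact div_ne_zero hne (pow_ne_zero 2 hu)
    · exact alg_x hu he h1 hm
    · exact alg_y (e := e) hu h2 hm
  · obtain ⟨h1, h2⟩ := b_DUP L z h2z
    have hz : z ∉ L.lattice := by
      intro h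
      apply h2z
      rw [two_mul]
      exact add_mem h h
    have hne : L.derivWeierstrassP z ≠ 0 := fun h0 => h2z ((b_ZER L z hz).1 h0)
    have hy : yu L u z ≠ 0 := by
      unfold yu
      exact div_ne_zero hne (mul_ne_zero two_ne_zero (pow_ne_zero 3 hu))
    have hT : (3 * xu L u e z ^ 2 - 2 * (1 + lam) * xu L u e z + lam) * u ^ 4 =
        (6 * L.weierstrassP z ^ 2 - L.g₂ / 2) / 2 := by
      have hx : xu L u e z * u ^ 2 = L.weierstrassP z - e := by
        unfold xu
        field_simp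
      rw [hg2]
      have e1 : (3 * xu L u e z ^ 2 - 2 * (1 + lam) * xu L u e z + lam) * u ^ 4 =
          3 * (xu L u e z * u ^ 2) ^ 2 - 2 * ((1 + lam) * u ^ 2) * (xu L u e z * u ^ 2) +
            lam * u ^ 4 := by ring
      have e2 : (1 + lam) * u ^ 2 = -3 * e := by linear_combination he
      have e3 : e = -(1 + lam) * u ^ 2 / 3 := by linear_combination he / 3
      rw [e1, hx, e2]
      rw [e3]
      ring
    have hm : (3 * xu L u e z ^ 2 - 2 * (1 + lam) * xu L u e z + lam) / (2 * yu L u z) =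
        (6 * L.weierstrassP z ^ 2 - L.g₂ / 2) / (2 * L.derivWeierstrassP z) / u := by
      have h3 : 3 * xu L u e z ^ 2 - 2 * (1 + lam) * xu L u e z + lam =
          (6 * L.weierstrassP z ^ 2 - L.g₂ / 2) / 2 / u ^ 4 := by
        rw [← hT]
        field_simp
      rw [h3]
      unfold yu
      field_simp
    refine ⟨hy, ?_, ?_⟩
    · have h1' : L.weierstrassP (2 * z) + L.weierstrassP z + L.weierstrassP z =
          ((6 * L.weierstrassP z ^ 2 - L.g₂ / 2) / (2 * L.derivWeierstrassP z)) ^ 2 := by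
        rw [← h1]
        ring
      have h4 := alg_x hu he h1' hm
      unfold xu at h4 ⊢
      rw [h4]
      ring
    · exact alg_y (e := e) hu h2 hm

end

end Pool.Agent.NSR


end

section

/-!
# MUX-NS, block RN: good reduction of the Legendre form (helper73)
-/

set_option autoImplicit false

open WeierstrassCurve Polynomial

namespace Pool.Agent.NSR

open _root_.MU3 _root_.Pool.Agent.MU3A _root_.Pool.Agent.MU3B _root_.Pool.Agent.RI _root_.Pool.Agent.MUX _root_.Pool.Agent.MUXU
open _root_.Pool.Agent.MUXV (GR InK tX)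
open _root_.Pool.Agent.NS

noncomputable section

/-- the discriminant of the Legendre curve -/
theorem GRL_disc (lam : ℂ) : (WL lam).Δ = 2 ^ 4 * (lam ^ 2 * (lam - 1) ^ 2) := by
  simp only [WeierstrassCurve.Δ, WeierstrassCurve.b₂, WeierstrassCurve.b₄, WeierstrassCurve.b₆,
    WeierstrassCurve.b₈, WL]
  ring

theorem GRL_units (V : ValuationSubring ℂ) (lam : ℂ) (h2 : V.valuation (2 : ℂ) = 1)
    (h1 : V.valuation (1 + lam) < 1) : V.valuation lam = 1 ∧ V.valuation (lam - 1) = 1 := by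
  constructor
  · have e : lam = (1 + lam) - 1 := by ring
    rw [e, Valuation.map_sub_eq_of_lt_right, map_one]
    rwa [map_one]
  · have e : lam - 1 = (1 + lam) - 2 := by ring
    rw [e, Valuation.map_sub_eq_of_lt_right, h2]
    rwa [h2]

theorem tr_GRL (h : Sr_XIL) : Sr_GRL := by
  intro V L u e lam h2 h1 hL
  obtain ⟨ξ, hk, hs, hp⟩ := h L u e lam hL
  obtain ⟨hl, hl1⟩ := GRL_units V lam h2 h1
  refine ⟨ξ, ⟨⟨rfl, rfl, ?_, ?_, ?_⟩, h2, ?_, hp, fun z hz => (hk z).2 hz⟩, hs⟩
  · show V.valuation (-(1 + lam)) ≤ 1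
    rw [Valuation.map_neg]
    exact h1.le
  · show V.valuation lam ≤ 1
    exact hl.le
  · show V.valuation (0 : ℂ) ≤ 1
    rw [map_zero]
    exact zero_le_one
  · rw [GRL_disc, map_mul, map_mul, map_pow, map_pow, map_pow, h2, hl, hl1]
    simp

end

end Pool.Agent.NSR


end

section

/-!
# MUX-NS, block RN, module XIL (helper44): the group isomorphism in Legendre form
-/

set_option autoImplicit false

open WeierstrassCurve Polynomial

namespace Pool.Agent.NSR

open _root_.MU3 _root_.Pool.Agent.MU3A _root_.Pool.Agent.MU3B _root_.Pool.Agent.RI _root_.Pool.Agent.MUX _root_.Pool.Agent.MUXU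
open _root_.Pool.Agent.MUXV (GR InK tX)
open _root_.Pool.Agent.NS

noncomputable section

theorem tr_XIL (h : Sr_LGF) : Sr_XIL := by
  intro L u e lam hL
  obtain ⟨h1, -, -, h2, h3, -, -⟩ := h L u e lam hL
  have hu := hL.u0
  obtain ⟨L₁, hL₁⟩ := tu_SCX L u hu
  obtain ⟨k1, k2, k3, k4⟩ := ta_SCP L L₁ u hu hL₁
  have hc : 3 * (e / u ^ 2) = -(1 + lam) := by
    rw [← mul_div_assoc, h1]
    field_simp
  have hce : e / u ^ 2 = -(1 + lam) / 3 := by linear_combination hc / 3
  have hg2 : L₁.g₂ = 4 / 3 * (lam ^ 2 - lam + 1) := by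
    rw [k3, h2]
    field_simp
  have hg3 : L₁.g₃ = 4 / 27 * ((1 + lam) * (lam - 2) * (2 * lam - 1)) := by
    rw [k4, h3]
    field_simp
  have hW : Pool.Agent.MUXV.WS L₁ (e / u ^ 2) = WL lam := by
    unfold Pool.Agent.MUXV.WS WL
    rw [hg2, hg3, hce]
    congr 1
    · ring
    · ring
    · ring
  have hX := Pool.Agent.MUXV.tx_XIC L₁ (e / u ^ 2)
  rw [hW] at hX
  obtain ⟨ξ₁, m0, m1, m2⟩ := hX
  refine ⟨ξ₁.comp (AddMonoidHom.mulLeft u), fun z => ?_, fun p => ?_, fun z hz => ?_⟩
  · show ξ₁ (u * z) = 0 ↔ z ∈ L.lattice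
    rw [m0, hL₁]
  · obtain ⟨z, hz⟩ := m1 p
    refine ⟨z / u, ?_⟩
    show ξ₁ (u * (z / u)) = p
    rw [mul_div_cancel₀ _ hu, hz]
  · have h4 : u * z ∉ L₁.lattice := fun h5 => hz ((hL₁ z).2 h5)
    have h6 := m2 (u * z) h4
    have e1 : L₁.weierstrassP (u * z) - e / u ^ 2 = xu L u e z := by
      rw [k1]
      unfold xu
      ring
    have e2 : L₁.derivWeierstrassP (u * z) / 2 = yu L u z := by
      rw [k2]
      unfold yu
      rw [div_div, mul_comm (u ^ 3) 2]
    rw [e1, e2] at h6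
    exact h6

end

end Pool.Agent.NSR


end

section

/-!
# MUX-NS, block RN, module LGF (helper19): facts on the Legendre form

`tr_LGF : Sr_LGF`.
-/

set_option autoImplicit false

open WeierstrassCurve Polynomial

namespace Pool.Agent.NSR

open _root_.MU3 _root_.Pool.Agent.MU3A _root_.Pool.Agent.MU3B _root_.Pool.Agent.RI _root_.Pool.Agent.MUX _root_.Pool.Agent.MUXU
open _root_.Pool.Agent.MUXV (GR InK tX)
open _root_.Pool.Agent.NS

noncomputable section

theorem tr_LGF : Sr_LGF := by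
  intro L u e lam h
  have hu := h.u0
  have key : ∀ x : ℂ, 4 * x ^ 3 - L.g₂ * x - L.g₃ =
      4 * ((x - e) * (x - e - u ^ 2) * (x - e - lam * u ^ 2)) := by
    intro x
    obtain ⟨z, hz, rfl⟩ := b_SUR L x
    rw [← L.derivWeierstrassP_sq z hz]
    have h1 := h.eq z hz
    set P := L.weierstrassP z
    set D := L.derivWeierstrassP z
    have h2 : D ^ 2 = 4 * u ^ 6 * (D / (2 * u ^ 3)) ^ 2 := by
      field_simp
      ring
    rw [h2, h1]
    field_simp
  have k0 := key 0
  have k1 := key 1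
  have k2 := key (-1)
  have hs : 3 * e = -(1 + lam) * u ^ 2 := by
    linear_combination (-1 / 4) * k0 + (1 / 8) * k1 + (1 / 8) * k2
  have he : e = -(1 + lam) * u ^ 2 / 3 := by
    rw [eq_div_iff (by norm_num)]
    linear_combination hs
  have hg2 : L.g₂ = 4 / 3 * u ^ 4 * (lam ^ 2 - lam + 1) := by
    have h3 : L.g₂ = -4 * (e * (e + u ^ 2) + e * (e + lam * u ^ 2) +
        (e + u ^ 2) * (e + lam * u ^ 2)) := by
      linear_combination (-1 / 2) * k1 + (1 / 2) * k2
    rw [h3, he]
    ring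
  have hg3 : L.g₃ = 4 / 27 * u ^ 6 * ((1 + lam) * (lam - 2) * (2 * lam - 1)) := by
    have h3 : L.g₃ = 4 * (e * (e + u ^ 2) * (e + lam * u ^ 2)) := by
      linear_combination (-1) * k0
    rw [h3, he]
    ring
  have hD := (b_DSC L).1
  refine ⟨hs, ?_, ?_, hg2, hg3, ?_, ?_⟩
  · rintro rfl
    apply hD
    rw [hg2, hg3]
    ring
  · rintro rfl
    apply hD
    rw [hg2, hg3]
    ring
  · obtain ⟨w, hw, hwe, hw'⟩ := (b_DSC L).2 e 0 (by rw [key e]; ring)
    exact ⟨w, hw, (b_ZER L w hw).1 hw', hwe⟩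
  · intro w hw h2w
    have h1 := h.eq w hw
    rw [(b_ZER L w hw).2 h2w, zero_div, zero_pow two_ne_zero] at h1
    rcases mul_eq_zero.1 h1.symm with h3 | h3
    · rcases mul_eq_zero.1 h3 with h4 | h4
      · exact Or.inl h4
      · exact Or.inr (Or.inl (sub_eq_zero.1 h4))
    · exact Or.inr (Or.inr (sub_eq_zero.1 h3))

end

end Pool.Agent.NSR


end

section

/-!
# MUX-NS, block RN, module TOR: points of order prime to 3 have integral coordinates (helper64)
-/

set_option autoImplicit false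

open WeierstrassCurve Polynomial

namespace Pool.Agent.NSR

open _root_.MU3 _root_.Pool.Agent.MU3A _root_.Pool.Agent.MU3B _root_.Pool.Agent.RI _root_.Pool.Agent.MUX _root_.Pool.Agent.MUXU
open _root_.Pool.Agent.MUXV (GR InK tX)
open _root_.Pool.Agent.NS

noncomputable section

/-- Points of order prime to 3 have integral coordinates. -/
theorem tr_TOR (h : Sr_XIL) : Sr_TOR := by
  intro V L u e lam h2 hlam hLeg n hn z hz hnz
  obtain ⟨ξ, hker, -, hsome⟩ := h L u e lam hLeg
  have hint : Pool.Agent.MU3.Val.IntW V.valuation (WL lam) := by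
    have h1 : V.valuation (-(1 + lam)) ≤ 1 := by
      rw [Valuation.map_neg]
      exact V.valuation.map_add_le (by rw [map_one]) hlam
    exact ⟨rfl, rfl, h1, hlam, by show V.valuation (0 : ℂ) ≤ 1; rw [map_zero]; exact zero_le_one⟩
  obtain ⟨hns, e1⟩ := hsome z hz
  have hX : V.valuation (xu L u e z) ≤ 1 := by
    by_contra hcon
    rw [not_le] at hcon
    have hE : Pool.Agent.MU3.Val.InE V.valuation (ξ z) := by rw [e1]; exact hcon
    have h0 := Pool.Agent.MU3.Val.eq_zero_of_nsmul hint (Pool.Agent.MU3.Val.two_ne h2) hE hn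
      (by rw [← map_nsmul, nsmul_eq_mul]; exact (hker _).2 hnz)
    exact hz ((hker z).1 h0)
  exact ⟨hX, Pool.Agent.MU3.Val.int_y hint hns hX⟩

end

end Pool.Agent.NSR


end

section

/-!
# MUX-NS, block RN: complex multiplication by `1 + 2 w` at a point of order two (CMI)
-/

set_option autoImplicit false

open WeierstrassCurve Polynomial

namespace Pool.Agent.NSR

open _root_.MU3 _root_.Pool.Agent.MU3A _root_.Pool.Agent.MU3B _root_.Pool.Agent.RI _root_.Pool.Agent.MUX _root_.Pool.Agent.MUXU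
open _root_.Pool.Agent.MUXV (GR InK tX)
open _root_.Pool.Agent.NS

theorem tr_CMI (h : Sr_LGF) : Sr_CMI := by
  intro A B b L om hcq hL u e lam w hleg hw hw2 hwe R hR
  obtain ⟨h3e, -, -, -, -, -, -⟩ := h L u e lam hleg
  have hu0 : u ≠ 0 := hleg.u0
  have hCM := hL.hasCM hcq
  have hα : ∀ z ∈ L.lattice, al A B * z ∈ L.lattice := fun z hz => hCM (alO A B) z hz
  have hal : al A B = 1 + 2 * emb (⟨0, 1⟩ : OO A B) := by
    simp [al, alO, emb]
  have ha0 : al A B ≠ 0 := by
    refine MUX.emb_ne_zero hcq ?_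
    intro h0
    have := congrArg QuadraticAlgebra.re h0
    simp [alO] at this
  have hdiff : al A B * w - w ∈ L.lattice := by
    have h1 : al A B * w - w = emb (⟨0, 1⟩ : OO A B) * (2 * w) := by
      rw [hal]; ring
    rw [h1]
    exact hCM _ _ hw2
  have haw : al A B * w ∉ L.lattice := by
    intro h1
    have h2 := L.lattice.sub_mem h1 hdiff
    rw [sub_sub_cancel] at h2
    exact hw h2
  have hper : L.weierstrassP (al A B * w) = L.weierstrassP w := by
    have h1 := L.weierstrassP_add_coe w ⟨_, hdiff⟩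
    rw [← h1]
    congr 1
    show al A B * w = w + (al A B * w - w)
    ring
  have key := b_CMX L (al A B) R ha0 hα hR w haw
  rw [hper, hwe] at key
  have hsum : ∑ q ∈ R, (xu L u e (w + q) - xu L u e q) =
      (∑ q ∈ R, (L.weierstrassP (w + q) - L.weierstrassP q)) / u ^ 2 := by
    rw [Finset.sum_div]
    refine Finset.sum_congr rfl (fun q _ => ?_)
    unfold xu
    ring
  have hs : ∑ q ∈ R, (L.weierstrassP (w + q) - L.weierstrassP q) = al A B ^ 2 * e - e := by
    rw [key]; ring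
  rw [hsum, hs]
  field_simp
  linear_combination (1 - al A B ^ 2) * h3e

end Pool.Agent.NSR


end

section

/-!
# NSR, module RED: supersingular reduction
-/

set_option autoImplicit false

open WeierstrassCurve Polynomial

namespace Pool.Agent.NSR

open _root_.MU3 _root_.Pool.Agent.MU3A _root_.Pool.Agent.MU3B _root_.Pool.Agent.RI _root_.Pool.Agent.MUX _root_.Pool.Agent.MUXU
open _root_.Pool.Agent.MUXV (GR InK tX)
open _root_.Pool.Agent.NS

noncomputable section

namespace RED

theorem al_ne {A B : ℤ} {V : ValuationSubring ℂ} {N : ℕ} (h : CtxA A B V N) : al A B ≠ 0 := by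
  intro h0
  have h1 := h.nrm
  rw [h0, mul_zero] at h1
  have h2 := h.one
  have h3 : N = 0 := by exact_mod_cast h1
  omega

end RED

theorem tr_RED (h1 : Sr_CMI) (h2 : Sr_TOR) (h3 : Sr_LGF) : Sr_RED := by
  intro A B V N hC b L om hL u e lam hleg hlam
  obtain ⟨-, -, -, -, -, ⟨w, hw, h2w, hwe⟩, -⟩ := h3 L u e lam hleg
  have cm : ∀ x : OO A B, ∀ z ∈ L.lattice, emb x * z ∈ L.lattice := by
    intro x z hz
    obtain ⟨y, hy, rfl⟩ := (hL.mem z).1 hz
    refine (hL.mem _).2 ⟨x * y, b.mul_mem_left x hy, ?_⟩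
    rw [_root_.Pool.Agent.MUX.emb_mul hC.cq]; ring
  have hα : al A B ≠ 0 := RED.al_ne hC
  obtain ⟨R, hR⟩ := b_REP L (al A B) hα (fun z hz => cm _ z hz)
  have key := h1 A B b L om hC.cq hL u e lam w hleg hw h2w hwe R hR
  have hαw : al A B * w ∉ L.lattice := by
    intro h
    apply hw
    have h5 := cm ⟨0, 1⟩ _ h2w
    have h6 := sub_mem h h5
    have h7 : al A B * w - emb (⟨0, 1⟩ : OO A B) * (2 * w) = w := by
      unfold al alO
      simp [emb]
      ring
    rwa [h7] at h6
  have hN : ∀ q, al A B * q ∈ L.lattice → (N : ℂ) * q ∈ L.lattice := by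
    intro q hq
    rw [hC.nrm, mul_assoc]
    exact cm _ _ hq
  have v2N : V.valuation ((2 * N : ℕ) : ℂ) = 1 := by
    push_cast
    rw [map_mul, hC.v2, hC.vN, one_mul]
  have vq : ∀ q ∈ R, V.valuation (xu L u e q) ≤ 1 := fun q hq =>
    (h2 V L u e lam hC.v2 hlam hleg N hC.vN q (hR.ne q hq) (hN q (hR.mem q hq))).1
  have hwq : ∀ q ∈ R, w + q ∉ L.lattice := by
    intro q hq h
    apply hαw
    have h5 := sub_mem (cm (alO A B) _ h) (hR.mem q hq)
    have h6 : emb (alO A B) * (w + q) - al A B * q = al A B * w := by unfold al; ring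
    rwa [h6] at h5
  have vwq : ∀ q ∈ R, V.valuation (xu L u e (w + q)) ≤ 1 := by
    intro q hq
    refine (h2 V L u e lam hC.v2 hlam hleg (2 * N) v2N _ (hwq q hq) ?_).1
    have h5 := nsmul_mem h2w N
    have h6 := nsmul_mem (hN q (hR.mem q hq)) 2
    have h7 := add_mem h5 h6
    have h8 : N • (2 * w) + 2 • ((N : ℂ) * q) = ((2 * N : ℕ) : ℂ) * (w + q) := by
      simp only [nsmul_eq_mul]
      push_cast
      ring
    rwa [h8] at h7
  have vS : V.valuation (∑ q ∈ R, (xu L u e (w + q) - xu L u e q)) ≤ 1 := by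
    refine Valuation.map_sum_le _ fun q hq => ?_
    exact (Valuation.map_sub _ _ _).trans (max_le (vwq q hq) (vq q hq))
  have main : V.valuation (1 + lam) * V.valuation (1 - al A B ^ 2) ≤ V.valuation (3 : ℂ) := by
    rw [← map_mul, key, map_mul]
    exact mul_le_of_le_one_right' vS
  have hlt : V.valuation (1 + lam) < 1 := by
    by_contra hge
    rw [not_lt] at hge
    exact absurd hC.va (not_lt.2 ((le_mul_of_one_le_left' hge).trans main))
  refine ⟨main, hlt, ?_, ?_⟩
  · have h5 : lam = (1 + lam) - 1 := by ring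
    have h6 : V.valuation (1 + lam) < V.valuation (1 : ℂ) := by rw [map_one]; exact hlt
    rw [h5, Valuation.map_sub_eq_of_lt_right _ h6, map_one]
  · have h5 : lam - 1 = (1 + lam) - 2 := by ring
    have h6 : V.valuation (1 + lam) < V.valuation (2 : ℂ) := by rw [hC.v2]; exact hlt
    rw [h5, Valuation.map_sub_eq_of_lt_right _ h6, hC.v2]

end

end Pool.Agent.NSR


end

section

/-!
# MUX-NS, block RN: HPD, a Legendre form with integral parameter (helper95)
-/

set_option autoImplicit false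

open WeierstrassCurve Polynomial

namespace Pool.Agent.NSR

open _root_.MU3 _root_.Pool.Agent.MU3A _root_.Pool.Agent.MU3B _root_.Pool.Agent.RI _root_.Pool.Agent.MUX _root_.Pool.Agent.MUXU
open _root_.Pool.Agent.MUXV (GR InK tX)
open _root_.Pool.Agent.NS

noncomputable section

/-- the Legendre equation from the three roots -/
theorem hpd_leg (L : PeriodPair) (e₁ e₂ e₃ u : ℂ) (h21 : e₂ ≠ e₁) (hu : u ^ 2 = e₂ - e₁)
    (s1 : e₁ + e₂ + e₃ = 0) (s2 : e₁ * e₂ + e₁ * e₃ + e₂ * e₃ = -(L.g₂ / 4))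
    (s3 : e₁ * e₂ * e₃ = L.g₃ / 4) : Leg L u e₁ ((e₃ - e₁) / (e₂ - e₁)) := by
  have hd : e₂ - e₁ ≠ 0 := sub_ne_zero.2 h21
  have hu0 : u ≠ 0 := by
    rintro rfl
    apply hd
    rw [← hu]
    ring
  refine ⟨hu0, fun z hz => ?_⟩
  have h := L.derivWeierstrassP_sq z hz
  obtain ⟨P, hP⟩ : ∃ P, P = L.weierstrassP z := ⟨_, rfl⟩
  obtain ⟨D, hD⟩ : ∃ D, D = L.derivWeierstrassP z := ⟨_, rfl⟩
  rw [← hP, ← hD] at h
  rw [← hP, ← hD, ← hu]
  have h4 : D ^ 2 = 4 * ((P - e₁) * (P - e₂) * (P - e₃)) := by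
    rw [h]
    linear_combination (4 * P ^ 2) * s1 - (4 * P) * s2 + 4 * s3
  have h5 : (D / (2 * u ^ 3)) ^ 2 = D ^ 2 / (4 * u ^ 6) := by ring
  have h6 : (P - e₁) / u ^ 2 - 1 = (P - e₂) / u ^ 2 := by
    rw [div_sub_one (pow_ne_zero 2 hu0), hu]
    congr 1
    ring
  have h7 : (P - e₁) / u ^ 2 - (e₃ - e₁) / u ^ 2 = (P - e₃) / u ^ 2 := by
    rw [← sub_div]
    congr 1
    ring
  rw [h5, h4, h6, h7]
  field_simp

/-- the statement for three points of order two, ordered in the right way -/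
theorem hpd_core (V : ValuationSubring ℂ) (L : PeriodPair) (w₁ w₂ w₃ : ℂ)
    (h1 : w₁ ∉ L.lattice ∧ 2 * w₁ ∈ L.lattice) (h2 : w₂ ∉ L.lattice ∧ 2 * w₂ ∈ L.lattice)
    (h3 : w₃ ∉ L.lattice ∧ 2 * w₃ ∈ L.lattice) (h21 : L.weierstrassP w₂ ≠ L.weierstrassP w₁)
    (s1 : L.weierstrassP w₁ + L.weierstrassP w₂ + L.weierstrassP w₃ = 0)
    (s2 : L.weierstrassP w₁ * L.weierstrassP w₂ + L.weierstrassP w₁ * L.weierstrassP w₃ +
      L.weierstrassP w₂ * L.weierstrassP w₃ = -(L.g₂ / 4))
    (s3 : L.weierstrassP w₁ * L.weierstrassP w₂ * L.weierstrassP w₃ = L.g₃ / 4)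
    (hv : V.valuation (L.weierstrassP w₃ - L.weierstrassP w₁) ≤
      V.valuation (L.weierstrassP w₂ - L.weierstrassP w₁)) :
    ∃ w₁ w₂ w₃ u : ℂ,
    (w₁ ∉ L.lattice ∧ 2 * w₁ ∈ L.lattice) ∧ (w₂ ∉ L.lattice ∧ 2 * w₂ ∈ L.lattice) ∧
    (w₃ ∉ L.lattice ∧ 2 * w₃ ∈ L.lattice) ∧ L.weierstrassP w₂ ≠ L.weierstrassP w₁ ∧
    u ^ 2 = L.weierstrassP w₂ - L.weierstrassP w₁ ∧
    Leg L u (L.weierstrassP w₁)
      ((L.weierstrassP w₃ - L.weierstrassP w₁) / (L.weierstrassP w₂ - L.weierstrassP w₁)) ∧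
    V.valuation
      ((L.weierstrassP w₃ - L.weierstrassP w₁) / (L.weierstrassP w₂ - L.weierstrassP w₁)) ≤ 1 := by
  obtain ⟨u, hu⟩ := IsAlgClosed.exists_pow_nat_eq (L.weierstrassP w₂ - L.weierstrassP w₁)
    (by norm_num : 0 < 2)
  refine ⟨w₁, w₂, w₃, u, h1, h2, h3, h21, hu, hpd_leg L _ _ _ u h21 hu s1 s2 s3, ?_⟩
  have hd : V.valuation (L.weierstrassP w₂ - L.weierstrassP w₁) ≠ 0 := by
    rw [Valuation.ne_zero_iff]
    exact sub_ne_zero.2 h21
  rw [map_div₀]
  exact div_le_one_of_le₀ hv zero_le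

theorem tr_HPD : Sr_HPD := by
  intro V L
  have hv1 := L.ω₁_div_two_notMem_lattice
  have hv2 := L.ω₂_div_two_notMem_lattice
  have hv3 : L.ω₁ / 2 + L.ω₂ / 2 ∉ L.lattice := by
    have h := (L.mul_ω₁_add_mul_ω₂_mem_lattice (α := 1 / 2) (β := 1 / 2)).not.mpr (by norm_num)
    intro h2
    apply h
    have e : (((1 / 2 : ℚ) : ℂ)) * L.ω₁ + (((1 / 2 : ℚ) : ℂ)) * L.ω₂ = L.ω₁ / 2 + L.ω₂ / 2 := by
      push_cast
      ring
    rw [e]
    exact h2
  have h21 : 2 * (L.ω₁ / 2) ∈ L.lattice := by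
    rw [mul_div_cancel₀ _ (two_ne_zero)]
    exact L.ω₁_mem_lattice
  have h22 : 2 * (L.ω₂ / 2) ∈ L.lattice := by
    rw [mul_div_cancel₀ _ (two_ne_zero)]
    exact L.ω₂_mem_lattice
  have h23 : 2 * (L.ω₁ / 2 + L.ω₂ / 2) ∈ L.lattice := by
    rw [mul_add]
    exact add_mem h21 h22
  obtain ⟨n12, n13, n23, s1, s2, s3⟩ := ta_ROO (ta_TW2 b_ADD b_ZER b_NEQ) b_NEQ L (L.ω₁ / 2)
    (L.ω₂ / 2) hv1 hv2 hv3 h21 h22
  rcases le_total (V.valuation (L.weierstrassP (L.ω₁ / 2 + L.ω₂ / 2) - L.weierstrassP (L.ω₁ / 2)))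
    (V.valuation (L.weierstrassP (L.ω₂ / 2) - L.weierstrassP (L.ω₁ / 2))) with h | h
  · exact hpd_core V L _ _ _ ⟨hv1, h21⟩ ⟨hv2, h22⟩ ⟨hv3, h23⟩ n12.symm s1 s2 s3 h
  · refine hpd_core V L _ _ _ ⟨hv1, h21⟩ ⟨hv3, h23⟩ ⟨hv2, h22⟩ n13.symm ?_ ?_ ?_ h
    · linear_combination s1
    · linear_combination s2
    · linear_combination s3

end

end Pool.Agent.NSR


end

section

/-!
# MUX-NS, block RN, module ALP: the multiplier `α`, `3` inert

`v (emb x) ≤ 1` for all `x`, because `w` is integral over `ℤ`; `v (emb x) = 1` when `x` is not a multiple of `3`, because then `x ∉ idl 3`.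
So `2`, `w`, `1 + w`, `α` and the conjugate of `α` are units at `V`; `1 - α² = -4 w (1 + w)` and `N = N(α) = 1 + 2 B - 4 A`.
-/

set_option autoImplicit false

open WeierstrassCurve Polynomial

namespace Pool.Agent.NSR

open _root_.MU3 _root_.Pool.Agent.MU3A _root_.Pool.Agent.MU3B _root_.Pool.Agent.RI _root_.Pool.Agent.MUX _root_.Pool.Agent.MUXU
open _root_.Pool.Agent.MUXV (GR InK tX)
open _root_.Pool.Agent.NS

noncomputable section

namespace ALPaux

lemma wC_int {A B : ℤ} (hc : CQ A B) : _root_.IsIntegral ℤ (wC A B) := by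
  refine ⟨Polynomial.X ^ 2 - Polynomial.C B * Polynomial.X - Polynomial.C A, ?_, ?_⟩
  · monicity!
  · have := _root_.Pool.Agent.MUX.wC_sq hc
    simp only [Polynomial.eval₂_sub, Polynomial.eval₂_mul, Polynomial.eval₂_pow,
      Polynomial.eval₂_X, Polynomial.eval₂_C]
    simp only [algebraMap_int_eq, eq_intCast]
    linear_combination this

lemma emb_mem_V {A B : ℤ} (hc : CQ A B) (V : ValuationSubring ℂ) (x : OO A B) : emb x ∈ V := by
  have h1 : wC A B ∈ V := by
    have h2 : _root_.IsIntegral V (wC A B) := (wC_int hc).tower_top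
    obtain ⟨y, hy⟩ := IsIntegrallyClosed.isIntegral_iff.1 h2
    rw [← hy]
    exact y.2
  have h3 : ∀ n : ℤ, (n : ℂ) ∈ V := fun n => intCast_mem V.toSubring n
  exact V.add_mem _ _ (h3 _) (V.mul_mem _ _ (h3 _) h1)

/-- the elements of `idl 3` are multiples of `3` -/
lemma mem3 {A B : ℤ} {x : OO A B} (hx : x ∈ idl (A := A) (B := B) 3) :
    (3 : ℤ) ∣ x.re ∧ (3 : ℤ) ∣ x.im := by
  obtain ⟨y, hy⟩ := Ideal.mem_span_singleton.1 hx
  have e3 : ((3 : ℕ) : OO A B) = ⟨3, 0⟩ := by
    ext
    · exact QuadraticAlgebra.re_natCast 3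
    · exact QuadraticAlgebra.im_natCast 3
  rw [e3] at hy
  refine ⟨⟨y.re, ?_⟩, ⟨y.im, ?_⟩⟩
  · rw [hy]
    simp
  · rw [hy]
    simp

/-- `v (emb x) = 1` for `x` not divisible by `3` -/
lemma v_one {A B : ℤ} {V : ValuationSubring ℂ} (hc : CQ A B)
    (hV : OverI V (idl (A := A) (B := B) 3)) {x : OO A B}
    (hx : ¬ ((3 : ℤ) ∣ x.re ∧ (3 : ℤ) ∣ x.im)) : V.valuation (emb x) = 1 := by
  refine le_antisymm ((V.valuation_le_one_iff _).2 (emb_mem_V hc V x)) (not_lt.1 fun h => hx ?_)
  exact mem3 ((hV x).1 (V.mem_nonunits_iff.2 h))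

end ALPaux

open _root_.Pool.Agent.NSR.ALPaux

/-- (ALP) the multiplier `α`, `3` inert -/
theorem tr_ALP : Sr_ALP := by
  intro A B V hC hV
  have hc : CQ A B := hC.toCQ
  have hw : wC A B * wC A B = A + B * wC A B := _root_.Pool.Agent.MUX.wC_sq hc
  -- `v 3 < 1`
  have v3 : V.valuation (3 : ℂ) < 1 := by
    have h1 : emb ((3 : ℕ) : OO A B) ∈ V.nonunits := (hV _).2 (Ideal.mem_span_singleton_self _)
    rw [_root_.Pool.Agent.MUX.emb_natCast hc] at h1
    exact_mod_cast V.mem_nonunits_iff.1 h1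
  -- units at `V`
  have v2 : V.valuation (2 : ℂ) = 1 := by
    have h1 : V.valuation (emb (⟨2, 0⟩ : OO A B)) = 1 := v_one hc hV (by
      intro h
      have := h.1
      simp only at this
      omega)
    have h2 : emb (⟨2, 0⟩ : OO A B) = 2 := by simp [emb]
    rwa [h2] at h1
  have vw : V.valuation (wC A B) = 1 := by
    have h1 : V.valuation (emb (⟨0, 1⟩ : OO A B)) = 1 := v_one hc hV (by
      intro h
      have := h.2
      simp only at this
      omega)
    rwa [MUX.emb_w] at h1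
  have vw1 : V.valuation (1 + wC A B) = 1 := by
    have h1 : V.valuation (emb (⟨1, 1⟩ : OO A B)) = 1 := v_one hc hV (by
      intro h
      have := h.2
      simp only at this
      omega)
    have h2 : emb (⟨1, 1⟩ : OO A B) = 1 + wC A B := by simp [emb]
    rwa [h2] at h1
  have va1 : V.valuation (al A B) = 1 := v_one hc hV (by
    intro h
    have := h.1
    simp only [alO] at this
    omega)
  have va2 : V.valuation (emb (alO' A B)) = 1 := v_one hc hV (by
    intro h
    have := h.2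
    simp only [alO'] at this
    omega)
  have eal : al A B = 1 + 2 * wC A B := by simp [al, alO, emb]
  have eal' : emb (alO' A B) = 1 + 2 * B - 2 * wC A B := by
    simp [alO', emb]
    ring
  -- `1 - α² = -4 w (1 + w)`
  have key : V.valuation (1 - al A B ^ 2) = 1 := by
    have h1 : 1 - al A B ^ 2 = -(2 * 2 * (wC A B * (1 + wC A B))) := by
      rw [eal]
      ring
    rw [h1, Valuation.map_neg, map_mul, map_mul, map_mul, v2, vw, vw1]
    simp
  refine ⟨⟨(1 + 2 * B - 4 * A).toNat, ?_⟩, key⟩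
  have hpos : 1 < 1 + 2 * B - 4 * A := by
    have := hc.neg
    rcases hc.hB with h | h
    · subst h
      omega
    · subst h
      omega
  have hN : (((1 + 2 * B - 4 * A).toNat : ℕ) : ℤ) = 1 + 2 * B - 4 * A :=
    Int.toNat_of_nonneg (by omega)
  have hNC : (((1 + 2 * B - 4 * A).toNat : ℕ) : ℂ) = 1 + 2 * B - 4 * A := by
    have := congrArg (fun n : ℤ => (n : ℂ)) hN
    push_cast at this
    exact this
  have hnrm : (((1 + 2 * B - 4 * A).toNat : ℕ) : ℂ) = emb (alO' A B) * al A B := by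
    rw [hNC, eal, eal']
    linear_combination 4 * hw
  exact
    { cq := hc
      v3 := v3
      v2 := v2
      va := by
        rw [key]
        exact v3
      nrm := hnrm
      odd := by
        rw [Nat.odd_iff]
        omega
      one := by omega
      vN := by
        rw [hnrm, map_mul, va1, va2, one_mul] }

end

end Pool.Agent.NSR


end

section

/-!
# MUX-NS, block RN, module RFIN (helper58): the final statement of the block
-/

set_option autoImplicit false

open WeierstrassCurve Polynomial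

namespace Pool.Agent.NSR

open _root_.MU3 _root_.Pool.Agent.MU3A _root_.Pool.Agent.MU3B _root_.Pool.Agent.RI _root_.Pool.Agent.MUX _root_.Pool.Agent.MUXU
open _root_.Pool.Agent.NS

noncomputable section

theorem xn_mem_two {A B : ℤ} (hc : CQ A B) {b : Ideal (OO A B)} {L : PeriodPair} {om : ℂ}
    (h : IsNL b L om) {w : ℂ} (hw : w ∉ L.lattice) (hw2 : 2 * w ∈ L.lattice) :
    L.weierstrassP w ∈ RF (idl (A := A) (B := B) 2) := by
  have h1 : xn L w ∈ RF (idl (A := A) (B := B) 2) := by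
    refine IntermediateField.subset_adjoin _ _ ⟨b, L, om, h, Or.inr ⟨w, ?_, hw, rfl⟩⟩
    intro x hx
    obtain ⟨y, rfl⟩ := Ideal.mem_span_singleton'.1 hx
    have h2 : emb (y * ((2 : ℕ) : OO A B)) = emb y * 2 := by
      rw [_root_.Pool.Agent.MUX.emb_mul hc]
      congr 1
      have := map_natCast (Pool.Agent.MUX.embHom hc) 2
      rw [Pool.Agent.MUX.embHom_apply] at this
      rw [this]
      norm_num
    rw [h2, mul_assoc]
    exact h.toIsLI.hasCM hc y _ hw2
  have h3 : L.weierstrassP w = xn L w + ((1 / 12 : ℚ) : ℂ) := by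
    unfold xn
    push_cast
    ring
  rw [h3]
  refine add_mem h1 ?_
  exact SubfieldClass.ratCast_mem _ _

theorem tr_RFIN (h1 : Sr_ALP) (h2 : Sr_HPD) (h3 : Sr_RED) (h4 : Sr_UNR) : Sn_RFIN := by
  intro A B V hI hV hT
  obtain ⟨⟨N, hN⟩, hal⟩ := h1 A B V hI hV
  refine ⟨fun b L om hL => ?_, fun f hf0 hf3 σ hσ hin y hy => ?_⟩
  · obtain ⟨w₁, w₂, w₃, u, ⟨a1, a2⟩, ⟨b1, b2⟩, ⟨c1, c2⟩, hne, hu, hleg, hv⟩ := h2 V L
    have hred := (h3 A B V N hN b L om hL.toIsLI _ _ _ hleg hv).1
    rw [hal, mul_one] at hred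
    have m1 := xn_mem_two hN.cq hL a1 a2
    have m2 := xn_mem_two hN.cq hL b1 b2
    have m3 := xn_mem_two hN.cq hL c1 c2
    refine ⟨u, _, _, ⟨hleg.u0, hleg.eq, hred⟩, ?_, m1, ?_⟩
    · rw [hu]
      exact sub_mem m2 m1
    · exact div_mem (sub_mem m3 m1) (sub_mem m2 m1)
  · refine h4 A B V N hN hT f hf0 hf3 σ hσ (fun y hy hyv => ?_) y hy
    rw [← ValuationSubring.mem_nonunits_iff]
    exact hin y hy ((ValuationSubring.valuation_le_one_iff _ _).1 hyv)

end

end Pool.Agent.NSR


end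

section

/-!
# The block RN put together

All the modules of the block RN, without hypotheses.
-/

namespace Pool.Agent.NSR



theorem rlgf : Sr_LGF := tr_LGF

theorem rxil : Sr_XIL := tr_XIL tr_LGF

theorem rtor : Sr_TOR := tr_TOR rxil

theorem rcmi : Sr_CMI := tr_CMI tr_LGF

theorem rred : Sr_RED := tr_RED rcmi rtor tr_LGF

theorem rgrl : Sr_GRL := tr_GRL rxil

theorem rcht : Sr_CHT := tr_CHT tr_LGF

theorem rclo : Sr_CLO := tr_CLO rgrl rcht

theorem rtwo : Sr_TWO := tr_TWO tr_LGF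

theorem runq : Sr_UNQ :=
  tr_UNQ tr_LGF rred rtor rtwo rcmi rclo Pool.Agent.MUXU.u_BAC Pool.Agent.MUXU.u_CJE
    Pool.Agent.MUXU.u_PHI Pool.Agent.MUXU.u_TSN

theorem rfxl : Sr_FXL := tr_FXL runq (tr_EQL tr_LGF) rred rgrl rtor

theorem runr (h : Sr_LIF) : Sr_UNR := tr_UNR tr_HPD rtor h tr_MFD rfxl

theorem rpm3 : Sr_PM3 := tr_PM3 rcht

theorem rtr3 : Sr_TR3 := tr_TR3 rpm3 tr_LGF

theorem rfin0 (h : Sr_LIF) : Pool.Agent.NS.Sn_RFIN := tr_RFIN tr_ALP tr_HPD rred (runr h)

theorem rval3 (h : Sr_LIF) : Sr_VAL3 := tr_VAL3 tr_ALP (runr h) tr_RAM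

/-- The final statement of the block RN. -/
theorem rfin : Pool.Agent.NS.Sn_RFIN := rfin0 tr_LIF

theorem runr' : Sr_UNR := runr tr_LIF

theorem rval3' : Sr_VAL3 := rval3 tr_LIF

end Pool.Agent.NSR


end

section

/-!
# MUX-NS, block TN, module TAU: the number `tau` (helper43)
-/

set_option autoImplicit false

namespace Pool.Agent.NST

open _root_.MU3 _root_.Pool.Agent.MU3A _root_.Pool.Agent.MU3B _root_.Pool.Agent.RI _root_.Pool.Agent.MUX _root_.Pool.Agent.MUXU
open OnePoint _root_.Pool.Agent.NS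
open _root_.Pool.Agent.MUXV (GR InK)
open _root_.Pool.Agent.NSE (CtxN E3 su ru Rep)
open _root_.Pool.Agent.MUXY (ActN Dn)

noncomputable section

namespace TAU

variable {A B : ℤ}

lemma cast3 (x : OO A B) : x ∈ idl (A := A) (B := B) 3 ↔ ∃ y : OO A B, x = 3 * y := by
  rw [Ideal.mem_span_singleton]
  rfl

/-- the term of the sum -/
def T (w : OO A B → ℂ) (L : PeriodPair) (u e Y : ℂ) (x : OO A B) : ℂ :=
  (w x)⁻¹ * ru L u e (emb x * Y)

lemma card9 (h : CQ A B) : Nat.card (OO A B ⧸ idl (A := A) (B := B) 3) = 9 := by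
  have h3 : ((3 : ℕ) : OO A B) ≠ 0 := natCast_ne_zero' h (by norm_num)
  have h1 := nI_sp h h3
  have h2 : nm ((3 : ℕ) : OO A B) = 9 := by
    have := nm_intCast (A := A) (B := B) 3
    push_cast at this ⊢
    exact this.trans (by norm_num)
  rw [h2] at h1
  exact h1

end TAU

open _root_.Pool.Agent.NST.TAU in
theorem nt_TAU (h1 : Nt_TRC) (h2 : Nt_TCJ) (h3 : Nt_ALT) (h4 : Pool.Agent.NSE.Se_PTS) : Nt_TAU := by
  classical
  intro A B V hctx hTor n ι R u e lam hg w hw
  have hcq := hctx.cq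
  set L := R.L R.i0 with hL
  set om := R.om R.i0 with hom
  have hli : IsLI (R.b R.i0) L om := (R.nl R.i0).toIsLI
  have hmem : ∀ z : ℂ, z ∈ L.lattice ↔ ∃ x : OO A B, z = om * emb x := by
    intro z
    rw [hli.mem z, R.b0]
    simp
  have hom0 : om ≠ 0 := hli.om_ne
  -- facts on the points of order three
  obtain ⟨hr8, hrx⟩ := h1 A B V hctx (R.b R.i0) L om u e lam hli hg
  obtain ⟨-, hper⟩ := h4 V L u e lam hg hctx.v3
  have hone : (1 : OO A B) ∉ idl (A := A) (B := B) 3 := fun h =>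
    hctx.max.ne_top ((Ideal.eq_top_iff_one _).2 h)
  have hY0 : om / 3 ∈ E3 L := by
    refine ⟨?_, ?_⟩
    · rw [hmem]
      exact ⟨1, by rw [_root_.Pool.Agent.MUX.emb_one hcq]; field_simp⟩
    · intro hc
      obtain ⟨x, hx⟩ := (hmem _).1 hc
      apply hone
      rw [cast3]
      refine ⟨x, ?_⟩
      apply _root_.Pool.Agent.MUX.emb_inj hcq
      have e3 : emb (3 : OO A B) = 3 := by
        have := _root_.Pool.Agent.MUX.emb_natCast hcq 3
        simpa using this
      rw [_root_.Pool.Agent.MUX.emb_one hcq, _root_.Pool.Agent.MUX.emb_mul hcq, e3]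
      have h5 : om * (3 * emb x) = om * 1 := by
        linear_combination (-3) * hx
      exact (mul_left_cancel₀ hom0 h5).symm
  set Y := om / 3 with hY
  set ρ := ru L u e Y with hρ
  have hv3 : V.valuation (3 : ℂ) ≠ 0 := by
    rw [Ne, map_eq_zero]
    norm_num
  have hρ8 : V.valuation ρ ^ 8 = V.valuation (3 : ℂ) := hr8 Y hY0
  have hρ0 : V.valuation ρ ≠ 0 := by
    intro h0
    rw [h0, zero_pow (by norm_num)] at hρ8
    exact hv3 hρ8.symm
  have hρpos : 0 < V.valuation ρ := zero_lt_iff.2 hρ0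
  have hw0 : ∀ x, x ∉ idl (A := A) (B := B) 3 → w x ≠ 0 := by
    intro x hx h0
    have h5 := hw.pow x hx
    rw [h0, zero_pow (by norm_num)] at h5
    exact zero_ne_one h5
  have hwv : ∀ x, x ∉ idl (A := A) (B := B) 3 → V.valuation (w x) = 1 := by
    intro x hx
    have h5 := congrArg V.valuation (hw.pow x hx)
    rw [map_pow, map_one] at h5
    exact (pow_eq_one_iff.1 h5).resolve_right (by norm_num)
  -- the terms are periodic
  have hTper : ∀ x y : OO A B, x - y ∈ idl (A := A) (B := B) 3 →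
      T w L u e Y x = T w L u e Y y := by
    intro x y hxy
    have hwxy := hw.per x y hxy
    by_cases hx : x ∈ idl (A := A) (B := B) 3
    · unfold T
      rw [← hwxy, hw.zero x hx]
      simp
    · unfold T
      rw [hwxy]
      congr 1
      have hy : y ∉ idl (A := A) (B := B) 3 := by
        intro hy
        apply hx
        have := Ideal.add_mem _ hxy hy
        rwa [sub_add_cancel] at this
      obtain ⟨t, ht⟩ := (cast3 _).1 hxy
      have e3 : emb (3 : OO A B) = 3 := by
        have := _root_.Pool.Agent.MUX.emb_natCast hcq 3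
        simpa using this
      have h5 : emb x * Y = emb y * Y + om * emb t := by
        have h6 : emb x - emb y = 3 * emb t := by
          rw [← _root_.Pool.Agent.MUX.emb_sub hcq, ht, _root_.Pool.Agent.MUX.emb_mul hcq, e3]
        rw [hY]
        linear_combination (om / 3) * h6
      rw [h5]
      exact (hper _ (hrx y hy Y hY0).1 _ ((hmem _).2 ⟨t, rfl⟩)).2.2
  -- the quotient
  have hne : idl (A := A) (B := B) 3 ≠ ⊥ := by
    intro h0
    rw [Ideal.span_singleton_eq_bot] at h0
    exact natCast_ne_zero' hcq (by norm_num) h0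
  have hfin : Finite (OO A B ⧸ idl (A := A) (B := B) 3) := finite_quot hcq hne
  have hfq : Fintype (OO A B ⧸ idl (A := A) (B := B) 3) := Fintype.ofFinite _
  have hcard : Fintype.card (OO A B ⧸ idl (A := A) (B := B) 3) = 9 := by
    rw [← Nat.card_eq_fintype_card]
    exact card9 hcq
  have hout : ∀ q : OO A B ⧸ idl (A := A) (B := B) 3,
      Ideal.Quotient.mk (idl (A := A) (B := B) 3) (Quotient.out q) = q := fun q =>
    Ideal.Quotient.mk_out q
  have hq0 : ∀ q : OO A B ⧸ idl (A := A) (B := B) 3, q ≠ 0 →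
      (Quotient.out q : OO A B) ∉ idl (A := A) (B := B) 3 := by
    intro q hq h0
    apply hq
    rw [← hout q]
    exact Ideal.Quotient.eq_zero_iff_mem.2 h0
  have hT0 : T w L u e Y (Quotient.out (0 : OO A B ⧸ idl (A := A) (B := B) 3)) = 0 := by
    have h0 : (Quotient.out (0 : OO A B ⧸ idl (A := A) (B := B) 3) : OO A B) ∈
        idl (A := A) (B := B) 3 := by
      rw [← Ideal.Quotient.eq_zero_iff_mem, hout]
    unfold T
    rw [hw.zero _ h0]
    simp
  refine ⟨∑ q : OO A B ⧸ idl (A := A) (B := B) 3, T w L u e Y (Quotient.out q), ?_, ?_, ?_⟩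
  · -- the valuation
    have h8 : V.valuation ((8 : ℕ) : ℂ) = 1 := hctx.nat 8 (by norm_num)
    have hsum : ∑ q : OO A B ⧸ idl (A := A) (B := B) 3, T w L u e Y (Quotient.out q) =
        ((8 : ℕ) : ℂ) * ρ + ∑ q ∈ Finset.univ.erase (0 : OO A B ⧸ idl (A := A) (B := B) 3),
          (T w L u e Y (Quotient.out q) - ρ) := by
      rw [Finset.sum_sub_distrib, Finset.sum_const, Finset.card_erase_of_mem (Finset.mem_univ _),
        Finset.card_univ, hcard, ← Finset.add_sum_erase _ _ (Finset.mem_univ 0), hT0, nsmul_eq_mul]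
      push_cast
      ring
    have hlt : V.valuation (∑ q ∈ Finset.univ.erase (0 : OO A B ⧸ idl (A := A) (B := B) 3),
        (T w L u e Y (Quotient.out q) - ρ)) < V.valuation ρ := by
      apply Valuation.map_sum_lt _ hρ0
      intro q hq
      have hq' : (Quotient.out q : OO A B) ∉ idl (A := A) (B := B) 3 :=
        hq0 q (Finset.ne_of_mem_erase hq)
      generalize (Quotient.out q : OO A B) = x at hq'
      have h5 : T w L u e Y x - ρ = (w x)⁻¹ * (ru L u e (emb x * Y) - emb x * ρ) +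
          (w x)⁻¹ * (-(w x - emb x)) * ρ := by
        unfold T
        have := hw0 x hq'
        field_simp
        ring
      rw [h5]
      apply Valuation.map_add_lt
      · rw [map_mul, map_inv₀, hwv x hq', inv_one, one_mul]
        exact (hrx x hq' Y hY0).2
      · rw [map_mul, map_mul, map_inv₀, hwv x hq', inv_one, one_mul, Valuation.map_neg]
        calc V.valuation (w x - emb x) * V.valuation ρ
            ≤ V.valuation (3 : ℂ) * V.valuation ρ := by
              gcongr
              exact hw.cong x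
          _ < 1 * V.valuation ρ := by
              exact mul_lt_mul_of_pos_right hctx.v3 hρpos
          _ = V.valuation ρ := one_mul _
    have h9 : V.valuation (((8 : ℕ) : ℂ) * ρ) = V.valuation ρ := by
      rw [map_mul, h8, one_mul]
    rw [hsum, Valuation.map_add_eq_of_lt_left _ (by rw [h9]; exact hlt), h9, hρ8]
  · -- algebraic
    obtain ⟨-, -, -, -, halg⟩ := h3 A B hcq hTor V hctx.v3 (R.b R.i0) L om (R.nl R.i0) u e lam hg
    rw [isAlgebraic_iff_isIntegral]
    apply IsIntegral.sum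
    intro q _
    rw [← isAlgebraic_iff_isIntegral]
    by_cases hq : q = 0
    · rw [hq, hT0]
      exact isAlgebraic_zero
    · have hx := hq0 q hq
      generalize (Quotient.out q : OO A B) = x at hx
      unfold T
      have hE := (hrx x hx Y hY0).1
      apply IsAlgebraic.mul
      · apply IsAlgebraic.inv
        rw [isAlgebraic_iff_isIntegral]
        apply IsIntegral.of_pow (n := 8) (by norm_num)
        rw [hw.pow x hx]
        exact isIntegral_one
      · exact (halg 3 (by norm_num) _ hE.2 (by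
          push_cast
          exact hE.1)).2.2
  · -- conjugation
    intro m hm σ c d hact hc hσu hσe hσw
    obtain ⟨k, rfl⟩ := hm
    have hc0 := hw0 c hc
    have hterm : ∀ x : OO A B, σ (T w L u e Y x) = w c * T w L u e Y (c * x) := by
      intro x
      by_cases hx : x ∈ idl (A := A) (B := B) 3
      · unfold T
        rw [hw.zero x hx, hw.zero (c * x) (Ideal.mul_mem_left _ c hx)]
        simp
      · have hE := (hrx x hx Y hY0).1
        have h5 := (h2 A B n ι R (3 * k) σ c d hact u e hg.u0 hσu hσe (emb x * Y) (by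
          have h6 : ((3 * k : ℕ) : ℂ) * (emb x * Y) = (k : ℕ) • (3 * (emb x * Y)) := by
            rw [nsmul_eq_mul]
            push_cast
            ring
          rw [h6]
          exact nsmul_mem hE.1 k) hE.2).2.2.2
        unfold T
        rw [map_mul, map_inv₀, hσw, h5, hw.mul, _root_.Pool.Agent.MUX.emb_mul hcq]
        have := hw0 x hx
        rw [← hL]
        have e6 : emb c * (emb x * Y) = emb c * emb x * Y := by ring
        rw [e6]
        field_simp
    rw [map_sum]
    simp_rw [hterm]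
    rw [← Finset.mul_sum]
    congr 1
    have hprime : (idl (A := A) (B := B) 3).IsPrime := hctx.max.isPrime
    have hdom : IsDomain (OO A B ⧸ idl (A := A) (B := B) 3) := Ideal.Quotient.isDomain _
    set cb := Ideal.Quotient.mk (idl (A := A) (B := B) 3) c with hcb
    have hcb0 : cb ≠ 0 := fun h => hc (Ideal.Quotient.eq_zero_iff_mem.1 h)
    have hbij : Function.Bijective (fun q : OO A B ⧸ idl (A := A) (B := B) 3 => cb * q) := by
      rw [← Finite.injective_iff_bijective]
      intro a b hab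
      exact mul_left_cancel₀ hcb0 hab
    rw [← Function.Bijective.sum_comp hbij (fun q => T w L u e Y (Quotient.out q))]
    apply Finset.sum_congr rfl
    intro q _
    apply hTper
    rw [← Ideal.Quotient.eq, map_mul, hout, hout]

end

end Pool.Agent.NST


end

section

/-!
# MUX-NS, block ER, module XCJ: the logarithmic derivative in the ray class field
-/

set_option autoImplicit false

open Polynomial

namespace Pool.Agent.NSER

open _root_.MU3 _root_.Pool.Agent.MU3A _root_.Pool.Agent.MU3B _root_.Pool.Agent.MUX _root_.Pool.Agent.MUXU _root_.Pool.Agent.MUXE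
open _root_.Pool.Agent.RI _root_.Pool.Agent.NS _root_.Pool.Agent.NSRD
open _root_.Pool.Agent.MUXV (GR InK tX)
open _root_.Pool.Agent.NSE (E3 su ru WL IntP Rep)

noncomputable section

namespace XCJ

/-- `4 y(z) y(P) = (x z - x P)² (x(z - P) - x(z + P))` -/
theorem yy_mul {L : PeriodPair} {u e lam : ℂ} (hL : Pool.Agent.NSR.Leg L u e lam)
    (hxn : ∀ z, xu L u e (-z) = xu L u e z ∧ yu L u (-z) = -yu L u z) {z P : ℂ}
    (hz : z ∉ L.lattice) (hP : P ∉ L.lattice) (h1 : z + P ∉ L.lattice)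
    (h2 : z - P ∉ L.lattice) :
    yu L u z * yu L u P * 4 = (xu L u e z - xu L u e P) ^ 2 *
      (xu L u e (z - P) - xu L u e (z + P)) := by
  obtain ⟨hr, -⟩ := Pool.Agent.NSR.rcht L u e lam hL
  obtain ⟨d, hx, -⟩ := hr z P hz hP h1 h2
  obtain ⟨-, hx', -⟩ := hr z (-P) hz (fun h => hP (by simpa using neg_mem h))
    (by rwa [← sub_eq_add_neg]) (by rwa [sub_neg_eq_add])
  rw [(hxn P).1, (hxn P).2, ← sub_eq_add_neg] at hx'
  rw [hx, hx']
  field_simp
  ring

end XCJ

open _root_.Pool.Agent.NSER.XCJ in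
theorem tf_XCJ (hCOE : Sf_COE) (hRP1 : Sf_RP1) : Sf_XCJ := by
  intro A B P V hC hG N u e lam hN hgood n f a hf h2f h3f ha h3a haf H' hH' z P₀ hz hfP₀ hP₀L
    h2P₀ haz hzP hzP'
  have hR := hC.ring
  obtain ⟨φ, hφ⟩ := hR.hom
  have hmul : ∀ x y : OO A B, emb (x * y) = emb x * emb y := fun x y => by
    rw [← hφ, map_mul, hφ, hφ]
  have hsub : ∀ x y : OO A B, emb (x - y) = emb x - emb y := fun x y => by
    rw [← hφ, map_sub, hφ, hφ]
  have hone : emb (1 : OO A B) = 1 := by rw [← hφ, map_one]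
  have hnat : ∀ k : ℕ, emb ((k : ℕ) : OO A B) = k := fun k => by rw [← hφ, map_natCast]
  have hv3 := hC.v3
  have ha0 : (a : ℂ) ≠ 0 := by
    have : a ≠ 0 := by omega
    exact_mod_cast this
  have hu0 := hgood.u0
  have hL : Pool.Agent.NSR.Leg N u e lam := ⟨hgood.u0, hgood.eq⟩
  obtain ⟨-, -, -, -, -, -, -, -, hper⟩ := hCOE V N u e lam hgood hv3
  have hxn : ∀ w, xu N u e (-w) = xu N u e w ∧ yu N u (-w) = -yu N u w := fun w => (hper w).2
  have hcl : ∀ (x : OO A B) (w : ℂ), w ∈ N.lattice → emb x * w ∈ N.lattice := by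
    obtain ⟨b0, om, hNL⟩ := hN
    intro x w hw
    obtain ⟨y, hy, rfl⟩ := (hNL.mem _).1 hw
    exact (hNL.mem _).2 ⟨x * y, Ideal.mul_mem_left _ _ hy, by rw [hmul]; ring⟩
  have hzL : z ∉ N.lattice := fun h => haz (by
    have := hcl (a : OO A B) z h
    rwa [hnat] at this)
  obtain ⟨hu2M, heM, -⟩ := hRP1 A B P V hC hG N u e lam hN hgood
  -- the ideals
  obtain ⟨m, hm⟩ : ∃ m : Ideal (OO A B), m = lvR P (f * a) n := ⟨_, rfl⟩
  rw [← hm]
  have hmm : m ≤ idl (A := A) (B := B) (f * a) := by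
    rw [hm]
    unfold lvR
    exact (Ideal.mul_le_inf (I := idl (A := A) (B := B) (f * a))).trans inf_le_left
  have hmf : m ≤ lvR P f n := by
    have h0 : idl (A := A) (B := B) (f * a) ≤ idl f := by
      rw [Ideal.span_singleton_le_span_singleton]
      refine ⟨(a : OO A B), ?_⟩
      push_cast; ring
    rw [hm]
    unfold lvR
    exact Ideal.mul_mono_left h0
  have hm2 : idl (A := A) (B := B) (f * a) ≤ idl 2 := by
    obtain ⟨f', rfl⟩ := h2f
    rw [Ideal.span_singleton_le_span_singleton]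
    refine ⟨((f' * a : ℕ) : OO A B), ?_⟩
    push_cast; ring
  obtain ⟨c1, c2, -, c4, -⟩ := Pool.Agent.MUXE.te_FAC Pool.Agent.MUXE.te_TRA A B hR
  have hle := c1 _ _ hmm
  have huM : u ^ 2 ∈ RF (idl (A := A) (B := B) (f * a)) := c1 _ _ hm2 hu2M
  have heM : e ∈ RF (idl (A := A) (B := B) (f * a)) := c1 _ _ hm2 heM
  -- torsion
  have hTadd : ∀ w w' : ℂ, Tor m N w → Tor m N w' → Tor m N (w + w') := by
    intro w w' h h' x hx
    rw [mul_add]
    exact add_mem (h x hx) (h' x hx)
  have hTneg : ∀ w : ℂ, Tor m N w → Tor m N (-w) := by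
    intro w h x hx
    rw [mul_neg]
    exact neg_mem (h x hx)
  have hTz : Tor m N z := fun x hx => hz x (hmf hx)
  have hTP' : Tor (idl (A := A) (B := B) (f * a)) N P₀ := by
    intro x hx
    obtain ⟨y, rfl⟩ := Ideal.mem_span_singleton'.1 hx
    have h1 := hcl (y * (a : OO A B)) _ hfP₀
    have h2 : emb (y * ((f * a : ℕ) : OO A B)) * P₀ = emb (y * (a : OO A B)) * (f * P₀) := by
      rw [hmul, hmul, hnat, hnat]; push_cast; ring
    rw [h2]; exact h1
  have hTq' : ∀ q ∈ H', Tor (idl (A := A) (B := B) (f * a)) N q := by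
    intro q hq x hx
    obtain ⟨y, rfl⟩ := Ideal.mem_span_singleton'.1 hx
    have h1 := hcl (y * (f : OO A B)) _ (hH'.mem q hq)
    have h2 : emb (y * ((f * a : ℕ) : OO A B)) * q = emb (y * (f : OO A B)) * (a * q) := by
      rw [hmul, hmul, hnat, hnat]; push_cast; ring
    rw [h2]; exact h1
  have hTP : Tor m N P₀ := fun x hx => hTP' x (hmm hx)
  have hqL : ∀ q ∈ H', q ∉ N.lattice := fun q hq h => hH'.ne q hq (by
    rw [two_mul]; exact add_mem h h)
  have hxx : ∀ w : ℂ, xu N u e w = (xn N w + ((1 / 12 : ℚ) : ℂ) - e) / u ^ 2 := by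
    intro w; unfold xu xn; push_cast; ring
  have hF' : ∀ w, Tor (idl (A := A) (B := B) (f * a)) N w → w ∉ N.lattice →
      xu N u e w ∈ RF (idl (A := A) (B := B) (f * a)) := by
    intro w h1 h2
    rw [hxx]
    exact div_mem (sub_mem (add_mem ((c2 _ N hN).2 _ h1 h2) (SubfieldClass.ratCast_mem _ _)) heM)
      huM
  have hF : ∀ w, Tor m N w → w ∉ N.lattice → xu N u e w ∈ RF m := by
    intro w h1 h2
    rw [hxx]
    exact div_mem (sub_mem (add_mem ((c2 _ N hN).2 _ h1 h2) (SubfieldClass.ratCast_mem _ _))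
      (hle heM)) (hle huM)
  have hTp : Tor m N (z + P₀) := hTadd _ _ hTz hTP
  have hTm : Tor m N (z - P₀) := by
    rw [sub_eq_add_neg]; exact hTadd _ _ hTz (hTneg _ hTP)
  have hxz := hF z hTz hzL
  have hxP := hF P₀ hTP hP₀L
  have hxp := hF _ hTp hzP'
  have hxm := hF _ hTm hzP
  obtain ⟨g, hg⟩ : ∃ g : ℂ → RF m, ∀ q ∈ H', (g q : ℂ) = xu N u e q := by
    classical
    refine ⟨fun q => if h : xu N u e q ∈ RF m then ⟨xu N u e q, h⟩ else 0, fun q hq => ?_⟩
    have h : xu N u e q ∈ RF m := hle (hF' q (hTq' q hq) (hqL q hq))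
    simp only [dif_pos h]
  have h4 : yu N u z * yu N u P₀ * 4 = (xu N u e z - xu N u e P₀) ^ 2 *
      (xu N u e (z - P₀) - xu N u e (z + P₀)) := yy_mul hL hxn hzL hP₀L hzP' hzP
  obtain ⟨X', hX'⟩ : ∃ X' : RF m, X' = ((⟨xu N u e z, hxz⟩ : RF m) - ⟨xu N u e P₀, hxP⟩) ^ 2 *
      ((⟨xu N u e (z - P₀), hxm⟩ : RF m) - ⟨xu N u e (z + P₀), hxp⟩) *
      (∑ q ∈ H', ((⟨xu N u e z, hxz⟩ : RF m) - g q)⁻¹) * 4⁻¹ := ⟨_, rfl⟩
  have hXc : (X' : ℂ) = yu N u z * yu N u P₀ * ∑ q ∈ H', (xu N u e z - xu N u e q)⁻¹ := by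
    have h41 : (X' : ℂ) = (xu N u e z - xu N u e P₀) ^ 2 *
        (xu N u e (z - P₀) - xu N u e (z + P₀)) *
        (∑ q ∈ H', (xu N u e z - xu N u e q)⁻¹) * 4⁻¹ := by
      rw [hX']
      have h42 : ((∑ q ∈ H', ((⟨xu N u e z, hxz⟩ : RF m) - g q)⁻¹ : RF m) : ℂ) =
          ∑ q ∈ H', (xu N u e z - xu N u e q)⁻¹ := by
        show (RF m).val (∑ q ∈ H', ((⟨xu N u e z, hxz⟩ : RF m) - g q)⁻¹) = _
        rw [map_sum]
        refine Finset.sum_congr rfl fun q hq => ?_
        rw [← hg q hq]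
        rfl
      rw [← h42]
      rfl
    rw [h41, ← h4]
    ring
  have hyP : yu N u P₀ ≠ 0 :=
    ((Pool.Agent.NSR.rcht N u e lam hL).2 P₀ h2P₀).1
  refine ⟨X', X'.2, sub_mem hxz hxP, hyP, hXc, ?_, ?_⟩
  · have h1 := (b_TDL N a H' ha0 (fun w hw => by
      have := hcl (a : OO A B) w hw
      rwa [hnat] at this) hH' z haz).1
    have h2 : dlX N a z = ∑ q ∈ H', N.derivWeierstrassP z /
        (N.weierstrassP z - N.weierstrassP q) := by
      rw [h1]
      unfold dlX
      rw [Complex.norm_natCast]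
      push_cast
      ring
    have h3 : ∀ q, N.derivWeierstrassP z / (N.weierstrassP z - N.weierstrassP q) =
        u * (2 * yu N u z * (xu N u e z - xu N u e q)⁻¹) := by
      intro q
      have h5 : N.weierstrassP z - N.weierstrassP q = u ^ 2 * (xu N u e z - xu N u e q) := by
        unfold xu; field_simp; ring
      have h6 : N.derivWeierstrassP z = 2 * u ^ 3 * yu N u z := by
        unfold yu; field_simp
      rw [h5, h6, div_eq_mul_inv, mul_inv]
      field_simp
    rw [h2, hXc, Finset.sum_congr rfl fun q _ => h3 q, ← Finset.mul_sum, ← Finset.mul_sum]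
    field_simp
  · intro σ c hσ hc hX hπ
    have hfix : ∀ (t : ℂ) (ht : t ∈ RF m), t ∈ RF (idl (A := A) (B := B) (f * a)) →
        (σ ⟨t, ht⟩ : ℂ) = t := by
      intro t ht ht'
      exact c4 _ _ hmm (_root_.Pool.Agent.MU3A.em σ) _ hσ hc t ht ht'
    have hσx : ∀ w (_ : Tor m N w) (_ : w ∉ N.lattice) (h : xu N u e w ∈ RF m),
        (σ ⟨xu N u e w, h⟩ : ℂ) = xu N u e (emb c * w) := by
      intro w hw hwL h
      have h0 : xn N w ∈ RF m := (c2 _ N hN).2 _ hw hwL
      have h1 : (σ ⟨xn N w, h0⟩ : ℂ) = xn N (emb c * w) := ((hσ.2 N hN).2 w hw hwL).2 h0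
      have h11 : (⟨xu N u e w, h⟩ : RF m) =
          (⟨xn N w, h0⟩ + (((1 / 12 : ℚ)) : RF m) - ⟨e, hle heM⟩) / ⟨u ^ 2, hle huM⟩ := by
        apply Subtype.ext
        show xu N u e w = _
        rw [hxx w]
        rfl
      rw [h11, map_div₀, map_sub, map_add, map_ratCast]
      show ((σ ⟨xn N w, h0⟩ : ℂ) + ((1 / 12 : ℚ) : ℂ) - (σ ⟨e, hle heM⟩ : ℂ)) /
        (σ ⟨u ^ 2, hle huM⟩ : ℂ) = _
      rw [h1, hfix _ _ heM, hfix _ _ huM, ← hxx]
    have hcP : emb c * P₀ = P₀ + emb (c - 1) * P₀ := by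
      rw [hsub, hone]; ring
    have hcPL : emb (c - 1) * P₀ ∈ N.lattice := hTP' _ hc
    have hNz : ∀ w, Tor m N w → w ∉ N.lattice → emb c * w ∉ N.lattice :=
      fun w hw hwL => ((hσ.2 N hN).2 w hw hwL).1
    have hcz := hNz z hTz hzL
    have hczp : emb c * z + P₀ ∉ N.lattice := by
      intro h
      refine hNz _ hTp hzP' ?_
      have h1 : emb c * (z + P₀) = (emb c * z + P₀) + emb (c - 1) * P₀ := by
        rw [mul_add, hcP]; ring
      rw [h1]
      exact add_mem h hcPL
    have hczm : emb c * z - P₀ ∉ N.lattice := by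
      intro h
      refine hNz _ hTm hzP ?_
      have h1 : emb c * (z - P₀) = (emb c * z - P₀) - emb (c - 1) * P₀ := by
        rw [mul_sub, hcP]; ring
      rw [h1]
      exact sub_mem h hcPL
    have hσp : (σ ⟨xu N u e (z + P₀), hxp⟩ : ℂ) = xu N u e (emb c * z + P₀) := by
      rw [hσx _ hTp hzP']
      have h1 : emb c * (z + P₀) = (emb c * z + P₀) + emb (c - 1) * P₀ := by
        rw [mul_add, hcP]; ring
      rw [h1]
      exact ((hper _).1 _ hcPL).1
    have hσm : (σ ⟨xu N u e (z - P₀), hxm⟩ : ℂ) = xu N u e (emb c * z - P₀) := by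
      rw [hσx _ hTm hzP]
      have h1 : emb c * (z - P₀) = (emb c * z - P₀) + -(emb (c - 1) * P₀) := by
        rw [mul_sub, hcP]; ring
      rw [h1]
      exact ((hper _).1 _ (neg_mem hcPL)).1
    have hσz := hσx z hTz hzL hxz
    have hσP : (σ ⟨xu N u e P₀, hxP⟩ : ℂ) = xu N u e P₀ := hfix _ _ (hF' P₀ hTP' hP₀L)
    have hσg : ∀ q ∈ H', (σ (g q) : ℂ) = xu N u e q := by
      intro q hq
      have h1 : g q = ⟨xu N u e q, hle (hF' q (hTq' q hq) (hqL q hq))⟩ := Subtype.ext (hg q hq)
      rw [h1]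
      exact hfix _ _ (hF' q (hTq' q hq) (hqL q hq))
    refine ⟨?_, ?_⟩
    · have h40 : (⟨(X' : ℂ), hX⟩ : RF m) = X' := rfl
      rw [h40, hX', map_mul, map_mul, map_mul, map_pow, map_sub, map_sub, map_sum, map_inv₀,
        map_ofNat]
      have h42 : ((∑ q ∈ H', σ (((⟨xu N u e z, hxz⟩ : RF m) - g q)⁻¹) : RF m) : ℂ) =
          ∑ q ∈ H', (xu N u e (emb c * z) - xu N u e q)⁻¹ := by
        show (RF m).val (∑ q ∈ H', σ (((⟨xu N u e z, hxz⟩ : RF m) - g q)⁻¹)) = _
        rw [map_sum]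
        refine Finset.sum_congr rfl fun q hq => ?_
        rw [map_inv₀, map_sub, ← hσg q hq, ← hσz]
        rfl
      have h41 := yy_mul hL hxn hcz hP₀L hczp hczm
      show ((σ ⟨xu N u e z, hxz⟩ : ℂ) - (σ ⟨xu N u e P₀, hxP⟩ : ℂ)) ^ 2 *
        ((σ ⟨xu N u e (z - P₀), hxm⟩ : ℂ) - (σ ⟨xu N u e (z + P₀), hxp⟩ : ℂ)) *
        ((∑ q ∈ H', σ (((⟨xu N u e z, hxz⟩ : RF m) - g q)⁻¹) : RF m) : ℂ) * (4 : ℂ)⁻¹ = _
      rw [h42, hσz, hσP, hσp, hσm, ← h41]
      ring
    · have h11 : (⟨xu N u e z - xu N u e P₀, hπ⟩ : RF m) =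
          ⟨xu N u e z, hxz⟩ - ⟨xu N u e P₀, hxP⟩ := rfl
      rw [h11, map_sub]
      show (σ ⟨xu N u e z, hxz⟩ : ℂ) - (σ ⟨xu N u e P₀, hxP⟩ : ℂ) = _
      rw [hσz, hσP]

end

end Pool.Agent.NSER


end

section

/-!
# MUX-NS, block ER, module TRV (helper12): the valuation of a trace
-/

set_option autoImplicit false

open Polynomial

namespace Pool.Agent.NSER

open _root_.Pool.Agent.NSE (IntP)

noncomputable section

namespace Trv

/-- the product over `l < e` of `x - p l`, the zero factors left out -/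
def GG {F : Type*} [Field F] (p : ℕ → F) (e : ℕ) (x : F) : F :=
  open Classical in ∏ l ∈ Finset.range e, (if p l = x then 1 else x - p l)

theorem prod_shift {F : Type*} [CommMonoid F] (g : ℕ → F) (e : ℕ) (h : g e = g 0) :
    ∏ l ∈ Finset.range e, g (l + 1) = ∏ l ∈ Finset.range e, g l := by
  rcases Nat.eq_zero_or_pos e with h0 | h0
  · subst h0; simp
  · obtain ⟨n, rfl⟩ : ∃ n, e = n + 1 := ⟨e - 1, by omega⟩
    rw [Finset.prod_range_succ (fun l => g (l + 1)), Finset.prod_range_succ' (fun l => g l), h]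

theorem gg_map {F : Type*} [Field F] (p : ℕ → F) (e : ℕ) (s : F ≃+* F)
    (hs : ∀ l, s (p l) = p (l + 1)) (he : p e = p 0) (x : F) :
    s (GG p e x) = GG p e (s x) := by
  classical
  unfold GG
  rw [map_prod, ← prod_shift (fun l => if p l = s x then 1 else s x - p l) e (by
    simp only [he])]
  refine Finset.prod_congr rfl fun l _ => ?_
  by_cases h : p l = x
  · rw [if_pos h, if_pos (by rw [← hs l, h]), map_one]
  · rw [if_neg h, if_neg (by rw [← hs l]; exact fun h' => h (s.injective h')), map_sub, hs l]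

theorem gg_erase {F : Type*} [Field F] (p : ℕ → F) (e j : ℕ) (hj : j < e)
    (hp : ∀ l < e, ∀ l' < e, p l = p l' → l = l') :
    GG p e (p j) = ∏ l' ∈ (Finset.range e).erase j, (p j - p l') := by
  classical
  unfold GG
  rw [← Finset.mul_prod_erase _ _ (Finset.mem_range.2 hj), if_pos rfl, one_mul]
  refine Finset.prod_congr rfl fun l hl => ?_
  have h1 := Finset.mem_erase.1 hl
  rw [if_neg]
  exact fun h => h1.1 (hp _ (Finset.mem_range.1 h1.2) _ hj h)

end Trv

open _root_.Pool.Agent.NSER.Trv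

theorem tf_TRV (hLAG : Sf_LAG) : Sf_TRV := by
  classical
  intro K _ _ V M₀ M σ N e k π he hfix hM₀ hgen hσe hπ0 hπ1 hval hne hG X hX
  -- the conjugates
  set p : ℕ → M := fun l => (σ ^ l) π with hp
  have hp0 : p 0 = π := by simp [hp]
  have hpe : p e = p 0 := by rw [hp0]; exact hσe
  have hps : ∀ l, σ (p l) = p (l + 1) := by
    intro l
    simp only [hp]
    rw [pow_succ']
    rfl
  have hinj : ∀ l < e, ∀ l' < e, p l = p l' → l = l' := by
    have key : ∀ l < e, ∀ l' < e, l < l' → p l ≠ p l' := by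
      intro l hl l' hl' hll h
      obtain ⟨d, rfl⟩ : ∃ d, l' = l + d := ⟨l' - l, by omega⟩
      refine hne d (by omega) (by omega) ?_
      have h2 : (σ ^ l) ((σ ^ d) π) = (σ ^ l) π := by
        have : (σ ^ (l + d)) π = (σ ^ l) π := h.symm
        rw [pow_add] at this
        exact this
      exact (σ ^ l).injective h2
    intro l hl l' hl' h
    rcases lt_trichotomy l l' with h1 | h1 | h1
    · exact absurd h (key l hl l' hl' h1)
    · exact h1
    · exact absurd h.symm (key l' hl' l hl h1)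
  -- the constant kappa
  set κ : M := (∏ l ∈ Finset.range e, p l) ^ k with hκ
  have hκs : σ κ = κ := by
    rw [hκ, map_pow, map_prod]
    congr 1
    rw [← prod_shift p e hpe]
    exact Finset.prod_congr rfl fun l _ => hps l
  have hκl : ∀ l : ℕ, (σ ^ l) κ = κ := by
    intro l
    induction l with
    | zero => simp
    | succ n ih => rw [pow_succ]; exact (congrArg (σ ^ n) hκs).trans ih
  have hvκ : V.valuation (κ : ℂ) = V.valuation (π : ℂ) ^ (e * k) := by
    rw [hκ, pow_mul]
    push_cast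
    rw [map_pow, map_prod, Finset.prod_congr rfl fun l _ => hval l, Finset.prod_const,
      Finset.card_range]
  have hvπ : V.valuation (π : ℂ) ≠ 0 := (Valuation.ne_zero_iff _).2 hπ0
  have hκ0 : (κ : ℂ) ≠ 0 := by
    intro h
    rw [h, map_zero] at hvκ
    exact pow_ne_zero _ hvπ hvκ.symm
  -- the product G
  have hGs : ∀ l : ℕ, (σ ^ l) (GG p e π) = GG p e (p l) := by
    intro l
    induction l with
    | zero => rw [hp0]; simp
    | succ n ih =>
      rw [pow_succ']
      have h1 : (σ * σ ^ n) (GG p e π) = σ ((σ ^ n) (GG p e π)) := rfl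
      rw [h1, ih, ← hps n]
      exact gg_map p e σ.toRingEquiv hps hpe (p n)
  have hGv : V.valuation ((GG p e π : M) : ℂ) ≤ V.valuation (π : ℂ) ^ (e * k) := by
    have h1 := gg_erase p e 0 he hinj
    rw [hp0] at h1
    rw [h1]
    have h2 : (Finset.range e).erase 0 = Finset.Ico 1 e := by
      ext l
      simp only [Finset.mem_erase, Finset.mem_range, Finset.mem_Ico]
      omega
    rw [h2]
    push_cast
    exact hG
  have hG0 : ∀ l < e, ((GG p e (p l) : M) : ℂ) ≠ 0 := by
    intro l hl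
    rw [gg_erase p e l hl hinj]
    push_cast
    refine Finset.prod_ne_zero_iff.2 fun l' hl' => ?_
    have h1 := Finset.mem_erase.1 hl'
    intro h
    refine h1.1 (hinj _ (Finset.mem_range.1 h1.2) _ hl ?_)
    exact Subtype.ext (sub_eq_zero.1 h).symm
  -- the element Y
  set Y : M := X * GG p e π / κ with hY
  have hvY : V.valuation (Y : ℂ) ≤ 1 := by
    rw [hY]
    push_cast
    rw [map_div₀, map_mul, hvκ]
    refine div_le_one_of_le₀ ?_ zero_le'
    calc V.valuation (X : ℂ) * V.valuation ((GG p e π : M) : ℂ)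
        ≤ 1 * V.valuation (π : ℂ) ^ (e * k) := mul_le_mul' hX hGv
      _ = _ := one_mul _
  obtain ⟨a, ha, hYa⟩ := hgen (Y : ℂ) Y.2 hvY
  set h : ℂ[X] := ∑ i : Fin N, C ((a i : M₀) : ℂ) * Polynomial.X ^ (i : ℕ) with hh
  have hint : IntP V h := by
    intro m
    rw [hh, Polynomial.finset_sum_coeff]
    refine Valuation.map_sum_le V.valuation fun i _ => ?_
    rw [Polynomial.coeff_C_mul, Polynomial.coeff_X_pow]
    split_ifs
    · rw [mul_one]; exact ha i
    · rw [mul_zero, map_zero]; exact zero_le'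
  have hYM : Y = ∑ i : Fin N, (⟨((a i : M₀) : ℂ), hM₀ (a i).2⟩ : M) * π ^ (i : ℕ) := by
    refine Subtype.ext ?_
    rw [hYa]
    push_cast
    rfl
  have hal : ∀ (l : ℕ) (i : Fin N), (σ ^ l) (⟨((a i : M₀) : ℂ), hM₀ (a i).2⟩ : M) =
      ⟨((a i : M₀) : ℂ), hM₀ (a i).2⟩ := by
    intro l i
    induction l with
    | zero => simp
    | succ n ih =>
      rw [pow_succ]
      have h1 : σ (⟨((a i : M₀) : ℂ), hM₀ (a i).2⟩ : M) = ⟨((a i : M₀) : ℂ), hM₀ (a i).2⟩ :=
        Subtype.ext (hfix _ _ (a i).2)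
      exact (congrArg (σ ^ n) h1).trans ih
  have hYl : ∀ l : ℕ, (((σ ^ l) Y : M) : ℂ) = h.eval ((p l : M) : ℂ) := by
    intro l
    rw [hYM, map_sum, hh, Polynomial.eval_finset_sum]
    push_cast
    refine Finset.sum_congr rfl fun i _ => ?_
    rw [map_mul, map_pow, hal l i, Polynomial.eval_mul, Polynomial.eval_C, Polynomial.eval_pow,
      Polynomial.eval_X]
    push_cast
    rfl
  have hYl' : ∀ l : ℕ, (σ ^ l) Y = (σ ^ l) X * GG p e (p l) / κ := by
    intro l
    rw [hY, map_div₀, map_mul, hGs l, hκl l]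
  have hL := hLAG V e (fun l => ((p l : M) : ℂ)) h
    (fun l _ => by
      show V.valuation (((σ ^ l) π : M) : ℂ) ≤ 1
      rw [hval l]; exact hπ1)
    (fun l hl l' hl' hh' => hinj l hl l' hl' (Subtype.ext hh')) hint
  have hsum : ∑ l ∈ Finset.range e, h.eval ((p l : M) : ℂ) /
      ∏ l' ∈ (Finset.range e).erase l, (((p l : M) : ℂ) - ((p l' : M) : ℂ)) =
      (∑ l ∈ Finset.range e, (((σ ^ l) X : M) : ℂ)) / (κ : ℂ) := by
    rw [Finset.sum_div]
    refine Finset.sum_congr rfl fun l hl => ?_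
    have hl' := Finset.mem_range.1 hl
    have h1 : ∏ l' ∈ (Finset.range e).erase l, (((p l : M) : ℂ) - ((p l' : M) : ℂ)) =
        ((GG p e (p l) : M) : ℂ) := by
      rw [gg_erase p e l hl' hinj]
      push_cast
      rfl
    rw [h1, ← hYl l, hYl' l]
    push_cast
    have := hG0 l hl'
    field_simp
  rw [hsum, map_div₀] at hL
  have hκv : V.valuation (κ : ℂ) ≠ 0 := (Valuation.ne_zero_iff _).2 hκ0
  rw [← hvκ]
  exact (div_le_one₀ (zero_lt_iff.2 hκv)).1 hL

end

end Pool.Agent.NSER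


end

section

/-!
# MUX-NS, block ER: points of order prime to 3 (TNC)
-/

set_option autoImplicit false

open Polynomial

namespace Pool.Agent.NSER

open _root_.MU3 _root_.Pool.Agent.MU3A _root_.Pool.Agent.MU3B _root_.Pool.Agent.MUX _root_.Pool.Agent.MUXU _root_.Pool.Agent.MUXE
open _root_.Pool.Agent.RI _root_.Pool.Agent.NS _root_.Pool.Agent.NSRD
open _root_.Pool.Agent.MUXV (GR InK tX)
open _root_.Pool.Agent.NSE (E3 su ru WL IntP Rep)

namespace FTNC

theorem v_int (V : ValuationSubring ℂ) (a : ℤ) : V.valuation (a : ℂ) ≤ 1 :=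
  (V.valuation_le_one_iff _).2 (intCast_mem V a)

/-- integers prime to `3` are units at `V` -/
theorem v_nat (V : ValuationSubring ℂ) (h3 : V.valuation (3 : ℂ) < 1) (N : ℕ) (hN : ¬ 3 ∣ N) :
    V.valuation (N : ℂ) = 1 := by
  have hc : Nat.Coprime N 3 := ((Nat.Prime.coprime_iff_not_dvd Nat.prime_three).2 hN).symm
  obtain ⟨a, b, hab⟩ := Nat.isCoprime_iff_coprime.2 hc
  refine le_antisymm ?_ ?_
  · have := v_int V (N : ℤ)
    rwa [Int.cast_natCast] at this
  · by_contra hlt
    have hlt' : V.valuation (N : ℂ) < 1 := not_le.1 hlt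
    have e : (a : ℂ) * (N : ℂ) + (b : ℂ) * 3 = 1 := by
      have := congrArg (fun t : ℤ => (t : ℂ)) hab
      push_cast at this
      exact this
    have h1 : V.valuation ((a : ℂ) * (N : ℂ)) < 1 := by
      rw [map_mul]
      exact lt_of_le_of_lt (mul_le_of_le_one_left' (v_int V a)) hlt'
    have h2 : V.valuation ((b : ℂ) * 3) < 1 := by
      rw [map_mul]
      exact lt_of_le_of_lt (mul_le_of_le_one_left' (v_int V b)) h3
    have h4 := Valuation.map_add_lt V.valuation h1 h2
    rw [e, map_one] at h4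
    exact lt_irrefl _ h4

end FTNC

open _root_.Pool.Agent.NSER.FTNC in
theorem tf_TNC (h : Sf_GRN) : Sf_TNC := by
  intro V L u e lam hG hv3
  obtain ⟨ξ, G⟩ := h V L u e lam hG hv3
  exact fun N hN => ⟨v_nat V hv3 N hN, fun z hz hK =>
    Pool.Agent.MUXV.mem_of_nat_mul G hK (v_nat V hv3 N hN) hz⟩

end Pool.Agent.NSER


end

section

/-!
# MUX-NS, block ER, module ORB: a transversal of the orbits of a free cyclic action (helper80)
-/

set_option autoImplicit false

open Polynomial

namespace Pool.Agent.NSER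

open _root_.MU3 _root_.Pool.Agent.MU3A _root_.Pool.Agent.MU3B _root_.Pool.Agent.MUX _root_.Pool.Agent.MUXU _root_.Pool.Agent.MUXE
open _root_.Pool.Agent.RI _root_.Pool.Agent.NS _root_.Pool.Agent.NSRD
open _root_.Pool.Agent.MUXV (GR InK tX)
open _root_.Pool.Agent.NSE (E3 su ru WL IntP Rep)

noncomputable section

namespace ORB

/-- two exponents give the same point only if they are equal -/
lemma inj {α : Type} {φ : α → α} {e : ℕ} {x : α} (h1 : φ^[e] x = x)
    (h2 : ∀ l, 0 < l → l < e → φ^[l] x ≠ x) {l m : ℕ} (hlm : l < m) (hm : m < e) :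
    φ^[l] x ≠ φ^[m] x := by
  intro h
  have h3 : φ^[e - l] (φ^[l] x) = φ^[e - l] (φ^[m] x) := by rw [h]
  rw [← Function.iterate_add_apply, ← Function.iterate_add_apply] at h3
  have e1 : e - l + l = e := by omega
  have e2 : e - l + m = (m - l) + e := by omega
  rw [e1, e2, Function.iterate_add_apply, h1] at h3
  exact h2 (m - l) (by omega) (by omega) h3.symm

lemma iter_mem {α : Type} {S : Finset α} {φ : α → α} (h : ∀ x ∈ S, φ x ∈ S) {x : α} (hx : x ∈ S) :
    ∀ l : ℕ, φ^[l] x ∈ S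
  | 0 => hx
  | l + 1 => by
    rw [Function.iterate_succ_apply']
    exact h _ (iter_mem h hx l)

lemma iter_mod {α : Type} {φ : α → α} {e : ℕ} {x : α} (h1 : φ^[e] x = x) (k : ℕ) :
    φ^[k] x = φ^[k % e] x := by
  have h2 : ∀ q : ℕ, φ^[e * q] x = x := by
    intro q
    rw [Function.iterate_mul]
    exact Function.iterate_fixed h1 q
  conv_lhs => rw [← Nat.mod_add_div k e, Function.iterate_add_apply, h2]

lemma main {α : Type} {φ : α → α} {e : ℕ} (he : 0 < e) : ∀ (n : ℕ) (S : Finset α), S.card = n →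
    (∀ x ∈ S, φ x ∈ S) → (∀ x ∈ S, φ^[e] x = x) →
    (∀ x ∈ S, ∀ l, 0 < l → l < e → φ^[l] x ≠ x) →
    ∃ T : Finset α, T ⊆ S ∧
      (∀ F : α → ℂ, ∏ x ∈ S, F x = ∏ x ∈ T, ∏ l ∈ Finset.range e, F (φ^[l] x)) ∧
      ∀ F : α → ℂ, ∑ x ∈ S, F x = ∑ x ∈ T, ∑ l ∈ Finset.range e, F (φ^[l] x) := by
  classical
  intro n
  induction n using Nat.strong_induction_on with
  | _ n ih =>
    intro S hS h1 h2 h3
    rcases S.eq_empty_or_nonempty with rfl | ⟨x, hx⟩
    · exact ⟨∅, Finset.Subset.refl _, fun F => by simp, fun F => by simp⟩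
    · set O : Finset α := (Finset.range e).image (fun l => φ^[l] x) with hO
      have hOS : O ⊆ S := by
        intro y hy
        obtain ⟨l, -, rfl⟩ := Finset.mem_image.1 hy
        exact iter_mem h1 hx l
      have hxO : x ∈ O := Finset.mem_image.2 ⟨0, Finset.mem_range.2 he, rfl⟩
      have hinj : Set.InjOn (fun l => φ^[l] x) (Finset.range e : Set ℕ) := by
        intro l hl m hm hlm
        have hl' : l < e := Finset.mem_range.1 hl
        have hm' : m < e := Finset.mem_range.1 hm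
        rcases lt_trichotomy l m with h | h | h
        · exact absurd hlm (inj (h2 x hx) (h3 x hx) h hm')
        · exact h
        · exact absurd hlm.symm (inj (h2 x hx) (h3 x hx) h hl')
      have hcard : (S \ O).card < n := by
        rw [← hS]
        refine Finset.card_lt_card ⟨Finset.sdiff_subset, fun h => ?_⟩
        exact (Finset.mem_sdiff.1 (h hx)).2 hxO
      have hst : ∀ y ∈ S \ O, φ y ∈ S \ O := by
        intro y hy
        obtain ⟨hyS, hyO⟩ := Finset.mem_sdiff.1 hy
        refine Finset.mem_sdiff.2 ⟨h1 y hyS, fun h => hyO ?_⟩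
        obtain ⟨l, -, hl⟩ := Finset.mem_image.1 h
        have e1 : φ^[e - 1] (φ y) = y := by
          rw [← Function.iterate_succ_apply]
          have : (e - 1).succ = e := by omega
          rw [this]
          exact h2 y hyS
        rw [← hl] at e1
        have e2 : φ^[e - 1 + l] x = y := by
          rw [Function.iterate_add_apply]
          exact e1
        rw [iter_mod (h2 x hx)] at e2
        exact Finset.mem_image.2 ⟨_, Finset.mem_range.2 (Nat.mod_lt _ he), e2⟩
      obtain ⟨T, hT, hp, hs⟩ := ih _ hcard (S \ O) rfl hst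
        (fun y hy => h2 y (Finset.mem_sdiff.1 hy).1) (fun y hy => h3 y (Finset.mem_sdiff.1 hy).1)
      have hxT : x ∉ T := fun h => (Finset.mem_sdiff.1 (hT h)).2 hxO
      refine ⟨insert x T, ?_, fun F => ?_, fun F => ?_⟩
      · intro y hy
        rcases Finset.mem_insert.1 hy with rfl | h
        · exact hx
        · exact (Finset.mem_sdiff.1 (hT h)).1
      · rw [Finset.prod_insert hxT, ← hp F, ← Finset.prod_sdiff hOS, mul_comm]
        congr 1
        rw [hO, Finset.prod_image hinj]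
      · rw [Finset.sum_insert hxT, ← hs F, ← Finset.sum_sdiff hOS, add_comm]
        congr 1
        rw [hO, Finset.sum_image hinj]

end ORB

/-- (ORB) a transversal of the orbits of a free cyclic action -/
theorem tf_ORB : Sf_ORB := fun _ S _ _ he h1 h2 h3 => ORB.main he S.card S rfl h1 h2 h3

end

end Pool.Agent.NSER


end

section

/-!
# MUX-NS, block ER, module LEG (helper86): the points of order two
-/

set_option autoImplicit false

open Polynomial

namespace Pool.Agent.NSER

open _root_.MU3 _root_.Pool.Agent.MU3A _root_.Pool.Agent.MU3B _root_.Pool.Agent.MUX _root_.Pool.Agent.MUXU _root_.Pool.Agent.MUXE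
open _root_.Pool.Agent.RI _root_.Pool.Agent.NS
open _root_.Pool.Agent.MUXV (GR InK tX)

noncomputable section

theorem tf_LEG : Sf_LEG := by
  intro V L u e lam h h3
  have hu := h.u0
  obtain ⟨w₁, hw₁, h1⟩ := b_SUR L e
  obtain ⟨w₂, hw₂, h2⟩ := b_SUR L (e + u ^ 2)
  have x1 : xu L u e w₁ = 0 := by
    unfold xu
    rw [h1]
    simp
  have x2 : xu L u e w₂ = 1 := by
    unfold xu
    rw [h2]
    field_simp
    ring
  have key : ∀ w : ℂ, w ∉ L.lattice → (xu L u e w = 0 ∨ xu L u e w = 1) →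
      2 * w ∈ L.lattice := by
    intro w hw hx
    have h5 : yu L u w ^ 2 = xu L u e w * (xu L u e w - 1) * (xu L u e w - lam) := h.eq w hw
    have h6 : yu L u w ^ 2 = 0 := by
      rw [h5]
      rcases hx with hx | hx
      · rw [hx]
        ring
      · rw [hx]
        ring
    have h7 : yu L u w = 0 := by
      exact pow_eq_zero_iff (two_ne_zero) |>.mp h6
    have h8 : L.derivWeierstrassP w = 0 := by
      unfold yu at h7
      rcases div_eq_zero_iff.mp h7 with h9 | h9
      · exact h9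
      · exact absurd h9 (mul_ne_zero two_ne_zero (pow_ne_zero 3 hu))
    exact (b_ZER L w hw).mp h8
  refine ⟨w₁, w₂, key w₁ hw₁ (Or.inl x1), hw₁, key w₂ hw₂ (Or.inr x2), hw₂, h1, ?_, x1⟩
  rw [h1, h2]
  ring

end

end Pool.Agent.NSER


end

section

/-!
# MUX-NS, block ER, module EXO: exact orders of the points of level `m = 3^(n+1) f`
-/

set_option autoImplicit false

namespace Pool.Agent.NSER

open _root_.MU3 _root_.Pool.Agent.MU3A _root_.Pool.Agent.MU3B _root_.Pool.Agent.MUX _root_.Pool.Agent.MUXU _root_.Pool.Agent.MUXE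
open _root_.Pool.Agent.RI _root_.Pool.Agent.NS _root_.Pool.Agent.NSRD

noncomputable section

private lemma exo_inj_NSF_EXO {A B : ℤ} (hR : RingE A B) (x y : OO A B) (h : emb x = emb y) : x = y := by
  obtain ⟨φ, hφ⟩ := hR.hom
  have h1 : emb (x - y) = 0 := by
    rw [← hφ, map_sub, hφ, hφ, h, sub_self]
  exact sub_eq_zero.1 (hR.inj0 _ h1)

private lemma exo_nI_NSF_EXO {A B : ℤ} (hR : RingE A B) (b : Ideal (OO A B)) (hb : b ≠ ⊥) :
    nI b ≠ 0 ∧ ((nI b : ℕ) : OO A B) ∈ b := by
  have := hR.ded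
  refine ⟨?_, ?_⟩
  · change Ideal.absNorm b ≠ 0
    rw [Ne, Ideal.absNorm_eq_zero_iff]
    exact hb
  · change ((Ideal.absNorm b : ℕ) : OO A B) ∈ b
    exact Ideal.absNorm_mem b

private lemma exo_nat_NSF_EXO {A B : ℤ} (m k : ℕ) (h : ((m : ℕ) : OO A B) ∣ ((k : ℕ) : OO A B)) :
    m ∣ k := by
  obtain ⟨z, hz⟩ := h
  have h5 : (k : ℤ) = (m : ℤ) * z.re := by
    have := congrArg QuadraticAlgebra.re hz
    simpa using this
  exact Int.natCast_dvd_natCast.1 ⟨z.re, h5⟩

theorem tf_EXO (hI : Sf_IDL) : Sf_EXO := by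
  intro A B P V hC n f ι R hf i x hx
  have hR := hC.ring
  obtain ⟨φ, hφ⟩ := hR.hom
  obtain ⟨h3P, -, -, -, hI2⟩ := hI A B P V hC
  obtain ⟨-, hlv, -⟩ := hI2 f n hf
  set m : ℕ := 3 ^ (n + 1) * f with hm
  have hm0 : m ≠ 0 := by
    rw [hm]
    exact mul_ne_zero (pow_ne_zero _ (by norm_num)) hf
  have hmC : (m : ℂ) ≠ 0 := by exact_mod_cast hm0
  have hnl := R.nl i
  have hnl0 := R.nl R.i0
  obtain ⟨hN0, hNb⟩ := exo_nI_NSF_EXO hR (R.b i) hnl.b_ne
  have hNC : ((nI (R.b i) : ℕ) : ℂ) ≠ 0 := by exact_mod_cast hN0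
  have hom : R.om i ≠ 0 := hnl.om_ne
  have hom0 : R.om R.i0 ≠ 0 := hnl0.om_ne
  have heN : ∀ k : ℕ, emb ((k : ℕ) : OO A B) = (k : ℂ) := fun k => by rw [← hφ, map_natCast]
  have hem : ∀ x y : OO A B, emb (x * y) = emb x * emb y := fun x y => by
    rw [← hφ, ← hφ, ← hφ, map_mul]
  have hLi := hnl.mem
  have hcop : (nI (R.b i)).Coprime m := by
    have h1 := R.cop i
    rw [hm]
    exact Nat.Coprime.mul_right (Nat.Coprime.pow_right _ (Nat.Coprime.coprime_mul_right_right h1))
      (Nat.Coprime.coprime_mul_left_right h1)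
  obtain ⟨s, t, hst⟩ := Nat.isCoprime_iff_coprime.2 hcop
  have h2 : (s : OO A B) * ((nI (R.b i) : ℕ) : OO A B) + (t : OO A B) * (m : ℕ) = 1 := by
    have := congrArg (fun k : ℤ => (k : OO A B)) hst
    push_cast at this
    exact this
  have hEx : Ex (idl (A := A) (B := B) m) (R.L i) (pt R m i x) := by
    intro c
    rw [hLi, Ideal.mem_span_singleton]
    constructor
    · rintro ⟨y, -, hy⟩
      have h1 : ((nI (R.b i) : ℕ) : OO A B) * (c * x) = (m : ℕ) * y := by
        apply exo_inj_NSF_EXO hR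
        rw [hem, hem, hem, heN, heN]
        unfold pt at hy
        field_simp at hy
        linear_combination hy
      have h3 : ((m : ℕ) : OO A B) ∣ x * c := by
        refine ⟨(s : OO A B) * y + (t : OO A B) * c * x, ?_⟩
        linear_combination (-(x * c)) * h2 + (s : OO A B) * h1
      exact hx.symm.dvd_of_dvd_mul_left h3
    · rintro ⟨y, rfl⟩
      refine ⟨(nI (R.b i) : ℕ) * (y * x), (R.b i).mul_mem_right _ hNb, ?_⟩
      rw [hem, hem, hem, heN, heN]
      unfold pt
      field_simp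
  refine ⟨hEx, ?_, ?_, ?_⟩
  · rintro N nu ⟨-, hQ⟩ c
    rw [hlv c, ← mul_assoc, mul_comm (emb c) nu, mul_assoc, hQ]
    refine forall₂_congr fun p _ => ?_
    rw [← mul_assoc, ← hem]
    exact hEx (p * c)
  · intro q hq l
    have h3q : (3 : ℂ) * q ∈ (R.L i).lattice := by
      have h1 := hq 3 h3P
      have h4 : emb (3 : OO A B) = (3 : ℂ) := by rw [← hφ, map_ofNat]
      rwa [h4] at h1
    have hnat : ∀ (k : ℕ) (u : ℂ), u ∈ (R.L i).lattice → (k : ℂ) * u ∈ (R.L i).lattice := by
      intro k u hu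
      have := (R.L i).lattice.smul_mem (k : ℤ) hu
      simpa using this
    constructor
    · have h1 : ((m : ℕ) : ℂ) * pt R m i x ∈ (R.L i).lattice := by
        rw [← heN]
        exact (hEx _).2 (Ideal.mem_span_singleton_self _)
      have h4 := hnat (3 ^ n * f * l) _ h3q
      have h5 : ((m : ℕ) : ℂ) * (pt R m i x + l * q) =
          ((m : ℕ) : ℂ) * pt R m i x + ((3 ^ n * f * l : ℕ) : ℂ) * (3 * q) := by
        rw [hm]
        push_cast
        ring
      rw [h5]
      exact add_mem h1 h4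
    · intro c hc
      have h1 : emb (((3 * c : ℕ)) : OO A B) * pt R m i x ∈ (R.L i).lattice := by
        rw [heN]
        have h4 := hnat 3 _ hc
        have h5 := hnat (c * l) _ h3q
        have h6 : ((3 * c : ℕ) : ℂ) * pt R m i x =
            ((3 : ℕ) : ℂ) * ((c : ℂ) * (pt R m i x + l * q)) - ((c * l : ℕ) : ℂ) * (3 * q) := by
          push_cast
          ring
        rw [h6]
        exact sub_mem h4 h5
      have h4 := exo_nat_NSF_EXO _ _ (Ideal.mem_span_singleton.1 ((hEx _).1 h1))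
      have h5 : 3 * (3 ^ n * f) ∣ 3 * c := by
        have h6 : m = 3 * (3 ^ n * f) := by rw [hm, pow_succ]; ring
        rwa [← h6]
      exact (Dvd.intro_left _ rfl).trans (Nat.dvd_of_mul_dvd_mul_left (by norm_num) h5)
  · intro nu nu0 hnu0
    unfold pt muX
    field_simp

end

end Pool.Agent.NSER


end

section

/-!
# MUX-NS, block ER, module CTX: from the standing hypotheses to `CtxR`
-/

set_option autoImplicit false

open Polynomial

namespace Pool.Agent.NSER

open _root_.MU3 _root_.Pool.Agent.MU3A _root_.Pool.Agent.MU3B _root_.Pool.Agent.MUX _root_.Pool.Agent.MUXU _root_.Pool.Agent.MUXE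
open _root_.Pool.Agent.RI _root_.Pool.Agent.NS _root_.Pool.Agent.NSRD
open _root_.Pool.Agent.MUXV (GR InK tX)
open _root_.Pool.Agent.NSE (E3 su ru WL IntP Rep)

noncomputable section

namespace CtxRaux

variable {A B : ℤ} {P : Ideal (OO A B)}

/-- the trace -/
def tr (x : OO A B) : ℤ := 2 * x.re + B * x.im

lemma two_mul_eq (x : OO A B) :
    2 * x = ((tr x : ℤ) : OO A B) + ((x.im : ℤ) : OO A B) * dD A B := by
  apply QuadraticAlgebra.ext
  · simp only [QuadraticAlgebra.re_mul, QuadraticAlgebra.re_add, QuadraticAlgebra.re_intCast,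
      QuadraticAlgebra.im_intCast, QuadraticAlgebra.re_ofNat, QuadraticAlgebra.im_ofNat, tr, dD,
      Int.cast_id]
    ring
  · simp only [QuadraticAlgebra.im_mul, QuadraticAlgebra.im_add, QuadraticAlgebra.re_intCast,
      QuadraticAlgebra.im_intCast, QuadraticAlgebra.re_ofNat, QuadraticAlgebra.im_ofNat, tr, dD,
      Int.cast_id]
    ring

lemma dD_sq : dD A B * dD A B = ((B ^ 2 + 4 * A : ℤ) : OO A B) := by
  apply QuadraticAlgebra.ext
  · simp only [QuadraticAlgebra.re_mul, QuadraticAlgebra.re_intCast, dD, Int.cast_id]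
    ring
  · simp only [QuadraticAlgebra.im_mul, QuadraticAlgebra.im_intCast, dD]
    ring

lemma int_mem (h1 : (1 : OO A B) ∉ P) (h3 : (3 : OO A B) ∈ P) (n : ℤ) :
    ((n : ℤ) : OO A B) ∈ P ↔ (3 : ℤ) ∣ n := by
  constructor
  · intro hn
    by_contra hnd
    obtain ⟨a, b, hab⟩ := (Int.prime_three.coprime_iff_not_dvd).2 hnd
    apply h1
    have h4 := congrArg (Int.cast : ℤ → OO A B) hab
    push_cast at h4
    rw [← h4]
    exact P.add_mem (P.mul_mem_left _ h3) (P.mul_mem_left _ hn)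
  · rintro ⟨k, rfl⟩
    push_cast
    exact P.mul_mem_right _ h3

lemma mem_iff (h1 : (1 : OO A B) ∉ P) (h3 : (3 : OO A B) ∈ P) (hd : dD A B ∈ P) (x : OO A B) :
    x ∈ P ↔ (3 : ℤ) ∣ tr x := by
  rw [← int_mem h1 h3]
  have h2 := two_mul_eq x
  constructor
  · intro hx
    have h4 : ((tr x : ℤ) : OO A B) = 2 * x - ((x.im : ℤ) : OO A B) * dD A B := by
      rw [h2]
      ring
    rw [h4]
    exact P.sub_mem (P.mul_mem_left _ hx) (P.mul_mem_left _ hd)
  · intro hx
    have h4 : x = 3 * x - (((tr x : ℤ) : OO A B) + ((x.im : ℤ) : OO A B) * dD A B) := by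
      rw [← h2]
      ring
    rw [h4]
    exact P.sub_mem (P.mul_mem_right _ h3) (P.add_mem hx (P.mul_mem_left _ hd))

lemma disc (h : CQ A B) (h3 : (3 : ℤ) ∣ B ^ 2 + 4 * A) :
    ∃ D : ℤ, B ^ 2 + 4 * A = 3 * D ∧ ¬ (3 : ℤ) ∣ D := by
  obtain ⟨D, hD⟩ := h3
  refine ⟨D, hD, ?_⟩
  rintro ⟨c, hc⟩
  have hu : ¬ IsUnit (3 : ℤ) := by
    rw [Int.isUnit_iff]
    norm_num
  rcases h.hB with hB | hB
  · subst hB
    have h5 : (9 : ℤ) ∣ A := by omega
    obtain ⟨k, hk⟩ := h5
    exact hu ((h.fund0 rfl).1 3 ⟨k, by rw [hk]; ring⟩)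
  · subst hB
    exact hu (h.fund1 rfl 3 ⟨c, by linarith⟩)

lemma _root_.Pool.Agent.NSER.CtxRaux.three_ne_zero' : (3 : OO A B) ≠ 0 := by
  intro h
  have h1 := congrArg QuadraticAlgebra.re h
  simp only [QuadraticAlgebra.re_ofNat, QuadraticAlgebra.re_zero] at h1
  norm_num at h1

lemma _root_.Pool.Agent.NSER.CtxRaux.sq_le (h3 : ∀ x ∈ P, (3 : ℤ) ∣ tr x) {D : ℤ} (hD : B ^ 2 + 4 * A = 3 * D) {x y : OO A B}
    (hx : x ∈ P) (hy : y ∈ P) : x * y ∈ idl (A := A) (B := B) 3 := by
  obtain ⟨a, ha⟩ := h3 x hx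
  obtain ⟨b, hb⟩ := h3 y hy
  have h1 := two_mul_eq x
  have h2 := two_mul_eq y
  have h4 : dD A B * dD A B = 3 * ((D : ℤ) : OO A B) := by
    rw [dD_sq, hD]
    push_cast
    rfl
  rw [ha] at h1
  rw [hb] at h2
  push_cast at h1 h2
  rw [Ideal.mem_span_singleton]
  refine ⟨3 * (a : OO A B) * b + (x.im : OO A B) * (y.im : OO A B) * (D : OO A B) +
    ((a : OO A B) * (y.im : OO A B) + (b : OO A B) * (x.im : OO A B)) * dD A B - x * y, ?_⟩
  push_cast
  linear_combination (2 * y) * h1 + (3 * (a : OO A B) + (x.im : OO A B) * dD A B) * h2 +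
    (x.im : OO A B) * (y.im : OO A B) * h4

end CtxRaux

open _root_.Pool.Agent.NSER.CtxRaux _root_.Pool.Agent.NSR.ALRaux in
/-- (CTX) from the standing hypotheses to `CtxR` -/
theorem tf_CTX : Sf_CTX := by
  intro A B P V hC hP hV hT hF
  obtain ⟨hF1, hF2⟩ := hF A B P V hC hP hV hT
  have h := hC.toCQ
  have h3P : (3 : OO A B) ∈ P := by
    have := hP.mem
    rwa [Nat.cast_ofNat] at this
  have h1P : (1 : OO A B) ∉ P := fun h1 => hP.prime.ne_top ((Ideal.eq_top_iff_one P).2 h1)
  have hv3 : V.valuation (3 : ℂ) < 1 := by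
    have h1 := (hV ((3 : ℕ) : OO A B)).2 hP.mem
    rw [ValuationSubring.mem_nonunits_iff, MUX.emb_natCast h] at h1
    simpa using h1
  obtain ⟨D, hD, hD3⟩ := disc h hC.three
  have hdP : dD A B ∈ P := by
    have h1 : dD A B * dD A B ∈ P := by
      rw [dD_sq, int_mem h1P h3P]
      exact hC.three
    rcases hP.prime.mem_or_mem h1 with h2 | h2 <;> exact h2
  have hmem := mem_iff (P := P) h1P h3P hdP
  have hunit : ∀ x : OO A B, x ∉ P → V.valuation (emb x) = 1 := fun x hx =>
    le_antisymm (v_emb h V x) (not_lt.1 fun h1 =>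
      hx ((hV x).1 ((ValuationSubring.mem_nonunits_iff V).2 h1)))
  have hpm : ∀ x : OO A B, x ∉ P → x - 1 ∈ P ∨ x + 1 ∈ P := by
    intro x hx
    rw [hmem] at hx ⊢
    rw [hmem]
    have e1 : tr (x - 1) = tr x - 2 := by
      unfold tr
      rw [QuadraticAlgebra.re_sub, QuadraticAlgebra.im_sub, QuadraticAlgebra.re_one,
        QuadraticAlgebra.im_one]
      ring
    have e2 : tr (x + 1) = tr x + 2 := by
      unfold tr
      rw [QuadraticAlgebra.re_add, QuadraticAlgebra.im_add, QuadraticAlgebra.re_one,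
        QuadraticAlgebra.im_one]
      ring
    rw [e1, e2]
    omega
  have hsub : ∀ x ∈ P, ∀ y ∈ P, x * y ∈ idl (A := A) (B := B) 3 := fun x hx y hy =>
    _root_.Pool.Agent.NSER.CtxRaux.sq_le (fun x hx => (hmem x).1 hx) hD hx hy
  have hsq : P * P = idl (A := A) (B := B) 3 := by
    refine le_antisymm (Ideal.mul_le.2 hsub) ?_
    rw [Ideal.span_singleton_le_iff_mem, Nat.cast_ofNat]
    have h9 : (3 : OO A B) * 3 ∈ P * P := Ideal.mul_mem_mul h3P h3P
    have hdd : dD A B * dD A B ∈ P * P := Ideal.mul_mem_mul hdP hdP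
    obtain ⟨a, b, hab⟩ := (Int.prime_three.coprime_iff_not_dvd).2 hD3
    have h4 := congrArg (Int.cast : ℤ → OO A B) hab
    have h5 : dD A B * dD A B = 3 * ((D : ℤ) : OO A B) := by
      rw [dD_sq, hD]
      push_cast
      rfl
    push_cast at h4
    have h6 : (3 : OO A B) = (a : OO A B) * (3 * 3) + (b : OO A B) * (dD A B * dD A B) := by
      linear_combination (-3 : OO A B) * h4 - (b : OO A B) * h5
    rw [h6]
    exact Ideal.add_mem _ (Ideal.mul_mem_left _ _ h9) (Ideal.mul_mem_left _ _ hdd)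
  have hmul : ∀ x y : OO A B, V.valuation (emb (x * y)) =
      V.valuation (emb x) * V.valuation (emb y) := fun x y => by
    rw [MUX.emb_mul h, map_mul]
  have hidl : ∀ x ∈ idl (A := A) (B := B) 3, V.valuation (emb x) ≤ V.valuation (3 : ℂ) := by
    intro x hx
    obtain ⟨y, rfl⟩ := Ideal.mem_span_singleton.1 hx
    rw [hmul, MUX.emb_natCast h, Nat.cast_ofNat]
    exact mul_le_of_le_one_right' (v_emb h V y)
  refine
    { ring := te_RNG A B h
      cq := h
      v3 := hv3
      int := v_emb h V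
      unit := hunit
      vP := ?_
      nat := ?_
      max := ?_
      nP := hP.norm
      sq := hsq
      nrm := ?_
      pm := hpm
      dP := hdP
      vd := ?_
      good := ?_
      iner := hF2
      exq := ?_ }
  · intro x hx
    rw [sq, ← hmul]
    exact hidl _ (hsub x hx x hx)
  · intro n hn
    have := v_int_unit (V := V) hv3 (n := (n : ℤ)) (by omega)
    simpa using this
  · rw [Ideal.isMaximal_iff]
    refine ⟨h1P, ?_⟩
    intro J x hJ hx hxJ
    rcases hpm x hx with h2 | h2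
    · have h4 : (1 : OO A B) = x - (x - 1) := by ring
      rw [h4]
      exact J.sub_mem hxJ (hJ h2)
    · have h4 : (1 : OO A B) = (x + 1) - x := by ring
      rw [h4]
      exact J.sub_mem (hJ h2) hxJ
  · intro x hx h1
    apply hx
    rw [hmem]
    have h2 := RNGaux.four_nm x
    have h4 : tr x ^ 2 = 4 * nm x + 3 * (D * x.im ^ 2) := by
      unfold tr
      rw [h2]
      unfold absD
      rw [← mul_assoc, ← hD]
      ring
    exact Int.prime_three.dvd_of_dvd_pow (n := 2) (by
      rw [h4]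
      exact dvd_add (h1.mul_left _) (dvd_mul_right _ _))
  · rw [sq, ← hmul, dD_sq, MUX.emb_intCast h, hD]
    push_cast
    rw [map_mul, v_int_unit hv3 hD3, mul_one]
  · rintro L ⟨b, om, hL⟩
    obtain ⟨u, e, lam, h1, -⟩ := hF1 b L om hL
    exact ⟨u, e, lam, h1⟩
  · rintro L ⟨b, om, hL⟩
    have hPb : P ≠ ⊥ := by
      rintro rfl
      exact _root_.Pool.Agent.NSER.CtxRaux.three_ne_zero' (Ideal.mem_bot.1 h3P)
    obtain ⟨σ, -, hσ⟩ := hT.surj ⊤ (by
      intro h0
      have h4 : (3 : OO A B) ∈ (⊤ : Ideal (OO A B)) := Submodule.mem_top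
      rw [h0] at h4
      exact _root_.Pool.Agent.NSER.CtxRaux.three_ne_zero' (Ideal.mem_bot.1 h4)) P hPb (Ideal.isCoprime_iff_sup_eq.2 (sup_top_eq _))
    obtain ⟨b', L', om', mu, hL', hact⟩ := hσ b L om hL
    exact ⟨L', mu, ⟨b', om', hL'⟩, hact.isq⟩

end

end Pool.Agent.NSER


end

section

/-!
# MUX-NS, block TR, module ALT: the coordinates of torsion points are algebraic
-/

set_option autoImplicit false

namespace Pool.Agent.NSTR

open _root_.MU3 _root_.Pool.Agent.MU3A _root_.Pool.Agent.MU3B _root_.Pool.Agent.RI _root_.Pool.Agent.MUX _root_.Pool.Agent.MUXU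
open OnePoint _root_.Pool.Agent.NS _root_.Pool.Agent.NSRD
open _root_.Pool.Agent.MUXV (GR InK)
open _root_.Pool.Agent.NSE (su ru)
open _root_.Pool.Agent.NST (KIn ActT)
open _root_.Pool.Agent.MUXY (ActN Dn)

noncomputable section

open _root_.Pool.Agent.NST.ALT in
/-- (ALT) the coordinates of torsion points are algebraic -/
theorem tw_ALT : Sw_ALT := by
  intro A B hC T V h3 b L om hL u e lam hG
  have hu0 := hG.u0
  have hu2' : u ^ 2 ≠ 0 := pow_ne_zero _ hu0
  obtain ⟨e1, -, -, -, -, ⟨w₁, hw1, hw1', he⟩, -⟩ :=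
    Pool.Agent.NSR.tr_LGF L u e lam ⟨hG.u0, hG.eq⟩
  obtain ⟨w₂, hw2, hew⟩ := b_SUR L (e + u ^ 2)
  have hw2' : 2 * w₂ ∈ L.lattice := by
    apply (b_ZER L w₂ hw2).1
    have h1 := hG.eq w₂ hw2
    have h4 : (L.weierstrassP w₂ - e) / u ^ 2 = 1 := by
      rw [hew, add_sub_cancel_left, div_self hu2']
    rw [h4, sub_self, mul_zero, zero_mul] at h1
    have h5 := (pow_eq_zero_iff two_ne_zero).1 h1
    rcases div_eq_zero_iff.1 h5 with h6 | h6
    · exact h6
    · exact absurd h6 (mul_ne_zero two_ne_zero (pow_ne_zero _ hu0))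
  have hu : L.weierstrassP w₂ - L.weierstrassP w₁ = u ^ 2 := by
    rw [hew, he]
    ring
  have m1 := wp_mem (n := 2) hC hL hw1 (by push_cast; exact hw1')
  have m2 := wp_mem (n := 2) hC hL hw2 (by push_cast; exact hw2')
  have hu2 : u ^ 2 ∈ RF (idl (A := A) (B := B) 2) := by
    rw [← hu]; exact sub_mem m2 m1
  have hem : e ∈ RF (idl (A := A) (B := B) 2) := by rw [← he]; exact m1
  have hlam : lam ∈ RF (idl (A := A) (B := B) 2) := by
    have h6 : lam = -3 * e / u ^ 2 - 1 := by
      field_simp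
      linear_combination e1
    rw [h6]
    have h7 : (-3 : ℂ) ∈ RF (idl (A := A) (B := B) 2) := by simp
    exact sub_mem (div_mem (mul_mem h7 hem) hu2) (one_mem _)
  have hua2 : IsAlgebraic ℚ (u ^ 2) := alg_RF hC T two_ne_zero hu2
  have hua : IsAlgebraic ℚ u := IsAlgebraic.of_pow two_pos hua2
  have hea : IsAlgebraic ℚ e := alg_RF hC T two_ne_zero hem
  refine ⟨hu2, hem, hlam, hua, fun N hN z hz hz' => ?_⟩
  have hP : IsAlgebraic ℚ (L.weierstrassP z) := alg_RF hC T hN (wp_mem hC hL hz hz')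
  have hk : IsAlgebraic ℚ (kap L) := alg_RF hC T hN
    (IntermediateField.subset_adjoin _ _ ⟨b, L, om, hL, Or.inl rfl⟩)
  have hg2 : IsAlgebraic ℚ L.g₂ := by
    have h8 : L.g₂ = ((1 / 12 : ℚ) : ℂ) + ((144 : ℚ) : ℂ) * kap L := by
      unfold kap
      push_cast
      ring
    rw [h8]
    exact (alg_num _).add ((alg_num _).mul hk)
  have hg3 : IsAlgebraic ℚ L.g₃ := by
    have h8 : L.g₃ = ((-1 / 18 : ℚ) : ℂ) * L.g₂ := by
      rw [hL.nrm]
      push_cast
      ring
    rw [h8]
    exact (alg_num _).mul hg2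
  have hD : IsAlgebraic ℚ (L.derivWeierstrassP z) := by
    apply IsAlgebraic.of_pow two_pos
    rw [L.derivWeierstrassP_sq z hz]
    have h4 : IsAlgebraic ℚ (4 : ℂ) := by simpa using alg_num 4
    exact ((h4.mul (hP.pow 3)).sub (hg2.mul hP)).sub hg3
  have hx : IsAlgebraic ℚ (xu L u e z) := by
    unfold xu
    rw [div_eq_mul_inv]
    exact (hP.sub hea).mul hua2.inv
  have hy : IsAlgebraic ℚ (yu L u z) := by
    unfold yu
    rw [div_eq_mul_inv]
    have h2 : IsAlgebraic ℚ (2 : ℂ) := by simpa using alg_num 2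
    exact hD.mul (h2.mul (hua.pow 3)).inv
  refine ⟨hx, hy, ?_⟩
  unfold ru
  rw [div_eq_mul_inv]
  exact hy.neg.mul (hx.pow 2).inv

end

end Pool.Agent.NSTR


end
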